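import Pool.Agent.Strip051.G.I9231_9500.Gn

/-! # Certificates of the corner (1, 1, 2) (generated) -/

set_option linter.all false

namespace Pool.Agent.Strip051.G.I9231_9500.Tab.EW

open Pool.Agent.Strip051.PB

def A113_000p :
    ∃ t, chk3 (onCell 0 5242880 0 1073741824 991146299 28908434 (fA12W 0 3 c0B eng mog .nn true true true gB0q1 gB0q1 gB0q3 gB1q3 dB0q1 dB0q1 dB0q3 dB1q3 37748736 5242880)) t 1 1 1 = true :=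
  ⟨(T.b (T.b (T.l 2) (T.b (T.b (T.l 2) (T.b (T.l 2) (T.b (T.l 2) (T.b (T.l 2) (T.b (T.l 2) (T.b (T.l 2) (T.b (T.l 2) (T.b (T.l 2) (T.b (T.l 2) (T.b (T.l 2) (T.b (T.l 2) (T.b (T.l 2) (T.b (T.l 2) (T.c (T.c (T.a (T.l 272) (T.l 272)) (T.l 272)) (T.c (T.l 272) (T.l 272)))))))))))))))) (T.c (T.b (T.a (T.c (T.b (T.l 272) (T.l 272)) (T.l 272)) (T.l 272)) (T.l 0)) (T.b (T.c (T.l 272) (T.l 272)) (T.l 0))))) (T.b (T.b (T.b (T.c (T.l 0) (T.l 0)) (T.l 1)) (T.l 1)) (T.l 1))), by decide +kernel⟩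

def A113_000m :
    ∃ t, chk3 (onCell 0 5242880 0 1073741824 991146299 28908434 (fA12W 0 3 c0B eng mog .nn false true true gB0q1 gB0q1 gB0q3 gB1q3 dB0q1 dB0q1 dB0q3 dB1q3 37748736 5242880)) t 1 1 1 = true :=
  ⟨(T.b (T.b (T.l 1) (T.b (T.l 1) (T.b (T.l 1) (T.c (T.l 0) (T.l 0))))) (T.b (T.b (T.c (T.b (T.l 0) (T.a (T.a (T.c (T.b (T.l 68) (T.l 68)) (T.l 68)) (T.l 68)) (T.b (T.l 68) (T.l 68)))) (T.a (T.c (T.b (T.l 0) (T.l 68)) (T.l 0)) (T.l 0))) (T.b (T.b (T.b (T.b (T.b (T.b (T.b (T.b (T.b (T.b (T.b (T.b (T.b (T.c (T.c (T.a (T.c (T.l 68) (T.l 68)) (T.l 68)) (T.l 68)) (T.c (T.l 68) (T.l 68))) (T.l 2)) (T.l 2)) (T.l 2)) (T.l 2)) (T.l 2)) (T.l 2)) (T.l 2)) (T.l 2)) (T.l 2)) (T.l 2)) (T.l 2)) (T.l 2)) (T.l 2))) (T.l 2))), by decide +kernel⟩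

def A113_001p_1_8_1 :
    ∃ t, chk3 (onCell 0 5242880 0 1073741824 991146299 28908434 (fA12W 0 3 c0B eng mog .nn true true true gB0q1 gB0q1 gB1q3 gB2q3 dB0q1 dB0q1 dB1q3 dB2q3 37748736 5242880)) t 1 8 1 = true :=
  ⟨(T.l 2), by decide +kernel⟩

def A113_001p_1_36_1 :
    ∃ t, chk3 (onCell 0 5242880 0 1073741824 991146299 28908434 (fA12W 0 3 c0B eng mog .nn true true true gB0q1 gB0q1 gB1q3 gB2q3 dB0q1 dB0q1 dB1q3 dB2q3 37748736 5242880)) t 1 36 1 = true :=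
  ⟨(T.l 2), by decide +kernel⟩

def A113_001p_1_74_1 :
    ∃ t, chk3 (onCell 0 5242880 0 1073741824 991146299 28908434 (fA12W 0 3 c0B eng mog .nn true true true gB0q1 gB0q1 gB1q3 gB2q3 dB0q1 dB0q1 dB1q3 dB2q3 37748736 5242880)) t 1 74 1 = true :=
  ⟨(T.l 2), by decide +kernel⟩

def A113_001p_1_300_1 :
    ∃ t, chk3 (onCell 0 5242880 0 1073741824 991146299 28908434 (fA12W 0 3 c0B eng mog .nn true true true gB0q1 gB0q1 gB1q3 gB2q3 dB0q1 dB0q1 dB1q3 dB2q3 37748736 5242880)) t 1 300 1 = true :=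
  ⟨(T.b (T.l 2) (T.b (T.l 2) (T.b (T.b (T.b (T.l 2) (T.c (T.a (T.c (T.l 272) (T.l 272)) (T.l 272)) (T.a (T.a (T.c (T.l 272) (T.l 272)) (T.l 272)) (T.l 272)))) (T.b (T.c (T.a (T.c (T.l 272) (T.l 272)) (T.l 272)) (T.a (T.a (T.c (T.l 272) (T.l 272)) (T.l 272)) (T.l 272))) (T.c (T.a (T.c (T.l 272) (T.l 272)) (T.l 272)) (T.a (T.a (T.c (T.l 272) (T.l 272)) (T.l 272)) (T.l 272))))) (T.b (T.b (T.c (T.a (T.c (T.l 272) (T.l 272)) (T.l 272)) (T.a (T.a (T.c (T.l 272) (T.l 272)) (T.l 272)) (T.l 272))) (T.c (T.a (T.c (T.l 272) (T.l 272)) (T.l 272)) (T.a (T.a (T.c (T.l 272) (T.l 272)) (T.l 272)) (T.l 272)))) (T.b (T.c (T.a (T.c (T.l 272) (T.l 272)) (T.l 272)) (T.a (T.a (T.c (T.l 272) (T.l 272)) (T.l 272)) (T.l 272))) (T.c (T.a (T.c (T.l 272) (T.l 272)) (T.l 272)) (T.a (T.a (T.c (T.l 272) (T.l 272)) (T.l 272)) (T.l 272)))))))),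 by decide +kernel⟩

def A113_001p_1_1204_1 :
    ∃ t, chk3 (onCell 0 5242880 0 1073741824 991146299 28908434 (fA12W 0 3 c0B eng mog .nn true true true gB0q1 gB0q1 gB1q3 gB2q3 dB0q1 dB0q1 dB1q3 dB2q3 37748736 5242880)) t 1 1204 1 = true :=
  ⟨(T.b (T.b (T.b (T.c (T.a (T.c (T.l 272) (T.l 272)) (T.l 272)) (T.a (T.a (T.c (T.l 272) (T.l 272)) (T.l 272)) (T.l 272))) (T.c (T.a (T.c (T.l 272) (T.l 272)) (T.l 272)) (T.a (T.a (T.c (T.l 272) (T.l 272)) (T.l 272)) (T.l 272)))) (T.b (T.c (T.a (T.c (T.l 272) (T.l 272)) (T.l 272)) (T.a (T.a (T.c (T.l 272) (T.l 272)) (T.l 272)) (T.l 272))) (T.c (T.a (T.c (T.l 272) (T.l 272)) (T.l 272)) (T.a (T.a (T.c (T.l 272) (T.l 272)) (T.l 272)) (T.l 272))))) (T.b (T.b (T.c (T.a (T.c (T.l 272) (T.l 272)) (T.l 272)) (T.a (T.a (T.c (T.l 272) (T.l 272)) (T.l 272)) (T.l 272))) (T.c (T.a (T.c (T.l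 272) (T.l 272)) (T.l 272)) (T.a (T.a (T.c (T.l 272) (T.l 272)) (T.l 272)) (T.l 272)))) (T.b (T.c (T.a (T.c (T.l 272) (T.l 272)) (T.l 272)) (T.a (T.a (T.c (T.l 272) (T.l 272)) (T.l 272)) (T.l 272))) (T.c (T.a (T.c (T.l 272) (T.l 272)) (T.l 272)) (T.a (T.a (T.c (T.l 272) (T.l 272)) (T.l 272)) (T.l 272)))))), by decide +kernel⟩

def A113_001p_1_1205_1 :
    ∃ t, chk3 (onCell 0 5242880 0 1073741824 991146299 28908434 (fA12W 0 3 c0B eng mog .nn true true true gB0q1 gB0q1 gB1q3 gB2q3 dB0q1 dB0q1 dB1q3 dB2q3 37748736 5242880)) t 1 1205 1 = true :=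
  ⟨(T.b (T.b (T.b (T.c (T.a (T.c (T.l 272) (T.l 272)) (T.l 272)) (T.a (T.a (T.c (T.l 272) (T.l 272)) (T.l 272)) (T.l 272))) (T.c (T.a (T.c (T.l 272) (T.l 272)) (T.l 272)) (T.a (T.a (T.c (T.l 272) (T.l 272)) (T.l 272)) (T.l 272)))) (T.b (T.c (T.a (T.c (T.l 272) (T.l 272)) (T.l 272)) (T.a (T.a (T.c (T.l 272) (T.l 272)) (T.l 272)) (T.l 272))) (T.c (T.a (T.c (T.l 272) (T.l 272)) (T.l 272)) (T.a (T.a (T.c (T.l 272) (T.l 272)) (T.l 272)) (T.l 272))))) (T.b (T.b (T.c (T.a (T.c (T.l 272) (T.l 272)) (T.l 272)) (T.a (T.a (T.c (T.l 272) (T.l 272)) (T.l 272)) (T.l 272))) (T.c (T.a (T.c (T.l 272) (T.l 272)) (T.l 272)) (T.a (T.a (T.c (T.l 272) (T.l 272)) (T.l 272)) (T.l 272)))) (T.b (T.c (T.a (T.c (T.l 272) (T.l 272)) (T.l 272)) (T.a (T.a (T.c (T.l 272) (T.l 272)) (T.l 272)) (T.l 272))) (T.c (T.a (T.c (T.l 272) (T.l 272)) (T.l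 272)) (T.a (T.a (T.c (T.l 272) (T.l 272)) (T.l 272)) (T.l 272)))))), by decide +kernel⟩

def A113_001p_1_1206_1 :
    ∃ t, chk3 (onCell 0 5242880 0 1073741824 991146299 28908434 (fA12W 0 3 c0B eng mog .nn true true true gB0q1 gB0q1 gB1q3 gB2q3 dB0q1 dB0q1 dB1q3 dB2q3 37748736 5242880)) t 1 1206 1 = true :=
  ⟨(T.b (T.b (T.b (T.c (T.a (T.c (T.l 272) (T.l 272)) (T.l 272)) (T.a (T.a (T.c (T.l 272) (T.l 272)) (T.l 272)) (T.l 272))) (T.c (T.a (T.c (T.l 272) (T.l 272)) (T.l 272)) (T.a (T.a (T.c (T.l 272) (T.l 272)) (T.l 272)) (T.l 272)))) (T.b (T.c (T.a (T.c (T.l 272) (T.l 272)) (T.l 272)) (T.a (T.a (T.c (T.l 272) (T.l 272)) (T.l 272)) (T.l 272))) (T.c (T.a (T.c (T.l 272) (T.l 272)) (T.l 272)) (T.a (T.a (T.c (T.l 272) (T.l 272)) (T.l 272)) (T.l 272))))) (T.b (T.b (T.c (T.a (T.c (T.l 272) (T.l 272)) (T.l 272)) (T.a (T.a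 (T.c (T.l 272) (T.l 272)) (T.l 272)) (T.l 272))) (T.c (T.a (T.c (T.l 272) (T.l 272)) (T.l 272)) (T.a (T.a (T.c (T.l 272) (T.l 272)) (T.l 272)) (T.l 272)))) (T.b (T.c (T.a (T.c (T.l 272) (T.l 272)) (T.l 272)) (T.a (T.a (T.c (T.l 272) (T.l 272)) (T.l 272)) (T.l 272))) (T.c (T.a (T.c (T.l 272) (T.l 272)) (T.l 272)) (T.a (T.a (T.c (T.l 272) (T.l 272)) (T.l 272)) (T.l 272)))))), by decide +kernel⟩

def A113_001p_1_1207_1 :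
    ∃ t, chk3 (onCell 0 5242880 0 1073741824 991146299 28908434 (fA12W 0 3 c0B eng mog .nn true true true gB0q1 gB0q1 gB1q3 gB2q3 dB0q1 dB0q1 dB1q3 dB2q3 37748736 5242880)) t 1 1207 1 = true :=
  ⟨(T.b (T.b (T.b (T.c (T.a (T.c (T.l 272) (T.l 272)) (T.l 272)) (T.a (T.a (T.c (T.l 272) (T.l 272)) (T.l 272)) (T.l 272))) (T.c (T.a (T.c (T.l 272) (T.l 272)) (T.l 272)) (T.a (T.a (T.c (T.l 272) (T.l 272)) (T.l 272)) (T.l 272)))) (T.b (T.c (T.a (T.c (T.l 272) (T.l 272)) (T.l 272)) (T.a (T.a (T.c (T.l 272) (T.l 272)) (T.l 272)) (T.l 272))) (T.c (T.a (T.c (T.l 272) (T.l 272)) (T.l 272)) (T.a (T.a (T.c (T.l 272) (T.l 272)) (T.l 272)) (T.l 272))))) (T.b (T.b (T.c (T.a (T.c (T.l 272) (T.l 272)) (T.l 272)) (T.a (T.a (T.c (T.l 272) (T.l 272)) (T.l 272)) (T.l 272))) (T.c (T.a (T.c (T.l 272) (T.l 272)) (T.l 272)) (T.a (T.a (T.c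 (T.l 272) (T.l 272)) (T.l 272)) (T.l 272)))) (T.b (T.c (T.a (T.c (T.l 272) (T.l 272)) (T.l 272)) (T.a (T.a (T.c (T.l 272) (T.l 272)) (T.l 272)) (T.l 272))) (T.c (T.a (T.c (T.l 272) (T.l 272)) (T.l 272)) (T.a (T.a (T.c (T.l 272) (T.l 272)) (T.l 272)) (T.l 272)))))), by decide +kernel⟩

def A113_001p_1_1208_1 :
    ∃ t, chk3 (onCell 0 5242880 0 1073741824 991146299 28908434 (fA12W 0 3 c0B eng mog .nn true true true gB0q1 gB0q1 gB1q3 gB2q3 dB0q1 dB0q1 dB1q3 dB2q3 37748736 5242880)) t 1 1208 1 = true :=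
  ⟨(T.b (T.b (T.b (T.c (T.a (T.c (T.l 272) (T.l 272)) (T.l 272)) (T.a (T.a (T.c (T.l 272) (T.l 272)) (T.l 272)) (T.l 272))) (T.c (T.a (T.c (T.l 272) (T.l 272)) (T.l 272)) (T.a (T.a (T.c (T.l 272) (T.l 272)) (T.l 272)) (T.l 272)))) (T.b (T.c (T.a (T.c (T.l 272) (T.l 272)) (T.l 272)) (T.a (T.a (T.c (T.l 272) (T.l 272)) (T.l 272)) (T.l 272))) (T.c (T.a (T.c (T.l 272) (T.l 272)) (T.l 272)) (T.a (T.a (T.c (T.l 272) (T.l 272)) (T.l 272)) (T.l 272))))) (T.b (T.b (T.c (T.a (T.c (T.l 272) (T.l 272)) (T.l 272)) (T.a (T.a (T.c (T.l 272) (T.l 272)) (T.l 272)) (T.l 272))) (T.c (T.a (T.c (T.l 272) (T.l 272)) (T.l 272)) (T.a (T.a (T.c (T.l 272) (T.l 272)) (T.l 272)) (T.l 272)))) (T.b (T.c (T.a (T.c (T.l 272) (T.l 272)) (T.l 272)) (T.a (T.a (T.c (T.l 272) (T.l 272)) (T.l 272)) (T.l 272))) (T.c (T.a (T.c (T.l 272) (T.l 272)) (T.l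 272)) (T.a (T.a (T.c (T.l 272) (T.l 272)) (T.l 272)) (T.l 272)))))), by decide +kernel⟩

def A113_001p_1_1209_1 :
    ∃ t, chk3 (onCell 0 5242880 0 1073741824 991146299 28908434 (fA12W 0 3 c0B eng mog .nn true true true gB0q1 gB0q1 gB1q3 gB2q3 dB0q1 dB0q1 dB1q3 dB2q3 37748736 5242880)) t 1 1209 1 = true :=
  ⟨(T.b (T.b (T.b (T.c (T.a (T.c (T.l 272) (T.l 272)) (T.l 272)) (T.a (T.a (T.c (T.l 272) (T.l 272)) (T.l 272)) (T.l 272))) (T.c (T.a (T.c (T.l 272) (T.l 272)) (T.l 272)) (T.a (T.a (T.c (T.l 272) (T.l 272)) (T.l 272)) (T.l 272)))) (T.b (T.c (T.a (T.c (T.l 272) (T.l 272)) (T.l 272)) (T.a (T.a (T.c (T.l 272) (T.l 272)) (T.l 272)) (T.l 272))) (T.c (T.a (T.c (T.l 272) (T.l 272)) (T.l 272)) (T.a (T.a (T.c (T.l 272) (T.l 272)) (T.l 272)) (T.l 272))))) (T.b (T.b (T.c (T.a (T.c (T.l 272) (T.l 272)) (T.l 272)) (T.a (T.a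 (T.c (T.l 272) (T.l 272)) (T.l 272)) (T.l 272))) (T.c (T.a (T.c (T.l 272) (T.l 272)) (T.l 272)) (T.a (T.a (T.c (T.l 272) (T.l 272)) (T.l 272)) (T.l 272)))) (T.b (T.c (T.a (T.c (T.l 272) (T.l 272)) (T.l 272)) (T.a (T.a (T.c (T.l 272) (T.l 272)) (T.l 272)) (T.l 272))) (T.c (T.a (T.c (T.l 272) (T.l 272)) (T.l 272)) (T.a (T.a (T.c (T.l 272) (T.l 272)) (T.l 272)) (T.l 272)))))), by decide +kernel⟩

def A113_001p_1_1210_1 :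
    ∃ t, chk3 (onCell 0 5242880 0 1073741824 991146299 28908434 (fA12W 0 3 c0B eng mog .nn true true true gB0q1 gB0q1 gB1q3 gB2q3 dB0q1 dB0q1 dB1q3 dB2q3 37748736 5242880)) t 1 1210 1 = true :=
  ⟨(T.b (T.b (T.b (T.c (T.a (T.c (T.l 272) (T.l 272)) (T.l 272)) (T.a (T.a (T.c (T.l 272) (T.l 272)) (T.l 272)) (T.l 272))) (T.c (T.a (T.c (T.l 272) (T.l 272)) (T.l 272)) (T.a (T.a (T.c (T.l 272) (T.l 272)) (T.l 272)) (T.l 272)))) (T.b (T.c (T.a (T.c (T.l 272) (T.l 272)) (T.l 272)) (T.a (T.a (T.c (T.l 272) (T.l 272)) (T.l 272)) (T.l 272))) (T.c (T.a (T.c (T.l 272) (T.l 272)) (T.l 272)) (T.a (T.a (T.c (T.l 272) (T.l 272)) (T.l 272)) (T.l 272))))) (T.b (T.b (T.c (T.a (T.c (T.l 272) (T.l 272)) (T.l 272)) (T.a (T.a (T.c (T.l 272) (T.l 272)) (T.l 272)) (T.l 272))) (T.c (T.a (T.c (T.l 272) (T.l 272)) (T.l 272)) (T.a (T.a (T.c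 (T.l 272) (T.l 272)) (T.l 272)) (T.l 272)))) (T.b (T.c (T.a (T.c (T.l 272) (T.l 272)) (T.l 272)) (T.a (T.a (T.c (T.l 272) (T.l 272)) (T.l 272)) (T.l 272))) (T.c (T.a (T.c (T.l 272) (T.l 272)) (T.l 272)) (T.a (T.a (T.c (T.l 272) (T.l 272)) (T.l 272)) (T.l 272)))))), by decide +kernel⟩

def A113_001p_1_1211_1 :
    ∃ t, chk3 (onCell 0 5242880 0 1073741824 991146299 28908434 (fA12W 0 3 c0B eng mog .nn true true true gB0q1 gB0q1 gB1q3 gB2q3 dB0q1 dB0q1 dB1q3 dB2q3 37748736 5242880)) t 1 1211 1 = true :=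
  ⟨(T.b (T.b (T.b (T.c (T.a (T.c (T.l 272) (T.l 272)) (T.l 272)) (T.a (T.a (T.c (T.l 272) (T.l 272)) (T.l 272)) (T.l 272))) (T.c (T.a (T.c (T.l 272) (T.l 272)) (T.l 272)) (T.a (T.a (T.c (T.l 272) (T.l 272)) (T.l 272)) (T.l 272)))) (T.b (T.c (T.a (T.c (T.l 272) (T.l 272)) (T.l 272)) (T.a (T.a (T.c (T.l 272) (T.l 272)) (T.l 272)) (T.l 272))) (T.c (T.a (T.c (T.l 272) (T.l 272)) (T.l 272)) (T.a (T.a (T.c (T.l 272) (T.l 272)) (T.l 272)) (T.l 272))))) (T.b (T.b (T.c (T.a (T.c (T.l 272) (T.l 272)) (T.l 272)) (T.a (T.a (T.c (T.l 272) (T.l 272)) (T.l 272)) (T.l 272))) (T.c (T.a (T.c (T.l 272) (T.l 272)) (T.l 272)) (T.a (T.a (T.c (T.l 272) (T.l 272)) (T.l 272)) (T.l 272)))) (T.b (T.c (T.a (T.c (T.l 272) (T.l 272)) (T.l 272)) (T.a (T.a (T.c (T.l 272) (T.l 272)) (T.l 272)) (T.l 272))) (T.c (T.a (T.c (T.l 272) (T.l 272)) (T.l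 272)) (T.a (T.a (T.c (T.l 272) (T.l 272)) (T.l 272)) (T.l 272)))))), by decide +kernel⟩

def A113_001p_1_303_1 :
    ∃ t, chk3 (onCell 0 5242880 0 1073741824 991146299 28908434 (fA12W 0 3 c0B eng mog .nn true true true gB0q1 gB0q1 gB1q3 gB2q3 dB0q1 dB0q1 dB1q3 dB2q3 37748736 5242880)) t 1 303 1 = true :=
  ⟨(T.a (T.c (T.c (T.l 272) (T.l 272)) (T.a (T.c (T.l 272) (T.l 272)) (T.l 272))) (T.c (T.l 272) (T.l 272))), by decide +kernel⟩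

def A113_001p_1_19_1 :
    ∃ t, chk3 (onCell 0 5242880 0 1073741824 991146299 28908434 (fA12W 0 3 c0B eng mog .nn true true true gB0q1 gB0q1 gB1q3 gB2q3 dB0q1 dB0q1 dB1q3 dB2q3 37748736 5242880)) t 1 19 1 = true :=
  ⟨(T.a (T.c (T.a (T.b (T.l 272) (T.l 272)) (T.l 272)) (T.a (T.c (T.l 272) (T.l 272)) (T.l 272))) (T.c (T.l 272) (T.l 272))), by decide +kernel⟩

def A113_001p_1_5_1 :
    ∃ t, chk3 (onCell 0 5242880 0 1073741824 991146299 28908434 (fA12W 0 3 c0B eng mog .nn true true true gB0q1 gB0q1 gB1q3 gB2q3 dB0q1 dB0q1 dB1q3 dB2q3 37748736 5242880)) t 1 5 1 = true :=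
  ⟨(T.b (T.c (T.a (T.a (T.a (T.b (T.l 272) (T.c (T.l 272) (T.l 272))) (T.l 272)) (T.b (T.l 272) (T.l 272))) (T.b (T.l 272) (T.l 272))) (T.a (T.a (T.c (T.b (T.l 272) (T.l 272)) (T.l 272)) (T.l 272)) (T.l 272))) (T.b (T.b (T.b (T.b (T.b (T.b (T.b (T.b (T.b (T.b (T.b (T.b (T.b (T.b (T.c (T.c (T.a (T.l 272) (T.l 272)) (T.l 272)) (T.c (T.l 272) (T.l 272))) (T.l 1)) (T.l 1)) (T.l 1)) (T.l 1)) (T.l 1)) (T.l 1)) (T.l 1)) (T.l 1)) (T.l 1)) (T.l 1)) (T.l 1)) (T.l 1)) (T.l 1)) (T.l 1))), by decide +kernel⟩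

def A113_001p_1_3_1 :
    ∃ t, chk3 (onCell 0 5242880 0 1073741824 991146299 28908434 (fA12W 0 3 c0B eng mog .nn true true true gB0q1 gB0q1 gB1q3 gB2q3 dB0q1 dB0q1 dB1q3 dB2q3 37748736 5242880)) t 1 3 1 = true :=
  ⟨(T.l 1), by decide +kernel⟩

theorem A113_001p_1_605_1 :
    ∃ t, chk3 (onCell 0 5242880 0 1073741824 991146299 28908434 (fA12W 0 3 c0B eng mog .nn true true true gB0q1 gB0q1 gB1q3 gB2q3 dB0q1 dB0q1 dB1q3 dB2q3 37748736 5242880)) t 1 605 1 = true :=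
  ex3_b A113_001p_1_1210_1 A113_001p_1_1211_1
theorem A113_001p_1_604_1 :
    ∃ t, chk3 (onCell 0 5242880 0 1073741824 991146299 28908434 (fA12W 0 3 c0B eng mog .nn true true true gB0q1 gB0q1 gB1q3 gB2q3 dB0q1 dB0q1 dB1q3 dB2q3 37748736 5242880)) t 1 604 1 = true :=
  ex3_b A113_001p_1_1208_1 A113_001p_1_1209_1
theorem A113_001p_1_302_1 :
    ∃ t, chk3 (onCell 0 5242880 0 1073741824 991146299 28908434 (fA12W 0 3 c0B eng mog .nn true true true gB0q1 gB0q1 gB1q3 gB2q3 dB0q1 dB0q1 dB1q3 dB2q3 37748736 5242880)) t 1 302 1 = true :=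
  ex3_b A113_001p_1_604_1 A113_001p_1_605_1
theorem A113_001p_1_151_1 :
    ∃ t, chk3 (onCell 0 5242880 0 1073741824 991146299 28908434 (fA12W 0 3 c0B eng mog .nn true true true gB0q1 gB0q1 gB1q3 gB2q3 dB0q1 dB0q1 dB1q3 dB2q3 37748736 5242880)) t 1 151 1 = true :=
  ex3_b A113_001p_1_302_1 A113_001p_1_303_1
theorem A113_001p_1_603_1 :
    ∃ t, chk3 (onCell 0 5242880 0 1073741824 991146299 28908434 (fA12W 0 3 c0B eng mog .nn true true true gB0q1 gB0q1 gB1q3 gB2q3 dB0q1 dB0q1 dB1q3 dB2q3 37748736 5242880)) t 1 603 1 = true :=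
  ex3_b A113_001p_1_1206_1 A113_001p_1_1207_1
theorem A113_001p_1_602_1 :
    ∃ t, chk3 (onCell 0 5242880 0 1073741824 991146299 28908434 (fA12W 0 3 c0B eng mog .nn true true true gB0q1 gB0q1 gB1q3 gB2q3 dB0q1 dB0q1 dB1q3 dB2q3 37748736 5242880)) t 1 602 1 = true :=
  ex3_b A113_001p_1_1204_1 A113_001p_1_1205_1
theorem A113_001p_1_301_1 :
    ∃ t, chk3 (onCell 0 5242880 0 1073741824 991146299 28908434 (fA12W 0 3 c0B eng mog .nn true true true gB0q1 gB0q1 gB1q3 gB2q3 dB0q1 dB0q1 dB1q3 dB2q3 37748736 5242880)) t 1 301 1 = true :=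
  ex3_b A113_001p_1_602_1 A113_001p_1_603_1
theorem A113_001p_1_150_1 :
    ∃ t, chk3 (onCell 0 5242880 0 1073741824 991146299 28908434 (fA12W 0 3 c0B eng mog .nn true true true gB0q1 gB0q1 gB1q3 gB2q3 dB0q1 dB0q1 dB1q3 dB2q3 37748736 5242880)) t 1 150 1 = true :=
  ex3_b A113_001p_1_300_1 A113_001p_1_301_1
theorem A113_001p_1_75_1 :
    ∃ t, chk3 (onCell 0 5242880 0 1073741824 991146299 28908434 (fA12W 0 3 c0B eng mog .nn true true true gB0q1 gB0q1 gB1q3 gB2q3 dB0q1 dB0q1 dB1q3 dB2q3 37748736 5242880)) t 1 75 1 = true :=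
  ex3_b A113_001p_1_150_1 A113_001p_1_151_1
theorem A113_001p_1_37_1 :
    ∃ t, chk3 (onCell 0 5242880 0 1073741824 991146299 28908434 (fA12W 0 3 c0B eng mog .nn true true true gB0q1 gB0q1 gB1q3 gB2q3 dB0q1 dB0q1 dB1q3 dB2q3 37748736 5242880)) t 1 37 1 = true :=
  ex3_b A113_001p_1_74_1 A113_001p_1_75_1
theorem A113_001p_1_18_1 :
    ∃ t, chk3 (onCell 0 5242880 0 1073741824 991146299 28908434 (fA12W 0 3 c0B eng mog .nn true true true gB0q1 gB0q1 gB1q3 gB2q3 dB0q1 dB0q1 dB1q3 dB2q3 37748736 5242880)) t 1 18 1 = true :=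
  ex3_b A113_001p_1_36_1 A113_001p_1_37_1
theorem A113_001p_1_9_1 :
    ∃ t, chk3 (onCell 0 5242880 0 1073741824 991146299 28908434 (fA12W 0 3 c0B eng mog .nn true true true gB0q1 gB0q1 gB1q3 gB2q3 dB0q1 dB0q1 dB1q3 dB2q3 37748736 5242880)) t 1 9 1 = true :=
  ex3_b A113_001p_1_18_1 A113_001p_1_19_1
theorem A113_001p_1_4_1 :
    ∃ t, chk3 (onCell 0 5242880 0 1073741824 991146299 28908434 (fA12W 0 3 c0B eng mog .nn true true true gB0q1 gB0q1 gB1q3 gB2q3 dB0q1 dB0q1 dB1q3 dB2q3 37748736 5242880)) t 1 4 1 = true :=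
  ex3_b A113_001p_1_8_1 A113_001p_1_9_1
theorem A113_001p_1_2_1 :
    ∃ t, chk3 (onCell 0 5242880 0 1073741824 991146299 28908434 (fA12W 0 3 c0B eng mog .nn true true true gB0q1 gB0q1 gB1q3 gB2q3 dB0q1 dB0q1 dB1q3 dB2q3 37748736 5242880)) t 1 2 1 = true :=
  ex3_b A113_001p_1_4_1 A113_001p_1_5_1
theorem A113_001p :
    ∃ t, chk3 (onCell 0 5242880 0 1073741824 991146299 28908434 (fA12W 0 3 c0B eng mog .nn true true true gB0q1 gB0q1 gB1q3 gB2q3 dB0q1 dB0q1 dB1q3 dB2q3 37748736 5242880)) t 1 1 1 = true :=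
  ex3_b A113_001p_1_2_1 A113_001p_1_3_1

def A113_001m_1_2_1 :
    ∃ t, chk3 (onCell 0 5242880 0 1073741824 991146299 28908434 (fA12W 0 3 c0B eng mog .nn false true true gB0q1 gB0q1 gB1q3 gB2q3 dB0q1 dB0q1 dB1q3 dB2q3 37748736 5242880)) t 1 2 1 = true :=
  ⟨(T.l 1), by decide +kernel⟩

def A113_001m_1_6_1 :
    ∃ t, chk3 (onCell 0 5242880 0 1073741824 991146299 28908434 (fA12W 0 3 c0B eng mog .nn false true true gB0q1 gB0q1 gB1q3 gB2q3 dB0q1 dB0q1 dB1q3 dB2q3 37748736 5242880)) t 1 6 1 = true :=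
  ⟨(T.b (T.b (T.l 1) (T.b (T.l 1) (T.b (T.l 1) (T.b (T.l 1) (T.b (T.l 1) (T.b (T.l 1) (T.b (T.l 1) (T.b (T.l 1) (T.b (T.l 1) (T.b (T.l 1) (T.b (T.l 1) (T.b (T.l 1) (T.b (T.l 1) (T.b (T.l 1) (T.c (T.c (T.a (T.c (T.l 68) (T.l 68)) (T.l 68)) (T.l 68)) (T.c (T.l 68) (T.l 68))))))))))))))))) (T.c (T.a (T.a (T.b (T.a (T.c (T.b (T.l 68) (T.l 68)) (T.l 68)) (T.l 68)) (T.c (T.l 68) (T.l 68))) (T.b (T.l 68) (T.l 68))) (T.c (T.l 68) (T.l 68))) (T.a (T.a (T.a (T.c (T.l 68) (T.l 68)) (T.l 68)) (T.l 68)) (T.l 68)))), by decide +kernel⟩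

def A113_001m_1_28_1 :
    ∃ t, chk3 (onCell 0 5242880 0 1073741824 991146299 28908434 (fA12W 0 3 c0B eng mog .nn false true true gB0q1 gB0q1 gB1q3 gB2q3 dB0q1 dB0q1 dB1q3 dB2q3 37748736 5242880)) t 1 28 1 = true :=
  ⟨(T.a (T.c (T.a (T.l 68) (T.l 68)) (T.a (T.c (T.l 68) (T.l 68)) (T.l 68))) (T.c (T.l 68) (T.l 68))), by decide +kernel⟩

def A113_001m_1_464_1 :
    ∃ t, chk3 (onCell 0 5242880 0 1073741824 991146299 28908434 (fA12W 0 3 c0B eng mog .nn false true true gB0q1 gB0q1 gB1q3 gB2q3 dB0q1 dB0q1 dB1q3 dB2q3 37748736 5242880)) t 1 464 1 = true :=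
  ⟨(T.a (T.c (T.c (T.l 68) (T.l 68)) (T.a (T.c (T.l 68) (T.l 68)) (T.l 68))) (T.c (T.l 68) (T.l 68))), by decide +kernel⟩

def A113_001m_1_1860_1 :
    ∃ t, chk3 (onCell 0 5242880 0 1073741824 991146299 28908434 (fA12W 0 3 c0B eng mog .nn false true true gB0q1 gB0q1 gB1q3 gB2q3 dB0q1 dB0q1 dB1q3 dB2q3 37748736 5242880)) t 1 1860 1 = true :=
  ⟨(T.b (T.b (T.b (T.c (T.a (T.c (T.l 68) (T.l 68)) (T.l 68)) (T.a (T.a (T.c (T.l 68) (T.l 68)) (T.l 68)) (T.l 68))) (T.c (T.a (T.c (T.l 68) (T.l 68)) (T.l 68)) (T.a (T.a (T.c (T.l 68) (T.l 68)) (T.l 68)) (T.l 68)))) (T.b (T.c (T.a (T.c (T.l 68) (T.l 68)) (T.l 68)) (T.a (T.a (T.c (T.l 68) (T.l 68)) (T.l 68)) (T.l 68))) (T.c (T.a (T.c (T.l 68) (T.l 68)) (T.l 68)) (T.a (T.a (T.c (T.l 68) (T.l 68)) (T.l 68)) (T.l 68))))) (T.b (T.b (T.c (T.a (T.c (T.l 68) (T.l 68)) (T.l 68)) (T.a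 (T.a (T.c (T.l 68) (T.l 68)) (T.l 68)) (T.l 68))) (T.c (T.a (T.c (T.l 68) (T.l 68)) (T.l 68)) (T.a (T.a (T.c (T.l 68) (T.l 68)) (T.l 68)) (T.l 68)))) (T.b (T.c (T.a (T.c (T.l 68) (T.l 68)) (T.l 68)) (T.a (T.a (T.c (T.l 68) (T.l 68)) (T.l 68)) (T.l 68))) (T.c (T.a (T.c (T.l 68) (T.l 68)) (T.l 68)) (T.a (T.a (T.c (T.l 68) (T.l 68)) (T.l 68)) (T.l 68)))))), by decide +kernel⟩

def A113_001m_1_1861_1 :
    ∃ t, chk3 (onCell 0 5242880 0 1073741824 991146299 28908434 (fA12W 0 3 c0B eng mog .nn false true true gB0q1 gB0q1 gB1q3 gB2q3 dB0q1 dB0q1 dB1q3 dB2q3 37748736 5242880)) t 1 1861 1 = true :=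
  ⟨(T.b (T.b (T.b (T.c (T.a (T.c (T.l 68) (T.l 68)) (T.l 68)) (T.a (T.a (T.c (T.l 68) (T.l 68)) (T.l 68)) (T.l 68))) (T.c (T.a (T.c (T.l 68) (T.l 68)) (T.l 68)) (T.a (T.a (T.c (T.l 68) (T.l 68)) (T.l 68)) (T.l 68)))) (T.b (T.c (T.a (T.c (T.l 68) (T.l 68)) (T.l 68)) (T.a (T.a (T.c (T.l 68) (T.l 68)) (T.l 68)) (T.l 68))) (T.c (T.a (T.c (T.l 68) (T.l 68)) (T.l 68)) (T.a (T.a (T.c (T.l 68) (T.l 68)) (T.l 68)) (T.l 68))))) (T.b (T.b (T.c (T.a (T.c (T.l 68) (T.l 68)) (T.l 68)) (T.a (T.a (T.c (T.l 68) (T.l 68)) (T.l 68)) (T.l 68))) (T.c (T.a (T.c (T.l 68) (T.l 68)) (T.l 68)) (T.a (T.a (T.c (T.l 68) (T.l 68)) (T.l 68)) (T.l 68)))) (T.b (T.c (T.a (T.c (T.l 68) (T.l 68)) (T.l 68)) (T.a (T.a (T.c (T.l 68) (T.l 68)) (T.l 68)) (T.l 68))) (T.c (T.a (T.c (T.l 68) (T.l 68)) (T.l 68)) (T.a (T.a (T.c (T.l 68) (T.l 68)) (T.l 68))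 (T.l 68)))))), by decide +kernel⟩

def A113_001m_1_1862_1 :
    ∃ t, chk3 (onCell 0 5242880 0 1073741824 991146299 28908434 (fA12W 0 3 c0B eng mog .nn false true true gB0q1 gB0q1 gB1q3 gB2q3 dB0q1 dB0q1 dB1q3 dB2q3 37748736 5242880)) t 1 1862 1 = true :=
  ⟨(T.b (T.b (T.b (T.c (T.a (T.c (T.l 68) (T.l 68)) (T.l 68)) (T.a (T.a (T.c (T.l 68) (T.l 68)) (T.l 68)) (T.l 68))) (T.c (T.a (T.c (T.l 68) (T.l 68)) (T.l 68)) (T.a (T.a (T.c (T.l 68) (T.l 68)) (T.l 68)) (T.l 68)))) (T.b (T.c (T.a (T.c (T.l 68) (T.l 68)) (T.l 68)) (T.a (T.a (T.c (T.l 68) (T.l 68)) (T.l 68)) (T.l 68))) (T.c (T.a (T.c (T.l 68) (T.l 68)) (T.l 68)) (T.a (T.a (T.c (T.l 68) (T.l 68)) (T.l 68)) (T.l 68))))) (T.b (T.b (T.c (T.a (T.c (T.l 68) (T.l 68)) (T.l 68)) (T.a (T.a (T.c (T.l 68) (T.l 68)) (T.l 68)) (T.l 68))) (T.c (T.a (T.c (T.l 68) (T.l 68)) (T.l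 68)) (T.a (T.a (T.c (T.l 68) (T.l 68)) (T.l 68)) (T.l 68)))) (T.b (T.c (T.a (T.c (T.l 68) (T.l 68)) (T.l 68)) (T.a (T.a (T.c (T.l 68) (T.l 68)) (T.l 68)) (T.l 68))) (T.c (T.a (T.c (T.l 68) (T.l 68)) (T.l 68)) (T.a (T.a (T.c (T.l 68) (T.l 68)) (T.l 68)) (T.l 68)))))), by decide +kernel⟩

def A113_001m_1_1863_1 :
    ∃ t, chk3 (onCell 0 5242880 0 1073741824 991146299 28908434 (fA12W 0 3 c0B eng mog .nn false true true gB0q1 gB0q1 gB1q3 gB2q3 dB0q1 dB0q1 dB1q3 dB2q3 37748736 5242880)) t 1 1863 1 = true :=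
  ⟨(T.b (T.b (T.b (T.c (T.a (T.c (T.l 68) (T.l 68)) (T.l 68)) (T.a (T.a (T.c (T.l 68) (T.l 68)) (T.l 68)) (T.l 68))) (T.c (T.a (T.c (T.l 68) (T.l 68)) (T.l 68)) (T.a (T.a (T.c (T.l 68) (T.l 68)) (T.l 68)) (T.l 68)))) (T.b (T.c (T.a (T.c (T.l 68) (T.l 68)) (T.l 68)) (T.a (T.a (T.c (T.l 68) (T.l 68)) (T.l 68)) (T.l 68))) (T.c (T.a (T.c (T.l 68) (T.l 68)) (T.l 68)) (T.a (T.a (T.c (T.l 68) (T.l 68)) (T.l 68)) (T.l 68))))) (T.b (T.b (T.c (T.a (T.c (T.l 68) (T.l 68)) (T.l 68)) (T.a (T.a (T.c (T.l 68) (T.l 68)) (T.l 68)) (T.l 68))) (T.c (T.a (T.c (T.l 68) (T.l 68)) (T.l 68)) (T.a (T.a (T.c (T.l 68) (T.l 68)) (T.l 68)) (T.l 68)))) (T.b (T.c (T.a (T.c (T.l 68) (T.l 68)) (T.l 68)) (T.a (T.a (T.c (T.l 68) (T.l 68)) (T.l 68)) (T.l 68))) (T.c (T.a (T.c (T.l 68) (T.l 68)) (T.l 68)) (T.a (T.a (T.c (T.l 68) (T.l 68)) (T.l 68))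 (T.l 68)))))), by decide +kernel⟩

def A113_001m_1_1864_1 :
    ∃ t, chk3 (onCell 0 5242880 0 1073741824 991146299 28908434 (fA12W 0 3 c0B eng mog .nn false true true gB0q1 gB0q1 gB1q3 gB2q3 dB0q1 dB0q1 dB1q3 dB2q3 37748736 5242880)) t 1 1864 1 = true :=
  ⟨(T.b (T.b (T.b (T.c (T.a (T.c (T.l 68) (T.l 68)) (T.l 68)) (T.a (T.a (T.c (T.l 68) (T.l 68)) (T.l 68)) (T.l 68))) (T.c (T.a (T.c (T.l 68) (T.l 68)) (T.l 68)) (T.a (T.a (T.c (T.l 68) (T.l 68)) (T.l 68)) (T.l 68)))) (T.b (T.c (T.a (T.c (T.l 68) (T.l 68)) (T.l 68)) (T.a (T.a (T.c (T.l 68) (T.l 68)) (T.l 68)) (T.l 68))) (T.c (T.a (T.c (T.l 68) (T.l 68)) (T.l 68)) (T.a (T.a (T.c (T.l 68) (T.l 68)) (T.l 68)) (T.l 68))))) (T.b (T.b (T.c (T.a (T.c (T.l 68) (T.l 68)) (T.l 68)) (T.a (T.a (T.c (T.l 68) (T.l 68)) (T.l 68)) (T.l 68))) (T.c (T.a (T.c (T.l 68) (T.l 68)) (T.l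 68)) (T.a (T.a (T.c (T.l 68) (T.l 68)) (T.l 68)) (T.l 68)))) (T.b (T.c (T.a (T.c (T.l 68) (T.l 68)) (T.l 68)) (T.a (T.a (T.c (T.l 68) (T.l 68)) (T.l 68)) (T.l 68))) (T.c (T.a (T.c (T.l 68) (T.l 68)) (T.l 68)) (T.a (T.a (T.c (T.l 68) (T.l 68)) (T.l 68)) (T.l 68)))))), by decide +kernel⟩

def A113_001m_1_1865_1 :
    ∃ t, chk3 (onCell 0 5242880 0 1073741824 991146299 28908434 (fA12W 0 3 c0B eng mog .nn false true true gB0q1 gB0q1 gB1q3 gB2q3 dB0q1 dB0q1 dB1q3 dB2q3 37748736 5242880)) t 1 1865 1 = true :=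
  ⟨(T.b (T.b (T.b (T.c (T.a (T.c (T.l 68) (T.l 68)) (T.l 68)) (T.a (T.a (T.c (T.l 68) (T.l 68)) (T.l 68)) (T.l 68))) (T.c (T.a (T.c (T.l 68) (T.l 68)) (T.l 68)) (T.a (T.a (T.c (T.l 68) (T.l 68)) (T.l 68)) (T.l 68)))) (T.b (T.c (T.a (T.c (T.l 68) (T.l 68)) (T.l 68)) (T.a (T.a (T.c (T.l 68) (T.l 68)) (T.l 68)) (T.l 68))) (T.c (T.a (T.c (T.l 68) (T.l 68)) (T.l 68)) (T.a (T.a (T.c (T.l 68) (T.l 68)) (T.l 68)) (T.l 68))))) (T.b (T.b (T.c (T.a (T.c (T.l 68) (T.l 68)) (T.l 68)) (T.a (T.a (T.c (T.l 68) (T.l 68)) (T.l 68)) (T.l 68))) (T.c (T.a (T.c (T.l 68) (T.l 68)) (T.l 68)) (T.a (T.a (T.c (T.l 68) (T.l 68)) (T.l 68)) (T.l 68)))) (T.b (T.c (T.a (T.c (T.l 68) (T.l 68)) (T.l 68)) (T.a (T.a (T.c (T.l 68) (T.l 68)) (T.l 68)) (T.l 68))) (T.c (T.a (T.c (T.l 68) (T.l 68)) (T.l 68)) (T.a (T.a (T.c (T.l 68) (T.l 68)) (T.l 68))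 (T.l 68)))))), by decide +kernel⟩

def A113_001m_1_1866_1 :
    ∃ t, chk3 (onCell 0 5242880 0 1073741824 991146299 28908434 (fA12W 0 3 c0B eng mog .nn false true true gB0q1 gB0q1 gB1q3 gB2q3 dB0q1 dB0q1 dB1q3 dB2q3 37748736 5242880)) t 1 1866 1 = true :=
  ⟨(T.b (T.b (T.b (T.c (T.a (T.c (T.l 68) (T.l 68)) (T.l 68)) (T.a (T.a (T.c (T.l 68) (T.l 68)) (T.l 68)) (T.l 68))) (T.c (T.a (T.c (T.l 68) (T.l 68)) (T.l 68)) (T.a (T.a (T.c (T.l 68) (T.l 68)) (T.l 68)) (T.l 68)))) (T.b (T.c (T.a (T.c (T.l 68) (T.l 68)) (T.l 68)) (T.a (T.a (T.c (T.l 68) (T.l 68)) (T.l 68)) (T.l 68))) (T.c (T.a (T.c (T.l 68) (T.l 68)) (T.l 68)) (T.a (T.a (T.c (T.l 68) (T.l 68)) (T.l 68)) (T.l 68))))) (T.b (T.b (T.c (T.a (T.c (T.l 68) (T.l 68)) (T.l 68)) (T.a (T.a (T.c (T.l 68) (T.l 68)) (T.l 68)) (T.l 68))) (T.c (T.a (T.c (T.l 68) (T.l 68)) (T.l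 68)) (T.a (T.a (T.c (T.l 68) (T.l 68)) (T.l 68)) (T.l 68)))) (T.b (T.c (T.a (T.c (T.l 68) (T.l 68)) (T.l 68)) (T.a (T.a (T.c (T.l 68) (T.l 68)) (T.l 68)) (T.l 68))) (T.c (T.a (T.c (T.l 68) (T.l 68)) (T.l 68)) (T.a (T.a (T.c (T.l 68) (T.l 68)) (T.l 68)) (T.l 68)))))), by decide +kernel⟩

def A113_001m_1_1867_1 :
    ∃ t, chk3 (onCell 0 5242880 0 1073741824 991146299 28908434 (fA12W 0 3 c0B eng mog .nn false true true gB0q1 gB0q1 gB1q3 gB2q3 dB0q1 dB0q1 dB1q3 dB2q3 37748736 5242880)) t 1 1867 1 = true :=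
  ⟨(T.b (T.b (T.b (T.c (T.a (T.c (T.l 68) (T.l 68)) (T.l 68)) (T.a (T.a (T.c (T.l 68) (T.l 68)) (T.l 68)) (T.l 68))) (T.c (T.a (T.c (T.l 68) (T.l 68)) (T.l 68)) (T.a (T.a (T.c (T.l 68) (T.l 68)) (T.l 68)) (T.l 68)))) (T.b (T.c (T.a (T.c (T.l 68) (T.l 68)) (T.l 68)) (T.a (T.a (T.c (T.l 68) (T.l 68)) (T.l 68)) (T.l 68))) (T.c (T.a (T.c (T.l 68) (T.l 68)) (T.l 68)) (T.a (T.a (T.c (T.l 68) (T.l 68)) (T.l 68)) (T.l 68))))) (T.b (T.b (T.c (T.a (T.c (T.l 68) (T.l 68)) (T.l 68)) (T.a (T.a (T.c (T.l 68) (T.l 68)) (T.l 68)) (T.l 68))) (T.c (T.a (T.c (T.l 68) (T.l 68)) (T.l 68)) (T.a (T.a (T.c (T.l 68) (T.l 68)) (T.l 68)) (T.l 68)))) (T.b (T.c (T.a (T.c (T.l 68) (T.l 68)) (T.l 68)) (T.a (T.a (T.c (T.l 68) (T.l 68)) (T.l 68)) (T.l 68))) (T.c (T.a (T.c (T.l 68) (T.l 68)) (T.l 68)) (T.a (T.a (T.c (T.l 68) (T.l 68)) (T.l 68))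 (T.l 68)))))), by decide +kernel⟩

def A113_001m_1_467_1 :
    ∃ t, chk3 (onCell 0 5242880 0 1073741824 991146299 28908434 (fA12W 0 3 c0B eng mog .nn false true true gB0q1 gB0q1 gB1q3 gB2q3 dB0q1 dB0q1 dB1q3 dB2q3 37748736 5242880)) t 1 467 1 = true :=
  ⟨(T.b (T.b (T.b (T.b (T.b (T.c (T.a (T.c (T.l 68) (T.l 68)) (T.l 68)) (T.a (T.a (T.c (T.l 68) (T.l 68)) (T.l 68)) (T.l 68))) (T.c (T.a (T.c (T.l 68) (T.l 68)) (T.l 68)) (T.a (T.a (T.c (T.l 68) (T.l 68)) (T.l 68)) (T.l 68)))) (T.b (T.c (T.a (T.c (T.l 68) (T.l 68)) (T.l 68)) (T.a (T.a (T.c (T.l 68) (T.l 68)) (T.l 68)) (T.l 68))) (T.c (T.a (T.c (T.l 68) (T.l 68)) (T.l 68)) (T.a (T.a (T.c (T.l 68) (T.l 68)) (T.l 68)) (T.l 68))))) (T.b (T.b (T.c (T.a (T.c (T.l 68) (T.l 68)) (T.l 68)) (T.a (T.a (T.c (T.l 68) (T.l 68)) (T.l 68)) (T.l 68))) (T.c (T.a (T.c (T.l 68) (T.l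 68)) (T.l 68)) (T.a (T.a (T.c (T.l 68) (T.l 68)) (T.l 68)) (T.l 68)))) (T.b (T.c (T.a (T.c (T.l 68) (T.l 68)) (T.l 68)) (T.a (T.a (T.c (T.l 68) (T.l 68)) (T.l 68)) (T.l 68))) (T.l 2)))) (T.l 2)) (T.l 2)), by decide +kernel⟩

def A113_001m_1_117_1 :
    ∃ t, chk3 (onCell 0 5242880 0 1073741824 991146299 28908434 (fA12W 0 3 c0B eng mog .nn false true true gB0q1 gB0q1 gB1q3 gB2q3 dB0q1 dB0q1 dB1q3 dB2q3 37748736 5242880)) t 1 117 1 = true :=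
  ⟨(T.l 2), by decide +kernel⟩

def A113_001m_1_59_1 :
    ∃ t, chk3 (onCell 0 5242880 0 1073741824 991146299 28908434 (fA12W 0 3 c0B eng mog .nn false true true gB0q1 gB0q1 gB1q3 gB2q3 dB0q1 dB0q1 dB1q3 dB2q3 37748736 5242880)) t 1 59 1 = true :=
  ⟨(T.l 2), by decide +kernel⟩

def A113_001m_1_15_1 :
    ∃ t, chk3 (onCell 0 5242880 0 1073741824 991146299 28908434 (fA12W 0 3 c0B eng mog .nn false true true gB0q1 gB0q1 gB1q3 gB2q3 dB0q1 dB0q1 dB1q3 dB2q3 37748736 5242880)) t 1 15 1 = true :=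
  ⟨(T.l 2), by decide +kernel⟩

theorem A113_001m_1_933_1 :
    ∃ t, chk3 (onCell 0 5242880 0 1073741824 991146299 28908434 (fA12W 0 3 c0B eng mog .nn false true true gB0q1 gB0q1 gB1q3 gB2q3 dB0q1 dB0q1 dB1q3 dB2q3 37748736 5242880)) t 1 933 1 = true :=
  ex3_b A113_001m_1_1866_1 A113_001m_1_1867_1
theorem A113_001m_1_932_1 :
    ∃ t, chk3 (onCell 0 5242880 0 1073741824 991146299 28908434 (fA12W 0 3 c0B eng mog .nn false true true gB0q1 gB0q1 gB1q3 gB2q3 dB0q1 dB0q1 dB1q3 dB2q3 37748736 5242880)) t 1 932 1 = true :=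
  ex3_b A113_001m_1_1864_1 A113_001m_1_1865_1
theorem A113_001m_1_466_1 :
    ∃ t, chk3 (onCell 0 5242880 0 1073741824 991146299 28908434 (fA12W 0 3 c0B eng mog .nn false true true gB0q1 gB0q1 gB1q3 gB2q3 dB0q1 dB0q1 dB1q3 dB2q3 37748736 5242880)) t 1 466 1 = true :=
  ex3_b A113_001m_1_932_1 A113_001m_1_933_1
theorem A113_001m_1_233_1 :
    ∃ t, chk3 (onCell 0 5242880 0 1073741824 991146299 28908434 (fA12W 0 3 c0B eng mog .nn false true true gB0q1 gB0q1 gB1q3 gB2q3 dB0q1 dB0q1 dB1q3 dB2q3 37748736 5242880)) t 1 233 1 = true :=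
  ex3_b A113_001m_1_466_1 A113_001m_1_467_1
theorem A113_001m_1_931_1 :
    ∃ t, chk3 (onCell 0 5242880 0 1073741824 991146299 28908434 (fA12W 0 3 c0B eng mog .nn false true true gB0q1 gB0q1 gB1q3 gB2q3 dB0q1 dB0q1 dB1q3 dB2q3 37748736 5242880)) t 1 931 1 = true :=
  ex3_b A113_001m_1_1862_1 A113_001m_1_1863_1
theorem A113_001m_1_930_1 :
    ∃ t, chk3 (onCell 0 5242880 0 1073741824 991146299 28908434 (fA12W 0 3 c0B eng mog .nn false true true gB0q1 gB0q1 gB1q3 gB2q3 dB0q1 dB0q1 dB1q3 dB2q3 37748736 5242880)) t 1 930 1 = true :=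
  ex3_b A113_001m_1_1860_1 A113_001m_1_1861_1
theorem A113_001m_1_465_1 :
    ∃ t, chk3 (onCell 0 5242880 0 1073741824 991146299 28908434 (fA12W 0 3 c0B eng mog .nn false true true gB0q1 gB0q1 gB1q3 gB2q3 dB0q1 dB0q1 dB1q3 dB2q3 37748736 5242880)) t 1 465 1 = true :=
  ex3_b A113_001m_1_930_1 A113_001m_1_931_1
theorem A113_001m_1_232_1 :
    ∃ t, chk3 (onCell 0 5242880 0 1073741824 991146299 28908434 (fA12W 0 3 c0B eng mog .nn false true true gB0q1 gB0q1 gB1q3 gB2q3 dB0q1 dB0q1 dB1q3 dB2q3 37748736 5242880)) t 1 232 1 = true :=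
  ex3_b A113_001m_1_464_1 A113_001m_1_465_1
theorem A113_001m_1_116_1 :
    ∃ t, chk3 (onCell 0 5242880 0 1073741824 991146299 28908434 (fA12W 0 3 c0B eng mog .nn false true true gB0q1 gB0q1 gB1q3 gB2q3 dB0q1 dB0q1 dB1q3 dB2q3 37748736 5242880)) t 1 116 1 = true :=
  ex3_b A113_001m_1_232_1 A113_001m_1_233_1
theorem A113_001m_1_58_1 :
    ∃ t, chk3 (onCell 0 5242880 0 1073741824 991146299 28908434 (fA12W 0 3 c0B eng mog .nn false true true gB0q1 gB0q1 gB1q3 gB2q3 dB0q1 dB0q1 dB1q3 dB2q3 37748736 5242880)) t 1 58 1 = true :=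
  ex3_b A113_001m_1_116_1 A113_001m_1_117_1
theorem A113_001m_1_29_1 :
    ∃ t, chk3 (onCell 0 5242880 0 1073741824 991146299 28908434 (fA12W 0 3 c0B eng mog .nn false true true gB0q1 gB0q1 gB1q3 gB2q3 dB0q1 dB0q1 dB1q3 dB2q3 37748736 5242880)) t 1 29 1 = true :=
  ex3_b A113_001m_1_58_1 A113_001m_1_59_1
theorem A113_001m_1_14_1 :
    ∃ t, chk3 (onCell 0 5242880 0 1073741824 991146299 28908434 (fA12W 0 3 c0B eng mog .nn false true true gB0q1 gB0q1 gB1q3 gB2q3 dB0q1 dB0q1 dB1q3 dB2q3 37748736 5242880)) t 1 14 1 = true :=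
  ex3_b A113_001m_1_28_1 A113_001m_1_29_1
theorem A113_001m_1_7_1 :
    ∃ t, chk3 (onCell 0 5242880 0 1073741824 991146299 28908434 (fA12W 0 3 c0B eng mog .nn false true true gB0q1 gB0q1 gB1q3 gB2q3 dB0q1 dB0q1 dB1q3 dB2q3 37748736 5242880)) t 1 7 1 = true :=
  ex3_b A113_001m_1_14_1 A113_001m_1_15_1
theorem A113_001m_1_3_1 :
    ∃ t, chk3 (onCell 0 5242880 0 1073741824 991146299 28908434 (fA12W 0 3 c0B eng mog .nn false true true gB0q1 gB0q1 gB1q3 gB2q3 dB0q1 dB0q1 dB1q3 dB2q3 37748736 5242880)) t 1 3 1 = true :=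
  ex3_b A113_001m_1_6_1 A113_001m_1_7_1
theorem A113_001m :
    ∃ t, chk3 (onCell 0 5242880 0 1073741824 991146299 28908434 (fA12W 0 3 c0B eng mog .nn false true true gB0q1 gB0q1 gB1q3 gB2q3 dB0q1 dB0q1 dB1q3 dB2q3 37748736 5242880)) t 1 1 1 = true :=
  ex3_b A113_001m_1_2_1 A113_001m_1_3_1

def A113_002p :
    ∃ t, chk3 (onCell 0 129955757 0 1073741824 991146299 28908434 (fA12W 1 3 c0B eng mog .nn true true false gB0q1 gB0q1 gB2q3 gB3q3 dB0q1 dB0q1 dB2q3 dB3q3 37748736 5242880)) t 1 1 1 = true :=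
  ⟨(T.b (T.b (T.c (T.a (T.b (T.b (T.a (T.b (T.l 272) (T.l 272)) (T.b (T.l 272) (T.l 272))) (T.l 272)) (T.l 0)) (T.b (T.a (T.c (T.l 272) (T.l 272)) (T.c (T.l 272) (T.l 272))) (T.b (T.l 272) (T.l 1)))) (T.a (T.c (T.a (T.l 0) (T.l 0)) (T.a (T.l 0) (T.b (T.l 272) (T.l 0)))) (T.c (T.b (T.a (T.l 272) (T.b (T.l 272) (T.l 272))) (T.l 0)) (T.b (T.a (T.b (T.l 272) (T.l 272)) (T.c (T.l 272) (T.l 272))) (T.l 0))))) (T.l 1)) (T.l 1)), by decide +kernel⟩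

def A113_002m :
    ∃ t, chk3 (onCell 0 129955757 0 1073741824 991146299 28908434 (fA12W 1 3 c0B eng mog .nn false true false gB0q1 gB0q1 gB2q3 gB3q3 dB0q1 dB0q1 dB2q3 dB3q3 37748736 5242880)) t 1 1 1 = true :=
  ⟨(T.b (T.l 1) (T.b (T.l 1) (T.c (T.a (T.b (T.l 0) (T.c (T.l 68) (T.l 68))) (T.b (T.b (T.l 1) (T.l 68)) (T.a (T.c (T.l 68) (T.l 68)) (T.c (T.l 68) (T.l 68))))) (T.a (T.c (T.b (T.l 0) (T.l 68)) (T.a (T.l 0) (T.b (T.l 0) (T.l 68)))) (T.c (T.b (T.l 0) (T.a (T.l 68) (T.b (T.l 68) (T.l 68)))) (T.b (T.l 0) (T.a (T.l 68) (T.b (T.l 68) (T.l 68))))))))), by decide +kernel⟩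

def A123_013p :
    ∃ t, chk3 (onCell 0 129955757 0 805306368 991146299 28908434 (fA12W 4 3 c0B eng mog .npn true false false gB0q1 gB1q2 gB3q3 gB4q3 dB0q1 dB1q2 dB3q3 dB4q3 37748736 5242880)) t 1 1 1 = true :=
  ⟨(T.b (T.b (T.b (T.a (T.b (T.b (T.l 1) (T.a (T.l 0) (T.l 0))) (T.a (T.l 0) (T.l 0))) (T.b (T.b (T.l 1) (T.a (T.l 0) (T.a (T.l 0) (T.b (T.l 1) (T.l 272))))) (T.a (T.b (T.l 0) (T.a (T.l 0) (T.l 0))) (T.b (T.a (T.a (T.l 0) (T.l 0)) (T.a (T.l 0) (T.l 0))) (T.a (T.l 0) (T.l 0)))))) (T.a (T.a (T.l 0) (T.a (T.l 0) (T.b (T.l 0) (T.b (T.l 0) (T.l 0))))) (T.a (T.b (T.a (T.b (T.l 0) (T.l 0)) (T.b (T.l 0) (T.l 0))) (T.a (T.b (T.l 0) (T.l 0)) (T.b (T.l 0) (T.l 0)))) (T.b (T.b (T.a (T.l 0) (T.l 0)) (T.a (T.l 0) (T.l 0))) (T.a (T.b (T.l 0) (T.l 0)) (T.b (T.l 0) (T.l 0))))))) (T.b (T.b (T.a (T.a (T.l 0) (T.a (T.b (T.l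 0) (T.l 0)) (T.l 0))) (T.a (T.a (T.l 0) (T.l 0)) (T.a (T.l 0) (T.l 0)))) (T.b (T.b (T.a (T.a (T.l 68) (T.a (T.l 0) (T.l 0))) (T.a (T.l 0) (T.l 0))) (T.a (T.a (T.l 68) (T.a (T.l 0) (T.l 0))) (T.a (T.l 0) (T.l 0)))) (T.b (T.a (T.a (T.l 68) (T.a (T.l 0) (T.l 0))) (T.a (T.l 0) (T.l 2))) (T.l 2)))) (T.l 2))) (T.l 2)), by decide +kernel⟩

def A123_014p :
    ∃ t, chk3 (onCell 0 129955757 0 805306368 991146299 28908434 (fA12W 4 3 c0B eng mog .npn true false false gB0q1 gB1q2 gB4q3 gB5q3 dB0q1 dB1q2 dB4q3 dB5q3 37748736 5242880)) t 1 1 1 = true :=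
  ⟨(T.b (T.b (T.l 1) (T.b (T.b (T.l 1) (T.b (T.a (T.l 1) (T.a (T.a (T.l 1) (T.l 0)) (T.l 0))) (T.b (T.a (T.b (T.a (T.a (T.l 1) (T.l 68)) (T.a (T.l 68) (T.l 0))) (T.a (T.a (T.l 68) (T.l 68)) (T.a (T.l 68) (T.l 0)))) (T.a (T.l 0) (T.l 0))) (T.a (T.a (T.a (T.l 68) (T.l 68)) (T.a (T.l 0) (T.l 0))) (T.a (T.l 0) (T.l 0)))))) (T.b (T.b (T.b (T.a (T.a (T.a (T.l 68) (T.l 68)) (T.a (T.l 0) (T.l 0))) (T.a (T.l 0) (T.l 0))) (T.a (T.a (T.a (T.l 68) (T.l 68)) (T.a (T.l 0) (T.l 0))) (T.a (T.l 0) (T.l 0)))) (T.b (T.a (T.a (T.a (T.l 68) (T.l 68)) (T.a (T.l 0) (T.l 0))) (T.a (T.l 0) (T.l 0))) (T.a (T.a (T.a (T.l 68) (T.a (T.l 68) (T.l 68))) (T.a (T.l 0) (T.l 0))) (T.a (T.l 0) (T.l 0))))) (T.b (T.a (T.a (T.a (T.l 68) (T.a (T.l 68) (T.l 68))) (T.a (T.l 0) (T.l 0))) (T.a (T.a (T.l 0) (T.l 0)) (T.a (T.l 0) (T.l 3)))) (T.a (T.b (T.b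 (T.a (T.a (T.l 68) (T.a (T.l 68) (T.l 68))) (T.a (T.l 0) (T.l 0))) (T.a (T.a (T.l 68) (T.a (T.l 68) (T.l 68))) (T.a (T.l 0) (T.l 0)))) (T.b (T.a (T.a (T.l 68) (T.a (T.l 68) (T.l 68))) (T.a (T.l 0) (T.l 0))) (T.a (T.a (T.l 68) (T.a (T.l 68) (T.l 68))) (T.a (T.l 0) (T.l 0))))) (T.a (T.a (T.l 0) (T.l 0)) (T.a (T.l 0) (T.l 3)))))))) (T.b (T.b (T.b (T.a (T.b (T.b (T.b (T.a (T.a (T.l 68) (T.a (T.l 68) (T.l 68))) (T.a (T.l 0) (T.l 2))) (T.a (T.a (T.l 68) (T.l 2)) (T.l 2))) (T.l 2)) (T.l 2)) (T.l 2)) (T.l 2)) (T.l 2)) (T.l 2))), by decide +kernel⟩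

def A123_023p :
    ∃ t, chk3 (onCell 0 129955757 0 805306368 991146299 28908434 (fA12W 4 3 c0B eng mog .npn true false false gB0q1 gB2q2 gB3q3 gB4q3 dB0q1 dB2q2 dB3q3 dB4q3 37748736 5242880)) t 1 1 1 = true :=
  ⟨(T.b (T.b (T.b (T.b (T.l 1) (T.a (T.l 0) (T.a (T.b (T.l 0) (T.a (T.l 0) (T.l 0))) (T.b (T.a (T.l 0) (T.l 0)) (T.l 0))))) (T.a (T.a (T.l 68) (T.a (T.l 68) (T.b (T.l 68) (T.l 68)))) (T.a (T.b (T.a (T.l 0) (T.l 0)) (T.a (T.l 68) (T.l 0))) (T.b (T.a (T.l 0) (T.l 0)) (T.l 0))))) (T.b (T.b (T.a (T.a (T.l 68) (T.a (T.l 68) (T.l 68))) (T.a (T.l 0) (T.l 0))) (T.a (T.a (T.l 68) (T.a (T.l 68) (T.l 0))) (T.a (T.l 0) (T.l 0)))) (T.b (T.b (T.a (T.a (T.l 68) (T.l 0)) (T.a (T.l 0) (T.l 0))) (T.b (T.a (T.a (T.l 68) (T.l 0)) (T.a (T.l 0) (T.l 0))) (T.a (T.a (T.a (T.l 68) (T.l 68)) (T.l 0)) (T.a (T.l 0) (T.l 0))))) (T.b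 (T.b (T.a (T.a (T.a (T.l 68) (T.l 68)) (T.l 0)) (T.a (T.l 0) (T.l 0))) (T.a (T.a (T.a (T.l 68) (T.l 68)) (T.l 0)) (T.a (T.l 0) (T.l 2)))) (T.l 2))))) (T.b (T.l 2) (T.l 2))), by decide +kernel⟩

def A123_024p :
    ∃ t, chk3 (onCell 0 129955757 0 805306368 991146299 28908434 (fA12W 4 3 c0B eng mog .npn true false false gB0q1 gB2q2 gB4q3 gB5q3 dB0q1 dB2q2 dB4q3 dB5q3 37748736 5242880)) t 1 1 1 = true :=
  ⟨(T.b (T.b (T.l 1) (T.b (T.l 1) (T.b (T.l 1) (T.b (T.b (T.a (T.l 1) (T.a (T.l 0) (T.l 0))) (T.a (T.a (T.a (T.l 68) (T.l 68)) (T.l 0)) (T.a (T.l 0) (T.l 0)))) (T.b (T.a (T.a (T.a (T.l 68) (T.l 68)) (T.l 0)) (T.a (T.l 0) (T.l 0))) (T.a (T.a (T.a (T.l 68) (T.l 68)) (T.l 0)) (T.a (T.l 0) (T.l 3)))))))) (T.b (T.b (T.b (T.b (T.b (T.a (T.a (T.a (T.l 68) (T.l 68)) (T.l 0)) (T.a (T.l 0) (T.l 3))) (T.a (T.a (T.a (T.l 68)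 (T.l 68)) (T.l 0)) (T.a (T.l 0) (T.l 3)))) (T.b (T.a (T.a (T.a (T.l 68) (T.l 68)) (T.l 0)) (T.a (T.l 0) (T.l 3))) (T.a (T.a (T.a (T.l 68) (T.l 68)) (T.l 0)) (T.a (T.l 0) (T.l 3))))) (T.b (T.b (T.a (T.a (T.a (T.l 68) (T.l 68)) (T.l 0)) (T.a (T.l 0) (T.l 3))) (T.a (T.a (T.a (T.l 68) (T.l 68)) (T.l 0)) (T.a (T.l 0) (T.l 3)))) (T.b (T.a (T.a (T.a (T.l 68) (T.l 68)) (T.l 0)) (T.a (T.l 0) (T.l 3))) (T.a (T.a (T.a (T.l 68) (T.l 68)) (T.l 0)) (T.a (T.l 0) (T.l 3)))))) (T.b (T.b (T.b (T.a (T.a (T.a (T.l 68) (T.l 68)) (T.l 0)) (T.a (T.l 0) (T.l 3))) (T.a (T.a (T.a (T.l 68) (T.l 68)) (T.l 0)) (T.a (T.l 0) (T.l 3)))) (T.a (T.b (T.a (T.a (T.l 68) (T.l 68)) (T.l 0)) (T.l 2)) (T.l 2))) (T.l 2))) (T.l 2))), by decide +kernel⟩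

def B113_010p :
    ∃ t, chk3 (onCell 0 5242880 0 1073741824 991146299 28908434 (fB12W 0 3 c0B eng mog .nn true true true false gB0q1 gB1q3 gB0q1 gB1q1 dB0q1 dB1q3 dB0q1 dB1q1 37748736 5242880)) t 1 1 1 = true :=
  ⟨(T.b (T.b (T.c (T.l 272) (T.l 272)) (T.b (T.c (T.b (T.l 272) (T.b (T.l 272) (T.a (T.c (T.l 272) (T.l 272)) (T.l 272)))) (T.c (T.b (T.l 272) (T.l 272)) (T.l 272))) (T.b (T.b (T.b (T.b (T.b (T.b (T.b (T.b (T.b (T.b (T.b (T.b (T.b (T.b (T.c (T.c (T.a (T.l 272) (T.l 272)) (T.l 272)) (T.c (T.l 272) (T.l 272))) (T.l 1)) (T.l 1)) (T.l 1)) (T.l 1)) (T.l 1)) (T.l 1)) (T.l 1)) (T.l 1)) (T.l 1)) (T.l 1)) (T.l 1)) (T.l 1)) (T.l 1)) (T.l 1)))) (T.l 1)), by decide +kernel⟩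

def B123_010p :
    ∃ t, chk3 (onCell 0 37748736 0 1073741824 991146299 28908434 (fB12W 0 3 c0B eng mog .npn true true true true gB0q1 gB1q3 gB0q2 gB1q2 dB0q1 dB1q3 dB0q2 dB1q2 37748736 5242880)) t 1 1 1 = true :=
  ⟨(T.l 2), by decide +kernel⟩

def B123_011p :
    ∃ t, chk3 (onCell 0 37748736 0 1073741824 991146299 28908434 (fB12W 0 3 c0B eng mog .npn true true true true gB0q1 gB1q3 gB1q2 gB2q2 dB0q1 dB1q3 dB1q2 dB2q2 37748736 5242880)) t 1 1 1 = true :=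
  ⟨(T.l 2), by decide +kernel⟩

def B123_012p :
    ∃ t, chk3 (onCell 0 37748736 0 1073741824 991146299 28908434 (fB12W 0 3 c0B eng mog .npn true true true false gB0q1 gB1q3 gB2q2 gB3q2 dB0q1 dB1q3 dB2q2 dB3q2 37748736 5242880)) t 1 1 1 = true :=
  ⟨(T.a (T.a (T.b (T.l 0) (T.l 0)) (T.b (T.b (T.l 3) (T.l 0)) (T.l 0))) (T.b (T.b (T.l 3) (T.l 3)) (T.l 0))), by decide +kernel⟩

def B113_010m :
    ∃ t, chk3 (onCell 0 5242880 0 1073741824 991146299 28908434 (fB12W 0 3 c0B eng mog .nn false true true false gB0q1 gB1q3 gB0q1 gB1q1 dB0q1 dB1q3 dB0q1 dB1q1 37748736 5242880)) t 1 1 1 = true :=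
  ⟨(T.b (T.b (T.l 272) (T.l 0)) (T.b (T.b (T.b (T.l 0) (T.c (T.a (T.a (T.c (T.b (T.l 68) (T.c (T.l 68) (T.l 68))) (T.l 68)) (T.l 68)) (T.l 68)) (T.a (T.c (T.l 68) (T.l 0)) (T.l 0)))) (T.b (T.b (T.b (T.b (T.b (T.b (T.b (T.b (T.b (T.b (T.b (T.b (T.b (T.c (T.c (T.a (T.c (T.l 68) (T.l 68)) (T.l 68)) (T.l 68)) (T.c (T.l 68) (T.l 68))) (T.l 1)) (T.l 1)) (T.l 1)) (T.l 1)) (T.l 1)) (T.l 1)) (T.l 1)) (T.l 1)) (T.l 1)) (T.l 1)) (T.l 1)) (T.l 1)) (T.l 1))) (T.l 1))), by decide +kernel⟩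

def B123_010m :
    ∃ t, chk3 (onCell 0 37748736 0 1073741824 991146299 28908434 (fB12W 0 3 c0B eng mog .npn false true true true gB0q1 gB1q3 gB0q2 gB1q2 dB0q1 dB1q3 dB0q2 dB1q2 37748736 5242880)) t 1 1 1 = true :=
  ⟨(T.l 2), by decide +kernel⟩

def B123_011m :
    ∃ t, chk3 (onCell 0 37748736 0 1073741824 991146299 28908434 (fB12W 0 3 c0B eng mog .npn false true true true gB0q1 gB1q3 gB1q2 gB2q2 dB0q1 dB1q3 dB1q2 dB2q2 37748736 5242880)) t 1 1 1 = true :=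
  ⟨(T.l 2), by decide +kernel⟩

def B123_012m :
    ∃ t, chk3 (onCell 0 37748736 0 1073741824 991146299 28908434 (fB12W 0 3 c0B eng mog .npn false true true false gB0q1 gB1q3 gB2q2 gB3q2 dB0q1 dB1q3 dB2q2 dB3q2 37748736 5242880)) t 1 1 1 = true :=
  ⟨(T.a (T.a (T.l 0) (T.b (T.l 0) (T.l 0))) (T.b (T.b (T.l 3) (T.l 3)) (T.l 0))), by decide +kernel⟩

def B213_010m :
    ∃ t, chk3 (onCell 0 37748736 0 1073741824 991146299 28908434 (fB12W 0 3 c0B eng mog .pnn false true true false gB0q2 gB1q3 gB0q1 gB1q1 dB0q2 dB1q3 dB0q1 dB1q1 37748736 5242880)) t 1 1 1 = true :=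
  ⟨(T.l 1), by decide +kernel⟩

def B213_110m :
    ∃ t, chk3 (onCell 0 37748736 0 1073741824 991146299 28908434 (fB12W 0 3 c0B eng mog .pnn false true true false gB1q2 gB1q3 gB0q1 gB1q1 dB1q2 dB1q3 dB0q1 dB1q1 37748736 5242880)) t 1 1 1 = true :=
  ⟨(T.l 1), by decide +kernel⟩

def B213_210m :
    ∃ t, chk3 (onCell 0 37748736 0 1073741824 991146299 28908434 (fB12W 0 3 c0B eng mog .pnn false true true false gB2q2 gB1q3 gB0q1 gB1q1 dB2q2 dB1q3 dB0q1 dB1q1 37748736 5242880)) t 1 1 1 = true :=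
  ⟨(T.l 1), by decide +kernel⟩

def B113_020p :
    ∃ t, chk3 (onCell 0 5242880 0 1073741824 991146299 28908434 (fB12W 0 3 c0B eng mog .nn true true true false gB0q1 gB2q3 gB0q1 gB1q1 dB0q1 dB2q3 dB0q1 dB1q1 37748736 5242880)) t 1 1 1 = true :=
  ⟨(T.b (T.b (T.b (T.c (T.l 272) (T.l 272)) (T.b (T.c (T.c (T.l 272) (T.l 272)) (T.b (T.l 272) (T.c (T.a (T.l 272) (T.l 272)) (T.a (T.b (T.l 272) (T.l 272)) (T.l 272))))) (T.l 1))) (T.l 1)) (T.l 1)), by decide +kernel⟩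

def B123_020p :
    ∃ t, chk3 (onCell 0 37748736 0 1073741824 991146299 28908434 (fB12W 0 3 c0B eng mog .npn true true true true gB0q1 gB2q3 gB0q2 gB1q2 dB0q1 dB2q3 dB0q2 dB1q2 37748736 5242880)) t 1 1 1 = true :=
  ⟨(T.l 2), by decide +kernel⟩

def B123_021p :
    ∃ t, chk3 (onCell 0 37748736 0 1073741824 991146299 28908434 (fB12W 0 3 c0B eng mog .npn true true true true gB0q1 gB2q3 gB1q2 gB2q2 dB0q1 dB2q3 dB1q2 dB2q2 37748736 5242880)) t 1 1 1 = true :=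
  ⟨(T.l 2), by decide +kernel⟩

def B123_022p :
    ∃ t, chk3 (onCell 0 37748736 0 1073741824 991146299 28908434 (fB12W 0 3 c0B eng mog .npn true true true false gB0q1 gB2q3 gB2q2 gB3q2 dB0q1 dB2q3 dB2q2 dB3q2 37748736 5242880)) t 1 1 1 = true :=
  ⟨(T.b (T.a (T.a (T.b (T.l 272) (T.l 0)) (T.b (T.l 3) (T.l 0))) (T.b (T.l 3) (T.l 3))) (T.a (T.a (T.l 0) (T.l 0)) (T.l 0))), by decide +kernel⟩

def B113_020m :
    ∃ t, chk3 (onCell 0 5242880 0 1073741824 991146299 28908434 (fB12W 0 3 c0B eng mog .nn false true true false gB0q1 gB2q3 gB0q1 gB1q1 dB0q1 dB2q3 dB0q1 dB1q1 37748736 5242880)) t 1 1 1 = true :=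
  ⟨(T.b (T.l 272) (T.b (T.b (T.l 272) (T.l 0)) (T.b (T.b (T.c (T.l 0) (T.l 0)) (T.b (T.b (T.c (T.l 68) (T.c (T.l 68) (T.l 68))) (T.l 1)) (T.l 1))) (T.l 1)))), by decide +kernel⟩

def B123_020m :
    ∃ t, chk3 (onCell 0 37748736 0 1073741824 991146299 28908434 (fB12W 0 3 c0B eng mog .npn false true true true gB0q1 gB2q3 gB0q2 gB1q2 dB0q1 dB2q3 dB0q2 dB1q2 37748736 5242880)) t 1 1 1 = true :=
  ⟨(T.l 2), by decide +kernel⟩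

def B123_021m :
    ∃ t, chk3 (onCell 0 37748736 0 1073741824 991146299 28908434 (fB12W 0 3 c0B eng mog .npn false true true true gB0q1 gB2q3 gB1q2 gB2q2 dB0q1 dB2q3 dB1q2 dB2q2 37748736 5242880)) t 1 1 1 = true :=
  ⟨(T.l 2), by decide +kernel⟩

def B123_022m :
    ∃ t, chk3 (onCell 0 37748736 0 1073741824 991146299 28908434 (fB12W 0 3 c0B eng mog .npn false true true false gB0q1 gB2q3 gB2q2 gB3q2 dB0q1 dB2q3 dB2q2 dB3q2 37748736 5242880)) t 1 1 1 = true :=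
  ⟨(T.a (T.a (T.l 0) (T.l 0)) (T.b (T.l 272) (T.l 0))), by decide +kernel⟩

def B213_020m :
    ∃ t, chk3 (onCell 0 37748736 0 1073741824 991146299 28908434 (fB12W 0 3 c0B eng mog .pnn false true true false gB0q2 gB2q3 gB0q1 gB1q1 dB0q2 dB2q3 dB0q1 dB1q1 37748736 5242880)) t 1 1 1 = true :=
  ⟨(T.l 1), by decide +kernel⟩

def B213_120m :
    ∃ t, chk3 (onCell 0 37748736 0 1073741824 991146299 28908434 (fB12W 0 3 c0B eng mog .pnn false true true false gB1q2 gB2q3 gB0q1 gB1q1 dB1q2 dB2q3 dB0q1 dB1q1 37748736 5242880)) t 1 1 1 = true :=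
  ⟨(T.l 1), by decide +kernel⟩

def B213_220m :
    ∃ t, chk3 (onCell 0 37748736 0 1073741824 991146299 28908434 (fB12W 0 3 c0B eng mog .pnn false true true false gB2q2 gB2q3 gB0q1 gB1q1 dB2q2 dB2q3 dB0q1 dB1q1 37748736 5242880)) t 1 1 1 = true :=
  ⟨(T.l 1), by decide +kernel⟩

def B113_030p :
    ∃ t, chk3 (onCell 0 129955757 0 1073741824 991146299 28908434 (fB12W 2 3 c0B eng mog .nn true false true false gB0q1 gB3q3 gB0q1 gB1q1 dB0q1 dB3q3 dB0q1 dB1q1 37748736 5242880)) t 1 1 1 = true :=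
  ⟨(T.l 1), by decide +kernel⟩

def B123_030p :
    ∃ t, chk3 (onCell 0 167704493 0 1073741824 991146299 28908434 (fB12uW 3 c0B eng mog .npn true false true true gB0q1 gB3q3 gB0q2 gB1q2 dB0q1 dB3q3 dB0q2 dB1q2 37748736 5242880)) t 1 1 1 = true :=
  ⟨(T.b (T.b (T.l 0) (T.l 2)) (T.b (T.l 2) (T.a (T.l 2) (T.l 3)))), by decide +kernel⟩

def B123_031p :
    ∃ t, chk3 (onCell 0 167704493 0 1073741824 991146299 28908434 (fB12W 3 3 c0B eng mog .npn true false true true gB0q1 gB3q3 gB1q2 gB2q2 dB0q1 dB3q3 dB1q2 dB2q2 37748736 5242880)) t 1 1 1 = true :=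
  ⟨(T.b (T.b (T.b (T.b (T.b (T.l 1) (T.b (T.b (T.b (T.l 1) (T.a (T.a (T.l 1) (T.c (T.l 0) (T.l 0))) (T.b (T.l 1) (T.a (T.l 0) (T.a (T.l 272) (T.l 3)))))) (T.a (T.a (T.l 0) (T.l 0)) (T.a (T.l 0) (T.a (T.l 0) (T.l 3))))) (T.a (T.l 0) (T.b (T.a (T.l 0) (T.l 0)) (T.l 2))))) (T.l 2)) (T.l 2)) (T.l 2)) (T.b (T.l 2) (T.a (T.l 2) (T.l 3)))), by decide +kernel⟩

def B123_032p :
    ∃ t, chk3 (onCell 0 167704493 0 1073741824 991146299 28908434 (fB12W 3 3 c0B eng mog .npn true false true false gB0q1 gB3q3 gB2q2 gB3q2 dB0q1 dB3q3 dB2q2 dB3q2 37748736 5242880)) t 1 1 1 = true :=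
  ⟨(T.b (T.b (T.b (T.b (T.b (T.l 1) (T.b (T.a (T.l 1) (T.l 1)) (T.a (T.l 0) (T.a (T.a (T.l 0) (T.l 0)) (T.a (T.l 0) (T.l 3)))))) (T.b (T.a (T.l 0) (T.a (T.a (T.l 0) (T.l 0)) (T.a (T.l 0) (T.l 3)))) (T.a (T.a (T.l 0) (T.a (T.l 0) (T.l 0))) (T.a (T.l 0) (T.l 0))))) (T.a (T.a (T.a (T.l 0) (T.b (T.l 0) (T.l 0))) (T.b (T.a (T.l 0) (T.l 0)) (T.a (T.l 0) (T.l 0)))) (T.b (T.a (T.a (T.l 0) (T.l 0)) (T.l 0)) (T.a (T.l 0) (T.l 0))))) (T.a (T.a (T.a (T.l 0) (T.b (T.b (T.l 0) (T.l 0)) (T.b (T.l 0) (T.l 0)))) (T.b (T.b (T.l 0) (T.l 0)) (T.b (T.l 0) (T.l 0)))) (T.b (T.a (T.b (T.l 0) (T.l 0)) (T.b (T.l 0) (T.l 3))) (T.a (T.b (T.l 0) (T.l 0)) (T.l 3))))) (T.a (T.a (T.a (T.a (T.l 0) (T.b (T.b (T.l 0) (T.l 0)) (T.b (T.l 0) (T.l 0)))) (T.b (T.b (T.l 0) (T.l 0)) (T.b (T.l 0) (T.l 0)))) (T.b (T.a (T.b (T.l 0) (T.l 0)) (T.b (T.l 0) (T.l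 3))) (T.a (T.b (T.l 0) (T.l 0)) (T.l 3)))) (T.b (T.b (T.a (T.l 3) (T.l 3)) (T.l 3)) (T.l 3)))), by decide +kernel⟩

def B113_030m :
    ∃ t, chk3 (onCell 0 129955757 0 1073741824 991146299 28908434 (fB12W 2 3 c0B eng mog .nn false false true false gB0q1 gB3q3 gB0q1 gB1q1 dB0q1 dB3q3 dB0q1 dB1q1 37748736 5242880)) t 1 1 1 = true :=
  ⟨(T.a (T.l 0) (T.b (T.l 272) (T.l 0))), by decide +kernel⟩

def B123_030m :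
    ∃ t, chk3 (onCell 0 167704493 0 1073741824 991146299 28908434 (fB12W 3 3 c0B eng mog .npn false false true true gB0q1 gB3q3 gB0q2 gB1q2 dB0q1 dB3q3 dB0q2 dB1q2 37748736 5242880)) t 1 1 1 = true :=
  ⟨(T.b (T.b (T.l 2) (T.l 2)) (T.b (T.l 2) (T.a (T.l 2) (T.l 3)))), by decide +kernel⟩

def B123_031m :
    ∃ t, chk3 (onCell 0 167704493 0 1073741824 991146299 28908434 (fB12W 3 3 c0B eng mog .npn false false true true gB0q1 gB3q3 gB1q2 gB2q2 dB0q1 dB3q3 dB1q2 dB2q2 37748736 5242880)) t 1 1 1 = true :=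
  ⟨(T.b (T.b (T.l 2) (T.l 2)) (T.b (T.l 2) (T.a (T.l 2) (T.l 3)))), by decide +kernel⟩

def B123_032m :
    ∃ t, chk3 (onCell 0 167704493 0 1073741824 991146299 28908434 (fB12W 3 3 c0B eng mog .npn false false true false gB0q1 gB3q3 gB2q2 gB3q2 dB0q1 dB3q3 dB2q2 dB3q2 37748736 5242880)) t 1 1 1 = true :=
  ⟨(T.a (T.b (T.a (T.b (T.b (T.b (T.l 0) (T.l 0)) (T.a (T.l 0) (T.b (T.l 0) (T.l 0)))) (T.a (T.l 0) (T.b (T.b (T.l 0) (T.l 0)) (T.l 0)))) (T.b (T.b (T.a (T.l 0) (T.b (T.l 0) (T.l 0))) (T.b (T.a (T.l 0) (T.l 0)) (T.a (T.l 0) (T.l 0)))) (T.a (T.b (T.l 0) (T.l 0)) (T.b (T.l 0) (T.l 0))))) (T.a (T.a (T.a (T.l 0) (T.b (T.b (T.l 0) (T.l 0)) (T.b (T.l 0) (T.l 0)))) (T.b (T.b (T.l 0) (T.l 0)) (T.b (T.l 0) (T.l 0)))) (T.b (T.a (T.b (T.l 0) (T.l 0)) (T.b (T.l 0) (T.l 3))) (T.a (T.b (T.l 0) (T.l 0)) (T.l 3))))) (T.b (T.b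 (T.a (T.b (T.b (T.b (T.l 0) (T.l 0)) (T.a (T.l 0) (T.l 0))) (T.b (T.l 0) (T.l 0))) (T.b (T.b (T.b (T.l 0) (T.l 0)) (T.l 0)) (T.b (T.l 0) (T.l 0)))) (T.a (T.b (T.b (T.l 0) (T.l 0)) (T.b (T.l 0) (T.l 0))) (T.b (T.b (T.l 0) (T.l 3)) (T.l 3)))) (T.b (T.b (T.a (T.l 3) (T.l 3)) (T.l 3)) (T.l 3)))), by decide +kernel⟩

def B123_033m :
    ∃ t, chk3 (onCell 0 167704493 0 1073741824 991146299 28908434 (fB12W 3 3 c0B eng mog .npn false false false false gB0q1 gB3q3 gB3q2 gB4q2 dB0q1 dB3q3 dB3q2 dB4q2 37748736 5242880)) t 1 1 1 = true :=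
  ⟨(T.a (T.b (T.l 1) (T.a (T.l 1) (T.b (T.l 1) (T.a (T.l 1) (T.l 3))))) (T.b (T.b (T.l 1) (T.b (T.l 1) (T.a (T.l 1) (T.l 3)))) (T.a (T.b (T.b (T.l 3) (T.l 3)) (T.l 3)) (T.l 3)))), by decide +kernel⟩

def B213_130m :
    ∃ t, chk3 (onCell 0 167704493 0 1073741824 991146299 28908434 (fB12W 3 3 c0B eng mog .pnn false false true false gB1q2 gB3q3 gB0q1 gB1q1 dB1q2 dB3q3 dB0q1 dB1q1 37748736 5242880)) t 1 1 1 = true :=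
  ⟨(T.b (T.b (T.b (T.b (T.b (T.a (T.l 0) (T.a (T.l 0) (T.b (T.l 0) (T.a (T.l 0) (T.l 3))))) (T.b (T.a (T.b (T.l 0) (T.b (T.c (T.l 0) (T.l 0)) (T.l 1))) (T.b (T.a (T.l 0) (T.a (T.a (T.l 0) (T.l 3)) (T.l 3))) (T.l 1))) (T.l 1))) (T.l 1)) (T.l 1)) (T.l 1)) (T.b (T.l 1) (T.a (T.l 1) (T.l 3)))), by decide +kernel⟩

def B213_230m :
    ∃ t, chk3 (onCell 0 167704493 0 1073741824 991146299 28908434 (fB12W 3 3 c0B eng mog .pnn false false true false gB2q2 gB3q3 gB0q1 gB1q1 dB2q2 dB3q3 dB0q1 dB1q1 37748736 5242880)) t 1 1 1 = true :=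
  ⟨(T.b (T.b (T.b (T.b (T.a (T.a (T.l 0) (T.l 0)) (T.b (T.a (T.l 0) (T.a (T.l 0) (T.l 3))) (T.b (T.a (T.l 0) (T.l 0)) (T.b (T.a (T.l 0) (T.l 0)) (T.l 1))))) (T.l 1)) (T.l 1)) (T.l 1)) (T.a (T.l 1) (T.b (T.l 1) (T.l 3)))), by decide +kernel⟩

def B113_040p :
    ∃ t, chk3 (onCell 0 129955757 0 1073741824 991146299 28908434 (fB12W 2 3 c0B eng mog .nn true false true false gB0q1 gB4q3 gB0q1 gB1q1 dB0q1 dB4q3 dB0q1 dB1q1 37748736 5242880)) t 1 1 1 = true :=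
  ⟨(T.l 1), by decide +kernel⟩

def B123_040p :
    ∃ t, chk3 (onCell 0 167704493 0 1073741824 991146299 28908434 (fB12uW 3 c0B eng mog .npn true false true true gB0q1 gB4q3 gB0q2 gB1q2 dB0q1 dB4q3 dB0q2 dB1q2 37748736 5242880)) t 1 1 1 = true :=
  ⟨(T.b (T.b (T.l 0) (T.l 2)) (T.b (T.l 2) (T.a (T.l 2) (T.l 3)))), by decide +kernel⟩

def B123_041p :
    ∃ t, chk3 (onCell 0 167704493 0 1073741824 991146299 28908434 (fB12W 3 3 c0B eng mog .npn true false true true gB0q1 gB4q3 gB1q2 gB2q2 dB0q1 dB4q3 dB1q2 dB2q2 37748736 5242880)) t 1 1 1 = true :=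
  ⟨(T.b (T.b (T.b (T.l 1) (T.b (T.l 1) (T.b (T.b (T.a (T.l 1) (T.a (T.l 1) (T.b (T.l 1) (T.l 0)))) (T.b (T.a (T.a (T.l 68) (T.a (T.l 0) (T.l 0))) (T.a (T.l 0) (T.l 0))) (T.a (T.a (T.l 68) (T.a (T.l 68) (T.l 0))) (T.a (T.l 0) (T.l 0))))) (T.b (T.a (T.a (T.l 68) (T.a (T.l 68) (T.l 0))) (T.a (T.l 0) (T.l 0))) (T.b (T.a (T.a (T.l 68) (T.l 0)) (T.a (T.l 0) (T.l 0))) (T.a (T.a (T.l 68) (T.l 0)) (T.a (T.l 0) (T.l 0)))))))) (T.b (T.b (T.b (T.b (T.b (T.a (T.a (T.a (T.l 68) (T.l 68)) (T.l 0)) (T.a (T.l 0) (T.l 0))) (T.a (T.l 2) (T.l 2))) (T.l 2)) (T.l 2)) (T.l 2)) (T.l 2))) (T.b (T.l 2) (T.a (T.l 2) (T.l 3)))), by decide +kernel⟩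

def B123_042p :
    ∃ t, chk3 (onCell 0 167704493 0 1073741824 991146299 28908434 (fB12W 3 3 c0B eng mog .npn true false true false gB0q1 gB4q3 gB2q2 gB3q2 dB0q1 dB4q3 dB2q2 dB3q2 37748736 5242880)) t 1 1 1 = true :=
  ⟨(T.b (T.b (T.b (T.l 1) (T.b (T.l 1) (T.a (T.l 1) (T.a (T.l 1) (T.l 1))))) (T.b (T.a (T.a (T.a (T.l 0) (T.b (T.b (T.l 68) (T.l 0)) (T.l 0))) (T.b (T.a (T.l 0) (T.l 0)) (T.a (T.l 0) (T.l 0)))) (T.b (T.a (T.a (T.l 0) (T.l 0)) (T.a (T.l 0) (T.l 3))) (T.a (T.a (T.l 0) (T.l 0)) (T.l 3)))) (T.a (T.a (T.a (T.l 0) (T.b (T.l 0) (T.l 0))) (T.a (T.l 0) (T.l 0))) (T.a (T.b (T.l 0) (T.l 0)) (T.l 3))))) (T.a (T.a (T.a (T.a (T.l 0) (T.b (T.b (T.l 0) (T.l 0)) (T.b (T.l 0) (T.l 0)))) (T.b (T.b (T.l 0) (T.l 0)) (T.b (T.l 0) (T.l 0)))) (T.b (T.b (T.a (T.l 0) (T.l 0)) (T.a (T.l 0) (T.l 3))) (T.a (T.b (T.l 0) (T.l 0))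 (T.l 3)))) (T.b (T.b (T.a (T.l 3) (T.l 3)) (T.l 3)) (T.l 3)))), by decide +kernel⟩

def B113_040m :
    ∃ t, chk3 (onCell 0 129955757 0 1073741824 991146299 28908434 (fB12W 2 3 c0B eng mog .nn false false true false gB0q1 gB4q3 gB0q1 gB1q1 dB0q1 dB4q3 dB0q1 dB1q1 37748736 5242880)) t 1 1 1 = true :=
  ⟨(T.l 272), by decide +kernel⟩

def B123_040m :
    ∃ t, chk3 (onCell 0 167704493 0 1073741824 991146299 28908434 (fB12W 3 3 c0B eng mog .npn false false true true gB0q1 gB4q3 gB0q2 gB1q2 dB0q1 dB4q3 dB0q2 dB1q2 37748736 5242880)) t 1 1 1 = true :=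
  ⟨(T.b (T.l 2) (T.b (T.l 2) (T.a (T.l 2) (T.l 3)))), by decide +kernel⟩

def B123_041m :
    ∃ t, chk3 (onCell 0 167704493 0 1073741824 991146299 28908434 (fB12W 3 3 c0B eng mog .npn false false true true gB0q1 gB4q3 gB1q2 gB2q2 dB0q1 dB4q3 dB1q2 dB2q2 37748736 5242880)) t 1 1 1 = true :=
  ⟨(T.b (T.l 2) (T.b (T.l 2) (T.a (T.l 2) (T.l 3)))), by decide +kernel⟩

def B123_042m :
    ∃ t, chk3 (onCell 0 167704493 0 1073741824 991146299 28908434 (fB12W 3 3 c0B eng mog .npn false false true false gB0q1 gB4q3 gB2q2 gB3q2 dB0q1 dB4q3 dB2q2 dB3q2 37748736 5242880)) t 1 1 1 = true :=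
  ⟨(T.a (T.a (T.a (T.b (T.l 0) (T.a (T.l 0) (T.b (T.l 0) (T.l 0)))) (T.b (T.b (T.a (T.l 0) (T.b (T.l 0) (T.l 0))) (T.b (T.l 0) (T.l 0))) (T.a (T.b (T.l 0) (T.l 0)) (T.b (T.l 0) (T.l 0))))) (T.b (T.a (T.b (T.b (T.l 0) (T.l 0)) (T.b (T.l 0) (T.l 0))) (T.b (T.b (T.b (T.l 0) (T.l 0)) (T.l 0)) (T.b (T.l 0) (T.l 0)))) (T.a (T.b (T.b (T.l 0) (T.l 0)) (T.b (T.l 0) (T.l 0))) (T.b (T.b (T.l 0) (T.l 3)) (T.l 3))))) (T.b (T.a (T.b (T.a (T.b (T.b (T.l 0) (T.l 0)) (T.l 0)) (T.b (T.b (T.l 0) (T.l 0)) (T.l 0))) (T.b (T.b (T.l 0) (T.l 0)) (T.b (T.l 0) (T.l 0)))) (T.b (T.a (T.b (T.b (T.l 0) (T.l 0)) (T.l 0)) (T.b (T.b (T.l 3) (T.l 2)) (T.l 2))) (T.b (T.l 0) (T.l 3)))) (T.b (T.b (T.a (T.l 3) (T.l 3)) (T.l 3)) (T.l 3)))), by decide +kernel⟩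

def B123_043m :
    ∃ t, chk3 (onCell 0 167704493 0 1073741824 991146299 28908434 (fB12W 3 3 c0B eng mog .npn false false false false gB0q1 gB4q3 gB3q2 gB4q2 dB0q1 dB4q3 dB3q2 dB4q2 37748736 5242880)) t 1 1 1 = true :=
  ⟨(T.a (T.b (T.l 1) (T.a (T.l 1) (T.b (T.l 1) (T.a (T.l 1) (T.l 3))))) (T.b (T.a (T.b (T.b (T.l 1) (T.b (T.l 1) (T.l 0))) (T.b (T.b (T.l 0) (T.l 0)) (T.l 0))) (T.b (T.a (T.b (T.b (T.l 0) (T.l 0)) (T.l 0)) (T.b (T.b (T.l 3) (T.l 0)) (T.l 0))) (T.b (T.l 0) (T.l 3)))) (T.a (T.a (T.b (T.l 3) (T.l 3)) (T.l 3)) (T.l 3)))), by decide +kernel⟩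

def B213_140m :
    ∃ t, chk3 (onCell 0 167704493 0 1073741824 991146299 28908434 (fB12W 3 3 c0B eng mog .pnn false false true false gB1q2 gB4q3 gB0q1 gB1q1 dB1q2 dB4q3 dB0q1 dB1q1 37748736 5242880)) t 1 1 1 = true :=
  ⟨(T.b (T.b (T.b (T.a (T.a (T.l 272) (T.b (T.l 272) (T.a (T.l 272) (T.l 272)))) (T.b (T.a (T.a (T.l 272) (T.l 272)) (T.a (T.l 272) (T.l 3))) (T.a (T.a (T.l 272) (T.l 0)) (T.l 0)))) (T.b (T.b (T.a (T.a (T.l 272) (T.l 272)) (T.a (T.l 0) (T.l 0))) (T.b (T.a (T.a (T.l 272) (T.l 272)) (T.a (T.l 0) (T.l 0))) (T.a (T.a (T.l 272) (T.l 272)) (T.a (T.l 0) (T.l 0))))) (T.b (T.b (T.b (T.a (T.a (T.l 272) (T.l 272)) (T.a (T.l 0) (T.l 0))) (T.a (T.a (T.l 272) (T.a (T.l 272) (T.l 0))) (T.a (T.l 0) (T.l 0)))) (T.b (T.a (T.a (T.l 272) (T.a (T.l 0) (T.l 0))) (T.a (T.a (T.l 0) (T.l 0)) (T.l 0))) (T.a (T.l 1) (T.l 1))))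 (T.l 1)))) (T.l 1)) (T.b (T.l 1) (T.a (T.l 1) (T.l 3)))), by decide +kernel⟩

def B213_240m :
    ∃ t, chk3 (onCell 0 167704493 0 1073741824 991146299 28908434 (fB12W 3 3 c0B eng mog .pnn false false true false gB2q2 gB4q3 gB0q1 gB1q1 dB2q2 dB4q3 dB0q1 dB1q1 37748736 5242880)) t 1 1 1 = true :=
  ⟨(T.b (T.b (T.a (T.a (T.a (T.l 0) (T.b (T.l 272) (T.b (T.l 272) (T.l 272)))) (T.b (T.b (T.l 272) (T.a (T.l 272) (T.l 272))) (T.b (T.a (T.l 272) (T.l 272)) (T.a (T.l 272) (T.l 0))))) (T.b (T.a (T.b (T.a (T.l 272) (T.l 272)) (T.l 0)) (T.b (T.a (T.l 272) (T.l 3)) (T.l 0))) (T.b (T.a (T.l 0) (T.l 0)) (T.a (T.a (T.l 0) (T.l 0)) (T.a (T.l 0) (T.l 0)))))) (T.b (T.b (T.b (T.b (T.b (T.a (T.a (T.a (T.l 272) (T.l 272)) (T.l 0)) (T.a (T.l 0) (T.l 0))) (T.a (T.l 1) (T.l 1))) (T.l 1)) (T.l 1)) (T.l 1)) (T.l 1))) (T.a (T.l 1) (T.b (T.l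 1) (T.l 3)))), by decide +kernel⟩

def B113_050p :
    ∃ t, chk3 (onCell 0 129955757 0 1073741824 991146299 28908434 (fB12W 2 3 c0B eng mog .nn true false true false gB0q1 gB5q3 gB0q1 gB1q1 dB0q1 dB5q3 dB0q1 dB1q1 37748736 5242880)) t 1 1 1 = true :=
  ⟨(T.l 1), by decide +kernel⟩

def B123_050p :
    ∃ t, chk3 (onCell 0 167704493 0 1073741824 991146299 28908434 (fB12uW 3 c0B eng mog .npn true false true true gB0q1 gB5q3 gB0q2 gB1q2 dB0q1 dB5q3 dB0q2 dB1q2 37748736 5242880)) t 1 1 1 = true :=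
  ⟨(T.b (T.b (T.l 0) (T.b (T.l 0) (T.l 2))) (T.b (T.l 2) (T.a (T.l 2) (T.l 3)))), by decide +kernel⟩

def B123_051p :
    ∃ t, chk3 (onCell 0 167704493 0 1073741824 991146299 28908434 (fB12W 3 3 c0B eng mog .npn true false true true gB0q1 gB5q3 gB1q2 gB2q2 dB0q1 dB5q3 dB1q2 dB2q2 37748736 5242880)) t 1 1 1 = true :=
  ⟨(T.b (T.b (T.a (T.l 1) (T.l 1)) (T.b (T.b (T.b (T.b (T.a (T.l 1) (T.a (T.l 1) (T.l 1))) (T.b (T.a (T.b (T.l 1) (T.a (T.a (T.l 1) (T.l 1)) (T.a (T.l 0) (T.l 0)))) (T.a (T.a (T.l 0) (T.l 0)) (T.l 0))) (T.a (T.b (T.a (T.a (T.l 68) (T.l 68)) (T.a (T.l 0) (T.l 0))) (T.a (T.a (T.l 68) (T.l 68)) (T.a (T.l 0) (T.l 0)))) (T.a (T.l 0) (T.l 0))))) (T.b (T.b (T.a (T.a (T.a (T.l 68) (T.l 68)) (T.a (T.l 0) (T.l 0))) (T.a (T.l 0) (T.l 0))) (T.a (T.a (T.a (T.l 68) (T.l 68)) (T.a (T.l 0) (T.l 0))) (T.a (T.l 0) (T.l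 3)))) (T.b (T.a (T.a (T.a (T.l 68) (T.l 68)) (T.a (T.l 0) (T.l 0))) (T.a (T.l 0) (T.l 3))) (T.a (T.a (T.a (T.l 68) (T.l 68)) (T.a (T.l 0) (T.l 0))) (T.a (T.l 0) (T.l 3)))))) (T.b (T.b (T.b (T.a (T.a (T.a (T.l 68) (T.l 68)) (T.a (T.l 0) (T.l 0))) (T.a (T.l 0) (T.l 3))) (T.a (T.a (T.a (T.l 68) (T.l 68)) (T.l 0)) (T.a (T.l 0) (T.l 3)))) (T.b (T.b (T.a (T.a (T.a (T.l 68) (T.l 68)) (T.l 0)) (T.a (T.l 0) (T.l 3))) (T.l 2)) (T.l 2))) (T.l 2))) (T.l 2))) (T.b (T.l 2) (T.a (T.l 2) (T.l 3)))), by decide +kernel⟩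

def B123_052p :
    ∃ t, chk3 (onCell 0 167704493 0 1073741824 991146299 28908434 (fB12W 3 3 c0B eng mog .npn true false true false gB0q1 gB5q3 gB2q2 gB3q2 dB0q1 dB5q3 dB2q2 dB3q2 37748736 5242880)) t 1 1 1 = true :=
  ⟨(T.b (T.b (T.l 1) (T.b (T.b (T.l 1) (T.b (T.b (T.a (T.l 1) (T.a (T.l 0) (T.l 3))) (T.b (T.a (T.a (T.a (T.l 68) (T.l 68)) (T.l 0)) (T.a (T.l 0) (T.l 3))) (T.a (T.a (T.a (T.l 68) (T.l 68)) (T.l 0)) (T.a (T.l 0) (T.l 3))))) (T.b (T.b (T.a (T.a (T.a (T.l 68) (T.l 68)) (T.l 0)) (T.a (T.l 0) (T.l 3))) (T.a (T.a (T.a (T.l 68) (T.l 68)) (T.l 0)) (T.a (T.l 0) (T.l 3)))) (T.a (T.a (T.a (T.l 68) (T.l 0)) (T.l 0)) (T.a (T.l 0) (T.l 3)))))) (T.a (T.b (T.a (T.a (T.l 0) (T.l 0)) (T.a (T.l 0) (T.l 0))) (T.a (T.a (T.l 0) (T.l 0)) (T.a (T.l 0) (T.l 0)))) (T.a (T.a (T.b (T.l 0) (T.l 0)) (T.l 3)) (T.l 3))))) (T.a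 (T.a (T.a (T.a (T.l 0) (T.b (T.b (T.l 0) (T.l 0)) (T.b (T.l 0) (T.l 0)))) (T.b (T.b (T.b (T.l 0) (T.l 0)) (T.l 0)) (T.b (T.l 0) (T.l 0)))) (T.b (T.b (T.a (T.l 0) (T.l 0)) (T.a (T.l 0) (T.l 3))) (T.a (T.b (T.l 0) (T.l 0)) (T.l 3)))) (T.b (T.b (T.a (T.l 3) (T.l 3)) (T.l 3)) (T.l 3)))), by decide +kernel⟩

def B113_050m :
    ∃ t, chk3 (onCell 0 129955757 0 1073741824 991146299 28908434 (fB12W 2 3 c0B eng mog .nn false false true false gB0q1 gB5q3 gB0q1 gB1q1 dB0q1 dB5q3 dB0q1 dB1q1 37748736 5242880)) t 1 1 1 = true :=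
  ⟨(T.a (T.a (T.a (T.l 272) (T.l 272)) (T.l 272)) (T.l 272)), by decide +kernel⟩

def B123_050m :
    ∃ t, chk3 (onCell 0 167704493 0 1073741824 991146299 28908434 (fB12W 3 3 c0B eng mog .npn false false true true gB0q1 gB5q3 gB0q2 gB1q2 dB0q1 dB5q3 dB0q2 dB1q2 37748736 5242880)) t 1 1 1 = true :=
  ⟨(T.b (T.l 2) (T.b (T.l 2) (T.a (T.l 2) (T.l 3)))), by decide +kernel⟩

def B123_051m :
    ∃ t, chk3 (onCell 0 167704493 0 1073741824 991146299 28908434 (fB12W 3 3 c0B eng mog .npn false false true true gB0q1 gB5q3 gB1q2 gB2q2 dB0q1 dB5q3 dB1q2 dB2q2 37748736 5242880)) t 1 1 1 = true :=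
  ⟨(T.b (T.l 2) (T.b (T.l 2) (T.a (T.l 2) (T.l 3)))), by decide +kernel⟩

def B123_052m :
    ∃ t, chk3 (onCell 0 167704493 0 1073741824 991146299 28908434 (fB12W 3 3 c0B eng mog .npn false false true false gB0q1 gB5q3 gB2q2 gB3q2 dB0q1 dB5q3 dB2q2 dB3q2 37748736 5242880)) t 1 1 1 = true :=
  ⟨(T.a (T.a (T.a (T.a (T.l 0) (T.b (T.l 0) (T.b (T.l 0) (T.l 0)))) (T.b (T.a (T.b (T.l 0) (T.l 0)) (T.b (T.b (T.l 0) (T.l 0)) (T.l 0))) (T.a (T.b (T.l 0) (T.l 0)) (T.b (T.l 0) (T.l 0))))) (T.b (T.a (T.a (T.b (T.b (T.l 0) (T.l 0)) (T.l 0)) (T.b (T.b (T.l 0) (T.l 0)) (T.l 0))) (T.b (T.b (T.b (T.l 0) (T.l 0)) (T.l 0)) (T.b (T.l 0) (T.l 0)))) (T.a (T.a (T.b (T.l 0) (T.l 0)) (T.b (T.l 0) (T.l 3))) (T.b (T.b (T.l 0) (T.l 3)) (T.l 3))))) (T.b (T.a (T.a (T.b (T.b (T.b (T.l 0) (T.l 0)) (T.l 0)) (T.b (T.l 0) (T.l 0))) (T.b (T.b (T.b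 (T.l 0) (T.l 0)) (T.l 0)) (T.l 2))) (T.l 2)) (T.b (T.b (T.a (T.l 3) (T.l 3)) (T.l 3)) (T.l 3)))), by decide +kernel⟩

def B123_053m :
    ∃ t, chk3 (onCell 0 167704493 0 1073741824 991146299 28908434 (fB12W 3 3 c0B eng mog .npn false false false false gB0q1 gB5q3 gB3q2 gB4q2 dB0q1 dB5q3 dB3q2 dB4q2 37748736 5242880)) t 1 1 1 = true :=
  ⟨(T.a (T.b (T.l 1) (T.a (T.l 1) (T.b (T.l 1) (T.a (T.l 1) (T.l 3))))) (T.b (T.a (T.a (T.b (T.b (T.l 1) (T.l 0)) (T.b (T.l 0) (T.l 272))) (T.b (T.b (T.b (T.l 0) (T.l 0)) (T.l 0)) (T.b (T.l 0) (T.l 3)))) (T.a (T.b (T.b (T.b (T.l 0) (T.l 0)) (T.l 0)) (T.b (T.l 0) (T.l 3))) (T.b (T.b (T.b (T.l 3) (T.l 0)) (T.l 0)) (T.b (T.l 3) (T.l 3))))) (T.a (T.a (T.b (T.l 3) (T.l 3)) (T.l 3)) (T.l 3)))), by decide +kernel⟩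

def B213_150m :
    ∃ t, chk3 (onCell 0 167704493 0 1073741824 991146299 28908434 (fB12W 3 3 c0B eng mog .pnn false false true false gB1q2 gB5q3 gB0q1 gB1q1 dB1q2 dB5q3 dB0q1 dB1q1 37748736 5242880)) t 1 1 1 = true :=
  ⟨(T.b (T.b (T.a (T.a (T.a (T.b (T.l 272) (T.l 272)) (T.b (T.l 272) (T.a (T.l 272) (T.l 272)))) (T.b (T.b (T.l 272) (T.a (T.l 272) (T.l 272))) (T.b (T.a (T.l 272) (T.l 272)) (T.a (T.b (T.l 272) (T.l 272)) (T.l 0))))) (T.b (T.a (T.b (T.a (T.l 272) (T.l 272)) (T.l 0)) (T.b (T.l 0) (T.l 0))) (T.b (T.a (T.l 0) (T.l 0)) (T.a (T.a (T.l 0) (T.l 0)) (T.a (T.l 0) (T.l 0)))))) (T.b (T.b (T.b (T.b (T.b (T.a (T.a (T.a (T.l 272) (T.l 272)) (T.a (T.l 272) (T.l 0))) (T.a (T.l 0) (T.l 0))) (T.a (T.a (T.a (T.l 272) (T.l 272)) (T.a (T.l 272) (T.l 0))) (T.a (T.l 0) (T.l 0)))) (T.b (T.a (T.b (T.a (T.a (T.l 272) (T.l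 272)) (T.a (T.l 272) (T.l 0))) (T.a (T.a (T.l 272) (T.l 272)) (T.a (T.l 0) (T.l 0)))) (T.a (T.a (T.l 0) (T.l 0)) (T.l 0))) (T.a (T.b (T.a (T.a (T.l 272) (T.a (T.l 272) (T.l 272))) (T.a (T.l 0) (T.l 1))) (T.l 1)) (T.l 1)))) (T.l 1)) (T.l 1)) (T.l 1))) (T.b (T.l 1) (T.a (T.l 1) (T.l 3)))), by decide +kernel⟩

def B213_250m :
    ∃ t, chk3 (onCell 0 167704493 0 1073741824 991146299 28908434 (fB12W 3 3 c0B eng mog .pnn false false true false gB2q2 gB5q3 gB0q1 gB1q1 dB2q2 dB5q3 dB0q1 dB1q1 37748736 5242880)) t 1 1 1 = true :=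
  ⟨(T.b (T.b (T.a (T.a (T.a (T.l 272) (T.a (T.l 272) (T.b (T.l 272) (T.l 272)))) (T.b (T.b (T.l 272) (T.a (T.l 272) (T.l 272))) (T.b (T.a (T.l 272) (T.l 272)) (T.a (T.l 272) (T.l 0))))) (T.b (T.a (T.b (T.a (T.l 272) (T.l 272)) (T.l 0)) (T.b (T.l 0) (T.l 0))) (T.a (T.b (T.l 0) (T.l 0)) (T.b (T.l 0) (T.l 0))))) (T.b (T.b (T.b (T.b (T.a (T.a (T.a (T.l 272) (T.l 272)) (T.l 0)) (T.a (T.l 0) (T.l 0))) (T.a (T.a (T.a (T.l 272) (T.l 272)) (T.l 0)) (T.a (T.l 0) (T.l 0)))) (T.b (T.b (T.a (T.a (T.a (T.l 272) (T.l 272)) (T.l 0)) (T.a (T.l 0) (T.l 0))) (T.a (T.a (T.a (T.l 272) (T.l 272)) (T.l 0)) (T.a (T.l 0) (T.l 3)))) (T.b (T.a (T.a (T.a (T.l 272) (T.l 272)) (T.l 0)) (T.a (T.l 0) (T.l 3))) (T.a (T.a (T.a (T.l 272) (T.l 272)) (T.l 0)) (T.a (T.l 0) (T.l 3)))))) (T.b (T.b (T.b (T.a (T.a (T.a (T.l 272) (T.l 272)) (T.l 0)) (T.a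 (T.l 0) (T.l 3))) (T.a (T.a (T.a (T.l 272) (T.l 272)) (T.l 0)) (T.a (T.l 0) (T.l 3)))) (T.b (T.b (T.a (T.a (T.a (T.l 272) (T.l 272)) (T.l 0)) (T.a (T.l 0) (T.l 3))) (T.l 1)) (T.l 1))) (T.l 1))) (T.l 1))) (T.a (T.l 1) (T.b (T.l 1) (T.l 3)))), by decide +kernel⟩

end Pool.Agent.Strip051.G.I9231_9500.Tab.EW
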