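import Pool.Agent.Strip051.G.I9231_9500.Gn
import Pool.Agent.Strip051.PB.Corns
import Pool.Agent.Strip051.PB.CornW

/-! # Certificates of the aligned corners (generated) -/

set_option linter.all false

namespace Pool.Agent.Strip051.G.I9231_9500.Tab.CG

open Pool.Agent.Strip051.PB

def A202E_012 :
    ∃ t, chk3 (onCell 0 53687091 0 1073741824 991146299 28908434 (corT true 1 c0B cA202E gB0q2 gB1q0 gB2q2 gB3q2 true false)) t 1 1 1 = true :=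
  ⟨(T.b (T.b (T.b (T.a (T.a (T.l 0) (T.b (T.l 0) (T.l 0))) (T.a (T.l 0) (T.l 0))) (T.b (T.a (T.a (T.l 0) (T.l 0)) (T.b (T.l 0) (T.l 0))) (T.a (T.a (T.l 0) (T.l 0)) (T.a (T.l 0) (T.l 0))))) (T.b (T.a (T.b (T.l 0) (T.l 0)) (T.a (T.b (T.l 0) (T.l 0)) (T.l 0))) (T.a (T.a (T.l 816) (T.b (T.l 816) (T.l 816))) (T.a (T.b (T.l 0) (T.l 0)) (T.l 0))))) (T.b (T.b (T.a (T.a (T.l 816) (T.a (T.l 816) (T.l 816))) (T.a (T.l 0) (T.b (T.l 0) (T.l 0)))) (T.a (T.a (T.l 816) (T.a (T.l 816) (T.l 816))) (T.a (T.b (T.l 816) (T.l 816)) (T.b (T.l 816) (T.l 816))))) (T.b (T.a (T.a (T.a (T.l 816) (T.a (T.l 816) (T.l 816))) (T.a (T.b (T.l 816) (T.l 816)) (T.l 816))) (T.a (T.b (T.l 816) (T.l 816)) (T.b (T.l 816) (T.l 816)))) (T.a (T.a (T.a (T.l 816) (T.a (T.l 816) (T.l 816))) (T.a (T.b (T.l 816) (T.l 816)) (T.l 816))) (T.a (T.a (T.l 816) (T.l 816)) (T.a (T.l 816) (T.l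 816))))))), by decide +kernel⟩

def A202E_020 :
    ∃ t, chk3 (onCell 0 53687091 0 1073741824 991146299 28908434 (corT true 1 c0B cA202E gB0q2 gB2q0 gB0q2 gB1q2 true true)) t 1 1 1 = true :=
  ⟨(T.l 2), by decide +kernel⟩

def A202E_021 :
    ∃ t, chk3 (onCell 0 53687091 0 1073741824 991146299 28908434 (corT true 1 c0B cA202E gB0q2 gB2q0 gB1q2 gB2q2 true true)) t 1 1 1 = true :=
  ⟨(T.l 2), by decide +kernel⟩

def A202E_022 :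
    ∃ t, chk3 (onCell 0 53687091 0 1073741824 991146299 28908434 (corT true 1 c0B cA202E gB0q2 gB2q0 gB2q2 gB3q2 true false)) t 1 1 1 = true :=
  ⟨(T.b (T.b (T.b (T.a (T.a (T.l 0) (T.b (T.l 0) (T.l 0))) (T.b (T.l 0) (T.l 0))) (T.a (T.a (T.l 0) (T.b (T.l 0) (T.l 0))) (T.a (T.l 0) (T.l 0)))) (T.b (T.a (T.b (T.l 0) (T.l 0)) (T.a (T.l 0) (T.l 0))) (T.a (T.a (T.l 816) (T.b (T.l 0) (T.l 816))) (T.a (T.b (T.l 0) (T.l 0)) (T.l 0))))) (T.b (T.b (T.a (T.a (T.l 816) (T.b (T.l 816) (T.l 816))) (T.a (T.l 0) (T.l 0))) (T.a (T.a (T.l 816) (T.a (T.l 816) (T.l 816))) (T.a (T.l 0) (T.l 0)))) (T.a (T.a (T.a (T.l 816) (T.a (T.l 816) (T.b (T.l 816) (T.l 816)))) (T.a (T.a (T.l 816) (T.b (T.l 816) (T.l 816))) (T.b (T.l 816) (T.l 816)))) (T.a (T.b (T.b (T.l 816) (T.l 816)) (T.a (T.l 816) (T.l 816))) (T.b (T.b (T.l 816) (T.l 816)) (T.a (T.l 816) (T.l 816))))))),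 by decide +kernel⟩

def A202E_110 :
    ∃ t, chk3 (onCell 0 53687091 0 1073741824 991146299 28908434 (corT true 1 c0B cA202E gB1q2 gB1q0 gB0q2 gB1q2 true true)) t 1 1 1 = true :=
  ⟨(T.l 2), by decide +kernel⟩

def A202E_111 :
    ∃ t, chk3 (onCell 0 53687091 0 1073741824 991146299 28908434 (corT true 1 c0B cA202E gB1q2 gB1q0 gB1q2 gB2q2 true true)) t 1 1 1 = true :=
  ⟨(T.l 2), by decide +kernel⟩

def A202E_112 :
    ∃ t, chk3 (onCell 0 53687091 0 1073741824 991146299 28908434 (corT true 1 c0B cA202E gB1q2 gB1q0 gB2q2 gB3q2 true false)) t 1 1 1 = true :=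
  ⟨(T.b (T.b (T.a (T.a (T.l 0) (T.a (T.l 0) (T.l 0))) (T.a (T.b (T.l 0) (T.l 0)) (T.l 0))) (T.a (T.l 0) (T.a (T.l 0) (T.l 0)))) (T.a (T.l 816) (T.a (T.l 816) (T.b (T.b (T.l 0) (T.l 816)) (T.a (T.l 816) (T.b (T.l 816) (T.l 816))))))), by decide +kernel⟩

def A202E_120 :
    ∃ t, chk3 (onCell 0 53687091 0 1073741824 991146299 28908434 (corT true 1 c0B cA202E gB1q2 gB2q0 gB0q2 gB1q2 true true)) t 1 1 1 = true :=
  ⟨(T.l 2), by decide +kernel⟩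

def A202E_121 :
    ∃ t, chk3 (onCell 0 53687091 0 1073741824 991146299 28908434 (corT true 1 c0B cA202E gB1q2 gB2q0 gB1q2 gB2q2 true true)) t 1 1 1 = true :=
  ⟨(T.l 2), by decide +kernel⟩

def A202E_122 :
    ∃ t, chk3 (onCell 0 53687091 0 1073741824 991146299 28908434 (corT true 1 c0B cA202E gB1q2 gB2q0 gB2q2 gB3q2 true false)) t 1 1 1 = true :=
  ⟨(T.b (T.b (T.a (T.a (T.l 0) (T.a (T.l 0) (T.l 0))) (T.a (T.l 0) (T.l 0))) (T.a (T.l 0) (T.a (T.b (T.l 0) (T.l 0)) (T.l 0)))) (T.a (T.l 816) (T.a (T.l 816) (T.b (T.b (T.l 0) (T.l 816)) (T.b (T.l 816) (T.b (T.l 816) (T.l 816))))))), by decide +kernel⟩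

def A202E_220 :
    ∃ t, chk3 (onCell 0 53687091 0 1073741824 991146299 28908434 (corT true 1 c0B cA202E gB2q2 gB2q0 gB0q2 gB1q2 true true)) t 1 1 1 = true :=
  ⟨(T.l 2), by decide +kernel⟩

def A202E_221 :
    ∃ t, chk3 (onCell 0 53687091 0 1073741824 991146299 28908434 (corT true 1 c0B cA202E gB2q2 gB2q0 gB1q2 gB2q2 true true)) t 1 1 1 = true :=
  ⟨(T.l 2), by decide +kernel⟩

def A202E_222 :
    ∃ t, chk3 (onCell 0 53687091 0 1073741824 991146299 28908434 (corT true 1 c0B cA202E gB2q2 gB2q0 gB2q2 gB3q2 true false)) t 1 1 1 = true :=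
  ⟨(T.b (T.b (T.a (T.a (T.l 0) (T.a (T.l 0) (T.l 0))) (T.a (T.l 0) (T.l 0))) (T.a (T.l 0) (T.a (T.b (T.l 0) (T.l 0)) (T.l 0)))) (T.a (T.l 816) (T.a (T.l 816) (T.b (T.b (T.l 0) (T.l 816)) (T.l 816))))), by decide +kernel⟩

def A202R_004_1_2_1 :
    ∃ t, chk3 (onCell 0 26843545 0 1073741824 991146299 28908434 (corX 1 c0B cA202R tA202R gB0q2 gB0q0 gB4q2 gB5q2 gB5q2 false true)) t 1 2 1 = true :=
  ⟨(T.b (T.l 2) (T.a (T.a (T.l 819) (T.l 819)) (T.b (T.l 883) (T.a (T.l 819) (T.b (T.a (T.l 819) (T.b (T.b (T.l 819) (T.a (T.l 819) (T.c (T.b (T.l 816) (T.l 816)) (T.b (T.l 816) (T.l 816))))) (T.b (T.a (T.c (T.l 816) (T.l 816)) (T.c (T.l 816) (T.l 816))) (T.a (T.c (T.l 816) (T.l 816)) (T.c (T.l 816) (T.l 816)))))) (T.a (T.b (T.a (T.l 819) (T.b (T.c (T.l 816) (T.l 816)) (T.c (T.l 816) (T.l 816)))) (T.a (T.b (T.c (T.l 816) (T.l 816)) (T.l 880)) (T.b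 (T.l 880) (T.l 816)))) (T.b (T.b (T.a (T.c (T.l 816) (T.l 816)) (T.c (T.l 816) (T.l 816))) (T.a (T.c (T.l 816) (T.l 816)) (T.l 880))) (T.a (T.b (T.l 816) (T.l 816)) (T.b (T.l 816) (T.l 816)))))))))), by decide +kernel⟩

def A202R_004_1_6_1 :
    ∃ t, chk3 (onCell 0 26843545 0 1073741824 991146299 28908434 (corX 1 c0B cA202R tA202R gB0q2 gB0q0 gB4q2 gB5q2 gB5q2 false true)) t 1 6 1 = true :=
  ⟨(T.b (T.a (T.b (T.l 819) (T.l 819)) (T.a (T.a (T.b (T.l 819) (T.l 819)) (T.b (T.a (T.l 819) (T.b (T.b (T.l 819) (T.l 816)) (T.b (T.l 816) (T.l 816)))) (T.b (T.a (T.b (T.l 816) (T.l 816)) (T.b (T.l 816) (T.l 816))) (T.a (T.b (T.l 816) (T.l 816)) (T.b (T.l 816) (T.l 816)))))) (T.b (T.a (T.b (T.a (T.b (T.l 816) (T.l 816)) (T.b (T.l 816) (T.l 816))) (T.a (T.b (T.l 816) (T.l 816)) (T.b (T.l 816) (T.l 816)))) (T.b (T.a (T.b (T.l 816) (T.l 816)) (T.b (T.l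 816) (T.l 816))) (T.a (T.b (T.l 816) (T.l 816)) (T.b (T.l 816) (T.l 816))))) (T.a (T.b (T.a (T.b (T.l 816) (T.l 816)) (T.b (T.l 816) (T.l 816))) (T.a (T.l 880) (T.l 816))) (T.b (T.c (T.l 816) (T.l 816)) (T.b (T.l 880) (T.l 816))))))) (T.a (T.b (T.l 819) (T.l 819)) (T.a (T.a (T.b (T.a (T.l 819) (T.b (T.b (T.l 816) (T.l 816)) (T.b (T.l 816) (T.l 816)))) (T.a (T.b (T.b (T.l 816) (T.l 816)) (T.b (T.l 816) (T.l 816))) (T.b (T.l 880) (T.l 816)))) (T.b (T.a (T.b (T.b (T.l 816) (T.l 816)) (T.l 816)) (T.b (T.l 816) (T.l 816))) (T.a (T.b (T.l 816) (T.l 816)) (T.b (T.l 816) (T.l 816))))) (T.a (T.b (T.b (T.c (T.l 816) (T.l 816)) (T.b (T.l 880) (T.l 816))) (T.b (T.b (T.l 816) (T.l 816)) (T.b (T.l 816) (T.l 816)))) (T.b (T.b (T.b (T.l 816) (T.l 816)) (T.b (T.l 816) (T.l 816))) (T.b (T.b (T.l 816) (T.l 816)) (T.b (T.l 816) (T.l 816)))))))), by decide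 +kernel⟩

def A202R_004_1_7_1 :
    ∃ t, chk3 (onCell 0 26843545 0 1073741824 991146299 28908434 (corX 1 c0B cA202R tA202R gB0q2 gB0q0 gB4q2 gB5q2 gB5q2 false true)) t 1 7 1 = true :=
  ⟨(T.b (T.a (T.a (T.l 819) (T.a (T.l 819) (T.a (T.l 819) (T.b (T.b (T.l 819) (T.b (T.l 816) (T.l 816))) (T.b (T.l 816) (T.l 816)))))) (T.a (T.a (T.b (T.a (T.b (T.l 816) (T.l 816)) (T.b (T.l 816) (T.l 816))) (T.a (T.b (T.l 816) (T.l 816)) (T.b (T.l 816) (T.l 816)))) (T.b (T.a (T.b (T.l 816) (T.l 816)) (T.b (T.l 816) (T.l 816))) (T.a (T.b (T.l 816) (T.l 816)) (T.b (T.l 816) (T.l 816))))) (T.a (T.b (T.a (T.b (T.l 816) (T.l 816)) (T.b (T.l 816) (T.l 816))) (T.a (T.b (T.l 816) (T.l 816)) (T.b (T.l 816) (T.l 816)))) (T.b (T.b (T.b (T.l 816) (T.l 816)) (T.b (T.l 816) (T.l 816))) (T.b (T.l 816) (T.l 816)))))) (T.a (T.a (T.l 819) (T.a (T.l 819) (T.a (T.b (T.c (T.l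 816) (T.l 880)) (T.b (T.l 816) (T.l 816))) (T.b (T.b (T.l 816) (T.l 816)) (T.b (T.l 816) (T.l 816)))))) (T.a (T.a (T.b (T.a (T.b (T.l 816) (T.l 816)) (T.b (T.l 816) (T.l 816))) (T.a (T.b (T.l 816) (T.l 816)) (T.b (T.l 816) (T.l 816)))) (T.b (T.a (T.b (T.l 816) (T.l 816)) (T.b (T.l 816) (T.l 816))) (T.a (T.b (T.l 816) (T.l 816)) (T.l 816)))) (T.a (T.b (T.a (T.l 816) (T.l 816)) (T.b (T.l 816) (T.l 816))) (T.b (T.b (T.l 816) (T.l 816)) (T.b (T.l 816) (T.l 816))))))), by decide +kernel⟩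

theorem A202R_004_1_3_1 :
    ∃ t, chk3 (onCell 0 26843545 0 1073741824 991146299 28908434 (corX 1 c0B cA202R tA202R gB0q2 gB0q0 gB4q2 gB5q2 gB5q2 false true)) t 1 3 1 = true :=
  ex3_b A202R_004_1_6_1 A202R_004_1_7_1
theorem A202R_004 :
    ∃ t, chk3 (onCell 0 26843545 0 1073741824 991146299 28908434 (corX 1 c0B cA202R tA202R gB0q2 gB0q0 gB4q2 gB5q2 gB5q2 false true)) t 1 1 1 = true :=
  ex3_b A202R_004_1_2_1 A202R_004_1_3_1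

def A202R_014_1_2_1 :
    ∃ t, chk3 (onCell 0 53687091 0 1073741824 991146299 28908434 (corT true 1 c0B cA202R gB0q2 gB1q0 gB4q2 gB5q2 false true)) t 1 2 1 = true :=
  ⟨(T.b (T.l 2) (T.b (T.l 2) (T.b (T.l 2) (T.b (T.b (T.a (T.l 2) (T.a (T.l 2) (T.l 0))) (T.a (T.a (T.l 204) (T.l 204)) (T.a (T.l 0) (T.l 0)))) (T.b (T.a (T.a (T.l 0) (T.l 0)) (T.a (T.l 0) (T.l 0))) (T.a (T.a (T.l 0) (T.l 0)) (T.a (T.l 0) (T.l 0)))))))), by decide +kernel⟩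

def A202R_014_1_6_1 :
    ∃ t, chk3 (onCell 0 53687091 0 1073741824 991146299 28908434 (corT true 1 c0B cA202R gB0q2 gB1q0 gB4q2 gB5q2 false true)) t 1 6 1 = true :=
  ⟨(T.b (T.b (T.b (T.b (T.a (T.a (T.l 0) (T.l 816)) (T.a (T.l 0) (T.l 0))) (T.a (T.a (T.l 816) (T.l 816)) (T.a (T.l 0) (T.l 0)))) (T.b (T.a (T.a (T.l 816) (T.l 816)) (T.a (T.l 0) (T.l 0))) (T.a (T.a (T.l 816) (T.l 816)) (T.a (T.l 816) (T.l 0))))) (T.b (T.b (T.a (T.a (T.l 816) (T.c (T.l 816) (T.l 816))) (T.a (T.l 816) (T.l 816))) (T.a (T.a (T.l 816) (T.c (T.l 816) (T.l 816))) (T.a (T.l 816) (T.l 816)))) (T.a (T.a (T.l 816) (T.a (T.l 816) (T.l 816))) (T.a (T.l 816) (T.l 816))))) (T.b (T.a (T.a (T.l 816) (T.a (T.l 816) (T.l 816))) (T.a (T.a (T.l 816) (T.l 816)) (T.b (T.l 816) (T.l 816)))) (T.a (T.a (T.l 816) (T.a (T.b (T.l 816) (T.l 816)) (T.l 816))) (T.a (T.a (T.l 816) (T.l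 816)) (T.b (T.l 816) (T.l 816)))))), by decide +kernel⟩

def A202R_014_1_7_1 :
    ∃ t, chk3 (onCell 0 53687091 0 1073741824 991146299 28908434 (corT true 1 c0B cA202R gB0q2 gB1q0 gB4q2 gB5q2 false true)) t 1 7 1 = true :=
  ⟨(T.b (T.b (T.b (T.a (T.a (T.a (T.l 816) (T.l 816)) (T.a (T.l 816) (T.l 816))) (T.a (T.a (T.l 816) (T.l 816)) (T.b (T.l 816) (T.l 816)))) (T.a (T.a (T.a (T.l 816) (T.a (T.l 816) (T.l 816))) (T.a (T.b (T.l 816) (T.l 816)) (T.l 816))) (T.a (T.a (T.l 816) (T.l 816)) (T.a (T.l 816) (T.l 816))))) (T.a (T.a (T.a (T.l 816) (T.a (T.l 816) (T.b (T.l 816) (T.l 816)))) (T.a (T.a (T.l 816) (T.l 816)) (T.b (T.l 816) (T.l 816)))) (T.a (T.a (T.b (T.l 816) (T.l 816)) (T.l 816)) (T.a (T.l 816) (T.l 816))))) (T.b (T.a (T.a (T.a (T.l 816) (T.a (T.l 816) (T.a (T.l 816) (T.l 816)))) (T.a (T.a (T.b (T.l 816) (T.l 816)) (T.b (T.l 816) (T.l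 816))) (T.a (T.l 816) (T.l 816)))) (T.a (T.a (T.a (T.l 816) (T.l 816)) (T.b (T.l 816) (T.l 816))) (T.a (T.b (T.l 816) (T.l 816)) (T.b (T.l 816) (T.l 816))))) (T.a (T.a (T.a (T.l 816) (T.a (T.l 816) (T.a (T.b (T.l 816) (T.l 816)) (T.b (T.l 816) (T.l 816))))) (T.a (T.a (T.a (T.b (T.l 816) (T.l 816)) (T.l 816)) (T.a (T.l 816) (T.l 816))) (T.a (T.b (T.l 816) (T.l 816)) (T.b (T.l 816) (T.l 816))))) (T.a (T.a (T.a (T.l 816) (T.l 816)) (T.a (T.l 880) (T.b (T.l 816) (T.l 816)))) (T.a (T.a (T.b (T.l 816) (T.l 816)) (T.b (T.l 816) (T.l 816))) (T.a (T.b (T.l 816) (T.l 816)) (T.b (T.l 816) (T.l 816)))))))), by decide +kernel⟩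

theorem A202R_014_1_3_1 :
    ∃ t, chk3 (onCell 0 53687091 0 1073741824 991146299 28908434 (corT true 1 c0B cA202R gB0q2 gB1q0 gB4q2 gB5q2 false true)) t 1 3 1 = true :=
  ex3_b A202R_014_1_6_1 A202R_014_1_7_1
theorem A202R_014 :
    ∃ t, chk3 (onCell 0 53687091 0 1073741824 991146299 28908434 (corT true 1 c0B cA202R gB0q2 gB1q0 gB4q2 gB5q2 false true)) t 1 1 1 = true :=
  ex3_b A202R_014_1_2_1 A202R_014_1_3_1

def A202R_024 :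
    ∃ t, chk3 (onCell 0 53687091 0 1073741824 991146299 28908434 (corT true 1 c0B cA202R gB0q2 gB2q0 gB4q2 gB5q2 false true)) t 1 1 1 = true :=
  ⟨(T.b (T.l 2) (T.b (T.b (T.b (T.l 2) (T.b (T.b (T.a (T.l 2) (T.a (T.l 2) (T.l 0))) (T.a (T.a (T.l 0) (T.l 0)) (T.a (T.l 0) (T.l 0)))) (T.b (T.a (T.a (T.l 0) (T.l 0)) (T.a (T.l 0) (T.l 0))) (T.a (T.a (T.l 816) (T.l 816)) (T.a (T.l 0) (T.l 0)))))) (T.b (T.b (T.a (T.a (T.l 816) (T.l 0)) (T.a (T.l 0) (T.l 0))) (T.a (T.a (T.l 816) (T.l 0)) (T.a (T.l 0) (T.l 816)))) (T.a (T.a (T.l 816) (T.a (T.l 816) (T.l 816))) (T.a (T.l 0) (T.l 0))))) (T.b (T.b (T.b (T.a (T.a (T.a (T.l 816) (T.l 816)) (T.a (T.l 816) (T.l 816))) (T.a (T.l 816) (T.l 816))) (T.a (T.a (T.a (T.l 816) (T.a (T.l 816) (T.l 816))) (T.a (T.l 816) (T.l 816))) (T.a (T.l 816) (T.l 816)))) (T.a (T.a (T.a (T.l 816) (T.a (T.l 816) (T.l 816))) (T.a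 (T.b (T.l 816) (T.l 816)) (T.l 816))) (T.a (T.a (T.l 816) (T.l 816)) (T.b (T.l 816) (T.l 816))))) (T.b (T.a (T.a (T.a (T.l 816) (T.a (T.l 816) (T.b (T.l 816) (T.l 816)))) (T.a (T.a (T.l 816) (T.l 816)) (T.b (T.l 816) (T.l 816)))) (T.a (T.a (T.l 816) (T.l 816)) (T.a (T.l 816) (T.l 816)))) (T.a (T.a (T.a (T.l 816) (T.a (T.l 816) (T.a (T.b (T.l 816) (T.l 816)) (T.b (T.l 816) (T.l 816))))) (T.a (T.a (T.a (T.b (T.l 816) (T.l 816)) (T.l 816)) (T.a (T.l 816) (T.l 816))) (T.a (T.b (T.l 816) (T.l 816)) (T.b (T.l 816) (T.l 816))))) (T.a (T.a (T.a (T.b (T.l 816) (T.l 816)) (T.b (T.l 816) (T.l 816))) (T.b (T.l 816) (T.c (T.l 816) (T.l 816)))) (T.a (T.b (T.l 816) (T.a (T.l 816) (T.l 816))) (T.b (T.l 816) (T.a (T.l 816) (T.b (T.l 816) (T.l 816))))))))))), by decide +kernel⟩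

def A202R_114 :
    ∃ t, chk3 (onCell 0 53687091 0 1073741824 991146299 28908434 (corT true 1 c0B cA202R gB1q2 gB1q0 gB4q2 gB5q2 false true)) t 1 1 1 = true :=
  ⟨(T.b (T.l 2) (T.a (T.l 0) (T.a (T.l 0) (T.b (T.b (T.l 0) (T.l 0)) (T.b (T.l 816) (T.l 816)))))), by decide +kernel⟩

def A202R_124 :
    ∃ t, chk3 (onCell 0 53687091 0 1073741824 991146299 28908434 (corT true 1 c0B cA202R gB1q2 gB2q0 gB4q2 gB5q2 false true)) t 1 1 1 = true :=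
  ⟨(T.b (T.l 2) (T.a (T.b (T.l 0) (T.l 0)) (T.a (T.l 0) (T.b (T.b (T.l 2) (T.l 0)) (T.b (T.l 816) (T.l 816)))))), by decide +kernel⟩

def A202R_224 :
    ∃ t, chk3 (onCell 0 53687091 0 1073741824 991146299 28908434 (corT true 1 c0B cA202R gB2q2 gB2q0 gB4q2 gB5q2 false true)) t 1 1 1 = true :=
  ⟨(T.b (T.l 2) (T.b (T.l 2) (T.b (T.l 2) (T.a (T.l 0) (T.b (T.l 2) (T.l 0)))))), by decide +kernel⟩

def B011E_000 :
    ∃ t, chk3 (onCell 0 53687091 0 1073741824 991146299 28908434 (corT true 1 c0B cB011E gB0q0 gB0q1 gB0q1 gB1q1 true false)) t 1 1 1 = true :=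
  ⟨(T.l 1), by decide +kernel⟩

def B011E_100 :
    ∃ t, chk3 (onCell 0 53687091 0 1073741824 991146299 28908434 (corT true 1 c0B cB011E gB1q0 gB0q1 gB0q1 gB1q1 true false)) t 1 1 1 = true :=
  ⟨(T.l 1), by decide +kernel⟩

def B011E_200 :
    ∃ t, chk3 (onCell 0 53687091 0 1073741824 991146299 28908434 (corT true 1 c0B cB011E gB2q0 gB0q1 gB0q1 gB1q1 true false)) t 1 1 1 = true :=
  ⟨(T.l 1), by decide +kernel⟩

def B011L_030 :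
    ∃ t, chk3 (onCell 0 53687091 0 1073741824 991146299 28908434 (corT true 1 c0B cB011L gB0q0 gB3q1 gB0q1 gB1q1 true false)) t 1 1 1 = true :=
  ⟨(T.l 1), by decide +kernel⟩

def B011L_040 :
    ∃ t, chk3 (onCell 0 53687091 0 1073741824 991146299 28908434 (corT true 1 c0B cB011L gB0q0 gB4q1 gB0q1 gB1q1 true false)) t 1 1 1 = true :=
  ⟨(T.l 1), by decide +kernel⟩

def B011L_050 :
    ∃ t, chk3 (onCell 0 53687091 0 1073741824 991146299 28908434 (corT true 1 c0B cB011L gB0q0 gB5q1 gB0q1 gB1q1 true false)) t 1 1 1 = true :=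
  ⟨(T.l 1), by decide +kernel⟩

def B011L_130 :
    ∃ t, chk3 (onCell 0 53687091 0 1073741824 991146299 28908434 (corT true 1 c0B cB011L gB1q0 gB3q1 gB0q1 gB1q1 true false)) t 1 1 1 = true :=
  ⟨(T.l 1), by decide +kernel⟩

def B011L_140 :
    ∃ t, chk3 (onCell 0 53687091 0 1073741824 991146299 28908434 (corT true 1 c0B cB011L gB1q0 gB4q1 gB0q1 gB1q1 true false)) t 1 1 1 = true :=
  ⟨(T.l 1), by decide +kernel⟩

def B011L_150 :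
    ∃ t, chk3 (onCell 0 53687091 0 1073741824 991146299 28908434 (corT true 1 c0B cB011L gB1q0 gB5q1 gB0q1 gB1q1 true false)) t 1 1 1 = true :=
  ⟨(T.l 1), by decide +kernel⟩

def B011L_230 :
    ∃ t, chk3 (onCell 0 53687091 0 1073741824 991146299 28908434 (corT true 1 c0B cB011L gB2q0 gB3q1 gB0q1 gB1q1 true false)) t 1 1 1 = true :=
  ⟨(T.l 1), by decide +kernel⟩

def B011L_240 :
    ∃ t, chk3 (onCell 0 53687091 0 1073741824 991146299 28908434 (corT true 1 c0B cB011L gB2q0 gB4q1 gB0q1 gB1q1 true false)) t 1 1 1 = true :=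
  ⟨(T.l 1), by decide +kernel⟩

def B011L_250 :
    ∃ t, chk3 (onCell 0 53687091 0 1073741824 991146299 28908434 (corT true 1 c0B cB011L gB2q0 gB5q1 gB0q1 gB1q1 true false)) t 1 1 1 = true :=
  ⟨(T.l 1), by decide +kernel⟩

def B011R_002 :
    ∃ t, chk3 (onCell 0 26843545 0 1073741824 991146299 28908434 (corT true 1 c0B cB011R gB0q0 gB0q1 gB2q1 gB3q1 false true)) t 1 1 1 = true :=
  ⟨(T.b (T.b (T.b (T.l 0) (T.l 2)) (T.l 2)) (T.l 2)), by decide +kernel⟩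

def B011R_003 :
    ∃ t, chk3 (onCell 0 26843545 0 1073741824 991146299 28908434 (corT true 1 c0B cB011R gB0q0 gB0q1 gB3q1 gB4q1 true true)) t 1 1 1 = true :=
  ⟨(T.b (T.b (T.b (T.l 204) (T.b (T.l 204) (T.l 204))) (T.l 2)) (T.l 2)), by decide +kernel⟩

def B011R_004 :
    ∃ t, chk3 (onCell 0 26843545 0 1073741824 991146299 28908434 (corX 1 c0B cB011R tB011R gB0q0 gB0q1 gB4q1 gB5q1 gB5q1 true true)) t 1 1 1 = true :=
  ⟨(T.b (T.b (T.b (T.l 1) (T.b (T.l 1) (T.b (T.l 1) (T.l 207)))) (T.b (T.l 207) (T.l 2))) (T.l 2)), by decide +kernel⟩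

def B011R_102 :
    ∃ t, chk3 (onCell 0 53687091 0 1073741824 991146299 28908434 (corT true 1 c0B cB011R gB1q0 gB0q1 gB2q1 gB3q1 false true)) t 1 1 1 = true :=
  ⟨(T.l 2), by decide +kernel⟩

def B011R_103 :
    ∃ t, chk3 (onCell 0 53687091 0 1073741824 991146299 28908434 (corT true 1 c0B cB011R gB1q0 gB0q1 gB3q1 gB4q1 true true)) t 1 1 1 = true :=
  ⟨(T.b (T.b (T.b (T.a (T.l 2) (T.a (T.l 2) (T.l 0))) (T.l 2)) (T.l 2)) (T.l 2)), by decide +kernel⟩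

def B011R_104 :
    ∃ t, chk3 (onCell 0 53687091 0 1073741824 991146299 28908434 (corT true 1 c0B cB011R gB1q0 gB0q1 gB4q1 gB5q1 true true)) t 1 1 1 = true :=
  ⟨(T.b (T.b (T.b (T.b (T.b (T.a (T.a (T.l 0) (T.l 0)) (T.a (T.l 0) (T.l 0))) (T.b (T.a (T.a (T.l 0) (T.l 0)) (T.a (T.l 0) (T.l 0))) (T.a (T.a (T.l 0) (T.l 0)) (T.a (T.l 0) (T.l 0))))) (T.b (T.b (T.a (T.a (T.l 0) (T.l 0)) (T.a (T.l 0) (T.l 0))) (T.a (T.a (T.l 816) (T.l 0)) (T.a (T.l 0) (T.l 0)))) (T.b (T.a (T.a (T.l 816) (T.l 0)) (T.a (T.l 0) (T.l 0))) (T.a (T.a (T.l 816) (T.l 0)) (T.a (T.l 0) (T.l 0)))))) (T.a (T.l 2) (T.b (T.a (T.l 0) (T.l 0)) (T.l 2)))) (T.l 2)) (T.l 2)), by decide +kernel⟩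

def B011R_202 :
    ∃ t, chk3 (onCell 0 53687091 0 1073741824 991146299 28908434 (corT true 1 c0B cB011R gB2q0 gB0q1 gB2q1 gB3q1 false true)) t 1 1 1 = true :=
  ⟨(T.l 2), by decide +kernel⟩

def B011R_203 :
    ∃ t, chk3 (onCell 0 53687091 0 1073741824 991146299 28908434 (corT true 1 c0B cB011R gB2q0 gB0q1 gB3q1 gB4q1 true true)) t 1 1 1 = true :=
  ⟨(T.l 2), by decide +kernel⟩

def B011R_204 :
    ∃ t, chk3 (onCell 0 53687091 0 1073741824 991146299 28908434 (corT true 1 c0B cB011R gB2q0 gB0q1 gB4q1 gB5q1 true true)) t 1 1 1 = true :=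
  ⟨(T.l 2), by decide +kernel⟩

def B012E_000 :
    ∃ t, chk3 (onCell 0 16777216 0 1073741824 991146299 28908434 (corX 1 c0B cB012E tB012E gB0q0 gB0q2 gB0q1 gB1q1 gB0q1 true false)) t 1 1 1 = true :=
  ⟨(T.a (T.b (T.l 819) (T.l 819)) (T.b (T.b (T.l 1) (T.b (T.l 1) (T.l 819))) (T.b (T.a (T.l 819) (T.b (T.b (T.l 819) (T.b (T.l 819) (T.l 819))) (T.b (T.a (T.l 819) (T.b (T.b (T.l 816) (T.l 816)) (T.l 816))) (T.a (T.b (T.l 816) (T.l 816)) (T.b (T.l 816) (T.l 816)))))) (T.a (T.b (T.a (T.l 819) (T.b (T.l 819) (T.l 816))) (T.a (T.b (T.l 819) (T.l 819)) (T.b (T.l 816) (T.l 816)))) (T.b (T.a (T.b (T.b (T.l 816) (T.l 816)) (T.l 816)) (T.b (T.l 816) (T.l 816))) (T.a (T.b (T.l 816) (T.l 816)) (T.b (T.l 816) (T.l 816)))))))), by decide +kernel⟩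

def B012E_010_1_2_1 :
    ∃ t, chk3 (onCell 0 53687091 0 1073741824 991146299 28908434 (corT true 1 c0B cB012E gB0q0 gB1q2 gB0q1 gB1q1 true false)) t 1 2 1 = true :=
  ⟨(T.l 1), by decide +kernel⟩

def B012E_010_1_24_1 :
    ∃ t, chk3 (onCell 0 53687091 0 1073741824 991146299 28908434 (corT true 1 c0B cB012E gB0q0 gB1q2 gB0q1 gB1q1 true false)) t 1 24 1 = true :=
  ⟨(T.b (T.l 1) (T.b (T.l 1) (T.a (T.a (T.l 1) (T.a (T.l 1) (T.b (T.l 1) (T.a (T.l 1) (T.c (T.l 204) (T.l 204)))))) (T.b (T.a (T.l 1) (T.a (T.l 1) (T.c (T.b (T.l 1) (T.c (T.b (T.l 1) (T.a (T.l 816) (T.c (T.l 880) (T.l 816)))) (T.l 0))) (T.l 0)))) (T.a (T.b (T.a (T.l 1) (T.a (T.l 1) (T.c (T.l 0) (T.l 204)))) (T.a (T.a (T.c (T.l 0) (T.l 204)) (T.l 0)) (T.a (T.l 0) (T.c (T.l 0) (T.l 204))))) (T.a (T.a (T.a (T.l 0) (T.l 0)) (T.a (T.l 0) (T.l 0))) (T.c (T.c (T.a (T.b (T.l 816) (T.l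 816)) (T.a (T.l 816) (T.l 816))) (T.l 0)) (T.l 0)))))))), by decide +kernel⟩

def B012E_010_1_25_1 :
    ∃ t, chk3 (onCell 0 53687091 0 1073741824 991146299 28908434 (corT true 1 c0B cB012E gB0q0 gB1q2 gB0q1 gB1q1 true false)) t 1 25 1 = true :=
  ⟨(T.b (T.b (T.a (T.a (T.c (T.a (T.b (T.b (T.l 1) (T.c (T.l 204) (T.l 204))) (T.l 204)) (T.b (T.l 204) (T.l 204))) (T.a (T.b (T.b (T.l 1) (T.a (T.a (T.l 1) (T.l 204)) (T.l 204))) (T.l 204)) (T.b (T.l 204) (T.l 204)))) (T.a (T.l 204) (T.a (T.l 0) (T.c (T.l 0) (T.l 204))))) (T.a (T.a (T.a (T.c (T.l 0) (T.l 204)) (T.c (T.l 0) (T.l 204))) (T.a (T.c (T.l 0) (T.l 204)) (T.c (T.l 0) (T.l 0)))) (T.a (T.c (T.a (T.b (T.l 0) (T.l 0)) (T.b (T.l 0) (T.l 0))) (T.l 0)) (T.c (T.a (T.a (T.l 0) (T.l 0)) (T.a (T.l 816) (T.l 880))) (T.l 0))))) (T.a (T.a (T.c (T.l 204) (T.l 204)) (T.a (T.l 0) (T.a (T.l 0) (T.l 0))))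 (T.a (T.a (T.a (T.l 0) (T.l 0)) (T.c (T.a (T.l 0) (T.l 0)) (T.l 0))) (T.a (T.c (T.a (T.l 0) (T.l 0)) (T.l 0)) (T.c (T.a (T.l 816) (T.b (T.l 816) (T.l 816))) (T.l 0)))))) (T.b (T.a (T.a (T.l 0) (T.a (T.l 0) (T.a (T.l 0) (T.l 0)))) (T.a (T.a (T.a (T.l 0) (T.l 0)) (T.a (T.l 0) (T.l 0))) (T.a (T.a (T.l 0) (T.l 0)) (T.c (T.a (T.l 816) (T.l 816)) (T.l 0))))) (T.a (T.l 0) (T.a (T.a (T.a (T.l 0) (T.l 0)) (T.a (T.l 0) (T.l 0))) (T.a (T.a (T.l 0) (T.l 0)) (T.a (T.l 0) (T.l 0))))))), by decide +kernel⟩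

def B012E_010_1_13_1 :
    ∃ t, chk3 (onCell 0 53687091 0 1073741824 991146299 28908434 (corT true 1 c0B cB012E gB0q0 gB1q2 gB0q1 gB1q1 true false)) t 1 13 1 = true :=
  ⟨(T.a (T.b (T.b (T.l 0) (T.l 0)) (T.l 0)) (T.a (T.a (T.b (T.b (T.a (T.l 0) (T.l 0)) (T.b (T.l 0) (T.l 0))) (T.l 0)) (T.b (T.b (T.a (T.l 0) (T.l 0)) (T.a (T.l 0) (T.l 0))) (T.b (T.b (T.l 0) (T.l 0)) (T.l 816)))) (T.b (T.a (T.b (T.a (T.l 0) (T.l 0)) (T.b (T.l 0) (T.l 816))) (T.b (T.a (T.l 64) (T.b (T.l 816) (T.l 816))) (T.b (T.l 816) (T.l 816)))) (T.a (T.b (T.l 816) (T.l 816)) (T.b (T.l 816) (T.l 816)))))), by decide +kernel⟩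

def B012E_010_1_7_1 :
    ∃ t, chk3 (onCell 0 53687091 0 1073741824 991146299 28908434 (corT true 1 c0B cB012E gB0q0 gB1q2 gB0q1 gB1q1 true false)) t 1 7 1 = true :=
  ⟨(T.a (T.b (T.l 0) (T.l 0)) (T.a (T.b (T.a (T.l 0) (T.l 0)) (T.b (T.l 0) (T.l 816))) (T.b (T.b (T.a (T.b (T.l 816) (T.l 816)) (T.b (T.l 816) (T.l 816))) (T.l 816)) (T.a (T.l 816) (T.b (T.l 816) (T.l 816)))))), by decide +kernel⟩

theorem B012E_010_1_12_1 :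
    ∃ t, chk3 (onCell 0 53687091 0 1073741824 991146299 28908434 (corT true 1 c0B cB012E gB0q0 gB1q2 gB0q1 gB1q1 true false)) t 1 12 1 = true :=
  ex3_b B012E_010_1_24_1 B012E_010_1_25_1
theorem B012E_010_1_6_1 :
    ∃ t, chk3 (onCell 0 53687091 0 1073741824 991146299 28908434 (corT true 1 c0B cB012E gB0q0 gB1q2 gB0q1 gB1q1 true false)) t 1 6 1 = true :=
  ex3_b B012E_010_1_12_1 B012E_010_1_13_1
theorem B012E_010_1_3_1 :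
    ∃ t, chk3 (onCell 0 53687091 0 1073741824 991146299 28908434 (corT true 1 c0B cB012E gB0q0 gB1q2 gB0q1 gB1q1 true false)) t 1 3 1 = true :=
  ex3_b B012E_010_1_6_1 B012E_010_1_7_1
theorem B012E_010 :
    ∃ t, chk3 (onCell 0 53687091 0 1073741824 991146299 28908434 (corT true 1 c0B cB012E gB0q0 gB1q2 gB0q1 gB1q1 true false)) t 1 1 1 = true :=
  ex3_b B012E_010_1_2_1 B012E_010_1_3_1

def B012E_020 :
    ∃ t, chk3 (onCell 0 53687091 0 1073741824 991146299 28908434 (corT true 1 c0B cB012E gB0q0 gB2q2 gB0q1 gB1q1 true false)) t 1 1 1 = true :=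
  ⟨(T.b (T.l 1) (T.b (T.b (T.l 1) (T.b (T.l 1) (T.a (T.l 204) (T.b (T.l 1) (T.a (T.a (T.l 204) (T.l 204)) (T.a (T.l 0) (T.l 0))))))) (T.a (T.b (T.l 0) (T.l 0)) (T.a (T.a (T.l 0) (T.l 0)) (T.b (T.b (T.a (T.l 0) (T.l 0)) (T.l 0)) (T.b (T.l 0) (T.l 0))))))), by decide +kernel⟩

def B012E_100_1_4_1 :
    ∃ t, chk3 (onCell 0 53687091 0 1073741824 991146299 28908434 (corT true 1 c0B cB012E gB1q0 gB0q2 gB0q1 gB1q1 true false)) t 1 4 1 = true :=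
  ⟨(T.l 1), by decide +kernel⟩

def B012E_100_1_20_1 :
    ∃ t, chk3 (onCell 0 53687091 0 1073741824 991146299 28908434 (corT true 1 c0B cB012E gB1q0 gB0q2 gB0q1 gB1q1 true false)) t 1 20 1 = true :=
  ⟨(T.l 1), by decide +kernel⟩

def B012E_100_1_42_1 :
    ∃ t, chk3 (onCell 0 53687091 0 1073741824 991146299 28908434 (corT true 1 c0B cB012E gB1q0 gB0q2 gB0q1 gB1q1 true false)) t 1 42 1 = true :=
  ⟨(T.l 1), by decide +kernel⟩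

def B012E_100_1_86_1 :
    ∃ t, chk3 (onCell 0 53687091 0 1073741824 991146299 28908434 (corT true 1 c0B cB012E gB1q0 gB0q2 gB0q1 gB1q1 true false)) t 1 86 1 = true :=
  ⟨(T.l 1), by decide +kernel⟩

def B012E_100_1_174_1 :
    ∃ t, chk3 (onCell 0 53687091 0 1073741824 991146299 28908434 (corT true 1 c0B cB012E gB1q0 gB0q2 gB0q1 gB1q1 true false)) t 1 174 1 = true :=
  ⟨(T.a (T.l 1) (T.a (T.l 1) (T.b (T.l 1) (T.b (T.a (T.l 1) (T.a (T.l 1) (T.a (T.l 1) (T.a (T.l 1) (T.c (T.c (T.l 824) (T.l 816)) (T.l 824)))))) (T.a (T.b (T.l 1) (T.a (T.a (T.l 1) (T.c (T.l 824) (T.l 816))) (T.c (T.c (T.l 824) (T.l 816)) (T.l 824)))) (T.b (T.a (T.b (T.l 1) (T.c (T.c (T.l 824) (T.l 816)) (T.l 824))) (T.c (T.c (T.l 824) (T.l 816)) (T.l 824))) (T.a (T.c (T.c (T.l 816) (T.l 816)) (T.l 824)) (T.c (T.l 824) (T.l 816))))))))), by decide +kernel⟩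

def B012E_100_2_175_1 :
    ∃ t, chk3 (onCell 0 53687091 0 1073741824 991146299 28908434 (corT true 1 c0B cB012E gB1q0 gB0q2 gB0q1 gB1q1 true false)) t 2 175 1 = true :=
  ⟨(T.b (T.a (T.l 1) (T.a (T.l 1) (T.b (T.l 1) (T.b (T.l 1) (T.a (T.b (T.l 1) (T.a (T.c (T.l 824) (T.l 824)) (T.c (T.l 816) (T.l 816)))) (T.b (T.a (T.c (T.l 816) (T.l 816)) (T.c (T.l 816) (T.l 816))) (T.c (T.c (T.l 824) (T.l 824)) (T.c (T.l 816) (T.l 816))))))))) (T.a (T.b (T.a (T.l 1) (T.a (T.l 1) (T.c (T.l 816) (T.l 824)))) (T.c (T.a (T.l 816) (T.l 816)) (T.c (T.l 816) (T.l 816)))) (T.b (T.a (T.b (T.a (T.c (T.l 816) (T.l 816)) (T.b (T.a (T.l 1) (T.c (T.l 816) (T.l 816))) (T.a (T.c (T.l 816) (T.l 816)) (T.c (T.l 816) (T.l 816))))) (T.a (T.c (T.l 816) (T.l 816)) (T.c (T.a (T.l 816) (T.l 816)) (T.a (T.l 816) (T.l 816))))) (T.b (T.a (T.b (T.a (T.c (T.l 816) (T.l 816))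 (T.c (T.l 816) (T.l 816))) (T.a (T.c (T.l 816) (T.l 816)) (T.c (T.l 816) (T.l 816)))) (T.c (T.c (T.l 824) (T.l 816)) (T.c (T.l 816) (T.l 816)))) (T.a (T.c (T.a (T.l 816) (T.l 816)) (T.c (T.l 824) (T.l 824))) (T.c (T.l 824) (T.l 824))))) (T.a (T.a (T.c (T.l 816) (T.l 816)) (T.c (T.c (T.l 824) (T.l 824)) (T.c (T.l 824) (T.l 816)))) (T.a (T.c (T.c (T.l 824) (T.l 816)) (T.c (T.l 816) (T.l 816))) (T.c (T.l 824) (T.l 816))))))), by decide +kernel⟩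

def B012E_100_3_175_1 :
    ∃ t, chk3 (onCell 0 53687091 0 1073741824 991146299 28908434 (corT true 1 c0B cB012E gB1q0 gB0q2 gB0q1 gB1q1 true false)) t 3 175 1 = true :=
  ⟨(T.b (T.a (T.b (T.a (T.a (T.l 1) (T.a (T.l 1) (T.b (T.l 1) (T.c (T.l 824) (T.l 816))))) (T.b (T.a (T.l 1) (T.b (T.a (T.l 1) (T.c (T.l 816) (T.l 816))) (T.c (T.c (T.l 816) (T.l 816)) (T.l 824)))) (T.a (T.c (T.c (T.l 824) (T.l 816)) (T.c (T.l 816) (T.l 816))) (T.c (T.l 824) (T.l 824))))) (T.a (T.b (T.a (T.b (T.a (T.l 1) (T.c (T.l 816) (T.l 816))) (T.a (T.c (T.l 816) (T.l 816)) (T.c (T.l 816) (T.l 816)))) (T.c (T.c (T.l 824) (T.l 816)) (T.c (T.l 816) (T.l 816)))) (T.a (T.c (T.c (T.l 824) (T.l 824)) (T.c (T.l 816) (T.l 816))) (T.c (T.c (T.l 816) (T.l 816)) (T.l 824)))) (T.b (T.a (T.c (T.l 824) (T.l 824)) (T.c (T.l 824) (T.l 816))) (T.a (T.c (T.l 824) (T.l 816)) (T.c (T.l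 816) (T.l 816)))))) (T.b (T.a (T.b (T.a (T.c (T.c (T.l 816) (T.l 816)) (T.l 824)) (T.c (T.l 824) (T.l 816))) (T.a (T.c (T.l 824) (T.l 816)) (T.c (T.l 816) (T.l 816)))) (T.c (T.a (T.l 824) (T.l 816)) (T.a (T.l 816) (T.l 816)))) (T.a (T.c (T.a (T.l 816) (T.l 816)) (T.a (T.l 816) (T.l 816))) (T.c (T.c (T.l 824) (T.l 824)) (T.c (T.l 816) (T.l 816)))))) (T.a (T.b (T.a (T.b (T.a (T.c (T.c (T.l 816) (T.l 816)) (T.c (T.l 816) (T.l 816))) (T.c (T.l 824) (T.l 816))) (T.a (T.c (T.l 824) (T.l 824)) (T.c (T.l 816) (T.l 816)))) (T.c (T.a (T.l 816) (T.l 816)) (T.a (T.l 816) (T.l 816)))) (T.a (T.a (T.c (T.l 824) (T.l 816)) (T.c (T.l 816) (T.l 816))) (T.c (T.a (T.l 816) (T.l 816)) (T.a (T.l 816) (T.l 816))))) (T.a (T.c (T.a (T.l 816) (T.l 816)) (T.c (T.l 824) (T.l 952))) (T.c (T.c (T.l 816) (T.l 816)) (T.l 824))))), by decide +kernel⟩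

def B012E_100_1_44_1 :
    ∃ t, chk3 (onCell 0 53687091 0 1073741824 991146299 28908434 (corT true 1 c0B cB012E gB1q0 gB0q2 gB0q1 gB1q1 true false)) t 1 44 1 = true :=
  ⟨(T.b (T.b (T.a (T.a (T.c (T.l 816) (T.a (T.l 816) (T.l 816))) (T.b (T.b (T.a (T.a (T.c (T.l 816) (T.l 816)) (T.c (T.l 824) (T.l 824))) (T.a (T.c (T.l 824) (T.l 816)) (T.c (T.l 816) (T.l 816)))) (T.a (T.a (T.c (T.l 816) (T.l 816)) (T.c (T.l 816) (T.l 816))) (T.a (T.c (T.l 816) (T.l 816)) (T.c (T.l 816) (T.l 816))))) (T.a (T.a (T.l 816) (T.c (T.l 816) (T.l 816))) (T.a (T.c (T.l 816) (T.l 816)) (T.c (T.l 816) (T.l 816)))))) (T.b (T.a (T.a (T.a (T.c (T.l 816) (T.l 816)) (T.c (T.l 816) (T.l 816))) (T.a (T.c (T.l 816) (T.l 816)) (T.c (T.l 816) (T.l 816)))) (T.a (T.c (T.l 824) (T.l 944)) (T.c (T.l 816) (T.l 816)))) (T.a (T.a (T.a (T.c (T.l 816) (T.l 816)) (T.l 952)) (T.c (T.l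 816) (T.l 944))) (T.a (T.c (T.l 816) (T.l 816)) (T.c (T.l 816) (T.l 816)))))) (T.a (T.a (T.c (T.l 816) (T.l 816)) (T.a (T.a (T.l 816) (T.c (T.l 816) (T.l 816))) (T.a (T.c (T.l 816) (T.l 816)) (T.l 816)))) (T.a (T.a (T.a (T.c (T.l 816) (T.l 816)) (T.l 816)) (T.c (T.l 816) (T.l 816))) (T.a (T.c (T.l 816) (T.l 816)) (T.l 944))))) (T.b (T.a (T.a (T.l 816) (T.a (T.a (T.l 816) (T.l 816)) (T.a (T.l 816) (T.l 816)))) (T.a (T.a (T.a (T.l 816) (T.l 816)) (T.c (T.l 816) (T.l 816))) (T.a (T.l 816) (T.l 816)))) (T.a (T.a (T.l 816) (T.a (T.a (T.l 816) (T.l 816)) (T.a (T.l 816) (T.l 816)))) (T.a (T.a (T.c (T.l 816) (T.l 816)) (T.l 816)) (T.a (T.l 816) (T.l 816)))))), by decide +kernel⟩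

def B012E_100_1_45_1 :
    ∃ t, chk3 (onCell 0 53687091 0 1073741824 991146299 28908434 (corT true 1 c0B cB012E gB1q0 gB0q2 gB0q1 gB1q1 true false)) t 1 45 1 = true :=
  ⟨(T.b (T.b (T.a (T.a (T.l 816) (T.a (T.c (T.l 816) (T.l 816)) (T.a (T.l 816) (T.l 816)))) (T.a (T.a (T.l 816) (T.l 816)) (T.a (T.l 816) (T.l 816)))) (T.a (T.a (T.l 816) (T.a (T.l 816) (T.c (T.l 816) (T.l 816)))) (T.a (T.a (T.l 816) (T.l 816)) (T.a (T.l 816) (T.l 816))))) (T.b (T.a (T.a (T.l 816) (T.a (T.l 816) (T.l 944))) (T.a (T.a (T.l 816) (T.l 816)) (T.c (T.l 0) (T.l 0)))) (T.a (T.a (T.l 816) (T.a (T.l 816) (T.l 816))) (T.a (T.a (T.l 816) (T.l 816)) (T.c (T.l 0) (T.l 0)))))), by decide +kernel⟩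

def B012E_100_1_23_1 :
    ∃ t, chk3 (onCell 0 53687091 0 1073741824 991146299 28908434 (corT true 1 c0B cB012E gB1q0 gB0q2 gB0q1 gB1q1 true false)) t 1 23 1 = true :=
  ⟨(T.b (T.b (T.b (T.a (T.a (T.l 816) (T.a (T.l 816) (T.l 816))) (T.a (T.a (T.l 816) (T.l 816)) (T.l 0))) (T.a (T.a (T.l 816) (T.a (T.l 816) (T.l 816))) (T.a (T.a (T.l 816) (T.l 816)) (T.l 0)))) (T.b (T.a (T.a (T.l 816) (T.a (T.l 816) (T.l 816))) (T.a (T.a (T.l 816) (T.l 816)) (T.l 0))) (T.a (T.a (T.l 816) (T.a (T.l 816) (T.l 816))) (T.a (T.a (T.l 816) (T.l 816)) (T.l 0))))) (T.b (T.b (T.a (T.a (T.l 816) (T.a (T.l 816) (T.l 816))) (T.a (T.c (T.l 0) (T.l 0)) (T.l 816))) (T.a (T.a (T.l 816) (T.a (T.l 816) (T.l 816))) (T.a (T.c (T.l 0) (T.l 0)) (T.l 816)))) (T.a (T.a (T.l 816) (T.a (T.l 816) (T.l 816))) (T.a (T.c (T.l 0) (T.l 0)) (T.l 0))))), by decide +kernel⟩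

def B012E_100_1_3_1 :
    ∃ t, chk3 (onCell 0 53687091 0 1073741824 991146299 28908434 (corT true 1 c0B cB012E gB1q0 gB0q2 gB0q1 gB1q1 true false)) t 1 3 1 = true :=
  ⟨(T.b (T.b (T.b (T.b (T.b (T.a (T.a (T.l 816) (T.a (T.l 816) (T.l 816))) (T.a (T.c (T.l 0) (T.l 0)) (T.l 816))) (T.a (T.a (T.l 816) (T.a (T.l 816) (T.l 816))) (T.a (T.c (T.l 0) (T.l 0)) (T.l 816)))) (T.a (T.a (T.l 816) (T.a (T.l 816) (T.l 816))) (T.a (T.b (T.l 64) (T.l 0)) (T.l 0)))) (T.b (T.a (T.a (T.l 816) (T.a (T.l 816) (T.l 816))) (T.a (T.b (T.l 816) (T.l 816)) (T.l 816))) (T.a (T.a (T.l 816) (T.a (T.l 816) (T.l 816))) (T.a (T.b (T.l 816) (T.l 816)) (T.l 816))))) (T.b (T.a (T.a (T.l 816) (T.a (T.l 816) (T.l 816))) (T.a (T.a (T.l 816) (T.l 816)) (T.b (T.l 816) (T.l 816)))) (T.a (T.a (T.l 816) (T.a (T.l 816) (T.l 816))) (T.a (T.a (T.l 816) (T.l 816)) (T.b (T.l 816) (T.l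 816)))))) (T.b (T.b (T.a (T.a (T.a (T.l 816) (T.a (T.l 816) (T.l 816))) (T.a (T.l 816) (T.l 816))) (T.a (T.b (T.l 816) (T.l 816)) (T.b (T.l 816) (T.l 816)))) (T.a (T.a (T.a (T.l 816) (T.a (T.l 816) (T.l 816))) (T.a (T.l 816) (T.l 816))) (T.a (T.b (T.l 816) (T.l 816)) (T.l 816)))) (T.a (T.a (T.a (T.l 816) (T.a (T.l 816) (T.l 816))) (T.a (T.b (T.l 816) (T.l 816)) (T.l 816))) (T.a (T.a (T.l 816) (T.l 816)) (T.b (T.l 816) (T.l 816)))))), by decide +kernel⟩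

theorem B012E_100_1_22_1 :
    ∃ t, chk3 (onCell 0 53687091 0 1073741824 991146299 28908434 (corT true 1 c0B cB012E gB1q0 gB0q2 gB0q1 gB1q1 true false)) t 1 22 1 = true :=
  ex3_b B012E_100_1_44_1 B012E_100_1_45_1
theorem B012E_100_1_11_1 :
    ∃ t, chk3 (onCell 0 53687091 0 1073741824 991146299 28908434 (corT true 1 c0B cB012E gB1q0 gB0q2 gB0q1 gB1q1 true false)) t 1 11 1 = true :=
  ex3_b B012E_100_1_22_1 B012E_100_1_23_1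
theorem B012E_100_1_175_1 :
    ∃ t, chk3 (onCell 0 53687091 0 1073741824 991146299 28908434 (corT true 1 c0B cB012E gB1q0 gB0q2 gB0q1 gB1q1 true false)) t 1 175 1 = true :=
  ex3_a B012E_100_2_175_1 B012E_100_3_175_1
theorem B012E_100_1_87_1 :
    ∃ t, chk3 (onCell 0 53687091 0 1073741824 991146299 28908434 (corT true 1 c0B cB012E gB1q0 gB0q2 gB0q1 gB1q1 true false)) t 1 87 1 = true :=
  ex3_b B012E_100_1_174_1 B012E_100_1_175_1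
theorem B012E_100_1_43_1 :
    ∃ t, chk3 (onCell 0 53687091 0 1073741824 991146299 28908434 (corT true 1 c0B cB012E gB1q0 gB0q2 gB0q1 gB1q1 true false)) t 1 43 1 = true :=
  ex3_b B012E_100_1_86_1 B012E_100_1_87_1
theorem B012E_100_1_21_1 :
    ∃ t, chk3 (onCell 0 53687091 0 1073741824 991146299 28908434 (corT true 1 c0B cB012E gB1q0 gB0q2 gB0q1 gB1q1 true false)) t 1 21 1 = true :=
  ex3_b B012E_100_1_42_1 B012E_100_1_43_1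
theorem B012E_100_1_10_1 :
    ∃ t, chk3 (onCell 0 53687091 0 1073741824 991146299 28908434 (corT true 1 c0B cB012E gB1q0 gB0q2 gB0q1 gB1q1 true false)) t 1 10 1 = true :=
  ex3_b B012E_100_1_20_1 B012E_100_1_21_1
theorem B012E_100_1_5_1 :
    ∃ t, chk3 (onCell 0 53687091 0 1073741824 991146299 28908434 (corT true 1 c0B cB012E gB1q0 gB0q2 gB0q1 gB1q1 true false)) t 1 5 1 = true :=
  ex3_b B012E_100_1_10_1 B012E_100_1_11_1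
theorem B012E_100_1_2_1 :
    ∃ t, chk3 (onCell 0 53687091 0 1073741824 991146299 28908434 (corT true 1 c0B cB012E gB1q0 gB0q2 gB0q1 gB1q1 true false)) t 1 2 1 = true :=
  ex3_b B012E_100_1_4_1 B012E_100_1_5_1
theorem B012E_100 :
    ∃ t, chk3 (onCell 0 53687091 0 1073741824 991146299 28908434 (corT true 1 c0B cB012E gB1q0 gB0q2 gB0q1 gB1q1 true false)) t 1 1 1 = true :=
  ex3_b B012E_100_1_2_1 B012E_100_1_3_1

def B012E_110 :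
    ∃ t, chk3 (onCell 0 53687091 0 1073741824 991146299 28908434 (corT true 1 c0B cB012E gB1q0 gB1q2 gB0q1 gB1q1 true false)) t 1 1 1 = true :=
  ⟨(T.b (T.b (T.l 1) (T.b (T.l 1) (T.b (T.b (T.l 1) (T.b (T.a (T.l 1) (T.a (T.l 1) (T.c (T.l 0) (T.l 0)))) (T.b (T.a (T.a (T.l 816) (T.a (T.l 816) (T.l 0))) (T.a (T.a (T.l 0) (T.l 0)) (T.l 0))) (T.a (T.a (T.l 816) (T.a (T.l 816) (T.l 0))) (T.a (T.c (T.l 0) (T.l 0)) (T.l 0)))))) (T.b (T.b (T.b (T.a (T.a (T.l 816) (T.a (T.l 816) (T.l 0))) (T.a (T.c (T.l 0) (T.l 0)) (T.l 0))) (T.a (T.a (T.l 816) (T.a (T.l 816) (T.l 0))) (T.a (T.l 0) (T.l 0)))) (T.b (T.a (T.a (T.l 816) (T.a (T.l 816) (T.l 0))) (T.a (T.l 0) (T.l 0))) (T.a (T.a (T.l 816) (T.a (T.l 816) (T.l 0))) (T.a (T.l 0) (T.l 0))))) (T.b (T.a (T.a (T.l 816) (T.a (T.l 816) (T.l 816))) (T.a (T.l 0) (T.l 0))) (T.a (T.a (T.l 816) (T.a (T.l 816) (T.l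 816))) (T.a (T.l 0) (T.l 0)))))))) (T.b (T.b (T.b (T.a (T.a (T.l 816) (T.a (T.l 816) (T.l 816))) (T.a (T.l 0) (T.l 0))) (T.a (T.a (T.l 816) (T.a (T.l 816) (T.l 816))) (T.a (T.l 816) (T.l 0)))) (T.a (T.a (T.l 816) (T.b (T.l 0) (T.l 0))) (T.a (T.b (T.l 816) (T.l 816)) (T.b (T.l 816) (T.l 816))))) (T.b (T.b (T.a (T.a (T.l 816) (T.l 0)) (T.a (T.l 816) (T.l 816))) (T.a (T.a (T.l 816) (T.l 0)) (T.l 0))) (T.a (T.a (T.l 816) (T.l 0)) (T.a (T.l 816) (T.l 0)))))), by decide +kernel⟩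

def B012E_120 :
    ∃ t, chk3 (onCell 0 53687091 0 1073741824 991146299 28908434 (corT true 1 c0B cB012E gB1q0 gB2q2 gB0q1 gB1q1 true false)) t 1 1 1 = true :=
  ⟨(T.b (T.l 1) (T.b (T.b (T.b (T.b (T.l 1) (T.b (T.l 1) (T.b (T.a (T.l 1) (T.a (T.l 1) (T.l 0))) (T.b (T.a (T.a (T.l 0) (T.a (T.l 0) (T.l 0))) (T.a (T.l 0) (T.l 0))) (T.a (T.a (T.l 0) (T.a (T.l 0) (T.l 0))) (T.a (T.l 0) (T.l 0))))))) (T.b (T.b (T.b (T.b (T.a (T.a (T.l 0) (T.a (T.l 0) (T.l 0))) (T.a (T.l 0) (T.l 0))) (T.b (T.a (T.a (T.l 0) (T.a (T.l 0) (T.l 0))) (T.a (T.l 0) (T.l 0))) (T.a (T.a (T.l 0) (T.a (T.l 0) (T.l 0))) (T.a (T.l 0) (T.l 0))))) (T.b (T.b (T.a (T.a (T.l 0) (T.a (T.l 0) (T.l 0))) (T.a (T.l 0) (T.l 0))) (T.a (T.a (T.l 0) (T.a (T.l 0) (T.l 0))) (T.a (T.l 0) (T.l 0)))) (T.a (T.a (T.l 0) (T.a (T.l 0) (T.l 0))) (T.a (T.l 0) (T.l 0))))) (T.a (T.a (T.l 0) (T.a (T.l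 0) (T.l 0))) (T.a (T.l 0) (T.l 0)))) (T.a (T.a (T.l 0) (T.a (T.l 0) (T.l 0))) (T.a (T.l 0) (T.l 0))))) (T.b (T.a (T.a (T.l 0) (T.l 0)) (T.a (T.l 0) (T.l 0))) (T.a (T.a (T.l 816) (T.l 0)) (T.a (T.l 0) (T.l 816))))) (T.b (T.b (T.a (T.a (T.l 816) (T.l 0)) (T.a (T.l 0) (T.l 816))) (T.a (T.a (T.l 816) (T.l 0)) (T.l 0))) (T.a (T.a (T.l 816) (T.l 0)) (T.a (T.l 816) (T.l 0)))))), by decide +kernel⟩

end Pool.Agent.Strip051.G.I9231_9500.Tab.CG
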