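import Pool.Agent.Strip051.G.I9231_9500.DgP

/-! # The corner (1, 1, 2): certificates of the degenerate charts (generated) -/

set_option linter.all false

namespace Pool.Agent.Strip051.G.I9231_9500.Tab.DG

open Pool.Agent.Strip051.PB Pool.Agent.Strip051.PB.Dg Pool.Agent.StripNear Pool.Agent.Strip051.LC

theorem cFA3 : ∃ t, chk3 (onCell 0 129955757 0 1073741824 991146299 28908434 (fdAx false pF (ndUR ndF3) (ndUR ndF4) (thLo (ndUR ndF3) (ndUR ndF4)))) t 1 1 1 = true :=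
  ⟨(T.a (T.a (T.a (T.b (T.b (T.c (T.b (T.b (T.l 2) (T.b (T.l 2) (T.l 0))) (T.b (T.c (T.l 0) (T.l 0)) (T.c (T.l 0) (T.l 0)))) (T.b (T.b (T.l 2) (T.c (T.l 0) (T.l 0))) (T.c (T.b (T.l 0) (T.l 0)) (T.b (T.l 0) (T.l 0))))) (T.c (T.b (T.b (T.c (T.l 0) (T.l 0)) (T.c (T.l 0) (T.l 0))) (T.b (T.c (T.l 0) (T.l 0)) (T.a (T.l 0) (T.l 0)))) (T.b (T.c (T.b (T.l 0) (T.l 0)) (T.b (T.b (T.l 0) (T.l 0)) (T.a (T.l 0) (T.l 0)))) (T.c (T.b (T.l 0) (T.l 0)) (T.b (T.l 0) (T.l 0)))))) (T.b (T.b (T.c (T.b (T.l 0) (T.l 0)) (T.b (T.b (T.l 0) (T.l 0)) (T.l 0))) (T.c (T.b (T.b (T.l 0) (T.c (T.l 0) (T.l 0))) (T.b (T.b (T.c (T.a (T.l 0) (T.l 0)) (T.a (T.l 0) (T.l 0))) (T.l 3)) (T.l 3))) (T.b (T.b (T.l 0) (T.c (T.l 0) (T.l 0))) (T.b (T.b (T.c (T.c (T.l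 0) (T.l 0)) (T.c (T.l 0) (T.l 0))) (T.l 3)) (T.l 3))))) (T.l 3))) (T.b (T.b (T.c (T.b (T.b (T.l 2) (T.b (T.l 2) (T.l 0))) (T.b (T.b (T.l 0) (T.l 0)) (T.c (T.l 0) (T.l 0)))) (T.b (T.b (T.l 2) (T.b (T.l 2) (T.l 0))) (T.c (T.b (T.l 0) (T.l 0)) (T.b (T.l 0) (T.l 0))))) (T.c (T.b (T.c (T.b (T.l 0) (T.l 0)) (T.b (T.l 0) (T.l 0))) (T.b (T.c (T.l 0) (T.l 0)) (T.b (T.l 0) (T.l 0)))) (T.b (T.c (T.b (T.l 0) (T.l 0)) (T.b (T.l 0) (T.l 0))) (T.c (T.b (T.l 0) (T.l 0)) (T.b (T.a (T.l 0) (T.l 0)) (T.l 0)))))) (T.b (T.b (T.c (T.b (T.l 0) (T.l 0)) (T.b (T.c (T.l 0) (T.l 0)) (T.l 0))) (T.c (T.b (T.c (T.l 0) (T.l 0)) (T.b (T.c (T.b (T.l 0) (T.c (T.a (T.b (T.l 0) (T.l 3)) (T.b (T.l 0) (T.l 3))) (T.a (T.b (T.l 0) (T.l 3)) (T.b (T.l 0) (T.l 3)))))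 (T.b (T.l 0) (T.c (T.a (T.b (T.l 0) (T.l 3)) (T.b (T.l 0) (T.l 3))) (T.a (T.b (T.l 0) (T.l 3)) (T.b (T.l 0) (T.l 3)))))) (T.l 3))) (T.b (T.c (T.l 0) (T.a (T.l 0) (T.l 0))) (T.b (T.c (T.b (T.l 0) (T.c (T.a (T.b (T.l 0) (T.l 3)) (T.b (T.l 0) (T.l 3))) (T.a (T.b (T.l 0) (T.l 3)) (T.b (T.l 0) (T.l 3))))) (T.b (T.c (T.l 0) (T.l 0)) (T.c (T.a (T.b (T.l 0) (T.l 3)) (T.b (T.l 0) (T.l 3))) (T.a (T.b (T.a (T.l 3) (T.l 0)) (T.l 3)) (T.b (T.l 0) (T.l 3)))))) (T.l 3))))) (T.l 3)))) (T.b (T.b (T.b (T.a (T.a (T.b (T.l 2) (T.b (T.l 2) (T.c (T.l 0) (T.l 0)))) (T.l 2)) (T.l 2)) (T.c (T.b (T.a (T.l 0) (T.l 0)) (T.c (T.l 0) (T.l 0))) (T.b (T.b (T.l 0) (T.l 0)) (T.c (T.l 0) (T.l 0))))) (T.b (T.c (T.b (T.c (T.l 0) (T.l 0)) (T.c (T.l 0) (T.l 0)))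 (T.c (T.b (T.l 0) (T.l 0)) (T.b (T.a (T.l 0) (T.l 0)) (T.b (T.l 0) (T.l 0))))) (T.c (T.a (T.b (T.c (T.l 0) (T.l 0)) (T.c (T.l 0) (T.l 0))) (T.b (T.c (T.l 0) (T.l 0)) (T.c (T.a (T.l 0) (T.l 0)) (T.a (T.l 0) (T.l 0))))) (T.a (T.c (T.b (T.l 0) (T.l 0)) (T.b (T.a (T.l 0) (T.l 0)) (T.a (T.l 0) (T.l 0)))) (T.b (T.c (T.l 0) (T.b (T.l 0) (T.l 0))) (T.c (T.a (T.l 0) (T.l 0)) (T.b (T.l 0) (T.l 0)))))))) (T.b (T.a (T.b (T.c (T.b (T.b (T.l 0) (T.l 0)) (T.l 0)) (T.b (T.c (T.l 0) (T.l 0)) (T.b (T.l 0) (T.l 0)))) (T.c (T.b (T.b (T.l 0) (T.a (T.l 0) (T.l 0))) (T.b (T.a (T.c (T.b (T.l 0) (T.b (T.l 0) (T.l 3))) (T.b (T.l 0) (T.b (T.l 0) (T.l 3)))) (T.c (T.b (T.l 0) (T.b (T.l 0) (T.l 3))) (T.b (T.l 0) (T.b (T.l 0) (T.l 3))))) (T.l 3))) (T.b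 (T.b (T.a (T.l 0) (T.l 0)) (T.a (T.c (T.l 0) (T.l 0)) (T.c (T.l 0) (T.l 0)))) (T.b (T.a (T.c (T.b (T.l 0) (T.b (T.l 0) (T.l 3))) (T.b (T.l 0) (T.b (T.c (T.l 0) (T.l 0)) (T.l 3)))) (T.c (T.b (T.l 0) (T.b (T.l 0) (T.l 3))) (T.b (T.l 0) (T.b (T.a (T.l 0) (T.l 0)) (T.l 3))))) (T.l 3))))) (T.b (T.c (T.b (T.c (T.a (T.l 0) (T.l 0)) (T.a (T.l 0) (T.l 0))) (T.a (T.l 0) (T.l 0))) (T.b (T.c (T.a (T.l 0) (T.l 0)) (T.a (T.l 0) (T.l 0))) (T.c (T.l 0) (T.l 0)))) (T.c (T.b (T.b (T.l 0) (T.a (T.l 0) (T.a (T.l 0) (T.l 0)))) (T.b (T.a (T.c (T.b (T.l 0) (T.b (T.l 0) (T.l 3))) (T.b (T.l 0) (T.b (T.l 0) (T.l 3)))) (T.c (T.b (T.a (T.l 0) (T.l 0)) (T.b (T.a (T.l 0) (T.c (T.l 0) (T.l 0))) (T.l 3))) (T.b (T.l 0) (T.b (T.a (T.l 0) (T.a (T.l 0) (T.l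 0))) (T.l 3))))) (T.l 3))) (T.b (T.b (T.l 0) (T.b (T.l 0) (T.a (T.l 0) (T.a (T.l 0) (T.l 0))))) (T.b (T.a (T.c (T.b (T.l 0) (T.b (T.l 0) (T.l 3))) (T.b (T.l 0) (T.b (T.a (T.l 0) (T.l 0)) (T.l 3)))) (T.c (T.b (T.l 0) (T.b (T.c (T.l 0) (T.l 0)) (T.l 3))) (T.b (T.l 0) (T.b (T.c (T.l 0) (T.l 0)) (T.l 3))))) (T.l 3)))))) (T.l 3)))) (T.b (T.b (T.b (T.l 2) (T.c (T.b (T.a (T.c (T.l 0) (T.l 0)) (T.b (T.c (T.a (T.l 0) (T.a (T.l 0) (T.l 2))) (T.l 0)) (T.l 0))) (T.a (T.a (T.l 0) (T.l 0)) (T.l 0))) (T.b (T.a (T.c (T.l 0) (T.l 0)) (T.c (T.l 0) (T.l 0))) (T.a (T.b (T.l 0) (T.l 0)) (T.a (T.l 0) (T.l 0)))))) (T.a (T.b (T.c (T.b (T.c (T.a (T.l 0) (T.l 0)) (T.a (T.l 0) (T.l 0))) (T.c (T.b (T.l 0) (T.a (T.l 0) (T.l 0))) (T.a (T.l 0) (T.a (T.l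 0) (T.l 0))))) (T.b (T.c (T.a (T.l 0) (T.l 0)) (T.a (T.l 0) (T.l 0))) (T.c (T.a (T.l 0) (T.a (T.l 0) (T.l 0))) (T.b (T.l 0) (T.a (T.l 0) (T.l 0)))))) (T.c (T.a (T.b (T.c (T.b (T.l 0) (T.l 0)) (T.b (T.l 0) (T.l 0))) (T.c (T.b (T.l 0) (T.l 0)) (T.b (T.l 0) (T.l 0)))) (T.b (T.c (T.b (T.l 0) (T.l 0)) (T.b (T.l 0) (T.l 0))) (T.c (T.b (T.l 0) (T.a (T.l 0) (T.l 0))) (T.b (T.l 0) (T.a (T.l 0) (T.l 0)))))) (T.b (T.c (T.a (T.b (T.l 0) (T.l 0)) (T.b (T.l 0) (T.l 0))) (T.a (T.c (T.l 0) (T.l 0)) (T.c (T.l 0) (T.a (T.l 0) (T.l 0))))) (T.a (T.c (T.b (T.l 0) (T.l 0)) (T.c (T.l 0) (T.a (T.l 0) (T.l 0)))) (T.c (T.b (T.l 0) (T.a (T.l 0) (T.l 0))) (T.b (T.a (T.l 0) (T.l 0)) (T.a (T.l 0) (T.l 0)))))))) (T.b (T.c (T.b (T.c (T.l 0) (T.l 0)) (T.c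 (T.b (T.l 0) (T.a (T.l 0) (T.l 0))) (T.b (T.l 0) (T.a (T.l 0) (T.l 0))))) (T.b (T.c (T.l 0) (T.l 0)) (T.c (T.b (T.l 0) (T.l 0)) (T.b (T.l 0) (T.a (T.l 0) (T.l 0)))))) (T.c (T.b (T.c (T.a (T.b (T.l 0) (T.a (T.l 0) (T.l 0))) (T.b (T.a (T.l 0) (T.l 0)) (T.c (T.l 0) (T.l 0)))) (T.a (T.b (T.l 0) (T.a (T.l 0) (T.l 0))) (T.b (T.l 0) (T.a (T.l 0) (T.l 0))))) (T.a (T.c (T.b (T.a (T.l 0) (T.l 0)) (T.a (T.l 0) (T.l 0))) (T.b (T.a (T.l 0) (T.l 0)) (T.a (T.l 0) (T.l 0)))) (T.c (T.b (T.a (T.l 0) (T.b (T.l 0) (T.l 0))) (T.a (T.a (T.l 0) (T.l 0)) (T.c (T.l 0) (T.l 0)))) (T.b (T.c (T.l 0) (T.l 0)) (T.a (T.l 0) (T.b (T.l 0) (T.l 0))))))) (T.b (T.c (T.b (T.a (T.l 0) (T.l 0)) (T.a (T.a (T.l 0) (T.l 0)) (T.a (T.l 0) (T.l 0)))) (T.b (T.a (T.l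 0) (T.a (T.l 0) (T.l 0))) (T.a (T.b (T.l 0) (T.l 0)) (T.c (T.l 0) (T.l 0))))) (T.c (T.a (T.b (T.a (T.l 0) (T.l 0)) (T.a (T.l 0) (T.l 0))) (T.b (T.c (T.l 0) (T.l 0)) (T.c (T.a (T.l 0) (T.l 0)) (T.l 0)))) (T.a (T.c (T.b (T.l 0) (T.l 0)) (T.b (T.l 0) (T.l 0))) (T.c (T.b (T.l 0) (T.a (T.l 0) (T.l 0))) (T.b (T.l 0) (T.a (T.l 0) (T.l 0))))))))))) (T.c (T.b (T.a (T.b (T.a (T.b (T.b (T.c (T.l 0) (T.l 0)) (T.a (T.l 0) (T.l 0))) (T.b (T.a (T.l 0) (T.l 0)) (T.l 0))) (T.b (T.c (T.b (T.l 0) (T.l 0)) (T.b (T.l 0) (T.l 0))) (T.c (T.a (T.l 0) (T.l 0)) (T.a (T.l 0) (T.l 0))))) (T.a (T.b (T.b (T.l 0) (T.a (T.a (T.l 0) (T.l 0)) (T.c (T.l 0) (T.l 0)))) (T.b (T.a (T.c (T.b (T.a (T.l 0) (T.l 0)) (T.b (T.a (T.c (T.l 0) (T.l 0)) (T.c (T.l 0) (T.l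 0))) (T.l 3))) (T.b (T.l 0) (T.b (T.c (T.a (T.l 0) (T.l 0)) (T.a (T.l 0) (T.l 0))) (T.l 3)))) (T.c (T.b (T.a (T.l 0) (T.l 0)) (T.b (T.a (T.c (T.l 0) (T.l 0)) (T.c (T.l 0) (T.l 0))) (T.a (T.l 3) (T.b (T.c (T.a (T.b (T.l 0) (T.l 3)) (T.a (T.l 0) (T.l 0))) (T.a (T.a (T.l 3) (T.l 0)) (T.l 0))) (T.l 3))))) (T.b (T.l 0) (T.b (T.a (T.c (T.l 0) (T.l 0)) (T.a (T.l 0) (T.l 0))) (T.a (T.l 3) (T.b (T.c (T.a (T.l 0) (T.l 0)) (T.a (T.l 0) (T.l 0))) (T.l 3))))))) (T.l 3))) (T.b (T.b (T.a (T.l 0) (T.l 0)) (T.a (T.a (T.l 0) (T.l 0)) (T.a (T.l 0) (T.l 0)))) (T.b (T.a (T.c (T.b (T.a (T.l 0) (T.l 0)) (T.a (T.b (T.a (T.l 0) (T.l 0)) (T.b (T.c (T.a (T.l 0) (T.l 0)) (T.l 0)) (T.l 3))) (T.b (T.l 0) (T.b (T.a (T.l 0) (T.l 0)) (T.l 3))))) (T.b (T.l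 0) (T.b (T.a (T.l 0) (T.l 0)) (T.a (T.b (T.c (T.l 0) (T.l 0)) (T.l 3)) (T.b (T.c (T.l 0) (T.l 0)) (T.l 3)))))) (T.c (T.b (T.l 0) (T.a (T.b (T.l 0) (T.b (T.l 0) (T.l 3))) (T.c (T.l 0) (T.l 0)))) (T.b (T.l 0) (T.a (T.b (T.l 0) (T.b (T.a (T.l 0) (T.l 0)) (T.l 3))) (T.c (T.l 0) (T.a (T.l 0) (T.l 0))))))) (T.l 3))))) (T.a (T.b (T.b (T.c (T.b (T.a (T.l 0) (T.l 0)) (T.a (T.l 0) (T.l 0))) (T.b (T.a (T.l 0) (T.l 0)) (T.a (T.l 0) (T.l 0)))) (T.b (T.c (T.a (T.l 0) (T.l 0)) (T.l 0)) (T.c (T.l 0) (T.l 0)))) (T.b (T.a (T.c (T.l 0) (T.l 0)) (T.b (T.l 0) (T.l 0))) (T.b (T.a (T.c (T.a (T.b (T.l 0) (T.l 0)) (T.l 0)) (T.b (T.l 0) (T.a (T.a (T.l 0) (T.l 0)) (T.l 0)))) (T.c (T.a (T.l 0) (T.l 0)) (T.a (T.l 0) (T.l 0)))) (T.l 3)))) (T.b (T.b (T.c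 (T.b (T.a (T.a (T.l 0) (T.l 0)) (T.c (T.a (T.l 0) (T.l 0)) (T.l 0))) (T.a (T.a (T.l 0) (T.l 0)) (T.c (T.a (T.l 0) (T.l 0)) (T.l 0)))) (T.b (T.a (T.l 0) (T.b (T.l 0) (T.l 0))) (T.a (T.l 0) (T.b (T.l 0) (T.l 0))))) (T.a (T.c (T.b (T.l 0) (T.l 0)) (T.b (T.l 0) (T.l 0))) (T.b (T.c (T.b (T.a (T.l 0) (T.l 0)) (T.l 0)) (T.a (T.l 0) (T.l 0))) (T.c (T.b (T.l 0) (T.a (T.l 0) (T.l 0))) (T.a (T.l 0) (T.l 0)))))) (T.b (T.a (T.b (T.b (T.l 0) (T.l 0)) (T.a (T.l 0) (T.l 0))) (T.b (T.c (T.a (T.l 0) (T.l 0)) (T.a (T.l 0) (T.l 0))) (T.a (T.b (T.l 0) (T.l 0)) (T.b (T.a (T.l 0) (T.l 0)) (T.l 0))))) (T.b (T.a (T.c (T.l 0) (T.a (T.l 0) (T.l 0))) (T.c (T.a (T.l 0) (T.l 0)) (T.a (T.l 0) (T.l 0)))) (T.l 3)))))) (T.l 3)) (T.b (T.a (T.b (T.b (T.a (T.c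 (T.b (T.l 0) (T.l 0)) (T.b (T.l 0) (T.l 0))) (T.c (T.b (T.l 0) (T.l 0)) (T.b (T.a (T.l 0) (T.l 0)) (T.l 0)))) (T.a (T.c (T.a (T.l 0) (T.l 0)) (T.a (T.l 0) (T.l 0))) (T.c (T.a (T.l 0) (T.l 0)) (T.a (T.l 0) (T.l 0))))) (T.a (T.b (T.b (T.a (T.l 0) (T.l 0)) (T.c (T.a (T.l 0) (T.l 0)) (T.a (T.l 0) (T.l 0)))) (T.b (T.c (T.a (T.b (T.l 0) (T.b (T.c (T.a (T.l 0) (T.l 0)) (T.l 0)) (T.l 3))) (T.b (T.l 0) (T.b (T.c (T.a (T.l 0) (T.l 0)) (T.l 0)) (T.a (T.l 3) (T.b (T.c (T.a (T.l 0) (T.l 0)) (T.l 0)) (T.l 3)))))) (T.b (T.a (T.l 0) (T.l 0)) (T.a (T.b (T.c (T.l 0) (T.l 0)) (T.l 3)) (T.c (T.b (T.l 0) (T.a (T.l 3) (T.b (T.a (T.l 0) (T.l 0)) (T.l 3)))) (T.b (T.l 0) (T.a (T.l 3) (T.b (T.a (T.l 0) (T.l 0)) (T.l 3)))))))) (T.l 3))) (T.b (T.b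 (T.a (T.l 0) (T.l 0)) (T.c (T.a (T.l 0) (T.l 0)) (T.a (T.l 0) (T.l 0)))) (T.b (T.c (T.a (T.b (T.l 0) (T.b (T.c (T.l 0) (T.l 0)) (T.c (T.a (T.b (T.l 0) (T.l 3)) (T.b (T.l 0) (T.l 3))) (T.a (T.b (T.l 0) (T.l 3)) (T.b (T.l 0) (T.l 3)))))) (T.b (T.l 0) (T.c (T.b (T.l 0) (T.a (T.b (T.l 0) (T.l 3)) (T.l 0))) (T.b (T.l 0) (T.a (T.b (T.l 0) (T.l 3)) (T.a (T.l 0) (T.l 0))))))) (T.a (T.b (T.a (T.l 0) (T.l 0)) (T.c (T.b (T.l 0) (T.a (T.b (T.l 0) (T.l 3)) (T.b (T.l 0) (T.l 3)))) (T.b (T.l 0) (T.a (T.b (T.a (T.l 0) (T.l 0)) (T.l 3)) (T.b (T.a (T.l 0) (T.l 0)) (T.l 3)))))) (T.b (T.l 0) (T.c (T.b (T.l 0) (T.a (T.b (T.l 0) (T.l 3)) (T.b (T.l 0) (T.l 3)))) (T.b (T.l 0) (T.a (T.b (T.l 0) (T.l 3)) (T.b (T.l 0) (T.l 3)))))))) (T.l 3))))) (T.a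 (T.b (T.b (T.c (T.b (T.a (T.l 0) (T.l 0)) (T.a (T.l 0) (T.l 0))) (T.b (T.c (T.l 0) (T.l 0)) (T.a (T.l 0) (T.l 0)))) (T.c (T.b (T.l 0) (T.l 0)) (T.b (T.l 0) (T.l 0)))) (T.b (T.c (T.a (T.l 0) (T.l 0)) (T.a (T.l 0) (T.l 0))) (T.b (T.c (T.a (T.b (T.l 0) (T.c (T.a (T.l 0) (T.l 0)) (T.a (T.a (T.l 0) (T.l 0)) (T.l 0)))) (T.c (T.l 0) (T.a (T.l 0) (T.l 0)))) (T.a (T.b (T.l 0) (T.c (T.b (T.l 0) (T.a (T.a (T.l 0) (T.l 0)) (T.l 0))) (T.b (T.l 0) (T.a (T.b (T.l 0) (T.l 3)) (T.b (T.l 0) (T.l 3)))))) (T.b (T.l 0) (T.c (T.a (T.l 0) (T.l 0)) (T.c (T.l 0) (T.a (T.l 0) (T.l 0))))))) (T.l 3)))) (T.b (T.b (T.c (T.b (T.c (T.a (T.l 0) (T.l 0)) (T.a (T.l 0) (T.l 0))) (T.a (T.l 0) (T.a (T.l 0) (T.l 0)))) (T.b (T.c (T.a (T.l 0) (T.l 0)) (T.a (T.l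 0) (T.l 0))) (T.c (T.a (T.l 0) (T.l 0)) (T.l 0)))) (T.a (T.c (T.b (T.l 0) (T.l 0)) (T.b (T.l 0) (T.l 0))) (T.c (T.b (T.a (T.l 0) (T.l 0)) (T.a (T.l 0) (T.l 0))) (T.b (T.l 0) (T.a (T.l 0) (T.l 0)))))) (T.b (T.a (T.c (T.a (T.l 0) (T.l 0)) (T.a (T.l 0) (T.l 0))) (T.b (T.c (T.l 0) (T.l 0)) (T.c (T.a (T.l 0) (T.l 0)) (T.a (T.l 0) (T.l 0))))) (T.b (T.a (T.c (T.c (T.l 0) (T.a (T.l 0) (T.l 0))) (T.b (T.l 0) (T.c (T.a (T.l 0) (T.l 0)) (T.a (T.l 0) (T.l 0))))) (T.c (T.b (T.l 0) (T.a (T.l 0) (T.l 0))) (T.b (T.a (T.l 0) (T.l 0)) (T.a (T.c (T.l 0) (T.a (T.l 0) (T.l 0))) (T.c (T.l 0) (T.a (T.l 0) (T.l 0))))))) (T.l 3)))))) (T.l 3))))), by decide +kernel⟩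

end Pool.Agent.Strip051.G.I9231_9500.Tab.DG
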