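import Pool.Agent.Strip051.G.I9231_9500.DgP

/-! # The corner (1, 1, 2): certificates of the degenerate charts (generated) -/

set_option linter.all false

namespace Pool.Agent.Strip051.G.I9231_9500.Tab.DG

open Pool.Agent.Strip051.PB Pool.Agent.Strip051.PB.Dg Pool.Agent.StripNear Pool.Agent.Strip051.LC

theorem cFB3 : ∃ t, chk3 (onCell 0 129955757 0 2684354560 991146299 28908434 (fdB true false pF (ndUR ndF3))) t 1 1 1 = true :=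
  ⟨(T.b (T.b (T.b (T.a (T.b (T.b (T.l 2) (T.c (T.c (T.l 0) (T.l 0)) (T.c (T.l 0) (T.l 0)))) (T.l 4)) (T.b (T.b (T.l 2) (T.b (T.l 2) (T.c (T.a (T.l 0) (T.l 0)) (T.a (T.l 0) (T.l 0))))) (T.b (T.b (T.b (T.a (T.l 8224) (T.c (T.l 0) (T.l 0))) (T.l 8224)) (T.l 4)) (T.l 4)))) (T.l 4)) (T.l 4)) (T.l 4)), by decide +kernel⟩
theorem cFB4 : ∃ t, chk3 (onCell 0 129955757 0 2684354560 991146299 28908434 (fdB true false pF (ndUR ndF4))) t 1 1 1 = true :=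
  ⟨(T.b (T.b (T.l 2) (T.b (T.a (T.a (T.b (T.b (T.b (T.l 2) (T.b (T.l 2) (T.b (T.l 2) (T.c (T.c (T.c (T.l 0) (T.l 0)) (T.c (T.l 0) (T.l 0))) (T.c (T.c (T.l 0) (T.a (T.l 0) (T.l 0))) (T.c (T.a (T.l 0) (T.l 0)) (T.a (T.c (T.l 0) (T.l 0)) (T.l 0)))))))) (T.b (T.b (T.b (T.a (T.b (T.l 544) (T.l 544)) (T.b (T.a (T.c (T.b (T.c (T.l 0) (T.l 0)) (T.l 32)) (T.a (T.l 32) (T.b (T.c (T.l 0) (T.b (T.l 0) (T.l 32))) (T.l 32)))) (T.c (T.c (T.l 0) (T.l 0)) (T.b (T.c (T.l 0) (T.l 0)) (T.l 32)))) (T.l 544))) (T.l 544)) (T.l 544)) (T.l 544))) (T.l 680)) (T.b (T.b (T.l 2) (T.b (T.a (T.b (T.b (T.b (T.a (T.c (T.c (T.l 0) (T.l 0)) (T.c (T.l 0) (T.c (T.l 0) (T.l 0)))) (T.c (T.c (T.l 0) (T.l 0)) (T.c (T.l 0) (T.a (T.l 0) (T.l 0))))) (T.a (T.l 544) (T.l 544))) (T.l 544)) (T.l 544))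 (T.b (T.b (T.b (T.a (T.c (T.c (T.l 0) (T.l 0)) (T.c (T.l 0) (T.l 0))) (T.a (T.a (T.a (T.a (T.c (T.c (T.l 0) (T.l 0)) (T.c (T.l 0) (T.l 0))) (T.a (T.c (T.c (T.l 0) (T.l 0)) (T.c (T.l 0) (T.l 0))) (T.l 2))) (T.l 2)) (T.l 2)) (T.l 2))) (T.a (T.c (T.c (T.l 32) (T.l 32)) (T.c (T.l 32) (T.l 32))) (T.c (T.b (T.a (T.c (T.l 0) (T.l 0)) (T.c (T.b (T.l 0) (T.l 32)) (T.a (T.l 0) (T.l 0)))) (T.l 32)) (T.b (T.c (T.a (T.l 0) (T.l 0)) (T.c (T.l 0) (T.l 0))) (T.l 32))))) (T.l 8736)) (T.l 8736))) (T.l 139944))) (T.a (T.l 139944) (T.l 139944)))) (T.c (T.c (T.c (T.c (T.b (T.a (T.b (T.l 2) (T.b (T.b (T.a (T.b (T.b (T.l 2) (T.a (T.b (T.a (T.l 0) (T.l 0)) (T.l 32)) (T.a (T.b (T.l 0) (T.b (T.a (T.l 0) (T.l 0)) (T.l 32))) (T.a (T.a (T.a (T.l 0) (T.l 0)) (T.l 0)) (T.l 0))))) (T.l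 32)) (T.b (T.a (T.a (T.l 0) (T.l 0)) (T.l 0)) (T.a (T.l 32) (T.a (T.l 32) (T.b (T.l 0) (T.l 32)))))) (T.l 8736)) (T.l 8736))) (T.b (T.l 2) (T.b (T.a (T.b (T.b (T.l 2) (T.a (T.b (T.l 0) (T.l 32)) (T.l 0))) (T.l 32)) (T.b (T.a (T.a (T.l 0) (T.l 0)) (T.l 0)) (T.l 8224))) (T.a (T.l 8736) (T.l 8736))))) (T.b (T.a (T.l 174760) (T.a (T.l 8872) (T.l 139944))) (T.l 4))) (T.b (T.a (T.b (T.l 2) (T.b (T.b (T.a (T.b (T.b (T.l 2) (T.a (T.b (T.a (T.l 0) (T.l 0)) (T.l 32)) (T.a (T.b (T.l 0) (T.b (T.l 0) (T.l 32))) (T.a (T.l 0) (T.l 0))))) (T.l 32)) (T.b (T.a (T.a (T.l 0) (T.l 0)) (T.l 0)) (T.a (T.l 32) (T.a (T.l 32) (T.b (T.l 0) (T.l 32)))))) (T.l 8736)) (T.l 8736))) (T.b (T.l 2) (T.b (T.a (T.b (T.b (T.l 2) (T.b (T.a (T.l 0) (T.l 0)) (T.l 32))) (T.l 32)) (T.b (T.a (T.a (T.l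 0) (T.l 0)) (T.l 0)) (T.l 8224))) (T.a (T.l 8736) (T.l 8736))))) (T.b (T.a (T.l 174760) (T.a (T.l 8872) (T.l 139944))) (T.l 4)))) (T.c (T.b (T.a (T.b (T.l 2) (T.b (T.b (T.a (T.b (T.b (T.l 2) (T.a (T.b (T.a (T.l 0) (T.l 0)) (T.l 32)) (T.a (T.b (T.l 0) (T.b (T.l 0) (T.l 32))) (T.a (T.l 0) (T.l 0))))) (T.l 32)) (T.b (T.a (T.a (T.l 0) (T.l 0)) (T.l 0)) (T.a (T.l 32) (T.a (T.l 32) (T.b (T.l 0) (T.l 32)))))) (T.l 8736)) (T.l 8736))) (T.b (T.l 2) (T.b (T.a (T.b (T.b (T.l 2) (T.b (T.a (T.l 0) (T.l 0)) (T.l 32))) (T.l 32)) (T.b (T.a (T.a (T.l 0) (T.l 0)) (T.l 0)) (T.l 8224))) (T.a (T.l 8736) (T.l 8736))))) (T.b (T.a (T.l 174760) (T.a (T.l 8872) (T.l 139944))) (T.l 4))) (T.b (T.a (T.b (T.l 2) (T.b (T.b (T.a (T.b (T.b (T.l 2) (T.a (T.b (T.a (T.l 0) (T.l 0)) (T.l 32))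 (T.b (T.l 0) (T.a (T.a (T.l 32) (T.l 0)) (T.l 0))))) (T.l 32)) (T.b (T.a (T.a (T.l 0) (T.l 0)) (T.l 0)) (T.a (T.l 32) (T.a (T.l 32) (T.b (T.l 0) (T.l 32)))))) (T.l 8736)) (T.l 8736))) (T.b (T.l 2) (T.b (T.a (T.b (T.b (T.l 2) (T.b (T.a (T.l 0) (T.l 0)) (T.l 32))) (T.l 32)) (T.b (T.a (T.a (T.l 0) (T.l 0)) (T.l 0)) (T.l 8224))) (T.a (T.l 8736) (T.l 8736))))) (T.b (T.a (T.l 174760) (T.a (T.l 8872) (T.l 139944))) (T.l 4))))) (T.c (T.c (T.b (T.a (T.b (T.l 2) (T.b (T.b (T.a (T.b (T.b (T.l 2) (T.a (T.b (T.l 0) (T.l 32)) (T.a (T.a (T.b (T.l 0) (T.l 32)) (T.l 0)) (T.l 0)))) (T.l 32)) (T.b (T.a (T.a (T.l 0) (T.l 0)) (T.l 0)) (T.a (T.l 32) (T.a (T.l 32) (T.b (T.l 0) (T.l 32)))))) (T.l 8736)) (T.l 8736))) (T.b (T.l 2) (T.b (T.a (T.b (T.b (T.l 2) (T.b (T.a (T.l 0) (T.l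 0)) (T.l 32))) (T.l 32)) (T.b (T.a (T.a (T.l 0) (T.l 0)) (T.l 0)) (T.l 8224))) (T.a (T.l 8736) (T.l 8736))))) (T.b (T.a (T.l 174760) (T.a (T.l 8872) (T.l 139944))) (T.l 4))) (T.b (T.a (T.b (T.l 2) (T.b (T.b (T.a (T.b (T.b (T.l 2) (T.a (T.b (T.l 0) (T.l 32)) (T.a (T.a (T.l 0) (T.l 0)) (T.l 0)))) (T.l 32)) (T.b (T.a (T.a (T.l 0) (T.l 0)) (T.l 0)) (T.a (T.l 32) (T.a (T.l 32) (T.b (T.l 0) (T.l 32)))))) (T.l 8736)) (T.l 8736))) (T.b (T.l 2) (T.b (T.a (T.b (T.b (T.l 2) (T.b (T.a (T.l 0) (T.l 0)) (T.l 32))) (T.l 32)) (T.b (T.a (T.a (T.l 0) (T.l 0)) (T.l 0)) (T.l 8224))) (T.a (T.l 8736) (T.l 8736))))) (T.b (T.a (T.l 174760) (T.a (T.l 8872) (T.l 139944))) (T.l 4)))) (T.c (T.b (T.a (T.b (T.l 2) (T.b (T.b (T.a (T.b (T.b (T.l 2) (T.a (T.b (T.l 0) (T.l 32)) (T.a (T.a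 (T.l 0) (T.l 0)) (T.l 0)))) (T.l 32)) (T.b (T.a (T.a (T.l 0) (T.l 0)) (T.l 0)) (T.a (T.l 32) (T.a (T.l 32) (T.b (T.a (T.l 0) (T.l 0)) (T.l 32)))))) (T.l 8736)) (T.l 8736))) (T.b (T.l 2) (T.b (T.a (T.b (T.b (T.l 2) (T.b (T.a (T.l 0) (T.l 0)) (T.l 32))) (T.l 32)) (T.b (T.a (T.a (T.l 0) (T.l 0)) (T.l 0)) (T.l 8224))) (T.a (T.l 8736) (T.l 8736))))) (T.b (T.a (T.l 174760) (T.a (T.l 8872) (T.l 8872))) (T.l 4))) (T.b (T.a (T.b (T.l 2) (T.b (T.b (T.a (T.b (T.b (T.l 2) (T.a (T.b (T.l 0) (T.l 32)) (T.a (T.a (T.l 0) (T.l 0)) (T.l 0)))) (T.l 32)) (T.b (T.a (T.a (T.l 0) (T.l 0)) (T.l 0)) (T.a (T.l 32) (T.a (T.l 32) (T.b (T.a (T.l 0) (T.l 0)) (T.l 32)))))) (T.l 8736)) (T.l 8736))) (T.b (T.l 2) (T.b (T.a (T.b (T.b (T.l 2) (T.b (T.a (T.a (T.l 0) (T.l 0)) (T.l 0)) (T.l 32)))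 (T.l 32)) (T.b (T.b (T.l 2) (T.a (T.a (T.l 0) (T.l 0)) (T.l 0))) (T.l 32))) (T.a (T.l 8736) (T.l 8736))))) (T.b (T.a (T.l 174760) (T.a (T.l 8872) (T.l 8872))) (T.l 4)))))) (T.c (T.c (T.c (T.b (T.a (T.b (T.l 2) (T.b (T.b (T.a (T.b (T.b (T.l 2) (T.a (T.b (T.l 0) (T.l 32)) (T.a (T.l 0) (T.l 0)))) (T.l 32)) (T.b (T.a (T.a (T.l 0) (T.l 0)) (T.l 0)) (T.a (T.l 32) (T.a (T.l 32) (T.b (T.b (T.l 0) (T.l 32)) (T.l 32)))))) (T.l 544)) (T.l 8736))) (T.b (T.l 2) (T.b (T.a (T.b (T.b (T.l 2) (T.b (T.a (T.a (T.l 0) (T.l 0)) (T.l 0)) (T.l 32))) (T.l 32)) (T.b (T.b (T.l 2) (T.a (T.a (T.l 0) (T.l 0)) (T.l 0))) (T.l 32))) (T.a (T.l 8736) (T.l 8736))))) (T.b (T.a (T.l 174760) (T.a (T.l 8872) (T.l 8872))) (T.l 4))) (T.b (T.a (T.b (T.l 2) (T.b (T.b (T.a (T.b (T.b (T.l 2) (T.a (T.b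 (T.l 0) (T.l 32)) (T.a (T.l 0) (T.l 0)))) (T.l 32)) (T.b (T.a (T.a (T.l 0) (T.l 0)) (T.l 0)) (T.a (T.l 32) (T.b (T.a (T.l 32) (T.b (T.l 0) (T.l 32))) (T.l 32))))) (T.l 544)) (T.l 544))) (T.b (T.l 2) (T.b (T.a (T.b (T.b (T.l 2) (T.b (T.a (T.a (T.l 0) (T.l 0)) (T.l 0)) (T.l 32))) (T.l 32)) (T.b (T.b (T.l 2) (T.a (T.a (T.l 0) (T.l 0)) (T.a (T.l 0) (T.l 0)))) (T.l 32))) (T.a (T.l 8736) (T.l 8736))))) (T.b (T.a (T.l 174760) (T.a (T.l 8872) (T.l 8872))) (T.l 4)))) (T.c (T.b (T.a (T.b (T.l 2) (T.b (T.b (T.a (T.b (T.b (T.l 2) (T.a (T.a (T.l 0) (T.l 0)) (T.a (T.l 0) (T.l 0)))) (T.l 32)) (T.b (T.a (T.a (T.l 0) (T.l 0)) (T.l 0)) (T.a (T.l 32) (T.b (T.b (T.a (T.l 0) (T.l 0)) (T.l 32)) (T.l 32))))) (T.l 544)) (T.l 544))) (T.b (T.l 2) (T.b (T.a (T.b (T.b (T.l 2) (T.b (T.a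 (T.a (T.l 0) (T.l 0)) (T.l 0)) (T.l 32))) (T.l 32)) (T.b (T.b (T.l 2) (T.a (T.a (T.l 0) (T.l 0)) (T.a (T.l 0) (T.l 0)))) (T.l 32))) (T.a (T.l 8736) (T.l 8736))))) (T.b (T.a (T.l 174760) (T.a (T.l 8872) (T.l 8872))) (T.l 4))) (T.b (T.a (T.b (T.l 2) (T.b (T.b (T.a (T.b (T.b (T.l 2) (T.a (T.a (T.l 0) (T.l 0)) (T.a (T.l 0) (T.l 0)))) (T.l 32)) (T.b (T.a (T.a (T.l 0) (T.l 0)) (T.l 0)) (T.a (T.l 32) (T.b (T.b (T.a (T.l 0) (T.l 0)) (T.l 32)) (T.l 32))))) (T.l 544)) (T.l 544))) (T.b (T.l 2) (T.b (T.a (T.b (T.b (T.l 2) (T.b (T.a (T.a (T.l 0) (T.l 0)) (T.l 0)) (T.l 32))) (T.l 32)) (T.b (T.b (T.l 2) (T.a (T.a (T.l 0) (T.l 0)) (T.a (T.l 0) (T.l 0)))) (T.l 32))) (T.a (T.l 8736) (T.l 8736))))) (T.b (T.a (T.l 174760) (T.a (T.l 8872) (T.l 8872))) (T.l 4))))) (T.c (T.c (T.b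 (T.a (T.b (T.l 2) (T.b (T.b (T.a (T.b (T.b (T.l 2) (T.a (T.a (T.l 0) (T.l 0)) (T.a (T.l 0) (T.l 0)))) (T.l 32)) (T.b (T.a (T.a (T.l 0) (T.l 0)) (T.l 0)) (T.a (T.l 32) (T.b (T.b (T.a (T.l 0) (T.l 0)) (T.l 32)) (T.l 32))))) (T.l 544)) (T.l 544))) (T.b (T.l 2) (T.b (T.a (T.b (T.b (T.l 2) (T.b (T.a (T.b (T.l 0) (T.l 32)) (T.l 0)) (T.l 32))) (T.l 32)) (T.b (T.b (T.l 2) (T.a (T.b (T.l 0) (T.l 32)) (T.a (T.l 0) (T.l 0)))) (T.l 32))) (T.l 139816)))) (T.b (T.a (T.l 174760) (T.a (T.l 8872) (T.l 8872))) (T.l 4))) (T.b (T.a (T.b (T.l 2) (T.b (T.b (T.a (T.b (T.b (T.l 2) (T.a (T.a (T.l 0) (T.l 0)) (T.a (T.l 0) (T.l 0)))) (T.l 32)) (T.b (T.a (T.a (T.l 0) (T.l 0)) (T.l 0)) (T.a (T.l 32) (T.b (T.b (T.a (T.a (T.l 0) (T.l 0)) (T.l 0)) (T.l 32)) (T.l 32))))) (T.l 544)) (T.l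 544))) (T.b (T.l 2) (T.b (T.a (T.b (T.b (T.l 2) (T.b (T.a (T.b (T.l 0) (T.l 32)) (T.l 0)) (T.l 32))) (T.l 32)) (T.b (T.b (T.l 2) (T.a (T.b (T.l 0) (T.l 32)) (T.b (T.l 0) (T.a (T.l 0) (T.l 0))))) (T.l 544))) (T.l 139816)))) (T.b (T.a (T.l 174760) (T.a (T.l 8872) (T.l 8872))) (T.l 4)))) (T.c (T.b (T.a (T.b (T.l 2) (T.b (T.b (T.a (T.b (T.b (T.l 2) (T.a (T.a (T.l 0) (T.l 0)) (T.a (T.l 0) (T.l 0)))) (T.l 32)) (T.b (T.a (T.a (T.l 0) (T.l 0)) (T.l 0)) (T.a (T.l 32) (T.b (T.b (T.a (T.a (T.l 0) (T.l 0)) (T.l 0)) (T.l 32)) (T.l 32))))) (T.l 544)) (T.l 544))) (T.b (T.l 2) (T.b (T.a (T.b (T.b (T.l 2) (T.b (T.a (T.b (T.l 0) (T.l 32)) (T.l 0)) (T.l 32))) (T.l 32)) (T.b (T.b (T.l 2) (T.a (T.b (T.l 0) (T.l 32)) (T.b (T.a (T.l 0) (T.l 0)) (T.a (T.l 32) (T.a (T.l 0) (T.l 0))))))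 (T.l 544))) (T.l 139816)))) (T.b (T.a (T.l 174760) (T.a (T.l 8872) (T.l 8872))) (T.l 4))) (T.b (T.a (T.b (T.l 2) (T.b (T.b (T.a (T.b (T.b (T.l 2) (T.a (T.a (T.l 0) (T.l 0)) (T.a (T.l 0) (T.l 0)))) (T.l 32)) (T.b (T.a (T.a (T.l 0) (T.l 0)) (T.l 0)) (T.a (T.l 32) (T.b (T.b (T.a (T.a (T.l 32) (T.l 0)) (T.l 0)) (T.l 32)) (T.l 32))))) (T.l 544)) (T.l 544))) (T.b (T.l 2) (T.b (T.a (T.b (T.b (T.l 2) (T.b (T.a (T.b (T.a (T.l 0) (T.l 0)) (T.l 32)) (T.a (T.l 0) (T.l 0))) (T.l 32))) (T.l 32)) (T.b (T.b (T.l 2) (T.b (T.a (T.l 0) (T.a (T.l 0) (T.l 0))) (T.a (T.l 32) (T.a (T.l 32) (T.b (T.a (T.l 0) (T.l 0)) (T.l 32)))))) (T.l 544))) (T.l 139816)))) (T.b (T.a (T.l 141992) (T.a (T.l 8872) (T.l 8872))) (T.l 4)))))))) (T.l 4))) (T.a (T.l 4) (T.l 4))), by decide +kernel⟩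

end Pool.Agent.Strip051.G.I9231_9500.Tab.DG
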