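import Pool.Agent.Strip051.PB.Cuts
import Pool.Agent.Strip051.PB.WinG

/-! # Tables I9231_9500 (generated) -/

namespace Pool.Agent.Strip051.G.I9231_9500.Tab

open Pool.Agent.Strip051.PB

noncomputable def c1g : Fn1 := ⟨_, _, fun h1 => (enc_sqrtg (enc_sub (enc_pnc _ 1) (enc_scaleT 3 4 (enc_sq h1))))⟩
noncomputable def kcg_3 : Fn2 := ⟨_, _, fun h1 h2 => (enc_subr 487 520 h2)⟩
noncomputable def kcg_6 : Fn2 := ⟨_, _, fun h1 h2 => (enc_add h1 (enc_rat _ 47 122))⟩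
noncomputable def kcg_9 : Fn2 := ⟨_, _, fun h1 h2 => (enc_add h1 (enc_rat _ 23 50))⟩
noncomputable def kcg_12 : Fn2 := ⟨_, _, fun h1 h2 => (enc_add h1 (enc_rat _ 19 40))⟩
noncomputable def kcg_13 : Fn2 := ⟨_, _, fun h1 h2 => (enc_scaleT 135810477 25000000 h1)⟩
noncomputable def kcg_18 : Fn2 := ⟨_, _, fun h1 h2 => (enc_scaleT 43157029 2500000 h1)⟩
noncomputable def kcg_31 : Fn2 := ⟨_, _, fun h1 h2 => (enc_subr 3 250 (enc_neg (enc_half (kcg_3.enc h1 h2))))⟩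
noncomputable def kcg_32 : Fn2 := ⟨_, _, fun h1 h2 => (enc_add h1 (enc_rat _ 1 2))⟩
noncomputable def kcg_33 : Fn2 := ⟨_, _, fun h1 h2 => (enc_sub (enc_neg (enc_rat _ 19 40)) h1)⟩
noncomputable def kcg_38 : Fn2 := ⟨_, _, fun h1 h2 => (enc_scaleT 20368759 3750000 h1)⟩
noncomputable def kcg_43 : Fn2 := ⟨_, _, fun h1 h2 => (enc_scaleT 25801217 1500000 h1)⟩
noncomputable def kcg_56 : Fn2 := ⟨_, _, fun h1 h2 => (enc_subr 3 100 (enc_neg (enc_scaleT 33 10 (kcg_3.enc h1 h2))))⟩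
noncomputable def kcg_57 : Fn2 := ⟨_, _, fun h1 h2 => (enc_sub (enc_neg (enc_rat _ 23 50)) h1)⟩
noncomputable def kcg_65 : Fn2 := ⟨_, _, fun h1 h2 => (enc_add h1 (enc_rat _ 263 601))⟩
noncomputable def kcg_66 : Fn2 := ⟨_, _, fun h1 h2 => (enc_scaleT 26096659863 13460000000 h1)⟩
noncomputable def kcg_71 : Fn2 := ⟨_, _, fun h1 h2 => (enc_scaleT 3440754449 673000000 h1)⟩
noncomputable def kcg_84 : Fn2 := ⟨_, _, fun h1 h2 => (enc_subr 77969 500 (enc_neg (enc_scaleT 26877 50 (kcg_3.enc h1 h2))))⟩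
noncomputable def kcg_85 : Fn2 := ⟨_, _, fun h1 h2 => (enc_sub (enc_neg (enc_rat _ 263 601)) h1)⟩
noncomputable def kcg_90 : Fn2 := ⟨_, _, fun h1 h2 => (enc_scaleT 4336611689449 1919500000000 h1)⟩
noncomputable def kcg_94 : Fn2 := ⟨_, _, fun h1 h2 => (enc_scaleT 1328275652639 191950000000 h1)⟩
noncomputable def kcg_103 : Fn2 := ⟨_, _, fun h1 h2 => (enc_subr 6739 500 (enc_scaleT 3 25 (kcg_3.enc h1 h2)))⟩
noncomputable def kcg_104 : Fn2 := ⟨_, _, fun h1 h2 => (enc_sub (enc_neg (enc_rat _ 47 122)) h1)⟩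
noncomputable def kcg_113 : Fn2 := ⟨_, _, fun h1 h2 => (enc_add h1 (enc_rat _ 3 10))⟩
noncomputable def kcg_116 : Fn2 := ⟨_, _, fun h1 h2 => (enc_add h1 (enc_rat _ 7 20))⟩
noncomputable def kcg_117 : Fn2 := ⟨_, _, fun h1 h2 => (enc_scaleT 797542853 268750000 h1)⟩
noncomputable def kcg_121 : Fn2 := ⟨_, _, fun h1 h2 => (enc_scaleT 73799203 43000000 h1)⟩
noncomputable def kcg_130 : Fn2 := ⟨_, _, fun h1 h2 => (enc_subr 19 250 (enc_scaleT 7373 50 (kcg_3.enc h1 h2)))⟩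
noncomputable def kcg_131 : Fn2 := ⟨_, _, fun h1 h2 => (enc_sub (enc_neg (enc_rat _ 7 20)) h1)⟩
noncomputable def kcg_136 : Fn2 := ⟨_, _, fun h1 h2 => (enc_scaleT 594801 200000 h1)⟩
noncomputable def kcg_140 : Fn2 := ⟨_, _, fun h1 h2 => (enc_scaleT 216917 20000 h1)⟩
noncomputable def kcg_151 : Fn2 := ⟨_, _, fun h1 h2 => (enc_subr 149 2000 (enc_scaleT 29459 200 (kcg_3.enc h1 h2)))⟩
noncomputable def kcg_152 : Fn2 := ⟨_, _, fun h1 h2 => (enc_sub (enc_neg (enc_rat _ 3 10)) h1)⟩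
noncomputable def kcg_160 : Fn2 := ⟨_, _, fun h1 h2 => (enc_add h1 (enc_rat _ 1 5))⟩
noncomputable def kcg_161 : Fn2 := ⟨_, _, fun h1 h2 => (enc_scaleT 74887 25000 h1)⟩
noncomputable def kcg_165 : Fn2 := ⟨_, _, fun h1 h2 => (enc_scaleT 90943 5000 h1)⟩
noncomputable def kcg_178 : Fn2 := ⟨_, _, fun h1 h2 => (enc_subr 71 400 (enc_neg (enc_scaleT 11 50 (kcg_3.enc h1 h2))))⟩
noncomputable def kcg_179 : Fn2 := ⟨_, _, fun h1 h2 => (enc_sub (enc_neg (enc_rat _ 1 5)) h1)⟩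
noncomputable def kcg_187 : Fn2 := ⟨_, _, fun h1 h2 => (enc_scaleT 151569 50000 h1)⟩
noncomputable def kcg_191 : Fn2 := ⟨_, _, fun h1 h2 => (enc_scaleT 959 625 h1)⟩
noncomputable def kcg_203 : Fn2 := ⟨_, _, fun h1 h2 => (enc_subr 363 2000 (enc_neg (enc_scaleT 19701 100 (kcg_3.enc h1 h2))))⟩
noncomputable def kcg_204 : Fn2 := ⟨_, _, fun h1 h2 => (enc_sub (enc_neg (enc_rat _ 1 10)) h1)⟩
noncomputable def kcg_209 : Fn2 := ⟨_, _, fun h1 h2 => (enc_scaleT 304953 100000 h1)⟩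
noncomputable def kcg_212 : Fn2 := ⟨_, _, fun h1 h2 => (enc_mul (enc_norm (kcg_3.enc h1 h2)) (enc_scaleT 106177 5000 h1))⟩
noncomputable def kcg_219 : Fn2 := ⟨_, _, fun h1 h2 => (enc_sub (enc_rat _ 47 122) h1)⟩
noncomputable def kcg_220 : Fn2 := ⟨_, _, fun h1 h2 => (enc_sub (enc_rat _ 23 50) h1)⟩
noncomputable def kcg_221 : Fn2 := ⟨_, _, fun h1 h2 => (enc_sub (enc_rat _ 19 40) h1)⟩
noncomputable def kcg_226 : Fn2 := ⟨_, _, fun h1 h2 => (enc_sub (enc_rat _ 1 2) h1)⟩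
noncomputable def kcg_227 : Fn2 := ⟨_, _, fun h1 h2 => (enc_subr 19 40 h1)⟩
noncomputable def kcg_236 : Fn2 := ⟨_, _, fun h1 h2 => (enc_subr 23 50 h1)⟩
noncomputable def kcg_242 : Fn2 := ⟨_, _, fun h1 h2 => (enc_sub (enc_rat _ 263 601) h1)⟩
noncomputable def kcg_247 : Fn2 := ⟨_, _, fun h1 h2 => (enc_subr 263 601 h1)⟩
noncomputable def kcg_258 : Fn2 := ⟨_, _, fun h1 h2 => (enc_subr 47 122 h1)⟩
noncomputable def kcg_265 : Fn2 := ⟨_, _, fun h1 h2 => (enc_sub (enc_rat _ 3 10) h1)⟩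
noncomputable def kcg_266 : Fn2 := ⟨_, _, fun h1 h2 => (enc_sub (enc_rat _ 7 20) h1)⟩
noncomputable def kcg_273 : Fn2 := ⟨_, _, fun h1 h2 => (enc_subr 7 20 h1)⟩
noncomputable def kcg_283 : Fn2 := ⟨_, _, fun h1 h2 => (enc_subr 3 10 h1)⟩
noncomputable def kcg_289 : Fn2 := ⟨_, _, fun h1 h2 => (enc_sub (enc_rat _ 1 5) h1)⟩
noncomputable def kcg_295 : Fn2 := ⟨_, _, fun h1 h2 => (enc_subr 1 5 h1)⟩
noncomputable def kcg_307 : Fn2 := ⟨_, _, fun h1 h2 => (enc_subr 1 10 h1)⟩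
noncomputable def kcg : Fn2 := ⟨_, _, fun h1 h2 => (enc_norm (enc_case h1 (enc_case (kcg_6.enc h1 h2) (enc_case (kcg_9.enc h1 h2) (enc_case (kcg_12.enc h1 h2) (enc_add (enc_add (enc_subr 3734726507 1000000000 (enc_neg (kcg_13.enc h1 h2))) (enc_mul (enc_norm (kcg_3.enc h1 h2)) (enc_norm (enc_subr 4082977 500000 (enc_neg (kcg_18.enc h1 h2)))))) (enc_mA (enc_mul (enc_norm (kcg_31.enc h1 h2)) (enc_norm (enc_mul (enc_norm (kcg_32.enc h1 h2)) (enc_norm (kcg_33.enc h1 h2))))) (kcg_31.enc h1 h2) (kcg_32.enc h1 h2) (kcg_33.enc h1 h2) rfl)) (enc_add (enc_add (enc_subr 350097211 93750000 (enc_neg (kcg_38.enc h1 h2))) (enc_mul (enc_norm (kcg_3.enc h1 h2)) (enc_norm (enc_subr 1220475581 150000000 (enc_neg (kcg_43.enc h1 h2)))))) (enc_mA (enc_mul (enc_norm (kcg_56.enc h1 h2)) (enc_norm (enc_mul (enc_norm (kcg_12.enc h1 h2)) (enc_norm (kcg_57.enc h1 h2))))) (kcg_56.enc h1 h2)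 (kcg_12.enc h1 h2) (kcg_57.enc h1 h2) rfl))) (enc_case (kcg_65.enc h1 h2) (enc_add (enc_add (enc_subr 1431918245889 673000000000 (enc_neg (kcg_66.enc h1 h2))) (enc_mul (enc_norm (kcg_3.enc h1 h2)) (enc_norm (enc_subr 21669837259 8412500000 (enc_neg (kcg_71.enc h1 h2)))))) (enc_mA (enc_mul (enc_norm (kcg_84.enc h1 h2)) (enc_norm (enc_mul (enc_norm (kcg_9.enc h1 h2)) (enc_norm (kcg_85.enc h1 h2))))) (kcg_84.enc h1 h2) (kcg_9.enc h1 h2) (kcg_85.enc h1 h2) rfl)) (enc_add (enc_add (enc_subr 1115505834803 3839000000000 (kcg_90.enc h1 h2)) (enc_mul (enc_norm (kcg_3.enc h1 h2)) (enc_norm (enc_add (kcg_94.enc h1 h2) (enc_rat _ 516258386559 191950000000))))) (enc_mA (enc_mul (enc_norm (kcg_103.enc h1 h2)) (enc_norm (enc_mul (enc_norm (kcg_65.enc h1 h2)) (enc_norm (kcg_104.enc h1 h2))))) (kcg_103.enc h1 h2) (kcg_65.enc h1 h2) (kcg_104.enc h1 h2) rfl)))) (enc_case (kcg_113.enc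 h1 h2) (enc_case (kcg_116.enc h1 h2) (enc_add (enc_add (enc_subr 380093991 21500000000 (kcg_117.enc h1 h2)) (enc_mul (enc_norm (kcg_3.enc h1 h2)) (enc_norm (enc_add (kcg_121.enc h1 h2) (enc_rat _ 588982771 860000000))))) (enc_mA (enc_mul (enc_norm (kcg_130.enc h1 h2)) (enc_norm (enc_mul (enc_norm (kcg_6.enc h1 h2)) (enc_norm (kcg_131.enc h1 h2))))) (kcg_130.enc h1 h2) (kcg_6.enc h1 h2) (kcg_131.enc h1 h2) rfl)) (enc_add (enc_add (enc_subr 247 16000 (kcg_136.enc h1 h2)) (enc_mul (enc_norm (kcg_3.enc h1 h2)) (enc_norm (enc_subr 5939 1600 (enc_neg (kcg_140.enc h1 h2)))))) (enc_mA (enc_mul (enc_norm (kcg_151.enc h1 h2)) (enc_norm (enc_mul (enc_norm (kcg_116.enc h1 h2)) (enc_norm (kcg_152.enc h1 h2))))) (kcg_151.enc h1 h2) (kcg_116.enc h1 h2) (kcg_152.enc h1 h2) rfl))) (enc_case (kcg_160.enc h1 h2) (enc_add (enc_add (enc_subr 1799 200000 (kcg_161.enc h1 h2)) (enc_mul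 (enc_norm (kcg_3.enc h1 h2)) (enc_norm (enc_subr 59147 10000 (enc_neg (kcg_165.enc h1 h2)))))) (enc_mA (enc_mul (enc_norm (kcg_178.enc h1 h2)) (enc_norm (enc_mul (enc_norm (kcg_113.enc h1 h2)) (enc_norm (kcg_179.enc h1 h2))))) (kcg_178.enc h1 h2) (kcg_113.enc h1 h2) (kcg_179.enc h1 h2) rfl)) (enc_case (enc_add h1 (enc_rat _ 1 10)) (enc_add (enc_add (enc_subr 363 200000 (kcg_187.enc h1 h2)) (enc_mul (enc_norm (kcg_3.enc h1 h2)) (enc_norm (enc_subr 19701 10000 (kcg_191.enc h1 h2))))) (enc_mA (enc_mul (enc_norm (kcg_203.enc h1 h2)) (enc_norm (enc_mul (enc_norm (kcg_160.enc h1 h2)) (enc_norm (kcg_204.enc h1 h2))))) (kcg_203.enc h1 h2) (kcg_160.enc h1 h2) (kcg_204.enc h1 h2) rfl)) (enc_add (kcg_209.enc h1 h2) (kcg_212.enc h1 h2)))))) (enc_neg (enc_case (kcg_219.enc h1 h2) (enc_case (kcg_220.enc h1 h2) (enc_case (kcg_221.enc h1 h2) (enc_add (enc_add (enc_subr 3734726507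 1000000000 (kcg_13.enc h1 h2)) (enc_mul (enc_norm (kcg_3.enc h1 h2)) (enc_norm (enc_subr 4082977 500000 (kcg_18.enc h1 h2))))) (enc_mA (enc_mul (enc_norm (kcg_31.enc h1 h2)) (enc_norm (enc_mul (enc_norm (kcg_226.enc h1 h2)) (enc_norm (kcg_227.enc h1 h2))))) (kcg_31.enc h1 h2) (kcg_226.enc h1 h2) (kcg_227.enc h1 h2) rfl)) (enc_add (enc_add (enc_subr 350097211 93750000 (kcg_38.enc h1 h2)) (enc_mul (enc_norm (kcg_3.enc h1 h2)) (enc_norm (enc_subr 1220475581 150000000 (kcg_43.enc h1 h2))))) (enc_mA (enc_mul (enc_norm (kcg_56.enc h1 h2)) (enc_norm (enc_mul (enc_norm (kcg_221.enc h1 h2)) (enc_norm (kcg_236.enc h1 h2))))) (kcg_56.enc h1 h2) (kcg_221.enc h1 h2) (kcg_236.enc h1 h2) rfl))) (enc_case (kcg_242.enc h1 h2) (enc_add (enc_add (enc_subr 1431918245889 673000000000 (kcg_66.enc h1 h2)) (enc_mul (enc_norm (kcg_3.enc h1 h2)) (enc_norm (enc_subr 21669837259 8412500000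 (kcg_71.enc h1 h2))))) (enc_mA (enc_mul (enc_norm (kcg_84.enc h1 h2)) (enc_norm (enc_mul (enc_norm (kcg_220.enc h1 h2)) (enc_norm (kcg_247.enc h1 h2))))) (kcg_84.enc h1 h2) (kcg_220.enc h1 h2) (kcg_247.enc h1 h2) rfl)) (enc_add (enc_add (enc_subr 1115505834803 3839000000000 (enc_neg (kcg_90.enc h1 h2))) (enc_mul (enc_norm (kcg_3.enc h1 h2)) (enc_norm (enc_sub (enc_rat _ 516258386559 191950000000) (kcg_94.enc h1 h2))))) (enc_mA (enc_mul (enc_norm (kcg_103.enc h1 h2)) (enc_norm (enc_mul (enc_norm (kcg_242.enc h1 h2)) (enc_norm (kcg_258.enc h1 h2))))) (kcg_103.enc h1 h2) (kcg_242.enc h1 h2) (kcg_258.enc h1 h2) rfl)))) (enc_case (kcg_265.enc h1 h2) (enc_case (kcg_266.enc h1 h2) (enc_add (enc_add (enc_subr 380093991 21500000000 (enc_neg (kcg_117.enc h1 h2))) (enc_mul (enc_norm (kcg_3.enc h1 h2)) (enc_norm (enc_sub (enc_rat _ 588982771 860000000) (kcg_121.enc h1 h2)))))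 (enc_mA (enc_mul (enc_norm (kcg_130.enc h1 h2)) (enc_norm (enc_mul (enc_norm (kcg_219.enc h1 h2)) (enc_norm (kcg_273.enc h1 h2))))) (kcg_130.enc h1 h2) (kcg_219.enc h1 h2) (kcg_273.enc h1 h2) rfl)) (enc_add (enc_add (enc_subr 247 16000 (enc_neg (kcg_136.enc h1 h2))) (enc_mul (enc_norm (kcg_3.enc h1 h2)) (enc_norm (enc_subr 5939 1600 (kcg_140.enc h1 h2))))) (enc_mA (enc_mul (enc_norm (kcg_151.enc h1 h2)) (enc_norm (enc_mul (enc_norm (kcg_266.enc h1 h2)) (enc_norm (kcg_283.enc h1 h2))))) (kcg_151.enc h1 h2) (kcg_266.enc h1 h2) (kcg_283.enc h1 h2) rfl))) (enc_case (kcg_289.enc h1 h2) (enc_add (enc_add (enc_subr 1799 200000 (enc_neg (kcg_161.enc h1 h2))) (enc_mul (enc_norm (kcg_3.enc h1 h2)) (enc_norm (enc_subr 59147 10000 (kcg_165.enc h1 h2))))) (enc_mA (enc_mul (enc_norm (kcg_178.enc h1 h2)) (enc_norm (enc_mul (enc_norm (kcg_265.enc h1 h2)) (enc_norm (kcg_295.enc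 h1 h2))))) (kcg_178.enc h1 h2) (kcg_265.enc h1 h2) (kcg_295.enc h1 h2) rfl)) (enc_case (enc_sub (enc_rat _ 1 10) h1) (enc_add (enc_add (enc_subr 363 200000 (enc_neg (kcg_187.enc h1 h2))) (enc_mul (enc_norm (kcg_3.enc h1 h2)) (enc_norm (enc_subr 19701 10000 (enc_neg (kcg_191.enc h1 h2)))))) (enc_mA (enc_mul (enc_norm (kcg_203.enc h1 h2)) (enc_norm (enc_mul (enc_norm (kcg_289.enc h1 h2)) (enc_norm (kcg_307.enc h1 h2))))) (kcg_203.enc h1 h2) (kcg_289.enc h1 h2) (kcg_307.enc h1 h2) rfl)) (enc_sub (enc_neg (kcg_209.enc h1 h2)) (kcg_212.enc h1 h2)))))))))⟩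
noncomputable def kf0q0_9 : Fn2 := ⟨_, _, fun h1 h2 => (enc_scaleT 3 2 h1)⟩
noncomputable def kf0q0_12 : Fn2 := ⟨_, _, fun h1 h2 => (enc_add (enc_pnc _ 1) (c1g.enc h1))⟩
noncomputable def kf0q0 : Fn2 := ⟨_, _, fun h1 h2 => (enc_norm (enc_add (enc_mul (enc_norm (enc_mul (enc_norm (enc_sub (c1g.enc h1) (kf0q0_9.enc h1 h2))) (enc_norm (kf0q0_12.enc h1 h2)))) (enc_inv (enc_sub (kf0q0_12.enc h1 h2) (kf0q0_9.enc h1 h2)))) (enc_mul h1 (kcg.enc (enc_norm (enc_sub (enc_scaleT 3 4 h1) (enc_half (c1g.enc h1)))) h2))))⟩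
noncomputable def txg_4 : Fn3 := ⟨_, _, fun h1 h2 h3 => (enc_subr 487 520 h3)⟩
noncomputable def txg_6 : Fn3 := ⟨_, _, fun h1 h2 h3 => (enc_add h1 (enc_half h2))⟩
noncomputable def txg_26 : Fn3 := ⟨_, _, fun h1 h2 h3 => (enc_add h1 (enc_rat _ 1 10))⟩
noncomputable def txg_29 : Fn3 := ⟨_, _, fun h1 h2 h3 => (enc_add h1 (enc_rat _ 11 25))⟩
noncomputable def txg_32 : Fn3 := ⟨_, _, fun h1 h2 h3 => (enc_add h1 (enc_rat _ 12 25))⟩
noncomputable def txg_47 : Fn3 := ⟨_, _, fun h1 h2 h3 => (enc_subr 3509 2000 (enc_scaleT 1173 50 (txg_4.enc h1 h2 h3)))⟩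
noncomputable def txg_50 : Fn3 := ⟨_, _, fun h1 h2 h3 => (enc_add h1 (enc_rat _ 1 2))⟩
noncomputable def txg_51 : Fn3 := ⟨_, _, fun h1 h2 h3 => (enc_sub (enc_neg (enc_rat _ 12 25)) h1)⟩
noncomputable def txg_58 : Fn3 := ⟨_, _, fun h1 h2 h3 => (enc_add h1 (enc_rat _ 23 50))⟩
noncomputable def txg_73 : Fn3 := ⟨_, _, fun h1 h2 h3 => (enc_subr 143 100 (enc_scaleT 579 100 (txg_4.enc h1 h2 h3)))⟩
noncomputable def txg_74 : Fn3 := ⟨_, _, fun h1 h2 h3 => (enc_sub (enc_neg (enc_rat _ 23 50)) h1)⟩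
noncomputable def txg_94 : Fn3 := ⟨_, _, fun h1 h2 h3 => (enc_sub (enc_rat _ 6143 2000) (enc_scaleT 27 200 (txg_4.enc h1 h2 h3)))⟩
noncomputable def txg_95 : Fn3 := ⟨_, _, fun h1 h2 h3 => (enc_sub (enc_neg (enc_rat _ 11 25)) h1)⟩
noncomputable def txg_104 : Fn3 := ⟨_, _, fun h1 h2 h3 => (enc_add h1 (enc_rat _ 3 10))⟩
noncomputable def txg_107 : Fn3 := ⟨_, _, fun h1 h2 h3 => (enc_add h1 (enc_rat _ 2 5))⟩
noncomputable def txg_123 : Fn3 := ⟨_, _, fun h1 h2 h3 => (enc_sub (enc_rat _ 151 2000) (enc_scaleT 93 50 (txg_4.enc h1 h2 h3)))⟩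
noncomputable def txg_124 : Fn3 := ⟨_, _, fun h1 h2 h3 => (enc_sub (enc_neg (enc_rat _ 2 5)) h1)⟩
noncomputable def txg_143 : Fn3 := ⟨_, _, fun h1 h2 h3 => (enc_subr 1207 1000 (enc_neg (enc_scaleT 6771 200 (txg_4.enc h1 h2 h3))))⟩
noncomputable def txg_144 : Fn3 := ⟨_, _, fun h1 h2 h3 => (enc_sub (enc_neg (enc_rat _ 3 10)) h1)⟩
noncomputable def txg_152 : Fn3 := ⟨_, _, fun h1 h2 h3 => (enc_add h1 (enc_rat _ 1 5))⟩
noncomputable def txg_167 : Fn3 := ⟨_, _, fun h1 h2 h3 => (enc_subr 1143 1000 (enc_neg (enc_scaleT 161 100 (txg_4.enc h1 h2 h3))))⟩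
noncomputable def txg_168 : Fn3 := ⟨_, _, fun h1 h2 h3 => (enc_sub (enc_neg (enc_rat _ 1 5)) h1)⟩
noncomputable def txg_184 : Fn3 := ⟨_, _, fun h1 h2 h3 => (enc_add (enc_scaleT 2059 200 (txg_4.enc h1 h2 h3)) (enc_rat _ 67 50))⟩
noncomputable def txg_185 : Fn3 := ⟨_, _, fun h1 h2 h3 => (enc_sub (enc_neg (enc_rat _ 1 10)) h1)⟩
noncomputable def txg_193 : Fn3 := ⟨_, _, fun h1 h2 h3 => (enc_subr 1 5 h1)⟩
noncomputable def txg_194 : Fn3 := ⟨_, _, fun h1 h2 h3 => (enc_subr 1 10 h1)⟩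
noncomputable def txg_206 : Fn3 := ⟨_, _, fun h1 h2 h3 => (enc_add (enc_scaleT 2061 200 (txg_4.enc h1 h2 h3)) (enc_rat _ 2679 2000))⟩
noncomputable def txg_207 : Fn3 := ⟨_, _, fun h1 h2 h3 => (enc_sub (enc_rat _ 1 10) h1)⟩
noncomputable def txg_213 : Fn3 := ⟨_, _, fun h1 h2 h3 => (enc_subr 3 20 h1)⟩
noncomputable def txg_227 : Fn3 := ⟨_, _, fun h1 h2 h3 => (enc_add (enc_scaleT 1049 100 (txg_4.enc h1 h2 h3)) (enc_rat _ 2303 2000))⟩
noncomputable def txg_228 : Fn3 := ⟨_, _, fun h1 h2 h3 => (enc_sub (enc_rat _ 3 20) h1)⟩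
noncomputable def txg_246 : Fn3 := ⟨_, _, fun h1 h2 h3 => (enc_add (enc_scaleT 92 25 (txg_4.enc h1 h2 h3)) (enc_rat _ 1109 1000))⟩
noncomputable def txg_247 : Fn3 := ⟨_, _, fun h1 h2 h3 => (enc_sub (enc_rat _ 1 5) h1)⟩
noncomputable def txg_254 : Fn3 := ⟨_, _, fun h1 h2 h3 => (enc_subr 3 10 h1)⟩
noncomputable def txg_256 : Fn3 := ⟨_, _, fun h1 h2 h3 => (enc_subr 1 4 h1)⟩
noncomputable def txg_270 : Fn3 := ⟨_, _, fun h1 h2 h3 => (enc_add (enc_scaleT 363 100 (txg_4.enc h1 h2 h3)) (enc_rat _ 241 1000))⟩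
noncomputable def txg_271 : Fn3 := ⟨_, _, fun h1 h2 h3 => (enc_sub (enc_rat _ 1 4) h1)⟩
noncomputable def txg_289 : Fn3 := ⟨_, _, fun h1 h2 h3 => (enc_add (enc_scaleT 133 25 (txg_4.enc h1 h2 h3)) (enc_rat _ 129 250))⟩
noncomputable def txg_290 : Fn3 := ⟨_, _, fun h1 h2 h3 => (enc_sub (enc_rat _ 3 10) h1)⟩
noncomputable def txg_297 : Fn3 := ⟨_, _, fun h1 h2 h3 => (enc_subr 7 20 h1)⟩
noncomputable def txg_313 : Fn3 := ⟨_, _, fun h1 h2 h3 => (enc_sub (enc_rat _ 1037 1000) (enc_scaleT 7713 200 (txg_4.enc h1 h2 h3)))⟩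
noncomputable def txg_314 : Fn3 := ⟨_, _, fun h1 h2 h3 => (enc_sub (enc_rat _ 7 20) h1)⟩
noncomputable def txg_333 : Fn3 := ⟨_, _, fun h1 h2 h3 => (enc_sq (enc_norm (txg_4.enc h1 h2 h3)))⟩
noncomputable def txg_342 : Fn3 := ⟨_, _, fun h1 h2 h3 => (enc_add (enc_mul (enc_norm (enc_add (enc_scaleT 5 2 (txg_4.enc h1 h2 h3)) (enc_rat _ 10809 1000))) (enc_norm (txg_4.enc h1 h2 h3))) (enc_rat _ 12767 10000))⟩
noncomputable def txg_343 : Fn3 := ⟨_, _, fun h1 h2 h3 => (enc_sub (enc_rat _ 47 122) h1)⟩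
noncomputable def txg_353 : Fn3 := ⟨_, _, fun h1 h2 h3 => (enc_subr 263 601 h1)⟩
noncomputable def txg_354 : Fn3 := ⟨_, _, fun h1 h2 h3 => (enc_subr 23 50 h1)⟩
noncomputable def txg_356 : Fn3 := ⟨_, _, fun h1 h2 h3 => (enc_subr 9 20 h1)⟩
noncomputable def txg_381 : Fn3 := ⟨_, _, fun h1 h2 h3 => (enc_add (enc_mul (enc_norm (enc_sub (enc_rat _ 1289 250) (enc_scaleT 16867 100 (txg_4.enc h1 h2 h3)))) (enc_norm (txg_4.enc h1 h2 h3))) (enc_rat _ 11203 5000))⟩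
noncomputable def txg_382 : Fn3 := ⟨_, _, fun h1 h2 h3 => (enc_sub (enc_rat _ 9 20) h1)⟩
noncomputable def txg_402 : Fn3 := ⟨_, _, fun h1 h2 h3 => (enc_sub (enc_rat _ 3297 2000) (enc_scaleT 1649 100 (txg_4.enc h1 h2 h3)))⟩
noncomputable def txg_403 : Fn3 := ⟨_, _, fun h1 h2 h3 => (enc_sub (enc_rat _ 23 50) h1)⟩
noncomputable def txg_410 : Fn3 := ⟨_, _, fun h1 h2 h3 => (enc_subr 47 100 h1)⟩
noncomputable def txg_425 : Fn3 := ⟨_, _, fun h1 h2 h3 => (enc_subr 83 250 (enc_scaleT 3677 200 (txg_4.enc h1 h2 h3)))⟩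
noncomputable def txg_426 : Fn3 := ⟨_, _, fun h1 h2 h3 => (enc_sub (enc_rat _ 47 100) h1)⟩
noncomputable def txg_432 : Fn3 := ⟨_, _, fun h1 h2 h3 => (enc_subr 97 200 h1)⟩
noncomputable def txg_447 : Fn3 := ⟨_, _, fun h1 h2 h3 => (enc_subr 69 500 (enc_scaleT 337 40 (txg_4.enc h1 h2 h3)))⟩
noncomputable def txg_448 : Fn3 := ⟨_, _, fun h1 h2 h3 => (enc_sub (enc_rat _ 97 200) h1)⟩
noncomputable def txg_467 : Fn3 := ⟨_, _, fun h1 h2 h3 => (enc_subr 529 2000 (enc_scaleT 249 20 (txg_4.enc h1 h2 h3)))⟩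
noncomputable def txg_468 : Fn3 := ⟨_, _, fun h1 h2 h3 => (enc_sub (enc_rat _ 1 2) h1)⟩
noncomputable def txg : Fn3 := ⟨_, _, fun h1 h2 h3 => (enc_case (enc_subr 47 122 h1) (enc_case (txg_26.enc h1 h2 h3) (enc_case (txg_29.enc h1 h2 h3) (enc_case (txg_32.enc h1 h2 h3) (enc_add (enc_add (enc_add (enc_scaleT 12013 50000 h1) (enc_rat _ 12013 100000)) (enc_mul (enc_norm (txg_4.enc h1 h2 h3)) (enc_norm (enc_subr 18217 20000 (enc_neg (enc_scaleT 18217 10000 h1)))))) (enc_mA (enc_mul (enc_norm (txg_47.enc h1 h2 h3)) (enc_norm (enc_mul (enc_norm (txg_50.enc h1 h2 h3)) (enc_norm (txg_51.enc h1 h2 h3))))) (txg_47.enc h1 h2 h3) (txg_50.enc h1 h2 h3) (txg_51.enc h1 h2 h3) rfl)) (enc_case (txg_58.enc h1 h2 h3) (enc_add (enc_add (enc_add (enc_scaleT 6079 20000 h1) (enc_rat _ 376753 2500000)) (enc_mul (enc_norm (txg_4.enc h1 h2 h3)) (enc_norm (enc_subr 23833 20000 (enc_neg (enc_scaleT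 24067 10000 h1)))))) (enc_mA (enc_mul (enc_norm (txg_73.enc h1 h2 h3)) (enc_norm (enc_mul (enc_norm (txg_32.enc h1 h2 h3)) (enc_norm (txg_74.enc h1 h2 h3))))) (txg_73.enc h1 h2 h3) (txg_32.enc h1 h2 h3) (txg_74.enc h1 h2 h3) rfl)) (enc_add (enc_add (enc_add (enc_scaleT 3389 12500 h1) (enc_rat _ 677997 5000000)) (enc_mul (enc_norm (txg_4.enc h1 h2 h3)) (enc_norm (enc_subr 310919 250000 (enc_neg (enc_scaleT 12599 5000 h1)))))) (enc_mA (enc_mul (enc_norm (txg_94.enc h1 h2 h3)) (enc_norm (enc_mul (enc_norm (txg_58.enc h1 h2 h3)) (enc_norm (txg_95.enc h1 h2 h3))))) (txg_94.enc h1 h2 h3) (txg_58.enc h1 h2 h3) (txg_95.enc h1 h2 h3) rfl)))) (enc_case (txg_104.enc h1 h2 h3) (enc_case (txg_107.enc h1 h2 h3) (enc_add (enc_add (enc_add (enc_scaleT 20667 100000 h1) (enc_rat _ 536207 5000000)) (enc_mul (enc_norm (txg_4.enc h1 h2 h3)) (enc_norm (enc_subr 151219 125000 (enc_neg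 (enc_scaleT 24427 10000 h1)))))) (enc_mA (enc_mul (enc_norm (txg_123.enc h1 h2 h3)) (enc_norm (enc_mul (enc_norm (txg_29.enc h1 h2 h3)) (enc_norm (txg_124.enc h1 h2 h3))))) (txg_123.enc h1 h2 h3) (txg_29.enc h1 h2 h3) (txg_124.enc h1 h2 h3) rfl)) (enc_add (enc_add (enc_add (enc_scaleT 6487 20000 h1) (enc_rat _ 771567 5000000)) (enc_mul (enc_norm (txg_4.enc h1 h2 h3)) (enc_norm (enc_add (enc_scaleT 2543 2500 h1) (enc_rat _ 2722 15625))))) (enc_mA (enc_mul (enc_norm (txg_143.enc h1 h2 h3)) (enc_norm (enc_mul (enc_norm (txg_107.enc h1 h2 h3)) (enc_norm (txg_144.enc h1 h2 h3))))) (txg_143.enc h1 h2 h3) (txg_107.enc h1 h2 h3) (txg_144.enc h1 h2 h3) rfl))) (enc_case (txg_152.enc h1 h2 h3) (enc_add (enc_add (enc_add (enc_scaleT 11187 20000 h1) (enc_rat _ 1124067 5000000)) (enc_mul (enc_norm (txg_4.enc h1 h2 h3)) (enc_norm (enc_add (enc_scaleT 45637 10000 h1) (enc_rat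 _ 619079 500000))))) (enc_mA (enc_mul (enc_norm (txg_167.enc h1 h2 h3)) (enc_norm (enc_mul (enc_norm (txg_104.enc h1 h2 h3)) (enc_norm (txg_168.enc h1 h2 h3))))) (txg_167.enc h1 h2 h3) (txg_104.enc h1 h2 h3) (txg_168.enc h1 h2 h3) rfl)) (enc_add (enc_add (enc_add (enc_scaleT 10793 20000 h1) (enc_rat _ 1104367 5000000)) (enc_mul (enc_norm (txg_4.enc h1 h2 h3)) (enc_norm (enc_add (enc_scaleT 4619 1250 h1) (enc_rat _ 532229 500000))))) (enc_mA (enc_mul (enc_norm (txg_184.enc h1 h2 h3)) (enc_norm (enc_mul (enc_norm (txg_152.enc h1 h2 h3)) (enc_norm (txg_185.enc h1 h2 h3))))) (txg_184.enc h1 h2 h3) (txg_152.enc h1 h2 h3) (txg_185.enc h1 h2 h3) rfl))))) (enc_case (txg_193.enc h1 h2 h3) (enc_case (txg_194.enc h1 h2 h3) (enc_add (enc_add (enc_add (enc_scaleT 551 4000 h1) (enc_rat _ 903417 5000000)) (enc_mul (enc_norm (txg_4.enc h1 h2 h3)) (enc_norm (enc_add (enc_scaleT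 6047 10000 h1) (enc_rat _ 47213 62500))))) (enc_mA (enc_mul (enc_norm (txg_206.enc h1 h2 h3)) (enc_norm (enc_mul (enc_norm (txg_26.enc h1 h2 h3)) (enc_norm (txg_207.enc h1 h2 h3))))) (txg_206.enc h1 h2 h3) (txg_26.enc h1 h2 h3) (txg_207.enc h1 h2 h3) rfl)) (enc_case (txg_213.enc h1 h2 h3) (enc_add (enc_add (enc_sub (enc_rat _ 2132309 10000000) (enc_scaleT 7509 40000 h1)) (enc_mul (enc_norm (txg_4.enc h1 h2 h3)) (enc_norm (enc_sub (enc_rat _ 506979 500000) (enc_scaleT 1238 625 h1))))) (enc_mA (enc_mul (enc_norm (txg_227.enc h1 h2 h3)) (enc_norm (enc_mul (enc_norm (txg_194.enc h1 h2 h3)) (enc_norm (txg_228.enc h1 h2 h3))))) (txg_227.enc h1 h2 h3) (txg_194.enc h1 h2 h3) (txg_228.enc h1 h2 h3) rfl)) (enc_add (enc_add (enc_sub (enc_rat _ 4603693 20000000) (enc_scaleT 1203 4000 h1)) (enc_mul (enc_norm (txg_4.enc h1 h2 h3)) (enc_norm (enc_sub (enc_rat _ 1120233 1000000)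 (enc_scaleT 26893 10000 h1))))) (enc_mA (enc_mul (enc_norm (txg_246.enc h1 h2 h3)) (enc_norm (enc_mul (enc_norm (txg_213.enc h1 h2 h3)) (enc_norm (txg_247.enc h1 h2 h3))))) (txg_246.enc h1 h2 h3) (txg_213.enc h1 h2 h3) (txg_247.enc h1 h2 h3) rfl)))) (enc_case (txg_254.enc h1 h2 h3) (enc_case (txg_256.enc h1 h2 h3) (enc_add (enc_add (enc_sub (enc_rat _ 4873693 20000000) (enc_scaleT 1473 4000 h1)) (enc_mul (enc_norm (txg_4.enc h1 h2 h3)) (enc_norm (enc_sub (enc_rat _ 1193333 1000000) (enc_scaleT 7637 2500 h1))))) (enc_mA (enc_mul (enc_norm (txg_270.enc h1 h2 h3)) (enc_norm (enc_mul (enc_norm (txg_193.enc h1 h2 h3)) (enc_norm (txg_271.enc h1 h2 h3))))) (txg_270.enc h1 h2 h3) (txg_193.enc h1 h2 h3) (txg_271.enc h1 h2 h3) rfl)) (enc_add (enc_add (enc_sub (enc_rat _ 5062943 20000000) (enc_scaleT 4061 10000 h1)) (enc_mul (enc_norm (txg_4.enc h1 h2 h3)) (enc_norm (enc_sub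 (enc_rat _ 163151 125000) (enc_scaleT 35023 10000 h1))))) (enc_mA (enc_mul (enc_norm (txg_289.enc h1 h2 h3)) (enc_norm (enc_mul (enc_norm (txg_256.enc h1 h2 h3)) (enc_norm (txg_290.enc h1 h2 h3))))) (txg_289.enc h1 h2 h3) (txg_256.enc h1 h2 h3) (txg_290.enc h1 h2 h3) rfl))) (enc_case (txg_297.enc h1 h2 h3) (enc_add (enc_add (enc_sub (enc_rat _ 5528843 20000000) (enc_scaleT 387 800 h1)) (enc_mul (enc_norm (txg_4.enc h1 h2 h3)) (enc_norm (enc_sub (enc_rat _ 806533 1000000) (enc_scaleT 36801 20000 h1))))) (enc_mA (enc_mul (enc_norm (txg_313.enc h1 h2 h3)) (enc_norm (enc_mul (enc_norm (txg_254.enc h1 h2 h3)) (enc_norm (txg_314.enc h1 h2 h3))))) (txg_313.enc h1 h2 h3) (txg_254.enc h1 h2 h3) (txg_314.enc h1 h2 h3) rfl)) (enc_add (enc_add (enc_add (enc_sub (enc_rat _ 26455588601397 85247500000000) (enc_scaleT 1237360983073 2131187500000 h1)) (enc_mul (enc_norm (txg_4.enc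 h1 h2 h3)) (enc_norm (enc_sub (enc_rat _ 4517905174279 17049500000000) (enc_scaleT 249585308147 852475000000 h1))))) (enc_mul (txg_333.enc h1 h2 h3) (enc_norm (enc_sub (enc_rat _ 3315389 107500000) (enc_scaleT 473627 5375000 h1))))) (enc_mA (enc_mul (enc_norm (txg_342.enc h1 h2 h3)) (enc_norm (enc_mul (enc_norm (txg_297.enc h1 h2 h3)) (enc_norm (txg_343.enc h1 h2 h3))))) (txg_342.enc h1 h2 h3) (txg_297.enc h1 h2 h3) (txg_343.enc h1 h2 h3) rfl)))))) (enc_case (txg_353.enc h1 h2 h3) (enc_sub (enc_mul (enc_norm (enc_sub (enc_pnc _ 1) h2)) (enc_norm (enc_subn 1 (enc_nat 2 h2)))) (enc_mul (enc_norm (enc_nat 2 (enc_sub (enc_scaleT 4 3 (txg_6.enc h1 h2 h3)) h3))) (enc_norm (enc_mul (enc_norm (enc_subn 1 (enc_add (enc_scaleT 2 3 (txg_6.enc h1 h2 h3)) h2))) (kcg.enc h1 h3))))) (enc_case (txg_354.enc h1 h2 h3) (enc_case (txg_356.enc h1 h2 h3) (enc_add (enc_add (enc_add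 (enc_sub (enc_rat _ 9061694300244487 23282740000000000) (enc_scaleT 900378192202543 1164137000000000 h1)) (enc_mul (enc_norm (txg_4.enc h1 h2 h3)) (enc_norm (enc_sub (enc_rat _ 103648764989333 145517125000000) (enc_scaleT 20447086992999 14551712500000 h1))))) (enc_mul (txg_333.enc h1 h2 h3) (enc_norm (enc_sub (enc_rat _ 1752418737 1862500000) (enc_scaleT 194713193 93125000 h1))))) (enc_mA (enc_mul (enc_norm (txg_381.enc h1 h2 h3)) (enc_norm (enc_mul (enc_norm (txg_353.enc h1 h2 h3)) (enc_norm (txg_382.enc h1 h2 h3))))) (txg_381.enc h1 h2 h3) (txg_353.enc h1 h2 h3) (txg_382.enc h1 h2 h3) rfl)) (enc_add (enc_add (enc_sub (enc_rat _ 20455967 50000000) (enc_scaleT 81769 100000 h1)) (enc_mul (enc_norm (txg_4.enc h1 h2 h3)) (enc_norm (enc_sub (enc_rat _ 3334183 5000000) (enc_scaleT 26083 20000 h1))))) (enc_mA (enc_mul (enc_norm (txg_402.enc h1 h2 h3)) (enc_norm (enc_mul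 (enc_norm (txg_356.enc h1 h2 h3)) (enc_norm (txg_403.enc h1 h2 h3))))) (txg_402.enc h1 h2 h3) (txg_356.enc h1 h2 h3) (txg_403.enc h1 h2 h3) rfl))) (enc_case (txg_410.enc h1 h2 h3) (enc_add (enc_add (enc_sub (enc_rat _ 10379381 25000000) (enc_scaleT 166171 200000 h1)) (enc_mul (enc_norm (txg_4.enc h1 h2 h3)) (enc_norm (enc_sub (enc_rat _ 422221 625000) (enc_scaleT 13231 10000 h1))))) (enc_mA (enc_mul (enc_norm (txg_425.enc h1 h2 h3)) (enc_norm (enc_mul (enc_norm (txg_354.enc h1 h2 h3)) (enc_norm (txg_426.enc h1 h2 h3))))) (txg_425.enc h1 h2 h3) (txg_354.enc h1 h2 h3) (txg_426.enc h1 h2 h3) rfl)) (enc_case (txg_432.enc h1 h2 h3) (enc_add (enc_add (enc_sub (enc_rat _ 123792629 300000000) (enc_scaleT 619099 750000 h1)) (enc_mul (enc_norm (txg_4.enc h1 h2 h3)) (enc_norm (enc_sub (enc_rat _ 821357 1000000) (enc_scaleT 40833 25000 h1))))) (enc_mA (enc_mul (enc_norm (txg_447.enc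 h1 h2 h3)) (enc_norm (enc_mul (enc_norm (txg_410.enc h1 h2 h3)) (enc_norm (txg_448.enc h1 h2 h3))))) (txg_447.enc h1 h2 h3) (txg_410.enc h1 h2 h3) (txg_448.enc h1 h2 h3) rfl)) (enc_add (enc_add (enc_sub (enc_rat _ 1229141 3000000) (enc_scaleT 1229141 1500000 h1)) (enc_mul (enc_norm (txg_4.enc h1 h2 h3)) (enc_norm (enc_sub (enc_rat _ 9124 9375) (enc_scaleT 18248 9375 h1))))) (enc_mA (enc_mul (enc_norm (txg_467.enc h1 h2 h3)) (enc_norm (enc_mul (enc_norm (txg_432.enc h1 h2 h3)) (enc_norm (txg_468.enc h1 h2 h3))))) (txg_467.enc h1 h2 h3) (txg_432.enc h1 h2 h3) (txg_468.enc h1 h2 h3) rfl)))))))⟩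
noncomputable def l0q0 : Fn2 := ⟨_, _, fun h1 h2 => (enc_norm (txg.enc (enc_norm (enc_sub (enc_scaleT 3 4 h1) (enc_half (c1g.enc h1)))) (c1g.enc h1) h2))⟩
noncomputable def kc0q0_3 : Fn2 := ⟨_, _, fun h1 h2 => (enc_subr 487 520 h2)⟩
noncomputable def kc0q0_8 : Fn2 := ⟨_, _, fun h1 h2 => (enc_sub (enc_scaleT 3 4 h1) (enc_half (c1g.enc h1)))⟩
noncomputable def kc0q0 : Fn2 := ⟨_, _, fun h1 h2 => (enc_norm (enc_case (enc_add (kc0q0_8.enc h1 h2) (enc_rat _ 167 1000)) (enc_case (enc_add (kc0q0_8.enc h1 h2) (enc_rat _ 333 1000)) (enc_add (enc_subr 16679 3340 (enc_neg (enc_scaleT 16679 1670 (kc0q0_8.enc h1 h2)))) (enc_mul (enc_norm (kc0q0_3.enc h1 h2)) (enc_norm (enc_add (enc_scaleT 3830 167 (kc0q0_8.enc h1 h2)) (enc_rat _ 1915 167))))) (enc_add (enc_subr 957527 1660000 (enc_scaleT 5439 1660 (kc0q0_8.enc h1 h2))) (enc_mul (enc_norm (kc0q0_3.enc h1 h2)) (enc_norm (enc_sub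 (enc_rat _ 173701 83000) (enc_scaleT 433 83 (kc0q0_8.enc h1 h2))))))) (enc_case (kc0q0_8.enc h1 h2) (enc_add (enc_subr 721 1250 (enc_scaleT 2736 835 (kc0q0_8.enc h1 h2))) (enc_mul (enc_norm (kc0q0_3.enc h1 h2)) (enc_norm (enc_sub (enc_rat _ 261 125) (enc_scaleT 876 167 (kc0q0_8.enc h1 h2)))))) (enc_case (enc_subr 167 1000 (kc0q0_8.enc h1 h2)) (enc_add (enc_subr 721 1250 (enc_scaleT 5473 1670 (kc0q0_8.enc h1 h2))) (enc_mul (enc_norm (kc0q0_3.enc h1 h2)) (enc_norm (enc_sub (enc_rat _ 261 125) (enc_scaleT 879 167 (kc0q0_8.enc h1 h2)))))) (enc_add (enc_subr 38392976835119 66565000000000 (enc_scaleT 218139576857 66565000000 (kc0q0_8.enc h1 h2))) (enc_mul (enc_norm (kc0q0_3.enc h1 h2)) (enc_norm (enc_sub (enc_rat _ 17381482882083 8320625000000) (enc_scaleT 43843396749 8320625000 (kc0q0_8.enc h1 h2))))))))))⟩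
noncomputable def kf0q1_10 : Fn2 := ⟨_, _, fun h1 h2 => (enc_scaleT 3 2 h1)⟩
noncomputable def kf0q1 : Fn2 := ⟨_, _, fun h1 h2 => (enc_norm (enc_add (enc_mul (enc_norm (enc_mul (enc_norm (enc_add (enc_pnc _ 1) (enc_nat 2 (c1g.enc h1)))) (enc_norm (enc_sub (kf0q1_10.enc h1 h2) (c1g.enc h1))))) (enc_inv (enc_nat 2 (enc_sub (enc_add (enc_pnc _ 1) (kf0q1_10.enc h1 h2)) (c1g.enc h1))))) (enc_mul (enc_norm (enc_subn 1 h1)) (kcg.enc (enc_norm (enc_sub (enc_scaleT 3 4 h1) (enc_half (c1g.enc h1)))) h2))))⟩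
noncomputable def l0q1 : Fn2 := ⟨_, _, fun h1 h2 => (enc_norm (txg.enc (enc_norm (enc_sub (enc_scaleT 3 4 h1) (enc_half (c1g.enc h1)))) (c1g.enc h1) h2))⟩
noncomputable def gsg : Fn1 := ⟨_, _, fun h1 => (enc_sqrt (enc_sub (enc_pnc _ 1) (enc_scaleT 3 4 (enc_sq h1))))⟩
noncomputable def gug : Fn1 := ⟨_, _, fun h1 => (enc_norm (enc_add (enc_scaleT 3 4 h1) (enc_scaleT 3 2 (enc_sub (enc_pnc _ 1) (gsg.enc h1)))))⟩
noncomputable def kc0q1_3 : Fn2 := ⟨_, _, fun h1 h2 => (enc_subr 487 520 h2)⟩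
noncomputable def kc0q1_9 : Fn2 := ⟨_, _, fun h1 h2 => (enc_sub (enc_scaleT 3 4 h1) (enc_half (c1g.enc h1)))⟩
noncomputable def kc0q1 : Fn2 := ⟨_, _, fun h1 h2 => (enc_norm (enc_case (enc_subr 47 122 (kc0q1_9.enc h1 h2)) (enc_case (enc_add (kc0q1_9.enc h1 h2) (enc_rat _ 167 1000)) (enc_case (enc_add (kc0q1_9.enc h1 h2) (enc_rat _ 333 1000)) (enc_add (enc_subr 16679 3340 (enc_neg (enc_scaleT 16679 1670 (kc0q1_9.enc h1 h2)))) (enc_mul (enc_norm (kc0q1_3.enc h1 h2)) (enc_norm (enc_add (enc_scaleT 3830 167 (kc0q1_9.enc h1 h2)) (enc_rat _ 1915 167))))) (enc_add (enc_subr 957527 1660000 (enc_scaleT 5439 1660 (kc0q1_9.enc h1 h2))) (enc_mul (enc_norm (kc0q1_3.enc h1 h2)) (enc_norm (enc_sub (enc_rat _ 173701 83000) (enc_scaleT 433 83 (kc0q1_9.enc h1 h2))))))) (enc_case (kc0q1_9.enc h1 h2) (enc_add (enc_subr 721 1250 (enc_scaleT 2736 835 (kc0q1_9.enc h1 h2))) (enc_mul (enc_norm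 (kc0q1_3.enc h1 h2)) (enc_norm (enc_sub (enc_rat _ 261 125) (enc_scaleT 876 167 (kc0q1_9.enc h1 h2)))))) (enc_case (enc_subr 167 1000 (kc0q1_9.enc h1 h2)) (enc_add (enc_subr 721 1250 (enc_scaleT 5473 1670 (kc0q1_9.enc h1 h2))) (enc_mul (enc_norm (kc0q1_3.enc h1 h2)) (enc_norm (enc_sub (enc_rat _ 261 125) (enc_scaleT 879 167 (kc0q1_9.enc h1 h2)))))) (enc_add (enc_subr 38392976835119 66565000000000 (enc_scaleT 218139576857 66565000000 (kc0q1_9.enc h1 h2))) (enc_mul (enc_norm (kc0q1_3.enc h1 h2)) (enc_norm (enc_sub (enc_rat _ 17381482882083 8320625000000) (enc_scaleT 43843396749 8320625000 (kc0q1_9.enc h1 h2))))))))) (enc_case (enc_subr 263 601 (kc0q1_9.enc h1 h2)) (enc_sub (enc_add (enc_add (enc_rat _ 3 4) (enc_scaleT 3 2 h1)) (enc_scaleT 3 4 (enc_mul (enc_norm (enc_mul h1 (enc_inv (c1g.enc h1)))) (gug.enc h1)))) (enc_mul (kcg.enc (enc_norm (kc0q1_9.enc h1 h2))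 h2) (enc_norm (enc_add (gug.enc h1) (enc_nat 2 (c1g.enc h1)))))) (enc_add (enc_sub (enc_rat _ 4542780917089 750000000000) (enc_scaleT 4542780917089 375000000000 (kc0q1_9.enc h1 h2))) (enc_mul (enc_norm (kc0q1_3.enc h1 h2)) (enc_norm (enc_subr 1016572183259 150000000000 (enc_scaleT 1016572183259 75000000000 (kc0q1_9.enc h1 h2)))))))))⟩
noncomputable def yag : Fn1 := ⟨_, _, fun h1 => (enc_sqrt (enc_scaleT 4 3 (enc_sub (enc_pnc _ 1) (enc_sq h1))))⟩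
noncomputable def kfc02 : Fn2 := ⟨_, _, fun h1 h2 => (enc_norm (enc_add h1 (enc_mul (enc_norm (enc_subn 1 (yag.enc h1))) (kcg.enc (enc_neg h1) h2))))⟩
noncomputable def lc02_7 : Fn2 := ⟨_, _, fun h1 h2 => (enc_scaleT 3 4 (yag.enc h1))⟩
noncomputable def lc02_8 : Fn2 := ⟨_, _, fun h1 h2 => (enc_half h1)⟩
noncomputable def lc02 : Fn2 := ⟨_, _, fun h1 h2 => (enc_norm (enc_sub (txg.enc (enc_neg h1) (enc_norm (enc_add (lc02_7.enc h1 h2) (lc02_8.enc h1 h2))) h2) (txg.enc h1 (enc_norm (enc_sub (lc02_7.enc h1 h2) (lc02_8.enc h1 h2))) h2)))⟩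
noncomputable def kcc02_4 : Fn2 := ⟨_, _, fun h1 h2 => (enc_subr 487 520 h2)⟩
noncomputable def kcc02_12 : Fn2 := ⟨_, _, fun h1 h2 => (enc_scaleT 4429 1000 h1)⟩
noncomputable def kcc02 : Fn2 := ⟨_, _, fun h1 h2 => (enc_norm (enc_case (enc_subr 1 10 h1) (enc_sub (enc_mul (enc_norm (kcc02_4.enc h1 h2)) (enc_scaleT 1227 25 h1)) (kcc02_12.enc h1 h2)) (enc_case (enc_subr 3 10 h1) (enc_sub (enc_mul (enc_norm (kcc02_4.enc h1 h2)) (enc_norm (enc_subr 1 2000 (enc_scaleT 9817 200 h1)))) (kcc02_12.enc h1 h2)) (enc_add (enc_subr 13287 4000 (enc_scaleT 13287 2000 h1)) (enc_mul (enc_norm (kcc02_4.enc h1 h2)) (enc_norm (enc_sub (enc_rat _ 589 16) (enc_scaleT 589 8 h1))))))))⟩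
noncomputable def swg : Fn1 := ⟨_, _, fun h1 => (enc_sqrt (enc_sub (enc_pnc _ 1) (enc_scaleT 3 4 (enc_sq (enc_norm (enc_subn 1 h1))))))⟩
noncomputable def cv1m : Fn1 := ⟨_, _, fun h1 => (enc_norm (enc_add (enc_scaleT 3 4 (c1g.enc h1)) (enc_scaleT 1 4 (enc_add (swg.enc h1) (enc_rat _ 1 2)))))⟩
noncomputable def bf1q0_3 : Fn2 := ⟨_, _, fun h1 h2 => (enc_subr 487 520 h2)⟩
noncomputable def bf1q0_8 : Fn2 := ⟨_, _, fun h1 h2 => (enc_scaleT 278 125 h1)⟩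
noncomputable def bf1q0_11 : Fn2 := ⟨_, _, fun h1 h2 => (enc_sub (enc_pnc _ 1) (bf1q0_8.enc h1 h2))⟩
noncomputable def bf1q0_12 : Fn2 := ⟨_, _, fun h1 h2 => (enc_scaleT 181 100 h1)⟩
noncomputable def bf1q0 : Fn2 := ⟨_, _, fun h1 h2 => (enc_norm (enc_case (enc_subr 1 25 h1) (enc_case (enc_subr 1 50 h1) (enc_add (bf1q0_11.enc h1 h2) (enc_mul (enc_norm (bf1q0_3.enc h1 h2)) (bf1q0_12.enc h1 h2))) (enc_add (bf1q0_11.enc h1 h2) (enc_mul (enc_norm (bf1q0_3.enc h1 h2)) (enc_norm (enc_add (enc_scaleT 361 200 h1) (enc_rat _ 1 10000)))))) (enc_case (enc_subr 2 25 h1) (enc_add (enc_sub (enc_rat _ 99999 100000) (enc_scaleT 1779 800 h1)) (enc_mul (enc_norm (bf1q0_3.enc h1 h2)) (enc_norm (enc_subr 1 10000 (bf1q0_12.enc h1 h2))))) (enc_case (enc_subr 1 5 h1) (enc_add (enc_sub (enc_rat _ 100001 100000) (bf1q0_8.enc h1 h2)) (enc_mul (enc_norm (bf1q0_3.enc h1 h2)) (enc_norm (enc_add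 (enc_scaleT 217 120 h1) (enc_rat _ 1 30000))))) (enc_add (enc_sub (enc_rat _ 299999 300000) (enc_scaleT 33359 15000 h1)) (enc_mul (enc_norm (bf1q0_3.enc h1 h2)) (enc_norm (enc_subr 1 10000 (enc_scaleT 1809 1000 h1)))))))))⟩
noncomputable def kf1q0 : Fn2 := ⟨_, _, fun h1 h2 => (enc_norm (enc_mul (cv1m.enc h1) (bf1q0.enc h1 h2)))⟩
noncomputable def bx1q0_3 : Fn2 := ⟨_, _, fun h1 h2 => (enc_subr 487 520 h2)⟩
noncomputable def bx1q0 : Fn2 := ⟨_, _, fun h1 h2 => (enc_norm (enc_case (enc_subr 1 25 h1) (enc_case (enc_subr 1 50 h1) (enc_add (enc_scaleT 843 2000 h1) (enc_mul (enc_norm (bx1q0_3.enc h1 h2)) (enc_scaleT 1 40 h1))) (enc_add (enc_subr 1 100000 (enc_scaleT 211 500 h1)) (enc_mul (enc_norm (bx1q0_3.enc h1 h2)) (enc_norm (enc_subr 1 5000 (enc_scaleT 7 200 h1)))))) (enc_case (enc_subr 2 25 h1) (enc_add (enc_add (enc_scaleT 1683 4000 h1) (enc_rat _ 1 25000)) (enc_mul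 (enc_norm (bx1q0_3.enc h1 h2)) (enc_norm (enc_subr 1 500 (enc_scaleT 2 25 h1))))) (enc_case (enc_subr 1 5 h1) (enc_add (enc_add (enc_scaleT 2003 12000 h1) (enc_rat _ 763 37500)) (enc_mul (enc_norm (bx1q0_3.enc h1 h2)) (enc_norm (enc_subr 283 7500 (enc_scaleT 79 150 h1))))) (enc_add (enc_add (enc_scaleT 4919 30000 h1) (enc_rat _ 6281 300000)) (enc_mul (enc_norm (bx1q0_3.enc h1 h2)) (enc_norm (enc_subr 331 7500 (enc_scaleT 419 750 h1)))))))))⟩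
noncomputable def l1q0 : Fn2 := ⟨_, _, fun h1 h2 => (enc_norm (enc_mul (cv1m.enc h1) (bx1q0.enc h1 h2)))⟩
noncomputable def bd1q0_3 : Fn2 := ⟨_, _, fun h1 h2 => (enc_subr 487 520 h2)⟩
noncomputable def bd1q0 : Fn2 := ⟨_, _, fun h1 h2 => (enc_norm (enc_case (enc_subr 433 10000 h1) (enc_sub (enc_mul (enc_norm (bd1q0_3.enc h1 h2)) (enc_scaleT 7300 433 h1)) (enc_scaleT 2666 433 h1)) (enc_case (enc_subr 7 50 h1) (enc_add (enc_subr 745999 9670000 (enc_neg (enc_scaleT 4231 967 h1))) (enc_mul (enc_norm (bd1q0_3.enc h1 h2)) (enc_norm (enc_sub (enc_rat _ 667701 120875) (enc_scaleT 107060 967 h1))))) (enc_add (enc_subr 2323 30000 (enc_neg (enc_scaleT 328 75 h1))) (enc_mul (enc_norm (bd1q0_3.enc h1 h2)) (enc_norm (enc_sub (enc_rat _ 100019 18000) (enc_scaleT 39941 360 h1))))))))⟩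
noncomputable def kc1q0 : Fn2 := ⟨_, _, fun h1 h2 => (enc_norm (enc_mul (cv1m.enc h1) (bd1q0.enc h1 h2)))⟩
noncomputable def bf1q1_3 : Fn2 := ⟨_, _, fun h1 h2 => (enc_subr 487 520 h2)⟩
noncomputable def bf1q1 : Fn2 := ⟨_, _, fun h1 h2 => (enc_norm (enc_case (enc_subr 17 20 h1) (enc_add (enc_subr 196711 87500 (enc_scaleT 22761 7000 h1)) (enc_mul (enc_norm (bf1q1_3.enc h1 h2)) (enc_norm (enc_sub (enc_rat _ 661019 70000) (enc_scaleT 9267 875 h1))))) (enc_case (enc_subr 24 25 h1) (enc_add (enc_subr 1236457 550000 (enc_scaleT 35767 11000 h1)) (enc_mul (enc_norm (bf1q1_3.enc h1 h2)) (enc_norm (enc_sub (enc_rat _ 1038749 110000) (enc_scaleT 233 22 h1))))) (enc_add (enc_subr 22483 10000 (enc_scaleT 13007 4000 h1)) (enc_mul (enc_norm (bf1q1_3.enc h1 h2)) (enc_norm (enc_sub (enc_rat _ 94423 10000) (enc_scaleT 1059 100 h1))))))))⟩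
noncomputable def kf1q1 : Fn2 := ⟨_, _, fun h1 h2 => (enc_norm (enc_mul (cv1m.enc h1) (bf1q1.enc h1 h2)))⟩
noncomputable def bx1q1_3 : Fn2 := ⟨_, _, fun h1 h2 => (enc_subr 487 520 h2)⟩
noncomputable def bx1q1 : Fn2 := ⟨_, _, fun h1 h2 => (enc_norm (enc_case (enc_subr 17 20 h1) (enc_add (enc_add (enc_scaleT 2861 17500 h1) (enc_rat _ 1853 87500)) (enc_mul (enc_norm (bx1q1_3.enc h1 h2)) (enc_norm (enc_subr 1643 35000 (enc_scaleT 79 140 h1))))) (enc_case (enc_subr 24 25 h1) (enc_add (enc_add (enc_scaleT 1799 11000 h1) (enc_rat _ 23239 1100000)) (enc_mul (enc_norm (bx1q1_3.enc h1 h2)) (enc_norm (enc_subr 5273 110000 (enc_scaleT 311 550 h1))))) (enc_add (enc_add (enc_scaleT 327 2000 h1) (enc_rat _ 2117 100000)) (enc_mul (enc_norm (bx1q1_3.enc h1 h2)) (enc_norm (enc_subr 499 10000 (enc_scaleT 227 400 h1))))))))⟩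
noncomputable def l1q1 : Fn2 := ⟨_, _, fun h1 h2 => (enc_norm (enc_mul (cv1m.enc h1) (bx1q1.enc h1 h2)))⟩
noncomputable def bd1q1_3 : Fn2 := ⟨_, _, fun h1 h2 => (enc_subr 487 520 h2)⟩
noncomputable def bd1q1 : Fn2 := ⟨_, _, fun h1 h2 => (enc_norm (enc_case (enc_subr 9 10 h1) (enc_add (enc_subr 97 1250 (enc_neg (enc_scaleT 4373 1000 h1))) (enc_mul (enc_norm (bd1q1_3.enc h1 h2)) (enc_norm (enc_sub (enc_rat _ 11151 2000) (enc_scaleT 22197 200 h1))))) (enc_case (enc_subr 9567 10000 h1) (enc_add (enc_subr 48379 630000 (enc_neg (enc_scaleT 2480 567 h1))) (enc_mul (enc_norm (bd1q1_3.enc h1 h2)) (enc_norm (enc_sub (enc_rat _ 50201 9000) (enc_scaleT 8990 81 h1))))) (enc_add (enc_subr 170549 2165000 (enc_neg (enc_scaleT 1893 433 h1))) (enc_mul (enc_norm (bd1q1_3.enc h1 h2)) (enc_norm (enc_sub (enc_rat _ 241747 43300) (enc_scaleT 48060 433 h1))))))))⟩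
noncomputable def kc1q1 : Fn2 := ⟨_, _, fun h1 h2 => (enc_norm (enc_mul (cv1m.enc h1) (bd1q1.enc h1 h2)))⟩
noncomputable def xc12a : Fn1 := ⟨_, _, fun h1 => (enc_norm (enc_add (enc_scaleT 3 4 h1) (enc_scaleT 1 4 (enc_subr 1 2 (swg.enc (yag.enc h1))))))⟩
noncomputable def bf1q2_3 : Fn2 := ⟨_, _, fun h1 h2 => (enc_subr 487 520 h2)⟩
noncomputable def bf1q2 : Fn2 := ⟨_, _, fun h1 h2 => (enc_norm (enc_case (enc_subr 577 500 h1) (enc_case (enc_subr 21 20 h1) (enc_add (enc_sub (enc_rat _ 2531 625) (enc_scaleT 1906 625 h1)) (enc_mul (enc_norm (bf1q2_3.enc h1 h2)) (enc_norm (enc_sub (enc_rat _ 10617 500) (enc_scaleT 10617 500 h1))))) (enc_add (enc_sub (enc_rat _ 421147081 104000000) (enc_scaleT 15857381 5200000 h1)) (enc_mul (enc_norm (bf1q2_3.enc h1 h2)) (enc_norm (enc_sub (enc_rat _ 110428119 5200000) (enc_scaleT 5521379 260000 h1)))))) (enc_case (enc_subr 231 200 h1)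 (enc_add (enc_sub (enc_rat _ 404953 100000) (enc_scaleT 304953 100000 h1)) (enc_mul (enc_norm (bf1q2_3.enc h1 h2)) (enc_norm (enc_sub (enc_rat _ 106177 5000) (enc_scaleT 106177 5000 h1))))) (enc_case (enc_subr 13 10 h1) (enc_add (enc_sub (enc_rat _ 117436601 29000000) (enc_scaleT 8843657 2900000 h1)) (enc_mul (enc_norm (bf1q2_3.enc h1 h2)) (enc_norm (enc_sub (enc_rat _ 30791099 1450000) (enc_scaleT 3079113 145000 h1))))) (enc_add (enc_sub (enc_rat _ 404949 100000) (enc_scaleT 6099 2000 h1)) (enc_mul (enc_norm (bf1q2_3.enc h1 h2)) (enc_norm (enc_sub (enc_rat _ 424711 20000) (enc_scaleT 42471 2000 h1)))))))))⟩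
noncomputable def kfc12a : Fn2 := ⟨_, _, fun h1 h2 => (enc_norm (enc_mul (enc_norm (enc_add (enc_scaleT 3 4 h1) (enc_scaleT 1 4 (enc_subr 1 2 (swg.enc (yag.enc h1)))))) (bf1q2.enc (yag.enc h1) h2)))⟩
noncomputable def bx1q2_3 : Fn2 := ⟨_, _, fun h1 h2 => (enc_subr 487 520 h2)⟩
noncomputable def bx1q2 : Fn2 := ⟨_, _, fun h1 h2 => (enc_norm (enc_case (enc_subr 577 500 h1) (enc_case (enc_subr 21 20 h1) (enc_add (enc_sub (enc_rat _ 7191 5000) (enc_scaleT 7191 5000 h1)) (enc_mul (enc_norm (bx1q2_3.enc h1 h2)) (enc_norm (enc_sub (enc_rat _ 1961 250) (enc_scaleT 1961 250 h1))))) (enc_add (enc_sub (enc_rat _ 10314543 5200000) (enc_scaleT 20359 10400 h1)) (enc_mul (enc_norm (bx1q2_3.enc h1 h2)) (enc_norm (enc_sub (enc_rat _ 1021589 130000) (enc_scaleT 2043 260 h1)))))) (enc_case (enc_subr 231 200 h1) (enc_sub (enc_neg (enc_rat _ 551 2000)) (enc_scaleT 6047 5000 (bx1q2_3.enc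 h1 h2))) (enc_case (enc_subr 13 10 h1) (enc_add (enc_subr 28772 18125 (enc_scaleT 1647 1450 h1)) (enc_mul (enc_norm (bx1q2_3.enc h1 h2)) (enc_norm (enc_subr 2427647 290000 (enc_scaleT 8991 1450 h1))))) (enc_add (enc_subr 31739 20000 (enc_scaleT 2271 2000 h1)) (enc_mul (enc_norm (bx1q2_3.enc h1 h2)) (enc_norm (enc_subr 167497 20000 (enc_scaleT 12407 2000 h1)))))))))⟩
noncomputable def lc12a : Fn2 := ⟨_, _, fun h1 h2 => (enc_norm (enc_mul (enc_norm (enc_add (enc_scaleT 3 4 h1) (enc_scaleT 1 4 (enc_subr 1 2 (swg.enc (yag.enc h1)))))) (bx1q2.enc (yag.enc h1) h2)))⟩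
noncomputable def bd1q2_3 : Fn2 := ⟨_, _, fun h1 h2 => (enc_subr 487 520 h2)⟩
noncomputable def bd1q2 : Fn2 := ⟨_, _, fun h1 h2 => (enc_norm (enc_case (enc_subr 10433 10000 h1) (enc_add (enc_sub (enc_rat _ 12373 433) (enc_scaleT 12373 433 h1)) (enc_mul (enc_norm (bd1q2_3.enc h1 h2)) (enc_norm (enc_subr 137110 433 (enc_scaleT 137110 433 h1))))) (enc_case (enc_subr 231 200 h1) (enc_add (enc_sub (enc_rat _ 15958471 558500) (enc_scaleT 31917 1117 h1)) (enc_mul (enc_norm (bd1q2_3.enc h1 h2)) (enc_norm (enc_subr 35368959 111700 (enc_scaleT 353690 1117 h1))))) (enc_add (enc_sub (enc_rat _ 1643113 57500) (enc_scaleT 16431 575 h1)) (enc_mul (enc_norm (bd1q2_3.enc h1 h2)) (enc_norm (enc_subr 7282871 23000 (enc_scaleT 109243 345 h1))))))))⟩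
noncomputable def kcc12a : Fn2 := ⟨_, _, fun h1 h2 => (enc_norm (enc_mul (enc_norm (enc_add (enc_scaleT 3 4 h1) (enc_scaleT 1 4 (enc_subr 1 2 (swg.enc (yag.enc h1)))))) (bd1q2.enc (yag.enc h1) h2)))⟩
noncomputable def xc12b : Fn1 := ⟨_, _, fun h1 => (enc_norm (enc_scaleT 1 4 (enc_subr 1 2 (swg.enc h1))))⟩
noncomputable def kfc12b : Fn2 := ⟨_, _, fun h1 h2 => (enc_norm (enc_mul (enc_norm (enc_scaleT 1 4 (enc_subr 1 2 (swg.enc h1)))) (bf1q2.enc h1 h2)))⟩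
noncomputable def lc12b : Fn2 := ⟨_, _, fun h1 h2 => (enc_norm (enc_mul (enc_norm (enc_scaleT 1 4 (enc_subr 1 2 (swg.enc h1)))) (bx1q2.enc h1 h2)))⟩
noncomputable def kcc12b : Fn2 := ⟨_, _, fun h1 h2 => (enc_norm (enc_mul (enc_norm (enc_scaleT 1 4 (enc_subr 1 2 (swg.enc h1)))) (bd1q2.enc h1 h2)))⟩
noncomputable def cv1r : Fn1 := ⟨_, _, fun h1 => (enc_norm (enc_scaleT 1 4 (enc_subr 1 2 (swg.enc h1))))⟩
noncomputable def c3g : Fn1 := ⟨_, _, fun h1 => (enc_sqrtg (enc_sub (enc_pnc _ 3) (enc_scaleT 3 4 (enc_sq h1))))⟩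
noncomputable def kf1q3_4 : Fn2 := ⟨_, _, fun h1 h2 => (enc_subr 487 520 h2)⟩
noncomputable def kf1q3_13 : Fn2 := ⟨_, _, fun h1 h2 => (enc_subr 15269 3125 (enc_scaleT 5491 2000 h1))⟩
noncomputable def kf1q3 : Fn2 := ⟨_, _, fun h1 h2 => (enc_norm (enc_mul (cv1r.enc h1) (enc_norm (enc_case (enc_subr 48 25 h1) (enc_case (enc_subr 9 5 h1) (enc_add (kf1q3_13.enc h1 h2) (enc_mul (enc_norm (kf1q3_4.enc h1 h2)) (enc_norm (enc_sub (enc_rat _ 3850249 10000) (enc_scaleT 27242 125 h1))))) (enc_add (kf1q3_13.enc h1 h2) (enc_mul (enc_norm (kf1q3_4.enc h1 h2)) (enc_norm (enc_sub (enc_rat _ 1925123 5000) (enc_scaleT 261523 1200 h1)))))) (enc_case (enc_subr 49 25 h1) (enc_add (kf1q3_13.enc h1 h2) (enc_mul (enc_norm (kf1q3_4.enc h1 h2)) (enc_norm (enc_sub (enc_rat _ 385023 1000) (enc_scaleT 43587 200 h1))))) (enc_case (enc_sub (enc_rat _ 122167917 500000000) (c3g.enc h1)) (enc_add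 (enc_sub (enc_rat _ 159891632707 209037343750) (enc_scaleT 1047200 1337839 (c3g.enc h1))) (enc_mul (enc_norm (kf1q3_4.enc h1 h2)) (enc_norm (enc_subr 2656679470079 41807468750 (enc_scaleT 249376000 4013517 (c3g.enc h1)))))) (enc_add (enc_sub (enc_rat _ 76489 100000) (enc_scaleT 10625000 13574213 (c3g.enc h1))) (enc_mul (enc_norm (kf1q3_4.enc h1 h2)) (enc_norm (enc_subr 39716 625 (enc_scaleT 7590800000 122167917 (c3g.enc h1))))))))))))⟩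
noncomputable def l1q3_4 : Fn2 := ⟨_, _, fun h1 h2 => (enc_subr 487 520 h2)⟩
noncomputable def l1q3_28 : Fn2 := ⟨_, _, fun h1 h2 => (enc_mul (enc_norm (l1q3_4.enc h1 h2)) (enc_norm (enc_subr 1677 200 (enc_scaleT 621 100 h1))))⟩
noncomputable def l1q3 : Fn2 := ⟨_, _, fun h1 h2 => (enc_norm (enc_mul (cv1r.enc h1) (enc_norm (enc_case (enc_subr 48 25 h1) (enc_case (enc_subr 9 5 h1) (enc_add (enc_subr 1587 1000 (enc_scaleT 17033 15000 h1)) (enc_mul (enc_norm (l1q3_4.enc h1 h2)) (enc_norm (enc_subr 41913 5000 (enc_scaleT 9313 1500 h1))))) (enc_add (enc_subr 158709 100000 (enc_scaleT 13627 12000 h1)) (l1q3_28.enc h1 h2))) (enc_case (enc_subr 49 25 h1) (enc_add (enc_subr 158693 100000 (enc_scaleT 2271 2000 h1)) (l1q3_28.enc h1 h2)) (enc_case (enc_sub (enc_rat _ 122167917 500000000) (c3g.enc h1)) (enc_add (enc_sub (enc_rat _ 2509193983119 3344597500000) (enc_scaleT 1299200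 4013517 (c3g.enc h1))) (enc_mul (enc_norm (l1q3_4.enc h1 h2)) (enc_norm (enc_sub (enc_rat _ 1470627045931 334459750000) (enc_scaleT 7108000 4013517 (c3g.enc h1)))))) (enc_add (enc_sub (enc_rat _ 4689 6250) (enc_scaleT 4395000 13574213 (c3g.enc h1))) (enc_mul (enc_norm (l1q3_4.enc h1 h2)) (enc_norm (enc_sub (enc_rat _ 2748 625) (enc_scaleT 216250000 122167917 (c3g.enc h1))))))))))))⟩
noncomputable def kc1q3_4 : Fn2 := ⟨_, _, fun h1 h2 => (enc_subr 487 520 h2)⟩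
noncomputable def kc1q3 : Fn2 := ⟨_, _, fun h1 h2 => (enc_norm (enc_mul (cv1r.enc h1) (enc_norm (enc_case (enc_subr 47 25 h1) (enc_add (enc_sub (enc_rat _ 2714653 95000) (enc_scaleT 54293 1900 h1)) (enc_mul (enc_norm (kc1q3_4.enc h1 h2)) (enc_norm (enc_subr 6016163 19000 (enc_scaleT 30081 95 h1))))) (enc_case (enc_subr 19567 10000 h1) (enc_add (enc_sub (enc_rat _ 109584123 3835000) (enc_scaleT 21917 767 h1)) (enc_mul (enc_norm (kc1q3_4.enc h1 h2)) (enc_norm (enc_subr 242873351 767000 (enc_scaleT 242870 767 h1))))) (enc_add (enc_sub (enc_rat _ 306403 10000) (enc_scaleT 14494550000 89615091 (c3g.enc h1))) (enc_mul (enc_norm (kc1q3_4.enc h1 h2)) (enc_norm (enc_add (enc_scaleT 61951000000 89615091 (c3g.enc h1)) (enc_rat _ 5513 100))))))))))⟩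
noncomputable def cv2m : Fn1 := ⟨_, _, fun h1 => (enc_norm (enc_add (enc_scaleT 7 20 (c1g.enc h1)) (enc_scaleT 13 20 (enc_add (swg.enc h1) (enc_rat _ 1 2)))))⟩
noncomputable def bf2q0_3 : Fn2 := ⟨_, _, fun h1 h2 => (enc_subr 487 520 h2)⟩
noncomputable def bf2q0_24 : Fn2 := ⟨_, _, fun h1 h2 => (enc_mul (enc_norm (bf2q0_3.enc h1 h2)) (enc_norm (enc_sub (enc_rat _ 9121 10000) (enc_scaleT 65 2 h1))))⟩
noncomputable def bf2q0 : Fn2 := ⟨_, _, fun h1 h2 => (enc_norm (enc_case (enc_subr 1 25 h1) (enc_case (enc_subr 1 50 h1) (enc_add (enc_sub (enc_pnc _ 1) (enc_scaleT 851 400 h1)) (enc_mul (enc_norm (bf2q0_3.enc h1 h2)) (enc_scaleT 2621 200 h1))) (enc_add (enc_sub (enc_rat _ 25239 25000) (enc_scaleT 5211 2000 h1)) (bf2q0_24.enc h1 h2))) (enc_case (enc_subr 1 5 h1) (enc_add (enc_sub (enc_rat _ 20191 20000) (enc_scaleT 10421 4000 h1)) (bf2q0_24.enc h1 h2)) (enc_add (enc_sub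 (enc_rat _ 18929 18750) (enc_scaleT 78157 30000 h1)) (bf2q0_24.enc h1 h2)))))⟩
noncomputable def kf2q0 : Fn2 := ⟨_, _, fun h1 h2 => (enc_norm (enc_mul (cv2m.enc h1) (bf2q0.enc h1 h2)))⟩
noncomputable def bx2q0_3 : Fn2 := ⟨_, _, fun h1 h2 => (enc_subr 487 520 h2)⟩
noncomputable def bx2q0 : Fn2 := ⟨_, _, fun h1 h2 => (enc_norm (enc_case (enc_subr 1 25 h1) (enc_case (enc_subr 1 50 h1) (enc_add (enc_scaleT 399 500 h1) (enc_mul (enc_norm (bx2q0_3.enc h1 h2)) (enc_scaleT 641 200 h1))) (enc_add (enc_add (enc_scaleT 1489 2000 h1) (enc_rat _ 107 100000)) (enc_mul (enc_norm (bx2q0_3.enc h1 h2)) (enc_norm (enc_add (enc_scaleT 47 40 h1) (enc_rat _ 203 5000)))))) (enc_case (enc_subr 2 25 h1) (enc_add (enc_add (enc_scaleT 1293 2000 h1) (enc_rat _ 499 100000)) (enc_mul (enc_norm (bx2q0_3.enc h1 h2)) (enc_norm (enc_add (enc_scaleT 341 400 h1) (enc_rat _ 107 2000))))) (enc_case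 (enc_subr 1 5 h1) (enc_add (enc_add (enc_scaleT 6851 12000 h1) (enc_rat _ 3311 300000)) (enc_mul (enc_norm (bx2q0_3.enc h1 h2)) (enc_norm (enc_sub (enc_rat _ 1187 6000) (enc_scaleT 571 600 h1))))) (enc_add (enc_sub (enc_rat _ 10283 75000) (enc_scaleT 1783 30000 h1)) (enc_mul (enc_norm (bx2q0_3.enc h1 h2)) (enc_norm (enc_sub (enc_rat _ 1193 6000) (enc_scaleT 287 300 h1)))))))))⟩
noncomputable def l2q0 : Fn2 := ⟨_, _, fun h1 h2 => (enc_norm (enc_mul (cv2m.enc h1) (bx2q0.enc h1 h2)))⟩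
noncomputable def bd2q0_3 : Fn2 := ⟨_, _, fun h1 h2 => (enc_subr 487 520 h2)⟩
noncomputable def bd2q0 : Fn2 := ⟨_, _, fun h1 h2 => (enc_norm (enc_case (enc_subr 433 10000 h1) (enc_sub (enc_mul (enc_norm (bd2q0_3.enc h1 h2)) (enc_scaleT 930 433 h1)) (enc_scaleT 5851 433 h1)) (enc_case (enc_subr 7 50 h1) (enc_add (enc_subr 339 9670000 (enc_neg (enc_scaleT 13066 967 h1))) (enc_mul (enc_norm (bd2q0_3.enc h1 h2)) (enc_norm (enc_subr 56423 967000 (enc_scaleT 3380 967 h1))))) (enc_add (enc_sub (enc_rat _ 1 20000) (enc_scaleT 1081 80 h1)) (enc_mul (enc_norm (bd2q0_3.enc h1 h2)) (enc_norm (enc_subr 517 9000 (enc_scaleT 157 45 h1))))))))⟩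
noncomputable def kc2q0 : Fn2 := ⟨_, _, fun h1 h2 => (enc_norm (enc_mul (cv2m.enc h1) (bd2q0.enc h1 h2)))⟩
noncomputable def bf2q1_3 : Fn2 := ⟨_, _, fun h1 h2 => (enc_subr 487 520 h2)⟩
noncomputable def bf2q1 : Fn2 := ⟨_, _, fun h1 h2 => (enc_norm (enc_case (enc_subr 17 20 h1) (enc_add (enc_sub (enc_rat _ 983491 700000) (enc_scaleT 8037 8750 h1)) (enc_mul (enc_norm (bf2q1_3.enc h1 h2)) (enc_norm (enc_sub (enc_rat _ 776561 70000) (enc_scaleT 44999 3500 h1))))) (enc_case (enc_subr 24 25 h1) (enc_add (enc_sub (enc_rat _ 154543 110000) (enc_scaleT 10103 11000 h1)) (enc_mul (enc_norm (bf2q1_3.enc h1 h2)) (enc_norm (enc_sub (enc_rat _ 152533 13750) (enc_scaleT 7071 550 h1))))) (enc_add (enc_sub (enc_rat _ 70249 50000) (enc_scaleT 1837 2000 h1)) (enc_mul (enc_norm (bf2q1_3.enc h1 h2)) (enc_norm (enc_sub (enc_rat _ 6934 625) (enc_scaleT 5143 400 h1))))))))⟩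
noncomputable def kf2q1 : Fn2 := ⟨_, _, fun h1 h2 => (enc_norm (enc_mul (cv2m.enc h1) (bf2q1.enc h1 h2)))⟩
noncomputable def bx2q1_3 : Fn2 := ⟨_, _, fun h1 h2 => (enc_subr 487 520 h2)⟩
noncomputable def bx2q1_26 : Fn2 := ⟨_, _, fun h1 h2 => (enc_mul (enc_norm (bx2q1_3.enc h1 h2)) (enc_norm (enc_sub (enc_rat _ 251 1250) (enc_scaleT 24 25 h1))))⟩
noncomputable def bx2q1 : Fn2 := ⟨_, _, fun h1 h2 => (enc_norm (enc_case (enc_subr 17 20 h1) (enc_add (enc_sub (enc_rat _ 95993 700000) (enc_scaleT 1041 17500 h1)) (enc_mul (enc_norm (bx2q1_3.enc h1 h2)) (enc_norm (enc_sub (enc_rat _ 2801 14000) (enc_scaleT 3357 3500 h1))))) (enc_case (enc_subr 24 25 h1) (enc_add (enc_sub (enc_rat _ 150817 1100000) (enc_scaleT 327 5500 h1)) (bx2q1_26.enc h1 h2)) (enc_add (enc_sub (enc_rat _ 2743 20000) (enc_scaleT 119 2000 h1)) (bx2q1_26.enc h1 h2)))))⟩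
noncomputable def l2q1 : Fn2 := ⟨_, _, fun h1 h2 => (enc_norm (enc_mul (cv2m.enc h1) (bx2q1.enc h1 h2)))⟩
noncomputable def bd2q1_3 : Fn2 := ⟨_, _, fun h1 h2 => (enc_subr 487 520 h2)⟩
noncomputable def bd2q1 : Fn2 := ⟨_, _, fun h1 h2 => (enc_norm (enc_case (enc_subr 9 10 h1) (enc_add (enc_subr 3 40000 (enc_neg (enc_scaleT 54049 4000 h1))) (enc_mul (enc_norm (bd2q1_3.enc h1 h2)) (enc_norm (enc_subr 227 4000 (enc_scaleT 279 80 h1))))) (enc_case (enc_subr 9567 10000 h1) (enc_add (enc_sub (enc_rat _ 169 210000) (enc_scaleT 2554 189 h1)) (enc_mul (enc_norm (bd2q1_3.enc h1 h2)) (enc_norm (enc_subr 213 3500 (enc_scaleT 220 63 h1))))) (enc_add (enc_sub (enc_rat _ 327 1082500) (enc_scaleT 5851 433 h1)) (enc_mul (enc_norm (bd2q1_3.enc h1 h2)) (enc_norm (enc_subr 24377 433000 (enc_scaleT 1510 433 h1))))))))⟩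
noncomputable def kc2q1 : Fn2 := ⟨_, _, fun h1 h2 => (enc_norm (enc_mul (cv2m.enc h1) (bd2q1.enc h1 h2)))⟩
noncomputable def xc22a : Fn1 := ⟨_, _, fun h1 => (enc_norm (enc_add (enc_scaleT 7 20 h1) (enc_scaleT 13 20 (enc_subr 1 2 (swg.enc (yag.enc h1))))))⟩
noncomputable def bf2q2_3 : Fn2 := ⟨_, _, fun h1 h2 => (enc_subr 487 520 h2)⟩
noncomputable def bf2q2_11 : Fn2 := ⟨_, _, fun h1 h2 => (enc_sub (enc_rat _ 6049 1250) (enc_scaleT 4799 1250 h1))⟩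
noncomputable def bf2q2 : Fn2 := ⟨_, _, fun h1 h2 => (enc_norm (enc_case (enc_subr 577 500 h1) (enc_case (enc_subr 21 20 h1) (enc_add (bf2q2_11.enc h1 h2) (enc_mul (enc_norm (bf2q2_3.enc h1 h2)) (enc_norm (enc_sub (enc_rat _ 4213 500) (enc_scaleT 4213 500 h1))))) (enc_add (enc_sub (enc_rat _ 3145501 650000) (enc_scaleT 4991 1300 h1)) (enc_mul (enc_norm (bf2q2_3.enc h1 h2)) (enc_norm (enc_sub (enc_rat _ 547753 65000) (enc_scaleT 2191 260 h1)))))) (enc_case (enc_subr 231 200 h1) (enc_add (enc_sub (enc_rat _ 121003 25000) (enc_scaleT 96 25 h1)) (enc_mul (enc_norm (bf2q2_3.enc h1 h2)) (enc_norm (enc_sub (enc_rat _ 83959 10000) (enc_scaleT 42 5 h1))))) (enc_case (enc_subr 13 10 h1) (enc_add (enc_sub (enc_rat _ 1754197 362500) (enc_scaleT 13917 3625 h1)) (enc_mul (enc_norm (bf2q2_3.enc h1 h2)) (enc_norm (enc_sub (enc_rat _ 2443589 290000) (enc_scaleT 6109 725 h1)))))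 (enc_add (bf2q2_11.enc h1 h2) (enc_mul (enc_norm (bf2q2_3.enc h1 h2)) (enc_norm (enc_sub (enc_rat _ 168531 20000) (enc_scaleT 16853 2000 h1)))))))))⟩
noncomputable def kfc22a : Fn2 := ⟨_, _, fun h1 h2 => (enc_norm (enc_mul (enc_norm (enc_add (enc_scaleT 7 20 h1) (enc_scaleT 13 20 (enc_subr 1 2 (swg.enc (yag.enc h1)))))) (bf2q2.enc (yag.enc h1) h2)))⟩
noncomputable def bx2q2_3 : Fn2 := ⟨_, _, fun h1 h2 => (enc_subr 487 520 h2)⟩
noncomputable def bx2q2 : Fn2 := ⟨_, _, fun h1 h2 => (enc_norm (enc_case (enc_subr 577 500 h1) (enc_case (enc_subr 21 20 h1) (enc_add (enc_sub (enc_rat _ 181 250) (enc_scaleT 181 250 h1)) (enc_mul (enc_norm (bx2q2_3.enc h1 h2)) (enc_norm (enc_sub (enc_rat _ 161 50) (enc_scaleT 161 50 h1))))) (enc_add (enc_sub (enc_rat _ 376501 520000) (enc_scaleT 753 1040 h1)) (enc_mul (enc_norm (bx2q2_3.enc h1 h2)) (enc_norm (enc_sub (enc_rat _ 334481 104000)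 (enc_scaleT 669 208 h1)))))) (enc_case (enc_subr 231 200 h1) (enc_add (enc_sub (enc_rat _ 35969 50000) (enc_scaleT 18 25 h1)) (enc_mul (enc_norm (bx2q2_3.enc h1 h2)) (enc_norm (enc_sub (enc_rat _ 26203 10000) (enc_scaleT 27 10 h1))))) (enc_case (enc_subr 13 10 h1) (enc_add (enc_subr 574463 362500 (enc_scaleT 9243 7250 h1)) (enc_mul (enc_norm (bx2q2_3.enc h1 h2)) (enc_norm (enc_subr 30484 18125 (enc_scaleT 743 725 h1))))) (enc_add (enc_subr 63397 40000 (enc_scaleT 25501 20000 h1)) (enc_mul (enc_norm (bx2q2_3.enc h1 h2)) (enc_norm (enc_subr 7251 4000 (enc_scaleT 2251 2000 h1)))))))))⟩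
noncomputable def lc22a : Fn2 := ⟨_, _, fun h1 h2 => (enc_norm (enc_mul (enc_norm (enc_add (enc_scaleT 7 20 h1) (enc_scaleT 13 20 (enc_subr 1 2 (swg.enc (yag.enc h1)))))) (bx2q2.enc (yag.enc h1) h2)))⟩
noncomputable def bd2q2_3 : Fn2 := ⟨_, _, fun h1 h2 => (enc_subr 487 520 h2)⟩
noncomputable def bd2q2 : Fn2 := ⟨_, _, fun h1 h2 => (enc_norm (enc_case (enc_subr 10433 10000 h1) (enc_add (enc_subr 6425 433 (enc_scaleT 6425 433 h1)) (enc_mul (enc_norm (bd2q2_3.enc h1 h2)) (enc_norm (enc_sub (enc_rat _ 20670 433) (enc_scaleT 20670 433 h1))))) (enc_case (enc_subr 231 200 h1) (enc_add (enc_subr 165739817 11170000 (enc_scaleT 16574 1117 h1)) (enc_mul (enc_norm (bd2q2_3.enc h1 h2)) (enc_norm (enc_sub (enc_rat _ 1066607 22340) (enc_scaleT 53330 1117 h1))))) (enc_add (enc_subr 341273 23000 (enc_scaleT 51191 3450 h1)) (enc_mul (enc_norm (bd2q2_3.enc h1 h2)) (enc_norm (enc_sub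 (enc_rat _ 137268 2875) (enc_scaleT 16472 345 h1))))))))⟩
noncomputable def kcc22a : Fn2 := ⟨_, _, fun h1 h2 => (enc_norm (enc_mul (enc_norm (enc_add (enc_scaleT 7 20 h1) (enc_scaleT 13 20 (enc_subr 1 2 (swg.enc (yag.enc h1)))))) (bd2q2.enc (yag.enc h1) h2)))⟩
noncomputable def xc22b : Fn1 := ⟨_, _, fun h1 => (enc_norm (enc_scaleT 13 20 (enc_subr 1 2 (swg.enc h1))))⟩
noncomputable def kfc22b : Fn2 := ⟨_, _, fun h1 h2 => (enc_norm (enc_mul (enc_norm (enc_scaleT 13 20 (enc_subr 1 2 (swg.enc h1)))) (bf2q2.enc h1 h2)))⟩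
noncomputable def lc22b : Fn2 := ⟨_, _, fun h1 h2 => (enc_norm (enc_mul (enc_norm (enc_scaleT 13 20 (enc_subr 1 2 (swg.enc h1)))) (bx2q2.enc h1 h2)))⟩
noncomputable def kcc22b : Fn2 := ⟨_, _, fun h1 h2 => (enc_norm (enc_mul (enc_norm (enc_scaleT 13 20 (enc_subr 1 2 (swg.enc h1)))) (bd2q2.enc h1 h2)))⟩
noncomputable def cv2r : Fn1 := ⟨_, _, fun h1 => (enc_norm (enc_scaleT 13 20 (enc_subr 1 2 (swg.enc h1))))⟩
noncomputable def kf2q3_4 : Fn2 := ⟨_, _, fun h1 h2 => (enc_subr 487 520 h2)⟩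
noncomputable def kf2q3_13 : Fn2 := ⟨_, _, fun h1 h2 => (enc_sub (enc_rat _ 40087 4000) (enc_scaleT 15377 3000 h1))⟩
noncomputable def kf2q3 : Fn2 := ⟨_, _, fun h1 h2 => (enc_norm (enc_mul (cv2r.enc h1) (enc_norm (enc_case (enc_subr 48 25 h1) (enc_case (enc_subr 9 5 h1) (enc_add (kf2q3_13.enc h1 h2) (enc_mul (enc_norm (kf2q3_4.enc h1 h2)) (enc_norm (enc_subr 29429 500 (enc_scaleT 7139 250 h1))))) (enc_add (kf2q3_13.enc h1 h2) (enc_mul (enc_norm (kf2q3_4.enc h1 h2)) (enc_norm (enc_subr 36787 625 (enc_scaleT 8567 300 h1)))))) (enc_case (enc_subr 49 25 h1) (enc_add (enc_sub (enc_rat _ 1002191 100000) (enc_scaleT 20503 4000 h1)) (enc_mul (enc_norm (kf2q3_4.enc h1 h2)) (enc_norm (enc_subr 7357 125 (enc_scaleT 5711 200 h1))))) (enc_case (enc_sub (enc_rat _ 122167917 500000000) (c3g.enc h1)) (enc_add (enc_subr 1766793757339 3344597500000 (enc_scaleT 5865200 4013517 (c3g.enc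 h1))) (enc_mul (enc_norm (kf2q3_4.enc h1 h2)) (enc_norm (enc_subr 27210221687 334459750000 (enc_neg (enc_scaleT 32684000 4013517 (c3g.enc h1))))))) (enc_add (enc_subr 6603 12500 (enc_scaleT 178525000 122167917 (c3g.enc h1))) (enc_mul (enc_norm (kf2q3_4.enc h1 h2)) (enc_norm (enc_subr 809 10000 (enc_neg (enc_scaleT 331700000 40722639 (c3g.enc h1)))))))))))))⟩
noncomputable def l2q3_4 : Fn2 := ⟨_, _, fun h1 h2 => (enc_subr 487 520 h2)⟩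
noncomputable def l2q3 : Fn2 := ⟨_, _, fun h1 h2 => (enc_norm (enc_mul (cv2r.enc h1) (enc_norm (enc_case (enc_subr 48 25 h1) (enc_case (enc_subr 9 5 h1) (enc_add (enc_subr 15849 10000 (enc_scaleT 38251 30000 h1)) (enc_mul (enc_norm (l2q3_4.enc h1 h2)) (enc_norm (enc_subr 1959 1000 (enc_scaleT 1223 1000 h1))))) (enc_add (enc_subr 158499 100000 (enc_scaleT 15301 12000 h1)) (enc_mul (enc_norm (l2q3_4.enc h1 h2)) (enc_norm (enc_subr 12873 5000 (enc_scaleT 313 200 h1)))))) (enc_case (enc_subr 49 25 h1) (enc_add (enc_subr 158483 100000 (enc_scaleT 51 40 h1)) (enc_mul (enc_norm (l2q3_4.enc h1 h2)) (enc_norm (enc_subr 124929 5000 (enc_scaleT 1059 80 h1))))) (enc_case (enc_sub (enc_rat _ 122167917 500000000) (c3g.enc h1)) (enc_add (enc_add (enc_scaleT 683600 4013517 (c3g.enc h1)) (enc_rat _ 1430590772599 1672298750000)) (enc_mul (enc_norm (l2q3_4.enc h1 h2)) (enc_norm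 (enc_sub (enc_rat _ 982065291837 334459750000) (enc_scaleT 7672000 1337839 (c3g.enc h1)))))) (enc_add (enc_add (enc_scaleT 6935000 40722639 (c3g.enc h1)) (enc_rat _ 85547 100000)) (enc_mul (enc_norm (l2q3_4.enc h1 h2)) (enc_norm (enc_sub (enc_rat _ 7339 2500) (enc_scaleT 700250000 122167917 (c3g.enc h1))))))))))))⟩
noncomputable def kc2q3_4 : Fn2 := ⟨_, _, fun h1 h2 => (enc_subr 487 520 h2)⟩
noncomputable def kc2q3 : Fn2 := ⟨_, _, fun h1 h2 => (enc_norm (enc_mul (cv2r.enc h1) (enc_norm (enc_case (enc_subr 47 25 h1) (enc_add (enc_subr 281919 19000 (enc_scaleT 7048 475 h1)) (enc_mul (enc_norm (kc2q3_4.enc h1 h2)) (enc_norm (enc_sub (enc_rat _ 453541 9500) (enc_scaleT 9071 190 h1))))) (enc_case (enc_subr 19567 10000 h1) (enc_add (enc_subr 56906271 3835000 (enc_scaleT 11381 767 h1)) (enc_mul (enc_norm (kc2q3_4.enc h1 h2)) (enc_norm (enc_sub (enc_rat _ 18310431 383500)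 (enc_scaleT 36620 767 h1))))) (enc_add (enc_add (enc_scaleT 3213275000 89615091 (c3g.enc h1)) (enc_rat _ 839 625)) (enc_mul (enc_norm (kc2q3_4.enc h1 h2)) (enc_norm (enc_subr 5249 50 (enc_scaleT 4942000000 29871697 (c3g.enc h1)))))))))))⟩
noncomputable def cv3m : Fn1 := ⟨_, _, fun h1 => (enc_norm (enc_add (enc_scaleT 8907 10000 (enc_add (swg.enc h1) (enc_rat _ 1 2))) (enc_scaleT 1093 10000 (c3g.enc h1))))⟩
noncomputable def esg : Fn1 := ⟨_, _, fun h1 => (enc_norm (enc_subn 1 (enc_add (enc_half h1) (gsg.enc h1))))⟩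
noncomputable def kf3q0_4 : Fn2 := ⟨_, _, fun h1 h2 => (enc_subr 487 520 h2)⟩
noncomputable def kf3q0_53 : Fn2 := ⟨_, _, fun h1 h2 => (enc_sub (enc_pnc _ 1) h1)⟩
noncomputable def kf3q0_54 : Fn2 := ⟨_, _, fun h1 h2 => (gsg.enc (enc_norm (kf3q0_53.enc h1 h2)))⟩
noncomputable def kf3q0_57 : Fn2 := ⟨_, _, fun h1 h2 => (enc_sub (enc_scaleT 3 4 (kf3q0_53.enc h1 h2)) (enc_half (kf3q0_54.enc h1 h2)))⟩
noncomputable def kf3q0_58 : Fn2 := ⟨_, _, fun h1 h2 => (esg.enc (enc_norm (kf3q0_53.enc h1 h2)))⟩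
noncomputable def kf3q0_59 : Fn2 := ⟨_, _, fun h1 h2 => (kcg.enc (enc_norm (kf3q0_57.enc h1 h2)) h2)⟩
noncomputable def kf3q0_67 : Fn2 := ⟨_, _, fun h1 h2 => (enc_sub (kf3q0_57.enc h1 h2) (enc_sub (enc_rat _ 1 4) (enc_scaleT 3 8 (enc_mul (enc_norm (kf3q0_53.enc h1 h2)) (enc_inv (kf3q0_54.enc h1 h2))))))⟩
noncomputable def kf3q0_76 : Fn2 := ⟨_, _, fun h1 h2 => (enc_mul (cv2m.enc h1) (bf2q0.enc h1 h2))⟩
noncomputable def kf3q0 : Fn2 := ⟨_, _, fun h1 h2 => (enc_norm (enc_case (enc_subr 433 10000 h1) (enc_mul (cv3m.enc h1) (enc_norm (enc_case (enc_subr 1 50 h1) (enc_add (enc_sub (enc_rat _ 44741 50000) (enc_scaleT 627 100 h1)) (enc_mul (enc_norm (kf3q0_4.enc h1 h2)) (enc_norm (enc_subr 31 100 (enc_scaleT 4207 100 h1))))) (enc_add (enc_sub (enc_rat _ 10424593421 11650000000) (enc_scaleT 1460850421 233000000 h1)) (enc_mul (enc_norm (kf3q0_4.enc h1 h2)) (enc_norm (enc_subr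 180656263 582500000 (enc_scaleT 490196763 11650000 h1)))))))) (enc_case (enc_subr 819 10000 h1) (enc_add (kf3q0_76.enc h1 h2) (enc_mul (enc_norm (enc_mul (enc_norm (enc_sub (enc_wB0 (enc_mul h1 (enc_norm (enc_sub (enc_mul (enc_norm (kf3q0_67.enc h1 h2)) (enc_inv (kf3q0_58.enc h1 h2))) (kf3q0_59.enc h1 h2)))) (kf3q0_53.enc h1 h2) (kf3q0_54.enc h1 h2) (kf3q0_58.enc h1 h2) h1 (kf3q0_67.enc h1 h2) (kf3q0_59.enc h1 h2) rfl rfl rfl rfl) (kf3q0_76.enc h1 h2))) (enc_norm (enc_sub (cv3m.enc h1) (cv2m.enc h1))))) (enc_inv (enc_sub (enc_add (swg.enc h1) (enc_rat _ 1 2)) (cv2m.enc h1))))) (enc_mul (cv3m.enc h1) (enc_norm (enc_case (enc_subr 1 5 h1) (enc_add (enc_sub (enc_rat _ 238351571 295250000) (enc_scaleT 174754721 59050000 h1)) (enc_mul (enc_norm (kf3q0_4.enc h1 h2)) (enc_norm (enc_add (enc_scaleT 110829983 14762500 h1) (enc_rat _ 82481521 36906250))))) (enc_add (enc_sub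 (enc_rat _ 121093 150000) (enc_scaleT 88783 30000 h1)) (enc_mul (enc_norm (kf3q0_4.enc h1 h2)) (enc_norm (enc_add (enc_scaleT 7507 1000 h1) (enc_rat _ 447 200)))))))))))⟩
noncomputable def qsg : Fn1 := ⟨_, _, fun h1 => (enc_norm (enc_mul (enc_norm (enc_sub (enc_pnc _ 1) (gsg.enc h1))) (enc_norm (enc_subn 1 (enc_nat 2 (gsg.enc h1))))))⟩
noncomputable def l3q0_4 : Fn2 := ⟨_, _, fun h1 h2 => (enc_subr 487 520 h2)⟩
noncomputable def l3q0_28 : Fn2 := ⟨_, _, fun h1 h2 => (enc_sq (enc_norm (l3q0_4.enc h1 h2)))⟩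
noncomputable def l3q0_65 : Fn2 := ⟨_, _, fun h1 h2 => (enc_sub (enc_pnc _ 1) h1)⟩
noncomputable def l3q0_80 : Fn2 := ⟨_, _, fun h1 h2 => (enc_mul (cv2m.enc h1) (bx2q0.enc h1 h2))⟩
noncomputable def l3q0 : Fn2 := ⟨_, _, fun h1 h2 => (enc_norm (enc_case (enc_subr 433 10000 h1) (enc_mul (cv3m.enc h1) (enc_norm (enc_case (enc_subr 1 50 h1) (enc_add (enc_add (enc_scaleT 151 200 h1) (enc_rat _ 3127 50000)) (enc_mul (enc_norm (l3q0_4.enc h1 h2)) (enc_norm (enc_sub (enc_rat _ 1189 10000) (enc_scaleT 281 100 h1))))) (enc_add (enc_add (enc_add (enc_scaleT 175972417 233000000 h1) (enc_rat _ 728533583 11650000000)) (enc_mul (enc_norm (l3q0_4.enc h1 h2)) (enc_norm (enc_add (enc_scaleT 1705453 1165000 h1) (enc_rat _ 973411 29125000))))) (enc_mul (l3q0_28.enc h1 h2) (enc_norm (enc_subr 4077 46600 (enc_scaleT 4077 932 h1)))))))) (enc_case (enc_subr 819 10000 h1) (enc_add (l3q0_80.enc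 h1 h2) (enc_mul (enc_norm (enc_mul (enc_norm (enc_sub (enc_sub (qsg.enc (enc_norm (l3q0_65.enc h1 h2))) (enc_mul (enc_norm (enc_nat 2 (enc_sub (l3q0_65.enc h1 h2) h2))) (enc_norm (enc_mul (esg.enc (enc_norm (l3q0_65.enc h1 h2))) (kcg.enc (enc_norm (enc_sub (enc_scaleT 3 4 (l3q0_65.enc h1 h2)) (enc_half (gsg.enc (enc_norm (l3q0_65.enc h1 h2)))))) h2))))) (l3q0_80.enc h1 h2))) (enc_norm (enc_sub (cv3m.enc h1) (cv2m.enc h1))))) (enc_inv (enc_sub (enc_add (swg.enc h1) (enc_rat _ 1 2)) (cv2m.enc h1))))) (enc_mul (cv3m.enc h1) (enc_norm (enc_case (enc_subr 1 5 h1) (enc_add (enc_add (enc_sub (enc_rat _ 351195493 2952500000) (enc_scaleT 53111093 590500000 h1)) (enc_mul (enc_norm (l3q0_4.enc h1 h2)) (enc_norm (enc_sub (enc_rat _ 4717071 11810000) (enc_scaleT 3364157 1181000 h1))))) (enc_mul (l3q0_28.enc h1 h2) (enc_norm (enc_subr 1794 147625 (enc_scaleT 1794 29525 h1)))))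 (enc_add (enc_sub (enc_rat _ 8923 75000) (enc_scaleT 1351 15000 h1)) (enc_mul (enc_norm (l3q0_4.enc h1 h2)) (enc_norm (enc_subr 6377 30000 (enc_scaleT 317 1500 h1)))))))))))⟩
noncomputable def kc3q0_4 : Fn2 := ⟨_, _, fun h1 h2 => (enc_subr 487 520 h2)⟩
noncomputable def kc3q0_30 : Fn2 := ⟨_, _, fun h1 h2 => (enc_sub (enc_pnc _ 1) h1)⟩
noncomputable def kc3q0_31 : Fn2 := ⟨_, _, fun h1 h2 => (gsg.enc (enc_norm (kc3q0_30.enc h1 h2)))⟩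
noncomputable def kc3q0_35 : Fn2 := ⟨_, _, fun h1 h2 => (esg.enc (enc_norm (kc3q0_30.enc h1 h2)))⟩
noncomputable def kc3q0_39 : Fn2 := ⟨_, _, fun h1 h2 => (gug.enc (enc_norm (kc3q0_30.enc h1 h2)))⟩
noncomputable def kc3q0_41 : Fn2 := ⟨_, _, fun h1 h2 => (enc_mul (enc_norm (kc3q0_30.enc h1 h2)) (enc_inv (kc3q0_31.enc h1 h2)))⟩
noncomputable def kc3q0_42 : Fn2 := ⟨_, _, fun h1 h2 => (enc_scaleT 3 4 (kc3q0_41.enc h1 h2))⟩
noncomputable def kc3q0_72 : Fn2 := ⟨_, _, fun h1 h2 => (enc_mul (cv2m.enc h1) (bd2q0.enc h1 h2))⟩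
noncomputable def kc3q0 : Fn2 := ⟨_, _, fun h1 h2 => (enc_norm (enc_case (enc_subr 433 10000 h1) (enc_mul (cv3m.enc h1) (enc_norm (enc_add (enc_subr 579 1250 (enc_neg (enc_scaleT 1098466347 54125000 h1))) (enc_mul (enc_norm (kc3q0_4.enc h1 h2)) (enc_norm (enc_sub (enc_rat _ 71 10) (enc_scaleT 2740930891 43300000 h1))))))) (enc_case (enc_subr 819 10000 h1) (enc_add (kc3q0_72.enc h1 h2) (enc_mul (enc_norm (enc_mul (enc_norm (enc_sub (enc_add (enc_sub (enc_neg (enc_add (enc_add (enc_rat _ 3 4) (enc_scaleT 3 2 (kc3q0_30.enc h1 h2))) (enc_scaleT 3 4 (enc_mul (enc_norm (kc3q0_41.enc h1 h2)) (kc3q0_39.enc h1 h2))))) (enc_wT (enc_mul (enc_norm (enc_sub (enc_mul (enc_norm (enc_mul (enc_norm (kc3q0_42.enc h1 h2)) (enc_norm (enc_subn 3 (enc_nat 4 (kc3q0_31.enc h1 h2)))))) (kc3q0_35.enc h1 h2)) (enc_mul (qsg.enc (enc_norm (kc3q0_30.enc h1 h2))) (enc_norm (enc_sub (enc_rat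 _ 1 2) (kc3q0_42.enc h1 h2)))))) (enc_inv (enc_mul (enc_nat 2 (kc3q0_35.enc h1 h2)) (kc3q0_35.enc h1 h2)))) (kc3q0_30.enc h1 h2) (kc3q0_31.enc h1 h2) (kc3q0_35.enc h1 h2) rfl rfl rfl rfl)) (enc_mul (kcg.enc (enc_norm (enc_sub (enc_scaleT 3 4 (kc3q0_30.enc h1 h2)) (enc_half (kc3q0_31.enc h1 h2)))) h2) (enc_norm (enc_add (enc_pnc _ 1) (enc_add (kc3q0_39.enc h1 h2) (enc_nat 2 (kc3q0_31.enc h1 h2))))))) (kc3q0_72.enc h1 h2))) (enc_norm (enc_sub (cv3m.enc h1) (cv2m.enc h1))))) (enc_inv (enc_sub (enc_add (swg.enc h1) (enc_rat _ 1 2)) (cv2m.enc h1))))) (enc_mul (cv3m.enc h1) (enc_norm (enc_add (enc_sub (enc_rat _ 157655019 8362000000) (enc_scaleT 79052219 4181000000 h1)) (enc_mul (enc_norm (kc3q0_4.enc h1 h2)) (enc_norm (enc_subr 15990951 26131250 (enc_scaleT 15989577 26131250 h1))))))))))⟩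
noncomputable def bf3q1_3 : Fn2 := ⟨_, _, fun h1 h2 => (enc_subr 487 520 h2)⟩
noncomputable def bf3q1 : Fn2 := ⟨_, _, fun h1 h2 => (enc_norm (enc_case (enc_subr 17 20 h1) (enc_add (enc_subr 343379 700000 (enc_scaleT 52169 35000 h1)) (enc_mul (enc_norm (bf3q1_3.enc h1 h2)) (enc_norm (enc_subr 348221 35000 (enc_scaleT 17411 1750 h1))))) (enc_case (enc_subr 24 25 h1) (enc_add (enc_subr 269799 550000 (enc_scaleT 4099 2750 h1)) (enc_mul (enc_norm (bf3q1_3.enc h1 h2)) (enc_norm (enc_subr 273601 27500 (enc_scaleT 2736 275 h1))))) (enc_add (enc_subr 981 2000 (enc_scaleT 2981 2000 h1)) (enc_mul (enc_norm (bf3q1_3.enc h1 h2)) (enc_norm (enc_subr 199 20 (enc_scaleT 199 20 h1))))))))⟩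
noncomputable def kf3q1 : Fn2 := ⟨_, _, fun h1 h2 => (enc_norm (enc_mul (cv3m.enc h1) (bf3q1.enc h1 h2)))⟩
noncomputable def bx3q1_3 : Fn2 := ⟨_, _, fun h1 h2 => (enc_subr 487 520 h2)⟩
noncomputable def bx3q1 : Fn2 := ⟨_, _, fun h1 h2 => (enc_norm (enc_case (enc_subr 17 20 h1) (enc_add (enc_sub (enc_rat _ 51759 350000) (enc_scaleT 647 4375 h1)) (enc_mul (enc_norm (bx3q1_3.enc h1 h2)) (enc_norm (enc_subr 2129 10000 (enc_scaleT 53 250 h1))))) (enc_case (enc_subr 24 25 h1) (enc_add (enc_sub (enc_rat _ 162693 1100000) (enc_scaleT 1627 11000 h1)) (enc_mul (enc_norm (bx3q1_3.enc h1 h2)) (enc_norm (enc_subr 23997 110000 (enc_scaleT 12 55 h1))))) (enc_add (enc_sub (enc_rat _ 591 4000) (enc_scaleT 591 4000 h1)) (enc_mul (enc_norm (bx3q1_3.enc h1 h2)) (enc_norm (enc_subr 87 400 (enc_scaleT 87 400 h1))))))))⟩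
noncomputable def l3q1 : Fn2 := ⟨_, _, fun h1 h2 => (enc_norm (enc_mul (cv3m.enc h1) (bx3q1.enc h1 h2)))⟩
noncomputable def bd3q1_3 : Fn2 := ⟨_, _, fun h1 h2 => (enc_subr 487 520 h2)⟩
noncomputable def bd3q1 : Fn2 := ⟨_, _, fun h1 h2 => (enc_norm (enc_case (enc_subr 9 10 h1) (enc_add (enc_sub (enc_rat _ 751 40000) (enc_scaleT 3 160 h1)) (enc_mul (enc_norm (bd3q1_3.enc h1 h2)) (enc_norm (enc_subr 2449 4000 (enc_scaleT 49 80 h1))))) (enc_case (enc_subr 9567 10000 h1) (enc_add (enc_sub (enc_rat _ 12197 630000) (enc_scaleT 11 567 h1)) (enc_mul (enc_norm (bd3q1_3.enc h1 h2)) (enc_norm (enc_subr 5549 9000 (enc_scaleT 50 81 h1))))) (enc_add (enc_sub (enc_rat _ 8 433) (enc_scaleT 8 433 h1)) (enc_mul (enc_norm (bd3q1_3.enc h1 h2)) (enc_norm (enc_subr 260 433 (enc_scaleT 260 433 h1))))))))⟩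
noncomputable def kc3q1 : Fn2 := ⟨_, _, fun h1 h2 => (enc_norm (enc_mul (cv3m.enc h1) (bd3q1.enc h1 h2)))⟩
noncomputable def cv3p : Fn1 := ⟨_, _, fun h1 => (enc_norm (enc_add (enc_scaleT 8907 10000 (enc_subr 1 2 (swg.enc h1))) (enc_scaleT 1093 10000 (c3g.enc h1))))⟩
noncomputable def bf3q2_3 : Fn2 := ⟨_, _, fun h1 h2 => (enc_subr 487 520 h2)⟩
noncomputable def bf3q2_15 : Fn2 := ⟨_, _, fun h1 h2 => (enc_mul (enc_norm (bf3q2_3.enc h1 h2)) (enc_norm (enc_subr 328267 10000 (enc_scaleT 6853 250 h1))))⟩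
noncomputable def bf3q2 : Fn2 := ⟨_, _, fun h1 h2 => (enc_norm (enc_case (enc_subr 577 500 h1) (enc_case (enc_subr 21 20 h1) (enc_add (enc_add (enc_scaleT 248 625 h1) (enc_rat _ 26609 50000)) (bf3q2_15.enc h1 h2)) (enc_add (enc_add (enc_scaleT 2063 5200 h1) (enc_rat _ 1383857 2600000)) (enc_mul (enc_norm (bf3q2_3.enc h1 h2)) (enc_norm (enc_subr 1313089 40000 (enc_scaleT 2193 80 h1)))))) (enc_case (enc_subr 231 200 h1) (enc_add (enc_add (enc_scaleT 39 100 h1) (enc_rat _ 27001 50000)) (enc_mul (enc_norm (bf3q2_3.enc h1 h2)) (enc_norm (enc_subr 20508 625 (enc_scaleT 137 5 h1))))) (enc_case (enc_subr 13 10 h1) (enc_add (enc_add (enc_scaleT 5753 14500 h1) (enc_rat _ 77171 145000)) (enc_mul (enc_norm (bf3q2_3.enc h1 h2)) (enc_norm (enc_subr 9519639 290000 (enc_scaleT 39747 1450 h1))))) (enc_add (enc_add (enc_scaleT 1587 4000 h1) (enc_rat _ 21289 40000)) (bf3q2_15.enc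 h1 h2))))))⟩
noncomputable def kf3q2 : Fn2 := ⟨_, _, fun h1 h2 => (enc_norm (enc_mul (cv3p.enc h1) (bf3q2.enc h1 h2)))⟩
noncomputable def bx3q2_3 : Fn2 := ⟨_, _, fun h1 h2 => (enc_subr 487 520 h2)⟩
noncomputable def bx3q2 : Fn2 := ⟨_, _, fun h1 h2 => (enc_norm (enc_case (enc_subr 577 500 h1) (enc_case (enc_subr 21 20 h1) (enc_add (enc_subr 42567 100000 (enc_scaleT 2641 5000 h1)) (enc_mul (enc_norm (bx3q2_3.enc h1 h2)) (enc_norm (enc_sub (enc_rat _ 19719 10000) (enc_scaleT 57 50 h1))))) (enc_add (enc_subr 2214387 5200000 (enc_scaleT 1099 2080 h1)) (enc_mul (enc_norm (bx3q2_3.enc h1 h2)) (enc_norm (enc_sub (enc_rat _ 1025073 520000) (enc_scaleT 237 208 h1)))))) (enc_case (enc_subr 231 200 h1) (enc_add (enc_subr 41619 100000 (enc_scaleT 13 25 h1)) (enc_mul (enc_norm (bx3q2_3.enc h1 h2)) (enc_norm (enc_sub (enc_rat _ 5103 2500) (enc_scaleT 6 5 h1))))) (enc_case (enc_subr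 13 10 h1) (enc_add (enc_subr 38634 90625 (enc_scaleT 7667 14500 h1)) (enc_mul (enc_norm (bx3q2_3.enc h1 h2)) (enc_norm (enc_sub (enc_rat _ 571389 290000) (enc_scaleT 1651 1450 h1))))) (enc_add (enc_subr 72497 100000 (enc_scaleT 1517 2000 h1)) (enc_mul (enc_norm (bx3q2_3.enc h1 h2)) (enc_norm (enc_sub (enc_rat _ 39507 20000) (enc_scaleT 457 400 h1)))))))))⟩
noncomputable def l3q2 : Fn2 := ⟨_, _, fun h1 h2 => (enc_norm (enc_mul (cv3p.enc h1) (bx3q2.enc h1 h2)))⟩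
noncomputable def bd3q2_3 : Fn2 := ⟨_, _, fun h1 h2 => (enc_subr 487 520 h2)⟩
noncomputable def bd3q2 : Fn2 := ⟨_, _, fun h1 h2 => (enc_norm (enc_case (enc_subr 10433 10000 h1) (enc_add (enc_subr 208301 4330000 (enc_scaleT 402 433 h1)) (enc_mul (enc_norm (bd3q2_3.enc h1 h2)) (enc_norm (enc_sub (enc_rat _ 108424063 433000) (enc_scaleT 51220 433 h1))))) (enc_case (enc_subr 231 200 h1) (enc_add (enc_subr 505737 11170000 (enc_scaleT 1034 1117 h1)) (enc_mul (enc_norm (bd3q2_3.enc h1 h2)) (enc_norm (enc_sub (enc_rat _ 139848971 558500) (enc_scaleT 132130 1117 h1))))) (enc_add (enc_subr 2119 46000 (enc_scaleT 1598 1725 h1)) (enc_mul (enc_norm (bd3q2_3.enc h1 h2)) (enc_norm (enc_sub (enc_rat _ 719883 2875) (enc_scaleT 40808 345 h1))))))))⟩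
noncomputable def kc3q2 : Fn2 := ⟨_, _, fun h1 h2 => (enc_norm (enc_mul (cv3p.enc h1) (bd3q2.enc h1 h2)))⟩
noncomputable def ycg : Fn1 := ⟨_, _, fun h1 => (enc_sqrtg (enc_scaleT 4 3 (enc_sub (enc_pnc _ 3) (enc_sq h1))))⟩
noncomputable def xc33 : Fn1 := ⟨_, _, fun h1 => (enc_norm (enc_add (enc_scaleT 8907 10000 (enc_subr 1 2 (swg.enc (ycg.enc h1)))) (enc_scaleT 1093 10000 h1)))⟩
noncomputable def kfc33_6 : Fn2 := ⟨_, _, fun h1 h2 => (enc_subr 1 2 (swg.enc (ycg.enc h1)))⟩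
noncomputable def kfc33_9 : Fn2 := ⟨_, _, fun h1 h2 => (enc_add (enc_scaleT 8907 10000 (kfc33_6.enc h1 h2)) (enc_scaleT 1093 10000 h1))⟩
noncomputable def kfc33_11 : Fn2 := ⟨_, _, fun h1 h2 => (enc_subr 487 520 h2)⟩
noncomputable def kfc33_13 : Fn2 := ⟨_, _, fun h1 h2 => (enc_subr 9 5 (ycg.enc h1))⟩
noncomputable def kfc33_37 : Fn2 := ⟨_, _, fun h1 h2 => (enc_sub (enc_rat _ 122167917 500000000) h1)⟩
noncomputable def kfc33_61 : Fn2 := ⟨_, _, fun h1 h2 => (enc_subn 1 (ycg.enc h1))⟩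
noncomputable def kfc33_62 : Fn2 := ⟨_, _, fun h1 h2 => (gsg.enc (enc_norm (kfc33_61.enc h1 h2)))⟩
noncomputable def kfc33_63 : Fn2 := ⟨_, _, fun h1 h2 => (enc_scaleT 3 4 (kfc33_61.enc h1 h2))⟩
noncomputable def kfc33_64 : Fn2 := ⟨_, _, fun h1 h2 => (enc_half (kfc33_62.enc h1 h2))⟩
noncomputable def kfc33_66 : Fn2 := ⟨_, _, fun h1 h2 => (esg.enc (enc_norm (kfc33_61.enc h1 h2)))⟩
noncomputable def kfc33_67 : Fn2 := ⟨_, _, fun h1 h2 => (kcg.enc (enc_norm (enc_sub (kfc33_63.enc h1 h2) (kfc33_64.enc h1 h2))) h2)⟩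
noncomputable def kfc33_69 : Fn2 := ⟨_, _, fun h1 h2 => (enc_subn 2 (ycg.enc h1))⟩
noncomputable def kfc33_76 : Fn2 := ⟨_, _, fun h1 h2 => (enc_sub (enc_sub (kfc33_64.enc h1 h2) (kfc33_63.enc h1 h2)) (enc_sub (enc_rat _ 1 4) (enc_scaleT 3 8 (enc_mul (enc_norm (kfc33_61.enc h1 h2)) (enc_inv (kfc33_62.enc h1 h2))))))⟩
noncomputable def kfc33_82 : Fn2 := ⟨_, _, fun h1 h2 => (cv2r.enc (ycg.enc h1))⟩
noncomputable def kfc33_88 : Fn2 := ⟨_, _, fun h1 h2 => (enc_sub (enc_rat _ 40087 4000) (enc_scaleT 15377 3000 (ycg.enc h1)))⟩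
noncomputable def kfc33_139 : Fn2 := ⟨_, _, fun h1 h2 => (enc_mul (kfc33_82.enc h1 h2) (enc_norm (enc_case (enc_subr 48 25 (ycg.enc h1)) (enc_case (kfc33_13.enc h1 h2) (enc_add (kfc33_88.enc h1 h2) (enc_mul (enc_norm (kfc33_11.enc h1 h2)) (enc_norm (enc_subr 29429 500 (enc_scaleT 7139 250 (ycg.enc h1)))))) (enc_add (kfc33_88.enc h1 h2) (enc_mul (enc_norm (kfc33_11.enc h1 h2)) (enc_norm (enc_subr 36787 625 (enc_scaleT 8567 300 (ycg.enc h1))))))) (enc_case (enc_subr 49 25 (ycg.enc h1)) (enc_add (enc_sub (enc_rat _ 1002191 100000) (enc_scaleT 20503 4000 (ycg.enc h1))) (enc_mul (enc_norm (kfc33_11.enc h1 h2)) (enc_norm (enc_subr 7357 125 (enc_scaleT 5711 200 (ycg.enc h1)))))) (enc_case (kfc33_37.enc h1 h2) (enc_add (enc_subr 1766793757339 3344597500000 (enc_scaleT 5865200 4013517 h1)) (enc_mul (enc_norm (kfc33_11.enc h1 h2)) (enc_norm (enc_subr 27210221687 334459750000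 (enc_neg (enc_scaleT 32684000 4013517 h1)))))) (enc_add (enc_subr 6603 12500 (enc_scaleT 178525000 122167917 h1)) (enc_mul (enc_norm (kfc33_11.enc h1 h2)) (enc_norm (enc_subr 809 10000 (enc_neg (enc_scaleT 331700000 40722639 h1)))))))))))⟩
noncomputable def kfc33 : Fn2 := ⟨_, _, fun h1 h2 => (enc_norm (enc_case (enc_subr 19181 10000 (ycg.enc h1)) (enc_mul (enc_norm (kfc33_9.enc h1 h2)) (enc_norm (enc_case (kfc33_13.enc h1 h2) (enc_add (enc_subr 6539 4000 (enc_scaleT 21643 30000 (ycg.enc h1))) (enc_mul (enc_norm (kfc33_11.enc h1 h2)) (enc_norm (enc_sub (enc_rat _ 540183 5000) (enc_scaleT 165577 3000 (ycg.enc h1)))))) (enc_add (enc_subr 1930338373 1181000000 (enc_scaleT 170369067 236200000 (ycg.enc h1))) (enc_mul (enc_norm (kfc33_11.enc h1 h2)) (enc_norm (enc_sub (enc_rat _ 15948971109 147625000) (enc_scaleT 1629561201 29525000 (ycg.enc h1))))))))) (enc_case (enc_subr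 19567 10000 (ycg.enc h1)) (enc_add (kfc33_139.enc h1 h2) (enc_mul (enc_norm (enc_mul (enc_norm (enc_sub (enc_wB3 (enc_mul (enc_norm (kfc33_69.enc h1 h2)) (enc_norm (enc_add (enc_mul (enc_norm (kfc33_76.enc h1 h2)) (enc_inv (kfc33_66.enc h1 h2))) (kfc33_67.enc h1 h2)))) (kfc33_61.enc h1 h2) (kfc33_62.enc h1 h2) (kfc33_66.enc h1 h2) (kfc33_69.enc h1 h2) (kfc33_76.enc h1 h2) (kfc33_67.enc h1 h2) (ycg.enc h1) rfl rfl rfl rfl rfl) (kfc33_139.enc h1 h2))) (enc_norm (enc_sub (kfc33_9.enc h1 h2) (kfc33_82.enc h1 h2))))) (enc_inv (enc_sub (kfc33_6.enc h1 h2) (kfc33_82.enc h1 h2))))) (enc_mul (enc_norm (kfc33_9.enc h1 h2)) (enc_norm (enc_case (kfc33_37.enc h1 h2) (enc_add (enc_subr 134065796251563 11887971875000000 (enc_neg (enc_scaleT 13441244 95103775 h1))) (enc_mul (enc_norm (kfc33_11.enc h1 h2)) (enc_norm (enc_subr 235246893866342037 9510377500000000 (enc_scaleT 1394672361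 19020755 h1))))) (enc_sub (enc_sub (enc_rat _ 1 2) (enc_scaleT 272905000 122167917 h1)) (enc_mul (enc_norm (kfc33_11.enc h1 h2)) (enc_scaleT 378900000 13574213 h1)))))))))⟩
noncomputable def lc33_6 : Fn2 := ⟨_, _, fun h1 h2 => (enc_subr 1 2 (swg.enc (ycg.enc h1)))⟩
noncomputable def lc33_9 : Fn2 := ⟨_, _, fun h1 h2 => (enc_add (enc_scaleT 8907 10000 (lc33_6.enc h1 h2)) (enc_scaleT 1093 10000 h1))⟩
noncomputable def lc33_11 : Fn2 := ⟨_, _, fun h1 h2 => (enc_subr 487 520 h2)⟩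
noncomputable def lc33_13 : Fn2 := ⟨_, _, fun h1 h2 => (enc_subr 9 5 (ycg.enc h1))⟩
noncomputable def lc33_38 : Fn2 := ⟨_, _, fun h1 h2 => (enc_sq (enc_norm (lc33_11.enc h1 h2)))⟩
noncomputable def lc33_44 : Fn2 := ⟨_, _, fun h1 h2 => (enc_sub (enc_rat _ 122167917 500000000) h1)⟩
noncomputable def lc33_72 : Fn2 := ⟨_, _, fun h1 h2 => (enc_subn 1 (ycg.enc h1))⟩
noncomputable def lc33_85 : Fn2 := ⟨_, _, fun h1 h2 => (cv2r.enc (ycg.enc h1))⟩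
noncomputable def lc33_142 : Fn2 := ⟨_, _, fun h1 h2 => (enc_mul (lc33_85.enc h1 h2) (enc_norm (enc_case (enc_subr 48 25 (ycg.enc h1)) (enc_case (lc33_13.enc h1 h2) (enc_add (enc_subr 15849 10000 (enc_scaleT 38251 30000 (ycg.enc h1))) (enc_mul (enc_norm (lc33_11.enc h1 h2)) (enc_norm (enc_subr 1959 1000 (enc_scaleT 1223 1000 (ycg.enc h1)))))) (enc_add (enc_subr 158499 100000 (enc_scaleT 15301 12000 (ycg.enc h1))) (enc_mul (enc_norm (lc33_11.enc h1 h2)) (enc_norm (enc_subr 12873 5000 (enc_scaleT 313 200 (ycg.enc h1))))))) (enc_case (enc_subr 49 25 (ycg.enc h1)) (enc_add (enc_subr 158483 100000 (enc_scaleT 51 40 (ycg.enc h1))) (enc_mul (enc_norm (lc33_11.enc h1 h2)) (enc_norm (enc_subr 124929 5000 (enc_scaleT 1059 80 (ycg.enc h1)))))) (enc_case (lc33_44.enc h1 h2) (enc_add (enc_add (enc_scaleT 683600 4013517 h1) (enc_rat _ 1430590772599 1672298750000)) (enc_mul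 (enc_norm (lc33_11.enc h1 h2)) (enc_norm (enc_sub (enc_rat _ 982065291837 334459750000) (enc_scaleT 7672000 1337839 h1))))) (enc_add (enc_add (enc_scaleT 6935000 40722639 h1) (enc_rat _ 85547 100000)) (enc_mul (enc_norm (lc33_11.enc h1 h2)) (enc_norm (enc_sub (enc_rat _ 7339 2500) (enc_scaleT 700250000 122167917 h1))))))))))⟩
noncomputable def lc33 : Fn2 := ⟨_, _, fun h1 h2 => (enc_norm (enc_case (enc_subr 19181 10000 (ycg.enc h1)) (enc_mul (enc_norm (lc33_9.enc h1 h2)) (enc_norm (enc_case (lc33_13.enc h1 h2) (enc_add (enc_subr 93527 100000 (enc_scaleT 8987 10000 (ycg.enc h1))) (enc_mul (enc_norm (lc33_11.enc h1 h2)) (enc_norm (enc_sub (enc_rat _ 20071 10000) (enc_scaleT 3491 3000 (ycg.enc h1)))))) (enc_add (enc_add (enc_subr 5522339861 5905000000 (enc_scaleT 1061316979 1181000000 (ycg.enc h1))) (enc_mul (enc_norm (lc33_11.enc h1 h2)) (enc_norm (enc_subr 18431348519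 590500000 (enc_scaleT 2042186641 118100000 (ycg.enc h1)))))) (enc_mul (lc33_38.enc h1 h2) (enc_norm (enc_sub (enc_rat _ 194877 295250) (enc_scaleT 21653 59050 (ycg.enc h1))))))))) (enc_case (enc_subr 19567 10000 (ycg.enc h1)) (enc_add (lc33_142.enc h1 h2) (enc_mul (enc_norm (enc_mul (enc_norm (enc_sub (enc_sub (qsg.enc (enc_norm (lc33_72.enc h1 h2))) (enc_mul (enc_norm (enc_nat 2 (enc_sub (lc33_72.enc h1 h2) h2))) (enc_norm (enc_mul (esg.enc (enc_norm (lc33_72.enc h1 h2))) (kcg.enc (enc_norm (enc_sub (enc_scaleT 3 4 (lc33_72.enc h1 h2)) (enc_half (gsg.enc (enc_norm (lc33_72.enc h1 h2)))))) h2))))) (lc33_142.enc h1 h2))) (enc_norm (enc_sub (lc33_9.enc h1 h2) (lc33_85.enc h1 h2))))) (enc_inv (enc_sub (lc33_6.enc h1 h2) (lc33_85.enc h1 h2))))) (enc_mul (enc_norm (lc33_9.enc h1 h2)) (enc_norm (enc_case (lc33_44.enc h1 h2) (enc_add (enc_add (enc_sub (enc_rat _ 1217203950910943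 1485996484375000) (enc_scaleT 3470528 95103775 h1)) (enc_mul (enc_norm (lc33_11.enc h1 h2)) (enc_norm (enc_add (enc_scaleT 6785717 57062265 h1) (enc_rat _ 19472917612752837 9510377500000000))))) (enc_mul (lc33_38.enc h1 h2) (enc_norm (enc_subr 29120229754593 19020755000000 (enc_scaleT 71508700 11412453 h1))))) (enc_add (enc_add (enc_scaleT 145987750 366503751 h1) (enc_rat _ 4277249 6000000)) (enc_mul (enc_norm (lc33_11.enc h1 h2)) (enc_norm (enc_sub (enc_rat _ 210709 75000) (enc_scaleT 1099280000 366503751 h1)))))))))))⟩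
noncomputable def kcc33_6 : Fn2 := ⟨_, _, fun h1 h2 => (enc_subr 1 2 (swg.enc (ycg.enc h1)))⟩
noncomputable def kcc33_9 : Fn2 := ⟨_, _, fun h1 h2 => (enc_add (enc_scaleT 8907 10000 (kcc33_6.enc h1 h2)) (enc_scaleT 1093 10000 h1))⟩
noncomputable def kcc33_11 : Fn2 := ⟨_, _, fun h1 h2 => (enc_subr 487 520 h2)⟩
noncomputable def kcc33_34 : Fn2 := ⟨_, _, fun h1 h2 => (enc_subn 1 (ycg.enc h1))⟩
noncomputable def kcc33_35 : Fn2 := ⟨_, _, fun h1 h2 => (gsg.enc (enc_norm (kcc33_34.enc h1 h2)))⟩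
noncomputable def kcc33_39 : Fn2 := ⟨_, _, fun h1 h2 => (esg.enc (enc_norm (kcc33_34.enc h1 h2)))⟩
noncomputable def kcc33_44 : Fn2 := ⟨_, _, fun h1 h2 => (gug.enc (enc_norm (kcc33_34.enc h1 h2)))⟩
noncomputable def kcc33_46 : Fn2 := ⟨_, _, fun h1 h2 => (enc_mul (enc_norm (kcc33_34.enc h1 h2)) (enc_inv (kcc33_35.enc h1 h2)))⟩
noncomputable def kcc33_47 : Fn2 := ⟨_, _, fun h1 h2 => (enc_scaleT 3 4 (kcc33_46.enc h1 h2))⟩
noncomputable def kcc33_73 : Fn2 := ⟨_, _, fun h1 h2 => (cv2r.enc (ycg.enc h1))⟩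
noncomputable def kcc33_87 : Fn2 := ⟨_, _, fun h1 h2 => (enc_subr 19567 10000 (ycg.enc h1))⟩
noncomputable def kcc33_109 : Fn2 := ⟨_, _, fun h1 h2 => (enc_mul (kcc33_73.enc h1 h2) (enc_norm (enc_case (enc_subr 47 25 (ycg.enc h1)) (enc_add (enc_subr 281919 19000 (enc_scaleT 7048 475 (ycg.enc h1))) (enc_mul (enc_norm (kcc33_11.enc h1 h2)) (enc_norm (enc_sub (enc_rat _ 453541 9500) (enc_scaleT 9071 190 (ycg.enc h1)))))) (enc_case (kcc33_87.enc h1 h2) (enc_add (enc_subr 56906271 3835000 (enc_scaleT 11381 767 (ycg.enc h1))) (enc_mul (enc_norm (kcc33_11.enc h1 h2)) (enc_norm (enc_sub (enc_rat _ 18310431 383500) (enc_scaleT 36620 767 (ycg.enc h1)))))) (enc_add (enc_add (enc_scaleT 3213275000 89615091 h1) (enc_rat _ 839 625)) (enc_mul (enc_norm (kcc33_11.enc h1 h2)) (enc_norm (enc_subr 5249 50 (enc_scaleT 4942000000 29871697 h1)))))))))⟩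
noncomputable def kcc33 : Fn2 := ⟨_, _, fun h1 h2 => (enc_norm (enc_case (enc_subr 19181 10000 (ycg.enc h1)) (enc_mul (enc_norm (kcc33_9.enc h1 h2)) (enc_norm (enc_add (enc_subr 378379541 8362000000 (enc_scaleT 3870908847 4181000000 (ycg.enc h1))) (enc_mul (enc_norm (kcc33_11.enc h1 h2)) (enc_norm (enc_sub (enc_rat _ 335012963 1337920) (enc_scaleT 1978230137 16724000 (ycg.enc h1)))))))) (enc_case (kcc33_87.enc h1 h2) (enc_add (kcc33_109.enc h1 h2) (enc_mul (enc_norm (enc_mul (enc_norm (enc_sub (enc_add (enc_sub (enc_add (enc_add (enc_rat _ 3 4) (enc_scaleT 3 2 (kcc33_34.enc h1 h2))) (enc_scaleT 3 4 (enc_mul (enc_norm (kcc33_46.enc h1 h2)) (kcc33_44.enc h1 h2)))) (enc_wT (enc_mul (enc_norm (enc_sub (enc_mul (enc_norm (enc_mul (enc_norm (kcc33_47.enc h1 h2)) (enc_norm (enc_subn 3 (enc_nat 4 (kcc33_35.enc h1 h2)))))) (kcc33_39.enc h1 h2)) (enc_mul (qsg.enc (enc_norm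 (kcc33_34.enc h1 h2))) (enc_norm (enc_sub (enc_rat _ 1 2) (kcc33_47.enc h1 h2)))))) (enc_inv (enc_mul (enc_nat 2 (kcc33_39.enc h1 h2)) (kcc33_39.enc h1 h2)))) (kcc33_34.enc h1 h2) (kcc33_35.enc h1 h2) (kcc33_39.enc h1 h2) rfl rfl rfl rfl)) (enc_mul (kcg.enc (enc_norm (enc_sub (enc_scaleT 3 4 (kcc33_34.enc h1 h2)) (enc_half (kcc33_35.enc h1 h2)))) h2) (enc_norm (enc_sub (enc_pnc _ 1) (enc_add (kcc33_44.enc h1 h2) (enc_nat 2 (kcc33_35.enc h1 h2))))))) (kcc33_109.enc h1 h2))) (enc_norm (enc_sub (kcc33_9.enc h1 h2) (kcc33_73.enc h1 h2))))) (enc_inv (enc_sub (kcc33_6.enc h1 h2) (kcc33_73.enc h1 h2))))) (enc_mul (enc_norm (kcc33_9.enc h1 h2)) (enc_norm (enc_add (enc_add (enc_scaleT 8133043644523 598628807880 h1) (enc_rat _ 17111 3340)) (enc_mul (enc_norm (kcc33_11.enc h1 h2)) (enc_norm (enc_subr 11091 334 (enc_scaleT 8203480732931 59862880788 h1))))))))))⟩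
noncomputable def cv4m : Fn1 := ⟨_, _, fun h1 => (enc_norm (enc_add (enc_scaleT 3 10 (enc_add (swg.enc h1) (enc_rat _ 1 2))) (enc_scaleT 7 10 (c3g.enc h1))))⟩
noncomputable def bf4q0_3 : Fn2 := ⟨_, _, fun h1 h2 => (enc_subr 487 520 h2)⟩
noncomputable def bf4q0_12 : Fn2 := ⟨_, _, fun h1 h2 => (enc_scaleT 2551 100 h1)⟩
noncomputable def bf4q0_33 : Fn2 := ⟨_, _, fun h1 h2 => (enc_sub (enc_rat _ 4773 20000) (enc_scaleT 1609 4000 h1))⟩
noncomputable def bf4q0_45 : Fn2 := ⟨_, _, fun h1 h2 => (enc_mul (enc_norm (bf4q0_3.enc h1 h2)) (enc_norm (enc_subr 37591 30000 (enc_scaleT 15307 600 h1))))⟩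
noncomputable def bf4q0 : Fn2 := ⟨_, _, fun h1 h2 => (enc_norm (enc_case (enc_subr 1 25 h1) (enc_case (enc_subr 1 50 h1) (enc_add (enc_sub (enc_rat _ 4773 20000) (enc_scaleT 201 500 h1)) (enc_mul (enc_norm (bf4q0_3.enc h1 h2)) (enc_norm (enc_subr 1253 1000 (bf4q0_12.enc h1 h2))))) (enc_add (enc_sub (enc_rat _ 11933 50000) (enc_scaleT 161 400 h1)) (enc_mul (enc_norm (bf4q0_3.enc h1 h2)) (enc_norm (enc_subr 12531 10000 (enc_scaleT 5103 200 h1)))))) (enc_case (enc_subr 2 25 h1) (enc_add (bf4q0_33.enc h1 h2) (enc_mul (enc_norm (bf4q0_3.enc h1 h2)) (enc_norm (enc_subr 12529 10000 (bf4q0_12.enc h1 h2))))) (enc_case (enc_subr 1 5 h1) (enc_add (bf4q0_33.enc h1 h2) (bf4q0_45.enc h1 h2)) (enc_add (enc_sub (enc_rat _ 35797 150000) (enc_scaleT 12067 30000 h1)) (bf4q0_45.enc h1 h2))))))⟩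
noncomputable def kf4q0 : Fn2 := ⟨_, _, fun h1 h2 => (enc_norm (enc_mul (cv4m.enc h1) (bf4q0.enc h1 h2)))⟩
noncomputable def bx4q0_3 : Fn2 := ⟨_, _, fun h1 h2 => (enc_subr 487 520 h2)⟩
noncomputable def bx4q0_16 : Fn2 := ⟨_, _, fun h1 h2 => (enc_mul (enc_norm (bx4q0_3.enc h1 h2)) (enc_norm (enc_sub (enc_rat _ 652 625) (enc_scaleT 209 200 h1))))⟩
noncomputable def bx4q0 : Fn2 := ⟨_, _, fun h1 h2 => (enc_norm (enc_case (enc_subr 1 25 h1) (enc_case (enc_subr 1 50 h1) (enc_add (enc_sub (enc_rat _ 826 3125) (enc_scaleT 529 2000 h1)) (bx4q0_16.enc h1 h2)) (enc_add (enc_sub (enc_rat _ 26431 100000) (enc_scaleT 33 125 h1)) (bx4q0_16.enc h1 h2))) (enc_case (enc_subr 2 25 h1) (enc_add (enc_sub (enc_rat _ 826 3125) (enc_scaleT 1057 4000 h1)) (bx4q0_16.enc h1 h2)) (enc_case (enc_subr 1 5 h1) (enc_add (enc_sub (enc_rat _ 39647 150000) (enc_scaleT 317 1200 h1)) (enc_mul (enc_norm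 (bx4q0_3.enc h1 h2)) (enc_norm (enc_sub (enc_rat _ 15649 15000) (enc_scaleT 251 240 h1))))) (enc_add (enc_sub (enc_rat _ 826 3125) (enc_scaleT 1321 5000 h1)) (enc_mul (enc_norm (bx4q0_3.enc h1 h2)) (enc_norm (enc_sub (enc_rat _ 31291 30000) (enc_scaleT 1567 1500 h1)))))))))⟩
noncomputable def l4q0 : Fn2 := ⟨_, _, fun h1 h2 => (enc_norm (enc_mul (cv4m.enc h1) (bx4q0.enc h1 h2)))⟩
noncomputable def bd4q0_3 : Fn2 := ⟨_, _, fun h1 h2 => (enc_subr 487 520 h2)⟩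
noncomputable def bd4q0 : Fn2 := ⟨_, _, fun h1 h2 => (enc_norm (enc_case (enc_subr 433 10000 h1) (enc_add (enc_sub (enc_rat _ 8847 1000) (enc_scaleT 3830 433 h1)) (enc_mul (enc_norm (bd4q0_3.enc h1 h2)) (enc_norm (enc_sub (enc_rat _ 106837 1000) (enc_scaleT 46260 433 h1))))) (enc_case (enc_subr 7 50 h1) (enc_add (enc_sub (enc_rat _ 17110239 1934000) (enc_scaleT 8555 967 h1)) (enc_mul (enc_norm (bd4q0_3.enc h1 h2)) (enc_norm (enc_sub (enc_rat _ 2582784 24175) (enc_scaleT 103310 967 h1))))) (enc_add (enc_sub (enc_rat _ 9953 1125) (enc_scaleT 637 72 h1)) (enc_mul (enc_norm (bd4q0_3.enc h1 h2)) (enc_norm (enc_sub (enc_rat _ 1923067 18000) (enc_scaleT 38461 360 h1))))))))⟩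
noncomputable def kc4q0 : Fn2 := ⟨_, _, fun h1 h2 => (enc_norm (enc_mul (cv4m.enc h1) (bd4q0.enc h1 h2)))⟩
noncomputable def bf4q1_3 : Fn2 := ⟨_, _, fun h1 h2 => (enc_subr 487 520 h2)⟩
noncomputable def bf4q1 : Fn2 := ⟨_, _, fun h1 h2 => (enc_norm (enc_case (enc_subr 17 20 h1) (enc_add (enc_subr 16803 28000 (enc_scaleT 14001 8750 h1)) (enc_mul (enc_norm (bf4q1_3.enc h1 h2)) (enc_norm (enc_subr 116463 35000 (enc_scaleT 5823 1750 h1))))) (enc_case (enc_subr 24 25 h1) (enc_add (enc_subr 20628 34375 (enc_scaleT 17601 11000 h1)) (enc_mul (enc_norm (bf4q1_3.enc h1 h2)) (enc_norm (enc_subr 366097 110000 (enc_scaleT 3661 1100 h1))))) (enc_add (enc_subr 3 5 (enc_scaleT 8 5 h1)) (enc_mul (enc_norm (bf4q1_3.enc h1 h2)) (enc_norm (enc_subr 1331 400 (enc_scaleT 1331 400 h1))))))))⟩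
noncomputable def kf4q1 : Fn2 := ⟨_, _, fun h1 h2 => (enc_norm (enc_mul (cv4m.enc h1) (bf4q1.enc h1 h2)))⟩
noncomputable def bx4q1_3 : Fn2 := ⟨_, _, fun h1 h2 => (enc_subr 487 520 h2)⟩
noncomputable def bx4q1 : Fn2 := ⟨_, _, fun h1 h2 => (enc_norm (enc_case (enc_subr 17 20 h1) (enc_add (enc_sub (enc_rat _ 13221 50000) (enc_scaleT 661 2500 h1)) (enc_mul (enc_norm (bx4q1_3.enc h1 h2)) (enc_norm (enc_sub (enc_rat _ 72969 70000) (enc_scaleT 913 875 h1))))) (enc_case (enc_subr 24 25 h1) (enc_add (enc_sub (enc_rat _ 145499 550000) (enc_scaleT 291 1100 h1)) (enc_mul (enc_norm (bx4q1_3.enc h1 h2)) (enc_norm (enc_sub (enc_rat _ 11409 11000) (enc_scaleT 1141 1100 h1))))) (enc_add (enc_sub (enc_rat _ 529 2000) (enc_scaleT 529 2000 h1)) (enc_mul (enc_norm (bx4q1_3.enc h1 h2)) (enc_norm (enc_sub (enc_rat _ 207 200) (enc_scaleT 207 200 h1))))))))⟩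
noncomputable def l4q1 : Fn2 := ⟨_, _, fun h1 h2 => (enc_norm (enc_mul (cv4m.enc h1) (bx4q1.enc h1 h2)))⟩
noncomputable def bd4q1_3 : Fn2 := ⟨_, _, fun h1 h2 => (enc_subr 487 520 h2)⟩
noncomputable def bd4q1 : Fn2 := ⟨_, _, fun h1 h2 => (enc_norm (enc_case (enc_subr 9 10 h1) (enc_add (enc_sub (enc_rat _ 8847 1000) (enc_scaleT 8847 1000 h1)) (enc_mul (enc_norm (bd4q1_3.enc h1 h2)) (enc_norm (enc_sub (enc_rat _ 427351 4000) (enc_scaleT 8547 80 h1))))) (enc_case (enc_subr 9567 10000 h1) (enc_add (enc_sub (enc_rat _ 1857787 210000) (enc_scaleT 1672 189 h1)) (enc_mul (enc_norm (bd4q1_3.enc h1 h2)) (enc_norm (enc_sub (enc_rat _ 1682773 15750) (enc_scaleT 60580 567 h1))))) (enc_add (enc_sub (enc_rat _ 3831 433) (enc_scaleT 3831 433 h1)) (enc_mul (enc_norm (bd4q1_3.enc h1 h2)) (enc_norm (enc_sub (enc_rat _ 46260 433) (enc_scaleT 46260 433 h1))))))))⟩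
noncomputable def kc4q1 : Fn2 := ⟨_, _, fun h1 h2 => (enc_norm (enc_mul (cv4m.enc h1) (bd4q1.enc h1 h2)))⟩
noncomputable def cv4p : Fn1 := ⟨_, _, fun h1 => (enc_norm (enc_add (enc_scaleT 3 10 (enc_subr 1 2 (swg.enc h1))) (enc_scaleT 7 10 (c3g.enc h1))))⟩
noncomputable def bf4q2_3 : Fn2 := ⟨_, _, fun h1 h2 => (enc_subr 487 520 h2)⟩
noncomputable def bf4q2 : Fn2 := ⟨_, _, fun h1 h2 => (enc_norm (enc_case (enc_subr 577 500 h1) (enc_case (enc_subr 21 20 h1) (enc_add (enc_subr 149777 50000 (enc_scaleT 16383 5000 h1)) (enc_mul (enc_norm (bf4q2_3.enc h1 h2)) (enc_norm (enc_subr 422817 5000 (enc_scaleT 7277 100 h1))))) (enc_add (enc_subr 15575947 5200000 (enc_scaleT 1363 416 h1)) (enc_mul (enc_norm (bf4q2_3.enc h1 h2)) (enc_norm (enc_subr 43972023 520000 (enc_scaleT 75679 1040 h1)))))) (enc_case (enc_subr 231 200 h1) (enc_add (enc_subr 74987 25000 (enc_scaleT 82 25 h1))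 (enc_mul (enc_norm (bf4q2_3.enc h1 h2)) (enc_norm (enc_subr 422991 5000 (enc_scaleT 364 5 h1))))) (enc_case (enc_subr 13 10 h1) (enc_add (enc_subr 108581 36250 (enc_scaleT 11877 3625 h1)) (enc_mul (enc_norm (bf4q2_3.enc h1 h2)) (enc_norm (enc_subr 24522621 290000 (enc_scaleT 105513 1450 h1))))) (enc_add (enc_subr 59909 20000 (enc_scaleT 6553 2000 h1)) (enc_mul (enc_norm (bf4q2_3.enc h1 h2)) (enc_norm (enc_subr 845613 10000 (enc_scaleT 9096 125 h1)))))))))⟩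
noncomputable def kf4q2 : Fn2 := ⟨_, _, fun h1 h2 => (enc_norm (enc_mul (cv4p.enc h1) (bf4q2.enc h1 h2)))⟩
noncomputable def bx4q2_3 : Fn2 := ⟨_, _, fun h1 h2 => (enc_subr 487 520 h2)⟩
noncomputable def bx4q2 : Fn2 := ⟨_, _, fun h1 h2 => (enc_norm (enc_case (enc_subr 577 500 h1) (enc_case (enc_subr 21 20 h1) (enc_add (enc_subr 19387 50000 (enc_scaleT 203 625 h1)) (enc_mul (enc_norm (bx4q2_3.enc h1 h2)) (enc_norm (enc_sub (enc_rat _ 49 500) (enc_scaleT 223 500 h1))))) (enc_add (enc_subr 201629 520000 (enc_scaleT 1689 5200 h1)) (enc_mul (enc_norm (bx4q2_3.enc h1 h2)) (enc_norm (enc_sub (enc_rat _ 23947 260000) (enc_scaleT 229 520 h1)))))) (enc_case (enc_subr 231 200 h1) (enc_add (enc_subr 1911 5000 (enc_scaleT 8 25 h1)) (enc_mul (enc_norm (bx4q2_3.enc h1 h2)) (enc_norm (enc_sub (enc_rat _ 91 2000) (enc_scaleT 2 5 h1))))) (enc_case (enc_subr 13 10 h1) (enc_add (enc_subr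 225141 580000 (enc_scaleT 943 2900 h1)) (enc_mul (enc_norm (bx4q2_3.enc h1 h2)) (enc_norm (enc_sub (enc_rat _ 5341 290000) (enc_scaleT 273 725 h1))))) (enc_add (enc_subr 64847 100000 (enc_scaleT 2627 5000 h1)) (enc_mul (enc_norm (bx4q2_3.enc h1 h2)) (enc_norm (enc_subr 131999 20000 (enc_scaleT 9429 2000 h1)))))))))⟩
noncomputable def l4q2 : Fn2 := ⟨_, _, fun h1 h2 => (enc_norm (enc_mul (cv4p.enc h1) (bx4q2.enc h1 h2)))⟩
noncomputable def bd4q2_3 : Fn2 := ⟨_, _, fun h1 h2 => (enc_subr 487 520 h2)⟩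
noncomputable def bd4q2 : Fn2 := ⟨_, _, fun h1 h2 => (enc_norm (enc_case (enc_subr 10433 10000 h1) (enc_add (enc_subr 6105089 541250 (enc_scaleT 4405 433 h1)) (enc_mul (enc_norm (bd4q2_3.enc h1 h2)) (enc_norm (enc_sub (enc_rat _ 36478274 54125) (enc_scaleT 243060 433 h1))))) (enc_case (enc_subr 231 200 h1) (enc_add (enc_subr 25199743 2234000 (enc_scaleT 11364 1117 h1)) (enc_mul (enc_norm (bd4q2_3.enc h1 h2)) (enc_norm (enc_sub (enc_rat _ 752810739 1117000) (enc_scaleT 627010 1117 h1))))) (enc_add (enc_subr 324301 28750 (enc_scaleT 35099 3450 h1)) (enc_mul (enc_norm (bd4q2_3.enc h1 h2)) (enc_norm (enc_sub (enc_rat _ 673957 1000) (enc_scaleT 1684 3 h1))))))))⟩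
noncomputable def kc4q2 : Fn2 := ⟨_, _, fun h1 h2 => (enc_norm (enc_mul (cv4p.enc h1) (bd4q2.enc h1 h2)))⟩
noncomputable def xc43 : Fn1 := ⟨_, _, fun h1 => (enc_norm (enc_add (enc_scaleT 3 10 (enc_subr 1 2 (swg.enc (ycg.enc h1)))) (enc_scaleT 7 10 h1)))⟩
noncomputable def kfc43_11 : Fn2 := ⟨_, _, fun h1 h2 => (enc_subr 487 520 h2)⟩
noncomputable def kfc43_29 : Fn2 := ⟨_, _, fun h1 h2 => (enc_subr 492509 100000 (enc_scaleT 10543 4000 (ycg.enc h1)))⟩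
noncomputable def kfc43 : Fn2 := ⟨_, _, fun h1 h2 => (enc_norm (enc_mul (enc_norm (enc_add (enc_scaleT 3 10 (enc_subr 1 2 (swg.enc (ycg.enc h1)))) (enc_scaleT 7 10 h1))) (enc_norm (enc_case (enc_subr 48 25 (ycg.enc h1)) (enc_case (enc_subr 9 5 (ycg.enc h1)) (enc_add (enc_subr 246259 50000 (enc_scaleT 13179 5000 (ycg.enc h1))) (enc_mul (enc_norm (kfc43_11.enc h1 h2)) (enc_norm (enc_subr 2459 250 (enc_scaleT 1792 375 (ycg.enc h1)))))) (enc_add (kfc43_29.enc h1 h2) (enc_mul (enc_norm (kfc43_11.enc h1 h2)) (enc_norm (enc_subr 49177 5000 (enc_scaleT 2867 600 (ycg.enc h1))))))) (enc_case (enc_subr 49 25 (ycg.enc h1)) (enc_add (kfc43_29.enc h1 h2) (enc_mul (enc_norm (kfc43_11.enc h1 h2)) (enc_norm (enc_subr 49193 5000 (enc_scaleT 239 50 (ycg.enc h1)))))) (enc_case (enc_sub (enc_rat _ 122167917 500000000) h1) (enc_add (enc_sub (enc_rat _ 167226115317 334459750000) (enc_scaleT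 3016000 4013517 h1)) (enc_mul (enc_norm (kfc43_11.enc h1 h2)) (enc_norm (enc_subr 72847699 334459750000 (enc_neg (enc_scaleT 5468000 4013517 h1)))))) (enc_sub (enc_sub (enc_rat _ 1 2) (enc_scaleT 91810000 122167917 h1)) (enc_mul (enc_norm (kfc43_11.enc h1 h2)) (enc_scaleT 166550000 122167917 h1)))))))))⟩
noncomputable def lc43_11 : Fn2 := ⟨_, _, fun h1 h2 => (enc_subr 487 520 h2)⟩
noncomputable def lc43 : Fn2 := ⟨_, _, fun h1 h2 => (enc_norm (enc_mul (enc_norm (enc_add (enc_scaleT 3 10 (enc_subr 1 2 (swg.enc (ycg.enc h1)))) (enc_scaleT 7 10 h1))) (enc_norm (enc_case (enc_subr 48 25 (ycg.enc h1)) (enc_case (enc_subr 9 5 (ycg.enc h1)) (enc_add (enc_subr 158857 100000 (enc_scaleT 8641 7500 (ycg.enc h1))) (enc_mul (enc_norm (lc43_11.enc h1 h2)) (enc_norm (enc_subr 33561 5000 (enc_scaleT 1796 375 (ycg.enc h1)))))) (enc_add (enc_subr 158863 100000 (enc_scaleT 6913 6000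 (ycg.enc h1))) (enc_mul (enc_norm (lc43_11.enc h1 h2)) (enc_norm (enc_subr 16791 2500 (enc_scaleT 115 24 (ycg.enc h1))))))) (enc_case (enc_subr 49 25 (ycg.enc h1)) (enc_add (enc_subr 158831 100000 (enc_scaleT 144 125 (ycg.enc h1))) (enc_mul (enc_norm (lc43_11.enc h1 h2)) (enc_norm (enc_subr 3359 500 (enc_scaleT 1917 400 (ycg.enc h1)))))) (enc_case (enc_sub (enc_rat _ 122167917 500000000) h1) (enc_add (enc_sub (enc_rat _ 636670062811 836149375000) (enc_scaleT 356400 1337839 h1)) (enc_mul (enc_norm (lc43_11.enc h1 h2)) (enc_norm (enc_sub (enc_rat _ 942345147917 334459750000) (enc_scaleT 552000 1337839 h1))))) (enc_add (enc_sub (enc_rat _ 4277249 6000000) (enc_scaleT 24802250 366503751 h1)) (enc_mul (enc_norm (lc43_11.enc h1 h2)) (enc_norm (enc_sub (enc_rat _ 210709 75000) (enc_scaleT 139130000 366503751 h1)))))))))))⟩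
noncomputable def kcc43_11 : Fn2 := ⟨_, _, fun h1 h2 => (enc_subr 487 520 h2)⟩
noncomputable def kcc43 : Fn2 := ⟨_, _, fun h1 h2 => (enc_norm (enc_mul (enc_norm (enc_add (enc_scaleT 3 10 (enc_subr 1 2 (swg.enc (ycg.enc h1)))) (enc_scaleT 7 10 h1))) (enc_norm (enc_case (enc_subr 47 25 (ycg.enc h1)) (enc_add (enc_subr 2143149 190000 (enc_scaleT 38659 3800 (ycg.enc h1))) (enc_mul (enc_norm (kcc43_11.enc h1 h2)) (enc_norm (enc_sub (enc_rat _ 1600651 2375) (enc_scaleT 213307 380 (ycg.enc h1)))))) (enc_case (enc_subr 19567 10000 (ycg.enc h1)) (enc_add (enc_subr 86515279 7670000 (enc_scaleT 7803 767 (ycg.enc h1))) (enc_mul (enc_norm (kcc43_11.enc h1 h2)) (enc_norm (enc_sub (enc_rat _ 2067679 3068) (enc_scaleT 430540 767 (ycg.enc h1)))))) (enc_add (enc_add (enc_scaleT 146273050000 14965720197 h1) (enc_rat _ 17111 3340)) (enc_mul (enc_norm (kcc43_11.enc h1 h2)) (enc_norm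 (enc_subr 11091 334 (enc_neg (enc_scaleT 5444164000000 4988573399 h1)))))))))))⟩
noncomputable def kf5q0 : Fn2 := ⟨_, _, fun h1 h2 => (enc_norm (enc_sub (enc_mul h1 (kcg.enc (enc_half h1) h2)) (enc_mul (enc_norm (enc_mul (enc_sq h1) (enc_norm (enc_add (c3g.enc h1) (enc_rat _ 3 2))))) (enc_inv (enc_mul (enc_norm (enc_sub (enc_pnc _ 1) h1)) (enc_norm (enc_add (enc_pnc _ 1) h1)))))))⟩
noncomputable def l5q0_6 : Fn2 := ⟨_, _, fun h1 h2 => (enc_half h1)⟩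
noncomputable def l5q0_7 : Fn2 := ⟨_, _, fun h1 h2 => (enc_half (c3g.enc h1))⟩
noncomputable def l5q0_8 : Fn2 := ⟨_, _, fun h1 h2 => (enc_scaleT 1 4 h1)⟩
noncomputable def l5q0 : Fn2 := ⟨_, _, fun h1 h2 => (enc_norm (enc_add (txg.enc (l5q0_6.enc h1 h2) (enc_norm (enc_sub (l5q0_7.enc h1 h2) (l5q0_8.enc h1 h2))) h2) (txg.enc (enc_neg (l5q0_6.enc h1 h2)) (enc_norm (enc_add (l5q0_7.enc h1 h2) (l5q0_8.enc h1 h2))) h2)))⟩
noncomputable def kc5q0_3 : Fn2 := ⟨_, _, fun h1 h2 => (enc_subr 487 520 h2)⟩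
noncomputable def kc5q0_6 : Fn2 := ⟨_, _, fun h1 h2 => (enc_half h1)⟩
noncomputable def kc5q0 : Fn2 := ⟨_, _, fun h1 h2 => (enc_norm (enc_case (enc_subr 167 1000 (kc5q0_6.enc h1 h2)) (enc_add (enc_subr 23187 2000 (enc_scaleT 18022 835 h1)) (enc_mul (enc_norm (kc5q0_3.enc h1 h2)) (enc_norm (enc_subr 251301 1000 (enc_neg (enc_scaleT 20773 167 h1)))))) (enc_case (enc_subr 333 1000 (kc5q0_6.enc h1 h2)) (enc_add (enc_subr 9622577 830000 (enc_scaleT 8957 415 h1)) (enc_mul (enc_norm (kc5q0_3.enc h1 h2)) (enc_norm (enc_subr 10428959 41500 (enc_neg (enc_scaleT 20649 166 h1)))))) (enc_add (enc_sub (enc_rat _ 27809 3340) (enc_scaleT 27809 3340 h1)) (enc_mul (enc_norm (kc5q0_3.enc h1 h2)) (enc_norm (enc_subr 334145 334 (enc_scaleT 334145 334 h1))))))))⟩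
noncomputable def kf5q1 : Fn2 := ⟨_, _, fun h1 h2 => (enc_norm (enc_add (enc_mul (enc_norm (enc_mul h1 (enc_norm (enc_add (c3g.enc h1) (enc_rat _ 3 2))))) (enc_inv (enc_add (enc_pnc _ 1) h1))) (enc_mul (enc_norm (enc_subn 1 h1)) (kcg.enc (enc_half h1) h2))))⟩
noncomputable def l5q1_7 : Fn2 := ⟨_, _, fun h1 h2 => (enc_half h1)⟩
noncomputable def l5q1_8 : Fn2 := ⟨_, _, fun h1 h2 => (enc_half (c3g.enc h1))⟩
noncomputable def l5q1_9 : Fn2 := ⟨_, _, fun h1 h2 => (enc_scaleT 1 4 h1)⟩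
noncomputable def l5q1 : Fn2 := ⟨_, _, fun h1 h2 => (enc_norm (enc_add (txg.enc (l5q1_7.enc h1 h2) (enc_norm (enc_sub (l5q1_8.enc h1 h2) (l5q1_9.enc h1 h2))) h2) (txg.enc (enc_neg (l5q1_7.enc h1 h2)) (enc_norm (enc_add (l5q1_8.enc h1 h2) (l5q1_9.enc h1 h2))) h2)))⟩
noncomputable def kc5q1_3 : Fn2 := ⟨_, _, fun h1 h2 => (enc_subr 487 520 h2)⟩
noncomputable def kc5q1_7 : Fn2 := ⟨_, _, fun h1 h2 => (enc_half h1)⟩
noncomputable def kc5q1 : Fn2 := ⟨_, _, fun h1 h2 => (enc_norm (enc_case (enc_subr 167 1000 (kc5q1_7.enc h1 h2)) (enc_add (enc_subr 23187 2000 (enc_scaleT 18022 835 h1)) (enc_mul (enc_norm (kc5q1_3.enc h1 h2)) (enc_norm (enc_subr 251301 1000 (enc_neg (enc_scaleT 20773 167 h1)))))) (enc_case (enc_subr 333 1000 (kc5q1_7.enc h1 h2)) (enc_add (enc_subr 9622577 830000 (enc_scaleT 8957 415 h1)) (enc_mul (enc_norm (kc5q1_3.enc h1 h2)) (enc_norm (enc_subr 10428959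 41500 (enc_neg (enc_scaleT 20649 166 h1)))))) (enc_add (enc_sub (enc_rat _ 27809 3340) (enc_scaleT 27809 3340 h1)) (enc_mul (enc_norm (kc5q1_3.enc h1 h2)) (enc_norm (enc_subr 334145 334 (enc_scaleT 334145 334 h1))))))))⟩
noncomputable def kf5q2 : Fn2 := ⟨_, _, fun h1 h2 => (enc_norm (enc_add (enc_mul (enc_norm (enc_mul (enc_norm (enc_sub (enc_nat 2 (c3g.enc h1)) h1)) (enc_norm (enc_sub (enc_add (c3g.enc h1) (enc_pnc _ 3)) (enc_scaleT 3 2 h1))))) (enc_inv (enc_nat 4 (enc_sub (enc_pnc _ 2) h1)))) (enc_mul (enc_norm (enc_subn 1 h1)) (kcg.enc (enc_norm (enc_sub (enc_scaleT 1 4 h1) (enc_half (c3g.enc h1)))) h2))))⟩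
noncomputable def l5q2_7 : Fn2 := ⟨_, _, fun h1 h2 => (enc_half (c3g.enc h1))⟩
noncomputable def l5q2_8 : Fn2 := ⟨_, _, fun h1 h2 => (enc_scaleT 1 4 h1)⟩
noncomputable def l5q2_9 : Fn2 := ⟨_, _, fun h1 h2 => (enc_sub (l5q2_7.enc h1 h2) (l5q2_8.enc h1 h2))⟩
noncomputable def l5q2_12 : Fn2 := ⟨_, _, fun h1 h2 => (enc_add (enc_scaleT 1 4 (c3g.enc h1)) (enc_scaleT 3 8 h1))⟩
noncomputable def l5q2_14 : Fn2 := ⟨_, _, fun h1 h2 => (enc_half (l5q2_9.enc h1 h2))⟩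
noncomputable def l5q2 : Fn2 := ⟨_, _, fun h1 h2 => (enc_norm (enc_sub (enc_nat 2 (txg.enc (enc_norm (enc_sub (l5q2_8.enc h1 h2) (l5q2_7.enc h1 h2))) (enc_norm (enc_add (l5q2_12.enc h1 h2) (l5q2_14.enc h1 h2))) h2)) (txg.enc (enc_norm (l5q2_9.enc h1 h2)) (enc_norm (enc_sub (l5q2_12.enc h1 h2) (l5q2_14.enc h1 h2))) h2)))⟩
noncomputable def kc5q2_3 : Fn2 := ⟨_, _, fun h1 h2 => (enc_subr 487 520 h2)⟩
noncomputable def kc5q2_9 : Fn2 := ⟨_, _, fun h1 h2 => (enc_sub (enc_half (c3g.enc h1)) (enc_scaleT 1 4 h1))⟩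
noncomputable def kc5q2_48 : Fn2 := ⟨_, _, fun h1 h2 => (enc_add (enc_sub (enc_rat _ 2499 10000) (enc_scaleT 3664 835 (kc5q2_9.enc h1 h2))) (enc_mul (enc_norm (kc5q2_3.enc h1 h2)) (enc_norm (enc_subr 17981 250 (enc_neg (enc_scaleT 30508 167 (kc5q2_9.enc h1 h2)))))))⟩
noncomputable def kc5q2 : Fn2 := ⟨_, _, fun h1 h2 => (enc_norm (enc_case (kc5q2_9.enc h1 h2) (enc_case (enc_add (kc5q2_9.enc h1 h2) (enc_rat _ 333 1000)) (enc_add (enc_add (enc_scaleT 17111 1670 (kc5q2_9.enc h1 h2)) (enc_rat _ 17111 3340)) (enc_mul (enc_norm (kc5q2_3.enc h1 h2)) (enc_norm (enc_subr 11091 334 (enc_neg (enc_scaleT 11091 167 (kc5q2_9.enc h1 h2))))))) (enc_case (enc_add (kc5q2_9.enc h1 h2) (enc_rat _ 167 1000)) (enc_add (enc_sub (enc_rat _ 207427 830000) (enc_scaleT 1821 415 (kc5q2_9.enc h1 h2))) (enc_mul (enc_norm (kc5q2_3.enc h1 h2)) (enc_norm (enc_subr 11939331 166000 (enc_neg (enc_scaleT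 30325 166 (kc5q2_9.enc h1 h2))))))) (kc5q2_48.enc h1 h2))) (enc_case (enc_subr 167 1000 (kc5q2_9.enc h1 h2)) (kc5q2_48.enc h1 h2) (enc_case (enc_subr 333 1000 (kc5q2_9.enc h1 h2)) (enc_add (enc_sub (enc_rat _ 414981 1660000) (enc_scaleT 1457 332 (kc5q2_9.enc h1 h2))) (enc_mul (enc_norm (kc5q2_3.enc h1 h2)) (enc_norm (enc_subr 1193927 16600 (enc_neg (enc_scaleT 15163 83 (kc5q2_9.enc h1 h2))))))) (enc_add (enc_subr 6057 1670 (enc_scaleT 6057 835 (kc5q2_9.enc h1 h2))) (enc_mul (enc_norm (kc5q2_3.enc h1 h2)) (enc_norm (enc_subr 66379 167 (enc_scaleT 132758 167 (kc5q2_9.enc h1 h2))))))))))⟩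
noncomputable def kfc53 : Fn2 := ⟨_, _, fun h1 h2 => (enc_norm (enc_sub (enc_mul (enc_norm (enc_subn 2 (ycg.enc h1))) (kcg.enc (enc_norm (enc_sub (enc_scaleT 1 4 (ycg.enc h1)) (enc_half h1))) h2)) (enc_mul (enc_norm (enc_mul (enc_norm (enc_sub (enc_nat 2 h1) (ycg.enc h1))) (enc_norm (enc_sub (enc_add h1 (enc_pnc _ 3)) (enc_scaleT 3 2 (ycg.enc h1)))))) (enc_inv (enc_nat 4 (enc_subn 1 (ycg.enc h1)))))))⟩
noncomputable def lc53_7 : Fn2 := ⟨_, _, fun h1 h2 => (enc_half h1)⟩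
noncomputable def lc53_8 : Fn2 := ⟨_, _, fun h1 h2 => (enc_scaleT 1 4 (ycg.enc h1))⟩
noncomputable def lc53_9 : Fn2 := ⟨_, _, fun h1 h2 => (enc_sub (lc53_7.enc h1 h2) (lc53_8.enc h1 h2))⟩
noncomputable def lc53_12 : Fn2 := ⟨_, _, fun h1 h2 => (enc_add (enc_scaleT 1 4 h1) (enc_scaleT 3 8 (ycg.enc h1)))⟩
noncomputable def lc53_14 : Fn2 := ⟨_, _, fun h1 h2 => (enc_half (lc53_9.enc h1 h2))⟩
noncomputable def lc53 : Fn2 := ⟨_, _, fun h1 h2 => (enc_norm (enc_sub (enc_nat 2 (txg.enc (enc_norm (enc_sub (lc53_8.enc h1 h2) (lc53_7.enc h1 h2))) (enc_norm (enc_add (lc53_12.enc h1 h2) (lc53_14.enc h1 h2))) h2)) (txg.enc (enc_norm (lc53_9.enc h1 h2)) (enc_norm (enc_sub (lc53_12.enc h1 h2) (lc53_14.enc h1 h2))) h2)))⟩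
noncomputable def kcc53_4 : Fn2 := ⟨_, _, fun h1 h2 => (enc_subr 487 520 h2)⟩
noncomputable def kcc53_9 : Fn2 := ⟨_, _, fun h1 h2 => (enc_sub (enc_half h1) (enc_scaleT 1 4 (ycg.enc h1)))⟩
noncomputable def kcc53_48 : Fn2 := ⟨_, _, fun h1 h2 => (enc_add (enc_sub (enc_rat _ 2499 10000) (enc_scaleT 3664 835 (kcc53_9.enc h1 h2))) (enc_mul (enc_norm (kcc53_4.enc h1 h2)) (enc_norm (enc_subr 17981 250 (enc_neg (enc_scaleT 30508 167 (kcc53_9.enc h1 h2)))))))⟩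
noncomputable def kcc53 : Fn2 := ⟨_, _, fun h1 h2 => (enc_norm (enc_case (kcc53_9.enc h1 h2) (enc_case (enc_add (kcc53_9.enc h1 h2) (enc_rat _ 333 1000)) (enc_add (enc_add (enc_scaleT 17111 1670 (kcc53_9.enc h1 h2)) (enc_rat _ 17111 3340)) (enc_mul (enc_norm (kcc53_4.enc h1 h2)) (enc_norm (enc_subr 11091 334 (enc_neg (enc_scaleT 11091 167 (kcc53_9.enc h1 h2))))))) (enc_case (enc_add (kcc53_9.enc h1 h2) (enc_rat _ 167 1000)) (enc_add (enc_sub (enc_rat _ 207427 830000) (enc_scaleT 1821 415 (kcc53_9.enc h1 h2))) (enc_mul (enc_norm (kcc53_4.enc h1 h2)) (enc_norm (enc_subr 11939331 166000 (enc_neg (enc_scaleT 30325 166 (kcc53_9.enc h1 h2))))))) (kcc53_48.enc h1 h2))) (enc_case (enc_subr 167 1000 (kcc53_9.enc h1 h2)) (kcc53_48.enc h1 h2) (enc_case (enc_subr 333 1000 (kcc53_9.enc h1 h2)) (enc_add (enc_sub (enc_rat _ 414981 1660000) (enc_scaleT 1457 332 (kcc53_9.enc h1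 h2))) (enc_mul (enc_norm (kcc53_4.enc h1 h2)) (enc_norm (enc_subr 1193927 16600 (enc_neg (enc_scaleT 15163 83 (kcc53_9.enc h1 h2))))))) (enc_add (enc_subr 6057 1670 (enc_scaleT 6057 835 (kcc53_9.enc h1 h2))) (enc_mul (enc_norm (kcc53_4.enc h1 h2)) (enc_norm (enc_subr 66379 167 (enc_scaleT 132758 167 (kcc53_9.enc h1 h2))))))))))⟩
noncomputable def lm4m : Fn2 := ⟨_, _, fun h1 h2 => (enc_lam (enc_norm (enc_sub h1 (cv4m.enc h2))) (enc_sub (c3g.enc h2) (cv4m.enc h2)))⟩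
noncomputable def lm3m : Fn2 := ⟨_, _, fun h1 h2 => (enc_lam (enc_norm (enc_sub h1 (cv3m.enc h2))) (enc_sub (cv4m.enc h2) (cv3m.enc h2)))⟩
noncomputable def bf3q0_3 : Fn2 := ⟨_, _, fun h1 h2 => (enc_subr 487 520 h2)⟩
noncomputable def bf3q0 : Fn2 := ⟨_, _, fun h1 h2 => (enc_norm (enc_case (enc_subr 313 5000 h1) (enc_case (enc_subr 1 50 h1) (enc_add (enc_sub (enc_rat _ 44741 50000) (enc_scaleT 627 100 h1)) (enc_mul (enc_norm (bf3q0_3.enc h1 h2)) (enc_norm (enc_subr 31 100 (enc_scaleT 4207 100 h1))))) (enc_add (enc_sub (enc_rat _ 10424593421 11650000000) (enc_scaleT 1460850421 233000000 h1)) (enc_mul (enc_norm (bf3q0_3.enc h1 h2)) (enc_norm (enc_subr 180656263 582500000 (enc_scaleT 490196763 11650000 h1)))))) (enc_case (enc_subr 1 5 h1) (enc_add (enc_sub (enc_rat _ 238351571 295250000) (enc_scaleT 174754721 59050000 h1)) (enc_mul (enc_norm (bf3q0_3.enc h1 h2)) (enc_norm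 (enc_add (enc_scaleT 110829983 14762500 h1) (enc_rat _ 82481521 36906250))))) (enc_add (enc_sub (enc_rat _ 121093 150000) (enc_scaleT 88783 30000 h1)) (enc_mul (enc_norm (bf3q0_3.enc h1 h2)) (enc_norm (enc_add (enc_scaleT 7507 1000 h1) (enc_rat _ 447 200))))))))⟩
noncomputable def lm2m : Fn2 := ⟨_, _, fun h1 h2 => (enc_lam (enc_norm (enc_sub h1 (cv2m.enc h2))) (enc_sub (cv3m.enc h2) (cv2m.enc h2)))⟩
noncomputable def lm1m : Fn2 := ⟨_, _, fun h1 h2 => (enc_lam (enc_norm (enc_sub h1 (cv1m.enc h2))) (enc_sub (cv2m.enc h2) (cv1m.enc h2)))⟩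
noncomputable def lm0m : Fn2 := ⟨_, _, fun h1 h2 => (enc_lam (enc_norm (enc_sub h1 (c1g.enc h2))) (enc_sub (cv1m.enc h2) (c1g.enc h2)))⟩
noncomputable def rkbq0_36 : Fn3 := ⟨_, _, fun h1 h2 h3 => (enc_add (enc_mul h1 (bf3q0.enc h2 h3)) (enc_mul (enc_norm (enc_mul (enc_norm (enc_sub (enc_pnc _ 1) (lm2m.enc h1 h2))) (cv2m.enc h2))) (enc_norm (enc_sub (bf2q0.enc h2 h3) (bf3q0.enc h2 h3)))))⟩
noncomputable def rkbq0_38 : Fn3 := ⟨_, _, fun h1 h2 h3 => (enc_sub (enc_pnc _ 1) h2)⟩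
noncomputable def rkbq0_39 : Fn3 := ⟨_, _, fun h1 h2 h3 => (gsg.enc (enc_norm (rkbq0_38.enc h1 h2 h3)))⟩
noncomputable def rkbq0_42 : Fn3 := ⟨_, _, fun h1 h2 h3 => (enc_sub (enc_scaleT 3 4 (rkbq0_38.enc h1 h2 h3)) (enc_half (rkbq0_39.enc h1 h2 h3)))⟩
noncomputable def rkbq0_43 : Fn3 := ⟨_, _, fun h1 h2 h3 => (esg.enc (enc_norm (rkbq0_38.enc h1 h2 h3)))⟩
noncomputable def rkbq0_44 : Fn3 := ⟨_, _, fun h1 h2 h3 => (kcg.enc (enc_norm (rkbq0_42.enc h1 h2 h3)) h3)⟩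
noncomputable def rkbq0_52 : Fn3 := ⟨_, _, fun h1 h2 h3 => (enc_sub (rkbq0_42.enc h1 h2 h3) (enc_sub (enc_rat _ 1 4) (enc_scaleT 3 8 (enc_mul (enc_norm (rkbq0_38.enc h1 h2 h3)) (enc_inv (rkbq0_39.enc h1 h2 h3))))))⟩
noncomputable def rkbq0_58 : Fn3 := ⟨_, _, fun h1 h2 h3 => (enc_wB0 (enc_mul h2 (enc_norm (enc_sub (enc_mul (enc_norm (rkbq0_52.enc h1 h2 h3)) (enc_inv (rkbq0_43.enc h1 h2 h3))) (rkbq0_44.enc h1 h2 h3)))) (rkbq0_38.enc h1 h2 h3) (rkbq0_39.enc h1 h2 h3) (rkbq0_43.enc h1 h2 h3) h2 (rkbq0_52.enc h1 h2 h3) (rkbq0_44.enc h1 h2 h3) rfl rfl rfl rfl)⟩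
noncomputable def rkbq0_62 : Fn3 := ⟨_, _, fun h1 h2 h3 => (enc_add (swg.enc h2) (enc_rat _ 1 2))⟩
noncomputable def rkbq0_63 : Fn3 := ⟨_, _, fun h1 h2 h3 => (enc_sub h1 (cv2m.enc h2))⟩
noncomputable def rkbq0 : Fn3 := ⟨_, _, fun h1 h2 h3 => (enc_case (enc_sub h1 (cv1m.enc h2)) (enc_add (enc_mul h1 (bf1q0.enc h2 h3)) (enc_mul (enc_norm (enc_sub (enc_pnc _ 1) (lm0m.enc h1 h2))) (enc_norm (enc_sub (kf0q0.enc h2 h3) (enc_mul (c1g.enc h2) (bf1q0.enc h2 h3)))))) (enc_case (rkbq0_63.enc h1 h2 h3) (enc_add (enc_mul h1 (bf2q0.enc h2 h3)) (enc_mul (enc_norm (enc_mul (enc_norm (enc_sub (enc_pnc _ 1) (lm1m.enc h1 h2))) (cv1m.enc h2))) (enc_norm (enc_sub (bf1q0.enc h2 h3) (bf2q0.enc h2 h3))))) (enc_case (enc_sub h1 (cv3m.enc h2)) (enc_case (enc_subr 433 10000 h2) (rkbq0_36.enc h1 h2 h3) (enc_case (enc_subr 819 10000 h2) (enc_wL (enc_add (kf2q0.enc h2 h3) (enc_mul (enc_norm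 (enc_mul (enc_norm (rkbq0_63.enc h1 h2 h3)) (enc_inv (enc_sub (rkbq0_62.enc h1 h2 h3) (cv2m.enc h2))))) (enc_norm (enc_sub (rkbq0_58.enc h1 h2 h3) (kf2q0.enc h2 h3))))) h1 (rkbq0_62.enc h1 h2 h3) (cv2m.enc h2) (rkbq0_58.enc h1 h2 h3) (kf2q0.enc h2 h3) rfl) (rkbq0_36.enc h1 h2 h3))) (enc_case (enc_sub h1 (cv4m.enc h2)) (enc_add (enc_mul h1 (bf4q0.enc h2 h3)) (enc_mul (enc_norm (enc_sub (enc_pnc _ 1) (lm3m.enc h1 h2))) (enc_norm (enc_sub (kf3q0.enc h2 h3) (enc_mul (cv3m.enc h2) (bf4q0.enc h2 h3)))))) (enc_add (kf4q0.enc h2 h3) (enc_mul (lm4m.enc h1 h2) (enc_norm (enc_sub (kf5q0.enc h2 h3) (kf4q0.enc h2 h3)))))))))⟩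
noncomputable def rsbq0 : Fn3 := ⟨_, _, fun h1 h2 h3 => (enc_case h1 (enc_neg (rkbq0.enc (enc_neg h1) h2 h3)) (rkbq0.enc h1 h2 h3))⟩
noncomputable def rkbq1 : Fn3 := ⟨_, _, fun h1 h2 h3 => (enc_case (enc_sub h1 (cv1m.enc h2)) (enc_add (enc_mul h1 (bf1q1.enc h2 h3)) (enc_mul (enc_norm (enc_sub (enc_pnc _ 1) (lm0m.enc h1 h2))) (enc_norm (enc_sub (kf0q1.enc h2 h3) (enc_mul (c1g.enc h2) (bf1q1.enc h2 h3)))))) (enc_case (enc_sub h1 (cv2m.enc h2)) (enc_add (enc_mul h1 (bf2q1.enc h2 h3)) (enc_mul (enc_norm (enc_mul (enc_norm (enc_sub (enc_pnc _ 1) (lm1m.enc h1 h2))) (cv1m.enc h2))) (enc_norm (enc_sub (bf1q1.enc h2 h3) (bf2q1.enc h2 h3))))) (enc_case (enc_sub h1 (cv3m.enc h2)) (enc_add (enc_mul h1 (bf3q1.enc h2 h3)) (enc_mul (enc_norm (enc_mul (enc_norm (enc_sub (enc_pnc _ 1) (lm2m.enc h1 h2))) (cv2m.enc h2))) (enc_norm (enc_sub (bf2q1.enc h2 h3) (bf3q1.enc h2 h3)))))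 (enc_case (enc_sub h1 (cv4m.enc h2)) (enc_add (enc_mul h1 (bf4q1.enc h2 h3)) (enc_mul (enc_norm (enc_mul (enc_norm (enc_sub (enc_pnc _ 1) (lm3m.enc h1 h2))) (cv3m.enc h2))) (enc_norm (enc_sub (bf3q1.enc h2 h3) (bf4q1.enc h2 h3))))) (enc_add (kf4q1.enc h2 h3) (enc_mul (lm4m.enc h1 h2) (enc_norm (enc_sub (kf5q1.enc h2 h3) (kf4q1.enc h2 h3)))))))))⟩
noncomputable def rsbq1 : Fn3 := ⟨_, _, fun h1 h2 h3 => (enc_case h1 (enc_neg (rkbq1.enc (enc_neg h1) h2 h3)) (rkbq1.enc h1 h2 h3))⟩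
noncomputable def cv1p : Fn1 := ⟨_, _, fun h1 => (enc_norm (enc_add (enc_scaleT 3 4 (c1g.enc h1)) (enc_scaleT 1 4 (enc_subr 1 2 (swg.enc h1)))))⟩
noncomputable def cv2p : Fn1 := ⟨_, _, fun h1 => (enc_norm (enc_add (enc_scaleT 7 20 (c1g.enc h1)) (enc_scaleT 13 20 (enc_subr 1 2 (swg.enc h1)))))⟩
noncomputable def lm4p : Fn2 := ⟨_, _, fun h1 h2 => (enc_lam (enc_norm (enc_sub h1 (cv4p.enc h2))) (enc_sub (c3g.enc h2) (cv4p.enc h2)))⟩
noncomputable def lm3p : Fn2 := ⟨_, _, fun h1 h2 => (enc_lam (enc_norm (enc_sub h1 (cv3p.enc h2))) (enc_sub (cv4p.enc h2) (cv3p.enc h2)))⟩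
noncomputable def lm2p : Fn2 := ⟨_, _, fun h1 h2 => (enc_lam (enc_norm (enc_sub h1 (cv2p.enc h2))) (enc_sub (cv3p.enc h2) (cv2p.enc h2)))⟩
noncomputable def lm1p : Fn2 := ⟨_, _, fun h1 h2 => (enc_lam (enc_norm (enc_sub h1 (cv1p.enc h2))) (enc_sub (cv2p.enc h2) (cv1p.enc h2)))⟩
noncomputable def kf0q2 : Fn2 := ⟨_, _, fun h1 h2 => (enc_norm (enc_add (c1g.enc h1) (enc_mul (enc_norm (enc_subn 1 h1)) (kcg.enc (enc_neg (c1g.enc h1)) h2))))⟩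
noncomputable def lm0p : Fn2 := ⟨_, _, fun h1 h2 => (enc_lam (enc_norm (enc_sub h1 (c1g.enc h2))) (enc_sub (cv1p.enc h2) (c1g.enc h2)))⟩
noncomputable def n0b : Fn2 := ⟨_, _, fun h1 h2 => (enc_norm (enc_sub (enc_pnc _ 1) (enc_mul (enc_norm (enc_subn 1 h1)) (enc_norm (enc_add (enc_scaleT 106177 5000 (enc_subr 487 520 h2)) (enc_rat _ 304953 100000))))))⟩
noncomputable def rkbq2_51 : Fn3 := ⟨_, _, fun h1 h2 h3 => (enc_mul h1 (bf1q2.enc h2 h3))⟩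
noncomputable def rkbq2_53 : Fn3 := ⟨_, _, fun h1 h2 h3 => (enc_sub (enc_pnc _ 1) (lm0p.enc h1 h2))⟩
noncomputable def rkbq2 : Fn3 := ⟨_, _, fun h1 h2 h3 => (enc_case (enc_sub h1 (cv1p.enc h2)) (enc_case (enc_subr 1149 1000 h2) (enc_add (rkbq2_51.enc h1 h2 h3) (enc_mul (enc_norm (rkbq2_53.enc h1 h2 h3)) (enc_norm (enc_sub (kf0q2.enc h2 h3) (enc_mul (c1g.enc h2) (bf1q2.enc h2 h3)))))) (enc_case (enc_subr 2887 2500 h2) (enc_add (rkbq2_51.enc h1 h2 h3) (enc_mul (enc_norm (rkbq2_53.enc h1 h2 h3)) (enc_norm (enc_mul (c1g.enc h2) (enc_norm (enc_sub (n0b.enc h2 h3) (bf1q2.enc h2 h3))))))) (rkbq2_51.enc h1 h2 h3))) (enc_case (enc_sub h1 (cv2p.enc h2)) (enc_add (enc_mul h1 (bf2q2.enc h2 h3)) (enc_mul (enc_norm (enc_mul (enc_norm (enc_sub (enc_pnc _ 1) (lm1p.enc h1 h2))) (cv1p.enc h2))) (enc_norm (enc_sub (bf1q2.enc h2 h3) (bf2q2.enc h2 h3))))) (enc_case (enc_sub h1 (cv3p.enc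 h2)) (enc_add (enc_mul h1 (bf3q2.enc h2 h3)) (enc_mul (enc_norm (enc_mul (enc_norm (enc_sub (enc_pnc _ 1) (lm2p.enc h1 h2))) (cv2p.enc h2))) (enc_norm (enc_sub (bf2q2.enc h2 h3) (bf3q2.enc h2 h3))))) (enc_case (enc_sub h1 (cv4p.enc h2)) (enc_add (enc_mul h1 (bf4q2.enc h2 h3)) (enc_mul (enc_norm (enc_mul (enc_norm (enc_sub (enc_pnc _ 1) (lm3p.enc h1 h2))) (cv3p.enc h2))) (enc_norm (enc_sub (bf3q2.enc h2 h3) (bf4q2.enc h2 h3))))) (enc_add (kf4q2.enc h2 h3) (enc_mul (lm4p.enc h1 h2) (enc_norm (enc_sub (kf5q2.enc h2 h3) (kf4q2.enc h2 h3)))))))))⟩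
noncomputable def rsbq2 : Fn3 := ⟨_, _, fun h1 h2 h3 => (enc_case h1 (enc_neg (rkbq2.enc (enc_neg h1) h2 h3)) (rkbq2.enc h1 h2 h3))⟩
noncomputable def cv3r : Fn1 := ⟨_, _, fun h1 => (enc_norm (enc_add (enc_scaleT 8907 10000 (enc_subr 1 2 (swg.enc h1))) (enc_scaleT 1093 10000 (c3g.enc h1))))⟩
noncomputable def cv4r : Fn1 := ⟨_, _, fun h1 => (enc_norm (enc_add (enc_scaleT 3 10 (enc_subr 1 2 (swg.enc h1))) (enc_scaleT 7 10 (c3g.enc h1))))⟩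
noncomputable def kf4q3_4 : Fn2 := ⟨_, _, fun h1 h2 => (enc_subr 487 520 h2)⟩
noncomputable def kf4q3_23 : Fn2 := ⟨_, _, fun h1 h2 => (enc_subr 492509 100000 (enc_scaleT 10543 4000 h1))⟩
noncomputable def kf4q3 : Fn2 := ⟨_, _, fun h1 h2 => (enc_norm (enc_mul (cv4r.enc h1) (enc_norm (enc_case (enc_subr 48 25 h1) (enc_case (enc_subr 9 5 h1) (enc_add (enc_subr 246259 50000 (enc_scaleT 13179 5000 h1)) (enc_mul (enc_norm (kf4q3_4.enc h1 h2)) (enc_norm (enc_subr 2459 250 (enc_scaleT 1792 375 h1))))) (enc_add (kf4q3_23.enc h1 h2) (enc_mul (enc_norm (kf4q3_4.enc h1 h2)) (enc_norm (enc_subr 49177 5000 (enc_scaleT 2867 600 h1)))))) (enc_case (enc_subr 49 25 h1) (enc_add (kf4q3_23.enc h1 h2) (enc_mul (enc_norm (kf4q3_4.enc h1 h2)) (enc_norm (enc_subr 49193 5000 (enc_scaleT 239 50 h1))))) (enc_case (enc_sub (enc_rat _ 122167917 500000000) (c3g.enc h1)) (enc_add (enc_sub (enc_rat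 _ 167226115317 334459750000) (enc_scaleT 3016000 4013517 (c3g.enc h1))) (enc_mul (enc_norm (kf4q3_4.enc h1 h2)) (enc_norm (enc_subr 72847699 334459750000 (enc_neg (enc_scaleT 5468000 4013517 (c3g.enc h1))))))) (enc_sub (enc_sub (enc_rat _ 1 2) (enc_scaleT 91810000 122167917 (c3g.enc h1))) (enc_mul (enc_norm (kf4q3_4.enc h1 h2)) (enc_scaleT 166550000 122167917 (c3g.enc h1))))))))))⟩
noncomputable def kf5q3 : Fn2 := ⟨_, _, fun h1 h2 => (enc_norm (enc_sub (enc_mul (enc_norm (enc_subn 2 h1)) (kcg.enc (enc_norm (enc_sub (enc_scaleT 1 4 h1) (enc_half (c3g.enc h1)))) h2)) (enc_mul (enc_norm (enc_mul (enc_norm (enc_sub (enc_nat 2 (c3g.enc h1)) h1)) (enc_norm (enc_sub (enc_add (c3g.enc h1) (enc_pnc _ 3)) (enc_scaleT 3 2 h1))))) (enc_inv (enc_nat 4 (enc_subn 1 h1))))))⟩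
noncomputable def lm4r : Fn2 := ⟨_, _, fun h1 h2 => (enc_lam (enc_norm (enc_sub h1 (cv4r.enc h2))) (enc_sub (c3g.enc h2) (cv4r.enc h2)))⟩
noncomputable def bf4q3_3 : Fn2 := ⟨_, _, fun h1 h2 => (enc_subr 487 520 h2)⟩
noncomputable def bf4q3_22 : Fn2 := ⟨_, _, fun h1 h2 => (enc_subr 492509 100000 (enc_scaleT 10543 4000 h1))⟩
noncomputable def bf4q3 : Fn2 := ⟨_, _, fun h1 h2 => (enc_norm (enc_case (enc_subr 48 25 h1) (enc_case (enc_subr 9 5 h1) (enc_add (enc_subr 246259 50000 (enc_scaleT 13179 5000 h1)) (enc_mul (enc_norm (bf4q3_3.enc h1 h2)) (enc_norm (enc_subr 2459 250 (enc_scaleT 1792 375 h1))))) (enc_add (bf4q3_22.enc h1 h2) (enc_mul (enc_norm (bf4q3_3.enc h1 h2)) (enc_norm (enc_subr 49177 5000 (enc_scaleT 2867 600 h1)))))) (enc_case (enc_subr 49 25 h1) (enc_add (bf4q3_22.enc h1 h2) (enc_mul (enc_norm (bf4q3_3.enc h1 h2)) (enc_norm (enc_subr 49193 5000 (enc_scaleT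 239 50 h1))))) (enc_case (enc_sub (enc_rat _ 122167917 500000000) (c3g.enc h1)) (enc_add (enc_sub (enc_rat _ 167226115317 334459750000) (enc_scaleT 3016000 4013517 (c3g.enc h1))) (enc_mul (enc_norm (bf4q3_3.enc h1 h2)) (enc_norm (enc_subr 72847699 334459750000 (enc_neg (enc_scaleT 5468000 4013517 (c3g.enc h1))))))) (enc_sub (enc_sub (enc_rat _ 1 2) (enc_scaleT 91810000 122167917 (c3g.enc h1))) (enc_mul (enc_norm (bf4q3_3.enc h1 h2)) (enc_scaleT 166550000 122167917 (c3g.enc h1))))))))⟩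
noncomputable def lm3r : Fn2 := ⟨_, _, fun h1 h2 => (enc_lam (enc_norm (enc_sub h1 (cv3r.enc h2))) (enc_sub (cv4r.enc h2) (cv3r.enc h2)))⟩
noncomputable def kf3q3_4 : Fn2 := ⟨_, _, fun h1 h2 => (enc_subr 487 520 h2)⟩
noncomputable def kf3q3_6 : Fn2 := ⟨_, _, fun h1 h2 => (enc_subr 9 5 h1)⟩
noncomputable def kf3q3_31 : Fn2 := ⟨_, _, fun h1 h2 => (enc_sub (enc_rat _ 122167917 500000000) (c3g.enc h1))⟩
noncomputable def kf3q3_56 : Fn2 := ⟨_, _, fun h1 h2 => (enc_subn 1 h1)⟩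
noncomputable def kf3q3_57 : Fn2 := ⟨_, _, fun h1 h2 => (gsg.enc (enc_norm (kf3q3_56.enc h1 h2)))⟩
noncomputable def kf3q3_58 : Fn2 := ⟨_, _, fun h1 h2 => (enc_scaleT 3 4 (kf3q3_56.enc h1 h2))⟩
noncomputable def kf3q3_59 : Fn2 := ⟨_, _, fun h1 h2 => (enc_half (kf3q3_57.enc h1 h2))⟩
noncomputable def kf3q3_61 : Fn2 := ⟨_, _, fun h1 h2 => (esg.enc (enc_norm (kf3q3_56.enc h1 h2)))⟩
noncomputable def kf3q3_62 : Fn2 := ⟨_, _, fun h1 h2 => (kcg.enc (enc_norm (enc_sub (kf3q3_58.enc h1 h2) (kf3q3_59.enc h1 h2))) h2)⟩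
noncomputable def kf3q3_64 : Fn2 := ⟨_, _, fun h1 h2 => (enc_subn 2 h1)⟩
noncomputable def kf3q3_71 : Fn2 := ⟨_, _, fun h1 h2 => (enc_sub (enc_sub (kf3q3_59.enc h1 h2) (kf3q3_58.enc h1 h2)) (enc_sub (enc_rat _ 1 4) (enc_scaleT 3 8 (enc_mul (enc_norm (kf3q3_56.enc h1 h2)) (enc_inv (kf3q3_57.enc h1 h2))))))⟩
noncomputable def kf3q3_83 : Fn2 := ⟨_, _, fun h1 h2 => (enc_sub (enc_rat _ 40087 4000) (enc_scaleT 15377 3000 h1))⟩
noncomputable def kf3q3_134 : Fn2 := ⟨_, _, fun h1 h2 => (enc_mul (cv2r.enc h1) (enc_norm (enc_case (enc_subr 48 25 h1) (enc_case (kf3q3_6.enc h1 h2) (enc_add (kf3q3_83.enc h1 h2) (enc_mul (enc_norm (kf3q3_4.enc h1 h2)) (enc_norm (enc_subr 29429 500 (enc_scaleT 7139 250 h1))))) (enc_add (kf3q3_83.enc h1 h2) (enc_mul (enc_norm (kf3q3_4.enc h1 h2)) (enc_norm (enc_subr 36787 625 (enc_scaleT 8567 300 h1)))))) (enc_case (enc_subr 49 25 h1) (enc_add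 (enc_sub (enc_rat _ 1002191 100000) (enc_scaleT 20503 4000 h1)) (enc_mul (enc_norm (kf3q3_4.enc h1 h2)) (enc_norm (enc_subr 7357 125 (enc_scaleT 5711 200 h1))))) (enc_case (kf3q3_31.enc h1 h2) (enc_add (enc_subr 1766793757339 3344597500000 (enc_scaleT 5865200 4013517 (c3g.enc h1))) (enc_mul (enc_norm (kf3q3_4.enc h1 h2)) (enc_norm (enc_subr 27210221687 334459750000 (enc_neg (enc_scaleT 32684000 4013517 (c3g.enc h1))))))) (enc_add (enc_subr 6603 12500 (enc_scaleT 178525000 122167917 (c3g.enc h1))) (enc_mul (enc_norm (kf3q3_4.enc h1 h2)) (enc_norm (enc_subr 809 10000 (enc_neg (enc_scaleT 331700000 40722639 (c3g.enc h1))))))))))))⟩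
noncomputable def kf3q3 : Fn2 := ⟨_, _, fun h1 h2 => (enc_norm (enc_case (enc_subr 19181 10000 h1) (enc_mul (cv3r.enc h1) (enc_norm (enc_case (kf3q3_6.enc h1 h2) (enc_add (enc_subr 6539 4000 (enc_scaleT 21643 30000 h1)) (enc_mul (enc_norm (kf3q3_4.enc h1 h2)) (enc_norm (enc_sub (enc_rat _ 540183 5000) (enc_scaleT 165577 3000 h1))))) (enc_add (enc_subr 1930338373 1181000000 (enc_scaleT 170369067 236200000 h1)) (enc_mul (enc_norm (kf3q3_4.enc h1 h2)) (enc_norm (enc_sub (enc_rat _ 15948971109 147625000) (enc_scaleT 1629561201 29525000 h1)))))))) (enc_case (enc_subr 19567 10000 h1) (enc_add (kf3q3_134.enc h1 h2) (enc_mul (enc_norm (enc_mul (enc_norm (enc_sub (enc_wB3 (enc_mul (enc_norm (kf3q3_64.enc h1 h2)) (enc_norm (enc_add (enc_mul (enc_norm (kf3q3_71.enc h1 h2)) (enc_inv (kf3q3_61.enc h1 h2))) (kf3q3_62.enc h1 h2)))) (kf3q3_56.enc h1 h2) (kf3q3_57.enc h1 h2) (kf3q3_61.enc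 h1 h2) (kf3q3_64.enc h1 h2) (kf3q3_71.enc h1 h2) (kf3q3_62.enc h1 h2) h1 rfl rfl rfl rfl rfl) (kf3q3_134.enc h1 h2))) (enc_norm (enc_sub (cv3r.enc h1) (cv2r.enc h1))))) (enc_inv (enc_sub (enc_subr 1 2 (swg.enc h1)) (cv2r.enc h1))))) (enc_mul (cv3r.enc h1) (enc_norm (enc_case (kf3q3_31.enc h1 h2) (enc_add (enc_subr 134065796251563 11887971875000000 (enc_neg (enc_scaleT 13441244 95103775 (c3g.enc h1)))) (enc_mul (enc_norm (kf3q3_4.enc h1 h2)) (enc_norm (enc_subr 235246893866342037 9510377500000000 (enc_scaleT 1394672361 19020755 (c3g.enc h1)))))) (enc_sub (enc_sub (enc_rat _ 1 2) (enc_scaleT 272905000 122167917 (c3g.enc h1))) (enc_mul (enc_norm (kf3q3_4.enc h1 h2)) (enc_scaleT 378900000 13574213 (c3g.enc h1))))))))))⟩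
noncomputable def bf3q3_3 : Fn2 := ⟨_, _, fun h1 h2 => (enc_subr 487 520 h2)⟩
noncomputable def bf3q3 : Fn2 := ⟨_, _, fun h1 h2 => (enc_norm (enc_case (enc_subr 9687 5000 h1) (enc_case (enc_subr 9 5 h1) (enc_add (enc_subr 6539 4000 (enc_scaleT 21643 30000 h1)) (enc_mul (enc_norm (bf3q3_3.enc h1 h2)) (enc_norm (enc_sub (enc_rat _ 540183 5000) (enc_scaleT 165577 3000 h1))))) (enc_add (enc_subr 1930338373 1181000000 (enc_scaleT 170369067 236200000 h1)) (enc_mul (enc_norm (bf3q3_3.enc h1 h2)) (enc_norm (enc_sub (enc_rat _ 15948971109 147625000) (enc_scaleT 1629561201 29525000 h1)))))) (enc_case (enc_sub (enc_rat _ 122167917 500000000) (c3g.enc h1)) (enc_add (enc_subr 134065796251563 11887971875000000 (enc_neg (enc_scaleT 13441244 95103775 (c3g.enc h1)))) (enc_mul (enc_norm (bf3q3_3.enc h1 h2)) (enc_norm (enc_subr 235246893866342037 9510377500000000 (enc_scaleT 1394672361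 19020755 (c3g.enc h1)))))) (enc_sub (enc_sub (enc_rat _ 1 2) (enc_scaleT 272905000 122167917 (c3g.enc h1))) (enc_mul (enc_norm (bf3q3_3.enc h1 h2)) (enc_scaleT 378900000 13574213 (c3g.enc h1)))))))⟩
noncomputable def lm2r : Fn2 := ⟨_, _, fun h1 h2 => (enc_lam (enc_norm (enc_sub h1 (cv2r.enc h2))) (enc_sub (cv3r.enc h2) (cv2r.enc h2)))⟩
noncomputable def bf2q3_3 : Fn2 := ⟨_, _, fun h1 h2 => (enc_subr 487 520 h2)⟩
noncomputable def bf2q3_12 : Fn2 := ⟨_, _, fun h1 h2 => (enc_sub (enc_rat _ 40087 4000) (enc_scaleT 15377 3000 h1))⟩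
noncomputable def bf2q3 : Fn2 := ⟨_, _, fun h1 h2 => (enc_norm (enc_case (enc_subr 48 25 h1) (enc_case (enc_subr 9 5 h1) (enc_add (bf2q3_12.enc h1 h2) (enc_mul (enc_norm (bf2q3_3.enc h1 h2)) (enc_norm (enc_subr 29429 500 (enc_scaleT 7139 250 h1))))) (enc_add (bf2q3_12.enc h1 h2) (enc_mul (enc_norm (bf2q3_3.enc h1 h2)) (enc_norm (enc_subr 36787 625 (enc_scaleT 8567 300 h1)))))) (enc_case (enc_subr 49 25 h1) (enc_add (enc_sub (enc_rat _ 1002191 100000) (enc_scaleT 20503 4000 h1)) (enc_mul (enc_norm (bf2q3_3.enc h1 h2)) (enc_norm (enc_subr 7357 125 (enc_scaleT 5711 200 h1))))) (enc_case (enc_sub (enc_rat _ 122167917 500000000) (c3g.enc h1)) (enc_add (enc_subr 1766793757339 3344597500000 (enc_scaleT 5865200 4013517 (c3g.enc h1))) (enc_mul (enc_norm (bf2q3_3.enc h1 h2)) (enc_norm (enc_subr 27210221687 334459750000 (enc_neg (enc_scaleT 32684000 4013517 (c3g.enc h1)))))))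 (enc_add (enc_subr 6603 12500 (enc_scaleT 178525000 122167917 (c3g.enc h1))) (enc_mul (enc_norm (bf2q3_3.enc h1 h2)) (enc_norm (enc_subr 809 10000 (enc_neg (enc_scaleT 331700000 40722639 (c3g.enc h1)))))))))))⟩
noncomputable def lm1r : Fn2 := ⟨_, _, fun h1 h2 => (enc_lam (enc_norm (enc_sub h1 (cv1r.enc h2))) (enc_sub (cv2r.enc h2) (cv1r.enc h2)))⟩
noncomputable def bf1q3_3 : Fn2 := ⟨_, _, fun h1 h2 => (enc_subr 487 520 h2)⟩
noncomputable def bf1q3_12 : Fn2 := ⟨_, _, fun h1 h2 => (enc_subr 15269 3125 (enc_scaleT 5491 2000 h1))⟩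
noncomputable def bf1q3 : Fn2 := ⟨_, _, fun h1 h2 => (enc_norm (enc_case (enc_subr 48 25 h1) (enc_case (enc_subr 9 5 h1) (enc_add (bf1q3_12.enc h1 h2) (enc_mul (enc_norm (bf1q3_3.enc h1 h2)) (enc_norm (enc_sub (enc_rat _ 3850249 10000) (enc_scaleT 27242 125 h1))))) (enc_add (bf1q3_12.enc h1 h2) (enc_mul (enc_norm (bf1q3_3.enc h1 h2)) (enc_norm (enc_sub (enc_rat _ 1925123 5000) (enc_scaleT 261523 1200 h1)))))) (enc_case (enc_subr 49 25 h1) (enc_add (bf1q3_12.enc h1 h2) (enc_mul (enc_norm (bf1q3_3.enc h1 h2)) (enc_norm (enc_sub (enc_rat _ 385023 1000) (enc_scaleT 43587 200 h1))))) (enc_case (enc_sub (enc_rat _ 122167917 500000000) (c3g.enc h1)) (enc_add (enc_sub (enc_rat _ 159891632707 209037343750) (enc_scaleT 1047200 1337839 (c3g.enc h1))) (enc_mul (enc_norm (bf1q3_3.enc h1 h2)) (enc_norm (enc_subr 2656679470079 41807468750 (enc_scaleT 249376000 4013517 (c3g.enc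 h1)))))) (enc_add (enc_sub (enc_rat _ 76489 100000) (enc_scaleT 10625000 13574213 (c3g.enc h1))) (enc_mul (enc_norm (bf1q3_3.enc h1 h2)) (enc_norm (enc_subr 39716 625 (enc_scaleT 7590800000 122167917 (c3g.enc h1))))))))))⟩
noncomputable def rkbq3_36 : Fn3 := ⟨_, _, fun h1 h2 h3 => (enc_add (enc_mul h1 (bf3q3.enc h2 h3)) (enc_mul (enc_norm (enc_mul (enc_norm (enc_sub (enc_pnc _ 1) (lm2r.enc h1 h2))) (cv2r.enc h2))) (enc_norm (enc_sub (bf2q3.enc h2 h3) (bf3q3.enc h2 h3)))))⟩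
noncomputable def rkbq3_37 : Fn3 := ⟨_, _, fun h1 h2 h3 => (enc_subn 1 h2)⟩
noncomputable def rkbq3_38 : Fn3 := ⟨_, _, fun h1 h2 h3 => (gsg.enc (enc_norm (rkbq3_37.enc h1 h2 h3)))⟩
noncomputable def rkbq3_39 : Fn3 := ⟨_, _, fun h1 h2 h3 => (enc_scaleT 3 4 (rkbq3_37.enc h1 h2 h3))⟩
noncomputable def rkbq3_40 : Fn3 := ⟨_, _, fun h1 h2 h3 => (enc_half (rkbq3_38.enc h1 h2 h3))⟩
noncomputable def rkbq3_42 : Fn3 := ⟨_, _, fun h1 h2 h3 => (esg.enc (enc_norm (rkbq3_37.enc h1 h2 h3)))⟩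
noncomputable def rkbq3_43 : Fn3 := ⟨_, _, fun h1 h2 h3 => (kcg.enc (enc_norm (enc_sub (rkbq3_39.enc h1 h2 h3) (rkbq3_40.enc h1 h2 h3))) h3)⟩
noncomputable def rkbq3_45 : Fn3 := ⟨_, _, fun h1 h2 h3 => (enc_subn 2 h2)⟩
noncomputable def rkbq3_52 : Fn3 := ⟨_, _, fun h1 h2 h3 => (enc_sub (enc_sub (rkbq3_40.enc h1 h2 h3) (rkbq3_39.enc h1 h2 h3)) (enc_sub (enc_rat _ 1 4) (enc_scaleT 3 8 (enc_mul (enc_norm (rkbq3_37.enc h1 h2 h3)) (enc_inv (rkbq3_38.enc h1 h2 h3))))))⟩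
noncomputable def rkbq3_57 : Fn3 := ⟨_, _, fun h1 h2 h3 => (enc_wB3 (enc_mul (enc_norm (rkbq3_45.enc h1 h2 h3)) (enc_norm (enc_add (enc_mul (enc_norm (rkbq3_52.enc h1 h2 h3)) (enc_inv (rkbq3_42.enc h1 h2 h3))) (rkbq3_43.enc h1 h2 h3)))) (rkbq3_37.enc h1 h2 h3) (rkbq3_38.enc h1 h2 h3) (rkbq3_42.enc h1 h2 h3) (rkbq3_45.enc h1 h2 h3) (rkbq3_52.enc h1 h2 h3) (rkbq3_43.enc h1 h2 h3) h2 rfl rfl rfl rfl rfl)⟩
noncomputable def rkbq3_62 : Fn3 := ⟨_, _, fun h1 h2 h3 => (enc_subr 1 2 (swg.enc h2))⟩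
noncomputable def rkbq3_63 : Fn3 := ⟨_, _, fun h1 h2 h3 => (enc_sub h1 (cv2r.enc h2))⟩
noncomputable def rkbq3 : Fn3 := ⟨_, _, fun h1 h2 h3 => (enc_case (enc_sub h1 (cv1r.enc h2)) (enc_mul h1 (bf1q3.enc h2 h3)) (enc_case (rkbq3_63.enc h1 h2 h3) (enc_add (enc_mul h1 (bf2q3.enc h2 h3)) (enc_mul (enc_norm (enc_mul (enc_norm (enc_sub (enc_pnc _ 1) (lm1r.enc h1 h2))) (cv1r.enc h2))) (enc_norm (enc_sub (bf1q3.enc h2 h3) (bf2q3.enc h2 h3))))) (enc_case (enc_sub h1 (cv3r.enc h2)) (enc_case (enc_subr 19181 10000 h2) (rkbq3_36.enc h1 h2 h3) (enc_case (enc_subr 19567 10000 h2) (enc_wL (enc_add (kf2q3.enc h2 h3) (enc_mul (enc_norm (enc_mul (enc_norm (rkbq3_63.enc h1 h2 h3)) (enc_inv (enc_sub (rkbq3_62.enc h1 h2 h3) (cv2r.enc h2))))) (enc_norm (enc_sub (rkbq3_57.enc h1 h2 h3) (kf2q3.enc h2 h3))))) h1 (rkbq3_62.enc h1 h2 h3) (cv2r.enc h2) (rkbq3_57.enc h1 h2 h3) (kf2q3.enc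 h2 h3) rfl) (rkbq3_36.enc h1 h2 h3))) (enc_case (enc_sub h1 (cv4r.enc h2)) (enc_add (enc_mul h1 (bf4q3.enc h2 h3)) (enc_mul (enc_norm (enc_sub (enc_pnc _ 1) (lm3r.enc h1 h2))) (enc_norm (enc_sub (kf3q3.enc h2 h3) (enc_mul (cv3r.enc h2) (bf4q3.enc h2 h3)))))) (enc_add (kf4q3.enc h2 h3) (enc_mul (lm4r.enc h1 h2) (enc_norm (enc_sub (kf5q3.enc h2 h3) (kf4q3.enc h2 h3)))))))))⟩
noncomputable def rsbq3 : Fn3 := ⟨_, _, fun h1 h2 h3 => (enc_case h1 (enc_neg (rkbq3.enc (enc_neg h1) h2 h3)) (rkbq3.enc h1 h2 h3))⟩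
noncomputable def bx3q0_3 : Fn2 := ⟨_, _, fun h1 h2 => (enc_subr 487 520 h2)⟩
noncomputable def bx3q0_27 : Fn2 := ⟨_, _, fun h1 h2 => (enc_sq (enc_norm (bx3q0_3.enc h1 h2)))⟩
noncomputable def bx3q0 : Fn2 := ⟨_, _, fun h1 h2 => (enc_norm (enc_case (enc_subr 313 5000 h1) (enc_case (enc_subr 1 50 h1) (enc_add (enc_add (enc_scaleT 151 200 h1) (enc_rat _ 3127 50000)) (enc_mul (enc_norm (bx3q0_3.enc h1 h2)) (enc_norm (enc_sub (enc_rat _ 1189 10000) (enc_scaleT 281 100 h1))))) (enc_add (enc_add (enc_add (enc_scaleT 175972417 233000000 h1) (enc_rat _ 728533583 11650000000)) (enc_mul (enc_norm (bx3q0_3.enc h1 h2)) (enc_norm (enc_add (enc_scaleT 1705453 1165000 h1) (enc_rat _ 973411 29125000))))) (enc_mul (bx3q0_27.enc h1 h2) (enc_norm (enc_subr 4077 46600 (enc_scaleT 4077 932 h1)))))) (enc_case (enc_subr 1 5 h1) (enc_add (enc_add (enc_sub (enc_rat _ 351195493 2952500000)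 (enc_scaleT 53111093 590500000 h1)) (enc_mul (enc_norm (bx3q0_3.enc h1 h2)) (enc_norm (enc_sub (enc_rat _ 4717071 11810000) (enc_scaleT 3364157 1181000 h1))))) (enc_mul (bx3q0_27.enc h1 h2) (enc_norm (enc_subr 1794 147625 (enc_scaleT 1794 29525 h1))))) (enc_add (enc_sub (enc_rat _ 8923 75000) (enc_scaleT 1351 15000 h1)) (enc_mul (enc_norm (bx3q0_3.enc h1 h2)) (enc_norm (enc_subr 6377 30000 (enc_scaleT 317 1500 h1))))))))⟩
noncomputable def rxq0_36 : Fn3 := ⟨_, _, fun h1 h2 h3 => (enc_add (enc_mul h1 (bx3q0.enc h2 h3)) (enc_mul (enc_norm (enc_mul (enc_norm (enc_sub (enc_pnc _ 1) (lm2m.enc h1 h2))) (cv2m.enc h2))) (enc_norm (enc_sub (bx2q0.enc h2 h3) (bx3q0.enc h2 h3)))))⟩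
noncomputable def rxq0_38 : Fn3 := ⟨_, _, fun h1 h2 h3 => (enc_sub (enc_pnc _ 1) h2)⟩
noncomputable def rxq0_50 : Fn3 := ⟨_, _, fun h1 h2 h3 => (enc_sub (qsg.enc (enc_norm (rxq0_38.enc h1 h2 h3))) (enc_mul (enc_norm (enc_nat 2 (enc_sub (rxq0_38.enc h1 h2 h3) h3))) (enc_norm (enc_mul (esg.enc (enc_norm (rxq0_38.enc h1 h2 h3))) (kcg.enc (enc_norm (enc_sub (enc_scaleT 3 4 (rxq0_38.enc h1 h2 h3)) (enc_half (gsg.enc (enc_norm (rxq0_38.enc h1 h2 h3)))))) h3)))))⟩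
noncomputable def rxq0_54 : Fn3 := ⟨_, _, fun h1 h2 h3 => (enc_add (swg.enc h2) (enc_rat _ 1 2))⟩
noncomputable def rxq0_55 : Fn3 := ⟨_, _, fun h1 h2 h3 => (enc_sub h1 (cv2m.enc h2))⟩
noncomputable def rxq0 : Fn3 := ⟨_, _, fun h1 h2 h3 => (enc_case (enc_sub h1 (cv1m.enc h2)) (enc_add (enc_mul h1 (bx1q0.enc h2 h3)) (enc_mul (enc_norm (enc_sub (enc_pnc _ 1) (lm0m.enc h1 h2))) (enc_norm (enc_sub (l0q0.enc h2 h3) (enc_mul (c1g.enc h2) (bx1q0.enc h2 h3)))))) (enc_case (rxq0_55.enc h1 h2 h3) (enc_add (enc_mul h1 (bx2q0.enc h2 h3)) (enc_mul (enc_norm (enc_mul (enc_norm (enc_sub (enc_pnc _ 1) (lm1m.enc h1 h2))) (cv1m.enc h2))) (enc_norm (enc_sub (bx1q0.enc h2 h3) (bx2q0.enc h2 h3))))) (enc_case (enc_sub h1 (cv3m.enc h2)) (enc_case (enc_subr 433 10000 h2) (rxq0_36.enc h1 h2 h3) (enc_case (enc_subr 819 10000 h2) (enc_wL (enc_add (l2q0.enc h2 h3) (enc_mul (enc_norm (enc_mul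 (enc_norm (rxq0_55.enc h1 h2 h3)) (enc_inv (enc_sub (rxq0_54.enc h1 h2 h3) (cv2m.enc h2))))) (enc_norm (enc_sub (rxq0_50.enc h1 h2 h3) (l2q0.enc h2 h3))))) h1 (rxq0_54.enc h1 h2 h3) (cv2m.enc h2) (rxq0_50.enc h1 h2 h3) (l2q0.enc h2 h3) rfl) (rxq0_36.enc h1 h2 h3))) (enc_case (enc_sub h1 (cv4m.enc h2)) (enc_add (enc_mul h1 (bx4q0.enc h2 h3)) (enc_mul (enc_norm (enc_sub (enc_pnc _ 1) (lm3m.enc h1 h2))) (enc_norm (enc_sub (l3q0.enc h2 h3) (enc_mul (cv3m.enc h2) (bx4q0.enc h2 h3)))))) (enc_add (l4q0.enc h2 h3) (enc_mul (lm4m.enc h1 h2) (enc_norm (enc_sub (l5q0.enc h2 h3) (l4q0.enc h2 h3)))))))))⟩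
noncomputable def rlq0 : Fn3 := ⟨_, _, fun h1 h2 h3 => (enc_case h1 (enc_neg (rxq0.enc (enc_neg h1) h2 h3)) (rxq0.enc h1 h2 h3))⟩
noncomputable def rxq1 : Fn3 := ⟨_, _, fun h1 h2 h3 => (enc_case (enc_sub h1 (cv1m.enc h2)) (enc_add (enc_mul h1 (bx1q1.enc h2 h3)) (enc_mul (enc_norm (enc_sub (enc_pnc _ 1) (lm0m.enc h1 h2))) (enc_norm (enc_sub (l0q1.enc h2 h3) (enc_mul (c1g.enc h2) (bx1q1.enc h2 h3)))))) (enc_case (enc_sub h1 (cv2m.enc h2)) (enc_add (enc_mul h1 (bx2q1.enc h2 h3)) (enc_mul (enc_norm (enc_mul (enc_norm (enc_sub (enc_pnc _ 1) (lm1m.enc h1 h2))) (cv1m.enc h2))) (enc_norm (enc_sub (bx1q1.enc h2 h3) (bx2q1.enc h2 h3))))) (enc_case (enc_sub h1 (cv3m.enc h2)) (enc_add (enc_mul h1 (bx3q1.enc h2 h3)) (enc_mul (enc_norm (enc_mul (enc_norm (enc_sub (enc_pnc _ 1) (lm2m.enc h1 h2))) (cv2m.enc h2))) (enc_norm (enc_sub (bx2q1.enc h2 h3) (bx3q1.enc h2 h3))))) (enc_case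 (enc_sub h1 (cv4m.enc h2)) (enc_add (enc_mul h1 (bx4q1.enc h2 h3)) (enc_mul (enc_norm (enc_mul (enc_norm (enc_sub (enc_pnc _ 1) (lm3m.enc h1 h2))) (cv3m.enc h2))) (enc_norm (enc_sub (bx3q1.enc h2 h3) (bx4q1.enc h2 h3))))) (enc_add (l4q1.enc h2 h3) (enc_mul (lm4m.enc h1 h2) (enc_norm (enc_sub (l5q1.enc h2 h3) (l4q1.enc h2 h3)))))))))⟩
noncomputable def rlq1 : Fn3 := ⟨_, _, fun h1 h2 h3 => (enc_case h1 (enc_neg (rxq1.enc (enc_neg h1) h2 h3)) (rxq1.enc h1 h2 h3))⟩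
noncomputable def l0q2_7 : Fn2 := ⟨_, _, fun h1 h2 => (enc_scaleT 3 4 h1)⟩
noncomputable def l0q2_8 : Fn2 := ⟨_, _, fun h1 h2 => (enc_half (c1g.enc h1))⟩
noncomputable def l0q2 : Fn2 := ⟨_, _, fun h1 h2 => (enc_norm (enc_sub (txg.enc (enc_neg (c1g.enc h1)) (enc_norm (enc_add (l0q2_7.enc h1 h2) (l0q2_8.enc h1 h2))) h2) (txg.enc (c1g.enc h1) (enc_norm (enc_sub (l0q2_7.enc h1 h2) (l0q2_8.enc h1 h2))) h2)))⟩
noncomputable def n0x : Fn2 := ⟨_, _, fun h1 h2 => (enc_norm (enc_subr 551 2000 (enc_neg (enc_scaleT 6047 5000 (enc_subr 487 520 h2)))))⟩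
noncomputable def rxq2_51 : Fn3 := ⟨_, _, fun h1 h2 h3 => (enc_mul h1 (bx1q2.enc h2 h3))⟩
noncomputable def rxq2_53 : Fn3 := ⟨_, _, fun h1 h2 h3 => (enc_sub (enc_pnc _ 1) (lm0p.enc h1 h2))⟩
noncomputable def rxq2 : Fn3 := ⟨_, _, fun h1 h2 h3 => (enc_case (enc_sub h1 (cv1p.enc h2)) (enc_case (enc_subr 1149 1000 h2) (enc_add (rxq2_51.enc h1 h2 h3) (enc_mul (enc_norm (rxq2_53.enc h1 h2 h3)) (enc_norm (enc_sub (l0q2.enc h2 h3) (enc_mul (c1g.enc h2) (bx1q2.enc h2 h3)))))) (enc_case (enc_subr 2887 2500 h2) (enc_add (rxq2_51.enc h1 h2 h3) (enc_mul (enc_norm (rxq2_53.enc h1 h2 h3)) (enc_norm (enc_mul (c1g.enc h2) (enc_norm (enc_sub (n0x.enc h2 h3) (bx1q2.enc h2 h3))))))) (rxq2_51.enc h1 h2 h3))) (enc_case (enc_sub h1 (cv2p.enc h2)) (enc_add (enc_mul h1 (bx2q2.enc h2 h3)) (enc_mul (enc_norm (enc_mul (enc_norm (enc_sub (enc_pnc _ 1) (lm1p.enc h1 h2))) (cv1p.enc h2))) (enc_norm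 (enc_sub (bx1q2.enc h2 h3) (bx2q2.enc h2 h3))))) (enc_case (enc_sub h1 (cv3p.enc h2)) (enc_add (enc_mul h1 (bx3q2.enc h2 h3)) (enc_mul (enc_norm (enc_mul (enc_norm (enc_sub (enc_pnc _ 1) (lm2p.enc h1 h2))) (cv2p.enc h2))) (enc_norm (enc_sub (bx2q2.enc h2 h3) (bx3q2.enc h2 h3))))) (enc_case (enc_sub h1 (cv4p.enc h2)) (enc_add (enc_mul h1 (bx4q2.enc h2 h3)) (enc_mul (enc_norm (enc_mul (enc_norm (enc_sub (enc_pnc _ 1) (lm3p.enc h1 h2))) (cv3p.enc h2))) (enc_norm (enc_sub (bx3q2.enc h2 h3) (bx4q2.enc h2 h3))))) (enc_add (l4q2.enc h2 h3) (enc_mul (lm4p.enc h1 h2) (enc_norm (enc_sub (l5q2.enc h2 h3) (l4q2.enc h2 h3)))))))))⟩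
noncomputable def rlq2 : Fn3 := ⟨_, _, fun h1 h2 h3 => (enc_case h1 (enc_neg (rxq2.enc (enc_neg h1) h2 h3)) (rxq2.enc h1 h2 h3))⟩
noncomputable def l4q3_4 : Fn2 := ⟨_, _, fun h1 h2 => (enc_subr 487 520 h2)⟩
noncomputable def l4q3 : Fn2 := ⟨_, _, fun h1 h2 => (enc_norm (enc_mul (cv4r.enc h1) (enc_norm (enc_case (enc_subr 48 25 h1) (enc_case (enc_subr 9 5 h1) (enc_add (enc_subr 158857 100000 (enc_scaleT 8641 7500 h1)) (enc_mul (enc_norm (l4q3_4.enc h1 h2)) (enc_norm (enc_subr 33561 5000 (enc_scaleT 1796 375 h1))))) (enc_add (enc_subr 158863 100000 (enc_scaleT 6913 6000 h1)) (enc_mul (enc_norm (l4q3_4.enc h1 h2)) (enc_norm (enc_subr 16791 2500 (enc_scaleT 115 24 h1)))))) (enc_case (enc_subr 49 25 h1) (enc_add (enc_subr 158831 100000 (enc_scaleT 144 125 h1)) (enc_mul (enc_norm (l4q3_4.enc h1 h2)) (enc_norm (enc_subr 3359 500 (enc_scaleT 1917 400 h1))))) (enc_case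 (enc_sub (enc_rat _ 122167917 500000000) (c3g.enc h1)) (enc_add (enc_sub (enc_rat _ 636670062811 836149375000) (enc_scaleT 356400 1337839 (c3g.enc h1))) (enc_mul (enc_norm (l4q3_4.enc h1 h2)) (enc_norm (enc_sub (enc_rat _ 942345147917 334459750000) (enc_scaleT 552000 1337839 (c3g.enc h1)))))) (enc_add (enc_sub (enc_rat _ 4277249 6000000) (enc_scaleT 24802250 366503751 (c3g.enc h1))) (enc_mul (enc_norm (l4q3_4.enc h1 h2)) (enc_norm (enc_sub (enc_rat _ 210709 75000) (enc_scaleT 139130000 366503751 (c3g.enc h1))))))))))))⟩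
noncomputable def l5q3_7 : Fn2 := ⟨_, _, fun h1 h2 => (enc_half (c3g.enc h1))⟩
noncomputable def l5q3_8 : Fn2 := ⟨_, _, fun h1 h2 => (enc_scaleT 1 4 h1)⟩
noncomputable def l5q3_9 : Fn2 := ⟨_, _, fun h1 h2 => (enc_sub (l5q3_7.enc h1 h2) (l5q3_8.enc h1 h2))⟩
noncomputable def l5q3_12 : Fn2 := ⟨_, _, fun h1 h2 => (enc_add (enc_scaleT 1 4 (c3g.enc h1)) (enc_scaleT 3 8 h1))⟩
noncomputable def l5q3_14 : Fn2 := ⟨_, _, fun h1 h2 => (enc_half (l5q3_9.enc h1 h2))⟩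
noncomputable def l5q3 : Fn2 := ⟨_, _, fun h1 h2 => (enc_norm (enc_sub (enc_nat 2 (txg.enc (enc_norm (enc_sub (l5q3_8.enc h1 h2) (l5q3_7.enc h1 h2))) (enc_norm (enc_add (l5q3_12.enc h1 h2) (l5q3_14.enc h1 h2))) h2)) (txg.enc (enc_norm (l5q3_9.enc h1 h2)) (enc_norm (enc_sub (l5q3_12.enc h1 h2) (l5q3_14.enc h1 h2))) h2)))⟩
noncomputable def bx4q3_3 : Fn2 := ⟨_, _, fun h1 h2 => (enc_subr 487 520 h2)⟩
noncomputable def bx4q3 : Fn2 := ⟨_, _, fun h1 h2 => (enc_norm (enc_case (enc_subr 48 25 h1) (enc_case (enc_subr 9 5 h1) (enc_add (enc_subr 158857 100000 (enc_scaleT 8641 7500 h1)) (enc_mul (enc_norm (bx4q3_3.enc h1 h2)) (enc_norm (enc_subr 33561 5000 (enc_scaleT 1796 375 h1))))) (enc_add (enc_subr 158863 100000 (enc_scaleT 6913 6000 h1)) (enc_mul (enc_norm (bx4q3_3.enc h1 h2)) (enc_norm (enc_subr 16791 2500 (enc_scaleT 115 24 h1)))))) (enc_case (enc_subr 49 25 h1) (enc_add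 (enc_subr 158831 100000 (enc_scaleT 144 125 h1)) (enc_mul (enc_norm (bx4q3_3.enc h1 h2)) (enc_norm (enc_subr 3359 500 (enc_scaleT 1917 400 h1))))) (enc_case (enc_sub (enc_rat _ 122167917 500000000) (c3g.enc h1)) (enc_add (enc_sub (enc_rat _ 636670062811 836149375000) (enc_scaleT 356400 1337839 (c3g.enc h1))) (enc_mul (enc_norm (bx4q3_3.enc h1 h2)) (enc_norm (enc_sub (enc_rat _ 942345147917 334459750000) (enc_scaleT 552000 1337839 (c3g.enc h1)))))) (enc_add (enc_sub (enc_rat _ 4277249 6000000) (enc_scaleT 24802250 366503751 (c3g.enc h1))) (enc_mul (enc_norm (bx4q3_3.enc h1 h2)) (enc_norm (enc_sub (enc_rat _ 210709 75000) (enc_scaleT 139130000 366503751 (c3g.enc h1))))))))))⟩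
noncomputable def l3q3_4 : Fn2 := ⟨_, _, fun h1 h2 => (enc_subr 487 520 h2)⟩
noncomputable def l3q3_6 : Fn2 := ⟨_, _, fun h1 h2 => (enc_subr 9 5 h1)⟩
noncomputable def l3q3_31 : Fn2 := ⟨_, _, fun h1 h2 => (enc_sq (enc_norm (l3q3_4.enc h1 h2)))⟩
noncomputable def l3q3_38 : Fn2 := ⟨_, _, fun h1 h2 => (enc_sub (enc_rat _ 122167917 500000000) (c3g.enc h1))⟩
noncomputable def l3q3_66 : Fn2 := ⟨_, _, fun h1 h2 => (enc_subn 1 h1)⟩
noncomputable def l3q3_136 : Fn2 := ⟨_, _, fun h1 h2 => (enc_mul (cv2r.enc h1) (enc_norm (enc_case (enc_subr 48 25 h1) (enc_case (l3q3_6.enc h1 h2) (enc_add (enc_subr 15849 10000 (enc_scaleT 38251 30000 h1)) (enc_mul (enc_norm (l3q3_4.enc h1 h2)) (enc_norm (enc_subr 1959 1000 (enc_scaleT 1223 1000 h1))))) (enc_add (enc_subr 158499 100000 (enc_scaleT 15301 12000 h1)) (enc_mul (enc_norm (l3q3_4.enc h1 h2)) (enc_norm (enc_subr 12873 5000 (enc_scaleT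 313 200 h1)))))) (enc_case (enc_subr 49 25 h1) (enc_add (enc_subr 158483 100000 (enc_scaleT 51 40 h1)) (enc_mul (enc_norm (l3q3_4.enc h1 h2)) (enc_norm (enc_subr 124929 5000 (enc_scaleT 1059 80 h1))))) (enc_case (l3q3_38.enc h1 h2) (enc_add (enc_add (enc_scaleT 683600 4013517 (c3g.enc h1)) (enc_rat _ 1430590772599 1672298750000)) (enc_mul (enc_norm (l3q3_4.enc h1 h2)) (enc_norm (enc_sub (enc_rat _ 982065291837 334459750000) (enc_scaleT 7672000 1337839 (c3g.enc h1)))))) (enc_add (enc_add (enc_scaleT 6935000 40722639 (c3g.enc h1)) (enc_rat _ 85547 100000)) (enc_mul (enc_norm (l3q3_4.enc h1 h2)) (enc_norm (enc_sub (enc_rat _ 7339 2500) (enc_scaleT 700250000 122167917 (c3g.enc h1)))))))))))⟩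
noncomputable def l3q3 : Fn2 := ⟨_, _, fun h1 h2 => (enc_norm (enc_case (enc_subr 19181 10000 h1) (enc_mul (cv3r.enc h1) (enc_norm (enc_case (l3q3_6.enc h1 h2) (enc_add (enc_subr 93527 100000 (enc_scaleT 8987 10000 h1)) (enc_mul (enc_norm (l3q3_4.enc h1 h2)) (enc_norm (enc_sub (enc_rat _ 20071 10000) (enc_scaleT 3491 3000 h1))))) (enc_add (enc_add (enc_subr 5522339861 5905000000 (enc_scaleT 1061316979 1181000000 h1)) (enc_mul (enc_norm (l3q3_4.enc h1 h2)) (enc_norm (enc_subr 18431348519 590500000 (enc_scaleT 2042186641 118100000 h1))))) (enc_mul (l3q3_31.enc h1 h2) (enc_norm (enc_sub (enc_rat _ 194877 295250) (enc_scaleT 21653 59050 h1)))))))) (enc_case (enc_subr 19567 10000 h1) (enc_add (l3q3_136.enc h1 h2) (enc_mul (enc_norm (enc_mul (enc_norm (enc_sub (enc_sub (qsg.enc (enc_norm (l3q3_66.enc h1 h2))) (enc_mul (enc_norm (enc_nat 2 (enc_sub (l3q3_66.enc h1 h2)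 h2))) (enc_norm (enc_mul (esg.enc (enc_norm (l3q3_66.enc h1 h2))) (kcg.enc (enc_norm (enc_sub (enc_scaleT 3 4 (l3q3_66.enc h1 h2)) (enc_half (gsg.enc (enc_norm (l3q3_66.enc h1 h2)))))) h2))))) (l3q3_136.enc h1 h2))) (enc_norm (enc_sub (cv3r.enc h1) (cv2r.enc h1))))) (enc_inv (enc_sub (enc_subr 1 2 (swg.enc h1)) (cv2r.enc h1))))) (enc_mul (cv3r.enc h1) (enc_norm (enc_case (l3q3_38.enc h1 h2) (enc_add (enc_add (enc_sub (enc_rat _ 1217203950910943 1485996484375000) (enc_scaleT 3470528 95103775 (c3g.enc h1))) (enc_mul (enc_norm (l3q3_4.enc h1 h2)) (enc_norm (enc_add (enc_scaleT 6785717 57062265 (c3g.enc h1)) (enc_rat _ 19472917612752837 9510377500000000))))) (enc_mul (l3q3_31.enc h1 h2) (enc_norm (enc_subr 29120229754593 19020755000000 (enc_scaleT 71508700 11412453 (c3g.enc h1)))))) (enc_add (enc_add (enc_scaleT 145987750 366503751 (c3g.enc h1)) (enc_rat _ 4277249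 6000000)) (enc_mul (enc_norm (l3q3_4.enc h1 h2)) (enc_norm (enc_sub (enc_rat _ 210709 75000) (enc_scaleT 1099280000 366503751 (c3g.enc h1))))))))))))⟩
noncomputable def bx3q3_3 : Fn2 := ⟨_, _, fun h1 h2 => (enc_subr 487 520 h2)⟩
noncomputable def bx3q3_30 : Fn2 := ⟨_, _, fun h1 h2 => (enc_sq (enc_norm (bx3q3_3.enc h1 h2)))⟩
noncomputable def bx3q3 : Fn2 := ⟨_, _, fun h1 h2 => (enc_norm (enc_case (enc_subr 9687 5000 h1) (enc_case (enc_subr 9 5 h1) (enc_add (enc_subr 93527 100000 (enc_scaleT 8987 10000 h1)) (enc_mul (enc_norm (bx3q3_3.enc h1 h2)) (enc_norm (enc_sub (enc_rat _ 20071 10000) (enc_scaleT 3491 3000 h1))))) (enc_add (enc_add (enc_subr 5522339861 5905000000 (enc_scaleT 1061316979 1181000000 h1)) (enc_mul (enc_norm (bx3q3_3.enc h1 h2)) (enc_norm (enc_subr 18431348519 590500000 (enc_scaleT 2042186641 118100000 h1))))) (enc_mul (bx3q3_30.enc h1 h2) (enc_norm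 (enc_sub (enc_rat _ 194877 295250) (enc_scaleT 21653 59050 h1)))))) (enc_case (enc_sub (enc_rat _ 122167917 500000000) (c3g.enc h1)) (enc_add (enc_add (enc_sub (enc_rat _ 1217203950910943 1485996484375000) (enc_scaleT 3470528 95103775 (c3g.enc h1))) (enc_mul (enc_norm (bx3q3_3.enc h1 h2)) (enc_norm (enc_add (enc_scaleT 6785717 57062265 (c3g.enc h1)) (enc_rat _ 19472917612752837 9510377500000000))))) (enc_mul (bx3q3_30.enc h1 h2) (enc_norm (enc_subr 29120229754593 19020755000000 (enc_scaleT 71508700 11412453 (c3g.enc h1)))))) (enc_add (enc_add (enc_scaleT 145987750 366503751 (c3g.enc h1)) (enc_rat _ 4277249 6000000)) (enc_mul (enc_norm (bx3q3_3.enc h1 h2)) (enc_norm (enc_sub (enc_rat _ 210709 75000) (enc_scaleT 1099280000 366503751 (c3g.enc h1)))))))))⟩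
noncomputable def bx2q3_3 : Fn2 := ⟨_, _, fun h1 h2 => (enc_subr 487 520 h2)⟩
noncomputable def bx2q3 : Fn2 := ⟨_, _, fun h1 h2 => (enc_norm (enc_case (enc_subr 48 25 h1) (enc_case (enc_subr 9 5 h1) (enc_add (enc_subr 15849 10000 (enc_scaleT 38251 30000 h1)) (enc_mul (enc_norm (bx2q3_3.enc h1 h2)) (enc_norm (enc_subr 1959 1000 (enc_scaleT 1223 1000 h1))))) (enc_add (enc_subr 158499 100000 (enc_scaleT 15301 12000 h1)) (enc_mul (enc_norm (bx2q3_3.enc h1 h2)) (enc_norm (enc_subr 12873 5000 (enc_scaleT 313 200 h1)))))) (enc_case (enc_subr 49 25 h1) (enc_add (enc_subr 158483 100000 (enc_scaleT 51 40 h1)) (enc_mul (enc_norm (bx2q3_3.enc h1 h2)) (enc_norm (enc_subr 124929 5000 (enc_scaleT 1059 80 h1))))) (enc_case (enc_sub (enc_rat _ 122167917 500000000) (c3g.enc h1)) (enc_add (enc_add (enc_scaleT 683600 4013517 (c3g.enc h1)) (enc_rat _ 1430590772599 1672298750000))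 (enc_mul (enc_norm (bx2q3_3.enc h1 h2)) (enc_norm (enc_sub (enc_rat _ 982065291837 334459750000) (enc_scaleT 7672000 1337839 (c3g.enc h1)))))) (enc_add (enc_add (enc_scaleT 6935000 40722639 (c3g.enc h1)) (enc_rat _ 85547 100000)) (enc_mul (enc_norm (bx2q3_3.enc h1 h2)) (enc_norm (enc_sub (enc_rat _ 7339 2500) (enc_scaleT 700250000 122167917 (c3g.enc h1))))))))))⟩
noncomputable def bx1q3_3 : Fn2 := ⟨_, _, fun h1 h2 => (enc_subr 487 520 h2)⟩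
noncomputable def bx1q3_27 : Fn2 := ⟨_, _, fun h1 h2 => (enc_mul (enc_norm (bx1q3_3.enc h1 h2)) (enc_norm (enc_subr 1677 200 (enc_scaleT 621 100 h1))))⟩
noncomputable def bx1q3 : Fn2 := ⟨_, _, fun h1 h2 => (enc_norm (enc_case (enc_subr 48 25 h1) (enc_case (enc_subr 9 5 h1) (enc_add (enc_subr 1587 1000 (enc_scaleT 17033 15000 h1)) (enc_mul (enc_norm (bx1q3_3.enc h1 h2)) (enc_norm (enc_subr 41913 5000 (enc_scaleT 9313 1500 h1))))) (enc_add (enc_subr 158709 100000 (enc_scaleT 13627 12000 h1)) (bx1q3_27.enc h1 h2))) (enc_case (enc_subr 49 25 h1) (enc_add (enc_subr 158693 100000 (enc_scaleT 2271 2000 h1)) (bx1q3_27.enc h1 h2)) (enc_case (enc_sub (enc_rat _ 122167917 500000000) (c3g.enc h1)) (enc_add (enc_sub (enc_rat _ 2509193983119 3344597500000) (enc_scaleT 1299200 4013517 (c3g.enc h1))) (enc_mul (enc_norm (bx1q3_3.enc h1 h2)) (enc_norm (enc_sub (enc_rat _ 1470627045931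 334459750000) (enc_scaleT 7108000 4013517 (c3g.enc h1)))))) (enc_add (enc_sub (enc_rat _ 4689 6250) (enc_scaleT 4395000 13574213 (c3g.enc h1))) (enc_mul (enc_norm (bx1q3_3.enc h1 h2)) (enc_norm (enc_sub (enc_rat _ 2748 625) (enc_scaleT 216250000 122167917 (c3g.enc h1))))))))))⟩
noncomputable def rxq3_36 : Fn3 := ⟨_, _, fun h1 h2 h3 => (enc_add (enc_mul h1 (bx3q3.enc h2 h3)) (enc_mul (enc_norm (enc_mul (enc_norm (enc_sub (enc_pnc _ 1) (lm2r.enc h1 h2))) (cv2r.enc h2))) (enc_norm (enc_sub (bx2q3.enc h2 h3) (bx3q3.enc h2 h3)))))⟩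
noncomputable def rxq3_37 : Fn3 := ⟨_, _, fun h1 h2 h3 => (enc_subn 1 h2)⟩
noncomputable def rxq3_49 : Fn3 := ⟨_, _, fun h1 h2 h3 => (enc_sub (qsg.enc (enc_norm (rxq3_37.enc h1 h2 h3))) (enc_mul (enc_norm (enc_nat 2 (enc_sub (rxq3_37.enc h1 h2 h3) h3))) (enc_norm (enc_mul (esg.enc (enc_norm (rxq3_37.enc h1 h2 h3))) (kcg.enc (enc_norm (enc_sub (enc_scaleT 3 4 (rxq3_37.enc h1 h2 h3)) (enc_half (gsg.enc (enc_norm (rxq3_37.enc h1 h2 h3)))))) h3)))))⟩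
noncomputable def rxq3_54 : Fn3 := ⟨_, _, fun h1 h2 h3 => (enc_subr 1 2 (swg.enc h2))⟩
noncomputable def rxq3_55 : Fn3 := ⟨_, _, fun h1 h2 h3 => (enc_sub h1 (cv2r.enc h2))⟩
noncomputable def rxq3 : Fn3 := ⟨_, _, fun h1 h2 h3 => (enc_case (enc_sub h1 (cv1r.enc h2)) (enc_mul h1 (bx1q3.enc h2 h3)) (enc_case (rxq3_55.enc h1 h2 h3) (enc_add (enc_mul h1 (bx2q3.enc h2 h3)) (enc_mul (enc_norm (enc_mul (enc_norm (enc_sub (enc_pnc _ 1) (lm1r.enc h1 h2))) (cv1r.enc h2))) (enc_norm (enc_sub (bx1q3.enc h2 h3) (bx2q3.enc h2 h3))))) (enc_case (enc_sub h1 (cv3r.enc h2)) (enc_case (enc_subr 19181 10000 h2) (rxq3_36.enc h1 h2 h3) (enc_case (enc_subr 19567 10000 h2) (enc_wL (enc_add (l2q3.enc h2 h3) (enc_mul (enc_norm (enc_mul (enc_norm (rxq3_55.enc h1 h2 h3)) (enc_inv (enc_sub (rxq3_54.enc h1 h2 h3) (cv2r.enc h2))))) (enc_norm (enc_sub (rxq3_49.enc h1 h2 h3) (l2q3.enc h2 h3)))))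 h1 (rxq3_54.enc h1 h2 h3) (cv2r.enc h2) (rxq3_49.enc h1 h2 h3) (l2q3.enc h2 h3) rfl) (rxq3_36.enc h1 h2 h3))) (enc_case (enc_sub h1 (cv4r.enc h2)) (enc_add (enc_mul h1 (bx4q3.enc h2 h3)) (enc_mul (enc_norm (enc_sub (enc_pnc _ 1) (lm3r.enc h1 h2))) (enc_norm (enc_sub (l3q3.enc h2 h3) (enc_mul (cv3r.enc h2) (bx4q3.enc h2 h3)))))) (enc_add (l4q3.enc h2 h3) (enc_mul (lm4r.enc h1 h2) (enc_norm (enc_sub (l5q3.enc h2 h3) (l4q3.enc h2 h3)))))))))⟩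
noncomputable def rlq3 : Fn3 := ⟨_, _, fun h1 h2 h3 => (enc_case h1 (enc_neg (rxq3.enc (enc_neg h1) h2 h3)) (rxq3.enc h1 h2 h3))⟩
noncomputable def bd3q0_3 : Fn2 := ⟨_, _, fun h1 h2 => (enc_subr 487 520 h2)⟩
noncomputable def bd3q0 : Fn2 := ⟨_, _, fun h1 h2 => (enc_norm (enc_case (enc_subr 313 5000 h1) (enc_add (enc_subr 579 1250 (enc_neg (enc_scaleT 1098466347 54125000 h1))) (enc_mul (enc_norm (bd3q0_3.enc h1 h2)) (enc_norm (enc_sub (enc_rat _ 71 10) (enc_scaleT 2740930891 43300000 h1))))) (enc_add (enc_sub (enc_rat _ 157655019 8362000000) (enc_scaleT 79052219 4181000000 h1)) (enc_mul (enc_norm (bd3q0_3.enc h1 h2)) (enc_norm (enc_subr 15990951 26131250 (enc_scaleT 15989577 26131250 h1)))))))⟩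
noncomputable def rcq0_36 : Fn3 := ⟨_, _, fun h1 h2 h3 => (enc_add (enc_mul h1 (bd3q0.enc h2 h3)) (enc_mul (enc_norm (enc_mul (enc_norm (enc_sub (enc_pnc _ 1) (lm2m.enc h1 h2))) (cv2m.enc h2))) (enc_norm (enc_sub (bd2q0.enc h2 h3) (bd3q0.enc h2 h3)))))⟩
noncomputable def rcq0_38 : Fn3 := ⟨_, _, fun h1 h2 h3 => (enc_sub (enc_pnc _ 1) h2)⟩
noncomputable def rcq0_39 : Fn3 := ⟨_, _, fun h1 h2 h3 => (gsg.enc (enc_norm (rcq0_38.enc h1 h2 h3)))⟩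
noncomputable def rcq0_43 : Fn3 := ⟨_, _, fun h1 h2 h3 => (esg.enc (enc_norm (rcq0_38.enc h1 h2 h3)))⟩
noncomputable def rcq0_47 : Fn3 := ⟨_, _, fun h1 h2 h3 => (gug.enc (enc_norm (rcq0_38.enc h1 h2 h3)))⟩
noncomputable def rcq0_49 : Fn3 := ⟨_, _, fun h1 h2 h3 => (enc_mul (enc_norm (rcq0_38.enc h1 h2 h3)) (enc_inv (rcq0_39.enc h1 h2 h3)))⟩
noncomputable def rcq0_50 : Fn3 := ⟨_, _, fun h1 h2 h3 => (enc_scaleT 3 4 (rcq0_49.enc h1 h2 h3))⟩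
noncomputable def rcq0_77 : Fn3 := ⟨_, _, fun h1 h2 h3 => (enc_add (enc_sub (enc_neg (enc_add (enc_add (enc_rat _ 3 4) (enc_scaleT 3 2 (rcq0_38.enc h1 h2 h3))) (enc_scaleT 3 4 (enc_mul (enc_norm (rcq0_49.enc h1 h2 h3)) (rcq0_47.enc h1 h2 h3))))) (enc_wT (enc_mul (enc_norm (enc_sub (enc_mul (enc_norm (enc_mul (enc_norm (rcq0_50.enc h1 h2 h3)) (enc_norm (enc_subn 3 (enc_nat 4 (rcq0_39.enc h1 h2 h3)))))) (rcq0_43.enc h1 h2 h3)) (enc_mul (qsg.enc (enc_norm (rcq0_38.enc h1 h2 h3))) (enc_norm (enc_sub (enc_rat _ 1 2) (rcq0_50.enc h1 h2 h3)))))) (enc_inv (enc_mul (enc_nat 2 (rcq0_43.enc h1 h2 h3)) (rcq0_43.enc h1 h2 h3)))) (rcq0_38.enc h1 h2 h3) (rcq0_39.enc h1 h2 h3) (rcq0_43.enc h1 h2 h3) rfl rfl rfl rfl)) (enc_mul (kcg.enc (enc_norm (enc_sub (enc_scaleT 3 4 (rcq0_38.enc h1 h2 h3)) (enc_half (rcq0_39.enc h1 h2 h3)))) h3) (enc_norm (enc_add (enc_pnc _ 1) (enc_add (rcq0_47.enc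 h1 h2 h3) (enc_nat 2 (rcq0_39.enc h1 h2 h3)))))))⟩
noncomputable def rcq0_80 : Fn3 := ⟨_, _, fun h1 h2 h3 => (enc_add (swg.enc h2) (enc_rat _ 1 2))⟩
noncomputable def rcq0_81 : Fn3 := ⟨_, _, fun h1 h2 h3 => (enc_sub h1 (cv2m.enc h2))⟩
noncomputable def rcq0 : Fn3 := ⟨_, _, fun h1 h2 h3 => (enc_case (enc_sub h1 (cv1m.enc h2)) (enc_add (enc_mul h1 (bd1q0.enc h2 h3)) (enc_mul (enc_norm (enc_sub (enc_pnc _ 1) (lm0m.enc h1 h2))) (enc_norm (enc_sub (kc0q0.enc h2 h3) (enc_mul (c1g.enc h2) (bd1q0.enc h2 h3)))))) (enc_case (rcq0_81.enc h1 h2 h3) (enc_add (enc_mul h1 (bd2q0.enc h2 h3)) (enc_mul (enc_norm (enc_mul (enc_norm (enc_sub (enc_pnc _ 1) (lm1m.enc h1 h2))) (cv1m.enc h2))) (enc_norm (enc_sub (bd1q0.enc h2 h3) (bd2q0.enc h2 h3))))) (enc_case (enc_sub h1 (cv3m.enc h2)) (enc_case (enc_subr 433 10000 h2) (rcq0_36.enc h1 h2 h3) (enc_case (enc_subr 819 10000 h2) (enc_wL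 (enc_add (kc2q0.enc h2 h3) (enc_mul (enc_norm (enc_mul (enc_norm (rcq0_81.enc h1 h2 h3)) (enc_inv (enc_sub (rcq0_80.enc h1 h2 h3) (cv2m.enc h2))))) (enc_norm (enc_sub (rcq0_77.enc h1 h2 h3) (kc2q0.enc h2 h3))))) h1 (rcq0_80.enc h1 h2 h3) (cv2m.enc h2) (rcq0_77.enc h1 h2 h3) (kc2q0.enc h2 h3) rfl) (rcq0_36.enc h1 h2 h3))) (enc_case (enc_sub h1 (cv4m.enc h2)) (enc_add (enc_mul h1 (bd4q0.enc h2 h3)) (enc_mul (enc_norm (enc_sub (enc_pnc _ 1) (lm3m.enc h1 h2))) (enc_norm (enc_sub (kc3q0.enc h2 h3) (enc_mul (cv3m.enc h2) (bd4q0.enc h2 h3)))))) (enc_add (kc4q0.enc h2 h3) (enc_mul (lm4m.enc h1 h2) (enc_norm (enc_sub (kc5q0.enc h2 h3) (kc4q0.enc h2 h3)))))))))⟩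
noncomputable def pd0 : Fn3 := ⟨_, _, fun h1 h2 h3 => (enc_case h1 (enc_neg (rcq0.enc (enc_neg h1) h2 h3)) (rcq0.enc h1 h2 h3))⟩
noncomputable def rcq1 : Fn3 := ⟨_, _, fun h1 h2 h3 => (enc_case (enc_sub h1 (cv1m.enc h2)) (enc_add (enc_mul h1 (bd1q1.enc h2 h3)) (enc_mul (enc_norm (enc_sub (enc_pnc _ 1) (lm0m.enc h1 h2))) (enc_norm (enc_sub (kc0q1.enc h2 h3) (enc_mul (c1g.enc h2) (bd1q1.enc h2 h3)))))) (enc_case (enc_sub h1 (cv2m.enc h2)) (enc_add (enc_mul h1 (bd2q1.enc h2 h3)) (enc_mul (enc_norm (enc_mul (enc_norm (enc_sub (enc_pnc _ 1) (lm1m.enc h1 h2))) (cv1m.enc h2))) (enc_norm (enc_sub (bd1q1.enc h2 h3) (bd2q1.enc h2 h3))))) (enc_case (enc_sub h1 (cv3m.enc h2)) (enc_add (enc_mul h1 (bd3q1.enc h2 h3)) (enc_mul (enc_norm (enc_mul (enc_norm (enc_sub (enc_pnc _ 1) (lm2m.enc h1 h2))) (cv2m.enc h2))) (enc_norm (enc_sub (bd2q1.enc h2 h3) (bd3q1.enc h2 h3))))) (enc_case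 (enc_sub h1 (cv4m.enc h2)) (enc_add (enc_mul h1 (bd4q1.enc h2 h3)) (enc_mul (enc_norm (enc_mul (enc_norm (enc_sub (enc_pnc _ 1) (lm3m.enc h1 h2))) (cv3m.enc h2))) (enc_norm (enc_sub (bd3q1.enc h2 h3) (bd4q1.enc h2 h3))))) (enc_add (kc4q1.enc h2 h3) (enc_mul (lm4m.enc h1 h2) (enc_norm (enc_sub (kc5q1.enc h2 h3) (kc4q1.enc h2 h3)))))))))⟩
noncomputable def pd1 : Fn3 := ⟨_, _, fun h1 h2 h3 => (enc_case h1 (enc_neg (rcq1.enc (enc_neg h1) h2 h3)) (rcq1.enc h1 h2 h3))⟩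
noncomputable def kc0q2_3 : Fn2 := ⟨_, _, fun h1 h2 => (enc_subr 487 520 h2)⟩
noncomputable def kc0q2_12 : Fn2 := ⟨_, _, fun h1 h2 => (enc_scaleT 4429 1000 (c1g.enc h1))⟩
noncomputable def kc0q2 : Fn2 := ⟨_, _, fun h1 h2 => (enc_norm (enc_case (enc_subr 1 10 (c1g.enc h1)) (enc_sub (enc_mul (enc_norm (kc0q2_3.enc h1 h2)) (enc_scaleT 1227 25 (c1g.enc h1))) (kc0q2_12.enc h1 h2)) (enc_case (enc_subr 3 10 (c1g.enc h1)) (enc_sub (enc_mul (enc_norm (kc0q2_3.enc h1 h2)) (enc_norm (enc_subr 1 2000 (enc_scaleT 9817 200 (c1g.enc h1))))) (kc0q2_12.enc h1 h2)) (enc_add (enc_subr 13287 4000 (enc_scaleT 13287 2000 (c1g.enc h1))) (enc_mul (enc_norm (kc0q2_3.enc h1 h2)) (enc_norm (enc_sub (enc_rat _ 589 16) (enc_scaleT 589 8 (c1g.enc h1)))))))))⟩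
noncomputable def n0d : Fn2 := ⟨_, _, fun h1 h2 => (enc_norm (enc_subr 4429 1000 (enc_scaleT 1227 25 (enc_subr 487 520 h2))))⟩
noncomputable def rcq2_51 : Fn3 := ⟨_, _, fun h1 h2 h3 => (enc_mul h1 (bd1q2.enc h2 h3))⟩
noncomputable def rcq2_53 : Fn3 := ⟨_, _, fun h1 h2 h3 => (enc_sub (enc_pnc _ 1) (lm0p.enc h1 h2))⟩
noncomputable def rcq2 : Fn3 := ⟨_, _, fun h1 h2 h3 => (enc_case (enc_sub h1 (cv1p.enc h2)) (enc_case (enc_subr 1149 1000 h2) (enc_add (rcq2_51.enc h1 h2 h3) (enc_mul (enc_norm (rcq2_53.enc h1 h2 h3)) (enc_norm (enc_sub (kc0q2.enc h2 h3) (enc_mul (c1g.enc h2) (bd1q2.enc h2 h3)))))) (enc_case (enc_subr 2887 2500 h2) (enc_add (rcq2_51.enc h1 h2 h3) (enc_mul (enc_norm (rcq2_53.enc h1 h2 h3)) (enc_norm (enc_mul (c1g.enc h2) (enc_norm (enc_sub (n0d.enc h2 h3) (bd1q2.enc h2 h3))))))) (rcq2_51.enc h1 h2 h3))) (enc_case (enc_sub h1 (cv2p.enc h2)) (enc_add (enc_mul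 h1 (bd2q2.enc h2 h3)) (enc_mul (enc_norm (enc_mul (enc_norm (enc_sub (enc_pnc _ 1) (lm1p.enc h1 h2))) (cv1p.enc h2))) (enc_norm (enc_sub (bd1q2.enc h2 h3) (bd2q2.enc h2 h3))))) (enc_case (enc_sub h1 (cv3p.enc h2)) (enc_add (enc_mul h1 (bd3q2.enc h2 h3)) (enc_mul (enc_norm (enc_mul (enc_norm (enc_sub (enc_pnc _ 1) (lm2p.enc h1 h2))) (cv2p.enc h2))) (enc_norm (enc_sub (bd2q2.enc h2 h3) (bd3q2.enc h2 h3))))) (enc_case (enc_sub h1 (cv4p.enc h2)) (enc_add (enc_mul h1 (bd4q2.enc h2 h3)) (enc_mul (enc_norm (enc_mul (enc_norm (enc_sub (enc_pnc _ 1) (lm3p.enc h1 h2))) (cv3p.enc h2))) (enc_norm (enc_sub (bd3q2.enc h2 h3) (bd4q2.enc h2 h3))))) (enc_add (kc4q2.enc h2 h3) (enc_mul (lm4p.enc h1 h2) (enc_norm (enc_sub (kc5q2.enc h2 h3) (kc4q2.enc h2 h3)))))))))⟩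
noncomputable def pd2 : Fn3 := ⟨_, _, fun h1 h2 h3 => (enc_case h1 (enc_neg (rcq2.enc (enc_neg h1) h2 h3)) (rcq2.enc h1 h2 h3))⟩
noncomputable def kc4q3_4 : Fn2 := ⟨_, _, fun h1 h2 => (enc_subr 487 520 h2)⟩
noncomputable def kc4q3 : Fn2 := ⟨_, _, fun h1 h2 => (enc_norm (enc_mul (cv4r.enc h1) (enc_norm (enc_case (enc_subr 47 25 h1) (enc_add (enc_subr 2143149 190000 (enc_scaleT 38659 3800 h1)) (enc_mul (enc_norm (kc4q3_4.enc h1 h2)) (enc_norm (enc_sub (enc_rat _ 1600651 2375) (enc_scaleT 213307 380 h1))))) (enc_case (enc_subr 19567 10000 h1) (enc_add (enc_subr 86515279 7670000 (enc_scaleT 7803 767 h1)) (enc_mul (enc_norm (kc4q3_4.enc h1 h2)) (enc_norm (enc_sub (enc_rat _ 2067679 3068) (enc_scaleT 430540 767 h1))))) (enc_add (enc_add (enc_scaleT 146273050000 14965720197 (c3g.enc h1)) (enc_rat _ 17111 3340)) (enc_mul (enc_norm (kc4q3_4.enc h1 h2)) (enc_norm (enc_subr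 11091 334 (enc_neg (enc_scaleT 5444164000000 4988573399 (c3g.enc h1))))))))))))⟩
noncomputable def kc5q3_3 : Fn2 := ⟨_, _, fun h1 h2 => (enc_subr 487 520 h2)⟩
noncomputable def kc5q3_9 : Fn2 := ⟨_, _, fun h1 h2 => (enc_sub (enc_half (c3g.enc h1)) (enc_scaleT 1 4 h1))⟩
noncomputable def kc5q3_48 : Fn2 := ⟨_, _, fun h1 h2 => (enc_add (enc_sub (enc_rat _ 2499 10000) (enc_scaleT 3664 835 (kc5q3_9.enc h1 h2))) (enc_mul (enc_norm (kc5q3_3.enc h1 h2)) (enc_norm (enc_subr 17981 250 (enc_neg (enc_scaleT 30508 167 (kc5q3_9.enc h1 h2)))))))⟩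
noncomputable def kc5q3 : Fn2 := ⟨_, _, fun h1 h2 => (enc_norm (enc_case (kc5q3_9.enc h1 h2) (enc_case (enc_add (kc5q3_9.enc h1 h2) (enc_rat _ 333 1000)) (enc_add (enc_add (enc_scaleT 17111 1670 (kc5q3_9.enc h1 h2)) (enc_rat _ 17111 3340)) (enc_mul (enc_norm (kc5q3_3.enc h1 h2)) (enc_norm (enc_subr 11091 334 (enc_neg (enc_scaleT 11091 167 (kc5q3_9.enc h1 h2))))))) (enc_case (enc_add (kc5q3_9.enc h1 h2) (enc_rat _ 167 1000)) (enc_add (enc_sub (enc_rat _ 207427 830000) (enc_scaleT 1821 415 (kc5q3_9.enc h1 h2))) (enc_mul (enc_norm (kc5q3_3.enc h1 h2)) (enc_norm (enc_subr 11939331 166000 (enc_neg (enc_scaleT 30325 166 (kc5q3_9.enc h1 h2))))))) (kc5q3_48.enc h1 h2))) (enc_case (enc_subr 167 1000 (kc5q3_9.enc h1 h2)) (kc5q3_48.enc h1 h2) (enc_case (enc_subr 333 1000 (kc5q3_9.enc h1 h2)) (enc_add (enc_sub (enc_rat _ 414981 1660000) (enc_scaleT 1457 332 (kc5q3_9.enc h1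 h2))) (enc_mul (enc_norm (kc5q3_3.enc h1 h2)) (enc_norm (enc_subr 1193927 16600 (enc_neg (enc_scaleT 15163 83 (kc5q3_9.enc h1 h2))))))) (enc_add (enc_subr 6057 1670 (enc_scaleT 6057 835 (kc5q3_9.enc h1 h2))) (enc_mul (enc_norm (kc5q3_3.enc h1 h2)) (enc_norm (enc_subr 66379 167 (enc_scaleT 132758 167 (kc5q3_9.enc h1 h2))))))))))⟩
noncomputable def bd4q3_3 : Fn2 := ⟨_, _, fun h1 h2 => (enc_subr 487 520 h2)⟩
noncomputable def bd4q3 : Fn2 := ⟨_, _, fun h1 h2 => (enc_norm (enc_case (enc_subr 47 25 h1) (enc_add (enc_subr 2143149 190000 (enc_scaleT 38659 3800 h1)) (enc_mul (enc_norm (bd4q3_3.enc h1 h2)) (enc_norm (enc_sub (enc_rat _ 1600651 2375) (enc_scaleT 213307 380 h1))))) (enc_case (enc_subr 19567 10000 h1) (enc_add (enc_subr 86515279 7670000 (enc_scaleT 7803 767 h1)) (enc_mul (enc_norm (bd4q3_3.enc h1 h2)) (enc_norm (enc_sub (enc_rat _ 2067679 3068) (enc_scaleT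 430540 767 h1))))) (enc_add (enc_add (enc_scaleT 146273050000 14965720197 (c3g.enc h1)) (enc_rat _ 17111 3340)) (enc_mul (enc_norm (bd4q3_3.enc h1 h2)) (enc_norm (enc_subr 11091 334 (enc_neg (enc_scaleT 5444164000000 4988573399 (c3g.enc h1))))))))))⟩
noncomputable def kc3q3_4 : Fn2 := ⟨_, _, fun h1 h2 => (enc_subr 487 520 h2)⟩
noncomputable def kc3q3_28 : Fn2 := ⟨_, _, fun h1 h2 => (enc_subn 1 h1)⟩
noncomputable def kc3q3_29 : Fn2 := ⟨_, _, fun h1 h2 => (gsg.enc (enc_norm (kc3q3_28.enc h1 h2)))⟩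
noncomputable def kc3q3_33 : Fn2 := ⟨_, _, fun h1 h2 => (esg.enc (enc_norm (kc3q3_28.enc h1 h2)))⟩
noncomputable def kc3q3_38 : Fn2 := ⟨_, _, fun h1 h2 => (gug.enc (enc_norm (kc3q3_28.enc h1 h2)))⟩
noncomputable def kc3q3_40 : Fn2 := ⟨_, _, fun h1 h2 => (enc_mul (enc_norm (kc3q3_28.enc h1 h2)) (enc_inv (kc3q3_29.enc h1 h2)))⟩
noncomputable def kc3q3_41 : Fn2 := ⟨_, _, fun h1 h2 => (enc_scaleT 3 4 (kc3q3_40.enc h1 h2))⟩
noncomputable def kc3q3_82 : Fn2 := ⟨_, _, fun h1 h2 => (enc_subr 19567 10000 h1)⟩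
noncomputable def kc3q3_104 : Fn2 := ⟨_, _, fun h1 h2 => (enc_mul (cv2r.enc h1) (enc_norm (enc_case (enc_subr 47 25 h1) (enc_add (enc_subr 281919 19000 (enc_scaleT 7048 475 h1)) (enc_mul (enc_norm (kc3q3_4.enc h1 h2)) (enc_norm (enc_sub (enc_rat _ 453541 9500) (enc_scaleT 9071 190 h1))))) (enc_case (kc3q3_82.enc h1 h2) (enc_add (enc_subr 56906271 3835000 (enc_scaleT 11381 767 h1)) (enc_mul (enc_norm (kc3q3_4.enc h1 h2)) (enc_norm (enc_sub (enc_rat _ 18310431 383500) (enc_scaleT 36620 767 h1))))) (enc_add (enc_add (enc_scaleT 3213275000 89615091 (c3g.enc h1)) (enc_rat _ 839 625)) (enc_mul (enc_norm (kc3q3_4.enc h1 h2)) (enc_norm (enc_subr 5249 50 (enc_scaleT 4942000000 29871697 (c3g.enc h1))))))))))⟩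
noncomputable def kc3q3 : Fn2 := ⟨_, _, fun h1 h2 => (enc_norm (enc_case (enc_subr 19181 10000 h1) (enc_mul (cv3r.enc h1) (enc_norm (enc_add (enc_subr 378379541 8362000000 (enc_scaleT 3870908847 4181000000 h1)) (enc_mul (enc_norm (kc3q3_4.enc h1 h2)) (enc_norm (enc_sub (enc_rat _ 335012963 1337920) (enc_scaleT 1978230137 16724000 h1))))))) (enc_case (kc3q3_82.enc h1 h2) (enc_add (kc3q3_104.enc h1 h2) (enc_mul (enc_norm (enc_mul (enc_norm (enc_sub (enc_add (enc_sub (enc_add (enc_add (enc_rat _ 3 4) (enc_scaleT 3 2 (kc3q3_28.enc h1 h2))) (enc_scaleT 3 4 (enc_mul (enc_norm (kc3q3_40.enc h1 h2)) (kc3q3_38.enc h1 h2)))) (enc_wT (enc_mul (enc_norm (enc_sub (enc_mul (enc_norm (enc_mul (enc_norm (kc3q3_41.enc h1 h2)) (enc_norm (enc_subn 3 (enc_nat 4 (kc3q3_29.enc h1 h2)))))) (kc3q3_33.enc h1 h2)) (enc_mul (qsg.enc (enc_norm (kc3q3_28.enc h1 h2))) (enc_norm (enc_sub (enc_rat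 _ 1 2) (kc3q3_41.enc h1 h2)))))) (enc_inv (enc_mul (enc_nat 2 (kc3q3_33.enc h1 h2)) (kc3q3_33.enc h1 h2)))) (kc3q3_28.enc h1 h2) (kc3q3_29.enc h1 h2) (kc3q3_33.enc h1 h2) rfl rfl rfl rfl)) (enc_mul (kcg.enc (enc_norm (enc_sub (enc_scaleT 3 4 (kc3q3_28.enc h1 h2)) (enc_half (kc3q3_29.enc h1 h2)))) h2) (enc_norm (enc_sub (enc_pnc _ 1) (enc_add (kc3q3_38.enc h1 h2) (enc_nat 2 (kc3q3_29.enc h1 h2))))))) (kc3q3_104.enc h1 h2))) (enc_norm (enc_sub (cv3r.enc h1) (cv2r.enc h1))))) (enc_inv (enc_sub (enc_subr 1 2 (swg.enc h1)) (cv2r.enc h1))))) (enc_mul (cv3r.enc h1) (enc_norm (enc_add (enc_add (enc_scaleT 8133043644523 598628807880 (c3g.enc h1)) (enc_rat _ 17111 3340)) (enc_mul (enc_norm (kc3q3_4.enc h1 h2)) (enc_norm (enc_subr 11091 334 (enc_scaleT 8203480732931 59862880788 (c3g.enc h1)))))))))))⟩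
noncomputable def bd3q3_3 : Fn2 := ⟨_, _, fun h1 h2 => (enc_subr 487 520 h2)⟩
noncomputable def bd3q3 : Fn2 := ⟨_, _, fun h1 h2 => (enc_norm (enc_case (enc_subr 9687 5000 h1) (enc_add (enc_subr 378379541 8362000000 (enc_scaleT 3870908847 4181000000 h1)) (enc_mul (enc_norm (bd3q3_3.enc h1 h2)) (enc_norm (enc_sub (enc_rat _ 335012963 1337920) (enc_scaleT 1978230137 16724000 h1))))) (enc_add (enc_add (enc_scaleT 8133043644523 598628807880 (c3g.enc h1)) (enc_rat _ 17111 3340)) (enc_mul (enc_norm (bd3q3_3.enc h1 h2)) (enc_norm (enc_subr 11091 334 (enc_scaleT 8203480732931 59862880788 (c3g.enc h1))))))))⟩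
noncomputable def bd2q3_3 : Fn2 := ⟨_, _, fun h1 h2 => (enc_subr 487 520 h2)⟩
noncomputable def bd2q3 : Fn2 := ⟨_, _, fun h1 h2 => (enc_norm (enc_case (enc_subr 47 25 h1) (enc_add (enc_subr 281919 19000 (enc_scaleT 7048 475 h1)) (enc_mul (enc_norm (bd2q3_3.enc h1 h2)) (enc_norm (enc_sub (enc_rat _ 453541 9500) (enc_scaleT 9071 190 h1))))) (enc_case (enc_subr 19567 10000 h1) (enc_add (enc_subr 56906271 3835000 (enc_scaleT 11381 767 h1)) (enc_mul (enc_norm (bd2q3_3.enc h1 h2)) (enc_norm (enc_sub (enc_rat _ 18310431 383500) (enc_scaleT 36620 767 h1))))) (enc_add (enc_add (enc_scaleT 3213275000 89615091 (c3g.enc h1)) (enc_rat _ 839 625)) (enc_mul (enc_norm (bd2q3_3.enc h1 h2)) (enc_norm (enc_subr 5249 50 (enc_scaleT 4942000000 29871697 (c3g.enc h1)))))))))⟩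
noncomputable def bd1q3_3 : Fn2 := ⟨_, _, fun h1 h2 => (enc_subr 487 520 h2)⟩
noncomputable def bd1q3 : Fn2 := ⟨_, _, fun h1 h2 => (enc_norm (enc_case (enc_subr 47 25 h1) (enc_add (enc_sub (enc_rat _ 2714653 95000) (enc_scaleT 54293 1900 h1)) (enc_mul (enc_norm (bd1q3_3.enc h1 h2)) (enc_norm (enc_subr 6016163 19000 (enc_scaleT 30081 95 h1))))) (enc_case (enc_subr 19567 10000 h1) (enc_add (enc_sub (enc_rat _ 109584123 3835000) (enc_scaleT 21917 767 h1)) (enc_mul (enc_norm (bd1q3_3.enc h1 h2)) (enc_norm (enc_subr 242873351 767000 (enc_scaleT 242870 767 h1))))) (enc_add (enc_sub (enc_rat _ 306403 10000) (enc_scaleT 14494550000 89615091 (c3g.enc h1))) (enc_mul (enc_norm (bd1q3_3.enc h1 h2)) (enc_norm (enc_add (enc_scaleT 61951000000 89615091 (c3g.enc h1)) (enc_rat _ 5513 100))))))))⟩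
noncomputable def rcq3_36 : Fn3 := ⟨_, _, fun h1 h2 h3 => (enc_add (enc_mul h1 (bd3q3.enc h2 h3)) (enc_mul (enc_norm (enc_mul (enc_norm (enc_sub (enc_pnc _ 1) (lm2r.enc h1 h2))) (cv2r.enc h2))) (enc_norm (enc_sub (bd2q3.enc h2 h3) (bd3q3.enc h2 h3)))))⟩
noncomputable def rcq3_37 : Fn3 := ⟨_, _, fun h1 h2 h3 => (enc_subn 1 h2)⟩
noncomputable def rcq3_38 : Fn3 := ⟨_, _, fun h1 h2 h3 => (gsg.enc (enc_norm (rcq3_37.enc h1 h2 h3)))⟩
noncomputable def rcq3_42 : Fn3 := ⟨_, _, fun h1 h2 h3 => (esg.enc (enc_norm (rcq3_37.enc h1 h2 h3)))⟩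
noncomputable def rcq3_47 : Fn3 := ⟨_, _, fun h1 h2 h3 => (gug.enc (enc_norm (rcq3_37.enc h1 h2 h3)))⟩
noncomputable def rcq3_49 : Fn3 := ⟨_, _, fun h1 h2 h3 => (enc_mul (enc_norm (rcq3_37.enc h1 h2 h3)) (enc_inv (rcq3_38.enc h1 h2 h3)))⟩
noncomputable def rcq3_50 : Fn3 := ⟨_, _, fun h1 h2 h3 => (enc_scaleT 3 4 (rcq3_49.enc h1 h2 h3))⟩
noncomputable def rcq3_76 : Fn3 := ⟨_, _, fun h1 h2 h3 => (enc_add (enc_sub (enc_add (enc_add (enc_rat _ 3 4) (enc_scaleT 3 2 (rcq3_37.enc h1 h2 h3))) (enc_scaleT 3 4 (enc_mul (enc_norm (rcq3_49.enc h1 h2 h3)) (rcq3_47.enc h1 h2 h3)))) (enc_wT (enc_mul (enc_norm (enc_sub (enc_mul (enc_norm (enc_mul (enc_norm (rcq3_50.enc h1 h2 h3)) (enc_norm (enc_subn 3 (enc_nat 4 (rcq3_38.enc h1 h2 h3)))))) (rcq3_42.enc h1 h2 h3)) (enc_mul (qsg.enc (enc_norm (rcq3_37.enc h1 h2 h3))) (enc_norm (enc_sub (enc_rat _ 1 2) (rcq3_50.enc h1 h2 h3))))))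 (enc_inv (enc_mul (enc_nat 2 (rcq3_42.enc h1 h2 h3)) (rcq3_42.enc h1 h2 h3)))) (rcq3_37.enc h1 h2 h3) (rcq3_38.enc h1 h2 h3) (rcq3_42.enc h1 h2 h3) rfl rfl rfl rfl)) (enc_mul (kcg.enc (enc_norm (enc_sub (enc_scaleT 3 4 (rcq3_37.enc h1 h2 h3)) (enc_half (rcq3_38.enc h1 h2 h3)))) h3) (enc_norm (enc_sub (enc_pnc _ 1) (enc_add (rcq3_47.enc h1 h2 h3) (enc_nat 2 (rcq3_38.enc h1 h2 h3)))))))⟩
noncomputable def rcq3_80 : Fn3 := ⟨_, _, fun h1 h2 h3 => (enc_subr 1 2 (swg.enc h2))⟩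
noncomputable def rcq3_81 : Fn3 := ⟨_, _, fun h1 h2 h3 => (enc_sub h1 (cv2r.enc h2))⟩
noncomputable def rcq3 : Fn3 := ⟨_, _, fun h1 h2 h3 => (enc_case (enc_sub h1 (cv1r.enc h2)) (enc_mul h1 (bd1q3.enc h2 h3)) (enc_case (rcq3_81.enc h1 h2 h3) (enc_add (enc_mul h1 (bd2q3.enc h2 h3)) (enc_mul (enc_norm (enc_mul (enc_norm (enc_sub (enc_pnc _ 1) (lm1r.enc h1 h2))) (cv1r.enc h2))) (enc_norm (enc_sub (bd1q3.enc h2 h3) (bd2q3.enc h2 h3))))) (enc_case (enc_sub h1 (cv3r.enc h2)) (enc_case (enc_subr 19181 10000 h2) (rcq3_36.enc h1 h2 h3) (enc_case (enc_subr 19567 10000 h2) (enc_wL (enc_add (kc2q3.enc h2 h3) (enc_mul (enc_norm (enc_mul (enc_norm (rcq3_81.enc h1 h2 h3)) (enc_inv (enc_sub (rcq3_80.enc h1 h2 h3) (cv2r.enc h2))))) (enc_norm (enc_sub (rcq3_76.enc h1 h2 h3) (kc2q3.enc h2 h3))))) h1 (rcq3_80.enc h1 h2 h3) (cv2r.enc h2) (rcq3_76.enc h1 h2 h3) (kc2q3.enc h2 h3) rfl)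 (rcq3_36.enc h1 h2 h3))) (enc_case (enc_sub h1 (cv4r.enc h2)) (enc_add (enc_mul h1 (bd4q3.enc h2 h3)) (enc_mul (enc_norm (enc_sub (enc_pnc _ 1) (lm3r.enc h1 h2))) (enc_norm (enc_sub (kc3q3.enc h2 h3) (enc_mul (cv3r.enc h2) (bd4q3.enc h2 h3)))))) (enc_add (kc4q3.enc h2 h3) (enc_mul (lm4r.enc h1 h2) (enc_norm (enc_sub (kc5q3.enc h2 h3) (kc4q3.enc h2 h3)))))))))⟩
noncomputable def pd3 : Fn3 := ⟨_, _, fun h1 h2 h3 => (enc_case h1 (enc_neg (rcq3.enc (enc_neg h1) h2 h3)) (rcq3.enc h1 h2 h3))⟩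
noncomputable def mug3 : Fn1 := ⟨_, _, fun h1 => (enc_inv (enc_add (enc_nat 2 (gsg.enc h1)) (enc_pnc _ 3)))⟩
noncomputable def eng : Fn1 := ⟨_, _, fun h1 => (enc_norm (enc_add (enc_pnc _ 1) (enc_mul (mug3.enc h1) (gug.enc h1))))⟩
noncomputable def mog : Fn1 := ⟨_, _, fun h1 => (enc_norm (enc_scaleT 1 20 (enc_mul (mug3.enc h1) (esg.enc h1))))⟩
noncomputable def kf1q2 : Fn2 := ⟨_, _, fun h1 h2 => (enc_norm (enc_mul (cv1p.enc h1) (bf1q2.enc h1 h2)))⟩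
noncomputable def l1q2 : Fn2 := ⟨_, _, fun h1 h2 => (enc_norm (enc_mul (cv1p.enc h1) (bx1q2.enc h1 h2)))⟩
noncomputable def kc1q2 : Fn2 := ⟨_, _, fun h1 h2 => (enc_norm (enc_mul (cv1p.enc h1) (bd1q2.enc h1 h2)))⟩
noncomputable def kf2q2 : Fn2 := ⟨_, _, fun h1 h2 => (enc_norm (enc_mul (cv2p.enc h1) (bf2q2.enc h1 h2)))⟩
noncomputable def l2q2 : Fn2 := ⟨_, _, fun h1 h2 => (enc_norm (enc_mul (cv2p.enc h1) (bx2q2.enc h1 h2)))⟩
noncomputable def kc2q2 : Fn2 := ⟨_, _, fun h1 h2 => (enc_norm (enc_mul (cv2p.enc h1) (bd2q2.enc h1 h2)))⟩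

noncomputable def ndB0q0 : Node := ⟨idf, c1g, kf0q0, l0q0⟩
noncomputable def cd0q0 : Fn2 := kc0q0
noncomputable def ndB0q1 : Node := ⟨idf, c1g, kf0q1, l0q1⟩
noncomputable def cd0q1 : Fn2 := kc0q1
noncomputable def ndB0q2 : Node := ⟨yag, idf, kfc02, lc02⟩
noncomputable def cd0q2 : Fn2 := kcc02
noncomputable def ndB1q0 : Node := ⟨idf, cv1m, kf1q0, l1q0⟩
noncomputable def cd1q0 : Fn2 := kc1q0
noncomputable def ndB1q1 : Node := ⟨idf, cv1m, kf1q1, l1q1⟩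
noncomputable def cd1q1 : Fn2 := kc1q1
noncomputable def ndB1q2a : Node := ⟨yag, xc12a, kfc12a, lc12a⟩
noncomputable def cd1q2a : Fn2 := kcc12a
noncomputable def ndB1q2b : Node := ⟨idf, xc12b, kfc12b, lc12b⟩
noncomputable def cd1q2b : Fn2 := kcc12b
noncomputable def ndB1q3 : Node := ⟨idf, cv1r, kf1q3, l1q3⟩
noncomputable def cd1q3 : Fn2 := kc1q3
noncomputable def ndB2q0 : Node := ⟨idf, cv2m, kf2q0, l2q0⟩
noncomputable def cd2q0 : Fn2 := kc2q0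
noncomputable def ndB2q1 : Node := ⟨idf, cv2m, kf2q1, l2q1⟩
noncomputable def cd2q1 : Fn2 := kc2q1
noncomputable def ndB2q2a : Node := ⟨yag, xc22a, kfc22a, lc22a⟩
noncomputable def cd2q2a : Fn2 := kcc22a
noncomputable def ndB2q2b : Node := ⟨idf, xc22b, kfc22b, lc22b⟩
noncomputable def cd2q2b : Fn2 := kcc22b
noncomputable def ndB2q3 : Node := ⟨idf, cv2r, kf2q3, l2q3⟩
noncomputable def cd2q3 : Fn2 := kc2q3
noncomputable def ndB3q0 : Node := ⟨idf, cv3m, kf3q0, l3q0⟩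
noncomputable def cd3q0 : Fn2 := kc3q0
noncomputable def ndB3q1 : Node := ⟨idf, cv3m, kf3q1, l3q1⟩
noncomputable def cd3q1 : Fn2 := kc3q1
noncomputable def ndB3q2 : Node := ⟨idf, cv3p, kf3q2, l3q2⟩
noncomputable def cd3q2 : Fn2 := kc3q2
noncomputable def ndB3q3 : Node := ⟨ycg, xc33, kfc33, lc33⟩
noncomputable def cd3q3 : Fn2 := kcc33
noncomputable def ndB4q0 : Node := ⟨idf, cv4m, kf4q0, l4q0⟩
noncomputable def cd4q0 : Fn2 := kc4q0
noncomputable def ndB4q1 : Node := ⟨idf, cv4m, kf4q1, l4q1⟩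
noncomputable def cd4q1 : Fn2 := kc4q1
noncomputable def ndB4q2 : Node := ⟨idf, cv4p, kf4q2, l4q2⟩
noncomputable def cd4q2 : Fn2 := kc4q2
noncomputable def ndB4q3 : Node := ⟨ycg, xc43, kfc43, lc43⟩
noncomputable def cd4q3 : Fn2 := kcc43
noncomputable def ndB5q0 : Node := ⟨idf, c3g, kf5q0, l5q0⟩
noncomputable def cd5q0 : Fn2 := kc5q0
noncomputable def ndB5q1 : Node := ⟨idf, c3g, kf5q1, l5q1⟩
noncomputable def cd5q1 : Fn2 := kc5q1
noncomputable def ndB5q2 : Node := ⟨idf, c3g, kf5q2, l5q2⟩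
noncomputable def cd5q2 : Fn2 := kc5q2
noncomputable def ndB5q3 : Node := ⟨ycg, idf, kfc53, lc53⟩
noncomputable def cd5q3 : Fn2 := kcc53
noncomputable def pcB0 : Piece := ⟨rsbq0, rlq0⟩
noncomputable def pcB1 : Piece := ⟨rsbq1, rlq1⟩
noncomputable def pcB2 : Piece := ⟨rsbq2, rlq2⟩
noncomputable def pcB3 : Piece := ⟨rsbq3, rlq3⟩
noncomputable def ndB1q2 : Node := ⟨idf, cv1p, kf1q2, l1q2⟩
noncomputable def cd1q2 : Fn2 := kc1q2
noncomputable def ndB2q2 : Node := ⟨idf, cv2p, kf2q2, l2q2⟩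
noncomputable def cd2q2 : Fn2 := kc2q2
end Pool.Agent.Strip051.G.I9231_9500.Tab
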