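import Pool.Agent.Strip051.PB.StripC
import Pool.Agent.Strip051.G.I9231_9500.Fact

/-! # Facts about the strips of a table (generated) -/

set_option linter.all false
set_option maxRecDepth 4000

namespace Pool.Agent.Strip051.G.I9231_9500.Tab.St

open Pool.Agent.Strip051.PB Pool.Agent.StripNear Pool.Agent.Strip051.LC
open Pool.Agent.Strip051.G.I9231_9500.Tab

noncomputable def sl1 : Fn1 := ⟨_, _, fun h1 => (enc_norm (enc_subr 135517977 25000000 (enc_neg (enc_scaleT 41938279 2500000 (enc_subr 487 520 h1)))))⟩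
noncomputable def sv1 : Fn1 := ⟨_, _, fun h1 => (enc_norm (enc_subr 3731876507 1000000000 (enc_neg (enc_scaleT 2011801 250000 (enc_subr 487 520 h1)))))⟩
noncomputable def sw1 : Fn1 := ⟨_, _, fun h1 => (enc_norm (enc_add (enc_half (enc_subr 487 520 h1)) (enc_rat _ 3 250)))⟩
noncomputable def sl2 : Fn1 := ⟨_, _, fun h1 => (enc_norm (enc_subr 40527143 7500000 (enc_neg (enc_scaleT 21172967 1500000 (enc_subr 487 520 h1)))))⟩
noncomputable def sv2 : Fn1 := ⟨_, _, fun h1 => (enc_norm (enc_subr 1397930719 375000000 (enc_neg (enc_scaleT 1112318081 150000000 (enc_subr 487 520 h1)))))⟩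
noncomputable def sw2 : Fn1 := ⟨_, _, fun h1 => (enc_norm (enc_add (enc_scaleT 33 10 (enc_subr 487 520 h1)) (enc_rat _ 3 100)))⟩
noncomputable def sl3 : Fn1 := ⟨_, _, fun h1 => (enc_norm (enc_add (enc_scaleT 193089540589351 404473000000 (enc_subr 487 520 h1)) (enc_rat _ 1116602246863137 8089460000000)))⟩
noncomputable def sv3 : Fn1 := ⟨_, _, fun h1 => (enc_norm (enc_add (enc_scaleT 534054671952341 5055912500000 (enc_subr 487 520 h1)) (enc_rat _ 11835817362740711 404473000000000)))⟩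
noncomputable def sw3 : Fn1 := ⟨_, _, fun h1 => (enc_norm (enc_add (enc_scaleT 26877 50 (enc_subr 487 520 h1)) (enc_rat _ 77969 500)))⟩
noncomputable def sl4 : Fn1 := ⟨_, _, fun h1 => (enc_norm (enc_add (enc_scaleT 48001058540398379 7037078950000000 (enc_subr 487 520 h1)) (enc_rat _ 939422676143389789 70370789500000000)))⟩
noncomputable def sv4 : Fn1 := ⟨_, _, fun h1 => (enc_norm (enc_add (enc_scaleT 18784187072639499 7037078950000000 (enc_subr 487 520 h1)) (enc_rat _ 278896131171287217 140741579000000000)))⟩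
noncomputable def sw4 : Fn1 := ⟨_, _, fun h1 => (enc_norm (enc_sub (enc_rat _ 6739 500) (enc_scaleT 3 25 (enc_subr 487 520 h1))))⟩
noncomputable def sl5 : Fn1 := ⟨_, _, fun h1 => (enc_norm (enc_sub (enc_rat _ 49566175283 16393750000) (enc_scaleT 279882231617 2623000000 (enc_subr 487 520 h1))))⟩
noncomputable def sv5 : Fn1 := ⟨_, _, fun h1 => (enc_norm (enc_subr 9746083451 1311500000000 (enc_neg (enc_scaleT 1007130360969 52460000000 (enc_subr 487 520 h1)))))⟩
noncomputable def sw5 : Fn1 := ⟨_, _, fun h1 => (enc_norm (enc_sub (enc_rat _ 19 250) (enc_scaleT 7373 50 (enc_subr 487 520 h1))))⟩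
noncomputable def sl6 : Fn1 := ⟨_, _, fun h1 => (enc_norm (enc_sub (enc_rat _ 302243 100000) (enc_scaleT 266469 2500 (enc_subr 487 520 h1))))⟩
noncomputable def sv6 : Fn1 := ⟨_, _, fun h1 => (enc_norm (enc_subr 1523 200000 (enc_neg (enc_scaleT 383557 20000 (enc_subr 487 520 h1)))))⟩
noncomputable def sw6 : Fn1 := ⟨_, _, fun h1 => (enc_norm (enc_sub (enc_rat _ 149 2000) (enc_scaleT 29459 200 (enc_subr 487 520 h1))))⟩
noncomputable def sl7 : Fn1 := ⟨_, _, fun h1 => (enc_norm (enc_sub (enc_rat _ 308423 100000) (enc_scaleT 90393 5000 (enc_subr 487 520 h1))))⟩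
noncomputable def sv7 : Fn1 := ⟨_, _, fun h1 => (enc_norm (enc_sub (enc_rat _ 331 200000) (enc_scaleT 11803 2000 (enc_subr 487 520 h1))))⟩
noncomputable def sw7 : Fn1 := ⟨_, _, fun h1 => (enc_norm (enc_add (enc_scaleT 11 50 (enc_subr 487 520 h1)) (enc_rat _ 71 400)))⟩
noncomputable def sl8 : Fn1 := ⟨_, _, fun h1 => (enc_norm (enc_add (enc_scaleT 303187 5000 (enc_subr 487 520 h1)) (enc_rat _ 308583 100000)))⟩
noncomputable def sv8 : Fn1 := ⟨_, _, fun h1 => (enc_norm (enc_add (enc_scaleT 19701 10000 (enc_subr 487 520 h1)) (enc_rat _ 363 200000)))⟩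
noncomputable def sw8 : Fn1 := ⟨_, _, fun h1 => (enc_norm (enc_add (enc_scaleT 19701 100 (enc_subr 487 520 h1)) (enc_rat _ 363 2000)))⟩
noncomputable def sl9 : Fn1 := ⟨_, _, fun h1 => (enc_norm (enc_add (enc_scaleT 106177 5000 (enc_subr 487 520 h1)) (enc_rat _ 304953 100000)))⟩
noncomputable def sv9 : Fn1 := ⟨_, _, fun h1 => (enc_pnc _ 0)⟩
noncomputable def sl10 : Fn1 := ⟨_, _, fun h1 => (enc_norm (enc_add (enc_scaleT 303187 5000 (enc_subr 487 520 h1)) (enc_rat _ 308583 100000)))⟩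
noncomputable def sv10 : Fn1 := ⟨_, _, fun h1 => (enc_norm (enc_subr 363 200000 (enc_neg (enc_scaleT 19701 10000 (enc_subr 487 520 h1)))))⟩
noncomputable def sw10 : Fn1 := ⟨_, _, fun h1 => (enc_norm (enc_subr 363 2000 (enc_neg (enc_scaleT 19701 100 (enc_subr 487 520 h1)))))⟩
noncomputable def sl11 : Fn1 := ⟨_, _, fun h1 => (enc_norm (enc_sub (enc_rat _ 308423 100000) (enc_scaleT 90393 5000 (enc_subr 487 520 h1))))⟩
noncomputable def sv11 : Fn1 := ⟨_, _, fun h1 => (enc_norm (enc_subr 331 200000 (enc_scaleT 11803 2000 (enc_subr 487 520 h1))))⟩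
noncomputable def sw11 : Fn1 := ⟨_, _, fun h1 => (enc_norm (enc_subr 71 400 (enc_neg (enc_scaleT 11 50 (enc_subr 487 520 h1)))))⟩
noncomputable def sl12 : Fn1 := ⟨_, _, fun h1 => (enc_norm (enc_sub (enc_rat _ 302243 100000) (enc_scaleT 266469 2500 (enc_subr 487 520 h1))))⟩
noncomputable def sv12 : Fn1 := ⟨_, _, fun h1 => (enc_norm (enc_add (enc_scaleT 383557 20000 (enc_subr 487 520 h1)) (enc_rat _ 1523 200000)))⟩
noncomputable def sw12 : Fn1 := ⟨_, _, fun h1 => (enc_norm (enc_subr 149 2000 (enc_scaleT 29459 200 (enc_subr 487 520 h1))))⟩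
noncomputable def sl13 : Fn1 := ⟨_, _, fun h1 => (enc_norm (enc_sub (enc_rat _ 49566175283 16393750000) (enc_scaleT 279882231617 2623000000 (enc_subr 487 520 h1))))⟩
noncomputable def sv13 : Fn1 := ⟨_, _, fun h1 => (enc_norm (enc_add (enc_scaleT 1007130360969 52460000000 (enc_subr 487 520 h1)) (enc_rat _ 9746083451 1311500000000)))⟩
noncomputable def sw13 : Fn1 := ⟨_, _, fun h1 => (enc_norm (enc_subr 19 250 (enc_scaleT 7373 50 (enc_subr 487 520 h1))))⟩
noncomputable def sl14 : Fn1 := ⟨_, _, fun h1 => (enc_norm (enc_add (enc_scaleT 48001058540398379 7037078950000000 (enc_subr 487 520 h1)) (enc_rat _ 939422676143389789 70370789500000000)))⟩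
noncomputable def sv14 : Fn1 := ⟨_, _, fun h1 => (enc_norm (enc_subr 278896131171287217 140741579000000000 (enc_neg (enc_scaleT 18784187072639499 7037078950000000 (enc_subr 487 520 h1)))))⟩
noncomputable def sw14 : Fn1 := ⟨_, _, fun h1 => (enc_norm (enc_subr 6739 500 (enc_scaleT 3 25 (enc_subr 487 520 h1))))⟩
noncomputable def sl15 : Fn1 := ⟨_, _, fun h1 => (enc_norm (enc_add (enc_scaleT 193089540589351 404473000000 (enc_subr 487 520 h1)) (enc_rat _ 1116602246863137 8089460000000)))⟩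
noncomputable def sv15 : Fn1 := ⟨_, _, fun h1 => (enc_norm (enc_subr 11835817362740711 404473000000000 (enc_neg (enc_scaleT 534054671952341 5055912500000 (enc_subr 487 520 h1)))))⟩
noncomputable def sw15 : Fn1 := ⟨_, _, fun h1 => (enc_norm (enc_subr 77969 500 (enc_neg (enc_scaleT 26877 50 (enc_subr 487 520 h1)))))⟩
noncomputable def sl16 : Fn1 := ⟨_, _, fun h1 => (enc_norm (enc_subr 40527143 7500000 (enc_neg (enc_scaleT 21172967 1500000 (enc_subr 487 520 h1)))))⟩
noncomputable def sv16 : Fn1 := ⟨_, _, fun h1 => (enc_norm (enc_add (enc_scaleT 1112318081 150000000 (enc_subr 487 520 h1)) (enc_rat _ 1397930719 375000000)))⟩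
noncomputable def sw16 : Fn1 := ⟨_, _, fun h1 => (enc_norm (enc_subr 3 100 (enc_neg (enc_scaleT 33 10 (enc_subr 487 520 h1)))))⟩
noncomputable def sl17 : Fn1 := ⟨_, _, fun h1 => (enc_norm (enc_subr 135517977 25000000 (enc_neg (enc_scaleT 41938279 2500000 (enc_subr 487 520 h1)))))⟩
noncomputable def sv17 : Fn1 := ⟨_, _, fun h1 => (enc_norm (enc_add (enc_scaleT 2011801 250000 (enc_subr 487 520 h1)) (enc_rat _ 3731876507 1000000000)))⟩
noncomputable def sw17 : Fn1 := ⟨_, _, fun h1 => (enc_norm (enc_subr 3 250 (enc_neg (enc_half (enc_subr 487 520 h1)))))⟩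
noncomputable def sl34 : Fn1 := ⟨_, _, fun h1 => (enc_norm (enc_sub (enc_rat _ 195967 100000) (enc_scaleT 397 16 (enc_subr 487 520 h1))))⟩
noncomputable def sv34 : Fn1 := ⟨_, _, fun h1 => (enc_norm (enc_sub (enc_rat _ 54121 100000) (enc_scaleT 5233 800 (enc_subr 487 520 h1))))⟩
noncomputable def sw34 : Fn1 := ⟨_, _, fun h1 => (enc_norm (enc_sub (enc_rat _ 3509 2000) (enc_scaleT 1173 50 (enc_subr 487 520 h1))))⟩
noncomputable def sl35 : Fn1 := ⟨_, _, fun h1 => (enc_norm (enc_sub (enc_rat _ 32963 20000) (enc_scaleT 78493 10000 (enc_subr 487 520 h1))))⟩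
noncomputable def sv35 : Fn1 := ⟨_, _, fun h1 => (enc_norm (enc_sub (enc_rat _ 1166113 2500000) (enc_scaleT 1235041 500000 (enc_subr 487 520 h1))))⟩
noncomputable def sw35 : Fn1 := ⟨_, _, fun h1 => (enc_norm (enc_sub (enc_rat _ 143 100) (enc_scaleT 579 100 (enc_subr 487 520 h1))))⟩
noncomputable def sl36 : Fn1 := ⟨_, _, fun h1 => (enc_norm (enc_subr 249323 100000 (enc_neg (enc_scaleT 23983 10000 (enc_subr 487 520 h1)))))⟩
noncomputable def sv36 : Fn1 := ⟨_, _, fun h1 => (enc_norm (enc_subr 2430361 5000000 (enc_neg (enc_scaleT 38011 31250 (enc_subr 487 520 h1)))))⟩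
noncomputable def sw36 : Fn1 := ⟨_, _, fun h1 => (enc_norm (enc_subr 6143 2000 (enc_scaleT 27 200 (enc_subr 487 520 h1))))⟩
noncomputable def sl37 : Fn1 := ⟨_, _, fun h1 => (enc_norm (enc_sub (enc_rat _ 573 4000) (enc_scaleT 8803 10000 (enc_subr 487 520 h1))))⟩
noncomputable def sv37 : Fn1 := ⟨_, _, fun h1 => (enc_norm (enc_sub (enc_rat _ 469767 5000000) (enc_scaleT 110299 125000 (enc_subr 487 520 h1))))⟩
noncomputable def sw37 : Fn1 := ⟨_, _, fun h1 => (enc_norm (enc_subr 151 2000 (enc_scaleT 93 50 (enc_subr 487 520 h1))))⟩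
noncomputable def sl38 : Fn1 := ⟨_, _, fun h1 => (enc_norm (enc_add (enc_scaleT 247157 10000 (enc_subr 487 520 h1)) (enc_rat _ 4677 4000)))⟩
noncomputable def sv38 : Fn1 := ⟨_, _, fun h1 => (enc_norm (enc_add (enc_scaleT 529601 125000 (enc_subr 487 520 h1)) (enc_rat _ 1495767 5000000)))⟩
noncomputable def sw38 : Fn1 := ⟨_, _, fun h1 => (enc_norm (enc_add (enc_scaleT 6771 200 (enc_subr 487 520 h1)) (enc_rat _ 1207 1000)))⟩
noncomputable def sl39 : Fn1 := ⟨_, _, fun h1 => (enc_norm (enc_add (enc_scaleT 53687 10000 (enc_subr 487 520 h1)) (enc_rat _ 22617 20000)))⟩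
noncomputable def sv39 : Fn1 := ⟨_, _, fun h1 => (enc_norm (enc_add (enc_scaleT 667379 500000 (enc_subr 487 520 h1)) (enc_rat _ 1466967 5000000)))⟩
noncomputable def sw39 : Fn1 := ⟨_, _, fun h1 => (enc_norm (enc_add (enc_scaleT 161 100 (enc_subr 487 520 h1)) (enc_rat _ 1143 1000)))⟩
noncomputable def sl40 : Fn1 := ⟨_, _, fun h1 => (enc_norm (enc_add (enc_scaleT 6067 10000 (enc_subr 487 520 h1)) (enc_rat _ 2753 20000)))⟩
noncomputable def sv40 : Fn1 := ⟨_, _, fun h1 => (enc_norm (enc_add (enc_scaleT 429279 500000 (enc_subr 487 520 h1)) (enc_rat _ 970367 5000000)))⟩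
noncomputable def sw40 : Fn1 := ⟨_, _, fun h1 => (enc_norm (enc_subr 67 50 (enc_neg (enc_scaleT 2059 200 (enc_subr 487 520 h1)))))⟩
noncomputable def sl41 : Fn1 := ⟨_, _, fun h1 => (enc_norm (enc_add (enc_scaleT 6047 10000 (enc_subr 487 520 h1)) (enc_rat _ 551 4000)))⟩
noncomputable def sv41 : Fn1 := ⟨_, _, fun h1 => (enc_norm (enc_add (enc_scaleT 429229 500000 (enc_subr 487 520 h1)) (enc_rat _ 121299 625000)))⟩
noncomputable def sw41 : Fn1 := ⟨_, _, fun h1 => (enc_norm (enc_subr 2679 2000 (enc_neg (enc_scaleT 2061 200 (enc_subr 487 520 h1)))))⟩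
noncomputable def sl42 : Fn1 := ⟨_, _, fun h1 => (enc_norm (enc_add (enc_scaleT 6417 10000 (enc_subr 487 520 h1)) (enc_rat _ 2003 20000)))⟩
noncomputable def sv42 : Fn1 := ⟨_, _, fun h1 => (enc_norm (enc_add (enc_scaleT 26769 31250 (enc_subr 487 520 h1)) (enc_rat _ 61237 312500)))⟩
noncomputable def sw42 : Fn1 := ⟨_, _, fun h1 => (enc_norm (enc_subr 2303 2000 (enc_neg (enc_scaleT 1049 100 (enc_subr 487 520 h1)))))⟩
noncomputable def sl43 : Fn1 := ⟨_, _, fun h1 => (enc_norm (enc_sub (enc_rat _ 437 5000) (enc_scaleT 14013 10000 (enc_subr 487 520 h1))))⟩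
noncomputable def sv43 : Fn1 := ⟨_, _, fun h1 => (enc_norm (enc_add (enc_scaleT 1009833 1000000 (enc_subr 487 520 h1)) (enc_rat _ 3938293 20000000)))⟩
noncomputable def sw43 : Fn1 := ⟨_, _, fun h1 => (enc_norm (enc_subr 1109 1000 (enc_neg (enc_scaleT 92 25 (enc_subr 487 520 h1)))))⟩
noncomputable def sl44 : Fn1 := ⟨_, _, fun h1 => (enc_norm (enc_subr 1299 5000 (enc_neg (enc_scaleT 14213 10000 (enc_subr 487 520 h1)))))⟩
noncomputable def sv44 : Fn1 := ⟨_, _, fun h1 => (enc_norm (enc_add (enc_scaleT 1011833 1000000 (enc_subr 487 520 h1)) (enc_rat _ 4632693 20000000)))⟩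
noncomputable def sw44 : Fn1 := ⟨_, _, fun h1 => (enc_norm (enc_subr 241 1000 (enc_neg (enc_scaleT 363 100 (enc_subr 487 520 h1)))))⟩
noncomputable def sl45 : Fn1 := ⟨_, _, fun h1 => (enc_norm (enc_subr 1223 10000 (enc_neg (enc_scaleT 5763 10000 (enc_subr 487 520 h1)))))⟩
noncomputable def sv45 : Fn1 := ⟨_, _, fun h1 => (enc_norm (enc_add (enc_scaleT 28319 31250 (enc_subr 487 520 h1)) (enc_rat _ 4288943 20000000)))⟩
noncomputable def sw45 : Fn1 := ⟨_, _, fun h1 => (enc_norm (enc_subr 129 250 (enc_neg (enc_scaleT 133 25 (enc_subr 487 520 h1)))))⟩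
noncomputable def sl46 : Fn1 := ⟨_, _, fun h1 => (enc_norm (enc_sub (enc_rat _ 1903 10000) (enc_scaleT 269073 10000 (enc_subr 487 520 h1))))⟩
noncomputable def sv46 : Fn1 := ⟨_, _, fun h1 => (enc_norm (enc_add (enc_scaleT 2427929 500000 (enc_subr 487 520 h1)) (enc_rat _ 3351143 20000000)))⟩
noncomputable def sw46 : Fn1 := ⟨_, _, fun h1 => (enc_norm (enc_subr 1037 1000 (enc_scaleT 7713 200 (enc_subr 487 520 h1))))⟩
noncomputable def sl47_2 : Fn1 := ⟨_, _, fun h1 => (enc_subr 487 520 h1)⟩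
noncomputable def sl47 : Fn1 := ⟨_, _, fun h1 => (enc_norm (enc_add (enc_add (enc_scaleT 6525266200603 852475000000 (sl47_2.enc h1)) (enc_rat _ 1526320184479 4262375000000)) (enc_scaleT 143445157 81968750 (enc_sq (enc_norm (sl47_2.enc h1))))))⟩
noncomputable def sv47_2 : Fn1 := ⟨_, _, fun h1 => (enc_subr 487 520 h1)⟩
noncomputable def sv47 : Fn1 := ⟨_, _, fun h1 => (enc_norm (enc_sub (enc_sub (enc_rat _ 11780640245147 85247500000000) (enc_scaleT 20330769813221 17049500000000 (sv47_2.enc h1))) (enc_scaleT 2008230021 6557500000 (enc_sq (enc_norm (sv47_2.enc h1))))))⟩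
noncomputable def sw47_2 : Fn1 := ⟨_, _, fun h1 => (enc_subr 487 520 h1)⟩
noncomputable def sw47 : Fn1 := ⟨_, _, fun h1 => (enc_norm (enc_sub (enc_subr 12767 10000 (enc_neg (enc_scaleT 10809 1000 (sw47_2.enc h1)))) (enc_scaleT 5 2 (enc_sq (enc_norm (sw47_2.enc h1))))))⟩
noncomputable def sl49_2 : Fn1 := ⟨_, _, fun h1 => (enc_subr 487 520 h1)⟩
noncomputable def sl49 : Fn1 := ⟨_, _, fun h1 => (enc_norm (enc_sub (enc_add (enc_scaleT 46148624299501 14551712500000 (sl49_2.enc h1)) (enc_rat _ 1414817319387457 1164137000000000)) (enc_scaleT 16992263649861 111936250000 (enc_sq (enc_norm (sl49_2.enc h1))))))⟩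
noncomputable def sv49_2 : Fn1 := ⟨_, _, fun h1 => (enc_subr 487 520 h1)⟩
noncomputable def sv49 : Fn1 := ⟨_, _, fun h1 => (enc_norm (enc_add (enc_subr 1211185587155513 23282740000000000 (enc_neg (enc_scaleT 44098960785667 145517125000000 (sv49_2.enc h1)))) (enc_scaleT 38232604667187 1119362500000 (enc_sq (enc_norm (sv49_2.enc h1))))))⟩
noncomputable def sw49_2 : Fn1 := ⟨_, _, fun h1 => (enc_subr 487 520 h1)⟩
noncomputable def sw49 : Fn1 := ⟨_, _, fun h1 => (enc_norm (enc_add (enc_subr 11203 5000 (enc_neg (enc_scaleT 1289 250 (sw49_2.enc h1)))) (enc_scaleT 16867 100 (enc_sq (enc_norm (sw49_2.enc h1))))))⟩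
noncomputable def sl50 : Fn1 := ⟨_, _, fun h1 => (enc_norm (enc_sub (enc_rat _ 136489 200000) (enc_scaleT 326201 20000 (enc_subr 487 520 h1))))⟩
noncomputable def sv50 : Fn1 := ⟨_, _, fun h1 => (enc_norm (enc_add (enc_scaleT 20401333 5000000 (enc_subr 487 520 h1)) (enc_rat _ 424249 6250000)))⟩
noncomputable def sw50 : Fn1 := ⟨_, _, fun h1 => (enc_norm (enc_subr 3297 2000 (enc_scaleT 1649 100 (enc_subr 487 520 h1))))⟩
noncomputable def sl51 : Fn1 := ⟨_, _, fun h1 => (enc_norm (enc_subr 227923 200000 (enc_scaleT 315499 20000 (enc_subr 487 520 h1))))⟩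
noncomputable def sv51 : Fn1 := ⟨_, _, fun h1 => (enc_norm (enc_sub (enc_rat _ 12173841 25000000) (enc_scaleT 16496417 5000000 (enc_subr 487 520 h1))))⟩
noncomputable def sw51 : Fn1 := ⟨_, _, fun h1 => (enc_norm (enc_sub (enc_rat _ 83 250) (enc_scaleT 3677 200 (enc_subr 487 520 h1))))⟩
noncomputable def sl52 : Fn1 := ⟨_, _, fun h1 => (enc_norm (enc_subr 1435883 1500000 (enc_scaleT 1282511 200000 (enc_subr 487 520 h1))))⟩
noncomputable def sv52 : Fn1 := ⟨_, _, fun h1 => (enc_norm (enc_sub (enc_rat _ 133229759 300000000) (enc_scaleT 4396487 4000000 (enc_subr 487 520 h1))))⟩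
noncomputable def sw52 : Fn1 := ⟨_, _, fun h1 => (enc_norm (enc_sub (enc_rat _ 69 500) (enc_scaleT 337 40 (enc_subr 487 520 h1))))⟩
noncomputable def sl53 : Fn1 := ⟨_, _, fun h1 => (enc_norm (enc_subr 6479759 6000000 (enc_scaleT 3095039 300000 (enc_subr 487 520 h1))))⟩
noncomputable def sv53 : Fn1 := ⟨_, _, fun h1 => (enc_norm (enc_sub (enc_rat _ 5686259 12000000) (enc_scaleT 1227539 600000 (enc_subr 487 520 h1))))⟩
noncomputable def sw53 : Fn1 := ⟨_, _, fun h1 => (enc_norm (enc_sub (enc_rat _ 529 2000) (enc_scaleT 249 20 (enc_subr 487 520 h1))))⟩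
noncomputable def skf0 : Fn2 := ⟨_, _, fun h1 h2 => (enc_norm (enc_add (bf1q0.enc h1 h2) (enc_mul (enc_norm (enc_sub (enc_mul (c1g.enc h1) (bf1q0.enc h1 h2)) (kf0q0.enc h1 h2))) (enc_inv (enc_sub (cv1m.enc h1) (c1g.enc h1))))))⟩
noncomputable def sxf0 : Fn2 := ⟨_, _, fun h1 h2 => (enc_norm (enc_mul (enc_norm (enc_sub (l1q0.enc h1 h2) (l0q0.enc h1 h2))) (enc_inv (enc_sub (cv1m.enc h1) (c1g.enc h1)))))⟩
noncomputable def skl0 : Fn2 := ⟨_, _, fun h1 h2 => (enc_norm (enc_add (bf4q0.enc h1 h2) (enc_mul (enc_norm (enc_sub (kf5q0.enc h1 h2) (enc_mul (c3g.enc h1) (bf4q0.enc h1 h2)))) (enc_inv (enc_sub (c3g.enc h1) (cv4m.enc h1))))))⟩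
noncomputable def sxl0 : Fn2 := ⟨_, _, fun h1 h2 => (enc_norm (enc_mul (enc_norm (enc_sub (l5q0.enc h1 h2) (l4q0.enc h1 h2))) (enc_inv (enc_sub (c3g.enc h1) (cv4m.enc h1)))))⟩
noncomputable def skf1 : Fn2 := ⟨_, _, fun h1 h2 => (enc_norm (enc_add (bf1q1.enc h1 h2) (enc_mul (enc_norm (enc_sub (enc_mul (c1g.enc h1) (bf1q1.enc h1 h2)) (kf0q1.enc h1 h2))) (enc_inv (enc_sub (cv1m.enc h1) (c1g.enc h1))))))⟩
noncomputable def sxf1 : Fn2 := ⟨_, _, fun h1 h2 => (enc_norm (enc_mul (enc_norm (enc_sub (l1q1.enc h1 h2) (l0q1.enc h1 h2))) (enc_inv (enc_sub (cv1m.enc h1) (c1g.enc h1)))))⟩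
noncomputable def skl1 : Fn2 := ⟨_, _, fun h1 h2 => (enc_norm (enc_add (bf4q1.enc h1 h2) (enc_mul (enc_norm (enc_sub (kf5q1.enc h1 h2) (enc_mul (c3g.enc h1) (bf4q1.enc h1 h2)))) (enc_inv (enc_sub (c3g.enc h1) (cv4m.enc h1))))))⟩
noncomputable def sxl1 : Fn2 := ⟨_, _, fun h1 h2 => (enc_norm (enc_mul (enc_norm (enc_sub (l5q1.enc h1 h2) (l4q1.enc h1 h2))) (enc_inv (enc_sub (c3g.enc h1) (cv4m.enc h1)))))⟩
noncomputable def skf2 : Fn2 := ⟨_, _, fun h1 h2 => (enc_norm (enc_add (bf1q2.enc h1 h2) (enc_mul (enc_norm (enc_add (enc_mul (c1g.enc h1) (enc_norm (enc_subn 1 (bf1q2.enc h1 h2)))) (enc_mul (enc_norm (enc_subn 1 h1)) (kcg.enc (c1g.enc h1) h2)))) (enc_inv (enc_sub (cv1p.enc h1) (c1g.enc h1))))))⟩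
noncomputable def sxf2 : Fn2 := ⟨_, _, fun h1 h2 => (enc_norm (enc_mul (enc_norm (enc_sub (l1q2.enc h1 h2) (l0q2.enc h1 h2))) (enc_inv (enc_sub (cv1p.enc h1) (c1g.enc h1)))))⟩
noncomputable def skl2 : Fn2 := ⟨_, _, fun h1 h2 => (enc_norm (enc_add (bf4q2.enc h1 h2) (enc_mul (enc_norm (enc_sub (kf5q2.enc h1 h2) (enc_mul (c3g.enc h1) (bf4q2.enc h1 h2)))) (enc_inv (enc_sub (c3g.enc h1) (cv4p.enc h1))))))⟩
noncomputable def sxl2 : Fn2 := ⟨_, _, fun h1 h2 => (enc_norm (enc_mul (enc_norm (enc_sub (l5q2.enc h1 h2) (l4q2.enc h1 h2))) (enc_inv (enc_sub (c3g.enc h1) (cv4p.enc h1)))))⟩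
noncomputable def skl3 : Fn2 := ⟨_, _, fun h1 h2 => (enc_norm (enc_add (bf4q3.enc h1 h2) (enc_mul (enc_norm (enc_sub (kf5q3.enc h1 h2) (enc_mul (c3g.enc h1) (bf4q3.enc h1 h2)))) (enc_inv (enc_sub (c3g.enc h1) (cv4r.enc h1))))))⟩
noncomputable def sxl3 : Fn2 := ⟨_, _, fun h1 h2 => (enc_norm (enc_mul (enc_norm (enc_sub (l5q3.enc h1 h2) (l4q3.enc h1 h2))) (enc_inv (enc_sub (c3g.enc h1) (cv4r.enc h1)))))⟩
noncomputable def rhk : Fn2 := ⟨_, _, fun h1 h2 => (enc_norm (enc_mul (enc_norm (enc_sub (bf1q2.enc h1 h2) (n0b.enc h1 h2))) (enc_norm (enc_mul (cv1p.enc h1) (enc_inv (enc_sub (cv1p.enc h1) (c1g.enc h1)))))))⟩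
noncomputable def rhx : Fn2 := ⟨_, _, fun h1 h2 => (enc_norm (enc_mul (enc_norm (enc_sub (bx1q2.enc h1 h2) (n0x.enc h1 h2))) (enc_norm (enc_mul (cv1p.enc h1) (enc_inv (enc_sub (cv1p.enc h1) (c1g.enc h1)))))))⟩
noncomputable def sbk : Fn1 := ⟨_, _, fun h1 => (enc_norm (enc_subr 1 145000 (enc_scaleT 1 7250 (enc_subr 487 520 h1))))⟩
noncomputable def sbx : Fn1 := ⟨_, _, fun h1 => (enc_norm (enc_add (enc_scaleT 8991 1450 (enc_subr 487 520 h1)) (enc_rat _ 1647 1450)))⟩
noncomputable def k0c : Fn1 := ⟨_, _, fun h1 => (enc_norm (enc_add (enc_scaleT 106177 5000 (enc_subr 487 520 h1)) (enc_rat _ 304953 100000)))⟩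
noncomputable def m0c : Fn1 := ⟨_, _, fun h1 => (enc_norm (enc_subr 551 2000 (enc_neg (enc_scaleT 6047 5000 (enc_subr 487 520 h1)))))⟩
noncomputable def sl73 : Fn1 := ⟨_, _, fun h1 => (enc_norm (enc_subr 11911 20000 (enc_neg (enc_scaleT 1369 500 (enc_subr 487 520 h1)))))⟩
noncomputable def sv73 : Fn1 := ⟨_, _, fun h1 => (enc_norm (enc_subr 49407 800000 (enc_neg (enc_scaleT 12917 40000 (enc_subr 487 520 h1)))))⟩
noncomputable def sw73 : Fn1 := ⟨_, _, fun h1 => (enc_norm (enc_subr 173 125 (enc_neg (enc_scaleT 131 25 (enc_subr 487 520 h1)))))⟩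
noncomputable def sl74 : Fn1 := ⟨_, _, fun h1 => (enc_norm (enc_add (enc_scaleT 501 250 (enc_subr 487 520 h1)) (enc_rat _ 1009 20000)))⟩
noncomputable def sv74 : Fn1 := ⟨_, _, fun h1 => (enc_norm (enc_add (enc_scaleT 6051 40000 (enc_subr 487 520 h1)) (enc_rat _ 2273 800000)))⟩
noncomputable def sw74 : Fn1 := ⟨_, _, fun h1 => (enc_norm (enc_add (enc_scaleT 1323 200 (enc_subr 487 520 h1)) (enc_rat _ 231 1000)))⟩
noncomputable def sl75 : Fn1 := ⟨_, _, fun h1 => (enc_norm (enc_sub (enc_rat _ 377 10000) (enc_scaleT 39 1000 (enc_subr 487 520 h1))))⟩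
noncomputable def sv75 : Fn1 := ⟨_, _, fun h1 => (enc_norm (enc_sub (enc_rat _ 377 200000) (enc_scaleT 39 20000 (enc_subr 487 520 h1))))⟩
noncomputable def sw75 : Fn1 := ⟨_, _, fun h1 => (enc_norm (enc_sub (enc_rat _ 377 2000) (enc_scaleT 39 200 (enc_subr 487 520 h1))))⟩
noncomputable def sl76 : Fn1 := ⟨_, _, fun h1 => (enc_pnc _ 0)⟩
noncomputable def sv76 : Fn1 := ⟨_, _, fun h1 => (enc_pnc _ 0)⟩
noncomputable def sl77 : Fn1 := ⟨_, _, fun h1 => (enc_norm (enc_sub (enc_rat _ 377 10000) (enc_scaleT 39 1000 (enc_subr 487 520 h1))))⟩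
noncomputable def sv77 : Fn1 := ⟨_, _, fun h1 => (enc_norm (enc_subr 377 200000 (enc_scaleT 39 20000 (enc_subr 487 520 h1))))⟩
noncomputable def sw77 : Fn1 := ⟨_, _, fun h1 => (enc_norm (enc_subr 377 2000 (enc_scaleT 39 200 (enc_subr 487 520 h1))))⟩
noncomputable def sl78 : Fn1 := ⟨_, _, fun h1 => (enc_norm (enc_add (enc_scaleT 501 250 (enc_subr 487 520 h1)) (enc_rat _ 1009 20000)))⟩
noncomputable def sv78 : Fn1 := ⟨_, _, fun h1 => (enc_norm (enc_subr 2273 800000 (enc_neg (enc_scaleT 6051 40000 (enc_subr 487 520 h1)))))⟩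
noncomputable def sw78 : Fn1 := ⟨_, _, fun h1 => (enc_norm (enc_subr 231 1000 (enc_neg (enc_scaleT 1323 200 (enc_subr 487 520 h1)))))⟩
noncomputable def sl79 : Fn1 := ⟨_, _, fun h1 => (enc_norm (enc_subr 11911 20000 (enc_neg (enc_scaleT 1369 500 (enc_subr 487 520 h1)))))⟩
noncomputable def sv79 : Fn1 := ⟨_, _, fun h1 => (enc_norm (enc_add (enc_scaleT 12917 40000 (enc_subr 487 520 h1)) (enc_rat _ 49407 800000)))⟩
noncomputable def sw79 : Fn1 := ⟨_, _, fun h1 => (enc_norm (enc_add (enc_scaleT 131 25 (enc_subr 487 520 h1)) (enc_rat _ 173 125)))⟩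
noncomputable def kqf : Fn2 := ⟨_, _, fun h1 h2 => (enc_norm (enc_mul (enc_norm (enc_subn 1 h1)) (enc_norm (enc_case (enc_subr 1 10 (c1g.enc h1)) (enc_add (enc_scaleT 106177 5000 (enc_subr 487 520 h2)) (enc_rat _ 304953 100000)) (enc_mul (kcg.enc (c1g.enc h1) h2) (enc_inv (c1g.enc h1)))))))⟩
noncomputable def skm : Fn2 := ⟨_, _, fun h1 h2 => (enc_norm (enc_sub (enc_mul (enc_norm (enc_mul (cv1p.enc h1) (enc_inv (enc_sub (cv1p.enc h1) (c1g.enc h1))))) (enc_norm (enc_add (enc_subn 1 (bf1q2.enc h1 h2)) (kqf.enc h1 h2)))) (kqf.enc h1 h2)))⟩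
noncomputable def dt1 : DT := .quad sw1 sl1 sv1
noncomputable def dt2 : DT := .quad sw2 sl2 sv2
noncomputable def dt3 : DT := .quad sw3 sl3 sv3
noncomputable def dt4 : DT := .quad sw4 sl4 sv4
noncomputable def dt5 : DT := .quad sw5 sl5 sv5
noncomputable def dt6 : DT := .quad sw6 sl6 sv6
noncomputable def dt7 : DT := .quad sw7 sl7 sv7
noncomputable def dt8 : DT := .quad sw8 sl8 sv8
noncomputable def dt9 : DT := .lin sl9 sv9
noncomputable def dt10 : DT := .quad sw10 sl10 sv10
noncomputable def dt11 : DT := .quad sw11 sl11 sv11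
noncomputable def dt12 : DT := .quad sw12 sl12 sv12
noncomputable def dt13 : DT := .quad sw13 sl13 sv13
noncomputable def dt14 : DT := .quad sw14 sl14 sv14
noncomputable def dt15 : DT := .quad sw15 sl15 sv15
noncomputable def dt16 : DT := .quad sw16 sl16 sv16
noncomputable def dt17 : DT := .quad sw17 sl17 sv17
noncomputable def dt18 : DT := .node ((Cn.rt 19 40).ng) dt1 dt2
noncomputable def dt19 : DT := .node ((Cn.rt 263 601).ng) dt3 dt4
noncomputable def dt20 : DT := .node ((Cn.rt 23 50).ng) dt18 dt19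
noncomputable def dt21 : DT := .node ((Cn.rt 7 20).ng) dt5 dt6
noncomputable def dt22 : DT := .node ((Cn.rt 1 5).ng) dt7 dt8
noncomputable def dt23 : DT := .node ((Cn.rt 3 10).ng) dt21 dt22
noncomputable def dt24 : DT := .node ((Cn.rt 47 122).ng) dt20 dt23
noncomputable def dt25 : DT := .node (Cn.rt 1 10) dt9 dt10
noncomputable def dt26 : DT := .node (Cn.rt 3 10) dt11 dt12
noncomputable def dt27 : DT := .node (Cn.rt 1 5) dt25 dt26
noncomputable def dt28 : DT := .node (Cn.rt 47 122) dt13 dt14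
noncomputable def dt29 : DT := .node (Cn.rt 19 40) dt16 dt17
noncomputable def dt30 : DT := .node (Cn.rt 23 50) dt15 dt29
noncomputable def dt31 : DT := .node (Cn.rt 263 601) dt28 dt30
noncomputable def dt32 : DT := .node (Cn.rt 7 20) dt27 dt31
noncomputable def dt33 : DT := .node ((Cn.rt 1 10).ng) dt24 dt32
noncomputable def dt34 : DT := .quad sw34 sl34 sv34
noncomputable def dt35 : DT := .quad sw35 sl35 sv35
noncomputable def dt36 : DT := .quad sw36 sl36 sv36
noncomputable def dt37 : DT := .quad sw37 sl37 sv37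
noncomputable def dt38 : DT := .quad sw38 sl38 sv38
noncomputable def dt39 : DT := .quad sw39 sl39 sv39
noncomputable def dt40 : DT := .quad sw40 sl40 sv40
noncomputable def dt41 : DT := .quad sw41 sl41 sv41
noncomputable def dt42 : DT := .quad sw42 sl42 sv42
noncomputable def dt43 : DT := .quad sw43 sl43 sv43
noncomputable def dt44 : DT := .quad sw44 sl44 sv44
noncomputable def dt45 : DT := .quad sw45 sl45 sv45
noncomputable def dt46 : DT := .quad sw46 sl46 sv46
noncomputable def dt47 : DT := .quad sw47 sl47 sv47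
noncomputable def dt48 : DT := .clo
noncomputable def dt49 : DT := .quad sw49 sl49 sv49
noncomputable def dt50 : DT := .quad sw50 sl50 sv50
noncomputable def dt51 : DT := .quad sw51 sl51 sv51
noncomputable def dt52 : DT := .quad sw52 sl52 sv52
noncomputable def dt53 : DT := .quad sw53 sl53 sv53
noncomputable def dt54 : DT := .node ((Cn.rt 12 25).ng) dt34 dt35
noncomputable def dt55 : DT := .node ((Cn.rt 2 5).ng) dt37 dt38
noncomputable def dt56 : DT := .node ((Cn.rt 11 25).ng) dt36 dt55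
noncomputable def dt57 : DT := .node ((Cn.rt 23 50).ng) dt54 dt56
noncomputable def dt58 : DT := .node ((Cn.rt 1 5).ng) dt39 dt40
noncomputable def dt59 : DT := .node (Cn.rt 3 20) dt42 dt43
noncomputable def dt60 : DT := .node (Cn.rt 1 10) dt41 dt59
noncomputable def dt61 : DT := .node ((Cn.rt 1 10).ng) dt58 dt60
noncomputable def dt62 : DT := .node ((Cn.rt 3 10).ng) dt57 dt61
noncomputable def dt63 : DT := .node (Cn.rt 1 4) dt44 dt45
noncomputable def dt64 : DT := .node (Cn.rt 47 122) dt47 dt48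
noncomputable def dt65 : DT := .node (Cn.rt 7 20) dt46 dt64
noncomputable def dt66 : DT := .node (Cn.rt 3 10) dt63 dt65
noncomputable def dt67 : DT := .node (Cn.rt 9 20) dt49 dt50
noncomputable def dt68 : DT := .node (Cn.rt 97 200) dt52 dt53
noncomputable def dt69 : DT := .node (Cn.rt 47 100) dt51 dt68
noncomputable def dt70 : DT := .node (Cn.rt 23 50) dt67 dt69
noncomputable def dt71 : DT := .node (Cn.rt 263 601) dt66 dt70
noncomputable def dt72 : DT := .node (Cn.rt 1 5) dt62 dt71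
noncomputable def dt73 : DT := .quad sw73 sl73 sv73
noncomputable def dt74 : DT := .quad sw74 sl74 sv74
noncomputable def dt75 : DT := .quad sw75 sl75 sv75
noncomputable def dt76 : DT := .lin sl76 sv76
noncomputable def dt77 : DT := .quad sw77 sl77 sv77
noncomputable def dt78 : DT := .quad sw78 sl78 sv78
noncomputable def dt79 : DT := .quad sw79 sl79 sv79
noncomputable def dt80 : DT := .node ((Cn.rt 3 20).ng) dt74 dt75
noncomputable def dt81 : DT := .node ((Cn.rt 1 5).ng) dt73 dt80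
noncomputable def dt82 : DT := .node (Cn.rt 1 10) dt76 dt77
noncomputable def dt83 : DT := .node (Cn.rt 1 5) dt78 dt79
noncomputable def dt84 : DT := .node (Cn.rt 3 20) dt82 dt83
noncomputable def dt85 : DT := .node ((Cn.rt 1 10).ng) dt81 dt84
noncomputable def dd : SDat := ⟨dt33, kcg, dt72, Kh.T⟩
noncomputable def gf0 : Sg := ⟨cv1m, skf0, sxf0⟩
noncomputable def gf1 : Sg := ⟨cv1m, skf1, sxf1⟩
noncomputable def gf2 : Sg := ⟨cv1p, skf2, sxf2⟩
noncomputable def gf3 : Sg := ⟨cv1r, skf2, sxf2⟩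
noncomputable def gl0 : Sg := ⟨cv4m, skl0, sxl0⟩
noncomputable def gl1 : Sg := ⟨cv4m, skl1, sxl1⟩
noncomputable def gl2 : Sg := ⟨cv4p, skl2, sxl2⟩
noncomputable def gl3 : Sg := ⟨cv4r, skl3, sxl3⟩
noncomputable def vv : Vt := ⟨(Cn.rt 1 10), (Cn.rt 577 500), (Cn.rt 231 200), (Cn.rt 13 10), k0c, m0c, sbk, sbx, rhk, rhx, bf1q2, bx1q2, (Cn.rt 1 4), (Cn.rt 577 500), skm, dt85⟩
noncomputable def ff (q : ℕ) : Sg := match q with
  | 0 => gf0
  | 1 => gf1
  | 2 => gf2
  | _ => gf3
noncomputable def fl (q : ℕ) : Sg := match q with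
  | 0 => gl0
  | 1 => gl1
  | 2 => gl2
  | _ => gl3
noncomputable def tt : STab 5 := ⟨dd, 0, 4, ff, fl, vv⟩
theorem kcl0 {p x : ℝ} (h1 : -1 / 2 ≤ p) (h2 : p ≤ -19 / 40) : kcg.v p x = (-3731876507 / 1000000000 + (x - 487 / 520) * (-2011801 / 250000)) + (-135517977 / 25000000 + (x - 487 / 520) * (-41938279 / 2500000)) * p + (3 / 250 + (x - 487 / 520) * (1 / 2)) * p ^ 2 := by
  simp only [kcg, kcg_3, kcg_6, kcg_9, kcg_12, kcg_13, kcg_18, kcg_31, kcg_32, kcg_33, kcg_38, kcg_43, kcg_56, kcg_57, kcg_65, kcg_66, kcg_71, kcg_84, kcg_85, kcg_90, kcg_94, kcg_103, kcg_104, kcg_113, kcg_116, kcg_117, kcg_121, kcg_130, kcg_131, kcg_136, kcg_140, kcg_151, kcg_152, kcg_160, kcg_161, kcg_165, kcg_178, kcg_179, kcg_187, kcg_191, kcg_203, kcg_204, kcg_209, kcg_212, kcg_219, kcg_220, kcg_221, kcg_226, kcg_227, kcg_236, kcg_242, kcg_247, kcg_258, kcg_265, kcg_266, kcg_273, kcg_283, kcg_289, kcg_295, kcg_307]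
  rcases eq_or_lt_of_le h1 with h | h1
  · subst h
    ((try push_cast); (repeat first | rw [if_pos (by linarith)] | rw [if_neg (by linarith)] | erw [if_pos (by linarith)] | erw [if_neg (by linarith)]); (try push_cast); (try ring1))
  rcases eq_or_lt_of_le h2 with h | h2
  · subst h
    ((try push_cast); (repeat first | rw [if_pos (by linarith)] | rw [if_neg (by linarith)] | erw [if_pos (by linarith)] | erw [if_neg (by linarith)]); (try push_cast); (try ring1))
  · ((try push_cast); (repeat first | rw [if_pos (by linarith)] | rw [if_neg (by linarith)] | erw [if_pos (by linarith)] | erw [if_neg (by linarith)]); (try push_cast); (try ring1))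
theorem kcl1 {p x : ℝ} (h1 : -19 / 40 ≤ p) (h2 : p ≤ -23 / 50) : kcg.v p x = (-1397930719 / 375000000 + (x - 487 / 520) * (-1112318081 / 150000000)) + (-40527143 / 7500000 + (x - 487 / 520) * (-21172967 / 1500000)) * p + (3 / 100 + (x - 487 / 520) * (33 / 10)) * p ^ 2 := by
  simp only [kcg, kcg_3, kcg_6, kcg_9, kcg_12, kcg_13, kcg_18, kcg_31, kcg_32, kcg_33, kcg_38, kcg_43, kcg_56, kcg_57, kcg_65, kcg_66, kcg_71, kcg_84, kcg_85, kcg_90, kcg_94, kcg_103, kcg_104, kcg_113, kcg_116, kcg_117, kcg_121, kcg_130, kcg_131, kcg_136, kcg_140, kcg_151, kcg_152, kcg_160, kcg_161, kcg_165, kcg_178, kcg_179, kcg_187, kcg_191, kcg_203, kcg_204, kcg_209, kcg_212, kcg_219, kcg_220, kcg_221, kcg_226, kcg_227, kcg_236, kcg_242, kcg_247, kcg_258, kcg_265, kcg_266, kcg_273, kcg_283, kcg_289, kcg_295, kcg_307]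
  rcases eq_or_lt_of_le h1 with h | h1
  · subst h
    ((try push_cast); (repeat first | rw [if_pos (by linarith)] | rw [if_neg (by linarith)] | erw [if_pos (by linarith)] | erw [if_neg (by linarith)]); (try push_cast); (try ring1))
  rcases eq_or_lt_of_le h2 with h | h2
  · subst h
    ((try push_cast); (repeat first | rw [if_pos (by linarith)] | rw [if_neg (by linarith)] | erw [if_pos (by linarith)] | erw [if_neg (by linarith)]); (try push_cast); (try ring1))
  · ((try push_cast); (repeat first | rw [if_pos (by linarith)] | rw [if_neg (by linarith)] | erw [if_pos (by linarith)] | erw [if_neg (by linarith)]); (try push_cast); (try ring1))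
theorem kcl2 {p x : ℝ} (h1 : -23 / 50 ≤ p) (h2 : p ≤ -263 / 601) : kcg.v p x = (11835817362740711 / 404473000000000 + (x - 487 / 520) * (534054671952341 / 5055912500000)) + (1116602246863137 / 8089460000000 + (x - 487 / 520) * (193089540589351 / 404473000000)) * p + (77969 / 500 + (x - 487 / 520) * (26877 / 50)) * p ^ 2 := by
  simp only [kcg, kcg_3, kcg_6, kcg_9, kcg_12, kcg_13, kcg_18, kcg_31, kcg_32, kcg_33, kcg_38, kcg_43, kcg_56, kcg_57, kcg_65, kcg_66, kcg_71, kcg_84, kcg_85, kcg_90, kcg_94, kcg_103, kcg_104, kcg_113, kcg_116, kcg_117, kcg_121, kcg_130, kcg_131, kcg_136, kcg_140, kcg_151, kcg_152, kcg_160, kcg_161, kcg_165, kcg_178, kcg_179, kcg_187, kcg_191, kcg_203, kcg_204, kcg_209, kcg_212, kcg_219, kcg_220, kcg_221, kcg_226, kcg_227, kcg_236, kcg_242, kcg_247, kcg_258, kcg_265, kcg_266, kcg_273, kcg_283, kcg_289, kcg_295, kcg_307]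
  rcases eq_or_lt_of_le h1 with h | h1
  · subst h
    ((try push_cast); (repeat first | rw [if_pos (by linarith)] | rw [if_neg (by linarith)] | erw [if_pos (by linarith)] | erw [if_neg (by linarith)]); (try push_cast); (try ring1))
  rcases eq_or_lt_of_le h2 with h | h2
  · subst h
    ((try push_cast); (repeat first | rw [if_pos (by linarith)] | rw [if_neg (by linarith)] | erw [if_pos (by linarith)] | erw [if_neg (by linarith)]); (try push_cast); (try ring1))
  · ((try push_cast); (repeat first | rw [if_pos (by linarith)] | rw [if_neg (by linarith)] | erw [if_pos (by linarith)] | erw [if_neg (by linarith)]); (try push_cast); (try ring1))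
theorem kcl3 {p x : ℝ} (h1 : -263 / 601 ≤ p) (h2 : p ≤ -47 / 122) : kcg.v p x = (278896131171287217 / 140741579000000000 + (x - 487 / 520) * (18784187072639499 / 7037078950000000)) + (939422676143389789 / 70370789500000000 + (x - 487 / 520) * (48001058540398379 / 7037078950000000)) * p + (6739 / 500 + (x - 487 / 520) * (-3 / 25)) * p ^ 2 := by
  simp only [kcg, kcg_3, kcg_6, kcg_9, kcg_12, kcg_13, kcg_18, kcg_31, kcg_32, kcg_33, kcg_38, kcg_43, kcg_56, kcg_57, kcg_65, kcg_66, kcg_71, kcg_84, kcg_85, kcg_90, kcg_94, kcg_103, kcg_104, kcg_113, kcg_116, kcg_117, kcg_121, kcg_130, kcg_131, kcg_136, kcg_140, kcg_151, kcg_152, kcg_160, kcg_161, kcg_165, kcg_178, kcg_179, kcg_187, kcg_191, kcg_203, kcg_204, kcg_209, kcg_212, kcg_219, kcg_220, kcg_221, kcg_226, kcg_227, kcg_236, kcg_242, kcg_247, kcg_258, kcg_265, kcg_266, kcg_273, kcg_283, kcg_289, kcg_295, kcg_307]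
  rcases eq_or_lt_of_le h1 with h | h1
  · subst h
    ((try push_cast); (repeat first | rw [if_pos (by linarith)] | rw [if_neg (by linarith)] | erw [if_pos (by linarith)] | erw [if_neg (by linarith)]); (try push_cast); (try ring1))
  rcases eq_or_lt_of_le h2 with h | h2
  · subst h
    ((try push_cast); (repeat first | rw [if_pos (by linarith)] | rw [if_neg (by linarith)] | erw [if_pos (by linarith)] | erw [if_neg (by linarith)]); (try push_cast); (try ring1))
  · ((try push_cast); (repeat first | rw [if_pos (by linarith)] | rw [if_neg (by linarith)] | erw [if_pos (by linarith)] | erw [if_neg (by linarith)]); (try push_cast); (try ring1))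
theorem kcl4 {p x : ℝ} (h1 : -47 / 122 ≤ p) (h2 : p ≤ -7 / 20) : kcg.v p x = (-9746083451 / 1311500000000 + (x - 487 / 520) * (-1007130360969 / 52460000000)) + (49566175283 / 16393750000 + (x - 487 / 520) * (-279882231617 / 2623000000)) * p + (19 / 250 + (x - 487 / 520) * (-7373 / 50)) * p ^ 2 := by
  simp only [kcg, kcg_3, kcg_6, kcg_9, kcg_12, kcg_13, kcg_18, kcg_31, kcg_32, kcg_33, kcg_38, kcg_43, kcg_56, kcg_57, kcg_65, kcg_66, kcg_71, kcg_84, kcg_85, kcg_90, kcg_94, kcg_103, kcg_104, kcg_113, kcg_116, kcg_117, kcg_121, kcg_130, kcg_131, kcg_136, kcg_140, kcg_151, kcg_152, kcg_160, kcg_161, kcg_165, kcg_178, kcg_179, kcg_187, kcg_191, kcg_203, kcg_204, kcg_209, kcg_212, kcg_219, kcg_220, kcg_221, kcg_226, kcg_227, kcg_236, kcg_242, kcg_247, kcg_258, kcg_265, kcg_266, kcg_273, kcg_283, kcg_289, kcg_295, kcg_307]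
  rcases eq_or_lt_of_le h1 with h | h1
  · subst h
    ((try push_cast); (repeat first | rw [if_pos (by linarith)] | rw [if_neg (by linarith)] | erw [if_pos (by linarith)] | erw [if_neg (by linarith)]); (try push_cast); (try ring1))
  rcases eq_or_lt_of_le h2 with h | h2
  · subst h
    ((try push_cast); (repeat first | rw [if_pos (by linarith)] | rw [if_neg (by linarith)] | erw [if_pos (by linarith)] | erw [if_neg (by linarith)]); (try push_cast); (try ring1))
  · ((try push_cast); (repeat first | rw [if_pos (by linarith)] | rw [if_neg (by linarith)] | erw [if_pos (by linarith)] | erw [if_neg (by linarith)]); (try push_cast); (try ring1))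
theorem kcl5 {p x : ℝ} (h1 : -7 / 20 ≤ p) (h2 : p ≤ -3 / 10) : kcg.v p x = (-1523 / 200000 + (x - 487 / 520) * (-383557 / 20000)) + (302243 / 100000 + (x - 487 / 520) * (-266469 / 2500)) * p + (149 / 2000 + (x - 487 / 520) * (-29459 / 200)) * p ^ 2 := by
  simp only [kcg, kcg_3, kcg_6, kcg_9, kcg_12, kcg_13, kcg_18, kcg_31, kcg_32, kcg_33, kcg_38, kcg_43, kcg_56, kcg_57, kcg_65, kcg_66, kcg_71, kcg_84, kcg_85, kcg_90, kcg_94, kcg_103, kcg_104, kcg_113, kcg_116, kcg_117, kcg_121, kcg_130, kcg_131, kcg_136, kcg_140, kcg_151, kcg_152, kcg_160, kcg_161, kcg_165, kcg_178, kcg_179, kcg_187, kcg_191, kcg_203, kcg_204, kcg_209, kcg_212, kcg_219, kcg_220, kcg_221, kcg_226, kcg_227, kcg_236, kcg_242, kcg_247, kcg_258, kcg_265, kcg_266, kcg_273, kcg_283, kcg_289, kcg_295, kcg_307]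
  rcases eq_or_lt_of_le h1 with h | h1
  · subst h
    ((try push_cast); (repeat first | rw [if_pos (by linarith)] | rw [if_neg (by linarith)] | erw [if_pos (by linarith)] | erw [if_neg (by linarith)]); (try push_cast); (try ring1))
  rcases eq_or_lt_of_le h2 with h | h2
  · subst h
    ((try push_cast); (repeat first | rw [if_pos (by linarith)] | rw [if_neg (by linarith)] | erw [if_pos (by linarith)] | erw [if_neg (by linarith)]); (try push_cast); (try ring1))
  · ((try push_cast); (repeat first | rw [if_pos (by linarith)] | rw [if_neg (by linarith)] | erw [if_pos (by linarith)] | erw [if_neg (by linarith)]); (try push_cast); (try ring1))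
theorem kcl6 {p x : ℝ} (h1 : -3 / 10 ≤ p) (h2 : p ≤ -1 / 5) : kcg.v p x = (331 / 200000 + (x - 487 / 520) * (-11803 / 2000)) + (308423 / 100000 + (x - 487 / 520) * (-90393 / 5000)) * p + (71 / 400 + (x - 487 / 520) * (11 / 50)) * p ^ 2 := by
  simp only [kcg, kcg_3, kcg_6, kcg_9, kcg_12, kcg_13, kcg_18, kcg_31, kcg_32, kcg_33, kcg_38, kcg_43, kcg_56, kcg_57, kcg_65, kcg_66, kcg_71, kcg_84, kcg_85, kcg_90, kcg_94, kcg_103, kcg_104, kcg_113, kcg_116, kcg_117, kcg_121, kcg_130, kcg_131, kcg_136, kcg_140, kcg_151, kcg_152, kcg_160, kcg_161, kcg_165, kcg_178, kcg_179, kcg_187, kcg_191, kcg_203, kcg_204, kcg_209, kcg_212, kcg_219, kcg_220, kcg_221, kcg_226, kcg_227, kcg_236, kcg_242, kcg_247, kcg_258, kcg_265, kcg_266, kcg_273, kcg_283, kcg_289, kcg_295, kcg_307]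
  rcases eq_or_lt_of_le h1 with h | h1
  · subst h
    ((try push_cast); (repeat first | rw [if_pos (by linarith)] | rw [if_neg (by linarith)] | erw [if_pos (by linarith)] | erw [if_neg (by linarith)]); (try push_cast); (try ring1))
  rcases eq_or_lt_of_le h2 with h | h2
  · subst h
    ((try push_cast); (repeat first | rw [if_pos (by linarith)] | rw [if_neg (by linarith)] | erw [if_pos (by linarith)] | erw [if_neg (by linarith)]); (try push_cast); (try ring1))
  · ((try push_cast); (repeat first | rw [if_pos (by linarith)] | rw [if_neg (by linarith)] | erw [if_pos (by linarith)] | erw [if_neg (by linarith)]); (try push_cast); (try ring1))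
theorem kcl7 {p x : ℝ} (h1 : -1 / 5 ≤ p) (h2 : p ≤ -1 / 10) : kcg.v p x = (363 / 200000 + (x - 487 / 520) * (19701 / 10000)) + (308583 / 100000 + (x - 487 / 520) * (303187 / 5000)) * p + (363 / 2000 + (x - 487 / 520) * (19701 / 100)) * p ^ 2 := by
  simp only [kcg, kcg_3, kcg_6, kcg_9, kcg_12, kcg_13, kcg_18, kcg_31, kcg_32, kcg_33, kcg_38, kcg_43, kcg_56, kcg_57, kcg_65, kcg_66, kcg_71, kcg_84, kcg_85, kcg_90, kcg_94, kcg_103, kcg_104, kcg_113, kcg_116, kcg_117, kcg_121, kcg_130, kcg_131, kcg_136, kcg_140, kcg_151, kcg_152, kcg_160, kcg_161, kcg_165, kcg_178, kcg_179, kcg_187, kcg_191, kcg_203, kcg_204, kcg_209, kcg_212, kcg_219, kcg_220, kcg_221, kcg_226, kcg_227, kcg_236, kcg_242, kcg_247, kcg_258, kcg_265, kcg_266, kcg_273, kcg_283, kcg_289, kcg_295, kcg_307]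
  rcases eq_or_lt_of_le h1 with h | h1
  · subst h
    ((try push_cast); (repeat first | rw [if_pos (by linarith)] | rw [if_neg (by linarith)] | erw [if_pos (by linarith)] | erw [if_neg (by linarith)]); (try push_cast); (try ring1))
  rcases eq_or_lt_of_le h2 with h | h2
  · subst h
    ((try push_cast); (repeat first | rw [if_pos (by linarith)] | rw [if_neg (by linarith)] | erw [if_pos (by linarith)] | erw [if_neg (by linarith)]); (try push_cast); (try ring1))
  · ((try push_cast); (repeat first | rw [if_pos (by linarith)] | rw [if_neg (by linarith)] | erw [if_pos (by linarith)] | erw [if_neg (by linarith)]); (try push_cast); (try ring1))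
theorem kcl8 {p x : ℝ} (h1 : -1 / 10 ≤ p) (h2 : p ≤ 1 / 10) : kcg.v p x = (0) + (304953 / 100000 + (x - 487 / 520) * (106177 / 5000)) * p := by
  simp only [kcg, kcg_3, kcg_6, kcg_9, kcg_12, kcg_13, kcg_18, kcg_31, kcg_32, kcg_33, kcg_38, kcg_43, kcg_56, kcg_57, kcg_65, kcg_66, kcg_71, kcg_84, kcg_85, kcg_90, kcg_94, kcg_103, kcg_104, kcg_113, kcg_116, kcg_117, kcg_121, kcg_130, kcg_131, kcg_136, kcg_140, kcg_151, kcg_152, kcg_160, kcg_161, kcg_165, kcg_178, kcg_179, kcg_187, kcg_191, kcg_203, kcg_204, kcg_209, kcg_212, kcg_219, kcg_220, kcg_221, kcg_226, kcg_227, kcg_236, kcg_242, kcg_247, kcg_258, kcg_265, kcg_266, kcg_273, kcg_283, kcg_289, kcg_295, kcg_307]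
  rcases eq_or_lt_of_le h1 with h | h1
  · subst h
    ((try push_cast); (repeat first | rw [if_pos (by linarith)] | rw [if_neg (by linarith)] | erw [if_pos (by linarith)] | erw [if_neg (by linarith)]); (try push_cast); (try ring1))
  rcases eq_or_lt_of_le h2 with h | h2
  · subst h
    ((try push_cast); (repeat first | rw [if_pos (by linarith)] | rw [if_neg (by linarith)] | erw [if_pos (by linarith)] | erw [if_neg (by linarith)]); (try push_cast); (try ring1))
  rcases lt_trichotomy p 0 with h | h | h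
  · ((try push_cast); (repeat first | rw [if_pos (by linarith)] | rw [if_neg (by linarith)] | erw [if_pos (by linarith)] | erw [if_neg (by linarith)]); (try push_cast); (try ring1))
  · subst h
    ((try push_cast); (repeat first | rw [if_pos (by linarith)] | rw [if_neg (by linarith)] | erw [if_pos (by linarith)] | erw [if_neg (by linarith)]); (try push_cast); (try ring1))
  · ((try push_cast); (repeat first | rw [if_pos (by linarith)] | rw [if_neg (by linarith)] | erw [if_pos (by linarith)] | erw [if_neg (by linarith)]); (try push_cast); (try ring1))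
theorem kcl9 {p x : ℝ} (h1 : 1 / 10 ≤ p) (h2 : p ≤ 1 / 5) : kcg.v p x = (-363 / 200000 + (x - 487 / 520) * (-19701 / 10000)) + (308583 / 100000 + (x - 487 / 520) * (303187 / 5000)) * p + (-363 / 2000 + (x - 487 / 520) * (-19701 / 100)) * p ^ 2 := by
  simp only [kcg, kcg_3, kcg_6, kcg_9, kcg_12, kcg_13, kcg_18, kcg_31, kcg_32, kcg_33, kcg_38, kcg_43, kcg_56, kcg_57, kcg_65, kcg_66, kcg_71, kcg_84, kcg_85, kcg_90, kcg_94, kcg_103, kcg_104, kcg_113, kcg_116, kcg_117, kcg_121, kcg_130, kcg_131, kcg_136, kcg_140, kcg_151, kcg_152, kcg_160, kcg_161, kcg_165, kcg_178, kcg_179, kcg_187, kcg_191, kcg_203, kcg_204, kcg_209, kcg_212, kcg_219, kcg_220, kcg_221, kcg_226, kcg_227, kcg_236, kcg_242, kcg_247, kcg_258, kcg_265, kcg_266, kcg_273, kcg_283, kcg_289, kcg_295, kcg_307]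
  rcases eq_or_lt_of_le h1 with h | h1
  · subst h
    ((try push_cast); (repeat first | rw [if_pos (by linarith)] | rw [if_neg (by linarith)] | erw [if_pos (by linarith)] | erw [if_neg (by linarith)]); (try push_cast); (try ring1))
  rcases eq_or_lt_of_le h2 with h | h2
  · subst h
    ((try push_cast); (repeat first | rw [if_pos (by linarith)] | rw [if_neg (by linarith)] | erw [if_pos (by linarith)] | erw [if_neg (by linarith)]); (try push_cast); (try ring1))
  · ((try push_cast); (repeat first | rw [if_pos (by linarith)] | rw [if_neg (by linarith)] | erw [if_pos (by linarith)] | erw [if_neg (by linarith)]); (try push_cast); (try ring1))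
theorem kcl10 {p x : ℝ} (h1 : 1 / 5 ≤ p) (h2 : p ≤ 3 / 10) : kcg.v p x = (-331 / 200000 + (x - 487 / 520) * (11803 / 2000)) + (308423 / 100000 + (x - 487 / 520) * (-90393 / 5000)) * p + (-71 / 400 + (x - 487 / 520) * (-11 / 50)) * p ^ 2 := by
  simp only [kcg, kcg_3, kcg_6, kcg_9, kcg_12, kcg_13, kcg_18, kcg_31, kcg_32, kcg_33, kcg_38, kcg_43, kcg_56, kcg_57, kcg_65, kcg_66, kcg_71, kcg_84, kcg_85, kcg_90, kcg_94, kcg_103, kcg_104, kcg_113, kcg_116, kcg_117, kcg_121, kcg_130, kcg_131, kcg_136, kcg_140, kcg_151, kcg_152, kcg_160, kcg_161, kcg_165, kcg_178, kcg_179, kcg_187, kcg_191, kcg_203, kcg_204, kcg_209, kcg_212, kcg_219, kcg_220, kcg_221, kcg_226, kcg_227, kcg_236, kcg_242, kcg_247, kcg_258, kcg_265, kcg_266, kcg_273, kcg_283, kcg_289, kcg_295, kcg_307]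
  rcases eq_or_lt_of_le h1 with h | h1
  · subst h
    ((try push_cast); (repeat first | rw [if_pos (by linarith)] | rw [if_neg (by linarith)] | erw [if_pos (by linarith)] | erw [if_neg (by linarith)]); (try push_cast); (try ring1))
  rcases eq_or_lt_of_le h2 with h | h2
  · subst h
    ((try push_cast); (repeat first | rw [if_pos (by linarith)] | rw [if_neg (by linarith)] | erw [if_pos (by linarith)] | erw [if_neg (by linarith)]); (try push_cast); (try ring1))
  · ((try push_cast); (repeat first | rw [if_pos (by linarith)] | rw [if_neg (by linarith)] | erw [if_pos (by linarith)] | erw [if_neg (by linarith)]); (try push_cast); (try ring1))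
theorem kcl11 {p x : ℝ} (h1 : 3 / 10 ≤ p) (h2 : p ≤ 7 / 20) : kcg.v p x = (1523 / 200000 + (x - 487 / 520) * (383557 / 20000)) + (302243 / 100000 + (x - 487 / 520) * (-266469 / 2500)) * p + (-149 / 2000 + (x - 487 / 520) * (29459 / 200)) * p ^ 2 := by
  simp only [kcg, kcg_3, kcg_6, kcg_9, kcg_12, kcg_13, kcg_18, kcg_31, kcg_32, kcg_33, kcg_38, kcg_43, kcg_56, kcg_57, kcg_65, kcg_66, kcg_71, kcg_84, kcg_85, kcg_90, kcg_94, kcg_103, kcg_104, kcg_113, kcg_116, kcg_117, kcg_121, kcg_130, kcg_131, kcg_136, kcg_140, kcg_151, kcg_152, kcg_160, kcg_161, kcg_165, kcg_178, kcg_179, kcg_187, kcg_191, kcg_203, kcg_204, kcg_209, kcg_212, kcg_219, kcg_220, kcg_221, kcg_226, kcg_227, kcg_236, kcg_242, kcg_247, kcg_258, kcg_265, kcg_266, kcg_273, kcg_283, kcg_289, kcg_295, kcg_307]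
  rcases eq_or_lt_of_le h1 with h | h1
  · subst h
    ((try push_cast); (repeat first | rw [if_pos (by linarith)] | rw [if_neg (by linarith)] | erw [if_pos (by linarith)] | erw [if_neg (by linarith)]); (try push_cast); (try ring1))
  rcases eq_or_lt_of_le h2 with h | h2
  · subst h
    ((try push_cast); (repeat first | rw [if_pos (by linarith)] | rw [if_neg (by linarith)] | erw [if_pos (by linarith)] | erw [if_neg (by linarith)]); (try push_cast); (try ring1))
  · ((try push_cast); (repeat first | rw [if_pos (by linarith)] | rw [if_neg (by linarith)] | erw [if_pos (by linarith)] | erw [if_neg (by linarith)]); (try push_cast); (try ring1))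
theorem kcl12 {p x : ℝ} (h1 : 7 / 20 ≤ p) (h2 : p ≤ 47 / 122) : kcg.v p x = (9746083451 / 1311500000000 + (x - 487 / 520) * (1007130360969 / 52460000000)) + (49566175283 / 16393750000 + (x - 487 / 520) * (-279882231617 / 2623000000)) * p + (-19 / 250 + (x - 487 / 520) * (7373 / 50)) * p ^ 2 := by
  simp only [kcg, kcg_3, kcg_6, kcg_9, kcg_12, kcg_13, kcg_18, kcg_31, kcg_32, kcg_33, kcg_38, kcg_43, kcg_56, kcg_57, kcg_65, kcg_66, kcg_71, kcg_84, kcg_85, kcg_90, kcg_94, kcg_103, kcg_104, kcg_113, kcg_116, kcg_117, kcg_121, kcg_130, kcg_131, kcg_136, kcg_140, kcg_151, kcg_152, kcg_160, kcg_161, kcg_165, kcg_178, kcg_179, kcg_187, kcg_191, kcg_203, kcg_204, kcg_209, kcg_212, kcg_219, kcg_220, kcg_221, kcg_226, kcg_227, kcg_236, kcg_242, kcg_247, kcg_258, kcg_265, kcg_266, kcg_273, kcg_283, kcg_289, kcg_295, kcg_307]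
  rcases eq_or_lt_of_le h1 with h | h1
  · subst h
    ((try push_cast); (repeat first | rw [if_pos (by linarith)] | rw [if_neg (by linarith)] | erw [if_pos (by linarith)] | erw [if_neg (by linarith)]); (try push_cast); (try ring1))
  rcases eq_or_lt_of_le h2 with h | h2
  · subst h
    ((try push_cast); (repeat first | rw [if_pos (by linarith)] | rw [if_neg (by linarith)] | erw [if_pos (by linarith)] | erw [if_neg (by linarith)]); (try push_cast); (try ring1))
  · ((try push_cast); (repeat first | rw [if_pos (by linarith)] | rw [if_neg (by linarith)] | erw [if_pos (by linarith)] | erw [if_neg (by linarith)]); (try push_cast); (try ring1))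
theorem kcl13 {p x : ℝ} (h1 : 47 / 122 ≤ p) (h2 : p ≤ 263 / 601) : kcg.v p x = (-278896131171287217 / 140741579000000000 + (x - 487 / 520) * (-18784187072639499 / 7037078950000000)) + (939422676143389789 / 70370789500000000 + (x - 487 / 520) * (48001058540398379 / 7037078950000000)) * p + (-6739 / 500 + (x - 487 / 520) * (3 / 25)) * p ^ 2 := by
  simp only [kcg, kcg_3, kcg_6, kcg_9, kcg_12, kcg_13, kcg_18, kcg_31, kcg_32, kcg_33, kcg_38, kcg_43, kcg_56, kcg_57, kcg_65, kcg_66, kcg_71, kcg_84, kcg_85, kcg_90, kcg_94, kcg_103, kcg_104, kcg_113, kcg_116, kcg_117, kcg_121, kcg_130, kcg_131, kcg_136, kcg_140, kcg_151, kcg_152, kcg_160, kcg_161, kcg_165, kcg_178, kcg_179, kcg_187, kcg_191, kcg_203, kcg_204, kcg_209, kcg_212, kcg_219, kcg_220, kcg_221, kcg_226, kcg_227, kcg_236, kcg_242, kcg_247, kcg_258, kcg_265, kcg_266, kcg_273, kcg_283, kcg_289, kcg_295, kcg_307]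
  rcases eq_or_lt_of_le h1 with h | h1
  · subst h
    ((try push_cast); (repeat first | rw [if_pos (by linarith)] | rw [if_neg (by linarith)] | erw [if_pos (by linarith)] | erw [if_neg (by linarith)]); (try push_cast); (try ring1))
  rcases eq_or_lt_of_le h2 with h | h2
  · subst h
    ((try push_cast); (repeat first | rw [if_pos (by linarith)] | rw [if_neg (by linarith)] | erw [if_pos (by linarith)] | erw [if_neg (by linarith)]); (try push_cast); (try ring1))
  · ((try push_cast); (repeat first | rw [if_pos (by linarith)] | rw [if_neg (by linarith)] | erw [if_pos (by linarith)] | erw [if_neg (by linarith)]); (try push_cast); (try ring1))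
theorem kcl14 {p x : ℝ} (h1 : 263 / 601 ≤ p) (h2 : p ≤ 23 / 50) : kcg.v p x = (-11835817362740711 / 404473000000000 + (x - 487 / 520) * (-534054671952341 / 5055912500000)) + (1116602246863137 / 8089460000000 + (x - 487 / 520) * (193089540589351 / 404473000000)) * p + (-77969 / 500 + (x - 487 / 520) * (-26877 / 50)) * p ^ 2 := by
  simp only [kcg, kcg_3, kcg_6, kcg_9, kcg_12, kcg_13, kcg_18, kcg_31, kcg_32, kcg_33, kcg_38, kcg_43, kcg_56, kcg_57, kcg_65, kcg_66, kcg_71, kcg_84, kcg_85, kcg_90, kcg_94, kcg_103, kcg_104, kcg_113, kcg_116, kcg_117, kcg_121, kcg_130, kcg_131, kcg_136, kcg_140, kcg_151, kcg_152, kcg_160, kcg_161, kcg_165, kcg_178, kcg_179, kcg_187, kcg_191, kcg_203, kcg_204, kcg_209, kcg_212, kcg_219, kcg_220, kcg_221, kcg_226, kcg_227, kcg_236, kcg_242, kcg_247, kcg_258, kcg_265, kcg_266, kcg_273, kcg_283, kcg_289, kcg_295, kcg_307]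
  rcases eq_or_lt_of_le h1 with h | h1
  · subst h
    ((try push_cast); (repeat first | rw [if_pos (by linarith)] | rw [if_neg (by linarith)] | erw [if_pos (by linarith)] | erw [if_neg (by linarith)]); (try push_cast); (try ring1))
  rcases eq_or_lt_of_le h2 with h | h2
  · subst h
    ((try push_cast); (repeat first | rw [if_pos (by linarith)] | rw [if_neg (by linarith)] | erw [if_pos (by linarith)] | erw [if_neg (by linarith)]); (try push_cast); (try ring1))
  · ((try push_cast); (repeat first | rw [if_pos (by linarith)] | rw [if_neg (by linarith)] | erw [if_pos (by linarith)] | erw [if_neg (by linarith)]); (try push_cast); (try ring1))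
theorem kcl15 {p x : ℝ} (h1 : 23 / 50 ≤ p) (h2 : p ≤ 19 / 40) : kcg.v p x = (1397930719 / 375000000 + (x - 487 / 520) * (1112318081 / 150000000)) + (-40527143 / 7500000 + (x - 487 / 520) * (-21172967 / 1500000)) * p + (-3 / 100 + (x - 487 / 520) * (-33 / 10)) * p ^ 2 := by
  simp only [kcg, kcg_3, kcg_6, kcg_9, kcg_12, kcg_13, kcg_18, kcg_31, kcg_32, kcg_33, kcg_38, kcg_43, kcg_56, kcg_57, kcg_65, kcg_66, kcg_71, kcg_84, kcg_85, kcg_90, kcg_94, kcg_103, kcg_104, kcg_113, kcg_116, kcg_117, kcg_121, kcg_130, kcg_131, kcg_136, kcg_140, kcg_151, kcg_152, kcg_160, kcg_161, kcg_165, kcg_178, kcg_179, kcg_187, kcg_191, kcg_203, kcg_204, kcg_209, kcg_212, kcg_219, kcg_220, kcg_221, kcg_226, kcg_227, kcg_236, kcg_242, kcg_247, kcg_258, kcg_265, kcg_266, kcg_273, kcg_283, kcg_289, kcg_295, kcg_307]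
  rcases eq_or_lt_of_le h1 with h | h1
  · subst h
    ((try push_cast); (repeat first | rw [if_pos (by linarith)] | rw [if_neg (by linarith)] | erw [if_pos (by linarith)] | erw [if_neg (by linarith)]); (try push_cast); (try ring1))
  rcases eq_or_lt_of_le h2 with h | h2
  · subst h
    ((try push_cast); (repeat first | rw [if_pos (by linarith)] | rw [if_neg (by linarith)] | erw [if_pos (by linarith)] | erw [if_neg (by linarith)]); (try push_cast); (try ring1))
  · ((try push_cast); (repeat first | rw [if_pos (by linarith)] | rw [if_neg (by linarith)] | erw [if_pos (by linarith)] | erw [if_neg (by linarith)]); (try push_cast); (try ring1))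
theorem kcl16 {p x : ℝ} (h1 : 19 / 40 ≤ p) (h2 : p ≤ 1 / 2) : kcg.v p x = (3731876507 / 1000000000 + (x - 487 / 520) * (2011801 / 250000)) + (-135517977 / 25000000 + (x - 487 / 520) * (-41938279 / 2500000)) * p + (-3 / 250 + (x - 487 / 520) * (-1 / 2)) * p ^ 2 := by
  simp only [kcg, kcg_3, kcg_6, kcg_9, kcg_12, kcg_13, kcg_18, kcg_31, kcg_32, kcg_33, kcg_38, kcg_43, kcg_56, kcg_57, kcg_65, kcg_66, kcg_71, kcg_84, kcg_85, kcg_90, kcg_94, kcg_103, kcg_104, kcg_113, kcg_116, kcg_117, kcg_121, kcg_130, kcg_131, kcg_136, kcg_140, kcg_151, kcg_152, kcg_160, kcg_161, kcg_165, kcg_178, kcg_179, kcg_187, kcg_191, kcg_203, kcg_204, kcg_209, kcg_212, kcg_219, kcg_220, kcg_221, kcg_226, kcg_227, kcg_236, kcg_242, kcg_247, kcg_258, kcg_265, kcg_266, kcg_273, kcg_283, kcg_289, kcg_295, kcg_307]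
  rcases eq_or_lt_of_le h1 with h | h1
  · subst h
    ((try push_cast); (repeat first | rw [if_pos (by linarith)] | rw [if_neg (by linarith)] | erw [if_pos (by linarith)] | erw [if_neg (by linarith)]); (try push_cast); (try ring1))
  rcases eq_or_lt_of_le h2 with h | h2
  · subst h
    ((try push_cast); (repeat first | rw [if_pos (by linarith)] | rw [if_neg (by linarith)] | erw [if_pos (by linarith)] | erw [if_neg (by linarith)]); (try push_cast); (try ring1))
  · ((try push_cast); (repeat first | rw [if_pos (by linarith)] | rw [if_neg (by linarith)] | erw [if_pos (by linarith)] | erw [if_neg (by linarith)]); (try push_cast); (try ring1))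
theorem kvh0 {p x : ℝ} (h2 : p ≤ -19 / 40) : dt33.kv p x = (-3731876507 / 1000000000 + (x - 487 / 520) * (-2011801 / 250000)) + (-135517977 / 25000000 + (x - 487 / 520) * (-41938279 / 2500000)) * p + (3 / 250 + (x - 487 / 520) * (1 / 2)) * p ^ 2 := by
  refine (DT.kv_le (by simp only [Cn.rt_v, Cn.ng_v]; push_cast; linarith)).trans ?_
  refine (DT.kv_le (by simp only [Cn.rt_v, Cn.ng_v]; push_cast; linarith)).trans ?_
  refine (DT.kv_le (by simp only [Cn.rt_v, Cn.ng_v]; push_cast; linarith)).trans ?_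
  refine (DT.kv_le (by simp only [Cn.rt_v, Cn.ng_v]; push_cast; linarith)).trans ?_
  simp only [dt1, DT.kv, sw1, sl1, sv1]
  ((try push_cast); ring1)
theorem kvh1 {p x : ℝ} (h1 : -19 / 40 < p) (h2 : p ≤ -23 / 50) : dt33.kv p x = (-1397930719 / 375000000 + (x - 487 / 520) * (-1112318081 / 150000000)) + (-40527143 / 7500000 + (x - 487 / 520) * (-21172967 / 1500000)) * p + (3 / 100 + (x - 487 / 520) * (33 / 10)) * p ^ 2 := by
  refine (DT.kv_le (by simp only [Cn.rt_v, Cn.ng_v]; push_cast; linarith)).trans ?_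
  refine (DT.kv_le (by simp only [Cn.rt_v, Cn.ng_v]; push_cast; linarith)).trans ?_
  refine (DT.kv_le (by simp only [Cn.rt_v, Cn.ng_v]; push_cast; linarith)).trans ?_
  refine (DT.kv_gt (by simp only [Cn.rt_v, Cn.ng_v]; push_cast; linarith)).trans ?_
  simp only [dt2, DT.kv, sw2, sl2, sv2]
  ((try push_cast); ring1)
theorem kvh2 {p x : ℝ} (h1 : -23 / 50 < p) (h2 : p ≤ -263 / 601) : dt33.kv p x = (11835817362740711 / 404473000000000 + (x - 487 / 520) * (534054671952341 / 5055912500000)) + (1116602246863137 / 8089460000000 + (x - 487 / 520) * (193089540589351 / 404473000000)) * p + (77969 / 500 + (x - 487 / 520) * (26877 / 50)) * p ^ 2 := by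
  refine (DT.kv_le (by simp only [Cn.rt_v, Cn.ng_v]; push_cast; linarith)).trans ?_
  refine (DT.kv_le (by simp only [Cn.rt_v, Cn.ng_v]; push_cast; linarith)).trans ?_
  refine (DT.kv_gt (by simp only [Cn.rt_v, Cn.ng_v]; push_cast; linarith)).trans ?_
  refine (DT.kv_le (by simp only [Cn.rt_v, Cn.ng_v]; push_cast; linarith)).trans ?_
  simp only [dt3, DT.kv, sw3, sl3, sv3]
  ((try push_cast); ring1)
theorem kvh3 {p x : ℝ} (h1 : -263 / 601 < p) (h2 : p ≤ -47 / 122) : dt33.kv p x = (278896131171287217 / 140741579000000000 + (x - 487 / 520) * (18784187072639499 / 7037078950000000)) + (939422676143389789 / 70370789500000000 + (x - 487 / 520) * (48001058540398379 / 7037078950000000)) * p + (6739 / 500 + (x - 487 / 520) * (-3 / 25)) * p ^ 2 := by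
  refine (DT.kv_le (by simp only [Cn.rt_v, Cn.ng_v]; push_cast; linarith)).trans ?_
  refine (DT.kv_le (by simp only [Cn.rt_v, Cn.ng_v]; push_cast; linarith)).trans ?_
  refine (DT.kv_gt (by simp only [Cn.rt_v, Cn.ng_v]; push_cast; linarith)).trans ?_
  refine (DT.kv_gt (by simp only [Cn.rt_v, Cn.ng_v]; push_cast; linarith)).trans ?_
  simp only [dt4, DT.kv, sw4, sl4, sv4]
  ((try push_cast); ring1)
theorem kvh4 {p x : ℝ} (h1 : -47 / 122 < p) (h2 : p ≤ -7 / 20) : dt33.kv p x = (-9746083451 / 1311500000000 + (x - 487 / 520) * (-1007130360969 / 52460000000)) + (49566175283 / 16393750000 + (x - 487 / 520) * (-279882231617 / 2623000000)) * p + (19 / 250 + (x - 487 / 520) * (-7373 / 50)) * p ^ 2 := by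
  refine (DT.kv_le (by simp only [Cn.rt_v, Cn.ng_v]; push_cast; linarith)).trans ?_
  refine (DT.kv_gt (by simp only [Cn.rt_v, Cn.ng_v]; push_cast; linarith)).trans ?_
  refine (DT.kv_le (by simp only [Cn.rt_v, Cn.ng_v]; push_cast; linarith)).trans ?_
  refine (DT.kv_le (by simp only [Cn.rt_v, Cn.ng_v]; push_cast; linarith)).trans ?_
  simp only [dt5, DT.kv, sw5, sl5, sv5]
  ((try push_cast); ring1)
theorem kvh5 {p x : ℝ} (h1 : -7 / 20 < p) (h2 : p ≤ -3 / 10) : dt33.kv p x = (-1523 / 200000 + (x - 487 / 520) * (-383557 / 20000)) + (302243 / 100000 + (x - 487 / 520) * (-266469 / 2500)) * p + (149 / 2000 + (x - 487 / 520) * (-29459 / 200)) * p ^ 2 := by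
  refine (DT.kv_le (by simp only [Cn.rt_v, Cn.ng_v]; push_cast; linarith)).trans ?_
  refine (DT.kv_gt (by simp only [Cn.rt_v, Cn.ng_v]; push_cast; linarith)).trans ?_
  refine (DT.kv_le (by simp only [Cn.rt_v, Cn.ng_v]; push_cast; linarith)).trans ?_
  refine (DT.kv_gt (by simp only [Cn.rt_v, Cn.ng_v]; push_cast; linarith)).trans ?_
  simp only [dt6, DT.kv, sw6, sl6, sv6]
  ((try push_cast); ring1)
theorem kvh6 {p x : ℝ} (h1 : -3 / 10 < p) (h2 : p ≤ -1 / 5) : dt33.kv p x = (331 / 200000 + (x - 487 / 520) * (-11803 / 2000)) + (308423 / 100000 + (x - 487 / 520) * (-90393 / 5000)) * p + (71 / 400 + (x - 487 / 520) * (11 / 50)) * p ^ 2 := by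
  refine (DT.kv_le (by simp only [Cn.rt_v, Cn.ng_v]; push_cast; linarith)).trans ?_
  refine (DT.kv_gt (by simp only [Cn.rt_v, Cn.ng_v]; push_cast; linarith)).trans ?_
  refine (DT.kv_gt (by simp only [Cn.rt_v, Cn.ng_v]; push_cast; linarith)).trans ?_
  refine (DT.kv_le (by simp only [Cn.rt_v, Cn.ng_v]; push_cast; linarith)).trans ?_
  simp only [dt7, DT.kv, sw7, sl7, sv7]
  ((try push_cast); ring1)
theorem kvh7 {p x : ℝ} (h1 : -1 / 5 < p) (h2 : p ≤ -1 / 10) : dt33.kv p x = (363 / 200000 + (x - 487 / 520) * (19701 / 10000)) + (308583 / 100000 + (x - 487 / 520) * (303187 / 5000)) * p + (363 / 2000 + (x - 487 / 520) * (19701 / 100)) * p ^ 2 := by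
  refine (DT.kv_le (by simp only [Cn.rt_v, Cn.ng_v]; push_cast; linarith)).trans ?_
  refine (DT.kv_gt (by simp only [Cn.rt_v, Cn.ng_v]; push_cast; linarith)).trans ?_
  refine (DT.kv_gt (by simp only [Cn.rt_v, Cn.ng_v]; push_cast; linarith)).trans ?_
  refine (DT.kv_gt (by simp only [Cn.rt_v, Cn.ng_v]; push_cast; linarith)).trans ?_
  simp only [dt8, DT.kv, sw8, sl8, sv8]
  ((try push_cast); ring1)
theorem kvh8 {p x : ℝ} (h1 : -1 / 10 < p) (h2 : p ≤ 1 / 10) : dt33.kv p x = (0) + (304953 / 100000 + (x - 487 / 520) * (106177 / 5000)) * p := by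
  refine (DT.kv_gt (by simp only [Cn.rt_v, Cn.ng_v]; push_cast; linarith)).trans ?_
  refine (DT.kv_le (by simp only [Cn.rt_v, Cn.ng_v]; push_cast; linarith)).trans ?_
  refine (DT.kv_le (by simp only [Cn.rt_v, Cn.ng_v]; push_cast; linarith)).trans ?_
  refine (DT.kv_le (by simp only [Cn.rt_v, Cn.ng_v]; push_cast; linarith)).trans ?_
  simp only [dt9, DT.kv, sl9, sv9]
  ((try push_cast); ring1)
theorem kvh9 {p x : ℝ} (h1 : 1 / 10 < p) (h2 : p ≤ 1 / 5) : dt33.kv p x = (-363 / 200000 + (x - 487 / 520) * (-19701 / 10000)) + (308583 / 100000 + (x - 487 / 520) * (303187 / 5000)) * p + (-363 / 2000 + (x - 487 / 520) * (-19701 / 100)) * p ^ 2 := by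
  refine (DT.kv_gt (by simp only [Cn.rt_v, Cn.ng_v]; push_cast; linarith)).trans ?_
  refine (DT.kv_le (by simp only [Cn.rt_v, Cn.ng_v]; push_cast; linarith)).trans ?_
  refine (DT.kv_le (by simp only [Cn.rt_v, Cn.ng_v]; push_cast; linarith)).trans ?_
  refine (DT.kv_gt (by simp only [Cn.rt_v, Cn.ng_v]; push_cast; linarith)).trans ?_
  simp only [dt10, DT.kv, sw10, sl10, sv10]
  ((try push_cast); ring1)
theorem kvh10 {p x : ℝ} (h1 : 1 / 5 < p) (h2 : p ≤ 3 / 10) : dt33.kv p x = (-331 / 200000 + (x - 487 / 520) * (11803 / 2000)) + (308423 / 100000 + (x - 487 / 520) * (-90393 / 5000)) * p + (-71 / 400 + (x - 487 / 520) * (-11 / 50)) * p ^ 2 := by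
  refine (DT.kv_gt (by simp only [Cn.rt_v, Cn.ng_v]; push_cast; linarith)).trans ?_
  refine (DT.kv_le (by simp only [Cn.rt_v, Cn.ng_v]; push_cast; linarith)).trans ?_
  refine (DT.kv_gt (by simp only [Cn.rt_v, Cn.ng_v]; push_cast; linarith)).trans ?_
  refine (DT.kv_le (by simp only [Cn.rt_v, Cn.ng_v]; push_cast; linarith)).trans ?_
  simp only [dt11, DT.kv, sw11, sl11, sv11]
  ((try push_cast); ring1)
theorem kvh11 {p x : ℝ} (h1 : 3 / 10 < p) (h2 : p ≤ 7 / 20) : dt33.kv p x = (1523 / 200000 + (x - 487 / 520) * (383557 / 20000)) + (302243 / 100000 + (x - 487 / 520) * (-266469 / 2500)) * p + (-149 / 2000 + (x - 487 / 520) * (29459 / 200)) * p ^ 2 := by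
  refine (DT.kv_gt (by simp only [Cn.rt_v, Cn.ng_v]; push_cast; linarith)).trans ?_
  refine (DT.kv_le (by simp only [Cn.rt_v, Cn.ng_v]; push_cast; linarith)).trans ?_
  refine (DT.kv_gt (by simp only [Cn.rt_v, Cn.ng_v]; push_cast; linarith)).trans ?_
  refine (DT.kv_gt (by simp only [Cn.rt_v, Cn.ng_v]; push_cast; linarith)).trans ?_
  simp only [dt12, DT.kv, sw12, sl12, sv12]
  ((try push_cast); ring1)
theorem kvh12 {p x : ℝ} (h1 : 7 / 20 < p) (h2 : p ≤ 47 / 122) : dt33.kv p x = (9746083451 / 1311500000000 + (x - 487 / 520) * (1007130360969 / 52460000000)) + (49566175283 / 16393750000 + (x - 487 / 520) * (-279882231617 / 2623000000)) * p + (-19 / 250 + (x - 487 / 520) * (7373 / 50)) * p ^ 2 := by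
  refine (DT.kv_gt (by simp only [Cn.rt_v, Cn.ng_v]; push_cast; linarith)).trans ?_
  refine (DT.kv_gt (by simp only [Cn.rt_v, Cn.ng_v]; push_cast; linarith)).trans ?_
  refine (DT.kv_le (by simp only [Cn.rt_v, Cn.ng_v]; push_cast; linarith)).trans ?_
  refine (DT.kv_le (by simp only [Cn.rt_v, Cn.ng_v]; push_cast; linarith)).trans ?_
  simp only [dt13, DT.kv, sw13, sl13, sv13]
  ((try push_cast); ring1)
theorem kvh13 {p x : ℝ} (h1 : 47 / 122 < p) (h2 : p ≤ 263 / 601) : dt33.kv p x = (-278896131171287217 / 140741579000000000 + (x - 487 / 520) * (-18784187072639499 / 7037078950000000)) + (939422676143389789 / 70370789500000000 + (x - 487 / 520) * (48001058540398379 / 7037078950000000)) * p + (-6739 / 500 + (x - 487 / 520) * (3 / 25)) * p ^ 2 := by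
  refine (DT.kv_gt (by simp only [Cn.rt_v, Cn.ng_v]; push_cast; linarith)).trans ?_
  refine (DT.kv_gt (by simp only [Cn.rt_v, Cn.ng_v]; push_cast; linarith)).trans ?_
  refine (DT.kv_le (by simp only [Cn.rt_v, Cn.ng_v]; push_cast; linarith)).trans ?_
  refine (DT.kv_gt (by simp only [Cn.rt_v, Cn.ng_v]; push_cast; linarith)).trans ?_
  simp only [dt14, DT.kv, sw14, sl14, sv14]
  ((try push_cast); ring1)
theorem kvh14 {p x : ℝ} (h1 : 263 / 601 < p) (h2 : p ≤ 23 / 50) : dt33.kv p x = (-11835817362740711 / 404473000000000 + (x - 487 / 520) * (-534054671952341 / 5055912500000)) + (1116602246863137 / 8089460000000 + (x - 487 / 520) * (193089540589351 / 404473000000)) * p + (-77969 / 500 + (x - 487 / 520) * (-26877 / 50)) * p ^ 2 := by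
  refine (DT.kv_gt (by simp only [Cn.rt_v, Cn.ng_v]; push_cast; linarith)).trans ?_
  refine (DT.kv_gt (by simp only [Cn.rt_v, Cn.ng_v]; push_cast; linarith)).trans ?_
  refine (DT.kv_gt (by simp only [Cn.rt_v, Cn.ng_v]; push_cast; linarith)).trans ?_
  refine (DT.kv_le (by simp only [Cn.rt_v, Cn.ng_v]; push_cast; linarith)).trans ?_
  simp only [dt15, DT.kv, sw15, sl15, sv15]
  ((try push_cast); ring1)
theorem kvh15 {p x : ℝ} (h1 : 23 / 50 < p) (h2 : p ≤ 19 / 40) : dt33.kv p x = (1397930719 / 375000000 + (x - 487 / 520) * (1112318081 / 150000000)) + (-40527143 / 7500000 + (x - 487 / 520) * (-21172967 / 1500000)) * p + (-3 / 100 + (x - 487 / 520) * (-33 / 10)) * p ^ 2 := by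
  refine (DT.kv_gt (by simp only [Cn.rt_v, Cn.ng_v]; push_cast; linarith)).trans ?_
  refine (DT.kv_gt (by simp only [Cn.rt_v, Cn.ng_v]; push_cast; linarith)).trans ?_
  refine (DT.kv_gt (by simp only [Cn.rt_v, Cn.ng_v]; push_cast; linarith)).trans ?_
  refine (DT.kv_gt (by simp only [Cn.rt_v, Cn.ng_v]; push_cast; linarith)).trans ?_
  refine (DT.kv_le (by simp only [Cn.rt_v, Cn.ng_v]; push_cast; linarith)).trans ?_
  simp only [dt16, DT.kv, sw16, sl16, sv16]
  ((try push_cast); ring1)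
theorem kvh16 {p x : ℝ} (h1 : 19 / 40 < p) (h2 : p ≤ 1 / 2) : dt33.kv p x = (3731876507 / 1000000000 + (x - 487 / 520) * (2011801 / 250000)) + (-135517977 / 25000000 + (x - 487 / 520) * (-41938279 / 2500000)) * p + (-3 / 250 + (x - 487 / 520) * (-1 / 2)) * p ^ 2 := by
  refine (DT.kv_gt (by simp only [Cn.rt_v, Cn.ng_v]; push_cast; linarith)).trans ?_
  refine (DT.kv_gt (by simp only [Cn.rt_v, Cn.ng_v]; push_cast; linarith)).trans ?_
  refine (DT.kv_gt (by simp only [Cn.rt_v, Cn.ng_v]; push_cast; linarith)).trans ?_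
  refine (DT.kv_gt (by simp only [Cn.rt_v, Cn.ng_v]; push_cast; linarith)).trans ?_
  refine (DT.kv_gt (by simp only [Cn.rt_v, Cn.ng_v]; push_cast; linarith)).trans ?_
  simp only [dt17, DT.kv, sw17, sl17, sv17]
  ((try push_cast); ring1)
theorem kvl0 {p x : ℝ} (h1 : -1 / 2 ≤ p) (h2 : p ≤ -19 / 40) : dt33.kv p x = (-3731876507 / 1000000000 + (x - 487 / 520) * (-2011801 / 250000)) + (-135517977 / 25000000 + (x - 487 / 520) * (-41938279 / 2500000)) * p + (3 / 250 + (x - 487 / 520) * (1 / 2)) * p ^ 2 := by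
  exact kvh0 h2
theorem kvl1 {p x : ℝ} (h1 : -19 / 40 ≤ p) (h2 : p ≤ -23 / 50) : dt33.kv p x = (-1397930719 / 375000000 + (x - 487 / 520) * (-1112318081 / 150000000)) + (-40527143 / 7500000 + (x - 487 / 520) * (-21172967 / 1500000)) * p + (3 / 100 + (x - 487 / 520) * (33 / 10)) * p ^ 2 := by
  rcases eq_or_lt_of_le h1 with h | h1
  · subst h
    rw [kvh0 (by norm_num)]
    ring1
  · exact kvh1 h1 h2
theorem kvl2 {p x : ℝ} (h1 : -23 / 50 ≤ p) (h2 : p ≤ -263 / 601) : dt33.kv p x = (11835817362740711 / 404473000000000 + (x - 487 / 520) * (534054671952341 / 5055912500000)) + (1116602246863137 / 8089460000000 + (x - 487 / 520) * (193089540589351 / 404473000000)) * p + (77969 / 500 + (x - 487 / 520) * (26877 / 50)) * p ^ 2 := by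
  rcases eq_or_lt_of_le h1 with h | h1
  · subst h
    rw [kvh1 (by norm_num) (by norm_num)]
    ring1
  · exact kvh2 h1 h2
theorem kvl3 {p x : ℝ} (h1 : -263 / 601 ≤ p) (h2 : p ≤ -47 / 122) : dt33.kv p x = (278896131171287217 / 140741579000000000 + (x - 487 / 520) * (18784187072639499 / 7037078950000000)) + (939422676143389789 / 70370789500000000 + (x - 487 / 520) * (48001058540398379 / 7037078950000000)) * p + (6739 / 500 + (x - 487 / 520) * (-3 / 25)) * p ^ 2 := by
  rcases eq_or_lt_of_le h1 with h | h1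
  · subst h
    rw [kvh2 (by norm_num) (by norm_num)]
    ring1
  · exact kvh3 h1 h2
theorem kvl4 {p x : ℝ} (h1 : -47 / 122 ≤ p) (h2 : p ≤ -7 / 20) : dt33.kv p x = (-9746083451 / 1311500000000 + (x - 487 / 520) * (-1007130360969 / 52460000000)) + (49566175283 / 16393750000 + (x - 487 / 520) * (-279882231617 / 2623000000)) * p + (19 / 250 + (x - 487 / 520) * (-7373 / 50)) * p ^ 2 := by
  rcases eq_or_lt_of_le h1 with h | h1
  · subst h
    rw [kvh3 (by norm_num) (by norm_num)]
    ring1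
  · exact kvh4 h1 h2
theorem kvl5 {p x : ℝ} (h1 : -7 / 20 ≤ p) (h2 : p ≤ -3 / 10) : dt33.kv p x = (-1523 / 200000 + (x - 487 / 520) * (-383557 / 20000)) + (302243 / 100000 + (x - 487 / 520) * (-266469 / 2500)) * p + (149 / 2000 + (x - 487 / 520) * (-29459 / 200)) * p ^ 2 := by
  rcases eq_or_lt_of_le h1 with h | h1
  · subst h
    rw [kvh4 (by norm_num) (by norm_num)]
    ring1
  · exact kvh5 h1 h2
theorem kvl6 {p x : ℝ} (h1 : -3 / 10 ≤ p) (h2 : p ≤ -1 / 5) : dt33.kv p x = (331 / 200000 + (x - 487 / 520) * (-11803 / 2000)) + (308423 / 100000 + (x - 487 / 520) * (-90393 / 5000)) * p + (71 / 400 + (x - 487 / 520) * (11 / 50)) * p ^ 2 := by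
  rcases eq_or_lt_of_le h1 with h | h1
  · subst h
    rw [kvh5 (by norm_num) (by norm_num)]
    ring1
  · exact kvh6 h1 h2
theorem kvl7 {p x : ℝ} (h1 : -1 / 5 ≤ p) (h2 : p ≤ -1 / 10) : dt33.kv p x = (363 / 200000 + (x - 487 / 520) * (19701 / 10000)) + (308583 / 100000 + (x - 487 / 520) * (303187 / 5000)) * p + (363 / 2000 + (x - 487 / 520) * (19701 / 100)) * p ^ 2 := by
  rcases eq_or_lt_of_le h1 with h | h1
  · subst h
    rw [kvh6 (by norm_num) (by norm_num)]
    ring1
  · exact kvh7 h1 h2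
theorem kvl8 {p x : ℝ} (h1 : -1 / 10 ≤ p) (h2 : p ≤ 1 / 10) : dt33.kv p x = (0) + (304953 / 100000 + (x - 487 / 520) * (106177 / 5000)) * p := by
  rcases eq_or_lt_of_le h1 with h | h1
  · subst h
    rw [kvh7 (by norm_num) (by norm_num)]
    ring1
  · exact kvh8 h1 h2
theorem kvl9 {p x : ℝ} (h1 : 1 / 10 ≤ p) (h2 : p ≤ 1 / 5) : dt33.kv p x = (-363 / 200000 + (x - 487 / 520) * (-19701 / 10000)) + (308583 / 100000 + (x - 487 / 520) * (303187 / 5000)) * p + (-363 / 2000 + (x - 487 / 520) * (-19701 / 100)) * p ^ 2 := by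
  rcases eq_or_lt_of_le h1 with h | h1
  · subst h
    rw [kvh8 (by norm_num) (by norm_num)]
    ring1
  · exact kvh9 h1 h2
theorem kvl10 {p x : ℝ} (h1 : 1 / 5 ≤ p) (h2 : p ≤ 3 / 10) : dt33.kv p x = (-331 / 200000 + (x - 487 / 520) * (11803 / 2000)) + (308423 / 100000 + (x - 487 / 520) * (-90393 / 5000)) * p + (-71 / 400 + (x - 487 / 520) * (-11 / 50)) * p ^ 2 := by
  rcases eq_or_lt_of_le h1 with h | h1
  · subst h
    rw [kvh9 (by norm_num) (by norm_num)]
    ring1
  · exact kvh10 h1 h2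
theorem kvl11 {p x : ℝ} (h1 : 3 / 10 ≤ p) (h2 : p ≤ 7 / 20) : dt33.kv p x = (1523 / 200000 + (x - 487 / 520) * (383557 / 20000)) + (302243 / 100000 + (x - 487 / 520) * (-266469 / 2500)) * p + (-149 / 2000 + (x - 487 / 520) * (29459 / 200)) * p ^ 2 := by
  rcases eq_or_lt_of_le h1 with h | h1
  · subst h
    rw [kvh10 (by norm_num) (by norm_num)]
    ring1
  · exact kvh11 h1 h2
theorem kvl12 {p x : ℝ} (h1 : 7 / 20 ≤ p) (h2 : p ≤ 47 / 122) : dt33.kv p x = (9746083451 / 1311500000000 + (x - 487 / 520) * (1007130360969 / 52460000000)) + (49566175283 / 16393750000 + (x - 487 / 520) * (-279882231617 / 2623000000)) * p + (-19 / 250 + (x - 487 / 520) * (7373 / 50)) * p ^ 2 := by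
  rcases eq_or_lt_of_le h1 with h | h1
  · subst h
    rw [kvh11 (by norm_num) (by norm_num)]
    ring1
  · exact kvh12 h1 h2
theorem kvl13 {p x : ℝ} (h1 : 47 / 122 ≤ p) (h2 : p ≤ 263 / 601) : dt33.kv p x = (-278896131171287217 / 140741579000000000 + (x - 487 / 520) * (-18784187072639499 / 7037078950000000)) + (939422676143389789 / 70370789500000000 + (x - 487 / 520) * (48001058540398379 / 7037078950000000)) * p + (-6739 / 500 + (x - 487 / 520) * (3 / 25)) * p ^ 2 := by
  rcases eq_or_lt_of_le h1 with h | h1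
  · subst h
    rw [kvh12 (by norm_num) (by norm_num)]
    ring1
  · exact kvh13 h1 h2
theorem kvl14 {p x : ℝ} (h1 : 263 / 601 ≤ p) (h2 : p ≤ 23 / 50) : dt33.kv p x = (-11835817362740711 / 404473000000000 + (x - 487 / 520) * (-534054671952341 / 5055912500000)) + (1116602246863137 / 8089460000000 + (x - 487 / 520) * (193089540589351 / 404473000000)) * p + (-77969 / 500 + (x - 487 / 520) * (-26877 / 50)) * p ^ 2 := by
  rcases eq_or_lt_of_le h1 with h | h1
  · subst h
    rw [kvh13 (by norm_num) (by norm_num)]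
    ring1
  · exact kvh14 h1 h2
theorem kvl15 {p x : ℝ} (h1 : 23 / 50 ≤ p) (h2 : p ≤ 19 / 40) : dt33.kv p x = (1397930719 / 375000000 + (x - 487 / 520) * (1112318081 / 150000000)) + (-40527143 / 7500000 + (x - 487 / 520) * (-21172967 / 1500000)) * p + (-3 / 100 + (x - 487 / 520) * (-33 / 10)) * p ^ 2 := by
  rcases eq_or_lt_of_le h1 with h | h1
  · subst h
    rw [kvh14 (by norm_num) (by norm_num)]
    ring1
  · exact kvh15 h1 h2
theorem kvl16 {p x : ℝ} (h1 : 19 / 40 ≤ p) (h2 : p ≤ 1 / 2) : dt33.kv p x = (3731876507 / 1000000000 + (x - 487 / 520) * (2011801 / 250000)) + (-135517977 / 25000000 + (x - 487 / 520) * (-41938279 / 2500000)) * p + (-3 / 250 + (x - 487 / 520) * (-1 / 2)) * p ^ 2 := by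
  rcases eq_or_lt_of_le h1 with h | h1
  · subst h
    rw [kvh15 (by norm_num) (by norm_num)]
    ring1
  · exact kvh16 h1 h2
theorem kfe {x p : ℝ} (h : |p| ≤ 1 / 2) : kcg.v p x = dt33.kv p x := by
  obtain ⟨h1, h2⟩ := abs_le.1 h
  rcases le_total p (-19 / 40) with g0 | g1000
  · rw [kcl0 (by linarith) g0, kvl0 (by linarith) g0]
  rcases le_total p (-23 / 50) with g1 | g1001
  · rw [kcl1 g1000 g1, kvl1 g1000 g1]
  rcases le_total p (-263 / 601) with g2 | g1002
  · rw [kcl2 g1001 g2, kvl2 g1001 g2]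
  rcases le_total p (-47 / 122) with g3 | g1003
  · rw [kcl3 g1002 g3, kvl3 g1002 g3]
  rcases le_total p (-7 / 20) with g4 | g1004
  · rw [kcl4 g1003 g4, kvl4 g1003 g4]
  rcases le_total p (-3 / 10) with g5 | g1005
  · rw [kcl5 g1004 g5, kvl5 g1004 g5]
  rcases le_total p (-1 / 5) with g6 | g1006
  · rw [kcl6 g1005 g6, kvl6 g1005 g6]
  rcases le_total p (-1 / 10) with g7 | g1007
  · rw [kcl7 g1006 g7, kvl7 g1006 g7]
  rcases le_total p (1 / 10) with g8 | g1008
  · rw [kcl8 g1007 g8, kvl8 g1007 g8]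
  rcases le_total p (1 / 5) with g9 | g1009
  · rw [kcl9 g1008 g9, kvl9 g1008 g9]
  rcases le_total p (3 / 10) with g10 | g1010
  · rw [kcl10 g1009 g10, kvl10 g1009 g10]
  rcases le_total p (7 / 20) with g11 | g1011
  · rw [kcl11 g1010 g11, kvl11 g1010 g11]
  rcases le_total p (47 / 122) with g12 | g1012
  · rw [kcl12 g1011 g12, kvl12 g1011 g12]
  rcases le_total p (263 / 601) with g13 | g1013
  · rw [kcl13 g1012 g13, kvl13 g1012 g13]
  rcases le_total p (23 / 50) with g14 | g1014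
  · rw [kcl14 g1013 g14, kvl14 g1013 g14]
  rcases le_total p (19 / 40) with g15 | g1015
  · rw [kcl15 g1014 g15, kvl15 g1014 g15]
  · rw [kcl16 g1015 (by linarith), kvl16 g1015 (by linarith)]
theorem odd {x p : ℝ} (h : |p| ≤ 1 / 2) : kcg.v (-p) x = -kcg.v p x := by
  obtain ⟨h1, h2⟩ := abs_le.1 h
  rcases le_total p (-19 / 40) with g0 | g1000
  · rw [kcl0 (by linarith) g0, kcl16 (p := -p) (by linarith) (by linarith)]; ring
  rcases le_total p (-23 / 50) with g1 | g1001
  · rw [kcl1 g1000 g1, kcl15 (p := -p) (by linarith) (by linarith)]; ring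
  rcases le_total p (-263 / 601) with g2 | g1002
  · rw [kcl2 g1001 g2, kcl14 (p := -p) (by linarith) (by linarith)]; ring
  rcases le_total p (-47 / 122) with g3 | g1003
  · rw [kcl3 g1002 g3, kcl13 (p := -p) (by linarith) (by linarith)]; ring
  rcases le_total p (-7 / 20) with g4 | g1004
  · rw [kcl4 g1003 g4, kcl12 (p := -p) (by linarith) (by linarith)]; ring
  rcases le_total p (-3 / 10) with g5 | g1005
  · rw [kcl5 g1004 g5, kcl11 (p := -p) (by linarith) (by linarith)]; ring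
  rcases le_total p (-1 / 5) with g6 | g1006
  · rw [kcl6 g1005 g6, kcl10 (p := -p) (by linarith) (by linarith)]; ring
  rcases le_total p (-1 / 10) with g7 | g1007
  · rw [kcl7 g1006 g7, kcl9 (p := -p) (by linarith) (by linarith)]; ring
  rcases le_total p (1 / 10) with g8 | g1008
  · rw [kcl8 g1007 g8, kcl8 (p := -p) (by linarith) (by linarith)]; ring
  rcases le_total p (1 / 5) with g9 | g1009
  · rw [kcl9 g1008 g9, kcl7 (p := -p) (by linarith) (by linarith)]; ring
  rcases le_total p (3 / 10) with g10 | g1010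
  · rw [kcl10 g1009 g10, kcl6 (p := -p) (by linarith) (by linarith)]; ring
  rcases le_total p (7 / 20) with g11 | g1011
  · rw [kcl11 g1010 g11, kcl5 (p := -p) (by linarith) (by linarith)]; ring
  rcases le_total p (47 / 122) with g12 | g1012
  · rw [kcl12 g1011 g12, kcl4 (p := -p) (by linarith) (by linarith)]; ring
  rcases le_total p (263 / 601) with g13 | g1013
  · rw [kcl13 g1012 g13, kcl3 (p := -p) (by linarith) (by linarith)]; ring
  rcases le_total p (23 / 50) with g14 | g1014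
  · rw [kcl14 g1013 g14, kcl2 (p := -p) (by linarith) (by linarith)]; ring
  rcases le_total p (19 / 40) with g15 | g1015
  · rw [kcl15 g1014 g15, kcl1 (p := -p) (by linarith) (by linarith)]; ring
  · rw [kcl16 g1015 (by linarith), kcl0 (p := -p) (by linarith) (by linarith)]; ring
theorem ctA : cT (47 / 122) = 37 / 61 := by
  unfold cT
  rw [show (3 / 4 * (1 - (47 / 122 : ℝ) ^ 2)) = (195 / 244) ^ 2 by norm_num, Real.sqrt_sq (by norm_num)]
  norm_num
theorem ctB : cT (263 / 601) = 673 / 1202 := by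
  unfold cT
  rw [show (3 / 4 * (1 - (263 / 601 : ℝ) ^ 2)) = (468 / 601) ^ 2 by norm_num, Real.sqrt_sq (by norm_num)]
  norm_num
theorem kgA {x : ℝ} : kcg.v (47 / 122) x = (580467517 / 500000000 + (x - 487 / 520) * (-473627 / 20000000)) := by
  rw [kcl12 (by norm_num) (by norm_num)]
  ring
theorem kgB {x : ℝ} : kcg.v (263 / 601) x = (1279224543 / 1000000000 + (x - 487 / 520) * (8465791 / 25000000)) := by
  rw [kcl13 (by norm_num) (by norm_num)]
  ring
theorem ka_dt1 (x : ℝ) : dt1.kv (-1 / 2) x = (-1018516967 / 1000000000 + (x - 487 / 520) * (2327259 / 5000000)) := by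
  simp only [dt1, DT.kv, sw1, sl1, sv1]
  ((try push_cast); ring1)
theorem kb_dt1 (x : ℝ) : dt1.kv (-19 / 40) x = (-288581861 / 250000000 + (x - 487 / 520) * (3388151 / 100000000)) := by
  simp only [dt1, DT.kv, sw1, sl1, sv1]
  ((try push_cast); ring1)
theorem ka_dt2 (x : ℝ) : dt2.kv (-19 / 40) x = (-288581861 / 250000000 + (x - 487 / 520) * (3388151 / 100000000)) := by
  simp only [dt2, DT.kv, sw2, sl2, sv2]
  ((try push_cast); ring1)
theorem kb_dt2 (x : ℝ) : dt2.kv (-23 / 50) x = (-15447531 / 12500000 + (x - 487 / 520) * (-11206533 / 50000000)) := by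
  simp only [dt2, DT.kv, sw2, sl2, sv2]
  ((try push_cast); ring1)
theorem ka_dt18 (x : ℝ) : dt18.kv (-1 / 2) x = (-1018516967 / 1000000000 + (x - 487 / 520) * (2327259 / 5000000)) :=
  (DT.kv_le (by simp only [Cn.rt_v, Cn.ng_v]; norm_num)).trans (ka_dt1 x)
theorem kb_dt18 (x : ℝ) : dt18.kv (-23 / 50) x = (-15447531 / 12500000 + (x - 487 / 520) * (-11206533 / 50000000)) :=
  (DT.kv_gt (by simp only [Cn.rt_v, Cn.ng_v]; norm_num)).trans (kb_dt2 x)
theorem ka_dt3 (x : ℝ) : dt3.kv (-23 / 50) x = (-15447531 / 12500000 + (x - 487 / 520) * (-11206533 / 50000000)) := by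
  simp only [dt3, DT.kv, sw3, sl3, sv3]
  ((try push_cast); ring1)
theorem kb_dt3 (x : ℝ) : dt3.kv (-263 / 601) x = (-1279224543 / 1000000000 + (x - 487 / 520) * (-8465791 / 25000000)) := by
  simp only [dt3, DT.kv, sw3, sl3, sv3]
  ((try push_cast); ring1)
theorem ka_dt4 (x : ℝ) : dt4.kv (-263 / 601) x = (-1279224543 / 1000000000 + (x - 487 / 520) * (-8465791 / 25000000)) := by
  simp only [dt4, DT.kv, sw4, sl4, sv4]
  ((try push_cast); ring1)
theorem kb_dt4 (x : ℝ) : dt4.kv (-47 / 122) x = (-580467517 / 500000000 + (x - 487 / 520) * (473627 / 20000000)) := by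
  simp only [dt4, DT.kv, sw4, sl4, sv4]
  ((try push_cast); ring1)
theorem ka_dt19 (x : ℝ) : dt19.kv (-23 / 50) x = (-15447531 / 12500000 + (x - 487 / 520) * (-11206533 / 50000000)) :=
  (DT.kv_le (by simp only [Cn.rt_v, Cn.ng_v]; norm_num)).trans (ka_dt3 x)
theorem kb_dt19 (x : ℝ) : dt19.kv (-47 / 122) x = (-580467517 / 500000000 + (x - 487 / 520) * (473627 / 20000000)) :=
  (DT.kv_gt (by simp only [Cn.rt_v, Cn.ng_v]; norm_num)).trans (kb_dt4 x)
theorem ka_dt20 (x : ℝ) : dt20.kv (-1 / 2) x = (-1018516967 / 1000000000 + (x - 487 / 520) * (2327259 / 5000000)) :=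
  (DT.kv_le (by simp only [Cn.rt_v, Cn.ng_v]; norm_num)).trans (ka_dt18 x)
theorem kb_dt20 (x : ℝ) : dt20.kv (-47 / 122) x = (-580467517 / 500000000 + (x - 487 / 520) * (473627 / 20000000)) :=
  (DT.kv_gt (by simp only [Cn.rt_v, Cn.ng_v]; norm_num)).trans (kb_dt19 x)
theorem ka_dt5 (x : ℝ) : dt5.kv (-47 / 122) x = (-580467517 / 500000000 + (x - 487 / 520) * (473627 / 20000000)) := by
  simp only [dt5, DT.kv, sw5, sl5, sv5]
  ((try push_cast); ring1)
theorem kb_dt5 (x : ℝ) : dt5.kv (-7 / 20) x = (-4225357 / 4000000 + (x - 487 / 520) * (33669 / 400000)) := by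
  simp only [dt5, DT.kv, sw5, sl5, sv5]
  ((try push_cast); ring1)
theorem ka_dt6 (x : ℝ) : dt6.kv (-7 / 20) x = (-4225357 / 4000000 + (x - 487 / 520) * (33669 / 400000)) := by
  simp only [dt6, DT.kv, sw6, sl6, sv6]
  ((try push_cast); ring1)
theorem kb_dt6 (x : ℝ) : dt6.kv (-3 / 10) x = (-907639 / 1000000 + (x - 487 / 520) * (-11453 / 25000)) := by
  simp only [dt6, DT.kv, sw6, sl6, sv6]
  ((try push_cast); ring1)
theorem ka_dt21 (x : ℝ) : dt21.kv (-47 / 122) x = (-580467517 / 500000000 + (x - 487 / 520) * (473627 / 20000000)) :=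
  (DT.kv_le (by simp only [Cn.rt_v, Cn.ng_v]; norm_num)).trans (ka_dt5 x)
theorem kb_dt21 (x : ℝ) : dt21.kv (-3 / 10) x = (-907639 / 1000000 + (x - 487 / 520) * (-11453 / 25000)) :=
  (DT.kv_gt (by simp only [Cn.rt_v, Cn.ng_v]; norm_num)).trans (kb_dt6 x)
theorem ka_dt7 (x : ℝ) : dt7.kv (-3 / 10) x = (-907639 / 1000000 + (x - 487 / 520) * (-11453 / 25000)) := by
  simp only [dt7, DT.kv, sw7, sl7, sv7]
  ((try push_cast); ring1)
theorem kb_dt7 (x : ℝ) : dt7.kv (-1 / 5) x = (-608091 / 1000000 + (x - 487 / 520) * (-113849 / 50000)) := by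
  simp only [dt7, DT.kv, sw7, sl7, sv7]
  ((try push_cast); ring1)
theorem ka_dt8 (x : ℝ) : dt8.kv (-1 / 5) x = (-608091 / 1000000 + (x - 487 / 520) * (-113849 / 50000)) := by
  simp only [dt8, DT.kv, sw8, sl8, sv8]
  ((try push_cast); ring1)
theorem kb_dt8 (x : ℝ) : dt8.kv (-1 / 10) x = (-304953 / 1000000 + (x - 487 / 520) * (-106177 / 50000)) := by
  simp only [dt8, DT.kv, sw8, sl8, sv8]
  ((try push_cast); ring1)
theorem ka_dt22 (x : ℝ) : dt22.kv (-3 / 10) x = (-907639 / 1000000 + (x - 487 / 520) * (-11453 / 25000)) :=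
  (DT.kv_le (by simp only [Cn.rt_v, Cn.ng_v]; norm_num)).trans (ka_dt7 x)
theorem kb_dt22 (x : ℝ) : dt22.kv (-1 / 10) x = (-304953 / 1000000 + (x - 487 / 520) * (-106177 / 50000)) :=
  (DT.kv_gt (by simp only [Cn.rt_v, Cn.ng_v]; norm_num)).trans (kb_dt8 x)
theorem ka_dt23 (x : ℝ) : dt23.kv (-47 / 122) x = (-580467517 / 500000000 + (x - 487 / 520) * (473627 / 20000000)) :=
  (DT.kv_le (by simp only [Cn.rt_v, Cn.ng_v]; norm_num)).trans (ka_dt21 x)
theorem kb_dt23 (x : ℝ) : dt23.kv (-1 / 10) x = (-304953 / 1000000 + (x - 487 / 520) * (-106177 / 50000)) :=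
  (DT.kv_gt (by simp only [Cn.rt_v, Cn.ng_v]; norm_num)).trans (kb_dt22 x)
theorem ka_dt24 (x : ℝ) : dt24.kv (-1 / 2) x = (-1018516967 / 1000000000 + (x - 487 / 520) * (2327259 / 5000000)) :=
  (DT.kv_le (by simp only [Cn.rt_v, Cn.ng_v]; norm_num)).trans (ka_dt20 x)
theorem kb_dt24 (x : ℝ) : dt24.kv (-1 / 10) x = (-304953 / 1000000 + (x - 487 / 520) * (-106177 / 50000)) :=
  (DT.kv_gt (by simp only [Cn.rt_v, Cn.ng_v]; norm_num)).trans (kb_dt23 x)
theorem ka_dt9 (x : ℝ) : dt9.kv (-1 / 10) x = (-304953 / 1000000 + (x - 487 / 520) * (-106177 / 50000)) := by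
  simp only [dt9, DT.kv, sl9, sv9]
  ((try push_cast); ring1)
theorem kb_dt9 (x : ℝ) : dt9.kv (1 / 10) x = (304953 / 1000000 + (x - 487 / 520) * (106177 / 50000)) := by
  simp only [dt9, DT.kv, sl9, sv9]
  ((try push_cast); ring1)
theorem ka_dt10 (x : ℝ) : dt10.kv (1 / 10) x = (304953 / 1000000 + (x - 487 / 520) * (106177 / 50000)) := by
  simp only [dt10, DT.kv, sw10, sl10, sv10]
  ((try push_cast); ring1)
theorem kb_dt10 (x : ℝ) : dt10.kv (1 / 5) x = (608091 / 1000000 + (x - 487 / 520) * (113849 / 50000)) := by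
  simp only [dt10, DT.kv, sw10, sl10, sv10]
  ((try push_cast); ring1)
theorem ka_dt25 (x : ℝ) : dt25.kv (-1 / 10) x = (-304953 / 1000000 + (x - 487 / 520) * (-106177 / 50000)) :=
  (DT.kv_le (by simp only [Cn.rt_v, Cn.ng_v]; norm_num)).trans (ka_dt9 x)
theorem kb_dt25 (x : ℝ) : dt25.kv (1 / 5) x = (608091 / 1000000 + (x - 487 / 520) * (113849 / 50000)) :=
  (DT.kv_gt (by simp only [Cn.rt_v, Cn.ng_v]; norm_num)).trans (kb_dt10 x)
theorem ka_dt11 (x : ℝ) : dt11.kv (1 / 5) x = (608091 / 1000000 + (x - 487 / 520) * (113849 / 50000)) := by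
  simp only [dt11, DT.kv, sw11, sl11, sv11]
  ((try push_cast); ring1)
theorem kb_dt11 (x : ℝ) : dt11.kv (3 / 10) x = (907639 / 1000000 + (x - 487 / 520) * (11453 / 25000)) := by
  simp only [dt11, DT.kv, sw11, sl11, sv11]
  ((try push_cast); ring1)
theorem ka_dt12 (x : ℝ) : dt12.kv (3 / 10) x = (907639 / 1000000 + (x - 487 / 520) * (11453 / 25000)) := by
  simp only [dt12, DT.kv, sw12, sl12, sv12]
  ((try push_cast); ring1)
theorem kb_dt12 (x : ℝ) : dt12.kv (7 / 20) x = (4225357 / 4000000 + (x - 487 / 520) * (-33669 / 400000)) := by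
  simp only [dt12, DT.kv, sw12, sl12, sv12]
  ((try push_cast); ring1)
theorem ka_dt26 (x : ℝ) : dt26.kv (1 / 5) x = (608091 / 1000000 + (x - 487 / 520) * (113849 / 50000)) :=
  (DT.kv_le (by simp only [Cn.rt_v, Cn.ng_v]; norm_num)).trans (ka_dt11 x)
theorem kb_dt26 (x : ℝ) : dt26.kv (7 / 20) x = (4225357 / 4000000 + (x - 487 / 520) * (-33669 / 400000)) :=
  (DT.kv_gt (by simp only [Cn.rt_v, Cn.ng_v]; norm_num)).trans (kb_dt12 x)
theorem ka_dt27 (x : ℝ) : dt27.kv (-1 / 10) x = (-304953 / 1000000 + (x - 487 / 520) * (-106177 / 50000)) :=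
  (DT.kv_le (by simp only [Cn.rt_v, Cn.ng_v]; norm_num)).trans (ka_dt25 x)
theorem kb_dt27 (x : ℝ) : dt27.kv (7 / 20) x = (4225357 / 4000000 + (x - 487 / 520) * (-33669 / 400000)) :=
  (DT.kv_gt (by simp only [Cn.rt_v, Cn.ng_v]; norm_num)).trans (kb_dt26 x)
theorem ka_dt13 (x : ℝ) : dt13.kv (7 / 20) x = (4225357 / 4000000 + (x - 487 / 520) * (-33669 / 400000)) := by
  simp only [dt13, DT.kv, sw13, sl13, sv13]
  ((try push_cast); ring1)
theorem kb_dt13 (x : ℝ) : dt13.kv (47 / 122) x = (580467517 / 500000000 + (x - 487 / 520) * (-473627 / 20000000)) := by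
  simp only [dt13, DT.kv, sw13, sl13, sv13]
  ((try push_cast); ring1)
theorem ka_dt14 (x : ℝ) : dt14.kv (47 / 122) x = (580467517 / 500000000 + (x - 487 / 520) * (-473627 / 20000000)) := by
  simp only [dt14, DT.kv, sw14, sl14, sv14]
  ((try push_cast); ring1)
theorem kb_dt14 (x : ℝ) : dt14.kv (263 / 601) x = (1279224543 / 1000000000 + (x - 487 / 520) * (8465791 / 25000000)) := by
  simp only [dt14, DT.kv, sw14, sl14, sv14]
  ((try push_cast); ring1)
theorem ka_dt28 (x : ℝ) : dt28.kv (7 / 20) x = (4225357 / 4000000 + (x - 487 / 520) * (-33669 / 400000)) :=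
  (DT.kv_le (by simp only [Cn.rt_v, Cn.ng_v]; norm_num)).trans (ka_dt13 x)
theorem kb_dt28 (x : ℝ) : dt28.kv (263 / 601) x = (1279224543 / 1000000000 + (x - 487 / 520) * (8465791 / 25000000)) :=
  (DT.kv_gt (by simp only [Cn.rt_v, Cn.ng_v]; norm_num)).trans (kb_dt14 x)
theorem ka_dt15 (x : ℝ) : dt15.kv (263 / 601) x = (1279224543 / 1000000000 + (x - 487 / 520) * (8465791 / 25000000)) := by
  simp only [dt15, DT.kv, sw15, sl15, sv15]
  ((try push_cast); ring1)
theorem kb_dt15 (x : ℝ) : dt15.kv (23 / 50) x = (15447531 / 12500000 + (x - 487 / 520) * (11206533 / 50000000)) := by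
  simp only [dt15, DT.kv, sw15, sl15, sv15]
  ((try push_cast); ring1)
theorem ka_dt16 (x : ℝ) : dt16.kv (23 / 50) x = (15447531 / 12500000 + (x - 487 / 520) * (11206533 / 50000000)) := by
  simp only [dt16, DT.kv, sw16, sl16, sv16]
  ((try push_cast); ring1)
theorem kb_dt16 (x : ℝ) : dt16.kv (19 / 40) x = (288581861 / 250000000 + (x - 487 / 520) * (-3388151 / 100000000)) := by
  simp only [dt16, DT.kv, sw16, sl16, sv16]
  ((try push_cast); ring1)
theorem ka_dt17 (x : ℝ) : dt17.kv (19 / 40) x = (288581861 / 250000000 + (x - 487 / 520) * (-3388151 / 100000000)) := by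
  simp only [dt17, DT.kv, sw17, sl17, sv17]
  ((try push_cast); ring1)
theorem kb_dt17 (x : ℝ) : dt17.kv (1 / 2) x = (1018516967 / 1000000000 + (x - 487 / 520) * (-2327259 / 5000000)) := by
  simp only [dt17, DT.kv, sw17, sl17, sv17]
  ((try push_cast); ring1)
theorem ka_dt29 (x : ℝ) : dt29.kv (23 / 50) x = (15447531 / 12500000 + (x - 487 / 520) * (11206533 / 50000000)) :=
  (DT.kv_le (by simp only [Cn.rt_v, Cn.ng_v]; norm_num)).trans (ka_dt16 x)
theorem kb_dt29 (x : ℝ) : dt29.kv (1 / 2) x = (1018516967 / 1000000000 + (x - 487 / 520) * (-2327259 / 5000000)) :=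
  (DT.kv_gt (by simp only [Cn.rt_v, Cn.ng_v]; norm_num)).trans (kb_dt17 x)
theorem ka_dt30 (x : ℝ) : dt30.kv (263 / 601) x = (1279224543 / 1000000000 + (x - 487 / 520) * (8465791 / 25000000)) :=
  (DT.kv_le (by simp only [Cn.rt_v, Cn.ng_v]; norm_num)).trans (ka_dt15 x)
theorem kb_dt30 (x : ℝ) : dt30.kv (1 / 2) x = (1018516967 / 1000000000 + (x - 487 / 520) * (-2327259 / 5000000)) :=
  (DT.kv_gt (by simp only [Cn.rt_v, Cn.ng_v]; norm_num)).trans (kb_dt29 x)
theorem ka_dt31 (x : ℝ) : dt31.kv (7 / 20) x = (4225357 / 4000000 + (x - 487 / 520) * (-33669 / 400000)) :=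
  (DT.kv_le (by simp only [Cn.rt_v, Cn.ng_v]; norm_num)).trans (ka_dt28 x)
theorem kb_dt31 (x : ℝ) : dt31.kv (1 / 2) x = (1018516967 / 1000000000 + (x - 487 / 520) * (-2327259 / 5000000)) :=
  (DT.kv_gt (by simp only [Cn.rt_v, Cn.ng_v]; norm_num)).trans (kb_dt30 x)
theorem ka_dt32 (x : ℝ) : dt32.kv (-1 / 10) x = (-304953 / 1000000 + (x - 487 / 520) * (-106177 / 50000)) :=
  (DT.kv_le (by simp only [Cn.rt_v, Cn.ng_v]; norm_num)).trans (ka_dt27 x)
theorem kb_dt32 (x : ℝ) : dt32.kv (1 / 2) x = (1018516967 / 1000000000 + (x - 487 / 520) * (-2327259 / 5000000)) :=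
  (DT.kv_gt (by simp only [Cn.rt_v, Cn.ng_v]; norm_num)).trans (kb_dt31 x)
theorem ka_dt33 (x : ℝ) : dt33.kv (-1 / 2) x = (-1018516967 / 1000000000 + (x - 487 / 520) * (2327259 / 5000000)) :=
  (DT.kv_le (by simp only [Cn.rt_v, Cn.ng_v]; norm_num)).trans (ka_dt24 x)
theorem kb_dt33 (x : ℝ) : dt33.kv (1 / 2) x = (1018516967 / 1000000000 + (x - 487 / 520) * (-2327259 / 5000000)) :=
  (DT.kv_gt (by simp only [Cn.rt_v, Cn.ng_v]; norm_num)).trans (kb_dt32 x)
theorem ko_dt1 (x : ℝ) : dt1.KOk x := trivial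
theorem ko_dt2 (x : ℝ) : dt2.KOk x := trivial
theorem ko_dt18 (x : ℝ) : dt18.KOk x :=
  DT.kOk_node (v := -19 / 40) (by simp only [Cn.rt_v, Cn.ng_v]; norm_num) (kb_dt1 x) (ka_dt2 x) (by ring1) (ko_dt1 x) (ko_dt2 x)
theorem ko_dt3 (x : ℝ) : dt3.KOk x := trivial
theorem ko_dt4 (x : ℝ) : dt4.KOk x := trivial
theorem ko_dt19 (x : ℝ) : dt19.KOk x :=
  DT.kOk_node (v := -263 / 601) (by simp only [Cn.rt_v, Cn.ng_v]; norm_num) (kb_dt3 x) (ka_dt4 x) (by ring1) (ko_dt3 x) (ko_dt4 x)
theorem ko_dt20 (x : ℝ) : dt20.KOk x :=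
  DT.kOk_node (v := -23 / 50) (by simp only [Cn.rt_v, Cn.ng_v]; norm_num) (kb_dt18 x) (ka_dt19 x) (by ring1) (ko_dt18 x) (ko_dt19 x)
theorem ko_dt5 (x : ℝ) : dt5.KOk x := trivial
theorem ko_dt6 (x : ℝ) : dt6.KOk x := trivial
theorem ko_dt21 (x : ℝ) : dt21.KOk x :=
  DT.kOk_node (v := -7 / 20) (by simp only [Cn.rt_v, Cn.ng_v]; norm_num) (kb_dt5 x) (ka_dt6 x) (by ring1) (ko_dt5 x) (ko_dt6 x)
theorem ko_dt7 (x : ℝ) : dt7.KOk x := trivial
theorem ko_dt8 (x : ℝ) : dt8.KOk x := trivial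
theorem ko_dt22 (x : ℝ) : dt22.KOk x :=
  DT.kOk_node (v := -1 / 5) (by simp only [Cn.rt_v, Cn.ng_v]; norm_num) (kb_dt7 x) (ka_dt8 x) (by ring1) (ko_dt7 x) (ko_dt8 x)
theorem ko_dt23 (x : ℝ) : dt23.KOk x :=
  DT.kOk_node (v := -3 / 10) (by simp only [Cn.rt_v, Cn.ng_v]; norm_num) (kb_dt21 x) (ka_dt22 x) (by ring1) (ko_dt21 x) (ko_dt22 x)
theorem ko_dt24 (x : ℝ) : dt24.KOk x :=
  DT.kOk_node (v := -47 / 122) (by simp only [Cn.rt_v, Cn.ng_v]; norm_num) (kb_dt20 x) (ka_dt23 x) (by ring1) (ko_dt20 x) (ko_dt23 x)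
theorem ko_dt9 (x : ℝ) : dt9.KOk x := trivial
theorem ko_dt10 (x : ℝ) : dt10.KOk x := trivial
theorem ko_dt25 (x : ℝ) : dt25.KOk x :=
  DT.kOk_node (v := 1 / 10) (by simp only [Cn.rt_v, Cn.ng_v]; norm_num) (kb_dt9 x) (ka_dt10 x) (by ring1) (ko_dt9 x) (ko_dt10 x)
theorem ko_dt11 (x : ℝ) : dt11.KOk x := trivial
theorem ko_dt12 (x : ℝ) : dt12.KOk x := trivial
theorem ko_dt26 (x : ℝ) : dt26.KOk x :=
  DT.kOk_node (v := 3 / 10) (by simp only [Cn.rt_v, Cn.ng_v]; norm_num) (kb_dt11 x) (ka_dt12 x) (by ring1) (ko_dt11 x) (ko_dt12 x)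
theorem ko_dt27 (x : ℝ) : dt27.KOk x :=
  DT.kOk_node (v := 1 / 5) (by simp only [Cn.rt_v, Cn.ng_v]; norm_num) (kb_dt25 x) (ka_dt26 x) (by ring1) (ko_dt25 x) (ko_dt26 x)
theorem ko_dt13 (x : ℝ) : dt13.KOk x := trivial
theorem ko_dt14 (x : ℝ) : dt14.KOk x := trivial
theorem ko_dt28 (x : ℝ) : dt28.KOk x :=
  DT.kOk_node (v := 47 / 122) (by simp only [Cn.rt_v, Cn.ng_v]; norm_num) (kb_dt13 x) (ka_dt14 x) (by ring1) (ko_dt13 x) (ko_dt14 x)
theorem ko_dt15 (x : ℝ) : dt15.KOk x := trivial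
theorem ko_dt16 (x : ℝ) : dt16.KOk x := trivial
theorem ko_dt17 (x : ℝ) : dt17.KOk x := trivial
theorem ko_dt29 (x : ℝ) : dt29.KOk x :=
  DT.kOk_node (v := 19 / 40) (by simp only [Cn.rt_v, Cn.ng_v]; norm_num) (kb_dt16 x) (ka_dt17 x) (by ring1) (ko_dt16 x) (ko_dt17 x)
theorem ko_dt30 (x : ℝ) : dt30.KOk x :=
  DT.kOk_node (v := 23 / 50) (by simp only [Cn.rt_v, Cn.ng_v]; norm_num) (kb_dt15 x) (ka_dt29 x) (by ring1) (ko_dt15 x) (ko_dt29 x)
theorem ko_dt31 (x : ℝ) : dt31.KOk x :=
  DT.kOk_node (v := 263 / 601) (by simp only [Cn.rt_v, Cn.ng_v]; norm_num) (kb_dt28 x) (ka_dt30 x) (by ring1) (ko_dt28 x) (ko_dt30 x)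
theorem ko_dt32 (x : ℝ) : dt32.KOk x :=
  DT.kOk_node (v := 7 / 20) (by simp only [Cn.rt_v, Cn.ng_v]; norm_num) (kb_dt27 x) (ka_dt31 x) (by ring1) (ko_dt27 x) (ko_dt31 x)
theorem ko_dt33 (x : ℝ) : dt33.KOk x :=
  DT.kOk_node (v := -1 / 10) (by simp only [Cn.rt_v, Cn.ng_v]; norm_num) (kb_dt24 x) (ka_dt32 x) (by ring1) (ko_dt24 x) (ko_dt32 x)
theorem txl0 {p c x : ℝ} (h1 : -1 / 2 ≤ p) (h2 : p ≤ -12 / 25) : txg.v p c x = dt72.val (fun p x => kcg.v p x) p c x := by
  symm
  refine (DT.val_le (by simp only [Cn.rt_v, Cn.ng_v]; push_cast; linarith)).trans ?_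
  refine (DT.val_le (by simp only [Cn.rt_v, Cn.ng_v]; push_cast; linarith)).trans ?_
  refine (DT.val_le (by simp only [Cn.rt_v, Cn.ng_v]; push_cast; linarith)).trans ?_
  refine (DT.val_le (by simp only [Cn.rt_v, Cn.ng_v]; push_cast; linarith)).trans ?_
  simp only [dt34, DT.val, cloR, sw34, sl34, sv34, txg, txg_4, txg_6, txg_26, txg_29, txg_32, txg_47, txg_50, txg_51, txg_58, txg_73, txg_74, txg_94, txg_95, txg_104, txg_107, txg_123, txg_124, txg_143, txg_144, txg_152, txg_167, txg_168, txg_184, txg_185, txg_193, txg_194, txg_206, txg_207, txg_213, txg_227, txg_228, txg_246, txg_247, txg_254, txg_256, txg_270, txg_271, txg_289, txg_290, txg_297, txg_313, txg_314, txg_333, txg_342, txg_343, txg_353, txg_354, txg_356, txg_381, txg_382, txg_402, txg_403, txg_410, txg_425, txg_426, txg_432, txg_447, txg_448, txg_467, txg_468]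
  rcases eq_or_lt_of_le h1 with h | h1
  · subst h
    ((try push_cast); (repeat first | rw [if_pos (by linarith)] | rw [if_neg (by linarith)] | erw [if_pos (by linarith)] | erw [if_neg (by linarith)]); (try push_cast); (try ring1))
  rcases eq_or_lt_of_le h2 with h | h2
  · subst h
    ((try push_cast); (repeat first | rw [if_pos (by linarith)] | rw [if_neg (by linarith)] | erw [if_pos (by linarith)] | erw [if_neg (by linarith)]); (try push_cast); (try ring1))
  · ((try push_cast); (repeat first | rw [if_pos (by linarith)] | rw [if_neg (by linarith)] | erw [if_pos (by linarith)] | erw [if_neg (by linarith)]); (try push_cast); (try ring1))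
theorem txl1 {p c x : ℝ} (h1 : -12 / 25 < p) (h2 : p ≤ -23 / 50) : txg.v p c x = dt72.val (fun p x => kcg.v p x) p c x := by
  symm
  refine (DT.val_le (by simp only [Cn.rt_v, Cn.ng_v]; push_cast; linarith)).trans ?_
  refine (DT.val_le (by simp only [Cn.rt_v, Cn.ng_v]; push_cast; linarith)).trans ?_
  refine (DT.val_le (by simp only [Cn.rt_v, Cn.ng_v]; push_cast; linarith)).trans ?_
  refine (DT.val_gt (by simp only [Cn.rt_v, Cn.ng_v]; push_cast; linarith)).trans ?_
  simp only [dt35, DT.val, cloR, sw35, sl35, sv35, txg, txg_4, txg_6, txg_26, txg_29, txg_32, txg_47, txg_50, txg_51, txg_58, txg_73, txg_74, txg_94, txg_95, txg_104, txg_107, txg_123, txg_124, txg_143, txg_144, txg_152, txg_167, txg_168, txg_184, txg_185, txg_193, txg_194, txg_206, txg_207, txg_213, txg_227, txg_228, txg_246, txg_247, txg_254, txg_256, txg_270, txg_271, txg_289, txg_290, txg_297, txg_313, txg_314, txg_333, txg_342, txg_343, txg_353, txg_354, txg_356, txg_381, txg_382, txg_402,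 txg_403, txg_410, txg_425, txg_426, txg_432, txg_447, txg_448, txg_467, txg_468]
  rcases eq_or_lt_of_le h2 with h | h2
  · subst h
    ((try push_cast); (repeat first | rw [if_pos (by linarith)] | rw [if_neg (by linarith)] | erw [if_pos (by linarith)] | erw [if_neg (by linarith)]); (try push_cast); (try ring1))
  · ((try push_cast); (repeat first | rw [if_pos (by linarith)] | rw [if_neg (by linarith)] | erw [if_pos (by linarith)] | erw [if_neg (by linarith)]); (try push_cast); (try ring1))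
theorem txl2 {p c x : ℝ} (h1 : -23 / 50 < p) (h2 : p ≤ -11 / 25) : txg.v p c x = dt72.val (fun p x => kcg.v p x) p c x := by
  symm
  refine (DT.val_le (by simp only [Cn.rt_v, Cn.ng_v]; push_cast; linarith)).trans ?_
  refine (DT.val_le (by simp only [Cn.rt_v, Cn.ng_v]; push_cast; linarith)).trans ?_
  refine (DT.val_gt (by simp only [Cn.rt_v, Cn.ng_v]; push_cast; linarith)).trans ?_
  refine (DT.val_le (by simp only [Cn.rt_v, Cn.ng_v]; push_cast; linarith)).trans ?_
  simp only [dt36, DT.val, cloR, sw36, sl36, sv36, txg, txg_4, txg_6, txg_26, txg_29, txg_32, txg_47, txg_50, txg_51, txg_58, txg_73, txg_74, txg_94, txg_95, txg_104, txg_107, txg_123, txg_124, txg_143, txg_144, txg_152, txg_167, txg_168, txg_184, txg_185, txg_193, txg_194, txg_206, txg_207, txg_213, txg_227, txg_228, txg_246, txg_247, txg_254, txg_256, txg_270, txg_271, txg_289, txg_290, txg_297, txg_313, txg_314, txg_333, txg_342, txg_343, txg_353, txg_354, txg_356, txg_381, txg_382, txg_402,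 txg_403, txg_410, txg_425, txg_426, txg_432, txg_447, txg_448, txg_467, txg_468]
  rcases eq_or_lt_of_le h2 with h | h2
  · subst h
    ((try push_cast); (repeat first | rw [if_pos (by linarith)] | rw [if_neg (by linarith)] | erw [if_pos (by linarith)] | erw [if_neg (by linarith)]); (try push_cast); (try ring1))
  · ((try push_cast); (repeat first | rw [if_pos (by linarith)] | rw [if_neg (by linarith)] | erw [if_pos (by linarith)] | erw [if_neg (by linarith)]); (try push_cast); (try ring1))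
theorem txl3 {p c x : ℝ} (h1 : -11 / 25 < p) (h2 : p ≤ -2 / 5) : txg.v p c x = dt72.val (fun p x => kcg.v p x) p c x := by
  symm
  refine (DT.val_le (by simp only [Cn.rt_v, Cn.ng_v]; push_cast; linarith)).trans ?_
  refine (DT.val_le (by simp only [Cn.rt_v, Cn.ng_v]; push_cast; linarith)).trans ?_
  refine (DT.val_gt (by simp only [Cn.rt_v, Cn.ng_v]; push_cast; linarith)).trans ?_
  refine (DT.val_gt (by simp only [Cn.rt_v, Cn.ng_v]; push_cast; linarith)).trans ?_
  refine (DT.val_le (by simp only [Cn.rt_v, Cn.ng_v]; push_cast; linarith)).trans ?_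
  simp only [dt37, DT.val, cloR, sw37, sl37, sv37, txg, txg_4, txg_6, txg_26, txg_29, txg_32, txg_47, txg_50, txg_51, txg_58, txg_73, txg_74, txg_94, txg_95, txg_104, txg_107, txg_123, txg_124, txg_143, txg_144, txg_152, txg_167, txg_168, txg_184, txg_185, txg_193, txg_194, txg_206, txg_207, txg_213, txg_227, txg_228, txg_246, txg_247, txg_254, txg_256, txg_270, txg_271, txg_289, txg_290, txg_297, txg_313, txg_314, txg_333, txg_342, txg_343, txg_353, txg_354, txg_356, txg_381, txg_382, txg_402, txg_403, txg_410, txg_425, txg_426, txg_432, txg_447, txg_448, txg_467, txg_468]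
  rcases eq_or_lt_of_le h2 with h | h2
  · subst h
    ((try push_cast); (repeat first | rw [if_pos (by linarith)] | rw [if_neg (by linarith)] | erw [if_pos (by linarith)] | erw [if_neg (by linarith)]); (try push_cast); (try ring1))
  · ((try push_cast); (repeat first | rw [if_pos (by linarith)] | rw [if_neg (by linarith)] | erw [if_pos (by linarith)] | erw [if_neg (by linarith)]); (try push_cast); (try ring1))
theorem txl4 {p c x : ℝ} (h1 : -2 / 5 < p) (h2 : p ≤ -3 / 10) : txg.v p c x = dt72.val (fun p x => kcg.v p x) p c x := by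
  symm
  refine (DT.val_le (by simp only [Cn.rt_v, Cn.ng_v]; push_cast; linarith)).trans ?_
  refine (DT.val_le (by simp only [Cn.rt_v, Cn.ng_v]; push_cast; linarith)).trans ?_
  refine (DT.val_gt (by simp only [Cn.rt_v, Cn.ng_v]; push_cast; linarith)).trans ?_
  refine (DT.val_gt (by simp only [Cn.rt_v, Cn.ng_v]; push_cast; linarith)).trans ?_
  refine (DT.val_gt (by simp only [Cn.rt_v, Cn.ng_v]; push_cast; linarith)).trans ?_
  simp only [dt38, DT.val, cloR, sw38, sl38, sv38, txg, txg_4, txg_6, txg_26, txg_29, txg_32, txg_47, txg_50, txg_51, txg_58, txg_73, txg_74, txg_94, txg_95, txg_104, txg_107, txg_123, txg_124, txg_143, txg_144, txg_152, txg_167, txg_168, txg_184, txg_185, txg_193, txg_194, txg_206, txg_207, txg_213, txg_227, txg_228, txg_246, txg_247, txg_254, txg_256, txg_270, txg_271, txg_289, txg_290, txg_297, txg_313, txg_314, txg_333, txg_342, txg_343, txg_353, txg_354, txg_356, txg_381, txg_382, txg_402, txg_403, txg_410, txg_425, txg_426,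 txg_432, txg_447, txg_448, txg_467, txg_468]
  rcases eq_or_lt_of_le h2 with h | h2
  · subst h
    ((try push_cast); (repeat first | rw [if_pos (by linarith)] | rw [if_neg (by linarith)] | erw [if_pos (by linarith)] | erw [if_neg (by linarith)]); (try push_cast); (try ring1))
  · ((try push_cast); (repeat first | rw [if_pos (by linarith)] | rw [if_neg (by linarith)] | erw [if_pos (by linarith)] | erw [if_neg (by linarith)]); (try push_cast); (try ring1))
theorem txl5 {p c x : ℝ} (h1 : -3 / 10 < p) (h2 : p ≤ -1 / 5) : txg.v p c x = dt72.val (fun p x => kcg.v p x) p c x := by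
  symm
  refine (DT.val_le (by simp only [Cn.rt_v, Cn.ng_v]; push_cast; linarith)).trans ?_
  refine (DT.val_gt (by simp only [Cn.rt_v, Cn.ng_v]; push_cast; linarith)).trans ?_
  refine (DT.val_le (by simp only [Cn.rt_v, Cn.ng_v]; push_cast; linarith)).trans ?_
  refine (DT.val_le (by simp only [Cn.rt_v, Cn.ng_v]; push_cast; linarith)).trans ?_
  simp only [dt39, DT.val, cloR, sw39, sl39, sv39, txg, txg_4, txg_6, txg_26, txg_29, txg_32, txg_47, txg_50, txg_51, txg_58, txg_73, txg_74, txg_94, txg_95, txg_104, txg_107, txg_123, txg_124, txg_143, txg_144, txg_152, txg_167, txg_168, txg_184, txg_185, txg_193, txg_194, txg_206, txg_207, txg_213, txg_227, txg_228, txg_246, txg_247, txg_254, txg_256, txg_270, txg_271, txg_289, txg_290, txg_297, txg_313, txg_314, txg_333, txg_342, txg_343, txg_353, txg_354, txg_356, txg_381, txg_382, txg_402, txg_403, txg_410, txg_425, txg_426, txg_432, txg_447, txg_448, txg_467, txg_468]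
  rcases eq_or_lt_of_le h2 with h | h2
  · subst h
    ((try push_cast); (repeat first | rw [if_pos (by linarith)] | rw [if_neg (by linarith)] | erw [if_pos (by linarith)] | erw [if_neg (by linarith)]); (try push_cast); (try ring1))
  · ((try push_cast); (repeat first | rw [if_pos (by linarith)] | rw [if_neg (by linarith)] | erw [if_pos (by linarith)] | erw [if_neg (by linarith)]); (try push_cast); (try ring1))
theorem txl6 {p c x : ℝ} (h1 : -1 / 5 < p) (h2 : p ≤ -1 / 10) : txg.v p c x = dt72.val (fun p x => kcg.v p x) p c x := by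
  symm
  refine (DT.val_le (by simp only [Cn.rt_v, Cn.ng_v]; push_cast; linarith)).trans ?_
  refine (DT.val_gt (by simp only [Cn.rt_v, Cn.ng_v]; push_cast; linarith)).trans ?_
  refine (DT.val_le (by simp only [Cn.rt_v, Cn.ng_v]; push_cast; linarith)).trans ?_
  refine (DT.val_gt (by simp only [Cn.rt_v, Cn.ng_v]; push_cast; linarith)).trans ?_
  simp only [dt40, DT.val, cloR, sw40, sl40, sv40, txg, txg_4, txg_6, txg_26, txg_29, txg_32, txg_47, txg_50, txg_51, txg_58, txg_73, txg_74, txg_94, txg_95, txg_104, txg_107, txg_123, txg_124, txg_143, txg_144, txg_152, txg_167, txg_168, txg_184, txg_185, txg_193, txg_194, txg_206, txg_207, txg_213, txg_227, txg_228, txg_246, txg_247, txg_254, txg_256, txg_270, txg_271, txg_289, txg_290, txg_297, txg_313, txg_314, txg_333, txg_342, txg_343, txg_353, txg_354, txg_356, txg_381, txg_382, txg_402, txg_403, txg_410, txg_425, txg_426, txg_432, txg_447, txg_448, txg_467, txg_468]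
  rcases eq_or_lt_of_le h2 with h | h2
  · subst h
    ((try push_cast); (repeat first | rw [if_pos (by linarith)] | rw [if_neg (by linarith)] | erw [if_pos (by linarith)] | erw [if_neg (by linarith)]); (try push_cast); (try ring1))
  · ((try push_cast); (repeat first | rw [if_pos (by linarith)] | rw [if_neg (by linarith)] | erw [if_pos (by linarith)] | erw [if_neg (by linarith)]); (try push_cast); (try ring1))
theorem txl7 {p c x : ℝ} (h1 : -1 / 10 < p) (h2 : p ≤ 1 / 10) : txg.v p c x = dt72.val (fun p x => kcg.v p x) p c x := by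
  symm
  refine (DT.val_le (by simp only [Cn.rt_v, Cn.ng_v]; push_cast; linarith)).trans ?_
  refine (DT.val_gt (by simp only [Cn.rt_v, Cn.ng_v]; push_cast; linarith)).trans ?_
  refine (DT.val_gt (by simp only [Cn.rt_v, Cn.ng_v]; push_cast; linarith)).trans ?_
  refine (DT.val_le (by simp only [Cn.rt_v, Cn.ng_v]; push_cast; linarith)).trans ?_
  simp only [dt41, DT.val, cloR, sw41, sl41, sv41, txg, txg_4, txg_6, txg_26, txg_29, txg_32, txg_47, txg_50, txg_51, txg_58, txg_73, txg_74, txg_94, txg_95, txg_104, txg_107, txg_123, txg_124, txg_143, txg_144, txg_152, txg_167, txg_168, txg_184, txg_185, txg_193, txg_194, txg_206, txg_207, txg_213, txg_227, txg_228, txg_246, txg_247, txg_254, txg_256, txg_270, txg_271, txg_289, txg_290, txg_297, txg_313, txg_314, txg_333, txg_342, txg_343, txg_353, txg_354, txg_356, txg_381, txg_382, txg_402, txg_403, txg_410, txg_425, txg_426, txg_432, txg_447, txg_448, txg_467, txg_468]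
  rcases eq_or_lt_of_le h2 with h | h2
  · subst h
    ((try push_cast); (repeat first | rw [if_pos (by linarith)] | rw [if_neg (by linarith)] | erw [if_pos (by linarith)] | erw [if_neg (by linarith)]); (try push_cast); (try ring1))
  · ((try push_cast); (repeat first | rw [if_pos (by linarith)] | rw [if_neg (by linarith)] | erw [if_pos (by linarith)] | erw [if_neg (by linarith)]); (try push_cast); (try ring1))
theorem txl8 {p c x : ℝ} (h1 : 1 / 10 < p) (h2 : p ≤ 3 / 20) : txg.v p c x = dt72.val (fun p x => kcg.v p x) p c x := by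
  symm
  refine (DT.val_le (by simp only [Cn.rt_v, Cn.ng_v]; push_cast; linarith)).trans ?_
  refine (DT.val_gt (by simp only [Cn.rt_v, Cn.ng_v]; push_cast; linarith)).trans ?_
  refine (DT.val_gt (by simp only [Cn.rt_v, Cn.ng_v]; push_cast; linarith)).trans ?_
  refine (DT.val_gt (by simp only [Cn.rt_v, Cn.ng_v]; push_cast; linarith)).trans ?_
  refine (DT.val_le (by simp only [Cn.rt_v, Cn.ng_v]; push_cast; linarith)).trans ?_
  simp only [dt42, DT.val, cloR, sw42, sl42, sv42, txg, txg_4, txg_6, txg_26, txg_29, txg_32, txg_47, txg_50, txg_51, txg_58, txg_73, txg_74, txg_94, txg_95, txg_104, txg_107, txg_123, txg_124, txg_143, txg_144, txg_152, txg_167, txg_168, txg_184, txg_185, txg_193, txg_194, txg_206, txg_207, txg_213, txg_227, txg_228, txg_246, txg_247, txg_254, txg_256, txg_270, txg_271, txg_289, txg_290, txg_297, txg_313, txg_314, txg_333, txg_342, txg_343, txg_353, txg_354, txg_356, txg_381, txg_382, txg_402, txg_403, txg_410, txg_425, txg_426,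 txg_432, txg_447, txg_448, txg_467, txg_468]
  rcases eq_or_lt_of_le h2 with h | h2
  · subst h
    ((try push_cast); (repeat first | rw [if_pos (by linarith)] | rw [if_neg (by linarith)] | erw [if_pos (by linarith)] | erw [if_neg (by linarith)]); (try push_cast); (try ring1))
  · ((try push_cast); (repeat first | rw [if_pos (by linarith)] | rw [if_neg (by linarith)] | erw [if_pos (by linarith)] | erw [if_neg (by linarith)]); (try push_cast); (try ring1))
theorem txl9 {p c x : ℝ} (h1 : 3 / 20 < p) (h2 : p ≤ 1 / 5) : txg.v p c x = dt72.val (fun p x => kcg.v p x) p c x := by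
  symm
  refine (DT.val_le (by simp only [Cn.rt_v, Cn.ng_v]; push_cast; linarith)).trans ?_
  refine (DT.val_gt (by simp only [Cn.rt_v, Cn.ng_v]; push_cast; linarith)).trans ?_
  refine (DT.val_gt (by simp only [Cn.rt_v, Cn.ng_v]; push_cast; linarith)).trans ?_
  refine (DT.val_gt (by simp only [Cn.rt_v, Cn.ng_v]; push_cast; linarith)).trans ?_
  refine (DT.val_gt (by simp only [Cn.rt_v, Cn.ng_v]; push_cast; linarith)).trans ?_
  simp only [dt43, DT.val, cloR, sw43, sl43, sv43, txg, txg_4, txg_6, txg_26, txg_29, txg_32, txg_47, txg_50, txg_51, txg_58, txg_73, txg_74, txg_94, txg_95, txg_104, txg_107, txg_123, txg_124, txg_143, txg_144, txg_152, txg_167, txg_168, txg_184, txg_185, txg_193, txg_194, txg_206, txg_207, txg_213, txg_227, txg_228, txg_246, txg_247, txg_254, txg_256, txg_270, txg_271, txg_289, txg_290, txg_297, txg_313, txg_314, txg_333, txg_342, txg_343, txg_353, txg_354, txg_356, txg_381, txg_382, txg_402, txg_403, txg_410, txg_425, txg_426,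 txg_432, txg_447, txg_448, txg_467, txg_468]
  rcases eq_or_lt_of_le h2 with h | h2
  · subst h
    ((try push_cast); (repeat first | rw [if_pos (by linarith)] | rw [if_neg (by linarith)] | erw [if_pos (by linarith)] | erw [if_neg (by linarith)]); (try push_cast); (try ring1))
  · ((try push_cast); (repeat first | rw [if_pos (by linarith)] | rw [if_neg (by linarith)] | erw [if_pos (by linarith)] | erw [if_neg (by linarith)]); (try push_cast); (try ring1))
theorem txl10 {p c x : ℝ} (h1 : 1 / 5 < p) (h2 : p ≤ 1 / 4) : txg.v p c x = dt72.val (fun p x => kcg.v p x) p c x := by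
  symm
  refine (DT.val_gt (by simp only [Cn.rt_v, Cn.ng_v]; push_cast; linarith)).trans ?_
  refine (DT.val_le (by simp only [Cn.rt_v, Cn.ng_v]; push_cast; linarith)).trans ?_
  refine (DT.val_le (by simp only [Cn.rt_v, Cn.ng_v]; push_cast; linarith)).trans ?_
  refine (DT.val_le (by simp only [Cn.rt_v, Cn.ng_v]; push_cast; linarith)).trans ?_
  simp only [dt44, DT.val, cloR, sw44, sl44, sv44, txg, txg_4, txg_6, txg_26, txg_29, txg_32, txg_47, txg_50, txg_51, txg_58, txg_73, txg_74, txg_94, txg_95, txg_104, txg_107, txg_123, txg_124, txg_143, txg_144, txg_152, txg_167, txg_168, txg_184, txg_185, txg_193, txg_194, txg_206, txg_207, txg_213, txg_227, txg_228, txg_246, txg_247, txg_254, txg_256, txg_270, txg_271, txg_289, txg_290, txg_297, txg_313, txg_314, txg_333, txg_342, txg_343, txg_353, txg_354, txg_356, txg_381, txg_382, txg_402, txg_403, txg_410, txg_425, txg_426, txg_432, txg_447, txg_448, txg_467, txg_468]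
  rcases eq_or_lt_of_le h2 with h | h2
  · subst h
    ((try push_cast); (repeat first | rw [if_pos (by linarith)] | rw [if_neg (by linarith)] | erw [if_pos (by linarith)] | erw [if_neg (by linarith)]); (try push_cast); (try ring1))
  · ((try push_cast); (repeat first | rw [if_pos (by linarith)] | rw [if_neg (by linarith)] | erw [if_pos (by linarith)] | erw [if_neg (by linarith)]); (try push_cast); (try ring1))
theorem txl11 {p c x : ℝ} (h1 : 1 / 4 < p) (h2 : p ≤ 3 / 10) : txg.v p c x = dt72.val (fun p x => kcg.v p x) p c x := by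
  symm
  refine (DT.val_gt (by simp only [Cn.rt_v, Cn.ng_v]; push_cast; linarith)).trans ?_
  refine (DT.val_le (by simp only [Cn.rt_v, Cn.ng_v]; push_cast; linarith)).trans ?_
  refine (DT.val_le (by simp only [Cn.rt_v, Cn.ng_v]; push_cast; linarith)).trans ?_
  refine (DT.val_gt (by simp only [Cn.rt_v, Cn.ng_v]; push_cast; linarith)).trans ?_
  simp only [dt45, DT.val, cloR, sw45, sl45, sv45, txg, txg_4, txg_6, txg_26, txg_29, txg_32, txg_47, txg_50, txg_51, txg_58, txg_73, txg_74, txg_94, txg_95, txg_104, txg_107, txg_123, txg_124, txg_143, txg_144, txg_152, txg_167, txg_168, txg_184, txg_185, txg_193, txg_194, txg_206, txg_207, txg_213, txg_227, txg_228, txg_246, txg_247, txg_254, txg_256, txg_270, txg_271, txg_289, txg_290, txg_297, txg_313, txg_314, txg_333, txg_342, txg_343, txg_353, txg_354, txg_356, txg_381, txg_382, txg_402, txg_403, txg_410, txg_425, txg_426, txg_432, txg_447, txg_448, txg_467, txg_468]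
  rcases eq_or_lt_of_le h2 with h | h2
  · subst h
    ((try push_cast); (repeat first | rw [if_pos (by linarith)] | rw [if_neg (by linarith)] | erw [if_pos (by linarith)] | erw [if_neg (by linarith)]); (try push_cast); (try ring1))
  · ((try push_cast); (repeat first | rw [if_pos (by linarith)] | rw [if_neg (by linarith)] | erw [if_pos (by linarith)] | erw [if_neg (by linarith)]); (try push_cast); (try ring1))
theorem txl12 {p c x : ℝ} (h1 : 3 / 10 < p) (h2 : p ≤ 7 / 20) : txg.v p c x = dt72.val (fun p x => kcg.v p x) p c x := by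
  symm
  refine (DT.val_gt (by simp only [Cn.rt_v, Cn.ng_v]; push_cast; linarith)).trans ?_
  refine (DT.val_le (by simp only [Cn.rt_v, Cn.ng_v]; push_cast; linarith)).trans ?_
  refine (DT.val_gt (by simp only [Cn.rt_v, Cn.ng_v]; push_cast; linarith)).trans ?_
  refine (DT.val_le (by simp only [Cn.rt_v, Cn.ng_v]; push_cast; linarith)).trans ?_
  simp only [dt46, DT.val, cloR, sw46, sl46, sv46, txg, txg_4, txg_6, txg_26, txg_29, txg_32, txg_47, txg_50, txg_51, txg_58, txg_73, txg_74, txg_94, txg_95, txg_104, txg_107, txg_123, txg_124, txg_143, txg_144, txg_152, txg_167, txg_168, txg_184, txg_185, txg_193, txg_194, txg_206, txg_207, txg_213, txg_227, txg_228, txg_246, txg_247, txg_254, txg_256, txg_270, txg_271, txg_289, txg_290, txg_297, txg_313, txg_314, txg_333, txg_342, txg_343, txg_353, txg_354, txg_356, txg_381, txg_382, txg_402, txg_403, txg_410, txg_425, txg_426, txg_432, txg_447, txg_448, txg_467, txg_468]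
  rcases eq_or_lt_of_le h2 with h | h2
  · subst h
    ((try push_cast); (repeat first | rw [if_pos (by linarith)] | rw [if_neg (by linarith)] | erw [if_pos (by linarith)] | erw [if_neg (by linarith)]); (try push_cast); (try ring1))
  · ((try push_cast); (repeat first | rw [if_pos (by linarith)] | rw [if_neg (by linarith)] | erw [if_pos (by linarith)] | erw [if_neg (by linarith)]); (try push_cast); (try ring1))
theorem txl13 {p c x : ℝ} (h1 : 7 / 20 < p) (h2 : p ≤ 47 / 122) : txg.v p c x = dt72.val (fun p x => kcg.v p x) p c x := by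
  symm
  refine (DT.val_gt (by simp only [Cn.rt_v, Cn.ng_v]; push_cast; linarith)).trans ?_
  refine (DT.val_le (by simp only [Cn.rt_v, Cn.ng_v]; push_cast; linarith)).trans ?_
  refine (DT.val_gt (by simp only [Cn.rt_v, Cn.ng_v]; push_cast; linarith)).trans ?_
  refine (DT.val_gt (by simp only [Cn.rt_v, Cn.ng_v]; push_cast; linarith)).trans ?_
  refine (DT.val_le (by simp only [Cn.rt_v, Cn.ng_v]; push_cast; linarith)).trans ?_
  simp only [dt47, DT.val, cloR, sw47, sw47_2, sl47, sl47_2, sv47, sv47_2, txg, txg_4, txg_6, txg_26, txg_29, txg_32, txg_47, txg_50, txg_51, txg_58, txg_73, txg_74, txg_94, txg_95, txg_104, txg_107, txg_123, txg_124, txg_143, txg_144, txg_152, txg_167, txg_168, txg_184, txg_185, txg_193, txg_194, txg_206, txg_207, txg_213, txg_227, txg_228, txg_246, txg_247, txg_254, txg_256, txg_270, txg_271, txg_289, txg_290, txg_297, txg_313, txg_314, txg_333, txg_342, txg_343, txg_353, txg_354, txg_356, txg_381, txg_382, txg_402, txg_403, txg_410,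 txg_425, txg_426, txg_432, txg_447, txg_448, txg_467, txg_468]
  rcases eq_or_lt_of_le h2 with h | h2
  · subst h
    ((try push_cast); (repeat first | rw [if_pos (by linarith)] | rw [if_neg (by linarith)] | erw [if_pos (by linarith)] | erw [if_neg (by linarith)]); (try push_cast); (try ring1))
  · ((try push_cast); (repeat first | rw [if_pos (by linarith)] | rw [if_neg (by linarith)] | erw [if_pos (by linarith)] | erw [if_neg (by linarith)]); (try push_cast); (try ring1))
theorem txl14 {p c x : ℝ} (h1 : 47 / 122 < p) (h2 : p ≤ 263 / 601) : txg.v p c x = dt72.val (fun p x => kcg.v p x) p c x := by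
  symm
  refine (DT.val_gt (by simp only [Cn.rt_v, Cn.ng_v]; push_cast; linarith)).trans ?_
  refine (DT.val_le (by simp only [Cn.rt_v, Cn.ng_v]; push_cast; linarith)).trans ?_
  refine (DT.val_gt (by simp only [Cn.rt_v, Cn.ng_v]; push_cast; linarith)).trans ?_
  refine (DT.val_gt (by simp only [Cn.rt_v, Cn.ng_v]; push_cast; linarith)).trans ?_
  refine (DT.val_gt (by simp only [Cn.rt_v, Cn.ng_v]; push_cast; linarith)).trans ?_
  simp only [dt48, DT.val, cloR, txg, txg_4, txg_6, txg_26, txg_29, txg_32, txg_47, txg_50, txg_51, txg_58, txg_73, txg_74, txg_94, txg_95, txg_104, txg_107, txg_123, txg_124, txg_143, txg_144, txg_152, txg_167, txg_168, txg_184, txg_185, txg_193, txg_194, txg_206, txg_207, txg_213, txg_227, txg_228, txg_246, txg_247, txg_254, txg_256, txg_270, txg_271, txg_289, txg_290, txg_297, txg_313, txg_314, txg_333, txg_342, txg_343, txg_353, txg_354, txg_356, txg_381, txg_382, txg_402, txg_403, txg_410, txg_425, txg_426, txg_432, txg_447,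 txg_448, txg_467, txg_468]
  rcases eq_or_lt_of_le h2 with h | h2
  · subst h
    ((try push_cast); (repeat first | rw [if_pos (by linarith)] | rw [if_neg (by linarith)] | erw [if_pos (by linarith)] | erw [if_neg (by linarith)]); (try push_cast); (try ring1))
  · ((try push_cast); (repeat first | rw [if_pos (by linarith)] | rw [if_neg (by linarith)] | erw [if_pos (by linarith)] | erw [if_neg (by linarith)]); (try push_cast); (try ring1))
theorem txl15 {p c x : ℝ} (h1 : 263 / 601 < p) (h2 : p ≤ 9 / 20) : txg.v p c x = dt72.val (fun p x => kcg.v p x) p c x := by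
  symm
  refine (DT.val_gt (by simp only [Cn.rt_v, Cn.ng_v]; push_cast; linarith)).trans ?_
  refine (DT.val_gt (by simp only [Cn.rt_v, Cn.ng_v]; push_cast; linarith)).trans ?_
  refine (DT.val_le (by simp only [Cn.rt_v, Cn.ng_v]; push_cast; linarith)).trans ?_
  refine (DT.val_le (by simp only [Cn.rt_v, Cn.ng_v]; push_cast; linarith)).trans ?_
  simp only [dt49, DT.val, cloR, sw49, sw49_2, sl49, sl49_2, sv49, sv49_2, txg, txg_4, txg_6, txg_26, txg_29, txg_32, txg_47, txg_50, txg_51, txg_58, txg_73, txg_74, txg_94, txg_95, txg_104, txg_107, txg_123, txg_124, txg_143, txg_144, txg_152, txg_167, txg_168, txg_184, txg_185, txg_193, txg_194, txg_206, txg_207, txg_213, txg_227, txg_228, txg_246, txg_247, txg_254, txg_256, txg_270, txg_271, txg_289, txg_290, txg_297, txg_313, txg_314, txg_333, txg_342, txg_343, txg_353, txg_354, txg_356, txg_381, txg_382, txg_402, txg_403, txg_410, txg_425, txg_426, txg_432, txg_447, txg_448, txg_467, txg_468]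
  rcases eq_or_lt_of_le h2 with h | h2
  · subst h
    ((try push_cast); (repeat first | rw [if_pos (by linarith)] | rw [if_neg (by linarith)] | erw [if_pos (by linarith)] | erw [if_neg (by linarith)]); (try push_cast); (try ring1))
  · ((try push_cast); (repeat first | rw [if_pos (by linarith)] | rw [if_neg (by linarith)] | erw [if_pos (by linarith)] | erw [if_neg (by linarith)]); (try push_cast); (try ring1))
theorem txl16 {p c x : ℝ} (h1 : 9 / 20 < p) (h2 : p ≤ 23 / 50) : txg.v p c x = dt72.val (fun p x => kcg.v p x) p c x := by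
  symm
  refine (DT.val_gt (by simp only [Cn.rt_v, Cn.ng_v]; push_cast; linarith)).trans ?_
  refine (DT.val_gt (by simp only [Cn.rt_v, Cn.ng_v]; push_cast; linarith)).trans ?_
  refine (DT.val_le (by simp only [Cn.rt_v, Cn.ng_v]; push_cast; linarith)).trans ?_
  refine (DT.val_gt (by simp only [Cn.rt_v, Cn.ng_v]; push_cast; linarith)).trans ?_
  simp only [dt50, DT.val, cloR, sw50, sl50, sv50, txg, txg_4, txg_6, txg_26, txg_29, txg_32, txg_47, txg_50, txg_51, txg_58, txg_73, txg_74, txg_94, txg_95, txg_104, txg_107, txg_123, txg_124, txg_143, txg_144, txg_152, txg_167, txg_168, txg_184, txg_185, txg_193, txg_194, txg_206, txg_207, txg_213, txg_227, txg_228, txg_246, txg_247, txg_254, txg_256, txg_270, txg_271, txg_289, txg_290, txg_297, txg_313, txg_314, txg_333, txg_342, txg_343, txg_353, txg_354, txg_356, txg_381, txg_382, txg_402, txg_403, txg_410, txg_425, txg_426, txg_432, txg_447, txg_448, txg_467, txg_468]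
  rcases eq_or_lt_of_le h2 with h | h2
  · subst h
    ((try push_cast); (repeat first | rw [if_pos (by linarith)] | rw [if_neg (by linarith)] | erw [if_pos (by linarith)] | erw [if_neg (by linarith)]); (try push_cast); (try ring1))
  · ((try push_cast); (repeat first | rw [if_pos (by linarith)] | rw [if_neg (by linarith)] | erw [if_pos (by linarith)] | erw [if_neg (by linarith)]); (try push_cast); (try ring1))
theorem txl17 {p c x : ℝ} (h1 : 23 / 50 < p) (h2 : p ≤ 47 / 100) : txg.v p c x = dt72.val (fun p x => kcg.v p x) p c x := by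
  symm
  refine (DT.val_gt (by simp only [Cn.rt_v, Cn.ng_v]; push_cast; linarith)).trans ?_
  refine (DT.val_gt (by simp only [Cn.rt_v, Cn.ng_v]; push_cast; linarith)).trans ?_
  refine (DT.val_gt (by simp only [Cn.rt_v, Cn.ng_v]; push_cast; linarith)).trans ?_
  refine (DT.val_le (by simp only [Cn.rt_v, Cn.ng_v]; push_cast; linarith)).trans ?_
  simp only [dt51, DT.val, cloR, sw51, sl51, sv51, txg, txg_4, txg_6, txg_26, txg_29, txg_32, txg_47, txg_50, txg_51, txg_58, txg_73, txg_74, txg_94, txg_95, txg_104, txg_107, txg_123, txg_124, txg_143, txg_144, txg_152, txg_167, txg_168, txg_184, txg_185, txg_193, txg_194, txg_206, txg_207, txg_213, txg_227, txg_228, txg_246, txg_247, txg_254, txg_256, txg_270, txg_271, txg_289, txg_290, txg_297, txg_313, txg_314, txg_333, txg_342, txg_343, txg_353, txg_354, txg_356, txg_381, txg_382, txg_402, txg_403, txg_410, txg_425, txg_426, txg_432, txg_447, txg_448, txg_467, txg_468]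
  rcases eq_or_lt_of_le h2 with h | h2
  · subst h
    ((try push_cast); (repeat first | rw [if_pos (by linarith)] | rw [if_neg (by linarith)] | erw [if_pos (by linarith)] | erw [if_neg (by linarith)]); (try push_cast); (try ring1))
  · ((try push_cast); (repeat first | rw [if_pos (by linarith)] | rw [if_neg (by linarith)] | erw [if_pos (by linarith)] | erw [if_neg (by linarith)]); (try push_cast); (try ring1))
theorem txl18 {p c x : ℝ} (h1 : 47 / 100 < p) (h2 : p ≤ 97 / 200) : txg.v p c x = dt72.val (fun p x => kcg.v p x) p c x := by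
  symm
  refine (DT.val_gt (by simp only [Cn.rt_v, Cn.ng_v]; push_cast; linarith)).trans ?_
  refine (DT.val_gt (by simp only [Cn.rt_v, Cn.ng_v]; push_cast; linarith)).trans ?_
  refine (DT.val_gt (by simp only [Cn.rt_v, Cn.ng_v]; push_cast; linarith)).trans ?_
  refine (DT.val_gt (by simp only [Cn.rt_v, Cn.ng_v]; push_cast; linarith)).trans ?_
  refine (DT.val_le (by simp only [Cn.rt_v, Cn.ng_v]; push_cast; linarith)).trans ?_
  simp only [dt52, DT.val, cloR, sw52, sl52, sv52, txg, txg_4, txg_6, txg_26, txg_29, txg_32, txg_47, txg_50, txg_51, txg_58, txg_73, txg_74, txg_94, txg_95, txg_104, txg_107, txg_123, txg_124, txg_143, txg_144, txg_152, txg_167, txg_168, txg_184, txg_185, txg_193, txg_194, txg_206, txg_207, txg_213, txg_227, txg_228, txg_246, txg_247, txg_254, txg_256, txg_270, txg_271, txg_289, txg_290, txg_297, txg_313, txg_314, txg_333, txg_342, txg_343, txg_353, txg_354, txg_356, txg_381, txg_382, txg_402, txg_403, txg_410, txg_425, txg_426,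 txg_432, txg_447, txg_448, txg_467, txg_468]
  rcases eq_or_lt_of_le h2 with h | h2
  · subst h
    ((try push_cast); (repeat first | rw [if_pos (by linarith)] | rw [if_neg (by linarith)] | erw [if_pos (by linarith)] | erw [if_neg (by linarith)]); (try push_cast); (try ring1))
  · ((try push_cast); (repeat first | rw [if_pos (by linarith)] | rw [if_neg (by linarith)] | erw [if_pos (by linarith)] | erw [if_neg (by linarith)]); (try push_cast); (try ring1))
theorem txl19 {p c x : ℝ} (h1 : 97 / 200 < p) (h2 : p ≤ 1 / 2) : txg.v p c x = dt72.val (fun p x => kcg.v p x) p c x := by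
  symm
  refine (DT.val_gt (by simp only [Cn.rt_v, Cn.ng_v]; push_cast; linarith)).trans ?_
  refine (DT.val_gt (by simp only [Cn.rt_v, Cn.ng_v]; push_cast; linarith)).trans ?_
  refine (DT.val_gt (by simp only [Cn.rt_v, Cn.ng_v]; push_cast; linarith)).trans ?_
  refine (DT.val_gt (by simp only [Cn.rt_v, Cn.ng_v]; push_cast; linarith)).trans ?_
  refine (DT.val_gt (by simp only [Cn.rt_v, Cn.ng_v]; push_cast; linarith)).trans ?_
  simp only [dt53, DT.val, cloR, sw53, sl53, sv53, txg, txg_4, txg_6, txg_26, txg_29, txg_32, txg_47, txg_50, txg_51, txg_58, txg_73, txg_74, txg_94, txg_95, txg_104, txg_107, txg_123, txg_124, txg_143, txg_144, txg_152, txg_167, txg_168, txg_184, txg_185, txg_193, txg_194, txg_206, txg_207, txg_213, txg_227, txg_228, txg_246, txg_247, txg_254, txg_256, txg_270, txg_271, txg_289, txg_290, txg_297, txg_313, txg_314, txg_333, txg_342, txg_343, txg_353, txg_354, txg_356, txg_381, txg_382, txg_402, txg_403, txg_410, txg_425, txg_426,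 txg_432, txg_447, txg_448, txg_467, txg_468]
  rcases eq_or_lt_of_le h2 with h | h2
  · subst h
    ((try push_cast); (repeat first | rw [if_pos (by linarith)] | rw [if_neg (by linarith)] | erw [if_pos (by linarith)] | erw [if_neg (by linarith)]); (try push_cast); (try ring1))
  · ((try push_cast); (repeat first | rw [if_pos (by linarith)] | rw [if_neg (by linarith)] | erw [if_pos (by linarith)] | erw [if_neg (by linarith)]); (try push_cast); (try ring1))
theorem txe {x : ℝ} (p c : ℝ) (h : |p| ≤ 1 / 2) : txg.v p c x = dt72.val (fun p x => kcg.v p x) p c x := by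
  obtain ⟨h1, h2⟩ := abs_le.1 h
  rcases le_or_gt p (-12 / 25) with g0 | g1000
  · exact txl0 (by linarith) g0
  rcases le_or_gt p (-23 / 50) with g1 | g1001
  · exact txl1 g1000 g1
  rcases le_or_gt p (-11 / 25) with g2 | g1002
  · exact txl2 g1001 g2
  rcases le_or_gt p (-2 / 5) with g3 | g1003
  · exact txl3 g1002 g3
  rcases le_or_gt p (-3 / 10) with g4 | g1004
  · exact txl4 g1003 g4
  rcases le_or_gt p (-1 / 5) with g5 | g1005
  · exact txl5 g1004 g5
  rcases le_or_gt p (-1 / 10) with g6 | g1006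
  · exact txl6 g1005 g6
  rcases le_or_gt p (1 / 10) with g7 | g1007
  · exact txl7 g1006 g7
  rcases le_or_gt p (3 / 20) with g8 | g1008
  · exact txl8 g1007 g8
  rcases le_or_gt p (1 / 5) with g9 | g1009
  · exact txl9 g1008 g9
  rcases le_or_gt p (1 / 4) with g10 | g1010
  · exact txl10 g1009 g10
  rcases le_or_gt p (3 / 10) with g11 | g1011
  · exact txl11 g1010 g11
  rcases le_or_gt p (7 / 20) with g12 | g1012
  · exact txl12 g1011 g12
  rcases le_or_gt p (47 / 122) with g13 | g1013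
  · exact txl13 g1012 g13
  rcases le_or_gt p (263 / 601) with g14 | g1014
  · exact txl14 g1013 g14
  rcases le_or_gt p (9 / 20) with g15 | g1015
  · exact txl15 g1014 g15
  rcases le_or_gt p (23 / 50) with g16 | g1016
  · exact txl16 g1015 g16
  rcases le_or_gt p (47 / 100) with g17 | g1017
  · exact txl17 g1016 g17
  rcases le_or_gt p (97 / 200) with g18 | g1018
  · exact txl18 g1017 g18
  · exact txl19 g1018 (by linarith)
theorem ta_dt34 (x : ℝ) : dt34.val (fun p x => kcg.v p x) (-1 / 2) (cT (-1 / 2)) x = (0) := by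
  simp only [dt34, DT.val, sw34, sl34, sv34]
  ((try push_cast); ring1)
theorem tb_dt34 (x : ℝ) : dt34.val (fun p x => kcg.v p x) (-12 / 25) (cT (-12 / 25)) x = (12013 / 2500000 + (x - 487 / 520) * (-18217 / 500000)) := by
  simp only [dt34, DT.val, sw34, sl34, sv34]
  ((try push_cast); ring1)
theorem ta_dt35 (x : ℝ) : dt35.val (fun p x => kcg.v p x) (-12 / 25) (cT (-12 / 25)) x = (12013 / 2500000 + (x - 487 / 520) * (-18217 / 500000)) := by
  simp only [dt35, DT.val, sw35, sl35, sv35]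
  ((try push_cast); ring1)
theorem tb_dt35 (x : ℝ) : dt35.val (fun p x => kcg.v p x) (-23 / 50) (cT (-23 / 50)) x = (54421 / 5000000 + (x - 487 / 520) * (-10571 / 125000)) := by
  simp only [dt35, DT.val, sw35, sl35, sv35]
  ((try push_cast); ring1)
theorem ta_dt54 (x : ℝ) : dt54.val (fun p x => kcg.v p x) (-1 / 2) (cT (-1 / 2)) x = (0) :=
  (DT.val_le (by simp only [Cn.rt_v, Cn.ng_v]; norm_num)).trans (ta_dt34 x)
theorem tb_dt54 (x : ℝ) : dt54.val (fun p x => kcg.v p x) (-23 / 50) (cT (-23 / 50)) x = (54421 / 5000000 + (x - 487 / 520) * (-10571 / 125000)) :=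
  (DT.val_gt (by simp only [Cn.rt_v, Cn.ng_v]; norm_num)).trans (tb_dt35 x)
theorem ta_dt36 (x : ℝ) : dt36.val (fun p x => kcg.v p x) (-23 / 50) (cT (-23 / 50)) x = (54421 / 5000000 + (x - 487 / 520) * (-10571 / 125000)) := by
  simp only [dt36, DT.val, sw36, sl36, sv36]
  ((try push_cast); ring1)
theorem tb_dt36 (x : ℝ) : dt36.val (fun p x => kcg.v p x) (-11 / 25) (cT (-11 / 25)) x = (81533 / 5000000 + (x - 487 / 520) * (-33741 / 250000)) := by
  simp only [dt36, DT.val, sw36, sl36, sv36]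
  ((try push_cast); ring1)
theorem ta_dt37 (x : ℝ) : dt37.val (fun p x => kcg.v p x) (-11 / 25) (cT (-11 / 25)) x = (81533 / 5000000 + (x - 487 / 520) * (-33741 / 250000)) := by
  simp only [dt37, DT.val, sw37, sl37, sv37]
  ((try push_cast); ring1)
theorem tb_dt37 (x : ℝ) : dt37.val (fun p x => kcg.v p x) (-2 / 5) (cT (-2 / 5)) x = (122867 / 5000000 + (x - 487 / 520) * (-7271 / 31250)) := by
  simp only [dt37, DT.val, sw37, sl37, sv37]
  ((try push_cast); ring1)
theorem ta_dt38 (x : ℝ) : dt38.val (fun p x => kcg.v p x) (-2 / 5) (cT (-2 / 5)) x = (122867 / 5000000 + (x - 487 / 520) * (-7271 / 31250)) := by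
  simp only [dt38, DT.val, sw38, sl38, sv38]
  ((try push_cast); ring1)
theorem tb_dt38 (x : ℝ) : dt38.val (fun p x => kcg.v p x) (-3 / 10) (cT (-3 / 10)) x = (142521 / 2500000 + (x - 487 / 520) * (-16369 / 125000)) := by
  simp only [dt38, DT.val, sw38, sl38, sv38]
  ((try push_cast); ring1)
theorem ta_dt55 (x : ℝ) : dt55.val (fun p x => kcg.v p x) (-11 / 25) (cT (-11 / 25)) x = (81533 / 5000000 + (x - 487 / 520) * (-33741 / 250000)) :=
  (DT.val_le (by simp only [Cn.rt_v, Cn.ng_v]; norm_num)).trans (ta_dt37 x)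
theorem tb_dt55 (x : ℝ) : dt55.val (fun p x => kcg.v p x) (-3 / 10) (cT (-3 / 10)) x = (142521 / 2500000 + (x - 487 / 520) * (-16369 / 125000)) :=
  (DT.val_gt (by simp only [Cn.rt_v, Cn.ng_v]; norm_num)).trans (tb_dt38 x)
theorem ta_dt56 (x : ℝ) : dt56.val (fun p x => kcg.v p x) (-23 / 50) (cT (-23 / 50)) x = (54421 / 5000000 + (x - 487 / 520) * (-10571 / 125000)) :=
  (DT.val_le (by simp only [Cn.rt_v, Cn.ng_v]; norm_num)).trans (ta_dt36 x)
theorem tb_dt56 (x : ℝ) : dt56.val (fun p x => kcg.v p x) (-3 / 10) (cT (-3 / 10)) x = (142521 / 2500000 + (x - 487 / 520) * (-16369 / 125000)) :=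
  (DT.val_gt (by simp only [Cn.rt_v, Cn.ng_v]; norm_num)).trans (tb_dt55 x)
theorem ta_dt57 (x : ℝ) : dt57.val (fun p x => kcg.v p x) (-1 / 2) (cT (-1 / 2)) x = (0) :=
  (DT.val_le (by simp only [Cn.rt_v, Cn.ng_v]; norm_num)).trans (ta_dt54 x)
theorem tb_dt57 (x : ℝ) : dt57.val (fun p x => kcg.v p x) (-3 / 10) (cT (-3 / 10)) x = (142521 / 2500000 + (x - 487 / 520) * (-16369 / 125000)) :=
  (DT.val_gt (by simp only [Cn.rt_v, Cn.ng_v]; norm_num)).trans (tb_dt56 x)
theorem ta_dt39 (x : ℝ) : dt39.val (fun p x => kcg.v p x) (-3 / 10) (cT (-3 / 10)) x = (142521 / 2500000 + (x - 487 / 520) * (-16369 / 125000)) := by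
  simp only [dt39, DT.val, sw39, sl39, sv39]
  ((try push_cast); ring1)
theorem tb_dt39 (x : ℝ) : dt39.val (fun p x => kcg.v p x) (-1 / 5) (cT (-1 / 5)) x = (564717 / 5000000 + (x - 487 / 520) * (162709 / 500000)) := by
  simp only [dt39, DT.val, sw39, sl39, sv39]
  ((try push_cast); ring1)
theorem ta_dt40 (x : ℝ) : dt40.val (fun p x => kcg.v p x) (-1 / 5) (cT (-1 / 5)) x = (564717 / 5000000 + (x - 487 / 520) * (162709 / 500000)) := by
  simp only [dt40, DT.val, sw40, sl40, sv40]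
  ((try push_cast); ring1)
theorem tb_dt40 (x : ℝ) : dt40.val (fun p x => kcg.v p x) (-1 / 10) (cT (-1 / 10)) x = (417271 / 2500000 + (x - 487 / 520) * (347469 / 500000)) := by
  simp only [dt40, DT.val, sw40, sl40, sv40]
  ((try push_cast); ring1)
theorem ta_dt58 (x : ℝ) : dt58.val (fun p x => kcg.v p x) (-3 / 10) (cT (-3 / 10)) x = (142521 / 2500000 + (x - 487 / 520) * (-16369 / 125000)) :=
  (DT.val_le (by simp only [Cn.rt_v, Cn.ng_v]; norm_num)).trans (ta_dt39 x)
theorem tb_dt58 (x : ℝ) : dt58.val (fun p x => kcg.v p x) (-1 / 10) (cT (-1 / 10)) x = (417271 / 2500000 + (x - 487 / 520) * (347469 / 500000)) :=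
  (DT.val_gt (by simp only [Cn.rt_v, Cn.ng_v]; norm_num)).trans (tb_dt40 x)
theorem ta_dt41 (x : ℝ) : dt41.val (fun p x => kcg.v p x) (-1 / 10) (cT (-1 / 10)) x = (417271 / 2500000 + (x - 487 / 520) * (347469 / 500000)) := by
  simp only [dt41, DT.val, sw41, sl41, sv41]
  ((try push_cast); ring1)
theorem tb_dt41 (x : ℝ) : dt41.val (fun p x => kcg.v p x) (1 / 10) (cT (1 / 10)) x = (243073 / 1250000 + (x - 487 / 520) * (407939 / 500000)) := by
  simp only [dt41, DT.val, sw41, sl41, sv41]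
  ((try push_cast); ring1)
theorem ta_dt42 (x : ℝ) : dt42.val (fun p x => kcg.v p x) (1 / 10) (cT (1 / 10)) x = (243073 / 1250000 + (x - 487 / 520) * (407939 / 500000)) := by
  simp only [dt42, DT.val, sw42, sl42, sv42]
  ((try push_cast); ring1)
theorem tb_dt42 (x : ℝ) : dt42.val (fun p x => kcg.v p x) (3 / 20) (cT (3 / 20)) x = (3701443 / 20000000 + (x - 487 / 520) * (358419 / 500000)) := by
  simp only [dt42, DT.val, sw42, sl42, sv42]
  ((try push_cast); ring1)
theorem ta_dt43 (x : ℝ) : dt43.val (fun p x => kcg.v p x) (3 / 20) (cT (3 / 20)) x = (3701443 / 20000000 + (x - 487 / 520) * (358419 / 500000)) := by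
  simp only [dt43, DT.val, sw43, sl43, sv43]
  ((try push_cast); ring1)
theorem tb_dt43 (x : ℝ) : dt43.val (fun p x => kcg.v p x) (1 / 5) (cT (1 / 5)) x = (3400693 / 20000000 + (x - 487 / 520) * (582373 / 1000000)) := by
  simp only [dt43, DT.val, sw43, sl43, sv43]
  ((try push_cast); ring1)
theorem ta_dt59 (x : ℝ) : dt59.val (fun p x => kcg.v p x) (1 / 10) (cT (1 / 10)) x = (243073 / 1250000 + (x - 487 / 520) * (407939 / 500000)) :=
  (DT.val_le (by simp only [Cn.rt_v, Cn.ng_v]; norm_num)).trans (ta_dt42 x)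
theorem tb_dt59 (x : ℝ) : dt59.val (fun p x => kcg.v p x) (1 / 5) (cT (1 / 5)) x = (3400693 / 20000000 + (x - 487 / 520) * (582373 / 1000000)) :=
  (DT.val_gt (by simp only [Cn.rt_v, Cn.ng_v]; norm_num)).trans (tb_dt43 x)
theorem ta_dt60 (x : ℝ) : dt60.val (fun p x => kcg.v p x) (-1 / 10) (cT (-1 / 10)) x = (417271 / 2500000 + (x - 487 / 520) * (347469 / 500000)) :=
  (DT.val_le (by simp only [Cn.rt_v, Cn.ng_v]; norm_num)).trans (ta_dt41 x)
theorem tb_dt60 (x : ℝ) : dt60.val (fun p x => kcg.v p x) (1 / 5) (cT (1 / 5)) x = (3400693 / 20000000 + (x - 487 / 520) * (582373 / 1000000)) :=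
  (DT.val_gt (by simp only [Cn.rt_v, Cn.ng_v]; norm_num)).trans (tb_dt59 x)
theorem ta_dt61 (x : ℝ) : dt61.val (fun p x => kcg.v p x) (-3 / 10) (cT (-3 / 10)) x = (142521 / 2500000 + (x - 487 / 520) * (-16369 / 125000)) :=
  (DT.val_le (by simp only [Cn.rt_v, Cn.ng_v]; norm_num)).trans (ta_dt58 x)
theorem tb_dt61 (x : ℝ) : dt61.val (fun p x => kcg.v p x) (1 / 5) (cT (1 / 5)) x = (3400693 / 20000000 + (x - 487 / 520) * (582373 / 1000000)) :=
  (DT.val_gt (by simp only [Cn.rt_v, Cn.ng_v]; norm_num)).trans (tb_dt60 x)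
theorem ta_dt62 (x : ℝ) : dt62.val (fun p x => kcg.v p x) (-1 / 2) (cT (-1 / 2)) x = (0) :=
  (DT.val_le (by simp only [Cn.rt_v, Cn.ng_v]; norm_num)).trans (ta_dt57 x)
theorem tb_dt62 (x : ℝ) : dt62.val (fun p x => kcg.v p x) (1 / 5) (cT (1 / 5)) x = (3400693 / 20000000 + (x - 487 / 520) * (582373 / 1000000)) :=
  (DT.val_gt (by simp only [Cn.rt_v, Cn.ng_v]; norm_num)).trans (tb_dt61 x)
theorem ta_dt44 (x : ℝ) : dt44.val (fun p x => kcg.v p x) (1 / 5) (cT (1 / 5)) x = (3400693 / 20000000 + (x - 487 / 520) * (582373 / 1000000)) := by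
  simp only [dt44, DT.val, sw44, sl44, sv44]
  ((try push_cast); ring1)
theorem tb_dt44 (x : ℝ) : dt44.val (fun p x => kcg.v p x) (1 / 4) (cT (1 / 4)) x = (3032443 / 20000000 + (x - 487 / 520) * (429633 / 1000000)) := by
  simp only [dt44, DT.val, sw44, sl44, sv44]
  ((try push_cast); ring1)
theorem ta_dt45 (x : ℝ) : dt45.val (fun p x => kcg.v p x) (1 / 4) (cT (1 / 4)) x = (3032443 / 20000000 + (x - 487 / 520) * (429633 / 1000000)) := by
  simp only [dt45, DT.val, sw45, sl45, sv45]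
  ((try push_cast); ring1)
theorem tb_dt45 (x : ℝ) : dt45.val (fun p x => kcg.v p x) (3 / 10) (cT (3 / 10)) x = (2626343 / 20000000 + (x - 487 / 520) * (127259 / 500000)) := by
  simp only [dt45, DT.val, sw45, sl45, sv45]
  ((try push_cast); ring1)
theorem ta_dt63 (x : ℝ) : dt63.val (fun p x => kcg.v p x) (1 / 5) (cT (1 / 5)) x = (3400693 / 20000000 + (x - 487 / 520) * (582373 / 1000000)) :=
  (DT.val_le (by simp only [Cn.rt_v, Cn.ng_v]; norm_num)).trans (ta_dt44 x)
theorem tb_dt63 (x : ℝ) : dt63.val (fun p x => kcg.v p x) (3 / 10) (cT (3 / 10)) x = (2626343 / 20000000 + (x - 487 / 520) * (127259 / 500000)) :=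
  (DT.val_gt (by simp only [Cn.rt_v, Cn.ng_v]; norm_num)).trans (tb_dt45 x)
theorem ta_dt46 (x : ℝ) : dt46.val (fun p x => kcg.v p x) (3 / 10) (cT (3 / 10)) x = (2626343 / 20000000 + (x - 487 / 520) * (127259 / 500000)) := by
  simp only [dt46, DT.val, sw46, sl46, sv46]
  ((try push_cast); ring1)
theorem tb_dt46 (x : ℝ) : dt46.val (fun p x => kcg.v p x) (7 / 20) (cT (7 / 20)) x = (2142593 / 20000000 + (x - 487 / 520) * (325031 / 2000000)) := by
  simp only [dt46, DT.val, sw46, sl46, sv46]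
  ((try push_cast); ring1)
theorem ta_dt47 (x : ℝ) : dt47.val (fun p x => kcg.v p x) (7 / 20) (cT (7 / 20)) x = (2142593 / 20000000 + (x - 487 / 520) * (325031 / 2000000)) := by
  simp only [dt47, DT.val, sw47, sw47_2, sl47, sl47_2, sv47, sv47_2]
  ((try push_cast); ring1)
theorem tb_dt47 (x : ℝ) : dt47.val (fun p x => kcg.v p x) (47 / 122) (37 / 61) x = (10480734432479 / 120932500000000 + (x - 487 / 520) * (3681095832603 / 24186500000000) + (x - 487 / 520) ^ 2 * (-473627 / 152500000)) := by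
  simp only [dt47, DT.val, sw47, sw47_2, sl47, sl47_2, sv47, sv47_2]
  ((try push_cast); ring1)
theorem ta_dt48 (x : ℝ) : dt48.val (fun p x => kcg.v p x) (47 / 122) (37 / 61) x = (10480734432479 / 120932500000000 + (x - 487 / 520) * (3681095832603 / 24186500000000) + (x - 487 / 520) ^ 2 * (-473627 / 152500000)) := by
  simp only [dt48, DT.val, cloR, kgA]
  ring1
theorem tb_dt48 (x : ℝ) : dt48.val (fun p x => kcg.v p x) (263 / 601) (673 / 1202) x = (4765697875580943 / 93912260000000000 + (x - 487 / 520) * (57161536691287 / 586951625000000) + (x - 487 / 520) ^ 2 * (194713193 / 7512500000)) := by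
  simp only [dt48, DT.val, cloR, kgB]
  ring1
theorem ta_dt64 (x : ℝ) : dt64.val (fun p x => kcg.v p x) (7 / 20) (cT (7 / 20)) x = (2142593 / 20000000 + (x - 487 / 520) * (325031 / 2000000)) :=
  (DT.val_le (by simp only [Cn.rt_v, Cn.ng_v]; norm_num)).trans (ta_dt47 x)
theorem tb_dt64 (x : ℝ) : dt64.val (fun p x => kcg.v p x) (263 / 601) (673 / 1202) x = (4765697875580943 / 93912260000000000 + (x - 487 / 520) * (57161536691287 / 586951625000000) + (x - 487 / 520) ^ 2 * (194713193 / 7512500000)) :=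
  (DT.val_gt (by simp only [Cn.rt_v, Cn.ng_v]; norm_num)).trans (tb_dt48 x)
theorem ta_dt65 (x : ℝ) : dt65.val (fun p x => kcg.v p x) (3 / 10) (cT (3 / 10)) x = (2626343 / 20000000 + (x - 487 / 520) * (127259 / 500000)) :=
  (DT.val_le (by simp only [Cn.rt_v, Cn.ng_v]; norm_num)).trans (ta_dt46 x)
theorem tb_dt65 (x : ℝ) : dt65.val (fun p x => kcg.v p x) (263 / 601) (673 / 1202) x = (4765697875580943 / 93912260000000000 + (x - 487 / 520) * (57161536691287 / 586951625000000) + (x - 487 / 520) ^ 2 * (194713193 / 7512500000)) :=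
  (DT.val_gt (by simp only [Cn.rt_v, Cn.ng_v]; norm_num)).trans (tb_dt64 x)
theorem ta_dt66 (x : ℝ) : dt66.val (fun p x => kcg.v p x) (1 / 5) (cT (1 / 5)) x = (3400693 / 20000000 + (x - 487 / 520) * (582373 / 1000000)) :=
  (DT.val_le (by simp only [Cn.rt_v, Cn.ng_v]; norm_num)).trans (ta_dt63 x)
theorem tb_dt66 (x : ℝ) : dt66.val (fun p x => kcg.v p x) (263 / 601) (673 / 1202) x = (4765697875580943 / 93912260000000000 + (x - 487 / 520) * (57161536691287 / 586951625000000) + (x - 487 / 520) ^ 2 * (194713193 / 7512500000)) :=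
  (DT.val_gt (by simp only [Cn.rt_v, Cn.ng_v]; norm_num)).trans (tb_dt65 x)
theorem ta_dt49 (x : ℝ) : dt49.val (fun p x => kcg.v p x) (263 / 601) (673 / 1202) x = (4765697875580943 / 93912260000000000 + (x - 487 / 520) * (57161536691287 / 586951625000000) + (x - 487 / 520) ^ 2 * (194713193 / 7512500000)) := by
  simp only [dt49, DT.val, sw49, sw49_2, sl49, sl49_2, sv49, sv49_2]
  ((try push_cast); ring1)
theorem tb_dt49 (x : ℝ) : dt49.val (fun p x => kcg.v p x) (9 / 20) (cT (9 / 20)) x = (1028971 / 25000000 + (x - 487 / 520) * (799691 / 10000000)) := by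
  simp only [dt49, DT.val, sw49, sw49_2, sl49, sl49_2, sv49, sv49_2]
  ((try push_cast); ring1)
theorem ta_dt50 (x : ℝ) : dt50.val (fun p x => kcg.v p x) (9 / 20) (cT (9 / 20)) x = (1028971 / 25000000 + (x - 487 / 520) * (799691 / 10000000)) := by
  simp only [dt50, DT.val, sw50, sl50, sv50]
  ((try push_cast); ring1)
theorem tb_dt50 (x : ℝ) : dt50.val (fun p x => kcg.v p x) (23 / 50) (cT (23 / 50)) x = (1649097 / 50000000 + (x - 487 / 520) * (167319 / 2500000)) := by
  simp only [dt50, DT.val, sw50, sl50, sv50]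
  ((try push_cast); ring1)
theorem ta_dt67 (x : ℝ) : dt67.val (fun p x => kcg.v p x) (263 / 601) (673 / 1202) x = (4765697875580943 / 93912260000000000 + (x - 487 / 520) * (57161536691287 / 586951625000000) + (x - 487 / 520) ^ 2 * (194713193 / 7512500000)) :=
  (DT.val_le (by simp only [Cn.rt_v, Cn.ng_v]; norm_num)).trans (ta_dt49 x)
theorem tb_dt67 (x : ℝ) : dt67.val (fun p x => kcg.v p x) (23 / 50) (cT (23 / 50)) x = (1649097 / 50000000 + (x - 487 / 520) * (167319 / 2500000)) :=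
  (DT.val_gt (by simp only [Cn.rt_v, Cn.ng_v]; norm_num)).trans (tb_dt50 x)
theorem ta_dt51 (x : ℝ) : dt51.val (fun p x => kcg.v p x) (23 / 50) (cT (23 / 50)) x = (1649097 / 50000000 + (x - 487 / 520) * (167319 / 2500000)) := by
  simp only [dt51, DT.val, sw51, sl51, sv51]
  ((try push_cast); ring1)
theorem tb_dt51 (x : ℝ) : dt51.val (fun p x => kcg.v p x) (47 / 100) (cT (47 / 100)) x = (2467339 / 100000000 + (x - 487 / 520) * (268483 / 5000000)) := by
  simp only [dt51, DT.val, sw51, sl51, sv51]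
  ((try push_cast); ring1)
theorem ta_dt52 (x : ℝ) : dt52.val (fun p x => kcg.v p x) (47 / 100) (cT (47 / 100)) x = (2467339 / 100000000 + (x - 487 / 520) * (268483 / 5000000)) := by
  simp only [dt52, DT.val, sw52, sl52, sv52]
  ((try push_cast); ring1)
theorem tb_dt52 (x : ℝ) : dt52.val (fun p x => kcg.v p x) (97 / 200) (cT (97 / 200)) x = (1229141 / 100000000 + (x - 487 / 520) * (2281 / 78125)) := by
  simp only [dt52, DT.val, sw52, sl52, sv52]
  ((try push_cast); ring1)
theorem ta_dt53 (x : ℝ) : dt53.val (fun p x => kcg.v p x) (97 / 200) (cT (97 / 200)) x = (1229141 / 100000000 + (x - 487 / 520) * (2281 / 78125)) := by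
  simp only [dt53, DT.val, sw53, sl53, sv53]
  ((try push_cast); ring1)
theorem tb_dt53 (x : ℝ) : dt53.val (fun p x => kcg.v p x) (1 / 2) (cT (1 / 2)) x = (0) := by
  simp only [dt53, DT.val, sw53, sl53, sv53]
  ((try push_cast); ring1)
theorem ta_dt68 (x : ℝ) : dt68.val (fun p x => kcg.v p x) (47 / 100) (cT (47 / 100)) x = (2467339 / 100000000 + (x - 487 / 520) * (268483 / 5000000)) :=
  (DT.val_le (by simp only [Cn.rt_v, Cn.ng_v]; norm_num)).trans (ta_dt52 x)
theorem tb_dt68 (x : ℝ) : dt68.val (fun p x => kcg.v p x) (1 / 2) (cT (1 / 2)) x = (0) :=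
  (DT.val_gt (by simp only [Cn.rt_v, Cn.ng_v]; norm_num)).trans (tb_dt53 x)
theorem ta_dt69 (x : ℝ) : dt69.val (fun p x => kcg.v p x) (23 / 50) (cT (23 / 50)) x = (1649097 / 50000000 + (x - 487 / 520) * (167319 / 2500000)) :=
  (DT.val_le (by simp only [Cn.rt_v, Cn.ng_v]; norm_num)).trans (ta_dt51 x)
theorem tb_dt69 (x : ℝ) : dt69.val (fun p x => kcg.v p x) (1 / 2) (cT (1 / 2)) x = (0) :=
  (DT.val_gt (by simp only [Cn.rt_v, Cn.ng_v]; norm_num)).trans (tb_dt68 x)
theorem ta_dt70 (x : ℝ) : dt70.val (fun p x => kcg.v p x) (263 / 601) (673 / 1202) x = (4765697875580943 / 93912260000000000 + (x - 487 / 520) * (57161536691287 / 586951625000000) + (x - 487 / 520) ^ 2 * (194713193 / 7512500000)) :=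
  (DT.val_le (by simp only [Cn.rt_v, Cn.ng_v]; norm_num)).trans (ta_dt67 x)
theorem tb_dt70 (x : ℝ) : dt70.val (fun p x => kcg.v p x) (1 / 2) (cT (1 / 2)) x = (0) :=
  (DT.val_gt (by simp only [Cn.rt_v, Cn.ng_v]; norm_num)).trans (tb_dt69 x)
theorem ta_dt71 (x : ℝ) : dt71.val (fun p x => kcg.v p x) (1 / 5) (cT (1 / 5)) x = (3400693 / 20000000 + (x - 487 / 520) * (582373 / 1000000)) :=
  (DT.val_le (by simp only [Cn.rt_v, Cn.ng_v]; norm_num)).trans (ta_dt66 x)
theorem tb_dt71 (x : ℝ) : dt71.val (fun p x => kcg.v p x) (1 / 2) (cT (1 / 2)) x = (0) :=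
  (DT.val_gt (by simp only [Cn.rt_v, Cn.ng_v]; norm_num)).trans (tb_dt70 x)
theorem ta_dt72 (x : ℝ) : dt72.val (fun p x => kcg.v p x) (-1 / 2) (cT (-1 / 2)) x = (0) :=
  (DT.val_le (by simp only [Cn.rt_v, Cn.ng_v]; norm_num)).trans (ta_dt62 x)
theorem tb_dt72 (x : ℝ) : dt72.val (fun p x => kcg.v p x) (1 / 2) (cT (1 / 2)) x = (0) :=
  (DT.val_gt (by simp only [Cn.rt_v, Cn.ng_v]; norm_num)).trans (tb_dt71 x)
theorem to_dt34 (x : ℝ) : dt34.Ok (fun p x => kcg.v p x) x := trivial
theorem to_dt35 (x : ℝ) : dt35.Ok (fun p x => kcg.v p x) x := trivial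
theorem to_dt54 (x : ℝ) : dt54.Ok (fun p x => kcg.v p x) x :=
  DT.ok_node (v := -12 / 25) (by simp only [Cn.rt_v, Cn.ng_v]; norm_num) (by rw [abs_le]; constructor <;> norm_num) rfl (tb_dt34 x) (ta_dt35 x) (by ring1) (to_dt34 x) (to_dt35 x)
theorem to_dt36 (x : ℝ) : dt36.Ok (fun p x => kcg.v p x) x := trivial
theorem to_dt37 (x : ℝ) : dt37.Ok (fun p x => kcg.v p x) x := trivial
theorem to_dt38 (x : ℝ) : dt38.Ok (fun p x => kcg.v p x) x := trivial
theorem to_dt55 (x : ℝ) : dt55.Ok (fun p x => kcg.v p x) x :=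
  DT.ok_node (v := -2 / 5) (by simp only [Cn.rt_v, Cn.ng_v]; norm_num) (by rw [abs_le]; constructor <;> norm_num) rfl (tb_dt37 x) (ta_dt38 x) (by ring1) (to_dt37 x) (to_dt38 x)
theorem to_dt56 (x : ℝ) : dt56.Ok (fun p x => kcg.v p x) x :=
  DT.ok_node (v := -11 / 25) (by simp only [Cn.rt_v, Cn.ng_v]; norm_num) (by rw [abs_le]; constructor <;> norm_num) rfl (tb_dt36 x) (ta_dt55 x) (by ring1) (to_dt36 x) (to_dt55 x)
theorem to_dt57 (x : ℝ) : dt57.Ok (fun p x => kcg.v p x) x :=
  DT.ok_node (v := -23 / 50) (by simp only [Cn.rt_v, Cn.ng_v]; norm_num) (by rw [abs_le]; constructor <;> norm_num) rfl (tb_dt54 x) (ta_dt56 x) (by ring1) (to_dt54 x) (to_dt56 x)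
theorem to_dt39 (x : ℝ) : dt39.Ok (fun p x => kcg.v p x) x := trivial
theorem to_dt40 (x : ℝ) : dt40.Ok (fun p x => kcg.v p x) x := trivial
theorem to_dt58 (x : ℝ) : dt58.Ok (fun p x => kcg.v p x) x :=
  DT.ok_node (v := -1 / 5) (by simp only [Cn.rt_v, Cn.ng_v]; norm_num) (by rw [abs_le]; constructor <;> norm_num) rfl (tb_dt39 x) (ta_dt40 x) (by ring1) (to_dt39 x) (to_dt40 x)
theorem to_dt41 (x : ℝ) : dt41.Ok (fun p x => kcg.v p x) x := trivial
theorem to_dt42 (x : ℝ) : dt42.Ok (fun p x => kcg.v p x) x := trivial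
theorem to_dt43 (x : ℝ) : dt43.Ok (fun p x => kcg.v p x) x := trivial
theorem to_dt59 (x : ℝ) : dt59.Ok (fun p x => kcg.v p x) x :=
  DT.ok_node (v := 3 / 20) (by simp only [Cn.rt_v, Cn.ng_v]; norm_num) (by rw [abs_le]; constructor <;> norm_num) rfl (tb_dt42 x) (ta_dt43 x) (by ring1) (to_dt42 x) (to_dt43 x)
theorem to_dt60 (x : ℝ) : dt60.Ok (fun p x => kcg.v p x) x :=
  DT.ok_node (v := 1 / 10) (by simp only [Cn.rt_v, Cn.ng_v]; norm_num) (by rw [abs_le]; constructor <;> norm_num) rfl (tb_dt41 x) (ta_dt59 x) (by ring1) (to_dt41 x) (to_dt59 x)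
theorem to_dt61 (x : ℝ) : dt61.Ok (fun p x => kcg.v p x) x :=
  DT.ok_node (v := -1 / 10) (by simp only [Cn.rt_v, Cn.ng_v]; norm_num) (by rw [abs_le]; constructor <;> norm_num) rfl (tb_dt58 x) (ta_dt60 x) (by ring1) (to_dt58 x) (to_dt60 x)
theorem to_dt62 (x : ℝ) : dt62.Ok (fun p x => kcg.v p x) x :=
  DT.ok_node (v := -3 / 10) (by simp only [Cn.rt_v, Cn.ng_v]; norm_num) (by rw [abs_le]; constructor <;> norm_num) rfl (tb_dt57 x) (ta_dt61 x) (by ring1) (to_dt57 x) (to_dt61 x)
theorem to_dt44 (x : ℝ) : dt44.Ok (fun p x => kcg.v p x) x := trivial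
theorem to_dt45 (x : ℝ) : dt45.Ok (fun p x => kcg.v p x) x := trivial
theorem to_dt63 (x : ℝ) : dt63.Ok (fun p x => kcg.v p x) x :=
  DT.ok_node (v := 1 / 4) (by simp only [Cn.rt_v, Cn.ng_v]; norm_num) (by rw [abs_le]; constructor <;> norm_num) rfl (tb_dt44 x) (ta_dt45 x) (by ring1) (to_dt44 x) (to_dt45 x)
theorem to_dt46 (x : ℝ) : dt46.Ok (fun p x => kcg.v p x) x := trivial
theorem to_dt47 (x : ℝ) : dt47.Ok (fun p x => kcg.v p x) x := trivial
theorem to_dt48 (x : ℝ) : dt48.Ok (fun p x => kcg.v p x) x := trivial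
theorem to_dt64 (x : ℝ) : dt64.Ok (fun p x => kcg.v p x) x :=
  DT.ok_node (v := 47 / 122) (by simp only [Cn.rt_v, Cn.ng_v]; norm_num) (by rw [abs_le]; constructor <;> norm_num) ctA (tb_dt47 x) (ta_dt48 x) (by ring1) (to_dt47 x) (to_dt48 x)
theorem to_dt65 (x : ℝ) : dt65.Ok (fun p x => kcg.v p x) x :=
  DT.ok_node (v := 7 / 20) (by simp only [Cn.rt_v, Cn.ng_v]; norm_num) (by rw [abs_le]; constructor <;> norm_num) rfl (tb_dt46 x) (ta_dt64 x) (by ring1) (to_dt46 x) (to_dt64 x)
theorem to_dt66 (x : ℝ) : dt66.Ok (fun p x => kcg.v p x) x :=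
  DT.ok_node (v := 3 / 10) (by simp only [Cn.rt_v, Cn.ng_v]; norm_num) (by rw [abs_le]; constructor <;> norm_num) rfl (tb_dt63 x) (ta_dt65 x) (by ring1) (to_dt63 x) (to_dt65 x)
theorem to_dt49 (x : ℝ) : dt49.Ok (fun p x => kcg.v p x) x := trivial
theorem to_dt50 (x : ℝ) : dt50.Ok (fun p x => kcg.v p x) x := trivial
theorem to_dt67 (x : ℝ) : dt67.Ok (fun p x => kcg.v p x) x :=
  DT.ok_node (v := 9 / 20) (by simp only [Cn.rt_v, Cn.ng_v]; norm_num) (by rw [abs_le]; constructor <;> norm_num) rfl (tb_dt49 x) (ta_dt50 x) (by ring1) (to_dt49 x) (to_dt50 x)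
theorem to_dt51 (x : ℝ) : dt51.Ok (fun p x => kcg.v p x) x := trivial
theorem to_dt52 (x : ℝ) : dt52.Ok (fun p x => kcg.v p x) x := trivial
theorem to_dt53 (x : ℝ) : dt53.Ok (fun p x => kcg.v p x) x := trivial
theorem to_dt68 (x : ℝ) : dt68.Ok (fun p x => kcg.v p x) x :=
  DT.ok_node (v := 97 / 200) (by simp only [Cn.rt_v, Cn.ng_v]; norm_num) (by rw [abs_le]; constructor <;> norm_num) rfl (tb_dt52 x) (ta_dt53 x) (by ring1) (to_dt52 x) (to_dt53 x)
theorem to_dt69 (x : ℝ) : dt69.Ok (fun p x => kcg.v p x) x :=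
  DT.ok_node (v := 47 / 100) (by simp only [Cn.rt_v, Cn.ng_v]; norm_num) (by rw [abs_le]; constructor <;> norm_num) rfl (tb_dt51 x) (ta_dt68 x) (by ring1) (to_dt51 x) (to_dt68 x)
theorem to_dt70 (x : ℝ) : dt70.Ok (fun p x => kcg.v p x) x :=
  DT.ok_node (v := 23 / 50) (by simp only [Cn.rt_v, Cn.ng_v]; norm_num) (by rw [abs_le]; constructor <;> norm_num) rfl (tb_dt67 x) (ta_dt69 x) (by ring1) (to_dt67 x) (to_dt69 x)
theorem to_dt71 (x : ℝ) : dt71.Ok (fun p x => kcg.v p x) x :=
  DT.ok_node (v := 263 / 601) (by simp only [Cn.rt_v, Cn.ng_v]; norm_num) (by rw [abs_le]; constructor <;> norm_num) ctB (tb_dt66 x) (ta_dt70 x) (by ring1) (to_dt66 x) (to_dt70 x)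
theorem to_dt72 (x : ℝ) : dt72.Ok (fun p x => kcg.v p x) x :=
  DT.ok_node (v := 1 / 5) (by simp only [Cn.rt_v, Cn.ng_v]; norm_num) (by rw [abs_le]; constructor <;> norm_num) rfl (tb_dt62 x) (ta_dt71 x) (by ring1) (to_dt62 x) (to_dt71 x)
theorem dok (x : ℝ) : dd.Ok x := ⟨ko_dt33 x, fun p h => kfe h, to_dt72 x⟩
theorem K0_ (x : ℝ) : ∀ q y, OnC (0 : Fin 6) q y → TightK (tyO q) q (fun p => dd.kf.v p x) (c1n y) y (tK 0 q y x) := by
  refine K0_of (R := fun q y => tK 0 q y x) (kc := fun p => kcg.v p x) ?_ ?_ ?_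
  · intro y h
    show tK 0 0 y x = _
    ·
      rw [← (atB00 h).K]
      show kf0q0.v y x = _
      simp only [kf0q0, kf0q0_9, kf0q0_12, c1g_v]
      ((try push_cast); (try simp only [mul_inv]); (try ring_nf))
  · intro y h
    show tK 0 1 y x = _
    ·
      rw [← (atB01 h).K]
      show kf0q1.v y x = _
      simp only [kf0q1, kf0q1_10, c1g_v]
      ((try push_cast); (try simp only [mul_inv]); (try ring_nf))
  · intro y h
    show tK 0 2 y x = _
    ·
      have ey := yag_v h.1.nonneg (h.2 rfl)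
      rw [← (atB02 h).K]
      show kfc02.v (c1n y) x = _
      simp only [kfc02, c1g_v, ey]
      ((try push_cast); (try simp only [mul_inv]); (try ring_nf))
theorem L0_ (x : ℝ) : ∀ q y, OnC (0 : Fin 6) q y → TightL (tyO q) (fun p c => dd.TX.val dd.kf.v p c x) (c1n y) y (tL 0 q y x) := by
  refine L0_of (R := fun q y => tL 0 q y x) (tx := fun p c => txg.v p c x) txe ?_ ?_ ?_
  · intro y h
    show tL 0 0 y x = _
    ·
      rw [← (atB00 h).L]
      show l0q0.v y x = _
      simp only [l0q0, c1g_v]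
      ((try push_cast); (try simp only [mul_inv]); (try ring_nf))
  · intro y h
    show tL 0 1 y x = _
    ·
      rw [← (atB01 h).L]
      show l0q1.v y x = _
      simp only [l0q1, c1g_v]
      ((try push_cast); (try simp only [mul_inv]); (try ring_nf))
  · intro y h
    show tL 0 2 y x = _
    ·
      have ey := yag_v h.1.nonneg (h.2 rfl)
      rw [← (atB02 h).L]
      show lc02.v (c1n y) x = _
      simp only [lc02, lc02_7, lc02_8, c1g_v, ey]
      ((try push_cast); (try simp only [mul_inv]); (try ring_nf))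
theorem Kn_ (x : ℝ) : ∀ q y, InQ q y → TightK (tyN q) q (fun p => dd.kf.v p x) (c3n y) y (tK (Fin.last 5) q y x) := by
  refine Kn_of (R := fun q y => tK 5 q y x) (kc := fun p => kcg.v p x) ?_ ?_ ?_ ?_
  · intro y h
    show tK 5 0 y x = _
    ·
      rw [← (atB50 (onc h (by decide))).K]
      show kf5q0.v y x = _
      simp only [kf5q0, c3g_v]
      ((try push_cast); (try simp only [mul_inv]); (try ring_nf))
  · intro y h
    show tK 5 1 y x = _
    ·
      rw [← (atB51 (onc h (by decide))).K]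
      show kf5q1.v y x = _
      simp only [kf5q1, c3g_v]
      ((try push_cast); (try simp only [mul_inv]); (try ring_nf))
  · intro y h
    show tK 5 2 y x = _
    ·
      rw [← (atB52 (onc h (by decide))).K]
      show kf5q2.v y x = _
      simp only [kf5q2, c3g_v]
      ((try push_cast); (try simp only [mul_inv]); (try ring_nf))
  · intro y h
    show tK 5 3 y x = _
    ·
      have ey := ycg_v h.nonneg h.le_two
      rw [← (atB53 (onc h (by decide))).K]
      show kfc53.v (c3n y) x = _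
      simp only [kfc53, c3g_v, ey]
      ((try push_cast); (try simp only [mul_inv]); (try ring_nf))
theorem Ln_ (x : ℝ) : ∀ q y, InQ q y → TightL (tyN q) (fun p c => dd.TX.val dd.kf.v p c x) (c3n y) y (tL (Fin.last 5) q y x) := by
  refine Ln_of (R := fun q y => tL 5 q y x) (tx := fun p c => txg.v p c x) txe ?_ ?_ ?_ ?_
  · intro y h
    show tL 5 0 y x = _
    ·
      rw [← (atB50 (onc h (by decide))).L]
      show l5q0.v y x = _
      simp only [l5q0, l5q0_6, l5q0_7, l5q0_8, c3g_v]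
      ((try push_cast); (try simp only [mul_inv]); (try ring_nf))
  · intro y h
    show tL 5 1 y x = _
    ·
      rw [← (atB51 (onc h (by decide))).L]
      show l5q1.v y x = _
      simp only [l5q1, l5q1_7, l5q1_8, l5q1_9, c3g_v]
      ((try push_cast); (try simp only [mul_inv]); (try ring_nf))
  · intro y h
    show tL 5 2 y x = _
    ·
      rw [← (atB52 (onc h (by decide))).L]
      show l5q2.v y x = _
      simp only [l5q2, l5q2_7, l5q2_8, l5q2_9, l5q2_12, l5q2_14, c3g_v]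
      ((try push_cast); (try simp only [mul_inv]); (try ring_nf))
  · intro y h
    show tL 5 3 y x = _
    ·
      have ey := ycg_v h.nonneg h.le_two
      rw [← (atB53 (onc h (by decide))).L]
      show lc53.v (c3n y) x = _
      simp only [lc53, lc53_7, lc53_8, lc53_9, lc53_12, lc53_14, c3g_v, ey]
      ((try push_cast); (try simp only [mul_inv]); (try ring_nf))
theorem f0_ : ∀ q y, InQ q y → (ff q).f.v y = crv PP 1 q y
  | 0, y, _ => ecv1q0.symm
  | 1, y, _ => ecv1q1.symm
  | 2, y, _ => ecv1q2.symm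
  | 3, y, h => (ecv1q3 h.1).symm
theorem fn_ : ∀ q y, InQ q y → (fl q).f.v y = crv PP 4 q y
  | 0, y, _ => ecv4q0.symm
  | 1, y, _ => ecv4q1.symm
  | 2, y, _ => ecv4q2.symm
  | 3, y, h => (ecv4q3 h.1).symm
theorem yK00 {y x : ℝ} (h : OnC (0 : Fin 6) 0 y) : tK 0 0 y x = kf0q0.v y x := (atB00 h).K.symm
theorem yK10 {y x : ℝ} (h : InQ 0 y) : tK 1 0 y x = kf1q0.v y x := (atB10 (onc h (by decide))).K.symm
theorem yK01 {y x : ℝ} (h : OnC (0 : Fin 6) 1 y) : tK 0 1 y x = kf0q1.v y x := (atB01 h).K.symm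
theorem yK11 {y x : ℝ} (h : InQ 1 y) : tK 1 1 y x = kf1q1.v y x := (atB11 (onc h (by decide))).K.symm
theorem yK02 {y x : ℝ} (h : OnC (0 : Fin 6) 2 y) : tK 0 2 y x = kf0q2.v y x := by
  rw [← (atB02 h).K]
  show kfc02.v (c1n y) x = _
  have ey := yag_v h.1.nonneg (h.2 rfl)
  simp only [kfc02, kf0q2, ey, c1g_v, c3g_v, swg_v]
  ((try push_cast); (try ring_nf))
theorem yK12 {y x : ℝ} (h : InQ 2 y) : tK 1 2 y x = kf1q2.v y x := (atB12 (onc h (by decide))).K.symm
theorem yK50 {y x : ℝ} (h : InQ 0 y) : tK 5 0 y x = kf5q0.v y x := (atB50 (onc h (by decide))).K.symm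
theorem yK40 {y x : ℝ} (h : InQ 0 y) : tK 4 0 y x = kf4q0.v y x := (atB40 (onc h (by decide))).K.symm
theorem yK51 {y x : ℝ} (h : InQ 1 y) : tK 5 1 y x = kf5q1.v y x := (atB51 (onc h (by decide))).K.symm
theorem yK41 {y x : ℝ} (h : InQ 1 y) : tK 4 1 y x = kf4q1.v y x := (atB41 (onc h (by decide))).K.symm
theorem yK52 {y x : ℝ} (h : InQ 2 y) : tK 5 2 y x = kf5q2.v y x := (atB52 (onc h (by decide))).K.symm
theorem yK42 {y x : ℝ} (h : InQ 2 y) : tK 4 2 y x = kf4q2.v y x := (atB42 (onc h (by decide))).K.symm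
theorem yK53 {y x : ℝ} (h : InQ 3 y) : tK 5 3 y x = kf5q3.v y x := by
  rw [← (atB53 (onc h (by decide))).K]
  show kfc53.v (c3n y) x = _
  have ey := ycg_v h.nonneg h.le_two
  simp only [kfc53, kf5q3, ey, c1g_v, c3g_v, swg_v]
  ((try push_cast); (try ring_nf))
theorem yK43 {y x : ℝ} (h : InQ 3 y) : tK 4 3 y x = kf4q3.v y x := by
  rw [← (atB43 (onc h (by decide))).K]
  show kfc43.v (c3n y) x = _
  have ey := ycg_v h.nonneg h.le_two
  simp only [kfc43, kfc43_11, kfc43_29, kf4q3, kf4q3_4, kf4q3_23, cv4r, ey, c1g_v, c3g_v, swg_v]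
  ((try push_cast); (try ring_nf))
theorem yL00 {y x : ℝ} (h : OnC (0 : Fin 6) 0 y) : tL 0 0 y x = l0q0.v y x := (atB00 h).L.symm
theorem yL10 {y x : ℝ} (h : InQ 0 y) : tL 1 0 y x = l1q0.v y x := (atB10 (onc h (by decide))).L.symm
theorem yL01 {y x : ℝ} (h : OnC (0 : Fin 6) 1 y) : tL 0 1 y x = l0q1.v y x := (atB01 h).L.symm
theorem yL11 {y x : ℝ} (h : InQ 1 y) : tL 1 1 y x = l1q1.v y x := (atB11 (onc h (by decide))).L.symm
theorem yL02 {y x : ℝ} (h : OnC (0 : Fin 6) 2 y) : tL 0 2 y x = l0q2.v y x := by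
  rw [← (atB02 h).L]
  show lc02.v (c1n y) x = _
  have ey := yag_v h.1.nonneg (h.2 rfl)
  simp only [lc02, lc02_7, lc02_8, l0q2, l0q2_7, l0q2_8, ey, c1g_v, c3g_v, swg_v]
  ((try push_cast); (try ring_nf))
theorem yL12 {y x : ℝ} (h : InQ 2 y) : tL 1 2 y x = l1q2.v y x := (atB12 (onc h (by decide))).L.symm
theorem yL50 {y x : ℝ} (h : InQ 0 y) : tL 5 0 y x = l5q0.v y x := (atB50 (onc h (by decide))).L.symm
theorem yL40 {y x : ℝ} (h : InQ 0 y) : tL 4 0 y x = l4q0.v y x := (atB40 (onc h (by decide))).L.symm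
theorem yL51 {y x : ℝ} (h : InQ 1 y) : tL 5 1 y x = l5q1.v y x := (atB51 (onc h (by decide))).L.symm
theorem yL41 {y x : ℝ} (h : InQ 1 y) : tL 4 1 y x = l4q1.v y x := (atB41 (onc h (by decide))).L.symm
theorem yL52 {y x : ℝ} (h : InQ 2 y) : tL 5 2 y x = l5q2.v y x := (atB52 (onc h (by decide))).L.symm
theorem yL42 {y x : ℝ} (h : InQ 2 y) : tL 4 2 y x = l4q2.v y x := (atB42 (onc h (by decide))).L.symm
theorem yL53 {y x : ℝ} (h : InQ 3 y) : tL 5 3 y x = l5q3.v y x := by
  rw [← (atB53 (onc h (by decide))).L]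
  show lc53.v (c3n y) x = _
  have ey := ycg_v h.nonneg h.le_two
  simp only [lc53, lc53_7, lc53_8, lc53_9, lc53_12, lc53_14, l5q3, l5q3_7, l5q3_8, l5q3_9, l5q3_12, l5q3_14, ey, c1g_v, c3g_v, swg_v]
  ((try push_cast); (try ring_nf))
theorem yL43 {y x : ℝ} (h : InQ 3 y) : tL 4 3 y x = l4q3.v y x := by
  rw [← (atB43 (onc h (by decide))).L]
  show lc43.v (c3n y) x = _
  have ey := ycg_v h.nonneg h.le_two
  simp only [lc43, lc43_11, l4q3, l4q3_4, cv4r, ey, c1g_v, c3g_v, swg_v]
  ((try push_cast); (try ring_nf))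
theorem sK0_ (x : ℝ) : ∀ q y, OnC (0 : Fin 6) q y → c1n y < crv PP 1 q y →
    (ff q).SK.v y x * (crv PP 1 q y - c1n y) = tK 1 q y x - tK 0 q y x := by
  intro q y h hlt
  rcases onC_q h with rfl | rfl | rfl
  · rw [yK10 h.1, yK00 h]
    rw [ecv1q0, ← c1g_v] at hlt ⊢
    have hd : 0 < cv1m.v y - c1g.v y := sub_pos.2 hlt
    have hi := inv_mul_cancel₀ hd.ne'
    show skf0.v y x * _ = _
    simp only [skf0, kf1q0]
    (try push_cast)
    linear_combination (c1g.v y * bf1q0.v y x - kf0q0.v y x) * hi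
  · rw [yK11 h.1, yK01 h]
    rw [ecv1q1, ← c1g_v] at hlt ⊢
    have hd : 0 < cv1m.v y - c1g.v y := sub_pos.2 hlt
    have hi := inv_mul_cancel₀ hd.ne'
    show skf1.v y x * _ = _
    simp only [skf1, kf1q1]
    (try push_cast)
    linear_combination (c1g.v y * bf1q1.v y x - kf0q1.v y x) * hi
  · rw [yK12 h.1, yK02 h]
    rw [ecv1q2, ← c1g_v] at hlt ⊢
    have hd : 0 < cv1p.v y - c1g.v y := sub_pos.2 hlt
    have hi := inv_mul_cancel₀ hd.ne'
    have hb : |c1g.v y| ≤ 1 / 2 := by rw [c1g_v]; exact bnd_O h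
    have eo := odd (x := x) hb
    show skf2.v y x * _ = _
    simp only [skf2, kf1q2, kf0q2, eo]
    (try push_cast)
    linear_combination (c1g.v y * (bf1q2.v y x - 1) + (y - 1) * kcg.v (c1g.v y) x) * hi
theorem sX0_ (x : ℝ) : ∀ q y, OnC (0 : Fin 6) q y → c1n y < crv PP 1 q y →
    (ff q).SX.v y x * (crv PP 1 q y - c1n y) = tL 1 q y x - tL 0 q y x := by
  intro q y h hlt
  rcases onC_q h with rfl | rfl | rfl
  · rw [yL10 h.1, yL00 h]
    rw [ecv1q0, ← c1g_v] at hlt ⊢
    have hd : 0 < cv1m.v y - c1g.v y := sub_pos.2 hlt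
    have hi := inv_mul_cancel₀ hd.ne'
    show sxf0.v y x * _ = _
    simp only [sxf0]
    (try push_cast)
    linear_combination (l1q0.v y x - l0q0.v y x) * hi
  · rw [yL11 h.1, yL01 h]
    rw [ecv1q1, ← c1g_v] at hlt ⊢
    have hd : 0 < cv1m.v y - c1g.v y := sub_pos.2 hlt
    have hi := inv_mul_cancel₀ hd.ne'
    show sxf1.v y x * _ = _
    simp only [sxf1]
    (try push_cast)
    linear_combination (l1q1.v y x - l0q1.v y x) * hi
  · rw [yL12 h.1, yL02 h]
    rw [ecv1q2, ← c1g_v] at hlt ⊢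
    have hd : 0 < cv1p.v y - c1g.v y := sub_pos.2 hlt
    have hi := inv_mul_cancel₀ hd.ne'
    show sxf2.v y x * _ = _
    simp only [sxf2]
    (try push_cast)
    linear_combination (l1q2.v y x - l0q2.v y x) * hi
theorem sKn_ (x : ℝ) : ∀ q y, InQ q y → crv PP 4 q y < c3n y →
    (fl q).SK.v y x * (c3n y - crv PP 4 q y) = tK 5 q y x - tK 4 q y x := by
  intro q y h hlt
  match q, h with
  | 0, h =>
    rw [yK50 h, yK40 h]
    rw [ecv4q0, ← c3g_v] at hlt ⊢
    have hd : 0 < c3g.v y - cv4m.v y := sub_pos.2 hlt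
    have hi := inv_mul_cancel₀ hd.ne'
    show skl0.v y x * _ = _
    simp only [skl0, kf4q0]
    (try push_cast)
    linear_combination (kf5q0.v y x - c3g.v y * bf4q0.v y x) * hi
  | 1, h =>
    rw [yK51 h, yK41 h]
    rw [ecv4q1, ← c3g_v] at hlt ⊢
    have hd : 0 < c3g.v y - cv4m.v y := sub_pos.2 hlt
    have hi := inv_mul_cancel₀ hd.ne'
    show skl1.v y x * _ = _
    simp only [skl1, kf4q1]
    (try push_cast)
    linear_combination (kf5q1.v y x - c3g.v y * bf4q1.v y x) * hi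
  | 2, h =>
    rw [yK52 h, yK42 h]
    rw [ecv4q2, ← c3g_v] at hlt ⊢
    have hd : 0 < c3g.v y - cv4p.v y := sub_pos.2 hlt
    have hi := inv_mul_cancel₀ hd.ne'
    show skl2.v y x * _ = _
    simp only [skl2, kf4q2]
    (try push_cast)
    linear_combination (kf5q2.v y x - c3g.v y * bf4q2.v y x) * hi
  | 3, h =>
    rw [yK53 h, yK43 h]
    rw [ecv4q3 h.1, ← c3g_v] at hlt ⊢
    have hd : 0 < c3g.v y - cv4r.v y := sub_pos.2 hlt
    have hi := inv_mul_cancel₀ hd.ne'
    have hB : kf4q3.v y x = cv4r.v y * bf4q3.v y x := by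
      simp only [kf4q3, kf4q3_4, kf4q3_23, bf4q3, bf4q3_3, bf4q3_22]
    show skl3.v y x * _ = _
    simp only [skl3, hB]
    (try push_cast)
    linear_combination (kf5q3.v y x - c3g.v y * bf4q3.v y x) * hi
theorem sXn_ (x : ℝ) : ∀ q y, InQ q y → crv PP 4 q y < c3n y →
    (fl q).SX.v y x * (c3n y - crv PP 4 q y) = tL 5 q y x - tL 4 q y x := by
  intro q y h hlt
  match q, h with
  | 0, h =>
    rw [yL50 h, yL40 h]
    rw [ecv4q0, ← c3g_v] at hlt ⊢
    have hd : 0 < c3g.v y - cv4m.v y := sub_pos.2 hlt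
    have hi := inv_mul_cancel₀ hd.ne'
    show sxl0.v y x * _ = _
    simp only [sxl0]
    (try push_cast)
    linear_combination (l5q0.v y x - l4q0.v y x) * hi
  | 1, h =>
    rw [yL51 h, yL41 h]
    rw [ecv4q1, ← c3g_v] at hlt ⊢
    have hd : 0 < c3g.v y - cv4m.v y := sub_pos.2 hlt
    have hi := inv_mul_cancel₀ hd.ne'
    show sxl1.v y x * _ = _
    simp only [sxl1]
    (try push_cast)
    linear_combination (l5q1.v y x - l4q1.v y x) * hi
  | 2, h =>
    rw [yL52 h, yL42 h]
    rw [ecv4q2, ← c3g_v] at hlt ⊢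
    have hd : 0 < c3g.v y - cv4p.v y := sub_pos.2 hlt
    have hi := inv_mul_cancel₀ hd.ne'
    show sxl2.v y x * _ = _
    simp only [sxl2]
    (try push_cast)
    linear_combination (l5q2.v y x - l4q2.v y x) * hi
  | 3, h =>
    rw [yL53 h, yL43 h]
    rw [ecv4q3 h.1, ← c3g_v] at hlt ⊢
    have hd : 0 < c3g.v y - cv4r.v y := sub_pos.2 hlt
    have hi := inv_mul_cancel₀ hd.ne'
    show sxl3.v y x * _ = _
    simp only [sxl3]
    (try push_cast)
    linear_combination (l5q3.v y x - l4q3.v y x) * hi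
theorem kn_ (x : ℝ) : ∀ X, |X| ≤ vv.k1.v → kcg.v (-X) x = -(k0c.v x * X) := by
  intro X h
  have h : |X| ≤ 1 / 10 := by
    refine h.trans_eq ?_
    show (Cn.rt 1 10).v = _
    rw [Cn.rt_v]
    norm_num
  obtain ⟨h1, h2⟩ := abs_le.1 h
  rw [kcl8 (p := -X) (by linarith) (by linarith)]
  simp only [k0c]
  push_cast
  ring
theorem tvm {p c x : ℝ} (h1 : -1 / 10 ≤ p) (h2 : p ≤ 1 / 10) : dt72.val (fun p x => kcg.v p x) p c x = (121299 / 625000 + (x - 487 / 520) * (429229 / 500000)) + (551 / 4000 + (x - 487 / 520) * (6047 / 10000)) * p + (-2679 / 2000 + (x - 487 / 520) * (-2061 / 200)) * p ^ 2 := by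
  rcases eq_or_lt_of_le h1 with h | h1
  · subst h
    refine (DT.val_le (by simp only [Cn.rt_v, Cn.ng_v]; push_cast; linarith)).trans ?_
    refine (DT.val_gt (by simp only [Cn.rt_v, Cn.ng_v]; push_cast; linarith)).trans ?_
    refine (DT.val_le (by simp only [Cn.rt_v, Cn.ng_v]; push_cast; linarith)).trans ?_
    refine (DT.val_gt (by simp only [Cn.rt_v, Cn.ng_v]; push_cast; linarith)).trans ?_
    simp only [dt40, DT.val, sw40, sl40, sv40]
    ((try push_cast); ring1)
  ·
    refine (DT.val_le (by simp only [Cn.rt_v, Cn.ng_v]; push_cast; linarith)).trans ?_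
    refine (DT.val_gt (by simp only [Cn.rt_v, Cn.ng_v]; push_cast; linarith)).trans ?_
    refine (DT.val_gt (by simp only [Cn.rt_v, Cn.ng_v]; push_cast; linarith)).trans ?_
    refine (DT.val_le (by simp only [Cn.rt_v, Cn.ng_v]; push_cast; linarith)).trans ?_
    simp only [dt41, DT.val, sw41, sl41, sv41]
    ((try push_cast); ring1)
theorem tn_ (x : ℝ) : ∀ X, |X| ≤ vv.k1.v → dd.tF x (-X) - dd.tF x X = m0c.v x * X := by
  intro X h
  have h : |X| ≤ 1 / 10 := by
    refine h.trans_eq ?_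
    show (Cn.rt 1 10).v = _
    rw [Cn.rt_v]
    norm_num
  obtain ⟨h1, h2⟩ := abs_le.1 h
  show dt72.val (fun p x => kcg.v p x) (-X) (cT (-X)) x - dt72.val (fun p x => kcg.v p x) X (cT X) x = _
  rw [tvm (by linarith) (by linarith), tvm (by linarith) (by linarith)]
  simp only [m0c]
  push_cast
  ring
theorem vK_ (x : ℝ) : ∀ y, InQ 2 y → tK 1 2 y x = crv PP 1 2 y * bf1q2.v y x := by
  intro y h
  rw [yK12 h, ecv1q2]
  simp only [kf1q2]
theorem vX_ (x : ℝ) : ∀ y, InQ 2 y → tL 1 2 y x = crv PP 1 2 y * bx1q2.v y x := by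
  intro y h
  rw [yL12 h, ecv1q2]
  simp only [l1q2]
theorem n0_rK (y x : ℝ) : n0b.v y x = (1 - (y - 1) * k0c.v x) := by
  simp only [n0b, k0c]
  all_goals (try push_cast)
  all_goals (try ring)
theorem rK_ (x : ℝ) : ∀ y, OnC (0 : Fin 6) 2 y → c1n y < crv PP 1 2 y →
    rhk.v y x * (crv PP 1 2 y - c1n y) = crv PP 1 2 y * (bf1q2.v y x - (1 - (y - 1) * k0c.v x)) := by
  intro y h hlt
  rw [ecv1q2, ← c1g_v] at hlt ⊢
  have hd : 0 < cv1p.v y - c1g.v y := sub_pos.2 hlt
  have hi := inv_mul_cancel₀ hd.ne'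
  rw [← n0_rK]
  simp only [rhk]
  linear_combination ((bf1q2.v y x - n0b.v y x) * cv1p.v y) * hi
theorem n0_rX (y x : ℝ) : n0x.v y x = m0c.v x := by
  simp only [n0x, m0c]
  all_goals (try push_cast)
  all_goals (try ring)
theorem rX_ (x : ℝ) : ∀ y, OnC (0 : Fin 6) 2 y → c1n y < crv PP 1 2 y →
    rhx.v y x * (crv PP 1 2 y - c1n y) = crv PP 1 2 y * (bx1q2.v y x - m0c.v x) := by
  intro y h hlt
  rw [ecv1q2, ← c1g_v] at hlt ⊢
  have hd : 0 < cv1p.v y - c1g.v y := sub_pos.2 hlt
  have hi := inv_mul_cancel₀ hd.ne'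
  rw [← n0_rX]
  simp only [rhx]
  linear_combination ((bx1q2.v y x - n0x.v y x) * cv1p.v y) * hi
theorem flat_ (x : ℝ) : ∀ y, InQ 2 y → vv.ya.v ≤ y → y ≤ vv.yb.v → bf1q2.v y x = 1 - (y - 1) * k0c.v x ∧ bx1q2.v y x = m0c.v x := by
  intro y h h1 h2
  have ea : vv.ya.v = 577 / 500 := by
    show (Cn.rt 577 500).v = _
    rw [Cn.rt_v]
    norm_num
  have eb : vv.yb.v = 231 / 200 := by
    show (Cn.rt 231 200).v = _
    rw [Cn.rt_v]
    norm_num
  rw [ea] at h1
  rw [eb] at h2
  constructor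
  · simp only [bf1q2, bf1q2_3, k0c]
    rcases eq_or_lt_of_le h1 with g | h1
    · subst g
      ((try push_cast); (repeat first | rw [if_pos (by linarith)] | rw [if_neg (by linarith)] | erw [if_pos (by linarith)] | erw [if_neg (by linarith)]); (try push_cast); (try ring1))
    rcases eq_or_lt_of_le h2 with g | h2
    · subst g
      ((try push_cast); (repeat first | rw [if_pos (by linarith)] | rw [if_neg (by linarith)] | erw [if_pos (by linarith)] | erw [if_neg (by linarith)]); (try push_cast); (try ring1))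
    · ((try push_cast); (repeat first | rw [if_pos (by linarith)] | rw [if_neg (by linarith)] | erw [if_pos (by linarith)] | erw [if_neg (by linarith)]); (try push_cast); (try ring1))
  · simp only [bx1q2, bx1q2_3, m0c]
    rcases eq_or_lt_of_le h1 with g | h1
    · subst g
      ((try push_cast); (repeat first | rw [if_pos (by linarith)] | rw [if_neg (by linarith)] | erw [if_pos (by linarith)] | erw [if_neg (by linarith)]); (try push_cast); (try ring1))
    rcases eq_or_lt_of_le h2 with g | h2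
    · subst g
      ((try push_cast); (repeat first | rw [if_pos (by linarith)] | rw [if_neg (by linarith)] | erw [if_pos (by linarith)] | erw [if_neg (by linarith)]); (try push_cast); (try ring1))
    · ((try push_cast); (repeat first | rw [if_pos (by linarith)] | rw [if_neg (by linarith)] | erw [if_pos (by linarith)] | erw [if_neg (by linarith)]); (try push_cast); (try ring1))
theorem abk_ (x : ℝ) : ∀ y, InQ 2 y → vv.yb.v ≤ y → y ≤ vv.yk.v → bf1q2.v y x = 1 - (y - 1) * k0c.v x + sbk.v x * (y - vv.yb.v) ∧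
    bx1q2.v y x = m0c.v x + sbx.v x * (y - vv.yb.v) := by
  intro y h h1 h2
  have eb : vv.yb.v = 231 / 200 := by
    show (Cn.rt 231 200).v = _
    rw [Cn.rt_v]
    norm_num
  have ek : vv.yk.v = 13 / 10 := by
    show (Cn.rt 13 10).v = _
    rw [Cn.rt_v]
    norm_num
  rw [eb] at h1 ⊢
  rw [ek] at h2
  constructor
  · simp only [bf1q2, bf1q2_3, k0c, sbk]
    rcases eq_or_lt_of_le h1 with g | h1
    · subst g
      ((try push_cast); (repeat first | rw [if_pos (by linarith)] | rw [if_neg (by linarith)] | erw [if_pos (by linarith)] | erw [if_neg (by linarith)]); (try push_cast); (try ring1))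
    rcases eq_or_lt_of_le h2 with g | h2
    · subst g
      ((try push_cast); (repeat first | rw [if_pos (by linarith)] | rw [if_neg (by linarith)] | erw [if_pos (by linarith)] | erw [if_neg (by linarith)]); (try push_cast); (try ring1))
    · ((try push_cast); (repeat first | rw [if_pos (by linarith)] | rw [if_neg (by linarith)] | erw [if_pos (by linarith)] | erw [if_neg (by linarith)]); (try push_cast); (try ring1))
  · simp only [bx1q2, bx1q2_3, m0c, sbx]
    rcases eq_or_lt_of_le h1 with g | h1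
    · subst g
      ((try push_cast); (repeat first | rw [if_pos (by linarith)] | rw [if_neg (by linarith)] | erw [if_pos (by linarith)] | erw [if_neg (by linarith)]); (try push_cast); (try ring1))
    rcases eq_or_lt_of_le h2 with g | h2
    · subst g
      ((try push_cast); (repeat first | rw [if_pos (by linarith)] | rw [if_neg (by linarith)] | erw [if_pos (by linarith)] | erw [if_neg (by linarith)]); (try push_cast); (try ring1))
    · ((try push_cast); (repeat first | rw [if_pos (by linarith)] | rw [if_neg (by linarith)] | erw [if_pos (by linarith)] | erw [if_neg (by linarith)]); (try push_cast); (try ring1))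
theorem ka_dt73 (x : ℝ) : dt73.kv (-1 / 4) x = (503 / 800000 + (x - 487 / 520) * (1363 / 40000)) := by
  simp only [dt73, DT.kv, sw73, sl73, sv73]
  ((try push_cast); ring1)
theorem kb_dt73 (x : ℝ) : dt73.kv (-1 / 5) x = (1593 / 800000 + (x - 487 / 520) * (603 / 40000)) := by
  simp only [dt73, DT.kv, sw73, sl73, sv73]
  ((try push_cast); ring1)
theorem ka_dt74 (x : ℝ) : dt74.kv (-1 / 5) x = (1593 / 800000 + (x - 487 / 520) * (603 / 40000)) := by
  simp only [dt74, DT.kv, sw74, sl74, sv74]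
  ((try push_cast); ring1)
theorem kb_dt74 (x : ℝ) : dt74.kv (-3 / 20) x = (377 / 800000 + (x - 487 / 520) * (-39 / 80000)) := by
  simp only [dt74, DT.kv, sw74, sl74, sv74]
  ((try push_cast); ring1)
theorem ka_dt75 (x : ℝ) : dt75.kv (-3 / 20) x = (377 / 800000 + (x - 487 / 520) * (-39 / 80000)) := by
  simp only [dt75, DT.kv, sw75, sl75, sv75]
  ((try push_cast); ring1)
theorem kb_dt75 (x : ℝ) : dt75.kv (-1 / 10) x = (0) := by
  simp only [dt75, DT.kv, sw75, sl75, sv75]
  ((try push_cast); ring1)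
theorem ka_dt80 (x : ℝ) : dt80.kv (-1 / 5) x = (1593 / 800000 + (x - 487 / 520) * (603 / 40000)) :=
  (DT.kv_le (by simp only [Cn.rt_v, Cn.ng_v]; norm_num)).trans (ka_dt74 x)
theorem kb_dt80 (x : ℝ) : dt80.kv (-1 / 10) x = (0) :=
  (DT.kv_gt (by simp only [Cn.rt_v, Cn.ng_v]; norm_num)).trans (kb_dt75 x)
theorem ka_dt81 (x : ℝ) : dt81.kv (-1 / 4) x = (503 / 800000 + (x - 487 / 520) * (1363 / 40000)) :=
  (DT.kv_le (by simp only [Cn.rt_v, Cn.ng_v]; norm_num)).trans (ka_dt73 x)
theorem kb_dt81 (x : ℝ) : dt81.kv (-1 / 10) x = (0) :=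
  (DT.kv_gt (by simp only [Cn.rt_v, Cn.ng_v]; norm_num)).trans (kb_dt80 x)
theorem ka_dt76 (x : ℝ) : dt76.kv (-1 / 10) x = (0) := by
  simp only [dt76, DT.kv, sl76, sv76]
  ((try push_cast); ring1)
theorem kb_dt76 (x : ℝ) : dt76.kv (1 / 10) x = (0) := by
  simp only [dt76, DT.kv, sl76, sv76]
  ((try push_cast); ring1)
theorem ka_dt77 (x : ℝ) : dt77.kv (1 / 10) x = (0) := by
  simp only [dt77, DT.kv, sw77, sl77, sv77]
  ((try push_cast); ring1)
theorem kb_dt77 (x : ℝ) : dt77.kv (3 / 20) x = (-377 / 800000 + (x - 487 / 520) * (39 / 80000)) := by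
  simp only [dt77, DT.kv, sw77, sl77, sv77]
  ((try push_cast); ring1)
theorem ka_dt82 (x : ℝ) : dt82.kv (-1 / 10) x = (0) :=
  (DT.kv_le (by simp only [Cn.rt_v, Cn.ng_v]; norm_num)).trans (ka_dt76 x)
theorem kb_dt82 (x : ℝ) : dt82.kv (3 / 20) x = (-377 / 800000 + (x - 487 / 520) * (39 / 80000)) :=
  (DT.kv_gt (by simp only [Cn.rt_v, Cn.ng_v]; norm_num)).trans (kb_dt77 x)
theorem ka_dt78 (x : ℝ) : dt78.kv (3 / 20) x = (-377 / 800000 + (x - 487 / 520) * (39 / 80000)) := by
  simp only [dt78, DT.kv, sw78, sl78, sv78]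
  ((try push_cast); ring1)
theorem kb_dt78 (x : ℝ) : dt78.kv (1 / 5) x = (-1593 / 800000 + (x - 487 / 520) * (-603 / 40000)) := by
  simp only [dt78, DT.kv, sw78, sl78, sv78]
  ((try push_cast); ring1)
theorem ka_dt79 (x : ℝ) : dt79.kv (1 / 5) x = (-1593 / 800000 + (x - 487 / 520) * (-603 / 40000)) := by
  simp only [dt79, DT.kv, sw79, sl79, sv79]
  ((try push_cast); ring1)
theorem kb_dt79 (x : ℝ) : dt79.kv (1 / 4) x = (-503 / 800000 + (x - 487 / 520) * (-1363 / 40000)) := by
  simp only [dt79, DT.kv, sw79, sl79, sv79]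
  ((try push_cast); ring1)
theorem ka_dt83 (x : ℝ) : dt83.kv (3 / 20) x = (-377 / 800000 + (x - 487 / 520) * (39 / 80000)) :=
  (DT.kv_le (by simp only [Cn.rt_v, Cn.ng_v]; norm_num)).trans (ka_dt78 x)
theorem kb_dt83 (x : ℝ) : dt83.kv (1 / 4) x = (-503 / 800000 + (x - 487 / 520) * (-1363 / 40000)) :=
  (DT.kv_gt (by simp only [Cn.rt_v, Cn.ng_v]; norm_num)).trans (kb_dt79 x)
theorem ka_dt84 (x : ℝ) : dt84.kv (-1 / 10) x = (0) :=
  (DT.kv_le (by simp only [Cn.rt_v, Cn.ng_v]; norm_num)).trans (ka_dt82 x)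
theorem kb_dt84 (x : ℝ) : dt84.kv (1 / 4) x = (-503 / 800000 + (x - 487 / 520) * (-1363 / 40000)) :=
  (DT.kv_gt (by simp only [Cn.rt_v, Cn.ng_v]; norm_num)).trans (kb_dt83 x)
theorem ka_dt85 (x : ℝ) : dt85.kv (-1 / 4) x = (503 / 800000 + (x - 487 / 520) * (1363 / 40000)) :=
  (DT.kv_le (by simp only [Cn.rt_v, Cn.ng_v]; norm_num)).trans (ka_dt81 x)
theorem kb_dt85 (x : ℝ) : dt85.kv (1 / 4) x = (-503 / 800000 + (x - 487 / 520) * (-1363 / 40000)) :=
  (DT.kv_gt (by simp only [Cn.rt_v, Cn.ng_v]; norm_num)).trans (kb_dt84 x)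
theorem ko_dt73 (x : ℝ) : dt73.KOk x := trivial
theorem ko_dt74 (x : ℝ) : dt74.KOk x := trivial
theorem ko_dt75 (x : ℝ) : dt75.KOk x := trivial
theorem ko_dt80 (x : ℝ) : dt80.KOk x :=
  DT.kOk_node (v := -3 / 20) (by simp only [Cn.rt_v, Cn.ng_v]; norm_num) (kb_dt74 x) (ka_dt75 x) (by ring1) (ko_dt74 x) (ko_dt75 x)
theorem ko_dt81 (x : ℝ) : dt81.KOk x :=
  DT.kOk_node (v := -1 / 5) (by simp only [Cn.rt_v, Cn.ng_v]; norm_num) (kb_dt73 x) (ka_dt80 x) (by ring1) (ko_dt73 x) (ko_dt80 x)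
theorem ko_dt76 (x : ℝ) : dt76.KOk x := trivial
theorem ko_dt77 (x : ℝ) : dt77.KOk x := trivial
theorem ko_dt82 (x : ℝ) : dt82.KOk x :=
  DT.kOk_node (v := 1 / 10) (by simp only [Cn.rt_v, Cn.ng_v]; norm_num) (kb_dt76 x) (ka_dt77 x) (by ring1) (ko_dt76 x) (ko_dt77 x)
theorem ko_dt78 (x : ℝ) : dt78.KOk x := trivial
theorem ko_dt79 (x : ℝ) : dt79.KOk x := trivial
theorem ko_dt83 (x : ℝ) : dt83.KOk x :=
  DT.kOk_node (v := 1 / 5) (by simp only [Cn.rt_v, Cn.ng_v]; norm_num) (kb_dt78 x) (ka_dt79 x) (by ring1) (ko_dt78 x) (ko_dt79 x)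
theorem ko_dt84 (x : ℝ) : dt84.KOk x :=
  DT.kOk_node (v := 3 / 20) (by simp only [Cn.rt_v, Cn.ng_v]; norm_num) (kb_dt82 x) (ka_dt83 x) (by ring1) (ko_dt82 x) (ko_dt83 x)
theorem ko_dt85 (x : ℝ) : dt85.KOk x :=
  DT.kOk_node (v := -1 / 10) (by simp only [Cn.rt_v, Cn.ng_v]; norm_num) (kb_dt81 x) (ka_dt84 x) (by ring1) (ko_dt81 x) (ko_dt84 x)
theorem phl0 {p x : ℝ} (h2 : p ≤ -1 / 5) : dt85.kv p x = (-49407 / 800000 + (x - 487 / 520) * (-12917 / 40000)) + (-11911 / 20000 + (x - 487 / 520) * (-1369 / 500)) * p + (-173 / 125 + (x - 487 / 520) * (-131 / 25)) * p ^ 2 := by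
  refine (DT.kv_le (by simp only [Cn.rt_v, Cn.ng_v]; push_cast; linarith)).trans ?_
  refine (DT.kv_le (by simp only [Cn.rt_v, Cn.ng_v]; push_cast; linarith)).trans ?_
  simp only [dt73, DT.kv, sw73, sl73, sv73]
  ((try push_cast); ring1)
theorem phl1 {p x : ℝ} (h1 : -1 / 5 < p) (h2 : p ≤ -3 / 20) : dt85.kv p x = (2273 / 800000 + (x - 487 / 520) * (6051 / 40000)) + (1009 / 20000 + (x - 487 / 520) * (501 / 250)) * p + (231 / 1000 + (x - 487 / 520) * (1323 / 200)) * p ^ 2 := by
  refine (DT.kv_le (by simp only [Cn.rt_v, Cn.ng_v]; push_cast; linarith)).trans ?_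
  refine (DT.kv_gt (by simp only [Cn.rt_v, Cn.ng_v]; push_cast; linarith)).trans ?_
  refine (DT.kv_le (by simp only [Cn.rt_v, Cn.ng_v]; push_cast; linarith)).trans ?_
  simp only [dt74, DT.kv, sw74, sl74, sv74]
  ((try push_cast); ring1)
theorem phl2 {p x : ℝ} (h1 : -3 / 20 < p) (h2 : p ≤ -1 / 10) : dt85.kv p x = (377 / 200000 + (x - 487 / 520) * (-39 / 20000)) + (377 / 10000 + (x - 487 / 520) * (-39 / 1000)) * p + (377 / 2000 + (x - 487 / 520) * (-39 / 200)) * p ^ 2 := by
  refine (DT.kv_le (by simp only [Cn.rt_v, Cn.ng_v]; push_cast; linarith)).trans ?_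
  refine (DT.kv_gt (by simp only [Cn.rt_v, Cn.ng_v]; push_cast; linarith)).trans ?_
  refine (DT.kv_gt (by simp only [Cn.rt_v, Cn.ng_v]; push_cast; linarith)).trans ?_
  simp only [dt75, DT.kv, sw75, sl75, sv75]
  ((try push_cast); ring1)
theorem phl3 {p x : ℝ} (h1 : -1 / 10 < p) (h2 : p ≤ 1 / 10) : dt85.kv p x = (0) + (0) * p := by
  refine (DT.kv_gt (by simp only [Cn.rt_v, Cn.ng_v]; push_cast; linarith)).trans ?_
  refine (DT.kv_le (by simp only [Cn.rt_v, Cn.ng_v]; push_cast; linarith)).trans ?_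
  refine (DT.kv_le (by simp only [Cn.rt_v, Cn.ng_v]; push_cast; linarith)).trans ?_
  simp only [dt76, DT.kv, sl76, sv76]
  ((try push_cast); ring1)
theorem phl4 {p x : ℝ} (h1 : 1 / 10 < p) (h2 : p ≤ 3 / 20) : dt85.kv p x = (-377 / 200000 + (x - 487 / 520) * (39 / 20000)) + (377 / 10000 + (x - 487 / 520) * (-39 / 1000)) * p + (-377 / 2000 + (x - 487 / 520) * (39 / 200)) * p ^ 2 := by
  refine (DT.kv_gt (by simp only [Cn.rt_v, Cn.ng_v]; push_cast; linarith)).trans ?_
  refine (DT.kv_le (by simp only [Cn.rt_v, Cn.ng_v]; push_cast; linarith)).trans ?_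
  refine (DT.kv_gt (by simp only [Cn.rt_v, Cn.ng_v]; push_cast; linarith)).trans ?_
  simp only [dt77, DT.kv, sw77, sl77, sv77]
  ((try push_cast); ring1)
theorem phl5 {p x : ℝ} (h1 : 3 / 20 < p) (h2 : p ≤ 1 / 5) : dt85.kv p x = (-2273 / 800000 + (x - 487 / 520) * (-6051 / 40000)) + (1009 / 20000 + (x - 487 / 520) * (501 / 250)) * p + (-231 / 1000 + (x - 487 / 520) * (-1323 / 200)) * p ^ 2 := by
  refine (DT.kv_gt (by simp only [Cn.rt_v, Cn.ng_v]; push_cast; linarith)).trans ?_
  refine (DT.kv_gt (by simp only [Cn.rt_v, Cn.ng_v]; push_cast; linarith)).trans ?_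
  refine (DT.kv_le (by simp only [Cn.rt_v, Cn.ng_v]; push_cast; linarith)).trans ?_
  simp only [dt78, DT.kv, sw78, sl78, sv78]
  ((try push_cast); ring1)
theorem phl6 {p x : ℝ} (h1 : 1 / 5 < p) (h2 : p ≤ 1 / 4) : dt85.kv p x = (49407 / 800000 + (x - 487 / 520) * (12917 / 40000)) + (-11911 / 20000 + (x - 487 / 520) * (-1369 / 500)) * p + (173 / 125 + (x - 487 / 520) * (131 / 25)) * p ^ 2 := by
  refine (DT.kv_gt (by simp only [Cn.rt_v, Cn.ng_v]; push_cast; linarith)).trans ?_
  refine (DT.kv_gt (by simp only [Cn.rt_v, Cn.ng_v]; push_cast; linarith)).trans ?_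
  refine (DT.kv_gt (by simp only [Cn.rt_v, Cn.ng_v]; push_cast; linarith)).trans ?_
  simp only [dt79, DT.kv, sw79, sl79, sv79]
  ((try push_cast); ring1)
theorem tvc5 {p x : ℝ} (h1 : -3 / 10 ≤ p) (h2 : p ≤ -1 / 5) : dt72.val (fun p x => kcg.v p x) p (cT p) x = (1466967 / 5000000 + (x - 487 / 520) * (667379 / 500000)) + (22617 / 20000 + (x - 487 / 520) * (53687 / 10000)) * p + (1143 / 1000 + (x - 487 / 520) * (161 / 100)) * p ^ 2 := by
  rcases eq_or_lt_of_le h1 with h | h1
  · subst h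
    refine (DT.val_le (by simp only [Cn.rt_v, Cn.ng_v]; push_cast; linarith)).trans ?_
    refine (DT.val_le (by simp only [Cn.rt_v, Cn.ng_v]; push_cast; linarith)).trans ?_
    refine (DT.val_gt (by simp only [Cn.rt_v, Cn.ng_v]; push_cast; linarith)).trans ?_
    refine (DT.val_gt (by simp only [Cn.rt_v, Cn.ng_v]; push_cast; linarith)).trans ?_
    refine (DT.val_gt (by simp only [Cn.rt_v, Cn.ng_v]; push_cast; linarith)).trans ?_
    simp only [dt38, DT.val, sw38, sl38, sv38]
    ((try push_cast); ring1)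
  ·
    refine (DT.val_le (by simp only [Cn.rt_v, Cn.ng_v]; push_cast; linarith)).trans ?_
    refine (DT.val_gt (by simp only [Cn.rt_v, Cn.ng_v]; push_cast; linarith)).trans ?_
    refine (DT.val_le (by simp only [Cn.rt_v, Cn.ng_v]; push_cast; linarith)).trans ?_
    refine (DT.val_le (by simp only [Cn.rt_v, Cn.ng_v]; push_cast; linarith)).trans ?_
    simp only [dt39, DT.val, sw39, sl39, sv39]
    ((try push_cast); ring1)
theorem tvc6 {p x : ℝ} (h1 : -1 / 5 ≤ p) (h2 : p ≤ -1 / 10) : dt72.val (fun p x => kcg.v p x) p (cT p) x = (970367 / 5000000 + (x - 487 / 520) * (429279 / 500000)) + (2753 / 20000 + (x - 487 / 520) * (6067 / 10000)) * p + (-67 / 50 + (x - 487 / 520) * (-2059 / 200)) * p ^ 2 := by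
  rcases eq_or_lt_of_le h1 with h | h1
  · subst h
    refine (DT.val_le (by simp only [Cn.rt_v, Cn.ng_v]; push_cast; linarith)).trans ?_
    refine (DT.val_gt (by simp only [Cn.rt_v, Cn.ng_v]; push_cast; linarith)).trans ?_
    refine (DT.val_le (by simp only [Cn.rt_v, Cn.ng_v]; push_cast; linarith)).trans ?_
    refine (DT.val_le (by simp only [Cn.rt_v, Cn.ng_v]; push_cast; linarith)).trans ?_
    simp only [dt39, DT.val, sw39, sl39, sv39]
    ((try push_cast); ring1)
  ·
    refine (DT.val_le (by simp only [Cn.rt_v, Cn.ng_v]; push_cast; linarith)).trans ?_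
    refine (DT.val_gt (by simp only [Cn.rt_v, Cn.ng_v]; push_cast; linarith)).trans ?_
    refine (DT.val_le (by simp only [Cn.rt_v, Cn.ng_v]; push_cast; linarith)).trans ?_
    refine (DT.val_gt (by simp only [Cn.rt_v, Cn.ng_v]; push_cast; linarith)).trans ?_
    simp only [dt40, DT.val, sw40, sl40, sv40]
    ((try push_cast); ring1)
theorem tvc7 {p x : ℝ} (h1 : -1 / 10 ≤ p) (h2 : p ≤ 1 / 10) : dt72.val (fun p x => kcg.v p x) p (cT p) x = (121299 / 625000 + (x - 487 / 520) * (429229 / 500000)) + (551 / 4000 + (x - 487 / 520) * (6047 / 10000)) * p + (-2679 / 2000 + (x - 487 / 520) * (-2061 / 200)) * p ^ 2 := by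
  rcases eq_or_lt_of_le h1 with h | h1
  · subst h
    refine (DT.val_le (by simp only [Cn.rt_v, Cn.ng_v]; push_cast; linarith)).trans ?_
    refine (DT.val_gt (by simp only [Cn.rt_v, Cn.ng_v]; push_cast; linarith)).trans ?_
    refine (DT.val_le (by simp only [Cn.rt_v, Cn.ng_v]; push_cast; linarith)).trans ?_
    refine (DT.val_gt (by simp only [Cn.rt_v, Cn.ng_v]; push_cast; linarith)).trans ?_
    simp only [dt40, DT.val, sw40, sl40, sv40]
    ((try push_cast); ring1)
  ·
    refine (DT.val_le (by simp only [Cn.rt_v, Cn.ng_v]; push_cast; linarith)).trans ?_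
    refine (DT.val_gt (by simp only [Cn.rt_v, Cn.ng_v]; push_cast; linarith)).trans ?_
    refine (DT.val_gt (by simp only [Cn.rt_v, Cn.ng_v]; push_cast; linarith)).trans ?_
    refine (DT.val_le (by simp only [Cn.rt_v, Cn.ng_v]; push_cast; linarith)).trans ?_
    simp only [dt41, DT.val, sw41, sl41, sv41]
    ((try push_cast); ring1)
theorem tvc8 {p x : ℝ} (h1 : 1 / 10 ≤ p) (h2 : p ≤ 3 / 20) : dt72.val (fun p x => kcg.v p x) p (cT p) x = (61237 / 312500 + (x - 487 / 520) * (26769 / 31250)) + (2003 / 20000 + (x - 487 / 520) * (6417 / 10000)) * p + (-2303 / 2000 + (x - 487 / 520) * (-1049 / 100)) * p ^ 2 := by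
  rcases eq_or_lt_of_le h1 with h | h1
  · subst h
    refine (DT.val_le (by simp only [Cn.rt_v, Cn.ng_v]; push_cast; linarith)).trans ?_
    refine (DT.val_gt (by simp only [Cn.rt_v, Cn.ng_v]; push_cast; linarith)).trans ?_
    refine (DT.val_gt (by simp only [Cn.rt_v, Cn.ng_v]; push_cast; linarith)).trans ?_
    refine (DT.val_le (by simp only [Cn.rt_v, Cn.ng_v]; push_cast; linarith)).trans ?_
    simp only [dt41, DT.val, sw41, sl41, sv41]
    ((try push_cast); ring1)
  ·
    refine (DT.val_le (by simp only [Cn.rt_v, Cn.ng_v]; push_cast; linarith)).trans ?_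
    refine (DT.val_gt (by simp only [Cn.rt_v, Cn.ng_v]; push_cast; linarith)).trans ?_
    refine (DT.val_gt (by simp only [Cn.rt_v, Cn.ng_v]; push_cast; linarith)).trans ?_
    refine (DT.val_gt (by simp only [Cn.rt_v, Cn.ng_v]; push_cast; linarith)).trans ?_
    refine (DT.val_le (by simp only [Cn.rt_v, Cn.ng_v]; push_cast; linarith)).trans ?_
    simp only [dt42, DT.val, sw42, sl42, sv42]
    ((try push_cast); ring1)
theorem tvc9 {p x : ℝ} (h1 : 3 / 20 ≤ p) (h2 : p ≤ 1 / 5) : dt72.val (fun p x => kcg.v p x) p (cT p) x = (3938293 / 20000000 + (x - 487 / 520) * (1009833 / 1000000)) + (437 / 5000 + (x - 487 / 520) * (-14013 / 10000)) * p + (-1109 / 1000 + (x - 487 / 520) * (-92 / 25)) * p ^ 2 := by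
  rcases eq_or_lt_of_le h1 with h | h1
  · subst h
    refine (DT.val_le (by simp only [Cn.rt_v, Cn.ng_v]; push_cast; linarith)).trans ?_
    refine (DT.val_gt (by simp only [Cn.rt_v, Cn.ng_v]; push_cast; linarith)).trans ?_
    refine (DT.val_gt (by simp only [Cn.rt_v, Cn.ng_v]; push_cast; linarith)).trans ?_
    refine (DT.val_gt (by simp only [Cn.rt_v, Cn.ng_v]; push_cast; linarith)).trans ?_
    refine (DT.val_le (by simp only [Cn.rt_v, Cn.ng_v]; push_cast; linarith)).trans ?_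
    simp only [dt42, DT.val, sw42, sl42, sv42]
    ((try push_cast); ring1)
  ·
    refine (DT.val_le (by simp only [Cn.rt_v, Cn.ng_v]; push_cast; linarith)).trans ?_
    refine (DT.val_gt (by simp only [Cn.rt_v, Cn.ng_v]; push_cast; linarith)).trans ?_
    refine (DT.val_gt (by simp only [Cn.rt_v, Cn.ng_v]; push_cast; linarith)).trans ?_
    refine (DT.val_gt (by simp only [Cn.rt_v, Cn.ng_v]; push_cast; linarith)).trans ?_
    refine (DT.val_gt (by simp only [Cn.rt_v, Cn.ng_v]; push_cast; linarith)).trans ?_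
    simp only [dt43, DT.val, sw43, sl43, sv43]
    ((try push_cast); ring1)
theorem tvc10 {p x : ℝ} (h1 : 1 / 5 ≤ p) (h2 : p ≤ 1 / 4) : dt72.val (fun p x => kcg.v p x) p (cT p) x = (4632693 / 20000000 + (x - 487 / 520) * (1011833 / 1000000)) + (-1299 / 5000 + (x - 487 / 520) * (-14213 / 10000)) * p + (-241 / 1000 + (x - 487 / 520) * (-363 / 100)) * p ^ 2 := by
  rcases eq_or_lt_of_le h1 with h | h1
  · subst h
    refine (DT.val_le (by simp only [Cn.rt_v, Cn.ng_v]; push_cast; linarith)).trans ?_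
    refine (DT.val_gt (by simp only [Cn.rt_v, Cn.ng_v]; push_cast; linarith)).trans ?_
    refine (DT.val_gt (by simp only [Cn.rt_v, Cn.ng_v]; push_cast; linarith)).trans ?_
    refine (DT.val_gt (by simp only [Cn.rt_v, Cn.ng_v]; push_cast; linarith)).trans ?_
    refine (DT.val_gt (by simp only [Cn.rt_v, Cn.ng_v]; push_cast; linarith)).trans ?_
    simp only [dt43, DT.val, sw43, sl43, sv43]
    ((try push_cast); ring1)
  ·
    refine (DT.val_gt (by simp only [Cn.rt_v, Cn.ng_v]; push_cast; linarith)).trans ?_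
    refine (DT.val_le (by simp only [Cn.rt_v, Cn.ng_v]; push_cast; linarith)).trans ?_
    refine (DT.val_le (by simp only [Cn.rt_v, Cn.ng_v]; push_cast; linarith)).trans ?_
    refine (DT.val_le (by simp only [Cn.rt_v, Cn.ng_v]; push_cast; linarith)).trans ?_
    simp only [dt44, DT.val, sw44, sl44, sv44]
    ((try push_cast); ring1)
theorem ph_ (x : ℝ) : ∀ u, |u| ≤ vv.k2.v → dd.tF x (-u) - dd.tF x u = m0c.v x * u + dt85.kv u x := by
  intro u h
  have h : |u| ≤ 1 / 4 := by
    refine h.trans_eq ?_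
    show (Cn.rt 1 4).v = _
    rw [Cn.rt_v]
    norm_num
  obtain ⟨h1, h2⟩ := abs_le.1 h
  show dt72.val (fun p x => kcg.v p x) (-u) (cT (-u)) x - dt72.val (fun p x => kcg.v p x) u (cT u) x = _
  rcases le_or_gt u (-1 / 5) with g0 | g1000
  ·
    rw [tvc10 (p := -u) (by linarith) (by linarith), tvc5 (p := u) (by linarith) (by linarith), phl0 g0]
    simp only [m0c]
    push_cast
    ring
  rcases le_or_gt u (-3 / 20) with g1 | g1001
  ·
    rw [tvc9 (p := -u) (by linarith) (by linarith), tvc6 (p := u) (by linarith) (by linarith), phl1 g1000 g1]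
    simp only [m0c]
    push_cast
    ring
  rcases le_or_gt u (-1 / 10) with g2 | g1002
  ·
    rw [tvc8 (p := -u) (by linarith) (by linarith), tvc6 (p := u) (by linarith) (by linarith), phl2 g1001 g2]
    simp only [m0c]
    push_cast
    ring
  rcases le_or_gt u (1 / 10) with g3 | g1003
  ·
    rw [tvc7 (p := -u) (by linarith) (by linarith), tvc7 (p := u) (by linarith) (by linarith), phl3 g1002 g3]
    simp only [m0c]
    push_cast
    ring
  rcases le_or_gt u (3 / 20) with g4 | g1004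
  ·
    rw [tvc6 (p := -u) (by linarith) (by linarith), tvc8 (p := u) (by linarith) (by linarith), phl4 g1003 g4]
    simp only [m0c]
    push_cast
    ring
  rcases le_or_gt u (1 / 5) with g5 | g1005
  ·
    rw [tvc6 (p := -u) (by linarith) (by linarith), tvc9 (p := u) (by linarith) (by linarith), phl5 g1004 g5]
    simp only [m0c]
    push_cast
    ring
  ·
    rw [tvc5 (p := -u) (by linarith) (by linarith), tvc10 (p := u) (by linarith) (by linarith), phl6 g1005 (by linarith)]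
    simp only [m0c]
    push_cast
    ring
theorem kqf_ {y : ℝ} (x : ℝ) (h : OnC (0 : Fin 6) 2 y) : kqf.v y x * c1g.v y = (y - 1) * kcg.v (c1g.v y) x := by
  have h0 : 0 ≤ c1g.v y := by rw [c1g_v]; exact c1n_nn y
  simp only [kqf]
  (try push_cast)
  split_ifs with hh
  · rw [kcl8 (p := c1g.v y) (by linarith) (by linarith)]
    ring
  · have hc : c1g.v y ≠ 0 := by
      intro e
      rw [e] at hh
      exact hh (by norm_num)
    have hi := inv_mul_cancel₀ hc
    linear_combination ((y - 1) * kcg.v (c1g.v y) x) * hi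
theorem sM_ (x : ℝ) : ∀ y, OnC (0 : Fin 6) 2 y → c1n y < crv PP 1 2 y →
    (1 + skm.v y x) * (crv PP 1 2 y - c1n y) = tK 1 2 y x - tK 0 2 y x := by
  intro y h hlt
  rw [yK12 h.1, yK02 h]
  rw [ecv1q2, ← c1g_v] at hlt ⊢
  have hd : 0 < cv1p.v y - c1g.v y := sub_pos.2 hlt
  have hi := inv_mul_cancel₀ hd.ne'
  have hb : |c1g.v y| ≤ 1 / 2 := by rw [c1g_v]; exact bnd_O h
  have eo := odd (x := x) hb
  have hk := kqf_ x h
  simp only [skm, kf1q2, kf0q2, eo]
  (try push_cast)
  linear_combination (cv1p.v y * ((bf1q2.v y x - 1) + kqf.v y x)) * hi + hk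
theorem ok (x : ℝ) : tt.Ok PP tK tL x where
  i0 := rfl
  il := rfl
  rl := by
    show 1 < PP.ρ 4
    have e : PP.ρ 4 = 17 / 10 := rfl
    rw [e]
    norm_num
  ok := dok x
  kh := rfl
  odd := fun p h => odd h
  K0 := K0_ x
  L0 := L0_ x
  Kn := Kn_ x
  Ln := Ln_ x
  f0 := f0_
  fn := fn_
  sK0 := sK0_ x
  sX0 := sX0_ x
  sKn := sKn_ x
  sXn := sXn_ x
  k1 := by
    show 0 ≤ (Cn.rt 1 10).v ∧ (Cn.rt 1 10).v ≤ 1 / 2
    rw [Cn.rt_v]
    constructor <;> norm_num
  kn := kn_ x
  tn := tn_ x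
  vK := vK_ x
  vX := vX_ x
  rK := rK_ x
  rX := rX_ x
  yb := by
    show 0 ≤ (Cn.rt 231 200).v ∧ 1 ≤ 3 / 4 * (Cn.rt 231 200).v ^ 2
    rw [Cn.rt_v]
    constructor <;> norm_num
  flat := flat_ x
  abk := abk_ x
  phk := ko_dt85 x
  ph := ph_ x
  sM := sM_ x
  yz := by
    show (Cn.rt 577 500).v ≤ (Cn.rt 577 500).v ∧ 0 ≤ (Cn.rt 577 500).v ∧ 1 ≤ 3 / 4 * (Cn.rt 577 500).v ^ 2 + (Cn.rt 1 10).v ^ 2
    simp only [Cn.rt_v]
    refine ⟨?_, ?_, ?_⟩ <;> norm_num
theorem okx {x : ℝ} (hx : ((991146299 : ℕ) : ℝ) / S ≤ x) (hx' : x ≤ (((991146299 : ℕ) : ℝ) + (28908434 : ℕ)) / S) : tt.Ok PP tK tL x := ok x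

end Pool.Agent.Strip051.G.I9231_9500.Tab.St
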