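import Pool.Agent.Strip051.G.I9231_9500.StH
import Pool.Agent.Strip051.G.I9231_9500.StF

/-! # Unit strips 1 (generated) -/

set_option linter.all false
set_option maxRecDepth 100000

namespace Pool.Agent.Strip051.G.I9231_9500.Tab.St.C

open Pool.Agent.Strip051.PB Pool.Agent.Strip051.PB.T Pool.Agent.StripNear Pool.Agent.Strip051.LC
open Pool.Agent.Strip051.G.I9231_9500.Tab Pool.Agent.Strip051.G.I9231_9500.Tab.St

noncomputable def cut_A00pp_022_s3 : Cut := Cut.of [[⟨3, 0, 0, 3113851289⟩], [⟨0, 0, 0, 26843545⟩, ⟨1, 1, 0, 26843545⟩, ⟨2, 1, 0, 26843545⟩]]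

noncomputable def xt_A00pp_022_s3 : Ext := strExt dd true true true .u0 .u2 .s2 .pp 0 2 2 rfl rfl gl2 vv ndB0q0 ndB0q2

noncomputable def f_A00pp_022_s3 : ℕ → ℕ → ℕ → ℕ → Bool := onCell 0 536870912 0 536870912 991146299 28908434
    (rowF 0 true true true .pp 0 2 2 (qsf 0 536870912 0 536870912 2) ndB0q0 ndB0q2 pcB2 cut_A00pp_022_s3 xt_A00pp_022_s3)

def k0_A00pp_022_s3 : ∃ t, chk3 f_A00pp_022_s3 t 2 2 1 = true :=
  ⟨(a (l 6) (b (l 6) (a (l 6) (b (l 6) (b (l 6) (b (l 6) (a (l 6) (a (l 6) (a (l 6) (b (l 6) (c (l 525482511) (l 522409999)))))))))))), by decide +kernel⟩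

def k1_A00pp_022_s3 : ∃ t, chk3 f_A00pp_022_s3 t 4 6 1 = true :=
  ⟨(b (l 6) (b (l 6) (a (l 6) (a (l 6) (a (b (l 6) (a (b (l 6) (c (l 532310543) (l 532125711))) (c (l 532361999) (b (l 532720143) (l 532631823))))) (a (a (b (l 6) (b (l 532202767) (l 532622351))) (b (c (l 532503567) (l 532025871)) (b (l 532221711) (l 532103695)))) (b (c (a (l 532284943) (l 532067599)) (a (l 531749135) (l 531473679))) (c (a (l 532258831) (l 532308751)) (b (l 531602959) (l 531512079)))))))))), by decide +kernel⟩

def k2_A00pp_022_s3 : ∃ t, chk3 f_A00pp_022_s3 t 20 6 1 = true :=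
  ⟨(b (l 6) (b (b (b (l 6) (a (l 6) (a (l 6) (c (l 530151439) (l 528952335))))) (b (a (l 6) (c (a (l 530638607) (l 530247951)) (a (l 529598991) (l 529100559)))) (a (a (l 6) (c (l 531148559) (l 530272783))) (c (a (l 530740495) (l 530347535)) (a (l 529753615) (l 529252623)))))) (a (a (b (c (a (l 531851279) (l 531635983)) (a (l 531199503) (l 530926607))) (c (a (l 532091151) (l 531874831)) (b (l 531053327) (l 530962191)))) (b (c (a (l 531421711) (l 531210511)) (b (l 530435599) (l 530603535))) (c (a (l 531659535) (l 531444751)) (b (l 530240015) (l 530148623))))) (a (a (b (c (l 531003151) (l 530124047)) (c (l 530960655) (b (l 530373647) (l 530542863)))) (b (c (l 530800655) (l 529866511)) (c (l 531024655) (b (l 530112527) (l 530283535))))) (a (b (c (l 530602511) (l 529614351)) (c (l 530822671) (l 529943055))) (b (c (l 530406415) (l 529633295)) (c (l 530624015) (b (l 529606671) (l 529773583))))))))), by decide +kernel⟩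

def k3_A00pp_022_s3 : ∃ t, chk3 f_A00pp_022_s3 t 21 6 1 = true :=
  ⟨(b (b (l 6) (b (l 6) (b (a (l 6) (a (l 6) (c (l 528432655) (l 526666511)))) (a (a (l 6) (c (l 529224207) (l 527712527))) (c (a (l 528864527) (l 528512783)) (a (l 527249935) (l 526797071))))))) (a (b (b (c (a (a (l 529820687) (l 529633295)) (a (l 529447951) (l 529264655))) (a (a (l 528516367) (l 528276239)) (a (l 528038671) (l 527803407)))) (c (a (a (l 530010383) (l 529820687)) (b (l 529491983) (l 529586959))) (a (a (l 528809743) (l 528567567)) (b (l 528134415) (l 528550159))))) (b (c (a (b (l 530063631) (l 530167055)) (b (a (l 529779215) (l 529591823)) (a (l 529880847) (l 529692175)))) (a (b (l 529184015) (a (l 529196047) (l 528950543))) (b (a (l 528552719) (l 528313359)) (a (l 528707599) (l 528467215))))) (c (a (a (l 530427407) (l 529964303)) (a (b (l 529985551) (l 530093583)) (b (l 529795599) (l 529902351)))) (a (a (b (l 529357583) (l 529522959)) (b (l 529110799) (l 529274895))) (b (a (l 528866575) (l 528624655)) (a (l 529029135) (l 528785679))))))) (b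 (c (c (b (a (l 529092367) (l 528761871)) (a (l 529247247) (a (l 529263887) (l 529098511)))) (b (a (l 528350223) (l 527971087)) (a (l 528689679) (b (l 528388111) (l 528625423))))) (c (b (a (l 527581199) (l 527151119)) (a (l 528039439) (b (l 527607055) (l 527467791)))) (b (a (l 526785551) (l 526303247)) (a (l 527364623) (b (l 526798863) (l 526686735)))))) (b (c (a (b (a (l 529406479) (l 529222927)) (a (l 529505551) (l 529320719))) (b (c (l 529031439) (l 528328719)) (c (l 529382927) (l 528437519)))) (a (b (a (l 528076559) (l 527842319)) (a (l 528229135) (l 527993359))) (b (c (l 527600143) (l 526846479)) (a (l 527760143) (l 527529231))))) (b (a (a (c (l 529607439) (l 528385039)) (c (l 529421583) (l 528147983))) (l 4)) (l 4)))))), by decide +kernel⟩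

def k4_A00pp_022_s3 : ∃ t, chk3 f_A00pp_022_s3 t 22 12 1 = true :=
  ⟨(b (b (l 6) (a (l 6) (c (a (l 526778383) (b (l 526833935) (l 526633999))) (a (b (l 6) (l 525016079)) (a (l 524386319) (l 524185615)))))) (a (a (b (b (l 6) (c (l 528014351) (l 526099471))) (c (b (l 528090895) (l 528169231)) (a (l 526399503) (l 526180623)))) (b (c (b (l 527608847) (l 527682575)) (a (l 525716239) (l 525235471))) (c (b (l 527757327) (l 527833871)) (b (l 525792783) (l 525919759))))) (c (b (a (b (l 527017999) (l 527090191)) (b (l 526703631) (l 526774287))) (a (b (l 527163151) (l 527237903)) (b (l 526845711) (l 526918415)))) (b (a (b (l 525130767) (l 525248527)) (b (l 524453135) (l 524569103))) (a (b (l 525370383) (l 525495311)) (b (b (l 524658447) (l 524719375)) (c (l 525620751) (l 524531727)))))))), by decide +kernel⟩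

def k5_A00pp_022_s3 : ∃ t, chk3 f_A00pp_022_s3 t 23 12 1 = true :=
  ⟨(b (b (a (a (l 6) (b (l 6) (c (l 526169359) (l 523344655)))) (c (a (b (l 525551631) (l 525613839)) (b (l 525274127) (l 525335055))) (a (a (l 523013135) (l 522828815)) (a (l 522646799) (l 522466831))))) (a (c (a (b (l 526261775) (l 526328847)) (b (l 525965583) (l 526031631))) (a (b (l 523834383) (l 523942671)) (a (l 523597839) (l 523406863)))) (c (a (b (l 525677327) (l 525742351)) (a (l 525230095) (l 525091855))) (a (a (l 523218447) (l 523032591)) (a (b (l 523065871) (l 523169039)) (c (l 523626511) (l 522235407))))))) (c (a (b (a (b (l 526397199) (l 526466575)) (b (l 526098703) (l 526166799))) (a (b (l 526536463) (l 526607375)) (b (b (l 526217999) (l 526252047)) (b (l 526286607) (l 526321679))))) (b (a (b (l 525808399) (b (l 525858319) (l 525891855))) (b (a (l 525863695) (l 525724175)) (a (l 525393167) (c (l 526408719) (l 525158671))))) (a (b (b (l 525925391) (l 525958671)) (b (l 525992207) (l 526026255))) (b (b (c (l 526516751) (l 525292047)) (l 525405199))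 (a (l 525525263) (l 4)))))) (a (b (a (b (l 524187663) (c (l 525025551) (l 523837199))) (b (c (l 524556559) (l 523298063)) (a (l 524141327) (l 523679503)))) (a (b (b (l 524255503) (l 524315663)) (c (l 525239823) (l 524102159))) (b (a (l 523989519) (l 523795215)) (a (l 524109583) (l 523914255))))) (b (a (b (c (l 524199695) (l 522895119)) (a (l 523219983) (l 523031567))) (b (a (l 522737679) (l 522555663)) (a (l 522979855) (c (l 523864079) (l 522525711))))) (a (b (b (c (l 524374543) (l 523109647)) (c (l 524426511) (l 523174415))) (a (l 523587087) (l 523463695))) (b (b (a (l 522929167) (l 522878479)) (c (l 524074511) (l 522776079))) (a (c (l 524239631) (l 522972175)) (l 4)))))))), by decide +kernel⟩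

def k6_A00pp_022_s3 : ∃ t, chk3 f_A00pp_022_s3 t 11 13 1 = true :=
  ⟨(b (b (a (a (c (a (a (l 528377871) (l 527938063)) (b (l 527912463) (l 527993359))) (a (a (l 526663439) (l 526442767)) (b (l 526049295) (l 526265359)))) (c (a (b (l 527314703) (l 527527695)) (b (l 526993167) (b (l 527050511) (l 527089423)))) (a (a (c (l 526284559) (l 525296399)) (c (l 526085647) (l 525072655))) (a (c (l 525889039) (l 524851471)) (b (l 525103887) (l 524963087)))))) (b (a (c (a (b (l 526661647) (l 526698511)) (a (l 526450703) (l 526031631))) (a (a (l 524900367) (l 524430863)) (a (l 524231951) (l 524035855)))) (a (a (a (c (l 526457103) (l 524158479)) (l 4)) (l 4)) (l 4))) (a (a (c (a (l 526832911) (l 526408975)) (a (l 524758543) (l 524556559))) (a (a (c (l 526830351) (l 524674831)) (l 4)) (l 4))) (l 4)))) (a (b (a (c (a (a (l 528505359) (l 528332303)) (b (l 527787023) (l 527829263))) (a (c (l 527451407) (l 526054927)) (b (l 526282511) (l 526350607)))) (c (a (b (l 527453967) (l 527494927)) (a (l 527498255) (l 527068943))) (a (a (l 525993231)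 (l 525511951)) (a (l 525301519) (l 525093647))))) (a (c (a (a (l 528325391) (l 528419855)) (b (l 527872015) (l 528049679))) (a (a (l 526741007) (l 526785807)) (a (l 526564623) (l 526077455)))) (a (a (c (l 527909903) (l 525861135)) (c (l 527475471) (l 525647119))) (l 4)))) (l 4))) (b (a (a (a (a (c (b (c (l 529051151) (l 528312335)) (l 528711951)) (b (c (l 527546383) (l 526753807)) (c (l 527680015) (l 526915087)))) (b (c (b (l 528486927) (l 528264207)) (b (l 526892303) (l 526696207))) (l 4))) (a (b (b (c (l 528313871) (l 526670351)) (l 4)) (l 4)) (l 4))) (l 4)) (l 4)) (l 4))), by decide +kernel⟩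

def k7_A00pp_022_s3 : ∃ t, chk3 f_A00pp_022_s3 t 8 28 1 = true :=
  ⟨(a (l 6) (a (l 6) (a (l 6) (b (l 6) (b (l 6) (a (b (l 6) (c (a (l 528748303) (l 528889615)) (a (c (l 528111631) (l 527672079)) (l 528068623)))) (a (b (l 6) (c (l 529033487) (l 528246799))) (c (l 529517839) (b (l 528598287) (l 528428047)))))))))), by decide +kernel⟩

def k8_A00pp_022_s3 : ∃ t, chk3 f_A00pp_022_s3 t 16 58 2 = true :=
  ⟨(l 6), by decide +kernel⟩

def k9_A00pp_022_s3 : ∃ t, chk3 f_A00pp_022_s3 t 32 59 2 = true :=
  ⟨(l 6), by decide +kernel⟩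

def k10_A00pp_022_s3 : ∃ t, chk3 f_A00pp_022_s3 t 33 118 2 = true :=
  ⟨(a (l 6) (a (b (l 6) (b (l 6) (a (l 6) (a (c (l 16598056) (l 16585360)) (c (l 16601280) (l 16588896)))))) (b (a (l 6) (a (l 6) (a (l 6) (b (l 6) (l 526425103))))) (a (b (a (l 6) (a (l 526255119) (l 526278415))) (a (a (l 526153743) (l 526177295)) (a (l 526200847) (l 526224399)))) (a (a (b (l 526301711) (l 526515983)) (b (l 526325007) (l 526539535))) (a (b (l 526348047) (l 526562575)) (b (l 526371087) (l 526585871)))))))), by decide +kernel⟩

def k11_A00pp_022_s3 : ∃ t, chk3 f_A00pp_022_s3 t 33 119 2 = true :=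
  ⟨(a (a (b (l 6) (b (a (l 6) (a (l 6) (c (l 16602312) (l 16577968)))) (a (a (c (l 16597920) (l 16572960)) (c (l 16601360) (l 16576744))) (a (c (l 16604768) (l 16580496)) (c (l 16587176) (l 16584216)))))) (b (b (l 6) (a (a (l 6) (c (l 16582320) (l 16579224))) (a (c (l 16596136) (l 16582880)) (c (l 16599440) (l 16586512))))) (c (a (c (l 16603008) (b (l 16604056) (l 16609976))) (a (b (l 16601856) (l 16607656)) (c (l 16621552) (l 16604984)))) (a (a (c (l 16588152) (l 16581392)) (c (l 16591728) (l 16585144))) (a (c (l 16595288) (l 16588864)) (c (l 16598808) (l 16592552))))))) (a (a (a (b (a (b (l 525908239) (l 525852943)) (b (l 525932303) (l 525877263))) (a (b (l 525797903) (l 526011919)) (a (l 526057487) (l 526069775)))) (b (a (b (l 525956367) (l 525901327)) (b (l 525980431) (l 525925647))) (a (l 526087951) (l 526112527)))) (a (b (a (b (l 526004239) (l 525949711)) (b (l 526028047) (l 525973775))) (a (l 526136847) (l 526161167))) (b (a (a (l 526287119) (l 526299151)) (a (l 526311183) (l 526322959))) (a (l 526185487) (l 526209807)))))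 (a (a (b (a (l 526273807) (l 526364687)) (a (l 526234127) (l 526258191))) (b (a (l 526388239) (l 526412047)) (a (l 526282255) (l 526306319)))) (a (b (a (l 526435599) (l 526459151)) (a (l 526330383) (l 526354447))) (b (a (l 526482703) (l 526505999)) (a (l 526378255) (l 526402063))))))), by decide +kernel⟩

def k12_A00pp_022_s3 : ∃ t, chk3 f_A00pp_022_s3 t 136 29 2 = true :=
  ⟨(b (l 6) (a (b (b (b (l 6) (a (a (l 526447887) (l 526470927)) (a (l 526493711) (l 526516495)))) (a (a (b (l 526394127) (l 526877455)) (a (l 526384399) (l 526395919))) (a (a (l 526407439) (l 526418959)) (a (l 526430223) (l 526441743))))) (a (b (a (l 526529551) (l 526552847)) (a (l 526425871) (l 526449679))) (b (a (l 526575887) (l 526599183)) (a (l 526473231) (l 526496783))))) (b (a (b (a (b (l 526727951) (l 526539279)) (b (l 526751247) (l 526562063))) (a (a (l 526453263) (l 526464527)) (a (l 526475791) (l 526487311)))) (b (a (b (l 526774287) (l 526719247)) (b (l 526797583) (l 526742287))) (a (a (l 526498575) (l 526509839)) (b (l 526822159) (l 527037455)))))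 (a (b (a (l 526622223) (l 526645263)) (a (l 526520335) (l 526543887))) (b (a (l 526668303) (l 526691087)) (a (l 526567183) (l 526590479))))))), by decide +kernel⟩

def k13_A00pp_022_s3 : ∃ t, chk3 f_A00pp_022_s3 t 137 29 2 = true :=
  ⟨(b (b (l 6) (b (l 6) (b (a (l 6) (a (l 6) (a (l 527080207) (l 527105039)))) (a (a (a (l 6) (l 526901263)) (a (l 526925071) (l 526948879))) (a (a (l 526972943) (l 526997263)) (a (l 527021583) (l 527046159))))))) (b (a (a (b (a (b (l 526821135) (l 526765583)) (b (l 526844431) (l 526788879))) (a (b (l 526845199) (l 527060239)) (b (l 527136527) (l 527083023)))) (b (a (b (l 526868239) (l 526812175)) (b (l 526891791) (l 526835727))) (a (b (l 527159823) (l 527105807)) (b (l 527182863) (l 527128847))))) (a (b (a (b (l 526915599) (l 526859279)) (b (l 526939663) (l 526882831))) (a (c (l 527502863) (l 526850063)) (l 526866703))) (a (b (c (l 527650575) (l 527020047)) (l 526889999)) (b (c (l 527672847) (l 527046159)) (l 526980879))))) (a (a (b (a (l 526713871) (l 526736655)) (b (l 526649871) (l 526600975)))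 (b (b (l 526796047) (l 526745359)) (b (l 526695695) (l 526647311)))) (a (b (b (l 526841871) (l 526790415)) (b (l 526741263) (l 526693391))) (b (b (l 526753807) (l 526567695)) (b (l 526518031) (l 526738959))))))), by decide +kernel⟩

def k14_A00pp_022_s3 : ∃ t, chk3 f_A00pp_022_s3 t 138 29 2 = true :=
  ⟨(b (b (l 6) (b (b (l 6) (a (l 6) (a (c (l 16617008) (l 527415311)) (c (l 16620048) (l 527471631))))) (a (a (b (a (l 527129871) (l 527154959)) (a (l 527070735) (l 527095567))) (b (a (l 527180047) (l 527205647)) (a (l 527120655) (l 527145743)))) (a (b (c (l 527937807) (l 16617472)) (c (l 16631832) (l 527286799))) (b (c (l 527985935) (l 16620760)) (c (l 16634824) (l 527341839))))))) (b (a (a (a (b (c (l 527695119) (l 527072271)) (l 527004431)) (b (c (l 527717647) (l 527098639)) (c (l 527611407) (l 526977551)))) (b (b (c (l 16633776) (l 527169551)) (c (l 16638800) (l 527107343))) (b (a (l 526812175) (l 526836495)) (a (l 526756367) (l 526780175))))) (a (b (b (c (l 16636752) (l 527223311)) (c (l 16641744) (l 527160847))) (b (c (l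 527716367) (l 527099151)) (c (l 527663375) (l 527038735)))) (b (b (c (l 16639712) (l 527277839)) (c (l 16644680) (l 527214863))) (b (c (l 527762191) (l 527152655)) (c (l 527708687) (l 527091727)))))) (a (b (a (b (l 526800399) (l 526614031)) (b (l 526847759) (l 526660623))) (a (b (l 526563599) (l 526515983)) (b (l 526609935) (l 526561807)))) (b (a (b (l 526761231) (l 526707983)) (a (l 527038991) (l 527063311))) (a (b (l 526656783) (l 526608143)) (b (l 526704143) (l 526655247))))))), by decide +kernel⟩

def k15_A00pp_022_s3 : ∃ t, chk3 f_A00pp_022_s3 t 139 29 2 = true :=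
  ⟨(b (b (a (l 6) (a (l 6) (b (l 6) (a (l 527855631) (l 527884815))))) (a (a (b (b (c (l 16618464) (l 527595023)) (c (l 16623080) (l 16619088))) (b (c (l 16633024) (l 16624032)) (c (l 16637800) (l 527397903)))) (b (b (c (l 16621512) (l 527653647)) (c (l 16626104) (l 16622376))) (b (c (l 16636016) (l 16627288)) (c (l 16640768) (l 527454735))))) (a (c (b (l 528224271) (l 528105999)) (b (c (l 16625480) (l 16621000)) (b (l 16630528) (l 527512847)))) (b (b (l 527639823) (l 527575823)) (b (l 527512335) (l 527449103)))))) (b (a (b (a (b (c (l 16642664) (l 527333391)) (c (l 527864079) (l 527269647))) (b (c (l 16645600) (l 527389711)) (c (l 527912207) (l 527325455)))) (a (b (c (l 527808783) (l 527206927)) (c (l 527754767) (l 527145231))) (b (c (l 527856399) (l 527261967)) (c (l 527801871) (l 527199759))))) (b (a (c (l 527989775) (a (l 527399951) (l 527428879))) (b (l 527386639) (l 527324943))) (a (b (c (l 527905039) (l 527318031)) (l 527152143)) (b (l 527264271) (l 527204879))))) (a (b (a (a (l 527087887) (l 527112463)) (b (l 527110671)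 (l 526854159))) (a (b (l 526752527) (l 526702863)) (b (l 526801423) (l 526751503)))) (b (a (b (l 527094543) (l 527038991)) (b (l 527146767) (l 527090447))) (a (b (l 526851343) (l 526800911)) (a (l 527132175) (l 527157775))))))), by decide +kernel⟩

def k16_A00pp_022_s3 : ∃ t, chk3 f_A00pp_022_s3 t 70 29 2 = true :=
  ⟨(b (b (a (b (l 6) (a (a (c (l 528452367) (l 527938063)) (c (l 528507919) (l 528001551))) (a (c (l 528565007) (l 528066575)) (l 528111375)))) (a (a (b (l 528308239) (l 528174863)) (b (l 528374031) (l 528240143))) (a (a (l 528356879) (l 528390415)) (l 528374031)))) (b (a (a (a (b (l 527697423) (l 527632911)) (b (l 527622159) (l 527557135))) (a (c (l 528441359) (l 527927567)) (c (l 528498703) (l 527992847)))) (a (a (l 528041999) (l 528106255)) (a (l 528172047) (l 528238351)))) (a (a (a (b (l 527568911) (l 527505423)) (b (l 527492623) (l 527428367))) (a (b (l 527551759) (l 527487247)) (c (l 528375055) (l 527854095)))) (a (a (c (l 528432911) (l 527919887)) (l 527973391)) (a (l 528038159) (l 528103951)))))) (a (b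 (a (b (a (b (l 527442191) (l 527379983)) (b (l 527364879) (l 527436303))) (a (b (l 527318799) (l 527258639)) (b (l 527240207) (l 527179535)))) (b (a (b (l 527422991) (l 527359759)) (b (l 527482639) (l 527418639))) (a (b (l 527297295) (l 527236111)) (b (l 527355663) (l 527293967))))) (a (b (a (b (l 527200015) (l 527009039)) (b (l 527120399) (l 527063055))) (a (a (l 527183887) (l 527209999)) (l 527249935))) (b (a (b (l 527176207) (l 527118607)) (b (l 527233807) (l 527175439))) (a (l 527304719) (b (l 527119631) (l 527067151)))))) (b (a (b (a (b (l 527543567) (l 527479311)) (l 527842319)) (a (b (l 527415823) (l 527353615)) (l 527647503))) (b (a (l 527906319) (l 527971343)) (a (l 527778063) (l 527842063)))) (a (b (a (b (l 527292943) (l 527234319)) (l 527525647)) (a (a (l 527404815) (l 527434511)) (l 527479823))) (b (a (l 527655439) (l 527718671)) (a (l 527542287) (l 527605263))))))), by decide +kernel⟩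

def k17_A00pp_022_s3 : ∃ t, chk3 f_A00pp_022_s3 t 71 29 2 = true :=
  ⟨(a (a (a (b (b (l 528509455) (b (l 528305679) (l 528170255))) (b (b (l 528036879) (l 527906831)) (b (l 527782671) (l 527668751)))) (b (b (l 528578319) (b (l 528373263) (l 528237071))) (b (b (l 528102927) (l 527972111)) (b (l 527847183) (l 527732751))))) (b (b (a (l 528647951) (l 528718095)) (c (l 528631311) (l 528178447))) (b (b (a (l 528169487) (l 528236815)) (a (l 528037903) (l 528104207))) (b (a (l 527912207) (l 527977743)) (a (l 527797263) (l 527862287)))))) (b (b (a (c (l 529025807) (l 528620559)) (l 528835087)) (a (c (l 528761871) (l 528325647)) (c (l 528895247) (l 528475151)))) (b (a (c (l 528502799) (b (l 528375567) (l 528233743))) (c (l 528632079) (l 528180751))) (a (b (b (l 528108047) (l 528046607)) (a (l 527927823) (l 527993871))) (b (l 528211215) (l 528093455)))))), by decide +kernel⟩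

def k18_A00pp_022_s3 : ∃ t, chk3 f_A00pp_022_s3 t 16 58 3 = true :=
  ⟨(l 6), by decide +kernel⟩

def k19_A00pp_022_s3 : ∃ t, chk3 f_A00pp_022_s3 t 32 59 3 = true :=
  ⟨(l 6), by decide +kernel⟩

def k20_A00pp_022_s3 : ∃ t, chk3 f_A00pp_022_s3 t 33 118 3 = true :=
  ⟨(a (l 6) (a (b (l 6) (b (l 6) (a (l 6) (c (c (l 16577496) (l 16570952)) (c (l 16564320) (l 16557600)))))) (b (a (l 6) (a (l 6) (a (l 6) (b (l 6) (c (l 16580152) (l 525174031)))))) (b (a (a (l 6) (a (c (l 16576728) (l 16563840)) (l 525097231))) (a (a (l 525128207) (l 525159183)) (a (l 525173263) (l 525203983)))) (a (a (a (l 524917263) (l 524948495)) (a (l 524979727) (l 525010959))) (a (a (l 525042191) (l 525073167)) (a (l 525104143) (l 525135119)))))))), by decide +kernel⟩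

def k21_A00pp_022_s3 : ∃ t, chk3 f_A00pp_022_s3 t 33 238 3 = true :=
  ⟨(a (a (l 6) (b (l 6) (c (a (a (l 6) (l 16565248)) (c (l 16574640) (l 16567808))) (a (c (l 16552368) (l 16545000)) (c (l 16560888) (l 16553872)))))) (b (a (c (a (c (l 16576056) (l 16569368)) (c (l 16583648) (l 16577296))) (a (c (l 16562592) (l 16555720)) (c (l 16570848) (l 16564320)))) (a (a (a (l 524847631) (l 524879119)) (a (l 524910607) (l 524941839))) (a (a (l 524973327) (l 525004559)) (a (l 525035535) (l 525066767))))) (a (a (a (a (l 524522767) (l 524555023)) (a (l 524587023) (l 524619023))) (a (a (l 524651023) (l 524683023)) (a (l 524714767) (l 524746767)))) (a (a (a (l 524778511) (l 524809999)) (a (l 524841743) (l 524873231))) (a (a (l 524904719) (l 524936207)) (a (l 524967439) (l 525267215))))))), by decide +kernel⟩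

def k22_A00pp_022_s3 : ∃ t, chk3 f_A00pp_022_s3 t 33 239 3 = true :=
  ⟨(a (a (b (a (l 6) (a (l 6) (c (l 16563712) (l 16549056)))) (a (a (c (l 16558072) (l 16542760)) (c (l 16562208) (l 16547264))) (a (c (l 16566304) (l 16551720)) (c (l 16570376) (l 16556144))))) (c (a (a (c (l 16574536) (l 16567584)) (c (l 16578456) (l 16571680))) (a (c (l 16582344) (l 16575736)) (c (l 16586200) (l 16579760)))) (b (a (c (l 16559216) (l 16552056)) (c (l 16567696) (l 16560888))) (a (c (l 16566168) (l 16559224)) (c (l 16574600) (l 16568008)))))) (a (a (a (a (b (l 524452367) (l 524382223)) (b (l 524484623) (l 524414735))) (a (b (l 524517135) (l 524447503)) (b (l 524549391) (l 524479759)))) (a (a (b (l 524581391) (l 524512271)) (b (l 524613647) (l 524544783))) (a (b (l 524645647) (l 524577039)) (b (l 524677647) (l 524877583))))) (a (a (a (b (l 524709647) (l 524909839)) (b (l 524741391) (l 524942095))) (a (a (l 524731407) (l 524747279)) (a (l 524763151) (l 524779279)))) (a (a (a (l 524795151) (l 524811023)) (a (l 524826895) (l 524842767))) (a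 (a (l 524858639) (l 524874511)) (a (l 524890383) (l 524905999))))))), by decide +kernel⟩

def k23_A00pp_022_s3 : ∃ t, chk3 f_A00pp_022_s3 t 136 29 3 = true :=
  ⟨(b (l 6) (b (b (c (c (a (c (l 16591592) (l 16588608)) (c (l 16598728) (a (l 16599320) (l 16602944)))) (a (c (l 16585600) (l 16582576)) (a (b (l 16592040) (l 16597936)) (b (l 16595792) (l 16601656))))) (b (a (l 6) (c (a (l 16586096) (l 16590000)) (l 16576864))) (a (c (a (l 16584328) (l 16588256)) (l 16574960)) (c (l 16588848) (l 16583072))))) (a (a (a (b (l 525234703) (l 525166095)) (b (l 525265423) (l 525196815))) (a (b (l 525295887) (l 525227535)) (b (l 525326351) (l 525257999)))) (a (a (b (l 525356815) (l 525288719)) (b (l 525387279) (l 525319183))) (a (b (l 525417487) (l 525349391)) (b (l 525448207) (l 525379855)))))) (a (a (b (a (b (l 525097743) (l 525298447)) (b (l 525128719) (l 525329679))) (a (a (l 524921871) (l 524937487)) (a (l 524953359) (l 524968975)))) (b (a (b (l 525159439) (l 525360655)) (b (l 525190415) (l 525391631))) (a (a (l 524984847) (l 525000463))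 (a (l 525016079) (l 525031695))))) (a (b (a (b (l 525220879) (l 525422607)) (b (l 525251599) (l 525453327))) (a (a (l 525047311) (l 525062927)) (a (l 525078543) (l 525094159)))) (b (a (b (l 525282063) (l 525484047)) (b (l 525312527) (l 525514767))) (a (c (l 525755919) (l 525010703)) (c (l 525785103) (l 525043727)))))))), by decide +kernel⟩

def k24_A00pp_022_s3 : ∃ t, chk3 f_A00pp_022_s3 t 137 29 3 = true :=
  ⟨(b (b (l 6) (b (l 6) (b (a (l 6) (a (l 6) (a (c (l 526545167) (l 525897999)) (c (l 526575887) (l 525932559))))) (b (a (l 6) (c (c (l 16596560) (l 16591192)) (c (l 16585744) (l 16580216)))) (c (a (c (l 16592184) (l 16586584)) (c (l 16599288) (l 16593992))) (a (c (l 16580912) (l 16575160)) (c (l 16588616) (l 16583168)))))))) (b (a (a (b (a (c (b (l 526228751) (l 526161935)) (c (l 16590656) (l 16584984))) (c (c (l 526392847) (l 16598096)) (c (l 16592576) (l 16586984)))) (a (b (l 525478671) (l 525410063)) (b (l 525509391) (l 525440527)))) (b (a (c (c (l 526421263) (l 16599944)) (b (l 16588736) (l 16594776))) (c (c (l 526449423)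 (l 16601776)) (b (l 16590688) (l 16596720)))) (a (b (l 525540111) (l 525471247)) (b (l 525571087) (l 525501711))))) (c (a (b (a (c (l 16608832) (l 16603608)) (c (l 16610584) (l 16605432))) (a (l 526178319) (l 526207503))) (b (a (b (l 526405903) (l 16612648)) (l 526334223)) (a (l 526236687) (l 526265871)))) (a (b (a (b (l 16592640) (l 16598648)) (b (l 16594584) (l 525633039))) (a (l 525487887) (l 525520911))) (b (a (b (l 16596520) (l 525666575)) (b (l 525776911) (l 525700367))) (a (l 525553935) (l 525587215)))))) (a (c (a (b (a (l 525936655) (l 525965071)) (a (l 525814031) (l 525842703))) (b (a (l 525993231) (l 526021647)) (a (l 525871631) (l 525900303)))) (a (b (a (l 525214735) (l 525246991)) (a (l 525076751) (l 525109519))) (b (a (l 525279247) (l 525311503)) (a (l 525142287) (l 525174799))))) (a (b (b (a (l 525464591) (l 525495055)) (b (l 525446415) (l 525397007))) (b (b (l 525364751) (l 525333263)) (l 525319951))) (b (b (a (l 525525775) (l 525556751)) (b (l 525490703) (l 525457935))) (b (b (l 525425423) (l 525393679)) (l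 525380879))))))), by decide +kernel⟩

def k25_A00pp_022_s3 : ∃ t, chk3 f_A00pp_022_s3 t 138 29 3 = true :=
  ⟨(b (b (l 6) (b (b (l 6) (a (l 6) (c (a (b (l 6) (l 16598472)) (l 526883087)) (c (l 16596584) (l 16591416))))) (c (a (a (a (b (l 526606351) (l 526535951)) (l 526601743)) (a (l 526632719) (l 526663695))) (a (a (l 526694927) (l 526726415)) (a (l 526758159) (l 526789903)))) (a (a (a (b (l 525967119) (l 16594552)) (b (l 526001935) (l 16596488))) (a (b (l 16592736) (l 16598416)) (l 526032399))) (a (a (l 526067727) (l 526103311)) (a (l 526138895) (l 526174735))))))) (b (a (c (a (b (a (l 526431247) (l 526461455)) (a (l 526295311) (l 526325007))) (b (a (l 526491919) (l 526522383)) (a (l 526354703) (l 526384655)))) (a (b (a (b (l 525810959) (l 525734159)) (b (l 525845263) (l 525768207))) (a (l 525620495) (l 525654031))) (b (a (l 525975055) (l 525875215)) (a (l 525687823) (l 525721871))))) (c (a (b (a (l 526553103) (l 526583823)) (a (l 526414863) (l 526445071))) (b (a (l 526614799) (l 526646287)) (a (l 526475535) (l 526506255))))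 (a (b (a (l 525909775) (l 525944847)) (a (l 525755919) (l 525789967))) (b (a (l 525979919) (l 526014991)) (a (l 525824527) (l 525859087)))))) (a (b (c (a (a (l 526165007) (l 526193935)) (a (l 526223119) (l 526252559))) (a (a (l 525474575) (l 525507599)) (a (l 525540623) (l 525573903)))) (a (b (b (l 525486607) (l 525454607)) (l 525441551)) (b (b (l 525548303) (l 525516047)) (l 525468943)))) (b (a (b (c (l 526329615) (l 525660687)) (b (l 525677327) (l 525643791))) (a (c (l 526341647) (l 525675023)) (c (l 526371599) (l 525709071)))) (a (b (b (l 525610511) (l 525577999)) (l 525530639)) (b (b (l 525673487) (l 525640719)) (l 525593103))))))), by decide +kernel⟩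

def k26_A00pp_022_s3 : ∃ t, chk3 f_A00pp_022_s3 t 139 29 3 = true :=
  ⟨(b (b (a (l 6) (a (l 6) (b (l 6) (b (l 6) (a (l 526737423) (l 526774287)))))) (a (a (b (a (c (l 526968591) (l 526373391)) (c (l 527001615) (l 526410511))) (b (c (l 526874639) (l 526269711)) (c (l 526801679) (l 526188559)))) (b (a (c (l 527034639) (l 526447631)) (c (l 527067919) (l 526485007))) (b (c (l 526940175) (l 526343183)) (c (l 526866447) (l 526261519))))) (a (b (b (c (l 527155983) (l 526583311)) (c (l 527080975) (l 526500367))) (b (c (l 527006479) (l 526417679)) (c (l 526932239) (l 526335503)))) (b (b (c (l 527224591) (l 526660111)) (c (l 527149071) (l 526576399))) (b (c (l 527073807) (l 526493199)) (c (l 526999055) (l 526410511))))))) (b (a (a (b (b (c (l 526729487) (l 526108431)) (c (l 526657807) (l 526028815))) (b (c (l 526587407) (l 525950479)) (c (l 526518031) (l 525873167)))) (b (b (c (l 526793487) (l 526180623)) (c (l 526721551) (l 526100495))) (b (c (l 526650383) (l 526021391)) (c (l 526580495) (l 525943567))))) (b (a (b (c (l 526858767)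 (l 526253839)) (c (l 526786063) (l 526173199))) (b (c (l 526925071) (l 526328335)) (c (l 526851599) (l 526246927)))) (a (b (c (l 526714383) (l 526093327)) (c (l 526643727) (l 526014991))) (b (c (l 526779407) (l 526166543)) (c (l 526708239) (l 526087439)))))) (a (b (a (b (c (l 526450447) (l 525797647)) (c (l 526384399) (l 525723919))) (b (c (l 526512143) (l 525867279)) (c (l 526445583) (l 525793039)))) (a (b (l 525754127) (l 525656079)) (b (l 525818639) (l 525720079)))) (b (a (b (c (l 526574863) (l 525937935)) (c (l 526507791) (l 525863183))) (b (c (l 526638607) (l 526009871)) (c (l 526571023) (l 525934351)))) (a (b (l 525850639) (l 525785103)) (b (l 525917455) (l 525851407))))))), by decide +kernel⟩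

def k27_A00pp_022_s3 : ∃ t, chk3 f_A00pp_022_s3 t 70 58 3 = true :=
  ⟨(b (b (a (l 6) (a (a (l 527346447) (l 527429135)) (a (l 527513103) (l 527597839)))) (a (a (a (b (l 6) (c (l 527370767) (l 526822415))) (c (l 527480591) (l 526944527))) (a (c (l 527553551) (l 527025935)) (b (l 527142927) (l 527094543)))) (a (a (c (l 527703823) (l 527193103)) (l 527263503)) (a (l 527346703) (l 527430671))))) (a (c (a (a (b (c (l 16623400) (l 527117583)) (a (l 527087631) (l 527121935))) (b (c (l 16626840) (l 527190287)) (a (l 527156751) (l 527191823)))) (a (b (l 527398927) (l 527110927)) (b (l 527472399) (l 527317519)))) (a (a (b (a (l 526676495) (l 526715663)) (a (l 526509071) (l 526547727))) (b (a (l 526755087) (l 526794767)) (a (l 526586639) (l 526625807)))) (a (b (a (l 526834959) (l 526875663)) (a (l 526665487) (l 526705423))) (b (l 526937103) (l 526766095))))) (a (c (a (b (l 527547151) (l 527391503)) (b (l 527623951) (l 527467279))) (a (b (l 527020559) (l 526848527)) (l 526783503))) (c (a (b (l 527702031) (l 527544591)) (b (l 527780879)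 (l 527622671))) (a (l 526836239) (l 526923279)))))), by decide +kernel⟩

def k28_A00pp_022_s3 : ∃ t, chk3 f_A00pp_022_s3 t 70 59 3 = true :=
  ⟨(a (b (c (a (a (b (a (l 526938383) (l 526972431)) (b (l 526845455) (l 526773775))) (b (a (l 527006479) (l 527041039)) (b (l 526913039) (l 526840847)))) (b (a (a (l 527076111) (l 527111183)) (l 527164943)) (a (b (l 526982159) (l 526909199)) (l 527015695)))) (a (a (b (a (l 526343695) (l 526381839)) (b (l 526241039) (l 526161167))) (b (a (l 526420239) (l 526458895)) (b (l 526316559) (l 526236175)))) (a (b (a (l 526497807) (l 526537231)) (b (l 526393871) (l 526312975))) (b (l 526588687) (b (l 526472719) (l 526391311)))))) (a (b (a (b (c (l 526703631) (l 526083087)) (c (l 526635535) (l 526006799))) (b (c (l 526769935) (l 526157583)) (c (l 526701327) (l 526080783)))) (a (b (c (l 526569743) (l 525933327)) (l 525918735)) (a (l 526070287) (l 526105103)))) (b (c (a (b (l 526837775) (l 526768655)) (l 526872079)) (a (b (l 526233615) (l 526156303)) (b (l 526311439) (l 526233615)))) (a (a (l 526073359)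 (l 526109199)) (b (l 526231567) (l 526130191)))))) (b (a (b (a (b (l 526765583) (l 526685455)) (c (l 527312655) (l 526761743))) (a (b (l 526606095) (l 526528271)) (b (l 526650895) (l 526572559)))) (b (a (c (l 527389199) (l 526846735)) (c (l 527466511) (l 526932495))) (a (b (l 526731023) (l 526652175)) (c (l 527313423) (l 526763279))))) (a (b (a (b (l 526451983) (l 526344207)) (b (l 526495759) (l 526421263))) (a (b (l 526272527) (l 526204431)) (b (l 526349327) (l 526281231)))) (b (a (b (l 526575119) (l 526500111)) (b (l 526655247) (l 526579983))) (a (b (l 526428175) (l 526359823)) (c (l 527030287) (l 526448143))))))), by decide +kernel⟩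

def k29_A00pp_022_s3 : ∃ t, chk3 f_A00pp_022_s3 t 71 29 3 = true :=
  ⟨(b (b (b (a (a (b (l 527768079) (l 527684111)) (l 528033807)) (a (l 528076559) (l 528256271))) (a (a (a (l 527515407) (l 527869199)) (l 527864079)) (a (l 527905039) (l 528083215)))) (a (b (a (a (l 527347471) (l 527432207)) (b (l 527602703) (l 527517711))) (a (a (l 527314447) (l 527264015)) (a (l 527348239) (l 527433487)))) (a (c (l 527876367) (b (l 527773455) (l 527325199))) (c (l 528043023) (l 527598607))))) (a (b (a (b (a (l 527149071) (l 527097615)) (a (c (l 527390479) (l 526848783)) (l 527002127))) (b (a (l 527181071) (l 527265039)) (a (l 527017487) (l 527100431)))) (a (b (a (c (l 527243023) (l 526685199)) (l 526879247)) (a (c (l 527106063) (l 526532367)) (l 526700559))) (b (a (l 526860047) (l 526942223)) (a (l 526714383) (l 526796047))))) (b (a (b (a (l 527349775) (l 527435279)) (a (l 527184143) (l 527268623))) (c (l 527716367) (a (l 527193615) (l 527284239)))) (a (b (a (l 527025167) (l 527108367)) (a (l 526878223) (l 526960655))) (b (a (l 527192335)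 (l 527276815)) (a (l 527043855) (l 527127567))))))), by decide +kernel⟩

def k30_A00pp_022_s3 : ∃ t, chk3 f_A00pp_022_s3 t 16 240 2 = true :=
  ⟨(a (a (l 6) (a (b (l 6) (a (l 6) (a (l 6) (c (l 16592376) (l 16556016))))) (c (a (c (l 16587880) (l 16580456)) (c (l 16594696) (l 16587616))) (a (a (b (l 6) (l 16559920)) (b (l 16557352) (l 16563792))) (a (b (l 16571696) (l 16578120)) (b (l 16575528) (l 16581936))))))) (a (a (c (c (a (l 16601408) (a (l 16616864) (l 16620152))) (a (b (l 16602144) (l 16608200)) (b (l 16609104) (l 16615136)))) (a (a (b (l 16579320) (l 16585712)) (b (l 16583088) (l 16589464))) (a (c (l 16593312) (l 16586640)) (c (l 16596928) (l 16590416))))) (a (a (a (a (l 525721103) (l 525733647)) (a (l 525746447) (l 525758991))) (a (a (l 525771791) (l 525784335)) (b (l 525832207) (l 525773327)))) (a (a (b (l 525857295) (l 525798671)) (l 525853455)) (a (l 525878543) (l 525903631))))) (a (a (a (a (l 525928719) (l 525953807)) (a (l 525978895) (l 526003727))) (a (a (l 526028559) (l 526053391)) (a (l 526078223) (l 526103055))))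 (a (a (a (l 526127887) (l 526152463)) (a (l 526177295) (l 526201871))) (a (a (l 526226447) (l 526250767)) (a (l 526275343) (l 526299663))))))), by decide +kernel⟩

def k31_A00pp_022_s3 : ∃ t, chk3 f_A00pp_022_s3 t 16 241 2 = true :=
  ⟨(a (a (b (l 6) (a (l 6) (a (l 6) (c (l 16577816) (c (l 16576256) (l 16568088)))))) (a (c (a (c (l 16585856) (l 16578160)) (c (l 16592832) (l 16585496))) (c (a (l 16570360) (l 16578056)) (a (c (l 16574920) (l 16570936)) (b (l 16577680) (l 16584320))))) (c (a (c (l 16599704) (l 16592720)) (c (l 16606472) (a (l 16608552) (l 16612080)))) (a (a (b (l 16566392) (l 16572888)) (b (l 16570248) (l 16587216))) (a (b (l 16584560) (l 16591032)) (b (l 16588360) (l 16594808))))))) (a (a (c (c (a (l 16613144) (b (l 16627272) (l 16633128))) (a (b (l 16614280) (l 16620376)) (b (l 16621184) (l 16627256)))) (a (a (b (l 16592120) (l 16598560)) (b (l 16595856) (l 16602280))) (a (c (l 16605872) (l 16599640)) (c (l 16609456) (l 16603384))))) (a (a (a (b (l 525633295) (l 525565199)) (l 525625359)) (a (l 525651215)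 (l 525676815))) (a (a (l 525702415) (l 525728271)) (a (l 525753871) (l 525779471))))) (a (a (a (a (l 525804815) (l 525830415)) (a (l 525856015) (l 525881359))) (a (a (l 525906959) (l 525932303)) (a (l 525957647) (l 525982991)))) (a (a (a (l 526008335) (l 526033423)) (a (l 526058767) (l 526083855))) (a (a (l 526108943) (l 526134031)) (b (l 526202127) (l 526139919))))))), by decide +kernel⟩

def k32_A00pp_022_s3 : ∃ t, chk3 f_A00pp_022_s3 t 32 121 4 = true :=
  ⟨(a (a (b (c (a (l 16569104) (l 16565952)) (a (l 16560376) (l 16568104))) (c (a (l 16581384) (l 16588672)) (a (l 16573168) (l 16580840)))) (b (a (c (l 16583672) (l 16575712)) (c (l 16590808) (l 16583216))) (a (c (l 16595872) (l 16588408)) (c (l 16602960) (a (l 16604496) (l 16608200)))))) (a (b (a (c (l 16597832) (l 16590616)) (c (l 16604768) (a (l 16606568) (l 16610184)))) (a (a (c (l 16618696) (l 16611872)) (b (l 16615744) (l 16600992))) (a (c (l 16625608) (l 16608648)) (b (l 16601824) (l 16608016))))) (a (b (c (l 16611600) (a (l 16613768) (l 16617336))) (a (b (l 16605304)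 (l 16621976)) (c (l 16625304) (l 16619344)))) (b (a (b (l 16620976) (l 16606080)) (b (l 16603432) (l 16609496))) (a (b (l 16622680) (l 16628848)) (b (l 16626088) (l 16632240))))))), by decide +kernel⟩

def k33_A00pp_022_s3 : ∃ t, chk3 f_A00pp_022_s3 t 32 121 5 = true :=
  ⟨(a (a (b (c (a (l 16551528) (l 16559648)) (a (l 16542560) (l 16551072))) (c (b (a (l 16571976) (l 16580048)) (a (l 16578680) (l 16586728))) (b (a (l 16563392) (l 16571864)) (a (l 16570360) (l 16578800))))) (a (b (c (l 16567648) (a (l 16567856) (l 16572016))) (a (c (l 16589352) (l 16581584)) (c (l 16593296) (l 16575232)))) (b (c (l 16575520) (a (l 16576152) (l 16580248))) (a (c (l 16597208) (l 16579328)) (c (l 16601088) (l 16583400)))))) (a (a (a (b (b (l 16563808) (l 16570440)) (b (l 16587600) (l 16594328))) (b (b (l 16567760) (l 16574376)) (b (l 16591520) (l 16598240)))) (b (a (b (l 16571672) (l 16588760)) (b (l 16575568) (l 16592640))) (a (b (l 16595408) (l 16602112)) (c (l 16605848) (l 16599360))))) (a (b (a (b (l 16589912) (l 16596480)) (c (l 16600312)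 (l 16593688))) (a (c (l 16609584) (l 16603272)) (c (l 16613288) (l 16607144)))) (b (a (b (l 16597536) (l 16604080)) (b (l 16601296) (l 16607832))) (a (b (l 16610672) (l 16617320)) (b (l 16614408) (l 16621048))))))), by decide +kernel⟩

def k34_A00pp_022_s3 : ∃ t, chk3 f_A00pp_022_s3 t 33 121 2 = true :=
  ⟨(a (a (a (a (a (b (a (l 525238543) (l 525251855)) (a (l 525072911) (l 525086223))) (b (a (l 525264911) (l 525277967)) (a (l 525099535) (l 525112847)))) (a (b (a (l 525291279) (l 525304335)) (a (l 525126415) (l 525139727))) (b (a (l 525317391) (l 525330703)) (b (l 525202447) (l 525115663))))) (a (a (b (a (l 525343759) (l 525356815)) (b (l 525229071) (l 525142287))) (b (b (l 525414671) (l 525337359)) (l 525212687))) (a (b (b (l 525440783) (l 525363727)) (l 525239311)) (b (l 525428751) (l 525265935))))) (a (a (a (b (l 525455119) (l 525292559)) (b (l 525481231) (l 525319183))) (a (b (l 525507343) (l 525345807)) (b (l 525533711) (l 525372175)))) (a (b (a (l 525559823) (l 525585935)) (a (l 525398799) (l 525425423))) (b (a (l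 525612047) (l 525637903)) (a (l 525451791) (l 525478415)))))) (a (a (a (b (a (l 525664015) (l 525690127)) (a (l 525504783) (l 525531407))) (b (a (l 525715983) (l 525742095)) (a (l 525557775) (l 525584399)))) (a (b (a (l 525767951) (l 525793807)) (b (l 525664783) (l 525581583))) (b (a (l 525819919) (l 525845775)) (b (l 525717519) (l 525634575))))) (a (a (b (b (l 525920015) (l 525847311)) (b (l 525769999) (l 525687567))) (b (b (l 525971471) (l 525899279)) (l 525781775))) (a (b (l 525987087) (l 525834511)) (b (l 526038287) (l 525886991)))))), by decide +kernel⟩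

def k35_A00pp_022_s3 : ∃ t, chk3 f_A00pp_022_s3 t 64 122 2 = true :=
  ⟨(c (b (a (c (b (a (l 16601192) (l 16608456)) (a (l 16607472) (l 16614720))) (b (a (l 16593368) (l 16601008)) (a (l 16599920) (l 16607544)))) (a (a (c (l 16616952) (l 16599432)) (c (l 16620504) (l 16603168))) (a (c (l 16624032) (l 16606872)) (c (l 16617048) (l 16610552))))) (a (c (b (a (l 16613824) (l 16621048)) (a (l 16620240) (l 16627448))) (b (a (l 16606544) (l 16614136)) (a (l 16602752) (l 16610328)))) (a (a (c (l 16619096) (l 16612592)) (b (l 16616232) (l 16622744))) (a (b (l 16619832) (l 16626336)) (b (l 16623408) (l 16629896)))))) (b (a (c (b (a (l 16585440) (l 16593464)) (a (l 16592264) (l 16600264))) (b (a (l 16577392) (l 16585808)) (a (l 16584496) (l 16592880)))) (a (a (c (l 16592296) (l 16585064)) (c (l 16596216) (l 16589168))) (a (c (l 16600104) (l 16593240)) (c (l 16603960) (l 16597280))))) (a (c (b (a (l 16599160) (l 16607136)) (a (l 16595648) (l 16603600))) (b (a (l 16581184) (l 16589544)) (a (l 16588448) (l 16596776)))) (b (a (c (l 16604504)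 (l 16597768)) (c (l 16612240) (l 16605872))) (a (c (l 16611432) (l 16604976)) (c (l 16619144) (l 16613056))))))), by decide +kernel⟩

def k36_A00pp_022_s3 : ∃ t, chk3 f_A00pp_022_s3 t 65 122 2 = true :=
  ⟨(b (b (c (a (a (c (l 16629640) (l 16623272)) (c (l 16636496) (l 16630480))) (a (c (l 16643256) (l 16637576)) (a (l 16635064) (l 16638448)))) (a (a (c (l 16616824) (l 16610280)) (c (l 16624376) (l 16607696))) (a (c (l 16631808) (l 16615472)) (c (l 16628640) (l 16623128))))) (c (a (a (c (l 16635848) (l 16629736)) (c (l 16642688) (l 16636920))) (a (c (l 16649424) (l 16633504)) (c (l 16645576) (l 16640472)))) (a (a (c (l 16623544) (l 16606776)) (c (l 16620584) (l 16614656))) (a (c (l 16628000) (l 16622408)) (c (l 16635288) (l 16630032)))))) (a (a (b (c (c (l 16642120) (l 16625784)) (c (l 16619856) (l 16613848))) (c (c (l 16637976) (l 16632400)) (c (l 16626736) (l 16626248)))) (c (b (c (l 16648936) (l 16632944)) (c (l 16644776) (l 16639536))) (b (c (l 16627360) (l 16621696)) (c (l 16639464) (l 16634064))))) (a (b (c (c (l 16645176)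 (l 16640000)) (c (l 16634744) (l 16634664))) (c (c (l 16651480) (l 16651808)) (c (l 16646824) (l 16641768)))) (a (a (a (l 524575247) (l 524588815)) (a (l 524602383) (l 524615951))) (a (a (l 524629519) (l 524643087)) (a (l 524656655) (l 524670223))))))), by decide +kernel⟩

def k37_A00pp_022_s3 : ∃ t, chk3 f_A00pp_022_s3 t 32 246 2 = true :=
  ⟨(a (c (b (a (c (a (l 16616272) (l 16623456)) (a (l 16609552) (l 16617104))) (a (c (l 16630544) (l 16624552)) (c (l 16637536) (l 16631888)))) (a (c (a (l 16622920) (l 16630088)) (a (l 16621736) (l 16629264))) (a (c (l 16637160) (l 16636688)) (c (l 16649368) (l 16644008))))) (b (c (a (a (l 16602744) (l 16610664)) (a (l 16623720) (l 16631408))) (a (a (l 16601080) (l 16609376)) (a (l 16617552) (l 16625600)))) (a (c (a (l 16615216) (l 16623120)) (a (l 16608608) (l 16616880))) (a (c (l 16630896) (l 16625024)) (c (l 16638568) (c (l 16639680) (l 16636896))))))) (a (b (c (a (c (l 16644424) (l 16644360)) (c (l 16656448) (l 16651472))) (a (c (l 16638976) (l 16633520)) (c (l 16646432) (c (l 16647840)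 (l 16645272))))) (c (a (c (l 16656240) (l 16651208)) (c (l 16663008) (c (l 16664728) (l 16662368)))) (a (a (c (l 16649480) (l 16644224)) (b (l 16638368) (l 16647288))) (a (b (l 16642176) (l 16651080)) (b (l 16645944) (l 16654848)))))) (a (a (a (a (a (l 524242703) (l 524249615)) (l 524259599)) (a (l 524273167) (l 524286735))) (a (a (l 524300303) (l 524313615)) (a (l 524327183) (l 524340751)))) (a (a (a (l 524354319) (l 524367887)) (a (l 524381455) (l 524395023))) (a (a (l 524408591) (l 524421903)) (a (l 524435471) (l 524449039))))))), by decide +kernel⟩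

def k38_A00pp_022_s3 : ∃ t, chk3 f_A00pp_022_s3 t 32 247 2 = true :=
  ⟨(a (b (a (a (l 14) (c (c (l 16642088) (l 16636320)) (a (c (l 16633752) (l 16627728)) (c (l 16637656) (l 16631816))))) (c (a (c (l 16649144) (l 16643720)) (c (l 16656088) (c (l 16657536) (l 16654976)))) (a (a (c (l 16641536) (l 16635880)) (c (l 16645392) (l 16639904))) (a (c (l 16649208) (l 16643904)) (c (l 16653000) (l 16647864)))))) (a (a (l 14) (a (l 14) (b (c (l 16641048) (l 16635224)) (l 14)))) (b (a (a (c (l 16644656) (l 16639184)) (c (l 16648232) (l 16643112))) (a (c (l 16651784) (l 16647008)) (c (l 16655312) (l 16650880)))) (a (a (c (l 16648200) (l 16643032)) (c (l 16651776) (l 16646952))) (a (c (l 16660568) (l 16650848)) (c (l 16664088) (l 16654712))))))) (a (a (a (c (b (a (l 16657960) (l 16659704)) (b (l 16664056) (l 16667584))) (b (c (l 16656760) (l 16641312)) (c (l 16658952) (l 16654288)))) (a (a (a (l 523856655) (l 523863311)) (a (l 523869967) (l 523876879))) (a (a (l 523883535) (l 523890447)) (a (l 523897103) (l 523903759))))) (a (a (a (a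 (l 523910671) (l 523917327)) (a (l 523924239) (l 523930895))) (a (a (l 523937807) (l 523944463)) (a (l 523951119) (l 523958031)))) (a (a (a (l 523964687) (l 523971599)) (a (l 523978255) (l 523984911))) (a (a (l 523991823) (l 523998479)) (a (l 524005391) (l 524012047)))))) (a (a (a (a (a (l 524018959) (l 524025615)) (a (l 524032271) (l 524039183))) (a (a (l 524045839) (l 524052751)) (l 524062735))) (a (a (l 524076303) (l 524089871)) (a (l 524103439) (l 524116751)))) (a (a (a (l 524130319) (l 524143887)) (a (l 524157455) (l 524171023))) (a (a (l 524184591) (l 524198159)) (a (l 524211471) (l 524225039))))))), by decide +kernel⟩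

def k39_A00pp_022_s3 : ∃ t, chk3 f_A00pp_022_s3 t 66 61 2 = true :=
  ⟨(a (a (a (b (a (b (a (l 524888591) (l 524902159)) (a (l 524683791) (l 524697103))) (b (a (l 524915471) (l 524929039)) (a (l 524710671) (l 524724239)))) (a (b (a (l 524462607) (l 524476175)) (a (l 524238607) (l 524252175))) (b (a (l 524489743) (l 524503311)) (a (l 524265743) (l 524279311))))) (b (a (b (b (l 524997135) (l 524900111)) (a (l 524737807) (l 524751375))) (b (b (l 525024015) (l 524927247)) (b (l 524825103) (l 524717327)))) (a (b (a (l 524516879) (l 524798735)) (a (l 524292623) (l 524306191))) (b (b (l 524606479) (l 524494863)) (a (l 524319759) (l 524333327)))))) (a (b (a (b (l 525002767) (b (l 524852239) (l 524744463))) (b (l 525029903) (l 524825615))) (a (b (l 524577551) (b (l 524409871) (l 524297231))) (b (l 524604687) (l 524380431)))) (b (a (b (l 525056783) (l 524852751)) (b (l 525083663) (l 524879887))) (a (b (l 524631823) (l 524407567)) (b (l 524658703) (l 524434703)))))) (a (a (b (a (b (l 525110543) (l 524907023)) (b (l 525137423) (l 524933903)))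 (a (b (l 524685839) (l 524461839)) (b (l 524712975) (l 524488719)))) (b (a (b (l 525164303) (l 524961039)) (b (l 525191439) (l 524988175))) (a (b (l 524740111) (l 524515855)) (b (l 524767247) (l 524542991))))) (b (a (b (a (l 525218319) (l 525245199)) (a (l 525015311) (l 525042447))) (b (a (l 525272079) (l 525298959)) (a (l 525069583) (l 525096463)))) (a (a (b (l 524794127) (l 524570127)) (b (l 524821263) (l 524597007))) (a (b (l 524848399) (l 524624143)) (b (l 524875535) (l 524651279))))))), by decide +kernel⟩

def k40_A00pp_022_s3 : ∃ t, chk3 f_A00pp_022_s3 t 67 61 2 = true :=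
  ⟨(a (a (b (a (b (a (l 525325839) (l 525352719)) (a (l 525123599) (l 525150735))) (b (b (l 525439247) (l 525344783)) (a (l 525177871) (l 525473295)))) (a (a (b (l 524902671) (l 524678415)) (b (l 525198095) (l 524705551))) (a (b (l 525225231) (l 524732431)) (c (l 525055247) (l 524143887))))) (b (a (b (b (l 525492751) (l 525398543)) (b (l 525298447) (l 525191183))) (b (b (l 525546255) (l 525452559)) (b (l 525352463) (l 525245455)))) (a (a (c (l 525080335) (l 524173071)) (c (l 525105423) (l 524201999))) (b (l 525078287) (b (l 524910607) (l 524797967)))))) (a (b (a (b (l 525553679) (l 525353487)) (b (l 525607183) (l 525407759))) (a (b (l 525132559) (l 524908303)) (b (l 525186831) (l 524962319)))) (b (a (b (l 525660943) (l 525462031)) (b (l 525714447) (l 525516047))) (a (b (l 525241103) (l 525016591)) (b (l 525295375) (l 525070863)))))), by decide +kernel⟩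

def k41_A00pp_022_s3 : ∃ t, chk3 f_A00pp_022_s3 t 32 120 3 = true :=
  ⟨(a (b (l 6) (b (l 6) (a (l 6) (a (l 6) (a (c (l 16532424) (l 16515192)) (c (l 16536840) (l 16520008))))))) (b (a (b (l 6) (a (l 6) (a (l 6) (c (l 16550680) (l 16534424))))) (a (b (a (l 6) (c (l 16552304) (l 16536336))) (a (c (l 16554960) (l 16539080)) (c (l 16559192) (l 16543688)))) (b (a (c (l 16556528) (l 16540928)) (c (l 16560712) (l 16545488))) (a (c (l 16563400) (l 16548264)) (c (l 16567568) (l 16552800)))))) (a (a (b (b (l 6) (c (l 16548600) (l 16531976))) (a (c (l 16541216) (l 16535256)) (c (l 16556048) (l 16539992)))) (b (a (c (l 16553344) (l 16537184)) (c (l 16557640) (l 16541856))) (a (c (l 16560352) (l 16544680)) (c (l 16564624) (l 16549328))))) (c (a (a (c (l 16569096) (l 16561624)) (c (l 16573216) (l 16565920))) (a (b (l 16570296) (l 16577232)) (b (l 16574448) (l 16581360)))) (c (a (a (l 16554040) (l 16558528)) (a (l 16562976) (l 16567392))) (a (b (l 16555408) (l 16562976)) (l 16568464))))))), by decide +kernel⟩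

def k42_A00pp_022_s3 : ∃ t, chk3 f_A00pp_022_s3 t 33 120 3 = true :=
  ⟨(a (a (a (c (a (b (b (l 16564864) (l 16571704)) (b (l 16578560) (l 16585456))) (b (b (l 16568984) (l 16575800)) (b (l 16582640) (l 16589520)))) (b (a (b (l 16550008) (l 16557296)) (b (l 16554488) (l 16561752))) (c (l 16584424) (l 16577568)))) (a (a (b (a (l 523935503) (l 523952399)) (a (l 523705615) (l 523722511))) (b (a (l 523969039) (l 523985679)) (a (l 523739407) (l 523756559)))) (a (b (a (l 523935247) (l 523951887)) (a (l 523773455) (l 523790351))) (b (a (l 523968783) (l 523985423)) (a (l 523807247) (l 523824143)))))) (a (a (a (b (a (l 524002063) (l 524018703)) (a (l 523841039) (l 523857935))) (b (a (l 524035343) (l 524051983)) (a (l 523874831) (l 523891727)))) (a (b (a (l 524068623) (l 524085263)) (b (l 523958799) (l 523874319))) (b (b (l 524180751) (l 524072207)) (b (l 523992591) (l 523908367))))) (a (a (b (b (l 524180239) (l 524105487)) (b (l 524026127) (l 523942159))) (b (b (l 524213263) (l 524138767)) (b (l 524059663) (l 524244495)))) (a (b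 (b (l 524246287) (l 524172047)) (b (l 524093199) (l 524278287))) (b (b (l 524279311) (l 524205071)) (l 524219663)))))) (a (a (a (b (a (b (l 524312079) (l 524238351)) (a (l 524300559) (l 524316943))) (a (l 524186127) (l 524219663))) (b (a (a (l 524333327) (l 524349967)) (a (l 524366351) (l 524382735))) (a (l 524186127) (l 524219407)))) (a (b (a (a (l 524399119) (l 524415503)) (a (l 524431887) (l 524448271))) (a (l 524252943) (l 524286223))) (b (a (l 524573455) (l 524572687)) (a (l 524319759) (l 524353039))))) (a (a (b (a (l 524605199) (l 524637967)) (a (l 524386319) (l 524419343))) (b (a (l 524670479) (l 524635919)) (a (l 524452623) (l 524485647)))) (a (b (a (l 524668175) (l 524700687)) (a (l 524518671) (l 524551695))) (b (a (l 524732943) (l 524765199)) (a (l 524584719) (l 524617743))))))), by decide +kernel⟩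

def k43_A00pp_022_s3 : ∃ t, chk3 f_A00pp_022_s3 t 32 121 6 = true :=
  ⟨(a (a (a (b (a (l 6) (b (l 6) (l 16545272))) (c (b (l 16554696) (l 16561936)) (a (l 16526312) (l 16551952)))) (a (b (c (l 16550648) (l 16541728)) (c (l 16564960) (l 16535608))) (b (c (l 16555072) (l 16546352)) (c (l 16548376) (l 16550680))))) (a (a (b (c (l 16559464) (l 16550944)) (c (l 16563224) (l 16555240))) (b (c (l 16563816) (l 16555504)) (c (l 16567544) (l 16559752)))) (a (b (c (l 16568144) (l 16560024)) (c (l 16571840) (l 16564240))) (b (b (l 16554424) (l 16561576)) (b (l 16568776) (l 16576040)))))) (a (a (a (b (b (l 16558784) (l 16565912)) (b (l 16573096) (l 16580352))) (b (b (l 16563112) (l 16570224)) (b (l 16577392) (l 16584624)))) (b (a (b (l 16567400) (l 16574496)) (c (l 16578760) (l 16571584))) (a (b (l 16581648) (l 16588864)) (c (l 16592784) (l 16586112))))) (a (b (a (c (l 16582880) (l 16575888)) (c (l 16586968) (l 16580152))) (a (c (l 16596872) (l 16590376)) (b (l 16594200) (l 16601368)))) (b (a (b (l 16584208) (l 16591232)) (b (l 16588320)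 (l 16595328))) (b (a (l 16598320) (l 16602400)) (c (l 16610456) (l 16604528))))))), by decide +kernel⟩

def k44_A00pp_022_s3 : ∃ t, chk3 f_A00pp_022_s3 t 32 121 7 = true :=
  ⟨(b (c (a (c (b (a (l 16518296) (l 16537304)) (a (l 16525872) (l 16544800))) (b (a (l 16513624) (l 16533048)) (a (l 16521336) (l 16540672)))) (a (a (c (l 16565360) (l 16561464)) (b (l 16568816) (l 16576280))) (a (l 16581520) (c (l 16581520) (l 16578184))))) (a (b (c (a (l 16508928) (l 16528760)) (a (l 16504200) (l 16524448))) (c (a (l 16516776) (l 16536520)) (a (l 16512176) (l 16532336)))) (a (a (a (l 16532192) (l 16536984)) (l 16565080)) (a (l 16574424) (c (l 16574816) (l 16571432)))))) (c (a (a (b (a (l 16536936) (l 16546616)) (a (l 16544728) (l 16554368))) (a (c (l 16562000) (l 16557976)) (c (l 16560776) (l 16556944)))) (a (a (l 16578552) (b (l 16583808) (l 16570440))) (a (b (l 16592728) (l 16589800)) (b (l 16591000) (l 16598528))))) (a (a (a (a (l 16508384) (l 16513464)) (c (l 16544120) (l 16539832))) (a (c (l 16553928) (l 16549848)) (l 16561640)))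 (a (a (c (l 16562584) (l 16558904)) (b (l 16576736) (l 16563632))) (a (b (l 16586016) (l 16572872)) (b (l 16574176) (l 16592440))))))), by decide +kernel⟩

def k45_A00pp_022_s3 : ∃ t, chk3 f_A00pp_022_s3 t 33 121 3 = true :=
  ⟨(a (a (a (a (a (b (a (l 523386383) (l 523403791)) (a (l 523183887) (l 523201295))) (b (a (l 523420943) (l 523438095)) (a (l 523218703) (l 523236367)))) (a (b (a (l 523455503) (l 523472655)) (a (l 523253775) (l 523271183))) (b (a (l 523489807) (l 523506959)) (a (l 523288591) (l 523305999))))) (a (a (b (a (l 523524111) (l 523541519)) (a (l 523323407) (l 523340559))) (b (a (l 523558671) (l 523575823)) (a (l 523357967) (l 523375375)))) (a (b (a (l 523592975) (l 523610127)) (b (l 523453455) (l 523348495))) (b (a (l 523627279) (l 523644431)) (b (l 523488271) (l 523383311)))))) (a (a (a (b (a (l 523661583) (l 523678735)) (b (l 523522831) (l 523418127))) (b (b (l 523751183) (l 523656719)) (l 523639823))) (a (b (b (l 523785231) (l 523691279)) (l 523674639)) (b (l 523907087) (l 523575055)))) (a (b (a (l 523941391)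 (l 523975439)) (a (l 523609615) (l 523644431))) (b (a (l 523875343) (l 523909647)) (a (l 523678991) (l 523713551)))))) (a (a (a (b (a (l 523943695) (l 523977743)) (a (l 523748367) (l 523782927))) (b (a (l 524011791) (l 524045839)) (a (l 523817487) (l 523852047)))) (a (b (a (l 524079887) (l 524113679)) (a (l 523886607) (l 523920911))) (b (a (l 524147727) (l 524181519)) (a (l 523955471) (l 523990031))))) (a (a (b (a (l 524215567) (l 524249359)) (b (l 524091151) (l 523990543))) (b (a (l 524283151) (l 524316943)) (b (l 524159759) (l 524059407)))) (a (b (b (l 524411151) (l 524322319)) (b (l 524228111) (l 524128527))) (b (b (l 524477967) (l 524389903)) (l 524448783)))))), by decide +kernel⟩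

def k46_A00pp_022_s3 : ∃ t, chk3 f_A00pp_022_s3 t 32 122 6 = true :=
  ⟨(b (a (a (c (b (a (l 16569240) (l 16578040)) (a (l 16576616) (l 16585392))) (b (a (l 16560968) (l 16570176)) (a (l 16558152) (l 16577800)))) (b (a (c (l 16586712) (l 16579232)) (c (l 16595240) (l 16588144))) (a (c (l 16583544) (l 16576344)) (c (l 16592048) (l 16585224))))) (c (a (a (c (l 16598408) (l 16600376)) (c (l 16611808) (l 16608720))) (a (b (l 16609544) (l 16616744)) (b (l 16617536) (l 16629944)))) (a (a (c (l 16597080) (l 16593768)) (b (l 16595056) (l 16602544))) (a (b (l 16603536) (l 16610992)) (c (l 16627456) (l 16624672)))))) (c (a (a (b (a (l 16573600) (l 16582336)) (a (l 16581152) (l 16589864))) (a (c (l 16601600) (l 16598232)) (b (l 16599416) (l 16612120)))) (a (a (b (l 16607752) (l 16620432)) (b (l 16621200) (l 16628600))) (a (c (l 16639504) (l 16636848)) (b (l 16637192) (a (l 16647816) (l 16651736)))))) (a (a (b (a (l 16565904) (l 16575040)) (a (l 16573752) (l 16582856))) (a (b (l 16584024) (l 16597048)) (b (l 16592872) (a (l 16608912)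 (l 16613288))))) (c (a (a (c (l 16612936) (l 16611416)) (l 16625872)) (a (a (l 16621632) (l 16630992)) (a (l 16635080) (l 16639128)))) (a (a (l 16614376) (l 16623008)) (a (c (l 16632168) (l 16630824)) (a (l 16632520) (l 16636656)))))))), by decide +kernel⟩

def k47_A00pp_022_s3 : ∃ t, chk3 f_A00pp_022_s3 t 32 122 7 = true :=
  ⟨(b (c (a (a (b (a (l 16552592) (l 16562200)) (a (l 16550056) (l 16559624))) (a (c (l 16566968) (l 16563216)) (c (l 16576144) (l 16572592)))) (a (a (b (l 16579608) (l 16587408)) (b (l 16588600) (l 16596368))) (a (b (l 16597440) (l 16605168)) (c (l 16621864) (l 16619040))))) (a (a (b (a (l 16544104) (l 16554120)) (a (l 16541864) (l 16541352))) (a (c (l 16559448) (l 16555656)) (c (l 16569024) (l 16565424)))) (a (a (b (l 16562216) (l 16580784)) (b (l 16582064) (l 16590104))) (a (c (l 16607264) (l 16604224)) (b (l 16600312) (l 16608272)))))) (c (a (a (b (a (l 16558104) (l 16567640)) (a (a (l 16574344) (l 16579128)) (l 16575752))) (b (a (l 16577016) (l 16586240)) (a (c (l 16597264) (l 16593880)) (c (l 16606360)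 (l 16603160))))) (c (a (a (l 16611320) (l 16620128)) (a (c (l 16629472) (l 16628112)) (a (l 16629944) (l 16639408)))) (a (a (l 16608240) (l 16617232)) (a (c (l 16626752) (l 16625384)) (l 16637376))))) (a (a (b (a (l 16550208) (l 16560136)) (a (l 16558656) (l 16568552))) (a (c (l 16586312) (l 16582808)) (c (l 16595800) (l 16592496)))) (c (a (a (l 16605136) (l 16614312)) (a (c (l 16624016) (l 16622640)) (l 16634808))) (a (a (l 16602016) (l 16611376)) (a (l 16623192) (l 16632224))))))), by decide +kernel⟩

def k48_A00pp_022_s3 : ∃ t, chk3 f_A00pp_022_s3 t 33 122 3 = true :=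
  ⟨(a (a (a (a (a (b (a (l 522960911) (l 522978319)) (a (l 522715151) (l 522732815))) (b (a (l 522995983) (l 523013647)) (a (l 522750479) (l 522768143)))) (a (b (a (l 523031055) (l 523048719)) (a (l 522785807) (l 522803471))) (b (a (l 523066383) (l 523083791)) (a (l 522821135) (l 522838799))))) (a (a (b (a (l 523101455) (l 523118863)) (a (l 522856463) (l 522874127))) (b (b (l 523202831) (l 523086607)) (a (l 522891791) (l 522909199)))) (a (b (b (l 523237903) (l 523121679)) (b (l 522999567) (l 522871055))) (b (l 523416591) (b (l 523034895) (l 522906383)))))) (a (a (a (b (l 523384591) (l 523140367)) (b (l 523285519) (l 523175695))) (a (b (l 523320591) (l 523076879)) (b (l 523355663) (l 523111951)))) (a (a (b (l 523390735) (l 523147279)) (b (l 523425807) (l 523182607))) (b (a (l 523460879) (l 523495951)) (a (l 523217935) (l 523253007)))))) (a (a (a (b (a (l 523531023) (l 523565839)) (a (l 523288335) (l 523323663))) (b (a (l 523600911) (l 523635983)) (a (l 523358991) (l 523394063)))) (a (b (a (l 523671055) (l 523974415)) (a (l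 523429391) (l 523464719))) (b (b (l 523814159) (l 523700751)) (a (l 523499791) (l 523803663))))) (a (a (b (b (l 523883791) (l 523770895)) (b (l 523651087) (l 523523343))) (b (b (l 523953423) (l 523840783)) (b (l 523721487) (l 523593743)))) (a (b (l 524101647) (l 523929871)) (b (l 524037135) (l 523933199)))))), by decide +kernel⟩

def k49_A00pp_022_s3 : ∃ t, chk3 f_A00pp_022_s3 t 32 246 6 = true :=
  ⟨(a (b (a (c (a (l 16594072) (l 16602752)) (a (l 16586976) (l 16596040))) (c (a (l 16611304) (l 16619712)) (a (c (l 16611800) (l 16608608)) (c (l 16620488) (l 16617480))))) (a (a (a (l 14) (a (l 16599632) (l 16601856))) (c (l 16610560) (a (l 16607144) (l 16611624)))) (a (a (c (l 16622200) (l 16616072)) (c (l 16626424) (l 16620480))) (a (c (l 16630616) (l 16624856)) (b (l 16619520) (l 16628744)))))) (a (b (a (a (a (l 16622040) (l 16624144)) (a (l 16626240) (l 16628328))) (a (b (l 16624264) (l 16628144)) (c (l 16643384) (l 16638216)))) (a (a (b (l 16623736) (l 16632952)) (b (l 16633160) (l 16637120))) (a (b (l 16637304) (l 16641264))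 (c (l 16651064) (l 16635696))))) (b (c (a (b (l 16637000) (l 16640792)) (b (l 16644880) (l 16653896))) (a (b (l 16632016) (l 16635944)) (l 16652672))) (a (a (c (l 16644568) (l 16639856)) (c (l 16648520) (l 16643976))) (a (c (l 16657680) (l 16653304)) (c (l 16661576) (l 16657360))))))), by decide +kernel⟩

def k50_A00pp_022_s3 : ∃ t, chk3 f_A00pp_022_s3 t 32 247 6 = true :=
  ⟨(a (a (a (l 14) (b (a (c (l 16621616) (l 16615424)) (c (l 16625896) (l 16619888))) (a (l 14) (c (l 16623512) (l 16617824))))) (a (b (a (c (l 16630136) (l 16624320)) (c (l 16634344) (l 16628712))) (a (c (l 16627744) (l 16622240)) (c (l 16637184) (l 16631856)))) (b (a (c (l 16638520) (l 16622576)) (c (l 16632176) (l 16626904))) (a (c (l 16641344) (l 16636200)) (c (l 16645472) (l 16640504)))))) (a (a (b (a (c (l 16636288) (l 16631184)) (c (l 16640360) (l 16640680))) (a (c (l 16649560) (l 16644768)) (c (l 16653624) (l 16649008)))) (b (a (c (l 16649640) (l 16644888)) (c (l 16653648) (l 16649072))) (a (c (l 16657648) (l 16653200)) (a (b (l 16651200) (l 16660552))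 (b (l 16653232) (l 16662584)))))) (b (a (a (c (l 16657624) (l 16653208)) (c (l 16661568) (l 16657320))) (a (c (l 16665472) (l 16661384)) (a (b (l 16669648) (l 16668408)) (b (l 16661136) (l 16670376))))) (c (a (a (c (l 16671864) (l 16669824)) (c (l 16675744) (l 16673784))) (c (l 16681512) (l 16679672))) (a (c (l 16669792) (l 16667768)) (c (l 16677824) (l 16675960))))))), by decide +kernel⟩

def k51_A00pp_022_s3 : ∃ t, chk3 f_A00pp_022_s3 t 32 246 7 = true :=
  ⟨(c (a (a (c (a (a (l 16578152) (l 16593352)) (l 16600344)) (b (a (l 16583208) (l 16592768)) (a (l 16591744) (l 16601264)))) (a (a (c (l 16596760) (l 16593560)) (c (l 16606560) (l 16598208))) (a (b (l 16610664) (l 16619016)) (c (l 16615568) (l 16612640))))) (b (a (a (c (l 16623368) (l 16620504)) (b (l 16618256) (l 16622352))) (a (l 16639480) (b (l 16635512) (l 16644816)))) (a (a (c (l 16631600) (l 16628888)) (c (l 16629832) (l 16627304))) (a (c (l 16643648) (l 16641288)) (c (l 16652072) (l 16649880)))))) (a (a (a (b (a (l 16575248) (l 16580216)) (a (l 14) (l 16588968)))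 (a (l 16589488) (c (l 16585544) (l 16582208)))) (c (a (b (l 16598912) (l 16607528)) (b (l 16608352) (l 16616920))) (a (b (l 16595640) (l 16604408)) (l 16612232)))) (b (a (a (c (l 16617624) (l 16614728)) (l 16625384)) (a (l 16634432) (b (l 16630736) (l 16640176)))) (a (a (l 16624792) (c (l 16624752) (l 16622184))) (a (c (l 16638912) (l 16631280)) (c (l 16652920) (l 16650696))))))), by decide +kernel⟩

def k52_A00pp_022_s3 : ∃ t, chk3 f_A00pp_022_s3 t 32 247 7 = true :=
  ⟨(a (a (a (l 14) (b (a (c (l 16609152) (l 16602792)) (c (l 16613800) (l 16607640))) (a (l 14) (c (l 16612064) (l 16606224))))) (a (b (a (c (l 16618416) (l 16612448)) (c (l 16623000) (l 16617208))) (a (c (l 16616664) (l 16611008)) (c (l 16626464) (l 16615760)))) (b (a (c (l 16617048) (l 16611448)) (c (l 16621552) (l 16616136))) (a (c (l 16630984) (l 16625704)) (c (l 16635472) (l 16630376)))))) (a (a (b (a (c (l 16626016) (l 16620784)) (c (l 16630440) (l 16625384))) (a (c (l 16639920) (l 16635000)) (c (l 16644328) (l 16639584)))) (c (a (b (l 16640072) (l 16648696))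 (b (l 16644424) (c (l 16659360) (l 16657176)))) (a (b (l 16635192) (l 16644128)) (c (l 16653168) (l 16650872))))) (b (c (a (a (l 16648736) (l 16653008)) (c (l 16665616) (l 16663576))) (a (c (l 16652792) (l 16650552)) (c (l 16661520) (l 16659448)))) (c (a (c (l 16665728) (l 16663672)) (c (l 16674080) (l 16672192))) (a (c (l 16661600) (l 16659520)) (c (l 16670288) (l 16668376))))))), by decide +kernel⟩

def k53_A00pp_022_s3 : ∃ t, chk3 f_A00pp_022_s3 t 33 123 3 = true :=
  ⟨(a (a (a (a (a (b (a (l 522451727) (l 522469391)) (a (l 522184719) (l 522202383))) (b (a (l 522487055) (l 522504719)) (a (l 522220047) (l 522237711)))) (a (b (a (l 522522383) (l 522540047)) (a (l 522255375) (l 522273039))) (b (a (l 522557711) (l 522575375)) (a (l 522290703) (l 522308367))))) (a (a (b (a (l 522593039) (l 522610703)) (a (l 522326031) (l 522343695))) (b (b (l 522703631) (l 522570767)) (a (l 522361359) (l 522379023)))) (a (b (b (l 522738703) (l 522605839)) (a (l 522396687) (l 522414095))) (b (l 522908943) (b (l 522507791) (l 522373647))))))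 (a (a (a (b (l 522876943) (b (l 522543119) (l 522408975))) (b (l 522778127) (l 522645263))) (a (b (l 522813455) (l 522680591)) (b (l 522848783) (l 522581519)))) (a (a (b (l 522883855) (l 522616847)) (b (l 522919183) (l 522652175))) (a (b (l 522954511) (l 522687503)) (b (l 522989839) (l 522722831)))))) (a (a (a (a (b (l 523025167) (l 522757903)) (b (l 523060239) (l 522793231))) (a (b (l 523095567) (l 522828559)) (b (l 523130895) (l 522863887)))) (a (a (b (l 523434511) (l 522898959)) (b (l 523469839) (l 522934287))) (b (b (l 523320591) (l 523187727)) (b (l 523054095) (l 522919951))))) (a (a (b (b (l 523390991) (l 523258127)) (b (l 523124495) (l 522990351))) (b (l 523596303) (b (l 523195151) (l 523060751)))) (a (b (l 523465487) (l 523332623)) (b (l 523535887) (l 523268879)))))), by decide +kernel⟩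

def k54_A00pp_022_s3 : ∃ t, chk3 f_A00pp_022_s3 t 68 60 1 = true :=
  ⟨(a (b (a (c (a (b (a (l 526323983) (l 526348303)) (b (l 526251535) (l 526190095))) (b (a (l 526372367) (l 526396687)) (l 526270991))) (a (b (a (l 524797199) (l 524829455)) (a (l 524650511) (l 524683279))) (b (a (l 524861455) (l 524893455)) (a (l 524716047) (l 524748559))))) (c (a (b (a (l 526420751) (l 526444815)) (l 526320399)) (b (a (l 526468623) (l 526492687)) (l 526369551))) (a (b (a (l 524925455) (l 524957199)) (b (l 524835087) (l 524758799))) (b (a (l 524988943) (l 525020431)) (b (l 524899599) (l 524824079)))))) (a (c (a (b (l 526089487) (l 525939215)) (b (l 526140431) (l 525991439))) (a (b (b (l 524544783) (l 524457231)) (l 524450063)) (b (b (l 524611343) (l 524524303)) (l 524384015)))) (c (a (b (l 526191375) (l 526043663)) (b (l 526241807) (l 526095631))) (a (b (l 524769039) (l 524452111)) (b (l 524835599) (l 524520207)))))) (b (a (c (a (b (b (l 526553103) (l 526502415)) (l 526418447)) (b (l 526575375) (l 526467087))) (a (b (b (l 525100303) (l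 525034255)) (b (l 524963855) (l 524889103))) (b (b (l 525162767) (l 525097487)) (b (l 525027855) (l 525222159))))) (c (a (b (l 526622479) (l 526515471)) (b (l 526669071) (l 526563599))) (a (b (b (l 525224975) (l 525160463)) (l 525189391)) (b (b (l 525286671) (l 525222671)) (l 525252879))))) (a (c (b (a (l 526292239) (l 526342415)) (a (l 526147343) (l 526199055))) (a (b (l 524901647) (l 524587791)) (b (l 524833551) (l 524655375)))) (c (b (a (l 526392079) (l 526441743)) (a (l 526250511) (l 526301711))) (b (a (l 524899087) (l 524964367)) (a (l 524722703) (l 524790031))))))), by decide +kernel⟩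

def k55_A00pp_022_s3 : ∃ t, chk3 f_A00pp_022_s3 t 68 61 1 = true :=
  ⟨(a (b (a (a (c (b (l 525767951) (l 525570319)) (b (l 524107023) (l 523869455))) (c (b (l 525821199) (l 525624591)) (b (l 524176399) (l 523939855)))) (c (b (a (l 525874703) (l 525927951)) (a (l 525678607) (l 525732879))) (a (b (l 524246031) (l 524010255)) (b (l 524315407) (l 524080655))))) (a (a (c (b (l 525349391) (l 525124879)) (b (l 523606543) (l 523339279))) (c (b (l 525403663) (l 525179151)) (b (l 523676943) (l 523409679)))) (c (a (b (l 525457935) (l 525233423)) (b (l 525512207) (l 525287695))) (a (b (l 523747343) (l 523480079)) (b (l 523817743) (l 523550479)))))) (b (a (b (c (a (l 525981199) (l 526034191)) (a (l 524384783) (l 524453903))) (c (a (l 525786895) (l 525841167)) (a (l 524151055) (l 524221199)))) (b (c (a (l 526087183) (l 526408719)) (a (l 524523023) (l 524591887))) (c (a (l 525895183) (l 525949455)) (a (l 524291599) (l 524361999))))) (a (c (a (a (l 525440271) (l 525467407)) (a (l 525494543) (l 525521679))) (a (b (l 523888399) (l 523621135))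 (b (l 523958799) (l 523691535)))) (c (a (c (l 525696015) (l 524885519)) (l 525884943)) (a (b (l 524297487) (l 523761935)) (a (l 524216591) (l 524251663))))))), by decide +kernel⟩

def k56_A00pp_022_s3 : ∃ t, chk3 f_A00pp_022_s3 t 69 60 1 = true :=
  ⟨(a (b (c (a (a (b (l 526715407) (l 526611215)) (b (l 526761231) (l 526658575))) (b (a (l 526807055) (l 526853135)) (a (l 526705423) (l 526752015)))) (a (a (b (b (l 525347855) (l 525284879)) (l 525249039)) (b (b (l 525408783) (l 525346319)) (l 525311759))) (b (a (b (l 525469967) (l 525407503)) (b (l 525531919) (l 525468943))) (a (l 525374223) (l 525435919))))) (a (c (b (a (l 526491151) (l 526540047)) (a (l 526352655) (l 526671887))) (b (a (l 525029391) (l 525093903)) (a (l 524856847) (l 524923151)))) (c (b (a (l 526588431) (l 526636559)) (b (l 526513679) (l 526441999))) (b (a (l 525157903) (l 525221647)) (a (l 524989455) (l 525055247)))))) (b (c (a (b (a (l 526900239) (l 526948111)) (a (l 526798351) (l 526844687))) (b (a (l 526997007) (l 527046927)) (a (l 526892559) (l 526941455))))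 (a (b (a (b (l 525594639) (l 525531151)) (b (l 525658127) (l 525594127))) (a (l 525531151) (l 525559567))) (b (a (b (l 525722639) (l 525658127)) (a (l 525739791) (l 525772815))) (a (l 525622543) (l 525687055))))) (c (a (b (a (l 526684175) (l 526731535)) (b (l 526611983) (l 526542351))) (b (a (l 526778383) (l 526825231)) (b (l 526708239) (l 526640911)))) (a (b (a (l 525284623) (l 525347343)) (a (l 525120527) (l 525453583))) (b (a (l 525409551) (l 525471759)) (b (l 525456911) (l 525238287))))))), by decide +kernel⟩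

def k57_A00pp_022_s3 : ∃ t, chk3 f_A00pp_022_s3 t 69 61 1 = true :=
  ⟨(a (b (a (b (c (b (l 526261007) (l 526175247)) (a (l 524660751) (l 524729359))) (c (a (l 526003471) (l 526057743)) (a (l 524432143) (l 524502287)))) (b (c (b (l 526364687) (l 526280975)) (a (l 524797711) (l 525134095))) (c (a (l 526111759) (l 526165775)) (a (l 524572431) (l 524642575))))) (a (c (a (l 525939215) (l 525993231)) (a (a (l 524286991) (l 524322063)) (l 524441871))) (c (a (l 526047503) (l 526101775)) (a (l 524445199) (l 524515343))))) (b (b (a (c (b (l 526467599) (l 526386191)) (b (l 525015823) (l 524916239))) (c (l 526530063) (b (l 525148431) (l 525051919)))) (a (c (a (l 526219791) (l 526273551)) (a (l 524712719) (l 524782607))) (c (b (l 526403343) (l 526302735)) (b (l 524946191) (l 524825615))))) (a (c (a (l 526156047) (l 526210319)) (a (l 524585743) (l 524656143))) (c (a (l 526264591) (l 526318863)) (a (l 524726543) (l 524796943)))))), by decide +kernel⟩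

def k58_A00pp_022_s3 : ∃ t, chk3 f_A00pp_022_s3 t 70 60 1 = true :=
  ⟨(a (b (c (a (b (a (l 527098127) (l 527150607)) (a (l 526991375) (l 527042831))) (b (a (l 527204623) (l 527260431)) (a (l 527096079) (l 527151375)))) (a (b (a (a (l 525806095) (l 525839887)) (a (l 525873935) (l 525908495))) (a (l 525685519) (l 525752591))) (b (a (a (l 525943567) (l 525978895)) (l 526133519)) (a (l 525821711) (l 525892879))))) (c (a (b (a (l 526873615) (l 526923791)) (b (l 526802959) (l 526737167))) (b (a (l 526975503) (l 527298063)) (b (l 526903311) (l 526834447)))) (a (b (a (l 525535759) (l 525601295)) (a (l 525376015) (l 525438991))) (b (a (l 525668879) (l 525738767)) (b (l 525579535) (l 525493519)))))) (b (c (a (b (a (l 527318543) (l 527378703)) (a (l 527208719) (l 527537423))) (b (a (l 527441423) (l 527772943)) (l 527363343))) (a (b (a (l 526173967) (l 526183695)) (a (l 525966351) (l 526042895))) (b (a (l 526262543) (l 526342415)) (a (l 526122255) (l 526202383))))) (c (a (b (b (l 527147535) (l 527082767)) (b (l 527014671) (l 526943503)))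 (b (l 527240719) (l 527104783))) (a (b (a (l 525811471) (l 525887759)) (b (l 525723151) (l 525634575))) (b (b (l 526047503) (l 525966607)) (l 525837839)))))), by decide +kernel⟩

def k59_A00pp_022_s3 : ∃ t, chk3 f_A00pp_022_s3 t 71 60 1 = true :=
  ⟨(a (b (c (a (b (a (l 527568143) (l 527632399)) (l 527491343)) (b (b (l 527754511) (l 527703823)) (l 527621647))) (a (b (a (l 526422543) (l 526503439)) (b (l 526359823) (l 526286607))) (b (a (l 526584591) (l 526666511)) (l 526621199)))) (c (a (b (l 527369743) (l 527234575)) (b (l 527500815) (l 527366415))) (a (b (l 526303759) (l 526000911)) (b (l 526333967) (l 526166287))))) (b (c (a (b (l 527860751) (l 527753743)) (b (l 527994127) (l 527887887))) (a (b (a (l 526748943) (l 526831631)) (l 526652687)) (b (b (l 526988815) (l 526924047)) (l 526954511)))) (c (a (b (l 527633679) (l 527500303)) (b (l 527768847) (l 527636239))) (a (b (l 526500623) (l 526333711)) (b (l 526669327) (l 526503439)))))), by decide +kernel⟩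

def k60_A00pp_022_s3 : ∃ t, chk3 f_A00pp_022_s3 t 35 61 1 = true :=
  ⟨(b (a (a (c (a (b (l 526630415) (b (l 526509327) (l 526411023))) (b (b (l 526764047) (l 526691343)) (b (l 526613007) (l 526518031)))) (a (b (b (l 525278479) (l 525185551)) (b (l 525083919) (l 524966159))) (b (b (l 525405967) (l 525315855)) (b (l 525219599) (l 525104655))))) (c (a (b (a (l 526801935) (l 527130127)) (a (b (l 526957583) (l 526877455)) (b (l 527007759) (l 526652431)))) (b (l 526955279) (b (l 527102479) (l 526746895)))) (a (b (a (l 525458191) (l 525803023)) (a (b (l 525587471) (l 525220623)) (b (l 525653263) (l 525278991)))) (b (l 525653007) (a (l 525411343) (l 525493007)))))) (b (a (a (c (l 527085839) (l 525817103)) (c (l 527486991) (l 525983503))) (a (c (l 527621647) (l 526420239)) (c (l 527758351) (l 526590991)))) (a (a (c (l 526921999) (l 525885199)) (l 4)) (l 4)))) (b (a (a (a (c (l 526244367) (l 525036047)) (c (l 526352911) (l 525176591))) (a (c (l 526461455) (l 525317391)) (l 4))) (l 4)) (l 4))), by decide +kernel⟩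

def k61_A00pp_022_s3 : ∃ t, chk3 f_A00pp_022_s3 t 32 248 2 = true :=
  ⟨(a (a (l 14) (b (a (a (l 14) (c (c (l 16669992) (l 16660016)) (c (l 16655216) (l 16650352)))) (c (a (c (l 16662968) (l 16663640)) (c (l 16671640) (l 16667240))) (a (c (l 16659016) (l 16654320)) (c (l 16662784) (l 16658264))))) (a (l 14) (c (a (c (l 16675328) (l 16671072)) (c (l 16678752) (c (l 16680936) (l 16678872)))) (a (a (b (l 16661624) (l 14)) (b (l 16663552) (l 16667536))) (a (c (l 16674816) (l 16665328)) (c (l 16671448) (l 16667280)))))))) (a (a (a (c (c (b (l 16675048) (l 16682152)) (b (l 16670816) (c (l 16684456) (l 16682472)))) (c (b (l 16666520) (a (l 16673312) (l 16675168))) (a (b (l 16666440) (l 16669232)) (b (l 16668384) (l 16671168))))) (a (a (a (b (l 523687695) (l 523574031)) (b (l 523694351) (l 523580943))) (a (b (l 523701007) (l 523587599)) (b (l 523707919) (l 523594511)))) (a (a (l 523657743) (l 523664399)) (a (l 523671055) (l 523677967))))) (a (a (a (a (l 523684623) (l 523691535)) (a (l 523698191) (l 523705103))) (a (a (l 523711759)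 (l 523718415)) (a (l 523725327) (l 523731983)))) (a (a (a (l 523738895) (l 523745551)) (a (l 523752207) (l 523759119))) (a (a (l 523765775) (l 523772687)) (a (l 523779343) (l 523785999)))))) (a (a (a (a (a (l 523792911) (l 523799567)) (a (l 523806479) (l 523813135))) (a (a (l 523819791) (l 523826703)) (b (l 523893775) (l 523780111)))) (a (a (b (l 523907087) (l 523793679)) (l 523863823)) (a (l 523877391) (l 523890703)))) (a (a (a (l 523904271) (l 523917839)) (a (l 523931407) (l 523944975))) (a (a (l 523958543) (l 523971855)) (a (l 523985423) (l 523998991))))))), by decide +kernel⟩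

def k62_A00pp_022_s3 : ∃ t, chk3 f_A00pp_022_s3 t 32 249 2 = true :=
  ⟨(a (a (l 14) (b (b (a (l 14) (a (l 14) (a (l 14) (c (l 16683120) (l 16675384))))) (l 14)) (l 14))) (a (a (b (a (a (a (a (l 523406095) (l 523412751)) (a (l 523419663) (l 523426319))) (a (a (l 523432975) (l 523439887)) (a (l 523446543) (l 523453455)))) (a (a (a (l 523460111) (l 523466767)) (a (l 523473679) (l 523212047))) (a (a (l 523218703) (l 523493903)) (a (l 523500559) (l 523775759))))) (a (a (l 14) (a (l 14) (a (l 523332111) (l 523338767)))) (a (a (a (l 523345679) (l 523083791)) (a (l 523090703) (l 523097359))) (a (a (l 523104271) (l 523110927)) (a (l 523117583) (l 523392783)))))) (a (a (a (a (l 523389711) (l 523463439)) (a (l 523470095) (l 523477007))) (a (a (l 523483663) (l 523490575)) (a (l 523497231) (l 523503887)))) (a (a (a (l 523510799) (l 523517455)) (a (l 523524367) (l 523531023))) (a (a (l 523537679) (l 523544591)) (a (l 523551247) (l 523558159)))))) (a (a (a (a (a (l 523564815) (l 523571471)) (a (l 523578383) (l 523585039))) (a (b (l 523652623)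 (l 523537935)) (b (l 523666191) (l 523551503)))) (a (a (b (l 523679503) (l 523565071)) (b (l 523693071) (l 523578639))) (a (b (l 523706639) (l 523323663)) (l 523595535)))) (a (a (a (l 523676175) (l 523689743)) (a (l 523703311) (l 523716879))) (a (a (l 523730191) (l 523743759)) (a (l 523757327) (l 523770895))))))), by decide +kernel⟩

def k63_A00pp_022_s3 : ∃ t, chk3 f_A00pp_022_s3 t 32 125 2 = true :=
  ⟨(a (l 14) (b (a (a (l 14) (a (b (b (a (a (l 523316751) (l 523330319)) (a (l 523343631) (l 523088911))) (a (l 14) (a (l 523286031) (l 523031055)))) (l 14)) (a (a (a (l 523280655) (l 523287311)) (a (l 523294223) (l 523300879))) (a (a (l 523307535) (l 523314447)) (b (l 523382287) (l 523266831)))))) (a (a (a (a (b (l 523395855) (l 523280399)) (b (l 523409423) (l 523293711))) (a (b (l 523422991) (l 523307279)) (b (l 523436303) (l 523320847)))) (a (a (b (l 523449871) (l 523065871)) (b (l 523195151) (l 523079439))) (a (b (l 523208463) (l 523093007)) (b (l 523222031) (l 523106319))))) (a (a (a (b (l 523235599) (l 523119887)) (b (l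 523249167) (l 523133455))) (a (a (l 523469839) (l 523476495)) (l 523419407))) (a (a (l 523500047) (l 523513615)) (a (l 523527183) (l 523540495)))))) (a (l 14) (a (b (a (a (l 14) (a (l 523191311) (l 522936335))) (a (a (l 522949647) (l 522963215)) (a (l 522976783) (l 522990351)))) (a (l 14) (a (l 14) (a (l 14) (l 522873615))))) (a (a (a (b (l 523003663) (l 522887183)) (b (l 523017231) (l 522900495))) (a (b (l 523030799) (l 522914063)) (b (l 523044367) (l 522927631)))) (a (a (b (l 523057679) (l 522940943)) (a (l 523277839) (l 523284751))) (a (a (l 523291407) (l 523298063)) (l 523240975)))))))), by decide +kernel⟩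

def k64_A00pp_022_s3 : ∃ t, chk3 f_A00pp_022_s3 t 64 124 3 = true :=
  ⟨(a (l 14) (b (b (a (a (l 14) (c (c (l 16645416) (l 16640416)) (c (l 16635352) (l 16630216)))) (c (a (c (l 16649560) (l 16644744)) (a (c (l 16657896) (l 16653200)) (c (l 16659944) (l 16655336)))) (a (c (l 16639856) (l 16634896)) (a (c (l 16648448) (l 16643632)) (c (l 16650672) (l 16645944)))))) (a (l 14) (b (a (a (c (l 16652496) (l 16643128)) (c (l 16654600) (l 16645408))) (a (c (l 16656696) (l 16647680)) (c (l 16658784) (l 16649944)))) (a (a (l 14) (c (l 16658912) (l 16650056))) (a (c (l 16661000) (l 16652320)) (c (l 16663080) (l 16654576))))))) (b (b (a (l 14) (a (l 14) (c (c (l 16673664) (l 16669592)) (c (l 16660216) (l 16650792))))) (l 14)) (l 14)))), by decide +kernel⟩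

def k65_A00pp_022_s3 : ∃ t, chk3 f_A00pp_022_s3 t 65 248 3 = true :=
  ⟨(a (a (c (a (b (a (b (l 16652384) (l 16656600)) (b (l 16654456) (l 16658672))) (a (c (l 16665096) (l 16660896)) (c (l 16667120) (l 16663008)))) (b (a (b (l 16656528) (l 16660736)) (c (l 16662808) (l 16658544))) (a (c (l 16669128) (l 16665112)) (c (l 16671136) (l 16667200))))) (b (c (c (a (l 16655128) (l 16659472)) (l 16655072)) (c (l 16652816) (l 16650552))) (c (a (a (l 16656648) (l 16658848)) (a (l 16661032) (l 16663208))) (a (l 16658728) (l 16663280))))) (a (a (a (a (b (l 521555215) (l 521419791)) (a (l 521494031) (l 521498383))) (a (a (l 521502735) (l 521507343)) (a (l 521511695) (l 521516047)))) (a (a (a (l 521520399) (l 521524751)) (a (l 521529359) (l 521533711))) (a (a (l 521538063) (l 521542415)) (l 521683471)))) (a (a (a (l 521692175) (l 521700879)) (a (l 521709839) (l 521718543))) (a (a (l 521593359) (l 521602063)) (a (l 521611023) (l 521619727)))))) (a (a (a (a (a (l 521628687) (l 521637391)) (a (l 521646351) (l 521655055))) (a (b (l 521735951)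 (l 521600783)) (b (l 521753615) (l 521618447)))) (a (a (b (l 521771279) (l 521636111)) (b (l 521788943) (l 521653775))) (a (b (l 521806607) (l 521671439)) (b (l 521824271) (l 521689103))))) (a (a (a (b (l 521841935) (l 521706767)) (b (l 521859599) (l 521724175))) (a (a (l 521805071) (l 521814031)) (a (l 521822735) (l 521831695)))) (a (a (l 521978895) (l 521996559)) (a (l 521880079) (l 521897743)))))), by decide +kernel⟩

def k66_A00pp_022_s3 : ∃ t, chk3 f_A00pp_022_s3 t 65 249 3 = true :=
  ⟨(a (a (a (b (b (c (c (l 16672472) (l 16668568)) (c (l 16664616) (l 16660608))) (c (c (l 16676768) (l 16673032)) (c (l 16669248) (l 16665408)))) (a (l 14) (a (l 14) (a (l 521059087) (l 521067791))))) (a (a (a (b (l 521213199) (l 521076751)) (b (l 521222159) (l 521085455))) (a (b (l 521230863) (l 521094415)) (b (l 521239823) (l 521103119)))) (a (a (b (l 521248527) (l 521112079)) (b (l 521257487) (l 521120783))) (a (b (l 521266191) (l 521129743)) (b (l 521275151) (l 521138447)))))) (a (a (a (a (b (l 521283855) (l 521147407)) (b (l 521292815)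 (l 521156111))) (a (b (l 521301519) (l 521165071)) (b (l 521310479) (l 521173775)))) (a (a (b (l 521587727) (l 521182735)) (b (l 521596431) (l 521191439))) (a (a (l 521266191) (l 521270543)) (a (l 521275151) (l 521279503))))) (a (a (a (a (l 521283855) (l 521288207)) (a (l 521292559) (l 521297167))) (a (a (l 521301519) (l 521305871)) (a (l 521310223) (l 521314831)))) (a (a (a (l 521319183) (l 521323535)) (a (l 521327887) (l 521332495))) (a (l 521439759) (l 521414927)))))) (a (a (a (a (a (l 521423631) (l 521432591)) (b (l 521447183) (l 521377551))) (a (b (l 521464847) (l 521328143)) (b (l 521482511) (l 521345807)))) (a (a (b (l 521500175) (l 521363471)) (b (l 521517839) (l 521381135))) (a (b (l 521535247) (l 521398799)) (b (l 521552911) (l 521416463))))) (a (a (a (b (l 521570575) (l 521434127)) (b (l 521588239) (l 521451791))) (a (b (l 521605903) (l 521469199)) (b (l 521623567) (l 521486863)))) (a (a (a (l 521568527) (l 521577231)) (a (l 521585935) (l 521594895))) (a (a (l 521603599) (l 521612559)) (l 521759759)))))), by decide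 +kernel⟩

def k67_A00pp_022_s3 : ∃ t, chk3 f_A00pp_022_s3 t 32 125 3 = true :=
  ⟨(a (l 14) (a (b (a (l 14) (b (a (a (a (a (l 521010191) (l 521018895)) (a (l 521027599) (l 521036559))) (a (a (l 521045263) (l 521054223)) (a (l 521062927) (l 521071887)))) (a (a (a (l 521080591) (l 521357839)) (b (l 521137167) (l 521068303))) (a (b (l 521154831) (l 521085967)) (b (l 521172495) (l 521103631))))) (a (l 14) (a (a (l 14) (a (l 520960527) (l 520969231))) (a (b (l 521016847) (l 14)) (b (l 521034767) (l 520965647))))))) (l 14)) (a (a (a (b (a (b (b (l 521189903) (l 521121295)) (b (l 521052175) (l 520983055))) (b (b (l 521207567) (l 521138959)) (b (l 521069839) (l 521000719)))) (l 14)) (b (a (b (l 521224463) (a (l 521317135) (l 521325839))) (b (l 521208591) (a (l 521334799) (l 521343503)))) (b (a (a (l 521178639) (l 521187343)) (a (l 521196047) (l 521205007))) (l 14)))) (a (b (a (b (l 521226255) (l 521088271)) (b (l 521243919) (l 521105935))) (b (a (a (l 521213711) (l 521222671)) (l 521000975)) (l 14))) (b (a (b (l 521261583) (l 521123599))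 (b (l 521278991) (l 521141263))) (a (b (l 520984847) (l 14)) (b (l 521002511) (l 520863503)))))) (a (a (b (a (b (l 521296655) (l 521158927)) (b (l 521314319) (l 521176335))) (a (b (l 521020175) (l 520880911)) (b (l 521037839) (l 520898575)))) (b (a (b (l 521331983) (l 521193999)) (b (l 521349647) (l 521211663))) (a (b (l 521055503) (l 520916239)) (b (l 521073167) (l 520933903))))) (a (b (a (b (l 521367311) (l 521229327)) (b (l 521384975) (l 521246991))) (a (b (l 521090831) (l 520951567)) (b (l 521108495) (l 520969231)))) (b (a (b (l 521402639) (l 521264655)) (a (l 521346831) (l 521355535))) (a (b (l 521126159) (l 520986895)) (b (l 521143823) (l 521004559))))))))), by decide +kernel⟩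

def k68_A00pp_022_s3 : ∃ t, chk3 f_A00pp_022_s3 t 264 62 1 = true :=
  ⟨(a (b (a (c (b (a (l 524012559) (l 524026127)) (a (l 523784463) (l 523797775))) (b (a (l 521915407) (l 521933071)) (a (l 521777423) (l 521795087)))) (c (b (a (l 524039695) (l 524053007)) (a (l 523811343) (l 523824911))) (b (a (l 521950735) (l 521968143)) (a (l 521678607) (l 521696271))))) (a (b (c (a (l 523554063) (l 523567631)) (a (a (l 521364495) (l 521373199)) (a (l 521381903) (l 521390863)))) (c (a (l 523321615) (l 523335183)) (a (b (l 521161231) (l 521021967)) (b (l 521178895) (l 521039631))))) (b (c (a (l 523581199) (l 523594511)) (a (a (l 521399567) (l 521408527)) (a (l 521417231) (l 521426191)))) (c (a (l 523348751) (l 523362319)) (a (b (l 521196559) (l 521057295)) (b (l 521482767) (l 521074959))))))) (b (a (c (b (a (l 524066575) (l 524080143)) (a (l 523838479) (l 523852047))) (b (a (l 521985807) (l 522003471)) (a (l 521713935) (l 521731599)))) (c (b (a (l 524093711) (l 524107279)) (a (l 523865359) (l 523878927))) (b (a (l 522021135) (l 522038799))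 (a (l 521749263) (l 521766671))))) (a (b (c (a (l 523608079) (l 523621647)) (a (a (l 521434895) (l 521443855)) (l 521557519))) (c (a (l 523375631) (l 523389199)) (a (b (l 521500175) (l 521092623)) (a (l 521175311) (l 521184271))))) (b (c (a (l 523635215) (l 523648527)) (a (l 521541647) (l 521559311))) (c (a (l 523402767) (l 523416335)) (a (a (l 521192975) (l 521201679)) (a (l 521210639) (l 521219343)))))))), by decide +kernel⟩

def k69_A00pp_022_s3 : ∃ t, chk3 f_A00pp_022_s3 t 265 62 1 = true :=
  ⟨(a (b (a (c (b (a (l 524120847) (l 524134159)) (a (l 523892495) (l 523906063))) (b (a (l 522056463) (l 522074127)) (a (l 521784335) (l 521801999)))) (c (b (a (l 524147727) (l 524161295)) (a (l 523919631) (l 523932943))) (b (a (l 522091791) (l 522109455)) (a (l 521819663) (l 521837327))))) (a (b (c (a (l 523662095) (l 523675663)) (a (l 521509903) (l 521527311))) (c (a (l 523429647) (l 523443215)) (a (a (l 521228303) (l 521237007)) (a (l 521245967) (l 521254671))))) (c (b (a (l 523689231) (l 523702799)) (a (l 523456783) (l 523470351)))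 (b (a (l 521544975) (l 521562639)) (a (a (l 521263375) (l 521272335)) (l 521386255)))))) (b (a (c (b (l 524114191) (a (l 523946511) (l 523960079))) (b (a (l 522127119) (l 522144783)) (a (l 521854991) (l 521872655)))) (c (b (l 524208399) (a (l 523973647) (l 523987215))) (b (a (l 522162447) (l 522179855)) (a (l 521890319) (l 521907983))))) (a (c (b (a (l 523716111) (l 523729679)) (a (l 523483663) (l 523497231))) (b (a (l 521580303) (l 521597967)) (a (l 521370127) (l 521387791)))) (c (b (a (l 523743247) (l 523756815)) (a (l 523510799) (l 523524367))) (b (a (l 521615631) (l 521633295)) (a (l 521405455) (l 521356047))))))), by decide +kernel⟩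

def k70_A00pp_022_s3 : ∃ t, chk3 f_A00pp_022_s3 t 133 62 1 = true :=
  ⟨(a (a (b (c (a (b (l 524235535) (l 524007183)) (b (l 524262671) (l 524034319))) (a (b (a (l 522197519) (l 522215183)) (a (l 521925391) (l 521943055))) (b (b (l 522309391) (l 522173967)) (a (l 521960719) (l 521978383))))) (c (a (b (a (l 523770127) (l 523783695)) (a (l 523537679) (l 523551247))) (b (a (l 523797263) (l 523810831)) (a (l 523564815) (l 523578383)))) (a (b (a (l 521650703) (l 521668367)) (a (l 521373455) (l 521391119))) (b (a (l 521686031) (l 521703695)) (a (l 521408783) (l 521426447)))))) (b (c (a (b (l 524289551) (l 524061199)) (b (l 524316687) (l 524088335))) (a (b (l 522444559) (a (l 521996047) (l 522013711))) (b (l 522446351) (a (l 522031375) (l 522048783))))) (c (a (b (a (l 523824399) (l 523837711)) (a (l 523591695) (l 523605263))) (b (l 523857935) (a (l 523618831) (l 523632399)))) (a (b (b (l 521799183) (l 521661199)) (a (l 521444111) (l 521461775))) (b (b (l 521834511) (l 521696527)) (b (l 521557775) (l 521418511))))))) (b (a (c (a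 (b (l 524343823) (l 524115471)) (b (l 524370959) (l 524142351))) (a (b (l 522481423) (b (l 522143759) (l 522007055))) (b (l 522382607) (l 522244623)))) (c (a (b (l 524397839) (l 524169487)) (b (l 524424975) (l 524196623))) (a (b (l 522417935) (l 522279951)) (b (l 522453007) (l 522180879))))) (a (c (b (a (l 523885071) (l 523911951)) (a (l 523652367) (l 523679503))) (b (a (b (l 521869583) (l 521731599)) (b (l 521904911) (l 521766927))) (a (b (l 521593103) (l 521453839)) (b (l 521628175) (l 521488911))))) (c (b (a (l 523939087) (l 523965967)) (a (l 523706383) (l 523733519))) (b (a (b (l 521940239) (l 521802255)) (a (l 521897487) (l 521915151))) (a (b (l 521663503) (l 521524239)) (b (l 521698831) (l 521559311)))))))), by decide +kernel⟩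

def k71_A00pp_022_s3 : ∃ t, chk3 f_A00pp_022_s3 t 67 124 1 = true :=
  ⟨(a (a (a (c (a (b (l 524452111) (l 524223503)) (b (l 524478991) (l 524250639))) (a (b (l 522488335) (l 522216207)) (b (l 522523663) (l 522251535)))) (c (b (a (l 524506127) (l 524533263)) (a (l 524277775) (l 524304655))) (b (a (l 522558991) (l 522594063)) (a (l 522286607) (l 522321935))))) (c (a (b (a (l 524560399) (l 524855823)) (a (l 524331791) (l 524358927))) (b (b (l 524684559) (l 524570895)) (a (l 524386063) (l 524412943)))) (a (b (a (l 522629391) (l 522664719)) (a (l 522357263) (l 522392335))) (b (a (l 522699791) (l 522735119)) (a (l 522427663) (l 522462991)))))) (a (a (c (b (b (l 524738831) (l 524625167)) (b (l 524510735) (l 524396047))) (b (a (l 522770447) (l 523074063)) (a (l 522498063) (l 522533391)))) (c (b (l 524736015) (b (l 524565007) (l 524450063))) (b (b (l 522926095) (l 522790415)) (a (l 522568463) (l 522603791))))) (a (c (b (l 524790031) (l 524561679)) (b (b (l 522996495) (l 522861071)) (b (l 522724879) (l 522588175)))) (c (b (l 524844303)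 (l 524615695)) (b (l 523200271) (b (l 522795279) (l 522658575))))))), by decide +kernel⟩

def k72_A00pp_022_s3 : ∃ t, chk3 f_A00pp_022_s3 t 67 125 1 = true :=
  ⟨(a (b (a (a (c (a (l 523993103) (l 524020239)) (a (l 522075663) (l 522077455))) (c (a (l 524047119) (l 524074255)) (a (l 522078991) (l 522047247)))) (a (c (a (l 524101391) (l 524128271)) (a (l 522082319) (l 522117647))) (c (a (l 524155407) (l 524182543)) (a (l 522152975) (l 522188047))))) (b (a (a (c (a (l 524087567) (l 524114447)) (a (l 521733903) (l 522037519))) (c (a (l 524141583) (l 524168719)) (a (l 522072847) (l 522108175)))) (a (a (c (l 524195599) (l 522143247)) (l 4)) (l 4))) (l 4))) (b (a (a (c (a (l 524209423) (l 524236559)) (a (l 522223375) (l 522258447))) (c (a (l 524263439) (l 524290575)) (a (l 522293775) (l 522328847)))) (b (a (c (l 524388879) (l 522450703)) (c (l 524443151) (l 522521103))) (l 4))) (l 4))), by decide +kernel⟩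

def k73_A00pp_022_s3 : ∃ t, chk3 f_A00pp_022_s3 t 16 63 1 = true :=
  ⟨(b (b (a (b (a (l 14) (a (l 14) (a (l 14) (a (l 14) (a (c (a (l 522823951) (l 522837263)) (a (l 520811791) (l 520829199))) (c (a (l 522850831) (l 522864399)) (a (l 520846863) (l 520864527)))))))) (l 14)) (a (a (a (a (b (a (c (a (l 522877711) (l 523159823)) (a (l 520882191) (l 520899855))) (c (a (l 523173135) (l 523455247)) (a (l 520917519) (l 520935183)))) (b (a (a (l 14) (c (l 523340047) (l 521062927))) (c (a (l 523353359) (l 523366927)) (a (l 521080591) (l 521098255)))) (l 14))) (a (c (a (a (l 523137807) (l 523144719)) (a (l 523151375) (l 523158031))) (a (a (l 520944911) (l 520953871)) (a (l 520962575) (l 520971535)))) (c (a (l 523168271) (l 523181583)) (a (a (l 520980239) (l 520989199)) (a (l 520930831) (l 520939535)))))) (a (a (c (a (l 523195151) (l 523208719)) (a (a (l 520948495) (l 520957199)) (a (l 520966159) (l 520974863)))) (c (a (l 523222031) (l 523235599)) (a (a (l 520983567) (l 520992527)) (a (l 521001231) (l 521010191))))) (b (a (c (l 523180559)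 (b (l 521137423) (l 521067279))) (c (l 523073295) (a (l 521397263) (l 521414927)))) (l 4)))) (a (b (a (a (c (l 523100431) (a (l 521432591) (l 521450255))) (c (l 523127311) (c (l 522034703) (l 520911119)))) (a (c (l 523154447) (l 521243407)) (l 4))) (l 4)) (l 4))) (l 4))) (a (l 14) (l 4))) (a (l 14) (l 4))), by decide +kernel⟩

def k74_A00pp_022_s3 : ∃ t, chk3 f_A00pp_022_s3 t 17 31 1 = true :=
  ⟨(b (b (a (a (b (a (a (a (c (l 524898575) (l 523203855)) (c (l 524952591) (l 523139855))) (a (c (l 525006863) (l 523210511)) (c (l 525061135) (l 523280911)))) (a (c (a (l 525115151) (l 525169423)) (a (l 523351311) (l 523421711))) (c (a (l 525223695) (l 525546255)) (a (l 523492111) (l 523562511))))) (a (a (a (c (l 524669967) (l 522931471)) (c (l 524723983) (l 522867727))) (a (c (l 524778255) (l 522938127)) (c (l 524832271) (l 523008527)))) (a (a (c (l 524886543) (l 523078927)) (c (l 524940559) (l 523149327))) (l 4)))) (b (b (a (a (c (l 525415695) (a (l 523969039) (l 524039439))) (c (l 525523983) (l 523876111))) (l 4)) (l 4)) (l 4)))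 (l 4)) (l 4)) (l 4)), by decide +kernel⟩

def k75_A00pp_022_s3 : ∃ t, chk3 f_A00pp_022_s3 t 36 28 1 = true :=
  ⟨(a (b (l 6) (b (a (a (l 6) (c (l 530083855) (l 529477135))) (c (a (l 530229519) (l 530373647)) (a (l 529656847) (l 529834767)))) (a (c (a (l 529667855) (l 529818639)) (a (b (l 529050895) (l 528880655)) (l 529150991))) (c (a (l 529967887) (l 530116111)) (a (l 529334543) (l 529516815)))))) (b (a (l 6) (b (l 6) (a (l 530572815) (l 530988303)))) (a (c (b (l 530048783) (a (l 530262543) (l 530406159))) (b (a (l 530010639) (l 530184207)) (a (l 529697039) (l 529874703)))) (c (b (l 530859791) (l 530346511)) (b (l 530168591) (a (l 530048527) (l 530217999))))))), by decide +kernel⟩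

def k76_A00pp_022_s3 : ∃ t, chk3 f_A00pp_022_s3 t 36 29 1 = true :=
  ⟨(a (b (a (c (b (a (l 529385487) (l 529536015)) (a (l 528696847) (l 529246735))) (b (a (b (l 528439055) (l 528264463)) (l 528536335)) (a (b (l 528089103) (l 527913743)) (b (l 528271631) (l 528094223))))) (c (b (a (l 529689103) (l 529843215)) (a (l 529397007) (l 529550351))) (b (a (l 528992527) (l 529181455)) (a (l 528635663) (l 528823823))))) (a (b (c (a (c (l 528764175) (l 528329231)) (c (l 528898575) (l 528480271))) (a (c (l 527881487) (l 527421199)) (c (l 528049679) (l 527606543)))) (c (a (b (l 528347919) (l 528228367)) (b (l 528486671) (l 528365071))) (a (b (a (l 527361807) (l 527447567)) (a (l 527211791) (l 527296271))) (b (l 527576847) (b (l 527460367) (l 527389967)))))) (b (c (a (c (l 529036047) (l 528634127)) (l 528985359)) (a (b (l 528098831) (l 527922191)) (b (l 528551695) (l 528371983)))) (c (b (a (l 528627983) (l 528771855)) (a (l 528503823) (l 528644623))) (b (a (l 527751951) (l 527929871)) (a (l 527596559) (l 527770895))))))) (b (a (b (c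 (a (l 529994511) (l 530143247)) (a (l 529367311) (l 529550095))) (c (a (l 529706511) (l 529863439)) (a (l 529014799) (l 529206799)))) (c (b (l 529821967) (a (l 530016015) (l 530162959))) (b (a (l 529729295) (l 529903375)) (a (l 529393679) (l 529574671))))) (a (b (c (a (l 529405711) (l 529561359)) (a (b (l 528740111) (l 528556815)) (l 528838159))) (c (b (c (l 529182735) (l 528798735)) (a (l 528787471) (l 528932367))) (b (a (l 528379151) (l 528563215)) (a (l 527947535) (l 528395023))))) (b (a (c (l 529720079) (l 529031951)) (c (l 529613071) (b (l 529316623) (l 529134863)))) (c (b (c (l 529473295) (l 529122831)) (a (l 529079823) (l 529018639))) (b (a (l 528751375) (l 528944655)) (a (l 528576527) (c (l 528669967) (l 528290319))))))))), by decide +kernel⟩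

def k77_A00pp_022_s3 : ∃ t, chk3 f_A00pp_022_s3 t 37 14 1 = true :=
  ⟨(b (a (b (a (b (l 6) (c (l 531349007) (l 531047183))) (b (l 531452431) (l 530664463))) (a (c (b (l 531117839) (l 530877455)) (b (l 530759183) (l 530460431))) (b (c (l 531358223) (l 531061775)) (c (l 531119375) (l 530765071))))) (b (a (b (l 531718159) (l 531468047)) (b (l 532250639) (l 531733263))) (a (b (l 530942991) (c (l 531357967) (l 531065615))) (b (l 531478031) (l 530944783))))) (a (a (b (c (b (l 530627855) (l 529831439)) (b (l 529613839) (a (l 529747983) (l 529910287)))) (c (b (a (l 530029327) (l 530164751)) (a (b (l 529823503) (l 529385231)) (c (l 529775375) (l 529459471)))) (b (a (l 529410319) (l 529578767)) (a (b (l 529156367) (c (l 528862223) (l 528500751))) (b (l 529319951) (c (l 529050383) (l 528707087))))))) (b (c (b (l 530871567) (l 530614287)) (b (l 530457615) (l 530138895))) (c (b (l 530347535) (l 530070799)) (b (l 529809167) (l 529467407))))) (c (b (a (l 530446095) (l 530953743)) (a (b (l 530589711) (l 530314255)) (l 530156815))) (b (a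 (b (l 530759695) (l 530442511)) (b (l 531060239) (l 530744591))) (a (b (l 530114319) (l 529774351)) (b (l 530417935) (l 530079503))))))), by decide +kernel⟩

def k78_A00pp_022_s3 : ∃ t, chk3 f_A00pp_022_s3 t 19 14 1 = true :=
  ⟨(b (a (c (a (b (b (l 532091151) (l 531870991)) (a (l 531680271) (l 531914511))) (b (b (l 532819471) (l 532333071)) (a (l 532147471) (l 532378895)))) (b (a (a (l 531837199) (l 532129295)) (a (l 532151055) (l 532439311))) (a (a (l 531271183) (l 531566351)) (b (l 531880463) (l 531591951))))) (b (a (b (a (l 532773135) (l 532253711)) (a (l 532651791) (l 532398863))) (b (a (l 532004111) (l 531756303)) (c (l 532178703) (l 531590415)))) (a (c (a (l 532609039) (l 532837391)) (a (l 532440847) (l 532549135))) (a (b (l 532293647) (l 532448783)) (b (l 531773455) (l 532194575)))))) (b (a (a (a (b (l 531206415) (l 530654735)) (b (l 531472911) (l 531191055))) (a (b (l 532006159) (l 531457551)) (c (l 532167183) (l 531823375)))) (a (a (c (l 532131855) (l 532116495)) (b (l 532522767) (l 4))) (c (l 532169743) (c (l 532268559)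 (l 531937039))))) (b (a (a (a (l 530092815) (l 530899215)) (a (l 531166991) (l 4))) (l 4)) (l 4)))), by decide +kernel⟩

def k79_A00pp_022_s3 : ∃ t, chk3 f_A00pp_022_s3 t 9 15 1 = true :=
  ⟨(a (b (b (b (a (a (a (c (a (b (l 528129295) (l 528024079)) (b (l 528266511) (l 528162063))) (a (b (l 527125519) (l 526989839)) (b (l 527296015) (l 527161615)))) (c (a (c (l 528583951) (l 528121871)) (b (l 528814351) (l 528711951))) (a (b (l 527468559) (l 527335183)) (b (l 527643151) (l 527779087))))) (a (c (b (c (l 528964879) (l 528551183)) (l 528926991)) (b (a (l 527819279) (l 528265743)) (c (l 528002063) (l 527548431)))) (c (b (a (l 528978447) (l 529125903)) (l 529220623)) (b (a (l 528177167) (l 528358927)) (l 528407311))))) (b (a (a (a (c (l 529543183) (l 528541967)) (a (c (l 529656335) (l 528949263)) (b (c (l 529478415) (l 528794639)) (l 4)))) (l 4)) (l 4)) (l 4))) (a (b (a (a (c (a (l 527905807) (l 528044559)) (a (l 526839823) (l 527012623))) (c (c (l 528492047) (l 528015631)) (c (l 527525135) (l 527020559)))) (a (c (l 528812815)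 (c (l 527864847) (l 527395343))) (l 4))) (a (a (c (a (l 527773967) (l 527913743)) (a (l 526675215) (l 526849039))) (a (c (l 528055567) (l 527024655)) (l 4))) (l 4))) (l 4))) (l 4)) (l 4)) (l 4)), by decide +kernel⟩

def k80_A00pp_022_s3 : ∃ t, chk3 f_A00pp_022_s3 t 5 7 1 = true :=
  ⟨(b (b (a (a (a (b (a (b (c (l 531626767) (l 530870031)) (a (l 531382543) (l 531137039))) (b (c (l 531196687) (a (l 531267855) (l 530997263))) (c (a (l 531953423) (l 531739663)) (b (l 530989839) (l 531337231))))) (a (c (a (l 532027151) (l 531806223)) (a (b (l 532149263) (l 532327183)) (b (l 531872015) (l 532047375)))) (b (c (l 531686927) (a (l 531597071) (l 531324175))) (l 4)))) (a (a (b (b (c (l 531411727) (l 530724879)) (b (c (l 531509007) (l 530864911)) (l 530712335))) (b (c (l 531633679) (l 531053327)) (l 4))) (b (b (c (l 531198991) (l 530455823)) (c (b (l 531290639) (l 531338767)) (b (l 530321167) (l 530662927)))) (l 4))) (b (b (c (l 530358543) (a (l 530199311) (l 529944847))) (a (c (l 530576911) (b (l 530330639) (l 4))) (l 4))) (l 4))))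 (a (a (b (b (a (c (l 530596879) (l 529692687)) (c (l 530400015) (l 529442831))) (l 4)) (l 4)) (l 4)) (l 4))) (l 4)) (l 4)) (l 4)), by decide +kernel⟩

def k81_A00pp_022_s3 : ∃ t, chk3 f_A00pp_022_s3 t 6 4 1 = true :=
  ⟨(l 6), by decide +kernel⟩

def k82_A00pp_022_s3 : ∃ t, chk3 f_A00pp_022_s3 t 12 5 1 = true :=
  ⟨(b (l 6) (a (a (b (l 6) (a (b (l 6) (c (l 524918031) (b (l 521962767) (l 522056463)))) (c (b (l 524547855) (l 524659471)) (b (l 521485583) (b (l 521620239) (l 521712655)))))) (b (b (l 6) (l 6)) (c (b (a (l 524030735) (l 523790095)) (a (l 524140559) (l 523898127))) (b (a (l 521154575) (l 520833807)) (a (b (l 521019407) (l 521110543)) (b (l 520696591) (l 520786703))))))) (b (b (a (l 6) (c (a (l 523454991) (l 523249935)) (a (c (l 520792847) (l 518947599)) (l 519600655)))) (a (c (a (l 523991055) (l 523768335)) (a (l 520354575) (l 519787535))) (c (a (l 523553807) (l 523347471)) (a (l 519499023) (l 519489039))))) (a (c (b (a (l 523557647) (l 523333391)) (a (l 523663887) (l 523437839))) (b (a (l 520523023) (l 519953679))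 (a (b (l 520384015) (l 520472847)) (a (l 520200207) (l 520051215))))) (c (b (a (l 523385871) (l 523446543)) (a (l 523219983) (l 523010575))) (b (a (l 519663119) (l 519382543)) (a (b (l 520326159) (l 519875087)) (c (l 520972815) (l 519185935))))))))), by decide +kernel⟩

def k83_A00pp_022_s3 : ∃ t, chk3 f_A00pp_022_s3 t 13 5 1 = true :=
  ⟨(b (a (b (l 6) (a (b (l 6) (c (l 522589711) (a (l 519188495) (l 518934799)))) (c (a (b (l 522481935) (l 522584591)) (l 521824527)) (b (a (l 518556943) (l 518326543)) (a (l 518691599) (l 518458895)))))) (a (a (b (l 6) (c (l 521659919) (b (l 518107407) (l 518237455)))) (b (c (l 521024527) (b (l 6) (l 517774095))) (c (l 521234447) (b (l 517899279) (l 518027023))))) (a (b (c (l 521145103) (b (l 2) (l 517578255))) (c (l 521353231) (b (l 517702415) (l 517828623)))) (l 2)))) (a (b (c (a (b (a (l 523053071) (l 522864399)) (a (l 523149583) (l 522959631))) (b (a (l 522683919) (l 522511887)) (l 522154255))) (a (b (a (l 519334415) (l 519078671)) (a (l 519489551) (l 519231759))) (b (b (l 518409743) (l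 518482447)) (a (l 518984207) (l 518746895))))) (b (c (a (a (l 523246863) (l 523055631)) (a (l 522872591) (l 522697743))) (a (a (l 519112463) (l 519120655)) (a (l 519139343) (l 518899983)))) (a (a (c (l 522809103) (l 519276559)) (c (l 523152911) (l 519014159))) (l 4)))) (b (b (a (a (c (l 522346767) (l 518374415)) (c (l 522193423) (l 518157839))) (c (a (l 522042639) (l 521902351)) (a (a (l 518006287) (l 517908239)) (l 517765647)))) (a (c (l 521824271) (l 518142223)) (a (c (l 522133775) (l 518098447)) (l 4)))) (a (a (a (c (l 521813007) (l 518267663)) (l 4)) (l 4)) (l 4))))), by decide +kernel⟩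

def k84_A00pp_022_s3 : ∃ t, chk3 f_A00pp_022_s3 t 7 2 1 = true :=
  ⟨(b (l 2) (b (l 2) (b (l 2) (l 4)))), by decide +kernel⟩

def k85_A00pp_022_s3 : ∃ t, chk3 f_A00pp_022_s3 t 3 3 1 = true :=
  ⟨(b (b (a (a (a (a (b (c (a (b (l 525035791) (b (l 524857871) (l 524919823))) (b (l 524774927) (b (l 524595215) (l 524655887)))) (a (b (b (l 522152207) (l 522249743)) (a (c (l 523458575) (l 522044943)) (l 522244879))) (b (b (l 521806863) (l 521903119)) (b (l 521934095) (c (l 523093263) (l 521634319)))))) (b (c (a (a (b (l 525587471) (l 525115151)) (l 524947983)) (b (l 524717839) (l 524780559))) (a (a (b (l 522375439) (c (l 523693583) (l 522332431))) (b (l 522465551) (l 522302479))) (b (a (l 522021391) (l 521848335)) (a (l 522126095) (l 521951759))))) (a (b (b (c (a (l 525164303) (l 525565199)) (a (c (l 523766543) (l 522421519)) (l 522382863))) (l 4)) (l 4)) (l 4)))) (a (b (c (b (l 524253711) (b (l 524340751) (l 524400143))) (b (b (l 521203471) (l 521432335)) (b (c (l 522686479) (l 521164303)) (c (l 522775055) (l 521272591))))) (b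 (b (c (l 524460559) (a (l 521677583) (l 521509135))) (l 4)) (l 4))) (b (c (b (l 523740943) (b (l 524094479) (l 524152591))) (b (b (l 520878095) (l 521105679)) (b (c (l 522379279) (l 520814607)) (a (l 521244431) (l 521082127))))) (l 4)))) (b (b (c (a (a (l 523504655) (c (l 524857871) (l 523291663))) (a (l 523324943) (l 523113231))) (a (a (b (l 520562959) (l 520788751)) (b (l 520257807) (l 520347919))) (a (b (l 519962639) (l 520051471)) (b (l 519677455) (l 4))))) (a (a (c (b (l 523856399) (l 523913231)) (b (c (l 522081551) (l 520475663)) (a (l 520922127) (l 4)))) (a (b (c (l 524219919) (l 521052687)) (l 4)) (l 4))) (l 4))) (l 4))) (l 4)) (l 4)) (l 4)) (l 4)), by decide +kernel⟩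

theorem t86_A00pp_022_s3 : ∃ t, chk3 f_A00pp_022_s3 t 6 5 1 = true := ex3_a k82_A00pp_022_s3 k83_A00pp_022_s3

theorem t87_A00pp_022_s3 : ∃ t, chk3 f_A00pp_022_s3 t 6 2 1 = true := ex3_b k81_A00pp_022_s3 t86_A00pp_022_s3

theorem t88_A00pp_022_s3 : ∃ t, chk3 f_A00pp_022_s3 t 3 2 1 = true := ex3_a t87_A00pp_022_s3 k84_A00pp_022_s3

theorem t89_A00pp_022_s3 : ∃ t, chk3 f_A00pp_022_s3 t 3 1 1 = true := ex3_b t88_A00pp_022_s3 k85_A00pp_022_s3

theorem t90_A00pp_022_s3 : ∃ t, chk3 f_A00pp_022_s3 t 36 14 1 = true := ex3_b k75_A00pp_022_s3 k76_A00pp_022_s3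

theorem t91_A00pp_022_s3 : ∃ t, chk3 f_A00pp_022_s3 t 18 14 1 = true := ex3_a t90_A00pp_022_s3 k77_A00pp_022_s3

theorem t92_A00pp_022_s3 : ∃ t, chk3 f_A00pp_022_s3 t 9 14 1 = true := ex3_a t91_A00pp_022_s3 k78_A00pp_022_s3

theorem t93_A00pp_022_s3 : ∃ t, chk3 f_A00pp_022_s3 t 9 7 1 = true := ex3_b t92_A00pp_022_s3 k79_A00pp_022_s3

theorem t94_A00pp_022_s3 : ∃ t, chk3 f_A00pp_022_s3 t 67 62 1 = true := ex3_b k71_A00pp_022_s3 k72_A00pp_022_s3

theorem t95_A00pp_022_s3 : ∃ t, chk3 f_A00pp_022_s3 t 132 62 1 = true := ex3_a k68_A00pp_022_s3 k69_A00pp_022_s3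

theorem t96_A00pp_022_s3 : ∃ t, chk3 f_A00pp_022_s3 t 66 62 1 = true := ex3_a t95_A00pp_022_s3 k70_A00pp_022_s3

theorem t97_A00pp_022_s3 : ∃ t, chk3 f_A00pp_022_s3 t 33 62 1 = true := ex3_a t96_A00pp_022_s3 t94_A00pp_022_s3

theorem t98_A00pp_022_s3 : ∃ t, chk3 f_A00pp_022_s3 t 65 124 3 = true := ex3_b k65_A00pp_022_s3 k66_A00pp_022_s3

theorem t99_A00pp_022_s3 : ∃ t, chk3 f_A00pp_022_s3 t 32 124 3 = true := ex3_a k64_A00pp_022_s3 t98_A00pp_022_s3

theorem t100_A00pp_022_s3 : ∃ t, chk3 f_A00pp_022_s3 t 32 62 3 = true := ex3_b t99_A00pp_022_s3 k67_A00pp_022_s3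

theorem t101_A00pp_022_s3 : ∃ t, chk3 f_A00pp_022_s3 t 32 124 2 = true := ex3_b k61_A00pp_022_s3 k62_A00pp_022_s3

theorem t102_A00pp_022_s3 : ∃ t, chk3 f_A00pp_022_s3 t 32 62 2 = true := ex3_b t101_A00pp_022_s3 k63_A00pp_022_s3

theorem t103_A00pp_022_s3 : ∃ t, chk3 f_A00pp_022_s3 t 32 62 1 = true := ex3_c t102_A00pp_022_s3 t100_A00pp_022_s3

theorem t104_A00pp_022_s3 : ∃ t, chk3 f_A00pp_022_s3 t 16 62 1 = true := ex3_a t103_A00pp_022_s3 t97_A00pp_022_s3

theorem t105_A00pp_022_s3 : ∃ t, chk3 f_A00pp_022_s3 t 16 31 1 = true := ex3_b t104_A00pp_022_s3 k73_A00pp_022_s3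

theorem t106_A00pp_022_s3 : ∃ t, chk3 f_A00pp_022_s3 t 8 31 1 = true := ex3_a t105_A00pp_022_s3 k74_A00pp_022_s3

theorem t107_A00pp_022_s3 : ∃ t, chk3 f_A00pp_022_s3 t 35 60 1 = true := ex3_a k58_A00pp_022_s3 k59_A00pp_022_s3

theorem t108_A00pp_022_s3 : ∃ t, chk3 f_A00pp_022_s3 t 35 30 1 = true := ex3_b t107_A00pp_022_s3 k60_A00pp_022_s3

theorem t109_A00pp_022_s3 : ∃ t, chk3 f_A00pp_022_s3 t 69 30 1 = true := ex3_b k56_A00pp_022_s3 k57_A00pp_022_s3

theorem t110_A00pp_022_s3 : ∃ t, chk3 f_A00pp_022_s3 t 68 30 1 = true := ex3_b k54_A00pp_022_s3 k55_A00pp_022_s3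

theorem t111_A00pp_022_s3 : ∃ t, chk3 f_A00pp_022_s3 t 34 30 1 = true := ex3_a t110_A00pp_022_s3 t109_A00pp_022_s3

theorem t112_A00pp_022_s3 : ∃ t, chk3 f_A00pp_022_s3 t 17 30 1 = true := ex3_a t111_A00pp_022_s3 t108_A00pp_022_s3

theorem t113_A00pp_022_s3 : ∃ t, chk3 f_A00pp_022_s3 t 32 123 7 = true := ex3_b k51_A00pp_022_s3 k52_A00pp_022_s3

theorem t114_A00pp_022_s3 : ∃ t, chk3 f_A00pp_022_s3 t 32 123 6 = true := ex3_b k49_A00pp_022_s3 k50_A00pp_022_s3

theorem t115_A00pp_022_s3 : ∃ t, chk3 f_A00pp_022_s3 t 32 123 3 = true := ex3_c t114_A00pp_022_s3 t113_A00pp_022_s3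

theorem t116_A00pp_022_s3 : ∃ t, chk3 f_A00pp_022_s3 t 16 123 3 = true := ex3_a t115_A00pp_022_s3 k53_A00pp_022_s3

theorem t117_A00pp_022_s3 : ∃ t, chk3 f_A00pp_022_s3 t 32 122 3 = true := ex3_c k46_A00pp_022_s3 k47_A00pp_022_s3

theorem t118_A00pp_022_s3 : ∃ t, chk3 f_A00pp_022_s3 t 16 122 3 = true := ex3_a t117_A00pp_022_s3 k48_A00pp_022_s3

theorem t119_A00pp_022_s3 : ∃ t, chk3 f_A00pp_022_s3 t 16 61 3 = true := ex3_b t118_A00pp_022_s3 t116_A00pp_022_s3

theorem t120_A00pp_022_s3 : ∃ t, chk3 f_A00pp_022_s3 t 32 121 3 = true := ex3_c k43_A00pp_022_s3 k44_A00pp_022_s3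

theorem t121_A00pp_022_s3 : ∃ t, chk3 f_A00pp_022_s3 t 16 121 3 = true := ex3_a t120_A00pp_022_s3 k45_A00pp_022_s3

theorem t122_A00pp_022_s3 : ∃ t, chk3 f_A00pp_022_s3 t 16 120 3 = true := ex3_a k41_A00pp_022_s3 k42_A00pp_022_s3

theorem t123_A00pp_022_s3 : ∃ t, chk3 f_A00pp_022_s3 t 16 60 3 = true := ex3_b t122_A00pp_022_s3 t121_A00pp_022_s3

theorem t124_A00pp_022_s3 : ∃ t, chk3 f_A00pp_022_s3 t 16 30 3 = true := ex3_b t123_A00pp_022_s3 t119_A00pp_022_s3

theorem t125_A00pp_022_s3 : ∃ t, chk3 f_A00pp_022_s3 t 33 61 2 = true := ex3_a k39_A00pp_022_s3 k40_A00pp_022_s3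

theorem t126_A00pp_022_s3 : ∃ t, chk3 f_A00pp_022_s3 t 32 123 2 = true := ex3_b k37_A00pp_022_s3 k38_A00pp_022_s3

theorem t127_A00pp_022_s3 : ∃ t, chk3 f_A00pp_022_s3 t 32 122 2 = true := ex3_a k35_A00pp_022_s3 k36_A00pp_022_s3

theorem t128_A00pp_022_s3 : ∃ t, chk3 f_A00pp_022_s3 t 32 61 2 = true := ex3_b t127_A00pp_022_s3 t126_A00pp_022_s3

theorem t129_A00pp_022_s3 : ∃ t, chk3 f_A00pp_022_s3 t 16 61 2 = true := ex3_a t128_A00pp_022_s3 t125_A00pp_022_s3

theorem t130_A00pp_022_s3 : ∃ t, chk3 f_A00pp_022_s3 t 32 121 2 = true := ex3_c k32_A00pp_022_s3 k33_A00pp_022_s3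

theorem t131_A00pp_022_s3 : ∃ t, chk3 f_A00pp_022_s3 t 16 121 2 = true := ex3_a t130_A00pp_022_s3 k34_A00pp_022_s3

theorem t132_A00pp_022_s3 : ∃ t, chk3 f_A00pp_022_s3 t 16 120 2 = true := ex3_b k30_A00pp_022_s3 k31_A00pp_022_s3

theorem t133_A00pp_022_s3 : ∃ t, chk3 f_A00pp_022_s3 t 16 60 2 = true := ex3_b t132_A00pp_022_s3 t131_A00pp_022_s3

theorem t134_A00pp_022_s3 : ∃ t, chk3 f_A00pp_022_s3 t 16 30 2 = true := ex3_b t133_A00pp_022_s3 t129_A00pp_022_s3

theorem t135_A00pp_022_s3 : ∃ t, chk3 f_A00pp_022_s3 t 16 30 1 = true := ex3_c t134_A00pp_022_s3 t124_A00pp_022_s3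

theorem t136_A00pp_022_s3 : ∃ t, chk3 f_A00pp_022_s3 t 8 30 1 = true := ex3_a t135_A00pp_022_s3 t112_A00pp_022_s3

theorem t137_A00pp_022_s3 : ∃ t, chk3 f_A00pp_022_s3 t 8 15 1 = true := ex3_b t136_A00pp_022_s3 t106_A00pp_022_s3

theorem t138_A00pp_022_s3 : ∃ t, chk3 f_A00pp_022_s3 t 70 29 3 = true := ex3_b k27_A00pp_022_s3 k28_A00pp_022_s3

theorem t139_A00pp_022_s3 : ∃ t, chk3 f_A00pp_022_s3 t 35 29 3 = true := ex3_a t138_A00pp_022_s3 k29_A00pp_022_s3

theorem t140_A00pp_022_s3 : ∃ t, chk3 f_A00pp_022_s3 t 69 29 3 = true := ex3_a k25_A00pp_022_s3 k26_A00pp_022_s3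

theorem t141_A00pp_022_s3 : ∃ t, chk3 f_A00pp_022_s3 t 68 29 3 = true := ex3_a k23_A00pp_022_s3 k24_A00pp_022_s3

theorem t142_A00pp_022_s3 : ∃ t, chk3 f_A00pp_022_s3 t 34 29 3 = true := ex3_a t141_A00pp_022_s3 t140_A00pp_022_s3

theorem t143_A00pp_022_s3 : ∃ t, chk3 f_A00pp_022_s3 t 17 29 3 = true := ex3_a t142_A00pp_022_s3 t139_A00pp_022_s3

theorem t144_A00pp_022_s3 : ∃ t, chk3 f_A00pp_022_s3 t 33 119 3 = true := ex3_b k21_A00pp_022_s3 k22_A00pp_022_s3

theorem t145_A00pp_022_s3 : ∃ t, chk3 f_A00pp_022_s3 t 33 59 3 = true := ex3_b k20_A00pp_022_s3 t144_A00pp_022_s3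

theorem t146_A00pp_022_s3 : ∃ t, chk3 f_A00pp_022_s3 t 16 59 3 = true := ex3_a k19_A00pp_022_s3 t145_A00pp_022_s3

theorem t147_A00pp_022_s3 : ∃ t, chk3 f_A00pp_022_s3 t 16 29 3 = true := ex3_b k18_A00pp_022_s3 t146_A00pp_022_s3

theorem t148_A00pp_022_s3 : ∃ t, chk3 f_A00pp_022_s3 t 8 29 3 = true := ex3_a t147_A00pp_022_s3 t143_A00pp_022_s3

theorem t149_A00pp_022_s3 : ∃ t, chk3 f_A00pp_022_s3 t 35 29 2 = true := ex3_a k16_A00pp_022_s3 k17_A00pp_022_s3

theorem t150_A00pp_022_s3 : ∃ t, chk3 f_A00pp_022_s3 t 69 29 2 = true := ex3_a k14_A00pp_022_s3 k15_A00pp_022_s3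

theorem t151_A00pp_022_s3 : ∃ t, chk3 f_A00pp_022_s3 t 68 29 2 = true := ex3_a k12_A00pp_022_s3 k13_A00pp_022_s3

theorem t152_A00pp_022_s3 : ∃ t, chk3 f_A00pp_022_s3 t 34 29 2 = true := ex3_a t151_A00pp_022_s3 t150_A00pp_022_s3

theorem t153_A00pp_022_s3 : ∃ t, chk3 f_A00pp_022_s3 t 17 29 2 = true := ex3_a t152_A00pp_022_s3 t149_A00pp_022_s3

theorem t154_A00pp_022_s3 : ∃ t, chk3 f_A00pp_022_s3 t 33 59 2 = true := ex3_b k10_A00pp_022_s3 k11_A00pp_022_s3

theorem t155_A00pp_022_s3 : ∃ t, chk3 f_A00pp_022_s3 t 16 59 2 = true := ex3_a k9_A00pp_022_s3 t154_A00pp_022_s3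

theorem t156_A00pp_022_s3 : ∃ t, chk3 f_A00pp_022_s3 t 16 29 2 = true := ex3_b k8_A00pp_022_s3 t155_A00pp_022_s3

theorem t157_A00pp_022_s3 : ∃ t, chk3 f_A00pp_022_s3 t 8 29 2 = true := ex3_a t156_A00pp_022_s3 t153_A00pp_022_s3

theorem t158_A00pp_022_s3 : ∃ t, chk3 f_A00pp_022_s3 t 8 29 1 = true := ex3_c t157_A00pp_022_s3 t148_A00pp_022_s3

theorem t159_A00pp_022_s3 : ∃ t, chk3 f_A00pp_022_s3 t 8 14 1 = true := ex3_b k7_A00pp_022_s3 t158_A00pp_022_s3

theorem t160_A00pp_022_s3 : ∃ t, chk3 f_A00pp_022_s3 t 8 7 1 = true := ex3_b t159_A00pp_022_s3 t137_A00pp_022_s3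

theorem t161_A00pp_022_s3 : ∃ t, chk3 f_A00pp_022_s3 t 4 7 1 = true := ex3_a t160_A00pp_022_s3 t93_A00pp_022_s3

theorem t162_A00pp_022_s3 : ∃ t, chk3 f_A00pp_022_s3 t 2 7 1 = true := ex3_a t161_A00pp_022_s3 k80_A00pp_022_s3

theorem t163_A00pp_022_s3 : ∃ t, chk3 f_A00pp_022_s3 t 11 12 1 = true := ex3_a k4_A00pp_022_s3 k5_A00pp_022_s3

theorem t164_A00pp_022_s3 : ∃ t, chk3 f_A00pp_022_s3 t 11 6 1 = true := ex3_b t163_A00pp_022_s3 k6_A00pp_022_s3

theorem t165_A00pp_022_s3 : ∃ t, chk3 f_A00pp_022_s3 t 10 6 1 = true := ex3_a k2_A00pp_022_s3 k3_A00pp_022_s3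

theorem t166_A00pp_022_s3 : ∃ t, chk3 f_A00pp_022_s3 t 5 6 1 = true := ex3_a t165_A00pp_022_s3 t164_A00pp_022_s3

theorem t167_A00pp_022_s3 : ∃ t, chk3 f_A00pp_022_s3 t 2 6 1 = true := ex3_a k1_A00pp_022_s3 t166_A00pp_022_s3

theorem t168_A00pp_022_s3 : ∃ t, chk3 f_A00pp_022_s3 t 2 3 1 = true := ex3_b t167_A00pp_022_s3 t162_A00pp_022_s3

theorem t169_A00pp_022_s3 : ∃ t, chk3 f_A00pp_022_s3 t 2 1 1 = true := ex3_b k0_A00pp_022_s3 t168_A00pp_022_s3

theorem t170_A00pp_022_s3 : ∃ t, chk3 f_A00pp_022_s3 t 1 1 1 = true := ex3_a t169_A00pp_022_s3 t89_A00pp_022_s3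

theorem c_A00pp_022_s3 : CertF 0 536870912 0 536870912 991146299 28908434 true true true .pp 0 2 2
    ndB0q0 ndB0q2 pcB2 cut_A00pp_022_s3 xt_A00pp_022_s3 :=
  certF0 (fam := true) (s1 := true) (s2 := true) (a := 0) (b := 2) (c := 2) (cn := .pp) (n1 := ndB0q0) (n2 := ndB0q2) (pc := pcB2) (cut := cut_A00pp_022_s3) (xt := xt_A00pp_022_s3) (P1 := 0) (W1 := 536870912) (P2 := 0) (W2 := 536870912) (P3 := 991146299) (W3 := 28908434)
    rfl t170_A00pp_022_s3

theorem s_A00pp_022_s3 {κ x : ℝ} (hκ : κ * h0 = ken x) (hx : ((991146299 : ℕ) : ℝ) / S ≤ x)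
    (hx' : x ≤ (((991146299 : ℕ) : ℝ) + (28908434 : ℕ)) / S)
    (H : CutA (VFD κ) PP tK tL pcB (Cut.of [[⟨0, 0, 0, 26843545⟩, ⟨1, 1, 0, 26843545⟩, ⟨2, 1, 0, 26843545⟩]]) 0 2 2 0 0 (sgb true) (sgb true) x) :
    AltA (VFD κ) PP tK tL pcB [⟨4, 0, 0, 3113851289⟩] 0 2 2 0 0 (sgb true) (sgb true) x :=
  strip_altAD (m := 3113851289) false rfl hκ (SH.κ0 hκ (SH.hx1 hx).le (SH.hx2 hx').le) (SH.hx1 hx).le (SH.hx2 hx') (covB00).cov (covB02).cov hx hx' c_A00pp_022_s3 H ((okx hx hx').extA (T := tt) (sideB hx hx') hκ rfl rfl (.O 0 true) (.O 2 true) (Or.inl rfl))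

end Pool.Agent.Strip051.G.I9231_9500.Tab.St.C
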