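import Pool.Agent.Strip051.G.I9231_9500.StH
import Pool.Agent.Strip051.G.I9231_9500.Sp11_0
import Pool.Agent.Strip051.G.I9231_9500.Sp11_1
import Pool.Agent.Strip051.G.I9231_9500.StF

/-! # Unit strips 11 (generated) -/

set_option linter.all false
set_option maxRecDepth 100000

namespace Pool.Agent.Strip051.G.I9231_9500.Tab.St.C

open Pool.Agent.Strip051.PB Pool.Agent.Strip051.PB.T Pool.Agent.StripNear Pool.Agent.Strip051.LC
open Pool.Agent.Strip051.G.I9231_9500.Tab Pool.Agent.Strip051.G.I9231_9500.Tab.St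

theorem t127_A00mm_202_s3 : ∃ t, chk3 f_A00mm_202_s3 t 26 12 1 = true := ex3_b k121_A00mm_202_s3 k122_A00mm_202_s3

theorem t128_A00mm_202_s3 : ∃ t, chk3 f_A00mm_202_s3 t 13 12 1 = true := ex3_a t127_A00mm_202_s3 k123_A00mm_202_s3

theorem t129_A00mm_202_s3 : ∃ t, chk3 f_A00mm_202_s3 t 13 6 1 = true := ex3_b t128_A00mm_202_s3 k124_A00mm_202_s3

theorem t130_A00mm_202_s3 : ∃ t, chk3 f_A00mm_202_s3 t 12 13 3 = true := ex3_a k119_A00mm_202_s3 k120_A00mm_202_s3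

theorem t131_A00mm_202_s3 : ∃ t, chk3 f_A00mm_202_s3 t 12 13 1 = true := ex3_c k118_A00mm_202_s3 t130_A00mm_202_s3

theorem t132_A00mm_202_s3 : ∃ t, chk3 f_A00mm_202_s3 t 12 12 1 = true := ex3_b k116_A00mm_202_s3 k117_A00mm_202_s3

theorem t133_A00mm_202_s3 : ∃ t, chk3 f_A00mm_202_s3 t 12 6 1 = true := ex3_b t132_A00mm_202_s3 t131_A00mm_202_s3

theorem t134_A00mm_202_s3 : ∃ t, chk3 f_A00mm_202_s3 t 6 6 1 = true := ex3_a t133_A00mm_202_s3 t129_A00mm_202_s3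

theorem t135_A00mm_202_s3 : ∃ t, chk3 f_A00mm_202_s3 t 3 6 1 = true := ex3_a t134_A00mm_202_s3 k125_A00mm_202_s3

theorem t136_A00mm_202_s3 : ∃ t, chk3 f_A00mm_202_s3 t 3 3 1 = true := ex3_b t135_A00mm_202_s3 k126_A00mm_202_s3

theorem t137_A00mm_202_s3 : ∃ t, chk3 f_A00mm_202_s3 t 5 15 1 = true := ex3_a k114_A00mm_202_s3 k115_A00mm_202_s3

theorem t138_A00mm_202_s3 : ∃ t, chk3 f_A00mm_202_s3 t 5 14 1 = true := ex3_c k112_A00mm_202_s3 k113_A00mm_202_s3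

theorem t139_A00mm_202_s3 : ∃ t, chk3 f_A00mm_202_s3 t 5 7 1 = true := ex3_b t138_A00mm_202_s3 t137_A00mm_202_s3

theorem t140_A00mm_202_s3 : ∃ t, chk3 f_A00mm_202_s3 t 9 15 1 = true := ex3_a k110_A00mm_202_s3 k111_A00mm_202_s3

theorem t141_A00mm_202_s3 : ∃ t, chk3 f_A00mm_202_s3 t 4 15 1 = true := ex3_a k109_A00mm_202_s3 t140_A00mm_202_s3

theorem t142_A00mm_202_s3 : ∃ t, chk3 f_A00mm_202_s3 t 4 7 1 = true := ex3_b k108_A00mm_202_s3 t141_A00mm_202_s3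

theorem t143_A00mm_202_s3 : ∃ t, chk3 f_A00mm_202_s3 t 2 7 1 = true := ex3_a t142_A00mm_202_s3 t139_A00mm_202_s3

theorem t144_A00mm_202_s3 : ∃ t, chk3 f_A00mm_202_s3 t 5 13 1 = true := ex3_b k106_A00mm_202_s3 k107_A00mm_202_s3

theorem t145_A00mm_202_s3 : ∃ t, chk3 f_A00mm_202_s3 t 5 6 1 = true := ex3_b k105_A00mm_202_s3 t144_A00mm_202_s3

theorem t146_A00mm_202_s3 : ∃ t, chk3 f_A00mm_202_s3 t 2 6 1 = true := ex3_a k104_A00mm_202_s3 t145_A00mm_202_s3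

theorem t147_A00mm_202_s3 : ∃ t, chk3 f_A00mm_202_s3 t 2 3 1 = true := ex3_b t146_A00mm_202_s3 t143_A00mm_202_s3

theorem t148_A00mm_202_s3 : ∃ t, chk3 f_A00mm_202_s3 t 1 3 1 = true := ex3_a t147_A00mm_202_s3 t136_A00mm_202_s3

theorem t149_A00mm_202_s3 : ∃ t, chk3 f_A00mm_202_s3 t 14 10 1 = true := ex3_a k100_A00mm_202_s3 k101_A00mm_202_s3

theorem t150_A00mm_202_s3 : ∃ t, chk3 f_A00mm_202_s3 t 7 10 1 = true := ex3_a t149_A00mm_202_s3 k102_A00mm_202_s3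

theorem t151_A00mm_202_s3 : ∃ t, chk3 f_A00mm_202_s3 t 7 5 1 = true := ex3_b t150_A00mm_202_s3 k103_A00mm_202_s3

theorem t152_A00mm_202_s3 : ∃ t, chk3 f_A00mm_202_s3 t 27 11 1 = true := ex3_b k98_A00mm_202_s3 k99_A00mm_202_s3

theorem t153_A00mm_202_s3 : ∃ t, chk3 f_A00mm_202_s3 t 13 11 1 = true := ex3_a k97_A00mm_202_s3 t152_A00mm_202_s3

theorem t154_A00mm_202_s3 : ∃ t, chk3 f_A00mm_202_s3 t 6 11 1 = true := ex3_a k96_A00mm_202_s3 t153_A00mm_202_s3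

theorem t155_A00mm_202_s3 : ∃ t, chk3 f_A00mm_202_s3 t 13 10 1 = true := ex3_b k94_A00mm_202_s3 k95_A00mm_202_s3

theorem t156_A00mm_202_s3 : ∃ t, chk3 f_A00mm_202_s3 t 6 10 1 = true := ex3_a k93_A00mm_202_s3 t155_A00mm_202_s3

theorem t157_A00mm_202_s3 : ∃ t, chk3 f_A00mm_202_s3 t 6 5 1 = true := ex3_b t156_A00mm_202_s3 t154_A00mm_202_s3

theorem t158_A00mm_202_s3 : ∃ t, chk3 f_A00mm_202_s3 t 3 5 1 = true := ex3_a t157_A00mm_202_s3 t151_A00mm_202_s3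

theorem t159_A00mm_202_s3 : ∃ t, chk3 f_A00mm_202_s3 t 119 19 1 = true := ex3_b k90_A00mm_202_s3 k91_A00mm_202_s3

theorem t160_A00mm_202_s3 : ∃ t, chk3 f_A00mm_202_s3 t 59 19 1 = true := ex3_a k89_A00mm_202_s3 t159_A00mm_202_s3

theorem t161_A00mm_202_s3 : ∃ t, chk3 f_A00mm_202_s3 t 58 38 1 = true := ex3_a k86_A00mm_202_s3 k87_A00mm_202_s3

theorem t162_A00mm_202_s3 : ∃ t, chk3 f_A00mm_202_s3 t 58 19 1 = true := ex3_b t161_A00mm_202_s3 k88_A00mm_202_s3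

theorem t163_A00mm_202_s3 : ∃ t, chk3 f_A00mm_202_s3 t 29 19 1 = true := ex3_a t162_A00mm_202_s3 t160_A00mm_202_s3

theorem t164_A00mm_202_s3 : ∃ t, chk3 f_A00mm_202_s3 t 57 38 1 = true := ex3_a k83_A00mm_202_s3 k84_A00mm_202_s3

theorem t165_A00mm_202_s3 : ∃ t, chk3 f_A00mm_202_s3 t 28 38 1 = true := ex3_a k82_A00mm_202_s3 t164_A00mm_202_s3

theorem t166_A00mm_202_s3 : ∃ t, chk3 f_A00mm_202_s3 t 28 19 1 = true := ex3_b t165_A00mm_202_s3 k85_A00mm_202_s3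

theorem t167_A00mm_202_s3 : ∃ t, chk3 f_A00mm_202_s3 t 14 19 1 = true := ex3_a t166_A00mm_202_s3 t163_A00mm_202_s3

theorem t168_A00mm_202_s3 : ∃ t, chk3 f_A00mm_202_s3 t 7 19 1 = true := ex3_a t167_A00mm_202_s3 k92_A00mm_202_s3

theorem t169_A00mm_202_s3 : ∃ t, chk3 f_A00mm_202_s3 t 61 36 1 = true := ex3_b k78_A00mm_202_s3 k79_A00mm_202_s3

theorem t170_A00mm_202_s3 : ∃ t, chk3 f_A00mm_202_s3 t 61 18 1 = true := ex3_b t169_A00mm_202_s3 k80_A00mm_202_s3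

theorem t171_A00mm_202_s3 : ∃ t, chk3 f_A00mm_202_s3 t 121 18 1 = true := ex3_b k76_A00mm_202_s3 k77_A00mm_202_s3

theorem t172_A00mm_202_s3 : ∃ t, chk3 f_A00mm_202_s3 t 120 18 1 = true := ex3_b k74_A00mm_202_s3 k75_A00mm_202_s3

theorem t173_A00mm_202_s3 : ∃ t, chk3 f_A00mm_202_s3 t 60 18 1 = true := ex3_a t172_A00mm_202_s3 t171_A00mm_202_s3

theorem t174_A00mm_202_s3 : ∃ t, chk3 f_A00mm_202_s3 t 30 18 1 = true := ex3_a t173_A00mm_202_s3 t170_A00mm_202_s3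

theorem t175_A00mm_202_s3 : ∃ t, chk3 f_A00mm_202_s3 t 15 18 1 = true := ex3_a t174_A00mm_202_s3 k81_A00mm_202_s3

theorem t176_A00mm_202_s3 : ∃ t, chk3 f_A00mm_202_s3 t 119 37 1 = true := ex3_a k72_A00mm_202_s3 k73_A00mm_202_s3

theorem t177_A00mm_202_s3 : ∃ t, chk3 f_A00mm_202_s3 t 118 37 1 = true := ex3_a k70_A00mm_202_s3 k71_A00mm_202_s3

theorem t178_A00mm_202_s3 : ∃ t, chk3 f_A00mm_202_s3 t 59 37 1 = true := ex3_a t177_A00mm_202_s3 t176_A00mm_202_s3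

theorem t179_A00mm_202_s3 : ∃ t, chk3 f_A00mm_202_s3 t 119 36 1 = true := ex3_a k68_A00mm_202_s3 k69_A00mm_202_s3

theorem t180_A00mm_202_s3 : ∃ t, chk3 f_A00mm_202_s3 t 118 36 1 = true := ex3_b k66_A00mm_202_s3 k67_A00mm_202_s3

theorem t181_A00mm_202_s3 : ∃ t, chk3 f_A00mm_202_s3 t 59 36 1 = true := ex3_a t180_A00mm_202_s3 t179_A00mm_202_s3

theorem t182_A00mm_202_s3 : ∃ t, chk3 f_A00mm_202_s3 t 59 18 1 = true := ex3_b t181_A00mm_202_s3 t178_A00mm_202_s3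

theorem t183_A00mm_202_s3 : ∃ t, chk3 f_A00mm_202_s3 t 117 37 1 = true := ex3_b k64_A00mm_202_s3 k65_A00mm_202_s3

theorem t184_A00mm_202_s3 : ∃ t, chk3 f_A00mm_202_s3 t 58 37 1 = true := ex3_a k63_A00mm_202_s3 t183_A00mm_202_s3

theorem t185_A00mm_202_s3 : ∃ t, chk3 f_A00mm_202_s3 t 117 36 1 = true := ex3_b k61_A00mm_202_s3 k62_A00mm_202_s3

theorem t186_A00mm_202_s3 : ∃ t, chk3 f_A00mm_202_s3 t 116 36 1 = true := ex3_b k59_A00mm_202_s3 k60_A00mm_202_s3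

theorem t187_A00mm_202_s3 : ∃ t, chk3 f_A00mm_202_s3 t 58 36 1 = true := ex3_a t186_A00mm_202_s3 t185_A00mm_202_s3

theorem t188_A00mm_202_s3 : ∃ t, chk3 f_A00mm_202_s3 t 58 18 1 = true := ex3_b t187_A00mm_202_s3 t184_A00mm_202_s3

theorem t189_A00mm_202_s3 : ∃ t, chk3 f_A00mm_202_s3 t 29 18 1 = true := ex3_a t188_A00mm_202_s3 t182_A00mm_202_s3

theorem t190_A00mm_202_s3 : ∃ t, chk3 f_A00mm_202_s3 t 57 37 1 = true := ex3_a k57_A00mm_202_s3 k58_A00mm_202_s3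

theorem t191_A00mm_202_s3 : ∃ t, chk3 f_A00mm_202_s3 t 57 36 1 = true := ex3_a k55_A00mm_202_s3 k56_A00mm_202_s3

theorem t192_A00mm_202_s3 : ∃ t, chk3 f_A00mm_202_s3 t 57 18 1 = true := ex3_b t191_A00mm_202_s3 t190_A00mm_202_s3

theorem t193_A00mm_202_s3 : ∃ t, chk3 f_A00mm_202_s3 t 56 37 1 = true := ex3_a k53_A00mm_202_s3 k54_A00mm_202_s3

theorem t194_A00mm_202_s3 : ∃ t, chk3 f_A00mm_202_s3 t 56 36 1 = true := ex3_b k51_A00mm_202_s3 k52_A00mm_202_s3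

theorem t195_A00mm_202_s3 : ∃ t, chk3 f_A00mm_202_s3 t 56 18 1 = true := ex3_b t194_A00mm_202_s3 t193_A00mm_202_s3

theorem t196_A00mm_202_s3 : ∃ t, chk3 f_A00mm_202_s3 t 28 18 1 = true := ex3_a t195_A00mm_202_s3 t192_A00mm_202_s3

theorem t197_A00mm_202_s3 : ∃ t, chk3 f_A00mm_202_s3 t 14 18 1 = true := ex3_a t196_A00mm_202_s3 t189_A00mm_202_s3

theorem t198_A00mm_202_s3 : ∃ t, chk3 f_A00mm_202_s3 t 7 18 1 = true := ex3_a t197_A00mm_202_s3 t175_A00mm_202_s3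

theorem t199_A00mm_202_s3 : ∃ t, chk3 f_A00mm_202_s3 t 7 9 1 = true := ex3_b t198_A00mm_202_s3 t168_A00mm_202_s3

theorem t200_A00mm_202_s3 : ∃ t, chk3 f_A00mm_202_s3 t 250 34 1 = true := ex3_b k46_A00mm_202_s3 k47_A00mm_202_s3

theorem t201_A00mm_202_s3 : ∃ t, chk3 f_A00mm_202_s3 t 125 34 1 = true := ex3_a t200_A00mm_202_s3 k48_A00mm_202_s3

theorem t202_A00mm_202_s3 : ∃ t, chk3 f_A00mm_202_s3 t 124 34 1 = true := ex3_a k44_A00mm_202_s3 k45_A00mm_202_s3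

theorem t203_A00mm_202_s3 : ∃ t, chk3 f_A00mm_202_s3 t 62 34 1 = true := ex3_a t202_A00mm_202_s3 t201_A00mm_202_s3

theorem t204_A00mm_202_s3 : ∃ t, chk3 f_A00mm_202_s3 t 31 34 1 = true := ex3_a t203_A00mm_202_s3 k49_A00mm_202_s3

theorem t205_A00mm_202_s3 : ∃ t, chk3 f_A00mm_202_s3 t 31 17 1 = true := ex3_b t204_A00mm_202_s3 k50_A00mm_202_s3

theorem t206_A00mm_202_s3 : ∃ t, chk3 f_A00mm_202_s3 t 247 17 1 = true := ex3_b k42_A00mm_202_s3 k43_A00mm_202_s3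

theorem t207_A00mm_202_s3 : ∃ t, chk3 f_A00mm_202_s3 t 123 17 1 = true := ex3_a k41_A00mm_202_s3 t206_A00mm_202_s3

theorem t208_A00mm_202_s3 : ∃ t, chk3 f_A00mm_202_s3 t 122 17 1 = true := ex3_a k39_A00mm_202_s3 k40_A00mm_202_s3

theorem t209_A00mm_202_s3 : ∃ t, chk3 f_A00mm_202_s3 t 61 17 1 = true := ex3_a t208_A00mm_202_s3 t207_A00mm_202_s3

theorem t210_A00mm_202_s3 : ∃ t, chk3 f_A00mm_202_s3 t 121 17 1 = true := ex3_b k37_A00mm_202_s3 k38_A00mm_202_s3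

theorem t211_A00mm_202_s3 : ∃ t, chk3 f_A00mm_202_s3 t 120 17 1 = true := ex3_b k35_A00mm_202_s3 k36_A00mm_202_s3

theorem t212_A00mm_202_s3 : ∃ t, chk3 f_A00mm_202_s3 t 60 17 1 = true := ex3_a t211_A00mm_202_s3 t210_A00mm_202_s3

theorem t213_A00mm_202_s3 : ∃ t, chk3 f_A00mm_202_s3 t 30 17 1 = true := ex3_a t212_A00mm_202_s3 t209_A00mm_202_s3

theorem t214_A00mm_202_s3 : ∃ t, chk3 f_A00mm_202_s3 t 15 17 1 = true := ex3_a t213_A00mm_202_s3 t205_A00mm_202_s3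

theorem t215_A00mm_202_s3 : ∃ t, chk3 f_A00mm_202_s3 t 59 35 1 = true := ex3_a k33_A00mm_202_s3 k34_A00mm_202_s3

theorem t216_A00mm_202_s3 : ∃ t, chk3 f_A00mm_202_s3 t 59 17 1 = true := ex3_b k32_A00mm_202_s3 t215_A00mm_202_s3

theorem t217_A00mm_202_s3 : ∃ t, chk3 f_A00mm_202_s3 t 117 35 1 = true := ex3_b k30_A00mm_202_s3 k31_A00mm_202_s3

theorem t218_A00mm_202_s3 : ∃ t, chk3 f_A00mm_202_s3 t 58 35 1 = true := ex3_a k29_A00mm_202_s3 t217_A00mm_202_s3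

theorem t219_A00mm_202_s3 : ∃ t, chk3 f_A00mm_202_s3 t 58 17 1 = true := ex3_b k28_A00mm_202_s3 t218_A00mm_202_s3

theorem t220_A00mm_202_s3 : ∃ t, chk3 f_A00mm_202_s3 t 29 17 1 = true := ex3_a t219_A00mm_202_s3 t216_A00mm_202_s3

theorem t221_A00mm_202_s3 : ∃ t, chk3 f_A00mm_202_s3 t 14 17 1 = true := ex3_a k27_A00mm_202_s3 t220_A00mm_202_s3

theorem t222_A00mm_202_s3 : ∃ t, chk3 f_A00mm_202_s3 t 7 17 1 = true := ex3_a t221_A00mm_202_s3 t214_A00mm_202_s3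

theorem t223_A00mm_202_s3 : ∃ t, chk3 f_A00mm_202_s3 t 63 67 1 = true := ex3_b k25_A00mm_202_s3 k26_A00mm_202_s3

theorem t224_A00mm_202_s3 : ∃ t, chk3 f_A00mm_202_s3 t 63 33 1 = true := ex3_b k24_A00mm_202_s3 t223_A00mm_202_s3

theorem t225_A00mm_202_s3 : ∃ t, chk3 f_A00mm_202_s3 t 251 67 1 = true := ex3_b k22_A00mm_202_s3 k23_A00mm_202_s3

theorem t226_A00mm_202_s3 : ∃ t, chk3 f_A00mm_202_s3 t 251 33 1 = true := ex3_b k21_A00mm_202_s3 t225_A00mm_202_s3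

theorem t227_A00mm_202_s3 : ∃ t, chk3 f_A00mm_202_s3 t 125 33 1 = true := ex3_a k20_A00mm_202_s3 t226_A00mm_202_s3

theorem t228_A00mm_202_s3 : ∃ t, chk3 f_A00mm_202_s3 t 124 67 1 = true := ex3_b k18_A00mm_202_s3 k19_A00mm_202_s3

theorem t229_A00mm_202_s3 : ∃ t, chk3 f_A00mm_202_s3 t 124 33 1 = true := ex3_b k17_A00mm_202_s3 t228_A00mm_202_s3

theorem t230_A00mm_202_s3 : ∃ t, chk3 f_A00mm_202_s3 t 62 33 1 = true := ex3_a t229_A00mm_202_s3 t227_A00mm_202_s3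

theorem t231_A00mm_202_s3 : ∃ t, chk3 f_A00mm_202_s3 t 31 33 1 = true := ex3_a t230_A00mm_202_s3 t224_A00mm_202_s3

theorem t232_A00mm_202_s3 : ∃ t, chk3 f_A00mm_202_s3 t 31 16 1 = true := ex3_b k16_A00mm_202_s3 t231_A00mm_202_s3

theorem t233_A00mm_202_s3 : ∃ t, chk3 f_A00mm_202_s3 t 61 33 1 = true := ex3_a k14_A00mm_202_s3 k15_A00mm_202_s3

theorem t234_A00mm_202_s3 : ∃ t, chk3 f_A00mm_202_s3 t 30 33 1 = true := ex3_a k13_A00mm_202_s3 t233_A00mm_202_s3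

theorem t235_A00mm_202_s3 : ∃ t, chk3 f_A00mm_202_s3 t 30 16 1 = true := ex3_b k12_A00mm_202_s3 t234_A00mm_202_s3

theorem t236_A00mm_202_s3 : ∃ t, chk3 f_A00mm_202_s3 t 15 16 1 = true := ex3_a t235_A00mm_202_s3 t232_A00mm_202_s3

theorem t237_A00mm_202_s3 : ∃ t, chk3 f_A00mm_202_s3 t 7 16 1 = true := ex3_a k11_A00mm_202_s3 t236_A00mm_202_s3

theorem t238_A00mm_202_s3 : ∃ t, chk3 f_A00mm_202_s3 t 7 8 1 = true := ex3_b t237_A00mm_202_s3 t222_A00mm_202_s3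

theorem t239_A00mm_202_s3 : ∃ t, chk3 f_A00mm_202_s3 t 7 4 1 = true := ex3_b t238_A00mm_202_s3 t199_A00mm_202_s3

theorem t240_A00mm_202_s3 : ∃ t, chk3 f_A00mm_202_s3 t 13 38 1 = true := ex3_b k8_A00mm_202_s3 k9_A00mm_202_s3

theorem t241_A00mm_202_s3 : ∃ t, chk3 f_A00mm_202_s3 t 13 19 1 = true := ex3_b t240_A00mm_202_s3 k10_A00mm_202_s3

theorem t242_A00mm_202_s3 : ∃ t, chk3 f_A00mm_202_s3 t 6 19 1 = true := ex3_a k7_A00mm_202_s3 t241_A00mm_202_s3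

theorem t243_A00mm_202_s3 : ∃ t, chk3 f_A00mm_202_s3 t 27 37 1 = true := ex3_a k5_A00mm_202_s3 k6_A00mm_202_s3

theorem t244_A00mm_202_s3 : ∃ t, chk3 f_A00mm_202_s3 t 13 37 1 = true := ex3_a k4_A00mm_202_s3 t243_A00mm_202_s3

theorem t245_A00mm_202_s3 : ∃ t, chk3 f_A00mm_202_s3 t 13 18 1 = true := ex3_b k3_A00mm_202_s3 t244_A00mm_202_s3

theorem t246_A00mm_202_s3 : ∃ t, chk3 f_A00mm_202_s3 t 6 18 1 = true := ex3_a k2_A00mm_202_s3 t245_A00mm_202_s3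

theorem t247_A00mm_202_s3 : ∃ t, chk3 f_A00mm_202_s3 t 6 9 1 = true := ex3_b t246_A00mm_202_s3 t242_A00mm_202_s3

theorem t248_A00mm_202_s3 : ∃ t, chk3 f_A00mm_202_s3 t 6 4 1 = true := ex3_b k1_A00mm_202_s3 t247_A00mm_202_s3

theorem t249_A00mm_202_s3 : ∃ t, chk3 f_A00mm_202_s3 t 3 4 1 = true := ex3_a t248_A00mm_202_s3 t239_A00mm_202_s3

theorem t250_A00mm_202_s3 : ∃ t, chk3 f_A00mm_202_s3 t 3 2 1 = true := ex3_b t249_A00mm_202_s3 t158_A00mm_202_s3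

theorem t251_A00mm_202_s3 : ∃ t, chk3 f_A00mm_202_s3 t 1 2 1 = true := ex3_a k0_A00mm_202_s3 t250_A00mm_202_s3

theorem t252_A00mm_202_s3 : ∃ t, chk3 f_A00mm_202_s3 t 1 1 1 = true := ex3_b t251_A00mm_202_s3 t148_A00mm_202_s3

theorem c_A00mm_202_s3 : CertF 0 536870912 0 536870912 991146299 28908434 true false false .pp 2 0 2
    ndB0q2 ndB0q0 pcB2 cut_A00mm_202_s3 xt_A00mm_202_s3 :=
  certF1 (fam := true) (s1 := false) (s2 := false) (a := 2) (b := 0) (c := 2) (cn := .pp) (n1 := ndB0q2) (n2 := ndB0q0) (pc := pcB2) (cut := cut_A00mm_202_s3) (xt := xt_A00mm_202_s3) (P1 := 0) (W1 := 536870912) (P2 := 0) (W2 := 536870912) (P3 := 991146299) (W3 := 28908434)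
    rfl (fun _ => rfl) t252_A00mm_202_s3

theorem s_A00mm_202_s3 {κ x : ℝ} (hκ : κ * h0 = ken x) (hx : ((991146299 : ℕ) : ℝ) / S ≤ x)
    (hx' : x ≤ (((991146299 : ℕ) : ℝ) + (28908434 : ℕ)) / S)
    (H : CutA (VFD κ) PP tK tL pcB (Cut.of [[⟨0, 1, 0, 26843545⟩, ⟨1, 0, 0, 26843545⟩, ⟨2, 1, 0, 26843545⟩]]) 2 0 2 0 0 (sgb false) (sgb false) x) :
    AltA (VFD κ) PP tK tL pcB [⟨4, 0, 0, 2845415833⟩] 2 0 2 0 0 (sgb false) (sgb false) x :=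
  strip_altAD (m := 2845415833) false rfl hκ (SH.κ0 hκ (SH.hx1 hx).le (SH.hx2 hx').le) (SH.hx1 hx).le (SH.hx2 hx') (covB02).cov (covB00).cov hx hx' c_A00mm_202_s3 H ((okx hx hx').extA (T := tt) (sideB hx hx') hκ rfl rfl (.O 2 false) (.O 0 false) (Or.inl rfl))

end Pool.Agent.Strip051.G.I9231_9500.Tab.St.C
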