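import Pool.Agent.Strip051.G.I9231_9500.StH
import Pool.Agent.Strip051.G.I9231_9500.StF

/-! # Unit strips 12 (generated) -/

set_option linter.all false
set_option maxRecDepth 100000

namespace Pool.Agent.Strip051.G.I9231_9500.Tab.St.C

open Pool.Agent.Strip051.PB Pool.Agent.Strip051.PB.T Pool.Agent.StripNear Pool.Agent.Strip051.LC
open Pool.Agent.Strip051.G.I9231_9500.Tab Pool.Agent.Strip051.G.I9231_9500.Tab.St

noncomputable def cut_A00mm_203_s1 : Cut := Cut.of [[⟨4, 0, 0, 1449551462⟩]]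

noncomputable def f_A00mm_203_s1 : ℕ → ℕ → ℕ → ℕ → Bool := onCell 0 536870912 0 536870912 991146299 28908434
    (rowF 0 true false false .up 2 0 3 (qsf 0 536870912 0 536870912 3) ndB0q2 ndB0q0 pcB3 cut_A00mm_203_s1 Ext.none)

def k0_A00mm_203_s1 : ∃ t, chk3 f_A00mm_203_s1 t 1 1 1 = true :=
  ⟨(l 6), by decide +kernel⟩

theorem c_A00mm_203_s1 : CertF 0 536870912 0 536870912 991146299 28908434 true false false .up 2 0 3
    ndB0q2 ndB0q0 pcB3 cut_A00mm_203_s1 Ext.none :=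
  certF0 (fam := true) (s1 := false) (s2 := false) (a := 2) (b := 0) (c := 3) (cn := .up) (n1 := ndB0q2) (n2 := ndB0q0) (pc := pcB3) (cut := cut_A00mm_203_s1) (xt := Ext.none) (P1 := 0) (W1 := 536870912) (P2 := 0) (W2 := 536870912) (P3 := 991146299) (W3 := 28908434)
    rfl k0_A00mm_203_s1

theorem s_A00mm_203_s1 {κ x : ℝ} (hκ : κ * h0 = ken x) (hx : ((991146299 : ℕ) : ℝ) / S ≤ x)
    (hx' : x ≤ (((991146299 : ℕ) : ℝ) + (28908434 : ℕ)) / S) :
    AltA (VFD κ) PP tK tL pcB [⟨3, 0, 0, 1449551462⟩] 2 0 3 0 0 (sgb false) (sgb false) x :=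
  strip_altAD (m := 1449551462) true rfl hκ (SH.κ0 hκ (SH.hx1 hx).le (SH.hx2 hx').le) (SH.hx1 hx).le (SH.hx2 hx') (covB02).cov (covB00).cov hx hx' c_A00mm_203_s1 cutA_nil (noExt_A)

noncomputable def cut_A00mm_203_s3 : Cut := Cut.of [[⟨3, 0, 0, 2845415833⟩]]

noncomputable def xt_A00mm_203_s3 : Ext := strExt dd true false false .u2 .u0m .s2m .up 2 0 3 rfl rfl gl3 vv ndB0q2 ndB0q0

noncomputable def f_A00mm_203_s3 : ℕ → ℕ → ℕ → ℕ → Bool := onCell 0 536870912 1610612736 536870912 991146299 28908434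
    (rowF 1 true false false .up 2 0 3 (qsf 0 536870912 0 536870912 3) ndB0q2 ndB0q0 pcB3 cut_A00mm_203_s3 xt_A00mm_203_s3)

def k0_A00mm_203_s3 : ∃ t, chk3 f_A00mm_203_s3 t 2 4 1 = true :=
  ⟨(a (b (a (b (a (b (l 16307192) (l 16328000)) (b (l 16388880) (l 16433120))) (b (a (l 16352824) (c (l 16454408) (l 16423168))) (a (c (l 16398944) (l 16363096)) (c (l 16482840) (l 16454672))))) (a (b (c (b (l 16485120) (l 16509464)) (b (l 16455648) (l 16482664))) (c (b (l 16536760) (l 529080847)) (b (l 16596800) (l 529097999)))) (b (c (b (l 16647848) (l 529217551)) (b (l 16625264) (l 528411151))) (a (b (l 528614159) (l 528440335)) (b (l 528614927) (l 528445199)))))) (a (b (b (a (c (l 16428872) (l 16396280)) (c (l 16597704) (l 16572880))) (a (c (l 16461336) (l 16432272)) (a (l 528084239) (c (l 16568304) (l 16548952))))) (a (b (a (l 527898639) (l 527947791)) (c (l 528234255) (l 527473679))) (b (a (l 527991823) (l 528030223)) (a (l 527931151) (l 527973135)))))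 (b (a (b (a (c (l 16577376) (l 16558312)) (c (l 528676623) (l 527883279))) (a (c (l 528532495) (l 527754767)) (c (l 528559887) (l 527774735)))) (a (b (l 529372687) (a (l 528185871) (l 528193295))) (b (l 528307471) (l 528202255)))) (b (a (a (c (l 528441871) (l 527676175)) (c (l 528471311) (l 527701775))) (a (a (c (l 528492815) (l 527713551)) (l 528117263)) (l 528128527))) (a (a (l 528009999) (c (b (l 528424463) (l 528407055)) (b (l 527670031) (l 527652111)))) (c (a (a (l 528433935) (l 528450575)) (l 528474639)) (a (a (l 527680527) (l 527685647)) (l 527689487)))))))) (b (a (b (a (b (l 528763407) (l 528534799)) (b (a (l 528999439) (l 528971535)) (l 528497423))) (a (c (a (l 528945935) (l 528949775)) (l 527809551)) (b (l 528309263) (l 528153103)))) (a (b (a (c (l 529021455) (l 528348431)) (l 4)) (l 4)) (l 4))) (a (a (b (c (a (l 528678415) (l 528690959)) (b (l 527868175) (l 527771919))) (l 4)) (l 4)) (l 4)))), by decide +kernel⟩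

def k1_A00mm_203_s3 : ∃ t, chk3 f_A00mm_203_s3 t 2 5 1 = true :=
  ⟨(a (b (a (b (a (b (a (l 527794191) (l 527850511)) (l 529161487)) (b (l 528462095) (l 527928079))) (l 2)) (b (b (b (a (l 528008975) (a (a (l 528047887) (l 4)) (l 4))) (a (l 528006159) (l 4))) (a (l 528015375) (l 4))) (l 2))) (l 2)) (l 4)), by decide +kernel⟩

def k2_A00mm_203_s3 : ∃ t, chk3 f_A00mm_203_s3 t 3 2 1 = true :=
  ⟨(l 4), by decide +kernel⟩

def k3_A00mm_203_s3 : ∃ t, chk3 f_A00mm_203_s3 t 1 3 1 = true :=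
  ⟨(l 2), by decide +kernel⟩

theorem t4_A00mm_203_s3 : ∃ t, chk3 f_A00mm_203_s3 t 2 2 1 = true := ex3_b k0_A00mm_203_s3 k1_A00mm_203_s3

theorem t5_A00mm_203_s3 : ∃ t, chk3 f_A00mm_203_s3 t 1 2 1 = true := ex3_a t4_A00mm_203_s3 k2_A00mm_203_s3

theorem t6_A00mm_203_s3 : ∃ t, chk3 f_A00mm_203_s3 t 1 1 1 = true := ex3_b t5_A00mm_203_s3 k3_A00mm_203_s3

theorem c_A00mm_203_s3 : CertF 0 536870912 0 536870912 991146299 28908434 true false false .up 2 0 3
    ndB0q2 ndB0q0 pcB3 cut_A00mm_203_s3 xt_A00mm_203_s3 :=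
  certF1 (fam := true) (s1 := false) (s2 := false) (a := 2) (b := 0) (c := 3) (cn := .up) (n1 := ndB0q2) (n2 := ndB0q0) (pc := pcB3) (cut := cut_A00mm_203_s3) (xt := xt_A00mm_203_s3) (P1 := 0) (W1 := 536870912) (P2 := 0) (W2 := 536870912) (P3 := 991146299) (W3 := 28908434)
    rfl (fun _ => rfl) t6_A00mm_203_s3

theorem s_A00mm_203_s3 {κ x : ℝ} (hκ : κ * h0 = ken x) (hx : ((991146299 : ℕ) : ℝ) / S ≤ x)
    (hx' : x ≤ (((991146299 : ℕ) : ℝ) + (28908434 : ℕ)) / S) :
    AltA (VFD κ) PP tK tL pcB [⟨4, 0, 0, 2845415833⟩] 2 0 3 0 0 (sgb false) (sgb false) x :=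
  strip_altAD (m := 2845415833) false rfl hκ (SH.κ0 hκ (SH.hx1 hx).le (SH.hx2 hx').le) (SH.hx1 hx).le (SH.hx2 hx') (covB02).cov (covB00).cov hx hx' c_A00mm_203_s3 cutA_nil ((okx hx hx').extA (T := tt) (sideB hx hx') hκ rfl rfl (.O 2 false) (.O 0 false) (Or.inr rfl))

noncomputable def cut_A00mm_213_s1 : Cut := Cut.of [[⟨4, 0, 0, 1449551462⟩]]

noncomputable def f_A00mm_213_s1 : ℕ → ℕ → ℕ → ℕ → Bool := onCell 0 536870912 536870912 536870912 991146299 28908434
    (rowF 0 true false false .pnn 2 1 3 (qsf 0 536870912 536870912 536870912 3) ndB0q2 ndB0q1 pcB3 cut_A00mm_213_s1 Ext.none)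

def k0_A00mm_213_s1 : ∃ t, chk3 f_A00mm_213_s1 t 1 1 1 = true :=
  ⟨(l 6), by decide +kernel⟩

theorem c_A00mm_213_s1 : CertF 0 536870912 536870912 536870912 991146299 28908434 true false false .pnn 2 1 3
    ndB0q2 ndB0q1 pcB3 cut_A00mm_213_s1 Ext.none :=
  certF0 (fam := true) (s1 := false) (s2 := false) (a := 2) (b := 1) (c := 3) (cn := .pnn) (n1 := ndB0q2) (n2 := ndB0q1) (pc := pcB3) (cut := cut_A00mm_213_s1) (xt := Ext.none) (P1 := 0) (W1 := 536870912) (P2 := 536870912) (W2 := 536870912) (P3 := 991146299) (W3 := 28908434)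
    rfl k0_A00mm_213_s1

theorem s_A00mm_213_s1 {κ x : ℝ} (hκ : κ * h0 = ken x) (hx : ((991146299 : ℕ) : ℝ) / S ≤ x)
    (hx' : x ≤ (((991146299 : ℕ) : ℝ) + (28908434 : ℕ)) / S) :
    AltA (VFD κ) PP tK tL pcB [⟨3, 0, 0, 1449551462⟩] 2 1 3 0 0 (sgb false) (sgb false) x :=
  strip_altAD (m := 1449551462) true rfl hκ (SH.κ0 hκ (SH.hx1 hx).le (SH.hx2 hx').le) (SH.hx1 hx).le (SH.hx2 hx') (covB02).cov (covB01).cov hx hx' c_A00mm_213_s1 cutA_nil (noExt_A)

noncomputable def cut_A00mm_213_s3 : Cut := Cut.of [[⟨3, 0, 0, 2845415833⟩]]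

noncomputable def xt_A00mm_213_s3 : Ext := strExt dd true false false .u2 .u0m .s2m .pnn 2 1 3 rfl rfl gl3 vv ndB0q2 ndB0q1

noncomputable def f_A00mm_213_s3 : ℕ → ℕ → ℕ → ℕ → Bool := onCell 0 536870912 536870912 536870912 991146299 28908434
    (rowF 0 true false false .pnn 2 1 3 (qsf 0 536870912 536870912 536870912 3) ndB0q2 ndB0q1 pcB3 cut_A00mm_213_s3 xt_A00mm_213_s3)

def k0_A00mm_213_s3 : ∃ t, chk3 f_A00mm_213_s3 t 1 1 1 = true :=
  ⟨(a (b (b (a (b (a (b (a (b (l 527841295) (l 527893263)) (b (l 527952399) (l 528008463))) (a (b (l 527973391) (l 528080399)) (b (l 528092943) (l 4)))) (a (b (b (l 528037903) (l 4)) (l 4)) (l 4))) (a (b (a (b (l 528212751) (l 4)) (l 4)) (l 4)) (l 4))) (l 4)) (l 4)) (l 4)) (l 4)), by decide +kernel⟩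

theorem c_A00mm_213_s3 : CertF 0 536870912 536870912 536870912 991146299 28908434 true false false .pnn 2 1 3
    ndB0q2 ndB0q1 pcB3 cut_A00mm_213_s3 xt_A00mm_213_s3 :=
  certF0 (fam := true) (s1 := false) (s2 := false) (a := 2) (b := 1) (c := 3) (cn := .pnn) (n1 := ndB0q2) (n2 := ndB0q1) (pc := pcB3) (cut := cut_A00mm_213_s3) (xt := xt_A00mm_213_s3) (P1 := 0) (W1 := 536870912) (P2 := 536870912) (W2 := 536870912) (P3 := 991146299) (W3 := 28908434)
    rfl k0_A00mm_213_s3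

theorem s_A00mm_213_s3 {κ x : ℝ} (hκ : κ * h0 = ken x) (hx : ((991146299 : ℕ) : ℝ) / S ≤ x)
    (hx' : x ≤ (((991146299 : ℕ) : ℝ) + (28908434 : ℕ)) / S) :
    AltA (VFD κ) PP tK tL pcB [⟨4, 0, 0, 2845415833⟩] 2 1 3 0 0 (sgb false) (sgb false) x :=
  strip_altAD (m := 2845415833) false rfl hκ (SH.κ0 hκ (SH.hx1 hx).le (SH.hx2 hx').le) (SH.hx1 hx).le (SH.hx2 hx') (covB02).cov (covB01).cov hx hx' c_A00mm_213_s3 cutA_nil ((okx hx hx').extA (T := tt) (sideB hx hx') hκ rfl rfl (.O 2 false) (.O 1 false) (Or.inr rfl))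

noncomputable def cut_A05pp_001_s1 : Cut := Cut.of [[⟨4, 0, 0, 1449551462⟩]]

noncomputable def f_A05pp_001_s1 : ℕ → ℕ → ℕ → ℕ → Bool := onCell 0 536870912 0 536870912 991146299 28908434
    (rowF 0 true true true .up 0 0 1 (qsf 0 536870912 0 536870912 1) ndB0q0 ndB5q0 pcB1 cut_A05pp_001_s1 Ext.none)

def k0_A05pp_001_s1 : ∃ t, chk3 f_A05pp_001_s1 t 1 1 1 = true :=
  ⟨(l 4), by decide +kernel⟩

theorem c_A05pp_001_s1 : CertF 0 536870912 0 536870912 991146299 28908434 true true true .up 0 0 1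
    ndB0q0 ndB5q0 pcB1 cut_A05pp_001_s1 Ext.none :=
  certF0 (fam := true) (s1 := true) (s2 := true) (a := 0) (b := 0) (c := 1) (cn := .up) (n1 := ndB0q0) (n2 := ndB5q0) (pc := pcB1) (cut := cut_A05pp_001_s1) (xt := Ext.none) (P1 := 0) (W1 := 536870912) (P2 := 0) (W2 := 536870912) (P3 := 991146299) (W3 := 28908434)
    rfl k0_A05pp_001_s1

theorem s_A05pp_001_s1 {κ x : ℝ} (hκ : κ * h0 = ken x) (hx : ((991146299 : ℕ) : ℝ) / S ≤ x)
    (hx' : x ≤ (((991146299 : ℕ) : ℝ) + (28908434 : ℕ)) / S) :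
    AltA (VFD κ) PP tK tL pcB [⟨3, 0, 0, 1449551462⟩] 0 0 1 0 5 (sgb true) (sgb true) x :=
  strip_altAD (m := 1449551462) true rfl hκ (SH.κ0 hκ (SH.hx1 hx).le (SH.hx2 hx').le) (SH.hx1 hx).le (SH.hx2 hx') (covB00).cov (covB50).cov hx hx' c_A05pp_001_s1 cutA_nil (noExt_A)

noncomputable def cut_A05pp_011_s1 : Cut := Cut.of [[⟨4, 0, 0, 1449551462⟩]]

noncomputable def f_A05pp_011_s1 : ℕ → ℕ → ℕ → ℕ → Bool := onCell 0 536870912 536870912 536870912 991146299 28908434
    (rowF 0 true true true .pnn 0 1 1 (qsf 0 536870912 536870912 536870912 1) ndB0q0 ndB5q1 pcB1 cut_A05pp_011_s1 Ext.none)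

def k0_A05pp_011_s1 : ∃ t, chk3 f_A05pp_011_s1 t 1 1 1 = true :=
  ⟨(l 4), by decide +kernel⟩

theorem c_A05pp_011_s1 : CertF 0 536870912 536870912 536870912 991146299 28908434 true true true .pnn 0 1 1
    ndB0q0 ndB5q1 pcB1 cut_A05pp_011_s1 Ext.none :=
  certF0 (fam := true) (s1 := true) (s2 := true) (a := 0) (b := 1) (c := 1) (cn := .pnn) (n1 := ndB0q0) (n2 := ndB5q1) (pc := pcB1) (cut := cut_A05pp_011_s1) (xt := Ext.none) (P1 := 0) (W1 := 536870912) (P2 := 536870912) (W2 := 536870912) (P3 := 991146299) (W3 := 28908434)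
    rfl k0_A05pp_011_s1

theorem s_A05pp_011_s1 {κ x : ℝ} (hκ : κ * h0 = ken x) (hx : ((991146299 : ℕ) : ℝ) / S ≤ x)
    (hx' : x ≤ (((991146299 : ℕ) : ℝ) + (28908434 : ℕ)) / S) :
    AltA (VFD κ) PP tK tL pcB [⟨3, 0, 0, 1449551462⟩] 0 1 1 0 5 (sgb true) (sgb true) x :=
  strip_altAD (m := 1449551462) true rfl hκ (SH.κ0 hκ (SH.hx1 hx).le (SH.hx2 hx').le) (SH.hx1 hx).le (SH.hx2 hx') (covB00).cov (covB51).cov hx hx' c_A05pp_011_s1 cutA_nil (noExt_A)

noncomputable def cut_A05pp_012_s1 : Cut := Cut.of [[⟨4, 0, 0, 1449551462⟩]]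

noncomputable def f_A05pp_012_s1 : ℕ → ℕ → ℕ → ℕ → Bool := onCell 0 536870912 536870912 536870912 991146299 28908434
    (rowF 0 true true true .pnp 0 1 2 (qsf 0 536870912 536870912 536870912 2) ndB0q0 ndB5q1 pcB2 cut_A05pp_012_s1 Ext.none)

def k0_A05pp_012_s1 : ∃ t, chk3 f_A05pp_012_s1 t 1 1 1 = true :=
  ⟨(l 4), by decide +kernel⟩

theorem c_A05pp_012_s1 : CertF 0 536870912 536870912 536870912 991146299 28908434 true true true .pnp 0 1 2
    ndB0q0 ndB5q1 pcB2 cut_A05pp_012_s1 Ext.none :=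
  certF0 (fam := true) (s1 := true) (s2 := true) (a := 0) (b := 1) (c := 2) (cn := .pnp) (n1 := ndB0q0) (n2 := ndB5q1) (pc := pcB2) (cut := cut_A05pp_012_s1) (xt := Ext.none) (P1 := 0) (W1 := 536870912) (P2 := 536870912) (W2 := 536870912) (P3 := 991146299) (W3 := 28908434)
    rfl k0_A05pp_012_s1

theorem s_A05pp_012_s1 {κ x : ℝ} (hκ : κ * h0 = ken x) (hx : ((991146299 : ℕ) : ℝ) / S ≤ x)
    (hx' : x ≤ (((991146299 : ℕ) : ℝ) + (28908434 : ℕ)) / S) :
    AltA (VFD κ) PP tK tL pcB [⟨3, 0, 0, 1449551462⟩] 0 1 2 0 5 (sgb true) (sgb true) x :=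
  strip_altAD (m := 1449551462) true rfl hκ (SH.κ0 hκ (SH.hx1 hx).le (SH.hx2 hx').le) (SH.hx1 hx).le (SH.hx2 hx') (covB00).cov (covB51).cov hx hx' c_A05pp_012_s1 cutA_nil (noExt_A)

noncomputable def cut_A05pp_022_s1 : Cut := Cut.of [[⟨4, 0, 0, 1449551462⟩]]

noncomputable def f_A05pp_022_s1 : ℕ → ℕ → ℕ → ℕ → Bool := onCell 0 536870912 1073741824 536870912 991146299 28908434
    (rowF 0 true true true .pp 0 2 2 (qsf 0 536870912 1073741824 536870912 2) ndB0q0 ndB5q2 pcB2 cut_A05pp_022_s1 Ext.none)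

def k0_A05pp_022_s1 : ∃ t, chk3 f_A05pp_022_s1 t 1 1 1 = true :=
  ⟨(l 4), by decide +kernel⟩

theorem c_A05pp_022_s1 : CertF 0 536870912 1073741824 536870912 991146299 28908434 true true true .pp 0 2 2
    ndB0q0 ndB5q2 pcB2 cut_A05pp_022_s1 Ext.none :=
  certF0 (fam := true) (s1 := true) (s2 := true) (a := 0) (b := 2) (c := 2) (cn := .pp) (n1 := ndB0q0) (n2 := ndB5q2) (pc := pcB2) (cut := cut_A05pp_022_s1) (xt := Ext.none) (P1 := 0) (W1 := 536870912) (P2 := 1073741824) (W2 := 536870912) (P3 := 991146299) (W3 := 28908434)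
    rfl k0_A05pp_022_s1

theorem s_A05pp_022_s1 {κ x : ℝ} (hκ : κ * h0 = ken x) (hx : ((991146299 : ℕ) : ℝ) / S ≤ x)
    (hx' : x ≤ (((991146299 : ℕ) : ℝ) + (28908434 : ℕ)) / S) :
    AltA (VFD κ) PP tK tL pcB [⟨3, 0, 0, 1449551462⟩] 0 2 2 0 5 (sgb true) (sgb true) x :=
  strip_altAD (m := 1449551462) true rfl hκ (SH.κ0 hκ (SH.hx1 hx).le (SH.hx2 hx').le) (SH.hx1 hx).le (SH.hx2 hx') (covB00).cov (covB52).cov hx hx' c_A05pp_022_s1 cutA_nil (noExt_A)

noncomputable def cut_A05pp_023_s1 : Cut := Cut.of [[⟨4, 0, 0, 1449551462⟩]]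

noncomputable def f_A05pp_023_s1 : ℕ → ℕ → ℕ → ℕ → Bool := onCell 0 536870912 1073741824 536870912 991146299 28908434
    (rowF 0 true true true .up 0 2 3 (qsf 0 536870912 1073741824 536870912 3) ndB0q0 ndB5q2 pcB3 cut_A05pp_023_s1 Ext.none)

def k0_A05pp_023_s1 : ∃ t, chk3 f_A05pp_023_s1 t 1 1 1 = true :=
  ⟨(l 4), by decide +kernel⟩

theorem c_A05pp_023_s1 : CertF 0 536870912 1073741824 536870912 991146299 28908434 true true true .up 0 2 3
    ndB0q0 ndB5q2 pcB3 cut_A05pp_023_s1 Ext.none :=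
  certF0 (fam := true) (s1 := true) (s2 := true) (a := 0) (b := 2) (c := 3) (cn := .up) (n1 := ndB0q0) (n2 := ndB5q2) (pc := pcB3) (cut := cut_A05pp_023_s1) (xt := Ext.none) (P1 := 0) (W1 := 536870912) (P2 := 1073741824) (W2 := 536870912) (P3 := 991146299) (W3 := 28908434)
    rfl k0_A05pp_023_s1

theorem s_A05pp_023_s1 {κ x : ℝ} (hκ : κ * h0 = ken x) (hx : ((991146299 : ℕ) : ℝ) / S ≤ x)
    (hx' : x ≤ (((991146299 : ℕ) : ℝ) + (28908434 : ℕ)) / S) :
    AltA (VFD κ) PP tK tL pcB [⟨3, 0, 0, 1449551462⟩] 0 2 3 0 5 (sgb true) (sgb true) x :=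
  strip_altAD (m := 1449551462) true rfl hκ (SH.κ0 hκ (SH.hx1 hx).le (SH.hx2 hx').le) (SH.hx1 hx).le (SH.hx2 hx') (covB00).cov (covB52).cov hx hx' c_A05pp_023_s1 cutA_nil (noExt_A)

noncomputable def cut_A05pp_033_s1 : Cut := Cut.of [[⟨4, 0, 0, 1449551462⟩]]

noncomputable def f_A05pp_033_s1 : ℕ → ℕ → ℕ → ℕ → Bool := onCell 0 536870912 0 1230186008 991146299 28908434
    (rowF 0 true true true .pnn 0 3 3 (qsf 0 536870912 0 1230186008 3) ndB0q0 ndB5q3 pcB3 cut_A05pp_033_s1 Ext.none)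

def k0_A05pp_033_s1 : ∃ t, chk3 f_A05pp_033_s1 t 1 1 1 = true :=
  ⟨(l 4), by decide +kernel⟩

theorem c_A05pp_033_s1 : CertF 0 536870912 0 1230186008 991146299 28908434 true true true .pnn 0 3 3
    ndB0q0 ndB5q3 pcB3 cut_A05pp_033_s1 Ext.none :=
  certF0 (fam := true) (s1 := true) (s2 := true) (a := 0) (b := 3) (c := 3) (cn := .pnn) (n1 := ndB0q0) (n2 := ndB5q3) (pc := pcB3) (cut := cut_A05pp_033_s1) (xt := Ext.none) (P1 := 0) (W1 := 536870912) (P2 := 0) (W2 := 1230186008) (P3 := 991146299) (W3 := 28908434)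
    rfl k0_A05pp_033_s1

theorem s_A05pp_033_s1 {κ x : ℝ} (hκ : κ * h0 = ken x) (hx : ((991146299 : ℕ) : ℝ) / S ≤ x)
    (hx' : x ≤ (((991146299 : ℕ) : ℝ) + (28908434 : ℕ)) / S) :
    AltA (VFD κ) PP tK tL pcB [⟨3, 0, 0, 1449551462⟩] 0 3 3 0 5 (sgb true) (sgb true) x :=
  strip_altAD (m := 1449551462) true rfl hκ (SH.κ0 hκ (SH.hx1 hx).le (SH.hx2 hx').le) (SH.hx1 hx).le (SH.hx2 hx') (covB00).cov (covB53).cov hx hx' c_A05pp_033_s1 cutA_nil (noExt_A)

noncomputable def cut_A05pp_101_s1 : Cut := Cut.of [[⟨4, 0, 0, 1449551462⟩]]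

noncomputable def f_A05pp_101_s1 : ℕ → ℕ → ℕ → ℕ → Bool := onCell 536870912 536870912 0 536870912 991146299 28908434
    (rowF 0 true true true .npn 1 0 1 (qsf 536870912 536870912 0 536870912 1) ndB0q1 ndB5q0 pcB1 cut_A05pp_101_s1 Ext.none)

def k0_A05pp_101_s1 : ∃ t, chk3 f_A05pp_101_s1 t 1 1 1 = true :=
  ⟨(l 4), by decide +kernel⟩

theorem c_A05pp_101_s1 : CertF 536870912 536870912 0 536870912 991146299 28908434 true true true .npn 1 0 1
    ndB0q1 ndB5q0 pcB1 cut_A05pp_101_s1 Ext.none :=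
  certF0 (fam := true) (s1 := true) (s2 := true) (a := 1) (b := 0) (c := 1) (cn := .npn) (n1 := ndB0q1) (n2 := ndB5q0) (pc := pcB1) (cut := cut_A05pp_101_s1) (xt := Ext.none) (P1 := 536870912) (W1 := 536870912) (P2 := 0) (W2 := 536870912) (P3 := 991146299) (W3 := 28908434)
    rfl k0_A05pp_101_s1

theorem s_A05pp_101_s1 {κ x : ℝ} (hκ : κ * h0 = ken x) (hx : ((991146299 : ℕ) : ℝ) / S ≤ x)
    (hx' : x ≤ (((991146299 : ℕ) : ℝ) + (28908434 : ℕ)) / S) :
    AltA (VFD κ) PP tK tL pcB [⟨3, 0, 0, 1449551462⟩] 1 0 1 0 5 (sgb true) (sgb true) x :=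
  strip_altAD (m := 1449551462) true rfl hκ (SH.κ0 hκ (SH.hx1 hx).le (SH.hx2 hx').le) (SH.hx1 hx).le (SH.hx2 hx') (covB01).cov (covB50).cov hx hx' c_A05pp_101_s1 cutA_nil (noExt_A)

noncomputable def cut_A05pp_102_s1 : Cut := Cut.of [[⟨4, 0, 0, 1449551462⟩]]

noncomputable def f_A05pp_102_s1 : ℕ → ℕ → ℕ → ℕ → Bool := onCell 536870912 536870912 0 536870912 991146299 28908434
    (rowF 0 true true true .npp 1 0 2 (qsf 536870912 536870912 0 536870912 2) ndB0q1 ndB5q0 pcB2 cut_A05pp_102_s1 Ext.none)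

def k0_A05pp_102_s1 : ∃ t, chk3 f_A05pp_102_s1 t 1 1 1 = true :=
  ⟨(l 4), by decide +kernel⟩

theorem c_A05pp_102_s1 : CertF 536870912 536870912 0 536870912 991146299 28908434 true true true .npp 1 0 2
    ndB0q1 ndB5q0 pcB2 cut_A05pp_102_s1 Ext.none :=
  certF0 (fam := true) (s1 := true) (s2 := true) (a := 1) (b := 0) (c := 2) (cn := .npp) (n1 := ndB0q1) (n2 := ndB5q0) (pc := pcB2) (cut := cut_A05pp_102_s1) (xt := Ext.none) (P1 := 536870912) (W1 := 536870912) (P2 := 0) (W2 := 536870912) (P3 := 991146299) (W3 := 28908434)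
    rfl k0_A05pp_102_s1

theorem s_A05pp_102_s1 {κ x : ℝ} (hκ : κ * h0 = ken x) (hx : ((991146299 : ℕ) : ℝ) / S ≤ x)
    (hx' : x ≤ (((991146299 : ℕ) : ℝ) + (28908434 : ℕ)) / S) :
    AltA (VFD κ) PP tK tL pcB [⟨3, 0, 0, 1449551462⟩] 1 0 2 0 5 (sgb true) (sgb true) x :=
  strip_altAD (m := 1449551462) true rfl hκ (SH.κ0 hκ (SH.hx1 hx).le (SH.hx2 hx').le) (SH.hx1 hx).le (SH.hx2 hx') (covB01).cov (covB50).cov hx hx' c_A05pp_102_s1 cutA_nil (noExt_A)

noncomputable def cut_A05pp_112_s1 : Cut := Cut.of [[⟨4, 0, 0, 1449551462⟩]]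

noncomputable def f_A05pp_112_s1 : ℕ → ℕ → ℕ → ℕ → Bool := onCell 536870912 536870912 536870912 536870912 991146299 28908434
    (rowF 0 true true true .dn 1 1 2 (qsf 536870912 536870912 536870912 536870912 2) ndB0q1 ndB5q1 pcB2 cut_A05pp_112_s1 Ext.none)

def k0_A05pp_112_s1 : ∃ t, chk3 f_A05pp_112_s1 t 1 1 1 = true :=
  ⟨(l 4), by decide +kernel⟩

theorem c_A05pp_112_s1 : CertF 536870912 536870912 536870912 536870912 991146299 28908434 true true true .dn 1 1 2
    ndB0q1 ndB5q1 pcB2 cut_A05pp_112_s1 Ext.none :=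
  certF0 (fam := true) (s1 := true) (s2 := true) (a := 1) (b := 1) (c := 2) (cn := .dn) (n1 := ndB0q1) (n2 := ndB5q1) (pc := pcB2) (cut := cut_A05pp_112_s1) (xt := Ext.none) (P1 := 536870912) (W1 := 536870912) (P2 := 536870912) (W2 := 536870912) (P3 := 991146299) (W3 := 28908434)
    rfl k0_A05pp_112_s1

theorem s_A05pp_112_s1 {κ x : ℝ} (hκ : κ * h0 = ken x) (hx : ((991146299 : ℕ) : ℝ) / S ≤ x)
    (hx' : x ≤ (((991146299 : ℕ) : ℝ) + (28908434 : ℕ)) / S) :
    AltA (VFD κ) PP tK tL pcB [⟨3, 0, 0, 1449551462⟩] 1 1 2 0 5 (sgb true) (sgb true) x :=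
  strip_altAD (m := 1449551462) true rfl hκ (SH.κ0 hκ (SH.hx1 hx).le (SH.hx2 hx').le) (SH.hx1 hx).le (SH.hx2 hx') (covB01).cov (covB51).cov hx hx' c_A05pp_112_s1 cutA_nil (noExt_A)

noncomputable def cut_A05pp_113_s1 : Cut := Cut.of [[⟨4, 0, 0, 1449551462⟩]]

noncomputable def f_A05pp_113_s1 : ℕ → ℕ → ℕ → ℕ → Bool := onCell 536870912 536870912 536870912 536870912 991146299 28908434
    (rowF 0 true true true .nn 1 1 3 (qsf 536870912 536870912 536870912 536870912 3) ndB0q1 ndB5q1 pcB3 cut_A05pp_113_s1 Ext.none)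

def k0_A05pp_113_s1 : ∃ t, chk3 f_A05pp_113_s1 t 1 1 1 = true :=
  ⟨(l 4), by decide +kernel⟩

theorem c_A05pp_113_s1 : CertF 536870912 536870912 536870912 536870912 991146299 28908434 true true true .nn 1 1 3
    ndB0q1 ndB5q1 pcB3 cut_A05pp_113_s1 Ext.none :=
  certF0 (fam := true) (s1 := true) (s2 := true) (a := 1) (b := 1) (c := 3) (cn := .nn) (n1 := ndB0q1) (n2 := ndB5q1) (pc := pcB3) (cut := cut_A05pp_113_s1) (xt := Ext.none) (P1 := 536870912) (W1 := 536870912) (P2 := 536870912) (W2 := 536870912) (P3 := 991146299) (W3 := 28908434)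
    rfl k0_A05pp_113_s1

theorem s_A05pp_113_s1 {κ x : ℝ} (hκ : κ * h0 = ken x) (hx : ((991146299 : ℕ) : ℝ) / S ≤ x)
    (hx' : x ≤ (((991146299 : ℕ) : ℝ) + (28908434 : ℕ)) / S) :
    AltA (VFD κ) PP tK tL pcB [⟨3, 0, 0, 1449551462⟩] 1 1 3 0 5 (sgb true) (sgb true) x :=
  strip_altAD (m := 1449551462) true rfl hκ (SH.κ0 hκ (SH.hx1 hx).le (SH.hx2 hx').le) (SH.hx1 hx).le (SH.hx2 hx') (covB01).cov (covB51).cov hx hx' c_A05pp_113_s1 cutA_nil (noExt_A)

noncomputable def cut_A05pp_123_s1 : Cut := Cut.of [[⟨4, 0, 0, 1449551462⟩]]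

noncomputable def f_A05pp_123_s1 : ℕ → ℕ → ℕ → ℕ → Bool := onCell 536870912 536870912 1073741824 536870912 991146299 28908434
    (rowF 0 true true true .npn 1 2 3 (qsf 536870912 536870912 1073741824 536870912 3) ndB0q1 ndB5q2 pcB3 cut_A05pp_123_s1 Ext.none)

def k0_A05pp_123_s1 : ∃ t, chk3 f_A05pp_123_s1 t 1 1 1 = true :=
  ⟨(l 4), by decide +kernel⟩

theorem c_A05pp_123_s1 : CertF 536870912 536870912 1073741824 536870912 991146299 28908434 true true true .npn 1 2 3
    ndB0q1 ndB5q2 pcB3 cut_A05pp_123_s1 Ext.none :=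
  certF0 (fam := true) (s1 := true) (s2 := true) (a := 1) (b := 2) (c := 3) (cn := .npn) (n1 := ndB0q1) (n2 := ndB5q2) (pc := pcB3) (cut := cut_A05pp_123_s1) (xt := Ext.none) (P1 := 536870912) (W1 := 536870912) (P2 := 1073741824) (W2 := 536870912) (P3 := 991146299) (W3 := 28908434)
    rfl k0_A05pp_123_s1

theorem s_A05pp_123_s1 {κ x : ℝ} (hκ : κ * h0 = ken x) (hx : ((991146299 : ℕ) : ℝ) / S ≤ x)
    (hx' : x ≤ (((991146299 : ℕ) : ℝ) + (28908434 : ℕ)) / S) :
    AltA (VFD κ) PP tK tL pcB [⟨3, 0, 0, 1449551462⟩] 1 2 3 0 5 (sgb true) (sgb true) x :=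
  strip_altAD (m := 1449551462) true rfl hκ (SH.κ0 hκ (SH.hx1 hx).le (SH.hx2 hx').le) (SH.hx1 hx).le (SH.hx2 hx') (covB01).cov (covB52).cov hx hx' c_A05pp_123_s1 cutA_nil (noExt_A)

noncomputable def cut_A05pp_133_s1 : Cut := Cut.of [[⟨4, 0, 0, 1449551462⟩]]

noncomputable def f_A05pp_133_s1 : ℕ → ℕ → ℕ → ℕ → Bool := onCell 536870912 536870912 0 1230186008 991146299 28908434
    (rowF 0 true true true .dn 1 3 3 (qsf 536870912 536870912 0 1230186008 3) ndB0q1 ndB5q3 pcB3 cut_A05pp_133_s1 Ext.none)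

def k0_A05pp_133_s1 : ∃ t, chk3 f_A05pp_133_s1 t 1 1 1 = true :=
  ⟨(l 4), by decide +kernel⟩

theorem c_A05pp_133_s1 : CertF 536870912 536870912 0 1230186008 991146299 28908434 true true true .dn 1 3 3
    ndB0q1 ndB5q3 pcB3 cut_A05pp_133_s1 Ext.none :=
  certF0 (fam := true) (s1 := true) (s2 := true) (a := 1) (b := 3) (c := 3) (cn := .dn) (n1 := ndB0q1) (n2 := ndB5q3) (pc := pcB3) (cut := cut_A05pp_133_s1) (xt := Ext.none) (P1 := 536870912) (W1 := 536870912) (P2 := 0) (W2 := 1230186008) (P3 := 991146299) (W3 := 28908434)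
    rfl k0_A05pp_133_s1

theorem s_A05pp_133_s1 {κ x : ℝ} (hκ : κ * h0 = ken x) (hx : ((991146299 : ℕ) : ℝ) / S ≤ x)
    (hx' : x ≤ (((991146299 : ℕ) : ℝ) + (28908434 : ℕ)) / S) :
    AltA (VFD κ) PP tK tL pcB [⟨3, 0, 0, 1449551462⟩] 1 3 3 0 5 (sgb true) (sgb true) x :=
  strip_altAD (m := 1449551462) true rfl hκ (SH.κ0 hκ (SH.hx1 hx).le (SH.hx2 hx').le) (SH.hx1 hx).le (SH.hx2 hx') (covB01).cov (covB53).cov hx hx' c_A05pp_133_s1 cutA_nil (noExt_A)

noncomputable def cut_A05pp_202_s1 : Cut := Cut.of [[⟨4, 0, 0, 1449551462⟩]]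

noncomputable def f_A05pp_202_s1 : ℕ → ℕ → ℕ → ℕ → Bool := onCell 0 536870912 0 536870912 991146299 28908434
    (rowF 0 true true true .pp 2 0 2 (qsf 0 536870912 0 536870912 2) ndB0q2 ndB5q0 pcB2 cut_A05pp_202_s1 Ext.none)

def k0_A05pp_202_s1 : ∃ t, chk3 f_A05pp_202_s1 t 1 1 1 = true :=
  ⟨(l 4), by decide +kernel⟩

theorem c_A05pp_202_s1 : CertF 0 536870912 0 536870912 991146299 28908434 true true true .pp 2 0 2
    ndB0q2 ndB5q0 pcB2 cut_A05pp_202_s1 Ext.none :=
  certF0 (fam := true) (s1 := true) (s2 := true) (a := 2) (b := 0) (c := 2) (cn := .pp) (n1 := ndB0q2) (n2 := ndB5q0) (pc := pcB2) (cut := cut_A05pp_202_s1) (xt := Ext.none) (P1 := 0) (W1 := 536870912) (P2 := 0) (W2 := 536870912) (P3 := 991146299) (W3 := 28908434)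
    rfl k0_A05pp_202_s1

theorem s_A05pp_202_s1 {κ x : ℝ} (hκ : κ * h0 = ken x) (hx : ((991146299 : ℕ) : ℝ) / S ≤ x)
    (hx' : x ≤ (((991146299 : ℕ) : ℝ) + (28908434 : ℕ)) / S) :
    AltA (VFD κ) PP tK tL pcB [⟨3, 0, 0, 1449551462⟩] 2 0 2 0 5 (sgb true) (sgb true) x :=
  strip_altAD (m := 1449551462) true rfl hκ (SH.κ0 hκ (SH.hx1 hx).le (SH.hx2 hx').le) (SH.hx1 hx).le (SH.hx2 hx') (covB02).cov (covB50).cov hx hx' c_A05pp_202_s1 cutA_nil (noExt_A)

noncomputable def cut_A05pp_203_s1 : Cut := Cut.of [[⟨4, 0, 0, 1449551462⟩]]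

noncomputable def f_A05pp_203_s1 : ℕ → ℕ → ℕ → ℕ → Bool := onCell 0 536870912 0 536870912 991146299 28908434
    (rowF 0 true true true .up 2 0 3 (qsf 0 536870912 0 536870912 3) ndB0q2 ndB5q0 pcB3 cut_A05pp_203_s1 Ext.none)

def k0_A05pp_203_s1 : ∃ t, chk3 f_A05pp_203_s1 t 1 1 1 = true :=
  ⟨(l 4), by decide +kernel⟩

theorem c_A05pp_203_s1 : CertF 0 536870912 0 536870912 991146299 28908434 true true true .up 2 0 3
    ndB0q2 ndB5q0 pcB3 cut_A05pp_203_s1 Ext.none :=
  certF0 (fam := true) (s1 := true) (s2 := true) (a := 2) (b := 0) (c := 3) (cn := .up) (n1 := ndB0q2) (n2 := ndB5q0) (pc := pcB3) (cut := cut_A05pp_203_s1) (xt := Ext.none) (P1 := 0) (W1 := 536870912) (P2 := 0) (W2 := 536870912) (P3 := 991146299) (W3 := 28908434)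
    rfl k0_A05pp_203_s1

theorem s_A05pp_203_s1 {κ x : ℝ} (hκ : κ * h0 = ken x) (hx : ((991146299 : ℕ) : ℝ) / S ≤ x)
    (hx' : x ≤ (((991146299 : ℕ) : ℝ) + (28908434 : ℕ)) / S) :
    AltA (VFD κ) PP tK tL pcB [⟨3, 0, 0, 1449551462⟩] 2 0 3 0 5 (sgb true) (sgb true) x :=
  strip_altAD (m := 1449551462) true rfl hκ (SH.κ0 hκ (SH.hx1 hx).le (SH.hx2 hx').le) (SH.hx1 hx).le (SH.hx2 hx') (covB02).cov (covB50).cov hx hx' c_A05pp_203_s1 cutA_nil (noExt_A)

noncomputable def cut_A05pp_213_s1 : Cut := Cut.of [[⟨4, 0, 0, 1449551462⟩]]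

noncomputable def f_A05pp_213_s1 : ℕ → ℕ → ℕ → ℕ → Bool := onCell 0 536870912 536870912 536870912 991146299 28908434
    (rowF 0 true true true .pnn 2 1 3 (qsf 0 536870912 536870912 536870912 3) ndB0q2 ndB5q1 pcB3 cut_A05pp_213_s1 Ext.none)

def k0_A05pp_213_s1 : ∃ t, chk3 f_A05pp_213_s1 t 1 1 1 = true :=
  ⟨(l 4), by decide +kernel⟩

theorem c_A05pp_213_s1 : CertF 0 536870912 536870912 536870912 991146299 28908434 true true true .pnn 2 1 3
    ndB0q2 ndB5q1 pcB3 cut_A05pp_213_s1 Ext.none :=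
  certF0 (fam := true) (s1 := true) (s2 := true) (a := 2) (b := 1) (c := 3) (cn := .pnn) (n1 := ndB0q2) (n2 := ndB5q1) (pc := pcB3) (cut := cut_A05pp_213_s1) (xt := Ext.none) (P1 := 0) (W1 := 536870912) (P2 := 536870912) (W2 := 536870912) (P3 := 991146299) (W3 := 28908434)
    rfl k0_A05pp_213_s1

theorem s_A05pp_213_s1 {κ x : ℝ} (hκ : κ * h0 = ken x) (hx : ((991146299 : ℕ) : ℝ) / S ≤ x)
    (hx' : x ≤ (((991146299 : ℕ) : ℝ) + (28908434 : ℕ)) / S) :
    AltA (VFD κ) PP tK tL pcB [⟨3, 0, 0, 1449551462⟩] 2 1 3 0 5 (sgb true) (sgb true) x :=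
  strip_altAD (m := 1449551462) true rfl hκ (SH.κ0 hκ (SH.hx1 hx).le (SH.hx2 hx').le) (SH.hx1 hx).le (SH.hx2 hx') (covB02).cov (covB51).cov hx hx' c_A05pp_213_s1 cutA_nil (noExt_A)

noncomputable def cut_A05pm_001_s1 : Cut := Cut.of [[⟨4, 0, 0, 1449551462⟩]]

noncomputable def xt_A05pm_001_s1 : Ext := strExt dd true true false .u0 .s0m .u0m .up 0 0 1 rfl rfl gf1 vv ndB0q0 ndB5q0

noncomputable def f_A05pm_001_s1 : ℕ → ℕ → ℕ → ℕ → Bool := onCell 0 536870912 536870912 536870912 991146299 28908434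
    (rowF 1 true true false .up 0 0 1 (qsf 0 536870912 0 536870912 1) ndB0q0 ndB5q0 pcB1 cut_A05pm_001_s1 xt_A05pm_001_s1)

def k0_A05pm_001_s1 : ∃ t, chk3 f_A05pm_001_s1 t 1 1 1 = true :=
  ⟨(a (b (l 3) (b (b (l 3) (l 2)) (l 2))) (b (b (l 3) (a (l 3) (b (a (l 3) (b (a (l 3) (l 530922767)) (a (l 529088783) (l 529746959)))) (a (b (l 527213583) (l 526628879)) (a (l 527723791) (b (l 528682511) (l 527745039))))))) (b (a (a (b (a (l 3) (b (l 3) (l 524833551))) (a (l 2) (b (l 524085007) (l 2)))) (b (a (b (l 3) (l 525201935)) (b (l 525588239) (l 525519631))) (b (a (l 524202255) (l 524343823)) (a (l 522736399) (l 522885903))))) (b (a (a (b (l 526008079) (l 525788687)) (b (l 526374927) (l 526011151))) (b (a (l 526690319) (l 526955791)) (a (l 526189327) (l 16562832)))) (a (a (b (l 524505359) (l 523060495)) (b (l 524682511) (l 16525160))) (b (a (l 16528464) (l 16479576)) (a (l 16429664) (l 16375288)))))) (b (a (a (l 2) (b (b (l 521785359) (l 2)) (l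 2))) (a (b (a (l 521725199) (l 16376248)) (a (l 245986335031) (l 16174504))) (b (a (l 16233672) (l 16174368)) (a (l 16111440) (l 16131904))))) (a (l 2) (b (a (a (l 2) (l 15966032)) (a (l 15983648) (l 16001232))) (a (l 2) (a (l 15734776) (b (l 15910064) (l 15867520)))))))))), by decide +kernel⟩

theorem c_A05pm_001_s1 : CertF 0 536870912 0 536870912 991146299 28908434 true true false .up 0 0 1
    ndB0q0 ndB5q0 pcB1 cut_A05pm_001_s1 xt_A05pm_001_s1 :=
  certF1 (fam := true) (s1 := true) (s2 := false) (a := 0) (b := 0) (c := 1) (cn := .up) (n1 := ndB0q0) (n2 := ndB5q0) (pc := pcB1) (cut := cut_A05pm_001_s1) (xt := xt_A05pm_001_s1) (P1 := 0) (W1 := 536870912) (P2 := 0) (W2 := 536870912) (P3 := 991146299) (W3 := 28908434)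
    rfl (fun _ => rfl) k0_A05pm_001_s1

theorem s_A05pm_001_s1 {κ x : ℝ} (hκ : κ * h0 = ken x) (hx : ((991146299 : ℕ) : ℝ) / S ≤ x)
    (hx' : x ≤ (((991146299 : ℕ) : ℝ) + (28908434 : ℕ)) / S) :
    AltA (VFD κ) PP tK tL pcB [⟨3, 0, 0, 1449551462⟩] 0 0 1 0 5 (sgb true) (sgb false) x :=
  strip_altAD (m := 1449551462) true rfl hκ (SH.κ0 hκ (SH.hx1 hx).le (SH.hx2 hx').le) (SH.hx1 hx).le (SH.hx2 hx') (covB00).cov (covB50).cov hx hx' c_A05pm_001_s1 cutA_nil ((okx hx hx').extA (T := tt) (sideB hx hx') hκ rfl rfl (.O 0 true) (.N 0 false) (Or.inr rfl))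

noncomputable def cut_A05pm_011_s1 : Cut := Cut.of [[⟨4, 0, 0, 1449551462⟩], [⟨0, 0, 0, 26843545⟩, ⟨1, 1, 0, 26843545⟩, ⟨2, 1, 0, 26843545⟩]]

noncomputable def xt_A05pm_011_s1 : Ext := strExt dd true true false .u0 .s0m .u0m .pnn 0 1 1 rfl rfl gf1 vv ndB0q0 ndB5q1

noncomputable def f_A05pm_011_s1 : ℕ → ℕ → ℕ → ℕ → Bool := onCell 0 536870912 536870912 536870912 991146299 28908434
    (rowF 1 true true false .pnn 0 1 1 (qsf 0 536870912 536870912 536870912 1) ndB0q0 ndB5q1 pcB1 cut_A05pm_011_s1 xt_A05pm_011_s1)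

def k0_A05pm_011_s1 : ∃ t, chk3 f_A05pm_011_s1 t 1 2 1 = true :=
  ⟨(a (l 3) (b (l 1) (a (l 3) (l 1)))), by decide +kernel⟩

def k1_A05pm_011_s1 : ∃ t, chk3 f_A05pm_011_s1 t 2 6 1 = true :=
  ⟨(a (l 3) (a (l 3) (b (l 3) (b (l 3) (a (a (l 3) (l 522387983)) (b (l 522779407) (l 522062351))))))), by decide +kernel⟩

def k2_A05pm_011_s1 : ∃ t, chk3 f_A05pm_011_s1 t 2 14 1 = true :=
  ⟨(a (b (l 3) (a (l 3) (a (l 3) (a (l 3) (b (l 3) (l 519589903)))))) (a (a (b (l 3) (a (b (l 3) (l 519514895)) (b (a (l 520111631) (l 520097295)) (a (l 519451919) (l 519479055))))) (b (b (l 3) (l 519325967)) (b (a (l 520079887) (l 520074255)) (a (l 519444751) (l 519459599))))) (b (a (c (b (l 521149967) (l 520721167)) (a (l 520937231) (l 520955407))) (b (l 521374991) (l 520724751))) (a (b (a (l 520081167) (l 520092943)) (a (l 519480591) (l 519503887))) (b (l 520118287) (l 519539983)))))), by decide +kernel⟩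

def k3_A05pm_011_s1 : ∃ t, chk3 f_A05pm_011_s1 t 4 30 1 = true :=
  ⟨(a (b (l 3) (a (l 3) (a (l 3) (a (l 3) (b (l 3) (a (l 3) (l 518848015))))))) (a (a (b (l 3) (a (b (l 3) (l 517694735)) (b (b (l 3) (l 518974991)) (l 518581007)))) (b (a (l 3) (l 519166479)) (a (b (a (b (l 518987279) (l 518658831)) (b (l 518968079) (l 518784527))) (a (l 518376207) (l 518217487))) (b (b (l 518951183) (l 518747919)) (b (l 518453263) (l 518146319)))))) (b (a (l 518314511) (l 519060751)) (a (b (b (l 518900751) (l 518781455)) (a (l 518393359) (l 518445327))) (b (l 518780175) (l 518448911)))))), by decide +kernel⟩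

def k4_A05pm_011_s1 : ∃ t, chk3 f_A05pm_011_s1 t 4 31 1 = true :=
  ⟨(b (a (b (a (l 3) (a (a (l 3) (a (l 3) (b (l 3) (l 518604047)))) (a (a (l 517199119) (b (l 518725391) (l 518821391))) (a (l 518781967) (l 518760975))))) (a (a (l 3) (a (l 3) (a (l 3) (a (l 3) (l 518487567))))) (a (a (a (a (l 518560527) (l 518633231)) (l 518732559)) (a (l 518877199) (l 519020303))) (a (a (l 519161871) (l 519401999)) (a (l 519342607) (l 519268367)))))) (a (a (b (a (b (l 518622479) (l 518678287)) (b (l 518413583) (l 518440975))) (a (b (l 518936591) (l 16706680)) (l 518790671))) (a (b (b (l 518105103) (l 16700984)) (l 518399247)) (b (l 516822799) (l 16669344)))) (a (b (a (l 517944335) (l 16645112)) (c (l 16626888) (l 16627616))) (b (l 518085391) (l 16557792))))) (a (a (b (a (b (l 3) (b (l 3) (b (l 3) (l 14)))) (a (a (a (a (l 517418511) (l 518531087)) (a (l 518569487) (l 518607887))) (a (a (l 518645775) (l 518683663)) (a (l 518721295) (l 518758927)))) (a (a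 (l 518809871) (l 518884879)) (a (l 518959375) (l 519033359))))) (a (l 14) (a (a (a (a (l 14) (b (l 518944271) (l 14))) (a (l 518560271) (l 519135759))) (a (a (l 519173903) (l 519212047)) (a (l 519250191) (l 519288079)))) (a (a (l 517997071) (l 519414799)) (a (l 519489807) (l 519564303)))))) (a (a (a (b (a (l 519106831) (l 519180047)) (b (l 16734816) (l 16734680))) (b (l 519280143) (l 519276047))) (a (b (l 519425807) (l 519959567)) (b (l 519569935) (l 520104719)))) (a (a (b (l 519712527) (l 520248335)) (l 519298063)) (a (b (l 519945999) (l 16666120)) (l 519432719))))) (a (a (a (b (l 519004943) (l 16651800)) (b (l 16678176) (l 16596720))) (a (b (l 16642424) (l 16665936)) (b (l 16669192) (l 16650304)))) (a (b (l 16605368) (l 16543264)) (b (l 16618352) (l 16597296)))))), by decide +kernel⟩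

def k5_A05pm_011_s1 : ∃ t, chk3 f_A05pm_011_s1 t 5 15 1 = true :=
  ⟨(b (a (a (b (a (l 518974735) (l 518799631)) (a (b (l 518689039) (l 16622848)) (b (l 16619576) (l 16636056)))) (b (a (l 518833423) (l 518851855)) (a (l 517833487) (l 518364687)))) (b (a (a (l 16571424) (l 16500648)) (l 518987535)) (a (a (l 16477176) (l 16531440)) (l 16402272)))) (a (a (b (a (b (l 16554776) (l 16613344)) (c (l 16512192) (l 16513136))) (a (b (l 16589840) (l 16568104)) (l 16464728))) (b (b (l 16501808) (l 16454496)) (c (l 16417120) (l 16419464)))) (b (a (c (l 16405848) (l 16407992)) (l 16345456)) (a (l 16355624) (l 16376168))))), by decide +kernel⟩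

def k6_A05pm_011_s1 : ∃ t, chk3 f_A05pm_011_s1 t 3 3 1 = true :=
  ⟨(b (a (b (a (a (l 3) (b (l 3) (l 524847887))) (a (b (l 1) (l 525210895)) (l 1))) (a (b (a (l 523966223) (l 524065551)) (a (c (l 522649103) (l 522322191)) (l 522588943))) (b (l 524252687) (a (l 522718735) (l 522874383))))) (b (l 1) (a (a (b (l 1) (l 523053071)) (l 1)) (l 1)))) (b (a (a (b (a (b (l 521449487) (l 520800783)) (l 522027535)) (a (b (l 520195855) (l 16450192)) (a (l 16410912) (l 16402224)))) (b (a (l 521358095) (l 521522959)) (a (l 519085327) (l 16296320)))) (a (b (a (l 16348184) (l 16290304)) (a (l 16234592) (l 16256120))) (b (l 1) (a (l 16193272) (l 1))))) (b (a (a (a (b (l 16396400) (l 16424376)) (b (l 16418688) (l 16361224))) (a (l 16159000) (l 16178336))) (a (a (l 16113088) (l 16131264)) (a (l 16065280) (l 15999192)))) (a (a (b (a (l 16366408) (l 16302144)) (a (l 16312072) (l 16246576))) (a (l 16124104) (l 16057392))) (a (a (l 15990160) (l 16006568)) (a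 (l 15858072) (l 15806664))))))), by decide +kernel⟩

theorem t7_A05pm_011_s1 : ∃ t, chk3 f_A05pm_011_s1 t 4 15 1 = true := ex3_b k3_A05pm_011_s1 k4_A05pm_011_s1

theorem t8_A05pm_011_s1 : ∃ t, chk3 f_A05pm_011_s1 t 2 15 1 = true := ex3_a t7_A05pm_011_s1 k5_A05pm_011_s1

theorem t9_A05pm_011_s1 : ∃ t, chk3 f_A05pm_011_s1 t 2 7 1 = true := ex3_b k2_A05pm_011_s1 t8_A05pm_011_s1

theorem t10_A05pm_011_s1 : ∃ t, chk3 f_A05pm_011_s1 t 2 3 1 = true := ex3_b k1_A05pm_011_s1 t9_A05pm_011_s1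

theorem t11_A05pm_011_s1 : ∃ t, chk3 f_A05pm_011_s1 t 1 3 1 = true := ex3_a t10_A05pm_011_s1 k6_A05pm_011_s1

theorem t12_A05pm_011_s1 : ∃ t, chk3 f_A05pm_011_s1 t 1 1 1 = true := ex3_b k0_A05pm_011_s1 t11_A05pm_011_s1

theorem c_A05pm_011_s1 : CertF 0 536870912 536870912 536870912 991146299 28908434 true true false .pnn 0 1 1
    ndB0q0 ndB5q1 pcB1 cut_A05pm_011_s1 xt_A05pm_011_s1 :=
  certF1 (fam := true) (s1 := true) (s2 := false) (a := 0) (b := 1) (c := 1) (cn := .pnn) (n1 := ndB0q0) (n2 := ndB5q1) (pc := pcB1) (cut := cut_A05pm_011_s1) (xt := xt_A05pm_011_s1) (P1 := 0) (W1 := 536870912) (P2 := 536870912) (W2 := 536870912) (P3 := 991146299) (W3 := 28908434)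
    rfl (fun _ => rfl) t12_A05pm_011_s1

theorem s_A05pm_011_s1 {κ x : ℝ} (hκ : κ * h0 = ken x) (hx : ((991146299 : ℕ) : ℝ) / S ≤ x)
    (hx' : x ≤ (((991146299 : ℕ) : ℝ) + (28908434 : ℕ)) / S)
    (H : CutA (VFD κ) PP tK tL pcB (Cut.of [[⟨0, 0, 0, 26843545⟩, ⟨1, 1, 0, 26843545⟩, ⟨2, 1, 0, 26843545⟩]]) 0 1 1 0 5 (sgb true) (sgb false) x) :
    AltA (VFD κ) PP tK tL pcB [⟨3, 0, 0, 1449551462⟩] 0 1 1 0 5 (sgb true) (sgb false) x :=
  strip_altAD (m := 1449551462) true rfl hκ (SH.κ0 hκ (SH.hx1 hx).le (SH.hx2 hx').le) (SH.hx1 hx).le (SH.hx2 hx') (covB00).cov (covB51).cov hx hx' c_A05pm_011_s1 H ((okx hx hx').extA (T := tt) (sideB hx hx') hκ rfl rfl (.O 0 true) (.N 1 false) (Or.inr rfl))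

noncomputable def cut_A05pm_012_s1 : Cut := Cut.of [[⟨4, 0, 0, 1449551462⟩], [⟨0, 0, 0, 53687091⟩, ⟨1, 1, 0, 53687091⟩, ⟨2, 1, 0, 53687091⟩]]

noncomputable def f_A05pm_012_s1 : ℕ → ℕ → ℕ → ℕ → Bool := onCell 1073741824 536870912 536870912 536870912 991146299 28908434
    (rowF 2 true true false .pnp 0 1 2 (qsf 0 536870912 536870912 536870912 2) ndB0q0 ndB5q1 pcB2 cut_A05pm_012_s1 Ext.none)

def k0_A05pm_012_s1 : ∃ t, chk3 f_A05pm_012_s1 t 4 2 1 = true :=
  ⟨(b (a (b (a (c (l 16201040) (l 16206984)) (l 6)) (a (a (l 16044712) (l 16249912)) (l 16013840))) (l 6)) (a (b (a (a (b (l 16348872) (l 16385392)) (l 16064224)) (c (l 16255872) (l 16225688))) (a (a (b (l 16329016) (l 16269296)) (b (l 16366624) (l 16401872))) (b (l 16285024) (l 16313952)))) (b (a (b (l 16133640) (l 16158832)) (l 6)) (a (b (l 16182072) (l 16203728)) (b (l 16085168) (l 16101040)))))), by decide +kernel⟩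

def k1_A05pm_012_s1 : ∃ t, chk3 f_A05pm_012_s1 t 4 6 1 = true :=
  ⟨(a (b (a (b (a (l 16292968) (l 16438536)) (a (a (l 16326824) (l 16408368)) (l 16305344))) (b (a (l 16374304) (l 16312448)) (a (l 16404936) (l 16338640)))) (a (b (a (a (l 16379408) (l 16465200)) (l 16491104)) (a (b (l 16501488) (l 16512112)) (l 16417360))) (a (b (l 16418312) (l 16419216)) (b (l 16350192) (l 16343032))))) (b (a (b (l 16224168) (a (l 16274200) (l 16212088))) (b (l 16114056) (l 16039936))) (a (b (a (l 16284928) (l 16137576)) (a (l 16272336) (l 16206456))) (b (a (l 16159344) (l 16098664)) (a (l 16144704) (l 16086296)))))), by decide +kernel⟩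

def k2_A05pm_012_s1 : ∃ t, chk3 f_A05pm_012_s1 t 8 7 1 = true :=
  ⟨(b (a (b (a (a (b (l 16548560) (l 16559232)) (b (l 16580480) (l 16587384))) (a (l 16448536) (l 16399256))) (a (b (a (b (l 16566160) (l 16570432)) (l 16508736)) (a (c (l 16590584) (l 16566512)) (l 16514392))) (b (l 16424352) (a (l 16453288) (l 16479752))))) (b (a (b (l 16416248) (l 16411432)) (l 16243800)) (a (b (l 16404432) (l 16313976)) (b (l 16310200) (l 16297344))))) (a (b (a (a (b (a (b (l 16607504) (l 16617200)) (b (l 16572440) (l 16581096))) (b (a (a (l 14) (l 16617808)) (l 16590208)) (l 14))) (b (b (l 16521520) (l 16528264)) (a (a (l 16609216) (l 16591144)) (b (l 16602352) (l 16610168))))) (b (a (c (l 16555976) (l 16529624)) (l 16396680)) (a (c (l 16502224) (l 16458312)) (c (l 16499096) (l 16473040))))) (a (l 14) (b (a (b (a (l 16581816) (l 16546216)) (l 14)) (b (l 16431152) (a (l 16517296) (l 16482392)))) (l 14)))) (b (a (b (a (l 16421408) (l 16365920)) (a (c (l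 16437016) (l 16408336)) (l 16362672))) (b (l 16286936) (a (l 16305736) (l 16252456)))) (a (b (a (b (l 16426880) (l 16431264)) (b (l 16363184) (l 16365424))) (a (b (l 16467224) (l 14)) (b (l 16368768) (l 16393192)))) (b (a (l 16324296) (l 16245640)) (a (b (l 16304360) (l 16306728)) (c (l 16174968) (l 16227792)))))))), by decide +kernel⟩

def k3_A05pm_012_s1 : ∃ t, chk3 f_A05pm_012_s1 t 9 7 1 = true :=
  ⟨(b (a (b (a (l 16249328) (l 16176824)) (a (b (l 16224496) (l 16206384)) (l 16051192))) (b (a (l 16109760) (l 16047424)) (a (l 16062184) (l 15995144)))) (a (b (a (b (l 16190240) (l 16176792)) (b (l 16103064) (l 16084448))) (a (b (a (l 16191208) (l 16140408)) (a (b (l 16186328) (l 16184360)) (l 16130584))) (b (l 16068504) (b (l 16058136) (l 16072488))))) (b (a (b (l 16024384) (l 16001648)) (l 15856272)) (a (b (l 15981160) (l 15963352)) (b (l 15903592) (l 15881976)))))), by decide +kernel⟩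

def k4_A05pm_012_s1 : ∃ t, chk3 f_A05pm_012_s1 t 5 1 1 = true :=
  ⟨(b (b (l 6) (l 6)) (b (a (b (a (c (l 15944048) (l 15915832)) (l 6)) (b (a (l 16011232) (l 6)) (a (a (l 16028048) (a (l 15985120) (a (l 15963744) (a (l 15952944) (l 15945144))))) (l 15801568)))) (l 6)) (a (b (a (a (b (l 15989176) (l 15933808)) (a (b (l 15947576) (l 15891144)) (a (b (l 15927616) (l 15871496)) (b (a (l 15918104) (l 15911568)) (l 15859984))))) (b (b (l 15865256) (l 15840672)) (l 15794872))) (a (a (b (l 15875624) (c (l 15841136) (l 15805136))) (a (b (l 15831752) (l 15694008)) (a (b (l 15812504) (l 15759320)) (b (c (l 15733264) (l 15787384)) (a (l 15753000) (l 15665648)))))) (b (a (l 15764536) (l 15700656)) (b (l 15688896) (l 15662008))))) (a (b (l 6) (a (b (l 15640544) (l 15490528)) (l 6))) (l 6))))), by decide +kernel⟩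

def k5_A05pm_012_s1 : ∃ t, chk3 f_A05pm_012_s1 t 3 1 1 = true :=
  ⟨(b (l 6) (l 6)), by decide +kernel⟩

theorem t6_A05pm_012_s1 : ∃ t, chk3 f_A05pm_012_s1 t 4 7 1 = true := ex3_a k2_A05pm_012_s1 k3_A05pm_012_s1

theorem t7_A05pm_012_s1 : ∃ t, chk3 f_A05pm_012_s1 t 4 3 1 = true := ex3_b k1_A05pm_012_s1 t6_A05pm_012_s1

theorem t8_A05pm_012_s1 : ∃ t, chk3 f_A05pm_012_s1 t 4 1 1 = true := ex3_b k0_A05pm_012_s1 t7_A05pm_012_s1

theorem t9_A05pm_012_s1 : ∃ t, chk3 f_A05pm_012_s1 t 2 1 1 = true := ex3_a t8_A05pm_012_s1 k4_A05pm_012_s1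

theorem t10_A05pm_012_s1 : ∃ t, chk3 f_A05pm_012_s1 t 1 1 1 = true := ex3_a t9_A05pm_012_s1 k5_A05pm_012_s1

theorem c_A05pm_012_s1 : CertF 0 536870912 536870912 536870912 991146299 28908434 true true false .pnp 0 1 2
    ndB0q0 ndB5q1 pcB2 cut_A05pm_012_s1 Ext.none :=
  certF2 (fam := true) (s1 := true) (s2 := false) (a := 0) (b := 1) (c := 2) (cn := .pnp) (n1 := ndB0q0) (n2 := ndB5q1) (pc := pcB2) (cut := cut_A05pm_012_s1) (xt := Ext.none) (P1 := 0) (W1 := 536870912) (P2 := 536870912) (W2 := 536870912) (P3 := 991146299) (W3 := 28908434)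
    rfl (fun _ => rfl) t10_A05pm_012_s1

theorem s_A05pm_012_s1 {κ x : ℝ} (hκ : κ * h0 = ken x) (hx : ((991146299 : ℕ) : ℝ) / S ≤ x)
    (hx' : x ≤ (((991146299 : ℕ) : ℝ) + (28908434 : ℕ)) / S)
    (H : CutA (VFD κ) PP tK tL pcB (Cut.of [[⟨0, 0, 0, 53687091⟩, ⟨1, 1, 0, 53687091⟩, ⟨2, 1, 0, 53687091⟩]]) 0 1 2 0 5 (sgb true) (sgb false) x) :
    AltA (VFD κ) PP tK tL pcB [⟨3, 0, 0, 1449551462⟩] 0 1 2 0 5 (sgb true) (sgb false) x :=
  strip_altAD (m := 1449551462) true rfl hκ (SH.κ0 hκ (SH.hx1 hx).le (SH.hx2 hx').le) (SH.hx1 hx).le (SH.hx2 hx') (covB00).cov (covB51).cov hx hx' c_A05pm_012_s1 H (noExt_A)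

noncomputable def cut_A05pm_022_s1 : Cut := Cut.of [[⟨4, 0, 0, 1449551462⟩], [⟨0, 0, 0, 53687091⟩, ⟨1, 1, 0, 53687091⟩, ⟨2, 1, 0, 53687091⟩]]

noncomputable def f_A05pm_022_s1 : ℕ → ℕ → ℕ → ℕ → Bool := onCell 0 536870912 1073741824 536870912 991146299 28908434
    (rowF 1 true true false .pp 0 2 2 (qsf 0 536870912 1073741824 536870912 2) ndB0q0 ndB5q2 pcB2 cut_A05pm_022_s1 Ext.none)

def k0_A05pm_022_s1 : ∃ t, chk3 f_A05pm_022_s1 t 1 4 1 = true :=
  ⟨(a (b (a (a (b (a (l 14) (a (l 14) (l 1))) (b (a (l 14) (a (l 14) (b (l 1) (a (l 16314456) (l 1))))) (a (a (b (l 16528048) (l 16517504)) (c (l 16425584) (l 16409560))) (a (b (c (l 16405920) (l 16383696)) (l 16388272)) (b (c (l 16292456) (l 16263800)) (c (l 16287600) (l 16259312))))))) (a (b (l 1) (a (b (l 1) (b (l 1) (l 16188064))) (l 1))) (l 1))) (l 1)) (a (a (a (b (b (a (b (l 16592592) (l 16585928)) (l 16403776)) (a (l 16494848) (l 16397472))) (b (a (l 16549600) (l 16481768)) (l 16356984)))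 (b (b (a (l 16297248) (c (l 16282872) (l 16255248))) (a (l 16377536) (l 16268864))) (b (a (l 16381856) (l 16275480)) (a (l 16393688) (l 16290768))))) (a (a (b (b (c (l 16171336) (l 16138104)) (c (l 16173360) (l 16141792))) (b (l 16167080) (l 16184080))) (b (b (c (l 16061864) (l 16023528)) (c (l 16066600) (l 16030368))) (b (l 16060480) (l 16079464)))) (b (b (l 1) (a (l 158945713687) (l 1))) (b (a (l 15954968) (l 15849400)) (a (l 15975728) (l 15871768)))))) (a (b (l 1) (a (b (l 1) (a (l 15768232) (l 1))) (l 1))) (l 1)))) (l 1)), by decide +kernel⟩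

def k1_A05pm_022_s1 : ∃ t, chk3 f_A05pm_022_s1 t 1 5 1 = true :=
  ⟨(a (a (b (a (b (b (a (l 16282688) (l 16198064)) (b (a (l 16303120) (l 16308536)) (a (b (l 16347608) (l 16145480)) (b (l 16410992) (l 16264616))))) (a (l 16083776) (b (l 16342064) (l 16379952)))) (b (b (a (a (l 16211744) (l 16107968)) (a (l 16005384) (l 15902408))) (a (b (l 16105704) (b (l 16210856) (b (l 16227216) (l 16155736)))) (b (l 15984184) (b (l 16005112) (b (l 16020480) (l 16032032)))))) (a (b (l 16166304) (l 16175064)) (b (l 15963104) (l 16065040))))) (a (a (b (l 16091792) (l 16112208)) (b (l 16236080) (l 16249400))) (a (b (l 16096640) (l 16255752)) (b (b (l 16082680) (l 16097176)) (l 16027720))))) (b (b (a (b (a (a (l 15799688) (l 15697728)) (l 1)) (b (a (l 15779064) (l 1)) (a (b (l 15799152) (b (l 15813280) (l 15739896))) (b (l 1) (b (l 1) (l 15659008)))))) (l 1)) (a (a (b (l 15755768) (l 15863248)) (b (c (l 15650880) (l 15617968)) (l 15662216))) (a (b (l 1)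 (l 15461600)) (l 1)))) (a (a (b (b (l 15888184) (l 15911600)) (b (l 15934768) (l 15954968))) (b (b (l 15690352) (l 15718920)) (b (l 15749000) (l 6)))) (b (a (b (l 15493384) (l 15525768)) (c (l 15329832) (l 15299200))) (l 6))))) (a (b (l 1) (l 6)) (l 1))), by decide +kernel⟩

def k2_A05pm_022_s1 : ∃ t, chk3 f_A05pm_022_s1 t 1 3 1 = true :=
  ⟨(b (a (a (b (b (a (a (l 16060320) (l 16190152)) (a (l 16235144) (l 16115528))) (a (a (l 16017208) (l 6)) (l 6))) (l 6)) (l 6)) (l 6)) (l 6)), by decide +kernel⟩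

theorem t3_A05pm_022_s1 : ∃ t, chk3 f_A05pm_022_s1 t 1 2 1 = true := ex3_b k0_A05pm_022_s1 k1_A05pm_022_s1

theorem t4_A05pm_022_s1 : ∃ t, chk3 f_A05pm_022_s1 t 1 1 1 = true := ex3_b t3_A05pm_022_s1 k2_A05pm_022_s1

theorem c_A05pm_022_s1 : CertF 0 536870912 1073741824 536870912 991146299 28908434 true true false .pp 0 2 2
    ndB0q0 ndB5q2 pcB2 cut_A05pm_022_s1 Ext.none :=
  certF1 (fam := true) (s1 := true) (s2 := false) (a := 0) (b := 2) (c := 2) (cn := .pp) (n1 := ndB0q0) (n2 := ndB5q2) (pc := pcB2) (cut := cut_A05pm_022_s1) (xt := Ext.none) (P1 := 0) (W1 := 536870912) (P2 := 1073741824) (W2 := 536870912) (P3 := 991146299) (W3 := 28908434)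
    rfl (fun _ => rfl) t4_A05pm_022_s1

theorem s_A05pm_022_s1 {κ x : ℝ} (hκ : κ * h0 = ken x) (hx : ((991146299 : ℕ) : ℝ) / S ≤ x)
    (hx' : x ≤ (((991146299 : ℕ) : ℝ) + (28908434 : ℕ)) / S)
    (H : CutA (VFD κ) PP tK tL pcB (Cut.of [[⟨0, 0, 0, 53687091⟩, ⟨1, 1, 0, 53687091⟩, ⟨2, 1, 0, 53687091⟩]]) 0 2 2 0 5 (sgb true) (sgb false) x) :
    AltA (VFD κ) PP tK tL pcB [⟨3, 0, 0, 1449551462⟩] 0 2 2 0 5 (sgb true) (sgb false) x :=
  strip_altAD (m := 1449551462) true rfl hκ (SH.κ0 hκ (SH.hx1 hx).le (SH.hx2 hx').le) (SH.hx1 hx).le (SH.hx2 hx') (covB00).cov (covB52).cov hx hx' c_A05pm_022_s1 H (noExt_A)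

noncomputable def cut_A05pm_023_s1 : Cut := Cut.of [[⟨4, 0, 0, 1449551462⟩]]

noncomputable def f_A05pm_023_s1 : ℕ → ℕ → ℕ → ℕ → Bool := onCell 1610612736 536870912 1073741824 536870912 991146299 28908434
    (rowF 2 true true false .up 0 2 3 (qsf 0 536870912 1073741824 536870912 3) ndB0q0 ndB5q2 pcB3 cut_A05pm_023_s1 Ext.none)

def k0_A05pm_023_s1 : ∃ t, chk3 f_A05pm_023_s1 t 1 1 1 = true :=
  ⟨(a (l 6) (l 6)), by decide +kernel⟩

theorem c_A05pm_023_s1 : CertF 0 536870912 1073741824 536870912 991146299 28908434 true true false .up 0 2 3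
    ndB0q0 ndB5q2 pcB3 cut_A05pm_023_s1 Ext.none :=
  certF2 (fam := true) (s1 := true) (s2 := false) (a := 0) (b := 2) (c := 3) (cn := .up) (n1 := ndB0q0) (n2 := ndB5q2) (pc := pcB3) (cut := cut_A05pm_023_s1) (xt := Ext.none) (P1 := 0) (W1 := 536870912) (P2 := 1073741824) (W2 := 536870912) (P3 := 991146299) (W3 := 28908434)
    rfl (fun _ => rfl) k0_A05pm_023_s1

theorem s_A05pm_023_s1 {κ x : ℝ} (hκ : κ * h0 = ken x) (hx : ((991146299 : ℕ) : ℝ) / S ≤ x)
    (hx' : x ≤ (((991146299 : ℕ) : ℝ) + (28908434 : ℕ)) / S) :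
    AltA (VFD κ) PP tK tL pcB [⟨3, 0, 0, 1449551462⟩] 0 2 3 0 5 (sgb true) (sgb false) x :=
  strip_altAD (m := 1449551462) true rfl hκ (SH.κ0 hκ (SH.hx1 hx).le (SH.hx2 hx').le) (SH.hx1 hx).le (SH.hx2 hx') (covB00).cov (covB52).cov hx hx' c_A05pm_023_s1 cutA_nil (noExt_A)

noncomputable def cut_A05pm_033_s1 : Cut := Cut.of [[⟨4, 0, 0, 1449551462⟩]]

noncomputable def f_A05pm_033_s1 : ℕ → ℕ → ℕ → ℕ → Bool := onCell 1610612736 536870912 0 1230186008 991146299 28908434
    (rowF 2 true true false .pnn 0 3 3 (qsf 0 536870912 0 1230186008 3) ndB0q0 ndB5q3 pcB3 cut_A05pm_033_s1 Ext.none)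

def k0_A05pm_033_s1 : ∃ t, chk3 f_A05pm_033_s1 t 1 1 1 = true :=
  ⟨(b (l 6) (l 6)), by decide +kernel⟩

theorem c_A05pm_033_s1 : CertF 0 536870912 0 1230186008 991146299 28908434 true true false .pnn 0 3 3
    ndB0q0 ndB5q3 pcB3 cut_A05pm_033_s1 Ext.none :=
  certF2 (fam := true) (s1 := true) (s2 := false) (a := 0) (b := 3) (c := 3) (cn := .pnn) (n1 := ndB0q0) (n2 := ndB5q3) (pc := pcB3) (cut := cut_A05pm_033_s1) (xt := Ext.none) (P1 := 0) (W1 := 536870912) (P2 := 0) (W2 := 1230186008) (P3 := 991146299) (W3 := 28908434)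
    rfl (fun _ => rfl) k0_A05pm_033_s1

theorem s_A05pm_033_s1 {κ x : ℝ} (hκ : κ * h0 = ken x) (hx : ((991146299 : ℕ) : ℝ) / S ≤ x)
    (hx' : x ≤ (((991146299 : ℕ) : ℝ) + (28908434 : ℕ)) / S) :
    AltA (VFD κ) PP tK tL pcB [⟨3, 0, 0, 1449551462⟩] 0 3 3 0 5 (sgb true) (sgb false) x :=
  strip_altAD (m := 1449551462) true rfl hκ (SH.κ0 hκ (SH.hx1 hx).le (SH.hx2 hx').le) (SH.hx1 hx).le (SH.hx2 hx') (covB00).cov (covB53).cov hx hx' c_A05pm_033_s1 cutA_nil (noExt_A)

noncomputable def cut_A05pm_101_s1 : Cut := Cut.of [[⟨4, 0, 0, 1449551462⟩]]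

noncomputable def xt_A05pm_101_s1 : Ext := strExt dd true true false .u0 .s0m .u0m .npn 1 0 1 rfl rfl gf1 vv ndB0q1 ndB5q0

noncomputable def f_A05pm_101_s1 : ℕ → ℕ → ℕ → ℕ → Bool := onCell 536870912 536870912 536870912 536870912 991146299 28908434
    (rowF 1 true true false .npn 1 0 1 (qsf 536870912 536870912 0 536870912 1) ndB0q1 ndB5q0 pcB1 cut_A05pm_101_s1 xt_A05pm_101_s1)

def k0_A05pm_101_s1 : ∃ t, chk3 f_A05pm_101_s1 t 1 1 1 = true :=
  ⟨(b (a (b (a (b (a (l 3) (b (l 1) (l 535906319))) (a (b (l 534877455) (l 533382159)) (b (l 535889935) (l 534685199)))) (a (b (l 1) (b (l 1) (l 534626319))) (l 1))) (a (b (b (a (l 531942671) (l 533030159)) (a (b (l 530919183) (l 530267663)) (l 531459087))) (a (b (a (l 529138447) (l 529529871)) (a (l 528079887) (l 528356879))) (b (l 529998607) (l 528670735)))) (b (a (b (l 533393167) (l 532057359)) (b (l 1) (a (l 16538128) (l 1)))) (a (b (l 530408463) (l 528905999)) (b (a (l 16519856) (b (l 1) (l 16442016)))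 (a (l 16308632) (l 16140792))))))) (a (b (l 1) (a (b (l 1) (b (l 1) (a (l 16182824) (l 1)))) (l 1))) (l 1))) (a (b (a (b (a (b (a (l 16500712) (l 16542264)) (a (l 16516536) (l 16467200))) (b (l 527496719) (l 526493199))) (a (b (l 525332495) (a (l 16319880) (l 16262984))) (b (l 16292240) (l 16173624)))) (b (a (b (a (l 16397784) (l 16338976)) (a (l 16294584) (l 16216840))) (b (a (l 16253424) (l 16124312)) (l 15791328))) (a (b (a (l 16184568) (l 16093648)) (l 16034952)) (b (l 15926512) (l 6))))) (a (b (a (a (b (l 16198216) (l 16068112)) (b (l 16137144) (l 15924776))) (b (l 16052040) (l 15945448))) (a (b (a (l 15860920) (l 15908880)) (a (l 15868280) (l 15848824))) (a (l 15858136) (l 6)))) (b (a (b (l 15939944) (l 6)) (l 6)) (l 6)))) (a (b (a (l 6) (l 6)) (l 6)) (l 6)))), by decide +kernel⟩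

theorem c_A05pm_101_s1 : CertF 536870912 536870912 0 536870912 991146299 28908434 true true false .npn 1 0 1
    ndB0q1 ndB5q0 pcB1 cut_A05pm_101_s1 xt_A05pm_101_s1 :=
  certF1 (fam := true) (s1 := true) (s2 := false) (a := 1) (b := 0) (c := 1) (cn := .npn) (n1 := ndB0q1) (n2 := ndB5q0) (pc := pcB1) (cut := cut_A05pm_101_s1) (xt := xt_A05pm_101_s1) (P1 := 536870912) (W1 := 536870912) (P2 := 0) (W2 := 536870912) (P3 := 991146299) (W3 := 28908434)
    rfl (fun _ => rfl) k0_A05pm_101_s1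

theorem s_A05pm_101_s1 {κ x : ℝ} (hκ : κ * h0 = ken x) (hx : ((991146299 : ℕ) : ℝ) / S ≤ x)
    (hx' : x ≤ (((991146299 : ℕ) : ℝ) + (28908434 : ℕ)) / S) :
    AltA (VFD κ) PP tK tL pcB [⟨3, 0, 0, 1449551462⟩] 1 0 1 0 5 (sgb true) (sgb false) x :=
  strip_altAD (m := 1449551462) true rfl hκ (SH.κ0 hκ (SH.hx1 hx).le (SH.hx2 hx').le) (SH.hx1 hx).le (SH.hx2 hx') (covB01).cov (covB50).cov hx hx' c_A05pm_101_s1 cutA_nil ((okx hx hx').extA (T := tt) (sideB hx hx') hκ rfl rfl (.O 1 true) (.N 0 false) (Or.inr rfl))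

noncomputable def cut_A05pm_102_s1 : Cut := Cut.of [[⟨4, 0, 0, 1449551462⟩]]

noncomputable def f_A05pm_102_s1 : ℕ → ℕ → ℕ → ℕ → Bool := onCell 536870912 536870912 1073741824 536870912 991146299 28908434
    (rowF 1 true true false .npp 1 0 2 (qsf 536870912 536870912 0 536870912 2) ndB0q1 ndB5q0 pcB2 cut_A05pm_102_s1 Ext.none)

def k0_A05pm_102_s1 : ∃ t, chk3 f_A05pm_102_s1 t 1 1 1 = true :=
  ⟨(a (b (a (b (b (a (b (a (l 6) (l 6)) (l 6)) (l 6)) (l 6)) (l 6)) (l 6)) (l 6)) (l 6)), by decide +kernel⟩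

theorem c_A05pm_102_s1 : CertF 536870912 536870912 0 536870912 991146299 28908434 true true false .npp 1 0 2
    ndB0q1 ndB5q0 pcB2 cut_A05pm_102_s1 Ext.none :=
  certF1 (fam := true) (s1 := true) (s2 := false) (a := 1) (b := 0) (c := 2) (cn := .npp) (n1 := ndB0q1) (n2 := ndB5q0) (pc := pcB2) (cut := cut_A05pm_102_s1) (xt := Ext.none) (P1 := 536870912) (W1 := 536870912) (P2 := 0) (W2 := 536870912) (P3 := 991146299) (W3 := 28908434)
    rfl (fun _ => rfl) k0_A05pm_102_s1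

theorem s_A05pm_102_s1 {κ x : ℝ} (hκ : κ * h0 = ken x) (hx : ((991146299 : ℕ) : ℝ) / S ≤ x)
    (hx' : x ≤ (((991146299 : ℕ) : ℝ) + (28908434 : ℕ)) / S) :
    AltA (VFD κ) PP tK tL pcB [⟨3, 0, 0, 1449551462⟩] 1 0 2 0 5 (sgb true) (sgb false) x :=
  strip_altAD (m := 1449551462) true rfl hκ (SH.κ0 hκ (SH.hx1 hx).le (SH.hx2 hx').le) (SH.hx1 hx).le (SH.hx2 hx') (covB01).cov (covB50).cov hx hx' c_A05pm_102_s1 cutA_nil (noExt_A)

noncomputable def cut_A05pm_112_s1 : Cut := Cut.of [[⟨4, 0, 0, 1449551462⟩]]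

noncomputable def f_A05pm_112_s1 : ℕ → ℕ → ℕ → ℕ → Bool := onCell 536870912 536870912 1073741824 536870912 991146299 28908434
    (rowF 1 true true false .dn 1 1 2 (qsf 536870912 536870912 536870912 536870912 2) ndB0q1 ndB5q1 pcB2 cut_A05pm_112_s1 Ext.none)

def k0_A05pm_112_s1 : ∃ t, chk3 f_A05pm_112_s1 t 1 1 1 = true :=
  ⟨(a (b (a (b (b (a (b (l 16154520) (l 6)) (l 6)) (l 6)) (l 6)) (l 6)) (l 6)) (l 6)), by decide +kernel⟩

theorem c_A05pm_112_s1 : CertF 536870912 536870912 536870912 536870912 991146299 28908434 true true false .dn 1 1 2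
    ndB0q1 ndB5q1 pcB2 cut_A05pm_112_s1 Ext.none :=
  certF1 (fam := true) (s1 := true) (s2 := false) (a := 1) (b := 1) (c := 2) (cn := .dn) (n1 := ndB0q1) (n2 := ndB5q1) (pc := pcB2) (cut := cut_A05pm_112_s1) (xt := Ext.none) (P1 := 536870912) (W1 := 536870912) (P2 := 536870912) (W2 := 536870912) (P3 := 991146299) (W3 := 28908434)
    rfl (fun _ => rfl) k0_A05pm_112_s1

theorem s_A05pm_112_s1 {κ x : ℝ} (hκ : κ * h0 = ken x) (hx : ((991146299 : ℕ) : ℝ) / S ≤ x)
    (hx' : x ≤ (((991146299 : ℕ) : ℝ) + (28908434 : ℕ)) / S) :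
    AltA (VFD κ) PP tK tL pcB [⟨3, 0, 0, 1449551462⟩] 1 1 2 0 5 (sgb true) (sgb false) x :=
  strip_altAD (m := 1449551462) true rfl hκ (SH.κ0 hκ (SH.hx1 hx).le (SH.hx2 hx').le) (SH.hx1 hx).le (SH.hx2 hx') (covB01).cov (covB51).cov hx hx' c_A05pm_112_s1 cutA_nil (noExt_A)

noncomputable def cut_A05pm_113_s1 : Cut := Cut.of [[⟨4, 0, 0, 1449551462⟩]]

noncomputable def f_A05pm_113_s1 : ℕ → ℕ → ℕ → ℕ → Bool := onCell 536870912 536870912 1610612736 536870912 991146299 28908434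
    (rowF 1 true true false .nn 1 1 3 (qsf 536870912 536870912 536870912 536870912 3) ndB0q1 ndB5q1 pcB3 cut_A05pm_113_s1 Ext.none)

def k0_A05pm_113_s1 : ∃ t, chk3 f_A05pm_113_s1 t 1 1 1 = true :=
  ⟨(l 6), by decide +kernel⟩

theorem c_A05pm_113_s1 : CertF 536870912 536870912 536870912 536870912 991146299 28908434 true true false .nn 1 1 3
    ndB0q1 ndB5q1 pcB3 cut_A05pm_113_s1 Ext.none :=
  certF1 (fam := true) (s1 := true) (s2 := false) (a := 1) (b := 1) (c := 3) (cn := .nn) (n1 := ndB0q1) (n2 := ndB5q1) (pc := pcB3) (cut := cut_A05pm_113_s1) (xt := Ext.none) (P1 := 536870912) (W1 := 536870912) (P2 := 536870912) (W2 := 536870912) (P3 := 991146299) (W3 := 28908434)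
    rfl (fun _ => rfl) k0_A05pm_113_s1

theorem s_A05pm_113_s1 {κ x : ℝ} (hκ : κ * h0 = ken x) (hx : ((991146299 : ℕ) : ℝ) / S ≤ x)
    (hx' : x ≤ (((991146299 : ℕ) : ℝ) + (28908434 : ℕ)) / S) :
    AltA (VFD κ) PP tK tL pcB [⟨3, 0, 0, 1449551462⟩] 1 1 3 0 5 (sgb true) (sgb false) x :=
  strip_altAD (m := 1449551462) true rfl hκ (SH.κ0 hκ (SH.hx1 hx).le (SH.hx2 hx').le) (SH.hx1 hx).le (SH.hx2 hx') (covB01).cov (covB51).cov hx hx' c_A05pm_113_s1 cutA_nil (noExt_A)

noncomputable def cut_A05pm_123_s1 : Cut := Cut.of [[⟨4, 0, 0, 1449551462⟩]]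

noncomputable def f_A05pm_123_s1 : ℕ → ℕ → ℕ → ℕ → Bool := onCell 536870912 536870912 1073741824 536870912 991146299 28908434
    (rowF 0 true true false .npn 1 2 3 (qsf 536870912 536870912 1073741824 536870912 3) ndB0q1 ndB5q2 pcB3 cut_A05pm_123_s1 Ext.none)

def k0_A05pm_123_s1 : ∃ t, chk3 f_A05pm_123_s1 t 1 1 1 = true :=
  ⟨(l 6), by decide +kernel⟩

theorem c_A05pm_123_s1 : CertF 536870912 536870912 1073741824 536870912 991146299 28908434 true true false .npn 1 2 3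
    ndB0q1 ndB5q2 pcB3 cut_A05pm_123_s1 Ext.none :=
  certF0 (fam := true) (s1 := true) (s2 := false) (a := 1) (b := 2) (c := 3) (cn := .npn) (n1 := ndB0q1) (n2 := ndB5q2) (pc := pcB3) (cut := cut_A05pm_123_s1) (xt := Ext.none) (P1 := 536870912) (W1 := 536870912) (P2 := 1073741824) (W2 := 536870912) (P3 := 991146299) (W3 := 28908434)
    rfl k0_A05pm_123_s1

theorem s_A05pm_123_s1 {κ x : ℝ} (hκ : κ * h0 = ken x) (hx : ((991146299 : ℕ) : ℝ) / S ≤ x)
    (hx' : x ≤ (((991146299 : ℕ) : ℝ) + (28908434 : ℕ)) / S) :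
    AltA (VFD κ) PP tK tL pcB [⟨3, 0, 0, 1449551462⟩] 1 2 3 0 5 (sgb true) (sgb false) x :=
  strip_altAD (m := 1449551462) true rfl hκ (SH.κ0 hκ (SH.hx1 hx).le (SH.hx2 hx').le) (SH.hx1 hx).le (SH.hx2 hx') (covB01).cov (covB52).cov hx hx' c_A05pm_123_s1 cutA_nil (noExt_A)

noncomputable def cut_A05pm_133_s1 : Cut := Cut.of [[⟨4, 0, 0, 1449551462⟩]]

noncomputable def f_A05pm_133_s1 : ℕ → ℕ → ℕ → ℕ → Bool := onCell 536870912 536870912 0 1230186008 991146299 28908434
    (rowF 0 true true false .dn 1 3 3 (qsf 536870912 536870912 0 1230186008 3) ndB0q1 ndB5q3 pcB3 cut_A05pm_133_s1 Ext.none)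

def k0_A05pm_133_s1 : ∃ t, chk3 f_A05pm_133_s1 t 1 1 1 = true :=
  ⟨(l 6), by decide +kernel⟩

theorem c_A05pm_133_s1 : CertF 536870912 536870912 0 1230186008 991146299 28908434 true true false .dn 1 3 3
    ndB0q1 ndB5q3 pcB3 cut_A05pm_133_s1 Ext.none :=
  certF0 (fam := true) (s1 := true) (s2 := false) (a := 1) (b := 3) (c := 3) (cn := .dn) (n1 := ndB0q1) (n2 := ndB5q3) (pc := pcB3) (cut := cut_A05pm_133_s1) (xt := Ext.none) (P1 := 536870912) (W1 := 536870912) (P2 := 0) (W2 := 1230186008) (P3 := 991146299) (W3 := 28908434)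
    rfl k0_A05pm_133_s1

theorem s_A05pm_133_s1 {κ x : ℝ} (hκ : κ * h0 = ken x) (hx : ((991146299 : ℕ) : ℝ) / S ≤ x)
    (hx' : x ≤ (((991146299 : ℕ) : ℝ) + (28908434 : ℕ)) / S) :
    AltA (VFD κ) PP tK tL pcB [⟨3, 0, 0, 1449551462⟩] 1 3 3 0 5 (sgb true) (sgb false) x :=
  strip_altAD (m := 1449551462) true rfl hκ (SH.κ0 hκ (SH.hx1 hx).le (SH.hx2 hx').le) (SH.hx1 hx).le (SH.hx2 hx') (covB01).cov (covB53).cov hx hx' c_A05pm_133_s1 cutA_nil (noExt_A)

noncomputable def cut_A05pm_202_s1 : Cut := Cut.of [[⟨4, 0, 0, 1449551462⟩]]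

noncomputable def f_A05pm_202_s1 : ℕ → ℕ → ℕ → ℕ → Bool := onCell 0 536870912 0 536870912 991146299 28908434
    (rowF 0 true true false .pp 2 0 2 (qsf 0 536870912 0 536870912 2) ndB0q2 ndB5q0 pcB2 cut_A05pm_202_s1 Ext.none)

def k0_A05pm_202_s1 : ∃ t, chk3 f_A05pm_202_s1 t 1 1 1 = true :=
  ⟨(l 6), by decide +kernel⟩

theorem c_A05pm_202_s1 : CertF 0 536870912 0 536870912 991146299 28908434 true true false .pp 2 0 2
    ndB0q2 ndB5q0 pcB2 cut_A05pm_202_s1 Ext.none :=
  certF0 (fam := true) (s1 := true) (s2 := false) (a := 2) (b := 0) (c := 2) (cn := .pp) (n1 := ndB0q2) (n2 := ndB5q0) (pc := pcB2) (cut := cut_A05pm_202_s1) (xt := Ext.none) (P1 := 0) (W1 := 536870912) (P2 := 0) (W2 := 536870912) (P3 := 991146299) (W3 := 28908434)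
    rfl k0_A05pm_202_s1

theorem s_A05pm_202_s1 {κ x : ℝ} (hκ : κ * h0 = ken x) (hx : ((991146299 : ℕ) : ℝ) / S ≤ x)
    (hx' : x ≤ (((991146299 : ℕ) : ℝ) + (28908434 : ℕ)) / S) :
    AltA (VFD κ) PP tK tL pcB [⟨3, 0, 0, 1449551462⟩] 2 0 2 0 5 (sgb true) (sgb false) x :=
  strip_altAD (m := 1449551462) true rfl hκ (SH.κ0 hκ (SH.hx1 hx).le (SH.hx2 hx').le) (SH.hx1 hx).le (SH.hx2 hx') (covB02).cov (covB50).cov hx hx' c_A05pm_202_s1 cutA_nil (noExt_A)

noncomputable def cut_A05pm_203_s1 : Cut := Cut.of [[⟨4, 0, 0, 1449551462⟩]]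

noncomputable def f_A05pm_203_s1 : ℕ → ℕ → ℕ → ℕ → Bool := onCell 0 536870912 0 536870912 991146299 28908434
    (rowF 0 true true false .up 2 0 3 (qsf 0 536870912 0 536870912 3) ndB0q2 ndB5q0 pcB3 cut_A05pm_203_s1 Ext.none)

def k0_A05pm_203_s1 : ∃ t, chk3 f_A05pm_203_s1 t 1 1 1 = true :=
  ⟨(l 6), by decide +kernel⟩

theorem c_A05pm_203_s1 : CertF 0 536870912 0 536870912 991146299 28908434 true true false .up 2 0 3
    ndB0q2 ndB5q0 pcB3 cut_A05pm_203_s1 Ext.none :=
  certF0 (fam := true) (s1 := true) (s2 := false) (a := 2) (b := 0) (c := 3) (cn := .up) (n1 := ndB0q2) (n2 := ndB5q0) (pc := pcB3) (cut := cut_A05pm_203_s1) (xt := Ext.none) (P1 := 0) (W1 := 536870912) (P2 := 0) (W2 := 536870912) (P3 := 991146299) (W3 := 28908434)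
    rfl k0_A05pm_203_s1

theorem s_A05pm_203_s1 {κ x : ℝ} (hκ : κ * h0 = ken x) (hx : ((991146299 : ℕ) : ℝ) / S ≤ x)
    (hx' : x ≤ (((991146299 : ℕ) : ℝ) + (28908434 : ℕ)) / S) :
    AltA (VFD κ) PP tK tL pcB [⟨3, 0, 0, 1449551462⟩] 2 0 3 0 5 (sgb true) (sgb false) x :=
  strip_altAD (m := 1449551462) true rfl hκ (SH.κ0 hκ (SH.hx1 hx).le (SH.hx2 hx').le) (SH.hx1 hx).le (SH.hx2 hx') (covB02).cov (covB50).cov hx hx' c_A05pm_203_s1 cutA_nil (noExt_A)

noncomputable def cut_A05pm_213_s1 : Cut := Cut.of [[⟨4, 0, 0, 1449551462⟩]]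

noncomputable def f_A05pm_213_s1 : ℕ → ℕ → ℕ → ℕ → Bool := onCell 0 536870912 536870912 536870912 991146299 28908434
    (rowF 0 true true false .pnn 2 1 3 (qsf 0 536870912 536870912 536870912 3) ndB0q2 ndB5q1 pcB3 cut_A05pm_213_s1 Ext.none)

def k0_A05pm_213_s1 : ∃ t, chk3 f_A05pm_213_s1 t 1 1 1 = true :=
  ⟨(l 6), by decide +kernel⟩

theorem c_A05pm_213_s1 : CertF 0 536870912 536870912 536870912 991146299 28908434 true true false .pnn 2 1 3
    ndB0q2 ndB5q1 pcB3 cut_A05pm_213_s1 Ext.none :=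
  certF0 (fam := true) (s1 := true) (s2 := false) (a := 2) (b := 1) (c := 3) (cn := .pnn) (n1 := ndB0q2) (n2 := ndB5q1) (pc := pcB3) (cut := cut_A05pm_213_s1) (xt := Ext.none) (P1 := 0) (W1 := 536870912) (P2 := 536870912) (W2 := 536870912) (P3 := 991146299) (W3 := 28908434)
    rfl k0_A05pm_213_s1

theorem s_A05pm_213_s1 {κ x : ℝ} (hκ : κ * h0 = ken x) (hx : ((991146299 : ℕ) : ℝ) / S ≤ x)
    (hx' : x ≤ (((991146299 : ℕ) : ℝ) + (28908434 : ℕ)) / S) :
    AltA (VFD κ) PP tK tL pcB [⟨3, 0, 0, 1449551462⟩] 2 1 3 0 5 (sgb true) (sgb false) x :=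
  strip_altAD (m := 1449551462) true rfl hκ (SH.κ0 hκ (SH.hx1 hx).le (SH.hx2 hx').le) (SH.hx1 hx).le (SH.hx2 hx') (covB02).cov (covB51).cov hx hx' c_A05pm_213_s1 cutA_nil (noExt_A)

noncomputable def cut_A05mm_001_s1 : Cut := Cut.of [[⟨4, 0, 0, 1449551462⟩]]

noncomputable def f_A05mm_001_s1 : ℕ → ℕ → ℕ → ℕ → Bool := onCell 0 536870912 0 536870912 991146299 28908434
    (rowF 0 true false false .up 0 0 1 (qsf 0 536870912 0 536870912 1) ndB0q0 ndB5q0 pcB1 cut_A05mm_001_s1 Ext.none)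

def k0_A05mm_001_s1 : ∃ t, chk3 f_A05mm_001_s1 t 1 1 1 = true :=
  ⟨(l 4), by decide +kernel⟩

theorem c_A05mm_001_s1 : CertF 0 536870912 0 536870912 991146299 28908434 true false false .up 0 0 1
    ndB0q0 ndB5q0 pcB1 cut_A05mm_001_s1 Ext.none :=
  certF0 (fam := true) (s1 := false) (s2 := false) (a := 0) (b := 0) (c := 1) (cn := .up) (n1 := ndB0q0) (n2 := ndB5q0) (pc := pcB1) (cut := cut_A05mm_001_s1) (xt := Ext.none) (P1 := 0) (W1 := 536870912) (P2 := 0) (W2 := 536870912) (P3 := 991146299) (W3 := 28908434)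
    rfl k0_A05mm_001_s1

theorem s_A05mm_001_s1 {κ x : ℝ} (hκ : κ * h0 = ken x) (hx : ((991146299 : ℕ) : ℝ) / S ≤ x)
    (hx' : x ≤ (((991146299 : ℕ) : ℝ) + (28908434 : ℕ)) / S) :
    AltA (VFD κ) PP tK tL pcB [⟨3, 0, 0, 1449551462⟩] 0 0 1 0 5 (sgb false) (sgb false) x :=
  strip_altAD (m := 1449551462) true rfl hκ (SH.κ0 hκ (SH.hx1 hx).le (SH.hx2 hx').le) (SH.hx1 hx).le (SH.hx2 hx') (covB00).cov (covB50).cov hx hx' c_A05mm_001_s1 cutA_nil (noExt_A)

noncomputable def cut_A05mm_011_s1 : Cut := Cut.of [[⟨4, 0, 0, 1449551462⟩]]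

noncomputable def f_A05mm_011_s1 : ℕ → ℕ → ℕ → ℕ → Bool := onCell 0 536870912 536870912 536870912 991146299 28908434
    (rowF 0 true false false .pnn 0 1 1 (qsf 0 536870912 536870912 536870912 1) ndB0q0 ndB5q1 pcB1 cut_A05mm_011_s1 Ext.none)

def k0_A05mm_011_s1 : ∃ t, chk3 f_A05mm_011_s1 t 1 1 1 = true :=
  ⟨(l 4), by decide +kernel⟩

theorem c_A05mm_011_s1 : CertF 0 536870912 536870912 536870912 991146299 28908434 true false false .pnn 0 1 1
    ndB0q0 ndB5q1 pcB1 cut_A05mm_011_s1 Ext.none :=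
  certF0 (fam := true) (s1 := false) (s2 := false) (a := 0) (b := 1) (c := 1) (cn := .pnn) (n1 := ndB0q0) (n2 := ndB5q1) (pc := pcB1) (cut := cut_A05mm_011_s1) (xt := Ext.none) (P1 := 0) (W1 := 536870912) (P2 := 536870912) (W2 := 536870912) (P3 := 991146299) (W3 := 28908434)
    rfl k0_A05mm_011_s1

theorem s_A05mm_011_s1 {κ x : ℝ} (hκ : κ * h0 = ken x) (hx : ((991146299 : ℕ) : ℝ) / S ≤ x)
    (hx' : x ≤ (((991146299 : ℕ) : ℝ) + (28908434 : ℕ)) / S) :
    AltA (VFD κ) PP tK tL pcB [⟨3, 0, 0, 1449551462⟩] 0 1 1 0 5 (sgb false) (sgb false) x :=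
  strip_altAD (m := 1449551462) true rfl hκ (SH.κ0 hκ (SH.hx1 hx).le (SH.hx2 hx').le) (SH.hx1 hx).le (SH.hx2 hx') (covB00).cov (covB51).cov hx hx' c_A05mm_011_s1 cutA_nil (noExt_A)

noncomputable def cut_A05mm_012_s1 : Cut := Cut.of [[⟨4, 0, 0, 1449551462⟩]]

noncomputable def f_A05mm_012_s1 : ℕ → ℕ → ℕ → ℕ → Bool := onCell 0 536870912 536870912 536870912 991146299 28908434
    (rowF 0 true false false .pnp 0 1 2 (qsf 0 536870912 536870912 536870912 2) ndB0q0 ndB5q1 pcB2 cut_A05mm_012_s1 Ext.none)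

def k0_A05mm_012_s1 : ∃ t, chk3 f_A05mm_012_s1 t 1 1 1 = true :=
  ⟨(l 4), by decide +kernel⟩

theorem c_A05mm_012_s1 : CertF 0 536870912 536870912 536870912 991146299 28908434 true false false .pnp 0 1 2
    ndB0q0 ndB5q1 pcB2 cut_A05mm_012_s1 Ext.none :=
  certF0 (fam := true) (s1 := false) (s2 := false) (a := 0) (b := 1) (c := 2) (cn := .pnp) (n1 := ndB0q0) (n2 := ndB5q1) (pc := pcB2) (cut := cut_A05mm_012_s1) (xt := Ext.none) (P1 := 0) (W1 := 536870912) (P2 := 536870912) (W2 := 536870912) (P3 := 991146299) (W3 := 28908434)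
    rfl k0_A05mm_012_s1

theorem s_A05mm_012_s1 {κ x : ℝ} (hκ : κ * h0 = ken x) (hx : ((991146299 : ℕ) : ℝ) / S ≤ x)
    (hx' : x ≤ (((991146299 : ℕ) : ℝ) + (28908434 : ℕ)) / S) :
    AltA (VFD κ) PP tK tL pcB [⟨3, 0, 0, 1449551462⟩] 0 1 2 0 5 (sgb false) (sgb false) x :=
  strip_altAD (m := 1449551462) true rfl hκ (SH.κ0 hκ (SH.hx1 hx).le (SH.hx2 hx').le) (SH.hx1 hx).le (SH.hx2 hx') (covB00).cov (covB51).cov hx hx' c_A05mm_012_s1 cutA_nil (noExt_A)

noncomputable def cut_A05mm_022_s1 : Cut := Cut.of [[⟨4, 0, 0, 1449551462⟩]]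

noncomputable def f_A05mm_022_s1 : ℕ → ℕ → ℕ → ℕ → Bool := onCell 0 536870912 1073741824 536870912 991146299 28908434
    (rowF 0 true false false .pp 0 2 2 (qsf 0 536870912 1073741824 536870912 2) ndB0q0 ndB5q2 pcB2 cut_A05mm_022_s1 Ext.none)

def k0_A05mm_022_s1 : ∃ t, chk3 f_A05mm_022_s1 t 1 1 1 = true :=
  ⟨(l 4), by decide +kernel⟩

theorem c_A05mm_022_s1 : CertF 0 536870912 1073741824 536870912 991146299 28908434 true false false .pp 0 2 2
    ndB0q0 ndB5q2 pcB2 cut_A05mm_022_s1 Ext.none :=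
  certF0 (fam := true) (s1 := false) (s2 := false) (a := 0) (b := 2) (c := 2) (cn := .pp) (n1 := ndB0q0) (n2 := ndB5q2) (pc := pcB2) (cut := cut_A05mm_022_s1) (xt := Ext.none) (P1 := 0) (W1 := 536870912) (P2 := 1073741824) (W2 := 536870912) (P3 := 991146299) (W3 := 28908434)
    rfl k0_A05mm_022_s1

theorem s_A05mm_022_s1 {κ x : ℝ} (hκ : κ * h0 = ken x) (hx : ((991146299 : ℕ) : ℝ) / S ≤ x)
    (hx' : x ≤ (((991146299 : ℕ) : ℝ) + (28908434 : ℕ)) / S) :
    AltA (VFD κ) PP tK tL pcB [⟨3, 0, 0, 1449551462⟩] 0 2 2 0 5 (sgb false) (sgb false) x :=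
  strip_altAD (m := 1449551462) true rfl hκ (SH.κ0 hκ (SH.hx1 hx).le (SH.hx2 hx').le) (SH.hx1 hx).le (SH.hx2 hx') (covB00).cov (covB52).cov hx hx' c_A05mm_022_s1 cutA_nil (noExt_A)

noncomputable def cut_A05mm_023_s1 : Cut := Cut.of [[⟨4, 0, 0, 1449551462⟩]]

noncomputable def f_A05mm_023_s1 : ℕ → ℕ → ℕ → ℕ → Bool := onCell 0 536870912 1073741824 536870912 991146299 28908434
    (rowF 0 true false false .up 0 2 3 (qsf 0 536870912 1073741824 536870912 3) ndB0q0 ndB5q2 pcB3 cut_A05mm_023_s1 Ext.none)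

def k0_A05mm_023_s1 : ∃ t, chk3 f_A05mm_023_s1 t 1 1 1 = true :=
  ⟨(l 4), by decide +kernel⟩

theorem c_A05mm_023_s1 : CertF 0 536870912 1073741824 536870912 991146299 28908434 true false false .up 0 2 3
    ndB0q0 ndB5q2 pcB3 cut_A05mm_023_s1 Ext.none :=
  certF0 (fam := true) (s1 := false) (s2 := false) (a := 0) (b := 2) (c := 3) (cn := .up) (n1 := ndB0q0) (n2 := ndB5q2) (pc := pcB3) (cut := cut_A05mm_023_s1) (xt := Ext.none) (P1 := 0) (W1 := 536870912) (P2 := 1073741824) (W2 := 536870912) (P3 := 991146299) (W3 := 28908434)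
    rfl k0_A05mm_023_s1

theorem s_A05mm_023_s1 {κ x : ℝ} (hκ : κ * h0 = ken x) (hx : ((991146299 : ℕ) : ℝ) / S ≤ x)
    (hx' : x ≤ (((991146299 : ℕ) : ℝ) + (28908434 : ℕ)) / S) :
    AltA (VFD κ) PP tK tL pcB [⟨3, 0, 0, 1449551462⟩] 0 2 3 0 5 (sgb false) (sgb false) x :=
  strip_altAD (m := 1449551462) true rfl hκ (SH.κ0 hκ (SH.hx1 hx).le (SH.hx2 hx').le) (SH.hx1 hx).le (SH.hx2 hx') (covB00).cov (covB52).cov hx hx' c_A05mm_023_s1 cutA_nil (noExt_A)

noncomputable def cut_A05mm_033_s1 : Cut := Cut.of [[⟨4, 0, 0, 1449551462⟩]]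

noncomputable def f_A05mm_033_s1 : ℕ → ℕ → ℕ → ℕ → Bool := onCell 0 536870912 0 1230186008 991146299 28908434
    (rowF 0 true false false .pnn 0 3 3 (qsf 0 536870912 0 1230186008 3) ndB0q0 ndB5q3 pcB3 cut_A05mm_033_s1 Ext.none)

def k0_A05mm_033_s1 : ∃ t, chk3 f_A05mm_033_s1 t 1 1 1 = true :=
  ⟨(l 4), by decide +kernel⟩

theorem c_A05mm_033_s1 : CertF 0 536870912 0 1230186008 991146299 28908434 true false false .pnn 0 3 3
    ndB0q0 ndB5q3 pcB3 cut_A05mm_033_s1 Ext.none :=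
  certF0 (fam := true) (s1 := false) (s2 := false) (a := 0) (b := 3) (c := 3) (cn := .pnn) (n1 := ndB0q0) (n2 := ndB5q3) (pc := pcB3) (cut := cut_A05mm_033_s1) (xt := Ext.none) (P1 := 0) (W1 := 536870912) (P2 := 0) (W2 := 1230186008) (P3 := 991146299) (W3 := 28908434)
    rfl k0_A05mm_033_s1

theorem s_A05mm_033_s1 {κ x : ℝ} (hκ : κ * h0 = ken x) (hx : ((991146299 : ℕ) : ℝ) / S ≤ x)
    (hx' : x ≤ (((991146299 : ℕ) : ℝ) + (28908434 : ℕ)) / S) :
    AltA (VFD κ) PP tK tL pcB [⟨3, 0, 0, 1449551462⟩] 0 3 3 0 5 (sgb false) (sgb false) x :=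
  strip_altAD (m := 1449551462) true rfl hκ (SH.κ0 hκ (SH.hx1 hx).le (SH.hx2 hx').le) (SH.hx1 hx).le (SH.hx2 hx') (covB00).cov (covB53).cov hx hx' c_A05mm_033_s1 cutA_nil (noExt_A)

noncomputable def cut_A05mm_101_s1 : Cut := Cut.of [[⟨4, 0, 0, 1449551462⟩]]

noncomputable def f_A05mm_101_s1 : ℕ → ℕ → ℕ → ℕ → Bool := onCell 536870912 536870912 0 536870912 991146299 28908434
    (rowF 0 true false false .npn 1 0 1 (qsf 536870912 536870912 0 536870912 1) ndB0q1 ndB5q0 pcB1 cut_A05mm_101_s1 Ext.none)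

def k0_A05mm_101_s1 : ∃ t, chk3 f_A05mm_101_s1 t 1 1 1 = true :=
  ⟨(l 4), by decide +kernel⟩

theorem c_A05mm_101_s1 : CertF 536870912 536870912 0 536870912 991146299 28908434 true false false .npn 1 0 1
    ndB0q1 ndB5q0 pcB1 cut_A05mm_101_s1 Ext.none :=
  certF0 (fam := true) (s1 := false) (s2 := false) (a := 1) (b := 0) (c := 1) (cn := .npn) (n1 := ndB0q1) (n2 := ndB5q0) (pc := pcB1) (cut := cut_A05mm_101_s1) (xt := Ext.none) (P1 := 536870912) (W1 := 536870912) (P2 := 0) (W2 := 536870912) (P3 := 991146299) (W3 := 28908434)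
    rfl k0_A05mm_101_s1

theorem s_A05mm_101_s1 {κ x : ℝ} (hκ : κ * h0 = ken x) (hx : ((991146299 : ℕ) : ℝ) / S ≤ x)
    (hx' : x ≤ (((991146299 : ℕ) : ℝ) + (28908434 : ℕ)) / S) :
    AltA (VFD κ) PP tK tL pcB [⟨3, 0, 0, 1449551462⟩] 1 0 1 0 5 (sgb false) (sgb false) x :=
  strip_altAD (m := 1449551462) true rfl hκ (SH.κ0 hκ (SH.hx1 hx).le (SH.hx2 hx').le) (SH.hx1 hx).le (SH.hx2 hx') (covB01).cov (covB50).cov hx hx' c_A05mm_101_s1 cutA_nil (noExt_A)

noncomputable def cut_A05mm_102_s1 : Cut := Cut.of [[⟨4, 0, 0, 1449551462⟩]]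

noncomputable def f_A05mm_102_s1 : ℕ → ℕ → ℕ → ℕ → Bool := onCell 536870912 536870912 0 536870912 991146299 28908434
    (rowF 0 true false false .npp 1 0 2 (qsf 536870912 536870912 0 536870912 2) ndB0q1 ndB5q0 pcB2 cut_A05mm_102_s1 Ext.none)

def k0_A05mm_102_s1 : ∃ t, chk3 f_A05mm_102_s1 t 1 1 1 = true :=
  ⟨(l 4), by decide +kernel⟩

theorem c_A05mm_102_s1 : CertF 536870912 536870912 0 536870912 991146299 28908434 true false false .npp 1 0 2
    ndB0q1 ndB5q0 pcB2 cut_A05mm_102_s1 Ext.none :=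
  certF0 (fam := true) (s1 := false) (s2 := false) (a := 1) (b := 0) (c := 2) (cn := .npp) (n1 := ndB0q1) (n2 := ndB5q0) (pc := pcB2) (cut := cut_A05mm_102_s1) (xt := Ext.none) (P1 := 536870912) (W1 := 536870912) (P2 := 0) (W2 := 536870912) (P3 := 991146299) (W3 := 28908434)
    rfl k0_A05mm_102_s1

theorem s_A05mm_102_s1 {κ x : ℝ} (hκ : κ * h0 = ken x) (hx : ((991146299 : ℕ) : ℝ) / S ≤ x)
    (hx' : x ≤ (((991146299 : ℕ) : ℝ) + (28908434 : ℕ)) / S) :
    AltA (VFD κ) PP tK tL pcB [⟨3, 0, 0, 1449551462⟩] 1 0 2 0 5 (sgb false) (sgb false) x :=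
  strip_altAD (m := 1449551462) true rfl hκ (SH.κ0 hκ (SH.hx1 hx).le (SH.hx2 hx').le) (SH.hx1 hx).le (SH.hx2 hx') (covB01).cov (covB50).cov hx hx' c_A05mm_102_s1 cutA_nil (noExt_A)

noncomputable def cut_A05mm_112_s1 : Cut := Cut.of [[⟨4, 0, 0, 1449551462⟩]]

noncomputable def f_A05mm_112_s1 : ℕ → ℕ → ℕ → ℕ → Bool := onCell 536870912 536870912 536870912 536870912 991146299 28908434
    (rowF 0 true false false .dn 1 1 2 (qsf 536870912 536870912 536870912 536870912 2) ndB0q1 ndB5q1 pcB2 cut_A05mm_112_s1 Ext.none)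

def k0_A05mm_112_s1 : ∃ t, chk3 f_A05mm_112_s1 t 1 1 1 = true :=
  ⟨(l 4), by decide +kernel⟩

theorem c_A05mm_112_s1 : CertF 536870912 536870912 536870912 536870912 991146299 28908434 true false false .dn 1 1 2
    ndB0q1 ndB5q1 pcB2 cut_A05mm_112_s1 Ext.none :=
  certF0 (fam := true) (s1 := false) (s2 := false) (a := 1) (b := 1) (c := 2) (cn := .dn) (n1 := ndB0q1) (n2 := ndB5q1) (pc := pcB2) (cut := cut_A05mm_112_s1) (xt := Ext.none) (P1 := 536870912) (W1 := 536870912) (P2 := 536870912) (W2 := 536870912) (P3 := 991146299) (W3 := 28908434)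
    rfl k0_A05mm_112_s1

theorem s_A05mm_112_s1 {κ x : ℝ} (hκ : κ * h0 = ken x) (hx : ((991146299 : ℕ) : ℝ) / S ≤ x)
    (hx' : x ≤ (((991146299 : ℕ) : ℝ) + (28908434 : ℕ)) / S) :
    AltA (VFD κ) PP tK tL pcB [⟨3, 0, 0, 1449551462⟩] 1 1 2 0 5 (sgb false) (sgb false) x :=
  strip_altAD (m := 1449551462) true rfl hκ (SH.κ0 hκ (SH.hx1 hx).le (SH.hx2 hx').le) (SH.hx1 hx).le (SH.hx2 hx') (covB01).cov (covB51).cov hx hx' c_A05mm_112_s1 cutA_nil (noExt_A)

noncomputable def cut_A05mm_113_s1 : Cut := Cut.of [[⟨4, 0, 0, 1449551462⟩]]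

noncomputable def f_A05mm_113_s1 : ℕ → ℕ → ℕ → ℕ → Bool := onCell 536870912 536870912 536870912 536870912 991146299 28908434
    (rowF 0 true false false .nn 1 1 3 (qsf 536870912 536870912 536870912 536870912 3) ndB0q1 ndB5q1 pcB3 cut_A05mm_113_s1 Ext.none)

def k0_A05mm_113_s1 : ∃ t, chk3 f_A05mm_113_s1 t 1 1 1 = true :=
  ⟨(l 4), by decide +kernel⟩

theorem c_A05mm_113_s1 : CertF 536870912 536870912 536870912 536870912 991146299 28908434 true false false .nn 1 1 3
    ndB0q1 ndB5q1 pcB3 cut_A05mm_113_s1 Ext.none :=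
  certF0 (fam := true) (s1 := false) (s2 := false) (a := 1) (b := 1) (c := 3) (cn := .nn) (n1 := ndB0q1) (n2 := ndB5q1) (pc := pcB3) (cut := cut_A05mm_113_s1) (xt := Ext.none) (P1 := 536870912) (W1 := 536870912) (P2 := 536870912) (W2 := 536870912) (P3 := 991146299) (W3 := 28908434)
    rfl k0_A05mm_113_s1

theorem s_A05mm_113_s1 {κ x : ℝ} (hκ : κ * h0 = ken x) (hx : ((991146299 : ℕ) : ℝ) / S ≤ x)
    (hx' : x ≤ (((991146299 : ℕ) : ℝ) + (28908434 : ℕ)) / S) :
    AltA (VFD κ) PP tK tL pcB [⟨3, 0, 0, 1449551462⟩] 1 1 3 0 5 (sgb false) (sgb false) x :=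
  strip_altAD (m := 1449551462) true rfl hκ (SH.κ0 hκ (SH.hx1 hx).le (SH.hx2 hx').le) (SH.hx1 hx).le (SH.hx2 hx') (covB01).cov (covB51).cov hx hx' c_A05mm_113_s1 cutA_nil (noExt_A)

noncomputable def cut_A05mm_123_s1 : Cut := Cut.of [[⟨4, 0, 0, 1449551462⟩]]

noncomputable def f_A05mm_123_s1 : ℕ → ℕ → ℕ → ℕ → Bool := onCell 536870912 536870912 1073741824 536870912 991146299 28908434
    (rowF 0 true false false .npn 1 2 3 (qsf 536870912 536870912 1073741824 536870912 3) ndB0q1 ndB5q2 pcB3 cut_A05mm_123_s1 Ext.none)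

def k0_A05mm_123_s1 : ∃ t, chk3 f_A05mm_123_s1 t 1 1 1 = true :=
  ⟨(l 4), by decide +kernel⟩

theorem c_A05mm_123_s1 : CertF 536870912 536870912 1073741824 536870912 991146299 28908434 true false false .npn 1 2 3
    ndB0q1 ndB5q2 pcB3 cut_A05mm_123_s1 Ext.none :=
  certF0 (fam := true) (s1 := false) (s2 := false) (a := 1) (b := 2) (c := 3) (cn := .npn) (n1 := ndB0q1) (n2 := ndB5q2) (pc := pcB3) (cut := cut_A05mm_123_s1) (xt := Ext.none) (P1 := 536870912) (W1 := 536870912) (P2 := 1073741824) (W2 := 536870912) (P3 := 991146299) (W3 := 28908434)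
    rfl k0_A05mm_123_s1

theorem s_A05mm_123_s1 {κ x : ℝ} (hκ : κ * h0 = ken x) (hx : ((991146299 : ℕ) : ℝ) / S ≤ x)
    (hx' : x ≤ (((991146299 : ℕ) : ℝ) + (28908434 : ℕ)) / S) :
    AltA (VFD κ) PP tK tL pcB [⟨3, 0, 0, 1449551462⟩] 1 2 3 0 5 (sgb false) (sgb false) x :=
  strip_altAD (m := 1449551462) true rfl hκ (SH.κ0 hκ (SH.hx1 hx).le (SH.hx2 hx').le) (SH.hx1 hx).le (SH.hx2 hx') (covB01).cov (covB52).cov hx hx' c_A05mm_123_s1 cutA_nil (noExt_A)

noncomputable def cut_A05mm_133_s1 : Cut := Cut.of [[⟨4, 0, 0, 1449551462⟩]]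

noncomputable def f_A05mm_133_s1 : ℕ → ℕ → ℕ → ℕ → Bool := onCell 536870912 536870912 0 1230186008 991146299 28908434
    (rowF 0 true false false .dn 1 3 3 (qsf 536870912 536870912 0 1230186008 3) ndB0q1 ndB5q3 pcB3 cut_A05mm_133_s1 Ext.none)

def k0_A05mm_133_s1 : ∃ t, chk3 f_A05mm_133_s1 t 1 1 1 = true :=
  ⟨(l 4), by decide +kernel⟩

theorem c_A05mm_133_s1 : CertF 536870912 536870912 0 1230186008 991146299 28908434 true false false .dn 1 3 3
    ndB0q1 ndB5q3 pcB3 cut_A05mm_133_s1 Ext.none :=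
  certF0 (fam := true) (s1 := false) (s2 := false) (a := 1) (b := 3) (c := 3) (cn := .dn) (n1 := ndB0q1) (n2 := ndB5q3) (pc := pcB3) (cut := cut_A05mm_133_s1) (xt := Ext.none) (P1 := 536870912) (W1 := 536870912) (P2 := 0) (W2 := 1230186008) (P3 := 991146299) (W3 := 28908434)
    rfl k0_A05mm_133_s1

theorem s_A05mm_133_s1 {κ x : ℝ} (hκ : κ * h0 = ken x) (hx : ((991146299 : ℕ) : ℝ) / S ≤ x)
    (hx' : x ≤ (((991146299 : ℕ) : ℝ) + (28908434 : ℕ)) / S) :
    AltA (VFD κ) PP tK tL pcB [⟨3, 0, 0, 1449551462⟩] 1 3 3 0 5 (sgb false) (sgb false) x :=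
  strip_altAD (m := 1449551462) true rfl hκ (SH.κ0 hκ (SH.hx1 hx).le (SH.hx2 hx').le) (SH.hx1 hx).le (SH.hx2 hx') (covB01).cov (covB53).cov hx hx' c_A05mm_133_s1 cutA_nil (noExt_A)

noncomputable def cut_A05mm_202_s1 : Cut := Cut.of [[⟨4, 0, 0, 1449551462⟩]]

noncomputable def f_A05mm_202_s1 : ℕ → ℕ → ℕ → ℕ → Bool := onCell 0 536870912 0 536870912 991146299 28908434
    (rowF 0 true false false .pp 2 0 2 (qsf 0 536870912 0 536870912 2) ndB0q2 ndB5q0 pcB2 cut_A05mm_202_s1 Ext.none)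

def k0_A05mm_202_s1 : ∃ t, chk3 f_A05mm_202_s1 t 1 1 1 = true :=
  ⟨(l 4), by decide +kernel⟩

theorem c_A05mm_202_s1 : CertF 0 536870912 0 536870912 991146299 28908434 true false false .pp 2 0 2
    ndB0q2 ndB5q0 pcB2 cut_A05mm_202_s1 Ext.none :=
  certF0 (fam := true) (s1 := false) (s2 := false) (a := 2) (b := 0) (c := 2) (cn := .pp) (n1 := ndB0q2) (n2 := ndB5q0) (pc := pcB2) (cut := cut_A05mm_202_s1) (xt := Ext.none) (P1 := 0) (W1 := 536870912) (P2 := 0) (W2 := 536870912) (P3 := 991146299) (W3 := 28908434)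
    rfl k0_A05mm_202_s1

theorem s_A05mm_202_s1 {κ x : ℝ} (hκ : κ * h0 = ken x) (hx : ((991146299 : ℕ) : ℝ) / S ≤ x)
    (hx' : x ≤ (((991146299 : ℕ) : ℝ) + (28908434 : ℕ)) / S) :
    AltA (VFD κ) PP tK tL pcB [⟨3, 0, 0, 1449551462⟩] 2 0 2 0 5 (sgb false) (sgb false) x :=
  strip_altAD (m := 1449551462) true rfl hκ (SH.κ0 hκ (SH.hx1 hx).le (SH.hx2 hx').le) (SH.hx1 hx).le (SH.hx2 hx') (covB02).cov (covB50).cov hx hx' c_A05mm_202_s1 cutA_nil (noExt_A)

noncomputable def cut_A05mm_203_s1 : Cut := Cut.of [[⟨4, 0, 0, 1449551462⟩]]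

noncomputable def f_A05mm_203_s1 : ℕ → ℕ → ℕ → ℕ → Bool := onCell 0 536870912 0 536870912 991146299 28908434
    (rowF 0 true false false .up 2 0 3 (qsf 0 536870912 0 536870912 3) ndB0q2 ndB5q0 pcB3 cut_A05mm_203_s1 Ext.none)

def k0_A05mm_203_s1 : ∃ t, chk3 f_A05mm_203_s1 t 1 1 1 = true :=
  ⟨(l 4), by decide +kernel⟩

theorem c_A05mm_203_s1 : CertF 0 536870912 0 536870912 991146299 28908434 true false false .up 2 0 3
    ndB0q2 ndB5q0 pcB3 cut_A05mm_203_s1 Ext.none :=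
  certF0 (fam := true) (s1 := false) (s2 := false) (a := 2) (b := 0) (c := 3) (cn := .up) (n1 := ndB0q2) (n2 := ndB5q0) (pc := pcB3) (cut := cut_A05mm_203_s1) (xt := Ext.none) (P1 := 0) (W1 := 536870912) (P2 := 0) (W2 := 536870912) (P3 := 991146299) (W3 := 28908434)
    rfl k0_A05mm_203_s1

theorem s_A05mm_203_s1 {κ x : ℝ} (hκ : κ * h0 = ken x) (hx : ((991146299 : ℕ) : ℝ) / S ≤ x)
    (hx' : x ≤ (((991146299 : ℕ) : ℝ) + (28908434 : ℕ)) / S) :
    AltA (VFD κ) PP tK tL pcB [⟨3, 0, 0, 1449551462⟩] 2 0 3 0 5 (sgb false) (sgb false) x :=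
  strip_altAD (m := 1449551462) true rfl hκ (SH.κ0 hκ (SH.hx1 hx).le (SH.hx2 hx').le) (SH.hx1 hx).le (SH.hx2 hx') (covB02).cov (covB50).cov hx hx' c_A05mm_203_s1 cutA_nil (noExt_A)

noncomputable def cut_A05mm_213_s1 : Cut := Cut.of [[⟨4, 0, 0, 1449551462⟩]]

noncomputable def f_A05mm_213_s1 : ℕ → ℕ → ℕ → ℕ → Bool := onCell 0 536870912 536870912 536870912 991146299 28908434
    (rowF 0 true false false .pnn 2 1 3 (qsf 0 536870912 536870912 536870912 3) ndB0q2 ndB5q1 pcB3 cut_A05mm_213_s1 Ext.none)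

def k0_A05mm_213_s1 : ∃ t, chk3 f_A05mm_213_s1 t 1 1 1 = true :=
  ⟨(l 4), by decide +kernel⟩

theorem c_A05mm_213_s1 : CertF 0 536870912 536870912 536870912 991146299 28908434 true false false .pnn 2 1 3
    ndB0q2 ndB5q1 pcB3 cut_A05mm_213_s1 Ext.none :=
  certF0 (fam := true) (s1 := false) (s2 := false) (a := 2) (b := 1) (c := 3) (cn := .pnn) (n1 := ndB0q2) (n2 := ndB5q1) (pc := pcB3) (cut := cut_A05mm_213_s1) (xt := Ext.none) (P1 := 0) (W1 := 536870912) (P2 := 536870912) (W2 := 536870912) (P3 := 991146299) (W3 := 28908434)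
    rfl k0_A05mm_213_s1

theorem s_A05mm_213_s1 {κ x : ℝ} (hκ : κ * h0 = ken x) (hx : ((991146299 : ℕ) : ℝ) / S ≤ x)
    (hx' : x ≤ (((991146299 : ℕ) : ℝ) + (28908434 : ℕ)) / S) :
    AltA (VFD κ) PP tK tL pcB [⟨3, 0, 0, 1449551462⟩] 2 1 3 0 5 (sgb false) (sgb false) x :=
  strip_altAD (m := 1449551462) true rfl hκ (SH.κ0 hκ (SH.hx1 hx).le (SH.hx2 hx').le) (SH.hx1 hx).le (SH.hx2 hx') (covB02).cov (covB51).cov hx hx' c_A05mm_213_s1 cutA_nil (noExt_A)

noncomputable def cut_B00pp_001_s1 : Cut := Cut.of [[⟨4, 0, 0, 1449551462⟩]]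

noncomputable def f_B00pp_001_s1 : ℕ → ℕ → ℕ → ℕ → Bool := onCell 0 536870912 0 536870912 991146299 28908434
    (rowF 1 false true true .up 0 0 1 (qsf 0 536870912 536870912 536870912 0) ndB0q0 ndB0q1 pcB0 cut_B00pp_001_s1 Ext.none)

def k0_B00pp_001_s1 : ∃ t, chk3 f_B00pp_001_s1 t 1 1 1 = true :=
  ⟨(l 3), by decide +kernel⟩

theorem c_B00pp_001_s1 : CertF 0 536870912 536870912 536870912 991146299 28908434 false true true .up 0 0 1
    ndB0q0 ndB0q1 pcB0 cut_B00pp_001_s1 Ext.none :=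
  certF1 (fam := false) (s1 := true) (s2 := true) (a := 0) (b := 0) (c := 1) (cn := .up) (n1 := ndB0q0) (n2 := ndB0q1) (pc := pcB0) (cut := cut_B00pp_001_s1) (xt := Ext.none) (P1 := 0) (W1 := 536870912) (P2 := 536870912) (W2 := 536870912) (P3 := 991146299) (W3 := 28908434)
    rfl (fun _ => rfl) k0_B00pp_001_s1

theorem s_B00pp_001_s1 {κ x : ℝ} (hκ : κ * h0 = ken x) (hx : ((991146299 : ℕ) : ℝ) / S ≤ x)
    (hx' : x ≤ (((991146299 : ℕ) : ℝ) + (28908434 : ℕ)) / S) :
    AltB (VFD κ) PP tK tL pcB [⟨3, 0, 0, 1449551462⟩] 0 0 1 0 0 (sgb true) (sgb true) x :=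
  strip_altBD (m := 1449551462) true rfl hκ (SH.κ0 hκ (SH.hx1 hx).le (SH.hx2 hx').le) (SH.hx1 hx).le (SH.hx2 hx') (covB00).cov (covB01).cov hx hx' c_B00pp_001_s1 cutB_nil (noExt_B)

noncomputable def cut_B00pp_001_s3 : Cut := Cut.of [[⟨3, 0, 0, 2845415833⟩]]

noncomputable def f_B00pp_001_s3 : ℕ → ℕ → ℕ → ℕ → Bool := onCell 0 536870912 536870912 536870912 991146299 28908434
    (rowF 0 false true true .up 0 0 1 (qsf 0 536870912 536870912 536870912 0) ndB0q0 ndB0q1 pcB0 cut_B00pp_001_s3 Ext.none)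

def k0_B00pp_001_s3 : ∃ t, chk3 f_B00pp_001_s3 t 1 1 1 = true :=
  ⟨(l 6), by decide +kernel⟩

theorem c_B00pp_001_s3 : CertF 0 536870912 536870912 536870912 991146299 28908434 false true true .up 0 0 1
    ndB0q0 ndB0q1 pcB0 cut_B00pp_001_s3 Ext.none :=
  certF0 (fam := false) (s1 := true) (s2 := true) (a := 0) (b := 0) (c := 1) (cn := .up) (n1 := ndB0q0) (n2 := ndB0q1) (pc := pcB0) (cut := cut_B00pp_001_s3) (xt := Ext.none) (P1 := 0) (W1 := 536870912) (P2 := 536870912) (W2 := 536870912) (P3 := 991146299) (W3 := 28908434)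
    rfl k0_B00pp_001_s3

theorem s_B00pp_001_s3 {κ x : ℝ} (hκ : κ * h0 = ken x) (hx : ((991146299 : ℕ) : ℝ) / S ≤ x)
    (hx' : x ≤ (((991146299 : ℕ) : ℝ) + (28908434 : ℕ)) / S) :
    AltB (VFD κ) PP tK tL pcB [⟨4, 0, 0, 2845415833⟩] 0 0 1 0 0 (sgb true) (sgb true) x :=
  strip_altBD (m := 2845415833) false rfl hκ (SH.κ0 hκ (SH.hx1 hx).le (SH.hx2 hx').le) (SH.hx1 hx).le (SH.hx2 hx') (covB00).cov (covB01).cov hx hx' c_B00pp_001_s3 cutB_nil (noExt_B)

noncomputable def cut_B00pp_011_s1 : Cut := Cut.of [[⟨4, 0, 0, 1449551462⟩], [⟨0, 0, 0, 53687091⟩, ⟨1, 1, 0, 53687091⟩, ⟨2, 1, 0, 53687091⟩]]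

noncomputable def f_B00pp_011_s1 : ℕ → ℕ → ℕ → ℕ → Bool := onCell 536870912 536870912 536870912 536870912 991146299 28908434
    (rowF 2 false true true .pnn 0 1 1 (qsf 0 536870912 536870912 536870912 1) ndB0q0 ndB0q1 pcB1 cut_B00pp_011_s1 Ext.none)

def k0_B00pp_011_s1 : ∃ t, chk3 f_B00pp_011_s1 t 1 1 1 = true :=
  ⟨(a (l 3) (b (l 3) (a (l 3) (b (l 3) (a (l 3) (b (l 3) (b (l 3) (a (l 3) (l 14))))))))), by decide +kernel⟩

theorem c_B00pp_011_s1 : CertF 0 536870912 536870912 536870912 991146299 28908434 false true true .pnn 0 1 1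
    ndB0q0 ndB0q1 pcB1 cut_B00pp_011_s1 Ext.none :=
  certF2 (fam := false) (s1 := true) (s2 := true) (a := 0) (b := 1) (c := 1) (cn := .pnn) (n1 := ndB0q0) (n2 := ndB0q1) (pc := pcB1) (cut := cut_B00pp_011_s1) (xt := Ext.none) (P1 := 0) (W1 := 536870912) (P2 := 536870912) (W2 := 536870912) (P3 := 991146299) (W3 := 28908434)
    rfl (fun _ => rfl) k0_B00pp_011_s1

theorem s_B00pp_011_s1 {κ x : ℝ} (hκ : κ * h0 = ken x) (hx : ((991146299 : ℕ) : ℝ) / S ≤ x)
    (hx' : x ≤ (((991146299 : ℕ) : ℝ) + (28908434 : ℕ)) / S)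
    (H : CutB (VFD κ) PP tK tL pcB (Cut.of [[⟨0, 0, 0, 53687091⟩, ⟨1, 1, 0, 53687091⟩, ⟨2, 1, 0, 53687091⟩]]) 0 1 1 0 0 (sgb true) (sgb true) x) :
    AltB (VFD κ) PP tK tL pcB [⟨3, 0, 0, 1449551462⟩] 0 1 1 0 0 (sgb true) (sgb true) x :=
  strip_altBD (m := 1449551462) true rfl hκ (SH.κ0 hκ (SH.hx1 hx).le (SH.hx2 hx').le) (SH.hx1 hx).le (SH.hx2 hx') (covB00).cov (covB01).cov hx hx' c_B00pp_011_s1 H (noExt_B)

noncomputable def cut_B00pp_011_s3 : Cut := Cut.of [[⟨3, 0, 0, 2845415833⟩], [⟨0, 0, 0, 53687091⟩, ⟨1, 1, 0, 53687091⟩, ⟨2, 1, 0, 53687091⟩]]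

noncomputable def f_B00pp_011_s3 : ℕ → ℕ → ℕ → ℕ → Bool := onCell 0 536870912 536870912 536870912 991146299 28908434
    (rowF 0 false true true .pnn 0 1 1 (qsf 0 536870912 536870912 536870912 1) ndB0q0 ndB0q1 pcB1 cut_B00pp_011_s3 Ext.none)

def k0_B00pp_011_s3 : ∃ t, chk3 f_B00pp_011_s3 t 1 1 1 = true :=
  ⟨(l 6), by decide +kernel⟩

theorem c_B00pp_011_s3 : CertF 0 536870912 536870912 536870912 991146299 28908434 false true true .pnn 0 1 1
    ndB0q0 ndB0q1 pcB1 cut_B00pp_011_s3 Ext.none :=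
  certF0 (fam := false) (s1 := true) (s2 := true) (a := 0) (b := 1) (c := 1) (cn := .pnn) (n1 := ndB0q0) (n2 := ndB0q1) (pc := pcB1) (cut := cut_B00pp_011_s3) (xt := Ext.none) (P1 := 0) (W1 := 536870912) (P2 := 536870912) (W2 := 536870912) (P3 := 991146299) (W3 := 28908434)
    rfl k0_B00pp_011_s3

theorem s_B00pp_011_s3 {κ x : ℝ} (hκ : κ * h0 = ken x) (hx : ((991146299 : ℕ) : ℝ) / S ≤ x)
    (hx' : x ≤ (((991146299 : ℕ) : ℝ) + (28908434 : ℕ)) / S)
    (H : CutB (VFD κ) PP tK tL pcB (Cut.of [[⟨0, 0, 0, 53687091⟩, ⟨1, 1, 0, 53687091⟩, ⟨2, 1, 0, 53687091⟩]]) 0 1 1 0 0 (sgb true) (sgb true) x) :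
    AltB (VFD κ) PP tK tL pcB [⟨4, 0, 0, 2845415833⟩] 0 1 1 0 0 (sgb true) (sgb true) x :=
  strip_altBD (m := 2845415833) false rfl hκ (SH.κ0 hκ (SH.hx1 hx).le (SH.hx2 hx').le) (SH.hx1 hx).le (SH.hx2 hx') (covB00).cov (covB01).cov hx hx' c_B00pp_011_s3 H (noExt_B)

noncomputable def cut_B00pp_012_s1 : Cut := Cut.of [[⟨4, 0, 0, 1449551462⟩], [⟨0, 0, 0, 16777216⟩, ⟨1, 1, 0, 16777216⟩, ⟨2, 1, 0, 16777216⟩]]

noncomputable def xt_B00pp_012_s1 : Ext := strExt dd false true true .u0 .u2 .u0m .pnp 0 1 2 rfl rfl gf1 vv ndB0q0 ndB0q2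

noncomputable def f_B00pp_012_s1 : ℕ → ℕ → ℕ → ℕ → Bool := onCell 0 536870912 0 536870912 991146299 28908434
    (rowF 0 false true true .pnp 0 1 2 (qsf 0 536870912 0 536870912 1) ndB0q0 ndB0q2 pcB1 cut_B00pp_012_s1 xt_B00pp_012_s1)

def k0_B00pp_012_s1 : ∃ t, chk3 f_B00pp_012_s1 t 4 2 1 = true :=
  ⟨(a (l 2) (b (l 2) (a (l 2) (b (l 2) (a (l 2) (a (l 2) (b (l 2) (b (c (a (l 2) (l 16347816)) (l 16328632)) (a (a (b (l 2) (b (l 2) (l 16301256))) (b (l 16303480) (c (l 16294912) (l 16268320)))) (b (b (l 16302296) (c (l 16290936) (l 16264672))) (c (l 16342248) (l 16356832)))))))))))), by decide +kernel⟩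

def k1_B00pp_012_s1 : ∃ t, chk3 f_B00pp_012_s1 t 10 4 1 = true :=
  ⟨(l 6), by decide +kernel⟩

def k2_B00pp_012_s1 : ∃ t, chk3 f_B00pp_012_s1 t 20 5 1 = true :=
  ⟨(b (l 6) (b (b (a (l 6) (a (c (l 16359656) (l 16379416)) (c (l 16270848) (l 16371872)))) (a (a (c (l 16359464) (l 16380840)) (c (l 16266712) (l 16369184))) (a (c (b (l 16348592) (l 16300096)) (b (l 16365520) (l 16273184))) (a (b (l 16311656) (b (l 16306872) (c (l 16258816) (l 16271696)))) (b (l 16331552) (b (c (l 16260744) (l 16273328)) (l 16272912))))))) (a (b (a (b (a (l 16356920) (l 16352104)) (a (l 16305056) (c (l 16293496) (l 16309048)))) (b (c (a (l 16340272) (l 16337784)) (l 16312528)) (c (a (b (l 16334872) (l 16254032)) (l 16301272)) (a (a (l 16308184) (l 16309776)) (l 16314712))))) (a (b (c (a (b (l 16291280) (l 16337328)) (l 16258296)) (a (b (l 16264704) (l 16351944)) (l 16272312))) (l 16320072)) (c (l 16365672) (l 16377680)))) (b (a (b (c (a (b (l 16337872) (l 16255808))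 (l 16303432)) (a (b (l 16352096) (l 16269248)) (l 16316312))) (l 16321248)) (c (l 16369416) (l 16380448))) (c (l 16313576) (l 16323264)))))), by decide +kernel⟩

def k3_B00pp_012_s1 : ∃ t, chk3 f_B00pp_012_s1 t 21 5 1 = true :=
  ⟨(b (b (l 6) (a (b (l 6) (a (c (l 16363848) (l 16381792)) (c (l 16362368) (l 16377768)))) (b (a (l 6) (a (l 16337168) (l 16359152))) (a (c (l 16322024) (l 16335000)) (a (c (l 16367216) (l 16336496)) (b (l 16334104) (c (l 16329296) (l 16359768)))))))) (b (a (b (a (c (l 16311120) (l 16325768)) (b (a (l 16320400) (l 16320968)) (c (a (l 16310456) (b (l 16355056) (l 16359624))) (a (l 16322504) (b (l 16366392) (l 16370376)))))) (b (a (a (c (l 16315536) (l 16338696)) (b (c (l 16349304) (l 16361280)) (l 16339408))) (c (l 16283712) (l 16378040))) (a (c (l 16363232) (l 16374256)) (l 16390720)))) (b (a (b (c (a (l 16358784) (l 16322184)) (a (l 16328192) (c (l 16329816) (l 16335312)))) (c (l 16330840) (a (l 16293192) (l 16387416))))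 (b (a (c (l 16288992) (l 16340392)) (l 16388088)) (l 16400176))) (a (b (l 16395080) (l 16413656)) (l 16427728)))) (a (b (c (l 16319608) (l 16328440)) (a (l 16435200) (l 16457752))) (b (l 16369624) (l 16491800))))), by decide +kernel⟩

def k4_B00pp_012_s1 : ∃ t, chk3 f_B00pp_012_s1 t 11 2 1 = true :=
  ⟨(b (b (l 6) (a (l 6) (b (l 6) (a (l 6) (b (l 6) (a (l 16351584) (l 16366064))))))) (b (a (b (a (b (l 6) (a (l 6) (b (l 6) (l 16349088)))) (c (b (l 16357064) (a (l 16394408) (l 16405040))) (b (l 16365688) (a (l 16402632) (l 16369072))))) (a (b (a (c (l 16377816) (l 16304776)) (c (b (l 16385456) (l 16343720)) (b (l 16394552) (b (l 16393664) (l 16351864))))) (a (a (b (l 16357960) (c (l 16337872) (l 16346472))) (b (c (l 16379304) (l 16345920)) (c (l 16390696) (l 16398464)))) (b (c (a (l 16303800) (l 16398464)) (a (l 16353384) (l 16405256))) (l 16412640)))) (b (a (c (b (l 16395280) (l 16360408)) (b (l 16360208) (a (l 16361104) (l 16412808))))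 (b (c (l 16370016) (c (l 16331680) (l 16334384))) (l 16428104))) (c (l 16354816) (l 16359480))))) (b (a (b (c (l 16377800) (l 16423728)) (a (b (l 16376576) (c (l 16338528) (l 16384064))) (c (l 16440288) (b (l 16351936) (l 16447560))))) (c (b (a (l 16359288) (l 16464136)) (l 16393328)) (b (a (l 16443920) (l 16462976)) (l 16392936)))) (a (b (c (l 16456488) (l 16374992)) (l 16405968)) (b (l 16423064) (l 16453504))))) (a (b (a (b (c (l 16340080) (l 16346504)) (a (l 16451320) (l 16474984))) (b (c (l 16473496) (l 16477200)) (l 16426288))) (a (b (l 16416024) (l 16537120)) (b (l 16545480) (l 16580984)))) (a (b (b (l 16438752) (l 16555792)) (b (l 16589096) (l 16538416))) (b (b (l 16568184) (l 16599104)) (l 530958351)))))), by decide +kernel⟩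

def k5_B00pp_012_s1 : ∃ t, chk3 f_B00pp_012_s1 t 4 6 1 = true :=
  ⟨(a (l 2) (a (b (l 2) (a (b (l 2) (a (l 2) (b (b (l 2) (l 16525992)) (a (l 527953935) (l 527857167))))) (b (a (b (l 2) (l 16489240)) (b (l 16463872) (l 527939599))) (a (a (b (l 527936783) (l 527781391)) (b (l 527875855) (l 527460367))) (b (b (l 16535032) (l 16556160)) (a (b (l 16573392) (l 16595208)) (b (l 16582168) (l 16604336)))))))) (b (a (b (b (l 2) (a (l 2) (l 16377616))) (b (a (l 2) (l 16415920)) (a (l 16439392) (l 16455344)))) (b (b (a (b (a (l 2) (l 16308808)) (l 16365072)) (c (l 16366152) (l 16379192))) (c (l 16312648) (l 16407880))) (a (b (l 16432520) (l 16472712)) (b (l 16450512) (l 16491664))))) (a (a (b (b (l 16479232) (b (l 16509896) (l 16530816))) (c (b (l 527402767) (b (l 16594776) (a (l 16612680) (l 16622864)))) (b (l 16523136) (b (l 16597736) (l 527483663))))) (b (b (l 16496032) (b (l 16527448) (l 16548936))) (b (b (l 16570944) (c (l 16591992) (l 16594744)))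 (b (a (l 16611064) (l 527814671)) (c (b (l 16632656) (l 16644376)) (l 527599375)))))) (b (a (b (l 16514352) (b (l 16546648) (l 16568720))) (b (c (l 16532272) (l 16536448)) (b (l 16567184) (l 16547680)))) (b (a (c (b (l 16589920) (l 16613000)) (l 527682575)) (b (c (l 16611008) (l 16612944)) (c (l 528258319) (l 16614248)))) (a (a (b (l 527888143) (l 527929103)) (b (l 527963663) (c (l 16674536) (l 528041231)))) (b (a (l 528028943) (l 528093967)) (a (l 528056847) (l 528130063)))))))))), by decide +kernel⟩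

def k6_B00pp_012_s1 : ∃ t, chk3 f_B00pp_012_s1 t 8 14 1 = true :=
  ⟨(a (l 2) (a (b (l 2) (b (l 2) (a (a (l 2) (b (l 2) (a (l 2) (l 528584975)))) (a (b (b (l 2) (l 16664816)) (a (l 528514319) (l 528440335))) (b (a (l 528433423) (l 528352783)) (a (l 528363279) (l 528282639))))))) (b (a (l 2) (b (l 2) (a (b (l 2) (l 528133647)) (b (l 528060431) (l 527969039))))) (a (b (a (b (l 2) (b (l 16646520) (l 528017423))) (b (b (l 16631856) (l 16642160)) (b (l 16652560) (l 16663072)))) (c (a (b (l 527801871) (l 527469583)) (b (l 527631631) (b (l 16699408) (l 527554063)))) (a (b (l 528383503) (l 527768591)) (b (l 528182799) (b (l 528119311) (l 527818255)))))) (b (a (b (l 528040719) (a (l 527989775) (l 527630863))) (a (c (l 527470351) (l 527724047)) (b (l 527831055) (b (l 16667432) (l 527433487))))) (c (a (a (b (l 527769359) (b (l 16699760) (l 527688207))) (b (l 527683599) (b (l 16703616) (l 527602447)))) (b (a (l 527601679) (l 527524367)) (a (b (l 527545615)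 (l 527523087)) (b (l 527470607) (a (l 527469327) (l 527437071)))))) (a (b (b (l 16681864) (l 527684111)) (a (l 527674127) (l 527571983))) (b (b (l 527539727) (l 527489039)) (a (b (l 527761423) (l 527731727)) (b (l 527671567) (b (l 16724328) (l 527644943)))))))))))), by decide +kernel⟩

def k7_B00pp_012_s1 : ∃ t, chk3 f_B00pp_012_s1 t 36 28 1 = true :=
  ⟨(a (b (a (l 528037391) (l 527637007)) (a (b (l 527910671) (l 527815695)) (b (l 527506959) (l 527411215)))) (b (a (b (l 16584632) (l 16605960)) (b (l 16591880) (l 527387919))) (a (b (l 527392783) (b (l 527324687) (l 527278607))) (b (l 527308047) (c (b (l 16651264) (l 16662760)) (l 527316751)))))), by decide +kernel⟩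

def k8_B00pp_012_s1 : ∃ t, chk3 f_B00pp_012_s1 t 72 29 1 = true :=
  ⟨(b (a (b (b (l 527471887) (l 527419919)) (a (l 527379727) (c (l 527477519) (l 527679503)))) (b (a (l 527343119) (l 527283215)) (a (c (l 527419663) (l 527608335)) (c (l 527372047) (l 527547919))))) (b (a (a (c (b (l 16692584) (l 527435023)) (l 527384079)) (c (b (l 16699344) (l 527375887)) (b (l 16700952) (l 527556367)))) (b (c (a (l 527359503) (l 527320847)) (a (l 527535119) (l 527484431))) (c (a (b (l 16709856) (l 527325199)) (a (l 527307535) (l 527298831))) (a (b (l 16711048) (l 16719496)) (b (l 16718032) (l 527456015)))))) (a (a (b (c (b (l 16712976) (l 527400463)) (b (l 16714248) (l 16722648))) (c (b (l 527395343) (l 527398415)) (b (l 527576847) (l 527577615)))) (b (c (a (l 527364879) (l 527342863)) (b (l 16721040) (l 527522575))) (c (b (l 527352591) (a (l 527371535) (l 527362575))) (b (l 527521551) (a (l 527541775) (l 527527183)))))) (b (c (a (b (l 527319567) (a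 (l 527326735) (l 527318287))) (b (a (l 527306255) (l 527305743)) (c (l 527283215) (l 527353359)))) (a (b (l 527482127) (a (l 527489551) (l 527475727))) (b (a (l 527460879) (l 527455759)) (c (l 527428367) (l 527509007))))) (c (a (b (a (l 527336719) (l 527334159)) (a (l 527360015) (l 527360783))) (b (c (l 527303183) (l 527372815)) (c (l 527333903) (l 527403023)))) (a (b (a (l 527497487) (l 527490063)) (a (l 527519759) (l 527515919))) (b (c (l 527447311) (l 527527183)) (c (l 527477519) (l 527557135))))))))), by decide +kernel⟩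

def k9_B00pp_012_s1 : ∃ t, chk3 f_B00pp_012_s1 t 73 58 1 = true :=
  ⟨(c (a (b (b (l 16665424) (l 527375119)) (a (b (l 16686376) (l 527321615)) (b (l 16690896) (l 527307791)))) (b (a (l 527359247) (l 527354639)) (a (b (l 527323663) (l 527317007)) (b (l 527339791) (l 527346959))))) (a (b (l 527301135) (a (b (l 16687984) (l 527481871)) (b (l 16692328) (l 527458063)))) (a (b (l 527518735) (b (l 527472143) (l 527459087))) (b (l 527505167) (b (l 527480591) (l 527482383)))))), by decide +kernel⟩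

def k10_B00pp_012_s1 : ∃ t, chk3 f_B00pp_012_s1 t 73 118 1 = true :=
  ⟨(a (b (a (c (l 527299087) (l 527451919)) (c (l 527302415) (l 527446543))) (c (a (b (l 527296527) (l 527301903)) (a (l 527309071) (l 527320591))) (a (b (l 527445007) (l 527447823)) (a (l 527449871) (l 527458063))))) (c (a (b (l 527325455) (c (l 527314959) (l 527376399))) (b (l 527363599) (c (l 527363599) (l 527422223)))) (a (b (l 527462159) (c (l 527442447) (l 527513615))) (b (l 527494415) (c (l 527485711) (l 527554319)))))), by decide +kernel⟩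

def k11_B00pp_012_s1 : ∃ t, chk3 f_B00pp_012_s1 t 73 119 1 = true :=
  ⟨(a (b (c (a (c (b (l 527279631) (l 527296527)) (b (l 527346447) (l 527362575))) (c (b (l 527302927) (l 527323407)) (b (l 527366159) (l 527385871)))) (a (c (b (l 527418383) (l 527433487)) (b (l 527495439) (l 527509775))) (c (b (l 527434255) (l 527453455)) (b (l 527507471) (l 527525647))))) (c (a (b (c (l 527320847) (l 527386383)) (c (a (l 527349519) (l 527363855)) (a (l 527416079) (l 527428623)))) (b (c (a (l 527342607) (l 527361295)) (a (l 527405583) (l 527422735))) (c (a (l 527381263) (l 527401999)) (a (l 527444495) (l 527463695))))) (a (b (c (l 527457039) (l 527532559)) (c (a (l 527487503) (l 527498255)) (a (l 527564047) (l 527573007)))) (b (c (a (l 527473679) (l 527489039)) (a (l 527546383) (l 527560207))) (c (a (l 527512335) (l 527529999)) (a (l 527585295) (l 527601423))))))) (c (b (a (c (b (l 527341071) (l 527364623)) (b (l 527401231) (l 527424271))) (b (c (l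 527395087) (l 527452687)) (c (l 527421711) (l 527479055)))) (b (a (c (a (l 527383567) (l 527409423)) (a (l 527443471) (l 527468047))) (c (a (l 527439119) (l 527472911)) (a (l 527496719) (l 527529487)))) (a (c (a (l 527426063) (l 527453455)) (a (l 527486223) (l 527512335))) (c (b (l 527487759) (a (l 527498767) (l 527533327))) (b (l 527544847) (a (l 527556879) (l 527590415))))))) (b (a (c (b (l 527465999) (l 527488783)) (b (l 527535887) (l 527557903))) (b (c (l 527515151) (l 527582479)) (c (l 527541007) (l 527607823)))) (b (a (c (a (l 527508239) (l 527531535)) (a (l 527578127) (l 527599887))) (c (a (l 527558927) (l 527590927)) (a (l 527625999) (l 527656975)))) (a (c (a (l 527551247) (l 527576079)) (a (l 527621135) (b (l 527631631) (l 527659279)))) (c (b (a (l 527591439) (l 527623695)) (a (l 527619599) (l 527652367))) (b (a (l 527658511) (l 527689743)) (a (l 527687183) (l 527718671))))))))), by decide +kernel⟩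

def k12_B00pp_012_s1 : ∃ t, chk3 f_B00pp_012_s1 t 37 28 1 = true :=
  ⟨(a (b (a (b (l 16599832) (l 527328271)) (b (l 527628303) (l 527306255))) (a (c (b (l 527451151) (b (l 16660512) (l 16674832))) (a (l 527322639) (l 527315471))) (b (c (l 527462159) (l 527612943)) (c (b (l 16670432) (l 527461391)) (b (l 16672040) (l 527598351)))))) (b (a (b (l 527343887) (l 527313679)) (b (c (l 16625888) (l 16628248)) (c (l 527561231) (l 527696399)))) (a (b (c (b (l 16656920) (l 16668776)) (b (l 16658720) (l 16670344))) (c (a (l 527526671) (l 527579407)) (a (l 527658767) (l 527706895)))) (b (c (l 527602703) (l 527730447)) (c (a (l 527637007) (l 527696911)) (l 527519247)))))), by decide +kernel⟩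

def k13_B00pp_012_s1 : ∃ t, chk3 f_B00pp_012_s1 t 74 58 1 = true :=
  ⟨(c (a (b (a (l 527370255) (l 527407631)) (a (b (l 527376655) (l 527393039)) (b (l 527430671) (l 527458063)))) (b (a (l 527461135) (l 527520015)) (a (b (l 527499791) (l 527538191)) (b (l 527574287) (l 527621903))))) (a (b (a (l 527513103) (l 527544847)) (a (b (l 527511567) (l 527523343)) (b (l 527561231) (l 527584783)))) (b (a (l 527593999) (l 527649039)) (a (b (l 527627023) (l 527662351)) (b (l 527698703) (l 527744015)))))), by decide +kernel⟩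

def k14_B00pp_012_s1 : ∃ t, chk3 f_B00pp_012_s1 t 74 118 1 = true :=
  ⟨(a (c (a (b (l 527419919) (b (l 527447055) (l 527469071))) (b (l 527495695) (a (l 527520527) (l 527569679)))) (a (b (l 527546383) (b (l 527571215) (l 527591695))) (b (l 527619087) (a (l 527642127) (l 527690511))))) (a (c (b (l 527587087) (a (l 527621647) (l 527672335))) (b (l 527709199) (a (l 527742223) (l 527792399)))) (b (c (a (l 527656463) (l 527701007)) (a (l 527777295) (l 527820559))) (c (b (a (l 527703567) (l 527747087)) (a (l 527736335) (l 527776271))) (b (a (l 527823375) (l 527865871)) (a (l 527855631) (l 527893775))))))), by decide +kernel⟩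

def k15_B00pp_012_s1 : ∃ t, chk3 f_B00pp_012_s1 t 148 119 1 = true :=
  ⟨(c (b (a (b (l 527494671) (c (l 527496975) (l 527552783))) (a (l 527578639) (l 527633679))) (a (b (c (a (l 527511311) (l 527554831)) (a (l 527567119) (l 527610127))) (b (c (a (l 527543823) (l 527586575)) (a (l 527599631) (l 527642127))) (c (a (l 527571471) (l 527613711)) (a (l 527627791) (l 527669263))))) (a (b (c (l 527604751) (l 527659791)) (c (b (l 527635727) (a (l 527648015) (l 527673103))) (b (l 527690767) (a (l 527703311) (l 527728143))))) (b (c (l 527663119) (l 527718415)) (a (b (l 527705359) (c (l 527701775) (l 527756815))) (c (b (l 527717135) (b (l 527726607) (l 527731471))) (b (l 527772431) (b (l 527781647) (l 527786255))))))))) (b (a (b (c (l 527584015) (l 527649551)) (c (l 527613199) (l 527678223))) (a (b (l 527682831) (l 527714831)) (c (l 527721743) (l 527785999)))) (a (b (c (a (l 527627535) (l 527670031)) (a (l 527692815) (l 527734543))) (b (c (a (l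 527660303) (l 527702031)) (a (l 527725583) (l 527766543))) (c (a (l 527688719) (l 527729679)) (a (l 527754511) (b (l 527786511) (l 527803151)))))) (b (a (c (l 527719183) (l 527783439)) (c (l 527778063) (l 527842063))) (b (a (c (l 527750159) (l 527814415)) (a (l 527824655) (a (l 527849231) (c (l 527832847) (l 527897103))))) (a (c (a (l 527763215) (l 527788047)) (a (l 527827727) (b (l 527845391) (l 527859215)))) (a (c (l 527816719) (b (l 527873807) (l 527886351))) (c (b (l 527841551) (l 527845903)) (b (a (l 527898895) (l 527909391)) (l 527909903)))))))))), by decide +kernel⟩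

def k16_B00pp_012_s1 : ∃ t, chk3 f_B00pp_012_s1 t 149 119 1 = true :=
  ⟨(b (a (c (b (a (l 527672591) (l 527724303)) (a (b (l 527700239) (l 527719439)) (b (l 527750415) (a (l 527756047) (l 527773455))))) (b (a (l 527792399) (l 527843599)) (a (b (l 527819791) (l 527838991)) (b (l 527869455) (a (l 527875087) (l 527891727)))))) (c (b (a (a (l 527757839) (l 527776271)) (b (l 527790863) (l 527796495))) (a (b (a (l 527777807) (l 527788303)) (l 527788303)) (l 527803407))) (b (a (a (l 527876623) (l 527894031)) (b (l 527907087) (l 527911439))) (a (b (a (l 527895567) (l 527904527)) (l 527904015)) (l 527916303))))) (b (a (c (a (b (a (l 527725327) (l 527750927)) (a (c (l 527717903) (l 527773199)) (c (l 527736335) (l 527791119)))) (b (a (b (l 527767055) (l 527771663)) (l 527779855)) (c (l 527753487) (l 527806991)))) (a (b (a (l 527844623) (l 527869967)) (a (c (l 527832847) (l 527897103)) (c (l 527984655) (b (l 527914255) (l 527917071))))) (b (a (b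 (l 527885583) (l 527889935)) (l 527896847)) (c (l 527865103) (l 527927823))))) (c (l 527803663) (a (l 527908623) (l 527922703)))) (a (c (a (b (c (a (l 527732495) (l 527744527)) (a (b (l 527785231) (l 527790351)) (l 527798799))) (c (l 527744527) (l 527798543))) (l 527786511)) (a (b (c (a (b (l 527844879) (l 527849743)) (l 527857423)) (a (b (l 527908879) (l 527913487)) (l 527920655))) (c (l 527856911) (l 527919887))) (l 527900431))) (a (c (l 527804175) (l 527914767)) (l 3))))), by decide +kernel⟩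

def k17_B00pp_012_s1 : ∃ t, chk3 f_B00pp_012_s1 t 75 29 1 = true :=
  ⟨(a (b (b (c (a (l 527585295) (l 527653391)) (a (l 527710479) (b (l 527755279) (l 527797007)))) (a (c (b (l 527651087) (l 527704591)) (b (l 527772687) (l 527824143))) (c (b (l 527726351) (b (l 527766031) (l 527791375))) (b (l 527844879) (b (l 527883023) (l 527907087)))))) (b (c (b (a (a (l 527742479) (l 527779599)) (b (a (l 527799311) (l 527823631)) (a (l 527816463) (l 527834383)))) (a (b (a (l 527784207) (l 527809039)) (a (l 527801359) (l 527819279))) (b (l 527835151) (l 527845647)))) (b (a (b (l 527865615) (a (l 527875087) (l 527908111))) (b (a (l 527914767) (l 527936271)) (a (l 527929871) (l 527944207)))) (a (b (a (l 527900943) (l 527923215)) (a (b (l 527914255) (l 527918863)) (l 527930639))) (b (l 527944207) (l 527951887))))) (b (a (c (b (l 527820047) (l 527830031)) (b (l 527930639) (l 527937551))) (a (c (l 527852559) (l 527956239)) (c (l 527871503) (a (l 527968015)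 (l 527975695))))) (b (a (a (c (l 527831055) (l 527937551)) (l 3)) (l 3)) (l 3))))) (b (b (c (a (b (l 527698447) (l 527745807)) (b (l 527762959) (l 527809039))) (a (b (l 527817743) (l 527863055)) (b (l 527878671) (l 527921935)))) (b (a (c (l 527794703) (l 527909391)) (c (b (l 527838991) (l 527852303)) (b (l 527949583) (l 527960591)))) (a (c (b (l 527825935) (l 527838991)) (b (l 527938319) (l 527949071))) (c (l 527868175) (l 527972623))))) (b (b (a (c (l 527854351) (l 527960335)) (c (l 527890959) (l 527990287))) (c (a (l 527876879) (b (l 527909135) (l 527921679))) (a (b (l 527973391) (l 527982095)) (b (l 528004367) (l 528148495))))) (b (a (b (c (l 527894543) (a (l 527983119) (l 527999503))) (l 3)) (l 3)) (l 3))))), by decide +kernel⟩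

def k18_B00pp_012_s1 : ∃ t, chk3 f_B00pp_012_s1 t 19 28 1 = true :=
  ⟨(a (b (a (b (a (c (l 16636024) (l 16638040)) (c (l 16651592) (l 16658552))) (a (c (l 527642639) (l 527767055)) (c (l 527734799) (l 527849231)))) (b (a (c (l 16667320) (l 527874319)) (l 527633167)) (a (c (l 527832335) (l 527936783)) (b (c (l 16684392) (l 16685376)) (c (l 527928335) (l 528019215)))))) (a (b (a (c (b (l 16677576) (l 527723279)) (b (l 16678872) (l 527840271))) (c (b (l 16693032) (l 527831055)) (b (l 527901711) (l 527938575)))) (a (c (a (l 527757071) (l 527813903)) (a (l 527872271) (l 527924751))) (b (a (l 527896847) (c (l 527888655) (l 527990031))) (a (c (l 527879183) (l 527982607)) (l 527960079))))) (b (a (b (a (l 527914255) (l 527951887)) (a (l 527944975) (l 527975439))) (b (l 527995919) (l 528022799))) (a (b (c (l 527938831) (l 528029967)) (c (l 527966479) (l 528053007))) (c (l 528028431) (l 528103951)))))) (b (a (b (a (c (l 527930127) (l 528018191))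 (l 528032015)) (a (c (l 527980815) (l 528060175)) (c (l 528057871) (l 528123919)))) (b (a (l 528103183) (l 528180239)) (c (a (l 528140559) (l 528231951)) (l 527962895)))) (c (b (a (a (l 528044303) (l 528127759)) (a (l 528219663) (b (l 528297231) (l 528343311)))) (a (a (l 528380943) (b (l 528184847) (l 528225551))) (a (b (l 528283919) (l 528329231)) (b (l 528391439) (a (l 528413199) (l 528471567)))))) (b (a (a (l 528115471) (l 528185871)) (a (l 528265231) (b (l 528332559) (l 528374799)))) (a (a (b (l 528159503) (l 528190991)) (b (l 528237071) (l 528273423))) (a (b (l 528323599) (l 528365071)) (b (l 528419087) (a (l 528439823) (l 528492559))))))))), by decide +kernel⟩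

def k19_B00pp_012_s1 : ∃ t, chk3 f_B00pp_012_s1 t 38 29 1 = true :=
  ⟨(b (a (a (a (b (b (c (l 527822095) (l 527933455)) (c (l 527857167) (l 527964687))) (b (c (l 527880975) (l 527983631)) (c (l 527904271) (l 528002063)))) (b (b (c (l 527868687) (l 527974159)) (c (l 527892751) (l 527993615))) (c (l 527929359) (b (l 528012559) (l 528033039))))) (b (b (a (l 527950863) (l 527982863)) (c (l 527946255) (l 528036879))) (c (b (l 528241679) (a (l 527982095) (l 528024335))) (b (a (l 528043279) (l 528076303)) (a (l 528066319) (l 528101903)))))) (b (a (c (b (l 527994639) (l 528024847)) (b (l 528076815) (l 528102159))) (a (c (l 528072975) (l 528142863)) (c (l 528117519) (l 528181007)))) (b (a (c (a (l 528035599) (l 528079631)) (a (l 528111631) (l 528149007))) (c (a (l 528125967) (l 528174351)) (a (l 528188687) (l 528230927)))) (a (c (a (l 528068623) (b (l 528105999) (l 528124431))) (a (b (l 528132367) (l 528146959)) (b (l 528171791) (l 528187663))))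 (a (b (c (l 528154127) (l 528213519)) (l 3)) (l 3)))))) (b (a (b (a (c (a (l 527929103) (l 527969551)) (a (l 528021519) (b (l 528049423) (l 528061199)))) (a (c (b (l 528004367) (l 528019983)) (b (l 528084751) (l 528231951))) (b (c (l 528048399) (l 528122383)) (l 3)))) (a (a (a (c (l 527945743) (l 528168975)) (b (c (l 527959567) (l 528046607)) (l 3))) (a (b (c (l 527980815) (l 528064271)) (l 3)) (l 3))) (l 3))) (b (a (a (a (b (c (l 528082959) (l 528152079)) (l 3)) (l 3)) (l 3)) (l 3)) (l 3))) (l 3))), by decide +kernel⟩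

def k20_B00pp_012_s1 : ∃ t, chk3 f_B00pp_012_s1 t 39 29 1 = true :=
  ⟨(b (a (b (a (c (b (l 528168463) (a (l 528183823) (l 528234255))) (b (l 528224527) (a (l 528238863) (l 528282895)))) (c (b (a (l 528242959) (l 528294927)) (a (l 528286479) (l 528341263))) (b (a (l 528289551) (l 528335631)) (a (l 528329231) (b (l 528366863) (l 3)))))) (b (b (a (c (a (l 528214287) (l 528266511)) (a (l 528265999) (l 528311823))) (l 3)) (l 3)) (l 3))) (b (b (a (c (a (l 528349455) (l 528405775)) (a (l 528384015) (l 528434447))) (a (c (l 528464655) (l 528487439)) (l 3))) (l 3)) (l 3))) (l 3)), by decide +kernel⟩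

def k21_B00pp_012_s1 : ∃ t, chk3 f_B00pp_012_s1 t 16 30 1 = true :=
  ⟨(a (l 2) (a (a (l 2) (b (l 2) (b (l 2) (a (a (l 528269327) (l 528245263)) (a (l 528220943) (l 528196623)))))) (a (b (l 2) (a (b (b (l 2) (l 528427279)) (a (l 528171791) (l 528146703))) (b (b (l 16698064) (l 528378383)) (a (l 528121615) (l 528096015))))) (a (b (l 2) (b (a (l 528421903) (l 528396815)) (a (l 528070415) (l 528044303)))) (b (b (l 2) (l 528339983)) (b (a (l 528371471) (l 528345871)) (a (l 528018191) (l 527991567)))))))), by decide +kernel⟩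

def k22_B00pp_012_s1 : ∃ t, chk3 f_B00pp_012_s1 t 34 30 1 = true :=
  ⟨(a (b (a (a (b (l 2) (l 528553999)) (b (l 528643599) (l 528497935))) (b (a (l 528581647) (l 528517135)) (a (l 528440079) (l 528111887)))) (a (b (a (b (l 528380175) (l 528226063)) (b (l 528326671) (l 528173327))) (a (a (l 527964943) (l 527937807)) (a (l 527910671) (l 527883023)))) (b (a (b (l 528271887) (l 528119311)) (b (l 528215567) (l 528064527))) (a (a (l 527855375) (l 527827215)) (b (l 527879695) (l 527688975)))))) (b (a (b (a (l 528449807) (l 528379919)) (a (l 527781391) (b (l 528293903) (l 528208911)))) (b (a (l 528306447) (l 528229391)) (a (b (l 528224783) (l 528143119)) (b (l 528152079) (l 528074255))))) (a (b (a (b (l 528157711) (l 528008463)) (b (l 528098319) (l 527951375))) (a (a (l 527741711) (l 527712783)) (c (l 527278095) (l 527795983)))) (b (b (a (l 528036623) (l 527972367)) (a (l 527893007) (b (l 527874319) (l 527522063)))) (a (b (l 527437583) (a (l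 527526671) (l 527227919))) (b (l 527109135) (a (l 527197199) (l 527166223)))))))), by decide +kernel⟩

def k23_B00pp_012_s1 : ∃ t, chk3 f_B00pp_012_s1 t 35 60 1 = true :=
  ⟨(a (a (b (a (l 528148239) (l 527793679)) (a (b (l 528075023) (l 527732751)) (b (l 527724303) (l 527654159)))) (b (a (b (l 527983631) (l 527684111)) (b (l 527617039) (l 527587343))) (a (b (l 527635471) (l 527568143)) (b (c (l 527694863) (l 527928591)) (b (l 527493135) (l 527456527)))))) (a (a (c (b (b (l 527675663) (l 527652367)) (b (l 527613711) (a (l 527578383) (l 527547919)))) (b (l 527627791) (b (l 527831823) (a (l 527790095) (l 527752463))))) (b (b (c (l 527593487) (l 527811599)) (c (l 527575823) (l 527787279))) (b (a (c (l 527562255) (l 527769103)) (c (l 527534351) (l 527734287))) (b (a (c (l 527534607) (l 527734799)) (c (l 527520527) (l 527715087))) (a (c (l 527522831) (l 527719183)) (l 527613199)))))) (b (a (b (c (a (l 527537679) (l 527503887)) (a (l 527744527)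 (l 527703567))) (c (a (l 527527439) (l 527501071)) (a (l 527728143) (l 527695119)))) (b (c (a (l 527473935) (l 527448591)) (a (l 527666447) (l 527634447))) (c (a (b (l 527479055) (l 527484431)) (b (l 527462671) (l 527478543))) (a (b (l 527667983) (l 527671055)) (b (l 527645711) (l 527660047)))))) (c (a (b (a (b (l 527516687) (l 527513359)) (b (l 527501327) (l 527509263))) (b (l 527517455) (l 527524111))) (b (a (l 527503375) (l 527504911)) (b (a (l 527522831) (l 527530511)) (l 527540495)))) (a (b (a (b (l 527712271) (l 527705871)) (b (l 527691023) (l 527696399))) (b (l 527704591) (l 527708687))) (b (a (l 527686927) (l 527684111)) (b (a (l 527703567) (l 527707151)) (l 527717391)))))))), by decide +kernel⟩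

def k24_B00pp_012_s1 : ∃ t, chk3 f_B00pp_012_s1 t 35 61 1 = true :=
  ⟨(b (b (a (a (a (l 527635983) (l 527563535)) (a (b (l 527505935) (l 527458063)) (a (l 527414799) (b (l 527663887) (c (l 527523855) (l 527728143)))))) (b (a (a (a (l 527362319) (c (l 527522063) (l 527719951))) (c (l 527519247) (l 527709711))) (a (c (l 527530511) (l 527712527)) (c (l 527554831) (l 527729423)))) (a (a (a (c (l 527513359) (l 527712015)) (l 527605007)) (c (l 527516943) (l 527704335))) (a (c (l 527536399) (l 527715855)) (l 3))))) (a (a (a (b (l 527543311) (l 527461647)) (b (l 527477775) (b (l 527423503) (l 527377167)))) (a (a (b (l 527693071) (b (l 527648015) (l 527599375))) (b (l 527652623) (b (c (l 527496463) (l 527702287)) (a (l 527576079) (c (l 527471631) (l 527672591)))))) (b (a (c (l 527508495) (l 527713039)) (c (l 527499535) (l 527698447))) (b (a (c (l 527486223) (l 527686415)) (l 527580431)) (l 3))))) (b (a (a (c (l 527500303) (l 527692303)) (l 3))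 (l 3)) (l 3)))) (a (b (b (a (a (l 527365647) (l 527303951)) (a (a (b (l 527550479) (l 3)) (l 3)) (l 3))) (a (a (l 527267855) (a (l 527221263) (l 3))) (l 3))) (l 3)) (l 3))), by decide +kernel⟩

def k25_B00pp_012_s1 : ∃ t, chk3 f_B00pp_012_s1 t 8 62 1 = true :=
  ⟨(a (a (a (l 2) (b (a (l 2) (a (l 2) (a (l 2) (a (l 2) (l 528021007))))) (a (l 14) (a (l 14) (a (l 14) (a (l 14) (b (l 527743247) (l 527552783)))))))) (a (a (a (a (b (b (l 2) (l 527643151)) (a (b (l 527730703) (l 527539983)) (b (l 527718159) (l 527527183)))) (b (a (l 527984911) (l 527972879)) (a (l 526803983) (l 527059727)))) (a (a (b (l 527960591) (l 527046671)) (b (l 527948303) (l 527033871))) (a (b (l 527935759) (l 527020815)) (b (l 527923471) (l 527007759))))) (a (a (a (b (l 527910927) (l 526994447)) (b (l 527898383) (l 526981391))) (b (l 527073295) (a (l 526968079) (l 526686223)))) (b (a (l 527316239) (l 527558927)) (a (b (l 527568655) (b (l 527154703) (l 527056399))) (b (l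 527542031) (l 526809359)))))) (a (a (b (a (l 527533071) (l 527506703)) (a (b (l 527514895) (l 526781711)) (b (l 527487503) (l 526753807)))) (b (a (l 527480335) (l 527453455)) (a (c (l 526959119) (l 527232527)) (b (l 527163663) (l 3))))) (b (a (a (l 527426319) (l 527399183)) (a (l 527103247) (l 527075343))) (b (a (a (l 527135759) (l 527107343)) (a (l 527078671) (l 527049999))) (l 3)))))) (b (a (b (a (a (a (a (l 527681295) (l 527653135)) (a (l 527624975) (l 527596559))) (a (a (l 527567631) (l 527538703)) (a (l 527509519) (l 527211535)))) (a (a (a (l 527181583) (l 527151631)) (a (l 527121423) (l 3))) (l 3))) (a (a (a (a (l 527487247) (l 527458575)) (a (l 527161103) (l 527131919))) (a (a (l 527102479) (l 527072783)) (l 3))) (l 3))) (l 3)) (l 3))), by decide +kernel⟩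

def k26_B00pp_012_s1 : ∃ t, chk3 f_B00pp_012_s1 t 8 63 1 = true :=
  ⟨(a (a (a (l 14) (a (l 14) (a (l 14) (a (l 14) (b (a (l 14) (b (l 527358479) (b (l 526942223) (l 3)))) (l 3)))))) (b (b (a (a (a (a (a (l 527345423) (l 527332111)) (a (l 527318799) (l 527036943))) (a (a (l 527023631) (l 527010063)) (a (l 526996495) (l 526982927)))) (a (a (a (l 526969103) (l 526955279)) (a (l 526941455) (l 3))) (l 3))) (l 3)) (l 3)) (l 3))) (l 3)), by decide +kernel⟩

def k27_B00pp_012_s1 : ∃ t, chk3 f_B00pp_012_s1 t 144 60 1 = true :=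
  ⟨(b (a (b (c (a (l 527428879) (b (l 527405327) (l 527428879))) (a (l 527608591) (b (l 527579919) (l 527602703)))) (c (a (l 527467279) (l 527468303)) (a (b (l 527633935) (l 527654671)) (l 527640847)))) (c (b (a (b (l 527396879) (l 527427087)) (l 527411983)) (a (l 527471887) (l 527478799))) (b (a (b (l 527566095) (l 527596047)) (l 527576591)) (a (l 527640079) (c (l 527600143) (l 527687439)))))) (b (c (a (a (l 527510031) (c (l 527479055) (l 527558927))) (c (a (l 527491343) (l 527506959)) (a (l 527569423) (l 527583247)))) (a (a (c (l 527639311) (l 527731983)) (c (l 527644431) (l 527735311))) (c (a (l 527653135) (l 527665167)) (a (l 527741967) (b (l 527736079) (l 527768079)))))) (b (c (a (a (l 527541263) (l 527555343)) (c (a (l 527534351) (l 527555599)) (a (l 527612175) (l 527631887)))) (c (a (l 527673871) (a (l 527695119) (l 527713295))) (a (l 527764751) (a (l 527783183) (l 527800079))))) (a (c (a (l 527561743) (l 527579663)) (c (l 527695375)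 (l 527785487))) (l 3))))), by decide +kernel⟩

def k28_B00pp_012_s1 : ∃ t, chk3 f_B00pp_012_s1 t 145 60 1 = true :=
  ⟨(a (b (c (b (a (l 527414543) (c (l 527385103) (l 527457807))) (c (a (l 527452431) (l 527466511)) (a (l 527527183) (l 527539727)))) (b (a (c (l 527532815) (l 527618063)) (c (l 527535631) (l 527618831))) (c (a (l 527607311) (l 527618063)) (a (l 527692815) (l 527701775))))) (a (c (b (c (l 527525647) (l 527600399)) (c (l 527598607) (l 527673359))) (a (b (c (l 527676431) (l 527762191)) (c (l 527747087) (l 527832591))) (b (c (l 527685135) (l 527770127)) (l 3)))) (b (c (c (l 527547407) (l 527620879)) (c (b (l 527679247) (l 527719951)) (b (l 527762959) (l 527803663)))) (l 3)))) (b (c (b (c (a (l 527395087) (l 527408399)) (a (l 527465999) (l 527477263))) (c (a (l 527484175) (l 527504655)) (a (l 527555599) (b (l 527550479) (l 527599119))))) (b (c (a (l 527541775) (l 527551503)) (a (l 527622927) (l 527630607))) (c (a (b (l 527609871)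 (l 527654671)) (b (l 527625231) (l 527674383))) (a (b (l 527691535) (l 527736847)) (b (l 527705359) (l 527754767)))))) (b (c (c (a (l 527572495) (l 527601167)) (a (l 527644687) (l 527672079))) (c (a (l 527721999) (l 527747855)) (a (l 527804431) (b (l 527804175) (l 3))))) (l 3)))), by decide +kernel⟩

def k29_B00pp_012_s1 : ∃ t, chk3 f_B00pp_012_s1 t 146 120 1 = true :=
  ⟨(c (b (a (c (b (a (l 527398671) (l 527416335)) (a (l 527450639) (l 527471887))) (b (a (l 527465743) (l 527481615)) (a (l 527518479) (l 527538191)))) (b (c (a (l 527437071) (l 527461135)) (a (l 527501071) (l 527523599))) (c (a (l 527496719) (l 527524367)) (a (l 527561487) (l 527588111))))) (a (c (a (l 527528463) (l 527555599)) (a (l 527597327) (l 527623183))) (c (a (l 527586063) (l 527619855)) (a (l 527652367) (b (l 527652623) (l 527717647)))))) (b (a (c (b (a (l 527537679) (l 527552015)) (a (l 527591183) (l 527609359))) (b (a (l 527614735) (l 527627535)) (a (l 527668751)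 (l 527685647)))) (b (c (a (l 527569935) (l 527590927)) (a (l 527643663) (l 527663375))) (c (a (l 527631375) (l 527656719)) (a (l 527706127) (l 527730191))))) (a (c (a (b (l 527644431) (l 527697423)) (l 527695375)) (a (b (l 527722767) (l 527776527)) (b (l 527743759) (l 527801871)))) (c (a (b (l 527692815) (l 527754511)) (b (l 527722255) (l 527788303))) (a (b (l 527768591) (l 527831055)) (b (l 527797007) (l 527864079))))))), by decide +kernel⟩

def k30_B00pp_012_s1 : ∃ t, chk3 f_B00pp_012_s1 t 147 120 1 = true :=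
  ⟨(b (c (a (b (c (a (l 527488271) (l 527518991)) (a (l 527549711) (l 527579151))) (c (a (l 527555599) (l 527589903)) (a (l 527618063) (l 527651599)))) (b (c (a (l 527552783) (b (l 527570191) (l 527609615))) (a (l 527611919) (b (l 527628047) (l 527668239)))) (c (a (l 527627791) (b (b (l 527639311) (l 527659023)) (l 527688719))) (a (c (l 527672847) (l 527704335)) (b (b (l 527698703) (l 527718927)) (l 527749135)))))) (c (a (b (a (l 527615759) (l 527643919)) (a (l 527685391) (b (l 527699471) (l 527736591)))) (b (a (b (l 527656207) (l 527695375)) (b (l 527690767) (l 527731727))) (a (c (l 527737103) (l 527771151)) (b (b (l 527762703) (l 527783439)) (l 527814415))))) (a (b (a (l 527686671) (l 527847951)) (a (l 527757839) (b (l 527770383) (l 527808015)))) (b (a (b (l 527724559) (l 527764495)) (c (l 527761679) (l 527930895))) (a (c (l 527806223) (l 527842575)) (b (b (c (l 527813903) (l 527849487)) (l 527986959)) (c (l 527866639) (l 527902735))))))))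 (b (a (c (c (a (l 527622927) (l 527661327)) (a (l 527686927) (l 527724559))) (c (a (l 527755535) (l 527792399)) (a (l 527829007) (c (l 527846415) (l 527883791))))) (a (a (c (c (l 527692559) (l 527755023)) (c (l 527822351) (l 527894287))) (l 3)) (l 3))) (l 3))), by decide +kernel⟩

def k31_B00pp_012_s1 : ∃ t, chk3 f_B00pp_012_s1 t 73 121 1 = true :=
  ⟨(b (b (a (a (c (c (a (l 527606543) (l 527639823)) (a (l 527676175) (l 527708175))) (c (a (l 527750927) (l 527781903)) (a (l 527830543) (l 527860239)))) (l 3)) (l 3)) (l 3)) (l 3)), by decide +kernel⟩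

def k32_B00pp_012_s1 : ∃ t, chk3 f_B00pp_012_s1 t 36 61 1 = true :=
  ⟨(l 3), by decide +kernel⟩

def k33_B00pp_012_s1 : ∃ t, chk3 f_B00pp_012_s1 t 37 30 1 = true :=
  ⟨(b (a (b (a (a (b (b (c (c (b (a (l 527609615) (l 527652623)) (a (l 527651087) (l 527695887))) (b (a (l 527666703) (l 527709199)) (a (l 527709199) (l 527753487)))) (c (b (a (l 527728655) (l 527770127)) (a (l 527771919) (l 527815695))) (b (a (l 527794959) (l 527835919)) (a (c (l 527822095) (l 527856911)) (l 527882511))))) (b (a (c (c (c (l 527678479) (l 527706895)) (c (l 527736591) (l 527767055))) (c (c (l 527799055) (l 527832079)) (c (l 527866383) (b (l 527890447) (l 527912719))))) (b (c (c (l 527728655) (l 527787023)) (c (l 527849999) (l 527917583))) (l 3))) (l 3))) (l 3)) (b (b (b (b (a (c (c (l 527687695) (l 527743503)) (c (l 527803919) (l 527868687))) (a (a (c (c (l 527718159) (l 527773711)) (c (l 527833615) (l 527898383))) (b (c (c (c (l 527713039) (l 527739663)) (c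 (l 527767311) (l 527795983))) (c (c (l 527825935) (l 527857167)) (a (l 527899151) (c (l 527891215) (l 527924495))))) (a (c (c (l 527734799) (l 527790607)) (c (l 527850767) (l 527915535))) (l 3)))) (b (b (c (c (l 527733775) (l 527788559)) (c (l 527847951) (l 527911695))) (l 3)) (l 3)))) (a (c (c (l 527710223) (l 527766543)) (c (l 527827471) (l 527893007))) (l 3))) (a (a (b (c (c (l 527720719) (l 527777807)) (c (l 527839247) (l 527905295))) (l 3)) (l 3)) (l 3))) (l 3)) (l 3))) (l 3)) (l 3)) (l 3)) (l 3)), by decide +kernel⟩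

def k34_B00pp_012_s1 : ∃ t, chk3 f_B00pp_012_s1 t 18 31 1 = true :=
  ⟨(l 3), by decide +kernel⟩

def k35_B00pp_012_s1 : ∃ t, chk3 f_B00pp_012_s1 t 19 15 1 = true :=
  ⟨(l 3), by decide +kernel⟩

def k36_B00pp_012_s1 : ∃ t, chk3 f_B00pp_012_s1 t 10 6 1 = true :=
  ⟨(a (b (b (a (a (b (l 16306616) (l 16429536)) (b (l 16409904) (l 16449680))) (b (a (l 16430680) (l 16452592)) (l 16398088))) (a (b (l 16396392) (a (l 16512008) (l 16533272))) (b (a (l 16512608) (l 16534456)) (a (l 16554848) (l 16534176))))) (b (a (a (b (l 528104207) (b (l 16588240) (l 527858959))) (b (l 528234511) (l 527985167))) (b (c (l 528165391) (l 528513551)) (c (l 528510479) (l 528560911)))) (a (b (a (b (l 527874319) (l 528170255)) (l 528050703)) (a (b (l 527936271) (l 527982351)) (b (l 528117775) (l 528177167)))) (b (a (l 528251407) (b (l 528725519) (l 528523535))) (a (a (l 528314895) (l 528440591)) (c (b (l 528876047) (a (l 528897039) (l 529029647))) (b (l 528870927)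 (l 528674063)))))))) (b (b (a (b (l 16402144) (a (l 16515288) (l 16537168))) (b (l 16530672) (l 16506992))) (a (b (l 528760847) (l 528809231)) (b (l 529174799) (c (l 529237263) (l 529264655))))) (b (a (b (c (l 528867855) (l 528909327)) (a (l 528608783) (c (l 529116687) (l 529115919)))) (b (c (l 529361167) (l 529355279)) (c (l 529510415) (l 529469711)))) (a (b (a (c (l 528742415) (l 528734991)) (b (l 529219599) (l 529296911))) (a (b (c (l 529137167) (l 529107471)) (l 528939023)) (c (l 529461519) (l 529395983)))) (a (b (c (l 529551375) (l 529490959)) (c (l 529487631) (l 529659919))) (b (c (l 529576207) (l 529753871)) (l 3))))))), by decide +kernel⟩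

def k37_B00pp_012_s1 : ∃ t, chk3 f_B00pp_012_s1 t 10 7 1 = true :=
  ⟨(b (b (a (a (b (a (b (c (l 528834063) (l 528328463)) (c (a (l 528331791) (l 528440335)) (a (l 528360719) (l 528457487)))) (b (c (a (l 528459023) (l 528577807)) (l 528256271)) (b (c (l 528589839) (l 528591631)) (c (l 528916239) (l 528645903))))) (b (b (a (a (c (l 528403983) (l 528427279)) (c (l 528519439) (l 528531215))) (c (a (l 528643599) (l 528776463)) (l 528434703))) (a (a (c (l 528454671) (l 528474383)) (c (l 528574991) (l 528583183))) (a (c (l 528703759) (l 528701199)) (l 3)))) (a (b (b (a (c (l 528494351) (l 528511247)) (c (l 528617999) (l 528623631))) (a (c (l 528521231) (l 528536591)) (l 3))) (a (a (c (l 528532239) (l 528547343)) (l 3)) (l 3))) (l 3)))) (b (a (a (b (c (l 528707855) (l 528700687)) (b (c (l 528780303) (l 528764431)) (l 528840463))) (b (c (l 529125903) (l 528842767)) (a (b (c (l 528889615) (l 528866575)) (c (l 528961807) (l 528936975))) (b (c (l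 528964879) (l 528937487)) (l 3))))) (b (c (a (l 528990479) (l 529124879)) (l 528753935)) (b (c (a (l 529065231) (l 3)) (l 528818703)) (l 3)))) (b (a (a (b (c (l 528917775) (l 528896783)) (l 3)) (l 3)) (l 3)) (l 3)))) (b (a (b (a (c (l 529331727) (l 529270543)) (l 3)) (l 3)) (l 3)) (l 3))) (l 3)) (l 3)), by decide +kernel⟩

def k38_B00pp_012_s1 : ∃ t, chk3 f_B00pp_012_s1 t 11 3 1 = true :=
  ⟨(b (b (a (b (a (b (l 16574592) (l 529558799)) (b (l 16532440) (l 530063631))) (a (b (l 529640975) (l 529751311)) (b (l 530173455) (l 530308623)))) (b (a (l 529766415) (l 531177743)) (a (b (l 530761743) (l 530921999)) (b (l 531401231) (l 531584527))))) (a (a (b (a (a (l 529759503) (l 529898255)) (c (l 530161935) (l 530064911))) (b (c (a (l 529885455) (l 530478351)) (a (l 530030607) (l 530320655))) (l 3))) (b (b (l 530471183) (l 530662671)) (l 3))) (b (b (a (l 531109903) (l 531795727)) (l 3)) (l 3)))) (l 3)), by decide +kernel⟩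

def k39_B00pp_012_s1 : ∃ t, chk3 f_B00pp_012_s1 t 6 1 1 = true :=
  ⟨(b (b (a (b (a (l 6) (a (l 6) (b (l 6) (l 16445816)))) (a (a (b (l 6) (b (c (l 16466760) (l 16463056)) (a (l 16425528) (l 16488352)))) (b (c (l 16486424) (l 16478320)) (b (a (l 16493192) (l 16515408)) (a (l 16511664) (l 16536744))))) (a (b (a (l 16511640) (l 16451056)) (c (l 16483024) (l 16472536))) (b (b (l 16477144) (l 16496816)) (l 16525640))))) (b (a (a (b (l 6) (l 16494296)) (b (l 16494696) (a (l 16535536) (l 16562456)))) (b (a (l 16548976) (l 16582392)) (a (b (l 16593264) (l 16680808)) (l 16669280)))) (a (b (a (b (l 16527968) (l 16545056)) (l 16665912)) (a (l 16568456) (l 16606552))) (a (c (l 534502415) (l 534779919)) (b (l 16685592) (l 16662144)))))) (a (b (a (b (a (a (b (l 16402784) (l 16514384)) (l 16441560)) (b (l 16548680) (l 16573696))) (a (b (l 16554424) (l 16582624)) (l 531629839))) (b (a (l 16543640) (l 16584928)) (a (l 532535055) (l 533211151)))) (a (b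 (a (l 531400463) (l 532025103)) (a (l 531572239) (l 532231951))) (b (a (l 532692495) (l 533396239)) (l 531952399)))) (b (a (b (a (l 533785871) (l 534497807)) (a (l 533919503) (l 534390031))) (b (a (l 534280207) (l 533857807)) (a (l 533953295) (l 533510415)))) (a (b (a (l 534129423) (l 534008847)) (l 533780239)) (b (a (l 533547023) (c (l 532969743) (l 533200399))) (a (l 533048079) (l 3))))))) (b (b (a (a (b (a (l 531831567) (l 532528143)) (a (b (l 532086031) (l 531753999)) (l 532117519))) (b (l 532564751) (l 3))) (l 3)) (l 3)) (l 3))), by decide +kernel⟩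

def k40_B00pp_012_s1 : ∃ t, chk3 f_B00pp_012_s1 t 7 1 1 = true :=
  ⟨(b (b (a (b (a (b (a (b (l 16647496) (l 16648480)) (l 16553688)) (c (l 16568616) (l 16669616))) (a (l 533362191) (l 532950287))) (a (b (c (l 533538831) (l 533957903)) (a (l 533721615) (l 533303823))) (b (a (l 533127439) (l 532707855)) (a (l 532880399) (l 532450831))))) (a (b (a (l 532529679) (l 532098831)) (b (a (l 532280591) (l 531844367)) (a (l 532015119) (l 531573775)))) (a (b (l 531388431) (b (l 530593039) (c (l 530803727) (l 531445519)))) (b (l 531204111) (b (l 530941967) (l 3)))))) (a (b (a (a (b (l 533429775) (l 533062927)) (l 532801807)) (a (l 531818255) (l 530562319))) (a (b (a (l 532609039) (l 3)) (l 3)) (l 3))) (b (a (a (b (l 531669519) (l 3)) (l 3)) (l 3)) (l 3)))) (l 3)), by decide +kernel⟩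

theorem t41_B00pp_012_s1 : ∃ t, chk3 f_B00pp_012_s1 t 3 1 1 = true := ex3_a k39_B00pp_012_s1 k40_B00pp_012_s1

theorem t42_B00pp_012_s1 : ∃ t, chk3 f_B00pp_012_s1 t 10 3 1 = true := ex3_b k36_B00pp_012_s1 k37_B00pp_012_s1

theorem t43_B00pp_012_s1 : ∃ t, chk3 f_B00pp_012_s1 t 5 3 1 = true := ex3_a t42_B00pp_012_s1 k38_B00pp_012_s1

theorem t44_B00pp_012_s1 : ∃ t, chk3 f_B00pp_012_s1 t 73 120 1 = true := ex3_a k29_B00pp_012_s1 k30_B00pp_012_s1

theorem t45_B00pp_012_s1 : ∃ t, chk3 f_B00pp_012_s1 t 73 60 1 = true := ex3_b t44_B00pp_012_s1 k31_B00pp_012_s1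

theorem t46_B00pp_012_s1 : ∃ t, chk3 f_B00pp_012_s1 t 72 60 1 = true := ex3_a k27_B00pp_012_s1 k28_B00pp_012_s1

theorem t47_B00pp_012_s1 : ∃ t, chk3 f_B00pp_012_s1 t 36 60 1 = true := ex3_a t46_B00pp_012_s1 t45_B00pp_012_s1

theorem t48_B00pp_012_s1 : ∃ t, chk3 f_B00pp_012_s1 t 36 30 1 = true := ex3_b t47_B00pp_012_s1 k32_B00pp_012_s1

theorem t49_B00pp_012_s1 : ∃ t, chk3 f_B00pp_012_s1 t 18 30 1 = true := ex3_a t48_B00pp_012_s1 k33_B00pp_012_s1

theorem t50_B00pp_012_s1 : ∃ t, chk3 f_B00pp_012_s1 t 18 15 1 = true := ex3_b t49_B00pp_012_s1 k34_B00pp_012_s1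

theorem t51_B00pp_012_s1 : ∃ t, chk3 f_B00pp_012_s1 t 9 15 1 = true := ex3_a t50_B00pp_012_s1 k35_B00pp_012_s1

theorem t52_B00pp_012_s1 : ∃ t, chk3 f_B00pp_012_s1 t 8 31 1 = true := ex3_b k25_B00pp_012_s1 k26_B00pp_012_s1

theorem t53_B00pp_012_s1 : ∃ t, chk3 f_B00pp_012_s1 t 35 30 1 = true := ex3_b k23_B00pp_012_s1 k24_B00pp_012_s1

theorem t54_B00pp_012_s1 : ∃ t, chk3 f_B00pp_012_s1 t 17 30 1 = true := ex3_a k22_B00pp_012_s1 t53_B00pp_012_s1

theorem t55_B00pp_012_s1 : ∃ t, chk3 f_B00pp_012_s1 t 8 30 1 = true := ex3_a k21_B00pp_012_s1 t54_B00pp_012_s1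

theorem t56_B00pp_012_s1 : ∃ t, chk3 f_B00pp_012_s1 t 8 15 1 = true := ex3_b t55_B00pp_012_s1 t52_B00pp_012_s1

theorem t57_B00pp_012_s1 : ∃ t, chk3 f_B00pp_012_s1 t 4 15 1 = true := ex3_a t56_B00pp_012_s1 t51_B00pp_012_s1

theorem t58_B00pp_012_s1 : ∃ t, chk3 f_B00pp_012_s1 t 19 29 1 = true := ex3_a k19_B00pp_012_s1 k20_B00pp_012_s1

theorem t59_B00pp_012_s1 : ∃ t, chk3 f_B00pp_012_s1 t 19 14 1 = true := ex3_b k18_B00pp_012_s1 t58_B00pp_012_s1

theorem t60_B00pp_012_s1 : ∃ t, chk3 f_B00pp_012_s1 t 74 119 1 = true := ex3_a k15_B00pp_012_s1 k16_B00pp_012_s1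

theorem t61_B00pp_012_s1 : ∃ t, chk3 f_B00pp_012_s1 t 74 59 1 = true := ex3_b k14_B00pp_012_s1 t60_B00pp_012_s1

theorem t62_B00pp_012_s1 : ∃ t, chk3 f_B00pp_012_s1 t 74 29 1 = true := ex3_b k13_B00pp_012_s1 t61_B00pp_012_s1

theorem t63_B00pp_012_s1 : ∃ t, chk3 f_B00pp_012_s1 t 37 29 1 = true := ex3_a t62_B00pp_012_s1 k17_B00pp_012_s1

theorem t64_B00pp_012_s1 : ∃ t, chk3 f_B00pp_012_s1 t 37 14 1 = true := ex3_b k12_B00pp_012_s1 t63_B00pp_012_s1

theorem t65_B00pp_012_s1 : ∃ t, chk3 f_B00pp_012_s1 t 73 59 1 = true := ex3_b k10_B00pp_012_s1 k11_B00pp_012_s1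

theorem t66_B00pp_012_s1 : ∃ t, chk3 f_B00pp_012_s1 t 73 29 1 = true := ex3_b k9_B00pp_012_s1 t65_B00pp_012_s1

theorem t67_B00pp_012_s1 : ∃ t, chk3 f_B00pp_012_s1 t 36 29 1 = true := ex3_a k8_B00pp_012_s1 t66_B00pp_012_s1

theorem t68_B00pp_012_s1 : ∃ t, chk3 f_B00pp_012_s1 t 36 14 1 = true := ex3_b k7_B00pp_012_s1 t67_B00pp_012_s1

theorem t69_B00pp_012_s1 : ∃ t, chk3 f_B00pp_012_s1 t 18 14 1 = true := ex3_a t68_B00pp_012_s1 t64_B00pp_012_s1

theorem t70_B00pp_012_s1 : ∃ t, chk3 f_B00pp_012_s1 t 9 14 1 = true := ex3_a t69_B00pp_012_s1 t59_B00pp_012_s1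

theorem t71_B00pp_012_s1 : ∃ t, chk3 f_B00pp_012_s1 t 4 14 1 = true := ex3_a k6_B00pp_012_s1 t70_B00pp_012_s1

theorem t72_B00pp_012_s1 : ∃ t, chk3 f_B00pp_012_s1 t 4 7 1 = true := ex3_b t71_B00pp_012_s1 t57_B00pp_012_s1

theorem t73_B00pp_012_s1 : ∃ t, chk3 f_B00pp_012_s1 t 4 3 1 = true := ex3_b k5_B00pp_012_s1 t72_B00pp_012_s1

theorem t74_B00pp_012_s1 : ∃ t, chk3 f_B00pp_012_s1 t 2 3 1 = true := ex3_a t73_B00pp_012_s1 t43_B00pp_012_s1

theorem t75_B00pp_012_s1 : ∃ t, chk3 f_B00pp_012_s1 t 10 5 1 = true := ex3_a k2_B00pp_012_s1 k3_B00pp_012_s1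

theorem t76_B00pp_012_s1 : ∃ t, chk3 f_B00pp_012_s1 t 10 2 1 = true := ex3_b k1_B00pp_012_s1 t75_B00pp_012_s1

theorem t77_B00pp_012_s1 : ∃ t, chk3 f_B00pp_012_s1 t 5 2 1 = true := ex3_a t76_B00pp_012_s1 k4_B00pp_012_s1

theorem t78_B00pp_012_s1 : ∃ t, chk3 f_B00pp_012_s1 t 2 2 1 = true := ex3_a k0_B00pp_012_s1 t77_B00pp_012_s1

theorem t79_B00pp_012_s1 : ∃ t, chk3 f_B00pp_012_s1 t 2 1 1 = true := ex3_b t78_B00pp_012_s1 t74_B00pp_012_s1

theorem t80_B00pp_012_s1 : ∃ t, chk3 f_B00pp_012_s1 t 1 1 1 = true := ex3_a t79_B00pp_012_s1 t41_B00pp_012_s1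

theorem c_B00pp_012_s1 : CertF 0 536870912 0 536870912 991146299 28908434 false true true .pnp 0 1 2
    ndB0q0 ndB0q2 pcB1 cut_B00pp_012_s1 xt_B00pp_012_s1 :=
  certF0 (fam := false) (s1 := true) (s2 := true) (a := 0) (b := 1) (c := 2) (cn := .pnp) (n1 := ndB0q0) (n2 := ndB0q2) (pc := pcB1) (cut := cut_B00pp_012_s1) (xt := xt_B00pp_012_s1) (P1 := 0) (W1 := 536870912) (P2 := 0) (W2 := 536870912) (P3 := 991146299) (W3 := 28908434)
    rfl t80_B00pp_012_s1

theorem s_B00pp_012_s1 {κ x : ℝ} (hκ : κ * h0 = ken x) (hx : ((991146299 : ℕ) : ℝ) / S ≤ x)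
    (hx' : x ≤ (((991146299 : ℕ) : ℝ) + (28908434 : ℕ)) / S)
    (H : CutB (VFD κ) PP tK tL pcB (Cut.of [[⟨0, 0, 0, 16777216⟩, ⟨1, 1, 0, 16777216⟩, ⟨2, 1, 0, 16777216⟩]]) 0 1 2 0 0 (sgb true) (sgb true) x) :
    AltB (VFD κ) PP tK tL pcB [⟨3, 0, 0, 1449551462⟩] 0 1 2 0 0 (sgb true) (sgb true) x :=
  strip_altBD (m := 1449551462) true rfl hκ (SH.κ0 hκ (SH.hx1 hx).le (SH.hx2 hx').le) (SH.hx1 hx).le (SH.hx2 hx') (covB00).cov (covB02).cov hx hx' c_B00pp_012_s1 H ((okx hx hx').extB (T := tt) (sideB hx hx') hκ rfl rfl (.O 0 true) (.O 2 true) (Or.inr rfl))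

noncomputable def cut_B00pp_012_s3 : Cut := Cut.of [[⟨3, 0, 0, 2845415833⟩], [⟨0, 0, 0, 16777216⟩, ⟨1, 1, 0, 16777216⟩, ⟨2, 1, 0, 16777216⟩]]

noncomputable def f_B00pp_012_s3 : ℕ → ℕ → ℕ → ℕ → Bool := onCell 0 536870912 0 536870912 991146299 28908434
    (rowF 0 false true true .pnp 0 1 2 (qsf 0 536870912 0 536870912 1) ndB0q0 ndB0q2 pcB1 cut_B00pp_012_s3 Ext.none)

def k0_B00pp_012_s3 : ∃ t, chk3 f_B00pp_012_s3 t 1 1 1 = true :=
  ⟨(l 6), by decide +kernel⟩

theorem c_B00pp_012_s3 : CertF 0 536870912 0 536870912 991146299 28908434 false true true .pnp 0 1 2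
    ndB0q0 ndB0q2 pcB1 cut_B00pp_012_s3 Ext.none :=
  certF0 (fam := false) (s1 := true) (s2 := true) (a := 0) (b := 1) (c := 2) (cn := .pnp) (n1 := ndB0q0) (n2 := ndB0q2) (pc := pcB1) (cut := cut_B00pp_012_s3) (xt := Ext.none) (P1 := 0) (W1 := 536870912) (P2 := 0) (W2 := 536870912) (P3 := 991146299) (W3 := 28908434)
    rfl k0_B00pp_012_s3

theorem s_B00pp_012_s3 {κ x : ℝ} (hκ : κ * h0 = ken x) (hx : ((991146299 : ℕ) : ℝ) / S ≤ x)
    (hx' : x ≤ (((991146299 : ℕ) : ℝ) + (28908434 : ℕ)) / S)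
    (H : CutB (VFD κ) PP tK tL pcB (Cut.of [[⟨0, 0, 0, 16777216⟩, ⟨1, 1, 0, 16777216⟩, ⟨2, 1, 0, 16777216⟩]]) 0 1 2 0 0 (sgb true) (sgb true) x) :
    AltB (VFD κ) PP tK tL pcB [⟨4, 0, 0, 2845415833⟩] 0 1 2 0 0 (sgb true) (sgb true) x :=
  strip_altBD (m := 2845415833) false rfl hκ (SH.κ0 hκ (SH.hx1 hx).le (SH.hx2 hx').le) (SH.hx1 hx).le (SH.hx2 hx') (covB00).cov (covB02).cov hx hx' c_B00pp_012_s3 H (noExt_B)

noncomputable def cut_B00pp_022_s1 : Cut := Cut.of [[⟨4, 0, 0, 1449551462⟩], [⟨0, 0, 0, 53687091⟩, ⟨1, 1, 0, 53687091⟩, ⟨2, 1, 0, 53687091⟩]]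

noncomputable def f_B00pp_022_s1 : ℕ → ℕ → ℕ → ℕ → Bool := onCell 1073741824 536870912 0 536870912 991146299 28908434
    (rowF 2 false true true .pp 0 2 2 (qsf 0 536870912 0 536870912 2) ndB0q0 ndB0q2 pcB2 cut_B00pp_022_s1 Ext.none)

def k0_B00pp_022_s1 : ∃ t, chk3 f_B00pp_022_s1 t 4 2 1 = true :=
  ⟨(a (b (l 6) (a (b (l 6) (b (l 6) (a (c (c (c (a (b (l 16504104) (l 16559792)) (l 16532240)) (a (b (l 16560280) (l 16533232)) (l 16505752))) (a (b (a (l 16522040) (l 16513000)) (a (b (l 16534744) (l 16543344)) (l 16529400))) (b (l 16499200) (l 16514760)))) (a (b (c (a (l 16462472) (l 16454168)) (a (l 16400416) (l 16392920))) (c (c (l 16491912) (l 16462976)) (c (l 16433456) (l 16403368)))) (b (c (l 16441520) (l 16381512)) (c (l 16459488) (l 16402000))))) (b (l 6) (c (c (l 16451720) (l 16421776)) (c (l 16431688) (l 16376640))))))) (l 6))) (l 6)), by decide +kernel⟩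

def k1_B00pp_022_s1 : ∃ t, chk3 f_B00pp_022_s1 t 16 12 2 = true :=
  ⟨(b (a (a (c (b (a (c (l 16579488) (l 16553944)) (l 16556008)) (c (b (l 16595600) (l 16603176)) (a (b (l 16566088) (l 16574376)) (l 16559000)))) (b (c (c (l 16581632) (l 16558016)) (a (l 16543064) (l 16533032))) (c (a (b (l 16582808) (l 16591688)) (l 16576288)) (a (c (l 16568160) (l 16555288)) (l 16551096))))) (b (c (l 16518600) (a (l 16535984) (l 16525552))) (c (a (l 16517712) (l 16506096)) (a (l 16510904) (l 16541808))))) (a (c (a (l 16487496) (l 16475888)) (b (l 16509680) (l 16525032))) (b (l 16428552) (l 16441680)))) (a (b (a (b (c (a (c (l 16599144) (l 16582840)) (l 16582904)) (a (c (l 16579776) (l 16576200)) (l 16535344))) (a (c (c (l 16607720) (l 16591480)) (c (l 16589016) (l 16586048))) (c (l 16590968) (l 16544576)))) (c (a (l 16574848) (l 16520720)) (a (l 16528392) (l 16558680)))) (a (a (c (c (c (b (l 16609120) (l 16607488)) (l 16622560)) (a (l 16618368) (l 16601720)))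 (c (b (l 16598448) (l 16587128)) (b (l 16596096) (l 16606352)))) (c (l 16603400) (a (l 16561800) (l 16555744)))) (a (c (l 16548816) (l 16546608)) (a (l 16517576) (l 16511344))))) (a (b (a (l 16485936) (l 16473800)) (a (l 16501760) (l 16488768))) (c (l 16482816) (l 16460872))))), by decide +kernel⟩

def k2_B00pp_022_s1 : ∃ t, chk3 f_B00pp_022_s1 t 16 12 3 = true :=
  ⟨(c (a (a (c (b (a (b (l 16515800) (a (l 16538304) (l 16533160))) (b (l 16506096) (l 16525392))) (a (b (b (l 16551136) (l 16561616)) (b (l 16572296) (l 16583184))) (b (l 16545344) (l 16566032)))) (b (b (a (l 16487976) (l 16478608)) (a (a (l 16511688) (l 16506704)) (l 16499168))) (a (b (b (l 16525568) (l 16536696)) (b (l 16548024) (l 16559544))) (b (l 16520384) (l 16542336))))) (b (b (a (l 16482768) (l 16473024)) (a (l 16502048) (l 16491648))) (b (a (l 16521960) (l 16510888)) (a (l 16542592) (l 16530960))))) (b (a (b (l 16458208) (l 16475848)) (l 16446336)) (a (b (l 16494216)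 (l 16512912)) (b (l 16471096) (l 16487952))))) (b (a (b (a (a (b (l 16439504) (l 16456208)) (l 16436360)) (l 16443904)) (a (b (c (l 16476944) (l 16443960)) (a (a (l 16481992) (l 16471920)) (l 16464624))) (a (l 16449248) (l 16439528)))) (a (b (l 16404736) (l 16424784)) (l 16395576))) (b (a (a (a (a (c (l 16513176) (l 16486872)) (c (l 16502760) (l 16476600))) (a (l 16489856) (l 16479464))) (a (l 16471696) (l 16461256))) (a (l 16445560) (l 16423768))) (a (a (a (b (c (l 16523272) (l 16498056)) (c (l 16535456) (l 16510904))) (c (l 16518192) (l 16493592))) (a (l 16494856) (l 16483808))) (a (l 16466648) (l 16442888)))))), by decide +kernel⟩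

def k3_B00pp_022_s1 : ∃ t, chk3 f_B00pp_022_s1 t 16 13 1 = true :=
  ⟨(b (a (c (a (c (a (b (c (c (b (l 16611080) (l 16604168)) (l 16618328)) (l 16627944)) (c (a (b (l 16606352) (l 16604320)) (l 16610192)) (l 16622144))) (b (l 16612872) (l 16608688))) (b (a (a (c (l 16605192) (l 16583328)) (l 16588008)) (a (l 16581656) (l 16533336))) (a (a (l 16615816) (l 16609224)) (l 16599128)))) (b (a (c (l 16565656) (l 16523760)) (a (l 16534984) (l 16528272))) (a (c (l 16576304) (l 16543448)) (l 16549296)))) (c (a (b (a (a (c (l 16561024) (l 16538280)) (a (l 16545144) (l 16542088))) (a (l 16537496) (l 16573288))) (a (a (l 16573640) (l 16567256)) (l 16557456))) (b (a (l 16522128) (l 16551480)) (a (l 16586064) (l 16572472)))) (a (b (a (c (a (l 16557032) (l 16551128)) (a (l 16533416) (l 16527632))) (c (l 16542208) (l 16518912))) (a (b (l 16562008) (l 16575448)) (l 16514192))) (b (a (l 16518824) (l 16506760)) (a (l 16543240) (l 16530104)))))) (a (c (b (a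 (l 16518080) (l 16504096)) (a (l 16534632) (l 16519640))) (b (a (l 16432856) (l 16503720)) (a (l 16453752) (l 16523480)))) (c (b (l 16482456) (l 16496648)) (b (l 16399672) (l 16417872))))) (a (a (c (c (a (b (c (b (l 16583848) (l 16623920)) (l 16606088)) (l 16590168)) (b (l 16604800) (l 16559584))) (b (a (l 16634768) (l 16578456)) (l 16617864))) (b (a (c (l 16595088) (l 16553896)) (b (l 16512688) (l 16525128))) (c (l 16570688) (l 16532104)))) (c (b (a (l 16582576) (l 16567232)) (l 16593896)) (b (a (l 16525536) (l 16489896)) (a (l 16528432) (l 16512680))))) (a (c (b (l 16543656) (l 16560824)) (b (c (l 16570832) (l 16531312)) (l 16488632))) (c (b (l 16511464) (l 16527720)) (c (l 16465104) (l 16427384)))))), by decide +kernel⟩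

def k4_B00pp_022_s1 : ∃ t, chk3 f_B00pp_022_s1 t 17 6 1 = true :=
  ⟨(b (a (c (a (b (b (l 16489728) (l 16417216)) (a (l 16441592) (l 16427720))) (b (l 16386784) (l 16406208))) (b (a (c (l 16424800) (l 16375600)) (l 16378776)) (a (c (l 16454128) (l 16409224)) (l 16321952)))) (b (b (l 6) (c (l 16351216) (l 16349568))) (c (a (l 16461480) (l 16433088)) (a (l 16379808) (l 16354176))))) (a (b (c (a (b (l 16452528) (l 16465352)) (l 16428088)) (a (a (l 16387032) (l 16456560)) (l 16351208))) (c (a (l 16487080) (l 16454848)) (a (b (l 16489992) (l 16509192)) (l 16468968)))) (b (c (a (l 16481544) (l 16451936)) (a (l 16406848) (l 16379632))) (c (b (l 16485152) (l 16415744)) (b (l 16416592) (l 16434376)))))), by decide +kernel⟩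

def k5_B00pp_022_s1 : ∃ t, chk3 f_B00pp_022_s1 t 8 7 1 = true :=
  ⟨(b (a (b (a (b (c (a (a (b (l 16565560) (l 16562920)) (l 16575984)) (l 16593784)) (a (b (l 16571160) (l 16584632)) (l 16544816))) (a (c (b (l 16576328) (l 16589024)) (l 16591392)) (c (l 16606912) (l 16556464)))) (a (b (c (l 16579512) (l 16511464)) (c (l 16585272) (l 16522168))) (b (b (l 16507536) (l 16476160)) (c (l 16551624) (l 16489144))))) (b (a (a (b (c (l 16601456) (l 16594888)) (c (l 16634552) (l 16597712))) (c (l 16613504) (l 16557168))) (a (c (l 16576128) (l 16519544)) (b (l 16514216) (l 16509968)))) (l 14))) (b (a (b (c (b (l 16491552) (l 16500800)) (b (l 16425568) (l 16436712))) (c (b (b (l 16507168) (l 16505448)) (l 16499264)) (b (a (l 16459568) (l 16428968)) (l 16439520)))) (a (c (b (l 16531840) (b (l 16459120) (l 16535704))) (b (l 16469112) (b (b (l 16482952) (l 16483536)) (l 16477624)))) (b (c (l 16500560) (l 16439576)) (b (c (b (l 16511928) (l 16513024))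 (b (l 16453072) (l 16454992))) (c (l 16505184) (l 16448472)))))) (a (b (a (c (l 16504672) (l 16448384)) (c (l 16470576) (l 16414808))) (l 14)) (a (b (c (l 16479496) (b (l 16470072) (l 16462920))) (c (l 16503464) (l 16473856))) (b (c (l 16489472) (l 16435456)) (l 1)))))) (a (l 14) (a (l 14) (l 1)))), by decide +kernel⟩

def k6_B00pp_022_s1 : ∃ t, chk3 f_B00pp_022_s1 t 9 3 1 = true :=
  ⟨(b (a (b (b (l 6) (a (c (l 16391272) (l 16316832)) (c (l 16338640) (l 16270912)))) (b (a (c (l 16408856) (l 16340488)) (c (l 16354104) (l 16291672))) (c (a (b (l 16425896) (l 16439392)) (l 402148896407)) (a (b (l 16361936) (l 16378360)) (l 405906888519))))) (b (l 6) (a (a (b (l 16286832) (l 1)) (l 1)) (l 1)))) (b (a (a (b (a (b (c (l 16469960) (l 16410888)) (b (c (l 284574463383) (l 285111325927)) (l 1))) (b (c (l 16440064) (l 16383080)) (l 1))) (l 1)) (l 1)) (l 1)) (l 1))), by decide +kernel⟩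

def k7_B00pp_022_s1 : ∃ t, chk3 f_B00pp_022_s1 t 5 1 1 = true :=
  ⟨(b (l 6) (b (l 1) (l 1))), by decide +kernel⟩

def k8_B00pp_022_s1 : ∃ t, chk3 f_B00pp_022_s1 t 3 1 1 = true :=
  ⟨(l 1), by decide +kernel⟩

theorem t9_B00pp_022_s1 : ∃ t, chk3 f_B00pp_022_s1 t 16 12 1 = true := ex3_c k1_B00pp_022_s1 k2_B00pp_022_s1

theorem t10_B00pp_022_s1 : ∃ t, chk3 f_B00pp_022_s1 t 16 6 1 = true := ex3_b t9_B00pp_022_s1 k3_B00pp_022_s1

theorem t11_B00pp_022_s1 : ∃ t, chk3 f_B00pp_022_s1 t 8 6 1 = true := ex3_a t10_B00pp_022_s1 k4_B00pp_022_s1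

theorem t12_B00pp_022_s1 : ∃ t, chk3 f_B00pp_022_s1 t 8 3 1 = true := ex3_b t11_B00pp_022_s1 k5_B00pp_022_s1

theorem t13_B00pp_022_s1 : ∃ t, chk3 f_B00pp_022_s1 t 4 3 1 = true := ex3_a t12_B00pp_022_s1 k6_B00pp_022_s1

theorem t14_B00pp_022_s1 : ∃ t, chk3 f_B00pp_022_s1 t 4 1 1 = true := ex3_b k0_B00pp_022_s1 t13_B00pp_022_s1

theorem t15_B00pp_022_s1 : ∃ t, chk3 f_B00pp_022_s1 t 2 1 1 = true := ex3_a t14_B00pp_022_s1 k7_B00pp_022_s1

theorem t16_B00pp_022_s1 : ∃ t, chk3 f_B00pp_022_s1 t 1 1 1 = true := ex3_a t15_B00pp_022_s1 k8_B00pp_022_s1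

theorem c_B00pp_022_s1 : CertF 0 536870912 0 536870912 991146299 28908434 false true true .pp 0 2 2
    ndB0q0 ndB0q2 pcB2 cut_B00pp_022_s1 Ext.none :=
  certF2 (fam := false) (s1 := true) (s2 := true) (a := 0) (b := 2) (c := 2) (cn := .pp) (n1 := ndB0q0) (n2 := ndB0q2) (pc := pcB2) (cut := cut_B00pp_022_s1) (xt := Ext.none) (P1 := 0) (W1 := 536870912) (P2 := 0) (W2 := 536870912) (P3 := 991146299) (W3 := 28908434)
    rfl (fun _ => rfl) t16_B00pp_022_s1

theorem s_B00pp_022_s1 {κ x : ℝ} (hκ : κ * h0 = ken x) (hx : ((991146299 : ℕ) : ℝ) / S ≤ x)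
    (hx' : x ≤ (((991146299 : ℕ) : ℝ) + (28908434 : ℕ)) / S)
    (H : CutB (VFD κ) PP tK tL pcB (Cut.of [[⟨0, 0, 0, 53687091⟩, ⟨1, 1, 0, 53687091⟩, ⟨2, 1, 0, 53687091⟩]]) 0 2 2 0 0 (sgb true) (sgb true) x) :
    AltB (VFD κ) PP tK tL pcB [⟨3, 0, 0, 1449551462⟩] 0 2 2 0 0 (sgb true) (sgb true) x :=
  strip_altBD (m := 1449551462) true rfl hκ (SH.κ0 hκ (SH.hx1 hx).le (SH.hx2 hx').le) (SH.hx1 hx).le (SH.hx2 hx') (covB00).cov (covB02).cov hx hx' c_B00pp_022_s1 H (noExt_B)

noncomputable def cut_B00pp_022_s3 : Cut := Cut.of [[⟨3, 0, 0, 2845415833⟩], [⟨0, 0, 0, 53687091⟩, ⟨1, 1, 0, 53687091⟩, ⟨2, 1, 0, 53687091⟩]]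

noncomputable def f_B00pp_022_s3 : ℕ → ℕ → ℕ → ℕ → Bool := onCell 0 536870912 0 536870912 991146299 28908434
    (rowF 0 false true true .pp 0 2 2 (qsf 0 536870912 0 536870912 2) ndB0q0 ndB0q2 pcB2 cut_B00pp_022_s3 Ext.none)

def k0_B00pp_022_s3 : ∃ t, chk3 f_B00pp_022_s3 t 1 1 1 = true :=
  ⟨(l 6), by decide +kernel⟩

theorem c_B00pp_022_s3 : CertF 0 536870912 0 536870912 991146299 28908434 false true true .pp 0 2 2
    ndB0q0 ndB0q2 pcB2 cut_B00pp_022_s3 Ext.none :=
  certF0 (fam := false) (s1 := true) (s2 := true) (a := 0) (b := 2) (c := 2) (cn := .pp) (n1 := ndB0q0) (n2 := ndB0q2) (pc := pcB2) (cut := cut_B00pp_022_s3) (xt := Ext.none) (P1 := 0) (W1 := 536870912) (P2 := 0) (W2 := 536870912) (P3 := 991146299) (W3 := 28908434)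
    rfl k0_B00pp_022_s3

theorem s_B00pp_022_s3 {κ x : ℝ} (hκ : κ * h0 = ken x) (hx : ((991146299 : ℕ) : ℝ) / S ≤ x)
    (hx' : x ≤ (((991146299 : ℕ) : ℝ) + (28908434 : ℕ)) / S)
    (H : CutB (VFD κ) PP tK tL pcB (Cut.of [[⟨0, 0, 0, 53687091⟩, ⟨1, 1, 0, 53687091⟩, ⟨2, 1, 0, 53687091⟩]]) 0 2 2 0 0 (sgb true) (sgb true) x) :
    AltB (VFD κ) PP tK tL pcB [⟨4, 0, 0, 2845415833⟩] 0 2 2 0 0 (sgb true) (sgb true) x :=
  strip_altBD (m := 2845415833) false rfl hκ (SH.κ0 hκ (SH.hx1 hx).le (SH.hx2 hx').le) (SH.hx1 hx).le (SH.hx2 hx') (covB00).cov (covB02).cov hx hx' c_B00pp_022_s3 H (noExt_B)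

noncomputable def cut_B00pp_101_s1 : Cut := Cut.of [[⟨4, 0, 0, 1449551462⟩]]

noncomputable def f_B00pp_101_s1 : ℕ → ℕ → ℕ → ℕ → Bool := onCell 536870912 536870912 536870912 536870912 991146299 28908434
    (rowF 0 false true true .npn 1 0 1 (qsf 536870912 536870912 536870912 536870912 0) ndB0q1 ndB0q1 pcB0 cut_B00pp_101_s1 Ext.none)

def k0_B00pp_101_s1 : ∃ t, chk3 f_B00pp_101_s1 t 1 1 1 = true :=
  ⟨(l 3), by decide +kernel⟩

theorem c_B00pp_101_s1 : CertF 536870912 536870912 536870912 536870912 991146299 28908434 false true true .npn 1 0 1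
    ndB0q1 ndB0q1 pcB0 cut_B00pp_101_s1 Ext.none :=
  certF0 (fam := false) (s1 := true) (s2 := true) (a := 1) (b := 0) (c := 1) (cn := .npn) (n1 := ndB0q1) (n2 := ndB0q1) (pc := pcB0) (cut := cut_B00pp_101_s1) (xt := Ext.none) (P1 := 536870912) (W1 := 536870912) (P2 := 536870912) (W2 := 536870912) (P3 := 991146299) (W3 := 28908434)
    rfl k0_B00pp_101_s1

theorem s_B00pp_101_s1 {κ x : ℝ} (hκ : κ * h0 = ken x) (hx : ((991146299 : ℕ) : ℝ) / S ≤ x)
    (hx' : x ≤ (((991146299 : ℕ) : ℝ) + (28908434 : ℕ)) / S) :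
    AltB (VFD κ) PP tK tL pcB [⟨3, 0, 0, 1449551462⟩] 1 0 1 0 0 (sgb true) (sgb true) x :=
  strip_altBD (m := 1449551462) true rfl hκ (SH.κ0 hκ (SH.hx1 hx).le (SH.hx2 hx').le) (SH.hx1 hx).le (SH.hx2 hx') (covB01).cov (covB01).cov hx hx' c_B00pp_101_s1 cutB_nil (noExt_B)

noncomputable def cut_B00pp_101_s3 : Cut := Cut.of [[⟨3, 0, 0, 2845415833⟩]]

noncomputable def f_B00pp_101_s3 : ℕ → ℕ → ℕ → ℕ → Bool := onCell 536870912 536870912 536870912 536870912 991146299 28908434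
    (rowF 0 false true true .npn 1 0 1 (qsf 536870912 536870912 536870912 536870912 0) ndB0q1 ndB0q1 pcB0 cut_B00pp_101_s3 Ext.none)

def k0_B00pp_101_s3 : ∃ t, chk3 f_B00pp_101_s3 t 1 1 1 = true :=
  ⟨(l 3), by decide +kernel⟩

theorem c_B00pp_101_s3 : CertF 536870912 536870912 536870912 536870912 991146299 28908434 false true true .npn 1 0 1
    ndB0q1 ndB0q1 pcB0 cut_B00pp_101_s3 Ext.none :=
  certF0 (fam := false) (s1 := true) (s2 := true) (a := 1) (b := 0) (c := 1) (cn := .npn) (n1 := ndB0q1) (n2 := ndB0q1) (pc := pcB0) (cut := cut_B00pp_101_s3) (xt := Ext.none) (P1 := 536870912) (W1 := 536870912) (P2 := 536870912) (W2 := 536870912) (P3 := 991146299) (W3 := 28908434)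
    rfl k0_B00pp_101_s3

theorem s_B00pp_101_s3 {κ x : ℝ} (hκ : κ * h0 = ken x) (hx : ((991146299 : ℕ) : ℝ) / S ≤ x)
    (hx' : x ≤ (((991146299 : ℕ) : ℝ) + (28908434 : ℕ)) / S) :
    AltB (VFD κ) PP tK tL pcB [⟨4, 0, 0, 2845415833⟩] 1 0 1 0 0 (sgb true) (sgb true) x :=
  strip_altBD (m := 2845415833) false rfl hκ (SH.κ0 hκ (SH.hx1 hx).le (SH.hx2 hx').le) (SH.hx1 hx).le (SH.hx2 hx') (covB01).cov (covB01).cov hx hx' c_B00pp_101_s3 cutB_nil (noExt_B)

noncomputable def cut_B00pp_102_s1 : Cut := Cut.of [[⟨4, 0, 0, 1449551462⟩]]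

noncomputable def f_B00pp_102_s1 : ℕ → ℕ → ℕ → ℕ → Bool := onCell 0 536870912 0 536870912 991146299 28908434
    (rowF 2 false true true .npp 1 0 2 (qsf 536870912 536870912 0 536870912 0) ndB0q1 ndB0q2 pcB0 cut_B00pp_102_s1 Ext.none)

def k0_B00pp_102_s1 : ∃ t, chk3 f_B00pp_102_s1 t 1 1 1 = true :=
  ⟨(a (b (l 3) (l 3)) (l 3)), by decide +kernel⟩

theorem c_B00pp_102_s1 : CertF 536870912 536870912 0 536870912 991146299 28908434 false true true .npp 1 0 2
    ndB0q1 ndB0q2 pcB0 cut_B00pp_102_s1 Ext.none :=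
  certF2 (fam := false) (s1 := true) (s2 := true) (a := 1) (b := 0) (c := 2) (cn := .npp) (n1 := ndB0q1) (n2 := ndB0q2) (pc := pcB0) (cut := cut_B00pp_102_s1) (xt := Ext.none) (P1 := 536870912) (W1 := 536870912) (P2 := 0) (W2 := 536870912) (P3 := 991146299) (W3 := 28908434)
    rfl (fun _ => rfl) k0_B00pp_102_s1

theorem s_B00pp_102_s1 {κ x : ℝ} (hκ : κ * h0 = ken x) (hx : ((991146299 : ℕ) : ℝ) / S ≤ x)
    (hx' : x ≤ (((991146299 : ℕ) : ℝ) + (28908434 : ℕ)) / S) :
    AltB (VFD κ) PP tK tL pcB [⟨3, 0, 0, 1449551462⟩] 1 0 2 0 0 (sgb true) (sgb true) x :=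
  strip_altBD (m := 1449551462) true rfl hκ (SH.κ0 hκ (SH.hx1 hx).le (SH.hx2 hx').le) (SH.hx1 hx).le (SH.hx2 hx') (covB01).cov (covB02).cov hx hx' c_B00pp_102_s1 cutB_nil (noExt_B)

noncomputable def cut_B00pp_102_s3 : Cut := Cut.of [[⟨3, 0, 0, 2845415833⟩]]

noncomputable def f_B00pp_102_s3 : ℕ → ℕ → ℕ → ℕ → Bool := onCell 536870912 536870912 0 536870912 991146299 28908434
    (rowF 0 false true true .npp 1 0 2 (qsf 536870912 536870912 0 536870912 0) ndB0q1 ndB0q2 pcB0 cut_B00pp_102_s3 Ext.none)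

def k0_B00pp_102_s3 : ∃ t, chk3 f_B00pp_102_s3 t 1 1 1 = true :=
  ⟨(l 6), by decide +kernel⟩

theorem c_B00pp_102_s3 : CertF 536870912 536870912 0 536870912 991146299 28908434 false true true .npp 1 0 2
    ndB0q1 ndB0q2 pcB0 cut_B00pp_102_s3 Ext.none :=
  certF0 (fam := false) (s1 := true) (s2 := true) (a := 1) (b := 0) (c := 2) (cn := .npp) (n1 := ndB0q1) (n2 := ndB0q2) (pc := pcB0) (cut := cut_B00pp_102_s3) (xt := Ext.none) (P1 := 536870912) (W1 := 536870912) (P2 := 0) (W2 := 536870912) (P3 := 991146299) (W3 := 28908434)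
    rfl k0_B00pp_102_s3

theorem s_B00pp_102_s3 {κ x : ℝ} (hκ : κ * h0 = ken x) (hx : ((991146299 : ℕ) : ℝ) / S ≤ x)
    (hx' : x ≤ (((991146299 : ℕ) : ℝ) + (28908434 : ℕ)) / S) :
    AltB (VFD κ) PP tK tL pcB [⟨4, 0, 0, 2845415833⟩] 1 0 2 0 0 (sgb true) (sgb true) x :=
  strip_altBD (m := 2845415833) false rfl hκ (SH.κ0 hκ (SH.hx1 hx).le (SH.hx2 hx').le) (SH.hx1 hx).le (SH.hx2 hx') (covB01).cov (covB02).cov hx hx' c_B00pp_102_s3 cutB_nil (noExt_B)

noncomputable def cut_B00pp_112_s1 : Cut := Cut.of [[⟨4, 0, 0, 1449551462⟩]]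

noncomputable def xt_B00pp_112_s1 : Ext := strExt dd false true true .u0 .u2 .u0m .dn 1 1 2 rfl rfl gf1 vv ndB0q1 ndB0q2

noncomputable def f_B00pp_112_s1 : ℕ → ℕ → ℕ → ℕ → Bool := onCell 536870912 536870912 0 536870912 991146299 28908434
    (rowF 0 false true true .dn 1 1 2 (qsf 536870912 536870912 0 536870912 1) ndB0q1 ndB0q2 pcB1 cut_B00pp_112_s1 xt_B00pp_112_s1)

def k0_B00pp_112_s1 : ∃ t, chk3 f_B00pp_112_s1 t 1 1 1 = true :=
  ⟨(a (b (a (b (a (a (b (a (l 530739983) (l 529191183)) (b (a (l 530475279) (l 3)) (l 3))) (b (a (l 529510927) (c (l 528865807) (l 529701135))) (l 3))) (b (a (a (c (l 528336911) (l 529229071)) (l 3)) (l 3)) (l 3))) (l 3)) (l 3)) (l 3)) (l 1)), by decide +kernel⟩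

theorem c_B00pp_112_s1 : CertF 536870912 536870912 0 536870912 991146299 28908434 false true true .dn 1 1 2
    ndB0q1 ndB0q2 pcB1 cut_B00pp_112_s1 xt_B00pp_112_s1 :=
  certF0 (fam := false) (s1 := true) (s2 := true) (a := 1) (b := 1) (c := 2) (cn := .dn) (n1 := ndB0q1) (n2 := ndB0q2) (pc := pcB1) (cut := cut_B00pp_112_s1) (xt := xt_B00pp_112_s1) (P1 := 536870912) (W1 := 536870912) (P2 := 0) (W2 := 536870912) (P3 := 991146299) (W3 := 28908434)
    rfl k0_B00pp_112_s1

theorem s_B00pp_112_s1 {κ x : ℝ} (hκ : κ * h0 = ken x) (hx : ((991146299 : ℕ) : ℝ) / S ≤ x)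
    (hx' : x ≤ (((991146299 : ℕ) : ℝ) + (28908434 : ℕ)) / S) :
    AltB (VFD κ) PP tK tL pcB [⟨3, 0, 0, 1449551462⟩] 1 1 2 0 0 (sgb true) (sgb true) x :=
  strip_altBD (m := 1449551462) true rfl hκ (SH.κ0 hκ (SH.hx1 hx).le (SH.hx2 hx').le) (SH.hx1 hx).le (SH.hx2 hx') (covB01).cov (covB02).cov hx hx' c_B00pp_112_s1 cutB_nil ((okx hx hx').extB (T := tt) (sideB hx hx') hκ rfl rfl (.O 1 true) (.O 2 true) (Or.inr rfl))

noncomputable def cut_B00pp_112_s3 : Cut := Cut.of [[⟨3, 0, 0, 2845415833⟩]]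

noncomputable def f_B00pp_112_s3 : ℕ → ℕ → ℕ → ℕ → Bool := onCell 536870912 536870912 0 536870912 991146299 28908434
    (rowF 0 false true true .dn 1 1 2 (qsf 536870912 536870912 0 536870912 1) ndB0q1 ndB0q2 pcB1 cut_B00pp_112_s3 Ext.none)

def k0_B00pp_112_s3 : ∃ t, chk3 f_B00pp_112_s3 t 1 1 1 = true :=
  ⟨(l 6), by decide +kernel⟩

theorem c_B00pp_112_s3 : CertF 536870912 536870912 0 536870912 991146299 28908434 false true true .dn 1 1 2
    ndB0q1 ndB0q2 pcB1 cut_B00pp_112_s3 Ext.none :=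
  certF0 (fam := false) (s1 := true) (s2 := true) (a := 1) (b := 1) (c := 2) (cn := .dn) (n1 := ndB0q1) (n2 := ndB0q2) (pc := pcB1) (cut := cut_B00pp_112_s3) (xt := Ext.none) (P1 := 536870912) (W1 := 536870912) (P2 := 0) (W2 := 536870912) (P3 := 991146299) (W3 := 28908434)
    rfl k0_B00pp_112_s3

theorem s_B00pp_112_s3 {κ x : ℝ} (hκ : κ * h0 = ken x) (hx : ((991146299 : ℕ) : ℝ) / S ≤ x)
    (hx' : x ≤ (((991146299 : ℕ) : ℝ) + (28908434 : ℕ)) / S) :
    AltB (VFD κ) PP tK tL pcB [⟨4, 0, 0, 2845415833⟩] 1 1 2 0 0 (sgb true) (sgb true) x :=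
  strip_altBD (m := 2845415833) false rfl hκ (SH.κ0 hκ (SH.hx1 hx).le (SH.hx2 hx').le) (SH.hx1 hx).le (SH.hx2 hx') (covB01).cov (covB02).cov hx hx' c_B00pp_112_s3 cutB_nil (noExt_B)

noncomputable def cut_B00pp_202_s1 : Cut := Cut.of [[⟨4, 0, 0, 1449551462⟩]]

noncomputable def f_B00pp_202_s1 : ℕ → ℕ → ℕ → ℕ → Bool := onCell 0 536870912 0 536870912 991146299 28908434
    (rowF 0 false true true .pp 2 0 2 (qsf 0 536870912 0 536870912 0) ndB0q2 ndB0q2 pcB0 cut_B00pp_202_s1 Ext.none)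

def k0_B00pp_202_s1 : ∃ t, chk3 f_B00pp_202_s1 t 1 1 1 = true :=
  ⟨(l 3), by decide +kernel⟩

theorem c_B00pp_202_s1 : CertF 0 536870912 0 536870912 991146299 28908434 false true true .pp 2 0 2
    ndB0q2 ndB0q2 pcB0 cut_B00pp_202_s1 Ext.none :=
  certF0 (fam := false) (s1 := true) (s2 := true) (a := 2) (b := 0) (c := 2) (cn := .pp) (n1 := ndB0q2) (n2 := ndB0q2) (pc := pcB0) (cut := cut_B00pp_202_s1) (xt := Ext.none) (P1 := 0) (W1 := 536870912) (P2 := 0) (W2 := 536870912) (P3 := 991146299) (W3 := 28908434)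
    rfl k0_B00pp_202_s1

theorem s_B00pp_202_s1 {κ x : ℝ} (hκ : κ * h0 = ken x) (hx : ((991146299 : ℕ) : ℝ) / S ≤ x)
    (hx' : x ≤ (((991146299 : ℕ) : ℝ) + (28908434 : ℕ)) / S) :
    AltB (VFD κ) PP tK tL pcB [⟨3, 0, 0, 1449551462⟩] 2 0 2 0 0 (sgb true) (sgb true) x :=
  strip_altBD (m := 1449551462) true rfl hκ (SH.κ0 hκ (SH.hx1 hx).le (SH.hx2 hx').le) (SH.hx1 hx).le (SH.hx2 hx') (covB02).cov (covB02).cov hx hx' c_B00pp_202_s1 cutB_nil (noExt_B)

noncomputable def cut_B00pp_202_s3 : Cut := Cut.of [[⟨3, 0, 0, 2845415833⟩]]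

noncomputable def f_B00pp_202_s3 : ℕ → ℕ → ℕ → ℕ → Bool := onCell 0 536870912 0 536870912 991146299 28908434
    (rowF 0 false true true .pp 2 0 2 (qsf 0 536870912 0 536870912 0) ndB0q2 ndB0q2 pcB0 cut_B00pp_202_s3 Ext.none)

def k0_B00pp_202_s3 : ∃ t, chk3 f_B00pp_202_s3 t 1 1 1 = true :=
  ⟨(l 3), by decide +kernel⟩

theorem c_B00pp_202_s3 : CertF 0 536870912 0 536870912 991146299 28908434 false true true .pp 2 0 2
    ndB0q2 ndB0q2 pcB0 cut_B00pp_202_s3 Ext.none :=
  certF0 (fam := false) (s1 := true) (s2 := true) (a := 2) (b := 0) (c := 2) (cn := .pp) (n1 := ndB0q2) (n2 := ndB0q2) (pc := pcB0) (cut := cut_B00pp_202_s3) (xt := Ext.none) (P1 := 0) (W1 := 536870912) (P2 := 0) (W2 := 536870912) (P3 := 991146299) (W3 := 28908434)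
    rfl k0_B00pp_202_s3

theorem s_B00pp_202_s3 {κ x : ℝ} (hκ : κ * h0 = ken x) (hx : ((991146299 : ℕ) : ℝ) / S ≤ x)
    (hx' : x ≤ (((991146299 : ℕ) : ℝ) + (28908434 : ℕ)) / S) :
    AltB (VFD κ) PP tK tL pcB [⟨4, 0, 0, 2845415833⟩] 2 0 2 0 0 (sgb true) (sgb true) x :=
  strip_altBD (m := 2845415833) false rfl hκ (SH.κ0 hκ (SH.hx1 hx).le (SH.hx2 hx').le) (SH.hx1 hx).le (SH.hx2 hx') (covB02).cov (covB02).cov hx hx' c_B00pp_202_s3 cutB_nil (noExt_B)

noncomputable def cut_B00pm_001_s1 : Cut := Cut.of [[⟨4, 0, 0, 1449551462⟩]]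

noncomputable def f_B00pm_001_s1 : ℕ → ℕ → ℕ → ℕ → Bool := onCell 0 536870912 536870912 536870912 991146299 28908434
    (rowF 0 false true false .up 0 0 1 (qsf 0 536870912 536870912 536870912 0) ndB0q0 ndB0q1 pcB0 cut_B00pm_001_s1 Ext.none)

def k0_B00pm_001_s1 : ∃ t, chk3 f_B00pm_001_s1 t 1 1 1 = true :=
  ⟨(l 6), by decide +kernel⟩

theorem c_B00pm_001_s1 : CertF 0 536870912 536870912 536870912 991146299 28908434 false true false .up 0 0 1
    ndB0q0 ndB0q1 pcB0 cut_B00pm_001_s1 Ext.none :=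
  certF0 (fam := false) (s1 := true) (s2 := false) (a := 0) (b := 0) (c := 1) (cn := .up) (n1 := ndB0q0) (n2 := ndB0q1) (pc := pcB0) (cut := cut_B00pm_001_s1) (xt := Ext.none) (P1 := 0) (W1 := 536870912) (P2 := 536870912) (W2 := 536870912) (P3 := 991146299) (W3 := 28908434)
    rfl k0_B00pm_001_s1

theorem s_B00pm_001_s1 {κ x : ℝ} (hκ : κ * h0 = ken x) (hx : ((991146299 : ℕ) : ℝ) / S ≤ x)
    (hx' : x ≤ (((991146299 : ℕ) : ℝ) + (28908434 : ℕ)) / S) :
    AltB (VFD κ) PP tK tL pcB [⟨3, 0, 0, 1449551462⟩] 0 0 1 0 0 (sgb true) (sgb false) x :=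
  strip_altBD (m := 1449551462) true rfl hκ (SH.κ0 hκ (SH.hx1 hx).le (SH.hx2 hx').le) (SH.hx1 hx).le (SH.hx2 hx') (covB00).cov (covB01).cov hx hx' c_B00pm_001_s1 cutB_nil (noExt_B)

noncomputable def cut_B00pm_001_s3 : Cut := Cut.of [[⟨3, 0, 0, 2845415833⟩]]

noncomputable def xt_B00pm_001_s3 : Ext := strExt dd false true false .u0 .u0m .s0m .up 0 0 1 rfl rfl gl0 vv ndB0q0 ndB0q1

noncomputable def f_B00pm_001_s3 : ℕ → ℕ → ℕ → ℕ → Bool := onCell 0 536870912 536870912 536870912 991146299 28908434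
    (rowF 2 false true false .up 0 0 1 (qsf 0 536870912 536870912 536870912 0) ndB0q0 ndB0q1 pcB0 cut_B00pm_001_s3 xt_B00pm_001_s3)

def k0_B00pm_001_s3 : ∃ t, chk3 f_B00pm_001_s3 t 2 1 1 = true :=
  ⟨(b (a (b (b (l 4) (b (a (a (l 2) (l 527566607)) (l 4)) (a (l 2) (a (l 527871759) (b (l 4) (l 527931919)))))) (b (a (l 2) (b (a (l 2) (l 528110607)) (l 2))) (l 2))) (b (l 4) (a (b (a (b (a (l 528075791) (b (l 4) (l 528089359))) (b (l 528221199) (l 2))) (a (b (b (l 4) (b (l 4) (l 528055055))) (b (l 528137999) (l 528244495))) (b (l 4) (b (c (l 528609551) (l 527475471)) (c (l 528729615) (l 527566095)))))) (b (a (l 2) (a (l 2) (a (l 2) (l 528017935)))) (l 2))) (b (b (l 4) (b (a (a (a (b (l 4) (l 528012559)) (l 4)) (l 4)) (l 4)) (a (a (c (l 529227535) (c (l 527734543) (l 527056655))) (c (l 528643343) (a (l 527253519) (l 527149839)))) (a (a (l 527836175) (l 527758863)) (l 4))))) (a (a (b (c (l 528869647) (l 527506959)) (l 2)) (b (b (c (l 528762895)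 (a (l 527330831) (l 527220751))) (c (l 528876815) (l 527344655))) (c (l 529041167) (l 527438607)))) (b (c (a (b (l 528697615) (l 528806671)) (b (l 528602895) (l 528715791))) (a (b (a (l 527106831) (l 526994447)) (l 527120143)) (b (l 526803471) (a (l 526938895) (l 526807311))))) (c (a (l 528966927) (b (l 528824591) (l 528925455))) (a (b (l 527184911) (l 527245327)) (b (l 526931983) (l 526994447)))))))))) (a (l 2) (b (a (l 2) (b (b (a (l 2) (a (l 2) (a (l 2) (b (l 528019983) (l 2))))) (l 2)) (l 2))) (l 2)))), by decide +kernel⟩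

def k1_B00pm_001_s3 : ∃ t, chk3 f_B00pm_001_s3 t 3 2 1 = true :=
  ⟨(b (l 4) (a (b (l 4) (a (a (b (c (a (l 528544783) (l 528138767)) (a (l 526560527) (b (l 4) (l 526292239)))) (c (b (a (l 528707087) (l 528567567)) (a (l 528807951) (l 528666127))) (b (a (l 526658831) (l 526353423)) (a (l 526716431) (l 526409743))))) (a (b (b (l 4) (c (l 528298511) (l 525958159))) (c (l 528447759) (b (l 526017807) (l 526072591)))) (b (l 4) (c (b (l 528204815) (l 528299535)) (b (l 525649167) (l 525702415)))))) (b (l 4) (a (c (a (b (l 527976719) (l 528069647)) (b (l 527714063) (l 527804943))) (a (b (l 525244175) (l 525295887)) (b (l 524799759) (l 524849679)))) (b (l 4) (a (c (l 527501583) (l 524360207)) (a (c (l 527249423) (l 523964687)) (l 4)))))))) (l 4))), by decide +kernel⟩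

def k2_B00pm_001_s3 : ∃ t, chk3 f_B00pm_001_s3 t 12 6 1 = true :=
  ⟨(b (a (a (b (c (c (l 529446927) (l 528434703)) (c (l 527356687) (l 526222863))) (l 2)) (b (b (c (l 528760335) (l 526462479)) (c (l 528849935) (l 526513679))) (b (c (l 528932367) (l 526567695)) (l 2)))) (c (b (b (a (l 528589583) (l 528389135)) (a (l 528676367) (l 528473359))) (b (a (l 528755215) (l 528548879)) (a (l 528829199) (l 528619279)))) (b (b (a (l 526123279) (l 525751055)) (a (l 526171919) (l 525797391))) (b (a (l 526223375) (l 525846287)) (a (l 526276879) (l 525627919)))))) (b (a (l 2) (a (l 2) (a (l 2) (b (c (l 528630031) (l 525848079)) (l 2))))) (l 2))), by decide +kernel⟩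

def k3_B00pm_001_s3 : ∃ t, chk3 f_B00pm_001_s3 t 13 6 1 = true :=
  ⟨(a (b (b (c (b (a (l 528156943) (l 527889679)) (a (l 528238095) (l 527968015))) (b (a (l 525342735) (a (l 525012751) (l 524778255))) (a (l 525386767) (l 524936719)))) (c (b (a (l 528310287) (l 528036111)) (a (l 528376847) (l 527830543))) (b (a (l 525433615) (l 524981519)) (a (b (l 525469199) (l 525492495)) (a (l 525145615) (l 524908047)))))) (b (a (b (c (l 528440591) (b (l 525516047) (l 525540111))) (l 6)) (b (c (c (l 528875279) (l 527418383)) (b (l 525058831) (l 525080335))) (a (l 6) (b (c (l 16252928) (l 16064288)) (l 6))))) (l 6))) (b (c (b (b (a (l 527584271) (l 527236879)) (a (a (l 527742479) (l 527578127)) (a (l 527402767) (l 527215887)))) (a (b (l 527723535) (l 527245071)) (b (a (l 527463183) (l 527274255)) (a (l 527518735) (l 527327503))))) (b (b (a (l 524402959) (l 523863823)) (a (a (l 524573199) (l 524315151)) (a (l 524044815) (l 523761679)))) (a (b (a (l 524616975)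 (l 524358159)) (c (l 525371919) (l 523667215))) (b (a (l 524087055) (l 523803407)) (a (l 524127503) (l 523842575)))))) (b (b (c (a (c (l 528598287) (l 527053071)) (b (l 527461903) (l 527218959))) (c (a (l 525416975) (l 524915983)) (a (l 523701519) (l 523107087)))) (a (b (c (l 527610895) (c (l 16111736) (l 16024936))) (a (l 6) (b (c (l 16239808) (l 16042080)) (l 6)))) (a (b (c (l 527610639) (l 524192527)) (b (c (l 16250536) (l 16055384)) (a (l 6) (c (l 16228728) (l 16024560))))) (c (l 527427599) (l 523778575))))) (a (l 6) (a (l 6) (b (b (b (a (l 6) (b (c (l 16220344) (l 16011592)) (l 6))) (l 6)) (l 6)) (l 6))))))), by decide +kernel⟩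

def k4_B00pm_001_s3 : ∃ t, chk3 f_B00pm_001_s3 t 14 12 1 = true :=
  ⟨(a (b (b (b (a (a (c (l 526930191) (l 523419919)) (l 4)) (l 4)) (a (c (l 526862351) (l 523282191)) (c (a (l 526535695) (l 526030095)) (a (c (l 523766543) (l 521823247)) (a (l 522552079) (l 4)))))) (c (a (b (l 526358031) (l 526926095)) (b (c (l 526806287) (l 524993295)) (a (l 526594831) (l 526354959)))) (a (c (l 523704079) (b (l 522356239) (l 522371343))) (a (b (l 522822671) (l 522842639)) (b (a (l 522569231) (l 522398223)) (l 522503695)))))) (c (a (b (a (l 527073039) (l 526859279)) (a (l 527124239) (l 526908431))) (b (a (l 526631951) (l 526390287)) (a (l 526679055) (l 526435599)))) (a (b (a (l 523506703) (l 523196175)) (a (l 523544847) (b (l 523224847) (l 523241999)))) (b (a (l 522871567) (l 522531855)) (a (b (l 522898959) (l 522915599)) (l 522565391)))))) (b (b (l 4) (a (c (a (b (l 526076687) (l 525560847)) (l 525819407)) (a (b (l 522127631) (a (l 522240783) (l 522058511)))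 (l 521764879))) (b (l 4) (c (l 525395471) (l 521179407))))) (c (a (b (a (b (l 526123279) (l 526145807)) (b (a (l 525921295) (l 525784079)) (l 525874191))) (c (l 526450191) (l 524263183))) (b (a (b (l 525567759) (l 525587727)) (l 525273871)) (a (b (l 525606159) (l 525624847)) (b (l 525301519) (l 525318671))))) (a (b (a (b (l 522168079) (l 522185487)) (b (a (l 521892367) (l 521699343)) (l 521811983))) (a (c (l 523232527) (l 521163791)) (b (l 521827343) (l 521841167)))) (b (a (b (l 521403151) (l 521419535)) (l 520999951)) (a (b (l 521434895) (l 521448207)) (b (l 521023247) (a (l 521141775) (l 520930831))))))))), by decide +kernel⟩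

def k5_B00pm_001_s3 : ∃ t, chk3 f_B00pm_001_s3 t 15 12 1 = true :=
  ⟨(b (l 4) (b (a (c (a (a (l 524953359) (l 524613647)) (a (l 524254223) (l 523873807))) (a (a (l 520569615) (l 520119055)) (a (l 519646991) (l 519152399)))) (a (a (c (l 523471375) (l 518634255)) (l 4)) (l 4))) (a (a (c (a (b (l 524979471) (l 524995343)) (l 524377103)) (a (b (l 520591375) (l 520603663)) (b (l 520139023) (l 520150287)))) (c (a (l 524284175) (l 523901967)) (a (l 519937807) (l 519440911)))) (a (c (a (l 523497487) (l 523069455)) (a (l 518920207) (l 518374671))) (a (c (l 522616847) (l 517802767)) (b (l 4) (c (l 522143503) (l 516937487)))))))), by decide +kernel⟩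

def k6_B00pm_001_s3 : ∃ t, chk3 f_B00pm_001_s3 t 14 26 1 = true :=
  ⟨(c (c (b (a (a (l 527915023) (l 527499791)) (a (l 526491663) (a (l 526637839) (l 526355471)))) (a (a (l 527963151) (l 527543567)) (a (l 526531343) (a (l 526674191) (l 526389519))))) (b (a (a (l 526186255) (l 524870159)) (a (l 524300303) (b (l 523659023) (l 523674639)))) (a (a (l 526229775) (l 524909583)) (a (a (l 525292815) (l 524990223)) (a (l 524670991) (l 524334351)))))) (c (a (b (a (l 523961615) (a (l 523916815) (l 523598351))) (a (b (l 524391951) (l 524409615)) (b (l 523781391) (l 523797007)))) (a (a (b (l 523264015) (l 523292687)) (b (l 522913295) (l 522939663))) (b (a (l 522544911) (l 522158095)) (a (l 522569231) (l 522180367))))) (a (b (a (c (l 522942991) (l 521971471)) (a (l 521939215) (l 521571087))) (a (b (l 522479887) (l 522491919)) (b (l 521771279) (l 521781519)))) (a (a (b (l 521186319) (l 521205007)) (b (l 520784399) (l 520800783))) (b (a (l 520363791)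 (l 519923983)) (a (l 520378383) (l 520205071))))))), by decide +kernel⟩

def k7_B00pm_001_s3 : ∃ t, chk3 f_B00pm_001_s3 t 15 26 1 = true :=
  ⟨(a (a (c (c (b (a (l 526056207) (l 525739279)) (b (l 525383183) (l 525129487))) (b (a (l 523952655) (b (l 523575567) (l 523588111))) (a (l 523979535) (b (l 523600143) (l 523611919))))) (b (a (b (c (l 521747215) (l 519460367)) (c (l 521758223) (l 519467279))) (b (a (l 520276751) (l 520044303)) (c (l 521331215) (l 518984719)))) (a (c (b (l 521768207) (l 521777423)) (b (l 519472911) (l 519477263))) (b (c (l 521340175) (l 518989583)) (c (l 521348367) (l 518992911)))))) (b (c (a (c (l 525403663) (l 523189775)) (b (l 523920655) (l 523931407))) (a (b (l 519683855) (c (l 520882703) (l 518478863))) (b (l 519185167) (l 519325711)))) (c (c (a (l 525427983) (b (l 525064463) (l 525074703))) (a (b (l 523206415) (l 523216911)) (b (l 522791695) (l 522800399)))) (a (b (c (l 520890639) (l 518483471)) (c (l 520897807)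 (l 518486287))) (b (c (l 520418575) (l 517953039)) (c (l 520424719) (l 517955599))))))) (c (c (a (b (a (l 524669967) (l 524269327)) (a (b (l 524685071) (l 524693775)) (l 524285967))) (b (a (l 523844111) (l 523393039)) (a (l 523858703) (l 523405327)))) (b (a (a (l 522341391) (l 521882127)) (a (l 521397519) (l 520886543))) (a (a (b (l 522354447) (l 522361871)) (l 521895695)) (a (l 521408527) (l 520894991))))) (c (b (a (a (l 519913231) (l 519394575)) (a (l 518850063) (l 518278415))) (a (a (b (l 519922703) (l 519927567)) (b (l 519402255) (l 519405583))) (a (l 519124239) (l 518549263)))) (b (a (a (l 517392911) (l 516814351)) (a (l 516208911) (l 515575567))) (a (a (b (l 517397775) (l 517399311)) (l 517352975)) (a (l 516475919) (l 515838991))))))), by decide +kernel⟩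

def k8_B00pm_001_s3 : ∃ t, chk3 f_B00pm_001_s3 t 28 27 1 = true :=
  ⟨(b (a (b (c (b (a (c (l 16271072) (l 16130328)) (l 16200000)) (a (l 16214712) (b (a (l 16211752) (l 16214344)) (l 16210000)))) (b (a (b (l 16021264) (a (l 15993128) (l 15985696))) (l 523314703)) (a (a (l 6) (l 15980424)) (b (a (b (l 15999704) (l 15995552)) (l 16001384)) (a (l 15997768) (l 15972640)))))) (l 6)) (a (b (c (b (l 526793743) (b (l 16221656) (a (l 16208144) (l 16210688)))) (b (l 522983439) (b (l 16011248) (a (b (l 15994112) (l 15968720)) (l 15995752))))) (b (c (a (l 16209288) (l 16206208)) (a (l 15994752) (b (l 15977128) (l 15991848)))) (l 6))) (b (c (l 526549775) (l 522505231)) (c (b (a (c (l 16255112) (l 16089232)) (b (l 16206592) (l 16200248))) (l 16207352)) (b (b (a (b (l 15967200) (l 15967736)) (c (l 16045896) (l 15932440))) (a (l 15985944) (b (l 15969720) (l 15981224)))) (l 15970808)))))) (l 6)), by decide +kernel⟩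

def k9_B00pm_001_s3 : ∃ t, chk3 f_B00pm_001_s3 t 58 27 1 = true :=
  ⟨(b (b (c (c (l 527098127) (l 524361743)) (c (a (l 523313423) (l 522958863)) (a (l 521217551) (l 520811791)))) (c (b (a (b (l 526298127) (c (l 16168744) (a (l 16146696) (l 16149384)))) (l 526020367)) (c (a (l 16250760) (b (l 16206208) (l 16244368))) (a (l 16083968) (b (a (b (l 16142856) (l 16138600)) (l 16143952)) (l 16076040))))) (b (a (b (l 522014735) (a (b (l 15971376) (a (l 15976864) (l 15954800))) (c (l 16039992) (l 15925656)))) (c (l 16058728) (l 15947544))) (a (a (l 15982576) (b (b (a (l 15973392) (l 15956576)) (l 15974416)) (l 15979280))) (b (a (b (c (l 16032336) (l 15916856)) (a (l 15969832) (l 15958256))) (c (l 16033696) (l 15918528))) (a (l 15972536) (b (c (l 16023952) (l 15907264)) (l 15967200)))))))) (b (c (c (l 16215832) (a (l 16160560) (l 16151064))) (c (a (l 16053864) (l 16042440)) (a (l 15941872) (l 15928624)))) (l 6))), by decide +kernel⟩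

def k10_B00pm_001_s3 : ∃ t, chk3 f_B00pm_001_s3 t 59 27 1 = true :=
  ⟨(b (c (b (c (l 525752591) (l 523786511)) (a (b (l 525187087) (b (l 525461775) (c (l 16201248) (a (b (l 16137096) (l 16132576)) (l 16138088))))) (c (l 526431503) (l 524369935)))) (b (c (a (l 522586639) (l 522195983)) (a (l 520387599) (l 519944207))) (a (b (c (l 16030040) (l 520391695)) (b (c (l 16043200) (l 15929776)) (a (b (c (l 16025712) (l 15909408)) (a (l 15962408) (c (l 16019376) (l 15902104)))) (c (l 16027008) (l 15911056))))) (c (l 522205711) (l 519948303))))) (b (c (c (b (a (l 16199448) (b (a (l 16236104) (l 16238320)) (l 16170800))) (l 16161104)) (b (a (a (l 16137528) (b (l 16109264) (l 16134472))) (b (a (b (l 16130904) (l 16126096)) (l 16131800)) (a (l 16128336) (b (l 16122688) (l 16123416))))) (l 16098296))) (b (a (a (l 15958344) (b (b (a (l 15942816) (c (l 16015744) (l 15898048))) (l 15959576)) (l 15965128))) (b (a (b (c (l 16018696) (l 15901600)) (a (c (l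 16013000) (l 15894984)) (c (l 16012000) (l 15893896)))) (c (l 16019928) (l 15903232))) (a (l 15957528) (a (c (l 16010760) (l 15892576)) (b (c (l 16008160) (l 15889656)) (l 15949528)))))) (a (c (l 16036416) (l 15921816)) (c (l 16022848) (l 15906392))))) (c (c (l 16216728) (a (l 16162576) (l 16152272))) (c (a (l 16056576) (l 16044392)) (a (l 15945256) (b (l 15922952) (l 15939520))))))), by decide +kernel⟩

def k11_B00pm_001_s3 : ∃ t, chk3 f_B00pm_001_s3 t 15 54 2 = true :=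
  ⟨(c (a (a (a (l 526118159) (l 524721423)) (a (l 524513295) (b (l 525085455) (l 525095951)))) (a (a (b (l 524702479) (l 524711183)) (b (l 524297231) (l 524303887))) (a (b (l 523868175) (l 523873039)) (b (l 523413263) (l 523416847))))) (a (a (b (c (l 524355343) (l 523259663)) (a (l 524011791) (l 523634447))) (a (c (l 523796495) (l 522659343)) (b (l 522809103) (l 522817295)))) (a (a (b (l 522368783) (l 522106895)) (b (l 521904655) (a (l 522029327) (l 521790479)))) (a (b (l 521415695) (a (l 521545231) (l 521293327))) (b (l 520899855) (l 520633615)))))), by decide +kernel⟩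

def k12_B00pm_001_s3 : ∃ t, chk3 f_B00pm_001_s3 t 30 55 2 = true :=
  ⟨(b (a (b (a (a (b (l 525176847) (c (l 16167272) (b (l 16124272) (l 16098192)))) (c (l 16239640) (l 16091824))) (c (l 16204248) (l 523642895))) (a (a (l 16147624) (b (b (a (l 16149656) (c (l 16223592) (l 16114560))) (l 16171296)) (l 16175776))) (b (a (c (l 16171352) (b (l 16117192) (a (l 16111696) (l 16110800)))) (c (l 16225992) (l 16117904))) (a (l 16148304) (b (c (l 16217632) (a (l 16107808) (l 16106920))) (l 16164040)))))) (c (a (b (l 16223856) (b (l 16232392) (a (b (l 16218880) (l 16214048)) (l 16219112)))) (l 525105935)) (a (b (l 523244047) (b (l 523247631) (a (b (l 16109672) (a (l 16103816) (l 16102920))) (l 16110288)))) (b (l 522823439) (l 522827535))))) (a (c (a (l 16244792) (l 16191992)) (a (l 16098728) (l 16085816))) (b (a (a (c (l 16218992) (l 16109944)) (b (b (c (l 16147432) (a (l 16099696) (b (l 16100024) (l 16097112)))) (l 16135320)) (c (l 16215400) (l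 16105960)))) (c (b (a (a (l 16156424) (l 16156744)) (l 16211752)) (a (l 16208552) (b (a (l 16202504) (l 16201648)) (l 16202904)))) (b (a (b (l 16101704) (a (l 16095464) (b (l 16095880) (l 16092832)))) (l 16102240)) (a (l 16098064) (b (a (b (l 16090648) (l 16090880)) (b (l 16091592) (l 16088432))) (l 16091696)))))) (c (a (l 16227680) (l 16214608)) (a (l 16120744) (l 16053168)))))), by decide +kernel⟩

def k13_B00pm_001_s3 : ∃ t, chk3 f_B00pm_001_s3 t 31 55 2 = true :=
  ⟨(b (c (a (a (l 524719375) (b (l 524308751) (l 524311823))) (a (a (l 523988495) (l 523765775)) (a (l 523536911) (l 523301391)))) (a (a (c (l 522976527) (l 521780751)) (b (l 521913615) (l 521513487))) (a (a (l 521548815) (l 521296143)) (a (l 521036559) (l 520770319))))) (a (b (a (b (c (l 16176256) (l 522386191)) (a (b (c (l 16203816) (l 16093176)) (c (a (l 16198416) (l 16197552)) (a (b (l 16086184) (l 16086368)) (b (l 16087200) (l 16083912))))) (c (l 16203896) (l 16093728))))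 (c (l 524314639) (a (l 522038799) (l 521798415)))) (a (a (c (l 16203944) (l 16072408)) (b (c (b (a (l 16194192) (l 16193328)) (l 16194552)) (b (a (b (l 16060640) (l 16081728)) (b (l 16082696) (l 16058304))) (l 16082592))) (c (l 16199800) (l 16088856)))) (b (a (b (c (l 16195568) (l 16084272)) (c (a (l 16189848) (b (l 16190272) (l 16187296))) (a (b (a (l 16076784) (l 16076448)) (l 16076976)) (b (l 16078080) (a (l 16074376) (l 16074064)))))) (c (l 16195544) (l 16063776))) (a (c (l 16192040) (l 16080072)) (b (c (a (l 16122456) (b (l 16185856) (l 16182760))) (a (b (a (l 16071944) (l 16071648)) (l 16072096)) (b (l 16073336) (a (l 16069480) (l 16069200))))) (c (l 16185680) (l 16073008))))))) (a (a (b (c (l 523992079) (l 521551631)) (b (c (l 16199904) (l 521552911)) (b (c (l 16186824) (l 16074896)) (c (a (b (l 16180448) (l 16180384)) (b (l 16181312) (l 16178104))) (a (b (a (l 16066984) (l 16066728)) (l 16067096)) (b (l 16068472) (a (l 16064464)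 (l 16064224)))))))) (c (l 523769359) (l 520896015))) (c (c (l 524031503) (l 522802447)) (c (l 521275663) (a (l 520395791) (l 520120847))))))), by decide +kernel⟩

def k14_B00pm_001_s3 : ∃ t, chk3 f_B00pm_001_s3 t 15 54 3 = true :=
  ⟨(a (b (a (a (c (l 521786127) (l 519480591)) (c (l 521355791) (l 518995471))) (a (c (l 520904207) (l 518487567)) (c (l 520429839) (l 517956111)))) (a (c (a (l 521794575) (l 521362959)) (a (l 519483407) (l 518997007))) (a (c (l 520775695) (l 519025167)) (c (l 520367375) (l 518492687))))) (a (a (b (c (l 519931663) (l 517399311)) (c (a (l 520063247) (l 519807247)) (a (l 517541135) (l 517255951)))) (b (c (l 519408399) (l 516815887)) (c (a (l 519545103) (l 519276303)) (a (l 516963855) (l 516665103))))) (a (b (c (l 518858767) (l 516204815)) (c (a (l 519001103) (l 518718735)) (a (l 516358927) (l 516045583)))) (b (c (l 518281487) (l 515565327)) (c (a (l 518429199) (l 518132751)) (l 515829263)))))), by decide +kernel⟩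

def k15_B00pm_001_s3 : ∃ t, chk3 f_B00pm_001_s3 t 30 110 3 = true :=
  ⟨(a (b (c (a (b (l 16029680) (a (b (l 16011280) (a (l 16005192) (l 16004216))) (l 16012456))) (l 521368591)) (a (b (l 15914880) (a (b (l 15893440) (a (l 15886352) (l 15906288))) (l 15895056))) (l 518999055))) (a (a (c (l 16011792) (l 15893928)) (b (b (a (c (l 16001128) (l 15881896)) (b (l 15931800) (c (l 15998448) (l 15878912)))) (l 15943104)) (l 15938864))) (b (a (b (c (l 16003464) (l 15884920)) (a (c (l 15996960) (l 15877336)) (b (c (l 15997176) (l 15877720)) (c (l 15994224) (l 15874312))))) (c (l 16004584) (l 15886512))) (b (a (l 15928232) (a (c (l 15992688) (l 15893656)) (b (c (l 15993008) (l 15873200)) (c (l 15989904) (l 15869624))))) (c (l 15997760) (l 15878384)))))) (a (b (c (l 520914703) (l 518489359)) (b (c (l 520917007) (l 518489871)) (a (b (c (l 15995240) (l 15876032)) (a (c (l 15988304) (b (l 15867240) (l 15867752))) (b (c (l 15988728) (l 15868592)) (c (l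 15985472) (l 15864832))))) (c (l 15996312) (l 15898584))))) (c (c (l 521045007) (l 519827215)) (b (l 517956111) (l 518224655))))), by decide +kernel⟩

def k16_B00pm_001_s3 : ∃ t, chk3 f_B00pm_001_s3 t 30 111 3 = true :=
  ⟨(a (c (a (b (l 16023216) (l 16038432)) (b (l 16007904) (l 16024056))) (a (c (l 15945152) (l 15886488)) (c (l 15928928) (l 15869368)))) (b (a (a (c (l 15995520) (l 15876176)) (b (b (b (a (c (l 15983224) (l 15862400)) (c (l 15984352) (l 15863888))) (a (l 15923824) (c (l 15980936) (l 15901880)))) (c (l 15984648) (l 15864064))) (c (l 15991160) (l 15871472)))) (b (a (b (c (l 15986608) (l 15866776)) (a (b (c (l 15978632) (l 15878432)) (l 15918984)) (b (c (l 15979872) (l 15859088)) (c (l 15976296) (a (l 15854792) (l 15854352)))))) (c (c (l 16016736) (l 15958232)) (c (l 15898576) (l 15837816)))) (a (c (l 15982288) (l 15861656)) (b (b (a (c (a (l 15973816) (l 15973376)) (a (l 15852240) (l 15851832))) (l 519285263)) (a (l 15924512)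 (c (a (l 15971408) (l 15971000)) (a (l 15849672) (l 15849288))))) (c (l 15975232) (l 15853952)))))) (a (c (l 16008328) (l 15890936)) (c (a (l 15995624) (l 15986728)) (a (l 15876832) (l 15867000)))))), by decide +kernel⟩

def k17_B00pm_001_s3 : ∃ t, chk3 f_B00pm_001_s3 t 31 110 3 = true :=
  ⟨(c (c (a (a (l 520558863) (l 520047631)) (a (l 519510543) (l 518945551))) (a (a (l 519312143) (l 518771727)) (a (l 518204431) (l 517608719)))) (a (a (b (l 517397775) (l 517665807)) (b (l 517081615) (l 517483279))) (a (a (l 516356623) (l 516043023)) (a (l 515721999) (l 515393295))))), by decide +kernel⟩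

def k18_B00pm_001_s3 : ∃ t, chk3 f_B00pm_001_s3 t 31 111 3 = true :=
  ⟨(a (b (a (b (c (l 519940879) (l 517397007)) (a (b (c (l 15977432) (l 15856992)) (a (a (c (l 15969904) (l 15848128)) (b (c (l 15968592) (l 15846720)) (l 15928704))) (b (l 519052303) (c (a (l 15966520) (l 15966160)) (a (l 15844448) (l 15844128)))))) (c (l 15978520) (l 15858672)))) (c (c (l 520050191) (l 518772751)) (c (l 517470991) (l 516145423)))) (c (a (b (a (l 15972832) (b (a (b (a (l 15964032) (l 15963696)) (l 15964336)) (b (l 15965728) (a (l 15961520) (l 15961208)))) (l 15965440))) (l 15972224)) (b (a (b (l 15967928) (a (b (a (l 15958976) (l 15958688)) (l 15959248)) (b (l 15960800) (a (l 15956408) (l 15956144))))) (l 519280399)) (a (l 15962928) (b (a (b (a (l 15953816) (l 15953576)) (l 15954040)) (b (l 15955760) (a (l 15951192) (l 15950976)))) (l 15955200))))) (a (b (a (l 15851544) (b (a (b (a (l 15841800) (l 15841512)) (l 15842176)) (b (l 15844040) (a (l 15839128)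 (l 15838872)))) (l 15843512))) (l 15877928)) (b (a (b (l 15846920) (a (b (a (l 15836432) (l 15836208)) (l 15836760)) (b (l 15838832) (a (l 15833712) (l 15833512))))) (l 15880064)) (a (l 15841016) (b (a (b (a (l 15872904) (l 15872744)) (l 15831240)) (b (l 15833520) (a (l 15870128) (l 15870000)))) (l 15832656))))))) (c (a (a (b (l 519003151) (b (l 519003663) (b (l 15957984) (a (b (a (b (l 15948400) (l 15948136)) (l 15948352)) (l 15948712)) (b (l 15950616) (a (b (l 15945736) (l 15945432)) (l 15950944))))))) (c (l 519374095) (l 518059023))) (b (a (l 518429199) (l 518131471)) (c (l 518945807) (l 517607439)))) (a (a (b (l 516354831) (b (l 516353807) (b (l 15836456) (a (b (a (l 15856840) (l 15867232)) (l 15825624)) (b (l 15828104) (a (b (l 15822416) (l 15822064)) (l 15864440))))))) (l 516576783)) (a (l 516255247) (l 515926287))))), by decide +kernel⟩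

def k19_B00pm_001_s3 : ∃ t, chk3 f_B00pm_001_s3 t 6 7 1 = true :=
  ⟨(l 6), by decide +kernel⟩

def k20_B00pm_001_s3 : ∃ t, chk3 f_B00pm_001_s3 t 14 14 1 = true :=
  ⟨(l 6), by decide +kernel⟩

def k21_B00pm_001_s3 : ∃ t, chk3 f_B00pm_001_s3 t 30 28 2 = true :=
  ⟨(b (a (a (l 6) (b (c (l 16255744) (l 16154880)) (l 6))) (a (b (c (l 16245328) (l 16100512)) (l 6)) (b (c (l 16191648) (b (l 16120992) (l 16136280))) (c (l 16258208) (l 16159016))))) (l 6)), by decide +kernel⟩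

def k22_B00pm_001_s3 : ∃ t, chk3 f_B00pm_001_s3 t 31 28 2 = true :=
  ⟨(b (a (b (c (a (l 16178568) (b (l 16156904) (l 16213152))) (a (b (l 16052976) (l 16121624)) (b (a (l 16092800) (l 16083960)) (l 16053168)))) (c (a (l 16246944) (l 16150448)) (a (l 16103848) (l 16089256)))) (b (b (a (a (c (l 16134384) (c (l 16103352) (l 16046056))) (b (b (a (c (b (l 16175720) (l 16175600)) (b (a (l 16040936) (l 16061688)) (l 16061976))) (c (b (l 16176632) (l 16131368)) (b (l 16063488) (a (l 16038352) (l 16059120))))) (c (l 16176288) (l 16041952))) (c (l 16182120) (l 16069816)))) (b (a (b (c (l 16177568) (l 16044080)) (a (c (b (l 16139408) (l 16170688)) (b (a (b (l 16056656) (l 16056272)) (l 16056528)) (l 16056728))) (c (b (l 16171832) (a (l 16168256) (l 16168008))) (b (l 16058384) (a (b (l 16054024) (l 16053600)) (l 16032928)))))) (c (l 523303695) (l 520772111))) (a (c (l 16131504) (a (l 16062512) (l 16036648))) (b (a (c (b (c (l 16193608) (l 16137808))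 (l 16165648)) (b (a (b (l 16051368) (l 16050904)) (l 16035520)) (l 16051360))) (b (c (l 16166896) (l 16053160)) (c (c (l 16191112) (l 16135224)) (a (b (l 16048672) (l 16048168)) (b (l 16049744) (l 16047320)))))) (c (l 16166360) (a (l 16054856) (l 16049840))))))) (c (a (l 16155840) (a (l 16185328) (l 16176592))) (a (a (l 16092656) (l 16083592)) (a (l 16053200) (b (l 16059552) (l 16069192)))))) (c (a (l 16178416) (b (l 16155064) (l 16212840))) (a (b (l 16043280) (l 16124104)) (b (a (l 16092920) (l 16083624)) (l 16107208)))))) (b (a (l 6) (a (c (l 16249784) (l 16066920)) (c (l 16152424) (l 16093448)))) (l 6))), by decide +kernel⟩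

def k23_B00pm_001_s3 : ∃ t, chk3 f_B00pm_001_s3 t 30 28 3 = true :=
  ⟨(b (a (a (l 6) (b (c (l 16006296) (l 15894440)) (l 6))) (a (b (c (b (l 16025392) (l 16042392)) (c (l 15949184) (l 15891160))) (l 6)) (b (c (b (l 16009248) (l 16027224)) (b (l 15892520) (l 15913096))) (c (l 16012184) (l 15902096))))) (l 6)), by decide +kernel⟩

def k24_B00pm_001_s3 : ∃ t, chk3 f_B00pm_001_s3 t 31 56 6 = true :=
  ⟨(b (a (b (a (a (l 15996224) (l 15987112)) (a (l 15977648) (l 15967832))) (a (l 16010672) (a (l 15997336) (l 15988008)))) (b (a (a (c (l 15987512) (l 15927760)) (b (b (a (b (a (b (l 15943048) (l 15942696)) (b (l 15944256) (l 15941696))) (l 15943280)) (b (l 15945352) (a (b (l 15940328) (l 15939936)) (b (l 15941584) (l 15938960))))) (a (l 15947136) (l 15941856))) (l 15952400))) (a (b (b (l 15952848) (a (b (a (b (l 15937584) (l 15937144)) (b (l 15938880) (l 15936200))) (l 15937736)) (b (l 15939984) (a (b (l 15934808) (l 15934320)) (b (l 15936144)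 (l 15933416)))))) (c (l 15971808) (l 15911432))) (b (l 518130447) (b (a (b (a (b (l 15932008) (l 15931472)) (b (l 15933384) (l 15930600))) (l 15932072)) (b (l 15934496) (a (b (l 15939664) (l 15928600)) (b (l 15930592) (l 15938240))))) (c (l 15963544) (l 15902848)))))) (a (a (l 15978328) (l 15968288)) (a (b (l 15952456) (l 15963288)) (b (l 15941576) (l 15952648)))))) (a (a (l 15997120) (b (l 16012624) (l 16032464))) (a (c (l 15969928) (l 15902952)) (b (a (l 15979536) (l 15969272)) (l 15985840))))), by decide +kernel⟩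

def k25_B00pm_001_s3 : ∃ t, chk3 f_B00pm_001_s3 t 31 56 7 = true :=
  ⟨(b (a (a (c (b (l 15903232) (l 15924176)) (l 15780560)) (c (c (l 15825048) (l 15794976)) (b (l 15821528) (l 15844800)))) (b (a (a (c (l 15866848) (l 15804800)) (b (b (a (b (a (b (l 15819592) (l 15819184)) (l 15861624)) (l 15819896)) (b (l 15822584) (a (b (l 15816736) (l 15816272)) (l 15858784)))) (l 15863320)) (l 15830264))) (b (a (b (l 15825584) (a (b (a (b (l 15813848) (l 15813344)) (l 15855912)) (l 15814064)) (b (l 15816968) (a (b (l 15810944) (l 15810384)) (l 15853024))))) (l 515386895)) (a (a (l 15821504) (l 15857648)) (a (b (b (a (b (l 15808016) (l 15807400)) (b (l 15809744) (l 15848480))) (l 15808128)) (l 15812592)) (b (b (l 15811240) (a (b (l 15847000) (l 15804384)) (b (l 15806832) (l 15845512)))) (l 15848624)))))) (c (a (l 15884088) (a (l 15867552) (l 15856080))) (a (l 15823128) (l 15800000))))) (a (a (b (l 15916360) (l 15937992)) (b (l 15897616) (l 15920296)))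 (a (c (l 15855744) (l 15775912)) (b (a (l 15861344) (l 15850160)) (l 15901560))))), by decide +kernel⟩

def k26_B00pm_001_s3 : ∃ t, chk3 f_B00pm_001_s3 t 31 57 3 = true :=
  ⟨(a (l 6) (b (c (a (l 16004416) (b (l 16018152) (l 16039928))) (a (l 15905408) (b (l 15905400) (l 15930240)))) (l 6))), by decide +kernel⟩

def k27_B00pm_001_s3 : ∃ t, chk3 f_B00pm_001_s3 t 15 29 1 = true :=
  ⟨(l 6), by decide +kernel⟩

def k28_B00pm_001_s3 : ∃ t, chk3 f_B00pm_001_s3 t 7 15 1 = true :=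
  ⟨(l 6), by decide +kernel⟩

theorem t29_B00pm_001_s3 : ∃ t, chk3 f_B00pm_001_s3 t 31 56 3 = true := ex3_c k24_B00pm_001_s3 k25_B00pm_001_s3

theorem t30_B00pm_001_s3 : ∃ t, chk3 f_B00pm_001_s3 t 31 28 3 = true := ex3_b t29_B00pm_001_s3 k26_B00pm_001_s3

theorem t31_B00pm_001_s3 : ∃ t, chk3 f_B00pm_001_s3 t 15 28 3 = true := ex3_a k23_B00pm_001_s3 t30_B00pm_001_s3

theorem t32_B00pm_001_s3 : ∃ t, chk3 f_B00pm_001_s3 t 15 28 2 = true := ex3_a k21_B00pm_001_s3 k22_B00pm_001_s3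

theorem t33_B00pm_001_s3 : ∃ t, chk3 f_B00pm_001_s3 t 15 28 1 = true := ex3_c t32_B00pm_001_s3 t31_B00pm_001_s3

theorem t34_B00pm_001_s3 : ∃ t, chk3 f_B00pm_001_s3 t 15 14 1 = true := ex3_b t33_B00pm_001_s3 k27_B00pm_001_s3

theorem t35_B00pm_001_s3 : ∃ t, chk3 f_B00pm_001_s3 t 7 14 1 = true := ex3_a k20_B00pm_001_s3 t34_B00pm_001_s3

theorem t36_B00pm_001_s3 : ∃ t, chk3 f_B00pm_001_s3 t 7 7 1 = true := ex3_b t35_B00pm_001_s3 k28_B00pm_001_s3

theorem t37_B00pm_001_s3 : ∃ t, chk3 f_B00pm_001_s3 t 3 7 1 = true := ex3_a k19_B00pm_001_s3 t36_B00pm_001_s3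

theorem t38_B00pm_001_s3 : ∃ t, chk3 f_B00pm_001_s3 t 31 55 3 = true := ex3_b k17_B00pm_001_s3 k18_B00pm_001_s3

theorem t39_B00pm_001_s3 : ∃ t, chk3 f_B00pm_001_s3 t 30 55 3 = true := ex3_b k15_B00pm_001_s3 k16_B00pm_001_s3

theorem t40_B00pm_001_s3 : ∃ t, chk3 f_B00pm_001_s3 t 15 55 3 = true := ex3_a t39_B00pm_001_s3 t38_B00pm_001_s3

theorem t41_B00pm_001_s3 : ∃ t, chk3 f_B00pm_001_s3 t 15 27 3 = true := ex3_b k14_B00pm_001_s3 t40_B00pm_001_s3

theorem t42_B00pm_001_s3 : ∃ t, chk3 f_B00pm_001_s3 t 15 55 2 = true := ex3_a k12_B00pm_001_s3 k13_B00pm_001_s3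

theorem t43_B00pm_001_s3 : ∃ t, chk3 f_B00pm_001_s3 t 15 27 2 = true := ex3_b k11_B00pm_001_s3 t42_B00pm_001_s3

theorem t44_B00pm_001_s3 : ∃ t, chk3 f_B00pm_001_s3 t 15 27 1 = true := ex3_c t43_B00pm_001_s3 t41_B00pm_001_s3

theorem t45_B00pm_001_s3 : ∃ t, chk3 f_B00pm_001_s3 t 29 27 1 = true := ex3_a k9_B00pm_001_s3 k10_B00pm_001_s3

theorem t46_B00pm_001_s3 : ∃ t, chk3 f_B00pm_001_s3 t 14 27 1 = true := ex3_a k8_B00pm_001_s3 t45_B00pm_001_s3

theorem t47_B00pm_001_s3 : ∃ t, chk3 f_B00pm_001_s3 t 7 27 1 = true := ex3_a t46_B00pm_001_s3 t44_B00pm_001_s3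

theorem t48_B00pm_001_s3 : ∃ t, chk3 f_B00pm_001_s3 t 7 26 1 = true := ex3_a k6_B00pm_001_s3 k7_B00pm_001_s3

theorem t49_B00pm_001_s3 : ∃ t, chk3 f_B00pm_001_s3 t 7 13 1 = true := ex3_b t48_B00pm_001_s3 t47_B00pm_001_s3

theorem t50_B00pm_001_s3 : ∃ t, chk3 f_B00pm_001_s3 t 7 12 1 = true := ex3_a k4_B00pm_001_s3 k5_B00pm_001_s3

theorem t51_B00pm_001_s3 : ∃ t, chk3 f_B00pm_001_s3 t 7 6 1 = true := ex3_b t50_B00pm_001_s3 t49_B00pm_001_s3

theorem t52_B00pm_001_s3 : ∃ t, chk3 f_B00pm_001_s3 t 6 6 1 = true := ex3_a k2_B00pm_001_s3 k3_B00pm_001_s3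

theorem t53_B00pm_001_s3 : ∃ t, chk3 f_B00pm_001_s3 t 3 6 1 = true := ex3_a t52_B00pm_001_s3 t51_B00pm_001_s3

theorem t54_B00pm_001_s3 : ∃ t, chk3 f_B00pm_001_s3 t 3 3 1 = true := ex3_b t53_B00pm_001_s3 t37_B00pm_001_s3

theorem t55_B00pm_001_s3 : ∃ t, chk3 f_B00pm_001_s3 t 3 1 1 = true := ex3_b k1_B00pm_001_s3 t54_B00pm_001_s3

theorem t56_B00pm_001_s3 : ∃ t, chk3 f_B00pm_001_s3 t 1 1 1 = true := ex3_a k0_B00pm_001_s3 t55_B00pm_001_s3

theorem c_B00pm_001_s3 : CertF 0 536870912 536870912 536870912 991146299 28908434 false true false .up 0 0 1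
    ndB0q0 ndB0q1 pcB0 cut_B00pm_001_s3 xt_B00pm_001_s3 :=
  certF2 (fam := false) (s1 := true) (s2 := false) (a := 0) (b := 0) (c := 1) (cn := .up) (n1 := ndB0q0) (n2 := ndB0q1) (pc := pcB0) (cut := cut_B00pm_001_s3) (xt := xt_B00pm_001_s3) (P1 := 0) (W1 := 536870912) (P2 := 536870912) (W2 := 536870912) (P3 := 991146299) (W3 := 28908434)
    rfl (fun _ => rfl) t56_B00pm_001_s3

theorem s_B00pm_001_s3 {κ x : ℝ} (hκ : κ * h0 = ken x) (hx : ((991146299 : ℕ) : ℝ) / S ≤ x)
    (hx' : x ≤ (((991146299 : ℕ) : ℝ) + (28908434 : ℕ)) / S) :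
    AltB (VFD κ) PP tK tL pcB [⟨4, 0, 0, 2845415833⟩] 0 0 1 0 0 (sgb true) (sgb false) x :=
  strip_altBD (m := 2845415833) false rfl hκ (SH.κ0 hκ (SH.hx1 hx).le (SH.hx2 hx').le) (SH.hx1 hx).le (SH.hx2 hx') (covB00).cov (covB01).cov hx hx' c_B00pm_001_s3 cutB_nil ((okx hx hx').extB (T := tt) (sideB hx hx') hκ rfl rfl (.O 0 true) (.O 1 false) (Or.inl rfl))

noncomputable def cut_B00pm_011_s1 : Cut := Cut.of [[⟨4, 0, 0, 1449551462⟩], [⟨0, 0, 0, 26843545⟩, ⟨1, 1, 0, 26843545⟩, ⟨2, 1, 0, 26843545⟩]]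

noncomputable def f_B00pm_011_s1 : ℕ → ℕ → ℕ → ℕ → Bool := onCell 0 536870912 536870912 536870912 991146299 28908434
    (rowF 0 false true false .pnn 0 1 1 (qsf 0 536870912 536870912 536870912 1) ndB0q0 ndB0q1 pcB1 cut_B00pm_011_s1 Ext.none)

def k0_B00pm_011_s1 : ∃ t, chk3 f_B00pm_011_s1 t 1 1 1 = true :=
  ⟨(l 6), by decide +kernel⟩

theorem c_B00pm_011_s1 : CertF 0 536870912 536870912 536870912 991146299 28908434 false true false .pnn 0 1 1
    ndB0q0 ndB0q1 pcB1 cut_B00pm_011_s1 Ext.none :=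
  certF0 (fam := false) (s1 := true) (s2 := false) (a := 0) (b := 1) (c := 1) (cn := .pnn) (n1 := ndB0q0) (n2 := ndB0q1) (pc := pcB1) (cut := cut_B00pm_011_s1) (xt := Ext.none) (P1 := 0) (W1 := 536870912) (P2 := 536870912) (W2 := 536870912) (P3 := 991146299) (W3 := 28908434)
    rfl k0_B00pm_011_s1

theorem s_B00pm_011_s1 {κ x : ℝ} (hκ : κ * h0 = ken x) (hx : ((991146299 : ℕ) : ℝ) / S ≤ x)
    (hx' : x ≤ (((991146299 : ℕ) : ℝ) + (28908434 : ℕ)) / S)
    (H : CutB (VFD κ) PP tK tL pcB (Cut.of [[⟨0, 0, 0, 26843545⟩, ⟨1, 1, 0, 26843545⟩, ⟨2, 1, 0, 26843545⟩]]) 0 1 1 0 0 (sgb true) (sgb false) x) :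
    AltB (VFD κ) PP tK tL pcB [⟨3, 0, 0, 1449551462⟩] 0 1 1 0 0 (sgb true) (sgb false) x :=
  strip_altBD (m := 1449551462) true rfl hκ (SH.κ0 hκ (SH.hx1 hx).le (SH.hx2 hx').le) (SH.hx1 hx).le (SH.hx2 hx') (covB00).cov (covB01).cov hx hx' c_B00pm_011_s1 H (noExt_B)

end Pool.Agent.Strip051.G.I9231_9500.Tab.St.C
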