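import Pool.Agent.Strip051.G.I9231_9500.StH
import Pool.Agent.Strip051.G.I9231_9500.Sp3D
import Pool.Agent.Strip051.G.I9231_9500.StF

/-! # Unit strips 3 (generated) -/

set_option linter.all false
set_option maxRecDepth 100000

namespace Pool.Agent.Strip051.G.I9231_9500.Tab.St.C

open Pool.Agent.Strip051.PB Pool.Agent.Strip051.PB.T Pool.Agent.StripNear Pool.Agent.Strip051.LC
open Pool.Agent.Strip051.G.I9231_9500.Tab Pool.Agent.Strip051.G.I9231_9500.Tab.St

def k196_A00pm_012_s1 : ∃ t, chk3 f_A00pm_012_s1 t 3 1 1 = true :=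
  ⟨(a (b (b (l 2) (b (l 2) (a (b (l 2) (a (b (l 2) (a (l 16603512) (l 2))) (l 2))) (l 2)))) (b (a (b (b (a (b (a (l 16599728) (l 16577696)) (a (l 16595728) (l 16573744))) (b (l 2) (l 16457072))) (a (b (a (l 16591592) (l 16569664)) (l 16492592)) (b (l 16536976) (l 16449064)))) (b (a (b (l 16488344) (l 16484072)) (a (l 16453768) (l 16432256))) (a (b (l 16479792) (l 16475528)) (a (l 16446024) (l 16425000))))) (a (a (b (b (l 2) (l 16502256)) (b (l 16410728) (l 16487800))) (b (l 2) (l 6))) (l 6))) (a (b (b (a (b (a (l 16480088) (l 16544424)) (a (l 16532896) (l 16433912))) (b (l 16430544) (a (l 16502800) (l 6)))) (a (b (a (l 16478808) (l 16462744)) (a (l 16416216) (l 16398944))) (b (l 16356224) (l 6)))) (b (a (b (a (l 16344352) (l 16325480)) (a (c (l 16272016) (l 16253848)) (l 6))) (l 6)) (l 6))) (b (l 6) (l 6))))) (b (l 2) (l 6))), by decide +kernel⟩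

end Pool.Agent.Strip051.G.I9231_9500.Tab.St.C
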