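import Pool.Agent.Strip051.G.I9231_9500.StH
import Pool.Agent.Strip051.G.I9231_9500.Sp3_0
import Pool.Agent.Strip051.G.I9231_9500.Sp3_1
import Pool.Agent.Strip051.G.I9231_9500.Sp3_2
import Pool.Agent.Strip051.G.I9231_9500.StF

/-! # Unit strips 3 (generated) -/

set_option linter.all false
set_option maxRecDepth 100000

namespace Pool.Agent.Strip051.G.I9231_9500.Tab.St.C

open Pool.Agent.Strip051.PB Pool.Agent.Strip051.PB.T Pool.Agent.StripNear Pool.Agent.Strip051.LC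
open Pool.Agent.Strip051.G.I9231_9500.Tab Pool.Agent.Strip051.G.I9231_9500.Tab.St

theorem t197_A00pm_012_s1 : ∃ t, chk3 f_A00pm_012_s1 t 10 31 1 = true := ex3_b k193_A00pm_012_s1 k194_A00pm_012_s1

theorem t198_A00pm_012_s1 : ∃ t, chk3 f_A00pm_012_s1 t 167 30 1 = true := ex3_b k190_A00pm_012_s1 k191_A00pm_012_s1

theorem t199_A00pm_012_s1 : ∃ t, chk3 f_A00pm_012_s1 t 83 30 1 = true := ex3_a k189_A00pm_012_s1 t198_A00pm_012_s1

theorem t200_A00pm_012_s1 : ∃ t, chk3 f_A00pm_012_s1 t 41 30 1 = true := ex3_a k188_A00pm_012_s1 t199_A00pm_012_s1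

theorem t201_A00pm_012_s1 : ∃ t, chk3 f_A00pm_012_s1 t 20 30 1 = true := ex3_a k187_A00pm_012_s1 t200_A00pm_012_s1

theorem t202_A00pm_012_s1 : ∃ t, chk3 f_A00pm_012_s1 t 10 30 1 = true := ex3_a t201_A00pm_012_s1 k192_A00pm_012_s1

theorem t203_A00pm_012_s1 : ∃ t, chk3 f_A00pm_012_s1 t 10 15 1 = true := ex3_b t202_A00pm_012_s1 t197_A00pm_012_s1

theorem t204_A00pm_012_s1 : ∃ t, chk3 f_A00pm_012_s1 t 83 14 1 = true := ex3_b k184_A00pm_012_s1 k185_A00pm_012_s1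

theorem t205_A00pm_012_s1 : ∃ t, chk3 f_A00pm_012_s1 t 41 14 1 = true := ex3_a k183_A00pm_012_s1 t204_A00pm_012_s1

theorem t206_A00pm_012_s1 : ∃ t, chk3 f_A00pm_012_s1 t 20 14 1 = true := ex3_a k182_A00pm_012_s1 t205_A00pm_012_s1

theorem t207_A00pm_012_s1 : ∃ t, chk3 f_A00pm_012_s1 t 10 14 1 = true := ex3_a t206_A00pm_012_s1 k186_A00pm_012_s1

theorem t208_A00pm_012_s1 : ∃ t, chk3 f_A00pm_012_s1 t 10 7 1 = true := ex3_b t207_A00pm_012_s1 t203_A00pm_012_s1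

theorem t209_A00pm_012_s1 : ∃ t, chk3 f_A00pm_012_s1 t 5 7 1 = true := ex3_a t208_A00pm_012_s1 k195_A00pm_012_s1

theorem t210_A00pm_012_s1 : ∃ t, chk3 f_A00pm_012_s1 t 21 6 1 = true := ex3_a k179_A00pm_012_s1 k180_A00pm_012_s1

theorem t211_A00pm_012_s1 : ∃ t, chk3 f_A00pm_012_s1 t 167 26 1 = true := ex3_b k176_A00pm_012_s1 k177_A00pm_012_s1

theorem t212_A00pm_012_s1 : ∃ t, chk3 f_A00pm_012_s1 t 83 26 1 = true := ex3_a k175_A00pm_012_s1 t211_A00pm_012_s1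

theorem t213_A00pm_012_s1 : ∃ t, chk3 f_A00pm_012_s1 t 41 26 1 = true := ex3_a k174_A00pm_012_s1 t212_A00pm_012_s1

theorem t214_A00pm_012_s1 : ∃ t, chk3 f_A00pm_012_s1 t 41 13 1 = true := ex3_b t213_A00pm_012_s1 k178_A00pm_012_s1

theorem t215_A00pm_012_s1 : ∃ t, chk3 f_A00pm_012_s1 t 2681 51 1 = true := ex3_b k170_A00pm_012_s1 k171_A00pm_012_s1

theorem t216_A00pm_012_s1 : ∃ t, chk3 f_A00pm_012_s1 t 1340 51 1 = true := ex3_a k169_A00pm_012_s1 t215_A00pm_012_s1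

theorem t217_A00pm_012_s1 : ∃ t, chk3 f_A00pm_012_s1 t 1340 25 1 = true := ex3_b k168_A00pm_012_s1 t216_A00pm_012_s1

theorem t218_A00pm_012_s1 : ∃ t, chk3 f_A00pm_012_s1 t 670 25 1 = true := ex3_a t217_A00pm_012_s1 k172_A00pm_012_s1

theorem t219_A00pm_012_s1 : ∃ t, chk3 f_A00pm_012_s1 t 335 25 1 = true := ex3_a t218_A00pm_012_s1 k173_A00pm_012_s1

theorem t220_A00pm_012_s1 : ∃ t, chk3 f_A00pm_012_s1 t 167 25 1 = true := ex3_a k167_A00pm_012_s1 t219_A00pm_012_s1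

theorem t221_A00pm_012_s1 : ∃ t, chk3 f_A00pm_012_s1 t 167 24 1 = true := ex3_b k165_A00pm_012_s1 k166_A00pm_012_s1

theorem t222_A00pm_012_s1 : ∃ t, chk3 f_A00pm_012_s1 t 167 12 1 = true := ex3_b t221_A00pm_012_s1 t220_A00pm_012_s1

theorem t223_A00pm_012_s1 : ∃ t, chk3 f_A00pm_012_s1 t 83 12 1 = true := ex3_a k164_A00pm_012_s1 t222_A00pm_012_s1

theorem t224_A00pm_012_s1 : ∃ t, chk3 f_A00pm_012_s1 t 41 12 1 = true := ex3_a k163_A00pm_012_s1 t223_A00pm_012_s1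

theorem t225_A00pm_012_s1 : ∃ t, chk3 f_A00pm_012_s1 t 41 6 1 = true := ex3_b t224_A00pm_012_s1 t214_A00pm_012_s1

theorem t226_A00pm_012_s1 : ∃ t, chk3 f_A00pm_012_s1 t 80 49 1 = true := ex3_a k158_A00pm_012_s1 k159_A00pm_012_s1

theorem t227_A00pm_012_s1 : ∃ t, chk3 f_A00pm_012_s1 t 80 24 1 = true := ex3_b k157_A00pm_012_s1 t226_A00pm_012_s1

theorem t228_A00pm_012_s1 : ∃ t, chk3 f_A00pm_012_s1 t 80 12 1 = true := ex3_b t227_A00pm_012_s1 k160_A00pm_012_s1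

theorem t229_A00pm_012_s1 : ∃ t, chk3 f_A00pm_012_s1 t 40 12 1 = true := ex3_a t228_A00pm_012_s1 k161_A00pm_012_s1

theorem t230_A00pm_012_s1 : ∃ t, chk3 f_A00pm_012_s1 t 40 6 1 = true := ex3_b t229_A00pm_012_s1 k162_A00pm_012_s1

theorem t231_A00pm_012_s1 : ∃ t, chk3 f_A00pm_012_s1 t 20 6 1 = true := ex3_a t230_A00pm_012_s1 t225_A00pm_012_s1

theorem t232_A00pm_012_s1 : ∃ t, chk3 f_A00pm_012_s1 t 10 6 1 = true := ex3_a t231_A00pm_012_s1 t210_A00pm_012_s1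

theorem t233_A00pm_012_s1 : ∃ t, chk3 f_A00pm_012_s1 t 5 6 1 = true := ex3_a t232_A00pm_012_s1 k181_A00pm_012_s1

theorem t234_A00pm_012_s1 : ∃ t, chk3 f_A00pm_012_s1 t 5 3 1 = true := ex3_b t233_A00pm_012_s1 t209_A00pm_012_s1

theorem t235_A00pm_012_s1 : ∃ t, chk3 f_A00pm_012_s1 t 21 5 1 = true := ex3_b k154_A00pm_012_s1 k155_A00pm_012_s1

theorem t236_A00pm_012_s1 : ∃ t, chk3 f_A00pm_012_s1 t 334 23 1 = true := ex3_b k151_A00pm_012_s1 k152_A00pm_012_s1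

theorem t237_A00pm_012_s1 : ∃ t, chk3 f_A00pm_012_s1 t 167 23 1 = true := ex3_a t236_A00pm_012_s1 k153_A00pm_012_s1

theorem t238_A00pm_012_s1 : ∃ t, chk3 f_A00pm_012_s1 t 167 22 1 = true := ex3_b k149_A00pm_012_s1 k150_A00pm_012_s1

theorem t239_A00pm_012_s1 : ∃ t, chk3 f_A00pm_012_s1 t 167 11 1 = true := ex3_b t238_A00pm_012_s1 t237_A00pm_012_s1

theorem t240_A00pm_012_s1 : ∃ t, chk3 f_A00pm_012_s1 t 83 11 1 = true := ex3_a k148_A00pm_012_s1 t239_A00pm_012_s1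

theorem t241_A00pm_012_s1 : ∃ t, chk3 f_A00pm_012_s1 t 41 11 1 = true := ex3_a k147_A00pm_012_s1 t240_A00pm_012_s1

theorem t242_A00pm_012_s1 : ∃ t, chk3 f_A00pm_012_s1 t 20 11 1 = true := ex3_a k146_A00pm_012_s1 t241_A00pm_012_s1

theorem t243_A00pm_012_s1 : ∃ t, chk3 f_A00pm_012_s1 t 20 5 1 = true := ex3_b k145_A00pm_012_s1 t242_A00pm_012_s1

theorem t244_A00pm_012_s1 : ∃ t, chk3 f_A00pm_012_s1 t 10 5 1 = true := ex3_a t243_A00pm_012_s1 t235_A00pm_012_s1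

theorem t245_A00pm_012_s1 : ∃ t, chk3 f_A00pm_012_s1 t 5 5 1 = true := ex3_a t244_A00pm_012_s1 k156_A00pm_012_s1

theorem t246_A00pm_012_s1 : ∃ t, chk3 f_A00pm_012_s1 t 5 2 1 = true := ex3_b k144_A00pm_012_s1 t245_A00pm_012_s1

theorem t247_A00pm_012_s1 : ∃ t, chk3 f_A00pm_012_s1 t 5 1 1 = true := ex3_b t246_A00pm_012_s1 t234_A00pm_012_s1

theorem t248_A00pm_012_s1 : ∃ t, chk3 f_A00pm_012_s1 t 9 30 1 = true := ex3_a k141_A00pm_012_s1 k142_A00pm_012_s1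

theorem t249_A00pm_012_s1 : ∃ t, chk3 f_A00pm_012_s1 t 9 15 1 = true := ex3_b t248_A00pm_012_s1 k143_A00pm_012_s1

theorem t250_A00pm_012_s1 : ∃ t, chk3 f_A00pm_012_s1 t 19 28 1 = true := ex3_a k138_A00pm_012_s1 k139_A00pm_012_s1

theorem t251_A00pm_012_s1 : ∃ t, chk3 f_A00pm_012_s1 t 19 14 1 = true := ex3_b t250_A00pm_012_s1 k140_A00pm_012_s1

theorem t252_A00pm_012_s1 : ∃ t, chk3 f_A00pm_012_s1 t 37 29 1 = true := ex3_b k136_A00pm_012_s1 k137_A00pm_012_s1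

theorem t253_A00pm_012_s1 : ∃ t, chk3 f_A00pm_012_s1 t 36 29 1 = true := ex3_b k134_A00pm_012_s1 k135_A00pm_012_s1

theorem t254_A00pm_012_s1 : ∃ t, chk3 f_A00pm_012_s1 t 18 29 1 = true := ex3_a t253_A00pm_012_s1 t252_A00pm_012_s1

theorem t255_A00pm_012_s1 : ∃ t, chk3 f_A00pm_012_s1 t 37 28 1 = true := ex3_b k132_A00pm_012_s1 k133_A00pm_012_s1

theorem t256_A00pm_012_s1 : ∃ t, chk3 f_A00pm_012_s1 t 18 28 1 = true := ex3_a k131_A00pm_012_s1 t255_A00pm_012_s1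

theorem t257_A00pm_012_s1 : ∃ t, chk3 f_A00pm_012_s1 t 18 14 1 = true := ex3_b t256_A00pm_012_s1 t254_A00pm_012_s1

theorem t258_A00pm_012_s1 : ∃ t, chk3 f_A00pm_012_s1 t 9 14 1 = true := ex3_a t257_A00pm_012_s1 t251_A00pm_012_s1

theorem t259_A00pm_012_s1 : ∃ t, chk3 f_A00pm_012_s1 t 9 7 1 = true := ex3_b t258_A00pm_012_s1 t249_A00pm_012_s1

theorem t260_A00pm_012_s1 : ∃ t, chk3 f_A00pm_012_s1 t 17 63 1 = true := ex3_a k129_A00pm_012_s1 k130_A00pm_012_s1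

theorem t261_A00pm_012_s1 : ∃ t, chk3 f_A00pm_012_s1 t 544 997 8 = true := ex3_a k117_A00pm_012_s1 k118_A00pm_012_s1

theorem t262_A00pm_012_s1 : ∃ t, chk3 f_A00pm_012_s1 t 272 997 8 = true := ex3_a t261_A00pm_012_s1 k119_A00pm_012_s1

theorem t263_A00pm_012_s1 : ∃ t, chk3 f_A00pm_012_s1 t 272 997 4 = true := ex3_c t262_A00pm_012_s1 k120_A00pm_012_s1

theorem t264_A00pm_012_s1 : ∃ t, chk3 f_A00pm_012_s1 t 272 498 4 = true := ex3_b k116_A00pm_012_s1 t263_A00pm_012_s1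

theorem t265_A00pm_012_s1 : ∃ t, chk3 f_A00pm_012_s1 t 272 249 4 = true := ex3_b t264_A00pm_012_s1 k121_A00pm_012_s1

theorem t266_A00pm_012_s1 : ∃ t, chk3 f_A00pm_012_s1 t 272 249 2 = true := ex3_c t265_A00pm_012_s1 k122_A00pm_012_s1

theorem t267_A00pm_012_s1 : ∃ t, chk3 f_A00pm_012_s1 t 136 249 2 = true := ex3_a t266_A00pm_012_s1 k123_A00pm_012_s1

theorem t268_A00pm_012_s1 : ∃ t, chk3 f_A00pm_012_s1 t 136 249 1 = true := ex3_c t267_A00pm_012_s1 k124_A00pm_012_s1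

theorem t269_A00pm_012_s1 : ∃ t, chk3 f_A00pm_012_s1 t 136 248 2 = true := ex3_c k113_A00pm_012_s1 k114_A00pm_012_s1

theorem t270_A00pm_012_s1 : ∃ t, chk3 f_A00pm_012_s1 t 136 248 1 = true := ex3_c t269_A00pm_012_s1 k115_A00pm_012_s1

theorem t271_A00pm_012_s1 : ∃ t, chk3 f_A00pm_012_s1 t 136 124 1 = true := ex3_b t270_A00pm_012_s1 t268_A00pm_012_s1

theorem t272_A00pm_012_s1 : ∃ t, chk3 f_A00pm_012_s1 t 68 124 1 = true := ex3_a t271_A00pm_012_s1 k125_A00pm_012_s1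

theorem t273_A00pm_012_s1 : ∃ t, chk3 f_A00pm_012_s1 t 34 124 1 = true := ex3_a t272_A00pm_012_s1 k126_A00pm_012_s1

theorem t274_A00pm_012_s1 : ∃ t, chk3 f_A00pm_012_s1 t 34 62 1 = true := ex3_b t273_A00pm_012_s1 k127_A00pm_012_s1

theorem t275_A00pm_012_s1 : ∃ t, chk3 f_A00pm_012_s1 t 17 62 1 = true := ex3_a t274_A00pm_012_s1 k128_A00pm_012_s1

theorem t276_A00pm_012_s1 : ∃ t, chk3 f_A00pm_012_s1 t 17 31 1 = true := ex3_b t275_A00pm_012_s1 t260_A00pm_012_s1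

theorem t277_A00pm_012_s1 : ∃ t, chk3 f_A00pm_012_s1 t 35 30 1 = true := ex3_b k111_A00pm_012_s1 k112_A00pm_012_s1

theorem t278_A00pm_012_s1 : ∃ t, chk3 f_A00pm_012_s1 t 69 61 1 = true := ex3_b k109_A00pm_012_s1 k110_A00pm_012_s1

theorem t279_A00pm_012_s1 : ∃ t, chk3 f_A00pm_012_s1 t 68 61 1 = true := ex3_a k107_A00pm_012_s1 k108_A00pm_012_s1

theorem t280_A00pm_012_s1 : ∃ t, chk3 f_A00pm_012_s1 t 34 61 1 = true := ex3_a t279_A00pm_012_s1 t278_A00pm_012_s1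

theorem t281_A00pm_012_s1 : ∃ t, chk3 f_A00pm_012_s1 t 34 30 1 = true := ex3_b k106_A00pm_012_s1 t280_A00pm_012_s1

theorem t282_A00pm_012_s1 : ∃ t, chk3 f_A00pm_012_s1 t 17 30 1 = true := ex3_a t281_A00pm_012_s1 t277_A00pm_012_s1

theorem t283_A00pm_012_s1 : ∃ t, chk3 f_A00pm_012_s1 t 17 15 1 = true := ex3_b t282_A00pm_012_s1 t276_A00pm_012_s1

theorem t284_A00pm_012_s1 : ∃ t, chk3 f_A00pm_012_s1 t 66 253 1 = true := ex3_a k102_A00pm_012_s1 k103_A00pm_012_s1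

theorem t285_A00pm_012_s1 : ∃ t, chk3 f_A00pm_012_s1 t 264 505 2 = true := ex3_b k97_A00pm_012_s1 k98_A00pm_012_s1

theorem t286_A00pm_012_s1 : ∃ t, chk3 f_A00pm_012_s1 t 264 505 1 = true := ex3_c t285_A00pm_012_s1 k99_A00pm_012_s1

theorem t287_A00pm_012_s1 : ∃ t, chk3 f_A00pm_012_s1 t 132 505 1 = true := ex3_a t286_A00pm_012_s1 k100_A00pm_012_s1

theorem t288_A00pm_012_s1 : ∃ t, chk3 f_A00pm_012_s1 t 265 1009 1 = true := ex3_a k95_A00pm_012_s1 k96_A00pm_012_s1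

theorem t289_A00pm_012_s1 : ∃ t, chk3 f_A00pm_012_s1 t 265 504 1 = true := ex3_b k94_A00pm_012_s1 t288_A00pm_012_s1

theorem t290_A00pm_012_s1 : ∃ t, chk3 f_A00pm_012_s1 t 132 504 1 = true := ex3_a k93_A00pm_012_s1 t289_A00pm_012_s1

theorem t291_A00pm_012_s1 : ∃ t, chk3 f_A00pm_012_s1 t 132 252 1 = true := ex3_b t290_A00pm_012_s1 t287_A00pm_012_s1

theorem t292_A00pm_012_s1 : ∃ t, chk3 f_A00pm_012_s1 t 66 252 1 = true := ex3_a t291_A00pm_012_s1 k101_A00pm_012_s1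

theorem t293_A00pm_012_s1 : ∃ t, chk3 f_A00pm_012_s1 t 66 126 1 = true := ex3_b t292_A00pm_012_s1 t284_A00pm_012_s1

theorem t294_A00pm_012_s1 : ∃ t, chk3 f_A00pm_012_s1 t 33 126 1 = true := ex3_a t293_A00pm_012_s1 k104_A00pm_012_s1

theorem t295_A00pm_012_s1 : ∃ t, chk3 f_A00pm_012_s1 t 33 63 1 = true := ex3_b t294_A00pm_012_s1 k105_A00pm_012_s1

theorem t296_A00pm_012_s1 : ∃ t, chk3 f_A00pm_012_s1 t 261 1016 1 = true := ex3_c k87_A00pm_012_s1 k88_A00pm_012_s1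

theorem t297_A00pm_012_s1 : ∃ t, chk3 f_A00pm_012_s1 t 261 508 1 = true := ex3_b t296_A00pm_012_s1 k89_A00pm_012_s1

theorem t298_A00pm_012_s1 : ∃ t, chk3 f_A00pm_012_s1 t 521 1016 3 = true := ex3_b k84_A00pm_012_s1 k85_A00pm_012_s1

theorem t299_A00pm_012_s1 : ∃ t, chk3 f_A00pm_012_s1 t 521 1016 2 = true := ex3_a k82_A00pm_012_s1 k83_A00pm_012_s1

theorem t300_A00pm_012_s1 : ∃ t, chk3 f_A00pm_012_s1 t 521 1016 1 = true := ex3_c t299_A00pm_012_s1 t298_A00pm_012_s1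

theorem t301_A00pm_012_s1 : ∃ t, chk3 f_A00pm_012_s1 t 260 1016 1 = true := ex3_a k81_A00pm_012_s1 t300_A00pm_012_s1

theorem t302_A00pm_012_s1 : ∃ t, chk3 f_A00pm_012_s1 t 260 508 1 = true := ex3_b t301_A00pm_012_s1 k86_A00pm_012_s1

theorem t303_A00pm_012_s1 : ∃ t, chk3 f_A00pm_012_s1 t 130 508 1 = true := ex3_a t302_A00pm_012_s1 t297_A00pm_012_s1

theorem t304_A00pm_012_s1 : ∃ t, chk3 f_A00pm_012_s1 t 130 254 1 = true := ex3_b t303_A00pm_012_s1 k90_A00pm_012_s1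

theorem t305_A00pm_012_s1 : ∃ t, chk3 f_A00pm_012_s1 t 65 254 1 = true := ex3_a t304_A00pm_012_s1 k91_A00pm_012_s1

theorem t306_A00pm_012_s1 : ∃ t, chk3 f_A00pm_012_s1 t 65 127 1 = true := ex3_b t305_A00pm_012_s1 k92_A00pm_012_s1

theorem t307_A00pm_012_s1 : ∃ t, chk3 f_A00pm_012_s1 t 32 127 1 = true := ex3_a k80_A00pm_012_s1 t306_A00pm_012_s1

theorem t308_A00pm_012_s1 : ∃ t, chk3 f_A00pm_012_s1 t 524 507 1 = true := ex3_c k76_A00pm_012_s1 k77_A00pm_012_s1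

theorem t309_A00pm_012_s1 : ∃ t, chk3 f_A00pm_012_s1 t 262 507 1 = true := ex3_a t308_A00pm_012_s1 k78_A00pm_012_s1

theorem t310_A00pm_012_s1 : ∃ t, chk3 f_A00pm_012_s1 t 131 507 1 = true := ex3_a t309_A00pm_012_s1 k79_A00pm_012_s1

theorem t311_A00pm_012_s1 : ∃ t, chk3 f_A00pm_012_s1 t 263 506 2 = true := ex3_a k73_A00pm_012_s1 k74_A00pm_012_s1

theorem t312_A00pm_012_s1 : ∃ t, chk3 f_A00pm_012_s1 t 263 506 1 = true := ex3_c t311_A00pm_012_s1 k75_A00pm_012_s1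

theorem t313_A00pm_012_s1 : ∃ t, chk3 f_A00pm_012_s1 t 525 1013 1 = true := ex3_a k71_A00pm_012_s1 k72_A00pm_012_s1

theorem t314_A00pm_012_s1 : ∃ t, chk3 f_A00pm_012_s1 t 525 506 1 = true := ex3_b k70_A00pm_012_s1 t313_A00pm_012_s1

theorem t315_A00pm_012_s1 : ∃ t, chk3 f_A00pm_012_s1 t 262 506 1 = true := ex3_a k69_A00pm_012_s1 t314_A00pm_012_s1

theorem t316_A00pm_012_s1 : ∃ t, chk3 f_A00pm_012_s1 t 131 506 1 = true := ex3_a t315_A00pm_012_s1 t312_A00pm_012_s1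

theorem t317_A00pm_012_s1 : ∃ t, chk3 f_A00pm_012_s1 t 131 253 1 = true := ex3_b t316_A00pm_012_s1 t310_A00pm_012_s1

theorem t318_A00pm_012_s1 : ∃ t, chk3 f_A00pm_012_s1 t 1046 1015 1 = true := ex3_c k66_A00pm_012_s1 k67_A00pm_012_s1

theorem t319_A00pm_012_s1 : ∃ t, chk3 f_A00pm_012_s1 t 523 1015 1 = true := ex3_a t318_A00pm_012_s1 k68_A00pm_012_s1

theorem t320_A00pm_012_s1 : ∃ t, chk3 f_A00pm_012_s1 t 523 507 1 = true := ex3_b k65_A00pm_012_s1 t319_A00pm_012_s1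

theorem t321_A00pm_012_s1 : ∃ t, chk3 f_A00pm_012_s1 t 522 1015 1 = true := ex3_c k63_A00pm_012_s1 k64_A00pm_012_s1

theorem t322_A00pm_012_s1 : ∃ t, chk3 f_A00pm_012_s1 t 522 507 1 = true := ex3_b k62_A00pm_012_s1 t321_A00pm_012_s1

theorem t323_A00pm_012_s1 : ∃ t, chk3 f_A00pm_012_s1 t 261 507 1 = true := ex3_a t322_A00pm_012_s1 t320_A00pm_012_s1

theorem t324_A00pm_012_s1 : ∃ t, chk3 f_A00pm_012_s1 t 260 507 1 = true := ex3_b k60_A00pm_012_s1 k61_A00pm_012_s1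

theorem t325_A00pm_012_s1 : ∃ t, chk3 f_A00pm_012_s1 t 130 507 1 = true := ex3_a t324_A00pm_012_s1 t323_A00pm_012_s1

theorem t326_A00pm_012_s1 : ∃ t, chk3 f_A00pm_012_s1 t 130 253 1 = true := ex3_b k59_A00pm_012_s1 t325_A00pm_012_s1

theorem t327_A00pm_012_s1 : ∃ t, chk3 f_A00pm_012_s1 t 65 253 1 = true := ex3_a t326_A00pm_012_s1 t317_A00pm_012_s1

theorem t328_A00pm_012_s1 : ∃ t, chk3 f_A00pm_012_s1 t 263 505 1 = true := ex3_c k57_A00pm_012_s1 k58_A00pm_012_s1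

theorem t329_A00pm_012_s1 : ∃ t, chk3 f_A00pm_012_s1 t 131 505 1 = true := ex3_a k56_A00pm_012_s1 t328_A00pm_012_s1

theorem t330_A00pm_012_s1 : ∃ t, chk3 f_A00pm_012_s1 t 131 252 1 = true := ex3_b k55_A00pm_012_s1 t329_A00pm_012_s1

theorem t331_A00pm_012_s1 : ∃ t, chk3 f_A00pm_012_s1 t 65 252 1 = true := ex3_a k54_A00pm_012_s1 t330_A00pm_012_s1

theorem t332_A00pm_012_s1 : ∃ t, chk3 f_A00pm_012_s1 t 65 126 1 = true := ex3_b t331_A00pm_012_s1 t327_A00pm_012_s1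

theorem t333_A00pm_012_s1 : ∃ t, chk3 f_A00pm_012_s1 t 32 126 1 = true := ex3_a k53_A00pm_012_s1 t332_A00pm_012_s1

theorem t334_A00pm_012_s1 : ∃ t, chk3 f_A00pm_012_s1 t 32 63 1 = true := ex3_b t333_A00pm_012_s1 t307_A00pm_012_s1

theorem t335_A00pm_012_s1 : ∃ t, chk3 f_A00pm_012_s1 t 16 63 1 = true := ex3_a t334_A00pm_012_s1 t295_A00pm_012_s1

theorem t336_A00pm_012_s1 : ∃ t, chk3 f_A00pm_012_s1 t 270 500 4 = true := ex3_a k46_A00pm_012_s1 k47_A00pm_012_s1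

theorem t337_A00pm_012_s1 : ∃ t, chk3 f_A00pm_012_s1 t 270 500 2 = true := ex3_c t336_A00pm_012_s1 k48_A00pm_012_s1

theorem t338_A00pm_012_s1 : ∃ t, chk3 f_A00pm_012_s1 t 270 500 1 = true := ex3_c t337_A00pm_012_s1 k49_A00pm_012_s1

theorem t339_A00pm_012_s1 : ∃ t, chk3 f_A00pm_012_s1 t 270 250 1 = true := ex3_b t338_A00pm_012_s1 k50_A00pm_012_s1

theorem t340_A00pm_012_s1 : ∃ t, chk3 f_A00pm_012_s1 t 135 250 1 = true := ex3_a t339_A00pm_012_s1 k51_A00pm_012_s1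

theorem t341_A00pm_012_s1 : ∃ t, chk3 f_A00pm_012_s1 t 135 125 1 = true := ex3_b t340_A00pm_012_s1 k52_A00pm_012_s1

theorem t342_A00pm_012_s1 : ∃ t, chk3 f_A00pm_012_s1 t 134 251 1 = true := ex3_a k44_A00pm_012_s1 k45_A00pm_012_s1

theorem t343_A00pm_012_s1 : ∃ t, chk3 f_A00pm_012_s1 t 269 250 1 = true := ex3_b k42_A00pm_012_s1 k43_A00pm_012_s1

theorem t344_A00pm_012_s1 : ∃ t, chk3 f_A00pm_012_s1 t 134 250 1 = true := ex3_a k41_A00pm_012_s1 t343_A00pm_012_s1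

theorem t345_A00pm_012_s1 : ∃ t, chk3 f_A00pm_012_s1 t 134 125 1 = true := ex3_b t344_A00pm_012_s1 t342_A00pm_012_s1

theorem t346_A00pm_012_s1 : ∃ t, chk3 f_A00pm_012_s1 t 67 125 1 = true := ex3_a t345_A00pm_012_s1 t341_A00pm_012_s1

theorem t347_A00pm_012_s1 : ∃ t, chk3 f_A00pm_012_s1 t 271 999 4 = true := ex3_c k37_A00pm_012_s1 k38_A00pm_012_s1

theorem t348_A00pm_012_s1 : ∃ t, chk3 f_A00pm_012_s1 t 543 998 4 = true := ex3_a k35_A00pm_012_s1 k36_A00pm_012_s1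

theorem t349_A00pm_012_s1 : ∃ t, chk3 f_A00pm_012_s1 t 271 998 4 = true := ex3_a k34_A00pm_012_s1 t348_A00pm_012_s1

theorem t350_A00pm_012_s1 : ∃ t, chk3 f_A00pm_012_s1 t 271 499 4 = true := ex3_b t349_A00pm_012_s1 t347_A00pm_012_s1

theorem t351_A00pm_012_s1 : ∃ t, chk3 f_A00pm_012_s1 t 271 499 2 = true := ex3_c t350_A00pm_012_s1 k39_A00pm_012_s1

theorem t352_A00pm_012_s1 : ∃ t, chk3 f_A00pm_012_s1 t 271 249 2 = true := ex3_b k33_A00pm_012_s1 t351_A00pm_012_s1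

theorem t353_A00pm_012_s1 : ∃ t, chk3 f_A00pm_012_s1 t 271 249 1 = true := ex3_c t352_A00pm_012_s1 k40_A00pm_012_s1

theorem t354_A00pm_012_s1 : ∃ t, chk3 f_A00pm_012_s1 t 270 249 1 = true := ex3_b k31_A00pm_012_s1 k32_A00pm_012_s1

theorem t355_A00pm_012_s1 : ∃ t, chk3 f_A00pm_012_s1 t 135 249 1 = true := ex3_a t354_A00pm_012_s1 t353_A00pm_012_s1

theorem t356_A00pm_012_s1 : ∃ t, chk3 f_A00pm_012_s1 t 67 249 1 = true := ex3_a k30_A00pm_012_s1 t355_A00pm_012_s1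

theorem t357_A00pm_012_s1 : ∃ t, chk3 f_A00pm_012_s1 t 67 124 1 = true := ex3_b k29_A00pm_012_s1 t356_A00pm_012_s1

theorem t358_A00pm_012_s1 : ∃ t, chk3 f_A00pm_012_s1 t 67 62 1 = true := ex3_b t357_A00pm_012_s1 t346_A00pm_012_s1

theorem t359_A00pm_012_s1 : ∃ t, chk3 f_A00pm_012_s1 t 267 502 1 = true := ex3_c k26_A00pm_012_s1 k27_A00pm_012_s1

theorem t360_A00pm_012_s1 : ∃ t, chk3 f_A00pm_012_s1 t 267 251 1 = true := ex3_b t359_A00pm_012_s1 k28_A00pm_012_s1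

theorem t361_A00pm_012_s1 : ∃ t, chk3 f_A00pm_012_s1 t 266 503 1 = true := ex3_a k24_A00pm_012_s1 k25_A00pm_012_s1

theorem t362_A00pm_012_s1 : ∃ t, chk3 f_A00pm_012_s1 t 266 251 1 = true := ex3_b k23_A00pm_012_s1 t361_A00pm_012_s1

theorem t363_A00pm_012_s1 : ∃ t, chk3 f_A00pm_012_s1 t 133 251 1 = true := ex3_a t362_A00pm_012_s1 t360_A00pm_012_s1

theorem t364_A00pm_012_s1 : ∃ t, chk3 f_A00pm_012_s1 t 66 251 1 = true := ex3_a k22_A00pm_012_s1 t363_A00pm_012_s1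

theorem t365_A00pm_012_s1 : ∃ t, chk3 f_A00pm_012_s1 t 66 125 1 = true := ex3_b k21_A00pm_012_s1 t364_A00pm_012_s1

theorem t366_A00pm_012_s1 : ∃ t, chk3 f_A00pm_012_s1 t 66 62 1 = true := ex3_b k20_A00pm_012_s1 t365_A00pm_012_s1

theorem t367_A00pm_012_s1 : ∃ t, chk3 f_A00pm_012_s1 t 33 62 1 = true := ex3_a t366_A00pm_012_s1 t358_A00pm_012_s1

theorem t368_A00pm_012_s1 : ∃ t, chk3 f_A00pm_012_s1 t 16 62 1 = true := ex3_a k19_A00pm_012_s1 t367_A00pm_012_s1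

theorem t369_A00pm_012_s1 : ∃ t, chk3 f_A00pm_012_s1 t 16 31 1 = true := ex3_b t368_A00pm_012_s1 t335_A00pm_012_s1

theorem t370_A00pm_012_s1 : ∃ t, chk3 f_A00pm_012_s1 t 16 15 1 = true := ex3_b k18_A00pm_012_s1 t369_A00pm_012_s1

theorem t371_A00pm_012_s1 : ∃ t, chk3 f_A00pm_012_s1 t 8 15 1 = true := ex3_a t370_A00pm_012_s1 t283_A00pm_012_s1

theorem t372_A00pm_012_s1 : ∃ t, chk3 f_A00pm_012_s1 t 8 7 1 = true := ex3_b k17_A00pm_012_s1 t371_A00pm_012_s1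

theorem t373_A00pm_012_s1 : ∃ t, chk3 f_A00pm_012_s1 t 4 7 1 = true := ex3_a t372_A00pm_012_s1 t259_A00pm_012_s1

theorem t374_A00pm_012_s1 : ∃ t, chk3 f_A00pm_012_s1 t 39 13 3 = true := ex3_b k15_A00pm_012_s1 k16_A00pm_012_s1

theorem t375_A00pm_012_s1 : ∃ t, chk3 f_A00pm_012_s1 t 76 27 3 = true := ex3_b k12_A00pm_012_s1 k13_A00pm_012_s1

theorem t376_A00pm_012_s1 : ∃ t, chk3 f_A00pm_012_s1 t 38 27 3 = true := ex3_a t375_A00pm_012_s1 k14_A00pm_012_s1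

theorem t377_A00pm_012_s1 : ∃ t, chk3 f_A00pm_012_s1 t 38 13 3 = true := ex3_b k11_A00pm_012_s1 t376_A00pm_012_s1

theorem t378_A00pm_012_s1 : ∃ t, chk3 f_A00pm_012_s1 t 19 13 3 = true := ex3_a t377_A00pm_012_s1 t374_A00pm_012_s1

theorem t379_A00pm_012_s1 : ∃ t, chk3 f_A00pm_012_s1 t 19 6 3 = true := ex3_b k10_A00pm_012_s1 t378_A00pm_012_s1

theorem t380_A00pm_012_s1 : ∃ t, chk3 f_A00pm_012_s1 t 9 6 3 = true := ex3_a k9_A00pm_012_s1 t379_A00pm_012_s1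

theorem t381_A00pm_012_s1 : ∃ t, chk3 f_A00pm_012_s1 t 39 13 2 = true := ex3_b k7_A00pm_012_s1 k8_A00pm_012_s1

theorem t382_A00pm_012_s1 : ∃ t, chk3 f_A00pm_012_s1 t 38 27 2 = true := ex3_a k5_A00pm_012_s1 k6_A00pm_012_s1

theorem t383_A00pm_012_s1 : ∃ t, chk3 f_A00pm_012_s1 t 38 13 2 = true := ex3_b k4_A00pm_012_s1 t382_A00pm_012_s1

theorem t384_A00pm_012_s1 : ∃ t, chk3 f_A00pm_012_s1 t 19 13 2 = true := ex3_a t383_A00pm_012_s1 t381_A00pm_012_s1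

theorem t385_A00pm_012_s1 : ∃ t, chk3 f_A00pm_012_s1 t 19 6 2 = true := ex3_b k3_A00pm_012_s1 t384_A00pm_012_s1

theorem t386_A00pm_012_s1 : ∃ t, chk3 f_A00pm_012_s1 t 9 6 2 = true := ex3_a k2_A00pm_012_s1 t385_A00pm_012_s1

theorem t387_A00pm_012_s1 : ∃ t, chk3 f_A00pm_012_s1 t 9 6 1 = true := ex3_c t386_A00pm_012_s1 t380_A00pm_012_s1

theorem t388_A00pm_012_s1 : ∃ t, chk3 f_A00pm_012_s1 t 4 6 1 = true := ex3_a k1_A00pm_012_s1 t387_A00pm_012_s1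

theorem t389_A00pm_012_s1 : ∃ t, chk3 f_A00pm_012_s1 t 4 3 1 = true := ex3_b t388_A00pm_012_s1 t373_A00pm_012_s1

theorem t390_A00pm_012_s1 : ∃ t, chk3 f_A00pm_012_s1 t 4 1 1 = true := ex3_b k0_A00pm_012_s1 t389_A00pm_012_s1

theorem t391_A00pm_012_s1 : ∃ t, chk3 f_A00pm_012_s1 t 2 1 1 = true := ex3_a t390_A00pm_012_s1 t247_A00pm_012_s1

theorem t392_A00pm_012_s1 : ∃ t, chk3 f_A00pm_012_s1 t 1 1 1 = true := ex3_a t391_A00pm_012_s1 k196_A00pm_012_s1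

theorem c_A00pm_012_s1 : CertF 0 536870912 536870912 536870912 991146299 28908434 true true false .pnp 0 1 2
    ndB0q0 ndB0q1 pcB2 cut_A00pm_012_s1 xt_A00pm_012_s1 :=
  certF2 (fam := true) (s1 := true) (s2 := false) (a := 0) (b := 1) (c := 2) (cn := .pnp) (n1 := ndB0q0) (n2 := ndB0q1) (pc := pcB2) (cut := cut_A00pm_012_s1) (xt := xt_A00pm_012_s1) (P1 := 0) (W1 := 536870912) (P2 := 536870912) (W2 := 536870912) (P3 := 991146299) (W3 := 28908434)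
    rfl (fun _ => rfl) t392_A00pm_012_s1

theorem s_A00pm_012_s1 {κ x : ℝ} (hκ : κ * h0 = ken x) (hx : ((991146299 : ℕ) : ℝ) / S ≤ x)
    (hx' : x ≤ (((991146299 : ℕ) : ℝ) + (28908434 : ℕ)) / S)
    (H : CutA (VFD κ) PP tK tL pcB (Cut.of [[⟨0, 0, 0, 16777216⟩, ⟨1, 1, 0, 16777216⟩, ⟨2, 1, 0, 16777216⟩]]) 0 1 2 0 0 (sgb true) (sgb false) x) :
    AltA (VFD κ) PP tK tL pcB [⟨3, 0, 0, 1449551462⟩] 0 1 2 0 0 (sgb true) (sgb false) x :=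
  strip_altAD (m := 1449551462) true rfl hκ (SH.κ0 hκ (SH.hx1 hx).le (SH.hx2 hx').le) (SH.hx1 hx).le (SH.hx2 hx') (covB00).cov (covB01).cov hx hx' c_A00pm_012_s1 H ((okx hx hx').extA (T := tt) (sideB hx hx') hκ rfl rfl (.O 0 true) (.O 1 false) rfl)

end Pool.Agent.Strip051.G.I9231_9500.Tab.St.C
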