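import Pool.Agent.Strip051.G.I9231_9500.StH
import Pool.Agent.Strip051.G.I9231_9500.Sp5_0
import Pool.Agent.Strip051.G.I9231_9500.Sp5_1
import Pool.Agent.Strip051.G.I9231_9500.Sp5_2
import Pool.Agent.Strip051.G.I9231_9500.StF

/-! # Unit strips 5 (generated) -/

set_option linter.all false
set_option maxRecDepth 100000

namespace Pool.Agent.Strip051.G.I9231_9500.Tab.St.C

open Pool.Agent.Strip051.PB Pool.Agent.Strip051.PB.T Pool.Agent.StripNear Pool.Agent.Strip051.LC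
open Pool.Agent.Strip051.G.I9231_9500.Tab Pool.Agent.Strip051.G.I9231_9500.Tab.St

theorem t209_A00pm_102_s1 : ∃ t, chk3 f_A00pm_102_s1 t 31 10 1 = true := ex3_a k205_A00pm_102_s1 k206_A00pm_102_s1

theorem t210_A00pm_102_s1 : ∃ t, chk3 f_A00pm_102_s1 t 30 167 1 = true := ex3_a k202_A00pm_102_s1 k203_A00pm_102_s1

theorem t211_A00pm_102_s1 : ∃ t, chk3 f_A00pm_102_s1 t 30 83 1 = true := ex3_b k201_A00pm_102_s1 t210_A00pm_102_s1

theorem t212_A00pm_102_s1 : ∃ t, chk3 f_A00pm_102_s1 t 30 41 1 = true := ex3_b k200_A00pm_102_s1 t211_A00pm_102_s1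

theorem t213_A00pm_102_s1 : ∃ t, chk3 f_A00pm_102_s1 t 30 20 1 = true := ex3_b k199_A00pm_102_s1 t212_A00pm_102_s1

theorem t214_A00pm_102_s1 : ∃ t, chk3 f_A00pm_102_s1 t 30 10 1 = true := ex3_b t213_A00pm_102_s1 k204_A00pm_102_s1

theorem t215_A00pm_102_s1 : ∃ t, chk3 f_A00pm_102_s1 t 15 10 1 = true := ex3_a t214_A00pm_102_s1 t209_A00pm_102_s1

theorem t216_A00pm_102_s1 : ∃ t, chk3 f_A00pm_102_s1 t 14 83 1 = true := ex3_a k196_A00pm_102_s1 k197_A00pm_102_s1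

theorem t217_A00pm_102_s1 : ∃ t, chk3 f_A00pm_102_s1 t 14 41 1 = true := ex3_b k195_A00pm_102_s1 t216_A00pm_102_s1

theorem t218_A00pm_102_s1 : ∃ t, chk3 f_A00pm_102_s1 t 14 20 1 = true := ex3_b k194_A00pm_102_s1 t217_A00pm_102_s1

theorem t219_A00pm_102_s1 : ∃ t, chk3 f_A00pm_102_s1 t 14 10 1 = true := ex3_b t218_A00pm_102_s1 k198_A00pm_102_s1

theorem t220_A00pm_102_s1 : ∃ t, chk3 f_A00pm_102_s1 t 7 10 1 = true := ex3_a t219_A00pm_102_s1 t215_A00pm_102_s1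

theorem t221_A00pm_102_s1 : ∃ t, chk3 f_A00pm_102_s1 t 7 5 1 = true := ex3_b t220_A00pm_102_s1 k207_A00pm_102_s1

theorem t222_A00pm_102_s1 : ∃ t, chk3 f_A00pm_102_s1 t 6 21 1 = true := ex3_b k191_A00pm_102_s1 k192_A00pm_102_s1

theorem t223_A00pm_102_s1 : ∃ t, chk3 f_A00pm_102_s1 t 26 167 1 = true := ex3_a k188_A00pm_102_s1 k189_A00pm_102_s1

theorem t224_A00pm_102_s1 : ∃ t, chk3 f_A00pm_102_s1 t 26 83 1 = true := ex3_b k187_A00pm_102_s1 t223_A00pm_102_s1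

theorem t225_A00pm_102_s1 : ∃ t, chk3 f_A00pm_102_s1 t 26 41 1 = true := ex3_b k186_A00pm_102_s1 t224_A00pm_102_s1

theorem t226_A00pm_102_s1 : ∃ t, chk3 f_A00pm_102_s1 t 13 41 1 = true := ex3_a t225_A00pm_102_s1 k190_A00pm_102_s1

theorem t227_A00pm_102_s1 : ∃ t, chk3 f_A00pm_102_s1 t 51 2681 1 = true := ex3_a k182_A00pm_102_s1 k183_A00pm_102_s1

theorem t228_A00pm_102_s1 : ∃ t, chk3 f_A00pm_102_s1 t 51 1340 1 = true := ex3_b k181_A00pm_102_s1 t227_A00pm_102_s1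

theorem t229_A00pm_102_s1 : ∃ t, chk3 f_A00pm_102_s1 t 25 1340 1 = true := ex3_a k180_A00pm_102_s1 t228_A00pm_102_s1

theorem t230_A00pm_102_s1 : ∃ t, chk3 f_A00pm_102_s1 t 25 670 1 = true := ex3_b t229_A00pm_102_s1 k184_A00pm_102_s1

theorem t231_A00pm_102_s1 : ∃ t, chk3 f_A00pm_102_s1 t 25 335 1 = true := ex3_b t230_A00pm_102_s1 k185_A00pm_102_s1

theorem t232_A00pm_102_s1 : ∃ t, chk3 f_A00pm_102_s1 t 25 167 1 = true := ex3_b k179_A00pm_102_s1 t231_A00pm_102_s1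

theorem t233_A00pm_102_s1 : ∃ t, chk3 f_A00pm_102_s1 t 24 167 1 = true := ex3_a k177_A00pm_102_s1 k178_A00pm_102_s1

theorem t234_A00pm_102_s1 : ∃ t, chk3 f_A00pm_102_s1 t 12 167 1 = true := ex3_a t233_A00pm_102_s1 t232_A00pm_102_s1

theorem t235_A00pm_102_s1 : ∃ t, chk3 f_A00pm_102_s1 t 12 83 1 = true := ex3_b k176_A00pm_102_s1 t234_A00pm_102_s1

theorem t236_A00pm_102_s1 : ∃ t, chk3 f_A00pm_102_s1 t 12 41 1 = true := ex3_b k175_A00pm_102_s1 t235_A00pm_102_s1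

theorem t237_A00pm_102_s1 : ∃ t, chk3 f_A00pm_102_s1 t 6 41 1 = true := ex3_a t236_A00pm_102_s1 t226_A00pm_102_s1

theorem t238_A00pm_102_s1 : ∃ t, chk3 f_A00pm_102_s1 t 24 161 1 = true := ex3_a k170_A00pm_102_s1 k171_A00pm_102_s1

theorem t239_A00pm_102_s1 : ∃ t, chk3 f_A00pm_102_s1 t 24 80 1 = true := ex3_b k169_A00pm_102_s1 t238_A00pm_102_s1

theorem t240_A00pm_102_s1 : ∃ t, chk3 f_A00pm_102_s1 t 12 80 1 = true := ex3_a t239_A00pm_102_s1 k172_A00pm_102_s1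

theorem t241_A00pm_102_s1 : ∃ t, chk3 f_A00pm_102_s1 t 12 40 1 = true := ex3_b t240_A00pm_102_s1 k173_A00pm_102_s1

theorem t242_A00pm_102_s1 : ∃ t, chk3 f_A00pm_102_s1 t 6 40 1 = true := ex3_a t241_A00pm_102_s1 k174_A00pm_102_s1

theorem t243_A00pm_102_s1 : ∃ t, chk3 f_A00pm_102_s1 t 6 20 1 = true := ex3_b t242_A00pm_102_s1 t237_A00pm_102_s1

theorem t244_A00pm_102_s1 : ∃ t, chk3 f_A00pm_102_s1 t 6 10 1 = true := ex3_b t243_A00pm_102_s1 t222_A00pm_102_s1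

theorem t245_A00pm_102_s1 : ∃ t, chk3 f_A00pm_102_s1 t 6 5 1 = true := ex3_b t244_A00pm_102_s1 k193_A00pm_102_s1

theorem t246_A00pm_102_s1 : ∃ t, chk3 f_A00pm_102_s1 t 3 5 1 = true := ex3_a t245_A00pm_102_s1 t221_A00pm_102_s1

theorem t247_A00pm_102_s1 : ∃ t, chk3 f_A00pm_102_s1 t 30 9 1 = true := ex3_b k166_A00pm_102_s1 k167_A00pm_102_s1

theorem t248_A00pm_102_s1 : ∃ t, chk3 f_A00pm_102_s1 t 15 9 1 = true := ex3_a t247_A00pm_102_s1 k168_A00pm_102_s1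

theorem t249_A00pm_102_s1 : ∃ t, chk3 f_A00pm_102_s1 t 28 38 1 = true := ex3_a k162_A00pm_102_s1 k163_A00pm_102_s1

theorem t250_A00pm_102_s1 : ∃ t, chk3 f_A00pm_102_s1 t 28 19 1 = true := ex3_b t249_A00pm_102_s1 k164_A00pm_102_s1

theorem t251_A00pm_102_s1 : ∃ t, chk3 f_A00pm_102_s1 t 14 19 1 = true := ex3_a t250_A00pm_102_s1 k165_A00pm_102_s1

theorem t252_A00pm_102_s1 : ∃ t, chk3 f_A00pm_102_s1 t 29 37 1 = true := ex3_a k160_A00pm_102_s1 k161_A00pm_102_s1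

theorem t253_A00pm_102_s1 : ∃ t, chk3 f_A00pm_102_s1 t 29 36 1 = true := ex3_b k158_A00pm_102_s1 k159_A00pm_102_s1

theorem t254_A00pm_102_s1 : ∃ t, chk3 f_A00pm_102_s1 t 29 18 1 = true := ex3_b t253_A00pm_102_s1 t252_A00pm_102_s1

theorem t255_A00pm_102_s1 : ∃ t, chk3 f_A00pm_102_s1 t 56 37 1 = true := ex3_a k155_A00pm_102_s1 k156_A00pm_102_s1

theorem t256_A00pm_102_s1 : ∃ t, chk3 f_A00pm_102_s1 t 28 37 1 = true := ex3_a t255_A00pm_102_s1 k157_A00pm_102_s1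

theorem t257_A00pm_102_s1 : ∃ t, chk3 f_A00pm_102_s1 t 28 18 1 = true := ex3_b k154_A00pm_102_s1 t256_A00pm_102_s1

theorem t258_A00pm_102_s1 : ∃ t, chk3 f_A00pm_102_s1 t 14 18 1 = true := ex3_a t257_A00pm_102_s1 t254_A00pm_102_s1

theorem t259_A00pm_102_s1 : ∃ t, chk3 f_A00pm_102_s1 t 14 9 1 = true := ex3_b t258_A00pm_102_s1 t251_A00pm_102_s1

theorem t260_A00pm_102_s1 : ∃ t, chk3 f_A00pm_102_s1 t 7 9 1 = true := ex3_a t259_A00pm_102_s1 t248_A00pm_102_s1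

theorem t261_A00pm_102_s1 : ∃ t, chk3 f_A00pm_102_s1 t 63 17 1 = true := ex3_b k152_A00pm_102_s1 k153_A00pm_102_s1

theorem t262_A00pm_102_s1 : ∃ t, chk3 f_A00pm_102_s1 t 124 137 1 = true := ex3_a k147_A00pm_102_s1 k148_A00pm_102_s1

theorem t263_A00pm_102_s1 : ∃ t, chk3 f_A00pm_102_s1 t 997 544 8 = true := ex3_b k139_A00pm_102_s1 k140_A00pm_102_s1

theorem t264_A00pm_102_s1 : ∃ t, chk3 f_A00pm_102_s1 t 997 272 8 = true := ex3_b t263_A00pm_102_s1 k141_A00pm_102_s1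

theorem t265_A00pm_102_s1 : ∃ t, chk3 f_A00pm_102_s1 t 997 272 4 = true := ex3_c t264_A00pm_102_s1 k142_A00pm_102_s1

theorem t266_A00pm_102_s1 : ∃ t, chk3 f_A00pm_102_s1 t 498 272 4 = true := ex3_a k138_A00pm_102_s1 t265_A00pm_102_s1

theorem t267_A00pm_102_s1 : ∃ t, chk3 f_A00pm_102_s1 t 249 272 4 = true := ex3_a t266_A00pm_102_s1 k143_A00pm_102_s1

theorem t268_A00pm_102_s1 : ∃ t, chk3 f_A00pm_102_s1 t 249 272 2 = true := ex3_c t267_A00pm_102_s1 k144_A00pm_102_s1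

theorem t269_A00pm_102_s1 : ∃ t, chk3 f_A00pm_102_s1 t 249 136 2 = true := ex3_b t268_A00pm_102_s1 k145_A00pm_102_s1

theorem t270_A00pm_102_s1 : ∃ t, chk3 f_A00pm_102_s1 t 249 136 1 = true := ex3_c t269_A00pm_102_s1 k146_A00pm_102_s1

theorem t271_A00pm_102_s1 : ∃ t, chk3 f_A00pm_102_s1 t 248 273 1 = true := ex3_a k136_A00pm_102_s1 k137_A00pm_102_s1

theorem t272_A00pm_102_s1 : ∃ t, chk3 f_A00pm_102_s1 t 248 136 1 = true := ex3_b k135_A00pm_102_s1 t271_A00pm_102_s1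

theorem t273_A00pm_102_s1 : ∃ t, chk3 f_A00pm_102_s1 t 124 136 1 = true := ex3_a t272_A00pm_102_s1 t270_A00pm_102_s1

theorem t274_A00pm_102_s1 : ∃ t, chk3 f_A00pm_102_s1 t 124 68 1 = true := ex3_b t273_A00pm_102_s1 t262_A00pm_102_s1

theorem t275_A00pm_102_s1 : ∃ t, chk3 f_A00pm_102_s1 t 124 34 1 = true := ex3_b t274_A00pm_102_s1 k149_A00pm_102_s1

theorem t276_A00pm_102_s1 : ∃ t, chk3 f_A00pm_102_s1 t 62 34 1 = true := ex3_a t275_A00pm_102_s1 k150_A00pm_102_s1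

theorem t277_A00pm_102_s1 : ∃ t, chk3 f_A00pm_102_s1 t 62 17 1 = true := ex3_b t276_A00pm_102_s1 k151_A00pm_102_s1

theorem t278_A00pm_102_s1 : ∃ t, chk3 f_A00pm_102_s1 t 31 17 1 = true := ex3_a t277_A00pm_102_s1 t261_A00pm_102_s1

theorem t279_A00pm_102_s1 : ∃ t, chk3 f_A00pm_102_s1 t 30 35 1 = true := ex3_a k133_A00pm_102_s1 k134_A00pm_102_s1

theorem t280_A00pm_102_s1 : ∃ t, chk3 f_A00pm_102_s1 t 61 69 1 = true := ex3_a k131_A00pm_102_s1 k132_A00pm_102_s1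

theorem t281_A00pm_102_s1 : ∃ t, chk3 f_A00pm_102_s1 t 61 68 1 = true := ex3_b k129_A00pm_102_s1 k130_A00pm_102_s1

theorem t282_A00pm_102_s1 : ∃ t, chk3 f_A00pm_102_s1 t 61 34 1 = true := ex3_b t281_A00pm_102_s1 t280_A00pm_102_s1

theorem t283_A00pm_102_s1 : ∃ t, chk3 f_A00pm_102_s1 t 30 34 1 = true := ex3_a k128_A00pm_102_s1 t282_A00pm_102_s1

theorem t284_A00pm_102_s1 : ∃ t, chk3 f_A00pm_102_s1 t 30 17 1 = true := ex3_b t283_A00pm_102_s1 t279_A00pm_102_s1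

theorem t285_A00pm_102_s1 : ∃ t, chk3 f_A00pm_102_s1 t 15 17 1 = true := ex3_a t284_A00pm_102_s1 t278_A00pm_102_s1

theorem t286_A00pm_102_s1 : ∃ t, chk3 f_A00pm_102_s1 t 253 66 1 = true := ex3_b k124_A00pm_102_s1 k125_A00pm_102_s1

theorem t287_A00pm_102_s1 : ∃ t, chk3 f_A00pm_102_s1 t 505 264 2 = true := ex3_a k119_A00pm_102_s1 k120_A00pm_102_s1

theorem t288_A00pm_102_s1 : ∃ t, chk3 f_A00pm_102_s1 t 505 264 1 = true := ex3_c t287_A00pm_102_s1 k121_A00pm_102_s1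

theorem t289_A00pm_102_s1 : ∃ t, chk3 f_A00pm_102_s1 t 505 132 1 = true := ex3_b t288_A00pm_102_s1 k122_A00pm_102_s1

theorem t290_A00pm_102_s1 : ∃ t, chk3 f_A00pm_102_s1 t 1009 265 1 = true := ex3_b k117_A00pm_102_s1 k118_A00pm_102_s1

theorem t291_A00pm_102_s1 : ∃ t, chk3 f_A00pm_102_s1 t 504 265 1 = true := ex3_a k116_A00pm_102_s1 t290_A00pm_102_s1

theorem t292_A00pm_102_s1 : ∃ t, chk3 f_A00pm_102_s1 t 504 132 1 = true := ex3_b k115_A00pm_102_s1 t291_A00pm_102_s1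

theorem t293_A00pm_102_s1 : ∃ t, chk3 f_A00pm_102_s1 t 252 132 1 = true := ex3_a t292_A00pm_102_s1 t289_A00pm_102_s1

theorem t294_A00pm_102_s1 : ∃ t, chk3 f_A00pm_102_s1 t 252 66 1 = true := ex3_b t293_A00pm_102_s1 k123_A00pm_102_s1

theorem t295_A00pm_102_s1 : ∃ t, chk3 f_A00pm_102_s1 t 126 66 1 = true := ex3_a t294_A00pm_102_s1 t286_A00pm_102_s1

theorem t296_A00pm_102_s1 : ∃ t, chk3 f_A00pm_102_s1 t 126 33 1 = true := ex3_b t295_A00pm_102_s1 k126_A00pm_102_s1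

theorem t297_A00pm_102_s1 : ∃ t, chk3 f_A00pm_102_s1 t 63 33 1 = true := ex3_a t296_A00pm_102_s1 k127_A00pm_102_s1

theorem t298_A00pm_102_s1 : ∃ t, chk3 f_A00pm_102_s1 t 1016 261 1 = true := ex3_c k109_A00pm_102_s1 k110_A00pm_102_s1

theorem t299_A00pm_102_s1 : ∃ t, chk3 f_A00pm_102_s1 t 508 261 1 = true := ex3_a t298_A00pm_102_s1 k111_A00pm_102_s1

theorem t300_A00pm_102_s1 : ∃ t, chk3 f_A00pm_102_s1 t 1016 521 3 = true := ex3_a k106_A00pm_102_s1 k107_A00pm_102_s1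

theorem t301_A00pm_102_s1 : ∃ t, chk3 f_A00pm_102_s1 t 1016 521 2 = true := ex3_b k104_A00pm_102_s1 k105_A00pm_102_s1

theorem t302_A00pm_102_s1 : ∃ t, chk3 f_A00pm_102_s1 t 1016 521 1 = true := ex3_c t301_A00pm_102_s1 t300_A00pm_102_s1

theorem t303_A00pm_102_s1 : ∃ t, chk3 f_A00pm_102_s1 t 1016 260 1 = true := ex3_b k103_A00pm_102_s1 t302_A00pm_102_s1

theorem t304_A00pm_102_s1 : ∃ t, chk3 f_A00pm_102_s1 t 508 260 1 = true := ex3_a t303_A00pm_102_s1 k108_A00pm_102_s1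

theorem t305_A00pm_102_s1 : ∃ t, chk3 f_A00pm_102_s1 t 508 130 1 = true := ex3_b t304_A00pm_102_s1 t299_A00pm_102_s1

theorem t306_A00pm_102_s1 : ∃ t, chk3 f_A00pm_102_s1 t 254 130 1 = true := ex3_a t305_A00pm_102_s1 k112_A00pm_102_s1

theorem t307_A00pm_102_s1 : ∃ t, chk3 f_A00pm_102_s1 t 254 65 1 = true := ex3_b t306_A00pm_102_s1 k113_A00pm_102_s1

theorem t308_A00pm_102_s1 : ∃ t, chk3 f_A00pm_102_s1 t 127 65 1 = true := ex3_a t307_A00pm_102_s1 k114_A00pm_102_s1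

theorem t309_A00pm_102_s1 : ∃ t, chk3 f_A00pm_102_s1 t 127 32 1 = true := ex3_b k102_A00pm_102_s1 t308_A00pm_102_s1

theorem t310_A00pm_102_s1 : ∃ t, chk3 f_A00pm_102_s1 t 507 524 1 = true := ex3_c k98_A00pm_102_s1 k99_A00pm_102_s1

theorem t311_A00pm_102_s1 : ∃ t, chk3 f_A00pm_102_s1 t 507 262 1 = true := ex3_b t310_A00pm_102_s1 k100_A00pm_102_s1

theorem t312_A00pm_102_s1 : ∃ t, chk3 f_A00pm_102_s1 t 507 131 1 = true := ex3_b t311_A00pm_102_s1 k101_A00pm_102_s1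

theorem t313_A00pm_102_s1 : ∃ t, chk3 f_A00pm_102_s1 t 506 263 2 = true := ex3_c k95_A00pm_102_s1 k96_A00pm_102_s1

theorem t314_A00pm_102_s1 : ∃ t, chk3 f_A00pm_102_s1 t 506 263 1 = true := ex3_c t313_A00pm_102_s1 k97_A00pm_102_s1

theorem t315_A00pm_102_s1 : ∃ t, chk3 f_A00pm_102_s1 t 1013 525 1 = true := ex3_b k93_A00pm_102_s1 k94_A00pm_102_s1

theorem t316_A00pm_102_s1 : ∃ t, chk3 f_A00pm_102_s1 t 506 525 1 = true := ex3_a k92_A00pm_102_s1 t315_A00pm_102_s1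

theorem t317_A00pm_102_s1 : ∃ t, chk3 f_A00pm_102_s1 t 506 262 1 = true := ex3_b k91_A00pm_102_s1 t316_A00pm_102_s1

theorem t318_A00pm_102_s1 : ∃ t, chk3 f_A00pm_102_s1 t 506 131 1 = true := ex3_b t317_A00pm_102_s1 t314_A00pm_102_s1

theorem t319_A00pm_102_s1 : ∃ t, chk3 f_A00pm_102_s1 t 253 131 1 = true := ex3_a t318_A00pm_102_s1 t312_A00pm_102_s1

theorem t320_A00pm_102_s1 : ∃ t, chk3 f_A00pm_102_s1 t 1015 1046 1 = true := ex3_c k88_A00pm_102_s1 k89_A00pm_102_s1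

theorem t321_A00pm_102_s1 : ∃ t, chk3 f_A00pm_102_s1 t 1015 523 1 = true := ex3_b t320_A00pm_102_s1 k90_A00pm_102_s1

theorem t322_A00pm_102_s1 : ∃ t, chk3 f_A00pm_102_s1 t 507 523 1 = true := ex3_a k87_A00pm_102_s1 t321_A00pm_102_s1

theorem t323_A00pm_102_s1 : ∃ t, chk3 f_A00pm_102_s1 t 1015 522 1 = true := ex3_c k85_A00pm_102_s1 k86_A00pm_102_s1

theorem t324_A00pm_102_s1 : ∃ t, chk3 f_A00pm_102_s1 t 507 522 1 = true := ex3_a k84_A00pm_102_s1 t323_A00pm_102_s1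

theorem t325_A00pm_102_s1 : ∃ t, chk3 f_A00pm_102_s1 t 507 261 1 = true := ex3_b t324_A00pm_102_s1 t322_A00pm_102_s1

theorem t326_A00pm_102_s1 : ∃ t, chk3 f_A00pm_102_s1 t 507 260 1 = true := ex3_b k82_A00pm_102_s1 k83_A00pm_102_s1

theorem t327_A00pm_102_s1 : ∃ t, chk3 f_A00pm_102_s1 t 507 130 1 = true := ex3_b t326_A00pm_102_s1 t325_A00pm_102_s1

theorem t328_A00pm_102_s1 : ∃ t, chk3 f_A00pm_102_s1 t 506 261 1 = true := ex3_b k80_A00pm_102_s1 k81_A00pm_102_s1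

theorem t329_A00pm_102_s1 : ∃ t, chk3 f_A00pm_102_s1 t 506 130 1 = true := ex3_b k79_A00pm_102_s1 t328_A00pm_102_s1

theorem t330_A00pm_102_s1 : ∃ t, chk3 f_A00pm_102_s1 t 253 130 1 = true := ex3_a t329_A00pm_102_s1 t327_A00pm_102_s1

theorem t331_A00pm_102_s1 : ∃ t, chk3 f_A00pm_102_s1 t 253 65 1 = true := ex3_b t330_A00pm_102_s1 t319_A00pm_102_s1

theorem t332_A00pm_102_s1 : ∃ t, chk3 f_A00pm_102_s1 t 505 263 1 = true := ex3_b k77_A00pm_102_s1 k78_A00pm_102_s1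

theorem t333_A00pm_102_s1 : ∃ t, chk3 f_A00pm_102_s1 t 505 131 1 = true := ex3_b k76_A00pm_102_s1 t332_A00pm_102_s1

theorem t334_A00pm_102_s1 : ∃ t, chk3 f_A00pm_102_s1 t 252 131 1 = true := ex3_a k75_A00pm_102_s1 t333_A00pm_102_s1

theorem t335_A00pm_102_s1 : ∃ t, chk3 f_A00pm_102_s1 t 252 65 1 = true := ex3_b k74_A00pm_102_s1 t334_A00pm_102_s1

theorem t336_A00pm_102_s1 : ∃ t, chk3 f_A00pm_102_s1 t 126 65 1 = true := ex3_a t335_A00pm_102_s1 t331_A00pm_102_s1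

theorem t337_A00pm_102_s1 : ∃ t, chk3 f_A00pm_102_s1 t 126 32 1 = true := ex3_b k73_A00pm_102_s1 t336_A00pm_102_s1

theorem t338_A00pm_102_s1 : ∃ t, chk3 f_A00pm_102_s1 t 63 32 1 = true := ex3_a t337_A00pm_102_s1 t309_A00pm_102_s1

theorem t339_A00pm_102_s1 : ∃ t, chk3 f_A00pm_102_s1 t 63 16 1 = true := ex3_b t338_A00pm_102_s1 t297_A00pm_102_s1

theorem t340_A00pm_102_s1 : ∃ t, chk3 f_A00pm_102_s1 t 500 270 4 = true := ex3_b k66_A00pm_102_s1 k67_A00pm_102_s1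

theorem t341_A00pm_102_s1 : ∃ t, chk3 f_A00pm_102_s1 t 500 270 2 = true := ex3_c t340_A00pm_102_s1 k68_A00pm_102_s1

theorem t342_A00pm_102_s1 : ∃ t, chk3 f_A00pm_102_s1 t 500 270 1 = true := ex3_c t341_A00pm_102_s1 k69_A00pm_102_s1

theorem t343_A00pm_102_s1 : ∃ t, chk3 f_A00pm_102_s1 t 250 270 1 = true := ex3_a t342_A00pm_102_s1 k70_A00pm_102_s1

theorem t344_A00pm_102_s1 : ∃ t, chk3 f_A00pm_102_s1 t 250 135 1 = true := ex3_b t343_A00pm_102_s1 k71_A00pm_102_s1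

theorem t345_A00pm_102_s1 : ∃ t, chk3 f_A00pm_102_s1 t 125 135 1 = true := ex3_a t344_A00pm_102_s1 k72_A00pm_102_s1

theorem t346_A00pm_102_s1 : ∃ t, chk3 f_A00pm_102_s1 t 251 134 1 = true := ex3_b k64_A00pm_102_s1 k65_A00pm_102_s1

theorem t347_A00pm_102_s1 : ∃ t, chk3 f_A00pm_102_s1 t 250 269 1 = true := ex3_a k62_A00pm_102_s1 k63_A00pm_102_s1

theorem t348_A00pm_102_s1 : ∃ t, chk3 f_A00pm_102_s1 t 250 134 1 = true := ex3_b k61_A00pm_102_s1 t347_A00pm_102_s1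

theorem t349_A00pm_102_s1 : ∃ t, chk3 f_A00pm_102_s1 t 125 134 1 = true := ex3_a t348_A00pm_102_s1 t346_A00pm_102_s1

theorem t350_A00pm_102_s1 : ∃ t, chk3 f_A00pm_102_s1 t 125 67 1 = true := ex3_b t349_A00pm_102_s1 t345_A00pm_102_s1

theorem t351_A00pm_102_s1 : ∃ t, chk3 f_A00pm_102_s1 t 999 271 4 = true := ex3_c k57_A00pm_102_s1 k58_A00pm_102_s1

theorem t352_A00pm_102_s1 : ∃ t, chk3 f_A00pm_102_s1 t 998 543 4 = true := ex3_a k55_A00pm_102_s1 k56_A00pm_102_s1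

theorem t353_A00pm_102_s1 : ∃ t, chk3 f_A00pm_102_s1 t 998 271 4 = true := ex3_b k54_A00pm_102_s1 t352_A00pm_102_s1

theorem t354_A00pm_102_s1 : ∃ t, chk3 f_A00pm_102_s1 t 499 271 4 = true := ex3_a t353_A00pm_102_s1 t351_A00pm_102_s1

theorem t355_A00pm_102_s1 : ∃ t, chk3 f_A00pm_102_s1 t 499 271 2 = true := ex3_c t354_A00pm_102_s1 k59_A00pm_102_s1

theorem t356_A00pm_102_s1 : ∃ t, chk3 f_A00pm_102_s1 t 249 271 2 = true := ex3_a k53_A00pm_102_s1 t355_A00pm_102_s1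

theorem t357_A00pm_102_s1 : ∃ t, chk3 f_A00pm_102_s1 t 249 271 1 = true := ex3_c t356_A00pm_102_s1 k60_A00pm_102_s1

theorem t358_A00pm_102_s1 : ∃ t, chk3 f_A00pm_102_s1 t 249 270 2 = true := ex3_a k50_A00pm_102_s1 k51_A00pm_102_s1

theorem t359_A00pm_102_s1 : ∃ t, chk3 f_A00pm_102_s1 t 249 270 1 = true := ex3_c t358_A00pm_102_s1 k52_A00pm_102_s1

theorem t360_A00pm_102_s1 : ∃ t, chk3 f_A00pm_102_s1 t 249 135 1 = true := ex3_b t359_A00pm_102_s1 t357_A00pm_102_s1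

theorem t361_A00pm_102_s1 : ∃ t, chk3 f_A00pm_102_s1 t 249 134 1 = true := ex3_a k48_A00pm_102_s1 k49_A00pm_102_s1

theorem t362_A00pm_102_s1 : ∃ t, chk3 f_A00pm_102_s1 t 249 67 1 = true := ex3_b t361_A00pm_102_s1 t360_A00pm_102_s1

theorem t363_A00pm_102_s1 : ∃ t, chk3 f_A00pm_102_s1 t 248 135 2 = true := ex3_c k45_A00pm_102_s1 k46_A00pm_102_s1

theorem t364_A00pm_102_s1 : ∃ t, chk3 f_A00pm_102_s1 t 248 135 1 = true := ex3_c t363_A00pm_102_s1 k47_A00pm_102_s1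

theorem t365_A00pm_102_s1 : ∃ t, chk3 f_A00pm_102_s1 t 248 67 1 = true := ex3_b k44_A00pm_102_s1 t364_A00pm_102_s1

theorem t366_A00pm_102_s1 : ∃ t, chk3 f_A00pm_102_s1 t 124 67 1 = true := ex3_a t365_A00pm_102_s1 t362_A00pm_102_s1

theorem t367_A00pm_102_s1 : ∃ t, chk3 f_A00pm_102_s1 t 62 67 1 = true := ex3_a t366_A00pm_102_s1 t350_A00pm_102_s1

theorem t368_A00pm_102_s1 : ∃ t, chk3 f_A00pm_102_s1 t 502 267 1 = true := ex3_a k41_A00pm_102_s1 k42_A00pm_102_s1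

theorem t369_A00pm_102_s1 : ∃ t, chk3 f_A00pm_102_s1 t 251 267 1 = true := ex3_a t368_A00pm_102_s1 k43_A00pm_102_s1

theorem t370_A00pm_102_s1 : ∃ t, chk3 f_A00pm_102_s1 t 503 266 1 = true := ex3_b k39_A00pm_102_s1 k40_A00pm_102_s1

theorem t371_A00pm_102_s1 : ∃ t, chk3 f_A00pm_102_s1 t 251 266 1 = true := ex3_a k38_A00pm_102_s1 t370_A00pm_102_s1

theorem t372_A00pm_102_s1 : ∃ t, chk3 f_A00pm_102_s1 t 251 133 1 = true := ex3_b t371_A00pm_102_s1 t369_A00pm_102_s1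

theorem t373_A00pm_102_s1 : ∃ t, chk3 f_A00pm_102_s1 t 251 66 1 = true := ex3_b k37_A00pm_102_s1 t372_A00pm_102_s1

theorem t374_A00pm_102_s1 : ∃ t, chk3 f_A00pm_102_s1 t 125 66 1 = true := ex3_a k36_A00pm_102_s1 t373_A00pm_102_s1

theorem t375_A00pm_102_s1 : ∃ t, chk3 f_A00pm_102_s1 t 62 66 1 = true := ex3_a k35_A00pm_102_s1 t374_A00pm_102_s1

theorem t376_A00pm_102_s1 : ∃ t, chk3 f_A00pm_102_s1 t 62 33 1 = true := ex3_b t375_A00pm_102_s1 t367_A00pm_102_s1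

theorem t377_A00pm_102_s1 : ∃ t, chk3 f_A00pm_102_s1 t 62 16 1 = true := ex3_b k34_A00pm_102_s1 t376_A00pm_102_s1

theorem t378_A00pm_102_s1 : ∃ t, chk3 f_A00pm_102_s1 t 31 16 1 = true := ex3_a t377_A00pm_102_s1 t339_A00pm_102_s1

theorem t379_A00pm_102_s1 : ∃ t, chk3 f_A00pm_102_s1 t 15 16 1 = true := ex3_a k33_A00pm_102_s1 t378_A00pm_102_s1

theorem t380_A00pm_102_s1 : ∃ t, chk3 f_A00pm_102_s1 t 15 8 1 = true := ex3_b t379_A00pm_102_s1 t285_A00pm_102_s1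

theorem t381_A00pm_102_s1 : ∃ t, chk3 f_A00pm_102_s1 t 7 8 1 = true := ex3_a k32_A00pm_102_s1 t380_A00pm_102_s1

theorem t382_A00pm_102_s1 : ∃ t, chk3 f_A00pm_102_s1 t 7 4 1 = true := ex3_b t381_A00pm_102_s1 t260_A00pm_102_s1

theorem t383_A00pm_102_s1 : ∃ t, chk3 f_A00pm_102_s1 t 13 39 3 = true := ex3_a k30_A00pm_102_s1 k31_A00pm_102_s1

theorem t384_A00pm_102_s1 : ∃ t, chk3 f_A00pm_102_s1 t 27 76 3 = true := ex3_a k27_A00pm_102_s1 k28_A00pm_102_s1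

theorem t385_A00pm_102_s1 : ∃ t, chk3 f_A00pm_102_s1 t 27 38 3 = true := ex3_b t384_A00pm_102_s1 k29_A00pm_102_s1

theorem t386_A00pm_102_s1 : ∃ t, chk3 f_A00pm_102_s1 t 13 38 3 = true := ex3_a k26_A00pm_102_s1 t385_A00pm_102_s1

theorem t387_A00pm_102_s1 : ∃ t, chk3 f_A00pm_102_s1 t 13 19 3 = true := ex3_b t386_A00pm_102_s1 t383_A00pm_102_s1

theorem t388_A00pm_102_s1 : ∃ t, chk3 f_A00pm_102_s1 t 12 19 3 = true := ex3_b k24_A00pm_102_s1 k25_A00pm_102_s1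

theorem t389_A00pm_102_s1 : ∃ t, chk3 f_A00pm_102_s1 t 6 19 3 = true := ex3_a t388_A00pm_102_s1 t387_A00pm_102_s1

theorem t390_A00pm_102_s1 : ∃ t, chk3 f_A00pm_102_s1 t 6 9 3 = true := ex3_b k23_A00pm_102_s1 t389_A00pm_102_s1

theorem t391_A00pm_102_s1 : ∃ t, chk3 f_A00pm_102_s1 t 13 39 2 = true := ex3_a k21_A00pm_102_s1 k22_A00pm_102_s1

theorem t392_A00pm_102_s1 : ∃ t, chk3 f_A00pm_102_s1 t 27 38 2 = true := ex3_b k19_A00pm_102_s1 k20_A00pm_102_s1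

theorem t393_A00pm_102_s1 : ∃ t, chk3 f_A00pm_102_s1 t 13 38 2 = true := ex3_a k18_A00pm_102_s1 t392_A00pm_102_s1

theorem t394_A00pm_102_s1 : ∃ t, chk3 f_A00pm_102_s1 t 13 19 2 = true := ex3_b t393_A00pm_102_s1 t391_A00pm_102_s1

theorem t395_A00pm_102_s1 : ∃ t, chk3 f_A00pm_102_s1 t 6 19 2 = true := ex3_a k17_A00pm_102_s1 t394_A00pm_102_s1

theorem t396_A00pm_102_s1 : ∃ t, chk3 f_A00pm_102_s1 t 6 9 2 = true := ex3_b k16_A00pm_102_s1 t395_A00pm_102_s1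

theorem t397_A00pm_102_s1 : ∃ t, chk3 f_A00pm_102_s1 t 6 9 1 = true := ex3_c t396_A00pm_102_s1 t390_A00pm_102_s1

theorem t398_A00pm_102_s1 : ∃ t, chk3 f_A00pm_102_s1 t 6 4 1 = true := ex3_b k15_A00pm_102_s1 t397_A00pm_102_s1

theorem t399_A00pm_102_s1 : ∃ t, chk3 f_A00pm_102_s1 t 3 4 1 = true := ex3_a t398_A00pm_102_s1 t382_A00pm_102_s1

theorem t400_A00pm_102_s1 : ∃ t, chk3 f_A00pm_102_s1 t 3 2 1 = true := ex3_b t399_A00pm_102_s1 t246_A00pm_102_s1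

theorem t401_A00pm_102_s1 : ∃ t, chk3 f_A00pm_102_s1 t 3 1 1 = true := ex3_b t400_A00pm_102_s1 k208_A00pm_102_s1

theorem t402_A00pm_102_s1 : ∃ t, chk3 f_A00pm_102_s1 t 5 21 1 = true := ex3_a k11_A00pm_102_s1 k12_A00pm_102_s1

theorem t403_A00pm_102_s1 : ∃ t, chk3 f_A00pm_102_s1 t 23 334 1 = true := ex3_a k8_A00pm_102_s1 k9_A00pm_102_s1

theorem t404_A00pm_102_s1 : ∃ t, chk3 f_A00pm_102_s1 t 23 167 1 = true := ex3_b t403_A00pm_102_s1 k10_A00pm_102_s1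

theorem t405_A00pm_102_s1 : ∃ t, chk3 f_A00pm_102_s1 t 22 167 1 = true := ex3_a k6_A00pm_102_s1 k7_A00pm_102_s1

theorem t406_A00pm_102_s1 : ∃ t, chk3 f_A00pm_102_s1 t 11 167 1 = true := ex3_a t405_A00pm_102_s1 t404_A00pm_102_s1

theorem t407_A00pm_102_s1 : ∃ t, chk3 f_A00pm_102_s1 t 11 83 1 = true := ex3_b k5_A00pm_102_s1 t406_A00pm_102_s1

theorem t408_A00pm_102_s1 : ∃ t, chk3 f_A00pm_102_s1 t 11 41 1 = true := ex3_b k4_A00pm_102_s1 t407_A00pm_102_s1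

theorem t409_A00pm_102_s1 : ∃ t, chk3 f_A00pm_102_s1 t 11 20 1 = true := ex3_b k3_A00pm_102_s1 t408_A00pm_102_s1

theorem t410_A00pm_102_s1 : ∃ t, chk3 f_A00pm_102_s1 t 5 20 1 = true := ex3_a k2_A00pm_102_s1 t409_A00pm_102_s1

theorem t411_A00pm_102_s1 : ∃ t, chk3 f_A00pm_102_s1 t 5 10 1 = true := ex3_b t410_A00pm_102_s1 t402_A00pm_102_s1

theorem t412_A00pm_102_s1 : ∃ t, chk3 f_A00pm_102_s1 t 5 5 1 = true := ex3_b t411_A00pm_102_s1 k13_A00pm_102_s1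

theorem t413_A00pm_102_s1 : ∃ t, chk3 f_A00pm_102_s1 t 2 5 1 = true := ex3_a k1_A00pm_102_s1 t412_A00pm_102_s1

theorem t414_A00pm_102_s1 : ∃ t, chk3 f_A00pm_102_s1 t 2 2 1 = true := ex3_b k0_A00pm_102_s1 t413_A00pm_102_s1

theorem t415_A00pm_102_s1 : ∃ t, chk3 f_A00pm_102_s1 t 2 1 1 = true := ex3_b t414_A00pm_102_s1 k14_A00pm_102_s1

theorem t416_A00pm_102_s1 : ∃ t, chk3 f_A00pm_102_s1 t 1 1 1 = true := ex3_a t415_A00pm_102_s1 t401_A00pm_102_s1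

theorem c_A00pm_102_s1 : CertF 536870912 536870912 0 536870912 991146299 28908434 true true false .npp 1 0 2
    ndB0q1 ndB0q0 pcB2 cut_A00pm_102_s1 xt_A00pm_102_s1 :=
  certF1 (fam := true) (s1 := true) (s2 := false) (a := 1) (b := 0) (c := 2) (cn := .npp) (n1 := ndB0q1) (n2 := ndB0q0) (pc := pcB2) (cut := cut_A00pm_102_s1) (xt := xt_A00pm_102_s1) (P1 := 536870912) (W1 := 536870912) (P2 := 0) (W2 := 536870912) (P3 := 991146299) (W3 := 28908434)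
    rfl (fun _ => rfl) t416_A00pm_102_s1

theorem s_A00pm_102_s1 {κ x : ℝ} (hκ : κ * h0 = ken x) (hx : ((991146299 : ℕ) : ℝ) / S ≤ x)
    (hx' : x ≤ (((991146299 : ℕ) : ℝ) + (28908434 : ℕ)) / S)
    (H : CutA (VFD κ) PP tK tL pcB (Cut.of [[⟨0, 1, 0, 16777216⟩, ⟨1, 0, 0, 16777216⟩, ⟨2, 1, 0, 16777216⟩]]) 1 0 2 0 0 (sgb true) (sgb false) x) :
    AltA (VFD κ) PP tK tL pcB [⟨3, 0, 0, 1449551462⟩] 1 0 2 0 0 (sgb true) (sgb false) x :=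
  strip_altAD (m := 1449551462) true rfl hκ (SH.κ0 hκ (SH.hx1 hx).le (SH.hx2 hx').le) (SH.hx1 hx).le (SH.hx2 hx') (covB01).cov (covB00).cov hx hx' c_A00pm_102_s1 H ((okx hx hx').extA (T := tt) (sideB hx hx') hκ rfl rfl (.O 1 true) (.O 0 false) rfl)

end Pool.Agent.Strip051.G.I9231_9500.Tab.St.C
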