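import Pool.Agent.Strip051.G.I9231_9500.StH
import Pool.Agent.Strip051.G.I9231_9500.Sp7_0
import Pool.Agent.Strip051.G.I9231_9500.Sp7_1
import Pool.Agent.Strip051.G.I9231_9500.Sp7_2
import Pool.Agent.Strip051.G.I9231_9500.StF

/-! # Unit strips 7 (generated) -/

set_option linter.all false
set_option maxRecDepth 100000

namespace Pool.Agent.Strip051.G.I9231_9500.Tab.St.C

open Pool.Agent.Strip051.PB Pool.Agent.Strip051.PB.T Pool.Agent.StripNear Pool.Agent.Strip051.LC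
open Pool.Agent.Strip051.G.I9231_9500.Tab Pool.Agent.Strip051.G.I9231_9500.Tab.St

theorem t294_A00pm_123_s3 : ∃ t, chk3 f_A00pm_123_s3 t 2040 242 1 = true := ex3_a k286_A00pm_123_s3 k287_A00pm_123_s3

theorem t295_A00pm_123_s3 : ∃ t, chk3 f_A00pm_123_s3 t 1020 242 1 = true := ex3_a t294_A00pm_123_s3 k288_A00pm_123_s3

theorem t296_A00pm_123_s3 : ∃ t, chk3 f_A00pm_123_s3 t 1020 121 1 = true := ex3_b t295_A00pm_123_s3 k289_A00pm_123_s3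

theorem t297_A00pm_123_s3 : ∃ t, chk3 f_A00pm_123_s3 t 510 121 1 = true := ex3_a t296_A00pm_123_s3 k290_A00pm_123_s3

theorem t298_A00pm_123_s3 : ∃ t, chk3 f_A00pm_123_s3 t 510 60 1 = true := ex3_b k285_A00pm_123_s3 t297_A00pm_123_s3

theorem t299_A00pm_123_s3 : ∃ t, chk3 f_A00pm_123_s3 t 510 30 1 = true := ex3_b t298_A00pm_123_s3 k291_A00pm_123_s3

theorem t300_A00pm_123_s3 : ∃ t, chk3 f_A00pm_123_s3 t 510 15 1 = true := ex3_b t299_A00pm_123_s3 k292_A00pm_123_s3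

theorem t301_A00pm_123_s3 : ∃ t, chk3 f_A00pm_123_s3 t 255 15 1 = true := ex3_a t300_A00pm_123_s3 k293_A00pm_123_s3

theorem t302_A00pm_123_s3 : ∃ t, chk3 f_A00pm_123_s3 t 254 255 1 = true := ex3_a k283_A00pm_123_s3 k284_A00pm_123_s3

theorem t303_A00pm_123_s3 : ∃ t, chk3 f_A00pm_123_s3 t 509 254 1 = true := ex3_a k281_A00pm_123_s3 k282_A00pm_123_s3

theorem t304_A00pm_123_s3 : ∃ t, chk3 f_A00pm_123_s3 t 508 254 1 = true := ex3_c k279_A00pm_123_s3 k280_A00pm_123_s3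

theorem t305_A00pm_123_s3 : ∃ t, chk3 f_A00pm_123_s3 t 254 254 1 = true := ex3_a t304_A00pm_123_s3 t303_A00pm_123_s3

theorem t306_A00pm_123_s3 : ∃ t, chk3 f_A00pm_123_s3 t 254 127 1 = true := ex3_b t305_A00pm_123_s3 t302_A00pm_123_s3

theorem t307_A00pm_123_s3 : ∃ t, chk3 f_A00pm_123_s3 t 254 126 1 = true := ex3_a k277_A00pm_123_s3 k278_A00pm_123_s3

theorem t308_A00pm_123_s3 : ∃ t, chk3 f_A00pm_123_s3 t 254 63 1 = true := ex3_b t307_A00pm_123_s3 t306_A00pm_123_s3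

theorem t309_A00pm_123_s3 : ∃ t, chk3 f_A00pm_123_s3 t 1018 125 1 = true := ex3_b k274_A00pm_123_s3 k275_A00pm_123_s3

theorem t310_A00pm_123_s3 : ∃ t, chk3 f_A00pm_123_s3 t 509 125 1 = true := ex3_a t309_A00pm_123_s3 k276_A00pm_123_s3

theorem t311_A00pm_123_s3 : ∃ t, chk3 f_A00pm_123_s3 t 508 125 1 = true := ex3_b k272_A00pm_123_s3 k273_A00pm_123_s3

theorem t312_A00pm_123_s3 : ∃ t, chk3 f_A00pm_123_s3 t 254 125 1 = true := ex3_a t311_A00pm_123_s3 t310_A00pm_123_s3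

theorem t313_A00pm_123_s3 : ∃ t, chk3 f_A00pm_123_s3 t 1018 124 1 = true := ex3_c k269_A00pm_123_s3 k270_A00pm_123_s3

theorem t314_A00pm_123_s3 : ∃ t, chk3 f_A00pm_123_s3 t 509 124 1 = true := ex3_a t313_A00pm_123_s3 k271_A00pm_123_s3

theorem t315_A00pm_123_s3 : ∃ t, chk3 f_A00pm_123_s3 t 508 124 3 = true := ex3_b k267_A00pm_123_s3 k268_A00pm_123_s3

theorem t316_A00pm_123_s3 : ∃ t, chk3 f_A00pm_123_s3 t 508 124 2 = true := ex3_a k265_A00pm_123_s3 k266_A00pm_123_s3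

theorem t317_A00pm_123_s3 : ∃ t, chk3 f_A00pm_123_s3 t 508 124 1 = true := ex3_c t316_A00pm_123_s3 t315_A00pm_123_s3

theorem t318_A00pm_123_s3 : ∃ t, chk3 f_A00pm_123_s3 t 254 124 1 = true := ex3_a t317_A00pm_123_s3 t314_A00pm_123_s3

theorem t319_A00pm_123_s3 : ∃ t, chk3 f_A00pm_123_s3 t 254 62 1 = true := ex3_b t318_A00pm_123_s3 t312_A00pm_123_s3

theorem t320_A00pm_123_s3 : ∃ t, chk3 f_A00pm_123_s3 t 254 31 1 = true := ex3_b t319_A00pm_123_s3 t308_A00pm_123_s3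

theorem t321_A00pm_123_s3 : ∃ t, chk3 f_A00pm_123_s3 t 509 123 1 = true := ex3_a k263_A00pm_123_s3 k264_A00pm_123_s3

theorem t322_A00pm_123_s3 : ∃ t, chk3 f_A00pm_123_s3 t 2037 245 1 = true := ex3_c k260_A00pm_123_s3 k261_A00pm_123_s3

theorem t323_A00pm_123_s3 : ∃ t, chk3 f_A00pm_123_s3 t 1018 245 1 = true := ex3_a k259_A00pm_123_s3 t322_A00pm_123_s3

theorem t324_A00pm_123_s3 : ∃ t, chk3 f_A00pm_123_s3 t 4074 489 1 = true := ex3_b k256_A00pm_123_s3 k257_A00pm_123_s3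

theorem t325_A00pm_123_s3 : ∃ t, chk3 f_A00pm_123_s3 t 2037 489 1 = true := ex3_a t324_A00pm_123_s3 k258_A00pm_123_s3

theorem t326_A00pm_123_s3 : ∃ t, chk3 f_A00pm_123_s3 t 2037 244 1 = true := ex3_b k255_A00pm_123_s3 t325_A00pm_123_s3

theorem t327_A00pm_123_s3 : ∃ t, chk3 f_A00pm_123_s3 t 2036 488 1 = true := ex3_c k252_A00pm_123_s3 k253_A00pm_123_s3

theorem t328_A00pm_123_s3 : ∃ t, chk3 f_A00pm_123_s3 t 2036 244 1 = true := ex3_b t327_A00pm_123_s3 k254_A00pm_123_s3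

theorem t329_A00pm_123_s3 : ∃ t, chk3 f_A00pm_123_s3 t 1018 244 1 = true := ex3_a t328_A00pm_123_s3 t326_A00pm_123_s3

theorem t330_A00pm_123_s3 : ∃ t, chk3 f_A00pm_123_s3 t 1018 122 1 = true := ex3_b t329_A00pm_123_s3 t323_A00pm_123_s3

theorem t331_A00pm_123_s3 : ∃ t, chk3 f_A00pm_123_s3 t 509 122 1 = true := ex3_a t330_A00pm_123_s3 k262_A00pm_123_s3

theorem t332_A00pm_123_s3 : ∃ t, chk3 f_A00pm_123_s3 t 509 61 1 = true := ex3_b t331_A00pm_123_s3 t321_A00pm_123_s3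

theorem t333_A00pm_123_s3 : ∃ t, chk3 f_A00pm_123_s3 t 508 123 2 = true := ex3_b k249_A00pm_123_s3 k250_A00pm_123_s3

theorem t334_A00pm_123_s3 : ∃ t, chk3 f_A00pm_123_s3 t 508 123 1 = true := ex3_c t333_A00pm_123_s3 k251_A00pm_123_s3

theorem t335_A00pm_123_s3 : ∃ t, chk3 f_A00pm_123_s3 t 508 122 1 = true := ex3_a k247_A00pm_123_s3 k248_A00pm_123_s3

theorem t336_A00pm_123_s3 : ∃ t, chk3 f_A00pm_123_s3 t 508 61 1 = true := ex3_b t335_A00pm_123_s3 t334_A00pm_123_s3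

theorem t337_A00pm_123_s3 : ∃ t, chk3 f_A00pm_123_s3 t 254 61 1 = true := ex3_a t336_A00pm_123_s3 t332_A00pm_123_s3

theorem t338_A00pm_123_s3 : ∃ t, chk3 f_A00pm_123_s3 t 1019 243 1 = true := ex3_a k245_A00pm_123_s3 k246_A00pm_123_s3

theorem t339_A00pm_123_s3 : ∃ t, chk3 f_A00pm_123_s3 t 2039 242 1 = true := ex3_b k243_A00pm_123_s3 k244_A00pm_123_s3

theorem t340_A00pm_123_s3 : ∃ t, chk3 f_A00pm_123_s3 t 1019 242 1 = true := ex3_a k242_A00pm_123_s3 t339_A00pm_123_s3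

theorem t341_A00pm_123_s3 : ∃ t, chk3 f_A00pm_123_s3 t 1019 121 1 = true := ex3_b t340_A00pm_123_s3 t338_A00pm_123_s3

theorem t342_A00pm_123_s3 : ∃ t, chk3 f_A00pm_123_s3 t 1018 121 1 = true := ex3_b k240_A00pm_123_s3 k241_A00pm_123_s3

theorem t343_A00pm_123_s3 : ∃ t, chk3 f_A00pm_123_s3 t 509 121 1 = true := ex3_a t342_A00pm_123_s3 t341_A00pm_123_s3

theorem t344_A00pm_123_s3 : ∃ t, chk3 f_A00pm_123_s3 t 2038 241 1 = true := ex3_b k237_A00pm_123_s3 k238_A00pm_123_s3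

theorem t345_A00pm_123_s3 : ∃ t, chk3 f_A00pm_123_s3 t 1019 241 1 = true := ex3_a t344_A00pm_123_s3 k239_A00pm_123_s3

theorem t346_A00pm_123_s3 : ∃ t, chk3 f_A00pm_123_s3 t 1019 120 1 = true := ex3_b k236_A00pm_123_s3 t345_A00pm_123_s3

theorem t347_A00pm_123_s3 : ∃ t, chk3 f_A00pm_123_s3 t 1018 241 1 = true := ex3_a k234_A00pm_123_s3 k235_A00pm_123_s3

theorem t348_A00pm_123_s3 : ∃ t, chk3 f_A00pm_123_s3 t 2037 480 3 = true := ex3_a k231_A00pm_123_s3 k232_A00pm_123_s3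

theorem t349_A00pm_123_s3 : ∃ t, chk3 f_A00pm_123_s3 t 2037 240 3 = true := ex3_b t348_A00pm_123_s3 k233_A00pm_123_s3

theorem t350_A00pm_123_s3 : ∃ t, chk3 f_A00pm_123_s3 t 1018 240 3 = true := ex3_a k230_A00pm_123_s3 t349_A00pm_123_s3

theorem t351_A00pm_123_s3 : ∃ t, chk3 f_A00pm_123_s3 t 4075 480 2 = true := ex3_a k227_A00pm_123_s3 k228_A00pm_123_s3

theorem t352_A00pm_123_s3 : ∃ t, chk3 f_A00pm_123_s3 t 2037 480 2 = true := ex3_a k226_A00pm_123_s3 t351_A00pm_123_s3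

theorem t353_A00pm_123_s3 : ∃ t, chk3 f_A00pm_123_s3 t 1018 480 2 = true := ex3_a k225_A00pm_123_s3 t352_A00pm_123_s3

theorem t354_A00pm_123_s3 : ∃ t, chk3 f_A00pm_123_s3 t 1018 240 2 = true := ex3_b t353_A00pm_123_s3 k229_A00pm_123_s3

theorem t355_A00pm_123_s3 : ∃ t, chk3 f_A00pm_123_s3 t 1018 240 1 = true := ex3_c t354_A00pm_123_s3 t350_A00pm_123_s3

theorem t356_A00pm_123_s3 : ∃ t, chk3 f_A00pm_123_s3 t 1018 120 1 = true := ex3_b t355_A00pm_123_s3 t347_A00pm_123_s3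

theorem t357_A00pm_123_s3 : ∃ t, chk3 f_A00pm_123_s3 t 509 120 1 = true := ex3_a t356_A00pm_123_s3 t346_A00pm_123_s3

theorem t358_A00pm_123_s3 : ∃ t, chk3 f_A00pm_123_s3 t 509 60 1 = true := ex3_b t357_A00pm_123_s3 t343_A00pm_123_s3

theorem t359_A00pm_123_s3 : ∃ t, chk3 f_A00pm_123_s3 t 2035 243 1 = true := ex3_a k223_A00pm_123_s3 k224_A00pm_123_s3

theorem t360_A00pm_123_s3 : ∃ t, chk3 f_A00pm_123_s3 t 2034 243 1 = true := ex3_b k221_A00pm_123_s3 k222_A00pm_123_s3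

theorem t361_A00pm_123_s3 : ∃ t, chk3 f_A00pm_123_s3 t 1017 243 1 = true := ex3_a t360_A00pm_123_s3 t359_A00pm_123_s3

theorem t362_A00pm_123_s3 : ∃ t, chk3 f_A00pm_123_s3 t 1017 121 1 = true := ex3_b k220_A00pm_123_s3 t361_A00pm_123_s3

theorem t363_A00pm_123_s3 : ∃ t, chk3 f_A00pm_123_s3 t 2035 240 1 = true := ex3_b k217_A00pm_123_s3 k218_A00pm_123_s3

theorem t364_A00pm_123_s3 : ∃ t, chk3 f_A00pm_123_s3 t 1017 240 1 = true := ex3_a k216_A00pm_123_s3 t363_A00pm_123_s3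

theorem t365_A00pm_123_s3 : ∃ t, chk3 f_A00pm_123_s3 t 1017 120 1 = true := ex3_b t364_A00pm_123_s3 k219_A00pm_123_s3

theorem t366_A00pm_123_s3 : ∃ t, chk3 f_A00pm_123_s3 t 1017 60 1 = true := ex3_b t365_A00pm_123_s3 t362_A00pm_123_s3

theorem t367_A00pm_123_s3 : ∃ t, chk3 f_A00pm_123_s3 t 1016 242 1 = true := ex3_b k213_A00pm_123_s3 k214_A00pm_123_s3

theorem t368_A00pm_123_s3 : ∃ t, chk3 f_A00pm_123_s3 t 1016 121 1 = true := ex3_b t367_A00pm_123_s3 k215_A00pm_123_s3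

theorem t369_A00pm_123_s3 : ∃ t, chk3 f_A00pm_123_s3 t 1016 60 1 = true := ex3_b k212_A00pm_123_s3 t368_A00pm_123_s3

theorem t370_A00pm_123_s3 : ∃ t, chk3 f_A00pm_123_s3 t 508 60 1 = true := ex3_a t369_A00pm_123_s3 t366_A00pm_123_s3

theorem t371_A00pm_123_s3 : ∃ t, chk3 f_A00pm_123_s3 t 254 60 1 = true := ex3_a t370_A00pm_123_s3 t358_A00pm_123_s3

theorem t372_A00pm_123_s3 : ∃ t, chk3 f_A00pm_123_s3 t 254 30 1 = true := ex3_b t371_A00pm_123_s3 t337_A00pm_123_s3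

theorem t373_A00pm_123_s3 : ∃ t, chk3 f_A00pm_123_s3 t 254 15 1 = true := ex3_b t372_A00pm_123_s3 t320_A00pm_123_s3

theorem t374_A00pm_123_s3 : ∃ t, chk3 f_A00pm_123_s3 t 127 15 1 = true := ex3_a t373_A00pm_123_s3 t301_A00pm_123_s3

theorem t375_A00pm_123_s3 : ∃ t, chk3 f_A00pm_123_s3 t 1015 63 1 = true := ex3_c k210_A00pm_123_s3 k211_A00pm_123_s3

theorem t376_A00pm_123_s3 : ∃ t, chk3 f_A00pm_123_s3 t 507 63 1 = true := ex3_a k209_A00pm_123_s3 t375_A00pm_123_s3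

theorem t377_A00pm_123_s3 : ∃ t, chk3 f_A00pm_123_s3 t 253 63 1 = true := ex3_a k208_A00pm_123_s3 t376_A00pm_123_s3

theorem t378_A00pm_123_s3 : ∃ t, chk3 f_A00pm_123_s3 t 126 63 1 = true := ex3_a k207_A00pm_123_s3 t377_A00pm_123_s3

theorem t379_A00pm_123_s3 : ∃ t, chk3 f_A00pm_123_s3 t 253 62 2 = true := ex3_b k204_A00pm_123_s3 k205_A00pm_123_s3

theorem t380_A00pm_123_s3 : ∃ t, chk3 f_A00pm_123_s3 t 126 62 2 = true := ex3_a k203_A00pm_123_s3 t379_A00pm_123_s3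

theorem t381_A00pm_123_s3 : ∃ t, chk3 f_A00pm_123_s3 t 126 62 1 = true := ex3_c t380_A00pm_123_s3 k206_A00pm_123_s3

theorem t382_A00pm_123_s3 : ∃ t, chk3 f_A00pm_123_s3 t 126 31 1 = true := ex3_b t381_A00pm_123_s3 t378_A00pm_123_s3

theorem t383_A00pm_123_s3 : ∃ t, chk3 f_A00pm_123_s3 t 253 61 3 = true := ex3_b k201_A00pm_123_s3 k202_A00pm_123_s3

theorem t384_A00pm_123_s3 : ∃ t, chk3 f_A00pm_123_s3 t 253 123 2 = true := ex3_a k199_A00pm_123_s3 k200_A00pm_123_s3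

theorem t385_A00pm_123_s3 : ∃ t, chk3 f_A00pm_123_s3 t 253 61 2 = true := ex3_b k198_A00pm_123_s3 t384_A00pm_123_s3

theorem t386_A00pm_123_s3 : ∃ t, chk3 f_A00pm_123_s3 t 253 61 1 = true := ex3_c t385_A00pm_123_s3 t383_A00pm_123_s3

theorem t387_A00pm_123_s3 : ∃ t, chk3 f_A00pm_123_s3 t 126 61 1 = true := ex3_a k197_A00pm_123_s3 t386_A00pm_123_s3

theorem t388_A00pm_123_s3 : ∃ t, chk3 f_A00pm_123_s3 t 507 241 1 = true := ex3_a k194_A00pm_123_s3 k195_A00pm_123_s3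

theorem t389_A00pm_123_s3 : ∃ t, chk3 f_A00pm_123_s3 t 507 120 1 = true := ex3_b k193_A00pm_123_s3 t388_A00pm_123_s3

theorem t390_A00pm_123_s3 : ∃ t, chk3 f_A00pm_123_s3 t 253 120 1 = true := ex3_a k192_A00pm_123_s3 t389_A00pm_123_s3

theorem t391_A00pm_123_s3 : ∃ t, chk3 f_A00pm_123_s3 t 253 60 1 = true := ex3_b t390_A00pm_123_s3 k196_A00pm_123_s3

theorem t392_A00pm_123_s3 : ∃ t, chk3 f_A00pm_123_s3 t 126 60 1 = true := ex3_a k191_A00pm_123_s3 t391_A00pm_123_s3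

theorem t393_A00pm_123_s3 : ∃ t, chk3 f_A00pm_123_s3 t 126 30 1 = true := ex3_b t392_A00pm_123_s3 t387_A00pm_123_s3

theorem t394_A00pm_123_s3 : ∃ t, chk3 f_A00pm_123_s3 t 126 15 1 = true := ex3_b t393_A00pm_123_s3 t382_A00pm_123_s3

theorem t395_A00pm_123_s3 : ∃ t, chk3 f_A00pm_123_s3 t 63 15 1 = true := ex3_a t394_A00pm_123_s3 t374_A00pm_123_s3

theorem t396_A00pm_123_s3 : ∃ t, chk3 f_A00pm_123_s3 t 31 15 1 = true := ex3_a k190_A00pm_123_s3 t395_A00pm_123_s3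

theorem t397_A00pm_123_s3 : ∃ t, chk3 f_A00pm_123_s3 t 15 15 1 = true := ex3_a k189_A00pm_123_s3 t396_A00pm_123_s3

theorem t398_A00pm_123_s3 : ∃ t, chk3 f_A00pm_123_s3 t 2036 239 3 = true := ex3_b k184_A00pm_123_s3 k185_A00pm_123_s3

theorem t399_A00pm_123_s3 : ∃ t, chk3 f_A00pm_123_s3 t 1018 239 3 = true := ex3_a t398_A00pm_123_s3 k186_A00pm_123_s3

theorem t400_A00pm_123_s3 : ∃ t, chk3 f_A00pm_123_s3 t 1018 119 3 = true := ex3_b k183_A00pm_123_s3 t399_A00pm_123_s3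

theorem t401_A00pm_123_s3 : ∃ t, chk3 f_A00pm_123_s3 t 509 119 3 = true := ex3_a t400_A00pm_123_s3 k187_A00pm_123_s3

theorem t402_A00pm_123_s3 : ∃ t, chk3 f_A00pm_123_s3 t 509 59 3 = true := ex3_b k182_A00pm_123_s3 t401_A00pm_123_s3

theorem t403_A00pm_123_s3 : ∃ t, chk3 f_A00pm_123_s3 t 1017 239 3 = true := ex3_a k180_A00pm_123_s3 k181_A00pm_123_s3

theorem t404_A00pm_123_s3 : ∃ t, chk3 f_A00pm_123_s3 t 2035 477 3 = true := ex3_a k178_A00pm_123_s3 k179_A00pm_123_s3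

theorem t405_A00pm_123_s3 : ∃ t, chk3 f_A00pm_123_s3 t 2035 476 3 = true := ex3_a k176_A00pm_123_s3 k177_A00pm_123_s3

theorem t406_A00pm_123_s3 : ∃ t, chk3 f_A00pm_123_s3 t 2035 238 3 = true := ex3_b t405_A00pm_123_s3 t404_A00pm_123_s3

theorem t407_A00pm_123_s3 : ∃ t, chk3 f_A00pm_123_s3 t 2034 238 3 = true := ex3_b k174_A00pm_123_s3 k175_A00pm_123_s3

theorem t408_A00pm_123_s3 : ∃ t, chk3 f_A00pm_123_s3 t 1017 238 3 = true := ex3_a t407_A00pm_123_s3 t406_A00pm_123_s3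

theorem t409_A00pm_123_s3 : ∃ t, chk3 f_A00pm_123_s3 t 1017 119 3 = true := ex3_b t408_A00pm_123_s3 t403_A00pm_123_s3

theorem t410_A00pm_123_s3 : ∃ t, chk3 f_A00pm_123_s3 t 1016 119 3 = true := ex3_b k172_A00pm_123_s3 k173_A00pm_123_s3

theorem t411_A00pm_123_s3 : ∃ t, chk3 f_A00pm_123_s3 t 508 119 3 = true := ex3_a t410_A00pm_123_s3 t409_A00pm_123_s3

theorem t412_A00pm_123_s3 : ∃ t, chk3 f_A00pm_123_s3 t 4069 475 3 = true := ex3_b k169_A00pm_123_s3 k170_A00pm_123_s3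

theorem t413_A00pm_123_s3 : ∃ t, chk3 f_A00pm_123_s3 t 2034 475 3 = true := ex3_a k168_A00pm_123_s3 t412_A00pm_123_s3

theorem t414_A00pm_123_s3 : ∃ t, chk3 f_A00pm_123_s3 t 2034 237 3 = true := ex3_b k167_A00pm_123_s3 t413_A00pm_123_s3

theorem t415_A00pm_123_s3 : ∃ t, chk3 f_A00pm_123_s3 t 1017 237 3 = true := ex3_a t414_A00pm_123_s3 k171_A00pm_123_s3

theorem t416_A00pm_123_s3 : ∃ t, chk3 f_A00pm_123_s3 t 1017 118 3 = true := ex3_b k166_A00pm_123_s3 t415_A00pm_123_s3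

theorem t417_A00pm_123_s3 : ∃ t, chk3 f_A00pm_123_s3 t 4067 948 3 = true := ex3_a k162_A00pm_123_s3 k163_A00pm_123_s3

theorem t418_A00pm_123_s3 : ∃ t, chk3 f_A00pm_123_s3 t 4067 474 3 = true := ex3_b t417_A00pm_123_s3 k164_A00pm_123_s3

theorem t419_A00pm_123_s3 : ∃ t, chk3 f_A00pm_123_s3 t 2033 474 3 = true := ex3_a k161_A00pm_123_s3 t418_A00pm_123_s3

theorem t420_A00pm_123_s3 : ∃ t, chk3 f_A00pm_123_s3 t 2033 237 3 = true := ex3_b t419_A00pm_123_s3 k165_A00pm_123_s3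

theorem t421_A00pm_123_s3 : ∃ t, chk3 f_A00pm_123_s3 t 1016 237 3 = true := ex3_a k160_A00pm_123_s3 t420_A00pm_123_s3

theorem t422_A00pm_123_s3 : ∃ t, chk3 f_A00pm_123_s3 t 4066 947 3 = true := ex3_b k157_A00pm_123_s3 k158_A00pm_123_s3

theorem t423_A00pm_123_s3 : ∃ t, chk3 f_A00pm_123_s3 t 4066 473 3 = true := ex3_b k156_A00pm_123_s3 t422_A00pm_123_s3

theorem t424_A00pm_123_s3 : ∃ t, chk3 f_A00pm_123_s3 t 2033 473 3 = true := ex3_a t423_A00pm_123_s3 k159_A00pm_123_s3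

theorem t425_A00pm_123_s3 : ∃ t, chk3 f_A00pm_123_s3 t 2033 236 3 = true := ex3_b k155_A00pm_123_s3 t424_A00pm_123_s3

theorem t426_A00pm_123_s3 : ∃ t, chk3 f_A00pm_123_s3 t 2032 473 3 = true := ex3_a k153_A00pm_123_s3 k154_A00pm_123_s3

theorem t427_A00pm_123_s3 : ∃ t, chk3 f_A00pm_123_s3 t 4065 472 3 = true := ex3_b k151_A00pm_123_s3 k152_A00pm_123_s3

theorem t428_A00pm_123_s3 : ∃ t, chk3 f_A00pm_123_s3 t 4064 472 3 = true := ex3_b k149_A00pm_123_s3 k150_A00pm_123_s3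

theorem t429_A00pm_123_s3 : ∃ t, chk3 f_A00pm_123_s3 t 2032 472 3 = true := ex3_a t428_A00pm_123_s3 t427_A00pm_123_s3

theorem t430_A00pm_123_s3 : ∃ t, chk3 f_A00pm_123_s3 t 2032 236 3 = true := ex3_b t429_A00pm_123_s3 t426_A00pm_123_s3

theorem t431_A00pm_123_s3 : ∃ t, chk3 f_A00pm_123_s3 t 1016 236 3 = true := ex3_a t430_A00pm_123_s3 t425_A00pm_123_s3

theorem t432_A00pm_123_s3 : ∃ t, chk3 f_A00pm_123_s3 t 1016 118 3 = true := ex3_b t431_A00pm_123_s3 t421_A00pm_123_s3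

theorem t433_A00pm_123_s3 : ∃ t, chk3 f_A00pm_123_s3 t 508 118 3 = true := ex3_a t432_A00pm_123_s3 t416_A00pm_123_s3

theorem t434_A00pm_123_s3 : ∃ t, chk3 f_A00pm_123_s3 t 508 59 3 = true := ex3_b t433_A00pm_123_s3 t411_A00pm_123_s3

theorem t435_A00pm_123_s3 : ∃ t, chk3 f_A00pm_123_s3 t 254 59 3 = true := ex3_a t434_A00pm_123_s3 t402_A00pm_123_s3

theorem t436_A00pm_123_s3 : ∃ t, chk3 f_A00pm_123_s3 t 127 59 3 = true := ex3_a t435_A00pm_123_s3 k188_A00pm_123_s3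

theorem t437_A00pm_123_s3 : ∃ t, chk3 f_A00pm_123_s3 t 127 29 3 = true := ex3_b k148_A00pm_123_s3 t436_A00pm_123_s3

theorem t438_A00pm_123_s3 : ∃ t, chk3 f_A00pm_123_s3 t 2037 239 2 = true := ex3_b k144_A00pm_123_s3 k145_A00pm_123_s3

theorem t439_A00pm_123_s3 : ∃ t, chk3 f_A00pm_123_s3 t 2036 478 2 = true := ex3_a k141_A00pm_123_s3 k142_A00pm_123_s3

theorem t440_A00pm_123_s3 : ∃ t, chk3 f_A00pm_123_s3 t 2036 239 2 = true := ex3_b t439_A00pm_123_s3 k143_A00pm_123_s3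

theorem t441_A00pm_123_s3 : ∃ t, chk3 f_A00pm_123_s3 t 1018 239 2 = true := ex3_a t440_A00pm_123_s3 t438_A00pm_123_s3

theorem t442_A00pm_123_s3 : ∃ t, chk3 f_A00pm_123_s3 t 2036 477 2 = true := ex3_a k138_A00pm_123_s3 k139_A00pm_123_s3

theorem t443_A00pm_123_s3 : ∃ t, chk3 f_A00pm_123_s3 t 2036 238 2 = true := ex3_b k137_A00pm_123_s3 t442_A00pm_123_s3

theorem t444_A00pm_123_s3 : ∃ t, chk3 f_A00pm_123_s3 t 1018 238 2 = true := ex3_a t443_A00pm_123_s3 k140_A00pm_123_s3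

theorem t445_A00pm_123_s3 : ∃ t, chk3 f_A00pm_123_s3 t 1018 119 2 = true := ex3_b t444_A00pm_123_s3 t441_A00pm_123_s3

theorem t446_A00pm_123_s3 : ∃ t, chk3 f_A00pm_123_s3 t 509 119 2 = true := ex3_a t445_A00pm_123_s3 k146_A00pm_123_s3

theorem t447_A00pm_123_s3 : ∃ t, chk3 f_A00pm_123_s3 t 509 59 2 = true := ex3_b k136_A00pm_123_s3 t446_A00pm_123_s3

theorem t448_A00pm_123_s3 : ∃ t, chk3 f_A00pm_123_s3 t 2035 239 2 = true := ex3_b k134_A00pm_123_s3 k135_A00pm_123_s3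

theorem t449_A00pm_123_s3 : ∃ t, chk3 f_A00pm_123_s3 t 1017 239 2 = true := ex3_a k133_A00pm_123_s3 t448_A00pm_123_s3

theorem t450_A00pm_123_s3 : ∃ t, chk3 f_A00pm_123_s3 t 4071 954 2 = true := ex3_a k130_A00pm_123_s3 k131_A00pm_123_s3

theorem t451_A00pm_123_s3 : ∃ t, chk3 f_A00pm_123_s3 t 4071 477 2 = true := ex3_b t450_A00pm_123_s3 k132_A00pm_123_s3

theorem t452_A00pm_123_s3 : ∃ t, chk3 f_A00pm_123_s3 t 2035 477 2 = true := ex3_a k129_A00pm_123_s3 t451_A00pm_123_s3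

theorem t453_A00pm_123_s3 : ∃ t, chk3 f_A00pm_123_s3 t 4070 952 2 = true := ex3_a k125_A00pm_123_s3 k126_A00pm_123_s3

theorem t454_A00pm_123_s3 : ∃ t, chk3 f_A00pm_123_s3 t 4070 476 2 = true := ex3_b t453_A00pm_123_s3 k127_A00pm_123_s3

theorem t455_A00pm_123_s3 : ∃ t, chk3 f_A00pm_123_s3 t 2035 476 2 = true := ex3_a t454_A00pm_123_s3 k128_A00pm_123_s3

theorem t456_A00pm_123_s3 : ∃ t, chk3 f_A00pm_123_s3 t 2035 238 2 = true := ex3_b t455_A00pm_123_s3 t452_A00pm_123_s3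

theorem t457_A00pm_123_s3 : ∃ t, chk3 f_A00pm_123_s3 t 2034 476 2 = true := ex3_a k122_A00pm_123_s3 k123_A00pm_123_s3

theorem t458_A00pm_123_s3 : ∃ t, chk3 f_A00pm_123_s3 t 2034 238 2 = true := ex3_b t457_A00pm_123_s3 k124_A00pm_123_s3

theorem t459_A00pm_123_s3 : ∃ t, chk3 f_A00pm_123_s3 t 1017 238 2 = true := ex3_a t458_A00pm_123_s3 t456_A00pm_123_s3

theorem t460_A00pm_123_s3 : ∃ t, chk3 f_A00pm_123_s3 t 1017 119 2 = true := ex3_b t459_A00pm_123_s3 t449_A00pm_123_s3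

theorem t461_A00pm_123_s3 : ∃ t, chk3 f_A00pm_123_s3 t 1016 119 2 = true := ex3_b k120_A00pm_123_s3 k121_A00pm_123_s3

theorem t462_A00pm_123_s3 : ∃ t, chk3 f_A00pm_123_s3 t 508 119 2 = true := ex3_a t461_A00pm_123_s3 t460_A00pm_123_s3

theorem t463_A00pm_123_s3 : ∃ t, chk3 f_A00pm_123_s3 t 4069 951 2 = true := ex3_a k117_A00pm_123_s3 k118_A00pm_123_s3

theorem t464_A00pm_123_s3 : ∃ t, chk3 f_A00pm_123_s3 t 4069 475 2 = true := ex3_b k116_A00pm_123_s3 t463_A00pm_123_s3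

theorem t465_A00pm_123_s3 : ∃ t, chk3 f_A00pm_123_s3 t 4068 475 2 = true := ex3_b k114_A00pm_123_s3 k115_A00pm_123_s3

theorem t466_A00pm_123_s3 : ∃ t, chk3 f_A00pm_123_s3 t 2034 475 2 = true := ex3_a t465_A00pm_123_s3 t464_A00pm_123_s3

theorem t467_A00pm_123_s3 : ∃ t, chk3 f_A00pm_123_s3 t 2034 237 2 = true := ex3_b k113_A00pm_123_s3 t466_A00pm_123_s3

theorem t468_A00pm_123_s3 : ∃ t, chk3 f_A00pm_123_s3 t 1017 237 2 = true := ex3_a t467_A00pm_123_s3 k119_A00pm_123_s3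

theorem t469_A00pm_123_s3 : ∃ t, chk3 f_A00pm_123_s3 t 1017 118 2 = true := ex3_b k112_A00pm_123_s3 t468_A00pm_123_s3

theorem t470_A00pm_123_s3 : ∃ t, chk3 f_A00pm_123_s3 t 4067 474 2 = true := ex3_b k109_A00pm_123_s3 k110_A00pm_123_s3

theorem t471_A00pm_123_s3 : ∃ t, chk3 f_A00pm_123_s3 t 2033 474 2 = true := ex3_a k108_A00pm_123_s3 t470_A00pm_123_s3

theorem t472_A00pm_123_s3 : ∃ t, chk3 f_A00pm_123_s3 t 2033 237 2 = true := ex3_b t471_A00pm_123_s3 k111_A00pm_123_s3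

theorem t473_A00pm_123_s3 : ∃ t, chk3 f_A00pm_123_s3 t 1016 237 2 = true := ex3_a k107_A00pm_123_s3 t472_A00pm_123_s3

theorem t474_A00pm_123_s3 : ∃ t, chk3 f_A00pm_123_s3 t 2033 473 2 = true := ex3_a k105_A00pm_123_s3 k106_A00pm_123_s3

theorem t475_A00pm_123_s3 : ∃ t, chk3 f_A00pm_123_s3 t 2033 236 2 = true := ex3_b k104_A00pm_123_s3 t474_A00pm_123_s3

theorem t476_A00pm_123_s3 : ∃ t, chk3 f_A00pm_123_s3 t 2032 236 2 = true := ex3_b k102_A00pm_123_s3 k103_A00pm_123_s3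

theorem t477_A00pm_123_s3 : ∃ t, chk3 f_A00pm_123_s3 t 1016 236 2 = true := ex3_a t476_A00pm_123_s3 t475_A00pm_123_s3

theorem t478_A00pm_123_s3 : ∃ t, chk3 f_A00pm_123_s3 t 1016 118 2 = true := ex3_b t477_A00pm_123_s3 t473_A00pm_123_s3

theorem t479_A00pm_123_s3 : ∃ t, chk3 f_A00pm_123_s3 t 508 118 2 = true := ex3_a t478_A00pm_123_s3 t469_A00pm_123_s3

theorem t480_A00pm_123_s3 : ∃ t, chk3 f_A00pm_123_s3 t 508 59 2 = true := ex3_b t479_A00pm_123_s3 t462_A00pm_123_s3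

theorem t481_A00pm_123_s3 : ∃ t, chk3 f_A00pm_123_s3 t 254 59 2 = true := ex3_a t480_A00pm_123_s3 t447_A00pm_123_s3

theorem t482_A00pm_123_s3 : ∃ t, chk3 f_A00pm_123_s3 t 127 59 2 = true := ex3_a t481_A00pm_123_s3 k147_A00pm_123_s3

theorem t483_A00pm_123_s3 : ∃ t, chk3 f_A00pm_123_s3 t 127 29 2 = true := ex3_b k101_A00pm_123_s3 t482_A00pm_123_s3

theorem t484_A00pm_123_s3 : ∃ t, chk3 f_A00pm_123_s3 t 127 29 1 = true := ex3_c t483_A00pm_123_s3 t437_A00pm_123_s3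

theorem t485_A00pm_123_s3 : ∃ t, chk3 f_A00pm_123_s3 t 127 14 1 = true := ex3_b k100_A00pm_123_s3 t484_A00pm_123_s3

theorem t486_A00pm_123_s3 : ∃ t, chk3 f_A00pm_123_s3 t 507 119 1 = true := ex3_a k98_A00pm_123_s3 k99_A00pm_123_s3

theorem t487_A00pm_123_s3 : ∃ t, chk3 f_A00pm_123_s3 t 506 119 1 = true := ex3_a k96_A00pm_123_s3 k97_A00pm_123_s3

theorem t488_A00pm_123_s3 : ∃ t, chk3 f_A00pm_123_s3 t 253 119 1 = true := ex3_a t487_A00pm_123_s3 t486_A00pm_123_s3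

theorem t489_A00pm_123_s3 : ∃ t, chk3 f_A00pm_123_s3 t 2031 236 1 = true := ex3_b k93_A00pm_123_s3 k94_A00pm_123_s3

theorem t490_A00pm_123_s3 : ∃ t, chk3 f_A00pm_123_s3 t 1015 236 1 = true := ex3_a k92_A00pm_123_s3 t489_A00pm_123_s3

theorem t491_A00pm_123_s3 : ∃ t, chk3 f_A00pm_123_s3 t 1015 118 1 = true := ex3_b t490_A00pm_123_s3 k95_A00pm_123_s3

theorem t492_A00pm_123_s3 : ∃ t, chk3 f_A00pm_123_s3 t 507 118 1 = true := ex3_a k91_A00pm_123_s3 t491_A00pm_123_s3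

theorem t493_A00pm_123_s3 : ∃ t, chk3 f_A00pm_123_s3 t 253 118 1 = true := ex3_a k90_A00pm_123_s3 t492_A00pm_123_s3

theorem t494_A00pm_123_s3 : ∃ t, chk3 f_A00pm_123_s3 t 253 59 1 = true := ex3_b t493_A00pm_123_s3 t488_A00pm_123_s3

theorem t495_A00pm_123_s3 : ∃ t, chk3 f_A00pm_123_s3 t 4063 471 1 = true := ex3_a k88_A00pm_123_s3 k89_A00pm_123_s3

theorem t496_A00pm_123_s3 : ∃ t, chk3 f_A00pm_123_s3 t 2031 471 1 = true := ex3_a k87_A00pm_123_s3 t495_A00pm_123_s3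

theorem t497_A00pm_123_s3 : ∃ t, chk3 f_A00pm_123_s3 t 2031 235 1 = true := ex3_b k86_A00pm_123_s3 t496_A00pm_123_s3

theorem t498_A00pm_123_s3 : ∃ t, chk3 f_A00pm_123_s3 t 2030 470 1 = true := ex3_a k83_A00pm_123_s3 k84_A00pm_123_s3

theorem t499_A00pm_123_s3 : ∃ t, chk3 f_A00pm_123_s3 t 2030 235 1 = true := ex3_b t498_A00pm_123_s3 k85_A00pm_123_s3

theorem t500_A00pm_123_s3 : ∃ t, chk3 f_A00pm_123_s3 t 1015 235 1 = true := ex3_a t499_A00pm_123_s3 t497_A00pm_123_s3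

theorem t501_A00pm_123_s3 : ∃ t, chk3 f_A00pm_123_s3 t 1015 117 1 = true := ex3_b k82_A00pm_123_s3 t500_A00pm_123_s3

theorem t502_A00pm_123_s3 : ∃ t, chk3 f_A00pm_123_s3 t 2029 234 1 = true := ex3_b k79_A00pm_123_s3 k80_A00pm_123_s3

theorem t503_A00pm_123_s3 : ∃ t, chk3 f_A00pm_123_s3 t 1014 234 1 = true := ex3_a k78_A00pm_123_s3 t502_A00pm_123_s3

theorem t504_A00pm_123_s3 : ∃ t, chk3 f_A00pm_123_s3 t 1014 117 1 = true := ex3_b t503_A00pm_123_s3 k81_A00pm_123_s3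

theorem t505_A00pm_123_s3 : ∃ t, chk3 f_A00pm_123_s3 t 507 117 1 = true := ex3_a t504_A00pm_123_s3 t501_A00pm_123_s3

theorem t506_A00pm_123_s3 : ∃ t, chk3 f_A00pm_123_s3 t 507 58 1 = true := ex3_b k77_A00pm_123_s3 t505_A00pm_123_s3

theorem t507_A00pm_123_s3 : ∃ t, chk3 f_A00pm_123_s3 t 506 117 1 = true := ex3_a k75_A00pm_123_s3 k76_A00pm_123_s3

theorem t508_A00pm_123_s3 : ∃ t, chk3 f_A00pm_123_s3 t 1013 116 1 = true := ex3_b k73_A00pm_123_s3 k74_A00pm_123_s3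

theorem t509_A00pm_123_s3 : ∃ t, chk3 f_A00pm_123_s3 t 506 116 1 = true := ex3_a k72_A00pm_123_s3 t508_A00pm_123_s3

theorem t510_A00pm_123_s3 : ∃ t, chk3 f_A00pm_123_s3 t 506 58 1 = true := ex3_b t509_A00pm_123_s3 t507_A00pm_123_s3

theorem t511_A00pm_123_s3 : ∃ t, chk3 f_A00pm_123_s3 t 253 58 1 = true := ex3_a t510_A00pm_123_s3 t506_A00pm_123_s3

theorem t512_A00pm_123_s3 : ∃ t, chk3 f_A00pm_123_s3 t 253 29 1 = true := ex3_b t511_A00pm_123_s3 t494_A00pm_123_s3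

theorem t513_A00pm_123_s3 : ∃ t, chk3 f_A00pm_123_s3 t 505 238 1 = true := ex3_a k69_A00pm_123_s3 k70_A00pm_123_s3

theorem t514_A00pm_123_s3 : ∃ t, chk3 f_A00pm_123_s3 t 505 119 1 = true := ex3_b t513_A00pm_123_s3 k71_A00pm_123_s3

theorem t515_A00pm_123_s3 : ∃ t, chk3 f_A00pm_123_s3 t 252 119 1 = true := ex3_a k68_A00pm_123_s3 t514_A00pm_123_s3

theorem t516_A00pm_123_s3 : ∃ t, chk3 f_A00pm_123_s3 t 504 237 1 = true := ex3_a k65_A00pm_123_s3 k66_A00pm_123_s3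

theorem t517_A00pm_123_s3 : ∃ t, chk3 f_A00pm_123_s3 t 504 118 1 = true := ex3_b k64_A00pm_123_s3 t516_A00pm_123_s3

theorem t518_A00pm_123_s3 : ∃ t, chk3 f_A00pm_123_s3 t 252 118 1 = true := ex3_a t517_A00pm_123_s3 k67_A00pm_123_s3

theorem t519_A00pm_123_s3 : ∃ t, chk3 f_A00pm_123_s3 t 252 59 1 = true := ex3_b t518_A00pm_123_s3 t515_A00pm_123_s3

theorem t520_A00pm_123_s3 : ∃ t, chk3 f_A00pm_123_s3 t 252 58 1 = true := ex3_b k62_A00pm_123_s3 k63_A00pm_123_s3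

theorem t521_A00pm_123_s3 : ∃ t, chk3 f_A00pm_123_s3 t 252 29 1 = true := ex3_b t520_A00pm_123_s3 t519_A00pm_123_s3

theorem t522_A00pm_123_s3 : ∃ t, chk3 f_A00pm_123_s3 t 126 29 1 = true := ex3_a t521_A00pm_123_s3 t512_A00pm_123_s3

theorem t523_A00pm_123_s3 : ∃ t, chk3 f_A00pm_123_s3 t 252 115 1 = true := ex3_a k59_A00pm_123_s3 k60_A00pm_123_s3

theorem t524_A00pm_123_s3 : ∃ t, chk3 f_A00pm_123_s3 t 504 114 1 = true := ex3_b k56_A00pm_123_s3 k57_A00pm_123_s3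

theorem t525_A00pm_123_s3 : ∃ t, chk3 f_A00pm_123_s3 t 252 114 1 = true := ex3_a t524_A00pm_123_s3 k58_A00pm_123_s3

theorem t526_A00pm_123_s3 : ∃ t, chk3 f_A00pm_123_s3 t 252 57 1 = true := ex3_b t525_A00pm_123_s3 t523_A00pm_123_s3

theorem t527_A00pm_123_s3 : ∃ t, chk3 f_A00pm_123_s3 t 252 28 1 = true := ex3_b k55_A00pm_123_s3 t526_A00pm_123_s3

theorem t528_A00pm_123_s3 : ∃ t, chk3 f_A00pm_123_s3 t 126 28 1 = true := ex3_a t527_A00pm_123_s3 k61_A00pm_123_s3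

theorem t529_A00pm_123_s3 : ∃ t, chk3 f_A00pm_123_s3 t 126 14 1 = true := ex3_b t528_A00pm_123_s3 t522_A00pm_123_s3

theorem t530_A00pm_123_s3 : ∃ t, chk3 f_A00pm_123_s3 t 63 14 1 = true := ex3_a t529_A00pm_123_s3 t485_A00pm_123_s3

theorem t531_A00pm_123_s3 : ∃ t, chk3 f_A00pm_123_s3 t 503 236 1 = true := ex3_a k51_A00pm_123_s3 k52_A00pm_123_s3

theorem t532_A00pm_123_s3 : ∃ t, chk3 f_A00pm_123_s3 t 503 118 1 = true := ex3_b t531_A00pm_123_s3 k53_A00pm_123_s3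

theorem t533_A00pm_123_s3 : ∃ t, chk3 f_A00pm_123_s3 t 503 59 1 = true := ex3_b t532_A00pm_123_s3 k54_A00pm_123_s3

theorem t534_A00pm_123_s3 : ∃ t, chk3 f_A00pm_123_s3 t 251 59 1 = true := ex3_a k50_A00pm_123_s3 t533_A00pm_123_s3

theorem t535_A00pm_123_s3 : ∃ t, chk3 f_A00pm_123_s3 t 125 59 1 = true := ex3_a k49_A00pm_123_s3 t534_A00pm_123_s3

theorem t536_A00pm_123_s3 : ∃ t, chk3 f_A00pm_123_s3 t 1006 235 1 = true := ex3_b k46_A00pm_123_s3 k47_A00pm_123_s3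

theorem t537_A00pm_123_s3 : ∃ t, chk3 f_A00pm_123_s3 t 503 235 1 = true := ex3_a t536_A00pm_123_s3 k48_A00pm_123_s3

theorem t538_A00pm_123_s3 : ∃ t, chk3 f_A00pm_123_s3 t 503 117 1 = true := ex3_b k45_A00pm_123_s3 t537_A00pm_123_s3

theorem t539_A00pm_123_s3 : ∃ t, chk3 f_A00pm_123_s3 t 503 58 1 = true := ex3_b k44_A00pm_123_s3 t538_A00pm_123_s3

theorem t540_A00pm_123_s3 : ∃ t, chk3 f_A00pm_123_s3 t 1005 117 1 = true := ex3_a k42_A00pm_123_s3 k43_A00pm_123_s3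

theorem t541_A00pm_123_s3 : ∃ t, chk3 f_A00pm_123_s3 t 1005 58 1 = true := ex3_b k41_A00pm_123_s3 t540_A00pm_123_s3

theorem t542_A00pm_123_s3 : ∃ t, chk3 f_A00pm_123_s3 t 502 58 1 = true := ex3_a k40_A00pm_123_s3 t541_A00pm_123_s3

theorem t543_A00pm_123_s3 : ∃ t, chk3 f_A00pm_123_s3 t 251 58 1 = true := ex3_a t542_A00pm_123_s3 t539_A00pm_123_s3

theorem t544_A00pm_123_s3 : ∃ t, chk3 f_A00pm_123_s3 t 125 58 1 = true := ex3_a k39_A00pm_123_s3 t543_A00pm_123_s3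

theorem t545_A00pm_123_s3 : ∃ t, chk3 f_A00pm_123_s3 t 125 29 1 = true := ex3_b t544_A00pm_123_s3 t535_A00pm_123_s3

theorem t546_A00pm_123_s3 : ∃ t, chk3 f_A00pm_123_s3 t 62 29 1 = true := ex3_a k38_A00pm_123_s3 t545_A00pm_123_s3

theorem t547_A00pm_123_s3 : ∃ t, chk3 f_A00pm_123_s3 t 125 57 1 = true := ex3_a k36_A00pm_123_s3 k37_A00pm_123_s3

theorem t548_A00pm_123_s3 : ∃ t, chk3 f_A00pm_123_s3 t 503 227 1 = true := ex3_a k34_A00pm_123_s3 k35_A00pm_123_s3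

theorem t549_A00pm_123_s3 : ∃ t, chk3 f_A00pm_123_s3 t 1007 226 1 = true := ex3_b k32_A00pm_123_s3 k33_A00pm_123_s3

theorem t550_A00pm_123_s3 : ∃ t, chk3 f_A00pm_123_s3 t 503 226 1 = true := ex3_a k31_A00pm_123_s3 t549_A00pm_123_s3

theorem t551_A00pm_123_s3 : ∃ t, chk3 f_A00pm_123_s3 t 503 113 1 = true := ex3_b t550_A00pm_123_s3 t548_A00pm_123_s3

theorem t552_A00pm_123_s3 : ∃ t, chk3 f_A00pm_123_s3 t 251 113 1 = true := ex3_a k30_A00pm_123_s3 t551_A00pm_123_s3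

theorem t553_A00pm_123_s3 : ∃ t, chk3 f_A00pm_123_s3 t 502 112 1 = true := ex3_b k27_A00pm_123_s3 k28_A00pm_123_s3

theorem t554_A00pm_123_s3 : ∃ t, chk3 f_A00pm_123_s3 t 251 112 1 = true := ex3_a t553_A00pm_123_s3 k29_A00pm_123_s3

theorem t555_A00pm_123_s3 : ∃ t, chk3 f_A00pm_123_s3 t 251 56 1 = true := ex3_b t554_A00pm_123_s3 t552_A00pm_123_s3

theorem t556_A00pm_123_s3 : ∃ t, chk3 f_A00pm_123_s3 t 125 56 1 = true := ex3_a k26_A00pm_123_s3 t555_A00pm_123_s3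

theorem t557_A00pm_123_s3 : ∃ t, chk3 f_A00pm_123_s3 t 125 28 1 = true := ex3_b t556_A00pm_123_s3 t547_A00pm_123_s3

theorem t558_A00pm_123_s3 : ∃ t, chk3 f_A00pm_123_s3 t 62 28 1 = true := ex3_a k25_A00pm_123_s3 t557_A00pm_123_s3

theorem t559_A00pm_123_s3 : ∃ t, chk3 f_A00pm_123_s3 t 62 14 1 = true := ex3_b t558_A00pm_123_s3 t546_A00pm_123_s3

theorem t560_A00pm_123_s3 : ∃ t, chk3 f_A00pm_123_s3 t 31 14 1 = true := ex3_a t559_A00pm_123_s3 t530_A00pm_123_s3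

theorem t561_A00pm_123_s3 : ∃ t, chk3 f_A00pm_123_s3 t 15 14 1 = true := ex3_a k24_A00pm_123_s3 t560_A00pm_123_s3

theorem t562_A00pm_123_s3 : ∃ t, chk3 f_A00pm_123_s3 t 15 7 1 = true := ex3_b t561_A00pm_123_s3 t397_A00pm_123_s3

theorem t563_A00pm_123_s3 : ∃ t, chk3 f_A00pm_123_s3 t 7 7 1 = true := ex3_a k23_A00pm_123_s3 t562_A00pm_123_s3

theorem t564_A00pm_123_s3 : ∃ t, chk3 f_A00pm_123_s3 t 250 111 1 = true := ex3_a k19_A00pm_123_s3 k20_A00pm_123_s3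

theorem t565_A00pm_123_s3 : ∃ t, chk3 f_A00pm_123_s3 t 250 55 1 = true := ex3_b k18_A00pm_123_s3 t564_A00pm_123_s3

theorem t566_A00pm_123_s3 : ∃ t, chk3 f_A00pm_123_s3 t 125 55 1 = true := ex3_a t565_A00pm_123_s3 k21_A00pm_123_s3

theorem t567_A00pm_123_s3 : ∃ t, chk3 f_A00pm_123_s3 t 125 27 1 = true := ex3_b k17_A00pm_123_s3 t566_A00pm_123_s3

theorem t568_A00pm_123_s3 : ∃ t, chk3 f_A00pm_123_s3 t 249 55 1 = true := ex3_b k15_A00pm_123_s3 k16_A00pm_123_s3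

theorem t569_A00pm_123_s3 : ∃ t, chk3 f_A00pm_123_s3 t 124 55 1 = true := ex3_a k14_A00pm_123_s3 t568_A00pm_123_s3

theorem t570_A00pm_123_s3 : ∃ t, chk3 f_A00pm_123_s3 t 249 109 1 = true := ex3_a k12_A00pm_123_s3 k13_A00pm_123_s3

theorem t571_A00pm_123_s3 : ∃ t, chk3 f_A00pm_123_s3 t 249 54 1 = true := ex3_b k11_A00pm_123_s3 t570_A00pm_123_s3

theorem t572_A00pm_123_s3 : ∃ t, chk3 f_A00pm_123_s3 t 124 54 1 = true := ex3_a k10_A00pm_123_s3 t571_A00pm_123_s3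

theorem t573_A00pm_123_s3 : ∃ t, chk3 f_A00pm_123_s3 t 124 27 1 = true := ex3_b t572_A00pm_123_s3 t569_A00pm_123_s3

theorem t574_A00pm_123_s3 : ∃ t, chk3 f_A00pm_123_s3 t 62 27 1 = true := ex3_a t573_A00pm_123_s3 t567_A00pm_123_s3

theorem t575_A00pm_123_s3 : ∃ t, chk3 f_A00pm_123_s3 t 62 13 1 = true := ex3_b k9_A00pm_123_s3 t574_A00pm_123_s3

theorem t576_A00pm_123_s3 : ∃ t, chk3 f_A00pm_123_s3 t 31 13 1 = true := ex3_a t575_A00pm_123_s3 k22_A00pm_123_s3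

theorem t577_A00pm_123_s3 : ∃ t, chk3 f_A00pm_123_s3 t 61 26 1 = true := ex3_a k6_A00pm_123_s3 k7_A00pm_123_s3

theorem t578_A00pm_123_s3 : ∃ t, chk3 f_A00pm_123_s3 t 61 13 1 = true := ex3_b t577_A00pm_123_s3 k8_A00pm_123_s3

theorem t579_A00pm_123_s3 : ∃ t, chk3 f_A00pm_123_s3 t 30 13 1 = true := ex3_a k5_A00pm_123_s3 t578_A00pm_123_s3

theorem t580_A00pm_123_s3 : ∃ t, chk3 f_A00pm_123_s3 t 15 13 1 = true := ex3_a t579_A00pm_123_s3 t576_A00pm_123_s3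

theorem t581_A00pm_123_s3 : ∃ t, chk3 f_A00pm_123_s3 t 15 6 1 = true := ex3_b k4_A00pm_123_s3 t580_A00pm_123_s3

theorem t582_A00pm_123_s3 : ∃ t, chk3 f_A00pm_123_s3 t 7 6 1 = true := ex3_a k3_A00pm_123_s3 t581_A00pm_123_s3

theorem t583_A00pm_123_s3 : ∃ t, chk3 f_A00pm_123_s3 t 7 3 1 = true := ex3_b t582_A00pm_123_s3 t563_A00pm_123_s3

theorem t584_A00pm_123_s3 : ∃ t, chk3 f_A00pm_123_s3 t 3 3 1 = true := ex3_a k2_A00pm_123_s3 t583_A00pm_123_s3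

theorem t585_A00pm_123_s3 : ∃ t, chk3 f_A00pm_123_s3 t 3 1 1 = true := ex3_b k1_A00pm_123_s3 t584_A00pm_123_s3

theorem t586_A00pm_123_s3 : ∃ t, chk3 f_A00pm_123_s3 t 1 1 1 = true := ex3_a k0_A00pm_123_s3 t585_A00pm_123_s3

theorem c_A00pm_123_s3 : CertF 536870912 536870912 0 536870912 991146299 28908434 true true false .npn 1 2 3
    ndB0q1 ndB0q2 pcB3 cut_A00pm_123_s3 xt_A00pm_123_s3 :=
  certF2 (fam := true) (s1 := true) (s2 := false) (a := 1) (b := 2) (c := 3) (cn := .npn) (n1 := ndB0q1) (n2 := ndB0q2) (pc := pcB3) (cut := cut_A00pm_123_s3) (xt := xt_A00pm_123_s3) (P1 := 536870912) (W1 := 536870912) (P2 := 0) (W2 := 536870912) (P3 := 991146299) (W3 := 28908434)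
    rfl (fun _ => rfl) t586_A00pm_123_s3

theorem s_A00pm_123_s3 {κ x : ℝ} (hκ : κ * h0 = ken x) (hx : ((991146299 : ℕ) : ℝ) / S ≤ x)
    (hx' : x ≤ (((991146299 : ℕ) : ℝ) + (28908434 : ℕ)) / S)
    (H : CutA (VFD κ) PP tK tL pcB (Cut.of [[⟨0, 1, 0, 37748736⟩, ⟨1, 1, 0, 37748736⟩, ⟨2, 2, 0, 5242880⟩], [⟨0, 0, 1, 46137344⟩, ⟨1, 1, 0, 2097152⟩, ⟨2, 1, 1, 46137344⟩, ⟨0, 0, 0, 1027248803⟩, ⟨0, 1, 0, 87939455⟩, ⟨2, 1, 0, 1027248803⟩, ⟨2, 2, 0, 87939455⟩]]) 1 2 3 0 0 (sgb true) (sgb false) x) :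
    AltA (VFD κ) PP tK tL pcB [⟨4, 0, 0, 3194381926⟩] 1 2 3 0 0 (sgb true) (sgb false) x :=
  strip_altAD (m := 3194381926) false rfl hκ (SH.κ0 hκ (SH.hx1 hx).le (SH.hx2 hx').le) (SH.hx1 hx).le (SH.hx2 hx') (covB01).cov (covB02).cov hx hx' c_A00pm_123_s3 H ((okx hx hx').extA (T := tt) (sideB hx hx') hκ rfl rfl (.O 1 true) (.O 2 false) (Or.inr rfl))

end Pool.Agent.Strip051.G.I9231_9500.Tab.St.C
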