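import Pool.Agent.Strip051.G.I9231_9500.StH
import Pool.Agent.Strip051.G.I9231_9500.StF

/-! # Unit strips 8 (generated) -/

set_option linter.all false
set_option maxRecDepth 100000

namespace Pool.Agent.Strip051.G.I9231_9500.Tab.St.C

open Pool.Agent.Strip051.PB Pool.Agent.Strip051.PB.T Pool.Agent.StripNear Pool.Agent.Strip051.LC
open Pool.Agent.Strip051.G.I9231_9500.Tab Pool.Agent.Strip051.G.I9231_9500.Tab.St

noncomputable def cut_A00pm_202_s1 : Cut := Cut.of [[⟨4, 0, 0, 1449551462⟩], [⟨0, 1, 0, 53687091⟩, ⟨1, 0, 0, 53687091⟩, ⟨2, 1, 0, 53687091⟩]]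

noncomputable def f_A00pm_202_s1 : ℕ → ℕ → ℕ → ℕ → Bool := onCell 0 536870912 1073741824 536870912 991146299 28908434
    (rowF 1 true true false .pp 2 0 2 (qsf 0 536870912 0 536870912 2) ndB0q2 ndB0q0 pcB2 cut_A00pm_202_s1 Ext.none)

def k0_A00pm_202_s1 : ∃ t, chk3 f_A00pm_202_s1 t 2 4 1 = true :=
  ⟨(b (l 1) (l 6)), by decide +kernel⟩

def k1_A00pm_202_s1 : ∃ t, chk3 f_A00pm_202_s1 t 3 8 1 = true :=
  ⟨(a (l 1) (a (b (l 1) (b (a (l 1) (a (l 1) (l 14))) (b (a (l 1) (a (c (a (l 16510480) (l 16528920)) (a (l 16453736) (l 16475504))) (c (l 16495480) (a (l 16498256) (l 16521960))))) (a (a (l 1) (a (b (l 1) (c (l 16459560) (a (l 16435472) (l 16451488)))) (c (l 16515200) (l 16458928)))) (a (c (l 16456592) (l 16404760)) (c (l 16493368) (l 16447672))))))) (b (l 14) (b (l 14) (a (a (b (c (l 16517416) (a (l 16546792) (l 16573184))) (c (l 16534272) (l 16495032))) (b (c (l 16565200) (l 16531544)) (c (l 16579968)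 (l 16547616)))) (a (b (a (l 16588552) (l 16615088)) (a (l 16602136) (l 16621136))) (b (a (c (l 16619032) (l 16631248)) (c (a (l 16605848) (l 16638736)) (l 16659496))) (a (c (l 16592760) (l 16612760)) (c (c (l 16613528) (l 16579528)) (l 16592008)))))))))), by decide +kernel⟩

def k2_A00pm_202_s1 : ∃ t, chk3 f_A00pm_202_s1 t 6 9 1 = true :=
  ⟨(a (b (l 1) (l 6)) (b (a (b (l 1) (c (a (l 16294032) (l 16347448)) (l 16089048))) (b (a (c (l 16351808) (l 16284464)) (b (l 1) (c (l 16426184) (l 16366376)))) (c (a (l 16404056) (l 16380032)) (a (l 16346912) (l 16327400))))) (b (a (a (l 16242304) (l 16211624)) (c (l 16319792) (l 16274952))) (a (l 6) (b (l 16343184) (l 16458328)))))), by decide +kernel⟩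

def k3_A00pm_202_s1 : ∃ t, chk3 f_A00pm_202_s1 t 7 9 1 = true :=
  ⟨(a (b (a (a (b (c (b (a (l 16450896) (l 16484784)) (l 16407184)) (b (a (l 16390384) (l 16426976)) (l 16352432))) (c (a (l 16427000) (l 16459432)) (c (l 16407440) (l 16382664)))) (b (c (a (b (a (l 16510800) (l 16526112)) (l 16457280)) (l 16466128)) (a (b (a (l 16455056) (l 16471720)) (l 16406440)) (l 16415664))) (c (a (b (l 16480680) (l 16504536)) (l 16515264)) (a (c (l 16459200) (l 16436240)) (l 16472848))))) (b (c (a (b (l 16478392) (l 16501120)) (l 16523936)) (a (a (l 16433528) (l 16452376)) (a (l 16472168) (l 16492880)))) (a (b (l 16504416) (l 16530664)) (b (l 16538992) (l 16564120))))) (a (b (a (c (l 16493320) (l 16454352)) (b (a (l 16510128) (l 16535688)) (a (l 16536976) (l 16539080)))) (a (c (l 16525016) (l 16515968)) (b (a (l 16522944) (l 16504392)) (a (l 16489624) (l 16470320))))) (b (a (b (l 16557840) (l 16530912)) (b (l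 16551376) (l 16516208))) (a (l 16478344) (l 16465080))))) (a (b (b (a (b (l 16534376) (l 16555312)) (b (l 16581328) (l 16600440))) (a (b (l 16577760) (l 16565408)) (b (l 16571056) (l 16537808)))) (b (a (b (l 16530912) (l 16496872)) (c (l 16478424) (l 16499528))) (a (a (l 16452384) (l 16442160)) (b (l 16524144) (l 16492232))))) (b (b (a (b (a (l 16609760) (l 16592280)) (l 16570632)) (b (a (l 16595488) (c (l 16590256) (l 16564648))) (c (a (l 16619872) (l 16604480)) (l 16545552)))) (a (b (l 16539240) (l 16508272)) (b (c (a (l 16590864) (l 16576744)) (l 16516544)) (c (l 16471440) (l 16570976))))) (b (a (c (l 16452968) (l 16470344)) (c (b (l 16526728) (l 16497320)) (l 16442024))) (a (l 16398816) (c (l 16451768) (l 16462592))))))), by decide +kernel⟩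

def k4_A00pm_202_s1 : ∃ t, chk3 f_A00pm_202_s1 t 2 5 1 = true :=
  ⟨(l 6), by decide +kernel⟩

def k5_A00pm_202_s1 : ∃ t, chk3 f_A00pm_202_s1 t 6 5 1 = true :=
  ⟨(b (a (l 6) (b (a (l 6) (b (a (l 6) (l 16511648)) (l 6))) (l 6))) (l 6)), by decide +kernel⟩

def k6_A00pm_202_s1 : ∃ t, chk3 f_A00pm_202_s1 t 7 10 1 = true :=
  ⟨(a (b (b (a (a (c (l 16462608) (l 16483184)) (b (a (l 16457160) (l 16437624)) (a (l 16509984) (l 16406648)))) (b (a (l 16512168) (l 16499520)) (a (l 16480232) (l 16467552)))) (b (a (a (l 16509264) (a (l 16480128) (l 16461040))) (a (l 16449272) (l 16435336))) (a (a (l 6) (b (l 16449624) (b (l 16439200) (a (l 6) (a (l 6) (a (l 16418688) (c (l 16370992) (l 16419248)))))))) (b (l 16418744) (b (l 16364352) (c (a (l 16362712) (l 16302480)) (a (l 16368520) (l 16391160)))))))) (a (b (l 6) (l 6)) (b (a (l 16375368) (l 16358072)) (a (l 6) (l 16307816))))) (b (b (a (a (b (l 16482592) (l 16449944))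 (b (l 16459664) (l 16426568))) (a (b (l 16434224) (l 16400752)) (b (l 16408792) (l 16375040)))) (b (a (a (l 16416664) (l 16392296)) (a (l 16365560) (l 16297144))) (a (b (a (l 16390736) (l 16365032)) (b (a (l 16376168) (l 16265200)) (a (c (l 16280512) (l 16368016)) (a (c (l 16260432) (l 16262992)) (c (l 16245680) (l 16247480)))))) (b (a (l 16337024) (l 16225400)) (b (a (l 16235856) (b (l 16294952) (l 16203576))) (a (b (b (b (l 16311688) (b (l 16309344) (l 16223496))) (l 16305712)) (l 16303520)) (b (b (b (l 16281776) (b (l 16279064) (a (l 16284464) (l 16227304)))) (l 16274992)) (l 16272912)))))))) (a (a (b (c (l 16336200) (l 16336408)) (l 16288120)) (b (a (l 16316144) (l 16217576)) (c (l 16266136) (l 16259888)))) (b (a (b (l 16248616) (l 16184120)) (c (l 16230480) (c (l 16165080) (l 16163664)))) (a (b (l 16162312) (l 16141104)) (c (l 16128240) (l 16162536))))))), by decide +kernel⟩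

def k7_A00pm_202_s1 : ∃ t, chk3 f_A00pm_202_s1 t 7 11 1 = true :=
  ⟨(a (l 6) (a (b (b (a (l 16201216) (c (l 16225656) (l 16214288))) (l 6)) (l 6)) (b (b (a (a (l 16116928) (l 16146136)) (c (l 16175096) (l 16079144))) (a (c (l 16163960) (l 16147448)) (b (l 16078192) (l 16039360)))) (b (a (l 6) (c (l 16108048) (l 16087072))) (l 6))))), by decide +kernel⟩

def k8_A00pm_202_s1 : ∃ t, chk3 f_A00pm_202_s1 t 1 3 1 = true :=
  ⟨(a (l 6) (l 6)), by decide +kernel⟩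

theorem t9_A00pm_202_s1 : ∃ t, chk3 f_A00pm_202_s1 t 7 5 1 = true := ex3_b k6_A00pm_202_s1 k7_A00pm_202_s1

theorem t10_A00pm_202_s1 : ∃ t, chk3 f_A00pm_202_s1 t 3 5 1 = true := ex3_a k5_A00pm_202_s1 t9_A00pm_202_s1

theorem t11_A00pm_202_s1 : ∃ t, chk3 f_A00pm_202_s1 t 1 5 1 = true := ex3_a k4_A00pm_202_s1 t10_A00pm_202_s1

theorem t12_A00pm_202_s1 : ∃ t, chk3 f_A00pm_202_s1 t 3 9 1 = true := ex3_a k2_A00pm_202_s1 k3_A00pm_202_s1

theorem t13_A00pm_202_s1 : ∃ t, chk3 f_A00pm_202_s1 t 3 4 1 = true := ex3_b k1_A00pm_202_s1 t12_A00pm_202_s1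

theorem t14_A00pm_202_s1 : ∃ t, chk3 f_A00pm_202_s1 t 1 4 1 = true := ex3_a k0_A00pm_202_s1 t13_A00pm_202_s1

theorem t15_A00pm_202_s1 : ∃ t, chk3 f_A00pm_202_s1 t 1 2 1 = true := ex3_b t14_A00pm_202_s1 t11_A00pm_202_s1

theorem t16_A00pm_202_s1 : ∃ t, chk3 f_A00pm_202_s1 t 1 1 1 = true := ex3_b t15_A00pm_202_s1 k8_A00pm_202_s1

theorem c_A00pm_202_s1 : CertF 0 536870912 0 536870912 991146299 28908434 true true false .pp 2 0 2
    ndB0q2 ndB0q0 pcB2 cut_A00pm_202_s1 Ext.none :=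
  certF1 (fam := true) (s1 := true) (s2 := false) (a := 2) (b := 0) (c := 2) (cn := .pp) (n1 := ndB0q2) (n2 := ndB0q0) (pc := pcB2) (cut := cut_A00pm_202_s1) (xt := Ext.none) (P1 := 0) (W1 := 536870912) (P2 := 0) (W2 := 536870912) (P3 := 991146299) (W3 := 28908434)
    rfl (fun _ => rfl) t16_A00pm_202_s1

theorem s_A00pm_202_s1 {κ x : ℝ} (hκ : κ * h0 = ken x) (hx : ((991146299 : ℕ) : ℝ) / S ≤ x)
    (hx' : x ≤ (((991146299 : ℕ) : ℝ) + (28908434 : ℕ)) / S)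
    (H : CutA (VFD κ) PP tK tL pcB (Cut.of [[⟨0, 1, 0, 53687091⟩, ⟨1, 0, 0, 53687091⟩, ⟨2, 1, 0, 53687091⟩]]) 2 0 2 0 0 (sgb true) (sgb false) x) :
    AltA (VFD κ) PP tK tL pcB [⟨3, 0, 0, 1449551462⟩] 2 0 2 0 0 (sgb true) (sgb false) x :=
  strip_altAD (m := 1449551462) true rfl hκ (SH.κ0 hκ (SH.hx1 hx).le (SH.hx2 hx').le) (SH.hx1 hx).le (SH.hx2 hx') (covB02).cov (covB00).cov hx hx' c_A00pm_202_s1 H (noExt_A)

noncomputable def cut_A00pm_202_s3 : Cut := Cut.of [[⟨3, 0, 0, 2845415833⟩], [⟨0, 1, 0, 53687091⟩, ⟨1, 0, 0, 53687091⟩, ⟨2, 1, 0, 53687091⟩]]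

noncomputable def f_A00pm_202_s3 : ℕ → ℕ → ℕ → ℕ → Bool := onCell 0 536870912 1073741824 536870912 991146299 28908434
    (rowF 1 true true false .pp 2 0 2 (qsf 0 536870912 0 536870912 2) ndB0q2 ndB0q0 pcB2 cut_A00pm_202_s3 Ext.none)

def k0_A00pm_202_s3 : ∃ t, chk3 f_A00pm_202_s3 t 1 1 1 = true :=
  ⟨(b (l 6) (a (l 6) (l 6))), by decide +kernel⟩

theorem c_A00pm_202_s3 : CertF 0 536870912 0 536870912 991146299 28908434 true true false .pp 2 0 2
    ndB0q2 ndB0q0 pcB2 cut_A00pm_202_s3 Ext.none :=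
  certF1 (fam := true) (s1 := true) (s2 := false) (a := 2) (b := 0) (c := 2) (cn := .pp) (n1 := ndB0q2) (n2 := ndB0q0) (pc := pcB2) (cut := cut_A00pm_202_s3) (xt := Ext.none) (P1 := 0) (W1 := 536870912) (P2 := 0) (W2 := 536870912) (P3 := 991146299) (W3 := 28908434)
    rfl (fun _ => rfl) k0_A00pm_202_s3

theorem s_A00pm_202_s3 {κ x : ℝ} (hκ : κ * h0 = ken x) (hx : ((991146299 : ℕ) : ℝ) / S ≤ x)
    (hx' : x ≤ (((991146299 : ℕ) : ℝ) + (28908434 : ℕ)) / S)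
    (H : CutA (VFD κ) PP tK tL pcB (Cut.of [[⟨0, 1, 0, 53687091⟩, ⟨1, 0, 0, 53687091⟩, ⟨2, 1, 0, 53687091⟩]]) 2 0 2 0 0 (sgb true) (sgb false) x) :
    AltA (VFD κ) PP tK tL pcB [⟨4, 0, 0, 2845415833⟩] 2 0 2 0 0 (sgb true) (sgb false) x :=
  strip_altAD (m := 2845415833) false rfl hκ (SH.κ0 hκ (SH.hx1 hx).le (SH.hx2 hx').le) (SH.hx1 hx).le (SH.hx2 hx') (covB02).cov (covB00).cov hx hx' c_A00pm_202_s3 H (noExt_A)

noncomputable def cut_A00pm_203_s1 : Cut := Cut.of [[⟨4, 0, 0, 1449551462⟩]]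

noncomputable def f_A00pm_203_s1 : ℕ → ℕ → ℕ → ℕ → Bool := onCell 0 536870912 1610612736 536870912 991146299 28908434
    (rowF 1 true true false .up 2 0 3 (qsf 0 536870912 0 536870912 3) ndB0q2 ndB0q0 pcB3 cut_A00pm_203_s1 Ext.none)

def k0_A00pm_203_s1 : ∃ t, chk3 f_A00pm_203_s1 t 1 1 1 = true :=
  ⟨(l 6), by decide +kernel⟩

theorem c_A00pm_203_s1 : CertF 0 536870912 0 536870912 991146299 28908434 true true false .up 2 0 3
    ndB0q2 ndB0q0 pcB3 cut_A00pm_203_s1 Ext.none :=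
  certF1 (fam := true) (s1 := true) (s2 := false) (a := 2) (b := 0) (c := 3) (cn := .up) (n1 := ndB0q2) (n2 := ndB0q0) (pc := pcB3) (cut := cut_A00pm_203_s1) (xt := Ext.none) (P1 := 0) (W1 := 536870912) (P2 := 0) (W2 := 536870912) (P3 := 991146299) (W3 := 28908434)
    rfl (fun _ => rfl) k0_A00pm_203_s1

theorem s_A00pm_203_s1 {κ x : ℝ} (hκ : κ * h0 = ken x) (hx : ((991146299 : ℕ) : ℝ) / S ≤ x)
    (hx' : x ≤ (((991146299 : ℕ) : ℝ) + (28908434 : ℕ)) / S) :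
    AltA (VFD κ) PP tK tL pcB [⟨3, 0, 0, 1449551462⟩] 2 0 3 0 0 (sgb true) (sgb false) x :=
  strip_altAD (m := 1449551462) true rfl hκ (SH.κ0 hκ (SH.hx1 hx).le (SH.hx2 hx').le) (SH.hx1 hx).le (SH.hx2 hx') (covB02).cov (covB00).cov hx hx' c_A00pm_203_s1 cutA_nil (noExt_A)

noncomputable def cut_A00pm_203_s3 : Cut := Cut.of [[⟨3, 0, 0, 2845415833⟩]]

noncomputable def xt_A00pm_203_s3 : Ext := strExt dd true true false .u2 .u0m .s2m .up 2 0 3 rfl rfl gl3 vv ndB0q2 ndB0q0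

noncomputable def f_A00pm_203_s3 : ℕ → ℕ → ℕ → ℕ → Bool := onCell 0 536870912 0 536870912 991146299 28908434
    (rowF 0 true true false .up 2 0 3 (qsf 0 536870912 0 536870912 3) ndB0q2 ndB0q0 pcB3 cut_A00pm_203_s3 xt_A00pm_203_s3)

def k0_A00pm_203_s3 : ∃ t, chk3 f_A00pm_203_s3 t 1 1 1 = true :=
  ⟨(a (b (l 1) (b (a (b (l 1) (a (b (l 1) (a (b (l 6) (l 16240968)) (l 6))) (l 6))) (l 6)) (a (b (a (b (a (b (l 16263248) (l 16289616)) (l 6)) (c (b (a (l 16339832) (l 16251040)) (a (l 16371264) (l 16281416))) (a (b (l 16298928) (l 16333864)) (b (l 16201728) (l 16235600))))) (l 6)) (a (b (a (b (c (l 16405264) (l 16371640)) (b (l 527764751) (l 527734031))) (b (c (l 16314784) (l 16272816)) (c (l 16350720) (l 16312872)))) (b (a (c (l 528077327) (l 527320079)) (c (l 527940879) (l 16376224))) (a (c (l 528053519) (l 527316495)) (c (l 527908111) (l 527156239))))) (b (a (a (b (l 16304208) (c (l 16279952) (l 16235600)))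 (b (l 6) (a (l 16219872) (a (l 16283928) (l 6))))) (l 6)) (a (b (c (l 16377400) (l 16251424)) (c (l 16336312) (l 16317184))) (a (b (a (b (c (l 16223184) (l 16174688)) (l 16218272)) (c (b (l 6) (l 16223008)) (l 16109656))) (b (c (a (l 16261480) (l 16236480)) (l 16161304)) (l 16248120))) (a (b (l 6) (b (l 6) (c (l 16320040) (l 16190896)))) (l 6))))))) (b (l 6) (l 6))))) (l 6)), by decide +kernel⟩

theorem c_A00pm_203_s3 : CertF 0 536870912 0 536870912 991146299 28908434 true true false .up 2 0 3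
    ndB0q2 ndB0q0 pcB3 cut_A00pm_203_s3 xt_A00pm_203_s3 :=
  certF0 (fam := true) (s1 := true) (s2 := false) (a := 2) (b := 0) (c := 3) (cn := .up) (n1 := ndB0q2) (n2 := ndB0q0) (pc := pcB3) (cut := cut_A00pm_203_s3) (xt := xt_A00pm_203_s3) (P1 := 0) (W1 := 536870912) (P2 := 0) (W2 := 536870912) (P3 := 991146299) (W3 := 28908434)
    rfl k0_A00pm_203_s3

theorem s_A00pm_203_s3 {κ x : ℝ} (hκ : κ * h0 = ken x) (hx : ((991146299 : ℕ) : ℝ) / S ≤ x)
    (hx' : x ≤ (((991146299 : ℕ) : ℝ) + (28908434 : ℕ)) / S) :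
    AltA (VFD κ) PP tK tL pcB [⟨4, 0, 0, 2845415833⟩] 2 0 3 0 0 (sgb true) (sgb false) x :=
  strip_altAD (m := 2845415833) false rfl hκ (SH.κ0 hκ (SH.hx1 hx).le (SH.hx2 hx').le) (SH.hx1 hx).le (SH.hx2 hx') (covB02).cov (covB00).cov hx hx' c_A00pm_203_s3 cutA_nil ((okx hx hx').extA (T := tt) (sideB hx hx') hκ rfl rfl (.O 2 true) (.O 0 false) (Or.inr rfl))

noncomputable def cut_A00pm_213_s1 : Cut := Cut.of [[⟨4, 0, 0, 1449551462⟩], [⟨0, 1, 0, 37748736⟩, ⟨1, 1, 0, 37748736⟩, ⟨2, 2, 0, 5242880⟩], [⟨0, 1, 0, 2097152⟩, ⟨1, 0, 1, 46137344⟩, ⟨2, 1, 1, 46137344⟩, ⟨1, 0, 0, 1027248803⟩, ⟨1, 1, 0, 87939455⟩, ⟨2, 1, 0, 1027248803⟩, ⟨2, 2, 0, 87939455⟩]]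

noncomputable def f_A00pm_213_s1 : ℕ → ℕ → ℕ → ℕ → Bool := onCell 0 536870912 536870912 536870912 991146299 28908434
    (rowF 0 true true false .pnn 2 1 3 (qsf 0 536870912 536870912 536870912 3) ndB0q2 ndB0q1 pcB3 cut_A00pm_213_s1 Ext.none)

def k0_A00pm_213_s1 : ∃ t, chk3 f_A00pm_213_s1 t 1 1 1 = true :=
  ⟨(l 6), by decide +kernel⟩

theorem c_A00pm_213_s1 : CertF 0 536870912 536870912 536870912 991146299 28908434 true true false .pnn 2 1 3
    ndB0q2 ndB0q1 pcB3 cut_A00pm_213_s1 Ext.none :=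
  certF0 (fam := true) (s1 := true) (s2 := false) (a := 2) (b := 1) (c := 3) (cn := .pnn) (n1 := ndB0q2) (n2 := ndB0q1) (pc := pcB3) (cut := cut_A00pm_213_s1) (xt := Ext.none) (P1 := 0) (W1 := 536870912) (P2 := 536870912) (W2 := 536870912) (P3 := 991146299) (W3 := 28908434)
    rfl k0_A00pm_213_s1

theorem s_A00pm_213_s1 {κ x : ℝ} (hκ : κ * h0 = ken x) (hx : ((991146299 : ℕ) : ℝ) / S ≤ x)
    (hx' : x ≤ (((991146299 : ℕ) : ℝ) + (28908434 : ℕ)) / S)
    (H : CutA (VFD κ) PP tK tL pcB (Cut.of [[⟨0, 1, 0, 37748736⟩, ⟨1, 1, 0, 37748736⟩, ⟨2, 2, 0, 5242880⟩], [⟨0, 1, 0, 2097152⟩, ⟨1, 0, 1, 46137344⟩, ⟨2, 1, 1, 46137344⟩, ⟨1, 0, 0, 1027248803⟩, ⟨1, 1, 0, 87939455⟩, ⟨2, 1, 0, 1027248803⟩, ⟨2, 2, 0, 87939455⟩]]) 2 1 3 0 0 (sgb true) (sgb false) x) :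
    AltA (VFD κ) PP tK tL pcB [⟨3, 0, 0, 1449551462⟩] 2 1 3 0 0 (sgb true) (sgb false) x :=
  strip_altAD (m := 1449551462) true rfl hκ (SH.κ0 hκ (SH.hx1 hx).le (SH.hx2 hx').le) (SH.hx1 hx).le (SH.hx2 hx') (covB02).cov (covB01).cov hx hx' c_A00pm_213_s1 H (noExt_A)

end Pool.Agent.Strip051.G.I9231_9500.Tab.St.C
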