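import Pool.Agent.Strip051.G.I9231_9500.StH
import Pool.Agent.Strip051.G.I9231_9500.Sp9D
import Pool.Agent.Strip051.G.I9231_9500.StF

/-! # Unit strips 9 (generated) -/

set_option linter.all false
set_option maxRecDepth 100000

namespace Pool.Agent.Strip051.G.I9231_9500.Tab.St.C

open Pool.Agent.Strip051.PB Pool.Agent.Strip051.PB.T Pool.Agent.StripNear Pool.Agent.Strip051.LC
open Pool.Agent.Strip051.G.I9231_9500.Tab Pool.Agent.Strip051.G.I9231_9500.Tab.St

def k294_A00pm_213_s3 : ∃ t, chk3 f_A00pm_213_s3 t 254 508 3 = true :=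
  ⟨(a (b (a (c (a (b (l 16774648) (b (l 16774776) (l 16774848))) (l 16774560)) (b (c (l 16775448) (l 16776056)) (a (a (l 16776016) (l 16775936)) (l 16775776)))) (c (b (l 16774168) (l 16774384)) (b (l 16775240) (l 16775400)))) (a (a (b (c (b (a (l 16774888) (l 16774904)) (l 16774928)) (b (l 16776000) (l 16775976))) (c (l 16774992) (l 16775960))) (a (b (c (l 16774872) (l 16775936)) (c (c (l 16772160) (l 16772640)) (l 16776000))) (b (c (l 16774808) (l 16775840)) (c (l 16774968) (b (l 16775928) (l 16775976)))))) (c (b (l 16774600) (l 16774800)) (b (l 16775560) (l 16775704))))) (b (c (b (a (l 16773760) (l 16773352)) (b (l 16773760) (l 16773896))) (b (a (l 16774696) (l 16774160)) (a (l 16774904) (l 16774400)))) (c (b (b (l 16774032) (l 16774160)) (b (l 16774288) (l 16774416))) (b (a (l 16775096) (l 16774640)) (a (l 16775288) (l 16774864)))))), by decide +kernel⟩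

def k295_A00pm_213_s3 : ∃ t, chk3 f_A00pm_213_s3 t 254 1018 1 = true :=
  ⟨(c (a (a (a (c (b (l 16773424) (l 16773720)) (b (l 16774240) (l 16774440))) (b (b (b (c (l 16773328) (l 16774192)) (l 16773808)) (b (l 16773864) (l 16773920))) (c (l 16773712) (l 16774448)))) (a (a (b (b (c (l 16773336) (l 16774176)) (c (a (l 16773504) (l 16773488)) (c (l 16774096) (l 16774504)))) (b (c (l 16773640) (l 16774400)) (c (l 16773784) (l 16774496)))) (b (c (l 16773408) (l 16774208)) (b (c (a (l 16773632) (l 16773632)) (l 16774376)) (c (a (l 16773776) (l 16773776)) (a (l 16774504) (l 16774496)))))) (b (c (l 16773392) (l 16774144)) (c (b (l 16773616) (l 16773760)) (b (l 16774336) (l 16774456)))))) (a (c (b (b (l 16773272) (l 16773432)) (b (l 16773592) (l 16773752))) (b (b (l 16773960) (l 16774096)) (b (l 16774232) (l 16774368)))) (c (a (b (l 16773312) (l 16773648)) (b (l 16773280) (l 16773632))) (a (b (l 16773912) (l 16774208)) (b (l 16773832) (l 16774136)))))) (a (a (b (c (b (c (l 16772240) (l 16772688)) (l 16775120)) (b (a (l 16775960)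 (l 16776000)) (l 16775976))) (c (l 16775200) (l 16775976))) (b (b (c (l 16774936) (l 16775792)) (c (a (l 16775096) (l 16774984)) (a (a (l 16775992) (l 16775920)) (l 16775784)))) (a (c (a (b (l 16775192) (l 16775240)) (b (l 16775160) (c (l 16775056) (l 16775440)))) (a (l 16776016) (b (l 16775968) (l 16776016)))) (c (b (l 16775080) (l 16775176)) (l 16775880))))) (c (b (b (l 16774544) (a (l 16774792) (l 16774536))) (a (c (l 16774792) (l 16775128)) (c (l 16774584) (l 16774864)))) (b (a (l 16775464) (l 16775088)) (a (l 16775632) (l 16775296)))))), by decide +kernel⟩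

def k296_A00pm_213_s3 : ∃ t, chk3 f_A00pm_213_s3 t 254 1019 1 = true :=
  ⟨(b (b (b (b (a (c (a (l 16774216) (a (l 16774216) (c (l 16773856) (l 16774528)))) (a (l 16775624) (a (l 16775648) (c (l 16775232) (l 16775960))))) (c (c (a (l 16773848) (l 16773832)) (a (l 16774456) (l 16774336))) (c (a (l 16775080) (l 16774864)) (l 16775576)))) (l 14)) (l 14)) (l 14)) (l 14)), by decide +kernel⟩

def k297_A00pm_213_s3 : ∃ t, chk3 f_A00pm_213_s3 t 255 508 1 = true :=
  ⟨(c (b (a (c (a (b (l 16771672) (l 16772080)) (b (l 16771520) (l 16771952))) (a (b (l 16772296) (l 16772664)) (b (l 16772016) (l 16772416)))) (c (a (c (l 16768888) (l 16769064)) (c (l 16768776) (l 16768888))) (a (b (l 16771736) (l 16772160)) (b (l 16771456) (l 16771904))))) (a (a (b (c (l 16772480) (l 16773024)) (c (l 16772864) (a (l 16773416) (l 16773320)))) (b (c (l 16772376) (l 16772800)) (c (l 16772784) (l 16773176)))) (a (b (c (l 16772264) (l 16772576)) (c (l 16772704) (l 16772984))) (b (c (l 16772160) (l 16772352)) (c (l 16772616) (l 16772792)))))) (b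 (c (a (b (a (l 16772944) (l 16769912)) (a (l 16770648) (c (l 16772776) (l 16773016)))) (a (b (l 16769504) (c (l 16772424) (l 16772608))) (b (c (l 16771648) (l 16771776)) (c (l 16772080) (l 16772200))))) (a (c (b (c (l 16770496) (l 16770648)) (c (l 16770816) (l 16770952))) (b (l 16773504) (l 16773792))) (a (b (c (l 16772424) (l 16772632)) (c (l 16772792) (l 16772984))) (b (c (l 16771912) (l 16772048)) (c (l 16772320) (l 16772448)))))) (a (c (b (a (c (l 16773440) (l 16773728)) (c (l 16773136) (l 16773360))) (a (c (l 16773760) (l 16774032)) (c (l 16773488) (l 16773696)))) (c (b (l 16773808) (l 16774112)) (b (b (l 16774008) (l 16774152)) (b (l 16774288) (l 16774424))))) (c (a (b (c (l 16772824) (l 16772992)) (c (l 16773208) (l 16773360))) (b (c (l 16772504) (l 16772616)) (c (l 16772928) (l 16773024)))) (a (b (c (l 16773160) (l 16773336)) (c (l 16773512) (l 16773672))) (b (c (l 16772720) (l 16772832)) (c (l 16773120) (l 16770600)))))))), by decide +kernel⟩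

def k298_A00pm_213_s3 : ∃ t, chk3 f_A00pm_213_s3 t 255 509 1 = true :=
  ⟨(b (c (a (b (a (c (a (l 16773256) (l 16773224)) (b (l 16773624) (l 16773792))) (c (l 16773184) (b (l 16773456) (l 16773640)))) (a (c (b (l 16773520) (l 16773696)) (b (l 16773960) (l 16774120))) (c (a (l 16773584) (l 16773568)) (b (l 16773816) (l 16773992))))) (a (b (c (l 16773128) (a (l 16773424) (l 16773344))) (c (a (l 16773544) (l 16773528)) (b (l 16773672) (l 16773864)))) (b (c (l 16773064) (c (l 16773176) (l 16773256))) (c (l 16773496) (b (l 16773528) (l 16773736)))))) (a (c (b (a (c (l 16774072) (l 16774320)) (c (l 16773832) (l 16774024))) (a (c (l 16774376) (l 16774608)) (c (l 16774168) (l 16774344)))) (b (a (l 16774704) (c (l 16774224) (l 16774424))) (a (l 16774960) (a (l 16774696) (l 16774528))))) (a (c (b (c (l 16773584) (l 16773720)) (c (l 16773952) (l 16774080))) (b (c (l 16773864) (l 16771384)) (c (l 16774208) (b (l 16774256) (l 16774416))))) (c (b (c (l 16773336) (l 16773416)) (c (l 16773736) (l 16773808))) (b (c (l 16773504)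 (b (l 16773504) (l 16773688))) (c (b (l 16773792) (l 16773976)) (b (l 16773872) (l 16774056)))))))) (b (b (b (b (c (a (c (l 16773800) (a (l 16774224) (l 16774104))) (c (l 16773752) (l 16773928))) (a (c (a (l 16774648) (l 16774432)) (l 16774936)) (c (a (l 16774216) (l 16773992)) (a (l 16774456) (l 16774128))))) (l 14)) (l 14)) (l 14)) (l 14))), by decide +kernel⟩

def k299_A00pm_213_s3 : ∃ t, chk3 f_A00pm_213_s3 t 31 255 1 = true :=
  ⟨(l 14), by decide +kernel⟩

end Pool.Agent.Strip051.G.I9231_9500.Tab.St.C
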