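import Pool.Agent.Strip051.G.I9231_9500.StH
import Pool.Agent.Strip051.G.I9231_9500.Sp9_0
import Pool.Agent.Strip051.G.I9231_9500.Sp9_1
import Pool.Agent.Strip051.G.I9231_9500.Sp9_2
import Pool.Agent.Strip051.G.I9231_9500.Sp9_3
import Pool.Agent.Strip051.G.I9231_9500.StF

/-! # Unit strips 9 (generated) -/

set_option linter.all false
set_option maxRecDepth 100000

namespace Pool.Agent.Strip051.G.I9231_9500.Tab.St.C

open Pool.Agent.Strip051.PB Pool.Agent.Strip051.PB.T Pool.Agent.StripNear Pool.Agent.Strip051.LC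
open Pool.Agent.Strip051.G.I9231_9500.Tab Pool.Agent.Strip051.G.I9231_9500.Tab.St

theorem t300_A00pm_213_s3 : ∃ t, chk3 f_A00pm_213_s3 t 255 254 1 = true := ex3_b k297_A00pm_213_s3 k298_A00pm_213_s3

theorem t301_A00pm_213_s3 : ∃ t, chk3 f_A00pm_213_s3 t 254 509 1 = true := ex3_b k295_A00pm_213_s3 k296_A00pm_213_s3

theorem t302_A00pm_213_s3 : ∃ t, chk3 f_A00pm_213_s3 t 254 508 1 = true := ex3_c k293_A00pm_213_s3 k294_A00pm_213_s3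

theorem t303_A00pm_213_s3 : ∃ t, chk3 f_A00pm_213_s3 t 254 254 1 = true := ex3_b t302_A00pm_213_s3 t301_A00pm_213_s3

theorem t304_A00pm_213_s3 : ∃ t, chk3 f_A00pm_213_s3 t 127 254 1 = true := ex3_a t303_A00pm_213_s3 t300_A00pm_213_s3

theorem t305_A00pm_213_s3 : ∃ t, chk3 f_A00pm_213_s3 t 126 254 1 = true := ex3_b k291_A00pm_213_s3 k292_A00pm_213_s3

theorem t306_A00pm_213_s3 : ∃ t, chk3 f_A00pm_213_s3 t 63 254 1 = true := ex3_a t305_A00pm_213_s3 t304_A00pm_213_s3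

theorem t307_A00pm_213_s3 : ∃ t, chk3 f_A00pm_213_s3 t 125 1018 1 = true := ex3_a k288_A00pm_213_s3 k289_A00pm_213_s3

theorem t308_A00pm_213_s3 : ∃ t, chk3 f_A00pm_213_s3 t 125 509 1 = true := ex3_b t307_A00pm_213_s3 k290_A00pm_213_s3

theorem t309_A00pm_213_s3 : ∃ t, chk3 f_A00pm_213_s3 t 125 508 1 = true := ex3_a k286_A00pm_213_s3 k287_A00pm_213_s3

theorem t310_A00pm_213_s3 : ∃ t, chk3 f_A00pm_213_s3 t 125 254 1 = true := ex3_b t309_A00pm_213_s3 t308_A00pm_213_s3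

theorem t311_A00pm_213_s3 : ∃ t, chk3 f_A00pm_213_s3 t 124 1018 1 = true := ex3_c k283_A00pm_213_s3 k284_A00pm_213_s3

theorem t312_A00pm_213_s3 : ∃ t, chk3 f_A00pm_213_s3 t 124 509 1 = true := ex3_b t311_A00pm_213_s3 k285_A00pm_213_s3

theorem t313_A00pm_213_s3 : ∃ t, chk3 f_A00pm_213_s3 t 124 508 3 = true := ex3_a k281_A00pm_213_s3 k282_A00pm_213_s3

theorem t314_A00pm_213_s3 : ∃ t, chk3 f_A00pm_213_s3 t 124 508 2 = true := ex3_b k279_A00pm_213_s3 k280_A00pm_213_s3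

theorem t315_A00pm_213_s3 : ∃ t, chk3 f_A00pm_213_s3 t 124 508 1 = true := ex3_c t314_A00pm_213_s3 t313_A00pm_213_s3

theorem t316_A00pm_213_s3 : ∃ t, chk3 f_A00pm_213_s3 t 124 254 1 = true := ex3_b t315_A00pm_213_s3 t312_A00pm_213_s3

theorem t317_A00pm_213_s3 : ∃ t, chk3 f_A00pm_213_s3 t 62 254 1 = true := ex3_a t316_A00pm_213_s3 t310_A00pm_213_s3

theorem t318_A00pm_213_s3 : ∃ t, chk3 f_A00pm_213_s3 t 31 254 1 = true := ex3_a t317_A00pm_213_s3 t306_A00pm_213_s3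

theorem t319_A00pm_213_s3 : ∃ t, chk3 f_A00pm_213_s3 t 31 127 1 = true := ex3_b t318_A00pm_213_s3 k299_A00pm_213_s3

theorem t320_A00pm_213_s3 : ∃ t, chk3 f_A00pm_213_s3 t 63 1015 1 = true := ex3_c k277_A00pm_213_s3 k278_A00pm_213_s3

theorem t321_A00pm_213_s3 : ∃ t, chk3 f_A00pm_213_s3 t 63 507 1 = true := ex3_b k276_A00pm_213_s3 t320_A00pm_213_s3

theorem t322_A00pm_213_s3 : ∃ t, chk3 f_A00pm_213_s3 t 63 253 1 = true := ex3_b k275_A00pm_213_s3 t321_A00pm_213_s3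

theorem t323_A00pm_213_s3 : ∃ t, chk3 f_A00pm_213_s3 t 63 126 1 = true := ex3_b k274_A00pm_213_s3 t322_A00pm_213_s3

theorem t324_A00pm_213_s3 : ∃ t, chk3 f_A00pm_213_s3 t 62 253 2 = true := ex3_a k271_A00pm_213_s3 k272_A00pm_213_s3

theorem t325_A00pm_213_s3 : ∃ t, chk3 f_A00pm_213_s3 t 62 126 2 = true := ex3_b k270_A00pm_213_s3 t324_A00pm_213_s3

theorem t326_A00pm_213_s3 : ∃ t, chk3 f_A00pm_213_s3 t 62 126 1 = true := ex3_c t325_A00pm_213_s3 k273_A00pm_213_s3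

theorem t327_A00pm_213_s3 : ∃ t, chk3 f_A00pm_213_s3 t 31 126 1 = true := ex3_a t326_A00pm_213_s3 t323_A00pm_213_s3

theorem t328_A00pm_213_s3 : ∃ t, chk3 f_A00pm_213_s3 t 31 63 1 = true := ex3_b t327_A00pm_213_s3 t319_A00pm_213_s3

theorem t329_A00pm_213_s3 : ∃ t, chk3 f_A00pm_213_s3 t 31 31 1 = true := ex3_b k269_A00pm_213_s3 t328_A00pm_213_s3

theorem t330_A00pm_213_s3 : ∃ t, chk3 f_A00pm_213_s3 t 31 15 1 = true := ex3_b k268_A00pm_213_s3 t329_A00pm_213_s3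

theorem t331_A00pm_213_s3 : ∃ t, chk3 f_A00pm_213_s3 t 242 2040 1 = true := ex3_b k261_A00pm_213_s3 k262_A00pm_213_s3

theorem t332_A00pm_213_s3 : ∃ t, chk3 f_A00pm_213_s3 t 242 1020 1 = true := ex3_b t331_A00pm_213_s3 k263_A00pm_213_s3

theorem t333_A00pm_213_s3 : ∃ t, chk3 f_A00pm_213_s3 t 121 1020 1 = true := ex3_a t332_A00pm_213_s3 k264_A00pm_213_s3

theorem t334_A00pm_213_s3 : ∃ t, chk3 f_A00pm_213_s3 t 121 510 1 = true := ex3_b t333_A00pm_213_s3 k265_A00pm_213_s3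

theorem t335_A00pm_213_s3 : ∃ t, chk3 f_A00pm_213_s3 t 60 510 1 = true := ex3_a k260_A00pm_213_s3 t334_A00pm_213_s3

theorem t336_A00pm_213_s3 : ∃ t, chk3 f_A00pm_213_s3 t 30 510 1 = true := ex3_a t335_A00pm_213_s3 k266_A00pm_213_s3

theorem t337_A00pm_213_s3 : ∃ t, chk3 f_A00pm_213_s3 t 30 255 1 = true := ex3_b t336_A00pm_213_s3 k267_A00pm_213_s3

theorem t338_A00pm_213_s3 : ∃ t, chk3 f_A00pm_213_s3 t 123 509 1 = true := ex3_b k258_A00pm_213_s3 k259_A00pm_213_s3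

theorem t339_A00pm_213_s3 : ∃ t, chk3 f_A00pm_213_s3 t 245 1018 1 = true := ex3_c k255_A00pm_213_s3 k256_A00pm_213_s3

theorem t340_A00pm_213_s3 : ∃ t, chk3 f_A00pm_213_s3 t 489 4074 1 = true := ex3_a k252_A00pm_213_s3 k253_A00pm_213_s3

theorem t341_A00pm_213_s3 : ∃ t, chk3 f_A00pm_213_s3 t 489 2037 1 = true := ex3_b t340_A00pm_213_s3 k254_A00pm_213_s3

theorem t342_A00pm_213_s3 : ∃ t, chk3 f_A00pm_213_s3 t 244 2037 1 = true := ex3_a k251_A00pm_213_s3 t341_A00pm_213_s3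

theorem t343_A00pm_213_s3 : ∃ t, chk3 f_A00pm_213_s3 t 488 2036 1 = true := ex3_c k248_A00pm_213_s3 k249_A00pm_213_s3

theorem t344_A00pm_213_s3 : ∃ t, chk3 f_A00pm_213_s3 t 244 2036 1 = true := ex3_a t343_A00pm_213_s3 k250_A00pm_213_s3

theorem t345_A00pm_213_s3 : ∃ t, chk3 f_A00pm_213_s3 t 244 1018 1 = true := ex3_b t344_A00pm_213_s3 t342_A00pm_213_s3

theorem t346_A00pm_213_s3 : ∃ t, chk3 f_A00pm_213_s3 t 122 1018 1 = true := ex3_a t345_A00pm_213_s3 t339_A00pm_213_s3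

theorem t347_A00pm_213_s3 : ∃ t, chk3 f_A00pm_213_s3 t 122 509 1 = true := ex3_b t346_A00pm_213_s3 k257_A00pm_213_s3

theorem t348_A00pm_213_s3 : ∃ t, chk3 f_A00pm_213_s3 t 61 509 1 = true := ex3_a t347_A00pm_213_s3 t338_A00pm_213_s3

theorem t349_A00pm_213_s3 : ∃ t, chk3 f_A00pm_213_s3 t 123 508 2 = true := ex3_a k245_A00pm_213_s3 k246_A00pm_213_s3

theorem t350_A00pm_213_s3 : ∃ t, chk3 f_A00pm_213_s3 t 123 508 1 = true := ex3_c t349_A00pm_213_s3 k247_A00pm_213_s3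

theorem t351_A00pm_213_s3 : ∃ t, chk3 f_A00pm_213_s3 t 122 508 1 = true := ex3_b k243_A00pm_213_s3 k244_A00pm_213_s3

theorem t352_A00pm_213_s3 : ∃ t, chk3 f_A00pm_213_s3 t 61 508 1 = true := ex3_a t351_A00pm_213_s3 t350_A00pm_213_s3

theorem t353_A00pm_213_s3 : ∃ t, chk3 f_A00pm_213_s3 t 61 254 1 = true := ex3_b t352_A00pm_213_s3 t348_A00pm_213_s3

theorem t354_A00pm_213_s3 : ∃ t, chk3 f_A00pm_213_s3 t 243 1019 1 = true := ex3_a k241_A00pm_213_s3 k242_A00pm_213_s3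

theorem t355_A00pm_213_s3 : ∃ t, chk3 f_A00pm_213_s3 t 242 2039 1 = true := ex3_a k239_A00pm_213_s3 k240_A00pm_213_s3

theorem t356_A00pm_213_s3 : ∃ t, chk3 f_A00pm_213_s3 t 242 1019 1 = true := ex3_b k238_A00pm_213_s3 t355_A00pm_213_s3

theorem t357_A00pm_213_s3 : ∃ t, chk3 f_A00pm_213_s3 t 121 1019 1 = true := ex3_a t356_A00pm_213_s3 t354_A00pm_213_s3

theorem t358_A00pm_213_s3 : ∃ t, chk3 f_A00pm_213_s3 t 121 1018 1 = true := ex3_c k236_A00pm_213_s3 k237_A00pm_213_s3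

theorem t359_A00pm_213_s3 : ∃ t, chk3 f_A00pm_213_s3 t 121 509 1 = true := ex3_b t358_A00pm_213_s3 t357_A00pm_213_s3

theorem t360_A00pm_213_s3 : ∃ t, chk3 f_A00pm_213_s3 t 241 2038 1 = true := ex3_a k233_A00pm_213_s3 k234_A00pm_213_s3

theorem t361_A00pm_213_s3 : ∃ t, chk3 f_A00pm_213_s3 t 241 1019 1 = true := ex3_b t360_A00pm_213_s3 k235_A00pm_213_s3

theorem t362_A00pm_213_s3 : ∃ t, chk3 f_A00pm_213_s3 t 120 1019 1 = true := ex3_a k232_A00pm_213_s3 t361_A00pm_213_s3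

theorem t363_A00pm_213_s3 : ∃ t, chk3 f_A00pm_213_s3 t 241 1018 1 = true := ex3_b k230_A00pm_213_s3 k231_A00pm_213_s3

theorem t364_A00pm_213_s3 : ∃ t, chk3 f_A00pm_213_s3 t 480 2037 3 = true := ex3_a k227_A00pm_213_s3 k228_A00pm_213_s3

theorem t365_A00pm_213_s3 : ∃ t, chk3 f_A00pm_213_s3 t 240 2037 3 = true := ex3_a t364_A00pm_213_s3 k229_A00pm_213_s3

theorem t366_A00pm_213_s3 : ∃ t, chk3 f_A00pm_213_s3 t 240 1018 3 = true := ex3_b k226_A00pm_213_s3 t365_A00pm_213_s3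

theorem t367_A00pm_213_s3 : ∃ t, chk3 f_A00pm_213_s3 t 960 4075 2 = true := ex3_b k222_A00pm_213_s3 k223_A00pm_213_s3

theorem t368_A00pm_213_s3 : ∃ t, chk3 f_A00pm_213_s3 t 960 2037 2 = true := ex3_b k221_A00pm_213_s3 t367_A00pm_213_s3

theorem t369_A00pm_213_s3 : ∃ t, chk3 f_A00pm_213_s3 t 480 2037 2 = true := ex3_a t368_A00pm_213_s3 k224_A00pm_213_s3

theorem t370_A00pm_213_s3 : ∃ t, chk3 f_A00pm_213_s3 t 240 2037 2 = true := ex3_a t369_A00pm_213_s3 k225_A00pm_213_s3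

theorem t371_A00pm_213_s3 : ∃ t, chk3 f_A00pm_213_s3 t 240 2036 2 = true := ex3_a k219_A00pm_213_s3 k220_A00pm_213_s3

theorem t372_A00pm_213_s3 : ∃ t, chk3 f_A00pm_213_s3 t 240 1018 2 = true := ex3_b t371_A00pm_213_s3 t370_A00pm_213_s3

theorem t373_A00pm_213_s3 : ∃ t, chk3 f_A00pm_213_s3 t 240 1018 1 = true := ex3_c t372_A00pm_213_s3 t366_A00pm_213_s3

theorem t374_A00pm_213_s3 : ∃ t, chk3 f_A00pm_213_s3 t 120 1018 1 = true := ex3_a t373_A00pm_213_s3 t363_A00pm_213_s3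

theorem t375_A00pm_213_s3 : ∃ t, chk3 f_A00pm_213_s3 t 120 509 1 = true := ex3_b t374_A00pm_213_s3 t362_A00pm_213_s3

theorem t376_A00pm_213_s3 : ∃ t, chk3 f_A00pm_213_s3 t 60 509 1 = true := ex3_a t375_A00pm_213_s3 t359_A00pm_213_s3

theorem t377_A00pm_213_s3 : ∃ t, chk3 f_A00pm_213_s3 t 243 2035 1 = true := ex3_b k217_A00pm_213_s3 k218_A00pm_213_s3

theorem t378_A00pm_213_s3 : ∃ t, chk3 f_A00pm_213_s3 t 243 2034 1 = true := ex3_a k215_A00pm_213_s3 k216_A00pm_213_s3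

theorem t379_A00pm_213_s3 : ∃ t, chk3 f_A00pm_213_s3 t 243 1017 1 = true := ex3_b t378_A00pm_213_s3 t377_A00pm_213_s3

theorem t380_A00pm_213_s3 : ∃ t, chk3 f_A00pm_213_s3 t 121 1017 1 = true := ex3_a k214_A00pm_213_s3 t379_A00pm_213_s3

theorem t381_A00pm_213_s3 : ∃ t, chk3 f_A00pm_213_s3 t 480 1017 1 = true := ex3_b k210_A00pm_213_s3 k211_A00pm_213_s3

theorem t382_A00pm_213_s3 : ∃ t, chk3 f_A00pm_213_s3 t 240 1017 1 = true := ex3_a t381_A00pm_213_s3 k212_A00pm_213_s3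

theorem t383_A00pm_213_s3 : ∃ t, chk3 f_A00pm_213_s3 t 120 1017 1 = true := ex3_a t382_A00pm_213_s3 k213_A00pm_213_s3

theorem t384_A00pm_213_s3 : ∃ t, chk3 f_A00pm_213_s3 t 60 1017 1 = true := ex3_a t383_A00pm_213_s3 t380_A00pm_213_s3

theorem t385_A00pm_213_s3 : ∃ t, chk3 f_A00pm_213_s3 t 242 1016 1 = true := ex3_a k207_A00pm_213_s3 k208_A00pm_213_s3

theorem t386_A00pm_213_s3 : ∃ t, chk3 f_A00pm_213_s3 t 121 1016 1 = true := ex3_a t385_A00pm_213_s3 k209_A00pm_213_s3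

theorem t387_A00pm_213_s3 : ∃ t, chk3 f_A00pm_213_s3 t 60 1016 1 = true := ex3_a k206_A00pm_213_s3 t386_A00pm_213_s3

theorem t388_A00pm_213_s3 : ∃ t, chk3 f_A00pm_213_s3 t 60 508 1 = true := ex3_b t387_A00pm_213_s3 t384_A00pm_213_s3

theorem t389_A00pm_213_s3 : ∃ t, chk3 f_A00pm_213_s3 t 60 254 1 = true := ex3_b t388_A00pm_213_s3 t376_A00pm_213_s3

theorem t390_A00pm_213_s3 : ∃ t, chk3 f_A00pm_213_s3 t 30 254 1 = true := ex3_a t389_A00pm_213_s3 t353_A00pm_213_s3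

theorem t391_A00pm_213_s3 : ∃ t, chk3 f_A00pm_213_s3 t 30 127 1 = true := ex3_b t390_A00pm_213_s3 t337_A00pm_213_s3

theorem t392_A00pm_213_s3 : ∃ t, chk3 f_A00pm_213_s3 t 61 253 3 = true := ex3_a k204_A00pm_213_s3 k205_A00pm_213_s3

theorem t393_A00pm_213_s3 : ∃ t, chk3 f_A00pm_213_s3 t 123 253 2 = true := ex3_b k202_A00pm_213_s3 k203_A00pm_213_s3

theorem t394_A00pm_213_s3 : ∃ t, chk3 f_A00pm_213_s3 t 61 253 2 = true := ex3_a k201_A00pm_213_s3 t393_A00pm_213_s3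

theorem t395_A00pm_213_s3 : ∃ t, chk3 f_A00pm_213_s3 t 61 253 1 = true := ex3_c t394_A00pm_213_s3 t392_A00pm_213_s3

theorem t396_A00pm_213_s3 : ∃ t, chk3 f_A00pm_213_s3 t 61 126 1 = true := ex3_b k200_A00pm_213_s3 t395_A00pm_213_s3

theorem t397_A00pm_213_s3 : ∃ t, chk3 f_A00pm_213_s3 t 241 507 1 = true := ex3_b k197_A00pm_213_s3 k198_A00pm_213_s3

theorem t398_A00pm_213_s3 : ∃ t, chk3 f_A00pm_213_s3 t 120 507 1 = true := ex3_a k196_A00pm_213_s3 t397_A00pm_213_s3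

theorem t399_A00pm_213_s3 : ∃ t, chk3 f_A00pm_213_s3 t 120 253 1 = true := ex3_b k195_A00pm_213_s3 t398_A00pm_213_s3

theorem t400_A00pm_213_s3 : ∃ t, chk3 f_A00pm_213_s3 t 60 253 1 = true := ex3_a t399_A00pm_213_s3 k199_A00pm_213_s3

theorem t401_A00pm_213_s3 : ∃ t, chk3 f_A00pm_213_s3 t 60 126 1 = true := ex3_b k194_A00pm_213_s3 t400_A00pm_213_s3

theorem t402_A00pm_213_s3 : ∃ t, chk3 f_A00pm_213_s3 t 30 126 1 = true := ex3_a t401_A00pm_213_s3 t396_A00pm_213_s3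

theorem t403_A00pm_213_s3 : ∃ t, chk3 f_A00pm_213_s3 t 30 63 1 = true := ex3_b t402_A00pm_213_s3 t391_A00pm_213_s3

theorem t404_A00pm_213_s3 : ∃ t, chk3 f_A00pm_213_s3 t 30 31 1 = true := ex3_b k193_A00pm_213_s3 t403_A00pm_213_s3

theorem t405_A00pm_213_s3 : ∃ t, chk3 f_A00pm_213_s3 t 30 15 1 = true := ex3_b k192_A00pm_213_s3 t404_A00pm_213_s3

theorem t406_A00pm_213_s3 : ∃ t, chk3 f_A00pm_213_s3 t 15 15 1 = true := ex3_a t405_A00pm_213_s3 t330_A00pm_213_s3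

theorem t407_A00pm_213_s3 : ∃ t, chk3 f_A00pm_213_s3 t 15 7 1 = true := ex3_b k191_A00pm_213_s3 t406_A00pm_213_s3

theorem t408_A00pm_213_s3 : ∃ t, chk3 f_A00pm_213_s3 t 239 2036 3 = true := ex3_a k186_A00pm_213_s3 k187_A00pm_213_s3

theorem t409_A00pm_213_s3 : ∃ t, chk3 f_A00pm_213_s3 t 239 1018 3 = true := ex3_b t408_A00pm_213_s3 k188_A00pm_213_s3

theorem t410_A00pm_213_s3 : ∃ t, chk3 f_A00pm_213_s3 t 119 1018 3 = true := ex3_a k185_A00pm_213_s3 t409_A00pm_213_s3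

theorem t411_A00pm_213_s3 : ∃ t, chk3 f_A00pm_213_s3 t 119 509 3 = true := ex3_b t410_A00pm_213_s3 k189_A00pm_213_s3

theorem t412_A00pm_213_s3 : ∃ t, chk3 f_A00pm_213_s3 t 59 509 3 = true := ex3_a k184_A00pm_213_s3 t411_A00pm_213_s3

theorem t413_A00pm_213_s3 : ∃ t, chk3 f_A00pm_213_s3 t 239 1017 3 = true := ex3_a k182_A00pm_213_s3 k183_A00pm_213_s3

theorem t414_A00pm_213_s3 : ∃ t, chk3 f_A00pm_213_s3 t 239 508 3 = true := ex3_b k181_A00pm_213_s3 t413_A00pm_213_s3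

theorem t415_A00pm_213_s3 : ∃ t, chk3 f_A00pm_213_s3 t 477 1017 3 = true := ex3_b k179_A00pm_213_s3 k180_A00pm_213_s3

theorem t416_A00pm_213_s3 : ∃ t, chk3 f_A00pm_213_s3 t 476 2035 3 = true := ex3_a k177_A00pm_213_s3 k178_A00pm_213_s3

theorem t417_A00pm_213_s3 : ∃ t, chk3 f_A00pm_213_s3 t 476 1017 3 = true := ex3_b k176_A00pm_213_s3 t416_A00pm_213_s3

theorem t418_A00pm_213_s3 : ∃ t, chk3 f_A00pm_213_s3 t 238 1017 3 = true := ex3_a t417_A00pm_213_s3 t415_A00pm_213_s3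

theorem t419_A00pm_213_s3 : ∃ t, chk3 f_A00pm_213_s3 t 238 508 3 = true := ex3_b k175_A00pm_213_s3 t418_A00pm_213_s3

theorem t420_A00pm_213_s3 : ∃ t, chk3 f_A00pm_213_s3 t 119 508 3 = true := ex3_a t419_A00pm_213_s3 t414_A00pm_213_s3

theorem t421_A00pm_213_s3 : ∃ t, chk3 f_A00pm_213_s3 t 475 4069 3 = true := ex3_a k172_A00pm_213_s3 k173_A00pm_213_s3

theorem t422_A00pm_213_s3 : ∃ t, chk3 f_A00pm_213_s3 t 475 2034 3 = true := ex3_b k171_A00pm_213_s3 t421_A00pm_213_s3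

theorem t423_A00pm_213_s3 : ∃ t, chk3 f_A00pm_213_s3 t 475 1017 3 = true := ex3_b t422_A00pm_213_s3 k174_A00pm_213_s3

theorem t424_A00pm_213_s3 : ∃ t, chk3 f_A00pm_213_s3 t 237 1017 3 = true := ex3_a k170_A00pm_213_s3 t423_A00pm_213_s3

theorem t425_A00pm_213_s3 : ∃ t, chk3 f_A00pm_213_s3 t 948 4067 3 = true := ex3_b k166_A00pm_213_s3 k167_A00pm_213_s3

theorem t426_A00pm_213_s3 : ∃ t, chk3 f_A00pm_213_s3 t 474 4067 3 = true := ex3_a t425_A00pm_213_s3 k168_A00pm_213_s3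

theorem t427_A00pm_213_s3 : ∃ t, chk3 f_A00pm_213_s3 t 474 2033 3 = true := ex3_b k165_A00pm_213_s3 t426_A00pm_213_s3

theorem t428_A00pm_213_s3 : ∃ t, chk3 f_A00pm_213_s3 t 474 1016 3 = true := ex3_b k164_A00pm_213_s3 t427_A00pm_213_s3

theorem t429_A00pm_213_s3 : ∃ t, chk3 f_A00pm_213_s3 t 237 1016 3 = true := ex3_a t428_A00pm_213_s3 k169_A00pm_213_s3

theorem t430_A00pm_213_s3 : ∃ t, chk3 f_A00pm_213_s3 t 237 508 3 = true := ex3_b t429_A00pm_213_s3 t424_A00pm_213_s3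

theorem t431_A00pm_213_s3 : ∃ t, chk3 f_A00pm_213_s3 t 473 4066 3 = true := ex3_a k160_A00pm_213_s3 k161_A00pm_213_s3

theorem t432_A00pm_213_s3 : ∃ t, chk3 f_A00pm_213_s3 t 473 2033 3 = true := ex3_b t431_A00pm_213_s3 k162_A00pm_213_s3

theorem t433_A00pm_213_s3 : ∃ t, chk3 f_A00pm_213_s3 t 473 4065 3 = true := ex3_a k158_A00pm_213_s3 k159_A00pm_213_s3

theorem t434_A00pm_213_s3 : ∃ t, chk3 f_A00pm_213_s3 t 473 2032 3 = true := ex3_b k157_A00pm_213_s3 t433_A00pm_213_s3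

theorem t435_A00pm_213_s3 : ∃ t, chk3 f_A00pm_213_s3 t 473 1016 3 = true := ex3_b t434_A00pm_213_s3 t432_A00pm_213_s3

theorem t436_A00pm_213_s3 : ∃ t, chk3 f_A00pm_213_s3 t 472 4065 3 = true := ex3_a k154_A00pm_213_s3 k155_A00pm_213_s3

theorem t437_A00pm_213_s3 : ∃ t, chk3 f_A00pm_213_s3 t 472 4064 3 = true := ex3_a k152_A00pm_213_s3 k153_A00pm_213_s3

theorem t438_A00pm_213_s3 : ∃ t, chk3 f_A00pm_213_s3 t 472 2032 3 = true := ex3_b t437_A00pm_213_s3 t436_A00pm_213_s3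

theorem t439_A00pm_213_s3 : ∃ t, chk3 f_A00pm_213_s3 t 472 1016 3 = true := ex3_b t438_A00pm_213_s3 k156_A00pm_213_s3

theorem t440_A00pm_213_s3 : ∃ t, chk3 f_A00pm_213_s3 t 236 1016 3 = true := ex3_a t439_A00pm_213_s3 t435_A00pm_213_s3

theorem t441_A00pm_213_s3 : ∃ t, chk3 f_A00pm_213_s3 t 236 508 3 = true := ex3_b t440_A00pm_213_s3 k163_A00pm_213_s3

theorem t442_A00pm_213_s3 : ∃ t, chk3 f_A00pm_213_s3 t 118 508 3 = true := ex3_a t441_A00pm_213_s3 t430_A00pm_213_s3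

theorem t443_A00pm_213_s3 : ∃ t, chk3 f_A00pm_213_s3 t 59 508 3 = true := ex3_a t442_A00pm_213_s3 t420_A00pm_213_s3

theorem t444_A00pm_213_s3 : ∃ t, chk3 f_A00pm_213_s3 t 59 254 3 = true := ex3_b t443_A00pm_213_s3 t412_A00pm_213_s3

theorem t445_A00pm_213_s3 : ∃ t, chk3 f_A00pm_213_s3 t 59 127 3 = true := ex3_b t444_A00pm_213_s3 k190_A00pm_213_s3

theorem t446_A00pm_213_s3 : ∃ t, chk3 f_A00pm_213_s3 t 29 127 3 = true := ex3_a k151_A00pm_213_s3 t445_A00pm_213_s3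

theorem t447_A00pm_213_s3 : ∃ t, chk3 f_A00pm_213_s3 t 239 2037 2 = true := ex3_a k147_A00pm_213_s3 k148_A00pm_213_s3

theorem t448_A00pm_213_s3 : ∃ t, chk3 f_A00pm_213_s3 t 478 2036 2 = true := ex3_a k144_A00pm_213_s3 k145_A00pm_213_s3

theorem t449_A00pm_213_s3 : ∃ t, chk3 f_A00pm_213_s3 t 239 2036 2 = true := ex3_a t448_A00pm_213_s3 k146_A00pm_213_s3

theorem t450_A00pm_213_s3 : ∃ t, chk3 f_A00pm_213_s3 t 239 1018 2 = true := ex3_b t449_A00pm_213_s3 t447_A00pm_213_s3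

theorem t451_A00pm_213_s3 : ∃ t, chk3 f_A00pm_213_s3 t 119 1018 2 = true := ex3_a k143_A00pm_213_s3 t450_A00pm_213_s3

theorem t452_A00pm_213_s3 : ∃ t, chk3 f_A00pm_213_s3 t 119 509 2 = true := ex3_b t451_A00pm_213_s3 k149_A00pm_213_s3

theorem t453_A00pm_213_s3 : ∃ t, chk3 f_A00pm_213_s3 t 59 509 2 = true := ex3_a k142_A00pm_213_s3 t452_A00pm_213_s3

theorem t454_A00pm_213_s3 : ∃ t, chk3 f_A00pm_213_s3 t 239 1017 2 = true := ex3_a k140_A00pm_213_s3 k141_A00pm_213_s3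

theorem t455_A00pm_213_s3 : ∃ t, chk3 f_A00pm_213_s3 t 239 508 2 = true := ex3_b k139_A00pm_213_s3 t454_A00pm_213_s3

theorem t456_A00pm_213_s3 : ∃ t, chk3 f_A00pm_213_s3 t 477 4071 2 = true := ex3_a k137_A00pm_213_s3 k138_A00pm_213_s3

theorem t457_A00pm_213_s3 : ∃ t, chk3 f_A00pm_213_s3 t 477 2035 2 = true := ex3_b k136_A00pm_213_s3 t456_A00pm_213_s3

theorem t458_A00pm_213_s3 : ∃ t, chk3 f_A00pm_213_s3 t 477 1017 2 = true := ex3_b k135_A00pm_213_s3 t457_A00pm_213_s3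

theorem t459_A00pm_213_s3 : ∃ t, chk3 f_A00pm_213_s3 t 952 4070 2 = true := ex3_b k131_A00pm_213_s3 k132_A00pm_213_s3

theorem t460_A00pm_213_s3 : ∃ t, chk3 f_A00pm_213_s3 t 476 4070 2 = true := ex3_a t459_A00pm_213_s3 k133_A00pm_213_s3

theorem t461_A00pm_213_s3 : ∃ t, chk3 f_A00pm_213_s3 t 476 2035 2 = true := ex3_b t460_A00pm_213_s3 k134_A00pm_213_s3

theorem t462_A00pm_213_s3 : ∃ t, chk3 f_A00pm_213_s3 t 476 2034 2 = true := ex3_b k129_A00pm_213_s3 k130_A00pm_213_s3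

theorem t463_A00pm_213_s3 : ∃ t, chk3 f_A00pm_213_s3 t 476 1017 2 = true := ex3_b t462_A00pm_213_s3 t461_A00pm_213_s3

theorem t464_A00pm_213_s3 : ∃ t, chk3 f_A00pm_213_s3 t 238 1017 2 = true := ex3_a t463_A00pm_213_s3 t458_A00pm_213_s3

theorem t465_A00pm_213_s3 : ∃ t, chk3 f_A00pm_213_s3 t 238 508 2 = true := ex3_b k128_A00pm_213_s3 t464_A00pm_213_s3

theorem t466_A00pm_213_s3 : ∃ t, chk3 f_A00pm_213_s3 t 119 508 2 = true := ex3_a t465_A00pm_213_s3 t455_A00pm_213_s3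

theorem t467_A00pm_213_s3 : ∃ t, chk3 f_A00pm_213_s3 t 951 4069 2 = true := ex3_a k125_A00pm_213_s3 k126_A00pm_213_s3

theorem t468_A00pm_213_s3 : ∃ t, chk3 f_A00pm_213_s3 t 475 4069 2 = true := ex3_a k124_A00pm_213_s3 t467_A00pm_213_s3

theorem t469_A00pm_213_s3 : ∃ t, chk3 f_A00pm_213_s3 t 475 4068 2 = true := ex3_a k122_A00pm_213_s3 k123_A00pm_213_s3

theorem t470_A00pm_213_s3 : ∃ t, chk3 f_A00pm_213_s3 t 475 2034 2 = true := ex3_b t469_A00pm_213_s3 t468_A00pm_213_s3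

theorem t471_A00pm_213_s3 : ∃ t, chk3 f_A00pm_213_s3 t 475 1017 2 = true := ex3_b t470_A00pm_213_s3 k127_A00pm_213_s3

theorem t472_A00pm_213_s3 : ∃ t, chk3 f_A00pm_213_s3 t 237 1017 2 = true := ex3_a k121_A00pm_213_s3 t471_A00pm_213_s3

theorem t473_A00pm_213_s3 : ∃ t, chk3 f_A00pm_213_s3 t 474 4067 2 = true := ex3_a k118_A00pm_213_s3 k119_A00pm_213_s3

theorem t474_A00pm_213_s3 : ∃ t, chk3 f_A00pm_213_s3 t 474 2033 2 = true := ex3_b k117_A00pm_213_s3 t473_A00pm_213_s3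

theorem t475_A00pm_213_s3 : ∃ t, chk3 f_A00pm_213_s3 t 474 1016 2 = true := ex3_b k116_A00pm_213_s3 t474_A00pm_213_s3

theorem t476_A00pm_213_s3 : ∃ t, chk3 f_A00pm_213_s3 t 237 1016 2 = true := ex3_a t475_A00pm_213_s3 k120_A00pm_213_s3

theorem t477_A00pm_213_s3 : ∃ t, chk3 f_A00pm_213_s3 t 237 508 2 = true := ex3_b t476_A00pm_213_s3 t472_A00pm_213_s3

theorem t478_A00pm_213_s3 : ∃ t, chk3 f_A00pm_213_s3 t 473 2033 2 = true := ex3_b k113_A00pm_213_s3 k114_A00pm_213_s3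

theorem t479_A00pm_213_s3 : ∃ t, chk3 f_A00pm_213_s3 t 473 1016 2 = true := ex3_b k112_A00pm_213_s3 t478_A00pm_213_s3

theorem t480_A00pm_213_s3 : ∃ t, chk3 f_A00pm_213_s3 t 236 1016 2 = true := ex3_a k111_A00pm_213_s3 t479_A00pm_213_s3

theorem t481_A00pm_213_s3 : ∃ t, chk3 f_A00pm_213_s3 t 236 508 2 = true := ex3_b t480_A00pm_213_s3 k115_A00pm_213_s3

theorem t482_A00pm_213_s3 : ∃ t, chk3 f_A00pm_213_s3 t 118 508 2 = true := ex3_a t481_A00pm_213_s3 t477_A00pm_213_s3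

theorem t483_A00pm_213_s3 : ∃ t, chk3 f_A00pm_213_s3 t 59 508 2 = true := ex3_a t482_A00pm_213_s3 t466_A00pm_213_s3

theorem t484_A00pm_213_s3 : ∃ t, chk3 f_A00pm_213_s3 t 59 254 2 = true := ex3_b t483_A00pm_213_s3 t453_A00pm_213_s3

theorem t485_A00pm_213_s3 : ∃ t, chk3 f_A00pm_213_s3 t 59 127 2 = true := ex3_b t484_A00pm_213_s3 k150_A00pm_213_s3

theorem t486_A00pm_213_s3 : ∃ t, chk3 f_A00pm_213_s3 t 29 127 2 = true := ex3_a k110_A00pm_213_s3 t485_A00pm_213_s3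

theorem t487_A00pm_213_s3 : ∃ t, chk3 f_A00pm_213_s3 t 29 127 1 = true := ex3_c t486_A00pm_213_s3 t446_A00pm_213_s3

theorem t488_A00pm_213_s3 : ∃ t, chk3 f_A00pm_213_s3 t 119 507 1 = true := ex3_c k108_A00pm_213_s3 k109_A00pm_213_s3

theorem t489_A00pm_213_s3 : ∃ t, chk3 f_A00pm_213_s3 t 119 506 1 = true := ex3_b k106_A00pm_213_s3 k107_A00pm_213_s3

theorem t490_A00pm_213_s3 : ∃ t, chk3 f_A00pm_213_s3 t 119 253 1 = true := ex3_b t489_A00pm_213_s3 t488_A00pm_213_s3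

theorem t491_A00pm_213_s3 : ∃ t, chk3 f_A00pm_213_s3 t 237 507 1 = true := ex3_b k104_A00pm_213_s3 k105_A00pm_213_s3

theorem t492_A00pm_213_s3 : ∃ t, chk3 f_A00pm_213_s3 t 472 2031 1 = true := ex3_b k101_A00pm_213_s3 k102_A00pm_213_s3

theorem t493_A00pm_213_s3 : ∃ t, chk3 f_A00pm_213_s3 t 472 1015 1 = true := ex3_b k100_A00pm_213_s3 t492_A00pm_213_s3

theorem t494_A00pm_213_s3 : ∃ t, chk3 f_A00pm_213_s3 t 236 1015 1 = true := ex3_a t493_A00pm_213_s3 k103_A00pm_213_s3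

theorem t495_A00pm_213_s3 : ∃ t, chk3 f_A00pm_213_s3 t 236 507 1 = true := ex3_b k99_A00pm_213_s3 t494_A00pm_213_s3

theorem t496_A00pm_213_s3 : ∃ t, chk3 f_A00pm_213_s3 t 118 507 1 = true := ex3_a t495_A00pm_213_s3 t491_A00pm_213_s3

theorem t497_A00pm_213_s3 : ∃ t, chk3 f_A00pm_213_s3 t 118 253 1 = true := ex3_b k98_A00pm_213_s3 t496_A00pm_213_s3

theorem t498_A00pm_213_s3 : ∃ t, chk3 f_A00pm_213_s3 t 59 253 1 = true := ex3_a t497_A00pm_213_s3 t490_A00pm_213_s3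

theorem t499_A00pm_213_s3 : ∃ t, chk3 f_A00pm_213_s3 t 471 4063 1 = true := ex3_b k96_A00pm_213_s3 k97_A00pm_213_s3

theorem t500_A00pm_213_s3 : ∃ t, chk3 f_A00pm_213_s3 t 471 2031 1 = true := ex3_b k95_A00pm_213_s3 t499_A00pm_213_s3

theorem t501_A00pm_213_s3 : ∃ t, chk3 f_A00pm_213_s3 t 471 1015 1 = true := ex3_b k94_A00pm_213_s3 t500_A00pm_213_s3

theorem t502_A00pm_213_s3 : ∃ t, chk3 f_A00pm_213_s3 t 470 2030 1 = true := ex3_b k91_A00pm_213_s3 k92_A00pm_213_s3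

theorem t503_A00pm_213_s3 : ∃ t, chk3 f_A00pm_213_s3 t 470 1015 1 = true := ex3_b t502_A00pm_213_s3 k93_A00pm_213_s3

theorem t504_A00pm_213_s3 : ∃ t, chk3 f_A00pm_213_s3 t 235 1015 1 = true := ex3_a t503_A00pm_213_s3 t501_A00pm_213_s3

theorem t505_A00pm_213_s3 : ∃ t, chk3 f_A00pm_213_s3 t 235 507 1 = true := ex3_b k90_A00pm_213_s3 t504_A00pm_213_s3

theorem t506_A00pm_213_s3 : ∃ t, chk3 f_A00pm_213_s3 t 234 1014 1 = true := ex3_a k87_A00pm_213_s3 k88_A00pm_213_s3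

theorem t507_A00pm_213_s3 : ∃ t, chk3 f_A00pm_213_s3 t 234 507 1 = true := ex3_b t506_A00pm_213_s3 k89_A00pm_213_s3

theorem t508_A00pm_213_s3 : ∃ t, chk3 f_A00pm_213_s3 t 117 507 1 = true := ex3_a t507_A00pm_213_s3 t505_A00pm_213_s3

theorem t509_A00pm_213_s3 : ∃ t, chk3 f_A00pm_213_s3 t 117 506 1 = true := ex3_a k85_A00pm_213_s3 k86_A00pm_213_s3

theorem t510_A00pm_213_s3 : ∃ t, chk3 f_A00pm_213_s3 t 117 253 1 = true := ex3_b t509_A00pm_213_s3 t508_A00pm_213_s3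

theorem t511_A00pm_213_s3 : ∃ t, chk3 f_A00pm_213_s3 t 233 506 1 = true := ex3_b k82_A00pm_213_s3 k83_A00pm_213_s3

theorem t512_A00pm_213_s3 : ∃ t, chk3 f_A00pm_213_s3 t 116 506 1 = true := ex3_a k81_A00pm_213_s3 t511_A00pm_213_s3

theorem t513_A00pm_213_s3 : ∃ t, chk3 f_A00pm_213_s3 t 116 253 1 = true := ex3_b t512_A00pm_213_s3 k84_A00pm_213_s3

theorem t514_A00pm_213_s3 : ∃ t, chk3 f_A00pm_213_s3 t 58 253 1 = true := ex3_a t513_A00pm_213_s3 t510_A00pm_213_s3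

theorem t515_A00pm_213_s3 : ∃ t, chk3 f_A00pm_213_s3 t 29 253 1 = true := ex3_a t514_A00pm_213_s3 t498_A00pm_213_s3

theorem t516_A00pm_213_s3 : ∃ t, chk3 f_A00pm_213_s3 t 238 505 1 = true := ex3_b k78_A00pm_213_s3 k79_A00pm_213_s3

theorem t517_A00pm_213_s3 : ∃ t, chk3 f_A00pm_213_s3 t 119 505 1 = true := ex3_a t516_A00pm_213_s3 k80_A00pm_213_s3

theorem t518_A00pm_213_s3 : ∃ t, chk3 f_A00pm_213_s3 t 119 252 1 = true := ex3_b k77_A00pm_213_s3 t517_A00pm_213_s3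

theorem t519_A00pm_213_s3 : ∃ t, chk3 f_A00pm_213_s3 t 237 504 1 = true := ex3_b k74_A00pm_213_s3 k75_A00pm_213_s3

theorem t520_A00pm_213_s3 : ∃ t, chk3 f_A00pm_213_s3 t 118 504 1 = true := ex3_a k73_A00pm_213_s3 t519_A00pm_213_s3

theorem t521_A00pm_213_s3 : ∃ t, chk3 f_A00pm_213_s3 t 118 252 1 = true := ex3_b t520_A00pm_213_s3 k76_A00pm_213_s3

theorem t522_A00pm_213_s3 : ∃ t, chk3 f_A00pm_213_s3 t 59 252 1 = true := ex3_a t521_A00pm_213_s3 t518_A00pm_213_s3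

theorem t523_A00pm_213_s3 : ∃ t, chk3 f_A00pm_213_s3 t 58 252 1 = true := ex3_a k71_A00pm_213_s3 k72_A00pm_213_s3

theorem t524_A00pm_213_s3 : ∃ t, chk3 f_A00pm_213_s3 t 29 252 1 = true := ex3_a t523_A00pm_213_s3 t522_A00pm_213_s3

theorem t525_A00pm_213_s3 : ∃ t, chk3 f_A00pm_213_s3 t 29 126 1 = true := ex3_b t524_A00pm_213_s3 t515_A00pm_213_s3

theorem t526_A00pm_213_s3 : ∃ t, chk3 f_A00pm_213_s3 t 29 63 1 = true := ex3_b t525_A00pm_213_s3 t487_A00pm_213_s3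

theorem t527_A00pm_213_s3 : ∃ t, chk3 f_A00pm_213_s3 t 236 503 1 = true := ex3_b k67_A00pm_213_s3 k68_A00pm_213_s3

theorem t528_A00pm_213_s3 : ∃ t, chk3 f_A00pm_213_s3 t 118 503 1 = true := ex3_a t527_A00pm_213_s3 k69_A00pm_213_s3

theorem t529_A00pm_213_s3 : ∃ t, chk3 f_A00pm_213_s3 t 59 503 1 = true := ex3_a t528_A00pm_213_s3 k70_A00pm_213_s3

theorem t530_A00pm_213_s3 : ∃ t, chk3 f_A00pm_213_s3 t 59 251 1 = true := ex3_b k66_A00pm_213_s3 t529_A00pm_213_s3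

theorem t531_A00pm_213_s3 : ∃ t, chk3 f_A00pm_213_s3 t 59 125 1 = true := ex3_b k65_A00pm_213_s3 t530_A00pm_213_s3

theorem t532_A00pm_213_s3 : ∃ t, chk3 f_A00pm_213_s3 t 235 1006 1 = true := ex3_a k62_A00pm_213_s3 k63_A00pm_213_s3

theorem t533_A00pm_213_s3 : ∃ t, chk3 f_A00pm_213_s3 t 235 503 1 = true := ex3_b t532_A00pm_213_s3 k64_A00pm_213_s3

theorem t534_A00pm_213_s3 : ∃ t, chk3 f_A00pm_213_s3 t 117 503 1 = true := ex3_a k61_A00pm_213_s3 t533_A00pm_213_s3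

theorem t535_A00pm_213_s3 : ∃ t, chk3 f_A00pm_213_s3 t 58 503 1 = true := ex3_a k60_A00pm_213_s3 t534_A00pm_213_s3

theorem t536_A00pm_213_s3 : ∃ t, chk3 f_A00pm_213_s3 t 117 1005 1 = true := ex3_b k58_A00pm_213_s3 k59_A00pm_213_s3

theorem t537_A00pm_213_s3 : ∃ t, chk3 f_A00pm_213_s3 t 58 1005 1 = true := ex3_a k57_A00pm_213_s3 t536_A00pm_213_s3

theorem t538_A00pm_213_s3 : ∃ t, chk3 f_A00pm_213_s3 t 58 502 1 = true := ex3_b k56_A00pm_213_s3 t537_A00pm_213_s3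

theorem t539_A00pm_213_s3 : ∃ t, chk3 f_A00pm_213_s3 t 58 251 1 = true := ex3_b t538_A00pm_213_s3 t535_A00pm_213_s3

theorem t540_A00pm_213_s3 : ∃ t, chk3 f_A00pm_213_s3 t 58 125 1 = true := ex3_b k55_A00pm_213_s3 t539_A00pm_213_s3

theorem t541_A00pm_213_s3 : ∃ t, chk3 f_A00pm_213_s3 t 29 125 1 = true := ex3_a t540_A00pm_213_s3 t531_A00pm_213_s3

theorem t542_A00pm_213_s3 : ∃ t, chk3 f_A00pm_213_s3 t 29 62 1 = true := ex3_b k54_A00pm_213_s3 t541_A00pm_213_s3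

theorem t543_A00pm_213_s3 : ∃ t, chk3 f_A00pm_213_s3 t 29 31 1 = true := ex3_b t542_A00pm_213_s3 t526_A00pm_213_s3

theorem t544_A00pm_213_s3 : ∃ t, chk3 f_A00pm_213_s3 t 29 15 1 = true := ex3_b k53_A00pm_213_s3 t543_A00pm_213_s3

theorem t545_A00pm_213_s3 : ∃ t, chk3 f_A00pm_213_s3 t 115 252 1 = true := ex3_b k49_A00pm_213_s3 k50_A00pm_213_s3

theorem t546_A00pm_213_s3 : ∃ t, chk3 f_A00pm_213_s3 t 114 504 1 = true := ex3_a k46_A00pm_213_s3 k47_A00pm_213_s3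

theorem t547_A00pm_213_s3 : ∃ t, chk3 f_A00pm_213_s3 t 114 252 1 = true := ex3_b t546_A00pm_213_s3 k48_A00pm_213_s3

theorem t548_A00pm_213_s3 : ∃ t, chk3 f_A00pm_213_s3 t 57 252 1 = true := ex3_a t547_A00pm_213_s3 t545_A00pm_213_s3

theorem t549_A00pm_213_s3 : ∃ t, chk3 f_A00pm_213_s3 t 57 126 1 = true := ex3_b t548_A00pm_213_s3 k51_A00pm_213_s3

theorem t550_A00pm_213_s3 : ∃ t, chk3 f_A00pm_213_s3 t 28 126 1 = true := ex3_a k45_A00pm_213_s3 t549_A00pm_213_s3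

theorem t551_A00pm_213_s3 : ∃ t, chk3 f_A00pm_213_s3 t 28 63 1 = true := ex3_b t550_A00pm_213_s3 k52_A00pm_213_s3

theorem t552_A00pm_213_s3 : ∃ t, chk3 f_A00pm_213_s3 t 57 125 1 = true := ex3_b k43_A00pm_213_s3 k44_A00pm_213_s3

theorem t553_A00pm_213_s3 : ∃ t, chk3 f_A00pm_213_s3 t 227 503 1 = true := ex3_b k41_A00pm_213_s3 k42_A00pm_213_s3

theorem t554_A00pm_213_s3 : ∃ t, chk3 f_A00pm_213_s3 t 453 1007 1 = true := ex3_a k39_A00pm_213_s3 k40_A00pm_213_s3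

theorem t555_A00pm_213_s3 : ∃ t, chk3 f_A00pm_213_s3 t 226 1007 1 = true := ex3_a k38_A00pm_213_s3 t554_A00pm_213_s3

theorem t556_A00pm_213_s3 : ∃ t, chk3 f_A00pm_213_s3 t 226 503 1 = true := ex3_b k37_A00pm_213_s3 t555_A00pm_213_s3

theorem t557_A00pm_213_s3 : ∃ t, chk3 f_A00pm_213_s3 t 113 503 1 = true := ex3_a t556_A00pm_213_s3 t553_A00pm_213_s3

theorem t558_A00pm_213_s3 : ∃ t, chk3 f_A00pm_213_s3 t 113 251 1 = true := ex3_b k36_A00pm_213_s3 t557_A00pm_213_s3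

theorem t559_A00pm_213_s3 : ∃ t, chk3 f_A00pm_213_s3 t 112 502 1 = true := ex3_a k33_A00pm_213_s3 k34_A00pm_213_s3

theorem t560_A00pm_213_s3 : ∃ t, chk3 f_A00pm_213_s3 t 112 251 1 = true := ex3_b t559_A00pm_213_s3 k35_A00pm_213_s3

theorem t561_A00pm_213_s3 : ∃ t, chk3 f_A00pm_213_s3 t 56 251 1 = true := ex3_a t560_A00pm_213_s3 t558_A00pm_213_s3

theorem t562_A00pm_213_s3 : ∃ t, chk3 f_A00pm_213_s3 t 56 125 1 = true := ex3_b k32_A00pm_213_s3 t561_A00pm_213_s3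

theorem t563_A00pm_213_s3 : ∃ t, chk3 f_A00pm_213_s3 t 28 125 1 = true := ex3_a t562_A00pm_213_s3 t552_A00pm_213_s3

theorem t564_A00pm_213_s3 : ∃ t, chk3 f_A00pm_213_s3 t 28 62 1 = true := ex3_b k31_A00pm_213_s3 t563_A00pm_213_s3

theorem t565_A00pm_213_s3 : ∃ t, chk3 f_A00pm_213_s3 t 28 31 1 = true := ex3_b t564_A00pm_213_s3 t551_A00pm_213_s3

theorem t566_A00pm_213_s3 : ∃ t, chk3 f_A00pm_213_s3 t 28 15 1 = true := ex3_b k30_A00pm_213_s3 t565_A00pm_213_s3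

theorem t567_A00pm_213_s3 : ∃ t, chk3 f_A00pm_213_s3 t 14 15 1 = true := ex3_a t566_A00pm_213_s3 t544_A00pm_213_s3

theorem t568_A00pm_213_s3 : ∃ t, chk3 f_A00pm_213_s3 t 14 7 1 = true := ex3_b k29_A00pm_213_s3 t567_A00pm_213_s3

theorem t569_A00pm_213_s3 : ∃ t, chk3 f_A00pm_213_s3 t 7 7 1 = true := ex3_a t568_A00pm_213_s3 t407_A00pm_213_s3

theorem t570_A00pm_213_s3 : ∃ t, chk3 f_A00pm_213_s3 t 7 3 1 = true := ex3_b k28_A00pm_213_s3 t569_A00pm_213_s3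

theorem t571_A00pm_213_s3 : ∃ t, chk3 f_A00pm_213_s3 t 111 250 1 = true := ex3_b k24_A00pm_213_s3 k25_A00pm_213_s3

theorem t572_A00pm_213_s3 : ∃ t, chk3 f_A00pm_213_s3 t 110 500 1 = true := ex3_a k21_A00pm_213_s3 k22_A00pm_213_s3

theorem t573_A00pm_213_s3 : ∃ t, chk3 f_A00pm_213_s3 t 110 250 1 = true := ex3_b t572_A00pm_213_s3 k23_A00pm_213_s3

theorem t574_A00pm_213_s3 : ∃ t, chk3 f_A00pm_213_s3 t 55 250 1 = true := ex3_a t573_A00pm_213_s3 t571_A00pm_213_s3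

theorem t575_A00pm_213_s3 : ∃ t, chk3 f_A00pm_213_s3 t 55 125 1 = true := ex3_b t574_A00pm_213_s3 k26_A00pm_213_s3

theorem t576_A00pm_213_s3 : ∃ t, chk3 f_A00pm_213_s3 t 27 125 1 = true := ex3_a k20_A00pm_213_s3 t575_A00pm_213_s3

theorem t577_A00pm_213_s3 : ∃ t, chk3 f_A00pm_213_s3 t 110 249 1 = true := ex3_b k17_A00pm_213_s3 k18_A00pm_213_s3

theorem t578_A00pm_213_s3 : ∃ t, chk3 f_A00pm_213_s3 t 55 249 1 = true := ex3_a t577_A00pm_213_s3 k19_A00pm_213_s3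

theorem t579_A00pm_213_s3 : ∃ t, chk3 f_A00pm_213_s3 t 55 124 1 = true := ex3_b k16_A00pm_213_s3 t578_A00pm_213_s3

theorem t580_A00pm_213_s3 : ∃ t, chk3 f_A00pm_213_s3 t 54 249 1 = true := ex3_b k14_A00pm_213_s3 k15_A00pm_213_s3

theorem t581_A00pm_213_s3 : ∃ t, chk3 f_A00pm_213_s3 t 54 248 1 = true := ex3_a k12_A00pm_213_s3 k13_A00pm_213_s3

theorem t582_A00pm_213_s3 : ∃ t, chk3 f_A00pm_213_s3 t 54 124 1 = true := ex3_b t581_A00pm_213_s3 t580_A00pm_213_s3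

theorem t583_A00pm_213_s3 : ∃ t, chk3 f_A00pm_213_s3 t 27 124 1 = true := ex3_a t582_A00pm_213_s3 t579_A00pm_213_s3

theorem t584_A00pm_213_s3 : ∃ t, chk3 f_A00pm_213_s3 t 27 62 1 = true := ex3_b t583_A00pm_213_s3 t576_A00pm_213_s3

theorem t585_A00pm_213_s3 : ∃ t, chk3 f_A00pm_213_s3 t 27 31 1 = true := ex3_b t584_A00pm_213_s3 k27_A00pm_213_s3

theorem t586_A00pm_213_s3 : ∃ t, chk3 f_A00pm_213_s3 t 27 15 1 = true := ex3_b k11_A00pm_213_s3 t585_A00pm_213_s3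

theorem t587_A00pm_213_s3 : ∃ t, chk3 f_A00pm_213_s3 t 26 61 1 = true := ex3_b k8_A00pm_213_s3 k9_A00pm_213_s3

theorem t588_A00pm_213_s3 : ∃ t, chk3 f_A00pm_213_s3 t 26 30 1 = true := ex3_b k7_A00pm_213_s3 t587_A00pm_213_s3

theorem t589_A00pm_213_s3 : ∃ t, chk3 f_A00pm_213_s3 t 26 15 1 = true := ex3_b t588_A00pm_213_s3 k10_A00pm_213_s3

theorem t590_A00pm_213_s3 : ∃ t, chk3 f_A00pm_213_s3 t 13 15 1 = true := ex3_a t589_A00pm_213_s3 t586_A00pm_213_s3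

theorem t591_A00pm_213_s3 : ∃ t, chk3 f_A00pm_213_s3 t 13 7 1 = true := ex3_b k6_A00pm_213_s3 t590_A00pm_213_s3

theorem t592_A00pm_213_s3 : ∃ t, chk3 f_A00pm_213_s3 t 6 7 1 = true := ex3_a k5_A00pm_213_s3 t591_A00pm_213_s3

theorem t593_A00pm_213_s3 : ∃ t, chk3 f_A00pm_213_s3 t 6 3 1 = true := ex3_b k4_A00pm_213_s3 t592_A00pm_213_s3

theorem t594_A00pm_213_s3 : ∃ t, chk3 f_A00pm_213_s3 t 3 3 1 = true := ex3_a t593_A00pm_213_s3 t570_A00pm_213_s3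

theorem t595_A00pm_213_s3 : ∃ t, chk3 f_A00pm_213_s3 t 3 1 1 = true := ex3_b k3_A00pm_213_s3 t594_A00pm_213_s3

theorem t596_A00pm_213_s3 : ∃ t, chk3 f_A00pm_213_s3 t 2 3 1 = true := ex3_a k1_A00pm_213_s3 k2_A00pm_213_s3

theorem t597_A00pm_213_s3 : ∃ t, chk3 f_A00pm_213_s3 t 2 1 1 = true := ex3_b k0_A00pm_213_s3 t596_A00pm_213_s3

theorem t598_A00pm_213_s3 : ∃ t, chk3 f_A00pm_213_s3 t 1 1 1 = true := ex3_a t597_A00pm_213_s3 t595_A00pm_213_s3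

theorem c_A00pm_213_s3 : CertF 0 536870912 536870912 536870912 991146299 28908434 true true false .pnn 2 1 3
    ndB0q2 ndB0q1 pcB3 cut_A00pm_213_s3 xt_A00pm_213_s3 :=
  certF1 (fam := true) (s1 := true) (s2 := false) (a := 2) (b := 1) (c := 3) (cn := .pnn) (n1 := ndB0q2) (n2 := ndB0q1) (pc := pcB3) (cut := cut_A00pm_213_s3) (xt := xt_A00pm_213_s3) (P1 := 0) (W1 := 536870912) (P2 := 536870912) (W2 := 536870912) (P3 := 991146299) (W3 := 28908434)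
    rfl (fun _ => rfl) t598_A00pm_213_s3

theorem s_A00pm_213_s3 {κ x : ℝ} (hκ : κ * h0 = ken x) (hx : ((991146299 : ℕ) : ℝ) / S ≤ x)
    (hx' : x ≤ (((991146299 : ℕ) : ℝ) + (28908434 : ℕ)) / S)
    (H : CutA (VFD κ) PP tK tL pcB (Cut.of [[⟨0, 1, 0, 37748736⟩, ⟨1, 1, 0, 37748736⟩, ⟨2, 2, 0, 5242880⟩], [⟨0, 1, 0, 2097152⟩, ⟨1, 0, 1, 46137344⟩, ⟨2, 1, 1, 46137344⟩, ⟨1, 0, 0, 1027248803⟩, ⟨1, 1, 0, 87939455⟩, ⟨2, 1, 0, 1027248803⟩, ⟨2, 2, 0, 87939455⟩]]) 2 1 3 0 0 (sgb true) (sgb false) x) :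
    AltA (VFD κ) PP tK tL pcB [⟨4, 0, 0, 3194381926⟩] 2 1 3 0 0 (sgb true) (sgb false) x :=
  strip_altAD (m := 3194381926) false rfl hκ (SH.κ0 hκ (SH.hx1 hx).le (SH.hx2 hx').le) (SH.hx1 hx).le (SH.hx2 hx') (covB02).cov (covB01).cov hx hx' c_A00pm_213_s3 H ((okx hx hx').extA (T := tt) (sideB hx hx') hκ rfl rfl (.O 2 true) (.O 1 false) (Or.inr rfl))

end Pool.Agent.Strip051.G.I9231_9500.Tab.St.C
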