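import Pool.Agent.Strip051.G.I9231_9500.Tab
import Pool.Agent.Strip051.PB.StripB

/-! # Strips, near vertex: certificates 1 (generated) -/

set_option linter.all false
set_option maxRecDepth 100000

namespace Pool.Agent.Strip051.G.I9231_9500.Tab.CS.BA00

open Pool.Agent.Strip051.PB Pool.Agent.Strip051.PB.T
open Pool.Agent.Strip051.G.I9231_9500.Tab

noncomputable def cut_pp_022_t : Cut := Cut.of [[⟨3, 0, 0, 3113851289⟩], [⟨0, 0, 0, 26843545⟩, ⟨1, 1, 0, 26843545⟩, ⟨2, 1, 0, 26843545⟩]]

noncomputable def f_pp_022_t : ℕ → ℕ → ℕ → ℕ → Bool := onCell 1073741824 536870912 0 536870912 991146299 28908434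
    (rowNE 3 eng mog cd0q0 cd0q2 pd2 2 true true true .pp 0 2 2 (qsf 0 536870912 0 536870912 2) ndB0q0 ndB0q2 pcB2 cut_pp_022_t Ext.none)

def k0_pp_022_t : ∃ t, chk3 f_pp_022_t t 2 2 1 = true :=
  ⟨(l 6), by decide +kernel⟩

def k1_pp_022_t : ∃ t, chk3 f_pp_022_t t 4 6 1 = true :=
  ⟨(l 6), by decide +kernel⟩

def k2_pp_022_t : ∃ t, chk3 f_pp_022_t t 8 14 1 = true :=
  ⟨(a (l 1) (a (l 6) (b (l 6) (b (l 6) (b (l 6) (b (a (l 6) (a (l 6) (a (l 6) (c (c (l 16596776) (l 16582640)) (c (l 16568088) (l 16553136)))))) (a (a (l 6) (a (l 6) (c (c (l 16588480) (l 16573136)) (c (l 16557352) (l 16541120))))) (c (a (c (a (l 16595432) (l 16602288)) (a (l 16580792) (l 16588336))) (c (a (l 16609032) (l 16615672)) (a (l 16595752) (l 16603048)))) (a (c (a (l 16565736) (l 16573984)) (a (l 16550256) (l 16559232))) (c (a (l 16582088) (l 16590056)) (a (l 16568048) (l 16576704)))))))))))), by decide +kernel⟩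

def k3_pp_022_t : ∃ t, chk3 f_pp_022_t t 32 30 1 = true :=
  ⟨(l 1), by decide +kernel⟩

def k4_pp_022_t : ∃ t, chk3 f_pp_022_t t 66 30 1 = true :=
  ⟨(b (l 1) (b (l 1) (l 14))), by decide +kernel⟩

def k5_pp_022_t : ∃ t, chk3 f_pp_022_t t 134 60 1 = true :=
  ⟨(l 1), by decide +kernel⟩

def k6_pp_022_t : ∃ t, chk3 f_pp_022_t t 268 61 1 = true :=
  ⟨(b (a (l 1) (b (l 1) (b (l 1) (c (c (b (l 16608696) (a (l 16613312) (l 16615184))) (a (l 16590456) (b (l 16594736) (l 16600800)))) (b (c (l 16570416) (l 16551960)) (c (a (l 16583752) (l 16586016)) (a (l 16568360) (l 16570824)))))))) (a (l 14) (a (l 14) (c (b (c (c (l 16629752) (l 16623296)) (c (l 16619376) (l 16612736))) (c (c (l 16655840) (l 16651056)) (b (l 16629328) (l 16644416)))) (b (c (b (l 16595952) (l 16604040)) (b (l 16581576) (l 16590760))) (c (b (l 16620088) (l 16636240)) (b (l 16610528) (l 16625152)))))))), by decide +kernel⟩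

def k7_pp_022_t : ∃ t, chk3 f_pp_022_t t 269 61 1 = true :=
  ⟨(a (b (b (l 1) (b (a (l 1) (b (l 1) (c (c (l 16607872) (l 16592840)) (c (l 16577392) (l 16561520))))) (c (a (b (c (l 16611512) (l 16596808)) (l 16610008)) (c (l 16616152) (l 16601888))) (b (a (c (l 16581688) (l 16566152)) (l 16577560)) (c (l 16589392) (l 16574496)))))) (c (b (c (b (l 16621080) (l 16634912)) (b (l 16610376) (b (l 16616920) (l 16623056)))) (c (b (b (l 16640752) (l 16646424)) (a (l 16654088) (l 16655872))) (b (a (l 16631320) (l 16633304)) (a (l 16646384) (l 16648336))))) (b (c (b (l 16597984) (b (l 16604008) (l 16610672))) (b (l 16585216) (l 16600896))) (c (b (a (l 16622264) (l 16624424)) (a (l 16638384) (l 16640520))) (b (a (l 16612888) (l 16615240)) (c (l 16631368) (l 16625888))))))) (b (b (b (l 1) (b (l 1) (c (c (l 16589216) (l 16576080)) (c (l 16559880) (l 16543232))))) (c (c (b (b (l 16597976) (l 16610680)) (l 16613696)) (b (b (a (l 16588904) (l 16590976)) (l 16595936)) (l 16602336))) (c (b (b (a (l 16573120) (l 16575392)) (l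 16572920)) (l 16587960)) (b (b (a (l 16556912) (l 16559384)) (l 16554728)) (l 16575824))))) (c (b (b (c (l 16624760) (l 16614424)) (c (l 16638544) (l 16627912))) (c (b (b (l 16644360) (l 16650008)) (a (l 16657648) (l 16659416))) (b (a (l 16635280) (l 16637240)) (a (l 16650288) (l 16652224))))) (b (c (b (l 16602408) (l 16617280)) (b (l 16590032) (l 16605648))) (c (b (a (l 16626584) (l 16626104)) (a (l 16642648) (l 16644768))) (b (a (l 16617584) (l 16619912)) (c (l 16635896) (l 16630600)))))))), by decide +kernel⟩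

def k8_pp_022_t : ∃ t, chk3 f_pp_022_t t 135 60 1 = true :=
  ⟨(b (l 1) (b (l 1) (a (l 1) (b (a (l 1) (b (a (l 1) (c (l 16563936) (l 16533008))) (c (a (l 16567552) (l 16572168)) (c (l 16539592) (l 16521424))))) (c (a (c (b (l 16583912) (l 16578816)) (b (l 16566816) (l 16563528))) (c (l 16579896) (l 16568688))) (a (c (b (l 16549232) (l 16548104)) (b (l 16531176) (l 16531552))) (c (l 16551768) (l 16534384)))))))), by decide +kernel⟩

def k9_pp_022_t : ∃ t, chk3 f_pp_022_t t 135 122 1 = true :=
  ⟨(c (b (a (c (b (a (l 16579360) (b (l 16580440) (l 16585864))) (a (b (l 16590152) (l 16592984)) (l 16604488))) (b (a (l 16567968) (b (l 16566568) (l 16572488))) (a (b (a (l 16581096) (l 16583176)) (l 16580232)) (l 16584008)))) (c (c (c (l 16605000) (l 16603912)) (a (l 16593768) (l 16602816))) (c (b (l 16577080) (l 16588616)) (b (l 16569144) (l 16581176))))) (a (c (c (b (l 16606584) (l 16622520)) (b (l 16604712) (l 16615904))) (c (b (l 16597496) (l 16609192)) (b (l 16590184) (l 16602384)))) (c (c (a (l 16625152) (l 16631320))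 (b (l 16607016) (l 16623360))) (c (b (l 16605424) (l 16617016)) (b (l 16598480) (l 16610584)))))) (c (b (a (b (a (l 16550864) (b (l 16550264) (l 16556704))) (a (b (a (l 16564672) (l 16566952)) (l 16564432)) (l 16568344))) (c (b (l 16566336) (l 16578880)) (b (l 16558176) (l 16571232)))) (a (a (b (l 16576784) (l 16592416)) (b (l 16581256) (l 16596824))) (c (b (l 16591448) (l 16604056)) (b (l 16584320) (l 16597440))))) (b (a (b (a (l 16549024) (b (l 16533504) (l 16540472))) (a (b (a (l 16547800) (l 16550288)) (l 16550816)) (l 16552240))) (c (b (l 16544656) (l 16558240)) (b (l 16536280) (l 16550392)))) (a (a (b (l 16561344) (l 16580664)) (b (l 16566216) (l 16585464))) (c (b (l 16577096) (l 16590744)) (b (l 16569776) (l 16589192))))))), by decide +kernel⟩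

def k10_pp_022_t : ∃ t, chk3 f_pp_022_t t 135 123 1 = true :=
  ⟨(c (b (c (a (c (b (l 16633280) (l 16646752)) (b (l 16629776) (l 16641128))) (c (b (l 16640296) (l 16651072)) (b (l 16634528) (l 16648416)))) (a (c (b (l 16623568) (l 16636736)) (b (l 16617272) (l 16630952))) (c (b (l 16631304) (l 16643064)) (b (l 16625368) (l 16638944))))) (b (c (a (a (l 16655992) (l 16659536)) (a (l 16663048) (l 16666536))) (a (a (b (l 16637112) (l 16643248)) (b (l 16641008) (l 16647128))) (a (l 16653816) (l 16656992)))) (c (a (a (b (l 16659224) (l 16664896)) (b (l 16662736) (l 16668392))) (a (l 16675584) (l 16679032))) (a (a (a (l 16656784) (l 16658712)) (a (l 16660624) (l 16662536))) (a (a (l 16664440) (l 16666336)) (a (l 16668224) (l 16670104))))))) (c (b (a (a (b (l 16606800) (l 16621280)) (b (l 16612464) (l 16625584))) (c (b (l 16619352) (l 16634744)) (b (l 16615880) (l 16629168)))) (a (b (a (a (l 16628248) (l 16635616)) (l 16640432)) (a (a (l 16646872) (l 16648976)) (a (l 16651064) (l 16653152)))) (b (a (l 16644312) (l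 16648488)) (a (a (l 16655224) (l 16657288)) (c (l 16662592) (l 16658136)))))) (b (a (b (a (l 16594808) (l 16599544)) (a (l 16610360) (l 16615032))) (c (b (l 16609696) (l 16623512)) (b (l 16603432) (l 16617776)))) (a (b (a (a (l 16622232) (l 16624544)) (c (l 16630720) (l 16625248))) (a (c (l 16640384) (l 16635272)) (c (l 16644832) (l 16639896)))) (b (a (c (l 16635200) (l 16629912)) (l 16640040)) (a (c (l 16649240) (l 16644488)) (c (l 16653616) (l 16649032)))))))), by decide +kernel⟩

def k11_pp_022_t : ∃ t, chk3 f_pp_022_t t 32 31 1 = true :=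
  ⟨(l 14), by decide +kernel⟩

def k12_pp_022_t : ∃ t, chk3 f_pp_022_t t 66 62 1 = true :=
  ⟨(l 14), by decide +kernel⟩

def k13_pp_022_t : ∃ t, chk3 f_pp_022_t t 268 124 1 = true :=
  ⟨(a (l 14) (a (l 14) (c (b (b (c (l 16666440) (l 16659600)) (c (l 16680672) (l 16673568))) (b (c (l 16693696) (c (l 16686872) (l 16683136))) (c (c (l 16705752) (l 16702632)) (c (l 16699464) (l 16696256))))) (b (c (b (l 16649872) (l 16664912)) (b (l 16641192) (l 16657328))) (b (c (c (l 16679344) (l 16675504)) (c (l 16671608) (l 16667664))) (c (c (l 16693000) (l 16689704)) (c (l 16686368) (l 16682976)))))))), by decide +kernel⟩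

def k14_pp_022_t : ∃ t, chk3 f_pp_022_t t 269 124 1 = true :=
  ⟨(c (b (c (b (a (a (l 16670824) (l 16672592)) (a (l 16674344) (l 16676096))) (a (c (l 16682680) (l 16678648)) (c (l 16686072) (l 16684824)))) (b (a (c (l 16662208) (l 16657536)) (c (l 16665968) (l 16661472))) (a (c (l 16677184) (l 16673048)) (c (l 16680904) (l 16676928))))) (c (b (a (c (l 16696728) (l 16693208)) (c (l 16700072) (l 16696720))) (a (c (l 16709560) (a (l 16704376) (l 16706112))) (c (l 16712872) (a (l 16707848) (l 16709568))))) (b (a (c (l 16689648) (l 16686032)) (c (l 16693312) (l 16689856))) (a (c (a (l 16701288) (l 16703104)) (a (l 16698160) (l 16700056))) (c (a (l 16704920) (l 16706720)) (a (l 16701944) (l 16703832))))))) (b (c (b (a (c (l 16652808) (l 16650632)) (c (l 16659536) (l 16654912))) (a (c (l 16668848) (l 16664592)) (c (l 16672896) (l 16668808)))) (b (a (c (l 16645776) (l 16640848)) (c (l 16650232) (l 16645488))) (a (c (l 16660272) (l 16655904)) (c (l 16664672) (l 16660480))))) (c (b (a (c (l 16683672) (l 16680616))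 (c (l 16687672) (l 16684776))) (a (c (a (l 16694992) (l 16696968)) (a (l 16691776) (l 16693832))) (c (a (l 16698936) (l 16700896)) (a (l 16695888) (l 16697928))))) (b (a (c (l 16677504) (l 16673688)) (c (l 16681832) (l 16678192))) (a (c (a (l 16688520) (l 16690664)) (b (l 16682504) (l 16690160))) (c (b (l 16690184) (l 16697536)) (b (l 16686960) (l 16694584)))))))), by decide +kernel⟩

def k15_pp_022_t : ∃ t, chk3 f_pp_022_t t 135 124 2 = true :=
  ⟨(b (c (a (b (a (a (l 16677840) (l 16679576)) (a (l 16681304) (l 16683024))) (a (c (l 16692056) (l 16688344)) (c (l 16695392) (l 16691848)))) (b (a (a (l 16684744) (l 16686456)) (c (l 16690864) (l 16687136))) (a (c (l 16698704) (l 16695312)) (c (l 16701992) (l 16698760))))) (a (b (a (c (l 16667080) (l 16665376)) (c (l 16676032) (l 16671872))) (a (c (l 16684592) (l 16680776)) (c (l 16688248) (l 16684600)))) (b (a (c (l 16679704) (l 16675712)) (c (l 16683352) (l 16679520))) (a (c (l 16691872) (l 16688384)) (c (l 16695472) (l 16692144)))))) (a (c (b (a (c (l 16703400)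 (l 16700200)) (c (l 16706696) (l 16703648))) (a (c (l 16716152) (a (l 16711288) (l 16713000))) (c (l 16720072) (a (l 16714704) (l 16716400))))) (b (a (c (l 16696952) (l 16693656)) (c (l 16700560) (l 16697424))) (a (c (a (l 16708512) (l 16710304)) (a (l 16705704) (l 16707568))) (c (a (l 16712088) (l 16713856)) (a (l 16709424) (l 16711280)))))) (c (b (a (c (l 16709976) (l 16707080)) (c (l 16713224) (l 16710480))) (a (c (l 16723304) (a (l 16718096) (l 16719776))) (c (a (l 16723744) (l 16725344)) (b (l 16719328) (l 16725264))))) (b (a (c (l 16704144) (l 16701160)) (c (l 16707688) (l 16704864))) (a (c (a (l 16715624) (l 16717384)) (b (l 16710808) (l 16717272))) (c (b (l 16716920) (l 16723104)) (b (l 16714472) (l 16720912)))))))), by decide +kernel⟩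

def k16_pp_022_t : ∃ t, chk3 f_pp_022_t t 135 124 3 = true :=
  ⟨(b (c (a (b (a (c (l 16663608) (l 16659160)) (c (l 16667648) (l 16663376))) (a (c (l 16676912) (l 16673000)) (c (l 16680896) (l 16677152)))) (b (a (c (l 16671656) (l 16667552)) (c (l 16675632) (l 16671688))) (a (c (l 16684848) (l 16681264)) (c (l 16688768) (l 16685344))))) (c (b (a (a (l 16654656) (l 16659040)) (a (l 16663384) (l 16667696))) (a (a (l 16669032) (l 16673352)) (a (l 16677632) (l 16681880)))) (b (a (a (l 16650088) (l 16654648)) (a (l 16659168) (l 16663648))) (a (a (l 16665008) (l 16669504)) (a (l 16673952) (l 16678360)))))) (c (a (b (a (c (l 16692944) (l 16688904)) (c (l 16696872) (l 16692992))) (a (c (a (l 16702848) (l 16704800)) (b (l 16697456) (l 16704496))) (c (b (l 16704328) (l 16711072)) (b (l 16701504) (l 16708512))))) (b (a (c (l 16700768) (l 16697048)) (c (l 16704624) (l 16701072))) (a (c (b (l 16708176) (l 16714896)) (b (l 16705512) (l 16712496))) (c (b (l 16712000) (l 16718688)) (b (l 16709488) (l 16716440)))))) (a (b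 (a (c (l 16686128) (l 16682656)) (c (l 16690384) (l 16687080))) (a (c (b (l 16694432) (l 16701744)) (b (l 16691368) (l 16698960))) (c (b (l 16698640) (l 16705920)) (b (l 16695736) (l 16703296))))) (b (a (c (l 16694600) (l 16691464)) (c (l 16698784) (l 16695800))) (a (c (b (l 16702808) (l 16710064)) (b (l 16700072) (l 16707592))) (c (b (l 16706944) (l 16714160)) (b (l 16704360) (l 16711848)))))))), by decide +kernel⟩

def k17_pp_022_t : ∃ t, chk3 f_pp_022_t t 268 125 1 = true :=
  ⟨(a (l 14) (a (l 14) (b (c (b (c (c (l 16717400) (l 16714800)) (c (l 16712152) (l 16709480))) (c (b (l 16725096) (l 16731120)) (b (l 16720600) (l 16728464)))) (c (b (c (l 16709384) (l 16705320)) (b (l 16717296) (c (l 16724104) (l 16722040)))) (b (c (l 16703848) (l 16701024)) (b (l 16711240) (l 16720200))))) (c (b (b (c (l 16738160) (a (l 16733280) (l 16734184))) (c (c (l 16743968) (l 16742528)) (c (l 16741072) (l 16739592)))) (c (b (c (l 16749936) (l 16748760)) (b (l 16754600) (a (l 16756608) (l 16757416)))) (b (c (l 16747568) (l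 16746360)) (c (l 16755072) (l 16754128))))) (b (b (c (c (l 16731088) (l 16729296)) (c (l 16727480) (l 16725640))) (c (c (l 16738096) (l 16736576)) (c (l 16735040) (l 16733480)))) (c (b (c (l 16745128) (l 16743888)) (c (b (l 16750424) (l 16753960)) (b (l 16749384) (l 16753056)))) (b (c (l 16742624) (l 16742656)) (b (c (l 16748336) (l 16747264)) (c (l 16752144) (l 16751224)))))))))), by decide +kernel⟩

def k18_pp_022_t : ∃ t, chk3 f_pp_022_t t 269 250 1 = true :=
  ⟨(c (b (c (a (c (a (l 16719048) (l 16720688)) (c (l 16718008) (l 16719376))) (c (a (l 16722320) (l 16723952)) (c (l 16724008) (l 16722832)))) (a (c (b (l 16709056) (l 16718032)) (b (l 16708984) (l 16715608))) (c (b (l 16715264) (l 16721592)) (b (l 16712728) (l 16719320))))) (c (b (a (c (l 16728648) (l 16726544)) (c (l 16731888) (l 16729928))) (a (c (l 16734528) (l 16732680)) (c (l 16737752) (l 16736048)))) (b (a (c (l 16724408) (l 16722248)) (c (l 16727944) (l 16725936))) (a (c (l 16730808) (l 16728912)) (c (l 16734320) (l 16732576)))))) (b (c (a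 (c (b (l 16706256) (l 16713144)) (b (l 16703488) (l 16710648))) (c (b (l 16710152) (l 16717008)) (b (l 16707552) (l 16714672)))) (a (c (b (l 16700688) (l 16708120)) (b (l 16697848) (l 16705560))) (c (b (l 16704904) (l 16712304)) (b (l 16702232) (l 16709904))))) (c (b (a (c (l 16720056) (l 16717832)) (c (l 16723896) (l 16721824))) (a (c (l 16728296) (l 16726352)) (c (a (l 16729848) (l 16731752)) (l 16730312)))) (b (a (c (l 16715576) (l 16713296)) (c (l 16719728) (l 16717608))) (a (c (l 16724368) (l 16722368)) (c (l 16728496) (a (l 16724272) (l 16726400)))))))), by decide +kernel⟩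

def k19_pp_022_t : ∃ t, chk3 f_pp_022_t t 538 251 1 = true :=
  ⟨(c (b (c (b (c (l 16741744) (l 16740160)) (c (a (l 16745568) (l 16747168)) (a (l 16744200) (l 16745872)))) (b (c (l 16738224) (a (l 16734688) (l 16736520))) (c (a (l 16742816) (l 16744560)) (a (l 16741416) (l 16743224))))) (a (c (b (c (l 16751528) (l 16750424)) (b (l 16756216) (c (l 16759016) (l 16758232)))) (b (c (l 16749304) (l 16748168)) (b (l 16755024) (a (l 16756600) (l 16757480))))) (c (b (c (l 16753120) (l 16752080)) (b (l 16757832) (c (l 16760592) (l 16759880)))) (b (c (l 16751032) (l 16749960)) (b (l 16756120) (c (l 16759152) (l 16758416))))))) (b (c (b (c (a (l 16733000) (l 16734896)) (a (l 16731280) (l 16733256))) (c (a (l 16739992) (l 16741880)) (a (l 16738552) (l 16740512)))) (b (c (a (l 16729544) (l 16731600)) (a (l 16727784) (l 16729912))) (c (a (l 16737088) (l 16739128)) (a (l 16735608) (l 16737720))))) (b (c (c (a (l 16747008) (l 16748880)) (a (l 16745840) (l 16747792))) (c (a (l 16745968) (l 16747992)) (a (l 16744768) (b (l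 16743592) (l 16747520))))) (c (a (c (b (l 16752296) (l 16755824)) (b (l 16751328) (l 16754992))) (b (c (l 16754152) (l 16753264)) (c (l 16757680) (l 16756920)))) (a (b (c (l 16750352) (l 16749360)) (c (l 16754160) (l 16753304))) (a (b (l 16751392) (l 16755264)) (b (l 16752416) (l 16756280)))))))), by decide +kernel⟩

def k20_pp_022_t : ∃ t, chk3 f_pp_022_t t 539 251 1 = true :=
  ⟨(a (c (b (b (c (a (l 16741696) (l 16742512)) (a (l 16738656) (l 16739544))) (c (a (l 16747736) (l 16748552)) (a (l 16745224) (l 16746104)))) (c (b (c (l 16754696) (l 16753728)) (b (c (l 16759168) (l 16758392)) (c (l 16762160) (l 16761512)))) (b (c (l 16752752) (l 16751752)) (b (l 16757872) (c (l 16760856) (l 16760192)))))) (b (c (b (c (l 16736792) (l 16735224)) (c (l 16743760) (l 16742464))) (b (c (l 16733640) (l 16732032)) (c (l 16741152) (l 16739824)))) (c (b (c (l 16751400) (l 16751040)) (c (b (l 16756008) (l 16759520)) (b (l 16755192) (l 16758840)))) (b (b (l 16746248) (a (l 16749584) (l 16750600))) (c (b (l 16754360) (l 16758152))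 (b (l 16753520) (l 16757448))))))) (c (b (b (c (c (l 16744432) (l 16743024)) (c (l 16741592) (l 16740144))) (c (c (l 16750336) (l 16749184)) (c (l 16748016) (l 16746832)))) (c (b (c (l 16757584) (l 16756680)) (b (c (l 16760736) (l 16760032)) (c (l 16763720) (l 16763144)))) (b (c (l 16755776) (l 16753536)) (c (b (l 16759312) (l 16762560)) (b (l 16758592) (l 16761960)))))) (b (c (b (c (l 16738672) (l 16737184)) (c (l 16745624) (l 16744408))) (b (c (l 16735680) (l 16734144)) (c (l 16743176) (l 16741920)))) (c (b (c (l 16753584) (l 16752640)) (a (b (l 16757016) (l 16760592)) (b (l 16757952) (l 16761528)))) (b (b (l 16748944) (c (l 16752576) (l 16751672))) (b (c (l 16756352) (l 16755584)) (c (l 16760136) (l 16759504)))))))), by decide +kernel⟩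

def k21_pp_022_t : ∃ t, chk3 f_pp_022_t t 135 250 2 = true :=
  ⟨(a (b (c (a (c (b (l 16723488) (l 16729280)) (b (l 16721168) (l 16727216))) (c (b (l 16726720) (l 16732488)) (b (l 16724544) (l 16730568)))) (a (c (b (l 16718816) (l 16725120)) (b (l 16716432) (l 16723000))) (c (b (l 16722344) (l 16728624)) (b (l 16720112) (l 16726648))))) (c (b (a (c (l 16735104) (l 16733288)) (c (l 16738288) (l 16736624))) (a (c (l 16740944) (l 16739384)) (c (l 16745424) (l 16744008)))) (c (b (a (l 16731448) (l 16734928)) (a (l 16737808) (l 16742568))) (b (a (l 16729592) (l 16733216)) (a (l 16737512) (l 16741112)))))) (c (b (b (a (c (l 16729920) (l 16727896)) (c (l 16733104) (l 16731216))) (a (c (l 16735672) (l 16733896)) (c (l 16738832) (l 16737200)))) (a (b (c (l 16741456) (l 16739928)) (c (l 16748568) (l 16747288))) (b (c (l 16744592) (l 16743208)) (c (a (l 16749600) (l 16751152)) (a (l 16748424) (l 16750048)))))) (b (b (a (c (l 16725840) (l 16723760)) (c (l 16729312) (l 16727376))) (a (c (l 16732096) (l 16730272)) (c (l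 16735544) (l 16733856)))) (a (b (c (l 16738376) (l 16736808)) (c (l 16745992) (l 16744680))) (b (c (l 16741800) (l 16740368)) (c (a (l 16747232) (l 16748928)) (a (l 16746024) (l 16747784)))))))), by decide +kernel⟩

def k22_pp_022_t : ∃ t, chk3 f_pp_022_t t 135 250 3 = true :=
  ⟨(a (b (c (a (c (b (l 16714016) (l 16720848)) (b (l 16711568) (l 16718664))) (c (b (l 16717848) (l 16724648)) (b (l 16715552) (l 16722624)))) (b (a (c (l 16709088) (l 16706576)) (c (l 16713232) (l 16710872))) (a (c (l 16716456) (l 16714216)) (c (l 16720568) (l 16718480))))) (c (c (b (a (l 16727704) (l 16731472)) (a (a (l 16733640) (l 16735520)) (a (l 16737392) (l 16739256)))) (b (a (l 16725784) (l 16729712)) (a (l 16734248) (a (l 16735856) (l 16737800))))) (a (b (c (l 16723848) (l 16721880)) (c (a (l 16730248) (l 16732280)) (a (l 16728520) (l 16730632)))) (b (c (l 16727928) (l 16727424)) (c (a (l 16734304) (l 16736320)) (a (l 16732728) (l 16734824))))))) (c (b (b (a (c (l 16721648) (l 16719504)) (c (l 16725408) (l 16723424))) (a (c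 (l 16728416) (l 16726544)) (c (l 16732152) (l 16730424)))) (a (b (c (l 16735216) (l 16733600)) (c (a (l 16741112) (l 16742960)) (a (l 16739728) (l 16741648)))) (b (c (l 16740232) (l 16737456)) (c (a (l 16744800) (l 16746632)) (a (l 16743560) (l 16745464)))))) (b (b (a (c (l 16717336) (l 16715136)) (c (l 16721408) (l 16719360))) (a (c (l 16724640) (l 16722712)) (c (l 16728672) (l 16726904)))) (a (b (c (l 16733280) (l 16731624)) (c (a (l 16738328) (l 16740320)) (a (l 16736904) (l 16738968)))) (b (c (l 16737280) (a (l 16733432) (l 16735496))) (c (a (l 16742304) (l 16744280)) (a (l 16741032) (l 16743080)))))))), by decide +kernel⟩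

def k23_pp_022_t : ∃ t, chk3 f_pp_022_t t 135 502 2 = true :=
  ⟨(a (c (a (b (c (a (l 16746016) (l 16747600)) (a (l 16744680) (l 16746328))) (c (a (l 16751912) (l 16753488)) (a (l 16750832) (l 16752472)))) (b (c (a (l 16749176) (l 16750744)) (a (l 16747976) (l 16749616))) (c (a (l 16755048) (l 16756608)) (a (l 16754104) (l 16755736))))) (a (b (c (a (l 16743320) (l 16745048)) (a (l 16741944) (l 16743744))) (c (a (l 16749736) (l 16751440)) (a (l 16748616) (l 16750400)))) (b (c (a (l 16746760) (l 16748464)) (a (l 16745528) (l 16747304))) (c (a (l 16753144) (l 16754840)) (a (l 16752176) (l 16753936)))))) (c (a (a (b (c (l 16752304) (l 16751248)) (c (l 16759472) (l 16757352))) (b (c (l 16753864) (l 16752872)) (c (l 16760360) (l 16760280)))) (a (b (c (l 16755408) (l 16754488)) (b (l 16759416) (l 16763064))) (b (c (l 16756952) (l 16756096)) (b (l 16760984) (c (l 16764240) (l 16763696)))))) (b (a (c (a (l 16750168) (l 16751864)) (a (l 16749080) (l 16750840))) (c (a (l 16753544) (l 16755224)) (a (l 16752592) (l 16754344))))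 (b (c (a (l 16755784) (l 16759792)) (a (l 16754920) (l 16758408))) (a (a (l 16757744) (l 16759456)) (a (l 16761160) (c (l 16763136) (l 16762576)))))))), by decide +kernel⟩

def k24_pp_022_t : ∃ t, chk3 f_pp_022_t t 270 503 2 = true :=
  ⟨(b (b (c (a (c (l 16757792) (l 16756936)) (a (l 16760408) (l 16761336))) (a (c (l 16756064) (l 16754528)) (a (l 16757568) (l 16760600)))) (c (a (a (l 16759592) (c (l 16760880) (l 16760184))) (a (c (l 16762432) (l 16761800)) (c (l 16763976) (l 16763416)))) (a (a (l 16758696) (l 16759776)) (a (c (l 16761160) (l 16760512)) (c (l 16762848) (l 16762264)))))) (a (a (a (c (b (l 16761576) (l 16764624)) (b (l 16760248) (l 16763552))) (c (b (l 16762376) (l 16765416)) (b (l 16761112) (l 16764416)))) (b (c (c (l 16763848) (l 16763280)) (c (l 16762696) (l 16762112))) (c (c (l 16766824) (l 16766376)) (c (l 16765928) (l 16765472))))) (a (b (c (c (l 16765392) (l 16764896)) (c (l 16764384) (l 16763864))) (c (c (l 16768368) (l 16767984)) (c (l 16767608) (l 16767216)))) (b (c (c (l 16766936)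 (l 16766496)) (c (l 16766056) (l 16765608))) (a (c (l 16766736) (l 16768688)) (c (l 16767512) (l 16769544))))))), by decide +kernel⟩

def k25_pp_022_t : ∃ t, chk3 f_pp_022_t t 271 503 2 = true :=
  ⟨(b (b (c (a (a (c (l 16762568) (l 16761952)) (c (l 16764112) (l 16763552))) (a (a (l 16765008) (l 16765792)) (a (l 16766568) (l 16767344)))) (a (a (l 16761656) (c (l 16762992) (l 16762416))) (c (a (l 16764656) (l 16766312)) (a (l 16764152) (l 16765880))))) (a (a (c (c (l 16765520) (l 16765024)) (c (l 16764520) (l 16764008))) (c (c (l 16767048) (l 16766624)) (c (l 16766184) (l 16765744)))) (a (c (c (l 16768576) (l 16768216)) (c (l 16767840) (l 16767464))) (c (c (l 16767480) (l 16769800)) (c (l 16769496) (l 16769184)))))) (a (b (a (c (c (l 16768472) (l 16768104)) (c (l 16767720) (l 16767344))) (c (c (l 16767376) (l 16769696)) (c (l 16769384) (l 16769072)))) (a (c (c (l 16768808) (l 16768560)) (c (l 16768312) (l 16768064))) (c (c (l 16770336) (l 16770152)) (c (l 16769968) (l 16769784))))) (c (a (a (b (l 16768392)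 (l 16771408)) (b (l 16769168) (l 16772176))) (a (b (l 16769944) (b (l 16772200) (l 70564965751))) (b (l 16770712) (b (l 16772968) (b (l 16775392) (a (l 16777128) (l 140358189863))))))) (a (b (c (l 16768416) (l 16765544)) (c (l 16771616) (l 16771496))) (b (c (l 16770064) (l 16769880)) (a (b (l 16769376) (l 16774928)) (b (l 16770208) (b (l 16774032) (a (l 16777120) (l 142505673511)))))))))), by decide +kernel⟩

def k26_pp_022_t : ∃ t, chk3 f_pp_022_t t 135 502 3 = true :=
  ⟨(a (c (c (a (b (a (l 16740552) (l 16742416)) (a (l 16747488) (l 16749344))) (b (a (l 16744280) (l 16746128)) (a (l 16751184) (l 16753024)))) (b (a (a (l 16739136) (l 16741080)) (a (l 16743008) (l 16744936))) (a (a (l 16746344) (l 16748272)) (b (l 16749344) (l 16753592))))) (a (b (c (a (l 16737704) (l 16739720)) (a (l 16736248) (l 16738344))) (c (a (l 16745184) (l 16747184)) (a (l 16744008) (l 16746080)))) (a (b (c (l 16741728) (l 16740424)) (c (l 16749176) (l 16749456))) (b (c (l 16743728) (l 16742496)) (b (l 16748784) (c (l 16753016) (l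 16752136))))))) (a (a (b (c (a (l 16746944) (l 16747880)) (c (l 16745712) (l 16744560))) (c (c (l 16755504) (l 16754648)) (b (l 16750800) (c (l 16754984) (l 16754176))))) (c (b (c (l 16749808) (l 16748752)) (b (l 16754528) (c (l 16758392) (l 16757672)))) (b (c (l 16747696) (l 16746616)) (b (l 16752800) (c (l 16756944) (l 16756208)))))) (a (c (b (a (l 16750680) (l 16752264)) (b (l 16756376) (a (l 16759416) (l 16760336)))) (b (c (l 16749664) (l 16748656)) (b (l 16755456) (a (l 16758064) (l 16759056))))) (c (b (c (l 16753448) (l 16752544)) (b (l 16758712) (a (l 16761256) (l 16762168)))) (b (c (l 16751624) (l 16750688)) (c (b (l 16757144) (l 16760832)) (c (l 16753248) (l 16752920)))))))), by decide +kernel⟩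

def k27_pp_022_t : ∃ t, chk3 f_pp_022_t t 270 503 3 = true :=
  ⟨(c (b (b (a (a (l 16752896) (a (l 16753648) (l 16754584))) (a (c (l 16756384) (l 16755584)) (c (l 16758208) (l 16757480)))) (a (a (c (l 16756192) (l 16755384)) (c (l 16758032) (l 16757296))) (c (a (l 16759856) (l 16761680)) (a (l 16759192) (l 16761080))))) (b (a (c (a (l 16759688) (l 16761520)) (a (l 16759016) (l 16760920))) (c (c (l 16761752) (l 16758880)) (c (l 16758632) (l 16759696)))) (c (a (a (l 16763192) (l 16765016)) (c (l 16763888) (l 16763704))) (a (a (l 16762656) (l 16764544)) (a (l 16766432) (l 16763064)))))) (c (b (b (a (a (l 16750808) (l 16752800)) (a (l 16754776) (l 16756744))) (a (a (l 16754568) (l 16756552)) (a (l 16758520) (l 16760480)))) (a (a (b (l 16758336) (l 16762104)) (b (l 16760304) (l 16764072))) (a (b (l 16762272) (l 16760784)) (b (l 16764224) (l 16765352))))) (b (b (a (a (l 16749840) (l 16751904)) (a (l 16753952) (l 16756000))) (a (a (l 16753736) (l 16755792)) (a (l 16757832) (l 16759872)))) (a (a (b (l 16757640) (l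 16761552)) (b (l 16759688) (l 16763592))) (a (b (l 16761720) (l 16762992)) (b (l 16763752) (l 16765016))))))), by decide +kernel⟩

def k28_pp_022_t : ∃ t, chk3 f_pp_022_t t 271 503 3 = true :=
  ⟨(b (b (c (a (c (a (l 16760032) (l 16761840)) (a (l 16759376) (l 16761256))) (c (a (l 16763640) (l 16765432)) (a (l 16763120) (l 16764984)))) (a (c (a (l 16758704) (l 16760656)) (a (l 16758032) (l 16760056))) (a (c (l 16762600) (l 16762064)) (c (l 16764528) (l 16764072))))) (a (c (c (a (l 16763488) (l 16765296)) (c (l 16758784) (l 16758536))) (a (c (l 16762432) (l 16761896)) (c (l 16764376) (l 16763912)))) (a (c (c (l 16767088) (l 16766704)) (b (l 16762544) (l 16764440))) (c (b (l 16765216) (l 16766968)) (c (l 16762992) (l 16762664)))))) (a (b (a (c (b (l 16763256) (l 16765024)) (c (l 16766168) (l 16760520))) (c (a (l 16768136) (l 16763808)) (c (l 16762856) (l 16765152)))) (a (c (c (l 16765184) (l 16764928)) (c (l 16767288) (l 16765712))) (c (c (l 16766976) (l 16766784)) (c (l 16769216) (l 16768360))))) (b (a (c (c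 (l 16765296) (l 16765040)) (c (l 16764784) (l 16767144))) (c (c (l 16767072) (l 16766888)) (c (l 16769320) (l 16769128)))) (a (c (c (l 16771376) (l 16771256)) (a (l 16770576) (l 16771552))) (a (c (b (l 16769168) (l 16774192)) (b (l 16768960) (c (l 16773480) (l 16773440)))) (b (c (l 16770072) (l 16769928)) (b (c (l 16773992) (l 16775256)) (a (c (l 16777104) (l 133915736487)) (c (l 140358189895) (l 143042544455)))))))))), by decide +kernel⟩

def k29_pp_022_t : ∃ t, chk3 f_pp_022_t t 66 126 1 = true :=
  ⟨(l 14), by decide +kernel⟩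

def k30_pp_022_t : ∃ t, chk3 f_pp_022_t t 268 252 2 = true :=
  ⟨(a (l 14) (a (l 14) (b (b (c (b (c (l 16760448) (l 16759728)) (c (l 16763464) (l 16762872))) (c (b (l 16758992) (l 16762272)) (b (l 16758256) (l 16761664)))) (c (b (c (l 16767144) (l 16766024)) (c (b (l 16768760) (l 16770272)) (b (l 16768400) (l 16769976)))) (b (c (l 16765560) (l 16765088)) (c (b (l 16768024) (l 16769672)) (b (l 16767656) (l 16769368)))))) (b (b (c (c (a (l 16769544) (l 16770320)) (a (l 16769328) (l 16770136))) (c (a (l 16769104) (l 16769952)) (c (l 16769376) (l 16769272)))) (c (a (c (l 16772912) (l 16772496)) (b (l 16773872) (b (l 16773720) (a (l 16776896) (a (l 16777120) (l 75933680359)))))) (a (c (l 16772408) (l 16772320)) (b (l 16772384) (b (l 16773648) (a (l 16776864) (a (l 16777104) (l 67880616759)))))))) (b (b (a (a (b (c (l 16776880) (l 16776856)) (a (l 14) (l 4))) (b (a (b (l 16777000) (l 16777568)) (b (l 16777152) (l 4))) (l 4))) (a (c (l 248269242679) (l 256322306359)) (l 4))) (l 4)) (l 4)))))), by decide +kernel⟩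

def k31_pp_022_t : ∃ t, chk3 f_pp_022_t t 269 504 2 = true :=
  ⟨(b (a (c (b (a (c (l 16762024) (l 16761368)) (c (l 16763592) (l 16763008))) (c (a (l 16765032) (l 16766600)) (a (l 16764512) (l 16766144)))) (a (c (b (l 16760712) (l 16763984)) (b (l 16760040) (l 16763440))) (b (c (l 16762416) (l 16761816)) (c (l 16765680) (l 16765216))))) (a (b (c (c (l 16765152) (l 16764640)) (c (l 16764112) (l 16763584))) (c (c (b (l 16767408) (l 16768904)) (l 16765144)) (c (l 16767376) (l 16766976)))) (b (c (c (l 16766712) (l 16766264)) (c (l 16765808) (l 16765344))) (c (c (b (l 16768960) (l 16770456)) (b (l 16768600) (l 16770168))) (c (l 16766440) (l 16766112)))))) (b (a (c (a (c (b (l 16767296) (l 16768808)) (b (l 16766872) (l 16768448))) (c (b (l 16768856) (l 16770368)) (b (l 16768496) (l 16770072)))) (c (a (l 16764640) (b (l 16768136) (l 16769776))) (a (l 16764232) (l 16766000)))) (a (c (c (c (l 16768608) (l 16768480)) (c (l 16768352) (l 16768216))) (c (b (l 16769824) (l 16771456)) (l 16767096))) (c (c (c (l 16770136)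 (l 16770040)) (c (l 16769944) (l 16769848))) (c (c (l 16769752) (l 16769648)) (l 16769176))))) (b (c (a (a (c (l 16770320) (l 16770024)) (c (l 16771872) (l 16771648))) (a (a (l 16772944) (l 16771112)) (c (l 16772344) (l 16772248)))) (a (a (c (l 16769728) (l 16769424)) (c (l 16771416) (l 16771176))) (a (c (l 16770472) (l 16770312)) (c (l 16772152) (l 16772048))))) (a (a (c (c (l 16771832) (l 16771600)) (c (l 16771368) (l 16771136))) (c (c (l 16770768) (l 16770600)) (c (l 16770432) (l 16770264)))) (a (c (c (l 16772312) (l 16772216)) (c (l 16772112) (l 16772016))) (a (c (l 16773440) (l 16773344)) (a (b (l 16773608) (c (l 16776976) (l 16776960))) (b (l 16775328) (b (a (l 16777104) (l 16777216)) (l 4)))))))))), by decide +kernel⟩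

def k32_pp_022_t : ∃ t, chk3 f_pp_022_t t 269 505 2 = true :=
  ⟨(b (a (a (a (a (b (c (l 16770824) (l 16770504)) (c (b (l 16773152) (b (l 16776904) (l 171496702615))) (b (l 16773032) (b (l 16776880) (l 162369897191))))) (b (c (l 16771224) (l 16770936)) (b (c (l 16773544) (l 16773456)) (b (a (c (l 16777120) (l 16777112)) (c (l 77007422199) (l 71101842231))) (l 4))))) (a (b (c (l 16771616) (l 16771368)) (b (a (l 61975031879) (c (l 87744836407) (l 16775280))) (c (l 257396048199) (l 262227886391)))) (b (c (l 16772672) (l 16771792)) (b (b (l 16775232) (a (b (l 16777032) (l 16777256)) (b (l 16777168) (l 4)))) (l 4))))) (b (a (c (c (l 16772648) (l 16772568)) (c (l 16772480) (l 16772392))) (a (b (l 16773648) (b (l 16774856) (c (l 16776936) (l 16776912)))) (b (l 16774056) (b (l 16775264) (b (a (l 16777056) (l 16777184)) (l 157001188071)))))) (b (a (a (b (c (l 16776928) (l 16776904)) (c (l 176865411751) (l 178476024487))) (b (b (a (l 16777048) (l 16777176)) (l 147874382599)) (l 4))) (a (c (l 262764757319) (l 266522853703))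 (l 4))) (l 4)))) (b (b (a (a (c (l 16773408) (l 16773312)) (a (b (l 16773576) (c (l 16776960) (l 16776936))) (b (l 16773984) (b (a (l 16777080) (l 16777200)) (l 177402282695))))) (a (a (b (c (l 16776968) (l 16776944)) (c (l 205856440935) (l 208540795495))) (b (b (a (l 16777088) (l 16777208)) (l 4)) (l 4))) (l 4))) (a (a (a (b (c (l 16776952) (l 16776928)) (a (l 182770991767) (l 4))) (b (b (a (l 16777072) (l 16777192)) (l 166664864455)) (l 4))) (c (c (l 269207208359) (l 272428433815)) (l 269207208343))) (l 4))) (l 4))) (l 4)), by decide +kernel⟩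

def k33_pp_022_t : ∃ t, chk3 f_pp_022_t t 268 252 3 = true :=
  ⟨(a (l 14) (a (l 14) (b (a (b (c (b (l 16756648) (l 16760264)) (b (l 16755064) (l 16758960))) (b (c (l 16761272) (c (l 16763128) (l 16762608))) (c (c (l 16767704) (l 16767336)) (b (l 16765800) (l 16767760))))) (b (b (c (l 16757592) (l 16756088)) (c (l 16761208) (l 16759984))) (b (c (l 16762208) (c (l 16764120) (l 16763640))) (c (b (l 16767552) (l 16769368)) (b (l 16766816) (l 16768768)))))) (b (a (b (c (c (l 16768656) (l 16765808)) (c (l 16768192) (l 16767960))) (c (c (l 16772232) (l 16772144)) (c (l 16772048) (l 16771952)))) (b (c (c (l 16769568) (l 16769376)) (c (l 16769184) (l 16768984))) (c (b (l 16772208) (b (l 16773576) (a (l 16775528) (a (l 16777096) (l 73249325863))))) (b (l 16772024) (b (l 16773496) (a (l 98482255303) (b (l 16777040) (l 130157642391)))))))) (b (b (a (a (b (c (l 16775512) (l 96334771639)) (a (l 14) (l 4))) (b (b (c (l 16777040) (l 16777024)) (c (l 122641449623) (l 139821318727))) (l 4))) (a (a (c (l 260617273607) (l 263301628167))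 (l 4)) (l 4))) (l 4)) (l 4)))))), by decide +kernel⟩

def k34_pp_022_t : ∃ t, chk3 f_pp_022_t t 269 504 3 = true :=
  ⟨(a (b (b (c (c (a (l 16759360) (l 16761208)) (a (l 16758664) (l 16760584))) (c (a (l 16757968) (l 16759960)) (a (l 16757256) (l 16759328)))) (a (c (c (l 16762896) (l 16762344)) (c (l 16761784) (l 16761216))) (a (c (l 16764032) (l 16760400)) (c (l 16764968) (l 16761408))))) (b (c (c (a (l 16763824) (l 16765656)) (a (l 16763408) (l 16765312))) (a (c (b (l 16764656) (l 16766568)) (b (l 16764192) (l 16766176))) (c (b (l 16766632) (l 16768544)) (c (l 16762080) (l 16764528))))) (a (c (c (b (l 16769112) (l 16770888)) (c (l 16764552) (l 16764408))) (c (c (l 16766888) (l 16766752)) (a (l 16766024) (l 16767048)))) (c (c (c (l 16766640) (l 16766536)) (a (l 16765904) (l 16766848))) (c (a (l 16765680) (l 16769280)) (a (l 16768064) (l 16769088))))))) (a (b (b (c (c (l 16763048) (l 16762496)) (c (l 16761944) (l 16761384))) (a (c (l 16763280) (l 16762416)) (c (l 16764216) (l 16763416)))) (b (c (c (l 16767488)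 (l 16767208)) (c (c (l 16764384) (l 16764240)) (c (l 16766728) (l 16766584)))) (c (c (c (l 16768440) (l 16768368)) (a (l 16767792) (l 16768736))) (a (c (l 16770264) (l 16770104)) (c (l 16771240) (l 16771112)))))) (a (b (b (c (l 16764176) (l 16763176)) (c (l 16765144) (l 16764416))) (b (c (l 16768736) (c (l 16765784) (l 16768176))) (c (c (l 16772384) (l 16772296)) (c (l 16772216) (l 16772128))))) (b (b (c (l 16765104) (l 16761560)) (c (l 16766072) (l 16764760))) (b (c (l 16769664) (c (l 16766760) (l 16769192))) (a (b (l 16773352) (b (l 16773440) (a (l 16775872) (b (l 16776880) (l 16777528))))) (b (l 16773824) (b (l 16773920) (b (c (l 16777128) (l 16777120)) (l 4)))))))))), by decide +kernel⟩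

def k35_pp_022_t : ∃ t, chk3 f_pp_022_t t 269 505 3 = true :=
  ⟨(b (a (b (a (c (c (a (l 16770488) (l 16771400)) (a (l 16770328) (l 16771272))) (a (c (l 16770168) (l 16770008)) (c (l 16771152) (l 16771024)))) (c (a (c (l 16772304) (l 16772216)) (b (l 16772280) (b (l 16773640) (a (l 16775904) (a (l 16777128) (l 90429195015)))))) (b (c (l 16771664) (l 16771552)) (a (l 16773064) (b (l 16773568) (a (c (l 16776872) (l 16775872)) (b (l 16777080) (l 173644186135)))))))) (b (a (c (a (l 16773136) (b (l 16773608) (a (l 16775552) (a (l 16777112) (l 74859938631))))) (a (l 16773024) (b (l 16773528) (b (c (l 16775536) (l 104387835543)) (a (l 16777056) (l 151095607895)))))) (a (a (b (c (l 16775568) (c (l 16776856) (l 16775856))) (a (a (l 163980509815) (l 4)) (l 4))) (b (b (c (l 16777080) (l 16777072)) (c (l 16777440) (l 168275477015))) (l 4))) (a (c (l 269744079175) (l 272965304647)) (l 4)))) (a (a (b (a (c (l 16775536) (l 100629738983)) (b (c (l 16777064) (l 16777048)) (c (l 143042544215) (l 146263769687)))) (a (a (b (l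 125325804071) (l 4)) (l 4)) (l 4))) (a (a (c (l 265449111831) (l 268133466391)) (l 4)) (l 4))) (l 4)))) (b (b (a (c (a (l 16773208) (b (l 16773680) (a (l 16776912) (a (l 16777144) (l 94724162327))))) (a (l 16773104) (b (l 16773608) (b (c (l 16776568) (l 113514641159)) (a (l 16777096) (l 196729635319)))))) (a (b (a (c (l 16776928) (c (l 16776904) (l 16776568))) (b (c (l 16777120) (l 16777112)) (l 4))) (c (c (l 213372633847) (l 214446375671)) (l 275112788247))) (l 4))) (a (a (b (a (c (l 16776896) (c (l 16776880) (l 16775888))) (b (c (l 16777104) (l 16777096)) (c (l 16777280) (l 184381604375)))) (a (c (l 191897797303) (l 196729635495)) (l 4))) (a (c (l 274575917399) (l 279407755591)) (l 4))) (l 4))) (l 4))) (l 4)), by decide +kernel⟩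

def k36_pp_022_t : ∃ t, chk3 f_pp_022_t t 270 1008 1 = true :=
  ⟨(c (a (a (b (c (c (b (l 16767512) (l 16769008)) (l 16767880)) (c (l 16767488) (l 16767096))) (c (c (c (l 16768696) (l 16768568)) (b (l 16770216) (l 16771776))) (c (l 16768120) (l 16767856)))) (b (c (c (b (l 16769056) (l 16770552)) (l 16766864)) (c (l 16766544) (l 16766224))) (c (c (c (l 16770216) (l 16770120)) (c (l 16770024) (l 16769936))) (c (l 16769792) (l 16769592))))) (a (c (b (c (b (l 16770592) (l 16772088)) (l 16768472)) (c (c (l 16771728) (l 16771672)) (c (l 16771608) (l 16771544)))) (b (c (l 16768216) (l 16767960)) (c (l 16771456) (l 16771328)))) (b (c (c (c (l 16770296) (l 16770200)) (l 16770064)) (c (l 16769880) (l 16769688))) (a (c (c (l 16772840) (l 16772768)) (c (l 16772696) (l 16772616))) (a (b (l 16772552) (b (l 16773736) (c (l 16777064) (l 16777048)))) (b (l 16772952) (b (l 16775448) (c (l 99556000647) (l 93650420679))))))))) (a (b (a (c (c (l 16766696) (l 16766296)) (c (l 16763264) (l 16762848))) (c (c (l 16765888) (l 16765560))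 (c (l 16765224) (l 16763568)))) (a (c (c (l 16767592) (l 16767320)) (c (l 16766392) (c (l 16764224) (l 16764080)))) (c (c (l 16769400) (l 16769200)) (c (c (l 16766424) (l 16766328)) (a (l 16765672) (l 16766672)))))) (b (a (a (c (l 16767104) (l 16766536)) (c (l 16768024) (l 16767528))) (a (c (l 16768944) (l 16768512)) (c (l 16769856) (l 16768840)))) (a (c (c (l 16771200) (l 16771072)) (a (c (l 16767832) (l 16767680)) (c (l 16768800) (l 16771304)))) (a (c (b (l 16768992) (l 16773392)) (b (l 16771384) (l 16773952))) (a (b (l 16772208) (b (l 16773592) (b (l 16775584) (a (l 16777160) (l 16777248))))) (b (l 16772680) (b (l 16775696) (a (b (l 16777160) (l 4)) (l 181697249927)))))))))), by decide +kernel⟩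

def k37_pp_022_t : ∃ t, chk3 f_pp_022_t t 540 1009 1 = true :=
  ⟨(b (a (c (c (c (c (l 16771656) (l 16771592)) (a (l 16771104) (l 16771904))) (c (a (l 16770952) (l 16771792)) (c (l 16768656) (l 16768592)))) (c (c (l 16770456) (l 16770320)) (a (c (l 16767736) (l 16770200)) (c (l 16768704) (l 16771208))))) (a (c (c (c (l 16772776) (l 16772704)) (c (l 16772624) (l 16772544))) (c (c (l 16772464) (l 16772384)) (b (l 16771288) (l 16773216)))) (a (b (c (l 16773784) (l 16772120)) (b (c (l 16773672) (l 16773520)) (c (c (l 16777024) (l 16777000)) (c (l 16776984) (c (l 16776968) (l 16776960)))))) (b (c (l 16774192) (l 16773912)) (b (c (l 16775384) (l 16775296)) (b (c (c (l 16777176) (l 16777168)) (c (l 16777168) (l 16777160))) (l 4))))))) (a (a (b (c (c (l 16774784) (l 16773376)) (c (l 16773280) (l 16773184))) (b (a (c (c (l 16776992) (l 16776968)) (c (l 16776952) (c (l 16776936) (l 16776920)))) (b (c (a (l 16777112) (l 16777216)) (c (l 16777136) (l 16777128))) (l 4))) (l 4))) (b (a (b (c (l 16773640) (l 16773480))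 (c (c (l 16777000) (l 16776984)) (a (l 95261030151) (b (l 16776920) (l 16777544))))) (b (c (l 16775352) (l 16775264)) (b (c (a (l 16777120) (l 16777224)) (c (l 16777144) (l 16777136))) (l 4)))) (l 4))) (a (b (b (a (c (c (l 16777008) (l 16776992)) (c (l 16776976) (c (l 16776960) (l 16776944)))) (b (c (a (l 16777128) (l 16777232)) (a (l 16777112) (l 16777224))) (l 4))) (l 4)) (l 4)) (l 4)))), by decide +kernel⟩

def k38_pp_022_t : ∃ t, chk3 f_pp_022_t t 541 1009 1 = true :=
  ⟨(b (a (b (a (c (c (l 16774848) (l 16773448)) (c (l 16773352) (l 16773256))) (a (b (c (l 16773704) (l 16773552)) (c (c (l 16777040) (l 16777024)) (c (l 16777008) (c (l 16776992) (l 16776984))))) (b (c (l 16775416) (l 16775336)) (b (c (a (l 16777160) (l 16777248)) (c (l 16777184) (l 16777176))) (l 4))))) (a (b (a (c (c (l 16777032) (l 16777016)) (c (l 16777000) (c (l 16776984) (l 16776976)))) (b (c (a (l 16777152) (l 16777240)) (a (l 16777136) (l 16777240))) (l 4))) (l 4)) (l 4))) (a (b (b (a (c (c (l 16777048) (l 16777032)) (a (l 110293415831)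 (b (l 16777000) (l 16777248)))) (b (c (a (l 16777168) (l 16777248)) (a (l 16777152) (l 16777248))) (l 4))) (l 4)) (l 4)) (l 4))) (l 4)), by decide +kernel⟩

def k39_pp_022_t : ∃ t, chk3 f_pp_022_t t 271 2016 1 = true :=
  ⟨(a (a (c (c (c (c (l 16771800) (l 16771744)) (l 16771656)) (c (l 16771536) (l 16771408))) (c (c (l 16771288) (l 16771160)) (a (l 16770152) (c (l 16768888) (l 16768776))))) (b (c (c (c (l 16772552) (l 16772464)) (c (l 16769760) (l 16769664))) (c (c (l 16769576) (l 16769488)) (c (l 16769392) (l 16771920)))) (a (c (c (l 16774616) (l 16773552)) (c (l 16773464) (l 58216933495))) (b (c (c (l 16774016) (l 16773968)) (c (l 16773920) (l 16775184))) (a (c (c (l 16777096) (l 16777088)) (c (l 16777072) (c (l 16777064) (l 96334774007)))) (a (b (c (l 16777208) (l 16777200)) (l 4)) (l 4))))))) (a (a (b (c (c (l 16774808) (l 16774896)) (c (l 16773504) (c (l 16773440) (l 16773400)))) (b (a (c (c (l 16777104) (l 16777088)) (c (l 16777080) (a (l 16777024) (l 16777152)))) (a (b (c (l 16777216) (l 16777208))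 (l 4)) (l 4))) (l 4))) (b (b (c (c (l 16775360) (l 16774000)) (c (l 16773952) (l 16775216))) (a (c (c (l 16777112) (l 16777096)) (c (l 16777088) (c (l 16777080) (l 109756546839)))) (c (c (l 128547029831) (l 126399546215)) (c (l 128547029863) (l 131768255335))))) (l 4))) (a (b (b (a (c (c (l 16777120) (l 16777112)) (c (l 16777096) (l 127473285527))) (c (c (l 136600093479) (l 133915738951)) (c (l 132305126247) (l 134989480807)))) (l 4)) (l 4)) (l 4)))), by decide +kernel⟩

def k40_pp_022_t : ∃ t, chk3 f_pp_022_t t 271 2017 1 = true :=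
  ⟨(a (a (b (a (c (c (l 16774912) (l 16773512)) (c (l 16773424) (l 16773992))) (a (b (c (l 16773768) (l 16773632)) (c (c (l 16777080) (l 16777064)) (c (l 16777056) (c (l 16777040) (l 83449869447))))) (b (c (l 16775472) (l 74323063911)) (b (c (l 86134227767) (c (l 16777216) (l 16777208))) (l 4))))) (a (b (a (c (c (l 16777072) (l 16777056)) (b (l 16775600) (c (l 16777200) (l 16777200)))) (b (c (l 72712455047) (c (l 16777208) (l 16777200))) (l 4))) (l 4)) (l 4))) (b (b (a (a (c (c (l 16777088) (l 16777080)) (c (l 16777064) (c (l 16777056) (l 90429193943)))) (b (c (l 88818582343) (a (l 16777192) (l 16777264))) (l 4))) (l 4)) (l 4)) (l 4))) (l 4)), by decide +kernel⟩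

def k41_pp_022_t : ∃ t, chk3 f_pp_022_t t 271 1009 1 = true :=
  ⟨(l 4), by decide +kernel⟩

def k42_pp_022_t : ∃ t, chk3 f_pp_022_t t 135 505 1 = true :=
  ⟨(l 4), by decide +kernel⟩

def k43_pp_022_t : ∃ t, chk3 f_pp_022_t t 67 253 1 = true :=
  ⟨(l 4), by decide +kernel⟩

def k44_pp_022_t : ∃ t, chk3 f_pp_022_t t 33 127 1 = true :=
  ⟨(l 4), by decide +kernel⟩

def k45_pp_022_t : ∃ t, chk3 f_pp_022_t t 34 120 1 = true :=
  ⟨(a (l 6) (b (l 6) (b (a (l 6) (c (c (a (l 16577464) (l 16584648)) (a (l 16561464) (l 16569392))) (c (a (l 16545016) (l 16553696)) (a (l 16538592) (l 16548048))))) (c (a (c (a (l 16573128) (l 16580448)) (a (l 16561776) (l 16569840))) (c (a (l 16587656) (l 16594760)) (a (l 16572544) (l 16580368)))) (a (c (a (l 16544704) (l 16553544)) (a (l 16532400) (l 16542040))) (c (a (l 16562248) (l 16576056)) (a (l 16551520) (l 16560848)))))))), by decide +kernel⟩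

def k46_pp_022_t : ∃ t, chk3 f_pp_022_t t 34 242 1 = true :=
  ⟨(b (a (a (l 6) (c (c (a (l 16573944) (l 16581384)) (a (l 16556728) (l 16564944))) (c (a (l 16541656) (l 16550664)) (a (l 16526088) (l 16535912))))) (c (a (c (a (l 16583472) (l 16590704)) (a (l 16573040) (l 16581008))) (c (a (l 16597832) (l 16604848)) (a (l 16588848) (l 16591336)))) (a (c (a (l 16556912) (l 16565640)) (a (l 16545576) (l 16555088))) (c (a (l 16579464) (l 16587912)) (a (l 16564432) (l 16573624)))))) (a (a (a (a (l 6) (b (l 6) (a (c (l 16569592) (l 16533640)) (c (l 16571584) (l 16536040))))) (c (c (l 16576984) (l 16562568)) (c (b (l 16539296) (l 16545560)) (l 16529672)))) (c (c (a (l 16584448) (l 16591800)) (a (l 16570808) (l 16576296))) (c (a (l 16555392) (l 16562976)) (a (l 16539520) (l 16549208))))) (c (a (c (a (l 16599056) (l 16600960)) (a (l 16584288) (l 16592160))) (c (a (l 16608000) (l 16614936)) (a (l 16605152) (l 16612776)))) (a (c (a (l 16574344) (l 16582960)) (a (l 16558744) (l 16568112))) (c (a (l 16591432) (l 16599760))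 (a (l 16577336) (l 16586392))))))), by decide +kernel⟩

def k47_pp_022_t : ∃ t, chk3 f_pp_022_t t 34 243 1 = true :=
  ⟨(a (c (a (a (c (a (b (l 16575576) (l 16594136)) (l 16593848)) (a (b (l 16561152) (l 16578072)) (a (l 16575344) (l 16577400)))) (c (c (l 16599320) (l 16594256)) (c (l 16586456) (l 16578552)))) (c (a (c (l 16609096) (l 16601776)) (c (l 16616144) (l 16609192))) (a (c (l 16594352) (l 16586824)) (c (l 16602136) (l 16594976))))) (a (c (a (a (b (l 16544608) (l 16561552)) (a (l 16558616) (l 16560872))) (c (l 16571840) (l 16565024))) (a (a (c (l 16542296) (l 16533272)) (c (l 16546976) (l 16538320))) (c (l 16556784) (l 16548432)))) (c (a (c (l 16579192) (l 16574080)) (c (l 16587720) (l 16580368))) (a (c (l 16566232) (l 16555664)) (c (l 16572912) (l 16565352)))))) (c (a (c (a (c (l 16623096) (l 16616496)) (c (l 16629952) (l 16623688))) (a (c (l 16609800) (l 16603008)) (c (l 16617344) (l 16610904)))) (c (a (c (l 16636696) (l 16630776)) (c (l 16643344) (l 16637752))) (a (c (l 16624768) (l 16618672)) (c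 (l 16632080) (l 16626320))))) (a (c (a (c (l 16596112) (l 16589136)) (c (l 16604376) (l 16597752))) (a (c (l 16582056) (l 16574880)) (c (l 16591048) (l 16584248)))) (c (a (c (l 16612496) (l 16606232)) (c (l 16620488) (l 16614568))) (a (c (l 16599880) (l 16593448)) (c (l 16608568) (l 16602488))))))), by decide +kernel⟩

def k48_pp_022_t : ∃ t, chk3 f_pp_022_t t 68 122 2 = true :=
  ⟨(a (b (c (a (c (a (l 16613800) (l 16617376)) (c (l 16605024) (l 16601448))) (c (l 16624000) (c (l 16612392) (l 16614240)))) (a (c (c (l 16600472) (l 16599464)) (a (l 16586656) (l 16596032))) (c (c (l 16610824) (l 16607384)) (a (l 16600136) (l 16604200))))) (c (a (c (a (l 16634840) (l 16638336)) (a (l 16628608) (l 16632272))) (c (a (l 16641800) (l 16645248)) (a (l 16635920) (l 16639536)))) (a (c (b (l 16613224) (l 16624728)) (b (l 16606656) (l 16618648))) (c (b (l 16615664) (l 16632312)) (b (l 16609456) (l 16626592)))))) (c (b (a (c (l 16629680) (l 16625912)) (c (l 16636576) (l 16630536))) (a (c (a (l 16648664) (l 16652056)) (a (l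 16643120) (l 16646680))) (c (a (l 16655432) (l 16658776)) (a (l 16650216) (l 16653720))))) (b (a (c (a (l 16614896) (l 16618728)) (a (l 16608240) (l 16612240))) (c (l 16627024) (a (l 16616216) (l 16620160)))) (a (c (a (l 16637496) (l 16641232)) (a (l 16631792) (l 16635696))) (c (a (l 16644928) (l 16648600)) (a (l 16639568) (l 16643408))))))), by decide +kernel⟩

def k49_pp_022_t : ∃ t, chk3 f_pp_022_t t 68 123 2 = true :=
  ⟨(a (b (c (a (c (b (l 16647224) (l 16657920)) (b (l 16641800) (l 16655592))) (c (b (l 16654040) (l 16669904)) (b (l 16648952) (l 16665288)))) (a (c (b (l 16636296) (l 16653200)) (b (l 16633336) (l 16648112))) (c (b (l 16643792) (l 16660600)) (b (l 16643800) (l 16655856))))) (a (c (c (b (l 16673952) (l 16684832)) (b (l 16669488) (l 16682736))) (b (c (l 16664960) (l 16661680)) (a (c (l 16674992) (l 16670816)) (c (l 16678632) (l 16674616))))) (c (c (b (l 16680616) (l 16692728)) (b (l 16676472) (l 16689056))) (c (b (l 16672264) (a (l 16682232) (l 16685816))) (b (l 16668008) (a (l 16678384)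 (l 16682120))))))) (b (c (a (c (b (l 16660760) (l 16676544)) (b (l 16656000) (l 16672248))) (c (b (l 16672624) (l 16683088)) (b (l 16668184) (l 16679096)))) (a (c (b (l 16656408) (l 16667888)) (b (l 16651512) (l 16663464))) (c (b (l 16663672) (l 16675056)) (b (l 16659096) (l 16670952))))) (c (a (b (c (l 16687176) (l 16683344)) (c (l 16700520) (l 16697160))) (b (c (l 16693640) (l 16690112)) (c (l 16706904) (l 16703840)))) (a (b (c (l 16679456) (l 16675512)) (c (a (l 16689360) (l 16692880)) (a (l 16685824) (l 16689496)))) (a (b (l 16682928) (l 16697216)) (b (l 16686512) (l 16700584))))))), by decide +kernel⟩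

def k50_pp_022_t : ∃ t, chk3 f_pp_022_t t 68 122 3 = true :=
  ⟨(a (c (b (a (c (a (l 16584400) (l 16588720)) (a (l 16576792) (l 16581304))) (c (a (l 16593008) (l 16597264)) (a (l 16585784) (l 16590232)))) (a (c (b (l 16600000) (l 16612488)) (b (l 16593248) (l 16606248))) (c (b (l 16608408) (l 16620792)) (b (l 16596784) (l 16620152))))) (b (a (c (a (l 16569080) (l 16573792)) (a (l 16561264) (l 16566176))) (c (a (l 16578464) (l 16583096)) (a (l 16571040) (l 16575872)))) (a (c (b (l 16586408) (l 16605168)) (b (l 16584712) (l 16598752))) (c (b (l 16590320) (l 16614192)) (b (l 16594248) (l 16608152)))))) (c (b (b (a (b (l 16585632) (l 16591856)) (l 16604496)) (a (b (l 16598080) (l 16606936)) (b (l 16606544) (l 16612720)))) (a (c (a (l 16626016) (l 16630088)) (b (l 16605424) (l 16628672))) (c (a (l 16634136) (l 16638144)) (b (l 16624400) (l 16637048))))) (b (a (c (a (l 16587696) (l 16592256)) (a (l 16580664) (l 16585408))) (c (a (l 16596776) (l 16601256)) (a (l 16590120) (l 16594784)))) (a (c (b (l 16609808) (l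 16623072)) (b (l 16603624) (l 16617392))) (c (b (l 16618656) (l 16631792)) (b (l 16612840) (l 16626472))))))), by decide +kernel⟩

def k51_pp_022_t : ∃ t, chk3 f_pp_022_t t 68 123 3 = true :=
  ⟨(a (c (b (a (c (b (l 16630296) (l 16642960)) (b (l 16624560) (l 16637728))) (c (b (l 16638488) (l 16651040)) (b (l 16633104) (l 16646152)))) (a (b (a (l 16652624) (l 16656720)) (a (c (l 16666584) (l 16662296)) (c (l 16670552) (l 16666424)))) (b (a (l 16662104) (l 16666136)) (c (a (l 16674480) (l 16678376)) (a (l 16670520) (l 16674576)))))) (b (a (c (b (l 16618752) (l 16632432)) (b (l 16612856) (l 16627064))) (c (b (l 16627648) (l 16641208)) (b (l 16622128) (l 16636192)))) (a (b (a (l 16644200) (l 16648648)) (a (c (l 16657952) (l 16653544)) (c (l 16662248) (l 16658016)))) (b (a (l 16653056) (l 16657424)) (a (c (l 16666504) (l 16662440)) (c (l 16670728) (l 16666832))))))) (c (b (a (c (b (l 16646544) (l 16658984)) (b (l 16641504) (l 16654440))) (c (b (l 16654464) (l 16666792)) (b (l 16649760) (l 16662576)))) (b (a (c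 (l 16671520) (l 16670088)) (c (l 16679216) (l 16678104))) (a (c (a (l 16682232) (l 16686064)) (a (l 16678600) (l 16682584))) (c (a (l 16689856) (l 16693616)) (a (l 16686536) (l 16690448)))))) (b (a (c (b (l 16636400) (l 16649832)) (b (l 16631224) (l 16645160))) (c (b (l 16645000) (l 16658304)) (b (l 16640168) (l 16653968)))) (a (b (a (l 16661760) (l 16663432)) (a (c (l 16674912) (l 16671176)) (c (l 16679056) (l 16675488)))) (b (a (l 16667680) (l 16671896)) (a (c (l 16683168) (l 16679752)) (c (l 16687240) (l 16683984)))))))), by decide +kernel⟩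

def k52_pp_022_t : ∃ t, chk3 f_pp_022_t t 69 122 1 = true :=
  ⟨(c (a (c (b (a (c (l 16643368) (l 16637664)) (c (l 16650064) (l 16644688))) (a (c (a (l 16662088) (l 16665384)) (a (l 16657200) (l 16660656))) (c (a (l 16668656) (l 16671896)) (a (l 16664080) (l 16667480))))) (b (a (c (l 16634504) (l 16629944)) (c (l 16639232) (l 16636328))) (a (c (a (l 16652248) (l 16655856)) (a (l 16647216) (l 16650992))) (c (a (l 16659440) (l 16663000)) (b (l 16650864) (l 16662352)))))) (c (b (a (c (l 16656656) (l 16651600)) (c (l 16663144) (l 16658408))) (b (a (l 16672112) (l 16676016)) (a (c (l 16681752) (l 16677776)) (c (l 16688048) (l 16684368))))) (b (a (c (l 16646472) (l 16646512)) (c (l 16653592) (l 16653960))) (a (c (b (l 16662808) (l 16673752)) (b (l 16658280) (l 16669664))) (c (b (l 16669792) (l 16680640)) (b (l 16665568) (l 16676856))))))) (a (c (b (a (c (l 16623664) (a (l 16611904) (l 16616136))) (c (l 16630720) (l 16626344))) (a (c (b (l 16638072) (l 16650128)) (b (l 16632752) (l 16645280))) (c (b (l 16645944)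 (l 16657888)) (b (l 16640960) (l 16653368))))) (b (b (a (a (l 16595960) (l 16600488)) (l 16609832)) (a (c (l 16614384) (l 16608432)) (c (l 16623056) (l 16617456)))) (a (c (b (l 16627360) (l 16640368)) (b (l 16621888) (l 16635384))) (c (b (l 16635904) (l 16648792)) (b (l 16630784) (l 16644144)))))) (c (b (a (c (l 16638624) (l 16634584)) (c (l 16649008) (l 16642680))) (a (c (b (l 16653680) (l 16665520)) (b (l 16649024) (l 16661320))) (c (b (l 16661288) (l 16673016)) (b (l 16656944) (l 16669120))))) (b (a (c (b (l 16618888) (l 16631584)) (l 16624984)) (c (l 16638256) (l 16633752))) (a (c (b (l 16644304) (l 16657056)) (b (l 16639512) (l 16652744))) (b (c (l 16652544) (l 16648088)) (c (l 16665176) (l 16661184)))))))), by decide +kernel⟩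

def k53_pp_022_t : ∃ t, chk3 f_pp_022_t t 69 123 2 = true :=
  ⟨(a (b (c (a (c (b (l 16679144) (l 16689528)) (b (l 16675008) (l 16685840))) (c (b (l 16685568) (l 16695872)) (b (l 16681736) (l 16692480)))) (a (c (b (l 16670816) (l 16682104)) (b (l 16666560) (l 16678312))) (c (b (l 16677848) (l 16689040)) (b (l 16673904) (l 16685552))))) (c (a (b (c (l 16700000) (l 16696768)) (a (l 16710208) (l 16713392))) (b (a (l 16703208) (l 16706384)) (a (l 16716560) (l 16719696)))) (a (b (c (l 16693488) (l 16690160)) (a (l 16704416) (l 16707896))) (b (c (l 16700328) (l 16697296)) (a (l 16711176) (c (l 16713376) (l 16710872))))))) (b (c (a (c (b (l 16691888) (l 16702112)) (b (l 16688344) (l 16699008))) (b (c (l 16698104) (l 16694848)) (a (l 16705280) (l 16708400)))) (a (b (c (l 16684752) (l 16681112)) (c (l 16695856) (l 16692664))) (b (c (l 16691552) (l 16688200)) (c (l 16702552) (l 16699648))))) (a (c (b (a (l 16709536) (l 16712656)) (a (l 16722800) (l 16725560))) (b (c (l 16707048) (l 16704304)) (a (c (l 16716696) (l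 16714328)) (c (l 16719976) (l 16717752))))) (c (b (a (l 16715752) (l 16718832)) (a (c (l 16727336) (l 16725304)) (c (l 16730304) (l 16728400)))) (b (a (l 16710752) (l 16714096)) (a (c (l 16723232) (l 16721144)) (c (l 16726464) (l 16724504)))))))), by decide +kernel⟩

def k54_pp_022_t : ∃ t, chk3 f_pp_022_t t 69 123 3 = true :=
  ⟨(a (c (b (a (c (b (l 16662248) (l 16674472)) (b (l 16657880) (l 16670568))) (b (c (l 16669904) (l 16665848)) (c (l 16682008) (l 16678424)))) (a (b (c (l 16689408) (l 16685984)) (c (a (l 16697344) (l 16701040)) (a (l 16694328) (l 16698176)))) (b (c (l 16696840) (l 16693720)) (c (a (l 16704704) (l 16708328)) (a (l 16701984) (l 16705760)))))) (b (a (b (c (l 16653448) (l 16648952)) (a (l 16662520) (l 16666720))) (b (a (l 16657568) (l 16661752)) (a (l 16670888) (l 16675016)))) (a (b (a (l 16676072) (l 16680208)) (a (c (l 16691272) (l 16688168)) (c (l 16695264) (l 16692320)))) (b (a (l 16684312) (l 16688368)) (a (c (l 16699224) (l 16696432)) (c (l 16703144) (l 16700496))))))) (c (b (c (b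 (a (l 16677424) (l 16684808)) (a (l 16689424) (l 16696696))) (b (a (l 16673680) (l 16681368)) (a (l 16686136) (l 16693704)))) (a (b (c (l 16704136) (l 16701312)) (c (a (l 16711928) (l 16715488)) (a (l 16709496) (l 16713200)))) (b (c (a (l 16706904) (l 16710456)) (l 16708768)) (c (a (l 16719016) (l 16722512)) (a (l 16716864) (l 16720496)))))) (b (a (b (a (l 16665904) (l 16670024)) (a (l 16679096) (l 16683144))) (b (a (l 16674096) (l 16678128)) (a (l 16687160) (l 16691128)))) (a (b (a (l 16692392) (l 16696376)) (a (c (l 16707032) (l 16704528)) (c (l 16710872) (l 16708520)))) (b (a (l 16702944) (l 16706848)) (a (c (l 16714680) (l 16712472)) (c (l 16718456) (l 16716384)))))))), by decide +kernel⟩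

def k55_pp_022_t : ∃ t, chk3 f_pp_022_t t 70 60 2 = true :=
  ⟨(b (a (c (b (a (l 16587128) (l 16594232)) (a (a (l 16605488) (l 16608976)) (l 16616792))) (b (b (l 6) (a (l 16566288) (l 16574064))) (a (c (l 16596688) (l 16589528)) (c (l 16604136) (l 16597336))))) (c (b (a (l 16601232) (l 16608128)) (a (l 16621000) (l 16627720))) (b (a (l 16586832) (l 16594416)) (a (c (l 16611472) (l 16605016)) (l 16618832))))) (a (c (b (a (c (l 16630304) (l 16624184)) (c (l 16636904) (l 16631120))) (a (c (l 16649896) (l 16644624)) (c (l 16656344) (l 16651384)))) (b (a (c (l 16617984) (l 16611696)) (c (l 16625248) (l 16619296))) (a (c (l 16639272) (l 16633840)) (c (l 16646344) (l 16641240))))) (c (b (a (c (l 16643408) (l 16637944)) (c (l 16649816) (l 16644656))) (a (c (l 16662688) (l 16658032)) (c (l 16668936) (l 16664576)))) (b (a (c (l 16632392) (l 16626768)) (c (l 16639424) (l 16634120))) (a (c (l 16653304) (l 16648512)) (c (l 16660144) (l 16655656))))))), by decide +kernel⟩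

def k56_pp_022_t : ∃ t, chk3 f_pp_022_t t 70 60 3 = true :=
  ⟨(b (a (b (b (l 6) (c (a (l 16550448) (l 16558960)) (a (l 16544648) (l 16553920)))) (c (a (c (l 16582272) (l 16574912)) (c (l 16590432) (l 16583432))) (a (c (l 16567448) (l 16559888)) (c (l 16576344) (l 16569152))))) (c (b (a (c (l 16575760) (l 16568248)) (l 16582936)) (a (c (l 16598456) (l 16591816)) (c (l 16606352) (l 16600048)))) (b (a (c (l 16560640) (l 16552920)) (c (l 16569480) (l 16562136))) (a (c (l 16585080) (l 16578248)) (c (l 16593664) (l 16587184)))))) (a (c (b (a (c (l 16605320) (l 16598848)) (c (l 16613256) (l 16607136))) (a (c (l 16628336) (l 16622760)) (c (l 16636056) (l 16630808)))) (b (a (c (l 16592296) (l 16585648)) (c (l 16600928) (l 16594640))) (a (c (l 16617104) (l 16611368)) (c (l 16625488) (l 16620088))))) (c (b (a (c (l 16621064) (l 16615280)) (c (l 16628736) (l 16623272))) (a (c (l 16643648) (l 16638712)) (c (l 16651096) (l 16646480)))) (b (a (c (l 16609408) (l 16603464)) (c (l 16617744) (l 16612136))) (a (c (l 16633720)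 (l 16628656)) (c (l 16641800) (l 16637056))))))), by decide +kernel⟩

def k57_pp_022_t : ∃ t, chk3 f_pp_022_t t 71 60 2 = true :=
  ⟨(b (a (c (b (a (l 16614912) (l 16621592)) (a (l 16634344) (l 16640856))) (b (a (l 16601880) (l 16609216)) (a (l 16625528) (l 16630048)))) (b (c (a (l 16628168) (l 16634640)) (a (l 16616432) (l 16623528))) (c (a (l 16647264) (l 16653568)) (a (l 16637064) (l 16643960))))) (a (c (b (a (c (l 16656120) (l 16651264)) (c (l 16662320) (l 16657760))) (a (c (l 16675080) (l 16671008)) (c (l 16681128) (l 16677328)))) (b (a (c (l 16646336) (l 16641336)) (c (l 16653128) (l 16648432))) (a (c (l 16666872) (l 16662672)) (c (l 16673472) (l 16669568))))) (c (b (a (c (l 16668424) (l 16664144)) (c (l 16674424) (l 16670424))) (a (c (l 16687072) (l 16683544)) (c (l 16692920) (l 16689656)))) (b (a (c (l 16659808) (l 16655408)) (c (l 16666368) (l 16662256))) (a (c (l 16679968) (l 16676336)) (c (l 16686344) (l 16682976))))))), by decide +kernel⟩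

def k58_pp_022_t : ∃ t, chk3 f_pp_022_t t 71 60 3 = true :=
  ⟨(b (a (b (c (a (l 16591088) (l 16596480)) (a (c (l 16578168) (l 16571184)) (c (l 16586696) (l 16580064)))) (c (a (c (l 16614112) (l 16608144)) (c (l 16621728) (l 16616096))) (a (c (l 16602096) (l 16595968)) (c (l 16610376) (l 16604584))))) (c (b (a (l 16604360) (l 16612096)) (a (c (l 16629224) (l 16623896)) (c (l 16636576) (l 16631560)))) (b (a (l 16597192) (l 16605584)) (a (c (l 16618504) (l 16613040)) (c (l 16626480) (l 16621336)))))) (a (c (b (a (c (l 16636272) (l 16631128)) (c (l 16643672) (l 16638848))) (a (c (l 16658416) (l 16654104)) (c (l 16665600) (l 16661584)))) (b (a (c (l 16625920) (l 16620640)) (c (l 16633952) (l 16628992))) (a (c (l 16649728) (l 16645296)) (c (l 16657504) (l 16653376))))) (c (b (a (c (l 16650944) (l 16646416)) (c (l 16658080) (l 16653848))) (a (c (l 16672656) (l 16668920)) (c (l 16679568) (l 16676112)))) (b (a (c (l 16641832) (l 16637176)) (c (l 16649560) (l 16645208))) (a (c (l 16665136) (l 16661296)) (c (l 16672608)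 (l 16669064))))))), by decide +kernel⟩

def k59_pp_022_t : ∃ t, chk3 f_pp_022_t t 70 122 2 = true :=
  ⟨(a (b (c (a (c (l 16669536) (l 16665104)) (c (l 16675832) (l 16671688))) (a (c (l 16660600) (l 16656032)) (c (l 16667488) (l 16663224)))) (b (c (a (l 16682440) (l 16691376)) (a (c (l 16676656) (l 16672736)) (c (l 16683408) (l 16679776)))) (c (a (c (l 16694248) (l 16690848)) (c (l 16700344) (l 16697224))) (a (c (l 16687408) (l 16683920)) (c (l 16694064) (l 16690856)))))) (b (c (a (c (l 16682024) (l 16678168)) (c (l 16688112) (l 16684536))) (a (c (l 16674256) (l 16670288)) (c (l 16680912) (l 16677232)))) (c (b (a (l 16697584) (l 16703696)) (a (c (l 16706336) (l 16703488)) (a (l 16709448) (l 16712440)))) (b (a (c (l 16690032) (l 16686688)) (c (l 16696552) (l 16693480))) (a (c (l 16700600) (l 16697672)) (a (l 16704072) (l 16707320))))))), by decide +kernel⟩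

def k60_pp_022_t : ∃ t, chk3 f_pp_022_t t 70 123 2 = true :=
  ⟨(b (a (c (a (b (c (l 16704224) (l 16701248)) (a (l 16711480) (l 16714544))) (b (a (l 16707368) (l 16710416)) (a (l 16717584) (l 16720592)))) (a (b (c (l 16698224) (l 16695168)) (a (l 16706160) (l 16709488))) (b (c (l 16704792) (l 16702000)) (a (l 16712792) (l 16716064))))) (c (a (b (a (l 16713440) (l 16716440)) (a (l 16723576) (l 16726528))) (b (a (l 16719408) (l 16722360)) (a (l 16729464) (l 16732368)))) (a (b (a (l 16708344) (l 16711608)) (a (l 16719304) (l 16722520))) (c (b (l 16717560) (l 16728200)) (b (l 16715312) (l 16726352)))))) (a (c (a (b (a (l 16721872) (l 16724896)) (a (c (l 16733248) (l 16731464)) (c (l 16736160) (l 16734512)))) (b (a (l 16727888) (l 16733480)) (a (c (l 16739056) (l 16737528)) (c (l 16741920) (l 16740512))))) (a (b (a (l 16717408) (l 16720688)) (a (c (l 16729664) (l 16727832)) (c (l 16732832) (l 16731128)))) (b (a (l 16723944) (l 16729784)) (a (c (l 16735976) (l 16734400)) (c (l 16739088) (l 16737632)))))) (a (a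 (b (c (l 16736424) (l 16732976)) (a (c (l 16743400) (l 16740720)) (c (l 16744848) (l 16742288)))) (b (c (l 16739344) (l 16736144)) (c (b (l 16744416) (l 16749584)) (b (l 16741840) (l 16747408))))) (a (b (c (c (l 16740336) (l 16738880)) (l 16739032)) (c (b (l 16747280) (l 16752424)) (b (l 16744936) (l 16750480)))) (c (b (c (l 16743144) (l 16741800)) (b (l 16750112) (l 16755240))) (b (c (l 16740440) (l 16739064)) (b (l 16748000) (l 16753528)))))))), by decide +kernel⟩

def k61_pp_022_t : ∃ t, chk3 f_pp_022_t t 70 122 3 = true :=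
  ⟨(a (b (c (a (c (l 16656648) (l 16650968)) (c (l 16664144) (b (l 16648584) (l 16660464)))) (a (c (l 16645880) (l 16642368)) (c (l 16655320) (l 16650824)))) (c (a (c (b (l 16668760) (l 16680376)) (b (l 16664728) (l 16676784))) (b (c (l 16676096) (l 16672368)) (c (l 16687600) (l 16684304)))) (a (b (c (l 16660640) (l 16656496)) (c (l 16673144) (l 16669456))) (b (c (l 16668584) (l 16664752)) (c (l 16680968) (l 16677576)))))) (b (c (a (c (l 16671512) (b (l 16656312) (l 16668072))) (c (l 16678744) (b (l 16663904) (l 16675544)))) (a (c (l 16663304) (l 16659112)) (b (l 16657816) (l 16670096)))) (c (c (a (b (l 16683304) (l 16694696)) (b (l 16690368) (l 16701664))) (a (b (l 16679864) (l 16691688)) (b (l 16687216) (l 16698928)))) (a (b (c (l 16676376) (l 16672848)) (c (l 16688632) (l 16685536))) (b (c (l 16684016) (l 16680776)) (c (l 16696152) (l 16693336))))))), by decide +kernel⟩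

def k62_pp_022_t : ∃ t, chk3 f_pp_022_t t 70 123 3 = true :=
  ⟨(a (c (b (a (b (c (l 16692064) (l 16688912)) (c (l 16703840) (l 16701136))) (b (c (l 16699184) (l 16696320)) (c (l 16710856) (l 16708424)))) (a (b (c (a (l 16713976) (l 16717456)) (a (l 16711648) (l 16715264))) (a (c (l 16725976) (l 16724096)) (c (l 16729408) (l 16727656)))) (b (c (a (l 16720912) (l 16724328)) (a (l 16718848) (l 16722400))) (c (a (l 16732800) (l 16736168)) (a (l 16731184) (l 16734672)))))) (b (a (b (a (l 16682128) (l 16686088)) (a (l 16695056) (l 16698952))) (c (b (l 16693416) (l 16705960)) (b (l 16690472) (l 16703472)))) (a (b (a (l 16710712) (c (l 16713040) (l 16710792))) (a (c (l 16722184) (l 16720256)) (c (l 16725880) (l 16724088)))) (b (a (c (l 16716768) (l 16714648)) (c (l 16720448) (l 16718472))) (a (b (l 16725456) (l 16731976)) (b (l 16729160) (l 16735648))))))) (c (b (a (c (b (l 16706168) (l 16717728)) (b (l 16703584) (l 16715568))) (c (b (l 16713024) (l 16727096)) (b (l 16710704) (l 16722576)))) (a (a (b (c (l 16727712)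 (l 16725912)) (b (l 16735808) (l 16741832))) (b (c (l 16731064) (l 16729392)) (a (l 16741336) (l 16732520)))) (a (b (c (l 16734384) (l 16732840)) (a (l 16734184) (l 16735840))) (b (c (l 16737664) (l 16736248)) (c (l 16738800) (l 16737808)))))) (b (b (c (a (l 16700960) (l 16708352)) (a (l 16698304) (l 16705968))) (a (a (l 16710400) (l 16714144)) (a (l 16717840) (l 16721504)))) (b (a (c (a (l 16724096) (l 16727704)) (a (l 16722248) (l 16725992))) (a (b (l 16727320) (l 16733664)) (b (l 16730936) (l 16737248)))) (a (a (b (l 16732824) (l 16739280)) (a (l 16728280) (l 16730072))) (a (c (l 16733320) (l 16732168)) (c (l 16736792) (l 16735768)))))))), by decide +kernel⟩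

def k63_pp_022_t : ∃ t, chk3 f_pp_022_t t 284 61 1 = true :=
  ⟨(b (c (b (c (c (l 16694104) (l 16690800)) (c (l 16692696) (l 16689296))) (c (b (l 16709696) (a (l 16715400) (l 16718336))) (b (a (l 16699936) (l 16703168)) (a (l 16710536) (l 16713720))))) (b (c (c (l 16683224) (b (l 16671352) (l 16682872))) (b (l 16665704) (l 16677856))) (c (b (c (l 16697312) (l 16694432)) (c (l 16708496) (l 16706024))) (b (c (l 16691512) (l 16688552)) (c (l 16703520) (l 16700984)))))) (b (b (c (c (a (l 16725280) (l 16728168)) (a (l 16721208) (l 16724344))) (c (c (l 16719744) (l 16717688)) (a (l 16712712) (l 16716360)))) (a (c (c (l 16735248) (l 16731968)) (c (l 16731216) (l 16727752))) (c (c (l 16738104) (l 16735064)) (c (a (l 16731104) (l 16732760)) (a (l 16727824) (l 16729608)))))) (c (b (c (c (b (l 16744832) (l 16749784)) (b (l 16743568) (l 16748712))) (a (b (l 16740104) (l 16745560)) (b (l 16743160) (l 16748592)))) (c (a (c (l 16748024) (l 16749816)) (b (l 16755704) (l 16755544))) (a (c (l 16743728) (l 16742872)) (c (l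 16746664) (l 16745920))))) (b (c (c (b (l 16739664) (l 16745408)) (b (l 16738328) (l 16744280))) (a (b (l 16734512) (l 16740792)) (b (l 16738048) (l 16744296)))) (c (c (a (l 16742000) (l 16745168)) (a (l 16741120) (l 16744400))) (a (c (l 16740232) (l 16739328)) (c (l 16743624) (l 16742840)))))))), by decide +kernel⟩

def k64_pp_022_t : ∃ t, chk3 f_pp_022_t t 285 61 1 = true :=
  ⟨(b (c (b (c (c (l 16705232) (l 16702192)) (c (l 16699112) (l 16695984))) (c (b (a (l 16711512) (l 16714432)) (a (l 16721240) (l 16724128))) (b (a (l 16706376) (l 16709552)) (a (l 16716880) (l 16720008))))) (b (b (c (l 16680368) (l 16673440)) (c (a (l 16689824) (l 16693320)) (l 16685464))) (c (c (b (l 16704112) (l 16715192)) (b (l 16701504) (l 16712976))) (c (b (l 16698856) (l 16710736)) (b (l 16696168) (l 16708472)))))) (b (c (c (b (a (l 16731040) (l 16733880)) (a (l 16743552) (l 16746352))) (a (b (l 16727456) (l 16738120)) (b (l 16730536) (l 16741152)))) (c (c (b (l 16726336) (a (l 16735960) (l 16739168))) (b (l 16724528) (b (l 16733248)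 (l 16739096)))) (b (a (l 16719976) (l 16723552)) (a (b (l 16729184) (l 16735352)) (b (l 16732712) (l 16738848)))))) (b (c (c (a (b (l 16748408) (l 16753424)) (b (l 16751184) (l 16756176))) (a (b (l 16746184) (l 16751592)) (b (l 16749184) (l 16754560)))) (c (c (c (l 16738672) (l 16738176)) (c (l 16737672) (l 16737168))) (a (b (l 16741544) (l 16747768)) (a (l 16736760) (l 16738472))))) (b (c (a (c (l 16758464) (l 16757016)) (c (l 16755952) (l 16759968))) (c (c (l 16752232) (l 16746288)) (a (l 16743528) (l 16746920)))) (a (c (c (l 16758280) (l 16757232)) (c (l 16756152) (l 16755040))) (c (c (l 16760992) (l 16760152)) (c (l 16759288) (l 16758400)))))))), by decide +kernel⟩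

def k65_pp_022_t : ∃ t, chk3 f_pp_022_t t 286 61 1 = true :=
  ⟨(b (c (b (c (c (l 16711024) (l 16705616)) (b (l 16693592) (l 16703912))) (c (b (a (l 16717328) (l 16720200)) (a (l 16726984) (l 16729816))) (c (b (l 16715400) (l 16725592)) (b (l 16713112) (l 16723688))))) (b (b (c (l 16687392) (l 16681024)) (c (a (l 16696776) (l 16700200)) (l 16694888))) (c (c (b (l 16710784) (l 16721752)) (b (l 16708432) (l 16719792))) (c (b (l 16706048) (l 16717808)) (b (l 16703632) (l 16715800)))))) (b (c (c (b (a (l 16736696) (l 16739488)) (a (b (l 16744048) (l 16748976)) (b (l 16746808) (l 16751720)))) (b (a (l 16733584) (l 16736608)) (a (b (l 16741504) (l 16746816)) (b (l 16744488) (l 16749776))))) (c (c (b (l 16732792) (b (l 16741128) (l 16746720))) (b (l 16731224) (b (l 16739864) (l 16745648)))) (a (b (l 16727088) (b (l 16736200) (l 16742304))) (b (l 16730584) (b (l 16739648) (l 16745720)))))) (b (c (c (a (c (l 16746320) (l 16756016)) (c (l 16748976) (l 16748296))) (a (b (l 16752144) (l 16757504)) (c (l 16747608) (l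 16746912)))) (c (c (c (l 16744856) (l 16744472)) (c (l 16744088) (l 16743696))) (a (c (l 16741448) (l 16740592)) (c (l 16744760) (l 16744024))))) (c (c (b (a (l 16758656) (l 16761336)) (a (l 16763680) (l 16766336))) (b (c (l 16756696) (l 16756240)) (a (l 16763048) (l 16765912)))) (a (b (c (l 16756600) (l 16755528)) (c (l 16762400) (l 16760416))) (b (c (l 16759696) (l 16758848)) (c (l 16765472) (c (l 16759888) (l 16759664))))))))), by decide +kernel⟩

def k66_pp_022_t : ∃ t, chk3 f_pp_022_t t 287 122 1 = true :=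
  ⟨(c (b (a (c (l 16711384) (l 16706120)) (c (l 16715576) (l 16710560))) (c (c (b (l 16725448) (l 16734816)) (b (l 16723464) (l 16733200))) (c (b (l 16721448) (l 16731552)) (b (l 16719400) (l 16729880))))) (b (c (b (l 16694280) (c (l 16706504) (l 16704016))) (b (l 16688456) (c (l 16701496) (l 16698936)))) (b (c (c (l 16717328) (l 16715224)) (a (l 16710240) (l 16713784))) (c (c (l 16728192) (l 16726472)) (a (l 16722104) (l 16725592)))))), by decide +kernel⟩

def k67_pp_022_t : ∃ t, chk3 f_pp_022_t t 287 123 1 = true :=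
  ⟨(b (c (c (a (b (l 16742256) (b (l 16749544) (l 16754432))) (b (l 16744992) (b (l 16752256) (l 16757120)))) (b (a (l 16739592) (l 16742552)) (a (b (l 16747440) (l 16752704)) (b (l 16750368) (l 16755600))))) (c (c (b (l 16728632) (c (l 16739888) (l 16739416))) (b (l 16727304) (c (l 16738952) (l 16738472)))) (a (b (l 16734040) (b (l 16743056) (l 16749096))) (b (l 16726976) (b (l 16746432) (l 16752440)))))) (b (c (c (a (c (l 16756848) (l 16751032)) (c (l 16759456) (l 16753744))) (a (c (l 16750448) (l 16749856)) (c (l 16753264) (l 16752776)))) (c (c (a (l 16749256) (l 16752280)) (a (l 16748648) (l 16751784))) (a (c (l 16748032) (l 16747408)) (c (l 16751272) (l 16750760))))) (c (b (c (a (l 16763992) (l 16766616)) (a (l 16763384) (l 16766216))) (a (c (a (l 16763072) (a (l 16764056) (l 16769904))) (a (l 16762792) (l 59827538599))) (a (b (l 16769600) (c (b (l 16776680) (l 114588387591)) (b (l 16776640) (l 113514645847)))) (b (c (l 16776144) (l 16776064)) (a (a (l 130694514967) (l 191360927623)) (l 4)))))) (a (c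 (b (l 16762768) (a (l 16762512) (l 58216924839))) (b (l 16762128) (a (l 16762216) (a (l 16763432) (l 58753796823))))) (b (c (l 16765800) (l 16765376)) (b (a (l 16769248) (c (l 63585633719) (b (l 16775232) (l 16776600)))) (b (a (c (l 16776600) (l 16776552)) (c (l 126936418503) (c (l 126936418247) (l 138210707223)))) (c (a (l 121567709383) (l 4)) (l 301419459847))))))))), by decide +kernel⟩

def k68_pp_022_t : ∃ t, chk3 f_pp_022_t t 68 248 2 = true :=
  ⟨(a (c (c (b (a (a (l 16694168) (l 16697448)) (a (l 16700696) (l 16703928))) (a (a (l 16705256) (l 16708496)) (a (l 16711712) (l 16714896)))) (b (a (a (l 16690592) (l 16694024)) (a (l 16697432) (l 16700808))) (a (a (l 16702176) (l 16705560)) (a (l 16708920) (l 16712256))))) (a (b (a (c (l 16686968) (l 16683296)) (c (l 16690560) (l 16687040))) (a (c (l 16699040) (l 16695872)) (c (l 16702584) (l 16699560)))) (b (c (a (l 16694120) (l 16697648)) (a (l 16690760) (l 16694440))) (a (c (l 16706096) (l 16703224)) (c (l 16709576) (l 16706856)))))) (c (a (b (a (c (l 16707128)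 (l 16704160)) (c (l 16710304) (l 16707480))) (a (c (l 16718064) (l 16715560)) (c (l 16721200) (l 16718848)))) (b (a (c (l 16713456) (l 16710776)) (c (l 16716584) (l 16714048))) (a (c (l 16724312) (l 16722096)) (c (l 16727400) (l 16725320))))) (a (b (a (c (l 16701144) (l 16698088)) (c (l 16704616) (l 16701712))) (a (c (l 16713032) (l 16710456)) (c (l 16716456) (l 16714032)))) (b (a (c (l 16708056) (l 16705304)) (c (l 16711472) (l 16708864))) (a (c (l 16719848) (l 16717568)) (c (l 16723216) (l 16721072))))))), by decide +kernel⟩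

def k69_pp_022_t : ∃ t, chk3 f_pp_022_t t 68 249 2 = true :=
  ⟨(a (c (a (a (b (c (l 16716448) (l 16713848)) (c (b (l 16724896) (l 16730568)) (b (l 16722672) (l 16728576)))) (b (c (l 16719648) (l 16717192)) (c (b (l 16728072) (l 16733712)) (b (l 16725984) (l 16731872))))) (a (b (c (l 16722816) (l 16720512)) (c (b (l 16731216) (l 16736840)) (b (l 16729264) (l 16735136)))) (b (c (l 16728592) (l 16726424)) (c (b (l 16734328) (l 16739936)) (b (l 16732520) (l 16738368)))))) (a (a (b (c (l 16711216) (l 16711160)) (c (b (l 16720408) (l 16726568)) (b (l 16718112) (l 16724520)))) (b (c (l 16714704) (l 16714808)) (c (b (l 16723864) (l 16730000)) (b (l 16721712) (l 16728096))))) (c (b (a (l 16720792) (l 16724224)) (a (b (l 16727288) (l 16733400)) (b (l 16730688) (l 16736776)))) (b (a (l 16718416) (l 16722000)) (a (b (l 16725288) (l 16731648)) (b (l 16728832) (l 16735160))))))) (a (b (c (a (c (l 16731712) (l 16729688)) (c (l 16734816) (l 16732920))) (b (a (l 16720904) (l 16724368)) (a (l 16728352) (l 16731784)))) (c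 (c (b (a (l 16737424) (l 16740496)) (a (l 16743016) (l 16746064))) (b (a (l 16735752) (l 16738960)) (a (l 16741576) (l 16744760)))) (c (b (a (l 16734056) (l 16737400)) (a (l 16740120) (l 16743440))) (b (a (l 16732344) (l 16735824)) (a (l 16738648) (l 16742104)))))) (b (c (b (a (l 16731584) (l 16734712)) (a (l 16738512) (c (l 16741056) (l 16739552)))) (b (a (l 16727792) (l 16731192)) (a (l 16735360) (c (l 16738024) (l 16736480))))) (c (a (b (c (l 16743536) (l 16742136)) (c (l 16749088) (l 16747920))) (b (c (l 16746560) (l 16745288)) (c (l 16752088) (l 16751048)))) (a (b (c (l 16740712) (l 16739272)) (c (l 16746728) (l 16745528))) (c (b (l 16743992) (l 16749992)) (b (l 16742688) (l 16748920)))))))), by decide +kernel⟩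

def k70_pp_022_t : ∃ t, chk3 f_pp_022_t t 136 124 3 = true :=
  ⟨(b (c (a (b (c (a (l 16679568) (l 16683480)) (a (l 16675792) (l 16679864))) (a (c (l 16692648) (l 16689392)) (c (l 16696504) (l 16693400)))) (b (c (a (l 16687352) (l 16691192)) (a (l 16683896) (l 16687896))) (c (a (l 16700320) (l 16704104)) (a (l 16697376) (l 16701312))))) (a (b (a (c (l 16671968) (l 16668088)) (c (l 16676200) (l 16672488))) (a (c (l 16686088) (l 16682736)) (c (l 16690256) (l 16687064)))) (b (a (c (l 16680392) (l 16676848)) (c (l 16684552) (l 16681168))) (a (c (l 16694384) (l 16691360)) (c (l 16698480) (l 16695608)))))) (c (a (c (b (a (l 16707144) (l 16711592)) (a (b (l 16715784) (l 16722448)) (b (l 16719536) (l 16726176)))) (b (a (l 16705056) (l 16709000)) (a (b (l 16713424) (l 16720352)) (b (l 16717328) (l 16724224))))) (c (b (a (b (l 16710112) (l 16716672)) (b (l 16713856) (l 16720384))) (a (b (l 16723256) (l 16729864)) (b (l 16726944) (l 16733528)))) (b (a (l 16712920) (l 16717120)) (a (b (l 16721200) (l 16728064)) (b (l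 16725032) (l 16731864)))))) (a (a (b (c (l 16702928) (l 16700104)) (c (b (l 16711040) (l 16718224)) (b (l 16708616) (l 16716064)))) (b (c (l 16707032) (l 16704368)) (c (b (l 16715096) (l 16722248)) (b (l 16712824) (l 16720248))))) (a (b (c (l 16710856) (b (l 16702312) (l 16709640))) (c (b (l 16719112) (l 16726240)) (b (l 16717000) (l 16724384)))) (b (b (l 16709064) (a (l 16713904) (l 16715944))) (c (b (l 16723096) (l 16730184)) (b (l 16721136) (l 16728480)))))))), by decide +kernel⟩

def k71_pp_022_t : ∃ t, chk3 f_pp_022_t t 137 124 3 = true :=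
  ⟨(b (c (a (b (c (a (l 16694992) (l 16698768)) (a (l 16691856) (l 16695784))) (c (a (l 16707856) (l 16711568)) (a (l 16705216) (l 16709080)))) (b (c (a (l 16702504) (l 16706216)) (a (l 16699672) (l 16703528))) (c (a (l 16715256) (l 16718904)) (a (l 16712912) (l 16716712))))) (a (b (a (c (l 16688672) (l 16685448)) (c (l 16692760) (l 16689688))) (a (c (l 16702536) (l 16699824)) (c (l 16706552) (l 16704000)))) (b (a (c (l 16696800) (l 16693888)) (c (l 16700808) (l 16698048))) (a (c (l 16710536) (l 16708128)) (c (l 16714480) (l 16712224)))))) (a (b (c (b (a (c (l 16717560) (l 16715296)) (c (l 16721240) (l 16719120))) (a (c (l 16724072) (l 16722048)) (c (l 16727720) (l 16725848)))) (b (a (l 16713152) (l 16717200)) (a (c (l 16720008) (l 16717936)) (c (l 16723944) (l 16722024))))) (c (a (b (c (l 16730600) (l 16728832)) (c (l 16737152) (l 16735640))) (b (c (l 16734216) (l 16732592)) (c (l 16740744) (l 16739368)))) (a (b (c (l 16727040) (l 16725224)) (c (l 16734096) (l 16732544))) (c (b (l 16730952) (l 16737976))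 (b (l 16729280) (l 16736560)))))) (b (c (b (a (c (l 16724880) (l 16722904)) (c (l 16728488) (l 16726656))) (a (c (l 16731328) (l 16729600)) (c (l 16734912) (l 16733320)))) (c (a (b (l 16720904) (l 16727848)) (b (l 16724800) (l 16731712))) (a (b (l 16718872) (l 16726072)) (b (l 16722920) (l 16730080))))) (b (c (a (c (l 16737808) (l 16736320)) (c (l 16741360) (l 16740016))) (a (c (l 16734816) (l 16733296)) (c (l 16738648) (l 16737272)))) (c (c (a (l 16744304) (l 16747832)) (a (l 16743064) (l 16746728))) (a (c (l 16741816) (l 16740544)) (c (l 16745616) (l 16744480)))))))), by decide +kernel⟩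

def k72_pp_022_t : ∃ t, chk3 f_pp_022_t t 136 250 2 = true :=
  ⟨(b (a (c (c (b (a (l 16736256) (l 16739384)) (a (l 16741968) (l 16745080))) (b (a (l 16734512) (l 16737784)) (a (l 16740472) (l 16743720)))) (c (b (a (l 16732744) (l 16736160)) (a (l 16738960) (l 16742344))) (b (a (l 16730960) (l 16734512)) (a (l 16737416) (l 16740944))))) (c (a (b (c (l 16742488) (l 16741024)) (c (l 16748160) (l 16746936))) (b (c (l 16745568) (l 16744240)) (c (l 16751224) (l 16750136)))) (a (b (c (l 16739536) (l 16738032)) (c (l 16745696) (l 16744440))) (b (c (l 16742888) (l 16741520)) (c (l 16749024) (l 16747904)))))) (a (a (c (b (c (l 16749016) (l 16746456)) (c (a (l 16752704) (l 16754240)) (a (l 16751664) (l 16753272)))) (b (c (l 16745192) (l 16743904)) (c (a (l 16750608) (l 16752288)) (a (l 16749544) (l 16751288))))) (c (b (c (l 16752112) (l 16750992)) (c (a (l 16755776) (l 16757304)) (a (l 16754872) (l 16756464)))) (b (c (l 16749864) (l 16748712)) (c (a (l 16753952) (l 16755616)) (a (l 16753024) (l 16754752)))))) (c (a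 (a (b (l 16753736) (c (l 16758824) (l 16758056))) (b (c (l 16754624) (l 16753672)) (b (l 16758528) (l 16761456)))) (a (b (c (l 16756144) (l 16755264)) (b (l 16760072) (l 16762992))) (b (c (l 16757656) (l 16756840)) (b (l 16761608) (l 16764528))))) (a (a (b (l 16751848) (c (l 16757272) (l 16756472))) (b (l 16753376) (b (l 16756968) (l 16760144)))) (a (b (c (l 16754368) (l 16753456)) (b (l 16758648) (l 16761808))) (b (c (l 16756008) (l 16755168)) (b (l 16760312) (l 16763472)))))))), by decide +kernel⟩

def k73_pp_022_t : ∃ t, chk3 f_pp_022_t t 137 500 2 = true :=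
  ⟨(b (a (c (a (c (l 16748624) (l 16747424)) (c (l 16751656) (l 16750584))) (a (c (l 16746208) (l 16744984)) (c (l 16749504) (l 16748408)))) (c (a (c (l 16754656) (l 16753720)) (a (l 16757784) (l 16759304))) (a (c (l 16752768) (l 16751808)) (c (l 16757320) (l 16756480))))) (a (c (a (c (l 16755568) (l 16754608)) (c (a (l 16756520) (l 16758016)) (a (l 16755656) (l 16757216)))) (a (c (l 16753632) (l 16751336)) (a (l 16755648) (a (l 16755584) (l 16756416))))) (c (a (c (b (l 16758848) (l 16761656)) (b (l 16758088) (l 16761008))) (c (c (l 16758768) (l 16757824)) (c (l 16757536) (l 16757248)))) (a (c (b (l 16757320) (l 16760352)) (b (l 16756536) (l 16759696))) (c (b (l 16760536) (l 16763560)) (b (l 16759880) (l 16763024))))))), by decide +kernel⟩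

def k74_pp_022_t : ∃ t, chk3 f_pp_022_t t 137 501 2 = true :=
  ⟨(a (a (b (c (c (b (l 16758504) (l 16761336)) (b (l 16757720) (l 16760672))) (c (b (l 16756928) (l 16760000)) (b (l 16756120) (l 16759320)))) (c (a (b (l 16763144) (l 16763432)) (b (l 16764672) (l 16764952))) (c (a (l 16758576) (l 16760192)) (a (l 16758040) (l 16759728))))) (a (b (c (b (l 16760408) (l 16763296)) (a (l 16760168) (l 16760992))) (c (c (c (l 16762688) (l 16762488)) (l 16763184)) (c (l 16761800) (l 16761400)))) (b (c (b (l 16761928) (l 16764808)) (b (l 16760664) (l 16763792))) (b (c (l 16765080) (l 16766912)) (c (a (l 16770216) (l 16770968)) (l 16767424)))))) (b (a (b (c (a (l 16763448) (l 16764952)) (a (l 16762312) (l 16763944))) (a (c (l 16766320) (l 16765424)) (c (l 16765208) (l 16767056)))) (c (c (a (l 16764144) (l 16765608)) (a (l 16762456) (l 16763984))) (c (a (l 16762080) (l 16763664)) (a (l 16761688) (l 16763336))))) (a (a (b (c (l 16766584) (l 16765928)) (c (c (l 16772200) (l 16771992)) (l 16769048))) (b (c (l 16768080) (l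 16767552)) (c (c (l 16768416) (l 16768272)) (l 16770672)))) (b (a (c (l 16769576) (l 16769168)) (c (l 16771064) (l 16770776))) (a (c (c (l 16769880) (l 16769792)) (l 16771624)) (a (b (l 16772776) (b (l 16773896) (a (l 16777008) (l 78618035335)))) (b (l 16774200) (b (c (l 16777752) (l 16777088)) (l 4))))))))), by decide +kernel⟩

def k75_pp_022_t : ∃ t, chk3 f_pp_022_t t 272 502 2 = true :=
  ⟨(b (b (c (c (a (l 16757808) (l 16760864)) (a (l 16756992) (l 16760176))) (c (a (l 16756160) (l 16759480)) (a (l 16755312) (l 16758768)))) (c (a (a (l 16759584) (l 16761144)) (a (l 16762696) (l 16764904))) (a (a (l 16758096) (l 16759792)) (a (l 16761480) (l 16763160))))) (b (c (a (a (l 16763208) (c (l 16764376) (l 16763832))) (c (a (l 16765896) (l 16767408)) (a (l 16765416) (l 16766992)))) (a (a (l 16761320) (l 16763664)) (c (a (l 16764936) (l 16766576)) (a (l 16764448) (l 16766152))))) (a (c (c (a (l 16765768) (l 16767288)) (a (l 16765288) (l 16766864))) (c (a (l 16764792) (l 16766440)) (a (l 16764296) (l 16766016))))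 (a (c (c (l 16768800) (l 16768448)) (c (l 16768088) (l 16767720))) (c (c (l 16770304) (l 16770016)) (c (l 16769720) (l 16769424))))))), by decide +kernel⟩

def k76_pp_022_t : ∃ t, chk3 f_pp_022_t t 273 502 2 = true :=
  ⟨(b (b (c (a (a (l 16762848) (l 16764384)) (c (a (l 16766152) (l 16767648)) (a (l 16765688) (l 16767248)))) (a (a (l 16761648) (l 16763320)) (a (l 16764984) (l 16764016)))) (a (a (c (c (l 16766024) (l 16765552)) (l 16761560)) (c (c (l 16767528) (l 16767120)) (c (l 16766704) (l 16766288)))) (c (c (c (l 16767224) (l 16767072)) (c (l 16764296) (l 16764136))) (c (c (l 16763976) (l 16763824)) (c (l 16763664) (l 16763496)))))) (a (b (c (c (c (l 16767120) (l 16766960)) (c (l 16766800) (l 16764024))) (c (c (l 16763864) (l 16763696)) (c (l 16763536) (l 16763376)))) (a (c (c (l 16769184) (l 16766336)) (c (l 16771352) (l 16771112))) (c (c (l 16770680) (l 16767888)) (c (l 16767728) (l 16767560))))) (b (a (c (c (l 16769280) (l 16766440)) (c (l 16771456) (l 16771224))) (c (c (l 16770768) (l 16767984)) (c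 (l 16767824) (l 16767656)))) (a (c (c (l 16772168) (l 16772064)) (c (l 16769336) (l 16769232))) (b (c (l 16772888) (l 16772752)) (b (a (l 16773576) (c (l 16776920) (l 16776896))) (a (c (l 16776904) (l 16776880)) (c (a (l 16777256) (l 4)) (l 115662128407))))))))), by decide +kernel⟩

def k77_pp_022_t : ∃ t, chk3 f_pp_022_t t 272 503 2 = true :=
  ⟨(b (a (b (a (c (c (l 16768688) (l 16768328)) (c (l 16767960) (l 16767592))) (c (c (l 16770200) (l 16769904)) (c (l 16769608) (l 16769304)))) (a (c (c (l 16768992) (l 16768760)) (c (l 16765896) (l 16765656))) (c (c (l 16770504) (l 16770328)) (c (l 16767536) (l 16767360))))) (b (a (c (c (l 16769088) (l 16768856)) (c (l 16766000) (l 16765760))) (c (c (l 16770592) (l 16770424)) (c (l 16767632) (l 16767456)))) (c (a (c (l 16772008) (l 16771896)) (a (c (b (l 16775016) (l 16775144)) (l 68417479511)) (b (l 16773112) (b (l 16776808) (a (l 16777200) (l 4)))))) (a (c (l 16771784) (l 16769056)) (b (l 16772576) (a (l 79691771047) (b (l 16776776) (a (l 16777192) (l 4))))))))) (a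 (b (a (c (c (l 16771928) (l 16771816)) (c (l 16771704) (l 16771584))) (b (c (c (l 16772696) (l 16770000)) (l 16772496)) (b (a (l 16774656) (a (l 16776568) (l 16776760))) (a (c (l 16776744) (l 16776704)) (a (a (l 16777128) (l 79154906007)) (l 163980510103)))))) (b (a (b (a (l 16774624) (c (l 16775416) (l 16774064))) (c (a (l 16775400) (a (l 16777144) (l 168275477143))) (a (l 16774048) (a (l 16777136) (l 159148671719))))) (b (a (a (c (l 16777152) (l 16777144)) (l 151632479207)) (l 4)) (l 4))) (a (b (a (a (c (l 16777136) (l 16777128)) (c (l 153243091687) (l 157001188055))) (l 4)) (l 4)) (l 4)))) (b (b (a (b (a (l 16774696) (c (l 16776784) (l 16776744))) (a (c (l 16776768) (l 16776728)) (a (a (l 16777144) (l 93113549671)) (l 177402282919)))) (b (a (a (a (l 16777152) (l 95261033335)) (l 183844733831)) (l 4)) (l 4))) (b (a (a (a (a (l 16777136) (l 82376131495)) (l 166664864679)) (l 4)) (l 4)) (l 4))) (l 4)))), by decide +kernel⟩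

def k78_pp_022_t : ∃ t, chk3 f_pp_022_t t 273 503 2 = true :=
  ⟨(b (a (a (a (b (c (l 16771648) (l 16771408)) (a (b (l 16773648) (b (a (l 16777176) (l 16777624)) (l 4))) (b (c (l 16776656) (l 16776608)) (l 4)))) (b (c (l 16772416) (l 16772232)) (b (b (c (l 16776840) (l 16776808)) (a (a (l 16777184) (l 16777592)) (l 4))) (l 4)))) (b (b (c (l 16773464) (l 16772664)) (b (a (l 16774808) (c (l 16776864) (l 16776832))) (a (c (l 16776856) (l 16776824)) (a (a (l 16777200) (l 16777600)) (l 4))))) (a (a (b (b (a (l 16777192) (l 16777592)) (l 4)) (l 4)) (l 4)) (l 4)))) (b (b (a (b (a (l 16774848) (c (l 16776896) (l 16776864))) (a (c (l 16776880) (l 16776848)) (a (a (l 16777216) (l 16777608)) (l 4)))) (b (a (a (a (l 16777224) (l 16777616)) (l 4)) (l 4)) (l 4))) (b (b (a (a (a (l 16777184) (l 4)) (l 4)) (l 4)) (l 4)) (l 4))) (l 4))) (l 4)), by decide +kernel⟩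

def k79_pp_022_t : ∃ t, chk3 f_pp_022_t t 274 502 2 = true :=
  ⟨(b (a (b (a (c (c (l 16769136) (l 16768800)) (l 16765664)) (c (c (l 16770624) (l 16770344)) (l 16767304))) (c (c (a (l 16766760) (l 16770856)) (c (l 16769976) (l 16767264))) (c (c (l 16767168) (l 16767072)) (c (l 16766976) (l 16766880))))) (b (a (c (c (l 16766856) (l 16771888)) (l 16768936)) (c (c (l 16768328) (l 16768176)) (l 16769912))) (a (c (c (l 16772328) (l 16769616)) (c (l 16769520) (l 16769424))) (a (b (l 16772600) (a (l 16775216) (b (l 16776552) (l 46405779975)))) (b (l 16774688) (b (c (l 16777016) (l 16777000)) (c (l 161296155687) (l 163443639335)))))))) (a (a (a (a (b (l 16771512) (b (l 16773792) (b (l 108682806327) (l 4)))) (b (l 16771904) (b (b (l 16776432) (l 16777744)) (l 4)))) (b (c (l 16772576) (l 16769784)) (b (b (a (l 16776816) (l 16777752)) (c (l 131768255623) (l 126399546583))) (l 4)))) (b (a (b (l 16773168) (a (l 16773832) (b (l 16776472) (l 16777760)))) (b (l 16773952) (b (a (l 16776848) (l 16777768)) (c (l 142505673815)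 (l 138747577495))))) (a (a (a (c (l 253101081079) (l 256322306551)) (l 4)) (l 4)) (l 4)))) (b (a (b (b (a (l 16773696) (c (l 16776992) (l 16776976))) (a (c (l 16776984) (l 16776960)) (c (l 148411253863) (l 150021866599)))) (a (a (b (l 137673835447) (l 4)) (l 4)) (l 4))) (a (a (c (l 260617273911) (l 263838499383)) (l 4)) (l 4))) (l 4)))), by decide +kernel⟩

def k80_pp_022_t : ∃ t, chk3 f_pp_022_t t 275 502 2 = true :=
  ⟨(b (a (a (b (c (c (l 16769792) (l 16769704)) (l 16771528)) (a (b (a (l 16775248) (b (l 16776592) (l 51237618871))) (c (l 256859177335) (l 187602830679))) (b (b (c (l 16777696) (l 16777024)) (c (l 175254799335) (l 179012895703))) (l 4)))) (a (b (b (l 16772688) (a (l 16775936) (b (l 16776632) (l 60901295255)))) (c (l 266522854039) (l 270280950423))) (b (b (l 16773464) (b (c (l 16777720) (l 16777048)) (c (l 191360926663) (l 194045281223)))) (l 4)))) (b (b (a (b (a (l 16773856) (a (l 16777000) (l 75933680759))) (a (a (l 16776984) (l 66270004407)) (l 4))) (l 4)) (l 4)) (l 4))) (l 4)), by decide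 +kernel⟩

def k81_pp_022_t : ∃ t, chk3 f_pp_022_t t 137 503 2 = true :=
  ⟨(l 4), by decide +kernel⟩

def k82_pp_022_t : ∃ t, chk3 f_pp_022_t t 136 250 3 = true :=
  ⟨(a (c (b (c (b (a (l 16729144) (l 16732840)) (a (l 16735856) (l 16739528))) (b (a (l 16727304) (l 16731144)) (a (l 16734280) (l 16738088)))) (c (b (a (a (l 16741688) (l 16743512)) (a (l 16745336) (l 16747144))) (c (a (l 16749632) (l 16753208)) (a (l 16749104) (l 16752752)))) (b (a (l 16742592) (a (l 16744120) (l 16746000))) (a (a (l 16747360) (l 16749248)) (b (l 16750304) (l 16753816)))))) (b (a (b (c (l 16725440) (l 16723544)) (c (l 16732672) (l 16731048))) (b (c (l 16729432) (l 16727688)) (c (l 16736632) (l 16735160)))) (c (b (a (a (l 16738952) (l 16740928)) (a (l 16742888) (l 16744848))) (a (a (l 16746248) (l 16748208)) (b (l 16749312) (l 16752944)))) (b (a (a (l 16737560) (l 16739608)) (a (l 16741640) (l 16743672))) (a (a (l 16745120) (l 16747152)) (b (l 16748296) (l 16752064))))))) (c (b (a (b (c (l 16736504) (l 16734952)) (c (l 16743160)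 (l 16741872))) (b (c (l 16740136) (l 16738728)) (c (l 16748080) (l 16746928)))) (a (a (b (c (l 16748952) (l 16747880)) (c (l 16755672) (l 16754856))) (b (c (l 16750744) (l 16749744)) (a (l 16752696) (l 16753600)))) (a (b (c (l 16752536) (l 16751600)) (a (l 16754504) (l 16755408))) (b (c (l 16754312) (l 16753448)) (a (l 16754992) (l 16755888)))))) (b (a (b (c (l 16733384) (l 16731792)) (c (l 16741872) (l 16740544))) (b (c (l 16737304) (l 16735856)) (c (a (l 16743480) (l 16745408)) (a (l 16742256) (l 16744264))))) (b (a (c (a (l 16746792) (l 16748728)) (a (l 16745688) (l 16747696))) (c (b (l 16749816) (l 16753408)) (b (l 16748832) (l 16752552)))) (b (a (a (l 16751760) (l 16753720)) (c (l 16757008) (l 16752344))) (a (a (l 16755448) (l 16757400)) (a (l 16759344) (l 16756032)))))))), by decide +kernel⟩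

def k83_pp_022_t : ∃ t, chk3 f_pp_022_t t 274 250 3 = true :=
  ⟨(b (a (c (b (c (l 16743736) (l 16742464)) (c (a (l 16749448) (l 16751224)) (a (l 16748400) (l 16750248)))) (b (c (l 16741184) (l 16739888)) (a (c (l 16747336) (l 16746256)) (c (l 16749248) (l 16748248))))) (c (b (c (l 16747296) (l 16746168)) (c (b (l 16752224) (l 16755520)) (b (l 16751288) (l 16754704)))) (b (c (l 16745024) (l 16745184)) (c (b (l 16750336) (l 16753880)) (b (l 16749368) (l 16753040)))))) (b (b (c (a (c (l 16755304) (l 16754480)) (c (l 16758824) (l 16758136))) (a (a (l 16752248) (l 16754192)) (a (l 16756120) (l 16758040)))) (c (a (c (l 16758632) (l 16757928)) (a (l 16760960) (l 16762736))) (a (a (l 16755896) (l 16757824)) (c (l 16755744) (l 16755168))))) (a (c (c (a (l 16757504) (l 16759256)) (a (l 16756960) (l 16758776))) (a (c (l 16756408) (l 16755848)) (b (l 16761464) (l 16762496)))) (c (c (a (l 16760992) (l 16762728)) (a (l 16760584) (l 16762384))) (a (b (l 16758136) (l 16763088)) (b (l 16760040) (l 16764976))))))), by decide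 +kernel⟩

def k84_pp_022_t : ∃ t, chk3 f_pp_022_t t 275 250 3 = true :=
  ⟨(b (c (c (b (a (l 16752136) (b (l 16752704) (l 16755952))) (a (b (l 16755736) (l 16759016)) (b (l 16759216) (l 16762480)))) (b (a (l 16749840) (b (l 16751784) (l 16755160))) (a (b (l 16754936) (l 16758336)) (c (l 16755152) (l 16754840))))) (a (b (a (c (l 16747888) (l 16746832)) (c (l 16749784) (l 16748800))) (c (b (l 16754120) (l 16757648)) (c (l 16750064) (l 16749680)))) (b (c (b (l 16750856) (l 16754352)) (b (l 16749912) (l 16753536))) (c (c (l 16754528) (l 16754216)) (c (l 16753904) (l 16753592)))))) (b (a (c (c (c (l 16758832) (l 16758584)) (c (l 16758336) (l 16758088))) (c (a (l 16756776) (l 16758640)) (a (l 16756232) (l 16758160)))) (c (c (a (l 16761296) (l 16763008)) (a (l 16760896) (l 16762672))) (c (a (l 16760496) (l 16762336)) (a (l 16760080) (l 16761992))))) (a (a (c (c (l 16764448) (l 16764168)) (c (l 16763888) (c (l 16763672) (l 16763520)))) (b (c (l 16764376) (l 16766432)) (c (l 16770360) (c (l 16767504) (l 16767344)))))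 (b (a (c (l 16766120) (l 16767000)) (c (l 16770480) (l 16768864))) (a (c (l 16771440) (c (l 16769336) (l 16769248))) (a (b (l 16772480) (a (a (l 16771248) (l 94187287095)) (b (l 16776632) (a (l 16777184) (l 16777264))))) (b (l 54995707687) (b (c (c (l 16777072) (l 16777072)) (c (l 16777064) (l 125325803239))) (l 4))))))))), by decide +kernel⟩

def k85_pp_022_t : ∃ t, chk3 f_pp_022_t t 136 1004 3 = true :=
  ⟨(b (a (a (c (c (l 16754456) (l 16753592)) (a (l 16751280) (l 16753264))) (a (c (l 16756776) (l 16755232)) (c (l 16758600) (l 16757192)))) (c (a (a (l 16760416) (l 16759600)) (a (l 16761392) (l 16763184))) (a (a (l 16753904) (l 16758472)) (a (l 16759096) (l 16761016))))) (a (c (a (a (l 16756576) (l 16758408)) (a (l 16757616) (l 16759424))) (a (a (l 16755016) (l 16754368)) (a (l 16755016) (c (l 16761192) (l 16760616))))) (a (a (c (l 16761232) (c (l 16763104) (l 16762592))) (c (l 16761720) (c (l 16765008) (l 16764560)))) (a (c (l 16763512) (c (l 16766896) (l 16766520))) (c (l 16765296) (c (l 16768776) (l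 16768472))))))), by decide +kernel⟩

def k86_pp_022_t : ∃ t, chk3 f_pp_022_t t 136 1005 3 = true :=
  ⟨(b (a (c (a (c (a (l 16760376) (l 16762168)) (a (l 16759736) (l 16761592))) (c (a (l 16763944) (l 16765720)) (a (l 16763448) (l 16765288)))) (a (c (a (l 16759080) (l 16761016)) (a (l 16758424) (l 16760424))) (c (a (l 16762936) (l 16764848)) (c (l 16758288) (l 16758048))))) (a (c (c (c (l 16763208) (l 16763040)) (c (l 16762872) (l 16762704))) (c (c (l 16762536) (l 16762368)) (c (l 16762192) (l 16762024)))) (a (c (c (l 16770992) (l 16765520)) (c (l 16765280) (l 16765040))) (c (c (l 16767496) (l 16767328)) (c (l 16767152) (l 16766984)))))) (b (a (c (a (a (l 16762664) (l 16764488)) (c (l 16764768) (l 16764392))) (a (a (l 16761568) (l 16763528)) (a (l 16765472) (l 16764792)))) (a (a (a (l 16766536) (l 16767624)) (c (l 16769056) (l 16768640))) (c (c (l 16771776) (l 16770360)) (a (l 16770552) (l 16772456))))) (a (a (a (a (l 16760832) (l 16761784)) (c (l 16766224) (l 16765400))) (a (c (l 16768032) (l 16764720)) (c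 (l 16767216) (l 16766656)))) (a (a (c (l 16769000) (l 16768584)) (c (l 16770784) (l 16770496))) (a (c (l 16772560) (l 16772408)) (b (a (l 16773408) (a (l 16774088) (a (l 16777000) (l 16777624)))) (a (c (l 16776848) (c (l 16776832) (l 16776816))) (a (a (l 95797904199) (l 172033573591)) (l 4))))))))), by decide +kernel⟩

def k87_pp_022_t : ∃ t, chk3 f_pp_022_t t 272 1006 3 = true :=
  ⟨(a (b (a (c (c (l 16767216) (l 16766840)) (c (l 16766456) (l 16766064))) (c (c (l 16768992) (l 16768680)) (c (l 16768368) (l 16762808)))) (a (c (c (l 16765408) (l 16765160)) (c (l 16764904) (l 16767272))) (c (c (l 16767176) (l 16766992)) (c (l 16766808) (l 16769248))))) (b (a (c (c (l 16765520) (l 16765280)) (c (l 16765032) (l 16764776))) (c (c (l 16767280) (l 16767104)) (c (l 16766920) (l 16766744)))) (a (a (c (l 16768432) (l 16770792)) (c (l 16771952) (a (l 16768888) (l 16769368)))) (a (c (c (l 16772856) (l 61438155991)) (b (l 16769152) (c (l 16773632) (l 77007416183)))) (a (b (l 16772568) (b (l 16771304) (c (l 16777184) (a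 (l 16777144) (l 16777248))))) (b (l 16773032) (b (c (l 16776944) (l 16776928)) (l 4)))))))), by decide +kernel⟩

def k88_pp_022_t : ∃ t, chk3 f_pp_022_t t 272 1007 3 = true :=
  ⟨(a (b (a (c (c (l 16768848) (l 16768728)) (a (l 16770680) (l 16771648))) (c (b (l 16772328) (a (l 72712448903) (b (l 16775368) (a (l 16777144) (l 185992217255))))) (b (c (l 16769584) (l 16769496)) (a (c (l 16773552) (l 16774176)) (a (a (l 105461576295) (b (l 16776552) (l 16777216))) (b (l 16776864) (l 176865411831))))))) (b (a (a (c (l 16774560) (c (l 16773520) (l 16773480))) (b (c (l 16774024) (l 83449868695)) (a (c (l 16777128) (c (l 16777120) (l 61438163159))) (c (l 161833026279) (l 164517380839))))) (a (a (b (c (l 16777136) (c (l 16777128) (l 63048778535))) (l 4)) (c (l 191897797655) (l 267059724599))) (l 4))) (a (a (b (a (c (l 16777120) (c (l 16777112) (l 126399545207))) (c (l 148411253543) (l 151632479015))) (l 4)) (l 4)) (l 4)))) (b (a (a (a (b (l 16773408) (b (c (l 16777160) (c (l 16777152) (l 79691776695))) (l 4))) (c (b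 (l 16773864) (l 201024603127)) (b (l 16775120) (l 274575917367)))) (b (b (c (l 16775400) (c (l 16776680) (l 16774040))) (a (c (l 16777168) (a (l 16777128) (l 16777232))) (c (l 207467053655) (l 197803377319)))) (l 4))) (a (a (b (b (b (l 129620770279) (l 189750313591)) (l 4)) (l 4)) (c (l 279407755863) (l 284239594055))) (l 4))) (l 4))), by decide +kernel⟩

def k89_pp_022_t : ∃ t, chk3 f_pp_022_t t 273 503 3 = true :=
  ⟨(b (a (b (a (c (c (l 16769032) (l 16768920)) (a (l 16770896) (l 16771856))) (b (c (l 16772512) (l 16772352)) (a (c (c (l 16773768) (l 16773736)) (c (l 16774360) (l 83449867271))) (b (a (l 16774008) (a (l 16776936) (l 115662126695))) (a (c (l 16777216) (l 75396808455)) (l 4)))))) (b (a (a (c (c (l 16773736) (l 16773704)) (c (l 16773672) (l 80228641719))) (b (c (l 16775464) (c (l 16776744) (l 16775416))) (a (a (a (l 16777152) (l 16777536)) (l 121030837047)) (l 4)))) (b (b (a (a (l 53921972423) (l 4)) (l 4)) (l 4)) (l 4))) (b (b (a (a (a (a (l 16777088) (l 16777208)) (l 4)) (l 4)) (l 4)) (l 4))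 (l 4)))) (b (b (b (a (a (l 16774672) (a (l 16774048) (b (l 16776896) (l 63585649575)))) (a (a (a (l 74859938775) (l 167738606279)) (l 4)) (l 4))) (a (a (c (l 16776816) (c (l 16776800) (l 16775472))) (a (b (l 62511907735) (l 4)) (l 4))) (l 4))) (b (b (a (a (a (l 59290682247) (l 4)) (l 4)) (l 4)) (l 4)) (l 4))) (l 4))) (l 4)), by decide +kernel⟩

def k90_pp_022_t : ∃ t, chk3 f_pp_022_t t 274 502 3 = true :=
  ⟨(b (a (b (a (c (l 16764960) (c (l 16767048) (l 16766680))) (c (l 16766736) (c (l 16768920) (l 16768616)))) (a (c (l 16767720) (c (l 16765408) (l 16765168))) (c (c (l 16767600) (l 16767440)) (c (l 16767272) (l 16767104))))) (a (c (c (l 16768312) (c (l 16767536) (l 16767456))) (c (b (l 16765536) (l 16769120)) (b (l 16765304) (l 16769024)))) (b (c (l 16768944) (c (l 16767384) (l 16767224))) (a (b (l 16772928) (b (l 16773592) (a (l 16775528) (a (l 16777096) (l 16777696))))) (b (l 16773832) (b (a (l 16775544) (a (l 16777104) (l 16777704))) (c (l 167201735703) (l 170422961175)))))))) (a (b (b (c (a (l 16770944)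 (l 16772696)) (a (l 16770664) (l 16772560))) (a (c (l 16772648) (l 16772504)) (b (a (l 16773504) (a (l 16774160) (a (l 16777056) (l 16777664)))) (a (c (l 16776912) (a (l 16776752) (l 16777072))) (c (l 140895061143) (c (l 143579415543) (l 145190028279))))))) (b (b (a (a (l 16773456) (a (l 16774128) (a (l 16777024) (l 16777640)))) (a (a (a (l 103314097015) (l 4)) (l 4)) (l 4))) (a (a (c (l 16776880) (c (l 16776864) (l 16776848))) (a (a (l 101166613351) (l 204782699079)) (l 4))) (l 4))) (a (a (a (b (a (l 88818582439) (l 189213442695)) (l 4)) (l 4)) (l 4)) (l 4)))) (b (b (b (a (a (l 16773552) (a (l 16774200) (a (l 16777080) (l 16777688)))) (a (c (l 155927446631) (l 158611801191)) (l 4))) (a (a (c (l 6677331335) (c (l 16776920) (l 16776912))) (c (l 161296155655) (c (l 158074930103) (l 159685542839)))) (l 4))) (a (a (c (c (l 172570445015) (l 173644186839)) (l 251490468167)) (l 4)) (l 4))) (l 4)))), by decide +kernel⟩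

def k91_pp_022_t : ∃ t, chk3 f_pp_022_t t 275 502 3 = true :=
  ⟨(b (a (b (a (c (l 16771344) (c (l 16769232) (l 16769136))) (a (b (l 16772376) (b (l 16773688) (c (l 110830288391) (a (l 16776896) (l 16777168))))) (b (l 16773280) (b (a (l 16776600) (a (l 16777152) (l 16777576))) (c (l 196729635783) (l 201024603063)))))) (b (a (b (a (l 16773640) (a (l 16775584) (a (l 16777128) (l 16777560)))) (a (a (l 16775568) (a (l 16777112) (l 16777552))) (c (l 187602830295) (l 189750313943)))) (a (c (l 201561474311) (l 274039046519)) (l 4))) (a (a (a (b (l 161296155623) (l 4)) (l 4)) (l 4)) (l 4)))) (b (b (a (a (b (l 16773736) (a (l 16776616) (a (l 16777160) (l 16777576)))) (b (c (c (l 16777048) (l 16777040)) (c (l 16777032) (l 113514643127))) (l 4))) (l 4)) (l 4)) (l 4))) (l 4)), by decide +kernel⟩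

def k92_pp_022_t : ∃ t, chk3 f_pp_022_t t 137 503 3 = true :=
  ⟨(l 4), by decide +kernel⟩

def k93_pp_022_t : ∃ t, chk3 f_pp_022_t t 138 124 2 = true :=
  ⟨(b (c (a (b (a (c (l 16719688) (l 16717288)) (c (l 16722768) (l 16720504))) (a (c (l 16730464) (l 16728520)) (c (l 16733504) (l 16731696)))) (b (a (c (l 16725824) (l 16723696)) (c (l 16728848) (l 16726856))) (a (c (l 16736520) (l 16734840)) (c (l 16742128) (l 16740576))))) (a (b (a (c (l 16714856) (l 16712392)) (c (l 16718208) (l 16715888))) (a (c (l 16726552) (l 16724552)) (c (l 16729856) (l 16728000)))) (b (a (c (l 16721536) (l 16719352)) (c (l 16724832) (l 16722784))) (a (c (l 16733136) (l 16731408)) (c (l 16736384) (l 16734792)))))) (b (b (a (c (a (l 16739120) (l 16742200)) (a (l 16735872) (l 16739216))) (c (a (l 16745576) (c (l 16747560) (l 16746344))) (a (l 16742520) (c (l 16745112) (l 16743864))))) (a (c (a (c (l 16744072) (l 16742696)) (c (l 16747056) (l 16745816))) (a (c (l 16741304) (l 16739896)) (c (l 16744552) (l 16743272)))) (c (c (a (l 16750024)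 (l 16752960)) (a (l 16748904) (l 16751968))) (c (a (l 16747776) (l 16750968)) (a (l 16746624) (l 16749944)))))) (b (a (c (a (c (l 16749552) (l 16748408)) (c (l 16752520) (l 16751504))) (c (a (l 16747248) (l 16750472)) (a (l 16746072) (l 16749432)))) (c (a (c (l 16755464) (l 16754576)) (c (l 16758384) (l 16757616))) (a (c (l 16753672) (l 16752752)) (c (l 16756840) (l 16756048))))) (a (c (a (c (l 16755064) (l 16754144)) (c (l 16759320) (l 16757224))) (a (c (l 16753216) (l 16752280)) (c (l 16756424) (l 16755608)))) (c (a (a (l 16761168) (a (l 16760976) (l 16761720))) (c (b (l 16762472) (l 16765200)) (b (l 16761872) (l 16764712)))) (a (c (l 16754352) (l 16753664)) (c (l 16757496) (l 16756936)))))))), by decide +kernel⟩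

def k94_pp_022_t : ∃ t, chk3 f_pp_022_t t 139 248 2 = true :=
  ⟨(a (a (c (b (c (l 16731848) (l 16729992)) (c (l 16743784) (l 16742360))) (b (c (l 16728104) (l 16726184)) (c (l 16742232) (l 16740768)))) (c (b (c (l 16734832) (l 16733096)) (b (l 16742056) (l 16748792))) (b (c (l 16731344) (l 16729560)) (b (l 16739208) (l 16746384))))) (b (c (a (c (l 16737784) (l 16736176)) (c (l 16740712) (l 16739232))) (a (c (l 16734552) (l 16732904)) (c (l 16737736) (l 16736208)))) (b (c (a (l 16745040) (l 16749312)) (a (l 16742448) (l 16745656))) (a (c (c (l 16750976) (l 16749912)) (l 16749840)) (c (c (l 16753848) (l 16752912)) (c (l 16751952) (l 16750984))))))), by decide +kernel⟩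

def k95_pp_022_t : ∃ t, chk3 f_pp_022_t t 139 249 2 = true :=
  ⟨(a (b (b (c (c (a (l 16750496) (l 16753408)) (a (l 16749408) (l 16752440))) (c (a (l 16748304) (l 16751456)) (a (l 16747176) (l 16750464)))) (c (a (c (l 16755880) (l 16755008)) (c (l 16758768) (l 16758016))) (a (c (l 16754128) (l 16753232)) (c (l 16757256) (l 16756488))))) (a (b (a (c (l 16760224) (l 16758848)) (c (l 16756448) (l 16760440))) (a (c (b (l 16764376) (l 16767160)) (l 16759600)) (c (b (l 16765840) (l 16768616)) (l 16761176)))) (b (a (c (l 16757912) (l 16762024)) (c (l 16759376) (l 16758360))) (a (c (c (l 16763608) (l 16763272)) (l 16763408)) (c (c (l 16765024) (l 16764744)) (c (l 16764464) (l 16764176))))))) (a (a (b (b (c (l 16755136) (l 16753360)) (c (l 16760592) (l 16759256))) (b (c (l 16762136) (l 16759928)) (c (c (l 16766440) (l 16766216)) (c (l 16765992) (l 16765760))))) (b (b (c (l 16756600) (l 16754944)) (c (l 16762048) (l 16760824))) (b (c (l 16762928) (l 16761496)) (c (c (l 16767848) (l 16767680)) (c (l 16767512) (l 16767344))))))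 (b (b (c (c (l 16759152) (l 16758424)) (c (l 16757680) (l 16756936))) (c (c (l 16759232) (l 16758712)) (c (l 16758192) (l 16757672)))) (a (b (c (l 16764368) (l 16763048)) (a (c (l 16768832) (l 16768584)) (b (l 16770648) (c (l 83449865927) (l 81839252679))))) (b (c (c (l 16765272) (l 16765008)) (l 16764600)) (a (b (l 16771384) (b (l 16770904) (b (l 16777968) (l 184381605095)))) (b (l 16772128) (b (a (l 16776664) (l 16776944)) (l 4))))))))), by decide +kernel⟩

def k96_pp_022_t : ∃ t, chk3 f_pp_022_t t 69 248 3 = true :=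
  ⟨(a (c (a (b (c (a (l 16709888) (l 16713528)) (a (l 16707352) (l 16711136))) (a (c (l 16722528) (l 16720472)) (c (l 16728728) (l 16724192)))) (b (c (a (l 16717136) (l 16720704)) (a (l 16714888) (l 16718600))) (c (a (l 16730968) (l 16735312)) (a (l 16730504) (l 16733504))))) (a (b (a (c (l 16704776) (l 16702176)) (c (l 16708712) (l 16706256))) (a (c (l 16718384) (l 16718896)) (c (l 16724880) (l 16722912)))) (a (b (c (l 16712608) (l 16710296)) (c (l 16728056) (b (l 16720760) (l 16727776)))) (b (c (l 16716464) (l 16714296)) (b (l 16725616) (c (l 16733248) (l 16731688))))))) (c (b (a (a (c (l 16724248) (l 16722280)) (c (l 16727752) (l 16725920))) (c (a (l 16731224) (l 16734672)) (a (l 16729528) (l 16733104)))) (b (a (a (l 16732744) (l 16737584)) (c (a (l 16740448) (l 16743848)) (a (l 16739096) (l 16742624)))) (a (c (a (l 16739784) (l 16743224)) (a (l 16738400) (l 16741968))) (c (a (l 16746624) (l 16750000)) (a (l 16745504) (l 16749000)))))) (b (a (a (c (l 16720280) (l 16718264)) (c (l 16724064) (l 16722184)))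 (a (b (l 16723592) (l 16730296)) (b (l 16727384) (l 16734056)))) (b (a (a (l 16729464) (l 16733264)) (c (a (l 16737720) (l 16741384)) (a (l 16736336) (l 16740128)))) (a (c (a (l 16736992) (l 16740696)) (a (l 16735568) (l 16739408))) (a (c (l 16744360) (l 16743208)) (c (l 16747992) (l 16746968)))))))), by decide +kernel⟩

def k97_pp_022_t : ∃ t, chk3 f_pp_022_t t 69 498 3 = true :=
  ⟨(b (a (c (a (a (c (l 16732072) (l 16730376)) (c (l 16735608) (l 16734056))) (a (c (l 16739120) (l 16737704)) (c (l 16742600) (l 16741312)))) (a (a (c (l 16728656) (l 16726920)) (c (l 16732480) (l 16730888))) (a (c (l 16736264) (l 16734808)) (c (l 16740008) (l 16738696))))) (a (c (c (a (l 16746040) (l 16749456)) (a (l 16744888) (l 16748432))) (a (c (l 16743720) (l 16742536)) (c (l 16747392) (l 16746344)))) (c (a (c (l 16752832) (l 16751936)) (c (l 16756176) (l 16755408))) (a (a (l 16749648) (l 16751488)) (a (l 16753320) (l 16755144)))))) (a (c (a (a (c (l 16738464) (l 16737008)) (c (l 16741976) (l 16740664))) (c (a (l 16745456)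 (l 16748912)) (a (l 16744280) (l 16747864)))) (a (a (c (l 16735544) (l 16734048)) (c (l 16739328) (l 16737976))) (a (c (l 16743080) (l 16741872)) (c (l 16746800) (l 16745720))))) (a (c (a (c (l 16752328) (l 16751408)) (a (l 16754456) (l 16756168))) (a (a (l 16749072) (l 16750936)) (a (l 16752792) (l 16754632)))) (c (a (a (l 16757880) (l 16759576)) (c (l 16757136) (l 16756592))) (a (c (l 16752480) (l 16751792)) (c (l 16756040) (l 16755488))))))), by decide +kernel⟩

def k98_pp_022_t : ∃ t, chk3 f_pp_022_t t 69 499 3 = true :=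
  ⟨(b (a (a (c (c (a (l 16744880) (l 16748368)) (a (l 16743672) (l 16747296))) (a (c (l 16742448) (l 16741208)) (c (l 16746208) (l 16745104)))) (c (a (c (l 16751824) (l 16750880)) (c (l 16755248) (l 16754432))) (a (c (l 16749928) (l 16748960)) (a (l 16752256) (l 16748880))))) (a (c (a (c (l 16753392) (l 16752704)) (c (l 16756744) (l 16756184))) (a (c (l 16752008) (l 16751304)) (a (l 16754416) (l 16756248)))) (a (a (c (l 16759008) (l 16758064)) (c (l 16760696) (l 16759872))) (a (c (l 16762368) (l 16761672)) (c (l 16764032) (l 16763456)))))) (a (a (c (a (c (l 16751328) (l 16750360)) (c (l 16749544) (l 16753952))) (a (a (l 16747928) (l 16744592)) (a (l 16746488) (l 16748376)))) (c (a (c (l 16752968) (l 16752264)) (c (l 16756360) (l 16755784))) (a (a (l 16750256) (l 16752120)) (a (l 16753984) (a (l 16760608) (l 16761536)))))) (a (a (c (c (l 16759728) (l 16759272)) (c (c (l 16758928) (l 16758704)) (c (l 16758472) (l 16758240)))) (c (c (l 16763056) (l 16762072)) (c (a (l 16756264) (l 16763280)) (a (l 16761136) (l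 16762976))))) (a (c (a (l 16765408) (c (l 16761928) (l 16761752))) (b (c (l 16764248) (l 16763976)) (c (l 16767624) (l 16767472)))) (b (c (c (l 16768048) (l 16767904)) (c (l 16767760) (l 16767608))) (a (a (l 16772472) (a (l 16773096) (c (l 16773504) (l 83449865463)))) (a (b (l 16770736) (b (a (l 16776944) (l 16777184)) (l 184381605159))) (b (a (l 16771336) (a (l 16776840) (l 101703477607))) (l 4))))))))), by decide +kernel⟩

def k99_pp_022_t : ∃ t, chk3 f_pp_022_t t 552 250 1 = true :=
  ⟨(a (b (b (c (c (a (l 16759120) (l 16759872)) (l 16758704)) (c (a (l 16756112) (l 16756992)) (a (l 16754544) (l 16755488)))) (c (c (b (l 16763752) (l 16766600)) (b (l 16762648) (l 16765728))) (c (a (l 16757496) (l 16758368)) (c (l 16757152) (l 16756624))))) (b (c (c (c (l 16766744) (l 16765504)) (c (l 16765240) (l 16764984))) (c (c (l 16764712) (l 16764448)) (c (l 16764168) (l 16763896)))) (b (c (c (c (l 16772584) (l 16769880)) (c (l 16769792) (l 16769712))) (c (l 49090122679) (c (l 16769448) (l 16769360)))) (b (b (a (c (l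 16773936) (l 16773832)) (c (c (l 16777776) (l 16777112)) (c (l 54458844375) (c (l 16777088) (l 57680068391))))) (a (c (a (l 16777040) (l 16777808)) (c (l 52311358087) (a (l 16777000) (l 16777224)))) (l 4))) (l 4))))) (b (c (c (b (b (l 16759592) (l 16762416)) (c (l 16761632) (l 16761208))) (b (a (l 16759272) (l 16760080)) (a (l 16760160) (l 16760960)))) (c (b (b (l 16756664) (l 16759960)) (a (l 16759240) (l 16760112))) (b (b (l 16755136) (l 16758680)) (c (l 16758992) (l 16758536))))) (b (b (c (c (l 16768312) (l 16765176)) (c (l 16764648) (l 16764104))) (c (c (l 16771160) (l 16770880)) (c (l 16767968) (l 16768984)))) (b (b (c (c (l 16773296) (l 16773192)) (c (l 16773080) (l 16772976))) (b (a (c (l 16773976) (l 16775192)) (c (c (l 16777800) (l 16777128)) (c (l 57680069895) (c (l 16777112) (l 63048778823))))) (a (c (a (l 16777064) (l 16777744)) (c (l 55532586231) (a (l 16777032) (l 16777240)))) (l 4)))) (l 4))))), by decide +kernel⟩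

def k100_pp_022_t : ∃ t, chk3 f_pp_022_t t 553 250 1 = true :=
  ⟨(a (b (c (c (b (a (l 16762120) (l 16762872)) (c (l 16763088) (l 16762728))) (b (a (l 16760888) (l 16761696)) (c (l 16762360) (l 16761984)))) (c (b (a (l 16759624) (l 16760496)) (c (l 16761600) (l 16761216))) (c (b (l 16759112) (l 16760824)) (b (l 16758464) (l 16760432))))) (b (c (c (b (l 16769784) (c (l 16772664) (l 16769968))) (b (l 16766776) (c (l 16769888) (l 16769808)))) (c (b (l 16766368) (c (l 16769720) (l 16769640))) (b (l 16765960) (a (l 16769056) (l 16772592))))) (b (b (b (a (c (l 16774016) (l 16775232)) (c (a (l 16777104) (l 16777760)) (a (a (l 16777032) (l 16777152)) (l 118883353671)))) (a (a (c (l 16777088) (l 122104577463)) (c (l 16777752) (l 108145935495))) (l 4))) (l 4)) (l 4)))) (b (b (c (c (b (l 16762576) (l 16765392)) (b (l 16761384) (l 16764432))) (c (b (l 16760160) (l 16763440)) (b (l 16758896) (l 16762424)))) (c (c (c (l 16764536) (l 16764232)) (c (l 16763928) (l 16763616))) (c (c (l 16763296) (l 16762976)) (c (l 16762648)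 (l 16762320))))) (b (b (c (c (l 16771256) (l 16768368)) (c (l 16768088) (l 16770424))) (b (c (c (l 16773376) (l 16773280)) (c (l 16773176) (l 16773240))) (b (a (c (l 16775368) (l 69491224631)) (c (c (l 16777840) (l 16777176)) (c (l 63585650023) (c (l 16777160) (l 67880617127))))) (a (c (a (l 16777104) (l 16777768)) (c (l 62511908167) (a (l 16777080) (l 16777272)))) (l 4))))) (l 4)))), by decide +kernel⟩

def k101_pp_022_t : ∃ t, chk3 f_pp_022_t t 277 500 1 = true :=
  ⟨(a (c (b (c (c (c (l 16761296) (l 16761072)) (c (l 16760856) (l 16760632))) (c (c (l 16760408) (l 16760184)) (c (l 16759960) (l 16759728)))) (c (b (c (l 16767944) (l 16765048)) (c (l 16769392) (l 16769232))) (b (c (l 16764768) (l 16764496)) (c (l 16767760) (l 16767600))))) (b (c (c (c (l 16759496) (l 16759264)) (c (l 16759032) (l 16758800))) (c (c (l 16758560) (l 16758328)) (a (l 16757024) (l 16758904)))) (c (b (c (l 16764208) (l 16763920)) (c (l 16767432) (l 16767264))) (b (c (l 16763632) (l 16763336)) (c (l 16767096) (l 16767904)))))) (b (c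 (c (c (a (l 16763344) (l 16764784)) (a (l 16762992) (l 16764488))) (c (a (l 16762640) (l 16764192)) (a (l 16762280) (l 16763888)))) (c (c (a (l 16761912) (l 16763584)) (a (l 16761536) (l 16763280))) (c (a (l 16761160) (l 16762960)) (a (l 16760784) (l 16762648))))) (a (c (a (c (l 16769728) (l 16768136)) (b (l 16770192) (c (l 16773160) (l 16770424)))) (a (c (l 16767840) (l 16767536)) (b (l 16769488) (c (l 16770304) (l 16772808))))) (b (c (c (l 16771456) (l 16768584)) (c (l 16768320) (l 16768056))) (b (c (c (l 72712448103) (l 16774112)) (c (l 68954351047) (a (l 16764984) (l 16771096)))) (a (b (c (l 16776168) (a (l 16776584) (l 16776960))) (a (c (l 16777192) (l 67343746231)) (l 4))) (b (a (c (l 16777208) (l 68954358999)) (l 4)) (l 4)))))))), by decide +kernel⟩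

def k102_pp_022_t : ∃ t, chk3 f_pp_022_t t 277 501 1 = true :=
  ⟨(b (b (a (a (c (c (a (l 16769736) (l 16773080)) (c (l 16769976) (l 16769904))) (c (c (l 16769824) (l 16769744)) (a (l 16769176) (l 16772696)))) (b (c (c (l 16773952) (l 16773368)) (c (l 16773272) (a (l 16764872) (l 16771000)))) (a (c (b (l 16775440) (a (l 16777152) (l 16777624))) (a (c (l 16776808) (l 16776776)) (b (l 16776880) (l 161296155607)))) (b (c (c (l 16777872) (l 16777216)) (c (l 75933680999) (c (l 16777200) (l 71638713607)))) (l 4))))) (b (a (a (b (c (l 16776128) (a (l 16776536) (l 16776920))) (a (c (l 16777176) (l 59290681239)) (c (l 16777312) (l 179549766551)))) (b (a (c (l 16777184) (l 61975037127)) (c (l 16777312) (l 190824055639))) (l 4))) (l 4)) (l 4))) (a (b (a (b (a (c (l 16775400) (a (l 16776432) (l 16776840))) (c (c (l 16777856) (l 16777192)) (c (l 66270004631) (c (l 16777184) (l 70028100823))))) (a (c (a (l 16777128) (l 16777616)) (a (a (l 16777080) (l 16777192)) (l 137673835543))) (l 4))) (l 4)) (l 4)) (l 4))) (l 4)),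 by decide +kernel⟩

def k103_pp_022_t : ∃ t, chk3 f_pp_022_t t 139 1000 1 = true :=
  ⟨(b (a (c (c (a (c (l 16765552) (l 16765296)) (a (l 16767600) (l 16769040))) (a (c (l 16765032) (l 16764760)) (c (l 16768096) (l 16767952)))) (c (a (c (l 16764488) (l 16764216)) (c (l 16767800) (l 16767648))) (a (c (l 16763936) (l 16763656)) (c (l 16767488) (l 16767336))))) (a (a (a (c (l 16772664) (l 16772352)) (c (c (l 78618027559) (l 16773312)) (a (l 16772992) (c (l 16770792) (l 78081156151))))) (b (a (c (l 16770808) (l 16770624)) (c (a (l 16776584) (l 16776880)) (c (l 16776648) (l 101703478903)))) (a (b (c (a (l 16776912) (l 16777152)) (a (l 16776864) (l 16777136))) (c (l 148411254199) (c (l 16777320) (l 167201735687)))) (a (c (l 177402283271) (l 177402283335)) (l 4))))) (b (a (a (b (c (l 16777944) (c (l 16777016) (l 16777000))) (c (l 161833026935) (c (l 16777336) (l 187602830295)))) (a (c (l 196192765047) (l 196729636023)) (l 4))) (l 4)) (l 4)))) (a (a (c (c (a (l 16767488) (l 16768936)) (c (l 16767984) (l 16767832)))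 (c (c (l 16767680) (l 16767520)) (c (l 16767360) (l 16767200)))) (a (a (c (l 16772560) (l 16772240)) (c (c (l 16773656) (l 16773224)) (c (l 16773120) (c (l 16770416) (l 16772984))))) (a (b (c (l 16770712) (l 16770512)) (b (c (a (l 16776840) (l 16777104)) (c (l 16776920) (l 16776896))) (a (c (l 16777264) (l 115125257271)) (l 4)))) (b (c (a (l 16776504) (l 16776808)) (c (l 16776568) (l 16774552))) (a (a (c (l 142505673911) (l 148411253927)) (l 4)) (l 4)))))) (b (a (a (a (b (c (a (l 16776880) (l 16777128)) (c (l 16776952) (l 16776928))) (c (l 137136965095) (a (l 130694513671) (l 4)))) (c (c (l 166127994247) (l 167738606983)) (c (l 178476025207) (l 174717928823)))) (l 4)) (l 4)) (l 4)))), by decide +kernel⟩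

def k104_pp_022_t : ∃ t, chk3 f_pp_022_t t 139 1001 1 = true :=
  ⟨(a (b (a (a (a (c (l 16772464) (a (l 16769280) (l 16769720))) (c (c (l 16773248) (l 16773136)) (c (l 16773024) (l 60364414231)))) (b (c (c (a (l 16775912) (l 16776592)) (l 76470544167)) (c (l 74859931095) (a (l 16765104) (l 16773808)))) (a (b (c (a (l 16776760) (l 16777056)) (c (l 16776848) (l 16776816))) (a (c (l 16777232) (l 87744840855)) (l 4))) (a (b (c (l 16777240) (l 90429195431)) (l 4)) (l 4))))) (b (a (a (b (c (c (l 16776936) (l 16776912)) (c (l 16776880) (l 16776856))) (a (c (l 16777248) (l 94187291831)) (l 4))) (a (b (c (l 16777256) (l 104387839095)) (l 4)) (l 4))) (l 4)) (l 4))) (b (a (a (a (b (c (l 16776856) (c (l 16776808) (l 16776776))) (a (c (l 16777216) (l 82913002599)) (l 4))) (a (b (c (l 16777224) (l 84523615367)) (l 4)) (l 4))) (l 4)) (l 4)) (l 4))) (l 4)), by decide +kernel⟩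

def k105_pp_022_t : ∃ t, chk3 f_pp_022_t t 139 501 1 = true :=
  ⟨(l 4), by decide +kernel⟩

def k106_pp_022_t : ∃ t, chk3 f_pp_022_t t 69 251 1 = true :=
  ⟨(l 4), by decide +kernel⟩

def k107_pp_022_t : ∃ t, chk3 f_pp_022_t t 34 63 1 = true :=
  ⟨(l 4), by decide +kernel⟩

def k108_pp_022_t : ∃ t, chk3 f_pp_022_t t 140 248 2 = true :=
  ⟨(b (b (a (c (a (l 16740288) (l 16743232)) (a (l 16737320) (l 16740520))) (c (a (l 16746160) (l 16749056)) (a (l 16743688) (l 16746824)))) (a (c (a (l 16745600) (l 16748528)) (a (l 16743064) (l 16746240))) (a (c (l 16751432) (l 16749376)) (c (l 16755616) (l 16752496))))) (b (a (a (c (l 16752248) (l 16748832)) (c (c (l 16754296) (l 16753384)) (l 16753288))) (c (a (c (l 16757120) (l 16756320)) (c (l 16759920) (l 16759240))) (a (c (l 16755512) (l 16754688)) (c (l 16758536) (l 16757832))))) (a (c (a (c (l 16756704) (l 16755880)) (c (l 16759536) (l 16758824))) (a (c (l 16755048) (l 16754200)) (c (l 16758112) (l 16757384)))) (c (a (c (l 16762336) (l 16761744)) (c (l 16759872)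 (l 16764640))) (a (c (l 16761144) (l 16760536)) (b (l 16762472) (l 16760096))))))), by decide +kernel⟩

def k109_pp_022_t : ∃ t, chk3 f_pp_022_t t 141 248 2 = true :=
  ⟨(a (b (b (a (c (l 16751928) (l 16749928)) (c (l 16754768) (l 16753008))) (c (a (c (l 16757544) (l 16756768)) (c (l 16760312) (l 16759648))) (a (l 16750336) (c (l 16758968) (l 16758288))))) (c (b (a (c (l 16762696) (l 16762120)) (b (l 16763904) (l 16761288))) (c (a (l 16762632) (l 16765360)) (a (l 16762264) (l 16765104)))) (b (a (c (l 16761544) (l 16760952)) (b (l 16762864) (l 16760448))) (c (a (l 16761888) (l 16764840)) (a (l 16756264) (l 16764568)))))) (b (a (b (c (c (l 16757968) (l 16757208)) (l 16756056)) (c (b (l 16761480) (l 16764080)) (c (l 16761936) (l 16761368)))) (b (c (c (l 16760704) (l 16760064)) (l 16753832)) (c (b (l 16764256) (l 16761608)) (b (l 16763256) (l 16766048))))) (b (a (c (c (l 16762928) (l 16762576)) (c (l 16756968) (l 16756608))) (c (c (l 16765624) (l 16765384)) (c (l 16759888) (l 16759632)))) (a (c (a (l 16767304)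 (l 16768672)) (c (l 16767760) (l 16767600))) (b (c (a (l 16768736) (l 16770096)) (l 16770528)) (b (a (l 16773264) (a (l 16776832) (a (l 16777168) (l 16777968)))) (a (a (l 16776800) (a (l 16777144) (l 16777952))) (l 4)))))))), by decide +kernel⟩

def k110_pp_022_t : ∃ t, chk3 f_pp_022_t t 140 498 2 = true :=
  ⟨(a (b (c (a (c (l 16761984) (l 16761376)) (c (l 16759552) (l 16759056))) (a (c (l 16760752) (l 16760128)) (b (l 16762088) (l 16759752)))) (a (c (c (l 16762040) (l 16761648)) (c (l 16761240) (l 16760832))) (c (c (l 16764832) (l 16764552)) (c (l 16764256) (l 16763968))))) (b (a (c (c (l 16762336) (l 16761952)) (c (l 16761560) (l 16761168))) (c (c (l 16765096) (l 16764824)) (c (l 16764544) (l 16764264)))) (a (a (c (l 16766808) (l 16766400)) (c (l 16768216) (l 16767920))) (b (c (c (l 16769024) (l 16768912)) (c (l 16768792) (l 16763432))) (a (a (l 58216931575) (b (l 16775816) (a (l 16776920) (l 16778104)))) (a (b (l 16776512) (c (l 120493966935) (l 123178321479))) (b (a (l 16776952) (l 16777968)) (l 4)))))))),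 by decide +kernel⟩

def k111_pp_022_t : ∃ t, chk3 f_pp_022_t t 140 499 2 = true :=
  ⟨(a (a (b (c (c (a (l 16766672) (l 16768064)) (a (l 16766464) (l 16767904))) (c (l 16767000) (l 16766808))) (b (a (a (l 16772864) (c (l 88281704295) (l 86671091063))) (a (b (l 16771000) (a (a (l 16777136) (l 16777880)) (l 121567708695))) (b (a (l 16776744) (l 16777656)) (l 4)))) (b (b (a (a (a (l 16777016) (l 16777216)) (l 4)) (l 4)) (l 4)) (l 4)))) (b (a (a (c (l 16769048) (l 16768816)) (b (l 16768256) (a (l 74323060391) (b (l 16770552) (l 16777688))))) (a (b (l 16768984) (b (l 16776336) (a (l 71638713383) (l 146800641399)))) (b (l 16769720) (b (a (l 16776816) (l 16777696)) (l 4))))) (b (b (a (a (b (l 52848231399) (l 4)) (l 4)) (l 4)) (l 4)) (l 4)))) (b (a (a (a (b (l 16773064) (a (b (l 81302390407) (l 4)) (l 254711693847))) (b (b (l 16775712) (a (l 16776856) (l 16777728))) (l 4))) (b (a (b (l 16776424) (c (l 107072194151) (l 110293419607))) (b (a (l 16776888) (l 16777752)) (l 4))) (l 4))) (b (b (a (a (a (l 99556001335) (l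 189750314183)) (l 4)) (l 4)) (l 4)) (l 4))) (l 4))), by decide +kernel⟩

def k112_pp_022_t : ∃ t, chk3 f_pp_022_t t 141 249 2 = true :=
  ⟨(b (a (b (a (c (c (l 16767832) (l 16767664)) (c (l 16767504) (l 16767336))) (b (c (c (l 16769240) (l 16769136)) (l 16770280)) (b (a (l 16773048) (a (l 16776680) (a (l 16777064) (l 16778064)))) (a (a (l 16776640) (a (l 16777048) (l 16778040))) (a (l 155927447303) (l 4)))))) (a (b (b (a (l 16772944) (a (l 16776600) (a (l 16777016) (l 16778016)))) (a (a (l 16776560) (a (l 16776992) (l 16777992))) (a (a (l 128010159559) (l 4)) (l 4)))) (b (a (a (a (l 115125257767) (l 4)) (l 4)) (l 4)) (l 4))) (b (a (c (l 250953597639) (l 254711694007)) (l 4)) (l 4)))) (b (a (a (b (b (l 16773160) (a (l 16776720) (a (l 16777088) (l 16777920)))) (c (l 258469790439) (l 262227886823))) (b (a (b (l 16776760) (l 180086638279)) (b (a (l 16777120) (l 16777936)) (l 4))) (l 4))) (l 4)) (l 4))) (l 4)), by decide +kernel⟩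

def k113_pp_022_t : ∃ t, chk3 f_pp_022_t t 140 248 3 = true :=
  ⟨(b (b (c (a (a (l 16734272) (l 16737728)) (a (l 16741144) (l 16744528))) (a (a (l 16731136) (l 16734856)) (a (l 16738528) (l 16742168)))) (c (a (a (l 16740456) (l 16745192)) (c (a (l 16747808) (l 16751104)) (a (l 16746736) (l 16750152)))) (a (a (l 16737776) (l 16736224)) (a (l 16739864) (l 16742160))))) (b (a (c (c (a (l 16747216) (l 16750552)) (a (l 16746120) (l 16749576))) (a (c (l 16745008) (l 16743880)) (c (l 16748592) (l 16747600)))) (c (a (c (l 16753848) (l 16753000)) (c (l 16757120) (l 16756392))) (a (a (l 16750808) (l 16752608)) (a (l 16754392) (l 16756168))))) (a (c (a (c (l 16753336) (l 16752464)) (c (l 16756648) (l 16755896))) (a (a (l 16750232) (l 16752048)) (a (l 16753856) (l 16755656)))) (c (a (c (l 16759920) (l 16759296)) (b (l 16756120) (l 16759208))) (a (b (l 16756680) (l 16754752)) (c (l 16751656) (l 16751128))))))), by decide +kernel⟩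

def k114_pp_022_t : ∃ t, chk3 f_pp_022_t t 141 248 3 = true :=
  ⟨(b (b (c (a (a (l 16747880) (l 16745952)) (a (l 16749232) (l 16752488))) (a (a (l 16740528) (l 16744088)) (a (l 16747616) (l 16751104)))) (a (c (a (c (l 16754360) (l 16753536)) (c (l 16757592) (l 16756888))) (a (a (l 16751392) (l 16753168)) (a (l 16754936) (l 16756688)))) (c (a (c (l 16760784) (l 16760200)) (b (l 16762216) (l 16759976))) (a (b (l 16757688) (l 16760920)) (c (l 16763000) (l 16752032)))))) (a (b (c (a (c (l 16760352) (l 16759744)) (b (l 16761792) (l 16759592))) (a (b (l 16757184) (l 16755216)) (c (l 16762568) (l 16751576)))) (a (c (c (l 16755880) (l 16755488)) (c (l 16755096) (l 16759936))) (c (c (l 16759056) (l 16758784)) (c (l 16763744) (l 16763464))))) (b (a (c (c (l 16756240) (l 16755864)) (c (l 16755480) (l 16755096))) (c (c (l 16759376) (l 16759112)) (c (l 16758848) (l 16763824)))) (a (c (c (l 16762200) (l 16762040)) (c (l 16767112) (l 16766952))) (b (c (l 16770320) (a (l 16762712) (l 16764400))) (a (a (c (l 16770792) (l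 16773328)) (b (l 16770848) (b (l 16778048) (l 4)))) (b (a (c (l 16776792) (l 16776752)) (c (l 16777864) (l 76470549815))) (l 4)))))))), by decide +kernel⟩

def k115_pp_022_t : ∃ t, chk3 f_pp_022_t t 140 498 3 = true :=
  ⟨(a (b (c (a (b (l 16752352) (l 16755496)) (c (l 16752280) (l 16751760))) (a (c (l 16758184) (l 16752280)) (c (l 16756464) (l 16755928)))) (a (c (c (l 16760416) (l 16760000)) (c (l 16759576) (l 16759144))) (c (c (l 16763672) (l 16763368)) (c (l 16763064) (l 16762096))))) (b (a (c (c (l 16755528) (l 16755120)) (c (l 16759952) (l 16759536))) (c (c (l 16763984) (l 16763696)) (c (l 16763400) (l 16763112)))) (a (a (c (l 16765984) (l 16765552)) (c (l 16767608) (l 16767296))) (a (a (c (l 16768824) (l 16768592)) (b (l 16767944) (b (l 16770360) (c (l 16776968) (l 113514637639))))) (b (c (l 16764056) (l 16769104)) (b (a (l 16774440) (b (l 16776808) (a (l 16777200) (l 4)))) (a (a (a (l 99556001143) (l 147337512103)) (l 4)) (l 4)))))))), by decide +kernel⟩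

def k116_pp_022_t : ∃ t, chk3 f_pp_022_t t 140 499 3 = true :=
  ⟨(a (b (a (a (c (l 16765696) (c (l 16760112) (l 16765120))) (c (l 16767344) (b (l 16765320) (l 16768704)))) (b (c (c (l 16763056) (l 16762920)) (c (l 16768024) (l 16767888))) (a (a (l 16772704) (b (l 16770120) (a (l 16774088) (b (l 16776784) (l 16777256))))) (a (b (l 16773576) (a (b (l 16777088) (l 4)) (l 152169350503))) (b (a (l 16775440) (a (l 16776984) (l 56606326775))) (l 4)))))) (b (a (a (a (l 16772592) (c (l 85060477815) (c (l 16773336) (l 83986735783)))) (b (c (a (l 16776128) (l 16776800)) (c (l 99019123239) (l 99019123175))) (a (b (a (l 16777024) (l 16777232)) (l 4)) (l 4)))) (b (a (a (b (a (l 16777056) (l 16777248)) (l 4)) (l 4)) (l 4)) (l 4))) (b (b (a (a (a (a (l 16776984) (l 16777208)) (l 4)) (l 4)) (l 4)) (l 4)) (l 4)))) (b (a (b (a (c (c (l 87207960615) (l 86134218535)) (a (l 16770136) (b (l 16775424) (c (l 16776888) (l 16776872))))) (a (b (l 16773680) (c (l 102777226999) (c (l 102777226823) (l 104924710471)))) (b (c (l 16776936)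 (l 103850963783)) (l 4)))) (b (a (a (a (b (l 16777104) (l 4)) (l 164517381511)) (l 4)) (l 4)) (l 4))) (a (a (b (c (l 233236857287) (a (l 234847469943) (l 281018368551))) (l 4)) (l 4)) (l 4))) (l 4))), by decide +kernel⟩

def k117_pp_022_t : ∃ t, chk3 f_pp_022_t t 141 249 3 = true :=
  ⟨(b (a (b (a (c (c (l 16767160) (l 16766992)) (c (l 16766816) (l 16766640))) (b (c (l 16770064) (c (l 16763336) (l 16763216))) (a (a (c (l 16770584) (l 16770488)) (b (l 16770600) (b (l 16776936) (l 130157643303)))) (b (a (a (l 16776448) (l 16776784)) (b (l 16776648) (l 144116286951))) (c (l 182234122119) (l 250416726471)))))) (a (a (a (c (b (l 16770480) (l 241826791927)) (b (l 16770368) (l 245584888311))) (b (b (l 16770480) (b (l 16776856) (a (l 16777224) (l 4)))) (l 4))) (b (b (a (l 82912996439) (b (l 16776896) (l 118346483287))) (a (a (l 128010159623) (l 4)) (l 4))) (l 4))) (a (a (b (c (l 257932919335) (l 261154144807)) (l 4)) (l 4)) (l 4)))) (b (a (a (b (b (l 16772936) (b (c (l 16776672) (l 16776632)) (a (l 43721423959) (l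 169886090599)))) (c (l 265985983191) (l 270280950471))) (b (b (a (a (l 16776560) (l 16776872)) (b (l 16778032) (l 182234121511))) (c (l 194045282151) (l 269207208423))) (l 4))) (l 4)) (l 4))) (l 4)), by decide +kernel⟩

def k118_pp_022_t : ∃ t, chk3 f_pp_022_t t 284 248 1 = true :=
  ⟨(b (b (a (c (c (b (l 16761864) (l 16764440)) (l 16756816)) (c (l 16755696) (l 16753240))) (c (c (b (l 16764616) (l 16767176)) (l 16759776)) (c (l 16758880) (b (l 16761616) (l 16759544))))) (c (c (a (c (l 16763224) (l 16757648)) (c (l 16765896) (l 16765664))) (a (c (l 16757304) (l 16756952)) (c (l 16760184) (l 16759936)))) (a (c (c (l 16756600) (l 16756240)) (c (l 16755872) (l 16755504))) (c (c (l 16759696) (l 16759448)) (c (l 16759192) (l 16758936)))))) (a (b (c (c (a (l 16767552) (l 16768904)) (a (l 16767208) (l 16768672))) (c (a (l 16761616) (l 16768424)) (a (l 16766496) (l 16768176)))) (b (a (a (c (c (l 16776280) (l 16776208)) (c (l 16770888) (l 85060477895))) (b (c (l 16776344) (l 16770968)) (b (c (l 16777144) (l 59290682983))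 (l 4)))) (b (a (c (l 16777560) (c (l 16776864) (l 16776840))) (b (c (l 16777176) (l 65196263063)) (l 4))) (l 4))) (l 4))) (b (b (a (c (l 16771472) (c (l 16763256) (l 16763008))) (c (c (l 16770304) (l 16770176)) (c (l 16764800) (l 16769912)))) (b (c (a (l 16773480) (a (l 16777960) (l 112977774519))) (a (c (l 16775968) (l 16765400)) (a (a (l 16776840) (l 16777720)) (a (l 102240355863) (l 193508410551))))) (a (a (c (l 16777928) (c (l 16776904) (l 16776880))) (b (c (l 16777200) (l 70028101335)) (l 4))) (l 4)))) (l 4)))), by decide +kernel⟩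

def k119_pp_022_t : ∃ t, chk3 f_pp_022_t t 285 248 1 = true :=
  ⟨(b (c (b (c (a (c (l 16763528) (l 16757960)) (c (l 16766168) (l 16760704))) (a (l 16762704) (l 16765608))) (a (c (a (l 16767808) (l 16769136)) (a (l 16762240) (l 16768920))) (b (a (l 16771720) (c (l 16770512) (l 16770400))) (b (a (c (l 16776328) (l 16776264)) (a (l 50700748775) (l 146800641863))) (a (a (l 16778280) (l 136600094583)) (l 4)))))) (b (a (c (l 16761376) (c (l 16756264) (l 16755912))) (c (l 16764488) (c (l 16759544) (l 16759296)))) (a (c (a (l 16761912) (l 16768696)) (a (l 16761576) (l 52848213559))) (a (b (l 16769976) (c (b (l 16776192) (c (l 16777144) (l 63585650935))) (b (l 16770880) (a (l 16777008) (l 145190028807))))) (a (b (l 16764616) (b (a (l 16777000) (l 16777992)) (l 4))) (b (l 60901285479) (l 283165851447))))))) (b (b (a (a (a (c (c (l 16776448) (l 16776392)) (c (l 16776328) (l 97945380359))) (b (c (l 16776536) (l 16771192)) (c (l 117272741863) (c (l 16777312) (l 127473288759))))) (b (a (c (l 16778168) (c (l 16776992)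 (l 16776968))) (c (l 126399547319) (c (l 16777328) (l 146263770503)))) (l 4))) (l 4)) (l 4)) (l 4))), by decide +kernel⟩

def k120_pp_022_t : ∃ t, chk3 f_pp_022_t t 143 248 1 = true :=
  ⟨(b (b (b (a (c (a (c (l 16767456) (l 16767112)) (a (l 16769352) (c (l 16775952) (l 16775856)))) (a (c (l 16766760) (l 16766400)) (a (l 16768952) (c (l 16770512) (l 16774344))))) (a (a (b (c (c (l 16776600) (l 16776552)) (c (l 16776504) (l 16776448))) (a (b (c (l 16777120) (l 16777096)) (l 4)) (l 4))) (b (a (b (c (l 16777152) (l 16777096)) (l 4)) (l 4)) (l 4))) (l 4))) (a (a (a (c (l 16769224) (l 16770120)) (c (a (l 16775496) (l 16773512)) (c (l 16770400) (l 16770288)))) (b (a (c (c (l 16776512) (l 16776456)) (c (l 16776400) (l 16776344))) (a (c (l 67343747271) (a (l 16777096) (l 16777976))) (l 4))) (a (a (c (l 62511909015) (a (l 16777088) (l 16778040))) (c (l 187065960007) (l 191360927319))) (l 4)))) (l 4))) (b (a (a (b (a (c (c (l 16776424) (l 16776360)) (c (l 16776296) (l 16770992))) (a (c (l 58216941671) (c (l 16777120)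 (l 16776936))) (c (l 177402283703) (l 185455347319)))) (a (a (c (l 54458845223) (c (l 16777088) (l 16776984))) (c (l 157001189143) (l 166664865591))) (l 4))) (l 4)) (l 4)) (l 4))) (l 4)), by decide +kernel⟩

def k121_pp_022_t : ∃ t, chk3 f_pp_022_t t 71 249 1 = true :=
  ⟨(l 4), by decide +kernel⟩

def k122_pp_022_t : ∃ t, chk3 f_pp_022_t t 35 125 1 = true :=
  ⟨(l 4), by decide +kernel⟩

def k123_pp_022_t : ∃ t, chk3 f_pp_022_t t 35 63 1 = true :=
  ⟨(l 4), by decide +kernel⟩

def k124_pp_022_t : ∃ t, chk3 f_pp_022_t t 18 28 1 = true :=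
  ⟨(l 6), by decide +kernel⟩

def k125_pp_022_t : ∃ t, chk3 f_pp_022_t t 36 29 1 = true :=
  ⟨(b (l 6) (b (a (a (l 6) (a (l 6) (b (l 6) (c (a (l 16596720) (l 16600136)) (c (l 16578568) (l 16564856)))))) (b (b (l 6) (a (l 6) (c (a (l 16604776) (l 16611344)) (c (l 16589992) (l 16577512))))) (c (a (c (a (l 16611320) (l 16617664)) (a (l 16598984) (l 16605952))) (c (a (l 16623904) (l 16630048)) (a (l 16612792) (l 16619504)))) (c (a (a (l 16586296) (l 16593896)) (a (l 16601352) (l 16608664))) (a (a (l 16573256) (l 16581496)) (a (l 16589584) (l 16597520))))))) (a (c (a (c (b (a (l 16603480) (l 16610080)) (a (l 16622208) (l 16628640))) (b (a (l 16590008) (l 16597264)) (a (l 16610216) (l 16617272)))) (c (b (a (l 16616576) (l 16622968)) (a (l 16634960) (l 16641184))) (b (a (l 16604392) (l 16611400)) (a (l 16624200) (l 16631008))))) (a (c (b (a (l 16576152) (l 16584072)) (a (l 16597888) (l 16605576))) (a (b (l 16561904) (l 16585208)) (b (l 16570512) (l 16593552)))) (c (b (a (l 16591856) (l 16599496)) (a (l 16613128)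 (l 16620544))) (a (b (l 16578960) (l 16601744)) (b (l 16587256) (l 16609784)))))) (c (a (b (c (a (l 16629248) (l 16635432)) (a (l 16618280) (l 16625048))) (c (a (l 16647296) (l 16653312)) (a (l 16637696) (l 16644264)))) (c (b (a (l 16641504) (l 16647472)) (a (l 16659216) (l 16665016))) (b (a (l 16631688) (l 16638208)) (a (l 16650712) (l 16657032))))) (a (c (b (a (l 16607000) (l 16614368)) (a (l 16627816) (l 16634952))) (b (a (l 16595400) (l 16603384)) (a (l 16617656) (l 16625384)))) (c (b (a (l 16621592) (l 16628680)) (a (l 16641952) (l 16648816))) (b (a (l 16611208) (l 16618880)) (a (l 16632952) (l 16640368))))))))), by decide +kernel⟩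

def k126_pp_022_t : ∃ t, chk3 f_pp_022_t t 37 58 1 = true :=
  ⟨(b (l 6) (a (b (l 6) (a (l 6) (b (l 6) (a (c (l 16613168) (l 16590608)) (c (l 16619592) (l 16598200)))))) (a (b (l 6) (c (c (l 16629784) (l 16619944)) (c (a (l 16606224) (l 16613400)) (a (l 16595512) (l 16603280))))) (a (c (c (l 16630856) (l 16621288)) (c (l 16616688) (l 16608536))) (c (c (l 16636896) (l 16627872)) (c (l 16618576) (l 16614264))))))), by decide +kernel⟩

def k127_pp_022_t : ∃ t, chk3 f_pp_022_t t 37 59 2 = true :=
  ⟨(a (b (a (c (b (a (l 16618944) (l 16625080)) (a (l 16636088) (l 16642056))) (a (b (l 16607720) (l 16626112)) (b (l 16614440) (l 16632632)))) (c (a (b (l 16631152) (l 16647960)) (b (l 16637160) (l 16653808))) (a (b (l 16621080) (l 16639080)) (b (l 16627640) (l 16645440))))) (a (c (b (a (l 16653344) (l 16659144)) (a (l 16670728) (l 16676360))) (b (a (l 16644616) (l 16650944)) (a (l 16663248) (l 16669376)))) (c (c (b (l 16669560) (l 16686240)) (b (l 16665896) (l 16683152))) (c (b (l 16662168) (l 16680008)) (b (l 16658392)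 (l 16676824)))))) (b (a (a (c (b (l 16643112) (l 16659592)) (b (l 16634128) (l 16651736))) (c (b (l 16649016) (l 16665328)) (b (l 16640552) (l 16657968)))) (c (b (l 16663008) (a (l 16671008) (l 16676648))) (b (l 16655296) (a (l 16664128) (l 16670224))))) (a (c (a (b (l 16676192) (l 16692912)) (b (l 16681760) (l 16698320))) (a (b (l 16669464) (l 16687312)) (b (l 16675496) (l 16693160)))) (c (a (b (l 16687280) (l 16703688)) (b (l 16692768) (l 16708984))) (b (a (l 16681472) (l 16687392)) (a (l 16698944) (l 16704648))))))), by decide +kernel⟩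

def k128_pp_022_t : ∃ t, chk3 f_pp_022_t t 37 59 3 = true :=
  ⟨(a (b (a (c (a (b (l 16596176) (l 16615856)) (b (l 16603496) (l 16622944))) (a (b (l 16584312) (l 16605304)) (b (l 16592240) (l 16612976)))) (c (b (a (l 16610712) (l 16617840)) (a (l 16629936) (l 16636840))) (b (a (l 16600056) (l 16607768)) (a (l 16620536) (l 16627984))))) (a (c (b (a (l 16635640) (l 16642504)) (a (l 16655552) (l 16662184))) (c (b (l 16632392) (l 16653160)) (b (l 16627856) (l 16649280)))) (c (a (b (l 16649272) (l 16668728)) (b (l 16655952) (l 16675184))) (a (b (l 16641128) (l 16661840)) (b (l 16648328) (l 16668784)))))) (b (a (c (b (a (l 16624880) (l 16631840)) (a (l 16643656) (l 16650384))) (b (a (l 16615376) (l 16622880)) (a (l 16635344) (l 16642600)))) (c (c (b (l 16644128) (l 16662072)) (b (l 16640104) (l 16658600))) (c (b (l 16636024) (l 16655080)) (b (l 16631896) (l 16651512))))) (b (a (c (a (l 16662544) (l 16669056)) (a (l 16655424) (l 16662424))) (c (a (l 16675488) (l 16681856)) (a (l 16669336) (l 16676168)))) (a (c (a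 (l 16681552) (l 16687840)) (a (l 16675632) (l 16682384))) (c (c (l 16698320) (l 16674984)) (c (l 16672584) (l 16670152))))))), by decide +kernel⟩

def k129_pp_022_t : ∃ t, chk3 f_pp_022_t t 19 28 1 = true :=
  ⟨(a (l 6) (b (l 6) (b (a (l 6) (a (l 6) (a (l 6) (c (l 16647304) (l 16635200))))) (a (c (a (c (l 16636096) (l 16628376)) (c (l 16648496) (l 16641776))) (a (c (l 16620432) (l 16591296)) (c (l 16634864) (l 16627752)))) (c (a (c (l 16660504) (l 16654720)) (c (l 16672048) (l 16667136))) (a (c (l 16648776) (l 16642648)) (c (l 16662080) (l 16656880)))))))), by decide +kernel⟩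

def k130_pp_022_t : ∃ t, chk3 f_pp_022_t t 38 58 1 = true :=
  ⟨(b (b (a (l 6) (a (a (l 6) (c (l 16631440) (l 16614392))) (c (a (l 16637864) (l 16644224)) (a (l 16621872) (l 16629256))))) (a (a (a (l 6) (c (l 16621072) (l 16601560))) (c (a (l 16627488) (l 16633856)) (c (l 16617376) (l 16608200)))) (c (a (c (l 16647152) (l 16639496)) (c (l 16659080) (l 16652392))) (a (c (l 16631616) (l 16623520)) (c (l 16645512) (l 16638432)))))) (b (a (c (a (c (l 16638104) (l 16629360)) (a (l 16643144) (l 16649344))) (a (c (l 16620352) (l 16611088)) (c (l 16634400) (l 16626224)))) (c (a (a (l 16655504) (l 16661584)) (a (l 16667584) (l 16673472))) (a (c (l 16648184) (l 16641024)) (a (l 16655080) (l 16661864))))) (a (c (a (c (l 16653632) (l 16645888)) (c (l 16665304) (l 16658520))) (a (c (l 16637912) (l 16629712)) (c (l 16651536) (l 16644360)))) (c (a (c (l 16676712) (l 16670832)) (c (l 16687808) (l 16682784))) (a (c (l 16664784) (l 16658560)) (c (l 16677600) (l 16672280))))))), by decide +kernel⟩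

def k131_pp_022_t : ∃ t, chk3 f_pp_022_t t 76 59 1 = true :=
  ⟨(b (b (c (a (a (l 16668184) (l 16674144)) (c (l 16680592) (l 16674752))) (a (c (a (l 16652240) (l 16658912)) (a (l 16644848) (l 16652016))) (c (a (l 16665488) (l 16671976)) (l 16641584)))) (c (a (c (a (l 16682248) (l 16687784)) (a (l 16676280) (l 16682256))) (c (a (l 16693256) (l 16698624)) (a (l 16688152) (l 16693928)))) (a (c (a (l 16670144) (l 16676568)) (a (l 16663824) (l 16670720))) (c (a (l 16682896) (l 16689096)) (a (l 16677496) (l 16684128)))))) (b (c (a (c (a (l 16698184) (l 16703528)) (a (l 16693232) (l 16698984))) (c (a (l 16708768) (l 16713896)) (a (l 16704616) (l 16710120)))) (a (c (a (l 16688136) (l 16694312)) (a (l 16682896) (l 16689504))) (c (a (l 16700344) (l 16706240)) (a (l 16695952) (l 16702248))))) (c (a (c (c (l 16696720) (l 16715840)) (a (l 16710264) (l 16715752))) (c (c (l 16706536) (l 16705048)) (c (l 16703536) (l 16702000)))) (a (c (c (l 16689168) (l 16687208)) (c (l 16685224) (l 16683216))) (c (c (l 16700440) (l 16698864))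 (c (l 16697264) (l 16695640))))))), by decide +kernel⟩

def k132_pp_022_t : ∃ t, chk3 f_pp_022_t t 77 59 1 = true :=
  ⟨(b (b (c (a (c (l 16691600) (l 16686608)) (c (l 16702184) (l 16697976))) (a (c (a (l 16678336) (l 16684568)) (l 16655216)) (c (l 16672672) (l 16668224)))) (c (a (c (a (l 16703888) (l 16709048)) (a (l 16699584) (l 16705120))) (c (a (l 16714088) (l 16719024)) (l 16692208))) (a (c (a (l 16695160) (l 16701080)) (a (l 16690600) (l 16696920))) (c (a (l 16706856) (l 16712488)) (l 16685128))))) (c (b (a (c (a (l 16718912) (l 16723824)) (a (l 16715504) (l 16720752))) (c (a (l 16728608) (l 16733280)) (a (l 16725872) (l 16730856)))) (a (c (c (l 16726392) (l 16714744)) (c (l 16713560) (l 16712360))) (c (a (l 16722160) (l 16726568)) (c (l 16723056) (l 16722160))))) (b (a (c (a (l 16711992) (l 16717600)) (a (l 16708384) (l 16714352))) (c (a (l 16723056) (l 16728368)) (a (l 16720160) (l 16725800)))) (a (c (c (l 16711144) (l 16709904)) (c (l 16708656) (l 16707384))) (c (a (l 16718280) (l 16723248)) (a (l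 16716256) (l 16721520))))))), by decide +kernel⟩

def k133_pp_022_t : ∃ t, chk3 f_pp_022_t t 78 29 1 = true :=
  ⟨(b (c (a (b (c (b (l 16656856) (l 16670712)) (b (l 16650304) (l 16664936))) (c (b (l 16684584) (l 16698456)) (b (l 16679576) (l 16694216)))) (b (c (l 16654280) (l 16648992)) (c (b (l 16695304) (l 16708672)) (b (l 16691080) (l 16705144))))) (a (b (c (b (l 16643568) (l 16658992)) (b (l 16636632) (l 16652872))) (c (b (l 16674416) (l 16689840)) (c (l 16657512) (l 16655032)))) (b (c (b (l 16657096) (l 16671920)) (l 16637952)) (c (c (l 16674176) (l 16672152)) (c (l 16670104) (l 16668024)))))) (b (c (a (a (b (l 16708024) (l 16711920)) (b (l 16713152) (l 16716768))) (a (b (l 16718160) (l 16721496)) (b (l 16723040) (l 16726088)))) (a (c (b (l 16684288) (a (l 16717976) (l 16723304))) (b (l 16680600) (l 16696792))) (a (c (l 16700080) (l 16697296)) (c (l 16705272) (l 16702800))))) (a (a (c (b (c (l 16737832) (l 16735704)) (c (l 16730840) (l 16729472))) (c (b (l 16733520) (l 16728064)) (b (l 16731264) (l 16726616))))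 (b (c (c (l 16742256) (l 16740416)) (a (l 16715304) (l 16717832))) (c (c (l 16734984) (l 16733864)) (c (l 16732712) (l 16731528))))) (c (c (b (c (l 16728040) (l 16727328)) (a (l 16749488) (l 16753360))) (b (c (l 16726600) (l 16725864)) (a (l 16738112) (l 16742208)))) (c (b (c (l 16725112) (l 16724360)) (a (l 16737200) (l 16741520))) (b (c (l 16723584) (l 16722808)) (a (l 16736264) (l 16740808)))))))), by decide +kernel⟩

def k134_pp_022_t : ∃ t, chk3 f_pp_022_t t 79 29 1 = true :=
  ⟨(a (c (c (b (b (l 16665328) (c (l 16691832) (l 16690264))) (a (b (l 16714480) (b (l 16733792) (l 16757104))) (b (l 16724064) (b (l 16737696) (a (l 16749328) (l 56069427223)))))) (b (b (l 16660848) (c (l 16688672) (l 16687056))) (b (a (l 16712424) (l 16717032)) (b (a (l 16732696) (l 16736816)) (a (l 16756640) (a (l 16749000) (l 54458813511))))))) (b (b (c (l 16656248) (l 16651512)) (c (c (l 16685416) (l 16683752)) (c (l 16682064) (l 16680360)))) (b (c (a (l 16710312) (l 16715192)) (a (l 16708136) (l 16713296))) (a (c (b (l 16731568)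 (l 16756152)) (b (l 16730400) (l 16755656))) (b (c (l 16735912) (l 16734976)) (a (c (l 16748656) (l 16748312)) (a (l 49090103255) (b (l 16768464) (l 49626974039))))))))) (b (c (b (c (l 16675856) (l 16672128)) (c (c (l 16701144) (l 16699888)) (c (l 16698600) (l 16697304)))) (b (c (l 16668296) (l 16664352)) (c (c (l 16695984) (l 16694648)) (c (l 16693288) (l 16691912))))) (b (a (c (c (l 16726928) (l 16721456)) (c (c (l 16720264) (l 16719464)) (l 16718232))) (b (c (l 16720144) (l 16716880)) (c (l 16742936) (a (l 16729248) (l 16731376))))) (a (b (c (c (l 16741416) (l 16740736)) (c (l 16740032) (l 16739312))) (a (b (c (l 16770560) (l 16748976)) (b (c (l 16775264) (l 16775080)) (b (c (l 16779544) (l 127473256615)) (l 4)))) (b (c (l 16772320) (l 16750896)) (b (c (c (l 16776672) (l 16776640)) (c (l 16776608) (l 16755600))) (l 4))))) (a (c (b (l 16754320) (b (l 16774016) (l 257932908615))) (b (l 16753192) (b (l 16763240) (a (l 256322283207) (l 275112757719))))) (b (c (l 16756104) (l 16755160)) (b (c (c (l 16777496)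 (l 16775448)) (c (l 16759632) (l 49090096727))) (l 4)))))))), by decide +kernel⟩

def k135_pp_022_t : ∃ t, chk3 f_pp_022_t t 72 120 1 = true :=
  ⟨(b (c (a (c (a (l 16641008) (l 16647272)) (a (l 16630504) (l 16637360))) (c (a (l 16653432) (l 16659480)) (a (l 16644088) (l 16650704)))) (a (c (a (l 16619696) (l 16627160)) (a (l 16613832) (l 16616672))) (c (a (l 16634480) (l 16641664)) (a (l 16624600) (l 16632376))))) (c (a (c (a (l 16659776) (l 16665872)) (a (l 16650744) (l 16657400))) (c (a (l 16671856) (l 16677744)) (a (l 16663936) (l 16670352)))) (a (c (a (c (l 16643800) (l 16639088)) (c (l 16650888) (l 16646464))) (a (c (l 16634312) (l 16629472)) (l 16643656))) (c (a (c (l 16657840) (l 16653704)) (c (l 16664656) (l 16660800))) (a (l 16652640) (l 16657536)))))), by decide +kernel⟩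

def k136_pp_022_t : ∃ t, chk3 f_pp_022_t t 72 121 1 = true :=
  ⟨(c (a (c (b (a (c (l 16680328) (l 16676600)) (c (l 16686128) (l 16682656))) (a (c (l 16698664) (l 16695656)) (c (l 16704312) (l 16701544)))) (b (a (c (l 16672816) (l 16668976)) (c (l 16679144) (l 16675568))) (a (c (l 16692600) (l 16689496)) (c (l 16698744) (l 16695896))))) (c (b (a (c (l 16691824) (l 16688616)) (c (l 16697424) (l 16694456))) (c (a (l 16709856) (l 16715296)) (a (l 16707328) (l 16713008)))) (b (a (c (l 16685352) (l 16682040)) (c (l 16691448) (l 16688392))) (c (a (l 16704768) (l 16710680)) (a (l 16702168) (l 16708312)))))) (a (c (b (a (c (l 16665080) (l 16661136)) (c (l 16671952) (l 16668280))) (c (a (l 16686360) (l 16693008)) (a (l 16683168) (l 16690088)))) (b (a (c (l 16657136) (l 16653080)) (c (l 16664560) (l 16660792))) (c (a (l 16679944) (l 16687120)) (a (l 16676664) (l 16684112))))) (a (b (c (c (l 16678688) (l 16675288)) (c (l 16671840) (l 16668344))) (c (c (l 16699528) (l 16696856)) (b (l 16687104) (l 16698448)))) (b (c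 (c (l 16685296) (l 16682152)) (c (l 16678968) (l 16675736))) (c (b (l 16699456) (l 16709960)) (b (l 16694176) (l 16705392))))))), by decide +kernel⟩

def k137_pp_022_t : ∃ t, chk3 f_pp_022_t t 73 60 2 = true :=
  ⟨(b (a (b (c (a (l 16665432) (l 16671280)) (a (l 16657192) (l 16663560))) (c (a (l 16683528) (l 16689208)) (a (l 16676640) (l 16682816)))) (b (c (a (l 16677016) (l 16682648)) (a (l 16669808) (l 16675936))) (c (a (l 16700024) (l 16702872)) (a (l 16688872) (l 16700048))))) (a (a (b (c (c (l 16702928) (l 16700200)) (c (l 16697424) (l 16694616))) (c (b (l 16715096) (l 16724128)) (b (l 16710560) (l 16720256)))) (b (c (c (l 16708328) (l 16705824)) (c (l 16703288) (l 16700712))) (c (b (l 16720488) (l 16729440)) (b (l 16716392) (l 16726000))))) (b (c (c (a (l 16713632) (l 16718832)) (a (l 16711352) (l 16716760))) (c (a (l 16709040) (l 16714664)) (a (l 16706688) (l 16712544)))) (c (b (a (l 16725776) (l 16730960)) (a (l 16734648) (l 16729264))) (a (c (l 16714608) (l 16715528)) (a (l 16720552) (l 16723304))))))),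 by decide +kernel⟩

def k138_pp_022_t : ∃ t, chk3 f_pp_022_t t 73 60 3 = true :=
  ⟨(b (a (c (a (b (l 16648712) (c (l 16671352) (l 16667752))) (b (l 16655624) (c (l 16677904) (l 16674568)))) (a (b (l 16640000) (l 16664896)) (b (l 16647464) (c (l 16671192) (l 16667760))))) (c (a (b (l 16662400) (c (l 16684328) (l 16681240))) (b (l 16669032) (c (l 16690616) (l 16687776)))) (b (a (l 16654776) (l 16661928)) (c (a (l 16678112) (l 16684888)) (a (l 16674944) (l 16681968)))))) (a (c (b (c (a (l 16691768) (l 16698104)) (a (l 16688872) (l 16695456))) (a (b (l 16705888) (l 16716272)) (b (l 16712184) (l 16722456)))) (b (c (a (l 16685944) (l 16692768)) (a (l 16682968) (l 16690048))) (a (a (l 16694456) (l 16697840)) (a (l 16701192) (l 16704504))))) (b (c (a (b (l 16698024) (l 16708184)) (b (l 16704272) (l 16714312))) (a (b (l 16692792) (l 16703624)) (b (l 16699504) (l 16710208)))) (c (a (b (l 16718336) (l 16718016)) (b (l 16724360) (l 16723928))) (a (a (l 16707776) (l 16711008)) (a (l 16714208) (l 16717368))))))), by decide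 +kernel⟩

def k139_pp_022_t : ∃ t, chk3 f_pp_022_t t 72 122 2 = true :=
  ⟨(a (b (c (a (b (l 16711216) (l 16723240)) (b (l 16716864) (l 16729128))) (a (b (l 16706200) (l 16716328)) (b (l 16712320) (l 16724976)))) (b (c (a (a (l 16728664) (l 16731432)) (a (l 16734176) (l 16736888))) (a (a (l 16724976) (l 16727976)) (a (l 16730944) (l 16733880)))) (c (a (a (l 16738152) (l 16740880)) (a (l 16743584) (l 16746256))) (a (a (l 16735200) (l 16738144)) (a (l 16741064) (l 16743952)))))) (b (b (a (c (l 16722408) (l 16718328)) (c (l 16727848) (l 16724208))) (c (a (a (l 16730288) (l 16732992)) (a (l 16735672) (l 16738328))) (a (a (l 16726792) (l 16729720)) (a (l 16732616) (l 16735480))))) (a (c (b (a (l 16739576) (l 16742240)) (c (l 16740224) (l 16739248))) (b (a (l 16736784) (l 16739664)) (c (l 16738248) (l 16747720)))) (c (b (a (l 16744880) (l 16747496)) (a (l 16743648) (l 16746216))) (b (a (l 16742504) (l 16745328)) (c (l 16743744) (l 16742936))))))), by decide +kernel⟩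

def k140_pp_022_t : ∃ t, chk3 f_pp_022_t t 72 122 3 = true :=
  ⟨(b (b (a (c (a (l 16701032) (l 16710272)) (a (l 16695728) (l 16702848))) (c (c (a (l 16715192) (l 16721416)) (a (l 16713064) (l 16719520))) (a (l 16709816) (l 16706144)))) (a (c (c (a (l 16713024) (l 16719408)) (a (l 16710784) (l 16717408))) (a (c (l 16708512) (l 16706216)) (a (l 16712624) (l 16716088)))) (c (a (c (l 16725656) (l 16723896)) (c (l 16731776) (l 16730240))) (a (a (l 16719504) (l 16722888)) (a (l 16726232) (l 16729536)))))) (b (a (c (a (c (l 16723736) (l 16721880)) (c (l 16730016) (l 16728384))) (a (a (l 16717296) (l 16720768)) (a (l 16724200) (l 16727600)))) (c (a (a (l 16733912) (l 16737008)) (a (l 16740064) (l 16743096))) (a (a (l 16730952) (l 16734272)) (a (l 16737552) (l 16740800))))) (a (c (a (a (l 16732160) (l 16735336)) (a (l 16738472) (l 16741584))) (a (a (l 16729040) (l 16732448)) (c (l 16738128) (l 16726352)))) (c (a (c (l 16736216) (l 16735176)) (c (l 16742120) (l 16741288))) (a (c (l 16734120) (l 16733048)) (a (l 16738432)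 (l 16741608))))))), by decide +kernel⟩

def k141_pp_022_t : ∃ t, chk3 f_pp_022_t t 288 123 1 = true :=
  ⟨(a (b (c (c (b (l 16747712) (b (l 16754936) (l 16759784))) (b (l 16745488) (b (l 16753264) (l 16758472)))) (c (b (l 16732712) (b (l 16751536) (l 16757128))) (b (l 16730360) (b (l 16749768) (l 16755744))))) (b (b (c (c (l 16759408) (l 16763712)) (c (l 16752256) (l 16751264))) (c (c (l 16764304) (l 16763728)) (c (l 16757896) (l 16762536)))) (b (b (c (c (l 16767992) (l 16762448)) (c (l 16762144) (l 16761824))) (a (c (l 16769728) (l 16769392)) (c (c (l 16776240) (l 16776160)) (c (l 16773464) (c (l 16776024) (l 16770744)))))) (b (c (a (a (b (l 16776536) (l 112977774535)) (b (l 16777024) (l 4))) (c (l 233773728375) (l 161296157367))) (c (a (b (l 16776688) (l 131231385831)) (l 294440139895)) (a (b (l 16776648) (l 141431932999)) (l 307861908567)))) (l 4))))) (b (c (c (b (l 16745152) (b (l 16757592) (l 16762416))) (b (l 16748384) (b (l 16756128) (l 16761312)))) (c (b (l 16735832) (a (l 16746144) (l 16747672)))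 (b (l 16733704) (c (l 16745888) (l 16745200))))) (b (c (c (c (l 16761976) (l 16761704)) (c (l 16758800) (l 16758512))) (b (c (l 16755280) (l 16754496)) (c (l 16766136) (l 16765736)))) (b (b (c (a (l 16769848) (c (l 16776328) (l 16776256))) (a (l 16769536) (c (l 16776024) (b (l 16775528) (l 24930942039))))) (a (b (c (a (l 16776632) (l 16777072)) (c (l 16776776) (l 15804136487))) (a (c (l 132841998183) (l 133378869159)) (l 4))) (c (c (l 249879855783) (l 181160381015)) (l 321820554967)))) (l 4))))), by decide +kernel⟩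

def k142_pp_022_t : ∃ t, chk3 f_pp_022_t t 289 123 1 = true :=
  ⟨(a (b (b (c (c (l 16745192) (l 16740768)) (c (l 16738920) (l 16737008))) (c (c (c (l 16752408) (l 16751872)) (c (l 16751328) (l 16750776))) (c (c (l 16750224) (l 16749656)) (c (l 16749080) (l 16748504))))) (b (a (c (c (l 16763776) (l 16763360)) (c (l 16760320) (l 16762504))) (c (b (l 16765016) (a (l 16771000) (c (l 16775080) (l 81302377991)))) (b (l 16763992) (b (l 16768312) (a (l 16770776) (b (l 16776104) (l 60901295047))))))) (b (b (a (b (c (c (l 16776912) (l 16776888)) (c (l 16776856) (c (l 16776840) (l 16776824)))) (a (c (l 154316834567) (l 167738607335)) (l 4))) (c (c (l 259006661335) (l 197266508167)) (l 326115520231))) (l 4)) (l 4)))) (b (b (c (c (l 16747832) (l 16743608)) (c (l 16741968) (l 16740280))) (c (c (c (l 16754952) (l 16754512)) (c (l 16754072) (l 16753624))) (c (c (l 16753168) (l 16752704)) (c (l 16752232) (l 16751760))))) (b (a (b (c (l 16766344) (l 16765520)) (c (b (l 16770104) (b (a (l 16776816) (l 16777192)) (l 178476026359)))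 (b (l 16769832) (b (a (l 16776752) (l 72175585415)) (c (l 199413991143) (l 204782700215)))))) (b (c (l 16767664) (l 16767040)) (b (c (c (l 16777160) (l 16776448)) (a (l 16770888) (b (l 16776240) (l 79691778167)))) (l 4)))) (l 4)))), by decide +kernel⟩

def k143_pp_022_t : ∃ t, chk3 f_pp_022_t t 145 246 1 = true :=
  ⟨(a (b (c (c (a (l 16750440) (b (l 16758536) (l 16763240))) (a (l 16746424) (l 16749200))) (c (a (l 16744984) (l 16747968)) (a (l 16743512) (l 16746704)))) (c (c (a (c (l 16757472) (l 16757136)) (b (l 16757480) (l 16767464))) (a (c (l 16756784) (l 16756432)) (c (l 16759472) (l 16759216)))) (c (c (a (l 16756080) (l 16758960)) (b (l 16754432) (l 16759992))) (a (c (l 16755352) (l 16754976)) (b (l 16755384) (l 16761208)))))) (a (b (c (c (c (l 16753208) (l 16752712)) (l 16754576)) (c (l 16750920) (l 16751168))) (a (c (c (l 54458820039) (l 16763992)) (b (l 16763248) (c (l 16763712) (l 16763504)))) (c (b (l 16765656) (b (l 16774568) (a (l 16776560) (a (l 16776920) (l 16778384))))) (b (l 16764744) (b (l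 16763696) (a (l 101703477223) (b (l 16776608) (l 146263770871)))))))) (b (c (c (c (l 16755696) (l 16755288)) (l 16757296)) (c (l 16756456) (c (l 16753192) (l 16752760)))) (b (c (c (l 16767752) (l 16762200)) (c (l 16761888) (l 16761568))) (b (c (a (l 16770584) (a (l 16776656) (a (l 16776960) (l 16778488)))) (a (l 16772352) (b (l 16771128) (c (l 16776528) (l 85060487559))))) (b (a (c (c (l 16777208) (l 16777120)) (a (l 16776904) (l 169349219975))) (l 4)) (l 4))))))), by decide +kernel⟩

def k144_pp_022_t : ∃ t, chk3 f_pp_022_t t 145 247 1 = true :=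
  ⟨(b (b (b (a (c (a (c (l 16763280) (l 16763024)) (a (l 16770352) (c (c (l 16776680) (l 16776656)) (l 16777936)))) (a (c (l 16762768) (l 16762496)) (a (l 16770112) (a (l 93650413239) (b (l 16776488) (l 115662129159)))))) (b (a (a (a (c (l 16777032) (l 16777000)) (c (l 16777336) (l 132841998167))) (l 4)) (l 4)) (l 4))) (a (a (c (a (l 16770224) (c (l 16777816) (l 16777848))) (a (l 16769976) (a (l 85597349191) (b (l 16776368) (l 97945389111))))) (b (a (a (c (l 16776984) (l 16776936)) (c (l 16777296) (l 116198999895))) (l 4)) (l 4))) (l 4))) (b (a (a (a (b (a (c (l 16776904) (l 16776848)) (c (l 16777248) (l 87744841831))) (l 4)) (l 4)) (l 4)) (l 4)) (l 4))) (l 4)), by decide +kernel⟩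

def k145_pp_022_t : ∃ t, chk3 f_pp_022_t t 73 244 1 = true :=
  ⟨(c (b (a (c (a (l 16735800) (a (l 16737112) (l 16739704))) (a (l 16729976) (l 16725136))) (a (c (a (l 16742264) (l 16744808)) (l 16730664)) (c (a (l 16747320) (l 16749800)) (a (l 16745216) (l 16747888))))) (a (c (a (a (l 16740952) (l 16743552)) (a (l 16746128) (l 16748680))) (a (a (l 16738312) (l 16741120)) (a (l 16743896) (l 16746640)))) (c (a (a (l 16751200) (l 16753704)) (c (l 16747248) (l 16746568))) (a (a (l 16749352) (l 16752040)) (b (l 16753640) (l 16747896)))))) (a (c (a (c (b (l 16727512) (l 16737768)) (b (l 16725840) (l 16736448))) (c (a (l 16726600) (l 16729520)) (a (l 16714776) (l 16717808)))) (a (b (l 16712808) (a (l 16732808) (l 16736040))) (b (l 16719320) (a (l 16739232) (l 16742384))))) (a (c (c (c (l 16728872) (l 16728336)) (a (l 16720800) (l 16723752))) (b (a (l 16734584) (l 16737728)) (a (l 16745496) (l 16748576)))) (c (c (b (l 16745008) (l 16744464)) (b (l 16743960) (l 16733248))) (b (a (l 16740832) (l 16743896)) (c (l 16743008)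 (l 16742264))))))), by decide +kernel⟩

def k146_pp_022_t : ∃ t, chk3 f_pp_022_t t 73 245 1 = true :=
  ⟨(b (a (c (c (a (a (l 16750080) (l 16752640)) (c (l 16746312) (l 16745584))) (a (a (l 16748112) (l 16750872)) (c (l 16744840) (l 16744088)))) (c (a (b (l 16734464) (l 16742328)) (c (l 16743320) (l 16742544))) (a (c (l 16735608) (l 16734600)) (a (l 16739816) (l 16742904))))) (c (a (c (a (l 16749688) (l 16752144)) (c (l 16750080) (l 16749512))) (c (a (l 16754576) (l 16756984)) (c (l 16755208) (l 16754824)))) (c (a (c (l 16748944) (l 16748360)) (c (l 16754432) (l 16754032))) (a (a (l 16745960) (l 16748976)) (a (l 16751952) (l 16754888)))))) (a (c (c (a (a (l 16748768) (l 16751288)) (a (l 16759024) (l 16758872))) (a (a (l 16747464) (l 16750176)) (c (l 16754392) (l 16753968)))) (a (c (c (l 16747896) (l 16747264)) (a (l 16744752) (l 16747856))) (c (c (l 16753544) (l 16753104)) (a (l 16750920) (l 16753952))))) (a (c (c (a (l 16761312) (l 16763736)) (a (l 16758128) (l 16763336))) (c (c (l 16759056) (l 16758800))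 (a (l 16756944) (l 16761856)))) (a (b (c (c (l 16761264) (l 16760888)) (c (l 16760496) (l 16760088))) (a (c (c (l 16775528) (l 16775408)) (c (l 16770040) (l 76470537895))) (b (c (l 16775640) (l 16764944)) (b (c (l 16778344) (c (l 16776816) (l 16776672))) (l 4))))) (a (b (c (l 16762928) (l 16762400)) (b (c (c (l 16776672) (l 16776632)) (c (l 16776584) (l 16776544))) (l 4))) (c (b (l 16769384) (a (l 270280947399) (l 311620006711))) (b (l 16769024) (c (l 280481488807) (l 278870872439))))))))), by decide +kernel⟩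

def k147_pp_022_t : ∃ t, chk3 f_pp_022_t t 73 492 1 = true :=
  ⟨(a (a (a (c (c (c (l 16758152) (l 16757840)) (l 16759992)) (c (l 16759344) (c (l 16756224) (l 16755888)))) (c (c (c (l 16760592) (l 16760368)) (l 16762656)) (c (l 16762192) (c (l 16759216) (l 16758976))))) (b (c (c (a (l 16760640) (l 16763080)) (a (l 16760200) (l 16762816))) (c (c (l 16761248) (l 16761064)) (a (l 16759296) (l 16762280)))) (a (c (a (c (l 16769824) (l 16764432)) (b (l 16775104) (b (l 16776768) (l 123178322823)))) (a (c (l 16764272) (l 16769352)) (a (c (l 16774368) (l 88281699783)) (b (l 16775168) (c (l 16777552) (l 78081165911)))))) (c (b (a (c (l 16776296) (l 16776232)) (a (l 16778576) (l 88281713559))) (c (l 234847470439) (l 304640685223))) (a (b (c (l 16776160) (l 16776088)) (l 296050747079)) (c (l 269744073463) (a (l 264912233863) (l 283165841575)))))))) (a (b (a (a (c (c (l 16775304) (l 16764680)) (c (l 16764544) (l 16769640))) (c (b (l 16775376) (c (l 61438165623) (l 62511904855))) (b (l 16764632) (b (a (l 16776712) (l 16776656))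 (l 174717930007))))) (c (a (b (c (l 16776488) (l 16776440)) (l 183844736103)) (c (l 216056984967) (l 274039042727))) (a (b (c (l 16776384) (l 16776320)) (l 313767485639)) (c (l 275112781191) (l 274039041255))))) (a (a (c (l 306788170183) (b (l 308935648199) (l 4))) (l 4)) (l 4))) (l 4))), by decide +kernel⟩

def k148_pp_022_t : ∃ t, chk3 f_pp_022_t t 73 493 1 = true :=
  ⟨(a (a (a (a (c (a (b (l 16763960) (c (l 225183793927) (l 276723399671))) (b (l 16769816) (l 265449112647))) (c (b (l 16763992) (l 296050747223)) (b (l 16763808) (l 293366387623)))) (b (b (c (l 16774832) (l 16764008)) (b (c (l 16776576) (l 86134220903)) (a (c (l 16777192) (l 16776584)) (l 4)))) (l 4))) (b (b (a (c (l 16774744) (c (l 16775928) (l 16775840))) (b (c (l 16776672) (l 96334768615)) (c (l 108682807591) (c (l 16776088) (l 116735871207))))) (a (a (b (c (l 16777224) (l 16776456)) (l 4)) (l 4)) (l 4))) (l 4))) (a (a (a (b (c (l 264375369703) (l 306788162503)) (l 4)) (l 4)) (l 4)) (l 4))) (l 4)), by decide +kernel⟩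

def k149_pp_022_t : ∃ t, chk3 f_pp_022_t t 73 247 1 = true :=
  ⟨(l 4), by decide +kernel⟩

def k150_pp_022_t : ∃ t, chk3 f_pp_022_t t 37 120 1 = true :=
  ⟨(a (c (a (a (b (c (l 16688192) (l 16681952)) (c (l 16708248) (l 16703248))) (b (c (l 16693664) (l 16687888)) (c (c (l 16712056) (l 16709808)) (l 16710304)))) (a (b (c (l 16699072) (l 16693744)) (c (c (l 16717200) (l 16715160)) (b (l 16707472) (l 16716592)))) (b (c (l 16704424) (l 16699536)) (c (b (l 16717144) (l 16725592)) (b (l 16713112) (l 16722136)))))) (a (c (b (a (l 16675536) (l 16681944)) (c (a (l 16696784) (l 16702856)) (a (l 16694176) (l 16700472)))) (b (a (l 16668944) (l 16675840)) (a (b (l 16684888) (l 16695488)) (b (l 16691600) (l 16702064))))) (a (c (b (l 16688264) (b (l 16702896) (l 16712624))) (b (l 16682632) (b (l 16698200) (l 16708544)))) (c (b (l 16695808) (b (l 16708968) (l 16718584))) (b (l 16689328) (b (l 16704704) (l 16714920))))))) (c (a (a (b (c (l 16709720) (l 16705248)) (c (b (l 16722320) (l 16730688)) (b (l 16718696) (l 16727616))))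 (c (b (l 16714976) (b (l 16727432) (l 16735712))) (b (l 16710912) (b (l 16724192) (l 16733008))))) (b (c (a (l 16720152) (l 16714760)) (a (l 16716480) (l 16721952))) (c (a (b (l 16732464) (l 16740616)) (b (l 16737376) (l 16745408))) (a (b (l 16729592) (l 16738272)) (l 16724720))))) (a (a (c (b (c (l 16701816) (l 16699480)) (b (l 16714960) (l 16724456))) (b (l 16695920) (b (l 16711120) (l 16721208)))) (c (b (l 16691000) (b (l 16720848) (l 16730224))) (b (l 16681456) (b (l 16717416) (l 16727368))))) (b (c (a (l 16702216) (l 16697592)) (a (l 16687848) (l 16694112))) (c (a (b (l 16726632) (l 16735856)) (b (l 16732264) (l 16741328))) (a (b (l 16723584) (l 16733368)) (b (l 16729592) (l 16739200)))))))), by decide +kernel⟩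

def k151_pp_022_t : ∃ t, chk3 f_pp_022_t t 37 242 1 = true :=
  ⟨(a (a (c (c (a (b (l 16718664) (l 16727352)) (b (l 16723848) (l 16732456))) (a (b (l 16714584) (l 16723888)) (b (l 16720184) (l 16729392)))) (c (a (b (l 16710384) (l 16720320)) (b (l 16716408) (l 16726224))) (a (b (l 16706072) (l 16716648)) (b (l 16712528) (l 16722976))))) (c (c (a (b (l 16728976) (l 16737504)) (c (l 16728432) (l 16727144))) (a (b (l 16725704) (l 16734816)) (c (l 16715360) (l 16735008)))) (c (a (b (l 16722336) (l 16732048)) (c (l 16712696) (l 16711344))) (a (c (l 16703872) (l 16702272)) (a (l 16707728) (l 16710800)))))) (a (c (c (a (a (l 16731512) (l 16733968)) (a (l 16736392) (l 16738784))) (a (c (l 16720576) (l 16719440)) (c (l 16725688) (l 16724728)))) (c (a (c (l 16718280) (l 16717112)) (c (l 16723752) (l 16722760))) (a (a (l 16713832) (l 16716832)) (a (l 16719792) (l 16722704))))) (c (b (a (c (l 16748744) (l 16746920)) (a (l 16751472) (l 16743368))) (a (c (l 16746360) (l 16745056)) (c (l 16750904) (l 16749904)))) (a (c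 (c (l 16739552) (l 16728248)) (a (l 16725584) (l 16728408))) (c (b (l 16729392) (l 16748880)) (b (l 16727800) (l 16747824))))))), by decide +kernel⟩

def k152_pp_022_t : ∃ t, chk3 f_pp_022_t t 37 243 1 = true :=
  ⟨(b (a (a (a (c (c (l 16736048) (l 16733192)) (c (l 16730256) (l 16727232))) (c (a (l 16728064) (l 16730656)) (c (l 16725568) (l 16722952)))) (c (a (a (l 16733232) (l 16735784)) (c (l 16740448) (l 16738696))) (c (a (l 16731280) (l 16736888)) (a (l 16729056) (l 16735032))))) (c (a (a (c (l 16745240) (l 16743824)) (a (l 16748168) (l 16753168))) (c (a (l 16754440) (l 16761480)) (a (l 16753656) (l 16758368)))) (c (a (a (l 16742368) (l 16747688)) (a (l 16752848) (l 16757856))) (a (a (l 16740872) (l 16746528)) (a (l 16752016) (a (l 16745536) (l 16748144))))))) (a (a (c (a (c (l 16734280) (l 16732024)) (c (a (l 16748472) (l 16750936)) (l 16737352))) (c (a (l 16729712) (l 16735416)) (a (l 16727336) (l 16733424)))) (a (c (c (a (l 16753376) (l 16755792)) (l 16742576)) (c (l 16741000) (l 16739392))) (c (c (b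 (l 16757264) (l 16751000)) (l 16747704)) (c (b (l 16754568) (l 16748872)) (c (l 16756024) (l 16734416)))))) (a (c (c (a (c (l 16753768) (l 16753336)) (a (l 16756968) (l 16759208))) (a (l 16752688) (c (l 16747192) (l 16746904)))) (c (c (a (l 16741536) (l 16746624)) (a (l 16741088) (l 16746328))) (c (a (l 16740624) (l 16746032)) (a (l 16740160) (l 16756216))))) (b (c (a (c (l 16760496) (l 16760096)) (a (l 16768896) (a (l 16775696) (b (l 16775856) (l 91502939671))))) (a (c (l 16759688) (l 16759264)) (a (l 16768512) (a (l 49626984791) (a (l 104924700567) (a (l 123715183991) (l 214446368903))))))) (a (c (a (l 16768584) (b (l 16775016) (c (l 16778064) (l 16776720)))) (a (l 16768144) (a (l 16769968) (b (l 16775360) (c (l 16775936) (l 16775648)))))) (a (b (a (c (l 16776544) (l 16776456)) (c (l 78618037863) (l 247195496487))) (c (a (l 183307865047) (l 4)) (l 296587610663))) (l 4))))))), by decide +kernel⟩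

def k153_pp_022_t : ∃ t, chk3 f_pp_022_t t 37 488 1 = true :=
  ⟨(b (a (c (a (a (c (l 16751304) (l 16749512)) (a (l 16754216) (l 16756736))) (a (c (l 16750520) (l 16749424)) (c (l 16755216) (l 16754448)))) (a (a (a (l 16734776) (l 16737696)) (a (l 16740600) (l 16743472))) (a (c (l 16748296) (l 16747144)) (c (l 16753656) (l 16752848))))) (a (c (a (c (l 16759784) (l 16759328)) (a (l 16768264) (b (l 16774720) (a (l 16776208) (l 16778800))))) (a (c (l 16758864) (l 16758376)) (a (l 16767784) (a (l 16764424) (c (l 16775992) (l 98482248119)))))) (a (a (a (b (c (l 16776328) (l 16776208)) (c (l 145726901575) (l 154853706903))) (b (c (l 16779080) (a (l 16776936) (l 16764856))) (l 4))) (c (l 300882585831) (b (l 293366396631) (l 4)))) (l 4)))) (a (c (c (a (a (l 16755680) (l 16750032)) (a (l 16754792) (l 16764672))) (a (a (l 16754192) (l 16748896)) (a (l 16753992) (l 16758944)))) (c (a (a (l 16742168) (l 16747728)) (a (l 16753160) (l 16758448))) (a (a (l 16740600) (l 16746520)) (a (l 16752312) (l 16760552))))) (a (a (a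 (c (l 16767944) (l 16766760)) (c (c (l 16775736) (l 16775288)) (a (l 16764112) (c (l 16775752) (l 16775656))))) (a (b (c (a (l 16776088) (l 16778232)) (a (l 16775936) (a (l 16776736) (l 16776192)))) (a (b (c (l 16776384) (l 126399521271)) (l 4)) (l 4))) (a (c (l 285850198631) (l 290145159415)) (l 4)))) (l 4)))), by decide +kernel⟩

def k154_pp_022_t : ∃ t, chk3 f_pp_022_t t 37 489 1 = true :=
  ⟨(a (c (a (a (c (a (l 16750560) (l 16752968)) (c (l 16750992) (l 16750472))) (a (c (l 16755352) (l 16754576)) (c (l 16757720) (l 16757112)))) (a (a (c (l 16760056) (l 16759608)) (a (l 16766864) (b (l 16760600) (l 70564958871)))) (a (b (l 16767616) (a (b (l 16775560) (c (l 16776672) (l 16776248))) (b (l 16776568) (l 4)))) (b (c (l 16775168) (l 16769784)) (a (l 272965299367) (l 4)))))) (a (c (a (c (l 16749944) (l 16749400)) (c (l 16755312) (l 16754944))) (a (a (l 16747104) (l 16750040)) (a (l 16752952) (l 16755832)))) (a (a (a (l 16760840) (l 16762208)) (a (l 16763560) (c (l 16762368) (l 16764712)))) (a (a (b (l 16761128)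 (b (l 16775336) (c (l 16775832) (l 70564952807)))) (b (l 16762464) (b (l 101703476503) (l 4)))) (c (b (l 16769640) (l 275112775879)) (b (c (l 16764288) (l 16764216)) (l 274039040903))))))) (a (a (b (a (b (c (a (l 16775832) (l 16776760)) (c (l 16776144) (l 49090110279))) (a (b (c (l 16776808) (l 16777760)) (l 4)) (l 4))) (a (c (l 279407749063) (a (l 274039035687) (l 298735094103))) (l 4))) (l 4)) (l 4)) (l 4))), by decide +kernel⟩

def k155_pp_022_t : ∃ t, chk3 f_pp_022_t t 37 245 1 = true :=
  ⟨(a (b (a (a (c (c (a (l 16759368) (b (l 16759536) (l 16763904))) (a (l 16758856) (l 51774463127))) (c (a (l 16758336) (l 51237590519)) (a (l 16757800) (b (l 16747528) (l 16763304))))) (a (a (c (b (l 16761120) (b (l 16774992) (c (l 16776912) (l 16776880)))) (b (l 16760352) (b (l 16774688) (c (l 16776856) (c (l 16776832) (l 16776816)))))) (b (c (l 16762328) (l 16761728)) (b (c (l 16776136) (l 16770744)) (a (c (l 118883355319) (l 123715193495)) (l 4))))) (a (b (c (l 16763528) (l 16763096)) (b (b (c (l 16776720) (l 16776648))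 (c (l 16778416) (l 114051517303))) (l 4))) (b (c (l 16769920) (l 54995700215)) (c (l 305177553655) (l 298735104967)))))) (a (b (a (b (c (a (l 16775272) (l 16776360)) (c (l 16775648) (l 16765064))) (c (a (c (l 16776912) (l 16776688)) (l 159148674231)) (c (l 250953592007) (a (c (l 16776296) (l 16761768)) (l 173644188119))))) (c (c (l 266522849751) (l 271891555479)) (c (l 270817815511) (a (l 264912230695) (l 301419445015))))) (l 4)) (l 4))) (a (b (a (a (a (c (c (l 16775744) (l 16775640)) (b (l 16763872) (c (l 16776680) (c (l 16776656) (l 16776632))))) (b (c (l 16775896) (l 16765224)) (b (c (l 16778160) (a (l 16776880) (l 16775376))) (l 4)))) (a (b (c (c (l 16776840) (l 16776808)) (c (l 16776776) (c (l 16776752) (l 16776728)))) (l 4)) (c (l 290145169447) (a (l 283165841431) (l 310009383831))))) (l 4)) (l 4)) (l 4))) (l 4)), by decide +kernel⟩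

def k156_pp_022_t : ∃ t, chk3 f_pp_022_t t 37 123 1 = true :=
  ⟨(l 4), by decide +kernel⟩

def k157_pp_022_t : ∃ t, chk3 f_pp_022_t t 18 31 1 = true :=
  ⟨(l 4), by decide +kernel⟩

def k158_pp_022_t : ∃ t, chk3 f_pp_022_t t 152 60 1 = true :=
  ⟨(a (b (c (c (b (l 16719744) (b (l 16742176) (l 16750080))) (b (l 16727296) (l 16731096))) (c (b (l 16703304) (b (l 16737744) (l 16746656))) (b (l 16700208) (c (l 16719704) (l 16718664))))) (b (c (b (c (l 16747472) (l 16735792)) (c (l 16755320) (l 16754616))) (b (c (l 16734560) (l 16733296)) (c (l 16753888) (l 16753136)))) (b (c (a (c (l 16762088) (l 16761800)) (b (l 16762120) (a (l 16775936) (b (l 16776120) (l 116199001543))))) (a (c (l 16751016) (l 16761192)) (b (l 16761552) (b (l 16770144) (a (l 16766304) (l 275112785063)))))) (b (a (a (b (c (l 16776752) (l 16776680)) (l 4)) (c (b (l 105461583271) (l 4)) (l 270817808167))) (l 4)) (l 4))))) (c (b (b (c (l 16724608) (l 16711536)) (c (c (l 16730176) (l 16729376)) (c (l 16728568) (l 16727744)))) (b (c (b (l 16751896)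 (l 16759616)) (b (l 16750992) (l 16759184))) (b (a (b (l 16769496) (b (c (l 69491232823) (l 71638716439)) (l 4))) (b (b (l 16775856) (a (l 16776832) (l 149484997735))) (l 4))) (l 4)))) (b (c (b (l 16708872) (c (l 16726912) (l 16726064))) (b (l 16706136) (a (l 16723392) (l 16726144)))) (b (c (b (l 16750056) (l 16758736)) (b (l 16749096) (l 16758272))) (b (b (b (a (l 16762864) (l 16770448)) (a (l 16770296) (a (l 125862649447) (l 148948126999)))) (a (a (b (l 125325779927) (l 4)) (l 276186515319)) (l 4))) (l 4)))))), by decide +kernel⟩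

def k159_pp_022_t : ∃ t, chk3 f_pp_022_t t 153 60 1 = true :=
  ⟨(b (c (b (c (a (l 16729360) (l 16733984)) (a (l 16716616) (l 16721560))) (b (a (c (l 16751408) (l 16749856)) (c (l 16755840) (l 16754576))) (a (c (l 16748576) (l 16737000)) (c (l 16752872) (l 16741568))))) (b (c (a (l 16714288) (l 16730040)) (a (l 16711904) (l 16717504))) (b (c (c (l 16730176) (l 16729440)) (c (l 16728696) (l 16738424))) (c (a (l 16735872) (l 16740728)) (a (l 16734712) (l 16739856)))))) (b (c (b (a (c (l 16756192) (l 16755560)) (c (l 16760360) (l 16759984))) (a (b (c (l 16761880) (l 16761592)) (a (l 56069441831) (b (l 16776104) (a (l 16776248) (l 182234123239))))) (b (b (c (l 16775408) (l 16775304)) (a (l 16776224) (a (l 16775584) (l 4)))) (c (l 272965296711) (l 271354685415))))) (b (c (a (l 16754904) (l 16759592)) (a (l 16754232) (l 16759192))) (a (a (c (l 16762232) (l 16761976)) (a (c (l 16763824) (l 49090102311)) (b (l 16773400) (b (l 16776512) (l 322894297559))))) (b (a (a (l 16774576) (l 16775632)) (a (a (l 16776344) (l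 125862642663)) (b (l 16776744) (l 4)))) (a (c (l 265449098087) (l 265449095559)) (l 4)))))) (a (b (a (b (a (b (c (l 16776552) (l 126399519127)) (l 4)) (c (l 293903259303) (l 289608286119))) (l 4)) (l 4)) (l 4)) (l 4)))), by decide +kernel⟩

def k160_pp_022_t : ∃ t, chk3 f_pp_022_t t 77 120 1 = true :=
  ⟨(b (a (c (c (a (l 16738496) (l 16742872)) (a (l 16726360) (l 16741512))) (c (a (l 16735152) (l 16740104)) (a (l 16722928) (l 16738664)))) (a (c (c (l 16747128) (l 16746032)) (c (l 16744904) (l 16738496))) (c (c (l 16751256) (l 16750408)) (c (l 16746912) (l 16746008))))) (b (c (a (a (c (l 16739176) (l 16759152)) (c (l 16753840) (l 16742616))) (a (c (l 16757888) (l 16746904)) (c (l 16761792) (l 16761520)))) (a (c (a (l 16737160) (l 16741864)) (a (l 16736112) (l 16741080))) (a (c (l 16746400) (l 16745872)) (c (l 16761240) (l 16760952))))) (a (c (a (c (l 16757048) (l 16756488)) (c (l 16761088) (l 16760760))) (c (a (l 16755904) (l 16760432)) (a (l 16755312) (l 16760088)))) (a (a (c (c (l 16774384) (l 16774224))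 (c (l 50163844615) (b (l 16771952) (l 16762760)))) (b (c (l 16774592) (l 16763816)) (b (c (c (l 16776848) (l 16776800)) (a (l 16776632) (l 16764448))) (l 4)))) (b (a (c (c (l 16776296) (l 16776240)) (c (l 16776184) (l 80765495655))) (b (c (c (l 16776232) (l 16776040)) (a (l 16776856) (l 16763376))) (l 4))) (l 4)))))), by decide +kernel⟩

def k161_pp_022_t : ∃ t, chk3 f_pp_022_t t 77 121 1 = true :=
  ⟨(b (a (a (a (b (c (c (l 16763328) (l 16763128)) (c (l 16762920) (l 16762712))) (a (c (l 285850188007) (a (l 282628955479) (l 289608273527))) (l 4))) (b (b (c (l 16773944) (l 16763088)) (a (c (c (l 16776792) (l 16776752)) (b (l 16776112) (l 129083866439))) (b (c (l 16776944) (l 16776912)) (l 4)))) (l 4))) (b (c (a (b (a (l 16775440) (l 16776272)) (l 276723387783)) (c (l 256322298983) (l 255785427639))) (a (b (a (l 16775232) (l 49090108647)) (c (l 282628963367) (l 273502154903))) (a (c (l 253101065687) (l 254174815511)) (c (l 265985960551) (l 265985956919))))) (l 4))) (b (b (a (a (c (l 290145158887) (l 285850185255))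 (l 4)) (l 4)) (l 4)) (l 4))) (l 4)), by decide +kernel⟩

def k162_pp_022_t : ∃ t, chk3 f_pp_022_t t 39 60 1 = true :=
  ⟨(b (a (a (b (c (a (c (b (l 16741296) (l 16758704)) (l 16754632)) (c (b (l 16745232) (l 16765080)) (b (l 16744648) (l 16762240)))) (a (a (c (l 16742408) (l 16741696)) (c (l 16744600) (l 16744008))) (c (b (l 16744056) (l 16762008)) (b (l 16743440) (l 16764392))))) (b (b (a (c (a (l 16773304) (l 16775192)) (a (l 16772880) (l 16764488))) (a (a (c (l 16776432) (l 16765856)) (c (l 64122518935) (l 128010141991))) (a (b (c (l 16775912) (l 16775456)) (l 4)) (l 4)))) (a (a (c (c (l 16776504) (l 16776456)) (c (l 116198989207) (l 48016357063))) (b (c (c (l 16775520) (l 16775176)) (c (l 16774832) (l 189750289495))) (l 4))) (l 4))) (l 4))) (b (a (a (c (b (l 16758360) (b (l 16773984) (a (l 16776648) (l 80765511975)))) (b (l 16747016) (b (l 16773648) (c (l 126936376087) (l 129083880087))))) (b (c (l 16770760) (l 16759616)) (c (b (l 16775736) (b (l 130157646599) (l 4))) (b (l 49090113383) (l 262764740471)))))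 (c (b (c (l 57143175687) (l 16765536)) (a (c (l 247732359319) (l 247732357111)) (l 279944622551))) (b (a (l 16761688) (a (l 16752712) (l 16764104))) (b (a (c (l 127473244519) (l 129620727255)) (l 274039027431)) (l 4))))) (l 4))) (a (b (b (a (c (b (c (l 16775432) (l 16775344)) (a (b (l 16776848) (l 169349222663)) (l 281018352087))) (b (c (l 16763456) (a (l 16774320) (l 16776088))) (a (c (l 127473241911) (l 129620724871)) (l 277797121591)))) (a (b (b (c (l 16779272) (l 127473259895)) (l 4)) (l 4)) (l 4))) (l 4)) (l 4)) (l 4))) (l 4)), by decide +kernel⟩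

def k163_pp_022_t : ∃ t, chk3 f_pp_022_t t 19 61 1 = true :=
  ⟨(l 4), by decide +kernel⟩

def k164_pp_022_t : ∃ t, chk3 f_pp_022_t t 19 31 1 = true :=
  ⟨(l 4), by decide +kernel⟩

def k165_pp_022_t : ∃ t, chk3 f_pp_022_t t 5 12 1 = true :=
  ⟨(l 6), by decide +kernel⟩

def k166_pp_022_t : ∃ t, chk3 f_pp_022_t t 10 13 1 = true :=
  ⟨(b (l 6) (b (l 6) (a (l 6) (a (a (l 6) (c (a (l 16671512) (l 16701184)) (a (l 16671976) (l 16702768)))) (a (c (c (l 16691600) (l 16693056)) (a (l 16690984) (l 16694312))) (a (c (l 16718520) (l 16714480)) (c (l 16718928) (l 16693296)))))))), by decide +kernel⟩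

def k167_pp_022_t : ∃ t, chk3 f_pp_022_t t 22 13 1 = true :=
  ⟨(a (b (l 6) (b (b (l 6) (c (a (l 16700824) (l 16681016)) (a (l 16672384) (c (l 16695616) (l 16691176))))) (c (a (a (l 16719800) (l 16721128)) (a (c (l 16703320) (l 16700528)) (c (l 16705584) (l 16702720)))) (a (c (a (l 16694992) (l 16696048)) (a (l 16692320) (l 16693176))) (c (a (l 16697632) (l 16699760)) (a (l 16694632) (l 16696688))))))) (a (b (l 6) (c (b (a (l 16675456) (l 16677000)) (a (b (l 16698768) (l 16714968)) (b (l 16701472) (l 16718456)))) (b (c (l 16658032) (l 16663184)) (a (b (l 16691776) (l 16710048)) (c (l 16705576) (l 16702544)))))) (b (a (l 6) (b (l 6) (c (l 16647440) (l 16631368)))) (c (b (a (a (l 16678456) (l 16679560)) (a (l 16680776) (l 16682120))) (b (a (l 16704616) (l 16708192)) (a (l 16722368) (c (l 16727672) (l 16725744))))) (b (c (c (l 16673600) (l 16670896)) (b (l 16677568) (l 16697944))) (b (c (l 16701312) (l 16697808)) (a (a (l 16716840) (l 16719080)) (c (l 16723744) (l 16721672))))))))), by decide +kernel⟩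

def k168_pp_022_t : ∃ t, chk3 f_pp_022_t t 23 26 1 = true :=
  ⟨(b (a (l 6) (a (l 6) (c (a (l 16624912) (l 16607168)) (c (l 16608984) (l 16596832))))) (a (a (c (c (l 16653672) (l 16645728)) (c (l 16637496) (l 16628976))) (c (c (l 16647936) (l 16650448)) (c (b (l 16652352) (l 16673984)) (l 16612648)))) (c (a (c (b (l 16676072) (l 16695672)) (b (l 16667384) (l 16688792))) (c (c (l 16674720) (l 16671104)) (b (l 16675152) (l 16697976)))) (a (c (b (l 16658384) (l 16681656)) (b (l 16649072) (l 16674280))) (c (c (l 16659872) (l 16655992)) (b (l 16657568) (l 16684528))))))), by decide +kernel⟩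

def k169_pp_022_t : ∃ t, chk3 f_pp_022_t t 23 54 1 = true :=
  ⟨(b (a (a (c (c (l 16700528) (l 16694760)) (c (l 16688784) (l 16682600))) (c (c (l 16707328) (l 16701792)) (a (l 16691040) (l 16674320)))) (c (a (c (l 16694784) (l 16689688)) (a (l 16699800) (l 16705312))) (a (c (l 16684408) (l 16678944)) (c (l 16685176) (l 16690904))))) (a (a (c (c (l 16697464) (l 16693128)) (c (l 16688632) (l 16683976))) (c (a (l 16701416) (l 16706024)) (c (l 16697576) (l 16693352)))) (c (a (a (l 16711032) (l 16716424)) (a (a (l 16720728) (l 16723720)) (c (l 16729504) (l 16727216)))) (a (c (c (l 16709408) (l 16728624)) (c (l 16705864) (l 16704048))) (c (a (l 16717984) (l 16724848)) (a (l 16715040) (l 16722400))))))), by decide +kernel⟩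

def k170_pp_022_t : ∃ t, chk3 f_pp_022_t t 23 55 1 = true :=
  ⟨(b (a (c (a (a (l 16712240) (l 16716712)) (a (l 16721616) (c (l 16727992) (l 16725800)))) (a (c (a (l 16728536) (l 16733360)) (c (l 16707568) (l 16705968))) (c (c (l 16721184) (l 16719936)) (a (l 16735992) (l 16721184))))) (a (c (c (c (l 16736752) (l 16735968)) (c (l 16735168) (l 16734360))) (c (a (l 16729808) (l 16736544)) (a (l 16727872) (l 16735080)))) (c (a (c (l 16748088) (l 16744560)) (b (l 16745976) (c (l 111903985319) (l 111367092375)))) (a (c (l 51237549175) (b (l 16735800) (l 16749568))) (b (l 16746872) (c (l 112440832791) (a (l 16755072) (l 111367093079)))))))) (a (a (c (a (c (l 16732328) (l 16730656)) (c (l 16737376) (l 16736016))) (a (c (l 16728920) (l 16727128)) (c (l 16734608) (l 16733144)))) (c (a (a (l 16761840) (l 16743760)) (b (l 16742888) (c (l 53921924759) (l 53385053335)))) (a (c (l 16740760) (l 16739688)) (b (c (l 16741368) (l 16740312)) (c (l 53385052455) (l 52848180823)))))) (b (a (c (a (c (l 16770296) (l 16769752)) (c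 (l 56069398663) (l 55532527367))) (a (a (l 16767104) (l 16749768)) (c (l 55532525655) (c (l 16749368) (l 54995655527))))) (b (a (a (c (l 16752272) (l 16751888)) (l 4)) (l 4)) (l 4))) (a (a (b (a (c (l 16776520) (l 16755352)) (c (l 111903981799) (l 112440851015))) (l 4)) (l 4)) (l 4))))), by decide +kernel⟩

def k171_pp_022_t : ∃ t, chk3 f_pp_022_t t 40 28 1 = true :=
  ⟨(a (b (l 6) (a (b (b (l 6) (c (l 16662616) (l 16652480))) (c (c (l 16682960) (l 16678848)) (c (l 16674616) (l 16670264)))) (c (b (l 16647240) (c (l 16693192) (l 16689808))) (b (c (l 16661552) (l 16656944)) (b (l 16657256) (l 16669840)))))) (a (b (l 6) (c (b (l 16658216) (b (l 16695816) (l 16685816))) (b (c (l 16673712) (l 16669928)) (b (l 16668784) (l 16680600))))) (b (b (l 6) (c (l 16668168) (l 16639752))) (c (b (l 16668352) (b (l 16705136) (l 16694616))) (b (c (l 16684912) (l 16681864)) (b (l 16679352) (l 16690520))))))), by decide +kernel⟩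

def k172_pp_022_t : ∃ t, chk3 f_pp_022_t t 40 58 1 = true :=
  ⟨(a (a (b (c (c (l 16685720) (l 16682664)) (c (l 16679528) (l 16676296))) (c (c (c (l 16709696) (l 16708704)) (c (l 16707696) (l 16706672))) (c (a (l 16702800) (l 16707464)) (a (l 16700528) (l 16705464))))) (b (c (a (l 16691360) (l 16695832)) (c (l 16689800) (l 16687200))) (c (c (a (l 16715328) (l 16719168)) (a (l 16713672) (l 16717736))) (c (a (l 16711976) (l 16716256)) (a (l 16710224) (l 16714736)))))) (c (a (b (c (l 16703240) (l 16701312)) (c (a (l 16722840) (l 16726424)) (a (l 16721608) (l 16725376)))) (b (c (l 16710992) (l 16709520)) (a (c (l 16729888) (l 16729008)) (c (l 16733232) (l 16732512))))) (c (b (a (l 16699328) (l 16708008)) (a (a (l 16720344) (l 16724304)) (a (l 16728112) (l 16731776)))) (b (a (l 16697288) (l 16706448)) (a (a (l 16719040) (l 16723192)) (a (l 16727184) (l 16731016))))))), by decide +kernel⟩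

def k173_pp_022_t : ∃ t, chk3 f_pp_022_t t 80 59 1 = true :=
  ⟨(b (a (c (b (a (l 16724184) (l 16728056)) (a (c (l 16736632) (l 16735784)) (c (l 16740136) (l 16739472)))) (b (c (l 16724216) (l 16722888)) (c (a (l 16734912) (l 16738784)) (a (l 16734016) (l 16738072))))) (c (c (b (l 16744480) (a (l 16743536) (l 16746824))) (b (l 16733120) (a (l 16743032) (l 16746464)))) (c (b (l 16742704) (a (l 16742512) (l 16746088))) (b (l 16731296) (a (l 16741968) (l 16745712)))))) (b (a (c (a (c (l 16758872) (l 16748048)) (b (l 16759128) (a (l 16774624) (b (l 16774856) (c (l 16775232) (l 16774968)))))) (a (c (l 16747704) (l 16747344)) (a (b (l 16747080) (l 16766544)) (b (l 16748920) (c (l 50163833367) (b (l 16774608) (l 129083858663))))))) (a (c (b (a (l 16772104) (l 16773728)) (b (c (a (l 16776328) (l 98482262455)) (l 124252038439)) (l 272428422231))) (c (b (l 16772664) (b (l 125862649959) (l 270817794871))) (b (l 16772488) (a (l 178476001927) (l 248269220247))))) (b (a (c (l 76470535911) (b (l 16773640) (l 49090106951)))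 (b (c (l 16775464) (l 16775328)) (b (c (l 16775792) (l 16764968)) (l 4)))) (l 4)))) (b (a (a (a (b (c (l 16775816) (l 16775688)) (a (c (l 137673838663) (l 128546984055)) (l 4))) (c (c (l 241289908455) (l 241826777639)) (c (l 242363646823) (l 244511128743)))) (a (c (l 271354667031) (l 269744047783)) (l 4))) (l 4)) (l 4)))), by decide +kernel⟩

def k174_pp_022_t : ∃ t, chk3 f_pp_022_t t 81 59 1 = true :=
  ⟨(b (a (b (c (a (l 16749280) (l 16752616)) (c (l 16747496) (l 16746912))) (a (a (c (l 16770048) (l 16748544)) (c (l 16761136) (l 16760736))) (b (c (l 16771240) (l 16762960)) (a (c (l 91502923143) (b (l 16774368) (l 126936382967))) (c (b (l 16776000) (l 125325754279)) (c (l 125862620983) (l 128546995719))))))) (b (c (c (b (l 16744464) (l 16760120)) (l 16755936)) (c (c (l 16746536) (l 16746384)) (a (l 16744432) (l 16747824)))) (a (b (a (c (l 16773536) (l 16773288)) (c (l 16774968) (l 16774816))) (c (a (l 238068681767) (l 265985957559)) (c (l 242363640039) (l 243974261127)))) (b (c (b (a (l 16775184) (l 16776480))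 (a (l 87744845095) (l 133378813815))) (a (c (l 16755144) (l 16755104)) (c (l 125862615927) (l 128546969559)))) (l 4))))) (a (b (a (b (a (b (c (l 16779360) (l 49090103799)) (l 4)) (c (l 252564188823) (l 252027312983))) (l 4)) (l 4)) (l 4)) (l 4))), by decide +kernel⟩

def k175_pp_022_t : ∃ t, chk3 f_pp_022_t t 41 28 1 = true :=
  ⟨(b (b (a (l 6) (a (a (l 6) (l 16659080)) (a (l 16664120) (l 16669032)))) (c (a (c (l 16663968) (l 16661440)) (c (l 16681672) (l 16680344))) (a (a (l 16651784) (l 16663008)) (a (l 16673344) (l 16683048))))) (a (c (a (b (l 16677840) (c (l 16698688) (l 16718008))) (b (l 16686584) (c (l 16706248) (l 16726000)))) (a (b (l 16670584) (c (l 16695328) (l 16693576))) (b (l 16683080) (c (l 16703776) (l 16702488))))) (a (b (c (l 16694824) (l 16692328)) (c (c (l 16713440) (l 16712600)) (c (l 16711736) (l 16710848)))) (b (c (l 16702576) (l 16700944)) (c (a (l 16718232) (l 16721560)) (c (l 16719112) (l 16718560))))))), by decide +kernel⟩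

def k176_pp_022_t : ∃ t, chk3 f_pp_022_t t 41 58 1 = true :=
  ⟨(a (c (a (b (c (l 16718288) (l 16717208)) (c (a (l 16736464) (l 16739584)) (a (l 16735888) (l 16739136)))) (b (c (l 16725120) (l 16724368)) (a (b (l 16737560) (l 16768240)) (b (l 16740608) (l 16760584))))) (a (b (c (l 16716096) (l 16714952)) (c (a (l 16735296) (l 16738672)) (a (l 16734688) (l 16738200)))) (c (b (l 16723600) (b (l 16738480) (l 16758920))) (b (l 16722808) (b (l 16738056) (l 16758728)))))) (a (b (c (a (l 16729680) (l 16732816)) (c (l 16730528) (l 16730024))) (b (c (a (l 16743544) (l 16767320)) (a (l 16743016) (l 16756480))) (b (c (a (l 16771464) (l 16774104)) (c (l 16762184) (l 16762096))) (c (c (a (l 52311320279) (l 228941877143)) (a (l 16757488) (l 180086608215))) (a (c (l 16754840) (l 48553222215)) (b (c (l 16754720) (l 128010115831)) (l 4))))))) (b (c (b (l 16743416) (a (l 16740216) (l 16743008))) (b (c (l 16732424) (l 16732080)) (a (l 16739720) (l 16742664)))) (b (c (c (l 16766096) (l 16760776)) (a (l 16759304) (b (l 16770256)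 (l 16766784)))) (b (c (a (c (l 52311314791) (l 51237572599)) (c (l 233236840215) (l 233773709591))) (a (c (l 50163829735) (l 49090087383)) (c (l 234847449879) (l 236458061063)))) (l 4)))))), by decide +kernel⟩

def k177_pp_022_t : ∃ t, chk3 f_pp_022_t t 41 59 1 = true :=
  ⟨(b (a (a (b (a (c (a (l 16771648) (l 53921945351)) (c (l 16761616) (l 16761464))) (b (c (l 16772744) (l 16762016)) (a (c (a (l 16776400) (l 123178276583)) (c (l 16755592) (l 49090088103))) (b (c (l 16776888) (l 16761128)) (l 4))))) (a (a (b (c (l 243437386743) (l 244511124855)) (l 4)) (l 4)) (l 4))) (b (a (a (c (b (l 16774816) (l 248806091671)) (b (l 16774696) (l 248806087303))) (b (c (l 51237585095) (l 49090100327)) (l 4))) (b (c (c (a (l 122641399975) (l 123715126007)) (l 173107287959)) (a (c (l 125325752727) (l 128010106711)) (l 238068677895))) (l 4))) (l 4))) (a (a (a (b (c (l 264375323015) (l 262764701287)) (l 4)) (l 4)) (l 4)) (l 4))) (l 4)), by decide +kernel⟩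

def k178_pp_022_t : ∃ t, chk3 f_pp_022_t t 42 28 1 = true :=
  ⟨(a (b (c (a (a (l 16683120) (l 16687256)) (a (l 16691272) (l 16695160))) (a (c (l 16684136) (l 16683408)) (b (l 16684832) (l 16700568)))) (b (c (a (l 16709824) (l 16716592)) (a (l 16708952) (l 16721584))) (c (c (a (l 16726448) (l 16753248)) (a (l 16726184) (l 16753176))) (c (c (l 16731760) (l 16729064)) (a (l 16725640) (l 16753048)))))) (b (c (b (a (l 16693336) (l 16721768)) (a (l 16708088) (l 16735696))) (a (a (l 16699088) (l 16703112)) (b (l 16722944) (l 16736600)))) (b (c (a (l 16743848) (l 16728688)) (a (a (l 16721488) (l 16745704)) (c (l 16750128) (l 16750448)))) (c (a (b (l 16754944) (l 16751872)) (c (l 16742592) (l 16742752))) (a (c (l 16737808) (l 16737888)) (c (l 16742912) (l 16743072))))))), by decide +kernel⟩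

def k179_pp_022_t : ∃ t, chk3 f_pp_022_t t 43 28 1 = true :=
  ⟨(a (b (c (a (a (l 16733760) (l 16715944)) (c (l 16719968) (l 16719232))) (a (c (l 16715576) (l 16716416)) (c (l 16718248) (l 16717224)))) (b (c (a (l 16744512) (c (l 16759016) (l 16758544))) (a (a (l 16733568) (l 16735072)) (a (l 16736208) (l 16737496)))) (a (c (c (l 16757584) (l 16747280)) (c (l 16757728) (l 16757552))) (a (c (b (l 16767632) (l 16763736)) (b (l 16767152) (l 48016364935))) (c (b (l 16769280) (c (l 73786154167) (l 50700692583))) (b (l 16768832) (c (l 50163820775) (l 49090078391)))))))) (b (c (a (a (l 16720880) (l 16721800)) (a (l 16722832) (l 16723976))) (a (c (l 16719608) (l 16739384)) (b (l 16734728) (a (l 16727440) (l 16728768))))) (a (a (b (c (l 16760904) (l 16738920)) (b (c (l 16771032) (l 16770656)) (c (b (l 16760600) (l 245584860807)) (b (l 49090102631) (l 245584857079))))) (b (c (l 16762448) (l 16740480)) (b (c (l 16772896) (l 16751640)) (a (c (l 224646898135) (l 227331249431)) (c (l 232163080519) (l 242900494119))))))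 (b (c (c (l 16744224) (l 16743784)) (c (l 16743328) (l 16742848))) (b (c (b (a (l 16773048) (l 16775088)) (c (l 158611785143) (l 160759258615))) (a (b (l 16772744) (l 49626967463)) (a (l 49626953287) (l 162906749319)))) (l 4)))))), by decide +kernel⟩

def k180_pp_022_t : ∃ t, chk3 f_pp_022_t t 21 29 1 = true :=
  ⟨(b (a (a (b (c (a (a (l 16762472) (l 16752024)) (a (l 16762424) (a (l 16759008) (l 50700712967)))) (a (c (b (l 16738464) (l 16767824)) (c (l 16742584) (l 16742520))) (a (c (l 16746640) (l 16746600)) (c (l 16759560) (l 16759552))))) (b (b (c (a (a (l 16772944) (l 16764784)) (a (c (l 122104523111) (l 123178264631)) (l 241289894327))) (a (c (l 16763576) (l 48016364535)) (a (c (l 124788875911) (l 127473229687)) (l 250416695559)))) (a (c (a (a (l 16776352) (l 123178271335)) (l 237531812823)) (a (a (l 16755352) (l 125862623431)) (a (l 125862606983) (l 4)))) (l 4))) (l 4))) (b (a (c (b (a (l 16768616) (l 16770912)) (b (a (l 16774264) (b (l 16775488) (l 122641414071))) (a (c (l 122104518343) (l 123178259495))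 (l 254174791831)))) (b (c (l 16748856) (l 16748888)) (b (a (l 16774280) (c (l 16776240) (l 16755272))) (a (c (l 124788870903) (l 127473224455)) (l 253637916119))))) (b (c (a (l 16762600) (c (l 16756656) (l 16754064))) (a (l 16762688) (c (l 16754096) (l 16754128)))) (a (c (a (l 231089345831) (l 249342945975)) (c (l 233236820263) (l 234847430487))) (l 4)))) (l 4))) (a (b (b (a (a (b (c (l 16775400) (l 16775464)) (c (c (l 121567638167) (l 122641379319)) (l 231089363175))) (c (a (l 220351945351) (l 227868122183)) (c (l 224646899863) (l 226794392535)))) (a (b (c (l 232163092551) (l 233773702087)) (l 4)) (l 4))) (l 4)) (l 4)) (l 4))) (l 4)), by decide +kernel⟩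

def k181_pp_022_t : ∃ t, chk3 f_pp_022_t t 10 15 1 = true :=
  ⟨(l 4), by decide +kernel⟩

def k182_pp_022_t : ∃ t, chk3 f_pp_022_t t 44 28 1 = true :=
  ⟨(b (b (c (a (a (l 16739880) (l 16742424)) (a (l 16745416) (l 16748832))) (a (a (l 16715664) (l 16723376)) (a (c (l 16722000) (l 16720296)) (c (l 16725536) (l 16723912))))) (c (a (a (l 16753968) (l 16755696)) (a (c (l 16761520) (l 16760736)) (a (l 16764264) (l 16766480)))) (a (a (c (l 16731520) (l 16730496)) (c (l 16734976) (l 16734008))) (a (b (l 16744600) (c (l 16743272) (l 16742640))) (c (l 16743424) (l 16742760)))))) (a (a (b (c (c (l 16763672) (l 49090090183)) (c (b (l 16764192) (l 16772248)) (b (l 16742688) (l 16772040)))) (b (b (c (c (l 163980481655) (l 165591094727)) (a (c (l 16777128) (l 16756184)) (c (l 122104509943) (l 124251992631)))) (l 4)) (l 4))) (b (a (c (c (l 51237565463) (l 50163823463)) (c (l 49626952039) (l 49090080743))) (b (c (l 16770008) (l 16769328)) (a (c (l 157001166199) (l 123715150007)) (c (l 168275449287) (l 216593844583)))))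 (l 4))) (b (a (b (c (c (l 16762976) (l 16752296)) (c (l 16762576) (l 16757112))) (a (b (c (l 119957042231) (l 122641394439)) (l 4)) (l 4))) (b (a (c (a (l 52311314167) (l 119957037015)) (c (l 51774428855) (l 51237557799))) (b (c (l 119420184855) (l 122641408935)) (l 4))) (l 4))) (l 4)))), by decide +kernel⟩

def k183_pp_022_t : ∃ t, chk3 f_pp_022_t t 45 28 1 = true :=
  ⟨(b (a (b (a (c (l 16751704) (c (l 16729584) (l 16728096))) (c (c (l 16736576) (l 16735376)) (c (l 16734136) (l 16732848)))) (c (a (a (l 16766176) (c (l 16750416) (l 16750056))) (a (b (l 16769208) (a (l 118346425735) (l 117809543735))) (b (l 16771744) (l 214446348215)))) (a (a (b (l 16742032) (l 16772696)) (c (l 50163823399) (l 50700696807))) (b (a (l 16768248) (l 16771072)) (b (a (l 16754840) (l 119420172007)) (a (l 127473216903) (l 4))))))) (b (c (a (b (l 16736032) (l 16763680)) (c (l 16767072) (l 16745424))) (a (a (l 16737328) (l 16740048)) (c (l 49090075575) (l 49090072487)))) (b (a (a (c (l 16758608) (l 50700710375)) (c (c (l 54458788295)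 (l 16745440)) (a (l 51774443399) (l 119957037495)))) (a (b (c (l 16755296) (l 119957055223)) (l 4)) (c (l 228404982743) (l 228404979031)))) (l 4)))) (a (b (a (a (b (c (l 233236820407) (l 234310568583)) (l 4)) (l 4)) (l 4)) (l 4)) (l 4))), by decide +kernel⟩

def k184_pp_022_t : ∃ t, chk3 f_pp_022_t t 23 28 1 = true :=
  ⟨(a (b (b (b (a (c (a (l 16754160) (a (l 16771520) (l 16758648))) (a (a (l 16743368) (l 16767472)) (c (l 16751440) (l 16756336)))) (a (c (c (a (l 16750008) (l 114051440423)) (l 154853672343)) (a (c (l 16744584) (l 118883296311)) (b (l 16756360) (l 4)))) (a (c (l 224110014791) (l 223573140391)) (l 4)))) (a (a (a (c (a (l 16775024) (l 16755408)) (c (l 16754472) (l 16754304))) (b (c (l 16776136) (l 16754952)) (l 4))) (a (c (l 209614509415) (l 210151377591)) (l 4))) (l 4))) (l 4)) (l 4)) (l 4)), by decide +kernel⟩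

def k185_pp_022_t : ∃ t, chk3 f_pp_022_t t 11 29 1 = true :=
  ⟨(l 4), by decide +kernel⟩

def k186_pp_022_t : ∃ t, chk3 f_pp_022_t t 11 15 1 = true :=
  ⟨(l 4), by decide +kernel⟩

def k187_pp_022_t : ∃ t, chk3 f_pp_022_t t 3 4 1 = true :=
  ⟨(l 6), by decide +kernel⟩

def k188_pp_022_t : ∃ t, chk3 f_pp_022_t t 6 5 1 = true :=
  ⟨(a (l 6) (b (l 6) (b (l 6) (b (l 6) (a (l 6) (a (l 6) (c (c (a (l 16567624) (l 16585232)) (a (l 16541080) (l 16560744))) (c (a (l 16513616) (l 16535400)) (a (l 16485256) (l 16509240)))))))))), by decide +kernel⟩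

def k189_pp_022_t : ∃ t, chk3 f_pp_022_t t 14 5 1 = true :=
  ⟨(b (l 6) (b (a (l 6) (b (b (l 6) (a (l 6) (a (l 6) (c (l 16547248) (l 16486008))))) (a (a (c (c (l 16549024) (l 16518312)) (c (l 16486552) (l 16453792))) (c (c (l 16570424) (l 16542440)) (c (l 16513504) (l 16483648)))) (c (a (c (l 16592776) (l 16567672)) (c (l 16616008) (l 16593952))) (a (c (l 16541728) (l 16514952)) (c (l 16571152) (l 16547624))))))) (b (a (a (a (l 6) (c (c (l 16556960) (l 16528144)) (c (l 16498344) (l 16467576)))) (a (c (c (l 16576512) (l 16550080)) (c (l 16522744) (l 16494528))) (c (c (l 16597080) (l 16573208)) (c (l 16548528) (l 16523040))))) (c (a (a (c (l 16618624) (l 16597480)) (b (l 16613120) (l 16609072))) (a (a (l 16587680) (l 16600328)) (c (l 16646640) (l 16634624)))) (a (c (a (l 16575616) (l 16582984)) (a (l 16553048) (l 16584464))) (c (a (l 16591536) (l 16601216)) (a (l 16575296) (l 16609352)))))) (a (c (a (a (c (l 16603952) (l 16581696)) (c (l 16623736) (l 16603872))) (a (c (l 16602576) (l 16585288)) (c (l 16624320)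 (l 16609768)))) (a (a (c (l 16558656) (l 16534872)) (c (l 16541384) (l 16541136))) (c (a (l 16546432) (l 16573744)) (a (l 16548936) (l 16579168))))) (a (c (a (c (l 16625992) (l 16614336)) (c (l 16649496) (l 16640880))) (a (c (l 16602280) (l 16589824)) (c (l 16631976) (l 16622784)))) (c (a (b (l 16672744) (a (l 16746808) (l 16759496))) (b (l 16699216) (c (l 49090074023) (l 42110749575)))) (a (b (l 16635536) (a (l 16717984) (l 16733888))) (b (l 16668832) (a (b (l 16760128) (l 16772872)) (l 79691707095)))))))))), by decide +kernel⟩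

def k190_pp_022_t : ∃ t, chk3 f_pp_022_t t 15 10 1 = true :=
  ⟨(b (b (l 6) (b (l 6) (a (l 6) (a (l 6) (a (l 6) (c (l 16521624) (l 16451520))))))) (b (a (l 6) (b (a (a (l 6) (c (l 16505800) (l 16431552))) (c (a (l 16533968) (l 16562888)) (a (l 16467280) (l 16504032)))) (a (c (a (l 16518808) (l 16546496)) (c (l 16482784) (l 16448304))) (c (a (l 16574960) (l 16604152)) (a (l 16519456) (l 16556568)))))) (b (a (a (l 6) (a (l 6) (c (l 16531976) (l 16465232)))) (a (c (a (l 16559192) (l 16587208)) (a (l 16499656) (l 16535160))) (c (a (l 16615968) (l 16645416)) (a (l 16571680) (l 16609144))))) (a (a (a (l 6) (c (l 16519392) (l 16449808))) (c (a (l 16545280) (l 16572032)) (a (l 16482424) (l 16516208)))) (a (c (a (l 16599600) (l 16627944)) (a (l 16551112) (l 16587048))) (c (c (l 16636792) (l 16622744)) (c (l 16608240) (l 16593272)))))))), by decide +kernel⟩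

def k191_pp_022_t : ∃ t, chk3 f_pp_022_t t 30 11 1 = true :=
  ⟨(b (c (a (b (c (a (l 16567144) (l 16591192)) (a (l 16538040) (l 16565288))) (a (a (l 16582296) (l 16595344)) (c (l 16643968) (l 16628448)))) (b (a (c (l 16616032) (l 16593488)) (c (l 16641632) (l 16622576))) (a (c (l 16648592) (l 16636544)) (a (l 16642640) (l 16656856))))) (a (c (b (a (l 16507960) (l 16538520)) (c (l 16538016) (l 16508008))) (b (a (l 16476928) (l 16510912)) (c (l 16498832) (l 16489520)))) (b (c (c (l 16528928) (l 16518008)) (a (l 16546152) (l 16582576))) (a (c (l 16624096) (l 16611256)) (c (l 16636744) (l 16627752)))))) (b (a (c (a (c (l 16671568) (l 16641912)) (b (l 16674768) (a (l 16749536) (l 16762240)))) (a (c (l 16632928) (l 16623648)) (a (l 16633168) (b (l 16709352) (l 16737216))))) (a (c (b (l 16702656) (a (l 16751112) (l 16748768))) (b (l 16672968) (c (l 49090070983) (l 42110748119)))) (b (c (c (l 16747552) (l 16746176)) (c (l 16744768) (l 16743312))) (l 4)))) (a (b (c (a (a (l 16760680) (l 16755152)) (a (l 83449812583)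 (l 16743032))) (a (b (l 16711400) (a (l 16768072) (l 16772240))) (a (l 82376066103) (l 16742072)))) (a (a (c (l 16740760) (l 16742448)) (l 4)) (l 4))) (l 4)))), by decide +kernel⟩

def k192_pp_022_t : ∃ t, chk3 f_pp_022_t t 31 11 1 = true :=
  ⟨(b (b (a (c (a (a (l 16611248) (l 16625480)) (c (l 16652928) (l 16641256))) (a (a (l 16556496) (l 16574536)) (c (l 16629192) (l 16616752)))) (c (a (a (l 16669192) (l 16663112)) (b (l 16727992) (a (l 16760552) (l 16771224)))) (a (c (l 16643648) (l 16635336)) (b (l 16672480) (a (l 16755896) (l 16748360)))))) (a (c (a (b (l 16679160) (a (l 16754288) (l 16766336))) (b (l 16724392) (c (l 16749440) (l 16749032)))) (a (b (l 16663928) (a (l 16748072) (l 16742256))) (b (b (l 16709072) (l 16734328)) (c (l 16748600) (l 16748160))))) (b (a (c (c (l 16750872) (l 16750000)) (a (l 16745240) (l 16750400))) (c (l 95260951591) (l 95260947959))) (l 4)))) (a (b (b (b (a (c (l 88818524455) (l 88281651255)) (l 4)) (l 4)) (l 4)) (l 4)) (l 4))), by decide +kernel⟩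

def k193_pp_022_t : ∃ t, chk3 f_pp_022_t t 12 12 1 = true :=
  ⟨(b (l 6) (b (a (l 6) (a (a (l 6) (c (c (l 16613688) (l 16595664)) (c (l 16576992) (l 16557688)))) (c (c (a (l 16646104) (b (l 16624352) (l 16651576))) (a (l 16608136) (b (l 16606944) (l 16637424)))) (a (c (c (l 16594984) (l 16586024)) (l 16509400)) (c (b (l 16588920) (l 16622768)) (b (l 16570288) (l 16607616))))))) (a (a (l 6) (c (c (a (l 16632688) (b (l 16630112) (l 16653928))) (a (l 16617976) (l 16586000))) (a (c (l 16602720) (l 16565976)) (c (b (l 16598784) (l 16628056)) (b (l 16582304) (l 16614440)))))) (a (c (a (c (b (l 16640312) (l 16665208)) (b (l 16625736) (l 16653456))) (c (b (l 16651912) (l 16677856)) (b (l 16638360) (l 16667256)))) (a (c (b (l 16610640) (l 16641272)) (b (l 16595032) (l 16628672))) (c (b (l 16624320) (l 16656264)) (b (l 16609800) (l 16644904))))) (c (a (c (b (l 16664872) (l 16691816)) (b (l 16652544) (l 16682568))) (c (c (l 16653392) (l 16648824)) (c (l 16644168) (l 16639424)))) (a (c (c (l 16617232) (l 16611544)) (b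 (l 16626552) (l 16663064))) (c (a (l 16627568) (l 16636856)) (b (l 16645216) (l 16662112))))))))), by decide +kernel⟩

def k194_pp_022_t : ∃ t, chk3 f_pp_022_t t 24 26 1 = true :=
  ⟨(a (c (b (a (c (l 16618232) (l 16607224)) (c (b (l 16657656) (l 16680032)) (b (l 16646024) (l 16670720)))) (a (c (c (l 16673616) (l 16659832)) (b (l 16684648) (l 16687864))) (c (a (l 16669608) (l 16675456)) (a (l 16684464) (l 16669816))))) (b (a (c (b (l 16624976) (l 16650592)) (l 16584008)) (c (b (l 16633968) (l 16661072)) (b (l 16621496) (l 16651088)))) (b (a (c (l 16676584) (l 16668240)) (a (l 16660576) (l 16667248))) (a (c (l 16681992) (l 16675920)) (c (l 16684944) (l 16690336)))))) (c (a (b (c (b (l 16667184) (l 16690704)) (b (l 16656232) (l 16682224))) (a (b (l 16687480) (l 16712752)) (b (l 16693992) (l 16713312)))) (b (c (a (l 16666456) (l 16672560)) (b (l 16668088) (l 16695320))) (b (c (l 16706856) (l 16701976)) (c (c (l 16732904) (l 16731760)) (a (l 16725976) (l 16734144)))))) (b (a (c (b (l 16644880) (l 16673432)) (b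 (l 16633144) (l 16664336))) (c (c (l 16632952) (l 16628336)) (c (l 16623640) (l 16618872)))) (b (a (c (l 16681368) (l 16674888)) (c (l 16686440) (l 16670728))) (a (c (c (l 16711608) (l 16709696)) (c (l 16707744) (l 16705760))) (c (a (l 16723208) (l 16732096)) (a (l 16720344) (l 16729984)))))))), by decide +kernel⟩

def k195_pp_022_t : ∃ t, chk3 f_pp_022_t t 24 27 1 = true :=
  ⟨(a (b (c (a (b (a (l 16711200) (l 16712232)) (a (a (l 16733240) (l 16736600)) (a (l 16740048) (l 16743568)))) (b (c (a (l 16725496) (l 16732208)) (a (l 16722704) (l 16729992))) (a (b (l 16742776) (c (l 57143146391) (l 57143145895))) (c (b (l 16771304) (l 107072108295)) (b (l 16770744) (l 105998365511)))))) (a (b (c (c (l 16709720) (l 16707832)) (c (l 16705912) (l 16703968))) (c (a (l 16732168) (l 16739904)) (a (l 16730264) (l 16738592)))) (b (c (a (l 16719808) (l 16727696)) (a (l 16716808) (l 16725328))) (a (b (l 16740376) (c (l 57680015639) (l 57680014775))) (c (b (l 16770160) (l 105998363719)) (b (l 16748584) (l 105998362599)))))))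 (a (b (a (a (b (c (l 16772088) (l 16750216)) (c (l 119420140087) (l 119957007287))) (b (c (l 56069414695) (l 56069413271)) (l 4))) (b (c (c (l 109756471031) (l 109219599351)) (c (l 109219597911) (l 109756468023))) (l 4))) (l 4)) (l 4))) (b (a (b (c (a (a (l 16736592) (l 16740360)) (c (l 16756808) (l 16755832))) (a (c (l 16736024) (l 16734320)) (b (l 16736416) (c (l 16751640) (l 16751192))))) (b (a (c (c (l 108682744567) (l 107609002359)) (c (l 107609000967) (l 108682742039))) (a (c (l 116198922295) (l 115662048071)) (l 4))) (l 4))) (b (a (c (b (l 16757888) (c (l 105998381111) (l 104924638583))) (b (b (l 16741768) (l 16749704)) (c (l 104387766295) (l 104924635831)))) (b (a (c (l 16774064) (l 16752384)) (c (l 105461532279) (l 104924659527))) (l 4))) (l 4))) (l 4))), by decide +kernel⟩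

def k196_pp_022_t : ∃ t, chk3 f_pp_022_t t 25 26 1 = true :=
  ⟨(a (a (b (a (c (c (l 16658032) (l 16671096)) (c (l 16641928) (l 16633456))) (c (c (l 16664808) (l 16657528)) (c (l 16649984) (l 16642184)))) (c (a (b (l 16705200) (c (l 16743728) (l 16742472))) (b (c (l 16725168) (l 16722024)) (b (l 16744680) (c (l 104924651239) (l 103314038071))))) (b (c (c (l 16715112) (l 16713256)) (l 16694688)) (a (c (l 16730680) (l 56069365031)) (b (l 16742392) (c (l 103314036631) (l 103850906759))))))) (b (b (c (a (l 16696672) (l 16683208)) (c (l 16667560) (l 16680288))) (c (c (l 16688968) (l 16705136)) (c (l 16679176) (l 16674024)))) (a (a (b (c (l 16729776) (l 16724456)) (c (b (l 16771880) (l 111903959495)) (b (l 16770776) (l 111367085415)))) (b (c (l 16733984) (l 16729496)) (b (c (l 16754544) (l 16754008)) (l 4)))) (b (a (c (l 16738280) (l 16734640)) (c (l 16742568) (l 55532495671))) (b (b (c (l 101703439767) (l 101166567511)) (l 4)) (l 4)))))) (b (c (a (a (b (l 16691056) (l 16709528)) (b (l 16699240) (l 16718232)))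 (b (c (l 16693400) (l 16709824)) (a (a (l 16735456) (l 16740032)) (c (l 16757272) (l 56606251959))))) (a (c (b (l 16664560) (a (l 16714432) (l 16724448))) (a (l 16660704) (l 16671280))) (b (c (l 16684152) (l 16679280)) (a (b (l 16724712) (l 16742968)) (c (l 59290598375) (b (l 16734904) (l 16752384))))))) (b (a (a (b (c (l 16762952) (l 16739056)) (c (c (l 16754816) (l 16754592)) (c (l 16754368) (l 16751544)))) (a (c (b (l 16769672) (l 110293357367)) (b (l 16768104) (l 110293354647))) (b (c (l 16773704) (l 16772864)) (l 4)))) (a (b (c (c (l 16747888) (l 16750248)) (c (l 16749984) (l 95797844103))) (l 4)) (l 4))) (l 4)))), by decide +kernel⟩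

def k197_pp_022_t : ∃ t, chk3 f_pp_022_t t 25 27 1 = true :=
  ⟨(a (b (a (b (a (a (b (c (l 102777162663) (l 101166547239)) (l 4)) (l 4)) (l 4)) (l 4)) (l 4)) (l 4)) (l 4)), by decide +kernel⟩

def k198_pp_022_t : ∃ t, chk3 f_pp_022_t t 13 24 1 = true :=
  ⟨(b (a (b (l 6) (a (l 6) (a (l 6) (a (l 6) (c (l 16588872) (l 16544016)))))) (a (a (c (c (l 16596448) (l 16574184)) (c (l 16551136) (l 16527320))) (c (c (l 16613224) (l 16592872)) (c (b (l 16552128) (l 16591552)) (l 16508112)))) (c (c (a (l 16647536) (b (l 16633856) (l 16666568))) (a (l 16570952) (l 16571272))) (c (a (b (l 16573832) (l 16614216)) (b (l 16597000) (l 16638296))) (a (l 16511552) (l 16537592)))))) (a (a (c (a (c (l 16596320) (l 16575184)) (c (l 16609864) (l 16590096))) (a (c (l 16553288) (l 16530656)) (c (l 16590600) (l 16506528)))) (c (c (a (l 16645648) (b (l 16625640) (l 16655832))) (a (l 16627448) (b (l 16607328) (l 16641280)))) (a (c (b (l 16569280) (l 16606056)) (b (l 16547856) (l 16588536))) (c (b (l 16588368) (l 16626216)) (b (l 16568776)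 (l 16610640)))))) (c (a (a (c (b (l 16642440) (l 16673440)) (b (l 16626024) (l 16660896))) (c (b (l 16660384) (l 16692152)) (b (l 16646040) (l 16681792)))) (a (c (b (l 16679424) (l 16711928)) (b (l 16667328) (l 16703912))) (c (a (l 16668952) (l 16679416)) (c (l 16668472) (l 16664600))))) (a (a (c (b (l 16609024) (l 16647904)) (b (l 16591464) (l 16634480))) (c (b (l 16631192) (l 16671056)) (b (l 16615856) (l 16659960)))) (a (c (c (l 16635864) (l 16630568)) (b (l 16641856) (l 16687024))) (c (a (l 16652192) (l 16665240)) (a (l 16643384) (l 16657792)))))))), by decide +kernel⟩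

def k199_pp_022_t : ∃ t, chk3 f_pp_022_t t 26 25 1 = true :=
  ⟨(a (c (b (a (c (b (l 16637984) (l 16666152)) (b (l 16621944) (l 16653488))) (c (b (l 16652888) (l 16681960)) (b (l 16638408) (l 16670976)))) (a (c (a (l 16662992) (l 16671280)) (a (l 16654920) (l 16664088))) (c (a (l 16679864) (l 16688728)) (a (l 16673592) (l 16683432))))) (b (a (c (b (l 16605328) (l 16640368)) (b (l 16588152) (l 16626808))) (c (b (l 16623400) (l 16659592)) (b (l 16607896) (l 16647824)))) (a (c (c (l 16632560) (l 16628536)) (a (l 16637888) (l 16648912))) (c (a (l 16646120) (l 16656968)) (b (l 16667040) (l 16686504)))))) (c (b (a (c (b (l 16669016) (l 16698960)) (b (l 16656280) (l 16689832))) (c (c (l 16661912) (l 16657520)) (c (l 16653048) (l 16648488)))) (a (a (c (l 16697872) (l 16693592)) (b (l 16710400) (a (l 16740344) (l 16739776)))) (b (c (l 16706224) (l 16702840)) (c (a (l 63585586887) (l 89892245031)) (a (l 62511840295) (l 89355372679)))))) (b (a (c (c (l 16643592) (l 16616864)) (b (l 16629448) (l 16670600))) (c (a (l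 16635944) (l 16647192)) (b (l 16652736) (l 16674096)))) (a (a (b (l 16667176) (l 16706624)) (b (l 16679032) (c (l 16719184) (l 16717552)))) (b (c (l 16699328) (l 16695696)) (a (b (l 16742544) (b (l 16754136) (l 4))) (c (l 88818500647) (l 88281627927)))))))), by decide +kernel⟩

def k200_pp_022_t : ∃ t, chk3 f_pp_022_t t 27 25 1 = true :=
  ⟨(a (b (a (c (c (a (l 16673736) (l 16683408)) (a (l 16666400) (l 16677192))) (c (a (l 16658800) (l 16670760)) (c (l 16638328) (l 16634640)))) (c (b (c (l 16703232) (l 16696816)) (c (l 16735336) (l 16711840))) (b (c (l 16690176) (l 16683312)) (a (l 16701496) (c (l 16715640) (l 16713592)))))) (a (a (a (b (c (l 16759560) (l 16734528)) (c (l 101703393927) (l 102777131415))) (b (c (l 16754024) (l 16727448)) (l 4))) (b (c (b (l 16764560) (l 87744787239)) (b (l 16740656) (l 87207915047))) (l 4))) (b (b (a (c (l 16752832) (l 65196204055)) (c (l 99555941671) (l 100092809911))) (l 4)) (l 4)))) (b (b (c (a (a (l 16716248) (l 16727368)) (a (l 16741112) (b (l 16762408) (l 16753112))))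 (a (c (l 16694688) (l 16690440)) (b (l 16709704) (a (l 16744992) (l 83449824775))))) (b (a (c (a (l 16763336) (l 16752104)) (a (l 16760048) (l 16745688))) (a (c (l 16748416) (l 98482201399)) (l 4))) (a (a (c (l 87207922439) (l 85597306855)) (l 4)) (l 4)))) (l 4))), by decide +kernel⟩

def k201_pp_022_t : ∃ t, chk3 f_pp_022_t t 13 13 1 = true :=
  ⟨(a (b (b (a (a (a (b (c (l 16704752) (l 16698176)) (b (c (l 16748608) (b (l 16763616) (l 16751448))) (a (c (l 16748824) (l 16750864)) (l 4)))) (b (c (l 16714208) (l 16709640)) (b (a (c (l 16775704) (l 16754208)) (c (l 16750088) (l 16749592))) (l 4)))) (a (b (c (c (l 16734448) (l 16722664)) (c (l 16731792) (l 59827454039))) (b (c (l 104924631975) (l 105461499575)) (l 4))) (b (c (c (l 65196200151) (l 63585583559)) (b (l 16744656) (c (l 16747848) (l 16747528)))) (l 4)))) (a (b (b (c (a (l 66269957479) (l 103314026823)) (a (c (l 16753976) (l 16753744)) (l 103850894615))) (l 4)) (l 4)) (l 4))) (l 4)) (l 4)) (l 4)), by decide +kernel⟩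

def k202_pp_022_t : ∃ t, chk3 f_pp_022_t t 6 7 1 = true :=
  ⟨(l 4), by decide +kernel⟩

def k203_pp_022_t : ∃ t, chk3 f_pp_022_t t 7 3 1 = true :=
  ⟨(b (a (b (a (b (a (c (a (b (c (b (l 16653600) (l 16686984)) (l 16593768)) (a (c (l 16690120) (l 16684472)) (c (l 16690440) (l 16675624)))) (b (c (b (l 16674352) (l 16708360)) (l 16617424)) (b (a (l 16713536) (l 16725464)) (a (b (l 16761848) (l 16753344)) (c (l 16751040) (l 16750696)))))) (a (b (c (b (l 16621576) (l 16663744)) (l 16565192)) (b (c (l 16685128) (l 16677512)) (a (l 16697944) (l 59827419351)))) (b (c (b (l 16647504) (l 16690496)) (l 16594312)) (b (c (l 16691736) (l 16708016)) (a (b (l 16758072) (l 16752888)) (c (l 16745096) (l 16749968))))))) (a (b (c (c (l 16650416) (l 16642184)) (c (c (l 16656792) (l 16652456)) (l 16624864))) (a (b (c (l 16737360) (l 16711672)) (c (l 94187208711) (l 94187205415))) (b (c (b (l 16761672) (l 16774312)) (b (l 16757792) (l 16752880))) (l 4)))) (b (c (a (b (l 16708784) (l 16746096)) (c (l 16715688) (l 16674392))) (b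 (a (l 16691512) (l 16685832)) (c (l 16705408) (l 16702128)))) (b (b (c (c (l 16752824) (l 16752480)) (c (l 16752128) (l 16751768))) (l 4)) (l 4))))) (a (b (a (b (b (c (a (l 16772576) (l 16749112)) (a (l 16750312) (l 16748544))) (l 4)) (l 4)) (l 4)) (l 4)) (l 4))) (b (b (b (a (c (a (l 16687400) (c (l 16743112) (l 16741272))) (a (c (l 16711784) (l 16706872)) (a (l 16712000) (b (l 16758816) (l 16773352))))) (a (c (a (l 78081100247) (l 87207894247)) (c (l 80765437287) (l 80228564119))) (l 4))) (a (a (a (c (b (l 16761904) (l 16774136)) (b (l 16758032) (l 16773680))) (b (c (l 16772696) (l 16771376)) (l 4))) (a (c (l 89892246807) (l 89355373367)) (l 4))) (l 4))) (l 4)) (l 4))) (l 4)) (l 4)) (l 4)), by decide +kernel⟩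

theorem s204_pp_022_t : ∃ t, chk3 f_pp_022_t t 13 25 1 = true := ex3_a k199_pp_022_t k200_pp_022_t

theorem s205_pp_022_t : ∃ t, chk3 f_pp_022_t t 13 12 1 = true := ex3_b k198_pp_022_t s204_pp_022_t

theorem s206_pp_022_t : ∃ t, chk3 f_pp_022_t t 13 6 1 = true := ex3_b s205_pp_022_t k201_pp_022_t

theorem s207_pp_022_t : ∃ t, chk3 f_pp_022_t t 25 13 1 = true := ex3_b k196_pp_022_t k197_pp_022_t

theorem s208_pp_022_t : ∃ t, chk3 f_pp_022_t t 24 13 1 = true := ex3_b k194_pp_022_t k195_pp_022_t

theorem s209_pp_022_t : ∃ t, chk3 f_pp_022_t t 12 13 1 = true := ex3_a s208_pp_022_t s207_pp_022_t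

theorem s210_pp_022_t : ∃ t, chk3 f_pp_022_t t 12 6 1 = true := ex3_b k193_pp_022_t s209_pp_022_t

theorem s211_pp_022_t : ∃ t, chk3 f_pp_022_t t 6 6 1 = true := ex3_a s210_pp_022_t s206_pp_022_t

theorem s212_pp_022_t : ∃ t, chk3 f_pp_022_t t 6 3 1 = true := ex3_b s211_pp_022_t k202_pp_022_t

theorem s213_pp_022_t : ∃ t, chk3 f_pp_022_t t 3 3 1 = true := ex3_a s212_pp_022_t k203_pp_022_t

theorem s214_pp_022_t : ∃ t, chk3 f_pp_022_t t 15 11 1 = true := ex3_a k191_pp_022_t k192_pp_022_t

theorem s215_pp_022_t : ∃ t, chk3 f_pp_022_t t 15 5 1 = true := ex3_b k190_pp_022_t s214_pp_022_t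

theorem s216_pp_022_t : ∃ t, chk3 f_pp_022_t t 7 5 1 = true := ex3_a k189_pp_022_t s215_pp_022_t

theorem s217_pp_022_t : ∃ t, chk3 f_pp_022_t t 3 5 1 = true := ex3_a k188_pp_022_t s216_pp_022_t

theorem s218_pp_022_t : ∃ t, chk3 f_pp_022_t t 3 2 1 = true := ex3_b k187_pp_022_t s217_pp_022_t

theorem s219_pp_022_t : ∃ t, chk3 f_pp_022_t t 3 1 1 = true := ex3_b s218_pp_022_t s213_pp_022_t

theorem s220_pp_022_t : ∃ t, chk3 f_pp_022_t t 22 28 1 = true := ex3_a k182_pp_022_t k183_pp_022_t

theorem s221_pp_022_t : ∃ t, chk3 f_pp_022_t t 11 28 1 = true := ex3_a s220_pp_022_t k184_pp_022_t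

theorem s222_pp_022_t : ∃ t, chk3 f_pp_022_t t 11 14 1 = true := ex3_b s221_pp_022_t k185_pp_022_t

theorem s223_pp_022_t : ∃ t, chk3 f_pp_022_t t 11 7 1 = true := ex3_b s222_pp_022_t k186_pp_022_t

theorem s224_pp_022_t : ∃ t, chk3 f_pp_022_t t 21 28 1 = true := ex3_a k178_pp_022_t k179_pp_022_t

theorem s225_pp_022_t : ∃ t, chk3 f_pp_022_t t 21 14 1 = true := ex3_b s224_pp_022_t k180_pp_022_t

theorem s226_pp_022_t : ∃ t, chk3 f_pp_022_t t 41 29 1 = true := ex3_b k176_pp_022_t k177_pp_022_t

theorem s227_pp_022_t : ∃ t, chk3 f_pp_022_t t 41 14 1 = true := ex3_b k175_pp_022_t s226_pp_022_t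

theorem s228_pp_022_t : ∃ t, chk3 f_pp_022_t t 40 59 1 = true := ex3_a k173_pp_022_t k174_pp_022_t

theorem s229_pp_022_t : ∃ t, chk3 f_pp_022_t t 40 29 1 = true := ex3_b k172_pp_022_t s228_pp_022_t

theorem s230_pp_022_t : ∃ t, chk3 f_pp_022_t t 40 14 1 = true := ex3_b k171_pp_022_t s229_pp_022_t

theorem s231_pp_022_t : ∃ t, chk3 f_pp_022_t t 20 14 1 = true := ex3_a s230_pp_022_t s227_pp_022_t

theorem s232_pp_022_t : ∃ t, chk3 f_pp_022_t t 10 14 1 = true := ex3_a s231_pp_022_t s225_pp_022_t

theorem s233_pp_022_t : ∃ t, chk3 f_pp_022_t t 10 7 1 = true := ex3_b s232_pp_022_t k181_pp_022_t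

theorem s234_pp_022_t : ∃ t, chk3 f_pp_022_t t 5 7 1 = true := ex3_a s233_pp_022_t s223_pp_022_t

theorem s235_pp_022_t : ∃ t, chk3 f_pp_022_t t 23 27 1 = true := ex3_b k169_pp_022_t k170_pp_022_t

theorem s236_pp_022_t : ∃ t, chk3 f_pp_022_t t 23 13 1 = true := ex3_b k168_pp_022_t s235_pp_022_t

theorem s237_pp_022_t : ∃ t, chk3 f_pp_022_t t 11 13 1 = true := ex3_a k167_pp_022_t s236_pp_022_t

theorem s238_pp_022_t : ∃ t, chk3 f_pp_022_t t 5 13 1 = true := ex3_a k166_pp_022_t s237_pp_022_t

theorem s239_pp_022_t : ∃ t, chk3 f_pp_022_t t 5 6 1 = true := ex3_b k165_pp_022_t s238_pp_022_t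

theorem s240_pp_022_t : ∃ t, chk3 f_pp_022_t t 5 3 1 = true := ex3_b s239_pp_022_t s234_pp_022_t

theorem s241_pp_022_t : ∃ t, chk3 f_pp_022_t t 77 60 1 = true := ex3_b k160_pp_022_t k161_pp_022_t

theorem s242_pp_022_t : ∃ t, chk3 f_pp_022_t t 76 60 1 = true := ex3_a k158_pp_022_t k159_pp_022_t

theorem s243_pp_022_t : ∃ t, chk3 f_pp_022_t t 38 60 1 = true := ex3_a s242_pp_022_t s241_pp_022_t

theorem s244_pp_022_t : ∃ t, chk3 f_pp_022_t t 19 60 1 = true := ex3_a s243_pp_022_t k162_pp_022_t

theorem s245_pp_022_t : ∃ t, chk3 f_pp_022_t t 19 30 1 = true := ex3_b s244_pp_022_t k163_pp_022_t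

theorem s246_pp_022_t : ∃ t, chk3 f_pp_022_t t 19 15 1 = true := ex3_b s245_pp_022_t k164_pp_022_t

theorem s247_pp_022_t : ∃ t, chk3 f_pp_022_t t 37 244 1 = true := ex3_b k153_pp_022_t k154_pp_022_t

theorem s248_pp_022_t : ∃ t, chk3 f_pp_022_t t 37 122 1 = true := ex3_b s247_pp_022_t k155_pp_022_t

theorem s249_pp_022_t : ∃ t, chk3 f_pp_022_t t 37 61 1 = true := ex3_b s248_pp_022_t k156_pp_022_t

theorem s250_pp_022_t : ∃ t, chk3 f_pp_022_t t 37 121 1 = true := ex3_b k151_pp_022_t k152_pp_022_t

theorem s251_pp_022_t : ∃ t, chk3 f_pp_022_t t 37 60 1 = true := ex3_b k150_pp_022_t s250_pp_022_t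

theorem s252_pp_022_t : ∃ t, chk3 f_pp_022_t t 37 30 1 = true := ex3_b s251_pp_022_t s249_pp_022_t

theorem s253_pp_022_t : ∃ t, chk3 f_pp_022_t t 73 246 1 = true := ex3_b k147_pp_022_t k148_pp_022_t

theorem s254_pp_022_t : ∃ t, chk3 f_pp_022_t t 73 123 1 = true := ex3_b s253_pp_022_t k149_pp_022_t

theorem s255_pp_022_t : ∃ t, chk3 f_pp_022_t t 73 122 1 = true := ex3_b k145_pp_022_t k146_pp_022_t

theorem s256_pp_022_t : ∃ t, chk3 f_pp_022_t t 73 61 1 = true := ex3_b s255_pp_022_t s254_pp_022_t

theorem s257_pp_022_t : ∃ t, chk3 f_pp_022_t t 145 123 1 = true := ex3_b k143_pp_022_t k144_pp_022_t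

theorem s258_pp_022_t : ∃ t, chk3 f_pp_022_t t 144 123 1 = true := ex3_a k141_pp_022_t k142_pp_022_t

theorem s259_pp_022_t : ∃ t, chk3 f_pp_022_t t 72 123 1 = true := ex3_a s258_pp_022_t s257_pp_022_t

theorem s260_pp_022_t : ∃ t, chk3 f_pp_022_t t 72 122 1 = true := ex3_c k139_pp_022_t k140_pp_022_t

theorem s261_pp_022_t : ∃ t, chk3 f_pp_022_t t 72 61 1 = true := ex3_b s260_pp_022_t s259_pp_022_t

theorem s262_pp_022_t : ∃ t, chk3 f_pp_022_t t 36 61 1 = true := ex3_a s261_pp_022_t s256_pp_022_t

theorem s263_pp_022_t : ∃ t, chk3 f_pp_022_t t 73 60 1 = true := ex3_c k137_pp_022_t k138_pp_022_t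

theorem s264_pp_022_t : ∃ t, chk3 f_pp_022_t t 72 60 1 = true := ex3_b k135_pp_022_t k136_pp_022_t

theorem s265_pp_022_t : ∃ t, chk3 f_pp_022_t t 36 60 1 = true := ex3_a s264_pp_022_t s263_pp_022_t

theorem s266_pp_022_t : ∃ t, chk3 f_pp_022_t t 36 30 1 = true := ex3_b s265_pp_022_t s262_pp_022_t

theorem s267_pp_022_t : ∃ t, chk3 f_pp_022_t t 18 30 1 = true := ex3_a s266_pp_022_t s252_pp_022_t

theorem s268_pp_022_t : ∃ t, chk3 f_pp_022_t t 18 15 1 = true := ex3_b s267_pp_022_t k157_pp_022_t

theorem s269_pp_022_t : ∃ t, chk3 f_pp_022_t t 9 15 1 = true := ex3_a s268_pp_022_t s246_pp_022_t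

theorem s270_pp_022_t : ∃ t, chk3 f_pp_022_t t 39 29 1 = true := ex3_a k133_pp_022_t k134_pp_022_t

theorem s271_pp_022_t : ∃ t, chk3 f_pp_022_t t 38 59 1 = true := ex3_a k131_pp_022_t k132_pp_022_t

theorem s272_pp_022_t : ∃ t, chk3 f_pp_022_t t 38 29 1 = true := ex3_b k130_pp_022_t s271_pp_022_t

theorem s273_pp_022_t : ∃ t, chk3 f_pp_022_t t 19 29 1 = true := ex3_a s272_pp_022_t s270_pp_022_t

theorem s274_pp_022_t : ∃ t, chk3 f_pp_022_t t 19 14 1 = true := ex3_b k129_pp_022_t s273_pp_022_t

theorem s275_pp_022_t : ∃ t, chk3 f_pp_022_t t 37 59 1 = true := ex3_c k127_pp_022_t k128_pp_022_t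

theorem s276_pp_022_t : ∃ t, chk3 f_pp_022_t t 37 29 1 = true := ex3_b k126_pp_022_t s275_pp_022_t

theorem s277_pp_022_t : ∃ t, chk3 f_pp_022_t t 18 29 1 = true := ex3_a k125_pp_022_t s276_pp_022_t

theorem s278_pp_022_t : ∃ t, chk3 f_pp_022_t t 18 14 1 = true := ex3_b k124_pp_022_t s277_pp_022_t

theorem s279_pp_022_t : ∃ t, chk3 f_pp_022_t t 9 14 1 = true := ex3_a s278_pp_022_t s274_pp_022_t

theorem s280_pp_022_t : ∃ t, chk3 f_pp_022_t t 9 7 1 = true := ex3_b s279_pp_022_t s269_pp_022_t

theorem s281_pp_022_t : ∃ t, chk3 f_pp_022_t t 142 248 1 = true := ex3_a k118_pp_022_t k119_pp_022_t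

theorem s282_pp_022_t : ∃ t, chk3 f_pp_022_t t 71 248 1 = true := ex3_a s281_pp_022_t k120_pp_022_t

theorem s283_pp_022_t : ∃ t, chk3 f_pp_022_t t 71 124 1 = true := ex3_b s282_pp_022_t k121_pp_022_t

theorem s284_pp_022_t : ∃ t, chk3 f_pp_022_t t 140 249 3 = true := ex3_b k115_pp_022_t k116_pp_022_t

theorem s285_pp_022_t : ∃ t, chk3 f_pp_022_t t 70 249 3 = true := ex3_a s284_pp_022_t k117_pp_022_t

theorem s286_pp_022_t : ∃ t, chk3 f_pp_022_t t 70 248 3 = true := ex3_a k113_pp_022_t k114_pp_022_t

theorem s287_pp_022_t : ∃ t, chk3 f_pp_022_t t 70 124 3 = true := ex3_b s286_pp_022_t s285_pp_022_t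

theorem s288_pp_022_t : ∃ t, chk3 f_pp_022_t t 140 249 2 = true := ex3_b k110_pp_022_t k111_pp_022_t

theorem s289_pp_022_t : ∃ t, chk3 f_pp_022_t t 70 249 2 = true := ex3_a s288_pp_022_t k112_pp_022_t

theorem s290_pp_022_t : ∃ t, chk3 f_pp_022_t t 70 248 2 = true := ex3_a k108_pp_022_t k109_pp_022_t

theorem s291_pp_022_t : ∃ t, chk3 f_pp_022_t t 70 124 2 = true := ex3_b s290_pp_022_t s289_pp_022_t

theorem s292_pp_022_t : ∃ t, chk3 f_pp_022_t t 70 124 1 = true := ex3_c s291_pp_022_t s287_pp_022_t

theorem s293_pp_022_t : ∃ t, chk3 f_pp_022_t t 35 124 1 = true := ex3_a s292_pp_022_t s283_pp_022_t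

theorem s294_pp_022_t : ∃ t, chk3 f_pp_022_t t 35 62 1 = true := ex3_b s293_pp_022_t k122_pp_022_t

theorem s295_pp_022_t : ∃ t, chk3 f_pp_022_t t 35 31 1 = true := ex3_b s294_pp_022_t k123_pp_022_t

theorem s296_pp_022_t : ∃ t, chk3 f_pp_022_t t 139 500 1 = true := ex3_b k103_pp_022_t k104_pp_022_t

theorem s297_pp_022_t : ∃ t, chk3 f_pp_022_t t 139 250 1 = true := ex3_b s296_pp_022_t k105_pp_022_t

theorem s298_pp_022_t : ∃ t, chk3 f_pp_022_t t 277 250 1 = true := ex3_b k101_pp_022_t k102_pp_022_t

theorem s299_pp_022_t : ∃ t, chk3 f_pp_022_t t 276 250 1 = true := ex3_a k99_pp_022_t k100_pp_022_t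

theorem s300_pp_022_t : ∃ t, chk3 f_pp_022_t t 138 250 1 = true := ex3_a s299_pp_022_t s298_pp_022_t

theorem s301_pp_022_t : ∃ t, chk3 f_pp_022_t t 69 250 1 = true := ex3_a s300_pp_022_t s297_pp_022_t

theorem s302_pp_022_t : ∃ t, chk3 f_pp_022_t t 69 125 1 = true := ex3_b s301_pp_022_t k106_pp_022_t

theorem s303_pp_022_t : ∃ t, chk3 f_pp_022_t t 69 249 3 = true := ex3_b k97_pp_022_t k98_pp_022_t

theorem s304_pp_022_t : ∃ t, chk3 f_pp_022_t t 69 124 3 = true := ex3_b k96_pp_022_t s303_pp_022_t

theorem s305_pp_022_t : ∃ t, chk3 f_pp_022_t t 139 124 2 = true := ex3_b k94_pp_022_t k95_pp_022_t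

theorem s306_pp_022_t : ∃ t, chk3 f_pp_022_t t 69 124 2 = true := ex3_a k93_pp_022_t s305_pp_022_t

theorem s307_pp_022_t : ∃ t, chk3 f_pp_022_t t 69 124 1 = true := ex3_c s306_pp_022_t s304_pp_022_t

theorem s308_pp_022_t : ∃ t, chk3 f_pp_022_t t 69 62 1 = true := ex3_b s307_pp_022_t s302_pp_022_t

theorem s309_pp_022_t : ∃ t, chk3 f_pp_022_t t 137 502 3 = true := ex3_a k90_pp_022_t k91_pp_022_t

theorem s310_pp_022_t : ∃ t, chk3 f_pp_022_t t 137 251 3 = true := ex3_b s309_pp_022_t k92_pp_022_t

theorem s311_pp_022_t : ∃ t, chk3 f_pp_022_t t 272 503 3 = true := ex3_b k87_pp_022_t k88_pp_022_t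

theorem s312_pp_022_t : ∃ t, chk3 f_pp_022_t t 136 503 3 = true := ex3_a s311_pp_022_t k89_pp_022_t

theorem s313_pp_022_t : ∃ t, chk3 f_pp_022_t t 136 502 3 = true := ex3_b k85_pp_022_t k86_pp_022_t

theorem s314_pp_022_t : ∃ t, chk3 f_pp_022_t t 136 251 3 = true := ex3_b s313_pp_022_t s312_pp_022_t

theorem s315_pp_022_t : ∃ t, chk3 f_pp_022_t t 68 251 3 = true := ex3_a s314_pp_022_t s310_pp_022_t

theorem s316_pp_022_t : ∃ t, chk3 f_pp_022_t t 137 250 3 = true := ex3_a k83_pp_022_t k84_pp_022_t

theorem s317_pp_022_t : ∃ t, chk3 f_pp_022_t t 68 250 3 = true := ex3_a k82_pp_022_t s316_pp_022_t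

theorem s318_pp_022_t : ∃ t, chk3 f_pp_022_t t 68 125 3 = true := ex3_b s317_pp_022_t s315_pp_022_t

theorem s319_pp_022_t : ∃ t, chk3 f_pp_022_t t 137 502 2 = true := ex3_a k79_pp_022_t k80_pp_022_t

theorem s320_pp_022_t : ∃ t, chk3 f_pp_022_t t 137 251 2 = true := ex3_b s319_pp_022_t k81_pp_022_t

theorem s321_pp_022_t : ∃ t, chk3 f_pp_022_t t 136 503 2 = true := ex3_a k77_pp_022_t k78_pp_022_t

theorem s322_pp_022_t : ∃ t, chk3 f_pp_022_t t 136 502 2 = true := ex3_a k75_pp_022_t k76_pp_022_t

theorem s323_pp_022_t : ∃ t, chk3 f_pp_022_t t 136 251 2 = true := ex3_b s322_pp_022_t s321_pp_022_t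

theorem s324_pp_022_t : ∃ t, chk3 f_pp_022_t t 68 251 2 = true := ex3_a s323_pp_022_t s320_pp_022_t

theorem s325_pp_022_t : ∃ t, chk3 f_pp_022_t t 137 250 2 = true := ex3_b k73_pp_022_t k74_pp_022_t

theorem s326_pp_022_t : ∃ t, chk3 f_pp_022_t t 68 250 2 = true := ex3_a k72_pp_022_t s325_pp_022_t

theorem s327_pp_022_t : ∃ t, chk3 f_pp_022_t t 68 125 2 = true := ex3_b s326_pp_022_t s324_pp_022_t

theorem s328_pp_022_t : ∃ t, chk3 f_pp_022_t t 68 125 1 = true := ex3_c s327_pp_022_t s318_pp_022_t

theorem s329_pp_022_t : ∃ t, chk3 f_pp_022_t t 68 124 3 = true := ex3_a k70_pp_022_t k71_pp_022_t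

theorem s330_pp_022_t : ∃ t, chk3 f_pp_022_t t 68 124 2 = true := ex3_b k68_pp_022_t k69_pp_022_t

theorem s331_pp_022_t : ∃ t, chk3 f_pp_022_t t 68 124 1 = true := ex3_c s330_pp_022_t s329_pp_022_t

theorem s332_pp_022_t : ∃ t, chk3 f_pp_022_t t 68 62 1 = true := ex3_b s331_pp_022_t s328_pp_022_t

theorem s333_pp_022_t : ∃ t, chk3 f_pp_022_t t 34 62 1 = true := ex3_a s332_pp_022_t s308_pp_022_t

theorem s334_pp_022_t : ∃ t, chk3 f_pp_022_t t 34 31 1 = true := ex3_b s333_pp_022_t k107_pp_022_t

theorem s335_pp_022_t : ∃ t, chk3 f_pp_022_t t 17 31 1 = true := ex3_a s334_pp_022_t s295_pp_022_t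

theorem s336_pp_022_t : ∃ t, chk3 f_pp_022_t t 287 61 1 = true := ex3_b k66_pp_022_t k67_pp_022_t

theorem s337_pp_022_t : ∃ t, chk3 f_pp_022_t t 143 61 1 = true := ex3_a k65_pp_022_t s336_pp_022_t

theorem s338_pp_022_t : ∃ t, chk3 f_pp_022_t t 142 61 1 = true := ex3_a k63_pp_022_t k64_pp_022_t

theorem s339_pp_022_t : ∃ t, chk3 f_pp_022_t t 71 61 1 = true := ex3_a s338_pp_022_t s337_pp_022_t

theorem s340_pp_022_t : ∃ t, chk3 f_pp_022_t t 70 61 3 = true := ex3_b k61_pp_022_t k62_pp_022_t

theorem s341_pp_022_t : ∃ t, chk3 f_pp_022_t t 70 61 2 = true := ex3_b k59_pp_022_t k60_pp_022_t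

theorem s342_pp_022_t : ∃ t, chk3 f_pp_022_t t 70 61 1 = true := ex3_c s341_pp_022_t s340_pp_022_t

theorem s343_pp_022_t : ∃ t, chk3 f_pp_022_t t 35 61 1 = true := ex3_a s342_pp_022_t s339_pp_022_t

theorem s344_pp_022_t : ∃ t, chk3 f_pp_022_t t 71 60 1 = true := ex3_c k57_pp_022_t k58_pp_022_t

theorem s345_pp_022_t : ∃ t, chk3 f_pp_022_t t 70 60 1 = true := ex3_c k55_pp_022_t k56_pp_022_t

theorem s346_pp_022_t : ∃ t, chk3 f_pp_022_t t 35 60 1 = true := ex3_a s345_pp_022_t s344_pp_022_t

theorem s347_pp_022_t : ∃ t, chk3 f_pp_022_t t 35 30 1 = true := ex3_b s346_pp_022_t s343_pp_022_t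

theorem s348_pp_022_t : ∃ t, chk3 f_pp_022_t t 69 123 1 = true := ex3_c k53_pp_022_t k54_pp_022_t

theorem s349_pp_022_t : ∃ t, chk3 f_pp_022_t t 69 61 1 = true := ex3_b k52_pp_022_t s348_pp_022_t

theorem s350_pp_022_t : ∃ t, chk3 f_pp_022_t t 68 61 3 = true := ex3_b k50_pp_022_t k51_pp_022_t

theorem s351_pp_022_t : ∃ t, chk3 f_pp_022_t t 68 61 2 = true := ex3_b k48_pp_022_t k49_pp_022_t

theorem s352_pp_022_t : ∃ t, chk3 f_pp_022_t t 68 61 1 = true := ex3_c s351_pp_022_t s350_pp_022_t

theorem s353_pp_022_t : ∃ t, chk3 f_pp_022_t t 34 61 1 = true := ex3_a s352_pp_022_t s349_pp_022_t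

theorem s354_pp_022_t : ∃ t, chk3 f_pp_022_t t 34 121 1 = true := ex3_b k46_pp_022_t k47_pp_022_t

theorem s355_pp_022_t : ∃ t, chk3 f_pp_022_t t 34 60 1 = true := ex3_b k45_pp_022_t s354_pp_022_t

theorem s356_pp_022_t : ∃ t, chk3 f_pp_022_t t 34 30 1 = true := ex3_b s355_pp_022_t s353_pp_022_t

theorem s357_pp_022_t : ∃ t, chk3 f_pp_022_t t 17 30 1 = true := ex3_a s356_pp_022_t s347_pp_022_t

theorem s358_pp_022_t : ∃ t, chk3 f_pp_022_t t 17 15 1 = true := ex3_b s357_pp_022_t s335_pp_022_t

theorem s359_pp_022_t : ∃ t, chk3 f_pp_022_t t 271 1008 1 = true := ex3_b k39_pp_022_t k40_pp_022_t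

theorem s360_pp_022_t : ∃ t, chk3 f_pp_022_t t 271 504 1 = true := ex3_b s359_pp_022_t k41_pp_022_t

theorem s361_pp_022_t : ∃ t, chk3 f_pp_022_t t 270 1009 1 = true := ex3_a k37_pp_022_t k38_pp_022_t

theorem s362_pp_022_t : ∃ t, chk3 f_pp_022_t t 270 504 1 = true := ex3_b k36_pp_022_t s361_pp_022_t

theorem s363_pp_022_t : ∃ t, chk3 f_pp_022_t t 135 504 1 = true := ex3_a s362_pp_022_t s360_pp_022_t

theorem s364_pp_022_t : ∃ t, chk3 f_pp_022_t t 135 252 1 = true := ex3_b s363_pp_022_t k42_pp_022_t

theorem s365_pp_022_t : ∃ t, chk3 f_pp_022_t t 269 252 3 = true := ex3_b k34_pp_022_t k35_pp_022_t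

theorem s366_pp_022_t : ∃ t, chk3 f_pp_022_t t 134 252 3 = true := ex3_a k33_pp_022_t s365_pp_022_t

theorem s367_pp_022_t : ∃ t, chk3 f_pp_022_t t 269 252 2 = true := ex3_b k31_pp_022_t k32_pp_022_t

theorem s368_pp_022_t : ∃ t, chk3 f_pp_022_t t 134 252 2 = true := ex3_a k30_pp_022_t s367_pp_022_t

theorem s369_pp_022_t : ∃ t, chk3 f_pp_022_t t 134 252 1 = true := ex3_c s368_pp_022_t s366_pp_022_t

theorem s370_pp_022_t : ∃ t, chk3 f_pp_022_t t 67 252 1 = true := ex3_a s369_pp_022_t s364_pp_022_t

theorem s371_pp_022_t : ∃ t, chk3 f_pp_022_t t 67 126 1 = true := ex3_b s370_pp_022_t k43_pp_022_t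

theorem s372_pp_022_t : ∃ t, chk3 f_pp_022_t t 33 126 1 = true := ex3_a k29_pp_022_t s371_pp_022_t

theorem s373_pp_022_t : ∃ t, chk3 f_pp_022_t t 33 63 1 = true := ex3_b s372_pp_022_t k44_pp_022_t

theorem s374_pp_022_t : ∃ t, chk3 f_pp_022_t t 135 503 3 = true := ex3_a k27_pp_022_t k28_pp_022_t

theorem s375_pp_022_t : ∃ t, chk3 f_pp_022_t t 135 251 3 = true := ex3_b k26_pp_022_t s374_pp_022_t

theorem s376_pp_022_t : ∃ t, chk3 f_pp_022_t t 135 503 2 = true := ex3_a k24_pp_022_t k25_pp_022_t

theorem s377_pp_022_t : ∃ t, chk3 f_pp_022_t t 135 251 2 = true := ex3_b k23_pp_022_t s376_pp_022_t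

theorem s378_pp_022_t : ∃ t, chk3 f_pp_022_t t 135 251 1 = true := ex3_c s377_pp_022_t s375_pp_022_t

theorem s379_pp_022_t : ∃ t, chk3 f_pp_022_t t 135 250 1 = true := ex3_c k21_pp_022_t k22_pp_022_t

theorem s380_pp_022_t : ∃ t, chk3 f_pp_022_t t 135 125 1 = true := ex3_b s379_pp_022_t s378_pp_022_t

theorem s381_pp_022_t : ∃ t, chk3 f_pp_022_t t 269 251 1 = true := ex3_a k19_pp_022_t k20_pp_022_t

theorem s382_pp_022_t : ∃ t, chk3 f_pp_022_t t 269 125 1 = true := ex3_b k18_pp_022_t s381_pp_022_t

theorem s383_pp_022_t : ∃ t, chk3 f_pp_022_t t 134 125 1 = true := ex3_a k17_pp_022_t s382_pp_022_t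

theorem s384_pp_022_t : ∃ t, chk3 f_pp_022_t t 67 125 1 = true := ex3_a s383_pp_022_t s380_pp_022_t

theorem s385_pp_022_t : ∃ t, chk3 f_pp_022_t t 135 124 1 = true := ex3_c k15_pp_022_t k16_pp_022_t

theorem s386_pp_022_t : ∃ t, chk3 f_pp_022_t t 134 124 1 = true := ex3_a k13_pp_022_t k14_pp_022_t

theorem s387_pp_022_t : ∃ t, chk3 f_pp_022_t t 67 124 1 = true := ex3_a s386_pp_022_t s385_pp_022_t

theorem s388_pp_022_t : ∃ t, chk3 f_pp_022_t t 67 62 1 = true := ex3_b s387_pp_022_t s384_pp_022_t

theorem s389_pp_022_t : ∃ t, chk3 f_pp_022_t t 33 62 1 = true := ex3_a k12_pp_022_t s388_pp_022_t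

theorem s390_pp_022_t : ∃ t, chk3 f_pp_022_t t 33 31 1 = true := ex3_b s389_pp_022_t s373_pp_022_t

theorem s391_pp_022_t : ∃ t, chk3 f_pp_022_t t 16 31 1 = true := ex3_a k11_pp_022_t s390_pp_022_t

theorem s392_pp_022_t : ∃ t, chk3 f_pp_022_t t 135 61 1 = true := ex3_b k9_pp_022_t k10_pp_022_t

theorem s393_pp_022_t : ∃ t, chk3 f_pp_022_t t 135 30 1 = true := ex3_b k8_pp_022_t s392_pp_022_t

theorem s394_pp_022_t : ∃ t, chk3 f_pp_022_t t 134 61 1 = true := ex3_a k6_pp_022_t k7_pp_022_t

theorem s395_pp_022_t : ∃ t, chk3 f_pp_022_t t 134 30 1 = true := ex3_b k5_pp_022_t s394_pp_022_t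

theorem s396_pp_022_t : ∃ t, chk3 f_pp_022_t t 67 30 1 = true := ex3_a s395_pp_022_t s393_pp_022_t

theorem s397_pp_022_t : ∃ t, chk3 f_pp_022_t t 33 30 1 = true := ex3_a k4_pp_022_t s396_pp_022_t

theorem s398_pp_022_t : ∃ t, chk3 f_pp_022_t t 16 30 1 = true := ex3_a k3_pp_022_t s397_pp_022_t

theorem s399_pp_022_t : ∃ t, chk3 f_pp_022_t t 16 15 1 = true := ex3_b s398_pp_022_t s391_pp_022_t

theorem s400_pp_022_t : ∃ t, chk3 f_pp_022_t t 8 15 1 = true := ex3_a s399_pp_022_t s358_pp_022_t

theorem s401_pp_022_t : ∃ t, chk3 f_pp_022_t t 8 7 1 = true := ex3_b k2_pp_022_t s400_pp_022_t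

theorem s402_pp_022_t : ∃ t, chk3 f_pp_022_t t 4 7 1 = true := ex3_a s401_pp_022_t s280_pp_022_t

theorem s403_pp_022_t : ∃ t, chk3 f_pp_022_t t 4 3 1 = true := ex3_b k1_pp_022_t s402_pp_022_t

theorem s404_pp_022_t : ∃ t, chk3 f_pp_022_t t 2 3 1 = true := ex3_a s403_pp_022_t s240_pp_022_t

theorem s405_pp_022_t : ∃ t, chk3 f_pp_022_t t 2 1 1 = true := ex3_b k0_pp_022_t s404_pp_022_t

theorem s406_pp_022_t : ∃ t, chk3 f_pp_022_t t 1 1 1 = true := ex3_a s405_pp_022_t s219_pp_022_t

theorem c_pp_022_t : CertNE 0 536870912 0 536870912 991146299 28908434 3 eng mog cd0q0 cd0q2 pd2 true true true .pp 0 2 2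
    ndB0q0 ndB0q2 pcB2 cut_pp_022_t Ext.none :=
  certNE2 (fam := true) (s1 := true) (s2 := true) (a := 0) (b := 2) (c := 2) (cn := .pp) (n1 := ndB0q0) (n2 := ndB0q2) (pc := pcB2) (cut := cut_pp_022_t) (xt := Ext.none) (P1 := 0) (W1 := 536870912) (P2 := 0) (W2 := 536870912) (P3 := 991146299) (W3 := 28908434) (N0 := 3) (En := eng) (mo := mog) (C1 := cd0q0) (C2 := cd0q2) (C3 := pd2)
    rfl (fun _ => rfl) s406_pp_022_t

end Pool.Agent.Strip051.G.I9231_9500.Tab.CS.BA00

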