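import Pool.Agent.Strip051.G.I9231_9500.Tab
import Pool.Agent.Strip051.PB.StripB

/-! # Strips, near vertex: certificates 2 (generated) -/

set_option linter.all false
set_option maxRecDepth 100000

namespace Pool.Agent.Strip051.G.I9231_9500.Tab.CS.BA00

open Pool.Agent.Strip051.PB Pool.Agent.Strip051.PB.T
open Pool.Agent.Strip051.G.I9231_9500.Tab

noncomputable def cut_pp_023_s : Cut := Cut.of [[⟨4, 0, 0, 1449551462⟩]]

noncomputable def f_pp_023_s : ℕ → ℕ → ℕ → ℕ → Bool := onCell 0 536870912 0 536870912 991146299 28908434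
    (rowNE 3 eng mog cd0q0 cd0q2 pd3 0 true true true .up 0 2 3 (qsf 0 536870912 0 536870912 3) ndB0q0 ndB0q2 pcB3 cut_pp_023_s Ext.none)

def k0_pp_023_s : ∃ t, chk3 f_pp_023_s t 1 1 1 = true :=
  ⟨(l 6), by decide +kernel⟩

theorem c_pp_023_s : CertNE 0 536870912 0 536870912 991146299 28908434 3 eng mog cd0q0 cd0q2 pd3 true true true .up 0 2 3
    ndB0q0 ndB0q2 pcB3 cut_pp_023_s Ext.none :=
  certNE0 (fam := true) (s1 := true) (s2 := true) (a := 0) (b := 2) (c := 3) (cn := .up) (n1 := ndB0q0) (n2 := ndB0q2) (pc := pcB3) (cut := cut_pp_023_s) (xt := Ext.none) (P1 := 0) (W1 := 536870912) (P2 := 0) (W2 := 536870912) (P3 := 991146299) (W3 := 28908434) (N0 := 3) (En := eng) (mo := mog) (C1 := cd0q0) (C2 := cd0q2) (C3 := pd3)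
    rfl k0_pp_023_s

noncomputable def cut_pp_023_t : Cut := Cut.of [[⟨3, 0, 0, 2845415833⟩]]

noncomputable def f_pp_023_t : ℕ → ℕ → ℕ → ℕ → Bool := onCell 1610612736 536870912 0 536870912 991146299 28908434
    (rowNE 3 eng mog cd0q0 cd0q2 pd3 2 true true true .up 0 2 3 (qsf 0 536870912 0 536870912 3) ndB0q0 ndB0q2 pcB3 cut_pp_023_t Ext.none)

def k0_pp_023_t : ∃ t, chk3 f_pp_023_t t 4 2 1 = true :=
  ⟨(a (b (b (a (c (a (l 16367648) (l 16388576)) (a (l 16327784) (l 16350944))) (c (a (l 16413120) (l 16440816)) (a (l 16378096) (l 16408784)))) (b (a (a (l 16470576) (l 16496232)) (a (l 16545960) (a (l 16548312) (l 16564608)))) (a (a (c (l 16563960) (l 16541376)) (c (l 16590472) (l 16570832))) (a (c (l 16619488) (l 16603056)) (c (l 16650600) (l 16637592)))))) (a (b (c (b (a (l 16643560) (l 16651168)) (a (l 16724264) (b (l 16734016) (l 63048704919)))) (b (a (l 16628624) (l 16639464)) (a (l 16691864) (b (l 16729040) (b (l 16762408) (l 16748880)))))) (b (a (b (c (l 88818487847) (l 89355354007))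 (l 4)) (l 4)) (l 4))) (b (b (a (c (l 16702768) (l 16699776)) (c (b (l 16713912) (l 16755008)) (b (l 16707096) (l 16752488)))) (a (c (b (l 16762864) (l 99019017479)) (b (l 16750608) (l 99555885207))) (a (c (l 97945257271) (l 122641362967)) (l 4)))) (l 4)))) (b (a (a (b (c (l 16471256) (l 16442536)) (b (c (l 16598528) (l 16581368)) (c (l 16662456) (l 16653008)))) (b (c (l 16504048) (l 16478856)) (b (c (l 16632216) (l 16618616)) (c (l 16717592) (l 16711736))))) (b (c (a (l 16454888) (l 16449224)) (a (l 16433368) (l 16431392))) (b (a (c (l 16667264) (l 16657232)) (c (l 16703288) (l 16696752))) (a (c (b (l 16731384) (l 16747264)) (b (l 16727088) (l 16746144))) (c (b (l 16763312) (l 102777135079)) (b (l 16761864) (l 103314008471))))))) (b (b (a (a (b (c (l 16746992) (l 16743776)) (c (l 91502852631) (l 92039720055))) (b (c (l 70028031079) (l 68417417767)) (l 4))) (l 4)) (l 4)) (l 4)))), by decide +kernel⟩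

def k1_pp_023_t : ∃ t, chk3 f_pp_023_t t 5 2 1 = true :=
  ⟨(a (b (a (b (b (a (l 16477248) (c (l 16608536) (l 16594472))) (a (c (l 16655216) (l 16644720)) (a (l 16658568) (l 16657376)))) (b (a (c (l 16738296) (a (l 16726552) (l 16744544))) (b (c (l 16754368) (l 16752384)) (c (l 16736568) (l 97945315287)))) (a (c (l 103850836871) (l 104387712199)) (l 4)))) (b (l 2) (l 2))) (l 4)) (l 2)), by decide +kernel⟩

def k2_pp_023_t : ∃ t, chk3 f_pp_023_t t 2 3 1 = true :=
  ⟨(l 4), by decide +kernel⟩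

def k3_pp_023_t : ∃ t, chk3 f_pp_023_t t 3 1 1 = true :=
  ⟨(l 2), by decide +kernel⟩

theorem s4_pp_023_t : ∃ t, chk3 f_pp_023_t t 2 2 1 = true := ex3_a k0_pp_023_t k1_pp_023_t

theorem s5_pp_023_t : ∃ t, chk3 f_pp_023_t t 2 1 1 = true := ex3_b s4_pp_023_t k2_pp_023_t

theorem s6_pp_023_t : ∃ t, chk3 f_pp_023_t t 1 1 1 = true := ex3_a s5_pp_023_t k3_pp_023_t

theorem c_pp_023_t : CertNE 0 536870912 0 536870912 991146299 28908434 3 eng mog cd0q0 cd0q2 pd3 true true true .up 0 2 3
    ndB0q0 ndB0q2 pcB3 cut_pp_023_t Ext.none :=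
  certNE2 (fam := true) (s1 := true) (s2 := true) (a := 0) (b := 2) (c := 3) (cn := .up) (n1 := ndB0q0) (n2 := ndB0q2) (pc := pcB3) (cut := cut_pp_023_t) (xt := Ext.none) (P1 := 0) (W1 := 536870912) (P2 := 0) (W2 := 536870912) (P3 := 991146299) (W3 := 28908434) (N0 := 3) (En := eng) (mo := mog) (C1 := cd0q0) (C2 := cd0q2) (C3 := pd3)
    rfl (fun _ => rfl) s6_pp_023_t

noncomputable def cut_pp_101_s : Cut := Cut.of [[⟨4, 0, 0, 1449551462⟩]]

noncomputable def f_pp_101_s : ℕ → ℕ → ℕ → ℕ → Bool := onCell 536870912 536870912 0 536870912 991146299 28908434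
    (rowNE 3 eng mog cd0q1 cd0q0 pd1 0 true true true .npn 1 0 1 (qsf 536870912 536870912 0 536870912 1) ndB0q1 ndB0q0 pcB1 cut_pp_101_s Ext.none)

def k0_pp_101_s : ∃ t, chk3 f_pp_101_s t 1 1 1 = true :=
  ⟨(l 6), by decide +kernel⟩

theorem c_pp_101_s : CertNE 536870912 536870912 0 536870912 991146299 28908434 3 eng mog cd0q1 cd0q0 pd1 true true true .npn 1 0 1
    ndB0q1 ndB0q0 pcB1 cut_pp_101_s Ext.none :=
  certNE0 (fam := true) (s1 := true) (s2 := true) (a := 1) (b := 0) (c := 1) (cn := .npn) (n1 := ndB0q1) (n2 := ndB0q0) (pc := pcB1) (cut := cut_pp_101_s) (xt := Ext.none) (P1 := 536870912) (W1 := 536870912) (P2 := 0) (W2 := 536870912) (P3 := 991146299) (W3 := 28908434) (N0 := 3) (En := eng) (mo := mog) (C1 := cd0q1) (C2 := cd0q0) (C3 := pd1)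
    rfl k0_pp_101_s

noncomputable def cut_pp_101_t : Cut := Cut.of [[⟨3, 0, 0, 2845415833⟩]]

noncomputable def f_pp_101_t : ℕ → ℕ → ℕ → ℕ → Bool := onCell 536870912 536870912 0 536870912 991146299 28908434
    (rowNE 3 eng mog cd0q1 cd0q0 pd1 0 true true true .npn 1 0 1 (qsf 536870912 536870912 0 536870912 1) ndB0q1 ndB0q0 pcB1 cut_pp_101_t Ext.none)

def k0_pp_101_t : ∃ t, chk3 f_pp_101_t t 1 1 1 = true :=
  ⟨(a (l 4) (l 5)), by decide +kernel⟩

theorem c_pp_101_t : CertNE 536870912 536870912 0 536870912 991146299 28908434 3 eng mog cd0q1 cd0q0 pd1 true true true .npn 1 0 1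
    ndB0q1 ndB0q0 pcB1 cut_pp_101_t Ext.none :=
  certNE0 (fam := true) (s1 := true) (s2 := true) (a := 1) (b := 0) (c := 1) (cn := .npn) (n1 := ndB0q1) (n2 := ndB0q0) (pc := pcB1) (cut := cut_pp_101_t) (xt := Ext.none) (P1 := 536870912) (W1 := 536870912) (P2 := 0) (W2 := 536870912) (P3 := 991146299) (W3 := 28908434) (N0 := 3) (En := eng) (mo := mog) (C1 := cd0q1) (C2 := cd0q0) (C3 := pd1)
    rfl k0_pp_101_t

noncomputable def cut_pp_102_s : Cut := Cut.of [[⟨4, 0, 0, 1449551462⟩]]

noncomputable def f_pp_102_s : ℕ → ℕ → ℕ → ℕ → Bool := onCell 536870912 536870912 0 536870912 991146299 28908434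
    (rowNE 3 eng mog cd0q1 cd0q0 pd2 0 true true true .npp 1 0 2 (qsf 536870912 536870912 0 536870912 2) ndB0q1 ndB0q0 pcB2 cut_pp_102_s Ext.none)

def k0_pp_102_s : ∃ t, chk3 f_pp_102_s t 1 1 1 = true :=
  ⟨(l 6), by decide +kernel⟩

theorem c_pp_102_s : CertNE 536870912 536870912 0 536870912 991146299 28908434 3 eng mog cd0q1 cd0q0 pd2 true true true .npp 1 0 2
    ndB0q1 ndB0q0 pcB2 cut_pp_102_s Ext.none :=
  certNE0 (fam := true) (s1 := true) (s2 := true) (a := 1) (b := 0) (c := 2) (cn := .npp) (n1 := ndB0q1) (n2 := ndB0q0) (pc := pcB2) (cut := cut_pp_102_s) (xt := Ext.none) (P1 := 536870912) (W1 := 536870912) (P2 := 0) (W2 := 536870912) (P3 := 991146299) (W3 := 28908434) (N0 := 3) (En := eng) (mo := mog) (C1 := cd0q1) (C2 := cd0q0) (C3 := pd2)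
    rfl k0_pp_102_s

noncomputable def cut_pp_102_t : Cut := Cut.of [[⟨3, 0, 0, 2845415833⟩]]

noncomputable def f_pp_102_t : ℕ → ℕ → ℕ → ℕ → Bool := onCell 536870912 536870912 0 536870912 991146299 28908434
    (rowNE 3 eng mog cd0q1 cd0q0 pd2 0 true true true .npp 1 0 2 (qsf 536870912 536870912 0 536870912 2) ndB0q1 ndB0q0 pcB2 cut_pp_102_t Ext.none)

def k0_pp_102_t : ∃ t, chk3 f_pp_102_t t 1 1 1 = true :=
  ⟨(a (l 4) (l 5)), by decide +kernel⟩

theorem c_pp_102_t : CertNE 536870912 536870912 0 536870912 991146299 28908434 3 eng mog cd0q1 cd0q0 pd2 true true true .npp 1 0 2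
    ndB0q1 ndB0q0 pcB2 cut_pp_102_t Ext.none :=
  certNE0 (fam := true) (s1 := true) (s2 := true) (a := 1) (b := 0) (c := 2) (cn := .npp) (n1 := ndB0q1) (n2 := ndB0q0) (pc := pcB2) (cut := cut_pp_102_t) (xt := Ext.none) (P1 := 536870912) (W1 := 536870912) (P2 := 0) (W2 := 536870912) (P3 := 991146299) (W3 := 28908434) (N0 := 3) (En := eng) (mo := mog) (C1 := cd0q1) (C2 := cd0q0) (C3 := pd2)
    rfl k0_pp_102_t

noncomputable def cut_pp_112_s : Cut := Cut.of [[⟨4, 0, 0, 1449551462⟩]]

noncomputable def f_pp_112_s : ℕ → ℕ → ℕ → ℕ → Bool := onCell 536870912 536870912 536870912 536870912 991146299 28908434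
    (rowNE 3 eng mog cd0q1 cd0q1 pd2 0 true true true .dn 1 1 2 (qsf 536870912 536870912 536870912 536870912 2) ndB0q1 ndB0q1 pcB2 cut_pp_112_s Ext.none)

def k0_pp_112_s : ∃ t, chk3 f_pp_112_s t 1 1 1 = true :=
  ⟨(l 4), by decide +kernel⟩

theorem c_pp_112_s : CertNE 536870912 536870912 536870912 536870912 991146299 28908434 3 eng mog cd0q1 cd0q1 pd2 true true true .dn 1 1 2
    ndB0q1 ndB0q1 pcB2 cut_pp_112_s Ext.none :=
  certNE0 (fam := true) (s1 := true) (s2 := true) (a := 1) (b := 1) (c := 2) (cn := .dn) (n1 := ndB0q1) (n2 := ndB0q1) (pc := pcB2) (cut := cut_pp_112_s) (xt := Ext.none) (P1 := 536870912) (W1 := 536870912) (P2 := 536870912) (W2 := 536870912) (P3 := 991146299) (W3 := 28908434) (N0 := 3) (En := eng) (mo := mog) (C1 := cd0q1) (C2 := cd0q1) (C3 := pd2)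
    rfl k0_pp_112_s

noncomputable def cut_pp_112_t : Cut := Cut.of [[⟨3, 0, 0, 2845415833⟩]]

noncomputable def f_pp_112_t : ℕ → ℕ → ℕ → ℕ → Bool := onCell 536870912 536870912 536870912 536870912 991146299 28908434
    (rowNE 3 eng mog cd0q1 cd0q1 pd2 0 true true true .dn 1 1 2 (qsf 536870912 536870912 536870912 536870912 2) ndB0q1 ndB0q1 pcB2 cut_pp_112_t Ext.none)

def k0_pp_112_t : ∃ t, chk3 f_pp_112_t t 1 1 1 = true :=
  ⟨(l 4), by decide +kernel⟩

theorem c_pp_112_t : CertNE 536870912 536870912 536870912 536870912 991146299 28908434 3 eng mog cd0q1 cd0q1 pd2 true true true .dn 1 1 2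
    ndB0q1 ndB0q1 pcB2 cut_pp_112_t Ext.none :=
  certNE0 (fam := true) (s1 := true) (s2 := true) (a := 1) (b := 1) (c := 2) (cn := .dn) (n1 := ndB0q1) (n2 := ndB0q1) (pc := pcB2) (cut := cut_pp_112_t) (xt := Ext.none) (P1 := 536870912) (W1 := 536870912) (P2 := 536870912) (W2 := 536870912) (P3 := 991146299) (W3 := 28908434) (N0 := 3) (En := eng) (mo := mog) (C1 := cd0q1) (C2 := cd0q1) (C3 := pd2)
    rfl k0_pp_112_t

noncomputable def cut_pp_113_s : Cut := Cut.of [[⟨4, 0, 0, 1449551462⟩]]

noncomputable def f_pp_113_s : ℕ → ℕ → ℕ → ℕ → Bool := onCell 536870912 536870912 536870912 536870912 991146299 28908434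
    (rowNE 3 eng mog cd0q1 cd0q1 pd3 0 true true true .nn 1 1 3 (qsf 536870912 536870912 536870912 536870912 3) ndB0q1 ndB0q1 pcB3 cut_pp_113_s Ext.none)

def k0_pp_113_s : ∃ t, chk3 f_pp_113_s t 1 1 1 = true :=
  ⟨(l 4), by decide +kernel⟩

theorem c_pp_113_s : CertNE 536870912 536870912 536870912 536870912 991146299 28908434 3 eng mog cd0q1 cd0q1 pd3 true true true .nn 1 1 3
    ndB0q1 ndB0q1 pcB3 cut_pp_113_s Ext.none :=
  certNE0 (fam := true) (s1 := true) (s2 := true) (a := 1) (b := 1) (c := 3) (cn := .nn) (n1 := ndB0q1) (n2 := ndB0q1) (pc := pcB3) (cut := cut_pp_113_s) (xt := Ext.none) (P1 := 536870912) (W1 := 536870912) (P2 := 536870912) (W2 := 536870912) (P3 := 991146299) (W3 := 28908434) (N0 := 3) (En := eng) (mo := mog) (C1 := cd0q1) (C2 := cd0q1) (C3 := pd3)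
    rfl k0_pp_113_s

noncomputable def cut_pp_113_t : Cut := Cut.of [[⟨3, 0, 0, 2845415833⟩]]

noncomputable def f_pp_113_t : ℕ → ℕ → ℕ → ℕ → Bool := onCell 536870912 536870912 536870912 536870912 991146299 28908434
    (rowNE 3 eng mog cd0q1 cd0q1 pd3 0 true true true .nn 1 1 3 (qsf 536870912 536870912 536870912 536870912 3) ndB0q1 ndB0q1 pcB3 cut_pp_113_t Ext.none)

def k0_pp_113_t : ∃ t, chk3 f_pp_113_t t 1 1 1 = true :=
  ⟨(l 4), by decide +kernel⟩

theorem c_pp_113_t : CertNE 536870912 536870912 536870912 536870912 991146299 28908434 3 eng mog cd0q1 cd0q1 pd3 true true true .nn 1 1 3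
    ndB0q1 ndB0q1 pcB3 cut_pp_113_t Ext.none :=
  certNE0 (fam := true) (s1 := true) (s2 := true) (a := 1) (b := 1) (c := 3) (cn := .nn) (n1 := ndB0q1) (n2 := ndB0q1) (pc := pcB3) (cut := cut_pp_113_t) (xt := Ext.none) (P1 := 536870912) (W1 := 536870912) (P2 := 536870912) (W2 := 536870912) (P3 := 991146299) (W3 := 28908434) (N0 := 3) (En := eng) (mo := mog) (C1 := cd0q1) (C2 := cd0q1) (C3 := pd3)
    rfl k0_pp_113_t

noncomputable def cut_pp_123_s : Cut := Cut.of [[⟨4, 0, 0, 1449551462⟩]]

noncomputable def f_pp_123_s : ℕ → ℕ → ℕ → ℕ → Bool := onCell 536870912 536870912 0 536870912 991146299 28908434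
    (rowNE 3 eng mog cd0q1 cd0q2 pd3 0 true true true .npn 1 2 3 (qsf 536870912 536870912 0 536870912 3) ndB0q1 ndB0q2 pcB3 cut_pp_123_s Ext.none)

def k0_pp_123_s : ∃ t, chk3 f_pp_123_s t 1 1 1 = true :=
  ⟨(l 6), by decide +kernel⟩

theorem c_pp_123_s : CertNE 536870912 536870912 0 536870912 991146299 28908434 3 eng mog cd0q1 cd0q2 pd3 true true true .npn 1 2 3
    ndB0q1 ndB0q2 pcB3 cut_pp_123_s Ext.none :=
  certNE0 (fam := true) (s1 := true) (s2 := true) (a := 1) (b := 2) (c := 3) (cn := .npn) (n1 := ndB0q1) (n2 := ndB0q2) (pc := pcB3) (cut := cut_pp_123_s) (xt := Ext.none) (P1 := 536870912) (W1 := 536870912) (P2 := 0) (W2 := 536870912) (P3 := 991146299) (W3 := 28908434) (N0 := 3) (En := eng) (mo := mog) (C1 := cd0q1) (C2 := cd0q2) (C3 := pd3)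
    rfl k0_pp_123_s

noncomputable def cut_pp_123_t : Cut := Cut.of [[⟨3, 0, 0, 2845415833⟩]]

noncomputable def f_pp_123_t : ℕ → ℕ → ℕ → ℕ → Bool := onCell 536870912 536870912 0 536870912 991146299 28908434
    (rowNE 3 eng mog cd0q1 cd0q2 pd3 0 true true true .npn 1 2 3 (qsf 536870912 536870912 0 536870912 3) ndB0q1 ndB0q2 pcB3 cut_pp_123_t Ext.none)

def k0_pp_123_t : ∃ t, chk3 f_pp_123_t t 1 1 1 = true :=
  ⟨(a (b (b (a (a (b (a (a (b (c (l 16643256) (l 16632384)) (c (l 16723800) (l 16719440))) (b (c (l 16661560) (l 16654120)) (b (l 16740968) (c (l 16750888) (l 16750456))))) (b (a (c (l 16721576) (l 16717344)) (b (l 16739584) (a (l 16766632) (l 16751152)))) (a (b (c (l 16750520) (l 16749976)) (l 4)) (l 4)))) (a (b (a (b (a (l 16747928) (l 97945332807)) (l 4)) (l 4)) (l 4)) (l 4))) (b (a (b (a (b (a (l 16766392) (l 16751272)) (l 4)) (l 4)) (l 4)) (l 4)) (l 4))) (l 4)) (l 4)) (l 4)) (l 4)), by decide +kernel⟩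

theorem c_pp_123_t : CertNE 536870912 536870912 0 536870912 991146299 28908434 3 eng mog cd0q1 cd0q2 pd3 true true true .npn 1 2 3
    ndB0q1 ndB0q2 pcB3 cut_pp_123_t Ext.none :=
  certNE0 (fam := true) (s1 := true) (s2 := true) (a := 1) (b := 2) (c := 3) (cn := .npn) (n1 := ndB0q1) (n2 := ndB0q2) (pc := pcB3) (cut := cut_pp_123_t) (xt := Ext.none) (P1 := 536870912) (W1 := 536870912) (P2 := 0) (W2 := 536870912) (P3 := 991146299) (W3 := 28908434) (N0 := 3) (En := eng) (mo := mog) (C1 := cd0q1) (C2 := cd0q2) (C3 := pd3)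
    rfl k0_pp_123_t

noncomputable def cut_pp_202_s : Cut := Cut.of [[⟨4, 0, 0, 1449551462⟩]]

noncomputable def f_pp_202_s : ℕ → ℕ → ℕ → ℕ → Bool := onCell 0 536870912 0 536870912 991146299 28908434
    (rowNE 3 eng mog cd0q2 cd0q0 pd2 0 true true true .pp 2 0 2 (qsf 0 536870912 0 536870912 2) ndB0q2 ndB0q0 pcB2 cut_pp_202_s Ext.none)

def k0_pp_202_s : ∃ t, chk3 f_pp_202_s t 1 1 1 = true :=
  ⟨(l 5), by decide +kernel⟩

theorem c_pp_202_s : CertNE 0 536870912 0 536870912 991146299 28908434 3 eng mog cd0q2 cd0q0 pd2 true true true .pp 2 0 2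
    ndB0q2 ndB0q0 pcB2 cut_pp_202_s Ext.none :=
  certNE0 (fam := true) (s1 := true) (s2 := true) (a := 2) (b := 0) (c := 2) (cn := .pp) (n1 := ndB0q2) (n2 := ndB0q0) (pc := pcB2) (cut := cut_pp_202_s) (xt := Ext.none) (P1 := 0) (W1 := 536870912) (P2 := 0) (W2 := 536870912) (P3 := 991146299) (W3 := 28908434) (N0 := 3) (En := eng) (mo := mog) (C1 := cd0q2) (C2 := cd0q0) (C3 := pd2)
    rfl k0_pp_202_s

noncomputable def cut_pp_202_t : Cut := Cut.of [[⟨3, 0, 0, 2845415833⟩]]

noncomputable def f_pp_202_t : ℕ → ℕ → ℕ → ℕ → Bool := onCell 0 536870912 0 536870912 991146299 28908434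
    (rowNE 3 eng mog cd0q2 cd0q0 pd2 0 true true true .pp 2 0 2 (qsf 0 536870912 0 536870912 2) ndB0q2 ndB0q0 pcB2 cut_pp_202_t Ext.none)

def k0_pp_202_t : ∃ t, chk3 f_pp_202_t t 1 1 1 = true :=
  ⟨(l 5), by decide +kernel⟩

theorem c_pp_202_t : CertNE 0 536870912 0 536870912 991146299 28908434 3 eng mog cd0q2 cd0q0 pd2 true true true .pp 2 0 2
    ndB0q2 ndB0q0 pcB2 cut_pp_202_t Ext.none :=
  certNE0 (fam := true) (s1 := true) (s2 := true) (a := 2) (b := 0) (c := 2) (cn := .pp) (n1 := ndB0q2) (n2 := ndB0q0) (pc := pcB2) (cut := cut_pp_202_t) (xt := Ext.none) (P1 := 0) (W1 := 536870912) (P2 := 0) (W2 := 536870912) (P3 := 991146299) (W3 := 28908434) (N0 := 3) (En := eng) (mo := mog) (C1 := cd0q2) (C2 := cd0q0) (C3 := pd2)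
    rfl k0_pp_202_t

noncomputable def cut_pp_203_s : Cut := Cut.of [[⟨4, 0, 0, 1449551462⟩]]

noncomputable def f_pp_203_s : ℕ → ℕ → ℕ → ℕ → Bool := onCell 0 536870912 0 536870912 991146299 28908434
    (rowNE 3 eng mog cd0q2 cd0q0 pd3 0 true true true .up 2 0 3 (qsf 0 536870912 0 536870912 3) ndB0q2 ndB0q0 pcB3 cut_pp_203_s Ext.none)

def k0_pp_203_s : ∃ t, chk3 f_pp_203_s t 1 1 1 = true :=
  ⟨(l 5), by decide +kernel⟩

theorem c_pp_203_s : CertNE 0 536870912 0 536870912 991146299 28908434 3 eng mog cd0q2 cd0q0 pd3 true true true .up 2 0 3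
    ndB0q2 ndB0q0 pcB3 cut_pp_203_s Ext.none :=
  certNE0 (fam := true) (s1 := true) (s2 := true) (a := 2) (b := 0) (c := 3) (cn := .up) (n1 := ndB0q2) (n2 := ndB0q0) (pc := pcB3) (cut := cut_pp_203_s) (xt := Ext.none) (P1 := 0) (W1 := 536870912) (P2 := 0) (W2 := 536870912) (P3 := 991146299) (W3 := 28908434) (N0 := 3) (En := eng) (mo := mog) (C1 := cd0q2) (C2 := cd0q0) (C3 := pd3)
    rfl k0_pp_203_s

noncomputable def cut_pp_203_t : Cut := Cut.of [[⟨3, 0, 0, 2845415833⟩]]

noncomputable def f_pp_203_t : ℕ → ℕ → ℕ → ℕ → Bool := onCell 0 536870912 0 536870912 991146299 28908434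
    (rowNE 3 eng mog cd0q2 cd0q0 pd3 0 true true true .up 2 0 3 (qsf 0 536870912 0 536870912 3) ndB0q2 ndB0q0 pcB3 cut_pp_203_t Ext.none)

def k0_pp_203_t : ∃ t, chk3 f_pp_203_t t 1 1 1 = true :=
  ⟨(l 5), by decide +kernel⟩

theorem c_pp_203_t : CertNE 0 536870912 0 536870912 991146299 28908434 3 eng mog cd0q2 cd0q0 pd3 true true true .up 2 0 3
    ndB0q2 ndB0q0 pcB3 cut_pp_203_t Ext.none :=
  certNE0 (fam := true) (s1 := true) (s2 := true) (a := 2) (b := 0) (c := 3) (cn := .up) (n1 := ndB0q2) (n2 := ndB0q0) (pc := pcB3) (cut := cut_pp_203_t) (xt := Ext.none) (P1 := 0) (W1 := 536870912) (P2 := 0) (W2 := 536870912) (P3 := 991146299) (W3 := 28908434) (N0 := 3) (En := eng) (mo := mog) (C1 := cd0q2) (C2 := cd0q0) (C3 := pd3)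
    rfl k0_pp_203_t

noncomputable def cut_pp_213_s : Cut := Cut.of [[⟨4, 0, 0, 1449551462⟩]]

noncomputable def f_pp_213_s : ℕ → ℕ → ℕ → ℕ → Bool := onCell 0 536870912 536870912 536870912 991146299 28908434
    (rowNE 3 eng mog cd0q2 cd0q1 pd3 0 true true true .pnn 2 1 3 (qsf 0 536870912 536870912 536870912 3) ndB0q2 ndB0q1 pcB3 cut_pp_213_s Ext.none)

def k0_pp_213_s : ∃ t, chk3 f_pp_213_s t 1 1 1 = true :=
  ⟨(l 6), by decide +kernel⟩

theorem c_pp_213_s : CertNE 0 536870912 536870912 536870912 991146299 28908434 3 eng mog cd0q2 cd0q1 pd3 true true true .pnn 2 1 3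
    ndB0q2 ndB0q1 pcB3 cut_pp_213_s Ext.none :=
  certNE0 (fam := true) (s1 := true) (s2 := true) (a := 2) (b := 1) (c := 3) (cn := .pnn) (n1 := ndB0q2) (n2 := ndB0q1) (pc := pcB3) (cut := cut_pp_213_s) (xt := Ext.none) (P1 := 0) (W1 := 536870912) (P2 := 536870912) (W2 := 536870912) (P3 := 991146299) (W3 := 28908434) (N0 := 3) (En := eng) (mo := mog) (C1 := cd0q2) (C2 := cd0q1) (C3 := pd3)
    rfl k0_pp_213_s

noncomputable def cut_pp_213_t : Cut := Cut.of [[⟨3, 0, 0, 2845415833⟩]]

noncomputable def f_pp_213_t : ℕ → ℕ → ℕ → ℕ → Bool := onCell 0 536870912 536870912 536870912 991146299 28908434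
    (rowNE 3 eng mog cd0q2 cd0q1 pd3 0 true true true .pnn 2 1 3 (qsf 0 536870912 536870912 536870912 3) ndB0q2 ndB0q1 pcB3 cut_pp_213_t Ext.none)

def k0_pp_213_t : ∃ t, chk3 f_pp_213_t t 1 1 1 = true :=
  ⟨(a (l 5) (l 4)), by decide +kernel⟩

theorem c_pp_213_t : CertNE 0 536870912 536870912 536870912 991146299 28908434 3 eng mog cd0q2 cd0q1 pd3 true true true .pnn 2 1 3
    ndB0q2 ndB0q1 pcB3 cut_pp_213_t Ext.none :=
  certNE0 (fam := true) (s1 := true) (s2 := true) (a := 2) (b := 1) (c := 3) (cn := .pnn) (n1 := ndB0q2) (n2 := ndB0q1) (pc := pcB3) (cut := cut_pp_213_t) (xt := Ext.none) (P1 := 0) (W1 := 536870912) (P2 := 536870912) (W2 := 536870912) (P3 := 991146299) (W3 := 28908434) (N0 := 3) (En := eng) (mo := mog) (C1 := cd0q2) (C2 := cd0q1) (C3 := pd3)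
    rfl k0_pp_213_t

noncomputable def cut_pm_001_s : Cut := Cut.of [[⟨4, 0, 0, 1449551462⟩]]

noncomputable def f_pm_001_s : ℕ → ℕ → ℕ → ℕ → Bool := onCell 0 536870912 0 536870912 991146299 28908434
    (rowNE 3 eng mog cd0q0 cd0q0 pd1 0 true true false .up 0 0 1 (qsf 0 536870912 0 536870912 1) ndB0q0 ndB0q0 pcB1 cut_pm_001_s Ext.none)

def k0_pm_001_s : ∃ t, chk3 f_pm_001_s t 1 1 1 = true :=
  ⟨(l 3), by decide +kernel⟩

theorem c_pm_001_s : CertNE 0 536870912 0 536870912 991146299 28908434 3 eng mog cd0q0 cd0q0 pd1 true true false .up 0 0 1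
    ndB0q0 ndB0q0 pcB1 cut_pm_001_s Ext.none :=
  certNE0 (fam := true) (s1 := true) (s2 := false) (a := 0) (b := 0) (c := 1) (cn := .up) (n1 := ndB0q0) (n2 := ndB0q0) (pc := pcB1) (cut := cut_pm_001_s) (xt := Ext.none) (P1 := 0) (W1 := 536870912) (P2 := 0) (W2 := 536870912) (P3 := 991146299) (W3 := 28908434) (N0 := 3) (En := eng) (mo := mog) (C1 := cd0q0) (C2 := cd0q0) (C3 := pd1)
    rfl k0_pm_001_s

noncomputable def cut_pm_001_t : Cut := Cut.of [[⟨3, 0, 0, 2845415833⟩]]

noncomputable def f_pm_001_t : ℕ → ℕ → ℕ → ℕ → Bool := onCell 0 536870912 0 536870912 991146299 28908434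
    (rowNE 3 eng mog cd0q0 cd0q0 pd1 0 true true false .up 0 0 1 (qsf 0 536870912 0 536870912 1) ndB0q0 ndB0q0 pcB1 cut_pm_001_t Ext.none)

def k0_pm_001_t : ∃ t, chk3 f_pm_001_t t 1 1 1 = true :=
  ⟨(l 3), by decide +kernel⟩

theorem c_pm_001_t : CertNE 0 536870912 0 536870912 991146299 28908434 3 eng mog cd0q0 cd0q0 pd1 true true false .up 0 0 1
    ndB0q0 ndB0q0 pcB1 cut_pm_001_t Ext.none :=
  certNE0 (fam := true) (s1 := true) (s2 := false) (a := 0) (b := 0) (c := 1) (cn := .up) (n1 := ndB0q0) (n2 := ndB0q0) (pc := pcB1) (cut := cut_pm_001_t) (xt := Ext.none) (P1 := 0) (W1 := 536870912) (P2 := 0) (W2 := 536870912) (P3 := 991146299) (W3 := 28908434) (N0 := 3) (En := eng) (mo := mog) (C1 := cd0q0) (C2 := cd0q0) (C3 := pd1)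
    rfl k0_pm_001_t

noncomputable def cut_pm_011_s : Cut := Cut.of [[⟨4, 0, 0, 1449551462⟩], [⟨0, 0, 0, 53687091⟩, ⟨1, 1, 0, 53687091⟩, ⟨2, 1, 0, 53687091⟩]]

noncomputable def f_pm_011_s : ℕ → ℕ → ℕ → ℕ → Bool := onCell 536870912 536870912 536870912 536870912 991146299 28908434
    (rowNE 3 eng mog cd0q0 cd0q1 pd1 2 true true false .pnn 0 1 1 (qsf 0 536870912 536870912 536870912 1) ndB0q0 ndB0q1 pcB1 cut_pm_011_s Ext.none)

def k0_pm_011_s : ∃ t, chk3 f_pm_011_s t 1 1 1 = true :=
  ⟨(a (l 3) (b (l 3) (a (l 3) (b (l 3) (a (l 3) (b (l 3) (a (l 3) (b (l 3) (l 14))))))))), by decide +kernel⟩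

theorem c_pm_011_s : CertNE 0 536870912 536870912 536870912 991146299 28908434 3 eng mog cd0q0 cd0q1 pd1 true true false .pnn 0 1 1
    ndB0q0 ndB0q1 pcB1 cut_pm_011_s Ext.none :=
  certNE2 (fam := true) (s1 := true) (s2 := false) (a := 0) (b := 1) (c := 1) (cn := .pnn) (n1 := ndB0q0) (n2 := ndB0q1) (pc := pcB1) (cut := cut_pm_011_s) (xt := Ext.none) (P1 := 0) (W1 := 536870912) (P2 := 536870912) (W2 := 536870912) (P3 := 991146299) (W3 := 28908434) (N0 := 3) (En := eng) (mo := mog) (C1 := cd0q0) (C2 := cd0q1) (C3 := pd1)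
    rfl (fun _ => rfl) k0_pm_011_s

noncomputable def cut_pm_011_t : Cut := Cut.of [[⟨3, 0, 0, 2845415833⟩], [⟨0, 0, 0, 53687091⟩, ⟨1, 1, 0, 53687091⟩, ⟨2, 1, 0, 53687091⟩]]

noncomputable def f_pm_011_t : ℕ → ℕ → ℕ → ℕ → Bool := onCell 0 536870912 536870912 536870912 991146299 28908434
    (rowNE 3 eng mog cd0q0 cd0q1 pd1 0 true true false .pnn 0 1 1 (qsf 0 536870912 536870912 536870912 1) ndB0q0 ndB0q1 pcB1 cut_pm_011_t Ext.none)

def k0_pm_011_t : ∃ t, chk3 f_pm_011_t t 1 1 1 = true :=
  ⟨(l 6), by decide +kernel⟩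

theorem c_pm_011_t : CertNE 0 536870912 536870912 536870912 991146299 28908434 3 eng mog cd0q0 cd0q1 pd1 true true false .pnn 0 1 1
    ndB0q0 ndB0q1 pcB1 cut_pm_011_t Ext.none :=
  certNE0 (fam := true) (s1 := true) (s2 := false) (a := 0) (b := 1) (c := 1) (cn := .pnn) (n1 := ndB0q0) (n2 := ndB0q1) (pc := pcB1) (cut := cut_pm_011_t) (xt := Ext.none) (P1 := 0) (W1 := 536870912) (P2 := 536870912) (W2 := 536870912) (P3 := 991146299) (W3 := 28908434) (N0 := 3) (En := eng) (mo := mog) (C1 := cd0q0) (C2 := cd0q1) (C3 := pd1)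
    rfl k0_pm_011_t

noncomputable def cut_pm_012_s : Cut := Cut.of [[⟨4, 0, 0, 1449551462⟩], [⟨0, 0, 0, 16777216⟩, ⟨1, 1, 0, 16777216⟩, ⟨2, 1, 0, 16777216⟩]]

noncomputable def f_pm_012_s : ℕ → ℕ → ℕ → ℕ → Bool := onCell 1073741824 536870912 536870912 536870912 991146299 28908434
    (rowNE 3 eng mog cd0q0 cd0q1 pd2 2 true true false .pnp 0 1 2 (qsf 0 536870912 536870912 536870912 2) ndB0q0 ndB0q1 pcB2 cut_pm_012_s Ext.none)

def k0_pm_012_s : ∃ t, chk3 f_pm_012_s t 4 2 1 = true :=
  ⟨(a (l 3) (l 3)), by decide +kernel⟩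

def k1_pm_012_s : ∃ t, chk3 f_pm_012_s t 4 6 1 = true :=
  ⟨(a (l 3) (a (b (l 3) (a (l 3) (b (l 3) (a (l 3) (b (l 3) (a (l 3) (b (l 3) (c (l 16744624) (l 16742384))))))))) (b (b (l 3) (a (l 3) (a (b (l 3) (a (l 3) (l 178408817991))) (a (b (l 3) (l 16744296)) (b (l 16771592) (l 16771472)))))) (a (b (a (l 3) (b (l 3) (a (b (l 3) (l 16733080)) (c (l 16754272) (l 16733656))))) (a (b (a (b (l 3) (l 214379166551)) (b (l 200420531911) (c (l 16776640) (l 16776704)))) (a (b (a (l 16750768) (l 16775632)) (l 16754952)) (c (l 16744824) (l 16747752)))) (b (a (c (l 16751568) (l 16752856)) (c (l 16765152) (l 16767896))) (c (a (l 16737208) (l 16750712)) (c (l 16737568) (l 16740456)))))) (b (a (a (b (b (l 3) (l 16772352)) (c (l 16770624) (l 16772040))) (b (c (l 16774760) (l 16775408)) (l 16743800))) (b (a (l 16747632) (l 16762184)) (b (l 16736784) (l 16731312)))) (a (a (b (c (l 16757824) (l 16762008)) (b (l 16750448) (l 16723032))) (b (l 16727064) (b (l 16723088) (l 16717624)))) (b (a (c (l 16743872)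 (l 16750224)) (c (l 16717088) (l 16744720))) (a (b (l 16717680) (l 16735240)) (l 16712784))))))))), by decide +kernel⟩

def k2_pm_012_s : ∃ t, chk3 f_pm_012_s t 8 14 1 = true :=
  ⟨(a (l 3) (a (l 3) (b (l 3) (b (l 3) (b (a (l 3) (a (b (l 3) (a (l 3) (l 370071817559))) (b (a (l 3) (c (l 243907152919) (l 201494319559))) (a (c (l 198273121639) (l 131164218743)) (c (l 16772072) (l 16773704)))))) (a (a (l 3) (b (l 3) (a (l 406042150791) (b (l 333027730823) (a (l 16756168) (l 16775384)))))) (a (b (a (b (l 408726512983) (c (l 16749224) (l 161765862183))) (c (l 16774888) (l 108078782935))) (c (a (l 16773240) (l 16768784)) (a (l 16774560) (l 16771504)))) (c (b (l 16747296) (l 16741080)) (c (l 16747056) (l 16759536)))))))))), by decide +kernel⟩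

def k3_pm_012_s : ∃ t, chk3 f_pm_012_s t 16 30 1 = true :=
  ⟨(a (l 3) (b (l 3) (a (l 3) (b (l 3) (a (l 3) (b (l 3) (a (b (l 3) (a (l 3) (b (l 3) (c (l 254644582263) (l 300815477895))))) (b (a (l 446844370375) (b (l 391546664215) (c (l 16776928) (l 233169743447)))) (b (a (a (l 224042944199) (l 96267659719)) (l 16770496)) (c (l 16774744) (l 16770424))))))))))), by decide +kernel⟩

def k4_pm_012_s : ∃ t, chk3 f_pm_012_s t 32 62 1 = true :=
  ⟨(a (l 3) (b (l 3) (a (l 3) (b (l 3) (b (l 3) (a (l 3) (a (l 3) (b (l 3) (a (a (l 3) (c (l 338933317367) (c (l 349133864631) (l 352355087447)))) (a (b (l 471540432711) (a (b (l 16777152) (l 16776880)) (l 88214598519))) (b (a (l 254107714279) (b (l 16777168) (l 16777024))) (l 16771248)))))))))))), by decide +kernel⟩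

def k5_pm_012_s : ∃ t, chk3 f_pm_012_s t 64 63 1 = true :=
  ⟨(b (a (l 3) (b (l 3) (a (l 3) (b (l 3) (b (l 3) (a (l 3) (a (l 3) (b (l 3) (a (l 3) (a (c (l 396378505063) (l 404431568727)) (b (l 3) (b (a (l 16777104) (l 165524013463)) (c (l 16777072) (l 16776992)))))))))))))) (a (l 14) (b (a (l 14) (b (a (l 14) (b (a (l 14) (a (l 14) (a (l 14) (b (c (l 16773832) (l 16774752)) (l 14))))) (l 14))) (l 14))) (l 14)))), by decide +kernel⟩

def k6_pm_012_s : ∃ t, chk3 f_pm_012_s t 130 252 1 = true :=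
  ⟨(a (l 3) (a (l 3) (a (l 3) (b (l 3) (b (l 3) (b (l 3) (b (a (l 3) (a (l 334101479655) (a (l 157470949991) (l 16777088)))) (a (a (l 413558373895) (a (l 189683204647) (l 270213839543))) (c (l 16776904) (l 16776720)))))))))), by decide +kernel⟩

def k7_pm_012_s : ∃ t, chk3 f_pm_012_s t 260 506 1 = true :=
  ⟨(b (l 3) (b (l 3) (a (l 3) (a (l 3) (a (l 443623143959) (b (l 384567345031) (a (b (l 295983644935) (l 104320727767)) (c (l 16776992) (l 16776872))))))))), by decide +kernel⟩

def k8_pm_012_s : ∃ t, chk3 f_pm_012_s t 260 507 1 = true :=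
  ⟨(a (a (b (l 3) (a (b (l 3) (b (b (a (l 3) (a (l 437180694231) (l 142438564231))) (a (c (l 235317231863) (l 208473686407)) (c (l 16777048) (l 16776968)))) (c (l 80161535447) (a (l 83382761047) (l 16773792))))) (b (a (c (l 370608701287) (c (l 380272377687) (l 384030474055))) (b (l 3) (b (c (l 16777168) (l 165524013495)) (l 83382761751)))) (c (c (l 16776632) (l 16775152)) (c (l 74792824135) (b (l 16773896) (l 16770464))))))) (b (b (l 3) (b (l 3) (a (l 3) (a (a (l 333027737767) (b (l 3) (l 16777128))) (b (a (l 16777184) (l 16777120)) (l 16774312)))))) (b (a (b (a (c (l 255181455671) (b (l 3) (l 141364822535))) (b (c (l 16777160) (l 127406178839)) (l 16775648))) (c (l 16776776) (l 16775232))) (c (l 16775200) (c (l 16773616) (l 16773424)))) (a (c (l 16773416) (c (l 16772960) (l 16772648))) (c (l 16772920) (l 16772688)))))) (b (a (b (a (l 476372270887) (b (l 444160016247) (a (b (l 443086274247) (a (l 16777168) (l 16777088))) (c (l 16777032) (a (l 16777016) (l 16776872)))))) (a (a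 (b (a (l 285783097671) (b (l 16777192) (l 16777112))) (l 16775456)) (b (b (a (l 16777176) (l 16777104)) (l 16776904)) (l 16773832))) (c (l 16773856) (l 16774112)))) (b (a (a (b (b (l 407652794055) (a (l 16777160) (l 16777064))) (l 16774088)) (c (l 84993373447) (c (l 16775304) (l 83382759639)))) (c (l 16773816) (l 16773392))) (c (c (l 16775936) (l 16772928)) (c (l 16772536) (l 16772120))))) (a (c (c (b (l 16773328) (l 16772488)) (b (l 16772960) (l 16771872))) (a (b (l 16773408) (l 16771280)) (b (l 16772000) (l 16770528)))) (c (c (l 16772736) (b (l 16771864) (l 16768176))) (c (b (l 16771216) (l 16769888)) (b (l 16770544) (l 16768960))))))), by decide +kernel⟩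

def k9_pm_012_s : ∃ t, chk3 f_pm_012_s t 261 506 1 = true :=
  ⟨(a (b (b (l 3) (a (l 3) (a (c (l 371145572183) (l 378661764919)) (b (c (l 278266904935) (a (l 3) (l 197736268359))) (a (b (l 131164275303) (l 16776976)) (l 16774200)))))) (a (b (a (c (l 398525988679) (l 407115923255)) (b (c (l 327122157783) (l 315847868759)) (a (b (l 212231782807) (l 16777032)) (l 81235277415)))) (a (a (b (b (l 251423359319) (l 16776408)) (l 16774024)) (c (l 16776752) (l 78550921255))) (c (l 16773776) (l 16773328)))) (b (a (b (a (b (l 164987142695) (l 16777008)) (l 16775544)) (l 16775048)) (b (l 16775096) (l 16773872))) (c (l 16773080) (c (l 16769824) (l 16772016)))))) (a (b (b (a (c (l 345912639303) (c (l 354502573879) (l 358797541143))) (b (a (l 447381241431) (b (l 16777184) (l 16777112))) (c (l 16776944) (l 90362082487)))) (a (b (a (b (l 16777464) (l 16776944)) (l 16774168)) (l 16775064)) (c (l 16776320) (l 16770568)))) (c (c (l 16772888) (l 16772344)) (c (l 16771784) (b (l 16769336) (l 16767832)))))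 (b (c (b (c (l 16776600) (l 16775088)) (l 16773032)) (b (a (a (l 16775296) (l 16771032)) (l 16770496)) (l 16772128))) (c (c (l 16769520) (l 16768728)) (c (l 16770528) (l 16769024)))))), by decide +kernel⟩

def k10_pm_012_s : ∃ t, chk3 f_pm_012_s t 261 507 1 = true :=
  ⟨(b (b (a (c (a (l 16773760) (l 16772184)) (a (c (l 16772488) (l 16772072)) (c (l 16768560) (l 16767864)))) (c (a (l 16771296) (l 16767832)) (a (l 16769432) (l 16768064)))) (a (c (a (l 16772184) (l 16771280)) (a (c (l 16768576) (l 16770520)) (c (l 16772528) (l 16766328)))) (c (a (l 16770408) (a (l 16769736) (a (l 16769440) (l 16769280)))) (a (l 16768040) (a (b (l 16769992) (l 16766648)) (b (l 16769304) (l 16766184))))))) (b (a (c (a (l 16771256) (l 16770368)) (a (c (l 16767280) (l 16766336)) (c (l 16771240) (l 16770032)))) (a (a (b (a (l 16768808) (l 16765904)) (c (l 16769488) (a (l 16766792) (l 16769168)))) (b (c (l 16769504) (a (l 16769424) (l 16763888))) (c (l 16766528) (l 16768872)))) (a (c (l 16769000) (l 16766080))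 (l 16765792)))) (a (b (c (a (l 16767936) (a (l 16767248) (l 16769488))) (a (l 16768352) (a (l 16767272) (a (l 16766808) (l 16769216))))) (a (a (a (l 16769312) (l 16769024)) (a (l 16767432) (c (l 16767112) (l 16767096)))) (a (c (l 16769488) (l 16767096)) (l 16767704)))) (c (c (l 16768984) (l 16767640)) (a (l 16768536) (l 16767768)))))), by decide +kernel⟩

def k11_pm_012_s : ∃ t, chk3 f_pm_012_s t 131 504 1 = true :=
  ⟨(a (a (l 3) (a (c (l 462413626743) (l 473687915831)) (b (l 3) (a (b (l 3) (b (l 320679706999) (c (l 16777048) (l 16777528)))) (b (l 369534959431) (a (b (l 263234517527) (l 16776680)) (l 16774040))))))) (a (a (a (b (l 3) (b (b (c (l 16777152) (l 257328939543)) (c (l 16777016) (l 16776888))) (l 16773640))) (b (c (l 382956732135) (l 391009795783)) (c (l 79624662183) (c (l 16773472) (l 16773224))))) (b (b (c (l 338933317399) (c (l 348596993783) (l 351818219223))) (a (b (c (l 16777144) (l 204178719351)) (l 88751469879)) (c (l 16776776) (l 16776488)))) (c (l 16770648)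 (c (l 16770008) (l 16769560))))) (a (b (a (b (b (a (l 16777168) (l 16777096)) (l 16776832)) (l 16773512)) (c (l 16776384) (l 16770576))) (c (l 16769912) (l 16771160))) (c (c (l 16770248) (l 16769568)) (b (l 16772272) (l 16767336)))))), by decide +kernel⟩

def k12_pm_012_s : ∃ t, chk3 f_pm_012_s t 131 505 1 = true :=
  ⟨(b (a (a (a (l 3) (b (l 464024239847) (a (b (l 3) (a (l 212231783015) (a (l 16777104) (l 16777016)))) (b (a (l 182703882919) (l 100562630695)) (l 16774064))))) (a (b (a (b (l 439865048471) (c (l 16777080) (c (l 16777024) (l 16776984)))) (b (b (l 292762417767) (l 16775664)) (l 16771376))) (c (l 16776376) (l 16773240))) (c (l 16773328) (c (l 16770120) (l 16769712))))) (c (a (c (l 16769928) (l 16771792)) (a (l 16768488) (l 16767824))) (a (a (c (l 16768960) (l 16768288)) (l 16768680)) (c (l 16766232) (l 16764904))))) (a (a (a (b (a (b (l 3) (a (l 287393710471) (a (l 127943049879) (l 16777072)))) (b (a (l 251960230359) (a (l 16777128) (l 16777048))) (c (l 16776856) (l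 16776648)))) (c (l 74255953239) (c (l 16773504) (l 16773272)))) (c (b (l 16773800) (l 16770368)) (c (l 16772856) (l 52781111415)))) (a (c (l 16772576) (c (l 16769024) (l 16768384))) (c (l 16771792) (c (l 16767864) (l 16766960))))) (a (a (c (l 16768424) (l 16767464)) (c (l 16767712) (l 16764944))) (c (b (a (l 16762160) (l 16761504)) (a (l 16766608) (l 16767352))) (b (c (l 16764616) (l 16762920)) (a (c (l 16769240) (l 16767424)) (c (l 16768440) (l 16766472)))))))), by decide +kernel⟩

def k13_pm_012_s : ∃ t, chk3 f_pm_012_s t 131 253 1 = true :=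
  ⟨(a (a (a (b (c (b (b (l 16770392) (l 16769552)) (c (l 16768816) (l 16767768))) (b (c (l 16771720) (l 16771112)) (c (l 16766688) (l 16765568)))) (b (b (a (b (l 16767440) (l 16766888)) (b (l 16766920) (c (l 16766600) (l 16766112)))) (a (b (c (l 16766584) (l 16766144)) (l 16764664)) (c (l 16766016) (l 16768176)))) (c (l 16764944) (l 16767344)))) (b (c (b (l 16771768) (b (l 16767912) (c (l 16767728) (l 16766304)))) (b (c (l 16767880) (l 16767008)) (b (l 16765480) (c (l 16767464) (l 16765960))))) (b (c (b (c (l 16770352) (b (l 16765688) (l 16770560))) (l 16765432)) (b (a (b (l 16766096) (l 16768328)) (l 16762920)) (l 16767600))) (c (l 16764192) (l 16766600))))) (b (b (c (c (l 16771192) (l 16769992)) (c (c (l 16766448) (l 16765824)) (b (l 16765568) (l 16764168)))) (c (a (b (l 16767152) (c (l 16769752) (l 16768832))) (b (c (l 16769816) (l 16768192)) (l 16765616))) (b (a (l 16764208) (c (b (l 16769336) (l 16768936)) (b (l 16767624) (l 16767176)))) (a (a (b (l 16768760) (l 16768280))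 (l 16765496)) (l 16767496))))) (b (c (a (l 16765104) (l 16759120)) (c (l 16767640) (l 16766024))) (c (l 16763064) (l 16765496))))) (b (a (b (b (a (c (l 16767272) (l 16764288)) (a (l 16765432) (c (l 16766368) (l 16765400)))) (c (a (c (l 16767264) (l 16768224)) (l 16768496)) (a (a (l 16763280) (a (l 16762872) (l 16762672))) (c (l 16768432) (l 16766568))))) (a (b (c (l 16765768) (l 16762272)) (l 16763224)) (a (l 16763064) (l 16762704)))) (a (b (b (c (l 16767928) (c (l 16768440) (l 16766520))) (l 16763304)) (c (l 16758608) (l 16765696))) (c (l 16763976) (l 16760432)))) (b (c (a (l 16763256) (l 16756568)) (a (l 16765400) (l 16763984))) (c (a (l 16761576) (l 16765352)) (a (l 16764040) (l 16762608)))))), by decide +kernel⟩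

def k14_pm_012_s : ∃ t, chk3 f_pm_012_s t 260 254 1 = true :=
  ⟨(a (b (b (b (c (a (c (l 16773360) (l 16773992)) (c (l 16772488) (l 16771872))) (a (c (a (l 16773000) (l 16772296)) (a (l 16772696) (l 16771848))) (c (l 16771248) (c (l 16770760) (l 16770432))))) (a (a (l 14) (a (l 14) (b (l 16771408) (l 14)))) (a (c (l 16771432) (l 16769792)) (c (l 16770952) (l 16769048))))) (b (b (b (b (a (l 14) (c (l 16770632) (l 16768568))) (l 14)) (l 14)) (l 14)) (l 14))) (l 14)) (a (b (a (b (c (b (l 16771456) (c (l 16771920) (b (l 16772840) (l 16769632)))) (b (l 16769792) (a (l 16768480) (b (l 16771120) (a (l 16767816) (l 16767664)))))) (b (b (a (c (l 16769920) (l 16767560)) (l 16768512)) (l 16768240)) (l 14))) (b (c (b (l 16770976) (b (l 16770216) (a (l 16769912) (l 16772344)))) (b (l 16769056) (c (b (l 16771120) (l 16770656)) (b (l 16769936) (l 16769408))))) (c (l 16768760) (l 16769144)))) (l 14)) (b (b (b (a (c (l 16770512) (l 16768328)) (b (c (l 16767672) (l 16770600)) (a (c (l 16769904)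 (l 16768064)) (c (l 16769736) (l 16767168))))) (a (b (c (c (l 16773040) (l 16771840)) (c (l 16767984) (l 16768024))) (l 16767528)) (c (l 16766576) (l 16769336)))) (c (c (l 16766072) (l 16770232)) (l 16765928))) (b (c (l 16766488) (l 16767216)) (l 14))))), by decide +kernel⟩

def k15_pm_012_s : ∃ t, chk3 f_pm_012_s t 261 254 1 = true :=
  ⟨(b (b (a (c (a (b (b (a (a (l 16767312) (l 16769728)) (l 16769480)) (l 16769264)) (l 16765984)) (l 16768232)) (a (b (b (a (a (l 16770032) (l 16767120)) (l 16766816)) (l 16766672)) (l 16768744)) (l 16765680))) (c (a (l 16764824) (l 16764048)) (c (l 16767800) (l 16766496)))) (a (c (a (l 16764736) (l 16763944)) (c (l 16765312) (l 16766792))) (c (b (l 16763184) (l 16767584)) (c (l 16766368) (l 16765240))))) (a (c (b (c (l 16765736) (l 16767440)) (a (l 14) (l 16765800))) (b (c (l 16766504) (l 16765536)) (l 16762040))) (b (c (l 16763688) (l 16764448)) (c (b (l 16765024) (a (l 16764552) (l 16763880))) (b (l 16763416) (l 16762720)))))), by decide +kernel⟩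

def k16_pm_012_s : ∃ t, chk3 f_pm_012_s t 131 254 1 = true :=
  ⟨(b (a (a (c (b (l 16765520) (l 16761200)) (b (l 16763008) (l 16764272))) (c (a (l 16760904) (l 16760144)) (b (l 16764136) (l 16762760)))) (c (a (c (l 16759560) (l 16763696)) (l 16757520)) (b (a (l 16762664) (l 16761208)) (l 16756592)))) (b (a (a (c (l 16764736) (l 16762888)) (c (l 16757904) (l 16761328))) (c (a (b (l 16762080) (l 16761392)) (b (l 16760640) (l 16760432))) (a (l 16757216) (l 16758568)))) (a (c (a (b (l 16763432) (l 16763104)) (b (l 16762224) (l 16762200))) (a (b (l 16761808) (l 16761368)) (b (l 16760448) (l 16760056)))) (c (c (l 16761608) (l 16760368)) (l 16755816))))), by decide +kernel⟩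

def k17_pm_012_s : ∃ t, chk3 f_pm_012_s t 65 255 1 = true :=
  ⟨(a (b (b (b (a (l 14) (a (l 14) (a (l 14) (l 16760248)))) (l 14)) (l 14)) (l 14)) (b (c (a (b (c (l 16763416) (l 16762152)) (l 16759088)) (c (l 16757136) (l 16755248))) (a (c (b (l 16760840) (l 16760400)) (b (l 16759496) (l 16758584))) (b (l 16752608) (l 16746768)))) (a (a (l 14) (c (l 16757752) (l 16752656))) (c (b (l 16751376) (l 16751640)) (b (l 16746152) (l 16745512)))))), by decide +kernel⟩

def k18_pm_012_s : ∃ t, chk3 f_pm_012_s t 66 124 1 = true :=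
  ⟨(a (l 3) (a (l 3) (b (l 3) (b (l 3) (a (a (l 455971175879) (b (l 3) (b (l 387788569271) (a (l 16777080) (l 16776880))))) (a (b (l 351818216599) (c (l 16776744) (l 16773808))) (b (c (l 234780358407) (b (l 224042943543) (l 16776728))) (l 16770816)))))))), by decide +kernel⟩

def k19_pm_012_s : ∃ t, chk3 f_pm_012_s t 132 125 1 = true :=
  ⟨(a (b (l 3) (b (a (l 3) (b (l 468856075175) (a (a (c (l 370608701175) (l 378124893911)) (b (l 3) (b (l 319605963399) (l 16776896)))) (a (b (a (l 398525988151) (l 326585285191)) (l 16771416)) (c (l 16776744) (b (l 16776872) (l 16775936))))))) (a (a (a (b (l 447918112471) (c (l 86603984871) (b (l 16776752) (l 16775696)))) (b (b (l 3) (b (l 308331676023) (l 105394468727))) (c (l 16776304) (l 16770408)))) (b (b (a (l 323900932615) (b (l 227264168695) (l 16776960))) (c (l 16776736) (l 83382758263))) (c (l 16775792) (l 16769520)))) (c (b (b (l 16774400) (l 16770512)) (l 16769592)) (b (a (c (l 16775928) (l 16770368)) (l 16769392)) (c (l 16768264) (l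 16767352))))))) (b (b (l 3) (c (a (l 445770628407) (b (l 372756184663) (a (b (l 371145571335) (l 16776968)) (l 88751468343)))) (a (l 454897431207) (a (b (l 3) (b (l 311016030855) (c (l 16776824) (l 16776720)))) (b (l 360408153751) (b (l 98952016007) (l 16775848))))))) (b (b (a (a (a (c (l 297057386983) (l 327122154615)) (b (l 438254435527) (a (l 16775680) (l 16776824)))) (b (a (a (l 204715590535) (l 266992613319)) (l 16775520)) (l 16773680))) (c (l 16770728) (l 16770984))) (c (a (l 16773392) (l 16769656)) (a (a (l 16770368) (l 16764032)) (l 16767712)))) (c (a (c (l 16769488) (l 16768472)) (c (l 16762936) (l 16761968))) (a (c (l 16767312) (b (l 16762032) (l 16759720))) (c (l 16765568) (l 16763872))))))), by decide +kernel⟩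

def k20_pm_012_s : ∃ t, chk3 f_pm_012_s t 133 125 1 = true :=
  ⟨(b (b (a (a (a (l 3) (a (l 455434305031) (b (l 3) (b (l 3) (l 282024998791))))) (a (b (l 3) (b (a (l 282025001623) (l 253570840151)) (l 16774688))) (b (c (l 226727292871) (b (l 476372270855) (l 110763176407))) (c (l 16776488) (l 16775944))))) (a (a (b (c (l 16775584) (b (l 260550161447) (l 16776280))) (l 16770336)) (c (l 16765264) (l 16764464))) (c (l 16769488) (l 16768416)))) (c (a (a (b (a (a (l 176798298119) (l 16775640)) (l 16776640)) (l 16770696)) (l 16771384)) (a (l 16768768) (l 16762072))) (a (a (b (a (b (l 221358583815) (l 16776632)) (l 16770864)) (l 16769544)) (c (l 16763720) (l 16762856))) (a (b (l 16762376) (l 16760664)) (l 16765176))))) (a (b (c (a (l 16770512) (l 16768168)) (a (c (l 16762120) (l 16766088)) (c (l 16760568) (l 16758800)))) (c (a (b (l 16762424) (a (l 16766720) (l 16766328))) (b (b (l 16761760) (l 16766560)) (l 16766320))) (a (b (l 16758624) (b (l 16762344) (c (l 16757496) (l 16760296))))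 (a (b (l 16757288) (l 16755784)) (b (l 16761736) (l 16765560)))))) (b (c (a (b (l 16762008) (l 16765736)) (b (l 16760568) (a (l 16759968) (l 16759296)))) (a (b (l 16758936) (a (l 16747080) (l 16756720))) (b (l 16762576) (b (l 16756240) (l 16745112))))) (a (b (a (c (l 16760560) (l 16755976)) (l 16760624)) (l 16756712)) (c (l 16758792) (l 16743304)))))), by decide +kernel⟩

def k21_pm_012_s : ∃ t, chk3 f_pm_012_s t 67 124 1 = true :=
  ⟨(a (b (a (a (l 3) (c (l 448454982727) (l 458118656455))) (b (a (l 3) (b (l 3) (c (l 334638348407) (l 315847867991)))) (a (a (b (l 3) (c (l 16777096) (l 289004319639))) (b (l 285783098647) (c (l 16776520) (l 16776512)))) (b (c (l 36674991015) (a (l 250886484439) (l 16776360))) (c (l 16775272) (l 16775496)))))) (a (b (a (a (c (l 355039444567) (l 362018763703)) (b (l 3) (b (l 292225545415) (l 16776752)))) (b (a (b (l 446844369751) (l 266992612247)) (b (l 238538453767) (l 16776632))) (c (l 16775896) (l 16775728)))) (c (a (b (l 16776160) (l 16774984))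 (l 16763560)) (a (a (l 16771600) (l 16764248)) (l 16768360)))) (c (b (a (l 16764456) (l 16762728)) (a (l 16761880) (l 16760032))) (b (a (l 16764456) (l 16763152)) (a (l 16761760) (l 16760600)))))) (b (a (b (a (b (c (l 294909900791) (a (l 450065595143) (l 292762416455))) (c (l 16776376) (l 92509562599))) (c (l 16775304) (l 82309012023))) (c (b (l 16763528) (l 16762056)) (a (l 16764344) (l 16763224)))) (c (b (l 16764536) (l 16761384)) (b (l 16768984) (l 16761824)))) (a (c (b (a (l 16760848) (l 16748360)) (a (l 16758056) (l 16758712))) (b (a (l 16762032) (l 16750568)) (a (l 16749120) (l 16758600)))) (b (c (a (l 16746232) (l 16754560)) (b (l 16749864) (l 16759280))) (c (a (b (l 16744064) (l 16753416)) (b (l 16752544) (l 16762624))) (a (l 16757936) (l 16746904))))))), by decide +kernel⟩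

def k22_pm_012_s : ∃ t, chk3 f_pm_012_s t 67 125 1 = true :=
  ⟨(b (a (a (b (c (a (l 16762760) (l 16761120)) (a (l 16766856) (l 16760224))) (b (c (l 16765440) (l 16763864)) (c (a (l 16759936) (l 16763576)) (a (l 16757672) (l 16756520))))) (b (a (c (l 16759336) (l 16759008)) (b (l 16760440) (c (l 16756920) (l 16757200)))) (a (b (c (l 16757648) (l 16756840)) (l 16761136)) (c (l 16755952) (l 16755368))))) (a (b (c (a (b (l 16756160) (l 16755216)) (c (l 16752720) (l 16755552))) (a (b (l 16747112) (l 16746016)) (l 16756368))) (c (l 16743880) (l 16743352))) (c (l 16756152) (l 16753488)))) (a (a (a (b (b (c (l 16763584) (l 16761472)) (l 16757512)) (l 16756512)) (c (l 16762736) (l 16753040))) (c (b (l 16756152) (l 16744344)) (b (l 16742432) (l 16739568)))) (a (c (l 16753840) (l 16749504)) (c (l 16751648) (l 16737104))))), by decide +kernel⟩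

def k23_pm_012_s : ∃ t, chk3 f_pm_012_s t 66 126 1 = true :=
  ⟨(b (b (a (b (a (c (a (l 16771536) (l 16768344)) (a (c (l 16768304) (l 16767424)) (c (l 16761088) (l 16759704)))) (a (c (l 16767264) (l 16763592)) (a (c (l 16767744) (a (l 16762304) (l 16762544))) (c (l 16767352) (b (l 16756488) (l 16766296)))))) (a (a (c (l 16769552) (c (l 16766280) (l 16764928))) (c (a (l 16762112) (l 16768032)) (a (l 16758736) (c (l 16763832) (l 16761840))))) (a (a (c (b (l 16761320) (l 16765960)) (b (l 16757192) (l 16761600))) (b (c (l 16760840) (l 16761632)) (l 16757880))) (c (l 16759528) (l 16755064))))) (a (b (a (c (l 16765232) (l 16760552)) (l 16758984)) (c (l 16757600) (l 16753208))) (c (l 16755992) (l 16751560)))) (a (a (a (a (b (c (l 16767192) (l 16763872)) (b (c (l 16766120) (c (l 16768456) (l 16761192))) (l 16763416))) (b (c (c (l 16767392) (l 16768176)) (b (l 16768600) (c (l 16768480) (l 16766424)))) (c (l 16765128) (l 16761168)))) (b (c (b (a (l 16766304) (l 16765832)) (l 16766688))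 (b (a (l 16763568) (l 16761576)) (l 16762544))) (c (l 16758808) (l 16765352)))) (c (a (l 16763552) (l 16756992)) (a (l 16759496) (l 16752984)))) (a (c (a (l 16755696) (l 16754416)) (b (l 16751816) (l 16760896))) (c (l 16752536) (l 16748704))))) (a (a (c (b (a (b (l 16758512) (l 16756832)) (l 16761528)) (a (l 16759520) (l 16758104))) (b (a (c (l 16765552) (l 16763744)) (l 16758064)) (b (l 16756656) (l 16755248)))) (c (b (a (l 16754920) (l 16753576)) (c (l 16756680) (l 16750088))) (b (c (l 16756952) (l 16760432)) (a (l 16759144) (l 16757792))))) (b (a (c (l 16756832) (l 16753504)) (c (l 16749008) (l 16756256))) (a (c (c (l 16753888) (l 16747328)) (a (l 16756472) (l 16755136))) (b (l 16750184) (c (l 16750168) (l 16752712))))))), by decide +kernel⟩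

def k24_pm_012_s : ∃ t, chk3 f_pm_012_s t 67 126 1 = true :=
  ⟨(c (b (a (a (b (l 16753616) (l 16750104)) (a (l 16750120) (l 16748976))) (a (l 16747296) (l 16745120))) (a (a (b (l 16746512) (b (l 16743968) (l 16754160))) (b (l 16749328) (l 16748184))) (b (a (l 16747584) (l 16751800)) (l 16742400)))) (b (a (a (b (l 16749296) (l 16756848)) (l 16748240)) (a (l 16743480) (l 16730936))) (a (b (a (l 16753840) (l 16751464)) (a (b (l 16751624) (l 16751000)) (l 16739440))) (b (a (l 16739112) (l 16748272)) (l 16748392))))), by decide +kernel⟩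

def k25_pm_012_s : ∃ t, chk3 f_pm_012_s t 33 127 1 = true :=
  ⟨(a (b (a (b (a (b (c (l 16756200) (l 16759064)) (c (a (l 16760384) (l 16759144)) (a (l 16758288) (l 16756968)))) (c (b (a (l 16759304) (l 16757920)) (a (l 16758200) (l 16757456))) (b (l 16750976) (a (l 16755840) (l 16754792))))) (c (a (b (a (l 16759712) (l 16758984)) (l 16749176)) (l 16753088)) (a (a (a (l 16754800) (l 16756824)) (l 16756040)) (l 16749368)))) (c (b (a (b (a (l 16756872) (l 16756096)) (l 16756672)) (l 16745112)) (b (l 16751504) (l 16746744))) (b (a (b (l 16748728) (l 16753432)) (l 16752008)) (a (l 16742432) (l 16751464))))) (a (c (b (a (l 16754944) (l 16748656)) (a (l 16750272) (l 16747120))) (b (a (c (l 16756712) (l 16754312)) (l 16743248)) (a (l 16749192) (l 16742304)))) (c (b (a (l 16737320) (l 16734600)) (a (l 16733288) (l 16729736))) (b (b (l 16741176) (l 16730336)) (b (l 16729976) (l 16729592)))))) (b (a (c (b (a (l 16754976) (l 16754544)) (l 16741888)) (b (b (l 16739672) (l 16729032)) (l 16739248)))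 (c (b (l 16731216) (l 16726096)) (c (l 16750000) (l 16746560)))) (c (a (b (l 16734288) (l 16729304)) (b (l 16720968) (l 16715824))) (a (b (l 16728352) (l 16727880)) (a (l 16727192) (l 16726016)))))), by decide +kernel⟩

def k26_pm_012_s : ∃ t, chk3 f_pm_012_s t 34 60 1 = true :=
  ⟨(a (l 3) (b (l 3) (a (b (l 3) (a (l 3) (b (l 398525983687) (c (l 155323453399) (a (l 298131123095) (l 16776312)))))) (b (a (b (l 3) (a (l 3) (l 293299283207))) (a (b (l 367387472183) (l 16764232)) (c (l 16775168) (l 113984363559)))) (c (a (b (l 175187674743) (l 16772456)) (l 16769704)) (a (b (a (l 16776912) (l 16775568)) (l 16774144)) (l 16772320))))))), by decide +kernel⟩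

def k27_pm_012_s : ∃ t, chk3 f_pm_012_s t 68 61 1 = true :=
  ⟨(b (a (a (l 3) (b (l 3) (c (l 440401916439) (l 435570075623)))) (b (a (l 3) (b (l 3) (a (l 442549392407) (b (l 406579049927) (l 150491619399))))) (a (c (b (l 359871279399) (a (l 216526746599) (l 16775288))) (b (l 372219307591) (a (b (l 286319969463) (l 16776848)) (l 16776040)))) (b (a (c (l 16776512) (l 151028477607)) (l 16769640)) (a (l 16763376) (l 16761544)))))) (a (b (a (b (l 3) (a (b (l 3) (l 356650053767)) (c (l 185388222951) (b (l 309942285671) (l 16776632))))) (b (a (b (l 457044913943) (c (l 16777168) (l 269676966743))) (c (l 16776168) (b (l 16776944) (l 16776072)))) (c (l 16768632) (a (l 16775856) (l 16774536))))) (a (b (a (b (c (l 16776552) (l 16776736)) (l 16764928)) (b (l 16764592) (l 16763280))) (c (l 16760984) (l 16763400))) (c (b (l 16760008) (l 16756568)) (b (l 16762672) (l 16750096))))) (b (c (a (b (l 16762480) (l 16748520)) (b (l 16747520) (l 16743928))) (a (a (l 16763720) (l 16762288)) (l 16762664)))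 (a (c (b (l 16744992) (l 16741408)) (a (l 16748880) (l 16747304))) (b (c (l 16740272) (l 16767016)) (c (a (l 16737952) (l 16735872)) (l 16743920))))))), by decide +kernel⟩

def k28_pm_012_s : ∃ t, chk3 f_pm_012_s t 69 61 1 = true :=
  ⟨(b (a (b (a (b (a (l 355039436919) (c (l 16776736) (l 145122876583))) (c (l 16774504) (l 100025748279))) (c (l 16761368) (l 16768560))) (c (a (l 16758856) (l 16754416)) (a (l 16764328) (l 16748320)))) (b (c (a (l 16746472) (l 16741992)) (b (l 16760040) (l 16747352))) (a (c (l 16739472) (l 16766352)) (b (l 16740088) (a (l 16738024) (l 16736312)))))) (b (a (a (c (l 16751592) (l 16746464)) (b (a (l 16742408) (l 16740504)) (c (l 16734952) (l 16742320)))) (a (b (c (l 16734176) (l 16741816)) (a (l 16736024) (l 16735032))) (b (l 16740128) (l 16733576)))) (a (a (b (c (l 16746400) (l 16743032)) (c (l 16733624) (l 16740920))) (c (b (l 16732496) (l 16752480)) (l 16739296))) (c (l 16729008) (l 16736264))))), by decide +kernel⟩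

def k29_pm_012_s : ∃ t, chk3 f_pm_012_s t 35 30 1 = true :=
  ⟨(b (a (b (a (b (a (l 3) (c (l 327659012503) (l 331953973511))) (a (b (l 382419844823) (c (l 146196655591) (l 219211093991))) (c (l 82845875463) (a (l 16754880) (l 16774312))))) (b (b (a (a (l 189683151847) (l 16776504)) (l 16763208)) (c (l 16761584) (l 16765928))) (c (a (l 16769480) (l 16764984)) (a (l 16772064) (l 16769024))))) (a (c (b (b (l 16760816) (l 16747032)) (c (l 16740848) (l 16743192))) (b (c (l 16771576) (l 16751944)) (a (l 16769352) (l 16766304)))) (b (c (l 16744912) (l 16755664)) (a (b (l 16740064) (l 16737208)) (c (l 16741392) (l 16749832)))))) (b (a (c (b (l 16748968) (l 16737216)) (c (l 16754776) (l 16757432))) (a (b (l 16745216) (l 16734440)) (b (l 16736128) (c (l 16726280) (l 16735792))))) (a (b (a (b (l 16737992) (l 16735152)) (c (l 16728600) (l 16737576))) (a (b (a (l 16733328) (l 16731600)) (l 16730576)) (b (l 16729632) (l 16728728)))) (b (a (c (l 16724960) (l 16734632)) (l 16727320)) (l 16726408)))))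 (b (a (a (b (a (b (l 16742048) (l 16739176)) (b (l 16738200) (a (l 16736320) (l 16734592)))) (a (b (a (l 16737248) (l 16735528)) (l 16739464)) (b (l 16738672) (l 16732328)))) (b (a (b (a (l 16735328) (l 16733600)) (l 16732496)) (b (l 16731528) (l 16730608))) (l 16730040))) (a (c (l 16723048) (l 16731656)) (b (l 16724504) (l 16722440)))) (a (a (b (a (l 16732344) (l 16730432)) (a (l 16729504) (l 16727560))) (c (l 16722608) (l 16729856))) (a (c (l 16718880) (l 16725920)) (b (l 16719928) (l 16717048)))))), by decide +kernel⟩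

def k30_pm_012_s : ∃ t, chk3 f_pm_012_s t 17 62 1 = true :=
  ⟨(a (a (b (a (b (a (c (b (l 16757672) (l 16754328)) (b (l 16761480) (l 16749048))) (b (c (l 16753088) (l 16747984)) (c (a (l 16751048) (l 16749032)) (a (l 16746864) (l 16745192))))) (a (b (c (a (b (l 16742536) (l 16751720)) (b (l 16740448) (l 16760760))) (a (l 16758592) (l 16746472))) (c (l 16739960) (l 16745512))) (c (b (l 16738112) (l 16737544)) (l 16743992)))) (b (a (b (c (a (l 16739216) (l 16747632)) (l 16755432)) (c (l 16746920) (l 16743160))) (c (b (l 16745432) (l 16755120)) (l 16751720))) (c (a (l 16735416) (l 16733024)) (l 16750680)))) (a (b (a (c (l 16749832) (l 16741288)) (c (l 16736912) (l 16739616))) (a (c (l 16738864) (l 16735304)) (b (l 16737504) (l 16734096)))) (b (c (b (l 16733464) (l 16754112)) (l 16747568)) (c (l 16743448) (l 16741440))))) (b (a (b (c (l 16741624) (l 16737736)) (c (l 16739984) (l 16735168))) (b (c (l 16726744) (l 16733072)) (a (l 16728720) (l 16726400)))) (b (a (c (l 16738952) (l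 16733208)) (a (l 16727128) (l 16724728))) (a (b (l 16740600) (a (l 16728792) (l 16737880))) (c (b (l 16744168) (l 16728472)) (a (l 16725744) (l 16724064))))))) (b (a (a (b (a (l 16726616) (l 16724592)) (l 16730896)) (b (l 16721608) (l 16718832))) (a (b (l 16717784) (l 16714784)) (b (l 16713944) (c (l 16707744) (l 16733552))))) (a (b (a (c (l 16719128) (l 16723400)) (c (b (l 16736016) (l 16712616)) (l 16717816))) (a (c (b (l 16726904) (l 16711104)) (c (l 16716936) (l 16719264))) (c (l 16703984) (l 16709264)))) (b (a (c (b (l 16709416) (l 16703872)) (l 16711136)) (a (l 16702520) (l 16697736))) (c (a (l 16693600) (l 16704104)) (c (l 16693312) (l 16696680))))))), by decide +kernel⟩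

def k31_pm_012_s : ∃ t, chk3 f_pm_012_s t 17 63 1 = true :=
  ⟨(a (b (a (b (b (a (a (l 16732512) (l 16730584)) (a (l 16741208) (c (l 16750360) (l 16746648)))) (a (c (a (l 16751840) (l 16750768)) (b (l 16727200) (l 16736872))) (a (c (l 16750432) (l 16746456)) (l 16727624)))) (a (c (b (l 16741008) (l 16727920)) (b (l 16747136) (l 16747336))) (c (b (l 16724112) (l 16718760)) (l 16726008)))) (a (b (c (a (c (l 16723704) (l 16725800)) (l 16720048)) (c (l 16725736) (l 16745176))) (c (b (l 16714328) (l 16708848)) (l 16718520))) (c (b (l 16712464) (l 16701120)) (b (l 16717976) (l 16708888))))) (a (b (c (a (b (l 16722672) (l 16717416)) (b (l 16713392) (l 16708008))) (a (l 16726600) (l 16719296))) (c (a (b (l 16712144) (l 16706864)) (b (l 16702616) (l 16697200))) (a (l 16719984) (l 16711200)))) (b (a (c (l 16700640) (l 16710064)) (c (l 16689872) (l 16699984))) (c (a (l 16689608) (l 16678648)) (a (l 16701600) (l 16691208)))))) (a (b (c (b (a (l 16702016) (l 16691256)) (a (l 16690152) (l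 16678856))) (b (a (l 16708384) (l 16698392)) (c (l 16691080) (l 16695640)))) (a (c (b (l 16678544) (l 16667016)) (b (l 16689232) (l 16700992))) (c (b (l 16687704) (l 16675824)) (b (l 16698872) (l 16689176))))) (b (c (b (c (l 16672760) (l 16676656)) (a (l 16688264) (l 16676488))) (a (l 16671920) (l 16671448))) (c (b (a (l 16675608) (l 16663280)) (a (l 16663216) (l 16650368))) (b (l 16660224) (l 16649552)))))), by decide +kernel⟩

def k32_pm_012_s : ∃ t, chk3 f_pm_012_s t 18 28 1 = true :=
  ⟨(a (a (l 3) (b (l 3) (a (b (l 3) (c (l 336248928231) (l 338933298151))) (a (b (l 3) (c (l 125258627159) (l 115058076967))) (b (l 305647260903) (a (l 76940273559) (l 16751648))))))) (a (b (b (l 3) (a (l 355576269399) (c (c (l 113447464007) (l 16735032)) (c (l 16740184) (l 95730718871))))) (b (a (c (c (l 114521204839) (l 108078754023)) (c (l 101636300615) (l 95193847799))) (a (l 16755328) (l 16746568))) (a (c (l 16766616) (l 16748824)) (a (l 16741880) (l 16738352))))) (b (c (a (b (l 105394400215)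 (l 16768920)) (a (l 16746240) (l 16742264))) (a (b (l 147807198439) (l 16771288)) (a (l 16749032) (l 16746120)))) (b (a (b (l 16743312) (l 16739312)) (c (l 16730856) (l 16758992))) (a (c (l 16729256) (l 16758064)) (c (l 16721568) (l 16731520))))))), by decide +kernel⟩

def k33_pm_012_s : ∃ t, chk3 f_pm_012_s t 18 29 1 = true :=
  ⟨(a (b (a (b (a (l 3) (b (l 3) (a (l 238538372215) (c (l 16776952) (l 16776896))))) (b (a (c (l 356650027527) (l 362555601431)) (c (l 102710069239) (a (l 16776536) (l 16773424)))) (a (a (a (l 236390902263) (l 156397154423)) (a (l 16760408) (l 16774280))) (a (l 16750544) (l 16746872))))) (b (a (a (b (l 141364765031) (l 16773464)) (b (l 16774280) (l 16769840))) (c (l 16743840) (l 16747632))) (a (c (l 16741552) (l 16753984)) (c (l 16733080) (l 16761168))))) (c (a (b (a (a (l 16760096) (l 16745208)) (b (l 16762576) (l 16735648))) (a (c (l 16733688) (l 16736848)) (b (l 16729528) (a (l 16746512) (l 16742776))))) (a (b (l 16730016) (b (a (l 16744200) (l 16740752))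 (l 16718112))) (b (b (l 16724632) (l 16719752)) (l 16715792)))) (a (b (a (b (l 67813479367) (l 16769128)) (b (l 16767144) (l 16763016))) (a (b (l 16764952) (l 16760648)) (b (l 16758776) (c (l 16741816) (l 16746992))))) (b (a (l 16738112) (b (l 16755352) (c (l 16727840) (l 16754472)))) (a (b (b (l 16754032) (l 16731104)) (l 16749848)) (l 16726584)))))) (b (a (b (a (c (l 16756440) (l 16762720)) (c (l 16727216) (l 16756824))) (a (b (l 16731736) (a (l 16728808) (l 16725504))) (a (b (l 16726448) (l 16722608)) (b (l 16723352) (l 16741720))))) (b (a (b (b (l 16727728) (l 16725600)) (a (l 16724160) (l 16721304))) (a (b (l 16721896) (l 16740456)) (l 16718680))) (a (b (l 16717424) (l 16718376)) (l 16716096)))) (a (b (a (b (c (l 16717864) (l 16729080)) (l 16720960)) (l 16718736)) (a (l 16717856) (l 16714592))) (b (b (l 16714944) (l 16712944)) (l 16709760))))), by decide +kernel⟩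

def k34_pm_012_s : ∃ t, chk3 f_pm_012_s t 19 14 1 = true :=
  ⟨(b (a (a (b (c (a (l 16731128) (l 16728616)) (a (l 16741760) (l 16735888))) (b (a (l 16722208) (b (l 16722872) (l 16719624))) (a (b (l 16716640) (l 16718960)) (l 16716672)))) (b (a (b (l 16729080) (b (l 16723632) (l 16720344))) (b (l 16717504) (b (l 16718080) (l 16737256)))) (b (a (b (l 16717696) (l 16737064)) (l 16734792)) (l 16706808)))) (a (b (b (a (l 16717432) (l 16735136)) (l 16712528)) (c (l 16723872) (l 16712296))) (b (c (l 16725016) (l 16733120)) (c (l 16718064) (l 16726432))))) (a (b (a (b (c (l 16709536) (l 16741448)) (c (l 16727160) (l 16737720))) (b (l 16708568) (l 16704952))) (a (b (l 16707512) (l 16703232)) (a (l 16700472) (l 16697176)))) (b (a (c (l 16716824) (l 16726080)) (l 16693864)) (a (l 16671272) (b (l 16708736) (l 16682264)))))), by decide +kernel⟩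

def k35_pm_012_s : ∃ t, chk3 f_pm_012_s t 36 15 1 = true :=
  ⟨(b (b (a (b (a (b (a (l 16732280) (c (l 16723992) (l 16734016))) (a (b (l 16728552) (l 16726960)) (l 16725672))) (b (a (b (l 16726632) (l 16725360)) (l 16724088)) (l 16723000))) (a (b (l 16724648) (l 16722688)) (l 16720008))) (b (a (b (l 16721488) (l 16719456)) (l 16716992)) (a (l 16716376) (l 16712776)))) (a (a (b (b (l 16720752) (l 16718664)) (l 16717320)) (b (l 16715976) (l 16710896))) (b (a (l 16712256) (l 16708560)) (a (l 16707104) (c (l 16699584) (l 16705888)))))) (b (b (a (b (c (a (l 16728416) (l 16723800)) (l 16710344)) (a (c (l 16701168) (l 16706320)) (a (l 16697624) (l 16692648)))) (b (a (b (l 16702128) (l 16696448)) (l 16690160)) (c (l 16676432) (l 16683192)))) (c (a (a (c (l 16678192) (l 16681472)) (l 16669216)) (c (l 16629648) (l 16654568))) (a (a (l 16686632) (l 16676680)) (l 16639848)))) (b (a (c (a (b (l 16678848) (l 16664576)) (l 16628520)) (a (l 16660464) (l 16649064))) (c (a (l 16627176) (l 16636208))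 (a (l 16658528) (l 16646832)))) (a (c (b (l 16602528) (l 16599264)) (a (l 16635968) (l 16644136))) (c (a (l 16597264) (l 16605160)) (b (l 16631648) (l 16618200))))))), by decide +kernel⟩

def k36_pm_012_s : ∃ t, chk3 f_pm_012_s t 37 15 1 = true :=
  ⟨(b (b (a (b (a (l 16713560) (l 16710200)) (a (l 16709216) (l 16705696))) (b (l 16705216) (l 16700560))) (b (a (a (l 16704888) (l 16701248)) (a (l 16697536) (b (l 16716232) (l 16690832)))) (a (b (a (l 16722024) (l 16696080)) (a (b (l 16697384) (l 16691416)) (l 16684760))) (a (b (l 16688856) (l 16673752)) (l 16649552))))) (c (b (b (a (a (l 16668008) (l 16656640)) (l 16618016)) (a (a (l 16656176) (l 16644208)) (l 16604728))) (a (b (a (l 16623912) (l 16611328)) (b (l 16593584) (l 16577608))) (b (l 16591952) (l 16558704)))) (b (b (a (l 16648816) (l 16647192)) (a (l 16638240) (l 16635096))) (a (b (l 16607520) (l 16556464)) (b (l 16602816) (l 16571312)))))), by decide +kernel⟩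

def k37_pm_012_s : ∃ t, chk3 f_pm_012_s t 19 15 1 = true :=
  ⟨(b (a (b (a (b (l 16698600) (l 16693688)) (b (l 16712880) (a (l 16687416) (l 16670672)))) (a (b (b (a (l 16712168) (l 16684864)) (b (l 16659720) (l 16673248))) (c (l 16649104) (l 16657064))) (b (b (l 16647832) (l 16653400)) (a (l 16634728) (l 16622112))))) (b (a (b (a (l 16707688) (l 16681584)) (b (l 16657680) (l 16659432))) (b (a (l 16653288) (l 16663552)) (l 16619608))) (a (b (l 16615136) (l 16581432)) (c (l 16535576) (l 16575296))))) (b (b (a (a (c (l 16614400) (l 16644024)) (c (l 16609616) (l 16618392))) (a (l 16544984) (l 16537496))) (a (a (c (l 16600056) (l 16609552)) (c (l 16573344) (l 16582640))) (a (l 16486936) (l 16520608)))) (c (a (b (a (l 16565248) (l 16537584)) (a (l 16530936) (l 16502320))) (a (b (l 16508968) (l 16472880)) (b (l 16479344) (l 16442568)))) (a (b (a (l 16575840) (l 16547640)) (a (l 16542880) (l 16513368))) (a (l 16437344) (l 16427144)))))), by decide +kernel⟩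

def k38_pm_012_s : ∃ t, chk3 f_pm_012_s t 5 2 1 = true :=
  ⟨(b (a (a (a (l 3) (l 2)) (l 2)) (l 2)) (a (a (a (b (l 3) (b (l 3) (a (l 3) (a (b (l 3) (l 16770448)) (c (l 16776696) (l 16776784)))))) (a (b (b (l 3) (a (l 3) (b (l 3) (l 16773664)))) (b (c (a (l 16772528) (l 16774528)) (a (l 16771872) (l 16774632))) (a (b (l 16774024) (l 16768824)) (b (l 16768032) (l 16762792))))) (a (b (b (c (l 16774120) (l 16774208)) (c (l 16796320) (l 16775440))) (a (b (l 16770128) (l 16760936)) (b (l 16767176) (l 16784296)))) (b (b (l 16774152) (l 16769552)) (a (b (l 16764288) (b (l 16758016) (l 16753688))) (b (b (l 16763336) (l 16759752)) (b (l 16756320) (l 16752816)))))))) (b (b (a (l 16759648) (l 2)) (a (b (l 16756480) (l 16753640)) (l 16690160))) (b (b (a (l 16750264) (l 16727232)) (a (l 16746896) (l 16723528))) (b (a (l 16743736) (l 16720232)) (a (l 16740248) (l 16716712)))))) (b (a (b (l 2) (b (l 2) (l 16675800))) (l 2)) (b (a (b (l 16672432) (l 16647528)) (b (l 2) (l 16645072))) (a (b (l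 16643736) (l 16661168)) (b (l 16640776) (l 16636912))))))), by decide +kernel⟩

def k39_pm_012_s : ∃ t, chk3 f_pm_012_s t 10 6 1 = true :=
  ⟨(a (a (a (b (b (a (b (l 3) (l 16769632)) (b (l 16769392) (l 16774648))) (b (a (l 16773464) (l 16767192)) (a (l 16765128) (l 16758816)))) (b (b (a (l 16755792) (l 16749432)) (a (l 16724736) (l 16719408))) (b (a (b (l 16738400) (l 16735328)) (l 16733840)) (c (l 16726248) (l 16732528))))) (b (a (b (b (l 16775096) (l 16768456)) (b (l 16760960) (l 16752536))) (b (b (l 16768976) (l 16762296)) (b (l 16754752) (l 16746680)))) (b (b (a (l 16743816) (l 16739376)) (a (l 16736664) (l 16733856))) (b (l 16708568) (l 16702296))))) (b (a (b (a (b (l 16762880) (l 16756152)) (b (l 16756816) (l 16750416))) (a (b (l 16748872) (l 16741976)) (b (l 16744240) (l 16739248)))) (a (b (b (a (l 16752448) (l 16750312)) (a (l 16746912) (l 16745920))) (b (l 16741984) (l 16737072))) (b (a (b (l 16749760) (l 16745552)) (b (l 16748984) (l 16744800))) (a (b (l 16740992) (l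 16736040)) (b (l 16740240) (l 16735248)))))) (a (b (b (l 16714552) (l 16708944)) (b (l 16702920) (l 16696432))) (b (a (b (l 16731768) (l 16726040)) (a (b (l 16730656) (l 16724784)) (b (l 16729184) (l 16720848)))) (a (b (l 16719816) (l 16712488)) (a (b (l 16716176) (l 16706680)) (b (l 16712176) (l 16702880)))))))) (b (b (a (b (l 16736432) (l 16732272)) (b (l 16712888) (l 16708752))) (a (b (l 16727728) (l 16722784)) (b (l 16704280) (l 16699464)))) (b (a (b (l 16717384) (l 16711480)) (b (l 16694248) (l 16688616))) (a (b (l 16705008) (l 16696880)) (b (l 16682504) (l 16675872)))))), by decide +kernel⟩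

def k40_pm_012_s : ∃ t, chk3 f_pm_012_s t 11 6 1 = true :=
  ⟨(b (b (a (b (l 16657336) (l 16674216)) (b (l 16633096) (l 16629072))) (a (b (l 16669864) (l 16665240)) (a (l 16612704) (l 16611456)))) (b (a (b (l 16660320) (l 16655088)) (b (l 16594928) (l 16590208))) (a (a (l 16615360) (l 16635672)) (b (l 16606288) (l 16601216))))), by decide +kernel⟩

def k41_pm_012_s : ∃ t, chk3 f_pm_012_s t 10 14 1 = true :=
  ⟨(a (a (b (a (b (l 16701800) (l 16694784)) (b (l 16716544) (l 16709280))) (b (a (l 16687240) (b (l 16701856) (l 16676592))) (a (b (l 16700616) (a (l 16673632) (l 16683960))) (a (b (l 16691880) (l 16668800)) (l 16603320))))) (a (b (b (l 16710384) (a (l 16702800) (l 16697736))) (b (a (b (l 16694608) (l 16685608)) (b (l 16688192) (l 16667408))) (l 16554336))) (b (a (b (l 16701984) (b (l 16696336) (l 16645200))) (a (b (a (l 16698288) (l 16699800)) (b (l 16644104) (l 16665952))) (b (a (a (a (l 16698488) (b (c (l 16701200) (l 16698640)) (l 16686688))) (l 16691664)) (l 16690728))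 (c (l 16615768) (l 16618032))))) (a (b (l 16614048) (l 16563720)) (a (b (l 16590584) (b (l 16595696) (l 16568888))) (b (a (b (l 16606280) (b (l 16589000) (l 16577016))) (l 16608560)) (b (c (l 16577040) (l 16558928)) (a (c (l 16530248) (l 16533168)) (l 16545472))))))))) (b (b (a (a (l 16643168) (l 16654216)) (b (l 16668368) (l 16651728))) (a (a (l 16625216) (l 16614640)) (l 16578456))) (b (a (a (l 16559952) (l 16569280)) (b (l 16585800) (l 16560840))) (a (a (a (l 16533776) (l 16548200)) (l 16496648)) (c (l 16520512) (l 16519752)))))), by decide +kernel⟩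

def k42_pm_012_s : ∃ t, chk3 f_pm_012_s t 10 30 1 = true :=
  ⟨(a (a (b (a (a (l 16613632) (l 16598792)) (c (l 16592248) (l 16578488))) (a (c (l 16537896) (l 16545632)) (c (l 16506304) (l 16513112)))) (a (b (c (l 16535704) (l 16541680)) (b (l 16490696) (l 16434504))) (a (b (b (l 16563216) (l 16532672)) (b (l 16500408) (l 16465408))) (b (a (b (l 16540328) (l 16510072)) (a (a (a (l 16513488) (a (l 16488472) (b (l 16520736) (l 16490920)))) (l 16503800)) (l 16481440))) (a (b (a (l 16483752) (l 16474264)) (a (l 16448992) (l 16439736))) (a (c (a (a (l 16448632) (b (l 16439232) (l 16405384))) (l 16439712)) (a (a (l 16450856) (b (l 16462416) (l 16407096))) (l 16441488))) (b (l 16455912) (l 16421832)))))))) (b (a (c (b (l 16501712) (l 16471176)) (b (l 16502920) (l 16472072))) (c (l 16428600) (l 16416680))) (a (b (c (l 16439056) (l 16439528)) (c (l 16404360) (l 16404200))) (b (c (l 16410312) (l 16408008)) (a (l 16359128) (l 16343728)))))), by decide +kernel⟩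

def k43_pm_012_s : ∃ t, chk3 f_pm_012_s t 10 31 1 = true :=
  ⟨(a (a (b (a (c (l 16421664) (l 16449784)) (b (l 16495800) (l 16457016))) (a (b (l 16451912) (l 16414576)) (b (l 16418688) (c (l 16378552) (l 16383680))))) (a (b (b (a (l 16469480) (l 16450024)) (a (l 16430640) (l 16411288))) (b (c (l 16380744) (l 16384144)) (c (l 16343200) (l 16346208)))) (a (b (b (l 16427608) (l 16389168)) (b (c (l 16350600) (l 16352232)) (c (l 16313560) (l 16314696)))) (c (b (a (b (l 16405424) (l 16367864)) (a (a (a (l 16376232) (a (l 16372832) (b (l 16388400) (l 16351536)))) (l 16367968)) (l 16366320))) (a (a (l 16317088) (l 16288136)) (a (a (a (l 16302936) (a (l 16299904) (b (l 16315328) (l 16279784)))) (l 16295480)) (l 16293656)))) (b (a (b (l 16407232) (l 16368968)) (a (a (a (l 16377136) (b (l 16380464) (l 16342824))) (l 16368448)) (l 16366648))) (a (a (l 16317544) (l 16309112)) (a (a (a (l 16302600) (a (l 16299416) (b (l 16314976) (l 16278936)))) (l 16294744)) (l 16292728)))))))) (b (a (b (c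 (l 16346072) (l 16366048)) (c (l 16308200) (l 16327320))) (b (c (l 16314080) (l 16330840)) (c (l 16274464) (l 16290096)))) (a (c (b (l 16270944) (l 16236920)) (b (l 16289272) (l 16251928))) (a (c (l 16237856) (l 16239760)) (c (l 16207056) (l 16220104)))))), by decide +kernel⟩

def k44_pm_012_s : ∃ t, chk3 f_pm_012_s t 11 7 1 = true :=
  ⟨(b (b (b (a (a (b (l 16648184) (l 16633496)) (l 16621768)) (b (l 16576288) (l 16631544))) (a (a (l 16580056) (l 16582704)) (a (l 16565320) (l 16548752)))) (a (b (a (l 16510360) (l 16532328)) (a (c (l 16498176) (l 16495160)) (l 16453648))) (b (a (l 16513496) (l 16495696)) (a (l 16453952) (l 16434520))))) (b (a (b (a (c (l 16435312) (l 16431216)) (c (l 16412208) (l 16405440))) (a (c (a (l 16371384) (l 16358080)) (b (l 16378288) (l 16339496))) (b (l 16333384) (l 16293608)))) (b (a (l 16343968) (l 16364464)) (a (c (l 16315128) (l 16303168)) (c (l 16292832) (l 16277704))))) (a (b (a (b (c (l 16305152) (l 16297648)) (c (l 16263872) (l 16255000))) (c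 (b (l 16277272) (l 16234400)) (a (l 16251944) (l 16236328)))) (a (c (a (l 16189944) (l 16173392)) (a (l 16201016) (l 16182480))) (c (b (l 16191880) (l 16149704)) (b (l 16177792) (l 16134024))))) (b (a (c (l 16229176) (l 16213840)) (c (l 16204320) (l 16185360))) (a (c (l 16119824) (l 16121832)) (c (l 16092064) (l 16089880))))))), by decide +kernel⟩

def k45_pm_012_s : ∃ t, chk3 f_pm_012_s t 3 1 1 = true :=
  ⟨(b (a (b (l 2) (b (l 2) (a (b (l 2) (a (b (l 2) (l 16592584)) (l 2))) (l 2)))) (l 2)) (a (a (b (b (b (a (b (l 16588728) (l 16584760)) (l 16500832)) (a (b (l 16580664) (l 16576480)) (l 16471960))) (b (a (l 16570088) (l 16485032)) (a (l 16561560) (l 16519504)))) (b (b (a (b (l 16553856) (a (l 16532896) (l 16517800))) (b (l 16514432) (b (l 16505824) (l 16482656)))) (a (b (a (l 16478808) (l 16462744)) (a (l 16416216) (l 16398944))) (b (l 16398168) (l 6)))) (b (a (b (a (l 16344352) (l 16325480)) (c (a (l 16272016) (l 6)) (l 16200760))) (l 6)) (l 6)))) (a (b (b (b (l 2) (l 16491392))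 (b (l 16462896) (l 16456320))) (l 6)) (b (l 6) (l 6)))) (l 6))), by decide +kernel⟩

theorem s46_pm_012_s : ∃ t, chk3 f_pm_012_s t 10 15 1 = true := ex3_b k42_pm_012_s k43_pm_012_s

theorem s47_pm_012_s : ∃ t, chk3 f_pm_012_s t 10 7 1 = true := ex3_b k41_pm_012_s s46_pm_012_s

theorem s48_pm_012_s : ∃ t, chk3 f_pm_012_s t 5 7 1 = true := ex3_a s47_pm_012_s k44_pm_012_s

theorem s49_pm_012_s : ∃ t, chk3 f_pm_012_s t 5 6 1 = true := ex3_a k39_pm_012_s k40_pm_012_s

theorem s50_pm_012_s : ∃ t, chk3 f_pm_012_s t 5 3 1 = true := ex3_b s49_pm_012_s s48_pm_012_s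

theorem s51_pm_012_s : ∃ t, chk3 f_pm_012_s t 5 1 1 = true := ex3_b k38_pm_012_s s50_pm_012_s

theorem s52_pm_012_s : ∃ t, chk3 f_pm_012_s t 18 15 1 = true := ex3_a k35_pm_012_s k36_pm_012_s

theorem s53_pm_012_s : ∃ t, chk3 f_pm_012_s t 9 15 1 = true := ex3_a s52_pm_012_s k37_pm_012_s

theorem s54_pm_012_s : ∃ t, chk3 f_pm_012_s t 18 14 1 = true := ex3_b k32_pm_012_s k33_pm_012_s

theorem s55_pm_012_s : ∃ t, chk3 f_pm_012_s t 9 14 1 = true := ex3_a s54_pm_012_s k34_pm_012_s

theorem s56_pm_012_s : ∃ t, chk3 f_pm_012_s t 9 7 1 = true := ex3_b s55_pm_012_s s53_pm_012_s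

theorem s57_pm_012_s : ∃ t, chk3 f_pm_012_s t 17 31 1 = true := ex3_b k30_pm_012_s k31_pm_012_s

theorem s58_pm_012_s : ∃ t, chk3 f_pm_012_s t 34 61 1 = true := ex3_a k27_pm_012_s k28_pm_012_s

theorem s59_pm_012_s : ∃ t, chk3 f_pm_012_s t 34 30 1 = true := ex3_b k26_pm_012_s s58_pm_012_s

theorem s60_pm_012_s : ∃ t, chk3 f_pm_012_s t 17 30 1 = true := ex3_a s59_pm_012_s k29_pm_012_s

theorem s61_pm_012_s : ∃ t, chk3 f_pm_012_s t 17 15 1 = true := ex3_b s60_pm_012_s s57_pm_012_s

theorem s62_pm_012_s : ∃ t, chk3 f_pm_012_s t 33 126 1 = true := ex3_a k23_pm_012_s k24_pm_012_s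

theorem s63_pm_012_s : ∃ t, chk3 f_pm_012_s t 33 63 1 = true := ex3_b s62_pm_012_s k25_pm_012_s

theorem s64_pm_012_s : ∃ t, chk3 f_pm_012_s t 67 62 1 = true := ex3_b k21_pm_012_s k22_pm_012_s

theorem s65_pm_012_s : ∃ t, chk3 f_pm_012_s t 66 125 1 = true := ex3_a k19_pm_012_s k20_pm_012_s

theorem s66_pm_012_s : ∃ t, chk3 f_pm_012_s t 66 62 1 = true := ex3_b k18_pm_012_s s65_pm_012_s

theorem s67_pm_012_s : ∃ t, chk3 f_pm_012_s t 33 62 1 = true := ex3_a s66_pm_012_s s64_pm_012_s

theorem s68_pm_012_s : ∃ t, chk3 f_pm_012_s t 33 31 1 = true := ex3_b s67_pm_012_s s63_pm_012_s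

theorem s69_pm_012_s : ∃ t, chk3 f_pm_012_s t 130 254 1 = true := ex3_a k14_pm_012_s k15_pm_012_s

theorem s70_pm_012_s : ∃ t, chk3 f_pm_012_s t 65 254 1 = true := ex3_a s69_pm_012_s k16_pm_012_s

theorem s71_pm_012_s : ∃ t, chk3 f_pm_012_s t 65 127 1 = true := ex3_b s70_pm_012_s k17_pm_012_s

theorem s72_pm_012_s : ∃ t, chk3 f_pm_012_s t 131 252 1 = true := ex3_b k11_pm_012_s k12_pm_012_s

theorem s73_pm_012_s : ∃ t, chk3 f_pm_012_s t 131 126 1 = true := ex3_b s72_pm_012_s k13_pm_012_s

theorem s74_pm_012_s : ∃ t, chk3 f_pm_012_s t 261 253 1 = true := ex3_b k9_pm_012_s k10_pm_012_s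

theorem s75_pm_012_s : ∃ t, chk3 f_pm_012_s t 260 253 1 = true := ex3_b k7_pm_012_s k8_pm_012_s

theorem s76_pm_012_s : ∃ t, chk3 f_pm_012_s t 130 253 1 = true := ex3_a s75_pm_012_s s74_pm_012_s

theorem s77_pm_012_s : ∃ t, chk3 f_pm_012_s t 130 126 1 = true := ex3_b k6_pm_012_s s76_pm_012_s

theorem s78_pm_012_s : ∃ t, chk3 f_pm_012_s t 65 126 1 = true := ex3_a s77_pm_012_s s73_pm_012_s

theorem s79_pm_012_s : ∃ t, chk3 f_pm_012_s t 65 63 1 = true := ex3_b s78_pm_012_s s71_pm_012_s

theorem s80_pm_012_s : ∃ t, chk3 f_pm_012_s t 32 63 1 = true := ex3_a k5_pm_012_s s79_pm_012_s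

theorem s81_pm_012_s : ∃ t, chk3 f_pm_012_s t 32 31 1 = true := ex3_b k4_pm_012_s s80_pm_012_s

theorem s82_pm_012_s : ∃ t, chk3 f_pm_012_s t 16 31 1 = true := ex3_a s81_pm_012_s s68_pm_012_s

theorem s83_pm_012_s : ∃ t, chk3 f_pm_012_s t 16 15 1 = true := ex3_b k3_pm_012_s s82_pm_012_s

theorem s84_pm_012_s : ∃ t, chk3 f_pm_012_s t 8 15 1 = true := ex3_a s83_pm_012_s s61_pm_012_s

theorem s85_pm_012_s : ∃ t, chk3 f_pm_012_s t 8 7 1 = true := ex3_b k2_pm_012_s s84_pm_012_s

theorem s86_pm_012_s : ∃ t, chk3 f_pm_012_s t 4 7 1 = true := ex3_a s85_pm_012_s s56_pm_012_s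

theorem s87_pm_012_s : ∃ t, chk3 f_pm_012_s t 4 3 1 = true := ex3_b k1_pm_012_s s86_pm_012_s

theorem s88_pm_012_s : ∃ t, chk3 f_pm_012_s t 4 1 1 = true := ex3_b k0_pm_012_s s87_pm_012_s

theorem s89_pm_012_s : ∃ t, chk3 f_pm_012_s t 2 1 1 = true := ex3_a s88_pm_012_s s51_pm_012_s

theorem s90_pm_012_s : ∃ t, chk3 f_pm_012_s t 1 1 1 = true := ex3_a s89_pm_012_s k45_pm_012_s

theorem c_pm_012_s : CertNE 0 536870912 536870912 536870912 991146299 28908434 3 eng mog cd0q0 cd0q1 pd2 true true false .pnp 0 1 2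
    ndB0q0 ndB0q1 pcB2 cut_pm_012_s Ext.none :=
  certNE2 (fam := true) (s1 := true) (s2 := false) (a := 0) (b := 1) (c := 2) (cn := .pnp) (n1 := ndB0q0) (n2 := ndB0q1) (pc := pcB2) (cut := cut_pm_012_s) (xt := Ext.none) (P1 := 0) (W1 := 536870912) (P2 := 536870912) (W2 := 536870912) (P3 := 991146299) (W3 := 28908434) (N0 := 3) (En := eng) (mo := mog) (C1 := cd0q0) (C2 := cd0q1) (C3 := pd2)
    rfl (fun _ => rfl) s90_pm_012_s

noncomputable def cut_pm_012_t : Cut := Cut.of [[⟨3, 0, 0, 2845415833⟩], [⟨0, 0, 0, 16777216⟩, ⟨1, 1, 0, 16777216⟩, ⟨2, 1, 0, 16777216⟩]]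

noncomputable def f_pm_012_t : ℕ → ℕ → ℕ → ℕ → Bool := onCell 0 536870912 536870912 536870912 991146299 28908434
    (rowNE 3 eng mog cd0q0 cd0q1 pd2 0 true true false .pnp 0 1 2 (qsf 0 536870912 536870912 536870912 2) ndB0q0 ndB0q1 pcB2 cut_pm_012_t Ext.none)

def k0_pm_012_t : ∃ t, chk3 f_pm_012_t t 1 1 1 = true :=
  ⟨(l 6), by decide +kernel⟩

theorem c_pm_012_t : CertNE 0 536870912 536870912 536870912 991146299 28908434 3 eng mog cd0q0 cd0q1 pd2 true true false .pnp 0 1 2
    ndB0q0 ndB0q1 pcB2 cut_pm_012_t Ext.none :=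
  certNE0 (fam := true) (s1 := true) (s2 := false) (a := 0) (b := 1) (c := 2) (cn := .pnp) (n1 := ndB0q0) (n2 := ndB0q1) (pc := pcB2) (cut := cut_pm_012_t) (xt := Ext.none) (P1 := 0) (W1 := 536870912) (P2 := 536870912) (W2 := 536870912) (P3 := 991146299) (W3 := 28908434) (N0 := 3) (En := eng) (mo := mog) (C1 := cd0q0) (C2 := cd0q1) (C3 := pd2)
    rfl k0_pm_012_t

noncomputable def cut_pm_022_s : Cut := Cut.of [[⟨4, 0, 0, 1449551462⟩], [⟨0, 0, 0, 53687091⟩, ⟨1, 1, 0, 53687091⟩, ⟨2, 1, 0, 53687091⟩]]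

noncomputable def f_pm_022_s : ℕ → ℕ → ℕ → ℕ → Bool := onCell 1073741824 536870912 0 536870912 991146299 28908434
    (rowNE 3 eng mog cd0q0 cd0q2 pd2 2 true true false .pp 0 2 2 (qsf 0 536870912 0 536870912 2) ndB0q0 ndB0q2 pcB2 cut_pm_022_s Ext.none)

def k0_pm_022_s : ∃ t, chk3 f_pm_022_s t 4 2 1 = true :=
  ⟨(a (l 1) (l 6)), by decide +kernel⟩

def k1_pm_022_s : ∃ t, chk3 f_pm_022_s t 8 3 1 = true :=
  ⟨(b (l 1) (b (a (l 1) (a (b (l 1) (b (l 1) (l 14))) (a (b (l 1) (b (a (b (l 1) (c (l 16524024) (l 16469864))) (c (b (l 16515720) (l 16533904)) (b (l 16459808) (l 16481248)))) (b (c (c (l 16560328) (l 16536048)) (l 16477280)) (c (l 16547560) (l 16521960))))) (b (b (l 1) (b (a (l 1) (c (b (l 16494336) (l 16508952)) (b (l 16435472) (l 16451488)))) (c (l 16515200) (l 16458928)))) (b (c (b (l 16531752) (l 16549240)) (b (l 16478424) (l 16498912))) (c (b (l 16567632) (l 16586896)) (b (l 16520368) (l 16542768)))))))) (a (l 14) (a (l 14) (b (b (c (a (b (l 16568848) (l 16591576)) (b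 (l 16607184) (l 16607928))) (a (b (l 16525816) (l 16573184)) (b (l 16566272) (l 16591320)))) (c (a (b (l 16615688) (l 16640448)) (l 16600944)) (a (c (l 16582096) (l 16564760)) (l 16589552)))) (b (a (c (c (l 16662872) (l 16650312)) (a (l 16627768) (l 16633816))) (c (l 16638608) (l 16623032))) (a (b (a (l 16656104) (l 16643552)) (c (a (l 16670392) (l 16657952)) (l 16659496))) (c (b (l 16634704) (a (l 16645024) (l 16652632))) (a (l 16630032) (l 16637464)))))))))), by decide +kernel⟩

def k2_pm_022_s : ∃ t, chk3 f_pm_022_s t 9 6 1 = true :=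
  ⟨(a (b (l 1) (b (a (l 1) (a (c (l 16306648) (l 16239928)) (c (l 16356000) (l 16294912)))) (a (a (l 1) (c (b (l 16364656) (l 16447152)) (b (l 16299848) (l 16387344)))) (c (b (a (l 16390784) (l 16417536)) (a (l 16451200) (l 16476832))) (b (a (l 16331072) (l 16362968)) (a (l 16396168) (l 16426624))))))) (b (l 6) (a (b (c (b (l 16353056) (l 16404344)) (b (l 16298536) (l 16353696))) (c (a (l 16390096) (l 16438440)) (c (l 16349336) (l 16347192)))) (b (l 6) (c (a (l 16492568) (l 16537008)) (b (l 16458456) (l 16475400))))))), by decide +kernel⟩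

def k3_pm_022_s : ∃ t, chk3 f_pm_022_s t 9 14 1 = true :=
  ⟨(a (b (a (c (b (a (c (l 16482064) (l 16453360)) (b (l 16474432) (l 16507744))) (a (b (b (l 16510800) (l 16463200)) (l 16538240)) (b (l 16478256) (l 16562032)))) (c (b (a (l 16423776) (l 16450312)) (b (a (l 16477288) (l 16503336)) (l 16491488))) (b (a (l 16393320) (l 16422112)) (b (a (l 16448952) (l 16477128)) (l 16486456))))) (b (c (c (l 16475720) (l 16452440)) (c (l 16428408) (l 16403632))) (a (b (c (l 16522624) (l 16496960)) (l 16501736)) (c (b (l 16567448) (l 16590760)) (b (l 16525072) (l 16571384)))))) (a (c (b (a (l 16520336) (l 16564032)) (a (l 16555416) (l 16576680))) (b (a (l 16471896) (l 16519128)) (a (l 16533480) (l 16557728)))) (b (c (l 16536776) (l 16518368)) (a (l 16538992) (l 16564120))))) (b (b (a (c (l 16472344) (l 16433376)) (a (l 16516760) (l 16522704))) (a (c (b (l 16562080) (l 16539752)) (b (l 16505200) (l 16532424))) (c (a (l 16521224) (l 16510592)) (a (l 16570744) (l 16534888))))) (a (b (b (l 16530552)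 (l 16524432)) (a (l 16572344) (l 16537184))) (b (c (l 16508592) (l 16532448)) (a (l 16523648) (l 16511208)))))), by decide +kernel⟩

def k4_pm_022_s : ∃ t, chk3 f_pm_022_s t 9 15 1 = true :=
  ⟨(a (b (a (b (c (b (l 16572960) (l 16593368)) (a (l 16557512) (l 16579664))) (a (b (l 16590072) (l 16614416)) (a (l 16616528) (l 16616512)))) (b (c (l 16567440) (l 16573800)) (a (l 16571056) (l 16558784)))) (a (a (b (b (l 16630736) (l 16613256)) (b (a (l 16623544) (l 16609056)) (c (l 16590256) (l 16627568)))) (b (b (l 16599944) (l 16604008)) (c (b (l 16619872) (l 16604480)) (a (l 16615720) (l 16601176))))) (b (a (c (l 16591560) (l 16592184)) (b (l 16578376) (l 16563792))) (a (c (b (l 16590864) (l 16576744)) (l 16558488)) (c (b (l 16562080) (l 16548704)) (l 16550008)))))) (b (a (a (b (l 16551880) (l 16526192)) (b (l 16538816) (l 16514480))) (b (a (l 16505640) (l 16472904)) (a (l 16482200) (l 16492232)))) (a (b (a (c (l 16552088) (l 16570376)) (l 16466792)) (c (a (l 16526728) (l 16497320))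 (a (l 16541264) (l 16510520)))) (b (c (l 16455192) (l 16468616)) (a (c (l 16467256) (l 16478912)) (l 16388880)))))), by decide +kernel⟩

def k5_pm_022_s : ∃ t, chk3 f_pm_022_s t 5 2 1 = true :=
  ⟨(l 6), by decide +kernel⟩

def k6_pm_022_s : ∃ t, chk3 f_pm_022_s t 5 6 1 = true :=
  ⟨(a (a (a (b (l 6) (b (l 6) (c (l 16496136) (l 16492760)))) (l 6)) (l 6)) (l 6)), by decide +kernel⟩

def k7_pm_022_s : ∃ t, chk3 f_pm_022_s t 10 14 1 = true :=
  ⟨(a (b (b (a (a (l 16489104) (l 16498456)) (c (l 16488400) (l 16500240))) (a (a (c (l 16522000) (l 16521152)) (c (l 16492960) (l 16509048))) (a (c (l 16465296) (l 16477448)) (b (l 16451512) (a (l 16439608) (a (l 16429184) (b (l 6) (b (l 16418688) (a (c (l 16393584) (l 16421096)) (l 16413120)))))))))) (b (a (a (l 16512168) (l 16480232)) (a (l 16449272) (a (l 16426168) (a (l 16414424) (c (b (l 16387736) (l 16378872)) (l 16389488)))))) (a (a (l 16499520) (l 16467552)) (a (l 16435336) (a (l 16410792) (a (l 16397608) (c (l 16365392) (l 16391160))))))))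 (a (b (l 6) (c (l 16366368) (l 16367856))) (b (l 6) (b (l 6) (l 16307816))))), by decide +kernel⟩

def k8_pm_022_s : ∃ t, chk3 f_pm_022_s t 10 15 1 = true :=
  ⟨(a (a (a (b (b (l 16482592) (l 16459664)) (b (l 16434224) (l 16387824))) (b (b (l 16449944) (l 16405592)) (b (l 16379784) (c (l 16372240) (l 16378120))))) (a (b (b (l 16364240) (c (l 16389120) (l 16395744))) (b (c (l 16363208) (l 16368184)) (c (l 16316488) (l 16340984)))) (b (b (a (l 16390736) (a (l 16376168) (c (b (l 16349688) (l 16337296)) (l 16368016)))) (a (l 16365032) (a (a (l 16352496) (l 16325392)) (a (a (a (l 16341896) (c (l 16317072) (l 16319432))) (l 16336728)) (l 16334416))))) (a (b (l 16295080) (b (l 16295264) (l 16281488))) (a (b (a (l 16323576) (l 16295800)) (c (a (l 16294784) (l 16287528)) (l 16269984))) (a (a (a (b (l 16311688) (c (l 16282000) (l 16281776))) (a (b (l 16309344) (c (l 16279360) (l 16279000))) (c (b (l 16307088) (b (l 16284664) (l 16269744))) (b (l 16307912) (l 16276656))))) (b (l 16305712)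 (c (l 16275408) (l 16274808)))) (b (l 16303520) (c (l 16273432) (l 16272624))))))))) (b (b (a (c (l 16336200) (l 16336408)) (c (l 16290944) (l 16285416))) (a (c (l 16288488) (l 16308504)) (c (l 16266136) (l 16259888)))) (a (b (c (l 16259456) (l 16278264)) (c (a (l 16261712) (l 16241424)) (c (l 16227992) (l 16226576)))) (b (c (l 16281080) (l 16232144)) (c (b (l 16218896) (l 16205416)) (l 16183512)))))), by decide +kernel⟩

def k9_pm_022_s : ∃ t, chk3 f_pm_022_s t 11 7 1 = true :=
  ⟨(b (l 6) (b (a (a (b (c (l 16248720) (l 16237648)) (c (l 16225656) (l 16214288))) (l 6)) (l 6)) (a (a (c (b (l 16200328) (b (l 16181416) (l 16168840))) (b (l 16188568) (l 16142056))) (c (b (l 16163960) (l 16140424)) (b (l 16147448) (l 16123928)))) (a (b (l 6) (c (l 16108048) (l 16087072))) (l 6))))), by decide +kernel⟩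

def k10_pm_022_s : ∃ t, chk3 f_pm_022_s t 3 1 1 = true :=
  ⟨(b (l 6) (l 6)), by decide +kernel⟩

theorem s11_pm_022_s : ∃ t, chk3 f_pm_022_s t 10 7 1 = true := ex3_b k7_pm_022_s k8_pm_022_s

theorem s12_pm_022_s : ∃ t, chk3 f_pm_022_s t 5 7 1 = true := ex3_a s11_pm_022_s k9_pm_022_s

theorem s13_pm_022_s : ∃ t, chk3 f_pm_022_s t 5 3 1 = true := ex3_b k6_pm_022_s s12_pm_022_s

theorem s14_pm_022_s : ∃ t, chk3 f_pm_022_s t 5 1 1 = true := ex3_b k5_pm_022_s s13_pm_022_s

theorem s15_pm_022_s : ∃ t, chk3 f_pm_022_s t 9 7 1 = true := ex3_b k3_pm_022_s k4_pm_022_s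

theorem s16_pm_022_s : ∃ t, chk3 f_pm_022_s t 9 3 1 = true := ex3_b k2_pm_022_s s15_pm_022_s

theorem s17_pm_022_s : ∃ t, chk3 f_pm_022_s t 4 3 1 = true := ex3_a k1_pm_022_s s16_pm_022_s

theorem s18_pm_022_s : ∃ t, chk3 f_pm_022_s t 4 1 1 = true := ex3_b k0_pm_022_s s17_pm_022_s

theorem s19_pm_022_s : ∃ t, chk3 f_pm_022_s t 2 1 1 = true := ex3_a s18_pm_022_s s14_pm_022_s

theorem s20_pm_022_s : ∃ t, chk3 f_pm_022_s t 1 1 1 = true := ex3_a s19_pm_022_s k10_pm_022_s

theorem c_pm_022_s : CertNE 0 536870912 0 536870912 991146299 28908434 3 eng mog cd0q0 cd0q2 pd2 true true false .pp 0 2 2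
    ndB0q0 ndB0q2 pcB2 cut_pm_022_s Ext.none :=
  certNE2 (fam := true) (s1 := true) (s2 := false) (a := 0) (b := 2) (c := 2) (cn := .pp) (n1 := ndB0q0) (n2 := ndB0q2) (pc := pcB2) (cut := cut_pm_022_s) (xt := Ext.none) (P1 := 0) (W1 := 536870912) (P2 := 0) (W2 := 536870912) (P3 := 991146299) (W3 := 28908434) (N0 := 3) (En := eng) (mo := mog) (C1 := cd0q0) (C2 := cd0q2) (C3 := pd2)
    rfl (fun _ => rfl) s20_pm_022_s

noncomputable def cut_pm_022_t : Cut := Cut.of [[⟨3, 0, 0, 2845415833⟩], [⟨0, 0, 0, 53687091⟩, ⟨1, 1, 0, 53687091⟩, ⟨2, 1, 0, 53687091⟩]]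

noncomputable def f_pm_022_t : ℕ → ℕ → ℕ → ℕ → Bool := onCell 1073741824 536870912 0 536870912 991146299 28908434
    (rowNE 3 eng mog cd0q0 cd0q2 pd2 2 true true false .pp 0 2 2 (qsf 0 536870912 0 536870912 2) ndB0q0 ndB0q2 pcB2 cut_pm_022_t Ext.none)

def k0_pm_022_t : ∃ t, chk3 f_pm_022_t t 1 1 1 = true :=
  ⟨(a (l 6) (b (l 6) (l 6))), by decide +kernel⟩

theorem c_pm_022_t : CertNE 0 536870912 0 536870912 991146299 28908434 3 eng mog cd0q0 cd0q2 pd2 true true false .pp 0 2 2
    ndB0q0 ndB0q2 pcB2 cut_pm_022_t Ext.none :=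
  certNE2 (fam := true) (s1 := true) (s2 := false) (a := 0) (b := 2) (c := 2) (cn := .pp) (n1 := ndB0q0) (n2 := ndB0q2) (pc := pcB2) (cut := cut_pm_022_t) (xt := Ext.none) (P1 := 0) (W1 := 536870912) (P2 := 0) (W2 := 536870912) (P3 := 991146299) (W3 := 28908434) (N0 := 3) (En := eng) (mo := mog) (C1 := cd0q0) (C2 := cd0q2) (C3 := pd2)
    rfl (fun _ => rfl) k0_pm_022_t

noncomputable def cut_pm_023_s : Cut := Cut.of [[⟨4, 0, 0, 1449551462⟩]]

noncomputable def f_pm_023_s : ℕ → ℕ → ℕ → ℕ → Bool := onCell 1610612736 536870912 0 536870912 991146299 28908434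
    (rowNE 3 eng mog cd0q0 cd0q2 pd3 2 true true false .up 0 2 3 (qsf 0 536870912 0 536870912 3) ndB0q0 ndB0q2 pcB3 cut_pm_023_s Ext.none)

def k0_pm_023_s : ∃ t, chk3 f_pm_023_s t 1 1 1 = true :=
  ⟨(l 6), by decide +kernel⟩

theorem c_pm_023_s : CertNE 0 536870912 0 536870912 991146299 28908434 3 eng mog cd0q0 cd0q2 pd3 true true false .up 0 2 3
    ndB0q0 ndB0q2 pcB3 cut_pm_023_s Ext.none :=
  certNE2 (fam := true) (s1 := true) (s2 := false) (a := 0) (b := 2) (c := 3) (cn := .up) (n1 := ndB0q0) (n2 := ndB0q2) (pc := pcB3) (cut := cut_pm_023_s) (xt := Ext.none) (P1 := 0) (W1 := 536870912) (P2 := 0) (W2 := 536870912) (P3 := 991146299) (W3 := 28908434) (N0 := 3) (En := eng) (mo := mog) (C1 := cd0q0) (C2 := cd0q2) (C3 := pd3)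
    rfl (fun _ => rfl) k0_pm_023_s

noncomputable def cut_pm_023_t : Cut := Cut.of [[⟨3, 0, 0, 2845415833⟩]]

noncomputable def f_pm_023_t : ℕ → ℕ → ℕ → ℕ → Bool := onCell 0 536870912 0 536870912 991146299 28908434
    (rowNE 3 eng mog cd0q0 cd0q2 pd3 0 true true false .up 0 2 3 (qsf 0 536870912 0 536870912 3) ndB0q0 ndB0q2 pcB3 cut_pm_023_t Ext.none)

def k0_pm_023_t : ∃ t, chk3 f_pm_023_t t 1 1 1 = true :=
  ⟨(a (l 1) (b (a (b (a (l 1) (b (a (l 1) (b (a (l 6) (l 16240968)) (l 6))) (l 6))) (l 6)) (b (a (b (a (b (c (l 16298544) (l 16253088)) (l 6)) (c (a (l 16295272) (l 16326168)) (b (l 16316160) (l 16218392)))) (l 6)) (b (a (c (b (l 16423280) (l 16332632)) (b (l 16391592) (l 16292720))) (a (b (l 16466632) (l 16372176)) (b (l 16507872) (l 16414136)))) (a (b (a (b (l 16220320) (l 6)) (c (l 16233584) (l 16208192))) (l 6)) (b (a (l 16272656) (l 16315104)) (a (b (c (l 16227344) (l 16180488)) (l 6)) (b (l 16220912) (c (l 16230496) (l 16186696)))))))) (a (l 6) (l 6)))) (l 6))), by decide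 +kernel⟩

theorem c_pm_023_t : CertNE 0 536870912 0 536870912 991146299 28908434 3 eng mog cd0q0 cd0q2 pd3 true true false .up 0 2 3
    ndB0q0 ndB0q2 pcB3 cut_pm_023_t Ext.none :=
  certNE0 (fam := true) (s1 := true) (s2 := false) (a := 0) (b := 2) (c := 3) (cn := .up) (n1 := ndB0q0) (n2 := ndB0q2) (pc := pcB3) (cut := cut_pm_023_t) (xt := Ext.none) (P1 := 0) (W1 := 536870912) (P2 := 0) (W2 := 536870912) (P3 := 991146299) (W3 := 28908434) (N0 := 3) (En := eng) (mo := mog) (C1 := cd0q0) (C2 := cd0q2) (C3 := pd3)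
    rfl k0_pm_023_t

noncomputable def cut_pm_101_s : Cut := Cut.of [[⟨4, 0, 0, 1449551462⟩], [⟨0, 1, 0, 53687091⟩, ⟨1, 0, 0, 53687091⟩, ⟨2, 1, 0, 53687091⟩]]

noncomputable def f_pm_101_s : ℕ → ℕ → ℕ → ℕ → Bool := onCell 536870912 536870912 536870912 536870912 991146299 28908434
    (rowNE 3 eng mog cd0q1 cd0q0 pd1 1 true true false .npn 1 0 1 (qsf 536870912 536870912 0 536870912 1) ndB0q1 ndB0q0 pcB1 cut_pm_101_s Ext.none)

def k0_pm_101_s : ∃ t, chk3 f_pm_101_s t 1 1 1 = true :=
  ⟨(b (l 3) (a (l 3) (b (l 3) (a (l 3) (b (l 3) (a (l 3) (b (l 3) (a (l 3) (l 14))))))))), by decide +kernel⟩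

theorem c_pm_101_s : CertNE 536870912 536870912 0 536870912 991146299 28908434 3 eng mog cd0q1 cd0q0 pd1 true true false .npn 1 0 1
    ndB0q1 ndB0q0 pcB1 cut_pm_101_s Ext.none :=
  certNE1 (fam := true) (s1 := true) (s2 := false) (a := 1) (b := 0) (c := 1) (cn := .npn) (n1 := ndB0q1) (n2 := ndB0q0) (pc := pcB1) (cut := cut_pm_101_s) (xt := Ext.none) (P1 := 536870912) (W1 := 536870912) (P2 := 0) (W2 := 536870912) (P3 := 991146299) (W3 := 28908434) (N0 := 3) (En := eng) (mo := mog) (C1 := cd0q1) (C2 := cd0q0) (C3 := pd1)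
    rfl (fun _ => rfl) k0_pm_101_s

noncomputable def cut_pm_101_t : Cut := Cut.of [[⟨3, 0, 0, 2845415833⟩], [⟨0, 1, 0, 53687091⟩, ⟨1, 0, 0, 53687091⟩, ⟨2, 1, 0, 53687091⟩]]

noncomputable def f_pm_101_t : ℕ → ℕ → ℕ → ℕ → Bool := onCell 536870912 536870912 0 536870912 991146299 28908434
    (rowNE 3 eng mog cd0q1 cd0q0 pd1 0 true true false .npn 1 0 1 (qsf 536870912 536870912 0 536870912 1) ndB0q1 ndB0q0 pcB1 cut_pm_101_t Ext.none)

def k0_pm_101_t : ∃ t, chk3 f_pm_101_t t 1 1 1 = true :=
  ⟨(l 6), by decide +kernel⟩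

theorem c_pm_101_t : CertNE 536870912 536870912 0 536870912 991146299 28908434 3 eng mog cd0q1 cd0q0 pd1 true true false .npn 1 0 1
    ndB0q1 ndB0q0 pcB1 cut_pm_101_t Ext.none :=
  certNE0 (fam := true) (s1 := true) (s2 := false) (a := 1) (b := 0) (c := 1) (cn := .npn) (n1 := ndB0q1) (n2 := ndB0q0) (pc := pcB1) (cut := cut_pm_101_t) (xt := Ext.none) (P1 := 536870912) (W1 := 536870912) (P2 := 0) (W2 := 536870912) (P3 := 991146299) (W3 := 28908434) (N0 := 3) (En := eng) (mo := mog) (C1 := cd0q1) (C2 := cd0q0) (C3 := pd1)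
    rfl k0_pm_101_t

noncomputable def cut_pm_102_s : Cut := Cut.of [[⟨4, 0, 0, 1449551462⟩], [⟨0, 1, 0, 16777216⟩, ⟨1, 0, 0, 16777216⟩, ⟨2, 1, 0, 16777216⟩]]

noncomputable def f_pm_102_s : ℕ → ℕ → ℕ → ℕ → Bool := onCell 536870912 536870912 1073741824 536870912 991146299 28908434
    (rowNE 3 eng mog cd0q1 cd0q0 pd2 1 true true false .npp 1 0 2 (qsf 536870912 536870912 0 536870912 2) ndB0q1 ndB0q0 pcB2 cut_pm_102_s Ext.none)

def k0_pm_102_s : ∃ t, chk3 f_pm_102_s t 2 1 1 = true :=
  ⟨(b (b (b (l 3) (l 3)) (a (b (b (b (l 3) (l 2)) (l 2)) (l 2)) (b (b (b (a (l 3) (a (l 3) (b (l 3) (b (a (l 3) (l 16770448)) (c (l 16776696) (l 16776784)))))) (b (a (a (l 3) (b (l 3) (a (l 3) (l 16773664)))) (a (c (b (l 16772528) (l 16774528)) (b (l 16771872) (l 16774632))) (b (a (l 16774024) (l 16768824)) (a (l 16768032) (l 16762792))))) (b (a (a (c (l 16774120) (l 16774208)) (c (l 16796320) (l 16775440))) (a (b (l 16770128) (l 16767176)) (a (l 16762064) (l 16756944)))) (a (a (l 16774152) (l 16769552))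 (b (a (l 16764288) (a (l 16758016) (l 16753688))) (a (a (l 16763336) (l 16759752)) (a (l 16756320) (l 16752816)))))))) (a (a (b (l 16759648) (l 2)) (b (a (l 16756480) (l 16753640)) (l 16690160))) (a (a (b (l 16750264) (l 16727232)) (b (l 16746896) (l 16723528))) (a (b (l 16743736) (l 16720232)) (b (l 16740248) (l 16716712)))))) (a (b (a (l 2) (a (l 2) (l 16675800))) (l 2)) (a (b (a (l 16672432) (l 16647528)) (a (l 2) (l 16645072))) (b (a (l 16643736) (l 16661168)) (a (l 16640776) (l 16636912)))))))) (a (l 2) (b (a (l 2) (b (a (l 2) (b (a (l 2) (l 16592584)) (l 2))) (l 2))) (l 2)))), by decide +kernel⟩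

def k1_pm_102_s : ∃ t, chk3 f_pm_102_s t 6 4 1 = true :=
  ⟨(b (l 3) (b (a (l 3) (b (l 3) (a (l 3) (b (l 3) (a (l 3) (b (l 3) (a (l 3) (c (l 16744624) (l 16742384))))))))) (a (a (l 3) (b (l 3) (b (a (l 3) (b (l 3) (l 178408817991))) (b (a (l 3) (l 16744296)) (a (l 16771592) (l 16771472)))))) (b (a (b (l 3) (a (l 3) (b (a (l 3) (l 16738328)) (c (l 16733304) (l 16733656))))) (b (a (b (a (l 3) (l 214379166551)) (a (l 200420531911) (c (l 16776640) (l 16776704)))) (b (a (c (l 16776680) (l 16755816)) (l 16754952)) (c (l 16744824) (l 16747752)))) (a (b (c (l 16751568) (l 16742368)) (c (l 16765152) (l 16767896))) (c (b (l 16737208) (l 16750712)) (c (l 16737568) (l 16740456)))))) (a (b (a (b (a (l 3) (l 16772352)) (c (l 16774760) (l 16775408))) (b (c (l 16770624) (l 16772040)) (l 16743800))) (a (b (l 16747632) (l 16762184)) (b (l 16737296) (l 16730824)))) (b (a (c (b (l 16757824) (l 16750656)) (b (l 16762008) (l 16756032))) (b (a (l 16750448) (l 16723032)) (a (l 16723088) (l 16717624))))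 (a (b (c (l 16743872) (l 16750224)) (c (l 16717088) (l 16744720))) (b (a (l 16717680) (l 16735240)) (l 16733752))))))))), by decide +kernel⟩

def k2_pm_102_s : ∃ t, chk3 f_pm_102_s t 14 8 1 = true :=
  ⟨(b (l 3) (b (l 3) (a (l 3) (a (l 3) (a (b (l 3) (b (a (l 3) (b (l 3) (l 370608677991))) (a (b (l 3) (a (l 219211041623) (l 125258656759))) (b (c (l 198273121639) (l 131164218743)) (l 16762384))))) (b (b (l 3) (a (l 3) (b (l 406042150791) (a (l 333027730823) (a (l 139754171175) (l 16775672)))))) (b (a (b (a (l 409263383895) (b (l 16750728) (l 16776840))) (c (l 16774888) (l 108078782935))) (c (b (l 16773240) (l 16768784)) (b (l 16774560) (l 16771504)))) (c (a (l 16747296) (l 16741080)) (a (l 16750152) (l 16766888)))))))))), by decide +kernel⟩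

def k3_pm_102_s : ∃ t, chk3 f_pm_102_s t 30 16 1 = true :=
  ⟨(b (l 3) (a (l 3) (b (l 3) (a (l 3) (b (l 3) (a (l 3) (b (a (l 3) (b (l 3) (a (l 3) (c (l 254644582263) (b (l 313700385511) (l 16776936)))))) (a (b (l 446844370375) (a (l 391546664215) (c (l 16776928) (l 233169743447)))) (a (b (b (l 224042933719) (l 96267659719)) (l 16770496)) (c (l 16764256) (l 16770424))))))))))), by decide +kernel⟩

def k4_pm_102_s : ∃ t, chk3 f_pm_102_s t 62 32 1 = true :=
  ⟨(b (l 3) (a (l 3) (b (l 3) (a (l 3) (a (l 3) (b (l 3) (b (l 3) (a (l 3) (b (a (l 3) (c (l 279877516663) (c (l 325511544535) (l 327659025527)))) (b (a (l 471540432711) (a (a (l 16777472) (l 16777056)) (l 16776760))) (a (a (l 439328177575) (a (l 16777136) (l 16777024))) (l 16771248)))))))))))), by decide +kernel⟩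

def k5_pm_102_s : ∃ t, chk3 f_pm_102_s t 63 64 1 = true :=
  ⟨(a (b (l 3) (a (l 3) (b (l 3) (a (l 3) (a (l 3) (b (l 3) (a (l 3) (b (l 3) (b (l 3) (b (c (l 396378505063) (l 404431568727)) (a (l 3) (a (b (l 16777104) (l 165524013463)) (c (l 16777072) (l 16776992)))))))))))))) (b (l 14) (a (b (l 14) (a (b (l 14) (b (l 14) (a (b (l 14) (b (l 14) (a (c (l 16773832) (l 16774752)) (l 14)))) (l 14)))) (l 14))) (l 14)))), by decide +kernel⟩

def k6_pm_102_s : ∃ t, chk3 f_pm_102_s t 252 130 1 = true :=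
  ⟨(b (l 3) (b (l 3) (b (l 3) (a (l 3) (a (l 3) (a (l 3) (a (b (l 3) (a (l 303499837831) (b (l 16777184) (l 16777064)))) (b (a (l 359871283511) (b (l 16777184) (l 16777096))) (c (l 16776904) (l 16776720)))))))))), by decide +kernel⟩

def k7_pm_102_s : ∃ t, chk3 f_pm_102_s t 506 130 1 = true :=
  ⟨(a (b (l 3) (a (b (l 3) (b (b (c (l 345912639303) (c (l 354502573879) (l 358797541143))) (a (a (l 438254435767) (b (l 16777184) (l 16777112))) (c (l 16776944) (l 90362082487)))) (a (b (c (l 16776928) (l 16775448)) (l 16773664)) (b (l 16773696) (l 16773128))))) (b (b (l 3) (b (c (l 371145572183) (l 378661764919)) (a (c (l 278266904935) (a (l 3) (l 204178719303))) (a (b (l 131164275303) (l 16776960)) (l 16775520))))) (b (b (a (a (b (l 16777464) (l 16776928)) (l 16774176)) (l 16775064)) (c (l 16776320) (l 16770568))) (c (l 16773032) (l 16772128)))))) (b (a (l 3) (b (l 3) (b (l 3) (b (l 443623143959) (a (l 384567345031) (a (b (l 295983644935) (l 101099502183)) (c (l 16777000) (l 29158799847))))))))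 (b (b (a (b (c (l 398525988679) (l 407115923255)) (a (c (l 327122157783) (l 315847868759)) (a (b (l 212231782807) (l 16777024)) (c (l 16776960) (l 16776816))))) (b (b (a (a (l 251423359319) (l 16776408)) (l 16774024)) (c (l 16776752) (l 78550921255))) (c (l 16773776) (l 16773328)))) (a (a (b (b (a (l 165524013607) (l 16777008)) (l 16775544)) (l 16775096)) (c (l 16773752) (l 16773280))) (c (l 16773080) (c (l 16769824) (l 16772016))))) (c (b (c (l 16772888) (l 16772344)) (c (l 16769520) (l 16768728))) (c (b (l 16771784) (l 16770528)) (b (a (l 16769336) (l 16767832)) (l 16769024))))))), by decide +kernel⟩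

def k8_pm_102_s : ∃ t, chk3 f_pm_102_s t 507 260 1 = true :=
  ⟨(b (a (a (l 3) (b (l 3) (a (l 3) (b (l 3) (b (a (l 3) (a (l 222432330087) (l 258402679847))) (a (a (l 208473686359) (l 16777120)) (l 16774312))))))) (b (b (a (l 3) (a (a (b (l 3) (b (l 437180694231) (l 142438564231))) (b (c (l 235317231863) (l 208473686407)) (c (l 16777048) (l 16776968)))) (c (l 80161535447) (c (l 16775344) (l 78550921687))))) (a (b (c (l 370608701287) (c (l 380272377687) (l 384030474055))) (a (l 3) (a (c (l 16777168) (l 165524013495)) (l 83382761751)))) (c (c (l 16776632) (l 16775152)) (c (l 74792824135) (a (l 16773896) (l 16770464)))))) (a (b (a (b (c (l 255181455671) (a (l 3) (l 141364822535))) (a (c (l 16777160) (l 127406178839)) (l 16775648))) (c (l 16776776) (l 16775400))) (c (l 16775200) (c (l 16773616) (l 16773424)))) (b (c (l 16773416) (c (l 16772960) (l 16772648))) (c (l 16772920) (l 16772688)))))) (a (b (a (b (l 476372270887) (a (l 444160016247) (a (b (l 443086274247) (a (l 16777160) (l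 16777080))) (c (l 16777032) (b (l 16777096) (l 16776800)))))) (b (b (a (a (l 459192401527) (a (l 16777424) (l 16777112))) (l 16775456)) (a (a (a (l 16777336) (l 16777104)) (l 16776904)) (l 16773832))) (c (l 16773856) (l 16774112)))) (a (b (b (a (a (l 407652794055) (a (l 16777152) (l 16777072))) (l 16774088)) (a (c (l 16777016) (l 16776904)) (l 16773776))) (c (l 16773816) (l 16773392))) (c (c (l 16775936) (l 16772928)) (c (l 16772536) (l 16772120))))) (a (c (b (c (l 16773328) (l 16772960)) (c (l 16769872) (l 16771864))) (b (b (l 16773408) (l 16772000)) (c (l 16771216) (l 16770544)))) (c (b (c (l 16772488) (l 16771872)) (c (l 16769048) (l 16770792))) (b (c (l 16771232) (l 16770568)) (c (l 16769888) (l 16768960))))))), by decide +kernel⟩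

def k9_pm_102_s : ∃ t, chk3 f_pm_102_s t 507 261 1 = true :=
  ⟨(b (a (a (c (b (l 16773920) (l 16772184)) (b (c (l 16772488) (l 16772072)) (c (l 16768560) (l 16767864)))) (c (b (l 16772840) (l 16771280)) (b (c (l 16771200) (l 16770520)) (c (l 16772528) (l 16766328))))) (a (c (b (l 16771256) (l 16770368)) (b (c (l 16767280) (l 16766336)) (c (l 16771240) (l 16770032)))) (a (c (b (l 16767936) (b (l 16767248) (l 16769488))) (b (l 16768352) (b (l 16767272) (a (l 16766792) (l 16769224))))) (b (b (b (l 16769312) (l 16767720)) (a (l 16768088) (c (l 16767112) (l 16767096)))) (b (c (l 16769488) (a (l 16766832) (l 16769264))) (l 16767704)))))) (a (c (b (c (l 16768744) (l 16770336)) (a (l 16767832) (a (l 16769768) (a (l 16769432) (l 16769272))))) (b (c (l 16769280) (c (l 16765840) (l 16765288))) (a (l 16768064) (a (a (l 16769832) (l 16766840)) (b (l 16766648) (l 16766184)))))) (c (a (b (c (a (l 16767720) (l 16770024)) (a (l 16769016) (l 16768648))) (c (l 16769520) (l 16768104))) (c (l 16768984)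 (l 16767640))) (a (b (a (a (l 16767160) (b (l 16769784) (l 16766512))) (b (a (l 16769408) (l 16769176)) (l 16768872))) (c (l 16766648) (l 16766456))) (b (l 16765920) (l 16767768)))))), by decide +kernel⟩

def k10_pm_102_s : ∃ t, chk3 f_pm_102_s t 504 131 1 = true :=
  ⟨(b (b (l 3) (b (c (l 462413626743) (l 473687915831)) (a (l 3) (b (a (l 3) (a (l 320679706999) (b (l 280951257703) (l 16776936)))) (a (l 369534959431) (a (a (l 258939550087) (l 16776912)) (l 16771304))))))) (b (b (b (a (l 3) (a (a (c (l 16777320) (l 257328939543)) (c (l 16777016) (l 16776888))) (l 16773640))) (a (c (l 382956732135) (l 391009795783)) (c (l 79624662183) (c (l 16773472) (l 16773224))))) (a (a (c (l 338933317399) (c (l 348596993783) (l 351818219223))) (b (a (c (l 16777144) (l 204178719351)) (l 88751469879)) (c (l 16776776) (l 16776488)))) (c (l 16773272) (c (l 16770008) (l 16769560))))) (b (a (b (a (a (a (l 261087035863) (l 16776448)) (l 16776832)) (l 16773512)) (c (l 16776384) (l 16770576))) (c (l 16769912)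 (l 16771160))) (c (c (l 16770248) (l 16769568)) (a (l 16772272) (l 16767336)))))), by decide +kernel⟩

def k11_pm_102_s : ∃ t, chk3 f_pm_102_s t 505 131 1 = true :=
  ⟨(b (b (b (a (l 3) (b (a (a (l 3) (a (l 264845132295) (b (l 16777176) (l 16777040)))) (c (l 16776680) (l 16773736))) (c (a (a (l 149417886391) (l 16776856)) (l 16776248)) (a (a (a (l 232632877575) (l 16777040)) (l 16776648)) (l 16770424))))) (b (a (a (l 3) (a (l 3) (b (l 212231783015) (a (l 16777144) (l 16776976))))) (c (l 16773608) (c (l 16770544) (l 16770240)))) (a (a (l 468856078135) (a (b (l 182703881607) (l 100562630695)) (l 16774064))) (c (l 16770568) (l 16772336))))) (b (a (a (b (a (l 439865048471) (c (l 16777080) (a (l 16777112) (l 16776952)))) (a (a (a (l 168208368311) (l 265918872167)) (l 16775664)) (l 16771376))) (c (l 16776376) (l 16773240))) (c (l 16772576) (c (l 16769024) (l 16768384)))) (c (a (l 16773328) (l 16771792)) (a (c (l 16770120) (l 16769712)) (c (l 16767864) (l 16766960)))))) (b (b (c (a (l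 16769928) (l 16768424)) (a (c (l 16768960) (l 16768288)) (l 16767464))) (c (a (l 16769192) (l 16767712)) (a (l 16768680) (l 16764944)))) (a (c (b (l 16768488) (l 16767824)) (c (l 16766232) (l 16764904))) (c (a (b (l 16762160) (l 16761504)) (b (l 16766608) (l 16767352))) (a (c (l 16764616) (l 16762920)) (b (c (l 16769240) (l 16767424)) (c (l 16763200) (l 16763848)))))))), by decide +kernel⟩

def k12_pm_102_s : ∃ t, chk3 f_pm_102_s t 253 262 1 = true :=
  ⟨(a (b (c (a (c (a (l 16775496) (l 16769544)) (b (l 16769688) (l 16768728))) (b (c (l 16768816) (l 16767768)) (a (l 16767912) (c (l 16767728) (l 16766304))))) (a (c (b (l 16771720) (l 16767880)) (b (l 16771112) (l 16767008))) (b (c (l 16766688) (l 16765568)) (a (l 16765480) (c (l 16767464) (l 16765960)))))) (a (c (c (l 16771192) (l 16769664)) (c (c (l 16766448) (l 16765824)) (a (l 16765568) (l 16764168)))) (c (b (a (l 16767152) (c (l 16769752) (l 16768832))) (a (c (l 16767192) (l 16768192)) (l 16765616))) (a (b (l 16764208) (c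 (a (l 16769336) (l 16768936)) (a (l 16767624) (l 16767176)))) (b (a (b (l 16768760) (l 16763008)) (a (l 16765568) (l 16767984))) (l 16767496)))))) (b (a (a (b (b (a (l 16767440) (l 16766888)) (a (l 16766920) (c (l 16766600) (l 16766112)))) (a (c (l 16769088) (b (l 16766096) (l 16768304))) (c (l 16766096) (l 16768152)))) (a (b (b (c (l 16766584) (l 16766144)) (l 16765992)) (l 16765416)) (c (l 16765600) (l 16762560)))) (c (b (l 16764944) (l 16764192)) (c (l 16767696) (l 16766240)))) (a (c (b (l 16765104) (l 16764360)) (c (l 16767640) (l 16766024))) (c (l 16763064) (l 16765496))))), by decide +kernel⟩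

def k13_pm_102_s : ∃ t, chk3 f_pm_102_s t 253 263 1 = true :=
  ⟨(a (b (a (c (b (a (l 16767272) (c (l 16767264) (l 16768224))) (a (c (l 16772592) (l 16765664)) (l 16768496))) (a (b (l 16764288) (c (l 16766544) (l 16764752))) (a (b (l 16763320) (l 16765024)) (b (a (l 16765488) (l 16765296)) (l 16767224))))) (a (b (c (l 16765768) (l 16764896)) (l 16763256)) (b (l 16763224) (l 16762504)))) (b (a (a (c (l 16767272) (c (l 16763192) (l 16766520))) (l 16763304)) (c (l 16758608) (l 16765696))) (c (l 16763976) (l 16760432)))) (a (c (b (l 16763256) (l 16756568)) (b (l 16765400) (l 16763984))) (c (b (l 16761576) (l 16765352)) (b (l 16764040) (l 16762608))))), by decide +kernel⟩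

def k14_pm_102_s : ∃ t, chk3 f_pm_102_s t 254 260 1 = true :=
  ⟨(b (a (a (a (c (b (c (l 16774672) (l 16773992)) (c (l 16772488) (l 16771872))) (b (c (b (l 16773000) (l 16772296)) (b (l 16772696) (l 16771848))) (c (l 16771248) (c (l 16770760) (l 16770432))))) (b (a (b (l 14) (b (l 14) (l 16771736))) (l 14)) (c (c (l 16771616) (l 16770760)) (c (l 16769872) (c (l 16771808) (l 16768728)))))) (a (a (a (a (b (l 14) (c (l 16770632) (l 16768568))) (l 14)) (l 14)) (l 14)) (l 14))) (l 14)) (b (a (b (a (c (a (l 16771456) (c (l 16772248) (a (l 16772840) (l 16769632)))) (a (l 16769792) (a (l 16771304) (a (l 16770744) (a (l 16767816) (l 16768984)))))) (a (a (a (c (l 16769912) (l 16768856)) (l 16768520)) (a (l 16768336) (l 14))) (l 14))) (a (c (a (l 16770976) (a (l 16770216) (l 16770488))) (a (l 16769056) (c (a (l 16771120) (l 16770656)) (a (l 16769936) (l 16768096))))) (c (l 16768760) (l 16769144)))) (l 14)) (a (a (b (a (c (l 16770512) (l 16768328)) (a (c (l 16769824) (a (a (l 16767488) (l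 16767360)) (l 16769856))) (l 16767528))) (c (a (a (l 16767672) (l 16769816)) (l 16766576)) (a (a (l 16770600) (a (l 16767408) (l 16767176))) (l 16769336)))) (c (c (l 16766072) (l 16770232)) (l 16765928))) (a (c (l 16766488) (l 16767216)) (l 14))))), by decide +kernel⟩

def k15_pm_102_s : ∃ t, chk3 f_pm_102_s t 254 261 1 = true :=
  ⟨(a (a (b (c (b (a (a (b (l 16769816) (l 16769480)) (l 16769264)) (l 16765984)) (l 16768232)) (b (a (a (b (a (l 16770048) (a (l 16767168) (l 16769688))) (l 16767472)) (c (l 16769952) (l 16768616))) (l 16768744)) (l 16765680))) (c (b (l 16764824) (l 16764048)) (c (l 16767800) (l 16766496)))) (b (c (b (l 16764736) (l 16763944)) (c (l 16765312) (l 16766792))) (c (c (l 16768536) (l 16767464)) (l 16762856)))) (b (c (a (c (l 16763112) (l 16767440)) (b (l 14) (l 16765800))) (a (c (l 16766504) (l 16765536)) (l 16764664))) (a (c (l 16763688) (l 16764448)) (c (a (l 16765024) (b (l 16764552) (l 16763880))) (a (l 16763416) (l 16762720)))))), by decide +kernel⟩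

def k16_pm_102_s : ∃ t, chk3 f_pm_102_s t 254 131 1 = true :=
  ⟨(a (b (b (c (a (l 16765520) (l 16761200)) (a (l 16763008) (l 16764272))) (c (c (l 16761080) (l 16759952)) (a (l 16764136) (l 16762760)))) (c (b (c (l 16759560) (l 16763696)) (l 16757520)) (b (a (l 16762664) (l 16761264)) (l 16760496)))) (a (b (b (c (l 16764736) (l 16762888)) (c (l 16763152) (l 16761328))) (c (b (a (l 16762080) (l 16761392)) (l 16757992)) (b (l 16757216) (l 16758568)))) (b (c (b (a (l 16763432) (l 16763104)) (a (l 16762224) (l 16762200))) (b (a (l 16761808) (l 16761368)) (a (l 16760448) (l 16760056)))) (c (l 16757720) (l 16755816))))), by decide +kernel⟩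

def k17_pm_102_s : ∃ t, chk3 f_pm_102_s t 255 65 1 = true :=
  ⟨(a (a (b (a (b (l 14) (b (l 14) (b (l 14) (l 16760248)))) (l 14)) (c (b (c (l 16763416) (l 16762152)) (l 16756056)) (b (a (l 16755096) (l 16754768)) (l 16752608)))) (b (l 14) (c (b (l 16759088) (l 16751104)) (b (c (l 16760400) (l 16758584)) (l 16746768))))) (b (l 14) (b (a (c (l 16758000) (l 16753560)) (l 14)) (c (a (l 16751376) (l 16751640)) (a (l 16746152) (l 16745512)))))), by decide +kernel⟩

def k18_pm_102_s : ∃ t, chk3 f_pm_102_s t 124 66 1 = true :=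
  ⟨(b (l 3) (b (l 3) (a (l 3) (a (l 3) (b (b (l 455971175879) (a (l 3) (a (l 387788569271) (a (l 274508805799) (l 16776888))))) (b (a (l 351818216599) (c (l 16776744) (l 16773808))) (a (c (l 234780358407) (a (l 224042943543) (l 16776728))) (l 16770816)))))))), by decide +kernel⟩

def k19_pm_102_s : ∃ t, chk3 f_pm_102_s t 125 132 1 = true :=
  ⟨(b (a (l 3) (a (b (l 3) (a (l 468856076487) (b (b (c (l 370608701175) (l 378124893911)) (a (l 3) (a (l 319605963399) (l 16776896)))) (b (a (a (l 3) (l 301889223159)) (l 16771416)) (c (l 16776744) (a (l 16776872) (l 16775936))))))) (b (b (b (a (l 447918112471) (c (l 86603984871) (a (l 16775440) (l 16775696)))) (a (a (l 3) (a (l 308331676023) (l 105394468727))) (c (l 16776304) (l 16770408)))) (a (a (b (l 323900932615) (a (l 227264168695) (l 16776960))) (c (l 16776736) (l 83382758263))) (c (l 16775792) (l 16769520)))) (c (a (a (l 16774400) (l 16770512)) (l 16769592)) (a (b (c (l 16775928) (l 16770368)) (l 16769392)) (c (l 16768264) (l 16767352)))))))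 (a (a (l 3) (c (b (l 445770628407) (a (l 372756184663) (b (a (l 371145571335) (l 16776968)) (l 88751468343)))) (b (l 454897431207) (b (a (l 3) (a (l 311016030855) (c (l 16776824) (l 16776720)))) (a (l 360408153751) (a (l 98952016007) (l 16775848))))))) (a (a (b (a (b (l 432885726999) (b (a (l 16777160) (l 16777040)) (l 16775520))) (b (a (b (l 16777152) (l 16777064)) (c (l 16776984) (l 16776808))) (l 16773680))) (c (l 16770728) (l 16770984))) (c (b (l 16773392) (l 16769656)) (b (b (l 16770368) (l 16764032)) (l 16767712)))) (c (b (c (l 16769488) (l 16768472)) (c (l 16768176) (l 16767216))) (b (c (l 16767312) (a (l 16762032) (l 16759720))) (c (l 16765568) (l 16763872))))))), by decide +kernel⟩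

def k20_pm_102_s : ∃ t, chk3 f_pm_102_s t 125 133 1 = true :=
  ⟨(a (a (b (b (b (l 3) (a (l 3) (a (l 3) (b (l 401210342535) (l 282024998791))))) (b (a (l 3) (a (b (l 282025001623) (l 253570840151)) (l 79624662247))) (a (c (l 226727292871) (a (l 476372270855) (l 110763176407))) (c (l 16776488) (l 16775944))))) (b (b (a (c (l 16775584) (a (l 260550161447) (l 16776280))) (l 16770336)) (c (l 16765264) (l 16769704))) (c (l 16769488) (l 16768416)))) (c (b (b (a (a (b (l 249812746855) (l 16776872)) (l 16775336)) (l 16770696)) (l 16771384)) (b (l 16768768) (l 16767312))) (b (b (a (b (a (l 221358583815) (l 16776632)) (l 16770864)) (l 16769544)) (c (l 16763720) (l 16768096))) (b (a (l 16762376) (l 16760664)) (l 16765176))))) (b (b (a (c (a (l 16764456) (l 16763448)) (c (l 16762120) (l 16766088))) (a (c (l 16762424) (l 16758624)) (c (b (l 16766720) (l 16766328)) (a (l 16762344) (b (l 16756576) (l 16755984)))))) (a (c (l 16768168) (c (l 16760568) (l 16758800))) (b (a (c (l 16761808) (l 16757288))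 (c (l 16760696) (l 16761032))) (a (c (l 16761288) (a (l 16767480) (l 16756152))) (l 16757592))))) (b (a (a (b (l 16766456) (l 16763288)) (b (l 16762512) (c (l 16760736) (l 16761960)))) (a (a (c (l 16760408) (l 16761264)) (l 16760488)) (l 16759336))) (a (c (a (l 16765808) (b (l 16759968) (l 16759296))) (a (l 16762576) (a (l 16756240) (l 16755600)))) (c (l 16758792) (l 16743304)))))), by decide +kernel⟩

def k21_pm_102_s : ∃ t, chk3 f_pm_102_s t 124 67 1 = true :=
  ⟨(b (a (b (b (l 3) (c (l 448454982727) (l 458118656455))) (a (b (l 3) (a (l 3) (c (l 334638348407) (l 315847867991)))) (b (b (a (l 3) (c (l 16777096) (l 289004319639))) (a (l 285783098647) (c (l 16776520) (l 16776512)))) (a (c (l 36674991015) (b (l 250886484439) (l 16776360))) (c (l 16775272) (l 16775496)))))) (b (a (b (a (l 3) (a (b (l 3) (l 292225545415)) (b (l 316921607703) (l 16776752)))) (a (a (b (l 446844369751) (l 238538453767)) (b (l 266992612247) (l 16776632))) (c (l 16775896) (l 16775728)))) (c (b (b (l 16765448)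 (l 16775200)) (l 16763560)) (b (b (l 16771600) (l 16764248)) (l 16768360)))) (c (a (b (l 16764456) (l 16762728)) (b (l 16761880) (l 16760032))) (a (b (l 16764456) (l 16763152)) (b (l 16761760) (l 16760600)))))) (a (b (a (b (a (c (l 294909900791) (b (l 450065595143) (l 292762416455))) (c (l 16776376) (l 92509562599))) (c (l 16775304) (l 82309012023))) (c (a (l 16763528) (l 16762056)) (b (l 16764344) (l 16763224)))) (c (a (l 16765848) (l 16761384)) (a (l 16768984) (l 16761824)))) (b (c (a (b (l 16760848) (l 16758840)) (b (l 16758056) (a (l 16746168) (l 16755352)))) (a (b (l 16762032) (l 16750568)) (b (l 16749120) (l 16758600)))) (a (c (b (l 16746232) (l 16754560)) (a (l 16749864) (l 16759280))) (c (b (a (l 16744064) (l 16753416)) (a (l 16752544) (l 16762624))) (b (l 16761872) (l 16757392))))))), by decide +kernel⟩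

def k22_pm_102_s : ∃ t, chk3 f_pm_102_s t 125 67 1 = true :=
  ⟨(b (a (b (a (c (b (l 16762760) (l 16761120)) (b (l 16766856) (l 16760224))) (a (c (l 16765440) (l 16763864)) (c (b (l 16759936) (l 16763576)) (b (l 16757672) (l 16761760))))) (a (a (b (l 16764480) (l 16760440)) (b (l 16763496) (c (l 16756920) (l 16757200)))) (b (a (c (l 16762888) (l 16762080)) (c (l 16756968) (l 16745088))) (c (l 16761200) (l 16755368))))) (b (b (a (a (c (b (l 16759352) (l 16758592)) (c (l 16757624) (l 16754816))) (l 16757512)) (l 16756512)) (c (l 16762736) (l 16753040))) (c (a (l 16756152) (l 16744344)) (a (l 16742432) (l 16739568))))) (a (b (a (c (b (a (l 16756160) (l 16755216)) (b (l 16754448) (l 16743384))) (b (a (l 16757600) (l 16746016)) (l 16756368))) (c (l 16754360) (l 16743352))) (c (a (l 16752416) (l 16762528)) (l 16753488))) (b (c (l 16753840) (l 16749504)) (c (l 16751648) (l 16737104))))), by decide +kernel⟩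

def k23_pm_102_s : ∃ t, chk3 f_pm_102_s t 126 66 1 = true :=
  ⟨(a (b (b (a (b (c (a (l 16771536) (l 16769880)) (a (c (l 16768304) (l 16767424)) (c (l 16766280) (l 16764928)))) (c (a (l 16768344) (b (l 16762112) (l 16768032))) (a (c (l 16761088) (l 16759704)) (b (l 16758736) (c (l 16763832) (l 16761840)))))) (b (b (a (c (l 16767192) (l 16763872)) (a (c (l 16766120) (c (l 16763208) (l 16761192))) (l 16763416))) (a (c (c (l 16767392) (l 16768176)) (a (l 16768600) (c (l 16768480) (l 16766424)))) (c (l 16765128) (l 16761168)))) (a (c (a (b (l 16766304) (l 16765832)) (l 16766688)) (a (b (c (l 16768536) (l 16766448)) (l 16761576)) (b (l 16761544) (l 16766040)))) (c (l 16758808) (l 16765352))))) (b (a (a (c (l 16767264) (l 16763592)) (a (c (a (l 16766424) (l 16766144)) (b (l 16757192) (l 16761632))) (b (c (l 16760720) (l 16761600)) (l 16757880)))) (c (l 16763552) (l 16759496))) (a (a (c (b (l 16767744) (l 16766048)) (a (b (l 16767912) (l 16761736)) (b (l 16761672) (l 16766296)))) (c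 (l 16759528) (l 16755064))) (c (l 16756992) (l 16752984))))) (a (b (a (b (c (l 16765232) (l 16760552)) (l 16758984)) (c (l 16762840) (l 16753208))) (c (l 16755992) (l 16751560))) (b (c (b (l 16755696) (l 16754416)) (a (l 16751816) (l 16760896))) (c (l 16752536) (l 16748704))))) (b (b (a (c (b (a (l 16763752) (l 16756832)) (l 16761528)) (b (c (l 16765552) (l 16763744)) (l 16758064))) (c (b (l 16759520) (l 16758104)) (a (l 16756656) (l 16755248)))) (c (a (b (l 16754920) (l 16753576)) (c (l 16756680) (l 16750088))) (a (c (l 16756952) (l 16760432)) (b (l 16759144) (l 16757792))))) (a (b (c (l 16756832) (l 16753504)) (c (l 16749008) (l 16756256))) (b (c (c (l 16753888) (l 16747328)) (b (l 16756472) (l 16755136))) (a (l 16750184) (c (l 16750168) (l 16752712))))))), by decide +kernel⟩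

def k24_pm_102_s : ∃ t, chk3 f_pm_102_s t 126 67 1 = true :=
  ⟨(c (a (b (b (a (l 16753616) (l 16750104)) (b (l 16750120) (l 16738488))) (b (l 16747296) (l 16745120))) (b (b (a (l 16746512) (b (l 16749448) (l 16743552))) (a (l 16749328) (l 16748184))) (a (b (l 16747584) (l 16751800)) (l 16742400)))) (a (b (b (a (l 16749296) (l 16756848)) (l 16748240)) (b (l 16743480) (l 16730936))) (b (a (b (l 16753840) (l 16751464)) (b (a (l 16751624) (l 16751000)) (l 16749928))) (a (b (l 16739112) (l 16748272)) (l 16748392))))), by decide +kernel⟩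

def k25_pm_102_s : ∃ t, chk3 f_pm_102_s t 127 33 1 = true :=
  ⟨(b (a (b (a (b (a (c (l 16756200) (l 16759064)) (c (b (l 16760384) (l 16759144)) (b (l 16758288) (l 16756968)))) (c (a (b (l 16759304) (l 16757920)) (b (l 16758200) (l 16757456))) (a (l 16750976) (b (l 16755840) (l 16754792))))) (c (b (a (b (l 16759712) (l 16758984)) (l 16749176)) (l 16753088)) (b (c (l 16754440) (a (l 16756224) (l 16755416))) (l 16749368)))) (c (a (b (a (b (l 16756872) (l 16756096)) (l 16756672)) (l 16745112)) (a (l 16751504) (l 16746744))) (a (b (a (l 16753968) (l 16753432)) (l 16752008)) (b (l 16742432) (l 16751464))))) (b (c (a (b (l 16754944) (l 16748656)) (b (l 16750272) (l 16747120))) (a (b (l 16750280) (l 16743248)) (b (l 16749192) (l 16742304)))) (c (a (b (l 16737320) (l 16734600)) (b (l 16733288) (l 16729736))) (a (a (l 16741176) (l 16730336)) (l 16744200))))) (a (b (c (a (b (l 16754976) (l 16754544)) (l 16741888)) (a (l 16744184) (l 16739248))) (c (a (l 16731216) (l 16726096)) (c (l 16750000)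 (l 16746560)))) (c (b (a (l 16734288) (l 16729304)) (a (l 16720968) (l 16715824))) (b (a (l 16728352) (l 16727880)) (b (l 16727192) (l 16726016)))))), by decide +kernel⟩

def k26_pm_102_s : ∃ t, chk3 f_pm_102_s t 60 34 1 = true :=
  ⟨(b (l 3) (a (l 3) (b (a (l 3) (b (l 3) (a (l 398525983687) (b (a (l 244443983655) (l 151028466487)) (c (l 16775728) (l 16776312)))))) (a (b (a (l 3) (b (l 3) (l 293299283207))) (a (c (l 222969196583) (l 280951251047)) (c (l 16774656) (l 16775584)))) (c (b (a (l 175724545655) (l 16772456)) (l 16769704)) (b (a (b (l 16776912) (l 16775568)) (l 16774144)) (l 16772320))))))), by decide +kernel⟩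

def k27_pm_102_s : ∃ t, chk3 f_pm_102_s t 61 68 1 = true :=
  ⟨(a (b (a (l 3) (b (l 3) (c (l 440401916439) (l 435570075623)))) (a (a (l 3) (b (l 3) (b (l 442549392407) (c (l 230485390519) (l 290614929527))))) (b (a (b (l 3) (a (l 3) (l 317458476071))) (b (a (l 359871279511) (c (l 16776568) (l 16776848))) (c (l 16775288) (l 16776040)))) (a (b (c (l 16776512) (l 151028477607)) (l 16769640)) (b (l 16763376) (l 16761544)))))) (b (a (b (a (l 3) (b (a (l 3) (l 357186924679)) (c (l 185388222951) (a (l 309942285671) (l 16776632))))) (a (b (a (l 457044913943) (c (l 16777168) (l 269676966743))) (c (l 16776168) (a (l 16776944) (l 16776072)))) (c (l 16768632) (b (l 16775856) (l 16774536))))) (b (a (b (a (c (l 16776552) (l 16776736)) (l 16764928)) (a (l 16764592) (l 16763280))) (c (l 16760984) (l 16763400))) (c (a (l 16760008) (l 16756568)) (a (l 16762672) (l 16750096))))) (a (c (b (a (l 16762480) (l 16748520)) (a (l 16747520) (l 16743928))) (b (b (l 16763720) (l 16762288)) (l 16762664)))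 (b (c (a (l 16744992) (l 16741408)) (b (l 16748880) (l 16747304))) (c (a (l 16740272) (b (l 16737952) (l 16746360))) (a (l 16767016) (l 16743920))))))), by decide +kernel⟩

def k28_pm_102_s : ∃ t, chk3 f_pm_102_s t 61 69 1 = true :=
  ⟨(a (b (a (b (a (b (l 355039436919) (c (l 16776736) (l 145122876583))) (c (l 16774504) (l 100025748279))) (c (l 16761368) (l 16768560))) (c (b (l 16758856) (l 16754416)) (b (l 16764328) (l 16748320)))) (a (c (b (l 16746472) (l 16741992)) (a (l 16760040) (l 16747352))) (b (c (l 16739472) (l 16766352)) (a (l 16740088) (b (l 16738024) (l 16736312)))))) (b (a (b (c (l 16751592) (l 16746464)) (a (b (l 16742408) (l 16740504)) (c (l 16745432) (l 16742320)))) (b (a (c (b (l 16736808) (l 16734744)) (l 16743032)) (c (l 16744104) (l 16740920))) (c (a (l 16742984) (l 16752480)) (l 16739296)))) (a (b (a (c (l 16734176) (l 16741816)) (b (l 16741264) (l 16735032))) (a (b (l 16735432) (l 16734440)) (l 16733576))) (c (l 16729008) (l 16736264))))), by decide +kernel⟩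

def k29_pm_102_s : ∃ t, chk3 f_pm_102_s t 30 35 1 = true :=
  ⟨(a (b (a (b (a (b (l 3) (c (l 327659012503) (l 331953973511))) (b (a (l 382419844823) (c (l 146196655591) (l 219211093991))) (c (l 82845875463) (b (l 16754880) (l 16774312))))) (a (a (b (b (l 189683151847) (l 16776504)) (l 16773696)) (c (l 16772072) (l 16763312))) (c (b (l 16769480) (l 16764984)) (b (l 16772064) (l 16769024))))) (b (c (a (a (l 16760816) (l 16747032)) (c (l 16740848) (l 16743192))) (a (c (l 16771576) (l 16751944)) (b (l 16769352) (l 16766304)))) (a (c (l 16739672) (l 16755664)) (b (a (l 16740064) (l 16737208)) (c (l 16730904) (l 16739352)))))) (a (b (c (a (l 16743728) (l 16737216)) (b (l 16757632) (l 16744040))) (a (b (l 16739976) (l 16736128)) (b (l 16734440) (a (l 16731968) (l 16729544))))) (b (a (b (l 16736576) (c (l 16728600) (l 16737576))) (b (a (b (l 16733328) (l 16731600)) (l 16730576)) (l 16731736))) (a (b (a (l 16733176) (l 16728712)) (l 16727320)) (l 16726408))))) (a (b (b (a (b (a (l 16742048)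 (l 16739176)) (a (l 16738200) (b (l 16736320) (l 16734592)))) (c (b (a (l 16732488) (l 16751032)) (l 16728600)) (b (b (l 16750832) (l 16738904)) (l 16737160)))) (a (a (b (b (l 16735328) (l 16733600)) (l 16731528)) (c (l 16737576) (l 16736024))) (l 16730040))) (b (c (l 16723048) (l 16731656)) (a (l 16724504) (l 16722440)))) (b (b (a (b (l 16732344) (l 16730432)) (b (l 16729504) (l 16727560))) (c (l 16722608) (l 16729856))) (b (c (l 16718880) (l 16725920)) (a (l 16719928) (l 16717048)))))), by decide +kernel⟩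

def k30_pm_102_s : ∃ t, chk3 f_pm_102_s t 62 34 1 = true :=
  ⟨(b (a (b (a (b (c (a (l 16757672) (l 16754328)) (a (l 16761480) (l 16749048))) (a (c (l 16753088) (l 16747984)) (c (b (l 16751048) (a (l 16739000) (l 16759024))) (b (l 16746864) (l 16745192))))) (b (a (c (b (a (l 16742536) (l 16751720)) (a (l 16750936) (l 16760760))) (b (l 16758592) (l 16756952))) (c (l 16739960) (l 16745512))) (c (b (l 16748880) (l 16737216)) (l 16743992)))) (a (b (a (c (b (l 16749704) (l 16747632)) (l 16755432)) (c (l 16746920) (l 16743160))) (c (a (l 16745432) (l 16755120)) (l 16751720))) (c (b (l 16735416) (l 16733024)) (l 16750680)))) (b (a (b (c (l 16749832) (l 16741288)) (c (l 16736912) (l 16739616))) (b (c (l 16738864) (l 16735304)) (a (l 16737504) (l 16734096)))) (a (c (a (l 16733464) (l 16754112)) (l 16747568)) (c (l 16743448) (l 16741440))))) (a (b (a (c (l 16741624) (l 16737736)) (c (l 16739984) (l 16735168))) (a (c (l 16726744) (l 16733072)) (b (l 16728720) (l 16726400)))) (a (b (c (l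 16728464) (l 16733208)) (b (l 16727128) (l 16724728))) (b (a (l 16740600) (b (l 16728792) (l 16737880))) (c (b (l 16734064) (l 16730512)) (b (l 16725744) (l 16724064))))))), by decide +kernel⟩

def k31_pm_102_s : ∃ t, chk3 f_pm_102_s t 63 34 1 = true :=
  ⟨(a (b (a (a (b (b (l 16732512) (l 16730584)) (b (l 16741864) (c (l 16750360) (l 16746648)))) (b (c (b (l 16751840) (l 16750768)) (a (l 16727200) (l 16736872))) (b (c (l 16750432) (l 16746456)) (l 16727624)))) (b (c (a (l 16741008) (l 16727920)) (a (l 16747136) (l 16747336))) (c (a (l 16724112) (l 16718760)) (l 16726008)))) (b (a (c (b (c (l 16723704) (l 16725800)) (l 16720048)) (c (l 16725736) (l 16745176))) (c (l 16714200) (l 16718520))) (c (a (l 16712464) (l 16701120)) (a (l 16717976) (l 16708888))))) (b (a (c (b (a (l 16722672) (l 16717416)) (l 16713320)) (b (l 16726600) (l 16719296))) (c (b (a (l 16712144) (l 16706864)) (a (l 16702616) (l 16697200))) (b (l 16719984) (l 16711200)))) (a (b (c (l 16700640) (l 16710064)) (c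 (l 16689872) (l 16699984))) (c (b (l 16689608) (l 16678648)) (b (l 16701600) (l 16691208)))))), by decide +kernel⟩

def k32_pm_102_s : ∃ t, chk3 f_pm_102_s t 31 35 1 = true :=
  ⟨(a (a (b (b (a (b (l 16726616) (l 16724592)) (l 16730896)) (a (l 16721608) (l 16718832))) (b (a (l 16717784) (l 16714784)) (a (l 16713944) (c (l 16707744) (l 16733552))))) (b (a (b (b (l 16722368) (l 16720040)) (c (a (l 16736016) (l 16712616)) (l 16717816))) (b (c (a (l 16716424) (l 16711104)) (c (l 16716936) (l 16719264))) (c (l 16703984) (l 16709264)))) (a (b (c (a (l 16709416) (l 16703872)) (l 16711136)) (b (l 16702520) (l 16697736))) (c (b (l 16693600) (l 16704104)) (c (l 16693312) (l 16696680)))))) (b (a (c (a (b (l 16702016) (l 16691256)) (b (l 16690152) (l 16678856))) (a (b (l 16708384) (l 16698392)) (c (l 16691080) (l 16695640)))) (b (c (a (l 16678544) (l 16667016)) (a (l 16689232) (l 16700992))) (c (a (l 16687704) (l 16675824)) (a (l 16698872) (l 16689176))))) (a (c (a (c (l 16672760) (l 16676656))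 (b (l 16688264) (l 16676488))) (b (l 16671920) (l 16671448))) (c (a (b (l 16675608) (l 16663280)) (b (l 16663216) (l 16650368))) (a (l 16660224) (l 16649552)))))), by decide +kernel⟩

def k33_pm_102_s : ∃ t, chk3 f_pm_102_s t 28 18 1 = true :=
  ⟨(b (b (l 3) (a (l 3) (b (a (l 3) (c (l 336248928231) (l 338933298151))) (b (a (l 3) (c (l 125258627159) (l 115058076967))) (a (l 305647260903) (b (l 76940273559) (l 16751648))))))) (b (a (a (l 3) (b (l 355576269399) (c (c (l 113447464007) (l 16735032)) (c (l 16734944) (l 95730718871))))) (a (b (c (c (l 114521204839) (l 108078754023)) (c (l 101636300615) (l 95193847799))) (b (l 16755328) (l 16746568))) (b (b (l 16754216) (l 16745416)) (b (l 16741880) (l 16738352))))) (c (a (b (a (l 105394400215) (l 16768920)) (c (l 16743464) (l 16745064))) (a (b (l 16759840) (l 16730856)) (b (l 16729256) (l 16721568)))) (a (b (a (l 147807198439) (l 16771288)) (a (l 16771624) (l 16765464))) (a (b (l 16764848) (l 16758992)) (b (l 16758064) (l 16752488))))))),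 by decide +kernel⟩

def k34_pm_102_s : ∃ t, chk3 f_pm_102_s t 29 18 1 = true :=
  ⟨(b (a (b (a (b (l 3) (a (l 3) (b (l 238538374823) (c (l 16776952) (l 16776896))))) (b (b (a (l 3) (a (l 247665192839) (l 151565321607))) (a (l 188072509447) (a (l 16755440) (l 16774016)))) (c (c (l 99488845495) (l 88751419783)) (c (l 82308969303) (a (l 16754360) (l 16771832)))))) (a (b (a (c (l 117205573015) (l 139217277335)) (b (l 16773464) (l 16769840))) (c (l 16743840) (l 16747632))) (b (c (l 16741552) (l 16746120)) (c (l 16733080) (l 16761168))))) (b (a (b (c (c (l 16751984) (l 16748088)) (a (l 16762704) (l 16769128))) (c (a (l 16762576) (l 16735648)) (a (l 16767144) (l 16763016)))) (b (c (c (l 16733688) (l 16736848)) (a (l 16764952) (l 16760648))) (a (b (l 16735456) (l 16731712)) (c (c (l 16721552) (l 16726344)) (a (l 16755712) (l 16732744)))))) (a (b (c (l 16730016) (l 16738112)) (a (b (l 16731080) (l 16727584)) (c (l 16719752) (l 16730640)))) (b (a (c (b (l 16744200) (l 16740752)) (c (l 16729520)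 (l 16755920))) (b (l 16724296) (l 16722632))) (a (l 16722072) (l 16720112)))))) (a (b (a (b (a (l 16744688) (l 16736312)) (c (l 16727216) (l 16756824))) (b (a (l 16731736) (b (l 16728808) (l 16725504))) (a (b (l 16726448) (l 16723352)) (a (l 16722216) (l 16721032))))) (a (b (c (b (l 16721360) (l 16717952)) (a (l 16752824) (l 16749592))) (c (l 16714200) (l 16725472))) (b (a (l 16720048) (l 16739344)) (l 16716096)))) (b (a (b (a (b (l 16724472) (l 16722040)) (l 16720960)) (l 16718736)) (b (l 16717856) (l 16714592))) (a (a (l 16714944) (l 16712944)) (l 16709760))))), by decide +kernel⟩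

def k35_pm_102_s : ∃ t, chk3 f_pm_102_s t 14 19 1 = true :=
  ⟨(a (b (b (a (a (b (l 16742688) (l 16735864)) (b (l 16735272) (l 16728432))) (a (b (l 16722208) (a (l 16722872) (l 16719624))) (b (a (l 16716640) (l 16718960)) (l 16716672)))) (a (a (b (l 16729080) (l 16712256)) (b (a (l 16723632) (l 16720344)) (l 16717136))) (a (b (l 16716832) (l 16734792)) (l 16712048)))) (b (a (a (b (l 16717432) (l 16735136)) (l 16712528)) (b (l 16709000) (l 16705864))) (a (c (l 16725016) (l 16733120)) (l 16690688)))) (b (a (b (a (c (l 16709536) (l 16741448)) (l 16711360)) (c (l 16722880) (l 16711920))) (b (a (l 16707512) (l 16703232)) (b (l 16700472) (l 16697176)))) (a (b (c (l 16716824) (l 16726080)) (l 16693864)) (b (l 16671272) (a (l 16708736) (l 16682264)))))), by decide +kernel⟩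

def k36_pm_102_s : ∃ t, chk3 f_pm_102_s t 15 18 1 = true :=
  ⟨(b (a (a (b (a (b (a (b (l 16732280) (a (l 16729880) (l 16727576))) (b (a (l 16728552) (l 16726960)) (l 16725672))) (a (c (l 16719840) (l 16730272)) (l 16723000))) (b (a (l 16724648) (l 16722688)) (l 16720008))) (a (b (l 16720464) (l 16716992)) (b (l 16716376) (l 16712776)))) (b (a (b (a (l 16720752) (l 16718664)) (l 16715976)) (c (l 16714824) (l 16716176))) (a (b (l 16712256) (l 16708560)) (b (l 16707104) (a (l 16725768) (l 16700896)))))) (a (a (b (a (c (b (l 16728416) (l 16723800)) (l 16710344)) (b (c (l 16701168) (l 16706320)) (b (l 16697624) (l 16692648)))) (a (b (a (l 16702128) (l 16696448)) (l 16690160)) (c (l 16676432) (l 16683192)))) (c (b (b (c (l 16678192) (l 16681472)) (l 16669216)) (c (l 16629648) (l 16654568))) (b (b (l 16686632) (l 16676680)) (l 16639848)))) (a (b (c (b (a (l 16678848) (l 16664576)) (l 16618032)) (b (l 16660464) (l 16649064))) (c (b (l 16627176) (l 16636208)) (b (l 16658528) (l 16646832))))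 (b (c (a (l 16602528) (l 16588776)) (b (l 16635968) (l 16644136))) (c (b (l 16597264) (l 16605160)) (a (l 16631648) (l 16618200))))))) (a (a (b (a (b (l 16713560) (l 16710200)) (b (l 16709216) (l 16705696))) (a (l 16705216) (l 16700560))) (a (b (b (l 16704888) (l 16701248)) (b (l 16697536) (a (l 16716232) (l 16690832)))) (b (a (b (l 16722024) (l 16696080)) (b (l 16691568) (l 16684760))) (b (a (l 16688856) (l 16673752)) (l 16649552))))) (c (a (a (b (l 16641384) (l 16618016)) (b (b (l 16656176) (l 16644208)) (l 16604728))) (b (a (b (l 16623912) (l 16611328)) (a (l 16593584) (l 16577608))) (a (l 16591952) (l 16558704)))) (a (a (b (l 16648816) (l 16647192)) (b (l 16638240) (l 16635096))) (b (a (l 16607520) (l 16556464)) (a (l 16602816) (l 16571312))))))), by decide +kernel⟩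

def k37_pm_102_s : ∃ t, chk3 f_pm_102_s t 15 19 1 = true :=
  ⟨(a (b (a (a (b (l 16698600) (l 16712880)) (b (l 16693688) (b (l 16687416) (l 16670672)))) (b (a (a (b (l 16712168) (l 16684864)) (a (l 16659720) (l 16673248))) (c (l 16649104) (l 16657064))) (a (c (l 16636408) (l 16686320)) (a (l 16636976) (l 16619760))))) (a (b (a (b (l 16707688) (l 16681584)) (a (l 16652432) (l 16659432))) (a (a (l 16653424) (l 16662960)) (l 16619608))) (b (a (l 16615136) (l 16581432)) (c (l 16546064) (l 16575296))))) (a (b (a (b (b (l 16624864) (l 16612352)) (c (l 16609616) (l 16618392))) (b (c (l 16600056) (l 16609552)) (c (l 16573344) (l 16582640)))) (a (b (l 16544984) (l 16537496)) (b (l 16507904) (l 16520608)))) (b (b (a (c (l 16565248) (l 16575840)) (c (l 16530936) (l 16542880))) (a (c (l 16537584) (l 16547640)) (c (l 16502320) (l 16513368)))) (b (c (a (l 16508968) (l 16472880)) (l 16437344)) (a (l 16483312) (l 16404752)))))), by decide +kernel⟩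

def k38_pm_102_s : ∃ t, chk3 f_pm_102_s t 6 5 1 = true :=
  ⟨(b (b (b (b (a (a (b (a (l 3) (l 16769632)) (a (l 16769392) (l 16774648))) (a (b (l 16773464) (l 16767192)) (b (l 16765128) (l 16758816)))) (a (a (a (l 16734104) (l 16729160)) (b (l 16724736) (l 16719408))) (a (b (l 16705344) (l 16733840)) (l 16708328)))) (a (b (a (a (l 16775096) (l 16768456)) (a (l 16760960) (l 16752536))) (a (a (l 16768976) (l 16762296)) (a (l 16754752) (l 16746680)))) (a (a (b (l 16743816) (l 16739376)) (b (l 16736664) (l 16733856))) (a (l 16708568) (l 16723272))))) (a (b (a (b (a (l 16762880) (l 16756152)) (a (l 16756816) (l 16750416))) (b (a (l 16748872) (l 16741976)) (a (l 16744240) (l 16739248)))) (b (a (a (b (l 16752448) (l 16750312)) (l 16746448)) (a (l 16741984) (l 16737072))) (a (b (a (l 16749760) (l 16745552)) (a (l 16748984) (l 16744800))) (b (a (l 16740992) (l 16736040)) (a (l 16740240) (l 16735248)))))) (b (a (a (l 16735520) (l 16729920)) (a (l 16723896) (l 16717400))) (b (a (a (l 16731768)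 (l 16726040)) (a (l 16719816) (l 16712488))) (a (b (a (l 16730656) (l 16724784)) (a (l 16729184) (l 16720848))) (b (a (l 16716176) (l 16706680)) (a (l 16712176) (l 16703528)))))))) (a (a (b (a (l 16736432) (l 16732272)) (a (l 16712888) (l 16708752))) (b (a (l 16727728) (l 16722784)) (a (l 16704280) (l 16699464)))) (a (b (a (l 16717384) (l 16711480)) (a (l 16694248) (l 16688616))) (b (a (l 16705008) (l 16696880)) (a (l 16682504) (l 16675872)))))) (a (a (b (a (l 16657336) (l 16674216)) (a (l 16633096) (l 16629072))) (b (a (l 16669864) (l 16665240)) (b (l 16612704) (l 16611456)))) (a (b (a (l 16660320) (l 16655088)) (a (l 16594928) (l 16590208))) (b (b (l 16615360) (l 16635672)) (a (l 16606288) (l 16601216)))))), by decide +kernel⟩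

def k39_pm_102_s : ∃ t, chk3 f_pm_102_s t 14 10 1 = true :=
  ⟨(b (b (a (a (b (l 16701800) (l 16716544)) (b (l 16694784) (l 16709280))) (a (b (l 16687240) (a (l 16701856) (l 16676592))) (b (a (l 16700616) (b (l 16673632) (l 16683960))) (b (a (l 16691880) (l 16668800)) (l 16603320))))) (b (a (a (l 16710384) (b (l 16702800) (l 16697736))) (a (b (a (l 16694608) (l 16685608)) (a (l 16688192) (l 16667408))) (l 16554336))) (b (a (a (l 16701984) (a (l 16696336) (l 16645200))) (a (l 16614048) (l 16563720))) (b (a (a (a (l 16699432) (l 16698560)) (a (l 16644104) (l 16665952))) (a (l 16590584) (l 16519520))) (a (a (b (b (b (l 16698488) (b (l 16675184) (l 16656688))) (l 16691664)) (l 16690728)) (c (l 16615768) (l 16618032))) (a (a (a (l 16632152) (l 16599888)) (c (l 16601960) (l 16604720))) (a (c (l 16577040) (l 16558928)) (b (c (l 16530248) (l 16533168)) (l 16545472))))))))) (a (a (b (b (l 16643168) (l 16654216)) (a (l 16668368) (l 16651728))) (b (b (l 16625216) (l 16614640)) (l 16578456)))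 (a (b (b (l 16559952) (l 16569280)) (a (l 16585800) (l 16560840))) (b (b (a (l 16564792) (l 16537864)) (l 16496648)) (b (l 16505128) (l 16514000)))))), by decide +kernel⟩

def k40_pm_102_s : ∃ t, chk3 f_pm_102_s t 15 20 1 = true :=
  ⟨(a (b (a (b (b (l 16613632) (l 16598792)) (c (l 16592248) (l 16578488))) (b (c (l 16537896) (l 16545632)) (a (l 16569008) (l 16533848)))) (b (a (c (l 16535704) (l 16541680)) (a (l 16490696) (l 16455480))) (b (a (a (l 16563216) (l 16532672)) (a (l 16500408) (l 16465408))) (a (b (a (l 16540328) (l 16510072)) (b (b (b (l 16513488) (b (l 16488472) (a (l 16520736) (l 16490920)))) (l 16503800)) (l 16502416))) (b (a (l 16457192) (b (l 16448992) (l 16439736))) (b (c (b (b (l 16448632) (a (l 16439232) (l 16405384))) (l 16439712)) (b (b (l 16450856) (a (l 16462416) (l 16407096))) (l 16441488))) (a (l 16455912) (l 16421832)))))))) (a (a (b (b (l 16528320) (l 16495800)) (b (b (l 16469480) (l 16450024)) (b (l 16427608) (b (c (l 16405424) (l 16407232)) (b (b (b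 (l 16395408) (c (l 16368952) (l 16380464))) (l 16386752)) (l 16385072)))))) (b (b (l 16489824) (l 16457016)) (b (b (l 16430640) (l 16411288)) (b (l 16389168) (b (c (l 16367864) (l 16368968)) (b (b (b (l 16357864) (b (l 16354472) (c (l 16351536) (l 16351792)))) (l 16349584)) (l 16347808))))))) (b (a (b (l 16451912) (l 16418688)) (b (l 16414576) (l 16349528))) (b (a (c (l 16380744) (l 16384144)) (c (l 16343200) (l 16346208))) (b (a (c (l 16350600) (l 16352232)) (c (l 16313560) (l 16314696))) (b (c (b (l 16317088) (l 16288136)) (b (l 16317544) (l 16309112))) (b (c (b (b (l 16302936) (b (l 16299904) (a (l 16315328) (l 16279784)))) (l 16295480)) (b (b (l 16302600) (a (l 16303296) (b (l 16281544) (l 16278928)))) (l 16294744))) (c (l 16293656) (l 16292728))))))))), by decide +kernel⟩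

def k41_pm_102_s : ∃ t, chk3 f_pm_102_s t 15 21 1 = true :=
  ⟨(a (a (b (b (a (l 16509216) (l 16478912)) (a (l 16495256) (l 16464184))) (c (l 16418112) (l 16416680))) (b (a (c (l 16439056) (l 16439528)) (c (l 16404360) (l 16404200))) (a (c (l 16410312) (l 16408008)) (b (l 16359128) (l 16343728))))) (a (b (a (c (l 16346072) (l 16366048)) (c (l 16308200) (l 16327320))) (a (c (l 16314080) (l 16330840)) (c (l 16295432) (l 16290096)))) (b (c (a (l 16270944) (l 16236920)) (a (l 16289272) (l 16251928))) (b (c (l 16237856) (l 16239760)) (c (l 16207056) (l 16220104)))))), by decide +kernel⟩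

def k42_pm_102_s : ∃ t, chk3 f_pm_102_s t 7 11 1 = true :=
  ⟨(a (a (a (b (b (a (l 16648184) (l 16633496)) (l 16621768)) (a (l 16576288) (l 16631544))) (b (b (l 16580056) (l 16582704)) (b (l 16565320) (l 16548752)))) (b (a (b (l 16531328) (l 16532328)) (b (c (l 16498176) (l 16495160)) (l 16453648))) (a (b (l 16513496) (l 16495696)) (b (l 16453952) (l 16434520))))) (a (b (a (b (c (l 16435312) (l 16431216)) (c (l 16412208) (l 16405440))) (b (c (b (l 16371384) (l 16358080)) (a (l 16378288) (l 16339496))) (c (l 16339072) (l 16330248)))) (a (b (l 16364936) (l 16364464)) (b (c (l 16315128) (l 16303168)) (c (l 16292832) (l 16277704))))) (b (a (b (a (c (l 16305152) (l 16297648)) (c (l 16263872) (l 16255000))) (c (a (l 16277272) (l 16234400)) (b (l 16251944) (l 16236328)))) (b (c (b (l 16189944) (l 16173392)) (b (l 16201016) (l 16182480))) (c (a (l 16191880) (l 16149704)) (a (l 16177792) (l 16134024))))) (a (b (c (l 16229176) (l 16213840)) (c (l 16204320) (l 16185360))) (b (c (l 16119824)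 (l 16121832)) (c (l 16092064) (l 16089880))))))), by decide +kernel⟩

def k43_pm_102_s : ∃ t, chk3 f_pm_102_s t 3 3 1 = true :=
  ⟨(b (b (a (a (a (b (a (l 16588728) (l 16584760)) (l 16500832)) (b (l 16515632) (l 16492936))) (a (b (l 16570088) (l 16485032)) (b (l 16561560) (l 16519504)))) (a (a (b (a (l 16553856) (b (l 16532896) (l 16517800))) (a (l 16514432) (a (l 16505824) (l 16482656)))) (b (a (b (l 16478808) (l 16462744)) (b (l 16416216) (l 16398944))) (a (l 16398168) (l 6)))) (a (b (a (b (l 16344352) (l 16325480)) (c (b (l 16272016) (l 6)) (l 16200760))) (l 6)) (l 6)))) (b (a (a (a (l 2) (l 16491392)) (a (l 16462896) (l 16456320))) (l 6)) (a (l 6) (l 6)))) (l 6)), by decide +kernel⟩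

theorem s44_pm_102_s : ∃ t, chk3 f_pm_102_s t 15 10 1 = true := ex3_b k40_pm_102_s k41_pm_102_s

theorem s45_pm_102_s : ∃ t, chk3 f_pm_102_s t 7 10 1 = true := ex3_a k39_pm_102_s s44_pm_102_s

theorem s46_pm_102_s : ∃ t, chk3 f_pm_102_s t 7 5 1 = true := ex3_b s45_pm_102_s k42_pm_102_s

theorem s47_pm_102_s : ∃ t, chk3 f_pm_102_s t 3 5 1 = true := ex3_a k38_pm_102_s s46_pm_102_s

theorem s48_pm_102_s : ∃ t, chk3 f_pm_102_s t 15 9 1 = true := ex3_b k36_pm_102_s k37_pm_102_s

theorem s49_pm_102_s : ∃ t, chk3 f_pm_102_s t 14 18 1 = true := ex3_a k33_pm_102_s k34_pm_102_s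

theorem s50_pm_102_s : ∃ t, chk3 f_pm_102_s t 14 9 1 = true := ex3_b s49_pm_102_s k35_pm_102_s

theorem s51_pm_102_s : ∃ t, chk3 f_pm_102_s t 7 9 1 = true := ex3_a s50_pm_102_s s48_pm_102_s

theorem s52_pm_102_s : ∃ t, chk3 f_pm_102_s t 31 34 1 = true := ex3_a k30_pm_102_s k31_pm_102_s

theorem s53_pm_102_s : ∃ t, chk3 f_pm_102_s t 31 17 1 = true := ex3_b s52_pm_102_s k32_pm_102_s

theorem s54_pm_102_s : ∃ t, chk3 f_pm_102_s t 61 34 1 = true := ex3_b k27_pm_102_s k28_pm_102_s

theorem s55_pm_102_s : ∃ t, chk3 f_pm_102_s t 30 34 1 = true := ex3_a k26_pm_102_s s54_pm_102_s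

theorem s56_pm_102_s : ∃ t, chk3 f_pm_102_s t 30 17 1 = true := ex3_b s55_pm_102_s k29_pm_102_s

theorem s57_pm_102_s : ∃ t, chk3 f_pm_102_s t 15 17 1 = true := ex3_a s56_pm_102_s s53_pm_102_s

theorem s58_pm_102_s : ∃ t, chk3 f_pm_102_s t 126 33 1 = true := ex3_b k23_pm_102_s k24_pm_102_s

theorem s59_pm_102_s : ∃ t, chk3 f_pm_102_s t 63 33 1 = true := ex3_a s58_pm_102_s k25_pm_102_s

theorem s60_pm_102_s : ∃ t, chk3 f_pm_102_s t 62 67 1 = true := ex3_a k21_pm_102_s k22_pm_102_s

theorem s61_pm_102_s : ∃ t, chk3 f_pm_102_s t 125 66 1 = true := ex3_b k19_pm_102_s k20_pm_102_s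

theorem s62_pm_102_s : ∃ t, chk3 f_pm_102_s t 62 66 1 = true := ex3_a k18_pm_102_s s61_pm_102_s

theorem s63_pm_102_s : ∃ t, chk3 f_pm_102_s t 62 33 1 = true := ex3_b s62_pm_102_s s60_pm_102_s

theorem s64_pm_102_s : ∃ t, chk3 f_pm_102_s t 31 33 1 = true := ex3_a s63_pm_102_s s59_pm_102_s

theorem s65_pm_102_s : ∃ t, chk3 f_pm_102_s t 254 130 1 = true := ex3_b k14_pm_102_s k15_pm_102_s

theorem s66_pm_102_s : ∃ t, chk3 f_pm_102_s t 254 65 1 = true := ex3_b s65_pm_102_s k16_pm_102_s

theorem s67_pm_102_s : ∃ t, chk3 f_pm_102_s t 127 65 1 = true := ex3_a s66_pm_102_s k17_pm_102_s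

theorem s68_pm_102_s : ∃ t, chk3 f_pm_102_s t 253 131 1 = true := ex3_b k12_pm_102_s k13_pm_102_s

theorem s69_pm_102_s : ∃ t, chk3 f_pm_102_s t 252 131 1 = true := ex3_a k10_pm_102_s k11_pm_102_s

theorem s70_pm_102_s : ∃ t, chk3 f_pm_102_s t 126 131 1 = true := ex3_a s69_pm_102_s s68_pm_102_s

theorem s71_pm_102_s : ∃ t, chk3 f_pm_102_s t 507 130 1 = true := ex3_b k8_pm_102_s k9_pm_102_s

theorem s72_pm_102_s : ∃ t, chk3 f_pm_102_s t 253 130 1 = true := ex3_a k7_pm_102_s s71_pm_102_s

theorem s73_pm_102_s : ∃ t, chk3 f_pm_102_s t 126 130 1 = true := ex3_a k6_pm_102_s s72_pm_102_s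

theorem s74_pm_102_s : ∃ t, chk3 f_pm_102_s t 126 65 1 = true := ex3_b s73_pm_102_s s70_pm_102_s

theorem s75_pm_102_s : ∃ t, chk3 f_pm_102_s t 63 65 1 = true := ex3_a s74_pm_102_s s67_pm_102_s

theorem s76_pm_102_s : ∃ t, chk3 f_pm_102_s t 63 32 1 = true := ex3_b k5_pm_102_s s75_pm_102_s

theorem s77_pm_102_s : ∃ t, chk3 f_pm_102_s t 31 32 1 = true := ex3_a k4_pm_102_s s76_pm_102_s

theorem s78_pm_102_s : ∃ t, chk3 f_pm_102_s t 31 16 1 = true := ex3_b s77_pm_102_s s64_pm_102_s

theorem s79_pm_102_s : ∃ t, chk3 f_pm_102_s t 15 16 1 = true := ex3_a k3_pm_102_s s78_pm_102_s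

theorem s80_pm_102_s : ∃ t, chk3 f_pm_102_s t 15 8 1 = true := ex3_b s79_pm_102_s s57_pm_102_s

theorem s81_pm_102_s : ∃ t, chk3 f_pm_102_s t 7 8 1 = true := ex3_a k2_pm_102_s s80_pm_102_s

theorem s82_pm_102_s : ∃ t, chk3 f_pm_102_s t 7 4 1 = true := ex3_b s81_pm_102_s s51_pm_102_s

theorem s83_pm_102_s : ∃ t, chk3 f_pm_102_s t 3 4 1 = true := ex3_a k1_pm_102_s s82_pm_102_s

theorem s84_pm_102_s : ∃ t, chk3 f_pm_102_s t 3 2 1 = true := ex3_b s83_pm_102_s s47_pm_102_s

theorem s85_pm_102_s : ∃ t, chk3 f_pm_102_s t 3 1 1 = true := ex3_b s84_pm_102_s k43_pm_102_s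

theorem s86_pm_102_s : ∃ t, chk3 f_pm_102_s t 1 1 1 = true := ex3_a k0_pm_102_s s85_pm_102_s

theorem c_pm_102_s : CertNE 536870912 536870912 0 536870912 991146299 28908434 3 eng mog cd0q1 cd0q0 pd2 true true false .npp 1 0 2
    ndB0q1 ndB0q0 pcB2 cut_pm_102_s Ext.none :=
  certNE1 (fam := true) (s1 := true) (s2 := false) (a := 1) (b := 0) (c := 2) (cn := .npp) (n1 := ndB0q1) (n2 := ndB0q0) (pc := pcB2) (cut := cut_pm_102_s) (xt := Ext.none) (P1 := 536870912) (W1 := 536870912) (P2 := 0) (W2 := 536870912) (P3 := 991146299) (W3 := 28908434) (N0 := 3) (En := eng) (mo := mog) (C1 := cd0q1) (C2 := cd0q0) (C3 := pd2)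
    rfl (fun _ => rfl) s86_pm_102_s

noncomputable def cut_pm_102_t : Cut := Cut.of [[⟨3, 0, 0, 2845415833⟩], [⟨0, 1, 0, 16777216⟩, ⟨1, 0, 0, 16777216⟩, ⟨2, 1, 0, 16777216⟩]]

noncomputable def f_pm_102_t : ℕ → ℕ → ℕ → ℕ → Bool := onCell 536870912 536870912 0 536870912 991146299 28908434
    (rowNE 3 eng mog cd0q1 cd0q0 pd2 0 true true false .npp 1 0 2 (qsf 536870912 536870912 0 536870912 2) ndB0q1 ndB0q0 pcB2 cut_pm_102_t Ext.none)

def k0_pm_102_t : ∃ t, chk3 f_pm_102_t t 1 1 1 = true :=
  ⟨(l 6), by decide +kernel⟩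

theorem c_pm_102_t : CertNE 536870912 536870912 0 536870912 991146299 28908434 3 eng mog cd0q1 cd0q0 pd2 true true false .npp 1 0 2
    ndB0q1 ndB0q0 pcB2 cut_pm_102_t Ext.none :=
  certNE0 (fam := true) (s1 := true) (s2 := false) (a := 1) (b := 0) (c := 2) (cn := .npp) (n1 := ndB0q1) (n2 := ndB0q0) (pc := pcB2) (cut := cut_pm_102_t) (xt := Ext.none) (P1 := 536870912) (W1 := 536870912) (P2 := 0) (W2 := 536870912) (P3 := 991146299) (W3 := 28908434) (N0 := 3) (En := eng) (mo := mog) (C1 := cd0q1) (C2 := cd0q0) (C3 := pd2)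
    rfl k0_pm_102_t

noncomputable def cut_pm_112_s : Cut := Cut.of [[⟨4, 0, 0, 1449551462⟩]]

noncomputable def f_pm_112_s : ℕ → ℕ → ℕ → ℕ → Bool := onCell 1073741824 536870912 536870912 536870912 991146299 28908434
    (rowNE 3 eng mog cd0q1 cd0q1 pd2 2 true true false .dn 1 1 2 (qsf 536870912 536870912 536870912 536870912 2) ndB0q1 ndB0q1 pcB2 cut_pm_112_s Ext.none)

def k0_pm_112_s : ∃ t, chk3 f_pm_112_s t 2 1 1 = true :=
  ⟨(b (a (a (l 3) (l 3)) (a (a (b (a (l 3) (a (l 3) (a (a (l 3) (b (b (l 16775224) (l 3)) (l 3))) (b (b (l 16774352) (l 16776904)) (b (l 16776800) (l 16776816)))))) (b (a (l 3) (b (a (l 3) (a (c (l 16774104) (l 16774192)) (l 16774176))) (a (l 1) (a (l 1) (l 16769632))))) (l 1))) (b (b (b (a (l 16758528) (l 16733248)) (a (l 16761608) (l 16737200))) (b (a (l 16762800) (l 16739048)) (a (l 16762168) (l 16738840)))) (b (b (a (l 16759672) (l 16715600)) (b (l 16745056) (a (l 16753704) (l 16730720)))) (a (l 1) (b (l 204581165191) (l 1)))))) (a (b (b (b (b (l 16672040)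 (l 16675472)) (b (l 16678232) (l 16701320))) (b (c (l 16680352) (l 16684096)) (a (l 16715584) (l 16692344)))) (b (b (a (l 16692680) (l 16690848)) (b (l 16678504) (l 16675824))) (b (b (l 16672488) (l 16647632)) (b (l 16685848) (l 1))))) (b (b (b (b (l 16619568) (l 16644712)) (b (l 16648648) (l 16651864))) (b (b (l 16654344) (l 16656104)) (l 16615256))) (b (b (l 16614656) (l 16590336)) (b (b (l 16648976) (l 16645096)) (b (l 16640840) (l 16637016)))))))) (a (l 1) (b (a (l 1) (a (l 1) (b (b (c (l 16590760) (l 16588288)) (l 1)) (l 1)))) (l 1)))), by decide +kernel⟩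

def k1_pm_112_s : ∃ t, chk3 f_pm_112_s t 3 1 1 = true :=
  ⟨(a (a (b (b (b (b (a (b (l 16588368) (l 16592392)) (b (l 16536632) (l 16540624))) (a (b (l 16596816) (l 16601152)) (b (l 16544640) (l 16549128)))) (b (a (l 16564056) (l 16534600)) (a (l 16589088) (l 16561912)))) (b (b (a (l 16610912) (l 16564680)) (a (l 16587664) (l 16563848))) (b (a (l 16561208) (l 16559448)) (a (b (l 16597072) (l 16592608)) (l 16509672))))) (b (b (b (a (b (l 16588784) (l 16584864)) (l 16479888)) (a (l 182032242327) (b (l 16537032) (l 16533048)))) (b (a (l 1) (l 16464416)) (l 1))) (l 1))) (a (b (b (b (b (l 16487096) (b (l 16493176) (l 16497176))) (b (l 16419944) (l 16512328))) (b (b (l 16517384) (l 16518472)) (b (l 16515512) (l 16508608)))) (b (b (b (l 16457400) (l 16491408)) (b (l 16442072) (l 16435704))) (l 1))) (b (b (b (l 6) (l 6)) (l 6)) (b (l 6) (l 6))))) (b (b (l 6) (l 6)) (l 6))), by decide +kernel⟩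

theorem s2_pm_112_s : ∃ t, chk3 f_pm_112_s t 1 1 1 = true := ex3_a k0_pm_112_s k1_pm_112_s

theorem c_pm_112_s : CertNE 536870912 536870912 536870912 536870912 991146299 28908434 3 eng mog cd0q1 cd0q1 pd2 true true false .dn 1 1 2
    ndB0q1 ndB0q1 pcB2 cut_pm_112_s Ext.none :=
  certNE2 (fam := true) (s1 := true) (s2 := false) (a := 1) (b := 1) (c := 2) (cn := .dn) (n1 := ndB0q1) (n2 := ndB0q1) (pc := pcB2) (cut := cut_pm_112_s) (xt := Ext.none) (P1 := 536870912) (W1 := 536870912) (P2 := 536870912) (W2 := 536870912) (P3 := 991146299) (W3 := 28908434) (N0 := 3) (En := eng) (mo := mog) (C1 := cd0q1) (C2 := cd0q1) (C3 := pd2)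
    rfl (fun _ => rfl) s2_pm_112_s

noncomputable def cut_pm_112_t : Cut := Cut.of [[⟨3, 0, 0, 2845415833⟩]]

noncomputable def f_pm_112_t : ℕ → ℕ → ℕ → ℕ → Bool := onCell 536870912 536870912 1073741824 536870912 991146299 28908434
    (rowNE 3 eng mog cd0q1 cd0q1 pd2 1 true true false .dn 1 1 2 (qsf 536870912 536870912 536870912 536870912 2) ndB0q1 ndB0q1 pcB2 cut_pm_112_t Ext.none)

def k0_pm_112_t : ∃ t, chk3 f_pm_112_t t 1 1 1 = true :=
  ⟨(l 6), by decide +kernel⟩

theorem c_pm_112_t : CertNE 536870912 536870912 536870912 536870912 991146299 28908434 3 eng mog cd0q1 cd0q1 pd2 true true false .dn 1 1 2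
    ndB0q1 ndB0q1 pcB2 cut_pm_112_t Ext.none :=
  certNE1 (fam := true) (s1 := true) (s2 := false) (a := 1) (b := 1) (c := 2) (cn := .dn) (n1 := ndB0q1) (n2 := ndB0q1) (pc := pcB2) (cut := cut_pm_112_t) (xt := Ext.none) (P1 := 536870912) (W1 := 536870912) (P2 := 536870912) (W2 := 536870912) (P3 := 991146299) (W3 := 28908434) (N0 := 3) (En := eng) (mo := mog) (C1 := cd0q1) (C2 := cd0q1) (C3 := pd2)
    rfl (fun _ => rfl) k0_pm_112_t

noncomputable def cut_pm_113_s : Cut := Cut.of [[⟨4, 0, 0, 1449551462⟩], [⟨0, 1, 0, 37748736⟩, ⟨1, 1, 0, 37748736⟩, ⟨2, 2, 0, 5242880⟩], [⟨0, 0, 1, 46137344⟩, ⟨1, 1, 0, 2097152⟩, ⟨2, 1, 1, 46137344⟩, ⟨0, 0, 0, 1027248803⟩, ⟨0, 1, 0, 87939455⟩, ⟨2, 1, 0, 1027248803⟩, ⟨2, 2, 0, 87939455⟩], [⟨0, 1, 0, 2097152⟩, ⟨1, 0, 1, 46137344⟩, ⟨2, 1, 1, 46137344⟩, ⟨1, 0, 0, 1027248803⟩, ⟨1, 1, 0, 87939455⟩, ⟨2, 1, 0, 1027248803⟩, ⟨2, 2, 0, 87939455⟩]]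

noncomputable def f_pm_113_s : ℕ → ℕ → ℕ → ℕ → Bool := onCell 1610612736 536870912 536870912 536870912 991146299 28908434
    (rowNE 3 eng mog cd0q1 cd0q1 pd3 2 true true false .nn 1 1 3 (qsf 536870912 536870912 536870912 536870912 3) ndB0q1 ndB0q1 pcB3 cut_pm_113_s Ext.none)

def k0_pm_113_s : ∃ t, chk3 f_pm_113_s t 1 1 1 = true :=
  ⟨(a (b (a (l 6) (l 6)) (l 6)) (l 6)), by decide +kernel⟩

theorem c_pm_113_s : CertNE 536870912 536870912 536870912 536870912 991146299 28908434 3 eng mog cd0q1 cd0q1 pd3 true true false .nn 1 1 3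
    ndB0q1 ndB0q1 pcB3 cut_pm_113_s Ext.none :=
  certNE2 (fam := true) (s1 := true) (s2 := false) (a := 1) (b := 1) (c := 3) (cn := .nn) (n1 := ndB0q1) (n2 := ndB0q1) (pc := pcB3) (cut := cut_pm_113_s) (xt := Ext.none) (P1 := 536870912) (W1 := 536870912) (P2 := 536870912) (W2 := 536870912) (P3 := 991146299) (W3 := 28908434) (N0 := 3) (En := eng) (mo := mog) (C1 := cd0q1) (C2 := cd0q1) (C3 := pd3)
    rfl (fun _ => rfl) k0_pm_113_s

noncomputable def cut_pm_113_t : Cut := Cut.of [[⟨3, 0, 0, 3194381926⟩], [⟨0, 1, 0, 37748736⟩, ⟨1, 1, 0, 37748736⟩, ⟨2, 2, 0, 5242880⟩], [⟨0, 0, 1, 46137344⟩, ⟨1, 1, 0, 2097152⟩, ⟨2, 1, 1, 46137344⟩, ⟨0, 0, 0, 1027248803⟩, ⟨0, 1, 0, 87939455⟩, ⟨2, 1, 0, 1027248803⟩, ⟨2, 2, 0, 87939455⟩], [⟨0, 1, 0, 2097152⟩, ⟨1, 0, 1, 46137344⟩, ⟨2, 1, 1, 46137344⟩, ⟨1, 0, 0, 1027248803⟩, ⟨1, 1, 0, 87939455⟩, ⟨2, 1, 0, 1027248803⟩, ⟨2, 2, 0, 87939455⟩]]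

noncomputable def f_pm_113_t : ℕ → ℕ → ℕ → ℕ → Bool := onCell 536870912 536870912 536870912 536870912 991146299 28908434
    (rowNE 3 eng mog cd0q1 cd0q1 pd3 0 true true false .nn 1 1 3 (qsf 536870912 536870912 536870912 536870912 3) ndB0q1 ndB0q1 pcB3 cut_pm_113_t Ext.none)

def k0_pm_113_t : ∃ t, chk3 f_pm_113_t t 2 1 1 = true :=
  ⟨(l 6), by decide +kernel⟩

def k1_pm_113_t : ∃ t, chk3 f_pm_113_t t 3 2 1 = true :=
  ⟨(l 6), by decide +kernel⟩

def k2_pm_113_t : ∃ t, chk3 f_pm_113_t t 6 3 1 = true :=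
  ⟨(l 6), by decide +kernel⟩

def k3_pm_113_t : ∃ t, chk3 f_pm_113_t t 7 6 1 = true :=
  ⟨(l 6), by decide +kernel⟩

def k4_pm_113_t : ∃ t, chk3 f_pm_113_t t 14 7 1 = true :=
  ⟨(l 6), by decide +kernel⟩

def k5_pm_113_t : ∃ t, chk3 f_pm_113_t t 15 14 1 = true :=
  ⟨(l 6), by decide +kernel⟩

def k6_pm_113_t : ∃ t, chk3 f_pm_113_t t 30 15 1 = true :=
  ⟨(l 6), by decide +kernel⟩

def k7_pm_113_t : ∃ t, chk3 f_pm_113_t t 31 30 1 = true :=
  ⟨(l 6), by decide +kernel⟩

def k8_pm_113_t : ∃ t, chk3 f_pm_113_t t 62 31 1 = true :=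
  ⟨(l 6), by decide +kernel⟩

def k9_pm_113_t : ∃ t, chk3 f_pm_113_t t 63 62 1 = true :=
  ⟨(l 6), by decide +kernel⟩

def k10_pm_113_t : ∃ t, chk3 f_pm_113_t t 126 63 1 = true :=
  ⟨(a (l 6) (a (l 6) (a (l 6) (b (l 6) (b (l 6) (b (l 6) (b (l 6) (a (a (l 6) (b (l 6) (b (l 6) (c (c (l 16769664) (c (l 16771008) (l 16771120))) (c (c (l 16771232) (l 16771344)) (c (l 16770160) (l 16770280))))))) (b (a (l 6) (c (c (l 16771752) (l 16774520)) (c (l 16773360) (c (l 16774792) (l 16774880))))) (b (c (c (l 16771136) (l 16771312)) (c (c (l 16772768) (l 16772864)) (c (l 16771648) (l 16771752)))) (c (c (a (l 16769968) (l 16770224)) (c (l 16770072) (l 16770176))) (c (c (l 16770936) (l 16771040)) (c (c (l 16770464) (l 16770520)) (c (l 16770576) (l 16770632))))))))))))))), by decide +kernel⟩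

def k11_pm_113_t : ∃ t, chk3 f_pm_113_t t 127 126 1 = true :=
  ⟨(a (l 6) (a (l 6) (a (l 6) (b (l 6) (b (l 6) (b (l 6) (b (b (l 6) (a (l 6) (a (l 6) (a (l 6) (c (c (l 16770552) (l 16770768)) (c (c (l 16770936) (l 16771056)) (c (l 16771176) (l 16771304)))))))) (a (a (l 6) (c (c (l 16773648) (l 16773800)) (c (l 16772664) (c (l 16774104) (l 16774200))))) (a (c (c (l 16771136) (l 16771312)) (c (c (l 16772768) (l 16772864)) (c (l 16771648) (l 16771752)))) (c (c (b (l 16769968) (l 16770224)) (c (l 16770072) (l 16770176))) (c (c (l 16770936) (l 16771040)) (c (c (l 16770464) (l 16770520)) (c (l 16770576) (l 16770632)))))))))))))), by decide +kernel⟩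

def k12_pm_113_t : ∃ t, chk3 f_pm_113_t t 254 254 1 = true :=
  ⟨(a (l 6) (a (l 6) (b (l 6) (b (l 6) (c (c (l 16778480) (l 16781104)) (c (l 16781104) (l 16783072))))))), by decide +kernel⟩

def k13_pm_113_t : ∃ t, chk3 f_pm_113_t t 508 510 1 = true :=
  ⟨(a (l 6) (b (l 6) (b (a (l 6) (b (l 6) (b (l 6) (c (l 16777312) (l 16779672))))) (c (c (b (l 16777200) (l 16777672)) (b (l 16778128) (l 16778376))) (c (c (l 16776264) (l 16776696)) (c (l 16779752) (l 16780200))))))), by decide +kernel⟩

def k14_pm_113_t : ∃ t, chk3 f_pm_113_t t 509 1020 1 = true :=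
  ⟨(a (a (b (l 6) (b (l 6) (c (c (l 16772880) (l 16777232)) (c (l 16779016) (l 16780864))))) (c (b (c (l 16773552) (l 16774864)) (a (a (b (l 6) (b (b (l 6) (l 16773544)) (l 16773656))) (c (b (l 16776264) (b (b (l 16775368) (l 16773904)) (l 16775336))) (b (l 16777968) (b (l 16775840) (l 16777104))))) (c (b (l 16777016) (c (b (l 16775488) (b (a (l 16773520) (l 16775144)) (a (l 16774880) (l 16773592)))) (b (l 16776328) (a (l 16774424) (l 16774608))))) (b (l 16778560) (b (l 16777608) (a (l 16775760) (l 16775920))))))) (b (c (l 16776216) (l 16777616)) (c (b (a (l 16776992) (l 16780152)) (a (c (l 16777200) (l 16779448)) (b (l 16779368) (l 16777688)))) (b (l 16779024) (c (l 16779216) (l 16781464))))))) (c (b (c (l 16776560) (l 16777224)) (a (a (c (a (l 16774392) (l 16774888)) (l 16776080)) (c (l 16775648) (l 16774240))) (c (l 16775840) (l 16775424)))) (b (c (l 16779224) (l 16781240)) (c (a (c (l 16774896) (l 16775584)) (l 16776344)) (c (l 16779336) (l 16779928)))))), by decide +kernel⟩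

def k15_pm_113_t : ∃ t, chk3 f_pm_113_t t 509 2042 1 = true :=
  ⟨(b (c (a (a (c (l 16775928) (l 16777440)) (c (a (l 16773088) (c (l 16772520) (l 16773328))) (c (l 16774192) (l 16775016)))) (a (a (b (b (c (c (a (l 16773680) (l 16775400)) (l 16774736)) (l 16776000)) (a (c (l 16772736) (l 16777064)) (c (a (l 16774080) (l 16775560)) (l 16777176)))) (c (c (a (l 16775128) (l 16773728)) (l 16774568)) (l 16775800))) (b (c (l 16776360) (l 16777864)) (a (b (c (l 16774280) (l 16777224)) (c (a (l 16775432) (l 16774128)) (l 16777072))) (c (l 16774568) (l 16777432))))) (c (c (l 16771944) (l 16777792)) (l 16776104)))) (a (c (a (l 16779000) (c (l 16778472) (l 16779320))) (c (l 16780184) (l 16781040))) (a (b (c (a (l 16777672) (l 16779424)) (l 16779600)) (c (a (l 16778800) (l 16777664)) (c (l 16780192) (l 16781056)))) (c (l 16777376) (l 16778688))))) (a (c (c (a (l 16776376) (l 16774768)) (a (l 16777664) (l 16777472))) (c (c (l 16775984) (l 16779312)) (l 16780392))) (c (a (b (b (a (l 16775112)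 (a (l 16773688) (c (a (l 16772832) (l 16774192)) (l 16777096)))) (c (l 16773064) (l 16777200))) (c (l 16775856) (l 16777296))) (b (a (b (c (l 16773424) (l 16777528)) (a (c (a (l 16774184) (l 16774280)) (l 16777120)) (c (l 16775904) (l 16777392)))) (c (l 16776848) (l 16778144))) (a (a (c (l 16773008) (l 16777128)) (b (c (a (l 16774240) (l 16775680)) (l 16777160)) (c (l 16774280) (l 16777088)))) (a (c (a (b (l 16775904) (a (l 16774264) (l 16774320))) (l 16775976)) (l 16776040)) (c (l 16776336) (l 16777696)))))) (c (b (a (a (l 16778808) (l 16777432)) (a (l 16776360) (l 16779480))) (a (l 16778784) (a (a (l 16778680) (l 16778696)) (l 16776360)))) (a (c (l 16779960) (l 16780776)) (c (a (l 16780056) (l 16780312)) (l 16778352))))))), by decide +kernel⟩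

def k16_pm_113_t : ∃ t, chk3 f_pm_113_t t 509 2043 1 = true :=
  ⟨(c (c (a (a (c (l 16776840) (l 16777312)) (b (l 16776544) (l 16777032))) (a (b (c (l 16773280) (l 16773912)) (l 16775400)) (a (b (l 16774632) (l 16776440)) (b (b (b (c (a (l 16773952) (l 16774160)) (a (l 16773360) (l 16773552))) (a (l 16775736) (a (l 16775664) (a (l 16774320) (l 16774352))))) (l 16773248)) (l 16776248))))) (a (a (l 16778032) (c (l 16777576) (l 16778120))) (b (a (l 16777488) (a (l 16777288) (b (a (l 16777120) (b (l 16777248) (l 16777104))) (l 16777216)))) (a (l 16777760) (l 16776184))))) (b (a (c (l 16777664) (l 16780176)) (a (c (l 16778800) (l 16780160)) (b (c (a (l 16778672) (a (l 16778608) (l 16777360))) (a (l 16780176) (l 16777560))) (c (l 16778648) (l 16780056))))) (a (c (l 16779008) (l 16779968)) (c (a (l 16778840) (l 16778688)) (c (l 16779648) (l 16780240)))))), by decide +kernel⟩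

def k17_pm_113_t : ∃ t, chk3 f_pm_113_t t 508 1022 1 = true :=
  ⟨(b (a (a (l 6) (a (l 6) (b (l 6) (c (c (l 16777568) (l 16777712)) (c (l 16777864) (l 16778680)))))) (b (c (c (l 16778152) (l 16778640)) (c (l 16777832) (l 16779008))) (c (c (c (l 16775968) (l 16776096)) (c (l 16776232) (l 16776368))) (c (c (l 16776504) (l 16776640)) (c (l 16776784) (l 16779552)))))) (a (b (a (l 6) (c (a (l 16778208) (l 16778464)) (c (l 16778432) (l 16778512)))) (c (a (l 16776616) (l 16777168)) (c (l 16777032) (c (l 16777112) (l 16777168))))) (b (b (c (a (c (c (l 16777624) (l 16777664)) (c (l 16777696) (l 16777736))) (c (l 16778952) (l 16779096))) (c (a (c (l 16777776) (l 16776504)) (l 16776616)) (a (c (l 16776552) (l 16776592)) (l 16778080)))) (c (a (l 16778600) (c (a (l 16776304) (l 16777744)) (a (l 16776352) (l 16777808)))) (c (a (l 16778688) (a (l 16776416) (l 16777880))) (a (l 16778752) (c (l 16779144) (l 16779184)))))) (c (c (l 16777936) (l 16778000)) (c (l 16776752) (c (l 16778120) (l 16778160))))))),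 by decide +kernel⟩

def k18_pm_113_t : ∃ t, chk3 f_pm_113_t t 508 1023 1 = true :=
  ⟨(a (a (c (c (b (l 16774784) (b (l 16771656) (c (l 16770392) (l 16770480)))) (b (a (l 16774784) (l 16775040)) (b (l 16771816) (c (l 16770568) (l 16770656))))) (c (b (c (l 16775016) (l 16775088)) (b (c (l 16773248) (l 16773336)) (c (l 16771400) (l 16771496)))) (b (c (l 16772536) (l 16773920)) (c (b (l 16772112) (c (l 16770912) (l 16770960))) (b (l 16772208) (c (l 16771016) (l 16771064))))))) (c (c (b (l 16772696) (b (l 16772168) (c (l 16770896) (l 16770968)))) (b (l 16773464) (b (l 16772304) (a (l 16771624) (l 16771856))))) (c (b (c (l 16775512) (l 16775576)) (b (c (l 16773728) (l 16773800)) (c (l 16771864) (l 16771944)))) (b (c (l 16773016) (l 16774392)) (c (b (l 16772568) (c (l 16771352) (l 16771400))) (b (l 16772648) (c (l 16771440) (l 16772144)))))))) (c (c (b (a (l 16773216) (l 16773736)) (b (a (l 16772672) (l 16773168)) (c (a (l 16771392) (l 16771872)) (a (l 16771456) (l 16771928))))) (b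 (a (l 16773968) (l 16774464)) (b (a (l 16772792) (l 16773264)) (c (a (l 16771520) (l 16771984)) (a (l 16771584) (l 16772696)))))) (b (c (c (a (l 16776008) (l 16773872)) (a (l 16773440) (l 16773920))) (c (a (l 16774808) (l 16775272)) (a (l 16774864) (c (l 16774000) (l 16774024))))) (b (c (c (b (l 16773424) (l 16773464)) (a (l 16774264) (l 16773400))) (c (a (l 16773016) (l 16774768)) (a (l 16774400) (l 16774832)))) (c (c (a (l 16772312) (l 16772760)) (a (l 16772712) (c (l 16772144) (l 16772176)))) (c (a (c (l 16771784) (l 16771824)) (c (l 16772216) (l 16772248))) (a (c (l 16771864) (l 16772560)) (c (l 16772936) (l 16773128))))))))), by decide +kernel⟩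

def k19_pm_113_t : ∃ t, chk3 f_pm_113_t t 1018 511 1 = true :=
  ⟨(b (c (b (c (b (c (l 16777512) (l 16777848)) (a (l 16775704) (l 16778056))) (b (c (l 16778184) (l 16775904)) (a (l 16776104) (l 16778560)))) (b (a (b (l 16777528) (c (l 16777696) (l 16777808))) (c (l 16778600) (l 16778872))) (b (b (a (c (l 16777736) (l 16777792)) (l 16777704)) (a (l 16778888) (c (l 16777752) (l 16777824)))) (a (l 16778440) (a (l 16778808) (c (l 16778960) (l 16779008))))))) (b (c (b (c (l 16776256) (l 16776616)) (c (l 16776376) (l 16776616))) (c (b (l 16779592) (l 16776856)) (b (l 16779960) (l 16779728)))) (c (b (a (c (l 16777872) (l 16777968)) (l 16777848)) (b (a (c (l 16779016) (l 16779048)) (c (l 16777880) (l 16777928))) (a (l 16778520) (a (l 16778880) (l 16779056))))) (b (a (c (l 16778056) (l 16778152)) (l 16779448)) (b (a (c (l 16779088) (l 16779120)) (c (l 16777984) (l 16778040))) (a (l 16778576) (c (l 16778992) (l 16779024)))))))) (c (b (c (a (l 16774232) (l 16774728)) (a (l 16774960) (c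 (l 16774768) (l 16774792)))) (b (c (a (l 16773648) (l 16775424)) (a (l 16775040) (l 16775496))) (c (a (c (l 16772344) (l 16772392)) (c (l 16773456) (l 16773496))) (a (c (l 16773088) (l 16773144)) (a (l 16773448) (l 16773664)))))) (b (c (a (c (l 16774352) (l 16774392)) (c (l 16774824) (l 16776160))) (a (c (l 16775736) (a (l 16774352) (l 16774576))) (c (l 16776192) (a (l 16774800) (l 16775024))))) (c (a (b (c (l 16775112) (l 16775160)) (b (l 16773864) (c (l 16773528) (l 16772928)))) (b (c (l 16775552) (l 16775592)) (b (l 16774288) (c (l 16772640) (l 16773344))))) (a (c (b (l 16775208) (a (l 16772544) (l 16772744))) (b (l 16775256) (a (l 16772600) (l 16772800)))) (c (b (l 16775632) (a (l 16772952) (l 16774464))) (b (l 16775672) (a (l 16774312) (l 16774512))))))))), by decide +kernel⟩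

def k20_pm_113_t : ∃ t, chk3 f_pm_113_t t 1019 1022 1 = true :=
  ⟨(c (b (c (a (b (l 16777224) (l 16777752)) (b (c (l 16774024) (l 16774472)) (l 16776096))) (a (b (l 16778048) (l 16778352)) (b (l 16777792) (l 16778104)))) (b (c (a (l 16778304) (l 16777968)) (a (l 16778672) (l 16778432))) (a (a (b (l 16777584) (b (l 16779064) (a (l 16777752) (l 16777800)))) (c (l 16778808) (l 16778968))) (c (c (l 16778496) (l 16778608)) (l 16778128))))) (a (b (c (c (l 16778744) (l 16779120)) (c (l 16779496) (l 16779880))) (c (b (l 16779056) (a (b (l 16779160) (c (l 16777832) (l 16777864))) (l 16778480))) (b (l 16779448) (b (l 16779344) (c (l 16779216) (l 16779264)))))) (b (c (b (l 16778744) (l 16778824)) (c (l 16779432) (l 16779864))) (b (c (l 16778912) (l 16779416)) (c (l 16779024) (c (l 16779216) (l 16779344))))))), by decide +kernel⟩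

def k21_pm_113_t : ∃ t, chk3 f_pm_113_t t 1019 1023 1 = true :=
  ⟨(b (b (a (b (a (c (l 16778688) (l 16778760)) (c (c (l 16778856) (l 16778896)) (c (l 16778936) (l 16778984)))) (c (l 16778168) (c (l 16778232) (l 16778280)))) (b (b (c (c (l 16777616) (l 16777704)) (c (l 16778448) (l 16778544))) (c (c (a (l 16776320) (l 16777664)) (a (l 16776352) (l 16777720))) (c (a (l 16777704) (l 16777776)) (c (l 16779072) (l 16779096))))) (a (c (l 16778520) (a (l 16778536) (l 16778648))) (c (c (l 16778712) (l 16778744)) (c (l 16778776) (l 16778816)))))) (a (c (c (l 16777184) (l 16777232)) (c (l 16777280) (c (l 16777320) (l 16777352)))) (c (c (l 16777648) (l 16777680)) (c (l 16777720) (c (l 16777752) (l 16777776)))))) (a (b (c (c (l 16775888) (l 16775944)) (c (c (l 16775984) (l 16776016)) (c (l 16776056) (l 16774776)))) (b (c (c (l 16774904) (l 16774312)) (c (l 16774872) (c (l 16773776) (l 16774472)))) (a (c (c (l 16774136) (l 16774208)) (c (l 16773624) (a (l 16773656) (l 16773760)))) (l 14))))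 (b (a (b (c (l 16776576) (c (l 16776648) (l 16776696))) (l 14)) (l 14)) (l 14)))), by decide +kernel⟩

def k22_pm_113_t : ∃ t, chk3 f_pm_113_t t 510 508 1 = true :=
  ⟨(b (l 6) (a (l 6) (a (a (l 6) (a (l 6) (b (l 6) (c (l 16777312) (l 16779672))))) (c (c (a (l 16777200) (l 16777672)) (a (l 16778128) (l 16778376))) (c (c (l 16776264) (l 16776696)) (c (l 16779752) (l 16780200))))))), by decide +kernel⟩

def k23_pm_113_t : ∃ t, chk3 f_pm_113_t t 1020 509 1 = true :=
  ⟨(b (b (a (l 6) (a (l 6) (c (c (l 16772880) (l 16777232)) (c (l 16779016) (l 16780864))))) (c (a (c (l 16773552) (l 16774864)) (b (b (a (l 6) (a (a (l 6) (l 16773544)) (l 16773656))) (a (c (l 16776264) (l 16777968)) (a (c (a (l 16775368) (l 16773904)) (l 16775840)) (l 16774736)))) (c (a (l 16777016) (c (a (l 16775488) (a (b (l 16773520) (l 16775144)) (b (l 16774880) (l 16773592)))) (a (l 16776328) (b (l 16774424) (l 16774608))))) (a (l 16778560) (a (l 16777608) (b (l 16777072) (l 16775920))))))) (a (c (l 16776216) (l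 16777616)) (c (a (b (l 16776992) (l 16780152)) (a (b (l 16776392) (l 16779368)) (b (l 16778936) (l 16777688)))) (a (l 16779024) (c (l 16779216) (l 16781464))))))) (c (a (c (l 16776560) (l 16777224)) (b (b (c (a (l 16778024) (l 16773880)) (l 16776080)) (c (l 16775648) (l 16774240))) (c (l 16775840) (l 16775424)))) (a (c (l 16779224) (l 16781240)) (c (b (c (l 16774896) (l 16775584)) (l 16776344)) (c (l 16779336) (l 16779928)))))), by decide +kernel⟩

def k24_pm_113_t : ∃ t, chk3 f_pm_113_t t 2042 509 1 = true :=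
  ⟨(a (c (b (b (c (l 16775928) (l 16777440)) (c (b (l 16773088) (c (l 16772520) (l 16773328))) (c (l 16774192) (l 16775016)))) (b (b (a (a (c (c (b (l 16773680) (l 16775400)) (l 16774736)) (l 16776000)) (b (c (l 16772736) (l 16777064)) (c (a (l 16775536) (l 16774112)) (l 16777176)))) (c (c (b (l 16775128) (l 16773728)) (l 16774568)) (l 16775800))) (a (c (l 16776360) (l 16777864)) (b (a (c (l 16774280) (l 16777224)) (c (a (l 16774112) (l 16775432)) (l 16777072))) (c (l 16774568) (l 16777432))))) (c (c (l 16771944) (l 16777792)) (l 16776104)))) (b (c (b (l 16779000) (c (l 16778472) (l 16779320))) (c (l 16780184) (l 16781040))) (b (a (c (b (l 16777672) (l 16779424)) (l 16779600)) (c (b (l 16778800) (l 16777664)) (c (l 16780192) (l 16781056)))) (c (l 16777376) (l 16778688))))) (b (c (c (b (l 16776376) (l 16774768)) (b (l 16777664) (l 16777472))) (c (c (l 16775984) (l 16779312)) (l 16780392))) (c (b (a (a (b (l 16775112) (b (l 16773688) (c (a (l 16774184) (l 16772840)) (l 16777096))))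 (c (l 16773064) (l 16777200))) (c (l 16775856) (l 16777296))) (a (b (a (c (l 16773424) (l 16777528)) (b (c (a (l 16774264) (l 16774200)) (l 16777120)) (c (l 16775904) (l 16777392)))) (c (l 16776848) (l 16778144))) (b (b (c (l 16773008) (l 16777128)) (a (c (b (l 16774240) (l 16775680)) (l 16777160)) (c (l 16774280) (l 16777088)))) (b (c (a (l 16776024) (a (l 16775760) (a (l 16775656) (l 16774296)))) (l 16776040)) (c (l 16776336) (l 16777696)))))) (c (a (b (b (l 16778808) (l 16777432)) (b (l 16776360) (l 16779480))) (b (l 16778784) (b (a (l 16778712) (l 16778664)) (l 16776360)))) (b (b (l 16780384) (l 16778720)) (c (b (l 16780056) (l 16780312)) (l 16778352))))))), by decide +kernel⟩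

def k25_pm_113_t : ∃ t, chk3 f_pm_113_t t 2043 509 1 = true :=
  ⟨(c (c (b (b (c (l 16776840) (l 16777312)) (a (l 16776544) (l 16777032))) (b (a (c (l 16773280) (l 16773912)) (l 16775400)) (b (a (l 16774632) (l 16776440)) (a (a (a (c (b (l 16773952) (l 16774160)) (b (l 16773360) (l 16774856))) (a (c (b (l 16775352) (l 16773992)) (l 16775376)) (l 16774400))) (l 16773248)) (l 16776248))))) (b (b (l 16777384) (a (l 16777720) (l 16777984))) (a (b (l 16777488) (b (l 16777288) (a (b (l 16777120) (a (l 16777248) (l 16777104))) (l 16777216)))) (b (l 16777760) (l 16776184))))) (b (c (b (l 16779032) (l 16777632)) (c (l 16779800) (l 16780344))) (c (b (c (l 16778520) (l 16779128)) (a (a (b (l 16778672) (a (l 16777376) (l 16778592))) (l 16778648)) (l 16778688))) (b (c (l 16779744) (l 16780376)) (a (b (l 16780120) (c (l 16779736) (l 16780488))) (l 16779912)))))), by decide +kernel⟩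

def k26_pm_113_t : ∃ t, chk3 f_pm_113_t t 1022 508 1 = true :=
  ⟨(b (a (b (l 6) (b (l 6) (a (l 6) (c (c (l 16777568) (l 16777712)) (c (l 16777864) (l 16778680)))))) (a (b (l 6) (c (a (l 16777312) (l 16778048)) (c (l 16778432) (l 16778512)))) (c (b (l 16776616) (l 16777168)) (c (l 16777032) (c (l 16777112) (l 16777168)))))) (c (a (c (a (l 16778152) (c (l 16775968) (l 16776096))) (a (l 16778640) (c (l 16776232) (l 16776368)))) (a (a (b (c (c (l 16777624) (l 16777664)) (c (l 16777696) (l 16777736))) (c (l 16778952) (l 16779096))) (b (l 16778600) (c (b (l 16776304) (l 16777744)) (b (l 16776352) (l 16777808))))) (c (l 16777936) (l 16778000)))) (a (a (c (l 16777832) (l 16779008)) (c (c (l 16776504) (l 16776640)) (c (l 16776784) (l 16779552)))) (c (a (a (b (c (l 16777776) (l 16776504)) (l 16776616)) (b (l 16778688) (b (l 16776416) (l 16777880)))) (l 16776752)) (a (a (b (c (l 16776552) (l 16776592)) (l 16776768)) (b (l 16778752) (c (l 16779144) (l 16779184)))) (c (l 16778120) (l 16778160))))))),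 by decide +kernel⟩

def k27_pm_113_t : ∃ t, chk3 f_pm_113_t t 1022 509 1 = true :=
  ⟨(b (c (a (c (a (c (l 16777512) (l 16777848)) (b (l 16775704) (l 16778056))) (a (c (l 16778184) (l 16775904)) (b (l 16776104) (l 16778560)))) (a (a (c (l 16778600) (l 16777568)) (b (c (l 16777696) (l 16777808)) (l 16778848))) (a (a (b (c (l 16777736) (l 16777792)) (l 16777704)) (b (l 16778888) (c (l 16777752) (l 16777824)))) (b (l 16778440) (a (c (l 16778336) (l 16779040)) (l 16778792)))))) (a (c (a (c (l 16776256) (l 16776616)) (c (l 16776376) (l 16776616))) (c (a (l 16779592) (l 16776856)) (a (l 16779960) (l 16779728)))) (c (a (b (c (l 16777872) (l 16777968)) (l 16777848)) (a (b (c (l 16779016) (l 16779048)) (c (l 16777880) (l 16777928))) (b (l 16778520) (b (l 16778880) (l 16779056))))) (a (b (c (l 16778056) (l 16776840)) (l 16779448)) (a (b (c (l 16779088) (l 16779120)) (c (l 16777984) (l 16776728))) (b (l 16778576) (c (l 16778992) (l 16779024)))))))) (c (a (c (b (a (l 16777224) (l 16777752))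 (a (c (l 16774024) (l 16774472)) (l 16776096))) (b (a (l 16778048) (l 16778352)) (a (l 16777792) (l 16778104)))) (a (c (b (l 16778304) (l 16777968)) (b (l 16778672) (l 16778432))) (a (c (b (l 16778728) (l 16778400)) (b (l 16778928) (l 16778696))) (a (b (l 16777688) (l 16778728)) (b (b (a (l 16777808) (l 16777744)) (l 16777752)) (l 16778848)))))) (a (c (a (b (l 16778896) (l 16778744)) (b (l 16778968) (l 16778824))) (c (b (l 16779496) (l 16779432)) (a (l 16780000) (l 16779768)))) (c (b (a (l 16779056) (a (l 16779128) (a (l 16779168) (a (l 16777872) (l 16778480))))) (a (l 16778912) (l 16779024))) (a (c (l 16779320) (l 16779552)) (a (a (l 16779344) (l 16779312)) (b (c (l 16779216) (l 16779264)) (l 16777936)))))))), by decide +kernel⟩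

def k28_pm_113_t : ∃ t, chk3 f_pm_113_t t 1023 508 1 = true :=
  ⟨(a (b (c (a (c (l 16775656) (l 16775760)) (c (l 16774280) (c (l 16771920) (l 16774608)))) (c (c (b (l 16775016) (l 16775512)) (b (l 16775088) (l 16775576))) (c (b (l 16772536) (l 16773016)) (b (l 16773920) (l 16774392))))) (c (c (b (l 16773216) (l 16773736)) (b (l 16773968) (l 16774464))) (c (c (b (l 16776008) (l 16773872)) (b (l 16773440) (l 16773920))) (c (b (l 16774808) (l 16775272)) (b (l 16774864) (c (l 16774000) (l 16774024))))))) (a (c (b (b (c (l 16771656) (l 16771816)) (c (l 16772168) (l 16772304))) (b (c (l 16772672) (l 16772792)) (c (l 16773168) (l 16773264)))) (c (a (b (c (l 16772480) (l 16772552)) (c (l 16773424) (l 16773480))) (b (c (l 16772536) (l 16772944)) (c (l 16773464) (l 16774016)))) (b (c (b (l 16772112) (l 16772568)) (b (l 16772208) (l 16772648))) (c (b (l 16773016) (l 16774768)) (b (l 16774400) (l 16774832)))))) (c (b (c (c (b (l 16770392) (l 16770896)) (b (l 16770480) (l 16770968))) (c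 (b (l 16770568) (l 16771048)) (b (l 16770656) (l 16771128)))) (c (c (b (l 16771392) (l 16771872)) (b (l 16771456) (l 16771928))) (c (b (l 16771520) (l 16771984)) (b (l 16771584) (l 16772696))))) (b (c (c (b (l 16771400) (l 16771864)) (b (l 16771496) (l 16771944))) (c (b (c (l 16770912) (l 16770960)) (c (l 16771352) (l 16771400))) (b (c (l 16771016) (l 16771064)) (c (l 16771440) (l 16772144))))) (c (c (b (l 16772312) (l 16772760)) (b (l 16772712) (c (l 16772144) (l 16772176)))) (c (b (c (l 16771784) (l 16771824)) (c (l 16772216) (l 16772248))) (b (c (l 16771864) (l 16772560)) (c (l 16772936) (l 16772968))))))))), by decide +kernel⟩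

def k29_pm_113_t : ∃ t, chk3 f_pm_113_t t 1023 1018 1 = true :=
  ⟨(c (a (c (b (l 16774232) (l 16774728)) (b (l 16775280) (c (l 16774768) (l 16774792)))) (a (c (b (l 16773648) (l 16775424)) (b (l 16775040) (l 16775496))) (c (b (c (l 16772344) (l 16772392)) (c (l 16773456) (l 16773496))) (b (c (l 16773088) (l 16773144)) (b (l 16773448) (l 16773664)))))) (a (c (b (c (l 16774352) (l 16774392)) (c (l 16774824) (l 16776160))) (a (b (l 16777672) (l 16778136)) (b (a (l 16776768) (l 16774840)) (l 16776080)))) (c (b (a (c (l 16775112) (l 16775160)) (a (l 16773864) (c (l 16773528) (l 16772928)))) (a (c (l 16775552) (l 16775592)) (a (l 16774288) (c (l 16772640) (l 16773344))))) (b (c (a (l 16775208) (b (l 16772544) (l 16772744))) (a (l 16775256) (b (l 16772600) (l 16772800)))) (c (a (l 16775632) (b (l 16772952) (l 16774464))) (a (l 16775672) (a (l 16773416) (l 16773768)))))))), by decide +kernel⟩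

def k30_pm_113_t : ∃ t, chk3 f_pm_113_t t 1023 1019 1 = true :=
  ⟨(a (a (b (a (b (c (l 16778688) (l 16778760)) (c (c (l 16778856) (l 16778896)) (c (l 16778936) (l 16778984)))) (c (l 16778168) (c (l 16778232) (l 16778280)))) (a (a (c (c (l 16777616) (l 16777704)) (c (l 16777792) (l 16778544))) (c (c (b (l 16776320) (l 16777664)) (b (l 16776352) (l 16777720))) (c (a (l 16778752) (l 16779016)) (b (l 16779056) (l 16777840))))) (a (c (c (l 16778760) (l 16778792)) (c (l 16778832) (l 16778864))) (c (l 16778480) (c (l 16778528) (l 16778560)))))) (b (c (c (l 16777184) (l 16777232)) (c (l 16777280) (c (l 16777320) (l 16777352)))) (c (c (l 16777648) (l 16777680)) (c (l 16777720) (c (l 16777752) (l 16777776)))))) (b (a (c (c (l 16775888) (l 16774632)) (c (c (l 16775984) (l 16776016)) (c (l 16776056) (l 16774776)))) (a (c (c (l 16774904) (l 16774312)) (c (l 16774872) (c (l 16773776) (l 16774472)))) (b (c (c (l 16774136) (l 16774208)) (c (l 16773624) (a (l 16774528) (l 16773712)))) (l 14))))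 (a (a (a (c (l 16776192) (c (l 16776912) (l 16776960))) (l 14)) (l 14)) (l 14)))), by decide +kernel⟩

def k31_pm_113_t : ∃ t, chk3 f_pm_113_t t 510 510 4 = true :=
  ⟨(a (b (a (l 16778072) (l 16777896)) (b (a (c (l 16773280) (l 16773728)) (l 16776848)) (a (a (a (b (b (b (l 16776272) (l 16774608)) (a (l 16774760) (b (c (l 16774080) (l 16774768)) (l 16775752)))) (l 16776104)) (b (b (l 16776584) (b (l 16776024) (a (l 16774736) (a (l 16774448) (l 16775840))))) (c (l 16774376) (l 16773680)))) (a (b (l 16774088) (b (b (a (a (l 16774440) (l 16774472)) (l 16774600)) (l 16774512)) (l 16776024))) (b (l 16774592) (a (b (b (l 16776128) (a (l 16774824) (l 16774552))) (l 16775944)) (b (l 16774888) (a (l 16774584) (b (l 16775176) (l 16775936)))))))) (b (l 16775528) (a (b (l 16774200) (a (b (a (b (l 16775968) (l 16774544)) (l 16776120)) (b (a (l 16775864) (l 16774584)) (l 16774584))) (b (l 16776504) (c (l 16774552) (l 16775128))))) (l 16774832)))))) (b (a (b (c (l 16773280) (l 16773728)) (l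 16776848)) (b (a (b (b (a (a (l 16776272) (l 16774608)) (a (a (a (l 16774416) (l 16774376)) (l 16774384)) (l 16775784))) (a (l 16776584) (a (l 16776024) (b (l 16774736) (c (l 16774176) (l 16774840)))))) (c (l 16774072) (l 16774632))) (a (a (b (l 16774544) (b (b (a (l 16774464) (l 16775752)) (l 16774600)) (l 16776256))) (b (l 16775984) (b (l 16774512) (a (l 16774680) (b (l 16774480) (l 16773296)))))) (a (a (b (l 16776080) (c (b (l 16775616) (l 16774864)) (l 16775528))) (l 16776040)) (l 16774832)))) (a (c (l 16775664) (l 16773432)) (b (a (l 16774200) (b (a (a (l 16776096) (b (l 16774544) (l 16776024))) (a (b (l 16775864) (l 16774584)) (l 16774584))) (a (l 16776504) (c (l 16774552) (l 16775128))))) (l 16774832))))) (a (b (l 16777576) (b (l 16777896) (l 16776360))) (b (a (l 16777896) (l 16776200)) (l 16777872))))), by decide +kernel⟩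

def k32_pm_113_t : ∃ t, chk3 f_pm_113_t t 510 510 5 = true :=
  ⟨(b (a (a (l 16778952) (l 16779104)) (a (b (c (l 16774176) (l 16774640)) (l 16778608)) (a (b (a (c (l 16775792) (l 16775736)) (b (a (b (l 16775808) (l 16777352)) (b (l 16777136) (l 16775832))) (l 16775160))) (l 16776664)) (a (b (b (l 16775888) (a (b (l 16775872) (l 16777480)) (b (l 16777120) (l 16775912)))) (l 16775680)) (b (b (l 16777352) (c (l 16776216) (l 16776184))) (b (b (a (l 16775952) (l 16776472)) (l 16776168)) (l 16778048))))))) (a (b (a (c (l 16774176) (l 16774640)) (l 16778608)) (b (a (b (c (l 16775792) (l 16775736)) (a (a (b (l 16775808) (l 16777136)) (b (l 16777352) (l 16775832))) (l 16775160))) (l 16776664)) (b (a (a (l 16777200) (a (b (l 16775872) (l 16777120)) (b (l 16777480) (l 16775912)))) (l 16775680)) (a (a (l 16777352) (c (l 16776216) (l 16776184))) (a (a (b (l 16775952) (l 16776472)) (l 16776168)) (l 16778048)))))) (a (c (l 16776872) (l 16777640)) (c (l 16777016) (l 16777136))))), by decide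 +kernel⟩

def k33_pm_113_t : ∃ t, chk3 f_pm_113_t t 510 510 3 = true :=
  ⟨(c (b (a (a (l 16779840) (l 16779992)) (a (c (l 16775720) (l 16776080)) (a (b (b (a (l 16776376) (a (l 16777352) (l 16777232))) (l 16776656)) (l 16777488)) (a (b (b (l 16778528) (c (b (l 16778168) (l 16778328)) (l 16778936))) (l 16776688)) (b (c (l 16777528) (l 16778808)) (b (c (b (l 16778160) (l 16778360)) (l 16777592)) (l 16779064))))))) (a (b (c (l 16775720) (l 16776080)) (b (a (a (b (l 16776376) (a (l 16778552) (l 16777344))) (l 16776656)) (l 16777488)) (b (a (a (l 16778528) (a (l 16777200) (l 16778656))) (l 16776688)) (a (c (l 16777528) (l 16778808)) (a (c (a (l 16778160) (l 16778360)) (l 16778904)) (l 16779064)))))) (a (c (l 16777760) (l 16777880)) (c (l 16777256) (l 16778688))))) (b (a (c (l 16779088) (l 16779088)) (a (c (l 16776440) (l 16776816)) (b (a (c (b (l 16778576) (l 16780184)) (l 16779408)) (b (l 16778544) (a (l 16778640) (l 16778440)))) (a (l 16778344) (b (c (l 16778424) (l 16780336)) (l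 16777688)))))) (a (b (c (l 16776440) (l 16776816)) (a (b (c (a (l 16778576) (l 16780184)) (l 16778096)) (a (l 16778544) (b (l 16777328) (l 16778440)))) (b (l 16778344) (c (a (l 16778424) (l 16780056)) (l 16779152))))) (a (c (l 16779312) (l 16779440)) (c (l 16778808) (l 16778936)))))), by decide +kernel⟩

def k34_pm_113_t : ∃ t, chk3 f_pm_113_t t 1020 511 1 = true :=
  ⟨(a (b (c (b (c (b (c (a (l 16773712) (l 16774800)) (l 16776072)) (c (l 16775520) (l 16777216))) (b (c (l 16777240) (l 16777760)) (c (l 16777616) (l 16778024)))) (c (b (c (l 16777456) (l 16777728)) (c (l 16778104) (l 16778264))) (b (c (l 16778016) (l 16778304)) (c (l 16778432) (l 16778600))))) (b (b (c (l 16777248) (l 16779648)) (c (l 16778640) (l 16779488))) (b (c (l 16778736) (l 16779344)) (c (c (l 16778768) (l 16778944)) (c (l 16776504) (l 16779304)))))) (b (b (b (c (c (l 16778640) (l 16778792)) (c (l 16778960) (l 16777816))) (l 14)) (l 14)) (l 14))) (b (a (b (c (b (a (c (l 16774896) (l 16777296)) (b (a (b (c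 (l 16774608) (l 16777112)) (l 16775304)) (b (c (b (l 16774672) (l 16774600)) (l 16777144)) (l 16775256))) (c (l 16776232) (l 16777288)))) (c (c (l 16775176) (l 16774296)) (l 16777576))) (c (b (b (c (l 16777424) (l 16778680)) (l 16778408)) (l 16778480)) (b (c (l 16779264) (l 16779864)) (l 16779408)))) (b (c (c (l 16777280) (l 16777920)) (c (l 16778584) (l 16779264))) (l 14))) (b (a (c (b (b (b (c (l 16774944) (l 16777376)) (a (c (c (l 16775096) (l 16774928)) (l 16777112)) (c (b (l 16776088) (l 16775312)) (l 16777184)))) (c (c (l 16775848) (l 16776376)) (l 16777200))) (c (l 16775224) (l 16777448))) (c (b (b (a (l 16777088) (l 16778488)) (l 16778320)) (l 16778384)) (b (c (l 16778296) (l 16779872)) (l 16779360)))) (b (b (c (c (l 16775248) (l 16777600)) (c (l 16778672) (l 16779776))) (a (a (b (b (c (c (l 16774656) (l 16777104)) (l 16777568)) (l 14)) (l 14)) (l 14)) (l 14))) (l 14))) (l 14))) (l 14))), by decide +kernel⟩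

def k35_pm_113_t : ∃ t, chk3 f_pm_113_t t 1021 511 1 = true :=
  ⟨(a (a (a (b (b (b (b (b (c (l 16776392) (l 16778240)) (l 14)) (l 14)) (l 14)) (l 14)) (l 14)) (l 14)) (l 14)) (l 14)), by decide +kernel⟩

def k36_pm_113_t : ∃ t, chk3 f_pm_113_t t 511 1020 1 = true :=
  ⟨(b (a (c (b (a (c (a (l 16776576) (l 16777120)) (a (l 16777576) (l 16777896))) (c (a (l 16777688) (l 16778280)) (a (l 16778232) (l 16778584)))) (a (a (c (c (l 16774800) (l 16774008)) (l 16777416)) (c (l 16776920) (l 16777736))) (c (a (l 16777488) (l 16778088)) (a (l 16778080) (l 16778440))))) (a (a (c (l 16777248) (l 16779648)) (c (l 16778640) (l 16779488))) (a (c (l 16778736) (l 16779344)) (c (c (l 16778768) (l 16778944)) (c (l 16776504) (l 16779304)))))) (a (a (a (c (c (l 16778640) (l 16778792)) (c (l 16778960) (l 16777816))) (l 14)) (l 14)) (l 14))) (a (b (a (c (a (b (c (l 16774896) (l 16777296)) (a (b (c (a (l 16774608) (l 16776048)) (l 16777144)) (a (c (a (l 16774672) (l 16774600)) (l 16777144)) (l 16775256)))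 (c (l 16776232) (l 16777288)))) (c (c (l 16775176) (l 16774296)) (l 16777576))) (c (a (a (c (l 16777424) (l 16778680)) (l 16778408)) (l 16778480)) (a (c (l 16779264) (l 16779864)) (l 16779408)))) (a (c (c (l 16775968) (l 16777920)) (c (l 16778584) (l 16779264))) (l 14))) (a (b (a (c (a (a (c (l 16774944) (l 16777376)) (a (c (b (l 16775280) (l 16776088)) (l 16777176)) (b (l 16775232) (c (l 16775312) (l 16777120))))) (c (c (l 16774536) (l 16776376)) (l 16777200))) (a (c (a (l 16778528) (l 16778352)) (l 16779656)) (c (l 16778320) (l 16779472)))) (c (c (l 16775224) (l 16777448)) (c (l 16778384) (l 16779360)))) (a (a (c (c (l 16775248) (l 16777600)) (c (l 16778672) (l 16779776))) (a (a (a (c (c (l 16774832) (l 16777240)) (c (l 16778384) (l 16779552))) (l 14)) (l 14)) (l 14))) (l 14))) (l 14))) (l 14))), by decide +kernel⟩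

def k37_pm_113_t : ∃ t, chk3 f_pm_113_t t 511 1021 1 = true :=
  ⟨(b (b (b (a (a (a (a (a (c (l 16776392) (l 16778240)) (l 14)) (l 14)) (l 14)) (l 14)) (l 14)) (l 14)) (l 14)) (l 14)), by decide +kernel⟩

def k38_pm_113_t : ∃ t, chk3 f_pm_113_t t 511 511 1 = true :=
  ⟨(l 14), by decide +kernel⟩

theorem s39_pm_113_t : ∃ t, chk3 f_pm_113_t t 511 510 1 = true := ex3_b k36_pm_113_t k37_pm_113_t

theorem s40_pm_113_t : ∃ t, chk3 f_pm_113_t t 511 255 1 = true := ex3_b s39_pm_113_t k38_pm_113_t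

theorem s41_pm_113_t : ∃ t, chk3 f_pm_113_t t 510 511 1 = true := ex3_a k34_pm_113_t k35_pm_113_t

theorem s42_pm_113_t : ∃ t, chk3 f_pm_113_t t 510 510 2 = true := ex3_c k31_pm_113_t k32_pm_113_t

theorem s43_pm_113_t : ∃ t, chk3 f_pm_113_t t 510 510 1 = true := ex3_c s42_pm_113_t k33_pm_113_t

theorem s44_pm_113_t : ∃ t, chk3 f_pm_113_t t 510 255 1 = true := ex3_b s43_pm_113_t s41_pm_113_t

theorem s45_pm_113_t : ∃ t, chk3 f_pm_113_t t 255 255 1 = true := ex3_a s44_pm_113_t s40_pm_113_t

theorem s46_pm_113_t : ∃ t, chk3 f_pm_113_t t 1023 509 1 = true := ex3_b k29_pm_113_t k30_pm_113_t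

theorem s47_pm_113_t : ∃ t, chk3 f_pm_113_t t 1023 254 1 = true := ex3_b k28_pm_113_t s46_pm_113_t

theorem s48_pm_113_t : ∃ t, chk3 f_pm_113_t t 1022 254 1 = true := ex3_b k26_pm_113_t k27_pm_113_t

theorem s49_pm_113_t : ∃ t, chk3 f_pm_113_t t 511 254 1 = true := ex3_a s48_pm_113_t s47_pm_113_t

theorem s50_pm_113_t : ∃ t, chk3 f_pm_113_t t 1021 509 1 = true := ex3_a k24_pm_113_t k25_pm_113_t

theorem s51_pm_113_t : ∃ t, chk3 f_pm_113_t t 510 509 1 = true := ex3_a k23_pm_113_t s50_pm_113_t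

theorem s52_pm_113_t : ∃ t, chk3 f_pm_113_t t 510 254 1 = true := ex3_b k22_pm_113_t s51_pm_113_t

theorem s53_pm_113_t : ∃ t, chk3 f_pm_113_t t 255 254 1 = true := ex3_a s52_pm_113_t s49_pm_113_t

theorem s54_pm_113_t : ∃ t, chk3 f_pm_113_t t 255 127 1 = true := ex3_b s53_pm_113_t s45_pm_113_t

theorem s55_pm_113_t : ∃ t, chk3 f_pm_113_t t 1019 511 1 = true := ex3_b k20_pm_113_t k21_pm_113_t

theorem s56_pm_113_t : ∃ t, chk3 f_pm_113_t t 509 511 1 = true := ex3_a k19_pm_113_t s55_pm_113_t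

theorem s57_pm_113_t : ∃ t, chk3 f_pm_113_t t 508 511 1 = true := ex3_b k17_pm_113_t k18_pm_113_t

theorem s58_pm_113_t : ∃ t, chk3 f_pm_113_t t 254 511 1 = true := ex3_a s57_pm_113_t s56_pm_113_t

theorem s59_pm_113_t : ∃ t, chk3 f_pm_113_t t 509 1021 1 = true := ex3_b k15_pm_113_t k16_pm_113_t

theorem s60_pm_113_t : ∃ t, chk3 f_pm_113_t t 509 510 1 = true := ex3_b k14_pm_113_t s59_pm_113_t

theorem s61_pm_113_t : ∃ t, chk3 f_pm_113_t t 254 510 1 = true := ex3_a k13_pm_113_t s60_pm_113_t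

theorem s62_pm_113_t : ∃ t, chk3 f_pm_113_t t 254 255 1 = true := ex3_b s61_pm_113_t s58_pm_113_t

theorem s63_pm_113_t : ∃ t, chk3 f_pm_113_t t 254 127 1 = true := ex3_b k12_pm_113_t s62_pm_113_t

theorem s64_pm_113_t : ∃ t, chk3 f_pm_113_t t 127 127 1 = true := ex3_a s63_pm_113_t s54_pm_113_t

theorem s65_pm_113_t : ∃ t, chk3 f_pm_113_t t 127 63 1 = true := ex3_b k11_pm_113_t s64_pm_113_t

theorem s66_pm_113_t : ∃ t, chk3 f_pm_113_t t 63 63 1 = true := ex3_a k10_pm_113_t s65_pm_113_t

theorem s67_pm_113_t : ∃ t, chk3 f_pm_113_t t 63 31 1 = true := ex3_b k9_pm_113_t s66_pm_113_t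

theorem s68_pm_113_t : ∃ t, chk3 f_pm_113_t t 31 31 1 = true := ex3_a k8_pm_113_t s67_pm_113_t

theorem s69_pm_113_t : ∃ t, chk3 f_pm_113_t t 31 15 1 = true := ex3_b k7_pm_113_t s68_pm_113_t

theorem s70_pm_113_t : ∃ t, chk3 f_pm_113_t t 15 15 1 = true := ex3_a k6_pm_113_t s69_pm_113_t

theorem s71_pm_113_t : ∃ t, chk3 f_pm_113_t t 15 7 1 = true := ex3_b k5_pm_113_t s70_pm_113_t

theorem s72_pm_113_t : ∃ t, chk3 f_pm_113_t t 7 7 1 = true := ex3_a k4_pm_113_t s71_pm_113_t

theorem s73_pm_113_t : ∃ t, chk3 f_pm_113_t t 7 3 1 = true := ex3_b k3_pm_113_t s72_pm_113_t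

theorem s74_pm_113_t : ∃ t, chk3 f_pm_113_t t 3 3 1 = true := ex3_a k2_pm_113_t s73_pm_113_t

theorem s75_pm_113_t : ∃ t, chk3 f_pm_113_t t 3 1 1 = true := ex3_b k1_pm_113_t s74_pm_113_t

theorem s76_pm_113_t : ∃ t, chk3 f_pm_113_t t 1 1 1 = true := ex3_a k0_pm_113_t s75_pm_113_t

theorem c_pm_113_t : CertNE 536870912 536870912 536870912 536870912 991146299 28908434 3 eng mog cd0q1 cd0q1 pd3 true true false .nn 1 1 3
    ndB0q1 ndB0q1 pcB3 cut_pm_113_t Ext.none :=
  certNE0 (fam := true) (s1 := true) (s2 := false) (a := 1) (b := 1) (c := 3) (cn := .nn) (n1 := ndB0q1) (n2 := ndB0q1) (pc := pcB3) (cut := cut_pm_113_t) (xt := Ext.none) (P1 := 536870912) (W1 := 536870912) (P2 := 536870912) (W2 := 536870912) (P3 := 991146299) (W3 := 28908434) (N0 := 3) (En := eng) (mo := mog) (C1 := cd0q1) (C2 := cd0q1) (C3 := pd3)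
    rfl s76_pm_113_t

noncomputable def cut_pm_123_s : Cut := Cut.of [[⟨4, 0, 0, 1449551462⟩], [⟨0, 1, 0, 37748736⟩, ⟨1, 1, 0, 37748736⟩, ⟨2, 2, 0, 5242880⟩], [⟨0, 0, 1, 46137344⟩, ⟨1, 1, 0, 2097152⟩, ⟨2, 1, 1, 46137344⟩, ⟨0, 0, 0, 1027248803⟩, ⟨0, 1, 0, 87939455⟩, ⟨2, 1, 0, 1027248803⟩, ⟨2, 2, 0, 87939455⟩]]

noncomputable def f_pm_123_s : ℕ → ℕ → ℕ → ℕ → Bool := onCell 536870912 536870912 0 536870912 991146299 28908434
    (rowNE 3 eng mog cd0q1 cd0q2 pd3 0 true true false .npn 1 2 3 (qsf 536870912 536870912 0 536870912 3) ndB0q1 ndB0q2 pcB3 cut_pm_123_s Ext.none)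

def k0_pm_123_s : ∃ t, chk3 f_pm_123_s t 1 1 1 = true :=
  ⟨(l 6), by decide +kernel⟩

theorem c_pm_123_s : CertNE 536870912 536870912 0 536870912 991146299 28908434 3 eng mog cd0q1 cd0q2 pd3 true true false .npn 1 2 3
    ndB0q1 ndB0q2 pcB3 cut_pm_123_s Ext.none :=
  certNE0 (fam := true) (s1 := true) (s2 := false) (a := 1) (b := 2) (c := 3) (cn := .npn) (n1 := ndB0q1) (n2 := ndB0q2) (pc := pcB3) (cut := cut_pm_123_s) (xt := Ext.none) (P1 := 536870912) (W1 := 536870912) (P2 := 0) (W2 := 536870912) (P3 := 991146299) (W3 := 28908434) (N0 := 3) (En := eng) (mo := mog) (C1 := cd0q1) (C2 := cd0q2) (C3 := pd3)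
    rfl k0_pm_123_s

end Pool.Agent.Strip051.G.I9231_9500.Tab.CS.BA00

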