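import Pool.Agent.Strip051.G.I9231_9500.Tab
import Pool.Agent.Strip051.PB.StripB

/-! # Strips, near vertex: certificates 3 (generated) -/

set_option linter.all false
set_option maxRecDepth 100000

namespace Pool.Agent.Strip051.G.I9231_9500.Tab.CS.BA00

open Pool.Agent.Strip051.PB Pool.Agent.Strip051.PB.T
open Pool.Agent.Strip051.G.I9231_9500.Tab

noncomputable def cut_pm_123_t : Cut := Cut.of [[⟨3, 0, 0, 3194381926⟩], [⟨0, 1, 0, 37748736⟩, ⟨1, 1, 0, 37748736⟩, ⟨2, 2, 0, 5242880⟩], [⟨0, 0, 1, 46137344⟩, ⟨1, 1, 0, 2097152⟩, ⟨2, 1, 1, 46137344⟩, ⟨0, 0, 0, 1027248803⟩, ⟨0, 1, 0, 87939455⟩, ⟨2, 1, 0, 1027248803⟩, ⟨2, 2, 0, 87939455⟩]]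

noncomputable def f_pm_123_t : ℕ → ℕ → ℕ → ℕ → Bool := onCell 1610612736 536870912 0 536870912 991146299 28908434
    (rowNE 3 eng mog cd0q1 cd0q2 pd3 2 true true false .npn 1 2 3 (qsf 536870912 536870912 0 536870912 3) ndB0q1 ndB0q2 pcB3 cut_pm_123_t Ext.none)

def k0_pm_123_t : ∃ t, chk3 f_pm_123_t t 2 1 1 = true :=
  ⟨(b (a (l 6) (a (l 6) (b (b (a (a (l 6) (b (c (l 16685512) (l 16678832)) (l 6))) (a (b (c (l 16725304) (l 16721664)) (l 6)) (b (b (a (l 16769336) (l 16750456)) (l 16744432)) (a (l 6) (l 16675376))))) (l 6)) (l 6)))) (l 6)), by decide +kernel⟩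

def k1_pm_123_t : ∃ t, chk3 f_pm_123_t t 6 2 1 = true :=
  ⟨(a (b (b (a (b (a (b (l 4) (a (l 16770176) (l 16750216))) (l 4)) (a (c (l 16729056) (l 16725952)) (c (b (l 16748832) (l 16750248)) (b (l 85060431191) (l 16748576))))) (a (b (l 4) (b (l 4) (a (l 16773472) (l 16748592)))) (l 4))) (a (a (l 6) (b (c (l 16696656) (l 16670712)) (l 6))) (a (b (c (l 16736816) (l 16734416)) (l 6)) (b (a (b (l 16752240) (l 16749432)) (b (l 16746976) (l 16767328))) (c (l 16709032) (l 16705088)))))) (l 6)) (b (b (l 4) (b (a (a (a (b (l 4) (l 108682758151)) (l 4)) (l 4)) (l 4)) (a (a (a (l 16738680) (b (l 16751144) (l 16742832))) (a (b (l 118346430647) (l 16762568)) (b (l 4) (l 106535263751)))) (l 4)))) (b (b (a (a (l 6) (c (l 16726040) (l 16722560))) (a (a (b (l 16759296) (l 16740176)) (b (l 119420173063) (l 16760928))) (a (c (l 93113476775) (l 93650347255)) (l 4)))) (a (l 6) (a (c (l 16704584) (l 16698520)) (a (l 16735224) (c (l 16756800) (l 16754880)))))) (a (l 6) (l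 6))))), by decide +kernel⟩

def k2_pm_123_t : ∃ t, chk3 f_pm_123_t t 7 2 1 = true :=
  ⟨(b (l 4) (a (a (b (a (b (l 4) (a (b (l 124252005783) (l 28689013671)) (c (l 92576597271) (l 93113466423)))) (l 4)) (b (a (a (c (l 16719624) (l 16713232)) (c (l 16741984) (l 16737832))) (a (b (c (l 16753280) (l 16774136)) (l 16748160)) (b (a (l 16752624) (l 4)) (a (l 16765568) (l 16764448))))) (a (l 6) (a (b (l 16716416) (l 6)) (c (l 16728536) (l 16721928)))))) (b (l 4) (a (b (a (b (l 4) (a (l 96334729959) (l 4))) (l 4)) (b (a (a (l 16759856) (l 16760664)) (a (l 78081122359) (l 120493912183))) (a (l 16735160) (a (l 16754704) (l 16767184))))) (b (l 4) (a (b (l 4) (a (c (l 16774064) (l 16773872)) (l 106535270103))) (l 4)))))) (l 4))), by decide +kernel⟩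

def k3_pm_123_t : ∃ t, chk3 f_pm_123_t t 6 3 1 = true :=
  ⟨(l 6), by decide +kernel⟩

def k4_pm_123_t : ∃ t, chk3 f_pm_123_t t 14 6 1 = true :=
  ⟨(a (l 6) (b (a (a (l 6) (b (c (l 16718280) (l 16709056)) (l 6))) (b (c (a (b (l 16758664) (l 16729872)) (b (a (l 16774904) (l 16748072)) (l 16756568))) (a (b (l 16755624) (l 16721904)) (b (a (l 16774760) (l 16747648)) (l 16752864)))) (a (l 6) (b (a (l 16715712) (l 16730896)) (l 6))))) (l 6))), by decide +kernel⟩

def k5_pm_123_t : ∃ t, chk3 f_pm_123_t t 15 6 1 = true :=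
  ⟨(b (a (a (b (a (b (l 4) (a (b (l 114588352279) (l 16769176)) (b (l 4) (l 117272705991)))) (l 4)) (b (a (a (l 16746248) (c (l 16763008) (l 16760104))) (a (c (b (l 16772520) (l 16770336)) (l 66806812567)) (c (l 125862617959) (l 131768196455)))) (a (c (l 16748640) (l 16738264)) (a (l 16767872) (c (l 16764536) (l 16761584)))))) (a (b (l 4) (b (l 4) (a (c (b (l 131231344839) (l 16772504)) (b (l 136600052759) (l 16771376))) (a (b (l 4) (l 16761592)) (l 4))))) (l 4))) (l 4)) (a (a (b (a (l 6) (b (a (l 16715608) (l 16753720)) (l 6))) (l 6)) (a (a (b (b (c (l 16753200) (l 16746904)) (c (l 16726968) (l 16712696))) (l 6)) (b (b (b (a (l 16770456) (l 16764584)) (l 16760224)) (c (l 16743192) (l 16732872))) (b (c (l 16718952) (l 16699280)) (l 6)))) (b (a (b (c (a (l 82376088823) (l 151632429207)) (a (l 83986699047) (l 154853653399))) (c (l 16759296) (l 16753464))) (b (l 4) (a (b (l 68954336599) (l 16763232)) (b (l 162906732599) (l 16772016))))) (a (b (c (l 16735976)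 (l 16720824)) (l 6)) (b (c (l 16752536) (l 16742576)) (c (l 16733104) (l 16711960))))))) (a (a (b (a (b (l 4) (b (l 4) (a (l 109219646855) (l 4)))) (l 4)) (a (b (b (a (l 16768120) (c (l 16754616) (l 16754520))) (l 16770512)) (c (l 16749736) (l 16755704))) (b (a (b (l 185455307847) (b (l 16754864) (l 16770704))) (b (l 4) (b (l 4) (l 122104555943)))) (a (l 16756416) (b (l 16770776) (l 16760344)))))) (b (l 4) (b (l 4) (a (a (b (a (l 107609032503) (l 153243063127)) (l 16769056)) (b (l 4) (a (l 16764272) (l 137673810135)))) (a (b (l 4) (a (l 229478727447) (l 4))) (l 4)))))) (l 4)))), by decide +kernel⟩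

def k6_pm_123_t : ∃ t, chk3 f_pm_123_t t 14 7 1 = true :=
  ⟨(l 6), by decide +kernel⟩

def k7_pm_123_t : ∃ t, chk3 f_pm_123_t t 30 14 1 = true :=
  ⟨(a (l 6) (l 6)), by decide +kernel⟩

def k8_pm_123_t : ∃ t, chk3 f_pm_123_t t 62 14 1 = true :=
  ⟨(a (b (b (a (c (l 16736920) (l 16708128)) (c (l 16753040) (l 16731696))) (a (l 6) (b (c (l 16750560) (l 16716488)) (l 6)))) (l 6)) (b (a (b (a (l 16766536) (b (l 16768272) (l 16761104))) (c (a (l 16762616) (l 16768696)) (a (l 16730480) (l 16741808)))) (b (a (b (a (l 16773824) (b (l 16763392) (l 16775440))) (l 16768712)) (b (a (l 186529055927) (l 4)) (a (l 16773696) (b (l 168812329495) (l 16775272))))) (a (b (l 16764064) (l 16762808)) (b (l 16770552) (l 16769176))))) (b (a (b (a (l 6) (b (l 16756928) (a (l 6) (l 16761880)))) (l 6)) (b (a (l 16766120) (l 16772424)) (a (b (a (l 16765344) (l 16772400)) (a (l 6) (l 16761056))) (a (c (l 16772312) (l 16757432)) (l 16772952))))) (a (l 6) (a (l 6) (b (b (a (l 16771848)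 (b (l 16772080) (l 16771800))) (l 16771976)) (l 16766832))))))), by decide +kernel⟩

def k9_pm_123_t : ∃ t, chk3 f_pm_123_t t 126 14 1 = true :=
  ⟨(b (a (b (a (b (l 4) (a (b (l 4) (l 164517362439)) (l 4))) (l 4)) (a (b (a (l 16774496) (b (l 165054233335) (l 16775848))) (l 16773912)) (b (a (b (l 4) (c (l 16764832) (l 175254780647))) (l 4)) (a (l 16776192) (b (c (l 16768640) (l 185455327719)) (l 16777000)))))) (b (l 4) (a (b (l 4) (a (b (l 4) (c (l 184918455703) (l 198877099255))) (l 4))) (l 4)))) (a (a (b (b (l 16754040) (l 16763248)) (b (b (a (l 16762168) (l 16772984)) (a (l 16771848) (c (l 16772008) (l 16751888)))) (c (l 16771560) (l 16772928)))) (c (b (b (l 16775888) (l 16774688)) (b (l 16763192) (b (a (l 16771864) (l 16772880)) (l 16771744)))) (b (b (l 16772056) (l 16774280)) (b (a (l 16773880) (l 16774216)) (b (a (l 16751704) (l 16752576)) (l 16751704)))))) (b (a (b (a (b (l 16766640) (l 16776512)) (b (c (l 204245806551) (l 219278191895)) (c (l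 16777272) (l 16776584)))) (a (l 16775768) (l 16776328))) (b (a (a (b (l 4) (l 212835747047)) (l 4)) (l 4)) (a (b (c (l 16766960) (l 94187279351)) (l 16776624)) (a (b (l 259006642215) (l 16777160)) (b (l 4) (c (l 16765432) (l 16770624))))))) (a (b (a (l 16774616) (l 16775272)) (a (b (l 16773632) (c (l 16762336) (b (l 16773656) (l 16773136)))) (c (l 16774032) (l 16774488)))) (a (b (l 16775904) (l 16764312)) (b (l 16773888) (c (l 16775400) (l 16775632)))))))), by decide +kernel⟩

def k10_pm_123_t : ∃ t, chk3 f_pm_123_t t 127 14 1 = true :=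
  ⟨(a (b (l 4) (a (b (a (a (a (b (l 4) (l 653606747191)) (l 4)) (l 4)) (l 4)) (b (a (b (c (a (l 16777136) (l 250953579815)) (a (l 16766608) (l 271354674295))) (c (l 16776904) (l 16776960))) (b (l 4) (a (a (l 16771424) (l 255785421511)) (a (l 398593079735) (l 4))))) (b (a (l 16776416) (a (l 16776872) (a (l 16777272) (a (l 16766376) (l 16772296))))) (a (l 16775936) (l 16773976))))) (b (l 4) (b (l 4) (a (a (a (b (l 291218900487) (l 16776984)) (b (l 4) (l 16773336))) (b (l 4) (a (b (l 16769736) (l 16777128)) (b (l 4) (l 16771608))))) (l 4)))))) (l 4)), by decide +kernel⟩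

def k11_pm_123_t : ∃ t, chk3 f_pm_123_t t 30 15 1 = true :=
  ⟨(l 6), by decide +kernel⟩

def k12_pm_123_t : ∃ t, chk3 f_pm_123_t t 62 15 1 = true :=
  ⟨(l 6), by decide +kernel⟩

def k13_pm_123_t : ∃ t, chk3 f_pm_123_t t 126 30 1 = true :=
  ⟨(b (a (b (c (l 16766064) (a (l 16773016) (l 16773016))) (a (l 6) (c (l 16770424) (b (l 16772496) (l 16771856))))) (b (a (b (a (l 16772848) (b (c (l 16773072) (l 16752640)) (l 16762408))) (l 16772680)) (a (b (c (l 16773896) (l 16769096)) (b (c (l 16751960) (a (l 16773344) (l 16773656))) (l 16773032))) (b (l 16774600) (a (b (l 16773840) (c (l 16773096) (l 16773496))) (l 16763640))))) (a (c (l 16771256) (b (l 16772664) (l 16772136))) (b (a (l 16772656) (b (c (l 16772760) (a (l 16773312) (l 16773376))) (l 16772944))) (c (l 16771968) (l 16772688)))))) (a (a (l 6) (b (c (l 16763480) (b (l 16771184) (l 6))) (l 6))) (b (c (a (b (l 16770152) (l 16769552)) (b (l 16771432) (l 16770952))) (a (b (l 16771584) (l 16771168))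 (b (l 16772320) (l 16772008)))) (c (a (b (l 16769128) (l 16769016)) (b (l 16770624) (l 16770568))) (a (b (l 16770960) (l 16768456)) (b (l 16771856) (a (l 16771768) (l 16772304)))))))), by decide +kernel⟩

def k14_pm_123_t : ∃ t, chk3 f_pm_123_t t 252 31 1 = true :=
  ⟨(l 6), by decide +kernel⟩

def k15_pm_123_t : ∃ t, chk3 f_pm_123_t t 253 62 1 = true :=
  ⟨(b (a (a (l 6) (c (b (l 16769592) (l 16769952)) (b (l 16771744) (l 16772368)))) (c (b (l 16768128) (a (l 16770696) (l 16771448))) (b (a (l 16772192) (l 16772696)) (a (l 16772768) (l 16773192))))) (a (l 6) (a (c (b (l 16771048) (l 16771408)) (b (l 16773376) (c (l 16773320) (l 16774648)))) (c (b (l 16771720) (l 16771992)) (b (l 16773688) (c (l 16773632) (l 16774768))))))), by decide +kernel⟩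

def k16_pm_123_t : ∃ t, chk3 f_pm_123_t t 506 63 1 = true :=
  ⟨(l 6), by decide +kernel⟩

def k17_pm_123_t : ∃ t, chk3 f_pm_123_t t 1014 63 1 = true :=
  ⟨(b (b (c (c (l 16765832) (l 16772448)) (c (l 16773856) (l 16775320))) (l 6)) (l 6)), by decide +kernel⟩

def k18_pm_123_t : ∃ t, chk3 f_pm_123_t t 1015 126 1 = true :=
  ⟨(b (c (c (l 16766432) (l 16772848)) (c (l 16774064) (l 16775320))) (c (b (a (l 16772336) (l 16772560)) (b (l 16772536) (c (b (l 16766704) (l 16769280)) (b (l 16768024) (l 16773208))))) (b (c (l 16774384) (l 16775728)) (b (c (l 16774536) (l 16775928)) (c (b (l 16774632) (l 16774560)) (b (l 16776048) (a (l 16775944) (l 16776008)))))))), by decide +kernel⟩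

def k19_pm_123_t : ∃ t, chk3 f_pm_123_t t 1015 127 1 = true :=
  ⟨(b (c (c (b (b (l 16769168) (l 16768984)) (b (l 16770112) (l 16770584))) (b (b (l 16773008) (l 16770072)) (b (l 16769752) (l 16771400)))) (c (b (b (l 16774272) (l 16773816)) (b (l 16773360) (l 16772896))) (b (c (l 16774968) (l 16775592)) (b (l 16774376) (a (l 16773648) (l 16773912)))))) (b (c (c (a (b (l 16770840) (l 16769328)) (b (l 16771264) (l 16769776))) (b (c (l 16770248) (l 16770592)) (c (l 16770368) (l 16770728)))) (c (a (b (l 16769648) (l 16771136)) (b (l 16769992) (l 16771512))) (b (c (l 16771680) (l 16773368)) (c (b (l 16769944) (l 16770968)) (b (l 16770264) (l 16771256)))))) (a (a (l 6) (b (c (c (a (l 16770496) (l 16770608)) (l 16769664)) (c (l 16770600) (c (l 16771760) (l 16772000)))) (a (l 6) (c (c (c (l 16770344) (l 16770480)) (c (l 16770624) (l 16770768))) (c (c (l 16770920) (l 16769768)) (c (l 16769920) (l 16770416))))))) (c (c (b (b (l 16770952) (a (l 16770744) (l 16770976)))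 (c (b (l 16770696) (c (l 16770592) (l 16770648))) (b (l 16770840) (c (l 16770704) (l 16770768))))) (b (c (l 16769888) (l 16770096)) (b (c (l 16770992) (l 16771144)) (c (c (l 16770824) (l 16770880)) (c (l 16770944) (l 16771008)))))) (c (a (b (l 16770800) (c (l 16769864) (l 16770176))) (b (l 16771000) (c (l 16770000) (l 16770472)))) (b (c (l 16770736) (l 16770960)) (c (b (l 16770320) (c (l 16771328) (l 16770080))) (b (l 16770496) (c (l 16770152) (l 16770544)))))))))), by decide +kernel⟩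

def k20_pm_123_t : ∃ t, chk3 f_pm_123_t t 254 30 1 = true :=
  ⟨(a (b (b (a (c (l 16753872) (l 16769824)) (c (l 16770440) (b (l 16776160) (l 16775520)))) (a (b (a (b (l 16763352) (b (l 16773320) (l 16773280))) (c (l 16774056) (l 16763848))) (b (c (l 16772880) (l 16762736)) (l 16773096))) (b (c (l 16774600) (l 16774784)) (c (a (b (l 16773864) (l 16773304)) (l 16769104)) (a (b (l 16753136) (l 16773568)) (b (l 16774480) (l 16769008))))))) (b (a (c (l 16772352) (l 16770336)) (b (c (l 16767864) (a (l 16773552) (l 16768424))) (l 16768008))) (c (b (l 16772312) (l 16767056)) (b (a (l 16772744) (l 16773400)) (a (l 16772912) (l 16773552)))))) (b (b (b (a (a (l 16776624) (c (l 16777008) (l 16777040))) (a (a (b (l 291218906343) (l 16777136)) (b (l 4) (l 253637943239))) (l 4))) (a (c (l 16776232) (l 16776320)) (a (l 16776872) (a (b (l 16773328) (l 16777024)) (b (l 482344946759) (l 16774216)))))) (a (c (a (l 16775040) (l 16775576)) (b (l 16775736) (l 16764608)))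 (c (a (l 16776088) (l 16776568)) (a (l 16776168) (l 16773992))))) (a (b (a (b (b (c (l 16763784) (b (l 16774528) (l 16763800))) (b (l 16771312) (l 16774000))) (l 16773848)) (b (b (l 16774816) (a (b (l 16774512) (l 16774232)) (l 16774752))) (b (c (l 16774048) (l 16771616)) (l 16774200)))) (c (l 16771080) (b (l 16774128) (l 16774232)))) (a (a (b (b (l 16775104) (b (b (l 16774800) (l 16769312)) (l 16774520))) (b (l 16774448) (l 16774480))) (l 14)) (l 14))))), by decide +kernel⟩

def k21_pm_123_t : ∃ t, chk3 f_pm_123_t t 254 62 1 = true :=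
  ⟨(a (b (c (b (a (l 16772016) (l 16772880)) (a (l 16772216) (l 16772992))) (b (a (l 16773240) (l 16773832)) (a (l 16773648) (l 16774128)))) (c (b (a (l 16772408) (l 16773112)) (a (l 16772600) (c (l 16772872) (l 16773592)))) (b (a (l 16774040) (l 16773120)) (a (c (l 16773968) (l 16774920)) (c (l 16774344) (l 16775120)))))) (a (b (c (b (l 16773736) (l 16773784)) (b (l 16774440) (l 16774640))) (c (b (l 16773832) (c (l 16773600) (l 16774168))) (b (c (l 16774592) (l 16775120)) (c (l 16774760) (l 16775368))))) (a (b (c (l 16773096) (b (l 16774920) (l 16775056))) (c (b (l 16774392) (l 16774392)) (b (l 16775200) (l 16775344)))) (l 14)))), by decide +kernel⟩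

def k22_pm_123_t : ∃ t, chk3 f_pm_123_t t 508 126 1 = true :=
  ⟨(b (c (a (c (l 16767056) (l 16773288)) (c (l 16772936) (l 16773752))) (a (c (l 16774312) (l 16775368)) (c (l 16774592) (l 16775464)))) (c (a (b (a (l 16772800) (l 16773040)) (a (c (l 16771032) (l 16770880)) (l 16773112))) (c (b (l 16772976) (l 16770376)) (a (l 16771176) (l 16771376)))) (a (a (b (l 16775104) (c (l 16774712) (l 16775960))) (c (l 16774688) (l 16775800))) (c (b (l 16774760) (l 16774880)) (b (l 16775704) (l 16775864)))))), by decide +kernel⟩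

def k23_pm_123_t : ∃ t, chk3 f_pm_123_t t 508 254 1 = true :=
  ⟨(c (b (a (b (c (a (l 16769624) (l 16771240)) (a (l 16768136) (l 16773608))) (c (l 16769664) (l 16770640))) (b (a (b (l 16773384) (l 16772664)) (b (l 16773592) (a (l 16773528) (l 16773664)))) (c (l 16771624) (l 16773800)))) (a (c (b (l 16770840) (l 16771440)) (b (l 16771696) (l 16772416))) (c (b (l 16772192) (c (l 16771296) (l 16771608))) (b (l 16772944) (c (l 16771928) (l 16772248)))))) (b (a (c (b (a (l 16774544) (l 16774704)) (l 16774272)) (b (b (a (l 16775888) (l 16775968)) (l 16775704)) (l 16775320))) (b (c (b (l 16774976) (a (l 16774824) (l 16774992))) (b (l 16776000) (a (l 16775872) (l 16775960)))) (c (l 16774696) (l 16775624)))) (b (a (c (l 16773888) (l 16774800)) (c (l 16774376) (a (l 16775096) (l 16775288)))) (a (c (c (l 16770680) (l 16771064)) (c (l 16771456) (l 16774480))) (c (c (l 16772584) (l 16772920)) (a (l 16774640) (l 16774864))))))), by decide +kernel⟩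

def k24_pm_123_t : ∃ t, chk3 f_pm_123_t t 508 255 2 = true :=
  ⟨(b (a (a (c (b (l 16769056) (l 16770216)) (b (l 16769672) (l 16770704))) (c (b (l 16770768) (l 16770640)) (b (l 16770040) (l 16771104)))) (c (b (a (l 16771168) (l 16771552)) (a (l 16771064) (l 16771800))) (b (a (l 16771712) (l 16772056)) (a (l 16771816) (l 16772520))))) (a (c (b (a (b (l 16771408) (a (l 16771216) (l 16771448))) (b (l 16771856) (l 16770480))) (a (c (b (l 16771184) (l 16771120)) (b (l 16771320) (c (l 16771200) (l 16771248)))) (b (a (l 16771608) (l 16771840)) (c (l 16771608) (l 16771704))))) (b (c (a (l 16770336) (l 16770768)) (a (l 16770520) (l 16770936))) (b (a (c (l 16771456) (l 16771592)) (c (l 16771904) (l 16772032))) (c (a (c (l 16771304) (l 16771352)) (l 16770488)) (a (l 16770168) (l 16770744)))))) (c (c (b (a (l 16770880) (l 16771320)) (b (a (l 16772128) (l 16772592)) (a (l 16772088) (l 16772560)))) (b (a (l 16771032) (l 16771456)) (b (a (l 16772240) (l 16772688))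 (a (l 16772168) (l 16772632))))) (b (a (c (l 16771184) (l 16771344)) (c (l 16771600) (l 16771744))) (b (a (c (l 16772352) (l 16772464)) (c (l 16772784) (l 16772888))) (c (a (l 16771024) (l 16771552)) (a (l 16771192) (l 16771792)))))))), by decide +kernel⟩

def k25_pm_123_t : ∃ t, chk3 f_pm_123_t t 508 255 3 = true :=
  ⟨(b (a (a (b (c (l 16770320) (l 16772304)) (c (l 16771880) (a (l 16771680) (l 16771848)))) (c (b (l 16770648) (l 16772240)) (b (l 16772592) (a (l 16772008) (l 16772168))))) (c (b (a (l 16772280) (l 16772584)) (a (l 16772592) (l 16772936))) (a (b (l 16772864) (c (l 16773592) (l 16771208))) (b (l 16774440) (c (l 16772600) (l 16772816)))))) (a (c (a (a (b (l 16771208) (c (l 16770224) (l 16770688))) (b (l 16771400) (c (l 16770608) (l 16770904)))) (a (b (l 16771600) (c (l 16770824) (l 16771112))) (b (l 16771800) (c (l 16771040) (l 16771320))))) (b (c (a (l 16771112) (l 16771488)) (a (l 16771976) (l 16772328))) (c (a (b (l 16770728) (c (l 16771752)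 (l 16770504))) (b (l 16771128) (c (l 16772176) (l 16770920)))) (a (b (l 16770888) (c (l 16770888) (l 16770952))) (b (l 16771272) (c (l 16771304) (l 16771352))))))) (c (a (a (b (l 16772152) (c (l 16771416) (l 16771528))) (b (l 16772344) (c (l 16771632) (l 16771736)))) (a (b (l 16772536) (c (l 16771840) (l 16771936))) (b (l 16772720) (c (l 16772048) (l 16772304))))) (b (c (a (l 16772504) (l 16772856)) (a (l 16772680) (l 16773344))) (c (a (a (l 16771888) (l 16772088)) (b (l 16771904) (c (l 16772016) (l 16772056)))) (a (b (l 16772304) (c (l 16771704) (l 16772080))) (b (l 16772680) (c (l 16772424) (l 16772472))))))))), by decide +kernel⟩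

def k26_pm_123_t : ∃ t, chk3 f_pm_123_t t 1018 126 1 = true :=
  ⟨(c (b (c (l 16773600) (l 16774248)) (c (a (l 16770816) (l 16772440)) (b (l 16774296) (l 16774320)))) (b (c (l 16774912) (b (l 16775544) (l 16775664))) (c (b (l 16775024) (l 16775088)) (b (l 16775776) (l 16775888))))), by decide +kernel⟩

def k27_pm_123_t : ∃ t, chk3 f_pm_123_t t 1018 254 1 = true :=
  ⟨(a (b (c (b (c (l 16770824) (l 16771640)) (c (l 16772064) (l 16774160))) (b (c (l 16775112) (l 16775992)) (c (l 16774968) (b (l 16775904) (l 16775744))))) (c (c (c (l 16771864) (l 16772168)) (c (l 16772480) (l 16772800))) (c (c (l 16771816) (l 16774768)) (b (l 16775464) (l 16775088))))) (b (c (b (l 16774072) (b (a (l 16774016) (l 16774144)) (l 16774040))) (b (l 16775584) (c (b (l 16775216) (l 16775128)) (b (l 16776008) (l 16775880))))) (c (c (c (l 16772208) (l 16772488)) (c (l 16772784) (l 16773080))) (c (c (l 16773376) (l 16775000)) (b (l 16775632) (l 16775296)))))), by decide +kernel⟩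

def k28_pm_123_t : ∃ t, chk3 f_pm_123_t t 1018 255 1 = true :=
  ⟨(c (b (c (b (a (l 16771928) (l 16772296)) (a (l 16772200) (l 16772752))) (b (a (l 16772400) (l 16772728)) (a (l 16772888) (l 16773248)))) (c (b (a (c (l 16771752) (l 16771880)) (c (l 16772496) (l 16772608))) (b (a (c (l 16773032) (l 16773120)) (c (l 16773472) (l 16773544))) (a (a (l 16772936) (l 16773160)) (a (l 16773704) (a (l 16773544) (l 16773656)))))) (b (a (c (l 16772336) (l 16772464)) (c (l 16772728) (l 16773176))) (a (c (a (l 16771760) (l 16772136)) (a (l 16772168) (l 16772376))) (c (a (l 16772344) (l 16772720)) (a (l 16772584) (l 16772784))))))) (b (c (a (b (l 16772888) (l 16773600)) (b (l 16773176) (c (l 16772856) (l 16773032)))) (a (b (l 16774704) (c (l 16772912) (l 16773112))) (b (l 16774960) (c (l 16773208) (l 16773392))))) (c (b (a (c (l 16772928) (l 16773064)) (c (l 16773296) (l 16773424))) (a (a (c (l 16772248) (l 16772504)) (c (l 16772456) (l 16772784))) (a (c (l 16772656)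 (l 16773056)) (c (l 16773016) (l 16773288))))) (a (b (c (l 16773208) (l 16773680)) (c (b (l 16772936) (c (l 16772744) (l 16772776))) (b (l 16773040) (c (l 16772816) (l 16772856))))) (b (c (l 16773880) (c (l 16773648) (l 16773712))) (c (b (l 16773312) (c (l 16773136) (l 16773168))) (b (l 16773400) (c (l 16773280) (l 16773392))))))))), by decide +kernel⟩

def k29_pm_123_t : ∃ t, chk3 f_pm_123_t t 1019 63 1 = true :=
  ⟨(a (a (a (a (c (b (b (l 16774248) (l 16774240)) (a (b (b (b (l 16774208) (b (l 16774208) (l 16774184))) (c (l 16773832) (l 16774392))) (b (c (l 16772480) (l 16772840)) (c (b (l 16773752) (l 16773728)) (c (l 16772888) (l 16773136))))) (l 14))) (b (b (l 16775416) (b (l 16775520) (l 16775584))) (b (b (b (l 16775624) (b (l 16775648) (l 16775592))) (c (l 16774976) (l 16775576))) (c (b (l 16773232) (b (l 16774216) (c (l 16773960) (l 16774024)))) (b (l 16774936) (b (l 16773144) (c (l 16774096) (l 16773512)))))))) (l 14)) (l 14)) (l 14)) (l 14)),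 by decide +kernel⟩

def k30_pm_123_t : ∃ t, chk3 f_pm_123_t t 255 15 1 = true :=
  ⟨(b (b (a (a (b (a (a (b (l 4) (b (l 4) (l 471070658167))) (l 4)) (l 4)) (a (b (a (b (l 16774384) (l 16776984)) (b (l 401814310583) (l 16774488))) (l 16774160)) (b (a (b (l 4) (l 400203697703)) (l 4)) (l 14)))) (b (l 4) (b (l 4) (l 14)))) (l 4)) (l 14)) (l 14)), by decide +kernel⟩

theorem s31_pm_123_t : ∃ t, chk3 f_pm_123_t t 1018 127 1 = true := ex3_b k27_pm_123_t k28_pm_123_t

theorem s32_pm_123_t : ∃ t, chk3 f_pm_123_t t 1018 63 1 = true := ex3_b k26_pm_123_t s31_pm_123_t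

theorem s33_pm_123_t : ∃ t, chk3 f_pm_123_t t 509 63 1 = true := ex3_a s32_pm_123_t k29_pm_123_t

theorem s34_pm_123_t : ∃ t, chk3 f_pm_123_t t 508 255 1 = true := ex3_c k24_pm_123_t k25_pm_123_t

theorem s35_pm_123_t : ∃ t, chk3 f_pm_123_t t 508 127 1 = true := ex3_b k23_pm_123_t s34_pm_123_t

theorem s36_pm_123_t : ∃ t, chk3 f_pm_123_t t 508 63 1 = true := ex3_b k22_pm_123_t s35_pm_123_t

theorem s37_pm_123_t : ∃ t, chk3 f_pm_123_t t 254 63 1 = true := ex3_a s36_pm_123_t s33_pm_123_t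

theorem s38_pm_123_t : ∃ t, chk3 f_pm_123_t t 254 31 1 = true := ex3_b k21_pm_123_t s37_pm_123_t

theorem s39_pm_123_t : ∃ t, chk3 f_pm_123_t t 254 15 1 = true := ex3_b k20_pm_123_t s38_pm_123_t

theorem s40_pm_123_t : ∃ t, chk3 f_pm_123_t t 127 15 1 = true := ex3_a s39_pm_123_t k30_pm_123_t

theorem s41_pm_123_t : ∃ t, chk3 f_pm_123_t t 1015 63 1 = true := ex3_b k18_pm_123_t k19_pm_123_t

theorem s42_pm_123_t : ∃ t, chk3 f_pm_123_t t 507 63 1 = true := ex3_a k17_pm_123_t s41_pm_123_t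

theorem s43_pm_123_t : ∃ t, chk3 f_pm_123_t t 253 63 1 = true := ex3_a k16_pm_123_t s42_pm_123_t

theorem s44_pm_123_t : ∃ t, chk3 f_pm_123_t t 253 31 1 = true := ex3_b k15_pm_123_t s43_pm_123_t

theorem s45_pm_123_t : ∃ t, chk3 f_pm_123_t t 126 31 1 = true := ex3_a k14_pm_123_t s44_pm_123_t

theorem s46_pm_123_t : ∃ t, chk3 f_pm_123_t t 126 15 1 = true := ex3_b k13_pm_123_t s45_pm_123_t

theorem s47_pm_123_t : ∃ t, chk3 f_pm_123_t t 63 15 1 = true := ex3_a s46_pm_123_t s40_pm_123_t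

theorem s48_pm_123_t : ∃ t, chk3 f_pm_123_t t 31 15 1 = true := ex3_a k12_pm_123_t s47_pm_123_t

theorem s49_pm_123_t : ∃ t, chk3 f_pm_123_t t 15 15 1 = true := ex3_a k11_pm_123_t s48_pm_123_t

theorem s50_pm_123_t : ∃ t, chk3 f_pm_123_t t 63 14 1 = true := ex3_a k9_pm_123_t k10_pm_123_t

theorem s51_pm_123_t : ∃ t, chk3 f_pm_123_t t 31 14 1 = true := ex3_a k8_pm_123_t s50_pm_123_t

theorem s52_pm_123_t : ∃ t, chk3 f_pm_123_t t 15 14 1 = true := ex3_a k7_pm_123_t s51_pm_123_t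

theorem s53_pm_123_t : ∃ t, chk3 f_pm_123_t t 15 7 1 = true := ex3_b s52_pm_123_t s49_pm_123_t

theorem s54_pm_123_t : ∃ t, chk3 f_pm_123_t t 7 7 1 = true := ex3_a k6_pm_123_t s53_pm_123_t

theorem s55_pm_123_t : ∃ t, chk3 f_pm_123_t t 7 6 1 = true := ex3_a k4_pm_123_t k5_pm_123_t

theorem s56_pm_123_t : ∃ t, chk3 f_pm_123_t t 7 3 1 = true := ex3_b s55_pm_123_t s54_pm_123_t

theorem s57_pm_123_t : ∃ t, chk3 f_pm_123_t t 3 3 1 = true := ex3_a k3_pm_123_t s56_pm_123_t

theorem s58_pm_123_t : ∃ t, chk3 f_pm_123_t t 3 2 1 = true := ex3_a k1_pm_123_t k2_pm_123_t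

theorem s59_pm_123_t : ∃ t, chk3 f_pm_123_t t 3 1 1 = true := ex3_b s58_pm_123_t s57_pm_123_t

theorem s60_pm_123_t : ∃ t, chk3 f_pm_123_t t 1 1 1 = true := ex3_a k0_pm_123_t s59_pm_123_t

theorem c_pm_123_t : CertNE 536870912 536870912 0 536870912 991146299 28908434 3 eng mog cd0q1 cd0q2 pd3 true true false .npn 1 2 3
    ndB0q1 ndB0q2 pcB3 cut_pm_123_t Ext.none :=
  certNE2 (fam := true) (s1 := true) (s2 := false) (a := 1) (b := 2) (c := 3) (cn := .npn) (n1 := ndB0q1) (n2 := ndB0q2) (pc := pcB3) (cut := cut_pm_123_t) (xt := Ext.none) (P1 := 536870912) (W1 := 536870912) (P2 := 0) (W2 := 536870912) (P3 := 991146299) (W3 := 28908434) (N0 := 3) (En := eng) (mo := mog) (C1 := cd0q1) (C2 := cd0q2) (C3 := pd3)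
    rfl (fun _ => rfl) s60_pm_123_t

noncomputable def cut_pm_202_s : Cut := Cut.of [[⟨4, 0, 0, 1449551462⟩], [⟨0, 1, 0, 53687091⟩, ⟨1, 0, 0, 53687091⟩, ⟨2, 1, 0, 53687091⟩]]

noncomputable def f_pm_202_s : ℕ → ℕ → ℕ → ℕ → Bool := onCell 0 536870912 1073741824 536870912 991146299 28908434
    (rowNE 3 eng mog cd0q2 cd0q0 pd2 1 true true false .pp 2 0 2 (qsf 0 536870912 0 536870912 2) ndB0q2 ndB0q0 pcB2 cut_pm_202_s Ext.none)

def k0_pm_202_s : ∃ t, chk3 f_pm_202_s t 2 4 1 = true :=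
  ⟨(b (l 1) (l 6)), by decide +kernel⟩

def k1_pm_202_s : ∃ t, chk3 f_pm_202_s t 3 8 1 = true :=
  ⟨(a (l 1) (a (b (l 1) (b (a (l 1) (a (l 1) (l 14))) (a (a (l 1) (b (l 1) (a (b (l 1) (c (a (l 16494336) (l 16508952)) (a (l 16435472) (l 16451488)))) (c (l 16512584) (l 16458928))))) (a (a (b (b (l 1) (c (l 16515720) (l 16459808))) (c (l 16531752) (l 16478424))) (c (b (b (l 16524024) (l 16533904)) (l 16549240)) (b (b (l 16469864) (l 16481248)) (l 16498912)))) (b (c (a (c (l 16560328) (l 16536048)) (l 16547560)) (a (l 16477280) (l 16521960))) (c (a (l 16567632) (l 16586896)) (a (l 16520368) (l 16542768)))))))) (b (l 14) (b (l 14) (a (a (c (b (a (l 16568848) (l 16591576)) (a (l 16607184) (l 16607928))) (b (a (l 16546792) (l 16573184)) (a (l 16566272) (l 16591320)))) (b (c (a (l 16615688) (l 16640448)) (c (l 16582096) (l 16564760))) (c (l 16600944) (l 16589552)))) (a (a (c (l 16634832) (l 16607312)) (b (a (l 16650384) (l 16663616)) (l 16642104))) (b (a (a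 (l 16654712) (l 16660816)) (c (b (l 16670392) (l 16657952)) (l 16659496))) (c (a (l 16634704) (b (l 16645024) (l 16652632))) (b (l 16651000) (l 16637464)))))))))), by decide +kernel⟩

def k2_pm_202_s : ∃ t, chk3 f_pm_202_s t 6 9 1 = true :=
  ⟨(b (a (l 1) (a (b (l 1) (c (b (l 16348592) (a (l 16308584) (l 16361472))) (b (l 16260904) (l 16294912)))) (b (b (l 1) (c (a (l 16364656) (c (l 16440584) (l 16411560))) (a (l 16299848) (l 16366376)))) (c (a (b (l 16390784) (l 16417536)) (b (l 16451200) (l 16476832))) (a (b (l 16331072) (l 16362968)) (b (l 16396168) (l 16426624))))))) (a (l 6) (b (a (c (a (l 16353056) (l 16404344)) (a (l 16298536) (l 16353696))) (c (b (l 16369128) (l 16438440)) (a (l 16391000) (l 16410536)))) (a (l 6) (a (b (l 16419232) (l 16471816)) (c (l 16529384) (l 16475400))))))), by decide +kernel⟩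

def k3_pm_202_s : ∃ t, chk3 f_pm_202_s t 14 9 1 = true :=
  ⟨(b (a (b (c (a (b (c (l 16524008) (l 16474336)) (c (l 16504248) (l 16477688))) (c (a (b (l 16531472) (l 16553392)) (l 16541176)) (a (b (l 16504800) (l 16528752)) (l 16516720)))) (c (a (b (l 16423776) (l 16450312)) (a (b (l 16477288) (l 16503336)) (l 16512464))) (a (b (l 16393320) (l 16422112)) (a (b (l 16448952) (l 16477128)) (l 16486456))))) (a (c (b (l 16452032) (l 16497488)) (c (l 16428408) (l 16403632))) (b (a (c (l 16522624) (l 16496960)) (l 16501736)) (c (a (l 16546480) (l 16590760)) (a (l 16546040) (l 16571384)))))) (b (c (a (b (l 16520336) (l 16564032)) (b (l 16555416) (l 16576680))) (a (b (l 16471896) (l 16519128)) (b (l 16533480) (l 16557728)))) (a (c (l 16536776) (l 16518368)) (b (l 16538992) (l 16564120))))) (a (a (b (c (l 16472344) (l 16454352)) (b (l 16516760) (l 16522704))) (b (c (a (l 16562080) (l 16539752)) (a (l 16526168) (l 16532424))) (c (b (l 16521224) (l 16510592)) (b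 (l 16570744) (l 16534888))))) (b (a (b (l 16578808) (l 16551880)) (a (l 16538040) (l 16529656))) (a (b (l 16537592) (l 16545176)) (c (l 16517464) (l 16517984)))))), by decide +kernel⟩

def k4_pm_202_s : ∃ t, chk3 f_pm_202_s t 15 9 1 = true :=
  ⟨(b (a (b (a (c (a (l 16572960) (l 16593368)) (b (l 16557512) (l 16579664))) (b (a (l 16590072) (l 16614416)) (l 16600440))) (a (b (l 16577760) (l 16565408)) (b (l 16571056) (l 16558784)))) (b (b (a (a (l 16630736) (l 16613256)) (a (c (l 16627848) (l 16647360)) (c (l 16590256) (l 16627568)))) (a (a (l 16599944) (l 16604008)) (c (a (l 16619872) (l 16604480)) (l 16571768)))) (a (b (c (l 16591560) (l 16592184)) (a (l 16578376) (l 16563792))) (b (c (a (l 16590864) (l 16576744)) (l 16558488)) (c (a (l 16562080) (l 16548704)) (l 16550008)))))) (a (b (a (b (l 16551880) (l 16538816)) (b (l 16526192) (l 16514480))) (a (c (l 16479872) (l 16498824)) (b (l 16482200) (l 16492232)))) (b (a (b (l 16498128) (l 16487768)) (c (b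 (l 16526728) (l 16497320)) (b (l 16541264) (l 16510520)))) (a (b (l 16498768) (l 16466808)) (b (c (l 16467256) (l 16478912)) (l 16399368)))))), by decide +kernel⟩

def k5_pm_202_s : ∃ t, chk3 f_pm_202_s t 2 5 1 = true :=
  ⟨(l 6), by decide +kernel⟩

def k6_pm_202_s : ∃ t, chk3 f_pm_202_s t 6 5 1 = true :=
  ⟨(b (b (a (l 6) (b (a (l 6) (b (l 16447600) (l 6))) (l 6))) (l 6)) (l 6)), by decide +kernel⟩

def k7_pm_202_s : ∃ t, chk3 f_pm_202_s t 14 10 1 = true :=
  ⟨(a (a (b (b (b (l 16510072) (l 16498456)) (c (l 16488400) (l 16500240))) (l 6)) (b (b (b (a (l 16499104) (l 16458592)) (c (l 16492960) (l 16509048))) (b (a (l 16480128) (l 16419096)) (b (l 16449624) (b (l 16418232) (a (l 6) (a (l 6) (a (l 16418688) (c (l 16391968) (l 16419248))))))))) (l 6))) (b (b (b (a (l 16512168) (l 16499520)) (a (l 16480232) (l 16467552))) (b (a (l 16449272) (l 16435336)) (b (l 16366320) (b (a (l 16414424) (l 16397608)) (b (a (c (l 16385296) (l 16412288)) (c (l 16366968)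 (l 16392936))) (l 16395528)))))) (a (b (l 16375368) (l 6)) (b (l 16358072) (l 16307816))))), by decide +kernel⟩

def k8_pm_202_s : ∃ t, chk3 f_pm_202_s t 15 10 1 = true :=
  ⟨(b (b (a (a (b (l 16482592) (l 16449944)) (b (l 16459664) (l 16426568))) (b (a (l 16434224) (l 16387824)) (a (l 16400752) (c (l 16372240) (l 16378120))))) (b (a (a (l 16416664) (l 16350352)) (a (c (l 16363208) (l 16368184)) (c (l 16316488) (l 16340984)))) (a (a (b (l 16390736) (b (l 16376168) (c (l 16343424) (l 16368016)))) (b (l 16365032) (b (l 16328120) (c (c (l 16315584) (l 16316440)) (a (l 16325904) (l 16310392)))))) (b (a (l 16337024) (a (l 16295264) (l 16281488))) (b (a (a (l 16306144) (l 16291528)) (b (l 16294952) (l 16266496))) (b (b (b (c (l 16254424) (l 16296760)) (b (a (l 16309344) (c (l 16279360) (l 16279000))) (a (l 16286408) (c (l 16277128) (l 16276656))))) (a (l 16305712) (c (l 16275408) (l 16274808)))) (a (l 16303520) (c (l 16273432) (l 16272624))))))))) (a (a (b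 (c (l 16336200) (l 16336408)) (c (l 16290944) (l 16285416))) (b (c (l 16288488) (l 16308504)) (c (l 16266136) (l 16259888)))) (b (a (c (l 16259456) (l 16278264)) (c (b (l 16261712) (l 16241424)) (c (l 16227992) (l 16226576)))) (a (c (l 16239136) (l 16232144)) (c (a (l 16218896) (l 16205416)) (l 16183512)))))), by decide +kernel⟩

def k9_pm_202_s : ∃ t, chk3 f_pm_202_s t 7 11 1 = true :=
  ⟨(a (l 6) (a (b (b (a (l 16227432) (c (l 16225656) (l 16214288))) (l 6)) (l 6)) (a (b (c (b (l 16200328) (l 16163960)) (b (l 16188568) (l 16147448))) (l 6)) (b (c (b (a (l 16181416) (l 16168840)) (l 16140424)) (b (l 16142056) (l 16123928))) (b (c (l 16108048) (l 16087072)) (l 6)))))), by decide +kernel⟩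

def k10_pm_202_s : ∃ t, chk3 f_pm_202_s t 1 3 1 = true :=
  ⟨(a (l 6) (l 6)), by decide +kernel⟩

theorem s11_pm_202_s : ∃ t, chk3 f_pm_202_s t 7 10 1 = true := ex3_a k7_pm_202_s k8_pm_202_s

theorem s12_pm_202_s : ∃ t, chk3 f_pm_202_s t 7 5 1 = true := ex3_b s11_pm_202_s k9_pm_202_s

theorem s13_pm_202_s : ∃ t, chk3 f_pm_202_s t 3 5 1 = true := ex3_a k6_pm_202_s s12_pm_202_s

theorem s14_pm_202_s : ∃ t, chk3 f_pm_202_s t 1 5 1 = true := ex3_a k5_pm_202_s s13_pm_202_s

theorem s15_pm_202_s : ∃ t, chk3 f_pm_202_s t 7 9 1 = true := ex3_a k3_pm_202_s k4_pm_202_s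

theorem s16_pm_202_s : ∃ t, chk3 f_pm_202_s t 3 9 1 = true := ex3_a k2_pm_202_s s15_pm_202_s

theorem s17_pm_202_s : ∃ t, chk3 f_pm_202_s t 3 4 1 = true := ex3_b k1_pm_202_s s16_pm_202_s

theorem s18_pm_202_s : ∃ t, chk3 f_pm_202_s t 1 4 1 = true := ex3_a k0_pm_202_s s17_pm_202_s

theorem s19_pm_202_s : ∃ t, chk3 f_pm_202_s t 1 2 1 = true := ex3_b s18_pm_202_s s14_pm_202_s

theorem s20_pm_202_s : ∃ t, chk3 f_pm_202_s t 1 1 1 = true := ex3_b s19_pm_202_s k10_pm_202_s

theorem c_pm_202_s : CertNE 0 536870912 0 536870912 991146299 28908434 3 eng mog cd0q2 cd0q0 pd2 true true false .pp 2 0 2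
    ndB0q2 ndB0q0 pcB2 cut_pm_202_s Ext.none :=
  certNE1 (fam := true) (s1 := true) (s2 := false) (a := 2) (b := 0) (c := 2) (cn := .pp) (n1 := ndB0q2) (n2 := ndB0q0) (pc := pcB2) (cut := cut_pm_202_s) (xt := Ext.none) (P1 := 0) (W1 := 536870912) (P2 := 0) (W2 := 536870912) (P3 := 991146299) (W3 := 28908434) (N0 := 3) (En := eng) (mo := mog) (C1 := cd0q2) (C2 := cd0q0) (C3 := pd2)
    rfl (fun _ => rfl) s20_pm_202_s

noncomputable def cut_pm_202_t : Cut := Cut.of [[⟨3, 0, 0, 2845415833⟩], [⟨0, 1, 0, 53687091⟩, ⟨1, 0, 0, 53687091⟩, ⟨2, 1, 0, 53687091⟩]]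

noncomputable def f_pm_202_t : ℕ → ℕ → ℕ → ℕ → Bool := onCell 0 536870912 1073741824 536870912 991146299 28908434
    (rowNE 3 eng mog cd0q2 cd0q0 pd2 1 true true false .pp 2 0 2 (qsf 0 536870912 0 536870912 2) ndB0q2 ndB0q0 pcB2 cut_pm_202_t Ext.none)

def k0_pm_202_t : ∃ t, chk3 f_pm_202_t t 1 1 1 = true :=
  ⟨(b (l 6) (a (l 6) (l 6))), by decide +kernel⟩

theorem c_pm_202_t : CertNE 0 536870912 0 536870912 991146299 28908434 3 eng mog cd0q2 cd0q0 pd2 true true false .pp 2 0 2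
    ndB0q2 ndB0q0 pcB2 cut_pm_202_t Ext.none :=
  certNE1 (fam := true) (s1 := true) (s2 := false) (a := 2) (b := 0) (c := 2) (cn := .pp) (n1 := ndB0q2) (n2 := ndB0q0) (pc := pcB2) (cut := cut_pm_202_t) (xt := Ext.none) (P1 := 0) (W1 := 536870912) (P2 := 0) (W2 := 536870912) (P3 := 991146299) (W3 := 28908434) (N0 := 3) (En := eng) (mo := mog) (C1 := cd0q2) (C2 := cd0q0) (C3 := pd2)
    rfl (fun _ => rfl) k0_pm_202_t

noncomputable def cut_pm_203_s : Cut := Cut.of [[⟨4, 0, 0, 1449551462⟩]]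

noncomputable def f_pm_203_s : ℕ → ℕ → ℕ → ℕ → Bool := onCell 0 536870912 1610612736 536870912 991146299 28908434
    (rowNE 3 eng mog cd0q2 cd0q0 pd3 1 true true false .up 2 0 3 (qsf 0 536870912 0 536870912 3) ndB0q2 ndB0q0 pcB3 cut_pm_203_s Ext.none)

def k0_pm_203_s : ∃ t, chk3 f_pm_203_s t 1 1 1 = true :=
  ⟨(l 6), by decide +kernel⟩

theorem c_pm_203_s : CertNE 0 536870912 0 536870912 991146299 28908434 3 eng mog cd0q2 cd0q0 pd3 true true false .up 2 0 3
    ndB0q2 ndB0q0 pcB3 cut_pm_203_s Ext.none :=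
  certNE1 (fam := true) (s1 := true) (s2 := false) (a := 2) (b := 0) (c := 3) (cn := .up) (n1 := ndB0q2) (n2 := ndB0q0) (pc := pcB3) (cut := cut_pm_203_s) (xt := Ext.none) (P1 := 0) (W1 := 536870912) (P2 := 0) (W2 := 536870912) (P3 := 991146299) (W3 := 28908434) (N0 := 3) (En := eng) (mo := mog) (C1 := cd0q2) (C2 := cd0q0) (C3 := pd3)
    rfl (fun _ => rfl) k0_pm_203_s

noncomputable def cut_pm_203_t : Cut := Cut.of [[⟨3, 0, 0, 2845415833⟩]]

noncomputable def f_pm_203_t : ℕ → ℕ → ℕ → ℕ → Bool := onCell 0 536870912 0 536870912 991146299 28908434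
    (rowNE 3 eng mog cd0q2 cd0q0 pd3 0 true true false .up 2 0 3 (qsf 0 536870912 0 536870912 3) ndB0q2 ndB0q0 pcB3 cut_pm_203_t Ext.none)

def k0_pm_203_t : ∃ t, chk3 f_pm_203_t t 1 1 1 = true :=
  ⟨(a (b (l 1) (b (a (b (l 1) (a (b (l 1) (a (b (l 6) (l 16240968)) (l 6))) (l 6))) (l 6)) (a (b (a (b (a (c (l 16298544) (l 16253088)) (l 6)) (c (b (l 16295272) (l 16326168)) (a (l 16316160) (l 16218392)))) (l 6)) (a (b (c (a (l 16423280) (l 16332632)) (a (l 16391592) (l 16292720))) (a (b (l 16466632) (l 16507872)) (b (l 16372176) (l 16414136)))) (b (a (b (a (l 16220320) (l 6)) (c (l 16233584) (l 16208192))) (l 6)) (a (b (l 16272656) (l 16315104)) (b (a (c (l 16227344) (l 16180488)) (l 6)) (a (l 16215672) (c (l 16230496) (l 16186696)))))))) (b (l 6) (l 6))))) (l 6)), by decide +kernel⟩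

theorem c_pm_203_t : CertNE 0 536870912 0 536870912 991146299 28908434 3 eng mog cd0q2 cd0q0 pd3 true true false .up 2 0 3
    ndB0q2 ndB0q0 pcB3 cut_pm_203_t Ext.none :=
  certNE0 (fam := true) (s1 := true) (s2 := false) (a := 2) (b := 0) (c := 3) (cn := .up) (n1 := ndB0q2) (n2 := ndB0q0) (pc := pcB3) (cut := cut_pm_203_t) (xt := Ext.none) (P1 := 0) (W1 := 536870912) (P2 := 0) (W2 := 536870912) (P3 := 991146299) (W3 := 28908434) (N0 := 3) (En := eng) (mo := mog) (C1 := cd0q2) (C2 := cd0q0) (C3 := pd3)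
    rfl k0_pm_203_t

noncomputable def cut_pm_213_s : Cut := Cut.of [[⟨4, 0, 0, 1449551462⟩], [⟨0, 1, 0, 37748736⟩, ⟨1, 1, 0, 37748736⟩, ⟨2, 2, 0, 5242880⟩], [⟨0, 1, 0, 2097152⟩, ⟨1, 0, 1, 46137344⟩, ⟨2, 1, 1, 46137344⟩, ⟨1, 0, 0, 1027248803⟩, ⟨1, 1, 0, 87939455⟩, ⟨2, 1, 0, 1027248803⟩, ⟨2, 2, 0, 87939455⟩]]

noncomputable def f_pm_213_s : ℕ → ℕ → ℕ → ℕ → Bool := onCell 0 536870912 536870912 536870912 991146299 28908434
    (rowNE 3 eng mog cd0q2 cd0q1 pd3 0 true true false .pnn 2 1 3 (qsf 0 536870912 536870912 536870912 3) ndB0q2 ndB0q1 pcB3 cut_pm_213_s Ext.none)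

def k0_pm_213_s : ∃ t, chk3 f_pm_213_s t 1 1 1 = true :=
  ⟨(l 6), by decide +kernel⟩

theorem c_pm_213_s : CertNE 0 536870912 536870912 536870912 991146299 28908434 3 eng mog cd0q2 cd0q1 pd3 true true false .pnn 2 1 3
    ndB0q2 ndB0q1 pcB3 cut_pm_213_s Ext.none :=
  certNE0 (fam := true) (s1 := true) (s2 := false) (a := 2) (b := 1) (c := 3) (cn := .pnn) (n1 := ndB0q2) (n2 := ndB0q1) (pc := pcB3) (cut := cut_pm_213_s) (xt := Ext.none) (P1 := 0) (W1 := 536870912) (P2 := 536870912) (W2 := 536870912) (P3 := 991146299) (W3 := 28908434) (N0 := 3) (En := eng) (mo := mog) (C1 := cd0q2) (C2 := cd0q1) (C3 := pd3)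
    rfl k0_pm_213_s

noncomputable def cut_pm_213_t : Cut := Cut.of [[⟨3, 0, 0, 3194381926⟩], [⟨0, 1, 0, 37748736⟩, ⟨1, 1, 0, 37748736⟩, ⟨2, 2, 0, 5242880⟩], [⟨0, 1, 0, 2097152⟩, ⟨1, 0, 1, 46137344⟩, ⟨2, 1, 1, 46137344⟩, ⟨1, 0, 0, 1027248803⟩, ⟨1, 1, 0, 87939455⟩, ⟨2, 1, 0, 1027248803⟩, ⟨2, 2, 0, 87939455⟩]]

noncomputable def f_pm_213_t : ℕ → ℕ → ℕ → ℕ → Bool := onCell 0 536870912 1610612736 536870912 991146299 28908434
    (rowNE 3 eng mog cd0q2 cd0q1 pd3 1 true true false .pnn 2 1 3 (qsf 0 536870912 536870912 536870912 3) ndB0q2 ndB0q1 pcB3 cut_pm_213_t Ext.none)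

def k0_pm_213_t : ∃ t, chk3 f_pm_213_t t 2 2 1 = true :=
  ⟨(b (l 6) (b (l 6) (a (a (b (b (l 6) (a (c (l 16685512) (l 16678832)) (l 6))) (b (a (c (l 16725304) (l 16721664)) (l 6)) (a (a (b (l 16769336) (l 16750456)) (l 16744432)) (c (l 16688776) (l 16682824))))) (l 6)) (l 6)))), by decide +kernel⟩

def k1_pm_213_t : ∃ t, chk3 f_pm_213_t t 4 3 1 = true :=
  ⟨(b (a (b (b (a (b (a (l 4) (b (l 16770176) (l 16750216))) (l 4)) (b (c (l 16729056) (l 16725952)) (c (a (l 16750800) (l 16750248)) (a (l 85060431191) (l 16748576))))) (b (a (l 4) (a (l 4) (b (l 16752496) (l 16748592)))) (l 4))) (l 4)) (a (b (b (b (l 6) (c (l 16696656) (l 16670712))) (b (c (l 16736816) (l 16734416)) (b (a (l 90429155767) (l 16749432)) (a (l 16746976) (l 16767328))))) (b (b (b (a (l 4) (l 108682758231)) (l 4)) (l 4)) (l 4))) (b (b (l 6) (b (l 6) (c (l 16709032) (l 16705088)))) (b (b (b (l 16738680) (a (l 59290647559) (l 16742832))) (b (a (l 118346430647) (l 16762568)) (a (l 4) (l 106535263751))))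 (l 4))))) (l 4)), by decide +kernel⟩

def k2_pm_213_t : ∃ t, chk3 f_pm_213_t t 5 3 1 = true :=
  ⟨(b (b (l 6) (b (a (b (l 6) (a (c (l 16726040) (l 16722560)) (l 6))) (l 6)) (a (a (b (b (c (l 16755480) (l 16753904)) (a (l 119420173063) (l 16760928))) (b (c (l 93113476775) (l 93650347255)) (l 4))) (c (b (l 16704584) (b (l 16737032) (l 16756800))) (b (l 16698520) (b (l 16733408) (l 16754880))))) (l 6)))) (b (b (a (b (a (l 4) (c (b (l 64122462295) (l 92576597271)) (b (a (l 16769248) (l 16762536)) (l 93113466423)))) (l 4)) (a (b (b (c (l 16719624) (l 16713232)) (c (l 16741984) (l 16737832))) (b (a (c (l 16774256) (l 16774136)) (l 16748160)) (c (a (l 16744928) (l 16770504)) (a (l 16744232) (l 16769696))))) (b (l 6) (c (b (l 16704584) (l 16728536)) (b (l 16695192) (l 16721928)))))) (a (l 4) (b (a (b (a (l 4) (b (l 16749736) (l 4))) (l 4)) (b (c (a (l 16765960) (l 16737960)) (l 16748208)) (c (a (l 115662069831) (l 16761904)) (a (l 119420164343) (l 16759592)))))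 (a (l 4) (b (a (l 4) (b (l 70564923703) (l 106535270103))) (l 4)))))) (l 4))), by decide +kernel⟩

def k3_pm_213_t : ∃ t, chk3 f_pm_213_t t 3 2 1 = true :=
  ⟨(l 6), by decide +kernel⟩

def k4_pm_213_t : ∃ t, chk3 f_pm_213_t t 6 6 1 = true :=
  ⟨(l 6), by decide +kernel⟩

def k5_pm_213_t : ∃ t, chk3 f_pm_213_t t 12 7 1 = true :=
  ⟨(b (b (l 6) (b (a (a (c (l 16741664) (l 16733160)) (l 6)) (l 6)) (a (a (b (b (l 16750512) (l 16764008)) (b (a (l 16772432) (l 16770392)) (l 112977719415))) (b (b (l 16718744) (l 16733096)) (b (l 16747592) (l 16762016)))) (b (l 6) (c (l 16754904) (l 16753216)))))) (b (b (a (b (a (l 4) (b (a (l 16751864) (l 16769176)) (a (l 4) (l 16757008)))) (l 4)) (a (b (b (l 16746248) (l 12582894487)) (b (c (l 64122461511) (l 16743160)) (a (l 4) (l 125862636711)))) (b (c (l 16748640) (l 16738264)) (b (l 16746904) (c (l 16764536) (l 16761584)))))) (b (a (l 4) (a (l 4) (b (c (a (l 16749992) (l 16772504)) (a (l 16749712) (l 16771376))) (b (a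 (l 4) (l 16751104)) (l 4))))) (l 4))) (l 4))), by decide +kernel⟩

def k6_pm_213_t : ∃ t, chk3 f_pm_213_t t 13 7 1 = true :=
  ⟨(b (l 6) (b (a (a (b (b (l 6) (b (l 16715608) (l 16753720))) (b (b (c (l 16753200) (l 16746904)) (a (b (l 16770456) (l 16764584)) (l 16760224))) (b (b (a (l 16749360) (l 16773048)) (a (l 4) (l 16762928))) (l 4)))) (b (l 6) (b (b (l 16761832) (c (l 16743192) (l 16732872))) (b (c (l 16759296) (l 16753464)) (b (a (l 16765160) (l 16763232)) (a (l 162369862007) (l 16772016))))))) (b (l 6) (a (b (c (l 16731400) (l 16751656)) (b (c (l 16735976) (l 16720824)) (c (l 16752536) (l 16742576)))) (b (l 6) (b (l 6) (a (l 16728584) (l 16716880))))))) (b (b (a (b (a (l 4) (a (l 4) (b (l 108682775943) (l 4)))) (l 4)) (b (a (b (l 16761624) (a (l 78618010839) (l 16764640))) (c (l 16749736) (l 16755704))) (a (b (a (l 185455307847) (l 16767928)) (a (l 4) (a (l 4) (l 16765504)))) (b (l 16756416) (a (l 16770776) (l 16760344)))))) (a (l 4) (a (l 4)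 (b (b (a (b (l 16760112) (l 153243063127)) (l 16769056)) (a (l 4) (b (l 16764272) (l 137136939223)))) (b (a (l 4) (b (l 228941856535) (l 4))) (l 4)))))) (l 4)))), by decide +kernel⟩

def k7_pm_213_t : ∃ t, chk3 f_pm_213_t t 7 6 1 = true :=
  ⟨(l 6), by decide +kernel⟩

def k8_pm_213_t : ∃ t, chk3 f_pm_213_t t 14 14 1 = true :=
  ⟨(l 6), by decide +kernel⟩

def k9_pm_213_t : ∃ t, chk3 f_pm_213_t t 28 15 1 = true :=
  ⟨(b (l 6) (b (b (a (b (c (l 16736920) (l 16708128)) (c (l 16753040) (l 16731696))) (b (l 6) (a (c (l 16750560) (l 16716488)) (l 6)))) (b (a (b (a (l 16759968) (l 16752696)) (a (l 16768272) (l 16761104))) (c (b (l 16762616) (l 16768696)) (b (l 16730480) (l 16741808)))) (a (b (a (b (l 16773824) (a (l 16763392) (l 16775440))) (l 16768712)) (a (b (l 185992185015) (l 4)) (b (l 16773696) (a (l 168812329495) (l 16775272))))) (c (b (l 16773424) (l 16775624)) (b (l 16752400) (l 16762096)))))) (b (b (a (b (a (l 4) (b (a (l 4) (l 164517362439)) (l 4)))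 (l 4)) (b (a (b (l 16774496) (a (l 165054233335) (l 16775848))) (b (l 16772896) (l 16774808))) (a (b (a (l 4) (c (l 16764832) (l 175254780647))) (l 4)) (b (l 16776192) (a (c (l 16767328) (l 185455327719)) (l 16777000)))))) (a (l 4) (b (a (l 4) (b (a (l 4) (c (l 184918455703) (l 198877099255))) (l 4))) (l 4)))) (l 4)))), by decide +kernel⟩

def k10_pm_213_t : ∃ t, chk3 f_pm_213_t t 29 30 1 = true :=
  ⟨(l 6), by decide +kernel⟩

def k11_pm_213_t : ∃ t, chk3 f_pm_213_t t 29 62 1 = true :=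
  ⟨(b (l 6) (a (b (a (b (l 6) (a (l 16756928) (b (l 6) (l 16767120)))) (l 6)) (a (c (l 16752112) (b (l 16747336) (l 16757160))) (a (b (c (l 16771744) (b (l 16745904) (l 16751272))) (l 16772960)) (b (c (l 16770736) (l 16751480)) (c (l 16751192) (b (l 16759272) (l 16764000))))))) (b (l 6) (b (l 6) (a (a (b (l 16771848) (c (l 16771336) (l 16769000))) (l 16771976)) (c (l 16771104) (l 16773088))))))), by decide +kernel⟩

def k12_pm_213_t : ∃ t, chk3 f_pm_213_t t 29 126 1 = true :=
  ⟨(b (a (b (c (l 16753192) (a (l 16765504) (l 16768264))) (c (a (l 16775888) (l 16774688)) (a (l 16772056) (l 16774280)))) (b (a (c (a (l 16772704) (b (l 16771336) (l 16772008))) (a (b (l 16773056) (l 16773352)) (b (l 16772384) (a (l 16773064) (l 16772560))))) (c (l 16771560) (l 16772928))) (a (c (l 16763192) (b (l 16773880) (l 16774216))) (a (b (c (l 16771864) (a (l 16772856) (l 16772824))) (c (l 16772880) (a (l 16773392) (l 16773248)))) (c (l 16771744) (b (l 16773016) (l 16772816)))))))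 (a (b (a (b (a (l 16766640) (l 16776512)) (a (c (l 204245806551) (l 219278191895)) (c (l 16777272) (l 16776584)))) (b (l 16765288) (c (l 16776248) (l 16776408)))) (a (a (l 4) (b (b (l 212835747047) (l 4)) (l 4))) (b (a (c (l 16766960) (b (l 16776968) (l 16755736))) (l 16776624)) (b (a (a (l 4) (l 232163103671)) (l 16766672)) (a (l 4) (c (l 16765432) (l 192434654343))))))) (b (a (c (l 16774760) (b (l 16774824) (l 16775424))) (b (a (l 16773632) (c (l 16767576) (a (l 16773656) (l 16752160)))) (c (l 16774032) (l 16764000)))) (b (a (c (l 16775808) (l 16776008)) (c (l 16774632) (l 16774960))) (a (c (l 16776456) (l 16776568)) (c (l 16775400) (l 16775632))))))), by decide +kernel⟩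

def k13_pm_213_t : ∃ t, chk3 f_pm_213_t t 29 127 1 = true :=
  ⟨(b (b (a (a (l 4) (a (l 4) (a (l 4) (b (b (l 356180280919) (l 4)) (l 4))))) (a (b (a (c (b (l 16777136) (l 251490450727)) (b (l 16771856) (a (l 4) (l 16770632)))) (c (l 16771664) (l 16774336))) (a (l 4) (c (b (c (l 182770977319) (l 191897782775)) (l 702998895287)) (b (a (l 296587610807) (l 16766528)) (l 729305569687))))) (b (c (l 16776128) (l 16776264)) (b (c (l 16776640) (l 16776712)) (a (a (a (l 255785425287) (l 150558729767)) (l 16777120)) (l 16776760)))))) (a (l 4) (a (l 4) (b (b (a (a (l 4) (c (l 270817806903) (l 293903255991))) (c (l 16772088) (l 16772128))) (a (l 4) (b (a (l 16771048) (l 16777128)) (a (l 4) (l 321283675847))))) (l 4))))) (l 4)), by decide +kernel⟩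

def k14_pm_213_t : ∃ t, chk3 f_pm_213_t t 15 14 1 = true :=
  ⟨(l 6), by decide +kernel⟩

def k15_pm_213_t : ∃ t, chk3 f_pm_213_t t 30 30 1 = true :=
  ⟨(l 6), by decide +kernel⟩

def k16_pm_213_t : ∃ t, chk3 f_pm_213_t t 30 62 1 = true :=
  ⟨(l 6), by decide +kernel⟩

def k17_pm_213_t : ∃ t, chk3 f_pm_213_t t 60 126 1 = true :=
  ⟨(b (b (a (c (l 16771088) (l 16773016)) (l 6)) (a (c (l 16771696) (l 16773016)) (c (a (l 16770840) (l 16769992)) (a (l 16772496) (l 16771856))))) (a (b (a (b (l 16772848) (c (a (l 16773072) (l 16772600)) (a (b (l 16773312) (l 16773816)) (l 16773200)))) (c (l 16772248) (l 16773128))) (b (a (a (l 16774000) (c (l 16773624) (l 16763600))) (a (c (l 16767688) (b (l 16773344) (l 16773656))) (l 16773032))) (b (a (l 16774408) (a (l 16773840) (c (l 16773096) (l 16773496)))) (a (l 16774800) (c (l 16773960) (l 16774296)))))) (b (c (a (l 16771592) (l 16770888)) (a (l 16772664) (l 16772136))) (b (c (l 16772064) (l 16772832)) (b (c (l 16772448)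 (l 16773032)) (a (a (c (l 16773024) (l 16773376)) (l 16773072)) (l 16772760))))))), by decide +kernel⟩

def k18_pm_213_t : ∃ t, chk3 f_pm_213_t t 60 127 1 = true :=
  ⟨(b (b (a (b (c (a (l 16775248) (l 16774472)) (a (l 16775464) (l 16774728))) (c (a (l 16776032) (l 16775360)) (a (l 16776160) (l 16775520)))) (b (b (a (a (c (l 16773688) (l 16773992)) (c (l 16773040) (l 16773360))) (l 16773048)) (a (c (l 16768816) (l 16763848)) (c (l 16772976) (l 16768056)))) (b (a (l 16774448) (a (c (l 16773864) (l 16763616)) (c (l 16773304) (l 16773568)))) (a (l 16774944) (a (l 16774384) (c (l 16768784) (l 16769008))))))) (a (a (b (b (l 16776624) (a (l 16771912) (l 16776848))) (b (b (a (l 290682035431) (l 16777136)) (a (l 4) (l 253101072327))) (l 4))) (b (c (l 16776232) (l 16776320)) (b (l 16776872) (b (a (l 217667592615) (l 16777024)) (a (l 481808075847) (c (l 16776848) (l 16766336))))))) (b (c (b (l 16764560) (l 16765088)) (a (l 16775736) (l 16764608))) (a (b (l 16776384)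 (l 16776808)) (b (l 16773216) (l 16774368)))))) (b (b (a (b (b (a (l 4) (a (l 4) (l 471070658167))) (l 4)) (l 4)) (b (b (a (c (l 16766856) (l 16773432)) (l 16776672)) (a (a (l 401277439671) (c (l 16777120) (l 16766616))) (l 16776880))) (a (b (a (l 4) (c (l 385708183799) (l 417383567479))) (l 4)) (l 14)))) (a (l 4) (a (l 4) (l 14)))) (l 4))), by decide +kernel⟩

def k19_pm_213_t : ∃ t, chk3 f_pm_213_t t 61 63 1 = true :=
  ⟨(b (b (b (l 6) (a (a (c (l 16769128) (l 16771184)) (l 6)) (l 6))) (a (c (b (a (l 16770152) (l 16769552)) (a (l 16771432) (l 16770952))) (b (a (l 16771584) (l 16771168)) (a (l 16772320) (l 16772008)))) (c (b (a (l 16769128) (l 16766392)) (a (l 16770624) (c (l 16770224) (l 16770920)))) (b (a (l 16770960) (c (l 16770544) (l 16771616))) (a (l 16766616) (b (l 16771768) (l 16772304))))))) (b (b (a (a (b (c (l 16772568) (l 16773104)) (b (l 16773360) (c (l 16773392) (l 16768424)))) (c (l 16772560) (l 16767888))) (c (a (l 16769360) (b (l 16771880)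 (l 16772776))) (a (b (l 16772744) (l 16773400)) (b (l 16772912) (l 16773552))))) (b (a (b (a (a (b (c (l 16774024) (l 16774224)) (l 16771864)) (c (l 16773768) (l 16773984))) (l 16773848)) (a (a (l 16774816) (b (c (l 16774304) (l 16764000)) (l 16772136))) (a (c (l 16768800) (l 16771616)) (l 16774200)))) (c (a (l 16773720) (l 16773680)) (a (l 16774128) (l 16774232)))) (b (b (a (a (l 16775104) (a (c (l 16769400) (l 16769552)) (l 16774520))) (a (l 16774448) (l 16773176))) (l 14)) (l 14)))) (l 14))), by decide +kernel⟩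

def k20_pm_213_t : ∃ t, chk3 f_pm_213_t t 31 30 1 = true :=
  ⟨(l 6), by decide +kernel⟩

def k21_pm_213_t : ∃ t, chk3 f_pm_213_t t 31 62 1 = true :=
  ⟨(l 6), by decide +kernel⟩

def k22_pm_213_t : ∃ t, chk3 f_pm_213_t t 31 252 1 = true :=
  ⟨(l 6), by decide +kernel⟩

def k23_pm_213_t : ∃ t, chk3 f_pm_213_t t 31 506 1 = true :=
  ⟨(b (l 6) (a (a (c (a (l 16769592) (l 16769952)) (a (l 16771744) (l 16772368))) (l 6)) (l 6))), by decide +kernel⟩

def k24_pm_213_t : ∃ t, chk3 f_pm_213_t t 31 1014 1 = true :=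
  ⟨(a (a (c (a (l 16770368) (l 16770696)) (a (l 16772192) (l 16772768))) (a (c (l 16771048) (l 16773376)) (b (l 6) (c (l 16771552) (l 16774032))))) (a (a (c (c (l 16768456) (l 16772448)) (c (l 16773856) (l 16775320))) (l 6)) (l 6))), by decide +kernel⟩

def k25_pm_213_t : ∃ t, chk3 f_pm_213_t t 62 1015 1 = true :=
  ⟨(a (c (a (l 16771184) (l 16771448)) (a (l 16772696) (l 16773192))) (c (a (c (l 16771256) (l 16772200)) (c (l 16771472) (l 16772528))) (a (l 16773688) (c (l 16773632) (l 16774768))))), by decide +kernel⟩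

def k26_pm_213_t : ∃ t, chk3 f_pm_213_t t 126 1015 1 = true :=
  ⟨(a (c (c (l 16769056) (l 16772848)) (c (l 16774064) (l 16775320))) (c (a (b (l 16772336) (l 16772560)) (a (c (l 16771896) (l 16773192)) (c (a (l 16769328) (l 16770592)) (a (l 16768024) (l 16773208))))) (a (c (l 16774384) (l 16775728)) (a (c (l 16774536) (l 16775928)) (c (a (l 16774632) (l 16774560)) (a (l 16776048) (b (l 16775944) (l 16776008)))))))), by decide +kernel⟩

def k27_pm_213_t : ∃ t, chk3 f_pm_213_t t 127 1015 1 = true :=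
  ⟨(a (c (c (a (a (l 16769168) (l 16768984)) (a (l 16770112) (l 16770584))) (a (a (l 16773008) (l 16770072)) (a (l 16769752) (l 16771400)))) (c (a (a (l 16774272) (l 16773816)) (a (l 16773360) (l 16772896))) (a (c (l 16774968) (l 16775592)) (a (l 16774376) (a (l 16773928) (l 16773632)))))) (a (c (b (a (c (l 16770840) (l 16771544)) (c (l 16769328) (l 16769888))) (c (a (l 16768640) (l 16769776)) (a (l 16769304) (l 16770304)))) (c (a (c (l 16769640) (l 16771312)) (b (l 16771136) (l 16771512))) (a (c (l 16771680) (l 16773368)) (c (a (l 16769944) (l 16770968)) (a (l 16770264) (l 16771256)))))) (b (b (l 6) (a (c (c (a (l 16770600) (l 16770504)) (l 16769664)) (c (c (l 16771304) (l 16771528)) (c (l 16771760) (l 16772000)))) (b (l 6) (c (c (c (l 16770344) (l 16770480)) (c (l 16770624) (l 16770768))) (c (c (l 16770920) (l 16769768)) (c (l 16769920) (l 16770416))))))) (c (c (a (a (l 16770952) (a (l 16770880) (l 16770840))) (c (a (l 16770696) (c (l 16770592) (l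 16770648))) (a (l 16770840) (c (l 16770704) (l 16770768))))) (a (c (l 16769888) (l 16770096)) (a (c (l 16770992) (l 16771144)) (c (c (l 16770824) (l 16770880)) (c (l 16770944) (l 16771008)))))) (c (b (a (l 16770800) (c (l 16769864) (l 16770176))) (a (l 16771000) (c (l 16770088) (l 16770472)))) (a (c (l 16770736) (l 16770960)) (c (a (l 16770320) (c (l 16771328) (l 16770080))) (a (l 16770496) (c (l 16770152) (l 16770544)))))))))), by decide +kernel⟩

def k28_pm_213_t : ∃ t, chk3 f_pm_213_t t 62 254 1 = true :=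
  ⟨(b (a (c (a (b (l 16772016) (l 16772880)) (b (l 16772216) (l 16772992))) (a (b (l 16773240) (l 16773832)) (b (l 16773648) (l 16774128)))) (c (a (b (c (l 16772016) (l 16772808)) (c (l 16772800) (l 16773432))) (b (c (l 16766920) (l 16773048)) (c (l 16772872) (l 16773592)))) (a (b (l 16772080) (c (l 16774088) (l 16774776))) (b (c (l 16773968) (l 16774920)) (c (l 16774344) (l 16775120)))))) (b (a (c (a (l 16773736) (l 16773784)) (a (l 16774440) (l 16774640))) (c (a (c (l 16773592) (l 16774080)) (c (l 16773600) (l 16774168))) (a (c (l 16774592) (l 16775120)) (c (l 16774760) (l 16775368))))) (b (a (c (a (l 16774384) (l 16774392)) (a (l 16774920) (l 16775056))) (c (a (l 16774392) (l 16774392)) (a (l 16775200) (l 16775344)))) (l 14)))), by decide +kernel⟩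

def k29_pm_213_t : ∃ t, chk3 f_pm_213_t t 126 508 1 = true :=
  ⟨(a (c (b (c (l 16769672) (l 16773288)) (c (l 16772936) (l 16773752))) (b (c (l 16774312) (l 16775368)) (c (l 16774592) (l 16775464)))) (c (b (a (b (l 16772800) (l 16773040)) (b (c (l 16771032) (l 16772192)) (l 16773112))) (c (a (l 16772976) (l 16770376)) (b (l 16771176) (l 16771376)))) (b (b (a (l 16775104) (c (l 16774712) (a (l 16775872) (l 16776008)))) (c (l 16774688) (l 16775800))) (c (a (l 16774760) (l 16774880)) (a (l 16775704) (l 16775864)))))), by decide +kernel⟩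

def k30_pm_213_t : ∃ t, chk3 f_pm_213_t t 254 508 1 = true :=
  ⟨(c (a (b (a (c (b (l 16769624) (l 16771240)) (b (l 16770752) (l 16773608))) (c (l 16769664) (l 16770640))) (a (c (a (l 16772384) (b (l 16772832) (l 16770528))) (a (l 16773992) (b (l 16773816) (l 16771432)))) (c (l 16771624) (l 16773800)))) (b (b (c (l 16770920) (l 16772056)) (c (l 16771616) (l 16772384))) (c (a (l 16772192) (c (l 16771296) (l 16771608))) (a (l 16772944) (c (l 16771928) (l 16772248)))))) (a (b (c (a (b (l 16774544) (l 16774704)) (l 16774272)) (a (a (b (l 16775888) (l 16775968)) (l 16775704)) (l 16775320))) (a (c (a (l 16774976) (b (l 16774824) (l 16774992))) (a (b (l 16775992) (l 16775960)) (b (l 16775872) (l 16775960)))) (c (l 16774696) (l 16775624)))) (a (b (c (l 16773888) (l 16774800)) (c (l 16774376) (b (l 16775096) (l 16775288)))) (b (c (c (l 16770680) (l 16771064)) (c (l 16771456) (l 16774480))) (c (c (l 16772584) (l 16772920)) (b (l 16774640) (l 16774864))))))),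 by decide +kernel⟩

def k31_pm_213_t : ∃ t, chk3 f_pm_213_t t 255 508 2 = true :=
  ⟨(a (b (b (c (a (l 16769056) (l 16770216)) (a (l 16769672) (l 16770704))) (c (a (l 16770768) (l 16770640)) (a (l 16770040) (l 16771104)))) (c (a (b (l 16771168) (l 16771552)) (b (l 16771064) (l 16771800))) (a (b (l 16771712) (l 16772056)) (b (l 16771816) (l 16772520))))) (b (c (a (a (b (l 16771408) (l 16771856)) (b (a (l 16771352) (l 16771312)) (l 16770480))) (b (c (a (l 16771184) (c (l 16771096) (l 16771144))) (a (l 16771320) (c (l 16771200) (l 16771248)))) (a (a (l 16771736) (l 16771704)) (c (l 16771608) (l 16771704))))) (a (c (b (l 16770336) (l 16770768)) (b (l 16770520) (l 16770936))) (a (b (c (l 16771456) (l 16771592)) (c (l 16771904) (l 16772032))) (c (b (c (l 16771304) (l 16771352)) (l 16770488)) (b (l 16770168) (l 16770744)))))) (c (c (a (b (l 16770880) (l 16771320)) (a (b (l 16772128) (l 16772592)) (b (l 16772088) (l 16772560)))) (a (b (l 16771032) (l 16771456))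 (a (b (l 16772240) (l 16772688)) (b (l 16772168) (l 16772672))))) (a (b (c (l 16771184) (l 16771344)) (c (l 16771600) (l 16771744))) (a (b (c (l 16772352) (l 16772464)) (c (l 16772784) (l 16772888))) (c (b (l 16771024) (l 16771552)) (b (l 16771192) (l 16771792)))))))), by decide +kernel⟩

def k32_pm_213_t : ∃ t, chk3 f_pm_213_t t 255 508 3 = true :=
  ⟨(a (b (b (a (c (l 16770320) (l 16772304)) (c (l 16771880) (a (l 16773208) (l 16771624)))) (c (a (l 16770648) (l 16772240)) (a (l 16772592) (c (l 16773272) (l 16770904))))) (c (a (b (l 16772280) (l 16772584)) (b (l 16772592) (l 16773096))) (b (a (l 16772864) (c (l 16773592) (l 16771208))) (a (l 16774440) (c (l 16772600) (l 16772816)))))) (b (c (b (b (a (l 16771208) (c (l 16770392) (l 16770688))) (a (l 16771400) (c (l 16770608) (l 16770904)))) (b (a (l 16771600) (c (l 16770824) (l 16771112))) (a (l 16771800) (c (l 16771040) (l 16771320))))) (a (c (b (l 16771112) (l 16771488)) (b (l 16771976) (l 16772328)))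 (c (b (a (l 16770728) (c (l 16771752) (l 16770504))) (a (l 16771128) (c (l 16770864) (l 16770920)))) (b (a (l 16770888) (c (l 16770888) (l 16770952))) (a (l 16771928) (c (l 16771304) (l 16771352))))))) (c (b (b (a (l 16772152) (c (l 16771416) (l 16771528))) (a (l 16772344) (c (l 16771632) (l 16771736)))) (b (a (l 16772536) (c (l 16771840) (l 16772104))) (a (l 16772720) (c (l 16772048) (l 16772304))))) (a (c (b (l 16772504) (l 16772856)) (b (l 16772680) (l 16773344))) (c (b (a (l 16771520) (c (l 16771280) (l 16771656))) (a (l 16771904) (c (l 16772016) (l 16772056)))) (b (a (l 16772304) (c (l 16771704) (l 16772080))) (a (l 16772680) (c (l 16772424) (l 16772472))))))))), by decide +kernel⟩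

def k33_pm_213_t : ∃ t, chk3 f_pm_213_t t 126 1018 1 = true :=
  ⟨(c (a (c (c (l 16770824) (l 16771144)) (l 16774248)) (c (a (l 16770968) (l 16772264)) (a (l 16774296) (l 16774320)))) (a (c (a (l 16774872) (l 16774952)) (a (l 16775544) (l 16775664))) (c (a (l 16775024) (l 16775088)) (a (l 16775776) (l 16775888))))), by decide +kernel⟩

def k34_pm_213_t : ∃ t, chk3 f_pm_213_t t 254 1018 1 = true :=
  ⟨(b (a (c (a (c (l 16770824) (l 16771640)) (c (l 16772064) (l 16774160))) (a (c (l 16775112) (l 16775992)) (c (l 16774968) (a (l 16775904) (l 16775744))))) (c (c (c (l 16771864) (l 16772168)) (c (l 16772480) (l 16772800))) (c (c (l 16773128) (l 16774768)) (a (l 16775464) (l 16775088))))) (a (c (a (l 16774072) (a (b (l 16773360) (l 16774144)) (l 16773712))) (a (l 16775584) (c (a (l 16775216) (l 16775128)) (a (l 16776008) (l 16775880))))) (c (c (c (l 16772208) (l 16772488)) (c (l 16772784) (l 16773080))) (c (c (l 16773376) (l 16775000)) (a (l 16775632) (l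 16775296)))))), by decide +kernel⟩

def k35_pm_213_t : ∃ t, chk3 f_pm_213_t t 255 1018 1 = true :=
  ⟨(c (a (c (a (b (l 16771928) (l 16772296)) (b (l 16772200) (l 16772752))) (a (b (l 16772400) (l 16772728)) (b (l 16772888) (l 16773416)))) (b (b (c (a (l 16771712) (c (l 16773240) (l 16772992))) (a (l 16772304) (c (l 16771760) (l 16772168)))) (c (a (l 16771920) (c (l 16771824) (l 16771896))) (a (l 16772496) (c (l 16772136) (l 16772376))))) (c (a (c (l 16772496) (l 16772608)) (c (b (l 16772128) (a (l 16773576) (l 16773576))) (b (l 16772280) (l 16772488)))) (a (c (l 16772728) (l 16773176)) (c (b (l 16772344) (l 16772720)) (b (l 16772584) (l 16772784))))))) (a (c (b (a (l 16772888) (l 16773600)) (a (l 16773176) (c (l 16772856) (l 16773032)))) (b (a (l 16774704) (c (l 16772912) (l 16773112))) (a (l 16774960) (c (l 16773208) (l 16773392))))) (c (a (b (c (l 16772928) (l 16773064)) (c (l 16773296) (l 16773424))) (b (b (c (l 16772248) (l 16772504)) (c (l 16772456)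 (l 16772784))) (b (c (l 16772816) (l 16773056)) (c (l 16773016) (l 16773288))))) (b (a (c (l 16773208) (c (l 16772664) (l 16772736))) (c (a (l 16772936) (c (l 16772744) (l 16772776))) (a (l 16773040) (c (l 16772816) (l 16772856))))) (a (c (l 16773880) (c (l 16773648) (l 16773712))) (c (a (l 16773312) (c (l 16773136) (l 16773168))) (a (l 16773400) (c (l 16773200) (l 16773392))))))))), by decide +kernel⟩

def k36_pm_213_t : ∃ t, chk3 f_pm_213_t t 63 1019 1 = true :=
  ⟨(b (b (b (b (b (a (c (a (l 16774240) (l 16774232)) (a (l 16775408) (a (l 16775512) (l 16775576)))) (b (a (a (c (a (l 16774208) (a (l 16774200) (l 16774176))) (a (l 16775624) (a (l 16775640) (l 16775584)))) (c (c (l 16773824) (l 16774384)) (c (l 16774968) (l 16775568)))) (c (a (c (l 16772472) (l 16772840)) (c (a (l 16773744) (l 16773720)) (c (l 16772880) (l 16772968)))) (c (a (l 16773216) (c (l 16773304) (a (l 16774256) (l 16774008)))) (a (l 16773616) (a (l 16774440) (a (l 16774192) (l 16773376)))))))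 (l 14))) (a (l 14) (l 14))) (l 14)) (l 14)) (l 14)) (l 14)), by decide +kernel⟩

def k37_pm_213_t : ∃ t, chk3 f_pm_213_t t 31 255 1 = true :=
  ⟨(l 14), by decide +kernel⟩

theorem s38_pm_213_t : ∃ t, chk3 f_pm_213_t t 127 1018 1 = true := ex3_a k34_pm_213_t k35_pm_213_t

theorem s39_pm_213_t : ∃ t, chk3 f_pm_213_t t 63 1018 1 = true := ex3_a k33_pm_213_t s38_pm_213_t

theorem s40_pm_213_t : ∃ t, chk3 f_pm_213_t t 63 509 1 = true := ex3_b s39_pm_213_t k36_pm_213_t

theorem s41_pm_213_t : ∃ t, chk3 f_pm_213_t t 255 508 1 = true := ex3_c k31_pm_213_t k32_pm_213_t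

theorem s42_pm_213_t : ∃ t, chk3 f_pm_213_t t 127 508 1 = true := ex3_a k30_pm_213_t s41_pm_213_t

theorem s43_pm_213_t : ∃ t, chk3 f_pm_213_t t 63 508 1 = true := ex3_a k29_pm_213_t s42_pm_213_t

theorem s44_pm_213_t : ∃ t, chk3 f_pm_213_t t 63 254 1 = true := ex3_b s43_pm_213_t s40_pm_213_t

theorem s45_pm_213_t : ∃ t, chk3 f_pm_213_t t 31 254 1 = true := ex3_a k28_pm_213_t s44_pm_213_t

theorem s46_pm_213_t : ∃ t, chk3 f_pm_213_t t 31 127 1 = true := ex3_b s45_pm_213_t k37_pm_213_t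

theorem s47_pm_213_t : ∃ t, chk3 f_pm_213_t t 63 1015 1 = true := ex3_a k26_pm_213_t k27_pm_213_t

theorem s48_pm_213_t : ∃ t, chk3 f_pm_213_t t 31 1015 1 = true := ex3_a k25_pm_213_t s47_pm_213_t

theorem s49_pm_213_t : ∃ t, chk3 f_pm_213_t t 31 507 1 = true := ex3_b k24_pm_213_t s48_pm_213_t

theorem s50_pm_213_t : ∃ t, chk3 f_pm_213_t t 31 253 1 = true := ex3_b k23_pm_213_t s49_pm_213_t

theorem s51_pm_213_t : ∃ t, chk3 f_pm_213_t t 31 126 1 = true := ex3_b k22_pm_213_t s50_pm_213_t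

theorem s52_pm_213_t : ∃ t, chk3 f_pm_213_t t 31 63 1 = true := ex3_b s51_pm_213_t s46_pm_213_t

theorem s53_pm_213_t : ∃ t, chk3 f_pm_213_t t 31 31 1 = true := ex3_b k21_pm_213_t s52_pm_213_t

theorem s54_pm_213_t : ∃ t, chk3 f_pm_213_t t 31 15 1 = true := ex3_b k20_pm_213_t s53_pm_213_t

theorem s55_pm_213_t : ∃ t, chk3 f_pm_213_t t 60 63 1 = true := ex3_b k17_pm_213_t k18_pm_213_t

theorem s56_pm_213_t : ∃ t, chk3 f_pm_213_t t 30 63 1 = true := ex3_a s55_pm_213_t k19_pm_213_t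

theorem s57_pm_213_t : ∃ t, chk3 f_pm_213_t t 30 31 1 = true := ex3_b k16_pm_213_t s56_pm_213_t

theorem s58_pm_213_t : ∃ t, chk3 f_pm_213_t t 30 15 1 = true := ex3_b k15_pm_213_t s57_pm_213_t

theorem s59_pm_213_t : ∃ t, chk3 f_pm_213_t t 15 15 1 = true := ex3_a s58_pm_213_t s54_pm_213_t

theorem s60_pm_213_t : ∃ t, chk3 f_pm_213_t t 15 7 1 = true := ex3_b k14_pm_213_t s59_pm_213_t

theorem s61_pm_213_t : ∃ t, chk3 f_pm_213_t t 29 63 1 = true := ex3_b k12_pm_213_t k13_pm_213_t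

theorem s62_pm_213_t : ∃ t, chk3 f_pm_213_t t 29 31 1 = true := ex3_b k11_pm_213_t s61_pm_213_t

theorem s63_pm_213_t : ∃ t, chk3 f_pm_213_t t 29 15 1 = true := ex3_b k10_pm_213_t s62_pm_213_t

theorem s64_pm_213_t : ∃ t, chk3 f_pm_213_t t 14 15 1 = true := ex3_a k9_pm_213_t s63_pm_213_t

theorem s65_pm_213_t : ∃ t, chk3 f_pm_213_t t 14 7 1 = true := ex3_b k8_pm_213_t s64_pm_213_t

theorem s66_pm_213_t : ∃ t, chk3 f_pm_213_t t 7 7 1 = true := ex3_a s65_pm_213_t s60_pm_213_t

theorem s67_pm_213_t : ∃ t, chk3 f_pm_213_t t 7 3 1 = true := ex3_b k7_pm_213_t s66_pm_213_t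

theorem s68_pm_213_t : ∃ t, chk3 f_pm_213_t t 6 7 1 = true := ex3_a k5_pm_213_t k6_pm_213_t

theorem s69_pm_213_t : ∃ t, chk3 f_pm_213_t t 6 3 1 = true := ex3_b k4_pm_213_t s68_pm_213_t

theorem s70_pm_213_t : ∃ t, chk3 f_pm_213_t t 3 3 1 = true := ex3_a s69_pm_213_t s67_pm_213_t

theorem s71_pm_213_t : ∃ t, chk3 f_pm_213_t t 3 1 1 = true := ex3_b k3_pm_213_t s70_pm_213_t

theorem s72_pm_213_t : ∃ t, chk3 f_pm_213_t t 2 3 1 = true := ex3_a k1_pm_213_t k2_pm_213_t

theorem s73_pm_213_t : ∃ t, chk3 f_pm_213_t t 2 1 1 = true := ex3_b k0_pm_213_t s72_pm_213_t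

theorem s74_pm_213_t : ∃ t, chk3 f_pm_213_t t 1 1 1 = true := ex3_a s73_pm_213_t s71_pm_213_t

theorem c_pm_213_t : CertNE 0 536870912 536870912 536870912 991146299 28908434 3 eng mog cd0q2 cd0q1 pd3 true true false .pnn 2 1 3
    ndB0q2 ndB0q1 pcB3 cut_pm_213_t Ext.none :=
  certNE1 (fam := true) (s1 := true) (s2 := false) (a := 2) (b := 1) (c := 3) (cn := .pnn) (n1 := ndB0q2) (n2 := ndB0q1) (pc := pcB3) (cut := cut_pm_213_t) (xt := Ext.none) (P1 := 0) (W1 := 536870912) (P2 := 536870912) (W2 := 536870912) (P3 := 991146299) (W3 := 28908434) (N0 := 3) (En := eng) (mo := mog) (C1 := cd0q2) (C2 := cd0q1) (C3 := pd3)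
    rfl (fun _ => rfl) s74_pm_213_t

noncomputable def cut_mm_001_s : Cut := Cut.of [[⟨4, 0, 0, 1449551462⟩]]

noncomputable def f_mm_001_s : ℕ → ℕ → ℕ → ℕ → Bool := onCell 0 536870912 0 536870912 991146299 28908434
    (rowNE 3 eng mog cd0q0 cd0q0 pd1 0 true false false .up 0 0 1 (qsf 0 536870912 0 536870912 1) ndB0q0 ndB0q0 pcB1 cut_mm_001_s Ext.none)

def k0_mm_001_s : ∃ t, chk3 f_mm_001_s t 1 1 1 = true :=
  ⟨(l 4), by decide +kernel⟩

theorem c_mm_001_s : CertNE 0 536870912 0 536870912 991146299 28908434 3 eng mog cd0q0 cd0q0 pd1 true false false .up 0 0 1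
    ndB0q0 ndB0q0 pcB1 cut_mm_001_s Ext.none :=
  certNE0 (fam := true) (s1 := false) (s2 := false) (a := 0) (b := 0) (c := 1) (cn := .up) (n1 := ndB0q0) (n2 := ndB0q0) (pc := pcB1) (cut := cut_mm_001_s) (xt := Ext.none) (P1 := 0) (W1 := 536870912) (P2 := 0) (W2 := 536870912) (P3 := 991146299) (W3 := 28908434) (N0 := 3) (En := eng) (mo := mog) (C1 := cd0q0) (C2 := cd0q0) (C3 := pd1)
    rfl k0_mm_001_s

noncomputable def cut_mm_001_t : Cut := Cut.of [[⟨3, 0, 0, 2845415833⟩]]

noncomputable def f_mm_001_t : ℕ → ℕ → ℕ → ℕ → Bool := onCell 0 536870912 0 536870912 991146299 28908434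
    (rowNE 3 eng mog cd0q0 cd0q0 pd1 0 true false false .up 0 0 1 (qsf 0 536870912 0 536870912 1) ndB0q0 ndB0q0 pcB1 cut_mm_001_t Ext.none)

def k0_mm_001_t : ∃ t, chk3 f_mm_001_t t 1 1 1 = true :=
  ⟨(l 4), by decide +kernel⟩

theorem c_mm_001_t : CertNE 0 536870912 0 536870912 991146299 28908434 3 eng mog cd0q0 cd0q0 pd1 true false false .up 0 0 1
    ndB0q0 ndB0q0 pcB1 cut_mm_001_t Ext.none :=
  certNE0 (fam := true) (s1 := false) (s2 := false) (a := 0) (b := 0) (c := 1) (cn := .up) (n1 := ndB0q0) (n2 := ndB0q0) (pc := pcB1) (cut := cut_mm_001_t) (xt := Ext.none) (P1 := 0) (W1 := 536870912) (P2 := 0) (W2 := 536870912) (P3 := 991146299) (W3 := 28908434) (N0 := 3) (En := eng) (mo := mog) (C1 := cd0q0) (C2 := cd0q0) (C3 := pd1)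
    rfl k0_mm_001_t

noncomputable def cut_mm_011_s : Cut := Cut.of [[⟨4, 0, 0, 1449551462⟩]]

noncomputable def f_mm_011_s : ℕ → ℕ → ℕ → ℕ → Bool := onCell 0 536870912 536870912 536870912 991146299 28908434
    (rowNE 3 eng mog cd0q0 cd0q1 pd1 0 true false false .pnn 0 1 1 (qsf 0 536870912 536870912 536870912 1) ndB0q0 ndB0q1 pcB1 cut_mm_011_s Ext.none)

def k0_mm_011_s : ∃ t, chk3 f_mm_011_s t 1 1 1 = true :=
  ⟨(l 6), by decide +kernel⟩

theorem c_mm_011_s : CertNE 0 536870912 536870912 536870912 991146299 28908434 3 eng mog cd0q0 cd0q1 pd1 true false false .pnn 0 1 1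
    ndB0q0 ndB0q1 pcB1 cut_mm_011_s Ext.none :=
  certNE0 (fam := true) (s1 := false) (s2 := false) (a := 0) (b := 1) (c := 1) (cn := .pnn) (n1 := ndB0q0) (n2 := ndB0q1) (pc := pcB1) (cut := cut_mm_011_s) (xt := Ext.none) (P1 := 0) (W1 := 536870912) (P2 := 536870912) (W2 := 536870912) (P3 := 991146299) (W3 := 28908434) (N0 := 3) (En := eng) (mo := mog) (C1 := cd0q0) (C2 := cd0q1) (C3 := pd1)
    rfl k0_mm_011_s

noncomputable def cut_mm_011_t : Cut := Cut.of [[⟨3, 0, 0, 2845415833⟩]]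

noncomputable def f_mm_011_t : ℕ → ℕ → ℕ → ℕ → Bool := onCell 0 536870912 536870912 536870912 991146299 28908434
    (rowNE 3 eng mog cd0q0 cd0q1 pd1 0 true false false .pnn 0 1 1 (qsf 0 536870912 536870912 536870912 1) ndB0q0 ndB0q1 pcB1 cut_mm_011_t Ext.none)

def k0_mm_011_t : ∃ t, chk3 f_mm_011_t t 1 1 1 = true :=
  ⟨(b (l 4) (l 5)), by decide +kernel⟩

theorem c_mm_011_t : CertNE 0 536870912 536870912 536870912 991146299 28908434 3 eng mog cd0q0 cd0q1 pd1 true false false .pnn 0 1 1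
    ndB0q0 ndB0q1 pcB1 cut_mm_011_t Ext.none :=
  certNE0 (fam := true) (s1 := false) (s2 := false) (a := 0) (b := 1) (c := 1) (cn := .pnn) (n1 := ndB0q0) (n2 := ndB0q1) (pc := pcB1) (cut := cut_mm_011_t) (xt := Ext.none) (P1 := 0) (W1 := 536870912) (P2 := 536870912) (W2 := 536870912) (P3 := 991146299) (W3 := 28908434) (N0 := 3) (En := eng) (mo := mog) (C1 := cd0q0) (C2 := cd0q1) (C3 := pd1)
    rfl k0_mm_011_t

noncomputable def cut_mm_012_s : Cut := Cut.of [[⟨4, 0, 0, 1449551462⟩]]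

noncomputable def f_mm_012_s : ℕ → ℕ → ℕ → ℕ → Bool := onCell 0 536870912 536870912 536870912 991146299 28908434
    (rowNE 3 eng mog cd0q0 cd0q1 pd2 0 true false false .pnp 0 1 2 (qsf 0 536870912 536870912 536870912 2) ndB0q0 ndB0q1 pcB2 cut_mm_012_s Ext.none)

def k0_mm_012_s : ∃ t, chk3 f_mm_012_s t 1 1 1 = true :=
  ⟨(l 6), by decide +kernel⟩

theorem c_mm_012_s : CertNE 0 536870912 536870912 536870912 991146299 28908434 3 eng mog cd0q0 cd0q1 pd2 true false false .pnp 0 1 2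
    ndB0q0 ndB0q1 pcB2 cut_mm_012_s Ext.none :=
  certNE0 (fam := true) (s1 := false) (s2 := false) (a := 0) (b := 1) (c := 2) (cn := .pnp) (n1 := ndB0q0) (n2 := ndB0q1) (pc := pcB2) (cut := cut_mm_012_s) (xt := Ext.none) (P1 := 0) (W1 := 536870912) (P2 := 536870912) (W2 := 536870912) (P3 := 991146299) (W3 := 28908434) (N0 := 3) (En := eng) (mo := mog) (C1 := cd0q0) (C2 := cd0q1) (C3 := pd2)
    rfl k0_mm_012_s

noncomputable def cut_mm_012_t : Cut := Cut.of [[⟨3, 0, 0, 2845415833⟩]]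

noncomputable def f_mm_012_t : ℕ → ℕ → ℕ → ℕ → Bool := onCell 0 536870912 536870912 536870912 991146299 28908434
    (rowNE 3 eng mog cd0q0 cd0q1 pd2 0 true false false .pnp 0 1 2 (qsf 0 536870912 536870912 536870912 2) ndB0q0 ndB0q1 pcB2 cut_mm_012_t Ext.none)

def k0_mm_012_t : ∃ t, chk3 f_mm_012_t t 1 1 1 = true :=
  ⟨(b (l 4) (l 5)), by decide +kernel⟩

theorem c_mm_012_t : CertNE 0 536870912 536870912 536870912 991146299 28908434 3 eng mog cd0q0 cd0q1 pd2 true false false .pnp 0 1 2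
    ndB0q0 ndB0q1 pcB2 cut_mm_012_t Ext.none :=
  certNE0 (fam := true) (s1 := false) (s2 := false) (a := 0) (b := 1) (c := 2) (cn := .pnp) (n1 := ndB0q0) (n2 := ndB0q1) (pc := pcB2) (cut := cut_mm_012_t) (xt := Ext.none) (P1 := 0) (W1 := 536870912) (P2 := 536870912) (W2 := 536870912) (P3 := 991146299) (W3 := 28908434) (N0 := 3) (En := eng) (mo := mog) (C1 := cd0q0) (C2 := cd0q1) (C3 := pd2)
    rfl k0_mm_012_t

noncomputable def cut_mm_022_s : Cut := Cut.of [[⟨4, 0, 0, 1449551462⟩]]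

noncomputable def f_mm_022_s : ℕ → ℕ → ℕ → ℕ → Bool := onCell 0 536870912 0 536870912 991146299 28908434
    (rowNE 3 eng mog cd0q0 cd0q2 pd2 0 true false false .pp 0 2 2 (qsf 0 536870912 0 536870912 2) ndB0q0 ndB0q2 pcB2 cut_mm_022_s Ext.none)

def k0_mm_022_s : ∃ t, chk3 f_mm_022_s t 1 1 1 = true :=
  ⟨(l 5), by decide +kernel⟩

theorem c_mm_022_s : CertNE 0 536870912 0 536870912 991146299 28908434 3 eng mog cd0q0 cd0q2 pd2 true false false .pp 0 2 2
    ndB0q0 ndB0q2 pcB2 cut_mm_022_s Ext.none :=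
  certNE0 (fam := true) (s1 := false) (s2 := false) (a := 0) (b := 2) (c := 2) (cn := .pp) (n1 := ndB0q0) (n2 := ndB0q2) (pc := pcB2) (cut := cut_mm_022_s) (xt := Ext.none) (P1 := 0) (W1 := 536870912) (P2 := 0) (W2 := 536870912) (P3 := 991146299) (W3 := 28908434) (N0 := 3) (En := eng) (mo := mog) (C1 := cd0q0) (C2 := cd0q2) (C3 := pd2)
    rfl k0_mm_022_s

noncomputable def cut_mm_022_t : Cut := Cut.of [[⟨3, 0, 0, 2845415833⟩]]

noncomputable def f_mm_022_t : ℕ → ℕ → ℕ → ℕ → Bool := onCell 0 536870912 0 536870912 991146299 28908434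
    (rowNE 3 eng mog cd0q0 cd0q2 pd2 0 true false false .pp 0 2 2 (qsf 0 536870912 0 536870912 2) ndB0q0 ndB0q2 pcB2 cut_mm_022_t Ext.none)

def k0_mm_022_t : ∃ t, chk3 f_mm_022_t t 1 1 1 = true :=
  ⟨(l 5), by decide +kernel⟩

theorem c_mm_022_t : CertNE 0 536870912 0 536870912 991146299 28908434 3 eng mog cd0q0 cd0q2 pd2 true false false .pp 0 2 2
    ndB0q0 ndB0q2 pcB2 cut_mm_022_t Ext.none :=
  certNE0 (fam := true) (s1 := false) (s2 := false) (a := 0) (b := 2) (c := 2) (cn := .pp) (n1 := ndB0q0) (n2 := ndB0q2) (pc := pcB2) (cut := cut_mm_022_t) (xt := Ext.none) (P1 := 0) (W1 := 536870912) (P2 := 0) (W2 := 536870912) (P3 := 991146299) (W3 := 28908434) (N0 := 3) (En := eng) (mo := mog) (C1 := cd0q0) (C2 := cd0q2) (C3 := pd2)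
    rfl k0_mm_022_t

noncomputable def cut_mm_023_s : Cut := Cut.of [[⟨4, 0, 0, 1449551462⟩]]

noncomputable def f_mm_023_s : ℕ → ℕ → ℕ → ℕ → Bool := onCell 0 536870912 0 536870912 991146299 28908434
    (rowNE 3 eng mog cd0q0 cd0q2 pd3 0 true false false .up 0 2 3 (qsf 0 536870912 0 536870912 3) ndB0q0 ndB0q2 pcB3 cut_mm_023_s Ext.none)

def k0_mm_023_s : ∃ t, chk3 f_mm_023_s t 1 1 1 = true :=
  ⟨(l 5), by decide +kernel⟩

theorem c_mm_023_s : CertNE 0 536870912 0 536870912 991146299 28908434 3 eng mog cd0q0 cd0q2 pd3 true false false .up 0 2 3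
    ndB0q0 ndB0q2 pcB3 cut_mm_023_s Ext.none :=
  certNE0 (fam := true) (s1 := false) (s2 := false) (a := 0) (b := 2) (c := 3) (cn := .up) (n1 := ndB0q0) (n2 := ndB0q2) (pc := pcB3) (cut := cut_mm_023_s) (xt := Ext.none) (P1 := 0) (W1 := 536870912) (P2 := 0) (W2 := 536870912) (P3 := 991146299) (W3 := 28908434) (N0 := 3) (En := eng) (mo := mog) (C1 := cd0q0) (C2 := cd0q2) (C3 := pd3)
    rfl k0_mm_023_s

noncomputable def cut_mm_023_t : Cut := Cut.of [[⟨3, 0, 0, 2845415833⟩]]

noncomputable def f_mm_023_t : ℕ → ℕ → ℕ → ℕ → Bool := onCell 0 536870912 0 536870912 991146299 28908434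
    (rowNE 3 eng mog cd0q0 cd0q2 pd3 0 true false false .up 0 2 3 (qsf 0 536870912 0 536870912 3) ndB0q0 ndB0q2 pcB3 cut_mm_023_t Ext.none)

def k0_mm_023_t : ∃ t, chk3 f_mm_023_t t 1 1 1 = true :=
  ⟨(l 5), by decide +kernel⟩

theorem c_mm_023_t : CertNE 0 536870912 0 536870912 991146299 28908434 3 eng mog cd0q0 cd0q2 pd3 true false false .up 0 2 3
    ndB0q0 ndB0q2 pcB3 cut_mm_023_t Ext.none :=
  certNE0 (fam := true) (s1 := false) (s2 := false) (a := 0) (b := 2) (c := 3) (cn := .up) (n1 := ndB0q0) (n2 := ndB0q2) (pc := pcB3) (cut := cut_mm_023_t) (xt := Ext.none) (P1 := 0) (W1 := 536870912) (P2 := 0) (W2 := 536870912) (P3 := 991146299) (W3 := 28908434) (N0 := 3) (En := eng) (mo := mog) (C1 := cd0q0) (C2 := cd0q2) (C3 := pd3)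
    rfl k0_mm_023_t

noncomputable def cut_mm_101_s : Cut := Cut.of [[⟨4, 0, 0, 1449551462⟩], [⟨0, 1, 0, 53687091⟩, ⟨1, 0, 0, 53687091⟩, ⟨2, 1, 0, 53687091⟩]]

noncomputable def f_mm_101_s : ℕ → ℕ → ℕ → ℕ → Bool := onCell 536870912 536870912 0 536870912 991146299 28908434
    (rowNE 3 eng mog cd0q1 cd0q0 pd1 0 true false false .npn 1 0 1 (qsf 536870912 536870912 0 536870912 1) ndB0q1 ndB0q0 pcB1 cut_mm_101_s Ext.none)

def k0_mm_101_s : ∃ t, chk3 f_mm_101_s t 1 1 1 = true :=
  ⟨(l 6), by decide +kernel⟩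

theorem c_mm_101_s : CertNE 536870912 536870912 0 536870912 991146299 28908434 3 eng mog cd0q1 cd0q0 pd1 true false false .npn 1 0 1
    ndB0q1 ndB0q0 pcB1 cut_mm_101_s Ext.none :=
  certNE0 (fam := true) (s1 := false) (s2 := false) (a := 1) (b := 0) (c := 1) (cn := .npn) (n1 := ndB0q1) (n2 := ndB0q0) (pc := pcB1) (cut := cut_mm_101_s) (xt := Ext.none) (P1 := 536870912) (W1 := 536870912) (P2 := 0) (W2 := 536870912) (P3 := 991146299) (W3 := 28908434) (N0 := 3) (En := eng) (mo := mog) (C1 := cd0q1) (C2 := cd0q0) (C3 := pd1)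
    rfl k0_mm_101_s

noncomputable def cut_mm_101_t : Cut := Cut.of [[⟨3, 0, 0, 2845415833⟩], [⟨0, 1, 0, 53687091⟩, ⟨1, 0, 0, 53687091⟩, ⟨2, 1, 0, 53687091⟩]]

noncomputable def f_mm_101_t : ℕ → ℕ → ℕ → ℕ → Bool := onCell 536870912 536870912 0 536870912 991146299 28908434
    (rowNE 3 eng mog cd0q1 cd0q0 pd1 0 true false false .npn 1 0 1 (qsf 536870912 536870912 0 536870912 1) ndB0q1 ndB0q0 pcB1 cut_mm_101_t Ext.none)

def k0_mm_101_t : ∃ t, chk3 f_mm_101_t t 1 1 1 = true :=
  ⟨(a (l 4) (b (a (l 4) (b (a (l 4) (b (a (l 4) (b (l 14) (l 4))) (l 4))) (l 4))) (l 4))), by decide +kernel⟩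

theorem c_mm_101_t : CertNE 536870912 536870912 0 536870912 991146299 28908434 3 eng mog cd0q1 cd0q0 pd1 true false false .npn 1 0 1
    ndB0q1 ndB0q0 pcB1 cut_mm_101_t Ext.none :=
  certNE0 (fam := true) (s1 := false) (s2 := false) (a := 1) (b := 0) (c := 1) (cn := .npn) (n1 := ndB0q1) (n2 := ndB0q0) (pc := pcB1) (cut := cut_mm_101_t) (xt := Ext.none) (P1 := 536870912) (W1 := 536870912) (P2 := 0) (W2 := 536870912) (P3 := 991146299) (W3 := 28908434) (N0 := 3) (En := eng) (mo := mog) (C1 := cd0q1) (C2 := cd0q0) (C3 := pd1)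
    rfl k0_mm_101_t

noncomputable def cut_mm_102_s : Cut := Cut.of [[⟨4, 0, 0, 1449551462⟩], [⟨0, 1, 0, 53687091⟩, ⟨1, 0, 0, 53687091⟩, ⟨2, 1, 0, 53687091⟩]]

noncomputable def f_mm_102_s : ℕ → ℕ → ℕ → ℕ → Bool := onCell 536870912 536870912 0 536870912 991146299 28908434
    (rowNE 3 eng mog cd0q1 cd0q0 pd2 0 true false false .npp 1 0 2 (qsf 536870912 536870912 0 536870912 2) ndB0q1 ndB0q0 pcB2 cut_mm_102_s Ext.none)

def k0_mm_102_s : ∃ t, chk3 f_mm_102_s t 1 1 1 = true :=
  ⟨(l 6), by decide +kernel⟩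

theorem c_mm_102_s : CertNE 536870912 536870912 0 536870912 991146299 28908434 3 eng mog cd0q1 cd0q0 pd2 true false false .npp 1 0 2
    ndB0q1 ndB0q0 pcB2 cut_mm_102_s Ext.none :=
  certNE0 (fam := true) (s1 := false) (s2 := false) (a := 1) (b := 0) (c := 2) (cn := .npp) (n1 := ndB0q1) (n2 := ndB0q0) (pc := pcB2) (cut := cut_mm_102_s) (xt := Ext.none) (P1 := 536870912) (W1 := 536870912) (P2 := 0) (W2 := 536870912) (P3 := 991146299) (W3 := 28908434) (N0 := 3) (En := eng) (mo := mog) (C1 := cd0q1) (C2 := cd0q0) (C3 := pd2)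
    rfl k0_mm_102_s

noncomputable def cut_mm_102_t : Cut := Cut.of [[⟨3, 0, 0, 2845415833⟩], [⟨0, 1, 0, 53687091⟩, ⟨1, 0, 0, 53687091⟩, ⟨2, 1, 0, 53687091⟩]]

noncomputable def f_mm_102_t : ℕ → ℕ → ℕ → ℕ → Bool := onCell 536870912 536870912 0 536870912 991146299 28908434
    (rowNE 3 eng mog cd0q1 cd0q0 pd2 0 true false false .npp 1 0 2 (qsf 536870912 536870912 0 536870912 2) ndB0q1 ndB0q0 pcB2 cut_mm_102_t Ext.none)

def k0_mm_102_t : ∃ t, chk3 f_mm_102_t t 1 1 1 = true :=
  ⟨(a (l 4) (b (a (l 4) (b (a (l 4) (b (a (l 4) (b (l 14) (l 4))) (l 4))) (l 4))) (l 4))), by decide +kernel⟩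

theorem c_mm_102_t : CertNE 536870912 536870912 0 536870912 991146299 28908434 3 eng mog cd0q1 cd0q0 pd2 true false false .npp 1 0 2
    ndB0q1 ndB0q0 pcB2 cut_mm_102_t Ext.none :=
  certNE0 (fam := true) (s1 := false) (s2 := false) (a := 1) (b := 0) (c := 2) (cn := .npp) (n1 := ndB0q1) (n2 := ndB0q0) (pc := pcB2) (cut := cut_mm_102_t) (xt := Ext.none) (P1 := 536870912) (W1 := 536870912) (P2 := 0) (W2 := 536870912) (P3 := 991146299) (W3 := 28908434) (N0 := 3) (En := eng) (mo := mog) (C1 := cd0q1) (C2 := cd0q0) (C3 := pd2)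
    rfl k0_mm_102_t

noncomputable def cut_mm_112_s : Cut := Cut.of [[⟨4, 0, 0, 1449551462⟩]]

noncomputable def f_mm_112_s : ℕ → ℕ → ℕ → ℕ → Bool := onCell 536870912 536870912 536870912 536870912 991146299 28908434
    (rowNE 3 eng mog cd0q1 cd0q1 pd2 0 true false false .dn 1 1 2 (qsf 536870912 536870912 536870912 536870912 2) ndB0q1 ndB0q1 pcB2 cut_mm_112_s Ext.none)

def k0_mm_112_s : ∃ t, chk3 f_mm_112_s t 1 1 1 = true :=
  ⟨(l 4), by decide +kernel⟩

theorem c_mm_112_s : CertNE 536870912 536870912 536870912 536870912 991146299 28908434 3 eng mog cd0q1 cd0q1 pd2 true false false .dn 1 1 2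
    ndB0q1 ndB0q1 pcB2 cut_mm_112_s Ext.none :=
  certNE0 (fam := true) (s1 := false) (s2 := false) (a := 1) (b := 1) (c := 2) (cn := .dn) (n1 := ndB0q1) (n2 := ndB0q1) (pc := pcB2) (cut := cut_mm_112_s) (xt := Ext.none) (P1 := 536870912) (W1 := 536870912) (P2 := 536870912) (W2 := 536870912) (P3 := 991146299) (W3 := 28908434) (N0 := 3) (En := eng) (mo := mog) (C1 := cd0q1) (C2 := cd0q1) (C3 := pd2)
    rfl k0_mm_112_s

noncomputable def cut_mm_112_t : Cut := Cut.of [[⟨3, 0, 0, 2845415833⟩]]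

noncomputable def f_mm_112_t : ℕ → ℕ → ℕ → ℕ → Bool := onCell 536870912 536870912 536870912 536870912 991146299 28908434
    (rowNE 3 eng mog cd0q1 cd0q1 pd2 0 true false false .dn 1 1 2 (qsf 536870912 536870912 536870912 536870912 2) ndB0q1 ndB0q1 pcB2 cut_mm_112_t Ext.none)

def k0_mm_112_t : ∃ t, chk3 f_mm_112_t t 1 1 1 = true :=
  ⟨(l 4), by decide +kernel⟩

theorem c_mm_112_t : CertNE 536870912 536870912 536870912 536870912 991146299 28908434 3 eng mog cd0q1 cd0q1 pd2 true false false .dn 1 1 2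
    ndB0q1 ndB0q1 pcB2 cut_mm_112_t Ext.none :=
  certNE0 (fam := true) (s1 := false) (s2 := false) (a := 1) (b := 1) (c := 2) (cn := .dn) (n1 := ndB0q1) (n2 := ndB0q1) (pc := pcB2) (cut := cut_mm_112_t) (xt := Ext.none) (P1 := 536870912) (W1 := 536870912) (P2 := 536870912) (W2 := 536870912) (P3 := 991146299) (W3 := 28908434) (N0 := 3) (En := eng) (mo := mog) (C1 := cd0q1) (C2 := cd0q1) (C3 := pd2)
    rfl k0_mm_112_t

noncomputable def cut_mm_113_s : Cut := Cut.of [[⟨4, 0, 0, 1449551462⟩]]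

noncomputable def f_mm_113_s : ℕ → ℕ → ℕ → ℕ → Bool := onCell 536870912 536870912 536870912 536870912 991146299 28908434
    (rowNE 3 eng mog cd0q1 cd0q1 pd3 0 true false false .nn 1 1 3 (qsf 536870912 536870912 536870912 536870912 3) ndB0q1 ndB0q1 pcB3 cut_mm_113_s Ext.none)

def k0_mm_113_s : ∃ t, chk3 f_mm_113_s t 1 1 1 = true :=
  ⟨(l 4), by decide +kernel⟩

theorem c_mm_113_s : CertNE 536870912 536870912 536870912 536870912 991146299 28908434 3 eng mog cd0q1 cd0q1 pd3 true false false .nn 1 1 3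
    ndB0q1 ndB0q1 pcB3 cut_mm_113_s Ext.none :=
  certNE0 (fam := true) (s1 := false) (s2 := false) (a := 1) (b := 1) (c := 3) (cn := .nn) (n1 := ndB0q1) (n2 := ndB0q1) (pc := pcB3) (cut := cut_mm_113_s) (xt := Ext.none) (P1 := 536870912) (W1 := 536870912) (P2 := 536870912) (W2 := 536870912) (P3 := 991146299) (W3 := 28908434) (N0 := 3) (En := eng) (mo := mog) (C1 := cd0q1) (C2 := cd0q1) (C3 := pd3)
    rfl k0_mm_113_s

noncomputable def cut_mm_113_t : Cut := Cut.of [[⟨3, 0, 0, 2845415833⟩]]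

noncomputable def f_mm_113_t : ℕ → ℕ → ℕ → ℕ → Bool := onCell 536870912 536870912 536870912 536870912 991146299 28908434
    (rowNE 3 eng mog cd0q1 cd0q1 pd3 0 true false false .nn 1 1 3 (qsf 536870912 536870912 536870912 536870912 3) ndB0q1 ndB0q1 pcB3 cut_mm_113_t Ext.none)

def k0_mm_113_t : ∃ t, chk3 f_mm_113_t t 1 1 1 = true :=
  ⟨(l 4), by decide +kernel⟩

theorem c_mm_113_t : CertNE 536870912 536870912 536870912 536870912 991146299 28908434 3 eng mog cd0q1 cd0q1 pd3 true false false .nn 1 1 3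
    ndB0q1 ndB0q1 pcB3 cut_mm_113_t Ext.none :=
  certNE0 (fam := true) (s1 := false) (s2 := false) (a := 1) (b := 1) (c := 3) (cn := .nn) (n1 := ndB0q1) (n2 := ndB0q1) (pc := pcB3) (cut := cut_mm_113_t) (xt := Ext.none) (P1 := 536870912) (W1 := 536870912) (P2 := 536870912) (W2 := 536870912) (P3 := 991146299) (W3 := 28908434) (N0 := 3) (En := eng) (mo := mog) (C1 := cd0q1) (C2 := cd0q1) (C3 := pd3)
    rfl k0_mm_113_t

noncomputable def cut_mm_123_s : Cut := Cut.of [[⟨4, 0, 0, 1449551462⟩]]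

noncomputable def f_mm_123_s : ℕ → ℕ → ℕ → ℕ → Bool := onCell 536870912 536870912 0 536870912 991146299 28908434
    (rowNE 3 eng mog cd0q1 cd0q2 pd3 0 true false false .npn 1 2 3 (qsf 536870912 536870912 0 536870912 3) ndB0q1 ndB0q2 pcB3 cut_mm_123_s Ext.none)

def k0_mm_123_s : ∃ t, chk3 f_mm_123_s t 1 1 1 = true :=
  ⟨(l 6), by decide +kernel⟩

theorem c_mm_123_s : CertNE 536870912 536870912 0 536870912 991146299 28908434 3 eng mog cd0q1 cd0q2 pd3 true false false .npn 1 2 3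
    ndB0q1 ndB0q2 pcB3 cut_mm_123_s Ext.none :=
  certNE0 (fam := true) (s1 := false) (s2 := false) (a := 1) (b := 2) (c := 3) (cn := .npn) (n1 := ndB0q1) (n2 := ndB0q2) (pc := pcB3) (cut := cut_mm_123_s) (xt := Ext.none) (P1 := 536870912) (W1 := 536870912) (P2 := 0) (W2 := 536870912) (P3 := 991146299) (W3 := 28908434) (N0 := 3) (En := eng) (mo := mog) (C1 := cd0q1) (C2 := cd0q2) (C3 := pd3)
    rfl k0_mm_123_s

noncomputable def cut_mm_123_t : Cut := Cut.of [[⟨3, 0, 0, 2845415833⟩]]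

noncomputable def f_mm_123_t : ℕ → ℕ → ℕ → ℕ → Bool := onCell 536870912 536870912 0 536870912 991146299 28908434
    (rowNE 3 eng mog cd0q1 cd0q2 pd3 0 true false false .npn 1 2 3 (qsf 536870912 536870912 0 536870912 3) ndB0q1 ndB0q2 pcB3 cut_mm_123_t Ext.none)

def k0_mm_123_t : ∃ t, chk3 f_mm_123_t t 1 1 1 = true :=
  ⟨(a (l 5) (l 4)), by decide +kernel⟩

theorem c_mm_123_t : CertNE 536870912 536870912 0 536870912 991146299 28908434 3 eng mog cd0q1 cd0q2 pd3 true false false .npn 1 2 3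
    ndB0q1 ndB0q2 pcB3 cut_mm_123_t Ext.none :=
  certNE0 (fam := true) (s1 := false) (s2 := false) (a := 1) (b := 2) (c := 3) (cn := .npn) (n1 := ndB0q1) (n2 := ndB0q2) (pc := pcB3) (cut := cut_mm_123_t) (xt := Ext.none) (P1 := 536870912) (W1 := 536870912) (P2 := 0) (W2 := 536870912) (P3 := 991146299) (W3 := 28908434) (N0 := 3) (En := eng) (mo := mog) (C1 := cd0q1) (C2 := cd0q2) (C3 := pd3)
    rfl k0_mm_123_t

noncomputable def cut_mm_202_s : Cut := Cut.of [[⟨4, 0, 0, 1449551462⟩], [⟨0, 1, 0, 26843545⟩, ⟨1, 0, 0, 26843545⟩, ⟨2, 1, 0, 26843545⟩]]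

noncomputable def f_mm_202_s : ℕ → ℕ → ℕ → ℕ → Bool := onCell 0 536870912 0 536870912 991146299 28908434
    (rowNE 3 eng mog cd0q2 cd0q0 pd2 0 true false false .pp 2 0 2 (qsf 0 536870912 0 536870912 2) ndB0q2 ndB0q0 pcB2 cut_mm_202_s Ext.none)

def k0_mm_202_s : ∃ t, chk3 f_mm_202_s t 1 1 1 = true :=
  ⟨(l 6), by decide +kernel⟩

theorem c_mm_202_s : CertNE 0 536870912 0 536870912 991146299 28908434 3 eng mog cd0q2 cd0q0 pd2 true false false .pp 2 0 2
    ndB0q2 ndB0q0 pcB2 cut_mm_202_s Ext.none :=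
  certNE0 (fam := true) (s1 := false) (s2 := false) (a := 2) (b := 0) (c := 2) (cn := .pp) (n1 := ndB0q2) (n2 := ndB0q0) (pc := pcB2) (cut := cut_mm_202_s) (xt := Ext.none) (P1 := 0) (W1 := 536870912) (P2 := 0) (W2 := 536870912) (P3 := 991146299) (W3 := 28908434) (N0 := 3) (En := eng) (mo := mog) (C1 := cd0q2) (C2 := cd0q0) (C3 := pd2)
    rfl k0_mm_202_s

end Pool.Agent.Strip051.G.I9231_9500.Tab.CS.BA00

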