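import Pool.Agent.Strip051.G.I9231_9500.Tab
import Pool.Agent.Strip051.PB.StripB

/-! # Strips, near vertex: certificates 4 (generated) -/

set_option linter.all false
set_option maxRecDepth 100000

namespace Pool.Agent.Strip051.G.I9231_9500.Tab.CS.BA00

open Pool.Agent.Strip051.PB Pool.Agent.Strip051.PB.T
open Pool.Agent.Strip051.G.I9231_9500.Tab

noncomputable def cut_mm_202_t : Cut := Cut.of [[⟨3, 0, 0, 2845415833⟩], [⟨0, 1, 0, 26843545⟩, ⟨1, 0, 0, 26843545⟩, ⟨2, 1, 0, 26843545⟩]]

noncomputable def f_mm_202_t : ℕ → ℕ → ℕ → ℕ → Bool := onCell 0 536870912 1073741824 536870912 991146299 28908434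
    (rowNE 3 eng mog cd0q2 cd0q0 pd2 1 true false false .pp 2 0 2 (qsf 0 536870912 0 536870912 2) ndB0q2 ndB0q0 pcB2 cut_mm_202_t Ext.none)

def k0_mm_202_t : ∃ t, chk3 f_mm_202_t t 2 2 1 = true :=
  ⟨(b (l 6) (b (l 6) (a (l 6) (a (l 6) (a (l 6) (a (b (l 6) (b (c (l 16453024) (l 16388344)) (c (l 16405696) (l 16289872)))) (b (b (l 6) (b (l 16434160) (l 16382984))) (b (c (l 16438704) (l 16381096)) (c (b (l 16464256) (l 16456048)) (b (l 16400624) (l 16389128))))))))))), by decide +kernel⟩

def k1_mm_202_t : ∃ t, chk3 f_mm_202_t t 6 8 1 = true :=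
  ⟨(l 1), by decide +kernel⟩

def k2_mm_202_t : ∃ t, chk3 f_mm_202_t t 12 18 1 = true :=
  ⟨(l 1), by decide +kernel⟩

def k3_mm_202_t : ∃ t, chk3 f_mm_202_t t 13 36 1 = true :=
  ⟨(a (l 1) (b (l 1) (a (a (l 1) (b (l 1) (a (l 1) (b (l 1) (c (l 16309224) (l 16245392)))))) (a (b (a (l 1) (b (l 1) (c (l 16323424) (l 16264016)))) (b (c (a (l 16316152) (c (l 16354176) (l 16322096))) (a (l 16255304) (c (l 16289072) (l 16255120)))) (c (c (l 16344616) (l 16315576)) (c (l 16285616) (l 16252112))))) (a (c (b (b (l 16336304) (a (l 16336264) (l 16344856))) (c (l 16353880) (l 16323616))) (b (b (b (l 1) (l 16271528)) (b (l 16277376) (l 16283192))) (b (l 16294456) (l 16303216)))) (c (b (b (b (l 16346120) (l 16350808)) (l 16363016)) (c (l 16370160) (l 16341192))) (b (b (c (l 16284408) (l 16272016)) (c (l 16316280) (l 16284008))) (c (l 16311376) (l 16280712))))))))), by decide +kernel⟩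

def k4_mm_202_t : ∃ t, chk3 f_mm_202_t t 13 37 1 = true :=
  ⟨(b (b (a (l 1) (c (c (a (a (l 16298160) (a (l 16313552) (l 16323920))) (a (l 16357968) (l 16400136))) (a (a (l 16266496) (a (l 16283048) (l 16297248))) (a (l 16338376) (l 16375136)))) (c (a (a (l 16232504) (a (l 16251576) (l 16269648))) (a (l 16307416) (l 16350304))) (a (a (l 16198136) (a (l 16216512) (l 16225392))) (a (l 16275584) (l 16322712)))))) (a (b (l 1) (a (l 1) (a (l 1) (a (l 1) (c (l 16280008) (l 16210456)))))) (a (b (c (a (a (l 16285432) (l 16301192)) (l 16340720)) (a (a (l 16226336) (l 16244488)) (l 16285000))) (c (a (l 16313768) (l 16345048)) (a (l 16258184) (l 16294144)))) (c (c (a (l 16375496) (l 16416944)) (a (l 16357952) (l 16391248))) (c (a (l 16329096) (l 16364808)) (a (l 16299424) (l 16337608))))))) (b (a (a (l 1) (c (a (b (l 16262776) (l 16273352)) (c (l 16303864) (l 16271256))) (a (c (l 16193832) (l 16178024)) (c (l 16237696) (l 16213664))))) (c (a (c (a (l 16343664) (l 16352312)) (b (l 16334544) (l 16334200))) (c (a (l 16382240)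 (l 16433472)) (a (l 16377160) (l 16409632)))) (a (c (a (l 16281888) (l 16315944)) (a (l 16249672) (l 16286032))) (c (a (l 16350344) (l 16385104)) (a (l 16322768) (l 16359880)))))) (a (a (a (l 1) (a (c (l 16242344) (l 16181056)) (c (l 16267264) (l 16197536)))) (c (c (b (l 16314472) (l 16324120)) (b (l 16282536) (l 16293336))) (c (b (l 16249672) (l 16261648)) (a (l 16205184) (l 16239744))))) (c (a (c (b (l 16372032) (l 16380968)) (a (l 16333744) (l 16364712))) (c (a (l 16420168) (l 16449720)) (a (l 16396024) (l 16427688)))) (a (c (a (l 16304624) (l 16337720)) (a (l 16274672) (l 16309968))) (c (a (l 16371184) (l 16405008)) (a (l 16345632) (l 16381680)))))))), by decide +kernel⟩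

def k5_mm_202_t : ∃ t, chk3 f_mm_202_t t 12 19 1 = true :=
  ⟨(b (l 6) (a (l 6) (a (l 6) (c (b (b (l 16302616) (l 16324512)) (c (l 16367080) (l 16346520))) (b (c (l 16275000) (l 16248360)) (c (l 16325360) (l 16303608))))))), by decide +kernel⟩

def k6_mm_202_t : ∃ t, chk3 f_mm_202_t t 13 38 1 = true :=
  ⟨(b (b (a (a (a (l 6) (c (l 16281488) (l 16215736))) (c (c (l 16338464) (l 16319848)) (c (l 16279408) (l 16248600)))) (c (a (c (b (l 16389840) (l 16398648)) (a (l 16353920) (l 16384080))) (c (a (l 16436864) (l 16465728)) (a (l 16414576) (l 16445432)))) (a (c (a (l 16326944) (l 16359112)) (a (l 16299200) (l 16333432))) (c (a (l 16391640) (l 16424536)) (a (l 16368048) (l 16403048)))))) (a (c (a (c (l 16304168) (l 16273712)) (c (l 16357360) (l 16330448))) (a (c (l 16242360) (l 16210120)) (c (l 16302744) (l 16274256)))) (c (a (c (a (l 16397976) (l 16425488)) (a (l 16373784) (l 16403128))) (c (a (l 16453328) (l 16481512)) (a (l 16432824) (l 16462888)))) (a (c (l 16385480) (l 16366088)) (c (a (l 16411728) (l 16443712))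 (a (l 16390032) (l 16424000))))))) (b (a (c (a (c (l 16324216) (l 16296112)) (c (l 16376008) (l 16351216))) (a (a (l 16237504) (l 16267280)) (a (l 16297416) (l 16327904)))) (c (a (c (l 16439504) (l 16418128)) (c (a (l 16469576) (l 16497088)) (a (l 16450808) (l 16480080)))) (a (c (l 16406600) (l 16383968)) (c (a (l 16431480) (l 16462568)) (a (l 16411616) (l 16444560)))))) (a (c (a (c (l 16344016) (l 16318192)) (c (l 16394432) (l 16371696))) (a (c (l 16291608) (l 16264280)) (c (l 16348304) (l 16324240)))) (c (a (c (l 16446088) (l 16426536)) (c (a (l 16485640) (l 16512496)) (a (l 16468536) (l 16497032)))) (a (c (l 16406424) (l 16385728)) (a (c (l 16450928) (l 16432824)) (c (l 16481120) (l 16464760)))))))), by decide +kernel⟩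

def k7_mm_202_t : ∃ t, chk3 f_mm_202_t t 13 39 1 = true :=
  ⟨(a (c (b (b (a (l 16372840) (c (l 16412640) (l 16391912))) (a (l 16393272) (c (l 16430672) (l 16411872)))) (a (c (l 16411624) (l 16393280)) (b (a (l 16428048) (l 16452192)) (l 16479688)))) (b (b (a (l 16324248) (c (l 16370568) (l 16348624))) (a (l 16328144) (c (l 16392528) (l 16372632)))) (a (c (l 16374408) (l 16355008)) (b (l 16436760) (l 16448584))))) (b (b (c (a (c (l 16462968) (l 16445200)) (a (l 16504328) (a (l 16514016) (l 16527592)))) (a (c (l 16426904) (l 16408096)) (a (l 16472432) (c (l 16499408) (l 16484632))))) (c (a (c (l 16479688) (l 16463632)) (a (l 16510368) (l 16547128))) (a (c (l 16447104) (l 16430112)) (c (l 16518960) (a (l 16474224) (l 16504200)))))) (c (a (c (b (l 16496272) (l 16512688)) (b (l 16481880) (l 16499888))) (b (a (l 16526744) (l 16552336)) (a (l 16542936) (l 16567880)))) (a (c (b (l 16467056) (l 16486712)) (b (l 16451824) (l 16473168))) (b (a (l 16501120) (l 16529424)) (a (l 16520272) (l 16547712))))))), by decide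 +kernel⟩

def k8_mm_202_t : ∃ t, chk3 f_mm_202_t t 14 16 1 = true :=
  ⟨(l 1), by decide +kernel⟩

def k9_mm_202_t : ∃ t, chk3 f_mm_202_t t 28 17 2 = true :=
  ⟨(b (l 1) (b (l 1) (a (l 1) (b (a (l 1) (a (b (l 1) (a (b (l 1) (l 16410872)) (b (l 16416096) (l 16420488)))) (b (c (a (l 16438304) (l 16431936)) (a (l 16394648) (b (l 16418248) (l 16422832)))) (c (l 16440736) (l 16416760))))) (a (b (a (l 1) (c (a (l 16418176) (l 16406320)) (a (l 16389000) (l 16383168)))) (c (a (b (l 16410944) (l 16415184)) (l 16420616)) (a (a (l 16378832) (l 16370248)) (l 16392792)))) (c (b (a (l 16430520) (l 16459344)) (b (l 16445784) (l 16449808))) (b (a (l 16403296) (l 16412696)) (b (l 16430504) (l 16434984))))))))), by decide +kernel⟩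

def k10_mm_202_t : ∃ t, chk3 f_mm_202_t t 58 17 2 = true :=
  ⟨(b (l 1) (b (b (a (l 1) (b (a (l 1) (a (b (l 1) (b (l 16465776) (l 16467896))) (b (b (l 16471856) (l 16473960)) (l 16482352)))) (c (a (b (l 16463208) (l 16468560)) (l 16489984)) (a (b (l 16439624) (a (l 16447360) (l 16457920))) (l 16467680))))) (a (b (a (l 1) (c (b (l 16451960) (l 16456032)) (b (l 16425632) (a (l 16435440) (l 16445864))))) (c (a (a (l 16427864) (l 16444560)) (l 16464720)) (a (b (l 16413968) (a (l 16423888) (l 16434168))) (b (l 16445152) (l 16449624))))) (c (b (a (l 16475880) (l 16492600)) (a (l 16481176) (l 16500344))) (b (a (l 16454896) (l 16475088)) (a (l 16457632) (l 16478440)))))) (b (a (c (b (a (l 16451256) (l 16470080)) (c (l 16474584) (l 16462656))) (b (a (l 16429280) (l 16445784)) (a (l 16434304) (l 16454544)))) (c (b (a (l 16488992) (l 16507984)) (a (l 16486216) (l 16515520))) (b (a (l 16466304) (l 16486912)) (a (l 16474856) (l 16495256))))) (a (c (b (b (l 16485032) (l 16488936)) (b (l 16492816) (l 16496664))) (b (a (l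 16443144) (l 16463168)) (c (l 16477936) (l 16466528)))) (c (b (c (l 16529080) (l 16519104)) (c (l 16536296) (l 16526712))) (b (a (l 16483280) (l 16503480)) (a (l 16491584) (l 16511584)))))))), by decide +kernel⟩

def k11_mm_202_t : ∃ t, chk3 f_mm_202_t t 59 34 2 = true :=
  ⟨(b (a (l 1) (b (l 1) (b (l 1) (a (l 1) (a (l 1) (b (l 1) (c (l 16525736) (l 16504816)))))))) (a (a (b (l 1) (a (b (l 1) (b (l 16480088) (b (l 16478016) (l 16480112)))) (b (c (l 16485704) (l 16461640)) (b (b (l 16484264) (l 16486352)) (l 16494720))))) (b (a (l 1) (b (l 1) (c (l 16498056) (l 16477224)))) (b (a (b (c (l 16504320) (l 16480936)) (c (l 16508280) (l 16485328))) (b (c (l 16514472) (l 16491992)) (l 16504824))) (c (l 16513952) (l 16494712))))) (b (a (b (a (l 1) (b (l 1) (c (l 16523200) (l 16501264)))) (c (b (a (l 16516824) (l 16527112)) (a (l 16520752) (l 16531000))) (b (a (l 16494392) (l 16505600)) (a (l 16498744) (l 16509904))))) (b (c (b (a (l 16529672) (l 16540104)) (l 16535480)) (b (a (l 16497752) (l 16519600)) (a (l 16512552)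 (l 16523864)))) (c (a (l 16528872) (l 16539200)) (b (l 16511984) (l 16516216))))) (c (b (a (l 16529064) (a (l 16536504) (l 16546744))) (a (l 16534096) (l 16559600))) (b (a (a (l 16494736) (l 16505824)) (a (l 16516936) (l 16528072))) (a (l 16519816) (a (l 16525256) (l 16536296)))))))), by decide +kernel⟩

def k12_mm_202_t : ∃ t, chk3 f_mm_202_t t 59 35 2 = true :=
  ⟨(b (a (b (c (b (a (l 16501800) (l 16521672)) (a (l 16504344) (l 16529288))) (b (a (l 16481664) (l 16503272)) (a (l 16487680) (l 16509080)))) (c (b (a (l 16512024) (l 16531552)) (a (l 16519600) (l 16538960))) (b (a (l 16496192) (l 16522632)) (a (l 16504584) (l 16530824))))) (b (c (b (a (l 16541648) (l 16566976)) (a (l 16554336) (l 16574248))) (b (a (l 16527600) (l 16550728)) (a (l 16535832) (l 16557440)))) (c (b (a (l 16561672) (l 16581416)) (a (l 16568904) (l 16588480))) (a (b (l 16543936) (l 16551920)) (b (l 16565352) (l 16573136)))))) (a (b (c (b (a (l 16527072) (l 16546256)) (a (l 16534432) (l 16563936))) (b (a (l 16507608) (l 16538888)) (a (l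 16515752) (l 16546832)))) (c (b (a (l 16541688) (l 16571016)) (a (l 16538352) (l 16578000))) (b (a (l 16534256) (l 16554648)) (a (l 16542152) (l 16562344))))) (c (b (b (a (l 16576032) (l 16595432)) (a (l 16583056) (l 16602288))) (a (b (l 16589968) (l 16596776)) (b (l 16609032) (l 16615672)))) (b (a (b (l 16559784) (l 16567528)) (b (l 16580792) (l 16588336))) (a (b (l 16575144) (l 16582640)) (b (l 16595752) (l 16603048))))))), by decide +kernel⟩

def k13_mm_202_t : ∃ t, chk3 f_mm_202_t t 28 17 3 = true :=
  ⟨(b (l 1) (b (l 1) (a (l 1) (b (a (l 1) (b (a (l 1) (b (c (l 16384584) (l 16355224)) (c (a (l 16384200) (l 16395168)) (l 16373928)))) (c (a (b (l 16372960) (a (l 16372696) (l 16383520))) (b (l 16394752) (l 16399776))) (a (a (l 16318920) (l 16340768)) (l 16365208))))) (a (b (a (l 1) (c (b (l 16361728) (l 16377416)) (b (l 16331024) (l 16357704)))) (c (a (b (l 16350888) (l 16356136)) (b (l 16372088) (l 16377208))) (a (a (l 16316784) (l 16312416)) (l 16334736)))) (c (b (a (b (l 16383224) (l 16388296)) (l 16396768))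 (c (l 16402624) (l 16399792))) (b (a (l 16351720) (l 16369608)) (c (l 16386280) (l 16372592))))))))), by decide +kernel⟩

def k14_mm_202_t : ∃ t, chk3 f_mm_202_t t 58 17 3 = true :=
  ⟨(b (l 1) (b (b (a (l 1) (a (b (l 1) (a (b (l 1) (c (l 16421112) (l 16394128))) (c (b (l 16427616) (l 16432544)) (b (l 16401064) (l 16406464))))) (b (a (b (l 1) (c (l 16434232) (l 16408112))) (c (b (l 16440944) (l 16445824)) (b (l 16415272) (l 16420616)))) (c (c (l 16453464) (l 16441144)) (l 16422360))))) (a (b (a (l 1) (c (a (b (l 1) (l 16408400)) (b (l 16414704) (l 16419680))) (a (l 16368672) (b (l 16387312) (l 16392760))))) (c (a (b (l 16407096) (a (l 16396096) (l 16407224))) (b (l 16419008) (l 16423944))) (a (a (l 16354264) (b (l 16374008) (l 16379520))) (a (l 16378328) (l 16400872))))) (c (b (a (a (l 16418032) (l 16439872)) (l 16451688)) (a (l 16438656) (l 16461152))) (b (a (c (l 16414888) (l 16401800)) (l 16432872)) (a (l 16419000) (l 16443232)))))) (a (b (c (b (a (b (l 16406680) (l 16411656)) (l 16420792)) (a (l 16408576)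 (l 16430440))) (b (a (l 16379472) (l 16395096)) (a (l 16382128) (l 16405664)))) (c (b (a (l 16418320) (l 16439952)) (a (l 16427928) (l 16449320))) (b (a (l 16392808) (l 16416080)) (a (l 16392848) (l 16436824))))) (c (b (b (a (l 16442968) (l 16470472)) (a (l 16452384) (l 16484896))) (b (a (l 16461656) (l 16493936)) (a (l 16470792) (l 16502840)))) (b (b (a (l 16429464) (l 16453432)) (a (l 16439768) (l 16463472))) (b (a (l 16449920) (l 16473352)) (a (l 16459904) (l 16483064)))))))), by decide +kernel⟩

def k15_mm_202_t : ∃ t, chk3 f_mm_202_t t 59 34 3 = true :=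
  ⟨(b (b (l 1) (a (l 1) (b (l 1) (a (l 1) (b (l 1) (a (l 1) (c (l 16485928) (b (l 16470384) (l 16472976))))))))) (a (b (b (l 1) (b (l 1) (a (l 1) (a (l 1) (c (l 16464048) (l 16439824)))))) (a (b (a (l 1) (c (l 16436888) (l 16411456))) (c (a (b (l 16442872) (l 16447768)) (b (l 16454696) (l 16459528))) (a (b (l 16417192) (l 16422552)) (b (l 16429952) (l 16435240))))) (b (c (a (b (l 16456880) (l 16461728)) (b (l 16468864) (l 16473656))) (a (b (l 16432168) (l 16437472)) (b (l 16445104) (l 16450336)))) (c (l 16475504) (a (l 16434864) (l 16447632)))))) (b (a (b (a (l 1) (b (l 1) (c (l 16478696) (l 16455512)))) (c (a (b (l 16471320) (l 16476120)) (b (l 16483472) (l 16488208))) (b (a (l 16447608) (l 16460736)) (a (l 16452856) (l 16465912))))) (b (c (a (b (l 16475704) (l 16490936)) (a (l 16489920) (l 16493456))) (b (a (l 16474024) (l 16476848)) (a (l 16468728) (l 16481976)))) (c (b (l 16496512) (l 16495920)) (b (l 16480472) (l 16485552))))) (c (b (a (a (l 16472760) (l 16484768)) (b (l 16511024) (l 16515600))) (a (a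 (l 16482144) (l 16494032)) (b (l 16520144) (l 16524656)))) (b (a (b (l 16464560) (l 16469696)) (b (l 16490592) (l 16495592))) (a (b (l 16474792) (l 16479848)) (b (l 16500552) (l 16505472)))))))), by decide +kernel⟩

def k16_mm_202_t : ∃ t, chk3 f_mm_202_t t 59 35 3 = true :=
  ⟨(b (b (a (c (b (a (l 16459560) (l 16484264)) (a (l 16470384) (l 16493536))) (b (a (l 16436808) (l 16462032)) (a (l 16447216) (l 16472176)))) (c (b (a (l 16509064) (l 16533968)) (a (l 16516792) (l 16542776))) (b (a (l 16489976) (c (l 16517472) (l 16508064))) (a (l 16497224) (l 16527632))))) (a (c (b (a (l 16479752) (l 16502672)) (a (l 16488984) (l 16511664))) (b (a (l 16457472) (l 16482152)) (a (l 16467560) (l 16491976)))) (c (b (a (l 16525696) (l 16548824)) (a (l 16534456) (l 16557352))) (b (a (l 16506944) (l 16531832)) (a (l 16516496) (l 16541120)))))) (a (c (b (b (a (l 16498072) (l 16520520)) (a (l 16507016) (l 16529232))) (b (a (l 16515824) (l 16537800)) (a (l 16524488) (l 16546232)))) (b (b (a (l 16477488) (l 16501640)) (a (l 16487256)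 (l 16511144))) (b (a (l 16496872) (l 16520488)) (a (l 16506320) (l 16529680))))) (b (c (b (a (l 16543072) (l 16565736)) (a (l 16551552) (l 16573984))) (b (a (l 16525896) (l 16550256)) (a (l 16535128) (l 16559232)))) (c (b (a (l 16559888) (l 16582088)) (a (l 16568088) (l 16590056))) (b (a (l 16544208) (l 16568048)) (a (l 16553136) (l 16576704))))))), by decide +kernel⟩

def k17_mm_202_t : ∃ t, chk3 f_mm_202_t t 30 32 1 = true :=
  ⟨(l 1), by decide +kernel⟩

def k18_mm_202_t : ∃ t, chk3 f_mm_202_t t 60 33 1 = true :=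
  ⟨(b (l 1) (b (l 1) (a (l 1) (b (l 1) (a (l 1) (a (b (l 1) (a (b (l 1) (c (l 16563936) (l 16533008))) (c (b (l 16567552) (l 16572168)) (c (l 16539592) (l 16521424))))) (c (b (c (a (l 16583912) (l 16578816)) (a (l 16566816) (l 16563528))) (c (l 16579896) (l 16568688))) (c (b (a (l 16538752) (l 16548104)) (l 16551768)) (b (a (l 16520688) (l 16531552)) (l 16534384)))))))))), by decide +kernel⟩

def k19_mm_202_t : ∃ t, chk3 f_mm_202_t t 122 66 1 = true :=
  ⟨(l 1), by decide +kernel⟩

def k20_mm_202_t : ∃ t, chk3 f_mm_202_t t 244 67 1 = true :=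
  ⟨(a (b (l 1) (b (b (a (l 1) (b (l 1) (c (l 16582808) (l 16552600)))) (c (c (a (l 16580440) (l 16585864)) (a (l 16566568) (l 16572488))) (c (a (l 16550264) (l 16557032)) (a (l 16533504) (l 16540472))))) (c (c (a (l 16591336) (l 16596728)) (c (l 16577080) (l 16569144))) (c (c (l 16566336) (l 16558176)) (b (l 16543256) (l 16542936)))))) (b (a (l 1) (b (l 1) (b (l 1) (c (c (l 16589216) (l 16576080)) (c (l 16561192) (l 16544544)))))) (c (b (b (c (a (l 16590152) (l 16592984)) (a (b (l 16581096) (l 16583176)) (l 16580232))) (c (l 16604488) (l 16584008))) (c (a (l 16602120) (l 16607528)) (b (l 16588112) (l 16586944)))) (b (c (b (a (b (l 16564672) (l 16566952)) (l 16564432)) (l 16568344)) (b (a (b (l 16547800) (l 16550288)) (l 16550816)) (l 16552240))) (c (b (l 16572832) (l 16577296)) (c (l 16558240) (l 16550392))))))), by decide +kernel⟩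

def k21_mm_202_t : ∃ t, chk3 f_mm_202_t t 245 67 1 = true :=
  ⟨(a (b (b (l 1) (b (a (l 1) (b (l 1) (c (c (l 16607872) (l 16592840)) (c (l 16577392) (l 16561520))))) (c (c (a (l 16598144) (l 16610680)) (b (a (l 16588904) (l 16594904)) (l 16593968))) (c (a (b (l 16573120) (l 16575392)) (l 16572920)) (a (b (l 16556912) (l 16559384)) (l 16554728)))))) (c (b (c (c (l 16606584) (l 16604712)) (b (l 16591808) (l 16595896))) (c (b (l 16608568) (l 16612224)) (c (l 16605424) (l 16598480)))) (b (c (b (l 16576784) (l 16581256)) (b (l 16561344) (l 16566216))) (c (b (l 16585696) (l 16590096)) (b (l 16571048) (l 16581080)))))) (b (b (b (l 1) (c (c (a (l 16608696) (b (l 16613312) (l 16615184))) (a (l 16583216) (b (l 16598736) (l 16600800)))) (c (a (l 16570416) (b (l 16583752) (l 16586016))) (a (l 16557200) (b (l 16568360) (l 16570824)))))) (b (c (a (b (c (l 16611512) (l 16596808)) (l 16606176)) (b (l 16610008) (l 16611960))) (a (b (c (l 16581688) (l 16566152)) (l 16577472)) (c (l 16589392) (l 16574496)))) (c (c (l 16613696)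 (l 16602336)) (c (l 16587960) (l 16575824))))) (c (b (c (c (l 16622520) (l 16615904)) (b (l 16603776) (l 16607816))) (c (c (l 16629616) (l 16623360)) (b (l 16611816) (l 16615792)))) (c (b (b (l 16592416) (l 16596824)) (b (l 16601208) (l 16602928))) (b (b (l 16580664) (l 16585464)) (b (l 16590232) (l 16594960))))))), by decide +kernel⟩

def k22_mm_202_t : ∃ t, chk3 f_mm_202_t t 123 66 1 = true :=
  ⟨(l 14), by decide +kernel⟩

def k23_mm_202_t : ∃ t, chk3 f_mm_202_t t 123 134 1 = true :=
  ⟨(b (b (l 14) (b (l 14) (c (a (c (c (l 16629752) (l 16623296)) (c (l 16619376) (l 16612736))) (c (c (l 16655840) (l 16651056)) (a (l 16629328) (l 16644416)))) (a (c (a (l 16595952) (l 16604040)) (a (l 16581576) (l 16590760))) (c (a (l 16620088) (l 16636240)) (a (l 16610528) (l 16625152))))))) (c (a (c (c (a (l 16626152) (l 16639704)) (a (l 16620984) (l 16634056))) (b (a (l 16610376) (l 16623920)) (a (l 16614424) (l 16627912)))) (c (c (a (a (l 16645344) (l 16650880)) (c (l 16660464) (l 16658000))) (a (c (l 16644016) (l 16641264))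 (c (l 16658136) (l 16655640)))) (a (b (b (l 16631320) (l 16633304)) (b (l 16635280) (l 16637240))) (b (b (l 16646384) (l 16648336)) (b (l 16650288) (l 16652224)))))) (a (c (b (a (l 16597984) (a (l 16604008) (l 16610672))) (a (l 16602408) (l 16616952))) (a (b (l 16585216) (l 16590032)) (b (l 16600896) (l 16605648)))) (c (a (b (b (l 16622264) (l 16624424)) (b (l 16623960) (l 16626104))) (b (b (l 16638384) (l 16640520)) (b (l 16642648) (l 16644768)))) (a (b (b (l 16612888) (l 16615240)) (b (l 16617584) (l 16619912))) (b (b (l 16627480) (l 16629800)) (c (l 16635896) (l 16630600)))))))), by decide +kernel⟩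

def k24_mm_202_t : ∃ t, chk3 f_mm_202_t t 123 135 1 = true :=
  ⟨(c (a (c (b (c (a (l 16633280) (l 16646752)) (a (l 16627160) (l 16641128))) (c (a (l 16640296) (l 16653696)) (a (l 16634528) (l 16648416)))) (b (c (a (l 16623568) (l 16636736)) (a (l 16617272) (l 16630952))) (c (a (l 16631304) (l 16644368)) (a (l 16625368) (l 16638944))))) (b (b (c (a (l 16655992) (b (l 16661176) (l 16662936))) (a (a (l 16637112) (l 16643248)) (b (l 16656784) (l 16658712)))) (c (a (l 16659536) (a (l 16662736) (l 16668392))) (a (a (l 16641008) (l 16647128)) (b (l 16660624) (l 16662536))))) (b (c (a (l 16663048) (b (l 16673408) (l 16675144))) (a (l 16653816) (b (l 16664440) (l 16666336)))) (c (a (l 16666536) (b (l 16676864) (l 16678584))) (a (l 16656992) (b (l 16668224) (l 16670104))))))) (a (c (b (a (b (l 16606800) (l 16612464)) (b (l 16621280) (l 16625584))) (a (b (l 16616792) (l 16621072)) (b (l 16629848) (l 16634072)))) (b (a (b (l 16594808) (l 16599544)) (b (l 16609048) (l 16613720))) (a (b (l 16604240) (l 16608904)) (b (l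 16618352) (l 16622944))))) (c (b (a (b (b (l 16628248) (l 16635616)) (l 16640104)) (b (b (l 16646872) (l 16648976)) (b (l 16651064) (l 16653152)))) (a (b (l 16644312) (l 16648488)) (b (b (l 16655224) (l 16657288)) (c (l 16662592) (l 16658136))))) (b (a (b (l 16626016) (l 16630616)) (b (c (l 16640384) (l 16635272)) (c (l 16644832) (l 16639896)))) (a (b (l 16635184) (l 16639712)) (b (c (l 16649240) (l 16644488)) (c (l 16653616) (l 16649032)))))))), by decide +kernel⟩

def k25_mm_202_t : ∃ t, chk3 f_mm_202_t t 31 32 1 = true :=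
  ⟨(l 14), by decide +kernel⟩

def k26_mm_202_t : ∃ t, chk3 f_mm_202_t t 62 66 1 = true :=
  ⟨(l 14), by decide +kernel⟩

def k27_mm_202_t : ∃ t, chk3 f_mm_202_t t 124 268 1 = true :=
  ⟨(b (l 14) (b (l 14) (a (c (a (c (l 16666440) (l 16659600)) (c (l 16680672) (l 16673568))) (c (a (l 16649872) (l 16664912)) (a (l 16639880) (l 16657328)))) (c (a (c (c (l 16694200) (l 16690560)) (c (l 16686872) (l 16683136))) (c (c (l 16705752) (l 16702632)) (c (l 16699464) (l 16696256)))) (a (c (c (l 16679344) (l 16675504)) (c (l 16671608) (l 16667664))) (c (c (l 16693000) (l 16689704)) (c (l 16686368) (l 16682976)))))))), by decide +kernel⟩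

def k28_mm_202_t : ∃ t, chk3 f_mm_202_t t 124 269 1 = true :=
  ⟨(c (a (c (a (b (b (l 16670824) (l 16672592)) (b (l 16674344) (l 16676096))) (b (c (l 16682680) (l 16678648)) (c (l 16686072) (l 16684824)))) (a (b (c (l 16662208) (l 16657536)) (c (l 16665968) (l 16661472))) (b (c (l 16677184) (l 16673048)) (c (l 16680904) (l 16676928))))) (c (a (b (c (l 16696728) (l 16693208)) (c (l 16700072) (l 16696720))) (b (c (c (l 16708992) (l 16707504)) (b (l 16704376) (l 16706112))) (c (l 16713360) (b (l 16707848) (l 16709568))))) (a (b (c (l 16689648) (l 16686032)) (c (l 16693312) (l 16689856))) (b (c (b (l 16701288) (l 16703104)) (b (l 16698160) (l 16700056))) (c (b (l 16704920) (l 16706720)) (b (l 16701944) (l 16703832))))))) (a (c (a (b (c (l 16652808) (l 16650632)) (c (l 16659536) (l 16654912))) (b (c (l 16668848) (l 16664592)) (c (l 16672896) (l 16668808)))) (a (b (c (l 16645776) (l 16640848)) (c (l 16650232) (l 16645488))) (b (c (l 16660272) (l 16655904)) (c (l 16664672) (l 16660480))))) (c (a (b (c (l 16683672)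 (l 16679960)) (c (l 16687672) (l 16685432))) (b (c (b (l 16694992) (l 16696968)) (b (l 16691776) (l 16693832))) (c (b (l 16698936) (l 16700896)) (b (l 16695888) (l 16697928))))) (a (b (c (l 16677504) (l 16673688)) (c (l 16681832) (l 16678192))) (b (c (b (l 16688520) (l 16690664)) (a (l 16682504) (l 16690160))) (c (a (l 16690184) (l 16697536)) (a (l 16686960) (l 16694584)))))))), by decide +kernel⟩

def k29_mm_202_t : ∃ t, chk3 f_mm_202_t t 124 135 2 = true :=
  ⟨(a (b (c (a (b (b (l 16677840) (l 16679576)) (b (l 16681304) (l 16683024))) (b (c (l 16692056) (l 16688344)) (c (l 16695392) (l 16691848)))) (a (b (c (l 16667080) (l 16665376)) (c (l 16676032) (l 16671872))) (b (c (l 16684592) (l 16680776)) (c (l 16688248) (l 16684600))))) (c (a (c (b (l 16687536) (l 16690864)) (b (l 16683648) (l 16687136))) (c (b (l 16698704) (l 16701992)) (b (l 16695312) (l 16698760)))) (a (b (c (l 16679704) (l 16675712)) (c (l 16683352) (l 16679520))) (b (c (l 16691872) (l 16688384)) (c (l 16695472) (l 16692144)))))) (b (c (a (b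 (c (l 16703400) (l 16700200)) (c (l 16706696) (l 16703648))) (b (c (l 16716152) (c (l 16712824) (l 16711464))) (c (l 16720072) (b (l 16714704) (l 16716400))))) (a (b (c (l 16696952) (l 16693656)) (c (l 16700560) (l 16697424))) (b (c (b (l 16708512) (l 16710304)) (b (l 16705704) (l 16707568))) (c (b (l 16712088) (l 16713856)) (b (l 16709424) (l 16711280)))))) (c (a (b (c (l 16709976) (l 16707080)) (c (l 16713224) (l 16710480))) (b (c (b (l 16720528) (l 16722144)) (b (l 16718096) (l 16719776))) (c (b (l 16723744) (l 16725344)) (a (l 16719328) (l 16725264))))) (a (b (c (l 16705448) (l 16701160)) (c (l 16710312) (l 16707488))) (b (c (b (l 16715624) (l 16717384)) (a (l 16710808) (l 16717272))) (c (a (l 16716920) (l 16723104)) (a (l 16714472) (l 16720912)))))))), by decide +kernel⟩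

def k30_mm_202_t : ∃ t, chk3 f_mm_202_t t 124 135 3 = true :=
  ⟨(a (c (b (a (b (c (l 16663608) (l 16659160)) (c (l 16667648) (l 16663376))) (b (c (l 16676912) (l 16673000)) (c (l 16680896) (l 16677152)))) (a (b (c (l 16671656) (l 16667552)) (c (l 16675632) (l 16671688))) (b (c (l 16684848) (l 16681264)) (c (l 16688768) (l 16685344))))) (c (a (b (b (l 16654656) (l 16659040)) (b (l 16663384) (l 16667696))) (b (b (l 16669032) (l 16673352)) (b (l 16677632) (l 16681880)))) (a (b (b (l 16650088) (l 16654648)) (b (l 16659168) (l 16663648))) (b (b (l 16665008) (l 16669504)) (b (l 16673952) (l 16678360)))))) (b (c (a (b (c (l 16692944) (l 16689560)) (c (l 16696872) (l 16693648))) (b (c (b (l 16702848) (l 16704800)) (a (l 16697456) (l 16704496))) (c (a (l 16704328) (l 16711072)) (a (l 16701504) (l 16708512))))) (a (b (c (l 16686128) (l 16682656)) (c (l 16690384) (l 16687080))) (b (c (a (l 16694432) (l 16701744)) (a (l 16691368) (l 16698960))) (c (a (l 16698640) (l 16705920)) (a (l 16695736) (l 16703296)))))) (c (a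 (b (c (l 16700768) (l 16697704)) (c (l 16704624) (l 16701728))) (b (c (a (l 16708176) (l 16714896)) (a (l 16705512) (l 16712496))) (c (a (l 16712000) (l 16718688)) (a (l 16709488) (l 16716440))))) (a (b (c (l 16694600) (l 16691464)) (c (l 16698784) (l 16695800))) (b (c (a (l 16702808) (l 16710064)) (a (l 16700072) (l 16707592))) (c (a (l 16706944) (l 16714160)) (a (l 16704360) (l 16711848)))))))), by decide +kernel⟩

def k31_mm_202_t : ∃ t, chk3 f_mm_202_t t 125 268 1 = true :=
  ⟨(b (l 14) (b (l 14) (a (c (a (c (c (l 16717400) (l 16714800)) (c (l 16712152) (l 16709480))) (a (c (l 16725096) (l 16720600)) (c (l 16731120) (a (l 16722896) (l 16726176))))) (c (a (c (l 16709384) (l 16706632)) (a (l 16715984) (l 16724384))) (a (c (l 16703848) (l 16701024)) (a (l 16711240) (l 16720200))))) (c (a (a (c (l 16738320) (a (l 16732088) (l 16735384))) (c (c (l 16743968) (l 16742528)) (c (l 16741072) (l 16739592)))) (c (a (c (l 16749936) (l 16748760)) (a (l 16754600) (a (l 16756248) (l 16757784)))) (a (c (l 16747568) (l 16746360))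 (c (l 16755072) (l 16754128))))) (a (a (c (c (l 16731088) (l 16729296)) (c (l 16727480) (l 16725640))) (c (c (l 16738096) (l 16736576)) (c (l 16735040) (l 16733480)))) (c (a (c (l 16745128) (l 16743888)) (c (a (l 16750424) (l 16753960)) (a (l 16749384) (l 16753056)))) (a (c (l 16742624) (l 16742656)) (a (c (l 16748336) (l 16747264)) (c (l 16752144) (l 16751224)))))))))), by decide +kernel⟩

def k32_mm_202_t : ∃ t, chk3 f_mm_202_t t 250 538 1 = true :=
  ⟨(c (a (c (c (b (l 16719048) (l 16720688)) (a (l 16711712) (l 16720424))) (c (a (l 16709056) (l 16718032)) (a (l 16708984) (l 16715608)))) (c (c (a (l 16728648) (l 16734528)) (a (l 16726544) (l 16732680))) (c (a (l 16724408) (l 16730808)) (a (l 16722248) (l 16730224))))) (a (c (c (a (l 16706256) (l 16713144)) (a (l 16703488) (l 16710648))) (c (a (l 16700688) (l 16708120)) (a (l 16697848) (l 16705560)))) (c (c (a (l 16720056) (l 16726992)) (a (l 16717832) (l 16725040))) (c (a (l 16715576) (l 16724368)) (a (l 16713296) (l 16722368)))))), by decide +kernel⟩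

def k33_mm_202_t : ∃ t, chk3 f_mm_202_t t 251 538 1 = true :=
  ⟨(c (a (c (a (c (l 16741744) (l 16739832)) (c (b (l 16745568) (l 16747168)) (b (l 16744200) (l 16745872)))) (a (c (l 16738224) (b (l 16734688) (l 16736520))) (c (b (l 16742816) (l 16744560)) (b (l 16741416) (l 16743224))))) (b (c (a (c (l 16751528) (l 16750424)) (a (l 16756216) (c (l 16759016) (l 16758232)))) (a (a (l 16747080) (l 16750392)) (a (l 16755024) (c (l 16757440) (l 16756640))))) (c (a (c (l 16753120) (l 16752080)) (a (l 16757832) (c (l 16760592) (l 16759880)))) (a (c (l 16751032) (l 16749960)) (a (l 16756120) (c (l 16759152) (l 16758416))))))) (a (c (a (c (b (l 16733000) (l 16734896)) (b (l 16731280) (l 16733256))) (c (b (l 16739992) (l 16741880)) (b (l 16738552) (l 16740512)))) (a (c (b (l 16729544) (l 16731600)) (b (l 16727784) (l 16729912))) (c (b (l 16737088) (l 16739128)) (b (l 16735608) (l 16737720))))) (a (c (c (b (l 16747008) (l 16748880)) (b (l 16745840) (l 16747792))) (c (b (l 16745968) (l 16747992)) (b (l 16744768) (a (l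 16743592) (l 16747520))))) (c (b (c (a (l 16752296) (l 16755824)) (a (l 16751328) (l 16754992))) (a (c (l 16754152) (l 16753264)) (c (l 16757680) (l 16756920)))) (b (a (c (l 16750352) (l 16749360)) (c (l 16754160) (l 16753304))) (b (a (l 16751392) (l 16755264)) (a (l 16752416) (l 16756280)))))))), by decide +kernel⟩

def k34_mm_202_t : ∃ t, chk3 f_mm_202_t t 250 539 1 = true :=
  ⟨(c (a (c (c (b (l 16722320) (l 16723952)) (c (l 16724008) (l 16722832))) (c (a (l 16715264) (l 16721592)) (a (l 16712728) (l 16719320)))) (c (c (a (l 16731888) (l 16737752)) (a (l 16729928) (l 16736048))) (c (a (l 16727944) (l 16734320)) (a (l 16725936) (l 16733888))))) (a (c (c (a (l 16710152) (l 16717008)) (a (l 16707552) (l 16714672))) (c (a (l 16704904) (l 16712304)) (a (l 16702232) (l 16709904)))) (c (c (a (l 16723896) (l 16732112)) (a (l 16721824) (l 16730312))) (c (a (l 16719728) (l 16728496)) (a (l 16717608) (l 16726856)))))), by decide +kernel⟩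

def k35_mm_202_t : ∃ t, chk3 f_mm_202_t t 251 539 1 = true :=
  ⟨(b (c (a (a (c (a (l 16740592) (l 16743608)) (a (l 16737464) (l 16740736))) (c (a (l 16746632) (l 16749664)) (a (l 16744016) (l 16747312)))) (c (a (c (l 16754696) (l 16753728)) (a (c (l 16759168) (l 16758392)) (c (l 16762160) (l 16761512)))) (a (a (l 16750600) (l 16753904)) (a (l 16757872) (c (l 16760856) (l 16760192)))))) (a (c (a (c (l 16736792) (l 16735224)) (c (l 16743760) (l 16742464))) (a (c (l 16733640) (l 16732032)) (c (l 16741152) (l 16739824)))) (c (a (c (l 16751400) (l 16751040)) (c (a (l 16756008) (l 16759520)) (a (l 16755192) (l 16758840)))) (a (a (l 16746248) (a (l 16749128) (l 16751056))) (c (a (l 16754360) (l 16758152)) (a (l 16753520) (l 16757448))))))) (c (a (a (c (c (l 16744432) (l 16743024)) (c (l 16741592) (l 16740144))) (c (c (l 16750336) (l 16749184)) (c (l 16748016) (l 16746832)))) (c (a (c (l 16757584) (l 16756680)) (a (c (l 16760736) (l 16760032)) (c (l 16763720) (l 16763144)))) (a (c (l 16755776) (l 16753536)) (c (a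 (l 16759312) (l 16762560)) (a (l 16758592) (l 16761960)))))) (a (c (a (c (l 16738672) (l 16737184)) (c (l 16745624) (l 16744408))) (a (c (l 16735680) (l 16734144)) (c (l 16743176) (l 16741920)))) (c (a (c (a (l 16750856) (l 16754352)) (l 16752640)) (a (a (l 16756592) (l 16758376)) (b (l 16760592) (l 16761528)))) (a (a (l 16748944) (c (l 16752576) (l 16751672))) (a (c (l 16756352) (l 16755584)) (c (l 16760136) (l 16759504)))))))), by decide +kernel⟩

def k36_mm_202_t : ∃ t, chk3 f_mm_202_t t 250 135 2 = true :=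
  ⟨(b (a (c (b (c (a (l 16723488) (l 16729280)) (a (l 16721168) (l 16727216))) (c (a (l 16726720) (l 16732488)) (a (l 16724544) (l 16730568)))) (b (c (a (l 16718816) (l 16725120)) (a (l 16716432) (l 16723000))) (c (a (l 16722344) (l 16728624)) (a (l 16720112) (l 16726648))))) (c (a (b (c (l 16735104) (l 16733288)) (c (l 16738288) (l 16736624))) (b (c (l 16740944) (l 16739384)) (c (l 16745424) (l 16744008)))) (c (a (b (l 16731448) (l 16734928)) (b (l 16737808) (l 16742568))) (a (b (l 16729592) (l 16733216)) (b (l 16737184) (b (l 16738904) (l 16740696))))))) (c (a (a (b (c (l 16729920) (l 16727896)) (c (l 16733104) (l 16731216))) (b (c (l 16735672) (l 16733896)) (c (l 16738832) (l 16737200)))) (b (a (c (l 16741456) (l 16739928)) (c (l 16748568) (l 16747288))) (a (c (l 16744592) (l 16743208)) (c (b (l 16749600) (l 16751152)) (b (l 16748424) (l 16750048)))))) (a (a (b (c (l 16725840) (l 16723760)) (c (l 16729312) (l 16727376))) (b (c (l 16732096) (l 16730272)) (c (l 16735544) (l 16733856)))) (b (a (c (l 16738376)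 (l 16736808)) (c (l 16745992) (b (l 16742480) (l 16744256)))) (a (c (l 16741800) (l 16740368)) (c (b (l 16747232) (l 16748928)) (b (l 16746024) (l 16747784)))))))), by decide +kernel⟩

def k37_mm_202_t : ∃ t, chk3 f_mm_202_t t 250 135 3 = true :=
  ⟨(b (a (c (a (b (c (l 16714016) (l 16711568)) (c (l 16717848) (l 16715552))) (b (c (l 16720848) (l 16718664)) (c (l 16724648) (l 16722624)))) (a (b (c (l 16709088) (l 16706576)) (c (l 16713232) (l 16710872))) (b (c (l 16716456) (l 16714216)) (c (l 16720568) (l 16718480))))) (c (c (a (b (l 16727704) (l 16731472)) (b (l 16735888) (b (l 16737392) (l 16739256)))) (a (b (l 16725784) (l 16729712)) (b (l 16734248) (b (l 16735856) (l 16737800))))) (b (a (c (l 16723848) (l 16721880)) (c (b (l 16730248) (l 16732280)) (b (l 16728520) (l 16730632)))) (a (c (l 16727928) (l 16727424)) (c (b (l 16734304) (l 16736320)) (b (l 16732728) (l 16734824))))))) (a (c (a (b (c (l 16721648) (l 16719504)) (c (l 16725408) (l 16723424))) (b (c (l 16728416) (l 16726544)) (c (l 16732152) (l 16730424))))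 (a (b (c (l 16717336) (l 16715136)) (c (l 16721408) (l 16719360))) (b (c (l 16724640) (l 16722712)) (c (l 16728672) (l 16726904))))) (c (b (a (c (l 16735216) (l 16733600)) (c (b (l 16741112) (l 16742960)) (b (l 16739728) (l 16741648)))) (a (c (l 16738928) (l 16737456)) (c (b (l 16744800) (l 16746632)) (b (l 16743560) (l 16745464))))) (b (a (c (l 16733280) (l 16731624)) (c (b (l 16738328) (l 16740320)) (b (l 16736904) (l 16738968)))) (a (c (l 16737280) (b (l 16733432) (l 16735496))) (c (b (l 16742304) (l 16744280)) (b (l 16741032) (l 16743080)))))))), by decide +kernel⟩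

def k38_mm_202_t : ∃ t, chk3 f_mm_202_t t 251 135 4 = true :=
  ⟨(a (a (b (b (c (b (l 16746016) (l 16747600)) (b (l 16744680) (l 16746328))) (c (b (l 16749176) (l 16750744)) (b (l 16747976) (l 16749616)))) (b (c (b (l 16752304) (l 16753864)) (b (l 16751248) (l 16752872))) (c (b (l 16755408) (l 16756952)) (b (l 16754488) (l 16756096))))) (a (b (b (c (l 16751224) (l 16750112)) (c (l 16754360) (l 16753384))) (b (c (l 16757472) (l 16756632)) (b (l 16759416) (l 16760984)))) (b (b (c (l 16754176) (l 16753192)) (c (l 16757960) (l 16756456))) (b (b (l 16759256) (l 16762144)) (b (l 16763064) (c (l 16764240) (l 16763696))))))) (b (b (a (a (c (l 16757792) (l 16756936)) (b (l 16759592) (c (l 16760880) (l 16760184)))) (b (c (a (l 16762296) (l 16765272)) (a (l 16761656) (l 16764760))) (a (c (l 16763848) (l 16763280)) (c (l 16766824) (l 16766376))))) (b (a (a (l 16760408) (c (l 16762432) (l 16761800))) (a (c (l 16765392) (l 16764896)) (c (l 16768368) (l 16767984)))) (a (a (l 16761336) (c (l 16763976) (l 16763416))) (a (c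 (l 16766936) (l 16766496)) (c (l 16767280) (l 16766968)))))) (b (a (a (b (c (l 16762568) (l 16761952)) (c (l 16764112) (l 16763552))) (b (c (l 16765520) (l 16765024)) (c (l 16767048) (l 16766624)))) (b (a (c (l 16768472) (l 16768104)) (c (l 16768808) (l 16768560))) (a (c (l 16767376) (l 16769696)) (c (l 16770336) (l 16770152))))) (a (a (a (b (l 16764648) (l 16766208)) (b (l 16766144) (l 16767704))) (b (c (l 16768576) (l 16768216)) (c (l 16767480) (l 16769800)))) (b (a (c (l 16768904) (l 16768656)) (b (l 16771408) (l 16772176))) (b (a (l 16769944) (a (l 16772200) (l 70564965751))) (a (l 16770712) (a (l 16772968) (a (l 16775392) (b (l 16777128) (l 140895060775))))))))))), by decide +kernel⟩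

def k39_mm_202_t : ∃ t, chk3 f_mm_202_t t 251 135 5 = true :=
  ⟨(a (b (b (a (c (b (l 16743320) (l 16745048)) (b (l 16741944) (l 16743744))) (c (b (l 16749736) (l 16751440)) (b (l 16748616) (l 16750400)))) (a (c (b (l 16746760) (l 16748464)) (b (l 16745528) (l 16747304))) (c (b (l 16753144) (l 16754840)) (b (l 16752176) (l 16753936))))) (a (b (c (b (l 16750168) (l 16751864)) (b (l 16749080) (l 16750840))) (c (b (l 16753544) (l 16755224)) (b (l 16752592) (l 16754344)))) (a (c (b (l 16755784) (l 16759792)) (b (l 16754920) (l 16758408))) (b (b (l 16757744) (l 16759456)) (b (l 16761160) (l 16763512)))))) (b (a (a (b (c (l 16756064) (l 16754528)) (b (l 16757568) (l 16759288))) (b (b (l 16758696) (l 16759776)) (b (c (l 16761160) (l 16760512)) (c (l 16762848) (l 16762264))))) (a (b (b (c (l 16761008) (l 16760352)) (c (l 16762696) (l 16762112))) (a (b (l 16763304) (l 16765016)) (b (l 16764944) (l 16766656)))) (b (b (c (l 16764248) (l 16763720)) (c (l 16765928) (l 16765472))) (b (c (l 16767608) (l 16767216)) (c (l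 16769272) (l 16768952)))))) (a (a (b (b (l 16761656) (c (l 16762992) (l 16762416))) (c (b (l 16764656) (l 16766312)) (b (l 16764152) (l 16765880)))) (b (c (b (l 16764520) (l 16766184)) (b (l 16764008) (l 16765744))) (c (c (l 16764824) (l 16765960)) (c (l 16763168) (l 16763000))))) (a (b (a (b (l 16766712) (l 16768408)) (b (l 16768352) (l 16767424))) (c (b (l 16768416) (l 16770064)) (b (l 16765544) (l 16767256)))) (b (c (b (l 16768312) (l 16769968)) (b (l 16765440) (l 16769784))) (a (b (l 16770744) (l 16772416)) (b (l 16772376) (b (l 16773616) (a (l 16776656) (a (l 16777120) (l 134989480903))))))))))), by decide +kernel⟩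

def k40_mm_202_t : ∃ t, chk3 f_mm_202_t t 502 135 3 = true :=
  ⟨(b (c (c (b (a (b (l 16740552) (l 16742416)) (b (l 16747488) (l 16749344))) (a (b (l 16744280) (l 16746128)) (b (l 16751184) (l 16753024)))) (a (b (b (l 16739136) (l 16741080)) (b (l 16743008) (l 16744936))) (b (b (l 16746344) (l 16748272)) (a (l 16749344) (l 16753592))))) (b (a (c (b (l 16737704) (l 16739720)) (b (l 16736248) (l 16738344))) (c (b (l 16745184) (l 16747184)) (b (l 16744008) (l 16746080)))) (b (a (c (l 16741728) (l 16740424)) (c (l 16749176) (l 16749456))) (a (c (l 16743728) (l 16742496)) (a (l 16748784) (c (l 16753016) (l 16752136))))))) (b (b (a (c (a (l 16745664) (l 16749160)) (c (l 16745712) (l 16744560))) (c (c (l 16755504) (l 16754648)) (a (l 16750800) (c (l 16754984) (l 16754176))))) (c (a (c (l 16749808) (l 16748752)) (a (l 16754528) (a (l 16757160) (l 16758912)))) (a (c (l 16747696) (l 16746616)) (a (l 16752800) (c (l 16756944) (l 16756208)))))) (b (c (a (a (l 16749400) (l 16752888)) (c (a (l 16756768) (l 16760200)) (a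 (l 16755984) (l 16759552)))) (a (c (l 16749664) (l 16748656)) (c (a (l 16755200) (l 16758896)) (a (l 16754392) (l 16758224))))) (c (a (c (l 16753448) (l 16752544)) (c (a (l 16758576) (l 16762000)) (a (l 16757864) (l 16761424)))) (a (c (l 16751624) (l 16750688)) (c (a (l 16757144) (l 16760832)) (c (l 16753248) (l 16752920)))))))), by decide +kernel⟩

def k41_mm_202_t : ∃ t, chk3 f_mm_202_t t 503 270 3 = true :=
  ⟨(c (a (a (b (c (b (l 16752704) (l 16754552)) (b (l 16751768) (l 16753680))) (c (b (l 16756384) (l 16758208)) (b (l 16755584) (l 16757480)))) (b (c (b (l 16756192) (l 16758032)) (b (l 16755384) (l 16757296))) (c (b (l 16759856) (l 16761680)) (b (l 16759192) (l 16761080))))) (a (b (c (b (l 16759688) (l 16761520)) (b (l 16759016) (l 16760920))) (c (c (l 16759128) (l 16760192)) (c (l 16758632) (l 16759696)))) (c (b (b (l 16763192) (l 16765016)) (b (l 16766824) (l 16766008))) (b (b (l 16762656) (l 16764544)) (b (l 16766432) (l 16763064)))))) (c (a (a (b (b (l 16750808) (l 16752800)) (b (l 16754776) (l 16756744)))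 (b (b (l 16754568) (l 16756552)) (b (l 16758520) (l 16760480)))) (b (a (b (l 16758336) (l 16760304)) (b (l 16762104) (l 16764072))) (a (b (l 16762272) (l 16764224)) (b (l 16760784) (l 16765352))))) (a (a (b (b (l 16749840) (l 16751904)) (b (l 16753952) (l 16756000))) (b (b (l 16753736) (l 16755792)) (b (l 16757832) (l 16759872)))) (b (a (b (l 16757640) (l 16759688)) (b (l 16761552) (l 16763592))) (a (b (l 16761720) (l 16763752)) (b (l 16762992) (l 16765016))))))), by decide +kernel⟩

def k42_mm_202_t : ∃ t, chk3 f_mm_202_t t 503 271 3 = true :=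
  ⟨(a (a (c (b (c (b (l 16760032) (l 16761840)) (b (l 16759376) (l 16761256))) (c (b (l 16763640) (l 16765432)) (b (l 16763120) (l 16764984)))) (b (c (b (l 16758704) (l 16760656)) (b (l 16758032) (l 16760056))) (b (c (l 16762600) (l 16762064)) (c (l 16764528) (l 16764072))))) (b (c (c (c (l 16764512) (l 16759024)) (c (l 16758784) (l 16758536))) (b (c (l 16762432) (l 16761896)) (c (l 16764376) (l 16763912)))) (b (c (c (l 16767088) (l 16766704)) (a (l 16762544) (l 16764440))) (c (b (l 16765640) (l 16766544)) (c (l 16762992) (l 16762664)))))) (b (a (b (c (c (l 16766952) (l 16766560)) (c (l 16766168) (l 16760520))) (c (c (l 16763512) (l 16768432)) (c (l 16762856) (l 16765152)))) (b (c (c (l 16767808) (l 16764928)) (c (l 16767288) (l 16765712))) (c (c (l 16769592) (l 16769408)) (c (l 16769216) (l 16768360))))) (a (b (c (c (l 16765296) (l 16765040)) (c (l 16764784) (l 16767144))) (c (c (l 16767072) (l 16766888)) (c (l 16769320) (l 16767816)))) (b (c (c (l 16771376) (l 16771256)) (b (l 16770576) (l 16771552))) (b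 (c (c (l 16772696) (l 16772624)) (a (l 16768960) (c (l 16773480) (l 16773440)))) (a (c (l 16772688) (l 16769928)) (a (c (l 16775296) (l 16775256)) (b (c (a (l 16777024) (l 16777248)) (l 133915736487)) (c (l 140358189895) (l 143042544455)))))))))), by decide +kernel⟩

def k43_mm_202_t : ∃ t, chk3 f_mm_202_t t 126 66 1 = true :=
  ⟨(l 14), by decide +kernel⟩

def k44_mm_202_t : ∃ t, chk3 f_mm_202_t t 504 268 2 = true :=
  ⟨(b (l 14) (b (l 14) (a (c (a (c (l 16760448) (l 16759728)) (c (l 16763464) (l 16762872))) (c (a (l 16758992) (l 16762272)) (a (l 16758256) (l 16761664)))) (c (a (c (l 16767144) (l 16766024)) (c (a (l 16768760) (l 16770272)) (a (l 16768400) (l 16769976)))) (a (c (l 16765560) (l 16765088)) (c (a (l 16768024) (l 16769672)) (l 16765232))))))), by decide +kernel⟩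

def k45_mm_202_t : ∃ t, chk3 f_mm_202_t t 504 269 2 = true :=
  ⟨(b (b (a (c (a (c (l 16762024) (l 16761368)) (c (l 16765032) (l 16764512))) (c (a (l 16760712) (l 16763984)) (a (l 16760040) (l 16763440)))) (c (b (a (l 16767952) (c (l 16770688) (l 16770408))) (a (c (l 16768440) (l 16768064)) (c (l 16771464) (l 16771216)))) (a (c (l 16764640) (l 16766856)) (c (c (l 16767992) (l 16767856)) (l 16767000))))) (a (a (c (c (l 16763592) (l 16763008)) (c (l 16762416) (l 16761816))) (c (c (l 16766600) (l 16766144)) (c (l 16765680) (l 16765216)))) (a (c (c (a (l 16768856) (l 16770368)) (a (l 16768496) (l 16770072))) (b (l 16765736) (l 16766600))) (c (c (c (l 16770056) (l 16769960)) (b (l 16769408) (l 16770216))) (c (c (l 16769664) (l 16769560)) (l 16768760)))))) (b (a (a (c (c (l 16765152) (l 16764640)) (c (l 16764112) (l 16763584))) (c (c (a (l 16767408) (l 16768904)) (l 16765144)) (c (l 16767376) (l 16766976)))) (c (a (c (c (l 16768608) (l 16768480)) (c (l 16768352) (l 16768216))) (c (c (l 16771592) (l 16771520)) (b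 (l 16771024) (l 16771832)))) (a (b (l 16767456) (l 16768320)) (c (b (l 16770872) (l 16771712)) (l 16770832))))) (a (a (c (c (l 16766712) (l 16766264)) (c (l 16765808) (l 16765344))) (c (c (a (l 16768960) (l 16770456)) (a (l 16768600) (l 16770168))) (c (l 16766440) (l 16766112)))) (b (a (c (c (l 16769704) (l 16772112)) (l 16769176)) (c (c (l 16772712) (l 16772632)) (c (l 16772552) (l 16772464)))) (a (c (c (l 16770472) (l 16770296)) (l 16770032)) (b (a (l 16773712) (a (l 16773608) (b (l 16776904) (l 24394071639)))) (a (l 16774120) (a (l 16774016) (a (l 16777632) (l 4)))))))))), by decide +kernel⟩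

def k46_mm_202_t : ∃ t, chk3 f_mm_202_t t 505 268 2 = true :=
  ⟨(b (l 14) (b (l 14) (a (a (c (c (b (l 16769544) (l 16770320)) (b (l 16769328) (l 16770136))) (c (b (l 16769104) (l 16769952)) (c (l 16769376) (l 16769272)))) (c (b (c (l 16772912) (l 16772496)) (a (l 16773872) (a (l 16773720) (b (l 16776896) (a (l 16777080) (l 134989480535)))))) (b (c (l 16772408) (l 16772320)) (a (l 16772384) (a (l 16773648) (a (l 16776544) (b (l 16777064) (l 16777264)))))))) (a (a (b (b (b (l 14) (a (l 16776968) (l 4))) (a (a (a (l 16777000) (l 16777152)) (c (l 132841996871) (l 16777256))) (l 4))) (b (c (l 248269242679) (l 256322306359)) (l 4))) (l 4)) (l 4))))), by decide +kernel⟩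

def k47_mm_202_t : ∃ t, chk3 f_mm_202_t t 505 269 2 = true :=
  ⟨(a (a (a (b (c (b (c (l 16770728) (l 16770560)) (c (l 16772936) (l 16772176))) (b (c (l 16770392) (l 16770224)) (c (l 16772080) (l 16771976)))) (b (b (c (l 16773408) (l 16773312)) (b (a (l 16773576) (b (l 16776880) (l 9898557015))) (a (l 16773984) (a (a (l 16777080) (l 16777200)) (l 177402282695))))) (b (a (b (c (l 16776968) (l 16776944)) (a (a (l 16777088) (l 16777208)) (l 4))) (c (l 264375370007) (l 197803377607))) (l 4)))) (b (b (c (c (l 16772896) (l 16772144)) (c (l 16772040) (l 16771936))) (b (c (l 16774688) (l 16773280)) (b (a (l 16773544) (b (l 16776856) (l 16777016))) (a (l 16773952) (a (a (l 16777056) (l 16777184)) (l 157001188071)))))) (b (b (b (a (c (l 16776952) (l 16776928)) (c (l 187065959095) (l 189750313655))) (a (a (a (l 16777072) (l 16777192)) (l 166664864455)) (l 4))) (c (c (l 269207208359) (l 272428433815)) (l 269207208343))) (l 4)))) (b (b (b (b (a (l 16774400) (a (c (l 16776904) (l 16776880)) (c (l 171496702615) (l 162369897191))))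 (a (l 16774816) (a (a (a (l 16777024) (l 16777160)) (l 130694513479)) (l 4)))) (b (c (a (c (l 16775408) (l 16775216)) (l 257396048199)) (a (l 82376126487) (l 261691015479))) (a (a (l 16773920) (a (a (l 16777032) (l 16777168)) (l 138747577127))) (l 4)))) (a (b (b (a (c (l 16776928) (l 16776904)) (c (l 176865411751) (l 178476024487))) (a (a (a (l 16777048) (l 16777176)) (l 147874382599)) (l 4))) (b (c (l 262764757319) (l 266522853703)) (l 4))) (l 4))) (l 4))) (l 4)), by decide +kernel⟩

def k48_mm_202_t : ∃ t, chk3 f_mm_202_t t 252 268 3 = true :=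
  ⟨(b (l 14) (b (l 14) (a (a (a (a (c (l 16756216) (l 16754600)) (c (l 16758352) (l 16756880))) (c (c (l 16761048) (l 16760424)) (c (l 16759792) (l 16759152)))) (c (a (c (l 16764936) (l 16764120)) (c (a (l 16767272) (l 16769056)) (a (l 16766896) (l 16768744)))) (a (c (a (l 16762664) (l 16764584)) (a (l 16762128) (l 16764120))) (c (a (l 16766504) (l 16768424)) (c (l 16764576) (l 16764392)))))) (a (b (a (c (c (l 16768656) (l 16765808)) (c (l 16768192) (l 16767960))) (c (c (l 16772232) (l 16772144)) (c (l 16772048) (l 16771952)))) (a (c (c (l 16769568) (l 16769376)) (c (l 16769184) (l 16768984))) (c (a (l 16773520) (a (l 16773576) (b (l 99555997351) (a (l 16777056) (l 141431931463))))) (a (l 16772024) (a (l 16773496) (b (l 98482255303) (a (l 16777040) (l 130157642391)))))))) (a (a (b (a (b (c (l 97408513687) (l 96334771639)) (a (c (l 16777040) (l 16777024)) (c (l 122641449623) (l 139821318727)))) (b (b (l 14) (l 4)) (l 4))) (b (b (c (l 260617273607) (l 263301628167)) (l 4)) (l 4))) (l 4)) (l 4)))))), by decide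 +kernel⟩

def k49_mm_202_t : ∃ t, chk3 f_mm_202_t t 252 1076 3 = true :=
  ⟨(a (a (a (c (b (l 16758544) (l 16759488)) (b (l 16757104) (l 16758120))) (c (c (l 16762896) (l 16762344)) (b (l 16761000) (l 16759392)))) (c (a (c (a (l 16765560) (l 16767336)) (l 16763408)) (c (a (l 16769112) (l 16770888)) (c (l 16764552) (l 16764408)))) (a (c (a (l 16764656) (l 16766568)) (a (l 16764192) (l 16766176))) (c (c (l 16766888) (l 16766752)) (b (l 16766024) (l 16767048)))))) (a (b (b (a (c (l 16770176) (l 16769832)) (a (c (l 16772904) (l 16772776)) (a (c (l 101703481031) (l 100629738983)) (a (c (l 140895060567) (l 146800640583)) (l 4))))) (a (c (l 16770640) (l 16770336)) (a (c (l 16773368) (l 16773272)) (a (a (c (l 16777064) (l 16777048)) (c (l 143579415127) (l 146263769687))) (l 4))))) (a (c (c (l 16771400) (l 16771272)) (c (l 16771152) (l 16771024))) (a (a (c (l 16773608) (l 16773528)) (b (c (l 103850964695) (c (l 16776840) (l 16775520))) (a (c (l 16777072) (l 16777064)) (c (l 148411253335) (l 151095607895))))) (b (b (c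 (l 265449111831) (l 268670337303)) (l 4)) (l 4))))) (l 4))), by decide +kernel⟩

def k50_mm_202_t : ∃ t, chk3 f_mm_202_t t 252 1077 3 = true :=
  ⟨(a (c (a (a (c (l 16761208) (l 16760584)) (c (l 16764736) (l 16764256))) (c (a (a (l 16767392) (l 16769168)) (c (l 16766640) (l 16769152))) (a (l 16765312) (b (l 16765904) (l 16766848))))) (a (a (c (l 16759960) (l 16759328)) (b (l 16760400) (l 16761408))) (a (c (a (l 16766632) (l 16768544)) (c (l 16762080) (l 16764528))) (c (b (l 16768296) (l 16769280)) (b (l 16768064) (l 16769088)))))) (a (a (c (b (c (l 16772304) (l 16772216)) (a (l 16772280) (a (l 16773640) (b (l 108682802967) (a (l 16777096) (l 170959831575)))))) (a (c (l 16771664) (l 16771552)) (b (l 16773064) (a (l 16773568) (a (c (l 16775888) (l 108682802743)) (b (l 16777080) (l 173644186135))))))) (a (b (a (b (c (l 106535319287) (c (l 16776856) (l 16775856))) (a (c (l 16777080) (l 16777072)) (c (l 165591122455) (l 168275477015)))) (c (c (l 203708957415) (l 199413990119)) (c (l 263838499063) (l 265985982711))))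 (b (c (l 269744079175) (l 272965304647)) (l 4))) (l 4))) (l 4))), by decide +kernel⟩

def k51_mm_202_t : ∃ t, chk3 f_mm_202_t t 252 539 3 = true :=
  ⟨(a (b (a (a (c (c (l 16763048) (l 16762496)) (c (l 16761944) (l 16761384))) (c (c (l 16763952) (l 16763544)) (b (l 16762416) (l 16763416)))) (a (c (c (a (l 16769224) (l 16770992)) (l 16765904)) (c (c (l 16764384) (l 16764240)) (c (l 16766728) (l 16766584)))) (c (c (c (l 16768440) (l 16770992)) (b (l 16767792) (l 16768736))) (b (c (l 16770264) (l 16770104)) (c (l 16771240) (l 16771112)))))) (a (a (c (c (l 16764872) (l 16764400)) (c (l 16763920) (l 16760808))) (c (c (l 16765776) (l 16765432)) (b (l 16763768) (l 16764760)))) (a (c (c (c (l 16766728) (l 16766632)) (l 16768440)) (c (b (l 16765784) (l 16766760)) (b (l 16768176) (l 16769192)))) (b (c (c (l 16772384) (l 16772296)) (c (l 16772216) (l 16772128))) (a (c (l 16772360) (l 16772192)) (a (c (l 16773712) (l 16773648)) (a (b (l 16775456) (c (l 16777128) (l 16777120))) (b (c (l 16777120) (l 16777112)) (l 4)))))))))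 (a (a (b (b (a (c (l 16773208) (l 16773104)) (a (b (a (l 16775400) (c (l 16777096) (l 16777088))) (a (c (l 16777104) (l 16777096)) (c (l 182234120727) (l 184381604375)))) (c (c (l 208003924727) (l 208540795639)) (l 269207208199)))) (a (b (a (l 16774712) (a (l 16775416) (c (l 16777112) (l 16777096)))) (a (l 16775520) (a (c (l 16777112) (l 16777104)) (c (l 194582151671) (l 196729635319))))) (b (c (l 274575917399) (l 279407755591)) (l 4)))) (a (b (b (a (a (l 16775432) (c (l 16777120) (l 16777112))) (c (l 211762020967) (l 213909504615))) (a (a (c (l 16777120) (l 16777112)) (l 4)) (l 4))) (l 4)) (l 4))) (l 4)) (l 4))), by decide +kernel⟩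

def k52_mm_202_t : ∃ t, chk3 f_mm_202_t t 504 1080 1 = true :=
  ⟨(a (a (b (c (c (l 16767672) (l 16766864)) (c (l 16763416) (l 16762560))) (c (c (l 16765840) (l 16767720)) (c (l 16764336) (l 16763560)))) (c (c (c (c (l 16768696) (l 16768568)) (a (l 16770216) (l 16771776))) (c (l 16768120) (l 16767856))) (c (c (l 16767592) (l 16767320)) (c (l 16766392) (c (l 16764224) (l 16764080)))))) (a (c (b (c (c (l 16771240) (l 16771104)) (l 16770880)) (c (c (l 16772008) (l 16771904)) (l 16771736))) (c (c (c (l 16768520) (l 16768456)) (l 16770320)) (b (c (l 16767736) (l 16770200)) (c (l 16768704) (l 16771208))))) (b (a (c (c (l 16773472) (l 16773376)) (c (l 16773280) (l 16773184))) (a (b (a (c (l 16776840) (l 16775472)) (c (l 16777632) (c (l 16777136) (l 16777128)))) (a (c (l 16777640) (c (l 16777136) (l 16777128))) (l 4))) (l 4))) (a (a (c (c (l 16773872) (l 16773808)) (c (l 16773744) (l 16773680))) (b (a (c (l 16776856) (l 16775488)) (c (l 16777648) (c (l 16777144) (l 16777136)))) (a (c (l 16777648) (c (l 16777144) (l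 16777136))) (l 4)))) (l 4))))), by decide +kernel⟩

def k53_mm_202_t : ∃ t, chk3 f_mm_202_t t 504 1081 1 = true :=
  ⟨(a (a (c (c (c (a (l 16769056) (l 16770552)) (l 16766864)) (c (l 16766544) (l 16768840))) (c (c (l 16765888) (l 16765560)) (c (l 16765224) (l 16764224)))) (c (c (c (c (l 16770216) (l 16770120)) (c (l 16770024) (l 16769936))) (c (l 16769792) (l 16769592))) (c (c (l 16769400) (l 16769200)) (c (c (l 16766424) (l 16766328)) (b (l 16765672) (l 16766672)))))) (a (b (c (c (c (l 16772776) (l 16772704)) (c (l 16772624) (l 16772544))) (c (c (l 16772464) (l 16772384)) (a (l 16771288) (l 16773216)))) (a (c (c (l 16772760) (l 16772600)) (c (l 16772440) (l 16772280))) (a (c (c (l 16773904) (l 16773840)) (c (l 16773784) (l 16773720))) (b (a (c (l 16776888) (l 16776176)) (c (l 16777664) (c (l 16777160) (l 16777152)))) (a (c (l 16777664) (c (l 16777168) (l 16777160))) (l 4)))))) (a (a (b (b (a (c (l 16776872) (l 16776160)) (c (l 16777656) (c (l 16777152) (l 16777144)))) (a (c (l 16777656) (c (l 16777152) (l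 16777152))) (l 4))) (l 4)) (l 4)) (l 4)))), by decide +kernel⟩

def k54_mm_202_t : ∃ t, chk3 f_mm_202_t t 504 541 1 = true :=
  ⟨(b (a (c (c (a (c (a (l 16770592) (l 16772088)) (l 16768472)) (c (c (l 16771728) (l 16771672)) (c (l 16771608) (l 16771544)))) (a (c (l 16768216) (l 16767960)) (c (l 16771456) (l 16771328)))) (a (c (c (l 16767696) (l 16767432)) (b (l 16766536) (l 16767528))) (c (c (l 16771200) (l 16771072)) (b (c (l 16767832) (l 16767680)) (c (l 16768800) (l 16771304)))))) (a (b (a (c (c (l 16774848) (l 16773448)) (c (l 16774008) (l 16773912))) (a (b (a (c (l 16776904) (l 67343742823)) (c (l 16777672) (c (l 16777168) (l 16777160)))) (a (c (l 16777672) (c (l 16777176) (l 16777168))) (l 4))) (l 4))) (a (a (c (c (l 16773928) (l 16773872)) (c (l 16773816) (l 16773760))) (b (c (c (l 16777040) (l 16777024)) (c (c (l 16777016) (l 16777000)) (c (l 16776992) (l 16777024)))) (a (c (l 16777680) (c (l 16777184) (l 16777176))) (l 4)))) (l 4))) (l 4))) (a (a (c (c (c (c (l 16770296) (l 16770200)) (l 16770064))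 (c (l 16769880) (l 16769688))) (c (c (l 16769496) (l 16769304)) (b (l 16768512) (l 16768840)))) (b (c (c (c (l 16772840) (l 16772768)) (c (l 16772696) (l 16772616))) (c (c (l 16772544) (l 16772464)) (a (l 16771384) (l 16773952)))) (a (c (c (l 16772824) (l 16772680)) (c (l 16772520) (l 16772368))) (a (c (c (l 16773960) (l 16773904)) (c (l 16773856) (l 16773792))) (b (a (c (l 16776944) (b (l 16776792) (l 16777008))) (c (l 16777688) (c (l 16777192) (l 16777192)))) (a (c (l 16777696) (c (l 16777200) (l 16777192))) (l 4))))))) (a (a (a (b (b (a (c (l 16776928) (b (l 16776776) (l 16777000))) (c (l 16777680) (c (l 16777184) (l 16777184)))) (a (c (l 16777688) (c (l 16777192) (l 16777184))) (l 4))) (l 4)) (l 4)) (l 4)) (l 4)))), by decide +kernel⟩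

def k55_mm_202_t : ∃ t, chk3 f_mm_202_t t 2016 271 1 = true :=
  ⟨(b (b (c (c (c (c (l 16771800) (l 16771744)) (l 16771656)) (c (l 16771536) (l 16771408))) (c (c (l 16771288) (l 16771160)) (b (l 16770152) (c (l 16768888) (l 16768776))))) (b (c (c (a (l 16772120) (l 16774288)) (c (l 16772768) (l 16772696))) (c (c (l 16772616) (l 16772544)) (a (l 16768856) (l 58216933495)))) (a (c (c (l 16772896) (l 16770136)) (c (l 16772608) (l 16772456))) (a (c (b (l 16776424) (l 16775504)) (c (l 16775232) (l 16775184))) (b (c (c (l 16777096) (l 16777088)) (c (l 112977770871) (a (l 16776952) (l 16777224)))) (a (c (l 16777560) (c (l 16777224) (l 16777224))) (l 4))))))) (b (a (b (c (c (l 16774808) (l 16773584)) (c (c (l 16770904) (l 16770856)) (c (l 16773440) (l 16773400)))) (a (c (c (l 16775360) (l 16776624)) (c (l 16775264) (l 16775216))) (b (c (c (l 16777112) (l 16777096)) (c (c (l 16777088) (l 16777088)) (c (l 16777080) (l 109756546839)))) (c (c (l 128547029831) (l 126399546215)) (c (l 128547029863) (l 131768255335))))))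 (b (a (b (c (c (l 16777104) (l 16777088)) (c (l 116735867303) (c (l 16777072) (l 104387837687)))) (a (c (l 16777560) (c (l 16777232) (l 16777232))) (l 4))) (l 4)) (l 4))) (a (b (a (b (c (c (l 16777120) (l 16777112)) (c (c (l 16777104) (l 16777096)) (l 127473285527))) (a (c (l 16777576) (c (l 16777248) (l 16777240))) (l 4))) (l 4)) (l 4)) (l 4)))), by decide +kernel⟩

def k56_mm_202_t : ∃ t, chk3 f_mm_202_t t 2017 271 1 = true :=
  ⟨(b (b (a (b (c (c (l 16774912) (l 16773512)) (c (l 16774248) (l 16773992))) (a (c (c (l 16773992) (l 16773936)) (c (l 16773888) (l 16773832))) (b (c (c (l 16777080) (l 16777064)) (c (c (l 16777056) (l 16777048)) (a (l 16776920) (l 16777208)))) (a (c (l 16777712) (c (l 16777216) (l 16777208))) (l 4))))) (a (b (b (a (c (l 16776960) (c (l 16776928) (l 16776904))) (c (l 16777696) (c (l 16777200) (l 16777200)))) (a (c (l 16777704) (c (l 16777208) (l 16777200))) (l 4))) (l 4)) (l 4))) (a (a (b (b (c (c (l 16777088) (l 16777080)) (c (c (l 16777064) (l 16777064)) (c (l 16777056) (l 90429193943))))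 (a (c (l 16777712) (c (l 16777216) (l 16777216))) (l 4))) (l 4)) (l 4)) (l 4))) (l 4)), by decide +kernel⟩

def k57_mm_202_t : ∃ t, chk3 f_mm_202_t t 1009 271 1 = true :=
  ⟨(l 4), by decide +kernel⟩

def k58_mm_202_t : ∃ t, chk3 f_mm_202_t t 505 135 1 = true :=
  ⟨(l 4), by decide +kernel⟩

def k59_mm_202_t : ∃ t, chk3 f_mm_202_t t 253 67 1 = true :=
  ⟨(l 4), by decide +kernel⟩

def k60_mm_202_t : ∃ t, chk3 f_mm_202_t t 127 33 1 = true :=
  ⟨(l 4), by decide +kernel⟩

def k61_mm_202_t : ∃ t, chk3 f_mm_202_t t 240 34 1 = true :=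
  ⟨(b (b (l 1) (b (a (l 1) (b (b (l 1) (c (l 16536608) (l 16495128))) (c (c (l 16539040) (l 16521808)) (c (b (l 16508072) (l 16510416)) (b (l 16486976) (l 16489544)))))) (c (c (a (b (l 16532368) (l 16546720)) (l 16550048)) (a (b (l 16513288) (l 16526736)) (l 16530800))) (c (b (a (b (l 16500304) (l 16502664)) (l 16513928)) (l 16512704)) (b (a (b (l 16478648) (l 16481224)) (l 16493368)) (l 16493720)))))) (c (b (c (b (b (l 16545280) (l 16549072)) (b (l 16552832) (l 16556568))) (b (c (l 16533048) (l 16523464)) (b (l 16539768) (l 16549136)))) (c (b (a (l 16557008) (l 16567248)) (a (l 16564368) (l 16574520))) (b (b (l 16553240) (l 16557304)) (b (l 16561344) (l 16565344))))) (b (c (b (c (l 16513744) (l 16503888)) (c (l 16522672) (l 16513224))) (b (c (l 16504384) (l 16494256)) (c (l 16514144) (l 16504440)))) (c (b (b (l 16535208) (l 16539672)) (b (l 16544096) (l 16548488))) (b (c (l 16523752) (l 16514464)) (c (l 16533200) (l 16524320))))))), by decide +kernel⟩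

def k62_mm_202_t : ∃ t, chk3 f_mm_202_t t 241 34 1 = true :=
  ⟨(a (b (b (b (l 1) (b (l 1) (b (l 1) (b (l 1) (c (l 16544104) (l 16503848)))))) (c (b (b (c (l 16548360) (b (l 16535848) (l 16537976))) (c (l 16560056) (l 16541152))) (c (l 16555264) (l 16542200))) (b (c (b (b (l 16515880) (l 16518216)) (l 16521704)) (b (b (l 16495360) (l 16497912)) (l 16501720))) (c (l 16523376) (l 16504032))))) (c (b (c (b (l 16562768) (l 16570168)) (b (l 16550496) (l 16553424))) (c (b (l 16577464) (l 16584648)) (b (l 16561464) (l 16569392)))) (b (c (b (l 16532480) (l 16541440)) (b (l 16513960) (l 16528976))) (c (b (l 16545016) (l 16553696)) (b (l 16538592) (l 16548048)))))) (b (b (b (l 1) (c (b (c (l 16559120) (l 16529464)) (c (l 16555096) (b (l 16543136) (l 16545256)))) (c (b (l 16509752) (b (l 16523736) (l 16526064))) (b (l 16510464) (b (l 16503808) (l 16506344)))))) (c (c (b (l 16558184) (l 16565712)) (b (l 16545272) (l 16553584))) (c (b (l 16529216) (l 16535720)) (b (l 16510024) (l 16522608))))) (c (b (c (b (l 16573128)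 (l 16580448)) (b (l 16561776) (l 16569840))) (c (b (l 16587656) (l 16594760)) (b (l 16572544) (l 16580368)))) (b (c (b (l 16544704) (l 16553544)) (b (l 16532400) (l 16542040))) (c (b (l 16562248) (l 16576056)) (b (l 16551520) (l 16560848))))))), by decide +kernel⟩

def k63_mm_202_t : ∃ t, chk3 f_mm_202_t t 242 34 1 = true :=
  ⟨(a (b (b (b (b (l 1) (c (c (l 16555424) (l 16539440)) (b (l 1) (c (l 16529336) (l 16509792))))) (c (c (b (l 16561872) (l 16573536)) (b (b (l 16550480) (l 16552584)) (l 16555736))) (c (b (b (l 16531664) (l 16533976)) (l 16537432)) (b (b (l 16512328) (l 16514848)) (l 16518616))))) (c (c (b (l 16573944) (l 16581384)) (b (l 16556728) (l 16564944))) (c (b (l 16541656) (l 16550664)) (b (l 16526088) (l 16535912))))) (c (b (c (b (l 16583472) (l 16590704)) (b (l 16573040) (l 16581008))) (c (b (l 16597832) (l 16604848)) (b (l 16588848) (l 16591336)))) (b (c (b (l 16556912) (l 16565640)) (b (l 16545576) (l 16555088))) (c (b (l 16579464) (l 16587912)) (b (l 16564432) (l 16573624)))))) (b (b (b (b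 (c (c (l 16564888) (b (l 16553664) (l 16555776))) (a (c (l 16533008) (l 16513704)) (c (l 16528864) (l 16510080)))) (c (c (l 16568696) (l 16553360)) (b (c (l 16539656) (l 16520920)) (l 16536032)))) (c (c (l 16576984) (l 16562568)) (c (l 16546360) (l 16529672)))) (c (c (b (l 16584448) (l 16591800)) (b (l 16570808) (l 16576296))) (c (b (l 16554080) (l 16562976)) (b (l 16539520) (l 16549208))))) (c (b (c (b (l 16599056) (l 16600960)) (b (l 16584288) (l 16592160))) (c (b (l 16608000) (l 16614936)) (b (l 16605152) (l 16612776)))) (b (c (b (l 16574344) (l 16582960)) (b (l 16558744) (l 16568112))) (c (b (l 16591432) (l 16599760)) (b (l 16577336) (l 16586392))))))), by decide +kernel⟩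

def k64_mm_202_t : ∃ t, chk3 f_mm_202_t t 243 34 1 = true :=
  ⟨(b (c (b (b (c (b (a (l 16575576) (l 16594136)) (l 16593848)) (b (a (l 16561152) (l 16578072)) (b (l 16575344) (l 16577400)))) (c (c (l 16599320) (l 16594256)) (c (l 16586456) (l 16578552)))) (c (b (c (l 16609096) (l 16601776)) (c (l 16616144) (l 16609192))) (b (c (l 16594352) (l 16586824)) (c (l 16602136) (l 16594976))))) (b (b (c (b (a (l 16544608) (l 16561552)) (b (l 16558616) (l 16560872))) (b (c (l 16542384) (l 16533272)) (c (l 16546976) (l 16538320)))) (c (c (l 16571840) (l 16565024)) (c (l 16556784) (l 16548432)))) (c (b (c (l 16579192) (l 16574080)) (c (l 16587720) (l 16580368))) (b (c (l 16566232) (l 16555664)) (c (l 16572912) (l 16565352)))))) (c (b (c (b (c (l 16623096) (l 16616496)) (c (l 16629952) (l 16623688))) (b (c (l 16609800) (l 16603008)) (c (l 16617344) (l 16610904)))) (c (b (c (l 16636696) (l 16630776)) (c (l 16643344) (l 16637752))) (b (c (l 16624768) (l 16618672)) (c (l 16632080) (l 16626320))))) (b (c (b (c (l 16596112)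 (l 16589136)) (c (l 16604376) (l 16597752))) (b (c (l 16582056) (l 16574880)) (c (l 16591048) (l 16584248)))) (c (b (c (l 16612496) (l 16606232)) (c (l 16620488) (l 16614568))) (b (c (l 16599880) (l 16593448)) (c (l 16608568) (l 16602488))))))), by decide +kernel⟩

def k65_mm_202_t : ∃ t, chk3 f_mm_202_t t 122 68 2 = true :=
  ⟨(b (a (c (b (c (b (l 16613800) (l 16617376)) (c (l 16605024) (l 16601448))) (c (l 16624000) (c (l 16612392) (l 16614240)))) (b (c (c (l 16600472) (l 16599464)) (b (l 16586656) (l 16596032))) (c (c (l 16610824) (l 16607384)) (b (l 16600136) (l 16604200))))) (c (b (c (b (l 16634840) (l 16638336)) (a (l 16614456) (l 16630712))) (c (b (l 16641800) (l 16645248)) (b (l 16635920) (l 16639536)))) (b (c (a (l 16613224) (l 16624728)) (a (l 16606656) (l 16618648))) (c (a (l 16615664) (l 16632312)) (a (l 16609456) (l 16626592)))))) (c (a (b (c (l 16629680) (l 16625912)) (c (l 16636576) (l 16633152))) (b (c (b (l 16648664) (l 16652056)) (b (l 16643120) (l 16646680))) (c (b (l 16655432) (l 16658776))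 (b (l 16650216) (l 16653720))))) (a (b (c (b (l 16614896) (l 16618728)) (b (l 16608240) (l 16612240))) (c (l 16627024) (b (l 16616216) (l 16620160)))) (b (c (b (l 16637496) (l 16641232)) (b (l 16631792) (l 16635696))) (c (b (l 16644928) (l 16648600)) (b (l 16639568) (l 16643408))))))), by decide +kernel⟩

def k66_mm_202_t : ∃ t, chk3 f_mm_202_t t 123 68 2 = true :=
  ⟨(b (a (c (b (c (a (l 16647224) (l 16657920)) (a (l 16641800) (l 16655592))) (c (a (l 16654040) (l 16669904)) (a (l 16648952) (l 16665288)))) (b (c (a (l 16636296) (l 16653200)) (a (l 16633336) (l 16648112))) (c (a (l 16643792) (l 16660600)) (a (l 16643800) (l 16655856))))) (b (c (c (a (l 16673952) (c (l 16685816) (l 16683840))) (a (l 16669488) (c (l 16681848) (l 16679848)))) (a (c (l 16664960) (l 16661680)) (b (c (l 16674992) (l 16670816)) (c (l 16678632) (l 16674616))))) (c (c (a (l 16680616) (b (l 16689776) (l 16693048))) (a (l 16676472) (b (l 16686032) (l 16689456)))) (a (c (l 16672264) (l 16668008)) (c (b (l 16682232) (l 16685816)) (b (l 16678384)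 (l 16682120))))))) (a (c (b (c (a (l 16660760) (l 16676544)) (a (l 16656000) (l 16672248))) (c (a (l 16672624) (l 16683088)) (a (l 16668184) (l 16679096)))) (b (c (a (l 16656408) (l 16667888)) (a (l 16651512) (l 16663464))) (c (a (l 16663672) (l 16675056)) (a (l 16659096) (l 16670952))))) (c (b (c (a (l 16687176) (l 16700520)) (a (l 16683344) (b (l 16692848) (l 16696216)))) (c (a (l 16693640) (l 16706904)) (a (l 16690112) (l 16703840)))) (b (c (a (l 16679456) (b (l 16689360) (l 16692880))) (a (l 16675512) (b (l 16685824) (l 16689496)))) (a (c (l 16686528) (l 16682896)) (c (b (l 16696368) (l 16699832)) (b (l 16693136) (l 16696744)))))))), by decide +kernel⟩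

def k67_mm_202_t : ∃ t, chk3 f_mm_202_t t 122 68 3 = true :=
  ⟨(b (c (a (b (c (b (l 16584400) (l 16588720)) (b (l 16576792) (l 16581304))) (c (b (l 16593008) (l 16597264)) (b (l 16585784) (l 16590232)))) (b (c (a (l 16600000) (l 16612488)) (a (l 16593248) (l 16606248))) (c (a (l 16603168) (l 16620792)) (a (l 16596784) (l 16620152))))) (a (b (c (b (l 16569080) (l 16573792)) (b (l 16561264) (l 16566176))) (c (b (l 16578464) (l 16583096)) (b (l 16571040) (l 16575872)))) (b (a (b (l 16585832) (l 16590544)) (b (l 16599640) (l 16604288))) (c (a (l 16590320) (l 16614192)) (a (l 16594248) (l 16608152)))))) (c (a (a (b (a (l 16585632) (l 16591856)) (l 16603840)) (b (a (l 16598080) (l 16604320)) (a (l 16606544) (l 16612720)))) (b (c (b (l 16626016) (l 16630088)) (a (l 16605424) (l 16628672))) (c (b (l 16634136) (l 16638144)) (a (l 16624400) (l 16637048))))) (a (a (b (a (l 16571192) (l 16577912)) (l 16591712)) (b (b (l 16590936) (l 16595552)) (b (l 16600136) (l 16604680)))) (b (c (a (l 16609808) (l 16623072)) (a (l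 16603624) (l 16617392))) (c (a (l 16618656) (l 16631792)) (a (l 16612840) (l 16626472))))))), by decide +kernel⟩

def k68_mm_202_t : ∃ t, chk3 f_mm_202_t t 123 68 3 = true :=
  ⟨(b (a (c (b (a (b (l 16625328) (l 16629544)) (b (l 16638272) (l 16642432))) (c (a (l 16638488) (l 16651040)) (a (l 16633104) (l 16646152)))) (b (a (b (l 16613520) (l 16618104)) (b (l 16627496) (l 16632016))) (a (b (l 16622640) (l 16627144)) (b (l 16636488) (l 16640920))))) (c (b (a (b (l 16652624) (l 16655416)) (b (c (l 16666584) (l 16662296)) (c (l 16670552) (l 16666424)))) (a (c (l 16663688) (l 16661928)) (b (c (l 16674480) (l 16670520)) (c (l 16678376) (l 16674576))))) (b (a (b (l 16644200) (l 16648648)) (b (c (l 16657952) (l 16653544)) (c (l 16662248) (l 16658016)))) (a (b (l 16653056) (l 16657424)) (b (c (l 16666504) (l 16662440)) (c (l 16670728) (l 16666832))))))) (a (c (b (c (a (l 16646544) (l 16658984)) (a (l 16641504) (l 16654440))) (c (a (l 16654464) (l 16666792)) (a (l 16649760) (l 16662576)))) (b (a (b (l 16631608) (l 16636032))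 (b (l 16645320) (l 16649680))) (a (b (l 16640416) (l 16644760)) (b (l 16654000) (l 16658280))))) (c (a (b (b (l 16667512) (l 16671480)) (c (l 16679216) (l 16675488))) (b (b (c (l 16682232) (l 16678600)) (c (l 16686064) (l 16682584))) (b (c (l 16689856) (l 16686536)) (c (l 16693616) (l 16690448))))) (b (a (b (l 16659136) (l 16663432)) (b (c (l 16674912) (l 16671176)) (c (l 16679056) (l 16675488)))) (a (b (l 16667680) (l 16671896)) (b (c (l 16683168) (l 16679752)) (c (l 16687240) (l 16683984)))))))), by decide +kernel⟩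

def k69_mm_202_t : ∃ t, chk3 f_mm_202_t t 122 69 1 = true :=
  ⟨(c (b (c (a (b (c (l 16643368) (l 16637664)) (c (l 16650064) (l 16644688))) (b (c (b (l 16662088) (l 16665384)) (b (l 16657200) (l 16660656))) (c (b (l 16668656) (l 16671896)) (b (l 16664080) (l 16667480))))) (a (b (c (l 16634504) (l 16629288)) (c (l 16641856) (l 16636328))) (b (c (b (l 16652248) (l 16655856)) (b (l 16647216) (l 16650992))) (c (b (l 16659440) (l 16663000)) (a (l 16650864) (l 16662352)))))) (c (a (b (c (l 16656656) (l 16654224)) (c (l 16663144) (l 16663648))) (b (c (b (l 16675112) (l 16678304)) (a (l 16667280) (l 16677776))) (c (a (l 16678064) (l 16688048)) (a (l 16673960) (l 16684368))))) (a (b (c (l 16646472) (l 16646512)) (c (l 16658840) (l 16653960))) (b (c (a (l 16662808) (l 16673752)) (a (l 16658280) (l 16669664))) (c (a (l 16669792) (l 16680640)) (a (l 16665568) (l 16676856))))))) (b (c (a (b (c (l 16623992) (l 16617960)) (c (l 16630720) (l 16626344))) (b (c (a (l 16638072) (l 16650128)) (a (l 16632752) (l 16645280))) (c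 (a (l 16645944) (l 16657888)) (a (l 16640960) (l 16653368))))) (a (b (c (l 16612496) (l 16606952)) (c (l 16621888) (l 16616048))) (b (c (a (l 16627360) (l 16640368)) (a (l 16621888) (l 16635384))) (c (a (l 16635904) (l 16648792)) (a (l 16630784) (l 16644144)))))) (c (a (b (c (l 16641240) (l 16635896)) (c (l 16649008) (l 16643992))) (b (c (a (l 16653680) (l 16665520)) (a (l 16649024) (l 16661320))) (c (a (l 16661288) (l 16673016)) (a (l 16656944) (l 16669120))))) (a (b (c (l 16630472) (l 16624984)) (c (l 16638912) (l 16633752))) (b (c (a (l 16644304) (l 16657056)) (a (l 16639512) (l 16652744))) (a (c (l 16652544) (l 16648088)) (b (l 16661128) (l 16665232)))))))), by decide +kernel⟩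

def k70_mm_202_t : ∃ t, chk3 f_mm_202_t t 123 69 2 = true :=
  ⟨(b (a (c (b (c (a (l 16679144) (l 16689528)) (a (l 16675008) (l 16685840))) (c (a (l 16685568) (l 16695872)) (a (l 16681736) (l 16692480)))) (b (c (a (l 16670816) (l 16682104)) (a (l 16666560) (l 16678312))) (c (a (l 16677848) (l 16689040)) (a (l 16673904) (l 16685552))))) (c (b (a (c (l 16700000) (l 16696768)) (b (l 16710208) (l 16713392))) (a (b (l 16703208) (l 16706384)) (b (l 16716560) (l 16719696)))) (b (a (c (l 16693488) (l 16690160)) (c (b (l 16703256) (l 16706664)) (b (l 16700320) (l 16703872)))) (a (c (l 16700328) (l 16699912)) (c (b (l 16710032) (l 16713376)) (b (l 16707384) (l 16710872))))))) (c (a (b (c (a (l 16691888) (l 16702112)) (a (l 16688344) (l 16699008))) (a (c (l 16698104) (l 16694848)) (c (l 16708248) (l 16705424)))) (b (a (b (l 16709536) (l 16712656)) (b (l 16722800) (c (l 16724344) (l 16722176)))) (a (b (l 16715752) (l 16718832)) (b (c (l 16727336) (l 16725304)) (c (l 16730304) (l 16728400)))))) (a (b (a (c (l 16684752)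 (l 16681112)) (c (l 16695856) (l 16692664))) (a (c (l 16691552) (l 16688200)) (c (l 16702552) (l 16699648)))) (b (a (c (l 16707048) (l 16706928)) (c (b (l 16716696) (l 16719976)) (b (l 16714328) (l 16717752)))) (a (c (l 16713656) (l 16713808)) (b (c (l 16723232) (l 16721144)) (c (l 16726464) (l 16724504)))))))), by decide +kernel⟩

def k71_mm_202_t : ∃ t, chk3 f_mm_202_t t 123 69 3 = true :=
  ⟨(b (a (c (b (a (c (l 16662248) (l 16657880)) (c (l 16674472) (l 16670568))) (a (c (l 16669904) (l 16665848)) (c (l 16682008) (l 16678424)))) (b (a (b (l 16649072) (l 16653336)) (b (l 16662520) (l 16666720))) (a (b (l 16657568) (l 16661752)) (b (l 16670888) (l 16675016))))) (c (b (a (c (l 16686784) (l 16683368)) (c (b (l 16697344) (l 16701040)) (b (l 16694328) (l 16698176)))) (a (c (l 16694216) (l 16691096)) (c (b (l 16704704) (l 16708328)) (b (l 16701984) (l 16705760))))) (b (a (b (l 16676072) (l 16680208)) (b (c (l 16691272) (l 16688168)) (c (l 16695264) (l 16692320)))) (a (b (l 16684312) (l 16688368)) (b (c (l 16699224)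 (l 16696432)) (c (l 16703144) (l 16700496))))))) (c (a (c (a (b (l 16677424) (l 16684808)) (b (l 16689424) (l 16696696))) (a (b (l 16673680) (l 16681368)) (b (l 16686136) (l 16693704)))) (b (a (c (l 16704136) (l 16701312)) (c (b (l 16711928) (l 16715488)) (b (l 16709496) (l 16713200)))) (a (c (l 16711304) (l 16708768)) (b (c (l 16719016) (l 16716864)) (c (l 16722512) (l 16720496)))))) (a (b (a (b (l 16665904) (l 16670024)) (b (l 16679096) (l 16683144))) (a (b (l 16674096) (l 16678128)) (b (l 16687160) (l 16691128)))) (b (a (b (l 16692392) (l 16696376)) (b (c (l 16707032) (l 16704528)) (c (l 16710872) (l 16708520)))) (a (b (l 16700320) (l 16706848)) (b (c (l 16714680) (l 16712472)) (c (l 16718456) (l 16716384)))))))), by decide +kernel⟩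

def k72_mm_202_t : ∃ t, chk3 f_mm_202_t t 60 70 2 = true :=
  ⟨(a (b (c (a (b (l 16588440) (l 16594232)) (b (b (l 16605488) (l 16608976)) (c (l 16617464) (l 16610848)))) (a (b (b (l 16569320) (l 16573264)) (b (l 16577184) (l 16581064))) (b (c (l 16596688) (l 16589528)) (c (l 16604136) (l 16597336))))) (c (a (b (l 16601232) (l 16608128)) (b (c (l 16624128) (l 16617848)) (c (l 16630688) (l 16624736)))) (a (b (l 16589456) (l 16594416)) (b (c (l 16611472) (l 16605016)) (c (l 16618696) (l 16612568)))))) (b (c (a (b (c (l 16630304) (l 16624184)) (c (l 16636904) (l 16631120))) (b (c (l 16649896) (l 16644624)) (c (l 16656344) (l 16651384)))) (a (b (c (l 16617984) (l 16611696)) (c (l 16625248) (l 16619296))) (b (c (l 16639272) (l 16633840)) (c (l 16646344) (l 16641240))))) (c (a (b (c (l 16643408) (l 16637944)) (c (l 16649816) (l 16644656))) (b (c (l 16662688) (l 16658032)) (c (l 16668936) (l 16664576)))) (a (b (c (l 16632392) (l 16626768)) (c (l 16639424) (l 16634120))) (b (c (l 16653304) (l 16648512)) (c (l 16660144)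 (l 16655656))))))), by decide +kernel⟩

def k73_mm_202_t : ∃ t, chk3 f_mm_202_t t 60 70 3 = true :=
  ⟨(a (b (c (a (b (c (l 16559128) (l 16550872)) (c (l 16567512) (l 16559632))) (b (c (l 16582272) (l 16574912)) (c (l 16590432) (l 16583432)))) (a (b (c (l 16542504) (l 16534016)) (c (l 16551648) (l 16543552))) (b (c (l 16567448) (l 16559888)) (c (l 16576344) (l 16569152))))) (c (a (b (c (l 16575760) (l 16568248)) (l 16582936)) (b (c (l 16598456) (l 16591816)) (c (l 16606352) (l 16600048)))) (a (b (c (l 16560640) (l 16552920)) (l 16571064)) (b (c (l 16585080) (l 16578248)) (c (l 16593664) (l 16587184)))))) (b (c (a (b (c (l 16605320) (l 16598848)) (c (l 16613256) (l 16607136))) (b (c (l 16628336) (l 16622760)) (c (l 16636056) (l 16630808)))) (a (b (c (l 16592296) (l 16585648)) (c (l 16600928) (l 16594640))) (b (c (l 16617104) (l 16611368)) (c (l 16625488) (l 16620088))))) (c (a (b (c (l 16621064) (l 16615280)) (c (l 16628736) (l 16623272))) (b (c (l 16643648) (l 16638712)) (c (l 16651096) (l 16646480)))) (a (b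 (c (l 16609408) (l 16603464)) (c (l 16617744) (l 16612136))) (b (c (l 16633720) (l 16628656)) (c (l 16641800) (l 16637056))))))), by decide +kernel⟩

def k74_mm_202_t : ∃ t, chk3 f_mm_202_t t 60 71 2 = true :=
  ⟨(a (b (c (a (b (l 16614912) (l 16621592)) (b (c (l 16637152) (l 16631512)) (l 16644136))) (a (b (l 16601880) (l 16609216)) (b (c (l 16625792) (l 16619992)) (c (l 16632776) (l 16627296))))) (a (c (b (l 16628168) (l 16634640)) (b (l 16616432) (l 16623528))) (c (b (l 16647264) (l 16653568)) (b (c (l 16639640) (l 16634472)) (c (l 16646392) (l 16641520)))))) (b (c (a (b (c (l 16656120) (l 16651264)) (c (l 16662320) (l 16657760))) (b (c (l 16675080) (l 16671008)) (c (l 16681128) (l 16677328)))) (a (b (c (l 16646336) (l 16641336)) (c (l 16653128) (l 16648432))) (b (c (l 16666872) (l 16662672)) (c (l 16673472) (l 16669568))))) (c (a (b (c (l 16668424) (l 16664144)) (c (l 16674424) (l 16670424))) (b (c (l 16687072) (l 16683544)) (c (l 16692920) (l 16689656)))) (a (b (c (l 16659808) (l 16655408)) (c (l 16666368)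 (l 16662256))) (b (c (l 16679968) (l 16676336)) (c (l 16686344) (l 16682976))))))), by decide +kernel⟩

def k75_mm_202_t : ∃ t, chk3 f_mm_202_t t 60 71 3 = true :=
  ⟨(a (b (a (c (b (l 16593712) (l 16596480)) (b (l 16579928) (l 16583392))) (c (b (c (l 16614112) (l 16608144)) (c (l 16621728) (l 16616096))) (b (c (l 16602096) (l 16595968)) (l 16611424)))) (c (a (b (l 16604360) (l 16612096)) (b (c (l 16629224) (l 16623896)) (l 16636696))) (a (b (l 16591944) (l 16600344)) (b (l 16621024) (l 16629160))))) (b (c (a (b (c (l 16636272) (l 16631128)) (c (l 16643672) (l 16638848))) (b (c (l 16658416) (l 16654104)) (c (l 16665600) (l 16661584)))) (a (b (c (l 16625920) (l 16620640)) (c (l 16633952) (l 16628992))) (b (c (l 16649728) (l 16645296)) (c (l 16657504) (l 16653376))))) (c (a (b (c (l 16650944) (l 16646416)) (c (l 16658080) (l 16653848))) (b (c (l 16672656) (l 16668920)) (c (l 16679568) (l 16676112)))) (a (b (c (l 16641832) (l 16637176)) (c (l 16649560) (l 16645208))) (b (c (l 16665136) (l 16661296)) (c (l 16672608)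 (l 16669064))))))), by decide +kernel⟩

def k76_mm_202_t : ∃ t, chk3 f_mm_202_t t 122 70 2 = true :=
  ⟨(b (a (c (b (c (l 16669536) (l 16670344)) (c (l 16675832) (l 16671688))) (b (c (l 16665840) (l 16661272)) (c (l 16672728) (l 16668464)))) (a (c (b (l 16685056) (l 16691376)) (b (c (l 16676656) (l 16672736)) (c (l 16683408) (l 16679776)))) (c (b (c (l 16694248) (l 16690848)) (c (l 16700344) (l 16697224))) (b (c (l 16687408) (l 16683920)) (c (l 16694064) (l 16690856)))))) (a (c (b (c (l 16682024) (l 16678168)) (c (l 16688112) (l 16684536))) (b (c (l 16679504) (l 16675536)) (c (l 16686152) (l 16679856)))) (c (a (b (l 16697584) (l 16703696)) (b (c (l 16706336) (l 16703488)) (b (l 16709448) (l 16712440)))) (c (b (a (l 16690032) (l 16700600)) (a (l 16696552) (l 16707024))) (b (a (l 16686688) (l 16697672)) (a (l 16693480) (l 16704360))))))), by decide +kernel⟩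

def k77_mm_202_t : ∃ t, chk3 f_mm_202_t t 123 70 2 = true :=
  ⟨(a (b (c (b (a (c (l 16704224) (l 16701248)) (b (l 16711480) (l 16714544))) (a (b (l 16707368) (l 16710416)) (b (l 16717584) (l 16720592)))) (b (a (c (l 16698224) (l 16695168)) (c (l 16709144) (l 16706512))) (a (c (l 16704792) (l 16702000)) (c (l 16715608) (l 16713248))))) (c (b (a (b (l 16713440) (l 16716440)) (b (l 16723576) (l 16726528))) (a (b (l 16719408) (l 16722360)) (b (l 16729464) (l 16732368)))) (b (a (c (l 16711232) (l 16708720)) (b (l 16719304) (l 16722520))) (c (a (l 16717560) (l 16728200)) (a (l 16715312) (l 16726352)))))) (b (c (b (a (b (l 16721872) (l 16724896)) (b (c (l 16733248) (l 16731464)) (c (l 16736160) (l 16734512)))) (a (b (l 16730512) (l 16733480)) (b (c (l 16739056) (l 16737528)) (c (l 16741920) (l 16740512))))) (b (b (a (l 16720032) (c (l 16729664) (l 16727832))) (a (l 16723312) (c (l 16732832) (l 16731128)))) (a (b (l 16726568) (l 16729784)) (b (c (l 16735976) (l 16734400)) (c (l 16739088) (l 16737632)))))) (b (b (a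 (c (l 16736424) (l 16732976)) (b (c (l 16743400) (l 16740720)) (c (l 16744848) (l 16742288)))) (a (c (l 16739344) (l 16736144)) (c (a (l 16744416) (l 16749584)) (a (l 16741840) (l 16747408))))) (b (a (c (c (l 16740336) (l 16738880)) (l 16739032)) (c (a (l 16747280) (l 16752424)) (a (l 16744936) (l 16750480)))) (c (a (c (l 16743144) (l 16741800)) (a (l 16750112) (l 16755240))) (a (c (l 16740440) (l 16739064)) (a (l 16748000) (l 16753528)))))))), by decide +kernel⟩

def k78_mm_202_t : ∃ t, chk3 f_mm_202_t t 122 70 3 = true :=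
  ⟨(b (a (c (b (c (l 16656648) (l 16651952)) (c (l 16664144) (l 16659768))) (b (c (l 16647192) (l 16642368)) (c (l 16655320) (l 16650824)))) (c (b (a (c (l 16668760) (l 16664728)) (c (l 16680376) (l 16676784))) (a (c (l 16676096) (l 16672368)) (c (l 16687600) (l 16684304)))) (b (a (c (l 16660640) (l 16656496)) (c (l 16673144) (l 16669456))) (a (c (l 16668584) (l 16664752)) (c (l 16680968) (l 16677576)))))) (a (c (b (c (l 16671512) (l 16667440)) (c (l 16678744) (l 16674968))) (b (c (l 16663304) (l 16659112)) (a (l 16657816) (l 16670096)))) (c (c (b (a (l 16683304) (l 16694696)) (a (l 16690368) (l 16701664))) (b (a (l 16679864) (l 16691688)) (a (l 16687216) (l 16698928)))) (b (a (c (l 16676376) (l 16672848)) (c (l 16688632) (l 16685536))) (a (c (l 16684016) (l 16680776)) (c (l 16696152) (l 16693336))))))), by decide +kernel⟩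

def k79_mm_202_t : ∃ t, chk3 f_mm_202_t t 123 70 3 = true :=
  ⟨(b (c (a (b (a (c (l 16692064) (l 16688912)) (c (l 16703840) (l 16701136))) (a (c (l 16699184) (l 16696320)) (c (l 16710856) (l 16708424)))) (b (b (a (l 16715432) (c (l 16725976) (l 16724096))) (c (a (l 16717456) (l 16729408)) (a (l 16715264) (l 16727656)))) (a (b (c (l 16720912) (l 16718848)) (c (l 16724328) (l 16722400))) (c (b (l 16732800) (l 16736168)) (b (l 16731184) (l 16734672)))))) (a (b (a (b (l 16682128) (l 16686088)) (b (l 16695056) (l 16698952))) (c (a (l 16693416) (l 16705960)) (a (l 16690472) (l 16703472)))) (b (a (b (l 16710712) (c (l 16713040) (l 16710792))) (b (c (l 16722184) (l 16720256)) (c (l 16725880) (l 16724088)))) (a (b (c (l 16716768) (l 16714648)) (c (l 16720448) (l 16718472))) (b (a (l 16725456) (l 16731976)) (a (l 16729160) (l 16735648))))))) (a (a (c (b (c (l 16706168) (l 16703584)) (c (l 16713024) (l 16710704))) (c (b (l 16700960) (l 16708352)) (b (l 16698304) (l 16705968)))) (b (c (c (l 16717728) (l 16715568)) (b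 (l 16710400) (l 16714144))) (c (b (l 16721824) (l 16725224)) (b (l 16717840) (l 16721504))))) (a (c (b (b (c (l 16727712) (l 16725912)) (c (l 16731064) (l 16729392))) (c (b (l 16734384) (l 16737664)) (b (l 16732840) (l 16736248)))) (b (c (b (l 16724096) (l 16727704)) (b (l 16722248) (l 16725992))) (b (a (l 16727320) (l 16733664)) (a (l 16730936) (l 16737248))))) (a (c (b (b (l 16735808) (l 16739176)) (b (l 16742520) (l 16745824))) (b (b (l 16732824) (l 16736448)) (b (l 16740040) (l 16743584)))) (c (b (b (l 16741832) (l 16745176)) (b (l 16748488) (l 16746520))) (b (b (l 16739280) (l 16742880)) (b (l 16746432) (l 16739464)))))))), by decide +kernel⟩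

def k80_mm_202_t : ∃ t, chk3 f_mm_202_t t 61 142 2 = true :=
  ⟨(b (a (a (c (c (l 16694104) (l 16696040)) (c (l 16692696) (l 16687984))) (c (a (l 16708960) (b (l 16715400) (l 16718336))) (a (c (l 16702952) (l 16700152)) (c (l 16713328) (l 16710928))))) (b (a (a (c (l 16725280) (l 16721208)) (c (l 16735248) (l 16731968))) (c (a (a (l 16742792) (l 16747848)) (c (l 16748024) (l 16749816))) (a (a (l 16740104) (l 16745560)) (c (l 16743728) (l 16742872))))) (a (a (c (l 16728168) (l 16724344)) (c (l 16738104) (l 16735064))) (c (a (a (l 16745616) (l 16750648)) (a (l 16755704) (l 16755544))) (a (a (l 16743160) (l 16748592)) (c (l 16746664) (l 16745920))))))) (a (a (c (c (l 16705232) (l 16702192)) (c (l 16699112) (l 16694680))) (c (a (b (l 16711512) (l 16714432)) (b (l 16721240) (l 16724128))) (a (c (l 16709232) (l 16706688)) (b (l 16716880) (l 16720008))))) (a (c (a (b (l 16731040) (l 16733880)) (b (l 16743552) (l 16746352))) (a (b (l 16727456) (l 16730536)) (b (l 16738120) (l 16741152)))) (a (c (b (a (l 16748408)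 (l 16753424)) (a (l 16751184) (l 16756176))) (b (a (l 16746184) (l 16751592)) (a (l 16749184) (l 16754560)))) (a (b (b (l 16751792) (l 16753216)) (c (l 16755952) (l 16759968))) (c (b (l 16758280) (l 16760992)) (b (l 16757232) (l 16760152)))))))), by decide +kernel⟩

def k81_mm_202_t : ∃ t, chk3 f_mm_202_t t 61 142 3 = true :=
  ⟨(b (a (a (c (c (l 16683224) (l 16679736)) (a (l 16665704) (l 16677856))) (c (a (c (l 16697312) (l 16694432)) (c (l 16708496) (l 16706024))) (a (c (l 16691512) (l 16688552)) (c (l 16703520) (l 16700984))))) (a (a (c (c (l 16719744) (l 16717688)) (b (l 16712712) (l 16716360))) (b (c (l 16731216) (l 16727752)) (c (a (l 16729040) (l 16734832)) (a (l 16725616) (l 16731824))))) (a (c (c (a (l 16739664) (l 16745408)) (a (l 16738328) (l 16744280))) (b (a (l 16734512) (l 16740792)) (a (l 16738048) (l 16744296)))) (c (c (b (l 16742000) (l 16745168)) (b (l 16741120) (l 16744400))) (b (c (l 16740232) (l 16739328)) (c (l 16743624) (l 16742840))))))) (a (a (c (c (l 16691504) (l 16688288)) (a (l 16673440)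 (l 16685464))) (c (c (a (l 16704112) (l 16715192)) (a (l 16701504) (l 16712976))) (c (a (l 16698856) (l 16710736)) (a (l 16696168) (l 16708472))))) (a (c (c (a (l 16726336) (b (l 16735960) (l 16739168))) (a (l 16724528) (a (l 16733248) (l 16739096)))) (a (b (l 16719976) (l 16723552)) (b (a (l 16729184) (l 16735352)) (a (l 16732712) (l 16738848))))) (a (c (c (c (l 16738672) (l 16738176)) (c (l 16737672) (l 16737168))) (b (a (l 16741544) (l 16747768)) (b (l 16736760) (l 16738472)))) (b (a (c (l 16750296) (l 16743528)) (c (l 16756152) (l 16755040))) (c (c (l 16751400) (l 16750864)) (a (l 16746920) (l 16758400)))))))), by decide +kernel⟩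

def k82_mm_202_t : ∃ t, chk3 f_mm_202_t t 61 286 1 = true :=
  ⟨(a (c (a (a (c (l 16699616) (l 16693592)) (c (l 16709176) (l 16706528))) (c (a (b (l 16717328) (l 16720200)) (b (l 16726984) (l 16729816))) (c (a (l 16715400) (l 16725592)) (a (l 16713112) (l 16723688))))) (a (c (a (l 16687392) (c (l 16699856) (l 16697112))) (a (l 16681024) (l 16695544))) (c (c (a (l 16710784) (l 16721752)) (a (l 16708432) (l 16719792))) (c (a (l 16706048) (l 16717808)) (a (l 16703632) (l 16715800)))))) (a (c (c (a (b (l 16736696) (l 16739488)) (b (a (l 16744048) (l 16748976)) (a (l 16746808) (l 16751720)))) (a (b (l 16733584) (l 16736608)) (b (a (l 16741504) (l 16746816)) (l 16738608)))) (c (c (a (l 16732792) (a (l 16741128) (l 16746720))) (a (l 16731224) (a (l 16739864) (l 16745648)))) (b (a (l 16727088) (a (l 16736200) (l 16742304))) (a (l 16730584) (a (l 16739648) (l 16745720)))))) (a (c (c (b (c (l 16746320) (l 16756016)) (c (l 16748976) (l 16748296))) (b (a (l 16752144) (l 16757504)) (c (l 16747608) (l 16746912)))) (c (c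 (b (l 16743112) (l 16746200)) (c (l 16744088) (l 16743696))) (b (c (l 16741448) (l 16740592)) (c (l 16744760) (l 16744024))))) (c (c (a (b (l 16758656) (l 16761336)) (b (l 16763680) (l 16766336))) (a (b (l 16752400) (l 16760528)) (b (l 16763048) (l 16765912)))) (c (b (c (l 16757088) (l 16754040)) (c (l 16760120) (l 16757176))) (a (b (l 16755528) (l 16758848)) (b (l 16760416) (c (l 16759888) (l 16759664))))))))), by decide +kernel⟩

def k83_mm_202_t : ∃ t, chk3 f_mm_202_t t 122 287 1 = true :=
  ⟨(c (c (a (a (l 16705464) (l 16714952)) (c (a (l 16725448) (l 16734816)) (a (l 16723464) (l 16733200)))) (a (a (l 16699952) (l 16712800)) (c (a (l 16721448) (l 16731552)) (a (l 16719400) (l 16729880))))) (a (c (a (l 16694280) (c (l 16706504) (l 16704016))) (a (l 16688456) (c (l 16701496) (l 16698936)))) (a (c (c (l 16717328) (l 16715224)) (b (l 16710240) (l 16713784))) (c (b (l 16725704) (l 16728952)) (b (l 16722104) (l 16725592)))))), by decide +kernel⟩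

def k84_mm_202_t : ∃ t, chk3 f_mm_202_t t 123 287 1 = true :=
  ⟨(b (a (a (c (c (l 16742256) (l 16739592)) (c (l 16736856) (l 16734040))) (c (c (a (l 16749544) (l 16754432)) (a (l 16747440) (l 16752704))) (c (a (l 16745280) (l 16750928)) (a (l 16743056) (l 16749096))))) (a (c (c (c (l 16756848) (l 16751032)) (c (l 16750448) (l 16749856))) (c (c (l 16749256) (l 16748648)) (c (l 16748032) (l 16747408)))) (c (c (a (l 16763992) (b (l 16763072) (b (l 16764056) (l 16769904)))) (a (l 16763384) (b (l 16762792) (l 16769408)))) (c (a (l 16762768) (c (l 16768528) (l 55532567031))) (a (l 16762128) (b (l 16762216) (b (l 16763432) (l 58753796823)))))))) (a (c (c (a (l 16744992) (a (l 16752256) (l 16757120))) (a (l 16742552) (a (l 16750368) (l 16755600)))) (c (a (l 16729560) (a (l 16748424) (l 16754040))) (a (l 16726976) (a (l 16746432) (l 16752440))))) (a (c (c (c (l 16759456) (l 16753744)) (c (l 16753264) (l 16752776))) (c (c (l 16752280) (l 16751784)) (c (l 16751272) (l 16750760)))) (a (c (c (l 16766616) (l 16766216))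 (c (l 16765144) (l 16765376))) (a (b (c (l 16769600) (c (l 16764096) (l 16763912))) (c (b (l 16775848) (l 16776424)) (c (l 63585640279) (a (l 16775232) (l 16776600))))) (a (b (c (a (l 16776440) (l 16778256)) (c (l 16776600) (l 16776552))) (a (b (c (l 16777208) (l 71101843143)) (l 4)) (l 4))) (a (b (b (c (l 16777176) (l 60901294519)) (l 4)) (l 4)) (l 4)))))))), by decide +kernel⟩

def k85_mm_202_t : ∃ t, chk3 f_mm_202_t t 124 136 2 = true :=
  ⟨(a (c (c (a (b (b (l 16694168) (l 16697448)) (b (l 16700696) (l 16703928))) (b (b (l 16705256) (l 16708496)) (b (l 16711712) (l 16714896)))) (a (b (b (l 16690592) (l 16694024)) (b (l 16697432) (l 16700808))) (b (b (l 16702176) (l 16705560)) (b (l 16708920) (l 16712256))))) (b (a (b (c (l 16686968) (l 16683296)) (c (l 16690560) (l 16687040))) (c (b (l 16699040) (l 16702584)) (b (l 16695872) (l 16699560)))) (a (c (b (l 16694120) (l 16697648)) (b (l 16690760) (l 16694440))) (c (b (l 16706096) (l 16709576)) (b (l 16703224) (l 16706856)))))) (c (b (b (a (c (l 16716448) (l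 16713848)) (c (a (l 16724896) (l 16730568)) (a (l 16722672) (l 16728576)))) (a (c (l 16719648) (l 16717192)) (c (a (l 16728072) (l 16733712)) (a (l 16725984) (l 16731872))))) (b (a (c (l 16722816) (l 16720512)) (c (a (l 16731216) (l 16736840)) (a (l 16729264) (l 16735136)))) (a (c (l 16728592) (l 16726424)) (c (a (l 16734328) (l 16739936)) (a (l 16732520) (l 16738368)))))) (b (c (a (b (l 16713832) (l 16717328)) (b (a (l 16720408) (l 16726568)) (a (l 16723864) (l 16730000)))) (a (b (l 16711160) (l 16714808)) (b (a (l 16718112) (l 16724520)) (a (l 16721712) (l 16728096))))) (c (a (b (l 16720792) (l 16724224)) (b (a (l 16727288) (l 16733400)) (a (l 16730688) (l 16736776)))) (a (b (l 16717760) (l 16721344)) (b (a (l 16725288) (l 16731648)) (a (l 16728832) (l 16735160)))))))), by decide +kernel⟩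

def k86_mm_202_t : ∃ t, chk3 f_mm_202_t t 124 137 2 = true :=
  ⟨(a (c (b (a (b (c (l 16707128) (l 16704160)) (c (l 16710304) (l 16707480))) (b (c (l 16718064) (l 16715560)) (c (l 16721200) (l 16718848)))) (a (b (c (l 16713456) (l 16710776)) (c (l 16716584) (l 16714048))) (b (c (l 16724312) (l 16722096)) (c (l 16727400) (l 16725320))))) (b (a (c (b (l 16701144) (l 16704616)) (b (l 16698088) (l 16701712))) (c (b (l 16713032) (l 16716456)) (b (l 16710456) (l 16714032)))) (a (c (b (l 16708056) (l 16711472)) (b (l 16705304) (l 16708864))) (c (b (l 16719848) (l 16723216)) (b (l 16717568) (l 16721072)))))) (c (a (b (b (c (l 16731712) (l 16729688)) (c (l 16734816) (l 16732920))) (b (c (l 16737232) (l 16735480)) (a (l 16734712) (c (l 16741056) (l 16739552))))) (b (c (a (b (l 16737424) (l 16740496)) (b (l 16743016) (l 16746064))) (a (b (l 16735752) (l 16738960)) (b (l 16741576) (l 16744760)))) (b (a (c (l 16743536) (l 16742136)) (c (l 16749088) (l 16747920))) (a (c (l 16746560) (l 16745288)) (c (l 16752088) (l 16751048))))))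 (a (b (a (b (l 16722216) (l 16725680)) (b (c (l 16728024) (l 16726056)) (c (l 16731384) (l 16729560)))) (a (b (l 16729104) (l 16732504)) (b (c (l 16734720) (l 16733040)) (c (l 16738024) (l 16736480))))) (b (c (a (b (l 16734056) (l 16737400)) (b (l 16740120) (l 16743440))) (a (b (l 16732344) (l 16735824)) (b (l 16738648) (l 16742104)))) (b (a (c (l 16740712) (l 16739272)) (c (l 16746728) (l 16745528))) (c (a (l 16743992) (l 16749992)) (a (l 16742688) (l 16748920)))))))), by decide +kernel⟩

def k87_mm_202_t : ∃ t, chk3 f_mm_202_t t 124 136 3 = true :=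
  ⟨(a (c (b (a (b (c (l 16679568) (l 16675792)) (c (l 16683480) (l 16679864))) (b (c (l 16692648) (l 16689392)) (c (l 16696504) (l 16693400)))) (a (b (c (l 16687352) (l 16683896)) (c (l 16691192) (l 16687896))) (b (c (l 16700320) (l 16697376)) (c (l 16704104) (l 16701312))))) (b (a (b (c (l 16671968) (l 16668088)) (c (l 16676200) (l 16672488))) (b (c (l 16686088) (l 16682736)) (c (l 16690256) (l 16687064)))) (a (b (c (l 16680392) (l 16676848)) (c (l 16684552) (l 16681168))) (b (c (l 16694384) (l 16691360)) (c (l 16698480) (l 16695608)))))) (b (a (c (b (c (l 16708456) (l 16705712)) (c (l 16712248) (l 16709656))) (b (c (l 16702928) (l 16700104)) (c (l 16707032) (l 16704368)))) (c (a (b (c (l 16715784) (l 16713424)) (c (l 16719536) (l 16717328))) (b (c (l 16722448) (l 16720352)) (c (l 16726176) (l 16724224)))) (a (b (c (l 16711040) (l 16708616)) (c (l 16715096) (l 16712824))) (b (c (l 16718224) (l 16716064)) (c (l 16722248) (l 16720248)))))) (a (c (b (c (l 16716008) (l 16713568)) (c (l 16719088) (l 16716792)))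 (a (b (l 16706256) (l 16709064)) (b (c (l 16712016) (l 16709640)) (c (l 16716032) (l 16713808))))) (c (a (b (c (l 16723256) (l 16721200)) (c (l 16726944) (l 16725032))) (b (c (l 16729864) (l 16728064)) (c (l 16733528) (l 16731864)))) (c (a (b (l 16719112) (l 16723096)) (b (l 16726240) (l 16730184))) (a (b (l 16717000) (l 16721136)) (b (l 16724384) (l 16728480)))))))), by decide +kernel⟩

def k88_mm_202_t : ∃ t, chk3 f_mm_202_t t 124 137 3 = true :=
  ⟨(a (c (b (a (b (c (l 16694992) (l 16691856)) (c (l 16698768) (l 16695784))) (b (c (l 16707856) (l 16705216)) (c (l 16711568) (l 16709080)))) (a (b (c (l 16702504) (l 16699672)) (c (l 16706216) (l 16703528))) (b (c (l 16715256) (l 16712912)) (c (l 16718904) (l 16716712))))) (b (a (b (c (l 16688672) (l 16685448)) (c (l 16692760) (l 16689688))) (b (c (l 16702536) (l 16699824)) (c (l 16706552) (l 16704000)))) (a (b (c (l 16696800) (l 16693888)) (c (l 16700808) (l 16698048))) (b (c (l 16710536) (l 16708128)) (c (l 16714480) (l 16712224)))))) (b (a (c (a (b (l 16716432)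 (l 16721496)) (b (c (l 16724072) (l 16722048)) (c (l 16727720) (l 16725848)))) (a (b (l 16713152) (l 16717200)) (b (c (l 16720008) (l 16717936)) (c (l 16723944) (l 16722024))))) (c (b (a (c (l 16730600) (l 16728832)) (c (l 16737152) (l 16735640))) (a (c (l 16734216) (l 16732592)) (c (l 16740744) (l 16739368)))) (b (a (c (l 16727040) (l 16725224)) (c (l 16734096) (l 16732544))) (c (a (l 16730952) (l 16737976)) (a (l 16729280) (l 16736560)))))) (a (c (a (b (c (l 16724880) (l 16722904)) (c (l 16728488) (l 16726656))) (b (c (l 16731328) (l 16729600)) (c (l 16734912) (l 16733320)))) (c (b (a (l 16720904) (l 16727848)) (a (l 16724800) (l 16731712))) (b (a (l 16718872) (l 16726072)) (a (l 16722920) (l 16730080))))) (a (c (b (c (l 16737808) (l 16736320)) (c (l 16741360) (l 16740016))) (b (c (l 16734816) (l 16733296)) (c (l 16738648) (l 16737272)))) (c (c (b (l 16744304) (l 16747832)) (b (l 16743064) (l 16746728))) (b (c (l 16741816) (l 16740544)) (c (l 16745616) (l 16744480)))))))), by decide +kernel⟩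

def k89_mm_202_t : ∃ t, chk3 f_mm_202_t t 250 136 2 = true :=
  ⟨(a (b (c (c (a (b (l 16736256) (l 16739384)) (b (l 16741968) (l 16745080))) (a (b (l 16734512) (l 16737784)) (b (l 16740472) (l 16743720)))) (c (a (b (l 16732744) (l 16736160)) (b (l 16738960) (l 16742344))) (a (b (l 16730960) (l 16734512)) (b (l 16737416) (l 16740944))))) (c (b (a (c (l 16742488) (l 16741024)) (c (l 16748160) (l 16746936))) (a (c (l 16745568) (l 16744240)) (c (l 16751224) (l 16750136)))) (b (a (c (l 16739536) (l 16738032)) (c (l 16745696) (l 16744440))) (a (c (l 16742888) (l 16741520)) (c (l 16749024) (l 16747904)))))) (b (b (c (a (c (l 16749016) (l 16746456)) (c (b (l 16752704) (l 16754240)) (b (l 16751664) (l 16753272)))) (a (c (l 16745192) (l 16745216)) (c (b (l 16750608) (l 16752288)) (b (l 16749544) (l 16751288))))) (c (a (c (l 16752112) (l 16750992)) (c (b (l 16755776) (l 16757304)) (b (l 16754872) (l 16756464)))) (a (c (l 16749864) (l 16748712)) (c (b (l 16753952) (l 16755616)) (b (l 16753024) (l 16754752)))))) (c (b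 (b (a (l 16753736) (c (l 16758824) (l 16758056))) (a (c (l 16754624) (l 16753672)) (a (l 16758528) (l 16761456)))) (b (a (c (l 16756144) (l 16755264)) (a (l 16760072) (l 16762992))) (a (c (l 16757656) (l 16756840)) (a (l 16761608) (l 16764528))))) (b (b (a (l 16751848) (c (l 16757272) (l 16756472))) (a (l 16753376) (a (l 16756968) (l 16760144)))) (b (a (c (l 16754368) (l 16753456)) (a (l 16758648) (l 16761808))) (a (c (l 16756008) (l 16755168)) (a (l 16760312) (l 16763472)))))))), by decide +kernel⟩

def k90_mm_202_t : ∃ t, chk3 f_mm_202_t t 500 137 2 = true :=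
  ⟨(a (b (c (b (c (l 16748624) (l 16747424)) (c (l 16751656) (l 16750584))) (b (c (l 16746208) (l 16744984)) (c (l 16749504) (l 16748408)))) (c (b (c (l 16754656) (l 16753720)) (b (l 16757784) (l 16759304))) (b (c (l 16752768) (l 16751808)) (c (l 16757320) (l 16755176))))) (b (c (b (c (l 16755568) (l 16754608)) (b (l 16757232) (a (l 16756184) (l 16759056)))) (b (c (l 16753632) (l 16751336)) (b (l 16755648) (l 16756984)))) (c (b (c (a (l 16758848) (l 16761656)) (a (l 16758088) (l 16761008))) (c (c (l 16758768) (l 16757824)) (c (l 16757536) (l 16757248)))) (b (c (a (l 16757320) (l 16760352)) (a (l 16756536) (l 16759696))) (c (a (l 16760536) (l 16763560)) (a (l 16759880) (l 16763024))))))), by decide +kernel⟩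

def k91_mm_202_t : ∃ t, chk3 f_mm_202_t t 501 137 2 = true :=
  ⟨(b (a (a (c (c (b (l 16758504) (l 16761496)) (b (l 16757720) (l 16760840))) (c (b (l 16756928) (l 16760176)) (b (l 16756120) (l 16759504)))) (c (b (b (l 16760240) (l 16761768)) (b (l 16763296) (l 16764808))) (b (b (l 16758832) (l 16760488)) (b (l 16762144) (l 16763792))))) (a (c (b (b (l 16763144) (l 16764672)) (b (l 16766184) (l 16765080))) (b (b (l 16761976) (l 16763632)) (c (l 16761064) (l 16760640)))) (b (b (c (l 16766056) (l 16765128)) (c (l 16764952) (l 16766776))) (b (c (l 16766464) (l 16765792)) (c (l 16767648) (l 16767424)))))) (a (b (a (c (b (l 16763448) (l 16764952)) (b (l 16762312) (l 16763944))) (b (c (l 16766320) (l 16765424)) (c (l 16767824) (l 16767056)))) (c (c (b (l 16764144) (l 16765608)) (b (l 16762456) (l 16763984))) (c (b (l 16762080) (l 16763664)) (b (l 16761688) (l 16763336))))) (b (b (a (c (l 16766584) (l 16763304)) (c (c (l 16772200) (l 16771992)) (l 16769048))) (a (c (l 16768080) (l 16764928)) (c (c (l 16768416) (l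 16768272)) (l 16770672)))) (a (b (c (l 16769576) (l 16766544)) (c (l 16771064) (l 16770776))) (b (c (c (l 16769880) (l 16769792)) (l 16772280)) (b (a (l 16772776) (a (l 16776520) (b (l 16777008) (l 16777872)))) (a (l 16773544) (a (c (l 16777752) (l 16777088)) (l 4))))))))), by decide +kernel⟩

def k92_mm_202_t : ∃ t, chk3 f_mm_202_t t 502 272 2 = true :=
  ⟨(a (a (c (c (b (l 16757808) (l 16760864)) (b (l 16756992) (l 16760176))) (c (b (l 16756160) (l 16759480)) (b (l 16755312) (l 16758768)))) (c (b (b (l 16759584) (l 16761144)) (b (l 16762696) (l 16764904))) (b (b (l 16758096) (l 16759792)) (b (l 16761480) (l 16763160))))) (a (c (b (b (l 16763208) (c (l 16764376) (l 16763832))) (c (b (l 16765896) (l 16767408)) (b (l 16765416) (l 16766992)))) (b (b (l 16761320) (l 16763008)) (c (b (l 16764936) (l 16766576)) (b (l 16764448) (l 16766152))))) (b (c (c (b (l 16765768) (l 16767288)) (b (l 16765288) (l 16766864))) (c (b (l 16764792) (l 16766440)) (b (l 16764296) (l 16766016)))) (c (c (c (l 16766352) (l 16766848))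 (c (l 16766688) (l 16766528))) (c (c (l 16763744) (l 16763576)) (c (l 16763416) (l 16763248))))))), by decide +kernel⟩

def k93_mm_202_t : ∃ t, chk3 f_mm_202_t t 502 273 2 = true :=
  ⟨(a (a (c (b (b (l 16762848) (l 16764384)) (c (b (l 16766152) (l 16767648)) (b (l 16765688) (l 16767248)))) (b (b (l 16761648) (l 16763320)) (b (l 16764984) (l 16766640)))) (b (b (c (c (l 16766024) (l 16765552)) (l 16764832)) (c (c (l 16767528) (l 16767120)) (l 16763880))) (b (c (c (l 16769024) (l 16768680)) (l 16765536)) (c (c (l 16770512) (l 16770232)) (l 16767184))))) (b (a (c (c (c (l 16767120) (l 16766960)) (c (l 16766800) (l 16764024))) (c (c (l 16763864) (l 16763696)) (c (l 16763536) (l 16763376)))) (b (c (c (l 16769184) (l 16766336)) (c (l 16771352) (l 16771112))) (c (c (l 16770680) (l 16767888)) (c (l 16767728) (l 16767560))))) (b (a (c (c (l 16769280) (l 16766440)) (l 16768064)) (c (c (l 16772168) (l 16772064)) (c (l 16769336) (l 16769232)))) (a (c (c (l 16770768) (l 16767984)) (l 16769704)) (b (a (l 16772424) (c (c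 (l 16775264) (l 16776544)) (l 16775848))) (a (l 16773872) (a (c (l 16776920) (l 16776896)) (b (l 105998451751) (l 4))))))))), by decide +kernel⟩

def k94_mm_202_t : ∃ t, chk3 f_mm_202_t t 503 272 2 = true :=
  ⟨(a (b (a (b (c (c (l 16768688) (l 16768328)) (c (l 16767960) (l 16767592))) (c (c (l 16770200) (l 16769904)) (c (l 16769608) (l 16769304)))) (b (c (c (l 16768992) (l 16768760)) (c (l 16765896) (l 16765656))) (c (c (l 16770504) (l 16770328)) (c (l 16767536) (l 16767360))))) (b (c (c (a (l 16769088) (l 16772008)) (a (l 16768856) (l 16771896))) (c (a (l 16766000) (l 16771784)) (a (l 16771008) (l 16769056)))) (b (a (b (l 16769736) (l 16770136)) (c (c (a (l 16775016) (l 16775144)) (l 68417479511)) (c (l 63585640359) (l 16772920)))) (a (c (l 16770888) (l 16767960)) (a (l 16773872) (a (c (l 16776808) (l 16776776)) (b (a (l 16777136) (l 16777280)) (l 4)))))))) (b (b (b (a (c (l 16771488) (l 16771224)) (a (c (c (l 16773744) (l 16773704)) (l 16773648)) (a (b (c (l 16777136) (l 16777128)) (l 137673835559)) (l 4))))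 (a (c (l 16772256) (l 16772056)) (a (a (c (l 16776728) (l 16776688)) (b (c (l 16777144) (l 16777136)) (l 149484995543))) (l 4)))) (a (a (c (c (l 16772696) (l 16770000)) (l 16772496)) (a (b (l 16774656) (c (l 16776752) (l 16776720))) (b (c (l 16776744) (l 16776704)) (b (a (l 16777096) (l 16777272)) (l 163980510103))))) (a (a (b (b (c (l 16777152) (l 16777144)) (l 151632479207)) (l 4)) (l 4)) (l 4)))) (a (a (a (b (b (l 16774696) (b (l 16776600) (l 16776952))) (b (b (a (l 16777128) (l 16777280)) (l 183844733831)) (l 4))) (b (b (c (l 16776768) (l 16776728)) (b (a (l 16777120) (l 16777280)) (l 177402282919))) (l 4))) (a (b (b (b (a (l 16777104) (l 16777272)) (l 166664864679)) (l 4)) (l 4)) (l 4))) (l 4)))), by decide +kernel⟩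

def k95_mm_202_t : ∃ t, chk3 f_mm_202_t t 503 273 2 = true :=
  ⟨(a (b (a (a (b (b (l 16771416) (l 16772208)) (c (l 16773464) (l 16772664))) (b (c (l 16773432) (l 16772624)) (a (b (l 16773496) (b (l 16776712) (l 16777032))) (b (c (l 16776856) (l 16776824)) (c (a (l 79691777095) (l 4)) (l 106535322855)))))) (a (b (a (b (l 16773464) (b (l 16776672) (l 16777000))) (b (c (l 16776824) (l 16776792)) (a (b (l 16777152) (l 4)) (l 4)))) (a (a (b (b (l 16777160) (l 4)) (l 4)) (l 4)) (l 4))) (a (a (b (b (b (l 16777144) (l 4)) (l 4)) (l 4)) (l 4)) (l 4)))) (a (a (b (a (b (l 16773536) (b (l 16776744) (l 16777056))) (b (c (l 16776880) (l 16776848)) (b (l 85597357239) (l 4)))) (a (b (b (l 89892324535) (l 4)) (l 4)) (l 4))) (a (a (b (b (b (l 16777184) (l 4)) (l 4)) (l 4)) (l 4)) (l 4))) (l 4))) (l 4)), by decide +kernel⟩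

def k96_mm_202_t : ∃ t, chk3 f_mm_202_t t 502 274 2 = true :=
  ⟨(a (b (b (a (c (c (l 16769136) (l 16768800)) (l 16765664)) (c (c (l 16766760) (l 16771784)) (l 16768832))) (a (c (c (l 16770624) (l 16770344)) (l 16767304)) (c (c (l 16770856) (l 16768080)) (l 16770464)))) (a (b (c (c (l 16766856) (l 16771888)) (l 16768936)) (c (c (l 16768328) (l 16768176)) (l 16770568))) (b (c (c (l 16772328) (l 16769616)) (l 16772088)) (b (a (l 16772600) (a (l 16773736) (b (l 16776896) (l 16777800)))) (a (l 16773376) (a (c (l 16777016) (l 16777000)) (c (l 161296155687) (l 163443639335)))))))) (b (a (c (b (c (l 16772248) (l 16769528)) (a (l 16772968) (a (b (l 16776312) (l 16776968)) (b (l 16776960) (l 142505673815))))) (b (l 16771344) (a (l 16772840) (b (l 16776240) (a (l 16776944) (l 138747577495)))))) (b (a (a (b (l 16773616) (b (l 16776816) (l 16777096))) (b (c (l 16776928) (l 16776904)) (c (l 131768255623) (l 126399546583)))) (a (b (b (l 108682806327) (l 4)) (l 4)) (l 4))) (b (b (c (l 253637951367) (l 256322306583)) (l 4))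 (l 4)))) (a (b (a (a (b (l 16773696) (c (l 16776992) (l 16776976))) (b (c (l 16776984) (l 16776960)) (c (l 148411253863) (l 150021866599)))) (a (b (b (l 137673835447) (l 4)) (l 4)) (l 4))) (a (b (c (l 245584888167) (l 171496703383)) (l 4)) (l 4))) (l 4)))), by decide +kernel⟩

def k97_mm_202_t : ∃ t, chk3 f_mm_202_t t 502 275 2 = true :=
  ⟨(a (b (b (a (c (c (l 16769792) (l 16769704)) (l 16772184)) (b (a (a (l 16773776) (c (l 16777032) (l 16777016))) (c (l 256859177335) (l 187602830679))) (a (a (c (l 16777040) (l 16777024)) (c (l 175254799335) (l 184918475735))) (l 4)))) (b (a (a (l 16772688) (a (l 16773816) (b (l 16776952) (l 16777840)))) (c (l 266522854039) (l 270280950423))) (a (a (l 16773464) (a (c (l 16777720) (l 16777048)) (c (l 191360926663) (l 194045281223)))) (l 4)))) (a (a (b (a (b (l 16776480) (b (l 16777000) (l 16777864))) (b (b (l 16776984) (l 16777856)) (l 4))) (l 4)) (l 4)) (l 4))) (l 4)), by decide +kernel⟩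

def k98_mm_202_t : ∃ t, chk3 f_mm_202_t t 503 137 2 = true :=
  ⟨(l 4), by decide +kernel⟩

def k99_mm_202_t : ∃ t, chk3 f_mm_202_t t 250 136 6 = true :=
  ⟨(b (a (c (a (b (l 16729144) (l 16732840)) (b (l 16735856) (l 16739528))) (a (b (l 16727304) (l 16731144)) (b (l 16734280) (l 16738088)))) (c (a (b (l 16743912) (b (l 16745336) (l 16747144))) (c (b (l 16749632) (l 16753208)) (b (l 16749104) (l 16752752)))) (a (b (l 16742592) (b (l 16744120) (l 16746000))) (b (b (l 16747360) (l 16749248)) (a (l 16750304) (l 16753816)))))) (a (b (a (c (l 16736504) (l 16734952)) (c (l 16743160) (l 16741872))) (a (c (l 16740136) (l 16738728)) (c (l 16748080) (l 16746928)))) (b (a (c (b (l 16748952) (l 16750744)) (b (l 16747880) (l 16749744))) (a (b (l 16753552) (l 16755368)) (b (l 16756976) (l 16758792)))) (b (a (c (l 16752536) (l 16751600)) (a (l 16757176) (l 16760592))) (a (c (l 16754312) (l 16753448)) (c (l 16755744) (l 16755136))))))), by decide +kernel⟩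

def k100_mm_202_t : ∃ t, chk3 f_mm_202_t t 250 137 6 = true :=
  ⟨(a (b (b (a (c (l 16743736) (l 16742464)) (c (b (l 16749448) (l 16751224)) (b (l 16748400) (l 16750248)))) (a (c (l 16747296) (l 16746168)) (c (a (l 16752224) (l 16755520)) (a (l 16751288) (l 16754704))))) (c (a (b (l 16752136) (a (l 16752704) (l 16755952))) (b (a (l 16755736) (l 16759016)) (a (l 16759216) (l 16762480)))) (a (b (l 16749840) (a (l 16751784) (l 16755160))) (b (a (l 16754936) (l 16758336)) (c (l 16755152) (l 16754840)))))) (b (a (b (c (a (l 16755304) (l 16758632)) (a (l 16754480) (l 16757928))) (c (c (l 16755392) (l 16755080)) (c (l 16754760) (l 16754448)))) (b (c (b (l 16757504) (l 16759256)) (b (l 16756960) (l 16758776))) (c (b (l 16760992) (l 16762728)) (b (l 16760584) (l 16762384))))) (b (a (c (b (l 16757848) (l 16759576)) (b (l 16757312) (l 16759112))) (b (c (l 16764448) (l 16764168)) (c (l 16766168) (l 16765952)))) (a (c (b (l 16761296) (l 16763008)) (b (l 16760896) (l 16762672))) (a (c (l 16768392) (l 16768208)) (b (c (l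 16769520) (l 16769432)) (a (l 16772984) (b (c (l 16776728) (l 16776712)) (a (a (l 16777000) (l 16777792)) (l 4)))))))))), by decide +kernel⟩

def k101_mm_202_t : ∃ t, chk3 f_mm_202_t t 250 136 7 = true :=
  ⟨(b (a (b (a (c (l 16725440) (l 16723544)) (c (l 16732672) (l 16731048))) (a (c (l 16729432) (l 16727688)) (c (l 16736632) (l 16735160)))) (c (a (b (b (l 16738952) (l 16740928)) (b (l 16742888) (l 16744848))) (b (b (l 16746248) (l 16748208)) (a (l 16749312) (l 16752944)))) (a (b (b (l 16737560) (l 16739608)) (b (l 16741640) (l 16743672))) (b (b (l 16745120) (l 16747152)) (a (l 16748296) (l 16752064)))))) (a (b (a (c (l 16733384) (l 16731792)) (b (l 16740216) (l 16742200))) (a (c (l 16737304) (l 16735856)) (c (b (l 16743480) (l 16745408)) (b (l 16742256) (l 16744264))))) (a (b (c (b (l 16746792) (l 16748728)) (b (l 16745688) (l 16747696))) (c (a (l 16749816) (l 16753408)) (a (l 16748832) (l 16752552)))) (b (a (b (l 16751760) (l 16753720)) (b (l 16755448) (l 16757400))) (c (b (l 16752616) (l 16754512)) (b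 (l 16751912) (l 16753888))))))), by decide +kernel⟩

def k102_mm_202_t : ∃ t, chk3 f_mm_202_t t 250 137 7 = true :=
  ⟨(a (b (c (a (b (l 16741184) (l 16745024)) (b (b (l 16747336) (l 16749248)) (a (l 16750336) (l 16753880)))) (a (b (l 16739888) (l 16744856)) (b (b (l 16746256) (l 16748248)) (a (l 16749368) (l 16753040))))) (b (a (b (c (l 16747888) (l 16746832)) (c (l 16749784) (l 16748800))) (c (a (l 16754120) (l 16757648)) (c (l 16750064) (l 16749680)))) (a (c (a (l 16750856) (l 16754352)) (a (l 16749912) (l 16753536))) (c (c (l 16754528) (l 16754216)) (c (l 16753904) (l 16752280)))))) (b (b (b (a (a (l 16752248) (l 16755896)) (a (l 16759544) (l 16757960))) (a (a (l 16754192) (l 16757824)) (a (l 16761464) (l 16762496)))) (b (a (a (l 16756120) (l 16759744)) (a (l 16758136) (l 16763088))) (a (c (l 16754904) (l 16754296)) (a (l 16760040) (l 16764976))))) (a (b (c (b (l 16756776) (l 16758640)) (b (l 16756232) (l 16758160))) (c (b (l 16760496) (l 16762336)) (b (l 16760080) (l 16761992)))) (b (b (c (l 16763888)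 (c (l 16763672) (l 16763520))) (a (l 16765120) (c (l 16767504) (l 16767344)))) (b (a (l 16767000) (c (l 16769336) (l 16769248))) (a (l 16769520) (a (l 16772872) (a (b (l 16776376) (c (l 16777064) (l 125325803239))) (b (a (l 16776968) (l 79691777127)) (l 4)))))))))), by decide +kernel⟩

def k103_mm_202_t : ∃ t, chk3 f_mm_202_t t 502 272 3 = true :=
  ⟨(c (b (b (a (c (l 16755256) (l 16754424)) (c (a (l 16760376) (l 16763792)) (a (l 16759736) (l 16763280)))) (a (c (l 16757056) (l 16756296)) (c (a (l 16762168) (l 16765576)) (c (l 16758248) (l 16757992))))) (a (c (a (l 16758704) (b (l 16760552) (l 16762328))) (b (l 16752912) (l 16754768))) (c (b (c (l 16760512) (l 16760296)) (c (l 16762272) (l 16762088))) (b (c (l 16760080) (l 16759856)) (c (l 16761896) (l 16761712)))))) (a (a (b (b (l 16751280) (l 16753264)) (b (l 16755232) (l 16757192))) (b (b (l 16755016) (l 16754368)) (b (l 16755016) (c (l 16761192) (l 16760616))))) (a (b (c (b (l 16759080) (l 16761016)) (b (l 16758424) (l 16760424))) (c (b (l 16762936) (l 16764848))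 (c (l 16758288) (l 16758048)))) (c (b (c (l 16758608) (l 16758360)) (c (l 16762400) (l 16762224))) (b (c (l 16758120) (l 16757872)) (c (l 16762048) (l 16762528))))))), by decide +kernel⟩

def k104_mm_202_t : ∃ t, chk3 f_mm_202_t t 1006 272 3 = true :=
  ⟨(b (a (b (c (c (l 16767216) (l 16766840)) (c (l 16766456) (l 16766064))) (c (c (l 16768992) (l 16768680)) (c (l 16763128) (l 16762808)))) (b (c (c (l 16765408) (l 16765160)) (c (l 16764904) (l 16767272))) (c (c (l 16767176) (l 16766992)) (c (l 16766808) (l 16769248))))) (a (b (c (c (l 16765520) (l 16765280)) (c (l 16765032) (l 16764776))) (c (c (l 16767280) (l 16767104)) (c (l 16766920) (l 16766744)))) (b (b (c (l 16771056) (l 16770792)) (c (l 16771952) (a (l 16773440) (l 16770064)))) (b (c (c (l 16772856) (l 61438155991)) (a (l 16769152) (c (l 16773632) (l 77007416183)))) (b (a (l 16773880) (a (l 16773920) (a (b (l 16777072) (l 16777200)) (l 194045280887)))) (a (l 16774344) (a (c (l 16776944) (l 16776928)) (l 4)))))))), by decide +kernel⟩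

def k105_mm_202_t : ∃ t, chk3 f_mm_202_t t 1007 272 3 = true :=
  ⟨(a (b (c (b (c (l 16771464) (l 16768728)) (b (c (l 16772776) (l 16772712)) (a (l 16772776) (a (l 88818578135) (a (b (l 16777080) (l 16777272)) (l 159148671895)))))) (b (b (l 16770680) (l 16771648)) (a (c (l 16769584) (l 16769496)) (b (c (l 16773552) (l 16774176)) (b (a (l 16776432) (a (l 16777064) (l 16777264))) (a (l 16776864) (l 176865411831))))))) (a (b (b (b (l 16774392) (c (l 16775176) (l 16775120))) (a (c (l 93113545495) (c (l 16776680) (l 16774040))) (a (c (c (l 16777168) (l 16777168)) (c (l 16777488) (l 73786195527))) (c (l 181697250135) (l 185455346503))))) (b (b (a (a (b (l 16777056) (l 16777192)) (l 189750313591)) (l 4)) (c (l 217667601287) (l 281018368327))) (l 4))) (a (b (b (a (c (c (l 16777160) (l 16777160)) (c (l 16777480) (l 71638711863))) (c (l 167201735543) (l 169886090103))) (l 4)) (l 4)) (l 4)))) (b (b (b (a (c (c (l 16770976) (l 16770936)) (c (l 16773520) (l 16773480))) (a (b (c (a (l 16777040) (l 16777256)) (a (l 16777024)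 (l 16777248))) (c (l 148411253543) (l 151632479015))) (l 4))) (a (a (c (l 84523610775) (l 83449868695)) (b (c (c (l 16777128) (l 16777128)) (c (l 16777120) (l 61438163159))) (c (l 161833026279) (l 164517380839)))) (l 4))) (a (a (b (b (c (c (l 16777144) (l 16777136)) (c (l 16777128) (l 63048778535))) (c (l 177402282647) (l 180623508119))) (l 4)) (l 4)) (l 4))) (l 4))), by decide +kernel⟩

def k106_mm_202_t : ∃ t, chk3 f_mm_202_t t 502 273 3 = true :=
  ⟨(b (a (b (c (c (a (l 16760728) (l 16764104)) (l 16756608)) (a (l 16753904) (c (l 16763104) (l 16762592)))) (c (c (a (l 16762496) (l 16765864)) (l 16758448)) (a (l 16758472) (a (l 16763864) (l 16765712))))) (a (c (c (c (l 16763208) (l 16763040)) (c (l 16762872) (l 16762704))) (c (c (l 16762536) (l 16762368)) (c (l 16762192) (l 16762024)))) (b (c (c (l 16765632) (l 16765400)) (c (l 16765152) (l 16764904))) (c (c (l 16767384) (l 16767216)) (c (l 16767040) (l 16766864)))))) (b (a (c (c (c (l 16760800) (l 16760592)) (l 16760272)) (a (l 16759096) (c (l 16766896) (l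 16766520)))) (a (c (c (l 16765752) (l 16765520)) (c (l 16765280) (l 16765040))) (c (c (l 16769128) (l 16769024)) (c (l 16768912) (l 16768800))))) (a (c (c (c (l 16762536) (l 16762360)) (l 16762088)) (a (l 16761016) (a (l 16767704) (l 16766928)))) (a (c (c (l 16767496) (l 16767328)) (c (l 16767152) (l 16766984))) (a (c (l 16772608) (l 16772456)) (a (c (c (l 92576673127) (l 91502931239)) (b (l 16770744) (c (l 16776848) (l 16776832)))) (b (b (l 16775376) (c (l 16777040) (l 16777024))) (b (c (l 96871646151) (l 100092871623)) (l 4))))))))), by decide +kernel⟩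

def k107_mm_202_t : ∃ t, chk3 f_mm_202_t t 503 273 3 = true :=
  ⟨(a (b (a (b (c (c (l 16769032) (l 16768920)) (b (l 16770896) (l 16771856))) (b (c (a (l 16769448) (c (l 16773768) (l 16773736))) (a (l 16769256) (c (l 16774360) (l 83449867271)))) (b (a (l 16772664) (a (l 16775320) (c (l 78618035175) (l 75396808455)))) (a (l 16773120) (a (c (l 16777000) (l 16776984)) (l 4)))))) (a (a (b (c (c (l 16775056) (l 16774696)) (b (l 16770608) (c (l 16776744) (l 16775416)))) (a (b (b (b (l 16777112) (l 16777224)) (l 4)) (l 4)) (l 4))) (b (b (b (l 16773944) (c (l 16776960) (l 16776944))) (b (c (l 66806873847) (a (l 16777136) (l 4))) (l 4))) (l 4))) (a (a (b (b (b (b (l 16777088) (l 16777208)) (l 4)) (l 4)) (l 4)) (l 4)) (l 4)))) (a (b (b (a (c (c (l 16773808) (l 16773776)) (c (l 16774728) (l 86134221911))) (a (b (c (l 80228647927) (l 86134227943)) (l 4)) (l 4))) (a (a (b (l 16775360) (c (l 16777032) (l 16777016))) (b (c (l 102240355159) (l 87207969783)) (l 4))) (l 4))) (a (a (b (b (c (l 94724162487) (l 98482258871)) (l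 4)) (l 4)) (l 4)) (l 4))) (l 4))) (l 4)), by decide +kernel⟩

def k108_mm_202_t : ∃ t, chk3 f_mm_202_t t 1004 274 3 = true :=
  ⟨(b (a (c (c (c (l 16768712) (l 16763312)) (c (l 16763144) (l 16762984))) (c (c (l 16762824) (l 16762656)) (c (l 16762488) (l 16762320)))) (b (c (b (l 16765312) (l 16766200)) (c (l 16765408) (l 16765168))) (c (c (l 16767600) (l 16767440)) (c (l 16767272) (l 16767104))))) (b (c (c (c (l 16767696) (l 16767616)) (c (l 16767536) (l 16767456))) (c (a (l 16765536) (l 16769120)) (a (l 16765304) (l 16769024)))) (a (c (c (l 16767712) (l 16767552)) (c (l 16767384) (l 16767224))) (c (a (l 16772792) (b (c (l 16776600) (l 16775264)) (a (a (l 16776872) (l 59827553255)) (l 167201735703)))) (a (l 16772664) (b (a (l 16776184) (a (l 16776832) (l 63048777367))) (a (a (l 16776848) (l 64659390135)) (l 170422961175)))))))), by decide +kernel⟩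

def k109_mm_202_t : ∃ t, chk3 f_mm_202_t t 1005 274 3 = true :=
  ⟨(b (b (b (a (c (l 16771352) (l 16768488)) (a (c (c (l 16773872) (l 16773848)) (c (l 93113543975) (b (l 16770992) (l 103314092439)))) (a (b (c (l 108145935239) (l 101703484375)) (l 4)) (l 4)))) (a (c (l 16772232) (l 16769440)) (a (a (b (l 74859934887) (c (l 16777080) (l 16777064))) (a (c (l 108145935415) (l 111367160887)) (l 4))) (l 4)))) (a (a (c (l 16772696) (l 16772560)) (a (c (c (l 99019124535) (l 97945382327)) (b (l 16770840) (c (l 16776904) (l 16776896)))) (b (b (l 78081160407) (c (l 16777080) (l 16777072))) (a (c (l 121030837255) (l 134452609959)) (l 4))))) (a (a (a (b (c (l 127473288103) (l 113514644551)) (l 4)) (l 4)) (l 4)) (l 4)))) (a (a (a (b (c (c (l 102240350071) (l 101166607879)) (b (l 16770888) (c (l 16776936) (l 16776928)))) (b (c (l 155927446631) (l 158611801191)) (l 4))) (b (b (c (c (l 16776944) (l 16776936)) (c (l 16776920) (l 16776912))) (c (l 161296155655) (c (l 158074930103) (l 159685542839)))) (l 4))) (b (b (c (c (l 172570445015)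 (l 173644186839)) (l 251490468167)) (l 4)) (l 4))) (l 4))), by decide +kernel⟩

def k110_mm_202_t : ∃ t, chk3 f_mm_202_t t 502 275 3 = true :=
  ⟨(a (b (a (b (c (c (l 16769424) (l 16769328)) (c (l 16769232) (l 16769136))) (c (a (l 16772888) (b (c (l 16776664) (l 16776640)) (a (a (l 16776944) (l 68417487927)) (l 196729635783)))) (a (l 16772768) (a (b (l 16776280) (c (l 16777024) (l 101703483015))) (b (a (l 16776904) (l 71101842455)) (l 201024603063)))))) (a (b (c (b (c (l 16776632) (l 16775952)) (a (c (l 16777008) (l 16777000)) (l 187602830295))) (a (b (l 16776232) (a (l 16776880) (l 68954358791))) (b (a (l 16776864) (l 67343743399)) (l 189750313943)))) (b (c (l 269744079239) (l 274039046519)) (l 4))) (a (b (b (c (l 175791670311) (l 172570444839)) (l 4)) (l 4)) (l 4)))) (a (a (b (b (b (c (l 16773936) (l 16771264)) (a (l 16773960) (c (l 16777192) (l 16777184)))) (a (c (c (l 16777048) (l 16777040)) (c (l 16777032) (l 113514643127))) (l 4))) (l 4)) (l 4)) (l 4))) (l 4)), by decide +kernel⟩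

def k111_mm_202_t : ∃ t, chk3 f_mm_202_t t 503 137 3 = true :=
  ⟨(l 4), by decide +kernel⟩

def k112_mm_202_t : ∃ t, chk3 f_mm_202_t t 124 138 2 = true :=
  ⟨(a (c (b (a (b (c (l 16719688) (l 16717288)) (c (l 16722768) (l 16720504))) (b (c (l 16730464) (l 16728520)) (c (l 16733504) (l 16731696)))) (a (b (c (l 16725824) (l 16723696)) (c (l 16728848) (l 16726856))) (b (c (l 16736520) (l 16734840)) (c (l 16742128) (l 16740576))))) (b (a (c (b (l 16714856) (l 16718208)) (b (l 16712392) (l 16715888))) (b (c (l 16726552) (l 16724552)) (c (l 16729856) (l 16728000)))) (a (c (b (l 16721536) (l 16724832)) (b (l 16719352) (l 16722784))) (b (c (l 16733136) (l 16731408)) (c (l 16739008) (l 16737416)))))) (a (a (b (c (b (l 16739120) (l 16742200)) (b (l 16735872) (l 16739216))) (c (b (c (l 16744600) (l 16743264)) (c (l 16747560) (l 16746344))) (b (l 16742520) (c (l 16745112) (l 16743864))))) (c (b (b (c (l 16744072) (l 16742696)) (c (l 16747056) (l 16745816))) (c (b (l 16750024) (l 16752960)) (b (l 16748904) (l 16751968))))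 (b (b (c (l 16741304) (l 16739896)) (c (l 16744552) (l 16743272))) (c (b (l 16747776) (l 16750968)) (b (l 16746624) (l 16749944)))))) (a (b (c (b (c (l 16749552) (l 16748408)) (c (l 16752520) (l 16751504))) (c (b (l 16747248) (l 16750472)) (b (l 16746072) (l 16749432)))) (c (b (c (l 16755464) (l 16754576)) (c (l 16758384) (l 16757616))) (b (c (l 16753672) (l 16752752)) (c (l 16756840) (l 16756048))))) (b (c (b (c (l 16755064) (l 16754144)) (c (l 16759320) (l 16757224))) (b (c (l 16753216) (l 16752280)) (c (l 16756424) (l 16755608)))) (c (b (b (l 16761168) (a (l 16759952) (l 16762744))) (c (a (l 16762472) (l 16765200)) (a (l 16761872) (l 16764712)))) (b (c (l 16754352) (l 16753664)) (c (l 16757496) (l 16756936)))))))), by decide +kernel⟩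

def k113_mm_202_t : ∃ t, chk3 f_mm_202_t t 248 139 2 = true :=
  ⟨(c (a (b (b (c (l 16731848) (l 16729992)) (c (l 16734832) (l 16733096))) (b (c (l 16737784) (l 16736176)) (c (l 16740712) (l 16739232)))) (a (b (b (l 16739040) (l 16742056)) (b (l 16745040) (l 16749312))) (b (b (l 16745800) (l 16748792)) (c (b (l 16750976) (l 16753848)) (b (l 16749912) (l 16752912)))))) (b (b (a (c (l 16728104) (l 16726184)) (c (l 16742232) (l 16740768))) (a (c (l 16731344) (l 16729560)) (a (l 16739208) (l 16746384)))) (a (b (c (l 16734552) (l 16732904)) (c (l 16737736) (l 16736208))) (a (b (l 16742448) (l 16745656)) (b (l 16749600) (a (l 16750016) (l 16752928))))))), by decide +kernel⟩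

def k114_mm_202_t : ∃ t, chk3 f_mm_202_t t 249 139 2 = true :=
  ⟨(b (a (a (c (c (b (l 16750496) (l 16753408)) (b (l 16749408) (l 16752440))) (c (b (l 16748304) (l 16751456)) (b (l 16747176) (l 16750464)))) (c (b (c (l 16755880) (l 16755008)) (c (l 16758768) (l 16758016))) (b (c (l 16754128) (l 16753232)) (c (l 16757256) (l 16756488))))) (b (a (b (c (l 16760224) (l 16758848)) (c (l 16756448) (l 16760440))) (c (c (c (l 16761576) (l 16761360)) (c (l 16761152) (l 16760936))) (c (l 16760608) (l 16760168)))) (a (b (c (l 16757912) (l 16762024)) (c (l 16759376) (l 16758360))) (b (c (c (l 16763608) (l 16763272)) (l 16762752)) (c (c (l 16765024) (l 16764744)) (l 16764320)))))) (b (b (a (a (c (l 16755136) (l 16753360)) (c (l 16760592) (l 16759256))) (a (c (l 16760824) (l 16759928)) (c (c (l 16766440) (l 16766216)) (l 16765872)))) (a (a (c (l 16756600) (l 16754944)) (c (l 16762048) (l 16760824))) (a (c (l 16763584) (l 16761496)) (c (c (l 16767848) (l 16767680)) (l 16767424))))) (a (a (c (c (l 16759152) (l 16758424))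 (c (l 16757680) (l 16756936))) (c (c (l 16759232) (l 16758712)) (c (l 16758192) (l 16762912)))) (b (a (c (l 16764368) (l 16763048)) (a (b (l 16767280) (l 16768024)) (b (l 16772760) (c (l 83449865927) (l 16773400))))) (a (c (l 16765800) (l 16764600)) (b (a (l 16768768) (a (l 16776144) (a (l 16777728) (l 184381605095)))) (a (l 16769504) (a (a (l 16776528) (l 16777728)) (l 4))))))))), by decide +kernel⟩

def k115_mm_202_t : ∃ t, chk3 f_mm_202_t t 248 69 3 = true :=
  ⟨(b (c (b (a (b (c (l 16709888) (l 16707352)) (c (l 16713528) (l 16711136))) (b (c (l 16722528) (l 16720472)) (c (l 16726112) (l 16724192)))) (a (b (c (l 16717136) (l 16714888)) (c (l 16720704) (l 16718600))) (c (b (l 16732280) (l 16735144)) (b (l 16730504) (l 16733504))))) (b (a (b (c (l 16704776) (l 16702176)) (c (l 16708712) (l 16706256))) (b (c (l 16718384) (l 16718896)) (c (l 16724880) (l 16722912)))) (b (a (c (l 16712608) (l 16710296)) (c (l 16728056) (a (l 16720760) (l 16727776)))) (a (c (l 16716464) (l 16714296)) (a (l 16725616) (c (l 16733248)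 (l 16731688))))))) (c (a (b (b (c (l 16724248) (l 16722280)) (c (l 16727752) (l 16725920))) (c (b (l 16731224) (l 16734672)) (b (l 16729528) (l 16733104)))) (a (b (b (l 16732744) (l 16736272)) (c (a (l 16740616) (l 16743688)) (a (l 16739272) (l 16742464)))) (b (c (b (l 16739784) (l 16743224)) (b (l 16738400) (l 16741968))) (c (b (l 16746624) (l 16750000)) (b (l 16745504) (l 16749000)))))) (a (b (b (c (l 16720280) (l 16718264)) (c (l 16724064) (l 16722184))) (b (a (l 16723592) (l 16730296)) (a (l 16727384) (l 16734056)))) (a (b (b (l 16729464) (l 16734576)) (c (b (l 16737720) (l 16741384)) (b (l 16736336) (l 16740128)))) (b (c (b (l 16736992) (l 16740696)) (b (l 16735568) (l 16739408))) (b (c (l 16744360) (l 16743208)) (c (l 16747992) (l 16746968)))))))), by decide +kernel⟩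

def k116_mm_202_t : ∃ t, chk3 f_mm_202_t t 498 69 3 = true :=
  ⟨(a (b (c (b (b (c (l 16732072) (l 16730376)) (c (l 16735608) (l 16734056))) (b (c (l 16739120) (l 16737704)) (c (l 16742600) (l 16741312)))) (b (b (c (l 16728656) (l 16726920)) (c (l 16732480) (l 16730888))) (b (c (l 16736264) (l 16734808)) (c (l 16740008) (l 16738696))))) (b (c (c (b (l 16746040) (l 16749456)) (b (l 16744888) (l 16748432))) (b (c (l 16743720) (l 16742536)) (c (l 16747392) (l 16746344)))) (b (c (c (l 16752832) (l 16751936)) (b (l 16749648) (l 16751488))) (c (c (l 16756176) (l 16755408)) (b (l 16753320) (l 16755144)))))) (b (c (b (b (c (l 16738464) (l 16737008)) (c (l 16741976) (l 16740664))) (c (b (l 16745456) (l 16748912)) (b (l 16744280) (l 16747864)))) (b (b (c (l 16735544) (l 16734048)) (c (l 16739328) (l 16737976))) (b (c (l 16743080) (l 16741872)) (c (l 16746800) (l 16745720))))) (b (b (b (c (l 16751000) (l 16749072)) (c (l 16752736) (l 16750936))) (b (c (l 16754456) (l 16752792)) (c (l 16756168) (l 16754632)))) (b (c (b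 (l 16757880) (l 16754336)) (c (l 16752480) (l 16751792))) (c (c (l 16757136) (l 16756592)) (c (l 16756040) (l 16755488))))))), by decide +kernel⟩

def k117_mm_202_t : ∃ t, chk3 f_mm_202_t t 499 69 3 = true :=
  ⟨(a (b (b (c (c (b (l 16744880) (l 16748368)) (b (l 16743672) (l 16747296))) (b (c (l 16742448) (l 16741208)) (c (l 16746208) (l 16745104)))) (c (b (c (l 16751824) (l 16750880)) (b (l 16753968) (l 16750464))) (b (c (l 16749928) (l 16748960)) (c (l 16748368) (l 16747528))))) (b (c (c (b (l 16753392) (l 16756744)) (b (l 16752704) (l 16756184))) (b (c (l 16752008) (l 16751304)) (b (l 16754416) (l 16756248)))) (b (c (c (l 16760072) (l 16759632)) (b (l 16758064) (l 16759872))) (c (c (l 16763360) (l 16763048)) (b (l 16761672) (l 16763456)))))) (b (b (c (b (c (l 16751328) (l 16750360)) (c (a (l 16753176) (l 16756392)) (l 16748704))) (b (b (l 16747928) (l 16744592)) (b (l 16746488) (l 16748376)))) (c (b (c (a (l 16756616) (l 16759816)) (l 16752264)) (c (a (l 16760016) (l 16763200)) (l 16755784))) (b (b (l 16750256)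 (l 16752120)) (b (l 16753328) (a (l 16759336) (l 16762816)))))) (b (b (c (c (c (l 16754592) (l 16759616)) (l 16759272)) (c (c (l 16758928) (l 16758704)) (c (l 16758472) (l 16758240)))) (c (c (b (l 16756984) (l 16763880)) (l 16762072)) (c (b (l 16756264) (l 16763280)) (b (l 16761136) (l 16762976))))) (b (c (b (c (l 16765528) (l 16760048)) (c (l 16767168) (l 16761752))) (a (c (l 16764248) (l 16763976)) (c (l 16767624) (l 16767472)))) (a (c (c (l 16768048) (l 16767904)) (c (l 16767760) (l 16767608))) (b (c (c (l 16772936) (l 73249315719)) (b (l 16764536) (c (l 16773240) (l 78618026455)))) (a (c (c (l 16776360) (l 16773704)) (c (l 16774328) (l 92039800807))) (b (a (c (l 16777048) (l 16777032)) (b (l 189750313815) (l 4))) (l 4))))))))), by decide +kernel⟩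

def k118_mm_202_t : ∃ t, chk3 f_mm_202_t t 500 138 2 = true :=
  ⟨(b (a (c (b (c (a (l 16759208) (l 16761976)) (a (l 16758464) (l 16761352))) (c (a (l 16762144) (l 16764904)) (a (l 16761520) (l 16764400)))) (b (b (l 16759360) (a (l 16758144) (l 16761208))) (c (a (l 16760896) (l 16763888)) (a (l 16760256) (l 16763368))))) (a (c (b (b (l 16763752) (l 16765248)) (c (l 16762432) (l 16767280))) (b (b (l 16762648) (l 16764272)) (b (l 16765880) (l 16767480)))) (b (c (c (l 16764920) (l 16761896)) (b (l 16765728) (l 16767344))) (c (c (l 16767824) (l 16764928)) (c (l 16764648) (l 16764360)))))) (a (b (c (c (c (l 16761296) (l 16761072)) (c (l 16760856) (l 16760632))) (c (c (l 16760408) (l 16760184)) (c (l 16759960) (l 16759728)))) (c (c (b (l 16763344) (l 16764784)) (b (l 16762992) (l 16764488))) (c (b (l 16762640) (l 16764192)) (c (l 16763168) (l 16763000))))) (b (c (a (c (l 16767944) (l 16765048)) (c (l 16769392) (l 16770544))) (a (c (l 16764768) (l 16764496)) (c (l 16767760) (l 16767600)))) (a (c (c (l 16769496) (l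 16768032)) (c (l 16767872) (l 16767712))) (b (c (b (l 16769832) (l 16773160)) (l 58216929751)) (a (c (l 72712448103) (l 16773456)) (b (a (l 16776816) (a (l 16777856) (l 179012895831))) (c (c (l 127473288551) (l 128010159463)) (l 119957096103))))))))), by decide +kernel⟩

def k119_mm_202_t : ∃ t, chk3 f_mm_202_t t 500 138 3 = true :=
  ⟨(b (a (c (b (c (a (l 16756176) (l 16759416)) (a (l 16755392) (l 16758752))) (c (a (l 16759616) (l 16762840)) (a (l 16758960) (l 16762304)))) (b (c (a (l 16754592) (l 16758080)) (a (l 16753784) (l 16757400))) (c (c (l 16754936) (l 16754632)) (c (l 16754328) (l 16754024))))) (b (c (c (c (l 16759160) (l 16758928)) (c (l 16758680) (l 16758440))) (c (b (l 16757152) (l 16758992)) (b (l 16756624) (l 16758536)))) (c (c (b (l 16761600) (l 16763296)) (b (l 16761216) (l 16762976))) (c (b (l 16760824) (l 16762648)) (b (l 16760432) (l 16762320)))))) (a (b (c (c (c (l 16759496) (l 16759264)) (c (l 16759032) (l 16758800))) (c (c (l 16758560) (l 16758328)) (b (l 16757024) (l 16758904)))) (c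 (c (b (l 16761912) (l 16763584)) (b (l 16761536) (l 16763280))) (c (b (l 16761160) (l 16762960)) (b (l 16760784) (l 16762648))))) (a (c (b (c (l 16764208) (l 16763920)) (c (l 16767552) (l 16767392))) (b (c (l 16763632) (l 16763336)) (c (l 16767224) (l 16768368)))) (b (b (c (l 16769120) (l 16766096)) (c (l 16770824) (l 16767928))) (b (c (c (l 16769920) (l 16769848)) (b (l 16769296) (l 16772808))) (a (b (l 16773568) (c (l 16771160) (l 16771096))) (a (b (c (l 16776768) (l 16776736)) (c (l 90429195607) (l 91502936151))) (b (b (a (l 16777128) (l 191360926327)) (l 4)) (l 4))))))))), by decide +kernel⟩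

def k120_mm_202_t : ∃ t, chk3 f_mm_202_t t 2004 138 1 = true :=
  ⟨(b (b (b (c (b (l 16766120) (l 16766896)) (c (l 16762912) (l 16762248))) (c (c (l 16768312) (l 16765176)) (c (l 16767272) (l 16764104)))) (b (c (b (l 16769208) (l 16769976)) (c (l 16768992) (l 16765960))) (c (b (l 16770744) (l 16771504)) (c (l 16770704) (l 16770424))))) (b (b (c (c (b (l 16769736) (l 16773080)) (l 16771904)) (c (c (l 16769824) (l 16769744)) (b (l 16769176) (l 16772696)))) (b (c (a (l 16773048) (a (l 16776752) (a (l 16777808) (l 140358190375)))) (b (a (l 16769960) (c (l 16776808) (l 16776776))) (a (l 16770400) (a (l 16775896) (c (l 16777296) (l 16777296)))))) (a (c (l 72712449095) (c (l 16771072) (l 16771000))) (a (b (c (l 16777168) (a (l 16777080) (l 145726898935))) (c (l 16777304) (l 173644186519))) (l 4))))) (b (a (b (c (a (l 16776784) (a (l 16777832) (l 160759284887))) (b (c (l 16776848) (l 16776816)) (a (l 104387835559) (l 179549766551)))) (a (c (a (l 16777840) (l 165054252183)) (b (a (l 16777112) (l 188676571751)) (l 190824055639)))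 (l 4))) (l 4)) (l 4)))), by decide +kernel⟩

def k121_mm_202_t : ∃ t, chk3 f_mm_202_t t 2005 138 1 = true :=
  ⟨(b (c (b (b (c (l 16769680) (l 16766656)) (c (l 16771160) (l 16768256))) (b (c (c (l 16772664) (l 16769968)) (l 16772472)) (b (a (l 16772960) (a (l 16776672) (a (l 16777760) (l 117809612103)))) (a (l 16774360) (a (a (l 16777776) (l 127473288455)) (l 4)))))) (b (b (c (l 16767560) (l 16768440)) (c (l 16769936) (l 16768984))) (a (c (b (l 16768856) (l 56606319367)) (b (l 16768624) (l 54995706103))) (b (c (l 16773456) (l 16773024)) (b (b (c (l 16776744) (l 16775392)) (a (l 16774184) (a (l 100092871527) (l 4)))) (a (c (c (l 16777168) (l 16777160)) (c (l 16777160) (l 67880617127))) (l 4))))))) (b (b (a (a (b (c (l 16776712) (b (l 16771192) (l 16775536))) (c (c (l 16777856) (l 16777192)) (c (c (l 16777192) (l 16777184)) (c (l 16777184) (l 70028100823))))) (b (c (a (l 16777784) (l 130694513943)) (c (c (l 16777176) (l 16777176)) (c (l 16777168) (l 68417488071)))) (l 4))) (l 4)) (l 4)) (l 4))), by decide +kernel⟩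

def k122_mm_202_t : ∃ t, chk3 f_mm_202_t t 1003 138 1 = true :=
  ⟨(b (b (a (c (b (c (c (l 16772584) (l 16769880)) (l 16772376)) (a (c (l 16773296) (l 16773192)) (a (b (l 16776600) (a (l 16777736) (l 99019130263))) (b (a (l 16777720) (l 92576679351)) (l 4))))) (a (c (b (l 16771368) (l 16773080)) (b (l 16768512) (l 16772976))) (b (c (l 16773032) (l 16772920)) (b (b (c (l 16776672) (l 16774008)) (a (l 16774096) (a (l 66806875063) (l 4)))) (a (c (a (l 16777064) (l 16777744)) (c (l 16777112) (l 63048778823))) (l 4)))))) (a (b (b (b (c (l 16776040) (c (l 16776632) (l 16773968))) (a (c (l 16776752) (l 16774056)) (c (l 16777232) (c (l 16777232) (l 16777224))))) (a (c (c (l 16777776) (l 16777112)) (c (c (l 16777096) (l 16777096)) (c (l 16777088) (l 57680068391)))) (l 4))) (l 4)) (l 4))) (b (a (a (b (b (c (l 16776760) (c (l 16776704) (l 16774048))) (a (c (l 16776824) (l 16774144)) (a (c (l 16777224) (l 81839260567)) (l 4)))) (a (c (a (l 16777760) (l 111367161191)) (c (c (l 16777144) (l 16777144)) (c (l 16777136) (l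 65733133431)))) (l 4))) (l 4)) (l 4)) (l 4))) (l 4)), by decide +kernel⟩

def k123_mm_202_t : ∃ t, chk3 f_mm_202_t t 500 278 1 = true :=
  ⟨(a (a (c (c (b (c (l 16765552) (l 16765296)) (c (l 16768392) (l 16768248))) (b (c (l 16765032) (l 16764760)) (c (l 16768096) (l 16767952)))) (c (b (c (l 16764488) (l 16764216)) (c (l 16767800) (l 16767648))) (b (c (l 16763936) (l 16763656)) (c (l 16767488) (l 16767336))))) (c (b (c (b (l 16767488) (l 16768936)) (c (l 16767984) (l 16767832))) (b (b (l 16772560) (c (l 16773984) (l 16773224))) (b (a (l 16770712) (a (l 16776952) (l 125325805095))) (c (a (l 16776656) (l 155927446983)) (a (l 16776616) (l 157001188807)))))) (b (c (c (l 16767680) (l 16767520)) (c (l 16767360) (l 16767200))) (a (b (b (l 16771400) (l 16772264)) (b (l 16773128) (c (l 16773944) (l 16774552)))) (b (b (l 16773080) (c (l 16773904) (l 16773856))) (a (b (c (l 16776920) (l 16776896)) (c (l 137136964759) (l 141968802951))) (b (c (l 134452610183) (l 130157642967)) (l 4)))))))) (b (a (b (b (c (l 16772464) (a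 (l 16771280) (l 16773624))) (c (c (l 16773248) (l 16770512)) (c (l 61975027367) (l 60364414231)))) (b (a (c (l 16770616) (l 16773024)) (a (c (l 16776888) (c (l 16776848) (l 16776816))) (c (a (l 16777888) (l 4)) (c (l 110830290151) (l 113514644711))))) (a (c (a (l 16776248) (l 16776904)) (c (l 16773864) (l 16773808))) (a (c (l 111904032327) (c (l 112977773815) (l 116198999287))) (l 4))))) (a (b (b (a (c (l 16776856) (c (l 16776808) (l 16776776))) (c (a (l 16777872) (l 4)) (c (l 105998451911) (l 95797904743)))) (a (c (c (l 16777928) (l 16777264)) (c (l 108145935575) (l 104924710183))) (l 4))) (l 4)) (l 4))) (a (a (b (b (a (c (l 16776920) (c (l 16776880) (l 16776856))) (c (l 114588386903) (c (l 115662128391) (l 118346482951)))) (a (c (l 117809612391) (c (l 124788933831) (l 128010159303))) (l 4))) (l 4)) (l 4)) (l 4)))), by decide +kernel⟩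

def k124_mm_202_t : ∃ t, chk3 f_mm_202_t t 501 278 1 = true :=
  ⟨(l 4), by decide +kernel⟩

def k125_mm_202_t : ∃ t, chk3 f_mm_202_t t 250 279 1 = true :=
  ⟨(a (a (a (b (c (b (b (l 16772664) (c (l 78618027559) (l 16773312))) (a (c (b (l 16776096) (l 16776728)) (l 88281704727)) (a (b (l 16777016) (l 158074930535)) (b (l 148411254199) (l 4))))) (b (a (c (l 16769424) (l 16769240)) (b (l 16773184) (c (l 16775296) (l 16774920)))) (b (a (l 16773240) (a (c (l 16776984) (l 16776968)) (b (l 147874382791) (l 4)))) (a (c (l 16775992) (l 101703478903)) (c (l 188676572487) (l 191897797943)))))) (a (b (b (a (c (l 16777040) (c (l 16777016) (l 16777000))) (c (l 161833026935) (c (l 185455346647) (l 187602830295)))) (c (l 182234121927) (c (l 199950861575) (l 203708957943)))) (l 4)) (l 4))) (a (b (b (b (a (c (l 16776984) (c (l 16776952) (l 16776928))) (c (l 137136965095) (c (l 148948124743) (l 144653157527)))) (c (c (l 166127994247) (l 167738606983)) (c (l 178476025207) (l 174717928823)))) (l 4)) (l 4)) (l 4))) (l 4)) (l 4)),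 by decide +kernel⟩

def k126_mm_202_t : ∃ t, chk3 f_mm_202_t t 251 69 1 = true :=
  ⟨(l 4), by decide +kernel⟩

def k127_mm_202_t : ∃ t, chk3 f_mm_202_t t 63 34 1 = true :=
  ⟨(l 4), by decide +kernel⟩

def k128_mm_202_t : ∃ t, chk3 f_mm_202_t t 248 140 2 = true :=
  ⟨(a (a (b (c (b (l 16740288) (l 16743232)) (b (l 16737320) (l 16740520))) (c (b (l 16746160) (l 16749056)) (b (l 16743688) (l 16746824)))) (b (c (b (l 16745600) (l 16748528)) (b (l 16743064) (l 16746240))) (b (c (l 16751432) (l 16749376)) (c (l 16755616) (l 16752496))))) (a (b (b (c (l 16752248) (l 16748832)) (c (c (l 16754296) (l 16753384)) (l 16753288))) (c (b (c (l 16757120) (l 16756320)) (c (l 16759920) (l 16759240))) (b (c (l 16755512) (l 16754688)) (c (l 16758536) (l 16757832))))) (b (c (b (c (l 16756704) (l 16755880)) (c (l 16759536) (l 16758824))) (b (c (l 16755048) (l 16754200)) (c (l 16758112) (l 16757384)))) (c (b (c (l 16762336) (l 16761744)) (c (l 16759872) (l 16764640))) (b (c (l 16761144) (l 16760536)) (a (l 16762472) (l 16760096))))))),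 by decide +kernel⟩

def k129_mm_202_t : ∃ t, chk3 f_mm_202_t t 248 141 2 = true :=
  ⟨(b (a (a (b (c (l 16751928) (l 16749928)) (c (l 16754768) (l 16753008))) (c (b (c (l 16757544) (l 16756768)) (c (l 16760312) (l 16759648))) (b (l 16750336) (l 16753384)))) (c (a (b (a (l 16761096) (l 16763728)) (a (l 16763904) (l 16761288))) (c (b (l 16762632) (l 16765360)) (b (l 16762264) (l 16765104)))) (a (b (a (l 16759824) (l 16762672)) (a (l 16762864) (l 16765688))) (c (b (l 16761888) (l 16764840)) (b (l 16756264) (l 16759328)))))) (a (a (b (c (l 16752344) (l 16756056)) (c (c (l 16760704) (l 16760064)) (l 16753832))) (c (b (a (l 16761480) (l 16764080)) (a (l 16764256) (l 16761608))) (b (l 16756408) (l 16759408)))) (a (b (c (c (l 16762928) (l 16762576)) (c (l 16756968) (l 16756608))) (c (c (l 16765624) (l 16765384)) (c (l 16759888) (l 16759632)))) (b (c (b (l 16767304) (l 16768672)) (b (l 16766936) (l 16768416))) (b (a (l 16771232) (a (l 16773264) (b (l 16776800) (a (l 16777088) (l 4))))) (a (c (l 16770096) (l 16764704))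 (a (b (l 16776832) (a (l 16777120) (l 4))) (l 4)))))))), by decide +kernel⟩

def k130_mm_202_t : ∃ t, chk3 f_mm_202_t t 498 140 2 = true :=
  ⟨(b (a (c (b (c (l 16761984) (l 16761376)) (c (l 16759552) (l 16759056))) (b (c (l 16760752) (l 16760128)) (a (l 16762088) (l 16759752)))) (b (c (c (l 16762040) (l 16761648)) (c (l 16761240) (l 16760832))) (c (c (l 16764832) (l 16764552)) (c (l 16764256) (l 16763968))))) (a (b (c (c (l 16762336) (l 16761952)) (c (l 16761560) (l 16761168))) (c (c (l 16765096) (l 16764824)) (c (l 16764544) (l 16764264)))) (b (b (c (l 16766808) (l 16766400)) (c (l 16768216) (l 16767920))) (a (c (c (l 16769024) (l 16768912)) (l 16770040)) (a (b (l 16772840) (b (l 16776512) (a (l 16776864) (l 16777912)))) (b (b (l 16776472) (a (l 16776832) (l 16777896))) (a (c (l 117809612695) (l 118883354519)) (l 4)))))))), by decide +kernel⟩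

def k131_mm_202_t : ∃ t, chk3 f_mm_202_t t 499 140 2 = true :=
  ⟨(b (a (b (c (c (b (l 16766672) (l 16768064)) (b (l 16766464) (l 16767904))) (c (l 16767000) (l 16766808))) (a (c (c (l 16768808) (l 16768688)) (c (l 16768560) (l 16763184))) (a (b (l 16772624) (b (l 16776336) (a (l 16776704) (l 16777824)))) (b (a (l 56069450119) (b (l 16776640) (l 16777800))) (a (b (l 16777816) (l 4)) (l 4)))))) (b (b (b (a (l 16772864) (a (a (l 16777736) (l 4)) (l 4))) (a (c (l 88281704295) (l 16773816)) (l 4))) (a (a (a (l 16774288) (b (l 16776592) (l 16777776))) (a (b (l 16777768) (l 4)) (l 4))) (l 4))) (a (a (a (b (b (l 16777792) (l 4)) (l 4)) (l 4)) (l 4)) (l 4)))) (a (a (a (b (b (l 16772728) (b (l 16776424) (a (l 16776792) (l 16777872)))) (a (b (b (l 16777880) (l 4)) (l 4)) (l 4))) (b (b (b (l 16776384) (a (l 16776744) (l 16777848))) (a (b (l 16777864) (l 4)) (l 4))) (l 4))) (a (a (b (b (b (l 16777840) (l 4)) (l 4)) (l 4)) (l 4)) (l 4))) (l 4))), by decide +kernel⟩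

def k132_mm_202_t : ∃ t, chk3 f_mm_202_t t 249 141 2 = true :=
  ⟨(a (b (a (b (c (c (l 16767832) (l 16767664)) (c (l 16767504) (l 16767336))) (a (c (c (l 16769240) (l 16769136)) (l 16768976)) (a (b (l 16773048) (b (l 16776680) (a (l 16777008) (l 16777320)))) (b (b (l 16776640) (a (l 16776976) (l 16777304))) (b (l 155927447303) (l 4)))))) (a (b (a (b (l 16772944) (b (l 16776600) (a (l 16776944) (l 16777944)))) (b (b (l 16776560) (a (l 16776904) (l 16777928))) (b (l 132841998295) (l 4)))) (b (c (l 250953597639) (l 254711694007)) (l 4))) (b (b (b (c (l 235384340999) (l 238068695559)) (l 4)) (l 4)) (l 4)))) (a (b (b (a (a (l 16773160) (b (l 16776720) (a (l 16777040) (l 16777328)))) (c (l 258469790439) (l 262227886823))) (a (a (b (l 16776760) (a (l 16777072) (l 16777344))) (b (l 180086638279) (l 4))) (l 4))) (l 4)) (l 4))) (l 4)), by decide +kernel⟩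

def k133_mm_202_t : ∃ t, chk3 f_mm_202_t t 248 140 3 = true :=
  ⟨(b (b (a (a (c (l 16734272) (l 16731136)) (c (l 16740456) (l 16737776))) (c (c (c (l 16740032) (l 16739544)) (c (l 16739056) (l 16738560))) (c (b (l 16736912) (l 16738704)) (b (l 16735864) (l 16737728))))) (a (c (c (l 16742760) (l 16729664)) (a (l 16734856) (l 16736224))) (c (c (c (l 16743320) (l 16742896)) (b (l 16741392) (l 16743104))) (c (b (l 16740488) (l 16742264)) (b (l 16739576) (l 16741416)))))) (a (c (c (b (a (l 16741784) (l 16747808)) (a (l 16745104) (l 16751104))) (b (l 16733128) (l 16736560))) (a (b (l 16738528) (l 16742168)) (b (l 16739864) (c (l 16749200) (l 16748224))))) (a (c (c (b (l 16753848) (l 16757120)) (c (l 16744416) (l 16744016))) (b (b (l 16750808) (l 16752608)) (b (l 16754392) (l 16756168)))) (c (c (c (l 16756440) (l 16753536)) (c (l 16753256) (l 16752968))) (b (a (l 16751432) (l 16754752)) (c (l 16751656) (l 16751128))))))), by decide +kernel⟩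

def k134_mm_202_t : ∃ t, chk3 f_mm_202_t t 248 141 3 = true :=
  ⟨(a (a (c (b (b (l 16742632) (l 16745296)) (c (b (l 16754880) (l 16758064)) (b (l 16754080) (l 16757384)))) (b (b (l 16740528) (l 16744088)) (b (l 16747616) (l 16748480)))) (b (c (c (b (l 16754360) (l 16757592)) (b (l 16753536) (l 16756888))) (b (b (l 16751392) (l 16753168)) (b (l 16754936) (l 16756688)))) (c (c (c (l 16752016) (l 16751760)) (c (l 16751488) (l 16751224))) (b (a (l 16757688) (l 16755680)) (c (l 16763000) (l 16752032)))))) (b (a (c (c (c (l 16751608) (l 16756576)) (c (l 16751064) (l 16756032))) (b (a (l 16757184) (l 16755216)) (c (l 16752080) (l 16751576)))) (b (c (c (l 16755880) (l 16755488)) (c (l 16755096) (l 16759936))) (c (c (l 16759056) (l 16758784)) (c (l 16763744) (l 16763464))))) (a (b (c (c (l 16756240) (l 16755864)) (c (l 16755480) (l 16755096))) (c (c (l 16759376) (l 16759112)) (c (l 16758848) (l 16763824)))) (b (c (c (l 16767440) (l 16767280)) (c (l 16767112) (l 16766952))) (a (c (c (l 16763824) (l 16763720)) (b (l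 16762712) (l 16764400))) (b (b (c (l 16773408) (l 16773328)) (a (l 16770848) (a (a (l 16777000) (l 77007422247)) (l 4)))) (a (b (c (l 16776792) (l 16776752)) (c (l 79154906887) (l 76470549815))) (l 4)))))))), by decide +kernel⟩

def k135_mm_202_t : ∃ t, chk3 f_mm_202_t t 498 140 3 = true :=
  ⟨(b (a (c (b (b (l 16758328) (l 16760008)) (c (l 16757528) (l 16751760))) (b (c (l 16758184) (l 16752280)) (c (l 16756464) (l 16755928)))) (b (c (c (l 16760416) (l 16760000)) (c (l 16759576) (l 16759144))) (b (c (l 16762696) (l 16762024)) (c (l 16764344) (l 16763792))))) (a (b (c (c (l 16760768) (l 16755120)) (c (l 16759952) (l 16759536))) (c (c (l 16763984) (l 16763696)) (c (l 16763400) (l 16763112)))) (b (b (c (l 16765984) (l 16765552)) (c (l 16768264) (l 16767296))) (b (b (c (l 16770128) (l 16769904)) (a (l 16770568) (a (l 16770360) (c (c (l 16776976) (l 16776968)) (l 113514637639))))) (a (c (l 16769296) (l 16769104)) (a (c (c (l 16776680) (l 16776656)) (a (l 16771144) (b (l 16776776) (l 16777248)))) (a (b (b (l 16777768)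 (l 4)) (l 4)) (l 4)))))))), by decide +kernel⟩

def k136_mm_202_t : ∃ t, chk3 f_mm_202_t t 499 140 3 = true :=
  ⟨(b (a (b (c (c (l 16766616) (l 16766424)) (a (c (l 16764560) (l 16764304)) (b (l 16766936) (l 16768704)))) (b (b (c (l 16768576) (l 16768328)) (a (l 16770296) (a (l 16772736) (a (l 16773952) (b (l 16777072) (l 112977773623)))))) (a (c (l 16769048) (l 16768840)) (a (b (l 54458837495) (a (l 16774000) (b (l 16777096) (l 138747577255)))) (b (a (b (l 16777088) (l 116735870023)) (l 4)) (l 4)))))) (a (a (b (b (b (l 16771768) (l 16772616)) (b (l 16773464) (a (l 16773904) (b (l 16777040) (l 97945388135))))) (a (b (b (b (l 16777056) (l 101703484535)) (l 4)) (l 4)) (l 4))) (b (b (c (c (l 16776400) (l 16776368)) (c (l 95797897687) (l 95261026535))) (b (a (b (l 16777024) (l 88281711767)) (l 4)) (l 4))) (l 4))) (a (a (b (b (b (c (l 16777064) (l 16777048)) (l 4)) (l 4)) (l 4)) (l 4)) (l 4)))) (a (b (a (b (c (c (l 87207960615) (l 86134218535)) (b (l 16770136) (a (l 16775424) (c (l 16776888) (l 16776872))))) (a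 (c (c (l 16776600) (l 16776576)) (b (l 16776272) (l 103850963783))) (a (b (b (l 16777792) (l 152706221015)) (l 4)) (l 4)))) (a (b (a (b (b (l 16777760) (l 134989480967)) (l 4)) (l 4)) (l 4)) (l 4))) (a (a (b (a (b (b (l 16777824) (l 182770991991)) (l 4)) (l 4)) (l 4)) (l 4)) (l 4))) (l 4))), by decide +kernel⟩

def k137_mm_202_t : ∃ t, chk3 f_mm_202_t t 249 141 3 = true :=
  ⟨(a (b (b (a (c (c (l 16767160) (l 16766992)) (c (l 16766816) (l 16766640))) (b (b (c (a (l 16770480) (l 241826791927)) (a (l 16770368) (l 245584888311))) (a (a (l 16770480) (a (b (l 16776712) (l 16777040)) (b (l 16777800) (l 4)))) (l 4))) (a (a (c (c (l 16776752) (l 16776896)) (a (l 16771240) (b (l 16776864) (l 16777288)))) (b (c (l 140358190631) (l 139821319767)) (l 4))) (l 4)))) (b (b (a (c (l 54458828807) (l 52848215655)) (a (c (l 257932919335) (l 261154144807)) (l 4))) (a (a (l 16768224) (a (l 16770600) (a (b (l 16776816) (l 16777096)) (a (l 118883353911) (l 4))))) (l 4))) (a (a (c (l 16769544) (l 16764128)) (c (c (a (l 16776824) (l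 180623509063)) (a (l 20099104199) (l 181697250887))) (a (a (l 16773960) (b (l 16776944) (l 16777312))) (l 250416726471)))) (l 4)))) (a (b (b (a (b (c (l 16770688) (l 16770592)) (a (l 16770728) (c (l 57680069175) (c (l 16777120) (l 64659392071))))) (c (l 265985983191) (l 270280950471))) (a (a (a (c (l 16776712) (l 16776672)) (b (b (l 16776936) (l 16777168)) (l 182234121511))) (c (l 194045282151) (l 269207208423))) (l 4))) (l 4)) (l 4))) (l 4)), by decide +kernel⟩

def k138_mm_202_t : ∃ t, chk3 f_mm_202_t t 248 284 1 = true :=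
  ⟨(a (a (c (c (b (a (l 16761864) (l 16764440)) (a (l 16764616) (l 16767176))) (b (l 16756816) (l 16759776))) (c (c (c (l 16752432) (l 16752176)) (c (l 16751920) (l 16751664))) (b (a (l 16758200) (l 16761384)) (a (l 16761616) (l 16759544))))) (c (c (b (c (l 16763224) (l 16757648)) (c (l 16765896) (l 16760416))) (b (l 16762368) (l 16765304))) (b (c (c (l 16756600) (l 16756240)) (c (l 16755872) (l 16755504))) (c (c (l 16759696) (l 16759448)) (c (l 16759192) (l 16758936)))))) (b (a (c (c (b (l 16767552) (l 16768904)) (b (l 16761968) (l 16768672))) (c (c (l 16767720) (l 16767568)) (b (l 16766496) (l 16768176)))) (a (b (c (a (l 16773376) (b (l 16776872) (l 84523615735))) (b (c (l 16773840) (l 85060477895)) (a (l 16770968) (c (l 83449874215) (l 82913003367))))) (a (b (c (l 16776904) (c (l 16776864) (l 16776840))) (c (l 92039809127) (c (l 91502937863) (l 90966067015)))) (l 4))) (l 4))) (a (b (c (a (l 16771472) (a (l 16773480) (b (l 16776944) (l 100629743671)))) (b (a (l 16767976) (c (l 93113542327) (l 91502929207)))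 (a (l 16768784) (a (l 16773704) (c (l 99556001511) (l 104924710599)))))) (a (c (c (l 16770304) (l 16764936)) (c (l 16770048) (l 16769912))) (a (b (c (l 16776976) (c (l 16776944) (l 16776920))) (c (l 112977774519) (c (l 109219677879) (l 110293419735)))) (l 4)))) (l 4)))), by decide +kernel⟩

def k139_mm_202_t : ∃ t, chk3 f_mm_202_t t 248 285 1 = true :=
  ⟨(a (c (a (c (b (c (l 16758288) (l 16757960)) (c (l 16766168) (l 16760704))) (b (l 16762704) (l 16765608))) (b (c (b (l 16767808) (l 16769136)) (b (l 16762240) (l 16768920))) (a (c (b (l 16763960) (l 16770512)) (l 56606314359)) (a (b (l 16775312) (b (l 16778392) (l 146800641863))) (b (b (l 16778360) (l 136600094583)) (l 4)))))) (a (b (c (c (l 16756960) (l 16756616)) (c (l 16756264) (l 16755912))) (c (c (l 16760016) (l 16759784)) (c (l 16759544) (l 16759296)))) (b (c (c (l 16767992) (l 16767856)) (b (l 16761576) (l 52848213559))) (a (c (b (l 16763536) (l 16770280)) (b (l 16763312) (l 16770168))) (a (b (c (l 16776192) (l 16770880)) (a (b (l 16776920) (l 127473288743))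 (b (l 130157643175) (l 4)))) (b (b (c (l 16777024) (l 16777008)) (b (l 129083901431) (l 4))) (l 4))))))) (a (a (b (a (c (b (l 16773576) (b (l 16777016) (l 126399547319))) (b (c (l 16776080) (l 16770760)) (b (c (l 16776992) (l 16776968)) (c (l 131231385143) (l 146263770503))))) (b (b (c (l 16777008) (c (l 16776976) (l 16776960))) (c (l 117272741863) (c (l 119420225159) (l 127473288759)))) (l 4))) (l 4)) (l 4)) (l 4))), by decide +kernel⟩

def k140_mm_202_t : ∃ t, chk3 f_mm_202_t t 248 143 1 = true :=
  ⟨(a (b (b (a (c (c (b (l 16768056) (l 16770672)) (b (l 16762520) (l 16769160))) (c (c (l 16768264) (l 16768136)) (b (l 16761896) (b (l 16763128) (l 16769152))))) (a (b (a (c (c (l 16776424) (l 16776360)) (c (l 16776296) (l 16770992))) (b (c (l 16778424) (c (l 16777088) (l 16776984))) (c (l 157001189143) (c (l 181697250599) (l 182770992439))))) (b (a (c (l 16777792) (c (l 16777120) (l 16776936))) (l 4)) (c (l 187602831719) (l 320209943767)))) (l 4))) (a (a (b (c (l 16769352) (c (l 16763816) (l 16763608))) (c (c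 (l 16775952) (l 16775856)) (c (l 16773136) (l 16774344)))) (a (b (c (a (l 16776224) (l 16776792)) (c (l 16776400) (l 16776344))) (b (c (l 16777848) (c (l 16777176) (l 16776800))) (l 4))) (b (c (c (l 89892324407) (l 92039809351)) (c (c (l 16777904) (l 85060487367)) (c (l 89355454615) (l 275112785847)))) (l 4)))) (l 4))) (b (a (a (a (b (c (c (l 16776600) (l 16776552)) (c (l 16776504) (l 16776448))) (a (b (c (l 16777152) (l 60364423431)) (l 4)) (l 4))) (b (b (c (l 16777872) (c (l 16777208) (l 16776720))) (l 4)) (l 4))) (l 4)) (l 4)) (l 4))) (l 4)), by decide +kernel⟩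

def k141_mm_202_t : ∃ t, chk3 f_mm_202_t t 249 71 1 = true :=
  ⟨(l 4), by decide +kernel⟩

def k142_mm_202_t : ∃ t, chk3 f_mm_202_t t 125 35 1 = true :=
  ⟨(l 4), by decide +kernel⟩

def k143_mm_202_t : ∃ t, chk3 f_mm_202_t t 63 35 1 = true :=
  ⟨(l 4), by decide +kernel⟩

def k144_mm_202_t : ∃ t, chk3 f_mm_202_t t 28 72 1 = true :=
  ⟨(a (b (a (l 1) (b (a (l 1) (c (c (l 16390592) (b (l 16371432) (l 16376208))) (c (b (l 16340432) (l 16345728)) (a (l 16305880) (l 16296112))))) (c (c (a (l 16378896) (l 16412208)) (a (b (l 16361856) (l 16366680)) (l 16383320))) (c (a (b (l 16330360) (l 16335704)) (l 16364080)) (a (b (l 16297976) (l 16303848)) (l 16302064)))))) (b (a (a (l 1) (c (c (l 16370144) (l 16341320)) (c (l 16311600) (l 16280328)))) (c (c (a (l 16403208) (l 16420608)) (a (l 16373848) (l 16392688))) (c (a (l 16343640) (l 16363960)) (b (l 16320640) (l 16326368))))) (c (a (c (a (l 16356480) (l 16394520)) (a (l 16330536) (l 16364744))) (c (l 16409808) (l 16392624))) (a (c (a (l 16298448) (l 16334096)) (a (l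 16270696) (l 16302584))) (c (l 16364152) (l 16334872)))))) (c (b (a (c (b (c (l 16426736) (l 16413120)) (l 16438680)) (b (a (l 16382640) (l 16412488)) (c (l 16418744) (l 16405208)))) (c (b (b (l 16453808) (l 16468264)) (l 16476792)) (b (b (l 16439432) (l 16443848)) (b (l 16448232) (l 16452592))))) (a (c (b (l 16446816) (l 16454848)) (b (l 16421056) (l 16429992))) (c (b (l 16481952) (l 16489632)) (b (b (l 16456912) (l 16461200)) (l 16467584))))) (b (a (c (b (b (l 16372480) (l 16376936)) (b (l 16382016) (l 16387056))) (b (a (l 16323424) (l 16356392)) (b (l 16353536) (l 16359064)))) (c (b (b (l 16413856) (l 16418728)) (b (l 16423560) (l 16428368))) (b (c (l 16396808) (l 16383600)) (c (l 16407184) (l 16394440))))) (a (c (b (l 16397168) (l 16404408)) (b (l 16372528) (l 16383352))) (c (b (c (l 16441448) (l 16429504)) (l 16450136)) (b (c (l 16417392) (l 16405120)) (c (l 16427456) (l 16415624)))))))), by decide +kernel⟩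

def k145_mm_202_t : ∃ t, chk3 f_mm_202_t t 28 73 1 = true :=
  ⟨(c (a (b (a (c (b (l 16384136) (l 16382176)) (b (l 16354664) (l 16364176))) (c (b (l 16418080) (l 16426248)) (b (l 16401848) (l 16410944)))) (a (c (a (l 16386528) (l 16402968)) (c (l 16374552) (l 16360840))) (c (b (l 16434304) (l 16431768)) (b (l 16419912) (l 16428760))))) (b (a (c (b (l 16462768) (l 16470576)) (b (l 16438800) (l 16447480))) (c (b (l 16497200) (l 16504664)) (b (l 16475976) (l 16484248)))) (a (c (b (l 16478288) (l 16485880)) (b (l 16456040) (l 16464472))) (c (b (l 16512024) (l 16519272)) (b (l 16492400) (l 16500424)))))) (a (c (b (a (b (l 16334816) (l 16345352)) (b (l 16374344) (l 16384400))) (a (b (l 16355744) (l 16365984)) (b (l 16394312) (l 16404080)))) (b (a (b (l 16303632) (l 16315216)) (b (l 16346072) (l 16357112))) (a (b (l 16326632) (l 16337888)) (b (l 16367984) (l 16378704))))) (c (a (b (b (l 16414128) (l 16423712)) (b (l 16433144) (l 16442440))) (b (b (l 16459384) (l 16463240)) (b (l 16472208) (l 16481032)))) (a (b (b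 (l 16388768) (l 16399264)) (b (l 16409608) (l 16419776))) (b (b (l 16442168) (l 16452128)) (b (l 16451448) (l 16461088))))))), by decide +kernel⟩

def k146_mm_202_t : ∃ t, chk3 f_mm_202_t t 28 37 2 = true :=
  ⟨(b (a (a (b (c (a (l 16403128) (l 16419216)) (a (l 16377352) (l 16394680))) (c (l 16448248) (l 16430144))) (b (c (a (l 16435392) (l 16451640)) (b (l 16437488) (l 16446120))) (c (b (l 16476064) (l 16483696)) (b (l 16454664) (l 16463120))))) (a (b (c (b (l 16493384) (l 16500800)) (b (l 16472784) (l 16481008))) (c (b (l 16508152) (l 16515432)) (b (l 16489144) (l 16497200)))) (c (b (b (l 16526416) (l 16533496)) (b (l 16540496) (l 16547440))) (b (b (l 16508328) (l 16516152)) (b (l 16523880) (l 16531528)))))) (a (a (b (c (l 16464064) (l 16442464)) (c (l 16479624) (l 16459704))) (b (c (b (l 16491256) (l 16498752)) (b (l 16471496) (l 16479792))) (c (l 16509880) (l 16492088)))) (a (b (c (b (l 16522648) (l 16529808)) (b (l 16505168) (l 16513064))) (c (b (l 16536896) (l 16543936)) (b (l 16520880) (l 16528632))))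 (b (c (b (l 16554312) (l 16561128)) (b (l 16539104) (l 16546600))) (c (b (l 16567888) (l 16574584)) (b (l 16554024) (l 16561376))))))), by decide +kernel⟩

def k147_mm_202_t : ∃ t, chk3 f_mm_202_t t 28 37 3 = true :=
  ⟨(b (a (c (a (b (b (l 16376096) (l 16386088)) (l 16408736)) (b (b (l 16413712) (l 16423232)) (b (l 16432640) (l 16441952)))) (a (b (b (l 16348984) (l 16359952)) (l 16386656)) (b (b (l 16389264) (l 16399688)) (b (l 16410000) (l 16420184))))) (c (a (b (b (l 16451592) (l 16460640)) (b (l 16469584) (l 16478432))) (b (b (l 16489720) (l 16498296)) (b (l 16506776) (l 16515160)))) (a (b (b (l 16429800) (l 16439696)) (b (l 16449472) (l 16459136))) (b (b (l 16470576) (l 16479944)) (b (l 16489192) (l 16498328)))))) (a (c (a (b (l 16420232) (l 16439208)) (b (b (l 16451168) (l 16460280)) (l 16484264))) (a (b (l 16397376) (l 16418120)) (b (b (l 16430256) (l 16440216)) (l 16465440)))) (c (a (b (b (l 16487176) (l 16495832)) (b (l 16504400) (l 16512872))) (b (b (l 16523448) (l 16531640)) (b (l 16539752) (l 16547776))))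 (a (b (b (l 16468680) (l 16478112)) (b (l 16487448) (l 16496672))) (b (b (l 16507352) (l 16516264)) (b (l 16525080) (l 16533792))))))), by decide +kernel⟩

def k148_mm_202_t : ∃ t, chk3 f_mm_202_t t 58 36 2 = true :=
  ⟨(b (b (a (c (b (b (l 16500496) (l 16504288)) (b (l 16508064) (l 16511808))) (b (c (l 16486208) (l 16475224)) (c (l 16494368) (l 16483792)))) (c (b (c (l 16543408) (l 16534208)) (c (l 16550416) (l 16541592))) (b (c (l 16524864) (l 16515392)) (c (l 16532632) (l 16523544))))) (a (c (b (c (l 16522288) (l 16512416)) (l 16527320)) (b (c (l 16502400) (l 16492240)) (c (l 16510312) (l 16500552)))) (c (b (c (l 16557328) (l 16548864)) (c (l 16564136) (l 16556024))) (b (c (l 16540272) (l 16531560)) (c (l 16547800) (l 16539456)))))) (b (a (c (b (l 16537160) (l 16544280)) (b (l 16517368) (l 16526544))) (c (b (c (l 16570840) (l 16563080)) (c (l 16577440) (l 16570024))) (b (c (l 16555208) (l 16547216)) (c (l 16562496) (l 16554856))))) (a (c (b (l 16546048) (l 16552952)) (b (l 16529048) (l 16536664))) (c (b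 (c (l 16583944) (l 16576856)) (c (l 16590344) (l 16583576))) (b (a (l 16556736) (l 16575320)) (a (l 16564048) (l 16582432))))))), by decide +kernel⟩

def k149_mm_202_t : ∃ t, chk3 f_mm_202_t t 58 36 3 = true :=
  ⟨(b (b (a (c (b (c (l 16464088) (l 16452792)) (c (l 16473080) (l 16462208))) (b (c (l 16441336) (l 16429728)) (c (l 16451184) (l 16440016)))) (c (b (a (l 16479784) (l 16511592)) (a (l 16499120) (l 16520208))) (b (a (l 16469728) (l 16492624)) (a (l 16479400) (l 16502032))))) (a (c (b (c (l 16481928) (l 16471480)) (c (l 16490648) (l 16480600))) (b (c (l 16460880) (l 16450136)) (a (l 16454304) (l 16476240)))) (c (b (a (l 16507832) (l 16528688)) (a (l 16516400) (l 16537024))) (b (a (l 16488904) (l 16511272)) (a (l 16498256) (l 16520360)))))) (b (a (c (b (c (l 16499224) (l 16489584)) (l 16508296)) (b (a (l 16464032) (l 16485696)) (l 16490848))) (c (b (a (l 16524824) (l 16545216)) (a (l 16533112) (l 16553272))) (b (a (l 16507448) (l 16529280)) (a (l 16516480) (l 16538056))))) (a (c (b (l 16516792) (l 16525152))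 (b (l 16504048) (l 16513160))) (c (b (a (l 16541264) (l 16561192)) (a (l 16549264) (l 16568968))) (b (a (l 16525352) (l 16546664)) (a (l 16534064) (l 16555120))))))), by decide +kernel⟩

def k150_mm_202_t : ∃ t, chk3 f_mm_202_t t 59 72 1 = true :=
  ⟨(c (a (b (c (b (c (l 16579480) (l 16571744)) (a (l 16573312) (l 16591640))) (b (a (l 16549928) (l 16569912)) (a (l 16557584) (l 16577368)))) (c (b (a (l 16580144) (l 16598304)) (a (l 16586872) (l 16604864))) (b (a (l 16565112) (l 16584696)) (a (l 16572512) (l 16591904))))) (b (c (a (b (l 16603480) (l 16610080)) (b (l 16622208) (l 16628640))) (a (b (l 16590008) (l 16597264)) (b (l 16610216) (l 16617272)))) (c (a (b (l 16616576) (l 16622968)) (b (l 16634960) (l 16641184))) (a (b (l 16604392) (l 16611400)) (b (l 16624200) (l 16631008)))))) (a (c (b (b (a (l 16533008) (l 16554528)) (a (l 16541392) (l 16562680))) (b (a (l 16549640) (l 16570688)) (a (l 16557744) (l 16578568)))) (b (b (a (l 16515616) (l 16538704)) (a (l 16524752) (l 16547576))) (b (a (l 16533736) (l 16556296))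 (a (l 16542552) (l 16564856))))) (b (c (b (a (l 16576152) (l 16597888)) (a (l 16584072) (l 16605576))) (b (a (l 16561904) (l 16585208)) (a (l 16570512) (l 16593552)))) (c (a (b (l 16591856) (l 16599496)) (b (l 16613128) (l 16620544))) (a (b (l 16578960) (l 16587256)) (b (l 16601744) (l 16609784))))))), by decide +kernel⟩

def k151_mm_202_t : ∃ t, chk3 f_mm_202_t t 59 73 1 = true :=
  ⟨(c (a (b (c (b (a (l 16593496) (l 16611320)) (a (l 16600016) (l 16617664))) (b (a (l 16579800) (l 16598984)) (a (l 16586960) (l 16605952)))) (c (b (a (l 16606424) (l 16623904)) (a (l 16612728) (l 16630048))) (b (a (l 16594000) (l 16612792)) (a (l 16600920) (l 16619504))))) (b (a (c (b (l 16629248) (l 16635432)) (b (l 16618280) (l 16625048))) (c (b (l 16647296) (l 16653312)) (b (l 16637696) (l 16644264)))) (c (a (b (l 16641504) (l 16647472)) (b (l 16659216) (l 16665016))) (a (b (l 16631688) (l 16638208)) (b (l 16650712) (l 16657032)))))) (a (b (c (b (a (l 16565704) (l 16586296)) (a (l 16573528) (l 16593896))) (b (a (l 16551216)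 (l 16573256)) (a (l 16559720) (l 16581496)))) (c (b (a (l 16581216) (l 16601352)) (a (l 16588760) (l 16608664))) (b (a (l 16568072) (l 16589584)) (a (l 16576264) (l 16597520))))) (b (c (a (b (l 16607000) (l 16614368)) (b (l 16627816) (l 16634952))) (a (b (l 16595400) (l 16603384)) (b (l 16617656) (l 16625384)))) (c (a (b (l 16621592) (l 16628680)) (b (l 16641952) (l 16648816))) (a (b (l 16611208) (l 16618880)) (b (l 16632952) (l 16640368))))))), by decide +kernel⟩

def k152_mm_202_t : ∃ t, chk3 f_mm_202_t t 58 74 1 = true :=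
  ⟨(c (b (a (c (b (l 16559752) (l 16566488)) (b (l 16544168) (l 16551584))) (a (c (l 16588216) (b (l 16571256) (l 16578368))) (c (l 16605064) (b (l 16589440) (l 16596352))))) (a (c (b (l 16573152) (l 16579752)) (b (l 16558912) (l 16566168))) (c (b (l 16606152) (l 16612416)) (b (a (l 16585400) (l 16603192)) (a (l 16592360) (l 16609944)))))) (b (c (a (b (l 16528128) (l 16536248)) (b (a (l 16557144) (l 16576608)) (a (l 16564912) (l 16584152)))) (a (b (l 16511640) (l 16520480)) (a (l 16552112) (a (l 16562352) (l 16572704))))) (a (c (b (l 16544264) (l 16552184)) (b (l 16529200) (l 16537816))) (c (b (l 16587992) (l 16594808)) (b (l 16576104) (l 16582888)))))), by decide +kernel⟩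

def k153_mm_202_t : ∃ t, chk3 f_mm_202_t t 59 74 1 = true :=
  ⟨(c (a (b (c (a (b (l 16618944) (l 16625080)) (b (l 16636088) (l 16642056))) (b (a (l 16607720) (l 16626112)) (a (l 16614440) (l 16632632)))) (c (b (a (l 16631152) (l 16647960)) (a (l 16637160) (l 16653808))) (b (a (l 16621080) (l 16639080)) (a (l 16627640) (l 16645440))))) (b (c (a (b (l 16653344) (l 16659144)) (b (l 16670728) (l 16676360))) (a (b (l 16644616) (l 16650944)) (b (l 16663248) (l 16669376)))) (c (c (a (l 16669560) (l 16686240)) (a (l 16665896) (l 16683152))) (c (a (l 16662168) (l 16680008)) (a (l 16658392) (l 16676824)))))) (a (b (c (b (a (l 16596176) (l 16615856)) (a (l 16603496) (l 16622944))) (b (a (l 16584312) (l 16605304)) (a (l 16592240) (l 16612976)))) (c (a (b (l 16610712) (l 16617840)) (b (l 16629936) (l 16636840))) (a (b (l 16600056) (l 16607768)) (b (l 16620536) (l 16627984))))) (b (c (a (b (l 16635640) (l 16642504)) (b (l 16655552) (l 16662184))) (c (a (l 16632392) (l 16653160)) (a (l 16627856) (l 16649280)))) (c (b (a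 (l 16649272) (l 16668728)) (a (l 16655952) (l 16675184))) (b (a (l 16641128) (l 16661840)) (a (l 16648328) (l 16668784))))))), by decide +kernel⟩

def k154_mm_202_t : ∃ t, chk3 f_mm_202_t t 29 75 1 = true :=
  ⟨(a (c (b (a (c (b (l 16586288) (l 16592768)) (b (l 16573344) (l 16580440))) (c (b (l 16618616) (l 16624760)) (b (l 16613176) (l 16619888)))) (a (c (b (l 16599184) (l 16605560)) (b (l 16587472) (l 16594440))) (c (b (l 16630856) (l 16636896)) (b (l 16621288) (l 16627872))))) (b (a (c (b (l 16560016) (l 16567760)) (b (l 16546320) (l 16554720))) (c (b (l 16602184) (l 16609480)) (b (l 16590880) (l 16593528)))) (a (c (b (l 16575416) (l 16582992)) (b (l 16563024) (l 16571232))) (c (b (l 16616688) (l 16618576)) (b (l 16601320) (l 16609024)))))) (c (a (b (b (c (a (l 16643112) (l 16659592)) (a (l 16634128) (l 16651736))) (c (a (l 16649016) (l 16665328)) (a (l 16640552) (l 16657968)))) (c (a (l 16661696) (b (l 16671008) (l 16676648))) (a (b (l 16646904) (l 16653192)) (b (l 16664128) (l 16670224))))) (b (c (b (a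 (l 16676192) (l 16692912)) (a (l 16681760) (l 16698320))) (b (a (l 16669464) (l 16687312)) (a (l 16675496) (l 16693160)))) (c (b (a (l 16687280) (l 16703688)) (a (l 16692768) (l 16708984))) (b (a (l 16681472) (l 16698944)) (a (l 16687392) (l 16704648)))))) (a (b (c (a (b (l 16624880) (l 16631840)) (b (l 16643656) (l 16650384))) (a (b (l 16615376) (l 16622880)) (b (l 16635344) (l 16642600)))) (c (c (a (l 16644128) (l 16662072)) (a (l 16640104) (l 16658600))) (c (a (l 16636024) (l 16655080)) (a (l 16631896) (l 16651512))))) (a (b (c (b (l 16662544) (l 16669056)) (b (l 16655424) (l 16662424))) (c (b (l 16675488) (l 16681856)) (b (l 16669336) (l 16676168)))) (b (c (b (l 16681552) (l 16687840)) (b (l 16675632) (l 16682384))) (c (c (l 16677352) (l 16695952)) (c (l 16672584) (l 16670152)))))))), by decide +kernel⟩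

def k155_mm_202_t : ∃ t, chk3 f_mm_202_t t 28 38 1 = true :=
  ⟨(b (c (a (a (b (c (l 16494944) (l 16476648)) (c (l 16510048) (l 16493312))) (b (c (l 16524520) (l 16508232)) (c (l 16538960) (l 16524120)))) (a (b (c (l 16554392) (b (l 16536304) (l 16543920))) (c (l 16568168) (l 16555224))) (c (b (b (l 16581240) (l 16587840)) (l 16602904)) (b (b (l 16568664) (l 16575888)) (b (l 16583056) (l 16590168)))))) (a (c (a (b (l 16457816) (l 16476080)) (b (l 16491472) (l 16508840))) (a (b (l 16438448) (l 16458368)) (b (l 16474240) (l 16493136)))) (a (c (b (l 16530672) (l 16541904)) (b (b (l 16505800) (l 16514832)) (l 16528208))) (c (b (b (l 16555720) (l 16563584)) (b (l 16571384) (l 16579104))) (b (b (l 16542416) (l 16550936)) (b (l 16559376) (l 16567728))))))) (c (a (b (a (c (l 16524968) (l 16509728)) (c (l 16553208) (l 16539760))) (a (c (l 16539712) (l 16525912)) (c (l 16567304) (l 16555184)))) (a (c (b (l 16581768) (l 16595216)) (b (l 16570096) (l 16584768))) (b (c (l 16610608) (b (l 16597224) (l 16604232))) (c (l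 16623456) (l 16619928))))) (a (b (a (c (l 16494040) (l 16477912)) (c (l 16525912) (l 16511672))) (c (a (l 16511712) (l 16542712)) (a (l 16497112) (l 16529880)))) (b (a (c (l 16558096) (l 16545744)) (c (b (l 16586760) (l 16594352)) (b (l 16576000) (l 16584192)))) (a (c (l 16574024) (l 16562968)) (c (b (l 16601880) (l 16609376)) (l 16575400))))))), by decide +kernel⟩

def k156_mm_202_t : ∃ t, chk3 f_mm_202_t t 58 38 1 = true :=
  ⟨(b (c (b (a (c (b (l 16611880) (l 16618152)) (b (l 16601336) (l 16608184))) (c (b (l 16642896) (l 16648840)) (b (l 16634384) (l 16640848)))) (a (c (b (l 16624384) (l 16630576)) (b (l 16614968) (l 16621696))) (c (a (l 16650088) (l 16665304)) (a (l 16642360) (l 16658520))))) (b (a (c (b (l 16590496) (l 16597920)) (b (l 16579344) (l 16587360))) (c (a (l 16620352) (l 16637912)) (a (l 16611088) (l 16629712)))) (b (a (c (l 16605272) (l 16595304)) (c (l 16639568) (l 16631632))) (a (c (l 16612552) (l 16603152)) (c (l 16646392) (l 16638968)))))) (c (b (b (a (c (l 16636736) (l 16628376)) (a (l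 16655504) (l 16670872))) (a (c (l 16642872) (l 16635024)) (a (l 16661584) (l 16676736)))) (a (c (a (l 16644784) (l 16659080)) (a (l 16637264) (l 16652392))) (c (a (l 16673448) (l 16687808)) (a (l 16667592) (l 16682784))))) (b (a (c (a (l 16615112) (l 16631616)) (a (l 16606072) (l 16623520))) (a (b (l 16641096) (l 16648136)) (b (l 16658320) (l 16665088)))) (a (c (a (l 16629528) (l 16645512)) (a (l 16621568) (l 16638432))) (c (c (l 16650040) (l 16647200)) (c (l 16644320) (l 16641400))))))), by decide +kernel⟩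

def k157_mm_202_t : ∃ t, chk3 f_mm_202_t t 59 76 1 = true :=
  ⟨(a (a (c (b (b (a (l 16658872) (l 16667008)) (l 16674144)) (c (l 16679936) (l 16674752))) (b (c (b (l 16652240) (l 16658912)) (b (l 16644848) (l 16652016))) (c (b (l 16665488) (l 16671976)) (l 16641584)))) (c (b (c (b (l 16682248) (l 16687784)) (b (l 16676280) (l 16682256))) (c (b (l 16693256) (l 16698624)) (b (l 16688152) (l 16693928)))) (b (c (b (l 16670144) (l 16676568)) (b (l 16663824) (l 16670720))) (c (b (l 16682896) (l 16689096)) (b (l 16677496) (l 16684128)))))) (a (c (b (c (b (l 16698184) (l 16703528)) (b (l 16693232) (l 16698984))) (c (b (l 16708768) (l 16713896)) (b (l 16704616) (l 16710120)))) (b (c (b (l 16688136) (l 16694312)) (b (l 16682896) (l 16689504))) (c (b (l 16700344) (l 16706240)) (b (l 16695952) (l 16702248))))) (c (b (c (c (l 16696720) (l 16715840)) (b (l 16710264) (l 16715752))) (c (c (l 16706536) (l 16705048)) (c (l 16703536) (l 16702000)))) (b (c (c (l 16689168) (l 16687208)) (c (l 16685224) (l 16683216))) (c (c (l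 16700440) (l 16698864)) (c (l 16697264) (l 16695640))))))), by decide +kernel⟩

def k158_mm_202_t : ∃ t, chk3 f_mm_202_t t 59 77 1 = true :=
  ⟨(a (a (c (b (c (l 16691600) (l 16686608)) (c (l 16702184) (l 16697976))) (b (c (l 16660496) (l 16655216)) (c (l 16672672) (l 16668224)))) (c (b (c (b (l 16703888) (l 16709048)) (b (l 16699584) (l 16705120))) (c (b (l 16714088) (l 16719024)) (l 16692208))) (b (c (b (l 16695160) (l 16701080)) (b (l 16690600) (l 16696920))) (c (b (l 16706856) (l 16712488)) (l 16685128))))) (c (a (b (c (b (l 16718912) (l 16723824)) (b (l 16715504) (l 16720752))) (c (b (l 16728608) (l 16733280)) (b (l 16725872) (l 16730856)))) (b (c (c (l 16726392) (l 16714744)) (c (l 16713560) (l 16712360))) (c (c (l 16735296) (l 16723944)) (c (l 16723056) (l 16722160))))) (a (b (c (b (l 16711992) (l 16717600)) (b (l 16708384) (l 16714352))) (c (b (l 16723056) (l 16728368)) (b (l 16720160) (l 16725800)))) (b (c (c (l 16711144) (l 16709904)) (c (l 16708656) (l 16707384))) (c (b (l 16718280) (l 16723248))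 (b (l 16716256) (l 16721520))))))), by decide +kernel⟩

def k159_mm_202_t : ∃ t, chk3 f_mm_202_t t 28 39 1 = true :=
  ⟨(c (b (c (a (a (b (l 16554312) (l 16568792)) (b (l 16581272) (l 16595152))) (a (b (l 16608576) (l 16621744)) (b (l 16636096) (l 16648496)))) (a (b (a (l 16541904) (l 16570424)) (a (l 16557720) (l 16585528))) (b (a (l 16599296) (l 16628376)) (a (l 16613576) (l 16641776))))) (a (b (c (a (l 16583208) (l 16608856)) (a (l 16573416) (l 16600408))) (a (l 16593136) (l 16587184))) (b (a (c (l 16634688) (l 16627584)) (c (l 16660504) (l 16654720))) (a (c (l 16647184) (l 16641072)) (c (l 16672048) (l 16667136)))))) (b (a (b (c (a (l 16529128) (l 16559264)) (a (l 16516000) (l 16547784))) (c (a (l 16546320) (l 16575632)) (a (l 16534592) (l 16565448)))) (b (a (c (l 16589744) (l 16579928)) (c (l 16620432) (l 16612272))) (a (c (l 16605176) (l 16596536)) (c (l 16634864) (l 16627752))))) (a (b (a (c (l 16563336) (l 16552968)) (c (l 16591712) (l 16582768))) (a (l 16544032) (c (l 16607384) (l 16599616)))) (b (a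 (c (l 16620264) (l 16612744)) (c (l 16648776) (l 16642648))) (a (c (l 16634776) (l 16628296)) (c (l 16662080) (l 16656880))))))), by decide +kernel⟩

def k160_mm_202_t : ∃ t, chk3 f_mm_202_t t 29 78 1 = true :=
  ⟨(a (c (b (a (c (a (l 16656856) (l 16670712)) (a (l 16650304) (l 16664936))) (c (a (l 16684584) (l 16698456)) (a (l 16679576) (l 16694216)))) (a (c (l 16654280) (l 16648992)) (c (c (l 16681984) (l 16680072)) (a (l 16691080) (l 16705144))))) (b (a (c (a (l 16643568) (l 16658992)) (l 16613312)) (c (c (l 16662376) (l 16659960)) (c (l 16657512) (l 16655032)))) (a (c (a (l 16657096) (l 16671920)) (l 16637952)) (c (c (l 16674176) (l 16672152)) (c (l 16670104) (l 16668024)))))) (a (c (b (a (c (l 16712336) (l 16708848)) (b (l 16711920) (l 16716768))) (c (a (l 16701048) (l 16719624)) (b (l 16702792) (l 16707680)))) (b (c (a (l 16684288) (b (l 16717976) (l 16723304))) (a (l 16680600) (l 16696792))) (c (b (l 16700080) (l 16705272)) (a (l 16692320) (l 16710400))))) (b (b (c (a (c (l 16737832) (l 16735704)) (c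 (l 16730840) (l 16729472))) (c (a (l 16733520) (l 16728064)) (a (l 16731264) (l 16726616)))) (a (c (c (l 16742256) (l 16740416)) (b (l 16715304) (l 16717832))) (c (c (l 16734984) (l 16733864)) (c (l 16732712) (l 16731528))))) (c (c (a (c (l 16728040) (l 16727328)) (b (l 16749488) (l 16753360))) (a (c (l 16726600) (l 16725864)) (b (l 16738112) (l 16742208)))) (c (a (c (l 16725112) (l 16724360)) (b (l 16737200) (l 16752008))) (a (c (l 16723584) (l 16722808)) (b (l 16736264) (l 16740808)))))))), by decide +kernel⟩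

def k161_mm_202_t : ∃ t, chk3 f_mm_202_t t 29 79 1 = true :=
  ⟨(b (a (c (a (c (l 16665328) (l 16660848)) (c (c (l 16691832) (l 16690264)) (c (l 16688672) (l 16687056)))) (a (c (l 16656248) (l 16651512)) (c (c (l 16685416) (l 16683752)) (c (l 16682064) (l 16680360))))) (b (c (a (c (l 16714480) (l 16712424)) (a (c (l 16733792) (l 16732696)) (c (l 16757104) (l 16746152)))) (a (c (l 16710312) (l 16708136)) (c (a (l 16731568) (l 16756152)) (a (l 16730400) (l 16755656))))) (a (c (c (l 16724064) (l 16717032)) (c (l 16715192) (l 16713296))) (b (c (a (l 16736272) (l 16759648)) (a (l 16744832) (c (l 16748656) (l 16748312)))) (c (a (l 16738240) (c (l 56069427223) (l 16761248))) (a (l 16747016) (a (l 16746992) (c (l 16764312) (l 16764200))))))))) (a (c (a (c (l 16675856) (l 16672128)) (c (c (l 16701144) (l 16699888)) (c (l 16698600) (l 16697304)))) (a (c (l 16668296) (l 16664352)) (c (c (l 16695984) (l 16694648)) (c (l 16693288) (l 16691912))))) (a (b (c (c (l 16725616) (l 16721456)) (c (c (l 16720264) (l 16719464))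 (l 16718232))) (a (c (l 16720144) (l 16716880)) (c (l 16742936) (a (l 16726968) (l 16744144))))) (b (b (a (c (l 16740136) (l 16749120)) (a (c (l 16770560) (l 16759456)) (c (a (l 16775264) (a (l 16775776) (l 4))) (a (l 16764592) (c (l 127473236919) (l 130157590615)))))) (a (c (l 16742008) (l 16751192)) (a (c (l 16772320) (l 16761384)) (a (c (c (l 16776672) (l 16776640)) (c (l 16776608) (l 16755600))) (l 4))))) (b (c (a (l 16743832) (a (l 16774016) (l 257932898135))) (a (l 16753192) (a (l 49090115255) (c (l 256859151895) (l 257396019863))))) (a (c (l 16745616) (l 16755160)) (a (c (c (l 16776840) (l 16775448)) (c (l 50163839367) (l 49090096727))) (l 4)))))))), by decide +kernel⟩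

def k162_mm_202_t : ∃ t, chk3 f_mm_202_t t 60 72 1 = true :=
  ⟨(a (a (c (b (c (b (l 16641008) (l 16647272)) (b (l 16630504) (l 16637360))) (c (b (l 16653432) (l 16659480)) (b (l 16644088) (l 16650704)))) (b (c (b (l 16619696) (l 16627160)) (b (l 16608584) (l 16616672))) (c (b (l 16634480) (l 16641664)) (b (l 16624600) (l 16632376))))) (c (b (c (b (l 16659776) (l 16665872)) (b (c (l 16653024) (l 16648440)) (c (l 16659536) (l 16655240)))) (c (b (l 16671856) (l 16677744)) (b (l 16666552) (l 16672968)))) (b (c (b (l 16644072) (l 16651304)) (b (l 16637144) (l 16644968))) (c (b (l 16658400) (l 16666672)) (b (l 16652640) (l 16657536)))))) (c (b (c (a (b (c (l 16680328) (l 16676600)) (c (l 16686128) (l 16682656))) (b (c (l 16698664) (l 16695656)) (c (l 16704312) (l 16701544)))) (a (b (c (l 16672816) (l 16668976)) (c (l 16679144) (l 16675568))) (b (c (l 16692600) (l 16689496)) (c (l 16698744) (l 16695896))))) (c (a (b (c (l 16691824) (l 16688616)) (c (l 16697424) (l 16694456))) (c (b (l 16709856) (l 16715296)) (b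 (l 16707328) (l 16713008)))) (a (b (c (l 16685352) (l 16682040)) (c (l 16691448) (l 16688392))) (c (b (l 16704768) (l 16710680)) (b (l 16702168) (l 16708312)))))) (b (c (a (b (c (l 16665080) (l 16661136)) (c (l 16671952) (l 16668280))) (c (b (l 16686360) (l 16693008)) (b (l 16683168) (l 16690088)))) (a (b (c (l 16657136) (l 16653080)) (c (l 16664560) (l 16660792))) (c (b (l 16679944) (l 16687120)) (b (l 16676664) (l 16684112))))) (b (a (c (c (l 16678688) (l 16675288)) (c (l 16671840) (l 16668344))) (c (c (l 16699528) (l 16696856)) (a (l 16687104) (l 16698448)))) (a (c (c (l 16685296) (l 16682152)) (c (l 16678968) (l 16675736))) (c (a (l 16699456) (l 16709960)) (a (l 16694176) (l 16705392)))))))), by decide +kernel⟩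

def k163_mm_202_t : ∃ t, chk3 f_mm_202_t t 60 73 2 = true :=
  ⟨(a (b (c (a (b (l 16665432) (l 16671280)) (b (l 16683528) (l 16689208))) (b (a (l 16657192) (l 16679264)) (a (l 16663560) (l 16685440)))) (c (a (b (l 16677016) (l 16682648)) (b (l 16700024) (l 16702872))) (b (a (l 16669808) (l 16691496)) (a (l 16675936) (l 16697424))))) (b (a (c (b (c (l 16702928) (l 16700200)) (c (l 16708328) (l 16705824))) (b (c (l 16697424) (l 16694616)) (c (l 16703288) (l 16700712)))) (c (b (a (l 16715096) (l 16724128)) (a (l 16720488) (l 16729440))) (b (a (l 16710560) (l 16720256)) (a (l 16716392) (l 16726000))))) (a (c (c (b (l 16713632) (l 16718832)) (b (l 16711352) (l 16716760))) (c (b (l 16709040) (l 16714664)) (b (l 16706688) (l 16712544)))) (c (a (b (l 16725776) (l 16730960)) (b (l 16734648) (l 16729264))) (a (b (l 16722112) (l 16727704)) (b (l 16731624) (l 16737120))))))), by decide +kernel⟩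

def k164_mm_202_t : ∃ t, chk3 f_mm_202_t t 60 73 3 = true :=
  ⟨(a (b (c (b (a (l 16648712) (c (l 16671352) (l 16667752))) (a (l 16655624) (c (l 16677904) (l 16674568)))) (b (a (l 16640000) (l 16664896)) (a (l 16647464) (c (l 16671192) (l 16667760))))) (c (b (a (l 16662400) (c (l 16684328) (l 16681240))) (a (l 16669032) (c (l 16690616) (l 16687776)))) (a (b (l 16654776) (l 16661928)) (c (b (l 16678112) (l 16684888)) (b (l 16674944) (l 16681968)))))) (b (c (a (c (b (l 16691768) (l 16698104)) (b (l 16688872) (l 16695456))) (a (b (l 16705888) (l 16712184)) (b (l 16716272) (l 16722456)))) (a (c (b (l 16685944) (l 16692768)) (b (l 16682968) (l 16690048))) (a (b (l 16701088) (l 16707848)) (b (l 16712184) (l 16718816))))) (a (c (b (a (l 16698024) (l 16708184)) (a (l 16704272) (l 16714312))) (b (a (l 16692792) (l 16703624)) (a (l 16699504) (l 16710208)))) (a (b (c (l 16718336) (l 16714456)) (c (l 16724360) (l 16720912))) (c (b (l 16718016) (l 16723928)) (b (l 16714816) (l 16721144))))))), by decide +kernel⟩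

def k165_mm_202_t : ∃ t, chk3 f_mm_202_t t 122 288 1 = true :=
  ⟨(c (a (c (a (l 16711216) (l 16723240)) (a (l 16706200) (l 16718944))) (a (c (b (l 16728664) (l 16731432)) (b (l 16724976) (l 16727976))) (c (b (l 16738152) (l 16740880)) (b (l 16735200) (l 16738144))))) (a (a (c (l 16701032) (l 16695728)) (c (c (l 16713024) (l 16710784)) (c (l 16708512) (l 16706216)))) (a (c (c (l 16723736) (l 16721880)) (b (l 16717296) (l 16720768))) (b (c (l 16732160) (l 16729040)) (c (l 16735336) (l 16732448)))))), by decide +kernel⟩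

def k166_mm_202_t : ∃ t, chk3 f_mm_202_t t 123 288 1 = true :=
  ⟨(b (a (c (c (a (l 16747712) (a (l 16754936) (l 16759784))) (a (l 16745488) (a (l 16753264) (l 16758472)))) (c (a (l 16732712) (a (l 16751536) (l 16757128))) (a (l 16730360) (a (l 16749768) (l 16755744))))) (a (a (c (c (l 16759408) (l 16763712)) (c (l 16752256) (l 16751264))) (c (c (l 16764304) (l 16758488)) (c (l 16763136) (l 16762536)))) (a (b (c (l 16768448) (c (l 16762816) (l 16762544))) (c (c (b (l 16764288) (l 16772088)) (l 69491215495)) (a (l 16769968) (a (l 16772816) (c (l 16776736) (l 16776696)))))) (a (c (b (a (a (l 16776544) (l 16778328)) (c (l 133915740247) (l 135526352983))) (c (l 233773728375) (l 161296157367))) (c (b (a (l 16776688) (l 131231385831)) (l 294440139895)) (a (b (l 16776648) (l 141431933127)) (l 305177554199)))) (l 4))))) (a (c (c (a (l 16739912) (a (l 16757592) (l 16762416))) (a (l 16748384) (a (l 16756128) (l 16761312)))) (c (a (l 16735832) (b (l 16746144) (l 16747672))) (a (l 16733704) (c (l 16745888) (l 16745200)))))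 (a (c (c (c (l 16761976) (l 16761704)) (c (l 16758800) (l 16758512))) (a (c (l 16760520) (l 16754496)) (c (l 16766136) (l 16765736)))) (a (a (c (b (l 16769848) (c (l 16776328) (l 16776256))) (a (b (l 16768808) (l 16770336)) (b (l 16770264) (c (l 16776816) (l 24930942039))))) (b (a (c (a (l 16776648) (l 16778376)) (c (l 16776776) (l 15804136487))) (c (a (l 126936418823) (l 4)) (c (l 151632480311) (l 153779963975)))) (b (c (l 171496704471) (l 320746812583)) (l 4)))) (l 4))))), by decide +kernel⟩

def k167_mm_202_t : ∃ t, chk3 f_mm_202_t t 122 289 1 = true :=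
  ⟨(c (a (c (a (l 16716864) (b (l 16724800) (l 16727560))) (a (l 16712320) (l 16724976))) (c (a (b (l 16734176) (l 16736888)) (b (l 16743584) (l 16746256))) (a (b (l 16730944) (l 16733880)) (b (l 16741064) (l 16743952))))) (a (a (c (l 16707648) (l 16702848)) (c (c (l 16719408) (l 16717408)) (b (l 16712624) (l 16716088)))) (a (c (c (l 16730016) (l 16728384)) (b (l 16724200) (l 16727600))) (b (c (l 16738472) (l 16735816)) (c (l 16741584) (l 16739144)))))), by decide +kernel⟩

def k168_mm_202_t : ∃ t, chk3 f_mm_202_t t 123 289 1 = true :=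
  ⟨(b (a (a (c (c (l 16745192) (l 16740768)) (c (l 16738920) (l 16737008))) (c (c (c (l 16752408) (l 16751872)) (c (l 16751328) (l 16750776))) (c (c (l 16750224) (l 16749656)) (c (l 16749080) (l 16748504))))) (a (a (c (c (l 16764616) (l 16758832)) (c (l 16763512) (l 16757688))) (c (b (l 16768712) (a (l 16768784) (c (l 16776416) (l 16776352)))) (c (b (l 16763112) (c (l 16769760) (l 16770992))) (b (l 16762872) (b (l 16764016) (c (l 16771288) (l 78618022519))))))) (a (a (b (a (c (c (l 16776912) (l 16776888)) (c (l 16778168) (c (l 16776840) (l 16776824)))) (c (l 157001190071) (c (l 181160380295) (l 174181058487)))) (c (l 253637952215) (c (l 329336747911) (l 322894292567)))) (l 4)) (l 4)))) (a (a (c (c (l 16747832) (l 16743608)) (c (l 16744592) (l 16740280))) (c (c (c (l 16754952) (l 16754512)) (c (l 16754072) (l 16753624))) (c (c (l 16753168) (l 16752704)) (c (l 16752232) (l 16751760))))) (a (a (c (c (l 16767184) (l 16761584)) (c (l 16766464) (l 16766088))) (b (c (a (l 16770104) (a (a (l 16776824) (l 68954360487))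 (l 178476026359))) (a (l 16771792) (a (b (l 16775768) (a (l 16777072) (l 4))) (c (l 199413991143) (l 204782700215))))) (a (c (c (l 16776504) (l 16776448)) (a (l 16773240) (b (l 49627002711) (a (l 16777056) (l 4))))) (l 4)))) (l 4)))), by decide +kernel⟩

def k169_mm_202_t : ∃ t, chk3 f_mm_202_t t 61 290 1 = true :=
  ⟨(a (a (a (c (c (l 16722408) (l 16718328)) (c (l 16716752) (l 16709816))) (c (c (b (l 16730288) (l 16732992)) (b (l 16726792) (l 16729720))) (c (c (l 16725656) (l 16723896)) (b (l 16719504) (l 16722888))))) (c (c (a (b (l 16739576) (l 16742240)) (c (l 16740224) (l 16739248))) (a (b (l 16736784) (l 16739664)) (b (l 16746816) (l 16749640)))) (c (c (a (l 16736160) (l 16736216)) (a (l 16734760) (l 16735176))) (a (b (l 16730952) (l 16734272)) (c (l 16734120) (l 16733048)))))) (a (a (c (c (b (l 16750440) (l 16753024)) (b (l 16746424) (l 16749200))) (c (c (c (l 16746984) (l 16746648)) (l 16746144)) (b (l 16743512) (l 16746704)))) (c (c (b (c (l 16757472) (l 16757136)) (a (l 16757480) (l 16767464))) (b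 (c (l 16756784) (l 16756432)) (c (l 16759472) (l 16759216)))) (c (c (b (l 16756080) (l 16758960)) (a (l 16754432) (l 16759992))) (b (c (l 16755352) (l 16754976)) (a (l 16755384) (l 16761208)))))) (a (a (b (b (c (l 16768984) (c (l 16763416) (l 16763192))) (a (c (l 16774296) (l 16768624)) (c (c (l 16777896) (l 16776536)) (a (l 16773376) (c (c (l 16777008) (l 16776912)) (c (l 16776816) (l 16776712))))))) (a (c (b (l 16770352) (c (c (l 16776680) (l 16776656)) (l 16776624))) (a (c (l 16770208) (l 16770088)) (b (l 16773440) (c (c (l 16776936) (l 16776768)) (c (l 16776608) (l 16776448)))))) (a (b (c (c (l 16777088) (l 16777064)) (c (c (l 16776976) (l 16776848)) (c (l 16776720) (l 16776584)))) (l 4)) (l 4)))) (a (b (b (a (b (c (l 16776904) (l 45332035927)) (a (c (l 16777160) (l 16776984)) (l 4))) (l 4)) (l 4)) (l 4)) (l 4))) (l 4)))), by decide +kernel⟩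

def k170_mm_202_t : ∃ t, chk3 f_mm_202_t t 61 291 1 = true :=
  ⟨(a (a (a (c (c (l 16727848) (l 16724208)) (c (a (l 16717840) (l 16723104)) (l 16706144))) (c (c (b (l 16735672) (l 16738328)) (b (l 16732616) (l 16735480))) (c (c (l 16731776) (l 16730240)) (b (l 16726232) (l 16729536))))) (a (c (c (b (l 16744880) (l 16747496)) (b (l 16742504) (l 16745328))) (c (b (l 16740064) (l 16743096)) (b (l 16737552) (l 16740800)))) (c (c (b (l 16743648) (l 16746216)) (c (l 16743744) (l 16742936))) (c (c (l 16742120) (l 16741288)) (b (l 16738432) (l 16741608)))))) (a (a (c (c (b (c (l 16753208) (l 16752712)) (c (l 16755696) (l 16755288))) (b (l 16751952) (l 16754680))) (c (c (b (l 16751184) (l 16754048)) (b (l 16750656) (l 16753624))) (b (c (l 16750128) (l 16749592)) (c (l 16753192) (l 16752760))))) (a (c (c (b (l 16760008) (l 16762504)) (b (l 16759512) (l 16762200))) (c (c (l 16760560) (l 16760352)) (b (l 16758496) (l 16761568)))) (b (b (c (l 53921958263) (c (l 16763712) (l 16763504))) (c (a (l 16774568) (c (c (l 16776760)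 (l 16776736)) (l 16776704))) (a (l 16768944) (c (a (l 16776280) (l 64659393047)) (a (l 16776216) (l 70564967767)))))) (a (c (b (l 16770584) (c (c (l 16776832) (l 16776816)) (l 16778096))) (b (c (l 16775680) (l 16775576)) (a (c (l 16776400) (l 16776344)) (c (l 80765520295) (l 85060487559))))) (a (b (c (c (l 16777208) (l 16777120)) (c (l 70564973079) (l 256859174119))) (l 4)) (l 4)))))) (a (b (b (a (c (b (c (l 213372631095) (l 227868147847)) (l 251490468839)) (c (l 291755781495) (b (l 286387068983) (l 313767482647)))) (l 4)) (l 4)) (l 4)) (l 4)))), by decide +kernel⟩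

def k171_mm_202_t : ∃ t, chk3 f_mm_202_t t 244 73 1 = true :=
  ⟨(c (a (b (c (b (l 16735800) (b (l 16737112) (l 16739704))) (b (l 16729976) (l 16725136))) (b (c (b (l 16742264) (l 16744808)) (l 16730664)) (c (b (l 16747320) (l 16749800)) (l 16736064)))) (b (c (b (b (l 16740952) (l 16743552)) (b (l 16746128) (l 16748680))) (b (b (l 16738312) (l 16741120)) (b (l 16743896) (l 16746640)))) (c (b (b (l 16751200) (l 16753704)) (c (l 16747248) (l 16746568))) (b (b (l 16749352) (l 16752040)) (a (l 16753640) (l 16747896)))))) (b (c (b (c (a (l 16727512) (l 16737768)) (a (l 16725840) (l 16736448))) (c (b (l 16726600) (l 16729520)) (b (l 16714776) (l 16717808)))) (b (a (l 16712808) (b (l 16732808) (l 16736040))) (a (b (l 16728192) (l 16731408)) (b (l 16739232) (l 16742384))))) (b (c (c (c (l 16728872) (l 16728336)) (b (l 16720800) (l 16723752))) (a (b (l 16734584) (l 16737728)) (b (l 16745496) (l 16748576)))) (c (c (a (l 16745008) (l 16744464)) (a (l 16743960) (l 16733248))) (a (b (l 16740832) (l 16743896)) (c (l 16743008)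 (l 16742264))))))), by decide +kernel⟩

def k172_mm_202_t : ∃ t, chk3 f_mm_202_t t 245 73 1 = true :=
  ⟨(a (b (c (c (b (b (l 16750080) (l 16752640)) (c (l 16746312) (l 16745584))) (b (b (l 16748112) (l 16750872)) (c (l 16744840) (l 16744088)))) (c (b (b (l 16746088) (l 16749048)) (c (l 16743320) (l 16742544))) (b (c (l 16735608) (l 16734600)) (b (l 16739816) (l 16742904))))) (c (b (c (b (l 16749688) (l 16752144)) (b (l 16748480) (l 16751120))) (c (b (l 16754576) (l 16756984)) (b (l 16753728) (l 16756304)))) (c (b (c (l 16748944) (l 16748360)) (c (l 16754432) (l 16754032))) (b (b (l 16745960) (l 16748976)) (b (l 16751952) (l 16754888)))))) (b (c (b (c (b (l 16748768) (l 16751288)) (b (l 16747464) (l 16750176))) (b (c (l 16753784) (l 16752856)) (c (l 16761496) (l 16755504)))) (b (c (c (l 16747896) (l 16747264)) (b (l 16744752) (l 16747856))) (c (c (l 16753544) (l 16753104)) (b (l 16750920) (l 16753952))))) (b (c (c (b (l 16761312) (l 16763736)) (b (l 16758128) (l 16760720))) (c (c (l 16760368) (l 16758800))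 (b (l 16756944) (l 43721394183)))) (a (c (b (c (l 16761264) (l 16760888)) (c (l 16763640) (l 16763424))) (c (b (l 16760496) (l 16763200)) (b (l 16760088) (l 16762976)))) (b (b (c (c (l 16775528) (l 16775408)) (c (l 77544280311) (l 76470537895))) (a (c (l 16775640) (l 16770184)) (a (c (l 16777040) (b (l 16776920) (l 102777227159))) (l 4)))) (a (b (c (c (l 16776672) (l 16776632)) (c (l 16776584) (l 16776544))) (a (c (l 16776960) (c (l 16776576) (l 16776320))) (l 4))) (l 4))))))), by decide +kernel⟩

def k173_mm_202_t : ∃ t, chk3 f_mm_202_t t 246 146 1 = true :=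
  ⟨(b (a (c (c (b (c (l 16758152) (l 16757840)) (c (l 16760592) (l 16760368))) (b (l 16757368) (l 16762656))) (c (c (b (l 16756888) (l 16759688)) (b (l 16756552) (l 16759456))) (b (c (l 16756224) (l 16755888)) (c (l 16759216) (l 16758976))))) (b (a (c (a (b (l 16763072) (l 16774832)) (b (l 16775944) (a (l 16776576) (l 94187293703)))) (b (c (l 16769240) (l 16763808)) (b (c (l 80765507079) (l 79154893767)) (a (l 16764376) (a (l 16776816) (l 4)))))) (a (a (b (c (l 85597357911) (c (l 88281713031) (l 87207971303))) (l 4)) (l 4)) (l 4))) (a (a (c (b (l 16776048) (a (l 16776672) (l 108682808247))) (b (c (l 16775928) (l 16775840)) (a (c (l 16776616) (l 16776568)) (c (l 110830291239) (l 116735871207))))) (a (b (c (l 100092873735) (c (l 101703485799) (l 102777227671))) (l 4)) (l 4))) (l 4)))) (a (b (b (c (a (l 16759784) (c (l 16769824) (l 16774920))) (a (l 16764040) (c (l 16769512) (l 16769352)))) (c (a (l 16761056) (a (l 16775104) (a (l 16776768) (l 123178322823)))) (a (l 16765496) (a (l 16769568) (a (c (l 16776712)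 (l 16776680)) (c (l 132841998439) (l 131768256695))))))) (a (c (c (l 16763080) (l 16762816)) (c (l 16762552) (l 16762280))) (a (b (c (l 16776264) (c (l 16776160) (l 16776088))) (c (c (l 51774489239) (l 51237621031)) (c (c (l 16776568) (l 16778344)) (c (l 125325789703) (l 126399531159))))) (c (c (l 234847470439) (l 304640685223)) (c (l 309472519239) (l 297124484071)))))) (b (b (b (a (c (l 264375369703) (b (l 306251297495) (l 316988709175))) (l 4)) (l 4)) (l 4)) (l 4)))), by decide +kernel⟩

def k174_mm_202_t : ∃ t, chk3 f_mm_202_t t 246 147 1 = true :=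
  ⟨(a (b (a (c (b (a (l 16770824) (b (l 16777024) (c (l 61438165623) (l 62511910103)))) (b (a (c (l 16776488) (l 16776440)) (l 183844736103)) (c (l 216056984967) (l 274039042727)))) (b (b (c (l 16771096) (l 58753793975)) (a (l 16769880) (c (c (l 16776360) (l 244511142503)) (a (l 16776872) (l 187065960263))))) (b (a (c (l 16776384) (l 16776320)) (l 313767485639)) (c (l 275112781191) (l 274039041255))))) (a (b (b (c (l 173107318023) (l 308935648199)) (l 4)) (l 4)) (l 4))) (l 4)) (l 4)), by decide +kernel⟩

def k175_mm_202_t : ∃ t, chk3 f_mm_202_t t 247 73 1 = true :=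
  ⟨(l 4), by decide +kernel⟩

def k176_mm_202_t : ∃ t, chk3 f_mm_202_t t 60 74 2 = true :=
  ⟨(a (b (b (a (c (l 16688192) (l 16681952)) (c (l 16708248) (l 16703248))) (a (c (l 16693664) (l 16687888)) (c (c (l 16712056) (l 16709808)) (l 16709648)))) (b (c (a (l 16699072) (c (l 16717200) (l 16715160))) (a (l 16693744) (a (l 16707472) (l 16716592)))) (a (c (l 16704424) (l 16699536)) (c (a (l 16717144) (l 16725592)) (a (l 16713112) (l 16722136)))))) (b (a (c (b (a (l 16718664) (l 16727352)) (a (l 16723848) (l 16732456))) (b (a (l 16714584) (l 16723888)) (a (l 16720184) (l 16729392)))) (a (b (c (l 16736048) (l 16733192)) (b (l 16728064) (l 16730656))) (b (c (l 16734280) (l 16732024)) (c (l 16740536) (l 16737352))))) (a (c (b (a (l 16728976) (l 16737504)) (c (l 16728432) (l 16727144))) (b (a (l 16725704) (l 16734816)) (c (l 16715360) (l 16735008)))) (a (b (b (l 16733232) (l 16735784)) (c (l 16740448) (l 16738696))) (c (b (l 16745416) (a (l 16757264) (l 16751000))) (b (l 16742576) (l 16747704))))))), by decide +kernel⟩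

def k177_mm_202_t : ∃ t, chk3 f_mm_202_t t 60 75 2 = true :=
  ⟨(a (b (b (a (c (l 16709720) (l 16705248)) (c (a (l 16722320) (l 16730688)) (a (l 16718696) (l 16727616)))) (c (a (l 16714976) (a (l 16727432) (l 16735712))) (a (l 16710912) (a (l 16724192) (l 16733008))))) (a (c (b (l 16720152) (l 16714760)) (b (l 16716480) (l 16721952))) (c (b (a (l 16732464) (l 16740616)) (a (l 16737376) (l 16745408))) (b (l 16719520) (l 16723408))))) (b (b (a (c (b (l 16731512) (l 16733968)) (c (l 16720576) (l 16719440))) (a (c (l 16745240) (l 16743824)) (c (c (l 16753768) (l 16753336)) (l 16752688)))) (a (c (b (l 16736392) (l 16738784)) (c (l 16725688) (l 16724728))) (c (a (l 16749904) (b (l 16756968) (l 16759208))) (a (l 16748808) (l 16757536))))) (b (a (c (b (l 16741144) (l 16743480)) (b (l 16729016) (l 16731512))) (b (a (l 16752896) (c (l 16761416) (l 16750592))) (a (l 16757824) (a (l 16761424) (a (l 16775016) (c (l 16778064) (l 16776720))))))) (a (c (b (l 16745784) (l 16748056)) (b (l 16733968) (l 16746880))) (a (c (l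 16761480) (l 16758368)) (a (b (l 16763656) (a (l 16775312) (b (l 16776648) (l 16778440)))) (b (a (c (l 16778808) (l 16776808)) (b (l 183307865047) (l 4))) (l 4)))))))), by decide +kernel⟩

def k178_mm_202_t : ∃ t, chk3 f_mm_202_t t 60 74 3 = true :=
  ⟨(a (b (a (c (b (l 16675536) (l 16681944)) (b (l 16668944) (l 16675840))) (c (c (b (l 16696784) (l 16702856)) (b (l 16694176) (l 16700472))) (b (a (l 16684888) (l 16695488)) (a (l 16691600) (l 16702064))))) (b (c (a (l 16688264) (a (l 16702896) (l 16712624))) (a (l 16682632) (a (l 16698200) (l 16708544)))) (c (a (l 16694496) (a (l 16708968) (l 16718584))) (a (l 16689328) (a (l 16704704) (l 16714920)))))) (b (a (c (b (a (l 16710384) (l 16720320)) (a (l 16716408) (l 16726224))) (b (a (l 16706072) (l 16716648)) (a (l 16712528) (l 16722976)))) (c (b (c (a (l 16731000) (l 16740784)) (l 16718832)) (a (l 16725568) (b (l 16744472) (l 16747304)))) (a (b (l 16727232) (l 16722952)) (b (l 16727336) (l 16733424))))) (a (c (b (b (l 16725736) (l 16707680)) (c (l 16712696) (l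 16711344))) (b (c (l 16703872) (l 16702272)) (b (l 16707728) (l 16710800)))) (a (c (b (l 16731280) (l 16736888)) (b (l 16729056) (l 16735032))) (c (b (b (l 16750104) (l 16752872)) (a (l 16754568) (l 16748872))) (b (b (l 16748392) (l 16751344)) (c (l 16756024) (l 16734416)))))))), by decide +kernel⟩

def k179_mm_202_t : ∃ t, chk3 f_mm_202_t t 60 75 3 = true :=
  ⟨(a (b (b (c (a (l 16700648) (a (l 16714960) (l 16724456))) (a (l 16695920) (a (l 16711120) (l 16721208)))) (c (a (l 16696240) (a (l 16720848) (l 16730224))) (a (l 16681456) (a (l 16717416) (l 16727368))))) (a (c (b (l 16702216) (l 16697592)) (b (l 16687848) (l 16694112))) (c (b (a (l 16726632) (l 16735856)) (a (l 16732264) (l 16741328))) (b (a (l 16723584) (l 16733368)) (a (l 16729592) (l 16739200)))))) (b (b (a (c (c (l 16718280) (l 16717112)) (b (l 16713832) (l 16716832))) (a (c (l 16742368) (l 16740872)) (c (c (l 16741536) (l 16741088)) (c (l 16740624) (l 16740160))))) (a (c (c (l 16723752) (l 16722760)) (b (l 16719792) (l 16722704))) (c (a (l 16747688)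 (c (l 16746624) (l 16746328))) (a (l 16746528) (c (l 16746032) (l 16756216)))))) (a (b (c (c (l 16739552) (l 16728248)) (b (l 16725584) (l 16728408))) (c (c (l 16744712) (l 16733576)) (a (l 16727800) (l 16747824)))) (a (c (b (c (l 16742568) (l 16742160)) (c (l 16747496) (l 16747240))) (b (l 16752016) (b (l 16745536) (l 16748144)))) (b (b (c (l 16760728) (l 16749880)) (b (c (l 16762544) (l 16762288)) (a (l 16761384) (a (l 16775360) (c (l 16775936) (l 16775648)))))) (a (b (c (l 16773848) (l 16752680)) (a (l 16771144) (a (b (l 16776184) (l 223573176759)) (b (l 16778128) (l 4))))) (a (b (b (l 49090116935) (l 247195496487)) (l 4)) (c (l 298198218215) (l 294976988343))))))))), by decide +kernel⟩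

def k180_mm_202_t : ∃ t, chk3 f_mm_202_t t 244 74 1 = true :=
  ⟨(b (b (a (c (c (b (l 16752264) (l 16754712)) (l 16741368)) (c (b (l 16748752) (l 16751568)) (b (l 16746920) (l 16749928)))) (c (c (b (l 16750560) (l 16752968)) (c (l 16750992) (l 16750472))) (c (c (l 16749944) (l 16749400)) (b (l 16747104) (l 16750040))))) (c (a (c (c (l 16748184) (l 16758040)) (a (l 16754760) (l 16748896))) (a (c (l 16759616) (l 16753528)) (c (l 16762640) (l 16758160)))) (a (c (a (l 16742792) (l 16747728)) (c (l 16733760) (l 16733064))) (c (c (l 16755312) (l 16754944)) (b (l 16752952) (l 16755832)))))) (b (c (c (a (c (l 16752888) (l 16752424)) (b (l 16760056) (a (l 16760224) (l 16769672)))) (a (c (l 16751944) (l 16740976)) (b (l 16759608) (l 51237593847)))) (c (a (c (l 16740488) (l 16740000)) (b (l 16759144) (a (l 16748856) (l 57680052727)))) (a (b (l 16737800) (l 16740672)) (a (l 16760104) (b (l 16750776) (l 56606310423)))))) (a (c (b (c (l 16756168) (l 16744976)) (c (l 16758472) (l 16757920))) (a (c (l 16753656) (l 16752848))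 (c (l 16761064) (l 16760552)))) (a (c (b (l 16767616) (c (l 16775168) (l 16775024))) (b (c (l 16751456) (l 16751160)) (b (l 16763784) (c (l 16775496) (l 16764904))))) (b (a (c (b (l 16775560) (l 16776568)) (c (l 16775904) (l 16770576))) (b (c (l 70028102183) (c (l 69491231895) (l 70564931847))) (l 4))) (b (c (l 272965299383) (c (l 270817811607) (l 270280937959))) (l 4))))))), by decide +kernel⟩

def k181_mm_202_t : ∃ t, chk3 f_mm_202_t t 245 74 1 = true :=
  ⟨(a (b (c (b (b (c (l 16759368) (l 16758856)) (c (a (l 16759536) (l 16763904)) (l 16763992))) (b (a (l 16766968) (b (c (l 16777104) (l 16775864)) (a (l 16776136) (l 129083903511)))) (a (c (l 16769416) (l 16764000)) (c (c (l 238605564199) (l 257932915463)) (l 267059718631))))) (b (c (b (l 16758336) (a (l 16758536) (l 16768752))) (b (l 16757800) (a (l 16747528) (l 16763304)))) (b (a (c (l 16761216) (l 16750384)) (a (c (l 16764896) (l 16764776)) (b (a (l 16776536) (b (l 16776400) (l 4))) (c (l 132841999239) (l 133915741111))))) (c (a (l 16769064) (c (l 266522845367)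 (l 265985972887))) (a (l 16768880) (b (l 259543525991) (l 296587608775))))))) (b (a (b (a (c (b (l 16775272) (l 16776360)) (c (l 16765160) (l 16765064))) (c (b (c (l 16776912) (l 16776688)) (l 159148674231)) (c (l 250953592007) (b (c (l 16776296) (l 16761768)) (l 173644188119))))) (c (c (l 267059720663) (l 271891555479)) (b (a (c (l 57143190519) (l 59827545095)) (l 4)) (l 304103814855)))) (l 4)) (l 4))) (b (a (b (b (b (c (c (l 16775744) (l 16775640)) (a (l 16763872) (c (l 16776680) (c (l 16776656) (l 16776632))))) (a (c (l 16775896) (l 16770472)) (a (c (l 16776848) (b (l 16776880) (l 152169350855))) (l 4)))) (b (a (c (c (l 16776840) (l 16776808)) (c (l 16778088) (c (l 16776752) (l 16776728)))) (l 4)) (c (l 290145169447) (c (l 285850196327) (l 283702708807))))) (l 4)) (l 4)) (l 4))), by decide +kernel⟩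

def k182_mm_202_t : ∃ t, chk3 f_mm_202_t t 122 75 1 = true :=
  ⟨(a (a (b (b (c (a (c (l 16759784) (l 16759328)) (b (l 16767944) (c (l 16775408) (l 16775288)))) (b (c (l 16759944) (l 16759520)) (b (c (l 16761848) (l 16761544)) (a (l 16760592) (c (l 16775752) (l 16775656)))))) (b (a (c (l 16763016) (c (l 16752176) (l 16751928))) (a (c (c (l 16776480) (l 16776424)) (b (l 16770696) (c (l 16776888) (l 16776856)))) (a (b (c (l 16776384) (l 126399542247)) (l 4)) (l 4)))) (c (a (a (l 16774720) (c (l 16776576) (l 16776528))) (l 287460814615)) (a (b (l 16769672) (a (l 16775032) (c (l 16776672) (l 16776568)))) (c (l 292829512391) (l 282092090087)))))) (a (b (b (a (b (c (l 16776328) (l 16776208)) (c (l 16776616) (a (l 16776816) (l 128547001479)))) (a (b (c (l 16775872) (l 128010131271)) (l 4)) (l 4))) (b (c (l 300345711799) (l 295513866615)) (l 4))) (l 4)) (l 4))) (b (b (a (b (a (c (b (l 16775832) (l 16776760)) (b (l 16765160) (c (l 16776704) (l 16776664)))) (b (c (l 91502939911) (c (l 96334777303) (l 95797906503)))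 (l 4))) (b (c (l 279407749063) (b (l 274575911847) (l 299271965015))) (l 4))) (l 4)) (l 4)) (l 4))) (l 4)), by decide +kernel⟩

def k183_mm_202_t : ∃ t, chk3 f_mm_202_t t 123 37 1 = true :=
  ⟨(l 4), by decide +kernel⟩

def k184_mm_202_t : ∃ t, chk3 f_mm_202_t t 31 18 1 = true :=
  ⟨(l 4), by decide +kernel⟩

def k185_mm_202_t : ∃ t, chk3 f_mm_202_t t 240 19 1 = true :=
  ⟨(b (b (c (b (b (c (l 16719744) (l 16727296)) (c (l 16724608) (l 16711536))) (c (b (l 16729360) (l 16733984)) (b (l 16716616) (l 16721560)))) (b (c (b (l 16703304) (l 16719360)) (b (l 16700208) (l 16706136))) (c (b (l 16724776) (l 16730040)) (b (l 16711904) (l 16717504))))) (b (c (c (b (l 16738496) (l 16742872)) (b (l 16726360) (l 16731024))) (c (b (l 16735152) (l 16734864)) (b (l 16722928) (l 16738664)))) (b (c (c (l 16747128) (l 16746032)) (c (l 16742280) (l 16738496))) (c (c (l 16751256) (l 16750408)) (c (c (l 16739264) (l 16738824)) (l 16746008)))))) (b (b (c (b (c (l 16754592) (l 16754632)) (a (c (l 16745232) (l 16744648)) (b (l 16761424)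 (l 16768536)))) (b (b (c (l 16742408) (l 16741696)) (c (l 16744600) (l 16744008))) (c (a (l 16744056) (l 49090109495)) (a (l 16743440) (l 48016366551))))) (a (c (b (b (l 16747880) (l 16770760)) (c (l 57143175687) (l 16762912))) (b (c (l 16748272) (l 16747880)) (b (l 16761688) (c (l 16774176) (l 16774032))))) (a (c (b (b (l 16773984) (l 16775736)) (b (a (l 16776640) (l 140895064791)) (l 268670322935))) (c (b (l 16764168) (b (l 127473265495) (l 130157577959))) (b (l 16764040) (b (l 129620727415) (l 266522833495))))) (b (b (c (a (l 16776424) (l 116735874007)) (c (l 126936397063) (l 129083880087))) (a (b (c (l 16775080) (l 129083871559)) (l 4)) (l 4))) (l 4))))) (b (a (c (c (b (a (l 16775432) (l 243974265639)) (l 256322300871)) (b (a (l 16775344) (b (l 82913006407) (l 136600029623))) (l 255248550343))) (b (b (a (l 16763904) (c (l 127473241911) (l 129620724871))) (a (b (l 16775800) (l 49090108455)) (l 277797121591))) (b (c (l 252564188903) (l 253637928135)) (l 4)))) (l 4)) (l 4)))), by decide +kernel⟩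

def k186_mm_202_t : ∃ t, chk3 f_mm_202_t t 241 19 1 = true :=
  ⟨(b (b (c (c (c (b (b (l 16725640) (l 16730176)) (b (l 16734600) (l 16749384))) (b (b (l 16745656) (l 16729376)) (b (l 16733944) (l 16738384)))) (b (b (l 16728472) (l 16736024)) (b (l 16740816) (b (l 16736448) (l 16738736))))) (c (b (b (a (l 16737744) (l 16746656)) (c (l 16726912) (l 16726064))) (c (b (l 16731928) (l 16736792)) (b (l 16731240) (l 16736248)))) (b (b (c (l 16719704) (l 16718664)) (b (l 16723392) (l 16726144))) (b (b (l 16728848) (l 16731512)) (b (l 16734128) (l 16736704)))))) (a (c (b (b (c (l 16739176) (l 16759152)) (c (l 16753840) (l 16742616))) (b (c (l 16757888) (l 16746904)) (c (l 16761792) (l 16761520)))) (b (c (b (l 16737160) (l 16741864)) (b (l 16736112) (l 16741080))) (b (c (l 16756880) (l 16745872)) (c (l 16761240) (l 16760952))))) (b (c (b (c (l 16757048) (l 16746000)) (c (l 16761088) (l 16760760))) (c (b (l 16755904) (l 16760432)) (b (l 16755312) (l 16760088)))) (b (b (c (c (l 16774384) (l 16774224)) (a (l 16761600)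 (c (l 95797893031) (l 16762760)))) (a (c (l 16774592) (l 16769056)) (a (c (c (l 16776848) (l 16776800)) (b (l 16776632) (l 128010129607))) (l 4)))) (a (b (c (a (l 16775648) (l 56069458551)) (c (l 105998441095) (l 80765495655))) (a (c (l 66806876711) (b (l 16776856) (l 129083868951))) (l 4))) (l 4)))))) (b (b (a (b (a (c (b (l 16773304) (l 16775192)) (c (l 16763520) (l 16763360))) (b (c (c (l 16776504) (l 16776456)) (c (l 116198989207) (l 48016357063))) (a (c (l 87207968647) (b (l 16766064) (l 130157607783))) (l 4)))) (b (a (a (c (l 16776176) (l 49090119607)) (c (l 94724166823) (c (l 96334778327) (l 16758184)))) (l 4)) (b (c (l 265449093479) (c (l 264375346743) (l 263838472567))) (l 4)))) (l 4)) (l 4)) (l 4))), by decide +kernel⟩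

def k187_mm_202_t : ∃ t, chk3 f_mm_202_t t 242 38 1 = true :=
  ⟨(a (b (b (c (b (c (l 16747472) (l 16735792)) (c (l 16751896) (l 16740504))) (c (b (l 16745048) (l 16750056)) (b (l 16733296) (l 16749096)))) (c (b (c (l 16756192) (l 16755560)) (c (l 16760360) (l 16759984))) (c (b (l 16754904) (l 16759592)) (b (l 16754232) (l 16759192))))) (b (b (b (c (b (l 16773264) (l 16766352)) (c (l 16765544) (l 16762712))) (a (c (l 16773944) (l 16763088)) (a (c (l 16777864) (b (l 16776112) (l 126399522951))) (b (c (l 16774864) (l 129083866439)) (l 4))))) (c (b (a (a (l 16775040) (l 16778952)) (l 276723387783)) (c (l 256322298983) (l 255785419767))) (b (a (c (l 16775680) (l 16775592)) (c (l 282628963367) (l 273502154903))) (b (c (l 253101070935) (l 254174815511)) (c (l 266522831463) (l 265985956919)))))) (b (b (c (l 291218890775) (c (l 288534528247) (l 285850168375))) (l 4)) (l 4)))) (b (b (c (b (c (l 16755320) (l 16754616)) (c (l 16759616) (l 16759184))) (c (b (l 16753888) (l 16761352)) (b (l 16753136) (l 16758272)))) (b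 (b (c (c (l 16762720) (l 16762480)) (c (l 16762232) (l 16761976))) (c (a (l 16773280) (a (l 16776104) (a (l 72712458935) (l 160759287927)))) (a (l 16767568) (b (c (l 16776296) (l 16776232)) (a (l 16776512) (l 322894297559)))))) (a (b (c (b (l 16774856) (l 16775800)) (b (l 16764088) (l 49626986039))) (a (c (l 16776336) (b (l 16775808) (l 16766256))) (c (a (l 97945391607) (l 4)) (c (l 118346485831) (l 130157596935))))) (b (c (l 266522848935) (c (l 265449098087) (l 265449095559))) (l 4))))) (b (b (a (b (c (l 271891551223) (c (l 269744063447) (l 269207189783))) (l 4)) (l 4)) (l 4)) (l 4)))), by decide +kernel⟩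

def k188_mm_202_t : ∃ t, chk3 f_mm_202_t t 243 38 1 = true :=
  ⟨(b (b (b (a (c (b (c (l 16762088) (l 16751312)) (a (l 16772600) (a (l 16775592) (a (l 16779480) (l 110293421335))))) (b (c (l 16761496) (l 16761192)) (a (l 16766792) (b (c (l 16775808) (l 16775728)) (a (l 16775984) (l 275112785063)))))) (b (a (a (b (c (l 16776752) (c (l 16776704) (l 16776664))) (c (l 16778800) (c (l 16774704) (l 16774160)))) (l 4)) (l 4)) (l 4))) (a (b (a (c (l 16769496) (b (l 16763376) (l 16764552))) (b (a (c (l 16776936) (a (l 16776600) (l 127473264663))) (l 4)) (c (l 279407746231) (l 276186515319)))) (a (a (c (l 16775856) (c (l 16775728) (l 16775648))) (c (b (l 16776832) (l 149484997735)) (c (a (l 16776616) (l 142505675991)) (l 128547010087)))) (l 4))) (l 4))) (b (a (b (c (c (l 274039031367) (l 272428413815)) (b (c (l 269744057895) (l 269207182823)) (a (l 289608286119) (l 4)))) (l 4)) (l 4)) (l 4))) (l 4)), by decide +kernel⟩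

def k189_mm_202_t : ∃ t, chk3 f_mm_202_t t 121 39 1 = true :=
  ⟨(l 4), by decide +kernel⟩

def k190_mm_202_t : ∃ t, chk3 f_mm_202_t t 61 19 1 = true :=
  ⟨(l 4), by decide +kernel⟩

def k191_mm_202_t : ∃ t, chk3 f_mm_202_t t 31 19 1 = true :=
  ⟨(l 4), by decide +kernel⟩

def k192_mm_202_t : ∃ t, chk3 f_mm_202_t t 6 20 1 = true :=
  ⟨(a (a (l 6) (a (b (b (l 6) (c (l 16400880) (l 16373264))) (c (b (l 16443000) (l 16483896)) (b (l 16424072) (l 16473104)))) (b (c (b (c (l 16407008) (l 16390784)) (l 16397736)) (b (c (l 16374104) (l 16356960)) (l 16393736))) (c (b (l 16479088) (l 16517216)) (b (l 16461968) (l 16507408)))))) (b (a (b (c (a (c (l 16448968) (l 16434544)) (c (l 16492200) (l 16458712))) (a (c (l 16419712) (l 16404472)) (c (l 16466816) (l 16453584)))) (c (a (b (l 16470424) (l 16489104)) (b (l 16512584) (l 16529960))) (a (b (l 16446464) (l 16468784)) (b (l 16491896) (l 16512488))))) (b (c (a (b (a (l 16511472) (l 16534968)) (a (l 16528416) (l 16551264))) (b (a (l 16558856) (l 16583048)) (a (l 16574392)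 (l 16597760)))) (a (b (a (l 16487200) (l 16512904)) (a (l 16507296) (l 16532128))) (b (a (l 16539040) (l 16565496)) (a (l 16557280) (l 16582696))))) (b (a (c (l 16535184) (l 16517960)) (c (a (l 16589456) (l 16611856)) (a (l 16574912) (l 16599120)))) (a (c (l 16571888) (l 16536456)) (c (l 16572720) (a (l 16591776) (l 16614752))))))) (a (b (c (a (l 16474640) (b (l 16546904) (l 16563400))) (a (l 16459528) (b (l 16532512) (l 16551944)))) (c (a (l 16530624) (l 16544976)) (a (l 16521960) (l 16527144)))) (c (b (a (c (l 16576200) (l 16571056)) (b (l 16606976) (l 16619544))) (a (c (l 16602896) (l 16600000)) (b (l 16631208) (l 16642320)))) (b (a (c (l 16565768) (l 16560344)) (b (a (l 16607832) (l 16629544)) (l 16591368))) (a (c (l 16597024) (l 16593984)) (b (l 16625832) (l 16638632)))))))), by decide +kernel⟩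

def k193_mm_202_t : ∃ t, chk3 f_mm_202_t t 6 21 1 = true :=
  ⟨(a (b (a (a (l 6) (b (l 16429312) (l 16494512))) (b (c (a (l 16523160) (l 16553544)) (a (l 16519936) (l 16550472))) (c (l 16511168) (l 16514560)))) (a (c (a (l 16528304) (l 16527488)) (b (l 16574208) (l 16583424))) (c (a (l 16526920) (b (l 16617840) (l 16639208))) (b (l 16552696) (l 16574792))))) (b (a (c (b (a (l 16584520) (l 16594880)) (b (l 16579496) (l 16592776))) (b (a (l 16560752) (l 16571504)) (b (l 16575248) (l 16595984)))) (b (a (c (a (l 16618264) (l 16633976)) (c (l 16624720) (l 16623728))) (c (b (l 16652664) (l 16662312)) (b (l 16650496) (l 16661520)))) (a (b (c (l 16642888) (l 16643520)) (c (l 16653144) (l 16655320))) (c (b (l 16671512) (l 16701184)) (b (l 16671976) (l 16702768)))))) (a (b (c (a (l 16641152) (l 16664864)) (b (l 16610504) (l 16622792))) (c (a (l 16656528) (l 16675440)) (a (l 16645720) (l 16666912)))) (b (c (a (l 16667688) (c (l 16691600) (l 16693056))) (a (a (l 16687080) (l 16677664)) (b (l 16690984) (l 16694312))))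 (c (a (l 16675128) (b (l 16718520) (l 16718928))) (a (c (l 16691360) (l 16688040)) (b (l 16714480) (l 16714264)))))))), by decide +kernel⟩

def k194_mm_202_t : ∃ t, chk3 f_mm_202_t t 6 22 1 = true :=
  ⟨(a (b (a (c (b (l 16583416) (l 16524272)) (b (l 16515344) (l 16492448))) (c (b (a (l 16609024) (l 16628088)) (a (l 16596896) (l 16598008))) (b (b (l 16582280) (l 16574408)) (a (l 16571512) (l 16597816))))) (b (a (c (l 16530648) (l 16493760)) (c (a (l 16586744) (l 16611888)) (a (l 16557456) (l 16587600)))) (a (c (l 16497080) (l 16434712)) (c (a (l 16578632) (l 16606784)) (a (l 16545984) (l 16558920)))))) (b (a (a (c (b (l 16648560) (l 16621624)) (b (l 16613368) (l 16604520))) (c (b (l 16670688) (l 16625928)) (b (l 16617608) (c (l 16658048) (l 16651200))))) (b (c (a (b (l 16694792) (l 16673536)) (b (l 16719800) (l 16721128))) (a (c (l 16667528) (l 16663288)) (c (b (l 16694992) (l 16696048)) (b (l 16692320) (l 16693176))))) (c (a (b (l 16673712) (l 16674360)) (b (c (l 16703320) (l 16700528)) (c (l 16705584) (l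 16702720)))) (a (c (l 16666928) (l 16662016)) (c (b (l 16697632) (l 16699760)) (b (l 16694632) (l 16696688))))))) (a (c (b (a (l 16617608) (a (l 16659672) (l 16653328))) (a (l 16594544) (b (l 16667480) (l 16647440)))) (b (a (l 16577184) (c (l 16655952) (l 16648296))) (a (c (l 16620656) (l 16609640)) (b (l 16630856) (l 16631368))))) (c (b (a (b (l 16675456) (l 16677000)) (b (a (l 16698768) (l 16714968)) (a (l 16701472) (l 16718456)))) (a (b (b (l 16678456) (l 16679560)) (b (l 16680776) (l 16682120))) (a (b (l 16704616) (l 16708192)) (b (l 16722368) (l 16729336))))) (b (a (c (l 16658032) (l 16663184)) (b (a (l 16691776) (l 16710048)) (c (l 16705576) (l 16702544)))) (a (c (c (l 16673600) (l 16670896)) (a (l 16677568) (l 16697944))) (a (c (l 16701312) (l 16697808)) (c (c (l 16721896) (l 16720816)) (b (l 16737760) (l 16721672)))))))))), by decide +kernel⟩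

def k195_mm_202_t : ∃ t, chk3 f_mm_202_t t 12 23 1 = true :=
  ⟨(c (a (b (b (l 16465672) (a (l 16504744) (l 16536032))) (b (a (l 16497176) (l 16531272)) (a (l 16491712) (l 16528560)))) (b (b (a (l 16572584) (l 16582704)) (a (l 16568608) (l 16560640))) (b (a (l 16566656) (c (l 16610992) (l 16595800))) (a (l 16524768) (c (l 16613936) (l 16598512)))))) (a (b (b (a (l 16465832) (l 16500872)) (a (l 16452384) (l 16491024))) (b (a (l 16441664) (l 16483824)) (a (l 16433616) (l 16479240)))) (b (b (a (l 16537128) (l 16532784)) (a (l 16530888) (c (l 16579920) (l 16564144)))) (b (a (l 16485288) (c (l 16580056) (l 16563768))) (a (c (l 16536520) (l 16515520)) (c (l 16582536) (l 16566000))))))), by decide +kernel⟩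

def k196_mm_202_t : ∃ t, chk3 f_mm_202_t t 26 23 1 = true :=
  ⟨(b (c (c (a (b (l 16641736) (l 16643736)) (b (l 16653672) (l 16647936))) (a (b (l 16630832) (l 16632440)) (b (l 16645728) (l 16650448)))) (b (a (c (l 16619520) (l 16607824)) (c (l 16637496) (l 16628976))) (a (c (l 16620728) (l 16608616)) (c (a (l 16652352) (l 16673984)) (l 16612648))))) (c (a (b (c (l 16647536) (l 16636104)) (b (l 16624912) (l 16607168))) (b (c (a (l 16676072) (l 16695672)) (a (l 16667384) (l 16688792))) (c (c (l 16674720) (l 16671104)) (a (l 16675152) (l 16697976))))) (c (a (b (l 16624248) (l 16608984)) (b (a (l 16658384) (l 16681656)) (c (l 16659872) (l 16655992)))) (a (b (l 16611992) (l 16596832)) (b (a (l 16649072) (l 16674280)) (a (l 16657568) (l 16684528))))))), by decide +kernel⟩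

def k197_mm_202_t : ∃ t, chk3 f_mm_202_t t 54 23 1 = true :=
  ⟨(a (b (b (c (c (l 16700528) (l 16694760)) (b (l 16684240) (l 16687344))) (c (c (l 16707328) (l 16701792)) (b (l 16691040) (l 16674320)))) (c (b (b (l 16710920) (l 16694680)) (b (l 16699800) (l 16705312))) (b (b (l 16679112) (l 16684416)) (c (l 16685176) (l 16690904))))) (b (b (c (b (l 16714464) (l 16697240)) (c (l 16688632) (l 16683976))) (c (b (l 16701416) (l 16706024)) (c (l 16697576) (l 16693352)))) (c (b (b (l 16711032) (l 16716424)) (b (l 16722208) (c (l 16729504) (l 16727216)))) (b (c (c (l 16730384) (l 16707656)) (c (l 16705864) (l 16704048))) (c (b (l 16717984) (l 16724848)) (b (l 16715040) (l 16722400))))))), by decide +kernel⟩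

def k198_mm_202_t : ∃ t, chk3 f_mm_202_t t 55 23 1 = true :=
  ⟨(a (b (c (b (b (l 16712240) (l 16716712)) (b (l 16721616) (c (l 16727992) (l 16725800)))) (b (c (b (l 16728536) (l 16733360)) (c (l 16707568) (l 16705968))) (c (b (l 16717728) (l 16723536)) (b (l 16735992) (l 16721184))))) (b (c (b (c (l 16733480) (l 16731680)) (a (l 16733048) (l 16765256))) (c (b (l 16729808) (l 16736544)) (b (l 16727872) (l 16735080)))) (c (b (c (l 16745464) (l 16744560)) (a (l 16745976) (c (l 111903985319) (l 111367092375)))) (b (c (a (l 16737248) (l 16771032)) (a (l 16735800) (l 16749568))) (b (c (l 53921918983) (l 53385046535)) (a (l 16746248) (a (l 16760320) (l 4)))))))) (b (b (c (b (c (l 16732328) (l 16730656)) (c (l 16737376) (l 16736016))) (c (b (l 16728920) (l 16734608)) (b (l 16727128) (l 16733144)))) (c (b (a (l 16758048) (l 16747544)) (c (a (l 16764344) (l 53921924839)) (l 51237562775))) (b (c (l 16740760) (l 16739688)) (c (a (l 16741368) (l 53385052455)) (a (l 16740312) (l 52848180823)))))) (a (b (c (b (l 16764784)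 (c (l 56069398663) (l 54995656455))) (b (b (l 16746136) (l 16749768)) (c (c (l 16754816) (l 16744232)) (c (l 16749368) (l 54995655863))))) (b (b (c (l 110830214263) (c (l 110830213415) (l 111903954247))) (l 4)) (l 4))) (b (b (a (b (c (l 16776520) (l 16760592)) (c (l 16754224) (l 112440851015))) (l 4)) (l 4)) (l 4))))), by decide +kernel⟩

def k199_mm_202_t : ∃ t, chk3 f_mm_202_t t 28 20 1 = true :=
  ⟨(a (a (b (b (c (c (l 16596864) (l 16590008)) (c (l 16582944) (l 16575688))) (c (b (l 16634328) (l 16646752)) (c (l 16612256) (l 16607144)))) (c (b (c (l 16644424) (l 16641312)) (c (l 16664200) (l 16662528))) (b (c (l 16638120) (l 16634832)) (c (l 16660808) (l 16659040))))) (b (b (b (c (l 16632008) (c (l 16622352) (l 16615688))) (c (l 16644752) (l 16612808))) (c (c (l 16643608) (l 16639592)) (b (l 16626720) (l 16639752)))) (c (b (c (l 16663968) (l 16661440)) (c (l 16681672) (l 16680344))) (b (b (l 16651784) (l 16663008)) (b (l 16673344) (l 16683048)))))) (b (c (b (b (a (c (l 16659096) (l 16653904)) (c (l 16682960)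 (l 16678848))) (a (l 16647240) (c (l 16693192) (l 16689808)))) (b (a (l 16658216) (a (l 16695816) (l 16685816))) (a (l 16668352) (a (l 16705136) (l 16694616))))) (b (b (a (c (l 16648552) (l 16643056)) (c (l 16674616) (l 16670264))) (a (c (l 16661552) (l 16656944)) (c (l 16686320) (l 16682736)))) (b (a (c (l 16673712) (l 16669928)) (c (l 16697064) (l 16694160))) (a (c (l 16684912) (l 16681864)) (a (l 16679352) (l 16690520)))))) (b (c (b (a (l 16677840) (c (l 16698688) (l 16718008))) (a (l 16686584) (c (l 16706248) (l 16726000)))) (b (a (l 16673200) (c (l 16695328) (l 16693576))) (a (l 16683080) (c (l 16703776) (l 16702488))))) (b (a (c (l 16694824) (l 16692328)) (c (c (l 16713440) (l 16712600)) (c (l 16711736) (l 16710848)))) (a (c (l 16702576) (l 16700944)) (c (b (l 16718232) (l 16721560)) (c (l 16719112) (l 16718560)))))))), by decide +kernel⟩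

def k200_mm_202_t : ∃ t, chk3 f_mm_202_t t 58 40 1 = true :=
  ⟨(b (b (a (c (c (l 16685720) (l 16682664)) (c (l 16679528) (l 16676296))) (c (c (c (l 16709696) (l 16708704)) (c (l 16707696) (l 16706672))) (c (b (l 16702800) (l 16707464)) (b (l 16700528) (l 16705464))))) (a (c (b (l 16691360) (l 16695832)) (c (l 16689800) (l 16687200))) (c (c (b (l 16715328) (l 16719168)) (b (l 16713672) (l 16717736))) (c (b (l 16711976) (l 16716256)) (b (l 16710224) (l 16714736)))))) (c (b (a (c (l 16703240) (l 16701312)) (c (b (l 16722840) (l 16726424)) (b (l 16721608) (l 16725376)))) (a (c (l 16710992) (l 16709520)) (b (c (l 16729888) (l 16729008)) (c (l 16733232) (l 16732512))))) (c (a (b (l 16699328) (l 16708008)) (b (b (l 16720344) (l 16724304)) (b (l 16728112) (l 16731776)))) (a (b (l 16697288) (l 16706448)) (b (b (l 16719040) (l 16723192)) (b (l 16727184) (l 16731016))))))), by decide +kernel⟩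

def k201_mm_202_t : ∃ t, chk3 f_mm_202_t t 59 80 1 = true :=
  ⟨(a (a (c (c (b (l 16726768) (l 16744480)) (b (l 16725512) (l 16733120))) (b (c (l 16734704) (l 16722888)) (c (l 16742704) (l 16741784)))) (c (b (b (l 16746696) (l 16750296)) (b (c (l 16743536) (l 16743032)) (c (l 16746824) (l 16746464)))) (b (c (b (l 16734912) (l 16738784)) (b (l 16734016) (l 16738072))) (c (b (l 16742512) (l 16746088)) (b (l 16741968) (l 16745712)))))) (b (a (b (c (c (l 16748384) (l 16748048)) (c (l 16747704) (l 16747344))) (b (c (l 50700718343) (c (l 16760864) (l 16750136))) (c (a (l 16749480) (a (l 16774856) (c (l 16775232) (l 16774968)))) (a (l 16748920) (a (l 16774656) (a (l 49090112583) (l 128546988823))))))) (a (b (b (c (a (l 16775816) (l 144116291207)) (a (l 16767824) (c (l 128010103063) (l 130157585735)))) (c (c (l 241289908455) (l 241289906727)) (c (l 242363646823) (l 244511128743)))) (a (c (l 260617269383) (c (l 259543507943) (l 259543505351))) (l 4))) (l 4))) (a (a (c (b (l 16765056) (a (l 16774680) (b (l 16776528)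 (l 111904036487)))) (b (b (l 16750720) (l 16762968)) (b (b (l 16774696) (l 49626977447)) (a (l 16775328) (a (l 126936388503) (l 4)))))) (b (c (a (b (l 16776304) (l 96334769575)) (l 272428411751)) (c (c (l 234847456807) (l 235921197943)) (b (l 178476001927) (l 248269220247)))) (l 4))) (l 4)))), by decide +kernel⟩

def k202_mm_202_t : ∃ t, chk3 f_mm_202_t t 59 81 1 = true :=
  ⟨(a (b (a (c (b (l 16749280) (l 16752616)) (c (c (l 16739776) (l 16739488)) (l 16746912))) (c (b (a (l 16768072) (l 16766720)) (a (l 16771240) (a (l 16775264) (b (l 16776824) (l 125325754279))))) (b (c (l 16760000) (l 16759760)) (b (c (l 49626968023) (l 48553225879)) (a (l 16771656) (c (l 125862641959) (l 128546995719))))))) (a (c (b (l 16755832) (l 16758920)) (c (c (l 16746536) (l 16746384)) (b (l 16744432) (l 16747824)))) (b (c (a (b (l 16773536) (l 16774968)) (b (l 238068681767) (l 265985957559))) (c (a (l 16774088) (l 242363650519)) (a (l 16773984) (l 243974261127)))) (a (c (a (b (l 16775184) (l 16776480)) (b (l 87744845095) (l 133378813815)))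 (c (b (l 16757768) (l 125862636903)) (b (l 16755104) (l 128546969559)))) (l 4))))) (b (a (b (a (c (c (l 236994944327) (l 237531808215)) (c (c (l 238605548711) (l 239679289655)) (b (l 236994941319) (l 252564182663)))) (l 4)) (l 4)) (l 4)) (l 4))), by decide +kernel⟩

def k203_mm_202_t : ∃ t, chk3 f_mm_202_t t 58 41 1 = true :=
  ⟨(b (c (b (a (c (l 16718288) (l 16717208)) (c (b (l 16736464) (l 16739584)) (b (l 16735888) (l 16739136)))) (a (c (l 16725120) (l 16724368)) (b (a (l 16737560) (l 16768240)) (a (l 16740608) (l 16760584))))) (b (a (c (l 16716096) (l 16714952)) (c (b (l 16735296) (l 16738672)) (b (l 16734688) (l 16738200)))) (c (a (l 16723600) (c (l 16748784) (l 16748640))) (a (l 16722808) (a (l 16738056) (b (l 16746704) (l 16770720))))))) (a (c (b (b (l 16729680) (l 16732816)) (a (l 16743416) (b (l 16740216) (l 16743008)))) (b (c (l 16735776) (l 16730024)) (a (c (l 16732424) (l 16732080)) (b (l 16739720) (l 16742664))))) (b (a (c (b (l 16743544) (l 16767320)) (c (l 16755120) (l 16744416))) (a (c (b (l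 16771464) (l 16774104)) (c (l 16762184) (l 16762096))) (c (b (b (l 16775376) (l 51774450519)) (b (l 123178307335) (l 241289901831))) (b (c (l 50163835671) (l 48553222375)) (a (c (l 125325761815) (l 128010115831)) (l 4)))))) (a (c (b (l 16770016) (l 16762088)) (a (c (l 16768968) (l 16768848)) (c (l 16768152) (l 16762856)))) (a (c (b (c (l 52311314791) (l 16755328)) (l 233236849927)) (b (c (a (l 16775472) (l 125325758951)) (l 49090087383)) (c (l 234847449879) (l 236458061063)))) (l 4)))))), by decide +kernel⟩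

def k204_mm_202_t : ∃ t, chk3 f_mm_202_t t 59 41 1 = true :=
  ⟨(a (b (b (a (b (c (b (l 16771648) (l 16773040)) (c (l 50700716871) (l 16761464))) (c (a (l 16772744) (c (a (l 16776288) (l 124252001495)) (l 166127967975))) (a (c (l 16772560) (l 16772440)) (c (b (l 50163830631) (l 125862611063)) (b (l 49090088103) (l 128546964615)))))) (b (b (a (c (l 243437386743) (b (l 243437386551) (l 260617248711))) (l 4)) (l 4)) (l 4))) (a (b (a (c (b (l 16774816) (l 16776008)) (c (l 49626970279) (l 16759504))) (b (c (l 248806091671) (l 248806087303)) (l 4))) (a (b (c (l 123178291399) (a (l 16776224) (l 126936366295))) (a (c (l 16775232) (l 126399510167)) (l 4))) (l 4))) (l 4))) (b (b (a (a (b (c (l 262764731159) (l 261690984359)) (l 4)) (l 4)) (l 4)) (l 4)) (l 4))) (l 4)), by decide +kernel⟩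

def k205_mm_202_t : ∃ t, chk3 f_mm_202_t t 28 42 1 = true :=
  ⟨(b (a (c (b (b (l 16683120) (l 16687256)) (b (l 16691272) (l 16695160))) (b (c (l 16684136) (l 16683408)) (a (l 16684832) (l 16700568)))) (a (c (b (l 16709824) (l 16716592)) (b (l 16708952) (l 16716344))) (c (c (b (l 16726448) (l 16753248)) (b (l 16726184) (l 16753176))) (c (c (l 16729144) (l 16729064)) (b (l 16725640) (l 16753048)))))) (a (c (a (b (l 16693336) (l 16721768)) (b (l 16708088) (l 16735696))) (b (b (l 16699088) (l 16703112)) (a (l 16722944) (l 16736600)))) (a (c (b (l 16743848) (l 16728688)) (b (b (l 16721488) (l 16745704)) (c (l 16750128) (l 16750448)))) (c (b (a (l 16754944) (l 16751872)) (c (l 16742592) (l 16742752))) (b (c (l 16737808) (l 16737888)) (c (l 16742912) (l 16743072))))))), by decide +kernel⟩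

def k206_mm_202_t : ∃ t, chk3 f_mm_202_t t 28 43 1 = true :=
  ⟨(b (c (a (b (b (l 16733760) (l 16715944)) (c (l 16719968) (l 16719232))) (a (b (l 16744512) (l 16752232)) (b (b (l 16746104) (l 16748240)) (a (l 16757952) (b (l 16774224) (b (l 16754664) (l 51774435847))))))) (a (b (c (l 16715576) (l 16716416)) (c (l 16718248) (l 16717224))) (b (a (b (l 16733568) (l 16735072)) (c (l 16757728) (l 16757552))) (b (a (l 16736208) (c (l 16749712) (l 16749544))) (a (l 16737496) (a (l 16768832) (c (l 50163820775) (l 49090078391)))))))) (a (c (b (b (l 16720880) (l 16721800)) (b (l 16722832) (l 16723976))) (b (c (l 16719608) (l 16739384)) (a (l 16734728) (a (l 16745408) (l 16752728))))) (b (b (a (c (l 16760904) (l 16738920)) (a (c (l 16771032) (l 16749680)) (c (a (l 16776328) (l 245584860807)) (a (b (l 16775696) (l 16755808)) (l 245584857079))))) (a (c (l 16762448) (l 16750968)) (a (c (l 16772896) (l 16762128)) (a (a (c (l 16776424) (l 125325780439)) (l 4)) (l 4))))) (a (c (c (l 16744224) (l 16764752)) (c (l 16743328)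 (l 16742848))) (a (b (c (l 50700708455) (b (l 16774184) (l 49090096775))) (c (b (l 51774439015) (l 121567665191)) (a (l 16774920) (c (l 123178256567) (l 125325739367))))) (l 4)))))), by decide +kernel⟩

def k207_mm_202_t : ∃ t, chk3 f_mm_202_t t 29 21 1 = true :=
  ⟨(a (b (b (a (b (b (c (l 16762472) (c (l 16762248) (l 16741128))) (c (l 16754640) (a (l 16739824) (l 16758600)))) (c (b (l 16757184) (a (l 16766208) (l 50163843127))) (b (c (l 16746640) (l 16746600)) (c (l 48553226807) (l 16759552))))) (a (a (c (b (b (l 16772944) (l 16775264)) (b (c (l 122104523111) (l 123178264631)) (l 241289894327))) (c (b (l 49090106407) (b (l 124788896887) (l 241289891111))) (b (l 48016364535) (b (l 127473229687) (l 241826759895))))) (b (b (b (c (l 16776352) (l 49626970711)) (c (l 122641400423) (c (l 125325753719) (l 16753256)))) (c (l 237531802343) (c (l 238068670471) (l 239142410439)))) (l 4))) (l 4))) (a (b (c (a (b (l 16768616) (l 16770912)) (a (b (l 16774264) (l 51237581303)) (b (c (l 122104518343) (l 123178259495)) (l 254174791831))))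 (a (c (l 16748856) (l 16748888)) (a (b (l 16763800) (c (l 16755272) (l 16755272))) (b (c (l 124788870903) (l 127473224455)) (b (l 254174793351) (l 4)))))) (b (a (c (l 16773088) (l 16767928)) (c (b (l 231089345831) (l 248806075063)) (c (l 233236820263) (l 234847430487)))) (a (c (b (l 16774592) (l 16757152)) (c (l 49626960983) (l 16754128))) (l 4)))) (l 4))) (b (a (a (b (c (a (b (l 16775400) (l 122104551671)) (c (l 231626216551) (l 231626214455))) (b (a (l 16767600) (b (l 125325746759) (l 249342957543))) (c (l 224646910343) (l 226794392535)))) (b (b (c (l 245047980743) (l 246121727863)) (l 4)) (l 4))) (l 4)) (l 4)) (l 4))) (l 4)), by decide +kernel⟩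

def k208_mm_202_t : ∃ t, chk3 f_mm_202_t t 15 10 1 = true :=
  ⟨(l 4), by decide +kernel⟩

def k209_mm_202_t : ∃ t, chk3 f_mm_202_t t 28 44 1 = true :=
  ⟨(a (a (c (b (b (l 16739880) (l 16742424)) (b (l 16745416) (l 16748832))) (b (b (l 16715664) (l 16723376)) (c (b (l 16722000) (l 16725536)) (b (l 16720296) (l 16723912))))) (c (b (b (l 16753968) (l 16752096)) (b (c (l 16761520) (l 16760736)) (a (l 16761160) (l 16764336)))) (b (b (c (l 16731520) (l 16730496)) (c (l 16734976) (l 16734008))) (b (b (l 16742712) (a (l 16735152) (l 16744112))) (c (l 16743424) (l 16742760)))))) (b (a (c (b (b (l 16746784) (l 49626965095)) (a (l 16763704) (a (b (l 16773800) (l 16776072)) (b (l 120493918247) (l 128010086567))))) (b (c (a (l 16764192) (l 16761760)) (a (l 16742688) (l 16772040))) (b (c (l 49626952119) (l 49090080919)) (a (l 16769328) (c (l 165054201559) (l 169349169703)))))) (b (a (a (c (b (l 52311317783) (l 120493898311)) (c (b (l 16756160) (l 122104509943)) (b (l 16756184) (l 124251992631)))) (l 4)) (l 4)) (l 4)))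 (a (b (a (c (b (l 16772208) (l 16764048)) (c (l 49626966471) (l 16758424))) (b (c (l 219815056711) (b (l 221425682151) (l 236994917095))) (l 4))) (a (b (c (b (l 16755368) (l 119420166103)) (c (l 51774428855) (l 51237557799))) (c (l 211762003127) (c (l 213909485271) (l 216056967927)))) (l 4))) (l 4)))), by decide +kernel⟩

def k210_mm_202_t : ∃ t, chk3 f_mm_202_t t 28 45 1 = true :=
  ⟨(a (b (b (a (c (l 16752032) (c (l 16729584) (l 16728096))) (b (c (l 16766176) (a (l 16742032) (l 49090106471))) (c (a (l 16766776) (l 52311313287)) (c (l 51237568503) (l 50163825895))))) (a (c (c (l 16736576) (l 16735376)) (c (l 16734136) (l 16732848))) (c (a (l 16765216) (b (a (l 16776000) (l 125862607687)) (l 214446348215))) (c (a (l 16769848) (b (l 119957024855) (l 214983216951))) (a (l 16769424) (a (l 52311306503) (l 233236818519))))))) (a (c (b (a (l 16736032) (l 16766296)) (b (l 16765432) (l 16762832))) (b (b (l 16742568) (c (l 16740528) (l 16739568))) (c (a (l 16739432) (l 16771000)) (l 49090072487)))) (a (a (c (b (l 16773344)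 (b (l 16755296) (l 115125196919))) (b (c (l 16772976) (l 16772720)) (c (l 117809547703) (l 119957030759)))) (b (c (c (l 117272683831) (l 117809554087)) (c (l 119420165815) (l 121030777863))) (l 4))) (l 4)))) (b (a (b (b (a (b (c (l 232699954279) (l 233773692487)) (l 4)) (l 4)) (l 4)) (l 4)) (l 4)) (l 4))), by decide +kernel⟩

def k211_mm_202_t : ∃ t, chk3 f_mm_202_t t 28 23 1 = true :=
  ⟨(b (a (a (a (b (c (b (l 16756776) (b (l 16771520) (l 16753400))) (b (b (l 16743368) (l 16746496)) (c (l 16756680) (l 16756336)))) (b (b (c (l 115662092263) (c (l 116735813511) (l 118883296311))) (a (c (l 16753984) (l 116198958279)) (l 4))) (b (c (l 224110014791) (l 224110011303)) (l 4)))) (b (b (b (c (l 53385055975) (c (l 16754472) (l 16754304))) (a (c (l 16776136) (l 16762816)) (l 4))) (a (b (c (l 114588336935) (l 116198947479)) (l 4)) (l 4))) (l 4))) (l 4)) (l 4)) (l 4)), by decide +kernel⟩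

def k212_mm_202_t : ∃ t, chk3 f_mm_202_t t 29 11 1 = true :=
  ⟨(l 4), by decide +kernel⟩

def k213_mm_202_t : ∃ t, chk3 f_mm_202_t t 15 11 1 = true :=
  ⟨(l 4), by decide +kernel⟩

def k214_mm_202_t : ∃ t, chk3 f_mm_202_t t 4 6 1 = true :=
  ⟨(l 6), by decide +kernel⟩

def k215_mm_202_t : ∃ t, chk3 f_mm_202_t t 10 6 1 = true :=
  ⟨(a (b (l 6) (a (b (l 6) (b (l 6) (c (b (l 16099456) (l 16106816)) (c (l 15951672) (l 15882384))))) (b (b (l 6) (b (l 6) (c (l 16146488) (l 15985536)))) (c (b (b (l 16150296) (l 16155888)) (c (l 16184480) (l 16107976))) (b (b (l 15989552) (l 15995856)) (c (l 16049904) (l 15968400))))))) (a (b (l 6) (b (b (a (l 6) (c (l 16212384) (l 16081552))) (c (b (l 16201280) (l 16205168)) (c (l 16073752) (l 16019632)))) (c (b (b (l 16210824) (l 16218200)) (b (l 16227240) (l 16237896))) (b (b (l 16066160) (l 16095696)) (c (l 16127600) (l 16054976)))))) (b (b (l 6) (b (l 6) (a (c (l 16239768) (l 16107608)) (c (l 16264856) (l 16139440))))) (b (c (b (b (l 16252152) (l 16254392)) (c (l 16271312) (l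 16229416))) (b (c (l 16135048) (l 16088704)) (c (l 16164416) (l 16097336)))) (c (b (c (l 16306688) (l 16244968)) (c (l 16327136) (l 16267464))) (b (c (l 16181168) (l 16115344)) (c (l 16205776) (l 16163120)))))))), by decide +kernel⟩

def k216_mm_202_t : ∃ t, chk3 f_mm_202_t t 22 6 1 = true :=
  ⟨(b (b (b (c (c (l 16376032) (l 16329840)) (c (l 16282000) (l 16232544))) (c (c (l 16361024) (l 16353624)) (c (b (l 16264936) (l 16256864)) (b (l 16212872) (l 16203440))))) (b (c (c (a (l 16332160) (l 16375816)) (b (l 16304024) (l 16301640))) (c (b (l 16251272) (l 16248120)) (b (l 16196776) (l 16192840)))) (c (c (b (l 16353464) (l 16355312)) (b (l 16301264) (l 16302864))) (c (b (l 16247240) (l 16248600)) (b (l 16191448) (l 16192560)))))) (b (c (b (c (a (l 16335424) (l 16387128)) (a (l 16279488) (l 16338384))) (c (a (l 16347072) (l 16402432)) (a (l 16291848) (l 16354896)))) (b (c (a (l 16221632) (l 16287952)) (a (l 16161904) (l 16235872))) (c (a (l 16234728) (l 16326688)) (a (l 16175776) (b (l 16249344) (l 16261088))))))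 (c (b (c (a (l 16364888) (l 16444600)) (a (l 16311280) (b (l 16371752) (l 16385016)))) (c (a (l 16388480) (b (l 16443168) (l 16457840))) (a (l 16358328) (b (l 16399832) (l 16416160))))) (b (c (a (l 16255856) (b (l 16324120) (l 16338688))) (a (l 16224872) (b (l 16274952) (l 16290872)))) (c (a (b (l 16276672) (l 16292784)) (b (l 16355016) (l 16373048))) (a (b (l 16221392) (l 16239048)) (b (l 16308768) (l 16328560)))))))), by decide +kernel⟩

def k217_mm_202_t : ∃ t, chk3 f_mm_202_t t 23 6 1 = true :=
  ⟨(a (b (b (c (b (b (l 16412720) (l 16406144)) (b (l 16401704) (l 16399312))) (b (a (l 16316488) (l 16340496)) (b (l 16317432) (l 16313352)))) (c (b (b (l 16398872) (l 16400272)) (b (l 16403480) (l 16408432))) (b (b (l 16311760) (l 16312528)) (b (l 16315600) (l 16341888))))) (b (b (c (c (l 16439640) (l 16398048)) (c (l 16375968) (b (l 16305848) (l 16315792)))) (c (b (c (l 16453304) (l 16412896)) (c (l 16464200) (l 16424864))) (c (b (l 16371088) (l 16384168)) (b (l 16327912) (l 16342136))))) (c (b (b (c (l 16476480)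 (l 16438424)) (c (l 16490088) (l 16453512))) (c (b (l 16504992) (l 16521144)) (b (l 16470088) (l 16488088)))) (b (c (b (l 16399048) (l 16415672)) (b (l 16358392) (l 16376608))) (c (b (l 16433984) (l 16453904)) (b (l 16396712) (l 16418608))))))) (b (b (c (b (b (l 16449992) (l 16446056)) (b (l 16444152) (l 16444216))) (b (b (l 16380352) (l 16374280)) (b (l 16370792) (l 16369800)))) (b (c (b (l 16446112) (l 16449792)) (c (l 16391912) (l 16353136))) (c (c (l 16497256) (l 16461432)) (c (l 16429592) (b (l 16361224) (l 16369472)))))) (b (b (c (c (b (l 16488320) (l 16498168)) (b (l 16453408) (l 16464136))) (c (b (l 16417264) (l 16428912)) (b (l 16379928) (l 16392528)))) (c (b (c (l 16509440) (l 16476496)) (c (l 16522064) (l 16490432))) (c (b (l 16442408) (l 16457688)) (b (l 16407200) (l 16423872))))) (c (b (b (c (l 16536000) (l 16505872)) (c (l 16551200) (l 16522776))) (c (b (l 16567624) (l 16585232)) (b (l 16541080) (l 16560744)))) (b (c (b (l 16474696) (l 16493360)) (b (l 16442496) (l 16462984))) (c (b (l 16513616)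 (l 16535400)) (b (l 16485256) (l 16509240)))))))), by decide +kernel⟩

def k218_mm_202_t : ∃ t, chk3 f_mm_202_t t 8 7 1 = true :=
  ⟨(b (l 6) (a (a (l 6) (a (l 6) (b (l 6) (b (l 6) (b (l 6) (c (l 15836544) (l 15615280))))))) (a (b (l 6) (b (a (l 6) (b (l 6) (c (l 15872736) (l 15665624)))) (c (c (l 15943360) (b (l 15838160) (l 15863872))) (c (b (l 15719696) (l 15748512)) (b (l 15597784) (l 15629808)))))) (b (b (l 6) (c (c (l 15926648) (b (l 15834200) (l 15855088))) (b (c (l 15715864) (l 15594048)) (c (l 15739160) (l 15619832))))) (c (b (c (l 15976760) (b (l 15877448) (l 15901216))) (c (l 16021128) (l 15918472))) (b (c (b (l 15764144) (l 15790752)) (b (l 15647528) (l 15677056))) (c (b (l 15818912) (l 15848560)) (b (l 15708336) (l 15741312))))))))), by decide +kernel⟩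

def k219_mm_202_t : ∃ t, chk3 f_mm_202_t t 18 7 1 = true :=
  ⟨(a (b (l 6) (b (c (b (c (l 15954600) (b (l 15879344) (l 15898232))) (c (l 16011832) (b (l 15918632) (l 15940504)))) (b (c (b (l 15767000) (l 15788008)) (b (l 15651312) (l 15674520))) (c (b (l 15810760) (l 15835184)) (c (l 15719784) (l 15664120))))) (c (b (c (l 16053024) (l 15975952)) (c (l 16119688) (l 16027752))) (b (c (b (l 15861216) (l 15888792)) (b (l 15755624) (l 15786248))) (c (l 15932936) (l 15814376)))))) (b (b (l 6) (b (a (l 6) (b (l 6) (c (l 15960952) (l 15771192)))) (c (c (l 16015456) (b (l 15926120) (l 15943032))) (c (b (l 15819968) (l 15838720)) (b (l 15710632) (l 15731296)))))) (b (c (b (c (l 16048408) (b (l 15961520) (l 15981512))) (c (l 16086464) (l 16014224))) (b (c (b (l 15859272) (l 15881544)) (c (l 15771424) (l 15718616))) (c (b (l 15905480) (l 15931016)) (b (l 15805112) (l 15833424))))) (c (b (c (l 16150160) (l 16062552)) (c (l 16197152) (l 16115864))) (b (c (l 15982680) (b (l 15863464) (l 15895168))) (c (l 16032032) (l 15945712))))))),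 by decide +kernel⟩

def k220_mm_202_t : ∃ t, chk3 f_mm_202_t t 19 7 1 = true :=
  ⟨(a (b (b (a (l 6) (b (l 6) (b (l 6) (c (l 16028160) (l 15830536))))) (c (b (c (l 16056576) (l 15960616)) (c (l 16086280) (l 15993792))) (b (c (b (l 15874504) (l 15891048)) (b (l 15771696) (l 15789864))) (c (b (l 15909432) (l 15929600)) (c (l 15824880) (l 15775016)))))) (b (c (b (c (l 16121248) (l 16054040)) (c (l 16182032) (l 16098960))) (b (c (b (l 15951472) (l 15975000)) (b (l 15856528) (l 15882560))) (c (b (l 16000104) (l 16026728)) (b (l 15910392) (l 15939936))))) (c (b (c (l 16226272) (l 16149048)) (c (l 16274520) (l 16203840))) (b (c (l 16069384) (l 15987336)) (c (l 16130928) (l 16055848)))))) (b (b (c (b (c (l 16077960) (l 15986224)) (c (l 16098616) (l 16008944))) (b (c (l 15891504) (l 15793888)) (c (l 15916376) (b (l 15834336) (l 15850064))))) (c (b (c (l 16125144) (l 16038424)) (c (l 16178056) (l 16095144))) (b (c (l 15975120) (b (l 15867912) (l 15887816))) (c (b (l 15998984) (l 16020536)) (b (l 15909712) (l 15933520))))))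 (b (c (b (c (l 16215008) (l 16136720)) (c (l 16256552) (l 16183648))) (b (c (b (l 16043720) (l 16068472)) (b (l 15959168) (l 15986592))) (c (l 16108416) (b (l 16015712) (l 16046464))))) (c (b (c (l 16302272) (l 16235464)) (c (l 16351752) (l 16291704))) (b (c (l 16166528) (l 16095520)) (c (l 16229744) (l 16165920))))))), by decide +kernel⟩

def k221_mm_202_t : ∃ t, chk3 f_mm_202_t t 10 28 1 = true :=
  ⟨(c (a (b (c (a (l 16141312) (l 16204776)) (a (l 16058144) (l 16151256))) (c (a (l 16164704) (l 16251832)) (a (l 16104968) (l 16180208)))) (c (b (a (l 16289392) (l 16353280)) (a (l 16318144) (l 16384680))) (b (a (l 16223680) (l 16296456)) (a (l 16255688) (b (l 16322192) (l 16341136)))))) (a (b (c (a (l 15993232) (l 16074320)) (a (l 15904696) (l 15994992))) (c (a (l 16021640) (l 16106232)) (a (l 15935752) (b (l 16020456) (l 16039952))))) (c (b (a (l 16155800) (l 16248208)) (a (l 16201664) (b (l 16266208) (l 16287232)))) (b (a (l 16106760) (b (l 16167664) (l 16187120))) (a (b (l 16114200) (l 16135544)) (b (l 16208464)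 (l 16231640))))))), by decide +kernel⟩

def k222_mm_202_t : ∃ t, chk3 f_mm_202_t t 11 28 1 = true :=
  ⟨(c (a (b (c (a (b (l 16409768) (l 16425560)) (b (l 16473784) (l 16490936))) (a (b (l 16361016) (l 16378632)) (b (l 16433928) (l 16453088)))) (c (a (b (l 16442576) (l 16460736)) (b (l 16509224) (l 16528600))) (a (b (l 16397648) (l 16418008)) (b (l 16473576) (l 16495336))))) (b (c (b (a (l 16538488) (l 16603952)) (a (l 16556960) (l 16623736))) (b (a (l 16507464) (l 16581696)) (a (l 16528144) (l 16603872)))) (a (b (c (l 16576512) (l 16550080)) (c (l 16597080) (l 16573208))) (b (c (l 16602576) (l 16585288)) (c (l 16624320) (l 16609768)))))) (c (a (b (a (b (l 16310624) (l 16330112)) (b (l 16392712) (l 16413952))) (a (b (l 16351208) (l 16373848)) (b (l 16436720) (l 16460936)))) (b (b (a (l 16475376) (l 16558656)) (a (l 16498344) (l 16583328))) (b (a (l 16522744) (l 16567400)) (a (l 16548528) (l 16573744))))) (a (a (b (b (l 16258624) (l 16280064)) (b (l 16303304) (l 16328288))) (b (b (l 16350176) (l 16373568)) (b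 (l 16398680) (l 16425448)))) (b (b (a (l 16442248) (a (l 16511672) (l 16558128))) (a (l 16467576) (l 16499192))) (b (a (l 16494528) (l 16527960)) (a (l 16523040) (l 16558192))))))), by decide +kernel⟩

def k223_mm_202_t : ∃ t, chk3 f_mm_202_t t 10 29 1 = true :=
  ⟨(c (a (b (c (a (l 16214664) (l 16283264)) (a (l 16137280) (l 16215320))) (c (a (l 16248816) (l 16319592)) (a (l 16175584) (l 16256136)))) (b (c (a (l 16351976) (b (l 16411408) (l 16430632))) (a (l 16293576) (b (l 16361448) (l 16383064)))) (a (c (l 16390456) (b (l 16325552) (l 16348472))) (c (b (l 16450936) (l 16472248)) (b (l 16405936) (l 16429992)))))) (a (c (b (a (l 16057384) (l 16145160)) (a (b (l 16088704) (l 16111624)) (b (l 16178656) (l 16202920)))) (b (a (b (l 15964464) (l 15986088)) (b (l 16061392) (l 16084712))) (a (b (l 16009608) (l 16034952)) (b (l 16109840) (l 16136704))))) (b (c (a (b (l 16222120) (l 16244744)) (b (l 16309824) (l 16333920))) (a (b (l 16158752) (l 16183744)) (b (l 16256592) (l 16283232)))) (c (a (b (l 16268880) (l 16294480))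 (b (l 16359440) (l 16386336))) (a (b (l 16210456) (l 16238816)) (b (l 16311496) (l 16341320))))))), by decide +kernel⟩

def k224_mm_202_t : ∃ t, chk3 f_mm_202_t t 11 29 1 = true :=
  ⟨(c (b (a (c (c (a (l 16499600) (l 16566776)) (a (l 16480392) (l 16552344))) (a (b (l 16439664) (l 16462552)) (b (l 16518312) (l 16542440)))) (a (a (b (l 16589504) (l 16613120)) (b (l 16584888) (l 16609072))) (b (c (l 16625992) (l 16635304)) (c (l 16649496) (l 16640880))))) (a (c (b (a (l 16521672) (l 16592776)) (a (l 16543960) (l 16616008))) (b (a (l 16486616) (l 16567672)) (a (l 16511792) (l 16593952)))) (a (b (b (l 16587680) (l 16600328)) (c (l 16646640) (l 16634624))) (a (b (l 16672744) (l 16699216)) (b (b (l 16746808) (l 16759496)) (b (l 10972255415) (l 80765456215))))))) (a (b (c (b (a (l 16397960) (l 16486552)) (a (l 16423496) (l 16513504))) (b (a (l 16354944) (l 16453792)) (a (l 16383208) (l 16483648)))) (c (a (b (l 16450384) (l 16478552)) (c (l 16478568) (l 16466176))) (a (b (l 16413008) (l 16444272)) (b (l 16514952) (l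 16547624))))) (b (b (c (a (l 16575616) (l 16602280)) (a (l 16553048) (l 16589824))) (a (c (l 16603952) (l 16563496)) (c (l 16631976) (l 16622784)))) (a (c (b (l 16591536) (l 16622184)) (b (l 16575296) (l 16609352))) (b (b (c (l 16675960) (l 16669304)) (a (l 16706672) (l 16712920))) (a (l 16668832) (b (a (l 16760128) (l 16772872)) (l 79691707095)))))))), by decide +kernel⟩

def k225_mm_202_t : ∃ t, chk3 f_mm_202_t t 10 30 1 = true :=
  ⟨(a (c (b (c (a (l 16287720) (l 16360416)) (a (l 16219416) (l 16302192))) (c (a (l 16330960) (l 16405320)) (a (l 16268320) (l 16360896)))) (b (c (a (b (l 16136096) (l 16162056)) (b (l 16228664) (l 16255808))) (a (b (l 16062056) (l 16090840)) (b (l 16165232) (l 16195360)))) (c (a (l 16203664) (b (l 16284296) (l 16314064))) (a (b (l 16121240) (l 16153176)) (b (l 16227008) (l 16260104)))))) (c (b (c (a (b (l 16422112) (l 16444456)) (b (l 16494536) (l 16517736))) (a (b (l 16372600) (l 16397880)) (b (l 16455192) (l 16481464)))) (c (a (b (l 16467728) (l 16491880)) (b (l 16541808) (l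 16566696))) (b (a (l 16424248) (l 16508760)) (a (l 16451656) (l 16537024))))) (b (c (c (a (l 16348016) (l 16439000)) (a (l 16322808) (l 16419160))) (a (b (l 16268744) (l 16300184)) (b (l 16372632) (l 16405360)))) (c (b (a (l 16379344) (l 16474624)) (a (l 16410112) (l 16506376))) (b (a (l 16333056) (l 16439424)) (a (l 16367296) (l 16474768))))))), by decide +kernel⟩

def k226_mm_202_t : ∃ t, chk3 f_mm_202_t t 10 31 1 = true :=
  ⟨(c (a (a (b (c (l 16378128) (l 16321824)) (c (l 16428808) (l 16379472))) (b (c (l 16453904) (b (l 16394008) (l 16422584))) (c (b (l 16492496) (l 16519168)) (b (l 16452096) (l 16482488))))) (b (c (a (b (l 16516864) (l 16542632)) (b (l 16592344) (l 16618712))) (a (b (l 16480048) (l 16509352)) (b (l 16566192) (l 16596208)))) (a (c (b (l 16569120) (l 16596288)) (b (l 16539528) (l 16570504))) (b (c (l 16645744) (l 16627024)) (a (l 16645416) (l 16665728)))))) (a (b (c (a (l 16263712) (b (l 16345048) (l 16377176))) (c (a (l 16218968) (l 16324632)) (a (l 16188600) (l 16299960)))) (c (a (l 16328544)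 (b (l 16410392) (l 16444624))) (b (a (l 16257520) (l 16367408)) (a (l 16294904) (l 16405600))))) (b (c (a (b (l 16442016) (l 16474992)) (b (l 16539176) (l 16572968))) (a (b (l 16402824) (l 16439576)) (b (l 16511320) (l 16549000)))) (a (c (b (l 16508968) (l 16543888)) (b (l 16477472) (l 16516448))) (c (c (l 16566840) (l 16558032)) (b (l 16587744) (l 16606496))))))), by decide +kernel⟩

def k227_mm_202_t : ∃ t, chk3 f_mm_202_t t 11 30 1 = true :=
  ⟨(a (c (b (a (c (b (l 16567144) (l 16591192)) (b (l 16538040) (l 16565288))) (b (b (l 16582296) (l 16595344)) (c (l 16643968) (l 16628448)))) (a (b (c (l 16616032) (l 16593488)) (c (l 16641632) (l 16622576))) (b (c (l 16648592) (l 16636544)) (b (l 16642640) (l 16656856))))) (b (c (a (b (l 16507960) (l 16538520)) (c (l 16538016) (l 16508008))) (a (b (l 16476928) (l 16510912)) (a (l 16488848) (l 16541560)))) (a (c (c (l 16528928) (l 16518008)) (c (l 16485944) (l 16474680))) (b (c (l 16624096) (l 16611256)) (c (l 16636744) (l 16627752)))))) (a (b (c (b (c (l 16671568)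 (l 16641912)) (a (l 16674768) (b (l 16749536) (l 16762240)))) (b (c (l 16632928) (l 16623648)) (b (l 16633168) (a (l 16709352) (l 16737216))))) (a (b (c (l 16702656) (l 16672968)) (c (c (l 16747552) (l 16746176)) (c (l 16744768) (l 16743312)))) (b (c (b (l 16751112) (l 16748768)) (c (l 49090070983) (l 42110748119))) (l 4)))) (b (a (c (b (b (l 16760680) (l 16755152)) (b (l 83449812583) (l 16743032))) (b (b (l 16714336) (a (l 16761952) (l 16772240))) (b (l 82376066103) (l 16742072)))) (a (b (c (l 87744770903) (l 87207897703)) (l 4)) (l 4))) (l 4)))), by decide +kernel⟩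

def k228_mm_202_t : ∃ t, chk3 f_mm_202_t t 11 31 1 = true :=
  ⟨(a (a (b (c (b (b (l 16611248) (l 16625480)) (c (l 16652928) (l 16641256))) (b (b (l 16556496) (l 16574536)) (c (l 16629192) (l 16616752)))) (c (b (b (l 16669192) (l 16663112)) (a (l 16727992) (b (l 16760552) (l 16771224)))) (b (c (l 16643648) (l 16635336)) (a (l 16672480) (b (l 16755896) (l 16748360)))))) (b (c (b (a (l 16679160) (b (l 16754288) (l 16766336))) (a (l 16725048) (c (l 16749440) (l 16749032)))) (b (a (l 16663928) (b (l 16748072) (l 16742256))) (a (b (l 16712704) (l 16751784)) (c (l 16748600) (l 16748160))))) (a (b (c (c (l 16750872) (l 16750000)) (b (l 16745240) (l 16750400))) (c (l 95260951591) (l 95260947959))) (l 4)))) (b (a (a (a (b (c (l 88818524455) (l 88281651255)) (l 4)) (l 4)) (l 4)) (l 4)) (l 4))), by decide +kernel⟩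

def k229_mm_202_t : ∃ t, chk3 f_mm_202_t t 12 24 1 = true :=
  ⟨(c (c (a (b (a (l 16502008) (l 16540512)) (a (l 16503624) (b (l 16544688) (l 16549512)))) (b (a (b (l 16578600) (l 16582496)) (b (l 16618584) (l 16624880))) (a (b (l 16588008) (l 16595072)) (b (l 16632688) (a (l 16630112) (l 16653928)))))) (a (b (a (l 16472608) (l 16515840)) (a (l 16473296) (b (l 16519704) (l 16524624)))) (b (a (b (l 16558688) (l 16562520)) (b (l 16603168) (l 16609704))) (a (b (l 16568184) (l 16575640)) (b (l 16617976) (l 16586000)))))) (c (a (b (a (l 16442144) (l 16490280)) (a (l 16441888) (b (l 16493832) (l 16498840)))) (b (a (b (l 16538064) (l 16541816)) (b (l 16587192) (l 16593984))) (a (b (l 16547648) (l 16555496)) (b (l 16602720) (a (l 16598784) (l 16628056)))))) (a (b (a (l 16410648) (b (l 16464040) (l 16464304))) (a (b (l 16408856) (l 16410784)) (b (l 16467072) (l 16472176)))) (b (a (b (l 16516728) (l 16520408)) (b (l 16570672) (l 16577712))) (a (b (l 16526408) (l 16534672)) (b (l 16565976) (a (l 16582304) (l 16614440)))))))),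 by decide +kernel⟩

def k230_mm_202_t : ∃ t, chk3 f_mm_202_t t 12 25 1 = true :=
  ⟨(c (c (a (b (a (l 16534400) (b (l 16555920) (l 16563856))) (a (b (l 16522608) (l 16531472)) (b (l 16573264) (l 16584104)))) (b (a (b (l 16603656) (l 16613688)) (b (a (l 16640312) (l 16665208)) (a (l 16651912) (l 16677856)))) (a (b (l 16646104) (a (l 16624352) (l 16651576))) (b (a (l 16664872) (l 16691816)) (c (l 16653392) (l 16648824)))))) (a (b (a (l 16506760) (b (l 16531344) (l 16539816))) (a (b (l 16492984) (l 16502552)) (b (l 16549984) (l 16561792)))) (b (a (b (l 16584816) (l 16595664)) (b (a (l 16625736) (l 16653456)) (a (l 16638360) (l 16667256)))) (a (b (l 16608136) (a (l 16606944) (l 16637424))) (b (a (l 16652544) (l 16682568)) (c (l 16644168) (l 16639424))))))) (a (b (c (a (b (l 16447608) (l 16453952)) (b (l 16505888) (l 16514920))) (a (b (l 16415096) (l 16421728)) (b (l 16479568) (l 16489184)))) (c (a (b (l 16462312) (l 16472608)) (b (l 16525872) (l 16538680))) (b (a (l 16430608) (l 16500944)) (a (l 16441664) (l 16514792)))))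 (b (b (a (c (l 16565296) (l 16545120)) (c (a (l 16610640) (l 16641272)) (a (l 16595032) (l 16628672)))) (a (c (l 16576992) (l 16557688)) (c (a (l 16624320) (l 16656264)) (a (l 16609800) (l 16644904))))) (a (b (c (b (l 16586976) (l 16594192)) (a (l 16554360) (l 16590320))) (c (a (l 16588920) (l 16622768)) (a (l 16570288) (l 16607616)))) (b (c (c (l 16638200) (l 16611544)) (c (l 16605760) (l 16599888))) (c (b (l 16627568) (l 16636856)) (a (l 16645216) (l 16662112)))))))), by decide +kernel⟩

def k231_mm_202_t : ∃ t, chk3 f_mm_202_t t 26 24 1 = true :=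
  ⟨(b (c (a (b (c (l 16618232) (l 16607224)) (c (a (l 16657656) (l 16680032)) (a (l 16646024) (l 16670720)))) (b (c (c (l 16663136) (l 16659832)) (a (l 16684648) (l 16687864))) (c (b (l 16669608) (l 16675456)) (b (l 16684464) (l 16669816))))) (a (b (c (a (l 16624976) (l 16650592)) (l 16584008)) (c (a (l 16633968) (l 16661072)) (a (l 16621496) (l 16651088)))) (a (b (c (l 16676584) (l 16668240)) (b (l 16660576) (l 16667248))) (b (c (l 16681992) (l 16675920)) (c (l 16684944) (l 16690336)))))) (c (b (a (c (a (l 16667184) (l 16690704)) (a (l 16656232) (l 16682224))) (a (c (l 16693680) (l 16687632)) (b (l 16712752) (l 16709376)))) (a (c (c (l 16650624) (l 16667304)) (a (l 16668088) (l 16695320))) (a (c (l 16706856) (l 16701976)) (c (c (l 16732904) (l 16731760)) (l 16719520))))) (a (b (c (a (l 16644880) (l 16673432)) (a (l 16633144) (l 16664336))) (c (b (l 16648096) (l 16634312)) (c (l 16623640) (l 16618872)))) (a (b (c (l 16681368) (l 16674888)) (c (b (l 16713848) (l 16722064)) (l 16670728))) (b (c (c (l 16711608)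 (l 16709696)) (c (l 16707744) (l 16705760))) (c (b (l 16723208) (l 16732096)) (b (l 16720344) (l 16729984)))))))), by decide +kernel⟩

def k232_mm_202_t : ∃ t, chk3 f_mm_202_t t 27 24 1 = true :=
  ⟨(b (a (c (b (a (b (l 16711200) (l 16717472)) (a (b (l 16728928) (l 16735672)) (b (l 16761872) (l 16747928)))) (a (c (b (l 16725496) (l 16732208)) (b (l 16722704) (l 16729992))) (a (b (l 16763744) (b (l 16769304) (l 16772904))) (b (c (l 57143146727) (l 16754424)) (b (l 107072125575) (l 4)))))) (b (a (c (c (l 16709720) (l 16707832)) (c (l 16705912) (l 16703968))) (c (b (l 16732168) (l 16739904)) (b (l 16730264) (l 16738592)))) (a (c (b (l 16719808) (l 16727696)) (b (l 16716808) (l 16725328))) (b (a (b (l 16738256) (l 16763504)) (c (l 57680015639) (l 57680014775))) (c (a (l 16770160) (l 105998363719)) (a (l 16748584) (l 105998362599))))))) (b (a (a (c (b (b (l 16772088) (l 16754328)) (c (l 109756471031) (l 108682728439))) (b (c (l 56069414103) (l 16756928)) (c (a (l 16753840) (l 4)) (l 109756468023)))) (a (b (b (c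 (l 16747328) (l 119420170679)) (l 4)) (l 4)) (l 4))) (l 4)) (l 4))) (a (b (a (c (b (b (l 16736592) (l 16740360)) (c (l 16756808) (l 16755832))) (b (c (l 16736024) (l 16734320)) (a (l 16736416) (c (l 16751640) (l 16751192))))) (a (b (c (c (l 108682744567) (l 107609002359)) (c (l 107609001287) (l 108682742039))) (b (c (l 115662051383) (l 115662048071)) (l 4))) (l 4))) (a (a (c (b (l 16747400) (c (l 16754664) (l 16754384))) (b (b (l 16743400) (l 16748112)) (c (l 59827500951) (l 60364370455)))) (a (b (c (l 106535277575) (c (l 16753512) (l 16753368))) (l 4)) (l 4))) (l 4))) (l 4))), by decide +kernel⟩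

def k233_mm_202_t : ∃ t, chk3 f_mm_202_t t 26 25 1 = true :=
  ⟨(b (b (b (c (a (c (l 16679008) (l 16671096)) (a (l 16705200) (c (l 16743728) (l 16742472)))) (a (c (l 16641928) (l 16633456)) (a (b (l 16705376) (l 16709984)) (c (l 55532500407) (l 56069365031))))) (a (c (c (l 16664808) (l 16678504)) (c (l 16649984) (l 16642184))) (a (c (l 16713128) (c (l 16718768) (l 16715400))) (a (c (l 16765648) (l 16742392)) (c (a (l 16759800) (l 100629683383)) (c (l 103314036631) (l 103850906759))))))) (a (a (c (b (l 16696672) (l 16683208)) (c (l 16667560) (l 16659320))) (c (c (l 16688968) (l 16705136)) (c (l 16679176) (l 16674024)))) (b (a (c (l 16721384) (c (l 16728216) (l 16725680))) (a (c (b (l 16771880) (l 16754544)) (c (l 16751864) (l 16751400))) (a (c (l 111367096935) (l 110830223527)) (l 4)))) (a (c (a (l 16733208) (l 16747600)) (c (l 16737976) (l 16736304))) (c (c (l 194045241079) (l 194045239559)) (c (l 194045248519) (l 194045246983))))))) (a (c (b (a (c (l 16698176) (l 16691968)) (c (l 16714104) (l 16701728)))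 (a (c (l 16693400) (l 16709824)) (b (b (l 16735456) (l 16740032)) (c (l 16757272) (l 16740456))))) (b (c (a (l 16664560) (b (l 16714432) (l 16724448))) (b (l 16660704) (l 16671280))) (a (c (l 16684152) (l 16679280)) (a (b (l 16724712) (l 16735840)) (b (l 16742968) (b (l 16750824) (l 97945345063))))))) (a (b (b (c (c (a (l 16763656) (l 16754816)) (l 57680000103)) (a (l 16739056) (c (l 63048726471) (l 63048725079)))) (a (c (a (l 16768304) (l 16754048)) (b (l 16747136) (l 16751896))) (a (c (l 95260979495) (l 93650364663)) (l 4)))) (b (a (c (c (l 16750504) (l 16750248)) (c (l 96334715719) (l 95797844103))) (l 4)) (l 4))) (l 4)))), by decide +kernel⟩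

def k234_mm_202_t : ∃ t, chk3 f_mm_202_t t 27 25 1 = true :=
  ⟨(b (a (b (a (a (b (b (c (l 102777162663) (l 101166547239)) (l 4)) (l 4)) (l 4)) (l 4)) (l 4)) (l 4)) (l 4)), by decide +kernel⟩

def k235_mm_202_t : ∃ t, chk3 f_mm_202_t t 12 26 2 = true :=
  ⟨(b (a (b (c (a (l 16541776) (l 16596320)) (a (l 16513784) (l 16575184))) (c (a (l 16553480) (l 16609864)) (a (l 16526616) (l 16590096)))) (a (b (c (a (l 16637984) (l 16666152)) (a (l 16621944) (l 16653488))) (c (a (l 16652888) (l 16681960)) (a (l 16638408) (l 16670976)))) (b (c (b (l 16662992) (l 16671280)) (b (l 16654920) (l 16664088))) (c (b (l 16679864) (l 16688728)) (b (l 16673592) (l 16683432)))))) (a (b (c (a (l 16566528) (l 16645648)) (a (l 16541000) (l 16627448))) (a (c (l 16580872) (l 16556872)) (c (a (l 16625640) (l 16655832)) (a (l 16607328) (l 16641280))))) (a (b (c (a (l 16669016) (l 16698960)) (a (l 16656280) (l 16689832))) (c (c (l 16661912) (l 16657520)) (c (l 16653048) (l 16648488)))) (b (a (c (l 16708240) (l 16702704)) (b (l 16711848) (b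 (l 16740344) (l 16734528)))) (a (c (l 16706224) (l 16702840)) (c (b (l 63585586887) (l 89892245031)) (b (l 62511840295) (l 89355372679)))))))), by decide +kernel⟩

def k236_mm_202_t : ∃ t, chk3 f_mm_202_t t 12 26 3 = true :=
  ⟨(a (b (c (b (a (l 16484792) (l 16553288)) (a (l 16498800) (l 16569624))) (b (a (l 16454840) (l 16530656)) (a (l 16470056) (a (l 16528784) (l 16568216))))) (c (a (b (l 16514568) (l 16532032)) (b (a (l 16569280) (l 16606056)) (a (l 16588368) (l 16626216)))) (a (b (l 16487256) (l 16506368)) (b (a (l 16547856) (l 16588536)) (a (l 16568776) (l 16610640)))))) (b (a (b (c (a (l 16605328) (l 16640368)) (a (l 16588152) (l 16626808))) (c (a (l 16623400) (l 16659592)) (a (l 16607896) (l 16647824)))) (b (c (c (l 16653536) (l 16628536)) (b (l 16637888) (l 16648912))) (c (b (l 16646120) (l 16656968)) (a (l 16667040) (l 16686504))))) (a (b (c (c (l 16643592) (l 16616864)) (c (l 16611008) (l 16605064))) (c (b (l 16635944) (l 16647192)) (a (l 16652736) (l 16674096)))) (b (a (b (l 16667176) (l 16679032))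 (b (l 16706624) (c (l 16719184) (l 16717552)))) (a (c (l 16699328) (l 16695696)) (b (a (l 16742544) (a (l 16754136) (l 4))) (c (l 88818500647) (l 88281627927)))))))), by decide +kernel⟩

def k237_mm_202_t : ∃ t, chk3 f_mm_202_t t 24 27 1 = true :=
  ⟨(b (b (c (a (c (l 16596448) (l 16574184)) (c (a (l 16642440) (l 16673440)) (a (l 16626024) (l 16660896)))) (a (c (l 16551136) (a (l 16506048) (l 16548656))) (c (a (l 16609024) (l 16647904)) (a (l 16591464) (l 16634480))))) (a (c (c (l 16613224) (l 16592872)) (c (l 16571808) (a (l 16528224) (l 16571944)))) (c (c (a (l 16660384) (l 16692152)) (a (l 16646040) (l 16681792))) (c (a (l 16631192) (l 16671056)) (a (l 16615856) (l 16659960)))))) (c (c (a (b (l 16646880) (l 16587272)) (b (a (l 16679424) (l 16711928)) (b (l 16668952) (l 16679416)))) (a (b (l 16570952) (l 16571264)) (b (a (l 16667328) (l 16703912)) (c (l 16668472) (l 16664600))))) (a (b (c (l 16531080) (a (l 16552104) (l 16596888))) (c (l 16544216) (a (l 16577632) (l 16623440)))) (b (c (a (l 16654800) (l 16695608))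 (a (l 16641856) (l 16687024))) (c (b (l 16652192) (l 16665240)) (b (l 16643384) (l 16657792))))))), by decide +kernel⟩

def k238_mm_202_t : ∃ t, chk3 f_mm_202_t t 25 27 1 = true :=
  ⟨(a (a (b (b (c (a (l 16650144) (l 16666808)) (b (l 16655336) (l 16667632))) (c (c (l 16703232) (l 16696816)) (c (l 16690176) (l 16683312)))) (c (b (b (l 16716248) (l 16727368)) (b (l 16741112) (a (l 16762408) (l 16753112)))) (b (c (l 16694688) (l 16690440)) (b (a (l 16723568) (l 16744992)) (a (l 16758840) (l 83449824775)))))) (b (b (c (c (l 16715320) (l 16710456)) (b (l 16675496) (l 16688312))) (c (c (l 16735336) (l 16711840)) (b (l 16701496) (c (l 16715640) (l 16713592))))) (a (b (c (b (l 16763336) (l 16752104)) (b (l 16760048) (l 65196199639))) (b (c (l 16748416) (l 98482201399)) (l 4))) (b (b (c (l 16752576) (l 85597306855)) (l 4)) (l 4))))) (b (a (a (b (c (b (l 16753840) (l 16764560)) (b (l 16727472) (l 16740656))) (b (c (l 16752832) (l 65196204055)) (c (l 99555941671) (l 100092809911)))) (b (c (b (l 16770080) (l 87744787239))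 (b (l 61438096183) (l 87207915047))) (l 4))) (a (b (b (c (l 101166549287) (l 102777159335)) (l 4)) (l 4)) (l 4))) (l 4))), by decide +kernel⟩

def k239_mm_202_t : ∃ t, chk3 f_mm_202_t t 13 13 1 = true :=
  ⟨(b (a (a (b (b (a (c (c (l 16710768) (l 16708072)) (c (l 16705280) (l 16702392))) (a (c (b (l 16748608) (c (l 16752928) (l 16773704))) (b (b (l 16765408) (l 16749760)) (c (l 16752520) (l 16752304)))) (a (b (c (l 16755928) (l 93113502055)) (l 4)) (l 4)))) (b (a (c (c (l 16734448) (l 16722664)) (c (l 59290590839) (l 59827454039))) (a (c (l 104924631975) (l 105461499575)) (l 4))) (a (c (c (l 65196200151) (l 63585583559)) (a (l 16734176) (c (l 16747848) (l 16747528)))) (l 4)))) (b (a (a (c (b (l 66269957479) (l 103314026823)) (b (c (l 16753976) (l 16753744)) (l 103850894615))) (l 4)) (l 4)) (l 4))) (l 4)) (l 4)) (l 4)), by decide +kernel⟩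

def k240_mm_202_t : ∃ t, chk3 f_mm_202_t t 7 6 1 = true :=
  ⟨(l 4), by decide +kernel⟩

def k241_mm_202_t : ∃ t, chk3 f_mm_202_t t 3 7 1 = true :=
  ⟨(a (b (a (b (a (b (c (b (a (c (l 16607352) (l 16593768)) (b (c (l 16690120) (l 16684472)) (c (l 16690440) (l 16675624)))) (a (c (l 16628416) (l 16617424)) (a (b (l 16713536) (l 16725464)) (b (a (l 16761848) (l 16753344)) (c (l 16751040) (l 16750696)))))) (c (a (b (a (l 16621576) (l 16663744)) (a (l 16647504) (l 16690496))) (a (b (l 16685128) (l 16691736)) (b (l 16706464) (b (l 16745944) (l 16745096))))) (a (b (l 16544224) (l 16573336)) (a (b (l 16677512) (l 16708016)) (b (l 16703384) (a (l 16742320) (l 74859870631))))))) (b (a (c (c (l 16650416) (l 16642184)) (c (l 16612688) (l 16603888))) (b (a (c (l 16737360) (l 16711672)) (c (l 94187208711) (a (l 16748952) (l 4)))) (a (c (a (l 16761672) (l 16774312)) (a (l 16757792) (l 16752880))) (l 4)))) (a (c (b (a (l 16708784) (l 16746096)) (c (l 16715688) (l 16674392))) (a (b (l 16691512) (l 16685832)) (c (l 16705408)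 (l 16702128)))) (a (a (c (c (l 16752824) (l 16752480)) (c (l 16752128) (l 16751768))) (l 4)) (l 4))))) (b (a (b (a (a (c (b (l 16772576) (l 16749112)) (b (l 16750312) (l 16748544))) (l 4)) (l 4)) (l 4)) (l 4)) (l 4))) (a (a (a (b (c (b (l 16687400) (c (l 16743112) (l 16741272))) (b (c (l 16711784) (l 16706872)) (b (l 16712000) (a (l 16758816) (l 16773352))))) (b (c (b (l 78081100407) (l 87207894247)) (c (l 80765437287) (l 80228564119))) (l 4))) (b (b (c (b (a (l 16761904) (l 16774136)) (l 75933615575)) (b (a (l 16758032) (l 16752712)) (a (l 16771376) (l 4)))) (b (c (l 89892246807) (l 89355373367)) (l 4))) (l 4))) (l 4)) (l 4))) (l 4)) (l 4)) (l 4)), by decide +kernel⟩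

theorem s242_mm_202_t : ∃ t, chk3 f_mm_202_t t 12 27 1 = true := ex3_a k237_mm_202_t k238_mm_202_t

theorem s243_mm_202_t : ∃ t, chk3 f_mm_202_t t 12 26 1 = true := ex3_c k235_mm_202_t k236_mm_202_t

theorem s244_mm_202_t : ∃ t, chk3 f_mm_202_t t 12 13 1 = true := ex3_b s243_mm_202_t s242_mm_202_t

theorem s245_mm_202_t : ∃ t, chk3 f_mm_202_t t 6 13 1 = true := ex3_a s244_mm_202_t k239_mm_202_t

theorem s246_mm_202_t : ∃ t, chk3 f_mm_202_t t 13 25 1 = true := ex3_a k233_mm_202_t k234_mm_202_t

theorem s247_mm_202_t : ∃ t, chk3 f_mm_202_t t 13 24 1 = true := ex3_a k231_mm_202_t k232_mm_202_t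

theorem s248_mm_202_t : ∃ t, chk3 f_mm_202_t t 13 12 1 = true := ex3_b s247_mm_202_t s246_mm_202_t

theorem s249_mm_202_t : ∃ t, chk3 f_mm_202_t t 12 12 1 = true := ex3_b k229_mm_202_t k230_mm_202_t

theorem s250_mm_202_t : ∃ t, chk3 f_mm_202_t t 6 12 1 = true := ex3_a s249_mm_202_t s248_mm_202_t

theorem s251_mm_202_t : ∃ t, chk3 f_mm_202_t t 6 6 1 = true := ex3_b s250_mm_202_t s245_mm_202_t

theorem s252_mm_202_t : ∃ t, chk3 f_mm_202_t t 3 6 1 = true := ex3_a s251_mm_202_t k240_mm_202_t

theorem s253_mm_202_t : ∃ t, chk3 f_mm_202_t t 3 3 1 = true := ex3_b s252_mm_202_t k241_mm_202_t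

theorem s254_mm_202_t : ∃ t, chk3 f_mm_202_t t 11 15 1 = true := ex3_b k227_mm_202_t k228_mm_202_t

theorem s255_mm_202_t : ∃ t, chk3 f_mm_202_t t 10 15 1 = true := ex3_b k225_mm_202_t k226_mm_202_t

theorem s256_mm_202_t : ∃ t, chk3 f_mm_202_t t 5 15 1 = true := ex3_a s255_mm_202_t s254_mm_202_t

theorem s257_mm_202_t : ∃ t, chk3 f_mm_202_t t 5 29 1 = true := ex3_a k223_mm_202_t k224_mm_202_t

theorem s258_mm_202_t : ∃ t, chk3 f_mm_202_t t 5 28 1 = true := ex3_a k221_mm_202_t k222_mm_202_t

theorem s259_mm_202_t : ∃ t, chk3 f_mm_202_t t 5 14 1 = true := ex3_b s258_mm_202_t s257_mm_202_t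

theorem s260_mm_202_t : ∃ t, chk3 f_mm_202_t t 5 7 1 = true := ex3_b s259_mm_202_t s256_mm_202_t

theorem s261_mm_202_t : ∃ t, chk3 f_mm_202_t t 9 7 1 = true := ex3_a k219_mm_202_t k220_mm_202_t

theorem s262_mm_202_t : ∃ t, chk3 f_mm_202_t t 4 7 1 = true := ex3_a k218_mm_202_t s261_mm_202_t

theorem s263_mm_202_t : ∃ t, chk3 f_mm_202_t t 2 7 1 = true := ex3_a s262_mm_202_t s260_mm_202_t

theorem s264_mm_202_t : ∃ t, chk3 f_mm_202_t t 11 6 1 = true := ex3_a k216_mm_202_t k217_mm_202_t

theorem s265_mm_202_t : ∃ t, chk3 f_mm_202_t t 5 6 1 = true := ex3_a k215_mm_202_t s264_mm_202_t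

theorem s266_mm_202_t : ∃ t, chk3 f_mm_202_t t 2 6 1 = true := ex3_a k214_mm_202_t s265_mm_202_t

theorem s267_mm_202_t : ∃ t, chk3 f_mm_202_t t 2 3 1 = true := ex3_b s266_mm_202_t s263_mm_202_t

theorem s268_mm_202_t : ∃ t, chk3 f_mm_202_t t 1 3 1 = true := ex3_a s267_mm_202_t s253_mm_202_t

theorem s269_mm_202_t : ∃ t, chk3 f_mm_202_t t 28 22 1 = true := ex3_b k209_mm_202_t k210_mm_202_t

theorem s270_mm_202_t : ∃ t, chk3 f_mm_202_t t 28 11 1 = true := ex3_b s269_mm_202_t k211_mm_202_t

theorem s271_mm_202_t : ∃ t, chk3 f_mm_202_t t 14 11 1 = true := ex3_a s270_mm_202_t k212_mm_202_t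

theorem s272_mm_202_t : ∃ t, chk3 f_mm_202_t t 7 11 1 = true := ex3_a s271_mm_202_t k213_mm_202_t

theorem s273_mm_202_t : ∃ t, chk3 f_mm_202_t t 28 21 1 = true := ex3_b k205_mm_202_t k206_mm_202_t

theorem s274_mm_202_t : ∃ t, chk3 f_mm_202_t t 14 21 1 = true := ex3_a s273_mm_202_t k207_mm_202_t

theorem s275_mm_202_t : ∃ t, chk3 f_mm_202_t t 29 41 1 = true := ex3_a k203_mm_202_t k204_mm_202_t

theorem s276_mm_202_t : ∃ t, chk3 f_mm_202_t t 59 40 1 = true := ex3_b k201_mm_202_t k202_mm_202_t

theorem s277_mm_202_t : ∃ t, chk3 f_mm_202_t t 29 40 1 = true := ex3_a k200_mm_202_t s276_mm_202_t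

theorem s278_mm_202_t : ∃ t, chk3 f_mm_202_t t 29 20 1 = true := ex3_b s277_mm_202_t s275_mm_202_t

theorem s279_mm_202_t : ∃ t, chk3 f_mm_202_t t 14 20 1 = true := ex3_a k199_mm_202_t s278_mm_202_t

theorem s280_mm_202_t : ∃ t, chk3 f_mm_202_t t 14 10 1 = true := ex3_b s279_mm_202_t s274_mm_202_t

theorem s281_mm_202_t : ∃ t, chk3 f_mm_202_t t 7 10 1 = true := ex3_a s280_mm_202_t k208_mm_202_t

theorem s282_mm_202_t : ∃ t, chk3 f_mm_202_t t 7 5 1 = true := ex3_b s281_mm_202_t s272_mm_202_t

theorem s283_mm_202_t : ∃ t, chk3 f_mm_202_t t 27 23 1 = true := ex3_a k197_mm_202_t k198_mm_202_t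

theorem s284_mm_202_t : ∃ t, chk3 f_mm_202_t t 13 23 1 = true := ex3_a k196_mm_202_t s283_mm_202_t

theorem s285_mm_202_t : ∃ t, chk3 f_mm_202_t t 6 23 1 = true := ex3_a k195_mm_202_t s284_mm_202_t

theorem s286_mm_202_t : ∃ t, chk3 f_mm_202_t t 6 11 1 = true := ex3_b k194_mm_202_t s285_mm_202_t

theorem s287_mm_202_t : ∃ t, chk3 f_mm_202_t t 6 10 1 = true := ex3_b k192_mm_202_t k193_mm_202_t

theorem s288_mm_202_t : ∃ t, chk3 f_mm_202_t t 6 5 1 = true := ex3_b s287_mm_202_t s286_mm_202_t

theorem s289_mm_202_t : ∃ t, chk3 f_mm_202_t t 3 5 1 = true := ex3_a s288_mm_202_t s282_mm_202_t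

theorem s290_mm_202_t : ∃ t, chk3 f_mm_202_t t 121 38 1 = true := ex3_a k187_mm_202_t k188_mm_202_t

theorem s291_mm_202_t : ∃ t, chk3 f_mm_202_t t 121 19 1 = true := ex3_b s290_mm_202_t k189_mm_202_t

theorem s292_mm_202_t : ∃ t, chk3 f_mm_202_t t 120 19 1 = true := ex3_a k185_mm_202_t k186_mm_202_t

theorem s293_mm_202_t : ∃ t, chk3 f_mm_202_t t 60 19 1 = true := ex3_a s292_mm_202_t s291_mm_202_t

theorem s294_mm_202_t : ∃ t, chk3 f_mm_202_t t 30 19 1 = true := ex3_a s293_mm_202_t k190_mm_202_t

theorem s295_mm_202_t : ∃ t, chk3 f_mm_202_t t 15 19 1 = true := ex3_a s294_mm_202_t k191_mm_202_t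

theorem s296_mm_202_t : ∃ t, chk3 f_mm_202_t t 122 74 1 = true := ex3_a k180_mm_202_t k181_mm_202_t

theorem s297_mm_202_t : ∃ t, chk3 f_mm_202_t t 122 37 1 = true := ex3_b s296_mm_202_t k182_mm_202_t

theorem s298_mm_202_t : ∃ t, chk3 f_mm_202_t t 61 37 1 = true := ex3_a s297_mm_202_t k183_mm_202_t

theorem s299_mm_202_t : ∃ t, chk3 f_mm_202_t t 60 37 3 = true := ex3_b k178_mm_202_t k179_mm_202_t

theorem s300_mm_202_t : ∃ t, chk3 f_mm_202_t t 60 37 2 = true := ex3_b k176_mm_202_t k177_mm_202_t

theorem s301_mm_202_t : ∃ t, chk3 f_mm_202_t t 60 37 1 = true := ex3_c s300_mm_202_t s299_mm_202_t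

theorem s302_mm_202_t : ∃ t, chk3 f_mm_202_t t 30 37 1 = true := ex3_a s301_mm_202_t s298_mm_202_t

theorem s303_mm_202_t : ∃ t, chk3 f_mm_202_t t 246 73 1 = true := ex3_b k173_mm_202_t k174_mm_202_t

theorem s304_mm_202_t : ∃ t, chk3 f_mm_202_t t 123 73 1 = true := ex3_a s303_mm_202_t k175_mm_202_t

theorem s305_mm_202_t : ∃ t, chk3 f_mm_202_t t 122 73 1 = true := ex3_a k171_mm_202_t k172_mm_202_t

theorem s306_mm_202_t : ∃ t, chk3 f_mm_202_t t 61 73 1 = true := ex3_a s305_mm_202_t s304_mm_202_t

theorem s307_mm_202_t : ∃ t, chk3 f_mm_202_t t 61 145 1 = true := ex3_b k169_mm_202_t k170_mm_202_t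

theorem s308_mm_202_t : ∃ t, chk3 f_mm_202_t t 61 289 1 = true := ex3_a k167_mm_202_t k168_mm_202_t

theorem s309_mm_202_t : ∃ t, chk3 f_mm_202_t t 61 288 1 = true := ex3_a k165_mm_202_t k166_mm_202_t

theorem s310_mm_202_t : ∃ t, chk3 f_mm_202_t t 61 144 1 = true := ex3_b s309_mm_202_t s308_mm_202_t

theorem s311_mm_202_t : ∃ t, chk3 f_mm_202_t t 61 72 1 = true := ex3_b s310_mm_202_t s307_mm_202_t

theorem s312_mm_202_t : ∃ t, chk3 f_mm_202_t t 61 36 1 = true := ex3_b s311_mm_202_t s306_mm_202_t

theorem s313_mm_202_t : ∃ t, chk3 f_mm_202_t t 60 73 1 = true := ex3_c k163_mm_202_t k164_mm_202_t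

theorem s314_mm_202_t : ∃ t, chk3 f_mm_202_t t 60 36 1 = true := ex3_b k162_mm_202_t s313_mm_202_t

theorem s315_mm_202_t : ∃ t, chk3 f_mm_202_t t 30 36 1 = true := ex3_a s314_mm_202_t s312_mm_202_t

theorem s316_mm_202_t : ∃ t, chk3 f_mm_202_t t 30 18 1 = true := ex3_b s315_mm_202_t s302_mm_202_t

theorem s317_mm_202_t : ∃ t, chk3 f_mm_202_t t 15 18 1 = true := ex3_a s316_mm_202_t k184_mm_202_t

theorem s318_mm_202_t : ∃ t, chk3 f_mm_202_t t 15 9 1 = true := ex3_b s317_mm_202_t s295_mm_202_t

theorem s319_mm_202_t : ∃ t, chk3 f_mm_202_t t 29 39 1 = true := ex3_b k160_mm_202_t k161_mm_202_t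

theorem s320_mm_202_t : ∃ t, chk3 f_mm_202_t t 14 39 1 = true := ex3_a k159_mm_202_t s319_mm_202_t

theorem s321_mm_202_t : ∃ t, chk3 f_mm_202_t t 59 38 1 = true := ex3_b k157_mm_202_t k158_mm_202_t

theorem s322_mm_202_t : ∃ t, chk3 f_mm_202_t t 29 38 1 = true := ex3_a k156_mm_202_t s321_mm_202_t

theorem s323_mm_202_t : ∃ t, chk3 f_mm_202_t t 14 38 1 = true := ex3_a k155_mm_202_t s322_mm_202_t

theorem s324_mm_202_t : ∃ t, chk3 f_mm_202_t t 14 19 1 = true := ex3_b s323_mm_202_t s320_mm_202_t

theorem s325_mm_202_t : ∃ t, chk3 f_mm_202_t t 29 74 1 = true := ex3_a k152_mm_202_t k153_mm_202_t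

theorem s326_mm_202_t : ∃ t, chk3 f_mm_202_t t 29 37 1 = true := ex3_b s325_mm_202_t k154_mm_202_t

theorem s327_mm_202_t : ∃ t, chk3 f_mm_202_t t 59 36 1 = true := ex3_b k150_mm_202_t k151_mm_202_t

theorem s328_mm_202_t : ∃ t, chk3 f_mm_202_t t 58 36 1 = true := ex3_c k148_mm_202_t k149_mm_202_t

theorem s329_mm_202_t : ∃ t, chk3 f_mm_202_t t 29 36 1 = true := ex3_a s328_mm_202_t s327_mm_202_t

theorem s330_mm_202_t : ∃ t, chk3 f_mm_202_t t 29 18 1 = true := ex3_b s329_mm_202_t s326_mm_202_t

theorem s331_mm_202_t : ∃ t, chk3 f_mm_202_t t 28 37 1 = true := ex3_c k146_mm_202_t k147_mm_202_t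

theorem s332_mm_202_t : ∃ t, chk3 f_mm_202_t t 28 36 1 = true := ex3_b k144_mm_202_t k145_mm_202_t

theorem s333_mm_202_t : ∃ t, chk3 f_mm_202_t t 28 18 1 = true := ex3_b s332_mm_202_t s331_mm_202_t

theorem s334_mm_202_t : ∃ t, chk3 f_mm_202_t t 14 18 1 = true := ex3_a s333_mm_202_t s330_mm_202_t

theorem s335_mm_202_t : ∃ t, chk3 f_mm_202_t t 14 9 1 = true := ex3_b s334_mm_202_t s324_mm_202_t

theorem s336_mm_202_t : ∃ t, chk3 f_mm_202_t t 7 9 1 = true := ex3_a s335_mm_202_t s318_mm_202_t

theorem s337_mm_202_t : ∃ t, chk3 f_mm_202_t t 248 142 1 = true := ex3_b k138_mm_202_t k139_mm_202_t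

theorem s338_mm_202_t : ∃ t, chk3 f_mm_202_t t 248 71 1 = true := ex3_b s337_mm_202_t k140_mm_202_t

theorem s339_mm_202_t : ∃ t, chk3 f_mm_202_t t 124 71 1 = true := ex3_a s338_mm_202_t k141_mm_202_t

theorem s340_mm_202_t : ∃ t, chk3 f_mm_202_t t 249 140 3 = true := ex3_a k135_mm_202_t k136_mm_202_t

theorem s341_mm_202_t : ∃ t, chk3 f_mm_202_t t 249 70 3 = true := ex3_b s340_mm_202_t k137_mm_202_t

theorem s342_mm_202_t : ∃ t, chk3 f_mm_202_t t 248 70 3 = true := ex3_b k133_mm_202_t k134_mm_202_t

theorem s343_mm_202_t : ∃ t, chk3 f_mm_202_t t 124 70 3 = true := ex3_a s342_mm_202_t s341_mm_202_t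

theorem s344_mm_202_t : ∃ t, chk3 f_mm_202_t t 249 140 2 = true := ex3_a k130_mm_202_t k131_mm_202_t

theorem s345_mm_202_t : ∃ t, chk3 f_mm_202_t t 249 70 2 = true := ex3_b s344_mm_202_t k132_mm_202_t

theorem s346_mm_202_t : ∃ t, chk3 f_mm_202_t t 248 70 2 = true := ex3_b k128_mm_202_t k129_mm_202_t

theorem s347_mm_202_t : ∃ t, chk3 f_mm_202_t t 124 70 2 = true := ex3_a s346_mm_202_t s345_mm_202_t

theorem s348_mm_202_t : ∃ t, chk3 f_mm_202_t t 124 70 1 = true := ex3_c s347_mm_202_t s343_mm_202_t

theorem s349_mm_202_t : ∃ t, chk3 f_mm_202_t t 124 35 1 = true := ex3_b s348_mm_202_t s339_mm_202_t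

theorem s350_mm_202_t : ∃ t, chk3 f_mm_202_t t 62 35 1 = true := ex3_a s349_mm_202_t k142_mm_202_t

theorem s351_mm_202_t : ∃ t, chk3 f_mm_202_t t 31 35 1 = true := ex3_a s350_mm_202_t k143_mm_202_t

theorem s352_mm_202_t : ∃ t, chk3 f_mm_202_t t 250 278 1 = true := ex3_a k123_mm_202_t k124_mm_202_t

theorem s353_mm_202_t : ∃ t, chk3 f_mm_202_t t 250 139 1 = true := ex3_b s352_mm_202_t k125_mm_202_t

theorem s354_mm_202_t : ∃ t, chk3 f_mm_202_t t 1002 138 1 = true := ex3_a k120_mm_202_t k121_mm_202_t

theorem s355_mm_202_t : ∃ t, chk3 f_mm_202_t t 501 138 1 = true := ex3_a s354_mm_202_t k122_mm_202_t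

theorem s356_mm_202_t : ∃ t, chk3 f_mm_202_t t 500 138 1 = true := ex3_c k118_mm_202_t k119_mm_202_t

theorem s357_mm_202_t : ∃ t, chk3 f_mm_202_t t 250 138 1 = true := ex3_a s356_mm_202_t s355_mm_202_t

theorem s358_mm_202_t : ∃ t, chk3 f_mm_202_t t 250 69 1 = true := ex3_b s357_mm_202_t s353_mm_202_t

theorem s359_mm_202_t : ∃ t, chk3 f_mm_202_t t 125 69 1 = true := ex3_a s358_mm_202_t k126_mm_202_t

theorem s360_mm_202_t : ∃ t, chk3 f_mm_202_t t 249 69 3 = true := ex3_a k116_mm_202_t k117_mm_202_t

theorem s361_mm_202_t : ∃ t, chk3 f_mm_202_t t 124 69 3 = true := ex3_a k115_mm_202_t s360_mm_202_t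

theorem s362_mm_202_t : ∃ t, chk3 f_mm_202_t t 124 139 2 = true := ex3_a k113_mm_202_t k114_mm_202_t

theorem s363_mm_202_t : ∃ t, chk3 f_mm_202_t t 124 69 2 = true := ex3_b k112_mm_202_t s362_mm_202_t

theorem s364_mm_202_t : ∃ t, chk3 f_mm_202_t t 124 69 1 = true := ex3_c s363_mm_202_t s361_mm_202_t

theorem s365_mm_202_t : ∃ t, chk3 f_mm_202_t t 62 69 1 = true := ex3_a s364_mm_202_t s359_mm_202_t

theorem s366_mm_202_t : ∃ t, chk3 f_mm_202_t t 502 274 3 = true := ex3_a k108_mm_202_t k109_mm_202_t

theorem s367_mm_202_t : ∃ t, chk3 f_mm_202_t t 502 137 3 = true := ex3_b s366_mm_202_t k110_mm_202_t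

theorem s368_mm_202_t : ∃ t, chk3 f_mm_202_t t 251 137 3 = true := ex3_a s367_mm_202_t k111_mm_202_t

theorem s369_mm_202_t : ∃ t, chk3 f_mm_202_t t 251 273 3 = true := ex3_a k106_mm_202_t k107_mm_202_t

theorem s370_mm_202_t : ∃ t, chk3 f_mm_202_t t 503 272 3 = true := ex3_a k104_mm_202_t k105_mm_202_t

theorem s371_mm_202_t : ∃ t, chk3 f_mm_202_t t 251 272 3 = true := ex3_a k103_mm_202_t s370_mm_202_t

theorem s372_mm_202_t : ∃ t, chk3 f_mm_202_t t 251 136 3 = true := ex3_b s371_mm_202_t s369_mm_202_t

theorem s373_mm_202_t : ∃ t, chk3 f_mm_202_t t 251 68 3 = true := ex3_b s372_mm_202_t s368_mm_202_t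

theorem s374_mm_202_t : ∃ t, chk3 f_mm_202_t t 250 68 7 = true := ex3_b k101_mm_202_t k102_mm_202_t

theorem s375_mm_202_t : ∃ t, chk3 f_mm_202_t t 250 68 6 = true := ex3_b k99_mm_202_t k100_mm_202_t

theorem s376_mm_202_t : ∃ t, chk3 f_mm_202_t t 250 68 3 = true := ex3_c s375_mm_202_t s374_mm_202_t

theorem s377_mm_202_t : ∃ t, chk3 f_mm_202_t t 125 68 3 = true := ex3_a s376_mm_202_t s373_mm_202_t

theorem s378_mm_202_t : ∃ t, chk3 f_mm_202_t t 502 137 2 = true := ex3_b k96_mm_202_t k97_mm_202_t

theorem s379_mm_202_t : ∃ t, chk3 f_mm_202_t t 251 137 2 = true := ex3_a s378_mm_202_t k98_mm_202_t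

theorem s380_mm_202_t : ∃ t, chk3 f_mm_202_t t 503 136 2 = true := ex3_b k94_mm_202_t k95_mm_202_t

theorem s381_mm_202_t : ∃ t, chk3 f_mm_202_t t 502 136 2 = true := ex3_b k92_mm_202_t k93_mm_202_t

theorem s382_mm_202_t : ∃ t, chk3 f_mm_202_t t 251 136 2 = true := ex3_a s381_mm_202_t s380_mm_202_t

theorem s383_mm_202_t : ∃ t, chk3 f_mm_202_t t 251 68 2 = true := ex3_b s382_mm_202_t s379_mm_202_t

theorem s384_mm_202_t : ∃ t, chk3 f_mm_202_t t 250 137 2 = true := ex3_a k90_mm_202_t k91_mm_202_t

theorem s385_mm_202_t : ∃ t, chk3 f_mm_202_t t 250 68 2 = true := ex3_b k89_mm_202_t s384_mm_202_t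

theorem s386_mm_202_t : ∃ t, chk3 f_mm_202_t t 125 68 2 = true := ex3_a s385_mm_202_t s383_mm_202_t

theorem s387_mm_202_t : ∃ t, chk3 f_mm_202_t t 125 68 1 = true := ex3_c s386_mm_202_t s377_mm_202_t

theorem s388_mm_202_t : ∃ t, chk3 f_mm_202_t t 124 68 3 = true := ex3_b k87_mm_202_t k88_mm_202_t

theorem s389_mm_202_t : ∃ t, chk3 f_mm_202_t t 124 68 2 = true := ex3_b k85_mm_202_t k86_mm_202_t

theorem s390_mm_202_t : ∃ t, chk3 f_mm_202_t t 124 68 1 = true := ex3_c s389_mm_202_t s388_mm_202_t

theorem s391_mm_202_t : ∃ t, chk3 f_mm_202_t t 62 68 1 = true := ex3_a s390_mm_202_t s387_mm_202_t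

theorem s392_mm_202_t : ∃ t, chk3 f_mm_202_t t 62 34 1 = true := ex3_b s391_mm_202_t s365_mm_202_t

theorem s393_mm_202_t : ∃ t, chk3 f_mm_202_t t 31 34 1 = true := ex3_a s392_mm_202_t k127_mm_202_t

theorem s394_mm_202_t : ∃ t, chk3 f_mm_202_t t 31 17 1 = true := ex3_b s393_mm_202_t s351_mm_202_t

theorem s395_mm_202_t : ∃ t, chk3 f_mm_202_t t 61 287 1 = true := ex3_a k83_mm_202_t k84_mm_202_t

theorem s396_mm_202_t : ∃ t, chk3 f_mm_202_t t 61 143 1 = true := ex3_b k82_mm_202_t s395_mm_202_t

theorem s397_mm_202_t : ∃ t, chk3 f_mm_202_t t 61 142 1 = true := ex3_c k80_mm_202_t k81_mm_202_t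

theorem s398_mm_202_t : ∃ t, chk3 f_mm_202_t t 61 71 1 = true := ex3_b s397_mm_202_t s396_mm_202_t

theorem s399_mm_202_t : ∃ t, chk3 f_mm_202_t t 61 70 3 = true := ex3_a k78_mm_202_t k79_mm_202_t

theorem s400_mm_202_t : ∃ t, chk3 f_mm_202_t t 61 70 2 = true := ex3_a k76_mm_202_t k77_mm_202_t

theorem s401_mm_202_t : ∃ t, chk3 f_mm_202_t t 61 70 1 = true := ex3_c s400_mm_202_t s399_mm_202_t

theorem s402_mm_202_t : ∃ t, chk3 f_mm_202_t t 61 35 1 = true := ex3_b s401_mm_202_t s398_mm_202_t

theorem s403_mm_202_t : ∃ t, chk3 f_mm_202_t t 60 71 1 = true := ex3_c k74_mm_202_t k75_mm_202_t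

theorem s404_mm_202_t : ∃ t, chk3 f_mm_202_t t 60 70 1 = true := ex3_c k72_mm_202_t k73_mm_202_t

theorem s405_mm_202_t : ∃ t, chk3 f_mm_202_t t 60 35 1 = true := ex3_b s404_mm_202_t s403_mm_202_t

theorem s406_mm_202_t : ∃ t, chk3 f_mm_202_t t 30 35 1 = true := ex3_a s405_mm_202_t s402_mm_202_t

theorem s407_mm_202_t : ∃ t, chk3 f_mm_202_t t 123 69 1 = true := ex3_c k70_mm_202_t k71_mm_202_t

theorem s408_mm_202_t : ∃ t, chk3 f_mm_202_t t 61 69 1 = true := ex3_a k69_mm_202_t s407_mm_202_t

theorem s409_mm_202_t : ∃ t, chk3 f_mm_202_t t 61 68 3 = true := ex3_a k67_mm_202_t k68_mm_202_t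

theorem s410_mm_202_t : ∃ t, chk3 f_mm_202_t t 61 68 2 = true := ex3_a k65_mm_202_t k66_mm_202_t

theorem s411_mm_202_t : ∃ t, chk3 f_mm_202_t t 61 68 1 = true := ex3_c s410_mm_202_t s409_mm_202_t

theorem s412_mm_202_t : ∃ t, chk3 f_mm_202_t t 61 34 1 = true := ex3_b s411_mm_202_t s408_mm_202_t

theorem s413_mm_202_t : ∃ t, chk3 f_mm_202_t t 121 34 1 = true := ex3_a k63_mm_202_t k64_mm_202_t

theorem s414_mm_202_t : ∃ t, chk3 f_mm_202_t t 120 34 1 = true := ex3_a k61_mm_202_t k62_mm_202_t

theorem s415_mm_202_t : ∃ t, chk3 f_mm_202_t t 60 34 1 = true := ex3_a s414_mm_202_t s413_mm_202_t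

theorem s416_mm_202_t : ∃ t, chk3 f_mm_202_t t 30 34 1 = true := ex3_a s415_mm_202_t s412_mm_202_t

theorem s417_mm_202_t : ∃ t, chk3 f_mm_202_t t 30 17 1 = true := ex3_b s416_mm_202_t s406_mm_202_t

theorem s418_mm_202_t : ∃ t, chk3 f_mm_202_t t 15 17 1 = true := ex3_a s417_mm_202_t s394_mm_202_t

theorem s419_mm_202_t : ∃ t, chk3 f_mm_202_t t 1008 271 1 = true := ex3_a k55_mm_202_t k56_mm_202_t

theorem s420_mm_202_t : ∃ t, chk3 f_mm_202_t t 504 271 1 = true := ex3_a s419_mm_202_t k57_mm_202_t

theorem s421_mm_202_t : ∃ t, chk3 f_mm_202_t t 504 540 1 = true := ex3_b k52_mm_202_t k53_mm_202_t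

theorem s422_mm_202_t : ∃ t, chk3 f_mm_202_t t 504 270 1 = true := ex3_b s421_mm_202_t k54_mm_202_t

theorem s423_mm_202_t : ∃ t, chk3 f_mm_202_t t 504 135 1 = true := ex3_b s422_mm_202_t s420_mm_202_t

theorem s424_mm_202_t : ∃ t, chk3 f_mm_202_t t 252 135 1 = true := ex3_a s423_mm_202_t k58_mm_202_t

theorem s425_mm_202_t : ∃ t, chk3 f_mm_202_t t 252 538 3 = true := ex3_b k49_mm_202_t k50_mm_202_t

theorem s426_mm_202_t : ∃ t, chk3 f_mm_202_t t 252 269 3 = true := ex3_b s425_mm_202_t k51_mm_202_t

theorem s427_mm_202_t : ∃ t, chk3 f_mm_202_t t 252 134 3 = true := ex3_b k48_mm_202_t s426_mm_202_t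

theorem s428_mm_202_t : ∃ t, chk3 f_mm_202_t t 505 134 2 = true := ex3_b k46_mm_202_t k47_mm_202_t

theorem s429_mm_202_t : ∃ t, chk3 f_mm_202_t t 504 134 2 = true := ex3_b k44_mm_202_t k45_mm_202_t

theorem s430_mm_202_t : ∃ t, chk3 f_mm_202_t t 252 134 2 = true := ex3_a s429_mm_202_t s428_mm_202_t

theorem s431_mm_202_t : ∃ t, chk3 f_mm_202_t t 252 134 1 = true := ex3_c s430_mm_202_t s427_mm_202_t

theorem s432_mm_202_t : ∃ t, chk3 f_mm_202_t t 252 67 1 = true := ex3_b s431_mm_202_t s424_mm_202_t

theorem s433_mm_202_t : ∃ t, chk3 f_mm_202_t t 126 67 1 = true := ex3_a s432_mm_202_t k59_mm_202_t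

theorem s434_mm_202_t : ∃ t, chk3 f_mm_202_t t 126 33 1 = true := ex3_b k43_mm_202_t s433_mm_202_t

theorem s435_mm_202_t : ∃ t, chk3 f_mm_202_t t 63 33 1 = true := ex3_a s434_mm_202_t k60_mm_202_t

theorem s436_mm_202_t : ∃ t, chk3 f_mm_202_t t 503 135 3 = true := ex3_b k41_mm_202_t k42_mm_202_t

theorem s437_mm_202_t : ∃ t, chk3 f_mm_202_t t 251 135 3 = true := ex3_a k40_mm_202_t s436_mm_202_t

theorem s438_mm_202_t : ∃ t, chk3 f_mm_202_t t 251 135 2 = true := ex3_c k38_mm_202_t k39_mm_202_t

theorem s439_mm_202_t : ∃ t, chk3 f_mm_202_t t 251 135 1 = true := ex3_c s438_mm_202_t s437_mm_202_t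

theorem s440_mm_202_t : ∃ t, chk3 f_mm_202_t t 250 135 1 = true := ex3_c k36_mm_202_t k37_mm_202_t

theorem s441_mm_202_t : ∃ t, chk3 f_mm_202_t t 125 135 1 = true := ex3_a s440_mm_202_t s439_mm_202_t

theorem s442_mm_202_t : ∃ t, chk3 f_mm_202_t t 125 539 1 = true := ex3_a k34_mm_202_t k35_mm_202_t

theorem s443_mm_202_t : ∃ t, chk3 f_mm_202_t t 125 538 1 = true := ex3_a k32_mm_202_t k33_mm_202_t

theorem s444_mm_202_t : ∃ t, chk3 f_mm_202_t t 125 269 1 = true := ex3_b s443_mm_202_t s442_mm_202_t

theorem s445_mm_202_t : ∃ t, chk3 f_mm_202_t t 125 134 1 = true := ex3_b k31_mm_202_t s444_mm_202_t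

theorem s446_mm_202_t : ∃ t, chk3 f_mm_202_t t 125 67 1 = true := ex3_b s445_mm_202_t s441_mm_202_t

theorem s447_mm_202_t : ∃ t, chk3 f_mm_202_t t 124 135 1 = true := ex3_c k29_mm_202_t k30_mm_202_t

theorem s448_mm_202_t : ∃ t, chk3 f_mm_202_t t 124 134 1 = true := ex3_b k27_mm_202_t k28_mm_202_t

theorem s449_mm_202_t : ∃ t, chk3 f_mm_202_t t 124 67 1 = true := ex3_b s448_mm_202_t s447_mm_202_t

theorem s450_mm_202_t : ∃ t, chk3 f_mm_202_t t 62 67 1 = true := ex3_a s449_mm_202_t s446_mm_202_t

theorem s451_mm_202_t : ∃ t, chk3 f_mm_202_t t 62 33 1 = true := ex3_b k26_mm_202_t s450_mm_202_t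

theorem s452_mm_202_t : ∃ t, chk3 f_mm_202_t t 31 33 1 = true := ex3_a s451_mm_202_t s435_mm_202_t

theorem s453_mm_202_t : ∃ t, chk3 f_mm_202_t t 31 16 1 = true := ex3_b k25_mm_202_t s452_mm_202_t

theorem s454_mm_202_t : ∃ t, chk3 f_mm_202_t t 123 67 1 = true := ex3_b k23_mm_202_t k24_mm_202_t

theorem s455_mm_202_t : ∃ t, chk3 f_mm_202_t t 123 33 1 = true := ex3_b k22_mm_202_t s454_mm_202_t

theorem s456_mm_202_t : ∃ t, chk3 f_mm_202_t t 122 67 1 = true := ex3_a k20_mm_202_t k21_mm_202_t

theorem s457_mm_202_t : ∃ t, chk3 f_mm_202_t t 122 33 1 = true := ex3_b k19_mm_202_t s456_mm_202_t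

theorem s458_mm_202_t : ∃ t, chk3 f_mm_202_t t 61 33 1 = true := ex3_a s457_mm_202_t s455_mm_202_t

theorem s459_mm_202_t : ∃ t, chk3 f_mm_202_t t 30 33 1 = true := ex3_a k18_mm_202_t s458_mm_202_t

theorem s460_mm_202_t : ∃ t, chk3 f_mm_202_t t 30 16 1 = true := ex3_b k17_mm_202_t s459_mm_202_t

theorem s461_mm_202_t : ∃ t, chk3 f_mm_202_t t 15 16 1 = true := ex3_a s460_mm_202_t s453_mm_202_t

theorem s462_mm_202_t : ∃ t, chk3 f_mm_202_t t 15 8 1 = true := ex3_b s461_mm_202_t s418_mm_202_t

theorem s463_mm_202_t : ∃ t, chk3 f_mm_202_t t 59 17 3 = true := ex3_b k15_mm_202_t k16_mm_202_t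

theorem s464_mm_202_t : ∃ t, chk3 f_mm_202_t t 29 17 3 = true := ex3_a k14_mm_202_t s463_mm_202_t

theorem s465_mm_202_t : ∃ t, chk3 f_mm_202_t t 14 17 3 = true := ex3_a k13_mm_202_t s464_mm_202_t

theorem s466_mm_202_t : ∃ t, chk3 f_mm_202_t t 59 17 2 = true := ex3_b k11_mm_202_t k12_mm_202_t

theorem s467_mm_202_t : ∃ t, chk3 f_mm_202_t t 29 17 2 = true := ex3_a k10_mm_202_t s466_mm_202_t

theorem s468_mm_202_t : ∃ t, chk3 f_mm_202_t t 14 17 2 = true := ex3_a k9_mm_202_t s467_mm_202_t

theorem s469_mm_202_t : ∃ t, chk3 f_mm_202_t t 14 17 1 = true := ex3_c s468_mm_202_t s465_mm_202_t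

theorem s470_mm_202_t : ∃ t, chk3 f_mm_202_t t 14 8 1 = true := ex3_b k8_mm_202_t s469_mm_202_t

theorem s471_mm_202_t : ∃ t, chk3 f_mm_202_t t 7 8 1 = true := ex3_a s470_mm_202_t s462_mm_202_t

theorem s472_mm_202_t : ∃ t, chk3 f_mm_202_t t 7 4 1 = true := ex3_b s471_mm_202_t s336_mm_202_t

theorem s473_mm_202_t : ∃ t, chk3 f_mm_202_t t 13 19 1 = true := ex3_b k6_mm_202_t k7_mm_202_t

theorem s474_mm_202_t : ∃ t, chk3 f_mm_202_t t 6 19 1 = true := ex3_a k5_mm_202_t s473_mm_202_t

theorem s475_mm_202_t : ∃ t, chk3 f_mm_202_t t 13 18 1 = true := ex3_b k3_mm_202_t k4_mm_202_t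

theorem s476_mm_202_t : ∃ t, chk3 f_mm_202_t t 6 18 1 = true := ex3_a k2_mm_202_t s475_mm_202_t

theorem s477_mm_202_t : ∃ t, chk3 f_mm_202_t t 6 9 1 = true := ex3_b s476_mm_202_t s474_mm_202_t

theorem s478_mm_202_t : ∃ t, chk3 f_mm_202_t t 6 4 1 = true := ex3_b k1_mm_202_t s477_mm_202_t

theorem s479_mm_202_t : ∃ t, chk3 f_mm_202_t t 3 4 1 = true := ex3_a s478_mm_202_t s472_mm_202_t

theorem s480_mm_202_t : ∃ t, chk3 f_mm_202_t t 3 2 1 = true := ex3_b s479_mm_202_t s289_mm_202_t

theorem s481_mm_202_t : ∃ t, chk3 f_mm_202_t t 1 2 1 = true := ex3_a k0_mm_202_t s480_mm_202_t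

theorem s482_mm_202_t : ∃ t, chk3 f_mm_202_t t 1 1 1 = true := ex3_b s481_mm_202_t s268_mm_202_t

theorem c_mm_202_t : CertNE 0 536870912 0 536870912 991146299 28908434 3 eng mog cd0q2 cd0q0 pd2 true false false .pp 2 0 2
    ndB0q2 ndB0q0 pcB2 cut_mm_202_t Ext.none :=
  certNE1 (fam := true) (s1 := false) (s2 := false) (a := 2) (b := 0) (c := 2) (cn := .pp) (n1 := ndB0q2) (n2 := ndB0q0) (pc := pcB2) (cut := cut_mm_202_t) (xt := Ext.none) (P1 := 0) (W1 := 536870912) (P2 := 0) (W2 := 536870912) (P3 := 991146299) (W3 := 28908434) (N0 := 3) (En := eng) (mo := mog) (C1 := cd0q2) (C2 := cd0q0) (C3 := pd2)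
    rfl (fun _ => rfl) s482_mm_202_t

end Pool.Agent.Strip051.G.I9231_9500.Tab.CS.BA00

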