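import Pool.Agent.Strip051.G.I9231_9500.StH
import Pool.Agent.Strip051.G.I9231_9500.StF

/-! # Unit strips 13 (generated) -/

set_option linter.all false
set_option maxRecDepth 100000

namespace Pool.Agent.Strip051.G.I9231_9500.Tab.St.C

open Pool.Agent.Strip051.PB Pool.Agent.Strip051.PB.T Pool.Agent.StripNear Pool.Agent.Strip051.LC
open Pool.Agent.Strip051.G.I9231_9500.Tab Pool.Agent.Strip051.G.I9231_9500.Tab.St

noncomputable def cut_B00pm_011_s3 : Cut := Cut.of [[⟨3, 0, 0, 2845415833⟩], [⟨0, 0, 0, 26843545⟩, ⟨1, 1, 0, 26843545⟩, ⟨2, 1, 0, 26843545⟩]]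

noncomputable def xt_B00pm_011_s3 : Ext := strExt dd false true false .u0 .u0m .s0m .pnn 0 1 1 rfl rfl gl1 vv ndB0q0 ndB0q1

noncomputable def f_B00pm_011_s3 : ℕ → ℕ → ℕ → ℕ → Bool := onCell 0 536870912 536870912 536870912 991146299 28908434
    (rowF 0 false true false .pnn 0 1 1 (qsf 0 536870912 536870912 536870912 1) ndB0q0 ndB0q1 pcB1 cut_B00pm_011_s3 xt_B00pm_011_s3)

def k0_B00pm_011_s3 : ∃ t, chk3 f_B00pm_011_s3 t 1 2 1 = true :=
  ⟨(a (l 4) (a (b (l 1) (l 4)) (l 1))), by decide +kernel⟩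

def k1_B00pm_011_s3 : ∃ t, chk3 f_B00pm_011_s3 t 2 6 1 = true :=
  ⟨(a (l 4) (a (l 4) (b (l 4) (b (l 4) (b (a (l 4) (a (l 4) (a (l 525882383) (a (l 525756431) (l 525762575))))) (a (a (l 4) (c (l 526664207) (l 525416719))) (c (a (l 526615311) (l 526585615)) (l 525125391)))))))), by decide +kernel⟩

def k2_B00pm_011_s3 : ∃ t, chk3 f_B00pm_011_s3 t 4 14 1 = true :=
  ⟨(a (l 4) (a (l 4) (b (l 4) (a (l 4) (b (l 4) (b (l 4) (a (l 527558927) (l 527449871)))))))), by decide +kernel⟩

def k3_B00pm_011_s3 : ∃ t, chk3 f_B00pm_011_s3 t 8 30 1 = true :=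
  ⟨(b (l 4) (a (l 4) (a (l 4) (a (l 4) (b (l 4) (a (l 4) (b (l 4) (c (l 528755727) (l 526976527))))))))), by decide +kernel⟩

def k4_B00pm_011_s3 : ∃ t, chk3 f_B00pm_011_s3 t 16 62 1 = true :=
  ⟨(b (l 4) (b (l 4) (a (l 4) (a (l 4) (a (l 4) (a (l 4) (a (l 4) (b (l 4) (l 524903951))))))))), by decide +kernel⟩

def k5_B00pm_011_s3 : ∃ t, chk3 f_B00pm_011_s3 t 34 62 1 = true :=
  ⟨(a (b (l 4) (a (b (l 4) (c (a (l 526204431) (l 526087951)) (a (l 524144143) (l 524310543)))) (c (a (b (l 4) (l 526238991)) (b (l 526533647) (l 526389519))) (a (l 524539407) (l 524705295))))) (b (b (l 4) (a (l 4) (c (a (l 4) (l 527259407)) (l 525525775)))) (b (a (c (a (l 526682127) (l 526829839)) (l 525042703)) (c (a (l 526977039) (l 527123727)) (l 525366799))) (a (c (a (l 526539535) (l 526688527)) (l 524877327)) (c (a (l 526837263) (l 526984975)) (l 525204495)))))), by decide +kernel⟩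

def k6_B00pm_011_s3 : ∃ t, chk3 f_B00pm_011_s3 t 35 62 1 = true :=
  ⟨(b (b (a (a (l 4) (c (a (l 527870991) (l 527988751)) (l 526349583))) (c (a (c (l 528516111) (l 527762959)) (l 528320783)) (a (l 526589199) (l 526786063)))) (a (a (c (c (l 527863311) (l 527073551)) (l 525843983)) (c (c (a (l 528066831) (l 528192015)) (a (l 527287567) (l 527418639))) (c (l 526548239) (l 525723919)))) (c (a (b (l 528019983) (l 528227087)) (c (l 528562191) (l 527807503))) (a (l 526404623) (l 526631695))))) (a (b (a (c (c (l 527734543) (l 526934031)) (l 525687823)) (c (a (l 527559695) (l 527702031)) (l 526032655))) (a (c (c (l 527602703) (l 526791439)) (l 525528335)) (a (b (l 527457551) (b (l 526598415) (c (c (b (l 16731960) (l 16730336)) (b (l 16727944) (l 16726160))) (b (l 16721696) (l 16719648))))) (b (l 527607311) (c (b (c (b (l 16732624) (l 16730472)) (l 16727416)) (c (l 16728872) (l 16724480))) (b (l 16721040) (l 16717632))))))) (b (c (a (a (l 527829519) (l 527938063)) (c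 (l 528462863) (l 527698959))) (a (l 526278927) (l 526508303))) (a (b (a (l 527744783) (b (l 527082767) (b (l 527058959) (c (c (l 16727728) (l 16723232)) (l 16716224))))) (c (b (a (b (c (l 16729072) (l 16724728)) (l 16725696)) (l 16724216)) (l 16723952)) (b (a (b (l 16717960) (l 16716464)) (l 16714488)) (l 16713816)))) (b (a (c (b (l 16732064) (c (l 16726136) (l 16721432))) (b (l 16717776) (l 16714104))) (b (c (b (l 16734648) (l 16722768)) (l 16713816)) (a (l 16727576) (l 16716072)))) (c (c (l 16723792) (l 16718400)) (l 16709992))))))), by decide +kernel⟩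

def k7_B00pm_011_s3 : ∃ t, chk3 f_B00pm_011_s3 t 32 126 1 = true :=
  ⟨(b (l 4) (b (l 4) (b (l 4) (l 14)))), by decide +kernel⟩

def k8_B00pm_011_s3 : ∃ t, chk3 f_B00pm_011_s3 t 33 126 1 = true :=
  ⟨(a (a (b (l 4) (a (b (l 4) (a (b (l 4) (a (l 14) (l 523346447))) (c (l 524384783) (l 522429199)))) (a (b (l 4) (c (l 524464911) (l 522517007))) (c (c (l 524768271) (l 523824911)) (l 522628879))))) (b (a (l 4) (a (l 4) (c (l 525052175) (l 523168527)))) (a (c (a (b (l 524706575) (l 524624655)) (b (l 524785679) (l 524704015))) (a (l 522717455) (l 522805775))) (c (a (a (l 524794383) (l 524834319)) (a (l 524873999) (l 524913679))) (a (l 522893583) (l 522981135)))))) (b (a (a (c (a (l 525130767) (l 525209103)) (a (l 523254287) (l 523340047))) (c (a (l 525287183) (l 525365007)) (l 523459343))) (c (a (c (l 525651727) (l 524754959)) (c (l 525803279) (l 524913679))) (a (l 523630351) (l 523800335)))) (a (a (c (a (l 525103119) (l 525048335)) (a (l 523068175) (l 523154959)))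 (b (c (c (l 525395471) (l 524484111)) (l 523337231)) (a (b (l 524192527) (b (l 524161807) (c (b (l 16748488) (c (l 16748512) (l 16746160))) (b (l 16743880) (l 16742512))))) (b (l 524274191) (c (b (c (l 16749056) (l 16746760)) (b (c (l 16742232) (l 16734552)) (l 16745768))) (b (l 16743184) (l 16741040))))))) (b (c (a (l 525367567) (l 525522959)) (a (l 523508239) (l 523677967))) (a (b (a (l 524355599) (b (l 524448527) (b (l 524433167) (c (c (l 16746160) (l 16743600)) (l 16739624))))) (c (b (a (b (c (l 16747240) (l 16744784)) (l 16745224)) (l 16744120)) (l 16744136)) (b (a (b (l 16740960) (l 16740008)) (l 16738624)) (l 16738424)))) (b (a (b (l 524529423) (c (b (a (l 16744248) (l 16743288)) (l 16743248)) (l 16738104))) (c (b (b (l 16743776) (a (l 16743144) (l 16742312))) (l 16742184)) (b (b (l 16738320) (l 16737144)) (l 16736264)))) (c (l 16742072) (l 16735784)))))))), by decide +kernel⟩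

def k9_B00pm_011_s3 : ∃ t, chk3 f_B00pm_011_s3 t 32 127 1 = true :=
  ⟨(l 14), by decide +kernel⟩

def k10_B00pm_011_s3 : ∃ t, chk3 f_B00pm_011_s3 t 66 254 1 = true :=
  ⟨(b (a (a (a (l 14) (c (l 524434191) (l 522331919))) (a (c (l 524380687) (l 522420239)) (a (c (l 524445711) (l 522491919)) (b (l 523552015) (b (l 523520527) (b (l 523504655) (b (l 16752728) (c (l 16753832) (l 16750136))))))))) (b (a (c (a (l 524568335) (l 524647951)) (l 522661903)) (b (a (l 523790095) (l 523872527)) (c (a (c (b (l 16754624) (l 16753184)) (l 16752008)) (b (a (l 16751616) (l 16750232)) (a (l 16750344) (l 16749496)))) (a (l 16751720) (b (l 16746696) (l 16745608)))))) (b (a (a (l 524117519) (b (l 523670031) (a (c (l 16752808) (l 16748936)) (c (l 16751720) (l 16747656))))) (c (a (b (a (b (l 16751840) (l 16751240)) (l 16750592)) (l 16750600)) (l 16749424)) (a (c (l 16747816) (l 16745632)) (l 16744744)))) (a (c (a (a (b (l 16754168) (l 16753144)) (b (a (l 16753136) (l 16752608)) (l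 16752352))) (l 16751608)) (a (b (a (l 16750528) (l 16749040)) (l 16748896)) (l 16747384))) (c (l 16749624) (l 16744776)))))) (a (b (a (l 14) (a (l 14) (a (l 14) (c (b (l 16753376) (l 14)) (l 16749112))))) (l 14)) (b (c (a (b (l 16751720) (l 16751320)) (l 16749024)) (a (l 16746904) (l 16743616))) (c (a (l 16750728) (l 16748240)) (a (l 16745368) (l 16742088)))))), by decide +kernel⟩

def k11_B00pm_011_s3 : ∃ t, chk3 f_B00pm_011_s3 t 67 254 1 = true :=
  ⟨(a (b (b (a (a (b (a (l 523936015) (b (l 16753512) (c (l 16749024) (l 16744504)))) (b (a (c (l 16749216) (l 16744720)) (l 16746112)) (l 16746152))) (c (b (b (a (l 16748992) (l 16747888)) (l 16747832)) (l 16747408)) (b (b (l 16743840) (l 16743048)) (l 16742312)))) (c (c (l 16747272) (l 16744624)) (l 16740512))) (c (a (l 16747392) (l 16745008)) (a (l 16741936) (l 16738784)))) (c (b (a (l 16746584) (l 16744216)) (l 16744624)) (b (l 16738808) (l 16737296)))) (b (c (b (a (l 16743504) (l 16741240)) (l 16741552)) (b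 (l 16735720) (l 16734176))) (c (l 16729912) (l 16731912)))), by decide +kernel⟩

def k12_B00pm_011_s3 : ∃ t, chk3 f_B00pm_011_s3 t 33 255 1 = true :=
  ⟨(a (a (l 14) (b (c (b (l 16738232) (l 16747992)) (b (l 16742208) (l 16740728))) (b (a (l 14) (l 16720952)) (l 14)))) (b (a (c (l 16733040) (l 16735072)) (c (l 16697016) (l 16728976))) (b (a (a (l 16697200) (l 16694464)) (l 16711360)) (a (l 16713248) (l 16644320))))), by decide +kernel⟩

def k13_B00pm_011_s3 : ∃ t, chk3 f_B00pm_011_s3 t 34 252 1 = true :=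
  ⟨(a (a (c (a (a (l 525751055) (l 525827599)) (l 526206223)) (a (l 523969295) (l 524137487))) (a (c (l 526090511) (l 524304655)) (a (c (l 526208271) (l 524434447)) (b (l 525457679) (b (l 525400079) (b (l 525370895) (b (l 16739592) (c (l 16736576) (l 16729760))))))))) (b (a (c (a (l 526435599) (l 526585359)) (l 524759823)) (a (a (l 525849359) (a (l 525908495) (b (l 525967375) (c (l 16736856) (l 16726896))))) (b (l 526330895) (c (b (a (l 16733880) (c (l 16733712) (l 16729928))) (c (l 16733296) (l 16729440))) (b (l 16725200) (l 16723440)))))) (b (a (a (l 526321679) (b (l 525683983) (c (a (c (l 16736968) (l 16733520)) (l 16733648)) (a (l 16728152) (l 16726216))))) (b (a (c (a (c (l 16730048) (l 16731664)) (l 16732104)) (l 16725296)) (l 16731720)) (c (l 16733728) (l 16722784)))) (a (c (a (b (a (l 16737200) (c (l 16731768) (l 16733568))) (a (l 16735560) (l 16734368))) (b (l 16733488) (l 16732920))) (a (b (a (l 16730488) (l 16728216)) (l 16727848)) (l 16725520)))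 (c (l 16730352) (l 16721480)))))), by decide +kernel⟩

def k14_B00pm_011_s3 : ∃ t, chk3 f_B00pm_011_s3 t 34 253 1 = true :=
  ⟨(a (b (a (b (a (c (l 525699599) (l 523873039)) (a (l 524922383) (b (l 525013263) (c (l 16741240) (l 16735304))))) (b (c (a (l 525671951) (a (b (l 16741712) (l 16740528)) (b (l 16739560) (l 16739048)))) (a (l 16739488) (a (l 16735136) (l 16733096)))) (c (a (a (c (l 16744632) (l 16741928)) (b (l 16741552) (l 16740856))) (l 16739320)) (a (a (l 16737728) (l 16735352)) (l 16732840))))) (c (b (a (b (a (l 16741488) (c (l 16740600) (l 16737512))) (a (b (l 16739480) (l 16738632)) (l 16737624))) (b (a (c (l 16733648) (l 16725144)) (l 16735944)) (l 16735952))) (a (l 16737328) (l 16735288))) (b (a (b (a (l 16735584) (l 16732720)) (a (l 16732768) (l 16730944))) (b (l 16729872) (l 16728680))) (l 16728856)))) (a (b (b (a (c (c (l 16742608) (l 16739656)) (l 16735064)) (l 16740632)) (c (l 16739416) (l 16732544))) (c (a (l 16739864) (l 16737720)) (l 16731368)))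 (c (b (l 16735440) (l 16734616)) (l 16726496)))) (b (c (a (c (l 16734824) (l 16730680)) (l 16729040)) (a (l 16724240) (l 16719096))) (c (a (l 16731088) (l 16727400)) (a (l 16721120) (l 16716016))))), by decide +kernel⟩

def k15_B00pm_011_s3 : ∃ t, chk3 f_B00pm_011_s3 t 35 126 1 = true :=
  ⟨(a (b (b (c (a (b (a (b (l 16733416) (a (l 16732040) (l 16730264))) (b (a (l 16730336) (l 16728840)) (l 16728608))) (a (c (l 16731752) (l 16727656)) (l 16727792))) (c (b (l 16728624) (l 16727776)) (l 16723528))) (a (b (a (b (l 16725880) (l 16723200)) (b (l 16721352) (l 16720000))) (l 16722768)) (l 16716128))) (c (a (c (l 16729656) (l 16724856)) (l 16723984)) (a (l 16717376) (l 16712728)))) (b (c (a (l 16725560) (l 16722312)) (l 16690944)) (c (l 16701368) (l 16708896)))) (b (c (b (a (l 16722560) (l 16719280)) (a (l 16720800) (l 16717560))) (b (l 16698592) (l 16705936))) (c (b (l 16675632) (l 16674136)) (l 16680448)))), by decide +kernel⟩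

def k16_B00pm_011_s3 : ∃ t, chk3 f_B00pm_011_s3 t 17 127 1 = true :=
  ⟨(a (b (a (b (a (c (b (l 16737960) (l 16737176)) (l 16729048)) (c (l 16733424) (l 16723432))) (c (a (l 16736048) (l 16731944)) (a (l 16726056) (l 16720480)))) (c (b (a (l 16729528) (l 16725880)) (l 16684304)) (a (l 16695656) (l 16711592)))) (b (a (c (l 16711608) (l 16678408)) (a (l 16677744) (l 16673488))) (a (b (a (l 16685192) (l 16680200)) (l 16677784)) (b (l 16672952) (l 16625560))))) (b (a (c (b (l 16678936) (l 16719544)) (l 16683600)) (c (l 16714056) (l 16695776))) (a (b (a (l 16627552) (l 16623784)) (l 16661248)) (b (l 16660056) (l 16610888))))), by decide +kernel⟩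

def k17_B00pm_011_s3 : ∃ t, chk3 f_B00pm_011_s3 t 9 60 1 = true :=
  ⟨(a (b (l 4) (a (l 4) (a (l 4) (c (l 528707343) (l 527283471))))) (a (c (a (c (l 528902927) (l 528215823)) (c (l 528804879) (l 528118287))) (a (l 527141391) (l 527044367))) (c (a (l 527556111) (l 528253455)) (a (l 526941711) (l 526834191))))), by decide +kernel⟩

def k18_B00pm_011_s3 : ∃ t, chk3 f_B00pm_011_s3 t 9 61 1 = true :=
  ⟨(a (a (b (a (l 4) (b (l 4) (c (c (l 529291791) (l 528594447)) (l 527505423)))) (c (a (a (b (l 4) (l 528606991)) (c (l 529105423) (l 528389903))) (c (a (l 529144847) (l 529152015)) (a (l 528432911) (l 528442127)))) (a (a (l 527188495) (l 527273231)) (c (l 527699215) (l 526941455))))) (b (a (c (a (b (c (l 529235983) (l 528543759)) (c (l 529180175) (l 528480783))) (b (l 528846607) (c (l 529197583) (l 528501007)))) (a (b (l 527462415) (l 527388687)) (b (l 527416079) (l 527413007)))) (c (b (l 528777743) (c (l 529122831) (l 528425743))) (b (l 527346703) (l 527336719))))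 (a (c (a (c (l 529127439) (l 528418319)) (b (l 528759311) (l 528714255))) (a (l 527311375) (l 527248143))) (c (b (c (l 529091599) (l 528388367)) (c (l 528235279) (l 528330255))) (b (l 527290127) (l 527221007)))))) (b (a (c (a (b (l 528686863) (l 528715023)) (b (l 528589839) (l 528624655))) (a (b (l 527256335) (l 527277583)) (l 527169295))) (c (a (l 528503823) (l 528397583)) (a (l 527069967) (l 526964239)))) (a (a (a (c (l 528683535) (l 527226639)) (b (l 527962639) (a (l 527931663) (b (l 527927823) (c (l 16695904) (l 16681416)))))) (a (b (l 527926031) (b (l 527902991) (c (c (l 16694168) (l 16686664)) (l 16674936)))) (b (l 527885327) (c (b (c (l 16692408) (l 16684824)) (l 16684216)) (b (l 16672976) (l 16667480)))))) (b (b (a (l 527820047) (a (c (l 16677144) (l 16659888)) (c (l 16669528) (l 16651024)))) (c (a (a (l 16687384) (c (l 16683280) (l 16675000))) (l 16669816)) (a (a (l 16671736) (l 16662064)) (l 16650912)))) (a (c (b (a (l 16681584) (l 16675512)) (l 16676096))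 (b (l 16661424) (l 16657248))) (c (l 16666432) (l 16645560))))))), by decide +kernel⟩

def k19_B00pm_011_s3 : ∃ t, chk3 f_B00pm_011_s3 t 18 124 1 = true :=
  ⟨(a (a (c (b (a (l 528463631) (l 528571663)) (a (l 528741903) (l 528467215))) (b (a (l 526944783) (l 527065615)) (a (l 526799631) (l 526942223)))) (b (c (a (l 528645647) (l 528685583)) (l 527169551)) (a (c (l 528561679) (l 527048207)) (b (c (l 528635151) (l 16714984)) (b (l 528817935) (c (a (l 16716824) (l 16715944)) (l 16693184))))))) (c (b (a (a (l 528692239) (l 528675599)) (b (l 529092367) (a (c (a (l 16712792) (l 16708888)) (l 16704712)) (c (b (l 16704984) (l 16702880)) (l 16697384))))) (a (a (b (l 528657679) (a (b (l 16712848) (l 16710512)) (l 16714184))) (b (b (c (l 16713200) (l 16707288)) (c (l 16710432) (l 16704224))) (l 16705072))) (a (b (c (l 16706096) (l 16699432)) (l 16700184)) (l 16696392)))) (a (b (l 527196687) (b (a (l 16705520) (b (l 16698056) (l 16694528))) (a (b (l 16699176) (l 16696664))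 (l 16691288)))) (b (b (l 527179279) (a (l 16695152) (l 16686856))) (a (l 16671624) (l 16680472)))))), by decide +kernel⟩

def k20_B00pm_011_s3 : ∃ t, chk3 f_B00pm_011_s3 t 18 125 1 = true :=
  ⟨(a (b (b (a (a (c (l 528282383) (l 526730511)) (a (l 527902479) (b (l 527707151) (c (l 16725664) (l 16710024))))) (a (b (a (l 527762447) (c (l 16722152) (l 16705824))) (c (c (a (l 16719920) (l 16717568)) (l 16713416)) (l 16704864))) (c (c (l 16717936) (l 16709368)) (l 16700096)))) (a (b (c (a (l 528256015) (a (c (l 16722936) (l 16717888)) (l 16717808))) (a (l 16716528) (a (l 16710024) (l 16706824)))) (c (a (a (b (l 16724600) (l 16725232)) (b (l 16723720) (l 16720072))) (l 16717552)) (a (a (l 16713832) (l 16710352)) (l 16706192)))) (c (a (l 16714128) (l 16710016)) (l 16699024)))) (a (c (b (a (c (b (l 16722864) (l 16721864)) (l 16717152)) (l 16715984)) (a (l 16717688) (l 16714112))) (a (b (l 16708864) (l 16705240)) (l 16701928))) (c (a (l 16690256) (l 16707168)) (l 16673144))))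 (c (b (a (a (b (l 16707608) (l 16705592)) (l 16701888)) (l 16673736)) (a (l 16679528) (l 16691056))) (a (b (l 16668152) (l 16682664)) (b (l 16676824) (l 16670480))))), by decide +kernel⟩

def k21_B00pm_011_s3 : ∃ t, chk3 f_B00pm_011_s3 t 19 62 1 = true :=
  ⟨(a (b (b (a (c (b (a (b (l 16700760) (l 16702720)) (c (l 16696272) (l 16688864))) (a (l 16694952) (l 16689792))) (b (a (l 16685040) (l 16677296)) (l 16676640))) (c (l 16662280) (l 16665176))) (c (a (l 16668016) (l 16678944)) (a (l 16671032) (l 16658304)))) (c (b (a (l 16684968) (l 16675024)) (l 16634568)) (b (l 16616128) (l 16651896)))) (b (c (a (b (l 16672880) (l 16668664)) (l 16618216)) (a (l 16648736) (l 16635536))) (c (b (l 16575728) (l 16572432)) (l 16545464)))), by decide +kernel⟩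

def k22_B00pm_011_s3 : ∃ t, chk3 f_B00pm_011_s3 t 9 63 1 = true :=
  ⟨(a (b (a (c (a (b (b (l 16693168) (l 16712480)) (l 16710216)) (b (l 16663872) (l 16702880))) (b (a (l 16677120) (l 16687944)) (a (l 16692184) (l 16682200)))) (a (c (a (l 16697984) (l 16693440)) (l 16631800)) (b (l 16634480) (l 16588488)))) (a (b (a (b (l 16656360) (l 16612536)) (l 16646920)) (b (a (l 16652176) (l 16601504)) (l 16597712))) (b (a (l 16595328) (l 16584920)) (a (l 16587072) (l 16576088))))) (b (a (c (b (l 16673512) (l 16671008)) (l 16601504)) (b (l 16574592) (l 16549976))) (a (b (a (l 16574328) (l 16563528)) (l 16559144)) (b (l 16546576) (l 16536096))))), by decide +kernel⟩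

def k23_B00pm_011_s3 : ∃ t, chk3 f_B00pm_011_s3 t 5 14 1 = true :=
  ⟨(a (a (b (l 4) (a (b (l 4) (c (a (l 527981071) (l 527864335)) (l 525975055))) (b (c (a (l 527591439) (l 527487247)) (a (l 526211343) (l 526110479))) (c (a (l 527744015) (l 527647247)) (a (l 526346511) (l 526254607)))))) (b (b (l 4) (a (c (l 527179023) (l 525820687)) (c (l 527027471) (l 525689103)))) (b (a (c (c (l 527658255) (l 526727951)) (l 525959951)) (c (b (l 527130127) (l 527199503)) (l 525801999))) (a (c (b (l 527448079) (l 527506447)) (b (l 526066191) (l 526110991))) (c (l 527280911) (l 525905167)))))) (b (a (c (a (b (l 526806799) (c (l 527211791) (l 526577423))) (b (l 526718479) (l 526519823))) (a (b (l 525510159) (l 525584399)) (b (l 525454351) (l 525505551)))) (c (b (a (l 526650127) (l 526601487)) (a (l 526699791) (l 526631695))) (b (l 525398799) (c (l 525462799) (l 524827151))))) (a (b (a (c (l 527005199) (l 525673999)) (c (l 526874895) (l 525571087))) (b (c (a (l 527095055) (l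 526949647)) (a (l 525747983) (l 525628175))) (a (a (l 526518287) (b (l 16598984) (c (l 16574640) (l 16546192)))) (c (b (a (l 16568928) (l 16548880)) (a (l 16557376) (l 16542752))) (b (a (l 16540568) (l 16518160)) (l 16519752)))))) (b (a (c (l 526497295) (l 525494287)) (a (l 526091535) (b (l 526057231) (c (b (l 16525000) (l 16508176)) (l 16484648))))) (b (b (a (l 526186767) (c (a (l 16515344) (l 16499416)) (l 16474744))) (a (c (a (l 16541600) (l 16523824)) (a (l 16510744) (l 16491216))) (l 16506792))) (a (c (b (l 16526968) (l 16523832)) (l 16492168)) (c (l 16499680) (l 16462160)))))))), by decide +kernel⟩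

def k24_B00pm_011_s3 : ∃ t, chk3 f_B00pm_011_s3 t 5 30 1 = true :=
  ⟨(a (a (b (a (c (a (l 528141071) (l 528024079)) (a (l 526721807) (l 526604815))) (a (c (l 527903247) (l 526483983)) (b (l 527051535) (b (l 527114255) (a (c (l 16642040) (l 16620440)) (b (l 16624904) (l 16618784))))))) (b (b (a (a (l 527564047) (a (l 527479311) (b (l 16650928) (a (l 16645352) (l 16682544))))) (c (a (b (a (l 16650536) (l 16641688)) (l 16642456)) (l 16630888)) (a (b (l 16624864) (l 16620256)) (l 16606696)))) (a (c (a (b (a (l 16673832) (l 16664448)) (a (l 16666784) (l 16659640))) (b (l 16663656) (l 16650552))) (a (b (l 16650800) (l 16644184)) (l 16631184))) (c (l 16633712) (l 16608464)))) (a (c (b (a (l 16659520) (l 16647984)) (l 16607912)) (a (l 16635728) (l 16621280))) (c (a (l 16634536) (l 16622680)) (l 16599968))))) (b (b (a (c (l 527573263) (l 526164751)) (a (b (l 526730255) (b (l 16598152) (a (l 16595104) (l 16585616)))) (c (b (l 16601056) (l 16590336)) (b (l 16575392)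 (l 16562656))))) (b (a (c (a (c (l 16637440) (l 16626528)) (c (l 16620088) (l 16607960))) (a (l 16609448) (l 16588968))) (c (l 16593320) (l 16564936))) (a (a (c (l 16632728) (l 16597680)) (l 16595304)) (c (l 16590128) (l 16559520))))) (c (a (b (a (l 16617048) (l 16604856)) (l 16604600)) (b (l 16586368) (l 16580136))) (a (b (l 16581872) (l 16571088)) (b (l 16552720) (l 16542096)))))) (b (a (a (b (a (b (c (l 16592424) (l 16553800)) (l 16561376)) (b (l 16567536) (l 16547832))) (c (l 16566376) (l 16532472))) (c (b (l 16545824) (l 16541208)) (l 16507568))) (c (a (b (l 16520568) (l 16515904)) (l 16492904)) (a (l 16478776) (l 16450360)))) (a (c (b (a (l 16561464) (l 16536312)) (l 16479776)) (a (l 16434448) (l 16489376))) (c (a (l 16507880) (l 16482416)) (a (l 16460640) (l 16432216)))))), by decide +kernel⟩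

def k25_B00pm_011_s3 : ∃ t, chk3 f_B00pm_011_s3 t 5 31 1 = true :=
  ⟨(b (a (a (b (a (c (c (l 16566672) (l 16636808)) (l 16615256)) (c (l 16536920) (l 16587272))) (a (c (l 16552608) (l 16602808)) (c (l 16529928) (l 16575128)))) (b (c (a (l 16596968) (l 16572648)) (l 16460232)) (a (l 16484968) (l 16458632)))) (a (c (b (l 16451440) (l 16445000)) (b (l 16486424) (l 16474984))) (c (b (l 16484696) (l 16478328)) (l 16318560)))) (a (b (a (a (b (l 16529976) (l 16526528)) (b (l 16505080) (l 16501792))) (a (l 16477648) (l 16451544))) (a (b (a (l 16523016) (l 16498080)) (l 16499736)) (a (l 16466848) (l 16440968)))) (b (a (a (l 16425120) (l 16398472)) (c (l 16390632) (l 16409120))) (a (a (l 16415016) (l 16389152)) (l 16266672))))), by decide +kernel⟩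

def k26_B00pm_011_s3 : ∃ t, chk3 f_B00pm_011_s3 t 3 6 1 = true :=
  ⟨(a (a (b (a (l 4) (b (l 4) (a (l 4) (c (l 526989327) (l 526102287))))) (a (b (a (a (l 4) (l 525843983)) (c (l 526933519) (l 525646607))) (c (a (b (c (l 526856719) (l 526320143)) (a (l 526578959) (l 526580495))) (b (l 526617359) (l 526587407))) (a (b (l 525484303) (l 525447183)) (b (l 525552911) (l 525499919))))) (b (a (c (l 526735887) (l 525755663)) (c (l 527360271) (l 525880079))) (b (a (c (l 526663695) (l 525637903)) (c (l 526727695) (l 525740047))) (a (c (l 526617359) (l 525568015)) (c (l 526665743) (l 525654287))))))) (b (a (b (l 1) (a (c (l 527120143) (l 526266639)) (l 1))) (l 1)) (a (b (a (c (l 528001039) (l 526019855)) (b (l 526950671) (l 527908111))) (c (b (a (l 526808847) (l 526906895)) (a (l 526732047) (l 526815759))) (a (b (l 525858831) (l 525757967)) (b (l 525992975) (l 525878031))))) (b (a (c (b (l 1) (l 527130639)) (l 526341647)) (l 1)) (c (a (b (l 527020815) (l 526916111)) (b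 (l 527150607) (l 527033103))) (a (b (l 526142223) (l 526014223)) (b (l 526305807) (l 526165519)))))))) (b (l 1) (a (b (l 1) (a (b (l 1) (b (l 1) (a (a (l 48888067783) (l 1)) (l 1)))) (l 1))) (l 1)))), by decide +kernel⟩

def k27_B00pm_011_s3 : ∃ t, chk3 f_B00pm_011_s3 t 6 14 1 = true :=
  ⟨(a (b (a (c (b (a (l 526571535) (l 526565647)) (a (l 526852111) (l 526557967))) (a (b (l 525430287) (l 525416719)) (b (l 525460751) (l 525430287)))) (a (a (b (l 526584079) (l 527357455)) (b (l 526336015) (b (l 16491664) (c (l 16451272) (l 16416800))))) (b (c (l 526611215) (l 525580303)) (b (l 527408143) (c (b (a (l 16438360) (l 16418016)) (l 16377304)) (b (l 16391992) (l 16298232))))))) (a (a (b (b (l 525754639) (c (b (a (l 16502704) (l 16481824)) (l 16483752)) (b (l 16458544) (l 16448896)))) (c (l 16476680) (l 16437904))) (b (b (b (l 525735183) (c (a (l 16474992) (l 16457024)) (l 16431552))) (c (l 16417288) (l 16422504))) (c (l 16451912) (l 16410640)))) (b (a (b (b (a (a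 (l 16436024) (l 16384616)) (l 16373608)) (l 16418496)) (l 16414328)) (c (l 16328216) (l 16371704))) (c (a (l 16427488) (l 16403480)) (a (l 16383944) (l 16357912)))))) (b (a (a (b (c (l 526662159) (l 525668111)) (b (b (l 16417472) (a (l 16394440) (a (l 16359072) (l 16372592)))) (c (l 16354736) (l 16358120)))) (b (b (l 526553103) (c (a (l 16413320) (l 16476216)) (l 16366880))) (b (b (a (a (l 16458336) (l 16449544)) (l 16439592)) (l 16336808)) (l 16332424)))) (a (b (b (l 527197199) (c (b (a (l 16380832) (l 16362128)) (l 16331048)) (a (l 16294784) (l 16237632)))) (c (l 16270744) (l 16313288))) (b (b (b (l 526799887) (c (a (l 16358048) (l 16342984)) (l 16270912))) (c (l 16301128) (l 16303520))) (c (l 16250688) (l 16291752))))) (a (b (c (b (l 16296152) (l 16375672)) (c (l 16261856) (l 16323376))) (c (b (l 16370936) (l 16365728)) (l 16320184))) (a (b (c (l 16345272) (l 16299688)) (b (l 16313512) (l 16306616))) (b (c (l 16324432) (l 16277528)) (l 6)))))), by decide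 +kernel⟩

def k28_B00pm_011_s3 : ∃ t, chk3 f_B00pm_011_s3 t 7 14 1 = true :=
  ⟨(a (b (b (a (a (b (a (b (c (l 16338328) (l 16299912)) (l 16312128)) (b (l 1) (l 16302720))) (c (l 16323248) (l 16281864))) (c (l 231424084999) (l 16266440))) (l 1)) (a (c (a (l 16231560) (l 16213480)) (c (l 16188848) (l 16165608))) (l 6))) (b (a (a (c (l 16304496) (l 16256296)) (l 6)) (l 6)) (l 6))) (l 6)), by decide +kernel⟩

def k29_B00pm_011_s3 : ∃ t, chk3 f_B00pm_011_s3 t 3 15 1 = true :=
  ⟨(a (b (a (c (b (a (a (l 16467616) (l 16442496)) (a (l 16417664) (l 16393184))) (a (b (l 16447320) (l 16441000)) (l 16309896))) (b (a (a (l 16422400) (l 16394928)) (l 16354640)) (a (l 16306344) (l 16336024)))) (b (a (c (l 16283848) (l 16303344)) (l 6)) (l 6))) (a (b (a (c (l 16346272) (l 16283536)) (l 6)) (a (b (a (l 16318680) (l 6)) (l 6)) (l 6))) (l 6))) (l 6)), by decide +kernel⟩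

theorem t30_B00pm_011_s3 : ∃ t, chk3 f_B00pm_011_s3 t 3 14 1 = true := ex3_a k27_B00pm_011_s3 k28_B00pm_011_s3

theorem t31_B00pm_011_s3 : ∃ t, chk3 f_B00pm_011_s3 t 3 7 1 = true := ex3_b t30_B00pm_011_s3 k29_B00pm_011_s3

theorem t32_B00pm_011_s3 : ∃ t, chk3 f_B00pm_011_s3 t 3 3 1 = true := ex3_b k26_B00pm_011_s3 t31_B00pm_011_s3

theorem t33_B00pm_011_s3 : ∃ t, chk3 f_B00pm_011_s3 t 5 15 1 = true := ex3_b k24_B00pm_011_s3 k25_B00pm_011_s3

theorem t34_B00pm_011_s3 : ∃ t, chk3 f_B00pm_011_s3 t 5 7 1 = true := ex3_b k23_B00pm_011_s3 t33_B00pm_011_s3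

theorem t35_B00pm_011_s3 : ∃ t, chk3 f_B00pm_011_s3 t 18 62 1 = true := ex3_b k19_B00pm_011_s3 k20_B00pm_011_s3

theorem t36_B00pm_011_s3 : ∃ t, chk3 f_B00pm_011_s3 t 9 62 1 = true := ex3_a t35_B00pm_011_s3 k21_B00pm_011_s3

theorem t37_B00pm_011_s3 : ∃ t, chk3 f_B00pm_011_s3 t 9 31 1 = true := ex3_b t36_B00pm_011_s3 k22_B00pm_011_s3

theorem t38_B00pm_011_s3 : ∃ t, chk3 f_B00pm_011_s3 t 9 30 1 = true := ex3_b k17_B00pm_011_s3 k18_B00pm_011_s3

theorem t39_B00pm_011_s3 : ∃ t, chk3 f_B00pm_011_s3 t 9 15 1 = true := ex3_b t38_B00pm_011_s3 t37_B00pm_011_s3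

theorem t40_B00pm_011_s3 : ∃ t, chk3 f_B00pm_011_s3 t 34 126 1 = true := ex3_b k13_B00pm_011_s3 k14_B00pm_011_s3

theorem t41_B00pm_011_s3 : ∃ t, chk3 f_B00pm_011_s3 t 17 126 1 = true := ex3_a t40_B00pm_011_s3 k15_B00pm_011_s3

theorem t42_B00pm_011_s3 : ∃ t, chk3 f_B00pm_011_s3 t 17 63 1 = true := ex3_b t41_B00pm_011_s3 k16_B00pm_011_s3

theorem t43_B00pm_011_s3 : ∃ t, chk3 f_B00pm_011_s3 t 33 254 1 = true := ex3_a k10_B00pm_011_s3 k11_B00pm_011_s3

theorem t44_B00pm_011_s3 : ∃ t, chk3 f_B00pm_011_s3 t 33 127 1 = true := ex3_b t43_B00pm_011_s3 k12_B00pm_011_s3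

theorem t45_B00pm_011_s3 : ∃ t, chk3 f_B00pm_011_s3 t 16 127 1 = true := ex3_a k9_B00pm_011_s3 t44_B00pm_011_s3

theorem t46_B00pm_011_s3 : ∃ t, chk3 f_B00pm_011_s3 t 16 126 1 = true := ex3_a k7_B00pm_011_s3 k8_B00pm_011_s3

theorem t47_B00pm_011_s3 : ∃ t, chk3 f_B00pm_011_s3 t 16 63 1 = true := ex3_b t46_B00pm_011_s3 t45_B00pm_011_s3

theorem t48_B00pm_011_s3 : ∃ t, chk3 f_B00pm_011_s3 t 8 63 1 = true := ex3_a t47_B00pm_011_s3 t42_B00pm_011_s3

theorem t49_B00pm_011_s3 : ∃ t, chk3 f_B00pm_011_s3 t 17 62 1 = true := ex3_a k5_B00pm_011_s3 k6_B00pm_011_s3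

theorem t50_B00pm_011_s3 : ∃ t, chk3 f_B00pm_011_s3 t 8 62 1 = true := ex3_a k4_B00pm_011_s3 t49_B00pm_011_s3

theorem t51_B00pm_011_s3 : ∃ t, chk3 f_B00pm_011_s3 t 8 31 1 = true := ex3_b t50_B00pm_011_s3 t48_B00pm_011_s3

theorem t52_B00pm_011_s3 : ∃ t, chk3 f_B00pm_011_s3 t 8 15 1 = true := ex3_b k3_B00pm_011_s3 t51_B00pm_011_s3

theorem t53_B00pm_011_s3 : ∃ t, chk3 f_B00pm_011_s3 t 4 15 1 = true := ex3_a t52_B00pm_011_s3 t39_B00pm_011_s3

theorem t54_B00pm_011_s3 : ∃ t, chk3 f_B00pm_011_s3 t 4 7 1 = true := ex3_b k2_B00pm_011_s3 t53_B00pm_011_s3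

theorem t55_B00pm_011_s3 : ∃ t, chk3 f_B00pm_011_s3 t 2 7 1 = true := ex3_a t54_B00pm_011_s3 t34_B00pm_011_s3

theorem t56_B00pm_011_s3 : ∃ t, chk3 f_B00pm_011_s3 t 2 3 1 = true := ex3_b k1_B00pm_011_s3 t55_B00pm_011_s3

theorem t57_B00pm_011_s3 : ∃ t, chk3 f_B00pm_011_s3 t 1 3 1 = true := ex3_a t56_B00pm_011_s3 t32_B00pm_011_s3

theorem t58_B00pm_011_s3 : ∃ t, chk3 f_B00pm_011_s3 t 1 1 1 = true := ex3_b k0_B00pm_011_s3 t57_B00pm_011_s3

theorem c_B00pm_011_s3 : CertF 0 536870912 536870912 536870912 991146299 28908434 false true false .pnn 0 1 1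
    ndB0q0 ndB0q1 pcB1 cut_B00pm_011_s3 xt_B00pm_011_s3 :=
  certF0 (fam := false) (s1 := true) (s2 := false) (a := 0) (b := 1) (c := 1) (cn := .pnn) (n1 := ndB0q0) (n2 := ndB0q1) (pc := pcB1) (cut := cut_B00pm_011_s3) (xt := xt_B00pm_011_s3) (P1 := 0) (W1 := 536870912) (P2 := 536870912) (W2 := 536870912) (P3 := 991146299) (W3 := 28908434)
    rfl t58_B00pm_011_s3

theorem s_B00pm_011_s3 {κ x : ℝ} (hκ : κ * h0 = ken x) (hx : ((991146299 : ℕ) : ℝ) / S ≤ x)
    (hx' : x ≤ (((991146299 : ℕ) : ℝ) + (28908434 : ℕ)) / S)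
    (H : CutB (VFD κ) PP tK tL pcB (Cut.of [[⟨0, 0, 0, 26843545⟩, ⟨1, 1, 0, 26843545⟩, ⟨2, 1, 0, 26843545⟩]]) 0 1 1 0 0 (sgb true) (sgb false) x) :
    AltB (VFD κ) PP tK tL pcB [⟨4, 0, 0, 2845415833⟩] 0 1 1 0 0 (sgb true) (sgb false) x :=
  strip_altBD (m := 2845415833) false rfl hκ (SH.κ0 hκ (SH.hx1 hx).le (SH.hx2 hx').le) (SH.hx1 hx).le (SH.hx2 hx') (covB00).cov (covB01).cov hx hx' c_B00pm_011_s3 H ((okx hx hx').extB (T := tt) (sideB hx hx') hκ rfl rfl (.O 0 true) (.O 1 false) (Or.inr rfl))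

noncomputable def cut_B00pm_012_s1 : Cut := Cut.of [[⟨4, 0, 0, 1449551462⟩], [⟨0, 0, 0, 53687091⟩, ⟨1, 1, 0, 53687091⟩, ⟨2, 1, 0, 53687091⟩]]

noncomputable def xt_B00pm_012_s1 : Ext := strExt dd false true false .u0 .u2 .u0m .pnp 0 1 2 rfl rfl gf1 vv ndB0q0 ndB0q2

noncomputable def f_B00pm_012_s1 : ℕ → ℕ → ℕ → ℕ → Bool := onCell 0 536870912 0 536870912 991146299 28908434
    (rowF 0 false true false .pnp 0 1 2 (qsf 0 536870912 0 536870912 1) ndB0q0 ndB0q2 pcB1 cut_B00pm_012_s1 xt_B00pm_012_s1)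

def k0_B00pm_012_s1 : ∃ t, chk3 f_B00pm_012_s1 t 1 1 1 = true :=
  ⟨(a (l 6) (b (a (b (a (l 6) (a (l 6) (b (a (l 6) (l 16426760)) (l 6)))) (l 6)) (b (a (b (a (a (l 16481336) (b (l 16554936) (l 6))) (b (a (b (l 16530248) (l 16618968)) (b (l 16605864) (a (l 16599112) (l 16591192)))) (a (l 16639984) (l 16530120)))) (l 6)) (b (a (b (a (b (l 16606104) (l 16586848)) (l 532224271)) (a (b (a (l 16582784) (l 16572488)) (l 16593160)) (b (a (l 16567016) (l 16565824)) (a (l 16567760) (b (l 16551528) (l 16554968)))))) (a (b (l 531782927) (b (l 16568464) (a (b (l 16548712) (l 16541536)) (l 16543912)))) (l 531320847))) (a (a (l 16466336) (b (l 16507120) (l 6))) (b (a (b (a (l 16554632) (b (l 16531880) (l 16541640))) (l 16569688)) (b (a (b (l 16526024) (l 16438872)) (b (l 16527712) (l 16514824))) (a (l 16542296) (b (l 16430480) (l 16529208))))) (a (l 16516904) (l 16487304)))))) (l 6))) (l 6))), by decide +kernel⟩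

theorem c_B00pm_012_s1 : CertF 0 536870912 0 536870912 991146299 28908434 false true false .pnp 0 1 2
    ndB0q0 ndB0q2 pcB1 cut_B00pm_012_s1 xt_B00pm_012_s1 :=
  certF0 (fam := false) (s1 := true) (s2 := false) (a := 0) (b := 1) (c := 2) (cn := .pnp) (n1 := ndB0q0) (n2 := ndB0q2) (pc := pcB1) (cut := cut_B00pm_012_s1) (xt := xt_B00pm_012_s1) (P1 := 0) (W1 := 536870912) (P2 := 0) (W2 := 536870912) (P3 := 991146299) (W3 := 28908434)
    rfl k0_B00pm_012_s1

theorem s_B00pm_012_s1 {κ x : ℝ} (hκ : κ * h0 = ken x) (hx : ((991146299 : ℕ) : ℝ) / S ≤ x)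
    (hx' : x ≤ (((991146299 : ℕ) : ℝ) + (28908434 : ℕ)) / S)
    (H : CutB (VFD κ) PP tK tL pcB (Cut.of [[⟨0, 0, 0, 53687091⟩, ⟨1, 1, 0, 53687091⟩, ⟨2, 1, 0, 53687091⟩]]) 0 1 2 0 0 (sgb true) (sgb false) x) :
    AltB (VFD κ) PP tK tL pcB [⟨3, 0, 0, 1449551462⟩] 0 1 2 0 0 (sgb true) (sgb false) x :=
  strip_altBD (m := 1449551462) true rfl hκ (SH.κ0 hκ (SH.hx1 hx).le (SH.hx2 hx').le) (SH.hx1 hx).le (SH.hx2 hx') (covB00).cov (covB02).cov hx hx' c_B00pm_012_s1 H ((okx hx hx').extB (T := tt) (sideB hx hx') hκ rfl rfl (.O 0 true) (.O 2 false) (Or.inr rfl))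

noncomputable def cut_B00pm_012_s3 : Cut := Cut.of [[⟨3, 0, 0, 2845415833⟩], [⟨0, 0, 0, 53687091⟩, ⟨1, 1, 0, 53687091⟩, ⟨2, 1, 0, 53687091⟩]]

noncomputable def f_B00pm_012_s3 : ℕ → ℕ → ℕ → ℕ → Bool := onCell 536870912 536870912 0 536870912 991146299 28908434
    (rowF 2 false true false .pnp 0 1 2 (qsf 0 536870912 0 536870912 1) ndB0q0 ndB0q2 pcB1 cut_B00pm_012_s3 Ext.none)

def k0_B00pm_012_s3 : ∃ t, chk3 f_B00pm_012_s3 t 2 1 1 = true :=
  ⟨(b (l 6) (b (l 6) (l 6))), by decide +kernel⟩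

def k1_B00pm_012_s3 : ∃ t, chk3 f_B00pm_012_s3 t 3 2 1 = true :=
  ⟨(l 6), by decide +kernel⟩

def k2_B00pm_012_s3 : ∃ t, chk3 f_B00pm_012_s3 t 6 3 1 = true :=
  ⟨(b (l 6) (b (l 6) (a (b (l 6) (a (c (l 16413960) (l 16278664)) (a (l 16334288) (l 16354120)))) (b (a (b (l 6) (a (l 6) (l 16464848))) (b (a (l 6) (l 16447688)) (a (l 16476144) (l 16487216)))) (a (a (l 16374136) (b (l 16490224) (l 16467048))) (a (b (l 16508288) (l 16489456)) (b (l 16526352) (l 16511392)))))))), by decide +kernel⟩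

def k3_B00pm_012_s3 : ∃ t, chk3 f_B00pm_012_s3 t 7 6 1 = true :=
  ⟨(l 6), by decide +kernel⟩

def k4_B00pm_012_s3 : ∃ t, chk3 f_B00pm_012_s3 t 14 7 1 = true :=
  ⟨(b (b (l 6) (a (a (l 6) (b (l 6) (l 16442008))) (a (b (l 6) (a (l 16536312) (l 16459608))) (b (a (l 16444360) (l 16452264)) (a (l 16466912) (l 16474304)))))) (b (a (b (a (l 16460000) (l 16472704)) (a (l 16498576) (l 16510416))) (a (b (a (l 16482384) (l 16489136)) (l 16522976)) (b (a (l 16496000) (l 16502944)) (a (l 16532656) (l 16539232))))) (a (a (b (l 16541904) (l 16532688)) (b (l 16553232) (l 16553128))) (b (a (l 16565176) (a (l 16573960) (l 16580592))) (a (a (l 16568128) (l 16578200)) (b (l 16592040) (l 16633800))))))), by decide +kernel⟩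

def k5_B00pm_012_s3 : ∃ t, chk3 f_B00pm_012_s3 t 30 14 1 = true :=
  ⟨(b (a (l 6) (b (l 6) (a (c (l 16536648) (l 16512968)) (c (l 16503608) (l 16542040))))) (a (b (a (l 16502168) (c (l 16543104) (l 16561416))) (a (l 16481744) (l 16531152))) (b (a (a (l 16474168) (l 16520088)) (a (l 16524056) (c (l 16562064) (l 16577952)))) (a (b (l 16490800) (l 16502496)) (a (l 16544224) (l 16548352)))))), by decide +kernel⟩

def k6_B00pm_012_s3 : ∃ t, chk3 f_B00pm_012_s3 t 31 28 1 = true :=
  ⟨(b (b (b (l 6) (a (l 6) (a (l 6) (c (a (l 16571488) (l 16576672)) (a (l 16546120) (l 16571912)))))) (a (a (l 6) (a (l 6) (c (l 16559024) (l 16575904)))) (a (c (a (l 16563696) (l 16568504)) (a (l 16580176) (l 16563600))) (a (c (l 16573584) (c (l 16585232) (l 16593320))) (c (c (l 16575168) (l 16582544)) (a (l 16571880) (l 16574328))))))) (b (a (a (a (l 16515936) (l 16530680)) (c (l 16539640) (a (l 16574640) (l 16578768)))) (a (c (a (l 16567632) (l 16572632)) (a (l 16583032) (l 16566600)))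 (a (c (l 16577792) (l 16571304)) (c (a (l 16581744) (l 16584400)) (a (l 16574912) (l 16577336)))))) (a (a (a (l 16521136) (l 16525224)) (c (l 16545272) (l 16560424))) (a (c (a (l 16573400) (l 16578496)) (a (l 16587792) (l 16592384))) (a (c (l 16583712) (l 16576112)) (c (a (l 16587664) (l 16590312)) (b (l 16579488) (l 16582288)))))))), by decide +kernel⟩

def k7_B00pm_012_s3 : ∃ t, chk3 f_B00pm_012_s3 t 31 29 1 = true :=
  ⟨(a (c (a (b (a (l 16566392) (l 16570952)) (l 16558400)) (b (a (l 16575520) (l 16538496)) (a (l 16597216) (l 16560344)))) (b (a (b (l 16579648) (l 16587864)) (a (l 16547736) (l 16552072))) (a (l 16572152) (a (l 16568024) (l 16572400))))) (a (b (a (c (b (l 16580928) (l 16590184)) (a (l 16555424) (l 16557696))) (c (b (l 16586080) (l 16595352)) (a (l 16580960) (l 16583272)))) (a (b (c (l 16601128) (l 16612880)) (a (l 16576016) (l 16578352))) (b (a (l 16568600) (l 16591944)) (a (l 16580664) (l 16603904))))) (b (a (b (c (l 16591304) (l 16582656))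 (c (l 16600568) (l 16590928))) (b (c (a (l 16595240) (l 16597864)) (a (l 16607128) (l 16588488))) (c (a (l 16604400) (l 16606888)) (a (l 16615240) (l 16617400))))) (a (b (c (l 16611320) (l 16600728)) (a (l 16606072) (l 14))) (a (b (b (l 16596144) (l 14)) (l 14)) (l 14)))))), by decide +kernel⟩

def k8_B00pm_012_s3 : ∃ t, chk3 f_B00pm_012_s3 t 15 15 1 = true :=
  ⟨(a (b (a (b (a (l 16509936) (b (l 16508752) (l 16524744))) (a (l 16545776) (b (l 16542992) (l 16562928)))) (a (b (b (l 16516160) (l 16532168)) (b (l 16550776) (l 16571192))) (b (b (l 16566096) (l 16582536)) (b (l 16601408) (l 16622064))))) (a (b (a (l 16587840) (l 16616440)) (a (l 16646120) (b (l 16610664) (l 16612400)))) (a (b (b (l 16592712) (l 16615224)) (b (l 16617584) (l 16662512))) (b (b (l 16643448) (l 16663544)) (l 14))))) (b (a (b (a (b (a (l 16614640) (l 16535328)) (l 16602040)) (a (b (l 16581920) (l 16598440)) (b (l 16586592) (l 16602832)))) (a (b (a (l 16566280) (l 16570744)) (a (l 16586680)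 (l 16590928))) (b (a (l 16616976) (l 14)) (l 14)))) (b (b (a (a (a (l 16590000) (l 16592216)) (a (l 16594336) (l 14))) (l 14)) (l 14)) (l 14))) (a (b (a (b (a (l 16607760) (l 14)) (l 14)) (l 14)) (l 14)) (l 14)))), by decide +kernel⟩

theorem t9_B00pm_012_s3 : ∃ t, chk3 f_B00pm_012_s3 t 31 14 1 = true := ex3_b k6_B00pm_012_s3 k7_B00pm_012_s3

theorem t10_B00pm_012_s3 : ∃ t, chk3 f_B00pm_012_s3 t 15 14 1 = true := ex3_a k5_B00pm_012_s3 t9_B00pm_012_s3

theorem t11_B00pm_012_s3 : ∃ t, chk3 f_B00pm_012_s3 t 15 7 1 = true := ex3_b t10_B00pm_012_s3 k8_B00pm_012_s3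

theorem t12_B00pm_012_s3 : ∃ t, chk3 f_B00pm_012_s3 t 7 7 1 = true := ex3_a k4_B00pm_012_s3 t11_B00pm_012_s3

theorem t13_B00pm_012_s3 : ∃ t, chk3 f_B00pm_012_s3 t 7 3 1 = true := ex3_b k3_B00pm_012_s3 t12_B00pm_012_s3

theorem t14_B00pm_012_s3 : ∃ t, chk3 f_B00pm_012_s3 t 3 3 1 = true := ex3_a k2_B00pm_012_s3 t13_B00pm_012_s3

theorem t15_B00pm_012_s3 : ∃ t, chk3 f_B00pm_012_s3 t 3 1 1 = true := ex3_b k1_B00pm_012_s3 t14_B00pm_012_s3

theorem t16_B00pm_012_s3 : ∃ t, chk3 f_B00pm_012_s3 t 1 1 1 = true := ex3_a k0_B00pm_012_s3 t15_B00pm_012_s3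

theorem c_B00pm_012_s3 : CertF 0 536870912 0 536870912 991146299 28908434 false true false .pnp 0 1 2
    ndB0q0 ndB0q2 pcB1 cut_B00pm_012_s3 Ext.none :=
  certF2 (fam := false) (s1 := true) (s2 := false) (a := 0) (b := 1) (c := 2) (cn := .pnp) (n1 := ndB0q0) (n2 := ndB0q2) (pc := pcB1) (cut := cut_B00pm_012_s3) (xt := Ext.none) (P1 := 0) (W1 := 536870912) (P2 := 0) (W2 := 536870912) (P3 := 991146299) (W3 := 28908434)
    rfl (fun _ => rfl) t16_B00pm_012_s3

theorem s_B00pm_012_s3 {κ x : ℝ} (hκ : κ * h0 = ken x) (hx : ((991146299 : ℕ) : ℝ) / S ≤ x)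
    (hx' : x ≤ (((991146299 : ℕ) : ℝ) + (28908434 : ℕ)) / S)
    (H : CutB (VFD κ) PP tK tL pcB (Cut.of [[⟨0, 0, 0, 53687091⟩, ⟨1, 1, 0, 53687091⟩, ⟨2, 1, 0, 53687091⟩]]) 0 1 2 0 0 (sgb true) (sgb false) x) :
    AltB (VFD κ) PP tK tL pcB [⟨4, 0, 0, 2845415833⟩] 0 1 2 0 0 (sgb true) (sgb false) x :=
  strip_altBD (m := 2845415833) false rfl hκ (SH.κ0 hκ (SH.hx1 hx).le (SH.hx2 hx').le) (SH.hx1 hx).le (SH.hx2 hx') (covB00).cov (covB02).cov hx hx' c_B00pm_012_s3 H (noExt_B)

noncomputable def cut_B00pm_022_s1 : Cut := Cut.of [[⟨4, 0, 0, 1449551462⟩], [⟨0, 0, 0, 53687091⟩, ⟨1, 1, 0, 53687091⟩, ⟨2, 1, 0, 53687091⟩]]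

noncomputable def f_B00pm_022_s1 : ℕ → ℕ → ℕ → ℕ → Bool := onCell 1073741824 536870912 0 536870912 991146299 28908434
    (rowF 2 false true false .pp 0 2 2 (qsf 0 536870912 0 536870912 2) ndB0q0 ndB0q2 pcB2 cut_B00pm_022_s1 Ext.none)

def k0_B00pm_022_s1 : ∃ t, chk3 f_B00pm_022_s1 t 1 1 1 = true :=
  ⟨(l 6), by decide +kernel⟩

theorem c_B00pm_022_s1 : CertF 0 536870912 0 536870912 991146299 28908434 false true false .pp 0 2 2
    ndB0q0 ndB0q2 pcB2 cut_B00pm_022_s1 Ext.none :=
  certF2 (fam := false) (s1 := true) (s2 := false) (a := 0) (b := 2) (c := 2) (cn := .pp) (n1 := ndB0q0) (n2 := ndB0q2) (pc := pcB2) (cut := cut_B00pm_022_s1) (xt := Ext.none) (P1 := 0) (W1 := 536870912) (P2 := 0) (W2 := 536870912) (P3 := 991146299) (W3 := 28908434)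
    rfl (fun _ => rfl) k0_B00pm_022_s1

theorem s_B00pm_022_s1 {κ x : ℝ} (hκ : κ * h0 = ken x) (hx : ((991146299 : ℕ) : ℝ) / S ≤ x)
    (hx' : x ≤ (((991146299 : ℕ) : ℝ) + (28908434 : ℕ)) / S)
    (H : CutB (VFD κ) PP tK tL pcB (Cut.of [[⟨0, 0, 0, 53687091⟩, ⟨1, 1, 0, 53687091⟩, ⟨2, 1, 0, 53687091⟩]]) 0 2 2 0 0 (sgb true) (sgb false) x) :
    AltB (VFD κ) PP tK tL pcB [⟨3, 0, 0, 1449551462⟩] 0 2 2 0 0 (sgb true) (sgb false) x :=
  strip_altBD (m := 1449551462) true rfl hκ (SH.κ0 hκ (SH.hx1 hx).le (SH.hx2 hx').le) (SH.hx1 hx).le (SH.hx2 hx') (covB00).cov (covB02).cov hx hx' c_B00pm_022_s1 H (noExt_B)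

noncomputable def cut_B00pm_022_s3 : Cut := Cut.of [[⟨3, 0, 0, 2845415833⟩], [⟨0, 0, 0, 53687091⟩, ⟨1, 1, 0, 53687091⟩, ⟨2, 1, 0, 53687091⟩]]

noncomputable def f_B00pm_022_s3 : ℕ → ℕ → ℕ → ℕ → Bool := onCell 0 536870912 0 536870912 991146299 28908434
    (rowF 0 false true false .pp 0 2 2 (qsf 0 536870912 0 536870912 2) ndB0q0 ndB0q2 pcB2 cut_B00pm_022_s3 Ext.none)

def k0_B00pm_022_s3 : ∃ t, chk3 f_B00pm_022_s3 t 2 2 1 = true :=
  ⟨(l 6), by decide +kernel⟩

def k1_B00pm_022_s3 : ∃ t, chk3 f_B00pm_022_s3 t 4 12 1 = true :=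
  ⟨(l 6), by decide +kernel⟩

def k2_B00pm_022_s3 : ∃ t, chk3 f_B00pm_022_s3 t 4 26 1 = true :=
  ⟨(a (a (a (a (b (b (l 6) (a (b (l 6) (c (l 16248248) (l 16176320))) (l 6))) (c (c (a (b (l 16253912) (l 16288008)) (c (l 16277208) (l 16259224))) (b (a (l 16219080) (l 16266888)) (c (l 16255120) (l 16237120)))) (c (b (a (l 16183216) (l 16229152)) (a (l 16207304) (l 16243264))) (b (a (l 16104376) (l 16190320)) (c (l 16171064) (l 16152008)))))) (b (l 6) (c (c (a (l 16275832) (l 16241176)) (b (l 16191296) (l 16205672))) (c (b (l 16150704) (l 16207408)) (b (l 16108904) (l 16124056)))))) (a (b (l 6) (c (c (l 16335448) (l 16292504)) (c (l 16248200) (l 16202544)))) (l 6))) (l 6)) (l 6)), by decide +kernel⟩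

def k3_B00pm_022_s3 : ∃ t, chk3 f_B00pm_022_s3 t 32 27 1 = true :=
  ⟨(a (b (a (c (b (c (a (l 16289352) (l 16325088)) (a (l 16255520) (l 16290424))) (c (a (l 16314616) (l 16298080)) (c (l 16270640) (l 16263992)))) (b (c (b (l 16249680) (l 16215368)) (b (l 16213304) (l 16179224))) (c (c (l 16246608) (l 16228976)) (c (l 16211096) (l 16182480))))) (c (b (c (l 16289424) (l 16253488)) (c (l 16304576) (l 16269168))) (b (c (l 16216480) (l 16178400)) (c (l 16253680) (l 16216152))))) (a (c (b (c (b (l 16328552) (l 16336624)) (a (b (l 16314304) (l 16291208)) (l 16301264))) (c (a (b (l 16321592) (l 16340552)) (l 16351456)) (b (a (l 16299816) (l 16335160)) (c (l 16308336) (l 16302456))))) (b (c (a (c (l 16261776) (l 16244664)) (a (l 16265976) (l 16246456))) (c (c (l 16222432) (l 16213592)) (a (l 16199240) (l 16243088)))) (b (c (c (l 16266184) (l 16249144)) (c (l 16231864) (l 16214344))) (c (c (l 16285864) (l 16269032)) (c (l 16251960) (l 16234648)))))) (c (b (c (l 16320528)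 (l 16306744)) (c (l 16358296) (a (l 16301464) (l 16305168)))) (b (c (a (l 16248592) (l 16293272)) (b (l 16250488) (l 16217824))) (c (a (l 16287840) (l 16269768)) (c (l 16241416) (l 16223160))))))) (b (c (c (b (l 16259464) (l 16316936)) (b (l 16262888) (l 16299984))) (c (b (l 16223184) (b (l 16193704) (l 16202336))) (b (l 16182296) (a (l 16156360) (l 16242888))))) (c (c (a (b (l 16371040) (l 16304160)) (l 16387744)) (b (a (l 16250776) (l 16341200)) (a (l 16310544) (l 16359288)))) (c (b (c (l 16225456) (l 16206000)) (a (l 16273904) (l 16320976))) (b (c (l 16186264) (l 16166248)) (a (l 16236192) (l 16197632))))))), by decide +kernel⟩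

def k4_B00pm_022_s3 : ∃ t, chk3 f_B00pm_022_s3 t 33 27 1 = true :=
  ⟨(c (b (a (c (l 16366024) (a (l 16321504) (l 16326872))) (c (l 16379696) (l 16334264))) (a (c (b (l 16390880) (l 16408408)) (b (l 16350296) (l 16368760))) (b (l 16299448) (l 16317880)))) (b (a (c (a (l 16279344) (l 16282840)) (b (l 16143944) (l 16162128))) (c (l 16287368) (l 16239008))) (a (c (b (l 16224544) (l 16327864)) (b (l 16181416) (l 16285720))) (c (l 16325448) (a (l 16278248) (l 16279656)))))), by decide +kernel⟩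

def k5_B00pm_022_s3 : ∃ t, chk3 f_B00pm_022_s3 t 17 27 1 = true :=
  ⟨(b (a (c (a (c (l 16392136) (l 16342920)) (l 16293192)) (a (c (l 16292088) (l 16239624)) (c (l 16295400) (l 16238712)))) (l 6)) (c (a (a (c (l 16427312) (l 16380104)) (l 16330208)) (a (l 16339224) (l 16346768))) (a (a (c (l 16331336) (l 16281008)) (c (l 16335760) (l 16281400))) (a (l 16225936) (l 16225248))))), by decide +kernel⟩

def k6_B00pm_022_s3 : ∃ t, chk3 f_B00pm_022_s3 t 9 27 1 = true :=
  ⟨(a (l 6) (l 1)), by decide +kernel⟩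

def k7_B00pm_022_s3 : ∃ t, chk3 f_B00pm_022_s3 t 5 6 1 = true :=
  ⟨(l 1), by decide +kernel⟩

def k8_B00pm_022_s3 : ∃ t, chk3 f_B00pm_022_s3 t 32 28 2 = true :=
  ⟨(c (a (a (b (b (a (b (l 16359728) (l 16368640)) (a (l 16367752) (l 16349144))) (a (b (l 16377776) (l 16387128)) (a (l 16386096) (l 16388512)))) (b (a (b (l 16396672) (l 16406416)) (b (l 16422584) (l 16390424))) (b (a (l 16416360) (l 16400416)) (c (l 16435928) (l 16422152))))) (b (b (b (l 16350464) (l 16359504)) (a (l 16371112) (l 16375792))) (b (a (l 16411352) (l 16395136)) (a (l 16431400) (l 16415264))))) (b (b (a (l 16322000) (l 16414496)) (a (l 16382632) (l 16433360))) (b (a (l 16444048) (l 16452984)) (a (l 16464280) (l 16473360))))) (a (a (c (b (b (b (l 16327856) (l 16337136)) (a (b (l 16375944) (l 16385680)) (l 16343184))) (b (a (a (l 16378592) (l 16380840)) (l 16384168)) (b (l 16397512) (l 16408168)))) (b (b (a (b (l 16341240) (l 16350720)) (l 16307864)) (a (b (l 16360464) (l 16370464)) (l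 16348440))) (b (a (b (l 16380688) (l 16391152)) (l 16369016)) (a (b (l 16401864) (l 16412824)) (l 16390536))))) (c (b (b (l 16330240) (l 16349512)) (b (l 16369672) (l 16390704))) (b (b (l 16313448) (l 16333240)) (b (l 16353984) (l 16396624))))) (b (b (a (l 16329328) (l 16378312)) (a (l 16349088) (l 16398288))) (b (a (l 16411688) (l 16419144)) (a (l 16433224) (l 16440864)))))), by decide +kernel⟩

def k9_B00pm_022_s3 : ∃ t, chk3 f_B00pm_022_s3 t 32 28 3 = true :=
  ⟨(a (b (a (b (c (a (b (c (l 16325048) (l 16308632)) (c (l 16334760) (l 16318584))) (b (l 16299144) (l 16309048))) (c (a (b (l 16291992) (l 16302176)) (l 16268272)) (a (b (l 16275112) (l 16285552)) (l 16261600)))) (c (c (a (b (l 16344760) (l 16355024)) (l 16332496)) (a (b (l 16328832) (l 16339368)) (l 16316328))) (c (a (b (l 16312688) (l 16323496)) (l 16299928)) (a (b (l 16296320) (l 16307400)) (l 16283304))))) (b (b (c (l 16282824) (l 16268488)) (c (l 16313808) (l 16279008))) (c (b (l 16324104) (l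 16334672)) (c (l 16303968) (l 16286744))))) (a (b (c (c (a (b (l 16365536) (l 16376296)) (l 16353648)) (a (a (b (l 16349304) (l 16360352)) (l 16335544)) (l 16338056))) (c (a (a (b (l 16333816) (l 16345168)) (b (l 16335328) (l 16346712))) (l 16322248)) (a (b (l 16324024) (a (l 16329776) (l 16331136))) (b (l 16321360) (l 16333112))))) (b (c (a (a (c (l 16386344) (l 16371680)) (l 16359912)) (l 16362640)) (a (a (c (l 16356808) (l 16341744)) (l 16335064)) (c (l 16360704) (l 16345168)))) (c (a (a (b (l 16387584) (l 16393376)) (l 16371384)) (l 16374144)) (a (c (a (l 16368752) (l 16370368)) (l 16333776)) (c (l 16372728) (l 16357544)))))) (c (b (b (l 16345488) (l 16356552)) (c (l 16381360) (l 16365872))) (c (b (l 16326504) (l 16360648)) (b (a (l 16287728) (l 16332016)) (c (l 16317272) (l 16309248))))))) (b (c (b (a (l 16293664) (l 16257128)) (a (l 16335488) (l 16278256))) (b (a (l 16277920) (l 16218720)) (a (a (l 16277848) (l 16238048)) (l 16241032)))) (c (b (c (l 16369024)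 (l 16351720)) (a (l 16401224) (l 16407368))) (b (a (l 16344032) (l 16348344)) (a (a (l 16325120) (l 16369488)) (l 16372888)))))), by decide +kernel⟩

def k10_B00pm_022_s3 : ∃ t, chk3 f_B00pm_022_s3 t 33 28 1 = true :=
  ⟨(c (c (b (a (b (l 16426728) (l 16445848)) (l 16451448)) (a (b (l 16465712) (l 16486280)) (l 16407848))) (b (a (b (l 16388128) (l 16408432)) (l 16326232)) (a (b (l 16429576) (l 16451552)) (b (l 16442088) (l 16464392))))) (a (b (c (b (l 16348320) (l 16369832)) (b (l 16307304) (l 16330064))) (c (b (l 16392312) (l 16415744)) (b (l 16353920) (a (l 16376968) (l 16380568))))) (b (c (b (l 16356576) (l 16378584)) (b (l 16311944) (l 16335288))) (c (b (l 16401512) (l 16425352)) (b (l 16359680) (l 16385104)))))), by decide +kernel⟩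

def k11_B00pm_022_s3 : ∃ t, chk3 f_B00pm_022_s3 t 16 29 1 = true :=
  ⟨(b (b (a (a (a (c (c (b (c (l 16446152) (l 16432704)) (c (l 16456592) (l 16443496))) (c (b (l 16419064) (l 16430200)) (a (b (l 16424040) (l 16435512)) (l 16413064)))) (c (a (b (c (l 16389192) (l 16375128)) (c (l 16401032) (l 16387336))) (b (l 16385936) (l 16398008))) (c (a (b (l 16360864) (l 16373440)) (l 16380856)) (a (b (l 16346408) (l 16359360)) (l 16366224))))) (c (b (c (l 16428456) (l 16420808)) (c (l 16439128) (l 16432208))) (c (c (l 16404736) (l 16389976)) (a (b (l 16338640) (l 16351528)) (l 16389792))))) (a (c (c (l 16485320) (l 16455688)) (c (b (l 16335192) (l 16347440)) (c (l 16317808) (l 16343824)))) (c (c (l 16494520) (l 16463496)) (c (l 16431512) (l 16398592))))) (a (c (c (l 16507616) (l 16474416)) (c (l 16398240) (a (l 16402912) (l 16406744)))) (c (c (l 16523768) (l 16487544)) (c (l 16450160) (l 16411608))))) (b (a (a (a (a (c (c (l 16468800) (a (l 16436880) (l 16433928)))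 (c (c (l 16413160) (l 16399848)) (c (l 16386344) (l 16372664)))) (c (c (l 16442488) (l 16437304)) (c (l 16410376) (l 16393176)))) (c (c (l 16450024) (l 16443864)) (c (a (l 16393136) (l 16438680)) (a (l 16364744) (l 16409584))))) (c (a (a (l 16485304) (l 16489712)) (l 16454184)) (a (c (l 16401912) (l 16371736)) (a (l 16433224) (l 16435976))))) (a (c (a (l 16504320) (l 16512120)) (c (l 16459192) (l 16425224))) (c (l 16439216) (c (l 16469424) (l 16432240))))) (l 14))) (l 14)), by decide +kernel⟩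

def k12_B00pm_022_s3 : ∃ t, chk3 f_B00pm_022_s3 t 17 14 1 = true :=
  ⟨(b (a (c (a (b (a (l 16356328) (l 16362096)) (b (l 16390696) (l 16412520))) (b (l 16328224) (a (l 16410216) (l 16415616)))) (c (b (a (l 16374360) (l 16379752)) (a (l 16421072) (l 16427264))) (b (a (l 16326656) (l 16328192)) (a (l 16292576) (l 16378968))))) (c (b (a (l 16379840) (l 16387992)) (a (l 16423176) (l 16431808))) (b (a (c (l 16383744) (l 16328200)) (l 16272560)) (a (a (l 16321664) (l 16322712)) (l 16323312))))) (a (b (c (a (c (l 16465792) (l 16427288)) (b (l 16446896) (l 16470448))) (a (c (l 16387504) (b (l 16416480) (l 16444520))) (b (l 16358672) (l 16386072)))) (l 14)) (a (b (c (l 16427208) (a (l 16374984) (l 16376352))) (c (l 16476208) (b (l 16418464) (l 1)))) (b (c (l 16478128) (l 16377416)) (l 1))))), by decide +kernel⟩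

def k13_B00pm_022_s3 : ∃ t, chk3 f_B00pm_022_s3 t 8 15 1 = true :=
  ⟨(a (l 14) (a (l 14) (l 1))), by decide +kernel⟩

def k14_B00pm_022_s3 : ∃ t, chk3 f_B00pm_022_s3 t 9 7 1 = true :=
  ⟨(b (a (b (a (a (c (b (l 16393808) (l 16438048)) (b (l 16270144) (l 16321632))) (b (b (l 16236408) (l 1)) (l 1))) (l 1)) (l 1)) (l 1)) (l 1)), by decide +kernel⟩

def k15_B00pm_022_s3 : ∃ t, chk3 f_B00pm_022_s3 t 5 7 1 = true :=
  ⟨(l 1), by decide +kernel⟩

def k16_B00pm_022_s3 : ∃ t, chk3 f_B00pm_022_s3 t 3 1 1 = true :=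
  ⟨(l 1), by decide +kernel⟩

theorem t17_B00pm_022_s3 : ∃ t, chk3 f_B00pm_022_s3 t 32 28 1 = true := ex3_c k8_B00pm_022_s3 k9_B00pm_022_s3

theorem t18_B00pm_022_s3 : ∃ t, chk3 f_B00pm_022_s3 t 16 28 1 = true := ex3_a t17_B00pm_022_s3 k10_B00pm_022_s3

theorem t19_B00pm_022_s3 : ∃ t, chk3 f_B00pm_022_s3 t 16 14 1 = true := ex3_b t18_B00pm_022_s3 k11_B00pm_022_s3

theorem t20_B00pm_022_s3 : ∃ t, chk3 f_B00pm_022_s3 t 8 14 1 = true := ex3_a t19_B00pm_022_s3 k12_B00pm_022_s3

theorem t21_B00pm_022_s3 : ∃ t, chk3 f_B00pm_022_s3 t 8 7 1 = true := ex3_b t20_B00pm_022_s3 k13_B00pm_022_s3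

theorem t22_B00pm_022_s3 : ∃ t, chk3 f_B00pm_022_s3 t 4 7 1 = true := ex3_a t21_B00pm_022_s3 k14_B00pm_022_s3

theorem t23_B00pm_022_s3 : ∃ t, chk3 f_B00pm_022_s3 t 2 7 1 = true := ex3_a t22_B00pm_022_s3 k15_B00pm_022_s3

theorem t24_B00pm_022_s3 : ∃ t, chk3 f_B00pm_022_s3 t 16 27 1 = true := ex3_a k3_B00pm_022_s3 k4_B00pm_022_s3

theorem t25_B00pm_022_s3 : ∃ t, chk3 f_B00pm_022_s3 t 8 27 1 = true := ex3_a t24_B00pm_022_s3 k5_B00pm_022_s3

theorem t26_B00pm_022_s3 : ∃ t, chk3 f_B00pm_022_s3 t 4 27 1 = true := ex3_a t25_B00pm_022_s3 k6_B00pm_022_s3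

theorem t27_B00pm_022_s3 : ∃ t, chk3 f_B00pm_022_s3 t 4 13 1 = true := ex3_b k2_B00pm_022_s3 t26_B00pm_022_s3

theorem t28_B00pm_022_s3 : ∃ t, chk3 f_B00pm_022_s3 t 4 6 1 = true := ex3_b k1_B00pm_022_s3 t27_B00pm_022_s3

theorem t29_B00pm_022_s3 : ∃ t, chk3 f_B00pm_022_s3 t 2 6 1 = true := ex3_a t28_B00pm_022_s3 k7_B00pm_022_s3

theorem t30_B00pm_022_s3 : ∃ t, chk3 f_B00pm_022_s3 t 2 3 1 = true := ex3_b t29_B00pm_022_s3 t23_B00pm_022_s3

theorem t31_B00pm_022_s3 : ∃ t, chk3 f_B00pm_022_s3 t 2 1 1 = true := ex3_b k0_B00pm_022_s3 t30_B00pm_022_s3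

theorem t32_B00pm_022_s3 : ∃ t, chk3 f_B00pm_022_s3 t 1 1 1 = true := ex3_a t31_B00pm_022_s3 k16_B00pm_022_s3

theorem c_B00pm_022_s3 : CertF 0 536870912 0 536870912 991146299 28908434 false true false .pp 0 2 2
    ndB0q0 ndB0q2 pcB2 cut_B00pm_022_s3 Ext.none :=
  certF0 (fam := false) (s1 := true) (s2 := false) (a := 0) (b := 2) (c := 2) (cn := .pp) (n1 := ndB0q0) (n2 := ndB0q2) (pc := pcB2) (cut := cut_B00pm_022_s3) (xt := Ext.none) (P1 := 0) (W1 := 536870912) (P2 := 0) (W2 := 536870912) (P3 := 991146299) (W3 := 28908434)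
    rfl t32_B00pm_022_s3

theorem s_B00pm_022_s3 {κ x : ℝ} (hκ : κ * h0 = ken x) (hx : ((991146299 : ℕ) : ℝ) / S ≤ x)
    (hx' : x ≤ (((991146299 : ℕ) : ℝ) + (28908434 : ℕ)) / S)
    (H : CutB (VFD κ) PP tK tL pcB (Cut.of [[⟨0, 0, 0, 53687091⟩, ⟨1, 1, 0, 53687091⟩, ⟨2, 1, 0, 53687091⟩]]) 0 2 2 0 0 (sgb true) (sgb false) x) :
    AltB (VFD κ) PP tK tL pcB [⟨4, 0, 0, 2845415833⟩] 0 2 2 0 0 (sgb true) (sgb false) x :=
  strip_altBD (m := 2845415833) false rfl hκ (SH.κ0 hκ (SH.hx1 hx).le (SH.hx2 hx').le) (SH.hx1 hx).le (SH.hx2 hx') (covB00).cov (covB02).cov hx hx' c_B00pm_022_s3 H (noExt_B)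

noncomputable def cut_B00pm_101_s1 : Cut := Cut.of [[⟨4, 0, 0, 1127428915⟩], [⟨0, 1, 0, 26843545⟩, ⟨1, 0, 0, 26843545⟩, ⟨2, 1, 0, 26843545⟩], [⟨0, 0, 1, 46137344⟩, ⟨1, 1, 2, 46137344⟩, ⟨2, 1, 0, 2097152⟩, ⟨0, 0, 0, 1027248803⟩, ⟨0, 1, 0, 87939455⟩, ⟨1, 0, 0, 87939455⟩, ⟨1, 1, 0, 1027248803⟩]]

noncomputable def f_B00pm_101_s1 : ℕ → ℕ → ℕ → ℕ → Bool := onCell 536870912 536870912 536870912 536870912 991146299 28908434
    (rowF 0 false true false .npn 1 0 1 (qsf 536870912 536870912 536870912 536870912 0) ndB0q1 ndB0q1 pcB0 cut_B00pm_101_s1 Ext.none)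

def k0_B00pm_101_s1 : ∃ t, chk3 f_B00pm_101_s1 t 1 1 1 = true :=
  ⟨(a (l 6) (b (l 6) (a (l 6) (b (l 6) (a (l 6) (b (l 6) (b (l 6) (a (l 6) (b (a (l 6) (b (l 1) (l 14))) (a (a (l 6) (l 14)) (l 14))))))))))), by decide +kernel⟩

theorem c_B00pm_101_s1 : CertF 536870912 536870912 536870912 536870912 991146299 28908434 false true false .npn 1 0 1
    ndB0q1 ndB0q1 pcB0 cut_B00pm_101_s1 Ext.none :=
  certF0 (fam := false) (s1 := true) (s2 := false) (a := 1) (b := 0) (c := 1) (cn := .npn) (n1 := ndB0q1) (n2 := ndB0q1) (pc := pcB0) (cut := cut_B00pm_101_s1) (xt := Ext.none) (P1 := 536870912) (W1 := 536870912) (P2 := 536870912) (W2 := 536870912) (P3 := 991146299) (W3 := 28908434)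
    rfl k0_B00pm_101_s1

theorem s_B00pm_101_s1 {κ x : ℝ} (hκ : κ * h0 = ken x) (hx : ((991146299 : ℕ) : ℝ) / S ≤ x)
    (hx' : x ≤ (((991146299 : ℕ) : ℝ) + (28908434 : ℕ)) / S)
    (H : CutB (VFD κ) PP tK tL pcB (Cut.of [[⟨0, 1, 0, 26843545⟩, ⟨1, 0, 0, 26843545⟩, ⟨2, 1, 0, 26843545⟩], [⟨0, 0, 1, 46137344⟩, ⟨1, 1, 2, 46137344⟩, ⟨2, 1, 0, 2097152⟩, ⟨0, 0, 0, 1027248803⟩, ⟨0, 1, 0, 87939455⟩, ⟨1, 0, 0, 87939455⟩, ⟨1, 1, 0, 1027248803⟩]]) 1 0 1 0 0 (sgb true) (sgb false) x) :
    AltB (VFD κ) PP tK tL pcB [⟨3, 0, 0, 1127428915⟩] 1 0 1 0 0 (sgb true) (sgb false) x :=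
  strip_altBD (m := 1127428915) true rfl hκ (SH.κ0 hκ (SH.hx1 hx).le (SH.hx2 hx').le) (SH.hx1 hx).le (SH.hx2 hx') (covB01).cov (covB01).cov hx hx' c_B00pm_101_s1 H (noExt_B)

noncomputable def cut_B00pm_101_s3 : Cut := Cut.of [[⟨3, 0, 0, 2845415833⟩], [⟨0, 1, 0, 26843545⟩, ⟨1, 0, 0, 26843545⟩, ⟨2, 1, 0, 26843545⟩], [⟨0, 0, 1, 46137344⟩, ⟨1, 1, 2, 46137344⟩, ⟨2, 1, 0, 2097152⟩, ⟨0, 0, 0, 1027248803⟩, ⟨0, 1, 0, 87939455⟩, ⟨1, 0, 0, 87939455⟩, ⟨1, 1, 0, 1027248803⟩]]

noncomputable def xt_B00pm_101_s3 : Ext := strExt dd false true false .u0 .u0m .s0m .npn 1 0 1 rfl rfl gl0 vv ndB0q1 ndB0q1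

noncomputable def f_B00pm_101_s3 : ℕ → ℕ → ℕ → ℕ → Bool := onCell 536870912 536870912 0 536870912 991146299 28908434
    (rowF 1 false true false .npn 1 0 1 (qsf 536870912 536870912 536870912 536870912 0) ndB0q1 ndB0q1 pcB0 cut_B00pm_101_s3 xt_B00pm_101_s3)

def k0_B00pm_101_s3 : ∃ t, chk3 f_B00pm_101_s3 t 2 2 1 = true :=
  ⟨(a (b (a (a (b (l 4) (b (l 527999503) (c (l 528256527) (l 527700751)))) (b (b (l 527336207) (l 527687695)) (b (l 527985167) (a (l 528164879) (b (l 528235023) (l 528329487)))))) (b (a (b (l 527594511) (l 527932431)) (b (l 527827471) (b (l 528087823) (l 528239119)))) (a (a (b (l 528164623) (b (l 528343567) (l 528433935))) (b (l 529348111) (c (l 528812559) (l 528152335)))) (b (b (l 528375567) (l 528495375)) (c (l 528989455) (l 528267023)))))) (a (b (a (a (b (l 528103439) (b (c (l 528690191) (l 527665423)) (c (l 528786191) (l 527607055)))) (b (b (l 528190479) (c (l 528694287) (l 527793679))) (b (l 528293391) (l 528308751)))) (b (a (b (l 528299791)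 (l 528357391)) (b (l 528403983) (l 528456463))) (b (c (l 528982287) (l 527864591)) (c (l 529076751) (l 527780623))))) (a (b (b (c (l 528925199) (l 527538191)) (c (l 528984335) (l 527404303))) (c (b (l 529017103) (c (l 529476623) (l 528548879))) (b (l 527240975) (c (l 527560719) (l 526521615))))) (b (b (a (l 528387343) (l 528473871)) (c (l 529196815) (l 527527951))) (c (b (l 529217039) (a (l 529164047) (l 16319144))) (a (b (l 527331855) (l 527134991)) (b (l 527391759) (l 527196175))))))) (a (b (c (b (l 529840143) (a (l 529196815) (l 529307407))) (b (a (l 528047887) (l 528121103)) (a (l 527921423) (l 527988495)))) (a (b (b (l 528290831) (c (l 16290832) (l 16179312))) (l 6)) (l 6))) (b (a (b (a (l 529227791) (l 529006607)) (l 6)) (l 6)) (l 6))))) (b (a (a (b (b (a (l 527994383) (l 528098831)) (a (l 528318991) (l 528422671))) (b (c (l 528891151) (l 528378639)) (l 6))) (b (a (b (l 529544463) (l 6)) (l 6)) (l 6))) (l 6)) (b (l 6) (l 6)))), by decide +kernel⟩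

def k1_B00pm_101_s3 : ∃ t, chk3 f_B00pm_101_s3 t 2 3 1 = true :=
  ⟨(b (a (a (b (a (a (b (b (c (l 528950031) (l 526796559)) (c (l 528890639) (l 526539023))) (b (c (l 528791567) (l 526248719)) (c (l 528383759) (l 525652239)))) (b (c (b (l 529039375) (l 528970511)) (b (l 526851343) (l 526594575))) (a (b (c (l 528846863) (l 526289935)) (l 6)) (l 6)))) (b (a (b (c (l 529123087) (l 526909711)) (a (b (l 527914767) (l 6)) (l 6))) (l 6)) (l 6))) (b (b (a (a (a (a (c (l 528448271) (l 525533711)) (a (c (l 16263104) (l 525542671)) (l 6))) (l 6)) (l 6)) (l 6)) (l 6)) (l 6))) (l 6)) (l 6)) (a (b (l 6) (l 6)) (l 6))), by decide +kernel⟩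

def k2_B00pm_101_s3 : ∃ t, chk3 f_B00pm_101_s3 t 3 1 1 = true :=
  ⟨(b (a (l 6) (l 6)) (l 6)), by decide +kernel⟩

theorem t3_B00pm_101_s3 : ∃ t, chk3 f_B00pm_101_s3 t 2 1 1 = true := ex3_b k0_B00pm_101_s3 k1_B00pm_101_s3

theorem t4_B00pm_101_s3 : ∃ t, chk3 f_B00pm_101_s3 t 1 1 1 = true := ex3_a t3_B00pm_101_s3 k2_B00pm_101_s3

theorem c_B00pm_101_s3 : CertF 536870912 536870912 536870912 536870912 991146299 28908434 false true false .npn 1 0 1
    ndB0q1 ndB0q1 pcB0 cut_B00pm_101_s3 xt_B00pm_101_s3 :=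
  certF1 (fam := false) (s1 := true) (s2 := false) (a := 1) (b := 0) (c := 1) (cn := .npn) (n1 := ndB0q1) (n2 := ndB0q1) (pc := pcB0) (cut := cut_B00pm_101_s3) (xt := xt_B00pm_101_s3) (P1 := 536870912) (W1 := 536870912) (P2 := 536870912) (W2 := 536870912) (P3 := 991146299) (W3 := 28908434)
    rfl (fun _ => rfl) t4_B00pm_101_s3

theorem s_B00pm_101_s3 {κ x : ℝ} (hκ : κ * h0 = ken x) (hx : ((991146299 : ℕ) : ℝ) / S ≤ x)
    (hx' : x ≤ (((991146299 : ℕ) : ℝ) + (28908434 : ℕ)) / S)
    (H : CutB (VFD κ) PP tK tL pcB (Cut.of [[⟨0, 1, 0, 26843545⟩, ⟨1, 0, 0, 26843545⟩, ⟨2, 1, 0, 26843545⟩], [⟨0, 0, 1, 46137344⟩, ⟨1, 1, 2, 46137344⟩, ⟨2, 1, 0, 2097152⟩, ⟨0, 0, 0, 1027248803⟩, ⟨0, 1, 0, 87939455⟩, ⟨1, 0, 0, 87939455⟩, ⟨1, 1, 0, 1027248803⟩]]) 1 0 1 0 0 (sgb true) (sgb false) x) :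
    AltB (VFD κ) PP tK tL pcB [⟨4, 0, 0, 2845415833⟩] 1 0 1 0 0 (sgb true) (sgb false) x :=
  strip_altBD (m := 2845415833) false rfl hκ (SH.κ0 hκ (SH.hx1 hx).le (SH.hx2 hx').le) (SH.hx1 hx).le (SH.hx2 hx') (covB01).cov (covB01).cov hx hx' c_B00pm_101_s3 H ((okx hx hx').extB (T := tt) (sideB hx hx') hκ rfl rfl (.O 1 true) (.O 1 false) (Or.inl rfl))

noncomputable def cut_B00pm_102_s1 : Cut := Cut.of [[⟨4, 0, 0, 1100585369⟩], [⟨0, 1, 0, 16777216⟩, ⟨1, 0, 0, 16777216⟩, ⟨2, 1, 0, 16777216⟩], [⟨0, 0, 1, 46137344⟩, ⟨1, 1, 2, 46137344⟩, ⟨2, 1, 0, 2097152⟩, ⟨0, 0, 0, 1027248803⟩, ⟨0, 1, 0, 87939455⟩, ⟨1, 0, 0, 87939455⟩, ⟨1, 1, 0, 1027248803⟩]]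

noncomputable def xt_B00pm_102_s1 : Ext := strExt dd false true false .u0 .u2 .u0m .npp 1 0 2 rfl rfl gf0 vv ndB0q1 ndB0q2

noncomputable def f_B00pm_102_s1 : ℕ → ℕ → ℕ → ℕ → Bool := onCell 536870912 536870912 0 536870912 991146299 28908434
    (rowF 0 false true false .npp 1 0 2 (qsf 536870912 536870912 0 536870912 0) ndB0q1 ndB0q2 pcB0 cut_B00pm_102_s1 xt_B00pm_102_s1)

def k0_B00pm_102_s1 : ∃ t, chk3 f_B00pm_102_s1 t 2 1 1 = true :=
  ⟨(b (a (b (l 2) (l 6)) (b (a (a (a (l 2) (b (l 3) (b (l 530614031) (b (l 530735119) (l 6))))) (b (l 3) (a (b (l 530467599) (c (l 530125071) (a (l 530904847) (l 530860047)))) (b (l 3) (c (l 530117903) (b (l 530768911) (l 530846991))))))) (a (b (l 3) (b (l 3) (a (c (l 529873935) (l 530763535)) (l 3)))) (l 3))) (a (b (a (l 6) (a (l 6) (b (a (l 6) (l 530664975)) (l 6)))) (l 6)) (b (a (a (b (l 530344975) (l 6)) (b (l 530570511) (l 530734607))) (a (b (l 530553871) (l 530722831)) (b (l 3) (l 530732303)))) (b (a (l 6) (a (l 6) (b (l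 530856975) (l 6)))) (l 6)))))) (l 6)), by decide +kernel⟩

def k1_B00pm_102_s1 : ∃ t, chk3 f_B00pm_102_s1 t 3 2 1 = true :=
  ⟨(b (l 3) (a (a (b (a (a (b (l 3) (l 530756623)) (l 3)) (l 3)) (a (a (b (c (l 530623503) (l 531217935)) (l 6)) (b (b (l 530894095) (l 530959887)) (l 531042319))) (b (a (l 530848271) (l 3)) (a (l 530643727) (l 530154511))))) (l 3)) (l 3))), by decide +kernel⟩

def k2_B00pm_102_s1 : ∃ t, chk3 f_B00pm_102_s1 t 6 3 1 = true :=
  ⟨(b (a (b (b (a (l 6) (a (l 530389263) (l 529873679))) (l 6)) (l 6)) (b (a (b (a (l 529343247) (l 528801039)) (a (b (l 529068815) (l 6)) (b (l 528501263) (l 528273935)))) (b (l 3) (a (c (b (l 528214031) (l 527989775)) (l 527477263)) (c (l 528651535) (l 526825487))))) (a (l 6) (b (a (a (a (l 6) (l 527345423)) (l 527108879)) (c (l 527050511) (l 526192911))) (a (l 6) (b (l 6) (l 6))))))) (l 6)), by decide +kernel⟩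

def k3_B00pm_102_s1 : ∃ t, chk3 f_B00pm_102_s1 t 7 6 1 = true :=
  ⟨(b (l 3) (a (a (a (b (c (b (l 3) (l 526371343)) (l 525479695)) (a (b (l 525642255) (l 6)) (c (b (l 525933327) (l 525587471)) (l 524476687)))) (b (l 3) (c (b (a (l 525693199) (l 3)) (a (l 525352719) (l 525145103))) (b (l 524128527) (a (l 523862031) (l 523485711)))))) (a (b (l 3) (b (l 3) (a (c (l 524973071) (l 523121167)) (l 3)))) (l 3))) (l 3))), by decide +kernel⟩

def k4_B00pm_102_s1 : ∃ t, chk3 f_B00pm_102_s1 t 14 7 1 = true :=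
  ⟨(b (a (b (a (l 6) (a (l 6) (b (c (b (l 524891407) (l 524719631)) (l 522965519)) (l 6)))) (l 6)) (b (a (b (a (c (b (l 524739087) (c (l 525118735) (l 524072207))) (l 522628623)) (b (a (l 523580175) (l 3)) (c (a (l 524529679) (l 524503823)) (l 522125071)))) (b (a (c (c (l 524977167) (l 523865103)) (l 522177039)) (c (a (l 524380943) (l 524375055)) (l 521831695))) (a (l 6) (c (a (l 6) (l 524264975)) (l 521540367))))) (b (b (l 3) (a (a (b (l 3) (l 523145743)) (l 3)) (l 3))) (b (a (c (c (l 525117199) (l 523684879)) (l 521522959)) (l 3)) (a (c (c (a (l 525048591) (l 525179663)) (l 523569167)) (l 521256463)) (c (a (c (l 525355535) (l 523663119)) (l 524677647)) (a (l 521111311) (l 521040143))))))) (a (l 6) (a (b (b (c (c (a (l 525050127) (l 525225743)) (a (l 523464719) (l 523529231))) (c (l 521830671) (l 520169231))) (l 6)) (l 6)) (b (a (c (c (b (l 525454607) (l 525620751)) (l 523641615)) (l 520792335)) (c (c (b (l 525744399) (l 525986319)) (l 523827983)) (l 520771087)))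 (a (l 6) (a (l 6) (b (c (l 526912527) (l 520622607)) (l 6))))))))) (l 6)), by decide +kernel⟩

def k5_B00pm_102_s1 : ∃ t, chk3 f_B00pm_102_s1 t 15 14 1 = true :=
  ⟨(b (l 3) (a (b (a (a (c (a (c (b (l 526106127) (l 526437391)) (l 524078095)) (c (b (l 3) (l 526989327)) (l 524403983))) (a (l 520793103) (l 520866575))) (a (b (l 3) (c (l 527409167) (l 521025551))) (l 3))) (l 3)) (a (a (b (c (a (a (l 525537039) (l 525798671)) (c (l 527576335) (l 524906767))) (a (l 520706063) (l 520885519))) (a (l 6) (c (a (l 526701327) (l 527106831)) (l 521023759)))) (c (a (c (b (l 528404751) (l 529382159)) (b (l 525508367) (l 526200335))) (c (a (l 529684751) (l 530297615)) (l 526672399))) (a (c (l 522786063) (l 519733775)) (c (l 523357967) (l 520037647))))) (a (a (b (l 3) (a (c (l 529869839) (l 522420239)) (b (l 3) (a (l 526862351) (a (l 527097615) (c (l 531877647) (l 523189519))))))) (l 3)) (l 3)))) (l 3))), by decide +kernel⟩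

def k6_B00pm_102_s1 : ∃ t, chk3 f_B00pm_102_s1 t 60 30 1 = true :=
  ⟨(b (a (l 6) (b (b (c (a (c (l 530305807) (l 526877967)) (a (l 529548559) (l 530266127))) (a (l 521709327) (l 522360591))) (a (l 6) (c (a (l 530289935) (l 531096335)) (a (l 16750640) (l 522944783))))) (b (a (l 6) (a (l 6) (c (l 532050447) (l 523410191)))) (l 6)))) (l 6)), by decide +kernel⟩

def k7_B00pm_102_s1 : ∃ t, chk3 f_B00pm_102_s1 t 61 60 1 = true :=
  ⟨(b (a (a (c (a (b (b (l 530844943) (l 531279375)) (l 531988239)) (b (c (a (l 533793551) (l 534308111)) (l 529816847)) (a (l 532719119) (l 533239823)))) (a (b (b (l 522880015) (l 523086607)) (b (l 523310351) (l 523556367))) (b (a (b (l 523226383) (l 523451151)) (l 523584783)) (a (l 523837455) (l 524127759))))) (c (a (b (l 532902927) (l 534073615)) (b (b (l 3) (l 534288655)) (l 535293711))) (a (c (l 526577423) (l 521972239)) (b (l 524581903) (l 525297679))))) (b (l 3) (a (a (c (l 536651279) (l 526097423)) (l 3)) (l 3)))) (a (b (a (c (a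 (l 533058319) (l 534178319)) (a (l 523975183) (l 524613903))) (c (a (l 535425039) (l 536811791)) (a (l 525336335) (l 526157839)))) (a (a (l 6) (c (l 536374031) (l 525382927))) (c (a (l 536986127) (l 537815567)) (a (l 526227727) (l 527186959))))) (a (c (a (b (l 537881871) (c (l 537972495) (l 537317903))) (b (l 537883663) (c (l 537962255) (l 538200591)))) (a (c (l 530577423) (l 524741135)) (c (b (l 531138063) (l 532713743)) (l 525715983)))) (b (a (a (c (l 537873935) (l 529046799)) (l 3)) (l 3)) (a (c (c (l 537934351) (l 538170895)) (c (l 534320143) (l 527524879))) (b (l 3) (c (l 537713167) (l 533025039)))))))), by decide +kernel⟩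

def k8_B00pm_102_s1 : ∃ t, chk3 f_B00pm_102_s1 t 61 61 1 = true :=
  ⟨(b (a (b (a (l 6) (c (a (l 537755151) (l 537767439)) (a (l 527294735) (l 528951311)))) (l 6)) (a (c (a (b (c (l 537914127) (l 538148623)) (c (l 537853455) (l 538083087))) (b (c (l 537891343) (l 538124303)) (c (l 537818383) (l 538045967)))) (a (c (b (l 532921871) (l 534840591)) (l 528472079)) (b (c (l 534567951) (l 527689743)) (c (l 536752911) (l 529341967))))) (c (a (b (a (l 537978639) (l 537953551)) (a (l 537625359) (l 537594383))) (b (a (l 537924111) (l 537890575)) (a (l 537559055) (l 537519375)))) (a (b (c (l 536432399) (l 529116175)) (c (l 538223375) (l 531022863))) (b (a (l 534160655) (l 535162383)) (a (l 536597263) (l 537772559))))))) (a (l 6) (a (a (l 6) (a (l 6) (b (b (c (l 537866255) (l 16780456)) (l 6)) (l 6)))) (a (b (c (a (c (l 537710095) (l 537930511)) (c (l 537675535) (l 537893903))) (c (l 537869839) (l 533313295))) (l 6)) (b (c (a (c (l 537636879) (l 537853455)) (c (l 537594639)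 (l 537809423))) (a (l 537923343) (l 537607695))) (a (b (c (l 537700623) (l 538140687)) (l 6)) (c (c (l 537535247) (l 537744911)) (c (l 537961743) (l 538185231))))))))), by decide +kernel⟩

def k9_B00pm_102_s1 : ∃ t, chk3 f_B00pm_102_s1 t 31 30 1 = true :=
  ⟨(b (l 3) (a (a (a (b (a (c (b (a (l 537852431) (l 537809935)) (a (b (l 537771791) (l 537717263)) (b (l 537724943) (l 537667855)))) (b (a (l 536233231) (l 537379087)) (b (l 537663759) (a (l 538165007) (l 538110991))))) (b (l 3) (a (c (b (l 537673743) (l 537347087)) (c (l 537972751) (l 537059855))) (c (b (l 537618447) (b (l 537585167) (a (l 537553167) (l 537532175)))) (b (l 538058767) (c (l 537614095) (l 537837583))))))) (c (a (b (a (b (l 537672719) (l 537638671)) (b (l 537623055) (l 537590031))) (a (b (l 537339919) (l 537307151)) (c (l 537436687) (l 537641999)))) (b (a (b (c (l 537466895) (l 537676047)) (c (l 537436687) (l 537643279))) (b (a (l 537536783) (l 537499407)) (a (l 537493263) (l 537459215)))) (a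 (c (l 537379599) (l 537582095)) (c (l 537314831) (l 537514511))))) (a (b (a (c (l 537979151) (l 537534991)) (b (l 538060047) (l 538021903))) (a (c (l 537910287) (l 538131727)) (c (l 537853967) (l 538072847)))) (b (a (b (l 537734415) (l 537697807)) (a (b (l 537965839) (l 537916175)) (l 537634319))) (a (c (l 537791503) (l 538007823)) (c (l 537721103) (l 537934095))))))) (b (a (b (l 3) (a (b (l 3) (b (l 3) (c (l 537474831) (l 537899791)))) (l 3))) (l 3)) (a (c (a (b (l 537421071) (l 537070351)) (b (l 537343503) (l 536994063))) (a (b (l 537838863) (l 537745167)) (b (l 537754639) (l 537661967)))) (c (a (b (l 537266703) (l 536918031)) (b (l 537189903) (l 536842255))) (a (b (l 537670927) (l 537579279)) (b (l 537587471) (l 537496847))))))) (a (b (l 3) (b (l 3) (a (c (a (l 536766991) (l 536691983)) (a (l 537414671) (l 537333007))) (a (c (l 536617231) (l 537251599)) (l 3))))) (l 3))) (l 3))), by decide +kernel⟩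

def k10_B00pm_102_s1 : ∃ t, chk3 f_B00pm_102_s1 t 30 31 1 = true :=
  ⟨(l 6), by decide +kernel⟩

def k11_B00pm_102_s1 : ∃ t, chk3 f_B00pm_102_s1 t 124 62 1 = true :=
  ⟨(b (a (a (a (l 6) (b (b (c (l 537215503) (l 537899535)) (l 6)) (l 6))) (a (b (c (c (l 537303055) (l 537500175)) (c (l 537703695) (l 537914127))) (l 6)) (a (b (c (l 537082383) (l 537753615)) (l 6)) (b (c (l 537315087) (l 537714447)) (b (c (l 537255951) (l 537646607)) (l 6)))))) (a (a (b (c (c (l 537163279) (l 537353999)) (l 537383951)) (b (c (l 536931087) (l 537585167)) (l 6))) (b (c (c (l 537089551) (l 537276943)) (l 537301775)) (b (c (l 536856591) (l 537504015)) (b (c (l 537096207) (l 16779776)) (l 6))))) (c (a (b (c (l 537016079) (l 537200143)) (c (l 536940559) (l 537119247))) (b (c (l 536942863) (l 537123855)) (c (l 536868623) (l 537043983)))) (a (b (l 537220111) (c (l 537304079) (l 537495311))) (b (l 537138703) (c (l 537225487) (l 537413135))))))) (a (l 6) (b (a (l 6) (b (a (a (l 6) (b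 (c (l 16777632) (l 16779192)) (l 6))) (a (b (c (l 16777464) (l 16778928)) (b (c (l 16777416) (l 16778960)) (l 6))) (c (l 536883727) (l 537236495)))) (l 6))) (l 6)))), by decide +kernel⟩

def k12_B00pm_102_s1 : ∃ t, chk3 f_B00pm_102_s1 t 125 124 1 = true :=
  ⟨(a (a (c (a (b (c (l 536870159) (l 537047823)) (c (l 536796687) (l 536968975))) (b (c (l 536797711) (l 536972047)) (a (l 536828431) (l 536792079)))) (a (b (l 537057807) (c (l 537147151) (l 537331727))) (b (l 536976911) (c (l 537069327) (l 537250319))))) (c (a (b (a (l 536829967) (l 536793103)) (a (l 536755727) (l 536719631))) (b (a (l 536756495) (l 536719887)) (a (l 536683535) (l 536647439)))) (a (b (c (l 537074191) (l 537257743)) (c (l 536991759) (l 537169679))) (b (a (l 537106447) (l 537066511)) (a (l 537022223) (l 536982799)))))) (b (b (l 3) (a (a (c (l 536648719) (l 536987407)) (l 3)) (l 3))) (a (a (c (a (l 536611343) (l 536575503)) (a (l 536943631) (l 536904463))) (c (a (l 536539663) (l 536503823))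 (a (l 536865295) (l 536826383)))) (a (c (a (l 536468239) (l 536432399)) (a (l 536787471) (l 536748815))) (c (a (l 536397071) (l 536361487)) (a (l 536709903) (l 536671247))))))), by decide +kernel⟩

def k13_B00pm_102_s1 : ∃ t, chk3 f_B00pm_102_s1 t 125 250 1 = true :=
  ⟨(a (a (a (b (c (c (l 16776760) (l 16777384)) (l 536908303)) (b (b (c (c (a (l 16776656) (l 16776568)) (l 16777280)) (c (l 16777984) (l 16778712))) (a (l 6) (c (c (a (l 16776512) (l 16776480)) (l 16777152)) (c (l 16777856) (l 16778584))))) (a (l 6) (a (l 6) (b (b (c (c (l 16776432) (l 16777112)) (c (l 16777824) (l 16778552))) (l 6)) (l 6)))))) (c (b (c (l 536674831) (l 16777120)) (b (l 536461839) (b (a (a (b (l 16776712) (c (l 16776360) (l 16777032))) (l 16776640)) (l 16776560)) (a (c (b (a (l 16776616) (l 16776296)) (l 16776800)) (b (a (l 16777264) (l 16776960)) (l 16777408))) (a (b (l 16776536) (c (l 16776240) (l 16776888))) (l 16776472)))))) (b (l 536829711) (b (l 537067535) (b (a (a (c (l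 16777704) (l 16778416)) (l 16777984)) (l 16777840)) (a (c (b (a (l 16777936) (l 16777640)) (l 16778040)) (b (a (l 16778632) (l 16778344)) (l 16778704))) (a (b (l 16777880) (c (l 16777560) (l 16778256))) (l 16777776)))))))) (a (c (a (l 536414223) (l 536378639)) (c (l 536910351) (l 537082383))) (c (a (l 536342799) (l 536307215)) (a (l 536939023) (l 536900111))))) (a (a (c (a (l 536271887) (l 536236303)) (a (l 536861455) (l 536822799))) (c (a (l 536200975) (c (l 536091407) (l 536509967))) (a (l 536784143) (l 536477455)))) (a (c (a (b (l 536419599) (l 536385807)) (b (l 536384527) (l 536350735))) (a (l 536439055) (l 536400655))) (c (a (b (l 536349455) (l 536316175)) (b (l 536314639) (l 536281359))) (a (b (l 536654095) (l 536615439)) (b (l 536615951) (l 536577551))))))), by decide +kernel⟩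

def k14_B00pm_102_s1 : ∃ t, chk3 f_B00pm_102_s1 t 500 251 1 = true :=
  ⟨(a (l 6) (a (l 6) (b (b (a (c (c (l 16777160) (l 16777696)) (c (l 16778264) (l 16778848))) (c (b (b (c (l 16776192) (l 16776824)) (l 16776784)) (c (l 16777112) (l 16777632))) (b (b (c (l 16777480) (l 16778160)) (l 16778032)) (l 16775840)))) (l 6)) (l 6)))), by decide +kernel⟩

def k15_B00pm_102_s1 : ∃ t, chk3 f_B00pm_102_s1 t 1002 251 1 = true :=
  ⟨(b (b (c (a (b (b (l 16776352) (a (c (l 16776144) (l 16776768)) (l 16776288))) (a (c (l 16776664) (l 16777224)) (b (c (l 16776104) (l 16776712)) (l 16776712)))) (b (l 16776256) (a (b (a (l 16776216) (l 16776208)) (c (l 16776064) (l 16776664))) (c (c (l 16775704) (l 16775992)) (l 16776440))))) (a (b (b (l 16777632) (a (c (l 16777408) (l 16778080)) (l 16777560))) (a (c (l 16777808) (l 16778416)) (b (c (l 16777344) (l 16778000)) (l 16777904)))) (b (l 16777456) (c (b (l 16777096) (a (l 16777280) (l 16777048))) (b (l 16777736) (a (l 16777920) (l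 16777680))))))) (c (c (b (a (l 16777280) (a (l 16776616) (b (l 16776032) (l 16776384)))) (l 16775056)) (a (l 16778144) (b (c (l 16776880) (l 16777160)) (l 16777712)))) (c (a (l 16778608) (b (a (l 16777712) (l 16777400)) (l 16778200))) (a (l 16779096) (b (a (l 16778296) (l 16778008)) (l 16778712)))))) (a (l 6) (b (c (c (l 16778512) (l 16778880)) (c (l 16779256) (l 16779656))) (l 6)))), by decide +kernel⟩

def k16_B00pm_102_s1 : ∃ t, chk3 f_B00pm_102_s1 t 1003 251 1 = true :=
  ⟨(b (c (b (c (l 16775872) (l 16776392)) (b (a (b (a (c (a (l 16773176) (l 16775776)) (l 16776360)) (l 16776040)) (a (c (l 16776000) (l 16776568)) (c (b (l 16775720) (l 16773112)) (l 16776296)))) (l 16775984)) (a (c (a (l 16776576) (l 16776184)) (a (l 16777096) (l 16776728))) (a (b (c (b (l 16775648) (l 16773072)) (l 16776240)) (c (l 16775944) (l 16776496))) (b (l 16775904) (c (b (l 16775584) (l 16773040)) (l 16776184))))))) (b (c (l 16776944) (l 16777512)) (a (b (c (b (l 16776920) (a (l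 16777168) (l 16776888))) (b (l 16777536) (a (l 16777784) (l 16777504)))) (c (a (l 16777632) (l 16777288)) (a (l 16778184) (l 16777872)))) (b (l 16777104) (a (b (c (l 16776816) (l 16777424)) (c (l 16777064) (l 16777648))) (b (l 16777040) (c (l 16776760) (l 16777352)))))))) (b (c (c (c (l 16774488) (l 16774712)) (c (l 16774944) (l 16775184))) (a (c (l 16778504) (l 16778968)) (a (c (l 16777928) (l 16778424)) (c (l 16777568) (l 16778096))))) (a (l 6) (c (c (l 16778472) (l 16778848)) (c (l 16779240) (l 16779648)))))), by decide +kernel⟩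

def k17_B00pm_102_s1 : ∃ t, chk3 f_B00pm_102_s1 t 251 502 1 = true :=
  ⟨(a (a (c (a (l 536491279) (l 536456463)) (a (l 536804111) (l 536765967))) (c (a (l 536421647) (l 536386831)) (a (l 536728079) (l 536690191)))) (a (c (a (l 536352015) (l 536317455)) (a (l 536652303) (l 536614415))) (c (a (l 536282895) (l 536248335)) (a (l 536576783) (l 536539151))))), by decide +kernel⟩

def k18_B00pm_102_s1 : ∃ t, chk3 f_B00pm_102_s1 t 502 503 1 = true :=
  ⟨(a (b (c (b (a (a (b (c (a (l 16773024) (l 16772904)) (l 16776144)) (l 16776160)) (b (l 16775776) (c (b (l 16772872) (l 16772992)) (l 16776104)))) (c (a (l 16775480) (l 16775488)) (l 16770736))) (a (c (l 16776312) (l 16776800)) (a (b (c (b (l 16772832) (l 16775592)) (l 16776064)) (l 16776120)) (b (a (l 16775648) (l 16775656)) (c (b (l 16772808) (l 16775576)) (l 16776032)))))) (a (b (a (b (c (l 16776704) (l 16777280)) (l 16777248)) (b (l 16776872) (c (l 16776648) (l 16777224)))) (c (l 16777312) (l 16777840))) (b (c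 (l 16776504) (l 16777040)) (a (b (c (l 16776608) (l 16777168)) (l 16777160)) (b (c (l 16776424) (l 16776976)) (c (l 16776560) (l 16777112))))))) (c (c (c (l 16777056) (l 16777272)) (c (l 16777488) (l 16777720))) (c (c (l 16777944) (l 16778184)) (c (l 16778416) (l 16778664))))) (b (b (c (l 16775728) (l 16776648)) (c (a (c (c (l 16772616) (l 16772856)) (l 16775840)) (l 16775624)) (a (c (l 16776344) (l 16776864)) (l 16776552)))) (c (b (a (a (b (c (b (l 16772784) (l 16775560)) (l 16776008)) (l 16776104)) (b (c (l 16772664) (b (l 16775800) (l 16775776))) (c (l 16775496) (l 16775984)))) (a (a (b (l 16775544) (b (l 16775496) (l 16775520))) (l 16775512)) (l 16775520))) (a (c (l 16776296) (l 16776760)) (b (a (c (l 16775488) (l 16775968)) (a (b (l 16775440) (l 16775504)) (l 16775424))) (c (l 16775696) (l 16776160))))) (b (b (a (a (c (l 16776528) (l 16777064)) (c (l 16776288) (l 16776816))) (l 16776504)) (a (a (l 16777112) (c (l 16776496) (l 16777024))) (a (c (l 16776232)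 (l 16776752)) (l 16776456)))) (a (c (l 16777248) (l 16777744)) (c (b (a (l 16776464) (l 16776184)) (l 16776648)) (b (a (l 16776984) (l 16776688)) (l 16777152)))))))), by decide +kernel⟩

def k19_B00pm_102_s1 : ∃ t, chk3 f_B00pm_102_s1 t 503 503 1 = true :=
  ⟨(a (c (a (b (l 16775704) (b (l 16775536) (a (b (l 16775440) (b (l 16775384) (a (l 16775488) (l 16775368)))) (l 16775424)))) (l 536284431)) (a (b (l 16776528) (b (l 16776424) (a (b (l 16776384) (c (l 16776136) (l 16776640))) (l 16776336)))) (l 536576015))) (c (a (l 536250127) (l 536215823)) (a (l 536538639) (l 536501263)))), by decide +kernel⟩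

def k20_B00pm_102_s1 : ∃ t, chk3 f_B00pm_102_s1 t 63 62 1 = true :=
  ⟨(b (l 3) (a (a (b (b (a (a (c (a (l 536279567) (l 536244751)) (a (l 536578063) (l 536540175))) (a (c (l 536210191) (l 536502287)) (l 3))) (l 3)) (a (a (c (a (l 536246799) (l 536212239)) (a (l 536539663) (l 536502031))) (c (a (l 536177679) (l 536143375)) (a (l 536464399) (l 536426767)))) (a (a (c (l 536108815) (l 536389391)) (l 3)) (l 3)))) (a (a (c (a (b (l 536214031) (l 536181775)) (b (l 536179727) (l 536147471))) (a (b (l 536501519) (l 536463887)) (b (l 536464143) (l 536426767)))) (c (a (b (l 536145423) (l 536113679)) (b (l 536111375) (l 535811343))) (a (b (l 536426767) (l 536389647)) (b (l 536389647) (l 536084239))))) (b (a (a (c (l 536077327) (l 536352271)) (c (l 536043279) (l 536315151))) (a (c (l 535740943) (l 536009743)) (b (l 3) (c (l 535969807) (l 536234255))))) (a (a (c (c (l 535713295) (l 535842831)) (l 536047119)) (c (c (l 535680271) (l 535808271)) (a (l 536289039) (l 536270607))))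 (a (c (c (l 535647247) (l 535773711)) (a (l 536252175) (l 536233999))) (c (a (l 535954191) (l 535669007)) (a (l 536215567) (l 536197135)))))))) (b (l 3) (b (l 3) (a (a (a (c (a (l 535652367) (l 535635471)) (c (l 536102159) (l 536236303))) (c (a (l 535618831) (l 535602191)) (a (l 536142351) (l 536124175)))) (a (a (c (l 535585551) (l 536105999)) (l 3)) (l 3))) (l 3))))) (l 3))), by decide +kernel⟩

def k21_B00pm_102_s1 : ∃ t, chk3 f_B00pm_102_s1 t 124 126 1 = true :=
  ⟨(l 6), by decide +kernel⟩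

def k22_B00pm_102_s1 : ∃ t, chk3 f_B00pm_102_s1 t 250 252 1 = true :=
  ⟨(l 6), by decide +kernel⟩

def k23_B00pm_102_s1 : ∃ t, chk3 f_B00pm_102_s1 t 502 252 1 = true :=
  ⟨(b (b (c (c (c (c (l 16772632) (l 16772736)) (c (l 16772840) (l 16772944))) (a (c (l 16779184) (l 16779384)) (c (l 16777504) (l 16777728)))) (c (a (c (l 16779584) (l 16779792)) (c (l 16777960) (l 16778192))) (a (c (l 16780000) (l 16780208)) (c (l 16778432) (l 16778680))))) (a (l 6) (c (c (c (l 16778816) (l 16779040)) (c (l 16779256) (l 16779488))) (c (c (l 16779712) (l 16779952)) (c (l 16780192) (l 16780432)))))) (b (a (l 6) (a (l 6) (c (c (l 16780280) (l 16780784)) (c (l 16781304) (l 16781840))))) (l 6))), by decide +kernel⟩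

def k24_B00pm_102_s1 : ∃ t, chk3 f_B00pm_102_s1 t 1006 504 1 = true :=
  ⟨(b (c (b (a (b (a (c (l 16775472) (l 16775936)) (a (b (l 16775352) (l 16775480)) (b (l 16775352) (l 16775336)))) (c (l 16775680) (l 16776136))) (a (b (l 16775344) (a (b (l 16775328) (l 16775472)) (b (l 16775304) (l 16775320)))) (l 16775336))) (a (c (l 16776320) (l 16776776)) (b (a (l 16775688) (a (b (l 16775312) (l 16775472)) (b (l 16775256) (l 16775304)))) (c (l 16775688) (l 16776136))))) (b (a (b (a (c (l 16776416) (l 16776912)) (c (b (l 16776040) (l 16776128)) (l 16776592))) (c (l 16776608) (l 16777096))) (a (b (l 16776256) (c (b (l 16776000) (l 16776104)) (l 16776552))) (l 16776216))) (a (c (l 16777248) (l 16777736)) (a (c (l 16776600) (l 16777088)) (b (c (b (l 16775960) (l 16776088)) (b (l 16776432) (l 16776560))) (l 16776608)))))) (c (c (c (l 16777096) (l 16777328)) (c (l 16777560) (l 16777800))) (c (a (l 16778592) (l 16772488)) (c (l 16773296) (l 16773552))))), by decide +kernel⟩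

def k25_B00pm_102_s1 : ∃ t, chk3 f_B00pm_102_s1 t 1007 504 1 = true :=
  ⟨(a (b (b (c (l 16775368) (l 16776192)) (b (c (c (l 16772432) (l 16772848)) (c (l 16775896) (l 16776344))) (a (a (c (c (l 16772576) (l 16775632)) (b (l 16776200) (l 16776384))) (c (b (l 16772592) (l 16775304)) (c (l 16775928) (l 16776384)))) (c (c (l 16772376) (l 16775416)) (c (l 16775840) (l 16776288)))))) (a (c (c (l 16776152) (l 16776600)) (c (l 16777072) (l 16777552))) (c (b (b (c (b (b (l 16772384) (l 16772440)) (l 16775200)) (b (l 16775464) (l 16775624))) (l 16775720)) (c (l 16776168) (l 16776624))) (b (b (c (b (l 16775904) (l 16776064)) (b (l 16776360) (l 16776520))) (l 16776616)) (c (l 16777088) (l 16777576)))))) (c (b (l 536193295) (a (b (a (b (b (l 16775192) (l 16775168)) (l 16775416)) (b (l 16775184) (b (l 16775160) (l 16775304)))) (c (l 16775744) (l 16776184))) (b (a (b (l 16775200) (b (l 16775152) (a (l 16772552) (l 16772504)))) (l 16775184)) (b (a (l 16775424) (b (a (l 16772552)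 (l 16772488)) (l 16775312))) (l 16775760))))) (b (l 536474639) (b (b (c (l 16775784) (l 16776216)) (a (c (b (l 16775888) (l 16776056)) (l 16776448)) (c (l 16775752) (l 16776184)))) (a (c (l 16776640) (l 16777112)) (b (c (l 16775992) (l 16776440)) (l 16774024))))))), by decide +kernel⟩

def k26_B00pm_102_s1 : ∃ t, chk3 f_B00pm_102_s1 t 503 505 1 = true :=
  ⟨(c (b (c (a (c (l 16778864) (l 16779120)) (a (l 16775096) (l 16774248))) (a (c (l 16779384) (l 16779656)) (c (l 16772432) (l 16772688)))) (c (c (c (l 16774464) (l 16774624)) (c (l 16774776) (l 16774936))) (a (c (l 16781272) (l 16781592)) (c (l 16774328) (l 16774656))))) (a (b (c (b (l 16774336) (l 16775312)) (c (l 16770000) (l 16770288))) (c (c (l 16781920) (l 16771768)) (c (l 16772112) (l 16772456)))) (b (c (c (l 16772952) (l 16773216)) (c (l 16773496) (l 16773768))) (c (c (l 16774984) (l 16775320)) (c (l 16775656) (l 16776000)))))), by decide +kernel⟩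

def k27_B00pm_102_s1 : ∃ t, chk3 f_B00pm_102_s1 t 125 253 1 = true :=
  ⟨(a (l 6) (a (l 6) (a (l 6) (b (b (c (c (a (l 16776104) (l 16775256)) (c (l 16776296) (l 16776712))) (c (c (l 16771896) (l 16772320)) (c (l 16772760) (l 16773208)))) (a (l 6) (c (c (l 16777112) (l 16778176)) (c (c (l 16773760) (l 16774320)) (l 16775176))))) (l 6))))), by decide +kernel⟩

def k28_B00pm_102_s1 : ∃ t, chk3 f_B00pm_102_s1 t 62 127 1 = true :=
  ⟨(l 6), by decide +kernel⟩

def k29_B00pm_102_s1 : ∃ t, chk3 f_B00pm_102_s1 t 504 504 1 = true :=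
  ⟨(c (a (a (b (l 535890959) (b (l 16775232) (b (a (a (b (l 16775120) (c (l 16774952) (l 16775352))) (l 16772488)) (l 16775144)) (a (c (a (l 16775232) (b (l 16774960) (l 16775128))) (l 16775576)) (a (b (l 16772456) (c (l 16774960) (l 16775352))) (c (l 16774888) (l 16775264))))))) (c (l 535782159) (l 535913743))) (a (c (l 535749135) (l 535879183)) (a (l 535789327) (l 535772431)))) (a (b (c (l 16775968) (l 16776312)) (a (b (l 16775992) (b (a (b (l 16775928) (c (l 16775728) (l 16776152))) (l 16775920)) (a (c (l 16775992) (l 16776432)) (b (l 16775872) (c (l 16775712) (l 16776128)))))) (l 536382479))) (a (c (l 536283151) (l 536423695)) (c (l 536247055) (l 536386063))))), by decide +kernel⟩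

def k30_B00pm_102_s1 : ∃ t, chk3 f_B00pm_102_s1 t 504 1010 1 = true :=
  ⟨(a (c (b (a (c (c (l 16775520) (l 16775728)) (a (l 16776232) (l 16775824))) (b (a (a (b (c (l 16774864) (l 16775240)) (l 16775168)) (c (l 16772240) (l 16772608))) (l 16775088)) (a (c (l 16772576) (l 16775600)) (a (b (c (l 16772232) (l 16775224)) (l 16775176)) (b (l 16775040) (c (l 16772232) (l 16775216))))))) (c (c (l 16773344) (l 16773560)) (c (l 16773784) (l 16774008)))) (a (c (b (a (l 16776688) (l 16776248)) (l 16777464)) (b (a (l 16777160) (l 16776696)) (l 16777984))) (b (b (a (c (b (l 16775624) (l 16775704)) (b (l 16776024) (l 16776112))) (l 16775824)) (a (c (l 16776008) (l 16776432)) (c (b (l 16772968) (l 16775696)) (b (l 16775984) (l 16776104))))) (c (l 16773912) (l 16774368))))) (a (c (b (l 535797007) (b (a (a (c (b (l 16772232) (l 16775008)) (l 16775320)) (b (l 16775016) (c (l 16772240) (l 16772600)))) (c (l 16774864) (l 16775200))) (a (c (l 16775232) (l 16775624)) (a (c (b (l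 16772248) (l 16775032)) (l 16775336)) (b (l 16772360) (c (l 16772256) (l 16775224))))))) (b (l 16775816) (c (b (a (b (l 16775568) (l 16775704)) (l 16775552)) (a (l 16776040) (b (l 16775560) (l 16775712)))) (b (a (b (l 16775960) (l 16776096)) (l 16775920)) (a (l 16776464) (b (l 16775936) (l 16776104))))))) (a (b (c (l 16775200) (l 16775848)) (c (c (b (l 16774928) (l 16772208)) (l 16772576)) (c (b (l 16775584) (l 16775512)) (l 16775896)))) (c (l 536019983) (l 536282639))))), by decide +kernel⟩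

def k31_B00pm_102_s1 : ∃ t, chk3 f_B00pm_102_s1 t 504 1011 1 = true :=
  ⟨(c (a (a (c (l 16775208) (c (l 16778280) (l 16778576))) (c (c (l 16776856) (l 16777128)) (c (l 16777400) (l 16777680)))) (b (a (c (l 16773080) (l 16776136)) (b (b (a (a (c (l 16772264) (l 16775232)) (c (l 16774792) (l 16775128))) (l 16775008)) (a (c (a (l 16775072) (l 16774896)) (l 16772736)) (c (b (l 16774816) (l 16772168)) (l 16772504)))) (b (a (l 16775376) (a (c (l 16774904) (l 16775256)) (c (l 16772168) (l 16775120)))) (c (l 16775232) (l 16775608))))) (c (c (l 16776072) (l 16776312)) (c (l 16773936) (l 16774192))))) (a (c (c (c (l 16778352) (l 16773264)) (c (l 16773416) (l 16773568))) (c (c (l 16773720) (l 16773872)) (c (l 16774032) (l 16774192)))) (a (c (c (l 16777008) (l 16772024)) (c (l 16772280) (l 16772544))) (b (c (b (a (b (l 16775552) (l 16775728)) (l 16772856)) (a (l 16776104) (b (a (l 16775608) (l 16775464)) (l 16775752)))) (b (a (b (l 16775928) (l 16776120)) (l 16775832))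 (a (l 16776536) (b (l 16775920) (l 16776136))))) (c (l 16774064) (c (l 16777048) (l 16777296))))))), by decide +kernel⟩

def k32_B00pm_102_s1 : ∃ t, chk3 f_B00pm_102_s1 t 505 252 1 = true :=
  ⟨(a (a (b (c (a (l 535755791) (l 535738895)) (c (l 536211215) (l 536348687))) (c (b (l 535725839) (a (a (b (b (l 16775032) (b (l 16774968) (c (c (l 16772088) (l 16774872)) (l 16772496)))) (c (l 16775280) (l 16775664))) (b (l 16775024) (b (b (c (a (l 16774808) (l 16774768)) (l 16772496)) (l 16775112)) (l 16775472)))) (b (l 16775072) (a (b (b (l 16774952) (c (a (l 16774816) (l 16774768)) (l 16772504))) (c (l 16775072) (l 16775432))) (b (l 16774968) (b (c (a (l 16774832) (l 16774776)) (l 16772512)) (l 16775144))))))) (b (l 535986191) (a (a (b (b (l 16775680) (c (l 16772832) (l 16775808))) (c (l 16776064) (l 16776480))) (b (l 16775664) (b (b (c (l 16772840) (l 16775808)) (l 16775832)) (c (l 16776064) (l 16776488))))) (b (l 16775688) (b (a (b (l 16775600) (c (l 16772840) (l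 16775808))) (l 16775600)) (a (c (l 16775808) (l 16776192)) (b (c (l 16772840) (l 16775808)) (l 16775864))))))))) (c (a (b (l 535722255) (b (l 535970063) (b (l 16775136) (a (b (l 16775000) (b (l 16772312) (a (c (l 16774848) (l 16775168)) (c (l 16774784) (l 16775096))))) (c (l 16772208) (l 16772512)))))) (b (l 535705615) (l 535675151))) (a (b (l 536252943) (b (l 536228111) (b (l 16775720) (b (l 16775624) (b (l 16775576) (a (c (l 16772848) (l 16775816)) (l 16775552))))))) (b (l 536234767) (l 536198927))))) (a (c (b (a (l 535688719) (l 535672079)) (a (l 535658511) (l 535641871))) (b (a (l 536216335) (l 536198159)) (a (l 536180751) (l 536162831)))) (c (b (a (l 535655439) (l 535638799)) (a (l 535625487) (l 535608847))) (b (a (l 536179983) (l 536161807)) (a (l 536144655) (l 536126735)))))), by decide +kernel⟩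

def k33_B00pm_102_s1 : ∃ t, chk3 f_B00pm_102_s1 t 504 506 1 = true :=
  ⟨(c (a (b (c (c (c (l 16778952) (l 16779136)) (l 16774184)) (c (l 16774576) (l 16774976))) (c (c (l 16775584) (l 16776104)) (c (l 16776632) (l 16777168)))) (b (c (c (c (l 16777320) (l 16777480)) (a (l 16778152) (l 16777304))) (c (c (l 16772736) (l 16772904)) (c (l 16773080) (l 16773248)))) (c (c (c (l 16779056) (l 16779296)) (c (l 16779528) (l 16779776))) (c (l 16774896) (l 16775392))))) (c (b (a (c (l 16775376) (l 16775792)) (c (c (l 16773424) (l 16773600)) (a (l 16774360) (l 16773360)))) (a (b (l 16777368) (c (l 16773072) (l 16773664))) (c (l 16775888) (a (l 16771640) (l 16775904))))) (b (a (c (a (l 16771432) (l 16770488)) (a (l 16771864) (l 16770904))) (c (a (l 16774744) (l 16773696)) (a (l 16769880) (l 16774040)))) (a (c (l 16773584) (l 16774152)) (c (a (l 16772168) (l 16771168)) (a (l 16772712) (l 16771672))))))), by decide +kernel⟩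

def k34_B00pm_102_s1 : ∃ t, chk3 f_B00pm_102_s1 t 1010 1012 1 = true :=
  ⟨(a (c (c (c (l 16773568) (l 16773824)) (b (l 16773704) (l 16774760))) (c (b (l 16774192) (a (l 16778272) (l 16777752))) (c (l 16772592) (l 16772888)))) (c (c (b (b (a (a (l 16775112) (a (l 16774976) (b (l 16774792) (l 16774968)))) (b (l 16772160) (a (b (l 16774800) (l 16774880)) (l 16774760)))) (c (l 16775208) (l 16775392))) (c (l 16775832) (l 16776072))) (b (b (a (a (l 16775472) (l 16775280)) (a (b (l 16775064) (l 16772544)) (l 16772448))) (c (l 16775576) (l 16775768))) (c (l 16773696) (a (l 16776816) (l 16776320))))) (b (b (a (c (a (l 16775848) (l 16775624)) (b (l 16775968) (l 16776248))) (c (a (b (l 16775376) (l 16772872)) (l 16772760)) (b (l 16775704) (a (l 16775832) (l 16775696))))) (c (c (l 16775960) (l 16776160)) (c (l 16776368) (l 16773952)))) (c (a (l 16774600) (c (l 16776560) (l 16774176))) (a (c (l 16777648) (l 16777928)) (b (l 16774208) (l 16774904))))))), by decide +kernel⟩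

def k35_B00pm_102_s1 : ∃ t, chk3 f_B00pm_102_s1 t 1011 1012 1 = true :=
  ⟨(a (b (c (b (l 16775024) (a (a (a (b (c (l 16774768) (l 16775064)) (l 16775072)) (b (l 16774912) (c (l 16774832) (l 16775136)))) (b (l 16774944) (a (b (l 16774896) (l 16774936)) (l 16774904)))) (l 16774976))) (a (b (l 16775576) (a (b (c (l 16775368) (l 16773064)) (c (l 16775520) (l 16775864))) (b (l 16775536) (c (a (l 16772752) (l 16775344)) (l 16775680))))) (l 16775584))) (c (b (b (a (c (a (l 16775088) (l 16774904)) (l 16775336)) (a (a (b (l 16774896) (l 16774952)) (l 16774896)) (l 16774936))) (a (l 16775400) (a (c (l 16774920) (l 16775232)) (b (a (l 16774896) (l 16774912)) (a (l 16774968) (l 16774896)))))) (c (l 16775368) (l 16775752))) (b (a (a (c (l 16775952) (l 16776352)) (c (l 16775696) (l 16776048))) (a (b (c (l 16772744) (l 16775680)) (l 16775728)) (b (l 16775504) (c (c (l 16772672) (l 16772824)) (l 16775680))))) (c (l 16776152) (l 16776568))))) (c (b (c (l 16775024) (l 16775272))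 (b (l 16775008) (a (b (a (b (a (l 16774904) (l 16774904)) (c (l 16774816) (l 16775104))) (l 16774920)) (a (l 16772496) (a (c (l 16774832) (l 16775120)) (b (l 16774896) (l 16774920))))) (c (l 16774824) (l 16775088))))) (b (c (l 16775528) (l 16775792)) (b (l 16775552) (a (a (b (c (c (l 16772680) (l 16772832)) (l 16775688)) (l 16775760)) (b (l 16775488) (c (c (l 16772696) (l 16772848)) (l 16775696)))) (l 16775496)))))), by decide +kernel⟩

def k36_B00pm_102_s1 : ∃ t, chk3 f_B00pm_102_s1 t 505 1013 1 = true :=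
  ⟨(a (c (b (c (c (a (l 16777512) (l 16776712)) (a (l 16777888) (l 16777032))) (a (c (l 16778272) (l 16778664)) (a (l 16775144) (l 16777280)))) (a (c (l 16776008) (c (l 16779328) (l 16779808))) (c (l 16777800) (l 16778600)))) (c (a (b (c (l 16779064) (l 16779464)) (c (l 16775048) (l 16775536))) (b (a (c (l 16778288) (l 16778648)) (l 16777912)) (l 16779424))) (a (b (c (l 16774632) (l 16775048)) (a (l 16776592) (a (l 16776152) (l 16775840)))) (a (b (b (l 16778848) (l 16779552)) (l 16780600)) (l 16774016))))) (c (a (c (c (l 16776368) (l 16776656)) (c (l 16776936) (l 16771992))) (b (b (a (c (l 16775200) (l 16775552)) (a (a (c (l 16774968) (l 16775272)) (b (b (l 16774896) (l 16774944)) (l 16775112))) (a (b (l 16774904) (c (l 16774872) (l 16775160))) (b (l 16774928) (b (l 16774896) (l 16774960)))))) (c (l 16775456) (l 16775848))) (c (l 16776152) (l 16776656)))) (b (a (c (l 16777064) (l 16772360)) (b (a (c (l 16775912) (l 16776288)) (b (a (c (c (l 16772712) (l 16772856))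 (l 16775704)) (c (l 16775320) (l 16775608))) (c (l 16775552) (a (l 16775984) (l 16775720))))) (c (l 16776248) (l 16776664)))) (c (c (l 16772336) (l 16772640)) (c (l 16772944) (l 16773256)))))), by decide +kernel⟩

def k37_B00pm_102_s1 : ∃ t, chk3 f_B00pm_102_s1 t 252 507 1 = true :=
  ⟨(a (a (a (l 6) (b (c (c (l 16777304) (b (l 16772880) (l 16774016))) (c (c (l 16774520) (l 16775248)) (c (l 16775360) (l 16774616)))) (l 6))) (a (b (c (b (c (l 16781232) (l 16777256)) (c (l 16776936) (l 16778400))) (c (c (l 16773632) (l 16774352)) (b (l 16774664) (l 16779696)))) (b (c (c (l 16777888) (a (l 16774544) (l 16774088))) (c (a (l 16775344) (l 16775336)) (a (l 16773552) (l 16778824)))) (l 6))) (c (b (c (c (l 16780552) (l 16775944)) (c (l 16776592) (l 16777248))) (c (l 16777520) (c (l 16773488) (l 16774312)))) (b (c (b (a (l 16772624) (l 16777376)) (c (l 16773312) (l 16774040))) (b (a (l 16773936) (c (l 16773080) (l 16773728))) (a (l 16779704) (l 16774568)))) (c (l 16775144)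 (l 16773424)))))) (c (c (a (b (c (b (l 16776280) (l 16779800)) (c (l 16774512) (l 16774784))) (c (l 16775928) (l 16776608))) (b (c (c (l 16777672) (l 16775248)) (c (l 16772824) (l 16773016))) (c (b (l 16779128) (l 16780040)) (l 16774880)))) (a (b (a (c (l 16775672) (l 16776264)) (l 16774984)) (b (l 16777112) (a (l 16773464) (l 16777720)))) (b (c (c (l 16773216) (l 16773416)) (c (l 16773624) (l 16773824))) (c (l 16775424) (l 16775984))))) (c (b (a (a (b (a (l 16776840) (l 16781512)) (l 16772552)) (c (l 16770528) (l 16771064))) (c (a (l 16774680) (l 16773592)) (l 16774552))) (a (c (l 16773496) (l 16774224)) (c (a (l 16771848) (l 16776008)) (a (l 16772464) (l 16771296))))) (a (b (a (a (c (l 16773176) (l 16773832)) (l 16772856)) (c (l 16771608) (l 16772160))) (c (l 16774240) (l 16773488))) (b (a (c (l 16770360) (l 16770832)) (c (l 16774360) (l 16774752))) (c (a (l 16773088) (l 16771840)) (a (l 16773720) (l 16772392)))))))), by decide +kernel⟩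

def k38_B00pm_102_s1 : ∃ t, chk3 f_B00pm_102_s1 t 253 252 1 = true :=
  ⟨(b (a (a (a (c (a (l 535622159) (l 535605519)) (a (l 536143631) (l 536125455))) (c (a (l 535588879) (l 535572495)) (a (l 536107279) (l 536089359)))) (a (c (a (l 535555855) (l 535539215)) (a (l 536071183) (l 536053007))) (c (a (l 535522831) (l 535506191)) (a (l 536035087) (l 536016911))))) (a (a (c (a (l 535489807) (l 535473167)) (a (l 535998991) (l 535980815))) (a (a (c (l 535730191) (l 535968271)) (l 3)) (l 3))) (l 3))) (a (a (a (c (a (l 535592463) (l 535575823)) (a (l 536108559) (l 536090639))) (c (a (l 535559439) (l 535542799)) (a (l 536072463) (l 536054543)))) (a (c (a (l 535526415) (l 535510031)) (a (l 536036623) (l 536018703))) (c (a (l 535493647) (l 535477263)) (a (l 535732239) (c (l 535653135) (l 535776783)))))) (b (a (a (c (a (l 535471375) (l 535454991)) (a (l 535976463) (l 535958799))) (c (a (l 535438863) (l 535422479)) (a (l 535940879) (l 535923215)))) (a (c (a (l 535406351)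 (l 535389967)) (a (l 535905295) (l 535887631))) (l 3))) (a (a (c (a (l 535457295) (l 535440911)) (a (l 535959823) (l 535942159))) (c (a (l 535424783) (l 535408655)) (a (l 535924239) (l 535906575)))) (a (c (a (l 535392271) (l 535376143)) (a (l 535888911) (l 535871247))) (a (c (l 535360015) (l 535853583)) (c (l 535343887) (c (l 535509775) (l 535626255))))))))), by decide +kernel⟩

def k39_B00pm_102_s1 : ∃ t, chk3 f_B00pm_102_s1 t 2024 506 1 = true :=
  ⟨(a (b (c (l 535841807) (l 536085519)) (b (b (c (a (a (c (l 16774784) (l 16775048)) (l 16774944)) (l 16774976)) (c (l 16772720) (l 16773000))) (a (c (c (b (b (a (l 16774840) (l 16774776)) (l 16774896)) (l 16775064)) (l 16775280)) (c (l 16775584) (l 16775904))) (c (b (c (b (l 16774800) (l 16774776)) (l 16772416)) (a (l 16775056) (c (l 16774840) (l 16775112)))) (b (a (l 16775448) (l 16775448)) (c (l 16772832) (l 16775752)))))) (c (c (l 16775544) (l 16775928)) (c (l 16776328) (l 16776744))))) (c (b (l 535556879) (a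 (b (b (l 16775024) (b (l 16774952) (b (l 16774920) (a (c (l 16774800) (l 16775056)) (l 16774904))))) (a (c (l 16775288) (l 16775624)) (c (l 16775216) (l 16775536)))) (b (l 16775024) (b (b (a (b (l 16774904) (c (l 16774816) (l 16775072))) (l 16774912)) (c (l 16774936) (l 16775208))) (l 16775432))))) (b (l 536067599) (b (a (b (l 16775528) (b (l 16775472) (c (l 16772688) (l 16772968)))) (l 16775520)) (b (b (a (c (l 16775472) (l 16775768)) (a (b (l 16775424) (l 16775480)) (l 16775432))) (c (l 16775632) (l 16775952))) (c (l 16776080) (l 16776456))))))), by decide +kernel⟩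

def k40_B00pm_102_s1 : ∃ t, chk3 f_B00pm_102_s1 t 2025 506 1 = true :=
  ⟨(b (c (a (l 535540751) (l 535524367)) (a (l 536049679) (l 536032015))) (c (b (c (l 16775032) (l 16775256)) (a (a (b (a (b (l 16774944) (b (l 16774904) (l 16774968))) (c (l 16774808) (l 16775056))) (c (l 16775080) (l 16775368))) (b (l 16774976) (a (b (b (c (l 16774792) (l 16775040)) (l 16774992)) (l 16775168)) (b (c (l 16774800) (l 16775040)) (l 16775064))))) (b (l 16775048) (a (b (l 16774952) (b (a (c (l 16774808) (l 16775048)) (l 16774928)) (c (a (l 16774888) (l 16774816)) (l 16775112)))) (l 16774976))))) (b (c (l 16775480) (l 16775720)) (b (a (a (b (l 16775456) (c (a (l 16772712) (l 16775296)) (l 16775600))) (l 16775472)) (l 16775520)) (a (a (c (l 16775672) (l 16775992)) (b (c (a (l 16772728) (l 16775296)) (l 16775608)) (l 16775688))) (b (l 16775456) (a (c (a (l 16775368) (l 16775304)) (l 16775616)) (l 16775432)))))))), by decide +kernel⟩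

def k41_B00pm_102_s1 : ∃ t, chk3 f_B00pm_102_s1 t 1013 506 1 = true :=
  ⟨(a (c (a (c (l 535441423) (l 535554575)) (c (l 535425295) (l 535537935))) (a (c (l 535672847) (l 535795983)) (c (l 535655439) (l 535777807)))) (c (a (c (l 535409423) (l 535521039)) (c (l 535393551) (l 535504399))) (a (c (l 535637775) (l 535759631)) (c (l 535620367) (l 535741199))))), by decide +kernel⟩

def k42_B00pm_102_s1 : ∃ t, chk3 f_B00pm_102_s1 t 507 506 1 = true :=
  ⟨(a (a (c (a (c (l 535377679) (l 535487759)) (c (l 535361551) (l 535471119))) (a (c (l 535602959) (l 535723023)) (c (l 535585551) (l 535704847)))) (c (a (b (l 535410959) (l 535396879)) (b (l 535394575) (l 535381007))) (a (c (l 535568143) (l 535686671)) (c (l 535550735) (l 535668495))))) (b (a (c (a (l 535378447) (l 535362575)) (a (l 535872527) (l 535854863))) (a (c (l 535346447) (c (l 535511311) (l 535627535))) (b (c (l 535335183) (l 535556623)) (l 14)))) (a (a (c (l 535364879) (l 535587855)) (l 14)) (l 14)))), by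 decide +kernel⟩

def k43_B00pm_102_s1 : ∃ t, chk3 f_B00pm_102_s1 t 506 2028 1 = true :=
  ⟨(a (c (a (c (l 16773648) (l 16774144)) (b (a (c (l 16775424) (l 16775776)) (b (a (l 16775144) (b (a (c (l 16774824) (l 16775064)) (l 16774928)) (c (l 16774888) (l 16775136)))) (l 16775280))) (c (l 16775688) (l 16776080)))) (a (c (l 16774664) (c (l 16777680) (l 16777952))) (a (c (l 16776448) (l 16776864)) (b (b (a (l 16775712) (c (b (l 16772688) (l 16775392)) (l 16775632))) (c (l 16775736) (l 16776056))) (c (l 16776200) (l 16776576)))))) (c (a (b (a (a (b (l 16774944) (a (c (l 16774904) (l 16775152)) (b (l 16774928) (c (l 16774864) (l 16775104))))) (c (l 16774856) (l 16775080))) (l 16775056)) (b (b (a (a (l 16775144) (a (l 16774992) (a (l 16774936) (l 16774936)))) (l 16774992)) (a (c (l 16775040) (l 16775304)) (a (c (l 16774832) (l 16775056)) (l 16774992)))) (a (l 16775344) (a (a (a (l 16775096) (l 16775056)) (b (a (l 16774952) (l 16774936)) (l 16775032))) (b (l 16774968)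 (a (c (l 16774848) (l 16775072)) (l 16774960))))))) (a (l 535452175) (l 535436303))) (a (b (a (c (b (l 16775320) (a (b (a (l 16775336) (l 16775288)) (l 16775416)) (l 16775296))) (b (l 16775568) (a (l 16775648) (l 16775544)))) (l 16775496)) (b (a (c (c (l 16775472) (l 16775608)) (a (l 16775928) (l 16775664))) (a (c (l 16775296) (l 16775544)) (l 16775456))) (a (c (l 16775800) (l 16776120)) (a (c (b (a (l 16775384) (l 16775296)) (l 16775464)) (l 16775688)) (a (c (l 16775304) (l 16772920)) (l 16775424)))))) (c (l 16775464) (l 16775680))))), by decide +kernel⟩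

def k44_B00pm_102_s1 : ∃ t, chk3 f_B00pm_102_s1 t 506 2029 1 = true :=
  ⟨(c (a (c (c (l 16774040) (l 16774320)) (a (l 16777856) (l 16774272))) (b (a (a (c (l 16775552) (l 16775904)) (a (l 16775392) (c (b (b (a (l 16774928) (l 16774856)) (l 16774992)) (l 16775168)) (l 16775336)))) (a (b (a (b (l 16774968) (a (c (l 16774872) (l 16775096)) (l 16774960))) (l 16775016)) (b (a (c (l 16774928) (l 16775160)) (l 16774968)) (a (l 16775144) (a (a (l 16775016) (l 16774976)) (l 16774960))))) (l 16775072))) (a (c (l 16775824) (l 16776208)) (a (c (c (l 16775168) (l 16775304)) (l 16775512)) (b (b (c (l 16774896) (l 16775104)) (a (c (a (l 16774920) (l 16774872)) (a (l 16775144) (l 16775080))) (l 16775008))) (a (c (l 16775048) (l 16775280)) (a (b (c (l 16774880) (l 16775088)) (l 16775056)) (a (b (l 16774992) (l 16774992)) (l 16774984))))))))) (a (c (a (l 16773280) (l 16774784)) (c (l 16773176) (l 16773488))) (a (c (b (a (l 16776264) (b (l 16775584) (l 16775864))) (l 16776608))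 (a (l 16776992) (b (b (l 16775864) (l 16776184)) (l 16776712)))) (b (a (b (a (a (b (l 16775408) (l 16775448)) (l 16775416)) (l 16775448)) (a (c (b (l 16775400) (l 16775528)) (l 16775736)) (a (b (l 16775408) (l 16775464)) (c (l 16775304) (l 16775528))))) (l 16775488)) (a (c (l 16775800) (a (l 16776232) (l 16775936))) (b (b (c (l 16775320) (l 16775544)) (a (a (l 16775488) (c (l 16775304) (l 16775528))) (l 16775432))) (a (c (l 16775528) (l 16775792)) (b (c (l 16775304) (l 16775536)) (a (l 16775520) (c (l 16775312) (l 16775544))))))))))), by decide +kernel⟩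

def k45_B00pm_102_s1 : ∃ t, chk3 f_B00pm_102_s1 t 506 1015 1 = true :=
  ⟨(a (a (b (c (c (l 16778152) (l 16778944)) (c (l 16774528) (l 16775376))) (c (c (l 16779096) (l 16780040)) (c (l 16775776) (c (l 16771280) (l 16771792))))) (b (c (c (l 16777336) (l 16775360)) (c (l 16773408) (l 16774096))) (c (c (l 16778280) (l 16773832)) (c (l 16774656) (l 16775504))))) (a (c (c (c (l 16774240) (l 16774520)) (b (l 16774400) (l 16775496))) (c (c (c (l 16772696) (l 16772848)) (c (l 16773000) (l 16773152))) (c (c (l 16773304) (l 16773456)) (l 16773688)))) (b (c (c (c (l 16775648) (l 16775816)) (c (l 16775992) (l 16776168))) (c (c (l 16773728) (l 16773912)) (c (l 16774104) (a (l 16777232) (l 16776592))))) (a (c (c (l 16776872) (l 16777408)) (c (l 16777960) (l 16778536))) (l 14))))), by decide +kernel⟩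

def k46_B00pm_102_s1 : ∃ t, chk3 f_B00pm_102_s1 t 507 507 1 = true :=
  ⟨(b (a (a (c (a (l 535415311) (l 535399183)) (a (l 535641615) (l 535624207))) (a (a (c (l 535656463) (l 535879951)) (l 14)) (l 14))) (l 14)) (l 14)), by decide +kernel⟩

def k47_B00pm_102_s1 : ∃ t, chk3 f_B00pm_102_s1 t 127 126 1 = true :=
  ⟨(b (l 3) (l 14)), by decide +kernel⟩

def k48_B00pm_102_s1 : ∃ t, chk3 f_B00pm_102_s1 t 126 254 1 = true :=
  ⟨(a (b (b (a (a (l 6) (a (l 6) (c (c (c (l 16778960) (l 16774664)) (l 16776000)) (c (l 16779264) (l 16777224))))) (c (a (c (c (l 16777760) (c (l 16778384) (l 16773560))) (c (c (l 16773984) (l 16774408)) (l 16775056))) (c (c (l 16776176) (l 16776864)) (a (c (l 16778024) (l 16773528)) (b (l 16776872) (l 16777976))))) (c (a (c (l 16774664) (l 16773776)) (c (a (l 16774288) (l 16773192)) (a (l 16774024) (l 16773888)))) (a (c (l 16772880) (l 16771968)) (b (a (l 16773208) (l 16773488)) (l 16777872)))))) (a (l 6) (a (a (l 6) (c (c (c (l 16779224) (l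 16774920)) (l 16780360)) (c (l 16778384) (l 16776352)))) (b (c (c (l 16777960) (a (l 16774824) (l 16779088))) (c (l 16778856) (l 16777144))) (c (c (l 16778936) (l 16780096)) (c (l 16778280) (l 16776408))))))) (a (l 6) (a (l 6) (b (c (c (c (l 16779912) (b (l 16775136) (l 16775544))) (c (l 16779952) (l 16778952))) (c (b (l 16777704) (l 16777120)) (b (l 16775672) (l 16777560)))) (a (l 6) (l 14)))))) (b (a (a (c (b (c (a (b (l 16780048) (l 16781008)) (c (l 16779464) (l 16774720))) (c (a (l 16776160) (l 16775232)) (a (l 16776752) (l 16775752)))) (c (c (c (l 16776296) (l 16776632)) (l 16777144)) (c (b (l 16777304) (l 16778384)) (b (l 16777968) (l 16773880))))) (b (c (a (c (c (l 16771960) (l 16772264)) (l 16772720)) (b (l 16775912) (l 16777168))) (c (a (l 16773344) (b (l 16771416) (l 16772792))) (a (l 16773080) (l 16772656)))) (b (c (a (l 16773784) (l 16778432)) (l 16777680)) (c (l 16778504) (l 16776952))))) (a (b (b (c (c (l 16778424) (a (l 16779456) (l 16778984)))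 (c (l 16774800) (l 16775648))) (l 14)) (l 14)) (l 14))) (l 14)) (l 14))), by decide +kernel⟩

def k49_B00pm_102_s1 : ∃ t, chk3 f_B00pm_102_s1 t 126 255 1 = true :=
  ⟨(a (l 6) (l 14)), by decide +kernel⟩

def k50_B00pm_102_s1 : ∃ t, chk3 f_B00pm_102_s1 t 127 127 1 = true :=
  ⟨(l 14), by decide +kernel⟩

theorem t51_B00pm_102_s1 : ∃ t, chk3 f_B00pm_102_s1 t 126 127 1 = true := ex3_b k48_B00pm_102_s1 k49_B00pm_102_s1

theorem t52_B00pm_102_s1 : ∃ t, chk3 f_B00pm_102_s1 t 63 127 1 = true := ex3_a t51_B00pm_102_s1 k50_B00pm_102_s1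

theorem t53_B00pm_102_s1 : ∃ t, chk3 f_B00pm_102_s1 t 506 1014 1 = true := ex3_b k43_B00pm_102_s1 k44_B00pm_102_s1

theorem t54_B00pm_102_s1 : ∃ t, chk3 f_B00pm_102_s1 t 506 507 1 = true := ex3_b t53_B00pm_102_s1 k45_B00pm_102_s1

theorem t55_B00pm_102_s1 : ∃ t, chk3 f_B00pm_102_s1 t 253 507 1 = true := ex3_a t54_B00pm_102_s1 k46_B00pm_102_s1

theorem t56_B00pm_102_s1 : ∃ t, chk3 f_B00pm_102_s1 t 1012 506 1 = true := ex3_a k39_B00pm_102_s1 k40_B00pm_102_s1

theorem t57_B00pm_102_s1 : ∃ t, chk3 f_B00pm_102_s1 t 506 506 1 = true := ex3_a t56_B00pm_102_s1 k41_B00pm_102_s1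

theorem t58_B00pm_102_s1 : ∃ t, chk3 f_B00pm_102_s1 t 253 506 1 = true := ex3_a t57_B00pm_102_s1 k42_B00pm_102_s1

theorem t59_B00pm_102_s1 : ∃ t, chk3 f_B00pm_102_s1 t 253 253 1 = true := ex3_b t58_B00pm_102_s1 t55_B00pm_102_s1

theorem t60_B00pm_102_s1 : ∃ t, chk3 f_B00pm_102_s1 t 253 126 1 = true := ex3_b k38_B00pm_102_s1 t59_B00pm_102_s1

theorem t61_B00pm_102_s1 : ∃ t, chk3 f_B00pm_102_s1 t 505 1012 1 = true := ex3_a k34_B00pm_102_s1 k35_B00pm_102_s1

theorem t62_B00pm_102_s1 : ∃ t, chk3 f_B00pm_102_s1 t 505 506 1 = true := ex3_b t61_B00pm_102_s1 k36_B00pm_102_s1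

theorem t63_B00pm_102_s1 : ∃ t, chk3 f_B00pm_102_s1 t 252 506 1 = true := ex3_a k33_B00pm_102_s1 t62_B00pm_102_s1

theorem t64_B00pm_102_s1 : ∃ t, chk3 f_B00pm_102_s1 t 252 253 1 = true := ex3_b t63_B00pm_102_s1 k37_B00pm_102_s1

theorem t65_B00pm_102_s1 : ∃ t, chk3 f_B00pm_102_s1 t 504 505 1 = true := ex3_b k30_B00pm_102_s1 k31_B00pm_102_s1

theorem t66_B00pm_102_s1 : ∃ t, chk3 f_B00pm_102_s1 t 504 252 1 = true := ex3_b k29_B00pm_102_s1 t65_B00pm_102_s1

theorem t67_B00pm_102_s1 : ∃ t, chk3 f_B00pm_102_s1 t 252 252 1 = true := ex3_a t66_B00pm_102_s1 k32_B00pm_102_s1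

theorem t68_B00pm_102_s1 : ∃ t, chk3 f_B00pm_102_s1 t 252 126 1 = true := ex3_b t67_B00pm_102_s1 t64_B00pm_102_s1

theorem t69_B00pm_102_s1 : ∃ t, chk3 f_B00pm_102_s1 t 126 126 1 = true := ex3_a t68_B00pm_102_s1 t60_B00pm_102_s1

theorem t70_B00pm_102_s1 : ∃ t, chk3 f_B00pm_102_s1 t 63 126 1 = true := ex3_a t69_B00pm_102_s1 k47_B00pm_102_s1

theorem t71_B00pm_102_s1 : ∃ t, chk3 f_B00pm_102_s1 t 63 63 1 = true := ex3_b t70_B00pm_102_s1 t52_B00pm_102_s1

theorem t72_B00pm_102_s1 : ∃ t, chk3 f_B00pm_102_s1 t 503 504 1 = true := ex3_a k24_B00pm_102_s1 k25_B00pm_102_s1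

theorem t73_B00pm_102_s1 : ∃ t, chk3 f_B00pm_102_s1 t 503 252 1 = true := ex3_b t72_B00pm_102_s1 k26_B00pm_102_s1

theorem t74_B00pm_102_s1 : ∃ t, chk3 f_B00pm_102_s1 t 251 252 1 = true := ex3_a k23_B00pm_102_s1 t73_B00pm_102_s1

theorem t75_B00pm_102_s1 : ∃ t, chk3 f_B00pm_102_s1 t 125 252 1 = true := ex3_a k22_B00pm_102_s1 t74_B00pm_102_s1

theorem t76_B00pm_102_s1 : ∃ t, chk3 f_B00pm_102_s1 t 125 126 1 = true := ex3_b t75_B00pm_102_s1 k27_B00pm_102_s1

theorem t77_B00pm_102_s1 : ∃ t, chk3 f_B00pm_102_s1 t 62 126 1 = true := ex3_a k21_B00pm_102_s1 t76_B00pm_102_s1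

theorem t78_B00pm_102_s1 : ∃ t, chk3 f_B00pm_102_s1 t 62 63 1 = true := ex3_b t77_B00pm_102_s1 k28_B00pm_102_s1

theorem t79_B00pm_102_s1 : ∃ t, chk3 f_B00pm_102_s1 t 31 63 1 = true := ex3_a t78_B00pm_102_s1 t71_B00pm_102_s1

theorem t80_B00pm_102_s1 : ∃ t, chk3 f_B00pm_102_s1 t 251 503 1 = true := ex3_a k18_B00pm_102_s1 k19_B00pm_102_s1

theorem t81_B00pm_102_s1 : ∃ t, chk3 f_B00pm_102_s1 t 251 251 1 = true := ex3_b k17_B00pm_102_s1 t80_B00pm_102_s1

theorem t82_B00pm_102_s1 : ∃ t, chk3 f_B00pm_102_s1 t 501 251 1 = true := ex3_a k15_B00pm_102_s1 k16_B00pm_102_s1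

theorem t83_B00pm_102_s1 : ∃ t, chk3 f_B00pm_102_s1 t 250 251 1 = true := ex3_a k14_B00pm_102_s1 t82_B00pm_102_s1

theorem t84_B00pm_102_s1 : ∃ t, chk3 f_B00pm_102_s1 t 125 251 1 = true := ex3_a t83_B00pm_102_s1 t81_B00pm_102_s1

theorem t85_B00pm_102_s1 : ∃ t, chk3 f_B00pm_102_s1 t 125 125 1 = true := ex3_b k13_B00pm_102_s1 t84_B00pm_102_s1

theorem t86_B00pm_102_s1 : ∃ t, chk3 f_B00pm_102_s1 t 125 62 1 = true := ex3_b k12_B00pm_102_s1 t85_B00pm_102_s1

theorem t87_B00pm_102_s1 : ∃ t, chk3 f_B00pm_102_s1 t 62 62 1 = true := ex3_a k11_B00pm_102_s1 t86_B00pm_102_s1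

theorem t88_B00pm_102_s1 : ∃ t, chk3 f_B00pm_102_s1 t 31 62 1 = true := ex3_a t87_B00pm_102_s1 k20_B00pm_102_s1

theorem t89_B00pm_102_s1 : ∃ t, chk3 f_B00pm_102_s1 t 31 31 1 = true := ex3_b t88_B00pm_102_s1 t79_B00pm_102_s1

theorem t90_B00pm_102_s1 : ∃ t, chk3 f_B00pm_102_s1 t 15 31 1 = true := ex3_a k10_B00pm_102_s1 t89_B00pm_102_s1

theorem t91_B00pm_102_s1 : ∃ t, chk3 f_B00pm_102_s1 t 61 30 1 = true := ex3_b k7_B00pm_102_s1 k8_B00pm_102_s1

theorem t92_B00pm_102_s1 : ∃ t, chk3 f_B00pm_102_s1 t 30 30 1 = true := ex3_a k6_B00pm_102_s1 t91_B00pm_102_s1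

theorem t93_B00pm_102_s1 : ∃ t, chk3 f_B00pm_102_s1 t 15 30 1 = true := ex3_a t92_B00pm_102_s1 k9_B00pm_102_s1

theorem t94_B00pm_102_s1 : ∃ t, chk3 f_B00pm_102_s1 t 15 15 1 = true := ex3_b t93_B00pm_102_s1 t90_B00pm_102_s1

theorem t95_B00pm_102_s1 : ∃ t, chk3 f_B00pm_102_s1 t 15 7 1 = true := ex3_b k5_B00pm_102_s1 t94_B00pm_102_s1

theorem t96_B00pm_102_s1 : ∃ t, chk3 f_B00pm_102_s1 t 7 7 1 = true := ex3_a k4_B00pm_102_s1 t95_B00pm_102_s1

theorem t97_B00pm_102_s1 : ∃ t, chk3 f_B00pm_102_s1 t 7 3 1 = true := ex3_b k3_B00pm_102_s1 t96_B00pm_102_s1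

theorem t98_B00pm_102_s1 : ∃ t, chk3 f_B00pm_102_s1 t 3 3 1 = true := ex3_a k2_B00pm_102_s1 t97_B00pm_102_s1

theorem t99_B00pm_102_s1 : ∃ t, chk3 f_B00pm_102_s1 t 3 1 1 = true := ex3_b k1_B00pm_102_s1 t98_B00pm_102_s1

theorem t100_B00pm_102_s1 : ∃ t, chk3 f_B00pm_102_s1 t 1 1 1 = true := ex3_a k0_B00pm_102_s1 t99_B00pm_102_s1

theorem c_B00pm_102_s1 : CertF 536870912 536870912 0 536870912 991146299 28908434 false true false .npp 1 0 2
    ndB0q1 ndB0q2 pcB0 cut_B00pm_102_s1 xt_B00pm_102_s1 :=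
  certF0 (fam := false) (s1 := true) (s2 := false) (a := 1) (b := 0) (c := 2) (cn := .npp) (n1 := ndB0q1) (n2 := ndB0q2) (pc := pcB0) (cut := cut_B00pm_102_s1) (xt := xt_B00pm_102_s1) (P1 := 536870912) (W1 := 536870912) (P2 := 0) (W2 := 536870912) (P3 := 991146299) (W3 := 28908434)
    rfl t100_B00pm_102_s1

theorem s_B00pm_102_s1 {κ x : ℝ} (hκ : κ * h0 = ken x) (hx : ((991146299 : ℕ) : ℝ) / S ≤ x)
    (hx' : x ≤ (((991146299 : ℕ) : ℝ) + (28908434 : ℕ)) / S)
    (H : CutB (VFD κ) PP tK tL pcB (Cut.of [[⟨0, 1, 0, 16777216⟩, ⟨1, 0, 0, 16777216⟩, ⟨2, 1, 0, 16777216⟩], [⟨0, 0, 1, 46137344⟩, ⟨1, 1, 2, 46137344⟩, ⟨2, 1, 0, 2097152⟩, ⟨0, 0, 0, 1027248803⟩, ⟨0, 1, 0, 87939455⟩, ⟨1, 0, 0, 87939455⟩, ⟨1, 1, 0, 1027248803⟩]]) 1 0 2 0 0 (sgb true) (sgb false) x) :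
    AltB (VFD κ) PP tK tL pcB [⟨3, 0, 0, 1100585369⟩] 1 0 2 0 0 (sgb true) (sgb false) x :=
  strip_altBD (m := 1100585369) true rfl hκ (SH.κ0 hκ (SH.hx1 hx).le (SH.hx2 hx').le) (SH.hx1 hx).le (SH.hx2 hx') (covB01).cov (covB02).cov hx hx' c_B00pm_102_s1 H ((okx hx hx').extB (T := tt) (sideB hx hx') hκ rfl rfl (.O 1 true) (.O 2 false) (Or.inl rfl))

noncomputable def cut_B00pm_102_s3 : Cut := Cut.of [[⟨3, 0, 0, 2845415833⟩], [⟨0, 1, 0, 16777216⟩, ⟨1, 0, 0, 16777216⟩, ⟨2, 1, 0, 16777216⟩], [⟨0, 0, 1, 46137344⟩, ⟨1, 1, 2, 46137344⟩, ⟨2, 1, 0, 2097152⟩, ⟨0, 0, 0, 1027248803⟩, ⟨0, 1, 0, 87939455⟩, ⟨1, 0, 0, 87939455⟩, ⟨1, 1, 0, 1027248803⟩]]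

noncomputable def f_B00pm_102_s3 : ℕ → ℕ → ℕ → ℕ → Bool := onCell 536870912 536870912 0 536870912 991146299 28908434
    (rowF 0 false true false .npp 1 0 2 (qsf 536870912 536870912 0 536870912 0) ndB0q1 ndB0q2 pcB0 cut_B00pm_102_s3 Ext.none)

def k0_B00pm_102_s3 : ∃ t, chk3 f_B00pm_102_s3 t 1 1 1 = true :=
  ⟨(l 6), by decide +kernel⟩

theorem c_B00pm_102_s3 : CertF 536870912 536870912 0 536870912 991146299 28908434 false true false .npp 1 0 2
    ndB0q1 ndB0q2 pcB0 cut_B00pm_102_s3 Ext.none :=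
  certF0 (fam := false) (s1 := true) (s2 := false) (a := 1) (b := 0) (c := 2) (cn := .npp) (n1 := ndB0q1) (n2 := ndB0q2) (pc := pcB0) (cut := cut_B00pm_102_s3) (xt := Ext.none) (P1 := 536870912) (W1 := 536870912) (P2 := 0) (W2 := 536870912) (P3 := 991146299) (W3 := 28908434)
    rfl k0_B00pm_102_s3

theorem s_B00pm_102_s3 {κ x : ℝ} (hκ : κ * h0 = ken x) (hx : ((991146299 : ℕ) : ℝ) / S ≤ x)
    (hx' : x ≤ (((991146299 : ℕ) : ℝ) + (28908434 : ℕ)) / S)
    (H : CutB (VFD κ) PP tK tL pcB (Cut.of [[⟨0, 1, 0, 16777216⟩, ⟨1, 0, 0, 16777216⟩, ⟨2, 1, 0, 16777216⟩], [⟨0, 0, 1, 46137344⟩, ⟨1, 1, 2, 46137344⟩, ⟨2, 1, 0, 2097152⟩, ⟨0, 0, 0, 1027248803⟩, ⟨0, 1, 0, 87939455⟩, ⟨1, 0, 0, 87939455⟩, ⟨1, 1, 0, 1027248803⟩]]) 1 0 2 0 0 (sgb true) (sgb false) x) :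
    AltB (VFD κ) PP tK tL pcB [⟨4, 0, 0, 2845415833⟩] 1 0 2 0 0 (sgb true) (sgb false) x :=
  strip_altBD (m := 2845415833) false rfl hκ (SH.κ0 hκ (SH.hx1 hx).le (SH.hx2 hx').le) (SH.hx1 hx).le (SH.hx2 hx') (covB01).cov (covB02).cov hx hx' c_B00pm_102_s3 H (noExt_B)

end Pool.Agent.Strip051.G.I9231_9500.Tab.St.C
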