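import Pool.Agent.Strip051.G.I9231_9500.StH
import Pool.Agent.Strip051.G.I9231_9500.StF

/-! # Unit strips 14 (generated) -/

set_option linter.all false
set_option maxRecDepth 100000

namespace Pool.Agent.Strip051.G.I9231_9500.Tab.St.C

open Pool.Agent.Strip051.PB Pool.Agent.Strip051.PB.T Pool.Agent.StripNear Pool.Agent.Strip051.LC
open Pool.Agent.Strip051.G.I9231_9500.Tab Pool.Agent.Strip051.G.I9231_9500.Tab.St

noncomputable def cut_B00pm_112_s1 : Cut := Cut.of [[⟨4, 0, 0, 1449551462⟩]]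

noncomputable def xt_B00pm_112_s1 : Ext := strExt dd false true false .u0 .u2 .u0m .dn 1 1 2 rfl rfl gf1 vv ndB0q1 ndB0q2

noncomputable def f_B00pm_112_s1 : ℕ → ℕ → ℕ → ℕ → Bool := onCell 536870912 536870912 0 536870912 991146299 28908434
    (rowF 0 false true false .dn 1 1 2 (qsf 536870912 536870912 0 536870912 1) ndB0q1 ndB0q2 pcB1 cut_B00pm_112_s1 xt_B00pm_112_s1)

def k0_B00pm_112_s1 : ∃ t, chk3 f_B00pm_112_s1 t 4 4 1 = true :=
  ⟨(a (b (a (a (l 530319375) (c (l 530013967) (l 530748943))) (a (c (l 529509391) (l 530285839)) (c (l 528995855) (l 529819407)))) (a (b (a (b (l 530806031) (a (b (b (l 16504568) (l 16416784)) (l 16423048)) (b (l 16503720) (a (b (l 16492016) (l 16493184)) (l 16490160))))) (l 530032911)) (a (a (l 16461504) (b (l 16425704) (l 16541072))) (b (a (b (a (b (l 16481296) (l 16486864)) (b (l 16479480) (l 16476448))) (l 16495152)) (b (l 16395320) (a (l 16392672) (b (l 16467592) (l 16468160)))))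 (a (l 16521464) (l 16499528))))) (b (a (l 529552143) (l 528531727)) (a (b (a (b (l 16484560) (c (l 16409032) (l 16442192))) (l 529602575)) (a (b (a (l 16470392) (b (c (l 16355880) (l 16473704)) (l 16462320))) (l 16485312)) (b (b (l 16457688) (a (c (l 16350984) (l 16468968)) (l 16449880))) (a (l 16465728) (c (l 16393848) (l 16427544)))))) (b (l 528705039) (a (b (l 16460128) (a (b (l 16438816) (c (l 16342896) (l 16461024))) (c (l 16384160) (l 16418488)))) (l 529037583))))))) (c (b (a (a (l 528477967) (l 527960335)) (a (l 527411727) (l 526603279))) (a (b (a (l 528422671) (l 527921423)) (a (l 528298511) (l 527273487))) (b (a (l 527414543) (l 526909967)) (a (b (l 527364879) (l 527309071)) (b (l 526883599) (l 526845967)))))) (b (a (a (l 529352975) (l 528891663)) (a (l 528381199) (l 527536911))) (a (b (a (l 529280783) (l 528829711)) (a (l 529141007) (l 528161551))) (b (a (l 528383247) (l 527844367)) (a (b (l 528312847)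 (l 528236559)) (b (l 527823375) (l 527793167)))))))), by decide +kernel⟩

def k1_B00pm_112_s1 : ∃ t, chk3 f_B00pm_112_s1 t 8 5 1 = true :=
  ⟨(b (a (b (a (l 16501992) (b (l 16458456) (l 16568504))) (l 6)) (b (a (b (a (l 16513480) (l 16491416)) (l 16452192)) (a (b (a (l 16472984) (c (l 16443248) (l 16475616))) (l 16507432)) (b (b (b (a (c (l 16415920) (l 16408816)) (l 16434008)) (a (l 16438744) (c (l 16406008) (b (l 16445136) (l 16445328))))) (l 16367168)) (l 16485544)))) (a (l 16407288) (b (l 16447576) (l 16559296))))) (l 6)), by decide +kernel⟩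

def k2_B00pm_112_s1 : ∃ t, chk3 f_B00pm_112_s1 t 18 10 1 = true :=
  ⟨(b (a (a (b (b (c (l 16418496) (l 16452776)) (b (a (b (a (l 16381024) (l 16421184)) (l 16393616)) (c (l 16404496) (l 16439704))) (a (l 16435536) (a (l 16423696) (c (l 16400368) (l 16435600)))))) (b (l 16364392) (l 16472576))) (b (b (l 528497423) (a (b (l 16426392) (c (l 16399136) (b (l 16435368) (l 16390200)))) (l 16384120))) (b (b (a (c (l 16401344) (l 16436112)) (b (l 16391200) (c (l 16371264) (l 16427808)))) (c (l 16365816) (l 16399616))) (l 16362384)))) (b (c (l 527692559) (l 528558351)) (a (b (b (l 528177935) (a (b (c (l 16388912) (l 16424656)) (a (l 16408616) (c (l 16385672) (l 16421512)))) (l 16366464))) (a (l 16340104) (b (a (c (l 16366184) (l 16422504)) (b (l 16359320) (c (l 16382440) (l 16418184)))) (l 16331832)))) (b (l 527406351) (b (a (c (l 16385080) (l 16420768)) (l 16366968)) (a (a (c (l 16385552) (l 16420632)) (b (c (l 16378224)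 (l 16414256)) (l 16367328))) (a (b (l 16398128) (c (l 16376216) (l 16412240))) (l 16356376)))))))) (a (b (a (l 16503456) (l 16482104)) (l 16444632)) (b (a (b (l 16361152) (l 16470112)) (b (a (l 16339168) (b (b (a (l 16314672) (c (l 16374528) (l 16410496))) (l 16318928)) (l 16415120))) (l 16360720))) (a (l 16501608) (l 16481160))))), by decide +kernel⟩

def k3_B00pm_112_s1 : ∃ t, chk3 f_B00pm_112_s1 t 19 20 1 = true :=
  ⟨(a (c (b (l 527233551) (l 526875919)) (b (l 528143375) (l 527765007))) (c (b (l 526792463) (a (l 526825999) (l 526621455))) (b (l 527749903) (a (l 527746575) (l 527565583))))), by decide +kernel⟩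

def k4_B00pm_112_s1 : ∃ t, chk3 f_B00pm_112_s1 t 38 21 1 = true :=
  ⟨(b (a (b (b (a (a (b (l 16350664) (c (l 16373208) (l 16409080))) (c (l 16374992) (l 16410928))) (l 527311375)) (a (a (l 16318880) (c (l 16355608) (l 16369760))) (b (a (c (l 16369680) (l 16405816)) (l 16348352)) (a (c (l 16371808) (l 16407360)) (c (l 16346824) (l 16403896)))))) (a (l 16339120) (c (l 16390432) (l 16423312)))) (a (b (l 526926351) (b (b (a (c (b (l 16365376) (l 16365784)) (l 16391776)) (l 16343056)) (a (l 16306184) (c (b (l 16363656) (l 16365312)) (b (l 16399808) (l 16401088))))) (l 16357192))) (b (l 526826511) (c (b (l 16369584) (a (c (l 16343712) (l 16356744)) (b (l 16362296) (l 16363944)))) (b (l 16405344) (b (a (l 16379032) (l 16398400)) (l 16382416))))))) (a (b (l 16361072) (l 16470336)) (c (l 16343920) (l 16382768)))), by decide +kernel⟩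

def k5_B00pm_112_s1 : ∃ t, chk3 f_B00pm_112_s1 t 39 21 1 = true :=
  ⟨(b (b (c (l 526120463) (l 527300367)) (a (a (b (l 526418191) (a (b (l 16341624) (c (b (l 16360440) (l 16359416)) (l 16386120))) (l 526633487))) (b (l 526323727) (l 526294799))) (c (l 526513679) (l 16426416)))) (b (a (b (a (a (c (l 16369160) (l 16403648)) (b (c (b (l 16358440) (l 16358480)) (b (l 16394568) (l 16394376))) (l 16340720))) (b (l 526541071) (a (c (b (l 16356840) (l 16358112)) (b (l 16392888) (l 16393784))) (c (l 16358064) (l 16394024))))) (a (l 16358840) (a (l 16346056) (b (b (c (l 16334728) (l 16391600)) (c (l 16358400) (l 16393776))) (l 16300016))))) (a (b (l 526174735) (b (a (c (l 16335240) (l 16392128)) (l 16336120)) (c (a (b (l 16334128) (l 16359336)) (b (l 16354720) (l 16332376))) (a (l 16371696) (b (l 16390632) (l 16389208)))))) (c (l 16370160) (l 16405032)))) (a (a (l 16425576) (l 16347672)) (b (a (a (l 16347432) (c (l 16320992)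 (l 16355160))) (b (a (c (b (l 16352872) (a (l 16352992) (l 16351160))) (b (l 16388752) (l 16367224))) (l 16331592)) (a (c (l 16358568) (l 16393192)) (c (b (l 16330440) (l 16331320)) (b (l 16387184) (l 16387696)))))) (c (l 16295136) (l 16410592)))))), by decide +kernel⟩

def k6_B00pm_112_s1 : ∃ t, chk3 f_B00pm_112_s1 t 9 11 1 = true :=
  ⟨(a (b (a (l 16400448) (b (l 16443288) (l 16554560))) (l 6)) (b (b (c (a (l 16481936) (a (l 16365664) (l 16339864))) (a (l 16503016) (a (l 16472168) (l 16364640)))) (a (l 16527208) (a (l 16503800) (l 16486232)))) (a (l 16396264) (b (l 16528296) (l 16552424))))), by decide +kernel⟩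

def k7_B00pm_112_s1 : ∃ t, chk3 f_B00pm_112_s1 t 5 2 1 = true :=
  ⟨(a (a (b (b (a (b (l 3) (a (l 526978575) (l 525660943))) (l 3)) (b (a (c (l 525905167) (l 526806287)) (c (l 525754639) (l 526623759))) (a (c (b (l 526438415) (l 526417935)) (b (l 527345423) (l 527333903))) (a (b (c (l 526136591) (l 527019791)) (c (l 526128655) (l 527022351))) (b (c (l 525952783) (l 526820367)) (l 1)))))) (a (b (b (c (b (a (l 526481935) (l 526288143)) (a (l 526426639) (l 526242831))) (b (l 526908943) (a (l 527374351) (l 527177999)))) (b (c (a (l 526353679) (l 526180879)) (a (l 527284751) (l 527127823))) (a (b (c (l 526286095) (l 16397344)) (b (a (c (l 16359104) (l 16394352)) (c (l 16368824) (l 16403240))) (a (b (c (a (b (a (l 16350240) (l 16349504)) (l 16352696)) (l 16330576)) (a (b (l 16365040) (l 16387760)) (l 16387104))) (a (l 16336384) (b (c (a (l 16350712) (l 16348384)) (l 16364320)) (l 16329728)))) (a (b (l 16331968) (b (l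 16326832) (a (c (l 16348088) (l 16383576)) (l 16329984)))) (l 525814543))))) (c (l 526098959) (l 527009807))))) (b (b (a (a (c (l 16317656) (l 16344792)) (b (b (c (b (a (b (l 16329112) (l 16355232)) (b (l 16348808) (a (l 16348112) (l 16346968)))) (l 16316608)) (b (a (l 16345320) (b (l 16384240) (l 16362344))) (l 16392024))) (l 16327968)) (l 16333768))) (a (a (b (b (b (l 16327944) (c (b (l 16326544) (l 179884409527)) (b (l 16382808) (l 16361944)))) (l 186326836423)) (l 1)) (l 1)) (l 1))) (a (l 16382656) (l 1))) (b (l 167536514055) (l 1)))) (a (b (b (c (b (l 526107151) (l 526071823)) (b (l 527015439) (l 526994959))) (b (l 1) (l 1))) (l 1)) (l 1)))) (b (b (l 1) (l 1)) (l 1))) (l 1)), by decide +kernel⟩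

def k8_B00pm_112_s1 : ∃ t, chk3 f_B00pm_112_s1 t 2 3 1 = true :=
  ⟨(b (a (l 6) (l 1)) (a (l 6) (l 1))), by decide +kernel⟩

def k9_B00pm_112_s1 : ∃ t, chk3 f_B00pm_112_s1 t 3 1 1 = true :=
  ⟨(l 1), by decide +kernel⟩

theorem t10_B00pm_112_s1 : ∃ t, chk3 f_B00pm_112_s1 t 19 21 1 = true := ex3_a k4_B00pm_112_s1 k5_B00pm_112_s1

theorem t11_B00pm_112_s1 : ∃ t, chk3 f_B00pm_112_s1 t 19 10 1 = true := ex3_b k3_B00pm_112_s1 t10_B00pm_112_s1

theorem t12_B00pm_112_s1 : ∃ t, chk3 f_B00pm_112_s1 t 9 10 1 = true := ex3_a k2_B00pm_112_s1 t11_B00pm_112_s1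

theorem t13_B00pm_112_s1 : ∃ t, chk3 f_B00pm_112_s1 t 9 5 1 = true := ex3_b t12_B00pm_112_s1 k6_B00pm_112_s1

theorem t14_B00pm_112_s1 : ∃ t, chk3 f_B00pm_112_s1 t 4 5 1 = true := ex3_a k1_B00pm_112_s1 t13_B00pm_112_s1

theorem t15_B00pm_112_s1 : ∃ t, chk3 f_B00pm_112_s1 t 4 2 1 = true := ex3_b k0_B00pm_112_s1 t14_B00pm_112_s1

theorem t16_B00pm_112_s1 : ∃ t, chk3 f_B00pm_112_s1 t 2 2 1 = true := ex3_a t15_B00pm_112_s1 k7_B00pm_112_s1

theorem t17_B00pm_112_s1 : ∃ t, chk3 f_B00pm_112_s1 t 2 1 1 = true := ex3_b t16_B00pm_112_s1 k8_B00pm_112_s1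

theorem t18_B00pm_112_s1 : ∃ t, chk3 f_B00pm_112_s1 t 1 1 1 = true := ex3_a t17_B00pm_112_s1 k9_B00pm_112_s1

theorem c_B00pm_112_s1 : CertF 536870912 536870912 0 536870912 991146299 28908434 false true false .dn 1 1 2
    ndB0q1 ndB0q2 pcB1 cut_B00pm_112_s1 xt_B00pm_112_s1 :=
  certF0 (fam := false) (s1 := true) (s2 := false) (a := 1) (b := 1) (c := 2) (cn := .dn) (n1 := ndB0q1) (n2 := ndB0q2) (pc := pcB1) (cut := cut_B00pm_112_s1) (xt := xt_B00pm_112_s1) (P1 := 536870912) (W1 := 536870912) (P2 := 0) (W2 := 536870912) (P3 := 991146299) (W3 := 28908434)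
    rfl t18_B00pm_112_s1

theorem s_B00pm_112_s1 {κ x : ℝ} (hκ : κ * h0 = ken x) (hx : ((991146299 : ℕ) : ℝ) / S ≤ x)
    (hx' : x ≤ (((991146299 : ℕ) : ℝ) + (28908434 : ℕ)) / S) :
    AltB (VFD κ) PP tK tL pcB [⟨3, 0, 0, 1449551462⟩] 1 1 2 0 0 (sgb true) (sgb false) x :=
  strip_altBD (m := 1449551462) true rfl hκ (SH.κ0 hκ (SH.hx1 hx).le (SH.hx2 hx').le) (SH.hx1 hx).le (SH.hx2 hx') (covB01).cov (covB02).cov hx hx' c_B00pm_112_s1 cutB_nil ((okx hx hx').extB (T := tt) (sideB hx hx') hκ rfl rfl (.O 1 true) (.O 2 false) (Or.inr rfl))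

noncomputable def cut_B00pm_112_s3 : Cut := Cut.of [[⟨3, 0, 0, 2845415833⟩]]

noncomputable def f_B00pm_112_s3 : ℕ → ℕ → ℕ → ℕ → Bool := onCell 536870912 536870912 0 536870912 991146299 28908434
    (rowF 0 false true false .dn 1 1 2 (qsf 536870912 536870912 0 536870912 1) ndB0q1 ndB0q2 pcB1 cut_B00pm_112_s3 Ext.none)

def k0_B00pm_112_s3 : ∃ t, chk3 f_B00pm_112_s3 t 1 1 1 = true :=
  ⟨(l 6), by decide +kernel⟩

theorem c_B00pm_112_s3 : CertF 536870912 536870912 0 536870912 991146299 28908434 false true false .dn 1 1 2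
    ndB0q1 ndB0q2 pcB1 cut_B00pm_112_s3 Ext.none :=
  certF0 (fam := false) (s1 := true) (s2 := false) (a := 1) (b := 1) (c := 2) (cn := .dn) (n1 := ndB0q1) (n2 := ndB0q2) (pc := pcB1) (cut := cut_B00pm_112_s3) (xt := Ext.none) (P1 := 536870912) (W1 := 536870912) (P2 := 0) (W2 := 536870912) (P3 := 991146299) (W3 := 28908434)
    rfl k0_B00pm_112_s3

theorem s_B00pm_112_s3 {κ x : ℝ} (hκ : κ * h0 = ken x) (hx : ((991146299 : ℕ) : ℝ) / S ≤ x)
    (hx' : x ≤ (((991146299 : ℕ) : ℝ) + (28908434 : ℕ)) / S) :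
    AltB (VFD κ) PP tK tL pcB [⟨4, 0, 0, 2845415833⟩] 1 1 2 0 0 (sgb true) (sgb false) x :=
  strip_altBD (m := 2845415833) false rfl hκ (SH.κ0 hκ (SH.hx1 hx).le (SH.hx2 hx').le) (SH.hx1 hx).le (SH.hx2 hx') (covB01).cov (covB02).cov hx hx' c_B00pm_112_s3 cutB_nil (noExt_B)

noncomputable def cut_B00pm_202_s1 : Cut := Cut.of [[⟨4, 0, 0, 1449551462⟩], [⟨0, 1, 0, 53687091⟩, ⟨1, 0, 0, 53687091⟩, ⟨2, 1, 0, 53687091⟩]]

noncomputable def f_B00pm_202_s1 : ℕ → ℕ → ℕ → ℕ → Bool := onCell 0 536870912 0 536870912 991146299 28908434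
    (rowF 0 false true false .pp 2 0 2 (qsf 0 536870912 0 536870912 0) ndB0q2 ndB0q2 pcB0 cut_B00pm_202_s1 Ext.none)

def k0_B00pm_202_s1 : ∃ t, chk3 f_B00pm_202_s1 t 1 1 1 = true :=
  ⟨(a (l 3) (b (l 3) (a (l 3) (b (l 3) (a (l 3) (b (l 3) (l 14))))))), by decide +kernel⟩

theorem c_B00pm_202_s1 : CertF 0 536870912 0 536870912 991146299 28908434 false true false .pp 2 0 2
    ndB0q2 ndB0q2 pcB0 cut_B00pm_202_s1 Ext.none :=
  certF0 (fam := false) (s1 := true) (s2 := false) (a := 2) (b := 0) (c := 2) (cn := .pp) (n1 := ndB0q2) (n2 := ndB0q2) (pc := pcB0) (cut := cut_B00pm_202_s1) (xt := Ext.none) (P1 := 0) (W1 := 536870912) (P2 := 0) (W2 := 536870912) (P3 := 991146299) (W3 := 28908434)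
    rfl k0_B00pm_202_s1

theorem s_B00pm_202_s1 {κ x : ℝ} (hκ : κ * h0 = ken x) (hx : ((991146299 : ℕ) : ℝ) / S ≤ x)
    (hx' : x ≤ (((991146299 : ℕ) : ℝ) + (28908434 : ℕ)) / S)
    (H : CutB (VFD κ) PP tK tL pcB (Cut.of [[⟨0, 1, 0, 53687091⟩, ⟨1, 0, 0, 53687091⟩, ⟨2, 1, 0, 53687091⟩]]) 2 0 2 0 0 (sgb true) (sgb false) x) :
    AltB (VFD κ) PP tK tL pcB [⟨3, 0, 0, 1449551462⟩] 2 0 2 0 0 (sgb true) (sgb false) x :=
  strip_altBD (m := 1449551462) true rfl hκ (SH.κ0 hκ (SH.hx1 hx).le (SH.hx2 hx').le) (SH.hx1 hx).le (SH.hx2 hx') (covB02).cov (covB02).cov hx hx' c_B00pm_202_s1 H (noExt_B)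

noncomputable def cut_B00pm_202_s3 : Cut := Cut.of [[⟨3, 0, 0, 2845415833⟩], [⟨0, 1, 0, 53687091⟩, ⟨1, 0, 0, 53687091⟩, ⟨2, 1, 0, 53687091⟩]]

noncomputable def f_B00pm_202_s3 : ℕ → ℕ → ℕ → ℕ → Bool := onCell 0 536870912 0 536870912 991146299 28908434
    (rowF 0 false true false .pp 2 0 2 (qsf 0 536870912 0 536870912 0) ndB0q2 ndB0q2 pcB0 cut_B00pm_202_s3 Ext.none)

def k0_B00pm_202_s3 : ∃ t, chk3 f_B00pm_202_s3 t 1 1 1 = true :=
  ⟨(l 6), by decide +kernel⟩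

theorem c_B00pm_202_s3 : CertF 0 536870912 0 536870912 991146299 28908434 false true false .pp 2 0 2
    ndB0q2 ndB0q2 pcB0 cut_B00pm_202_s3 Ext.none :=
  certF0 (fam := false) (s1 := true) (s2 := false) (a := 2) (b := 0) (c := 2) (cn := .pp) (n1 := ndB0q2) (n2 := ndB0q2) (pc := pcB0) (cut := cut_B00pm_202_s3) (xt := Ext.none) (P1 := 0) (W1 := 536870912) (P2 := 0) (W2 := 536870912) (P3 := 991146299) (W3 := 28908434)
    rfl k0_B00pm_202_s3

theorem s_B00pm_202_s3 {κ x : ℝ} (hκ : κ * h0 = ken x) (hx : ((991146299 : ℕ) : ℝ) / S ≤ x)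
    (hx' : x ≤ (((991146299 : ℕ) : ℝ) + (28908434 : ℕ)) / S)
    (H : CutB (VFD κ) PP tK tL pcB (Cut.of [[⟨0, 1, 0, 53687091⟩, ⟨1, 0, 0, 53687091⟩, ⟨2, 1, 0, 53687091⟩]]) 2 0 2 0 0 (sgb true) (sgb false) x) :
    AltB (VFD κ) PP tK tL pcB [⟨4, 0, 0, 2845415833⟩] 2 0 2 0 0 (sgb true) (sgb false) x :=
  strip_altBD (m := 2845415833) false rfl hκ (SH.κ0 hκ (SH.hx1 hx).le (SH.hx2 hx').le) (SH.hx1 hx).le (SH.hx2 hx') (covB02).cov (covB02).cov hx hx' c_B00pm_202_s3 H (noExt_B)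

noncomputable def cut_B00mm_001_s1 : Cut := Cut.of [[⟨4, 0, 0, 1449551462⟩]]

noncomputable def f_B00mm_001_s1 : ℕ → ℕ → ℕ → ℕ → Bool := onCell 0 536870912 0 536870912 991146299 28908434
    (rowF 1 false false false .up 0 0 1 (qsf 0 536870912 536870912 536870912 0) ndB0q0 ndB0q1 pcB0 cut_B00mm_001_s1 Ext.none)

def k0_B00mm_001_s1 : ∃ t, chk3 f_B00mm_001_s1 t 1 1 1 = true :=
  ⟨(l 3), by decide +kernel⟩

theorem c_B00mm_001_s1 : CertF 0 536870912 536870912 536870912 991146299 28908434 false false false .up 0 0 1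
    ndB0q0 ndB0q1 pcB0 cut_B00mm_001_s1 Ext.none :=
  certF1 (fam := false) (s1 := false) (s2 := false) (a := 0) (b := 0) (c := 1) (cn := .up) (n1 := ndB0q0) (n2 := ndB0q1) (pc := pcB0) (cut := cut_B00mm_001_s1) (xt := Ext.none) (P1 := 0) (W1 := 536870912) (P2 := 536870912) (W2 := 536870912) (P3 := 991146299) (W3 := 28908434)
    rfl (fun _ => rfl) k0_B00mm_001_s1

theorem s_B00mm_001_s1 {κ x : ℝ} (hκ : κ * h0 = ken x) (hx : ((991146299 : ℕ) : ℝ) / S ≤ x)
    (hx' : x ≤ (((991146299 : ℕ) : ℝ) + (28908434 : ℕ)) / S) :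
    AltB (VFD κ) PP tK tL pcB [⟨3, 0, 0, 1449551462⟩] 0 0 1 0 0 (sgb false) (sgb false) x :=
  strip_altBD (m := 1449551462) true rfl hκ (SH.κ0 hκ (SH.hx1 hx).le (SH.hx2 hx').le) (SH.hx1 hx).le (SH.hx2 hx') (covB00).cov (covB01).cov hx hx' c_B00mm_001_s1 cutB_nil (noExt_B)

noncomputable def cut_B00mm_001_s3 : Cut := Cut.of [[⟨3, 0, 0, 2845415833⟩]]

noncomputable def f_B00mm_001_s3 : ℕ → ℕ → ℕ → ℕ → Bool := onCell 0 536870912 536870912 536870912 991146299 28908434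
    (rowF 0 false false false .up 0 0 1 (qsf 0 536870912 536870912 536870912 0) ndB0q0 ndB0q1 pcB0 cut_B00mm_001_s3 Ext.none)

def k0_B00mm_001_s3 : ∃ t, chk3 f_B00mm_001_s3 t 1 1 1 = true :=
  ⟨(l 6), by decide +kernel⟩

theorem c_B00mm_001_s3 : CertF 0 536870912 536870912 536870912 991146299 28908434 false false false .up 0 0 1
    ndB0q0 ndB0q1 pcB0 cut_B00mm_001_s3 Ext.none :=
  certF0 (fam := false) (s1 := false) (s2 := false) (a := 0) (b := 0) (c := 1) (cn := .up) (n1 := ndB0q0) (n2 := ndB0q1) (pc := pcB0) (cut := cut_B00mm_001_s3) (xt := Ext.none) (P1 := 0) (W1 := 536870912) (P2 := 536870912) (W2 := 536870912) (P3 := 991146299) (W3 := 28908434)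
    rfl k0_B00mm_001_s3

theorem s_B00mm_001_s3 {κ x : ℝ} (hκ : κ * h0 = ken x) (hx : ((991146299 : ℕ) : ℝ) / S ≤ x)
    (hx' : x ≤ (((991146299 : ℕ) : ℝ) + (28908434 : ℕ)) / S) :
    AltB (VFD κ) PP tK tL pcB [⟨4, 0, 0, 2845415833⟩] 0 0 1 0 0 (sgb false) (sgb false) x :=
  strip_altBD (m := 2845415833) false rfl hκ (SH.κ0 hκ (SH.hx1 hx).le (SH.hx2 hx').le) (SH.hx1 hx).le (SH.hx2 hx') (covB00).cov (covB01).cov hx hx' c_B00mm_001_s3 cutB_nil (noExt_B)

noncomputable def cut_B00mm_011_s1 : Cut := Cut.of [[⟨4, 0, 0, 1449551462⟩]]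

noncomputable def f_B00mm_011_s1 : ℕ → ℕ → ℕ → ℕ → Bool := onCell 0 536870912 536870912 536870912 991146299 28908434
    (rowF 1 false false false .pnn 0 1 1 (qsf 0 536870912 536870912 536870912 1) ndB0q0 ndB0q1 pcB1 cut_B00mm_011_s1 Ext.none)

def k0_B00mm_011_s1 : ∃ t, chk3 f_B00mm_011_s1 t 1 1 1 = true :=
  ⟨(l 5), by decide +kernel⟩

theorem c_B00mm_011_s1 : CertF 0 536870912 536870912 536870912 991146299 28908434 false false false .pnn 0 1 1
    ndB0q0 ndB0q1 pcB1 cut_B00mm_011_s1 Ext.none :=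
  certF1 (fam := false) (s1 := false) (s2 := false) (a := 0) (b := 1) (c := 1) (cn := .pnn) (n1 := ndB0q0) (n2 := ndB0q1) (pc := pcB1) (cut := cut_B00mm_011_s1) (xt := Ext.none) (P1 := 0) (W1 := 536870912) (P2 := 536870912) (W2 := 536870912) (P3 := 991146299) (W3 := 28908434)
    rfl (fun _ => rfl) k0_B00mm_011_s1

theorem s_B00mm_011_s1 {κ x : ℝ} (hκ : κ * h0 = ken x) (hx : ((991146299 : ℕ) : ℝ) / S ≤ x)
    (hx' : x ≤ (((991146299 : ℕ) : ℝ) + (28908434 : ℕ)) / S) :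
    AltB (VFD κ) PP tK tL pcB [⟨3, 0, 0, 1449551462⟩] 0 1 1 0 0 (sgb false) (sgb false) x :=
  strip_altBD (m := 1449551462) true rfl hκ (SH.κ0 hκ (SH.hx1 hx).le (SH.hx2 hx').le) (SH.hx1 hx).le (SH.hx2 hx') (covB00).cov (covB01).cov hx hx' c_B00mm_011_s1 cutB_nil (noExt_B)

noncomputable def cut_B00mm_011_s3 : Cut := Cut.of [[⟨3, 0, 0, 2845415833⟩]]

noncomputable def f_B00mm_011_s3 : ℕ → ℕ → ℕ → ℕ → Bool := onCell 0 536870912 536870912 536870912 991146299 28908434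
    (rowF 0 false false false .pnn 0 1 1 (qsf 0 536870912 536870912 536870912 1) ndB0q0 ndB0q1 pcB1 cut_B00mm_011_s3 Ext.none)

def k0_B00mm_011_s3 : ∃ t, chk3 f_B00mm_011_s3 t 1 1 1 = true :=
  ⟨(l 6), by decide +kernel⟩

theorem c_B00mm_011_s3 : CertF 0 536870912 536870912 536870912 991146299 28908434 false false false .pnn 0 1 1
    ndB0q0 ndB0q1 pcB1 cut_B00mm_011_s3 Ext.none :=
  certF0 (fam := false) (s1 := false) (s2 := false) (a := 0) (b := 1) (c := 1) (cn := .pnn) (n1 := ndB0q0) (n2 := ndB0q1) (pc := pcB1) (cut := cut_B00mm_011_s3) (xt := Ext.none) (P1 := 0) (W1 := 536870912) (P2 := 536870912) (W2 := 536870912) (P3 := 991146299) (W3 := 28908434)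
    rfl k0_B00mm_011_s3

theorem s_B00mm_011_s3 {κ x : ℝ} (hκ : κ * h0 = ken x) (hx : ((991146299 : ℕ) : ℝ) / S ≤ x)
    (hx' : x ≤ (((991146299 : ℕ) : ℝ) + (28908434 : ℕ)) / S) :
    AltB (VFD κ) PP tK tL pcB [⟨4, 0, 0, 2845415833⟩] 0 1 1 0 0 (sgb false) (sgb false) x :=
  strip_altBD (m := 2845415833) false rfl hκ (SH.κ0 hκ (SH.hx1 hx).le (SH.hx2 hx').le) (SH.hx1 hx).le (SH.hx2 hx') (covB00).cov (covB01).cov hx hx' c_B00mm_011_s3 cutB_nil (noExt_B)

noncomputable def cut_B00mm_012_s1 : Cut := Cut.of [[⟨4, 0, 0, 1449551462⟩]]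

noncomputable def f_B00mm_012_s1 : ℕ → ℕ → ℕ → ℕ → Bool := onCell 0 536870912 0 536870912 991146299 28908434
    (rowF 0 false false false .pnp 0 1 2 (qsf 0 536870912 0 536870912 1) ndB0q0 ndB0q2 pcB1 cut_B00mm_012_s1 Ext.none)

def k0_B00mm_012_s1 : ∃ t, chk3 f_B00mm_012_s1 t 1 1 1 = true :=
  ⟨(l 5), by decide +kernel⟩

theorem c_B00mm_012_s1 : CertF 0 536870912 0 536870912 991146299 28908434 false false false .pnp 0 1 2
    ndB0q0 ndB0q2 pcB1 cut_B00mm_012_s1 Ext.none :=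
  certF0 (fam := false) (s1 := false) (s2 := false) (a := 0) (b := 1) (c := 2) (cn := .pnp) (n1 := ndB0q0) (n2 := ndB0q2) (pc := pcB1) (cut := cut_B00mm_012_s1) (xt := Ext.none) (P1 := 0) (W1 := 536870912) (P2 := 0) (W2 := 536870912) (P3 := 991146299) (W3 := 28908434)
    rfl k0_B00mm_012_s1

theorem s_B00mm_012_s1 {κ x : ℝ} (hκ : κ * h0 = ken x) (hx : ((991146299 : ℕ) : ℝ) / S ≤ x)
    (hx' : x ≤ (((991146299 : ℕ) : ℝ) + (28908434 : ℕ)) / S) :
    AltB (VFD κ) PP tK tL pcB [⟨3, 0, 0, 1449551462⟩] 0 1 2 0 0 (sgb false) (sgb false) x :=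
  strip_altBD (m := 1449551462) true rfl hκ (SH.κ0 hκ (SH.hx1 hx).le (SH.hx2 hx').le) (SH.hx1 hx).le (SH.hx2 hx') (covB00).cov (covB02).cov hx hx' c_B00mm_012_s1 cutB_nil (noExt_B)

noncomputable def cut_B00mm_012_s3 : Cut := Cut.of [[⟨3, 0, 0, 2845415833⟩]]

noncomputable def f_B00mm_012_s3 : ℕ → ℕ → ℕ → ℕ → Bool := onCell 0 536870912 0 536870912 991146299 28908434
    (rowF 0 false false false .pnp 0 1 2 (qsf 0 536870912 0 536870912 1) ndB0q0 ndB0q2 pcB1 cut_B00mm_012_s3 Ext.none)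

def k0_B00mm_012_s3 : ∃ t, chk3 f_B00mm_012_s3 t 1 1 1 = true :=
  ⟨(l 5), by decide +kernel⟩

theorem c_B00mm_012_s3 : CertF 0 536870912 0 536870912 991146299 28908434 false false false .pnp 0 1 2
    ndB0q0 ndB0q2 pcB1 cut_B00mm_012_s3 Ext.none :=
  certF0 (fam := false) (s1 := false) (s2 := false) (a := 0) (b := 1) (c := 2) (cn := .pnp) (n1 := ndB0q0) (n2 := ndB0q2) (pc := pcB1) (cut := cut_B00mm_012_s3) (xt := Ext.none) (P1 := 0) (W1 := 536870912) (P2 := 0) (W2 := 536870912) (P3 := 991146299) (W3 := 28908434)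
    rfl k0_B00mm_012_s3

theorem s_B00mm_012_s3 {κ x : ℝ} (hκ : κ * h0 = ken x) (hx : ((991146299 : ℕ) : ℝ) / S ≤ x)
    (hx' : x ≤ (((991146299 : ℕ) : ℝ) + (28908434 : ℕ)) / S) :
    AltB (VFD κ) PP tK tL pcB [⟨4, 0, 0, 2845415833⟩] 0 1 2 0 0 (sgb false) (sgb false) x :=
  strip_altBD (m := 2845415833) false rfl hκ (SH.κ0 hκ (SH.hx1 hx).le (SH.hx2 hx').le) (SH.hx1 hx).le (SH.hx2 hx') (covB00).cov (covB02).cov hx hx' c_B00mm_012_s3 cutB_nil (noExt_B)

noncomputable def cut_B00mm_022_s1 : Cut := Cut.of [[⟨4, 0, 0, 1449551462⟩]]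

noncomputable def f_B00mm_022_s1 : ℕ → ℕ → ℕ → ℕ → Bool := onCell 0 536870912 0 536870912 991146299 28908434
    (rowF 0 false false false .pp 0 2 2 (qsf 0 536870912 0 536870912 2) ndB0q0 ndB0q2 pcB2 cut_B00mm_022_s1 Ext.none)

def k0_B00mm_022_s1 : ∃ t, chk3 f_B00mm_022_s1 t 1 1 1 = true :=
  ⟨(l 5), by decide +kernel⟩

theorem c_B00mm_022_s1 : CertF 0 536870912 0 536870912 991146299 28908434 false false false .pp 0 2 2
    ndB0q0 ndB0q2 pcB2 cut_B00mm_022_s1 Ext.none :=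
  certF0 (fam := false) (s1 := false) (s2 := false) (a := 0) (b := 2) (c := 2) (cn := .pp) (n1 := ndB0q0) (n2 := ndB0q2) (pc := pcB2) (cut := cut_B00mm_022_s1) (xt := Ext.none) (P1 := 0) (W1 := 536870912) (P2 := 0) (W2 := 536870912) (P3 := 991146299) (W3 := 28908434)
    rfl k0_B00mm_022_s1

theorem s_B00mm_022_s1 {κ x : ℝ} (hκ : κ * h0 = ken x) (hx : ((991146299 : ℕ) : ℝ) / S ≤ x)
    (hx' : x ≤ (((991146299 : ℕ) : ℝ) + (28908434 : ℕ)) / S) :
    AltB (VFD κ) PP tK tL pcB [⟨3, 0, 0, 1449551462⟩] 0 2 2 0 0 (sgb false) (sgb false) x :=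
  strip_altBD (m := 1449551462) true rfl hκ (SH.κ0 hκ (SH.hx1 hx).le (SH.hx2 hx').le) (SH.hx1 hx).le (SH.hx2 hx') (covB00).cov (covB02).cov hx hx' c_B00mm_022_s1 cutB_nil (noExt_B)

noncomputable def cut_B00mm_022_s3 : Cut := Cut.of [[⟨3, 0, 0, 2845415833⟩]]

noncomputable def f_B00mm_022_s3 : ℕ → ℕ → ℕ → ℕ → Bool := onCell 0 536870912 0 536870912 991146299 28908434
    (rowF 0 false false false .pp 0 2 2 (qsf 0 536870912 0 536870912 2) ndB0q0 ndB0q2 pcB2 cut_B00mm_022_s3 Ext.none)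

def k0_B00mm_022_s3 : ∃ t, chk3 f_B00mm_022_s3 t 1 1 1 = true :=
  ⟨(l 5), by decide +kernel⟩

theorem c_B00mm_022_s3 : CertF 0 536870912 0 536870912 991146299 28908434 false false false .pp 0 2 2
    ndB0q0 ndB0q2 pcB2 cut_B00mm_022_s3 Ext.none :=
  certF0 (fam := false) (s1 := false) (s2 := false) (a := 0) (b := 2) (c := 2) (cn := .pp) (n1 := ndB0q0) (n2 := ndB0q2) (pc := pcB2) (cut := cut_B00mm_022_s3) (xt := Ext.none) (P1 := 0) (W1 := 536870912) (P2 := 0) (W2 := 536870912) (P3 := 991146299) (W3 := 28908434)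
    rfl k0_B00mm_022_s3

theorem s_B00mm_022_s3 {κ x : ℝ} (hκ : κ * h0 = ken x) (hx : ((991146299 : ℕ) : ℝ) / S ≤ x)
    (hx' : x ≤ (((991146299 : ℕ) : ℝ) + (28908434 : ℕ)) / S) :
    AltB (VFD κ) PP tK tL pcB [⟨4, 0, 0, 2845415833⟩] 0 2 2 0 0 (sgb false) (sgb false) x :=
  strip_altBD (m := 2845415833) false rfl hκ (SH.κ0 hκ (SH.hx1 hx).le (SH.hx2 hx').le) (SH.hx1 hx).le (SH.hx2 hx') (covB00).cov (covB02).cov hx hx' c_B00mm_022_s3 cutB_nil (noExt_B)

noncomputable def cut_B00mm_101_s1 : Cut := Cut.of [[⟨4, 0, 0, 1449551462⟩]]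

noncomputable def f_B00mm_101_s1 : ℕ → ℕ → ℕ → ℕ → Bool := onCell 536870912 536870912 536870912 536870912 991146299 28908434
    (rowF 0 false false false .npn 1 0 1 (qsf 536870912 536870912 536870912 536870912 0) ndB0q1 ndB0q1 pcB0 cut_B00mm_101_s1 Ext.none)

def k0_B00mm_101_s1 : ∃ t, chk3 f_B00mm_101_s1 t 1 1 1 = true :=
  ⟨(l 3), by decide +kernel⟩

theorem c_B00mm_101_s1 : CertF 536870912 536870912 536870912 536870912 991146299 28908434 false false false .npn 1 0 1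
    ndB0q1 ndB0q1 pcB0 cut_B00mm_101_s1 Ext.none :=
  certF0 (fam := false) (s1 := false) (s2 := false) (a := 1) (b := 0) (c := 1) (cn := .npn) (n1 := ndB0q1) (n2 := ndB0q1) (pc := pcB0) (cut := cut_B00mm_101_s1) (xt := Ext.none) (P1 := 536870912) (W1 := 536870912) (P2 := 536870912) (W2 := 536870912) (P3 := 991146299) (W3 := 28908434)
    rfl k0_B00mm_101_s1

theorem s_B00mm_101_s1 {κ x : ℝ} (hκ : κ * h0 = ken x) (hx : ((991146299 : ℕ) : ℝ) / S ≤ x)
    (hx' : x ≤ (((991146299 : ℕ) : ℝ) + (28908434 : ℕ)) / S) :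
    AltB (VFD κ) PP tK tL pcB [⟨3, 0, 0, 1449551462⟩] 1 0 1 0 0 (sgb false) (sgb false) x :=
  strip_altBD (m := 1449551462) true rfl hκ (SH.κ0 hκ (SH.hx1 hx).le (SH.hx2 hx').le) (SH.hx1 hx).le (SH.hx2 hx') (covB01).cov (covB01).cov hx hx' c_B00mm_101_s1 cutB_nil (noExt_B)

noncomputable def cut_B00mm_101_s3 : Cut := Cut.of [[⟨3, 0, 0, 2845415833⟩]]

noncomputable def f_B00mm_101_s3 : ℕ → ℕ → ℕ → ℕ → Bool := onCell 536870912 536870912 536870912 536870912 991146299 28908434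
    (rowF 0 false false false .npn 1 0 1 (qsf 536870912 536870912 536870912 536870912 0) ndB0q1 ndB0q1 pcB0 cut_B00mm_101_s3 Ext.none)

def k0_B00mm_101_s3 : ∃ t, chk3 f_B00mm_101_s3 t 1 1 1 = true :=
  ⟨(l 3), by decide +kernel⟩

theorem c_B00mm_101_s3 : CertF 536870912 536870912 536870912 536870912 991146299 28908434 false false false .npn 1 0 1
    ndB0q1 ndB0q1 pcB0 cut_B00mm_101_s3 Ext.none :=
  certF0 (fam := false) (s1 := false) (s2 := false) (a := 1) (b := 0) (c := 1) (cn := .npn) (n1 := ndB0q1) (n2 := ndB0q1) (pc := pcB0) (cut := cut_B00mm_101_s3) (xt := Ext.none) (P1 := 536870912) (W1 := 536870912) (P2 := 536870912) (W2 := 536870912) (P3 := 991146299) (W3 := 28908434)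
    rfl k0_B00mm_101_s3

theorem s_B00mm_101_s3 {κ x : ℝ} (hκ : κ * h0 = ken x) (hx : ((991146299 : ℕ) : ℝ) / S ≤ x)
    (hx' : x ≤ (((991146299 : ℕ) : ℝ) + (28908434 : ℕ)) / S) :
    AltB (VFD κ) PP tK tL pcB [⟨4, 0, 0, 2845415833⟩] 1 0 1 0 0 (sgb false) (sgb false) x :=
  strip_altBD (m := 2845415833) false rfl hκ (SH.κ0 hκ (SH.hx1 hx).le (SH.hx2 hx').le) (SH.hx1 hx).le (SH.hx2 hx') (covB01).cov (covB01).cov hx hx' c_B00mm_101_s3 cutB_nil (noExt_B)

noncomputable def cut_B00mm_102_s1 : Cut := Cut.of [[⟨4, 0, 0, 1449551462⟩]]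

noncomputable def f_B00mm_102_s1 : ℕ → ℕ → ℕ → ℕ → Bool := onCell 536870912 536870912 0 536870912 991146299 28908434
    (rowF 0 false false false .npp 1 0 2 (qsf 536870912 536870912 0 536870912 0) ndB0q1 ndB0q2 pcB0 cut_B00mm_102_s1 Ext.none)

def k0_B00mm_102_s1 : ∃ t, chk3 f_B00mm_102_s1 t 1 1 1 = true :=
  ⟨(a (l 5) (l 3)), by decide +kernel⟩

theorem c_B00mm_102_s1 : CertF 536870912 536870912 0 536870912 991146299 28908434 false false false .npp 1 0 2
    ndB0q1 ndB0q2 pcB0 cut_B00mm_102_s1 Ext.none :=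
  certF0 (fam := false) (s1 := false) (s2 := false) (a := 1) (b := 0) (c := 2) (cn := .npp) (n1 := ndB0q1) (n2 := ndB0q2) (pc := pcB0) (cut := cut_B00mm_102_s1) (xt := Ext.none) (P1 := 536870912) (W1 := 536870912) (P2 := 0) (W2 := 536870912) (P3 := 991146299) (W3 := 28908434)
    rfl k0_B00mm_102_s1

theorem s_B00mm_102_s1 {κ x : ℝ} (hκ : κ * h0 = ken x) (hx : ((991146299 : ℕ) : ℝ) / S ≤ x)
    (hx' : x ≤ (((991146299 : ℕ) : ℝ) + (28908434 : ℕ)) / S) :
    AltB (VFD κ) PP tK tL pcB [⟨3, 0, 0, 1449551462⟩] 1 0 2 0 0 (sgb false) (sgb false) x :=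
  strip_altBD (m := 1449551462) true rfl hκ (SH.κ0 hκ (SH.hx1 hx).le (SH.hx2 hx').le) (SH.hx1 hx).le (SH.hx2 hx') (covB01).cov (covB02).cov hx hx' c_B00mm_102_s1 cutB_nil (noExt_B)

noncomputable def cut_B00mm_102_s3 : Cut := Cut.of [[⟨3, 0, 0, 2845415833⟩]]

noncomputable def f_B00mm_102_s3 : ℕ → ℕ → ℕ → ℕ → Bool := onCell 536870912 536870912 0 536870912 991146299 28908434
    (rowF 0 false false false .npp 1 0 2 (qsf 536870912 536870912 0 536870912 0) ndB0q1 ndB0q2 pcB0 cut_B00mm_102_s3 Ext.none)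

def k0_B00mm_102_s3 : ∃ t, chk3 f_B00mm_102_s3 t 1 1 1 = true :=
  ⟨(l 6), by decide +kernel⟩

theorem c_B00mm_102_s3 : CertF 536870912 536870912 0 536870912 991146299 28908434 false false false .npp 1 0 2
    ndB0q1 ndB0q2 pcB0 cut_B00mm_102_s3 Ext.none :=
  certF0 (fam := false) (s1 := false) (s2 := false) (a := 1) (b := 0) (c := 2) (cn := .npp) (n1 := ndB0q1) (n2 := ndB0q2) (pc := pcB0) (cut := cut_B00mm_102_s3) (xt := Ext.none) (P1 := 536870912) (W1 := 536870912) (P2 := 0) (W2 := 536870912) (P3 := 991146299) (W3 := 28908434)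
    rfl k0_B00mm_102_s3

theorem s_B00mm_102_s3 {κ x : ℝ} (hκ : κ * h0 = ken x) (hx : ((991146299 : ℕ) : ℝ) / S ≤ x)
    (hx' : x ≤ (((991146299 : ℕ) : ℝ) + (28908434 : ℕ)) / S) :
    AltB (VFD κ) PP tK tL pcB [⟨4, 0, 0, 2845415833⟩] 1 0 2 0 0 (sgb false) (sgb false) x :=
  strip_altBD (m := 2845415833) false rfl hκ (SH.κ0 hκ (SH.hx1 hx).le (SH.hx2 hx').le) (SH.hx1 hx).le (SH.hx2 hx') (covB01).cov (covB02).cov hx hx' c_B00mm_102_s3 cutB_nil (noExt_B)

noncomputable def cut_B00mm_112_s1 : Cut := Cut.of [[⟨4, 0, 0, 1449551462⟩]]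

noncomputable def f_B00mm_112_s1 : ℕ → ℕ → ℕ → ℕ → Bool := onCell 536870912 536870912 0 536870912 991146299 28908434
    (rowF 2 false false false .dn 1 1 2 (qsf 536870912 536870912 0 536870912 1) ndB0q1 ndB0q2 pcB1 cut_B00mm_112_s1 Ext.none)

def k0_B00mm_112_s1 : ∃ t, chk3 f_B00mm_112_s1 t 1 1 1 = true :=
  ⟨(l 5), by decide +kernel⟩

theorem c_B00mm_112_s1 : CertF 536870912 536870912 0 536870912 991146299 28908434 false false false .dn 1 1 2
    ndB0q1 ndB0q2 pcB1 cut_B00mm_112_s1 Ext.none :=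
  certF2 (fam := false) (s1 := false) (s2 := false) (a := 1) (b := 1) (c := 2) (cn := .dn) (n1 := ndB0q1) (n2 := ndB0q2) (pc := pcB1) (cut := cut_B00mm_112_s1) (xt := Ext.none) (P1 := 536870912) (W1 := 536870912) (P2 := 0) (W2 := 536870912) (P3 := 991146299) (W3 := 28908434)
    rfl (fun _ => rfl) k0_B00mm_112_s1

theorem s_B00mm_112_s1 {κ x : ℝ} (hκ : κ * h0 = ken x) (hx : ((991146299 : ℕ) : ℝ) / S ≤ x)
    (hx' : x ≤ (((991146299 : ℕ) : ℝ) + (28908434 : ℕ)) / S) :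
    AltB (VFD κ) PP tK tL pcB [⟨3, 0, 0, 1449551462⟩] 1 1 2 0 0 (sgb false) (sgb false) x :=
  strip_altBD (m := 1449551462) true rfl hκ (SH.κ0 hκ (SH.hx1 hx).le (SH.hx2 hx').le) (SH.hx1 hx).le (SH.hx2 hx') (covB01).cov (covB02).cov hx hx' c_B00mm_112_s1 cutB_nil (noExt_B)

noncomputable def cut_B00mm_112_s3 : Cut := Cut.of [[⟨3, 0, 0, 2845415833⟩]]

noncomputable def f_B00mm_112_s3 : ℕ → ℕ → ℕ → ℕ → Bool := onCell 536870912 536870912 0 536870912 991146299 28908434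
    (rowF 0 false false false .dn 1 1 2 (qsf 536870912 536870912 0 536870912 1) ndB0q1 ndB0q2 pcB1 cut_B00mm_112_s3 Ext.none)

def k0_B00mm_112_s3 : ∃ t, chk3 f_B00mm_112_s3 t 1 1 1 = true :=
  ⟨(l 6), by decide +kernel⟩

theorem c_B00mm_112_s3 : CertF 536870912 536870912 0 536870912 991146299 28908434 false false false .dn 1 1 2
    ndB0q1 ndB0q2 pcB1 cut_B00mm_112_s3 Ext.none :=
  certF0 (fam := false) (s1 := false) (s2 := false) (a := 1) (b := 1) (c := 2) (cn := .dn) (n1 := ndB0q1) (n2 := ndB0q2) (pc := pcB1) (cut := cut_B00mm_112_s3) (xt := Ext.none) (P1 := 536870912) (W1 := 536870912) (P2 := 0) (W2 := 536870912) (P3 := 991146299) (W3 := 28908434)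
    rfl k0_B00mm_112_s3

theorem s_B00mm_112_s3 {κ x : ℝ} (hκ : κ * h0 = ken x) (hx : ((991146299 : ℕ) : ℝ) / S ≤ x)
    (hx' : x ≤ (((991146299 : ℕ) : ℝ) + (28908434 : ℕ)) / S) :
    AltB (VFD κ) PP tK tL pcB [⟨4, 0, 0, 2845415833⟩] 1 1 2 0 0 (sgb false) (sgb false) x :=
  strip_altBD (m := 2845415833) false rfl hκ (SH.κ0 hκ (SH.hx1 hx).le (SH.hx2 hx').le) (SH.hx1 hx).le (SH.hx2 hx') (covB01).cov (covB02).cov hx hx' c_B00mm_112_s3 cutB_nil (noExt_B)

noncomputable def cut_B00mm_202_s1 : Cut := Cut.of [[⟨4, 0, 0, 1449551462⟩]]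

noncomputable def f_B00mm_202_s1 : ℕ → ℕ → ℕ → ℕ → Bool := onCell 0 536870912 0 536870912 991146299 28908434
    (rowF 0 false false false .pp 2 0 2 (qsf 0 536870912 0 536870912 0) ndB0q2 ndB0q2 pcB0 cut_B00mm_202_s1 Ext.none)

def k0_B00mm_202_s1 : ∃ t, chk3 f_B00mm_202_s1 t 1 1 1 = true :=
  ⟨(l 3), by decide +kernel⟩

theorem c_B00mm_202_s1 : CertF 0 536870912 0 536870912 991146299 28908434 false false false .pp 2 0 2
    ndB0q2 ndB0q2 pcB0 cut_B00mm_202_s1 Ext.none :=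
  certF0 (fam := false) (s1 := false) (s2 := false) (a := 2) (b := 0) (c := 2) (cn := .pp) (n1 := ndB0q2) (n2 := ndB0q2) (pc := pcB0) (cut := cut_B00mm_202_s1) (xt := Ext.none) (P1 := 0) (W1 := 536870912) (P2 := 0) (W2 := 536870912) (P3 := 991146299) (W3 := 28908434)
    rfl k0_B00mm_202_s1

theorem s_B00mm_202_s1 {κ x : ℝ} (hκ : κ * h0 = ken x) (hx : ((991146299 : ℕ) : ℝ) / S ≤ x)
    (hx' : x ≤ (((991146299 : ℕ) : ℝ) + (28908434 : ℕ)) / S) :
    AltB (VFD κ) PP tK tL pcB [⟨3, 0, 0, 1449551462⟩] 2 0 2 0 0 (sgb false) (sgb false) x :=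
  strip_altBD (m := 1449551462) true rfl hκ (SH.κ0 hκ (SH.hx1 hx).le (SH.hx2 hx').le) (SH.hx1 hx).le (SH.hx2 hx') (covB02).cov (covB02).cov hx hx' c_B00mm_202_s1 cutB_nil (noExt_B)

noncomputable def cut_B00mm_202_s3 : Cut := Cut.of [[⟨3, 0, 0, 2845415833⟩]]

noncomputable def f_B00mm_202_s3 : ℕ → ℕ → ℕ → ℕ → Bool := onCell 0 536870912 0 536870912 991146299 28908434
    (rowF 0 false false false .pp 2 0 2 (qsf 0 536870912 0 536870912 0) ndB0q2 ndB0q2 pcB0 cut_B00mm_202_s3 Ext.none)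

def k0_B00mm_202_s3 : ∃ t, chk3 f_B00mm_202_s3 t 1 1 1 = true :=
  ⟨(l 3), by decide +kernel⟩

theorem c_B00mm_202_s3 : CertF 0 536870912 0 536870912 991146299 28908434 false false false .pp 2 0 2
    ndB0q2 ndB0q2 pcB0 cut_B00mm_202_s3 Ext.none :=
  certF0 (fam := false) (s1 := false) (s2 := false) (a := 2) (b := 0) (c := 2) (cn := .pp) (n1 := ndB0q2) (n2 := ndB0q2) (pc := pcB0) (cut := cut_B00mm_202_s3) (xt := Ext.none) (P1 := 0) (W1 := 536870912) (P2 := 0) (W2 := 536870912) (P3 := 991146299) (W3 := 28908434)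
    rfl k0_B00mm_202_s3

theorem s_B00mm_202_s3 {κ x : ℝ} (hκ : κ * h0 = ken x) (hx : ((991146299 : ℕ) : ℝ) / S ≤ x)
    (hx' : x ≤ (((991146299 : ℕ) : ℝ) + (28908434 : ℕ)) / S) :
    AltB (VFD κ) PP tK tL pcB [⟨4, 0, 0, 2845415833⟩] 2 0 2 0 0 (sgb false) (sgb false) x :=
  strip_altBD (m := 2845415833) false rfl hκ (SH.κ0 hκ (SH.hx1 hx).le (SH.hx2 hx').le) (SH.hx1 hx).le (SH.hx2 hx') (covB02).cov (covB02).cov hx hx' c_B00mm_202_s3 cutB_nil (noExt_B)

noncomputable def cut_B05pp_001_s1 : Cut := Cut.of [[⟨4, 0, 0, 1449551462⟩]]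

noncomputable def f_B05pp_001_s1 : ℕ → ℕ → ℕ → ℕ → Bool := onCell 0 536870912 0 536870912 991146299 28908434
    (rowF 1 false true true .up 0 0 1 (qsf 0 536870912 536870912 536870912 0) ndB0q0 ndB5q1 pcB0 cut_B05pp_001_s1 Ext.none)

def k0_B05pp_001_s1 : ∃ t, chk3 f_B05pp_001_s1 t 1 1 1 = true :=
  ⟨(l 3), by decide +kernel⟩

theorem c_B05pp_001_s1 : CertF 0 536870912 536870912 536870912 991146299 28908434 false true true .up 0 0 1
    ndB0q0 ndB5q1 pcB0 cut_B05pp_001_s1 Ext.none :=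
  certF1 (fam := false) (s1 := true) (s2 := true) (a := 0) (b := 0) (c := 1) (cn := .up) (n1 := ndB0q0) (n2 := ndB5q1) (pc := pcB0) (cut := cut_B05pp_001_s1) (xt := Ext.none) (P1 := 0) (W1 := 536870912) (P2 := 536870912) (W2 := 536870912) (P3 := 991146299) (W3 := 28908434)
    rfl (fun _ => rfl) k0_B05pp_001_s1

theorem s_B05pp_001_s1 {κ x : ℝ} (hκ : κ * h0 = ken x) (hx : ((991146299 : ℕ) : ℝ) / S ≤ x)
    (hx' : x ≤ (((991146299 : ℕ) : ℝ) + (28908434 : ℕ)) / S) :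
    AltB (VFD κ) PP tK tL pcB [⟨3, 0, 0, 1449551462⟩] 0 0 1 0 5 (sgb true) (sgb true) x :=
  strip_altBD (m := 1449551462) true rfl hκ (SH.κ0 hκ (SH.hx1 hx).le (SH.hx2 hx').le) (SH.hx1 hx).le (SH.hx2 hx') (covB00).cov (covB51).cov hx hx' c_B05pp_001_s1 cutB_nil (noExt_B)

noncomputable def cut_B05pp_011_s1 : Cut := Cut.of [[⟨4, 0, 0, 1449551462⟩], [⟨0, 0, 0, 53687091⟩, ⟨1, 1, 0, 53687091⟩, ⟨2, 1, 0, 53687091⟩]]

noncomputable def f_B05pp_011_s1 : ℕ → ℕ → ℕ → ℕ → Bool := onCell 0 536870912 536870912 536870912 991146299 28908434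
    (rowF 1 false true true .pnn 0 1 1 (qsf 0 536870912 536870912 536870912 1) ndB0q0 ndB5q1 pcB1 cut_B05pp_011_s1 Ext.none)

def k0_B05pp_011_s1 : ∃ t, chk3 f_B05pp_011_s1 t 1 1 1 = true :=
  ⟨(b (l 3) (a (b (l 3) (a (b (l 3) (a (a (b (l 3) (l 14)) (l 3)) (l 3))) (l 3))) (l 3))), by decide +kernel⟩

theorem c_B05pp_011_s1 : CertF 0 536870912 536870912 536870912 991146299 28908434 false true true .pnn 0 1 1
    ndB0q0 ndB5q1 pcB1 cut_B05pp_011_s1 Ext.none :=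
  certF1 (fam := false) (s1 := true) (s2 := true) (a := 0) (b := 1) (c := 1) (cn := .pnn) (n1 := ndB0q0) (n2 := ndB5q1) (pc := pcB1) (cut := cut_B05pp_011_s1) (xt := Ext.none) (P1 := 0) (W1 := 536870912) (P2 := 536870912) (W2 := 536870912) (P3 := 991146299) (W3 := 28908434)
    rfl (fun _ => rfl) k0_B05pp_011_s1

theorem s_B05pp_011_s1 {κ x : ℝ} (hκ : κ * h0 = ken x) (hx : ((991146299 : ℕ) : ℝ) / S ≤ x)
    (hx' : x ≤ (((991146299 : ℕ) : ℝ) + (28908434 : ℕ)) / S)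
    (H : CutB (VFD κ) PP tK tL pcB (Cut.of [[⟨0, 0, 0, 53687091⟩, ⟨1, 1, 0, 53687091⟩, ⟨2, 1, 0, 53687091⟩]]) 0 1 1 0 5 (sgb true) (sgb true) x) :
    AltB (VFD κ) PP tK tL pcB [⟨3, 0, 0, 1449551462⟩] 0 1 1 0 5 (sgb true) (sgb true) x :=
  strip_altBD (m := 1449551462) true rfl hκ (SH.κ0 hκ (SH.hx1 hx).le (SH.hx2 hx').le) (SH.hx1 hx).le (SH.hx2 hx') (covB00).cov (covB51).cov hx hx' c_B05pp_011_s1 H (noExt_B)

noncomputable def cut_B05pp_012_s1 : Cut := Cut.of [[⟨4, 0, 0, 1449551462⟩], [⟨0, 0, 0, 53687091⟩, ⟨1, 1, 0, 53687091⟩, ⟨2, 1, 0, 53687091⟩]]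

noncomputable def f_B05pp_012_s1 : ℕ → ℕ → ℕ → ℕ → Bool := onCell 0 536870912 536870912 536870912 991146299 28908434
    (rowF 1 false true true .pnp 0 1 2 (qsf 0 536870912 1073741824 536870912 1) ndB0q0 ndB5q2 pcB1 cut_B05pp_012_s1 Ext.none)

def k0_B05pp_012_s1 : ∃ t, chk3 f_B05pp_012_s1 t 1 1 1 = true :=
  ⟨(b (l 3) (a (b (l 3) (a (a (a (b (l 1) (b (l 3) (l 14))) (l 3)) (l 3)) (l 3))) (l 3))), by decide +kernel⟩

theorem c_B05pp_012_s1 : CertF 0 536870912 1073741824 536870912 991146299 28908434 false true true .pnp 0 1 2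
    ndB0q0 ndB5q2 pcB1 cut_B05pp_012_s1 Ext.none :=
  certF1 (fam := false) (s1 := true) (s2 := true) (a := 0) (b := 1) (c := 2) (cn := .pnp) (n1 := ndB0q0) (n2 := ndB5q2) (pc := pcB1) (cut := cut_B05pp_012_s1) (xt := Ext.none) (P1 := 0) (W1 := 536870912) (P2 := 1073741824) (W2 := 536870912) (P3 := 991146299) (W3 := 28908434)
    rfl (fun _ => rfl) k0_B05pp_012_s1

theorem s_B05pp_012_s1 {κ x : ℝ} (hκ : κ * h0 = ken x) (hx : ((991146299 : ℕ) : ℝ) / S ≤ x)
    (hx' : x ≤ (((991146299 : ℕ) : ℝ) + (28908434 : ℕ)) / S)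
    (H : CutB (VFD κ) PP tK tL pcB (Cut.of [[⟨0, 0, 0, 53687091⟩, ⟨1, 1, 0, 53687091⟩, ⟨2, 1, 0, 53687091⟩]]) 0 1 2 0 5 (sgb true) (sgb true) x) :
    AltB (VFD κ) PP tK tL pcB [⟨3, 0, 0, 1449551462⟩] 0 1 2 0 5 (sgb true) (sgb true) x :=
  strip_altBD (m := 1449551462) true rfl hκ (SH.κ0 hκ (SH.hx1 hx).le (SH.hx2 hx').le) (SH.hx1 hx).le (SH.hx2 hx') (covB00).cov (covB52).cov hx hx' c_B05pp_012_s1 H (noExt_B)

noncomputable def cut_B05pp_022_s1 : Cut := Cut.of [[⟨4, 0, 0, 1449551462⟩], [⟨0, 0, 0, 26843545⟩, ⟨1, 1, 0, 26843545⟩, ⟨2, 1, 0, 26843545⟩]]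

noncomputable def xt_B05pp_022_s1 : Ext := strExt dd false true true .u0 .s2 .u2 .pp 0 2 2 rfl rfl gf2 vv ndB0q0 ndB5q2

noncomputable def f_B05pp_022_s1 : ℕ → ℕ → ℕ → ℕ → Bool := onCell 0 536870912 1073741824 536870912 991146299 28908434
    (rowF 1 false true true .pp 0 2 2 (qsf 0 536870912 1073741824 536870912 2) ndB0q0 ndB5q2 pcB2 cut_B05pp_022_s1 xt_B05pp_022_s1)

def k0_B05pp_022_s1 : ∃ t, chk3 f_B05pp_022_s1 t 32 32 1 = true :=
  ⟨(b (l 14) (a (l 14) (b (a (l 14) (b (a (l 14) (a (l 14) (c (l 519298431) (a (l 14) (l 515689343))))) (b (a (l 14) (a (a (l 14) (l 517613183)) (a (l 517627519) (l 517910655)))) (b (a (l 14) (a (l 16759784) (l 16756000))) (a (l 16740960) (a (l 16753328) (l 16759792))))))) (a (b (a (l 14) (l 16745920)) (a (l 16748992) (l 16730568))) (b (a (b (l 16749616) (l 16736704)) (b (c (l 16764184) (l 16750624)) (l 16749656))) (a (l 16733096) (l 16746080))))))), by decide +kernel⟩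

def k1_B05pp_022_s1 : ∃ t, chk3 f_B05pp_022_s1 t 33 32 1 = true :=
  ⟨(b (a (a (a (a (l 14) (l 3)) (l 3)) (l 3)) (l 3)) (a (b (b (a (a (a (c (l 520133503) (l 515167871)) (c (l 520162943) (l 515734399))) (c (a (l 520192383) (l 520221567)) (a (l 515763583) (l 515792767)))) (a (a (c (l 520250495) (l 515821951)) (l 3)) (l 3))) (a (a (a (c (l 520719999) (l 516362111)) (c (l 520749695) (l 516391807))) (a (c (l 520779135) (l 516421247)) (c (l 520808319) (l 516450431)))) (a (c (a (l 520837503) (l 520866431)) (a (l 516479615) (l 516508543))) (c (l 520092031) (a (l 516537471) (l 516566399)))))) (a (b (a (b (c (b (l 16767208) (l 16765952)) (b (l 16753992) (l 16752416))) (a (l 16751560) (b (l 16753352) (l 16752168)))) (a (c (l 521356415) (l 517064319)) (c (l 521385599) (l 517093759)))) (b (a (l 16749736) (a (l 16751632) (b (l 16743096) (l 16752240)))) (c (l 16761056) (l 16746920)))) (a (a (b (a (l 517955455) (l 517970047))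 (b (l 16754320) (a (l 16751392) (l 16752056)))) (c (l 521659519) (l 515745919))) (c (b (l 521474943) (l 522049407)) (b (l 515572351) (l 516478847)))))) (a (a (b (b (l 3) (c (l 520957055) (l 516330623))) (c (b (l 521534591) (l 522109055)) (b (l 517242495) (l 517880959)))) (b (l 3) (c (b (l 521593471) (l 522168191)) (b (l 517301631) (l 517940095))))) (b (l 3) (c (a (l 520257151) (l 521388927)) (a (b (l 517359999) (l 517998719)) (b (l 3) (l 518056831)))))))), by decide +kernel⟩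

def k2_B05pp_022_s1 : ∃ t, chk3 f_B05pp_022_s1 t 16 33 1 = true :=
  ⟨(b (a (a (a (b (l 14) (l 16702048)) (b (b (l 16740200) (l 16735360)) (l 16686256))) (a (b (b (l 16724472) (l 16740688)) (l 16712696)) (b (b (a (l 16707368) (l 16730888)) (l 16724952)) (l 16739040)))) (a (b (a (b (c (l 16757512) (l 16732720)) (l 16740576)) (b (a (c (l 16750984) (b (l 16737584) (l 16756104))) (c (b (l 16764888) (l 16762720)) (b (l 16761312) (l 16737616)))) (c (l 16747896) (l 16743560)))) (a (b (l 16746552) (l 16742104)) (b (l 16730704) (l 16747328)))) (b (a (b (a (c (l 522683519) (l 518518143)) (c (l 522742655) (l 518577279))) (a (b (b (l 16751048) (l 16749840)) (l 16748296)) (b (l 520618879) (l 16750704)))) (a (c (l 523056767) (l 517287551)) (c (l 523115135) (l 517882751)))) (a (b (a (l 16734496) (b (l 16748504) (l 16756976))) (l 16731472)) (a (b (b (l 16750992) (l 16748760)) (l 16745840)) (b (l 521756031) (a (l 16747520) (l 16748664))))))))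 (a (a (a (a (l 16666472) (l 16668320)) (l 16693368)) (b (b (l 16708600) (l 16683176)) (l 16718552))) (a (a (b (l 16735552) (l 16727048)) (b (l 16740904) (l 16732576))) (b (a (c (l 16748720) (l 16701584)) (b (l 16742976) (l 16749320))) (a (l 16738016) (l 16722392)))))), by decide +kernel⟩

def k3_B05pp_022_s1 : ∃ t, chk3 f_B05pp_022_s1 t 17 16 1 = true :=
  ⟨(b (a (b (l 3) (a (b (l 3) (a (a (a (b (l 3) (l 519983999)) (l 3)) (l 3)) (l 3))) (l 3))) (l 3)) (a (b (a (a (b (c (a (l 523172991) (l 523230591)) (a (l 518477439) (l 518803583))) (c (a (l 524346751) (l 524314239)) (a (l 520321663) (l 520379775)))) (b (c (a (l 523287935) (l 523345023)) (a (l 519129471) (l 519186559))) (c (a (l 524245887) (l 524177791)) (l 519374719)))) (b (a (c (l 523416447) (l 518183807)) (l 3)) (a (c (l 524068735) (l 520566399)) (c (l 523934079) (l 520682623))))) (a (a (c (b (b (l 16748312) (l 16753800)) (l 16747160)) (b (b (l 16750104) (l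 16751544)) (l 16745504))) (b (c (b (l 523428991) (l 16747064)) (b (l 16749968) (l 16756040))) (b (a (l 16733168) (l 16734880)) (l 16708376)))) (a (b (c (b (l 523301247) (l 522796159)) (l 521635967)) (c (b (l 16756128) (l 16750632)) (b (l 16757024) (l 16753336)))) (b (c (l 521297279) (l 522021503)) (c (l 521861503) (l 523383935)))))) (b (a (b (l 3) (a (c (l 523799423) (l 520797823)) (l 3))) (l 3)) (a (b (a (c (b (l 523045759) (l 522547327)) (l 522039935)) (c (b (l 522953599) (l 522378879)) (l 522238335))) (a (c (a (l 521729151) (l 521595775)) (l 523667839)) (c (l 521554559) (l 523734399)))) (a (b (c (l 522681471) (l 522235775)) (c (l 521581183) (l 523730303))) (b (l 3) (c (l 521639295) (l 523698303)))))))), by decide +kernel⟩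

def k4_B05pp_022_s1 : ∃ t, chk3 f_B05pp_022_s1 t 8 17 1 = true :=
  ⟨(a (a (b (a (b (b (l 16677960) (l 16606896)) (l 16679424)) (b (b (l 16710040) (l 16701776)) (l 16689832))) (a (b (l 16665728) (l 16654104)) (b (l 16674896) (l 16661840)))) (b (b (a (b (l 16721648) (l 16713736)) (b (l 16711912) (l 16725320))) (a (l 16702304) (b (l 16718000) (l 16709384)))) (b (a (l 16688112) (l 16694808)) (a (l 16672368) (l 16674776))))) (b (a (b (a (b (b (l 16723440) (l 16697824)) (l 16711648)) (b (a (b (l 16727312) (l 16743552)) (b (a (l 16729808) (l 16731672)) (l 16725328))) (a (l 16694352) (l 16717936)))) (a (b (l 16723040) (l 16713240)) (b (l 16706792) (l 16717920)))) (b (a (b (a (c (b (l 16732392) (l 16726336)) (b (l 16758168) (l 16753112))) (c (l 520384127) (l 523807359))) (a (b (l 16723568) (l 16697368)) (b (l 16727824) (l 16722200)))) (c (b (a (l 520677759) (l 520737663)) (a (l 520010111) (l 520069503))) (b (l 522465407)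 (l 522510463)))) (a (b (b (b (l 16716272) (l 16692928)) (l 16689296)) (l 16682032)) (b (b (a (l 16721120) (l 16725896)) (a (l 16694600) (l 16699248))) (b (l 16712632) (l 16686808)))))) (a (a (b (l 16698368) (l 16678512)) (b (l 16661280) (l 16683752))) (a (b (c (l 16664288) (l 16713064)) (l 16690688)) (b (b (l 16679864) (l 16712592)) (l 16657232)))))), by decide +kernel⟩

def k5_B05pp_022_s1 : ∃ t, chk3 f_B05pp_022_s1 t 9 8 1 = true :=
  ⟨(b (a (b (l 3) (b (l 3) (a (a (b (l 3) (c (a (l 521729663) (l 3)) (l 523573375))) (l 3)) (l 3)))) (l 3)) (b (a (a (b (a (c (b (l 520072831) (a (l 520161151) (l 520285823))) (b (l 523952767) (l 523191935))) (c (b (l 521193343) (a (l 520446335) (l 520635007))) (b (l 524235647) (l 523478655)))) (b (a (c (l 518449023) (l 522702719)) (c (a (l 520063871) (l 520315775)) (l 523032703))) (a (a (a (l 16715640) (l 16718104)) (l 520855679)) (c (l 520317055) (l 523181951))))) (b (b (l 3) (a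 (c (a (l 520837503) (l 520949631)) (a (l 523767423) (l 523858815))) (l 3))) (a (a (c (l 519493759) (l 523438463)) (l 520687487)) (c (l 520729215) (l 523538559))))) (b (l 3) (a (c (l 519320191) (l 523665791)) (l 3)))) (a (a (b (a (b (a (l 16685720) (l 16711368)) (l 16721000)) (b (a (a (l 16694144) (l 16696728)) (l 16721648)) (a (l 16685376) (l 16711120)))) (a (l 16665968) (b (l 16636688) (l 16712000)))) (b (a (c (l 519815807) (l 523118975)) (l 520768383)) (a (b (b (l 16689320) (l 16642240)) (l 16677256)) (b (l 521705343) (a (l 16724880) (l 16687312)))))) (a (a (b (l 521965439) (l 521790591)) (b (l 522099839) (l 521927807))) (b (c (l 520795007) (l 523612031)) (c (l 520936831) (l 523403135))))))), by decide +kernel⟩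

def k6_B05pp_022_s1 : ∃ t, chk3 f_B05pp_022_s1 t 5 8 1 = true :=
  ⟨(a (b (l 3) (b (l 3) (a (a (b (l 3) (c (l 521330303) (l 523699583))) (l 3)) (l 3)))) (l 3)), by decide +kernel⟩

def k7_B05pp_022_s1 : ∃ t, chk3 f_B05pp_022_s1 t 4 9 1 = true :=
  ⟨(a (a (b (b (a (b (a (l 16639032) (l 16648272)) (l 16619432)) (b (l 16653280) (l 16632848))) (a (b (l 16593160) (l 16482032)) (b (l 16611736) (l 16590040)))) (a (b (l 16439664) (l 16378152)) (b (b (l 16566448) (l 16539760)) (l 16412032)))) (a (b (b (b (l 16619632) (l 16642848)) (b (l 16624296) (l 16605856))) (b (l 16577384) (l 16530712))) (b (b (b (c (l 16589504) (l 16680512)) (l 16658904)) (l 16580368)) (b (l 16596944) (l 16559120))))) (b (a (b (a (b (c (l 16607072) (l 16699264)) (l 16677608)) (b (a (l 16622552) (b (l 16633512) (l 16708880))) (b (l 16697128) (l 16688560)))) (a (b (l 16660136) (l 16642616)) (b (l 16675760) (l 16658624)))) (b (b (a (b (a (c (l 16637600)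 (l 16730048)) (l 16713624)) (a (l 16631856) (b (l 16726568) (l 16721432)))) (c (l 519567487) (l 522495359))) (a (a (l 16703032) (b (l 16714208) (l 16705664))) (b (a (b (l 16725104) (l 16719976)) (l 16689560)) (a (l 16712784) (l 16679288))))) (b (a (l 16605880) (b (a (l 16704280) (l 16711488)) (l 16699624))) (a (l 16673056) (l 16687560))))) (a (b (a (l 16616456) (l 16633136)) (a (l 16581288) (l 16599088))) (b (a (l 16606440) (b (l 16671376) (l 16655168))) (a (l 16615224) (l 16631144)))))), by decide +kernel⟩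

def k8_B05pp_022_s1 : ∃ t, chk3 f_B05pp_022_s1 t 5 9 1 = true :=
  ⟨(b (a (b (a (a (b (c (l 520715647) (l 523537023)) (c (l 521390207) (l 523619967))) (b (c (l 520658047) (l 523928703)) (a (l 522813567) (l 522961023)))) (b (a (b (l 3) (l 523102335)) (l 3)) (a (l 523156863) (l 523426687)))) (b (a (a (a (b (l 16677984) (l 16710328)) (b (l 16728608) (l 16718624))) (c (l 521949823) (l 524013439))) (a (c (l 522290303) (l 524234623)) (c (l 522626175) (l 524440703)))) (a (a (b (a (l 16702008) (l 16709128)) (l 16697552)) (a (b (l 16717064) (l 16707664)) (b (l 16725120) (l 16715280)))) (a (l 522508927) (c (l 522747519) (l 524477823)))))) (b (l 3) (b (a (c (a (l 522964095) (l 523304063)) (a (l 524638847) (l 524829567))) (l 3)) (a (a (c (l 523085439) (l 524680063)) (l 524125567)) (c (l 523656575) (l 525138303)))))) (a (a (b (b (a (l 16685704) (b (l 16671320) (l 16694872))) (a (l 16669784) (l 16683144))) (a (l 16562160) (b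 (l 16667384) (l 16651584)))) (b (b (a (b (a (l 16713384) (l 16721056)) (a (l 16704240) (l 16711424))) (l 522064911)) (a (b (l 16699416) (l 16691680)) (b (a (l 16709392) (l 16716640)) (l 16662200)))) (b (a (l 16680072) (l 16650232)) (a (l 16664472) (l 16676880))))) (b (a (b (a (l 523401855) (l 524208767)) (a (b (l 524008063) (l 16676016)) (c (l 523692671) (l 524934271)))) (b (c (l 522980735) (l 525180799)) (c (a (l 524031871) (l 524385919)) (a (l 525134207) (l 525310591))))) (a (b (b (a (l 16677352) (l 524362367)) (a (l 16700208) (l 16681672))) (a (l 16688816) (b (l 16704304) (l 16696456)))) (b (a (l 523582479) (l 523313935)) (a (b (l 16675048) (l 16708120)) (l 524997759))))))), by decide +kernel⟩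

def k9_B05pp_022_s1 : ∃ t, chk3 f_B05pp_022_s1 t 2 5 1 = true :=
  ⟨(a (b (a (b (b (a (l 16284320) (b (l 16421720) (l 16471104))) (a (b (l 16348696) (b (l 16309840) (b (l 16282768) (l 16262744)))) (b (l 16346296) (b (l 16393160) (b (l 16366864) (l 16263480)))))) (a (a (l 16195728) (l 16237176)) (a (l 16281760) (l 16245536)))) (a (b (b (a (l 16541016) (l 16564592)) (b (a (l 16495560) (l 16530944)) (b (l 16480080) (b (l 16455000) (l 16352328))))) (b (l 16329224) (l 16299888))) (b (b (a (l 16582144) (l 16598608)) (b (l 16564160) (b (l 16545952) (b (l 16527760) (l 16425944))))) (b (l 16488352) (l 16461352))))) (a (a (b (b (l 16164216) (l 16133632)) (l 16093704)) (b (b (l 16259992) (l 16232736)) (l 16029192))) (a (b (b (l 16356736) (l 16248120)) (b (l 16219328) (l 16267904))) (b (b (l 16430888) (l 16311328)) (l 16251248))))) (b (b (b (b (a (a (l 16629024) (l 16602976)) (a (a (l 16673568) (l 16685200)) (a (l 16696272)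 (b (l 16711544) (l 16703344))))) (a (a (l 16613104) (l 16639952)) (a (a (l 16658384) (l 16670152)) (a (l 16681456) (l 16692312))))) (a (b (a (l 16597304) (l 16624696)) (a (b (l 16585424) (b (l 16577384) (a (l 16557400) (l 16580864)))) (b (l 16613320) (b (l 16608056) (l 16604232))))) (b (a (a (l 16643424) (l 16655344)) (a (l 16666752) (l 16677688))) (a (b (l 16638584) (b (l 16633552) (l 16630096))) (b (l 16661600) (b (l 16656664) (l 16653320))))))) (a (a (b (a (l 16537200) (l 16559792)) (l 16512680)) (b (l 16583192) (l 16544136))) (a (b (l 16609416) (l 16571344)) (b (a (l 16627248) (l 16638568)) (l 16596232))))) (a (a (b (l 16454272) (l 16289296)) (b (l 16485720) (l 16323288))) (b (a (l 16514664) (l 16541488)) (a (l 16355112) (l 16385112)))))), by decide +kernel⟩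

def k10_B05pp_022_s1 : ∃ t, chk3 f_B05pp_022_s1 t 2 3 1 = true :=
  ⟨(b (a (a (b (a (b (l 16047568) (l 15914680)) (b (l 15972928) (l 16063688))) (l 6)) (b (a (b (l 16206680) (l 16119296)) (b (l 16251040) (l 16166728))) (a (l 15904984) (l 15874472)))) (b (a (b (a (l 16291920) (l 16329128)) (a (l 16211120) (l 16252240))) (b (a (l 16364504) (l 16398416)) (a (l 16291936) (l 16330536)))) (b (a (l 15987800) (l 148812424503)) (l 6)))) (l 6)), by decide +kernel⟩

def k11_B05pp_022_s1 : ∃ t, chk3 f_B05pp_022_s1 t 3 4 1 = true :=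
  ⟨(b (l 3) (a (b (l 3) (a (b (a (a (b (c (l 524577407) (l 525473407)) (c (l 524717695) (l 525510271))) (b (l 3) (b (l 3) (l 525388159)))) (l 3)) (a (b (a (l 525182591) (l 525450111)) (b (l 525384575) (l 525431167))) (b (b (l 525821311) (l 525870975)) (b (l 525920639) (l 525970559))))) (b (l 3) (a (b (l 3) (b (l 526447231) (l 526500991))) (l 3))))) (l 3))), by decide +kernel⟩

def k12_B05pp_022_s1 : ∃ t, chk3 f_B05pp_022_s1 t 3 5 1 = true :=
  ⟨(a (b (a (b (b (b (b (a (l 525477503) (l 526020479)) (a (a (l 16714544) (l 16725752)) (l 526070399))) (a (a (b (l 16706336) (l 16698976)) (b (l 16717080) (l 16708992))) (b (l 526119807) (a (l 16719176) (l 16729160))))) (a (b (a (l 16688168) (l 16698200)) (b (l 16682576) (b (l 16677616) (a (l 16669128) (l 16679072))))) (a (b (b (l 16711280) (l 16704056)) (b (l 16696968) (b (l 16691912) (l 16688504)))) (b (b (l 16720848) (l 16713256)) (b (l 16706088) (b (l 16700920) (l 16697440)))))))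 (a (b (a (l 16649336) (l 16659576)) (l 16618984)) (b (a (l 16669304) (l 16678544)) (l 16639768)))) (a (b (b (b (b (l 526554751) (l 526608767)) (b (b (l 526652799) (l 526679935)) (l 526715775))) (a (b (b (l 16730192) (l 16722128)) (b (l 16714792) (b (l 16709488) (l 16705920)))) (b (b (l 16739024) (l 16730816)) (b (b (l 16724880) (l 16721216)) (b (l 16717640) (l 16713944)))))) (b (a (l 16687320) (l 16695648)) (l 16658744))) (b (b (b (b (a (l 526956671) (l 3)) (a (l 527014015) (b (l 527262847) (l 527292799)))) (b (a (l 527071359) (l 527336319)) (a (l 527128447) (l 527396479)))) (a (b (b (l 527185279) (l 57008893111)) (b (b (l 16732960) (l 16729096)) (b (l 16725384) (l 16721560)))) (b (b (l 527456383) (l 2)) (l 2)))) (a (b (l 16703560) (l 2)) (l 2))))) (b (a (a (b (l 16583552) (l 16548528)) (b (l 16605840) (l 16572496))) (a (b (l 16626416) (l 2)) (l 2))) (a (a (l 16497344) (l 16524096)) (l 2)))) (b (b (b (b (b (l 3)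 (l 2)) (l 2)) (l 2)) (l 2)) (l 2))), by decide +kernel⟩

def k13_B05pp_022_s1 : ∃ t, chk3 f_B05pp_022_s1 t 3 3 1 = true :=
  ⟨(a (b (b (a (b (a (l 16430920) (l 2)) (l 2)) (l 2)) (l 2)) (l 2)) (l 2)), by decide +kernel⟩

theorem t14_B05pp_022_s1 : ∃ t, chk3 f_B05pp_022_s1 t 3 2 1 = true := ex3_b k11_B05pp_022_s1 k12_B05pp_022_s1

theorem t15_B05pp_022_s1 : ∃ t, chk3 f_B05pp_022_s1 t 3 1 1 = true := ex3_b t14_B05pp_022_s1 k13_B05pp_022_s1

theorem t16_B05pp_022_s1 : ∃ t, chk3 f_B05pp_022_s1 t 2 9 1 = true := ex3_a k7_B05pp_022_s1 k8_B05pp_022_s1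

theorem t17_B05pp_022_s1 : ∃ t, chk3 f_B05pp_022_s1 t 16 32 1 = true := ex3_a k0_B05pp_022_s1 k1_B05pp_022_s1

theorem t18_B05pp_022_s1 : ∃ t, chk3 f_B05pp_022_s1 t 16 16 1 = true := ex3_b t17_B05pp_022_s1 k2_B05pp_022_s1

theorem t19_B05pp_022_s1 : ∃ t, chk3 f_B05pp_022_s1 t 8 16 1 = true := ex3_a t18_B05pp_022_s1 k3_B05pp_022_s1

theorem t20_B05pp_022_s1 : ∃ t, chk3 f_B05pp_022_s1 t 8 8 1 = true := ex3_b t19_B05pp_022_s1 k4_B05pp_022_s1

theorem t21_B05pp_022_s1 : ∃ t, chk3 f_B05pp_022_s1 t 4 8 1 = true := ex3_a t20_B05pp_022_s1 k5_B05pp_022_s1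

theorem t22_B05pp_022_s1 : ∃ t, chk3 f_B05pp_022_s1 t 2 8 1 = true := ex3_a t21_B05pp_022_s1 k6_B05pp_022_s1

theorem t23_B05pp_022_s1 : ∃ t, chk3 f_B05pp_022_s1 t 2 4 1 = true := ex3_b t22_B05pp_022_s1 t16_B05pp_022_s1

theorem t24_B05pp_022_s1 : ∃ t, chk3 f_B05pp_022_s1 t 2 2 1 = true := ex3_b t23_B05pp_022_s1 k9_B05pp_022_s1

theorem t25_B05pp_022_s1 : ∃ t, chk3 f_B05pp_022_s1 t 2 1 1 = true := ex3_b t24_B05pp_022_s1 k10_B05pp_022_s1

theorem t26_B05pp_022_s1 : ∃ t, chk3 f_B05pp_022_s1 t 1 1 1 = true := ex3_a t25_B05pp_022_s1 t15_B05pp_022_s1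

theorem c_B05pp_022_s1 : CertF 0 536870912 1073741824 536870912 991146299 28908434 false true true .pp 0 2 2
    ndB0q0 ndB5q2 pcB2 cut_B05pp_022_s1 xt_B05pp_022_s1 :=
  certF1 (fam := false) (s1 := true) (s2 := true) (a := 0) (b := 2) (c := 2) (cn := .pp) (n1 := ndB0q0) (n2 := ndB5q2) (pc := pcB2) (cut := cut_B05pp_022_s1) (xt := xt_B05pp_022_s1) (P1 := 0) (W1 := 536870912) (P2 := 1073741824) (W2 := 536870912) (P3 := 991146299) (W3 := 28908434)
    rfl (fun _ => rfl) t26_B05pp_022_s1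

theorem s_B05pp_022_s1 {κ x : ℝ} (hκ : κ * h0 = ken x) (hx : ((991146299 : ℕ) : ℝ) / S ≤ x)
    (hx' : x ≤ (((991146299 : ℕ) : ℝ) + (28908434 : ℕ)) / S)
    (H : CutB (VFD κ) PP tK tL pcB (Cut.of [[⟨0, 0, 0, 26843545⟩, ⟨1, 1, 0, 26843545⟩, ⟨2, 1, 0, 26843545⟩]]) 0 2 2 0 5 (sgb true) (sgb true) x) :
    AltB (VFD κ) PP tK tL pcB [⟨3, 0, 0, 1449551462⟩] 0 2 2 0 5 (sgb true) (sgb true) x :=
  strip_altBD (m := 1449551462) true rfl hκ (SH.κ0 hκ (SH.hx1 hx).le (SH.hx2 hx').le) (SH.hx1 hx).le (SH.hx2 hx') (covB00).cov (covB52).cov hx hx' c_B05pp_022_s1 H ((okx hx hx').extB (T := tt) (sideB hx hx') hκ rfl rfl (.O 0 true) (.N 2 true) rfl)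

noncomputable def cut_B05pp_023_s1 : Cut := Cut.of [[⟨4, 0, 0, 1449551462⟩]]

noncomputable def xt_B05pp_023_s1 : Ext := strExt dd false true true .u0 .s2 .u2 .up 0 2 3 rfl rfl gf2 vv ndB0q0 ndB5q3

noncomputable def f_B05pp_023_s1 : ℕ → ℕ → ℕ → ℕ → Bool := onCell 1073741824 536870912 0 1230186008 991146299 28908434
    (rowF 2 false true true .up 0 2 3 (qsf 0 536870912 0 1230186008 2) ndB0q0 ndB5q3 pcB2 cut_B05pp_023_s1 xt_B05pp_023_s1)

def k0_B05pp_023_s1 : ∃ t, chk3 f_B05pp_023_s1 t 1 2 1 = true :=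
  ⟨(a (l 2) (a (l 2) (l 6))), by decide +kernel⟩

def k1_B05pp_023_s1 : ∃ t, chk3 f_B05pp_023_s1 t 4 3 1 = true :=
  ⟨(b (l 2) (b (l 2) (l 3))), by decide +kernel⟩

def k2_B05pp_023_s1 : ∃ t, chk3 f_B05pp_023_s1 t 5 6 1 = true :=
  ⟨(a (l 2) (b (l 2) (a (l 2) (b (l 2) (l 16569024))))), by decide +kernel⟩

def k3_B05pp_023_s1 : ∃ t, chk3 f_B05pp_023_s1 t 10 14 1 = true :=
  ⟨(a (a (l 3) (b (l 2) (b (l 2) (a (l 3) (a (l 529727551) (a (l 529737023) (b (a (b (l 26944186599) (l 16759680)) (l 529857375)) (b (l 16757448) (l 16745560))))))))) (b (l 530827359) (b (l 530231391) (b (l 529900639) (l 529665887))))), by decide +kernel⟩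

def k4_B05pp_023_s1 : ∃ t, chk3 f_B05pp_023_s1 t 20 30 1 = true :=
  ⟨(a (l 3) (a (b (a (l 3) (b (a (l 3) (a (l 3) (l 529383551))) (a (l 3) (l 529140095)))) (a (b (l 3) (l 528606591)) (b (a (l 528871551) (l 528879743)) (a (l 528604799) (l 528341631))))) (a (b (a (b (a (l 529385855) (l 529385343)) (a (l 529135743) (l 529136767))) (b (b (l 529449023) (l 529328255)) (l 529138559))) (a (a (b (l 528875903) (l 528337167)) (l 528738687)) (b (l 528878463) (l 528339839)))) (b (b (b (a (l 529453631) (l 16744016)) (c (l 16754640) (l 16755048))) (b (a (l 16755080) (l 16761448)) (a (l 16742648) (l 16759440)))) (a (b (b (l 16761504) (l 16759216)) (b (l 16756744) (l 16754080))) (b (b (l 16757264) (a (a (a (l 16756800) (a (l 16756392) (l 16756072))) (l 16755352)) (l 16753744))) (a (a (a (b (l 16754288) (l 16751544)) (b (a (l 16753824) (l 16753392)) (l 16750744))) (l 16751152)) (l 16749504)))))))), by decide +kernel⟩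

def k5_B05pp_023_s1 : ∃ t, chk3 f_B05pp_023_s1 t 20 31 1 = true :=
  ⟨(a (b (a (l 3) (a (l 3) (b (l 528054911) (l 528042623)))) (a (a (l 3) (b (l 3) (a (l 3) (l 527458431)))) (b (a (l 527752575) (l 527751295)) (a (a (l 527456383) (l 527454335)) (a (l 527451775) (l 527449215)))))) (b (a (a (b (l 528330623) (l 528044927)) (b (a (l 528328575) (l 528062847)) (a (l 528042367) (l 528042623)))) (a (a (b (a (l 528059151) (l 528328063)) (l 528039695)) (b (l 528060031) (l 527770239))) (a (b (a (l 16750816) (b (l 16750056) (l 16746928))) (a (b (l 16745984) (l 16742456)) (b (l 16743568) (l 16739992)))) (b (b (c (l 16749256) (l 16746160)) (l 16743160)) (a (l 16739184) (l 16736704)))))) (a (a (b (l 527748735) (a (l 527446143) (l 527442815))) (b (a (l 527745919) (l 527743871)) (b (l 16746472) (l 16742176)))) (a (b (a (l 527473167) (b (l 16742312) (l 16738360))) (a (b (l 16739080) (l 16734680)) (b (l 16734192) (l 16729824))))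 (b (a (b (l 16737472) (l 16733536)) (l 16741112)) (a (l 16727328) (l 16722544))))))), by decide +kernel⟩

def k6_B05pp_023_s1 : ∃ t, chk3 f_B05pp_023_s1 t 21 15 1 = true :=
  ⟨(b (b (b (a (a (b (l 16733992) (l 16732152)) (l 16653920)) (l 16713192)) (a (a (b (l 16709184) (l 16707016)) (l 16649408)) (l 16707856))) (a (b (a (b (l 16704672) (l 16702096)) (l 16644168)) (b (l 16690384) (l 16687168))) (b (l 16701768) (l 16610856)))) (b (a (b (a (l 16733160) (l 16714824)) (a (l 16726144) (l 16707208))) (b (l 16686816) (l 16678256))) (a (b (a (l 16718488) (l 16698936)) (l 16700024)) (b (l 16669008) (l 16659016))))), by decide +kernel⟩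

def k7_B05pp_023_s1 : ∃ t, chk3 f_B05pp_023_s1 t 11 7 1 = true :=
  ⟨(b (b (a (l 530948703) (b (l 16642144) (l 16632376))) (b (a (l 529226079) (l 16620320)) (a (l 529544799) (l 16605544)))) (a (b (b (a (l 16592648) (l 16641768)) (a (l 16577976) (l 16624488))) (b (b (l 16545040) (l 16534440)) (b (l 16523112) (l 16511000)))) (b (b (l 16503728) (l 16482168)) (b (l 16456648) (l 16427992))))), by decide +kernel⟩

def k8_B05pp_023_s1 : ∃ t, chk3 f_B05pp_023_s1 t 3 3 1 = true :=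
  ⟨(a (b (b (a (l 2) (b (a (l 2) (l 6)) (l 16572904))) (a (b (a (l 16625568) (l 16586296)) (b (l 16501744) (l 16488920))) (b (l 16438152) (a (l 16499400) (l 6))))) (b (b (a (b (l 16474168) (l 16457032)) (l 16249144)) (b (a (l 16437040) (l 16370592)) (a (l 16413816) (l 16334224)))) (b (a (a (b (l 16511416) (l 16483600)) (l 16244168)) (b (l 16293408) (l 16247608))) (a (b (a (l 16451448) (l 16355456)) (a (l 16416232) (l 16313200))) (b (l 16112616) (l 16060176)))))) (l 6)), by decide +kernel⟩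

theorem t9_B05pp_023_s1 : ∃ t, chk3 f_B05pp_023_s1 t 20 15 1 = true := ex3_b k4_B05pp_023_s1 k5_B05pp_023_s1

theorem t10_B05pp_023_s1 : ∃ t, chk3 f_B05pp_023_s1 t 10 15 1 = true := ex3_a t9_B05pp_023_s1 k6_B05pp_023_s1

theorem t11_B05pp_023_s1 : ∃ t, chk3 f_B05pp_023_s1 t 10 7 1 = true := ex3_b k3_B05pp_023_s1 t10_B05pp_023_s1

theorem t12_B05pp_023_s1 : ∃ t, chk3 f_B05pp_023_s1 t 5 7 1 = true := ex3_a t11_B05pp_023_s1 k7_B05pp_023_s1

theorem t13_B05pp_023_s1 : ∃ t, chk3 f_B05pp_023_s1 t 5 3 1 = true := ex3_b k2_B05pp_023_s1 t12_B05pp_023_s1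

theorem t14_B05pp_023_s1 : ∃ t, chk3 f_B05pp_023_s1 t 2 3 1 = true := ex3_a k1_B05pp_023_s1 t13_B05pp_023_s1

theorem t15_B05pp_023_s1 : ∃ t, chk3 f_B05pp_023_s1 t 1 3 1 = true := ex3_a t14_B05pp_023_s1 k8_B05pp_023_s1

theorem t16_B05pp_023_s1 : ∃ t, chk3 f_B05pp_023_s1 t 1 1 1 = true := ex3_b k0_B05pp_023_s1 t15_B05pp_023_s1

theorem c_B05pp_023_s1 : CertF 0 536870912 0 1230186008 991146299 28908434 false true true .up 0 2 3
    ndB0q0 ndB5q3 pcB2 cut_B05pp_023_s1 xt_B05pp_023_s1 :=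
  certF2 (fam := false) (s1 := true) (s2 := true) (a := 0) (b := 2) (c := 3) (cn := .up) (n1 := ndB0q0) (n2 := ndB5q3) (pc := pcB2) (cut := cut_B05pp_023_s1) (xt := xt_B05pp_023_s1) (P1 := 0) (W1 := 536870912) (P2 := 0) (W2 := 1230186008) (P3 := 991146299) (W3 := 28908434)
    rfl (fun _ => rfl) t16_B05pp_023_s1

theorem s_B05pp_023_s1 {κ x : ℝ} (hκ : κ * h0 = ken x) (hx : ((991146299 : ℕ) : ℝ) / S ≤ x)
    (hx' : x ≤ (((991146299 : ℕ) : ℝ) + (28908434 : ℕ)) / S) :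
    AltB (VFD κ) PP tK tL pcB [⟨3, 0, 0, 1449551462⟩] 0 2 3 0 5 (sgb true) (sgb true) x :=
  strip_altBD (m := 1449551462) true rfl hκ (SH.κ0 hκ (SH.hx1 hx).le (SH.hx2 hx').le) (SH.hx1 hx).le (SH.hx2 hx') (covB00).cov (covB53).cov hx hx' c_B05pp_023_s1 cutB_nil ((okx hx hx').extB (T := tt) (sideB hx hx') hκ rfl rfl (.O 0 true) (.N 3 true) rfl)

noncomputable def cut_B05pp_033_s1 : Cut := Cut.of [[⟨4, 0, 0, 1449551462⟩]]

noncomputable def f_B05pp_033_s1 : ℕ → ℕ → ℕ → ℕ → Bool := onCell 1610612736 536870912 0 1230186008 991146299 28908434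
    (rowF 2 false true true .pnn 0 3 3 (qsf 0 536870912 0 1230186008 3) ndB0q0 ndB5q3 pcB3 cut_B05pp_033_s1 Ext.none)

def k0_B05pp_033_s1 : ∃ t, chk3 f_B05pp_033_s1 t 1 1 1 = true :=
  ⟨(b (l 6) (l 6)), by decide +kernel⟩

theorem c_B05pp_033_s1 : CertF 0 536870912 0 1230186008 991146299 28908434 false true true .pnn 0 3 3
    ndB0q0 ndB5q3 pcB3 cut_B05pp_033_s1 Ext.none :=
  certF2 (fam := false) (s1 := true) (s2 := true) (a := 0) (b := 3) (c := 3) (cn := .pnn) (n1 := ndB0q0) (n2 := ndB5q3) (pc := pcB3) (cut := cut_B05pp_033_s1) (xt := Ext.none) (P1 := 0) (W1 := 536870912) (P2 := 0) (W2 := 1230186008) (P3 := 991146299) (W3 := 28908434)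
    rfl (fun _ => rfl) k0_B05pp_033_s1

theorem s_B05pp_033_s1 {κ x : ℝ} (hκ : κ * h0 = ken x) (hx : ((991146299 : ℕ) : ℝ) / S ≤ x)
    (hx' : x ≤ (((991146299 : ℕ) : ℝ) + (28908434 : ℕ)) / S) :
    AltB (VFD κ) PP tK tL pcB [⟨3, 0, 0, 1449551462⟩] 0 3 3 0 5 (sgb true) (sgb true) x :=
  strip_altBD (m := 1449551462) true rfl hκ (SH.κ0 hκ (SH.hx1 hx).le (SH.hx2 hx').le) (SH.hx1 hx).le (SH.hx2 hx') (covB00).cov (covB53).cov hx hx' c_B05pp_033_s1 cutB_nil (noExt_B)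

noncomputable def cut_B05pp_101_s1 : Cut := Cut.of [[⟨4, 0, 0, 1449551462⟩]]

noncomputable def f_B05pp_101_s1 : ℕ → ℕ → ℕ → ℕ → Bool := onCell 536870912 536870912 536870912 536870912 991146299 28908434
    (rowF 0 false true true .npn 1 0 1 (qsf 536870912 536870912 536870912 536870912 0) ndB0q1 ndB5q1 pcB0 cut_B05pp_101_s1 Ext.none)

def k0_B05pp_101_s1 : ∃ t, chk3 f_B05pp_101_s1 t 1 1 1 = true :=
  ⟨(a (l 3) (l 5)), by decide +kernel⟩

theorem c_B05pp_101_s1 : CertF 536870912 536870912 536870912 536870912 991146299 28908434 false true true .npn 1 0 1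
    ndB0q1 ndB5q1 pcB0 cut_B05pp_101_s1 Ext.none :=
  certF0 (fam := false) (s1 := true) (s2 := true) (a := 1) (b := 0) (c := 1) (cn := .npn) (n1 := ndB0q1) (n2 := ndB5q1) (pc := pcB0) (cut := cut_B05pp_101_s1) (xt := Ext.none) (P1 := 536870912) (W1 := 536870912) (P2 := 536870912) (W2 := 536870912) (P3 := 991146299) (W3 := 28908434)
    rfl k0_B05pp_101_s1

theorem s_B05pp_101_s1 {κ x : ℝ} (hκ : κ * h0 = ken x) (hx : ((991146299 : ℕ) : ℝ) / S ≤ x)
    (hx' : x ≤ (((991146299 : ℕ) : ℝ) + (28908434 : ℕ)) / S) :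
    AltB (VFD κ) PP tK tL pcB [⟨3, 0, 0, 1449551462⟩] 1 0 1 0 5 (sgb true) (sgb true) x :=
  strip_altBD (m := 1449551462) true rfl hκ (SH.κ0 hκ (SH.hx1 hx).le (SH.hx2 hx').le) (SH.hx1 hx).le (SH.hx2 hx') (covB01).cov (covB51).cov hx hx' c_B05pp_101_s1 cutB_nil (noExt_B)

noncomputable def cut_B05pp_102_s1 : Cut := Cut.of [[⟨4, 0, 0, 1449551462⟩]]

noncomputable def f_B05pp_102_s1 : ℕ → ℕ → ℕ → ℕ → Bool := onCell 536870912 536870912 1073741824 536870912 991146299 28908434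
    (rowF 0 false true true .npp 1 0 2 (qsf 536870912 536870912 1073741824 536870912 0) ndB0q1 ndB5q2 pcB0 cut_B05pp_102_s1 Ext.none)

def k0_B05pp_102_s1 : ∃ t, chk3 f_B05pp_102_s1 t 1 1 1 = true :=
  ⟨(a (l 3) (b (l 5) (l 3))), by decide +kernel⟩

theorem c_B05pp_102_s1 : CertF 536870912 536870912 1073741824 536870912 991146299 28908434 false true true .npp 1 0 2
    ndB0q1 ndB5q2 pcB0 cut_B05pp_102_s1 Ext.none :=
  certF0 (fam := false) (s1 := true) (s2 := true) (a := 1) (b := 0) (c := 2) (cn := .npp) (n1 := ndB0q1) (n2 := ndB5q2) (pc := pcB0) (cut := cut_B05pp_102_s1) (xt := Ext.none) (P1 := 536870912) (W1 := 536870912) (P2 := 1073741824) (W2 := 536870912) (P3 := 991146299) (W3 := 28908434)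
    rfl k0_B05pp_102_s1

theorem s_B05pp_102_s1 {κ x : ℝ} (hκ : κ * h0 = ken x) (hx : ((991146299 : ℕ) : ℝ) / S ≤ x)
    (hx' : x ≤ (((991146299 : ℕ) : ℝ) + (28908434 : ℕ)) / S) :
    AltB (VFD κ) PP tK tL pcB [⟨3, 0, 0, 1449551462⟩] 1 0 2 0 5 (sgb true) (sgb true) x :=
  strip_altBD (m := 1449551462) true rfl hκ (SH.κ0 hκ (SH.hx1 hx).le (SH.hx2 hx').le) (SH.hx1 hx).le (SH.hx2 hx') (covB01).cov (covB52).cov hx hx' c_B05pp_102_s1 cutB_nil (noExt_B)

noncomputable def cut_B05pp_112_s1 : Cut := Cut.of [[⟨4, 0, 0, 1449551462⟩]]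

noncomputable def f_B05pp_112_s1 : ℕ → ℕ → ℕ → ℕ → Bool := onCell 536870912 536870912 1073741824 536870912 991146299 28908434
    (rowF 0 false true true .dn 1 1 2 (qsf 536870912 536870912 1073741824 536870912 1) ndB0q1 ndB5q2 pcB1 cut_B05pp_112_s1 Ext.none)

def k0_B05pp_112_s1 : ∃ t, chk3 f_B05pp_112_s1 t 1 1 1 = true :=
  ⟨(a (l 3) (b (l 5) (l 3))), by decide +kernel⟩

theorem c_B05pp_112_s1 : CertF 536870912 536870912 1073741824 536870912 991146299 28908434 false true true .dn 1 1 2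
    ndB0q1 ndB5q2 pcB1 cut_B05pp_112_s1 Ext.none :=
  certF0 (fam := false) (s1 := true) (s2 := true) (a := 1) (b := 1) (c := 2) (cn := .dn) (n1 := ndB0q1) (n2 := ndB5q2) (pc := pcB1) (cut := cut_B05pp_112_s1) (xt := Ext.none) (P1 := 536870912) (W1 := 536870912) (P2 := 1073741824) (W2 := 536870912) (P3 := 991146299) (W3 := 28908434)
    rfl k0_B05pp_112_s1

theorem s_B05pp_112_s1 {κ x : ℝ} (hκ : κ * h0 = ken x) (hx : ((991146299 : ℕ) : ℝ) / S ≤ x)
    (hx' : x ≤ (((991146299 : ℕ) : ℝ) + (28908434 : ℕ)) / S) :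
    AltB (VFD κ) PP tK tL pcB [⟨3, 0, 0, 1449551462⟩] 1 1 2 0 5 (sgb true) (sgb true) x :=
  strip_altBD (m := 1449551462) true rfl hκ (SH.κ0 hκ (SH.hx1 hx).le (SH.hx2 hx').le) (SH.hx1 hx).le (SH.hx2 hx') (covB01).cov (covB52).cov hx hx' c_B05pp_112_s1 cutB_nil (noExt_B)

noncomputable def cut_B05pp_113_s1 : Cut := Cut.of [[⟨4, 0, 0, 1449551462⟩], [⟨0, 1, 0, 37748736⟩, ⟨1, 1, 0, 37748736⟩, ⟨2, 2, 0, 5242880⟩]]

noncomputable def f_B05pp_113_s1 : ℕ → ℕ → ℕ → ℕ → Bool := onCell 536870912 536870912 0 1230186008 991146299 28908434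
    (rowF 2 false true true .nn 1 1 3 (qsf 536870912 536870912 0 1230186008 1) ndB0q1 ndB5q3 pcB1 cut_B05pp_113_s1 Ext.none)

def k0_B05pp_113_s1 : ∃ t, chk3 f_B05pp_113_s1 t 1 1 1 = true :=
  ⟨(b (a (l 2) (a (l 2) (b (a (l 2) (a (l 2) (b (b (l 14) (l 3)) (l 3)))) (l 3)))) (a (a (b (l 2) (b (l 2) (l 3))) (b (b (l 2) (a (l 2) (l 3))) (l 3))) (b (a (l 3) (l 3)) (l 3)))), by decide +kernel⟩

theorem c_B05pp_113_s1 : CertF 536870912 536870912 0 1230186008 991146299 28908434 false true true .nn 1 1 3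
    ndB0q1 ndB5q3 pcB1 cut_B05pp_113_s1 Ext.none :=
  certF2 (fam := false) (s1 := true) (s2 := true) (a := 1) (b := 1) (c := 3) (cn := .nn) (n1 := ndB0q1) (n2 := ndB5q3) (pc := pcB1) (cut := cut_B05pp_113_s1) (xt := Ext.none) (P1 := 536870912) (W1 := 536870912) (P2 := 0) (W2 := 1230186008) (P3 := 991146299) (W3 := 28908434)
    rfl (fun _ => rfl) k0_B05pp_113_s1

theorem s_B05pp_113_s1 {κ x : ℝ} (hκ : κ * h0 = ken x) (hx : ((991146299 : ℕ) : ℝ) / S ≤ x)
    (hx' : x ≤ (((991146299 : ℕ) : ℝ) + (28908434 : ℕ)) / S)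
    (H : CutB (VFD κ) PP tK tL pcB (Cut.of [[⟨0, 1, 0, 37748736⟩, ⟨1, 1, 0, 37748736⟩, ⟨2, 2, 0, 5242880⟩]]) 1 1 3 0 5 (sgb true) (sgb true) x) :
    AltB (VFD κ) PP tK tL pcB [⟨3, 0, 0, 1449551462⟩] 1 1 3 0 5 (sgb true) (sgb true) x :=
  strip_altBD (m := 1449551462) true rfl hκ (SH.κ0 hκ (SH.hx1 hx).le (SH.hx2 hx').le) (SH.hx1 hx).le (SH.hx2 hx') (covB01).cov (covB53).cov hx hx' c_B05pp_113_s1 H (noExt_B)

noncomputable def cut_B05pp_123_s1 : Cut := Cut.of [[⟨4, 0, 0, 1449551462⟩], [⟨0, 1, 0, 37748736⟩, ⟨1, 1, 0, 37748736⟩, ⟨2, 2, 0, 5242880⟩]]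

noncomputable def xt_B05pp_123_s1 : Ext := strExt dd false true true .u0 .s2 .u2 .npn 1 2 3 rfl rfl gf2 vv ndB0q1 ndB5q3

noncomputable def f_B05pp_123_s1 : ℕ → ℕ → ℕ → ℕ → Bool := onCell 1073741824 536870912 0 1230186008 991146299 28908434
    (rowF 2 false true true .npn 1 2 3 (qsf 536870912 536870912 0 1230186008 2) ndB0q1 ndB5q3 pcB2 cut_B05pp_123_s1 xt_B05pp_123_s1)

def k0_B05pp_123_s1 : ∃ t, chk3 f_B05pp_123_s1 t 16 8 1 = true :=
  ⟨(b (l 14) (b (l 14) (l 3))), by decide +kernel⟩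

def k1_B05pp_123_s1 : ∃ t, chk3 f_B05pp_123_s1 t 17 8 1 = true :=
  ⟨(b (a (a (b (l 16628520) (b (l 16661832) (a (b (l 16768120) (l 16754816)) (l 16761504)))) (b (l 16679200) (b (l 16717160) (l 16742152)))) (b (l 16540624) (a (l 16699096) (l 16665160)))) (a (b (a (b (a (b (a (l 16776464) (l 16775752)) (a (b (l 16774416) (a (l 14) (l 16731152))) (l 16774312))) (b (l 16774888) (l 16775384))) (a (b (a (a (l 534740879) (a (l 534576783) (b (l 16752352) (l 534467215)))) (a (b (l 16751648) (l 534327183)) (b (l 16772344) (a (l 16751688) (l 16751120))))) (c (l 532611983) (l 536259215))) (b (a (c (l 16747848) (l 16775400)) (l 16773128)) (b (a (a (b (l 16730040) (l 16751752)) (l 16750368)) (l 16729064)) (a (l 533923215) (c (l 16746608) (l 16764232))))))) (b (a (b (l 16766872) (l 16774528)) (l 16760688)) (a (a (l 16730824) (l 16773824)) (b (l 16774496) (l 16774128))))) (a (b (a (c (l 532552591) (l 536244367)) (a (l 533080607)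 (a (l 533731871) (a (l 533677599) (b (b (l 16729120) (l 16751976)) (l 533641359)))))) (l 3)) (b (a (b (a (b (a (l 16728480) (l 16769800)) (a (l 16750864) (l 16749632))) (b (l 16770624) (l 16727600))) (a (l 533592719) (a (l 533528463) (b (l 16727720) (l 16750216))))) (b (l 16771544) (a (b (l 16727072) (a (l 16727888) (l 16768736))) (l 16769352)))) (a (l 533494671) (a (l 533379215) (b (b (a (l 16726904) (l 16767976)) (a (l 16728528) (l 16727064))) (l 533294479))))))) (b (a (b (l 16740584) (a (l 16727968) (l 16760872))) (l 16640984)) (a (b (a (l 16772344) (l 16773512)) (a (b (a (b (l 16768616) (l 16725832)) (l 16769016)) (a (a (l 533252751) (b (l 16726072) (l 16769712))) (b (l 16767152) (a (l 16726240) (l 16767032))))) (b (l 16770608) (l 16725904)))) (b (a (l 16770048) (l 16761360)) (a (l 16771512) (l 16773088))))))), by decide +kernel⟩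

def k2_B05pp_123_s1 : ∃ t, chk3 f_B05pp_123_s1 t 8 9 1 = true :=
  ⟨(a (l 3) (b (a (a (l 3) (a (l 3) (b (a (l 531648911) (l 532925839)) (l 3)))) (b (a (b (a (l 533155727) (a (b (b (a (l 16683296) (l 16766216)) (b (l 16725720) (l 16726688))) (l 533072783)) (b (b (l 16766736) (l 16724120)) (b (a (l 16767704) (l 16766352)) (l 16747984))))) (c (l 531315855) (l 534814351))) (b (a (a (b (l 16767184) (b (l 16765440) (l 16745224))) (l 16682952)) (l 16768720)) (a (b (a (l 532983439) (b (l 16723312) (l 16724608))) (l 532935567)) (b (a (l 16722776) (l 16765672)) (a (b (l 16723640) (l 16725368)) (b (l 16763960) (l 16722672))))))) (b (a (c (l 531211663) (l 534758799)) (l 531535135)) (a (l 3) (l 531992351))))) (l 3))), by decide +kernel⟩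

def k3_B05pp_123_s1 : ∃ t, chk3 f_B05pp_123_s1 t 8 5 1 = true :=
  ⟨(l 3), by decide +kernel⟩

def k4_B05pp_123_s1 : ∃ t, chk3 f_B05pp_123_s1 t 9 8 1 = true :=
  ⟨(a (b (a (c (l 16478456) (l 16506608)) (b (l 16465704) (l 16530352))) (a (b (l 16507576) (a (b (l 16739624) (l 16722888)) (l 16723576))) (b (l 16601624) (l 16671936)))) (b (a (b (l 16406896) (l 16447752)) (l 16374784)) (a (l 16391960) (l 16480312)))), by decide +kernel⟩

def k5_B05pp_123_s1 : ∃ t, chk3 f_B05pp_123_s1 t 9 9 1 = true :=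
  ⟨(a (b (a (b (a (b (l 16771928) (a (l 16682168) (l 16768632))) (b (l 16765448) (l 16772208))) (a (b (a (b (a (a (l 16744040) (l 16721984)) (l 16763432)) (a (l 532876687) (a (l 16765488) (l 16722352)))) (b (l 16765184) (a (l 16721256) (l 16763512)))) (a (l 532831119) (b (a (l 16723576) (b (l 16762584) (l 16763680))) (l 532883855)))) (a (b (l 16766544) (b (l 16679176) (a (a (l 16680192) (l 16721080)) (l 16762208)))) (l 16682952)))) (b (a (b (l 16740416) (l 16766168)) (l 16723440)) (a (b (l 16772712) (l 16768504)) (b (l 16766480) (l 16770136))))) (a (b (b (a (l 531451423) (a (a (l 532908687) (a (l 532943759) (b (l 16763416) (l 16766944)))) (b (a (l 16720288) (l 16761968)) (a (l 16722744) (b (l 16761616) (l 16762736)))))) (a (l 532167711) (l 532893583))) (a (l 3) (c (l 531142287) (l 534466191)))) (b (a (b (a (b (l 16763968) (l 16677880)) (l 16765400)) (a (b (a (c (l 16756808) (l 16768920)) (l 16761120)) (a (l 16723944)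 (l 16721112))) (b (l 16762296) (a (l 16677256) (l 16760784))))) (b (l 16769192) (l 16765016))) (a (b (a (l 532952463) (a (l 533019791) (b (l 16719376) (l 16763984)))) (l 532386335)) (b (a (a (b (l 16760264) (l 16719592)) (l 16718584)) (l 16762256)) (a (a (l 533027215) (b (l 16761752) (l 16764800))) (b (l 16718096) (b (l 16718680) (l 16719712))))))))) (b (a (b (l 16669392) (a (l 16668792) (l 16721400))) (l 16628224)) (a (b (a (l 16770512) (b (l 16765840) (l 16764992))) (a (b (l 16765928) (a (l 16760720) (l 16763304))) (l 16768760))) (b (a (l 16749928) (l 16714552)) (a (l 16765152) (l 16680592)))))), by decide +kernel⟩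

def k6_B05pp_123_s1 : ∃ t, chk3 f_B05pp_123_s1 t 9 5 1 = true :=
  ⟨(a (a (l 3) (b (b (b (a (c (l 530957087) (l 534448671)) (c (l 531481231) (l 534500495))) (a (l 3) (c (l 531300239) (l 534381711)))) (l 3)) (l 3))) (a (b (b (b (a (b (a (b (a (l 16760144) (l 16759016)) (c (l 16671880) (l 16767728))) (l 16717768)) (a (l 533056399) (b (a (l 16760368) (l 16758720)) (l 16719840)))) (b (l 16763320) (a (l 16727616) (l 16761056)))) (a (c (l 530503567) (l 534412687)) (a (b (b (l 16728496) (l 16678192)) (l 533058703)) (b (b (l 16758528) (l 16674568)) (b (l 16718008) (l 16720248)))))) (b (a (a (l 3) (a (l 531248927) (l 531286559))) (c (l 530367007) (l 534314527))) (a (l 3) (c (l 530715023) (l 533629583))))) (l 3)) (b (b (a (b (l 16766152) (b (l 16761352) (a (l 16726880) (l 16759440)))) (b (l 16764912) (l 16764192))) (a (b (a (a (l 533076111) (b (l 16675928) (l 16743608))) (b (l 16716104) (b (l 16675768) (l 16761920)))) (c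 (l 531817359) (l 534125967))) (b (a (b (l 16758872) (l 16715808)) (l 16759696)) (a (a (l 533063055) (b (l 16759232) (l 16721736))) (b (l 16715496) (l 16739088)))))) (b (a (b (c (l 531648911) (l 534000783)) (l 3)) (b (a (l 532923791) (l 532984719)) (a (l 531703439) (l 532835471)))) (a (l 3) (b (c (l 530842399) (l 532647455)) (l 3))))))), by decide +kernel⟩

def k7_B05pp_123_s1 : ∃ t, chk3 f_B05pp_123_s1 t 5 4 1 = true :=
  ⟨(a (b (a (a (b (l 16325624) (l 16399376)) (b (l 16279976) (a (l 16344408) (a (l 16318800) (b (l 16281000) (l 16331128)))))) (b (l 6) (b (l 16235640) (l 16265816)))) (a (b (a (l 16463416) (a (l 16484416) (a (l 16450800) (l 16424976)))) (a (a (l 16624328) (l 16665296)) (a (l 16619184) (a (l 16580696) (l 16464432))))) (b (l 16358704) (l 16401168)))) (b (l 6) (b (a (l 16084016) (l 6)) (a (l 16390600) (l 16296128))))), by decide +kernel⟩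

def k8_B05pp_123_s1 : ∃ t, chk3 f_B05pp_123_s1 t 5 5 1 = true :=
  ⟨(a (a (a (b (b (b (a (l 16761152) (l 16754776)) (a (l 16765568) (l 16757760))) (a (b (l 16762912) (a (b (l 16758232) (l 16757120)) (l 16759192))) (b (l 16765264) (l 16762376)))) (b (a (b (a (b (l 16717552) (l 533006479)) (b (l 16756848) (l 16716888))) (a (l 532892047) (l 532964895))) (b (a (l 16715424) (l 16759448)) (a (b (l 16758128) (l 16719232)) (b (l 16756896) (l 16757488))))) (a (b (a (l 532472463) (a (l 532792463) (l 532824607))) (a (l 3) (c (b (l 531883407) (l 531790479)) (b (l 533491599) (l 533428111))))) (b (a (c (l 531632527) (l 533531535)) (b (l 16759904) (l 532845711))) (a (b (l 532723343) (l 532643983)) (l 532758303)))))) (b (b (a (b (l 16713936) (l 16675064)) (a (l 16701752) (a (l 16673232) (l 16652592)))) (a (b (l 16756160) (l 16763528)) (b (a (l 16757864) (a (l 16751472) (l 16731224))) (a (l 16755840) (a (l 16753264) (l 16672504))))))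 (b (a (b (l 16762896) (a (l 16758488) (l 16760808))) (a (b (l 16762704) (l 16763560)) (a (l 16760712) (b (l 16754504) (l 16759776))))) (a (a (a (b (l 16737600) (l 532782223)) (b (l 16736488) (l 532803215))) (b (l 16716400) (b (l 16758232) (l 16739104)))) (a (b (l 16761480) (a (l 16737640) (l 16760472))) (b (a (l 16764632) (l 16765104)) (a (l 16763304) (l 16765416)))))))) (b (b (a (l 16624352) (l 16584120)) (a (b (l 16704936) (l 16751344)) (l 16696512))) (b (b (a (l 16752632) (l 16753768)) (l 16757432)) (a (b (l 16760800) (l 16758944)) (l 16748112))))) (b (b (a (l 16439600) (l 16440760)) (a (l 16603648) (l 16490816))) (b (a (b (l 16723848) (l 16741144)) (b (l 16664112) (l 16711856))) (a (l 16734104) (l 16717472))))), by decide +kernel⟩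

def k9_B05pp_123_s1 : ∃ t, chk3 f_B05pp_123_s1 t 3 2 1 = true :=
  ⟨(a (b (l 6) (a (b (a (b (l 6) (l 16501632)) (l 6)) (b (a (l 16628304) (l 16562160)) (a (l 16694560) (l 16660416)))) (l 6))) (l 6)), by decide +kernel⟩

def k10_B05pp_123_s1 : ∃ t, chk3 f_B05pp_123_s1 t 4 6 1 = true :=
  ⟨(l 3), by decide +kernel⟩

def k11_B05pp_123_s1 : ∃ t, chk3 f_B05pp_123_s1 t 40 6 1 = true :=
  ⟨(b (b (a (l 3) (b (a (c (l 531842191) (l 533216143)) (l 532057631)) (a (l 3) (b (l 532433039) (l 3))))) (l 3)) (l 3)), by decide +kernel⟩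

def k12_B05pp_123_s1 : ∃ t, chk3 f_B05pp_123_s1 t 82 6 1 = true :=
  ⟨(b (b (b (a (a (l 532614799) (l 532633743)) (a (l 532675615) (l 531893791))) (a (b (l 532511519) (l 532423711)) (b (l 530943775) (c (l 532179743) (l 532758047))))) (b (a (a (l 3) (l 532297503)) (a (l 531778847) (b (l 532078479) (l 531981967)))) (a (l 3) (b (a (l 532147343) (l 531613839)) (b (l 531029535) (l 3)))))) (l 3)), by decide +kernel⟩

def k13_B05pp_123_s1 : ∃ t, chk3 f_B05pp_123_s1 t 83 12 1 = true :=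
  ⟨(a (a (b (b (b (l 16759336) (l 16761632)) (b (l 16722408) (l 532495391))) (b (a (b (l 532389263) (l 532292239)) (l 532358031)) (a (b (l 532192399) (l 531015055)) (b (l 532209039) (l 532104591))))) (b (b (b (l 16759384) (l 16760008)) (b (l 16761816) (l 16764256))) (b (b (l 16766680) (l 16758480)) (b (c (l 16760440) (l 16760824)) (l 532125327))))) (b (b (a (l 16741296) (b (l 16764808) (l 16764456))) (b (a (a (l 16760736) (l 16762256)) (l 16764144)) (a (a (l 16762336) (l 16741312)) (l 16763864)))) (b (a (b (a (l 16764648) (l 16742608)) (l 16766224)) (a (a (b (a (l 16763504) (l 16765008)) (a (l 16764744) (a (l 16764832) (l 16744368)))) (l 16755064)) (l 16754168))) (b (a (l 16757840) (a (a (b (a (l 16766256) (a (l 16766000) (l 16765896))) (l 16767088)) (l 16765968)) (l 16764968))) (b (l 16757920) (a (l 16770744) (l 16767920))))))), by decide +kernel⟩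

def k14_B05pp_123_s1 : ∃ t, chk3 f_B05pp_123_s1 t 83 13 1 = true :=
  ⟨(a (b (a (l 531828815) (l 531313743)) (l 3)) (b (a (b (b (a (l 532036431) (l 532047759)) (l 531930447)) (l 531753295)) (a (b (b (l 16759432) (b (l 16771128) (l 16771880))) (b (b (l 16772592) (l 16768008)) (a (l 531704111) (b (l 16773488) (l 16768808))))) (b (b (l 16768488) (l 16759568)) (l 531778399)))) (b (a (l 531497039) (a (a (l 531508271) (b (b (b (l 16774448) (l 16774688)) (b (l 16774920) (l 16775136))) (b (b (l 16770096) (b (l 16775488) (l 16775576))) (b (b (l 16775664) (l 16775752)) (b (l 16775832) (l 16775912)))))) (l 531519327))) (a (a (l 3) (l 531217487)) (a (a (l 531223343) (b (b (b (b (l 16773360) (l 16773432)) (b (a (l 16773696) (l 16775920)) (b (l 16776168) (l 16776200)))) (a (a (l 531263791) (b (b (l 16776344) (l 16776400)) (a (l 531245871) (b (l 16776400) (l 16776448))))) (l 531266143))) (a (a (l 531150383) (b (a (l 531189551)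 (b (b (l 16776496) (l 16776536)) (b (l 16776568) (a (l 531161135) (l 16776576))))) (b (b (b (l 16776672) (l 16776688)) (b (l 16776696) (l 16776712))) (b (b (l 16776720) (l 16776728)) (b (l 16776736) (l 16776744)))))) (b (l 531191135) (l 531114079))))) (l 531233119)))))), by decide +kernel⟩

def k15_B05pp_123_s1 : ∃ t, chk3 f_B05pp_123_s1 t 21 6 1 = true :=
  ⟨(b (a (b (b (l 16757384) (a (l 16760232) (l 16751832))) (b (b (l 16755120) (l 16733552)) (a (b (l 16738192) (l 16739576)) (b (l 16749144) (l 16749736))))) (b (b (l 16743056) (l 16740120)) (b (l 16737384) (l 16651144)))) (b (b (a (a (b (a (l 16743984) (l 16759352)) (l 532004959)) (l 16709776)) (l 16651624)) (l 531932255)) (l 531504735))), by decide +kernel⟩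

def k16_B05pp_123_s1 : ∃ t, chk3 f_B05pp_123_s1 t 11 6 1 = true :=
  ⟨(b (a (b (a (l 16727960) (l 16715632)) (b (l 16713824) (l 16624736))) (b (l 16699056) (l 16680688))) (b (a (b (l 16621312) (l 16619984)) (l 16580728)) (a (l 531695199) (b (l 16656184) (l 16649904))))), by decide +kernel⟩

def k17_B05pp_123_s1 : ∃ t, chk3 f_B05pp_123_s1 t 3 6 1 = true :=
  ⟨(a (b (a (b (l 16584568) (a (l 16651520) (l 16621888))) (b (a (l 16631328) (l 6)) (l 16488536))) (a (b (a (l 16541664) (l 16586120)) (a (l 16520016) (l 16552744))) (b (l 16268888) (l 1)))) (l 6)), by decide +kernel⟩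

def k18_B05pp_123_s1 : ∃ t, chk3 f_B05pp_123_s1 t 1 7 1 = true :=
  ⟨(a (a (b (l 3) (l 3)) (b (a (a (a (l 3) (a (l 3) (a (b (l 3) (b (l 530149695) (l 529727551))) (b (b (a (l 3) (b (a (a (l 530990127) (b (a (a (l 531032623) (b (b (b (l 16776752) (l 16776752)) (b (l 16776760) (l 16776760))) (b (b (l 16776760) (l 16776760)) (b (l 16776760) (l 16776760))))) (l 531034975)) (a (a (l 530951471) (b (b (b (l 16776760) (l 16776752)) (b (l 16776752) (l 16776744))) (b (b (l 16776736) (l 16776728)) (b (l 16776720) (l 16776712))))) (l 530953823)))) (l 530998623)) (a (a (l 530823727) (a (a (l 530825519) (b (b (b (b (l 16776696) (l 16776680)) (b (l 16776672) (l 16776656))) (a (l 530847791) (c (l 16776544) (l 16776576)))) (b (a (l 530805039) (b (a (l 16776520) (l 16776472)) (l 16776448))) (c (l 16776400) (l 16776440))))) (b (l 530870367) (l 530784863)))) (l 530831455)))) (a (l 530281023) (a (a (l 530556207) (b (a (a (l 530650159)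 (b (b (b (l 16776328) (l 16776264)) (b (l 16776192) (l 16776120))) (b (b (l 16776032) (l 16775944)) (b (l 16775856) (l 16775752))))) (b (l 530697055) (l 530606943))) (b (b (b (l 16775544) (l 16775432)) (b (l 16775320) (l 16775200))) (b (b (l 16775072) (l 16774936)) (l 16769488))))) (l 530562911)))) (a (b (l 530162751) (l 529737023)) (b (a (a (l 530167855) (b (b (b (l 16769184) (l 16774104)) (b (l 16773752) (l 16773384))) (b (b (l 16772976) (l 16772552)) (l 16771856)))) (l 530173279)) (b (b (b (l 16760144) (l 16770088)) (l 1)) (l 1)))))))) (b (l 530827359) (b (l 530231391) (b (l 529900639) (l 1))))) (b (a (l 530948703) (b (l 16641968) (l 1))) (l 1))) (a (a (a (b (l 3) (l 1)) (l 1)) (l 1)) (l 1)))) (l 1)), by decide +kernel⟩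

theorem t19_B05pp_123_s1 : ∃ t, chk3 f_B05pp_123_s1 t 83 6 1 = true := ex3_b k13_B05pp_123_s1 k14_B05pp_123_s1

theorem t20_B05pp_123_s1 : ∃ t, chk3 f_B05pp_123_s1 t 41 6 1 = true := ex3_a k12_B05pp_123_s1 t19_B05pp_123_s1

theorem t21_B05pp_123_s1 : ∃ t, chk3 f_B05pp_123_s1 t 20 6 1 = true := ex3_a k11_B05pp_123_s1 t20_B05pp_123_s1

theorem t22_B05pp_123_s1 : ∃ t, chk3 f_B05pp_123_s1 t 10 6 1 = true := ex3_a t21_B05pp_123_s1 k15_B05pp_123_s1

theorem t23_B05pp_123_s1 : ∃ t, chk3 f_B05pp_123_s1 t 5 6 1 = true := ex3_a t22_B05pp_123_s1 k16_B05pp_123_s1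

theorem t24_B05pp_123_s1 : ∃ t, chk3 f_B05pp_123_s1 t 2 6 1 = true := ex3_a k10_B05pp_123_s1 t23_B05pp_123_s1

theorem t25_B05pp_123_s1 : ∃ t, chk3 f_B05pp_123_s1 t 1 6 1 = true := ex3_a t24_B05pp_123_s1 k17_B05pp_123_s1

theorem t26_B05pp_123_s1 : ∃ t, chk3 f_B05pp_123_s1 t 1 3 1 = true := ex3_b t25_B05pp_123_s1 k18_B05pp_123_s1

theorem t27_B05pp_123_s1 : ∃ t, chk3 f_B05pp_123_s1 t 5 2 1 = true := ex3_b k7_B05pp_123_s1 k8_B05pp_123_s1

theorem t28_B05pp_123_s1 : ∃ t, chk3 f_B05pp_123_s1 t 9 4 1 = true := ex3_b k4_B05pp_123_s1 k5_B05pp_123_s1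

theorem t29_B05pp_123_s1 : ∃ t, chk3 f_B05pp_123_s1 t 9 2 1 = true := ex3_b t28_B05pp_123_s1 k6_B05pp_123_s1

theorem t30_B05pp_123_s1 : ∃ t, chk3 f_B05pp_123_s1 t 8 8 1 = true := ex3_a k0_B05pp_123_s1 k1_B05pp_123_s1

theorem t31_B05pp_123_s1 : ∃ t, chk3 f_B05pp_123_s1 t 8 4 1 = true := ex3_b t30_B05pp_123_s1 k2_B05pp_123_s1

theorem t32_B05pp_123_s1 : ∃ t, chk3 f_B05pp_123_s1 t 8 2 1 = true := ex3_b t31_B05pp_123_s1 k3_B05pp_123_s1

theorem t33_B05pp_123_s1 : ∃ t, chk3 f_B05pp_123_s1 t 4 2 1 = true := ex3_a t32_B05pp_123_s1 t29_B05pp_123_s1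

theorem t34_B05pp_123_s1 : ∃ t, chk3 f_B05pp_123_s1 t 2 2 1 = true := ex3_a t33_B05pp_123_s1 t27_B05pp_123_s1

theorem t35_B05pp_123_s1 : ∃ t, chk3 f_B05pp_123_s1 t 1 2 1 = true := ex3_a t34_B05pp_123_s1 k9_B05pp_123_s1

theorem t36_B05pp_123_s1 : ∃ t, chk3 f_B05pp_123_s1 t 1 1 1 = true := ex3_b t35_B05pp_123_s1 t26_B05pp_123_s1

theorem c_B05pp_123_s1 : CertF 536870912 536870912 0 1230186008 991146299 28908434 false true true .npn 1 2 3
    ndB0q1 ndB5q3 pcB2 cut_B05pp_123_s1 xt_B05pp_123_s1 :=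
  certF2 (fam := false) (s1 := true) (s2 := true) (a := 1) (b := 2) (c := 3) (cn := .npn) (n1 := ndB0q1) (n2 := ndB5q3) (pc := pcB2) (cut := cut_B05pp_123_s1) (xt := xt_B05pp_123_s1) (P1 := 536870912) (W1 := 536870912) (P2 := 0) (W2 := 1230186008) (P3 := 991146299) (W3 := 28908434)
    rfl (fun _ => rfl) t36_B05pp_123_s1

theorem s_B05pp_123_s1 {κ x : ℝ} (hκ : κ * h0 = ken x) (hx : ((991146299 : ℕ) : ℝ) / S ≤ x)
    (hx' : x ≤ (((991146299 : ℕ) : ℝ) + (28908434 : ℕ)) / S)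
    (H : CutB (VFD κ) PP tK tL pcB (Cut.of [[⟨0, 1, 0, 37748736⟩, ⟨1, 1, 0, 37748736⟩, ⟨2, 2, 0, 5242880⟩]]) 1 2 3 0 5 (sgb true) (sgb true) x) :
    AltB (VFD κ) PP tK tL pcB [⟨3, 0, 0, 1449551462⟩] 1 2 3 0 5 (sgb true) (sgb true) x :=
  strip_altBD (m := 1449551462) true rfl hκ (SH.κ0 hκ (SH.hx1 hx).le (SH.hx2 hx').le) (SH.hx1 hx).le (SH.hx2 hx') (covB01).cov (covB53).cov hx hx' c_B05pp_123_s1 H ((okx hx hx').extB (T := tt) (sideB hx hx') hκ rfl rfl (.O 1 true) (.N 3 true) rfl)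

noncomputable def cut_B05pp_133_s1 : Cut := Cut.of [[⟨4, 0, 0, 1449551462⟩]]

noncomputable def f_B05pp_133_s1 : ℕ → ℕ → ℕ → ℕ → Bool := onCell 1610612736 536870912 0 1230186008 991146299 28908434
    (rowF 2 false true true .dn 1 3 3 (qsf 536870912 536870912 0 1230186008 3) ndB0q1 ndB5q3 pcB3 cut_B05pp_133_s1 Ext.none)

def k0_B05pp_133_s1 : ∃ t, chk3 f_B05pp_133_s1 t 1 1 1 = true :=
  ⟨(b (l 6) (l 1)), by decide +kernel⟩

theorem c_B05pp_133_s1 : CertF 536870912 536870912 0 1230186008 991146299 28908434 false true true .dn 1 3 3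
    ndB0q1 ndB5q3 pcB3 cut_B05pp_133_s1 Ext.none :=
  certF2 (fam := false) (s1 := true) (s2 := true) (a := 1) (b := 3) (c := 3) (cn := .dn) (n1 := ndB0q1) (n2 := ndB5q3) (pc := pcB3) (cut := cut_B05pp_133_s1) (xt := Ext.none) (P1 := 536870912) (W1 := 536870912) (P2 := 0) (W2 := 1230186008) (P3 := 991146299) (W3 := 28908434)
    rfl (fun _ => rfl) k0_B05pp_133_s1

theorem s_B05pp_133_s1 {κ x : ℝ} (hκ : κ * h0 = ken x) (hx : ((991146299 : ℕ) : ℝ) / S ≤ x)
    (hx' : x ≤ (((991146299 : ℕ) : ℝ) + (28908434 : ℕ)) / S) :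
    AltB (VFD κ) PP tK tL pcB [⟨3, 0, 0, 1449551462⟩] 1 3 3 0 5 (sgb true) (sgb true) x :=
  strip_altBD (m := 1449551462) true rfl hκ (SH.κ0 hκ (SH.hx1 hx).le (SH.hx2 hx').le) (SH.hx1 hx).le (SH.hx2 hx') (covB01).cov (covB53).cov hx hx' c_B05pp_133_s1 cutB_nil (noExt_B)

noncomputable def cut_B05pp_202_s1 : Cut := Cut.of [[⟨4, 0, 0, 1449551462⟩]]

noncomputable def f_B05pp_202_s1 : ℕ → ℕ → ℕ → ℕ → Bool := onCell 0 536870912 1073741824 536870912 991146299 28908434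
    (rowF 0 false true true .pp 2 0 2 (qsf 0 536870912 1073741824 536870912 0) ndB0q2 ndB5q2 pcB0 cut_B05pp_202_s1 Ext.none)

def k0_B05pp_202_s1 : ∃ t, chk3 f_B05pp_202_s1 t 1 1 1 = true :=
  ⟨(l 5), by decide +kernel⟩

theorem c_B05pp_202_s1 : CertF 0 536870912 1073741824 536870912 991146299 28908434 false true true .pp 2 0 2
    ndB0q2 ndB5q2 pcB0 cut_B05pp_202_s1 Ext.none :=
  certF0 (fam := false) (s1 := true) (s2 := true) (a := 2) (b := 0) (c := 2) (cn := .pp) (n1 := ndB0q2) (n2 := ndB5q2) (pc := pcB0) (cut := cut_B05pp_202_s1) (xt := Ext.none) (P1 := 0) (W1 := 536870912) (P2 := 1073741824) (W2 := 536870912) (P3 := 991146299) (W3 := 28908434)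
    rfl k0_B05pp_202_s1

theorem s_B05pp_202_s1 {κ x : ℝ} (hκ : κ * h0 = ken x) (hx : ((991146299 : ℕ) : ℝ) / S ≤ x)
    (hx' : x ≤ (((991146299 : ℕ) : ℝ) + (28908434 : ℕ)) / S) :
    AltB (VFD κ) PP tK tL pcB [⟨3, 0, 0, 1449551462⟩] 2 0 2 0 5 (sgb true) (sgb true) x :=
  strip_altBD (m := 1449551462) true rfl hκ (SH.κ0 hκ (SH.hx1 hx).le (SH.hx2 hx').le) (SH.hx1 hx).le (SH.hx2 hx') (covB02).cov (covB52).cov hx hx' c_B05pp_202_s1 cutB_nil (noExt_B)

noncomputable def cut_B05pp_203_s1 : Cut := Cut.of [[⟨4, 0, 0, 1449551462⟩]]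

noncomputable def f_B05pp_203_s1 : ℕ → ℕ → ℕ → ℕ → Bool := onCell 0 536870912 0 1230186008 991146299 28908434
    (rowF 0 false true true .up 2 0 3 (qsf 0 536870912 0 1230186008 0) ndB0q2 ndB5q3 pcB0 cut_B05pp_203_s1 Ext.none)

def k0_B05pp_203_s1 : ∃ t, chk3 f_B05pp_203_s1 t 1 1 1 = true :=
  ⟨(b (l 2) (b (l 2) (a (l 5) (l 3)))), by decide +kernel⟩

theorem c_B05pp_203_s1 : CertF 0 536870912 0 1230186008 991146299 28908434 false true true .up 2 0 3
    ndB0q2 ndB5q3 pcB0 cut_B05pp_203_s1 Ext.none :=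
  certF0 (fam := false) (s1 := true) (s2 := true) (a := 2) (b := 0) (c := 3) (cn := .up) (n1 := ndB0q2) (n2 := ndB5q3) (pc := pcB0) (cut := cut_B05pp_203_s1) (xt := Ext.none) (P1 := 0) (W1 := 536870912) (P2 := 0) (W2 := 1230186008) (P3 := 991146299) (W3 := 28908434)
    rfl k0_B05pp_203_s1

theorem s_B05pp_203_s1 {κ x : ℝ} (hκ : κ * h0 = ken x) (hx : ((991146299 : ℕ) : ℝ) / S ≤ x)
    (hx' : x ≤ (((991146299 : ℕ) : ℝ) + (28908434 : ℕ)) / S) :
    AltB (VFD κ) PP tK tL pcB [⟨3, 0, 0, 1449551462⟩] 2 0 3 0 5 (sgb true) (sgb true) x :=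
  strip_altBD (m := 1449551462) true rfl hκ (SH.κ0 hκ (SH.hx1 hx).le (SH.hx2 hx').le) (SH.hx1 hx).le (SH.hx2 hx') (covB02).cov (covB53).cov hx hx' c_B05pp_203_s1 cutB_nil (noExt_B)

noncomputable def cut_B05pp_213_s1 : Cut := Cut.of [[⟨4, 0, 0, 1449551462⟩], [⟨0, 1, 0, 37748736⟩, ⟨1, 1, 0, 37748736⟩, ⟨2, 2, 0, 5242880⟩]]

noncomputable def f_B05pp_213_s1 : ℕ → ℕ → ℕ → ℕ → Bool := onCell 0 536870912 0 1230186008 991146299 28908434
    (rowF 0 false true true .pnn 2 1 3 (qsf 0 536870912 0 1230186008 1) ndB0q2 ndB5q3 pcB1 cut_B05pp_213_s1 Ext.none)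

def k0_B05pp_213_s1 : ∃ t, chk3 f_B05pp_213_s1 t 1 1 1 = true :=
  ⟨(a (b (l 3) (l 5)) (b (b (a (l 3) (b (a (l 3) (b (a (l 3) (l 14)) (l 3))) (l 3))) (l 3)) (b (l 3) (l 3)))), by decide +kernel⟩

theorem c_B05pp_213_s1 : CertF 0 536870912 0 1230186008 991146299 28908434 false true true .pnn 2 1 3
    ndB0q2 ndB5q3 pcB1 cut_B05pp_213_s1 Ext.none :=
  certF0 (fam := false) (s1 := true) (s2 := true) (a := 2) (b := 1) (c := 3) (cn := .pnn) (n1 := ndB0q2) (n2 := ndB5q3) (pc := pcB1) (cut := cut_B05pp_213_s1) (xt := Ext.none) (P1 := 0) (W1 := 536870912) (P2 := 0) (W2 := 1230186008) (P3 := 991146299) (W3 := 28908434)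
    rfl k0_B05pp_213_s1

theorem s_B05pp_213_s1 {κ x : ℝ} (hκ : κ * h0 = ken x) (hx : ((991146299 : ℕ) : ℝ) / S ≤ x)
    (hx' : x ≤ (((991146299 : ℕ) : ℝ) + (28908434 : ℕ)) / S)
    (H : CutB (VFD κ) PP tK tL pcB (Cut.of [[⟨0, 1, 0, 37748736⟩, ⟨1, 1, 0, 37748736⟩, ⟨2, 2, 0, 5242880⟩]]) 2 1 3 0 5 (sgb true) (sgb true) x) :
    AltB (VFD κ) PP tK tL pcB [⟨3, 0, 0, 1449551462⟩] 2 1 3 0 5 (sgb true) (sgb true) x :=
  strip_altBD (m := 1449551462) true rfl hκ (SH.κ0 hκ (SH.hx1 hx).le (SH.hx2 hx').le) (SH.hx1 hx).le (SH.hx2 hx') (covB02).cov (covB53).cov hx hx' c_B05pp_213_s1 H (noExt_B)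

noncomputable def cut_B05pm_001_s1 : Cut := Cut.of [[⟨4, 0, 0, 1449551462⟩]]

noncomputable def f_B05pm_001_s1 : ℕ → ℕ → ℕ → ℕ → Bool := onCell 0 536870912 536870912 536870912 991146299 28908434
    (rowF 0 false true false .up 0 0 1 (qsf 0 536870912 536870912 536870912 0) ndB0q0 ndB5q1 pcB0 cut_B05pm_001_s1 Ext.none)

def k0_B05pm_001_s1 : ∃ t, chk3 f_B05pm_001_s1 t 1 1 1 = true :=
  ⟨(l 4), by decide +kernel⟩

theorem c_B05pm_001_s1 : CertF 0 536870912 536870912 536870912 991146299 28908434 false true false .up 0 0 1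
    ndB0q0 ndB5q1 pcB0 cut_B05pm_001_s1 Ext.none :=
  certF0 (fam := false) (s1 := true) (s2 := false) (a := 0) (b := 0) (c := 1) (cn := .up) (n1 := ndB0q0) (n2 := ndB5q1) (pc := pcB0) (cut := cut_B05pm_001_s1) (xt := Ext.none) (P1 := 0) (W1 := 536870912) (P2 := 536870912) (W2 := 536870912) (P3 := 991146299) (W3 := 28908434)
    rfl k0_B05pm_001_s1

theorem s_B05pm_001_s1 {κ x : ℝ} (hκ : κ * h0 = ken x) (hx : ((991146299 : ℕ) : ℝ) / S ≤ x)
    (hx' : x ≤ (((991146299 : ℕ) : ℝ) + (28908434 : ℕ)) / S) :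
    AltB (VFD κ) PP tK tL pcB [⟨3, 0, 0, 1449551462⟩] 0 0 1 0 5 (sgb true) (sgb false) x :=
  strip_altBD (m := 1449551462) true rfl hκ (SH.κ0 hκ (SH.hx1 hx).le (SH.hx2 hx').le) (SH.hx1 hx).le (SH.hx2 hx') (covB00).cov (covB51).cov hx hx' c_B05pm_001_s1 cutB_nil (noExt_B)

noncomputable def cut_B05pm_011_s1 : Cut := Cut.of [[⟨4, 0, 0, 1449551462⟩]]

noncomputable def f_B05pm_011_s1 : ℕ → ℕ → ℕ → ℕ → Bool := onCell 0 536870912 536870912 536870912 991146299 28908434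
    (rowF 0 false true false .pnn 0 1 1 (qsf 0 536870912 536870912 536870912 1) ndB0q0 ndB5q1 pcB1 cut_B05pm_011_s1 Ext.none)

def k0_B05pm_011_s1 : ∃ t, chk3 f_B05pm_011_s1 t 1 1 1 = true :=
  ⟨(l 4), by decide +kernel⟩

theorem c_B05pm_011_s1 : CertF 0 536870912 536870912 536870912 991146299 28908434 false true false .pnn 0 1 1
    ndB0q0 ndB5q1 pcB1 cut_B05pm_011_s1 Ext.none :=
  certF0 (fam := false) (s1 := true) (s2 := false) (a := 0) (b := 1) (c := 1) (cn := .pnn) (n1 := ndB0q0) (n2 := ndB5q1) (pc := pcB1) (cut := cut_B05pm_011_s1) (xt := Ext.none) (P1 := 0) (W1 := 536870912) (P2 := 536870912) (W2 := 536870912) (P3 := 991146299) (W3 := 28908434)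
    rfl k0_B05pm_011_s1

theorem s_B05pm_011_s1 {κ x : ℝ} (hκ : κ * h0 = ken x) (hx : ((991146299 : ℕ) : ℝ) / S ≤ x)
    (hx' : x ≤ (((991146299 : ℕ) : ℝ) + (28908434 : ℕ)) / S) :
    AltB (VFD κ) PP tK tL pcB [⟨3, 0, 0, 1449551462⟩] 0 1 1 0 5 (sgb true) (sgb false) x :=
  strip_altBD (m := 1449551462) true rfl hκ (SH.κ0 hκ (SH.hx1 hx).le (SH.hx2 hx').le) (SH.hx1 hx).le (SH.hx2 hx') (covB00).cov (covB51).cov hx hx' c_B05pm_011_s1 cutB_nil (noExt_B)

noncomputable def cut_B05pm_012_s1 : Cut := Cut.of [[⟨4, 0, 0, 1449551462⟩]]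

noncomputable def f_B05pm_012_s1 : ℕ → ℕ → ℕ → ℕ → Bool := onCell 0 536870912 1073741824 536870912 991146299 28908434
    (rowF 0 false true false .pnp 0 1 2 (qsf 0 536870912 1073741824 536870912 1) ndB0q0 ndB5q2 pcB1 cut_B05pm_012_s1 Ext.none)

def k0_B05pm_012_s1 : ∃ t, chk3 f_B05pm_012_s1 t 1 1 1 = true :=
  ⟨(l 4), by decide +kernel⟩

theorem c_B05pm_012_s1 : CertF 0 536870912 1073741824 536870912 991146299 28908434 false true false .pnp 0 1 2
    ndB0q0 ndB5q2 pcB1 cut_B05pm_012_s1 Ext.none :=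
  certF0 (fam := false) (s1 := true) (s2 := false) (a := 0) (b := 1) (c := 2) (cn := .pnp) (n1 := ndB0q0) (n2 := ndB5q2) (pc := pcB1) (cut := cut_B05pm_012_s1) (xt := Ext.none) (P1 := 0) (W1 := 536870912) (P2 := 1073741824) (W2 := 536870912) (P3 := 991146299) (W3 := 28908434)
    rfl k0_B05pm_012_s1

theorem s_B05pm_012_s1 {κ x : ℝ} (hκ : κ * h0 = ken x) (hx : ((991146299 : ℕ) : ℝ) / S ≤ x)
    (hx' : x ≤ (((991146299 : ℕ) : ℝ) + (28908434 : ℕ)) / S) :
    AltB (VFD κ) PP tK tL pcB [⟨3, 0, 0, 1449551462⟩] 0 1 2 0 5 (sgb true) (sgb false) x :=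
  strip_altBD (m := 1449551462) true rfl hκ (SH.κ0 hκ (SH.hx1 hx).le (SH.hx2 hx').le) (SH.hx1 hx).le (SH.hx2 hx') (covB00).cov (covB52).cov hx hx' c_B05pm_012_s1 cutB_nil (noExt_B)

noncomputable def cut_B05pm_022_s1 : Cut := Cut.of [[⟨4, 0, 0, 1449551462⟩]]

noncomputable def f_B05pm_022_s1 : ℕ → ℕ → ℕ → ℕ → Bool := onCell 0 536870912 1073741824 536870912 991146299 28908434
    (rowF 0 false true false .pp 0 2 2 (qsf 0 536870912 1073741824 536870912 2) ndB0q0 ndB5q2 pcB2 cut_B05pm_022_s1 Ext.none)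

def k0_B05pm_022_s1 : ∃ t, chk3 f_B05pm_022_s1 t 1 1 1 = true :=
  ⟨(l 4), by decide +kernel⟩

theorem c_B05pm_022_s1 : CertF 0 536870912 1073741824 536870912 991146299 28908434 false true false .pp 0 2 2
    ndB0q0 ndB5q2 pcB2 cut_B05pm_022_s1 Ext.none :=
  certF0 (fam := false) (s1 := true) (s2 := false) (a := 0) (b := 2) (c := 2) (cn := .pp) (n1 := ndB0q0) (n2 := ndB5q2) (pc := pcB2) (cut := cut_B05pm_022_s1) (xt := Ext.none) (P1 := 0) (W1 := 536870912) (P2 := 1073741824) (W2 := 536870912) (P3 := 991146299) (W3 := 28908434)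
    rfl k0_B05pm_022_s1

theorem s_B05pm_022_s1 {κ x : ℝ} (hκ : κ * h0 = ken x) (hx : ((991146299 : ℕ) : ℝ) / S ≤ x)
    (hx' : x ≤ (((991146299 : ℕ) : ℝ) + (28908434 : ℕ)) / S) :
    AltB (VFD κ) PP tK tL pcB [⟨3, 0, 0, 1449551462⟩] 0 2 2 0 5 (sgb true) (sgb false) x :=
  strip_altBD (m := 1449551462) true rfl hκ (SH.κ0 hκ (SH.hx1 hx).le (SH.hx2 hx').le) (SH.hx1 hx).le (SH.hx2 hx') (covB00).cov (covB52).cov hx hx' c_B05pm_022_s1 cutB_nil (noExt_B)

noncomputable def cut_B05pm_023_s1 : Cut := Cut.of [[⟨4, 0, 0, 1449551462⟩]]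

noncomputable def f_B05pm_023_s1 : ℕ → ℕ → ℕ → ℕ → Bool := onCell 0 536870912 0 1230186008 991146299 28908434
    (rowF 0 false true false .up 0 2 3 (qsf 0 536870912 0 1230186008 2) ndB0q0 ndB5q3 pcB2 cut_B05pm_023_s1 Ext.none)

def k0_B05pm_023_s1 : ∃ t, chk3 f_B05pm_023_s1 t 1 1 1 = true :=
  ⟨(l 6), by decide +kernel⟩

theorem c_B05pm_023_s1 : CertF 0 536870912 0 1230186008 991146299 28908434 false true false .up 0 2 3
    ndB0q0 ndB5q3 pcB2 cut_B05pm_023_s1 Ext.none :=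
  certF0 (fam := false) (s1 := true) (s2 := false) (a := 0) (b := 2) (c := 3) (cn := .up) (n1 := ndB0q0) (n2 := ndB5q3) (pc := pcB2) (cut := cut_B05pm_023_s1) (xt := Ext.none) (P1 := 0) (W1 := 536870912) (P2 := 0) (W2 := 1230186008) (P3 := 991146299) (W3 := 28908434)
    rfl k0_B05pm_023_s1

theorem s_B05pm_023_s1 {κ x : ℝ} (hκ : κ * h0 = ken x) (hx : ((991146299 : ℕ) : ℝ) / S ≤ x)
    (hx' : x ≤ (((991146299 : ℕ) : ℝ) + (28908434 : ℕ)) / S) :
    AltB (VFD κ) PP tK tL pcB [⟨3, 0, 0, 1449551462⟩] 0 2 3 0 5 (sgb true) (sgb false) x :=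
  strip_altBD (m := 1449551462) true rfl hκ (SH.κ0 hκ (SH.hx1 hx).le (SH.hx2 hx').le) (SH.hx1 hx).le (SH.hx2 hx') (covB00).cov (covB53).cov hx hx' c_B05pm_023_s1 cutB_nil (noExt_B)

noncomputable def cut_B05pm_033_s1 : Cut := Cut.of [[⟨4, 0, 0, 1449551462⟩]]

noncomputable def f_B05pm_033_s1 : ℕ → ℕ → ℕ → ℕ → Bool := onCell 0 536870912 0 1230186008 991146299 28908434
    (rowF 0 false true false .pnn 0 3 3 (qsf 0 536870912 0 1230186008 3) ndB0q0 ndB5q3 pcB3 cut_B05pm_033_s1 Ext.none)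

def k0_B05pm_033_s1 : ∃ t, chk3 f_B05pm_033_s1 t 1 1 1 = true :=
  ⟨(l 6), by decide +kernel⟩

theorem c_B05pm_033_s1 : CertF 0 536870912 0 1230186008 991146299 28908434 false true false .pnn 0 3 3
    ndB0q0 ndB5q3 pcB3 cut_B05pm_033_s1 Ext.none :=
  certF0 (fam := false) (s1 := true) (s2 := false) (a := 0) (b := 3) (c := 3) (cn := .pnn) (n1 := ndB0q0) (n2 := ndB5q3) (pc := pcB3) (cut := cut_B05pm_033_s1) (xt := Ext.none) (P1 := 0) (W1 := 536870912) (P2 := 0) (W2 := 1230186008) (P3 := 991146299) (W3 := 28908434)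
    rfl k0_B05pm_033_s1

theorem s_B05pm_033_s1 {κ x : ℝ} (hκ : κ * h0 = ken x) (hx : ((991146299 : ℕ) : ℝ) / S ≤ x)
    (hx' : x ≤ (((991146299 : ℕ) : ℝ) + (28908434 : ℕ)) / S) :
    AltB (VFD κ) PP tK tL pcB [⟨3, 0, 0, 1449551462⟩] 0 3 3 0 5 (sgb true) (sgb false) x :=
  strip_altBD (m := 1449551462) true rfl hκ (SH.κ0 hκ (SH.hx1 hx).le (SH.hx2 hx').le) (SH.hx1 hx).le (SH.hx2 hx') (covB00).cov (covB53).cov hx hx' c_B05pm_033_s1 cutB_nil (noExt_B)

noncomputable def cut_B05pm_101_s1 : Cut := Cut.of [[⟨4, 0, 0, 1449551462⟩]]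

noncomputable def f_B05pm_101_s1 : ℕ → ℕ → ℕ → ℕ → Bool := onCell 536870912 536870912 536870912 536870912 991146299 28908434
    (rowF 0 false true false .npn 1 0 1 (qsf 536870912 536870912 536870912 536870912 0) ndB0q1 ndB5q1 pcB0 cut_B05pm_101_s1 Ext.none)

def k0_B05pm_101_s1 : ∃ t, chk3 f_B05pm_101_s1 t 1 1 1 = true :=
  ⟨(l 4), by decide +kernel⟩

theorem c_B05pm_101_s1 : CertF 536870912 536870912 536870912 536870912 991146299 28908434 false true false .npn 1 0 1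
    ndB0q1 ndB5q1 pcB0 cut_B05pm_101_s1 Ext.none :=
  certF0 (fam := false) (s1 := true) (s2 := false) (a := 1) (b := 0) (c := 1) (cn := .npn) (n1 := ndB0q1) (n2 := ndB5q1) (pc := pcB0) (cut := cut_B05pm_101_s1) (xt := Ext.none) (P1 := 536870912) (W1 := 536870912) (P2 := 536870912) (W2 := 536870912) (P3 := 991146299) (W3 := 28908434)
    rfl k0_B05pm_101_s1

theorem s_B05pm_101_s1 {κ x : ℝ} (hκ : κ * h0 = ken x) (hx : ((991146299 : ℕ) : ℝ) / S ≤ x)
    (hx' : x ≤ (((991146299 : ℕ) : ℝ) + (28908434 : ℕ)) / S) :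
    AltB (VFD κ) PP tK tL pcB [⟨3, 0, 0, 1449551462⟩] 1 0 1 0 5 (sgb true) (sgb false) x :=
  strip_altBD (m := 1449551462) true rfl hκ (SH.κ0 hκ (SH.hx1 hx).le (SH.hx2 hx').le) (SH.hx1 hx).le (SH.hx2 hx') (covB01).cov (covB51).cov hx hx' c_B05pm_101_s1 cutB_nil (noExt_B)

noncomputable def cut_B05pm_102_s1 : Cut := Cut.of [[⟨4, 0, 0, 1449551462⟩]]

noncomputable def f_B05pm_102_s1 : ℕ → ℕ → ℕ → ℕ → Bool := onCell 536870912 536870912 1073741824 536870912 991146299 28908434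
    (rowF 0 false true false .npp 1 0 2 (qsf 536870912 536870912 1073741824 536870912 0) ndB0q1 ndB5q2 pcB0 cut_B05pm_102_s1 Ext.none)

def k0_B05pm_102_s1 : ∃ t, chk3 f_B05pm_102_s1 t 1 1 1 = true :=
  ⟨(l 6), by decide +kernel⟩

theorem c_B05pm_102_s1 : CertF 536870912 536870912 1073741824 536870912 991146299 28908434 false true false .npp 1 0 2
    ndB0q1 ndB5q2 pcB0 cut_B05pm_102_s1 Ext.none :=
  certF0 (fam := false) (s1 := true) (s2 := false) (a := 1) (b := 0) (c := 2) (cn := .npp) (n1 := ndB0q1) (n2 := ndB5q2) (pc := pcB0) (cut := cut_B05pm_102_s1) (xt := Ext.none) (P1 := 536870912) (W1 := 536870912) (P2 := 1073741824) (W2 := 536870912) (P3 := 991146299) (W3 := 28908434)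
    rfl k0_B05pm_102_s1

theorem s_B05pm_102_s1 {κ x : ℝ} (hκ : κ * h0 = ken x) (hx : ((991146299 : ℕ) : ℝ) / S ≤ x)
    (hx' : x ≤ (((991146299 : ℕ) : ℝ) + (28908434 : ℕ)) / S) :
    AltB (VFD κ) PP tK tL pcB [⟨3, 0, 0, 1449551462⟩] 1 0 2 0 5 (sgb true) (sgb false) x :=
  strip_altBD (m := 1449551462) true rfl hκ (SH.κ0 hκ (SH.hx1 hx).le (SH.hx2 hx').le) (SH.hx1 hx).le (SH.hx2 hx') (covB01).cov (covB52).cov hx hx' c_B05pm_102_s1 cutB_nil (noExt_B)

noncomputable def cut_B05pm_112_s1 : Cut := Cut.of [[⟨4, 0, 0, 1449551462⟩]]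

noncomputable def f_B05pm_112_s1 : ℕ → ℕ → ℕ → ℕ → Bool := onCell 536870912 536870912 1073741824 536870912 991146299 28908434
    (rowF 0 false true false .dn 1 1 2 (qsf 536870912 536870912 1073741824 536870912 1) ndB0q1 ndB5q2 pcB1 cut_B05pm_112_s1 Ext.none)

def k0_B05pm_112_s1 : ∃ t, chk3 f_B05pm_112_s1 t 1 1 1 = true :=
  ⟨(l 6), by decide +kernel⟩

theorem c_B05pm_112_s1 : CertF 536870912 536870912 1073741824 536870912 991146299 28908434 false true false .dn 1 1 2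
    ndB0q1 ndB5q2 pcB1 cut_B05pm_112_s1 Ext.none :=
  certF0 (fam := false) (s1 := true) (s2 := false) (a := 1) (b := 1) (c := 2) (cn := .dn) (n1 := ndB0q1) (n2 := ndB5q2) (pc := pcB1) (cut := cut_B05pm_112_s1) (xt := Ext.none) (P1 := 536870912) (W1 := 536870912) (P2 := 1073741824) (W2 := 536870912) (P3 := 991146299) (W3 := 28908434)
    rfl k0_B05pm_112_s1

theorem s_B05pm_112_s1 {κ x : ℝ} (hκ : κ * h0 = ken x) (hx : ((991146299 : ℕ) : ℝ) / S ≤ x)
    (hx' : x ≤ (((991146299 : ℕ) : ℝ) + (28908434 : ℕ)) / S) :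
    AltB (VFD κ) PP tK tL pcB [⟨3, 0, 0, 1449551462⟩] 1 1 2 0 5 (sgb true) (sgb false) x :=
  strip_altBD (m := 1449551462) true rfl hκ (SH.κ0 hκ (SH.hx1 hx).le (SH.hx2 hx').le) (SH.hx1 hx).le (SH.hx2 hx') (covB01).cov (covB52).cov hx hx' c_B05pm_112_s1 cutB_nil (noExt_B)

noncomputable def cut_B05pm_113_s1 : Cut := Cut.of [[⟨4, 0, 0, 1449551462⟩], [⟨0, 1, 0, 37748736⟩, ⟨1, 1, 0, 37748736⟩, ⟨2, 2, 0, 5242880⟩]]

noncomputable def f_B05pm_113_s1 : ℕ → ℕ → ℕ → ℕ → Bool := onCell 536870912 536870912 0 1230186008 991146299 28908434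
    (rowF 0 false true false .nn 1 1 3 (qsf 536870912 536870912 0 1230186008 1) ndB0q1 ndB5q3 pcB1 cut_B05pm_113_s1 Ext.none)

def k0_B05pm_113_s1 : ∃ t, chk3 f_B05pm_113_s1 t 1 1 1 = true :=
  ⟨(b (a (l 2) (a (l 2) (b (a (l 2) (a (l 2) (b (b (l 14) (a (l 2) (b (l 14) (l 16598160)))) (b (a (l 2) (l 16558040)) (a (l 16461696) (b (l 16529968) (l 16539448))))))) (a (l 6) (b (b (a (l 6) (l 16586648)) (l 6)) (l 6)))))) (b (l 6) (l 6))), by decide +kernel⟩

theorem c_B05pm_113_s1 : CertF 536870912 536870912 0 1230186008 991146299 28908434 false true false .nn 1 1 3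
    ndB0q1 ndB5q3 pcB1 cut_B05pm_113_s1 Ext.none :=
  certF0 (fam := false) (s1 := true) (s2 := false) (a := 1) (b := 1) (c := 3) (cn := .nn) (n1 := ndB0q1) (n2 := ndB5q3) (pc := pcB1) (cut := cut_B05pm_113_s1) (xt := Ext.none) (P1 := 536870912) (W1 := 536870912) (P2 := 0) (W2 := 1230186008) (P3 := 991146299) (W3 := 28908434)
    rfl k0_B05pm_113_s1

theorem s_B05pm_113_s1 {κ x : ℝ} (hκ : κ * h0 = ken x) (hx : ((991146299 : ℕ) : ℝ) / S ≤ x)
    (hx' : x ≤ (((991146299 : ℕ) : ℝ) + (28908434 : ℕ)) / S)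
    (H : CutB (VFD κ) PP tK tL pcB (Cut.of [[⟨0, 1, 0, 37748736⟩, ⟨1, 1, 0, 37748736⟩, ⟨2, 2, 0, 5242880⟩]]) 1 1 3 0 5 (sgb true) (sgb false) x) :
    AltB (VFD κ) PP tK tL pcB [⟨3, 0, 0, 1449551462⟩] 1 1 3 0 5 (sgb true) (sgb false) x :=
  strip_altBD (m := 1449551462) true rfl hκ (SH.κ0 hκ (SH.hx1 hx).le (SH.hx2 hx').le) (SH.hx1 hx).le (SH.hx2 hx') (covB01).cov (covB53).cov hx hx' c_B05pm_113_s1 H (noExt_B)

noncomputable def cut_B05pm_123_s1 : Cut := Cut.of [[⟨4, 0, 0, 1449551462⟩], [⟨0, 1, 0, 37748736⟩, ⟨1, 1, 0, 37748736⟩, ⟨2, 2, 0, 5242880⟩]]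

noncomputable def f_B05pm_123_s1 : ℕ → ℕ → ℕ → ℕ → Bool := onCell 1073741824 536870912 0 1230186008 991146299 28908434
    (rowF 2 false true false .npn 1 2 3 (qsf 536870912 536870912 0 1230186008 2) ndB0q1 ndB5q3 pcB2 cut_B05pm_123_s1 Ext.none)

def k0_B05pm_123_s1 : ∃ t, chk3 f_B05pm_123_s1 t 1 1 1 = true :=
  ⟨(b (a (b (a (b (a (a (b (l 14) (b (l 14) (a (l 16497368) (l 16538904)))) (b (a (b (b (l 16575072) (l 16547768)) (c (l 16581632) (l 16554992))) (b (l 16399096) (l 16555896))) (a (l 16388952) (l 16506832)))) (a (b (a (l 16341344) (l 16459784)) (l 16258496)) (a (l 16335200) (l 16365032)))) (a (a (b (a (a (l 16508144) (l 16534072)) (b (l 16571632) (l 16601496))) (b (a (l 16484288) (l 16626000)) (l 6))) (b (a (l 16439504) (l 16542816)) (l 6))) (l 6))) (b (l 6) (l 6))) (b (l 6) (l 6))) (l 6)) (l 6)), by decide +kernel⟩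

theorem c_B05pm_123_s1 : CertF 536870912 536870912 0 1230186008 991146299 28908434 false true false .npn 1 2 3
    ndB0q1 ndB5q3 pcB2 cut_B05pm_123_s1 Ext.none :=
  certF2 (fam := false) (s1 := true) (s2 := false) (a := 1) (b := 2) (c := 3) (cn := .npn) (n1 := ndB0q1) (n2 := ndB5q3) (pc := pcB2) (cut := cut_B05pm_123_s1) (xt := Ext.none) (P1 := 536870912) (W1 := 536870912) (P2 := 0) (W2 := 1230186008) (P3 := 991146299) (W3 := 28908434)
    rfl (fun _ => rfl) k0_B05pm_123_s1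

theorem s_B05pm_123_s1 {κ x : ℝ} (hκ : κ * h0 = ken x) (hx : ((991146299 : ℕ) : ℝ) / S ≤ x)
    (hx' : x ≤ (((991146299 : ℕ) : ℝ) + (28908434 : ℕ)) / S)
    (H : CutB (VFD κ) PP tK tL pcB (Cut.of [[⟨0, 1, 0, 37748736⟩, ⟨1, 1, 0, 37748736⟩, ⟨2, 2, 0, 5242880⟩]]) 1 2 3 0 5 (sgb true) (sgb false) x) :
    AltB (VFD κ) PP tK tL pcB [⟨3, 0, 0, 1449551462⟩] 1 2 3 0 5 (sgb true) (sgb false) x :=
  strip_altBD (m := 1449551462) true rfl hκ (SH.κ0 hκ (SH.hx1 hx).le (SH.hx2 hx').le) (SH.hx1 hx).le (SH.hx2 hx') (covB01).cov (covB53).cov hx hx' c_B05pm_123_s1 H (noExt_B)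

noncomputable def cut_B05pm_133_s1 : Cut := Cut.of [[⟨4, 0, 0, 1449551462⟩]]

noncomputable def f_B05pm_133_s1 : ℕ → ℕ → ℕ → ℕ → Bool := onCell 1610612736 536870912 0 1230186008 991146299 28908434
    (rowF 2 false true false .dn 1 3 3 (qsf 536870912 536870912 0 1230186008 3) ndB0q1 ndB5q3 pcB3 cut_B05pm_133_s1 Ext.none)

def k0_B05pm_133_s1 : ∃ t, chk3 f_B05pm_133_s1 t 1 1 1 = true :=
  ⟨(l 6), by decide +kernel⟩

theorem c_B05pm_133_s1 : CertF 536870912 536870912 0 1230186008 991146299 28908434 false true false .dn 1 3 3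
    ndB0q1 ndB5q3 pcB3 cut_B05pm_133_s1 Ext.none :=
  certF2 (fam := false) (s1 := true) (s2 := false) (a := 1) (b := 3) (c := 3) (cn := .dn) (n1 := ndB0q1) (n2 := ndB5q3) (pc := pcB3) (cut := cut_B05pm_133_s1) (xt := Ext.none) (P1 := 536870912) (W1 := 536870912) (P2 := 0) (W2 := 1230186008) (P3 := 991146299) (W3 := 28908434)
    rfl (fun _ => rfl) k0_B05pm_133_s1

theorem s_B05pm_133_s1 {κ x : ℝ} (hκ : κ * h0 = ken x) (hx : ((991146299 : ℕ) : ℝ) / S ≤ x)
    (hx' : x ≤ (((991146299 : ℕ) : ℝ) + (28908434 : ℕ)) / S) :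
    AltB (VFD κ) PP tK tL pcB [⟨3, 0, 0, 1449551462⟩] 1 3 3 0 5 (sgb true) (sgb false) x :=
  strip_altBD (m := 1449551462) true rfl hκ (SH.κ0 hκ (SH.hx1 hx).le (SH.hx2 hx').le) (SH.hx1 hx).le (SH.hx2 hx') (covB01).cov (covB53).cov hx hx' c_B05pm_133_s1 cutB_nil (noExt_B)

noncomputable def cut_B05pm_202_s1 : Cut := Cut.of [[⟨4, 0, 0, 1449551462⟩]]

noncomputable def f_B05pm_202_s1 : ℕ → ℕ → ℕ → ℕ → Bool := onCell 0 536870912 1073741824 536870912 991146299 28908434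
    (rowF 0 false true false .pp 2 0 2 (qsf 0 536870912 1073741824 536870912 0) ndB0q2 ndB5q2 pcB0 cut_B05pm_202_s1 Ext.none)

def k0_B05pm_202_s1 : ∃ t, chk3 f_B05pm_202_s1 t 1 1 1 = true :=
  ⟨(a (b (l 6) (b (l 6) (l 6))) (l 6)), by decide +kernel⟩

theorem c_B05pm_202_s1 : CertF 0 536870912 1073741824 536870912 991146299 28908434 false true false .pp 2 0 2
    ndB0q2 ndB5q2 pcB0 cut_B05pm_202_s1 Ext.none :=
  certF0 (fam := false) (s1 := true) (s2 := false) (a := 2) (b := 0) (c := 2) (cn := .pp) (n1 := ndB0q2) (n2 := ndB5q2) (pc := pcB0) (cut := cut_B05pm_202_s1) (xt := Ext.none) (P1 := 0) (W1 := 536870912) (P2 := 1073741824) (W2 := 536870912) (P3 := 991146299) (W3 := 28908434)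
    rfl k0_B05pm_202_s1

theorem s_B05pm_202_s1 {κ x : ℝ} (hκ : κ * h0 = ken x) (hx : ((991146299 : ℕ) : ℝ) / S ≤ x)
    (hx' : x ≤ (((991146299 : ℕ) : ℝ) + (28908434 : ℕ)) / S) :
    AltB (VFD κ) PP tK tL pcB [⟨3, 0, 0, 1449551462⟩] 2 0 2 0 5 (sgb true) (sgb false) x :=
  strip_altBD (m := 1449551462) true rfl hκ (SH.κ0 hκ (SH.hx1 hx).le (SH.hx2 hx').le) (SH.hx1 hx).le (SH.hx2 hx') (covB02).cov (covB52).cov hx hx' c_B05pm_202_s1 cutB_nil (noExt_B)

noncomputable def cut_B05pm_203_s1 : Cut := Cut.of [[⟨4, 0, 0, 1449551462⟩]]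

noncomputable def f_B05pm_203_s1 : ℕ → ℕ → ℕ → ℕ → Bool := onCell 0 536870912 0 1230186008 991146299 28908434
    (rowF 0 false true false .up 2 0 3 (qsf 0 536870912 0 1230186008 0) ndB0q2 ndB5q3 pcB0 cut_B05pm_203_s1 Ext.none)

def k0_B05pm_203_s1 : ∃ t, chk3 f_B05pm_203_s1 t 1 1 1 = true :=
  ⟨(b (l 2) (b (l 2) (a (b (b (l 2) (b (a (l 2) (l 2)) (a (a (a (l 16541968) (b (l 16588472) (l 16570256))) (l 16429496)) (l 6)))) (a (b (a (b (a (b (l 16592432) (l 16574688)) (l 16540656)) (a (l 16545720) (l 16504280))) (b (l 16474480) (l 6))) (a (b (l 16405400) (c (l 16482808) (l 16411648))) (l 6))) (l 6))) (l 6)))), by decide +kernel⟩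

theorem c_B05pm_203_s1 : CertF 0 536870912 0 1230186008 991146299 28908434 false true false .up 2 0 3
    ndB0q2 ndB5q3 pcB0 cut_B05pm_203_s1 Ext.none :=
  certF0 (fam := false) (s1 := true) (s2 := false) (a := 2) (b := 0) (c := 3) (cn := .up) (n1 := ndB0q2) (n2 := ndB5q3) (pc := pcB0) (cut := cut_B05pm_203_s1) (xt := Ext.none) (P1 := 0) (W1 := 536870912) (P2 := 0) (W2 := 1230186008) (P3 := 991146299) (W3 := 28908434)
    rfl k0_B05pm_203_s1

theorem s_B05pm_203_s1 {κ x : ℝ} (hκ : κ * h0 = ken x) (hx : ((991146299 : ℕ) : ℝ) / S ≤ x)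
    (hx' : x ≤ (((991146299 : ℕ) : ℝ) + (28908434 : ℕ)) / S) :
    AltB (VFD κ) PP tK tL pcB [⟨3, 0, 0, 1449551462⟩] 2 0 3 0 5 (sgb true) (sgb false) x :=
  strip_altBD (m := 1449551462) true rfl hκ (SH.κ0 hκ (SH.hx1 hx).le (SH.hx2 hx').le) (SH.hx1 hx).le (SH.hx2 hx') (covB02).cov (covB53).cov hx hx' c_B05pm_203_s1 cutB_nil (noExt_B)

noncomputable def cut_B05pm_213_s1 : Cut := Cut.of [[⟨4, 0, 0, 1449551462⟩], [⟨0, 1, 0, 37748736⟩, ⟨1, 1, 0, 37748736⟩, ⟨2, 2, 0, 5242880⟩]]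

noncomputable def xt_B05pm_213_s1 : Ext := strExt dd false true false .u2 .s2m .u0m .pnn 2 1 3 rfl rfl gf1 vv ndB0q2 ndB5q3

noncomputable def f_B05pm_213_s1 : ℕ → ℕ → ℕ → ℕ → Bool := onCell 0 536870912 0 1230186008 991146299 28908434
    (rowF 0 false true false .pnn 2 1 3 (qsf 0 536870912 0 1230186008 1) ndB0q2 ndB5q3 pcB1 cut_B05pm_213_s1 xt_B05pm_213_s1)

def k0_B05pm_213_s1 : ∃ t, chk3 f_B05pm_213_s1 t 1 2 1 = true :=
  ⟨(a (b (l 3) (a (l 3) (b (l 3) (a (b (l 3) (a (l 3) (l 532845839))) (b (l 533075727) (a (l 532841743) (l 532787215))))))) (b (a (b (l 3) (a (l 3) (a (l 3) (b (l 3) (a (l 532513295) (l 532341775)))))) (b (a (a (l 3) (a (l 3) (b (l 3) (b (l 3) (a (l 531671311) (l 531497231)))))) (b (a (a (l 3) (l 14)) (l 14)) (b (a (a (a (l 531607567) (l 530127119)) (l 14)) (l 14)) (a (a (a (l 531026959) (b (l 531638287) (l 16705496))) (a (b (l 16728752) (l 16734864)) (l 16645632))) (a (l 16625712) (l 16682888))))))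 (a (b (a (a (l 532173327) (l 531549711)) (a (a (l 531824655) (l 531839247)) (a (l 531857935) (l 531880975)))) (a (a (b (l 532216079) (l 532298255)) (b (l 532327951) (l 16721496))) (b (a (l 16694232) (l 16701488)) (l 16647688)))) (a (a (b (b (a (l 531823887) (l 16725448)) (l 16703608)) (l 16624736)) (b (b (l 16623304) (l 16680600)) (l 16645304))) (a (b (a (l 16676208) (l 16663248)) (l 16622064)) (b (l 16559600) (l 16599656))))))) (a (b (a (b (a (l 3) (l 532225551)) (a (l 533076495) (l 532805135))) (a (b (l 532679695) (a (l 532572943) (l 532406287))) (b (a (l 532429839) (l 532297487)) (b (l 16688016) (l 16653128))))) (a (b (a (l 532844815) (l 532339471)) (a (l 532670479) (l 532479759))) (b (a (b (l 16677008) (l 16642928)) (l 16595656)) (a (l 16589000) (l 16514032))))) (b (a (b (a (a (l 532236303) (l 16674576)) (b (l 16669648) (l 16636336))) (a (l 16610408) (l 16563256))) (b (a (b (l 16625232) (l 16612984)) (b (l 16599640)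 (l 16622288))) (a (l 16601960) (l 16680464)))) (a (b (a (l 16520656) (l 16445936)) (a (l 16419920) (l 6))) (b (l 6) (l 6))))))), by decide +kernel⟩

def k1_B05pm_213_s1 : ∃ t, chk3 f_B05pm_213_s1 t 1 3 1 = true :=
  ⟨(b (a (b (a (b (l 3) (a (l 3) (a (l 3) (b (l 531650319) (l 530937359))))) (a (b (a (l 532429071) (l 532538895)) (a (l 531637263) (l 532003599))) (b (a (b (l 532664079) (l 532569359)) (b (l 16699016) (l 16667592))) (a (l 530752015) (b (l 16635160) (l 16601736)))))) (a (b (a (l 528905487) (a (l 529380111) (b (l 530162703) (l 529361423)))) (a (b (l 527683855) (l 526874895)) (a (l 527754255) (b (l 528555279) (l 16344952))))) (a (b (b (a (l 530547215) (l 16534568)) (a (l 16438656) (l 16462200))) (a (b (l 16442368) (b (l 16456440) (l 16343408))) (b (a (l 16474336) (l 16390632)) (a (l 16292584) (l 16541600))))) (b (a (b (l 16571520) (a (l 16511840) (l 16525320))) (b (l 16490024) (l 16581656))) (b (a (l 16387504)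 (l 16560752)) (l 16554672)))))) (a (b (a (b (a (l 532319503) (b (l 16599592) (l 16568272))) (a (b (l 16590472) (l 16568896)) (b (l 16541408) (l 16513008)))) (b (a (b (l 16536096) (l 16501752)) (l 16427472)) (a (l 16439984) (l 6)))) (b (a (b (l 16517352) (l 6)) (l 6)) (l 6))) (b (l 6) (l 6)))) (a (b (a (b (a (b (l 526110479) (l 525419023)) (a (b (l 526627087) (b (l 16426648) (l 16296080))) (b (b (l 16437960) (l 16314704)) (b (a (l 16364816) (l 16396608)) (l 16263872))))) (b (a (a (l 524668175) (b (l 16422448) (l 16287272))) (a (b (a (l 16347040) (l 16363240)) (a (l 16268464) (l 16458544))) (l 16417904))) (a (b (a (l 16425240) (a (l 16340296) (l 16261440))) (l 1)) (l 16135608)))) (a (b (b (a (b (l 16216664) (l 16472232)) (l 16619176)) (l 16274600)) (b (l 16514088) (l 6))) (l 6))) (a (l 1) (l 6))) (l 6))), by decide +kernel⟩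

theorem t2_B05pm_213_s1 : ∃ t, chk3 f_B05pm_213_s1 t 1 1 1 = true := ex3_b k0_B05pm_213_s1 k1_B05pm_213_s1

theorem c_B05pm_213_s1 : CertF 0 536870912 0 1230186008 991146299 28908434 false true false .pnn 2 1 3
    ndB0q2 ndB5q3 pcB1 cut_B05pm_213_s1 xt_B05pm_213_s1 :=
  certF0 (fam := false) (s1 := true) (s2 := false) (a := 2) (b := 1) (c := 3) (cn := .pnn) (n1 := ndB0q2) (n2 := ndB5q3) (pc := pcB1) (cut := cut_B05pm_213_s1) (xt := xt_B05pm_213_s1) (P1 := 0) (W1 := 536870912) (P2 := 0) (W2 := 1230186008) (P3 := 991146299) (W3 := 28908434)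
    rfl t2_B05pm_213_s1

theorem s_B05pm_213_s1 {κ x : ℝ} (hκ : κ * h0 = ken x) (hx : ((991146299 : ℕ) : ℝ) / S ≤ x)
    (hx' : x ≤ (((991146299 : ℕ) : ℝ) + (28908434 : ℕ)) / S)
    (H : CutB (VFD κ) PP tK tL pcB (Cut.of [[⟨0, 1, 0, 37748736⟩, ⟨1, 1, 0, 37748736⟩, ⟨2, 2, 0, 5242880⟩]]) 2 1 3 0 5 (sgb true) (sgb false) x) :
    AltB (VFD κ) PP tK tL pcB [⟨3, 0, 0, 1449551462⟩] 2 1 3 0 5 (sgb true) (sgb false) x :=
  strip_altBD (m := 1449551462) true rfl hκ (SH.κ0 hκ (SH.hx1 hx).le (SH.hx2 hx').le) (SH.hx1 hx).le (SH.hx2 hx') (covB02).cov (covB53).cov hx hx' c_B05pm_213_s1 H ((okx hx hx').extB (T := tt) (sideB hx hx') hκ rfl rfl (.O 2 true) (.N 3 false) (Or.inr rfl))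

noncomputable def cut_B05mm_001_s1 : Cut := Cut.of [[⟨4, 0, 0, 1449551462⟩]]

noncomputable def f_B05mm_001_s1 : ℕ → ℕ → ℕ → ℕ → Bool := onCell 0 536870912 0 536870912 991146299 28908434
    (rowF 1 false false false .up 0 0 1 (qsf 0 536870912 536870912 536870912 0) ndB0q0 ndB5q1 pcB0 cut_B05mm_001_s1 Ext.none)

def k0_B05mm_001_s1 : ∃ t, chk3 f_B05mm_001_s1 t 1 1 1 = true :=
  ⟨(l 3), by decide +kernel⟩

theorem c_B05mm_001_s1 : CertF 0 536870912 536870912 536870912 991146299 28908434 false false false .up 0 0 1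
    ndB0q0 ndB5q1 pcB0 cut_B05mm_001_s1 Ext.none :=
  certF1 (fam := false) (s1 := false) (s2 := false) (a := 0) (b := 0) (c := 1) (cn := .up) (n1 := ndB0q0) (n2 := ndB5q1) (pc := pcB0) (cut := cut_B05mm_001_s1) (xt := Ext.none) (P1 := 0) (W1 := 536870912) (P2 := 536870912) (W2 := 536870912) (P3 := 991146299) (W3 := 28908434)
    rfl (fun _ => rfl) k0_B05mm_001_s1

theorem s_B05mm_001_s1 {κ x : ℝ} (hκ : κ * h0 = ken x) (hx : ((991146299 : ℕ) : ℝ) / S ≤ x)
    (hx' : x ≤ (((991146299 : ℕ) : ℝ) + (28908434 : ℕ)) / S) :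
    AltB (VFD κ) PP tK tL pcB [⟨3, 0, 0, 1449551462⟩] 0 0 1 0 5 (sgb false) (sgb false) x :=
  strip_altBD (m := 1449551462) true rfl hκ (SH.κ0 hκ (SH.hx1 hx).le (SH.hx2 hx').le) (SH.hx1 hx).le (SH.hx2 hx') (covB00).cov (covB51).cov hx hx' c_B05mm_001_s1 cutB_nil (noExt_B)

noncomputable def cut_B05mm_011_s1 : Cut := Cut.of [[⟨4, 0, 0, 1449551462⟩]]

noncomputable def f_B05mm_011_s1 : ℕ → ℕ → ℕ → ℕ → Bool := onCell 0 536870912 536870912 536870912 991146299 28908434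
    (rowF 1 false false false .pnn 0 1 1 (qsf 0 536870912 536870912 536870912 1) ndB0q0 ndB5q1 pcB1 cut_B05mm_011_s1 Ext.none)

def k0_B05mm_011_s1 : ∃ t, chk3 f_B05mm_011_s1 t 1 1 1 = true :=
  ⟨(l 5), by decide +kernel⟩

theorem c_B05mm_011_s1 : CertF 0 536870912 536870912 536870912 991146299 28908434 false false false .pnn 0 1 1
    ndB0q0 ndB5q1 pcB1 cut_B05mm_011_s1 Ext.none :=
  certF1 (fam := false) (s1 := false) (s2 := false) (a := 0) (b := 1) (c := 1) (cn := .pnn) (n1 := ndB0q0) (n2 := ndB5q1) (pc := pcB1) (cut := cut_B05mm_011_s1) (xt := Ext.none) (P1 := 0) (W1 := 536870912) (P2 := 536870912) (W2 := 536870912) (P3 := 991146299) (W3 := 28908434)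
    rfl (fun _ => rfl) k0_B05mm_011_s1

theorem s_B05mm_011_s1 {κ x : ℝ} (hκ : κ * h0 = ken x) (hx : ((991146299 : ℕ) : ℝ) / S ≤ x)
    (hx' : x ≤ (((991146299 : ℕ) : ℝ) + (28908434 : ℕ)) / S) :
    AltB (VFD κ) PP tK tL pcB [⟨3, 0, 0, 1449551462⟩] 0 1 1 0 5 (sgb false) (sgb false) x :=
  strip_altBD (m := 1449551462) true rfl hκ (SH.κ0 hκ (SH.hx1 hx).le (SH.hx2 hx').le) (SH.hx1 hx).le (SH.hx2 hx') (covB00).cov (covB51).cov hx hx' c_B05mm_011_s1 cutB_nil (noExt_B)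

noncomputable def cut_B05mm_012_s1 : Cut := Cut.of [[⟨4, 0, 0, 1449551462⟩]]

noncomputable def f_B05mm_012_s1 : ℕ → ℕ → ℕ → ℕ → Bool := onCell 0 536870912 1073741824 536870912 991146299 28908434
    (rowF 0 false false false .pnp 0 1 2 (qsf 0 536870912 1073741824 536870912 1) ndB0q0 ndB5q2 pcB1 cut_B05mm_012_s1 Ext.none)

def k0_B05mm_012_s1 : ∃ t, chk3 f_B05mm_012_s1 t 1 1 1 = true :=
  ⟨(l 5), by decide +kernel⟩

theorem c_B05mm_012_s1 : CertF 0 536870912 1073741824 536870912 991146299 28908434 false false false .pnp 0 1 2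
    ndB0q0 ndB5q2 pcB1 cut_B05mm_012_s1 Ext.none :=
  certF0 (fam := false) (s1 := false) (s2 := false) (a := 0) (b := 1) (c := 2) (cn := .pnp) (n1 := ndB0q0) (n2 := ndB5q2) (pc := pcB1) (cut := cut_B05mm_012_s1) (xt := Ext.none) (P1 := 0) (W1 := 536870912) (P2 := 1073741824) (W2 := 536870912) (P3 := 991146299) (W3 := 28908434)
    rfl k0_B05mm_012_s1

theorem s_B05mm_012_s1 {κ x : ℝ} (hκ : κ * h0 = ken x) (hx : ((991146299 : ℕ) : ℝ) / S ≤ x)
    (hx' : x ≤ (((991146299 : ℕ) : ℝ) + (28908434 : ℕ)) / S) :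
    AltB (VFD κ) PP tK tL pcB [⟨3, 0, 0, 1449551462⟩] 0 1 2 0 5 (sgb false) (sgb false) x :=
  strip_altBD (m := 1449551462) true rfl hκ (SH.κ0 hκ (SH.hx1 hx).le (SH.hx2 hx').le) (SH.hx1 hx).le (SH.hx2 hx') (covB00).cov (covB52).cov hx hx' c_B05mm_012_s1 cutB_nil (noExt_B)

noncomputable def cut_B05mm_022_s1 : Cut := Cut.of [[⟨4, 0, 0, 1449551462⟩]]

noncomputable def f_B05mm_022_s1 : ℕ → ℕ → ℕ → ℕ → Bool := onCell 0 536870912 1073741824 536870912 991146299 28908434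
    (rowF 0 false false false .pp 0 2 2 (qsf 0 536870912 1073741824 536870912 2) ndB0q0 ndB5q2 pcB2 cut_B05mm_022_s1 Ext.none)

def k0_B05mm_022_s1 : ∃ t, chk3 f_B05mm_022_s1 t 1 1 1 = true :=
  ⟨(l 5), by decide +kernel⟩

theorem c_B05mm_022_s1 : CertF 0 536870912 1073741824 536870912 991146299 28908434 false false false .pp 0 2 2
    ndB0q0 ndB5q2 pcB2 cut_B05mm_022_s1 Ext.none :=
  certF0 (fam := false) (s1 := false) (s2 := false) (a := 0) (b := 2) (c := 2) (cn := .pp) (n1 := ndB0q0) (n2 := ndB5q2) (pc := pcB2) (cut := cut_B05mm_022_s1) (xt := Ext.none) (P1 := 0) (W1 := 536870912) (P2 := 1073741824) (W2 := 536870912) (P3 := 991146299) (W3 := 28908434)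
    rfl k0_B05mm_022_s1

theorem s_B05mm_022_s1 {κ x : ℝ} (hκ : κ * h0 = ken x) (hx : ((991146299 : ℕ) : ℝ) / S ≤ x)
    (hx' : x ≤ (((991146299 : ℕ) : ℝ) + (28908434 : ℕ)) / S) :
    AltB (VFD κ) PP tK tL pcB [⟨3, 0, 0, 1449551462⟩] 0 2 2 0 5 (sgb false) (sgb false) x :=
  strip_altBD (m := 1449551462) true rfl hκ (SH.κ0 hκ (SH.hx1 hx).le (SH.hx2 hx').le) (SH.hx1 hx).le (SH.hx2 hx') (covB00).cov (covB52).cov hx hx' c_B05mm_022_s1 cutB_nil (noExt_B)

noncomputable def cut_B05mm_023_s1 : Cut := Cut.of [[⟨4, 0, 0, 1449551462⟩]]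

noncomputable def f_B05mm_023_s1 : ℕ → ℕ → ℕ → ℕ → Bool := onCell 0 536870912 0 1230186008 991146299 28908434
    (rowF 0 false false false .up 0 2 3 (qsf 0 536870912 0 1230186008 2) ndB0q0 ndB5q3 pcB2 cut_B05mm_023_s1 Ext.none)

def k0_B05mm_023_s1 : ∃ t, chk3 f_B05mm_023_s1 t 1 1 1 = true :=
  ⟨(l 5), by decide +kernel⟩

theorem c_B05mm_023_s1 : CertF 0 536870912 0 1230186008 991146299 28908434 false false false .up 0 2 3
    ndB0q0 ndB5q3 pcB2 cut_B05mm_023_s1 Ext.none :=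
  certF0 (fam := false) (s1 := false) (s2 := false) (a := 0) (b := 2) (c := 3) (cn := .up) (n1 := ndB0q0) (n2 := ndB5q3) (pc := pcB2) (cut := cut_B05mm_023_s1) (xt := Ext.none) (P1 := 0) (W1 := 536870912) (P2 := 0) (W2 := 1230186008) (P3 := 991146299) (W3 := 28908434)
    rfl k0_B05mm_023_s1

theorem s_B05mm_023_s1 {κ x : ℝ} (hκ : κ * h0 = ken x) (hx : ((991146299 : ℕ) : ℝ) / S ≤ x)
    (hx' : x ≤ (((991146299 : ℕ) : ℝ) + (28908434 : ℕ)) / S) :
    AltB (VFD κ) PP tK tL pcB [⟨3, 0, 0, 1449551462⟩] 0 2 3 0 5 (sgb false) (sgb false) x :=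
  strip_altBD (m := 1449551462) true rfl hκ (SH.κ0 hκ (SH.hx1 hx).le (SH.hx2 hx').le) (SH.hx1 hx).le (SH.hx2 hx') (covB00).cov (covB53).cov hx hx' c_B05mm_023_s1 cutB_nil (noExt_B)

noncomputable def cut_B05mm_033_s1 : Cut := Cut.of [[⟨4, 0, 0, 1449551462⟩]]

noncomputable def f_B05mm_033_s1 : ℕ → ℕ → ℕ → ℕ → Bool := onCell 0 536870912 0 1230186008 991146299 28908434
    (rowF 0 false false false .pnn 0 3 3 (qsf 0 536870912 0 1230186008 3) ndB0q0 ndB5q3 pcB3 cut_B05mm_033_s1 Ext.none)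

def k0_B05mm_033_s1 : ∃ t, chk3 f_B05mm_033_s1 t 1 1 1 = true :=
  ⟨(l 5), by decide +kernel⟩

theorem c_B05mm_033_s1 : CertF 0 536870912 0 1230186008 991146299 28908434 false false false .pnn 0 3 3
    ndB0q0 ndB5q3 pcB3 cut_B05mm_033_s1 Ext.none :=
  certF0 (fam := false) (s1 := false) (s2 := false) (a := 0) (b := 3) (c := 3) (cn := .pnn) (n1 := ndB0q0) (n2 := ndB5q3) (pc := pcB3) (cut := cut_B05mm_033_s1) (xt := Ext.none) (P1 := 0) (W1 := 536870912) (P2 := 0) (W2 := 1230186008) (P3 := 991146299) (W3 := 28908434)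
    rfl k0_B05mm_033_s1

theorem s_B05mm_033_s1 {κ x : ℝ} (hκ : κ * h0 = ken x) (hx : ((991146299 : ℕ) : ℝ) / S ≤ x)
    (hx' : x ≤ (((991146299 : ℕ) : ℝ) + (28908434 : ℕ)) / S) :
    AltB (VFD κ) PP tK tL pcB [⟨3, 0, 0, 1449551462⟩] 0 3 3 0 5 (sgb false) (sgb false) x :=
  strip_altBD (m := 1449551462) true rfl hκ (SH.κ0 hκ (SH.hx1 hx).le (SH.hx2 hx').le) (SH.hx1 hx).le (SH.hx2 hx') (covB00).cov (covB53).cov hx hx' c_B05mm_033_s1 cutB_nil (noExt_B)

noncomputable def cut_B05mm_101_s1 : Cut := Cut.of [[⟨4, 0, 0, 1449551462⟩], [⟨0, 1, 0, 53687091⟩, ⟨1, 0, 0, 53687091⟩, ⟨2, 1, 0, 53687091⟩]]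

noncomputable def f_B05mm_101_s1 : ℕ → ℕ → ℕ → ℕ → Bool := onCell 536870912 536870912 0 536870912 991146299 28908434
    (rowF 1 false false false .npn 1 0 1 (qsf 536870912 536870912 536870912 536870912 0) ndB0q1 ndB5q1 pcB0 cut_B05mm_101_s1 Ext.none)

def k0_B05mm_101_s1 : ∃ t, chk3 f_B05mm_101_s1 t 1 1 1 = true :=
  ⟨(a (l 3) (b (a (l 3) (b (a (l 3) (b (b (a (l 3) (l 14)) (l 3)) (l 3))) (l 3))) (l 3))), by decide +kernel⟩

theorem c_B05mm_101_s1 : CertF 536870912 536870912 536870912 536870912 991146299 28908434 false false false .npn 1 0 1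
    ndB0q1 ndB5q1 pcB0 cut_B05mm_101_s1 Ext.none :=
  certF1 (fam := false) (s1 := false) (s2 := false) (a := 1) (b := 0) (c := 1) (cn := .npn) (n1 := ndB0q1) (n2 := ndB5q1) (pc := pcB0) (cut := cut_B05mm_101_s1) (xt := Ext.none) (P1 := 536870912) (W1 := 536870912) (P2 := 536870912) (W2 := 536870912) (P3 := 991146299) (W3 := 28908434)
    rfl (fun _ => rfl) k0_B05mm_101_s1

theorem s_B05mm_101_s1 {κ x : ℝ} (hκ : κ * h0 = ken x) (hx : ((991146299 : ℕ) : ℝ) / S ≤ x)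
    (hx' : x ≤ (((991146299 : ℕ) : ℝ) + (28908434 : ℕ)) / S)
    (H : CutB (VFD κ) PP tK tL pcB (Cut.of [[⟨0, 1, 0, 53687091⟩, ⟨1, 0, 0, 53687091⟩, ⟨2, 1, 0, 53687091⟩]]) 1 0 1 0 5 (sgb false) (sgb false) x) :
    AltB (VFD κ) PP tK tL pcB [⟨3, 0, 0, 1449551462⟩] 1 0 1 0 5 (sgb false) (sgb false) x :=
  strip_altBD (m := 1449551462) true rfl hκ (SH.κ0 hκ (SH.hx1 hx).le (SH.hx2 hx').le) (SH.hx1 hx).le (SH.hx2 hx') (covB01).cov (covB51).cov hx hx' c_B05mm_101_s1 H (noExt_B)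

noncomputable def cut_B05mm_102_s1 : Cut := Cut.of [[⟨4, 0, 0, 1449551462⟩], [⟨0, 1, 0, 53687091⟩, ⟨1, 0, 0, 53687091⟩, ⟨2, 1, 0, 53687091⟩]]

noncomputable def f_B05mm_102_s1 : ℕ → ℕ → ℕ → ℕ → Bool := onCell 536870912 536870912 0 536870912 991146299 28908434
    (rowF 1 false false false .npp 1 0 2 (qsf 536870912 536870912 1073741824 536870912 0) ndB0q1 ndB5q2 pcB0 cut_B05mm_102_s1 Ext.none)

def k0_B05mm_102_s1 : ∃ t, chk3 f_B05mm_102_s1 t 1 1 1 = true :=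
  ⟨(a (l 3) (b (a (l 3) (b (a (l 3) (b (b (a (l 3) (l 14)) (l 3)) (l 3))) (l 3))) (l 3))), by decide +kernel⟩

theorem c_B05mm_102_s1 : CertF 536870912 536870912 1073741824 536870912 991146299 28908434 false false false .npp 1 0 2
    ndB0q1 ndB5q2 pcB0 cut_B05mm_102_s1 Ext.none :=
  certF1 (fam := false) (s1 := false) (s2 := false) (a := 1) (b := 0) (c := 2) (cn := .npp) (n1 := ndB0q1) (n2 := ndB5q2) (pc := pcB0) (cut := cut_B05mm_102_s1) (xt := Ext.none) (P1 := 536870912) (W1 := 536870912) (P2 := 1073741824) (W2 := 536870912) (P3 := 991146299) (W3 := 28908434)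
    rfl (fun _ => rfl) k0_B05mm_102_s1

theorem s_B05mm_102_s1 {κ x : ℝ} (hκ : κ * h0 = ken x) (hx : ((991146299 : ℕ) : ℝ) / S ≤ x)
    (hx' : x ≤ (((991146299 : ℕ) : ℝ) + (28908434 : ℕ)) / S)
    (H : CutB (VFD κ) PP tK tL pcB (Cut.of [[⟨0, 1, 0, 53687091⟩, ⟨1, 0, 0, 53687091⟩, ⟨2, 1, 0, 53687091⟩]]) 1 0 2 0 5 (sgb false) (sgb false) x) :
    AltB (VFD κ) PP tK tL pcB [⟨3, 0, 0, 1449551462⟩] 1 0 2 0 5 (sgb false) (sgb false) x :=
  strip_altBD (m := 1449551462) true rfl hκ (SH.κ0 hκ (SH.hx1 hx).le (SH.hx2 hx').le) (SH.hx1 hx).le (SH.hx2 hx') (covB01).cov (covB52).cov hx hx' c_B05mm_102_s1 H (noExt_B)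

noncomputable def cut_B05mm_112_s1 : Cut := Cut.of [[⟨4, 0, 0, 1449551462⟩]]

noncomputable def f_B05mm_112_s1 : ℕ → ℕ → ℕ → ℕ → Bool := onCell 536870912 536870912 1073741824 536870912 991146299 28908434
    (rowF 2 false false false .dn 1 1 2 (qsf 536870912 536870912 1073741824 536870912 1) ndB0q1 ndB5q2 pcB1 cut_B05mm_112_s1 Ext.none)

def k0_B05mm_112_s1 : ∃ t, chk3 f_B05mm_112_s1 t 1 1 1 = true :=
  ⟨(a (l 3) (l 5)), by decide +kernel⟩

theorem c_B05mm_112_s1 : CertF 536870912 536870912 1073741824 536870912 991146299 28908434 false false false .dn 1 1 2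
    ndB0q1 ndB5q2 pcB1 cut_B05mm_112_s1 Ext.none :=
  certF2 (fam := false) (s1 := false) (s2 := false) (a := 1) (b := 1) (c := 2) (cn := .dn) (n1 := ndB0q1) (n2 := ndB5q2) (pc := pcB1) (cut := cut_B05mm_112_s1) (xt := Ext.none) (P1 := 536870912) (W1 := 536870912) (P2 := 1073741824) (W2 := 536870912) (P3 := 991146299) (W3 := 28908434)
    rfl (fun _ => rfl) k0_B05mm_112_s1

theorem s_B05mm_112_s1 {κ x : ℝ} (hκ : κ * h0 = ken x) (hx : ((991146299 : ℕ) : ℝ) / S ≤ x)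
    (hx' : x ≤ (((991146299 : ℕ) : ℝ) + (28908434 : ℕ)) / S) :
    AltB (VFD κ) PP tK tL pcB [⟨3, 0, 0, 1449551462⟩] 1 1 2 0 5 (sgb false) (sgb false) x :=
  strip_altBD (m := 1449551462) true rfl hκ (SH.κ0 hκ (SH.hx1 hx).le (SH.hx2 hx').le) (SH.hx1 hx).le (SH.hx2 hx') (covB01).cov (covB52).cov hx hx' c_B05mm_112_s1 cutB_nil (noExt_B)

noncomputable def cut_B05mm_113_s1 : Cut := Cut.of [[⟨4, 0, 0, 1449551462⟩]]

noncomputable def f_B05mm_113_s1 : ℕ → ℕ → ℕ → ℕ → Bool := onCell 536870912 536870912 0 1230186008 991146299 28908434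
    (rowF 0 false false false .nn 1 1 3 (qsf 536870912 536870912 0 1230186008 1) ndB0q1 ndB5q3 pcB1 cut_B05mm_113_s1 Ext.none)

def k0_B05mm_113_s1 : ∃ t, chk3 f_B05mm_113_s1 t 1 1 1 = true :=
  ⟨(a (l 5) (b (l 5) (a (b (l 5) (l 3)) (l 3)))), by decide +kernel⟩

theorem c_B05mm_113_s1 : CertF 536870912 536870912 0 1230186008 991146299 28908434 false false false .nn 1 1 3
    ndB0q1 ndB5q3 pcB1 cut_B05mm_113_s1 Ext.none :=
  certF0 (fam := false) (s1 := false) (s2 := false) (a := 1) (b := 1) (c := 3) (cn := .nn) (n1 := ndB0q1) (n2 := ndB5q3) (pc := pcB1) (cut := cut_B05mm_113_s1) (xt := Ext.none) (P1 := 536870912) (W1 := 536870912) (P2 := 0) (W2 := 1230186008) (P3 := 991146299) (W3 := 28908434)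
    rfl k0_B05mm_113_s1

theorem s_B05mm_113_s1 {κ x : ℝ} (hκ : κ * h0 = ken x) (hx : ((991146299 : ℕ) : ℝ) / S ≤ x)
    (hx' : x ≤ (((991146299 : ℕ) : ℝ) + (28908434 : ℕ)) / S) :
    AltB (VFD κ) PP tK tL pcB [⟨3, 0, 0, 1449551462⟩] 1 1 3 0 5 (sgb false) (sgb false) x :=
  strip_altBD (m := 1449551462) true rfl hκ (SH.κ0 hκ (SH.hx1 hx).le (SH.hx2 hx').le) (SH.hx1 hx).le (SH.hx2 hx') (covB01).cov (covB53).cov hx hx' c_B05mm_113_s1 cutB_nil (noExt_B)

noncomputable def cut_B05mm_123_s1 : Cut := Cut.of [[⟨4, 0, 0, 1449551462⟩]]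

noncomputable def f_B05mm_123_s1 : ℕ → ℕ → ℕ → ℕ → Bool := onCell 1073741824 536870912 0 1230186008 991146299 28908434
    (rowF 2 false false false .npn 1 2 3 (qsf 536870912 536870912 0 1230186008 2) ndB0q1 ndB5q3 pcB2 cut_B05mm_123_s1 Ext.none)

def k0_B05mm_123_s1 : ∃ t, chk3 f_B05mm_123_s1 t 1 1 1 = true :=
  ⟨(b (l 5) (l 5)), by decide +kernel⟩

theorem c_B05mm_123_s1 : CertF 536870912 536870912 0 1230186008 991146299 28908434 false false false .npn 1 2 3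
    ndB0q1 ndB5q3 pcB2 cut_B05mm_123_s1 Ext.none :=
  certF2 (fam := false) (s1 := false) (s2 := false) (a := 1) (b := 2) (c := 3) (cn := .npn) (n1 := ndB0q1) (n2 := ndB5q3) (pc := pcB2) (cut := cut_B05mm_123_s1) (xt := Ext.none) (P1 := 536870912) (W1 := 536870912) (P2 := 0) (W2 := 1230186008) (P3 := 991146299) (W3 := 28908434)
    rfl (fun _ => rfl) k0_B05mm_123_s1

theorem s_B05mm_123_s1 {κ x : ℝ} (hκ : κ * h0 = ken x) (hx : ((991146299 : ℕ) : ℝ) / S ≤ x)
    (hx' : x ≤ (((991146299 : ℕ) : ℝ) + (28908434 : ℕ)) / S) :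
    AltB (VFD κ) PP tK tL pcB [⟨3, 0, 0, 1449551462⟩] 1 2 3 0 5 (sgb false) (sgb false) x :=
  strip_altBD (m := 1449551462) true rfl hκ (SH.κ0 hκ (SH.hx1 hx).le (SH.hx2 hx').le) (SH.hx1 hx).le (SH.hx2 hx') (covB01).cov (covB53).cov hx hx' c_B05mm_123_s1 cutB_nil (noExt_B)

noncomputable def cut_B05mm_133_s1 : Cut := Cut.of [[⟨4, 0, 0, 1449551462⟩]]

noncomputable def f_B05mm_133_s1 : ℕ → ℕ → ℕ → ℕ → Bool := onCell 1610612736 536870912 0 1230186008 991146299 28908434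
    (rowF 2 false false false .dn 1 3 3 (qsf 536870912 536870912 0 1230186008 3) ndB0q1 ndB5q3 pcB3 cut_B05mm_133_s1 Ext.none)

def k0_B05mm_133_s1 : ∃ t, chk3 f_B05mm_133_s1 t 1 1 1 = true :=
  ⟨(l 5), by decide +kernel⟩

theorem c_B05mm_133_s1 : CertF 536870912 536870912 0 1230186008 991146299 28908434 false false false .dn 1 3 3
    ndB0q1 ndB5q3 pcB3 cut_B05mm_133_s1 Ext.none :=
  certF2 (fam := false) (s1 := false) (s2 := false) (a := 1) (b := 3) (c := 3) (cn := .dn) (n1 := ndB0q1) (n2 := ndB5q3) (pc := pcB3) (cut := cut_B05mm_133_s1) (xt := Ext.none) (P1 := 536870912) (W1 := 536870912) (P2 := 0) (W2 := 1230186008) (P3 := 991146299) (W3 := 28908434)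
    rfl (fun _ => rfl) k0_B05mm_133_s1

theorem s_B05mm_133_s1 {κ x : ℝ} (hκ : κ * h0 = ken x) (hx : ((991146299 : ℕ) : ℝ) / S ≤ x)
    (hx' : x ≤ (((991146299 : ℕ) : ℝ) + (28908434 : ℕ)) / S) :
    AltB (VFD κ) PP tK tL pcB [⟨3, 0, 0, 1449551462⟩] 1 3 3 0 5 (sgb false) (sgb false) x :=
  strip_altBD (m := 1449551462) true rfl hκ (SH.κ0 hκ (SH.hx1 hx).le (SH.hx2 hx').le) (SH.hx1 hx).le (SH.hx2 hx') (covB01).cov (covB53).cov hx hx' c_B05mm_133_s1 cutB_nil (noExt_B)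

noncomputable def cut_B05mm_202_s1 : Cut := Cut.of [[⟨4, 0, 0, 1449551462⟩], [⟨0, 1, 0, 26843545⟩, ⟨1, 0, 0, 26843545⟩, ⟨2, 1, 0, 26843545⟩]]

noncomputable def xt_B05mm_202_s1 : Ext := strExt dd false false false .u2 .s2m .u0m .pp 2 0 2 rfl rfl gf0 vv ndB0q2 ndB5q2

noncomputable def f_B05mm_202_s1 : ℕ → ℕ → ℕ → ℕ → Bool := onCell 0 536870912 0 536870912 991146299 28908434
    (rowF 1 false false false .pp 2 0 2 (qsf 0 536870912 1073741824 536870912 0) ndB0q2 ndB5q2 pcB0 cut_B05mm_202_s1 xt_B05mm_202_s1)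

def k0_B05mm_202_s1 : ∃ t, chk3 f_B05mm_202_s1 t 2 2 1 = true :=
  ⟨(a (b (l 6) (b (l 6) (a (l 6) (a (l 6) (b (b (l 6) (a (l 6) (l 16410512))) (c (b (l 16540832) (l 16555016)) (l 16300464))))))) (b (a (a (l 6) (b (l 6) (l 6))) (a (b (l 6) (b (b (l 6) (b (l 16226992) (l 16335392))) (l 16154104))) (b (b (l 6) (b (b (l 6) (l 16184976)) (b (l 16217352) (l 16257184)))) (b (b (b (l 16297504) (l 16340280)) (l 16315488)) (b (l 16456040) (l 16508584)))))) (b (a (b (b (l 16285656) (l 16248248)) (a (c (l 16467048) (l 16423280)) (b (l 16330280) (a (l 16354720) (l 16379224))))) (a (b (b (l 16481088) (a (l 16508920) (l 16380688))) (b (a (l 16382256) (l 16487080)) (l 16407456))) (b (b (a (l 16538688) (l 16409056)) (b (l 16413040) (l 16505128))) (b (l 16598576) (l 16608800))))) (a (c (b (a (b (l 16541712) (l 16562832)) (l 16500456)) (l 16587384)) (b (a (b (l 16470392) (l 16487096)) (b (l 16514304) (l 16533776))) (a (l 16515800)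 (l 16560160)))) (b (a (c (l 16610936) (l 16485792)) (b (l 16620152) (a (l 16623384) (l 16559248)))) (a (b (l 16525008) (a (l 16612840) (l 16632224))) (b (a (l 16553584) (l 16655984)) (a (l 16651152) (l 16674072))))))))), by decide +kernel⟩

def k1_B05mm_202_s1 : ∃ t, chk3 f_B05mm_202_s1 t 2 3 1 = true :=
  ⟨(b (a (b (a (b (l 6) (a (l 6) (l 16324472))) (b (a (b (l 16494280) (l 16510048)) (l 16369504)) (a (l 16444616) (l 16479112)))) (a (b (c (l 16528808) (l 16471968)) (l 603542697111)) (b (a (l 16555992) (b (l 16585136) (l 16601024))) (b (a (l 16579488) (l 16616664)) (l 2))))) (b (a (b (a (c (l 16588152) (l 16552752)) (b (l 16599248) (l 16530736))) (a (b (l 16591544) (l 16523288)) (b (l 16544392) (l 16647792)))) (a (b (b (a (l 16627392) (l 16646848)) (l 16569912)) (l 530391311)) (b (l 530243343) (l 529921295)))) (a (b (a (b (l 16621816) (l 16642752)) (l 530591759)) (a (l 530823695) (l 530186767))) (a (b (l 530168335)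 (a (l 530140943) (l 529908239))) (b (l 529680143) (l 528447247)))))) (a (l 2) (a (l 2) (a (l 2) (l 3))))), by decide +kernel⟩

def k2_B05mm_202_s1 : ∃ t, chk3 f_B05mm_202_s1 t 6 4 1 = true :=
  ⟨(a (b (b (b (l 16267840) (a (l 16244304) (l 16306184))) (b (b (a (l 16239328) (l 16302448)) (a (b (l 16232840) (a (l 16225632) (l 16255864))) (b (l 16296408) (l 16314720)))) (b (a (l 16275120) (l 16361392)) (c (l 16191384) (l 16293200))))) (b (b (a (b (l 16376408) (l 16422704)) (b (l 16465096) (l 16508264))) (a (l 16478464) (l 16393784))) (b (a (l 16535664) (a (l 16432240) (b (l 16625528) (l 16636568)))) (a (c (l 16438920) (l 16565296)) (a (l 16541560) (l 16645904)))))) (b (b (b (a (l 16373448) (b (l 16449784) (l 16360576))) (a (b (l 16378936) (l 16287384)) (b (l 16445960) (l 16461688)))) (b (b (a (l 16384696) (l 16483720)) (a (l 16324776) (l 16349304))) (a (b (l 16461776) (l 16513336)) (b (l 16568728) (a (l 16590184) (l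 16643576)))))) (b (b (a (b (l 16558800) (l 16599056)) (a (b (l 16633352) (l 16662056)) (b (l 16673552) (l 16685336)))) (a (b (a (l 16611288) (l 16565576)) (a (l 16638288) (l 16661624))) (a (b (a (l 16584856) (l 16678248)) (l 16679440)) (l 16609912)))) (a (b (a (l 16567384) (l 16670400)) (c (l 16680248) (l 16664512))) (a (b (l 16688288) (b (l 16698744) (l 16704584))) (b (b (l 16704104) (l 16710840)) (b (l 16716656) (l 16724024)))))))), by decide +kernel⟩

def k3_B05mm_202_s1 : ∃ t, chk3 f_B05mm_202_s1 t 6 5 1 = true :=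
  ⟨(b (a (b (a (b (a (l 16516160) (l 16621352)) (l 16538464)) (b (c (l 16659952) (l 16633536)) (a (l 16649000) (l 16668816)))) (a (b (l 16549072) (c (l 16652480) (l 16639592))) (b (c (l 16673688) (a (l 16574352) (l 16680000))) (a (l 16715544) (l 16695088))))) (a (b (b (c (l 16730048) (a (l 16670056) (l 16694568))) (a (c (l 16687792) (l 16687208)) (l 16665792))) (a (l 530459151) (l 530194959))) (b (a (a (b (l 16708840) (l 16723320)) (l 530682127)) (b (l 530694671) (l 530265871))) (a (l 529915919) (l 529620751))))) (a (a (a (b (b (l 16649168) (l 16577464)) (l 530297871)) (b (b (l 16667232) (l 16683808)) (l 530046991))) (b (a (l 530322959) (l 530063119)) (a (l 529779727) (l 529498383)))) (a (b (a (l 529788687) (l 529498383)) (a (l 529200655) (l 3))) (b (a (l 529191695) (l 3)) (l 3))))), by decide +kernel⟩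

def k4_B05mm_202_s1 : ∃ t, chk3 f_B05mm_202_s1 t 14 8 1 = true :=
  ⟨(b (a (b (b (a (l 16498208) (l 16531200)) (l 16515480)) (b (l 16529760) (l 16470592))) (b (b (a (l 16564112) (l 16599824)) (a (l 16572864) (l 16614824))) (b (a (l 16596360) (l 16560288)) (a (l 16545392) (a (l 16668992) (b (l 16685624) (l 16707856))))))) (b (b (a (l 16588344) (a (b (l 16660384) (l 16684784)) (b (a (l 16703152) (l 16718416)) (l 16675248)))) (b (a (l 16619400) (a (a (l 16694064) (l 16710336)) (l 16723032))) (a (a (l 16614440) (l 16674632)) (a (a (l 16704504) (l 16715832)) (l 16726664))))) (a (a (b (l 16653160) (l 16601120)) (b (b (l 16692104) (l 16699408)) (l 16705744))) (a (b (l 16717208) (a (l 16720200) (l 16729344))) (a (b (l 16728832) (a (l 16735672) (l 16739720))) (b (a (l 16735384) (l 16739280)) (b (l 16744432) (l 16749568)))))))), by decide +kernel⟩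

def k5_B05mm_202_s1 : ∃ t, chk3 f_B05mm_202_s1 t 15 16 1 = true :=
  ⟨(a (b (a (b (b (l 16636272) (l 16643000)) (a (l 16648440) (l 16588600))) (b (b (a (l 16667552) (l 16689432)) (l 16646544)) (b (l 16650072) (a (l 16706880) (c (l 16732584) (l 16735224)))))) (a (b (b (l 16686272) (a (l 16692608) (b (l 16715416) (l 16725152)))) (a (b (l 16713568) (l 16723408)) (b (l 16729912) (l 16733168)))) (b (a (b (a (l 16720256) (l 16734168)) (b (l 16738016) (l 16739896))) (b (b (a (l 16742016) (l 16748912)) (l 16747392)) (b (l 16747864) (l 16747552)))) (a (b (l 16740144) (l 16741792)) (b (b (l 16748168) (l 16749296)) (a (l 16748992) (l 16755960))))))) (b (a (b (a (b (l 14) (l 16681832)) (l 14)) (a (b (b (l 16735840) (a (l 16738696) (l 16751184))) (b (a (l 16748152) (l 16755120)) (a (l 16752016) (l 16755840)))) (a (b (b (l 14) (l 16747744)) (b (l 16758960) (l 16758968))) (b (l 14) (b (a (l 16761184) (l 16763192)) (a (l 16751392)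 (l 16765536))))))) (b (l 14) (a (b (l 14) (a (a (b (l 14) (c (l 16759088) (l 16759248))) (l 14)) (l 14))) (l 14)))) (a (b (a (b (a (l 16752672) (b (l 16755664) (l 16756104))) (b (a (l 16752736) (a (l 16755664) (l 16717080))) (a (l 16753528) (l 16760312)))) (a (b (b (a (l 16758192) (l 16739768)) (l 16751288)) (a (l 16754160) (l 527870735))) (a (a (l 527653647) (l 527659791)) (a (l 527665679) (l 527671823))))) (a (a (b (b (l 16713640) (l 16758880)) (l 528314895)) (a (l 528177935) (l 528191503))) (a (a (l 528204815) (l 528218127)) (a (l 528231183) (l 3))))) (b (a (a (a (a (l 527677711) (l 527683599)) (a (l 527689487) (l 529037327))) (l 3)) (l 3)) (l 3))))), by decide +kernel⟩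

def k6_B05mm_202_s1 : ∃ t, chk3 f_B05mm_202_s1 t 15 17 1 = true :=
  ⟨(a (b (a (b (a (l 16728720) (b (l 16735120) (l 16738784))) (a (b (l 16733936) (l 16738536)) (b (a (l 16740368) (l 16745864)) (l 16665328)))) (a (b (b (a (l 16742104) (l 16747392)) (a (l 16704376) (l 16753648))) (a (l 16755816) (l 529112079))) (a (l 528803087) (a (l 528836623) (l 528853007))))) (a (a (b (b (l 16743488) (l 16749504)) (l 530484239)) (a (l 530073871) (l 529969679))) (a (a (b (l 529806095) (l 530105359)) (b (l 529638927) (l 529887759))) (a (b (l 529664527) (l 3)) (l 3))))) (b (a (a (a (a (l 528869391) (l 528886031)) (a (l 528902927) (l 528919567))) (l 3)) (l 3)) (l 3))), by decide +kernel⟩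

def k7_B05mm_202_s1 : ∃ t, chk3 f_B05mm_202_s1 t 7 9 1 = true :=
  ⟨(a (b (b (b (a (a (l 16696400) (l 16713584)) (a (c (l 16731992) (a (l 16727856) (l 16737536))) (c (l 16760920) (l 16762224)))) (a (a (l 16702088) (a (l 16715504) (l 16725424))) (a (a (l 16734152) (l 16744256)) (a (l 16754152) (l 530998799))))) (a (a (c (l 16714352) (b (l 16705808) (l 16715952))) (b (a (l 16722984) (l 16731672)) (a (l 16729328) (l 16739136)))) (a (l 530940175) (a (l 530764815) (b (a (l 530763279) (l 530718735)) (l 530527503)))))) (a (a (b (b (a (l 16718008) (l 16727128)) (l 16729432)) (l 530832399)) (a (l 530763023) (l 530605071))) (a (a (l 530449167) (l 530295567)) (a (l 530144271) (l 3))))) (b (a (a (a (b (a (l 530770447) (l 530615823)) (a (l 531261455) (l 3))) (b (a (l 530479887) (l 530363407)) (l 3))) (l 3)) (l 3)) (l 3))), by decide +kernel⟩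

def k8_B05mm_202_s1 : ∃ t, chk3 f_B05mm_202_s1 t 7 5 1 = true :=
  ⟨(b (a (a (a (b (b (l 530428687) (l 529977359)) (a (l 529398543) (l 3))) (b (b (l 530077199) (l 529613583)) (l 3))) (l 3)) (l 3)) (l 3)), by decide +kernel⟩

def k9_B05mm_202_s1 : ∃ t, chk3 f_B05mm_202_s1 t 3 3 1 = true :=
  ⟨(b (a (a (b (a (b (l 529735695) (l 529385999)) (b (a (l 529320719) (l 529018639)) (l 3))) (l 3)) (l 3)) (l 3)) (l 3)), by decide +kernel⟩

theorem t10_B05mm_202_s1 : ∃ t, chk3 f_B05mm_202_s1 t 15 8 1 = true := ex3_b k5_B05mm_202_s1 k6_B05mm_202_s1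

theorem t11_B05mm_202_s1 : ∃ t, chk3 f_B05mm_202_s1 t 7 8 1 = true := ex3_a k4_B05mm_202_s1 t10_B05mm_202_s1

theorem t12_B05mm_202_s1 : ∃ t, chk3 f_B05mm_202_s1 t 7 4 1 = true := ex3_b t11_B05mm_202_s1 k7_B05mm_202_s1

theorem t13_B05mm_202_s1 : ∃ t, chk3 f_B05mm_202_s1 t 7 2 1 = true := ex3_b t12_B05mm_202_s1 k8_B05mm_202_s1

theorem t14_B05mm_202_s1 : ∃ t, chk3 f_B05mm_202_s1 t 6 2 1 = true := ex3_b k2_B05mm_202_s1 k3_B05mm_202_s1

theorem t15_B05mm_202_s1 : ∃ t, chk3 f_B05mm_202_s1 t 3 2 1 = true := ex3_a t14_B05mm_202_s1 t13_B05mm_202_s1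

theorem t16_B05mm_202_s1 : ∃ t, chk3 f_B05mm_202_s1 t 3 1 1 = true := ex3_b t15_B05mm_202_s1 k9_B05mm_202_s1

theorem t17_B05mm_202_s1 : ∃ t, chk3 f_B05mm_202_s1 t 2 1 1 = true := ex3_b k0_B05mm_202_s1 k1_B05mm_202_s1

theorem t18_B05mm_202_s1 : ∃ t, chk3 f_B05mm_202_s1 t 1 1 1 = true := ex3_a t17_B05mm_202_s1 t16_B05mm_202_s1

theorem c_B05mm_202_s1 : CertF 0 536870912 1073741824 536870912 991146299 28908434 false false false .pp 2 0 2
    ndB0q2 ndB5q2 pcB0 cut_B05mm_202_s1 xt_B05mm_202_s1 :=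
  certF1 (fam := false) (s1 := false) (s2 := false) (a := 2) (b := 0) (c := 2) (cn := .pp) (n1 := ndB0q2) (n2 := ndB5q2) (pc := pcB0) (cut := cut_B05mm_202_s1) (xt := xt_B05mm_202_s1) (P1 := 0) (W1 := 536870912) (P2 := 1073741824) (W2 := 536870912) (P3 := 991146299) (W3 := 28908434)
    rfl (fun _ => rfl) t18_B05mm_202_s1

theorem s_B05mm_202_s1 {κ x : ℝ} (hκ : κ * h0 = ken x) (hx : ((991146299 : ℕ) : ℝ) / S ≤ x)
    (hx' : x ≤ (((991146299 : ℕ) : ℝ) + (28908434 : ℕ)) / S)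
    (H : CutB (VFD κ) PP tK tL pcB (Cut.of [[⟨0, 1, 0, 26843545⟩, ⟨1, 0, 0, 26843545⟩, ⟨2, 1, 0, 26843545⟩]]) 2 0 2 0 5 (sgb false) (sgb false) x) :
    AltB (VFD κ) PP tK tL pcB [⟨3, 0, 0, 1449551462⟩] 2 0 2 0 5 (sgb false) (sgb false) x :=
  strip_altBD (m := 1449551462) true rfl hκ (SH.κ0 hκ (SH.hx1 hx).le (SH.hx2 hx').le) (SH.hx1 hx).le (SH.hx2 hx') (covB02).cov (covB52).cov hx hx' c_B05mm_202_s1 H ((okx hx hx').extB (T := tt) (sideB hx hx') hκ rfl rfl (.O 2 false) (.N 2 false) (Or.inl rfl))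

noncomputable def cut_B05mm_203_s1 : Cut := Cut.of [[⟨4, 0, 0, 1449551462⟩]]

noncomputable def xt_B05mm_203_s1 : Ext := strExt dd false false false .u2 .s2m .u0m .up 2 0 3 rfl rfl gf0 vv ndB0q2 ndB5q3

noncomputable def f_B05mm_203_s1 : ℕ → ℕ → ℕ → ℕ → Bool := onCell 0 536870912 0 1230186008 991146299 28908434
    (rowF 0 false false false .up 2 0 3 (qsf 0 536870912 0 1230186008 0) ndB0q2 ndB5q3 pcB0 cut_B05mm_203_s1 xt_B05mm_203_s1)

def k0_B05mm_203_s1 : ∃ t, chk3 f_B05mm_203_s1 t 1 1 1 = true :=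
  ⟨(b (l 2) (b (l 2) (a (b (a (b (l 2) (a (l 531838735) (a (l 531647503) (b (l 2) (l 3))))) (l 3)) (a (b (a (b (a (b (l 16643008) (l 16619072)) (l 531583247)) (a (b (l 16596672) (l 16579128)) (b (l 16647512) (l 16623112)))) (b (a (l 531420943) (l 531209999)) (a (l 531333647) (l 531103503)))) (a (b (a (l 16550360) (b (l 16600736) (l 16583224))) (a (l 16515496) (l 16470464))) (b (a (b (l 16651584) (l 16626432)) (l 531064847)) (a (b (l 16499608) (l 16586880)) (b (l 16655160) (l 16545272)))))) (b (a (b (l 3) (l 529578511)) (l 3)) (a (b (a (l 530761743) (l 530400015)) (a (l 530784271) (l 530405135))) (b (l 3) (a (a (l 530080783) (l 3)) (l 3))))))) (l 3)))), by decide +kernel⟩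

theorem c_B05mm_203_s1 : CertF 0 536870912 0 1230186008 991146299 28908434 false false false .up 2 0 3
    ndB0q2 ndB5q3 pcB0 cut_B05mm_203_s1 xt_B05mm_203_s1 :=
  certF0 (fam := false) (s1 := false) (s2 := false) (a := 2) (b := 0) (c := 3) (cn := .up) (n1 := ndB0q2) (n2 := ndB5q3) (pc := pcB0) (cut := cut_B05mm_203_s1) (xt := xt_B05mm_203_s1) (P1 := 0) (W1 := 536870912) (P2 := 0) (W2 := 1230186008) (P3 := 991146299) (W3 := 28908434)
    rfl k0_B05mm_203_s1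

theorem s_B05mm_203_s1 {κ x : ℝ} (hκ : κ * h0 = ken x) (hx : ((991146299 : ℕ) : ℝ) / S ≤ x)
    (hx' : x ≤ (((991146299 : ℕ) : ℝ) + (28908434 : ℕ)) / S) :
    AltB (VFD κ) PP tK tL pcB [⟨3, 0, 0, 1449551462⟩] 2 0 3 0 5 (sgb false) (sgb false) x :=
  strip_altBD (m := 1449551462) true rfl hκ (SH.κ0 hκ (SH.hx1 hx).le (SH.hx2 hx').le) (SH.hx1 hx).le (SH.hx2 hx') (covB02).cov (covB53).cov hx hx' c_B05mm_203_s1 cutB_nil ((okx hx hx').extB (T := tt) (sideB hx hx') hκ rfl rfl (.O 2 false) (.N 3 false) (Or.inl rfl))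

noncomputable def cut_B05mm_213_s1 : Cut := Cut.of [[⟨4, 0, 0, 1449551462⟩]]

noncomputable def xt_B05mm_213_s1 : Ext := strExt dd false false false .u2 .s2m .u0m .pnn 2 1 3 rfl rfl gf1 vv ndB0q2 ndB5q3

noncomputable def f_B05mm_213_s1 : ℕ → ℕ → ℕ → ℕ → Bool := onCell 0 536870912 0 1230186008 991146299 28908434
    (rowF 0 false false false .pnn 2 1 3 (qsf 0 536870912 0 1230186008 1) ndB0q2 ndB5q3 pcB1 cut_B05mm_213_s1 xt_B05mm_213_s1)

def k0_B05mm_213_s1 : ∃ t, chk3 f_B05mm_213_s1 t 1 1 1 = true :=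
  ⟨(b (a (l 3) (b (l 5) (l 3))) (b (a (b (l 3) (a (l 3) (l 3))) (l 3)) (a (b (a (b (a (b (l 525500175) (l 524788495)) (l 3)) (a (b (l 524191759) (l 523760911)) (b (a (l 523740175) (l 3)) (a (l 523280911) (l 3))))) (l 3)) (b (a (l 1) (a (l 1) (l 3))) (l 1))) (l 3)))), by decide +kernel⟩

theorem c_B05mm_213_s1 : CertF 0 536870912 0 1230186008 991146299 28908434 false false false .pnn 2 1 3
    ndB0q2 ndB5q3 pcB1 cut_B05mm_213_s1 xt_B05mm_213_s1 :=
  certF0 (fam := false) (s1 := false) (s2 := false) (a := 2) (b := 1) (c := 3) (cn := .pnn) (n1 := ndB0q2) (n2 := ndB5q3) (pc := pcB1) (cut := cut_B05mm_213_s1) (xt := xt_B05mm_213_s1) (P1 := 0) (W1 := 536870912) (P2 := 0) (W2 := 1230186008) (P3 := 991146299) (W3 := 28908434)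
    rfl k0_B05mm_213_s1

theorem s_B05mm_213_s1 {κ x : ℝ} (hκ : κ * h0 = ken x) (hx : ((991146299 : ℕ) : ℝ) / S ≤ x)
    (hx' : x ≤ (((991146299 : ℕ) : ℝ) + (28908434 : ℕ)) / S) :
    AltB (VFD κ) PP tK tL pcB [⟨3, 0, 0, 1449551462⟩] 2 1 3 0 5 (sgb false) (sgb false) x :=
  strip_altBD (m := 1449551462) true rfl hκ (SH.κ0 hκ (SH.hx1 hx).le (SH.hx2 hx').le) (SH.hx1 hx).le (SH.hx2 hx') (covB02).cov (covB53).cov hx hx' c_B05mm_213_s1 cutB_nil ((okx hx hx').extB (T := tt) (sideB hx hx') hκ rfl rfl (.O 2 false) (.N 3 false) (Or.inr rfl))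

noncomputable def cut_B50pp_001_s1 : Cut := Cut.of [[⟨4, 0, 0, 1449551462⟩]]

noncomputable def xt_B50pp_001_s1 : Ext := strExt dd false true true .s0 .u0 .u0m .up 0 0 1 rfl rfl gf0 vv ndB5q0 ndB0q1

noncomputable def f_B50pp_001_s1 : ℕ → ℕ → ℕ → ℕ → Bool := onCell 0 536870912 536870912 536870912 991146299 28908434
    (rowF 2 false true true .up 0 0 1 (qsf 0 536870912 536870912 536870912 0) ndB5q0 ndB0q1 pcB0 cut_B50pp_001_s1 xt_B50pp_001_s1)

def k0_B50pp_001_s1 : ∃ t, chk3 f_B50pp_001_s1 t 1 1 1 = true :=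
  ⟨(a (b (l 3) (b (b (l 3) (l 2)) (l 2))) (b (a (l 3) (b (l 3) (a (b (l 3) (a (l 522380815) (l 522353935))) (b (a (b (l 3) (l 521808911)) (b (l 521371151) (l 520541199))) (a (l 522397455) (b (l 522049295) (l 522707215))))))) (b (a (a (b (a (l 3) (l 523531023)) (b (l 523914255) (l 2))) (b (a (l 523301903) (b (l 522979087) (l 523319823))) (a (b (l 523847439) (l 524235023)) (l 523317263)))) (b (a (a (b (l 522890255) (l 523229199)) (l 523040015)) (a (b (l 522934287) (l 523277327)) (b (l 523070479) (l 523419407)))) (a (a (b (l 523579663) (l 523947279)) (b (l 523561231) (b (l 16414992) (l 16366744)))) (b (a (l 523622671) (l 16265792)) (a (b (l 16347000) (l 16133160)) (b (l 16198344) (l 16242376))))))) (a (a (l 2) (b (b (b (l 523593231) (l 2)) (l 2)) (l 2))) (b (a (b (a (b (l 16303400) (l 156865810519)) (b (a (l 16337560) (l 16306648)) (l 16279336))) (a (b (l 16301304) (l 2)) (b (l 16238264) (l 16196264)))) (b (a (b (l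 16259352) (l 16218864)) (l 16012840)) (a (l 16071544) (l 16013960)))) (a (b (a (l 2) (l 306115285447)) (l 2)) (b (a (l 15901040) (l 6)) (l 6)))))))), by decide +kernel⟩

theorem c_B50pp_001_s1 : CertF 0 536870912 536870912 536870912 991146299 28908434 false true true .up 0 0 1
    ndB5q0 ndB0q1 pcB0 cut_B50pp_001_s1 xt_B50pp_001_s1 :=
  certF2 (fam := false) (s1 := true) (s2 := true) (a := 0) (b := 0) (c := 1) (cn := .up) (n1 := ndB5q0) (n2 := ndB0q1) (pc := pcB0) (cut := cut_B50pp_001_s1) (xt := xt_B50pp_001_s1) (P1 := 0) (W1 := 536870912) (P2 := 536870912) (W2 := 536870912) (P3 := 991146299) (W3 := 28908434)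
    rfl (fun _ => rfl) k0_B50pp_001_s1

theorem s_B50pp_001_s1 {κ x : ℝ} (hκ : κ * h0 = ken x) (hx : ((991146299 : ℕ) : ℝ) / S ≤ x)
    (hx' : x ≤ (((991146299 : ℕ) : ℝ) + (28908434 : ℕ)) / S) :
    AltB (VFD κ) PP tK tL pcB [⟨3, 0, 0, 1449551462⟩] 0 0 1 5 0 (sgb true) (sgb true) x :=
  strip_altBD (m := 1449551462) true rfl hκ (SH.κ0 hκ (SH.hx1 hx).le (SH.hx2 hx').le) (SH.hx1 hx).le (SH.hx2 hx') (covB50).cov (covB01).cov hx hx' c_B50pp_001_s1 cutB_nil ((okx hx hx').extB (T := tt) (sideB hx hx') hκ rfl rfl (.N 0 true) (.O 1 true) (Or.inl rfl))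

noncomputable def cut_B50pp_011_s1 : Cut := Cut.of [[⟨4, 0, 0, 1449551462⟩]]

noncomputable def xt_B50pp_011_s1 : Ext := strExt dd false true true .s0 .u0 .u0m .pnn 0 1 1 rfl rfl gf1 vv ndB5q0 ndB0q1

noncomputable def f_B50pp_011_s1 : ℕ → ℕ → ℕ → ℕ → Bool := onCell 536870912 536870912 536870912 536870912 991146299 28908434
    (rowF 2 false true true .pnn 0 1 1 (qsf 0 536870912 536870912 536870912 1) ndB5q0 ndB0q1 pcB1 cut_B50pp_011_s1 xt_B50pp_011_s1)

def k0_B50pp_011_s1 : ∃ t, chk3 f_B50pp_011_s1 t 1 1 1 = true :=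
  ⟨(a (b (a (b (a (b (l 3) (l 535853071)) (a (b (l 534795535) (l 535773711)) (b (l 1) (l 534576655)))) (a (b (a (l 533790223) (l 534542095)) (b (a (l 532719119) (l 533325327)) (a (l 531769615) (l 532445199)))) (b (a (l 534774543) (l 534598671)) (b (a (l 533751055) (l 16701240)) (c (l 533272847) (l 533058575)))))) (b (a (a (b (l 1) (l 533010959)) (l 1)) (l 1)) (a (b (a (l 533637135) (l 532053007)) (a (b (l 16588848) (l 16638224)) (b (l 16609064) (l 16495400)))) (b (a (l 530493455) (l 1)) (a (b (l 16517544) (a (l 16498032) (l 16429376))) (b (l 16112096) (l 16056576))))))) (b (a (b (a (a (b (l 530785295) (l 16480384)) (c (l 531167503) (l 530911247))) (b (c (l 532559375) (l 532278287)) (a (b (l 16568968) (l 16446984)) (b (l 16561856) (l 16520744))))) (a (b (a (b (l 16495576) (a (l 16447672) (l 16363096))) (b (a (l 16488560) (l 16489432)) (l 16456872))) (a (b (l 16420336) (l 16410696)) (l 16425976))) (b (a (a (l 16476688)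 (l 16473392)) (l 16452896)) (a (l 16417448) (l 16332472))))) (a (b (a (b (b (l 16602904) (l 16487120)) (l 16325984)) (b (b (l 16453080) (l 16481496)) (l 16373552))) (a (b (l 16370472) (l 6)) (l 6))) (b (a (b (l 16343928) (l 16207424)) (b (l 16163008) (l 6))) (l 6)))) (a (b (a (b (a (l 16411128) (l 16376992)) (a (l 16235960) (l 6))) (b (l 6) (l 6))) (l 6)) (l 6)))) (b (a (b (l 1) (a (a (b (l 1) (b (l 1) (l 16152632))) (l 1)) (l 1))) (l 1)) (b (a (a (l 6) (l 6)) (l 6)) (l 6)))), by decide +kernel⟩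

theorem c_B50pp_011_s1 : CertF 0 536870912 536870912 536870912 991146299 28908434 false true true .pnn 0 1 1
    ndB5q0 ndB0q1 pcB1 cut_B50pp_011_s1 xt_B50pp_011_s1 :=
  certF2 (fam := false) (s1 := true) (s2 := true) (a := 0) (b := 1) (c := 1) (cn := .pnn) (n1 := ndB5q0) (n2 := ndB0q1) (pc := pcB1) (cut := cut_B50pp_011_s1) (xt := xt_B50pp_011_s1) (P1 := 0) (W1 := 536870912) (P2 := 536870912) (W2 := 536870912) (P3 := 991146299) (W3 := 28908434)
    rfl (fun _ => rfl) k0_B50pp_011_s1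

theorem s_B50pp_011_s1 {κ x : ℝ} (hκ : κ * h0 = ken x) (hx : ((991146299 : ℕ) : ℝ) / S ≤ x)
    (hx' : x ≤ (((991146299 : ℕ) : ℝ) + (28908434 : ℕ)) / S) :
    AltB (VFD κ) PP tK tL pcB [⟨3, 0, 0, 1449551462⟩] 0 1 1 5 0 (sgb true) (sgb true) x :=
  strip_altBD (m := 1449551462) true rfl hκ (SH.κ0 hκ (SH.hx1 hx).le (SH.hx2 hx').le) (SH.hx1 hx).le (SH.hx2 hx') (covB50).cov (covB01).cov hx hx' c_B50pp_011_s1 cutB_nil ((okx hx hx').extB (T := tt) (sideB hx hx') hκ rfl rfl (.N 0 true) (.O 1 true) (Or.inr rfl))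

noncomputable def cut_B50pp_012_s1 : Cut := Cut.of [[⟨4, 0, 0, 1449551462⟩]]

noncomputable def f_B50pp_012_s1 : ℕ → ℕ → ℕ → ℕ → Bool := onCell 0 536870912 0 536870912 991146299 28908434
    (rowF 0 false true true .pnp 0 1 2 (qsf 0 536870912 0 536870912 1) ndB5q0 ndB0q2 pcB1 cut_B50pp_012_s1 Ext.none)

def k0_B50pp_012_s1 : ∃ t, chk3 f_B50pp_012_s1 t 1 1 1 = true :=
  ⟨(b (l 6) (l 6)), by decide +kernel⟩

theorem c_B50pp_012_s1 : CertF 0 536870912 0 536870912 991146299 28908434 false true true .pnp 0 1 2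
    ndB5q0 ndB0q2 pcB1 cut_B50pp_012_s1 Ext.none :=
  certF0 (fam := false) (s1 := true) (s2 := true) (a := 0) (b := 1) (c := 2) (cn := .pnp) (n1 := ndB5q0) (n2 := ndB0q2) (pc := pcB1) (cut := cut_B50pp_012_s1) (xt := Ext.none) (P1 := 0) (W1 := 536870912) (P2 := 0) (W2 := 536870912) (P3 := 991146299) (W3 := 28908434)
    rfl k0_B50pp_012_s1

theorem s_B50pp_012_s1 {κ x : ℝ} (hκ : κ * h0 = ken x) (hx : ((991146299 : ℕ) : ℝ) / S ≤ x)
    (hx' : x ≤ (((991146299 : ℕ) : ℝ) + (28908434 : ℕ)) / S) :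
    AltB (VFD κ) PP tK tL pcB [⟨3, 0, 0, 1449551462⟩] 0 1 2 5 0 (sgb true) (sgb true) x :=
  strip_altBD (m := 1449551462) true rfl hκ (SH.κ0 hκ (SH.hx1 hx).le (SH.hx2 hx').le) (SH.hx1 hx).le (SH.hx2 hx') (covB50).cov (covB02).cov hx hx' c_B50pp_012_s1 cutB_nil (noExt_B)

noncomputable def cut_B50pp_022_s1 : Cut := Cut.of [[⟨4, 0, 0, 1449551462⟩]]

noncomputable def f_B50pp_022_s1 : ℕ → ℕ → ℕ → ℕ → Bool := onCell 1073741824 536870912 0 536870912 991146299 28908434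
    (rowF 2 false true true .pp 0 2 2 (qsf 0 536870912 0 536870912 2) ndB5q0 ndB0q2 pcB2 cut_B50pp_022_s1 Ext.none)

def k0_B50pp_022_s1 : ∃ t, chk3 f_B50pp_022_s1 t 1 1 1 = true :=
  ⟨(l 6), by decide +kernel⟩

theorem c_B50pp_022_s1 : CertF 0 536870912 0 536870912 991146299 28908434 false true true .pp 0 2 2
    ndB5q0 ndB0q2 pcB2 cut_B50pp_022_s1 Ext.none :=
  certF2 (fam := false) (s1 := true) (s2 := true) (a := 0) (b := 2) (c := 2) (cn := .pp) (n1 := ndB5q0) (n2 := ndB0q2) (pc := pcB2) (cut := cut_B50pp_022_s1) (xt := Ext.none) (P1 := 0) (W1 := 536870912) (P2 := 0) (W2 := 536870912) (P3 := 991146299) (W3 := 28908434)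
    rfl (fun _ => rfl) k0_B50pp_022_s1

theorem s_B50pp_022_s1 {κ x : ℝ} (hκ : κ * h0 = ken x) (hx : ((991146299 : ℕ) : ℝ) / S ≤ x)
    (hx' : x ≤ (((991146299 : ℕ) : ℝ) + (28908434 : ℕ)) / S) :
    AltB (VFD κ) PP tK tL pcB [⟨3, 0, 0, 1449551462⟩] 0 2 2 5 0 (sgb true) (sgb true) x :=
  strip_altBD (m := 1449551462) true rfl hκ (SH.κ0 hκ (SH.hx1 hx).le (SH.hx2 hx').le) (SH.hx1 hx).le (SH.hx2 hx') (covB50).cov (covB02).cov hx hx' c_B50pp_022_s1 cutB_nil (noExt_B)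

noncomputable def cut_B50pp_101_s1 : Cut := Cut.of [[⟨4, 0, 0, 1449551462⟩], [⟨0, 1, 0, 26843545⟩, ⟨1, 0, 0, 26843545⟩, ⟨2, 1, 0, 26843545⟩]]

noncomputable def xt_B50pp_101_s1 : Ext := strExt dd false true true .s0 .u0 .u0m .npn 1 0 1 rfl rfl gf0 vv ndB5q1 ndB0q1

noncomputable def f_B50pp_101_s1 : ℕ → ℕ → ℕ → ℕ → Bool := onCell 0 536870912 536870912 536870912 991146299 28908434
    (rowF 2 false true true .npn 1 0 1 (qsf 536870912 536870912 536870912 536870912 0) ndB5q1 ndB0q1 pcB0 cut_B50pp_101_s1 xt_B50pp_101_s1)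

def k0_B50pp_101_s1 : ∃ t, chk3 f_B50pp_101_s1 t 2 2 1 = true :=
  ⟨(l 3), by decide +kernel⟩

def k1_B50pp_101_s1 : ∃ t, chk3 f_B50pp_101_s1 t 4 6 1 = true :=
  ⟨(l 3), by decide +kernel⟩

def k2_B50pp_101_s1 : ∃ t, chk3 f_B50pp_101_s1 t 8 7 1 = true :=
  ⟨(b (l 3) (a (b (l 3) (b (b (l 3) (a (l 3) (a (l 3) (a (l 3) (l 527933711))))) (b (a (b (l 3) (b (l 3) (b (l 3) (l 14)))) (a (a (b (l 3) (a (l 527324943) (l 527407631))) (b (l 527550991) (a (l 527488783) (l 527568911)))) (a (b (l 527717391) (l 527648783)) (b (l 527880207) (l 527816719))))) (a (l 14) (b (a (a (a (b (l 527307535) (l 14)) (b (l 527387407) (l 16763248))) (b (l 527457807) (l 16758824))) (b (c (l 16735024) (l 16714616)) (a (l 16753104) (l 16705592)))) (a (a (l 14) (b (a (l 16712624) (l 16751984)) (l 16750264))) (a (l 16746808) (l 16657688)))))))) (b (b (l 3) (a (l 3) (a (l 3) (l 528947471)))) (b (a (b (a (l 3) (l 528562447)) (a (a (l 528097039) (l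 528259855)) (l 528457743))) (a (b (l 528901647) (l 528807695)) (b (l 529347599) (l 529158671)))) (b (a (a (a (l 527964943) (l 528136463)) (l 528333583)) (a (b (l 16661216) (l 16734264)) (b (l 16736376) (l 16725984)))) (a (b (a (a (l 16724208) (l 16698352)) (a (l 16735664) (l 16731192))) (a (l 16734080) (l 16724296))) (a (b (l 16724608) (l 16714768)) (l 16710752)))))))), by decide +kernel⟩

def k3_B50pp_101_s1 : ∃ t, chk3 f_B50pp_101_s1 t 9 7 1 = true :=
  ⟨(b (a (l 3) (b (l 3) (b (l 3) (l 528522767)))) (b (a (b (a (l 3) (l 529449231)) (a (b (l 529269263) (l 529601551)) (a (l 529754639) (l 529804303)))) (b (l 528856335) (a (l 529395215) (l 529088015)))) (b (b (a (a (l 529865231) (l 530118927)) (a (l 16721264) (l 16699328))) (a (a (l 529706255) (a (l 16727888) (l 16719216))) (a (a (l 16709568) (l 16699456)) (l 16724568)))) (a (b (a (c (l 16739824) (a (l 16724328) (l 16717056))) (a (l 16708616) (l 16700064))) (a (a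 (l 16702128) (l 16693816)) (l 16680920))) (a (b (l 16684848) (l 16662504)) (b (l 16662528) (l 16640304))))))), by decide +kernel⟩

def k4_B50pp_101_s1 : ∃ t, chk3 f_B50pp_101_s1 t 5 3 1 = true :=
  ⟨(b (a (l 3) (b (l 3) (b (l 3) (a (l 525699087) (l 525226767))))) (b (a (b (a (l 3) (l 526741519)) (a (b (l 527748111) (l 528082959)) (a (l 527488271) (l 527165199)))) (b (a (l 525646095) (l 525690639)) (a (b (l 526583055) (l 526866703)) (b (l 526071311) (l 16511200))))) (a (b (a (b (l 528398863) (b (l 528637455) (l 16680072))) (b (l 527862031) (c (a (l 16563440) (l 16536048)) (a (l 16650648) (l 16622096))))) (a (b (b (c (l 16661600) (l 16727128)) (c (l 16646624) (l 16642696))) (a (l 16626280) (l 16599480))) (b (a (l 16676280) (l 16583944)) (a (l 16571344) (l 16541912))))) (b (a (b (a (l 16630992) (l 16515656)) (a (b (l 16516592) (l 16581648)) (l 16477104))) (b (c (l 16467560) (l 16468040)) (b (l 16437344) (l 16417696))))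 (a (b (a (l 16553352) (l 16437744)) (l 16495136)) (b (l 16472248) (l 16429536))))))), by decide +kernel⟩

def k5_B50pp_101_s1 : ∃ t, chk3 f_B50pp_101_s1 t 3 1 1 = true :=
  ⟨(b (a (l 3) (l 1)) (b (a (a (b (a (l 3) (l 523531023)) (b (l 523914255) (a (l 524823055) (l 524492815)))) (b (a (l 523301903) (l 1)) (a (b (l 523847439) (l 524235023)) (l 523317263)))) (b (l 1) (a (a (b (l 1) (l 16335896)) (l 1)) (l 1)))) (a (b (a (b (a (l 525268751) (l 524921359)) (a (b (l 16490256) (a (l 16545800) (l 16510576))) (b (l 16506096) (c (l 16461840) (l 16461024))))) (b (a (l 524648975) (b (l 16460752) (l 16243384))) (c (a (b (l 16434160) (l 16398552)) (l 16356000)) (a (b (l 16437136) (l 16388208)) (l 16259424))))) (a (b (a (b (c (l 16490384) (l 16400568)) (l 16361176)) (b (l 16334872) (l 16293544))) (a (b (l 16320888) (l 16361128)) (b (l 16252200) (l 16207848)))) (b (a (b (l 16351456) (l 16309392)) (b (l 16284512) (l 16241800)))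 (c (l 16005776) (a (l 16198624) (l 16122960)))))) (b (a (b (a (b (l 16304744) (l 16178104)) (b (l 1) (l 16280632))) (a (b (l 16302792) (l 16261168)) (l 16134688))) (b (l 1) (a (l 16157728) (l 1)))) (a (b (c (l 16117392) (l 15874296)) (c (l 16051408) (l 15844840))) (b (a (l 15987416) (l 6)) (l 6))))))), by decide +kernel⟩

theorem t6_B50pp_101_s1 : ∃ t, chk3 f_B50pp_101_s1 t 4 7 1 = true := ex3_a k2_B50pp_101_s1 k3_B50pp_101_s1

theorem t7_B50pp_101_s1 : ∃ t, chk3 f_B50pp_101_s1 t 4 3 1 = true := ex3_b k1_B50pp_101_s1 t6_B50pp_101_s1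

theorem t8_B50pp_101_s1 : ∃ t, chk3 f_B50pp_101_s1 t 2 3 1 = true := ex3_a t7_B50pp_101_s1 k4_B50pp_101_s1

theorem t9_B50pp_101_s1 : ∃ t, chk3 f_B50pp_101_s1 t 2 1 1 = true := ex3_b k0_B50pp_101_s1 t8_B50pp_101_s1

theorem t10_B50pp_101_s1 : ∃ t, chk3 f_B50pp_101_s1 t 1 1 1 = true := ex3_a t9_B50pp_101_s1 k5_B50pp_101_s1

theorem c_B50pp_101_s1 : CertF 536870912 536870912 536870912 536870912 991146299 28908434 false true true .npn 1 0 1
    ndB5q1 ndB0q1 pcB0 cut_B50pp_101_s1 xt_B50pp_101_s1 :=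
  certF2 (fam := false) (s1 := true) (s2 := true) (a := 1) (b := 0) (c := 1) (cn := .npn) (n1 := ndB5q1) (n2 := ndB0q1) (pc := pcB0) (cut := cut_B50pp_101_s1) (xt := xt_B50pp_101_s1) (P1 := 536870912) (W1 := 536870912) (P2 := 536870912) (W2 := 536870912) (P3 := 991146299) (W3 := 28908434)
    rfl (fun _ => rfl) t10_B50pp_101_s1

theorem s_B50pp_101_s1 {κ x : ℝ} (hκ : κ * h0 = ken x) (hx : ((991146299 : ℕ) : ℝ) / S ≤ x)
    (hx' : x ≤ (((991146299 : ℕ) : ℝ) + (28908434 : ℕ)) / S)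
    (H : CutB (VFD κ) PP tK tL pcB (Cut.of [[⟨0, 1, 0, 26843545⟩, ⟨1, 0, 0, 26843545⟩, ⟨2, 1, 0, 26843545⟩]]) 1 0 1 5 0 (sgb true) (sgb true) x) :
    AltB (VFD κ) PP tK tL pcB [⟨3, 0, 0, 1449551462⟩] 1 0 1 5 0 (sgb true) (sgb true) x :=
  strip_altBD (m := 1449551462) true rfl hκ (SH.κ0 hκ (SH.hx1 hx).le (SH.hx2 hx').le) (SH.hx1 hx).le (SH.hx2 hx') (covB51).cov (covB01).cov hx hx' c_B50pp_101_s1 H ((okx hx hx').extB (T := tt) (sideB hx hx') hκ rfl rfl (.N 1 true) (.O 1 true) (Or.inl rfl))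

noncomputable def cut_B50pp_102_s1 : Cut := Cut.of [[⟨4, 0, 0, 1449551462⟩], [⟨0, 1, 0, 53687091⟩, ⟨1, 0, 0, 53687091⟩, ⟨2, 1, 0, 53687091⟩]]

noncomputable def f_B50pp_102_s1 : ℕ → ℕ → ℕ → ℕ → Bool := onCell 0 536870912 0 536870912 991146299 28908434
    (rowF 2 false true true .npp 1 0 2 (qsf 536870912 536870912 0 536870912 0) ndB5q1 ndB0q2 pcB0 cut_B50pp_102_s1 Ext.none)

def k0_B50pp_102_s1 : ∃ t, chk3 f_B50pp_102_s1 t 2 1 1 = true :=
  ⟨(b (a (l 6) (l 6)) (a (b (a (l 2) (b (l 6) (a (a (b (l 2) (c (l 15672688) (l 15687736))) (b (c (l 15482576) (l 15512992)) (c (l 15699800) (l 15709360)))) (b (l 6) (l 15620296))))) (a (b (a (l 2) (a (b (l 2) (b (l 2) (l 14))) (b (a (l 2) (c (l 15884384) (l 15884888))) (a (b (l 16056648) (l 16186784)) (b (l 16067936) (l 16194856)))))) (a (l 14) (a (l 14) (b (b (a (l 16320784) (l 16325624)) (a (l 16459368) (l 16376544))) (b (a (b (l 16555936) (l 16601712)) (l 16485400)) (b (l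 16555952) (l 16683296))))))) (b (a (a (b (c (l 15905984) (l 15903208)) (b (l 16081280) (l 16203752))) (b (c (l 15925944) (l 15914408)) (b (l 16090256) (l 16208224)))) (b (a (l 15919096) (l 15917616)) (a (l 16146520) (l 16143848)))) (b (a (a (b (l 16246152) (c (l 16389352) (l 16437272))) (b (l 16329928) (b (l 16419560) (l 16468784)))) (b (a (l 16327080) (l 16319048)) (a (l 16428584) (l 16413880)))) (a (a (b (l 16470256) (b (l 16620344) (l 16664408))) (b (l 16452272) (l 16624920))) (b (b (l 16404232) (l 16447728)) (a (l 16607224) (l 16586520)))))))) (b (a (b (l 6) (a (b (l 6) (l 15704896)) (l 6))) (l 6)) (b (a (a (b (l 15915832) (c (l 16175872) (l 16097904))) (b (l 15909112) (b (l 16066632) (l 16174776)))) (b (l 6) (a (b (l 16038912) (l 16139192)) (l 15885840)))) (a (b (a (b (l 16130256) (l 16302848)) (c (l 16266376) (l 16168840))) (a (b (l 16469880) (l 16383072)) (b (l 16335744) (l 16495784)))) (b (a (l 16087728)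 (l 16119992)) (a (l 16317712) (l 16340592)))))))), by decide +kernel⟩

def k1_B50pp_102_s1 : ∃ t, chk3 f_B50pp_102_s1 t 3 1 1 = true :=
  ⟨(b (l 6) (b (l 6) (a (b (l 6) (a (b (c (l 16197120) (l 16042920)) (c (l 16299600) (l 16101704))) (b (l 6) (c (l 16183584) (l 16040312))))) (l 6)))), by decide +kernel⟩

theorem t2_B50pp_102_s1 : ∃ t, chk3 f_B50pp_102_s1 t 1 1 1 = true := ex3_a k0_B50pp_102_s1 k1_B50pp_102_s1

theorem c_B50pp_102_s1 : CertF 536870912 536870912 0 536870912 991146299 28908434 false true true .npp 1 0 2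
    ndB5q1 ndB0q2 pcB0 cut_B50pp_102_s1 Ext.none :=
  certF2 (fam := false) (s1 := true) (s2 := true) (a := 1) (b := 0) (c := 2) (cn := .npp) (n1 := ndB5q1) (n2 := ndB0q2) (pc := pcB0) (cut := cut_B50pp_102_s1) (xt := Ext.none) (P1 := 536870912) (W1 := 536870912) (P2 := 0) (W2 := 536870912) (P3 := 991146299) (W3 := 28908434)
    rfl (fun _ => rfl) t2_B50pp_102_s1

theorem s_B50pp_102_s1 {κ x : ℝ} (hκ : κ * h0 = ken x) (hx : ((991146299 : ℕ) : ℝ) / S ≤ x)
    (hx' : x ≤ (((991146299 : ℕ) : ℝ) + (28908434 : ℕ)) / S)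
    (H : CutB (VFD κ) PP tK tL pcB (Cut.of [[⟨0, 1, 0, 53687091⟩, ⟨1, 0, 0, 53687091⟩, ⟨2, 1, 0, 53687091⟩]]) 1 0 2 5 0 (sgb true) (sgb true) x) :
    AltB (VFD κ) PP tK tL pcB [⟨3, 0, 0, 1449551462⟩] 1 0 2 5 0 (sgb true) (sgb true) x :=
  strip_altBD (m := 1449551462) true rfl hκ (SH.κ0 hκ (SH.hx1 hx).le (SH.hx2 hx').le) (SH.hx1 hx).le (SH.hx2 hx') (covB51).cov (covB02).cov hx hx' c_B50pp_102_s1 H (noExt_B)

noncomputable def cut_B50pp_112_s1 : Cut := Cut.of [[⟨4, 0, 0, 1449551462⟩]]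

noncomputable def f_B50pp_112_s1 : ℕ → ℕ → ℕ → ℕ → Bool := onCell 536870912 536870912 0 536870912 991146299 28908434
    (rowF 2 false true true .dn 1 1 2 (qsf 536870912 536870912 0 536870912 1) ndB5q1 ndB0q2 pcB1 cut_B50pp_112_s1 Ext.none)

def k0_B50pp_112_s1 : ∃ t, chk3 f_B50pp_112_s1 t 1 1 1 = true :=
  ⟨(b (l 6) (l 6)), by decide +kernel⟩

theorem c_B50pp_112_s1 : CertF 536870912 536870912 0 536870912 991146299 28908434 false true true .dn 1 1 2
    ndB5q1 ndB0q2 pcB1 cut_B50pp_112_s1 Ext.none :=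
  certF2 (fam := false) (s1 := true) (s2 := true) (a := 1) (b := 1) (c := 2) (cn := .dn) (n1 := ndB5q1) (n2 := ndB0q2) (pc := pcB1) (cut := cut_B50pp_112_s1) (xt := Ext.none) (P1 := 536870912) (W1 := 536870912) (P2 := 0) (W2 := 536870912) (P3 := 991146299) (W3 := 28908434)
    rfl (fun _ => rfl) k0_B50pp_112_s1

theorem s_B50pp_112_s1 {κ x : ℝ} (hκ : κ * h0 = ken x) (hx : ((991146299 : ℕ) : ℝ) / S ≤ x)
    (hx' : x ≤ (((991146299 : ℕ) : ℝ) + (28908434 : ℕ)) / S) :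
    AltB (VFD κ) PP tK tL pcB [⟨3, 0, 0, 1449551462⟩] 1 1 2 5 0 (sgb true) (sgb true) x :=
  strip_altBD (m := 1449551462) true rfl hκ (SH.κ0 hκ (SH.hx1 hx).le (SH.hx2 hx').le) (SH.hx1 hx).le (SH.hx2 hx') (covB51).cov (covB02).cov hx hx' c_B50pp_112_s1 cutB_nil (noExt_B)

noncomputable def cut_B50pp_202_s1 : Cut := Cut.of [[⟨4, 0, 0, 1449551462⟩], [⟨0, 1, 0, 53687091⟩, ⟨1, 0, 0, 53687091⟩, ⟨2, 1, 0, 53687091⟩]]

noncomputable def f_B50pp_202_s1 : ℕ → ℕ → ℕ → ℕ → Bool := onCell 0 536870912 0 536870912 991146299 28908434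
    (rowF 2 false true true .pp 2 0 2 (qsf 1073741824 536870912 0 536870912 0) ndB5q2 ndB0q2 pcB0 cut_B50pp_202_s1 Ext.none)

def k0_B50pp_202_s1 : ∃ t, chk3 f_B50pp_202_s1 t 1 1 1 = true :=
  ⟨(a (b (a (l 6) (l 6)) (a (b (a (b (a (a (l 16175768) (l 15997960)) (a (a (l 15853256) (l 15673160)) (a (l 15699088) (l 6)))) (a (a (b (l 16277136) (l 16144280)) (b (l 16085768) (b (l 16136512) (l 16000152)))) (a (b (a (l 15930192) (a (l 15848816) (a (l 15812704) (l 15800752)))) (a (b (l 15976152) (l 16020968)) (a (l 15917480) (l 15882776)))) (b (a (l 15771768) (l 15723936)) (a (l 15853392) (l 15810288)))))) (b (l 6) (a (a (b (c (l 15636096) (l 15666688)) (c (l 15732840) (l 15748568))) (b (c (l 15524320) (l 15555000)) (c (l 15627832) (l 15636464)))) (b (l 6) (l 1))))) (a (b (a (b (a (b (l 16237360) (l 16356328)) (a (l 16281664) (l 16189920))) (b (a (l 16392800) (a (l 16350248) (l 16267488))) (l 14))) (a (b (a (l 16099952)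 (a (l 16033616) (l 15999144))) (b (a (l 16186328) (l 16110320)) (l 14))) (b (a (c (l 15965016) (l 15967152)) (l 15918984)) (a (b (l 16058640) (l 16124864)) (l 230349806631))))) (a (l 14) (a (l 14) (l 1)))) (b (a (a (b (c (l 15845776) (l 15841920)) (l 1)) (l 1)) (l 1)) (l 1)))) (b (l 1) (l 1)))) (l 1)), by decide +kernel⟩

theorem c_B50pp_202_s1 : CertF 1073741824 536870912 0 536870912 991146299 28908434 false true true .pp 2 0 2
    ndB5q2 ndB0q2 pcB0 cut_B50pp_202_s1 Ext.none :=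
  certF2 (fam := false) (s1 := true) (s2 := true) (a := 2) (b := 0) (c := 2) (cn := .pp) (n1 := ndB5q2) (n2 := ndB0q2) (pc := pcB0) (cut := cut_B50pp_202_s1) (xt := Ext.none) (P1 := 1073741824) (W1 := 536870912) (P2 := 0) (W2 := 536870912) (P3 := 991146299) (W3 := 28908434)
    rfl (fun _ => rfl) k0_B50pp_202_s1

theorem s_B50pp_202_s1 {κ x : ℝ} (hκ : κ * h0 = ken x) (hx : ((991146299 : ℕ) : ℝ) / S ≤ x)
    (hx' : x ≤ (((991146299 : ℕ) : ℝ) + (28908434 : ℕ)) / S)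
    (H : CutB (VFD κ) PP tK tL pcB (Cut.of [[⟨0, 1, 0, 53687091⟩, ⟨1, 0, 0, 53687091⟩, ⟨2, 1, 0, 53687091⟩]]) 2 0 2 5 0 (sgb true) (sgb true) x) :
    AltB (VFD κ) PP tK tL pcB [⟨3, 0, 0, 1449551462⟩] 2 0 2 5 0 (sgb true) (sgb true) x :=
  strip_altBD (m := 1449551462) true rfl hκ (SH.κ0 hκ (SH.hx1 hx).le (SH.hx2 hx').le) (SH.hx1 hx).le (SH.hx2 hx') (covB52).cov (covB02).cov hx hx' c_B50pp_202_s1 H (noExt_B)

noncomputable def cut_B50pm_001_s1 : Cut := Cut.of [[⟨4, 0, 0, 1449551462⟩]]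

noncomputable def f_B50pm_001_s1 : ℕ → ℕ → ℕ → ℕ → Bool := onCell 0 536870912 536870912 536870912 991146299 28908434
    (rowF 0 false true false .up 0 0 1 (qsf 0 536870912 536870912 536870912 0) ndB5q0 ndB0q1 pcB0 cut_B50pm_001_s1 Ext.none)

def k0_B50pm_001_s1 : ∃ t, chk3 f_B50pm_001_s1 t 1 1 1 = true :=
  ⟨(l 4), by decide +kernel⟩

theorem c_B50pm_001_s1 : CertF 0 536870912 536870912 536870912 991146299 28908434 false true false .up 0 0 1
    ndB5q0 ndB0q1 pcB0 cut_B50pm_001_s1 Ext.none :=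
  certF0 (fam := false) (s1 := true) (s2 := false) (a := 0) (b := 0) (c := 1) (cn := .up) (n1 := ndB5q0) (n2 := ndB0q1) (pc := pcB0) (cut := cut_B50pm_001_s1) (xt := Ext.none) (P1 := 0) (W1 := 536870912) (P2 := 536870912) (W2 := 536870912) (P3 := 991146299) (W3 := 28908434)
    rfl k0_B50pm_001_s1

theorem s_B50pm_001_s1 {κ x : ℝ} (hκ : κ * h0 = ken x) (hx : ((991146299 : ℕ) : ℝ) / S ≤ x)
    (hx' : x ≤ (((991146299 : ℕ) : ℝ) + (28908434 : ℕ)) / S) :
    AltB (VFD κ) PP tK tL pcB [⟨3, 0, 0, 1449551462⟩] 0 0 1 5 0 (sgb true) (sgb false) x :=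
  strip_altBD (m := 1449551462) true rfl hκ (SH.κ0 hκ (SH.hx1 hx).le (SH.hx2 hx').le) (SH.hx1 hx).le (SH.hx2 hx') (covB50).cov (covB01).cov hx hx' c_B50pm_001_s1 cutB_nil (noExt_B)

noncomputable def cut_B50pm_011_s1 : Cut := Cut.of [[⟨4, 0, 0, 1449551462⟩]]

noncomputable def f_B50pm_011_s1 : ℕ → ℕ → ℕ → ℕ → Bool := onCell 0 536870912 536870912 536870912 991146299 28908434
    (rowF 0 false true false .pnn 0 1 1 (qsf 0 536870912 536870912 536870912 1) ndB5q0 ndB0q1 pcB1 cut_B50pm_011_s1 Ext.none)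

def k0_B50pm_011_s1 : ∃ t, chk3 f_B50pm_011_s1 t 1 1 1 = true :=
  ⟨(l 4), by decide +kernel⟩

theorem c_B50pm_011_s1 : CertF 0 536870912 536870912 536870912 991146299 28908434 false true false .pnn 0 1 1
    ndB5q0 ndB0q1 pcB1 cut_B50pm_011_s1 Ext.none :=
  certF0 (fam := false) (s1 := true) (s2 := false) (a := 0) (b := 1) (c := 1) (cn := .pnn) (n1 := ndB5q0) (n2 := ndB0q1) (pc := pcB1) (cut := cut_B50pm_011_s1) (xt := Ext.none) (P1 := 0) (W1 := 536870912) (P2 := 536870912) (W2 := 536870912) (P3 := 991146299) (W3 := 28908434)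
    rfl k0_B50pm_011_s1

theorem s_B50pm_011_s1 {κ x : ℝ} (hκ : κ * h0 = ken x) (hx : ((991146299 : ℕ) : ℝ) / S ≤ x)
    (hx' : x ≤ (((991146299 : ℕ) : ℝ) + (28908434 : ℕ)) / S) :
    AltB (VFD κ) PP tK tL pcB [⟨3, 0, 0, 1449551462⟩] 0 1 1 5 0 (sgb true) (sgb false) x :=
  strip_altBD (m := 1449551462) true rfl hκ (SH.κ0 hκ (SH.hx1 hx).le (SH.hx2 hx').le) (SH.hx1 hx).le (SH.hx2 hx') (covB50).cov (covB01).cov hx hx' c_B50pm_011_s1 cutB_nil (noExt_B)

noncomputable def cut_B50pm_012_s1 : Cut := Cut.of [[⟨4, 0, 0, 1449551462⟩]]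

noncomputable def f_B50pm_012_s1 : ℕ → ℕ → ℕ → ℕ → Bool := onCell 0 536870912 0 536870912 991146299 28908434
    (rowF 0 false true false .pnp 0 1 2 (qsf 0 536870912 0 536870912 1) ndB5q0 ndB0q2 pcB1 cut_B50pm_012_s1 Ext.none)

def k0_B50pm_012_s1 : ∃ t, chk3 f_B50pm_012_s1 t 1 1 1 = true :=
  ⟨(l 6), by decide +kernel⟩

theorem c_B50pm_012_s1 : CertF 0 536870912 0 536870912 991146299 28908434 false true false .pnp 0 1 2
    ndB5q0 ndB0q2 pcB1 cut_B50pm_012_s1 Ext.none :=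
  certF0 (fam := false) (s1 := true) (s2 := false) (a := 0) (b := 1) (c := 2) (cn := .pnp) (n1 := ndB5q0) (n2 := ndB0q2) (pc := pcB1) (cut := cut_B50pm_012_s1) (xt := Ext.none) (P1 := 0) (W1 := 536870912) (P2 := 0) (W2 := 536870912) (P3 := 991146299) (W3 := 28908434)
    rfl k0_B50pm_012_s1

theorem s_B50pm_012_s1 {κ x : ℝ} (hκ : κ * h0 = ken x) (hx : ((991146299 : ℕ) : ℝ) / S ≤ x)
    (hx' : x ≤ (((991146299 : ℕ) : ℝ) + (28908434 : ℕ)) / S) :
    AltB (VFD κ) PP tK tL pcB [⟨3, 0, 0, 1449551462⟩] 0 1 2 5 0 (sgb true) (sgb false) x :=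
  strip_altBD (m := 1449551462) true rfl hκ (SH.κ0 hκ (SH.hx1 hx).le (SH.hx2 hx').le) (SH.hx1 hx).le (SH.hx2 hx') (covB50).cov (covB02).cov hx hx' c_B50pm_012_s1 cutB_nil (noExt_B)

noncomputable def cut_B50pm_022_s1 : Cut := Cut.of [[⟨4, 0, 0, 1449551462⟩]]

noncomputable def f_B50pm_022_s1 : ℕ → ℕ → ℕ → ℕ → Bool := onCell 0 536870912 0 536870912 991146299 28908434
    (rowF 0 false true false .pp 0 2 2 (qsf 0 536870912 0 536870912 2) ndB5q0 ndB0q2 pcB2 cut_B50pm_022_s1 Ext.none)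

def k0_B50pm_022_s1 : ∃ t, chk3 f_B50pm_022_s1 t 1 1 1 = true :=
  ⟨(l 6), by decide +kernel⟩

theorem c_B50pm_022_s1 : CertF 0 536870912 0 536870912 991146299 28908434 false true false .pp 0 2 2
    ndB5q0 ndB0q2 pcB2 cut_B50pm_022_s1 Ext.none :=
  certF0 (fam := false) (s1 := true) (s2 := false) (a := 0) (b := 2) (c := 2) (cn := .pp) (n1 := ndB5q0) (n2 := ndB0q2) (pc := pcB2) (cut := cut_B50pm_022_s1) (xt := Ext.none) (P1 := 0) (W1 := 536870912) (P2 := 0) (W2 := 536870912) (P3 := 991146299) (W3 := 28908434)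
    rfl k0_B50pm_022_s1

theorem s_B50pm_022_s1 {κ x : ℝ} (hκ : κ * h0 = ken x) (hx : ((991146299 : ℕ) : ℝ) / S ≤ x)
    (hx' : x ≤ (((991146299 : ℕ) : ℝ) + (28908434 : ℕ)) / S) :
    AltB (VFD κ) PP tK tL pcB [⟨3, 0, 0, 1449551462⟩] 0 2 2 5 0 (sgb true) (sgb false) x :=
  strip_altBD (m := 1449551462) true rfl hκ (SH.κ0 hκ (SH.hx1 hx).le (SH.hx2 hx').le) (SH.hx1 hx).le (SH.hx2 hx') (covB50).cov (covB02).cov hx hx' c_B50pm_022_s1 cutB_nil (noExt_B)

noncomputable def cut_B50pm_101_s1 : Cut := Cut.of [[⟨4, 0, 0, 1449551462⟩]]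

noncomputable def f_B50pm_101_s1 : ℕ → ℕ → ℕ → ℕ → Bool := onCell 536870912 536870912 536870912 536870912 991146299 28908434
    (rowF 0 false true false .npn 1 0 1 (qsf 536870912 536870912 536870912 536870912 0) ndB5q1 ndB0q1 pcB0 cut_B50pm_101_s1 Ext.none)

def k0_B50pm_101_s1 : ∃ t, chk3 f_B50pm_101_s1 t 1 1 1 = true :=
  ⟨(l 4), by decide +kernel⟩

theorem c_B50pm_101_s1 : CertF 536870912 536870912 536870912 536870912 991146299 28908434 false true false .npn 1 0 1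
    ndB5q1 ndB0q1 pcB0 cut_B50pm_101_s1 Ext.none :=
  certF0 (fam := false) (s1 := true) (s2 := false) (a := 1) (b := 0) (c := 1) (cn := .npn) (n1 := ndB5q1) (n2 := ndB0q1) (pc := pcB0) (cut := cut_B50pm_101_s1) (xt := Ext.none) (P1 := 536870912) (W1 := 536870912) (P2 := 536870912) (W2 := 536870912) (P3 := 991146299) (W3 := 28908434)
    rfl k0_B50pm_101_s1

theorem s_B50pm_101_s1 {κ x : ℝ} (hκ : κ * h0 = ken x) (hx : ((991146299 : ℕ) : ℝ) / S ≤ x)
    (hx' : x ≤ (((991146299 : ℕ) : ℝ) + (28908434 : ℕ)) / S) :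
    AltB (VFD κ) PP tK tL pcB [⟨3, 0, 0, 1449551462⟩] 1 0 1 5 0 (sgb true) (sgb false) x :=
  strip_altBD (m := 1449551462) true rfl hκ (SH.κ0 hκ (SH.hx1 hx).le (SH.hx2 hx').le) (SH.hx1 hx).le (SH.hx2 hx') (covB51).cov (covB01).cov hx hx' c_B50pm_101_s1 cutB_nil (noExt_B)

noncomputable def cut_B50pm_102_s1 : Cut := Cut.of [[⟨4, 0, 0, 1449551462⟩]]

noncomputable def f_B50pm_102_s1 : ℕ → ℕ → ℕ → ℕ → Bool := onCell 536870912 536870912 0 536870912 991146299 28908434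
    (rowF 0 false true false .npp 1 0 2 (qsf 536870912 536870912 0 536870912 0) ndB5q1 ndB0q2 pcB0 cut_B50pm_102_s1 Ext.none)

def k0_B50pm_102_s1 : ∃ t, chk3 f_B50pm_102_s1 t 1 1 1 = true :=
  ⟨(l 6), by decide +kernel⟩

theorem c_B50pm_102_s1 : CertF 536870912 536870912 0 536870912 991146299 28908434 false true false .npp 1 0 2
    ndB5q1 ndB0q2 pcB0 cut_B50pm_102_s1 Ext.none :=
  certF0 (fam := false) (s1 := true) (s2 := false) (a := 1) (b := 0) (c := 2) (cn := .npp) (n1 := ndB5q1) (n2 := ndB0q2) (pc := pcB0) (cut := cut_B50pm_102_s1) (xt := Ext.none) (P1 := 536870912) (W1 := 536870912) (P2 := 0) (W2 := 536870912) (P3 := 991146299) (W3 := 28908434)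
    rfl k0_B50pm_102_s1

theorem s_B50pm_102_s1 {κ x : ℝ} (hκ : κ * h0 = ken x) (hx : ((991146299 : ℕ) : ℝ) / S ≤ x)
    (hx' : x ≤ (((991146299 : ℕ) : ℝ) + (28908434 : ℕ)) / S) :
    AltB (VFD κ) PP tK tL pcB [⟨3, 0, 0, 1449551462⟩] 1 0 2 5 0 (sgb true) (sgb false) x :=
  strip_altBD (m := 1449551462) true rfl hκ (SH.κ0 hκ (SH.hx1 hx).le (SH.hx2 hx').le) (SH.hx1 hx).le (SH.hx2 hx') (covB51).cov (covB02).cov hx hx' c_B50pm_102_s1 cutB_nil (noExt_B)

noncomputable def cut_B50pm_112_s1 : Cut := Cut.of [[⟨4, 0, 0, 1449551462⟩]]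

noncomputable def f_B50pm_112_s1 : ℕ → ℕ → ℕ → ℕ → Bool := onCell 536870912 536870912 0 536870912 991146299 28908434
    (rowF 0 false true false .dn 1 1 2 (qsf 536870912 536870912 0 536870912 1) ndB5q1 ndB0q2 pcB1 cut_B50pm_112_s1 Ext.none)

def k0_B50pm_112_s1 : ∃ t, chk3 f_B50pm_112_s1 t 1 1 1 = true :=
  ⟨(l 6), by decide +kernel⟩

theorem c_B50pm_112_s1 : CertF 536870912 536870912 0 536870912 991146299 28908434 false true false .dn 1 1 2
    ndB5q1 ndB0q2 pcB1 cut_B50pm_112_s1 Ext.none :=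
  certF0 (fam := false) (s1 := true) (s2 := false) (a := 1) (b := 1) (c := 2) (cn := .dn) (n1 := ndB5q1) (n2 := ndB0q2) (pc := pcB1) (cut := cut_B50pm_112_s1) (xt := Ext.none) (P1 := 536870912) (W1 := 536870912) (P2 := 0) (W2 := 536870912) (P3 := 991146299) (W3 := 28908434)
    rfl k0_B50pm_112_s1

theorem s_B50pm_112_s1 {κ x : ℝ} (hκ : κ * h0 = ken x) (hx : ((991146299 : ℕ) : ℝ) / S ≤ x)
    (hx' : x ≤ (((991146299 : ℕ) : ℝ) + (28908434 : ℕ)) / S) :
    AltB (VFD κ) PP tK tL pcB [⟨3, 0, 0, 1449551462⟩] 1 1 2 5 0 (sgb true) (sgb false) x :=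
  strip_altBD (m := 1449551462) true rfl hκ (SH.κ0 hκ (SH.hx1 hx).le (SH.hx2 hx').le) (SH.hx1 hx).le (SH.hx2 hx') (covB51).cov (covB02).cov hx hx' c_B50pm_112_s1 cutB_nil (noExt_B)

noncomputable def cut_B50pm_202_s1 : Cut := Cut.of [[⟨4, 0, 0, 1449551462⟩]]

noncomputable def f_B50pm_202_s1 : ℕ → ℕ → ℕ → ℕ → Bool := onCell 0 536870912 0 536870912 991146299 28908434
    (rowF 2 false true false .pp 2 0 2 (qsf 1073741824 536870912 0 536870912 0) ndB5q2 ndB0q2 pcB0 cut_B50pm_202_s1 Ext.none)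

def k0_B50pm_202_s1 : ∃ t, chk3 f_B50pm_202_s1 t 1 1 1 = true :=
  ⟨(l 6), by decide +kernel⟩

theorem c_B50pm_202_s1 : CertF 1073741824 536870912 0 536870912 991146299 28908434 false true false .pp 2 0 2
    ndB5q2 ndB0q2 pcB0 cut_B50pm_202_s1 Ext.none :=
  certF2 (fam := false) (s1 := true) (s2 := false) (a := 2) (b := 0) (c := 2) (cn := .pp) (n1 := ndB5q2) (n2 := ndB0q2) (pc := pcB0) (cut := cut_B50pm_202_s1) (xt := Ext.none) (P1 := 1073741824) (W1 := 536870912) (P2 := 0) (W2 := 536870912) (P3 := 991146299) (W3 := 28908434)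
    rfl (fun _ => rfl) k0_B50pm_202_s1

theorem s_B50pm_202_s1 {κ x : ℝ} (hκ : κ * h0 = ken x) (hx : ((991146299 : ℕ) : ℝ) / S ≤ x)
    (hx' : x ≤ (((991146299 : ℕ) : ℝ) + (28908434 : ℕ)) / S) :
    AltB (VFD κ) PP tK tL pcB [⟨3, 0, 0, 1449551462⟩] 2 0 2 5 0 (sgb true) (sgb false) x :=
  strip_altBD (m := 1449551462) true rfl hκ (SH.κ0 hκ (SH.hx1 hx).le (SH.hx2 hx').le) (SH.hx1 hx).le (SH.hx2 hx') (covB52).cov (covB02).cov hx hx' c_B50pm_202_s1 cutB_nil (noExt_B)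

noncomputable def cut_B50mm_001_s1 : Cut := Cut.of [[⟨4, 0, 0, 1449551462⟩]]

noncomputable def f_B50mm_001_s1 : ℕ → ℕ → ℕ → ℕ → Bool := onCell 0 536870912 536870912 536870912 991146299 28908434
    (rowF 0 false false false .up 0 0 1 (qsf 0 536870912 536870912 536870912 0) ndB5q0 ndB0q1 pcB0 cut_B50mm_001_s1 Ext.none)

def k0_B50mm_001_s1 : ∃ t, chk3 f_B50mm_001_s1 t 1 1 1 = true :=
  ⟨(l 5), by decide +kernel⟩

theorem c_B50mm_001_s1 : CertF 0 536870912 536870912 536870912 991146299 28908434 false false false .up 0 0 1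
    ndB5q0 ndB0q1 pcB0 cut_B50mm_001_s1 Ext.none :=
  certF0 (fam := false) (s1 := false) (s2 := false) (a := 0) (b := 0) (c := 1) (cn := .up) (n1 := ndB5q0) (n2 := ndB0q1) (pc := pcB0) (cut := cut_B50mm_001_s1) (xt := Ext.none) (P1 := 0) (W1 := 536870912) (P2 := 536870912) (W2 := 536870912) (P3 := 991146299) (W3 := 28908434)
    rfl k0_B50mm_001_s1

theorem s_B50mm_001_s1 {κ x : ℝ} (hκ : κ * h0 = ken x) (hx : ((991146299 : ℕ) : ℝ) / S ≤ x)
    (hx' : x ≤ (((991146299 : ℕ) : ℝ) + (28908434 : ℕ)) / S) :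
    AltB (VFD κ) PP tK tL pcB [⟨3, 0, 0, 1449551462⟩] 0 0 1 5 0 (sgb false) (sgb false) x :=
  strip_altBD (m := 1449551462) true rfl hκ (SH.κ0 hκ (SH.hx1 hx).le (SH.hx2 hx').le) (SH.hx1 hx).le (SH.hx2 hx') (covB50).cov (covB01).cov hx hx' c_B50mm_001_s1 cutB_nil (noExt_B)

noncomputable def cut_B50mm_011_s1 : Cut := Cut.of [[⟨4, 0, 0, 1449551462⟩]]

noncomputable def f_B50mm_011_s1 : ℕ → ℕ → ℕ → ℕ → Bool := onCell 0 536870912 536870912 536870912 991146299 28908434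
    (rowF 0 false false false .pnn 0 1 1 (qsf 0 536870912 536870912 536870912 1) ndB5q0 ndB0q1 pcB1 cut_B50mm_011_s1 Ext.none)

def k0_B50mm_011_s1 : ∃ t, chk3 f_B50mm_011_s1 t 1 1 1 = true :=
  ⟨(l 5), by decide +kernel⟩

theorem c_B50mm_011_s1 : CertF 0 536870912 536870912 536870912 991146299 28908434 false false false .pnn 0 1 1
    ndB5q0 ndB0q1 pcB1 cut_B50mm_011_s1 Ext.none :=
  certF0 (fam := false) (s1 := false) (s2 := false) (a := 0) (b := 1) (c := 1) (cn := .pnn) (n1 := ndB5q0) (n2 := ndB0q1) (pc := pcB1) (cut := cut_B50mm_011_s1) (xt := Ext.none) (P1 := 0) (W1 := 536870912) (P2 := 536870912) (W2 := 536870912) (P3 := 991146299) (W3 := 28908434)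
    rfl k0_B50mm_011_s1

theorem s_B50mm_011_s1 {κ x : ℝ} (hκ : κ * h0 = ken x) (hx : ((991146299 : ℕ) : ℝ) / S ≤ x)
    (hx' : x ≤ (((991146299 : ℕ) : ℝ) + (28908434 : ℕ)) / S) :
    AltB (VFD κ) PP tK tL pcB [⟨3, 0, 0, 1449551462⟩] 0 1 1 5 0 (sgb false) (sgb false) x :=
  strip_altBD (m := 1449551462) true rfl hκ (SH.κ0 hκ (SH.hx1 hx).le (SH.hx2 hx').le) (SH.hx1 hx).le (SH.hx2 hx') (covB50).cov (covB01).cov hx hx' c_B50mm_011_s1 cutB_nil (noExt_B)

noncomputable def cut_B50mm_012_s1 : Cut := Cut.of [[⟨4, 0, 0, 1449551462⟩]]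

noncomputable def f_B50mm_012_s1 : ℕ → ℕ → ℕ → ℕ → Bool := onCell 0 536870912 0 536870912 991146299 28908434
    (rowF 0 false false false .pnp 0 1 2 (qsf 0 536870912 0 536870912 1) ndB5q0 ndB0q2 pcB1 cut_B50mm_012_s1 Ext.none)

def k0_B50mm_012_s1 : ∃ t, chk3 f_B50mm_012_s1 t 1 1 1 = true :=
  ⟨(l 5), by decide +kernel⟩

theorem c_B50mm_012_s1 : CertF 0 536870912 0 536870912 991146299 28908434 false false false .pnp 0 1 2
    ndB5q0 ndB0q2 pcB1 cut_B50mm_012_s1 Ext.none :=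
  certF0 (fam := false) (s1 := false) (s2 := false) (a := 0) (b := 1) (c := 2) (cn := .pnp) (n1 := ndB5q0) (n2 := ndB0q2) (pc := pcB1) (cut := cut_B50mm_012_s1) (xt := Ext.none) (P1 := 0) (W1 := 536870912) (P2 := 0) (W2 := 536870912) (P3 := 991146299) (W3 := 28908434)
    rfl k0_B50mm_012_s1

theorem s_B50mm_012_s1 {κ x : ℝ} (hκ : κ * h0 = ken x) (hx : ((991146299 : ℕ) : ℝ) / S ≤ x)
    (hx' : x ≤ (((991146299 : ℕ) : ℝ) + (28908434 : ℕ)) / S) :
    AltB (VFD κ) PP tK tL pcB [⟨3, 0, 0, 1449551462⟩] 0 1 2 5 0 (sgb false) (sgb false) x :=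
  strip_altBD (m := 1449551462) true rfl hκ (SH.κ0 hκ (SH.hx1 hx).le (SH.hx2 hx').le) (SH.hx1 hx).le (SH.hx2 hx') (covB50).cov (covB02).cov hx hx' c_B50mm_012_s1 cutB_nil (noExt_B)

noncomputable def cut_B50mm_022_s1 : Cut := Cut.of [[⟨4, 0, 0, 1449551462⟩]]

noncomputable def f_B50mm_022_s1 : ℕ → ℕ → ℕ → ℕ → Bool := onCell 0 536870912 0 536870912 991146299 28908434
    (rowF 0 false false false .pp 0 2 2 (qsf 0 536870912 0 536870912 2) ndB5q0 ndB0q2 pcB2 cut_B50mm_022_s1 Ext.none)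

def k0_B50mm_022_s1 : ∃ t, chk3 f_B50mm_022_s1 t 1 1 1 = true :=
  ⟨(l 5), by decide +kernel⟩

theorem c_B50mm_022_s1 : CertF 0 536870912 0 536870912 991146299 28908434 false false false .pp 0 2 2
    ndB5q0 ndB0q2 pcB2 cut_B50mm_022_s1 Ext.none :=
  certF0 (fam := false) (s1 := false) (s2 := false) (a := 0) (b := 2) (c := 2) (cn := .pp) (n1 := ndB5q0) (n2 := ndB0q2) (pc := pcB2) (cut := cut_B50mm_022_s1) (xt := Ext.none) (P1 := 0) (W1 := 536870912) (P2 := 0) (W2 := 536870912) (P3 := 991146299) (W3 := 28908434)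
    rfl k0_B50mm_022_s1

theorem s_B50mm_022_s1 {κ x : ℝ} (hκ : κ * h0 = ken x) (hx : ((991146299 : ℕ) : ℝ) / S ≤ x)
    (hx' : x ≤ (((991146299 : ℕ) : ℝ) + (28908434 : ℕ)) / S) :
    AltB (VFD κ) PP tK tL pcB [⟨3, 0, 0, 1449551462⟩] 0 2 2 5 0 (sgb false) (sgb false) x :=
  strip_altBD (m := 1449551462) true rfl hκ (SH.κ0 hκ (SH.hx1 hx).le (SH.hx2 hx').le) (SH.hx1 hx).le (SH.hx2 hx') (covB50).cov (covB02).cov hx hx' c_B50mm_022_s1 cutB_nil (noExt_B)

noncomputable def cut_B50mm_101_s1 : Cut := Cut.of [[⟨4, 0, 0, 1449551462⟩]]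

noncomputable def f_B50mm_101_s1 : ℕ → ℕ → ℕ → ℕ → Bool := onCell 0 536870912 536870912 536870912 991146299 28908434
    (rowF 2 false false false .npn 1 0 1 (qsf 536870912 536870912 536870912 536870912 0) ndB5q1 ndB0q1 pcB0 cut_B50mm_101_s1 Ext.none)

def k0_B50mm_101_s1 : ∃ t, chk3 f_B50mm_101_s1 t 1 1 1 = true :=
  ⟨(l 5), by decide +kernel⟩

theorem c_B50mm_101_s1 : CertF 536870912 536870912 536870912 536870912 991146299 28908434 false false false .npn 1 0 1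
    ndB5q1 ndB0q1 pcB0 cut_B50mm_101_s1 Ext.none :=
  certF2 (fam := false) (s1 := false) (s2 := false) (a := 1) (b := 0) (c := 1) (cn := .npn) (n1 := ndB5q1) (n2 := ndB0q1) (pc := pcB0) (cut := cut_B50mm_101_s1) (xt := Ext.none) (P1 := 536870912) (W1 := 536870912) (P2 := 536870912) (W2 := 536870912) (P3 := 991146299) (W3 := 28908434)
    rfl (fun _ => rfl) k0_B50mm_101_s1

theorem s_B50mm_101_s1 {κ x : ℝ} (hκ : κ * h0 = ken x) (hx : ((991146299 : ℕ) : ℝ) / S ≤ x)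
    (hx' : x ≤ (((991146299 : ℕ) : ℝ) + (28908434 : ℕ)) / S) :
    AltB (VFD κ) PP tK tL pcB [⟨3, 0, 0, 1449551462⟩] 1 0 1 5 0 (sgb false) (sgb false) x :=
  strip_altBD (m := 1449551462) true rfl hκ (SH.κ0 hκ (SH.hx1 hx).le (SH.hx2 hx').le) (SH.hx1 hx).le (SH.hx2 hx') (covB51).cov (covB01).cov hx hx' c_B50mm_101_s1 cutB_nil (noExt_B)

noncomputable def cut_B50mm_102_s1 : Cut := Cut.of [[⟨4, 0, 0, 1449551462⟩]]

noncomputable def f_B50mm_102_s1 : ℕ → ℕ → ℕ → ℕ → Bool := onCell 536870912 536870912 0 536870912 991146299 28908434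
    (rowF 0 false false false .npp 1 0 2 (qsf 536870912 536870912 0 536870912 0) ndB5q1 ndB0q2 pcB0 cut_B50mm_102_s1 Ext.none)

def k0_B50mm_102_s1 : ∃ t, chk3 f_B50mm_102_s1 t 1 1 1 = true :=
  ⟨(l 5), by decide +kernel⟩

theorem c_B50mm_102_s1 : CertF 536870912 536870912 0 536870912 991146299 28908434 false false false .npp 1 0 2
    ndB5q1 ndB0q2 pcB0 cut_B50mm_102_s1 Ext.none :=
  certF0 (fam := false) (s1 := false) (s2 := false) (a := 1) (b := 0) (c := 2) (cn := .npp) (n1 := ndB5q1) (n2 := ndB0q2) (pc := pcB0) (cut := cut_B50mm_102_s1) (xt := Ext.none) (P1 := 536870912) (W1 := 536870912) (P2 := 0) (W2 := 536870912) (P3 := 991146299) (W3 := 28908434)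
    rfl k0_B50mm_102_s1

theorem s_B50mm_102_s1 {κ x : ℝ} (hκ : κ * h0 = ken x) (hx : ((991146299 : ℕ) : ℝ) / S ≤ x)
    (hx' : x ≤ (((991146299 : ℕ) : ℝ) + (28908434 : ℕ)) / S) :
    AltB (VFD κ) PP tK tL pcB [⟨3, 0, 0, 1449551462⟩] 1 0 2 5 0 (sgb false) (sgb false) x :=
  strip_altBD (m := 1449551462) true rfl hκ (SH.κ0 hκ (SH.hx1 hx).le (SH.hx2 hx').le) (SH.hx1 hx).le (SH.hx2 hx') (covB51).cov (covB02).cov hx hx' c_B50mm_102_s1 cutB_nil (noExt_B)

noncomputable def cut_B50mm_112_s1 : Cut := Cut.of [[⟨4, 0, 0, 1449551462⟩]]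

noncomputable def f_B50mm_112_s1 : ℕ → ℕ → ℕ → ℕ → Bool := onCell 536870912 536870912 0 536870912 991146299 28908434
    (rowF 0 false false false .dn 1 1 2 (qsf 536870912 536870912 0 536870912 1) ndB5q1 ndB0q2 pcB1 cut_B50mm_112_s1 Ext.none)

def k0_B50mm_112_s1 : ∃ t, chk3 f_B50mm_112_s1 t 1 1 1 = true :=
  ⟨(l 5), by decide +kernel⟩

theorem c_B50mm_112_s1 : CertF 536870912 536870912 0 536870912 991146299 28908434 false false false .dn 1 1 2
    ndB5q1 ndB0q2 pcB1 cut_B50mm_112_s1 Ext.none :=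
  certF0 (fam := false) (s1 := false) (s2 := false) (a := 1) (b := 1) (c := 2) (cn := .dn) (n1 := ndB5q1) (n2 := ndB0q2) (pc := pcB1) (cut := cut_B50mm_112_s1) (xt := Ext.none) (P1 := 536870912) (W1 := 536870912) (P2 := 0) (W2 := 536870912) (P3 := 991146299) (W3 := 28908434)
    rfl k0_B50mm_112_s1

theorem s_B50mm_112_s1 {κ x : ℝ} (hκ : κ * h0 = ken x) (hx : ((991146299 : ℕ) : ℝ) / S ≤ x)
    (hx' : x ≤ (((991146299 : ℕ) : ℝ) + (28908434 : ℕ)) / S) :
    AltB (VFD κ) PP tK tL pcB [⟨3, 0, 0, 1449551462⟩] 1 1 2 5 0 (sgb false) (sgb false) x :=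
  strip_altBD (m := 1449551462) true rfl hκ (SH.κ0 hκ (SH.hx1 hx).le (SH.hx2 hx').le) (SH.hx1 hx).le (SH.hx2 hx') (covB51).cov (covB02).cov hx hx' c_B50mm_112_s1 cutB_nil (noExt_B)

noncomputable def cut_B50mm_202_s1 : Cut := Cut.of [[⟨4, 0, 0, 1449551462⟩]]

noncomputable def f_B50mm_202_s1 : ℕ → ℕ → ℕ → ℕ → Bool := onCell 1073741824 536870912 0 536870912 991146299 28908434
    (rowF 0 false false false .pp 2 0 2 (qsf 1073741824 536870912 0 536870912 0) ndB5q2 ndB0q2 pcB0 cut_B50mm_202_s1 Ext.none)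

def k0_B50mm_202_s1 : ∃ t, chk3 f_B50mm_202_s1 t 1 1 1 = true :=
  ⟨(l 5), by decide +kernel⟩

theorem c_B50mm_202_s1 : CertF 1073741824 536870912 0 536870912 991146299 28908434 false false false .pp 2 0 2
    ndB5q2 ndB0q2 pcB0 cut_B50mm_202_s1 Ext.none :=
  certF0 (fam := false) (s1 := false) (s2 := false) (a := 2) (b := 0) (c := 2) (cn := .pp) (n1 := ndB5q2) (n2 := ndB0q2) (pc := pcB0) (cut := cut_B50mm_202_s1) (xt := Ext.none) (P1 := 1073741824) (W1 := 536870912) (P2 := 0) (W2 := 536870912) (P3 := 991146299) (W3 := 28908434)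
    rfl k0_B50mm_202_s1

theorem s_B50mm_202_s1 {κ x : ℝ} (hκ : κ * h0 = ken x) (hx : ((991146299 : ℕ) : ℝ) / S ≤ x)
    (hx' : x ≤ (((991146299 : ℕ) : ℝ) + (28908434 : ℕ)) / S) :
    AltB (VFD κ) PP tK tL pcB [⟨3, 0, 0, 1449551462⟩] 2 0 2 5 0 (sgb false) (sgb false) x :=
  strip_altBD (m := 1449551462) true rfl hκ (SH.κ0 hκ (SH.hx1 hx).le (SH.hx2 hx').le) (SH.hx1 hx).le (SH.hx2 hx') (covB52).cov (covB02).cov hx hx' c_B50mm_202_s1 cutB_nil (noExt_B)

end Pool.Agent.Strip051.G.I9231_9500.Tab.St.C
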