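import Pool.Agent.Strip051.G.I9231_9500.Tab
import Pool.Agent.Strip051.PB.StripB

/-! # Strips, near vertex: certificates 5 (generated) -/

set_option linter.all false
set_option maxRecDepth 100000

namespace Pool.Agent.Strip051.G.I9231_9500.Tab.CS.BA00

open Pool.Agent.Strip051.PB Pool.Agent.Strip051.PB.T
open Pool.Agent.Strip051.G.I9231_9500.Tab

noncomputable def cut_mm_203_s : Cut := Cut.of [[⟨4, 0, 0, 1449551462⟩]]

noncomputable def f_mm_203_s : ℕ → ℕ → ℕ → ℕ → Bool := onCell 0 536870912 0 536870912 991146299 28908434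
    (rowNE 3 eng mog cd0q2 cd0q0 pd3 0 true false false .up 2 0 3 (qsf 0 536870912 0 536870912 3) ndB0q2 ndB0q0 pcB3 cut_mm_203_s Ext.none)

def k0_mm_203_s : ∃ t, chk3 f_mm_203_s t 1 1 1 = true :=
  ⟨(l 6), by decide +kernel⟩

theorem c_mm_203_s : CertNE 0 536870912 0 536870912 991146299 28908434 3 eng mog cd0q2 cd0q0 pd3 true false false .up 2 0 3
    ndB0q2 ndB0q0 pcB3 cut_mm_203_s Ext.none :=
  certNE0 (fam := true) (s1 := false) (s2 := false) (a := 2) (b := 0) (c := 3) (cn := .up) (n1 := ndB0q2) (n2 := ndB0q0) (pc := pcB3) (cut := cut_mm_203_s) (xt := Ext.none) (P1 := 0) (W1 := 536870912) (P2 := 0) (W2 := 536870912) (P3 := 991146299) (W3 := 28908434) (N0 := 3) (En := eng) (mo := mog) (C1 := cd0q2) (C2 := cd0q0) (C3 := pd3)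
    rfl k0_mm_203_s

noncomputable def cut_mm_203_t : Cut := Cut.of [[⟨3, 0, 0, 2845415833⟩]]

noncomputable def f_mm_203_t : ℕ → ℕ → ℕ → ℕ → Bool := onCell 0 536870912 1610612736 536870912 991146299 28908434
    (rowNE 3 eng mog cd0q2 cd0q0 pd3 1 true false false .up 2 0 3 (qsf 0 536870912 0 536870912 3) ndB0q2 ndB0q0 pcB3 cut_mm_203_t Ext.none)

def k0_mm_203_t : ∃ t, chk3 f_mm_203_t t 2 4 1 = true :=
  ⟨(b (a (a (b (c (b (l 16367648) (l 16388576)) (b (l 16327784) (l 16350944))) (c (b (l 16413120) (l 16440816)) (b (l 16378096) (l 16408784)))) (b (b (c (l 16398624) (l 16414408)) (a (l 16496232) (c (l 16590472) (l 16570832)))) (a (b (l 16524992) (a (l 16534560) (l 16578328))) (b (c (l 16619488) (l 16603056)) (c (l 16650600) (l 16637592)))))) (a (b (b (a (c (l 16643560) (l 16628624)) (c (l 16724264) (l 16691864))) (a (c (l 16651168) (l 16639464)) (a (c (l 16734016) (l 16729040)) (c (l 63048704919) (a (l 16762408) (l 16748880)))))) (a (b (c (l 16702768) (l 16699776)) (c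 (a (l 16713912) (l 16755008)) (a (l 16707096) (l 16752488)))) (b (c (a (l 16762864) (l 99019017479)) (a (l 16750608) (l 99555885207))) (a (c (l 95260936679) (l 95797804999)) (l 4))))) (b (a (b (a (c (l 88818487847) (l 89355354007)) (l 4)) (l 4)) (l 4)) (l 4)))) (a (b (b (a (a (l 16412760) (l 16501552)) (a (c (l 16598528) (l 16581368)) (c (l 16662456) (l 16653008)))) (a (c (l 16504048) (l 16478856)) (a (c (l 16632216) (l 16618616)) (c (l 16717592) (l 16711736))))) (a (c (b (l 16454888) (l 16470200)) (b (l 16433368) (l 16452368))) (a (b (c (l 16667264) (l 16657232)) (c (l 16703288) (l 16696752))) (b (c (a (l 16731384) (l 16747264)) (a (l 16727088) (l 16746144))) (c (a (l 16763312) (l 102777135079)) (a (l 16761864) (l 103314008471))))))) (a (a (b (b (a (c (l 16746992) (l 16743776)) (c (l 91502852631) (l 92039720055))) (a (c (l 70564901991) (l 68417417767)) (l 4))) (l 4)) (l 4)) (l 4)))), by decide +kernel⟩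

def k1_mm_203_t : ∃ t, chk3 f_mm_203_t t 2 5 1 = true :=
  ⟨(b (a (b (a (b (c (l 16486648) (a (l 16552152) (l 16644720))) (a (c (l 16608536) (l 16594472)) (b (l 16658568) (l 16657376)))) (a (b (c (l 16738296) (b (l 16726552) (l 16744544))) (c (a (l 16754368) (l 16736568)) (a (l 16752384) (l 97945315287)))) (b (c (l 103850836871) (l 104387712199)) (l 4)))) (a (l 2) (l 2))) (l 4)) (l 2)), by decide +kernel⟩

def k2_mm_203_t : ∃ t, chk3 f_mm_203_t t 3 2 1 = true :=
  ⟨(l 4), by decide +kernel⟩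

def k3_mm_203_t : ∃ t, chk3 f_mm_203_t t 1 3 1 = true :=
  ⟨(l 2), by decide +kernel⟩

theorem s4_mm_203_t : ∃ t, chk3 f_mm_203_t t 2 2 1 = true := ex3_b k0_mm_203_t k1_mm_203_t

theorem s5_mm_203_t : ∃ t, chk3 f_mm_203_t t 1 2 1 = true := ex3_a s4_mm_203_t k2_mm_203_t

theorem s6_mm_203_t : ∃ t, chk3 f_mm_203_t t 1 1 1 = true := ex3_b s5_mm_203_t k3_mm_203_t

theorem c_mm_203_t : CertNE 0 536870912 0 536870912 991146299 28908434 3 eng mog cd0q2 cd0q0 pd3 true false false .up 2 0 3
    ndB0q2 ndB0q0 pcB3 cut_mm_203_t Ext.none :=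
  certNE1 (fam := true) (s1 := false) (s2 := false) (a := 2) (b := 0) (c := 3) (cn := .up) (n1 := ndB0q2) (n2 := ndB0q0) (pc := pcB3) (cut := cut_mm_203_t) (xt := Ext.none) (P1 := 0) (W1 := 536870912) (P2 := 0) (W2 := 536870912) (P3 := 991146299) (W3 := 28908434) (N0 := 3) (En := eng) (mo := mog) (C1 := cd0q2) (C2 := cd0q0) (C3 := pd3)
    rfl (fun _ => rfl) s6_mm_203_t

noncomputable def cut_mm_213_s : Cut := Cut.of [[⟨4, 0, 0, 1449551462⟩]]

noncomputable def f_mm_213_s : ℕ → ℕ → ℕ → ℕ → Bool := onCell 0 536870912 536870912 536870912 991146299 28908434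
    (rowNE 3 eng mog cd0q2 cd0q1 pd3 0 true false false .pnn 2 1 3 (qsf 0 536870912 536870912 536870912 3) ndB0q2 ndB0q1 pcB3 cut_mm_213_s Ext.none)

def k0_mm_213_s : ∃ t, chk3 f_mm_213_s t 1 1 1 = true :=
  ⟨(l 6), by decide +kernel⟩

theorem c_mm_213_s : CertNE 0 536870912 536870912 536870912 991146299 28908434 3 eng mog cd0q2 cd0q1 pd3 true false false .pnn 2 1 3
    ndB0q2 ndB0q1 pcB3 cut_mm_213_s Ext.none :=
  certNE0 (fam := true) (s1 := false) (s2 := false) (a := 2) (b := 1) (c := 3) (cn := .pnn) (n1 := ndB0q2) (n2 := ndB0q1) (pc := pcB3) (cut := cut_mm_213_s) (xt := Ext.none) (P1 := 0) (W1 := 536870912) (P2 := 536870912) (W2 := 536870912) (P3 := 991146299) (W3 := 28908434) (N0 := 3) (En := eng) (mo := mog) (C1 := cd0q2) (C2 := cd0q1) (C3 := pd3)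
    rfl k0_mm_213_s

noncomputable def cut_mm_213_t : Cut := Cut.of [[⟨3, 0, 0, 2845415833⟩]]

noncomputable def f_mm_213_t : ℕ → ℕ → ℕ → ℕ → Bool := onCell 0 536870912 536870912 536870912 991146299 28908434
    (rowNE 3 eng mog cd0q2 cd0q1 pd3 0 true false false .pnn 2 1 3 (qsf 0 536870912 536870912 536870912 3) ndB0q2 ndB0q1 pcB3 cut_mm_213_t Ext.none)

def k0_mm_213_t : ∃ t, chk3 f_mm_213_t t 1 1 1 = true :=
  ⟨(a (b (a (b (b (a (b (b (a (c (l 16643256) (l 16632384)) (c (l 16723800) (l 16719440))) (a (c (l 16682536) (l 16654120)) (a (l 16730480) (b (l 16767896) (l 97408459847))))) (a (a (b (l 16678080) (l 16739584)) (b (l 16740080) (b (l 16766632) (l 88818536599)))) (b (a (c (l 16771488) (l 16749976)) (l 4)) (l 4)))) (b (a (b (a (c (l 16751000) (l 16750696)) (l 4)) (l 4)) (l 4)) (l 4))) (a (b (a (b (a (b (l 16766392) (l 16751272)) (l 4)) (l 4)) (l 4)) (l 4)) (l 4))) (l 4)) (l 4)) (l 4)) (l 4)), by decide +kernel⟩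

theorem c_mm_213_t : CertNE 0 536870912 536870912 536870912 991146299 28908434 3 eng mog cd0q2 cd0q1 pd3 true false false .pnn 2 1 3
    ndB0q2 ndB0q1 pcB3 cut_mm_213_t Ext.none :=
  certNE0 (fam := true) (s1 := false) (s2 := false) (a := 2) (b := 1) (c := 3) (cn := .pnn) (n1 := ndB0q2) (n2 := ndB0q1) (pc := pcB3) (cut := cut_mm_213_t) (xt := Ext.none) (P1 := 0) (W1 := 536870912) (P2 := 536870912) (W2 := 536870912) (P3 := 991146299) (W3 := 28908434) (N0 := 3) (En := eng) (mo := mog) (C1 := cd0q2) (C2 := cd0q1) (C3 := pd3)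
    rfl k0_mm_213_t

end Pool.Agent.Strip051.G.I9231_9500.Tab.CS.BA00

namespace Pool.Agent.Strip051.G.I9231_9500.Tab.CS.BA05

open Pool.Agent.Strip051.PB Pool.Agent.Strip051.PB.T
open Pool.Agent.Strip051.G.I9231_9500.Tab

noncomputable def cut_pp_001_s : Cut := Cut.of [[⟨4, 0, 0, 1449551462⟩]]

noncomputable def f_pp_001_s : ℕ → ℕ → ℕ → ℕ → Bool := onCell 0 536870912 0 536870912 991146299 28908434
    (rowNE 3 eng mog cd0q0 cd5q0 pd1 0 true true true .up 0 0 1 (qsf 0 536870912 0 536870912 1) ndB0q0 ndB5q0 pcB1 cut_pp_001_s Ext.none)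

def k0_pp_001_s : ∃ t, chk3 f_pp_001_s t 1 1 1 = true :=
  ⟨(l 4), by decide +kernel⟩

theorem c_pp_001_s : CertNE 0 536870912 0 536870912 991146299 28908434 3 eng mog cd0q0 cd5q0 pd1 true true true .up 0 0 1
    ndB0q0 ndB5q0 pcB1 cut_pp_001_s Ext.none :=
  certNE0 (fam := true) (s1 := true) (s2 := true) (a := 0) (b := 0) (c := 1) (cn := .up) (n1 := ndB0q0) (n2 := ndB5q0) (pc := pcB1) (cut := cut_pp_001_s) (xt := Ext.none) (P1 := 0) (W1 := 536870912) (P2 := 0) (W2 := 536870912) (P3 := 991146299) (W3 := 28908434) (N0 := 3) (En := eng) (mo := mog) (C1 := cd0q0) (C2 := cd5q0) (C3 := pd1)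
    rfl k0_pp_001_s

noncomputable def cut_pp_011_s : Cut := Cut.of [[⟨4, 0, 0, 1449551462⟩]]

noncomputable def f_pp_011_s : ℕ → ℕ → ℕ → ℕ → Bool := onCell 0 536870912 536870912 536870912 991146299 28908434
    (rowNE 3 eng mog cd0q0 cd5q1 pd1 0 true true true .pnn 0 1 1 (qsf 0 536870912 536870912 536870912 1) ndB0q0 ndB5q1 pcB1 cut_pp_011_s Ext.none)

def k0_pp_011_s : ∃ t, chk3 f_pp_011_s t 1 1 1 = true :=
  ⟨(l 4), by decide +kernel⟩

theorem c_pp_011_s : CertNE 0 536870912 536870912 536870912 991146299 28908434 3 eng mog cd0q0 cd5q1 pd1 true true true .pnn 0 1 1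
    ndB0q0 ndB5q1 pcB1 cut_pp_011_s Ext.none :=
  certNE0 (fam := true) (s1 := true) (s2 := true) (a := 0) (b := 1) (c := 1) (cn := .pnn) (n1 := ndB0q0) (n2 := ndB5q1) (pc := pcB1) (cut := cut_pp_011_s) (xt := Ext.none) (P1 := 0) (W1 := 536870912) (P2 := 536870912) (W2 := 536870912) (P3 := 991146299) (W3 := 28908434) (N0 := 3) (En := eng) (mo := mog) (C1 := cd0q0) (C2 := cd5q1) (C3 := pd1)
    rfl k0_pp_011_s

noncomputable def cut_pp_012_s : Cut := Cut.of [[⟨4, 0, 0, 1449551462⟩]]

noncomputable def f_pp_012_s : ℕ → ℕ → ℕ → ℕ → Bool := onCell 0 536870912 536870912 536870912 991146299 28908434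
    (rowNE 3 eng mog cd0q0 cd5q1 pd2 0 true true true .pnp 0 1 2 (qsf 0 536870912 536870912 536870912 2) ndB0q0 ndB5q1 pcB2 cut_pp_012_s Ext.none)

def k0_pp_012_s : ∃ t, chk3 f_pp_012_s t 1 1 1 = true :=
  ⟨(l 4), by decide +kernel⟩

theorem c_pp_012_s : CertNE 0 536870912 536870912 536870912 991146299 28908434 3 eng mog cd0q0 cd5q1 pd2 true true true .pnp 0 1 2
    ndB0q0 ndB5q1 pcB2 cut_pp_012_s Ext.none :=
  certNE0 (fam := true) (s1 := true) (s2 := true) (a := 0) (b := 1) (c := 2) (cn := .pnp) (n1 := ndB0q0) (n2 := ndB5q1) (pc := pcB2) (cut := cut_pp_012_s) (xt := Ext.none) (P1 := 0) (W1 := 536870912) (P2 := 536870912) (W2 := 536870912) (P3 := 991146299) (W3 := 28908434) (N0 := 3) (En := eng) (mo := mog) (C1 := cd0q0) (C2 := cd5q1) (C3 := pd2)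
    rfl k0_pp_012_s

noncomputable def cut_pp_022_s : Cut := Cut.of [[⟨4, 0, 0, 1449551462⟩]]

noncomputable def f_pp_022_s : ℕ → ℕ → ℕ → ℕ → Bool := onCell 0 536870912 1073741824 536870912 991146299 28908434
    (rowNE 3 eng mog cd0q0 cd5q2 pd2 0 true true true .pp 0 2 2 (qsf 0 536870912 1073741824 536870912 2) ndB0q0 ndB5q2 pcB2 cut_pp_022_s Ext.none)

def k0_pp_022_s : ∃ t, chk3 f_pp_022_s t 1 1 1 = true :=
  ⟨(l 4), by decide +kernel⟩

theorem c_pp_022_s : CertNE 0 536870912 1073741824 536870912 991146299 28908434 3 eng mog cd0q0 cd5q2 pd2 true true true .pp 0 2 2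
    ndB0q0 ndB5q2 pcB2 cut_pp_022_s Ext.none :=
  certNE0 (fam := true) (s1 := true) (s2 := true) (a := 0) (b := 2) (c := 2) (cn := .pp) (n1 := ndB0q0) (n2 := ndB5q2) (pc := pcB2) (cut := cut_pp_022_s) (xt := Ext.none) (P1 := 0) (W1 := 536870912) (P2 := 1073741824) (W2 := 536870912) (P3 := 991146299) (W3 := 28908434) (N0 := 3) (En := eng) (mo := mog) (C1 := cd0q0) (C2 := cd5q2) (C3 := pd2)
    rfl k0_pp_022_s

noncomputable def cut_pp_023_s : Cut := Cut.of [[⟨4, 0, 0, 1449551462⟩]]

noncomputable def f_pp_023_s : ℕ → ℕ → ℕ → ℕ → Bool := onCell 0 536870912 1073741824 536870912 991146299 28908434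
    (rowNE 3 eng mog cd0q0 cd5q2 pd3 0 true true true .up 0 2 3 (qsf 0 536870912 1073741824 536870912 3) ndB0q0 ndB5q2 pcB3 cut_pp_023_s Ext.none)

def k0_pp_023_s : ∃ t, chk3 f_pp_023_s t 1 1 1 = true :=
  ⟨(l 4), by decide +kernel⟩

theorem c_pp_023_s : CertNE 0 536870912 1073741824 536870912 991146299 28908434 3 eng mog cd0q0 cd5q2 pd3 true true true .up 0 2 3
    ndB0q0 ndB5q2 pcB3 cut_pp_023_s Ext.none :=
  certNE0 (fam := true) (s1 := true) (s2 := true) (a := 0) (b := 2) (c := 3) (cn := .up) (n1 := ndB0q0) (n2 := ndB5q2) (pc := pcB3) (cut := cut_pp_023_s) (xt := Ext.none) (P1 := 0) (W1 := 536870912) (P2 := 1073741824) (W2 := 536870912) (P3 := 991146299) (W3 := 28908434) (N0 := 3) (En := eng) (mo := mog) (C1 := cd0q0) (C2 := cd5q2) (C3 := pd3)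
    rfl k0_pp_023_s

noncomputable def cut_pp_033_s : Cut := Cut.of [[⟨4, 0, 0, 1449551462⟩]]

noncomputable def f_pp_033_s : ℕ → ℕ → ℕ → ℕ → Bool := onCell 0 536870912 0 1230186008 991146299 28908434
    (rowNE 3 eng mog cd0q0 cd5q3 pd3 0 true true true .pnn 0 3 3 (qsf 0 536870912 0 1230186008 3) ndB0q0 ndB5q3 pcB3 cut_pp_033_s Ext.none)

def k0_pp_033_s : ∃ t, chk3 f_pp_033_s t 1 1 1 = true :=
  ⟨(l 4), by decide +kernel⟩

theorem c_pp_033_s : CertNE 0 536870912 0 1230186008 991146299 28908434 3 eng mog cd0q0 cd5q3 pd3 true true true .pnn 0 3 3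
    ndB0q0 ndB5q3 pcB3 cut_pp_033_s Ext.none :=
  certNE0 (fam := true) (s1 := true) (s2 := true) (a := 0) (b := 3) (c := 3) (cn := .pnn) (n1 := ndB0q0) (n2 := ndB5q3) (pc := pcB3) (cut := cut_pp_033_s) (xt := Ext.none) (P1 := 0) (W1 := 536870912) (P2 := 0) (W2 := 1230186008) (P3 := 991146299) (W3 := 28908434) (N0 := 3) (En := eng) (mo := mog) (C1 := cd0q0) (C2 := cd5q3) (C3 := pd3)
    rfl k0_pp_033_s

noncomputable def cut_pp_101_s : Cut := Cut.of [[⟨4, 0, 0, 1449551462⟩]]

noncomputable def f_pp_101_s : ℕ → ℕ → ℕ → ℕ → Bool := onCell 536870912 536870912 0 536870912 991146299 28908434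
    (rowNE 3 eng mog cd0q1 cd5q0 pd1 0 true true true .npn 1 0 1 (qsf 536870912 536870912 0 536870912 1) ndB0q1 ndB5q0 pcB1 cut_pp_101_s Ext.none)

def k0_pp_101_s : ∃ t, chk3 f_pp_101_s t 1 1 1 = true :=
  ⟨(l 4), by decide +kernel⟩

theorem c_pp_101_s : CertNE 536870912 536870912 0 536870912 991146299 28908434 3 eng mog cd0q1 cd5q0 pd1 true true true .npn 1 0 1
    ndB0q1 ndB5q0 pcB1 cut_pp_101_s Ext.none :=
  certNE0 (fam := true) (s1 := true) (s2 := true) (a := 1) (b := 0) (c := 1) (cn := .npn) (n1 := ndB0q1) (n2 := ndB5q0) (pc := pcB1) (cut := cut_pp_101_s) (xt := Ext.none) (P1 := 536870912) (W1 := 536870912) (P2 := 0) (W2 := 536870912) (P3 := 991146299) (W3 := 28908434) (N0 := 3) (En := eng) (mo := mog) (C1 := cd0q1) (C2 := cd5q0) (C3 := pd1)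
    rfl k0_pp_101_s

noncomputable def cut_pp_102_s : Cut := Cut.of [[⟨4, 0, 0, 1449551462⟩]]

noncomputable def f_pp_102_s : ℕ → ℕ → ℕ → ℕ → Bool := onCell 536870912 536870912 0 536870912 991146299 28908434
    (rowNE 3 eng mog cd0q1 cd5q0 pd2 0 true true true .npp 1 0 2 (qsf 536870912 536870912 0 536870912 2) ndB0q1 ndB5q0 pcB2 cut_pp_102_s Ext.none)

def k0_pp_102_s : ∃ t, chk3 f_pp_102_s t 1 1 1 = true :=
  ⟨(l 4), by decide +kernel⟩

theorem c_pp_102_s : CertNE 536870912 536870912 0 536870912 991146299 28908434 3 eng mog cd0q1 cd5q0 pd2 true true true .npp 1 0 2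
    ndB0q1 ndB5q0 pcB2 cut_pp_102_s Ext.none :=
  certNE0 (fam := true) (s1 := true) (s2 := true) (a := 1) (b := 0) (c := 2) (cn := .npp) (n1 := ndB0q1) (n2 := ndB5q0) (pc := pcB2) (cut := cut_pp_102_s) (xt := Ext.none) (P1 := 536870912) (W1 := 536870912) (P2 := 0) (W2 := 536870912) (P3 := 991146299) (W3 := 28908434) (N0 := 3) (En := eng) (mo := mog) (C1 := cd0q1) (C2 := cd5q0) (C3 := pd2)
    rfl k0_pp_102_s

noncomputable def cut_pp_112_s : Cut := Cut.of [[⟨4, 0, 0, 1449551462⟩]]

noncomputable def f_pp_112_s : ℕ → ℕ → ℕ → ℕ → Bool := onCell 536870912 536870912 536870912 536870912 991146299 28908434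
    (rowNE 3 eng mog cd0q1 cd5q1 pd2 0 true true true .dn 1 1 2 (qsf 536870912 536870912 536870912 536870912 2) ndB0q1 ndB5q1 pcB2 cut_pp_112_s Ext.none)

def k0_pp_112_s : ∃ t, chk3 f_pp_112_s t 1 1 1 = true :=
  ⟨(l 4), by decide +kernel⟩

theorem c_pp_112_s : CertNE 536870912 536870912 536870912 536870912 991146299 28908434 3 eng mog cd0q1 cd5q1 pd2 true true true .dn 1 1 2
    ndB0q1 ndB5q1 pcB2 cut_pp_112_s Ext.none :=
  certNE0 (fam := true) (s1 := true) (s2 := true) (a := 1) (b := 1) (c := 2) (cn := .dn) (n1 := ndB0q1) (n2 := ndB5q1) (pc := pcB2) (cut := cut_pp_112_s) (xt := Ext.none) (P1 := 536870912) (W1 := 536870912) (P2 := 536870912) (W2 := 536870912) (P3 := 991146299) (W3 := 28908434) (N0 := 3) (En := eng) (mo := mog) (C1 := cd0q1) (C2 := cd5q1) (C3 := pd2)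
    rfl k0_pp_112_s

noncomputable def cut_pp_113_s : Cut := Cut.of [[⟨4, 0, 0, 1449551462⟩]]

noncomputable def f_pp_113_s : ℕ → ℕ → ℕ → ℕ → Bool := onCell 536870912 536870912 536870912 536870912 991146299 28908434
    (rowNE 3 eng mog cd0q1 cd5q1 pd3 0 true true true .nn 1 1 3 (qsf 536870912 536870912 536870912 536870912 3) ndB0q1 ndB5q1 pcB3 cut_pp_113_s Ext.none)

def k0_pp_113_s : ∃ t, chk3 f_pp_113_s t 1 1 1 = true :=
  ⟨(l 4), by decide +kernel⟩

theorem c_pp_113_s : CertNE 536870912 536870912 536870912 536870912 991146299 28908434 3 eng mog cd0q1 cd5q1 pd3 true true true .nn 1 1 3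
    ndB0q1 ndB5q1 pcB3 cut_pp_113_s Ext.none :=
  certNE0 (fam := true) (s1 := true) (s2 := true) (a := 1) (b := 1) (c := 3) (cn := .nn) (n1 := ndB0q1) (n2 := ndB5q1) (pc := pcB3) (cut := cut_pp_113_s) (xt := Ext.none) (P1 := 536870912) (W1 := 536870912) (P2 := 536870912) (W2 := 536870912) (P3 := 991146299) (W3 := 28908434) (N0 := 3) (En := eng) (mo := mog) (C1 := cd0q1) (C2 := cd5q1) (C3 := pd3)
    rfl k0_pp_113_s

noncomputable def cut_pp_123_s : Cut := Cut.of [[⟨4, 0, 0, 1449551462⟩]]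

noncomputable def f_pp_123_s : ℕ → ℕ → ℕ → ℕ → Bool := onCell 536870912 536870912 1073741824 536870912 991146299 28908434
    (rowNE 3 eng mog cd0q1 cd5q2 pd3 0 true true true .npn 1 2 3 (qsf 536870912 536870912 1073741824 536870912 3) ndB0q1 ndB5q2 pcB3 cut_pp_123_s Ext.none)

def k0_pp_123_s : ∃ t, chk3 f_pp_123_s t 1 1 1 = true :=
  ⟨(l 4), by decide +kernel⟩

theorem c_pp_123_s : CertNE 536870912 536870912 1073741824 536870912 991146299 28908434 3 eng mog cd0q1 cd5q2 pd3 true true true .npn 1 2 3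
    ndB0q1 ndB5q2 pcB3 cut_pp_123_s Ext.none :=
  certNE0 (fam := true) (s1 := true) (s2 := true) (a := 1) (b := 2) (c := 3) (cn := .npn) (n1 := ndB0q1) (n2 := ndB5q2) (pc := pcB3) (cut := cut_pp_123_s) (xt := Ext.none) (P1 := 536870912) (W1 := 536870912) (P2 := 1073741824) (W2 := 536870912) (P3 := 991146299) (W3 := 28908434) (N0 := 3) (En := eng) (mo := mog) (C1 := cd0q1) (C2 := cd5q2) (C3 := pd3)
    rfl k0_pp_123_s

noncomputable def cut_pp_133_s : Cut := Cut.of [[⟨4, 0, 0, 1449551462⟩]]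

noncomputable def f_pp_133_s : ℕ → ℕ → ℕ → ℕ → Bool := onCell 536870912 536870912 0 1230186008 991146299 28908434
    (rowNE 3 eng mog cd0q1 cd5q3 pd3 0 true true true .dn 1 3 3 (qsf 536870912 536870912 0 1230186008 3) ndB0q1 ndB5q3 pcB3 cut_pp_133_s Ext.none)

def k0_pp_133_s : ∃ t, chk3 f_pp_133_s t 1 1 1 = true :=
  ⟨(l 4), by decide +kernel⟩

theorem c_pp_133_s : CertNE 536870912 536870912 0 1230186008 991146299 28908434 3 eng mog cd0q1 cd5q3 pd3 true true true .dn 1 3 3
    ndB0q1 ndB5q3 pcB3 cut_pp_133_s Ext.none :=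
  certNE0 (fam := true) (s1 := true) (s2 := true) (a := 1) (b := 3) (c := 3) (cn := .dn) (n1 := ndB0q1) (n2 := ndB5q3) (pc := pcB3) (cut := cut_pp_133_s) (xt := Ext.none) (P1 := 536870912) (W1 := 536870912) (P2 := 0) (W2 := 1230186008) (P3 := 991146299) (W3 := 28908434) (N0 := 3) (En := eng) (mo := mog) (C1 := cd0q1) (C2 := cd5q3) (C3 := pd3)
    rfl k0_pp_133_s

noncomputable def cut_pp_202_s : Cut := Cut.of [[⟨4, 0, 0, 1449551462⟩]]

noncomputable def f_pp_202_s : ℕ → ℕ → ℕ → ℕ → Bool := onCell 0 536870912 0 536870912 991146299 28908434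
    (rowNE 3 eng mog cd0q2 cd5q0 pd2 0 true true true .pp 2 0 2 (qsf 0 536870912 0 536870912 2) ndB0q2 ndB5q0 pcB2 cut_pp_202_s Ext.none)

def k0_pp_202_s : ∃ t, chk3 f_pp_202_s t 1 1 1 = true :=
  ⟨(l 4), by decide +kernel⟩

theorem c_pp_202_s : CertNE 0 536870912 0 536870912 991146299 28908434 3 eng mog cd0q2 cd5q0 pd2 true true true .pp 2 0 2
    ndB0q2 ndB5q0 pcB2 cut_pp_202_s Ext.none :=
  certNE0 (fam := true) (s1 := true) (s2 := true) (a := 2) (b := 0) (c := 2) (cn := .pp) (n1 := ndB0q2) (n2 := ndB5q0) (pc := pcB2) (cut := cut_pp_202_s) (xt := Ext.none) (P1 := 0) (W1 := 536870912) (P2 := 0) (W2 := 536870912) (P3 := 991146299) (W3 := 28908434) (N0 := 3) (En := eng) (mo := mog) (C1 := cd0q2) (C2 := cd5q0) (C3 := pd2)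
    rfl k0_pp_202_s

noncomputable def cut_pp_203_s : Cut := Cut.of [[⟨4, 0, 0, 1449551462⟩]]

noncomputable def f_pp_203_s : ℕ → ℕ → ℕ → ℕ → Bool := onCell 0 536870912 0 536870912 991146299 28908434
    (rowNE 3 eng mog cd0q2 cd5q0 pd3 0 true true true .up 2 0 3 (qsf 0 536870912 0 536870912 3) ndB0q2 ndB5q0 pcB3 cut_pp_203_s Ext.none)

def k0_pp_203_s : ∃ t, chk3 f_pp_203_s t 1 1 1 = true :=
  ⟨(l 4), by decide +kernel⟩

theorem c_pp_203_s : CertNE 0 536870912 0 536870912 991146299 28908434 3 eng mog cd0q2 cd5q0 pd3 true true true .up 2 0 3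
    ndB0q2 ndB5q0 pcB3 cut_pp_203_s Ext.none :=
  certNE0 (fam := true) (s1 := true) (s2 := true) (a := 2) (b := 0) (c := 3) (cn := .up) (n1 := ndB0q2) (n2 := ndB5q0) (pc := pcB3) (cut := cut_pp_203_s) (xt := Ext.none) (P1 := 0) (W1 := 536870912) (P2 := 0) (W2 := 536870912) (P3 := 991146299) (W3 := 28908434) (N0 := 3) (En := eng) (mo := mog) (C1 := cd0q2) (C2 := cd5q0) (C3 := pd3)
    rfl k0_pp_203_s

noncomputable def cut_pp_213_s : Cut := Cut.of [[⟨4, 0, 0, 1449551462⟩]]

noncomputable def f_pp_213_s : ℕ → ℕ → ℕ → ℕ → Bool := onCell 0 536870912 536870912 536870912 991146299 28908434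
    (rowNE 3 eng mog cd0q2 cd5q1 pd3 0 true true true .pnn 2 1 3 (qsf 0 536870912 536870912 536870912 3) ndB0q2 ndB5q1 pcB3 cut_pp_213_s Ext.none)

def k0_pp_213_s : ∃ t, chk3 f_pp_213_s t 1 1 1 = true :=
  ⟨(l 4), by decide +kernel⟩

theorem c_pp_213_s : CertNE 0 536870912 536870912 536870912 991146299 28908434 3 eng mog cd0q2 cd5q1 pd3 true true true .pnn 2 1 3
    ndB0q2 ndB5q1 pcB3 cut_pp_213_s Ext.none :=
  certNE0 (fam := true) (s1 := true) (s2 := true) (a := 2) (b := 1) (c := 3) (cn := .pnn) (n1 := ndB0q2) (n2 := ndB5q1) (pc := pcB3) (cut := cut_pp_213_s) (xt := Ext.none) (P1 := 0) (W1 := 536870912) (P2 := 536870912) (W2 := 536870912) (P3 := 991146299) (W3 := 28908434) (N0 := 3) (En := eng) (mo := mog) (C1 := cd0q2) (C2 := cd5q1) (C3 := pd3)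
    rfl k0_pp_213_s

noncomputable def cut_pm_001_s : Cut := Cut.of [[⟨4, 0, 0, 1449551462⟩]]

noncomputable def f_pm_001_s : ℕ → ℕ → ℕ → ℕ → Bool := onCell 0 536870912 536870912 536870912 991146299 28908434
    (rowNE 3 eng mog cd0q0 cd5q0 pd1 1 true true false .up 0 0 1 (qsf 0 536870912 0 536870912 1) ndB0q0 ndB5q0 pcB1 cut_pm_001_s Ext.none)

def k0_pm_001_s : ∃ t, chk3 f_pm_001_s t 2 1 1 = true :=
  ⟨(b (l 3) (b (b (l 3) (l 2)) (l 2))), by decide +kernel⟩

def k1_pm_001_s : ∃ t, chk3 f_pm_001_s t 3 2 1 = true :=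
  ⟨(b (l 3) (a (l 3) (b (a (l 3) (b (a (l 3) (b (l 3) (a (l 3) (l 333564492951)))) (a (b (l 3) (a (l 3) (l 320142718071))) (b (a (l 327122040311) (l 284709278679)) (a (l 280414304087) (l 16754240)))))) (a (b (a (l 3) (b (l 3) (a (l 3) (l 307794689463)))) (a (b (a (l 3) (b (l 3) (l 365239866567))) (a (b (l 3) (l 359871164183)) (c (l 295983552215) (l 16730456)))) (b (a (b (l 344301932631) (l 16750208)) (l 16736976)) (a (l 16732096) (l 16734088))))) (b (a (b (a (l 314237138743) (l 276656201463)) (a (l 16741288) (l 16745008))) (b (a (l 16749848) (l 16734432)) (l 16677632))) (a (b (a (l 16739744) (l 16721952)) (l 16684648)) (b (l 16695320) (l 16668944)))))))), by decide +kernel⟩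

def k2_pm_001_s : ∃ t, chk3 f_pm_001_s t 3 6 1 = true :=
  ⟨(a (b (a (b (l 3) (a (l 3) (b (l 3) (a (l 3) (b (l 3) (c (a (l 619179878311) (l 283098664711)) (l 578377712007))))))) (a (b (l 3) (c (b (a (b (l 3) (l 600389393495)) (b (l 348596875783) (l 16743632))) (a (c (l 271824346871) (l 284172376343)) (l 16754912))) (b (a (l 614884873399) (l 294909767047)) (a (b (l 309405315303) (l 16762848)) (l 16748904))))) (a (b (b (l 3) (c (b (l 359334279143) (l 304573496823)) (l 305110297751))) (b (c (l 44191150679) (l 16755448)) (c (l 16729752) (l 16728288)))) (b (b (b (l 3) (c (l 351818120647) (l 16726120))) (c (l 194514980343) (l 16740632))) (b (c (l 16736368) (l 16734728)) (l 16708680)))))) (a (b (a (l 2) (b (a (l 2) (c (b (l 219143923863) (l 2)) (l 203574641015))) (l 2))) (l 2)) (b (a (b (a (c (b (l 16749456) (l 16734000)) (l 16740384)) (c (l 16720848) (l 16718104))) (a (c (l 16709056) (l 16706496)) (l 16704264))) (b (a (l 16697512) (l 16675312)) (c (l 16652440) (l 16647664))))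 (a (b (a (l 2) (l 16645744)) (l 2)) (b (a (l 16620912) (l 16595848)) (l 60766697223)))))) (b (a (b (a (b (a (c (l 285246146631) (l 16725352)) (b (l 16754176) (l 16741496))) (a (c (l 16742584) (l 16741024)) (l 16721784))) (b (a (l 16728072) (l 16708672)) (a (l 16701856) (l 16681944)))) (a (b (a (l 16715288) (l 16695016)) (a (l 16688136) (l 16667008))) (b (l 16663920) (l 16635488)))) (b (a (b (l 16679264) (l 16651448)) (b (l 16640696) (l 16610816))) (a (b (l 16622440) (l 16591976)) (l 16562832)))) (a (b (a (b (c (l 16645600) (l 16638816)) (l 16602312)) (b (l 16596608) (l 16553768))) (a (b (l 16558504) (l 16511000)) (c (l 16487472) (l 16478944)))) (b (a (l 16528464) (l 16479576)) (a (l 16429664) (l 16375288)))))), by decide +kernel⟩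

def k3_pm_001_s : ∃ t, chk3 f_pm_001_s t 3 7 1 = true :=
  ⟨(a (b (a (l 2) (b (a (l 2) (b (l 259408623127) (l 2))) (l 2))) (l 2)) (b (a (b (a (a (l 16384760) (l 16376904)) (c (l 16336896) (l 16331808))) (a (c (l 16257328) (l 16259152)) (b (l 16287752) (l 16226632)))) (b (a (l 16233672) (l 16195336)) (a (l 16111440) (l 16110928)))) (a (b (a (l 2) (l 264239508679)) (l 2)) (b (a (l 15941704) (l 15959288)) (a (l 250817315303) (b (l 15910064) (l 15867520))))))), by decide +kernel⟩

theorem s4_pm_001_s : ∃ t, chk3 f_pm_001_s t 3 3 1 = true := ex3_b k2_pm_001_s k3_pm_001_s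

theorem s5_pm_001_s : ∃ t, chk3 f_pm_001_s t 3 1 1 = true := ex3_b k1_pm_001_s s4_pm_001_s

theorem s6_pm_001_s : ∃ t, chk3 f_pm_001_s t 1 1 1 = true := ex3_a k0_pm_001_s s5_pm_001_s

theorem c_pm_001_s : CertNE 0 536870912 0 536870912 991146299 28908434 3 eng mog cd0q0 cd5q0 pd1 true true false .up 0 0 1
    ndB0q0 ndB5q0 pcB1 cut_pm_001_s Ext.none :=
  certNE1 (fam := true) (s1 := true) (s2 := false) (a := 0) (b := 0) (c := 1) (cn := .up) (n1 := ndB0q0) (n2 := ndB5q0) (pc := pcB1) (cut := cut_pm_001_s) (xt := Ext.none) (P1 := 0) (W1 := 536870912) (P2 := 0) (W2 := 536870912) (P3 := 991146299) (W3 := 28908434) (N0 := 3) (En := eng) (mo := mog) (C1 := cd0q0) (C2 := cd5q0) (C3 := pd1)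
    rfl (fun _ => rfl) s6_pm_001_s

noncomputable def cut_pm_011_s : Cut := Cut.of [[⟨4, 0, 0, 1449551462⟩], [⟨0, 0, 0, 26843545⟩, ⟨1, 1, 0, 26843545⟩, ⟨2, 1, 0, 26843545⟩]]

noncomputable def f_pm_011_s : ℕ → ℕ → ℕ → ℕ → Bool := onCell 0 536870912 536870912 536870912 991146299 28908434
    (rowNE 3 eng mog cd0q0 cd5q1 pd1 1 true true false .pnn 0 1 1 (qsf 0 536870912 536870912 536870912 1) ndB0q0 ndB5q1 pcB1 cut_pm_011_s Ext.none)

def k0_pm_011_s : ∃ t, chk3 f_pm_011_s t 1 2 1 = true :=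
  ⟨(a (l 3) (b (l 1) (a (l 3) (l 1)))), by decide +kernel⟩

def k1_pm_011_s : ∃ t, chk3 f_pm_011_s t 2 6 1 = true :=
  ⟨(a (l 3) (b (l 3) (a (l 3) (b (l 3) (a (b (l 3) (a (l 3) (b (l 3) (a (l 3) (a (l 3) (b (l 3) (c (l 566566573895) (l 301889153927)))))))) (b (a (l 3) (b (a (l 3) (c (l 643875922759) (l 633138499527))) (a (c (l 619179915671) (b (l 3) (l 313163413687))) (c (l 253033891495) (l 266455661783))))) (a (b (a (l 3) (b (c (l 646023437143) (l 637970370615)) (c (l 316384673351) (l 306184123959)))) (c (a (c (b (l 486572787783) (l 16770024)) (l 277729939143)) (l 16762576)) (c (a (l 285246131191) (l 16762400)) (l 291151704119)))) (c (b (a (l 243370243047) (l 16756736)) (l 16744472)) (b (c (l 16741400) (l 16741248)) (a (l 16750112) (l 16737792))))))))))), by decide +kernel⟩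

def k2_pm_011_s : ∃ t, chk3 f_pm_011_s t 4 14 1 = true :=
  ⟨(a (l 3) (b (l 3) (a (l 3) (b (l 3) (a (l 3) (b (l 3) (a (b (l 3) (a (l 3) (b (l 3) (c (a (l 790441719879) (b (l 738902128343) (l 238538425751))) (c (l 692194354727) (l 695952449623)))))) (b (a (l 3) (b (a (l 3) (a (l 3) (c (l 780778049431) (l 783462400391)))) (c (a (l 697026209111) (c (l 239612160119) (l 16776008))) (c (l 331953918247) (l 335175141671))))) (c (b (a (a (l 730849057351) (a (l 659445246679) (l 240149037351))) (l 16772272)) (a (l 242833395431) (l 16745856))) (c (a (b (l 670182656887) (l 16773232)) (l 16769560)) (a (b (l 675551365175) (l 16773240)) (l 16769568)))))))))))), by decide +kernel⟩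

def k3_pm_011_s : ∃ t, chk3 f_pm_011_s t 8 30 1 = true :=
  ⟨(a (l 3) (b (l 3) (a (l 3) (b (l 3) (a (l 3) (b (l 3) (a (l 3) (b (l 3) (b (a (l 3) (c (a (l 3) (l 756082012455)) (c (l 791515481175) (l 794199832311)))) (a (a (l 3) (c (l 791515492727) (c (l 783462422823) (l 787220516791)))) (c (a (a (b (l 806547878311) (l 16776368)) (l 16776288)) (l 16775120)) (c (c (l 16775896) (l 16775904)) (l 250349575543))))))))))))), by decide +kernel⟩

def k4_pm_011_s : ∃ t, chk3 f_pm_011_s t 16 62 1 = true :=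
  ⟨(a (l 3) (b (l 3) (a (l 3) (b (l 3) (a (l 3) (b (l 3) (a (l 3) (a (l 3) (b (l 3) (b (l 3) (b (a (l 3) (a (l 3) (c (b (l 833391427911) (l 177335173463)) (c (l 321753449111) (l 329806512791))))) (a (b (l 3) (c (c (a (l 3) (l 213305524599)) (l 351281349319)) (c (l 350744478407) (l 359871283911)))) (c (b (a (l 197736267479) (l 16776856)) (l 16776688)) (c (l 16776872) (l 16776872))))))))))))))), by decide +kernel⟩

def k5_pm_011_s : ∃ t, chk3 f_pm_011_s t 32 63 1 = true :=
  ⟨(b (b (l 3) (b (l 3) (b (l 3) (l 14)))) (l 14)), by decide +kernel⟩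

def k6_pm_011_s : ∃ t, chk3 f_pm_011_s t 66 252 1 = true :=
  ⟨(a (l 3) (b (l 3) (a (l 3) (a (l 3) (a (l 3) (b (l 3) (b (l 3) (b (l 3) (b (a (l 3) (c (a (c (l 713132343479) (l 16777304)) (b (l 469929820423) (l 16777152))) (c (l 356650058087) (l 365239992679)))) (a (c (a (l 731922825415) (b (l 496773366039) (l 16777160))) (c (l 370071830903) (l 379198636407))) (c (l 16776968) (c (l 16776976) (l 16776976))))))))))))), by decide +kernel⟩

def k7_pm_011_s : ∃ t, chk3 f_pm_011_s t 132 506 1 = true :=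
  ⟨(b (l 3) (b (l 3) (b (l 3) (a (l 3) (a (l 3) (a (l 3) (c (c (a (a (l 3) (b (l 3) (l 724406632647))) (a (b (l 3) (b (l 574082777287) (l 16777160))) (b (l 711521730743) (l 16777064)))) (a (l 778630594983) (b (l 742660243719) (l 16777160)))) (b (c (l 800642302375) (l 807621624231)) (a (c (l 644412867079) (l 793126109463)) (c (l 16777160) (l 16777160))))))))))), by decide +kernel⟩

def k8_pm_011_s : ∃ t, chk3 f_pm_011_s t 264 1014 1 = true :=
  ⟨(b (l 3) (b (l 3) (b (l 3) (a (l 3) (a (l 3) (a (l 3) (b (a (l 3) (c (a (c (l 444696887447) (l 16777248)) (l 16777192)) (c (l 16777224) (l 16777224)))) (c (a (a (a (l 601463193767) (l 396378505351)) (l 16777192)) (l 16777056)) (c (l 16777144) (l 16777152)))))))))), by decide +kernel⟩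

def k9_pm_011_s : ∃ t, chk3 f_pm_011_s t 265 2028 1 = true :=
  ⟨(b (a (l 3) (b (c (a (a (l 3) (a (l 3) (a (l 3) (l 729775341735)))) (c (a (a (b (l 556366037239) (l 16777168)) (l 16777072)) (l 16775480)) (l 16776976))) (a (c (l 819432784311) (l 826948977079)) (a (c (l 16777168) (a (l 279340646647) (l 16777080))) (l 16775488)))) (c (a (b (a (l 3) (a (l 597705097463) (a (l 195588784263) (l 16777128)))) (a (l 782925562071) (a (a (l 219211104391) (l 16777136)) (l 16775680)))) (l 16775960)) (a (a (c (l 672330154519) (l 821580267815)) (c (l 111836920839) (a (l 267529486631) (l 16777088)))) (c (l 16771376) (l 16771384)))))) (a (a (l 3) (b (b (l 3) (a (l 3) (c (l 806547882199) (c (l 663740219815) (l 668572058023))))) (b (a (l 3) (c (a (l 633138577687) (a (l 266992615575) (l 16777152))) (c (l 313163514135) (l 321216577815)))) (a (c (l 818359042279) (c (l 675014508983) (l 846813200615))) (c (b (a (l 280951259287) (l 16777056)) (l 16777064)) (c (l 16777112) (l 16777112)))))))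 (c (a (a (b (b (a (l 669108928727) (a (l 223506071703) (l 16777136))) (b (a (l 238538457239) (l 16777048)) (l 16777048))) (l 16775512)) (l 16775976)) (l 16774752)) (c (c (l 16776776) (l 16776448)) (a (a (c (l 16777008) (b (l 141364820983) (l 16776832))) (l 16771400)) (l 16776088)))))), by decide +kernel⟩

def k10_pm_011_s : ∃ t, chk3 f_pm_011_s t 265 2029 1 = true :=
  ⟨(a (a (a (b (l 3) (c (b (b (a (l 3) (b (l 419463954567) (l 16777184))) (a (a (a (l 548312973479) (l 370608701559)) (l 16777184)) (l 16775736))) (l 16776208)) (b (a (c (l 379735507239) (l 388862312743)) (c (l 16777136) (l 16777136))) (l 16776864)))) (c (b (b (c (l 831780815159) (l 845739458871)) (b (a (l 3) (a (l 336248963239) (l 16777168))) (b (a (l 349133865127) (l 16775768)) (l 16777080)))) (l 16776016)) (c (b (b (l 707226763831) (a (l 356113187111) (l 16777128))) (l 16774056)) (b (b (l 867214295351) (a (l 341080801607) (l 16777128))) (l 16771440))))) (b (c (a (b (b (a (l 738902147303) (a (l 294373032103)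 (l 16777160))) (a (a (l 314774126759) (l 16777168)) (l 16775712))) (l 16776184)) (l 16775992)) (c (c (l 16776840) (l 16776840)) (a (a (b (l 353428832535) (l 16776944)) (l 16776936)) (l 16771416)))) (c (l 16775448) (c (l 16770872) (l 16770880))))) (c (a (b (l 16774768) (l 16775352)) (l 16773648)) (c (l 16772744) (l 16772760)))), by decide +kernel⟩

def k11_pm_011_s : ∃ t, chk3 f_pm_011_s t 132 1015 1 = true :=
  ⟨(a (a (a (l 14) (b (a (l 3) (b (l 3) (b (l 3) (b (b (c (c (l 750713307303) (l 626159255879)) (c (l 636359803207) (l 641191641415))) (l 14)) (l 14))))) (l 14))) (c (a (a (b (b (l 3) (b (b (a (l 3) (a (l 556902908071) (a (l 293836161143) (l 16777192)))) (a (b (l 569250939047) (a (l 450602467463) (l 16777176))) (l 16777080))) (l 16776896))) (b (l 16775696) (l 14))) (b (b (b (l 3) (b (a (l 3) (b (l 504826429607) (a (l 384030474359) (l 16777160)))) (a (c (a (l 530596233383) (l 165524013175)) (l 16777232)) (l 16777072)))) (b (l 16776888) (l 16775208))) (l 16774624)))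 (b (b (a (b (b (a (l 3) (a (l 493552140439) (l 27011317863))) (a (b (l 506973913239) (a (l 354502574199) (l 16777160))) (l 16777064))) (l 16776880)) (c (l 16776032) (l 16774072))) (l 16775320)) (l 16773728))) (b (b (a (b (l 3) (a (l 3) (a (c (l 423222051143) (l 432885727559)) (c (l 16777160) (l 16777168))))) (c (c (c (l 16776880) (l 16776880)) (l 16776880)) (a (a (b (l 422685180215) (l 16776984)) (l 16776976)) (l 16776696)))) (b (a (b (a (c (l 436643823943) (l 446844371271)) (l 46338670183)) (c (l 16776992) (l 16776992))) (l 16775680)) (c (l 16773720) (l 16776352)))) (c (l 16774128) (l 16772832))))) (c (a (b (a (b (l 16775464) (l 16772768)) (l 16773688)) (l 16772600)) (b (l 16771256) (l 16772416))) (a (b (c (l 16772776) (l 16772792)) (c (l 16773952) (l 16773984))) (c (l 16770576) (l 16767984))))), by decide +kernel⟩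

def k12_pm_011_s : ∃ t, chk3 f_pm_011_s t 266 1012 1 = true :=
  ⟨(b (l 3) (b (l 3) (a (l 3) (a (l 3) (b (c (b (l 3) (a (l 3) (a (l 3) (l 248202133703)))) (c (l 699173699927) (l 713132343639))) (a (b (l 3) (a (l 3) (c (l 323364061351) (a (l 545091748007) (l 334101479431))))) (c (a (b (l 268066357447) (l 16777072)) (l 16776976)) (c (l 16777072) (l 16777072))))))))), by decide +kernel⟩

def k13_pm_011_s : ∃ t, chk3 f_pm_011_s t 266 1013 1 = true :=
  ⟨(a (a (b (l 3) (c (c (b (a (a (l 3) (b (l 3) (l 686288797879))) (a (b (l 3) (b (l 517174460599) (l 16777136))) (b (l 672867025063) (l 16777040)))) (b (b (a (a (l 500531462375) (l 16777144)) (l 16776856)) (l 16776944)) (l 16775280))) (b (a (l 759303242135) (b (l 575156519399) (l 16777136))) (l 16776776))) (c (a (b (l 793126109591) (l 16776968)) (b (b (l 579451486695) (l 16777136)) (l 16771352))) (b (a (l 781851820439) (b (l 734607180023) (l 16777136))) (c (l 16776784) (l 16776944)))))) (b (b (l 3) (b (c (c (a (l 3) (c (a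 (l 3) (l 632601706647)) (l 680383217895))) (l 728164729223)) (c (l 760913854855) (l 749639565703))) (a (c (c (c (a (l 3) (l 647097221287)) (l 700247441639)) (l 555829166567)) (c (l 559587262951) (l 723869761767))) (c (a (b (a (l 674477637831) (l 288467452071)) (l 16777120)) (l 16777016)) (c (l 16777112) (l 16777112)))))) (b (c (b (c (a (a (b (l 442549403863) (l 16777128)) (l 16777032)) (l 16775432)) (l 16776936)) (l 16775256)) (c (l 16776760) (l 16776760))) (c (l 16774712) (l 16774728))))) (c (a (a (b (c (a (b (l 3) (b (b (l 382956732615) (l 16777104)) (l 16776832))) (b (b (l 3) (b (l 3) (l 417316470935))) (l 16776824))) (b (l 719037923703) (l 16776920))) (l 16774512)) (b (b (b (a (l 3) (b (l 3) (a (l 520395686103) (l 16777224)))) (a (b (l 365776863415) (l 16777096)) (l 16777000))) (l 16775232)) (l 16774128))) (b (c (b (a (a (b (b (l 375440539783) (l 16777080)) (l 16776808)) (l 16776800)) (l 16775208)) (l 16773352)) (l 16776344)) (l 16772256))) (b (a (c (b (a (l 725480374647)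 (c (l 233169747783) (l 238538457559))) (l 16776736)) (b (a (l 739975889271) (b (l 528985620935) (l 16777096))) (l 16776736))) (c (l 16776352) (l 16776360))) (c (l 16772656) (l 16770048))))), by decide +kernel⟩

def k14_pm_011_s : ∃ t, chk3 f_pm_011_s t 267 506 1 = true :=
  ⟨(a (b (b (b (l 3) (a (l 3) (b (a (l 3) (c (a (l 814600945895) (b (l 593410130231) (l 16777200))) (c (l 427517018503) (l 437180694919)))) (a (c (a (l 829633331447) (b (l 687362539799) (l 16777208))) (c (l 439865049495) (l 421611438535))) (c (c (l 16777016) (l 16777024)) (c (l 16777024) (l 16777024))))))) (a (b (b (a (l 3) (b (l 3) (a (l 3) (c (l 184314495159) (a (l 352891961527) (l 16777176)))))) (c (b (a (l 3) (a (l 204178718903) (l 16775728))) (a (a (l 3) (l 259476422807)) (l 16775640))) (c (c (l 197199397303) (l 16777224)) (a (l 455434306007) (l 16777048))))) (c (b (a (b (a (l 229948522695) (l 16777056)) (l 16776968)) (l 16775368)) (l 16775192)) (c (l 16776688) (l 16776696)))) (c (c (a (a (b (b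 (l 16777208) (l 16776760)) (l 16776208)) (l 16775072)) (l 16774792)) (l 16776296)) (c (l 16776304) (l 16776312))))) (c (b (a (l 16774272) (l 16772208)) (l 16771128)) (c (l 16771888) (l 16771912)))) (b (a (b (b (b (a (l 3) (c (a (l 749639565527) (b (l 526301266215) (l 16777176))) (c (l 392620409207) (l 373293056423)))) (a (c (a (l 779167465687) (b (l 565492842791) (l 16777184))) (c (l 405505311111) (l 415168987527))) (c (l 16776992) (a (l 213305523895) (l 16774288))))) (c (c (a (c (l 16776824) (l 16776824)) (l 16773824)) (l 16776640)) (c (l 16776640) (l 16776648)))) (c (l 16774224) (c (l 16770312) (l 16770328)))) (c (b (c (b (l 16776768) (l 16773256)) (l 16776248)) (l 16772160)) (c (l 16775536) (l 16775544)))) (c (c (l 16770336) (l 16767744)) (c (l 16767784) (l 16762576))))), by decide +kernel⟩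

def k15_pm_011_s : ∃ t, chk3 f_pm_011_s t 133 507 1 = true :=
  ⟨(a (b (c (a (b (c (a (l 16774360) (l 16772288)) (l 16772680)) (l 16771216)) (a (l 16771472) (l 16770064))) (a (b (c (l 16772696) (l 16772712)) (l 16772576)) (c (l 16767872) (l 16767904)))) (c (a (l 16769024) (l 16770160)) (c (l 16765736) (l 16765792)))) (b (c (c (l 16768168) (l 16765600)) (c (l 16765656) (l 16760464))) (c (l 16762680) (l 16762840)))), by decide +kernel⟩

def k16_pm_011_s : ∃ t, chk3 f_pm_011_s t 134 504 1 = true :=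
  ⟨(a (l 3) (b (l 3) (b (l 3) (a (l 3) (a (a (l 3) (c (c (b (l 3) (l 741586502055)) (l 777019982551)) (c (l 813527204567) (l 799568560855)))) (c (a (b (l 3) (b (l 694341861623) (a (l 180019527943) (l 16777032)))) (b (b (l 3) (l 677698863335)) (a (b (l 169282109671) (l 16776848)) (l 16776840)))) (c (b (l 783999304231) (c (l 16777120) (l 16777120))) (b (l 790978626087) (c (l 107541952487) (a (l 274508806071) (l 16776936))))))))))), by decide +kernel⟩

def k17_pm_011_s : ∃ t, chk3 f_pm_011_s t 268 505 1 = true :=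
  ⟨(a (b (l 3) (b (b (l 3) (a (l 3) (a (b (l 3) (c (a (a (l 620253675927) (l 425906405703)) (b (l 370071830759) (l 16777112))) (c (l 16777256) (l 313700385095)))) (b (c (a (a (l 595020743047) (l 402284085559)) (a (l 209547428071) (l 16777144))) (c (l 16777248) (l 16777408))) (c (l 16776920) (l 16776920)))))) (a (b (a (b (l 3) (c (a (a (l 3) (l 483351593303)) (b (l 428053889287) (l 16777136))) (c (l 314774126983) (l 304036708775)))) (b (c (a (a (l 3) (l 461339885895)) (b (l 397989118199) (l 16777128))) (c (l 319605965143) (l 327659028823))) (c (l 16776944) (l 16776952)))) (c (c (l 16776584) (l 16776584)) (c (l 16776592) (l 16776600)))) (c (b (l 16776560) (l 16773208)) (c (l 16776208) (l 16776216)))))) (a (b (l 3) (b (b (b (a (l 3) (c (a (a (l 536501813623) (l 342154543399)) (a (l 16777208) (l 16777112))) (c (l 16777232) (l 16777232)))) (c (a (a (a (l 571935293815) (l 379198636327)) (a (l 186461978839) (l 16777128))) (l 16776888)) (c (l 16777080) (l 16777328)))) (c (l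 16776536) (c (l 16776536) (l 16776544)))) (c (l 16774128) (l 16774152)))) (b (b (l 3) (b (l 3) (b (a (l 3) (c (a (a (l 486572818775) (l 293299290375)) (l 16777136)) (c (l 16777224) (l 16777224)))) (c (a (a (a (l 510732009831) (l 317995352343)) (l 16777144)) (l 16776864)) (c (l 16777056) (l 16777056)))))) (c (b (l 16776184) (l 16772056)) (c (l 16775432) (l 16775440)))))), by decide +kernel⟩

def k18_pm_011_s : ∃ t, chk3 f_pm_011_s t 269 505 1 = true :=
  ⟨(c (a (b (a (b (c (b (l 3) (a (l 3) (l 807621624279))) (l 831780815783)) (b (b (a (l 821580267847) (a (a (l 423758922055) (l 230485393655)) (l 16777104))) (a (a (a (l 462413627719) (l 255181455623)) (l 16777120)) (l 16774216))) (l 16775168))) (a (b (b (l 3) (b (l 789904884007) (a (a (l 397989118263) (l 16777224)) (l 16777088)))) (l 16774960)) (b (c (b (l 769503789495) (a (b (l 252497101095) (l 16776904)) (l 16776896))) (b (l 775946240439) (l 16776992))) (l 16773272)))) (b (l 16773368) (l 16768304))) (b (b (a (b (a (b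 (l 728164729111) (a (a (l 333027737895) (l 16777208)) (l 16777064))) (a (b (l 202568106263) (l 16776872)) (l 16776864))) (l 16775112)) (l 16774712)) (l 16773640)) (l 16770144))) (b (b (a (a (c (l 845202588583) (l 852718780039)) (c (b (l 822654009943) (c (l 135996113511) (l 16777176))) (b (l 830170202711) (a (a (l 424832664183) (l 223506072023)) (l 16776992))))) (a (b (c (c (l 16777472) (l 16777152)) (a (a (l 392083538535) (l 16777392)) (l 16776968))) (l 16775120)) (c (l 16770800) (l 16770808)))) (b (a (a (c (c (l 156397206871) (l 161229046391)) (a (a (l 458655531655) (l 271824454087)) (l 16777024))) (l 16775152)) (l 16774032)) (c (l 16772736) (l 16775376)))) (c (a (l 16769064) (l 16762336)) (l 16770320)))), by decide +kernel⟩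

def k19_pm_011_s : ∃ t, chk3 f_pm_011_s t 270 504 1 = true :=
  ⟨(a (b (l 3) (b (a (a (l 3) (a (l 3) (c (c (b (l 3) (l 671256412439)) (l 736754664023)) (c (l 743733985879) (l 758229500503))))) (a (b (l 3) (c (b (a (l 3) (l 374903669095)) (l 16777064)) (c (l 185925108247) (l 192367556567)))) (b (a (l 3) (b (l 3) (b (l 3) (c (l 16777224) (l 16777224))))) (c (l 16776872) (b (l 239075327527) (l 16774072)))))) (c (b (a (a (b (l 659982123223) (l 16777264)) (c (l 16776896) (l 16776904))) (l 16773712)) (l 16774672)) (c (a (c (l 16776728) (l 16776728)) (l 16770736)) (a (b (c (l 16777088) (a (l 250886488535) (l 16776904))) (l 16776376)) (l 16770744)))))) (b (b (l 3) (b (a (l 3) (a (l 3) (b (l 3) (c (a (l 563345359303) (l 241222811943)) (c (l 16777280) (l 16777280)))))) (c (a (a (l 3) (a (l 802789785991) (b (l 3) (l 290614935879)))) (a (b (a (l 588041421271) (l 265918873911)) (l 16777008)) (l 16776808))) (a (c (l 695952474583) (l 710447989207)) (c (l 16777000) (c (l 16777000)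 (l 16777000))))))) (c (b (b (a (a (b (a (l 3) (l 315310997847)) (l 16777040)) (l 16776840)) (l 16773648)) (l 16774608)) (l 16772208)) (b (a (a (b (c (l 16777216) (l 167134626295)) (l 16773880)) (c (l 16776480) (l 16776488))) (l 16774616)) (l 16773224))))), by decide +kernel⟩

def k20_pm_011_s : ∃ t, chk3 f_pm_011_s t 271 504 1 = true :=
  ⟨(b (a (a (b (a (l 3) (c (b (l 3) (a (l 734070309207) (b (l 3) (l 16777224)))) (c (l 683067572807) (l 697026216519)))) (c (a (b (b (a (l 538112426423) (l 16777232)) (l 16776976)) (l 16773808)) (l 16776408)) (c (l 16776608) (b (l 16776968) (l 16776256))))) (b (b (b (l 3) (c (c (a (l 3) (l 279340646759)) (l 382419862231)) (c (l 383493604055) (l 392620409559)))) (c (a (a (b (l 475298529703) (l 16777040)) (l 16777032)) (l 16776744)) (c (l 16776936) (l 16776936)))) (c (l 16773216) (l 16774552)))) (c (b (a (a (b (a (b (l 422685180295) (l 16777008)) (l 16776992)) (l 16776360)) (l 16776344)) (l 16773152)) (l 16772080)) (b (c (l 16776168) (l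 16776176)) (l 16772120)))) (c (a (c (l 16771408) (l 16768808)) (l 16767280)) (c (l 16768080) (l 16768112)))), by decide +kernel⟩

def k21_pm_011_s : ∃ t, chk3 f_pm_011_s t 135 505 1 = true :=
  ⟨(a (b (c (a (b (l 16772264) (l 16768192)) (l 16770032)) (c (l 16770824) (l 16768240))) (c (l 16767888) (c (l 16760104) (l 16760160)))) (c (b (l 16765152) (l 16767520)) (c (l 16763808) (l 16758632)))), by decide +kernel⟩

def k22_pm_011_s : ∃ t, chk3 f_pm_011_s t 67 253 1 = true :=
  ⟨(a (b (b (a (c (a (b (c (l 16773792) (l 16769872)) (l 16771032)) (c (l 16770232) (l 16767648))) (a (c (l 16771792) (l 16769192)) (c (l 16767680) (l 16762472)))) (c (l 16767344) (c (l 16760216) (l 16760272)))) (c (a (c (l 16768080) (l 16765504)) (l 16767744)) (a (c (l 16765560) (l 16760376)) (l 16757416)))) (c (a (b (l 16762592) (l 16764968)) (l 16752960)) (a (c (l 16761296) (l 16756152)) (l 16758448)))) (b (c (a (l 16761288) (l 16752752)) (a (c (l 16755848) (l 16755944)) (l 16752992))) (c (l 16748568)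 (c (l 16738320) (l 16738496))))), by decide +kernel⟩

def k23_pm_011_s : ∃ t, chk3 f_pm_011_s t 33 127 1 = true :=
  ⟨(b (a (b (a (a (a (l 14) (a (l 14) (b (b (c (l 16773576) (l 16773640)) (l 14)) (l 14)))) (b (c (a (l 16769104) (l 16764992)) (c (l 16768440) (l 16765872))) (c (l 16762832) (l 16763000)))) (c (a (b (l 16762768) (l 16765128)) (l 16758376)) (a (c (l 16761464) (l 16761560)) (l 16758624)))) (a (a (l 14) (a (l 14) (b (l 16761952) (l 14)))) (c (a (l 16750352) (l 16757936)) (c (l 16749152) (l 16749328))))) (a (b (c (l 16752680) (c (l 16749000) (l 16749168))) (c (l 16753616) (l 16743592))) (c (b (l 16753448) (l 16747912)) (b (l 16753904) (l 16748504))))) (a (a (l 14) (b (c (l 16743256) (l 16743728)) (c (l 16748168) (l 16748784)))) (b (c (l 16734752) (a (l 16748664) (l 16743176))) (c (l 16729296) (l 16719648))))), by decide +kernel⟩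

def k24_pm_011_s : ∃ t, chk3 f_pm_011_s t 34 124 1 = true :=
  ⟨(a (l 3) (b (l 3) (a (l 3) (b (l 3) (a (l 3) (b (l 3) (c (a (b (l 3) (a (l 749102695319) (b (l 695952474647) (l 16777064)))) (a (b (l 705616151367) (l 16776656)) (b (b (l 446844372103) (l 16776960)) (l 16770640)))) (c (b (l 843591969159) (a (l 796884203111) (l 16776272))) (a (l 853792511367) (b (l 778093719351) (l 16776280))))))))))), by decide +kernel⟩

def k25_pm_011_s : ∃ t, chk3 f_pm_011_s t 68 250 1 = true :=
  ⟨(a (l 3) (b (l 3) (a (l 3) (b (l 3) (b (b (l 3) (a (l 3) (c (a (l 3) (l 648707834311)) (l 951503027895)))) (b (a (l 3) (a (c (l 676625121767) (l 823190880263)) (c (c (l 16777312) (l 16776984)) (c (l 16776984) (l 16776984))))) (c (a (a (l 3) (l 699710571031)) (a (a (l 152102240167) (l 16776840)) (l 16771016))) (a (c (l 778093724519) (l 997673924631)) (c (l 16776648) (l 16776648)))))))))), by decide +kernel⟩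

def k26_pm_011_s : ∃ t, chk3 f_pm_011_s t 68 502 1 = true :=
  ⟨(a (a (l 3) (a (l 3) (b (l 3) (b (l 3) (b (a (l 3) (c (a (b (l 3) (l 295446774183)) (a (l 176261431687) (l 16777016))) (c (l 213842395895) (l 211694909655)))) (a (c (a (l 610053128487) (b (l 319605965239) (l 16776976))) (c (l 238001586967) (l 236390972951))) (c (l 16776584) (l 16776592)))))))) (a (b (a (a (l 3) (b (l 3) (b (l 3) (c (l 828559590039) (l 852718779767))))) (b (a (l 3) (b (l 3) (c (l 777019982423) (c (l 610053129447) (l 1017538149639))))) (a (c (b (l 802789786231) (a (a (l 435033211527) (l 239075328487)) (l 16777000))) (c (c (l 298667999223) (l 304036709655)) (l 584820195191))) (c (a (b (a (l 393694151271) (l 197736268231)) (l 16771376)) (l 16776592)) (c (l 16776792) (l 16776792)))))) (a (b (b (a (l 3) (c (a (a (l 468856079031) (l 279340646919)) (l 16777040)) (c (l 16777224) (l 165524013767)))) (a (c (a (a (l 508047655639) (l 319069093783)) (c (l 16777072) (l 16777072))) (c (l 189146333911)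 (l 186461979383))) (c (l 16776504) (l 16776512)))) (c (l 16775800) (c (l 16775808) (l 16775824)))) (c (l 16774992) (c (l 16775016) (l 16775032))))) (c (b (b (a (a (b (l 726554116663) (a (a (l 351818220103) (l 16777200)) (l 16776920))) (a (a (b (l 309405418023) (l 16776632)) (l 16777128)) (l 16776512))) (l 16772936)) (a (l 16773016) (l 16774112))) (c (l 16770072) (l 16762240))) (a (b (a (b (c (b (l 574619649255) (l 16777104)) (b (l 994989571031) (l 16777112))) (l 16776040)) (c (l 16775992) (l 16776000))) (l 16770896)) (c (l 16773424) (l 16773456)))))), by decide +kernel⟩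

def k27_pm_011_s : ∃ t, chk3 f_pm_011_s t 68 503 1 = true :=
  ⟨(b (a (a (b (l 3) (a (l 3) (a (b (l 3) (a (c (l 733533438375) (c (l 560124134279) (l 759303242151))) (c (b (l 501605204535) (l 16777120)) (c (l 16777256) (l 16777256))))) (c (b (a (l 703468667271) (b (l 457581789719) (l 16777080))) (l 16776728)) (a (b (c (l 530059363175) (l 541333652327)) (l 209547427015)) (c (l 16776904) (l 16776904))))))) (a (b (a (b (l 3) (c (a (l 672867025255) (b (l 412484633079) (l 16777048))) (c (l 285246225975) (a (l 503752688471) (l 16777224))))) (b (c (a (l 641728512327) (b (l 366313734615) (l 16777008))) (c (l 262160778039) (c (l 265918874423) (l 266992613623)))) (c (l 16776656) (l 16776664)))) (c (c (l 16775944) (l 16775952)) (c (l 16775960) (l 16775968)))) (c (b (l 16775872) (l 16769176)) (c (l 16775168) (l 16775184))))) (a (c (c (l 16769568) (l 16767632)) (c (l 16762424) (l 16762456))) (c (l 16764592) (l 16764696)))) (a (a (a (b (b (a (l 3) (a (c (l 762524467655) (c (l 620790547367)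 (l 812453462471))) (c (b (l 545091748439) (l 16777152)) (c (l 16777272) (l 264845132391))))) (a (a (c (l 819432784343) (l 843591974071)) (c (b (l 784536174903) (l 16777352)) (c (l 286856839815) (l 294373032583)))) (c (c (l 16776960) (l 16776800)) (c (l 16776800) (l 16776808))))) (c (a (a (b (b (l 148344144215) (l 16774224)) (l 16776296)) (l 16773656)) (l 16773088)) (c (l 16776096) (l 16776112)))) (c (b (c (a (l 17347640199) (l 16770392)) (l 16776024)) (l 16771944)) (c (l 16775312) (l 16775328)))) (c (a (l 16771152) (l 16767008)) (c (l 16767816) (l 16762600)))) (c (a (l 16764744) (l 16766976)) (c (l 16758088) (l 16758160))))), by decide +kernel⟩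

def k28_pm_011_s : ∃ t, chk3 f_pm_011_s t 138 250 1 = true :=
  ⟨(b (a (l 3) (b (l 3) (a (a (l 3) (b (l 3) (b (l 3) (c (a (l 520395686775) (l 199346881063)) (l 775409367975))))) (a (b (l 3) (b (c (a (l 480130368343) (l 16777200)) (c (l 16777080) (l 16776640))) (c (l 16776680) (l 16776688)))) (b (c (a (l 689510023815) (b (l 3) (l 16777160))) (c (l 819969653463) (l 822117135143))) (c (l 16776272) (l 16776280))))))) (b (a (a (a (l 3) (b (l 3) (c (b (l 3) (l 592336388487)) (l 914458933991)))) (a (b (l 3) (b (c (l 567640326487) (c (l 391009797095) (l 400136602599))) (c (l 16776856) (l 239612197799)))) (c (b (a (l 781851820839) (b (l 3) (l 273971937911))) (l 16776448)) (b (a (l 1029886179127) (l 855940004551)) (l 340007055495))))) (c (a (a (b (b (a (l 731385954743) (l 239612199495)) (l 16776768)) (l 16770440)) (l 16775640)) (l 16771864)) (a (b (a (b (l 796347333495) (l 16776776)) (l 16776368)) (l 16770080)) (c (l 16764024) (l 16764048))))) (c (a (a (b (a (b (l 620790546855)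 (l 16777312)) (a (l 16776728) (l 16776344))) (l 16772848)) (l 16772040)) (l 16769744)) (b (a (b (a (a (c (l 435570082903) (l 883857291607)) (l 253033970727)) (l 16770528)) (c (l 16775808) (l 16775816))) (l 16767904)) (c (l 16769288) (l 16773248)))))), by decide +kernel⟩

def k29_pm_011_s : ∃ t, chk3 f_pm_011_s t 139 250 1 = true :=
  ⟨(a (b (a (b (a (l 3) (b (l 3) (a (c (l 641191641655) (l 883320419431)) (b (l 3) (c (l 16777064) (l 16777072)))))) (c (b (a (a (b (l 408189666039) (l 16776776)) (l 16776752)) (l 16776176)) (l 16769872)) (b (c (l 16776560) (l 16776568)) (l 16769896)))) (b (c (b (c (a (l 812990333927) (b (l 776483111543) (l 135459242615))) (l 570861552167)) (c (a (b (l 151028497847) (l 16771248)) (l 16770832)) (l 16776464))) (b (c (l 820506523303) (l 820506520375)) (c (l 16776472) (l 16776472)))) (c (l 16769056) (l 16771712)))) (b (c (l 16766944) (l 16768976)) (c (l 16769328) (l 16758952)))) (b (b (c (a (b (c (a (l 16777080) (l 16770736)) (l 16776368)) (l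 16769680)) (l 16768864)) (c (l 16774896) (l 16774912))) (c (l 16766752) (l 16766824))) (c (l 16762472) (c (l 16746840) (l 16746912))))), by decide +kernel⟩

def k30_pm_011_s : ∃ t, chk3 f_pm_011_s t 69 251 1 = true :=
  ⟨(c (a (b (a (b (l 16768608) (l 16759184)) (l 16762832)) (c (l 16758616) (l 16753464))) (b (l 16757008) (l 16736992))) (a (b (a (c (l 16765928) (l 16760728)) (c (l 16757688) (l 16747272))) (c (l 16753568) (l 16743192))) (b (c (l 16753224) (l 16742848)) (l 16747784)))), by decide +kernel⟩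

def k31_pm_011_s : ∃ t, chk3 f_pm_011_s t 70 124 1 = true :=
  ⟨(b (a (l 3) (b (l 3) (a (b (l 3) (a (l 3) (c (l 976199083847) (l 954187382599)))) (b (c (l 948818668871) (c (l 935933750791) (l 921975099767))) (c (a (a (l 808158491847) (b (l 883857290439) (l 16776568))) (a (b (a (l 247665263783) (l 16777032)) (l 16775792)) (l 16775728))) (a (c (l 727090983367) (l 736217787495)) (c (l 16776120) (l 16776128)))))))) (a (b (a (l 3) (b (l 3) (a (c (a (l 898889677367) (b (l 3) (b (l 238538458039) (l 16776656)))) (c (l 789904877927) (l 792589229367))) (b (a (c (l 736754662647) (c (l 351281350087) (l 348060124679))) (c (c (l 16776896) (l 16776896)) (l 466708591607))) (c (l 16775856) (l 16775864)))))) (a (b (c (b (b (l 887078518375) (a (l 3) (a (l 342154544167) (l 16776760)))) (a (a (l 736217792839) (b (l 373293057111) (l 16776864))) (l 16776064))) (a (c (l 823190874231) (l 822653999175)) (b (c (l 721722274871) (l 737828402487)) (l 16776080)))) (c (a (b (l 16776168) (l 16769480))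 (l 16768656)) (c (l 16774696) (l 16774712)))) (c (b (l 16774792) (l 16766352)) (c (l 16773064) (l 16773088))))) (c (a (b (b (b (b (l 826948973895) (a (l 986399634887) (l 16776704))) (a (a (b (l 1000895150471) (l 16777200)) (l 16776792)) (l 16775632))) (l 16774248)) (l 16764712)) (b (b (l 16774016) (l 16760664)) (l 16756392))) (c (b (a (b (a (l 758229494951) (b (l 94657048839) (l 16775648))) (l 16774272)) (l 16772616)) (l 16758000)) (b (a (b (a (l 764135072775) (l 250886485351)) (l 16774296)) (l 16772648)) (l 16758056)))))), by decide +kernel⟩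

def k32_pm_011_s : ∃ t, chk3 f_pm_011_s t 71 124 1 = true :=
  ⟨(b (a (b (a (a (l 3) (b (l 3) (b (l 3) (c (l 824801489031) (l 812990324599))))) (a (b (l 3) (b (c (l 799031685607) (l 790978618311)) (c (l 16776472) (l 255181435223)))) (b (c (l 828022711303) (c (l 815674675543) (l 816211543255))) (c (l 16775632) (b (l 16768496) (l 16764448)))))) (a (b (a (c (a (l 764671948215) (b (l 813527201351) (l 16776336))) (b (l 835002030951) (c (l 16776720) (l 16776720)))) (c (b (c (l 16776592) (l 16776600)) (l 16764672)) (c (l 16775888) (l 16775896)))) (c (l 16768528) (l 16773808))) (c (b (l 16768288) (l 16760152)) (c (l 16761632) (l 16761656))))) (a (b (c (b (a (b (l 748028949975) (l 16776232)) (l 16775384)) (l 16768040)) (b (b (a (c (l 279340648391) (l 363629333287)) (l 16776112)) (l 260013279015)) (l 16768072))) (c (l 16758448) (l 16763768))) (c (b (c (l 16766320) (l 16750616)) (l 16755280)) (c (l 16768704) (l 16768744))))) (c (a (b (a (l 16764208) (l 16755824)) (l 16751736))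 (b (l 16751096) (l 16755904))) (a (b (c (l 16757472) (l 16757528)) (l 16757160)) (c (l 16748392) (l 16738016))))), by decide +kernel⟩

def k33_pm_011_s : ∃ t, chk3 f_pm_011_s t 35 125 1 = true :=
  ⟨(b (a (c (a (b (a (c (l 16765104) (l 16759904)) (l 16756832)) (l 16752704)) (b (l 16752296) (l 16757208))) (b (a (c (l 16763680) (l 16758496)) (l 16756424)) (a (c (l 16742360) (l 16742472)) (l 16736528)))) (c (a (l 16743392) (l 16726640)) (a (c (l 16733144) (l 16733320)) (l 16727048)))) (a (c (a (a (l 16745816) (l 16732384)) (l 16728000)) (a (c (l 16734120) (l 16734304)) (l 16738952))) (c (b (l 16721672) (l 16737304)) (c (l 16719448) (l 16719768))))), by decide +kernel⟩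

def k34_pm_011_s : ∃ t, chk3 f_pm_011_s t 17 63 1 = true :=
  ⟨(a (b (a (b (c (b (b (a (a (a (c (l 16771272) (l 16768680)) (l 16767152)) (l 16764888)) (l 16760384)) (a (a (l 16765024) (l 16767264)) (l 16762792))) (a (a (l 16760720) (l 16752512)) (l 16748088))) (a (b (a (b (c (l 16767952) (l 16767984)) (l 16767752)) (c (l 16758304) (l 16758376))) (c (l 16759392) (l 16754256))) (b (c (l 16753872) (l 16753984)) (l 16748408)))) (a (c (b (l 16748344) (l 16753248)) (b (l 16753912) (l 16753688))) (c (l 16739760) (c (l 16729648) (l 16729912))))) (b (c (a (b (l 16747800) (l 16752736)) (l 16739192)) (a (b (l 16748112) (l 16753168)) (l 16739680))) (c (a (l 16723552) (l 16738880)) (a (l 16724184) (l 16739640))))) (b (a (c (a (l 16734496) (l 16739368)) (a (l 16735152) (l 16740168))) (c (l 16710104) (l 16711120))) (a (b (a (l 16737312) (l 16731904)) (l 16708432)) (b (l 16723912) (l 16718888))))) (b (a (b (c (b (l 16722808) (l 16738440)) (a (l 16723560) (l 16738968))) (c (l 16709576)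 (l 16710552))) (b (c (l 16729520) (l 16709456)) (c (l 16719296) (l 16720552)))) (b (a (c (l 16720256) (l 16721592)) (l 16689176)) (a (l 16690104) (l 16700664))))), by decide +kernel⟩

def k35_pm_011_s : ∃ t, chk3 f_pm_011_s t 18 60 1 = true :=
  ⟨(a (l 3) (b (l 3) (a (l 3) (b (l 3) (a (a (l 3) (b (l 3) (c (a (l 757692620727) (b (l 808158477639) (l 16776296))) (c (l 703468653303) (l 708837361079))))) (b (b (a (l 3) (c (l 761987578983) (c (l 352891887559) (l 752860768903)))) (c (a (l 787757379255) (l 416779591351)) (c (l 678772597479) (l 686825660455)))) (c (c (a (a (b (l 345375729943) (l 16774728)) (l 16774528)) (l 16761656)) (l 245517735095)) (c (l 16755384) (l 16755392))))))))), by decide +kernel⟩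

def k36_pm_011_s : ∃ t, chk3 f_pm_011_s t 36 122 1 = true :=
  ⟨(a (l 3) (b (l 3) (a (b (l 3) (a (l 3) (b (l 3) (c (l 881172916503) (a (l 3) (l 862919306359)))))) (b (a (l 3) (b (l 3) (c (l 797957940519) (a (l 3) (l 768966904231))))) (c (a (b (l 825875214903) (a (b (l 806011002583) (l 16776784)) (l 16775920))) (b (c (a (b (l 756618881815) (l 16776472)) (l 16775600)) (l 16776360)) (l 16763056))) (a (b (a (l 3) (l 799568542423)) (c (l 242296504567) (l 238538407527))) (c (l 246591476615) (l 243907121415)))))))), by decide +kernel⟩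

def k37_pm_011_s : ∃ t, chk3 f_pm_011_s t 36 123 1 = true :=
  ⟨(b (a (a (l 3) (b (l 3) (a (b (l 3) (c (a (l 828559577927) (b (l 767893171303) (l 16776432))) (c (l 721185399479) (l 730849074567)))) (c (b (b (l 779167456423) (a (l 742660239495) (l 16776144))) (l 16774784)) (b (c (c (l 692731243031) (l 699710564503)) (l 710447983495)) (l 16769560)))))) (a (b (c (a (b (l 911774556391) (a (l 757155750663) (c (b (l 161229047431) (l 16775840)) (l 16776536)))) (b (a (l 722796014679) (l 237464712071)) (l 16774176))) (a (c (a (l 797421051735) (l 710447980679)) (b (l 890836578839) (l 513953213095))) (b (a (c (l 352891907031) (l 731385946871)) (l 244980882167)) (l 16774200)))) (c (a (l 16773040) (l 16759360)) (c (l 16771480) (l 16771504)))) (c (b (a (l 16772424) (l 16758720)) (l 16754504)) (c (l 16767304) (l 16767992))))) (a (a (b (a (b (l 3) (c (a (l 933249402951) (c (l 719574791239) (l 721185402935))) (c (l 767356292471) (l 772724998935)))) (c (b (a (l 866140540183) (b (l 818895905991)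 (l 16776712))) (a (b (c (l 16776848) (l 16776848)) (l 16764944)) (l 16764088))) (c (b (l 744270845863) (l 16775368)) (b (l 751787036663) (l 16775376))))) (c (a (b (a (a (b (l 282025002423) (l 16776096)) (l 16776024)) (l 16774848)) (l 16762264)) (l 16765784)) (a (b (c (l 16775632) (l 16771712)) (l 16762304)) (c (l 16750096) (l 16750128))))) (b (c (b (a (a (l 16775856) (l 16763800)) (l 16761416)) (l 16765360)) (a (c (l 16773656) (l 16773672)) (l 16765264))) (c (l 16760992) (c (l 16745336) (l 16745384))))) (c (a (b (l 16755144) (l 16738784)) (l 16745632)) (a (c (l 16752288) (l 16741864)) (c (l 16735256) (l 16735336)))))), by decide +kernel⟩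

def k38_pm_011_s : ∃ t, chk3 f_pm_011_s t 37 61 1 = true :=
  ⟨(b (a (b (a (a (l 3) (b (l 3) (b (l 3) (c (l 743733978807) (c (l 738365261943) (l 741586485735)))))) (a (b (l 3) (b (c (l 719037914631) (c (l 552607897047) (l 719574782599))) (c (l 16775376) (l 248202110855)))) (b (b (l 3) (c (l 694341855831) (c (l 344838836647) (l 699710563143)))) (c (l 16773624) (l 225116666679))))) (a (c (a (b (b (l 771114397655) (a (b (l 261623908199) (l 16776144)) (l 16775272))) (l 16761288)) (b (b (c (a (l 16777152) (l 16774928)) (l 16775712)) (l 16762384)) (l 16758048))) (c (b (b (a (l 764135062023) (l 16775720)) (l 248738967447)) (l 16749208)) (b (a (b (l 768430027111) (l 16776048)) (l 16774328)) (l 16770208)))) (c (b (c (l 16759016) (l 16748552)) (l 16742712)) (c (l 16756176) (l 16766696))))) (c (b (a (b (a (a (b (l 743733975815) (l 16775464)) (l 345912627399)) (l 16772904)) (l 16758368)) (b (l 16757632) (l 16762456))) (a (l 16749736) (l 16732824))) (b (b (a (c (c (l 246591463159)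 (l 16748248)) (l 244980849143)) (l 16757688)) (c (l 16755232) (l 16744784))) (c (l 16741384) (l 16736208))))) (c (a (a (b (a (l 16752520) (l 16749208)) (l 16728408)) (b (l 16744272) (l 16742552))) (b (a (l 16727224) (l 16741728)) (l 16711560))) (a (b (a (c (l 16740448) (l 16740496)) (c (l 16733880) (l 16733944))) (a (l 16728576) (l 16721760))) (b (c (l 16724096) (l 16724200)) (l 16711792))))), by decide +kernel⟩

def k39_pm_011_s : ∃ t, chk3 f_pm_011_s t 38 60 1 = true :=
  ⟨(b (a (l 3) (b (a (l 3) (a (l 3) (b (l 3) (b (l 3) (c (l 707763622663) (c (l 342154486311) (l 16749344))))))) (a (b (a (l 3) (b (l 3) (c (l 757692609447) (l 782388668103)))) (c (a (b (l 802789762103) (c (l 337322680567) (l 16777016))) (c (l 238001550455) (l 16775248))) (c (c (l 334101398503) (l 334638268759)) (a (l 694341847831) (l 16775256))))) (c (b (a (b (l 732459680583) (l 238001558247)) (l 16763904)) (l 16770488)) (b (c (l 243370228455) (l 236390904631)) (l 16770512)))))) (a (b (a (b (l 3) (b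 (a (l 3) (c (l 711521720503) (c (l 344838836967) (l 711521718039)))) (c (a (l 736217778791) (l 16775544)) (c (l 337322635079) (l 341080730151))))) (c (b (a (b (l 3) (l 686825662279)) (a (b (l 727627848135) (l 16775536)) (l 16763512))) (l 16772168)) (a (b (c (l 720648514631) (l 722259125591)) (l 16768536)) (c (l 247128337863) (l 240149015207))))) (c (a (b (a (l 242833394807) (l 16760888)) (l 16756872)) (l 16753272)) (a (c (l 16759696) (l 16759720)) (c (l 16742832) (l 16742872))))) (b (c (a (b (l 16771344) (l 16744792)) (l 16751632)) (c (l 16765384) (l 16765408))) (c (b (l 16735928) (l 16730248)) (c (l 16733176) (l 16733240)))))), by decide +kernel⟩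

def k40_pm_011_s : ∃ t, chk3 f_pm_011_s t 39 60 1 = true :=
  ⟨(b (b (a (a (b (a (l 3) (c (a (l 743733962951) (l 679309467543)) (c (l 340543851767) (l 699173681431)))) (c (a (b (l 683604435687) (l 16775328)) (l 16773512)) (c (l 245517725447) (l 16750144)))) (c (b (c (a (l 238538418391) (l 16772584)) (l 16774152)) (l 16747736)) (c (l 249275830343) (l 16750472)))) (c (a (l 16754536) (l 16737568)) (c (l 16761816) (l 16761840)))) (a (c (a (l 16766832) (l 16739408)) (c (l 16763648) (l 16763680))) (c (l 16729640) (c (l 16729704) (l 16729752))))) (a (b (c (l 16741904) (c (l 16731488) (l 16731544))) (c (l 16720016) (l 16720184))) (c (b (l 16718280) (l 16727720)) (c (l 16712648) (l 16712744))))), by decide +kernel⟩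

def k41_pm_011_s : ∃ t, chk3 f_pm_011_s t 19 61 1 = true :=
  ⟨(c (a (b (a (b (a (l 16748408) (l 16731456)) (l 16723104)) (b (l 16721688) (l 16730968))) (a (a (l 16708008) (l 16701440)) (l 16691512))) (b (a (l 16702616) (l 16689176)) (a (l 16699056) (l 16685416)))) (a (b (a (b (c (l 16734792) (l 16734864)) (l 16728560)) (b (l 16721880) (l 16731248))) (a (b (l 16711256) (l 16719728)) (l 16691880))) (b (a (c (l 16702840) (l 16703000)) (l 16689520)) (a (l 16678520) (l 16685912))))), by decide +kernel⟩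

def k42_pm_011_s : ∃ t, chk3 f_pm_011_s t 9 31 1 = true :=
  ⟨(a (b (a (a (b (b (a (b (c (c (l 16756304) (l 16745864)) (c (l 16745912) (l 16745968))) (c (l 16750504) (l 16750664))) (c (b (l 16739424) (l 16754528)) (c (l 16736592) (l 16736688)))) (c (a (l 16741840) (l 16724856)) (a (c (l 16731552) (l 16731696)) (l 16725168)))) (b (c (l 16716960) (c (l 16717320) (l 16717576))) (c (l 16706304) (l 16707064)))) (b (b (c (b (l 16740056) (l 16723632)) (a (l 16740608) (l 16723440))) (c (l 16714824) (l 16720432))) (c (a (l 16701480) (l 16694536)) (b (l 16704080) (l 16714520))))) (b (a (c (b (l 16712816) (l 16721768)) (b (l 16718320) (l 16701184))) (c (b (l 16720032) (l 16707560)) (b (l 16720328) (l 16707952)))) (a (c (l 16683688) (b (l 16710808) (l 16700072))) (c (l 16689992) (l 16669688))))) (b (a (a (b (c (l 16716984) (l 16718056)) (l 16686776)) (c (l 16677512) (l 16678864))) (a (b (l 16689344) (l 16679568)) (b (l 16674272) (l 16664288)))) (a (a (b (l 16698368) (l 16689224))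 (b (l 16685104) (l 16676232))) (a (l 16644960) (l 16650304))))) (b (a (b (c (a (l 16679200) (l 16686824)) (a (l 16679592) (l 16687312))) (c (a (l 16675872) (l 16661856)) (a (l 16676576) (l 16662616)))) (b (c (l 16645432) (l 16646040)) (c (l 16641248) (l 16642144)))) (a (b (c (l 16625704) (l 16627016)) (a (l 16634824) (l 16619520))) (b (a (l 16625456) (l 16611424)) (l 16576328))))), by decide +kernel⟩

def k43_pm_011_s : ∃ t, chk3 f_pm_011_s t 10 28 1 = true :=
  ⟨(a (l 3) (b (l 3) (a (b (l 3) (a (l 3) (b (l 3) (c (a (b (l 3) (l 656224002231)) (b (l 633675433463) (l 16763824))) (c (l 621327396807) (a (l 700784265655) (l 270213766903))))))) (b (b (b (l 3) (a (l 3) (a (l 3) (c (l 612737471719) (l 301352292119))))) (a (a (l 3) (a (l 3) (c (l 656223990583) (l 697026187559)))) (c (a (b (l 634212298695) (l 16759584)) (l 16771600)) (c (l 279340568871) (l 280951180439))))) (c (a (b (a (b (l 3) (l 517174433991)) (l 265381954711)) (a (l 16770576) (l 16764296))) (b (l 16764888)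 (l 16733832))) (c (a (a (l 273434958807) (l 16748232)) (l 16759808)) (a (b (l 307257828967) (l 16767392)) (l 16759776)))))))), by decide +kernel⟩

def k44_pm_011_s : ∃ t, chk3 f_pm_011_s t 20 58 1 = true :=
  ⟨(a (l 3) (b (a (l 3) (b (l 3) (b (l 3) (a (l 3) (c (a (l 726017217591) (l 322827145191)) (c (l 320679631015) (l 648170945591))))))) (b (a (b (l 3) (a (l 3) (c (l 723332866647) (c (l 729775304567) (l 726017206487))))) (c (a (b (a (l 3) (l 656760884679)) (l 251960188647)) (l 257328906935)) (c (b (l 318532130631) (l 16751160)) (a (l 469929772535) (l 16771568))))) (c (a (a (b (l 751250133959) (a (l 672867009079) (l 248738971159))) (a (b (l 639044150791) (l 16772888)) (l 16761808))) (a (l 16767536) (l 16740176))) (c (a (a (l 656760872119) (l 16747584)) (l 16764336)) (a (a (l 660518967287) (l 16747584)) (l 16764336))))))), by decide +kernel⟩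

def k45_pm_011_s : ∃ t, chk3 f_pm_011_s t 20 59 1 = true :=
  ⟨(a (b (a (b (l 3) (a (a (l 3) (b (l 3) (c (l 722259122359) (c (l 340006975575) (l 715816667447))))) (a (b (l 3) (c (a (l 659445245591) (l 241759651367)) (c (l 16756112) (l 16756112)))) (c (b (l 687899393047) (l 16774024)) (c (l 247128316855) (l 242296477351)))))) (b (a (b (l 3) (a (l 3) (c (l 655150276423) (c (l 16751704) (l 16751464))))) (c (b (a (l 706152996391) (c (l 327122112823) (l 16756064))) (l 16762992)) (c (c (l 248202050327) (l 249812662407)) (l 247665177767)))) (c (a (c (b (l 243907128055) (l 16748264)) (l 16750896)) (l 16765488)) (c (l 256792023511) (l 253033926487))))) (a (c (b (a (a (b (b (l 733533418119) (l 240149038599)) (l 16772888)) (l 247128361975)) (l 16767568)) (a (l 16742136) (l 16735640))) (b (c (c (l 244980837031) (l 247665191255)) (a (l 242296484231) (l 16767584))) (c (l 16738920) (l 16738944)))) (c (b (c (l 16747376) (l 16736896)) (l 16725816)) (b (c (l 16736904) (l 16736920)) (l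 16725856))))) (c (a (b (b (a (l 16769760) (l 16742368)) (l 16745280)) (a (l 16721480) (l 16714824))) (b (b (l 16732680) (l 16721712)) (l 16704784))) (b (c (a (b (l 16766544) (l 16734800)) (l 16727208)) (a (b (l 16766544) (l 16734800)) (l 16727216))) (a (c (l 16718184) (l 16718200)) (l 16704816))))), by decide +kernel⟩

def k46_pm_011_s : ∃ t, chk3 f_pm_011_s t 21 29 1 = true :=
  ⟨(b (b (a (a (b (a (l 3) (c (b (l 709374212871) (c (l 255181404839) (l 16755720))) (c (l 628843593575) (l 632601689287)))) (c (c (a (b (l 554218536775) (l 16772992)) (l 16769240)) (l 258939482871)) (c (l 265918804055) (l 264845060919)))) (c (b (a (l 260013251127) (l 16766800)) (l 16759712)) (c (l 231022202279) (l 233169685735)))) (c (a (l 16754728) (l 16718256)) (a (b (l 16736256) (l 16725864)) (l 16718176)))) (a (a (c (b (l 16762072) (l 16730528)) (c (l 16756800) (l 16756792))) (c (l 16722928) (c (l 16722912) (l 16722912)))) (c (b (l 16708752) (l 16697816)) (c (l 16703304) (l 16703312)))))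 (c (a (b (a (l 16714120) (l 16700936)) (l 16674144)) (b (l 16680888) (l 16678392))) (a (b (a (l 16714128) (l 16700976)) (c (l 16684688) (l 16684736))) (b (l 16680984) (l 16657632))))), by decide +kernel⟩

def k47_pm_011_s : ∃ t, chk3 f_pm_011_s t 11 14 1 = true :=
  ⟨(b (a (b (a (b (l 3) (a (b (l 3) (c (a (l 687362490631) (b (l 659982099319) (l 16757664))) (c (l 605758131047) (l 606831871831)))) (c (b (a (l 617032420855) (l 277729982423)) (l 244980867239)) (c (l 287930474295) (l 291151698407))))) (c (b (b (a (a (l 3) (l 646560320855)) (l 284172432279)) (a (c (a (l 555292285207) (l 16772792)) (l 284172409927)) (l 16763704))) (a (b (l 16766520) (l 16756928)) (l 16749344))) (c (b (a (l 545628577271) (l 16747208)) (l 16755416)) (b (a (b (l 659445199671) (l 16733608)) (l 16747152)) (a (l 16761560) (l 16749032)))))) (a (b (a (c (a (b (l 271287531719) (l 16765400)) (l 16764064)) (c (l 16746080) (l 243370233623))) (c (l 16754680) (c (l 16754576) (l 16754496)))) (c (a (l 16747176)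 (l 16713384)) (a (l 16747048) (l 16713224)))) (c (b (a (l 16721096) (l 16708360)) (l 16693936)) (b (a (l 16720880) (l 16708080)) (l 16693736))))) (b (a (c (b (a (l 16756176) (l 16743896)) (l 16730528)) (b (a (l 16755920) (l 16743496)) (l 16730136))) (c (b (l 16725264) (l 16684080)) (b (l 16724688) (l 16683544)))) (a (c (a (l 16663952) (l 16671800)) (c (l 16678176) (l 16657072))) (c (l 16630936) (l 16630664))))) (b (a (a (b (c (l 16688224) (c (l 16698640) (l 16698600))) (c (l 16676696) (l 16676744))) (c (b (l 16672192) (l 16670544)) (b (l 16672136) (l 16670696)))) (a (c (l 16633680) (l 16633864)) (c (l 16626888) (l 16627280)))) (a (a (c (b (l 16674664) (l 16650648)) (b (l 16674880) (l 16651048))) (c (l 16613776) (l 16614312))) (c (a (l 16606264) (l 16577320)) (a (l 16607120) (l 16578592)))))), by decide +kernel⟩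

def k48_pm_011_s : ∃ t, chk3 f_pm_011_s t 5 15 1 = true :=
  ⟨(b (a (a (b (c (a (b (a (b (l 16727768) (l 16737416)) (l 16708792)) (b (l 16698200) (l 16686464))) (b (a (l 16695248) (l 16702496)) (l 16664648))) (a (b (a (c (l 16722184) (l 16722232)) (c (l 16708872) (l 16708928))) (a (l 16699328) (l 16685728))) (b (a (l 16695360) (l 16702608)) (l 16664888)))) (a (b (c (l 16658128) (b (l 16674984) (l 16683960))) (c (l 16643552) (l 16644112))) (b (c (l 16661312) (l 16640776)) (c (l 16635768) (l 16636384))))) (b (a (c (b (l 16660864) (l 16657368)) (b (l 16661032) (l 16657672))) (c (l 16589080) (b (l 16654336) (l 16629472)))) (a (b (c (l 16632440) (l 16632944)) (l 16585712)) (b (l 16582784) (l 16577160))))) (c (a (b (a (l 16592056) (l 16584008)) (a (l 16560472) (l 16530584))) (b (l 16497616) (l 16463808))) (a (b (a (l 16592784) (l 16585120)) (a (l 16561712) (l 16532376))) (b (l 16499520) (l 16466672))))) (a (a (b (a (b (c (l 16638312) (l 16639040)) (l 16571400)) (b (l 16567592)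 (l 16583848))) (a (b (l 16589840) (l 16568104)) (b (l 16559952) (l 16537816)))) (b (a (b (l 16579720) (l 16553608)) (b (l 16549704) (l 16523120))) (b (a (l 16529264) (l 16498288)) (l 16449000)))) (a (b (c (l 16426824) (l 16428968)) (a (l 16455056) (l 16423640))) (b (a (l 16444824) (l 16413728)) (l 16292280))))), by decide +kernel⟩

def k49_pm_011_s : ∃ t, chk3 f_pm_011_s t 3 6 1 = true :=
  ⟨(a (b (a (b (l 3) (a (l 3) (b (l 3) (a (l 3) (b (l 3) (c (l 582135810247) (l 589115130103))))))) (b (l 1) (a (a (b (l 1) (c (l 249678417431) (l 256657735959))) (l 1)) (l 1)))) (a (b (a (b (l 3) (a (a (l 3) (b (l 3) (c (l 606294996983) (l 603610640087)))) (c (b (a (l 625622327975) (l 268066273127)) (l 258402610263)) (b (a (l 620790485927) (l 16735000)) (l 271824382327))))) (c (b (a (b (l 612737417175) (l 333564500391)) (b (l 271287512663) (l 16755040))) (a (b (l 16761080) (l 16744984)) (l 16730952))) (b (a (b (l 613811154551) (l 326585174295)) (l 253033883719)) (a (b (l 16760432)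 (l 16743856)) (l 16729208))))) (a (b (a (c (b (b (l 328732665095) (l 16747024)) (l 16756728)) (b (c (l 270750598983) (l 272898080823)) (a (l 16762136) (l 16750232)))) (c (b (l 16750824) (l 16733336)) (b (l 16750016) (l 16732200)))) (a (c (b (l 16738888) (l 16719992)) (b (l 16738112) (l 16719136))) (c (l 16705072) (l 16703776)))) (b (a (c (l 16718824) (l 16717176)) (c (l 16695168) (l 16692840))) (c (l 16667792) (l 16665728))))) (b (a (b (a (c (l 16741544) (l 16739816)) (l 218002973159)) (c (l 16697192) (l 16694144))) (c (l 189548692711) (l 223908391191))) (a (b (c (l 16659176) (l 16655792)) (c (l 16596040) (l 16613888))) (b (l 16607880) (l 16500168)))))) (b (l 1) (a (b (l 1) (a (c (l 16537144) (l 16530864)) (l 1))) (l 1)))), by decide +kernel⟩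

def k50_pm_011_s : ∃ t, chk3 f_pm_011_s t 3 7 1 = true :=
  ⟨(b (a (a (b (a (a (b (c (l 16647768) (l 16647016)) (c (l 16625008) (l 16624792))) (b (c (l 16642856) (l 16641864)) (l 16576648))) (b (c (l 16582488) (l 16581016)) (c (l 16556320) (l 16555920)))) (a (b (c (l 16542544) (l 16522344)) (c (l 16512160) (l 16514144))) (b (a (l 16541760) (l 16512640)) (l 16411432)))) (b (a (c (l 16462424) (l 16460824)) (b (l 16472768) (l 16442096))) (a (c (l 16377248) (l 16379352)) (b (l 16408560) (l 16351416))))) (a (b (a (c (l 16412784) (l 16409528)) (l 16311280)) (a (l 16192648) (l 16193208))) (b (l 1) (a (l 16193272) (l 1))))) (a (a (b (a (b (a (l 16495464) (l 16465000)) (a (l 16439952) (l 16408704))) (b (l 16355776) (l 16340248))) (a (b (l 16303496) (l 16312072)) (b (l 16302144) (l 16246576)))) (b (a (b (l 16355896) (l 16296912)) (b (l 16292136) (l 16231688))) (a (b (l 16236784) (l 16180040)) (b (l 16170584) (l 16112752))))) (a (b (a (b (l 16227656) (l 16165816)) (l 16047376))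 (a (l 15948216) (l 15964624))) (b (a (l 16044304) (l 15999192)) (a (l 15858072) (b (l 15908840) (l 15866240))))))), by decide +kernel⟩

theorem s51_pm_011_s : ∃ t, chk3 f_pm_011_s t 3 3 1 = true := ex3_b k49_pm_011_s k50_pm_011_s

theorem s52_pm_011_s : ∃ t, chk3 f_pm_011_s t 20 29 1 = true := ex3_b k44_pm_011_s k45_pm_011_s

theorem s53_pm_011_s : ∃ t, chk3 f_pm_011_s t 10 29 1 = true := ex3_a s52_pm_011_s k46_pm_011_s

theorem s54_pm_011_s : ∃ t, chk3 f_pm_011_s t 10 14 1 = true := ex3_b k43_pm_011_s s53_pm_011_s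

theorem s55_pm_011_s : ∃ t, chk3 f_pm_011_s t 5 14 1 = true := ex3_a s54_pm_011_s k47_pm_011_s

theorem s56_pm_011_s : ∃ t, chk3 f_pm_011_s t 5 7 1 = true := ex3_b s55_pm_011_s k48_pm_011_s

theorem s57_pm_011_s : ∃ t, chk3 f_pm_011_s t 19 60 1 = true := ex3_a k39_pm_011_s k40_pm_011_s

theorem s58_pm_011_s : ∃ t, chk3 f_pm_011_s t 19 30 1 = true := ex3_b s57_pm_011_s k41_pm_011_s

theorem s59_pm_011_s : ∃ t, chk3 f_pm_011_s t 36 61 1 = true := ex3_b k36_pm_011_s k37_pm_011_s

theorem s60_pm_011_s : ∃ t, chk3 f_pm_011_s t 18 61 1 = true := ex3_a s59_pm_011_s k38_pm_011_s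

theorem s61_pm_011_s : ∃ t, chk3 f_pm_011_s t 18 30 1 = true := ex3_b k35_pm_011_s s60_pm_011_s

theorem s62_pm_011_s : ∃ t, chk3 f_pm_011_s t 9 30 1 = true := ex3_a s61_pm_011_s s58_pm_011_s

theorem s63_pm_011_s : ∃ t, chk3 f_pm_011_s t 9 15 1 = true := ex3_b s62_pm_011_s k42_pm_011_s

theorem s64_pm_011_s : ∃ t, chk3 f_pm_011_s t 35 124 1 = true := ex3_a k31_pm_011_s k32_pm_011_s

theorem s65_pm_011_s : ∃ t, chk3 f_pm_011_s t 35 62 1 = true := ex3_b s64_pm_011_s k33_pm_011_s

theorem s66_pm_011_s : ∃ t, chk3 f_pm_011_s t 69 250 1 = true := ex3_a k28_pm_011_s k29_pm_011_s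

theorem s67_pm_011_s : ∃ t, chk3 f_pm_011_s t 69 125 1 = true := ex3_b s66_pm_011_s k30_pm_011_s

theorem s68_pm_011_s : ∃ t, chk3 f_pm_011_s t 68 251 1 = true := ex3_b k26_pm_011_s k27_pm_011_s

theorem s69_pm_011_s : ∃ t, chk3 f_pm_011_s t 68 125 1 = true := ex3_b k25_pm_011_s s68_pm_011_s

theorem s70_pm_011_s : ∃ t, chk3 f_pm_011_s t 34 125 1 = true := ex3_a s69_pm_011_s s67_pm_011_s

theorem s71_pm_011_s : ∃ t, chk3 f_pm_011_s t 34 62 1 = true := ex3_b k24_pm_011_s s70_pm_011_s

theorem s72_pm_011_s : ∃ t, chk3 f_pm_011_s t 17 62 1 = true := ex3_a s71_pm_011_s s65_pm_011_s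

theorem s73_pm_011_s : ∃ t, chk3 f_pm_011_s t 17 31 1 = true := ex3_b s72_pm_011_s k34_pm_011_s

theorem s74_pm_011_s : ∃ t, chk3 f_pm_011_s t 135 504 1 = true := ex3_a k19_pm_011_s k20_pm_011_s

theorem s75_pm_011_s : ∃ t, chk3 f_pm_011_s t 135 252 1 = true := ex3_b s74_pm_011_s k21_pm_011_s

theorem s76_pm_011_s : ∃ t, chk3 f_pm_011_s t 134 505 1 = true := ex3_a k17_pm_011_s k18_pm_011_s

theorem s77_pm_011_s : ∃ t, chk3 f_pm_011_s t 134 252 1 = true := ex3_b k16_pm_011_s s76_pm_011_s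

theorem s78_pm_011_s : ∃ t, chk3 f_pm_011_s t 67 252 1 = true := ex3_a s77_pm_011_s s75_pm_011_s

theorem s79_pm_011_s : ∃ t, chk3 f_pm_011_s t 67 126 1 = true := ex3_b s78_pm_011_s k22_pm_011_s

theorem s80_pm_011_s : ∃ t, chk3 f_pm_011_s t 266 506 1 = true := ex3_b k12_pm_011_s k13_pm_011_s

theorem s81_pm_011_s : ∃ t, chk3 f_pm_011_s t 133 506 1 = true := ex3_a s80_pm_011_s k14_pm_011_s

theorem s82_pm_011_s : ∃ t, chk3 f_pm_011_s t 133 253 1 = true := ex3_b s81_pm_011_s k15_pm_011_s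

theorem s83_pm_011_s : ∃ t, chk3 f_pm_011_s t 265 1014 1 = true := ex3_b k9_pm_011_s k10_pm_011_s

theorem s84_pm_011_s : ∃ t, chk3 f_pm_011_s t 132 1014 1 = true := ex3_a k8_pm_011_s s83_pm_011_s

theorem s85_pm_011_s : ∃ t, chk3 f_pm_011_s t 132 507 1 = true := ex3_b s84_pm_011_s k11_pm_011_s

theorem s86_pm_011_s : ∃ t, chk3 f_pm_011_s t 132 253 1 = true := ex3_b k7_pm_011_s s85_pm_011_s

theorem s87_pm_011_s : ∃ t, chk3 f_pm_011_s t 66 253 1 = true := ex3_a s86_pm_011_s s82_pm_011_s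

theorem s88_pm_011_s : ∃ t, chk3 f_pm_011_s t 66 126 1 = true := ex3_b k6_pm_011_s s87_pm_011_s

theorem s89_pm_011_s : ∃ t, chk3 f_pm_011_s t 33 126 1 = true := ex3_a s88_pm_011_s s79_pm_011_s

theorem s90_pm_011_s : ∃ t, chk3 f_pm_011_s t 33 63 1 = true := ex3_b s89_pm_011_s k23_pm_011_s

theorem s91_pm_011_s : ∃ t, chk3 f_pm_011_s t 16 63 1 = true := ex3_a k5_pm_011_s s90_pm_011_s

theorem s92_pm_011_s : ∃ t, chk3 f_pm_011_s t 16 31 1 = true := ex3_b k4_pm_011_s s91_pm_011_s

theorem s93_pm_011_s : ∃ t, chk3 f_pm_011_s t 8 31 1 = true := ex3_a s92_pm_011_s s73_pm_011_s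

theorem s94_pm_011_s : ∃ t, chk3 f_pm_011_s t 8 15 1 = true := ex3_b k3_pm_011_s s93_pm_011_s

theorem s95_pm_011_s : ∃ t, chk3 f_pm_011_s t 4 15 1 = true := ex3_a s94_pm_011_s s63_pm_011_s

theorem s96_pm_011_s : ∃ t, chk3 f_pm_011_s t 4 7 1 = true := ex3_b k2_pm_011_s s95_pm_011_s

theorem s97_pm_011_s : ∃ t, chk3 f_pm_011_s t 2 7 1 = true := ex3_a s96_pm_011_s s56_pm_011_s

theorem s98_pm_011_s : ∃ t, chk3 f_pm_011_s t 2 3 1 = true := ex3_b k1_pm_011_s s97_pm_011_s

theorem s99_pm_011_s : ∃ t, chk3 f_pm_011_s t 1 3 1 = true := ex3_a s98_pm_011_s s51_pm_011_s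

theorem s100_pm_011_s : ∃ t, chk3 f_pm_011_s t 1 1 1 = true := ex3_b k0_pm_011_s s99_pm_011_s

theorem c_pm_011_s : CertNE 0 536870912 536870912 536870912 991146299 28908434 3 eng mog cd0q0 cd5q1 pd1 true true false .pnn 0 1 1
    ndB0q0 ndB5q1 pcB1 cut_pm_011_s Ext.none :=
  certNE1 (fam := true) (s1 := true) (s2 := false) (a := 0) (b := 1) (c := 1) (cn := .pnn) (n1 := ndB0q0) (n2 := ndB5q1) (pc := pcB1) (cut := cut_pm_011_s) (xt := Ext.none) (P1 := 0) (W1 := 536870912) (P2 := 536870912) (W2 := 536870912) (P3 := 991146299) (W3 := 28908434) (N0 := 3) (En := eng) (mo := mog) (C1 := cd0q0) (C2 := cd5q1) (C3 := pd1)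
    rfl (fun _ => rfl) s100_pm_011_s

noncomputable def cut_pm_012_s : Cut := Cut.of [[⟨4, 0, 0, 1449551462⟩], [⟨0, 0, 0, 53687091⟩, ⟨1, 1, 0, 53687091⟩, ⟨2, 1, 0, 53687091⟩]]

noncomputable def f_pm_012_s : ℕ → ℕ → ℕ → ℕ → Bool := onCell 1073741824 536870912 536870912 536870912 991146299 28908434
    (rowNE 3 eng mog cd0q0 cd5q1 pd2 2 true true false .pnp 0 1 2 (qsf 0 536870912 536870912 536870912 2) ndB0q0 ndB5q1 pcB2 cut_pm_012_s Ext.none)

def k0_pm_012_s : ∃ t, chk3 f_pm_012_s t 4 2 1 = true :=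
  ⟨(b (a (b (a (c (l 16201040) (l 16206984)) (l 6)) (a (b (l 16046544) (c (l 16265080) (l 16276432))) (c (l 16188064) (l 16172968)))) (l 6)) (a (c (b (a (b (l 16294360) (l 16324832)) (l 16255872)) (a (b (l 16355968) (l 16303208)) (b (l 16301568) (l 16330952)))) (b (a (b (l 16307512) (l 16340544)) (l 16225688)) (a (b (l 16375664) (l 16412824)) (b (l 16266848) (l 16295536))))) (b (a (c (l 16159528) (l 16132320)) (l 6)) (a (c (l 16209304) (l 16176136)) (b (l 16085168) (l 16101040)))))), by decide +kernel⟩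

def k1_pm_012_s : ∃ t, chk3 f_pm_012_s t 4 6 1 = true :=
  ⟨(a (b (a (b (a (c (l 16419480) (l 16485128)) (l 16312704)) (a (c (l 16352696) (l 16460872)) (a (l 16342152) (l 16372248)))) (b (c (l 16360176) (l 16325032)) (a (c (l 16422040) (l 16386752)) (l 16296696)))) (a (c (b (a (l 16433784) (l 16508752)) (a (a (l 16491288) (l 16582920)) (l 16518472))) (b (a (l 16529232) (l 16472496)) (a (a (l 16575488) (l 16549712)) (l 16483232)))) (b (a (l 16376368) (c (l 16366688) (l 16332840))) (a (c (l 16436256) (l 16401424)) (l 16259144))))) (b (a (b (c (l 16240152) (l 16207128)) (c (l 16258552) (l 16205528))) (b (l 16114056) (c (l 16138416) (l 16108480)))) (a (b (c (l 16267688) (a (l 16268312) (l 16205608))) (a (l 16251360) (l 16206456))) (b (a (l 16138376) (l 16098664)) (a (l 16144704) (l 16086296)))))), by decide +kernel⟩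

def k2_pm_012_s : ∃ t, chk3 f_pm_012_s t 16 7 1 = true :=
  ⟨(b (b (b (c (a (l 16559184) (l 16523616)) (a (l 16547704) (l 16489688))) (a (a (a (l 16594512) (l 16607960)) (l 16503496)) (c (l 16482624) (l 16491688)))) (c (a (a (b (l 16623072) (a (l 16669832) (l 16658288))) (b (l 16606936) (l 16569464))) (b (l 16481824) (a (l 16551424) (l 16494912)))) (a (b (a (a (l 16653624) (l 16622936)) (l 16577784)) (a (a (l 16651752) (l 16612544)) (l 16542744))) (b (l 16450224) (a (l 16522456) (l 16464112)))))) (b (a (a (b (c (b (l 16663216) (a (l 16709984) (l 16653824))) (a (a (l 16653768) (l 16656312)) (l 16608184))) (b (a (a (l 14) (l 16659752)) (b (l 16629880) (l 16634496))) (l 14))) (b (c (a (l 16615880) (l 16603696)) (a (l 16614152) (l 16579448))) (c (b (l 16588208) (a (l 16654968) (l 16619672))) (b (l 16567704) (a (l 16637600) (l 16600384)))))) (b (a (c (l 16514032) (l 16487680)) (c (l 16494760) (l 16465952))) (a (c (b (l 16562144) (l 16567880)) (b (l 16538256) (l 16545896)))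 (c (b (l 16497432) (l 16501016)) (b (l 16470608) (l 16475784)))))) (a (l 14) (b (a (b (a (a (l 14) (l 16572880)) (l 16567192)) (l 14)) (b (c (l 16505640) (l 16482184)) (c (l 16531328) (l 16488768)))) (l 14))))), by decide +kernel⟩

def k3_pm_012_s : ∃ t, chk3 f_pm_012_s t 17 7 1 = true :=
  ⟨(b (b (a (b (l 16374304) (l 16327552)) (b (l 16333192) (l 16322968))) (a (b (c (l 16421040) (l 16387272)) (c (l 16414112) (l 16381112))) (b (l 16247280) (c (l 16314528) (l 16279664))))) (b (a (b (a (c (l 16436624) (l 16405760)) (l 16365920)) (c (a (l 16437016) (l 16377928)) (a (l 16408336) (l 16347008)))) (b (c (l 16303920) (l 16269496)) (a (c (l 16321904) (l 16289152)) (l 16252456)))) (a (b (a (c (b (l 16440000) (l 16443576)) (b (l 16413424) (l 16418648))) (c (l 16388792) (l 16349688))) (b (a (c (l 16447224) (l 16424040)) (c (l 16381816) (l 16355432))) (a (l 14) (c (l 16384464) (l 16359712))))) (b (a (c (l 16318632) (l 16287656)) (c (l 16261928) (l 16228976))) (a (b (c (l 16318800)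 (l 16289592)) (c (l 16320480) (l 16292688))) (c (b (l 16259048) (l 16258888)) (l 16227792))))))), by decide +kernel⟩

def k4_pm_012_s : ∃ t, chk3 f_pm_012_s t 9 7 1 = true :=
  ⟨(b (a (b (a (b (l 16256600) (l 16242200)) (b (l 16185832) (l 16167872))) (a (b (l 16224496) (l 16206384)) (b (l 16146464) (l 16123920)))) (b (a (l 16109760) (l 16047424)) (a (b (l 16074848) (l 16049120)) (b (l 16009048) (l 15980800))))) (a (b (a (b (c (l 16207968) (l 16172048)) (c (l 16194456) (l 16158696))) (b (l 16103064) (c (l 16102648) (l 16065824)))) (a (b (a (c (l 16187304) (l 16173744)) (l 16140408)) (a (c (l 16180880) (l 16168728)) (b (l 16111680) (l 16107784)))) (b (c (l 16086752) (l 16049848)) (a (b (l 16082256) (l 16055592)) (l 16009984))))) (b (a (b (l 16024384) (l 16001648)) (b (l 15953480) (l 15927512))) (a (b (c (l 15999704) (l 15962240)) (c (l 15961072) (l 15944304))) (b (l 15903592) (c (l 15900664) (l 15862936))))))), by decide +kernel⟩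

def k5_pm_012_s : ∃ t, chk3 f_pm_012_s t 5 1 1 = true :=
  ⟨(b (b (l 6) (l 6)) (b (a (b (a (b (l 6) (l 15951424)) (l 6)) (a (a (b (l 16039736) (l 16028048)) (b (l 15983032) (a (l 15985120) (a (l 15963744) (a (l 15952944) (l 15945144)))))) (b (l 6) (a (l 15913664) (l 6))))) (l 6)) (a (a (b (a (b (l 15989176) (l 15933808)) (a (b (l 15947576) (l 15891144)) (a (b (l 15927616) (l 15871496)) (b (a (l 15918104) (l 15911568)) (a (l 15862872) (l 15857392)))))) (a (b (b (l 15889536) (l 15861792)) (b (l 15814528) (a (l 15827448) (l 15794720)))) (a (b (l 15810776) (b (l 15790792) (l 15765632))) (b (a (l 15812504) (a (l 15804936) (l 15779416))) (a (b (l 15771920) (l 15747072)) (a (l 15753000) (b (l 15761536) (l 15737928)))))))) (b (b (b (l 15844288) (l 15840672)) (c (l 15807352) (l 15782200))) (b (a (l 15764536) (l 15700656)) (b (l 15688896) (c (l 15676976) (l 15646880)))))) (a (b (l 6) (a (b (l 15640544) (l 15553440)) (l 6))) (l 6))))), by decide +kernel⟩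

def k6_pm_012_s : ∃ t, chk3 f_pm_012_s t 3 1 1 = true :=
  ⟨(b (l 6) (l 6)), by decide +kernel⟩

theorem s7_pm_012_s : ∃ t, chk3 f_pm_012_s t 8 7 1 = true := ex3_a k2_pm_012_s k3_pm_012_s

theorem s8_pm_012_s : ∃ t, chk3 f_pm_012_s t 4 7 1 = true := ex3_a s7_pm_012_s k4_pm_012_s

theorem s9_pm_012_s : ∃ t, chk3 f_pm_012_s t 4 3 1 = true := ex3_b k1_pm_012_s s8_pm_012_s

theorem s10_pm_012_s : ∃ t, chk3 f_pm_012_s t 4 1 1 = true := ex3_b k0_pm_012_s s9_pm_012_s

theorem s11_pm_012_s : ∃ t, chk3 f_pm_012_s t 2 1 1 = true := ex3_a s10_pm_012_s k5_pm_012_s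

theorem s12_pm_012_s : ∃ t, chk3 f_pm_012_s t 1 1 1 = true := ex3_a s11_pm_012_s k6_pm_012_s

theorem c_pm_012_s : CertNE 0 536870912 536870912 536870912 991146299 28908434 3 eng mog cd0q0 cd5q1 pd2 true true false .pnp 0 1 2
    ndB0q0 ndB5q1 pcB2 cut_pm_012_s Ext.none :=
  certNE2 (fam := true) (s1 := true) (s2 := false) (a := 0) (b := 1) (c := 2) (cn := .pnp) (n1 := ndB0q0) (n2 := ndB5q1) (pc := pcB2) (cut := cut_pm_012_s) (xt := Ext.none) (P1 := 0) (W1 := 536870912) (P2 := 536870912) (W2 := 536870912) (P3 := 991146299) (W3 := 28908434) (N0 := 3) (En := eng) (mo := mog) (C1 := cd0q0) (C2 := cd5q1) (C3 := pd2)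
    rfl (fun _ => rfl) s12_pm_012_s

noncomputable def cut_pm_022_s : Cut := Cut.of [[⟨4, 0, 0, 1449551462⟩], [⟨0, 0, 0, 53687091⟩, ⟨1, 1, 0, 53687091⟩, ⟨2, 1, 0, 53687091⟩]]

noncomputable def f_pm_022_s : ℕ → ℕ → ℕ → ℕ → Bool := onCell 0 536870912 1073741824 536870912 991146299 28908434
    (rowNE 3 eng mog cd0q0 cd5q2 pd2 1 true true false .pp 0 2 2 (qsf 0 536870912 1073741824 536870912 2) ndB0q0 ndB5q2 pcB2 cut_pm_022_s Ext.none)

def k0_pm_022_s : ∃ t, chk3 f_pm_022_s t 1 4 1 = true :=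
  ⟨(a (b (a (a (b (a (l 14) (a (l 14) (l 1))) (b (a (l 14) (a (l 14) (b (l 1) (a (b (l 1) (l 16312728)) (l 1))))) (a (a (a (b (l 16616648) (l 16626592)) (b (l 16586040) (l 16575984))) (b (a (l 16533144) (l 16478896)) (l 16413632))) (a (a (b (l 16423304) (l 16416160)) (c (l 16353816) (l 16351024))) (b (a (c (l 16321320) (l 16294280)) (l 16256368)) (a (l 16302768) (l 16249568))))))) (a (b (l 1) (a (b (l 1) (b (l 1) (c (l 16173576) (l 16139288)))) (l 1))) (l 1))) (l 1)) (a (a (b (a (b (a (b (l 16550648) (l 16543992)) (c (l 16474696) (l 16458488))) (a (b (l 16559648) (l 16577232)) (l 16397472))) (b (a (b (l 16341208) (l 16379624)) (c (b (l 16284120) (l 16282088)) (b (l 16256264) (l 16254744)))) (a (l 16293648) (c (l 16281928) (l 16255520))))) (a (a (b (l 16465712) (l 16422176)) (b (l 16439824) (l 16490088))) (a (b (l 16339912) (l 16372712)) (b (l 16254504) (l 16290768))))) (a (b (b (a (c (b (l 16171784) (l 16171344)) (b (l 16138192) (l 16138504))) (b (l 1) (c (l 16062592)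 (l 16024768)))) (a (c (l 16173360) (l 16141792)) (c (l 16077088) (l 16030368)))) (b (a (c (l 16181688) (l 16152168)) (c (l 16077224) (l 16043400))) (a (l 16184080) (l 16079464)))) (b (b (l 1) (a (c (l 15939976) (l 15920456)) (l 1))) (b (a (c (l 15973664) (l 15935928)) (b (l 1) (l 15854328))) (a (c (l 15992880) (l 15958264)) (b (l 15865432) (l 15878344))))))) (a (b (l 1) (a (b (l 1) (a (l 15768232) (l 1))) (l 1))) (l 1)))) (l 1)), by decide +kernel⟩

def k1_pm_022_s : ∃ t, chk3 f_pm_022_s t 1 5 1 = true :=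
  ⟨(a (a (b (a (b (b (a (a (l 16349568) (l 16488392)) (b (l 16232608) (l 16246872))) (a (b (l 16282152) (b (l 16284696) (b (l 16300944) (l 16260328)))) (b (l 16266592) (b (l 16348072) (a (l 16407600) (l 16343400)))))) (a (b (l 16209280) (l 16209704)) (b (l 16300120) (l 16254128)))) (b (b (a (a (l 16211744) (l 16107968)) (a (l 16005384) (l 15902408))) (a (b (l 16063760) (b (l 16168912) (b (l 16185272) (l 16155736)))) (b (l 15942240) (b (l 16005112) (b (l 16020480) (l 16032032)))))) (a (a (l 16239832) (l 16143256)) (b (a (l 16098208) (l 15994552)) (l 16023096))))) (a (a (b (b (l 16192536) (l 16157952)) (l 16028320)) (b (l 16152192) (l 16155024))) (a (b (a (l 16305256) (l 16223136)) (l 16255752)) (b (a (l 16135728) (l 16043736)) (l 16006744))))) (b (b (a (b (a (a (c (l 15818048) (l 15781016)) (l 15697728)) (l 1)) (b (a (a (l 15830280) (l 15728232)) (l 1)) (a (b (l 15799152) (b (l 15813280) (c (l 15839096) (l 15808248)))) (b (l 1) (b (l 1) (l 15659008)))))) (l 1)) (b (a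 (a (a (l 15891320) (l 15788464)) (c (l 15650880) (l 15617968))) (l 1)) (a (a (l 15863248) (c (l 15676416) (l 15647880))) (a (l 15461600) (l 1))))) (a (a (b (b (l 15888184) (l 15911600)) (b (l 15934768) (l 15954968))) (b (b (l 15690352) (l 15718920)) (b (l 15749000) (l 6)))) (b (a (b (l 15493384) (l 15525768)) (b (l 1) (l 6))) (l 6))))) (a (b (l 1) (l 6)) (l 1))), by decide +kernel⟩

def k2_pm_022_s : ∃ t, chk3 f_pm_022_s t 1 3 1 = true :=
  ⟨(b (a (b (a (b (a (a (l 16039344) (l 16190152)) (a (l 16235144) (l 16115528))) (a (a (l 16017208) (l 6)) (l 6))) (l 6)) (l 6)) (l 6)) (l 6)), by decide +kernel⟩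

theorem s3_pm_022_s : ∃ t, chk3 f_pm_022_s t 1 2 1 = true := ex3_b k0_pm_022_s k1_pm_022_s

theorem s4_pm_022_s : ∃ t, chk3 f_pm_022_s t 1 1 1 = true := ex3_b s3_pm_022_s k2_pm_022_s

theorem c_pm_022_s : CertNE 0 536870912 1073741824 536870912 991146299 28908434 3 eng mog cd0q0 cd5q2 pd2 true true false .pp 0 2 2
    ndB0q0 ndB5q2 pcB2 cut_pm_022_s Ext.none :=
  certNE1 (fam := true) (s1 := true) (s2 := false) (a := 0) (b := 2) (c := 2) (cn := .pp) (n1 := ndB0q0) (n2 := ndB5q2) (pc := pcB2) (cut := cut_pm_022_s) (xt := Ext.none) (P1 := 0) (W1 := 536870912) (P2 := 1073741824) (W2 := 536870912) (P3 := 991146299) (W3 := 28908434) (N0 := 3) (En := eng) (mo := mog) (C1 := cd0q0) (C2 := cd5q2) (C3 := pd2)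
    rfl (fun _ => rfl) s4_pm_022_s

noncomputable def cut_pm_023_s : Cut := Cut.of [[⟨4, 0, 0, 1449551462⟩]]

noncomputable def f_pm_023_s : ℕ → ℕ → ℕ → ℕ → Bool := onCell 1610612736 536870912 1073741824 536870912 991146299 28908434
    (rowNE 3 eng mog cd0q0 cd5q2 pd3 2 true true false .up 0 2 3 (qsf 0 536870912 1073741824 536870912 3) ndB0q0 ndB5q2 pcB3 cut_pm_023_s Ext.none)

def k0_pm_023_s : ∃ t, chk3 f_pm_023_s t 1 1 1 = true :=
  ⟨(a (l 6) (l 6)), by decide +kernel⟩

theorem c_pm_023_s : CertNE 0 536870912 1073741824 536870912 991146299 28908434 3 eng mog cd0q0 cd5q2 pd3 true true false .up 0 2 3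
    ndB0q0 ndB5q2 pcB3 cut_pm_023_s Ext.none :=
  certNE2 (fam := true) (s1 := true) (s2 := false) (a := 0) (b := 2) (c := 3) (cn := .up) (n1 := ndB0q0) (n2 := ndB5q2) (pc := pcB3) (cut := cut_pm_023_s) (xt := Ext.none) (P1 := 0) (W1 := 536870912) (P2 := 1073741824) (W2 := 536870912) (P3 := 991146299) (W3 := 28908434) (N0 := 3) (En := eng) (mo := mog) (C1 := cd0q0) (C2 := cd5q2) (C3 := pd3)
    rfl (fun _ => rfl) k0_pm_023_s

noncomputable def cut_pm_033_s : Cut := Cut.of [[⟨4, 0, 0, 1449551462⟩]]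

noncomputable def f_pm_033_s : ℕ → ℕ → ℕ → ℕ → Bool := onCell 1610612736 536870912 0 1230186008 991146299 28908434
    (rowNE 3 eng mog cd0q0 cd5q3 pd3 2 true true false .pnn 0 3 3 (qsf 0 536870912 0 1230186008 3) ndB0q0 ndB5q3 pcB3 cut_pm_033_s Ext.none)

def k0_pm_033_s : ∃ t, chk3 f_pm_033_s t 1 1 1 = true :=
  ⟨(b (l 6) (l 6)), by decide +kernel⟩

theorem c_pm_033_s : CertNE 0 536870912 0 1230186008 991146299 28908434 3 eng mog cd0q0 cd5q3 pd3 true true false .pnn 0 3 3
    ndB0q0 ndB5q3 pcB3 cut_pm_033_s Ext.none :=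
  certNE2 (fam := true) (s1 := true) (s2 := false) (a := 0) (b := 3) (c := 3) (cn := .pnn) (n1 := ndB0q0) (n2 := ndB5q3) (pc := pcB3) (cut := cut_pm_033_s) (xt := Ext.none) (P1 := 0) (W1 := 536870912) (P2 := 0) (W2 := 1230186008) (P3 := 991146299) (W3 := 28908434) (N0 := 3) (En := eng) (mo := mog) (C1 := cd0q0) (C2 := cd5q3) (C3 := pd3)
    rfl (fun _ => rfl) k0_pm_033_s

noncomputable def cut_pm_101_s : Cut := Cut.of [[⟨4, 0, 0, 1449551462⟩]]

noncomputable def f_pm_101_s : ℕ → ℕ → ℕ → ℕ → Bool := onCell 536870912 536870912 536870912 536870912 991146299 28908434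
    (rowNE 3 eng mog cd0q1 cd5q0 pd1 1 true true false .npn 1 0 1 (qsf 536870912 536870912 0 536870912 1) ndB0q1 ndB5q0 pcB1 cut_pm_101_s Ext.none)

def k0_pm_101_s : ∃ t, chk3 f_pm_101_s t 1 2 1 = true :=
  ⟨(a (b (a (b (a (l 3) (a (a (l 3) (l 1)) (l 1))) (a (b (a (l 3) (b (l 3) (a (l 3) (l 485499038999)))) (a (b (l 3) (a (l 3) (l 341617560279))) (b (a (l 487109651703) (b (l 302962908743) (l 16775168))) (a (l 290614864183) (l 16768080))))) (b (a (b (a (l 482277813911) (b (l 1) (l 16776784))) (a (b (l 300815425751) (l 16776360)) (l 16773872))) (b (l 1) (l 289943804295))) (a (b (a (l 16770976) (l 16767392)) (l 16758584)) (b (l 16764040) (l 16750912)))))) (b (l 1) (a (a (b (l 1) (l 235182952295)) (l 1)) (l 1)))) (a (b (a (b (a (b (a (l 339470074407) (l 292225477223)) (a (l 289004250311) (l 16761784))) (b (a (l 16765048) (l 16756696)) (l 16745768))) (a (b (a (l 16758208) (l 16745920)) (l 16753920)) (b (l 16707192) (l 16707304)))) (b (a (b (l 16745192) (l 16728096)) (l 16743872))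 (a (b (l 16707416) (l 16683280)) (l 16652816)))) (a (b (a (c (l 16678984) (l 16656368)) (b (l 16683352) (l 16656488))) (a (b (l 16661128) (l 16632312)) (l 16610432))) (b (a (l 16640144) (l 16610584)) (a (l 16573672) (l 16535104))))) (b (a (b (a (l 16713272) (l 16706432)) (a (l 16653544) (l 16635512))) (b (l 1) (a (l 16622016) (l 1)))) (a (b (a (l 16579936) (l 16547664)) (a (l 16493872) (l 16449104))) (b (a (l 16519856) (l 339334866103)) (a (l 16392520) (l 16224680))))))) (a (b (l 1) (a (b (l 1) (b (l 1) (a (l 16182824) (l 1)))) (l 1))) (l 1))), by decide +kernel⟩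

def k1_pm_101_s : ∃ t, chk3 f_pm_101_s t 1 3 1 = true :=
  ⟨(a (b (a (b (a (b (a (l 16584592) (l 16542264)) (a (l 16516536) (l 16467200))) (b (a (l 16497536) (l 16449656)) (a (l 16414240) (l 16356960)))) (a (b (a (l 16429408) (l 16377328)) (a (l 16319880) (l 16262984))) (b (l 16187384) (a (l 16203776) (l 16140512))))) (b (a (b (a (l 16397784) (l 16338976)) (a (l 16294584) (l 16216840))) (b (a (l 16253424) (l 16124312)) (a (l 16107984) (l 6)))) (a (b (a (l 16184568) (l 16093648)) (a (l 16072648) (l 15990224))) (b (l 15926512) (l 6))))) (a (b (a (b (a (l 16198216) (l 16137144)) (a (l 16068112) (l 15966720))) (b (a (l 16076296) (l 16020936)) (a (l 15964976) (l 15925000)))) (a (b (a (l 15839952) (l 15887912)) (a (l 15868280) (l 15848824))) (b (l 15872488) (l 6)))) (b (a (b (l 15939944) (l 6)) (l 6)) (l 6)))) (a (b (a (l 6) (l 6)) (l 6)) (l 6))), by decide +kernel⟩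

theorem s2_pm_101_s : ∃ t, chk3 f_pm_101_s t 1 1 1 = true := ex3_b k0_pm_101_s k1_pm_101_s

theorem c_pm_101_s : CertNE 536870912 536870912 0 536870912 991146299 28908434 3 eng mog cd0q1 cd5q0 pd1 true true false .npn 1 0 1
    ndB0q1 ndB5q0 pcB1 cut_pm_101_s Ext.none :=
  certNE1 (fam := true) (s1 := true) (s2 := false) (a := 1) (b := 0) (c := 1) (cn := .npn) (n1 := ndB0q1) (n2 := ndB5q0) (pc := pcB1) (cut := cut_pm_101_s) (xt := Ext.none) (P1 := 536870912) (W1 := 536870912) (P2 := 0) (W2 := 536870912) (P3 := 991146299) (W3 := 28908434) (N0 := 3) (En := eng) (mo := mog) (C1 := cd0q1) (C2 := cd5q0) (C3 := pd1)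
    rfl (fun _ => rfl) s2_pm_101_s

noncomputable def cut_pm_102_s : Cut := Cut.of [[⟨4, 0, 0, 1449551462⟩]]

noncomputable def f_pm_102_s : ℕ → ℕ → ℕ → ℕ → Bool := onCell 536870912 536870912 1073741824 536870912 991146299 28908434
    (rowNE 3 eng mog cd0q1 cd5q0 pd2 1 true true false .npp 1 0 2 (qsf 536870912 536870912 0 536870912 2) ndB0q1 ndB5q0 pcB2 cut_pm_102_s Ext.none)

def k0_pm_102_s : ∃ t, chk3 f_pm_102_s t 1 1 1 = true :=
  ⟨(a (b (b (a (b (a (b (a (l 6) (l 6)) (l 6)) (l 6)) (l 6)) (l 6)) (l 6)) (l 6)) (l 6)), by decide +kernel⟩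

theorem c_pm_102_s : CertNE 536870912 536870912 0 536870912 991146299 28908434 3 eng mog cd0q1 cd5q0 pd2 true true false .npp 1 0 2
    ndB0q1 ndB5q0 pcB2 cut_pm_102_s Ext.none :=
  certNE1 (fam := true) (s1 := true) (s2 := false) (a := 1) (b := 0) (c := 2) (cn := .npp) (n1 := ndB0q1) (n2 := ndB5q0) (pc := pcB2) (cut := cut_pm_102_s) (xt := Ext.none) (P1 := 536870912) (W1 := 536870912) (P2 := 0) (W2 := 536870912) (P3 := 991146299) (W3 := 28908434) (N0 := 3) (En := eng) (mo := mog) (C1 := cd0q1) (C2 := cd5q0) (C3 := pd2)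
    rfl (fun _ => rfl) k0_pm_102_s

noncomputable def cut_pm_112_s : Cut := Cut.of [[⟨4, 0, 0, 1449551462⟩]]

noncomputable def f_pm_112_s : ℕ → ℕ → ℕ → ℕ → Bool := onCell 536870912 536870912 536870912 536870912 991146299 28908434
    (rowNE 3 eng mog cd0q1 cd5q1 pd2 0 true true false .dn 1 1 2 (qsf 536870912 536870912 536870912 536870912 2) ndB0q1 ndB5q1 pcB2 cut_pm_112_s Ext.none)

def k0_pm_112_s : ∃ t, chk3 f_pm_112_s t 1 1 1 = true :=
  ⟨(a (b (a (b (a (b (c (l 16064528) (l 15865872)) (l 6)) (l 6)) (l 6)) (l 6)) (l 6)) (l 6)), by decide +kernel⟩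

theorem c_pm_112_s : CertNE 536870912 536870912 536870912 536870912 991146299 28908434 3 eng mog cd0q1 cd5q1 pd2 true true false .dn 1 1 2
    ndB0q1 ndB5q1 pcB2 cut_pm_112_s Ext.none :=
  certNE0 (fam := true) (s1 := true) (s2 := false) (a := 1) (b := 1) (c := 2) (cn := .dn) (n1 := ndB0q1) (n2 := ndB5q1) (pc := pcB2) (cut := cut_pm_112_s) (xt := Ext.none) (P1 := 536870912) (W1 := 536870912) (P2 := 536870912) (W2 := 536870912) (P3 := 991146299) (W3 := 28908434) (N0 := 3) (En := eng) (mo := mog) (C1 := cd0q1) (C2 := cd5q1) (C3 := pd2)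
    rfl k0_pm_112_s

noncomputable def cut_pm_113_s : Cut := Cut.of [[⟨4, 0, 0, 1449551462⟩]]

noncomputable def f_pm_113_s : ℕ → ℕ → ℕ → ℕ → Bool := onCell 536870912 536870912 1610612736 536870912 991146299 28908434
    (rowNE 3 eng mog cd0q1 cd5q1 pd3 1 true true false .nn 1 1 3 (qsf 536870912 536870912 536870912 536870912 3) ndB0q1 ndB5q1 pcB3 cut_pm_113_s Ext.none)

def k0_pm_113_s : ∃ t, chk3 f_pm_113_s t 1 1 1 = true :=
  ⟨(l 6), by decide +kernel⟩

theorem c_pm_113_s : CertNE 536870912 536870912 536870912 536870912 991146299 28908434 3 eng mog cd0q1 cd5q1 pd3 true true false .nn 1 1 3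
    ndB0q1 ndB5q1 pcB3 cut_pm_113_s Ext.none :=
  certNE1 (fam := true) (s1 := true) (s2 := false) (a := 1) (b := 1) (c := 3) (cn := .nn) (n1 := ndB0q1) (n2 := ndB5q1) (pc := pcB3) (cut := cut_pm_113_s) (xt := Ext.none) (P1 := 536870912) (W1 := 536870912) (P2 := 536870912) (W2 := 536870912) (P3 := 991146299) (W3 := 28908434) (N0 := 3) (En := eng) (mo := mog) (C1 := cd0q1) (C2 := cd5q1) (C3 := pd3)
    rfl (fun _ => rfl) k0_pm_113_s

noncomputable def cut_pm_123_s : Cut := Cut.of [[⟨4, 0, 0, 1449551462⟩]]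

noncomputable def f_pm_123_s : ℕ → ℕ → ℕ → ℕ → Bool := onCell 536870912 536870912 1073741824 536870912 991146299 28908434
    (rowNE 3 eng mog cd0q1 cd5q2 pd3 0 true true false .npn 1 2 3 (qsf 536870912 536870912 1073741824 536870912 3) ndB0q1 ndB5q2 pcB3 cut_pm_123_s Ext.none)

def k0_pm_123_s : ∃ t, chk3 f_pm_123_s t 1 1 1 = true :=
  ⟨(l 6), by decide +kernel⟩

theorem c_pm_123_s : CertNE 536870912 536870912 1073741824 536870912 991146299 28908434 3 eng mog cd0q1 cd5q2 pd3 true true false .npn 1 2 3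
    ndB0q1 ndB5q2 pcB3 cut_pm_123_s Ext.none :=
  certNE0 (fam := true) (s1 := true) (s2 := false) (a := 1) (b := 2) (c := 3) (cn := .npn) (n1 := ndB0q1) (n2 := ndB5q2) (pc := pcB3) (cut := cut_pm_123_s) (xt := Ext.none) (P1 := 536870912) (W1 := 536870912) (P2 := 1073741824) (W2 := 536870912) (P3 := 991146299) (W3 := 28908434) (N0 := 3) (En := eng) (mo := mog) (C1 := cd0q1) (C2 := cd5q2) (C3 := pd3)
    rfl k0_pm_123_s

noncomputable def cut_pm_133_s : Cut := Cut.of [[⟨4, 0, 0, 1449551462⟩]]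

noncomputable def f_pm_133_s : ℕ → ℕ → ℕ → ℕ → Bool := onCell 536870912 536870912 0 1230186008 991146299 28908434
    (rowNE 3 eng mog cd0q1 cd5q3 pd3 0 true true false .dn 1 3 3 (qsf 536870912 536870912 0 1230186008 3) ndB0q1 ndB5q3 pcB3 cut_pm_133_s Ext.none)

def k0_pm_133_s : ∃ t, chk3 f_pm_133_s t 1 1 1 = true :=
  ⟨(l 6), by decide +kernel⟩

theorem c_pm_133_s : CertNE 536870912 536870912 0 1230186008 991146299 28908434 3 eng mog cd0q1 cd5q3 pd3 true true false .dn 1 3 3
    ndB0q1 ndB5q3 pcB3 cut_pm_133_s Ext.none :=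
  certNE0 (fam := true) (s1 := true) (s2 := false) (a := 1) (b := 3) (c := 3) (cn := .dn) (n1 := ndB0q1) (n2 := ndB5q3) (pc := pcB3) (cut := cut_pm_133_s) (xt := Ext.none) (P1 := 536870912) (W1 := 536870912) (P2 := 0) (W2 := 1230186008) (P3 := 991146299) (W3 := 28908434) (N0 := 3) (En := eng) (mo := mog) (C1 := cd0q1) (C2 := cd5q3) (C3 := pd3)
    rfl k0_pm_133_s

noncomputable def cut_pm_202_s : Cut := Cut.of [[⟨4, 0, 0, 1449551462⟩]]

noncomputable def f_pm_202_s : ℕ → ℕ → ℕ → ℕ → Bool := onCell 0 536870912 0 536870912 991146299 28908434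
    (rowNE 3 eng mog cd0q2 cd5q0 pd2 0 true true false .pp 2 0 2 (qsf 0 536870912 0 536870912 2) ndB0q2 ndB5q0 pcB2 cut_pm_202_s Ext.none)

def k0_pm_202_s : ∃ t, chk3 f_pm_202_s t 1 1 1 = true :=
  ⟨(l 6), by decide +kernel⟩

theorem c_pm_202_s : CertNE 0 536870912 0 536870912 991146299 28908434 3 eng mog cd0q2 cd5q0 pd2 true true false .pp 2 0 2
    ndB0q2 ndB5q0 pcB2 cut_pm_202_s Ext.none :=
  certNE0 (fam := true) (s1 := true) (s2 := false) (a := 2) (b := 0) (c := 2) (cn := .pp) (n1 := ndB0q2) (n2 := ndB5q0) (pc := pcB2) (cut := cut_pm_202_s) (xt := Ext.none) (P1 := 0) (W1 := 536870912) (P2 := 0) (W2 := 536870912) (P3 := 991146299) (W3 := 28908434) (N0 := 3) (En := eng) (mo := mog) (C1 := cd0q2) (C2 := cd5q0) (C3 := pd2)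
    rfl k0_pm_202_s

noncomputable def cut_pm_203_s : Cut := Cut.of [[⟨4, 0, 0, 1449551462⟩]]

noncomputable def f_pm_203_s : ℕ → ℕ → ℕ → ℕ → Bool := onCell 0 536870912 0 536870912 991146299 28908434
    (rowNE 3 eng mog cd0q2 cd5q0 pd3 0 true true false .up 2 0 3 (qsf 0 536870912 0 536870912 3) ndB0q2 ndB5q0 pcB3 cut_pm_203_s Ext.none)

def k0_pm_203_s : ∃ t, chk3 f_pm_203_s t 1 1 1 = true :=
  ⟨(l 6), by decide +kernel⟩

theorem c_pm_203_s : CertNE 0 536870912 0 536870912 991146299 28908434 3 eng mog cd0q2 cd5q0 pd3 true true false .up 2 0 3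
    ndB0q2 ndB5q0 pcB3 cut_pm_203_s Ext.none :=
  certNE0 (fam := true) (s1 := true) (s2 := false) (a := 2) (b := 0) (c := 3) (cn := .up) (n1 := ndB0q2) (n2 := ndB5q0) (pc := pcB3) (cut := cut_pm_203_s) (xt := Ext.none) (P1 := 0) (W1 := 536870912) (P2 := 0) (W2 := 536870912) (P3 := 991146299) (W3 := 28908434) (N0 := 3) (En := eng) (mo := mog) (C1 := cd0q2) (C2 := cd5q0) (C3 := pd3)
    rfl k0_pm_203_s

noncomputable def cut_pm_213_s : Cut := Cut.of [[⟨4, 0, 0, 1449551462⟩]]

noncomputable def f_pm_213_s : ℕ → ℕ → ℕ → ℕ → Bool := onCell 0 536870912 536870912 536870912 991146299 28908434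
    (rowNE 3 eng mog cd0q2 cd5q1 pd3 0 true true false .pnn 2 1 3 (qsf 0 536870912 536870912 536870912 3) ndB0q2 ndB5q1 pcB3 cut_pm_213_s Ext.none)

def k0_pm_213_s : ∃ t, chk3 f_pm_213_s t 1 1 1 = true :=
  ⟨(l 6), by decide +kernel⟩

theorem c_pm_213_s : CertNE 0 536870912 536870912 536870912 991146299 28908434 3 eng mog cd0q2 cd5q1 pd3 true true false .pnn 2 1 3
    ndB0q2 ndB5q1 pcB3 cut_pm_213_s Ext.none :=
  certNE0 (fam := true) (s1 := true) (s2 := false) (a := 2) (b := 1) (c := 3) (cn := .pnn) (n1 := ndB0q2) (n2 := ndB5q1) (pc := pcB3) (cut := cut_pm_213_s) (xt := Ext.none) (P1 := 0) (W1 := 536870912) (P2 := 536870912) (W2 := 536870912) (P3 := 991146299) (W3 := 28908434) (N0 := 3) (En := eng) (mo := mog) (C1 := cd0q2) (C2 := cd5q1) (C3 := pd3)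
    rfl k0_pm_213_s

noncomputable def cut_mm_001_s : Cut := Cut.of [[⟨4, 0, 0, 1449551462⟩]]

noncomputable def f_mm_001_s : ℕ → ℕ → ℕ → ℕ → Bool := onCell 0 536870912 0 536870912 991146299 28908434
    (rowNE 3 eng mog cd0q0 cd5q0 pd1 0 true false false .up 0 0 1 (qsf 0 536870912 0 536870912 1) ndB0q0 ndB5q0 pcB1 cut_mm_001_s Ext.none)

def k0_mm_001_s : ∃ t, chk3 f_mm_001_s t 1 1 1 = true :=
  ⟨(l 4), by decide +kernel⟩

theorem c_mm_001_s : CertNE 0 536870912 0 536870912 991146299 28908434 3 eng mog cd0q0 cd5q0 pd1 true false false .up 0 0 1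
    ndB0q0 ndB5q0 pcB1 cut_mm_001_s Ext.none :=
  certNE0 (fam := true) (s1 := false) (s2 := false) (a := 0) (b := 0) (c := 1) (cn := .up) (n1 := ndB0q0) (n2 := ndB5q0) (pc := pcB1) (cut := cut_mm_001_s) (xt := Ext.none) (P1 := 0) (W1 := 536870912) (P2 := 0) (W2 := 536870912) (P3 := 991146299) (W3 := 28908434) (N0 := 3) (En := eng) (mo := mog) (C1 := cd0q0) (C2 := cd5q0) (C3 := pd1)
    rfl k0_mm_001_s

noncomputable def cut_mm_011_s : Cut := Cut.of [[⟨4, 0, 0, 1449551462⟩]]

noncomputable def f_mm_011_s : ℕ → ℕ → ℕ → ℕ → Bool := onCell 0 536870912 536870912 536870912 991146299 28908434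
    (rowNE 3 eng mog cd0q0 cd5q1 pd1 0 true false false .pnn 0 1 1 (qsf 0 536870912 536870912 536870912 1) ndB0q0 ndB5q1 pcB1 cut_mm_011_s Ext.none)

def k0_mm_011_s : ∃ t, chk3 f_mm_011_s t 1 1 1 = true :=
  ⟨(l 4), by decide +kernel⟩

theorem c_mm_011_s : CertNE 0 536870912 536870912 536870912 991146299 28908434 3 eng mog cd0q0 cd5q1 pd1 true false false .pnn 0 1 1
    ndB0q0 ndB5q1 pcB1 cut_mm_011_s Ext.none :=
  certNE0 (fam := true) (s1 := false) (s2 := false) (a := 0) (b := 1) (c := 1) (cn := .pnn) (n1 := ndB0q0) (n2 := ndB5q1) (pc := pcB1) (cut := cut_mm_011_s) (xt := Ext.none) (P1 := 0) (W1 := 536870912) (P2 := 536870912) (W2 := 536870912) (P3 := 991146299) (W3 := 28908434) (N0 := 3) (En := eng) (mo := mog) (C1 := cd0q0) (C2 := cd5q1) (C3 := pd1)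
    rfl k0_mm_011_s

noncomputable def cut_mm_012_s : Cut := Cut.of [[⟨4, 0, 0, 1449551462⟩]]

noncomputable def f_mm_012_s : ℕ → ℕ → ℕ → ℕ → Bool := onCell 0 536870912 536870912 536870912 991146299 28908434
    (rowNE 3 eng mog cd0q0 cd5q1 pd2 0 true false false .pnp 0 1 2 (qsf 0 536870912 536870912 536870912 2) ndB0q0 ndB5q1 pcB2 cut_mm_012_s Ext.none)

def k0_mm_012_s : ∃ t, chk3 f_mm_012_s t 1 1 1 = true :=
  ⟨(l 4), by decide +kernel⟩

theorem c_mm_012_s : CertNE 0 536870912 536870912 536870912 991146299 28908434 3 eng mog cd0q0 cd5q1 pd2 true false false .pnp 0 1 2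
    ndB0q0 ndB5q1 pcB2 cut_mm_012_s Ext.none :=
  certNE0 (fam := true) (s1 := false) (s2 := false) (a := 0) (b := 1) (c := 2) (cn := .pnp) (n1 := ndB0q0) (n2 := ndB5q1) (pc := pcB2) (cut := cut_mm_012_s) (xt := Ext.none) (P1 := 0) (W1 := 536870912) (P2 := 536870912) (W2 := 536870912) (P3 := 991146299) (W3 := 28908434) (N0 := 3) (En := eng) (mo := mog) (C1 := cd0q0) (C2 := cd5q1) (C3 := pd2)
    rfl k0_mm_012_s

noncomputable def cut_mm_022_s : Cut := Cut.of [[⟨4, 0, 0, 1449551462⟩]]

noncomputable def f_mm_022_s : ℕ → ℕ → ℕ → ℕ → Bool := onCell 0 536870912 1073741824 536870912 991146299 28908434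
    (rowNE 3 eng mog cd0q0 cd5q2 pd2 0 true false false .pp 0 2 2 (qsf 0 536870912 1073741824 536870912 2) ndB0q0 ndB5q2 pcB2 cut_mm_022_s Ext.none)

def k0_mm_022_s : ∃ t, chk3 f_mm_022_s t 1 1 1 = true :=
  ⟨(l 4), by decide +kernel⟩

theorem c_mm_022_s : CertNE 0 536870912 1073741824 536870912 991146299 28908434 3 eng mog cd0q0 cd5q2 pd2 true false false .pp 0 2 2
    ndB0q0 ndB5q2 pcB2 cut_mm_022_s Ext.none :=
  certNE0 (fam := true) (s1 := false) (s2 := false) (a := 0) (b := 2) (c := 2) (cn := .pp) (n1 := ndB0q0) (n2 := ndB5q2) (pc := pcB2) (cut := cut_mm_022_s) (xt := Ext.none) (P1 := 0) (W1 := 536870912) (P2 := 1073741824) (W2 := 536870912) (P3 := 991146299) (W3 := 28908434) (N0 := 3) (En := eng) (mo := mog) (C1 := cd0q0) (C2 := cd5q2) (C3 := pd2)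
    rfl k0_mm_022_s

noncomputable def cut_mm_023_s : Cut := Cut.of [[⟨4, 0, 0, 1449551462⟩]]

noncomputable def f_mm_023_s : ℕ → ℕ → ℕ → ℕ → Bool := onCell 0 536870912 1073741824 536870912 991146299 28908434
    (rowNE 3 eng mog cd0q0 cd5q2 pd3 0 true false false .up 0 2 3 (qsf 0 536870912 1073741824 536870912 3) ndB0q0 ndB5q2 pcB3 cut_mm_023_s Ext.none)

def k0_mm_023_s : ∃ t, chk3 f_mm_023_s t 1 1 1 = true :=
  ⟨(l 4), by decide +kernel⟩

theorem c_mm_023_s : CertNE 0 536870912 1073741824 536870912 991146299 28908434 3 eng mog cd0q0 cd5q2 pd3 true false false .up 0 2 3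
    ndB0q0 ndB5q2 pcB3 cut_mm_023_s Ext.none :=
  certNE0 (fam := true) (s1 := false) (s2 := false) (a := 0) (b := 2) (c := 3) (cn := .up) (n1 := ndB0q0) (n2 := ndB5q2) (pc := pcB3) (cut := cut_mm_023_s) (xt := Ext.none) (P1 := 0) (W1 := 536870912) (P2 := 1073741824) (W2 := 536870912) (P3 := 991146299) (W3 := 28908434) (N0 := 3) (En := eng) (mo := mog) (C1 := cd0q0) (C2 := cd5q2) (C3 := pd3)
    rfl k0_mm_023_s

noncomputable def cut_mm_033_s : Cut := Cut.of [[⟨4, 0, 0, 1449551462⟩]]

noncomputable def f_mm_033_s : ℕ → ℕ → ℕ → ℕ → Bool := onCell 0 536870912 0 1230186008 991146299 28908434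
    (rowNE 3 eng mog cd0q0 cd5q3 pd3 0 true false false .pnn 0 3 3 (qsf 0 536870912 0 1230186008 3) ndB0q0 ndB5q3 pcB3 cut_mm_033_s Ext.none)

def k0_mm_033_s : ∃ t, chk3 f_mm_033_s t 1 1 1 = true :=
  ⟨(l 4), by decide +kernel⟩

theorem c_mm_033_s : CertNE 0 536870912 0 1230186008 991146299 28908434 3 eng mog cd0q0 cd5q3 pd3 true false false .pnn 0 3 3
    ndB0q0 ndB5q3 pcB3 cut_mm_033_s Ext.none :=
  certNE0 (fam := true) (s1 := false) (s2 := false) (a := 0) (b := 3) (c := 3) (cn := .pnn) (n1 := ndB0q0) (n2 := ndB5q3) (pc := pcB3) (cut := cut_mm_033_s) (xt := Ext.none) (P1 := 0) (W1 := 536870912) (P2 := 0) (W2 := 1230186008) (P3 := 991146299) (W3 := 28908434) (N0 := 3) (En := eng) (mo := mog) (C1 := cd0q0) (C2 := cd5q3) (C3 := pd3)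
    rfl k0_mm_033_s

noncomputable def cut_mm_101_s : Cut := Cut.of [[⟨4, 0, 0, 1449551462⟩]]

noncomputable def f_mm_101_s : ℕ → ℕ → ℕ → ℕ → Bool := onCell 536870912 536870912 0 536870912 991146299 28908434
    (rowNE 3 eng mog cd0q1 cd5q0 pd1 0 true false false .npn 1 0 1 (qsf 536870912 536870912 0 536870912 1) ndB0q1 ndB5q0 pcB1 cut_mm_101_s Ext.none)

def k0_mm_101_s : ∃ t, chk3 f_mm_101_s t 1 1 1 = true :=
  ⟨(l 4), by decide +kernel⟩

theorem c_mm_101_s : CertNE 536870912 536870912 0 536870912 991146299 28908434 3 eng mog cd0q1 cd5q0 pd1 true false false .npn 1 0 1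
    ndB0q1 ndB5q0 pcB1 cut_mm_101_s Ext.none :=
  certNE0 (fam := true) (s1 := false) (s2 := false) (a := 1) (b := 0) (c := 1) (cn := .npn) (n1 := ndB0q1) (n2 := ndB5q0) (pc := pcB1) (cut := cut_mm_101_s) (xt := Ext.none) (P1 := 536870912) (W1 := 536870912) (P2 := 0) (W2 := 536870912) (P3 := 991146299) (W3 := 28908434) (N0 := 3) (En := eng) (mo := mog) (C1 := cd0q1) (C2 := cd5q0) (C3 := pd1)
    rfl k0_mm_101_s

noncomputable def cut_mm_102_s : Cut := Cut.of [[⟨4, 0, 0, 1449551462⟩]]

noncomputable def f_mm_102_s : ℕ → ℕ → ℕ → ℕ → Bool := onCell 536870912 536870912 0 536870912 991146299 28908434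
    (rowNE 3 eng mog cd0q1 cd5q0 pd2 0 true false false .npp 1 0 2 (qsf 536870912 536870912 0 536870912 2) ndB0q1 ndB5q0 pcB2 cut_mm_102_s Ext.none)

def k0_mm_102_s : ∃ t, chk3 f_mm_102_s t 1 1 1 = true :=
  ⟨(l 4), by decide +kernel⟩

theorem c_mm_102_s : CertNE 536870912 536870912 0 536870912 991146299 28908434 3 eng mog cd0q1 cd5q0 pd2 true false false .npp 1 0 2
    ndB0q1 ndB5q0 pcB2 cut_mm_102_s Ext.none :=
  certNE0 (fam := true) (s1 := false) (s2 := false) (a := 1) (b := 0) (c := 2) (cn := .npp) (n1 := ndB0q1) (n2 := ndB5q0) (pc := pcB2) (cut := cut_mm_102_s) (xt := Ext.none) (P1 := 536870912) (W1 := 536870912) (P2 := 0) (W2 := 536870912) (P3 := 991146299) (W3 := 28908434) (N0 := 3) (En := eng) (mo := mog) (C1 := cd0q1) (C2 := cd5q0) (C3 := pd2)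
    rfl k0_mm_102_s

noncomputable def cut_mm_112_s : Cut := Cut.of [[⟨4, 0, 0, 1449551462⟩]]

noncomputable def f_mm_112_s : ℕ → ℕ → ℕ → ℕ → Bool := onCell 536870912 536870912 536870912 536870912 991146299 28908434
    (rowNE 3 eng mog cd0q1 cd5q1 pd2 0 true false false .dn 1 1 2 (qsf 536870912 536870912 536870912 536870912 2) ndB0q1 ndB5q1 pcB2 cut_mm_112_s Ext.none)

def k0_mm_112_s : ∃ t, chk3 f_mm_112_s t 1 1 1 = true :=
  ⟨(l 4), by decide +kernel⟩

theorem c_mm_112_s : CertNE 536870912 536870912 536870912 536870912 991146299 28908434 3 eng mog cd0q1 cd5q1 pd2 true false false .dn 1 1 2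
    ndB0q1 ndB5q1 pcB2 cut_mm_112_s Ext.none :=
  certNE0 (fam := true) (s1 := false) (s2 := false) (a := 1) (b := 1) (c := 2) (cn := .dn) (n1 := ndB0q1) (n2 := ndB5q1) (pc := pcB2) (cut := cut_mm_112_s) (xt := Ext.none) (P1 := 536870912) (W1 := 536870912) (P2 := 536870912) (W2 := 536870912) (P3 := 991146299) (W3 := 28908434) (N0 := 3) (En := eng) (mo := mog) (C1 := cd0q1) (C2 := cd5q1) (C3 := pd2)
    rfl k0_mm_112_s

noncomputable def cut_mm_113_s : Cut := Cut.of [[⟨4, 0, 0, 1449551462⟩]]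

noncomputable def f_mm_113_s : ℕ → ℕ → ℕ → ℕ → Bool := onCell 536870912 536870912 536870912 536870912 991146299 28908434
    (rowNE 3 eng mog cd0q1 cd5q1 pd3 0 true false false .nn 1 1 3 (qsf 536870912 536870912 536870912 536870912 3) ndB0q1 ndB5q1 pcB3 cut_mm_113_s Ext.none)

def k0_mm_113_s : ∃ t, chk3 f_mm_113_s t 1 1 1 = true :=
  ⟨(l 4), by decide +kernel⟩

theorem c_mm_113_s : CertNE 536870912 536870912 536870912 536870912 991146299 28908434 3 eng mog cd0q1 cd5q1 pd3 true false false .nn 1 1 3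
    ndB0q1 ndB5q1 pcB3 cut_mm_113_s Ext.none :=
  certNE0 (fam := true) (s1 := false) (s2 := false) (a := 1) (b := 1) (c := 3) (cn := .nn) (n1 := ndB0q1) (n2 := ndB5q1) (pc := pcB3) (cut := cut_mm_113_s) (xt := Ext.none) (P1 := 536870912) (W1 := 536870912) (P2 := 536870912) (W2 := 536870912) (P3 := 991146299) (W3 := 28908434) (N0 := 3) (En := eng) (mo := mog) (C1 := cd0q1) (C2 := cd5q1) (C3 := pd3)
    rfl k0_mm_113_s

noncomputable def cut_mm_123_s : Cut := Cut.of [[⟨4, 0, 0, 1449551462⟩]]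

noncomputable def f_mm_123_s : ℕ → ℕ → ℕ → ℕ → Bool := onCell 536870912 536870912 1073741824 536870912 991146299 28908434
    (rowNE 3 eng mog cd0q1 cd5q2 pd3 0 true false false .npn 1 2 3 (qsf 536870912 536870912 1073741824 536870912 3) ndB0q1 ndB5q2 pcB3 cut_mm_123_s Ext.none)

def k0_mm_123_s : ∃ t, chk3 f_mm_123_s t 1 1 1 = true :=
  ⟨(l 4), by decide +kernel⟩

theorem c_mm_123_s : CertNE 536870912 536870912 1073741824 536870912 991146299 28908434 3 eng mog cd0q1 cd5q2 pd3 true false false .npn 1 2 3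
    ndB0q1 ndB5q2 pcB3 cut_mm_123_s Ext.none :=
  certNE0 (fam := true) (s1 := false) (s2 := false) (a := 1) (b := 2) (c := 3) (cn := .npn) (n1 := ndB0q1) (n2 := ndB5q2) (pc := pcB3) (cut := cut_mm_123_s) (xt := Ext.none) (P1 := 536870912) (W1 := 536870912) (P2 := 1073741824) (W2 := 536870912) (P3 := 991146299) (W3 := 28908434) (N0 := 3) (En := eng) (mo := mog) (C1 := cd0q1) (C2 := cd5q2) (C3 := pd3)
    rfl k0_mm_123_s

noncomputable def cut_mm_133_s : Cut := Cut.of [[⟨4, 0, 0, 1449551462⟩]]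

noncomputable def f_mm_133_s : ℕ → ℕ → ℕ → ℕ → Bool := onCell 536870912 536870912 0 1230186008 991146299 28908434
    (rowNE 3 eng mog cd0q1 cd5q3 pd3 0 true false false .dn 1 3 3 (qsf 536870912 536870912 0 1230186008 3) ndB0q1 ndB5q3 pcB3 cut_mm_133_s Ext.none)

def k0_mm_133_s : ∃ t, chk3 f_mm_133_s t 1 1 1 = true :=
  ⟨(l 4), by decide +kernel⟩

theorem c_mm_133_s : CertNE 536870912 536870912 0 1230186008 991146299 28908434 3 eng mog cd0q1 cd5q3 pd3 true false false .dn 1 3 3
    ndB0q1 ndB5q3 pcB3 cut_mm_133_s Ext.none :=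
  certNE0 (fam := true) (s1 := false) (s2 := false) (a := 1) (b := 3) (c := 3) (cn := .dn) (n1 := ndB0q1) (n2 := ndB5q3) (pc := pcB3) (cut := cut_mm_133_s) (xt := Ext.none) (P1 := 536870912) (W1 := 536870912) (P2 := 0) (W2 := 1230186008) (P3 := 991146299) (W3 := 28908434) (N0 := 3) (En := eng) (mo := mog) (C1 := cd0q1) (C2 := cd5q3) (C3 := pd3)
    rfl k0_mm_133_s

noncomputable def cut_mm_202_s : Cut := Cut.of [[⟨4, 0, 0, 1449551462⟩]]

noncomputable def f_mm_202_s : ℕ → ℕ → ℕ → ℕ → Bool := onCell 0 536870912 0 536870912 991146299 28908434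
    (rowNE 3 eng mog cd0q2 cd5q0 pd2 0 true false false .pp 2 0 2 (qsf 0 536870912 0 536870912 2) ndB0q2 ndB5q0 pcB2 cut_mm_202_s Ext.none)

def k0_mm_202_s : ∃ t, chk3 f_mm_202_s t 1 1 1 = true :=
  ⟨(l 4), by decide +kernel⟩

theorem c_mm_202_s : CertNE 0 536870912 0 536870912 991146299 28908434 3 eng mog cd0q2 cd5q0 pd2 true false false .pp 2 0 2
    ndB0q2 ndB5q0 pcB2 cut_mm_202_s Ext.none :=
  certNE0 (fam := true) (s1 := false) (s2 := false) (a := 2) (b := 0) (c := 2) (cn := .pp) (n1 := ndB0q2) (n2 := ndB5q0) (pc := pcB2) (cut := cut_mm_202_s) (xt := Ext.none) (P1 := 0) (W1 := 536870912) (P2 := 0) (W2 := 536870912) (P3 := 991146299) (W3 := 28908434) (N0 := 3) (En := eng) (mo := mog) (C1 := cd0q2) (C2 := cd5q0) (C3 := pd2)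
    rfl k0_mm_202_s

noncomputable def cut_mm_203_s : Cut := Cut.of [[⟨4, 0, 0, 1449551462⟩]]

noncomputable def f_mm_203_s : ℕ → ℕ → ℕ → ℕ → Bool := onCell 0 536870912 0 536870912 991146299 28908434
    (rowNE 3 eng mog cd0q2 cd5q0 pd3 0 true false false .up 2 0 3 (qsf 0 536870912 0 536870912 3) ndB0q2 ndB5q0 pcB3 cut_mm_203_s Ext.none)

def k0_mm_203_s : ∃ t, chk3 f_mm_203_s t 1 1 1 = true :=
  ⟨(l 4), by decide +kernel⟩

theorem c_mm_203_s : CertNE 0 536870912 0 536870912 991146299 28908434 3 eng mog cd0q2 cd5q0 pd3 true false false .up 2 0 3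
    ndB0q2 ndB5q0 pcB3 cut_mm_203_s Ext.none :=
  certNE0 (fam := true) (s1 := false) (s2 := false) (a := 2) (b := 0) (c := 3) (cn := .up) (n1 := ndB0q2) (n2 := ndB5q0) (pc := pcB3) (cut := cut_mm_203_s) (xt := Ext.none) (P1 := 0) (W1 := 536870912) (P2 := 0) (W2 := 536870912) (P3 := 991146299) (W3 := 28908434) (N0 := 3) (En := eng) (mo := mog) (C1 := cd0q2) (C2 := cd5q0) (C3 := pd3)
    rfl k0_mm_203_s

noncomputable def cut_mm_213_s : Cut := Cut.of [[⟨4, 0, 0, 1449551462⟩]]

noncomputable def f_mm_213_s : ℕ → ℕ → ℕ → ℕ → Bool := onCell 0 536870912 536870912 536870912 991146299 28908434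
    (rowNE 3 eng mog cd0q2 cd5q1 pd3 0 true false false .pnn 2 1 3 (qsf 0 536870912 536870912 536870912 3) ndB0q2 ndB5q1 pcB3 cut_mm_213_s Ext.none)

def k0_mm_213_s : ∃ t, chk3 f_mm_213_s t 1 1 1 = true :=
  ⟨(l 4), by decide +kernel⟩

theorem c_mm_213_s : CertNE 0 536870912 536870912 536870912 991146299 28908434 3 eng mog cd0q2 cd5q1 pd3 true false false .pnn 2 1 3
    ndB0q2 ndB5q1 pcB3 cut_mm_213_s Ext.none :=
  certNE0 (fam := true) (s1 := false) (s2 := false) (a := 2) (b := 1) (c := 3) (cn := .pnn) (n1 := ndB0q2) (n2 := ndB5q1) (pc := pcB3) (cut := cut_mm_213_s) (xt := Ext.none) (P1 := 0) (W1 := 536870912) (P2 := 536870912) (W2 := 536870912) (P3 := 991146299) (W3 := 28908434) (N0 := 3) (En := eng) (mo := mog) (C1 := cd0q2) (C2 := cd5q1) (C3 := pd3)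
    rfl k0_mm_213_s

end Pool.Agent.Strip051.G.I9231_9500.Tab.CS.BA05

namespace Pool.Agent.Strip051.G.I9231_9500.Tab.CS.BB00

open Pool.Agent.Strip051.PB Pool.Agent.Strip051.PB.T
open Pool.Agent.Strip051.G.I9231_9500.Tab

noncomputable def cut_pp_001_s : Cut := Cut.of [[⟨4, 0, 0, 1449551462⟩]]

noncomputable def f_pp_001_s : ℕ → ℕ → ℕ → ℕ → Bool := onCell 0 536870912 0 536870912 991146299 28908434
    (rowNE 3 eng mog cd0q0 cd0q1 pd0 1 false true true .up 0 0 1 (qsf 0 536870912 536870912 536870912 0) ndB0q0 ndB0q1 pcB0 cut_pp_001_s Ext.none)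

def k0_pp_001_s : ∃ t, chk3 f_pp_001_s t 1 1 1 = true :=
  ⟨(l 3), by decide +kernel⟩

theorem c_pp_001_s : CertNE 0 536870912 536870912 536870912 991146299 28908434 3 eng mog cd0q0 cd0q1 pd0 false true true .up 0 0 1
    ndB0q0 ndB0q1 pcB0 cut_pp_001_s Ext.none :=
  certNE1 (fam := false) (s1 := true) (s2 := true) (a := 0) (b := 0) (c := 1) (cn := .up) (n1 := ndB0q0) (n2 := ndB0q1) (pc := pcB0) (cut := cut_pp_001_s) (xt := Ext.none) (P1 := 0) (W1 := 536870912) (P2 := 536870912) (W2 := 536870912) (P3 := 991146299) (W3 := 28908434) (N0 := 3) (En := eng) (mo := mog) (C1 := cd0q0) (C2 := cd0q1) (C3 := pd0)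
    rfl (fun _ => rfl) k0_pp_001_s

noncomputable def cut_pp_001_t : Cut := Cut.of [[⟨3, 0, 0, 2845415833⟩]]

noncomputable def f_pp_001_t : ℕ → ℕ → ℕ → ℕ → Bool := onCell 0 536870912 536870912 536870912 991146299 28908434
    (rowNE 3 eng mog cd0q0 cd0q1 pd0 0 false true true .up 0 0 1 (qsf 0 536870912 536870912 536870912 0) ndB0q0 ndB0q1 pcB0 cut_pp_001_t Ext.none)

def k0_pp_001_t : ∃ t, chk3 f_pp_001_t t 1 1 1 = true :=
  ⟨(l 6), by decide +kernel⟩

theorem c_pp_001_t : CertNE 0 536870912 536870912 536870912 991146299 28908434 3 eng mog cd0q0 cd0q1 pd0 false true true .up 0 0 1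
    ndB0q0 ndB0q1 pcB0 cut_pp_001_t Ext.none :=
  certNE0 (fam := false) (s1 := true) (s2 := true) (a := 0) (b := 0) (c := 1) (cn := .up) (n1 := ndB0q0) (n2 := ndB0q1) (pc := pcB0) (cut := cut_pp_001_t) (xt := Ext.none) (P1 := 0) (W1 := 536870912) (P2 := 536870912) (W2 := 536870912) (P3 := 991146299) (W3 := 28908434) (N0 := 3) (En := eng) (mo := mog) (C1 := cd0q0) (C2 := cd0q1) (C3 := pd0)
    rfl k0_pp_001_t

noncomputable def cut_pp_011_s : Cut := Cut.of [[⟨4, 0, 0, 1449551462⟩], [⟨0, 0, 0, 53687091⟩, ⟨1, 1, 0, 53687091⟩, ⟨2, 1, 0, 53687091⟩]]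

noncomputable def f_pp_011_s : ℕ → ℕ → ℕ → ℕ → Bool := onCell 536870912 536870912 536870912 536870912 991146299 28908434
    (rowNE 3 eng mog cd0q0 cd0q1 pd1 2 false true true .pnn 0 1 1 (qsf 0 536870912 536870912 536870912 1) ndB0q0 ndB0q1 pcB1 cut_pp_011_s Ext.none)

def k0_pp_011_s : ∃ t, chk3 f_pp_011_s t 1 1 1 = true :=
  ⟨(a (l 3) (b (l 3) (a (l 3) (b (l 3) (a (l 3) (b (l 3) (b (l 3) (a (l 3) (l 14))))))))), by decide +kernel⟩

theorem c_pp_011_s : CertNE 0 536870912 536870912 536870912 991146299 28908434 3 eng mog cd0q0 cd0q1 pd1 false true true .pnn 0 1 1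
    ndB0q0 ndB0q1 pcB1 cut_pp_011_s Ext.none :=
  certNE2 (fam := false) (s1 := true) (s2 := true) (a := 0) (b := 1) (c := 1) (cn := .pnn) (n1 := ndB0q0) (n2 := ndB0q1) (pc := pcB1) (cut := cut_pp_011_s) (xt := Ext.none) (P1 := 0) (W1 := 536870912) (P2 := 536870912) (W2 := 536870912) (P3 := 991146299) (W3 := 28908434) (N0 := 3) (En := eng) (mo := mog) (C1 := cd0q0) (C2 := cd0q1) (C3 := pd1)
    rfl (fun _ => rfl) k0_pp_011_s

noncomputable def cut_pp_011_t : Cut := Cut.of [[⟨3, 0, 0, 2845415833⟩], [⟨0, 0, 0, 53687091⟩, ⟨1, 1, 0, 53687091⟩, ⟨2, 1, 0, 53687091⟩]]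

noncomputable def f_pp_011_t : ℕ → ℕ → ℕ → ℕ → Bool := onCell 0 536870912 536870912 536870912 991146299 28908434
    (rowNE 3 eng mog cd0q0 cd0q1 pd1 0 false true true .pnn 0 1 1 (qsf 0 536870912 536870912 536870912 1) ndB0q0 ndB0q1 pcB1 cut_pp_011_t Ext.none)

def k0_pp_011_t : ∃ t, chk3 f_pp_011_t t 1 1 1 = true :=
  ⟨(l 6), by decide +kernel⟩

theorem c_pp_011_t : CertNE 0 536870912 536870912 536870912 991146299 28908434 3 eng mog cd0q0 cd0q1 pd1 false true true .pnn 0 1 1
    ndB0q0 ndB0q1 pcB1 cut_pp_011_t Ext.none :=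
  certNE0 (fam := false) (s1 := true) (s2 := true) (a := 0) (b := 1) (c := 1) (cn := .pnn) (n1 := ndB0q0) (n2 := ndB0q1) (pc := pcB1) (cut := cut_pp_011_t) (xt := Ext.none) (P1 := 0) (W1 := 536870912) (P2 := 536870912) (W2 := 536870912) (P3 := 991146299) (W3 := 28908434) (N0 := 3) (En := eng) (mo := mog) (C1 := cd0q0) (C2 := cd0q1) (C3 := pd1)
    rfl k0_pp_011_t

noncomputable def cut_pp_012_s : Cut := Cut.of [[⟨4, 0, 0, 1449551462⟩], [⟨0, 0, 0, 16777216⟩, ⟨1, 1, 0, 16777216⟩, ⟨2, 1, 0, 16777216⟩]]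

noncomputable def f_pp_012_s : ℕ → ℕ → ℕ → ℕ → Bool := onCell 536870912 536870912 0 536870912 991146299 28908434
    (rowNE 3 eng mog cd0q0 cd0q2 pd1 2 false true true .pnp 0 1 2 (qsf 0 536870912 0 536870912 1) ndB0q0 ndB0q2 pcB1 cut_pp_012_s Ext.none)

def k0_pp_012_s : ∃ t, chk3 f_pp_012_s t 2 1 1 = true :=
  ⟨(b (b (a (l 2) (a (a (a (l 2) (b (b (l 16660608) (l 38755204055)) (b (b (l 80698314855) (l 133311685783)) (l 3)))) (b (b (a (l 16664112) (l 16650496)) (a (l 16707568) (l 16653136))) (a (b (b (l 16748728) (l 78013961095)) (l 136532866551)) (b (c (l 16736488) (l 16741128)) (b (l 75866478919) (l 130627317351)))))) (b (a (c (a (l 16632136) (l 16643912)) (a (l 16668392) (l 16660936))) (a (l 16563512) (c (l 16636552) (l 16655632)))) (a (a (b (l 16720784) (b (l 16750576) (l 73182126071))) (c (l 16736616) (l 16727328))) (a (b (l 16674720) (l 16727560)) (c (l 16655752) (l 16706952))))))) (a (l 3) (a (l 3) (b (a (b (a (b (l 129016698551) (l 3)) (b (l 71034643863) (l 127406080343)))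 (l 3)) (b (a (a (l 16727504) (l 16756160)) (c (l 16743800) (l 16746816))) (b (a (l 98951916631) (l 67276553303)) (a (l 3) (a (l 16760920) (l 16773552)))))) (l 3))))) (l 3)), by decide +kernel⟩

def k1_pp_012_s : ∃ t, chk3 f_pp_012_s t 6 2 1 = true :=
  ⟨(b (a (a (b (b (a (l 16617560) (l 16608912)) (l 16619408)) (a (b (l 16684576) (l 16708920)) (b (l 16684080) (l 16704808)))) (a (b (b (l 16647528) (l 16670912)) (l 16653336)) (b (b (l 16626368) (l 16631968)) (l 16657584)))) (a (b (a (b (l 16552000) (l 16580520)) (l 16485200)) (a (b (l 16651160) (l 16670248)) (b (l 16561664) (l 16629488)))) (b (a (l 16464704) (l 6)) (a (b (l 16513032) (l 16584280)) (b (l 16508328) (l 16514680)))))) (a (b (a (a (b (l 16712944) (b (l 16753480) (l 65665944215))) (b (l 16726120) (c (l 16747576) (l 16749600)))) (a (b (l 16721824) (l 16740568)) (b (l 16720736) (l 16736152)))) (a (b (b (a (c (l 91435727287) (l 16727000)) (l 47412336407)) (a (l 3) (a (l 16722504) (l 16775192)))) (l 3)) (b (a (b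 (l 16755552) (l 16745096)) (b (l 16748368) (l 16756968))) (b (a (c (l 16726984) (l 16714184)) (l 16765992)) (a (a (l 3) (l 127406048695)) (c (l 75866471591) (l 16722752))))))) (a (b (a (b (l 16690088) (l 16711144)) (b (l 16633192) (l 16659104))) (b (a (l 16712192) (l 16706960)) (a (a (l 16760312) (l 16751104)) (c (l 16736168) (l 16732896))))) (b (a (b (l 16613568) (l 16623056)) (b (l 16568984) (l 16603632))) (a (b (l 16633544) (c (l 16688400) (l 16684960))) (b (l 16618344) (a (l 16684160) (l 16667048)))))))), by decide +kernel⟩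

def k2_pp_012_s : ∃ t, chk3 f_pp_012_s t 6 3 1 = true :=
  ⟨(b (a (b (a (l 3) (b (a (l 3) (b (c (l 118816064999) (l 120426669351)) (l 3))) (l 3))) (l 3)) (b (a (b (a (b (c (l 69960894039) (l 67276536247)) (a (l 3) (l 108615567415))) (c (b (l 16756248) (l 65665932727)) (b (l 16754560) (l 62444705255)))) (a (l 3) (b (a (l 176798199799) (c (l 16718336) (l 16707280))) (l 3)))) (b (a (b (l 16731968) (a (l 16754168) (l 16721224))) (a (l 16678088) (l 16683992))) (a (b (a (l 16748856) (l 16759144)) (a (c (l 99488720487) (l 100025584631)) (c (l 91972590055) (l 92509457351)))) (b (a (l 16725952) (l 16733400)) (a (l 16743936) (l 16752440)))))) (a (l 3) (b (a (l 3) (b (a (b (l 88214505031) (l 3)) (c (l 82845801527) (l 80698316295))) (a (l 3) (b (l 191830617735) (l 3))))) (l 3))))) (l 3)), by decide +kernel⟩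

def k3_pp_012_s : ∃ t, chk3 f_pp_012_s t 7 2 1 = true :=
  ⟨(a (b (b (l 6) (a (a (b (l 16471232) (a (l 16500568) (l 16479160))) (b (l 6) (c (l 16453080) (l 16451632)))) (a (b (l 6) (l 16405568)) (l 6)))) (a (b (a (b (l 16521176) (l 16559600)) (b (b (l 16422192) (l 16481160)) (l 16512736))) (a (b (l 16599112) (l 16597472)) (b (l 16534656) (l 16557424)))) (b (a (b (c (b (l 16428720) (l 16433992)) (b (l 16431696) (l 16436704))) (l 16422016)) (b (a (l 16410224) (l 16401464)) (b (a (l 16416976) (b (l 16398048) (l 16399376))) (a (l 16438320) (l 16413792))))) (b (a (l 16488776) (c (l 16460064) (l 16464888))) (a (l 16514512) (c (l 16509736) (l 16513360))))))) (b (l 6) (a (b (a (b (c (l 16366888) (l 16399752)) (b (c (l 16379832) (l 16389992)) (a (b (l 16387688) (l 16395520)) (c (l 16351616) (l 16361424))))) (b (l 6) (c (l 16346824) (l 16381920)))) (a (b (c (l 16348600) (l 16356184)) (c (l 16462688) (l 16468536))) (b (b (a (c (l 16345888) (l 16377280)) (c (l 16333888) (l 16346256)))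 (a (l 16392304) (c (l 16344840) (l 16376648)))) (c (l 16395040) (l 16403392))))) (b (a (b (l 6) (c (l 16369976) (l 16389216))) (l 6)) (b (a (b (c (l 16332616) (l 16369576)) (a (c (a (l 16330808) (l 16324880)) (a (l 16363888) (l 16337936))) (c (l 16322704) (l 16337456)))) (c (b (l 16363920) (l 16329896)) (a (l 16372536) (l 16383112)))) (a (a (c (l 16382008) (l 16392464)) (b (b (c (l 16322768) (l 16356936)) (l 16359624)) (l 16379384))) (b (a (b (c (l 16338760) (l 16354152)) (c (l 16317536) (l 16331832))) (c (l 16341528) (l 16358904))) (a (c (l 16354032) (l 16367104)) (b (c (a (l 16335680) (l 16333664)) (l 16330008)) (c (l 16342784) (l 16357384))))))))))), by decide +kernel⟩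

def k4_pp_012_s : ∃ t, chk3 f_pp_012_s t 14 6 1 = true :=
  ⟨(b (a (b (a (c (l 16638952) (l 16637608)) (b (l 16632392) (l 16633648))) (a (a (b (l 16718648) (l 16717704)) (b (l 16702736) (l 16702736))) (b (a (l 16685768) (l 16667824)) (c (l 16678480) (l 16677952))))) (a (b (b (l 16591744) (l 16615496)) (b (a (l 16649008) (l 16629432)) (a (l 16672488) (l 16653624)))) (b (b (l 16548576) (l 16573584)) (b (l 16556720) (a (l 16633944) (l 16613512)))))) (a (b (a (b (a (b (l 16732664) (l 16763616)) (l 16723680)) (a (b (a (l 16755184) (l 16770352)) (c (l 96267522519) (l 92509421687))) (c (l 16744528) (l 16744304)))) (b (a (l 16708488) (l 16692224)) (a (c (l 16730432) (l 16730088)) (c (l 16715016) (l 16714672))))) (a (a (l 3) (b (b (a (l 209010485127) (l 99488809703)) (l 3)) (l 3))) (b (a (b (l 16746432) (a (l 105394357431) (l 16753440))) (b (l 16731696) (l 16742920))) (a (b (l 258402668695) (l 3)) (a (b (a (l 171966406455) (l 16758032)) (l 3)) (b (l 16771328) (l 225116649591)))))))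 (b (a (a (b (l 16695944) (b (l 16713464) (l 16725144))) (b (l 16677808) (b (l 16695872) (l 16707928)))) (a (b (l 16658776) (c (l 16683488) (l 16683696))) (b (l 16638920) (c (l 16664016) (l 16664528))))) (a (b (a (b (l 16715832) (l 16727456)) (c (l 16705088) (l 16704992))) (a (b (l 16739056) (a (c (l 16732968) (l 60297237575)) (l 16746784))) (b (l 16722952) (c (l 16734912) (l 16734848))))) (a (b (c (l 16687312) (l 16687368)) (b (l 16705744) (c (l 16739016) (l 16718024)))) (b (b (l 16683224) (l 16695880)) (b (l 16687576) (a (l 16725712) (l 16716624))))))))), by decide +kernel⟩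

def k5_pp_012_s : ∃ t, chk3 f_pp_012_s t 15 6 1 = true :=
  ⟨(a (b (b (a (b (l 16503936) (l 16529856)) (a (l 16483736) (l 16461696))) (a (b (l 16513928) (a (l 16592568) (l 16571296))) (b (a (l 16523368) (l 16501600)) (a (l 16550032) (l 16528568))))) (a (b (b (a (l 16618424) (l 16597632)) (a (c (l 16643920) (l 16644800)) (c (l 16623408) (l 16624760)))) (b (a (b (l 16663712) (l 16676696)) (c (l 16650120) (l 16651080))) (b (a (l 16668720) (l 16649480)) (a (a (l 16707376) (l 16698008)) (a (l 16688528) (l 16678976)))))) (b (a (b (l 16576800) (c (l 16602800) (l 16604744))) (b (l 16555704) (c (l 16581704) (l 16584328)))) (b (a (c (l 16630040) (l 16631528)) (c (l 16609312) (l 16611400))) (b (a (l 16630024) (l 16630792)) (a (a (l 16669392) (l 16659656)) (a (l 16649608) (l 16639344)))))))) (b (c (a (b (l 16362632) (b (l 16466568) (l 16494336))) (b (a (l 16395240) (l 16376768)) (b (l 16427672) (l 16455896)))) (a (b (l 16392272) (b (l 16473384) (l 16500008))) (b (a (l 16406168)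 (l 16389432)) (l 16409048)))) (a (b (a (b (l 16534600) (l 16541056)) (b (l 16514632) (l 16542200))) (c (a (b (l 16588192) (l 16615952)) (b (l 16568056) (l 16595968))) (a (b (l 16590968) (l 16618240)) (b (l 16571712) (l 16599056))))) (b (a (b (l 16496296) (l 16524032)) (b (l 16479472) (l 16507432))) (c (a (b (l 16549504) (l 16577448)) (b (l 16532336) (l 16560984))) (a (b (l 16554280) (l 16581576)) (b (l 16538440) (l 16566424)))))))), by decide +kernel⟩

def k6_pp_012_s : ∃ t, chk3 f_pp_012_s t 14 7 1 = true :=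
  ⟨(b (a (l 3) (b (a (b (a (b (a (l 3) (b (l 56539154679) (l 207936750871))) (l 3)) (b (a (b (l 16768728) (l 16753456)) (l 16742760)) (a (b (l 193978120359) (l 3)) (b (l 16751648) (c (l 125795480263) (l 129016704055)))))) (l 3)) (b (a (b (c (l 16730328) (l 16730304)) (a (l 16746680) (l 16738400))) (b (c (l 16712848) (l 16712912)) (a (l 16729880) (l 16721160)))) (a (b (a (b (c (l 50096694343) (l 47412338167)) (l 291151770807)) (b (l 16747608) (a (l 16744984) (l 16772640)))) (a (l 3) (b (a (l 3) (l 197199349831)) (l 3)))) (b (a (l 16752848) (l 16733816)) (a (b (l 16757456) (a (l 273435043495) (l 44728000535))) (c (l 16746320) (l 16746352))))))) (a (l 3) (b (a (l 3) (b (a (l 3) (a (b (l 200957442743) (l 3)) (b (l 16774440) (l 280951237127)))) (l 3))) (l 3))))) (l 3)), by decide +kernel⟩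

def k7_pp_012_s : ∃ t, chk3 f_pp_012_s t 60 14 1 = true :=
  ⟨(b (b (a (b (a (l 16720312) (l 16711096)) (c (l 16707632) (l 16707856))) (b (a (l 16701760) (l 16692336)) (a (l 16714984) (l 16705688)))) (a (a (b (l 16725080) (a (l 16739928) (l 16735592))) (b (l 16716176) (l 16729008))) (b (c (l 16702336) (l 16702768)) (a (l 16720088) (l 16711040))))) (b (a (b (a (b (l 16747176) (c (l 90362061207) (l 44727993591))) (c (l 16741664) (l 16741760))) (a (a (l 3) (c (l 273435043895) (l 276119410103))) (b (c (l 16751096) (l 16751128)) (a (l 286856819207) (b (l 16774672) (l 248202125703)))))) (b (a (c (l 16732832) (l 16733024)) (c (l 16744816) (l 16745120))) (a (c (l 16745608) (l 16745696)) (c (l 16736736) (l 16736928))))) (a (l 3) (b (a (b (a (b (l 16776528) (l 315847864823)) (l 16752912)) (a (l 3) (l 291151789895))) (a (b (l 16748584) (b (l 16774304) (l 241759673735))) (l 16757864))) (a (l 3) (b (a (l 351281322727) (b (l 16755192) (l 299204859175))) (l 3))))))), by decide +kernel⟩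

def k8_pp_012_s : ∃ t, chk3 f_pp_012_s t 61 14 1 = true :=
  ⟨(b (b (a (a (b (l 16682872) (l 16696336)) (b (l 16673240) (l 16686808))) (c (b (l 16657472) (l 16671192)) (b (l 16658920) (l 16672512)))) (a (a (b (l 16709688) (l 16701912)) (b (l 16700248) (l 16692560))) (a (b (l 16690416) (l 16682784)) (b (l 16680288) (l 16672696))))) (a (a (a (b (b (l 16738184) (l 16740608)) (b (l 16753432) (b (l 16752472) (b (l 270213833815) (l 3))))) (b (b (l 16733632) (l 16736112)) (b (c (l 16738376) (l 16738600)) (b (l 16748072) (b (l 16773824) (a (l 279340641975) (l 16775864))))))) (b (b (l 16710944) (c (l 16739456) (l 16718968))) (b (c (c (l 16731408) (l 16731552)) (c (l 16731712) (l 16731888))) (c (b (l 16741144) (l 16747632)) (b (l 16741344) (l 16747744)))))) (b (b (a (c (l 16716576) (l 16717360)) (c (l 16706432) (l 16707392))) (a (c (l 16729720) (l 16730344)) (b (l 16716688) (l 16712752)))) (b (a (b (l 16729232) (a (l 16748648) (l 16743776))) (c (l 16717168) (l 16717776))) (a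 (c (b (l 16731648) (l 16738256)) (b (l 16731968) (l 16738496))) (c (b (l 16742904) (l 16728752)) (b (l 16743376) (l 16729144)))))))), by decide +kernel⟩

def k9_pp_012_s : ∃ t, chk3 f_pp_012_s t 62 14 1 = true :=
  ⟨(b (b (a (c (b (l 16636656) (l 16650456)) (b (l 16638656) (l 16652280))) (b (c (l 16616768) (l 16619504)) (a (l 16636552) (l 16627240)))) (a (a (b (l 16670024) (l 16667688)) (b (l 16659888) (c (l 16672504) (l 16674096)))) (b (a (l 16650136) (l 16641032)) (a (c (l 16662792) (l 16664712)) (l 16639080))))) (c (a (b (b (a (l 16696088) (l 16686024)) (a (l 16709480) (l 16699600))) (b (a (l 16707232) (l 16713424)) (a (b (l 16733256) (l 16740192)) (b (l 16723888) (l 16730920))))) (b (b (a (l 16676496) (l 16667720)) (a (l 16690408) (l 16681864))) (b (a (l 16704456) (l 16696088)) (a (b (l 16715048) (l 16722152)) (b (l 16706776) (l 16713912)))))) (a (b (b (a (l 16697240) (l 16687416)) (a (l 16710440) (l 16700808))) (b (a (l 16713264) (l 16693488)) (a (c (l 16726712)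 (l 16727040)) (c (l 16707088) (l 16707552))))) (b (b (a (l 16678224) (l 16669864)) (a (l 16691952) (l 16683832))) (b (a (l 16705832) (l 16697872)) (a (b (l 16716296) (l 16723320)) (l 16698864))))))), by decide +kernel⟩

def k10_pp_012_s : ∃ t, chk3 f_pp_012_s t 63 14 1 = true :=
  ⟨(b (a (b (b (c (l 16598552) (l 16602296)) (a (l 16618560) (l 16610488))) (a (b (l 16632544) (l 16646672)) (b (l 16624824) (l 16639184)))) (b (a (b (l 16588640) (l 16603152)) (b (l 16581680) (l 16596440))) (a (b (l 16617736) (l 16632296)) (b (l 16611224) (l 16625936))))) (b (a (a (b (c (l 16659576) (l 16662224)) (c (l 16673896) (l 16676368))) (b (l 16632592) (c (l 16666456) (l 16669504)))) (a (b (l 16646816) (c (l 16659496) (l 16663192))) (b (l 16640584) (l 16634016)))) (c (a (a (b (l 16688248) (l 16702600)) (b (l 16680904) (l 16695152))) (a (b (l 16673864) (l 16687936)) (b (l 16667048) (l 16680832)))) (a (a (b (l 16690528) (l 16704704)) (b (l 16683760) (l 16697792))) (a (b (l 16677344) (l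 16691176)) (b (l 16671208) (l 16684704))))))), by decide +kernel⟩

def k11_pp_012_s : ∃ t, chk3 f_pp_012_s t 30 15 1 = true :=
  ⟨(b (a (l 3) (b (a (b (a (b (a (l 3) (l 357186910663)) (l 3)) (b (a (b (a (l 16776768) (l 16774632)) (l 302426089543)) (l 16762360)) (a (l 3) (b (a (l 255181456311) (l 16776496)) (l 379198626263))))) (l 3)) (b (b (a (c (l 16755424) (l 16755584)) (c (l 16746072) (l 16746392))) (a (a (b (l 16752216) (a (l 262160771271) (l 16775272))) (l 16759784)) (a (l 16755208) (l 16750608)))) (a (b (a (b (l 327122153047) (l 3)) (b (l 88751458215) (a (l 372756182599) (l 247665255927)))) (l 3)) (b (a (l 16764328) (l 16757160)) (a (b (a (l 293299285511) (l 16775848)) (a (l 3) (l 295446773799))) (a (b (l 16752648) (l 127406170807)) (l 16762472))))))) (a (l 3) (b (a (l 3) (b (a (l 3) (b (a (l 3) (l 206863066535)) (l 3))) (l 3))) (l 3))))) (l 3)), by decide +kernel⟩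

def k12_pp_012_s : ∃ t, chk3 f_pp_012_s t 62 60 1 = true :=
  ⟨(a (b (b (a (c (l 16736656) (l 16737168)) (c (l 16737944) (l 16738704))) (a (a (l 16746008) (l 16741416)) (c (l 16744824) (l 16735000)))) (a (b (a (c (l 16762952) (l 16763216)) (c (l 16758336) (l 16758704))) (a (c (l 16748512) (l 16748656)) (c (l 16743912) (l 16744160)))) (c (b (l 16741032) (b (l 16745960) (l 16749216))) (b (l 16741584) (b (l 16746416) (l 16749608)))))) (b (a (c (b (l 16729232) (l 16736144)) (a (l 16725264) (l 16721216))) (c (b (l 16721040) (l 16727936)) (b (l 16722520) (l 16729304)))) (a (c (b (l 16732376) (l 16738904)) (b (l 16733232) (l 16740936))) (b (c (l 16734560) (l 16735792)) (c (l 16740992) (l 16731584)))))), by decide +kernel⟩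

def k13_pp_012_s : ∃ t, chk3 f_pp_012_s t 62 61 1 = true :=
  ⟨(a (b (a (b (a (b (l 78014038343) (a (l 265381992231) (l 117205622407))) (c (l 16760872) (l 16760992))) (a (b (l 370608701399) (l 3)) (b (a (c (l 160155302807) (l 166597732967)) (l 16764576)) (a (l 3) (b (l 187535719399) (l 386714828743)))))) (a (b (c (l 16756328) (l 16756560)) (b (l 16761200) (a (l 106468203335) (l 16763240)))) (b (c (l 16751856) (l 16752208)) (c (l 16758224) (l 16758424))))) (a (l 3) (b (a (b (a (l 311016030135) (b (l 16776088) (l 283098739063))) (l 3)) (b (l 16768248) (a (b (l 135996107623) (l 312089771959)) (l 93583300231)))) (a (l 3) (b (a (l 3) (b (l 299204866871) (l 3))) (l 3)))))) (b (a (b (a (b (l 16756616) (l 16749272)) (l 16746080)) (a (c (l 16753752) (l 16754088)) (c (l 16749336) (l 16749808)))) (b (a (l 16739248) (l 16735088)) (a (c (l 16755448) (l 16756072)) (c (l 16751112) (l 16751912))))) (b (a (a (c (l 16765248) (l 16764104)) (c (l 16759432) (l 16759728))) (a (c (l 16756280)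 (l 16756720)) (a (l 16747992) (l 16745832)))) (a (a (b (a (a (a (l 166060877735) (l 122574334583)) (l 16775832)) (l 16763656)) (a (l 378124894007) (b (l 115595011879) (c (l 264308259847) (l 261623906263))))) (b (c (l 16760192) (l 16760360)) (a (l 71034715383) (l 16762264)))) (a (c (a (l 16758360) (l 16756096)) (a (l 16758584) (l 16756384))) (c (c (l 16757864) (l 16758056)) (c (l 16753016) (l 16753232)))))))), by decide +kernel⟩

def k14_pp_012_s : ∃ t, chk3 f_pp_012_s t 63 30 1 = true :=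
  ⟨(a (b (b (a (c (b (l 16713200) (l 16720024)) (b (l 16715144) (l 16721840))) (c (b (l 16705616) (l 16712264)) (l 16700848))) (a (c (b (l 16726512) (l 16732752)) (b (l 16728176) (l 16734240))) (c (b (l 16718600) (l 16724680)) (b (l 16720736) (l 16726616))))) (b (a (b (c (l 16728312) (l 16729600)) (c (a (l 16746832) (l 16742584)) (a (l 16747808) (l 16743752)))) (a (b (l 16733400) (l 16733808)) (b (l 16729424) (l 16724512)))) (a (b (a (c (l 16752736) (l 16753496)) (c (l 16748400) (l 16749352))) (a (c (l 16753504) (l 16754064)) (b (l 16747968) (l 16750912)))) (b (a (c (l 16744112) (l 16745256)) (c (l 16739864) (l 16741216))) (a (c (l 16749952) (l 16750872)) (c (l 16745624) (l 16746728))))))) (b (a (b (b (l 16678664) (l 16695568)) (c (b (l 16710832) (l 16716760)) (b (l 16713496) (l 16719200)))) (b (a (l 16676536) (l 16673024)) (a (c (l 16708056) (l 16711024)) (c (l 16704232) (l 16707488))))) (b (a (c (a (l 16716800) (l 16723240)) (a (l 16718752) (l 16725432))) (a (b (l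 16717776) (l 16723080)) (b (l 16713976) (l 16719192)))) (a (a (b (c (l 16735656) (l 16737224)) (c (l 16741328) (l 16742640))) (b (l 16724496) (c (l 16737072) (l 16738608)))) (a (b (l 16717856) (c (l 16732848) (l 16734616))) (b (l 16713880) (c (l 16728664) (l 16730672)))))))), by decide +kernel⟩

def k15_pp_012_s : ∃ t, chk3 f_pp_012_s t 62 31 1 = true :=
  ⟨(b (a (l 3) (b (a (b (a (l 3) (b (b (a (c (l 174113946743) (l 185388225399)) (l 16764624)) (a (l 390472925015) (a (l 258939548663) (l 16776120)))) (a (l 3) (c (l 311016030023) (l 321216572087))))) (l 3)) (b (b (a (c (l 16767184) (l 16767312)) (c (l 16762616) (l 16762872))) (a (a (b (l 95193916199) (c (l 197736261575) (l 283098739191))) (l 16769248)) (c (l 16765752) (l 16765928)))) (a (b (a (l 418390212279) (a (b (l 206863067079) (l 3)) (b (l 16776280) (l 268603222855)))) (l 3)) (b (a (c (l 94120171431) (b (l 16764120) (l 100025755239))) (l 16769136)) (a (a (l 389936054023) (b (a (l 285246224471) (l 16776856)) (l 3)))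 (b (l 16770184) (a (a (l 340543929303) (l 181093268887)) (l 16773808)))))))) (a (l 3) (b (a (l 3) (a (l 3) (b (c (l 347523251911) (l 357723796615)) (l 3)))) (l 3))))) (l 3)), by decide +kernel⟩

def k16_pp_012_s : ∃ t, chk3 f_pp_012_s t 126 124 1 = true :=
  ⟨(a (b (a (c (a (l 16760768) (l 16758512)) (a (l 16761096) (l 16758912))) (c (c (l 16755008) (l 16755256)) (c (l 16755520) (l 16750552)))) (a (a (b (l 16766864) (c (l 16768632) (l 16768728))) (c (b (l 16768408) (l 16766320)) (b (l 16768672) (l 16766480)))) (c (b (l 16759744) (c (l 16762800) (l 16762928))) (b (l 16760120) (c (l 16763064) (l 16763208)))))) (b (a (c (b (l 16754408) (l 16757424)) (b (l 16755160) (l 16758064))) (c (b (l 16750016) (l 16752984)) (l 16747136))) (b (a (c (l 16760464) (l 16761000)) (c (l 16755976) (l 16756688))) (a (c (l 16758296) (l 16758720)) (c (l 16759008) (l 16759608)))))), by decide +kernel⟩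

def k17_pp_012_s : ∃ t, chk3 f_pp_012_s t 126 125 1 = true :=
  ⟨(b (b (a (a (a (a (b (a (l 148344137975) (l 16776568)) (l 400673472327)) (b (l 16770464) (c (l 259476419751) (l 176798298967)))) (c (l 16772120) (l 16771528))) (c (a (l 16767168) (l 16764856)) (a (l 16767312) (l 16765064)))) (a (c (c (l 16761320) (l 16761472)) (c (l 16761640) (l 16761808))) (a (l 16760808) (l 16755952)))) (a (a (a (l 3) (b (c (a (l 242296548167) (l 16776552)) (a (l 250886482759) (l 16776568))) (c (l 346986381079) (l 357723799319)))) (a (b (l 16772208) (a (b (l 16776592) (l 283098740823)) (l 16770592))) (c (l 16768016) (l 16768136)))) (a (c (a (l 16765688) (l 16763376)) (a (l 16765880) (l 16763640))) (c (c (l 16759824) (l 16760008)) (c (l 16760200) (l 16760408)))))) (a (a (l 3) (b (a (a (l 430201372311) (b (b (a (l 204715589143) (l 16776728)) (l 309942288295)) (l 3))) (a (b (l 93046434743) (c (l 268066354535) (b (l 295983643015) (l 3)))) (b (l 16769856) (a (b (l 16776576) (l 227264167431))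 (l 16773768))))) (a (l 3) (b (c (l 366850604775) (l 377588023015)) (l 3))))) (a (b (a (b (c (l 16768072) (l 16768184)) (c (l 16769664) (l 16769736))) (c (c (l 16766488) (l 16766568)) (c (l 16766648) (l 16766736)))) (a (a (b (b (l 106468209255) (a (l 392083537815) (l 259476420999))) (l 3)) (b (l 16773320) (b (a (l 248739003895) (l 16776840)) (l 342691411271)))) (a (b (l 16772160) (c (l 101099498599) (l 96804531687))) (b (l 16768384) (l 16772576))))) (b (c (a (l 16766168) (l 16767128)) (a (l 16767064) (l 16762208))) (a (c (b (l 16766568) (l 16770784)) (b (l 16766736) (l 16770896))) (c (c (l 16767600) (l 16767704)) (c (l 16767808) (l 16767928)))))))), by decide +kernel⟩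

def k18_pp_012_s : ∃ t, chk3 f_pp_012_s t 127 62 1 = true :=
  ⟨(a (b (b (a (c (l 16747120) (l 16748192)) (c (l 16742776) (l 16744056))) (a (c (b (l 16751536) (l 16754520)) (c (l 16748408) (l 16748848))) (c (b (l 16747128) (l 16750080)) (b (l 16748232) (l 16751056))))) (b (a (c (b (l 16752296) (a (l 16761728) (l 16759456))) (b (l 16752968) (a (l 16762240) (l 16760056)))) (c (b (l 16753048) (a (l 16757184) (l 16754928))) (a (l 16751192) (l 16749040)))) (a (a (c (b (l 16764816) (l 16765320)) (b (l 16765224) (l 16765616))) (c (b (l 16762520) (l 16763000)) (b (l 16763016) (l 16760760)))) (c (b (a (l 16760232) (l 16757960)) (a (l 16763312) (l 16761016))) (b (a (l 16760816) (l 16758632)) (a (l 16763784) (l 16761576))))))) (b (a (b (c (l 16738472) (l 16739976)) (c (b (l 16742768) (l 16745664)) (b (l 16744072) (l 16746848)))) (b (c (l 16734200) (l 16735944)) (a (c (l 16740952) (l 16742360)) (c (l 16738784) (l 16740312))))) (a (a (b (c (l 16751200) (l 16752144)) (b (a (l 16756616)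 (l 16755512)) (l 14))) (b (c (l 16748968) (l 16750024)) (l 14))) (b (a (c (l 16746752) (l 16747912)) (c (l 16744544) (l 16745808))) (l 14))))), by decide +kernel⟩

def k19_pp_012_s : ∃ t, chk3 f_pp_012_s t 63 63 1 = true :=
  ⟨(a (b (a (l 3) (b (a (b (a (l 3) (b (b (a (a (l 413021503383) (l 270213839431)) (l 16773760)) (a (l 3) (a (l 267529485815) (l 16776880)))) (c (l 402284084919) (l 411410887799)))) (l 3)) (a (a (b (b (l 16772992) (a (b (a (l 175724560071) (l 16776944)) (l 433422598023)) (b (l 16776512) (a (l 280951258775) (l 148344143431))))) (l 3)) (b (b (l 16771832) (c (l 16773392) (l 16773432))) (b (b (a (l 322827189239) (a (l 16777072) (l 16776784))) (l 371682441799)) (l 3)))) (a (b (b (l 16770672) (l 16772904)) (a (b (b (l 16773720) (c (l 124721820791) (l 133848626311))) (l 3)) (b (l 16773536) (b (a (l 334101478727) (l 160155302263)) (l 3))))) (b (b (l 16769512) (l 16771736)) (a (b (l 16772952) (b (l 16775448) (c (l 284172484551) (l 293299284807)))) (b (l 16772368)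 (b (l 16773552) (b (l 16776768) (l 151565367607))))))))) (a (l 3) (b (a (l 3) (b (c (l 416779599495) (a (l 3) (l 419463954167))) (l 3))) (l 3))))) (l 3)) (b (a (b (a (b (b (c (a (l 16770304) (l 16767968)) (a (l 16767896) (l 16768264))) (c (a (l 16769264) (l 16769536)) (a (l 16769432) (l 16769784)))) (b (c (a (c (l 16770824) (l 16770880)) (a (l 16771704) (l 14))) (a (c (l 16770944) (l 16771000)) (l 16768696))) (a (c (a (l 16773048) (l 16771864)) (a (l 16773096) (l 16771944))) (l 14)))) (a (a (b (a (l 16764832) (l 16764264)) (l 14)) (l 14)) (l 14))) (l 14)) (l 14)) (l 14))), by decide +kernel⟩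

theorem s20_pp_012_s : ∃ t, chk3 f_pp_012_s t 126 62 1 = true := ex3_b k16_pp_012_s k17_pp_012_s

theorem s21_pp_012_s : ∃ t, chk3 f_pp_012_s t 63 62 1 = true := ex3_a s20_pp_012_s k18_pp_012_s

theorem s22_pp_012_s : ∃ t, chk3 f_pp_012_s t 63 31 1 = true := ex3_b s21_pp_012_s k19_pp_012_s

theorem s23_pp_012_s : ∃ t, chk3 f_pp_012_s t 31 31 1 = true := ex3_a k15_pp_012_s s22_pp_012_s

theorem s24_pp_012_s : ∃ t, chk3 f_pp_012_s t 62 30 1 = true := ex3_b k12_pp_012_s k13_pp_012_s

theorem s25_pp_012_s : ∃ t, chk3 f_pp_012_s t 31 30 1 = true := ex3_a s24_pp_012_s k14_pp_012_s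

theorem s26_pp_012_s : ∃ t, chk3 f_pp_012_s t 31 15 1 = true := ex3_b s25_pp_012_s s23_pp_012_s

theorem s27_pp_012_s : ∃ t, chk3 f_pp_012_s t 15 15 1 = true := ex3_a k11_pp_012_s s26_pp_012_s

theorem s28_pp_012_s : ∃ t, chk3 f_pp_012_s t 31 14 1 = true := ex3_a k9_pp_012_s k10_pp_012_s

theorem s29_pp_012_s : ∃ t, chk3 f_pp_012_s t 30 14 1 = true := ex3_a k7_pp_012_s k8_pp_012_s

theorem s30_pp_012_s : ∃ t, chk3 f_pp_012_s t 15 14 1 = true := ex3_a s29_pp_012_s s28_pp_012_s

theorem s31_pp_012_s : ∃ t, chk3 f_pp_012_s t 15 7 1 = true := ex3_b s30_pp_012_s s27_pp_012_s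

theorem s32_pp_012_s : ∃ t, chk3 f_pp_012_s t 7 7 1 = true := ex3_a k6_pp_012_s s31_pp_012_s

theorem s33_pp_012_s : ∃ t, chk3 f_pp_012_s t 7 6 1 = true := ex3_a k4_pp_012_s k5_pp_012_s

theorem s34_pp_012_s : ∃ t, chk3 f_pp_012_s t 7 3 1 = true := ex3_b s33_pp_012_s s32_pp_012_s

theorem s35_pp_012_s : ∃ t, chk3 f_pp_012_s t 7 1 1 = true := ex3_b k3_pp_012_s s34_pp_012_s

theorem s36_pp_012_s : ∃ t, chk3 f_pp_012_s t 6 1 1 = true := ex3_b k1_pp_012_s k2_pp_012_s

theorem s37_pp_012_s : ∃ t, chk3 f_pp_012_s t 3 1 1 = true := ex3_a s36_pp_012_s s35_pp_012_s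

theorem s38_pp_012_s : ∃ t, chk3 f_pp_012_s t 1 1 1 = true := ex3_a k0_pp_012_s s37_pp_012_s

theorem c_pp_012_s : CertNE 0 536870912 0 536870912 991146299 28908434 3 eng mog cd0q0 cd0q2 pd1 false true true .pnp 0 1 2
    ndB0q0 ndB0q2 pcB1 cut_pp_012_s Ext.none :=
  certNE2 (fam := false) (s1 := true) (s2 := true) (a := 0) (b := 1) (c := 2) (cn := .pnp) (n1 := ndB0q0) (n2 := ndB0q2) (pc := pcB1) (cut := cut_pp_012_s) (xt := Ext.none) (P1 := 0) (W1 := 536870912) (P2 := 0) (W2 := 536870912) (P3 := 991146299) (W3 := 28908434) (N0 := 3) (En := eng) (mo := mog) (C1 := cd0q0) (C2 := cd0q2) (C3 := pd1)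
    rfl (fun _ => rfl) s38_pp_012_s

noncomputable def cut_pp_012_t : Cut := Cut.of [[⟨3, 0, 0, 2845415833⟩], [⟨0, 0, 0, 16777216⟩, ⟨1, 1, 0, 16777216⟩, ⟨2, 1, 0, 16777216⟩]]

noncomputable def f_pp_012_t : ℕ → ℕ → ℕ → ℕ → Bool := onCell 0 536870912 0 536870912 991146299 28908434
    (rowNE 3 eng mog cd0q0 cd0q2 pd1 0 false true true .pnp 0 1 2 (qsf 0 536870912 0 536870912 1) ndB0q0 ndB0q2 pcB1 cut_pp_012_t Ext.none)

def k0_pp_012_t : ∃ t, chk3 f_pp_012_t t 1 1 1 = true :=
  ⟨(l 6), by decide +kernel⟩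

theorem c_pp_012_t : CertNE 0 536870912 0 536870912 991146299 28908434 3 eng mog cd0q0 cd0q2 pd1 false true true .pnp 0 1 2
    ndB0q0 ndB0q2 pcB1 cut_pp_012_t Ext.none :=
  certNE0 (fam := false) (s1 := true) (s2 := true) (a := 0) (b := 1) (c := 2) (cn := .pnp) (n1 := ndB0q0) (n2 := ndB0q2) (pc := pcB1) (cut := cut_pp_012_t) (xt := Ext.none) (P1 := 0) (W1 := 536870912) (P2 := 0) (W2 := 536870912) (P3 := 991146299) (W3 := 28908434) (N0 := 3) (En := eng) (mo := mog) (C1 := cd0q0) (C2 := cd0q2) (C3 := pd1)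
    rfl k0_pp_012_t

noncomputable def cut_pp_022_s : Cut := Cut.of [[⟨4, 0, 0, 1449551462⟩], [⟨0, 0, 0, 53687091⟩, ⟨1, 1, 0, 53687091⟩, ⟨2, 1, 0, 53687091⟩]]

noncomputable def f_pp_022_s : ℕ → ℕ → ℕ → ℕ → Bool := onCell 1073741824 536870912 0 536870912 991146299 28908434
    (rowNE 3 eng mog cd0q0 cd0q2 pd2 2 false true true .pp 0 2 2 (qsf 0 536870912 0 536870912 2) ndB0q0 ndB0q2 pcB2 cut_pp_022_s Ext.none)

def k0_pp_022_s : ∃ t, chk3 f_pp_022_s t 4 2 1 = true :=
  ⟨(a (b (l 6) (a (b (l 6) (b (l 6) (c (c (a (c (l 16584504) (l 16536720)) (l 16487688)) (a (a (l 16525744) (l 16506848)) (l 16477640))) (c (a (a (l 16467784) (l 16450368)) (l 16423504)) (a (a (l 16407432) (l 16391608)) (l 16367264)))))) (l 6))) (l 6)), by decide +kernel⟩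

def k1_pp_022_s : ∃ t, chk3 f_pp_022_s t 16 6 1 = true :=
  ⟨(a (a (b (c (c (b (l 16568976) (l 16580136)) (b (l 16497224) (b (l 16566608) (l 16564800)))) (b (c (b (l 16497192) (l 16517448)) (b (l 16440784) (l 16463648))) (c (b (l 16538360) (l 16560016)) (b (l 16487176) (l 16511448))))) (b (b (c (c (l 16608464) (l 16584824)) (c (l 16582496) (l 16536496))) (c (c (l 16582960) (l 16605888)) (c (l 16584992) (l 16541512)))) (c (b (a (l 16575840) (l 16606672)) (a (l 16590720) (l 16601688))) (b (a (l 16553712) (l 16539856)) (c (l 16612632) (l 16595016)))))) (b (b (c (b (l 16493504) (l 16487936)) (c (l 16487224) (l 16433504))) (c (b (l 16503968) (a (l 16547936) (l 16535520))) (b (c (l 16516432) (l 16466480)) (c (l 16536992) (l 16489560))))) (b (c (b (b (l 16554840) (l 16563776)) (l 16556296)) (c (b (l 16557800) (l 16579168)) (b (l 16512824) (l 16536568)))) (c (c (l 16598816) (l 16586896)) (b (c (l 16601104) (l 16560832)) (c (l 16602320) (l 16585304))))))) (a (b (b (c (b (l 16492720)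 (l 16485992)) (c (l 16466880) (l 16414600))) (c (b (l 16500952) (l 16516272)) (c (l 16461496) (b (l 16445560) (l 16466648))))) (b (c (c (l 16559712) (l 16540904)) (c (l 16499600) (l 16435808))) (c (b (l 16564632) (l 16581800)) (b (l 16488328) (l 16509600))))) (b (b (c (c (l 16542296) (l 16495248)) (c (l 16446336) (l 16395576))) (b (c (l 16496968) (l 16447640)) (c (l 16510632) (l 16444648)))) (c (b (c (l 16550640) (l 16532672)) (a (l 16548456) (l 16532152))) (b (b (l 16441616) (l 16459816)) (c (l 16507048) (l 16490296))))))), by decide +kernel⟩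

def k2_pp_022_s : ∃ t, chk3 f_pp_022_s t 17 6 1 = true :=
  ⟨(b (c (a (b (c (l 16442208) (l 16397208)) (a (c (l 16539264) (l 16497480)) (l 16406208))) (a (b (l 16444704) (l 16461480)) (b (l 16417912) (l 16433088)))) (a (b (a (c (l 16424800) (l 16375600)) (l 16378776)) (a (c (l 16454128) (l 16409224)) (c (l 16427456) (l 16383856)))) (a (b (l 16355856) (c (l 16400752) (l 16358520))) (b (l 16332216) (l 16354176))))) (a (c (b (a (b (l 16515440) (l 16528264)) (l 16428088)) (a (b (l 16542296) (l 16557768)) (l 16475824))) (b (a (c (l 16483968) (l 16443144)) (c (l 16454808) (l 16415064))) (a (b (l 16489992) (l 16509192)) (b (l 16459904) (l 16478656))))) (a (b (c (l 16481544) (l 16406848)) (c (l 16444584) (b (l 16430832) (l 16448944)))) (b (c (l 16451936) (l 16379632)) (c (b (l 16470096) (l 16484336)) (b (l 16402616) (l 16420072))))))), by decide +kernel⟩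

def k3_pp_022_s : ∃ t, chk3 f_pp_022_s t 8 7 1 = true :=
  ⟨(b (b (b (a (a (c (a (a (b (l 16607504) (l 16604864)) (l 16596960)) (l 16593784)) (a (a (l 16586280) (l 16590840)) (c (l 16604440) (l 16589736)))) (c (a (l 16621456) (l 16566616)) (a (l 16553408) (l 16520608)))) (a (a (c (l 16554408) (l 16488680)) (c (l 16521840) (l 16436552))) (a (c (l 16489904) (c (l 16485160) (l 16452816))) (c (c (l 16515224) (l 16485664)) (c (l 16455176) (l 16423752)))))) (b (a (a (a (c (l 16597304) (l 16632384)) (c (l 16620704) (l 16598528))) (c (b (l 16561840) (l 16591024)) (a (l 16565184) (l 16532904)))) (a (c (a (l 16564240) (l 16511408)) (b (a (l 16523272) (l 16492392)) (l 16506856))) (c (a (c (l 16557432) (l 16528352)) (a (l 16520016) (l 16504752))) (a (c (l 16498336) (l 16467408)) (c (l 16468744) (l 16438672)))))) (a (a (c (a (l 16609992) (l 16655928)) (a (l 16613456) (l 16619360))) (c (l 16565768) (l 16525544))) (a (c (l 16499264) (a (l 16539264) (l 16507880))) (c (a (l 16535704)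 (l 16505184)) (a (l 16477624) (l 16448472))))))) (b (a (a (c (a (b (l 16622424) (l 16634552)) (l 16634472)) (a (b (l 16615864) (l 16618680)) (c (l 16634520) (l 16626376)))) (c (a (l 16597096) (l 16560824)) (a (l 16561488) (b (l 16568616) (l 16565896))))) (b (a (c (c (l 16547048) (l 16519272)) (a (l 16534504) (l 16501664))) (c (a (l 16526128) (l 16494656)) (a (l 16470072) (l 16439712)))) (a (c (a (l 16564152) (l 16529456)) (a (l 16530184) (l 16474896))) (a (c (l 16516856) (l 16462920)) (l 1))))) (a (l 14) (a (l 14) (a (a (a (l 14) (l 1)) (l 1)) (l 1)))))) (a (l 14) (a (l 14) (l 1)))), by decide +kernel⟩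

def k4_pp_022_s : ∃ t, chk3 f_pp_022_s t 9 3 1 = true :=
  ⟨(b (b (b (l 6) (a (c (a (a (l 16404960) (l 16377848)) (l 16338640)) (a (c (l 16335896) (l 16297480)) (l 16270912))) (l 6))) (b (a (c (a (a (l 16423048) (l 16394904)) (a (l 16367528) (l 16340936))) (a (a (l 16353320) (l 16327952)) (c (l 16307624) (l 16275488)))) (a (c (l 16302552) (l 16267808)) (l 1))) (a (a (c (b (l 16383952) (a (l 16454216) (l 16424808))) (b (l 16319992) (a (l 16392064) (l 16364944)))) (a (c (l 237329769943) (l 237866535671)) (l 1))) (l 1)))) (b (a (b (a (a (a (b (c (l 16477552) (l 16417992)) (b (c (l 16489616) (l 16432536)) (l 1))) (b (c (l 16462424) (l 16403864)) (l 1))) (b (c (l 16440064) (l 16383080)) (l 1))) (l 1)) (l 1)) (l 1)) (l 1))), by decide +kernel⟩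

def k5_pp_022_s : ∃ t, chk3 f_pp_022_s t 5 1 1 = true :=
  ⟨(b (l 6) (b (l 1) (l 1))), by decide +kernel⟩

def k6_pp_022_s : ∃ t, chk3 f_pp_022_s t 3 1 1 = true :=
  ⟨(l 1), by decide +kernel⟩

theorem s7_pp_022_s : ∃ t, chk3 f_pp_022_s t 8 6 1 = true := ex3_a k1_pp_022_s k2_pp_022_s

theorem s8_pp_022_s : ∃ t, chk3 f_pp_022_s t 8 3 1 = true := ex3_b s7_pp_022_s k3_pp_022_s

theorem s9_pp_022_s : ∃ t, chk3 f_pp_022_s t 4 3 1 = true := ex3_a s8_pp_022_s k4_pp_022_s

theorem s10_pp_022_s : ∃ t, chk3 f_pp_022_s t 4 1 1 = true := ex3_b k0_pp_022_s s9_pp_022_s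

theorem s11_pp_022_s : ∃ t, chk3 f_pp_022_s t 2 1 1 = true := ex3_a s10_pp_022_s k5_pp_022_s

theorem s12_pp_022_s : ∃ t, chk3 f_pp_022_s t 1 1 1 = true := ex3_a s11_pp_022_s k6_pp_022_s

theorem c_pp_022_s : CertNE 0 536870912 0 536870912 991146299 28908434 3 eng mog cd0q0 cd0q2 pd2 false true true .pp 0 2 2
    ndB0q0 ndB0q2 pcB2 cut_pp_022_s Ext.none :=
  certNE2 (fam := false) (s1 := true) (s2 := true) (a := 0) (b := 2) (c := 2) (cn := .pp) (n1 := ndB0q0) (n2 := ndB0q2) (pc := pcB2) (cut := cut_pp_022_s) (xt := Ext.none) (P1 := 0) (W1 := 536870912) (P2 := 0) (W2 := 536870912) (P3 := 991146299) (W3 := 28908434) (N0 := 3) (En := eng) (mo := mog) (C1 := cd0q0) (C2 := cd0q2) (C3 := pd2)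
    rfl (fun _ => rfl) s12_pp_022_s

noncomputable def cut_pp_022_t : Cut := Cut.of [[⟨3, 0, 0, 2845415833⟩], [⟨0, 0, 0, 53687091⟩, ⟨1, 1, 0, 53687091⟩, ⟨2, 1, 0, 53687091⟩]]

noncomputable def f_pp_022_t : ℕ → ℕ → ℕ → ℕ → Bool := onCell 0 536870912 0 536870912 991146299 28908434
    (rowNE 3 eng mog cd0q0 cd0q2 pd2 0 false true true .pp 0 2 2 (qsf 0 536870912 0 536870912 2) ndB0q0 ndB0q2 pcB2 cut_pp_022_t Ext.none)

def k0_pp_022_t : ∃ t, chk3 f_pp_022_t t 1 1 1 = true :=
  ⟨(l 6), by decide +kernel⟩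

theorem c_pp_022_t : CertNE 0 536870912 0 536870912 991146299 28908434 3 eng mog cd0q0 cd0q2 pd2 false true true .pp 0 2 2
    ndB0q0 ndB0q2 pcB2 cut_pp_022_t Ext.none :=
  certNE0 (fam := false) (s1 := true) (s2 := true) (a := 0) (b := 2) (c := 2) (cn := .pp) (n1 := ndB0q0) (n2 := ndB0q2) (pc := pcB2) (cut := cut_pp_022_t) (xt := Ext.none) (P1 := 0) (W1 := 536870912) (P2 := 0) (W2 := 536870912) (P3 := 991146299) (W3 := 28908434) (N0 := 3) (En := eng) (mo := mog) (C1 := cd0q0) (C2 := cd0q2) (C3 := pd2)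
    rfl k0_pp_022_t

noncomputable def cut_pp_101_s : Cut := Cut.of [[⟨4, 0, 0, 1449551462⟩]]

noncomputable def f_pp_101_s : ℕ → ℕ → ℕ → ℕ → Bool := onCell 536870912 536870912 536870912 536870912 991146299 28908434
    (rowNE 3 eng mog cd0q1 cd0q1 pd0 0 false true true .npn 1 0 1 (qsf 536870912 536870912 536870912 536870912 0) ndB0q1 ndB0q1 pcB0 cut_pp_101_s Ext.none)

def k0_pp_101_s : ∃ t, chk3 f_pp_101_s t 1 1 1 = true :=
  ⟨(l 3), by decide +kernel⟩

theorem c_pp_101_s : CertNE 536870912 536870912 536870912 536870912 991146299 28908434 3 eng mog cd0q1 cd0q1 pd0 false true true .npn 1 0 1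
    ndB0q1 ndB0q1 pcB0 cut_pp_101_s Ext.none :=
  certNE0 (fam := false) (s1 := true) (s2 := true) (a := 1) (b := 0) (c := 1) (cn := .npn) (n1 := ndB0q1) (n2 := ndB0q1) (pc := pcB0) (cut := cut_pp_101_s) (xt := Ext.none) (P1 := 536870912) (W1 := 536870912) (P2 := 536870912) (W2 := 536870912) (P3 := 991146299) (W3 := 28908434) (N0 := 3) (En := eng) (mo := mog) (C1 := cd0q1) (C2 := cd0q1) (C3 := pd0)
    rfl k0_pp_101_s

noncomputable def cut_pp_101_t : Cut := Cut.of [[⟨3, 0, 0, 2845415833⟩]]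

noncomputable def f_pp_101_t : ℕ → ℕ → ℕ → ℕ → Bool := onCell 536870912 536870912 536870912 536870912 991146299 28908434
    (rowNE 3 eng mog cd0q1 cd0q1 pd0 0 false true true .npn 1 0 1 (qsf 536870912 536870912 536870912 536870912 0) ndB0q1 ndB0q1 pcB0 cut_pp_101_t Ext.none)

def k0_pp_101_t : ∃ t, chk3 f_pp_101_t t 1 1 1 = true :=
  ⟨(l 3), by decide +kernel⟩

theorem c_pp_101_t : CertNE 536870912 536870912 536870912 536870912 991146299 28908434 3 eng mog cd0q1 cd0q1 pd0 false true true .npn 1 0 1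
    ndB0q1 ndB0q1 pcB0 cut_pp_101_t Ext.none :=
  certNE0 (fam := false) (s1 := true) (s2 := true) (a := 1) (b := 0) (c := 1) (cn := .npn) (n1 := ndB0q1) (n2 := ndB0q1) (pc := pcB0) (cut := cut_pp_101_t) (xt := Ext.none) (P1 := 536870912) (W1 := 536870912) (P2 := 536870912) (W2 := 536870912) (P3 := 991146299) (W3 := 28908434) (N0 := 3) (En := eng) (mo := mog) (C1 := cd0q1) (C2 := cd0q1) (C3 := pd0)
    rfl k0_pp_101_t

noncomputable def cut_pp_102_s : Cut := Cut.of [[⟨4, 0, 0, 1449551462⟩]]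

noncomputable def f_pp_102_s : ℕ → ℕ → ℕ → ℕ → Bool := onCell 0 536870912 0 536870912 991146299 28908434
    (rowNE 3 eng mog cd0q1 cd0q2 pd0 2 false true true .npp 1 0 2 (qsf 536870912 536870912 0 536870912 0) ndB0q1 ndB0q2 pcB0 cut_pp_102_s Ext.none)

def k0_pp_102_s : ∃ t, chk3 f_pp_102_s t 1 1 1 = true :=
  ⟨(a (b (l 3) (l 3)) (l 3)), by decide +kernel⟩

theorem c_pp_102_s : CertNE 536870912 536870912 0 536870912 991146299 28908434 3 eng mog cd0q1 cd0q2 pd0 false true true .npp 1 0 2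
    ndB0q1 ndB0q2 pcB0 cut_pp_102_s Ext.none :=
  certNE2 (fam := false) (s1 := true) (s2 := true) (a := 1) (b := 0) (c := 2) (cn := .npp) (n1 := ndB0q1) (n2 := ndB0q2) (pc := pcB0) (cut := cut_pp_102_s) (xt := Ext.none) (P1 := 536870912) (W1 := 536870912) (P2 := 0) (W2 := 536870912) (P3 := 991146299) (W3 := 28908434) (N0 := 3) (En := eng) (mo := mog) (C1 := cd0q1) (C2 := cd0q2) (C3 := pd0)
    rfl (fun _ => rfl) k0_pp_102_s

noncomputable def cut_pp_102_t : Cut := Cut.of [[⟨3, 0, 0, 2845415833⟩]]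

noncomputable def f_pp_102_t : ℕ → ℕ → ℕ → ℕ → Bool := onCell 536870912 536870912 0 536870912 991146299 28908434
    (rowNE 3 eng mog cd0q1 cd0q2 pd0 0 false true true .npp 1 0 2 (qsf 536870912 536870912 0 536870912 0) ndB0q1 ndB0q2 pcB0 cut_pp_102_t Ext.none)

def k0_pp_102_t : ∃ t, chk3 f_pp_102_t t 1 1 1 = true :=
  ⟨(l 6), by decide +kernel⟩

theorem c_pp_102_t : CertNE 536870912 536870912 0 536870912 991146299 28908434 3 eng mog cd0q1 cd0q2 pd0 false true true .npp 1 0 2
    ndB0q1 ndB0q2 pcB0 cut_pp_102_t Ext.none :=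
  certNE0 (fam := false) (s1 := true) (s2 := true) (a := 1) (b := 0) (c := 2) (cn := .npp) (n1 := ndB0q1) (n2 := ndB0q2) (pc := pcB0) (cut := cut_pp_102_t) (xt := Ext.none) (P1 := 536870912) (W1 := 536870912) (P2 := 0) (W2 := 536870912) (P3 := 991146299) (W3 := 28908434) (N0 := 3) (En := eng) (mo := mog) (C1 := cd0q1) (C2 := cd0q2) (C3 := pd0)
    rfl k0_pp_102_t

noncomputable def cut_pp_112_s : Cut := Cut.of [[⟨4, 0, 0, 1449551462⟩]]

noncomputable def f_pp_112_s : ℕ → ℕ → ℕ → ℕ → Bool := onCell 536870912 536870912 0 536870912 991146299 28908434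
    (rowNE 3 eng mog cd0q1 cd0q2 pd1 2 false true true .dn 1 1 2 (qsf 536870912 536870912 0 536870912 1) ndB0q1 ndB0q2 pcB1 cut_pp_112_s Ext.none)

def k0_pp_112_s : ∃ t, chk3 f_pp_112_s t 1 1 1 = true :=
  ⟨(a (b (a (a (l 3) (b (b (a (a (l 171429556263) (b (a (l 118279290999) (l 99488795927)) (l 3))) (b (a (b (l 16721128) (a (l 16772304) (l 16765544))) (l 16665768)) (a (l 139217257479) (b (l 84993280135) (l 16746832))))) (l 3)) (l 3))) (a (b (b (a (a (b (l 16661112) (b (l 16746024) (l 82845797207))) (c (l 16682816) (l 16690824))) (l 1)) (a (b (a (l 138143500631) (b (l 80698314839) (l 133311685127))) (l 3)) (l 1))) (l 3)) (l 1))) (l 3)) (l 1)), by decide +kernel⟩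

theorem c_pp_112_s : CertNE 536870912 536870912 0 536870912 991146299 28908434 3 eng mog cd0q1 cd0q2 pd1 false true true .dn 1 1 2
    ndB0q1 ndB0q2 pcB1 cut_pp_112_s Ext.none :=
  certNE2 (fam := false) (s1 := true) (s2 := true) (a := 1) (b := 1) (c := 2) (cn := .dn) (n1 := ndB0q1) (n2 := ndB0q2) (pc := pcB1) (cut := cut_pp_112_s) (xt := Ext.none) (P1 := 536870912) (W1 := 536870912) (P2 := 0) (W2 := 536870912) (P3 := 991146299) (W3 := 28908434) (N0 := 3) (En := eng) (mo := mog) (C1 := cd0q1) (C2 := cd0q2) (C3 := pd1)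
    rfl (fun _ => rfl) k0_pp_112_s

noncomputable def cut_pp_112_t : Cut := Cut.of [[⟨3, 0, 0, 2845415833⟩]]

noncomputable def f_pp_112_t : ℕ → ℕ → ℕ → ℕ → Bool := onCell 536870912 536870912 0 536870912 991146299 28908434
    (rowNE 3 eng mog cd0q1 cd0q2 pd1 0 false true true .dn 1 1 2 (qsf 536870912 536870912 0 536870912 1) ndB0q1 ndB0q2 pcB1 cut_pp_112_t Ext.none)

def k0_pp_112_t : ∃ t, chk3 f_pp_112_t t 1 1 1 = true :=
  ⟨(l 6), by decide +kernel⟩

theorem c_pp_112_t : CertNE 536870912 536870912 0 536870912 991146299 28908434 3 eng mog cd0q1 cd0q2 pd1 false true true .dn 1 1 2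
    ndB0q1 ndB0q2 pcB1 cut_pp_112_t Ext.none :=
  certNE0 (fam := false) (s1 := true) (s2 := true) (a := 1) (b := 1) (c := 2) (cn := .dn) (n1 := ndB0q1) (n2 := ndB0q2) (pc := pcB1) (cut := cut_pp_112_t) (xt := Ext.none) (P1 := 536870912) (W1 := 536870912) (P2 := 0) (W2 := 536870912) (P3 := 991146299) (W3 := 28908434) (N0 := 3) (En := eng) (mo := mog) (C1 := cd0q1) (C2 := cd0q2) (C3 := pd1)
    rfl k0_pp_112_t

noncomputable def cut_pp_202_s : Cut := Cut.of [[⟨4, 0, 0, 1449551462⟩]]

noncomputable def f_pp_202_s : ℕ → ℕ → ℕ → ℕ → Bool := onCell 0 536870912 0 536870912 991146299 28908434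
    (rowNE 3 eng mog cd0q2 cd0q2 pd0 0 false true true .pp 2 0 2 (qsf 0 536870912 0 536870912 0) ndB0q2 ndB0q2 pcB0 cut_pp_202_s Ext.none)

def k0_pp_202_s : ∃ t, chk3 f_pp_202_s t 1 1 1 = true :=
  ⟨(l 3), by decide +kernel⟩

theorem c_pp_202_s : CertNE 0 536870912 0 536870912 991146299 28908434 3 eng mog cd0q2 cd0q2 pd0 false true true .pp 2 0 2
    ndB0q2 ndB0q2 pcB0 cut_pp_202_s Ext.none :=
  certNE0 (fam := false) (s1 := true) (s2 := true) (a := 2) (b := 0) (c := 2) (cn := .pp) (n1 := ndB0q2) (n2 := ndB0q2) (pc := pcB0) (cut := cut_pp_202_s) (xt := Ext.none) (P1 := 0) (W1 := 536870912) (P2 := 0) (W2 := 536870912) (P3 := 991146299) (W3 := 28908434) (N0 := 3) (En := eng) (mo := mog) (C1 := cd0q2) (C2 := cd0q2) (C3 := pd0)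
    rfl k0_pp_202_s

noncomputable def cut_pp_202_t : Cut := Cut.of [[⟨3, 0, 0, 2845415833⟩]]

noncomputable def f_pp_202_t : ℕ → ℕ → ℕ → ℕ → Bool := onCell 0 536870912 0 536870912 991146299 28908434
    (rowNE 3 eng mog cd0q2 cd0q2 pd0 0 false true true .pp 2 0 2 (qsf 0 536870912 0 536870912 0) ndB0q2 ndB0q2 pcB0 cut_pp_202_t Ext.none)

def k0_pp_202_t : ∃ t, chk3 f_pp_202_t t 1 1 1 = true :=
  ⟨(l 3), by decide +kernel⟩

theorem c_pp_202_t : CertNE 0 536870912 0 536870912 991146299 28908434 3 eng mog cd0q2 cd0q2 pd0 false true true .pp 2 0 2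
    ndB0q2 ndB0q2 pcB0 cut_pp_202_t Ext.none :=
  certNE0 (fam := false) (s1 := true) (s2 := true) (a := 2) (b := 0) (c := 2) (cn := .pp) (n1 := ndB0q2) (n2 := ndB0q2) (pc := pcB0) (cut := cut_pp_202_t) (xt := Ext.none) (P1 := 0) (W1 := 536870912) (P2 := 0) (W2 := 536870912) (P3 := 991146299) (W3 := 28908434) (N0 := 3) (En := eng) (mo := mog) (C1 := cd0q2) (C2 := cd0q2) (C3 := pd0)
    rfl k0_pp_202_t

noncomputable def cut_pm_001_s : Cut := Cut.of [[⟨4, 0, 0, 1449551462⟩]]

noncomputable def f_pm_001_s : ℕ → ℕ → ℕ → ℕ → Bool := onCell 0 536870912 536870912 536870912 991146299 28908434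
    (rowNE 3 eng mog cd0q0 cd0q1 pd0 0 false true false .up 0 0 1 (qsf 0 536870912 536870912 536870912 0) ndB0q0 ndB0q1 pcB0 cut_pm_001_s Ext.none)

def k0_pm_001_s : ∃ t, chk3 f_pm_001_s t 1 1 1 = true :=
  ⟨(l 6), by decide +kernel⟩

theorem c_pm_001_s : CertNE 0 536870912 536870912 536870912 991146299 28908434 3 eng mog cd0q0 cd0q1 pd0 false true false .up 0 0 1
    ndB0q0 ndB0q1 pcB0 cut_pm_001_s Ext.none :=
  certNE0 (fam := false) (s1 := true) (s2 := false) (a := 0) (b := 0) (c := 1) (cn := .up) (n1 := ndB0q0) (n2 := ndB0q1) (pc := pcB0) (cut := cut_pm_001_s) (xt := Ext.none) (P1 := 0) (W1 := 536870912) (P2 := 536870912) (W2 := 536870912) (P3 := 991146299) (W3 := 28908434) (N0 := 3) (En := eng) (mo := mog) (C1 := cd0q0) (C2 := cd0q1) (C3 := pd0)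
    rfl k0_pm_001_s

noncomputable def cut_pm_001_t : Cut := Cut.of [[⟨3, 0, 0, 2845415833⟩]]

noncomputable def f_pm_001_t : ℕ → ℕ → ℕ → ℕ → Bool := onCell 0 536870912 536870912 536870912 991146299 28908434
    (rowNE 3 eng mog cd0q0 cd0q1 pd0 0 false true false .up 0 0 1 (qsf 0 536870912 536870912 536870912 0) ndB0q0 ndB0q1 pcB0 cut_pm_001_t Ext.none)

def k0_pm_001_t : ∃ t, chk3 f_pm_001_t t 2 1 1 = true :=
  ⟨(b (l 4) (b (b (l 4) (l 2)) (l 2))), by decide +kernel⟩

def k1_pm_001_t : ∃ t, chk3 f_pm_001_t t 3 4 1 = true :=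
  ⟨(l 4), by decide +kernel⟩

def k2_pm_001_t : ∃ t, chk3 f_pm_001_t t 6 5 1 = true :=
  ⟨(l 4), by decide +kernel⟩

def k3_pm_001_t : ∃ t, chk3 f_pm_001_t t 14 5 1 = true :=
  ⟨(b (l 4) (b (a (l 4) (b (l 4) (a (l 4) (a (b (l 4) (c (l 16751848) (l 16751568))) (c (b (l 16749552) (l 16764016)) (b (l 16749352) (l 16760376))))))) (b (a (a (l 4) (b (l 4) (a (l 4) (c (l 125862592951) (l 130157558951))))) (c (a (b (a (l 123715105143) (l 16753960)) (a (l 16751600) (l 16756832))) (c (l 16743624) (l 16738656))) (a (b (a (l 127473200935) (l 16742312)) (a (l 16749624) (l 16750616))) (b (l 16723720) (a (l 16727408) (l 16704816)))))) (a (a (b (l 4) (a (l 4) (c (c (l 16748800) (l 16748512)) (b (l 16743144) (l 16753104))))) (c (c (b (a (l 16745528) (l 16770088)) (l 16758080)) (b (l 117809509383) (l 16754656))) (b (a (l 114588303959) (l 16756000)) (a (l 16761432) (l 16737536))))) (c (a (c (l 16735344) (l 16728408)) (c (l 16702088) (l 16690192))) (a (b (l 16714288) (c (l 16685112) (l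 16675328))) (c (l 16635656) (l 16601512)))))))), by decide +kernel⟩

def k4_pm_001_t : ∃ t, chk3 f_pm_001_t t 15 5 1 = true :=
  ⟨(b (b (a (l 4) (a (l 4) (a (l 4) (b (l 4) (c (l 121030747255) (l 122104494567)))))) (b (a (l 4) (a (a (l 4) (c (l 119957008407) (l 116735787111))) (c (b (l 16749544) (l 16753576)) (b (l 48016340983) (l 16750360))))) (a (a (l 4) (c (b (l 122641337687) (l 112440822759)) (b (l 125862568119) (a (l 16743960) (l 16772360))))) (a (c (b (l 16746456) (l 16749544)) (c (l 16755496) (l 21172798471))) (c (l 16724352) (l 16716368)))))) (b (a (c (b (a (b (l 116735761911) (a (l 16747432) (l 16769408))) (b (l 16742504) (l 16744456))) (a (b (l 16758432) (l 16738096)) (c (l 16717376) (l 16710352)))) (b (a (b (a (l 4) (l 16745544)) (a (l 16747336) (l 16767360))) (b (a (l 16770072) (l 16751464)) (l 16737360))) (a (b (a (l 16764152) (l 16743480)) (l 16728008)) (b (l 16711888) (l 16664592))))) (c (b (a (l 16719832) (l 16674360)) (a (c (l 16684312) (l 16674272))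 (l 16581960))) (b (a (b (l 16720808) (l 16675224)) (l 16605776)) (a (b (l 16670848) (l 16644696)) (l 16576384))))) (a (c (b (a (c (l 16710760) (l 16701528)) (c (l 16657208) (l 16665288))) (a (c (l 16648696) (l 16632472)) (c (l 16637744) (l 16617816)))) (b (a (c (l 16691744) (l 16639536)) (b (l 16658320) (l 16630064))) (a (c (l 16636256) (l 16597272)) (c (l 16596672) (l 16574488))))) (c (b (a (c (l 16645688) (l 16629728)) (l 16541048)) (a (c (l 16605984) (l 16582976)) (l 16519656))) (b (a (l 16541032) (l 16564752)) (a (c (l 16558512) (l 16532816)) (l 16444440))))))), by decide +kernel⟩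

def k5_pm_001_t : ∃ t, chk3 f_pm_001_t t 12 12 1 = true :=
  ⟨(a (l 4) (b (l 4) (b (l 4) (a (l 4) (b (l 4) (b (a (l 4) (a (l 4) (a (c (l 109756501527) (l 16748176)) (c (l 97408474695) (l 16753312))))) (a (l 2) (a (a (l 2) (c (l 83315628583) (l 16770936))) (c (l 16749960) (l 16737088)))))))))), by decide +kernel⟩

def k6_pm_001_t : ∃ t, chk3 f_pm_001_t t 26 12 1 = true :=
  ⟨(b (l 4) (b (b (a (l 4) (b (a (l 4) (a (l 4) (c (l 99555958039) (l 16772992)))) (c (a (c (l 16740856) (l 16740312)) (c (l 16770440) (l 16768968))) (a (l 121030748967) (a (l 16752736) (l 16761176)))))) (b (a (l 4) (c (a (c (l 16752928) (l 88818530919)) (l 16734200)) (a (a (l 16747992) (l 16770248)) (l 16747064)))) (a (a (l 4) (a (l 4) (c (c (l 16772600) (l 16772376)) (l 16751064)))) (c (a (c (l 16763936) (l 16761344)) (l 16696032)) (a (a (l 16765800) (l 16749248)) (l 16702608)))))) (a (c (b (a (c (b (l 16734144) (l 102240293543)) (b (l 116735782279) (c (l 16752112) (l 16730952)))) (b (c (l 16770016)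 (l 21172807495)) (c (l 16755224) (l 16751056)))) (a (c (b (l 16762384) (l 16744376)) (b (l 16738592) (l 16738256))) (c (l 16686424) (l 16677208)))) (b (a (b (a (l 4) (l 16743688)) (a (l 108682746711) (b (l 16774784) (l 16765896)))) (b (a (l 57143157047) (l 16760344)) (l 16702528))) (a (b (a (l 16743552) (l 16725376)) (l 16665688)) (b (l 16676184) (l 16648848))))) (a (c (b (c (l 16739680) (l 16719064)) (c (l 16683432) (l 16669592))) (b (b (l 16691720) (l 16666432)) (c (l 16655176) (l 16640224)))) (c (b (c (l 16695824) (l 16684208)) (c (l 16681800) (l 16663544))) (b (c (l 16672096) (l 16659520)) (c (l 16644512) (l 16624768)))))))), by decide +kernel⟩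

def k7_pm_001_t : ∃ t, chk3 f_pm_001_t t 27 12 1 = true :=
  ⟨(a (b (b (l 4) (a (b (l 4) (c (c (l 104387758935) (b (l 16763296) (l 16774152))) (b (l 125325724055) (a (l 16770328) (l 16769912))))) (c (b (c (l 105461495959) (l 109756460951)) (c (l 16763784) (l 16761080))) (b (b (l 4) (l 111367096247)) (c (l 16758256) (l 16734352)))))) (b (c (b (c (a (l 16757368) (l 16736584)) (a (l 16753488) (l 16728728))) (a (c (l 16706456) (l 16696832)) (c (l 16706576) (l 16692896)))) (b (a (b (l 16737104) (l 16715776)) (l 16653352)) (a (l 16639656) (l 16608328)))) (c (c (b (l 16621904) (l 16587384)) (b (a (l 16679264) (l 16654640)) (a (l 16637968) (l 16613704)))) (c (b (a (l 16662728) (l 16633880)) (a (l 16614528) (l 16586064))) (b (a (l 16645552) (l 16612304)) (a (l 16590192) (l 16557352))))))) (b (b (b (l 4) (b (a (l 4) (c (l 111367105431) (l 114051450487))) (c (a (l 126936347703) (l 16747640)) (a (l 130157570503) (l 16765320))))) (c (b (a (c (l 16747960) (l 16767120)) (l 16701784))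 (c (l 16734856) (a (l 16738208) (l 16715088)))) (b (a (b (l 51774442679) (l 16757816)) (l 16717672)) (a (l 16686272) (l 16657248))))) (b (c (b (c (l 16664960) (l 16630392)) (c (l 16656240) (l 16594912))) (b (c (l 16616152) (l 16601344)) (c (l 16574624) (l 16553528)))) (b (c (c (l 16645576) (l 16557112)) (c (a (l 16606416) (l 16580232)) (l 16502600))) (c (a (l 16543064) (l 16585880)) (c (a (l 16559016) (l 16533272)) (a (l 16526128) (l 16496400)))))))), by decide +kernel⟩

def k8_pm_001_t : ∃ t, chk3 f_pm_001_t t 12 13 1 = true :=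
  ⟨(b (a (l 2) (b (b (b (a (l 2) (a (l 2) (c (a (l 2) (l 16721048)) (l 216996323095)))) (l 2)) (l 2)) (l 2))) (l 2)), by decide +kernel⟩

def k9_pm_001_t : ∃ t, chk3 f_pm_001_t t 26 13 1 = true :=
  ⟨(a (b (a (b (b (c (c (l 16673120) (l 16640640)) (c (l 16628664) (l 16616256))) (b (c (l 200353193015) (l 213774876791)) (l 2))) (l 2)) (b (b (c (c (l 16668960) (l 16631664)) (c (l 16614672) (l 16597064))) (c (b (l 16585200) (l 121969928743)) (c (b (l 16614184) (l 16584544)) (l 16552808)))) (b (a (l 2) (b (c (l 16593480) (l 16528936)) (l 2))) (l 2)))) (l 2)) (a (b (b (c (b (b (l 16624688) (l 16645032)) (c (l 16625128) (l 16596656))) (b (c (l 16602624) (l 16601000)) (c (l 16567024) (l 16536296)))) (c (b (c (l 16580496) (l 16544016)) (c (l 16532064) (l 16487072))) (c (b (l 16506048) (l 16440272)) (b (l 16466696) (l 16391776))))) (l 2)) (b (b (c (b (c (l 16644096) (l 16618776)) (c (l 16603392) (l 16570560))) (b (c (l 16592392) (l 16565008)) (c (l 16536352) (l 16500872)))) (c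 (c (b (l 16559376) (l 16511696)) (b (l 16518560) (l 16462408))) (c (b (l 16476056) (l 16411096)) (b (l 16431976) (l 16357904))))) (b (b (b (c (l 16445608) (l 16329136)) (l 2)) (l 2)) (l 2))))), by decide +kernel⟩

def k10_pm_001_t : ∃ t, chk3 f_pm_001_t t 54 13 1 = true :=
  ⟨(a (b (b (c (b (a (l 16614128) (l 16602936)) (a (l 16570112) (l 16559192))) (c (b (l 16562856) (l 16507392)) (b (l 16530912) (l 16467368)))) (c (c (b (l 16539568) (l 16492656)) (b (l 16494624) (l 16439288))) (b (c (l 16447792) (l 16399200)) (c (l 16383680) (l 16326008))))) (b (b (c (c (l 16441864) (l 16379552)) (c (l 16314656) (l 16247360))) (b (c (l 16366664) (l 16243264)) (l 2))) (l 2))) (b (b (c (b (c (l 16603320) (l 16569832)) (c (l 16563672) (l 16522728))) (c (b (l 16534880) (l 16480016)) (b (l 16498576) (l 16435664)))) (c (c (b (l 16520944) (l 16474816)) (b (l 16472088) (l 16417576))) (c (b (l 16421136) (l 16357896)) (b (l 16368248) (l 16295952))))) (b (c (b (c (l 16424960) (l 16358816)) (c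 (l 16370960) (l 16295416))) (b (c (l 16289888) (l 16218368)) (c (l 16216712) (l 16135056)))) (b (b (c (l 146128570711) (l 16144896)) (l 2)) (l 2))))), by decide +kernel⟩

def k11_pm_001_t : ∃ t, chk3 f_pm_001_t t 55 13 1 = true :=
  ⟨(b (b (b (c (a (l 16503208) (l 16546520)) (c (a (l 16508336) (l 16483128)) (a (l 16467888) (l 16438720)))) (c (c (l 16536800) (l 16490320)) (c (l 16441760) (a (l 16405624) (l 16377128))))) (c (c (b (l 16495080) (l 16450144)) (b (l 16440736) (l 16408448))) (b (c (l 16384000) (a (l 16338984) (l 16311296))) (c (a (l 16333608) (l 16310696)) (a (l 16267616) (l 16240856)))))) (b (c (a (b (c (l 16409136) (l 16339384)) (c (l 16356240) (l 16277136))) (b (c (l 16394312) (l 16321144)) (c (l 16342504) (l 16260048)))) (c (b (a (l 16266632) (l 16244768)) (a (l 16194656) (l 16174000))) (b (a (l 16191104) (l 16165432)) (a (l 16109048) (l 16084632))))) (c (c (b (a (l 16298952) (l 16286480)) (a (l 16215864) (l 16204848))) (b (a (l 16209984) (l 16194216))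 (a (l 16116504) (l 16102264)))) (c (b (a (l 16117248) (l 16097984)) (a (l 135927524359) (l 15995288))) (b (a (l 16021016) (l 15998048)) (a (l 138074809527) (l 15905200))))))), by decide +kernel⟩

def k12_pm_001_t : ∃ t, chk3 f_pm_001_t t 14 24 1 = true :=
  ⟨(a (c (b (a (a (b (c (l 16752264) (l 16751960)) (l 16745048)) (c (l 16729848) (l 16745928))) (c (b (l 16736120) (l 16691736)) (b (l 16728800) (l 16680000)))) (a (c (a (l 16709240) (l 16659688)) (b (l 16708144) (l 16640304))) (c (b (l 16688280) (l 16662648)) (c (l 16619648) (l 16609904))))) (b (a (b (a (b (l 16746856) (l 16771040)) (l 16755264)) (a (l 16747728) (l 16699800))) (b (a (l 16708712) (l 16683488)) (c (l 16667648) (l 16654752)))) (a (b (c (l 16660792) (l 16649680)) (c (l 16645304) (l 16607688))) (c (b (l 16654432) (l 16618392)) (b (l 16636328) (l 16594736)))))) (a (c (b (c (c (l 16673400) (l 16666064)) (b (l 16689064) (l 16661552))) (c (l 16600664) (b (l 16632768) (l 16602560)))) (b (b (l 16605408) (l 16570824))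 (c (b (l 16609432) (l 16573888)) (l 16460048)))) (c (b (c (l 16616192) (l 16596072)) (b (l 16567704) (l 16561600))) (b (a (l 16553784) (l 16552632)) (c (l 16508128) (l 16454464)))))), by decide +kernel⟩

def k13_pm_001_t : ∃ t, chk3 f_pm_001_t t 14 25 1 = true :=
  ⟨(a (c (b (a (a (b (l 16627488) (l 16616312)) (b (l 16629048) (l 16618176))) (c (l 16537776) (b (l 16608664) (l 16574408)))) (a (c (b (l 16609808) (l 16576832)) (b (l 16577312) (l 16537832))) (c (l 16456288) (b (l 16538104) (l 16499568))))) (b (a (c (a (l 16535904) (l 16553368)) (a (l 16533112) (l 16546904))) (c (b (l 16580336) (l 16540088)) (b (l 16550800) (l 16504312)))) (b (a (a (l 16454704) (l 16512872)) (c (l 16497424) (l 16455032))) (a (c (l 16496992) (l 16454488)) (c (l 16452144) (l 16402728)))))) (c (c (b (a (l 16589728) (l 16559368)) (a (l 16530840) (l 16502224))) (b (a (l 16491408) (l 16519024)) (a (l 16483360) (l 16449872)))) (c (b (a (b (l 16536456) (l 16496944)) (l 16476472)) (a (b (l 16455168)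 (l 16410928)) (l 16394712))) (b (a (b (l 16500632) (l 16454888)) (l 16327136)) (a (b (l 16406512) (l 16355296)) (l 16337072)))))), by decide +kernel⟩

def k14_pm_001_t : ∃ t, chk3 f_pm_001_t t 15 12 1 = true :=
  ⟨(b (c (a (b (a (c (l 16626480) (l 16602024)) (c (l 16595416) (l 16567256))) (a (c (l 16580336) (l 16546392)) (c (l 16550408) (l 16512776)))) (b (a (l 16465368) (l 16517200)) (a (l 16500808) (l 16470040)))) (a (b (a (c (l 16576136) (l 16549024)) (c (l 16537384) (l 16506056))) (a (c (l 16510496) (l 16472912)) (c (l 16472896) (l 16431080)))) (b (a (c (l 16500152) (l 16465272)) (l 16403504)) (a (c (l 16436888) (l 16391504)) (l 16378288))))) (a (c (b (a (c (l 16530152) (l 16485520)) (l 16373080)) (a (c (l 16474816) (l 16418256)) (c (l 16448208) (l 16388088)))) (b (a (c (l 16438360) (l 16388992)) (c (l 16402288) (l 16348696))) (a (c (l 16358536) (l 16296048)) (c (l 16324472) (l 16257800))))) (c (b (a (l 16448392) (l 16419224)) (a (l 16370056) (l 16363832))) (a (b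 (l 16318648) (c (l 16292104) (l 16221912))) (b (l 16305128) (l 16225008)))))), by decide +kernel⟩

def k15_pm_001_t : ∃ t, chk3 f_pm_001_t t 7 26 1 = true :=
  ⟨(a (a (c (b (a (c (b (l 16541640) (l 16504008)) (b (l 16495736) (l 16450768))) (c (b (l 16510624) (l 16474208)) (b (l 16458584) (l 16414920)))) (a (c (b (l 16463664) (l 16420360)) (b (l 16402664) (l 16351128))) (a (c (l 16421376) (l 16351800)) (c (l 16408232) (l 16335864))))) (b (a (c (b (l 16447680) (l 16395064)) (b (l 16397680) (l 16337120))) (c (b (l 16404008) (l 16352768)) (b (l 16347152) (l 16288032)))) (a (c (b (l 16338856) (l 16278744)) (b (l 16272496) (l 16203464))) (c (b (l 16298152) (l 16239864)) (b (l 16225064) (l 16157960)))))) (c (c (b (a (l 16464656) (l 16438304)) (a (b (l 16409288) (l 16369280)) (l 16366192))) (b (a (b (l 16424424) (l 16382096)) (l 16372528)) (a (b (l 16337040) (l 16289000)) (l 16264440)))) (b (a (c (b (l 16364008) (l 16314176)) (b (l 16300984) (l 16243328))) (c (l 16303272) (l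 16209960))) (a (c (b (l 16261176) (l 16204744)) (b (l 16182064) (l 16116888))) (c (b (l 16227328) (l 16172736)) (b (l 16142864) (l 16079616))))))) (a (c (b (a (c (l 16413216) (l 16343352)) (c (l 16388944) (l 16315656))) (a (c (l 16344032) (l 16259344)) (c (l 16322688) (l 16234744)))) (b (a (c (l 16269640) (l 16192528)) (c (l 16238136) (l 16156920))) (a (c (l 16170048) (b (l 16106928) (l 16045600))) (c (l 16141792) (l 16044432))))) (a (b (c (c (l 16365128) (l 16289032)) (c (l 16208352) (l 16123688))) (c (b (l 16275608) (a (l 16243640) (l 16233688))) (b (l 16091784) (a (l 16045088) (l 16032496))))) (b (c (l 16302928) (c (l 16179944) (l 16092528))) (b (c (l 16253008) (l 16064416)) (l 6)))))), by decide +kernel⟩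

def k16_pm_001_t : ∃ t, chk3 f_pm_001_t t 14 27 2 = true :=
  ⟨(a (b (b (a (c (l 16373784) (l 16295840)) (c (l 16348952) (l 16265248))) (a (c (l 16323608) (l 16233840)) (c (l 16300944) (l 16208160)))) (a (b (c (a (l 16274904) (l 16264120)) (a (l 16179536) (l 16165832))) (a (c (l 16215680) (l 16089096)) (b (l 16168904) (a (l 16138800) (b (l 16142048) (l 16127904)))))) (b (c (l 16249256) (l 16146912)) (b (a (l 16158552) (b (l 16157008) (l 16127440))) (a (b (a (l 16137624) (l 16138112)) (l 16135192)) (l 16149512)))))) (b (a (c (b (l 16326480) (l 16280616)) (b (l 16237720) (l 16182896))) (b (c (l 16305784) (l 16212624)) (a (l 16216704) (b (l 16219000) (l 16195616))))) (a (c (b (a (l 16215112) (l 16212144)) (l 16201968)) (b (b (l 16119288) (a (l 16115320) (l 16115584))) (b (l 16068904) (l 16117048)))) (b (b (a (l 16151272) (l 16186656)) (l 16185008)) (l 16193400))))), by decide +kernel⟩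

def k17_pm_001_t : ∃ t, chk3 f_pm_001_t t 14 27 3 = true :=
  ⟨(a (b (a (c (b (l 16214376) (a (l 16154608) (l 16136384))) (b (l 16150648) (a (l 16061672) (l 16040056)))) (c (b (l 16177608) (l 16111048)) (b (l 16086376) (l 16009960)))) (a (b (c (a (l 16079976) (l 16063128)) (a (l 15976536) (l 15956352))) (a (c (l 15978864) (l 15885328)) (b (l 15968768) (a (l 15908312) (b (l 15911336) (a (l 15891928) (l 15870496))))))) (b (c (a (l 16047336) (l 16032504)) (a (l 15937400) (l 15919584))) (b (a (l 15952584) (b (a (l 15930456) (l 15923656)) (a (l 15913056) (l 15916376)))) (a (b (a (l 15904064) (l 15893336)) (l 15900888)) (l 15918032)))))) (b (a (c (b (l 16144584) (l 16080400)) (b (l 16047496) (l 15973576))) (a (b (l 16071848) (l 16004664)) (b (l 16056384) (c (l 16025784) (l 15912656))))) (b (a (b (a (l 15980288) (l 15965184)) (a (b (l 15951632) (a (l 15935664) (l 15931984))) (b (l 15948064) (l 15939328)))) (b (a (b (l 15961200) (l 15951904)) (l 15963064)) (l 15961352))) (a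 (a (b (a (l 15925008) (l 15931880)) (l 15936800)) (l 15949792)) (l 15973944))))), by decide +kernel⟩

def k18_pm_001_t : ∃ t, chk3 f_pm_001_t t 15 27 1 = true :=
  ⟨(a (a (b (c (b (c (l 16286320) (l 16189424)) (b (a (l 16209056) (l 16204136)) (l 16168760))) (b (c (l 16087304) (l 15980544)) (b (a (l 15993144) (l 15986432)) (a (l 15974016) (l 15982560))))) (c (b (l 16203176) (l 16213328)) (b (l 15986072) (l 16001464)))) (b (c (b (a (l 16223912) (l 16198032)) (l 16212000)) (b (b (l 16022840) (a (l 16000248) (l 15999008))) (a (l 15993088) (l 6)))) (l 6))) (a (a (b (b (c (l 16217960) (l 16008808)) (l 6)) (l 6)) (l 6)) (l 6))), by decide +kernel⟩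

def k19_pm_001_t : ∃ t, chk3 f_pm_001_t t 3 7 1 = true :=
  ⟨(b (a (a (l 2) (a (l 2) (a (l 2) (a (l 2) (a (l 2) (b (b (b (b (c (l 16119640) (l 15903008)) (l 2)) (l 2)) (l 2)) (l 2))))))) (a (a (b (a (a (b (b (c (b (b (a (l 16123320) (l 16118624)) (a (b (l 16110120) (l 16104448)) (l 16111344))) (l 111231559175)) (b (b (a (l 15890608) (a (l 15884440) (l 15881024))) (a (b (l 15873112) (l 96198719911)) (l 15868096))) (b (l 15872040) (l 15878176)))) (c (l 242228086967) (l 276587445335))) (l 2)) (b (c (b (b (a (b (l 16119136) (l 16119712)) (l 16127112)) (l 16130392)) (l 16143296)) (b (b (b (a (b (l 15861656) (l 15879976)) (l 15889176)) (l 15889112)) (l 15897928)) (l 15927184))) (b (c (l 16162144) (l 15944096)) (l 2)))) (b (c (b (a (l 16143928) (l 16160112)) (a (l 16160392) (l 16176080))) (b (a (l 15913544) (l 15933632)) (a (l 15937640) (l 15957120)))) (b (c (a (l 16178720) (l 16193880)) (a (l 15964400) (l 15983248))) (c (l 16174968) (a (l 15993896) (l 6)))))) (a (l 2) (l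 6))) (b (b (a (c (b (a (l 16174912) (l 16188352)) (l 16176032)) (b (a (l 15952296) (l 15969560)) (a (l 15975176) (l 15991824)))) (b (c (l 16205992) (l 15992840)) (l 6))) (l 6)) (l 6))) (l 6))) (a (l 2) (l 6))), by decide +kernel⟩

theorem s20_pm_001_t : ∃ t, chk3 f_pm_001_t t 14 27 1 = true := ex3_c k16_pm_001_t k17_pm_001_t

theorem s21_pm_001_t : ∃ t, chk3 f_pm_001_t t 7 27 1 = true := ex3_a s20_pm_001_t k18_pm_001_t

theorem s22_pm_001_t : ∃ t, chk3 f_pm_001_t t 7 13 1 = true := ex3_b k15_pm_001_t s21_pm_001_t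

theorem s23_pm_001_t : ∃ t, chk3 f_pm_001_t t 14 12 1 = true := ex3_b k12_pm_001_t k13_pm_001_t

theorem s24_pm_001_t : ∃ t, chk3 f_pm_001_t t 7 12 1 = true := ex3_a s23_pm_001_t k14_pm_001_t

theorem s25_pm_001_t : ∃ t, chk3 f_pm_001_t t 7 6 1 = true := ex3_b s24_pm_001_t s22_pm_001_t

theorem s26_pm_001_t : ∃ t, chk3 f_pm_001_t t 27 13 1 = true := ex3_a k10_pm_001_t k11_pm_001_t

theorem s27_pm_001_t : ∃ t, chk3 f_pm_001_t t 13 13 1 = true := ex3_a k9_pm_001_t s26_pm_001_t

theorem s28_pm_001_t : ∃ t, chk3 f_pm_001_t t 6 13 1 = true := ex3_a k8_pm_001_t s27_pm_001_t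

theorem s29_pm_001_t : ∃ t, chk3 f_pm_001_t t 13 12 1 = true := ex3_a k6_pm_001_t k7_pm_001_t

theorem s30_pm_001_t : ∃ t, chk3 f_pm_001_t t 6 12 1 = true := ex3_a k5_pm_001_t s29_pm_001_t

theorem s31_pm_001_t : ∃ t, chk3 f_pm_001_t t 6 6 1 = true := ex3_b s30_pm_001_t s28_pm_001_t

theorem s32_pm_001_t : ∃ t, chk3 f_pm_001_t t 3 6 1 = true := ex3_a s31_pm_001_t s25_pm_001_t

theorem s33_pm_001_t : ∃ t, chk3 f_pm_001_t t 3 3 1 = true := ex3_b s32_pm_001_t k19_pm_001_t

theorem s34_pm_001_t : ∃ t, chk3 f_pm_001_t t 7 5 1 = true := ex3_a k3_pm_001_t k4_pm_001_t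

theorem s35_pm_001_t : ∃ t, chk3 f_pm_001_t t 3 5 1 = true := ex3_a k2_pm_001_t s34_pm_001_t

theorem s36_pm_001_t : ∃ t, chk3 f_pm_001_t t 3 2 1 = true := ex3_b k1_pm_001_t s35_pm_001_t

theorem s37_pm_001_t : ∃ t, chk3 f_pm_001_t t 3 1 1 = true := ex3_b s36_pm_001_t s33_pm_001_t

theorem s38_pm_001_t : ∃ t, chk3 f_pm_001_t t 1 1 1 = true := ex3_a k0_pm_001_t s37_pm_001_t

theorem c_pm_001_t : CertNE 0 536870912 536870912 536870912 991146299 28908434 3 eng mog cd0q0 cd0q1 pd0 false true false .up 0 0 1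
    ndB0q0 ndB0q1 pcB0 cut_pm_001_t Ext.none :=
  certNE0 (fam := false) (s1 := true) (s2 := false) (a := 0) (b := 0) (c := 1) (cn := .up) (n1 := ndB0q0) (n2 := ndB0q1) (pc := pcB0) (cut := cut_pm_001_t) (xt := Ext.none) (P1 := 0) (W1 := 536870912) (P2 := 536870912) (W2 := 536870912) (P3 := 991146299) (W3 := 28908434) (N0 := 3) (En := eng) (mo := mog) (C1 := cd0q0) (C2 := cd0q1) (C3 := pd0)
    rfl s38_pm_001_t

noncomputable def cut_pm_011_s : Cut := Cut.of [[⟨4, 0, 0, 1449551462⟩], [⟨0, 0, 0, 26843545⟩, ⟨1, 1, 0, 26843545⟩, ⟨2, 1, 0, 26843545⟩]]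

noncomputable def f_pm_011_s : ℕ → ℕ → ℕ → ℕ → Bool := onCell 0 536870912 536870912 536870912 991146299 28908434
    (rowNE 3 eng mog cd0q0 cd0q1 pd1 0 false true false .pnn 0 1 1 (qsf 0 536870912 536870912 536870912 1) ndB0q0 ndB0q1 pcB1 cut_pm_011_s Ext.none)

def k0_pm_011_s : ∃ t, chk3 f_pm_011_s t 1 1 1 = true :=
  ⟨(l 6), by decide +kernel⟩

theorem c_pm_011_s : CertNE 0 536870912 536870912 536870912 991146299 28908434 3 eng mog cd0q0 cd0q1 pd1 false true false .pnn 0 1 1
    ndB0q0 ndB0q1 pcB1 cut_pm_011_s Ext.none :=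
  certNE0 (fam := false) (s1 := true) (s2 := false) (a := 0) (b := 1) (c := 1) (cn := .pnn) (n1 := ndB0q0) (n2 := ndB0q1) (pc := pcB1) (cut := cut_pm_011_s) (xt := Ext.none) (P1 := 0) (W1 := 536870912) (P2 := 536870912) (W2 := 536870912) (P3 := 991146299) (W3 := 28908434) (N0 := 3) (En := eng) (mo := mog) (C1 := cd0q0) (C2 := cd0q1) (C3 := pd1)
    rfl k0_pm_011_s

end Pool.Agent.Strip051.G.I9231_9500.Tab.CS.BB00

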