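import Pool.Agent.Strip051.G.I9231_9500.Tab
import Pool.Agent.Strip051.PB.StripB

/-! # Strips, near vertex: certificates 6 (generated) -/

set_option linter.all false
set_option maxRecDepth 100000

namespace Pool.Agent.Strip051.G.I9231_9500.Tab.CS.BB00

open Pool.Agent.Strip051.PB Pool.Agent.Strip051.PB.T
open Pool.Agent.Strip051.G.I9231_9500.Tab

noncomputable def cut_pm_011_t : Cut := Cut.of [[⟨3, 0, 0, 2845415833⟩], [⟨0, 0, 0, 26843545⟩, ⟨1, 1, 0, 26843545⟩, ⟨2, 1, 0, 26843545⟩]]

noncomputable def f_pm_011_t : ℕ → ℕ → ℕ → ℕ → Bool := onCell 0 536870912 536870912 536870912 991146299 28908434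
    (rowNE 3 eng mog cd0q0 cd0q1 pd1 0 false true false .pnn 0 1 1 (qsf 0 536870912 536870912 536870912 1) ndB0q0 ndB0q1 pcB1 cut_pm_011_t Ext.none)

def k0_pm_011_t : ∃ t, chk3 f_pm_011_t t 1 2 1 = true :=
  ⟨(a (l 4) (b (l 1) (a (l 4) (l 1)))), by decide +kernel⟩

def k1_pm_011_t : ∃ t, chk3 f_pm_011_t t 2 6 1 = true :=
  ⟨(a (l 4) (b (l 4) (a (l 4) (b (l 4) (a (b (l 4) (a (l 4) (b (l 4) (a (l 4) (a (l 4) (b (l 4) (c (c (b (l 241289898759) (l 115125222263)) (l 119420160119)) (c (l 102240290199) (b (l 16744208) (l 16753776)))))))))) (b (a (l 4) (b (a (l 4) (b (l 4) (c (a (l 4) (l 123715112647)) (c (l 120493848919) (l 120493847303))))) (a (b (l 4) (c (a (l 243974238487) (c (l 87744787319) (l 16752528))) (c (a (l 123178231607) (l 108145880103)) (a (l 16736376) (l 16752240))))) (c (b (a (l 118883286103) (l 16756960)) (a (l 16768864) (l 16737888))) (b (c (c (l 16742176) (l 114051443495)) (l 117809538375)) (c (l 16762672) (l 16761896))))))) (a (a (b (l 4) (c (a (c (b (l 234310583863) (l 16764616)) (b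 (l 125325724279) (l 16769400))) (b (b (l 117809569591) (l 16771120)) (l 16738872))) (c (b (a (l 122641368823) (l 16752224)) (l 16758256)) (b (a (l 122641366599) (l 102777178967)) (a (l 16768448) (l 16757240)))))) (a (b (b (l 4) (c (a (l 122104520711) (l 86671057351)) (c (l 116198938327) (l 104387777239)))) (c (b (l 16764864) (l 16749584)) (c (l 16734480) (l 16722776)))) (b (c (b (a (l 4) (l 121030781703)) (l 77544243351)) (b (c (l 119957019847) (l 121030760535)) (c (l 16768728) (l 16768248)))) (c (c (l 16726808) (l 16725096)) (c (l 16723328) (l 16721504)))))) (c (b (a (b (a (l 81839218375) (l 16764392)) (l 16733416)) (c (l 16700328) (l 16719352))) (a (a (l 16715624) (l 16705256)) (c (l 16691448) (l 16708776)))) (b (a (b (a (c (l 16751920) (l 16772624)) (l 16741968)) (c (l 16731472) (l 16730128))) (c (l 16717344) (l 16694304))) (a (c (l 16706528) (l 16682840)) (c (l 16705024) (l 16701152)))))))))))), by decide +kernel⟩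

def k2_pm_011_t : ∃ t, chk3 f_pm_011_t t 4 14 1 = true :=
  ⟨(a (l 4) (a (l 4) (b (l 4) (b (l 4) (a (l 4) (b (l 4) (a (b (l 4) (a (l 4) (b (l 4) (b (a (l 4) (c (c (l 265985965639) (l 131231324839)) (c (l 134989420279) (l 127473225767)))) (c (a (a (l 4) (l 276723385767)) (a (b (l 121567679447) (l 16776496)) (l 16775368))) (a (c (l 139284381591) (l 279944600807)) (c (l 103314065991) (l 16760056)))))))) (a (b (l 4) (a (b (b (l 4) (c (c (l 253101072807) (l 119420170519)) (c (l 119957040791) (l 124788877479)))) (c (b (c (a (l 102777202327) (l 16774880)) (l 16775512)) (l 16772248)) (c (l 97408491511) (l 16762664)))) (c (b (c (b (a (l 278870869047) (l 114588356567)) (l 16768584)) (b (l 115125209271) (l 16774960))) (l 16759288)) (b (c (c (l 104387788951) (l 109219626535)) (b (l 122641400039) (l 16774592))) (c (l 16747912) (l 16747288)))))) (a (b (b (l 4) (b (l 4) (c (a (l 255248552375) (a (l 109219653015) (l 16776360))) (c (l 112440859975) (l 120493922599))))) (c (b (b (l 87744824039) (l 16760424)) (l 16754976))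 (b (c (l 16772128) (l 16771752)) (a (l 16754336) (l 16751832))))) (b (b (b (l 4) (c (l 281018345447) (c (l 139821255063) (l 139284382359)))) (c (b (a (a (l 125325769927) (l 113514617639)) (l 98482239783)) (l 16773840)) (c (b (l 108682769319) (l 16773440)) (b (l 16759000) (l 16773160))))) (c (b (l 16757920) (l 16740152)) (c (l 16742296) (l 16751752))))))))))))), by decide +kernel⟩

def k3_pm_011_t : ∃ t, chk3 f_pm_011_t t 8 30 1 = true :=
  ⟨(a (l 4) (b (l 4) (a (l 4) (b (l 4) (a (l 4) (b (l 4) (a (l 4) (b (l 4) (a (b (l 4) (b (l 4) (a (l 4) (a (c (l 296587620487) (c (l 150558736199) (l 131231386327))) (b (c (c (l 88281712311) (l 16776224)) (c (l 16775896) (l 16775560))) (c (l 16776624) (l 94187282343))))))) (a (b (l 4) (b (a (b (l 4) (c (a (l 167738606903) (l 16777104)) (c (l 16776184) (l 16775920)))) (c (a (b (l 16777880) (l 16776728)) (l 16776640)) (c (l 16776728) (l 16776680)))) (c (l 16775576) (c (l 16775352) (l 16775200))))) (c (a (b (c (a (l 310009390423) (l 281018363111)) (l 283165843303))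 (l 16772368)) (b (b (l 335242323287) (c (l 16777680) (l 16776640))) (l 16773968))) (c (b (b (l 330947348903) (c (l 23857201879) (l 16776816))) (l 16774112)) (b (b (l 326115507559) (l 218741336535)) (l 16773856)))))))))))))), by decide +kernel⟩

def k4_pm_011_t : ∃ t, chk3 f_pm_011_t t 16 62 1 = true :=
  ⟨(a (l 4) (b (l 4) (a (l 4) (b (l 4) (a (l 4) (a (l 4) (a (l 4) (b (l 4) (b (l 4) (b (l 4) (b (a (l 4) (a (l 4) (c (b (l 285313335591) (a (b (l 4) (l 16777488)) (c (l 16777024) (l 16777008)))) (b (c (l 235384341175) (l 236994953911)) (c (l 29225911127) (l 42647683911)))))) (a (a (l 4) (b (l 4) (c (a (b (l 4) (l 48016392807)) (b (l 43721425495) (l 16776952))) (c (c (l 16777104) (l 16777104)) (l 52311359735))))) (c (a (b (a (b (l 4) (l 38889587271)) (b (l 16777496) (l 16776928))) (l 16775304)) (l 16774952)) (c (c (l 16776456) (l 16776424)) (a (b (l 47479522151) (l 16776488)) (l 16776064)))))))))))))))), by decide +kernel⟩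

def k5_pm_011_t : ∃ t, chk3 f_pm_011_t t 32 63 1 = true :=
  ⟨(b (b (l 4) (b (l 4) (b (l 4) (l 14)))) (l 14)), by decide +kernel⟩

def k6_pm_011_t : ∃ t, chk3 f_pm_011_t t 66 252 1 = true :=
  ⟨(a (l 4) (b (l 4) (a (l 4) (a (l 4) (b (l 4) (a (l 4) (b (l 4) (b (l 4) (b (a (l 4) (c (c (b (a (l 4) (a (l 4) (l 99019129191))) (a (a (l 4) (l 102240354679)) (c (l 16777072) (l 16777064)))) (a (l 158074929799) (l 16777456))) (a (c (l 160222413447) (l 152706220759)) (a (c (l 56069456567) (l 66270003895)) (c (l 16777088) (l 16777080)))))) (c (c (a (a (c (l 248269242551) (l 172033573447)) (b (a (l 4) (l 109756547447)) (c (l 5603590311) (l 16777080)))) (a (a (b (l 16777152) (l 16776856)) (l 16776848)) (l 16775280))) (a (a (l 163980509847) (l 33520878327)) (l 16776712))) (c (a (c (c (l 16777200) (l 61438166023)) (l 61975037015)) (l 16775360)) (a (a (l 171496702615) (a (l 72175583943) (l 16777096))) (l 16776632))))))))))))), by decide +kernel⟩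

def k7_pm_011_t : ∃ t, chk3 f_pm_011_t t 132 506 2 = true :=
  ⟨(a (l 4) (b (l 4) (a (l 4) (a (l 4) (b (l 4) (b (l 4) (a (b (l 4) (a (l 4) (b (l 4) (b (l 4) (a (l 4) (a (l 185992216759) (l 16777208))))))) (a (b (l 4) (b (b (l 4) (a (l 4) (a (l 199950860423) (l 16777200)))) (b (a (c (l 75933679879) (l 16777216)) (l 16777096)) (l 110293416839)))) (b (b (l 4) (b (l 4) (a (l 4) (a (l 140895060183) (l 16777192))))) (b (b (a (c (l 73249325303) (l 16777208)) (l 16777088)) (l 16776672)) (l 16776080))))))))))), by decide +kernel⟩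

def k8_pm_011_t : ∃ t, chk3 f_pm_011_t t 264 1014 2 = true :=
  ⟨(a (l 4) (a (l 4) (b (l 4) (a (l 4) (b (l 4) (b (l 4) (a (b (l 4) (b (a (l 4) (a (l 135526351047) (l 25467814087))) (a (a (l 141431931079) (l 30836523207)) (l 16777080)))) (b (b (a (l 4) (a (l 107072192743) (l 16777264))) (a (a (l 129620771015) (l 16777312)) (l 16777072))) (c (l 16776248) (l 16776872)))))))))), by decide +kernel⟩

def k9_pm_011_t : ∃ t, chk3 f_pm_011_t t 528 1015 2 = true :=
  ⟨(b (b (l 4) (b (l 4) (b (b (a (l 4) (a (l 4) (a (l 4) (a (l 4) (a (l 4) (a (l 184918474871) (l 59290681559))))))) (l 14)) (l 14)))) (l 14)), by decide +kernel⟩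

def k10_pm_011_t : ∃ t, chk3 f_pm_011_t t 529 2030 2 = true :=
  ⟨(a (a (b (l 4) (b (a (b (l 4) (c (b (a (l 4) (a (l 4) (l 70028099799))) (a (a (l 4) (l 75396808919)) (l 16777128))) (c (l 49090134551) (l 16777192)))) (c (b (b (a (l 4) (a (l 4) (l 59290681559))) (a (a (l 4) (l 64659390679)) (l 16777120))) (c (c (l 114588383943) (l 16776952)) (l 16776944))) (a (b (l 16777248) (l 16777024)) (l 16776992)))) (c (c (a (a (b (l 16777008) (l 16776704)) (l 16776048)) (l 16775776)) (l 95797900471)) (l 16775240)))) (b (b (l 4) (b (a (l 4) (c (a (a (l 236994953399) (b (l 4) (l 16777312))) (b (a (l 203708956807) (l 16777288)) (l 16777104))) (l 50700747255))) (c (a (a (b (l 4) (a (l 252027338855) (l 62511907015))) (b (a (l 221425696903) (l 57143197895)) (l 16777112))) (c (l 107609062055) (l 16776928))) (a (l 51774489095) (l 16776912))))) (b (c (a (a (b (l 121567706119) (l 16776680)) (l 16776016)) (l 16775744)) (l 16775216)) (c (c (l 16775240) (l 16775840)) (l 16775760))))) (a (b (b (a (b (l 4) (c (b (a (l 4)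 (a (l 168275476647) (l 16777200))) (a (a (l 197266505863) (l 16777288)) (l 16777096))) (l 46942650871))) (c (b (a (b (l 4) (a (l 161833025703) (l 16777200))) (b (a (l 155927445671) (l 16777192)) (l 16777088))) (l 99555998327)) (b (l 45332038119) (l 16776896)))) (c (a (a (b (l 16776688) (l 16776664)) (l 16776000)) (l 16775728)) (l 16775200))) (c (b (a (l 16775376) (l 16775672)) (l 16774480)) (l 16772736))) (c (b (a (b (b (l 89892321575) (l 16775240)) (l 16775360)) (b (l 16775712) (l 16775656))) (b (l 16773808) (l 16774408))) (b (l 16774800) (l 16771952))))), by decide +kernel⟩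

def k11_pm_011_t : ∃ t, chk3 f_pm_011_t t 529 2031 2 = true :=
  ⟨(c (a (a (b (b (a (l 16775408) (l 16775696)) (l 16774504)) (l 14)) (b (b (l 16774496) (l 16774432)) (c (l 16773424) (l 16773272)))) (b (c (a (l 16772808) (l 16773408)) (l 16772312)) (a (l 16772624) (l 16771896)))) (a (b (c (l 16773064) (l 16772328)) (l 16771472)) (b (l 16770792) (l 16771864)))), by decide +kernel⟩

def k12_pm_011_t : ∃ t, chk3 f_pm_011_t t 530 1014 2 = true :=
  ⟨(a (b (l 4) (b (a (l 4) (b (a (l 4) (b (l 4) (c (l 284239593623) (l 227868148071)))) (b (a (l 4) (a (b (l 4) (a (l 60901294327) (l 16777160))) (b (a (l 55532585207) (l 16777160)) (l 16777032)))) (a (b (a (l 4) (a (l 66270003447) (l 16777160))) (a (a (l 87207968983) (l 16777168)) (l 16777040))) (l 16776360))))) (a (b (b (a (l 4) (b (a (l 4) (a (l 92576678103) (l 16777168))) (a (a (l 90429194471) (l 16777176)) (l 16777048)))) (a (a (b (l 4) (a (l 101166612711) (l 16777184))) (b (a (l 95797903591) (l 16777176)) (l 16777064))) (c (l 16776224) (l 16776856))))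 (c (a (c (l 16776064) (l 16776704)) (l 16775696)) (l 16773856))) (c (c (b (c (l 85060482119) (l 16775208)) (l 16774520)) (l 16774824)) (l 16774768))))) (b (b (l 4) (b (a (l 4) (c (a (l 4) (a (l 4) (a (l 4) (c (l 263838498967) (l 198877118855))))) (l 277260271895))) (a (c (c (a (l 4) (c (l 279944626391) (l 281018368215))) (l 281018368295)) (l 282092110119)) (c (a (b (a (l 4) (c (l 196192764167) (l 202098344199))) (a (b (l 196729634999) (l 16777168)) (c (l 16777088) (l 16777080)))) (b (a (b (l 157538058471) (l 16777160)) (c (l 16777080) (l 16777072))) (l 16775520))) (a (b (l 203708957063) (l 16777120)) (l 16776944)))))) (a (b (b (a (b (c (l 277797142679) (l 214983246215)) (c (a (b (l 210151407815) (l 37278974135)) (b (l 37278974119) (l 16777032))) (l 16777136))) (b (c (b (a (l 225183793303) (l 16777336)) (a (l 32447135911) (l 16777024))) (l 16777128)) (l 16776176))) (c (a (l 16776024) (l 16775664)) (l 16773816))) (c (b (a (l 16774656) (l 16775608)) (l 16773768)) (l 16772672))) (b (c (c (b (l 16775672)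 (l 16774488)) (l 16774792)) (l 16773416)) (c (c (l 16773448) (l 16774664)) (l 16774512)))))), by decide +kernel⟩

def k13_pm_011_t : ∃ t, chk3 f_pm_011_t t 531 1014 2 = true :=
  ⟨(c (b (a (b (b (b (l 4) (b (l 4) (a (l 4) (a (l 4) (a (l 4) (l 94187290903)))))) (a (c (a (l 4) (a (l 4) (a (l 4) (l 255785435271)))) (l 270280950039)) (a (b (a (l 4) (b (l 4) (l 116198998263))) (b (a (l 121030836471) (l 16777136)) (l 16777056))) (b (a (b (l 99556000023) (l 16777128)) (l 16777040)) (l 16775480))))) (b (a (a (a (b (l 4) (b (l 155390574807) (l 16777152))) (b (b (l 4) (l 150558736599)) (l 16777088))) (b (a (b (l 130157641975) (l 16777144)) (l 16777056)) (l 16775496))) (c (l 16775800) (l 16773808))) (c (a (l 16775824) (l 16774456)) (l 16774768)))) (a (b (a (b (b (a (l 4) (b (l 4) (l 89892323591))) (a (b (l 88818581783) (l 16777120)) (l 16777032))) (l 16775952)) (b (b (b (a (l 85597356295) (l 16777112)) (l 16777032)) (l 16775464)) (l 16774936))) (b (l 16775072) (l 16775024))) (b (b (c (l 16775768) (l 16773768))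 (l 16774400)) (a (l 16773520) (l 16774480))))) (a (a (b (b (l 16775104) (l 16775048)) (a (l 16774168) (l 16773808))) (b (c (l 16773424) (l 16774632)) (l 16773272))) (a (b (a (l 16774144) (l 16773784)) (l 16772552)) (b (l 16773248) (l 16771840))))) (a (b (b (a (c (l 279407755671) (l 281555239319)) (b (l 266522853639) (a (b (l 163443638711) (l 16777096)) (l 16776912)))) (b (a (a (b (l 197266506103) (l 16777104)) (l 16776928)) (l 16776384)) (l 16773392))) (b (l 16772904) (l 16770720))) (b (b (b (a (a (b (l 145190027735) (l 16777080)) (l 16776896)) (l 16776344)) (l 16773352)) (l 16772872)) (a (l 16770328) (l 16769552))))), by decide +kernel⟩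

def k14_pm_011_t : ∃ t, chk3 f_pm_011_t t 265 1015 2 = true :=
  ⟨(c (b (b (a (b (a (a (a (l 16774688) (l 16775640)) (l 16773784)) (c (l 16772760) (l 16773944))) (a (a (l 16773800) (l 16774384)) (l 16771984))) (a (a (l 16772576) (l 16771856)) (l 16770784))) (a (a (a (c (l 16772792) (l 16773976)) (l 16772000)) (c (l 16771016) (l 16772128))) (a (l 16770792) (l 16769368)))) (b (a (a (a (l 16772608) (l 16771880)) (l 16770800)) (a (l 16769368) (l 16767944))) (a (a (l 16771464) (l 16769368)) (l 16768544)))) (a (b (a (b (a (l 16772704) (l 16774544)) (l 16770776)) (b (l 16770752) (l 16771832))) (a (c (l 16768568) (l 16768344)) (c (l 16769664) (l 16769376)))) (a (b (c (l 16768544) (l 16765688)) (l 16767976)) (b (l 16766888) (l 16766440))))), by decide +kernel⟩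

def k15_pm_011_t : ∃ t, chk3 f_pm_011_t t 266 1012 2 = true :=
  ⟨(a (l 4) (a (l 4) (b (l 4) (b (l 4) (b (a (l 4) (a (l 4) (b (l 4) (a (b (l 4) (l 58753810759)) (b (l 53921972551) (l 16777096)))))) (a (a (l 4) (b (l 4) (a (b (l 4) (l 102240354567)) (b (l 96871645447) (l 16777112))))) (a (b (a (b (l 4) (l 92039807239)) (b (l 75396808999) (l 16777104))) (l 101166611015)) (c (l 16776104) (l 16776728))))))))), by decide +kernel⟩

def k16_pm_011_t : ∃ t, chk3 f_pm_011_t t 266 2026 2 = true :=
  ⟨(a (a (l 4) (b (l 4) (b (b (l 4) (a (l 4) (a (l 4) (a (c (l 193508409655) (l 16777264)) (b (l 166127993095) (l 16777160)))))) (a (b (l 4) (b (c (l 282092110007) (l 229478760887)) (a (l 4) (a (l 238605566119) (l 23320330503))))) (a (a (c (b (l 212298891543) (l 16777184)) (l 40500200055)) (b (b (l 191360925927) (l 16777336)) (l 16776928))) (a (b (b (l 16777328) (l 16777016)) (l 16776744)) (l 16776080))))))) (b (b (a (a (l 4) (b (l 4) (a (l 4) (b (a (l 4) (l 111367160087)) (a (l 116735869207) (l 16777128)))))) (a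 (a (b (a (b (l 4) (l 106535321879)) (b (l 101166612759) (l 16777120))) (c (l 16776960) (l 16776944))) (c (c (l 16776136) (l 16776776)) (l 16776744))) (c (l 16774944) (l 16776176)))) (a (b (a (l 4) (a (a (b (l 4) (l 121030836519)) (b (l 115125256487) (l 16777136))) (c (l 16776968) (l 16776952)))) (a (a (l 4) (a (c (l 177939153191) (l 16777256)) (b (l 126936416551) (l 16777144)))) (c (c (l 104924706839) (l 16776800)) (l 16776768)))) (c (a (l 16775616) (l 16774256)) (l 16773192)))) (c (a (a (b (a (b (a (l 180086636855) (b (l 152169349351) (l 16777160))) (c (l 16777000) (l 16776992))) (b (l 16776904) (l 16776656))) (l 16775656)) (b (l 16775640) (l 16774296))) (a (a (l 16774104) (l 16773752)) (l 16773224))) (a (a (a (a (b (l 16777480) (l 16776528)) (l 16776520)) (l 16773792)) (l 16773224)) (l 16772080))))), by decide +kernel⟩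

def k17_pm_011_t : ∃ t, chk3 f_pm_011_t t 266 2027 2 = true :=
  ⟨(a (b (b (a (b (l 4) (b (l 4) (a (l 4) (a (l 4) (a (l 4) (a (l 16777216) (l 16777168))))))) (a (a (b (b (l 4) (a (l 4) (c (l 16777184) (l 16777176)))) (a (a (b (l 16777216) (l 16777096)) (l 16777080)) (l 16776952))) (c (c (c (b (l 16777032) (l 16776712)) (l 16776856)) (l 16776848)) (l 16776824))) (a (l 16775824) (l 16775456)))) (a (b (a (l 4) (a (a (l 4) (b (l 4) (a (l 16777304) (l 16777176)))) (a (a (b (l 16777224) (l 16777104)) (l 16777088)) (l 16776960)))) (a (a (l 4) (a (l 4) (b (l 4) (a (l 16777312) (l 16777184))))) (c (a (a (b (l 16777320) (l 16777072)) (l 16776984)) (l 16775400)) (l 16776848)))) (c (a (a (l 16775216) (l 16774864)) (l 16774328)) (l 16773272)))) (c (a (a (a (b (a (b (l 4) (b (l 70028099815) (l 16777088))) (b (b (l 4) (l 65196261607)) (l 16777000))) (l 16775256)) (b (a (b (b (l 60364423399) (l 16777080)) (l 16776824)) (l 16776160)) (l 16774896))) (b (c (l 16775072) (l 16773728)) (l 16774360))) (c (a (l 16774200)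 (l 16773336)) (l 16773600))) (a (b (a (a (b (l 121567707623) (l 16777048)) (l 16776864)) (l 16773680)) (l 16773312)) (l 16772152)))) (b (a (c (c (a (l 16774000) (l 16773312)) (l 16773568)) (l 16772112)) (c (c (l 16772272) (l 16773432)) (l 16773208))) (a (c (a (l 16772576) (l 16773184)) (l 16773240)) (c (l 16770816) (l 16771720))))), by decide +kernel⟩

def k18_pm_011_t : ∃ t, chk3 f_pm_011_t t 534 506 2 = true :=
  ⟨(b (b (b (l 4) (a (l 4) (a (b (l 4) (a (c (l 284776464615) (l 234310599159)) (b (c (l 211762020743) (l 16777288)) (a (b (l 235384340647) (l 16777176)) (c (l 16777104) (l 16777096)))))) (a (b (c (l 277260271831) (l 212298891847)) (b (a (b (l 192971538663) (l 16777168)) (l 14730395479)) (l 16776848))) (b (b (c (c (l 205856440663) (l 198340247927)) (l 16777280)) (a (b (l 160759283975) (l 16777160)) (l 16777080))) (l 16776000)))))) (a (b (b (a (l 4) (b (l 4) (a (l 4) (a (b (l 4) (l 16777352)) (c (l 16777120) (l 16777112)))))) (a (b (l 4) (a (l 4) (a (b (l 4) (l 44795167031)) (c (l 16777336)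 (l 16777128))))) (a (b (a (b (l 4) (l 16777360)) (c (l 16777128) (l 16777120))) (l 16776232)) (l 16776048)))) (a (b (b (a (a (b (l 4) (l 49090134343)) (b (l 49627005239) (l 16777088))) (l 16776248)) (c (l 16776088) (l 16776712))) (c (l 16774928) (l 16776160))) (c (c (l 16774592) (l 16773224)) (l 16773144)))) (a (b (a (b (b (a (b (l 4) (l 16777184)) (c (l 16777112) (l 16777104))) (l 16775560)) (l 16775024)) (b (l 16776024) (l 16774664))) (b (l 16774464) (l 16773424))) (c (b (c (l 16774552) (l 16773184)) (l 16773160)) (l 16772368))))) (c (b (b (a (a (a (l 16774072) (l 16773720)) (l 16773192)) (a (l 16773808) (l 16773104))) (a (a (l 16773832) (l 16773136)) (l 16770776))) (a (b (l 16770792) (l 16770728)) (c (l 16767544) (l 16769880)))) (a (b (a (l 16771680) (l 16770928)) (l 16768328)) (b (l 16769792) (l 16769448))))), by decide +kernel⟩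

def k19_pm_011_t : ∃ t, chk3 f_pm_011_t t 535 506 2 = true :=
  ⟨(a (b (a (b (b (b (l 4) (b (c (c (l 265985982663) (l 195655893559)) (l 194582151783)) (a (c (c (l 189750313335) (l 191897796983)) (l 16777280)) (a (b (l 125325803815) (l 16777144)) (l 16777064))))) (a (b (b (a (b (l 148411252999) (l 16777152)) (l 16777072)) (l 16776824)) (l 16774984)) (c (l 16775336) (l 16776248)))) (c (b (l 16773824) (l 16773776)) (l 16771616))) (b (b (a (b (c (c (l 256322306247) (l 189213442615)) (l 183844733527)) (b (a (b (l 112440901927) (l 16777136)) (l 16777048)) (l 16776800))) (b (c (b (c (l 170959831399) (l 168275476871)) (a (l 30836523335) (l 16777048))) (l 37278974743)) (l 16775304))) (c (c (l 16774512) (l 16773144)) (l 16770440))) (c (b (l 16773128) (l 16773080)) (l 16770864)))) (b (c (b (l 16772064) (l 16770696)) (l 16768288)) (b (l 16767048) (l 16767584)))) (b (b (a (b (c (a (b (a (b (l 26541556023) (l 16776880)) (l 16776872)) (l 16776288)) (l 16774968)) (l 16775064)) (c (l 16773792) (l 16774928))) (c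 (b (a (l 16774616) (l 16774272)) (l 16773096)) (l 16772288))) (c (b (a (l 16773744) (l 16773056)) (l 16772040)) (l 16769736))) (b (b (a (l 16770776) (l 16770064)) (l 16769000)) (b (l 16767584) (l 16766152))))), by decide +kernel⟩

def k20_pm_011_t : ∃ t, chk3 f_pm_011_t t 133 507 2 = true :=
  ⟨(a (b (c (a (b (a (b (c (a (c (l 16774088) (l 16774048)) (l 16773368)) (l 16772976)) (a (l 16772632) (l 16773224))) (a (b (l 16772600) (l 16772520)) (b (l 16773208) (l 16771808)))) (b (a (a (l 16772536) (l 16771824)) (l 16770760)) (a (l 16770776) (l 16769360)))) (a (b (b (a (l 16772496) (l 16771792)) (l 16770752)) (c (l 16768824) (l 16768488))) (b (b (l 16770736) (l 16769352)) (l 16767256)))) (a (b (a (b (l 16772184) (l 16770672)) (c (l 16769984) (l 16769800))) (a (c (l 16768512) (l 16770904)) (l 16766872))) (a (b (l 16768368) (l 16767968)) (b (l 16769472) (l 16766456))))) (a (a (b (c (c (l 16768824) (l 16768488)) (l 16767976)) (c (l 16765824) (l 16764912))) (c (b (l 16767248) (l 16764416)) (b (l 16766448)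 (l 16763392)))) (b (c (a (l 16765848) (l 16764456)) (l 16760248)) (c (l 16762328) (l 16761136))))) (b (b (b (a (c (a (l 16769344) (l 16767952)) (l 16767960)) (c (l 16765888) (l 16764976))) (a (c (l 16767264) (l 16766464)) (l 16765312))) (a (c (c (l 16765416) (l 16764936)) (l 16764208)) (c (l 16762432) (l 16761240)))) (a (c (b (l 16762384) (l 16759576)) (b (l 16761192) (l 16758160))) (b (a (l 16759656) (l 16758248)) (l 16758664))))), by decide +kernel⟩

def k21_pm_011_t : ∃ t, chk3 f_pm_011_t t 132 506 3 = true :=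
  ⟨(a (l 4) (b (l 4) (a (l 4) (a (l 4) (b (l 4) (b (l 4) (b (a (l 4) (a (l 4) (b (l 4) (c (l 129083900391) (l 135526351335))))) (a (c (c (l 196729635559) (l 198877119207)) (c (l 270817820919) (l 271354691831))) (a (b (c (l 130157642231) (l 140358189543)) (c (l 16777056) (l 16777040))) (c (l 138747574215) (l 16776168))))))))))), by decide +kernel⟩

def k22_pm_011_t : ∃ t, chk3 f_pm_011_t t 264 507 3 = true :=
  ⟨(b (a (l 4) (b (l 4) (b (l 4) (a (l 4) (b (l 4) (a (l 4) (b (a (l 4) (a (c (l 16777432) (l 93113549223)) (c (l 16777112) (l 16777104)))) (c (c (l 16777072) (l 16776984)) (a (a (l 93650420151) (l 16777112)) (l 16776824)))))))))) (a (b (b (l 4) (b (l 4) (b (b (a (l 4) (a (l 4) (a (l 4) (c (l 166127993159) (l 163443638599))))) (l 14)) (l 14)))) (l 14)) (b (a (a (b (l 4) (b (a (b (l 4) (a (c (l 152706220359) (l 163980509495)) (c (l 16777160) (l 16777152)))) (b (a (c (l 126399545735) (l 132841996679)) (c (l 16777152) (l 16777144))) (c (l 16776904) (l 16776880)))) (c (a (l 16775400) (l 16776288))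 (l 16775136)))) (b (b (l 4) (a (b (l 4) (a (c (l 121030836615) (l 127473287559)) (c (l 16777144) (l 16777144)))) (c (c (l 39963328359) (l 16777008)) (b (a (l 112977772967) (l 16777136)) (l 16776864))))) (c (c (l 16773464) (l 16773424)) (c (l 16773376) (l 16774648))))) (c (b (b (a (a (b (l 4) (a (l 100629741991) (l 16777136))) (c (l 30836522839) (l 16776992))) (l 16775128)) (c (l 16773432) (l 16773392))) (c (l 16772216) (l 16772128))) (b (a (b (a (b (l 4) (a (l 112440902039) (l 16777128))) (a (b (l 98482258359) (l 16776952)) (l 16776880))) (l 16773784)) (l 16774304)) (c (l 16772040) (l 16771952))))) (a (c (c (a (l 16771840) (l 16771008)) (b (l 16772160) (l 16773080))) (b (c (l 16772072) (l 16771984)) (l 16770240))) (b (c (c (l 16773200) (l 16773056)) (l 16770216)) (c (l 16771464) (l 16771048))))))), by decide +kernel⟩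

def k23_pm_011_t : ∃ t, chk3 f_pm_011_t t 265 507 6 = true :=
  ⟨(b (a (b (a (l 4) (b (l 4) (a (c (l 291755786663) (l 293903270311)) (b (c (l 222499439271) (l 212835762935)) (a (b (l 211762020727) (l 79154904967)) (c (l 16776928) (l 16776920))))))) (b (a (a (l 4) (b (c (l 235921212055) (l 297124495655)) (a (c (c (l 16777528) (l 59827553047)) (l 68954358551)) (c (l 16776960) (l 16776952))))) (a (a (b (b (l 218204471687) (a (l 16777200) (l 16777080))) (l 16776592)) (c (l 126399541751) (l 16775224))) (l 16774640))) (a (b (a (a (c (c (l 60364423975) (l 63048778535)) (l 72175584039)) (c (l 16776976) (l 16776968))) (l 16773784)) (c (l 16773400) (l 16773352))) (c (l 16772152) (l 16772064))))) (b (b (a (a (c (l 284239593879) (l 286387077527)) (b (c (l 202098344679) (l 204245828327)) (c (c (l 60364423079) (l 61438164887)) (a (l 16777480) (l 16776880))))) (b (a (c (c (l 16776992) (l 57143197527)) (a (l 16777136) (l 16776864))) (l 16773656)) (l 16774568))) (a (b (b (a (a (l 180623507911) (l 16777088)) (l 16776520))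 (c (l 120493961559) (l 16775184))) (l 16774608)) (c (l 16769464) (l 16769368)))) (a (b (c (l 16772120) (l 16769408)) (l 16770432)) (c (l 16767056) (l 16769496))))) (a (a (b (c (a (l 16771784) (l 16770960)) (b (l 16772096) (l 16773032))) (c (l 16770728) (l 16767872))) (b (c (l 16769720) (l 16769216)) (b (l 16769768) (l 16768112)))) (a (b (a (l 16768376) (l 16767544)) (l 16767280)) (b (l 16765976) (l 16765624))))), by decide +kernel⟩

def k24_pm_011_t : ∃ t, chk3 f_pm_011_t t 265 507 7 = true :=
  ⟨(b (a (b (a (l 4) (b (l 4) (b (a (l 4) (l 284239593751)) (a (l 291218915607) (b (a (l 214446375287) (l 77007421287)) (a (l 82913001335) (l 16776736))))))) (a (b (a (l 4) (b (l 295513882919) (b (a (l 4) (l 106535321463)) (c (l 16776944) (a (l 106535321511) (l 16776768)))))) (b (a (a (b (l 4) (a (l 16777384) (l 16777096))) (a (b (l 16777216) (l 16776912)) (l 16776888))) (l 16773720)) (l 16774272))) (b (b (a (b (a (l 219815084423) (l 94724161367)) (a (l 100629741415) (l 16776752))) (l 16773680)) (l 16773248))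 (l 16771928)))) (b (b (b (a (a (l 4) (c (l 277797142775) (l 278334013687))) (a (a (b (l 145190027767) (l 16777056)) (l 16776768)) (l 16770968))) (a (a (l 279944626439) (a (b (l 158611800551) (l 16777072)) (c (l 16776872) (l 16776856)))) (l 16773160))) (a (a (b (b (a (l 182234120647) (l 16777080)) (a (l 16777088) (l 16776712))) (l 16773656)) (l 16773192)) (l 16771848))) (a (b (l 16771888) (l 16767512)) (c (l 16766696) (l 16769128))))) (a (b (a (b (l 16772616) (l 16767568)) (c (l 16766744) (l 16769184))) (a (c (l 16765016) (l 16764776)) (b (l 16769232) (l 16767448)))) (a (b (a (l 16767928) (l 16769656)) (l 16766560)) (b (l 16765704) (l 16764784))))), by decide +kernel⟩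

def k25_pm_011_t : ∃ t, chk3 f_pm_011_t t 266 1012 3 = true :=
  ⟨(a (l 4) (b (l 4) (b (l 4) (a (l 4) (b (b (l 4) (a (l 4) (a (l 4) (c (l 16777168) (l 16777160))))) (a (a (l 4) (b (l 4) (c (l 16777512) (l 16777176)))) (c (c (l 16776840) (l 16776824)) (a (a (l 98482257767) (l 16776944)) (l 16776648))))))))), by decide +kernel⟩

def k26_pm_011_t : ∃ t, chk3 f_pm_011_t t 266 1013 3 = true :=
  ⟨(a (a (b (l 4) (b (b (a (l 4) (a (l 4) (b (l 4) (c (l 99019129367) (l 106535322135))))) (a (a (l 4) (b (l 4) (c (l 104924709415) (l 111904031271)))) (b (a (c (l 100092871207) (l 107609063975)) (c (l 16777008) (l 16776992))) (c (l 16776168) (l 16776792))))) (a (b (b (a (c (l 124252062183) (l 112440902199)) (c (l 16777024) (l 16777016))) (c (l 134989477719) (l 16775504))) (c (l 16773632) (l 16770944))) (c (l 16773208) (l 16773104))))) (b (b (l 4) (b (b (l 4) (a (l 4) (a (l 4) (c (l 70564971079) (l 79691776583))))) (a (b (l 4) (a (l 4) (c (l 93113549319) (l 84523614807)))) (b (a (c (l 72175583831) (l 83986743879))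 (c (l 16776968) (l 16776952))) (c (l 16776776) (l 16776752)))))) (c (a (b (b (c (a (l 16777096) (l 16776800)) (l 16776912)) (l 16773592)) (l 16772376)) (c (l 16772400) (l 16772320))) (b (b (b (a (a (l 88818582103) (l 16776976)) (l 16776328)) (l 119420219111)) (l 16773072)) (l 16771776))))) (b (b (a (a (a (l 4) (b (l 4) (b (l 4) (c (l 64659391031) (l 77007421991))))) (b (a (l 4) (b (l 4) (c (l 60901294615) (l 71101841943)))) (c (c (l 16776880) (l 16776864)) (a (b (l 75396809239) (l 16776920)) (l 16776696))))) (b (c (a (c (l 16776856) (l 16776848)) (l 16770856)) (a (a (b (l 16777512) (l 16776896)) (l 16776672)) (l 16770776))) (c (l 16773088) (l 16772976)))) (a (c (a (b (c (l 9361686295) (l 16776880)) (l 16773544)) (l 16773120)) (b (b (a (a (l 93650420199) (l 16776928)) (l 16776280)) (l 16774976)) (l 16773024))) (c (l 16771888) (l 16771688)))) (c (c (a (l 16771184) (l 16766952)) (a (l 16771056) (l 16766768))) (a (c (l 16770936) (l 16770152)) (l 16769112))))), by decide +kernel⟩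

def k27_pm_011_t : ∃ t, chk3 f_pm_011_t t 267 1012 3 = true :=
  ⟨(a (a (b (l 4) (b (b (b (l 4) (a (l 4) (a (l 4) (c (l 16777144) (l 16777136))))) (a (a (l 4) (b (l 4) (c (l 16777152) (l 16777152)))) (c (c (l 16776808) (l 16776792)) (c (l 16776776) (a (l 16776960) (l 16776592)))))) (a (c (c (l 124252057511) (l 16776424)) (c (l 133915733687) (a (b (l 35131490087) (l 16776192)) (l 16770936)))) (c (l 16773032) (l 16770296))))) (b (b (l 4) (a (a (c (l 296050753895) (l 298735108455)) (b (l 4) (b (c (l 219278213511) (l 220351955335)) (c (l 16777128) (l 16777120))))) (b (a (c (l 215520117319) (l 217667600967)) (b (c (l 210151407991) (l 212298891639)) (c (l 16777112) (l 16777104)))) (c (c (l 16776768) (l 16776752)) (c (l 16776736) (l 16776384)))))) (c (b (c (c (l 16773408) (l 16773384)) (l 115125249943)) (l 16771808)) (a (a (b (b (l 16776952) (l 16776160)) (l 16774888)) (l 16772680)) (l 16772024))))) (a (b (b (b (a (l 4) (a (c (l 195119022679) (l 197803377239)) (b (c (l 16777264) (l 16777264)) (c (l 16777080)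 (l 16777072))))) (a (a (c (l 201024602727) (l 205856440919)) (b (c (l 16777440) (l 178476024263)) (c (l 16777096) (l 16777088)))) (c (l 130157638935) (l 16775368)))) (c (c (l 100092864583) (l 16773960)) (a (a (l 130694508759) (l 16770856)) (l 16770200)))) (c (c (l 16768424) (l 16768296)) (l 16770064))) (b (b (c (c (l 16773312) (l 16773264)) (a (l 121567702247) (l 16770152))) (c (l 16771728) (l 16768896))) (c (b (l 16772776) (l 16771200)) (l 16766360))))), by decide +kernel⟩

def k28_pm_011_t : ∃ t, chk3 f_pm_011_t t 267 1013 3 = true :=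
  ⟨(c (b (a (c (b (l 16771096) (l 16766912)) (a (l 16770992) (l 16766712))) (c (l 16764520) (l 16765552))) (a (c (l 16764552) (c (l 16764352) (l 16764216))) (a (l 16767240) (l 16765640)))) (a (b (a (c (l 16768240) (l 16770728)) (l 16766424)) (c (l 16765320) (l 16763728))) (b (c (l 16763968) (l 16763688)) (a (l 16766512) (l 16764792))))), by decide +kernel⟩

def k29_pm_011_t : ∃ t, chk3 f_pm_011_t t 133 507 3 = true :=
  ⟨(a (b (c (a (b (c (a (l 16771248) (l 16767000)) (a (c (l 16771160) (l 16768472)) (l 16769440))) (c (l 16765928) (b (l 16765176) (l 16768760)))) (b (c (l 16764584) (c (l 16764384) (l 16764248))) (a (l 16767264) (l 16765640)))) (a (b (a (a (l 16771384) (l 16770496)) (l 16768512)) (a (b (l 16770944) (l 16769192)) (l 16763056))) (b (a (l 16767408) (l 16763032)) (c (l 16760624) (l 16760224))))) (b (a (c (a (l 16767272) (l 16765632)) (c (l 16760624) (l 16760232))) (c (l 16763192) (l 16756928))) (a (c (l 16763160) (a (l 16763024) (l 16761264))) (c (l 16759912) (l 16758656))))) (b (c (a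 (b (a (l 16767256) (l 16765640)) (l 16763216)) (c (l 16756664) (l 16756104))) (a (b (a (l 16766528) (l 16764800)) (l 16762200)) (b (l 16762216) (l 16758768)))) (a (b (a (l 16760176) (l 16758520)) (l 16755960)) (c (l 16749920) (l 16753552))))), by decide +kernel⟩

def k30_pm_011_t : ∃ t, chk3 f_pm_011_t t 134 504 1 = true :=
  ⟨(a (l 4) (b (l 4) (b (l 4) (a (l 4) (b (b (l 4) (b (l 4) (a (l 4) (a (l 4) (a (l 4) (c (a (l 191897796951) (l 16777360)) (c (l 16777216) (l 16777216)))))))) (a (b (l 4) (b (l 4) (a (l 4) (a (l 4) (a (l 4) (b (l 4) (c (l 16777192) (l 48016392471)))))))) (c (a (c (b (a (l 4) (b (l 4) (l 102240354759))) (b (a (l 105461580247) (l 16777040)) (l 16776888))) (b (l 152706220967) (l 16776968))) (b (a (b (a (l 212835762487) (l 16777448)) (l 16777024)) (l 106535319559)) (l 16775048))) (b (a (a (l 4) (c (l 126399546071) (l 125325804295))) (c (c (l 16776928) (l 16776920)) (l 39426457223))) (c (c (l 16776600) (l 16776576)) (a (c (l 16776928) (l 16776920)) (l 16776184))))))))))), by decide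 +kernel⟩

def k31_pm_011_t : ∃ t, chk3 f_pm_011_t t 268 1010 1 = true :=
  ⟨(a (l 4) (a (l 4) (b (l 4) (b (l 4) (a (b (l 4) (a (b (l 4) (c (a (c (l 103850967415) (l 16777232)) (l 16777312)) (c (l 16777168) (l 16777160)))) (c (b (a (c (l 100629741927) (l 16777232)) (l 16777136)) (l 16776920)) (c (l 16777008) (l 16776992))))) (b (a (b (l 4) (c (a (a (l 151095607607) (l 16777376)) (l 16777128)) (c (l 16777152) (l 16777144)))) (c (b (a (a (l 140895060279) (l 16777208)) (l 16777120)) (l 16776896)) (c (l 16776984) (l 16776968)))) (c (c (l 16775272) (l 16776528)) (c (l 16776480) (l 16776424))))))))), by decide +kernel⟩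

def k32_pm_011_t : ∃ t, chk3 f_pm_011_t t 269 1010 2 = true :=
  ⟨(a (a (b (a (l 4) (a (l 4) (b (l 4) (b (l 4) (c (l 270280949975) (l 208540795447)))))) (b (b (a (c (l 282092110119) (l 229478761143)) (a (c (b (l 202635215239) (c (l 16777304) (l 16777136))) (l 16777192)) (a (b (l 38889587143) (l 16776928)) (l 16776424)))) (a (b (a (l 224646922631) (c (c (l 29762781543) (l 16777144)) (l 16777144))) (c (c (a (l 33520877943) (l 16776888)) (l 16777000)) (l 16776992))) (l 16775200))) (a (b (l 16775552) (l 16774536)) (a (l 16774352) (l 16773992))))) (b (a (b (l 4) (c (b (c (l 269744079111) (l 271891562759)) (b (a (l 191897796983) (l 16777280)) (a (l 17951621431) (l 16776832)))) (b (l 194582152007) (l 14193525543)))) (b (c (c (b (l 4) (l 260617273607)) (l 271354691991)) (l 273502175623)) (b (c (a (b (l 160759284151) (l 16777104)) (c (l 16776952) (l 16776944))) (l 16777512)) (l 16775144)))) (c (a (b (l 16774872) (l 16772248)) (b (l 16774192) (l 16774192))) (l 16772400)))) (b (a (b (b (c (b (a (l 4) (a (l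 115662127591) (l 16777056))) (a (a (l 4) (l 120493965815)) (l 16776912))) (a (l 173107315575) (l 16776984))) (a (c (a (b (l 133378867671) (l 16777088)) (l 16776928)) (l 16777008)) (l 16775096))) (c (c (l 16774352) (l 16773152)) (l 16770440))) (c (c (b (l 16774472) (l 16771888)) (l 16772440)) (l 16772312))) (c (a (b (l 16772856) (l 16773184)) (c (l 16769976) (l 16772408))) (c (l 16769648) (l 16767512))))), by decide +kernel⟩

def k33_pm_011_t : ∃ t, chk3 f_pm_011_t t 269 1010 3 = true :=
  ⟨(a (b (b (a (l 4) (a (l 4) (c (c (l 204782699623) (l 206930183271)) (l 280481497479)))) (a (a (l 4) (c (l 287460819367) (l 291755786647))) (a (b (c (l 197803377479) (l 199950861127)) (c (c (l 16777024) (l 16777016)) (a (l 59827553047) (l 16776904)))) (c (c (l 16776672) (l 16776656)) (a (b (l 56069456631) (l 16776520)) (l 16776480)))))) (a (b (b (a (c (l 233236857527) (l 296050753815)) (c (c (l 16777048) (l 16777040)) (a (a (l 16777568) (l 16777144)) (l 16776928)))) (c (a (c (l 16777064) (l 16777056)) (l 16776424))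 (a (a (a (l 117809611399) (l 16777160)) (l 16776944)) (l 16776368)))) (c (l 16773048) (l 16770312))) (c (c (l 16769656) (l 16769568)) (l 16772056)))) (a (b (b (b (a (a (l 4) (c (l 158611800711) (l 150558737111))) (c (a (l 16777448) (l 16776856)) (c (l 16776952) (l 55532584663)))) (b (a (c (l 37815845607) (l 61438165623)) (l 16775656)) (c (l 16773880) (l 16776448)))) (c (l 16772944) (l 16770200))) (c (l 16770664) (l 16767752))) (c (b (c (l 16769560) (l 16769472)) (l 16769104)) (b (l 16771952) (l 16771320))))), by decide +kernel⟩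

def k34_pm_011_t : ∃ t, chk3 f_pm_011_t t 268 1011 2 = true :=
  ⟨(a (b (b (l 4) (a (l 4) (a (b (l 4) (c (b (a (l 4) (a (l 209614536967) (l 46942650743))) (a (a (l 213372633367) (l 50163876231)) (l 16777016))) (a (l 112977773319) (l 16777088)))) (b (b (a (l 4) (a (l 167738605911) (c (l 16777344) (l 16777176)))) (a (a (l 176865411415) (c (l 42647683431) (l 16777184))) (l 16776984))) (c (c (l 16775864) (l 16776656)) (l 16776624)))))) (a (b (b (a (l 4) (c (b (a (l 4) (a (l 239679308007) (l 53921972631))) (a (a (l 4) (l 61438165399)) (l 16777032))) (a (l 130694513351) (l 16777104)))) (a (c (b (a (l 4) (a (l 4) (l 73786196359))) (a (a (l 4) (l 81839260039)) (l 16777048))) (a (l 152169349751) (l 16777112))) (c (c (c (l 109219673719) (l 16776712)) (l 16776704)) (l 16776672)))) (a (b (a (b (c (l 16777144) (l 16777048)) (l 16775416)) (l 16775232)) (l 16775040)) (c (l 16774408) (l 16770352)))) (c (b (a (a (b (l 114051512439) (l 16776200)) (l 16774880)) (l 16774368)) (c (l 16773424) (l 16772008))) (b (l 16773952)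 (l 16769232))))) (a (b (b (b (a (l 4) (b (a (l 4) (a (c (l 132841996599) (l 16777240)) (l 10435428727))) (a (a (l 128547029383) (c (l 16777168) (l 16777160))) (l 16776936)))) (a (b (a (l 4) (a (l 132305125783) (c (l 16777168) (l 16777160)))) (a (a (l 141431931287) (a (l 16777408) (l 16777160))) (l 16776960))) (c (l 16775968) (l 16776576)))) (c (a (b (l 87744836743) (l 16774680)) (l 16774320)) (l 16773256))) (c (b (c (l 16773384) (l 16771976)) (l 16772000)) (l 16771096))) (b (c (b (c (a (l 16774984) (l 16774312)) (l 16773288)) (c (l 16773352) (l 16774560))) (c (l 16772528) (l 16769832))) (c (b (l 16771968) (l 16771952)) (l 16769624))))), by decide +kernel⟩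

def k35_pm_011_t : ∃ t, chk3 f_pm_011_t t 269 1011 2 = true :=
  ⟨(a (a (b (c (b (a (l 16773600) (l 16774232)) (l 16770632)) (l 16771024)) (c (a (l 16768976) (l 16770928)) (l 16770776))) (b (c (b (l 16770600) (l 16771904)) (l 16766936)) (b (l 16767688) (l 16768936)))) (b (c (a (a (l 16771552) (l 16770880)) (l 16767264)) (l 16766072)) (c (c (l 16765480) (l 16767728)) (l 16767160)))), by decide +kernel⟩

def k36_pm_011_t : ∃ t, chk3 f_pm_011_t t 134 1011 3 = true :=
  ⟨(b (a (a (b (l 4) (a (l 4) (b (a (l 4) (c (c (l 39963329495) (l 16777120)) (a (c (l 16777256) (l 109219676935)) (l 81839259447)))) (a (a (b (l 4) (c (l 16777224) (l 16777216))) (c (c (l 16777080) (l 16777080)) (l 95797903159))) (c (l 16776576) (l 16776536)))))) (b (a (b (a (l 4) (a (b (l 4) (c (l 16777184) (l 16777176))) (c (l 16777024) (l 16777008)))) (a (a (b (l 4) (c (l 16777200) (l 16777192))) (c (l 63585648471) (l 16777032))) (c (l 16776528) (l 16776480)))) (c (l 16773096) (l 16772992))) (c (c (l 16772392) (l 16772312)) (a (l 16773040)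 (l 16773960))))) (a (c (c (l 16767416) (l 16768560)) (a (l 16767840) (l 16766152))) (c (b (l 16764968) (l 16768680)) (l 16763632)))) (a (a (a (b (b (a (l 4) (a (a (l 4) (c (l 108145934999) (l 118346482311))) (c (c (l 16777096) (l 16777096)) (c (l 16777088) (l 99555999639))))) (c (a (a (l 154853704311) (a (l 50163876519) (l 16777072))) (l 16776624)) (a (a (l 147337511623) (a (l 63048778391) (l 16777056))) (l 16776584)))) (c (c (l 16773264) (l 16770600)) (a (l 16773576) (l 16770096)))) (c (c (l 81302379223) (l 91502926071)) (b (l 16773752) (l 16768808)))) (c (c (l 16768800) (c (l 16767368) (l 16767288))) (a (l 16770552) (l 16766224)))) (c (a (c (l 16769640) (l 16764112)) (l 16761136)) (a (c (l 16769072) (l 16758296)) (l 16765576))))), by decide +kernel⟩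

def k37_pm_011_t : ∃ t, chk3 f_pm_011_t t 540 252 1 = true :=
  ⟨(b (b (l 4) (b (a (a (l 4) (a (l 4) (b (l 4) (b (l 4) (b (l 4) (c (a (l 131231383943) (l 16777168)) (c (l 16777184) (l 16777184)))))))) (b (b (l 4) (b (l 4) (a (l 4) (a (l 4) (c (c (l 16777328) (l 16777160)) (c (l 16777152) (l 16777144))))))) (a (b (a (l 4) (b (l 4) (c (c (l 38889587207) (l 16777176)) (c (l 16777168) (l 16777168))))) (c (a (b (c (l 45868909063) (l 16777184)) (l 16776952)) (l 16776776)) (c (l 16776856) (l 16776832)))) (c (a (b (a (b (l 87744840135) (l 16777016)) (l 16776984)) (l 16773808)) (l 16775432)) (c (l 122641444791) (l 16775112)))))) (b (c (a (a (b (b (l 4) (a (l 4) (a (l 169349218631) (l 16777176)))) (b (a (a (l 174717927767) (l 16777184)) (l 16776984)) (l 102240352231))) (b (b (a (c (l 69491229143) (l 16777200)) (l 16776960)) (l 16775496)) (l 16774992))) (c (c (l 16774384) (l 16773008)) (l 16770296))) (a (a (b (a (l 4) (c (l 95797904167) (l 103850967847))) (c (l 21172846295) (l 16776880))) (c (c (l 16776544)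 (l 16776512)) (l 137136959319))) (c (l 16770160) (l 16770032)))) (c (c (a (c (l 16774432) (l 16773056)) (l 16773064)) (l 16772240)) (c (c (l 16769488) (l 16769392)) (l 16771872)))))) (b (c (c (a (b (b (l 16773104) (l 16773120)) (c (l 16771296) (l 16771048))) (b (c (l 16769912) (l 16772344)) (l 16769848))) (b (c (l 16770232) (l 16767440)) (l 16767344))) (b (c (c (l 16767264) (l 16767096)) (c (l 16766912) (l 16766736))) (c (c (l 16769544) (l 16769256)) (l 16763576)))) (b (c (c (c (l 16768088) (l 16767712)) (l 16767136)) (c (l 16766360) (l 16765552))) (c (c (l 16765280) (l 16764304)) (c (l 16763304) (l 16762272)))))), by decide +kernel⟩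

def k38_pm_011_t : ∃ t, chk3 f_pm_011_t t 541 252 1 = true :=
  ⟨(b (b (b (l 4) (b (a (l 4) (b (l 4) (a (l 4) (c (b (a (l 4) (l 140358189575)) (a (l 155390575111) (l 16777096))) (a (c (l 191897797207) (l 182770991767)) (c (l 16777144) (l 16777136))))))) (a (b (l 4) (a (l 4) (c (c (b (l 205856440903) (a (l 206930182535) (l 16777136))) (l 83449873415)) (a (c (l 226794406423) (l 228405019159)) (c (l 16777184) (l 16777176)))))) (c (b (a (a (c (l 201024602679) (l 16777312)) (b (l 169886089703) (l 16777440))) (c (c (l 16776816) (l 16776800)) (l 16776776))) (c (c (a (l 16776840) (l 16776216)) (l 16776488)) (l 16776448))) (b (c (c (c (l 16776952) (l 16776944)) (l 16777760)) (a (a (l 205319570007) (l 16777160)) (l 16776704))) (c (l 16773768) (l 16773704))))))) (b (a (c (a (a (b (b (l 4) (c (c (l 16777360) (l 16777024)) (l 16777008))) (l 16774760)) (b (b (b (l 223573180807) (c (l 16777152) (l 16777144))) (l 16776720)) (l 16774416))) (b (c (c (b (a (l 16777008) (l 16776728)) (l 16776264)) (l 16776528)) (l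 16776488)) (l 16773896))) (b (b (a (a (l 4) (c (l 16777520) (l 16777192))) (c (l 16776792) (l 16776752))) (c (l 117809606503) (l 112440893415))) (c (l 16770104) (l 16769968)))) (c (c (b (l 16773928) (l 16771672)) (l 16772128)) (c (l 16771928) (l 16769112)))) (c (c (a (b (l 16771712) (l 16773056)) (a (l 16770088) (l 16772048))) (c (l 16767536) (l 16767360))) (c (c (l 16767184) (l 16767008)) (l 16768048))))) (b (b (c (c (a (l 16768504) (l 16769816)) (l 16764672)) (c (c (l 16769488) (l 16769200)) (l 16763520))) (c (c (c (l 16768072) (l 16767696)) (l 16767120)) (c (l 16766336) (l 16765528)))) (b (c (c (l 16765288) (l 16764312)) (c (l 16763304) (l 16762272))) (c (c (l 16762680) (l 16761488)) (c (l 16760264) (l 16759000)))))), by decide +kernel⟩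

def k39_pm_011_t : ∃ t, chk3 f_pm_011_t t 271 1008 1 = true :=
  ⟨(a (b (a (a (l 4) (b (l 4) (b (l 4) (c (a (b (l 4) (l 108145934903)) (b (l 103850967591) (l 16777056))) (a (c (l 140895060679) (l 160222413431)) (c (l 16777112) (l 16777104))))))) (b (b (l 4) (a (l 4) (a (b (l 4) (c (l 87744840199) (c (l 16777216) (l 16777216)))) (c (b (a (l 16777264) (l 16777192)) (l 16777008)) (c (l 16777080) (l 16777072)))))) (c (b (a (a (b (l 4) (l 99556000279)) (b (l 95261032967) (l 16777032))) (l 86671095175)) (c (c (l 16775120) (l 16776392)) (l 16776344))) (c (c (b (l 10972298983) (l 16776296)) (l 16776968)) (a (c (l 59290681127) (b (l 58753811447) (l 16776600))) (l 16776192)))))) (a (c (b (b (a (b (a (l 4) (l 115662127671)) (a (l 136063222263) (l 16777072))) (c (l 16776760) (l 16776720))) (a (c (l 16776784) (l 16776744)) (l 16773480))) (c (l 16774208) (l 16770144))) (a (c (b (c (c (l 16776928) (l 16776920)) (l 16776912)) (l 16775624)) (b (b (a (l 167738606215) (l 16777120)) (l 16776672)) (l 16775504))) (c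 (l 85597348519) (l 16772848)))) (c (c (b (l 16774160) (l 16771592)) (l 16769408)) (c (l 16771824) (l 16769000))))) (c (c (b (a (b (a (b (a (a (l 185455346151) (l 99019129367)) (c (l 16777416) (l 16777080))) (l 16776688)) (l 16775040)) (l 16774112)) (b (l 16772760) (l 16774128))) (c (b (l 16770976) (l 16769744)) (l 16770184))) (b (a (b (a (c (l 16777528) (l 16776856)) (l 16776280)) (l 16770032)) (l 16769304)) (l 16769920))) (b (c (a (c (c (l 118346474135) (l 121030828487)) (b (l 16776472) (l 16775088))) (l 16771720)) (a (b (a (c (l 16776808) (b (l 52848231335) (l 16776544))) (l 16776128)) (l 16769728)) (l 16768880))) (c (c (l 16767024) (l 16766840)) (l 16766552))))), by decide +kernel⟩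

def k40_pm_011_t : ∃ t, chk3 f_pm_011_t t 271 1009 1 = true :=
  ⟨(a (c (b (c (a (a (l 16771984) (l 16770672)) (l 16770024)) (l 16768688)) (c (a (l 16768448) (l 16769776)) (l 16764624))) (b (c (c (l 16767104) (l 16766920)) (l 16766648)) (c (l 16766664) (l 16763456)))) (b (c (c (c (l 16767896) (l 16770232)) (l 16764568)) (c (l 16763992) (l 16768632))) (c (c (l 16765224) (l 16767072)) (c (l 16766272) (l 16765456))))), by decide +kernel⟩

def k41_pm_011_t : ∃ t, chk3 f_pm_011_t t 271 505 1 = true :=
  ⟨(c (b (c (a (b (c (l 16768056) (l 16767672)) (l 16765296)) (b (l 16765296) (l 16762736))) (a (c (l 16760680) (l 16760240)) (l 16757688))) (c (a (b (l 16762712) (l 16760112)) (l 16753632)) (a (l 16754872) (l 16757360)))) (b (c (a (b (l 16766304) (l 16763304)) (l 16756568)) (a (c (l 16758872) (l 16753160)) (b (l 16762264) (l 16759056)))) (c (c (l 16752408) (l 16746432)) (a (l 16752160) (l 16754208))))), by decide +kernel⟩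

def k42_pm_011_t : ∃ t, chk3 f_pm_011_t t 134 506 1 = true :=
  ⟨(a (b (c (c (a (a (b (a (b (l 16773752) (l 16773712)) (b (l 16774376) (l 16773024))) (b (l 16772024) (l 16770664))) (b (b (l 16772032) (l 16772000)) (c (l 16770120) (l 16769832)))) (a (b (c (l 16768800) (l 16771184)) (l 16768616)) (b (c (l 16770088) (l 16769800)) (l 16767264)))) (a (b (a (c (l 16771232) (l 16768480)) (l 16769680)) (c (l 16767640) (l 16764752))) (b (c (l 16767608) (l 16764712)) (l 16764568)))) (a (b (c (c (c (l 16767600) (l 16767520)) (b (l 16768200) (l 16766600))) (a (l 16770632) (l 16766296))) (c (c (l 16764480) (l 16764200)) (c (l 16763928) (l 16763640)))) (c (b (c (l 16769680) (l 16764160)) (l 16761176)) (b (c (l 16763880) (l 16763592)) (l 16760376))))) (b (c (a (c (a (l 16766008) (l 16767264)) (l 16763264)) (c (c (l 16765480) (l 16765000)) (l 16764272))) (c (a (l 16762496) (l 16763272)) (a (a (l 16766496) (l 16764784)) (l 16762248)))) (c (a (c (c (l 16765456) (l 16764984)) (l 16764256)) (c (l 16762528) (l 16761336)))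 (c (a (l 16763256) (l 16760112)) (a (l 16762232) (l 16758856)))))) (a (b (c (c (a (b (l 16768600) (l 16765920)) (b (l 16767256) (l 16764592))) (b (l 16761928) (l 16764280))) (c (b (l 16761160) (l 16763288)) (b (l 16760360) (l 16762256)))) (b (c (a (l 16762672) (l 16761288)) (c (l 16760152) (l 16758896))) (c (l 16761792) (l 16756272)))) (c (b (c (b (l 16762648) (l 16762608)) (b (l 16764296) (l 16761416))) (b (l 16761856) (l 16756432))) (b (c (b (l 16763296) (l 16760192)) (c (l 16755648) (l 16755072))) (c (l 16755512) (l 16753912)))))), by decide +kernel⟩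

def k43_pm_011_t : ∃ t, chk3 f_pm_011_t t 134 507 1 = true :=
  ⟨(b (b (a (a (c (a (l 16762592) (l 16761192)) (a (l 16760264) (l 16758632))) (c (l 16761720) (l 16756200))) (c (a (l 16756344) (l 16753624)) (a (l 16752992) (l 16749824)))) (c (a (a (l 16761648) (l 16756248)) (a (l 16753504) (l 16750792))) (a (c (l 16750056) (l 16753696)) (a (l 16749696) (l 16746544))))) (b (a (c (a (l 16756144) (l 16753376)) (a (l 16752784) (l 16749568))) (c (a (l 16750648) (l 16750536)) (a (l 16746392) (l 16743184)))) (a (c (a (l 16753256) (l 16750496)) (a (l 16749432) (l 16746224))) (c (a (b (l 16748488) (l 16747344)) (l 16747440)) (a (c (l 16745704) (l 16741960)) (l 16741040)))))), by decide +kernel⟩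

def k44_pm_011_t : ∃ t, chk3 f_pm_011_t t 135 253 1 = true :=
  ⟨(a (a (b (c (b (b (a (l 16762728) (l 16761376)) (l 16761920)) (c (l 16755992) (l 16754264))) (b (c (l 16758688) (b (l 16758976) (l 16755656))) (c (l 16752480) (l 16750648)))) (b (c (l 16752808) (l 16745072)) (b (a (c (l 16747400) (l 16741040)) (c (l 16745168) (l 16739944))) (l 16741992)))) (b (c (b (b (l 16759352) (l 16756608)) (c (l 16753432) (l 16751488))) (b (c (l 16755664) (l 16754064)) (l 16743224))) (b (a (c (l 16750144) (l 16742712)) (b (l 16747896) (c (l 16744904) (l 16739640)))) (c (l 16743920) (l 16738256))))) (b (c (a (b (c (l 16756184) (l 16754464)) (l 16752456)) (b (c (l 16753672) (l 16751736)) (l 16747248))) (b (c (l 16743344) (l 16738784)) (c (l 16745064) (l 16742672)))) (b (b (b (c (l 16747672) (l 16739808)) (a (l 16742408) (a (l 16743680) (l 16739488)))) (a (c (l 16744936) (l 16738104)) (l 16741888))) (c (l 16742072) (l 16735784))))), by decide +kernel⟩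

def k45_pm_011_t : ∃ t, chk3 f_pm_011_t t 132 127 1 = true :=
  ⟨(b (a (a (l 14) (a (l 14) (b (b (b (b (c (c (l 16771472) (l 16770312)) (c (l 16769792) (l 16769256))) (a (l 14) (c (l 16768688) (l 16767352)))) (l 14)) (l 14)) (l 14)))) (b (b (c (a (a (b (c (b (l 16769376) (l 16767936)) (l 16765352)) (a (l 16766992) (l 16766248))) (b (c (l 16768528) (l 16766424)) (c (l 16764336) (l 16763312)))) (b (c (a (l 16765792) (l 16764376)) (a (l 16764888) (l 16763360))) (c (l 16763520) (l 16761016)))) (b (a (a (c (l 16767280) (l 16763936)) (c (l 16765608) (l 16764776))) (c (l 16763128) (a (l 16762992) (l 16761224)))) (a (c (l 16757848) (a (l 16762968) (l 16761184))) (c (l 16759792) (l 16758528))))) (a (a (l 14) (b (c (l 16762128) (l 16758240)) (l 14))) (a (c (b (l 16759344) (l 16756328)) (b (l 16756536) (l 16753040))) (b (c (l 16757888) (l 16754848)) (b (l 16756576) (c (l 16754160) (l 16750504))))))) (a (l 14) (a (l 14) (b (c (l 16753200) (l 16749112)) (l 14)))))) (l 14)), by decide +kernel⟩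

def k46_pm_011_t : ∃ t, chk3 f_pm_011_t t 133 127 1 = true :=
  ⟨(b (b (b (a (c (a (c (b (l 16763584) (l 16759408)) (b (l 16761080) (l 16757992))) (b (a (l 16759512) (l 16758072)) (l 16758448))) (a (c (b (l 16759856) (l 16756528)) (b (l 16758592) (l 16755032))) (b (l 16755880) (l 16752448)))) (c (b (a (l 16758560) (l 16753120)) (a (c (l 16753888) (l 16752008)) (b (l 16752216) (l 16750648)))) (b (a (l 16752560) (l 16749288)) (a (l 16752376) (b (l 16746696) (l 16745608)))))) (a (c (b (a (l 16758336) (b (l 16753600) (a (l 16752808) (l 16751720)))) (a (b (a (l 16754168) (l 16752904)) (l 16752824)) (l 16751608))) (b (a (l 16752320) (a (l 16752392) (b (l 16749040) (l 16747656)))) (a (b (a (l 16750528) (l 16749040)) (l 16748896)) (l 16747384)))) (a (a (b (b (c (l 16751536) (l 16747448)) (l 16748800)) (l 16748312)) (c (l 16750944) (l 16745776))) (c (l 16749216) (l 16744352))))) (b (c (a (b (l 16751720) (l 16751320)) (l 16749024)) (a (l 16749528) (l 16743616))) (c (a (l 16750728) (l 16748240)) (a (l 16745368)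 (l 16742088))))) (b (a (a (l 14) (b (l 16735744) (l 14))) (c (l 16736632) (l 16739840))) (b (c (l 16726320) (l 16739272)) (l 14)))), by decide +kernel⟩

def k47_pm_011_t : ∃ t, chk3 f_pm_011_t t 67 127 1 = true :=
  ⟨(b (a (b (b (a (a (c (b (b (l 16751072) (l 16751296)) (l 16748792)) (b (c (l 16747120) (l 16744896)) (l 16744136))) (b (b (c (l 16749784) (l 16743840)) (a (l 16748440) (l 16745000))) (l 16747520))) (c (b (l 16746136) (l 16745624)) (l 16743128))) (c (a (l 16747392) (l 16745008)) (a (l 16741936) (l 16738784)))) (c (a (b (l 16746584) (l 16745816)) (l 16733344)) (b (l 16728328) (l 16737296)))) (b (c (a (b (l 16743504) (l 16742688)) (l 16740832)) (a (l 16736464) (l 16733448))) (c (b (l 16740776) (l 16740024)) (c (l 16734080) (l 16729704))))) (b (c (a (b (l 16743888) (l 16743176)) (l 16717984)) (a (b (l 16735808) (l 16734352)) (l 16728976))) (b (c (a (l 16721520) (l 16716840)) (a (l 16732880) (l 16726680))) (a (a (l 16714808) (l 16711712)) (l 16707232))))), by decide +kernel⟩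

def k48_pm_011_t : ∃ t, chk3 f_pm_011_t t 34 124 1 = true :=
  ⟨(a (l 4) (b (l 4) (a (l 4) (b (l 4) (a (l 4) (b (l 4) (a (b (l 4) (b (a (l 4) (c (c (l 246121759159) (l 163443640039)) (c (l 165591123719) (l 170959832807)))) (a (c (c (l 257932919271) (l 181697250967)) (c (l 183307863735) (l 331484229031))) (c (a (b (l 123715191831) (l 16776968)) (l 16776672)) (c (c (l 16776816) (l 16776792)) (l 16776768)))))) (b (a (c (c (b (l 4) (l 235384340855)) (l 300882591399)) (c (l 330410488183) (l 326115517495))) (b (a (l 4) (b (l 4) (c (l 16777520) (a (l 160222413511) (l 16777448))))) (c (c (c (l 16777440) (l 16776760)) (l 16776728)) (c (l 16776688) (l 16776640))))) (c (a (a (b (b (l 98482258983) (l 16776912)) (l 16776104)) (l 16773440)) (l 16772576)) (a (b (c (l 16776744) (l 16776704)) (l 16772952)) (c (l 16764448) (l 16764272)))))))))))), by decide +kernel⟩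

def k49_pm_011_t : ∃ t, chk3 f_pm_011_t t 68 250 2 = true :=
  ⟨(a (l 4) (b (l 4) (a (l 4) (b (l 4) (b (b (l 4) (b (l 4) (a (l 4) (a (l 4) (a (l 4) (a (l 165591122583) (l 16777152))))))) (a (b (l 4) (a (l 4) (a (l 4) (a (l 4) (b (l 4) (l 71638713159)))))) (a (b (a (l 4) (a (l 279944626535) (b (l 4) (l 43721425751)))) (a (b (a (l 4) (l 71101842215)) (l 16776896)) (l 103314092391))) (b (b (a (a (l 185992217255) (l 16777496)) (l 16776808)) (l 96871641351)) (l 16773024))))))))), by decide +kernel⟩

def k50_pm_011_t : ∃ t, chk3 f_pm_011_t t 136 502 2 = true :=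
  ⟨(a (l 4) (b (l 4) (a (l 4) (b (l 4) (b (a (l 4) (b (a (l 4) (c (a (l 136063222375) (l 16777120)) (l 16777160))) (c (a (a (l 146263769719) (l 16777128)) (l 16776752)) (l 16776920)))) (a (b (a (l 4) (a (l 152169349863) (a (l 53385102039) (l 16777120)))) (a (a (l 174181057191) (a (l 70028100295) (l 16777136))) (l 16776784))) (c (l 16774856) (l 16776080)))))))), by decide +kernel⟩

def k51_pm_011_t : ∃ t, chk3 f_pm_011_t t 272 503 2 = true :=
  ⟨(b (a (l 4) (b (l 4) (b (a (l 4) (b (b (l 4) (a (l 4) (a (l 4) (l 16777192)))) (a (a (l 4) (b (l 4) (l 16777536))) (c (c (l 16776952) (l 16776944)) (l 16776920))))) (a (b (a (l 4) (a (l 4) (b (l 4) (l 96334774791)))) (a (a (l 4) (b (l 4) (l 99019129383))) (a (b (l 94187291159) (l 16777040)) (l 16776872)))) (c (a (c (b (l 16777384) (l 16776432)) (l 16776672)) (l 16773464)) (l 16776304)))))) (a (b (b (a (l 4) (a (c (c (l 269744079255) (l 273502175623)) (l 198340248759)) (b (a (l 4) (a (l 4) (l 137136964199))) (a (b (l 133378867703) (l 16777088)) (l 16776920)))))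 (a (a (c (c (l 283165852071) (l 285850206631)) (l 286387077543)) (b (c (l 270280950023) (l 205856441079)) (a (b (l 185455346119) (l 16777128)) (l 16777056)))) (a (b (a (b (l 153779962375) (l 16777112)) (l 16776952)) (l 16776496)) (l 16774840)))) (a (b (b (a (a (b (l 218204471687) (l 16777144)) (c (l 16777008) (l 16776984))) (l 16776528)) (l 16774912)) (c (l 16772704) (l 16775176))) (c (c (l 16772088) (l 16769368)) (l 16769208)))) (b (b (b (a (a (a (b (l 107072193063) (l 16777064)) (l 16776896)) (l 16776408)) (l 16772792)) (a (l 16774800) (l 16772160))) (c (c (l 16772680) (l 16769296)) (l 16769128))) (c (a (l 16770760) (l 16769496)) (l 16767136))))), by decide +kernel⟩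

def k52_pm_011_t : ∃ t, chk3 f_pm_011_t t 273 503 2 = true :=
  ⟨(b (a (b (a (b (l 4) (b (b (l 4) (a (l 4) (a (l 4) (l 16777160)))) (a (a (l 4) (b (l 4) (l 16777176))) (c (l 16776904) (l 16776872))))) (b (b (a (l 4) (a (l 192971539127) (a (l 83449873095) (l 16777480)))) (a (a (l 213909504631) (a (l 107609064071) (l 26004685527))) (c (l 16776856) (l 16776824)))) (c (c (c (l 100092866135) (l 16776280)) (l 16776256)) (l 16776192)))) (a (c (a (b (b (l 16777168) (l 16776360)) (l 16775448)) (l 16772800)) (l 16772976)) (b (l 16773024) (l 16771104)))) (c (b (a (a (b (l 16775224) (l 16775344)) (l 16772696)) (l 16771760)) (c (l 16770064) (l 16767256))) (b (a (l 16770248) (l 16768896)) (l 16766968)))) (b (a (c (a (l 16770680) (l 16769424)) (l 16767048)) (c (l 16767552) (l 16769584))) (c (a (c (l 16767744) (l 16770080)) (l 16767736)) (c (l 16763224) (l 16762872))))), by decide +kernel⟩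

def k53_pm_011_t : ∃ t, chk3 f_pm_011_t t 274 251 2 = true :=
  ⟨(b (b (a (b (l 4) (a (l 4) (c (b (l 4) (a (l 4) (l 286923948471))) (l 291218916199)))) (b (a (l 4) (c (b (l 4) (a (l 4) (l 258469790071))) (l 277260272407))) (b (c (b (a (l 4) (a (l 190824055511) (l 16777352))) (a (l 272428433815) (a (c (l 16777056) (l 16777040)) (l 16776512)))) (a (l 280481497639) (a (l 37278975527) (l 16776720)))) (a (a (b (c (l 205856441095) (l 16777352)) (a (a (l 107609064071) (l 16777168)) (l 16777000))) (c (c (b (l 16777400) (l 16776584)) (l 16776800)) (l 16776768))) (l 16774576))))) (a (b (b (a (l 4) (a (b (l 4) (a (a (l 143042544231) (l 16777536)) (l 16777048))) (b (a (a (l 130694513239) (l 16777192)) (l 16777024)) (l 16776608)))) (b (a (a (l 4) (a (c (l 93113549527) (l 16777248)) (l 16777072))) (l 16775008)) (a (a (a (c (l 115662127767) (l 16777256)) (l 12046041671)) (l 16776672)) (l 16773080)))) (c (c (a (l 79154897671) (l 16771720)) (l 16772232)) (l 16772080))) (c (a (b (l 16773448) (l 16770424)) (b (l 16771560)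 (l 16771824))) (b (l 16769352) (l 16766792))))) (a (b (c (b (c (l 16769992) (l 16767176)) (l 16767496)) (c (l 16765704) (l 16765456))) (c (c (l 16762784) (l 16766272)) (l 16760360))) (b (c (b (l 16767440) (l 16767680)) (l 16762928)) (b (l 16762160) (l 16762272))))), by decide +kernel⟩

def k54_pm_011_t : ∃ t, chk3 f_pm_011_t t 275 251 2 = true :=
  ⟨(a (b (b (b (b (a (c (a (l 4) (l 246121758391)) (l 260080402903)) (b (a (a (l 4) (l 90966065943)) (l 16776920)) (c (l 16776664) (l 16776616)))) (a (c (b (a (l 149484995447) (l 16776976)) (c (l 16776728) (l 16776704))) (a (l 16777960) (l 16776664))) (l 16773144))) (c (a (l 16772680) (l 16771464)) (l 16769232))) (c (b (c (l 16769832) (l 16772256)) (l 16764760)) (l 16765432))) (c (b (c (l 16761440) (l 16766232)) (l 16761680)) (b (l 16760304) (l 16760376)))) (b (b (b (c (a (l 16772568) (l 16771360)) (l 16769120)) (c (l 16769648) (l 16771856))) (c (c (l 16765024) (l 16763360)) (l 16762824))) (b (c (l 16758832) (l 16762968)) (c (l 16759328) (l 16757816))))),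 by decide +kernel⟩

def k55_pm_011_t : ∃ t, chk3 f_pm_011_t t 138 250 2 = true :=
  ⟨(b (a (l 4) (b (l 4) (a (b (l 4) (b (l 4) (a (l 4) (b (a (l 4) (a (l 4) (l 16777240))) (a (c (l 135526351751) (l 16777296)) (l 16776952)))))) (b (b (l 4) (a (l 4) (a (a (l 195119023159) (b (l 4) (l 16777176))) (a (b (l 16777464) (l 16776984)) (l 16777416))))) (b (a (a (a (l 4) (b (l 4) (l 16777216))) (b (c (l 101166613383) (l 16777248)) (l 16776896))) (l 82376125431)) (a (c (l 16776384) (l 16776312)) (l 16769904))))))) (a (b (a (b (l 4) (b (l 4) (b (l 4) (a (l 4) (a (l 4) (a (l 90966065943) (l 16777072))))))) (a (b (l 4) (b (b (l 279944626615) (a (l 4) (c (l 16777104) (l 16777088)))) (a (a (b (l 16777632) (l 16776808)) (l 16776768)) (l 16776328)))) (b (b (l 4) (a (l 273502175639) (b (l 172570444759) (c (l 16777064) (l 16777040))))) (c (b (a (c (l 16776840) (l 16776824)) (l 16776296)) (l 16770232)) (l 16775896))))) (a (b (a (b (a (l 4) (b (l 4) (a (l 121030836999) (l 16777120)))) (b (a (a (l 144116286151) (l 16777128))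 (l 16776752)) (l 16775160))) (c (b (a (b (l 39963329463) (l 16776736)) (l 16776424)) (l 16770344)) (l 16776016))) (c (c (l 16771912) (l 16769176)) (l 16769008))) (c (b (c (l 16771808) (l 16769072)) (l 16769480)) (l 16767656)))) (a (b (b (b (a (b (c (l 252564210023) (l 172033574199)) (a (l 164517381047) (l 16777000))) (c (l 16776440) (l 16776368))) (a (c (a (l 16776776) (l 16770992)) (l 16776432)) (l 16772648))) (c (l 16771640) (l 16763528))) (c (a (l 16767544) (l 16765072)) (l 16765112))) (b (c (b (l 16771536) (l 16766696)) (l 16767448)) (b (l 16765448) (l 16761800)))))), by decide +kernel⟩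

def k56_pm_011_t : ∃ t, chk3 f_pm_011_t t 139 250 2 = true :=
  ⟨(a (b (b (a (b (l 4) (b (l 4) (a (l 4) (a (b (l 4) (l 45868909575)) (c (l 16777576) (l 16776888)))))) (b (b (a (l 4) (c (l 270280950295) (l 201024603703))) (b (a (l 4) (a (l 182770992055) (l 16777048))) (a (l 278870884775) (c (l 16776824) (l 16776784))))) (a (b (a (b (l 223036310295) (l 16777768)) (c (l 16776864) (l 16776832))) (l 16776088)) (l 16772840)))) (b (b (a (a (a (b (l 4) (a (l 16777288) (l 16777136))) (c (c (l 16777632) (l 16776960)) (l 16776944))) (l 16773536)) (l 16771744)) (c (a (l 16773064) (l 16773392)) (l 16769064))) (c (a (l 16771424) (l 16766520)) (l 16767288)))) (c (b (a (c (l 16765640) (l 16765368)) (l 16763232)) (c (l 16760192) (l 16759680))) (b (c (l 16763872) (l 16758304)) (l 16758896)))) (b (a (b (b (a (b (a (b (l 150021866503) (l 16777024)) (l 16776736)) (l 16775952)) (l 16772704)) (c (l 16768584) (l 16763048))) (b (l 16768160) (l 16763936))) (b (c (c (l 16770128) (l 16767312)) (l 16761776)) (c (l 16763128)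 (l 16767608)))) (c (b (c (l 16760152) (l 16754400)) (l 16755512)) (b (l 16753608) (l 16759328))))), by decide +kernel⟩

def k57_pm_011_t : ∃ t, chk3 f_pm_011_t t 69 251 2 = true :=
  ⟨(a (a (b (a (b (c (b (l 16769568) (l 16769888)) (l 16765272)) (b (l 16763232) (l 16764744))) (c (b (c (l 16763616) (l 16768504)) (l 16764080)) (b (l 16762712) (l 16762960)))) (b (c (c (l 16755680) (l 16760224)) (l 16753920)) (c (l 16750616) (l 16754048)))) (b (c (a (b (l 16761120) (l 16761776)) (b (l 16764072) (l 16759512))) (b (l 16758944) (l 16759224))) (a (b (l 16756296) (l 16751424)) (b (l 16753960) (l 16749104))))) (b (b (a (c (c (l 16761048) (l 16760352)) (l 16759280)) (c (l 16756328) (l 16754520))) (a (c (l 16756176) (l 16754368)) (c (l 16751848) (l 16749656)))) (a (c (b (l 16751608) (l 16746984)) (l 16736416)) (c (l 16734560) (l 16742256))))), by decide +kernel⟩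

def k58_pm_011_t : ∃ t, chk3 f_pm_011_t t 68 250 3 = true :=
  ⟨(a (l 4) (b (l 4) (a (l 4) (b (l 4) (a (b (l 4) (a (l 4) (c (c (l 269207208647) (l 271891563207)) (l 345979746471)))) (a (b (l 4) (b (c (c (l 151095609063) (l 154316834535)) (l 320209943287)) (c (c (l 16776728) (l 16776704)) (a (c (l 16777000) (l 16777648)) (l 16776440))))) (b (c (c (l 255248564839) (l 248269242983)) (l 326115522055)) (c (c (l 16776056) (l 16776008)) (b (a (l 22246589703) (l 16776368)) (l 16775312)))))))))), by decide +kernel⟩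

def k59_pm_011_t : ∃ t, chk3 f_pm_011_t t 68 502 3 = true :=
  ⟨(b (a (l 4) (a (a (a (l 4) (a (l 4) (b (l 4) (c (l 297124496071) (l 329873621207))))) (a (b (l 4) (b (c (a (l 4) (l 205319570615)) (l 334705459079)) (a (b (c (l 216056988407) (l 215520117511)) (c (l 16777064) (l 16777048))) (c (l 16776728) (l 16776696))))) (b (c (c (l 283702723351) (l 285850206999)) (l 357254036599)) (a (a (b (c (l 91502937287) (l 89892324663)) (l 16773608)) (b (c (l 16777720) (l 16777048)) (l 16773232))) (c (l 109756540407) (l 16770680)))))) (a (b (b (a (c (a (l 4) (l 168812348695)) (l 342758522039)) (c (c (l 16776776) (l 16776760)) (a (c (l 16777032) (l 40500200759)) (l 16776504)))) (a (c (c (l 16776824) (l 16776808)) (a (a (l 75933680951) (l 16777024)) (l 16776568))) (c (l 16765104) (l 16764976)))) (c (l 16771640) (l 16768792))) (c (c (l 16767624) (l 16767456)) (c (l 16762040) (l 16767112)))))) (a (a (l 4) (a (l 4) (b (l 4) (b (a (l 4) (b (a (l 4) (c (l 16777152) (l 16777144))) (c (c (l 16776904) (l 16776888)) (a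 (l 16777160) (l 16776632))))) (a (a (b (l 4) (c (l 68417487895) (l 70028100711))) (c (c (l 16776936) (l 16776928)) (c (l 16776912) (l 75396808567)))) (c (l 16775992) (l 16770656))))))) (a (b (a (b (a (l 4) (a (b (l 4) (c (l 16777096) (l 16777080))) (c (l 16777112) (l 16776752)))) (a (a (b (l 4) (c (l 16777136) (l 16777120))) (c (a (l 16776992) (l 16776728)) (l 50163875431))) (c (l 16775864) (l 16775760)))) (c (l 16771104) (l 16768928))) (c (a (c (l 16769312) (l 16769208)) (l 16766376)) (a (l 16770368) (l 16760712)))) (a (c (c (l 16759792) (l 16759528)) (l 16764368)) (c (l 16762088) (l 16756088)))))), by decide +kernel⟩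

def k60_pm_011_t : ∃ t, chk3 f_pm_011_t t 136 503 3 = true :=
  ⟨(a (b (b (l 4) (a (l 4) (b (a (l 4) (b (a (l 4) (c (l 121567708087) (l 119420224519))) (a (c (l 136600093655) (l 132841997271)) (c (l 16776896) (l 16776872))))) (a (a (c (c (l 187065959575) (l 189213443223)) (l 270280950103)) (b (c (l 153243091863) (l 138747577319)) (c (l 16776944) (l 16776928)))) (c (l 114588379703) (l 16774184)))))) (a (b (b (a (l 4) (b (c (c (l 194045281447) (l 196192765095)) (l 274575917431)) (a (c (l 202635215591) (l 194582151991)) (c (l 16776992) (l 16776976))))) (a (a (c (l 223573181527) (l 294977012119)) (b (c (l 209614537463) (l 201024602951)) (c (l 16777040) (l 16777024)))) (c (c (l 16776352) (l 16776320)) (a (c (l 16776664) (l 16776640)) (l 16775928))))) (c (a (c (b (l 16776400) (l 16775056)) (l 119420215303)) (l 16768992)) (a (a (a (b (l 56069454231) (l 16775456)) (l 16773192)) (l 16769976)) (l 16768768)))) (c (b (a (c (l 16772992) (l 16770304)) (l 16768880)) (l 16768720)) (b (a (b (l 136600086903) (l 16774720))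 (l 16768648)) (l 16766360))))) (b (a (b (b (a (l 4) (b (a (l 4) (c (l 71638713415) (l 74859938951))) (a (c (l 87207969799) (l 86671098967)) (c (l 16776792) (l 16776760))))) (a (b (a (l 4) (c (l 92039808039) (l 100092871719))) (a (c (l 105461580791) (l 103850968135)) (c (l 16776848) (l 16776816)))) (c (l 16773488) (l 16776032)))) (c (c (l 16771504) (l 16770752)) (a (l 105461570455) (l 16763280)))) (c (b (c (l 16769424) (l 16769328)) (l 16766568)) (b (a (l 16769968) (l 16763160)) (l 16760920)))) (a (c (c (l 16765360) (l 16765104)) (a (l 16765520) (l 16758696))) (c (a (l 16763040) (l 16761592)) (c (l 16756528) (l 16756160)))))), by decide +kernel⟩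

def k61_pm_011_t : ∃ t, chk3 f_pm_011_t t 137 503 3 = true :=
  ⟨(c (a (a (b (c (l 16759960) (l 16764944)) (l 16759432)) (b (c (l 16767632) (l 16756776)) (l 16761832))) (b (c (l 16752992) (l 16757712)) (l 16747152))) (a (b (a (l 16764224) (l 16761464)) (b (l 16758472) (l 16755424))) (b (c (l 16757176) (l 16751392)) (a (l 16757648) (l 16754664))))), by decide +kernel⟩

def k62_pm_011_t : ∃ t, chk3 f_pm_011_t t 138 250 3 = true :=
  ⟨(b (b (l 4) (a (l 4) (a (b (l 4) (b (l 4) (a (l 4) (c (c (l 53385103271) (l 16777032)) (c (l 59827554295) (l 263301625447)))))) (b (b (l 4) (a (l 4) (a (c (l 123715192103) (l 118883354039)) (c (l 16776968) (l 16776944))))) (b (a (a (c (l 130694514055) (l 133378868663)) (c (l 16777016) (l 16777000))) (c (l 16776168) (l 16776088))) (c (l 16770312) (l 16775424))))))) (b (a (a (b (l 4) (a (l 4) (c (b (l 4) (c (l 98482259847) (l 107609065287))) (l 314304361559)))) (b (a (l 4) (c (b (l 4) (c (l 80765519687) (l 86134228823))) (l 303566943767))) (a (b (c (c (l 86671099799) (l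 93113550727)) (l 287997688007)) (c (l 16776488) (l 16776432))) (c (l 105461572023) (l 16770432))))) (c (a (b (a (b (c (l 64122521511) (l 16777704)) (l 16776368)) (l 16770416)) (l 16768512)) (c (l 16761928) (l 16761744))) (a (b (b (a (a (l 188139701495) (l 49090135431)) (l 16776232)) (l 16770328)) (l 16763000)) (l 16766704)))) (c (a (a (b (b (a (c (l 116198999831) (l 115662128999)) (c (l 16776568) (l 16776536))) (c (l 16775968) (l 16775912))) (l 16768768)) (c (l 16762152) (l 16761976))) (c (l 16758120) (l 16763024))) (a (a (b (a (b (l 304640686615) (a (l 16776896) (l 16776296))) (l 132841988327)) (l 16763280)) (l 16766952)) (b (l 16758696) (l 16755848)))))), by decide +kernel⟩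

def k63_pm_011_t : ∃ t, chk3 f_pm_011_t t 139 250 3 = true :=
  ⟨(b (a (b (b (a (l 4) (c (c (a (l 358327777287) (b (l 207467054535) (l 16776920))) (l 278870881591)) (c (l 281018363783) (a (l 347053481399) (l 259543526375))))) (b (a (l 4) (a (a (c (l 64122521047) (l 266522851767)) (c (l 16776800) (l 16776768))) (l 16774176))) (a (a (l 4) (a (c (l 77007422967) (l 82913003031)) (c (l 16776856) (l 16776824)))) (c (l 16775272) (l 16775120))))) (a (b (a (c (c (a (l 16778144) (l 16776344)) (l 16776512)) (b (a (l 95797904935) (l 16776888)) (l 16776008))) (c (l 16775384) (l 16775240))) (c (l 16763008) (l 16762720))) (c (l 16766848) (l 16761200)))) (b (c (a (b (c (l 16775688) (l 16775624)) (l 16762744)) (l 16766608)) (a (b (a (b (l 15804138999) (l 16775680)) (l 16774920)) (l 16762440)) (l 16760944))) (c (c (l 16757808) (l 16757456)) (c (l 16757104) (l 16756744))))) (b (a (c (c (l 16757960) (l 16757624)) (c (l 16757272) (l 16756920))) (c (l 16757776) (l 16751424))) (a (c (a (l 16764400) (l 16761760)) (l 16756736))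 (c (l 16757864) (l 16756352))))), by decide +kernel⟩

def k64_pm_011_t : ∃ t, chk3 f_pm_011_t t 69 251 3 = true :=
  ⟨(a (b (a (b (c (c (l 16763504) (a (l 16759352) (l 16767016))) (a (l 16758936) (l 16755952))) (c (c (l 16763440) (l 16752424)) (c (l 16751888) (l 16761824)))) (c (b (c (l 16763392) (l 16752376)) (l 16757768)) (b (c (l 16751832) (l 16761768)) (l 16745776)))) (b (a (c (l 16757704) (l 16750968)) (c (l 16752344) (l 16750432))) (a (c (l 16752184) (l 16750264)) (l 16735224)))) (b (c (a (c (l 16745096) (l 16744256)) (l 16739536)) (a (b (l 16756312) (l 16750584)) (b (l 16750736) (l 16745064)))) (a (c (l 16744424) (l 16731400)) (b (l 16740712) (l 16735128))))), by decide +kernel⟩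

def k65_pm_011_t : ∃ t, chk3 f_pm_011_t t 140 248 1 = true :=
  ⟨(l 4), by decide +kernel⟩

def k66_pm_011_t : ∃ t, chk3 f_pm_011_t t 140 498 1 = true :=
  ⟨(a (l 4) (b (l 4) (a (b (l 4) (b (a (l 4) (c (c (a (l 135526352151) (l 16777048)) (l 16777032)) (c (c (l 16776824) (l 16776680)) (l 44258297943)))) (c (a (c (a (l 162906768567) (l 16777736)) (l 16776984)) (l 16776384)) (c (c (l 16776688) (l 16776664)) (a (l 255785432535) (l 16776200)))))) (a (b (b (l 4) (c (a (c (l 116735870231) (l 16776792)) (l 5603591175)) (c (c (l 16776944) (l 16776848)) (l 37278975975)))) (c (l 16773160) (c (l 16775600) (l 16775472)))) (c (b (c (a (b (l 96871646503) (l 16776552)) (l 16776472)) (l 16776592)) (l 16769424)) (b (b (c (l 19025364839) (l 16776944)) (l 16773448)) (l 16771600))))))), by decide +kernel⟩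

def k67_pm_011_t : ∃ t, chk3 f_pm_011_t t 140 499 1 = true :=
  ⟨(a (a (b (b (l 4) (b (a (l 4) (a (l 4) (c (b (l 211762021207) (l 16777112)) (c (l 16776776) (l 16776448))))) (a (a (l 4) (b (l 4) (c (l 16777152) (a (l 97945387847) (l 16777072))))) (c (c (l 16776656) (l 16776608)) (c (l 16776560) (l 16776504)))))) (c (a (b (c (b (c (l 16776728) (l 16776704)) (l 16775736)) (l 16776128)) (l 16768792)) (c (l 16771480) (l 16763344))) (c (c (l 16768984) (l 16768872)) (a (l 103850953687) (l 16762776))))) (c (b (b (b (a (l 4) (c (a (l 184381605015) (l 31373395223)) (l 16777616))) (a (a (l 204245828871) (a (l 94187291879) (l 16777848))) (l 16776512))) (c (a (l 16776096) (l 16769784)) (l 16775408))) (b (l 16770712) (l 16765920))) (b (c (b (a (b (l 4) (c (l 16776528) (l 16776240))) (c (l 16778336) (l 16776760))) (l 16770008)) (b (b (l 299271973191) (a (c (l 16775960) (l 92039808807)) (l 16776352))) (l 16775096))) (c (l 16766368) (l 16760688))))) (c (c (b (a (b (l 77544283703) (l 16768144)) (l 16767016)) (c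 (l 16764144) (l 16763800))) (b (a (l 16768920) (l 16761336)) (l 16758032))) (c (b (c (l 16767480) (l 16766640)) (a (l 16758568) (l 16766536))) (b (a (l 16768400) (l 16760424)) (l 16756560))))), by decide +kernel⟩

def k68_pm_011_t : ∃ t, chk3 f_pm_011_t t 141 248 1 = true :=
  ⟨(b (l 4) (a (b (l 4) (a (l 4) (a (l 4) (c (c (l 338463553351) (l 335779194007)) (c (l 333094845143) (l 328262991671)))))) (b (b (l 4) (a (l 4) (c (c (l 311083136727) (l 310009391959)) (c (l 308935647175) (l 307325031495))))) (a (c (b (c (l 322894297111) (l 321283680983)) (a (b (a (l 4) (l 120493966727)) (a (l 16777048) (l 16776616))) (c (l 16776304) (l 16776216)))) (b (c (l 319673064855) (l 316451835991)) (b (a (c (l 145190029063) (l 145726900023)) (c (l 16776680) (l 16776632))) (c (l 16776160) (l 16776072))))) (a (b (b (a (l 4) (c (l 73249326583) (b (l 225183793959) (l 208003922359)))) (c (l 16776680) (c (l 16776608) (l 16776560)))) (c (l 16775216) (l 16772240))) (c (c (l 78081153207) (l 16775032)) (c (l 16769608) (l 16774656)))))))),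 by decide +kernel⟩

def k69_pm_011_t : ∃ t, chk3 f_pm_011_t t 141 249 1 = true :=
  ⟨(b (c (a (b (b (b (a (l 4) (a (l 327726135847) (c (l 16776880) (l 16776848)))) (a (l 343295391559) (a (c (c (l 16776944) (l 16776928)) (l 16776904)) (l 16775944)))) (a (b (a (l 349200972439) (a (a (l 97408517351) (l 16777120)) (l 16776816))) (a (a (a (l 122641450183) (l 16777800)) (l 16776872)) (l 16776096))) (l 16772328))) (c (a (a (l 16769464) (l 16768400)) (l 16766816)) (l 16767512))) (c (b (a (l 16768688) (l 16766608)) (c (l 16763880) (l 16758272))) (b (l 16767256) (l 16757720)))) (a (b (a (b (c (l 340074158743) (l 334705445271)) (b (a (c (l 226794407351) (l 225720665559)) (c (l 16776928) (l 16776904))) (a (c (l 16776984) (l 16776960)) (l 16770656)))) (b (a (b (c (l 178476025543) (l 183307863719)) (c (l 16776872) (l 16776840))) (c (l 16776272) (l 16776192))) (c (l 16774656) (l 16774448)))) (c (c (l 16761984) (l 16761800)) (a (l 16762856) (l 16749672)))) (c (b (c (l 16761720) (l 16761520)) (l 16762200)) (b (l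 16761208) (l 16745688))))) (a (b (c (c (c (l 16764024) (l 16758424)) (l 16757880)) (c (l 16762384) (l 16756376))) (c (c (l 16759776) (l 16763936)) (c (l 16762824) (l 16761680)))) (c (c (b (l 16759712) (l 16760936)) (l 16753808)) (c (b (l 16762736) (l 16757984)) (c (l 16748864) (l 16737696)))))), by decide +kernel⟩

def k70_pm_011_t : ∃ t, chk3 f_pm_011_t t 71 124 2 = true :=
  ⟨(b (a (b (a (b (l 4) (a (l 4) (b (l 4) (c (c (l 283165849671) (l 287997686807)) (l 287997685207))))) (b (b (l 4) (a (l 4) (b (l 319673068919) (a (c (l 182234121767) (l 16775328)) (l 16777544))))) (b (a (a (l 342758517783) (b (l 192971540279) (c (l 16777016) (l 16776992)))) (c (a (l 16777192) (l 16775608)) (l 16775944))) (a (c (a (b (l 16778032) (l 16776304)) (l 16775760)) (l 16776080)) (l 16768872))))) (b (a (a (b (a (l 4) (c (l 271354690087) (l 106535324343))) (b (a (a (l 174181057911) (l 16777760)) (l 16776480)) (l 16776024))) (b (a (b (a (l 126936417735) (l 16777040)) (l 16776408)) (l 16775848)) (l 16774392))) (a (c (l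 16768192) (l 16762608)) (l 16765920))) (a (c (a (l 16768440) (l 16766392)) (l 16761760)) (c (l 16763368) (l 16757352))))) (a (b (b (a (b (a (l 311620005527) (b (c (l 124788934279) (l 16775832)) (l 16776760))) (c (l 16775920) (l 16775800))) (c (l 75933668055) (l 16774664))) (c (c (l 16767056) (l 16761592)) (l 16761248))) (c (a (l 16761632) (l 16760320)) (l 16755096))) (b (b (c (l 16766696) (l 16760976)) (c (l 16757776) (l 16767440))) (b (l 16758712) (l 16749528))))) (c (a (b (a (b (l 16763528) (l 16754376)) (c (l 16757888) (l 16752008))) (a (b (l 16760912) (l 16756928)) (l 16744488))) (a (b (l 16748392) (l 16751104)) (b (l 16755016) (l 16747288)))) (a (b (a (c (l 16755640) (l 16755160)) (l 16751024)) (b (l 16746792) (l 16742472))) (b (c (l 16745080) (l 16744152)) (l 16736160))))), by decide +kernel⟩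

def k71_pm_011_t : ∃ t, chk3 f_pm_011_t t 71 124 3 = true :=
  ⟨(b (a (b (a (b (l 4) (a (l 4) (c (c (l 305177547255) (l 305714416183)) (b (l 4) (l 279944617239))))) (a (b (l 4) (b (c (a (l 224110053575) (l 245584884823)) (l 271891554791)) (c (c (l 16776008) (l 16775952)) (l 16775872)))) (c (b (c (l 277797132071) (l 279944614151)) (a (l 89355437031) (l 16774216))) (b (a (l 324504893207) (a (l 290145161287) (l 268133458215))) (l 16769304))))) (a (b (a (b (a (l 4) (b (l 4) (c (l 115125233559) (l 16776152)))) (b (a (c (l 16777512) (l 16775840)) (l 93650413895)) (c (l 16775864) (l 16775752)))) (c (c (l 16775088) (l 16775000)) (b (l 107072169495) (l 16773768)))) (c (l 16766584) (l 16760904))) (c (b (l 16766304) (l 16756552)) (b (l 16760608) (l 16766216))))) (c (b (a (b (b (a (a (l 175254800743) (c (l 16776920) (l 16776872))) (l 16775520)) (l 82912987559)) (l 16760776)) (c (l 16758472) (l 16758128))) (a (c (l 16743864) (l 16753840)) (l 16749456))) (b (b (a (a (a (b (l 136063177943) (l 16776176)) (l 161296145143))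 (l 16774216)) (l 16749480)) (a (l 16760288) (l 16765736))) (a (c (l 16742840) (l 16742320)) (l 16748048))))) (a (a (b (c (c (l 16754680) (l 16754192)) (b (l 16745464) (l 16761432))) (c (l 16745104) (l 16743368))) (b (c (l 16752312) (l 16749624)) (c (l 16750904) (l 16748776)))) (b (c (c (l 16732712) (l 16742240)) (a (l 16743264) (l 16748776))) (c (l 16723048) (l 16728216))))), by decide +kernel⟩

def k72_pm_011_t : ∃ t, chk3 f_pm_011_t t 70 125 1 = true :=
  ⟨(b (c (a (b (b (a (c (a (l 16765200) (l 16763024)) (l 16763416)) (c (l 16759816) (l 16763992))) (c (a (c (l 16760120) (l 16764840)) (l 16760856)) (a (l 16753560) (l 16759416)))) (c (a (b (l 16755568) (l 16756472)) (b (l 16756608) (l 16752320))) (a (c (l 16746944) (l 16746120)) (l 16741984)))) (a (b (c (c (l 16753984) (l 16747936)) (l 16746712)) (c (l 16739936) (l 16748056))) (b (c (l 16746944) (l 16752816)) (c (l 16746504) (l 16743768))))) (a (b (a (c (b (c (l 16757648) (l 16757288)) (l 16752472)) (b (l 16756744) (l 16751344))) (c (c (l 16750256)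 (l 16749600)) (c (l 16748936) (l 16748264)))) (c (b (a (l 16757904) (l 16752936)) (l 16739832)) (a (c (l 16743584) (l 16742712)) (l 16737800)))) (a (b (c (l 16745040) (b (l 16756440) (l 16751144))) (c (l 16745616) (l 16743096))) (b (c (l 16750760) (l 16738152)) (l 16729016))))) (a (a (c (b (b (l 16745752) (l 16746376)) (b (l 16741704) (l 16736992))) (b (b (l 16746480) (l 16741064)) (l 16722352))) (c (b (b (l 16746704) (l 16742136)) (c (l 16736936) (l 16733400))) (b (l 16728248) (l 16727896)))) (b (c (c (a (l 16741848) (l 16738016)) (l 16726120)) (b (l 16723608) (l 16728808))) (c (b (a (l 16733456) (l 16729480)) (a (b (l 16729968) (l 16728264)) (l 16726696))) (b (a (l 16725816) (l 16721040)) (a (b (l 16721696) (l 16719648)) (l 16717632))))))), by decide +kernel⟩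

def k73_pm_011_t : ∃ t, chk3 f_pm_011_t t 71 125 1 = true :=
  ⟨(b (c (a (a (b (a (l 16740240) (l 16738200)) (c (l 16742664) (l 16739560))) (b (c (l 16747008) (l 16744280)) (l 16737168))) (b (c (l 16730840) (l 16738064)) (c (l 16733320) (l 16729336)))) (a (b (c (l 16733280) (a (l 16743568) (l 16738584))) (c (l 16734104) (l 16730624))) (b (c (l 16734704) (l 16731240)) (l 16702152)))) (b (a (c (a (l 16732360) (b (l 16730688) (l 16726448))) (a (l 16724424) (b (l 16722408) (l 16717336)))) (c (b (a (l 16726816) (l 16723560)) (l 16722944)) (b (a (l 16717776) (l 16713816)) (l 16712952)))) (a (a (b (c (l 16726432) (l 16717344)) (l 16719944)) (c (l 16723752) (l 16713704))) (c (l 16721112) (l 16709992))))), by decide +kernel⟩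

def k74_pm_011_t : ∃ t, chk3 f_pm_011_t t 34 504 1 = true :=
  ⟨(b (a (a (c (a (c (a (a (b (a (l 16771160) (l 16770520)) (l 16770968)) (b (l 16769560) (l 16769688))) (b (c (l 16767800) (l 16770136)) (l 16765176))) (a (b (l 16767216) (l 16769760)) (c (l 16763288) (l 16762944)))) (a (c (b (l 16767768) (l 16765296)) (l 16760400)) (c (b (l 16765288) (l 16762832)) (l 16762968)))) (a (a (c (c (l 16765504) (b (l 16761504) (l 16769024))) (b (l 16766456) (l 16768568))) (c (c (l 16757352) (l 16762240)) (c (l 16761880) (l 16756272)))) (c (c (l 16758296) (c (l 16752664) (l 16757648))) (a (b (l 16765344) (l 16762232)) (l 16750192))))) (c (a (a (c (l 16761624) (l 16760320)) (c (l 16759224) (l 16757720))) (c (a (l 16756864) (l 16754528)) (l 16753880))) (a (c (l 16747080) (a (l 16757600) (l 16754568))) (c (l 16752008) (l 16750088))))) (a (c (a (c (l 16751096) (l 16748880)) (l 16737480)) (a (l 16734952) (l 16739968))) (c (a (l 16740832) (l 16736456)) (a (l 16734656) (l 16729488))))) (a (a (c (b (a (c (a (l 16765200)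 (l 16765296)) (c (l 16760648) (l 16760200))) (a (l 16756976) (l 16759664))) (a (a (a (l 16765472) (l 16764152)) (l 16758264)) (c (l 16759088) (l 16757584)))) (a (c (a (b (l 16766240) (l 16763296)) (l 16756584)) (a (b (l 16765424) (l 16762256)) (l 16755432))) (c (l 16749616) (c (l 16745888) (l 16745136))))) (c (a (c (a (l 16756704) (l 16754328)) (l 16753696)) (c (l 16750832) (l 16748608))) (a (c (l 16751824) (l 16749904)) (l 16734664)))) (a (a (c (c (l 16746288) (l 16743664)) (l 16739576)) (c (l 16740376) (l 16734168))) (c (a (b (l 16737152) (l 16734648)) (b (l 16732840) (l 16731384))) (a (b (l 16730344) (l 16727384)) (b (l 16725200) (l 16723440))))))), by decide +kernel⟩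

def k75_pm_011_t : ∃ t, chk3 f_pm_011_t t 35 504 1 = true :=
  ⟨(a (a (c (b (a (b (l 16733416) (l 16731184)) (l 16732896)) (l 16731512)) (b (a (b (l 16725880) (l 16723200)) (l 16720856)) (l 16720144))) (c (a (l 16726680) (l 16724984)) (l 16716128))) (c (a (l 16722560) (l 16719280)) (l 16688104))), by decide +kernel⟩

def k76_pm_011_t : ∃ t, chk3 f_pm_011_t t 17 505 1 = true :=
  ⟨(a (b (a (a (c (a (a (c (b (l 16762760) (l 16760216)) (l 16760192)) (c (l 16759000) (l 16757488))) (c (a (l 16756544) (l 16754120)) (l 16748264))) (c (a (a (l 16758856) (l 16755936)) (l 16751632)) (a (c (l 16751040) (l 16750288)) (l 16749704)))) (c (a (c (l 16750552) (l 16748320)) (c (l 16745920) (l 16743280))) (a (c (l 16746024) (l 16743656)) (l 16739176)))) (a (c (a (l 16739912) (b (l 16736624) (l 16737816))) (a (l 16733664) (b (l 16729776) (l 16729888)))) (a (b (c (l 16732904) (l 16725296)) (l 16733288)) (l 16731400)))) (a (a (c (a (c (a (l 16756368) (l 16753904)) (a (l 16754648) (l 16751968))) (c (l 16750264) (l 16748024)))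 (a (c (l 16751424) (l 16749496)) (c (l 16745720) (l 16743344)))) (a (c (c (l 16745544) (l 16742888)) (l 16738768)) (a (b (l 16744272) (l 16741456)) (b (l 16736464) (b (l 16734352) (l 16738128)))))) (a (c (a (b (a (l 16737200) (l 16735304)) (l 16735064)) (l 16733272)) (a (b (a (l 16730488) (l 16728216)) (l 16727848)) (l 16725520))) (c (l 16730352) (l 16721480))))) (a (c (a (l 16727272) (l 16723984)) (a (l 16717376) (l 16712728))) (c (l 16698216) (l 16705936)))), by decide +kernel⟩

def k77_pm_011_t : ∃ t, chk3 f_pm_011_t t 17 253 1 = true :=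
  ⟨(a (a (b (a (b (c (a (c (l 16752592) (l 16747720)) (a (l 16745072) (l 16745184))) (a (c (l 16745400) (l 16743016)) (a (l 16739792) (l 16736848)))) (a (c (b (l 16744784) (a (l 16743288) (l 16741288))) (b (l 16739488) (a (l 16737728) (l 16735352)))) (a (b (c (l 16741112) (l 16735136)) (l 16739352)) (c (l 16739160) (l 16732712))))) (b (b (a (c (a (l 16741488) (l 16739072)) (l 16738672)) (c (l 16736728) (l 16729872))) (a (a (b (l 16741480) (l 16739888)) (l 16738920)) (l 16732368))) (c (l 16736304) (l 16728856)))) (a (a (a (b (c (l 16741472) (l 16735408)) (l 16742280)) (b (l 16740904) (l 16735760))) (c (l 16738136) (l 16730712))) (c (c (l 16737072) (l 16732936)) (l 16726496)))) (b (c (a (c (l 16734824) (l 16730680)) (l 16729040)) (a (l 16724240) (l 16719096))) (c (a (l 16731088) (l 16727400)) (a (l 16721120) (l 16716016))))) (c (a (a (b (l 16725560) (l 16723960)) (l 16700544)) (b (l 16696600) (l 16695104))) (a (a (l 16691720) (l 16708120)) (a (l 16703664) (l 16699160))))), by decide +kernel⟩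

def k78_pm_011_t : ∃ t, chk3 f_pm_011_t t 17 127 1 = true :=
  ⟨(a (b (a (b (c (a (b (l 16737960) (l 16737176)) (l 16733424)) (a (l 16718568) (l 16723432))) (c (a (l 16715072) (l 16731944)) (a (l 16726056) (l 16720480)))) (c (b (a (l 16729528) (l 16725880)) (l 16705280)) (b (a (l 16718104) (l 16713048)) (l 16691672)))) (b (a (c (b (l 16711944) (l 16711280)) (a (l 16723160) (l 16717632))) (c (l 16703984) (l 16709856))) (a (b (c (l 16710072) (l 16696784)) (l 16698752)) (c (l 16699032) (l 16683160))))) (b (a (c (b (l 16699912) (l 16719544)) (b (l 16705992) (l 16703184))) (c (l 16693088) (l 16674808))) (b (a (a (l 16690464) (l 16686704)) (a (l 16662008) (l 16658216))) (a (b (l 16664096) (l 16679368)) (l 16673800))))), by decide +kernel⟩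

def k79_pm_011_t : ∃ t, chk3 f_pm_011_t t 18 60 1 = true :=
  ⟨(a (l 4) (b (l 4) (a (l 4) (b (l 4) (a (b (l 4) (a (l 4) (c (b (c (l 294977011367) (l 294976987703)) (a (c (b (l 298735097127) (l 109219653639)) (l 113514600103)) (c (b (l 100092850935) (l 16775304)) (l 16775880)))) (c (b (l 295513855943) (c (l 103314051111) (l 108682759639))) (b (l 293366369607) (b (l 120493919735) (l 16765240))))))) (b (b (a (l 4) (a (l 4) (c (c (l 257932909799) (l 119420176599)) (c (l 119957045991) (l 125325754407))))) (c (a (a (l 4) (a (l 4) (l 262764747559))) (b (a (c (l 122104547991) (l 16774424)) (l 16775960)) (l 85597343975))) (a (c (l 284239570679) (l 283702697575)) (c (a (l 105461547447) (l 16774816)) (l 110830254935))))) (a (c (a (b (b (a (l 4) (l 121567682631)) (l 153243084743)) (l 16774104)) (c (l 82912984295) (l 16773656))) (a (b (c (l 110293379399) (l 118346442423)) (l 16768312)) (c (l 16773360) (l 16773048)))) (c (c (l 16771120) (l 16770576)) (c (l 16770024) (l 16769448)))))))))), by decide +kernel⟩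

def k80_pm_011_t : ∃ t, chk3 f_pm_011_t t 36 122 1 = true :=
  ⟨(a (l 4) (b (l 4) (a (b (l 4) (a (l 4) (a (l 4) (b (l 4) (c (b (l 4) (l 296587615319)) (c (l 303030056551) (l 301419441063))))))) (b (a (l 4) (a (l 4) (b (l 4) (b (l 4) (c (a (l 173107316167) (c (l 32984009015) (l 16776664))) (c (l 185455322423) (l 124788896871))))))) (a (b (a (l 4) (b (l 4) (c (c (l 272428427271) (l 120493968887)) (c (l 134452567751) (l 129620728679))))) (b (a (c (l 284776461687) (a (l 4) (c (l 16763656) (l 16773696)))) (c (c (l 16776432) (l 16776360)) (c (l 16776280) (l 16776192)))) (c (a (c (c (l 16776600) (l 16776568)) (l 16776520)) (l 16774752)) (c (l 90966043351) (l 16764768))))) (b (b (a (c (a (l 314304355911) (c (l 68954360087) (l 16775960))) (c (l 120493927063) (l 127473248071))) (c (l 16776064) (c (l 16775904) (l 16775792)))) (c (c (l 13656650951) (l 16775200)) (c (l 16775024) (l 16774840)))) (c (c (l 16762416) (l 16751528)) (c (l 16751120) (l 16750704))))))))), by decide +kernel⟩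

def k81_pm_011_t : ∃ t, chk3 f_pm_011_t t 36 492 1 = true :=
  ⟨(a (l 4) (a (c (a (b (a (l 4) (b (l 4) (l 320746804151))) (a (c (a (l 293903261047) (b (l 4) (l 16776856))) (l 261154136583)) (b (a (b (l 4) (l 16776856)) (l 4529849399)) (l 16775512)))) (a (b (b (l 308398774263) (a (a (l 111367162087) (l 30299654359)) (l 16776536))) (l 16774440)) (b (a (b (a (l 78081165575) (l 16776984)) (l 16775632)) (l 16775512)) (l 16762000)))) (c (a (a (c (c (l 274039024167) (l 274575894151)) (l 276186526455)) (b (l 318599309927) (b (l 205319564391) (l 16775280)))) (b (c (a (a (l 123178269223) (l 30836526919)) (l 16775720)) (l 195655882151)) (l 16772952))) (a (b (l 314841201031) (a (l 260080397015) (l 144653134743))) (b (a (b (l 304640672871) (l 161296135927)) (l 16765072)) (l 16772600))))) (c (c (a (a (l 16767272) (l 16760152)) (l 16762568)) (b (l 16760376) (l 16756656))) (c (a (l 16762656) (l 16755568)) (a (l 16759480) (l 16744168)))))), by decide +kernel⟩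

def k82_pm_011_t : ∃ t, chk3 f_pm_011_t t 36 493 1 = true :=
  ⟨(a (a (l 4) (a (b (l 4) (b (c (c (a (l 4) (l 264375365623)) (l 285850194647)) (c (c (l 286923934551) (l 288534546007)) (b (l 313767472823) (l 282628968183)))) (a (a (l 4) (b (l 4) (c (l 16777032) (a (l 269744077367) (l 16776920))))) (c (c (l 16776216) (l 16776120)) (c (l 16776024) (l 16775920)))))) (b (a (b (l 4) (c (a (l 306251294295) (b (l 132305127335) (l 16776840))) (c (c (l 79154908487) (l 16774600)) (l 124788892647)))) (c (b (a (c (l 148411255159) (l 16776736)) (b (l 99019130711) (l 16776696))) (l 16775856)) (b (c (c (l 16778128) (l 16775352)) (l 122641412183)) (c (l 16775672) (l 16775544))))) (c (c (a (l 16775224) (l 16762880)) (l 16774016)) (c (l 81302371623) (l 16773448)))))) (c (a (a (c (b (l 16770032) (l 16760056)) (l 16763928)) (b (l 16764648) (l 16755808))) (c (a (l 16754240) (l 16750448)) (l 16751024))) (a (c (a (b (l 16762872) (l 16748320)) (l 16756376)) (a (l 95797874215) (l 16745032))) (c (c (l 16739520) (l 16738824))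 (c (l 16738120) (l 16737408)))))), by decide +kernel⟩

def k83_pm_011_t : ∃ t, chk3 f_pm_011_t t 72 247 1 = true :=
  ⟨(a (a (b (b (l 4) (c (a (b (l 4) (l 322894295735)) (b (a (l 4) (l 304103811751)) (b (a (l 154853705575) (l 16776832)) (l 45868906887)))) (c (a (l 323431150471) (c (l 234310592791) (l 239679301399))) (a (l 319673049879) (b (l 307325028647) (l 191897790151)))))) (c (b (a (b (b (a (l 195655894791) (l 16776960)) (c (l 16776592) (l 16776536))) (l 16775264)) (l 16770240)) (c (l 16766440) (l 16760696))) (b (c (a (b (c (l 16776768) (l 16776744)) (l 16775000)) (l 16773760)) (a (b (l 205319563319) (l 16774816)) (l 16773472))) (c (l 16760168) (l 16749144))))) (c (b (b (a (c (l 310009394679) (l 308935641559)) (b (c (l 287460813335) (l 135526351751)) (a (b (l 88281712407) (l 16776616)) (l 16776088)))) (a (b (a (b (l 118346483575) (l 16776760)) (l 16776248)) (l 16774936)) (l 16768608))) (c (a (l 16765344) (l 16763432)) (l 16758448))) (b (b (a (c (l 308398777687) (l 306788151047)) (b (a (l 4) (c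 (l 99019131527) (l 284776462039))) (c (l 96334752535) (l 16776256)))) (c (a (b (l 166127986375) (l 16753656)) (l 16752424)) (a (l 105998424055) (l 16752112)))) (c (c (l 16747424) (l 16747064)) (l 16756992))))) (c (a (b (b (a (c (b (b (l 16777744) (l 16776016)) (l 16764232)) (l 16775360)) (l 16768280)) (c (l 16765896) (l 16749608))) (b (l 16761920) (l 16752936))) (b (c (c (l 16764040) (l 16758424)) (l 16757864)) (c (l 16751544) (l 16760632)))) (b (c (a (a (c (l 16762744) (l 16767824)) (l 16760464)) (l 16759712)) (a (b (l 103314076903) (l 16748432)) (l 16745808))) (c (c (l 16740784) (l 16750624)) (b (l 16751936) (l 16736864)))))), by decide +kernel⟩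

def k84_pm_011_t : ∃ t, chk3 f_pm_011_t t 73 247 1 = true :=
  ⟨(c (c (a (b (a (l 16760080) (l 16751056)) (c (l 16746344) (l 16734912))) (b (l 16746680) (l 16738280))) (a (b (c (l 16752000) (l 16740864)) (l 16743952)) (b (l 16732920) (l 16746144)))) (a (b (c (c (l 16740208) (l 16750032)) (b (l 16740776) (l 16736272))) (c (l 16741968) (l 16739920))) (c (b (l 16730888) (l 16743440)) (b (l 16739280) (l 16740656))))), by decide +kernel⟩

def k85_pm_011_t : ∃ t, chk3 f_pm_011_t t 74 244 1 = true :=
  ⟨(b (a (l 4) (a (l 4) (b (l 4) (c (b (a (l 4) (b (c (l 134989449719) (l 16773248)) (l 115662106183))) (a (a (l 4) (l 119957072359)) (l 16776088))) (c (c (b (l 132305068999) (l 16760880)) (l 114588326615)) (a (l 267596579383) (l 114051480423))))))) (a (a (l 4) (b (l 4) (b (a (l 4) (c (l 294977001415) (c (l 141431886551) (l 142505627303)))) (c (a (l 306788160087) (a (a (l 97945389335) (l 16777016)) (l 16776480))) (c (c (l 123178271511) (l 117809561575)) (a (l 145726849703) (l 16776656))))))) (c (b (b (a (c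 (l 283702709511) (l 284239578471)) (a (l 16776280) (l 16763912))) (a (a (l 283165842759) (c (l 16776496) (l 16776424))) (l 16773640))) (a (c (a (b (c (l 16776672) (l 16776640)) (l 16764672)) (l 16763624)) (l 16774760)) (l 16765776))) (a (b (a (b (l 4) (c (l 137673792919) (l 139821275799))) (c (c (l 107072153623) (l 16776128)) (l 116735828551))) (c (l 92039786567) (l 16763832))) (c (a (l 16766688) (l 16750088)) (l 99555972711)))))), by decide +kernel⟩

def k86_pm_011_t : ∃ t, chk3 f_pm_011_t t 74 245 1 = true :=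
  ⟨(b (a (a (b (a (l 4) (b (l 4) (c (a (c (l 118883354951) (l 16774672)) (l 16776816)) (c (l 165591102327) (l 16760408))))) (c (a (b (c (a (l 145190029719) (l 16776976)) (l 16775672)) (l 16775880)) (l 16774816)) (c (a (b (l 175254776759) (l 16775696)) (l 16774496)) (a (l 114588351591) (l 16774272))))) (c (b (c (a (a (b (l 84523616695) (l 16776032)) (l 16775880)) (l 16774528)) (l 87744812103)) (l 16766632)) (c (b (a (l 97945360327) (l 16774032)) (l 16750192)) (b (l 107609034759) (l 16749696))))) (c (c (a (l 16764776) (l 16755760)) (l 16756816)) (a (c (l 16758208) (l 16747024)) (c (l 16743256) (l 16763168))))) (c (a (a (b (l 16767056) (l 16763528)) (a (l 16762328) (l 16755088))) (c (c (l 16751184) (l 16739984)) (l 16738904))) (a (c (a (l 16759152) (l 16744176)) (a (l 16748040) (l 16743184))) (c (l 16747896) (l 16735872))))), by decide +kernel⟩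

def k87_pm_011_t : ∃ t, chk3 f_pm_011_t t 75 122 1 = true :=
  ⟨(a (b (c (b (b (a (a (a (l 281555226727) (b (l 4) (l 16776968))) (a (b (l 120493940535) (l 16776168)) (l 88281695671))) (l 16768344)) (a (c (l 16774176) (l 16773904)) (l 16759600))) (c (a (l 16758688) (l 16754872)) (l 16755888))) (b (a (c (b (a (a (l 129083849671) (l 116735830359)) (l 99555972423)) (l 16773616)) (b (a (l 124788880599) (l 16765584)) (l 16773328))) (c (l 16760640) (l 16770632))) (c (c (l 16744712) (l 16744248)) (l 16754016)))) (b (c (c (l 16750048) (l 16738056)) (c (l 16746992) (l 16734904))) (c (c (l 16732704) (l 16751552)) (c (l 16749352) (l 16747088))))) (c (b (b (c (a (l 16757752) (l 16743408)) (l 16754856)) (c (l 16749104) (l 16737048))) (c (b (l 16731856) (l 16745944)) (l 16731168))) (c (b (b (l 16753856) (l 16735416)) (b (l 16748384) (l 16740232))) (b (b (l 16742336) (l 16733736)) (c (l 16721352) (l 16720000)))))), by decide +kernel⟩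

def k88_pm_011_t : ∃ t, chk3 f_pm_011_t t 37 123 1 = true :=
  ⟨(a (b (c (a (c (b (b (l 16753328) (l 16749888)) (l 16744680)) (b (l 16750224) (l 16732184))) (b (b (l 16744704) (l 16741056)) (c (l 16747400) (l 16744688)))) (b (a (c (c (l 16738680) (l 16737952)) (l 16747328)) (c (l 16750200) (l 16727016))) (a (c (l 16730096) (l 16727952)) (c (l 16741880) (l 16738992))))) (b (c (a (c (l 16748152) (l 16745488)) (l 16728176)) (a (c (l 16742736) (l 16739904)) (l 16710744))) (c (a (l 16728904) (l 16731192)) (a (l 16711568) (l 16722888))))) (b (b (c (a (c (l 16746704) (l 16743944)) (l 16737240)) (c (l 16715536) (a (l 16738144) (l 16728264)))) (c (a (l 16716984) (l 16729824)) (a (l 16709952) (l 16721360)))) (c (a (a (l 16707816) (l 16703728)) (b (l 16722320) (l 16714768))) (a (b (l 16722128) (l 16713240)) (l 16687072))))), by decide +kernel⟩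

def k89_pm_011_t : ∃ t, chk3 f_pm_011_t t 38 120 1 = true :=
  ⟨(a (l 4) (b (a (l 4) (a (l 4) (b (l 4) (b (l 4) (c (c (a (l 287997673223) (l 168275453719)) (l 116735815735)) (c (c (l 16750280) (l 119420169095)) (l 123715135319))))))) (a (a (b (l 4) (b (a (l 4) (c (l 274575901767) (c (l 139284395495) (l 139284393815)))) (c (c (a (b (l 286387066279) (l 16776912)) (l 16775936)) (l 110293379415)) (c (c (l 16776376) (l 109219636711)) (l 116198957767))))) (b (a (l 4) (b (l 4) (b (l 4) (c (l 118346453783) (c (l 16773864) (l 16773600)))))) (c (b (a (a (b (l 4) (l 16776952)) (l 102240332647)) (l 16775400)) (l 16772944)) (c (b (l 102777191831) (l 16772408)) (b (l 114051480407) (l 16772032)))))) (b (a (b (a (l 4) (c (c (l 246658622023) (l 116735829511)) (c (l 117809570999) (l 123715149783)))) (c (a (c (l 102777199463) (l 16776552)) (l 16774880)) (c (l 99019101367) (l 16764800)))) (c (b (c (l 92576656311) (l 16775096)) (l 16771776)) (c (l 92039782919) (l 16762152)))) (c (a (c (l 16770848) (l 16749336)) (l 16755928))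 (c (l 16756928) (l 16745688))))))), by decide +kernel⟩

def k90_pm_011_t : ∃ t, chk3 f_pm_011_t t 76 121 1 = true :=
  ⟨(a (b (b (l 4) (a (a (l 4) (b (l 4) (c (c (l 241289914663) (l 114051473143)) (c (l 115662085223) (l 122104535495))))) (c (a (b (l 288534555111) (b (l 107072173431) (l 16775240))) (b (b (c (l 129083866519) (l 16772704)) (l 97408499751)) (l 16774104))) (c (b (c (l 115662069559) (l 118346423303)) (l 16774696)) (b (a (l 141431872647) (l 118883315895)) (l 16774488)))))) (c (a (b (c (b (c (a (l 98482232743) (l 16774776)) (l 92576651447)) (l 16761832)) (l 89355425799)) (c (l 16756768) (l 16766376))) (b (c (l 16759640) (l 16748536)) (l 16752272))) (b (c (a (b (l 95797876183) (l 16750472)) (l 16747896)) (a (b (l 108682777399) (l 16750016)) (l 16747232))) (c (l 16752696) (l 16741096))))) (b (c (b (a (b (l 4) (a (c (l 265449099495) (l 124788883271)) (a (l 214446369591) (l 96871626535)))) (b (a (c (l 253637942759) (l 118883309223)) (c (l 98482234663) (l 16776264))) (l 80765501559))) (a (b (c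 (l 16774640) (l 16774416)) (l 16760568)) (c (l 16758600) (l 16747408)))) (b (a (b (l 4) (c (c (l 111367108599) (l 115125204183)) (a (l 128546977175) (l 16760800)))) (c (c (l 97945339815) (b (l 112440856039) (l 16773560))) (b (b (l 123715145143) (l 16755200)) (l 16773352)))) (c (a (l 16764344) (l 16746688)) (a (l 16761328) (l 16745936))))) (c (c (b (l 16755088) (l 16746984)) (a (l 16740600) (l 16736320))) (c (c (l 16737360) (l 16736616)) (b (l 16739800) (l 16752120)))))), by decide +kernel⟩

def k91_pm_011_t : ∃ t, chk3 f_pm_011_t t 77 121 1 = true :=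
  ⟨(b (c (c (a (b (b (l 16763816) (l 16757784)) (l 16752672)) (b (l 16751512) (l 16755144))) (a (a (l 16755992) (l 16742520)) (l 16741248))) (a (c (b (a (l 16771032) (l 16766392)) (l 16739728)) (b (l 16757568) (l 16738440))) (c (c (l 16734784) (l 16733944)) (c (l 16733096) (l 16732240))))) (c (a (c (a (l 16744424) (l 16729944)) (l 16729840)) (c (l 16734368) (l 16721104))) (a (c (l 16727672) (c (l 16725992) (l 16724848))) (c (l 16739200) (l 16715256))))), by decide +kernel⟩

def k92_pm_011_t : ∃ t, chk3 f_pm_011_t t 38 61 1 = true :=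
  ⟨(b (c (a (b (b (a (c (l 16748064) (l 16756904)) (l 16739040)) (a (c (l 16751800) (l 16749544)) (l 16721472))) (a (c (l 16725832) (l 16717408)) (c (l 16712648) (l 16729744)))) (b (a (a (l 16724032) (l 16714584)) (b (l 16732752) (l 16725600))) (a (b (l 16726928) (l 16719640)) (l 16693792)))) (a (b (a (c (b (l 16734232) (l 16747216)) (b (l 16732472) (l 16744808))) (c (l 16720984) (b (l 16743464) (l 16734792)))) (c (a (l 16735088) (l 16725752)) (a (l 16710720) (l 16721616)))) (b (c (a (l 16732560) (l 16723048)) (b (l 16707288) (l 16719528))) (c (l 16690536) (l 16685304))))) (b (a (c (a (b (l 16729024) (l 16721576)) (l 16695984)) (c (l 16692784) (l 16687664))) (c (c (l 16686304) (l 16701088)) (a (l 16696416) (l 16686392)))) (a (c (a (l 16689288) (b (l 16705672) (l 16698016))) (a (l 16698328) (l 16667384))) (a (b (c (l 16697160) (l 16683040)) (c (l 16690448) (l 16674936))) (b (c (l 16688648) (l 16672976)) (l 16655016)))))), by decide +kernel⟩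

def k93_pm_011_t : ∃ t, chk3 f_pm_011_t t 78 30 1 = true :=
  ⟨(b (a (b (b (b (b (l 4) (a (l 4) (c (a (l 248806103543) (a (l 104924687095) (l 16776048))) (c (c (l 16775336) (l 16755600)) (l 118883309783))))) (b (a (c (a (l 264912227095) (b (l 118346454791) (l 16776296))) (c (a (l 125325756983) (l 16776640)) (l 121030787063))) (c (l 16774120) (c (l 16773736) (l 16773472)))) (c (a (c (l 16774776) (l 16774568)) (l 16760072)) (c (l 16770720) (l 16761152))))) (b (c (a (l 16761520) (l 16754688)) (c (l 16745088) (l 16744232))) (c (c (l 16750304) (l 16759408)) (c (l 16757984) (l 16735536))))) (b (b (c (l 16742440) (a (l 16751328) (l 16746376))) (c (l 16724768) (l 16729960))) (c (c (l 16736672) (l 16733208)) (c (l 16729624) (l 16725928))))) (b (b (c (b (a (b (a (b (l 136600059639) (l 16767696)) (l 94724144503)) (l 16773528)) (l 16763224)) (c (l 16755968) (l 16744592))) (b (c (c (l 95260995383) (a (l 103314058343) (l 16749248))) (a (b (l 116735832359) (l 16772768)) (l 16769832))) (c (l 16743672) (l 16742720))))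 (c (c (a (l 16747632) (l 16733024)) (l 16733328)) (c (l 16731504) (c (l 16730104) (l 16729144))))) (c (b (a (l 16721936) (l 16717616)) (l 16705328)) (b (c (l 16736224) (l 16712112)) (l 16696760))))) (b (c (a (b (l 16699632) (l 16706104)) (b (l 16711880) (l 16697312))) (b (a (l 16689944) (l 16700768)) (l 16657272))) (b (a (c (l 16691184) (l 16676208)) (b (l 16678384) (b (l 16672112) (l 16669128)))) (b (c (l 16678880) (l 16661424)) (l 16645856))))), by decide +kernel⟩

def k94_pm_011_t : ∃ t, chk3 f_pm_011_t t 79 30 1 = true :=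
  ⟨(b (a (b (c (b (c (b (l 16754688) (l 16737240)) (l 16744688)) (c (l 16737280) (l 16724360))) (b (c (c (l 16738456) (l 16737792)) (c (l 16737112) (l 16736416))) (c (l 16742808) (l 16719232)))) (c (b (c (l 16733840) (l 16730216)) (l 16717520)) (b (a (l 16727088) (l 16722000)) (l 16707528)))) (b (b (b (c (l 16745536) (c (l 16753472) (l 16751704))) (c (l 16727768) (l 16728384))) (c (c (l 16739336) (l 16736224)) (c (l 16733008) (l 16729680)))) (c (b (l 16702232) (l 16708600)) (b (l 16693328) (l 16697192))))) (b (c (b (a (l 16703024) (l 16694024)) (l 16662888)) (b (l 16664320) (l 16668000))) (b (a (b (a (l 16671128) (l 16645296)) (l 16663504)) (c (l 16668448) (l 16649504))) (c (l 16666432) (l 16645560))))), by decide +kernel⟩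

def k95_pm_011_t : ∃ t, chk3 f_pm_011_t t 36 62 1 = true :=
  ⟨(c (b (a (a (b (b (a (c (c (l 16761232) (l 16755488)) (l 16754736)) (c (l 16751904) (l 16740064))) (c (b (l 16748272) (l 16744520)) (c (l 16745008) (l 16733576)))) (b (c (a (l 16751208) (l 16747440)) (l 16736280)) (b (l 16731576) (l 16738040)))) (b (c (b (c (l 16746672) (l 16745744)) (l 16738840)) (b (l 16744328) (l 16746760))) (b (c (l 16741832) (l 16738576)) (l 16719208)))) (b (a (b (b (l 16739280) (l 16735480)) (c (l 16741816) (l 16738552))) (b (c (l 16741568) (l 16738288)) (l 16711328))) (a (b (l 16721944) (l 16724608)) (b (l 16724576) (b (l 16718768) (l 16715128)))))) (a (b (b (a (c (l 16733928) (l 16729968)) (a (l 16726240) (l 16722384))) (a (b (l 16725824) (a (l 16723584) (l 16720704))) (c (l 16721288) (l 16715984)))) (b (a (l 16719824) (l 16715984)) (l 16694944))) (b (b (a (b (l 16718760) (l 16716184)) (l 16712368)) (l 16712096)) (a (l 16711224) (l 16707168))))) (b (a (b (a (b (c (a (c (l 16764448) (l 16742952)) (l 16749144))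 (a (l 16752632) (l 16737216))) (c (a (l 16755368) (l 16750848)) (c (l 16730656) (l 16729648)))) (b (c (l 16742384) (c (l 16730392) (l 16729376))) (c (l 16744120) (l 16720416)))) (b (a (c (l 16744136) (l 16730944)) (c (l 16735224) (l 16731768))) (a (c (l 16735064) (l 16731608)) (l 16724160)))) (b (a (b (c (l 16743896) (l 16741144)) (c (l 16735192) (l 16731720))) (c (l 16709560) (l 16705704))) (a (a (l 16700968) (l 16696368)) (b (l 16714984) (b (l 16708104) (l 16703672)))))) (b (a (b (a (l 16723784) (a (l 16716984) (l 16712344))) (a (b (l 16716528) (a (l 16713832) (l 16710352))) (b (l 16708592) (l 16706192)))) (b (a (b (l 16707992) (l 16704864)) (l 16700096)) (l 16699024))) (a (a (b (l 16708864) (l 16705240)) (l 16701928)) (l 16673144))))), by decide +kernel⟩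

def k96_pm_011_t : ∃ t, chk3 f_pm_011_t t 37 62 1 = true :=
  ⟨(b (c (b (a (a (c (l 16714448) (l 16704880)) (b (l 16723656) (l 16716040))) (b (a (l 16715432) (l 16707184)) (a (l 16707800) (l 16700784)))) (a (b (a (l 16716560) (b (l 16710264) (l 16707352))) (a (b (l 16711320) (l 16709360)) (l 16705072))) (a (b (l 16702792) (l 16700184)) (l 16696392)))) (a (b (a (b (l 16723640) (l 16714616)) (l 16688464)) (b (a (l 16705520) (b (l 16698056) (l 16694528))) (a (l 16687696) (l 16691288)))) (b (b (l 16678496) (a (l 16695152) (l 16686856))) (b (l 16665016) (l 16681864))))) (c (a (b (a (l 16706584) (l 16701888)) (l 16679528)) (b (l 16694704) (l 16691056))) (a (b (l 16689120) (l 16682664)) (b (l 16676824) (l 16670480))))), by decide +kernel⟩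

def k97_pm_011_t : ∃ t, chk3 f_pm_011_t t 18 63 1 = true :=
  ⟨(b (a (a (b (c (a (l 16715040) (l 16711512)) (l 16677120)) (c (l 16689248) (l 16692184))) (b (c (l 16684840) (l 16687944)) (b (l 16651808) (l 16649768)))) (a (c (b (l 16676240) (l 16694416)) (b (l 16676624) (l 16671024))) (c (l 16644536) (l 16640784)))) (a (b (a (b (l 16656360) (l 16654480)) (c (l 16700456) (l 16676888))) (b (c (l 16680648) (l 16635392)) (l 16639656))) (b (c (l 16666760) (l 16618184)) (a (b (l 16633416) (l 16645504)) (l 16597056))))), by decide +kernel⟩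

def k98_pm_011_t : ∃ t, chk3 f_pm_011_t t 19 31 1 = true :=
  ⟨(b (a (b (a (b (c (b (a (l 16699152) (l 16692600)) (l 16692528)) (b (a (l 16685040) (l 16677296)) (l 16676640))) (c (l 16688992) (l 16671032))) (c (b (l 16683248) (l 16678944)) (b (l 16665176) (l 16658304)))) (a (c (b (l 16684968) (l 16681432)) (l 16640216)) (b (l 16621640) (l 16616888)))) (b (c (a (l 16649768) (l 16639192)) (a (l 16648736) (l 16635536))) (c (a (l 16642112) (l 16631704)) (a (l 16635848) (l 16622840))))) (b (c (a (c (l 16679056) (l 16644208)) (l 16631320)) (a (a (l 16649616) (l 16637280)) (l 16597352))) (a (b (a (l 16616272) (l 16584496)) (b (l 16584544) (l 16596744))) (b (a (l 16573344) (l 16561896)) (l 16578040))))), by decide +kernel⟩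

def k99_pm_011_t : ∃ t, chk3 f_pm_011_t t 10 28 1 = true :=
  ⟨(a (l 4) (b (l 4) (a (b (l 4) (a (l 4) (b (l 4) (a (a (l 4) (b (l 4) (c (c (l 231626234775) (l 110293368711)) (c (l 110293368167) (l 114588334343))))) (b (c (a (l 256859152903) (b (l 122641411735) (l 16767232))) (c (a (l 131768191527) (l 16754080)) (a (l 131768189847) (l 16753976)))) (c (a (c (l 99555975367) (l 16774664)) (l 16770448)) (c (l 16771984) (l 99019094071)))))))) (a (a (b (l 4) (b (b (l 4) (c (c (a (l 237531809079) (l 100092842871)) (l 103850913735)) (c (l 104387784183) (a (l 16747752) (l 16754008))))) (c (b (a (l 16770496) (l 16747464)) (l 16752736)) (c (l 16744912) (a (l 16752232) (l 16741440)))))) (b (b (l 4) (b (l 4) (c (a (l 4) (c (l 241826773879) (l 16747112))) (c (l 128546950407) (l 129620690471))))) (c (b (b (a (b (l 125325764119) (l 109756525287)) (l 90966042679)) (l 84523574775)) (c (l 16737000) (l 16735680))) (b (c (b (l 100092827463) (l 16767944)) (b (c (l 16753840) (l 16753744)) (l 16767344))) (c (l 16734304)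 (l 16732888)))))) (b (a (b (l 4) (b (a (l 4) (c (a (l 122641407351) (l 104387807415)) (c (l 16751248) (l 16751056)))) (c (c (a (l 100629711479) (l 16772056)) (l 16752592)) (c (l 16752328) (l 100092836727))))) (b (b (l 4) (c (c (a (l 245047997447) (l 101703451943)) (l 116198942487)) (c (l 104387781815) (a (l 16745360) (l 16754992))))) (c (b (c (l 90429164055) (l 16771760)) (l 16743576)) (c (l 16767264) (b (l 16750056) (l 16762408)))))) (c (b (c (a (l 16747600) (l 16732824)) (l 16736344)) (a (l 16731776) (l 16716624))) (c (b (l 16735040) (l 16718080)) (b (a (l 16739432) (l 16727936)) (c (l 16716264) (l 16715024)))))))))), by decide +kernel⟩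

def k100_pm_011_t : ∃ t, chk3 f_pm_011_t t 20 58 1 = true :=
  ⟨(a (l 4) (b (a (l 4) (b (l 4) (b (l 4) (a (l 4) (c (a (b (l 4) (l 258469773095)) (b (c (l 244511133927) (l 16749920)) (l 98482237559))) (c (a (l 133915668647) (l 107072149575)) (a (l 134452537607) (l 115125212439)))))))) (a (b (a (l 4) (a (l 4) (b (l 4) (c (b (l 4) (c (l 242900522167) (l 16750408))) (c (l 118346415991) (l 121567639623)))))) (a (a (b (l 4) (b (l 4) (c (a (l 119957060151) (l 103314075975)) (c (l 16753360) (l 16753200))))) (c (a (b (l 4) (b (l 113514614487) (l 16774816))) (b (l 269744055399) (l 90966047175))) (b (c (l 137136885895) (l 271354658599)) (c (l 100629709159) (l 16760160))))) (b (a (c (b (l 256322290455) (a (l 107609039703) (l 16775384))) (c (l 109219626967) (l 117272689463))) (c (c (l 92576656727) (l 16773576)) (c (l 16773304) (l 16773024)))) (c (c (l 16758560) (l 16768432)) (c (l 16767792) (l 16767136)))))) (a (b (a (b (l 4) (c (b (a (l 130157606871) (l 106535300023)) (l 16769560)) (c (l 104387800263) (l 114051475751))))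 (b (c (b (l 4) (c (l 113514613495) (l 16775576))) (c (l 112440847527) (l 117809555303))) (c (l 16769560) (c (l 16771624) (l 16771240))))) (c (b (c (l 16756904) (l 16745688)) (l 16749040)) (c (l 16740760) (c (l 16739960) (l 16739408))))) (c (b (b (c (a (c (l 97945360407) (l 16764224)) (l 16770680)) (l 16761792)) (c (l 16744704) (l 16743856))) (c (l 16739056) (l 16732152))) (b (c (b (l 94724129159) (l 16742984)) (b (a (l 16753168) (l 16769200)) (l 16742072))) (c (l 16730440) (l 16728664)))))))), by decide +kernel⟩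

def k101_pm_011_t : ∃ t, chk3 f_pm_011_t t 40 118 1 = true :=
  ⟨(a (b (l 4) (b (b (l 4) (a (l 4) (a (l 4) (c (c (c (l 227868141767) (l 111367121239)) (l 16758272)) (c (l 112440862039) (l 119957053767)))))) (a (a (l 4) (b (l 4) (c (c (l 254174808519) (l 119957043911)) (c (l 120493914263) (l 124788880007))))) (c (b (a (c (l 236458072359) (l 115662082455)) (l 16769328)) (a (c (l 16767416) (l 16775112)) (l 16750024))) (c (c (l 99019079975) (a (l 109756499815) (l 16772152))) (a (b (l 122641402391) (l 16774776)) (l 16771880))))))) (a (b (b (l 4) (a (l 4) (c (b (l 264375357271) (a (l 110293390983) (l 16775616))) (c (c (l 16751904) (l 113514588327)) (b (l 136063167463) (l 16755080)))))) (c (b (a (c (b (c (l 111903998023) (l 112977739431)) (l 16774024)) (l 99019093527)) (l 16760832)) (c (l 16756104) (l 16744792))) (c (b (a (l 102240318631) (l 16770648)) (l 16743936)) (b (a (l 89355416119) (l 16770176)) (l 16743048))))) (b (c (b (a (b (l 4) (c (l 250416712871) (l 118346435159))) (b (c (l 238068685911) (l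 16756656)) (l 96334757623))) (c (a (b (l 99019106503) (l 16751600)) (l 16749056)) (l 16761128))) (b (c (c (l 110293343207) (a (l 121567633815) (l 108682762039))) (a (l 250953570487) (l 116198953975))) (c (a (l 16773608) (l 16747936)) (a (l 16773344) (l 16747344))))) (c (b (c (l 16754584) (l 16743160)) (l 16746704)) (c (l 16738056) (c (l 16737080) (l 16736424))))))), by decide +kernel⟩

def k102_pm_011_t : ∃ t, chk3 f_pm_011_t t 40 119 1 = true :=
  ⟨(a (a (b (c (b (c (a (b (l 267059706455) (c (l 107072163271) (l 16760576))) (b (l 99019104759) (l 16751664))) (b (a (l 132305069175) (l 16775704)) (l 102777193079))) (a (l 16763480) (l 16756488))) (b (c (a (b (l 136063164711) (l 16760408)) (l 16763168)) (a (b (l 136600033975) (l 16755064)) (l 16762896))) (c (l 16768216) (l 16746584)))) (c (c (a (l 16750552) (l 16735832)) (l 16736488)) (c (l 16734968) (c (l 16733800) (l 16733000))))) (c (b (c (b (l 16757568) (l 16740024)) (l 16742552)) (c (l 16734656) (l 16727280))) (b (c (a (l 16743976) (l 16739040))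 (b (l 16744848) (l 16736040))) (c (l 16725072) (l 16722784))))) (c (b (a (b (l 16748320) (l 16730448)) (a (l 16727360) (l 16722792))) (a (c (l 16720744) (l 16738904)) (l 16710208))) (b (c (a (l 16731568) (l 16742456)) (a (c (l 16730240) (l 16729328)) (l 16718984))) (c (l 16709960) (c (l 16707448) (l 16705744)))))), by decide +kernel⟩

def k103_pm_011_t : ∃ t, chk3 f_pm_011_t t 41 59 1 = true :=
  ⟨(b (c (a (a (b (b (c (a (l 16772768) (l 16747488)) (l 16770104)) (c (l 16742512) (l 16762440))) (c (l 16736992) (l 16729864))) (b (b (l 16750784) (l 16732816)) (c (l 16722824) (l 16741256)))) (a (b (a (l 16729600) (l 16724928)) (l 16712184)) (b (l 16723120) (l 16723672)))) (a (b (c (a (a (l 16754848) (l 16741984)) (l 16734344)) (a (b (l 88281670327) (l 16739264)) (c (l 16733200) (l 16732416)))) (c (a (l 16727920) (l 16738616)) (a (l 16725912) (l 16714920)))) (b (c (l 16718856) (a (l 16721800) (l 16731656))) (a (c (l 16728208) (l 16724768)) (l 16694672))))) (c (a (b (a (c (l 16738344) (l 16735336)) (l 16706536))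 (c (l 16698432) (l 16714912))) (b (c (l 16694600) (l 16710888)) (a (l 16702864) (l 16693184)))) (a (b (c (l 16706080) (a (l 16729008) (l 16717912))) (c (l 16710264) (l 16684480))) (b (c (l 16706032) (l 16701024)) (l 16664968))))), by decide +kernel⟩

def k104_pm_011_t : ∃ t, chk3 f_pm_011_t t 42 58 1 = true :=
  ⟨(b (a (b (a (l 4) (a (b (l 4) (c (c (c (l 221962556967) (l 109219630503)) (l 108145888055)) (c (l 108682758567) (l 115125208119)))) (c (b (c (l 249879834775) (l 127473226919)) (c (l 95797882487) (l 16773912))) (c (b (l 130157580887) (l 16773672)) (b (l 131768191975) (l 16773424)))))) (c (a (c (a (b (b (l 4) (l 118883317751)) (l 16773320)) (b (c (l 101166581703) (l 16759784)) (l 16747952))) (b (a (l 114588327767) (l 16754424)) (l 16770640))) (b (c (l 16769384) (l 16768824)) (l 16751056))) (a (c (b (a (l 114588327319) (l 16754272)) (l 16770176)) (b (a (l 118346422167) (l 16754112)) (l 16759216))) (c (l 16743072) (a (l 16744976) (l 16739400)))))) (c (b (a (b (c (a (c (l 103850932263) (l 102777190007))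 (l 16772528)) (l 96871606503)) (l 16756720)) (b (l 16754752) (l 16736640))) (c (a (l 16746040) (l 16726240)) (l 16729112))) (b (a (c (b (l 98482218407) (l 16766144)) (b (a (l 16754864) (l 16771488)) (l 16744440))) (c (l 16738800) (l 16737648))) (c (l 16727256) (c (l 16725816) (l 16724840)))))) (c (a (b (a (b (l 16752944) (l 16734904)) (c (l 16730136) (l 16749216))) (a (c (l 16724704) (l 16743360)) (l 16714008))) (a (b (l 16719600) (l 16725312)) (b (l 16730872) (l 16715536)))) (a (c (b (c (l 16731960) (l 16731136)) (l 16714736)) (b (a (l 16735456) (l 16724272)) (c (l 16712624) (l 16711184)))) (c (b (l 16710360) (l 16714360)) (b (a (l 16733944) (l 16722552)) (l 16689168)))))), by decide +kernel⟩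

def k105_pm_011_t : ∃ t, chk3 f_pm_011_t t 43 58 1 = true :=
  ⟨(c (b (a (a (b (a (l 16733200) (l 16728336)) (l 16715448)) (b (l 16720992) (l 16726576))) (b (c (l 16707792) (l 16725448)) (a (l 16716632) (l 16706592)))) (a (b (a (l 16721056) (l 16711144)) (l 16679704)) (b (l 16696088) (l 16680496)))) (b (a (c (a (l 16719632) (l 16708840)) (b (a (l 16726296) (l 16735816)) (l 16702480))) (c (l 16676744) (b (l 16697504) (l 16700240)))) (a (c (l 16659208) (b (l 16705272) (l 16686992))) (b (l 16684840) (l 16667000))))), by decide +kernel⟩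

def k106_pm_011_t : ∃ t, chk3 f_pm_011_t t 21 59 1 = true :=
  ⟨(c (a (b (b (a (a (l 16708376) (l 16719720)) (a (l 16709976) (l 16700120))) (a (a (l 16714072) (l 16704368)) (l 16689592))) (a (b (l 16672896) (l 16678464)) (b (l 16674056) (l 16658456)))) (b (a (b (l 16685144) (l 16669512)) (b (l 16664808) (l 16649016))) (a (b (l 16653800) (l 16638024)) (l 16604160)))) (a (b (a (c (b (l 16718784) (l 16701736)) (b (l 16693808) (l 16696528))) (c (l 16667688) (b (l 16691872) (l 16673456)))) (a (c (l 16655008) (l 16626968)) (b (l 16658864) (l 16640824)))) (a (b (b (l 16671992) (l 16654008)) (l 16626760)) (b (l 16597968) (l 16603320))))), by decide +kernel⟩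

def k107_pm_011_t : ∃ t, chk3 f_pm_011_t t 22 56 1 = true :=
  ⟨(a (a (b (l 4) (b (l 4) (b (a (l 4) (c (c (a (l 4) (l 117272696615)) (l 121567640983)) (c (l 124788865639) (l 126399476903)))) (c (a (a (l 4) (l 248269221127)) (a (a (l 105461547447) (l 97408493703)) (l 16772856))) (a (c (l 128546951431) (l 128546949287)) (c (l 16753224) (l 104924671591))))))) (b (l 4) (a (b (b (l 4) (c (c (a (l 248269220615) (l 110830255703)) (l 116735813367)) (c (l 120493909127) (l 107609006071)))) (c (a (b (l 96871621879) (l 16747032)) (l 16756352)) (c (l 16768208) (b (l 16751000) (l 16763592))))) (c (b (c (b (a (l 117272697031) (l 16764896)) (l 16770936)) (l 95260983367)) (c (l 16738904) (l 16737792))) (b (c (l 95260982119) (c (l 101703432119) (l 103314044871))) (c (l 16757616) (l 16735464))))))) (a (b (a (b (l 4) (c (a (b (l 4) (l 111903997207)) (b (l 118346438455) (l 16773432))) (c (l 99555932551) (b (l 125862608023) (l 103314058983))))) (b (a (l 4) (b (l 4) (c (l 111903997367) (b (l 124788899143) (l 101703464183)))))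 (c (a (b (l 94724136119) (l 16747624)) (l 16746400)) (c (l 16768760) (a (l 16750088) (l 16765824)))))) (c (a (b (a (l 16756672) (l 16741144)) (l 16728264)) (b (l 16733560) (l 16739072))) (b (c (l 16757944) (b (l 16740288) (l 16731368))) (c (l 16720080) (l 16717920))))) (c (a (b (b (b (a (l 126936374599) (l 16765088)) (l 16768488)) (l 16744048)) (b (l 16723384) (l 16728848))) (b (b (c (l 16765304) (l 16764576)) (l 16728616)) (b (l 16734120) (l 16718560)))) (b (b (a (c (l 93113499783) (c (l 101166563207) (l 16751864))) (b (l 16757264) (l 16738184))) (c (l 16731656) (l 16730224))) (c (l 16685312) (b (l 16712360) (l 16715328))))))), by decide +kernel⟩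

def k108_pm_011_t : ∃ t, chk3 f_pm_011_t t 22 57 1 = true :=
  ⟨(a (c (b (a (b (a (b (c (a (l 116735826247) (l 16764328)) (l 111903985687)) (c (l 16770208) (l 16769736))) (c (l 16748632) (l 16763520))) (a (c (l 16738120) (l 16736920)) (l 16727560))) (b (c (b (l 16732576) (l 16725088)) (l 16727064)) (a (l 16717512) (l 16728360)))) (a (a (b (l 16722104) (l 16727600)) (b (l 16733056) (l 16717512))) (c (b (l 16719736) (l 16704600)) (l 16665952)))) (b (a (b (a (c (c (l 16751304) (l 16751128)) (c (l 101166561607) (l 101703432487))) (c (l 16762648) (l 16740776))) (c (l 16730224) (c (l 16729016) (l 16728192)))) (c (a (l 16722224) (l 16711184)) (b (c (l 16723824) (l 16722856)) (l 16705280)))) (a (c (a (l 16710168) (l 16720128)) (b (l 16710544) (l 16713344))) (c (l 16682512) (b (l 16708080) (l 16689792)))))) (c (b (a (b (c (l 16709152) (l 16727136)) (l 16686824)) (b (l 16687112) (l 16692368))) (a (a (l 16663176) (l 16684272)) (b (l 16676568) (l 16660688)))) (b (a (c (l 16694512) (b (l 16720856) (l 16702696)))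 (c (l 16693040) (l 16667080))) (a (c (l 16681040) (l 16675192)) (b (l 16663848) (l 16645864)))))), by decide +kernel⟩

def k109_pm_011_t : ∃ t, chk3 f_pm_011_t t 23 28 1 = true :=
  ⟨(a (a (b (c (b (c (b (l 16729456) (l 16714472)) (l 16709408)) (b (l 16697688) (l 16703024))) (b (c (l 16696792) (c (l 16695152) (l 16694040))) (c (l 16704816) (l 16658704)))) (c (b (b (l 16687288) (l 16671456)) (l 16605576)) (b (c (l 16670400) (l 16664184)) (l 16631360)))) (b (b (c (b (l 16708048) (l 16713496)) (c (l 16695352) (l 16670960))) (c (c (l 16671512) (l 16687440)) (c (l 16682224) (l 16676840)))) (c (b (b (l 16666272) (l 16650328)) (l 16626200)) (b (l 16643920) (l 16607736))))) (b (b (c (a (c (l 16681584) (l 16698240)) (l 16658448)) (a (c (l 16693776) (l 16689176)) (c (l 16671144) (l 16665400)))) (c (a (l 16627000) (l 16647752)) (a (l 16635280) (l 16632872)))) (c (b (a (l 16637032) (l 16615616)) (a (l 16604696) (l 16583024))) (b (a (l 16620416) (l 16596832)) (l 16530160))))), by decide +kernel⟩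

def k110_pm_011_t : ∃ t, chk3 f_pm_011_t t 11 29 1 = true :=
  ⟨(b (a (a (b (c (a (b (l 16686024) (l 16691368)) (b (l 16686536) (l 16670776))) (a (c (l 16691320) (l 16643928)) (b (l 16674520) (l 16656584)))) (c (a (b (l 16675696) (l 16659952)) (b (l 16654952) (l 16639056))) (a (b (l 16661840) (l 16643840)) (l 16629456)))) (a (b (c (b (l 16665768) (l 16649864)) (l 16621224)) (c (l 16625864) (l 16605824))) (c (b (l 16636680) (l 16604448)) (b (l 16618640) (l 16581976))))) (a (c (b (a (l 16615312) (l 16593728)) (a (l 16582784) (l 16560896))) (b (a (l 16594904) (l 16571016)) (l 16503920))) (b (c (l 16592448) (l 16534992)) (c (a (l 16538816) (l 16516344)) (a (l 16509480) (l 16484648)))))) (a (b (a (c (a (b (l 16644104) (l 16628144)) (l 16614976)) (a (l 16616504) (l 16592808))) (c (a (l 16593520) (l 16571784)) (a (l 16568840) (l 16544664)))) (a (a (c (l 16603992) (l 16579544)) (b (l 16578008) (c (l 16574640) (l 16546192)))) (a (b (l 16586448) (c (l 16557376) (l 16526976))) (b (c (l 16548880) (l 16518160))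 (l 16526784))))) (b (b (a (c (l 16547080) (l 16517624)) (c (a (l 16515344) (l 16499416)) (l 16474744))) (a (c (a (l 16541600) (l 16523824)) (a (l 16510744) (l 16491216))) (l 16485824))) (a (c (l 16526096) (l 16492168)) (l 16507472))))), by decide +kernel⟩

def k111_pm_011_t : ∃ t, chk3 f_pm_011_t t 5 60 1 = true :=
  ⟨(a (a (a (c (b (a (a (b (a (l 16724800) (l 16720360)) (l 16707928)) (b (c (l 16736232) (l 16732944)) (l 16719856))) (b (c (l 16702072) (l 16697768)) (a (l 16710680) (l 16701352)))) (b (a (c (l 16691344) (l 16706992)) (l 16670176)) (a (a (l 16699536) (l 16690336)) (l 16676256)))) (b (a (b (c (c (l 16714352) (l 16712800)) (a (l 16715760) (l 16726024))) (c (l 16697072) (l 16692656))) (b (c (l 16714280) (l 16688712)) (a (l 16700024) (l 16689280)))) (a (b (a (l 16703912) (l 16693376)) (l 16681416)) (b (l 16677288) (l 16659856))))) (b (b (c (a (a (l 16706888) (l 16697352)) (l 16682808)) (a (l 16669440) (l 16668256))) (c (a (l 16666104) (l 16667560)) (a (l 16672880) (l 16650520)))) (a (c (b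 (l 16672008) (l 16656944)) (b (l 16655296) (l 16637664))) (b (c (l 16652304) (l 16632728)) (c (b (l 16640720) (l 16634600)) (b (l 16619168) (l 16611808))))))) (b (a (c (a (b (l 16663032) (l 16647584)) (b (l 16642832) (l 16627184))) (a (l 16594736) (l 16613592))) (b (a (c (l 16622200) (l 16599352)) (c (l 16601056) (l 16575392))) (a (c (l 16606856) (l 16581288)) (c (l 16590336) (l 16562656))))) (a (b (a (c (l 16632032) (l 16609448)) (c (b (l 16615680) (l 16611464)) (l 16588968))) (a (c (l 16622240) (l 16597680)) (l 16595304))) (c (a (l 16598248) (l 16585136)) (a (l 16570040) (l 16554392)))))) (a (a (a (b (b (c (l 16581944) (l 16553800)) (l 16561376)) (l 16556520)) (b (c (l 16565608) (l 16534704)) (l 16542984))) (c (b (l 16545824) (l 16541208)) (l 16486600))) (c (a (l 16518240) (l 16492904)) (a (l 16478776) (l 16450360))))), by decide +kernel⟩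

def k112_pm_011_t : ∃ t, chk3 f_pm_011_t t 5 61 1 = true :=
  ⟨(a (a (b (a (c (b (a (l 16659296) (a (l 16666176) (l 16656632))) (a (a (l 16649264) (l 16641320)) (l 16652344))) (b (a (l 16664152) (a (l 16647904) (l 16636744))) (a (b (l 16650800) (l 16644184)) (l 16631184)))) (a (b (c (b (l 16646200) (l 16642456)) (b (l 16624864) (l 16620256))) (l 16606904)) (c (l 16629656) (l 16604504)))) (a (c (a (b (l 16659520) (l 16655472)) (l 16646128)) (a (l 16614752) (l 16621280))) (c (l 16586672) (l 16599968)))) (c (a (b (l 16589968) (l 16604600)) (b (l 16586368) (l 16580136))) (a (b (l 16581872) (l 16571088)) (b (l 16552720) (l 16542096))))) (a (c (a (b (l 16561464) (l 16555312)) (b (l 16536312) (l 16530184))) (b (a (l 16523592) (l 16494600)) (l 16456576))) (c (a (l 16486912) (l 16482416)) (a (l 16460640) (l 16432216))))), by decide +kernel⟩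

def k113_pm_011_t : ∃ t, chk3 f_pm_011_t t 5 31 1 = true :=
  ⟨(a (b (a (c (b (a (a (l 16649304) (l 16638152)) (l 16599832)) (a (l 16594552) (l 16592848))) (a (b (l 16573312) (l 16602808)) (b (l 16587272) (l 16575128)))) (c (b (a (l 16596968) (l 16572648)) (b (l 16537640) (l 16534800))) (b (a (l 16558608) (l 16529792)) (a (l 16546712) (l 16518112))))) (a (b (c (a (l 16631248) (l 16608864)) (a (l 16592176) (l 16564824))) (c (b (a (l 16628088) (l 16605440)) (l 16605704)) (a (l 16537568) (l 16531424)))) (c (b (a (l 16585480) (l 16561520)) (c (l 16576200) (l 16508696))) (b (l 16459520) (a (l 16524624) (l 16496832)))))) (b (a (c (b (l 16472416) (l 16486936)) (a (l 16453088) (l 16466296))) (c (b (l 16484696) (l 16457352)) (b (l 16429176) (l 16417952)))) (a (c (b (l 16516664) (a (l 16527520) (l 16503032))) (b (l 16444512) (l 16434296))) (c (b (l 16411600) (l 16445000)) (b (l 16409120) (l 16401648)))))), by decide +kernel⟩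

def k114_pm_011_t : ∃ t, chk3 f_pm_011_t t 6 12 1 = true :=
  ⟨(a (a (l 4) (b (l 4) (b (l 4) (a (l 4) (b (l 4) (c (a (c (l 120493845495) (l 115125133335)) (c (l 16731376) (l 102240277447))) (a (l 114588256199) (l 106535241751)))))))) (b (l 1) (a (b (l 1) (b (l 1) (a (b (l 1) (c (l 39761932551) (l 16739928))) (l 1)))) (l 1)))), by decide +kernel⟩

def k115_pm_011_t : ∃ t, chk3 f_pm_011_t t 12 26 1 = true :=
  ⟨(a (b (l 4) (b (a (l 4) (a (a (l 4) (b (l 4) (c (l 16745744) (l 115125191847)))) (c (c (b (l 16736736) (l 16769264)) (b (l 16736416) (l 16768840))) (c (a (l 92039729767) (l 86134164679)) (l 94724077383))))) (a (a (l 4) (b (l 4) (c (a (l 119957024535) (l 16753928)) (c (l 112440826791) (l 116198922007))))) (c (a (b (c (l 16752624) (l 16752384)) (l 16761536)) (l 16706360)) (a (b (c (l 109219618807) (l 16751896)) (c (l 16760328) (l 16759496))) (a (l 16730056) (l 16718760))))))) (b (a (b (a (l 4) (a (l 4) (b (l 4) (c (l 16751816) (l 16772472))))) (c (a (c (l 111367065543) (b (l 16737896) (l 16753536)))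 (c (l 16764160) (l 16763512))) (a (b (l 114588290391) (c (l 16753408) (l 16753264))) (b (l 60901254759) (l 16755968))))) (c (b (a (c (l 16749104) (l 99019057447)) (l 16752360)) (a (l 16744560) (l 16724320))) (b (a (c (l 16727368) (l 16726968)) (l 16750080)) (a (l 16720520) (l 16719424))))) (a (c (b (a (c (l 16757128) (l 16756144)) (l 16715376)) (c (l 16676936) (l 16674080))) (b (a (a (l 87207878375) (l 16728208)) (l 16711424)) (c (l 16660648) (l 16668104)))) (c (b (a (l 16715952) (l 16695640)) (l 16634560)) (b (a (l 16710120) (l 16687992)) (a (l 16677992) (l 16655792))))))), by decide +kernel⟩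

def k116_pm_011_t : ∃ t, chk3 f_pm_011_t t 12 27 1 = true :=
  ⟨(a (b (a (c (b (a (b (a (l 4) (l 115662067895)) (c (l 75933628103) (l 16750288))) (b (a (l 16771768) (l 16762320)) (l 16731688))) (a (a (l 16735056) (l 16724720)) (l 16688216))) (c (b (a (b (l 116198902999) (l 88818525463)) (b (l 16766008) (l 16750712))) (a (l 16706784) (l 16705432))) (b (a (b (l 118346385271) (l 97408457511)) (l 16749328)) (a (l 16747248) (l 16702832))))) (a (b (c (l 16697480) (c (l 16715512) (l 16713488))) (c (l 16709392) (c (l 16704072) (l 16700384)))) (c (b (l 16697776) (l 16688600)) (b (l 16670808) (l 16679408))))) (c (a (b (a (l 16683840) (l 16678720)) (a (l 16668712) (l 16668672))) (b (a (l 16678784) (l 16657856)) (a (l 16647600) (l 16626512)))) (a (b (a (b (l 16701848) (l 16705824)) (c (l 16693464) (l 16689152))) (c (l 16629248) (a (l 16677488) (l 16653816)))) (b (a (l 16668336) (l 16645384)) (a (l 16633752) (l 16610664)))))) (b (b (c (a (a (l 16698072) (l 16677432)) (l 16646576)) (a (a (l 16690096) (l 16667536))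 (a (l 16645096) (l 16622800)))) (a (c (a (l 16667808) (l 16647040)) (a (l 16656648) (l 16633984))) (c (l 16616008) (l 16600224)))) (b (a (c (l 16584520) (a (l 16622496) (l 16599712))) (c (l 16584768) (l 16565768))) (a (c (l 16594880) (l 16576160)) (c (l 16552864) (l 16530560)))))), by decide +kernel⟩

def k117_pm_011_t : ∃ t, chk3 f_pm_011_t t 13 13 1 = true :=
  ⟨(b (b (a (a (a (c (c (l 16698576) (l 16675000)) (a (l 16671144) (l 16665496))) (c (l 126734823047) (l 162168283831))) (a (c (l 16636560) (l 225519008551)) (l 1))) (l 1)) (a (b (a (c (l 16665392) (a (l 16666040) (l 16644272))) (c (l 16625592) (l 16612056))) (a (c (l 16635928) (l 16622816)) (c (l 16595944) (l 16579592)))) (a (c (l 16571704) (l 183642809943)) (l 1)))) (a (b (a (c (b (l 16605792) (l 16574976)) (b (l 16589696) (l 16555776))) (c (b (l 16565600) (l 16534544)) (b (l 16546296) (l 16512176)))) (a (c (b (l 16543456) (l 16511240)) (b (l 16521080) (l 16485600))) (c (l 16507464) (l 16459384)))) (b (c (a (l 16510584) (l 16472080)) (a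 (l 16486800) (l 16445560))) (c (a (l 16446440) (l 16407416)) (a (l 16416472) (l 16374808)))))), by decide +kernel⟩

def k118_pm_011_t : ∃ t, chk3 f_pm_011_t t 7 6 1 = true :=
  ⟨(b (l 1) (a (b (l 1) (a (a (a (b (l 1) (l 16361912)) (l 1)) (l 1)) (l 1))) (l 1))), by decide +kernel⟩

def k119_pm_011_t : ∃ t, chk3 f_pm_011_t t 6 14 1 = true :=
  ⟨(a (b (a (c (b (a (b (a (l 16658312) (l 16637112)) (a (l 16626432) (l 16605032))) (b (a (l 16615864) (l 16594584)) (l 16572832))) (a (b (l 16617344) (l 16571272)) (b (l 16539896) (l 16506424)))) (b (a (b (a (l 16645040) (l 16621768)) (a (l 16609448) (l 16585992))) (b (l 16586864) (l 16550832))) (a (b (l 16561384) (l 16524400)) (b (l 16514096) (l 16476656))))) (b (a (c (b (l 16562680) (l 16529880)) (b (l 16540512) (l 16504120))) (c (b (l 16520304) (l 16487096)) (b (l 16494584) (l 16457840)))) (b (c (a (l 16496480) (l 16453248)) (a (l 16466984) (l 16420320))) (a (c (l 16483112) (l 16428488)) (c (a (l 16410808) (l 16394872)) (a (l 16395768) (l 16357808))))))) (b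 (a (a (b (c (l 16516864) (l 16486768)) (a (b (l 16486792) (l 16488360)) (c (l 16479824) (l 16444992)))) (b (b (l 16485800) (a (l 16458168) (l 16439504))) (c (l 16438256) (l 16422504)))) (a (b (a (b (l 16436896) (l 16424512)) (l 16414456)) (l 16414328)) (b (l 16394728) (l 16389672)))) (a (c (a (l 16476680) (l 16451912)) (a (l 16437904) (l 16410640))) (c (a (l 16427488) (l 16403480)) (l 16370768))))) (b (a (b (a (c (b (l 16478320) (l 16444712)) (l 16430776)) (b (l 16442128) (c (l 16402552) (l 16366880)))) (b (a (b (l 16401744) (c (l 16383352) (l 16367312))) (c (l 16360208) (l 16322008))) (a (a (l 16362368) (l 16370336)) (l 16353392)))) (b (a (b (l 16379232) (c (b (l 16371272) (l 16362504)) (l 16330152))) (b (c (l 16347792) (l 16320768)) (l 16310472))) (c (l 16323456) (l 16302352)))) (a (b (c (a (l 16389176) (l 16366880)) (l 16334656)) (c (l 16368352) (l 16320184))) (c (b (l 16334680) (l 16323784)) (b (l 16288432) (l 16272936)))))), by decide +kernel⟩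

def k120_pm_011_t : ∃ t, chk3 f_pm_011_t t 7 14 1 = true :=
  ⟨(a (b (b (a (a (b (c (l 16373488) (l 16271440)) (l 16302856)) (l 16266816)) (l 1)) (a (c (l 16285248) (l 16261208)) (l 6))) (a (a (b (l 16280840) (l 6)) (l 6)) (l 6))) (l 6)), by decide +kernel⟩

def k121_pm_011_t : ∃ t, chk3 f_pm_011_t t 3 15 1 = true :=
  ⟨(a (b (a (c (b (a (a (l 16467616) (l 16442496)) (a (l 16417664) (l 16393184))) (a (a (l 16456920) (l 16431528)) (a (l 16406352) (l 16381472)))) (a (b (a (l 16422400) (l 16394928)) (a (l 16404192) (l 16376600))) (b (l 16354640) (l 16336024)))) (a (b (c (l 16357248) (l 16303344)) (l 6)) (l 6))) (a (b (a (c (a (l 16443048) (l 16417456)) (a (l 16381400) (l 16353776))) (l 6)) (a (b (c (l 16381432) (l 16353776)) (l 6)) (l 6))) (l 6))) (l 6)), by decide +kernel⟩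

theorem s122_pm_011_t : ∃ t, chk3 f_pm_011_t t 3 14 1 = true := ex3_a k119_pm_011_t k120_pm_011_t

theorem s123_pm_011_t : ∃ t, chk3 f_pm_011_t t 3 7 1 = true := ex3_b s122_pm_011_t k121_pm_011_t

theorem s124_pm_011_t : ∃ t, chk3 f_pm_011_t t 12 13 1 = true := ex3_b k115_pm_011_t k116_pm_011_t

theorem s125_pm_011_t : ∃ t, chk3 f_pm_011_t t 6 13 1 = true := ex3_a s124_pm_011_t k117_pm_011_t

theorem s126_pm_011_t : ∃ t, chk3 f_pm_011_t t 6 6 1 = true := ex3_b k114_pm_011_t s125_pm_011_t

theorem s127_pm_011_t : ∃ t, chk3 f_pm_011_t t 3 6 1 = true := ex3_a s126_pm_011_t k118_pm_011_t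

theorem s128_pm_011_t : ∃ t, chk3 f_pm_011_t t 3 3 1 = true := ex3_b s127_pm_011_t s123_pm_011_t

theorem s129_pm_011_t : ∃ t, chk3 f_pm_011_t t 5 30 1 = true := ex3_b k111_pm_011_t k112_pm_011_t

theorem s130_pm_011_t : ∃ t, chk3 f_pm_011_t t 5 15 1 = true := ex3_b s129_pm_011_t k113_pm_011_t

theorem s131_pm_011_t : ∃ t, chk3 f_pm_011_t t 22 28 1 = true := ex3_b k107_pm_011_t k108_pm_011_t

theorem s132_pm_011_t : ∃ t, chk3 f_pm_011_t t 11 28 1 = true := ex3_a s131_pm_011_t k109_pm_011_t

theorem s133_pm_011_t : ∃ t, chk3 f_pm_011_t t 11 14 1 = true := ex3_b s132_pm_011_t k110_pm_011_t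

theorem s134_pm_011_t : ∃ t, chk3 f_pm_011_t t 21 58 1 = true := ex3_a k104_pm_011_t k105_pm_011_t

theorem s135_pm_011_t : ∃ t, chk3 f_pm_011_t t 21 29 1 = true := ex3_b s134_pm_011_t k106_pm_011_t

theorem s136_pm_011_t : ∃ t, chk3 f_pm_011_t t 40 59 1 = true := ex3_b k101_pm_011_t k102_pm_011_t

theorem s137_pm_011_t : ∃ t, chk3 f_pm_011_t t 20 59 1 = true := ex3_a s136_pm_011_t k103_pm_011_t

theorem s138_pm_011_t : ∃ t, chk3 f_pm_011_t t 20 29 1 = true := ex3_b k100_pm_011_t s137_pm_011_t

theorem s139_pm_011_t : ∃ t, chk3 f_pm_011_t t 10 29 1 = true := ex3_a s138_pm_011_t s135_pm_011_t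

theorem s140_pm_011_t : ∃ t, chk3 f_pm_011_t t 10 14 1 = true := ex3_b k99_pm_011_t s139_pm_011_t

theorem s141_pm_011_t : ∃ t, chk3 f_pm_011_t t 5 14 1 = true := ex3_a s140_pm_011_t s133_pm_011_t

theorem s142_pm_011_t : ∃ t, chk3 f_pm_011_t t 5 7 1 = true := ex3_b s141_pm_011_t s130_pm_011_t

theorem s143_pm_011_t : ∃ t, chk3 f_pm_011_t t 18 62 1 = true := ex3_a k95_pm_011_t k96_pm_011_t

theorem s144_pm_011_t : ∃ t, chk3 f_pm_011_t t 18 31 1 = true := ex3_b s143_pm_011_t k97_pm_011_t

theorem s145_pm_011_t : ∃ t, chk3 f_pm_011_t t 9 31 1 = true := ex3_a s144_pm_011_t k98_pm_011_t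

theorem s146_pm_011_t : ∃ t, chk3 f_pm_011_t t 39 30 1 = true := ex3_a k93_pm_011_t k94_pm_011_t

theorem s147_pm_011_t : ∃ t, chk3 f_pm_011_t t 38 121 1 = true := ex3_a k90_pm_011_t k91_pm_011_t

theorem s148_pm_011_t : ∃ t, chk3 f_pm_011_t t 38 60 1 = true := ex3_b k89_pm_011_t s147_pm_011_t

theorem s149_pm_011_t : ∃ t, chk3 f_pm_011_t t 38 30 1 = true := ex3_b s148_pm_011_t k92_pm_011_t

theorem s150_pm_011_t : ∃ t, chk3 f_pm_011_t t 19 30 1 = true := ex3_a s149_pm_011_t s146_pm_011_t

theorem s151_pm_011_t : ∃ t, chk3 f_pm_011_t t 74 122 1 = true := ex3_b k85_pm_011_t k86_pm_011_t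

theorem s152_pm_011_t : ∃ t, chk3 f_pm_011_t t 37 122 1 = true := ex3_a s151_pm_011_t k87_pm_011_t

theorem s153_pm_011_t : ∃ t, chk3 f_pm_011_t t 37 61 1 = true := ex3_b s152_pm_011_t k88_pm_011_t

theorem s154_pm_011_t : ∃ t, chk3 f_pm_011_t t 36 247 1 = true := ex3_a k83_pm_011_t k84_pm_011_t

theorem s155_pm_011_t : ∃ t, chk3 f_pm_011_t t 36 246 1 = true := ex3_b k81_pm_011_t k82_pm_011_t

theorem s156_pm_011_t : ∃ t, chk3 f_pm_011_t t 36 123 1 = true := ex3_b s155_pm_011_t s154_pm_011_t

theorem s157_pm_011_t : ∃ t, chk3 f_pm_011_t t 36 61 1 = true := ex3_b k80_pm_011_t s156_pm_011_t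

theorem s158_pm_011_t : ∃ t, chk3 f_pm_011_t t 18 61 1 = true := ex3_a s157_pm_011_t s153_pm_011_t

theorem s159_pm_011_t : ∃ t, chk3 f_pm_011_t t 18 30 1 = true := ex3_b k79_pm_011_t s158_pm_011_t

theorem s160_pm_011_t : ∃ t, chk3 f_pm_011_t t 9 30 1 = true := ex3_a s159_pm_011_t s150_pm_011_t

theorem s161_pm_011_t : ∃ t, chk3 f_pm_011_t t 9 15 1 = true := ex3_b s160_pm_011_t s145_pm_011_t

theorem s162_pm_011_t : ∃ t, chk3 f_pm_011_t t 17 504 1 = true := ex3_a k74_pm_011_t k75_pm_011_t

theorem s163_pm_011_t : ∃ t, chk3 f_pm_011_t t 17 252 1 = true := ex3_b s162_pm_011_t k76_pm_011_t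

theorem s164_pm_011_t : ∃ t, chk3 f_pm_011_t t 17 126 1 = true := ex3_b s163_pm_011_t k77_pm_011_t

theorem s165_pm_011_t : ∃ t, chk3 f_pm_011_t t 17 63 1 = true := ex3_b s164_pm_011_t k78_pm_011_t

theorem s166_pm_011_t : ∃ t, chk3 f_pm_011_t t 35 125 1 = true := ex3_a k72_pm_011_t k73_pm_011_t

theorem s167_pm_011_t : ∃ t, chk3 f_pm_011_t t 71 124 1 = true := ex3_c k70_pm_011_t k71_pm_011_t

theorem s168_pm_011_t : ∃ t, chk3 f_pm_011_t t 141 124 1 = true := ex3_b k68_pm_011_t k69_pm_011_t

theorem s169_pm_011_t : ∃ t, chk3 f_pm_011_t t 140 249 1 = true := ex3_b k66_pm_011_t k67_pm_011_t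

theorem s170_pm_011_t : ∃ t, chk3 f_pm_011_t t 140 124 1 = true := ex3_b k65_pm_011_t s169_pm_011_t

theorem s171_pm_011_t : ∃ t, chk3 f_pm_011_t t 70 124 1 = true := ex3_a s170_pm_011_t s168_pm_011_t

theorem s172_pm_011_t : ∃ t, chk3 f_pm_011_t t 35 124 1 = true := ex3_a s171_pm_011_t s167_pm_011_t

theorem s173_pm_011_t : ∃ t, chk3 f_pm_011_t t 35 62 1 = true := ex3_b s172_pm_011_t s166_pm_011_t

theorem s174_pm_011_t : ∃ t, chk3 f_pm_011_t t 69 250 3 = true := ex3_a k62_pm_011_t k63_pm_011_t

theorem s175_pm_011_t : ∃ t, chk3 f_pm_011_t t 69 125 3 = true := ex3_b s174_pm_011_t k64_pm_011_t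

theorem s176_pm_011_t : ∃ t, chk3 f_pm_011_t t 68 503 3 = true := ex3_a k60_pm_011_t k61_pm_011_t

theorem s177_pm_011_t : ∃ t, chk3 f_pm_011_t t 68 251 3 = true := ex3_b k59_pm_011_t s176_pm_011_t

theorem s178_pm_011_t : ∃ t, chk3 f_pm_011_t t 68 125 3 = true := ex3_b k58_pm_011_t s177_pm_011_t

theorem s179_pm_011_t : ∃ t, chk3 f_pm_011_t t 34 125 3 = true := ex3_a s178_pm_011_t s175_pm_011_t

theorem s180_pm_011_t : ∃ t, chk3 f_pm_011_t t 69 250 2 = true := ex3_a k55_pm_011_t k56_pm_011_t

theorem s181_pm_011_t : ∃ t, chk3 f_pm_011_t t 69 125 2 = true := ex3_b s180_pm_011_t k57_pm_011_t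

theorem s182_pm_011_t : ∃ t, chk3 f_pm_011_t t 137 251 2 = true := ex3_a k53_pm_011_t k54_pm_011_t

theorem s183_pm_011_t : ∃ t, chk3 f_pm_011_t t 136 503 2 = true := ex3_a k51_pm_011_t k52_pm_011_t

theorem s184_pm_011_t : ∃ t, chk3 f_pm_011_t t 136 251 2 = true := ex3_b k50_pm_011_t s183_pm_011_t

theorem s185_pm_011_t : ∃ t, chk3 f_pm_011_t t 68 251 2 = true := ex3_a s184_pm_011_t s182_pm_011_t

theorem s186_pm_011_t : ∃ t, chk3 f_pm_011_t t 68 125 2 = true := ex3_b k49_pm_011_t s185_pm_011_t

theorem s187_pm_011_t : ∃ t, chk3 f_pm_011_t t 34 125 2 = true := ex3_a s186_pm_011_t s181_pm_011_t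

theorem s188_pm_011_t : ∃ t, chk3 f_pm_011_t t 34 125 1 = true := ex3_c s187_pm_011_t s179_pm_011_t

theorem s189_pm_011_t : ∃ t, chk3 f_pm_011_t t 34 62 1 = true := ex3_b k48_pm_011_t s188_pm_011_t

theorem s190_pm_011_t : ∃ t, chk3 f_pm_011_t t 17 62 1 = true := ex3_a s189_pm_011_t s173_pm_011_t

theorem s191_pm_011_t : ∃ t, chk3 f_pm_011_t t 17 31 1 = true := ex3_b s190_pm_011_t s165_pm_011_t

theorem s192_pm_011_t : ∃ t, chk3 f_pm_011_t t 66 127 1 = true := ex3_a k45_pm_011_t k46_pm_011_t

theorem s193_pm_011_t : ∃ t, chk3 f_pm_011_t t 33 127 1 = true := ex3_a s192_pm_011_t k47_pm_011_t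

theorem s194_pm_011_t : ∃ t, chk3 f_pm_011_t t 134 253 1 = true := ex3_b k42_pm_011_t k43_pm_011_t

theorem s195_pm_011_t : ∃ t, chk3 f_pm_011_t t 67 253 1 = true := ex3_a s194_pm_011_t k44_pm_011_t

theorem s196_pm_011_t : ∃ t, chk3 f_pm_011_t t 271 504 1 = true := ex3_b k39_pm_011_t k40_pm_011_t

theorem s197_pm_011_t : ∃ t, chk3 f_pm_011_t t 271 252 1 = true := ex3_b s196_pm_011_t k41_pm_011_t

theorem s198_pm_011_t : ∃ t, chk3 f_pm_011_t t 270 252 1 = true := ex3_a k37_pm_011_t k38_pm_011_t

theorem s199_pm_011_t : ∃ t, chk3 f_pm_011_t t 135 252 1 = true := ex3_a s198_pm_011_t s197_pm_011_t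

theorem s200_pm_011_t : ∃ t, chk3 f_pm_011_t t 134 1011 2 = true := ex3_a k34_pm_011_t k35_pm_011_t

theorem s201_pm_011_t : ∃ t, chk3 f_pm_011_t t 134 1011 1 = true := ex3_c s200_pm_011_t k36_pm_011_t

theorem s202_pm_011_t : ∃ t, chk3 f_pm_011_t t 269 1010 1 = true := ex3_c k32_pm_011_t k33_pm_011_t

theorem s203_pm_011_t : ∃ t, chk3 f_pm_011_t t 134 1010 1 = true := ex3_a k31_pm_011_t s202_pm_011_t

theorem s204_pm_011_t : ∃ t, chk3 f_pm_011_t t 134 505 1 = true := ex3_b s203_pm_011_t s201_pm_011_t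

theorem s205_pm_011_t : ∃ t, chk3 f_pm_011_t t 134 252 1 = true := ex3_b k30_pm_011_t s204_pm_011_t

theorem s206_pm_011_t : ∃ t, chk3 f_pm_011_t t 67 252 1 = true := ex3_a s205_pm_011_t s199_pm_011_t

theorem s207_pm_011_t : ∃ t, chk3 f_pm_011_t t 67 126 1 = true := ex3_b s206_pm_011_t s195_pm_011_t

theorem s208_pm_011_t : ∃ t, chk3 f_pm_011_t t 267 506 3 = true := ex3_b k27_pm_011_t k28_pm_011_t

theorem s209_pm_011_t : ∃ t, chk3 f_pm_011_t t 266 506 3 = true := ex3_b k25_pm_011_t k26_pm_011_t

theorem s210_pm_011_t : ∃ t, chk3 f_pm_011_t t 133 506 3 = true := ex3_a s209_pm_011_t s208_pm_011_t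

theorem s211_pm_011_t : ∃ t, chk3 f_pm_011_t t 133 253 3 = true := ex3_b s210_pm_011_t k29_pm_011_t

theorem s212_pm_011_t : ∃ t, chk3 f_pm_011_t t 265 507 3 = true := ex3_c k23_pm_011_t k24_pm_011_t

theorem s213_pm_011_t : ∃ t, chk3 f_pm_011_t t 132 507 3 = true := ex3_a k22_pm_011_t s212_pm_011_t

theorem s214_pm_011_t : ∃ t, chk3 f_pm_011_t t 132 253 3 = true := ex3_b k21_pm_011_t s213_pm_011_t

theorem s215_pm_011_t : ∃ t, chk3 f_pm_011_t t 66 253 3 = true := ex3_a s214_pm_011_t s211_pm_011_t

theorem s216_pm_011_t : ∃ t, chk3 f_pm_011_t t 267 506 2 = true := ex3_a k18_pm_011_t k19_pm_011_t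

theorem s217_pm_011_t : ∃ t, chk3 f_pm_011_t t 266 1013 2 = true := ex3_b k16_pm_011_t k17_pm_011_t

theorem s218_pm_011_t : ∃ t, chk3 f_pm_011_t t 266 506 2 = true := ex3_b k15_pm_011_t s217_pm_011_t

theorem s219_pm_011_t : ∃ t, chk3 f_pm_011_t t 133 506 2 = true := ex3_a s218_pm_011_t s216_pm_011_t

theorem s220_pm_011_t : ∃ t, chk3 f_pm_011_t t 133 253 2 = true := ex3_b s219_pm_011_t k20_pm_011_t

theorem s221_pm_011_t : ∃ t, chk3 f_pm_011_t t 265 1014 2 = true := ex3_a k12_pm_011_t k13_pm_011_t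

theorem s222_pm_011_t : ∃ t, chk3 f_pm_011_t t 265 507 2 = true := ex3_b s221_pm_011_t k14_pm_011_t

theorem s223_pm_011_t : ∃ t, chk3 f_pm_011_t t 529 1015 2 = true := ex3_b k10_pm_011_t k11_pm_011_t

theorem s224_pm_011_t : ∃ t, chk3 f_pm_011_t t 264 1015 2 = true := ex3_a k9_pm_011_t s223_pm_011_t

theorem s225_pm_011_t : ∃ t, chk3 f_pm_011_t t 264 507 2 = true := ex3_b k8_pm_011_t s224_pm_011_t

theorem s226_pm_011_t : ∃ t, chk3 f_pm_011_t t 132 507 2 = true := ex3_a s225_pm_011_t s222_pm_011_t

theorem s227_pm_011_t : ∃ t, chk3 f_pm_011_t t 132 253 2 = true := ex3_b k7_pm_011_t s226_pm_011_t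

theorem s228_pm_011_t : ∃ t, chk3 f_pm_011_t t 66 253 2 = true := ex3_a s227_pm_011_t s220_pm_011_t

theorem s229_pm_011_t : ∃ t, chk3 f_pm_011_t t 66 253 1 = true := ex3_c s228_pm_011_t s215_pm_011_t

theorem s230_pm_011_t : ∃ t, chk3 f_pm_011_t t 66 126 1 = true := ex3_b k6_pm_011_t s229_pm_011_t

theorem s231_pm_011_t : ∃ t, chk3 f_pm_011_t t 33 126 1 = true := ex3_a s230_pm_011_t s207_pm_011_t

theorem s232_pm_011_t : ∃ t, chk3 f_pm_011_t t 33 63 1 = true := ex3_b s231_pm_011_t s193_pm_011_t

theorem s233_pm_011_t : ∃ t, chk3 f_pm_011_t t 16 63 1 = true := ex3_a k5_pm_011_t s232_pm_011_t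

theorem s234_pm_011_t : ∃ t, chk3 f_pm_011_t t 16 31 1 = true := ex3_b k4_pm_011_t s233_pm_011_t

theorem s235_pm_011_t : ∃ t, chk3 f_pm_011_t t 8 31 1 = true := ex3_a s234_pm_011_t s191_pm_011_t

theorem s236_pm_011_t : ∃ t, chk3 f_pm_011_t t 8 15 1 = true := ex3_b k3_pm_011_t s235_pm_011_t

theorem s237_pm_011_t : ∃ t, chk3 f_pm_011_t t 4 15 1 = true := ex3_a s236_pm_011_t s161_pm_011_t

theorem s238_pm_011_t : ∃ t, chk3 f_pm_011_t t 4 7 1 = true := ex3_b k2_pm_011_t s237_pm_011_t

theorem s239_pm_011_t : ∃ t, chk3 f_pm_011_t t 2 7 1 = true := ex3_a s238_pm_011_t s142_pm_011_t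

theorem s240_pm_011_t : ∃ t, chk3 f_pm_011_t t 2 3 1 = true := ex3_b k1_pm_011_t s239_pm_011_t

theorem s241_pm_011_t : ∃ t, chk3 f_pm_011_t t 1 3 1 = true := ex3_a s240_pm_011_t s128_pm_011_t

theorem s242_pm_011_t : ∃ t, chk3 f_pm_011_t t 1 1 1 = true := ex3_b k0_pm_011_t s241_pm_011_t

theorem c_pm_011_t : CertNE 0 536870912 536870912 536870912 991146299 28908434 3 eng mog cd0q0 cd0q1 pd1 false true false .pnn 0 1 1
    ndB0q0 ndB0q1 pcB1 cut_pm_011_t Ext.none :=
  certNE0 (fam := false) (s1 := true) (s2 := false) (a := 0) (b := 1) (c := 1) (cn := .pnn) (n1 := ndB0q0) (n2 := ndB0q1) (pc := pcB1) (cut := cut_pm_011_t) (xt := Ext.none) (P1 := 0) (W1 := 536870912) (P2 := 536870912) (W2 := 536870912) (P3 := 991146299) (W3 := 28908434) (N0 := 3) (En := eng) (mo := mog) (C1 := cd0q0) (C2 := cd0q1) (C3 := pd1)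
    rfl s242_pm_011_t

noncomputable def cut_pm_012_s : Cut := Cut.of [[⟨4, 0, 0, 1449551462⟩], [⟨0, 0, 0, 53687091⟩, ⟨1, 1, 0, 53687091⟩, ⟨2, 1, 0, 53687091⟩]]

noncomputable def f_pm_012_s : ℕ → ℕ → ℕ → ℕ → Bool := onCell 0 536870912 0 536870912 991146299 28908434
    (rowNE 3 eng mog cd0q0 cd0q2 pd1 0 false true false .pnp 0 1 2 (qsf 0 536870912 0 536870912 1) ndB0q0 ndB0q2 pcB1 cut_pm_012_s Ext.none)

def k0_pm_012_s : ∃ t, chk3 f_pm_012_s t 1 1 1 = true :=
  ⟨(a (l 6) (b (a (b (a (l 6) (a (l 6) (b (a (l 6) (l 16510640)) (l 6)))) (l 6)) (b (a (b (a (a (l 16565224) (l 16493104)) (b (a (b (l 16614136) (l 16618968)) (b (l 16605864) (l 16575592))) (l 16501672))) (l 6)) (b (a (b (a (l 16596776) (l 16598840)) (a (b (l 16516168) (l 16593160)) (b (l 16567216) (a (l 16567760) (l 16554152))))) (a (b (l 16604992) (b (l 16568464) (l 16483992))) (c (l 16534920) (l 16578656)))) (a (a (l 16529248) (l 16462248)) (b (a (a (l 16566552) (l 16464872)) (b (a (l 16505344) (l 16522032)) (l 16469224))) (a (l 16600784)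 (l 16529248)))))) (l 6))) (l 6))), by decide +kernel⟩

theorem c_pm_012_s : CertNE 0 536870912 0 536870912 991146299 28908434 3 eng mog cd0q0 cd0q2 pd1 false true false .pnp 0 1 2
    ndB0q0 ndB0q2 pcB1 cut_pm_012_s Ext.none :=
  certNE0 (fam := false) (s1 := true) (s2 := false) (a := 0) (b := 1) (c := 2) (cn := .pnp) (n1 := ndB0q0) (n2 := ndB0q2) (pc := pcB1) (cut := cut_pm_012_s) (xt := Ext.none) (P1 := 0) (W1 := 536870912) (P2 := 0) (W2 := 536870912) (P3 := 991146299) (W3 := 28908434) (N0 := 3) (En := eng) (mo := mog) (C1 := cd0q0) (C2 := cd0q2) (C3 := pd1)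
    rfl k0_pm_012_s

noncomputable def cut_pm_012_t : Cut := Cut.of [[⟨3, 0, 0, 2845415833⟩], [⟨0, 0, 0, 53687091⟩, ⟨1, 1, 0, 53687091⟩, ⟨2, 1, 0, 53687091⟩]]

noncomputable def f_pm_012_t : ℕ → ℕ → ℕ → ℕ → Bool := onCell 536870912 536870912 0 536870912 991146299 28908434
    (rowNE 3 eng mog cd0q0 cd0q2 pd1 2 false true false .pnp 0 1 2 (qsf 0 536870912 0 536870912 1) ndB0q0 ndB0q2 pcB1 cut_pm_012_t Ext.none)

def k0_pm_012_t : ∃ t, chk3 f_pm_012_t t 1 2 1 = true :=
  ⟨(l 6), by decide +kernel⟩

def k1_pm_012_t : ∃ t, chk3 f_pm_012_t t 2 3 1 = true :=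
  ⟨(b (l 6) (l 6)), by decide +kernel⟩

def k2_pm_012_t : ∃ t, chk3 f_pm_012_t t 6 3 1 = true :=
  ⟨(b (l 6) (b (l 6) (a (b (l 6) (a (a (l 6) (c (l 16507520) (l 16414488))) (a (c (l 16526616) (l 16434552)) (c (l 16524728) (l 16434200))))) (b (a (b (l 6) (b (l 6) (l 16470656))) (b (c (l 16468072) (l 16478656)) (a (l 16497112) (l 16508192)))) (a (a (a (l 16432104) (l 16442160)) (a (l 16452232) (l 16462320))) (a (a (l 16472408) (l 16482568)) (b (l 16547328) (l 16532368)))))))), by decide +kernel⟩

def k3_pm_012_t : ∃ t, chk3 f_pm_012_t t 7 6 1 = true :=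
  ⟨(l 6), by decide +kernel⟩

def k4_pm_012_t : ∃ t, chk3 f_pm_012_t t 14 7 1 = true :=
  ⟨(b (b (l 6) (a (a (l 6) (b (l 6) (l 16483952))) (a (b (l 6) (l 16497992)) (b (c (l 16522128) (l 16542720)) (c (l 16544312) (l 16565136)))))) (b (a (a (b (l 16501944) (l 16519552)) (b (l 16493672) (l 16531384))) (b (a (l 16506768) (c (l 16551984) (l 16573264))) (a (l 16533464) (a (l 16574600) (l 16581176))))) (a (a (b (l 16562880) (l 16553664)) (b (l 16574200) (l 16574096))) (b (a (l 16575664) (a (l 16594928) (l 16601568))) (a (b (l 16615752) (l 16593856)) (b (l 16633984) (b (l 16633912) (l 16634288)))))))), by decide +kernel⟩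

def k5_pm_012_t : ∃ t, chk3 f_pm_012_t t 15 14 1 = true :=
  ⟨(a (b (a (l 6) (b (l 6) (a (l 16524648) (l 16533152)))) (a (b (a (l 16544104) (l 16531120)) (a (l 16544656) (l 16552120))) (b (a (l 16539096) (c (l 16559880) (l 16576048))) (a (l 16538440) (a (l 16565192) (l 16569320)))))) (a (b (b (a (l 6) (a (l 6) (l 16545376))) (a (c (l 16554240) (l 16570792)) (b (l 16547544) (l 16552720)))) (b (a (b (l 16550856) (l 16559424)) (b (l 16559496) (l 16568240))) (a (b (l 16569600) (l 16581784)) (c (l 16578792) (l 16591200))))) (b (b (a (c (l 16564912) (l 16560800)) (c (l 16553880) (l 16569960))) (a (c (l 16572976) (l 16566648)) (c (l 16562376) (l 16576064)))) (a (b (c (l 16567128) (l 16579840)) (b (c (l 16603784) (l 16615208)) (a (l 16619136) (l 16602760)))) (b (a (b (l 16597360) (l 16585168)) (b (l 16581384) (l 16589928))) (a (b (l 16595448) (l 16607136)) (b (l 16599904) (l 14)))))))), by decide +kernel⟩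

def k6_pm_012_t : ∃ t, chk3 f_pm_012_t t 15 15 1 = true :=
  ⟨(a (b (b (a (a (l 16551880) (c (l 16592104) (l 16588648))) (a (b (l 16579072) (l 16595080)) (b (l 16587064) (l 16603504)))) (a (b (a (l 16598816) (l 16605904)) (c (l 16613128) (l 16610776))) (b (a (l 16613696) (l 16622376)) (a (l 16613136) (l 16622064))))) (b (a (a (l 16614056) (a (l 16635320) (l 16639488))) (a (b (l 16634656) (l 16657168)) (b (l 16643448) (l 16668784)))) (a (a (a (l 16644256) (l 16647992)) (b (l 16673576) (l 16654344))) (a (b (l 16680496) (a (l 16681360) (l 14))) (l 14))))) (b (a (b (a (b (l 16595952) (l 16612528)) (b (a (l 16623864) (l 16607568)) (a (l 16619408) (l 16623808)))) (b (a (l 16610480) (a (l 16637944) (l 14))) (a (c (l 16645728) (l 16657912)) (l 14)))) (b (b (a (a (l 16612064) (l 16616344)) (l 14)) (l 14)) (l 14))) (a (b (a (b (c (l 16666752) (l 16678688)) (l 14)) (l 14)) (l 14)) (l 14)))), by decide +kernel⟩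

theorem s7_pm_012_t : ∃ t, chk3 f_pm_012_t t 15 7 1 = true := ex3_b k5_pm_012_t k6_pm_012_t

theorem s8_pm_012_t : ∃ t, chk3 f_pm_012_t t 7 7 1 = true := ex3_a k4_pm_012_t s7_pm_012_t

theorem s9_pm_012_t : ∃ t, chk3 f_pm_012_t t 7 3 1 = true := ex3_b k3_pm_012_t s8_pm_012_t

theorem s10_pm_012_t : ∃ t, chk3 f_pm_012_t t 3 3 1 = true := ex3_a k2_pm_012_t s9_pm_012_t

theorem s11_pm_012_t : ∃ t, chk3 f_pm_012_t t 1 3 1 = true := ex3_a k1_pm_012_t s10_pm_012_t

theorem s12_pm_012_t : ∃ t, chk3 f_pm_012_t t 1 1 1 = true := ex3_b k0_pm_012_t s11_pm_012_t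

theorem c_pm_012_t : CertNE 0 536870912 0 536870912 991146299 28908434 3 eng mog cd0q0 cd0q2 pd1 false true false .pnp 0 1 2
    ndB0q0 ndB0q2 pcB1 cut_pm_012_t Ext.none :=
  certNE2 (fam := false) (s1 := true) (s2 := false) (a := 0) (b := 1) (c := 2) (cn := .pnp) (n1 := ndB0q0) (n2 := ndB0q2) (pc := pcB1) (cut := cut_pm_012_t) (xt := Ext.none) (P1 := 0) (W1 := 536870912) (P2 := 0) (W2 := 536870912) (P3 := 991146299) (W3 := 28908434) (N0 := 3) (En := eng) (mo := mog) (C1 := cd0q0) (C2 := cd0q2) (C3 := pd1)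
    rfl (fun _ => rfl) s12_pm_012_t

noncomputable def cut_pm_022_s : Cut := Cut.of [[⟨4, 0, 0, 1449551462⟩], [⟨0, 0, 0, 53687091⟩, ⟨1, 1, 0, 53687091⟩, ⟨2, 1, 0, 53687091⟩]]

noncomputable def f_pm_022_s : ℕ → ℕ → ℕ → ℕ → Bool := onCell 1073741824 536870912 0 536870912 991146299 28908434
    (rowNE 3 eng mog cd0q0 cd0q2 pd2 2 false true false .pp 0 2 2 (qsf 0 536870912 0 536870912 2) ndB0q0 ndB0q2 pcB2 cut_pm_022_s Ext.none)

def k0_pm_022_s : ∃ t, chk3 f_pm_022_s t 1 1 1 = true :=
  ⟨(l 6), by decide +kernel⟩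

theorem c_pm_022_s : CertNE 0 536870912 0 536870912 991146299 28908434 3 eng mog cd0q0 cd0q2 pd2 false true false .pp 0 2 2
    ndB0q0 ndB0q2 pcB2 cut_pm_022_s Ext.none :=
  certNE2 (fam := false) (s1 := true) (s2 := false) (a := 0) (b := 2) (c := 2) (cn := .pp) (n1 := ndB0q0) (n2 := ndB0q2) (pc := pcB2) (cut := cut_pm_022_s) (xt := Ext.none) (P1 := 0) (W1 := 536870912) (P2 := 0) (W2 := 536870912) (P3 := 991146299) (W3 := 28908434) (N0 := 3) (En := eng) (mo := mog) (C1 := cd0q0) (C2 := cd0q2) (C3 := pd2)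
    rfl (fun _ => rfl) k0_pm_022_s

noncomputable def cut_pm_022_t : Cut := Cut.of [[⟨3, 0, 0, 2845415833⟩], [⟨0, 0, 0, 53687091⟩, ⟨1, 1, 0, 53687091⟩, ⟨2, 1, 0, 53687091⟩]]

noncomputable def f_pm_022_t : ℕ → ℕ → ℕ → ℕ → Bool := onCell 0 536870912 0 536870912 991146299 28908434
    (rowNE 3 eng mog cd0q0 cd0q2 pd2 0 false true false .pp 0 2 2 (qsf 0 536870912 0 536870912 2) ndB0q0 ndB0q2 pcB2 cut_pm_022_t Ext.none)

def k0_pm_022_t : ∃ t, chk3 f_pm_022_t t 2 2 1 = true :=
  ⟨(l 6), by decide +kernel⟩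

def k1_pm_022_t : ∃ t, chk3 f_pm_022_t t 4 12 1 = true :=
  ⟨(l 6), by decide +kernel⟩

def k2_pm_022_t : ∃ t, chk3 f_pm_022_t t 4 26 1 = true :=
  ⟨(a (a (a (b (b (l 6) (a (a (b (l 6) (c (l 16248248) (l 16176320))) (l 6)) (l 6))) (b (c (a (c (b (l 16275544) (l 16282000)) (a (l 16261024) (l 16266888))) (c (l 16293592) (l 16254208))) (a (c (l 16208848) (l 16168376)) (c (l 16213616) (l 16171816)))) (c (a (c (a (l 16288008) (l 16317040)) (b (l 16253120) (l 16260168))) (c (l 16307592) (l 16268584))) (a (b (a (l 16209824) (l 16199496)) (c (l 16223736) (l 16186256))) (c (l 16228376) (l 16186976)))))) (a (b (l 6) (c (c (l 16335448) (l 16292504)) (c (l 16248200) (l 16202544)))) (l 6))) (l 6)) (l 6)), by decide +kernel⟩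

def k3_pm_022_t : ∃ t, chk3 f_pm_022_t t 8 54 1 = true :=
  ⟨(a (a (c (a (c (b (a (l 16302000) (l 16331360)) (a (l 16322088) (l 16325544))) (b (a (l 16267752) (l 16274464)) (a (a (l 16281248) (l 16305840)) (l 16290144)))) (c (b (l 16322376) (l 16337904)) (b (l 16283856) (l 16299984)))) (a (c (b (a (l 16232496) (l 16237456)) (a (a (l 16246896) (l 16270656)) (l 16253680))) (b (a (l 16196232) (l 16199368)) (a (l 16217792) (l 16216152)))) (c (b (l 16244152) (l 16271392)) (b (l 16203272) (l 16231152))))) (c (a (c (b (l 16358104) (l 16374120)) (b (l 16295040) (l 16311744))) (c (l 16379696) (l 16334264))) (c (a (b (l 16251608) (l 16269048)) (l 16287368)) (a (b (l 16206864) (l 16225040)) (l 16239008))))) (a (a (c (c (l 16392136) (l 16342920)) (c (l 16292088) (l 16239624))) (b (l 6) (c (l 16386080) (l 16277344)))) (l 6))), by decide +kernel⟩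

def k4_pm_022_t : ∃ t, chk3 f_pm_022_t t 8 55 1 = true :=
  ⟨(a (a (c (a (c (b (a (b (l 16328552) (l 16336624)) (l 16341504)) (a (b (l 16344904) (l 16353400)) (l 16358296))) (b (a (a (l 16297480) (l 16301264)) (l 16306744)) (a (b (l 16312264) (l 16321152)) (l 16324304)))) (c (b (l 16364704) (c (l 16380248) (l 16362352))) (b (a (l 16313688) (l 16341200)) (c (l 16344168) (l 16325712))))) (c (a (b (a (a (l 16263736) (l 16266704)) (l 16270952)) (a (b (l 16278664) (l 16287960)) (l 16299792))) (b (c (l 16288368) (l 16268920)) (c (l 16306976) (l 16287968)))) (a (b (a (b (l 16225616) (l 16234704)) (l 16234120)) (a (b (l 16244104) (l 16253816)) (l 16263776))) (b (c (l 16249184) (l 16229160)) (a (l 16257160) (l 16260544)))))) (c (a (c (b (l 16390880) (l 16408408)) (b (l 16350296) (l 16368760))) (c (l 16393104) (b (l 16361104) (l 16380048)))) (c (a (b (l 16287464) (l 16327864)) (b (l 16315584) (l 16335584))) (a (b (l 16244328) (l 16285720)) (b (l 16247664) (l 16289728)))))) (c (a (a (c (l 16427312) (l 16380104))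 (c (l 16439344) (l 16388408))) (a (c (l 16450256) (l 16395496)) (l 16325800))) (a (a (c (l 16331336) (l 16281008)) (c (l 16335760) (l 16281400))) (a (c (l 16338848) (l 16280328)) (c (l 16340280) (l 16277472)))))), by decide +kernel⟩

def k5_pm_022_t : ∃ t, chk3 f_pm_022_t t 9 27 1 = true :=
  ⟨(a (l 6) (l 1)), by decide +kernel⟩

def k6_pm_022_t : ∃ t, chk3 f_pm_022_t t 5 6 1 = true :=
  ⟨(l 1), by decide +kernel⟩

def k7_pm_022_t : ∃ t, chk3 f_pm_022_t t 16 28 2 = true :=
  ⟨(a (b (a (c (b (a (c (l 16374320) (l 16358752)) (l 16386424)) (a (c (l 16392400) (l 16379936)) (b (l 16389736) (l 16399192)))) (b (a (c (l 16342952) (l 16326920)) (l 16355952)) (a (a (b (l 16347264) (l 16357128)) (l 16366816)) (c (l 16370480) (l 16354208))))) (c (b (c (l 16397960) (l 16380528)) (a (l 16403608) (l 16433360))) (b (a (l 16350296) (l 16357336)) (a (l 16370056) (l 16398288))))) (a (a (c (b (c (l 16419136) (c (l 16400384) (l 16393056))) (c (c (l 16434352) (l 16427440)) (b (l 16411816) (l 16422152)))) (b (c (c (l 16385672)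 (l 16378240)) (c (l 16370752) (l 16363216))) (c (b (l 16397512) (l 16408168)) (b (l 16383000) (l 16393976))))) (c (b (b (l 16408848) (l 16418688)) (c (l 16441112) (l 16426504))) (b (c (l 16390640) (l 16374952)) (c (l 16411672) (l 16396624))))) (c (b (a (l 16444048) (l 16452984)) (a (l 16464280) (l 16473360))) (b (a (l 16411688) (l 16419144)) (a (l 16433224) (l 16440864)))))) (b (a (c (b (l 16426728) (l 16445848)) (b (l 16388128) (l 16408432))) (c (b (l 16441808) (l 16461248)) (b (l 16399864) (l 16420568)))) (a (c (b (l 16465712) (l 16465312)) (b (l 16408608) (a (l 16448088) (l 16454896)))) (c (b (l 16481392) (l 16502216)) (b (l 16442088) (l 16464392)))))), by decide +kernel⟩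

def k8_pm_022_t : ∃ t, chk3 f_pm_022_t t 16 28 3 = true :=
  ⟨(a (b (a (c (b (a (c (l 16310656) (l 16294168)) (b (l 16303800) (l 16313808))) (a (c (a (l 16328888) (l 16353472)) (a (l 16313096) (l 16337296))) (c (l 16337704) (l 16320952)))) (b (a (c (l 16277440) (l 16260480)) (b (l 16268488) (l 16279008))) (a (c (a (l 16297080) (l 16320896)) (c (l 16286224) (l 16277952))) (c (l 16303968) (l 16286744))))) (c (b (a (l 16314632) (l 16320040)) (a (l 16335488) (l 16341168))) (b (a (l 16277920) (l 16281640)) (a (l 16310400) (l 16303944))))) (a (c (b (a (c (a (l 16349912) (l 16353648)) (a (l 16334688) (l 16338056))) (c (l 16359032) (l 16342888))) (a (c (b (l 16368272) (l 16379592)) (b (l 16353344) (l 16364992))) (c (l 16381360) (l 16365872)))) (b (a (c (a (l 16319256) (l 16322248)) (a (l 16303608) (l 16306224))) (c (l 16326504) (l 16309896))) (a (c (b (l 16338208) (l 16350200)) (b (l 16322856) (l 16335200))) (c (l 16350168) (l 16334240))))) (c (b (a (l 16367856) (l 16384264)) (c (l 16402160) (l 16390792)))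 (b (a (l 16344032) (l 16348344)) (a (b (l 16341152) (l 16353576)) (l 16372888)))))) (b (a (c (b (l 16348320) (l 16369832)) (b (l 16307304) (l 16330064))) (c (b (l 16356576) (l 16378584)) (b (l 16311944) (l 16335288)))) (a (c (b (a (l 16389736) (l 16394760)) (a (l 16413056) (l 16418296))) (b (a (l 16352176) (l 16355520)) (a (l 16376968) (l 16380568)))) (c (b (l 16401512) (l 16425352)) (b (l 16359680) (l 16385104)))))), by decide +kernel⟩

def k9_pm_022_t : ∃ t, chk3 f_pm_022_t t 16 29 1 = true :=
  ⟨(b (b (a (c (a (c (a (c (b (l 16446152) (l 16456592)) (b (l 16432704) (l 16443496))) (c (l 16461680) (l 16447760))) (a (c (b (l 16419064) (l 16430200)) (b (l 16405216) (l 16416720))) (c (l 16433624) (l 16419288)))) (c (a (l 16485320) (l 16494520)) (a (b (l 16429008) (l 16440480)) (l 16463496)))) (a (c (a (c (b (l 16391176) (l 16403040)) (b (l 16376936) (l 16389168))) (c (l 16404736) (l 16389976))) (a (c (b (l 16362496) (l 16375104)) (b (l 16347856) (l 16360848))) (c (l 16385488) (l 16359824)))) (c (a (c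 (l 16411912) (l 16396432)) (l 16431512)) (a (c (l 16380728) (l 16364800)) (l 16398592))))) (c (a (c (l 16465672) (a (l 16470872) (l 16477832))) (c (l 16523768) (l 16487544))) (a (c (a (l 16437392) (l 16442824)) (a (l 16402912) (l 16406744))) (c (l 16450160) (l 16411608))))) (b (a (a (c (c (a (a (l 16468800) (l 16463464)) (l 16471000)) (a (c (l 16441592) (l 16433728)) (l 16454344))) (c (a (c (l 16420432) (l 16406952)) (l 16431656)) (a (c (l 16393280) (l 16374176)) (l 16402912)))) (c (c (a (l 16501648) (l 16510936)) (a (l 16452208) (l 16481088))) (c (c (l 16433784) (l 16418544)) (c (l 16403088) (l 16387408))))) (c (a (c (l 16524136) (l 16492168)) (c (l 16540432) (l 16505488))) (a (c (l 16459192) (l 16425224)) (c (l 16469424) (l 16432240))))) (l 14))) (l 14)), by decide +kernel⟩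

def k10_pm_022_t : ∃ t, chk3 f_pm_022_t t 16 15 1 = true :=
  ⟨(l 14), by decide +kernel⟩

def k11_pm_022_t : ∃ t, chk3 f_pm_022_t t 17 7 1 = true :=
  ⟨(a (b (b (c (c (b (a (l 16444384) (l 16478000)) (a (l 16464224) (l 16498328))) (b (a (l 16399624) (l 16429688)) (a (b (l 16453096) (l 16475712)) (l 16453072)))) (b (a (c (b (l 16363248) (l 16385720)) (b (l 16314848) (l 16338752))) (c (l 16379752) (l 16328192))) (a (c (b (l 16409080) (l 16433304)) (b (l 16363656) (l 16389544))) (c (l 16406296) (b (l 16365944) (l 16392272)))))) (b (b (c (a (c (l 16538520) (l 16499136)) (l 16446896)) (a (c (l 16458456) (l 16416480)) (c (l 16465152) (l 16419608)))) (b (c (a (l 16494488) (l 16506416)) (a (c (l 16477952) (l 16437400)) (l 16442032))) (l 14))) (l 14))) (l 14)) (b (a (b (c (b (c (l 16489488) (l 16437512)) (c (l 16510264) (l 16482464))) (b (c (l 16383744) (l 16328200)) (c (l 16432016) (l 16379896)))) (b (c (c (l 16533472) (l 16488336)) (c (l 16441640) (l 16372424))) (a (a (l 14) (l 1)) (l 1)))) (b (c (b (c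 (l 16499520) (l 16443752)) (c (l 16520696) (l 16489256))) (b (c (l 16386032) (l 16326368)) (c (l 16435008) (l 16378928)))) (a (b (c (l 16476064) (l 16356240)) (l 1)) (l 1)))) (l 1))), by decide +kernel⟩

def k12_pm_022_t : ∃ t, chk3 f_pm_022_t t 9 7 1 = true :=
  ⟨(b (a (a (b (a (b (c (l 16372840) (c (l 16385744) (l 16321792))) (a (c (l 16457688) (l 16364248)) (l 1))) (b (c (l 16396904) (l 16243696)) (l 1))) (l 1)) (l 1)) (l 1)) (l 1)), by decide +kernel⟩

def k13_pm_022_t : ∃ t, chk3 f_pm_022_t t 5 7 1 = true :=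
  ⟨(l 1), by decide +kernel⟩

def k14_pm_022_t : ∃ t, chk3 f_pm_022_t t 3 1 1 = true :=
  ⟨(l 1), by decide +kernel⟩

theorem s15_pm_022_t : ∃ t, chk3 f_pm_022_t t 16 28 1 = true := ex3_c k7_pm_022_t k8_pm_022_t

theorem s16_pm_022_t : ∃ t, chk3 f_pm_022_t t 16 14 1 = true := ex3_b s15_pm_022_t k9_pm_022_t

theorem s17_pm_022_t : ∃ t, chk3 f_pm_022_t t 16 7 1 = true := ex3_b s16_pm_022_t k10_pm_022_t

theorem s18_pm_022_t : ∃ t, chk3 f_pm_022_t t 8 7 1 = true := ex3_a s17_pm_022_t k11_pm_022_t

theorem s19_pm_022_t : ∃ t, chk3 f_pm_022_t t 4 7 1 = true := ex3_a s18_pm_022_t k12_pm_022_t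

theorem s20_pm_022_t : ∃ t, chk3 f_pm_022_t t 2 7 1 = true := ex3_a s19_pm_022_t k13_pm_022_t

theorem s21_pm_022_t : ∃ t, chk3 f_pm_022_t t 8 27 1 = true := ex3_b k3_pm_022_t k4_pm_022_t

theorem s22_pm_022_t : ∃ t, chk3 f_pm_022_t t 4 27 1 = true := ex3_a s21_pm_022_t k5_pm_022_t

theorem s23_pm_022_t : ∃ t, chk3 f_pm_022_t t 4 13 1 = true := ex3_b k2_pm_022_t s22_pm_022_t

theorem s24_pm_022_t : ∃ t, chk3 f_pm_022_t t 4 6 1 = true := ex3_b k1_pm_022_t s23_pm_022_t

theorem s25_pm_022_t : ∃ t, chk3 f_pm_022_t t 2 6 1 = true := ex3_a s24_pm_022_t k6_pm_022_t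

theorem s26_pm_022_t : ∃ t, chk3 f_pm_022_t t 2 3 1 = true := ex3_b s25_pm_022_t s20_pm_022_t

theorem s27_pm_022_t : ∃ t, chk3 f_pm_022_t t 2 1 1 = true := ex3_b k0_pm_022_t s26_pm_022_t

theorem s28_pm_022_t : ∃ t, chk3 f_pm_022_t t 1 1 1 = true := ex3_a s27_pm_022_t k14_pm_022_t

theorem c_pm_022_t : CertNE 0 536870912 0 536870912 991146299 28908434 3 eng mog cd0q0 cd0q2 pd2 false true false .pp 0 2 2
    ndB0q0 ndB0q2 pcB2 cut_pm_022_t Ext.none :=
  certNE0 (fam := false) (s1 := true) (s2 := false) (a := 0) (b := 2) (c := 2) (cn := .pp) (n1 := ndB0q0) (n2 := ndB0q2) (pc := pcB2) (cut := cut_pm_022_t) (xt := Ext.none) (P1 := 0) (W1 := 536870912) (P2 := 0) (W2 := 536870912) (P3 := 991146299) (W3 := 28908434) (N0 := 3) (En := eng) (mo := mog) (C1 := cd0q0) (C2 := cd0q2) (C3 := pd2)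
    rfl s28_pm_022_t

noncomputable def cut_pm_101_s : Cut := Cut.of [[⟨4, 0, 0, 1127428915⟩], [⟨0, 1, 0, 26843545⟩, ⟨1, 0, 0, 26843545⟩, ⟨2, 1, 0, 26843545⟩], [⟨0, 0, 1, 46137344⟩, ⟨1, 1, 2, 46137344⟩, ⟨2, 1, 0, 2097152⟩, ⟨0, 0, 0, 1027248803⟩, ⟨0, 1, 0, 87939455⟩, ⟨1, 0, 0, 87939455⟩, ⟨1, 1, 0, 1027248803⟩]]

noncomputable def f_pm_101_s : ℕ → ℕ → ℕ → ℕ → Bool := onCell 536870912 536870912 536870912 536870912 991146299 28908434
    (rowNE 3 eng mog cd0q1 cd0q1 pd0 0 false true false .npn 1 0 1 (qsf 536870912 536870912 536870912 536870912 0) ndB0q1 ndB0q1 pcB0 cut_pm_101_s Ext.none)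

def k0_pm_101_s : ∃ t, chk3 f_pm_101_s t 1 1 1 = true :=
  ⟨(a (l 6) (b (l 6) (a (l 6) (b (l 6) (a (l 6) (b (l 6) (b (l 6) (a (l 6) (b (a (l 6) (b (l 1) (l 14))) (a (a (l 6) (l 14)) (l 14))))))))))), by decide +kernel⟩

theorem c_pm_101_s : CertNE 536870912 536870912 536870912 536870912 991146299 28908434 3 eng mog cd0q1 cd0q1 pd0 false true false .npn 1 0 1
    ndB0q1 ndB0q1 pcB0 cut_pm_101_s Ext.none :=
  certNE0 (fam := false) (s1 := true) (s2 := false) (a := 1) (b := 0) (c := 1) (cn := .npn) (n1 := ndB0q1) (n2 := ndB0q1) (pc := pcB0) (cut := cut_pm_101_s) (xt := Ext.none) (P1 := 536870912) (W1 := 536870912) (P2 := 536870912) (W2 := 536870912) (P3 := 991146299) (W3 := 28908434) (N0 := 3) (En := eng) (mo := mog) (C1 := cd0q1) (C2 := cd0q1) (C3 := pd0)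
    rfl k0_pm_101_s

noncomputable def cut_pm_101_t : Cut := Cut.of [[⟨3, 0, 0, 2845415833⟩], [⟨0, 1, 0, 26843545⟩, ⟨1, 0, 0, 26843545⟩, ⟨2, 1, 0, 26843545⟩], [⟨0, 0, 1, 46137344⟩, ⟨1, 1, 2, 46137344⟩, ⟨2, 1, 0, 2097152⟩, ⟨0, 0, 0, 1027248803⟩, ⟨0, 1, 0, 87939455⟩, ⟨1, 0, 0, 87939455⟩, ⟨1, 1, 0, 1027248803⟩]]

noncomputable def f_pm_101_t : ℕ → ℕ → ℕ → ℕ → Bool := onCell 536870912 536870912 536870912 536870912 991146299 28908434
    (rowNE 3 eng mog cd0q1 cd0q1 pd0 0 false true false .npn 1 0 1 (qsf 536870912 536870912 536870912 536870912 0) ndB0q1 ndB0q1 pcB0 cut_pm_101_t Ext.none)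

def k0_pm_101_t : ∃ t, chk3 f_pm_101_t t 4 4 1 = true :=
  ⟨(a (b (l 4) (a (b (l 4) (a (l 4) (a (l 4) (b (l 4) (b (l 4) (l 117809550967)))))) (b (a (l 4) (a (l 4) (b (l 4) (b (l 4) (l 117809549399))))) (c (b (a (a (l 4) (l 118346391399)) (b (l 97945324983) (l 16761216))) (a (b (l 16745248) (l 16760400)) (l 16732200))) (b (a (l 123178202487) (a (l 16742240) (l 16761072))) (a (b (l 16747960) (l 16759648)) (l 16731040))))))) (b (a (a (l 4) (l 1)) (l 1)) (a (b (b (b (a (l 4) (l 1)) (a (c (l 116735776199) (l 119957007911)) (c (l 16761536) (l 16761976)))) (a (c (b (l 94187227303) (l 16761352)) (a (l 119956994247) (l 16761456))) (c (l 16730896) (l 16731736)))) (b (c (a (l 16731864) (l 16626264)) (a (l 16731776) (l 16647880))) (a (c (l 16649440) (l 16648160)) (c (l 16648992) (l 16648400))))) (a (b (b (l 1) (c (l 220687136311) (l 16628112))) (c (b (l 16624496) (l 16604864)) (b (l 16647536) (l 16605704)))) (b (l 1) (c (b (l 16603224) (l 16560080)) (b (l 16607240) (l 16562976)))))))), by decide +kernel⟩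

def k1_pm_101_t : ∃ t, chk3 f_pm_101_t t 4 10 1 = true :=
  ⟨(a (b (a (a (a (b (l 4) (b (l 112440821591) (l 16764824))) (b (c (l 121030745959) (l 122641364471)) (c (l 16757176) (l 16755232)))) (b (c (b (l 16745704) (l 16758896)) (b (l 100092814631) (l 16757544))) (c (l 16730200) (l 16726296)))) (c (a (b (l 16731648) (l 16681984)) (b (l 16679384) (l 16653648))) (a (c (l 16709584) (l 16728552)) (b (l 16647120) (l 16646712))))) (a (c (b (a (l 16727792) (l 16680752)) (a (l 16688704) (l 16631552))) (b (a (l 16722080) (b (l 16693384) (l 16671248))) (a (c (l 16679848) (l 16673592)) (l 16637568)))) (c (b (a (l 16653864) (l 16615456)) (a (l 16615584) (l 16577680))) (b (a (l 16643176) (l 16603680)) (a (l 16598592) (l 16559592)))))) (b (a (c (b (a (l 16651992) (l 16609968)) (a (l 16613544) (l 16571952))) (b (a (l 16648400) (l 16607032)) (a (l 16606416) (l 16565464)))) (c (b (a (l 16566232) (l 16520616)) (a (l 16528696) (l 16483584))) (a (b (l 16564712) (l 16523616)) (l 16396680)))) (a (c (b (a (l 16575816)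 (l 16534760)) (a (l 16538616) (l 16498176))) (b (a (l 16563832) (l 16523408)) (l 16417152))) (c (b (a (l 16492080) (l 16447584)) (l 16476960)) (b (l 16461688) (l 16419848)))))), by decide +kernel⟩

def k2_pm_101_t : ∃ t, chk3 f_pm_101_t t 4 11 1 = true :=
  ⟨(a (b (a (c (a (b (l 16628632) (l 16589192)) (b (l 16613888) (l 16575048))) (a (b (l 16608448) (l 16579536)) (b (l 16590696) (l 16541400)))) (c (b (a (l 16577488) (l 16540192)) (a (l 16539312) (l 16502744))) (b (a (l 16552264) (l 16513872)) (a (l 16503648) (l 16466024))))) (a (c (b (a (l 16569952) (l 16535584)) (a (l 16528464) (l 16495032))) (b (a (l 16526600) (l 16489208)) (a (l 16470040) (l 16433576)))) (c (b (a (l 16500656) (l 16464944)) (a (l 16461072) (l 16426400))) (b (a (l 16452288) (l 16415600)) (a (l 16397688) (l 16362104)))))) (b (a (c (b (a (l 16501800) (l 16462096)) (l 16509200)) (b (a (l 16475296) (l 16436280)) (a (l 16428280) (l 16390184)))) (c (b (l 16400096) (l 16365648)) (b (l 16376848) (l 16332240)))) (a (c (b (l 16409864) (l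 16372920)) (b (l 16360800) (l 16309080))) (c (b (l 16331352) (l 16296856)) (b (l 16285640) (l 16236648)))))), by decide +kernel⟩

def k3_pm_101_t : ∃ t, chk3 f_pm_101_t t 5 2 1 = true :=
  ⟨(b (a (b (l 1) (b (l 1) (a (b (l 1) (c (a (l 16517720) (l 1)) (l 210486094071))) (l 1)))) (l 1)) (b (b (a (b (a (c (a (l 16474744) (l 16432344)) (l 16333392)) (l 1)) (a (c (l 16456064) (l 16415472)) (c (l 16391896) (l 16337264)))) (l 1)) (a (a (c (b (l 16398584) (l 16343568)) (b (l 16374272) (l 16334088))) (c (b (l 16284640) (l 16245648)) (b (l 16288656) (l 16243904)))) (a (l 6) (l 1)))) (a (b (a (c (b (l 16310464) (l 16278120)) (b (l 16293072) (l 16250792))) (l 6)) (l 6)) (l 6)))), by decide +kernel⟩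

def k4_pm_101_t : ∃ t, chk3 f_pm_101_t t 2 3 1 = true :=
  ⟨(b (a (b (a (b (b (a (c (a (l 16485144) (l 16452840)) (a (l 16409216) (l 16373912))) (c (l 16461400) (a (l 16339272) (l 16305016)))) (a (c (a (l 16439312) (l 16408384)) (a (l 16343432) (l 16309576))) (c (a (l 16377032) (l 16345048)) (a (l 16276448) (l 16243776))))) (b (a (c (a (l 16390128) (l 16360856)) (a (l 16272000) (l 16239928))) (c (a (l 16331200) (l 16300936)) (a (l 16208632) (l 16177848)))) (a (c (a (l 16336720) (l 16309456)) (a (l 16194024) (l 16164136))) (a (c (l 16281808) (l 16135056)) (l 6))))) (b (a (c (b (l 16335032) (l 16295664)) (b (l 16254072) (l 16195288))) (l 6)) (l 6))) (a (b (a (a (b (c (l 16278232) (l 16108392)) (l 6)) (l 6)) (l 6)) (l 6)) (l 6))) (l 6)) (l 6)), by decide +kernel⟩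

def k5_pm_101_t : ∃ t, chk3 f_pm_101_t t 3 1 1 = true :=
  ⟨(b (a (b (l 1) (l 6)) (l 1)) (l 6)), by decide +kernel⟩

theorem s6_pm_101_t : ∃ t, chk3 f_pm_101_t t 4 5 1 = true := ex3_b k1_pm_101_t k2_pm_101_t

theorem s7_pm_101_t : ∃ t, chk3 f_pm_101_t t 4 2 1 = true := ex3_b k0_pm_101_t s6_pm_101_t

theorem s8_pm_101_t : ∃ t, chk3 f_pm_101_t t 2 2 1 = true := ex3_a s7_pm_101_t k3_pm_101_t

theorem s9_pm_101_t : ∃ t, chk3 f_pm_101_t t 2 1 1 = true := ex3_b s8_pm_101_t k4_pm_101_t

theorem s10_pm_101_t : ∃ t, chk3 f_pm_101_t t 1 1 1 = true := ex3_a s9_pm_101_t k5_pm_101_t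

theorem c_pm_101_t : CertNE 536870912 536870912 536870912 536870912 991146299 28908434 3 eng mog cd0q1 cd0q1 pd0 false true false .npn 1 0 1
    ndB0q1 ndB0q1 pcB0 cut_pm_101_t Ext.none :=
  certNE0 (fam := false) (s1 := true) (s2 := false) (a := 1) (b := 0) (c := 1) (cn := .npn) (n1 := ndB0q1) (n2 := ndB0q1) (pc := pcB0) (cut := cut_pm_101_t) (xt := Ext.none) (P1 := 536870912) (W1 := 536870912) (P2 := 536870912) (W2 := 536870912) (P3 := 991146299) (W3 := 28908434) (N0 := 3) (En := eng) (mo := mog) (C1 := cd0q1) (C2 := cd0q1) (C3 := pd0)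
    rfl s10_pm_101_t

end Pool.Agent.Strip051.G.I9231_9500.Tab.CS.BB00

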