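import Pool.Agent.Strip051.G.I9231_9500.Tab
import Pool.Agent.Strip051.PB.StripB

/-! # Strips, near vertex: certificates 7 (generated) -/

set_option linter.all false
set_option maxRecDepth 100000

namespace Pool.Agent.Strip051.G.I9231_9500.Tab.CS.BB00

open Pool.Agent.Strip051.PB Pool.Agent.Strip051.PB.T
open Pool.Agent.Strip051.G.I9231_9500.Tab

noncomputable def cut_pm_102_s : Cut := Cut.of [[⟨4, 0, 0, 1100585369⟩], [⟨0, 1, 0, 16777216⟩, ⟨1, 0, 0, 16777216⟩, ⟨2, 1, 0, 16777216⟩], [⟨0, 0, 1, 46137344⟩, ⟨1, 1, 2, 46137344⟩, ⟨2, 1, 0, 2097152⟩, ⟨0, 0, 0, 1027248803⟩, ⟨0, 1, 0, 87939455⟩, ⟨1, 0, 0, 87939455⟩, ⟨1, 1, 0, 1027248803⟩]]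

noncomputable def f_pm_102_s : ℕ → ℕ → ℕ → ℕ → Bool := onCell 536870912 536870912 0 536870912 991146299 28908434
    (rowNE 3 eng mog cd0q1 cd0q2 pd0 0 false true false .npp 1 0 2 (qsf 536870912 536870912 0 536870912 0) ndB0q1 ndB0q2 pcB0 cut_pm_102_s Ext.none)

def k0_pm_102_s : ∃ t, chk3 f_pm_102_s t 2 1 1 = true :=
  ⟨(b (b (a (l 2) (a (a (a (l 2) (b (l 3) (b (b (l 102710029047) (l 16752968)) (c (l 16688512) (l 16693000))))) (b (l 3) (b (a (b (l 3) (l 105931252599)) (l 3)) (a (c (l 16738624) (l 16741480)) (b (l 109689346199) (l 16744832)))))) (a (b (l 3) (b (l 3) (a (b (l 3) (l 114521183255)) (l 3)))) (l 3)))) (a (l 6) (a (a (l 6) (b (b (a (l 6) (a (l 6) (l 16679136))) (l 6)) (l 6))) (b (a (b (c (a (l 16731040) (b (l 118816158519) (l 16758048))) (a (l 16723832) (b (l 16732240) (l 16759912)))) (a (l 6) (c (l 16710056) (l 16721296)))) (b (a (a (l 127942949271) (l 144585969415)) (l 3)) (a (b (a (l 16755384) (l 16747288)) (l 16693232)) (b (a (l 16745904) (l 3)) (a (l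 16758440) (l 83382689847)))))) (a (l 6) (b (a (l 6) (b (l 16675760) (l 6))) (l 6))))))) (l 6)), by decide +kernel⟩

def k1_pm_102_s : ∃ t, chk3 f_pm_102_s t 3 2 1 = true :=
  ⟨(b (l 3) (a (a (b (a (b (l 3) (a (b (l 3) (l 134385417271)) (l 3))) (l 3)) (a (b (a (b (a (l 16761584) (l 90898891991)) (a (l 16734712) (l 16750240))) (b (l 137069777687) (a (l 16733264) (l 94656989575)))) (a (l 6) (b (a (l 16738648) (l 16754088)) (l 6)))) (b (a (b (l 3) (l 166060862839)) (l 3)) (a (a (b (l 81772072999) (l 16740496)) (b (l 103246927367) (l 16756320))) (b (l 3) (a (b (l 16753560) (l 16765728)) (l 120426801735))))))) (l 3)) (l 3))), by decide +kernel⟩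

def k2_pm_102_s : ∃ t, chk3 f_pm_102_s t 6 3 1 = true :=
  ⟨(b (a (b (a (l 6) (b (a (b (l 6) (l 6)) (b (a (l 16720688) (b (l 16767888) (l 16751272))) (a (l 6) (l 16725208)))) (l 6))) (l 6)) (b (a (b (a (b (a (b (l 16753696) (l 16749400)) (l 116668712471)) (a (l 16723080) (b (l 69960949847) (l 16755264)))) (b (l 3) (a (b (l 16751552) (l 106468159063)) (l 3)))) (a (b (a (l 6) (l 16726544)) (l 6)) (b (a (b (l 16757912) (l 16738040)) (b (l 97341370215) (l 16750560))) (a (l 6) (c (l 16730928) (l 16706904)))))) (b (l 3) (a (b (a (b (l 3) (l 104320688471)) (l 3)) (a (b (a (l 16758480) (l 16771080)) (l 16742960)) (b (l 117205597751) (a (l 16762408) (l 16753816))))) (b (l 3) (a (l 160155270359) (l 3)))))) (a (l 6) (b (a (b (a (c (l 16690000) (l 16706112)) (c (l 16736024) (l 16732816))) (l 6)) (a (b (b (a (l 16766968) (l 83382740567)) (l 16750272)) (b (l 16683488) (l 6))) (a (b (b (l 16752424) (l 16766936)) (l 16755456)) (b (l 156397176887) (b (l 16762696) (l 16736696)))))) (a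 (l 6) (b (l 6) (l 6))))))) (l 6)), by decide +kernel⟩

def k3_pm_102_s : ∃ t, chk3 f_pm_102_s t 7 6 1 = true :=
  ⟨(a (b (l 3) (a (b (a (b (l 3) (a (b (a (l 77477161671) (l 127406158599)) (a (l 16752464) (l 51707359863))) (b (l 3) (a (l 94120160471) (l 3))))) (l 3)) (a (b (a (c (l 16743112) (l 16737376)) (b (a (l 16758392) (b (l 16765048) (l 16768760))) (c (l 16740736) (l 16736584)))) (a (l 6) (b (l 16730120) (l 6)))) (b (a (b (a (l 129553641143) (l 3)) (a (b (l 16772432) (l 16758064)) (b (l 16769112) (l 16770656)))) (l 3)) (a (b (c (l 16746880) (l 16743016)) (l 16756152)) (b (a (b (l 88751459799) (l 16765720)) (l 145659782343)) (b (a (l 16750400) (l 16769936)) (l 16765472))))))) (b (l 3) (a (b (l 3) (a (b (l 3) (a (b (l 135459226263) (l 70497850055)) (l 180556387815))) (l 3))) (l 3))))) (l 3)), by decide +kernel⟩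

def k4_pm_102_s : ∃ t, chk3 f_pm_102_s t 14 7 1 = true :=
  ⟨(b (a (b (a (l 6) (a (l 6) (b (b (a (l 16710632) (l 16751304)) (l 16729096)) (l 6)))) (l 6)) (a (b (b (a (b (a (l 16750560) (b (l 86603976503) (l 16763200))) (c (l 16731792) (l 16723960))) (b (a (b (l 3) (l 104320714375)) (l 3)) (a (c (l 16771696) (l 16771344)) (b (l 135459225191) (a (l 16767720) (l 16771064)))))) (a (b (c (l 16700416) (l 16707536)) (l 6)) (b (a (l 16746680) (l 16768696)) (c (l 16729728) (l 16715048))))) (l 6)) (b (b (a (b (l 3) (a (l 187535708983) (l 3))) (l 3)) (a (b (a (b (a (l 16773000) (l 114521265143)) (l 16772048)) (b (l 3) (a (l 89825204855) (l 148881001271)))) (a (l 16766832) (b (a (l 16761368) (l 16772856)) (l 16749664)))) (b (l 3) (a (b (l 160155297879) (a (l 16767104) (l 90898946023))) (l 195588771575))))) (b (a (b (c (l 16739880) (l 16745528)) (l 6)) (a (b (c (l 16750568) (l 16742664)) (l 16753072)) (b (b (a (l 25400697287) (l 118279360503)) (c (l 16763744) (l 16759288))) (b (l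 16765032) (l 16726584))))) (b (a (l 6) (c (l 16722968) (l 16715904))) (l 6)))))) (l 6)), by decide +kernel⟩

def k5_pm_102_s : ∃ t, chk3 f_pm_102_s t 15 14 1 = true :=
  ⟨(a (b (l 3) (a (b (a (b (a (b (l 3) (a (b (l 135996095415) (l 16774808)) (l 197736261319))) (l 3)) (a (b (a (l 16761880) (b (l 16771432) (l 16769344))) (l 16750624)) (b (a (l 156934074311) (l 3)) (a (l 16773496) (b (l 130090522839) (l 16770304)))))) (b (l 3) (a (l 203641812567) (l 3)))) (a (a (b (c (l 16734576) (l 16736696)) (l 6)) (b (c (l 16775784) (l 16764488)) (c (l 16731120) (l 16703984)))) (b (a (b (a (b (l 92509561127) (l 16770496)) (l 161765911991)) (c (l 16772472) (l 17884505655))) (b (l 3) (a (b (l 188609458199) (l 75866563783)) (l 3)))) (a (c (l 16750808) (l 16753208)) (b (a (l 16765464) (b (l 98415140727) (l 16772216))) (c (l 16763312) (l 16750360))))))) (b (l 3) (a (b (l 3) (a (b (a (l 184314468567) (l 3)) (a (b (l 59223566551) (l 16768680)) (b (l 202568101111) (a (l 16775472) (l 115595011271)))))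 (l 3))) (l 3))))) (l 3)), by decide +kernel⟩

def k6_pm_102_s : ∃ t, chk3 f_pm_102_s t 30 30 1 = true :=
  ⟨(a (a (l 6) (b (b (a (c (l 16733848) (l 16695416)) (c (l 16752752) (l 16755496))) (a (l 6) (c (l 16747328) (b (l 16700248) (l 6))))) (l 6))) (b (a (b (a (a (b (l 16759768) (l 16749440)) (b (a (l 16766760) (l 16775008)) (l 16759088))) (b (a (b (a (l 88751466791) (l 209010553159)) (a (l 16772512) (l 16770984))) (b (l 3) (l 186998845431))) (a (l 16767536) (b (a (l 16775000) (l 97878271943)) (l 16772672))))) (a (c (b (l 16764592) (l 16767176)) (b (l 16728568) (l 16716216))) (c (b (l 16775592) (l 16780200)) (b (l 16753720) (l 16742832))))) (b (a (b (l 3) (a (b (l 3) (a (l 71034727559) (l 133311750151))) (l 3))) (l 3)) (a (b (a (c (l 16772920) (l 16774848)) (b (a (l 106468205927) (l 3)) (a (l 16776032) (l 80161532487)))) (c (l 16768688) (l 16774840))) (b (a (l 209547409671) (l 3)) (a (b (a (b (l 16771784) (l 16777256)) (l 116131881671)) (c (l 16777872) (l 16773960)))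 (b (l 3) (a (b (l 125795560039) (l 16771904)) (l 215989874631)))))))) (b (b (a (a (l 6) (c (l 16782624) (l 16735184))) (a (c (l 16759560) (l 16758544)) (a (c (l 16778912) (l 16770904)) (a (l 16775720) (b (a (l 16772176) (l 79624662615)) (l 16778120)))))) (a (l 6) (a (c (l 16760736) (l 16757720)) (c (l 16769032) (a (l 16771880) (l 16777800)))))) (a (l 6) (b (a (c (l 16761792) (l 16763312)) (c (l 16769992) (a (l 16780184) (l 16760400)))) (a (l 6) (a (l 6) (c (l 16780776) (l 16761752))))))))), by decide +kernel⟩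

def k7_pm_102_s : ∃ t, chk3 f_pm_102_s t 31 30 1 = true :=
  ⟨(a (b (l 3) (a (b (a (b (a (b (a (l 171429590263) (l 3)) (a (c (l 16777392) (l 16766728)) (b (l 154786587671) (l 78550921175)))) (l 3)) (a (c (l 16772824) (b (l 16767656) (l 16778912))) (a (b (b (l 104320724167) (l 16772064)) (l 16777848)) (b (l 198810006103) (b (l 68350374295) (l 16777536)))))) (b (l 3) (a (b (l 3) (a (b (l 3) (l 94657047991)) (l 3))) (l 3)))) (a (b (c (b (l 16773048) (l 16768192)) (a (l 16759000) (l 16768224))) (c (a (l 16779704) (l 16757784)) (a (l 16760256) (l 16758896)))) (b (a (b (a (c (l 16777392) (l 16767072)) (b (l 120963721479) (c (l 16771800) (l 16774480)))) (c (l 16777608) (l 16777936))) (b (l 215989872647) (a (b (c (l 85530242999) (l 87140855767)) (l 16772096)) (b (l 3) (l 112910658199))))) (a (c (l 16777976) (l 16768200)) (a (c (l 16777560) (l 16777984)) (b (c (l 15737025239) (b (l 16774528) (l 16777504))) (l 16777600))))))) (b (l 3) (a (b (l 3) (a (b (a (b (l 203104974199) (a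 (l 16774536) (l 109689434439))) (l 3)) (a (c (l 16777272) (l 16766968)) (b (c (l 103783853079) (l 106468207959)) (c (l 16774472) (l 16775856))))) (b (l 3) (a (b (l 3) (l 192367556199)) (l 3))))) (l 3))))) (l 3)), by decide +kernel⟩

def k8_pm_102_s : ∃ t, chk3 f_pm_102_s t 30 31 1 = true :=
  ⟨(l 6), by decide +kernel⟩

def k9_pm_102_s : ∃ t, chk3 f_pm_102_s t 124 62 1 = true :=
  ⟨(b (a (a (b (b (c (l 16780128) (l 16782032)) (l 6)) (l 6)) (b (c (l 16779184) (l 16759808)) (a (l 6) (a (l 6) (b (l 16774616) (l 6)))))) (b (c (a (l 16778288) (l 16767160)) (a (l 16768992) (l 16773208))) (a (b (c (l 16778384) (l 16779920)) (a (l 6) (b (l 16778960) (l 6)))) (c (l 16775024) (b (l 16778800) (l 16778968)))))) (a (l 6) (b (a (l 6) (b (a (a (l 6) (b (l 16778400) (l 6))) (b (l 16772832) (a (b (l 16778176) (l 6)) (l 16777960)))) (l 6))) (l 6)))), by decide +kernel⟩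

def k10_pm_102_s : ∃ t, chk3 f_pm_102_s t 125 124 1 = true :=
  ⟨(a (b (b (a (c (l 16777280) (l 16777608)) (a (b (a (l 16774560) (l 99488887319)) (l 16777256)) (a (b (l 3) (c (l 16775616) (l 76403438839))) (l 209547424599)))) (a (c (l 16777272) (l 16777824)) (a (l 16777296) (b (c (l 16774472) (l 15200155319)) (l 16777224))))) (c (a (b (l 16777208) (l 16777104)) (b (l 16777032) (l 16776872))) (a (b (l 16777984) (l 16778088)) (b (l 16777456) (l 16777504))))) (b (a (b (l 3) (a (a (b (l 113984401431) (l 16774552)) (b (l 3) (a (l 73182213799) (l 113447531287)))) (l 3))) (l 3)) (a (b (a (c (l 16777072) (l 16777256)) (a (b (c (l 65666020967) (l 66739762839)) (l 16777160)) (b (l 178408913255) (c (l 16777072) (l 16774504))))) (c (l 16776904) (l 16775904))) (b (a (a (b (l 3) (b (l 215989877223) (l 85530244679))) (l 3)) (l 3)) (a (b (a (l 16774520) (b (l 113447531703) (l 51707377831))) (l 16777096)) (b (l 214379262887) (a (a (l 16775816) (b (l 16775576) (l 16777168))) (a (l 112373789447)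 (l 224042940583))))))))), by decide +kernel⟩

def k11_pm_102_s : ∃ t, chk3 f_pm_102_s t 125 250 1 = true :=
  ⟨(a (a (b (c (l 16776952) (l 16778144)) (a (a (b (b (c (l 16777008) (l 16778456)) (l 6)) (l 6)) (b (c (l 16776832) (l 16778208)) (b (c (l 16777112) (l 16775848)) (l 6)))) (b (l 16774688) (a (c (b (l 16776640) (l 16777008)) (b (l 16777992) (l 16775688))) (c (l 16773864) (b (l 16777840) (l 16777792))))))) (c (b (l 16776656) (l 16776408)) (b (l 16777496) (l 16777440)))) (a (c (b (l 16771392) (l 16773704)) (b (l 16774528) (c (l 16776848) (l 16777216)))) (b (a (c (l 16776792) (l 16777072)) (b (a (l 16777072) (c (l 16777064) (l 16775808))) (l 16776976))) (c (a (l 16776440) (l 16776600)) (a (l 16776912) (l 16776920)))))), by decide +kernel⟩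

def k12_pm_102_s : ∃ t, chk3 f_pm_102_s t 125 251 1 = true :=
  ⟨(b (b (a (a (a (l 6) (c (c (l 16777480) (l 16778008)) (c (l 16775928) (a (l 6) (l 16778768))))) (a (a (c (b (l 16776344) (l 16776816)) (b (l 16774984) (l 16772776))) (b (l 16776848) (c (l 16776224) (c (l 16777128) (l 16777760))))) (c (l 16776128) (l 16777224)))) (a (c (l 16776064) (l 16776912)) (c (l 16776208) (l 16776744)))) (a (a (l 6) (c (a (c (l 16777336) (l 16777824)) (a (b (l 16776120) (l 16776672)) (b (l 16775984) (l 16773408)))) (a (c (l 16778328) (l 16773616)) (b (c (l 16776864) (l 16774832)) (a (l 16777768) (a (l 16777264) (l 16777024))))))) (a (c (l 16775872) (l 16776816)) (c (l 16775992) (l 16776616))))) (a (a (l 6) (c (c (b (l 16772856) (l 16769296)) (b (a (l 16779280) (l 16777688)) (l 16774832))) (c (a (l 16769872) (b (l 16778168) (l 16779624))) (a (l 16775416) (b (l 16778664) (l 16780000)))))) (b (a (a (a (c (b (c (l 16775696) (l 16776224)) (l 16776552)) (b (c (l 16776768) (l 16777336)) (l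 16777568))) (c (b (l 16775720) (c (l 16775648) (l 16776160))) (b (l 16776768) (c (l 16776680) (l 16777224))))) (a (c (l 16775640) (l 16774000)) (l 16774816))) (c (l 16775768) (l 16776480))) (a (b (c (a (l 16776960) (a (c (l 16775616) (l 16776104)) (l 16775488))) (a (l 16775296) (a (c (l 16776608) (l 16777136)) (l 16776456)))) (c (a (l 16777808) (c (l 16773400) (l 16773864))) (a (l 16776064) (c (l 16775000) (a (l 16777744) (l 16777056)))))) (c (a (c (l 16775216) (l 16775632)) (l 16775584)) (a (a (c (l 16776104) (l 16776576)) (l 16776344)) (l 16776312))))))), by decide +kernel⟩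

def k13_pm_102_s : ∃ t, chk3 f_pm_102_s t 63 62 1 = true :=
  ⟨(a (b (l 3) (a (b (a (b (a (a (b (a (b (l 129016788887) (l 16777144)) (l 123111207495)) (l 16777096)) (b (l 3) (c (b (l 101636372103) (l 16777088)) (b (l 104857597255) (l 16777120))))) (b (l 3) (c (l 203104973943) (l 208473682999)))) (a (c (l 16776824) (l 16777000)) (a (b (a (l 16775800) (b (l 97878276327) (l 16777144))) (l 16776976)) (b (a (b (l 3) (l 73719085639)) (l 211158038887)) (c (l 16777032) (l 16776432)))))) (b (l 3) (a (a (b (l 3) (b (l 174650814759) (a (l 16777136) (l 90898954535)))) (l 3)) (l 3)))) (a (c (b (a (l 16776368) (l 16771392)) (a (l 16775880) (l 16773488))) (b (a (l 16776728) (l 16774232)) (a (l 16776408) (l 16775192)))) (b (a (a (c (l 16776872) (l 16776992)) (b (a (c (l 16810769111) (b (l 16775760) (l 16777120))) (b (l 131701143383) (l 16776456))) (l 16776960))) (a (a (b (c (l 169282108151) (l 175724559079)) (l 16776416)) (b (l 3) (b (a (l 16775784) (l 106468211271)) (l 16777104))))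 (b (l 3) (b (l 220821715303) (a (a (l 16777136) (l 76940311319)) (l 125258692359)))))) (a (c (l 16775096) (b (l 16776768) (l 16776568))) (a (c (l 16774056) (l 16774216)) (b (c (l 16776344) (b (l 16777096) (l 16777024))) (l 16775472))))))) (b (l 3) (a (b (l 3) (b (a (a (a (b (a (l 88214600407) (l 129016789207)) (l 16777112)) (b (l 3) (a (l 16776616) (l 99488889479)))) (l 217600483943)) (l 3)) (a (a (l 16775984) (a (b (b (l 76940311495) (l 16777144)) (l 16777040)) (b (l 119889983303) (l 11978931367)))) (a (a (b (l 3) (b (l 143512303991) (l 73182215127))) (l 3)) (l 3))))) (l 3))))) (l 3)), by decide +kernel⟩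

def k14_pm_102_s : ∃ t, chk3 f_pm_102_s t 62 63 1 = true :=
  ⟨(b (a (l 6) (a (l 6) (b (a (a (b (c (c (l 16774536) (l 16774904)) (c (l 16775296) (l 16775696))) (l 6)) (c (b (c (l 16772800) (l 16773240)) (c (l 16776368) (l 16776896))) (b (c (l 16773696) (c (l 16779296) (l 16769048))) (c (l 16777432) (l 16778000))))) (c (b (b (a (a (c (l 16773400) (l 16773856)) (b (c (l 16775112) (l 16775544)) (c (l 16775576) (l 16776016)))) (a (b (l 16775368) (c (l 16775064) (l 16775488))) (l 16775360))) (a (c (l 16777216) (l 16777680)) (a (c (l 16776032) (l 16776480)) (b (c (l 16775040) (l 16775440)) (l 16773192))))) (c (c (l 16773656) (l 16773936)) (c (l 16774880) (a (l 16770128) (l 16768416))))) (b (a (c (b (b (a (l 16776512) (l 16775992)) (l 16776912)) (l 16778160)) (b (b (a (l 16777000) (l 16776464)) (l 16774768)) (l 16778664))) (b (a (b (l 16776192) (c (l 16775920) (l 16776368))) (l 16776136)) (a (c (l 16776944) (l 16774808)) (b (c (l 16775864) (l 16774984)) (c (l 16776472) (l 16776936))))))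 (a (c (l 16777128) (c (l 16771032) (l 16771344))) (c (c (l 16768712) (l 16774248)) (b (l 16768384) (l 16770584))))))) (b (a (l 6) (a (l 6) (c (c (c (l 16771136) (l 16771592)) (c (l 16772064) (l 16772536))) (c (b (l 16772104) (l 16774456)) (b (l 16772984) (l 16775584)))))) (l 6))))) (l 6)), by decide +kernel⟩

def k15_pm_102_s : ∃ t, chk3 f_pm_102_s t 252 126 2 = true :=
  ⟨(a (a (b (b (b (l 16775480) (a (b (l 16775232) (a (a (l 16775320) (l 16775192)) (l 16775104))) (l 16775248))) (b (a (c (l 16776080) (l 16776536)) (b (b (l 16773768) (a (l 16775400) (l 16775096))) (l 16775864))) (c (l 16777408) (l 16772744)))) (b (c (c (l 16774696) (l 16775144)) (c (l 16775600) (l 16776056))) (b (c (l 16777720) (l 16779112)) (l 6)))) (b (b (b (l 16775688) (l 16775400)) (b (b (l 16775176) (a (c (b (l 16774880) (l 16775136)) (b (l 16775240) (l 16775504))) (l 16775056))) (a (c (l 16776152) (l 16776640)) (b (c (b (l 16774896) (l 16775176)) (b (l 16775240) (l 16775544))) (l 16773376)))))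 (c (b (c (l 16773040) (l 16773440)) (c (l 16777936) (l 16778664))) (b (c (l 16773848) (l 16774264)) (c (b (l 16777032) (l 16779192)) (b (l 16777704) (l 16780048))))))) (a (b (b (b (l 16775968) (l 16775664)) (b (l 16775344) (c (b (l 16772296) (a (b (l 16774920) (l 16775232)) (l 16772216))) (b (l 16775216) (a (b (l 16775256) (l 16775600)) (l 16775136)))))) (a (b (c (b (l 16776320) (l 16772920)) (b (l 16776856) (l 16776392))) (b (c (l 16777416) (l 16775968)) (l 16778720))) (b (b (b (a (a (l 16775536) (l 16774048)) (b (l 16774960) (l 16775264))) (c (l 16775952) (l 16776440))) (c (l 16774712) (b (l 16777520) (l 16778600)))) (c (l 16776872) (l 16777384))))) (b (b (c (l 16773464) (l 16773600)) (b (l 16775664) (l 16775320))) (b (b (b (a (a (c (l 16773504) (b (l 16775128) (l 16775128))) (l 16775024)) (l 16775144)) (b (a (a (l 16775296) (l 16774992)) (l 16775008)) (a (l 16775560) (a (l 16775016) (l 16774960))))) (b (a (l 16776296) (a (l 16775624) (b (l 16775048) (l 16775424))))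 (c (l 16776568) (l 16777136)))) (c (b (l 16775344) (l 16774608)) (b (l 16773520) (l 16775704))))))), by decide +kernel⟩

def k16_pm_102_s : ∃ t, chk3 f_pm_102_s t 253 252 2 = true :=
  ⟨(a (b (a (b (l 16774096) (l 16776384)) (b (a (a (l 16777000) (b (l 73182214839) (l 16777040))) (b (l 205252459015) (a (l 16776424) (l 113447532567)))) (a (l 16776720) (b (l 16777032) (l 16776872))))) (a (b (l 16776040) (l 16775688)) (b (l 16775168) (c (l 16776056) (l 16776168))))) (b (a (b (l 3) (a (a (b (c (l 90362083751) (l 91435825575)) (l 16777064)) (b (l 3) (a (l 16777112) (l 86067116743)))) (b (l 3) (l 199883749943)))) (l 3)) (a (b (a (l 16776856) (b (a (l 15737027687) (a (l 97341405815) (l 137069852935))) (l 16777016))) (c (l 16775264) (l 16775320))) (b (a (a (b (l 3) (a (l 68887247639) (l 108615694887))) (l 220821715031)) (l 3)) (a (a (l 16776944) (b (b (l 88214600583) (l 16777120)) (l 16776984))) (b (c (l 185388235383) (l 188072589927)) (a (c (l 16776744) (l 14663286023)) (b (l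 214916136135) (l 85530246023))))))))), by decide +kernel⟩

def k17_pm_102_s : ∃ t, chk3 f_pm_102_s t 253 253 2 = true :=
  ⟨(b (a (a (b (l 16775328) (b (b (l 16775064) (a (a (l 16775088) (l 16774944)) (l 16775096))) (b (a (c (l 16775192) (l 16775504)) (l 16773672)) (a (l 16775760) (a (l 16775168) (l 16774960)))))) (b (c (l 16775664) (l 16775816)) (c (l 16775264) (l 16775448)))) (a (b (c (l 16774856) (l 16774952)) (c (l 16774440) (l 16774568))) (a (b (l 16773992) (l 16776208)) (b (b (l 16776992) (l 16776792)) (l 14))))) (a (a (b (a (c (l 16776736) (l 16777312)) (b (a (l 16775848) (b (l 16775216) (l 16775664))) (l 16774016))) (c (l 16775592) (l 16776392))) (b (b (a (a (b (a (l 16774984) (l 16774968)) (l 16775264)) (a (b (l 16775032) (l 16775016)) (l 16772392))) (l 16775168)) (a (c (l 16775624) (l 16775968)) (a (b (a (l 16775056) (l 16772368)) (l 16775376)) (b (l 16775072) (a (l 16775104) (l 16773704)))))) (c (b (l 16774168) (l 16774448)) (b (a (l 16777024) (l 16776080))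 (l 16775024))))) (a (b (a (l 16775288) (l 16775528)) (l 14)) (l 14)))), by decide +kernel⟩

def k18_pm_102_s : ∃ t, chk3 f_pm_102_s t 504 126 3 = true :=
  ⟨(b (b (a (b (l 16776136) (a (b (l 16775992) (a (a (l 16776160) (l 16776000)) (l 16775888))) (l 16775952))) (c (l 16775960) (l 16776256))) (b (a (b (a (c (l 16776496) (l 16776952)) (c (b (l 16775640) (l 16775880)) (b (l 16776040) (l 16776288)))) (c (l 16776984) (l 16772224))) (b (l 16775832) (a (c (b (l 16775608) (l 16775896)) (b (l 16775992) (l 16776296))) (l 16775728)))) (a (c (l 16773336) (l 16773952)) (b (a (l 16774200) (c (b (l 16775592) (l 16775928)) (b (l 16775968) (l 16776328)))) (c (l 16777192) (l 16772480)))))) (b (b (a (c (l 16775584) (l 16776424)) (c (l 16776312) (c (l 16768984) (l 16769344)))) (c (a (l 16777984) (l 16776144)) (a (l 16779112) (l 16778488)))) (a (b (c (l 16775312) (l 16780304)) (l 6)) (a (b (c (l 16779232) (l 16780136)) (c (l 16780296) (b (l 16778824) (l 6)))) (b (c (l 16779568) (b (l 16778904)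 (l 16779760))) (l 16781496)))))), by decide +kernel⟩

def k19_pm_102_s : ∃ t, chk3 f_pm_102_s t 505 126 3 = true :=
  ⟨(b (a (b (c (l 16776128) (l 16776352)) (b (l 16775888) (a (b (c (l 16775488) (l 16775824)) (c (b (l 16775608) (l 16775984)) (b (a (l 16776072) (l 16775784)) (l 16776384)))) (b (l 16775744) (c (l 16775448) (l 16775768)))))) (b (c (l 16773744) (l 16775208)) (b (l 16776072) (l 16775808)))) (b (b (a (a (c (l 16772168) (l 16772744)) (b (a (c (l 16776056) (l 16776464)) (b (a (l 16775616) (l 16775536)) (l 16774672))) (c (l 16774328) (a (l 16777784) (l 16777176))))) (a (a (b (b (l 16775576) (a (a (l 16775656) (l 16775576)) (l 16775520))) (c (l 16776144) (l 16773936))) (b (l 16775584) (b (a (l 16775648) (l 16775512)) (l 16776056)))) (a (b (l 16775632) (b (l 16775528) (a (l 16775672) (l 16775520)))) (l 16775608)))) (b (a (c (a (l 16779264) (l 16772944)) (a (l 16774840) (a (l 16779200) (l 16778568)))) (a (l 16774704) (a (l 16776424) (b (a (l 16775704) (l 16775528))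 (l 16776152))))) (a (a (c (l 16775288) (l 16776288)) (l 16774608)) (c (l 16772488) (l 16773104))))) (c (a (b (a (l 16779800) (l 16770800)) (l 16773856)) (b (l 16774344) (l 16776832))) (a (b (a (l 16780064) (l 16771888)) (l 16779104)) (b (a (l 16770592) (l 16774552)) (l 16778000)))))), by decide +kernel⟩

def k20_pm_102_s : ∃ t, chk3 f_pm_102_s t 253 252 3 = true :=
  ⟨(a (b (a (b (l 16775528) (l 16773968)) (b (a (a (l 16777048) (b (a (l 16777120) (l 94120180407)) (l 16777080))) (b (l 210621168103) (a (a (l 16777136) (l 16776440)) (l 116668758039)))) (a (l 16776832) (b (l 16776416) (l 16776944))))) (a (b (l 16775016) (l 16774736)) (b (c (l 16776600) (l 16776688)) (c (l 16776288) (l 16776416))))) (b (a (b (l 3) (a (a (b (a (l 76403440391) (l 117742500327)) (l 16777096)) (b (l 3) (a (l 16775808) (l 88214600407)))) (b (l 3) (l 205252459047)))) (l 3)) (a (b (a (l 16776928) (b (a (c (l 16776760) (l 14126414983)) (a (l 100025760375) (l 198810008775))) (l 16776720))) (c (l 16775384)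 (l 16775448))) (b (a (a (b (l 3) (b (l 123648080375) (l 60834184359))) (l 185925100471)) (l 3)) (a (a (l 16776992) (b (a (l 16776464) (a (l 70497860743) (l 95193922263))) (l 16777032))) (a (b (c (l 180556397687) (l 183777623159)) (b (l 58149829799) (l 16777104))) (a (b (l 3) (b (l 154786593591) (l 16777144))) (l 203104975383)))))))), by decide +kernel⟩

def k21_pm_102_s : ∃ t, chk3 f_pm_102_s t 253 253 3 = true :=
  ⟨(b (a (a (a (b (l 16775696) (a (b (b (l 16775480) (a (l 16775744) (l 16775544))) (l 16776536)) (b (l 16775496) (b (a (l 16775784) (l 16775576)) (l 16776264))))) (b (l 16775824) (b (l 16775600) (a (b (l 16775456) (a (l 16775832) (l 16775608))) (c (l 16775352) (l 16775608)))))) (b (c (l 16775968) (l 16776128)) (c (l 16775640) (l 16775840)))) (a (b (c (l 16775048) (l 16775152)) (c (l 16774704) (l 16775168))) (a (b (l 16774104) (l 16775072)) (b (b (c (l 16777024) (l 16777040)) (l 16776872)) (l 14))))) (a (a (b (b (a (l 16774928) (a (l 16776656) (c (l 16775944)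 (l 16774968)))) (c (l 16772720) (l 16773336))) (c (l 16775904) (c (l 16775224) (l 16775656)))) (b (b (a (a (c (b (l 16775344) (l 16775688)) (b (l 16775600) (l 16775984))) (b (l 16775496) (c (l 16775368) (l 16775616)))) (l 16775568)) (a (c (l 16776328) (l 16774080)) (a (b (a (a (l 16775560) (l 16775480)) (l 16775440)) (l 16775944)) (b (l 16775488) (a (a (l 16775608) (l 16775520)) (l 16775456)))))) (c (b (c (l 16771640) (l 16771864)) (l 16775616)) (a (l 16773536) (c (l 16772168) (l 16772400)))))) (a (b (a (l 16774344) (l 16774528)) (l 14)) (l 14)))), by decide +kernel⟩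

def k22_pm_102_s : ∃ t, chk3 f_pm_102_s t 126 127 1 = true :=
  ⟨(b (b (a (b (a (a (l 6) (a (l 6) (b (c (l 16779864) (l 16778576)) (l 6)))) (c (a (c (l 16778176) (l 16779872)) (c (l 16776520) (l 16777912))) (c (a (l 16779464) (l 16779344)) (a (l 16777664) (l 16778232))))) (a (l 6) (c (c (a (l 16780104) (l 16778448)) (c (l 16780648) (l 16779880))) (c (a (l 16778320) (l 16778568)) (a (l 16778832) (l 16779400)))))) (a (a (c (b (c (l 16777496) (l 16775968)) (c (l 16779424) (l 16778192))) (b (c (l 16777096) (l 16778264)) (c (l 16778792) (l 16779936)))) (b (a (b (c (l 16776200) (l 16777840)) (l 14)) (l 14)) (l 14))) (l 14))) (a (a (l 6) (a (l 6) (b (c (c (l 16780400) (l 16779456)) (c (l 16780032) (a (l 16775168) (l 16775440)))) (a (l 6) (l 14))))) (l 14))) (a (l 6) (l 14))), by decide +kernel⟩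

def k23_pm_102_s : ∃ t, chk3 f_pm_102_s t 127 63 1 = true :=
  ⟨(b (b (l 3) (l 14)) (l 14)), by decide +kernel⟩

theorem s24_pm_102_s : ∃ t, chk3 f_pm_102_s t 253 126 3 = true := ex3_b k20_pm_102_s k21_pm_102_s

theorem s25_pm_102_s : ∃ t, chk3 f_pm_102_s t 252 126 3 = true := ex3_a k18_pm_102_s k19_pm_102_s

theorem s26_pm_102_s : ∃ t, chk3 f_pm_102_s t 126 126 3 = true := ex3_a s25_pm_102_s s24_pm_102_s

theorem s27_pm_102_s : ∃ t, chk3 f_pm_102_s t 253 126 2 = true := ex3_b k16_pm_102_s k17_pm_102_s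

theorem s28_pm_102_s : ∃ t, chk3 f_pm_102_s t 126 126 2 = true := ex3_a k15_pm_102_s s27_pm_102_s

theorem s29_pm_102_s : ∃ t, chk3 f_pm_102_s t 126 126 1 = true := ex3_c s28_pm_102_s s26_pm_102_s

theorem s30_pm_102_s : ∃ t, chk3 f_pm_102_s t 126 63 1 = true := ex3_b s29_pm_102_s k22_pm_102_s

theorem s31_pm_102_s : ∃ t, chk3 f_pm_102_s t 63 63 1 = true := ex3_a s30_pm_102_s k23_pm_102_s

theorem s32_pm_102_s : ∃ t, chk3 f_pm_102_s t 31 63 1 = true := ex3_a k14_pm_102_s s31_pm_102_s

theorem s33_pm_102_s : ∃ t, chk3 f_pm_102_s t 125 125 1 = true := ex3_b k11_pm_102_s k12_pm_102_s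

theorem s34_pm_102_s : ∃ t, chk3 f_pm_102_s t 125 62 1 = true := ex3_b k10_pm_102_s s33_pm_102_s

theorem s35_pm_102_s : ∃ t, chk3 f_pm_102_s t 62 62 1 = true := ex3_a k9_pm_102_s s34_pm_102_s

theorem s36_pm_102_s : ∃ t, chk3 f_pm_102_s t 31 62 1 = true := ex3_a s35_pm_102_s k13_pm_102_s

theorem s37_pm_102_s : ∃ t, chk3 f_pm_102_s t 31 31 1 = true := ex3_b s36_pm_102_s s32_pm_102_s

theorem s38_pm_102_s : ∃ t, chk3 f_pm_102_s t 15 31 1 = true := ex3_a k8_pm_102_s s37_pm_102_s

theorem s39_pm_102_s : ∃ t, chk3 f_pm_102_s t 15 30 1 = true := ex3_a k6_pm_102_s k7_pm_102_s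

theorem s40_pm_102_s : ∃ t, chk3 f_pm_102_s t 15 15 1 = true := ex3_b s39_pm_102_s s38_pm_102_s

theorem s41_pm_102_s : ∃ t, chk3 f_pm_102_s t 15 7 1 = true := ex3_b k5_pm_102_s s40_pm_102_s

theorem s42_pm_102_s : ∃ t, chk3 f_pm_102_s t 7 7 1 = true := ex3_a k4_pm_102_s s41_pm_102_s

theorem s43_pm_102_s : ∃ t, chk3 f_pm_102_s t 7 3 1 = true := ex3_b k3_pm_102_s s42_pm_102_s

theorem s44_pm_102_s : ∃ t, chk3 f_pm_102_s t 3 3 1 = true := ex3_a k2_pm_102_s s43_pm_102_s

theorem s45_pm_102_s : ∃ t, chk3 f_pm_102_s t 3 1 1 = true := ex3_b k1_pm_102_s s44_pm_102_s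

theorem s46_pm_102_s : ∃ t, chk3 f_pm_102_s t 1 1 1 = true := ex3_a k0_pm_102_s s45_pm_102_s

theorem c_pm_102_s : CertNE 536870912 536870912 0 536870912 991146299 28908434 3 eng mog cd0q1 cd0q2 pd0 false true false .npp 1 0 2
    ndB0q1 ndB0q2 pcB0 cut_pm_102_s Ext.none :=
  certNE0 (fam := false) (s1 := true) (s2 := false) (a := 1) (b := 0) (c := 2) (cn := .npp) (n1 := ndB0q1) (n2 := ndB0q2) (pc := pcB0) (cut := cut_pm_102_s) (xt := Ext.none) (P1 := 536870912) (W1 := 536870912) (P2 := 0) (W2 := 536870912) (P3 := 991146299) (W3 := 28908434) (N0 := 3) (En := eng) (mo := mog) (C1 := cd0q1) (C2 := cd0q2) (C3 := pd0)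
    rfl s46_pm_102_s

noncomputable def cut_pm_102_t : Cut := Cut.of [[⟨3, 0, 0, 2845415833⟩], [⟨0, 1, 0, 16777216⟩, ⟨1, 0, 0, 16777216⟩, ⟨2, 1, 0, 16777216⟩], [⟨0, 0, 1, 46137344⟩, ⟨1, 1, 2, 46137344⟩, ⟨2, 1, 0, 2097152⟩, ⟨0, 0, 0, 1027248803⟩, ⟨0, 1, 0, 87939455⟩, ⟨1, 0, 0, 87939455⟩, ⟨1, 1, 0, 1027248803⟩]]

noncomputable def f_pm_102_t : ℕ → ℕ → ℕ → ℕ → Bool := onCell 536870912 536870912 0 536870912 991146299 28908434
    (rowNE 3 eng mog cd0q1 cd0q2 pd0 0 false true false .npp 1 0 2 (qsf 536870912 536870912 0 536870912 0) ndB0q1 ndB0q2 pcB0 cut_pm_102_t Ext.none)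

def k0_pm_102_t : ∃ t, chk3 f_pm_102_t t 1 1 1 = true :=
  ⟨(l 6), by decide +kernel⟩

theorem c_pm_102_t : CertNE 536870912 536870912 0 536870912 991146299 28908434 3 eng mog cd0q1 cd0q2 pd0 false true false .npp 1 0 2
    ndB0q1 ndB0q2 pcB0 cut_pm_102_t Ext.none :=
  certNE0 (fam := false) (s1 := true) (s2 := false) (a := 1) (b := 0) (c := 2) (cn := .npp) (n1 := ndB0q1) (n2 := ndB0q2) (pc := pcB0) (cut := cut_pm_102_t) (xt := Ext.none) (P1 := 536870912) (W1 := 536870912) (P2 := 0) (W2 := 536870912) (P3 := 991146299) (W3 := 28908434) (N0 := 3) (En := eng) (mo := mog) (C1 := cd0q1) (C2 := cd0q2) (C3 := pd0)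
    rfl k0_pm_102_t

noncomputable def cut_pm_112_s : Cut := Cut.of [[⟨4, 0, 0, 1449551462⟩]]

noncomputable def f_pm_112_s : ℕ → ℕ → ℕ → ℕ → Bool := onCell 536870912 536870912 0 536870912 991146299 28908434
    (rowNE 3 eng mog cd0q1 cd0q2 pd1 0 false true false .dn 1 1 2 (qsf 536870912 536870912 0 536870912 1) ndB0q1 ndB0q2 pcB1 cut_pm_112_s Ext.none)

def k0_pm_112_s : ∃ t, chk3 f_pm_112_s t 8 2 1 = true :=
  ⟨(b (b (a (a (b (l 16628512) (l 16571096)) (b (l 16646208) (l 16584760))) (a (b (l 16626144) (l 16602640)) (b (l 16631376) (l 16582952)))) (a (b (a (b (l 16525616) (a (l 16423112) (l 16458208))) (l 16519480)) (a (l 16452368) (b (a (b (l 16483208) (l 16495152)) (b (l 16479208) (l 16474072))) (l 16510832)))) (b (a (l 16533600) (l 16531224)) (a (b (l 16438176) (a (l 16433752) (b (l 16456472) (l 16459392)))) (a (c (l 16437200) (l 16490104)) (l 16478864)))))) (b (b (a (a (l 16564904) (l 16534864)) (a (l 16478208) (b (a (l 16466264) (b (l 16384320) (l 16451048))) (l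 16496824)))) (a (l 6) (a (l 16554088) (l 16504000)))) (l 6))), by decide +kernel⟩

def k1_pm_112_s : ∃ t, chk3 f_pm_112_s t 9 2 1 = true :=
  ⟨(b (b (a (a (b (a (l 16695872) (l 16691336)) (l 16588752)) (b (b (a (l 16766128) (l 16772760)) (l 16720008)) (c (l 16677824) (l 16688144)))) (b (a (c (l 110763052279) (l 110763062471)) (l 3)) (a (b (l 16697112) (l 16677200)) (b (c (l 16727904) (l 16746904)) (l 16695568))))) (a (b (a (l 16512496) (c (l 16593976) (l 16612568))) (a (c (l 16479624) (l 16508856)) (c (l 16505880) (l 16532464)))) (b (a (c (l 16628120) (l 16643392)) (c (l 16646160) (l 16656488))) (a (c (l 16537248) (l 16560824)) (c (l 16573280) (l 16592512)))))) (b (a (b (a (b (a (b (l 16435776) (c (l 16411368) (l 16445760))) (l 16436080)) (a (l 16460792) (c (l 16397120) (l 16450680)))) (b (l 16452400) (a (b (l 16414984) (l 16354760)) (c (l 16399456) (l 16434040))))) (a (l 16448848) (b (a (l 16457984) (l 16367328)) (l 16491696)))) (b (a (c (l 16440784) (l 16472032)) (c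 (l 16474960) (l 16503256))) (a (b (a (b (b (l 16397152) (l 16332984)) (l 16415248)) (b (l 16402720) (a (l 16351872) (l 16325696)))) (l 16382496)) (a (b (l 16406912) (b (c (l 16330840) (l 16406600)) (l 16418232))) (b (l 16422968) (b (c (l 16369000) (l 16403944)) (c (l 16372176) (l 16404856)))))))) (a (b (a (l 16547248) (l 16457680)) (l 6)) (b (a (l 16406128) (b (l 16386272) (l 16495272))) (c (l 16377488) (l 16414440)))))), by decide +kernel⟩

def k2_pm_112_s : ∃ t, chk3 f_pm_112_s t 5 2 1 = true :=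
  ⟨(a (b (a (b (b (l 3) (a (b (l 3) (c (l 94120081703) (l 16725968))) (l 3))) (b (a (b (l 16673744) (l 16670192)) (b (c (l 97878174535) (l 16726248)) (a (l 16725048) (l 16727616)))) (a (c (l 16614520) (l 16628728)) (c (l 16618648) (l 16649112))))) (b (l 1) (l 1))) (a (a (b (b (c (l 16514264) (l 16537656)) (b (l 16429816) (a (a (c (l 16371656) (l 16405960)) (l 16394136)) (l 16408088)))) (b (b (a (c (l 16351648) (l 16421568)) (b (b (l 16376136) (a (l 16374304) (l 1))) (l 1))) (l 16413808)) (l 16411160))) (b (b (c (l 16558576) (l 16576896)) (c (l 16452144) (l 16479920))) (l 1))) (l 1))) (l 1)), by decide +kernel⟩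

def k3_pm_112_s : ∃ t, chk3 f_pm_112_s t 2 3 1 = true :=
  ⟨(b (a (l 6) (l 1)) (a (l 6) (l 1))), by decide +kernel⟩

def k4_pm_112_s : ∃ t, chk3 f_pm_112_s t 3 1 1 = true :=
  ⟨(l 1), by decide +kernel⟩

theorem s5_pm_112_s : ∃ t, chk3 f_pm_112_s t 4 2 1 = true := ex3_a k0_pm_112_s k1_pm_112_s

theorem s6_pm_112_s : ∃ t, chk3 f_pm_112_s t 2 2 1 = true := ex3_a s5_pm_112_s k2_pm_112_s

theorem s7_pm_112_s : ∃ t, chk3 f_pm_112_s t 2 1 1 = true := ex3_b s6_pm_112_s k3_pm_112_s

theorem s8_pm_112_s : ∃ t, chk3 f_pm_112_s t 1 1 1 = true := ex3_a s7_pm_112_s k4_pm_112_s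

theorem c_pm_112_s : CertNE 536870912 536870912 0 536870912 991146299 28908434 3 eng mog cd0q1 cd0q2 pd1 false true false .dn 1 1 2
    ndB0q1 ndB0q2 pcB1 cut_pm_112_s Ext.none :=
  certNE0 (fam := false) (s1 := true) (s2 := false) (a := 1) (b := 1) (c := 2) (cn := .dn) (n1 := ndB0q1) (n2 := ndB0q2) (pc := pcB1) (cut := cut_pm_112_s) (xt := Ext.none) (P1 := 536870912) (W1 := 536870912) (P2 := 0) (W2 := 536870912) (P3 := 991146299) (W3 := 28908434) (N0 := 3) (En := eng) (mo := mog) (C1 := cd0q1) (C2 := cd0q2) (C3 := pd1)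
    rfl s8_pm_112_s

noncomputable def cut_pm_112_t : Cut := Cut.of [[⟨3, 0, 0, 2845415833⟩]]

noncomputable def f_pm_112_t : ℕ → ℕ → ℕ → ℕ → Bool := onCell 536870912 536870912 0 536870912 991146299 28908434
    (rowNE 3 eng mog cd0q1 cd0q2 pd1 0 false true false .dn 1 1 2 (qsf 536870912 536870912 0 536870912 1) ndB0q1 ndB0q2 pcB1 cut_pm_112_t Ext.none)

def k0_pm_112_t : ∃ t, chk3 f_pm_112_t t 1 1 1 = true :=
  ⟨(l 6), by decide +kernel⟩

theorem c_pm_112_t : CertNE 536870912 536870912 0 536870912 991146299 28908434 3 eng mog cd0q1 cd0q2 pd1 false true false .dn 1 1 2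
    ndB0q1 ndB0q2 pcB1 cut_pm_112_t Ext.none :=
  certNE0 (fam := false) (s1 := true) (s2 := false) (a := 1) (b := 1) (c := 2) (cn := .dn) (n1 := ndB0q1) (n2 := ndB0q2) (pc := pcB1) (cut := cut_pm_112_t) (xt := Ext.none) (P1 := 536870912) (W1 := 536870912) (P2 := 0) (W2 := 536870912) (P3 := 991146299) (W3 := 28908434) (N0 := 3) (En := eng) (mo := mog) (C1 := cd0q1) (C2 := cd0q2) (C3 := pd1)
    rfl k0_pm_112_t

noncomputable def cut_pm_202_s : Cut := Cut.of [[⟨4, 0, 0, 1449551462⟩], [⟨0, 1, 0, 53687091⟩, ⟨1, 0, 0, 53687091⟩, ⟨2, 1, 0, 53687091⟩]]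

noncomputable def f_pm_202_s : ℕ → ℕ → ℕ → ℕ → Bool := onCell 0 536870912 0 536870912 991146299 28908434
    (rowNE 3 eng mog cd0q2 cd0q2 pd0 0 false true false .pp 2 0 2 (qsf 0 536870912 0 536870912 0) ndB0q2 ndB0q2 pcB0 cut_pm_202_s Ext.none)

def k0_pm_202_s : ∃ t, chk3 f_pm_202_s t 1 1 1 = true :=
  ⟨(a (l 3) (b (l 3) (a (l 3) (b (l 3) (a (l 3) (b (l 3) (l 14))))))), by decide +kernel⟩

theorem c_pm_202_s : CertNE 0 536870912 0 536870912 991146299 28908434 3 eng mog cd0q2 cd0q2 pd0 false true false .pp 2 0 2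
    ndB0q2 ndB0q2 pcB0 cut_pm_202_s Ext.none :=
  certNE0 (fam := false) (s1 := true) (s2 := false) (a := 2) (b := 0) (c := 2) (cn := .pp) (n1 := ndB0q2) (n2 := ndB0q2) (pc := pcB0) (cut := cut_pm_202_s) (xt := Ext.none) (P1 := 0) (W1 := 536870912) (P2 := 0) (W2 := 536870912) (P3 := 991146299) (W3 := 28908434) (N0 := 3) (En := eng) (mo := mog) (C1 := cd0q2) (C2 := cd0q2) (C3 := pd0)
    rfl k0_pm_202_s

noncomputable def cut_pm_202_t : Cut := Cut.of [[⟨3, 0, 0, 2845415833⟩], [⟨0, 1, 0, 53687091⟩, ⟨1, 0, 0, 53687091⟩, ⟨2, 1, 0, 53687091⟩]]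

noncomputable def f_pm_202_t : ℕ → ℕ → ℕ → ℕ → Bool := onCell 0 536870912 0 536870912 991146299 28908434
    (rowNE 3 eng mog cd0q2 cd0q2 pd0 0 false true false .pp 2 0 2 (qsf 0 536870912 0 536870912 0) ndB0q2 ndB0q2 pcB0 cut_pm_202_t Ext.none)

def k0_pm_202_t : ∃ t, chk3 f_pm_202_t t 1 1 1 = true :=
  ⟨(l 6), by decide +kernel⟩

theorem c_pm_202_t : CertNE 0 536870912 0 536870912 991146299 28908434 3 eng mog cd0q2 cd0q2 pd0 false true false .pp 2 0 2
    ndB0q2 ndB0q2 pcB0 cut_pm_202_t Ext.none :=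
  certNE0 (fam := false) (s1 := true) (s2 := false) (a := 2) (b := 0) (c := 2) (cn := .pp) (n1 := ndB0q2) (n2 := ndB0q2) (pc := pcB0) (cut := cut_pm_202_t) (xt := Ext.none) (P1 := 0) (W1 := 536870912) (P2 := 0) (W2 := 536870912) (P3 := 991146299) (W3 := 28908434) (N0 := 3) (En := eng) (mo := mog) (C1 := cd0q2) (C2 := cd0q2) (C3 := pd0)
    rfl k0_pm_202_t

noncomputable def cut_mm_001_s : Cut := Cut.of [[⟨4, 0, 0, 1449551462⟩]]

noncomputable def f_mm_001_s : ℕ → ℕ → ℕ → ℕ → Bool := onCell 0 536870912 0 536870912 991146299 28908434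
    (rowNE 3 eng mog cd0q0 cd0q1 pd0 1 false false false .up 0 0 1 (qsf 0 536870912 536870912 536870912 0) ndB0q0 ndB0q1 pcB0 cut_mm_001_s Ext.none)

def k0_mm_001_s : ∃ t, chk3 f_mm_001_s t 1 1 1 = true :=
  ⟨(l 3), by decide +kernel⟩

theorem c_mm_001_s : CertNE 0 536870912 536870912 536870912 991146299 28908434 3 eng mog cd0q0 cd0q1 pd0 false false false .up 0 0 1
    ndB0q0 ndB0q1 pcB0 cut_mm_001_s Ext.none :=
  certNE1 (fam := false) (s1 := false) (s2 := false) (a := 0) (b := 0) (c := 1) (cn := .up) (n1 := ndB0q0) (n2 := ndB0q1) (pc := pcB0) (cut := cut_mm_001_s) (xt := Ext.none) (P1 := 0) (W1 := 536870912) (P2 := 536870912) (W2 := 536870912) (P3 := 991146299) (W3 := 28908434) (N0 := 3) (En := eng) (mo := mog) (C1 := cd0q0) (C2 := cd0q1) (C3 := pd0)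
    rfl (fun _ => rfl) k0_mm_001_s

noncomputable def cut_mm_001_t : Cut := Cut.of [[⟨3, 0, 0, 2845415833⟩]]

noncomputable def f_mm_001_t : ℕ → ℕ → ℕ → ℕ → Bool := onCell 0 536870912 536870912 536870912 991146299 28908434
    (rowNE 3 eng mog cd0q0 cd0q1 pd0 0 false false false .up 0 0 1 (qsf 0 536870912 536870912 536870912 0) ndB0q0 ndB0q1 pcB0 cut_mm_001_t Ext.none)

def k0_mm_001_t : ∃ t, chk3 f_mm_001_t t 1 1 1 = true :=
  ⟨(l 6), by decide +kernel⟩

theorem c_mm_001_t : CertNE 0 536870912 536870912 536870912 991146299 28908434 3 eng mog cd0q0 cd0q1 pd0 false false false .up 0 0 1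
    ndB0q0 ndB0q1 pcB0 cut_mm_001_t Ext.none :=
  certNE0 (fam := false) (s1 := false) (s2 := false) (a := 0) (b := 0) (c := 1) (cn := .up) (n1 := ndB0q0) (n2 := ndB0q1) (pc := pcB0) (cut := cut_mm_001_t) (xt := Ext.none) (P1 := 0) (W1 := 536870912) (P2 := 536870912) (W2 := 536870912) (P3 := 991146299) (W3 := 28908434) (N0 := 3) (En := eng) (mo := mog) (C1 := cd0q0) (C2 := cd0q1) (C3 := pd0)
    rfl k0_mm_001_t

noncomputable def cut_mm_011_s : Cut := Cut.of [[⟨4, 0, 0, 1449551462⟩]]

noncomputable def f_mm_011_s : ℕ → ℕ → ℕ → ℕ → Bool := onCell 0 536870912 536870912 536870912 991146299 28908434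
    (rowNE 3 eng mog cd0q0 cd0q1 pd1 1 false false false .pnn 0 1 1 (qsf 0 536870912 536870912 536870912 1) ndB0q0 ndB0q1 pcB1 cut_mm_011_s Ext.none)

def k0_mm_011_s : ∃ t, chk3 f_mm_011_s t 1 1 1 = true :=
  ⟨(l 5), by decide +kernel⟩

theorem c_mm_011_s : CertNE 0 536870912 536870912 536870912 991146299 28908434 3 eng mog cd0q0 cd0q1 pd1 false false false .pnn 0 1 1
    ndB0q0 ndB0q1 pcB1 cut_mm_011_s Ext.none :=
  certNE1 (fam := false) (s1 := false) (s2 := false) (a := 0) (b := 1) (c := 1) (cn := .pnn) (n1 := ndB0q0) (n2 := ndB0q1) (pc := pcB1) (cut := cut_mm_011_s) (xt := Ext.none) (P1 := 0) (W1 := 536870912) (P2 := 536870912) (W2 := 536870912) (P3 := 991146299) (W3 := 28908434) (N0 := 3) (En := eng) (mo := mog) (C1 := cd0q0) (C2 := cd0q1) (C3 := pd1)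
    rfl (fun _ => rfl) k0_mm_011_s

noncomputable def cut_mm_011_t : Cut := Cut.of [[⟨3, 0, 0, 2845415833⟩]]

noncomputable def f_mm_011_t : ℕ → ℕ → ℕ → ℕ → Bool := onCell 0 536870912 536870912 536870912 991146299 28908434
    (rowNE 3 eng mog cd0q0 cd0q1 pd1 0 false false false .pnn 0 1 1 (qsf 0 536870912 536870912 536870912 1) ndB0q0 ndB0q1 pcB1 cut_mm_011_t Ext.none)

def k0_mm_011_t : ∃ t, chk3 f_mm_011_t t 1 1 1 = true :=
  ⟨(l 6), by decide +kernel⟩

theorem c_mm_011_t : CertNE 0 536870912 536870912 536870912 991146299 28908434 3 eng mog cd0q0 cd0q1 pd1 false false false .pnn 0 1 1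
    ndB0q0 ndB0q1 pcB1 cut_mm_011_t Ext.none :=
  certNE0 (fam := false) (s1 := false) (s2 := false) (a := 0) (b := 1) (c := 1) (cn := .pnn) (n1 := ndB0q0) (n2 := ndB0q1) (pc := pcB1) (cut := cut_mm_011_t) (xt := Ext.none) (P1 := 0) (W1 := 536870912) (P2 := 536870912) (W2 := 536870912) (P3 := 991146299) (W3 := 28908434) (N0 := 3) (En := eng) (mo := mog) (C1 := cd0q0) (C2 := cd0q1) (C3 := pd1)
    rfl k0_mm_011_t

noncomputable def cut_mm_012_s : Cut := Cut.of [[⟨4, 0, 0, 1449551462⟩]]

noncomputable def f_mm_012_s : ℕ → ℕ → ℕ → ℕ → Bool := onCell 0 536870912 0 536870912 991146299 28908434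
    (rowNE 3 eng mog cd0q0 cd0q2 pd1 0 false false false .pnp 0 1 2 (qsf 0 536870912 0 536870912 1) ndB0q0 ndB0q2 pcB1 cut_mm_012_s Ext.none)

def k0_mm_012_s : ∃ t, chk3 f_mm_012_s t 1 1 1 = true :=
  ⟨(l 5), by decide +kernel⟩

theorem c_mm_012_s : CertNE 0 536870912 0 536870912 991146299 28908434 3 eng mog cd0q0 cd0q2 pd1 false false false .pnp 0 1 2
    ndB0q0 ndB0q2 pcB1 cut_mm_012_s Ext.none :=
  certNE0 (fam := false) (s1 := false) (s2 := false) (a := 0) (b := 1) (c := 2) (cn := .pnp) (n1 := ndB0q0) (n2 := ndB0q2) (pc := pcB1) (cut := cut_mm_012_s) (xt := Ext.none) (P1 := 0) (W1 := 536870912) (P2 := 0) (W2 := 536870912) (P3 := 991146299) (W3 := 28908434) (N0 := 3) (En := eng) (mo := mog) (C1 := cd0q0) (C2 := cd0q2) (C3 := pd1)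
    rfl k0_mm_012_s

noncomputable def cut_mm_012_t : Cut := Cut.of [[⟨3, 0, 0, 2845415833⟩]]

noncomputable def f_mm_012_t : ℕ → ℕ → ℕ → ℕ → Bool := onCell 0 536870912 0 536870912 991146299 28908434
    (rowNE 3 eng mog cd0q0 cd0q2 pd1 0 false false false .pnp 0 1 2 (qsf 0 536870912 0 536870912 1) ndB0q0 ndB0q2 pcB1 cut_mm_012_t Ext.none)

def k0_mm_012_t : ∃ t, chk3 f_mm_012_t t 1 1 1 = true :=
  ⟨(l 5), by decide +kernel⟩

theorem c_mm_012_t : CertNE 0 536870912 0 536870912 991146299 28908434 3 eng mog cd0q0 cd0q2 pd1 false false false .pnp 0 1 2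
    ndB0q0 ndB0q2 pcB1 cut_mm_012_t Ext.none :=
  certNE0 (fam := false) (s1 := false) (s2 := false) (a := 0) (b := 1) (c := 2) (cn := .pnp) (n1 := ndB0q0) (n2 := ndB0q2) (pc := pcB1) (cut := cut_mm_012_t) (xt := Ext.none) (P1 := 0) (W1 := 536870912) (P2 := 0) (W2 := 536870912) (P3 := 991146299) (W3 := 28908434) (N0 := 3) (En := eng) (mo := mog) (C1 := cd0q0) (C2 := cd0q2) (C3 := pd1)
    rfl k0_mm_012_t

noncomputable def cut_mm_022_s : Cut := Cut.of [[⟨4, 0, 0, 1449551462⟩]]

noncomputable def f_mm_022_s : ℕ → ℕ → ℕ → ℕ → Bool := onCell 0 536870912 0 536870912 991146299 28908434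
    (rowNE 3 eng mog cd0q0 cd0q2 pd2 0 false false false .pp 0 2 2 (qsf 0 536870912 0 536870912 2) ndB0q0 ndB0q2 pcB2 cut_mm_022_s Ext.none)

def k0_mm_022_s : ∃ t, chk3 f_mm_022_s t 1 1 1 = true :=
  ⟨(l 5), by decide +kernel⟩

theorem c_mm_022_s : CertNE 0 536870912 0 536870912 991146299 28908434 3 eng mog cd0q0 cd0q2 pd2 false false false .pp 0 2 2
    ndB0q0 ndB0q2 pcB2 cut_mm_022_s Ext.none :=
  certNE0 (fam := false) (s1 := false) (s2 := false) (a := 0) (b := 2) (c := 2) (cn := .pp) (n1 := ndB0q0) (n2 := ndB0q2) (pc := pcB2) (cut := cut_mm_022_s) (xt := Ext.none) (P1 := 0) (W1 := 536870912) (P2 := 0) (W2 := 536870912) (P3 := 991146299) (W3 := 28908434) (N0 := 3) (En := eng) (mo := mog) (C1 := cd0q0) (C2 := cd0q2) (C3 := pd2)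
    rfl k0_mm_022_s

noncomputable def cut_mm_022_t : Cut := Cut.of [[⟨3, 0, 0, 2845415833⟩]]

noncomputable def f_mm_022_t : ℕ → ℕ → ℕ → ℕ → Bool := onCell 0 536870912 0 536870912 991146299 28908434
    (rowNE 3 eng mog cd0q0 cd0q2 pd2 0 false false false .pp 0 2 2 (qsf 0 536870912 0 536870912 2) ndB0q0 ndB0q2 pcB2 cut_mm_022_t Ext.none)

def k0_mm_022_t : ∃ t, chk3 f_mm_022_t t 1 1 1 = true :=
  ⟨(l 5), by decide +kernel⟩

theorem c_mm_022_t : CertNE 0 536870912 0 536870912 991146299 28908434 3 eng mog cd0q0 cd0q2 pd2 false false false .pp 0 2 2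
    ndB0q0 ndB0q2 pcB2 cut_mm_022_t Ext.none :=
  certNE0 (fam := false) (s1 := false) (s2 := false) (a := 0) (b := 2) (c := 2) (cn := .pp) (n1 := ndB0q0) (n2 := ndB0q2) (pc := pcB2) (cut := cut_mm_022_t) (xt := Ext.none) (P1 := 0) (W1 := 536870912) (P2 := 0) (W2 := 536870912) (P3 := 991146299) (W3 := 28908434) (N0 := 3) (En := eng) (mo := mog) (C1 := cd0q0) (C2 := cd0q2) (C3 := pd2)
    rfl k0_mm_022_t

noncomputable def cut_mm_101_s : Cut := Cut.of [[⟨4, 0, 0, 1449551462⟩]]

noncomputable def f_mm_101_s : ℕ → ℕ → ℕ → ℕ → Bool := onCell 536870912 536870912 536870912 536870912 991146299 28908434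
    (rowNE 3 eng mog cd0q1 cd0q1 pd0 0 false false false .npn 1 0 1 (qsf 536870912 536870912 536870912 536870912 0) ndB0q1 ndB0q1 pcB0 cut_mm_101_s Ext.none)

def k0_mm_101_s : ∃ t, chk3 f_mm_101_s t 1 1 1 = true :=
  ⟨(l 3), by decide +kernel⟩

theorem c_mm_101_s : CertNE 536870912 536870912 536870912 536870912 991146299 28908434 3 eng mog cd0q1 cd0q1 pd0 false false false .npn 1 0 1
    ndB0q1 ndB0q1 pcB0 cut_mm_101_s Ext.none :=
  certNE0 (fam := false) (s1 := false) (s2 := false) (a := 1) (b := 0) (c := 1) (cn := .npn) (n1 := ndB0q1) (n2 := ndB0q1) (pc := pcB0) (cut := cut_mm_101_s) (xt := Ext.none) (P1 := 536870912) (W1 := 536870912) (P2 := 536870912) (W2 := 536870912) (P3 := 991146299) (W3 := 28908434) (N0 := 3) (En := eng) (mo := mog) (C1 := cd0q1) (C2 := cd0q1) (C3 := pd0)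
    rfl k0_mm_101_s

noncomputable def cut_mm_101_t : Cut := Cut.of [[⟨3, 0, 0, 2845415833⟩]]

noncomputable def f_mm_101_t : ℕ → ℕ → ℕ → ℕ → Bool := onCell 536870912 536870912 536870912 536870912 991146299 28908434
    (rowNE 3 eng mog cd0q1 cd0q1 pd0 0 false false false .npn 1 0 1 (qsf 536870912 536870912 536870912 536870912 0) ndB0q1 ndB0q1 pcB0 cut_mm_101_t Ext.none)

def k0_mm_101_t : ∃ t, chk3 f_mm_101_t t 1 1 1 = true :=
  ⟨(l 3), by decide +kernel⟩

theorem c_mm_101_t : CertNE 536870912 536870912 536870912 536870912 991146299 28908434 3 eng mog cd0q1 cd0q1 pd0 false false false .npn 1 0 1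
    ndB0q1 ndB0q1 pcB0 cut_mm_101_t Ext.none :=
  certNE0 (fam := false) (s1 := false) (s2 := false) (a := 1) (b := 0) (c := 1) (cn := .npn) (n1 := ndB0q1) (n2 := ndB0q1) (pc := pcB0) (cut := cut_mm_101_t) (xt := Ext.none) (P1 := 536870912) (W1 := 536870912) (P2 := 536870912) (W2 := 536870912) (P3 := 991146299) (W3 := 28908434) (N0 := 3) (En := eng) (mo := mog) (C1 := cd0q1) (C2 := cd0q1) (C3 := pd0)
    rfl k0_mm_101_t

noncomputable def cut_mm_102_s : Cut := Cut.of [[⟨4, 0, 0, 1449551462⟩]]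

noncomputable def f_mm_102_s : ℕ → ℕ → ℕ → ℕ → Bool := onCell 536870912 536870912 0 536870912 991146299 28908434
    (rowNE 3 eng mog cd0q1 cd0q2 pd0 0 false false false .npp 1 0 2 (qsf 536870912 536870912 0 536870912 0) ndB0q1 ndB0q2 pcB0 cut_mm_102_s Ext.none)

def k0_mm_102_s : ∃ t, chk3 f_mm_102_s t 1 1 1 = true :=
  ⟨(a (l 5) (l 3)), by decide +kernel⟩

theorem c_mm_102_s : CertNE 536870912 536870912 0 536870912 991146299 28908434 3 eng mog cd0q1 cd0q2 pd0 false false false .npp 1 0 2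
    ndB0q1 ndB0q2 pcB0 cut_mm_102_s Ext.none :=
  certNE0 (fam := false) (s1 := false) (s2 := false) (a := 1) (b := 0) (c := 2) (cn := .npp) (n1 := ndB0q1) (n2 := ndB0q2) (pc := pcB0) (cut := cut_mm_102_s) (xt := Ext.none) (P1 := 536870912) (W1 := 536870912) (P2 := 0) (W2 := 536870912) (P3 := 991146299) (W3 := 28908434) (N0 := 3) (En := eng) (mo := mog) (C1 := cd0q1) (C2 := cd0q2) (C3 := pd0)
    rfl k0_mm_102_s

noncomputable def cut_mm_102_t : Cut := Cut.of [[⟨3, 0, 0, 2845415833⟩]]

noncomputable def f_mm_102_t : ℕ → ℕ → ℕ → ℕ → Bool := onCell 536870912 536870912 0 536870912 991146299 28908434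
    (rowNE 3 eng mog cd0q1 cd0q2 pd0 0 false false false .npp 1 0 2 (qsf 536870912 536870912 0 536870912 0) ndB0q1 ndB0q2 pcB0 cut_mm_102_t Ext.none)

def k0_mm_102_t : ∃ t, chk3 f_mm_102_t t 1 1 1 = true :=
  ⟨(l 6), by decide +kernel⟩

theorem c_mm_102_t : CertNE 536870912 536870912 0 536870912 991146299 28908434 3 eng mog cd0q1 cd0q2 pd0 false false false .npp 1 0 2
    ndB0q1 ndB0q2 pcB0 cut_mm_102_t Ext.none :=
  certNE0 (fam := false) (s1 := false) (s2 := false) (a := 1) (b := 0) (c := 2) (cn := .npp) (n1 := ndB0q1) (n2 := ndB0q2) (pc := pcB0) (cut := cut_mm_102_t) (xt := Ext.none) (P1 := 536870912) (W1 := 536870912) (P2 := 0) (W2 := 536870912) (P3 := 991146299) (W3 := 28908434) (N0 := 3) (En := eng) (mo := mog) (C1 := cd0q1) (C2 := cd0q2) (C3 := pd0)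
    rfl k0_mm_102_t

noncomputable def cut_mm_112_s : Cut := Cut.of [[⟨4, 0, 0, 1449551462⟩]]

noncomputable def f_mm_112_s : ℕ → ℕ → ℕ → ℕ → Bool := onCell 536870912 536870912 0 536870912 991146299 28908434
    (rowNE 3 eng mog cd0q1 cd0q2 pd1 2 false false false .dn 1 1 2 (qsf 536870912 536870912 0 536870912 1) ndB0q1 ndB0q2 pcB1 cut_mm_112_s Ext.none)

def k0_mm_112_s : ∃ t, chk3 f_mm_112_s t 1 1 1 = true :=
  ⟨(l 5), by decide +kernel⟩

theorem c_mm_112_s : CertNE 536870912 536870912 0 536870912 991146299 28908434 3 eng mog cd0q1 cd0q2 pd1 false false false .dn 1 1 2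
    ndB0q1 ndB0q2 pcB1 cut_mm_112_s Ext.none :=
  certNE2 (fam := false) (s1 := false) (s2 := false) (a := 1) (b := 1) (c := 2) (cn := .dn) (n1 := ndB0q1) (n2 := ndB0q2) (pc := pcB1) (cut := cut_mm_112_s) (xt := Ext.none) (P1 := 536870912) (W1 := 536870912) (P2 := 0) (W2 := 536870912) (P3 := 991146299) (W3 := 28908434) (N0 := 3) (En := eng) (mo := mog) (C1 := cd0q1) (C2 := cd0q2) (C3 := pd1)
    rfl (fun _ => rfl) k0_mm_112_s

noncomputable def cut_mm_112_t : Cut := Cut.of [[⟨3, 0, 0, 2845415833⟩]]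

noncomputable def f_mm_112_t : ℕ → ℕ → ℕ → ℕ → Bool := onCell 536870912 536870912 0 536870912 991146299 28908434
    (rowNE 3 eng mog cd0q1 cd0q2 pd1 0 false false false .dn 1 1 2 (qsf 536870912 536870912 0 536870912 1) ndB0q1 ndB0q2 pcB1 cut_mm_112_t Ext.none)

def k0_mm_112_t : ∃ t, chk3 f_mm_112_t t 1 1 1 = true :=
  ⟨(l 6), by decide +kernel⟩

theorem c_mm_112_t : CertNE 536870912 536870912 0 536870912 991146299 28908434 3 eng mog cd0q1 cd0q2 pd1 false false false .dn 1 1 2
    ndB0q1 ndB0q2 pcB1 cut_mm_112_t Ext.none :=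
  certNE0 (fam := false) (s1 := false) (s2 := false) (a := 1) (b := 1) (c := 2) (cn := .dn) (n1 := ndB0q1) (n2 := ndB0q2) (pc := pcB1) (cut := cut_mm_112_t) (xt := Ext.none) (P1 := 536870912) (W1 := 536870912) (P2 := 0) (W2 := 536870912) (P3 := 991146299) (W3 := 28908434) (N0 := 3) (En := eng) (mo := mog) (C1 := cd0q1) (C2 := cd0q2) (C3 := pd1)
    rfl k0_mm_112_t

noncomputable def cut_mm_202_s : Cut := Cut.of [[⟨4, 0, 0, 1449551462⟩]]

noncomputable def f_mm_202_s : ℕ → ℕ → ℕ → ℕ → Bool := onCell 0 536870912 0 536870912 991146299 28908434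
    (rowNE 3 eng mog cd0q2 cd0q2 pd0 0 false false false .pp 2 0 2 (qsf 0 536870912 0 536870912 0) ndB0q2 ndB0q2 pcB0 cut_mm_202_s Ext.none)

def k0_mm_202_s : ∃ t, chk3 f_mm_202_s t 1 1 1 = true :=
  ⟨(l 3), by decide +kernel⟩

theorem c_mm_202_s : CertNE 0 536870912 0 536870912 991146299 28908434 3 eng mog cd0q2 cd0q2 pd0 false false false .pp 2 0 2
    ndB0q2 ndB0q2 pcB0 cut_mm_202_s Ext.none :=
  certNE0 (fam := false) (s1 := false) (s2 := false) (a := 2) (b := 0) (c := 2) (cn := .pp) (n1 := ndB0q2) (n2 := ndB0q2) (pc := pcB0) (cut := cut_mm_202_s) (xt := Ext.none) (P1 := 0) (W1 := 536870912) (P2 := 0) (W2 := 536870912) (P3 := 991146299) (W3 := 28908434) (N0 := 3) (En := eng) (mo := mog) (C1 := cd0q2) (C2 := cd0q2) (C3 := pd0)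
    rfl k0_mm_202_s

noncomputable def cut_mm_202_t : Cut := Cut.of [[⟨3, 0, 0, 2845415833⟩]]

noncomputable def f_mm_202_t : ℕ → ℕ → ℕ → ℕ → Bool := onCell 0 536870912 0 536870912 991146299 28908434
    (rowNE 3 eng mog cd0q2 cd0q2 pd0 0 false false false .pp 2 0 2 (qsf 0 536870912 0 536870912 0) ndB0q2 ndB0q2 pcB0 cut_mm_202_t Ext.none)

def k0_mm_202_t : ∃ t, chk3 f_mm_202_t t 1 1 1 = true :=
  ⟨(l 3), by decide +kernel⟩

theorem c_mm_202_t : CertNE 0 536870912 0 536870912 991146299 28908434 3 eng mog cd0q2 cd0q2 pd0 false false false .pp 2 0 2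
    ndB0q2 ndB0q2 pcB0 cut_mm_202_t Ext.none :=
  certNE0 (fam := false) (s1 := false) (s2 := false) (a := 2) (b := 0) (c := 2) (cn := .pp) (n1 := ndB0q2) (n2 := ndB0q2) (pc := pcB0) (cut := cut_mm_202_t) (xt := Ext.none) (P1 := 0) (W1 := 536870912) (P2 := 0) (W2 := 536870912) (P3 := 991146299) (W3 := 28908434) (N0 := 3) (En := eng) (mo := mog) (C1 := cd0q2) (C2 := cd0q2) (C3 := pd0)
    rfl k0_mm_202_t

end Pool.Agent.Strip051.G.I9231_9500.Tab.CS.BB00

namespace Pool.Agent.Strip051.G.I9231_9500.Tab.CS.BB05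

open Pool.Agent.Strip051.PB Pool.Agent.Strip051.PB.T
open Pool.Agent.Strip051.G.I9231_9500.Tab

noncomputable def cut_pp_001_s : Cut := Cut.of [[⟨4, 0, 0, 1449551462⟩]]

noncomputable def f_pp_001_s : ℕ → ℕ → ℕ → ℕ → Bool := onCell 0 536870912 0 536870912 991146299 28908434
    (rowNE 3 eng mog cd0q0 cd5q1 pd0 1 false true true .up 0 0 1 (qsf 0 536870912 536870912 536870912 0) ndB0q0 ndB5q1 pcB0 cut_pp_001_s Ext.none)

def k0_pp_001_s : ∃ t, chk3 f_pp_001_s t 1 1 1 = true :=
  ⟨(l 3), by decide +kernel⟩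

theorem c_pp_001_s : CertNE 0 536870912 536870912 536870912 991146299 28908434 3 eng mog cd0q0 cd5q1 pd0 false true true .up 0 0 1
    ndB0q0 ndB5q1 pcB0 cut_pp_001_s Ext.none :=
  certNE1 (fam := false) (s1 := true) (s2 := true) (a := 0) (b := 0) (c := 1) (cn := .up) (n1 := ndB0q0) (n2 := ndB5q1) (pc := pcB0) (cut := cut_pp_001_s) (xt := Ext.none) (P1 := 0) (W1 := 536870912) (P2 := 536870912) (W2 := 536870912) (P3 := 991146299) (W3 := 28908434) (N0 := 3) (En := eng) (mo := mog) (C1 := cd0q0) (C2 := cd5q1) (C3 := pd0)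
    rfl (fun _ => rfl) k0_pp_001_s

noncomputable def cut_pp_011_s : Cut := Cut.of [[⟨4, 0, 0, 1449551462⟩], [⟨0, 0, 0, 53687091⟩, ⟨1, 1, 0, 53687091⟩, ⟨2, 1, 0, 53687091⟩]]

noncomputable def f_pp_011_s : ℕ → ℕ → ℕ → ℕ → Bool := onCell 0 536870912 536870912 536870912 991146299 28908434
    (rowNE 3 eng mog cd0q0 cd5q1 pd1 1 false true true .pnn 0 1 1 (qsf 0 536870912 536870912 536870912 1) ndB0q0 ndB5q1 pcB1 cut_pp_011_s Ext.none)

def k0_pp_011_s : ∃ t, chk3 f_pp_011_s t 1 1 1 = true :=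
  ⟨(b (l 3) (a (b (l 3) (a (b (l 3) (a (b (l 3) (a (l 14) (l 3))) (l 3))) (l 3))) (l 3))), by decide +kernel⟩

theorem c_pp_011_s : CertNE 0 536870912 536870912 536870912 991146299 28908434 3 eng mog cd0q0 cd5q1 pd1 false true true .pnn 0 1 1
    ndB0q0 ndB5q1 pcB1 cut_pp_011_s Ext.none :=
  certNE1 (fam := false) (s1 := true) (s2 := true) (a := 0) (b := 1) (c := 1) (cn := .pnn) (n1 := ndB0q0) (n2 := ndB5q1) (pc := pcB1) (cut := cut_pp_011_s) (xt := Ext.none) (P1 := 0) (W1 := 536870912) (P2 := 536870912) (W2 := 536870912) (P3 := 991146299) (W3 := 28908434) (N0 := 3) (En := eng) (mo := mog) (C1 := cd0q0) (C2 := cd5q1) (C3 := pd1)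
    rfl (fun _ => rfl) k0_pp_011_s

noncomputable def cut_pp_012_s : Cut := Cut.of [[⟨4, 0, 0, 1449551462⟩], [⟨0, 0, 0, 53687091⟩, ⟨1, 1, 0, 53687091⟩, ⟨2, 1, 0, 53687091⟩]]

noncomputable def f_pp_012_s : ℕ → ℕ → ℕ → ℕ → Bool := onCell 0 536870912 536870912 536870912 991146299 28908434
    (rowNE 3 eng mog cd0q0 cd5q2 pd1 1 false true true .pnp 0 1 2 (qsf 0 536870912 1073741824 536870912 1) ndB0q0 ndB5q2 pcB1 cut_pp_012_s Ext.none)

def k0_pp_012_s : ∃ t, chk3 f_pp_012_s t 1 1 1 = true :=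
  ⟨(b (l 3) (a (b (l 3) (a (a (a (b (l 1) (b (l 3) (l 14))) (l 3)) (l 3)) (l 3))) (l 3))), by decide +kernel⟩

theorem c_pp_012_s : CertNE 0 536870912 1073741824 536870912 991146299 28908434 3 eng mog cd0q0 cd5q2 pd1 false true true .pnp 0 1 2
    ndB0q0 ndB5q2 pcB1 cut_pp_012_s Ext.none :=
  certNE1 (fam := false) (s1 := true) (s2 := true) (a := 0) (b := 1) (c := 2) (cn := .pnp) (n1 := ndB0q0) (n2 := ndB5q2) (pc := pcB1) (cut := cut_pp_012_s) (xt := Ext.none) (P1 := 0) (W1 := 536870912) (P2 := 1073741824) (W2 := 536870912) (P3 := 991146299) (W3 := 28908434) (N0 := 3) (En := eng) (mo := mog) (C1 := cd0q0) (C2 := cd5q2) (C3 := pd1)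
    rfl (fun _ => rfl) k0_pp_012_s

noncomputable def cut_pp_022_s : Cut := Cut.of [[⟨4, 0, 0, 1449551462⟩], [⟨0, 0, 0, 26843545⟩, ⟨1, 1, 0, 26843545⟩, ⟨2, 1, 0, 26843545⟩]]

noncomputable def f_pp_022_s : ℕ → ℕ → ℕ → ℕ → Bool := onCell 0 536870912 1073741824 536870912 991146299 28908434
    (rowNE 3 eng mog cd0q0 cd5q2 pd2 1 false true true .pp 0 2 2 (qsf 0 536870912 1073741824 536870912 2) ndB0q0 ndB5q2 pcB2 cut_pp_022_s Ext.none)

def k0_pp_022_s : ∃ t, chk3 f_pp_022_s t 32 32 1 = true :=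
  ⟨(b (l 14) (a (l 14) (a (b (l 14) (b (a (l 14) (b (l 14) (l 16744704))) (c (l 16741160) (l 16727880)))) (b (b (b (l 14) (b (l 14) (a (l 14) (c (l 16766960) (c (l 16764408) (l 16758304)))))) (a (b (l 14) (c (l 16753440) (l 16761120))) (b (c (b (l 16764360) (l 16768296)) (b (l 16762336) (l 16761328))) (c (b (l 16761768) (l 16765880)) (a (l 16757744) (b (l 16765184) (l 16763568))))))) (b (a (c (l 16749848) (l 16746904)) (b (c (l 16764184) (b (l 16751224) (l 16760344))) (l 16753592))) (c (a (l 16734632) (l 16737240)) (a (l 16752488) (l 16754872)))))))), by decide +kernel⟩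

def k1_pp_022_s : ∃ t, chk3 f_pp_022_s t 33 64 1 = true :=
  ⟨(b (l 3) (a (a (a (a (l 14) (l 3)) (l 3)) (l 3)) (l 3))), by decide +kernel⟩

def k2_pp_022_s : ∃ t, chk3 f_pp_022_s t 132 520 1 = true :=
  ⟨(a (b (a (l 14) (b (l 3) (a (a (b (l 3) (b (a (l 14) (l 3)) (c (l 16777152) (c (l 16777136) (l 16777120))))) (l 3)) (l 3)))) (a (b (c (l 16775584) (c (l 16773032) (l 16772856))) (c (l 16775232) (l 16772088))) (b (a (b (a (c (l 16776920) (l 16776840)) (a (c (l 16777144) (c (l 16777128) (l 16777120))) (c (l 344302027255) (c (l 347523252711) (l 356113187303))))) (c (l 16776744) (l 16776624))) (a (b (l 3) (b (a (c (l 16777216) (l 16777208)) (l 3)) (c (l 16777136) (l 16777112)))) (l 3))) (a (c (l 16776232) (l 16773352)) (b (b (a (c (l 16776992) (l 16776928)) (c (l 313163514343) (a (l 16777200) (l 3)))) (c (l 16776976) (l 357186926711))) (c (l 16776728) (l 16776600))))))) (b (l 3) (a (b (l 3) (a (b (l 3) (a (a (c (l 16777128) (l 16777096)) (c (l 304573579735) (c (l 16777232)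 (l 266992615959)))) (l 3))) (l 3))) (l 3)))), by decide +kernel⟩

def k3_pp_022_s : ∃ t, chk3 f_pp_022_s t 132 521 1 = true :=
  ⟨(a (c (a (b (l 16774216) (l 16767648)) (b (a (l 16775216) (l 16775552)) (l 16774216))) (a (b (c (l 16768384) (l 16767976)) (l 16766496)) (a (b (l 16772720) (l 16767752)) (b (c (l 16773000) (l 16772816)) (l 16768592))))) (b (a (b (a (b (b (a (c (l 16776976) (l 16776912)) (c (l 292225548743) (c (l 16777232) (l 255718326791)))) (c (l 16776960) (l 345375766615))) (c (l 16776712) (l 16776584))) (b (c (l 858624360871) (l 882246680999)) (a (a (c (l 16777112) (l 16777080)) (c (l 232632877591) (c (l 16777224) (l 243907166711)))) (c (l 704542409239) (l 862919328023))))) (a (c (l 16776208) (l 16775936)) (b (b (c (c (l 16777096) (l 16777080)) (c (l 16777384) (a (l 16776872) (l 16777376)))) (c (l 16776944) (l 16776872))) (c (l 16776696) (l 16776560))))) (b (l 3) (a (b (c (l 838223266199) (l 860234973591)) (a (a (c (l 16777096) (l 16777064)) (c (l 16777384)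 (a (l 16777184) (l 319069094359)))) (c (l 637433545303) (l 638507287159)))) (l 3)))) (a (a (c (l 16775200) (l 16772040)) (c (l 16775856) (c (l 16770344) (l 16770160)))) (b (b (c (a (c (l 16777008) (l 16776976)) (l 791515496839)) (a (a (l 16776760) (a (l 16777056) (l 213305523383))) (l 837686395271))) (c (a (l 16776680) (a (l 16777464) (l 569787810407))) (a (l 16776536) (a (a (l 16777048) (l 199883751879)) (l 596094485127))))) (a (c (l 16776176) (l 16775904)) (c (c (l 16777008) (l 16776792)) (a (l 16776520) (a (l 16776824) (b (l 145659789831) (l 16776824)))))))))), by decide +kernel⟩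

def k4_pp_022_s : ∃ t, chk3 f_pp_022_s t 133 260 1 = true :=
  ⟨(b (l 3) (a (b (l 3) (a (b (l 3) (a (a (b (c (l 560661004887) (l 578914615943)) (c (l 16777120) (c (l 16777096) (l 16777080)))) (c (l 779167465847) (l 802789785959))) (l 3))) (l 3))) (l 3))), by decide +kernel⟩

def k5_pp_022_s : ∃ t, chk3 f_pp_022_s t 132 261 1 = true :=
  ⟨(a (b (c (c (l 16771304) (b (l 16766672) (l 16760056))) (b (a (l 16764840) (l 16766504)) (l 16765344))) (c (b (l 16764448) (l 16757960)) (c (l 16762184) (l 16755800)))) (a (b (c (c (l 16773792) (l 16770696)) (b (l 16770784) (l 16766504))) (c (l 16771000) (l 16765376))) (b (c (b (a (l 16775184) (l 16775832)) (l 16774200)) (b (b (l 16774160) (l 16769392)) (l 16770768))) (c (l 16772280) (b (l 16766504) (l 16759648)))))), by decide +kernel⟩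

def k6_pp_022_s : ∃ t, chk3 f_pp_022_s t 266 261 1 = true :=
  ⟨(b (a (b (a (b (c (c (l 16776832) (l 16776776)) (b (c (l 16776912) (l 16777120)) (l 16776496))) (c (l 16776152) (l 16770624))) (b (a (b (c (l 510732010103) (l 498383979191)) (c (l 16777112) (c (l 16777080) (l 16777064)))) (c (l 731922825575) (l 779704336727))) (c (c (l 16776816) (l 16776760)) (c (l 16776696) (c (l 16776648) (l 16776616)))))) (c (l 16775000) (c (l 16772520) (l 16772280)))) (a (b (b (l 3) (b (c (l 725480374615) (l 748028952903)) (a (c (l 16777096) (l 16777056)) (c (l 472614175319) (l 458118660759))))) (c (c (l 16776496) (l 16776392)) (b (c (l 16776680) (l 16776616)) (l 16770584)))) (b (l 3) (b (b (c (l 707763634487) (l 723869761847)) (a (c (l 16777080) (l 16777032)) (c (l 408189665943) (c (l 413021504135) (l 422685180551))))) (c (l 198810007863) (c (l 16776656) (l 16776592))))))) (b (c (c (l 16773672) (l 16774672)) (a (l 16770752) (c (l 16769864) (l 16769624)))) (c (l 16772896) (c (l 16767560)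 (l 16767048))))), by decide +kernel⟩

def k7_pp_022_s : ∃ t, chk3 f_pp_022_s t 267 261 1 = true :=
  ⟨(a (a (b (b (l 3) (b (l 3) (b (a (c (l 396915376775) (l 417316471415)) (l 3)) (a (c (l 16777056) (l 16777016)) (c (l 385641087607) (l 405505311335)))))) (c (b (c (l 16776464) (l 16776360)) (l 16775128)) (b (b (l 304036704999) (l 16770544)) (l 16769312)))) (b (l 3) (c (b (b (a (b (l 373829927527) (l 16777040)) (c (l 452749951863) (l 438791308215))) (l 16776720)) (l 16775752)) (b (b (b (c (l 461876757399) (l 687362539783)) (a (l 16776992) (c (l 16777424) (l 374366798407)))) (l 16775432)) (l 16772736))))) (b (l 3) (a (b (b (l 3) (b (a (c (l 343228285527) (a (l 16777216) (l 664277090743))) (l 3)) (a (c (l 16777024) (l 16776968)) (c (l 330880254535) (c (l 16777248) (l 312089772663)))))) (c (c (l 16776432) (l 16776320)) (c (l 16776208) (l 16776088)))) (b (l 3) (b (b (a (c (l 317995352631) (a (l 16777200) (l 567640326647))) (l 3)) (a (c (l 16777008) (l 16776944)) (c (l 16777528)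 (c (l 16777232) (l 242833425079))))) (c (l 16776680) (l 16776536))))))), by decide +kernel⟩

def k8_pp_022_s : ∃ t, chk3 f_pp_022_s t 66 131 1 = true :=
  ⟨(c (b (a (b (a (c (l 16767208) (l 16760568)) (l 16769160)) (a (l 16764320) (l 16766784))) (b (a (c (l 16772048) (l 16766064)) (b (a (l 16774176) (l 16775416)) (l 16772232))) (a (l 16769256) (c (l 16772080) (l 16766088))))) (a (b (a (l 16740984) (l 16764424)) (l 16753192)) (a (b (l 16766928) (l 16764584)) (b (l 16769344) (l 16767072))))) (b (a (b (a (b (l 16753992) (l 16757664)) (c (l 16757032) (l 16755888))) (a (c (l 16751376) (l 16749680)) (l 16758640))) (a (b (b (l 16767008) (l 16764120)) (c (l 16757120) (l 16755976))) (a (b (b (l 16768088) (l 16761248)) (l 16764144)) (b (b (c (l 16769800) (l 16769544)) (l 16768072)) (l 16767016))))) (a (a (l 16746760) (b (b (l 16751096) (l 16749824)) (l 16748056))) (b (a (l 16753536) (l 16761872)) (a (a (l 16749816) (l 16761872)) (l 16753680)))))), by decide +kernel⟩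

def k9_pp_022_s : ∃ t, chk3 f_pp_022_s t 268 65 1 = true :=
  ⟨(b (a (a (b (l 3) (b (l 3) (b (l 3) (b (l 3) (b (a (c (l 16777232) (a (l 16777176) (l 476909142535))) (l 3)) (a (c (l 16776984) (l 16776920)) (c (l 16777232) (l 197199396295)))))))) (l 3)) (l 3)) (b (b (b (a (b (a (c (l 16776664) (l 16776512)) (b (a (c (l 16777224) (l 183777624791)) (l 3)) (a (c (l 16776968) (l 16776896)) (c (l 16777216) (l 169818981063))))) (c (l 16776336) (l 16773472))) (b (l 3) (a (b (a (c (l 16777208) (l 155323466423)) (l 3)) (c (l 16777064) (c (l 16777024) (l 16777000)))) (l 3)))) (a (c (l 16775392) (l 16772264)) (b (a (c (l 16776624) (l 16776456)) (b (a (c (l 16777192) (l 16777168)) (l 3)) (c (l 16777048) (l 216526749015)))) (c (l 16776296) (l 16776040))))) (c (a (l 16772224) (b (l 16775360) (l 16774136))) (b (a (l 16768048) (l 16772224)) (c (l 16767520) (l 16761744))))) (c (b (l 16769120) (l 16769432)) (b (c (l 16765344) (l 16759296)) (l 16761952))))), by decide +kernel⟩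

def k10_pp_022_s : ∃ t, chk3 f_pp_022_s t 269 65 1 = true :=
  ⟨(b (l 3) (b (a (b (b (l 3) (b (l 3) (a (a (c (l 16777032) (l 205789330727)) (b (c (l 709911118359) (l 694341861975)) (c (l 16777168) (l 16777144)))) (c (l 837686395431) (l 863993070103))))) (c (b (b (b (a (l 16776736) (c (l 252497101607) (l 238001587047))) (l 16776712)) (l 16776264)) (l 16775336)) (b (b (a (l 16776408) (a (l 212768652455) (b (l 630454223479) (l 16777120)))) (l 16775992)) (l 16772184)))) (b (l 3) (b (b (c (l 828559590183) (l 853255649495)) (a (b (a (c (l 16777136) (l 16777112)) (c (l 553144812119) (l 582672712311))) (c (l 16776992) (l 16776920))) (c (l 794736722423) (l 818359042535)))) (b (b (a (c (l 16776696) (l 16776544)) (c (l 210621170471) (a (l 16777088) (l 514490106471)))) (c (l 16776672) (l 16775288))) (c (l 16776224) (l 16775936)))))) (c (b (c (l 16771704) (l 16773896)) (l 16769152)) (b (b (c (l 16768944) (l 16768576)) (l 16767216)) (c (l 16760112) (l 16759304)))))), by decide +kernel⟩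

def k11_pp_022_s : ∃ t, chk3 f_pp_022_s t 135 65 1 = true :=
  ⟨(b (l 3) (b (a (a (b (l 3) (b (l 3) (b (c (l 769503789815) (a (l 793662980567) (l 3))) (c (a (c (l 16777072) (l 16777048)) (l 722259149255)) (a (a (l 16776872) (b (l 444160017047) (l 16777048))) (l 772188144055)))))) (l 3)) (l 3)) (b (b (a (b (b (a (a (c (l 16776648) (l 16776488)) (c (l 16777496) (a (l 16777040) (l 374366798535)))) (l 3)) (a (c (l 16776632) (l 16776464)) (c (l 728164729383) (l 749639565847)))) (a (c (l 16776184) (l 16775888)) (a (c (c (l 16777040) (l 16777000)) (c (l 16776968) (c (l 16776944) (l 16776928)))) (c (c (l 494089012343) (l 484962206903)) (l 700784312695))))) (l 3)) (b (a (c (a (l 16775576) (c (l 16776760) (l 16776688))) (a (l 16764624) (a (l 16776232) (l 416242726503)))) (a (a (b (l 3) (c (l 386177958839) (l 379198636391))) (l 3)) (l 3))) (a (c (l 16772944) (l 16772464)) (a (a (c (l 16776976) (l 403894695479)) (b (l 3) (c (l 360408155031) (l 354502575063)))) (l 3))))) (a (c (b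 (l 16772048) (l 16773504)) (b (c (l 16768880) (l 16768504)) (l 16767184))) (a (c (b (c (l 16776448) (l 16776328)) (l 16775216)) (b (a (l 16775792) (b (l 391546664455) (l 16776144))) (l 16774632))) (b (b (b (l 3) (c (l 654613414327) (b (l 773261885959) (l 655150285143)))) (a (c (l 16776936) (l 378124891511)) (b (l 3) (c (l 285783098279) (l 261087035143))))) (c (c (l 16776408) (l 16776280)) (c (l 16776152) (l 16776016))))))))), by decide +kernel⟩

def k12_pp_022_s : ∃ t, chk3 f_pp_022_s t 16 33 1 = true :=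
  ⟨(b (a (a (a (b (l 14) (a (l 16700936) (l 16703048))) (b (b (l 16729720) (l 16714384)) (l 16717712))) (b (a (b (c (l 16725936) (l 16743936)) (l 16730208)) (b (a (l 16728344) (l 16741376)) (c (l 16726696) (l 16744120)))) (a (a (l 16711344) (l 16714056)) (c (l 16719928) (l 16716152))))) (b (c (a (a (b (l 16757512) (l 16753008)) (b (a (l 16756232) (b (l 16764888) (l 16762720))) (l 16753136))) (b (a (a (l 16760896) (c (l 16758560) (l 16767792))) (b (a (l 16766552) (c (l 16769032) (l 16773824))) (b (l 16768632) (l 16764928)))) (a (a (l 16751464) (l 16753784)) (b (l 16763344) (l 16756072))))) (a (a (b (l 16743208) (l 16749048)) (b (a (b (l 16748072) (l 16756104)) (b (l 16740344) (l 16748104))) (a (l 16752680) (l 16744720)))) (b (b (a (a (l 16753816) (l 16756776)) (a (l 16764960) (b (l 16771240) (l 16767136)))) (a (c (l 16753320) (l 16741152)) (a (l 16756848) (l 16764968)))) (a (a (b (l 16748240) (l 16735464)) (c (l 16740384) (l 16738360))) (b (a (l 16743592) (l 16756912))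 (l 16752808)))))) (b (a (a (l 16736064) (a (l 16729440) (l 16742464))) (a (a (l 16744976) (c (l 16739408) (l 16745056))) (c (c (l 16753200) (l 16751984)) (b (l 16750224) (l 16750216))))) (a (a (l 16721136) (l 16736840)) (a (c (l 16754928) (l 16728920)) (c (l 16749456) (a (l 16753664) (l 16745464)))))))) (a (a (a (b (l 16700728) (l 16684056)) (b (l 16697928) (l 16709864))) (b (a (l 16703576) (l 16709128)) (a (l 16694720) (l 16700448)))) (a (a (b (c (l 16737728) (l 16733304)) (l 16727048)) (b (c (l 16743272) (l 16717496)) (l 16711608))) (b (a (b (l 16737760) (l 16723144)) (b (b (l 16743992) (l 16731384)) (l 16728352))) (c (a (l 16740656) (l 16744680)) (l 16722136)))))), by decide +kernel⟩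

def k13_pp_022_s : ∃ t, chk3 f_pp_022_s t 17 32 1 = true :=
  ⟨(a (b (l 3) (b (l 3) (a (b (l 3) (a (b (l 3) (b (l 3) (a (a (a (b (b (c (l 695952474951) (l 721722278711)) (c (l 16777256) (l 234243488199))) (c (l 16776888) (l 16776792))) (c (c (l 636896674295) (l 643875996135)) (b (l 3) (b (l 664813962103) (l 211158041559))))) (l 3)) (l 3)))) (l 3))) (l 3)))) (l 3)), by decide +kernel⟩

def k14_pp_022_s : ∃ t, chk3 f_pp_022_s t 68 264 1 = true :=
  ⟨(a (b (b (a (a (c (l 16774992) (a (l 16775680) (l 16774752))) (a (b (a (c (l 16777216) (l 160155303735)) (c (l 608442516311) (l 578914616295))) (c (l 16776848) (l 16776736))) (a (b (l 3) (c (l 16777200) (l 134922372135))) (c (l 776483111527) (l 797957947991))))) (l 3)) (a (c (a (l 16775160) (l 16776256)) (a (l 16774544) (l 271824447063))) (a (b (a (c (l 243907166135) (a (l 16777144) (l 466171724791))) (l 3)) (a (c (l 16776800) (l 16776672)) (c (l 221895460023) (a (l 16777128) (l 413558375463))))) (l 3)))) (a (c (c (l 16774248)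 (l 16773784)) (b (l 16768544) (l 16761848))) (b (a (c (l 16776216) (l 16775912)) (b (a (c (l 203104978055) (c (l 16777192) (l 161765915367))) (l 3)) (c (a (l 16776744) (l 180019528807)) (a (l 16776608) (c (l 16777168) (l 140827947127)))))) (c (l 16773008) (a (l 16774456) (l 16775856)))))) (a (b (l 3) (b (l 3) (a (b (a (c (l 16777832) (c (l 16777144) (l 118816244935))) (l 3)) (c (a (l 16776696) (l 16777160)) (a (l 16776536) (c (l 16777128) (l 16777104))))) (c (l 848423814231) (l 874193617991))))) (l 3))), by decide +kernel⟩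

def k15_pp_022_s : ∃ t, chk3 f_pp_022_s t 68 265 1 = true :=
  ⟨(a (c (b (a (l 16771840) (l 16771360)) (b (l 16766088) (l 16759816))) (b (a (l 16764968) (c (l 16773248) (l 16762256))) (a (l 16756976) (l 16759720)))) (a (b (c (a (l 16772952) (b (b (a (l 16777144) (l 649781576871)) (l 16776872)) (l 16776080))) (b (a (l 16775792) (b (a (c (l 16777104) (l 16777080)) (l 843591975431)) (l 390472921639))) (l 16772424))) (c (l 16768704) (c (l 16773192) (l 16762184)))) (b (b (a (c (l 818895914007) (l 841981363207)) (l 3)) (a (b (a (c (l 16777096) (l 16777040)) (c (l 549386716327) (l 579451487479))) (c (l 16776824) (l 369534955911))) (c (l 788294271959) (l 809769108423)))) (c (b (b (a (l 16776304) (c (l 202568104775) (l 176261430279))) (l 292762413863)) (l 16775472)) (a (l 16772336) (b (a (l 354502569991) (b (l 460266145095) (l 16776944))) (l 16775600))))))), by decide +kernel⟩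

def k16_pp_022_s : ∃ t, chk3 f_pp_022_s t 68 133 1 = true :=
  ⟨(b (a (c (b (l 16758320) (l 16756408)) (a (l 16753040) (l 16759664))) (c (b (c (l 16767536) (l 16767328)) (l 16765656)) (b (a (l 16759720) (l 16767624)) (a (l 16746608) (l 16770200))))) (c (a (l 16753072) (a (l 16756008) (l 16757984))) (a (l 16749464) (b (l 16755864) (l 16763920))))), by decide +kernel⟩

def k17_pp_022_s : ∃ t, chk3 f_pp_022_s t 69 66 1 = true :=
  ⟨(b (b (l 3) (a (b (l 3) (a (c (b (a (l 725480375175) (l 3)) (a (a (l 16776736) (b (l 428053890151) (l 16776968))) (l 693804991303))) (b (l 942376222551) (a (b (a (l 16776912) (l 394767893815)) (l 16776560)) (l 911774579863)))) (l 3))) (l 3))) (b (a (b (a (c (a (l 16775416) (a (l 16776160) (a (l 330343378039) (b (l 184314496455) (l 16776264))))) (b (b (a (l 16775880) (a (l 16776848) (l 324974675255))) (l 16770592)) (l 16774816))) (c (b (a (l 663740220151) (l 3)) (a (c (l 16776864) (l 16776800)) (l 633138578087))) (b (l 931638800951) (a (a (l 16776432)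 (l 589652030615)) (l 872046130839))))) (c (a (l 16768576) (a (l 16775288) (c (l 16776232) (l 16776200)))) (a (l 16767552) (b (c (l 230485389015) (l 336785826407)) (l 16774696))))) (b (l 3) (a (c (b (a (l 603073806919) (l 3)) (a (l 16776728) (a (l 283635614167) (l 837149524791)))) (b (l 890299741303) (a (l 366313729223) (l 817822168167)))) (l 3)))) (a (c (b (b (l 16767912) (l 16761544)) (l 16765064)) (b (b (l 16766864) (l 16760336)) (l 16763704))) (a (c (b (b (l 302962959847) (l 16775056)) (l 16773360)) (b (c (l 291688667575) (l 291151795335)) (l 16772656))) (a (b (c (b (a (l 235854104295) (l 789904884455)) (l 16776592)) (b (l 792052364423) (l 16776416))) (c (l 16774896) (l 16774496))) (b (b (l 3) (c (c (l 305110450919) (l 304036707831)) (l 766282560839))) (c (l 16775936) (l 281488121463)))))))), by decide +kernel⟩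

def k18_pp_022_s : ∃ t, chk3 f_pp_022_s t 34 67 1 = true :=
  ⟨(b (a (c (a (b (l 16748312) (l 16753800)) (b (l 16752128) (l 16736576))) (b (a (c (l 16756712) (l 16732984)) (l 16749968)) (a (l 16751544) (l 16745560)))) (b (c (a (b (l 16767936) (l 16765472)) (b (l 16766824) (l 16759184))) (a (b (l 16766536) (l 16764224)) (b (a (l 16770192) (l 16772592)) (l 16758520)))) (c (a (l 16761608) (l 16758024)) (a (l 16740000) (l 16757768))))) (a (a (b (l 16729576) (l 16725744)) (b (c (l 16752232) (l 16731432)) (l 16729344))) (b (c (b (l 16749224) (l 16746416)) (b (l 16752064) (l 16747872))) (a (c (l 16750632) (l 16753336)) (b (l 16748016) (l 16745312)))))), by decide +kernel⟩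

def k19_pp_022_s : ∃ t, chk3 f_pp_022_s t 35 66 1 = true :=
  ⟨(b (l 3) (a (b (l 3) (a (b (l 3) (a (b (b (c (l 734070309991) (l 913922055383)) (a (c (l 16777168) (l 645486606039)) (l 3))) (a (c (l 16776408) (l 16776272)) (a (c (l 16777136) (l 615958705639)) (c (l 409263408983) (l 406042183623))))) (l 3))) (l 3))) (l 3))), by decide +kernel⟩

def k20_pp_022_s : ∃ t, chk3 f_pp_022_s t 35 134 1 = true :=
  ⟨(a (b (a (b (a (c (l 16769968) (l 207936802103)) (b (b (c (l 770577530823) (l 866677415303)) (c (a (l 16777064) (l 3)) (l 737828401703))) (c (a (l 16776216) (c (l 16777200) (l 16777144))) (a (l 16776120) (l 651392185383))))) (a (c (l 16772848) (l 16772528)) (c (l 16774992) (l 16769600)))) (b (l 3) (a (c (b (a (c (l 16777152) (l 16777112)) (l 986936506295)) (a (l 16776016) (l 16777736))) (b (a (l 620790543239) (l 962777306711)) (a (l 16775960) (l 588578288295)))) (c (l 975125342487) (l 952576748007))))) (a (c (b (l 16766240) (l 16768928)) (b (l 16766088) (l 16758632)))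 (b (a (c (l 16774752) (l 16764240)) (c (b (a (l 16777016) (l 882246677671)) (l 342691407335)) (b (a (l 556902904343) (l 905868991271)) (a (l 16775808) (l 16774216))))) (c (a (l 16772256) (l 16774496)) (b (l 16768848) (l 16762472)))))) (b (l 3) (a (c (b (l 950966154727) (a (a (l 16776200) (b (l 421611440455) (l 16776712))) (l 862919319127))) (b (a (l 919827623111) (l 3)) (a (b (b (l 740512757271) (l 583746449351)) (l 16776160)) (l 888689122007)))) (l 3)))), by decide +kernel⟩

def k21_pp_022_s : ∃ t, chk3 f_pp_022_s t 35 135 1 = true :=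
  ⟨(a (c (a (b (l 16754448) (l 16759296)) (b (b (l 16770800) (l 16768128)) (l 16763984))) (b (a (l 16755512) (a (l 16748256) (l 16760832))) (a (l 16762224) (l 16755840)))) (b (a (c (b (a (l 16774240) (a (l 16775960) (b (l 329806514455) (l 16776472)))) (l 16767568)) (b (a (l 16774488) (a (l 16776040) (a (l 525764390167) (l 666424570407)))) (l 16768104))) (b (a (c (l 829633322295) (b (l 3) (l 790441743559))) (l 3)) (a (c (b (a (l 16776352) (l 16778024)) (l 16775656)) (c (l 364166243927) (b (l 327658984887) (l 16775744)))) (c (l 797421067879) (b (l 3) (l 754471394839)))))) (c (a (b (l 16770144) (l 16767400)) (b (a (l 16773696) (b (l 16778024) (l 16775392))) (l 16772208))) (a (b (l 16760776) (l 16769288)) (a (l 16767952) (b (c (l 16776248) (l 220821679335)) (l 16774112))))))), by decide +kernel⟩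

def k22_pp_022_s : ∃ t, chk3 f_pp_022_s t 8 17 1 = true :=
  ⟨(a (a (b (a (b (b (a (l 16696624) (l 16701064)) (c (l 16672000) (l 16688528))) (c (l 16681896) (l 16655904))) (b (b (l 16689064) (l 16701776)) (c (l 16692208) (l 16666416)))) (a (b (l 16644760) (l 16654104)) (b (l 16674896) (l 16661840)))) (b (b (b (a (c (l 16724120) (l 16698128)) (b (l 16713848) (l 16710008))) (a (l 16713736) (l 16704344))) (a (b (l 16706072) (l 16698664)) (a (l 16690456) (l 16694152)))) (b (a (l 16667144) (l 16673840)) (b (l 16657528) (l 16647544))))) (b (a (b (a (b (c (l 16718272) (l 16719520)) (a (l 16710568) (l 16712864))) (b (c (a (l 16721840) (b (l 16748952) (l 16722216))) (a (l 16727352) (b (l 16733464) (l 16749528)))) (c (l 16713504) (l 16719880)))) (a (b (l 16702072) (l 16692272)) (b (a (l 16705496) (l 16708128)) (l 16696952)))) (b (a (b (c (a (b (l 16732392) (l 16726336)) (b (l 16737224) (l 16731200))) (a (b (l 16758168) (l 16753112)) (a (l 16737528) (l 16739520)))) (c (a (l 16717768)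 (l 16722144)) (a (l 16724296) (l 16733544)))) (a (c (b (b (l 16763144) (l 16736288)) (l 16727112)) (b (b (l 16744952) (l 16761032)) (l 16753320))) (b (b (c (l 16766768) (l 16764632)) (c (l 16762336) (l 16765136))) (c (l 16740224) (l 16747120))))) (a (b (c (a (l 16728736) (l 16710880)) (l 16716056)) (a (l 16701328) (l 16704704))) (b (c (a (l 16715112) (l 16720072)) (b (l 16726776) (l 16721520))) (c (l 16706648) (l 16713872)))))) (a (b (a (c (l 16695464) (l 16701384)) (b (l 16687120) (l 16698296))) (a (l 16657544) (l 16662776))) (b (a (b (l 16693360) (l 16683800)) (b (l 16700840) (l 16691616))) (a (c (l 16666384) (l 16694168)) (c (l 16674568) (l 16702960))))))), by decide +kernel⟩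

def k23_pp_022_s : ∃ t, chk3 f_pp_022_s t 9 16 1 = true :=
  ⟨(a (b (l 3) (a (b (l 3) (b (l 3) (a (b (l 3) (a (b (a (c (l 765745684871) (b (l 938081234263) (l 732459692743))) (l 3)) (a (c (l 261087027639) (l 227264136679)) (c (l 734607173191) (b (l 896742176647) (l 678235729943))))) (l 3))) (l 3)))) (l 3))) (l 3)), by decide +kernel⟩

def k24_pp_022_s : ∃ t, chk3 f_pp_022_s t 18 68 1 = true :=
  ⟨(a (b (a (b (a (c (b (a (l 16773104) (l 16775512)) (l 16771584)) (a (l 16762328) (b (l 16765360) (l 16773656)))) (b (a (c (l 702931790967) (c (l 706689885239) (l 712058592983))) (l 3)) (a (c (l 16775224) (l 16775616)) (c (a (l 103783855703) (l 390472927367)) (b (l 780241194711) (l 328195860791)))))) (c (a (l 16767368) (b (l 16773712) (l 16770936))) (a (l 16758736) (b (l 16769144) (l 16772104))))) (b (l 3) (c (a (a (b (a (l 16776752) (l 320142836455)) (l 16774624)) (c (l 702931787383) (l 704542398071))) (l 892984079863)) (a (b (a (c (l 595020738503) (l 484962163719)) (l 905332100103))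 (a (l 16775112) (b (l 357723747655) (l 16776560)))) (b (l 3) (l 880636027591)))))) (a (c (b (a (l 16740576) (l 16766656)) (a (l 16734576) (l 16739816))) (b (c (l 16755408) (l 16756640)) (a (l 16759368) (l 16763688)))) (b (a (c (c (l 16771440) (l 16771928)) (b (l 16773848) (l 16771528))) (c (b (c (l 665887692215) (l 673403889127)) (a (l 16773992) (l 213842391927))) (b (a (c (l 16755856) (l 326048369863)) (l 839296985079)) (c (l 233169706247) (l 234243447463))))) (c (a (l 16765952) (l 16771016)) (a (l 16767952) (l 16766880)))))) (b (l 3) (a (b (a (b (l 3) (a (c (l 774872484311) (l 773798737591)) (l 3))) (l 3)) (a (c (b (a (l 16776104) (l 738365264967)) (l 16764072)) (b (a (l 16760616) (l 741049615863)) (l 251960200647))) (a (c (l 752323910087) (c (l 751787023927) (l 753397633495))) (l 3)))) (l 3)))), by decide +kernel⟩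

def k25_pp_022_s : ∃ t, chk3 f_pp_022_s t 18 69 1 = true :=
  ⟨(c (a (a (b (a (l 16725456) (l 16730872)) (a (l 16713512) (l 16718896))) (b (b (a (l 16739152) (l 16765328)) (l 16746544)) (a (l 16724568) (l 16730080)))) (b (a (a (b (l 16770392) (l 16764792)) (b (a (l 16774056) (a (l 357186916919) (b (l 375440486055) (l 16775680)))) (l 16769728))) (b (a (b (l 3) (l 698636815799)) (l 3)) (a (c (l 235317183511) (l 240685892391)) (b (l 850571265975) (l 645486602023))))) (a (b (l 16761696) (l 16735048)) (b (a (l 16768992) (b (l 16775168) (l 16772408))) (l 16765824))))) (a (a (b (b (l 16756472) (l 16751384)) (a (l 16741528) (l 16746088))) (b (a (l 16739680) (b (l 16767408) (l 16762688))) (b (l 16755656) (l 16750792)))) (a (b (b (a (l 16771600) (a (l 16764144) (b (l 350207547143) (l 16775464)))) (a (l 16766968) (l 16771040))) (b (l 16753912) (l 16759672))) (a (b (b (b (l 3) (a (l 337859523543) (l 3))) (c (l 244980858583) (l 287393659799))) (b (l 16770416) (l 16765744))) (b (b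 (l 3) (b (l 846813161767) (a (l 16755840) (l 804937248215)))) (b (b (l 16759832) (l 16773232)) (l 16769752))))))), by decide +kernel⟩

def k26_pp_022_s : ∃ t, chk3 f_pp_022_s t 18 35 1 = true :=
  ⟨(a (b (a (b (c (l 16705408) (l 16713064)) (l 16700032)) (b (c (l 16715832) (a (l 16741128) (l 16745856))) (c (l 16704944) (l 16733984)))) (a (c (l 16683016) (l 16712008)) (b (l 16699600) (l 16691032)))) (b (a (b (c (l 16726464) (l 16752480)) (c (l 16714848) (l 16742688))) (b (c (c (l 16735592) (l 16737192)) (b (l 16763056) (l 16758280))) (c (l 16724920) (l 16751040)))) (a (b (a (l 16705496) (l 16709864)) (l 16692984)) (b (c (l 16713328) (l 16741208)) (a (l 16703912) (l 16708288)))))), by decide +kernel⟩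

def k27_pp_022_s : ∃ t, chk3 f_pp_022_s t 19 17 1 = true :=
  ⟨(a (b (b (l 3) (b (l 3) (a (b (a (b (c (l 757155734119) (l 757692599479)) (c (l 561197865543) (c (l 322290258087) (l 324437740199)))) (l 3)) (a (c (l 16773008) (l 16763240)) (c (b (l 705079262887) (l 303499791111)) (b (l 709911097591) (l 300815434007))))) (l 3)))) (c (b (a (b (b (a (l 16767432) (l 16772192)) (l 16764224)) (l 16758360)) (b (b (a (a (l 290078025079) (l 631527956055)) (l 803326618743)) (b (a (l 16772728) (l 443086235719)) (l 16761808))) (b (l 16768120) (l 16762512)))) (b (a (l 16723320) (l 16754032)) (a (l 16732744) (l 16721656)))) (b (b (a (a (l 16756240) (b (l 16773032) (l 16768352))) (b (a (b (l 661055853959) (l 16754848)) (l 804400353463)) (a (l 16772304) (c (l 295446714103) (l 295983583607))))) (a (b (l 16761616) (l 16756816)) (b (l 16759112) (l 16764872)))) (b (a (l 16749544) (l 16757704)) (a (l 16739712) (l 16748000)))))) (b (l 3) (b (b (a (a (b (l 3) (c (l 717427281095) (l 763598195335)))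 (l 3)) (l 3)) (a (c (b (a (l 283098697143) (l 677161971111)) (a (l 16769544) (l 16774144))) (b (a (l 277729985991) (b (l 3) (l 341080734999))) (c (l 16751544) (l 16757240)))) (b (l 3) (a (c (l 637433532151) (b (l 777019953783) (l 316384687159))) (l 3))))) (b (a (c (b (l 16766296) (l 16760696)) (b (l 16768024) (l 16763272))) (b (a (c (l 16773184) (l 16773824)) (c (a (l 16755560) (l 346449444039)) (a (l 16755720) (l 349670665063)))) (c (l 16769928) (l 16760576)))) (a (c (l 16731280) (l 16756096)) (c (c (l 16740064) (l 16762176)) (b (l 16766344) (l 16761600)))))))), by decide +kernel⟩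

def k28_pp_022_s : ∃ t, chk3 f_pp_022_s t 5 8 1 = true :=
  ⟨(b (l 3) (a (b (l 3) (a (a (b (l 3) (a (c (b (b (l 803326597591) (a (l 305110393911) (l 757155726631))) (a (l 16768408) (b (l 16754592) (l 16770104)))) (b (b (l 805474072871) (a (l 302426036263) (l 762524431447))) (a (l 16769744) (b (l 280414342999) (l 16771176))))) (b (l 3) (a (c (b (l 665350810039) (l 16774488)) (b (l 717964156599) (l 16774936))) (b (l 3) (c (l 486572771223) (l 333564531735))))))) (l 3)) (l 3))) (l 3))), by decide +kernel⟩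

def k29_pp_022_s : ∃ t, chk3 f_pp_022_s t 4 9 1 = true :=
  ⟨(a (b (a (a (b (b (a (l 16639032) (l 16648272)) (a (l 16614216) (l 16624496))) (b (l 16593160) (l 16544944))) (b (b (a (l 16652112) (l 16654704)) (a (l 16631384) (l 16634792))) (b (l 16569792) (a (l 16564392) (l 16574648))))) (b (a (b (c (l 16637648) (l 16664656)) (a (l 16618544) (l 16625232))) (b (a (l 16651480) (l 16660472)) (c (l 16634456) (l 16662536)))) (a (b (l 16624296) (l 16605856)) (b (l 16631048) (l 16623688))))) (a (b (a (b (l 16516704) (l 16508688)) (b (l 16566448) (l 16518784))) (a (l 16399120) (l 16453976))) (b (a (b (l 16566944) (l 16546928)) (l 16534032)) (a (c (l 16485744) (l 16533888)) (b (l 16569672) (l 16549728)))))) (a (b (b (a (b (a (l 16669672) (l 16657128)) (c (l 16652592) (l 16681832))) (b (a (c (l 16681096) (l 16711000)) (b (l 16685944) (l 16708880))) (a (l 16668264) (l 16675168)))) (b (a (l 16639160) (c (l 16671408) (l 16680320))) (a (l 16642616) (l 16637648)))) (a (b (b (l 16625056)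 (l 16607472)) (l 16581288)) (b (b (l 16641488) (l 16624384)) (l 16599088)))) (b (b (b (a (b (a (a (l 16702344) (l 16706712)) (c (l 16731160) (l 16738184))) (a (l 16684288) (b (l 16705592) (l 16700456)))) (c (b (a (l 16719944) (l 16729432)) (l 16713472)) (b (a (l 16746408) (l 16754432)) (a (l 16736664) (l 16744808))))) (a (a (l 16661088) (b (l 16693232) (l 16705664))) (b (a (c (l 16718408) (l 16727088)) (l 16710528)) (a (l 16691816) (l 16695016))))) (a (b (c (l 16664216) (l 16694568)) (l 16652088)) (b (a (l 16679248) (b (l 16690520) (l 16703064))) (c (l 16661928) (l 16692456))))) (a (b (b (l 16656400) (l 16639848)) (l 16573280)) (b (b (l 16671376) (l 16655168)) (b (l 16639024) (l 16622760))))))), by decide +kernel⟩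

def k30_pp_022_s : ∃ t, chk3 f_pp_022_s t 20 18 1 = true :=
  ⟨(a (a (b (b (b (c (l 16759608) (l 16741264)) (c (l 16727552) (l 16752736))) (c (l 16711024) (l 16738536))) (b (b (l 16677984) (l 16689352)) (l 16677104))) (b (b (b (c (b (l 16771232) (l 16765768)) (b (l 16761640) (l 16767456))) (c (l 16757568) (l 16760440))) (c (l 16717680) (b (l 16751104) (l 16741752)))) (b (b (l 16707640) (l 16697648)) (b (l 16688152) (l 16700880))))) (c (b (b (b (a (b (a (l 427516977479) (l 770040623815)) (l 270750659575)) (b (l 3) (l 733533396135))) (a (l 16766304) (a (l 16756872) (b (l 334101409831) (l 16774064))))) (b (a (l 16755536) (l 16764024)) (a (l 16723824) (l 16732392)))) (b (c (l 16700304) (l 16713696)) (b (l 16696336) (l 16686376)))) (b (b (b (a (b (a (l 308331613015) (l 773798715927)) (c (l 16753760) (l 16751408))) (b (l 3) (l 738902100583))) (a (b (l 16770192) (l 16765576)) (a (l 236390933687) (b (l 382419787623) (l 16774528))))) (b (a (l 16758656) (l 16765904)) (a (l 16749416)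 (l 16756712)))) (b (b (l 16743904) (l 16734616)) (b (l 16725432) (l 16716352)))))), by decide +kernel⟩

def k31_pp_022_s : ∃ t, chk3 f_pp_022_s t 21 18 1 = true :=
  ⟨(b (b (a (a (b (l 3) (b (l 3) (c (l 606295010071) (l 608979362551)))) (l 3)) (l 3)) (b (a (c (a (c (l 255718273607) (l 16751408)) (b (l 720111625031) (l 291151737351))) (a (c (l 16751792) (l 233706564279)) (b (l 724406588279) (l 280951186487)))) (l 3)) (c (a (a (l 16761640) (l 16769648)) (a (c (l 287393622167) (l 279877428823)) (l 703468614023))) (a (a (l 16763784) (l 16760200)) (a (b (l 308868457159) (l 16754200)) (l 706689834535)))))) (c (b (a (b (a (l 16730104) (l 16759168)) (l 16744696)) (b (a (l 16767008) (c (l 258939489815) (l 16743200))) (a (l 16756632) (l 16764296)))) (a (b (l 16713248) (l 16702808)) (b (l 16750224) (l 16739936)))) (b (b (a (a (l 16754624) (l 16761576)) (a (l 16768344) (c (l 16732960) (l 16744536)))) (a (l 16749008) (a (l 16759272) (l 16765912)))) (a (b (l 16739808) (l 16730568))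 (a (l 16745624) (l 16731384)))))), by decide +kernel⟩

def k32_pp_022_s : ∃ t, chk3 f_pp_022_s t 10 19 1 = true :=
  ⟨(b (a (a (b (l 16643760) (l 16669784)) (b (c (l 16673336) (l 16703536)) (l 16662176))) (b (a (b (c (l 16692568) (l 16721456)) (c (l 16703896) (l 16712424))) (c (l 16724608) (l 16709784))) (a (c (l 16670416) (l 16699880)) (c (b (l 16709600) (l 16700400)) (l 16691832))))) (b (a (a (l 16653808) (l 16667384)) (a (l 16680072) (c (l 16688592) (l 16696016)))) (a (a (l 16637784) (l 16651584)) (a (l 16664472) (l 16676880))))), by decide +kernel⟩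

def k33_pp_022_s : ∃ t, chk3 f_pp_022_s t 11 9 1 = true :=
  ⟨(b (b (l 3) (a (b (a (b (a (b (l 3) (c (l 297057314199) (l 352355014183))) (l 3)) (c (a (l 16750728) (b (l 382419778039) (l 16755312))) (a (l 16751440) (l 335175127207)))) (a (l 3) (l 3))) (b (a (c (a (l 16761512) (l 16768760)) (a (l 16763384) (l 16769736))) (c (a (l 250349553815) (l 626696093863)) (a (l 300278545223) (l 635286025719)))) (a (c (l 16755080) (l 16757624)) (c (a (l 16765744) (l 16772560)) (c (l 16748912) (l 16749384)))))) (b (l 3) (a (b (l 3) (a (c (l 332490787431) (l 333027653271)) (l 3))) (l 3))))) (b (c (a (b (a (b (l 16744984) (l 16713960)) (b (l 16759296) (l 16749392))) (a (l 16719976) (l 16734672))) (b (a (b (a (l 16769344) (l 16754752)) (l 16762888)) (b (l 603073762391) (l 206862997159))) (a (b (l 16753184) (l 16743536)) (b (l 16765888) (l 16756384))))) (a (b (a (b (l 16748584) (l 16739504)) (b (l 16740192) (l 16752192))) (a (l 16725816) (l 16738696))) (b (a (b (a (l 16770120) (l 16754992))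 (l 16764208)) (b (l 619179885879) (c (l 16733656) (l 16733376)))) (a (b (l 16755296) (l 16746336)) (b (l 16766760) (l 16757904)))))) (b (c (a (a (l 16680576) (l 16715424)) (a (l 16729208) (l 16742288))) (a (a (l 16708080) (l 16720608)) (a (l 16732840) (l 16744576)))) (a (a (l 16688816) (c (l 16697928) (l 16703120))) (a (c (l 16689832) (l 16714928)) (c (l 16723632) (l 16726560))))))), by decide +kernel⟩

def k34_pp_022_s : ∃ t, chk3 f_pp_022_s t 4 5 1 = true :=
  ⟨(b (a (b (b (a (a (l 16392376) (l 16407144)) (a (l 16425128) (b (l 16525280) (l 16492248)))) (b (a (l 16306752) (l 16346296)) (a (b (l 16309840) (b (l 16282768) (a (l 16243736) (l 16282336)))) (b (l 16372192) (b (l 16345896) (a (l 16324480) (l 16370016))))))) (a (a (b (l 16214936) (l 16176624)) (b (l 16254912) (l 16219192))) (a (b (l 16298520) (l 16265016)) (b (l 16345256) (l 16313760))))) (b (b (a (a (b (l 16554152) (l 16531048)) (b (l 16573272) (l 16555880))) (b (l 16598576) (l 16582056))) (a (b (a (l 16495560)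 (l 16530944)) (b (a (l 16459816) (l 16499360)) (b (l 16413056) (a (l 16415424) (l 16455792))))) (b (a (l 16555216) (l 16573768)) (b (a (l 16534064) (l 16559312)) (b (a (l 16510472) (l 16543976)) (l 16467888)))))) (a (b (a (l 16391712) (l 16432976)) (l 16299888)) (a (b (l 16470288) (l 16442712)) (b (l 16505104) (l 16478296)))))) (a (a (b (a (l 16126120) (l 16171880)) (b (l 16106048) (l 16080728))) (b (a (l 16220648) (l 16271584)) (a (l 16169408) (l 16203616)))) (a (b (a (l 16300480) (l 16262176)) (a (l 16206720) (l 16259000))) (b (b (a (l 16417008) (l 16445640)) (l 16353272)) (l 16293184))))), by decide +kernel⟩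

def k35_pp_022_s : ∃ t, chk3 f_pp_022_s t 5 5 1 = true :=
  ⟨(b (b (b (b (a (a (a (l 16621736) (l 16635776)) (a (l 16648880) (l 16661472))) (a (a (l 16673568) (l 16685200)) (a (l 16675304) (c (l 16706320) (l 16709040))))) (a (a (l 16571160) (a (l 16633320) (l 16646112))) (a (a (l 16658384) (l 16670152)) (a (l 16681456) (l 16692312))))) (a (b (a (l 16555360) (a (l 16617936) (l 16630960))) (b (a (l 16585424) (l 16613320)) (a (a (b (l 16569000) (l 16504968)) (b (l 16587072) (a (l 16576600) (l 16586032)))) (b (l 16608056) (l 16604232))))) (b (a (a (l 16643424) (l 16655344)) (a (l 16666752) (l 16677688))) (a (b (l 16638584) (b (l 16633552) (l 16630096))) (b (l 16661600) (b (l 16656664) (l 16653320))))))) (a (a (b (a (l 16537200) (l 16559792)) (a (l 16504008) (l 16521848))) (b (l 16583192) (l 16544136))) (a (b (l 16609416) (l 16571344)) (b (a (l 16627248) (l 16638568)) (l 16596232))))) (a (b (a (a (l 16424520) (l 16441168)) (b (l 16483960) (l 16465656))) (a (l 16331240) (l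 16365232))) (b (a (b (l 16512296) (l 16495280)) (b (l 16538448) (l 16522840))) (a (l 16397056) (l 16406088))))), by decide +kernel⟩

def k36_pp_022_s : ∃ t, chk3 f_pp_022_s t 2 3 1 = true :=
  ⟨(b (b (a (a (a (b (l 15963680) (a (l 15982568) (l 16020192))) (b (b (l 16117592) (l 16125696)) (l 16042720))) (a (b (l 16206680) (l 16119296)) (b (l 16251040) (l 16166728)))) (a (a (b (l 16291920) (l 16211120)) (b (l 16329128) (l 16252240))) (a (b (l 16364504) (l 16291936)) (b (l 16398416) (l 16330536))))) (b (a (a (l 6) (a (l 16031616) (l 16082832))) (a (a (l 16131464) (l 16177272)) (a (l 16222232) (l 2)))) (a (l 6) (l 6)))) (l 6)), by decide +kernel⟩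

def k37_pp_022_s : ∃ t, chk3 f_pp_022_s t 3 4 1 = true :=
  ⟨(b (l 3) (a (b (l 3) (a (b (a (b (a (a (c (l 618106127655) (l 634749120007)) (l 3)) (l 3)) (a (c (b (l 207936733511) (l 16768288)) (b (l 195051825879) (l 16768856))) (b (l 3) (c (l 306184108711) (l 306720974679))))) (l 3)) (c (a (b (a (l 16754400) (b (l 16770128) (l 16761024))) (a (l 16736024) (l 16747504))) (b (a (b (l 16737992) (l 16771440)) (b (l 3) (l 16747392))) (a (l 16758136) (l 16746952)))) (a (b (a (l 16755688) (b (l 16770496) (l 16761760))) (a (l 16737920) (l 16748648))) (b (a (b (l 16726936) (l 16771672)) (l 323900787463)) (a (l 16758704) (l 16747160)))))) (b (l 3) (a (b (l 3) (a (c (l 276119333415) (l 274508714903)) (c (l 306184074119) (l 307257806471)))) (l 3))))) (l 3))), by decide +kernel⟩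

def k38_pp_022_s : ∃ t, chk3 f_pp_022_s t 3 5 1 = true :=
  ⟨(a (b (a (b (b (b (a (a (c (l 16718168) (l 16720160)) (c (l 16729640) (l 16730960))) (a (c (l 16740536) (l 16741256)) (c (l 16750600) (l 16750896)))) (a (a (l 16702672) (c (l 16712840) (l 16713680))) (a (b (l 16727696) (l 16719176)) (c (l 16733536) (l 16733536))))) (b (a (a (l 16688168) (l 16698200)) (b (a (l 16711280) (l 16720848)) (l 16708824))) (b (a (l 16682576) (l 16701696)) (a (b (l 16677616) (l 16653304)) (b (l 16696576) (l 16672160)))))) (a (b (a (l 16649336) (l 16659576)) (l 16618984)) (b (a (l 16669304) (l 16678544)) (l 16639768)))) (a (b (b (b (a (c (l 16759864) (l 16759888)) (b (l 16751480) (l 16764056))) (a (c (l 16743056) (l 16742760)) (c (l 16751808) (l 16751344)))) (b (b (a (l 16730192) (l 16739024)) (a (l 16722128) (l 16730816))) (b (a (l 16714792) (l 16723072)) (b (l 16713712) (a (l 16705920) (l 16713944)))))) (b (a (l 16687320) (l 16695648)) (l 16658744))) (a (b (b (b (c (l 16734096) (l 16733984))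 (b (l 16763608) (l 16755376))) (b (a (l 16741096) (l 16745032)) (b (l 16731072) (b (l 16725384) (l 16721560))))) (b (l 16703560) (l 2))) (b (b (b (c (l 278803675591) (l 277729924407)) (b (l 16770856) (l 16762736))) (b (b (l 16754664) (l 2)) (l 2))) (l 2))))) (a (b (a (b (l 16583552) (l 16527560)) (a (l 16583536) (l 16594664))) (a (l 16497344) (l 16524096))) (a (b (a (l 16605392) (l 2)) (l 2)) (l 2)))) (b (b (b (b (b (l 3) (l 2)) (l 2)) (l 2)) (l 2)) (l 2))), by decide +kernel⟩

def k39_pp_022_s : ∃ t, chk3 f_pp_022_s t 3 3 1 = true :=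
  ⟨(a (b (b (a (b (a (l 16409952) (l 2)) (l 2)) (l 2)) (l 2)) (l 2)) (l 2)), by decide +kernel⟩

theorem s40_pp_022_s : ∃ t, chk3 f_pp_022_s t 3 2 1 = true := ex3_b k37_pp_022_s k38_pp_022_s

theorem s41_pp_022_s : ∃ t, chk3 f_pp_022_s t 3 1 1 = true := ex3_b s40_pp_022_s k39_pp_022_s

theorem s42_pp_022_s : ∃ t, chk3 f_pp_022_s t 2 5 1 = true := ex3_a k34_pp_022_s k35_pp_022_s

theorem s43_pp_022_s : ∃ t, chk3 f_pp_022_s t 10 18 1 = true := ex3_a k30_pp_022_s k31_pp_022_s

theorem s44_pp_022_s : ∃ t, chk3 f_pp_022_s t 10 9 1 = true := ex3_b s43_pp_022_s k32_pp_022_s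

theorem s45_pp_022_s : ∃ t, chk3 f_pp_022_s t 5 9 1 = true := ex3_a s44_pp_022_s k33_pp_022_s

theorem s46_pp_022_s : ∃ t, chk3 f_pp_022_s t 2 9 1 = true := ex3_a k29_pp_022_s s45_pp_022_s

theorem s47_pp_022_s : ∃ t, chk3 f_pp_022_s t 18 34 1 = true := ex3_b k24_pp_022_s k25_pp_022_s

theorem s48_pp_022_s : ∃ t, chk3 f_pp_022_s t 18 17 1 = true := ex3_b s47_pp_022_s k26_pp_022_s

theorem s49_pp_022_s : ∃ t, chk3 f_pp_022_s t 9 17 1 = true := ex3_a s48_pp_022_s k27_pp_022_s

theorem s50_pp_022_s : ∃ t, chk3 f_pp_022_s t 9 8 1 = true := ex3_b k23_pp_022_s s49_pp_022_s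

theorem s51_pp_022_s : ∃ t, chk3 f_pp_022_s t 35 67 1 = true := ex3_b k20_pp_022_s k21_pp_022_s

theorem s52_pp_022_s : ∃ t, chk3 f_pp_022_s t 35 33 1 = true := ex3_b k19_pp_022_s s51_pp_022_s

theorem s53_pp_022_s : ∃ t, chk3 f_pp_022_s t 68 132 1 = true := ex3_b k14_pp_022_s k15_pp_022_s

theorem s54_pp_022_s : ∃ t, chk3 f_pp_022_s t 68 66 1 = true := ex3_b s53_pp_022_s k16_pp_022_s

theorem s55_pp_022_s : ∃ t, chk3 f_pp_022_s t 34 66 1 = true := ex3_a s54_pp_022_s k17_pp_022_s

theorem s56_pp_022_s : ∃ t, chk3 f_pp_022_s t 34 33 1 = true := ex3_b s55_pp_022_s k18_pp_022_s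

theorem s57_pp_022_s : ∃ t, chk3 f_pp_022_s t 17 33 1 = true := ex3_a s56_pp_022_s s52_pp_022_s

theorem s58_pp_022_s : ∃ t, chk3 f_pp_022_s t 17 16 1 = true := ex3_b k13_pp_022_s s57_pp_022_s

theorem s59_pp_022_s : ∃ t, chk3 f_pp_022_s t 134 65 1 = true := ex3_a k9_pp_022_s k10_pp_022_s

theorem s60_pp_022_s : ∃ t, chk3 f_pp_022_s t 67 65 1 = true := ex3_a s59_pp_022_s k11_pp_022_s

theorem s61_pp_022_s : ∃ t, chk3 f_pp_022_s t 133 261 1 = true := ex3_a k6_pp_022_s k7_pp_022_s

theorem s62_pp_022_s : ∃ t, chk3 f_pp_022_s t 66 261 1 = true := ex3_a k5_pp_022_s s61_pp_022_s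

theorem s63_pp_022_s : ∃ t, chk3 f_pp_022_s t 132 260 1 = true := ex3_b k2_pp_022_s k3_pp_022_s

theorem s64_pp_022_s : ∃ t, chk3 f_pp_022_s t 66 260 1 = true := ex3_a s63_pp_022_s k4_pp_022_s

theorem s65_pp_022_s : ∃ t, chk3 f_pp_022_s t 66 130 1 = true := ex3_b s64_pp_022_s s62_pp_022_s

theorem s66_pp_022_s : ∃ t, chk3 f_pp_022_s t 66 65 1 = true := ex3_b s65_pp_022_s k8_pp_022_s

theorem s67_pp_022_s : ∃ t, chk3 f_pp_022_s t 33 65 1 = true := ex3_a s66_pp_022_s s60_pp_022_s

theorem s68_pp_022_s : ∃ t, chk3 f_pp_022_s t 33 32 1 = true := ex3_b k1_pp_022_s s67_pp_022_s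

theorem s69_pp_022_s : ∃ t, chk3 f_pp_022_s t 16 32 1 = true := ex3_a k0_pp_022_s s68_pp_022_s

theorem s70_pp_022_s : ∃ t, chk3 f_pp_022_s t 16 16 1 = true := ex3_b s69_pp_022_s k12_pp_022_s

theorem s71_pp_022_s : ∃ t, chk3 f_pp_022_s t 8 16 1 = true := ex3_a s70_pp_022_s s58_pp_022_s

theorem s72_pp_022_s : ∃ t, chk3 f_pp_022_s t 8 8 1 = true := ex3_b s71_pp_022_s k22_pp_022_s

theorem s73_pp_022_s : ∃ t, chk3 f_pp_022_s t 4 8 1 = true := ex3_a s72_pp_022_s s50_pp_022_s

theorem s74_pp_022_s : ∃ t, chk3 f_pp_022_s t 2 8 1 = true := ex3_a s73_pp_022_s k28_pp_022_s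

theorem s75_pp_022_s : ∃ t, chk3 f_pp_022_s t 2 4 1 = true := ex3_b s74_pp_022_s s46_pp_022_s

theorem s76_pp_022_s : ∃ t, chk3 f_pp_022_s t 2 2 1 = true := ex3_b s75_pp_022_s s42_pp_022_s

theorem s77_pp_022_s : ∃ t, chk3 f_pp_022_s t 2 1 1 = true := ex3_b s76_pp_022_s k36_pp_022_s

theorem s78_pp_022_s : ∃ t, chk3 f_pp_022_s t 1 1 1 = true := ex3_a s77_pp_022_s s41_pp_022_s

theorem c_pp_022_s : CertNE 0 536870912 1073741824 536870912 991146299 28908434 3 eng mog cd0q0 cd5q2 pd2 false true true .pp 0 2 2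
    ndB0q0 ndB5q2 pcB2 cut_pp_022_s Ext.none :=
  certNE1 (fam := false) (s1 := true) (s2 := true) (a := 0) (b := 2) (c := 2) (cn := .pp) (n1 := ndB0q0) (n2 := ndB5q2) (pc := pcB2) (cut := cut_pp_022_s) (xt := Ext.none) (P1 := 0) (W1 := 536870912) (P2 := 1073741824) (W2 := 536870912) (P3 := 991146299) (W3 := 28908434) (N0 := 3) (En := eng) (mo := mog) (C1 := cd0q0) (C2 := cd5q2) (C3 := pd2)
    rfl (fun _ => rfl) s78_pp_022_s

noncomputable def cut_pp_023_s : Cut := Cut.of [[⟨4, 0, 0, 1449551462⟩]]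

noncomputable def f_pp_023_s : ℕ → ℕ → ℕ → ℕ → Bool := onCell 1073741824 536870912 0 1230186008 991146299 28908434
    (rowNE 3 eng mog cd0q0 cd5q3 pd2 2 false true true .up 0 2 3 (qsf 0 536870912 0 1230186008 2) ndB0q0 ndB5q3 pcB2 cut_pp_023_s Ext.none)

def k0_pp_023_s : ∃ t, chk3 f_pp_023_s t 2 2 1 = true :=
  ⟨(l 2), by decide +kernel⟩

def k1_pp_023_s : ∃ t, chk3 f_pp_023_s t 2 3 1 = true :=
  ⟨(a (b (l 2) (b (l 2) (l 3))) (b (a (l 2) (b (l 2) (a (l 2) (b (l 2) (l 16610968))))) (b (b (a (a (l 2) (b (l 2) (l 282494702903))) (a (b (l 16674320) (l 16668576)) (b (l 16642144) (l 16632376)))) (b (a (a (l 2) (a (l 16756088) (l 16726648))) (a (l 16681856) (l 16620320))) (a (a (a (l 3) (a (l 3) (a (c (l 249812671415) (l 16733984)) (l 16770408)))) (a (l 16709080) (l 16719776))) (a (l 16671880) (l 16605544))))) (a (a (a (b (l 3) (b (a (l 3) (a (l 3) (b (l 16745232) (l 16754984)))) (a (b (l 3) (c (l 257328811031) (l 254107573207))) (a (b (l 244443963847) (l 16752880)) (b (l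 16771488) (l 16764088)))))) (a (b (b (a (l 3) (b (l 16769656) (l 16774344))) (a (b (l 3) (l 16773376)) (b (l 16775248) (l 16770752)))) (c (a (b (l 16771752) (l 16758680)) (b (l 16762752) (l 16749144))) (b (a (l 16771568) (l 16762312)) (b (l 16756808) (l 16748760))))) (b (a (b (a (b (l 16776200) (l 16772856)) (l 16770448)) (a (l 16792776) (l 16762240))) (b (l 16764320) (a (l 16757912) (b (l 16756048) (l 16750832))))) (a (b (b (l 16756472) (l 16750096)) (b (l 16742768) (l 16713536))) (b (a (b (l 16749616) (l 16742984)) (b (l 16744784) (l 16738016))) (a (b (l 16735520) (l 16727328)) (b (l 16730624) (l 16722544)))))))) (a (b (b (b (l 16745912) (l 16741656)) (b (l 16736664) (l 16730704))) (b (b (l 16723984) (l 16716672)) (b (l 16708704) (l 16700024)))) (b (b (l 16710480) (l 16698200)) (b (l 16682520) (l 16664064))))) (b (b (a (l 16596224) (l 16587616)) (a (a (l 16640888) (l 16624488)) (l 16545080))) (b (a (c (l 16626512) (l 16578552)) (l 16498592)) (a (b (l 16586032) (l 16573912))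 (l 16448960)))))))), by decide +kernel⟩

def k2_pp_023_s : ∃ t, chk3 f_pp_023_s t 3 1 1 = true :=
  ⟨(a (b (l 2) (a (b (b (l 2) (b (a (l 16625568) (l 16586296)) (b (l 16543680) (l 16551840)))) (b (b (b (l 16537080) (l 16498976)) (b (l 16458008) (l 16413816))) (b (b (a (l 16511416) (l 16429512)) (l 16292776)) (b (a (l 16451448) (l 16355456)) (a (l 16416232) (l 16313200)))))) (a (b (b (b (l 2) (l 16590232)) (b (l 16544776) (l 16499400))) (b (b (l 16452584) (l 16394128)) (b (l 16214816) (b (l 16251808) (l 16202088))))) (b (b (l 6) (l 6)) (b (l 6) (l 6)))))) (b (l 6) (l 6))), by decide +kernel⟩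

theorem s3_pp_023_s : ∃ t, chk3 f_pp_023_s t 2 1 1 = true := ex3_b k0_pp_023_s k1_pp_023_s

theorem s4_pp_023_s : ∃ t, chk3 f_pp_023_s t 1 1 1 = true := ex3_a s3_pp_023_s k2_pp_023_s

theorem c_pp_023_s : CertNE 0 536870912 0 1230186008 991146299 28908434 3 eng mog cd0q0 cd5q3 pd2 false true true .up 0 2 3
    ndB0q0 ndB5q3 pcB2 cut_pp_023_s Ext.none :=
  certNE2 (fam := false) (s1 := true) (s2 := true) (a := 0) (b := 2) (c := 3) (cn := .up) (n1 := ndB0q0) (n2 := ndB5q3) (pc := pcB2) (cut := cut_pp_023_s) (xt := Ext.none) (P1 := 0) (W1 := 536870912) (P2 := 0) (W2 := 1230186008) (P3 := 991146299) (W3 := 28908434) (N0 := 3) (En := eng) (mo := mog) (C1 := cd0q0) (C2 := cd5q3) (C3 := pd2)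
    rfl (fun _ => rfl) s4_pp_023_s

noncomputable def cut_pp_033_s : Cut := Cut.of [[⟨4, 0, 0, 1449551462⟩]]

noncomputable def f_pp_033_s : ℕ → ℕ → ℕ → ℕ → Bool := onCell 1610612736 536870912 0 1230186008 991146299 28908434
    (rowNE 3 eng mog cd0q0 cd5q3 pd3 2 false true true .pnn 0 3 3 (qsf 0 536870912 0 1230186008 3) ndB0q0 ndB5q3 pcB3 cut_pp_033_s Ext.none)

def k0_pp_033_s : ∃ t, chk3 f_pp_033_s t 1 1 1 = true :=
  ⟨(b (l 6) (l 6)), by decide +kernel⟩

theorem c_pp_033_s : CertNE 0 536870912 0 1230186008 991146299 28908434 3 eng mog cd0q0 cd5q3 pd3 false true true .pnn 0 3 3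
    ndB0q0 ndB5q3 pcB3 cut_pp_033_s Ext.none :=
  certNE2 (fam := false) (s1 := true) (s2 := true) (a := 0) (b := 3) (c := 3) (cn := .pnn) (n1 := ndB0q0) (n2 := ndB5q3) (pc := pcB3) (cut := cut_pp_033_s) (xt := Ext.none) (P1 := 0) (W1 := 536870912) (P2 := 0) (W2 := 1230186008) (P3 := 991146299) (W3 := 28908434) (N0 := 3) (En := eng) (mo := mog) (C1 := cd0q0) (C2 := cd5q3) (C3 := pd3)
    rfl (fun _ => rfl) k0_pp_033_s

noncomputable def cut_pp_101_s : Cut := Cut.of [[⟨4, 0, 0, 1449551462⟩]]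

noncomputable def f_pp_101_s : ℕ → ℕ → ℕ → ℕ → Bool := onCell 536870912 536870912 536870912 536870912 991146299 28908434
    (rowNE 3 eng mog cd0q1 cd5q1 pd0 0 false true true .npn 1 0 1 (qsf 536870912 536870912 536870912 536870912 0) ndB0q1 ndB5q1 pcB0 cut_pp_101_s Ext.none)

def k0_pp_101_s : ∃ t, chk3 f_pp_101_s t 1 1 1 = true :=
  ⟨(a (l 3) (l 5)), by decide +kernel⟩

theorem c_pp_101_s : CertNE 536870912 536870912 536870912 536870912 991146299 28908434 3 eng mog cd0q1 cd5q1 pd0 false true true .npn 1 0 1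
    ndB0q1 ndB5q1 pcB0 cut_pp_101_s Ext.none :=
  certNE0 (fam := false) (s1 := true) (s2 := true) (a := 1) (b := 0) (c := 1) (cn := .npn) (n1 := ndB0q1) (n2 := ndB5q1) (pc := pcB0) (cut := cut_pp_101_s) (xt := Ext.none) (P1 := 536870912) (W1 := 536870912) (P2 := 536870912) (W2 := 536870912) (P3 := 991146299) (W3 := 28908434) (N0 := 3) (En := eng) (mo := mog) (C1 := cd0q1) (C2 := cd5q1) (C3 := pd0)
    rfl k0_pp_101_s

noncomputable def cut_pp_102_s : Cut := Cut.of [[⟨4, 0, 0, 1449551462⟩]]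

noncomputable def f_pp_102_s : ℕ → ℕ → ℕ → ℕ → Bool := onCell 536870912 536870912 1073741824 536870912 991146299 28908434
    (rowNE 3 eng mog cd0q1 cd5q2 pd0 0 false true true .npp 1 0 2 (qsf 536870912 536870912 1073741824 536870912 0) ndB0q1 ndB5q2 pcB0 cut_pp_102_s Ext.none)

def k0_pp_102_s : ∃ t, chk3 f_pp_102_s t 1 1 1 = true :=
  ⟨(a (l 3) (b (l 5) (l 3))), by decide +kernel⟩

theorem c_pp_102_s : CertNE 536870912 536870912 1073741824 536870912 991146299 28908434 3 eng mog cd0q1 cd5q2 pd0 false true true .npp 1 0 2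
    ndB0q1 ndB5q2 pcB0 cut_pp_102_s Ext.none :=
  certNE0 (fam := false) (s1 := true) (s2 := true) (a := 1) (b := 0) (c := 2) (cn := .npp) (n1 := ndB0q1) (n2 := ndB5q2) (pc := pcB0) (cut := cut_pp_102_s) (xt := Ext.none) (P1 := 536870912) (W1 := 536870912) (P2 := 1073741824) (W2 := 536870912) (P3 := 991146299) (W3 := 28908434) (N0 := 3) (En := eng) (mo := mog) (C1 := cd0q1) (C2 := cd5q2) (C3 := pd0)
    rfl k0_pp_102_s

noncomputable def cut_pp_112_s : Cut := Cut.of [[⟨4, 0, 0, 1449551462⟩]]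

noncomputable def f_pp_112_s : ℕ → ℕ → ℕ → ℕ → Bool := onCell 536870912 536870912 1073741824 536870912 991146299 28908434
    (rowNE 3 eng mog cd0q1 cd5q2 pd1 0 false true true .dn 1 1 2 (qsf 536870912 536870912 1073741824 536870912 1) ndB0q1 ndB5q2 pcB1 cut_pp_112_s Ext.none)

def k0_pp_112_s : ∃ t, chk3 f_pp_112_s t 1 1 1 = true :=
  ⟨(a (l 3) (b (l 5) (l 3))), by decide +kernel⟩

theorem c_pp_112_s : CertNE 536870912 536870912 1073741824 536870912 991146299 28908434 3 eng mog cd0q1 cd5q2 pd1 false true true .dn 1 1 2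
    ndB0q1 ndB5q2 pcB1 cut_pp_112_s Ext.none :=
  certNE0 (fam := false) (s1 := true) (s2 := true) (a := 1) (b := 1) (c := 2) (cn := .dn) (n1 := ndB0q1) (n2 := ndB5q2) (pc := pcB1) (cut := cut_pp_112_s) (xt := Ext.none) (P1 := 536870912) (W1 := 536870912) (P2 := 1073741824) (W2 := 536870912) (P3 := 991146299) (W3 := 28908434) (N0 := 3) (En := eng) (mo := mog) (C1 := cd0q1) (C2 := cd5q2) (C3 := pd1)
    rfl k0_pp_112_s

noncomputable def cut_pp_113_s : Cut := Cut.of [[⟨4, 0, 0, 1449551462⟩], [⟨0, 1, 0, 37748736⟩, ⟨1, 1, 0, 37748736⟩, ⟨2, 2, 0, 5242880⟩]]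

noncomputable def f_pp_113_s : ℕ → ℕ → ℕ → ℕ → Bool := onCell 536870912 536870912 0 1230186008 991146299 28908434
    (rowNE 3 eng mog cd0q1 cd5q3 pd1 2 false true true .nn 1 1 3 (qsf 536870912 536870912 0 1230186008 1) ndB0q1 ndB5q3 pcB1 cut_pp_113_s Ext.none)

def k0_pp_113_s : ∃ t, chk3 f_pp_113_s t 1 1 1 = true :=
  ⟨(a (b (l 2) (a (b (l 2) (b (l 2) (l 3))) (b (b (l 2) (a (l 2) (l 3))) (l 3)))) (a (b (l 2) (b (l 3) (l 3))) (b (b (a (l 2) (a (l 2) (b (b (l 14) (l 3)) (l 3)))) (l 3)) (l 3)))), by decide +kernel⟩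

theorem c_pp_113_s : CertNE 536870912 536870912 0 1230186008 991146299 28908434 3 eng mog cd0q1 cd5q3 pd1 false true true .nn 1 1 3
    ndB0q1 ndB5q3 pcB1 cut_pp_113_s Ext.none :=
  certNE2 (fam := false) (s1 := true) (s2 := true) (a := 1) (b := 1) (c := 3) (cn := .nn) (n1 := ndB0q1) (n2 := ndB5q3) (pc := pcB1) (cut := cut_pp_113_s) (xt := Ext.none) (P1 := 536870912) (W1 := 536870912) (P2 := 0) (W2 := 1230186008) (P3 := 991146299) (W3 := 28908434) (N0 := 3) (En := eng) (mo := mog) (C1 := cd0q1) (C2 := cd5q3) (C3 := pd1)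
    rfl (fun _ => rfl) k0_pp_113_s

noncomputable def cut_pp_123_s : Cut := Cut.of [[⟨4, 0, 0, 1449551462⟩], [⟨0, 1, 0, 37748736⟩, ⟨1, 1, 0, 37748736⟩, ⟨2, 2, 0, 5242880⟩]]

noncomputable def f_pp_123_s : ℕ → ℕ → ℕ → ℕ → Bool := onCell 1073741824 536870912 0 1230186008 991146299 28908434
    (rowNE 3 eng mog cd0q1 cd5q3 pd2 2 false true true .npn 1 2 3 (qsf 536870912 536870912 0 1230186008 2) ndB0q1 ndB5q3 pcB2 cut_pp_123_s Ext.none)

def k0_pp_123_s : ∃ t, chk3 f_pp_123_s t 16 8 1 = true :=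
  ⟨(b (l 14) (b (l 14) (l 3))), by decide +kernel⟩

def k1_pp_123_s : ∃ t, chk3 f_pp_123_s t 17 16 1 = true :=
  ⟨(a (b (a (b (l 16701400) (l 16702696)) (c (l 16664872) (l 16694048))) (a (b (l 16682808) (a (b (l 16768120) (l 16754816)) (l 16761504))) (c (l 16721696) (l 16737664)))) (c (b (l 16608824) (l 16672128)) (b (l 16640800) (l 16693528)))), by decide +kernel⟩

def k2_pp_123_s : ∃ t, chk3 f_pp_123_s t 34 34 1 = true :=
  ⟨(a (b (b (a (l 16755120) (l 16774888)) (a (a (a (l 14) (l 16752640)) (l 16774312)) (l 16775384))) (a (b (a (a (a (l 14) (b (l 16774408) (l 16765272))) (b (l 16752728) (l 16764376))) (b (l 16756736) (a (l 16752568) (l 16751528)))) (a (b (a (a (b (l 14) (l 3)) (b (l 287930573575) (l 357723793511))) (b (l 16765464) (c (l 16771024) (l 282561866855)))) (a (l 3) (b (c (l 368998087911) (l 375440527959)) (l 3)))) (a (b (l 16767232) (c (l 237464707511) (b (l 16776944) (l 346449504007)))) (c (l 16762376) (l 16765848))))) (b (a (l 16751088) (l 16773128)) (b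 (a (a (l 16751480) (l 16750368)) (l 16771008)) (a (b (l 16751896) (l 16763272)) (l 16752736)))))) (a (b (b (l 16766872) (l 16774528)) (b (l 16774608) (l 16772000))) (b (l 16760688) (l 16753032)))), by decide +kernel⟩

def k3_pp_123_s : ∃ t, chk3 f_pp_123_s t 34 35 1 = true :=
  ⟨(a (b (a (b (a (l 3) (b (a (b (l 411947748871) (l 3)) (c (l 337322695927) (b (l 279877512167) (l 379198634759)))) (l 3))) (l 3)) (b (a (b (a (c (l 16774896) (l 16776680)) (l 16753408)) (a (b (c (l 334101473095) (l 346449504023)) (l 418390210183)) (c (l 16772968) (l 286319961655)))) (c (b (l 16769416) (l 16772320)) (b (l 16775088) (l 16775864)))) (a (a (l 3) (a (l 454897428391) (c (l 423758917591) (l 423222046471)))) (b (a (c (l 236390965719) (b (l 16776776) (l 345912633447))) (c (l 16774128) (l 16776344))) (a (l 446307496167) (b (c (l 16776312) (l 16771800)) (l 351818210775))))))) (l 3)) (a (a (b (b (b (l 16749256) (c (l 16768120) (l 16774736))) (c (b (l 16770808) (l 16763264)) (b (l 16775320)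 (l 16770952)))) (b (c (b (a (l 365239991319) (l 16775568)) (l 421074562727)) (b (a (l 372756173079) (l 294909896071)) (l 420537691607))) (l 3))) (b (b (l 16748912) (b (l 16749504) (l 16750984))) (a (b (b (l 16753688) (c (l 244444029351) (l 330880246839))) (l 451676202807)) (b (b (l 16773152) (l 16764632)) (b (c (l 328732761943) (l 341617664407)) (l 3)))))) (b (b (l 16771544) (a (b (l 16769016) (l 16748544)) (l 16769352))) (c (b (a (l 16769160) (l 16765680)) (a (b (l 16773624) (l 318532200631)) (l 16770536))) (b (a (l 16774576) (l 16773584)) (a (b (l 16776040) (a (l 367924345543) (l 16776672))) (l 16774928))))))), by decide +kernel⟩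

def k4_pp_123_s : ∃ t, chk3 f_pp_123_s t 35 17 1 = true :=
  ⟨(b (a (b (l 16740584) (a (l 16769912) (l 16760872))) (l 16724872)) (a (b (a (l 16772344) (l 16773512)) (a (b (a (l 16747080) (l 16769016)) (a (b (l 16747880) (l 16770520)) (l 16746736))) (b (l 16770608) (l 16767848)))) (b (a (l 16770048) (l 16761360)) (a (l 16771512) (l 16773088))))), by decide +kernel⟩

def k5_pp_123_s : ∃ t, chk3 f_pp_123_s t 8 9 1 = true :=
  ⟨(b (a (l 3) (a (a (l 3) (b (b (a (l 3) (b (c (a (l 431275107815) (b (l 244444027431) (l 359871261079))) (a (l 426443269447) (b (l 314774117399) (a (l 425906402039) (l 338396439175))))) (a (l 3) (l 455434296599)))) (l 3)) (l 3))) (b (a (b (a (b (a (c (l 16771880) (l 16764840)) (l 16749376)) (a (a (c (l 388325438647) (l 391009771751)) (b (l 317995336535) (l 374903646055))) (b (l 16762952) (c (l 16772056) (l 309405407879))))) (b (a (a (l 16747264) (l 16746096)) (l 16766296)) (a (c (l 16768536) (l 16773960)) (a (l 16768736) (l 16746432))))) (a (a (l 3)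 (b (a (l 441475656695) (c (l 355039423015) (l 363092496375))) (l 3))) (c (b (a (b (l 16773008) (l 296520504439)) (l 16769808)) (a (l 407652789271) (b (l 16774248) (l 329269629047)))) (b (a (b (l 16775632) (l 327659017463)) (l 16774368)) (a (l 408726530823) (a (l 337322693975) (l 16770992))))))) (b (a (b (l 16767736) (a (l 16745064) (l 16765680))) (l 16768720)) (a (b (a (l 16747776) (l 16745280)) (a (a (l 16763224) (l 16751088)) (l 16748608))) (b (l 16744056) (c (l 16740184) (l 16750064)))))) (b (a (a (l 3) (b (a (l 3) (l 445233751207)) (l 3))) (b (c (a (a (l 323364039143) (l 16772216)) (l 16765240)) (a (a (b (l 321753436647) (l 371145570087)) (l 16775224)) (l 16772376))) (a (a (l 3) (b (a (l 342691404231) (l 16765464)) (l 395304759831))) (a (c (l 16762832) (l 299741727831)) (l 16750200))))) (a (l 3) (a (l 3) (c (b (a (l 368998086071) (l 245517764679)) (l 427517010151)) (b (a (l 373293031655) (l 312626627095)) (a (l 3) (l 393157274967)))))))))) (l 3)), by decide +kernel⟩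

def k6_pp_123_s : ∃ t, chk3 f_pp_123_s t 8 5 1 = true :=
  ⟨(l 3), by decide +kernel⟩

def k7_pp_123_s : ∃ t, chk3 f_pp_123_s t 9 8 1 = true :=
  ⟨(a (b (a (c (l 16478456) (l 16527584)) (b (l 16465704) (l 16530352))) (a (b (a (l 16692360) (l 16657416)) (a (b (l 16739624) (l 16743864)) (l 16723576))) (b (l 16601624) (l 16671936)))) (b (a (b (l 16406896) (l 16447752)) (l 16374784)) (a (l 16454880) (l 16480312)))), by decide +kernel⟩

def k8_pp_123_s : ∃ t, chk3 f_pp_123_s t 9 9 1 = true :=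
  ⟨(a (b (a (b (a (b (l 16771928) (a (l 16766056) (l 16768632))) (b (l 16765448) (l 16772208))) (a (b (a (b (a (l 16743736) (l 16763432)) (a (l 16767904) (l 16744144))) (b (l 16765184) (l 16742368))) (a (a (b (l 16750952) (c (l 282024987271) (l 317995337207))) (b (l 16768680) (l 16759536))) (b (b (l 16743000) (l 16744304)) (l 16746896)))) (a (b (l 16766544) (b (l 16763064) (l 16721432))) (l 16766832)))) (b (a (b (l 16740416) (l 16766168)) (l 16723440)) (a (l 16749528) (b (l 16766480) (l 16770136))))) (a (a (b (b (a (b (a (l 427517012247) (b (l 308868526311) (l 332490852743))) (l 441475650935)) (c (b (l 16769496) (a (l 315310982775) (l 16772624))) (b (l 16753056) (a (l 327122144231) (l 16775320))))) (a (l 3) (a (l 3) (c (l 368998062775) (l 368461201415))))) (l 3)) (a (b (b (b (c (l 16760984) (l 16770680)) (b (l 16747352) (l 16749208))) (a (b (c (l 16773416) (l 16775664)) (l 331953978039)) (c (l 278803741559) (l 284709336151)))) (b (c (l 421611427351) (l 418927071735))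 (l 3))) (c (b (b (l 16736864) (l 16765120)) (b (b (l 283098710919) (l 316921588887)) (l 428053876615))) (b (b (l 16748520) (l 16772184)) (b (b (l 286319948519) (l 346986358727)) (l 418927070055)))))) (a (a (b (b (l 16762672) (a (l 16722592) (l 16741568))) (c (b (l 16766560) (a (l 323900909639) (l 263234498247))) (b (l 16772728) (a (l 326048392551) (l 292762397095))))) (b (b (l 16765400) (l 16740624)) (b (b (l 16741784) (l 16765424)) (c (l 16767712) (l 16773160))))) (b (l 16767064) (b (a (l 16740208) (l 16762256)) (a (c (l 16759920) (l 16769920)) (l 16740144))))))) (b (a (b (l 16669392) (a (l 16731712) (l 16721400))) (l 16628224)) (a (b (a (l 16770512) (l 16767216)) (a (b (l 16765928) (l 16761744)) (l 16768760))) (b (a (l 16749928) (l 16714552)) (a (l 16765152) (l 16764480)))))), by decide +kernel⟩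

def k9_pp_123_s : ∃ t, chk3 f_pp_123_s t 9 5 1 = true :=
  ⟨(a (b (a (l 3) (b (a (b (a (b (l 423758907655) (l 3)) (b (a (b (l 303499818759) (l 365239972359)) (b (l 16773816) (l 303499819527))) (l 421611423271))) (l 3)) (b (a (b (c (l 16768592) (l 16773464)) (c (l 300815451895) (l 300815459703))) (b (l 16744304) (c (l 16769216) (l 16773664)))) (a (l 3) (b (a (l 304036686167) (l 279877488007)) (l 3))))) (l 3))) (l 3)) (b (a (b (a (b (a (b (l 16740232) (l 16744792)) (b (l 16759704) (l 16740336))) (a (b (c (l 16769600) (l 16773744)) (a (l 297057364711) (l 273435038375))) (c (b (l 16762096) (l 16769752)) (l 16750928)))) (b (a (l 16739304) (l 16762688)) (a (b (l 16740384) (l 16766184)) (b (l 16758656) (l 16761304))))) (a (b (a (l 3) (b (a (l 289004302183) (l 265918845911)) (l 403894684839))) (l 3)) (b (a (b (l 16750616) (a (l 280414368487) (l 16754512))) (b (l 16766128) (l 16750336))) (a (l 399599691815) (b (l 260550132119) (l 346449482071)))))) (b (a (b (l 16766152) (a (l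 16738072) (l 16760872))) (l 16725232)) (a (b (a (b (l 16761160) (l 16765912)) (b (l 16758048) (l 16760904))) (a (b (l 16770872) (l 250886454359)) (b (l 16765528) (l 16770272)))) (b (a (l 16758208) (l 16759696)) (a (l 16720936) (l 16759296)))))) (a (l 3) (b (a (b (a (b (l 338933290167) (l 3)) (b (l 16753960) (l 329806486087))) (l 3)) (b (a (b (l 16769520) (l 16773960)) (l 16766424)) (a (b (l 320142811015) (l 3)) (b (l 16772832) (l 16776976))))) (a (l 3) (b (a (l 3) (l 328732722679)) (l 3))))))), by decide +kernel⟩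

def k10_pp_123_s : ∃ t, chk3 f_pp_123_s t 5 2 1 = true :=
  ⟨(b (a (b (a (a (b (l 16325624) (l 16399376)) (b (l 16279976) (a (l 16344408) (a (l 16318800) (l 16304592))))) (b (l 6) (l 16254384))) (a (a (b (l 16526328) (b (l 16652560) (l 16634640))) (a (b (l 16484416) (l 16619184)) (a (l 16368552) (a (l 16409336) (l 16372864))))) (b (l 16358704) (l 16485056)))) (b (l 6) (a (b (l 16251792) (l 16390600)) (b (l 6) (l 16296128))))) (a (a (a (b (b (a (b (l 16761152) (l 16765568)) (b (l 16754776) (l 16757760))) (a (b (l 16762912) (a (l 16757584) (l 16759192))) (l 16764464))) (b (a (b (a (l 16761640) (l 16758296)) (a (l 16769536) (l 16764328))) (b (l 16758144) (a (l 16760000) (l 16757464)))) (a (a (b (l 215989840263) (l 3)) (b (l 16751000) (l 308331636551))) (b (a (l 16766704) (l 16761712)) (a (l 16752760) (l 16768400)))))) (b (b (a (b (l 16713936) (l 16758952)) (a (l 16701752) (l 16664144))) (a (l 16760560) (a (l 16759880) (b (a (l 16751472) (l 16731224)) (a (l 16753264) (l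 16756392)))))) (a (b (b (l 16762896) (l 16738232)) (a (b (l 16758408) (l 16763184)) (b (l 16758344) (l 16759520)))) (b (a (l 16764696) (a (l 16760712) (l 16757376))) (a (b (l 16761480) (l 16759464)) (a (l 16763840) (l 16765824))))))) (b (b (l 16520968) (a (l 16613728) (l 16696512))) (b (a (l 16755840) (l 16752416)) (a (l 16759816) (l 16748112))))) (b (a (b (l 16523488) (l 16645592)) (b (l 16440760) (l 16574704))) (b (a (a (l 16739544) (l 16723656)) (l 16647208)) (a (l 16734104) (l 16717472)))))), by decide +kernel⟩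

def k11_pp_123_s : ∃ t, chk3 f_pp_123_s t 3 2 1 = true :=
  ⟨(a (b (l 6) (a (a (b (b (l 6) (l 16501632)) (b (l 16628304) (l 16694560))) (b (l 6) (b (l 16562160) (l 16660416)))) (l 6))) (l 6)), by decide +kernel⟩

def k12_pp_123_s : ∃ t, chk3 f_pp_123_s t 1 6 1 = true :=
  ⟨(a (a (l 3) (a (a (a (b (b (a (l 3) (a (b (l 306184150279) (l 3)) (b (l 16774808) (l 304573535447)))) (l 3)) (l 3)) (b (a (b (a (b (l 16769408) (l 16775160)) (b (l 16764120) (l 16769696))) (a (b (l 301889179655) (l 3)) (b (l 16774760) (l 299741692951)))) (b (a (b (l 16785696) (a (l 16765640) (l 16763104))) (a (b (l 16762272) (l 16762504)) (l 16785160))) (a (b (a (l 16770568) (l 16767816)) (a (l 16774944) (l 16772104))) (b (a (l 16765408) (l 16764080)) (a (l 16769296) (l 16766632)))))) (a (l 3) (b (a (b (b (l 16797384) (l 16797360)) (a (l 3) (l 16775728))) (b (l 16771440) (l 16774288))) (a (l 3) (b (l 16776368) (l 16776816))))))) (b (b (b (l 16750208) (l 16748096)) (b (a (l 16754848) (l 16737384)) (a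 (l 16754872) (l 16735024)))) (b (a (b (l 16757352) (l 16759640)) (l 16757144)) (b (a (l 16761128) (l 16737168)) (a (l 16761688) (l 16736544)))))) (b (a (b (l 16721912) (b (l 16713824) (l 16708624))) (b (l 16699056) (l 16680688))) (a (b (b (l 16705200) (l 16703872)) (b (l 16702248) (l 16699448))) (b (l 16685584) (b (l 16656184) (l 16649904))))))) (a (b (a (b (l 16668456) (a (l 16651520) (l 16621888))) (b (a (l 16631328) (l 6)) (l 16509504))) (a (b (b (l 16593000) (l 16515024)) (b (l 16501304) (l 16509072))) (b (a (l 16544304) (l 1)) (l 1)))) (l 6))), by decide +kernel⟩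

def k13_pp_123_s : ∃ t, chk3 f_pp_123_s t 1 7 1 = true :=
  ⟨(a (b (a (l 3) (a (a (a (l 3) (a (l 3) (b (a (l 3) (b (l 16776544) (l 16776824))) (a (b (c (l 16771008) (l 16771224)) (b (l 243907201335) (l 1))) (b (l 16774440) (l 16770360)))))) (b (b (a (l 16761168) (l 16734728)) (a (l 16759368) (l 16731480))) (b (a (l 16756040) (l 16726560)) (a (b (l 16752536) (l 1)) (l 1))))) (b (a (b (l 16674272) (l 16680880)) (b (l 16641968) (l 1))) (l 1)))) (a (l 3) (a (a (a (b (l 3) (l 1)) (l 1)) (l 1)) (l 1)))) (l 1)), by decide +kernel⟩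

theorem s14_pp_123_s : ∃ t, chk3 f_pp_123_s t 1 3 1 = true := ex3_b k12_pp_123_s k13_pp_123_s

theorem s15_pp_123_s : ∃ t, chk3 f_pp_123_s t 9 4 1 = true := ex3_b k7_pp_123_s k8_pp_123_s

theorem s16_pp_123_s : ∃ t, chk3 f_pp_123_s t 9 2 1 = true := ex3_b s15_pp_123_s k9_pp_123_s

theorem s17_pp_123_s : ∃ t, chk3 f_pp_123_s t 34 17 1 = true := ex3_b k2_pp_123_s k3_pp_123_s

theorem s18_pp_123_s : ∃ t, chk3 f_pp_123_s t 17 17 1 = true := ex3_a s17_pp_123_s k4_pp_123_s

theorem s19_pp_123_s : ∃ t, chk3 f_pp_123_s t 17 8 1 = true := ex3_b k1_pp_123_s s18_pp_123_s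

theorem s20_pp_123_s : ∃ t, chk3 f_pp_123_s t 8 8 1 = true := ex3_a k0_pp_123_s s19_pp_123_s

theorem s21_pp_123_s : ∃ t, chk3 f_pp_123_s t 8 4 1 = true := ex3_b s20_pp_123_s k5_pp_123_s

theorem s22_pp_123_s : ∃ t, chk3 f_pp_123_s t 8 2 1 = true := ex3_b s21_pp_123_s k6_pp_123_s

theorem s23_pp_123_s : ∃ t, chk3 f_pp_123_s t 4 2 1 = true := ex3_a s22_pp_123_s s16_pp_123_s

theorem s24_pp_123_s : ∃ t, chk3 f_pp_123_s t 2 2 1 = true := ex3_a s23_pp_123_s k10_pp_123_s

theorem s25_pp_123_s : ∃ t, chk3 f_pp_123_s t 1 2 1 = true := ex3_a s24_pp_123_s k11_pp_123_s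

theorem s26_pp_123_s : ∃ t, chk3 f_pp_123_s t 1 1 1 = true := ex3_b s25_pp_123_s s14_pp_123_s

theorem c_pp_123_s : CertNE 536870912 536870912 0 1230186008 991146299 28908434 3 eng mog cd0q1 cd5q3 pd2 false true true .npn 1 2 3
    ndB0q1 ndB5q3 pcB2 cut_pp_123_s Ext.none :=
  certNE2 (fam := false) (s1 := true) (s2 := true) (a := 1) (b := 2) (c := 3) (cn := .npn) (n1 := ndB0q1) (n2 := ndB5q3) (pc := pcB2) (cut := cut_pp_123_s) (xt := Ext.none) (P1 := 536870912) (W1 := 536870912) (P2 := 0) (W2 := 1230186008) (P3 := 991146299) (W3 := 28908434) (N0 := 3) (En := eng) (mo := mog) (C1 := cd0q1) (C2 := cd5q3) (C3 := pd2)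
    rfl (fun _ => rfl) s26_pp_123_s

noncomputable def cut_pp_133_s : Cut := Cut.of [[⟨4, 0, 0, 1449551462⟩]]

noncomputable def f_pp_133_s : ℕ → ℕ → ℕ → ℕ → Bool := onCell 1610612736 536870912 0 1230186008 991146299 28908434
    (rowNE 3 eng mog cd0q1 cd5q3 pd3 2 false true true .dn 1 3 3 (qsf 536870912 536870912 0 1230186008 3) ndB0q1 ndB5q3 pcB3 cut_pp_133_s Ext.none)

def k0_pp_133_s : ∃ t, chk3 f_pp_133_s t 1 1 1 = true :=
  ⟨(b (l 6) (l 1)), by decide +kernel⟩

theorem c_pp_133_s : CertNE 536870912 536870912 0 1230186008 991146299 28908434 3 eng mog cd0q1 cd5q3 pd3 false true true .dn 1 3 3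
    ndB0q1 ndB5q3 pcB3 cut_pp_133_s Ext.none :=
  certNE2 (fam := false) (s1 := true) (s2 := true) (a := 1) (b := 3) (c := 3) (cn := .dn) (n1 := ndB0q1) (n2 := ndB5q3) (pc := pcB3) (cut := cut_pp_133_s) (xt := Ext.none) (P1 := 536870912) (W1 := 536870912) (P2 := 0) (W2 := 1230186008) (P3 := 991146299) (W3 := 28908434) (N0 := 3) (En := eng) (mo := mog) (C1 := cd0q1) (C2 := cd5q3) (C3 := pd3)
    rfl (fun _ => rfl) k0_pp_133_s

noncomputable def cut_pp_202_s : Cut := Cut.of [[⟨4, 0, 0, 1449551462⟩]]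

noncomputable def f_pp_202_s : ℕ → ℕ → ℕ → ℕ → Bool := onCell 0 536870912 1073741824 536870912 991146299 28908434
    (rowNE 3 eng mog cd0q2 cd5q2 pd0 0 false true true .pp 2 0 2 (qsf 0 536870912 1073741824 536870912 0) ndB0q2 ndB5q2 pcB0 cut_pp_202_s Ext.none)

def k0_pp_202_s : ∃ t, chk3 f_pp_202_s t 1 1 1 = true :=
  ⟨(l 5), by decide +kernel⟩

theorem c_pp_202_s : CertNE 0 536870912 1073741824 536870912 991146299 28908434 3 eng mog cd0q2 cd5q2 pd0 false true true .pp 2 0 2
    ndB0q2 ndB5q2 pcB0 cut_pp_202_s Ext.none :=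
  certNE0 (fam := false) (s1 := true) (s2 := true) (a := 2) (b := 0) (c := 2) (cn := .pp) (n1 := ndB0q2) (n2 := ndB5q2) (pc := pcB0) (cut := cut_pp_202_s) (xt := Ext.none) (P1 := 0) (W1 := 536870912) (P2 := 1073741824) (W2 := 536870912) (P3 := 991146299) (W3 := 28908434) (N0 := 3) (En := eng) (mo := mog) (C1 := cd0q2) (C2 := cd5q2) (C3 := pd0)
    rfl k0_pp_202_s

noncomputable def cut_pp_203_s : Cut := Cut.of [[⟨4, 0, 0, 1449551462⟩]]

noncomputable def f_pp_203_s : ℕ → ℕ → ℕ → ℕ → Bool := onCell 0 536870912 0 1230186008 991146299 28908434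
    (rowNE 3 eng mog cd0q2 cd5q3 pd0 0 false true true .up 2 0 3 (qsf 0 536870912 0 1230186008 0) ndB0q2 ndB5q3 pcB0 cut_pp_203_s Ext.none)

def k0_pp_203_s : ∃ t, chk3 f_pp_203_s t 1 1 1 = true :=
  ⟨(b (l 2) (b (l 2) (a (l 5) (l 3)))), by decide +kernel⟩

theorem c_pp_203_s : CertNE 0 536870912 0 1230186008 991146299 28908434 3 eng mog cd0q2 cd5q3 pd0 false true true .up 2 0 3
    ndB0q2 ndB5q3 pcB0 cut_pp_203_s Ext.none :=
  certNE0 (fam := false) (s1 := true) (s2 := true) (a := 2) (b := 0) (c := 3) (cn := .up) (n1 := ndB0q2) (n2 := ndB5q3) (pc := pcB0) (cut := cut_pp_203_s) (xt := Ext.none) (P1 := 0) (W1 := 536870912) (P2 := 0) (W2 := 1230186008) (P3 := 991146299) (W3 := 28908434) (N0 := 3) (En := eng) (mo := mog) (C1 := cd0q2) (C2 := cd5q3) (C3 := pd0)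
    rfl k0_pp_203_s

noncomputable def cut_pp_213_s : Cut := Cut.of [[⟨4, 0, 0, 1449551462⟩], [⟨0, 1, 0, 37748736⟩, ⟨1, 1, 0, 37748736⟩, ⟨2, 2, 0, 5242880⟩]]

noncomputable def f_pp_213_s : ℕ → ℕ → ℕ → ℕ → Bool := onCell 0 536870912 0 1230186008 991146299 28908434
    (rowNE 3 eng mog cd0q2 cd5q3 pd1 0 false true true .pnn 2 1 3 (qsf 0 536870912 0 1230186008 1) ndB0q2 ndB5q3 pcB1 cut_pp_213_s Ext.none)

def k0_pp_213_s : ∃ t, chk3 f_pp_213_s t 1 1 1 = true :=
  ⟨(a (b (l 3) (l 5)) (b (b (a (l 3) (a (l 3) (b (a (l 3) (b (l 14) (l 3))) (l 3)))) (l 3)) (b (l 3) (l 3)))), by decide +kernel⟩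

theorem c_pp_213_s : CertNE 0 536870912 0 1230186008 991146299 28908434 3 eng mog cd0q2 cd5q3 pd1 false true true .pnn 2 1 3
    ndB0q2 ndB5q3 pcB1 cut_pp_213_s Ext.none :=
  certNE0 (fam := false) (s1 := true) (s2 := true) (a := 2) (b := 1) (c := 3) (cn := .pnn) (n1 := ndB0q2) (n2 := ndB5q3) (pc := pcB1) (cut := cut_pp_213_s) (xt := Ext.none) (P1 := 0) (W1 := 536870912) (P2 := 0) (W2 := 1230186008) (P3 := 991146299) (W3 := 28908434) (N0 := 3) (En := eng) (mo := mog) (C1 := cd0q2) (C2 := cd5q3) (C3 := pd1)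
    rfl k0_pp_213_s

noncomputable def cut_pm_001_s : Cut := Cut.of [[⟨4, 0, 0, 1449551462⟩]]

noncomputable def f_pm_001_s : ℕ → ℕ → ℕ → ℕ → Bool := onCell 0 536870912 536870912 536870912 991146299 28908434
    (rowNE 3 eng mog cd0q0 cd5q1 pd0 0 false true false .up 0 0 1 (qsf 0 536870912 536870912 536870912 0) ndB0q0 ndB5q1 pcB0 cut_pm_001_s Ext.none)

def k0_pm_001_s : ∃ t, chk3 f_pm_001_s t 1 1 1 = true :=
  ⟨(l 4), by decide +kernel⟩

theorem c_pm_001_s : CertNE 0 536870912 536870912 536870912 991146299 28908434 3 eng mog cd0q0 cd5q1 pd0 false true false .up 0 0 1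
    ndB0q0 ndB5q1 pcB0 cut_pm_001_s Ext.none :=
  certNE0 (fam := false) (s1 := true) (s2 := false) (a := 0) (b := 0) (c := 1) (cn := .up) (n1 := ndB0q0) (n2 := ndB5q1) (pc := pcB0) (cut := cut_pm_001_s) (xt := Ext.none) (P1 := 0) (W1 := 536870912) (P2 := 536870912) (W2 := 536870912) (P3 := 991146299) (W3 := 28908434) (N0 := 3) (En := eng) (mo := mog) (C1 := cd0q0) (C2 := cd5q1) (C3 := pd0)
    rfl k0_pm_001_s

noncomputable def cut_pm_011_s : Cut := Cut.of [[⟨4, 0, 0, 1449551462⟩]]

noncomputable def f_pm_011_s : ℕ → ℕ → ℕ → ℕ → Bool := onCell 0 536870912 536870912 536870912 991146299 28908434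
    (rowNE 3 eng mog cd0q0 cd5q1 pd1 0 false true false .pnn 0 1 1 (qsf 0 536870912 536870912 536870912 1) ndB0q0 ndB5q1 pcB1 cut_pm_011_s Ext.none)

def k0_pm_011_s : ∃ t, chk3 f_pm_011_s t 1 1 1 = true :=
  ⟨(l 4), by decide +kernel⟩

theorem c_pm_011_s : CertNE 0 536870912 536870912 536870912 991146299 28908434 3 eng mog cd0q0 cd5q1 pd1 false true false .pnn 0 1 1
    ndB0q0 ndB5q1 pcB1 cut_pm_011_s Ext.none :=
  certNE0 (fam := false) (s1 := true) (s2 := false) (a := 0) (b := 1) (c := 1) (cn := .pnn) (n1 := ndB0q0) (n2 := ndB5q1) (pc := pcB1) (cut := cut_pm_011_s) (xt := Ext.none) (P1 := 0) (W1 := 536870912) (P2 := 536870912) (W2 := 536870912) (P3 := 991146299) (W3 := 28908434) (N0 := 3) (En := eng) (mo := mog) (C1 := cd0q0) (C2 := cd5q1) (C3 := pd1)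
    rfl k0_pm_011_s

noncomputable def cut_pm_012_s : Cut := Cut.of [[⟨4, 0, 0, 1449551462⟩]]

noncomputable def f_pm_012_s : ℕ → ℕ → ℕ → ℕ → Bool := onCell 0 536870912 1073741824 536870912 991146299 28908434
    (rowNE 3 eng mog cd0q0 cd5q2 pd1 0 false true false .pnp 0 1 2 (qsf 0 536870912 1073741824 536870912 1) ndB0q0 ndB5q2 pcB1 cut_pm_012_s Ext.none)

def k0_pm_012_s : ∃ t, chk3 f_pm_012_s t 1 1 1 = true :=
  ⟨(l 4), by decide +kernel⟩

theorem c_pm_012_s : CertNE 0 536870912 1073741824 536870912 991146299 28908434 3 eng mog cd0q0 cd5q2 pd1 false true false .pnp 0 1 2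
    ndB0q0 ndB5q2 pcB1 cut_pm_012_s Ext.none :=
  certNE0 (fam := false) (s1 := true) (s2 := false) (a := 0) (b := 1) (c := 2) (cn := .pnp) (n1 := ndB0q0) (n2 := ndB5q2) (pc := pcB1) (cut := cut_pm_012_s) (xt := Ext.none) (P1 := 0) (W1 := 536870912) (P2 := 1073741824) (W2 := 536870912) (P3 := 991146299) (W3 := 28908434) (N0 := 3) (En := eng) (mo := mog) (C1 := cd0q0) (C2 := cd5q2) (C3 := pd1)
    rfl k0_pm_012_s

noncomputable def cut_pm_022_s : Cut := Cut.of [[⟨4, 0, 0, 1449551462⟩]]

noncomputable def f_pm_022_s : ℕ → ℕ → ℕ → ℕ → Bool := onCell 0 536870912 1073741824 536870912 991146299 28908434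
    (rowNE 3 eng mog cd0q0 cd5q2 pd2 0 false true false .pp 0 2 2 (qsf 0 536870912 1073741824 536870912 2) ndB0q0 ndB5q2 pcB2 cut_pm_022_s Ext.none)

def k0_pm_022_s : ∃ t, chk3 f_pm_022_s t 1 1 1 = true :=
  ⟨(l 4), by decide +kernel⟩

theorem c_pm_022_s : CertNE 0 536870912 1073741824 536870912 991146299 28908434 3 eng mog cd0q0 cd5q2 pd2 false true false .pp 0 2 2
    ndB0q0 ndB5q2 pcB2 cut_pm_022_s Ext.none :=
  certNE0 (fam := false) (s1 := true) (s2 := false) (a := 0) (b := 2) (c := 2) (cn := .pp) (n1 := ndB0q0) (n2 := ndB5q2) (pc := pcB2) (cut := cut_pm_022_s) (xt := Ext.none) (P1 := 0) (W1 := 536870912) (P2 := 1073741824) (W2 := 536870912) (P3 := 991146299) (W3 := 28908434) (N0 := 3) (En := eng) (mo := mog) (C1 := cd0q0) (C2 := cd5q2) (C3 := pd2)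
    rfl k0_pm_022_s

noncomputable def cut_pm_023_s : Cut := Cut.of [[⟨4, 0, 0, 1449551462⟩]]

noncomputable def f_pm_023_s : ℕ → ℕ → ℕ → ℕ → Bool := onCell 0 536870912 0 1230186008 991146299 28908434
    (rowNE 3 eng mog cd0q0 cd5q3 pd2 0 false true false .up 0 2 3 (qsf 0 536870912 0 1230186008 2) ndB0q0 ndB5q3 pcB2 cut_pm_023_s Ext.none)

def k0_pm_023_s : ∃ t, chk3 f_pm_023_s t 1 1 1 = true :=
  ⟨(l 6), by decide +kernel⟩

theorem c_pm_023_s : CertNE 0 536870912 0 1230186008 991146299 28908434 3 eng mog cd0q0 cd5q3 pd2 false true false .up 0 2 3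
    ndB0q0 ndB5q3 pcB2 cut_pm_023_s Ext.none :=
  certNE0 (fam := false) (s1 := true) (s2 := false) (a := 0) (b := 2) (c := 3) (cn := .up) (n1 := ndB0q0) (n2 := ndB5q3) (pc := pcB2) (cut := cut_pm_023_s) (xt := Ext.none) (P1 := 0) (W1 := 536870912) (P2 := 0) (W2 := 1230186008) (P3 := 991146299) (W3 := 28908434) (N0 := 3) (En := eng) (mo := mog) (C1 := cd0q0) (C2 := cd5q3) (C3 := pd2)
    rfl k0_pm_023_s

noncomputable def cut_pm_033_s : Cut := Cut.of [[⟨4, 0, 0, 1449551462⟩]]

noncomputable def f_pm_033_s : ℕ → ℕ → ℕ → ℕ → Bool := onCell 0 536870912 0 1230186008 991146299 28908434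
    (rowNE 3 eng mog cd0q0 cd5q3 pd3 0 false true false .pnn 0 3 3 (qsf 0 536870912 0 1230186008 3) ndB0q0 ndB5q3 pcB3 cut_pm_033_s Ext.none)

def k0_pm_033_s : ∃ t, chk3 f_pm_033_s t 1 1 1 = true :=
  ⟨(l 6), by decide +kernel⟩

theorem c_pm_033_s : CertNE 0 536870912 0 1230186008 991146299 28908434 3 eng mog cd0q0 cd5q3 pd3 false true false .pnn 0 3 3
    ndB0q0 ndB5q3 pcB3 cut_pm_033_s Ext.none :=
  certNE0 (fam := false) (s1 := true) (s2 := false) (a := 0) (b := 3) (c := 3) (cn := .pnn) (n1 := ndB0q0) (n2 := ndB5q3) (pc := pcB3) (cut := cut_pm_033_s) (xt := Ext.none) (P1 := 0) (W1 := 536870912) (P2 := 0) (W2 := 1230186008) (P3 := 991146299) (W3 := 28908434) (N0 := 3) (En := eng) (mo := mog) (C1 := cd0q0) (C2 := cd5q3) (C3 := pd3)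
    rfl k0_pm_033_s

noncomputable def cut_pm_101_s : Cut := Cut.of [[⟨4, 0, 0, 1449551462⟩]]

noncomputable def f_pm_101_s : ℕ → ℕ → ℕ → ℕ → Bool := onCell 536870912 536870912 536870912 536870912 991146299 28908434
    (rowNE 3 eng mog cd0q1 cd5q1 pd0 0 false true false .npn 1 0 1 (qsf 536870912 536870912 536870912 536870912 0) ndB0q1 ndB5q1 pcB0 cut_pm_101_s Ext.none)

def k0_pm_101_s : ∃ t, chk3 f_pm_101_s t 1 1 1 = true :=
  ⟨(l 4), by decide +kernel⟩

theorem c_pm_101_s : CertNE 536870912 536870912 536870912 536870912 991146299 28908434 3 eng mog cd0q1 cd5q1 pd0 false true false .npn 1 0 1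
    ndB0q1 ndB5q1 pcB0 cut_pm_101_s Ext.none :=
  certNE0 (fam := false) (s1 := true) (s2 := false) (a := 1) (b := 0) (c := 1) (cn := .npn) (n1 := ndB0q1) (n2 := ndB5q1) (pc := pcB0) (cut := cut_pm_101_s) (xt := Ext.none) (P1 := 536870912) (W1 := 536870912) (P2 := 536870912) (W2 := 536870912) (P3 := 991146299) (W3 := 28908434) (N0 := 3) (En := eng) (mo := mog) (C1 := cd0q1) (C2 := cd5q1) (C3 := pd0)
    rfl k0_pm_101_s

noncomputable def cut_pm_102_s : Cut := Cut.of [[⟨4, 0, 0, 1449551462⟩]]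

noncomputable def f_pm_102_s : ℕ → ℕ → ℕ → ℕ → Bool := onCell 536870912 536870912 1073741824 536870912 991146299 28908434
    (rowNE 3 eng mog cd0q1 cd5q2 pd0 0 false true false .npp 1 0 2 (qsf 536870912 536870912 1073741824 536870912 0) ndB0q1 ndB5q2 pcB0 cut_pm_102_s Ext.none)

def k0_pm_102_s : ∃ t, chk3 f_pm_102_s t 1 1 1 = true :=
  ⟨(l 6), by decide +kernel⟩

theorem c_pm_102_s : CertNE 536870912 536870912 1073741824 536870912 991146299 28908434 3 eng mog cd0q1 cd5q2 pd0 false true false .npp 1 0 2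
    ndB0q1 ndB5q2 pcB0 cut_pm_102_s Ext.none :=
  certNE0 (fam := false) (s1 := true) (s2 := false) (a := 1) (b := 0) (c := 2) (cn := .npp) (n1 := ndB0q1) (n2 := ndB5q2) (pc := pcB0) (cut := cut_pm_102_s) (xt := Ext.none) (P1 := 536870912) (W1 := 536870912) (P2 := 1073741824) (W2 := 536870912) (P3 := 991146299) (W3 := 28908434) (N0 := 3) (En := eng) (mo := mog) (C1 := cd0q1) (C2 := cd5q2) (C3 := pd0)
    rfl k0_pm_102_s

noncomputable def cut_pm_112_s : Cut := Cut.of [[⟨4, 0, 0, 1449551462⟩]]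

noncomputable def f_pm_112_s : ℕ → ℕ → ℕ → ℕ → Bool := onCell 536870912 536870912 1073741824 536870912 991146299 28908434
    (rowNE 3 eng mog cd0q1 cd5q2 pd1 0 false true false .dn 1 1 2 (qsf 536870912 536870912 1073741824 536870912 1) ndB0q1 ndB5q2 pcB1 cut_pm_112_s Ext.none)

def k0_pm_112_s : ∃ t, chk3 f_pm_112_s t 1 1 1 = true :=
  ⟨(l 6), by decide +kernel⟩

theorem c_pm_112_s : CertNE 536870912 536870912 1073741824 536870912 991146299 28908434 3 eng mog cd0q1 cd5q2 pd1 false true false .dn 1 1 2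
    ndB0q1 ndB5q2 pcB1 cut_pm_112_s Ext.none :=
  certNE0 (fam := false) (s1 := true) (s2 := false) (a := 1) (b := 1) (c := 2) (cn := .dn) (n1 := ndB0q1) (n2 := ndB5q2) (pc := pcB1) (cut := cut_pm_112_s) (xt := Ext.none) (P1 := 536870912) (W1 := 536870912) (P2 := 1073741824) (W2 := 536870912) (P3 := 991146299) (W3 := 28908434) (N0 := 3) (En := eng) (mo := mog) (C1 := cd0q1) (C2 := cd5q2) (C3 := pd1)
    rfl k0_pm_112_s

noncomputable def cut_pm_113_s : Cut := Cut.of [[⟨4, 0, 0, 1449551462⟩], [⟨0, 1, 0, 37748736⟩, ⟨1, 1, 0, 37748736⟩, ⟨2, 2, 0, 5242880⟩]]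

noncomputable def f_pm_113_s : ℕ → ℕ → ℕ → ℕ → Bool := onCell 536870912 536870912 0 1230186008 991146299 28908434
    (rowNE 3 eng mog cd0q1 cd5q3 pd1 0 false true false .nn 1 1 3 (qsf 536870912 536870912 0 1230186008 1) ndB0q1 ndB5q3 pcB1 cut_pm_113_s Ext.none)

def k0_pm_113_s : ∃ t, chk3 f_pm_113_s t 1 1 1 = true :=
  ⟨(a (b (l 2) (l 6)) (b (a (l 2) (b (a (l 2) (a (l 2) (b (b (l 14) (a (l 2) (b (l 14) (l 16598160)))) (b (a (l 2) (l 16558040)) (a (l 16440728) (b (l 16529968) (l 16539448))))))) (a (l 6) (b (a (l 6) (b (a (l 6) (l 16607472)) (l 6))) (l 6))))) (l 6))), by decide +kernel⟩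

theorem c_pm_113_s : CertNE 536870912 536870912 0 1230186008 991146299 28908434 3 eng mog cd0q1 cd5q3 pd1 false true false .nn 1 1 3
    ndB0q1 ndB5q3 pcB1 cut_pm_113_s Ext.none :=
  certNE0 (fam := false) (s1 := true) (s2 := false) (a := 1) (b := 1) (c := 3) (cn := .nn) (n1 := ndB0q1) (n2 := ndB5q3) (pc := pcB1) (cut := cut_pm_113_s) (xt := Ext.none) (P1 := 536870912) (W1 := 536870912) (P2 := 0) (W2 := 1230186008) (P3 := 991146299) (W3 := 28908434) (N0 := 3) (En := eng) (mo := mog) (C1 := cd0q1) (C2 := cd5q3) (C3 := pd1)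
    rfl k0_pm_113_s

noncomputable def cut_pm_123_s : Cut := Cut.of [[⟨4, 0, 0, 1449551462⟩], [⟨0, 1, 0, 37748736⟩, ⟨1, 1, 0, 37748736⟩, ⟨2, 2, 0, 5242880⟩]]

noncomputable def f_pm_123_s : ℕ → ℕ → ℕ → ℕ → Bool := onCell 1073741824 536870912 0 1230186008 991146299 28908434
    (rowNE 3 eng mog cd0q1 cd5q3 pd2 2 false true false .npn 1 2 3 (qsf 536870912 536870912 0 1230186008 2) ndB0q1 ndB5q3 pcB2 cut_pm_123_s Ext.none)

def k0_pm_123_s : ∃ t, chk3 f_pm_123_s t 1 1 1 = true :=
  ⟨(b (a (b (b (a (a (a (b (l 14) (b (l 14) (a (c (l 16703344) (l 16771640)) (l 16559880)))) (b (a (b (c (l 16582352) (l 16666912)) (c (l 16560664) (l 16575968))) (b (a (l 16583552) (l 16545648)) (l 16555896))) (c (a (l 16601680) (l 16554784)) (a (l 16681096) (l 16628064))))) (a (b (a (b (l 16501704) (l 16512528)) (l 16459784)) (a (l 16537520) (l 16481768))) (b (l 16391520) (l 6)))) (l 6)) (a (a (a (b (a (b (l 16597296) (l 16548744)) (c (l 16696880) (l 16769264))) (a (c (l 16796960) (l 16558704))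 (l 16552416))) (b (a (l 16502416) (l 16626696)) (l 6))) (l 6)) (l 6))) (b (l 6) (l 6))) (l 6)) (l 6)), by decide +kernel⟩

theorem c_pm_123_s : CertNE 536870912 536870912 0 1230186008 991146299 28908434 3 eng mog cd0q1 cd5q3 pd2 false true false .npn 1 2 3
    ndB0q1 ndB5q3 pcB2 cut_pm_123_s Ext.none :=
  certNE2 (fam := false) (s1 := true) (s2 := false) (a := 1) (b := 2) (c := 3) (cn := .npn) (n1 := ndB0q1) (n2 := ndB5q3) (pc := pcB2) (cut := cut_pm_123_s) (xt := Ext.none) (P1 := 536870912) (W1 := 536870912) (P2 := 0) (W2 := 1230186008) (P3 := 991146299) (W3 := 28908434) (N0 := 3) (En := eng) (mo := mog) (C1 := cd0q1) (C2 := cd5q3) (C3 := pd2)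
    rfl (fun _ => rfl) k0_pm_123_s

noncomputable def cut_pm_133_s : Cut := Cut.of [[⟨4, 0, 0, 1449551462⟩]]

noncomputable def f_pm_133_s : ℕ → ℕ → ℕ → ℕ → Bool := onCell 1610612736 536870912 0 1230186008 991146299 28908434
    (rowNE 3 eng mog cd0q1 cd5q3 pd3 2 false true false .dn 1 3 3 (qsf 536870912 536870912 0 1230186008 3) ndB0q1 ndB5q3 pcB3 cut_pm_133_s Ext.none)

def k0_pm_133_s : ∃ t, chk3 f_pm_133_s t 1 1 1 = true :=
  ⟨(l 6), by decide +kernel⟩

theorem c_pm_133_s : CertNE 536870912 536870912 0 1230186008 991146299 28908434 3 eng mog cd0q1 cd5q3 pd3 false true false .dn 1 3 3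
    ndB0q1 ndB5q3 pcB3 cut_pm_133_s Ext.none :=
  certNE2 (fam := false) (s1 := true) (s2 := false) (a := 1) (b := 3) (c := 3) (cn := .dn) (n1 := ndB0q1) (n2 := ndB5q3) (pc := pcB3) (cut := cut_pm_133_s) (xt := Ext.none) (P1 := 536870912) (W1 := 536870912) (P2 := 0) (W2 := 1230186008) (P3 := 991146299) (W3 := 28908434) (N0 := 3) (En := eng) (mo := mog) (C1 := cd0q1) (C2 := cd5q3) (C3 := pd3)
    rfl (fun _ => rfl) k0_pm_133_s

noncomputable def cut_pm_202_s : Cut := Cut.of [[⟨4, 0, 0, 1449551462⟩]]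

noncomputable def f_pm_202_s : ℕ → ℕ → ℕ → ℕ → Bool := onCell 0 536870912 1073741824 536870912 991146299 28908434
    (rowNE 3 eng mog cd0q2 cd5q2 pd0 0 false true false .pp 2 0 2 (qsf 0 536870912 1073741824 536870912 0) ndB0q2 ndB5q2 pcB0 cut_pm_202_s Ext.none)

def k0_pm_202_s : ∃ t, chk3 f_pm_202_s t 1 1 1 = true :=
  ⟨(a (b (l 6) (b (l 6) (l 6))) (l 6)), by decide +kernel⟩

theorem c_pm_202_s : CertNE 0 536870912 1073741824 536870912 991146299 28908434 3 eng mog cd0q2 cd5q2 pd0 false true false .pp 2 0 2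
    ndB0q2 ndB5q2 pcB0 cut_pm_202_s Ext.none :=
  certNE0 (fam := false) (s1 := true) (s2 := false) (a := 2) (b := 0) (c := 2) (cn := .pp) (n1 := ndB0q2) (n2 := ndB5q2) (pc := pcB0) (cut := cut_pm_202_s) (xt := Ext.none) (P1 := 0) (W1 := 536870912) (P2 := 1073741824) (W2 := 536870912) (P3 := 991146299) (W3 := 28908434) (N0 := 3) (En := eng) (mo := mog) (C1 := cd0q2) (C2 := cd5q2) (C3 := pd0)
    rfl k0_pm_202_s

noncomputable def cut_pm_203_s : Cut := Cut.of [[⟨4, 0, 0, 1449551462⟩]]

noncomputable def f_pm_203_s : ℕ → ℕ → ℕ → ℕ → Bool := onCell 0 536870912 0 1230186008 991146299 28908434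
    (rowNE 3 eng mog cd0q2 cd5q3 pd0 0 false true false .up 2 0 3 (qsf 0 536870912 0 1230186008 0) ndB0q2 ndB5q3 pcB0 cut_pm_203_s Ext.none)

def k0_pm_203_s : ∃ t, chk3 f_pm_203_s t 1 1 1 = true :=
  ⟨(b (l 2) (b (l 2) (a (b (b (l 2) (b (a (l 2) (l 2)) (a (a (a (l 16625848) (b (l 16588472) (l 16570256))) (l 448387111223)) (l 6)))) (a (b (b (a (a (b (l 16592432) (l 16574688)) (l 16540656)) (l 16432536)) (a (c (l 16534968) (l 16514704)) (l 6))) (a (b (c (l 16510992) (l 16466192)) (c (l 16482808) (l 16411648))) (l 6))) (l 6))) (l 6)))), by decide +kernel⟩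

theorem c_pm_203_s : CertNE 0 536870912 0 1230186008 991146299 28908434 3 eng mog cd0q2 cd5q3 pd0 false true false .up 2 0 3
    ndB0q2 ndB5q3 pcB0 cut_pm_203_s Ext.none :=
  certNE0 (fam := false) (s1 := true) (s2 := false) (a := 2) (b := 0) (c := 3) (cn := .up) (n1 := ndB0q2) (n2 := ndB5q3) (pc := pcB0) (cut := cut_pm_203_s) (xt := Ext.none) (P1 := 0) (W1 := 536870912) (P2 := 0) (W2 := 1230186008) (P3 := 991146299) (W3 := 28908434) (N0 := 3) (En := eng) (mo := mog) (C1 := cd0q2) (C2 := cd5q3) (C3 := pd0)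
    rfl k0_pm_203_s

noncomputable def cut_pm_213_s : Cut := Cut.of [[⟨4, 0, 0, 1449551462⟩], [⟨0, 1, 0, 37748736⟩, ⟨1, 1, 0, 37748736⟩, ⟨2, 2, 0, 5242880⟩]]

noncomputable def f_pm_213_s : ℕ → ℕ → ℕ → ℕ → Bool := onCell 0 536870912 0 1230186008 991146299 28908434
    (rowNE 3 eng mog cd0q2 cd5q3 pd1 0 false true false .pnn 2 1 3 (qsf 0 536870912 0 1230186008 1) ndB0q2 ndB5q3 pcB1 cut_pm_213_s Ext.none)

def k0_pm_213_s : ∃ t, chk3 f_pm_213_s t 2 2 1 = true :=
  ⟨(b (l 3) (b (l 3) (a (l 3) (b (a (l 3) (a (l 3) (b (a (l 3) (l 330880244695)) (a (b (l 3) (l 294373026935)) (b (l 279877515943) (l 231559109175)))))) (a (a (l 3) (b (l 3) (a (l 3) (l 351281331511)))) (a (b (a (l 3) (b (l 341080791351) (l 270213802359))) (a (b (l 298667993591) (l 254107664407)) (b (l 16739528) (l 16752272)))) (b (a (b (l 250349584951) (l 16759720)) (l 16746624)) (b (l 16736000) (l 16721608))))))))), by decide +kernel⟩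

def k1_pm_213_s : ∃ t, chk3 f_pm_213_s t 6 4 1 = true :=
  ⟨(b (l 3) (a (l 3) (b (l 3) (a (l 3) (b (a (l 3) (b (l 3) (a (l 3) (b (l 362555630039) (l 301352331719))))) (a (b (l 3) (a (l 343228277047) (b (l 302426094647) (l 260013269047)))) (b (a (b (l 324974669559) (l 261087013511)) (b (l 257328908967) (l 16764472))) (a (l 16765336) (l 16753952))))))))), by decide +kernel⟩

def k2_pm_213_s : ∃ t, chk3 f_pm_213_s t 14 4 1 = true :=
  ⟨(b (b (l 3) (a (l 3) (b (l 3) (a (l 3) (b (a (l 3) (b (l 3) (a (l 3) (b (l 3) (a (l 3) (l 353428809991)))))) (a (b (l 3) (a (l 3) (b (l 387788565335) (a (l 366850602855) (l 262160765559))))) (b (a (b (l 3) (a (l 402284081111) (l 314774104775))) (b (a (l 333564587319) (l 16774368)) (l 16761584))) (a (b (a (l 260013283143) (l 16773112)) (l 16770824)) (l 16766184))))))))) (b (a (b (l 3) (a (b (l 3) (a (l 3) (b (l 3) (l 351818191799)))) (b (a (b (l 3) (l 381882980199)) (b (a (l 3) (l 331953978791)) (a (l 313700362887) (l 16771576)))) (a (b (a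 (l 377051146951) (l 237464696823)) (a (l 257328919511) (l 16769184))) (b (l 16767352) (l 16760256)))))) (b (a (b (a (l 3) (b (l 3) (a (l 394231014407) (b (a (l 393694146903) (l 322827181511)) (l 261087017799))))) (a (b (c (l 373829918055) (l 379735497975)) (a (l 350744453463) (b (l 257328924343) (l 16772240)))) (b (a (b (l 315310975687) (l 16773472)) (l 16769056)) (l 16764664)))) (b (a (b (a (b (l 366850591255) (a (l 329269620103) (l 16774456))) (b (l 265918852951) (l 16769584))) (a (l 16770288) (l 16763816))) (b (l 16740712) (l 16754040))) (a (l 16734744) (l 16742872)))) (a (b (a (a (b (l 258402655847) (l 16765488)) (l 16742040)) (l 16753648)) (l 16724576)) (b (l 16734688) (l 16720808))))) (a (b (a (b (a (b (l 3) (l 326585262631)) (b (a (l 326585284871) (l 257865788231)) (l 244444000695))) (a (b (l 258402653559) (l 16767016)) (l 16759048))) (b (a (l 16761600) (l 16750008)) (l 16742272))) (a (b (l 16729688) (l 16736360)) (l 16721496))) (b (a (l 16725688) (l 16701488))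 (l 16668656))))), by decide +kernel⟩

def k3_pm_213_s : ∃ t, chk3 f_pm_213_s t 15 4 1 = true :=
  ⟨(b (a (a (b (l 3) (b (b (l 3) (a (b (l 3) (l 3)) (b (a (l 3) (l 14)) (a (b (a (l 3) (b (l 401210340599) (l 323364039799))) (a (b (l 378661763303) (l 261087026695)) (l 271287567159))) (b (a (l 268603213799) (l 14)) (l 16748192)))))) (b (a (b (a (a (l 3) (l 410874003223)) (b (a (l 410874015543) (b (l 353428810487) (l 264845122551))) (a (b (l 327659007223) (l 16775280)) (l 16772944)))) (a (b (a (l 374903645447) (l 263234506551)) (a (l 266992601607) (l 16771680))) (b (l 16770640) (l 16766704)))) (b (a (c (l 16769800) (l 16770040)) (l 16763288)) (l 16737824))) (a (b (a (l 16767424) (l 16760872)) (l 16756400)) (l 16747440))))) (b (l 14) (b (l 14) (a (b (l 16728752) (l 16734864)) (l 16708552))))) (b (l 14) (b (l 14) (a (l 16688624) (l 16682888))))) (a (b (a (b (a (l 16711544) (l 16725448)) (l 16703608)) (b (l 16707192) (l 16680600))) (a (l 16666680) (l 16645304))) (b (a (b (l 16682008)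 (l 16656288)) (l 16622512)) (a (l 16622064) (l 16599656))))), by decide +kernel⟩

def k4_pm_213_s : ∃ t, chk3 f_pm_213_s t 3 5 1 = true :=
  ⟨(a (b (a (b (a (l 3) (b (l 3) (a (l 3) (b (l 3) (l 319069086807))))) (a (b (l 3) (a (l 3) (b (l 319069089175) (l 269140076023)))) (b (a (b (l 3) (l 301352330503)) (b (a (l 298667997063) (l 260550141847)) (a (l 16770056) (l 16759944)))) (a (b (a (l 279340627655) (l 16767232)) (l 16759288)) (l 16744824))))) (b (a (b (a (l 3) (b (a (l 3) (l 307257929079)) (a (l 292762396519) (l 261087003831)))) (a (b (a (l 328195892407) (l 278803752695)) (a (l 268603206263) (l 16765496))) (b (a (l 204178706327) (l 16757448)) (l 16749128)))) (b (a (b (a (b (l 260013291207) (l 16770272)) (l 16762736)) (l 16775416)) (l 16727648)) (a (l 16732736) (l 16707584)))) (a (b (a (b (l 16757416) (l 16743648)) (l 16727304)) (l 16709152)) (b (l 16688016) (l 16653128))))) (a (b (a (b (a (b (l 309942284839) (l 248202108663)) (b (l 232632854599) (l 16753256))) (a (b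 (l 16760072) (l 16746824)) (l 16732616))) (b (a (l 16738904) (l 16716032)) (l 16697712))) (a (b (l 16714720) (l 16684464)) (b (l 16666032) (l 16633088)))) (b (a (b (l 16677008) (l 16642928)) (l 16595656)) (a (l 16589000) (b (l 16535520) (l 16494360)))))) (b (a (b (a (b (l 16681016) (l 16668704)) (l 16614504)) (a (l 16610408) (l 16563256))) (a (b (a (l 16628032) (l 16611344)) (l 16560016)) (b (b (l 16599640) (l 16622288)) (l 16680464)))) (b (a (a (l 16520656) (l 16445936)) (l 6)) (a (a (l 16440896) (l 6)) (l 6))))), by decide +kernel⟩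

def k5_pm_213_s : ∃ t, chk3 f_pm_213_s t 2 12 1 = true :=
  ⟨(a (b (l 3) (a (l 3) (a (l 3) (b (b (l 3) (l 336785789527)) (a (b (l 362018746903) (l 271287505191)) (b (l 256791975959) (l 16751840))))))) (b (a (a (b (l 3) (a (l 3) (b (l 346449497831) (l 266455678343)))) (b (a (b (l 3) (l 295446768935)) (b (l 271824403175) (l 16763912))) (b (a (l 253033898135) (l 16749552)) (l 16702832)))) (b (a (a (b (l 16758144) (l 16743928)) (l 16730808)) (l 16699016)) (a (b (l 16718648) (l 16703064)) (l 16667592)))) (a (b (a (b (a (l 279340579767) (l 16760504)) (a (l 244443937111) (l 16743016))) (a (l 16730688) (l 16710064))) (a (c (l 16719280) (l 16728312)) (l 16676272))) (b (a (l 16657816) (l 16635160)) (a (l 16634320) (l 16601736)))))), by decide +kernel⟩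

def k6_pm_213_s : ∃ t, chk3 f_pm_213_s t 2 13 1 = true :=
  ⟨(a (b (a (b (l 3) (a (l 3) (a (l 3) (b (l 3) (l 282561780631))))) (b (a (a (b (l 3) (l 347523235063)) (b (l 298667919639) (l 246054528023))) (b (a (l 16747120) (l 16728472)) (l 16704288))) (a (b (a (l 260013185207) (l 16738976)) (a (l 16746016) (l 16688304))) (b (l 16688280) (l 16634696))))) (a (b (c (a (l 371682390935) (b (l 254644433047) (l 133311663575))) (a (l 368461168983) (b (l 255718185015) (l 141901605399)))) (a (a (b (l 3) (l 274508702199)) (b (b (l 271824379591) (l 16721048)) (l 16738160))) (c (l 16736376) (l 16734576)))) (b (a (b (l 16695368) (l 16617608)) (l 16495016)) (a (b (l 16599128) (l 16577008)) (l 16449808))))) (b (b (a (a (b (l 16686224) (l 16636024)) (l 16618456)) (a (l 16571520) (a (l 16555800) (l 16576864)))) (a (a (b (l 16624256) (l 16587896)) (l 16525112)) (a (a (l 16511840) (l 16525320)) (l 16560688)))) (a (b (a (l 16484312) (a (l 16474336) (l 16369656))) (a (b (l 16456440) (l 16322432))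 (b (a (l 16436160) (l 16508112)) (l 16525560)))) (b (a (a (l 16517208) (l 16595024)) (l 16560752)) (l 16491760))))), by decide +kernel⟩

def k7_pm_213_s : ∃ t, chk3 f_pm_213_s t 3 6 1 = true :=
  ⟨(a (b (b (a (b (l 16626776) (a (l 16620424) (l 16568272))) (a (b (l 16536096) (l 16501752)) (l 16427472))) (a (b (a (l 16590472) (l 16541408)) (a (l 16547928) (l 16513008))) (a (l 16439984) (l 6)))) (b (a (b (l 16517352) (l 6)) (l 6)) (l 6))) (b (l 6) (l 6))), by decide +kernel⟩

def k8_pm_213_s : ∃ t, chk3 f_pm_213_s t 1 7 1 = true :=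
  ⟨(a (a (b (b (a (c (b (a (b (l 16720432) (l 16698768)) (l 16512000)) (b (l 16408160) (l 16419088))) (b (a (b (l 16725232) (l 16643768)) (l 16547936)) (b (l 16486264) (l 16479080)))) (b (a (l 16400656) (b (l 16437960) (l 16293736))) (a (b (l 16426648) (l 16317048)) (b (a (l 16364816) (l 16396608)) (a (l 16377992) (l 16487312)))))) (a (b (b (a (l 16536080) (l 16422448)) (a (l 16481728) (l 16350184))) (b (a (l 16425240) (a (l 16340296) (l 16261440))) (l 1))) (b (a (b (a (l 16347040) (l 16342272)) (a (l 16310408) (l 16458544))) (l 16375968)) (a (l 16324776) (l 16585744))))) (l 1)) (b (a (b (b (a (b (a (l 16394272) (l 16445488)) (l 16430288)) (l 16577232)) (a (l 16461312) (l 16562592))) (b (l 16472144) (l 6))) (l 6)) (l 6))) (l 6)), by decide +kernel⟩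

theorem s9_pm_213_s : ∃ t, chk3 f_pm_213_s t 2 6 1 = true := ex3_b k5_pm_213_s k6_pm_213_s

theorem s10_pm_213_s : ∃ t, chk3 f_pm_213_s t 1 6 1 = true := ex3_a s9_pm_213_s k7_pm_213_s

theorem s11_pm_213_s : ∃ t, chk3 f_pm_213_s t 1 3 1 = true := ex3_b s10_pm_213_s k8_pm_213_s

theorem s12_pm_213_s : ∃ t, chk3 f_pm_213_s t 7 4 1 = true := ex3_a k2_pm_213_s k3_pm_213_s

theorem s13_pm_213_s : ∃ t, chk3 f_pm_213_s t 3 4 1 = true := ex3_a k1_pm_213_s s12_pm_213_s

theorem s14_pm_213_s : ∃ t, chk3 f_pm_213_s t 3 2 1 = true := ex3_b s13_pm_213_s k4_pm_213_s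

theorem s15_pm_213_s : ∃ t, chk3 f_pm_213_s t 1 2 1 = true := ex3_a k0_pm_213_s s14_pm_213_s

theorem s16_pm_213_s : ∃ t, chk3 f_pm_213_s t 1 1 1 = true := ex3_b s15_pm_213_s s11_pm_213_s

theorem c_pm_213_s : CertNE 0 536870912 0 1230186008 991146299 28908434 3 eng mog cd0q2 cd5q3 pd1 false true false .pnn 2 1 3
    ndB0q2 ndB5q3 pcB1 cut_pm_213_s Ext.none :=
  certNE0 (fam := false) (s1 := true) (s2 := false) (a := 2) (b := 1) (c := 3) (cn := .pnn) (n1 := ndB0q2) (n2 := ndB5q3) (pc := pcB1) (cut := cut_pm_213_s) (xt := Ext.none) (P1 := 0) (W1 := 536870912) (P2 := 0) (W2 := 1230186008) (P3 := 991146299) (W3 := 28908434) (N0 := 3) (En := eng) (mo := mog) (C1 := cd0q2) (C2 := cd5q3) (C3 := pd1)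
    rfl s16_pm_213_s

noncomputable def cut_mm_001_s : Cut := Cut.of [[⟨4, 0, 0, 1449551462⟩]]

noncomputable def f_mm_001_s : ℕ → ℕ → ℕ → ℕ → Bool := onCell 0 536870912 0 536870912 991146299 28908434
    (rowNE 3 eng mog cd0q0 cd5q1 pd0 1 false false false .up 0 0 1 (qsf 0 536870912 536870912 536870912 0) ndB0q0 ndB5q1 pcB0 cut_mm_001_s Ext.none)

def k0_mm_001_s : ∃ t, chk3 f_mm_001_s t 1 1 1 = true :=
  ⟨(l 3), by decide +kernel⟩

theorem c_mm_001_s : CertNE 0 536870912 536870912 536870912 991146299 28908434 3 eng mog cd0q0 cd5q1 pd0 false false false .up 0 0 1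
    ndB0q0 ndB5q1 pcB0 cut_mm_001_s Ext.none :=
  certNE1 (fam := false) (s1 := false) (s2 := false) (a := 0) (b := 0) (c := 1) (cn := .up) (n1 := ndB0q0) (n2 := ndB5q1) (pc := pcB0) (cut := cut_mm_001_s) (xt := Ext.none) (P1 := 0) (W1 := 536870912) (P2 := 536870912) (W2 := 536870912) (P3 := 991146299) (W3 := 28908434) (N0 := 3) (En := eng) (mo := mog) (C1 := cd0q0) (C2 := cd5q1) (C3 := pd0)
    rfl (fun _ => rfl) k0_mm_001_s

noncomputable def cut_mm_011_s : Cut := Cut.of [[⟨4, 0, 0, 1449551462⟩]]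

noncomputable def f_mm_011_s : ℕ → ℕ → ℕ → ℕ → Bool := onCell 0 536870912 536870912 536870912 991146299 28908434
    (rowNE 3 eng mog cd0q0 cd5q1 pd1 1 false false false .pnn 0 1 1 (qsf 0 536870912 536870912 536870912 1) ndB0q0 ndB5q1 pcB1 cut_mm_011_s Ext.none)

def k0_mm_011_s : ∃ t, chk3 f_mm_011_s t 1 1 1 = true :=
  ⟨(l 5), by decide +kernel⟩

theorem c_mm_011_s : CertNE 0 536870912 536870912 536870912 991146299 28908434 3 eng mog cd0q0 cd5q1 pd1 false false false .pnn 0 1 1
    ndB0q0 ndB5q1 pcB1 cut_mm_011_s Ext.none :=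
  certNE1 (fam := false) (s1 := false) (s2 := false) (a := 0) (b := 1) (c := 1) (cn := .pnn) (n1 := ndB0q0) (n2 := ndB5q1) (pc := pcB1) (cut := cut_mm_011_s) (xt := Ext.none) (P1 := 0) (W1 := 536870912) (P2 := 536870912) (W2 := 536870912) (P3 := 991146299) (W3 := 28908434) (N0 := 3) (En := eng) (mo := mog) (C1 := cd0q0) (C2 := cd5q1) (C3 := pd1)
    rfl (fun _ => rfl) k0_mm_011_s

noncomputable def cut_mm_012_s : Cut := Cut.of [[⟨4, 0, 0, 1449551462⟩]]

noncomputable def f_mm_012_s : ℕ → ℕ → ℕ → ℕ → Bool := onCell 0 536870912 1073741824 536870912 991146299 28908434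
    (rowNE 3 eng mog cd0q0 cd5q2 pd1 0 false false false .pnp 0 1 2 (qsf 0 536870912 1073741824 536870912 1) ndB0q0 ndB5q2 pcB1 cut_mm_012_s Ext.none)

def k0_mm_012_s : ∃ t, chk3 f_mm_012_s t 1 1 1 = true :=
  ⟨(l 5), by decide +kernel⟩

theorem c_mm_012_s : CertNE 0 536870912 1073741824 536870912 991146299 28908434 3 eng mog cd0q0 cd5q2 pd1 false false false .pnp 0 1 2
    ndB0q0 ndB5q2 pcB1 cut_mm_012_s Ext.none :=
  certNE0 (fam := false) (s1 := false) (s2 := false) (a := 0) (b := 1) (c := 2) (cn := .pnp) (n1 := ndB0q0) (n2 := ndB5q2) (pc := pcB1) (cut := cut_mm_012_s) (xt := Ext.none) (P1 := 0) (W1 := 536870912) (P2 := 1073741824) (W2 := 536870912) (P3 := 991146299) (W3 := 28908434) (N0 := 3) (En := eng) (mo := mog) (C1 := cd0q0) (C2 := cd5q2) (C3 := pd1)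
    rfl k0_mm_012_s

noncomputable def cut_mm_022_s : Cut := Cut.of [[⟨4, 0, 0, 1449551462⟩]]

noncomputable def f_mm_022_s : ℕ → ℕ → ℕ → ℕ → Bool := onCell 0 536870912 1073741824 536870912 991146299 28908434
    (rowNE 3 eng mog cd0q0 cd5q2 pd2 0 false false false .pp 0 2 2 (qsf 0 536870912 1073741824 536870912 2) ndB0q0 ndB5q2 pcB2 cut_mm_022_s Ext.none)

def k0_mm_022_s : ∃ t, chk3 f_mm_022_s t 1 1 1 = true :=
  ⟨(l 5), by decide +kernel⟩

theorem c_mm_022_s : CertNE 0 536870912 1073741824 536870912 991146299 28908434 3 eng mog cd0q0 cd5q2 pd2 false false false .pp 0 2 2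
    ndB0q0 ndB5q2 pcB2 cut_mm_022_s Ext.none :=
  certNE0 (fam := false) (s1 := false) (s2 := false) (a := 0) (b := 2) (c := 2) (cn := .pp) (n1 := ndB0q0) (n2 := ndB5q2) (pc := pcB2) (cut := cut_mm_022_s) (xt := Ext.none) (P1 := 0) (W1 := 536870912) (P2 := 1073741824) (W2 := 536870912) (P3 := 991146299) (W3 := 28908434) (N0 := 3) (En := eng) (mo := mog) (C1 := cd0q0) (C2 := cd5q2) (C3 := pd2)
    rfl k0_mm_022_s

noncomputable def cut_mm_023_s : Cut := Cut.of [[⟨4, 0, 0, 1449551462⟩]]

noncomputable def f_mm_023_s : ℕ → ℕ → ℕ → ℕ → Bool := onCell 0 536870912 0 1230186008 991146299 28908434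
    (rowNE 3 eng mog cd0q0 cd5q3 pd2 0 false false false .up 0 2 3 (qsf 0 536870912 0 1230186008 2) ndB0q0 ndB5q3 pcB2 cut_mm_023_s Ext.none)

def k0_mm_023_s : ∃ t, chk3 f_mm_023_s t 1 1 1 = true :=
  ⟨(l 5), by decide +kernel⟩

theorem c_mm_023_s : CertNE 0 536870912 0 1230186008 991146299 28908434 3 eng mog cd0q0 cd5q3 pd2 false false false .up 0 2 3
    ndB0q0 ndB5q3 pcB2 cut_mm_023_s Ext.none :=
  certNE0 (fam := false) (s1 := false) (s2 := false) (a := 0) (b := 2) (c := 3) (cn := .up) (n1 := ndB0q0) (n2 := ndB5q3) (pc := pcB2) (cut := cut_mm_023_s) (xt := Ext.none) (P1 := 0) (W1 := 536870912) (P2 := 0) (W2 := 1230186008) (P3 := 991146299) (W3 := 28908434) (N0 := 3) (En := eng) (mo := mog) (C1 := cd0q0) (C2 := cd5q3) (C3 := pd2)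
    rfl k0_mm_023_s

noncomputable def cut_mm_033_s : Cut := Cut.of [[⟨4, 0, 0, 1449551462⟩]]

noncomputable def f_mm_033_s : ℕ → ℕ → ℕ → ℕ → Bool := onCell 0 536870912 0 1230186008 991146299 28908434
    (rowNE 3 eng mog cd0q0 cd5q3 pd3 0 false false false .pnn 0 3 3 (qsf 0 536870912 0 1230186008 3) ndB0q0 ndB5q3 pcB3 cut_mm_033_s Ext.none)

def k0_mm_033_s : ∃ t, chk3 f_mm_033_s t 1 1 1 = true :=
  ⟨(l 5), by decide +kernel⟩

theorem c_mm_033_s : CertNE 0 536870912 0 1230186008 991146299 28908434 3 eng mog cd0q0 cd5q3 pd3 false false false .pnn 0 3 3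
    ndB0q0 ndB5q3 pcB3 cut_mm_033_s Ext.none :=
  certNE0 (fam := false) (s1 := false) (s2 := false) (a := 0) (b := 3) (c := 3) (cn := .pnn) (n1 := ndB0q0) (n2 := ndB5q3) (pc := pcB3) (cut := cut_mm_033_s) (xt := Ext.none) (P1 := 0) (W1 := 536870912) (P2 := 0) (W2 := 1230186008) (P3 := 991146299) (W3 := 28908434) (N0 := 3) (En := eng) (mo := mog) (C1 := cd0q0) (C2 := cd5q3) (C3 := pd3)
    rfl k0_mm_033_s

noncomputable def cut_mm_101_s : Cut := Cut.of [[⟨4, 0, 0, 1449551462⟩], [⟨0, 1, 0, 53687091⟩, ⟨1, 0, 0, 53687091⟩, ⟨2, 1, 0, 53687091⟩]]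

noncomputable def f_mm_101_s : ℕ → ℕ → ℕ → ℕ → Bool := onCell 536870912 536870912 0 536870912 991146299 28908434
    (rowNE 3 eng mog cd0q1 cd5q1 pd0 1 false false false .npn 1 0 1 (qsf 536870912 536870912 536870912 536870912 0) ndB0q1 ndB5q1 pcB0 cut_mm_101_s Ext.none)

def k0_mm_101_s : ∃ t, chk3 f_mm_101_s t 1 1 1 = true :=
  ⟨(a (l 3) (b (a (l 3) (b (a (l 3) (b (b (a (l 3) (l 14)) (l 3)) (l 3))) (l 3))) (l 3))), by decide +kernel⟩

theorem c_mm_101_s : CertNE 536870912 536870912 536870912 536870912 991146299 28908434 3 eng mog cd0q1 cd5q1 pd0 false false false .npn 1 0 1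
    ndB0q1 ndB5q1 pcB0 cut_mm_101_s Ext.none :=
  certNE1 (fam := false) (s1 := false) (s2 := false) (a := 1) (b := 0) (c := 1) (cn := .npn) (n1 := ndB0q1) (n2 := ndB5q1) (pc := pcB0) (cut := cut_mm_101_s) (xt := Ext.none) (P1 := 536870912) (W1 := 536870912) (P2 := 536870912) (W2 := 536870912) (P3 := 991146299) (W3 := 28908434) (N0 := 3) (En := eng) (mo := mog) (C1 := cd0q1) (C2 := cd5q1) (C3 := pd0)
    rfl (fun _ => rfl) k0_mm_101_s

noncomputable def cut_mm_102_s : Cut := Cut.of [[⟨4, 0, 0, 1449551462⟩], [⟨0, 1, 0, 53687091⟩, ⟨1, 0, 0, 53687091⟩, ⟨2, 1, 0, 53687091⟩]]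

noncomputable def f_mm_102_s : ℕ → ℕ → ℕ → ℕ → Bool := onCell 536870912 536870912 0 536870912 991146299 28908434
    (rowNE 3 eng mog cd0q1 cd5q2 pd0 1 false false false .npp 1 0 2 (qsf 536870912 536870912 1073741824 536870912 0) ndB0q1 ndB5q2 pcB0 cut_mm_102_s Ext.none)

def k0_mm_102_s : ∃ t, chk3 f_mm_102_s t 1 1 1 = true :=
  ⟨(a (l 3) (b (a (l 3) (b (a (l 3) (b (b (a (l 3) (l 14)) (l 3)) (l 3))) (l 3))) (l 3))), by decide +kernel⟩

theorem c_mm_102_s : CertNE 536870912 536870912 1073741824 536870912 991146299 28908434 3 eng mog cd0q1 cd5q2 pd0 false false false .npp 1 0 2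
    ndB0q1 ndB5q2 pcB0 cut_mm_102_s Ext.none :=
  certNE1 (fam := false) (s1 := false) (s2 := false) (a := 1) (b := 0) (c := 2) (cn := .npp) (n1 := ndB0q1) (n2 := ndB5q2) (pc := pcB0) (cut := cut_mm_102_s) (xt := Ext.none) (P1 := 536870912) (W1 := 536870912) (P2 := 1073741824) (W2 := 536870912) (P3 := 991146299) (W3 := 28908434) (N0 := 3) (En := eng) (mo := mog) (C1 := cd0q1) (C2 := cd5q2) (C3 := pd0)
    rfl (fun _ => rfl) k0_mm_102_s

noncomputable def cut_mm_112_s : Cut := Cut.of [[⟨4, 0, 0, 1449551462⟩]]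

noncomputable def f_mm_112_s : ℕ → ℕ → ℕ → ℕ → Bool := onCell 536870912 536870912 1073741824 536870912 991146299 28908434
    (rowNE 3 eng mog cd0q1 cd5q2 pd1 2 false false false .dn 1 1 2 (qsf 536870912 536870912 1073741824 536870912 1) ndB0q1 ndB5q2 pcB1 cut_mm_112_s Ext.none)

def k0_mm_112_s : ∃ t, chk3 f_mm_112_s t 1 1 1 = true :=
  ⟨(a (l 3) (l 5)), by decide +kernel⟩

theorem c_mm_112_s : CertNE 536870912 536870912 1073741824 536870912 991146299 28908434 3 eng mog cd0q1 cd5q2 pd1 false false false .dn 1 1 2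
    ndB0q1 ndB5q2 pcB1 cut_mm_112_s Ext.none :=
  certNE2 (fam := false) (s1 := false) (s2 := false) (a := 1) (b := 1) (c := 2) (cn := .dn) (n1 := ndB0q1) (n2 := ndB5q2) (pc := pcB1) (cut := cut_mm_112_s) (xt := Ext.none) (P1 := 536870912) (W1 := 536870912) (P2 := 1073741824) (W2 := 536870912) (P3 := 991146299) (W3 := 28908434) (N0 := 3) (En := eng) (mo := mog) (C1 := cd0q1) (C2 := cd5q2) (C3 := pd1)
    rfl (fun _ => rfl) k0_mm_112_s

noncomputable def cut_mm_113_s : Cut := Cut.of [[⟨4, 0, 0, 1449551462⟩]]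

noncomputable def f_mm_113_s : ℕ → ℕ → ℕ → ℕ → Bool := onCell 536870912 536870912 0 1230186008 991146299 28908434
    (rowNE 3 eng mog cd0q1 cd5q3 pd1 0 false false false .nn 1 1 3 (qsf 536870912 536870912 0 1230186008 1) ndB0q1 ndB5q3 pcB1 cut_mm_113_s Ext.none)

def k0_mm_113_s : ∃ t, chk3 f_mm_113_s t 1 1 1 = true :=
  ⟨(a (l 5) (b (l 5) (a (b (l 5) (l 3)) (l 3)))), by decide +kernel⟩

theorem c_mm_113_s : CertNE 536870912 536870912 0 1230186008 991146299 28908434 3 eng mog cd0q1 cd5q3 pd1 false false false .nn 1 1 3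
    ndB0q1 ndB5q3 pcB1 cut_mm_113_s Ext.none :=
  certNE0 (fam := false) (s1 := false) (s2 := false) (a := 1) (b := 1) (c := 3) (cn := .nn) (n1 := ndB0q1) (n2 := ndB5q3) (pc := pcB1) (cut := cut_mm_113_s) (xt := Ext.none) (P1 := 536870912) (W1 := 536870912) (P2 := 0) (W2 := 1230186008) (P3 := 991146299) (W3 := 28908434) (N0 := 3) (En := eng) (mo := mog) (C1 := cd0q1) (C2 := cd5q3) (C3 := pd1)
    rfl k0_mm_113_s

noncomputable def cut_mm_123_s : Cut := Cut.of [[⟨4, 0, 0, 1449551462⟩]]

noncomputable def f_mm_123_s : ℕ → ℕ → ℕ → ℕ → Bool := onCell 1073741824 536870912 0 1230186008 991146299 28908434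
    (rowNE 3 eng mog cd0q1 cd5q3 pd2 2 false false false .npn 1 2 3 (qsf 536870912 536870912 0 1230186008 2) ndB0q1 ndB5q3 pcB2 cut_mm_123_s Ext.none)

def k0_mm_123_s : ∃ t, chk3 f_mm_123_s t 1 1 1 = true :=
  ⟨(b (l 5) (l 5)), by decide +kernel⟩

theorem c_mm_123_s : CertNE 536870912 536870912 0 1230186008 991146299 28908434 3 eng mog cd0q1 cd5q3 pd2 false false false .npn 1 2 3
    ndB0q1 ndB5q3 pcB2 cut_mm_123_s Ext.none :=
  certNE2 (fam := false) (s1 := false) (s2 := false) (a := 1) (b := 2) (c := 3) (cn := .npn) (n1 := ndB0q1) (n2 := ndB5q3) (pc := pcB2) (cut := cut_mm_123_s) (xt := Ext.none) (P1 := 536870912) (W1 := 536870912) (P2 := 0) (W2 := 1230186008) (P3 := 991146299) (W3 := 28908434) (N0 := 3) (En := eng) (mo := mog) (C1 := cd0q1) (C2 := cd5q3) (C3 := pd2)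
    rfl (fun _ => rfl) k0_mm_123_s

noncomputable def cut_mm_133_s : Cut := Cut.of [[⟨4, 0, 0, 1449551462⟩]]

noncomputable def f_mm_133_s : ℕ → ℕ → ℕ → ℕ → Bool := onCell 1610612736 536870912 0 1230186008 991146299 28908434
    (rowNE 3 eng mog cd0q1 cd5q3 pd3 2 false false false .dn 1 3 3 (qsf 536870912 536870912 0 1230186008 3) ndB0q1 ndB5q3 pcB3 cut_mm_133_s Ext.none)

def k0_mm_133_s : ∃ t, chk3 f_mm_133_s t 1 1 1 = true :=
  ⟨(l 5), by decide +kernel⟩

theorem c_mm_133_s : CertNE 536870912 536870912 0 1230186008 991146299 28908434 3 eng mog cd0q1 cd5q3 pd3 false false false .dn 1 3 3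
    ndB0q1 ndB5q3 pcB3 cut_mm_133_s Ext.none :=
  certNE2 (fam := false) (s1 := false) (s2 := false) (a := 1) (b := 3) (c := 3) (cn := .dn) (n1 := ndB0q1) (n2 := ndB5q3) (pc := pcB3) (cut := cut_mm_133_s) (xt := Ext.none) (P1 := 536870912) (W1 := 536870912) (P2 := 0) (W2 := 1230186008) (P3 := 991146299) (W3 := 28908434) (N0 := 3) (En := eng) (mo := mog) (C1 := cd0q1) (C2 := cd5q3) (C3 := pd3)
    rfl (fun _ => rfl) k0_mm_133_s

noncomputable def cut_mm_202_s : Cut := Cut.of [[⟨4, 0, 0, 1449551462⟩], [⟨0, 1, 0, 26843545⟩, ⟨1, 0, 0, 26843545⟩, ⟨2, 1, 0, 26843545⟩]]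

noncomputable def f_mm_202_s : ℕ → ℕ → ℕ → ℕ → Bool := onCell 0 536870912 0 536870912 991146299 28908434
    (rowNE 3 eng mog cd0q2 cd5q2 pd0 1 false false false .pp 2 0 2 (qsf 0 536870912 1073741824 536870912 0) ndB0q2 ndB5q2 pcB0 cut_mm_202_s Ext.none)

def k0_mm_202_s : ∃ t, chk3 f_mm_202_s t 2 2 1 = true :=
  ⟨(a (a (l 6) (b (l 6) (b (l 6) (a (l 6) (b (c (l 16488832) (l 16386088)) (c (l 16543224) (l 16405320))))))) (a (b (a (l 6) (b (l 6) (l 6))) (b (b (b (l 16285656) (l 16269216)) (a (c (l 16467048) (l 16423280)) (b (l 16393192) (c (l 16566880) (l 16497944))))) (b (a (b (c (l 16541712) (l 16470392)) (l 16358424)) (b (c (l 16583360) (l 16514304)) (l 16563480))) (c (l 16587384) (a (l 16515800) (l 16560160)))))) (b (b (b (l 6) (b (b (l 6) (l 16159952)) (b (l 16192344) (a (l 6) (l 16257184))))) (b (a (b (l 6) (b (l 16247960) (l 16335392))) (b (b (l 16297504) (l 16340280)) (l 16273544))) (c (b (l 16416096) (l 16478616)) (l 16439480)))) (a (b (b (b (l 16481088) (c (l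 16555680) (l 16503264))) (b (c (l 16588896) (l 16525472)) (l 16407456))) (b (c (l 16610936) (l 16506760)) (b (l 16566944) (a (l 16612840) (l 16611248))))) (b (c (b (b (l 16582472) (l 16609520)) (l 16624016)) (b (b (l 16534744) (l 16553768)) (l 16560392))) (b (b (l 16578208) (c (l 16639856) (l 16586336))) (b (c (l 16648504) (l 16602168)) (a (l 16651152) (l 16674072))))))))), by decide +kernel⟩

def k1_mm_202_s : ∃ t, chk3 f_mm_202_s t 2 3 1 = true :=
  ⟨(b (b (a (a (a (l 6) (a (l 6) (b (l 6) (l 16502512)))) (b (c (l 16462016) (a (l 16460568) (l 16508344))) (c (l 16565392) (l 16482296)))) (a (b (a (c (l 16588152) (l 16552752)) (b (l 16599248) (c (l 16618752) (l 16610456)))) (a (c (l 16606432) (b (l 16583272) (l 16604416))) (b (a (l 16619024) (l 16639744)) (l 16647792)))) (b (a (b (c (l 16638256) (l 16634568)) (l 16611856)) (b (l 16681240) (l 16638208))) (a (b (l 16674008) (l 16673664)) (a (b (l 16709920) (l 16710680)) (b (l 16755872) (c (l 16757192) (l 16757288))))))))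 (b (a (a (c (l 16528808) (l 16471968)) (a (l 16493080) (b (l 16585136) (l 16538112)))) (a (a (b (l 16558904) (l 16642752)) (b (l 16668280) (l 16689520))) (a (b (c (l 16695192) (l 16695344)) (c (l 16738464) (l 16738608))) (a (b (c (l 16754136) (l 16754232)) (c (l 275582457719) (l 285783004215))) (b (a (b (l 16768048) (l 277729978071)) (b (l 279340583847) (l 3))) (l 3)))))) (b (a (a (l 16523016) (a (l 16579488) (l 368393776519))) (c (a (l 16686384) (a (a (l 16748616) (l 235317180423)) (l 377051061735))) (a (l 16687888) (a (a (l 16748776) (l 239075246471)) (l 379735409431))))) (a (l 2) (a (a (l 16685632) (c (l 16733560) (l 16734224))) (a (a (c (l 225116614487) (l 233169667639)) (a (l 356113154423) (l 3))) (l 3))))))) (a (l 2) (a (l 2) (a (l 2) (l 3))))), by decide +kernel⟩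

def k2_mm_202_s : ∃ t, chk3 f_mm_202_s t 12 2 1 = true :=
  ⟨(b (a (b (b (b (l 16234944) (l 16244304)) (b (b (l 16239328) (b (l 16232840) (a (l 16225632) (l 16255864)))) (b (c (l 16265208) (l 16285688)) (l 16261024)))) (b (b (b (l 16376408) (l 16422704)) (b (l 16462744) (l 16493392))) (b (l 16535664) (c (l 16522808) (l 16565296))))) (b (b (b (l 16302624) (l 16306184)) (b (b (l 16197592) (b (l 16296408) (l 16314720))) (b (l 16361392) (l 16416408)))) (b (b (b (l 16465096) (l 16508264)) (b (l 16545712) (l 16576544))) (b (a (b (l 16584416) (l 16612000)) (c (l 16646680) (l 16610464))) (b (l 16505560) (l 16639720)))))) (b (b (a (b (b (l 16521880) (l 16615384)) (l 16517496)) (b (c (l 16659952) (l 16633536)) (c (l 16666104) (l 16652000)))) (c (a (b (l 16645488) (l 16652480)) (b (l 16673688) (l 16725424))) (a (b (l 16598832) (l 16639592)) (b (a (l 16637264) (l 16680000)) (a (l 16652096) (l 16695624)))))) (a (b (b (c (l 16618488) (a (l 16645808) (l 16666600))) (a (l 16619408)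 (l 16683808))) (b (l 16648072) (a (l 16697168) (l 16700264)))) (a (b (b (l 16689272) (l 16706528)) (b (l 16683696) (c (l 16746344) (l 16746464)))) (b (b (l 16690736) (c (l 16709216) (l 16709544))) (b (b (l 16724560) (a (l 16749696) (l 16773184))) (b (c (l 255181386807) (l 250349549079)) (a (c (l 16771256) (l 16750336)) (b (l 392083514407) (l 3)))))))))), by decide +kernel⟩

def k3_mm_202_s : ∃ t, chk3 f_mm_202_s t 26 2 1 = true :=
  ⟨(b (b (b (b (l 16373448) (b (l 16295048) (a (l 16354632) (l 16397368)))) (b (b (l 16384696) (b (l 16398968) (l 16418536))) (b (l 16398856) (l 16471392)))) (b (b (b (l 16558800) (l 16557112)) (a (b (l 16611288) (l 16638288)) (b (c (l 16662648) (l 16635296)) (l 16661624)))) (b (c (l 16671984) (a (l 16635416) (l 16659440))) (c (l 16680248) (l 16664512))))) (a (b (b (b (l 16611992) (c (l 16687792) (l 16687208))) (b (l 16701216) (l 16696184))) (b (c (b (l 16714040) (b (l 16729056) (l 16760512))) (b (l 16714560) (b (l 16729352) (l 160692148663))))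 (b (c (a (b (l 16764864) (l 272361256791)) (b (l 270213758503) (l 423758864375))) (a (b (l 16764976) (l 276656221751)) (b (l 273971851943) (l 425906343687)))) (b (c (l 417853265719) (l 420000743671)) (l 3))))) (b (b (b (c (l 16695120) (l 16694568)) (b (l 16704064) (l 16711248))) (b (l 16680888) (c (l 16708584) (l 16719752)))) (b (b (c (b (l 16754784) (a (l 16758752) (l 275045625415))) (b (l 16755144) (a (l 16759016) (l 266992559607)))) (b (c (a (l 16748240) (l 388862282199)) (a (l 261623861031) (a (l 365776849655) (l 440401868871)))) (a (c (l 358260652359) (a (l 264308200887) (l 422148272631))) (l 3)))) (l 3))))), by decide +kernel⟩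

def k4_mm_202_s : ∃ t, chk3 f_mm_202_s t 27 2 1 = true :=
  ⟨(b (b (b (b (b (l 16386872) (a (l 16431248) (l 16461912))) (b (l 16424984) (l 16461688))) (b (b (l 16462744) (b (l 16506176) (l 16506944))) (b (b (l 16534600) (l 16560032)) (a (l 16590184) (l 16643576))))) (b (b (a (b (l 16633352) (l 16662056)) (b (l 16589672) (l 16685336))) (b (b (b (l 16596520) (l 16681728)) (l 16683768)) (c (l 16692712) (l 16680728)))) (b (c (a (l 16693784) (l 16708712)) (a (l 16682552) (b (l 16702232) (l 16711224)))) (a (c (l 16702328) (l 16743464)) (b (l 16679952) (l 16724024)))))) (b (c (b (b (a (l 16712880) (l 16733824)) (a (l 16706952) (a (l 16723800) (l 16777400)))) (a (b (b (l 16740752) (l 16728984)) (a (l 16779392) (b (l 16765960) (a (l 16757176) (l 400673456295))))) (b (a (b (l 16737592) (l 205789307943)) (b (a (l 16767744) (l 269676915383)) (a (l 341617624007) (l 467245415943)))) (a (b (a (l 268066295447) (l 419463922535)) (l 3)) (l 3))))) (a (b (b (l 16714776) (l 16708496)) (b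 (b (l 16741720) (l 16729632)) (a (b (l 16754016) (l 16763800)) (b (l 16766208) (b (l 277729982631) (l 405505286439)))))) (b (b (l 16735616) (b (l 16726312) (l 16755808))) (b (a (b (l 16738104) (b (l 16745224) (l 16760544))) (b (b (l 16768624) (l 281488076183)) (a (b (l 282024962087) (l 447918087655)) (l 467245411159)))) (a (b (b (l 281488057175) (l 437717535031)) (l 3)) (l 3)))))) (a (b (b (a (c (b (l 270213768999) (l 431811941287)) (b (b (l 16750392) (l 273971867879)) (a (l 394767865063) (l 3)))) (b (c (l 448991794807) (l 448454918855)) (l 3))) (l 3)) (l 3)) (l 3)))), by decide +kernel⟩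

def k5_mm_202_s : ∃ t, chk3 f_mm_202_s t 14 8 1 = true :=
  ⟨(b (b (a (b (a (l 16498208) (l 16531200)) (l 16515480)) (b (a (l 16564112) (l 16599824)) (a (l 16572864) (l 16593848)))) (a (b (l 16466840) (a (l 16530824) (l 16578888))) (b (b (l 16549248) (a (l 16604008) (l 16632328))) (a (l 16587328) (b (l 16672112) (a (l 16679728) (l 16707856))))))) (a (a (b (b (l 16561800) (l 16602656)) (b (l 16611216) (c (l 16684968) (l 16677088)))) (b (b (l 16573720) (b (l 16648912) (l 16653664))) (b (c (l 16696496) (l 16689800)) (l 16705744)))) (b (b (a (b (l 16660384) (a (l 16669296) (l 16698560))) (a (b (l 16703152) (l 16714328)) (b (l 16718416) (l 16723384)))) (a (a (b (l 16694064) (a (l 16703440) (l 16707896))) (b (l 16710336) (l 16715832))) (c (l 16726400) (l 16722784)))) (b (a (c (l 16713376) (l 16713816)) (a (l 16728832) (b (l 16734960) (l 16739440)))) (b (a (l 16722608) (a (l 16735616) (l 16744432))) (a (l 16726656) (a (l 16739696) (l 16749568)))))))), by decide +kernel⟩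

def k6_mm_202_s : ∃ t, chk3 f_mm_202_s t 14 18 1 = true :=
  ⟨(a (b (b (a (l 16696400) (l 16713584)) (a (l 16702088) (a (l 16715504) (l 16725424)))) (b (a (l 16708568) (a (l 16722984) (l 16731672))) (a (c (l 16716160) (l 16715952)) (a (l 16729328) (l 16739136))))) (b (a (b (a (l 16748856) (a (l 16734496) (l 16738904))) (c (l 16758840) (a (l 16735280) (l 16745168)))) (b (c (l 16760920) (l 16751736)) (a (l 16754152) (c (l 16776704) (a (l 16762240) (l 16767192)))))) (a (b (a (l 16741584) (l 16751440)) (c (l 16763824) (l 16754752))) (b (a (b (l 16759728) (l 16753184)) (a (b (l 16767568) (c (l 16771456) (l 16771800))) (c (b (l 16772704) (a (l 340007047543) (l 476909134199))) (c (b (l 16772912) (a (l 295983596231) (l 478519738727))) (b (l 16773064) (a (l 297594208263) (l 480667220391))))))) (b (c (a (l 16767456) (a (a (l 16774368) (b (l 16776032) (l 482814710199))) (l 541870497591))) (a (l 16768032) (a (a (l 16764048) (b (l 296520483223) (l 484425319783))) (c (l 540259875303)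 (l 537575514375))))) (a (a (l 16758720) (c (b (l 16773464) (l 297594207863)) (c (l 294372978183) (l 295983590423)))) (a (a (b (c (l 458655525735) (l 463487362615)) (l 3)) (l 3)) (l 3)))))))), by decide +kernel⟩

def k7_mm_202_s : ∃ t, chk3 f_mm_202_s t 14 19 1 = true :=
  ⟨(b (a (b (a (c (l 16721056) (l 16723064)) (l 16741528)) (a (l 16729432) (a (l 16744032) (l 16754280)))) (a (a (b (l 16735776) (c (l 16764616) (l 16754784))) (c (b (a (l 16764344) (l 16769896)) (a (b (l 16770872) (a (l 16773920) (l 349133823671))) (b (a (l 16775080) (l 454360555015)) (l 513416323095)))) (b (a (l 16765048) (b (l 16768264) (l 16772376))) (a (b (l 16771208) (c (l 328732725127) (l 299204809351))) (b (a (l 278803742295) (b (l 302962924839) (l 513953210551))) (a (l 487109658711) (l 3))))))) (b (a (a (c (b (l 16762816) (a (l 353428821671) (l 483888442263))) (b (l 290078034647) (a (b (l 16775344) (l 307257880887)) (b (l 471003550343) (l 3))))) (b (c (a (l 394767867271) (l 535964907543)) (a (b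 (l 300278574999) (l 490867766007)) (l 533817415879))) (l 3))) (l 3)) (a (a (b (c (l 539186113607) (l 537038640103)) (l 3)) (l 3)) (l 3))))) (a (a (b (l 16736560) (l 16723136)) (a (b (l 16751808) (c (l 16759648) (l 16760456))) (c (b (l 16762136) (a (l 16768176) (b (l 16771696) (l 299741676743)))) (b (l 16762872) (a (l 16768592) (b (l 16771952) (a (l 16753952) (l 440401912983)))))))) (b (a (a (c (a (l 246591493159) (b (l 273971898535) (l 453286806215))) (a (b (l 16768840) (l 16773104)) (b (l 278266864519) (c (l 455434287959) (l 458118641255))))) (a (b (c (l 473151017559) (a (l 462413611879) (l 3))) (l 3)) (l 3))) (l 3)) (a (a (a (c (b (a (l 265918832343) (l 462950480519)) (l 514490057479)) (b (a (l 269140056311) (l 465634832327)) (l 513953179383))) (l 3)) (l 3)) (l 3))))), by decide +kernel⟩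

def k8_mm_202_s : ∃ t, chk3 f_mm_202_s t 30 16 1 = true :=
  ⟨(b (b (a (b (l 16636272) (l 16643000)) (b (a (l 16667552) (l 16689432)) (a (l 16676768) (l 16700336)))) (a (c (l 16617808) (l 16619296)) (b (c (l 16659784) (l 16661376)) (a (l 16706880) (b (l 16728792) (a (l 16732152) (l 16745096))))))) (b (b (a (c (l 16663144) (l 16688528)) (b (a (l 16721920) (a (l 16742016) (l 16748912))) (a (l 16711584) (l 16747392)))) (a (a (l 16692608) (b (l 16715416) (l 16725152))) (a (c (l 16756880) (b (l 16739976) (l 16741448))) (c (l 16746536) (l 16748760))))) (a (a (b (c (l 16712672) (l 16714504)) (l 16723408)) (b (b (l 16729816) (l 16732256)) (l 16733168))) (b (a (l 16740144) (b (l 16748168) (a (l 16746424) (l 16730480)))) (a (l 16727368) (a (c (l 16748664) (l 16728360)) (l 16734992))))))), by decide +kernel⟩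

def k9_mm_202_s : ∃ t, chk3 f_mm_202_s t 31 32 1 = true :=
  ⟨(a (b (b (l 14) (a (c (l 16702552) (l 16703088)) (l 14))) (b (a (b (l 16735840) (a (l 16738696) (l 16730208))) (a (b (l 14) (a (l 16757448) (l 16759904))) (l 14))) (a (a (b (l 16748152) (l 16752016)) (b (l 16734152) (l 16755840))) (a (b (l 16758960) (l 16751760)) (b (b (l 16756832) (a (l 16761024) (l 16763272))) (a (c (l 16740688) (l 16741128)) (l 16744568))))))) (b (l 14) (a (b (l 14) (a (b (l 14) (a (c (l 16759088) (l 16759248)) (l 14))) (l 14))) (l 14)))), by decide +kernel⟩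

def k10_mm_202_s : ∃ t, chk3 f_mm_202_s t 62 66 1 = true :=
  ⟨(a (b (b (l 16733240) (a (l 16752648) (l 16756104))) (a (b (l 16752736) (l 16753528)) (b (c (l 16736112) (l 16736696)) (l 16760312)))) (b (a (b (a (l 16758192) (l 16750248)) (c (l 16740608) (l 16741016))) (b (a (l 16764688) (l 16763512)) (a (l 16757400) (a (l 16765648) (c (l 16767592) (l 16767688)))))) (b (b (a (l 16743288) (a (l 16759744) (a (l 16767952) (c (l 16772512) (l 16772560))))) (a (l 16755360) (a (l 16766520) (a (c (l 16769424) (l 16769488)) (b (b (c (l 16773456) (l 16773488)) (a (l 16774664) (a (c (l 16776704) (l 16776712)) (c (l 184314495559) (c (l 176261431895) (l 175724560983)))))) (c (a (l 16776520) (a (b (l 16777048) (l 335712092823)) (l 512342622647))) (a (l 211694910103) (b (a (a (l 16776960) (l 188609462663)) (l 524690653463)) (c (l 494089011575) (l 489794044263)))))))))) (a (c (l 16762824) (l 16757808)) (a (b (c (l 16767984) (l 16768080)) (a (l 16771176) (a (a (l 16772384) (l 16774176))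 (b (l 16774528) (c (l 16776560) (l 228337908327)))))) (a (b (b (c (l 16770552) (l 16773216)) (c (a (l 16776056) (a (l 16776784) (b (l 16777064) (l 342691414695)))) (a (l 16770840) (a (l 32916898183) (c (b (l 16777064) (l 344302027431)) (b (l 16777064) (l 346986381991))))))) (a (a (c (b (l 16771312) (a (l 180556399223) (l 283098743639))) (b (l 16771328) (c (b (l 16777080) (l 351818220215)) (b (l 16777080) (l 355039445687))))) (c (b (c (l 131164275399) (l 16777656)) (l 537038684631)) (b (a (l 16776920) (b (l 16776984) (l 306184192487))) (l 550997328327)))) (a (b (c (l 431811985623) (c (l 437717565655) (l 442549403863))) (l 3)) (l 3)))) (a (b (a (c (b (c (l 127943049895) (l 16777560)) (l 531133104583)) (b (a (l 16776904) (b (l 16776968) (l 295446774231))) (l 544554877367))) (b (c (l 425906405575) (c (l 432348856519) (l 436643823159))) (l 3))) (l 3)) (l 3)))))))), by decide +kernel⟩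

def k11_mm_202_s : ∃ t, chk3 f_mm_202_s t 124 67 1 = true :=
  ⟨(b (a (b (l 16734608) (l 16758880)) (a (l 16742136) (b (l 16765432) (l 16758000)))) (b (a (l 16741048) (c (l 16764224) (l 16764448))) (a (l 16754584) (a (l 16765400) (b (c (l 16763080) (l 16763192)) (a (l 16768880) (a (l 16774184) (c (l 16776376) (l 326048411591))))))))), by decide +kernel⟩

def k12_mm_202_s : ∃ t, chk3 f_mm_202_s t 250 67 1 = true :=
  ⟨(b (a (b (l 16758808) (c (l 16766976) (l 16761864))) (b (a (l 16769560) (c (l 16768808) (l 16771520))) (b (b (a (l 16774024) (c (l 16770656) (l 16775936))) (a (l 16772136) (b (c (l 16777416) (c (l 16777592) (l 48486154871))) (a (l 16775696) (a (c (l 16777032) (l 16777032)) (c (l 372219314935) (l 394231022311))))))) (a (c (l 16777448) (c (l 16777152) (l 16775856))) (a (a (c (b (l 16776640) (l 243370296311)) (b (l 16776656) (b (l 171429593671) (l 422148309671)))) (b (c (l 149954757447) (c (l 154249724663) (l 151028499207))) (l 3))) (a (c (l 483888464487) (c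 (l 493015269975) (l 498920850007))) (l 3))))))) (a (b (a (c (l 16768968) (l 16769056)) (c (b (l 16770128) (a (l 16776328) (b (l 112373793735) (l 427517018423)))) (b (l 16770184) (a (l 322290315031) (b (a (l 16776704) (b (l 16776976) (l 253570843335))) (c (l 433422598455) (l 439865049383))))))) (b (b (a (c (l 16776008) (l 16776048)) (a (a (c (l 166060884903) (c (l 170355852119) (l 178945786647))) (c (l 475298529639) (l 485499076967))) (l 3))) (a (c (a (l 16776256) (a (l 16776928) (l 281488130983))) (a (l 16765800) (a (l 276119420055) (c (l 269140100087) (l 282025001895))))) (l 3))) (a (c (a (b (l 119353115671) (l 437180694887)) (l 523080041351)) (a (b (c (l 117742502871) (l 124721824647)) (c (l 443623145831) (l 450602467671))) (b (l 523616911943) (l 3)))) (l 3)))) (a (b (b (b (c (a (l 16776432) (a (l 154786595687) (l 459729273159))) (a (l 16776448) (a (c (l 159081562903) (l 156397208359)) (l 471540433207)))) (a (a (c (l 16776896) (l 282561870839)) (c (l 247665263639) (b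 (l 178945786471) (l 432348857015)))) (l 3))) (a (c (l 501605204823) (c (l 525227524935) (l 529522492231))) (l 3))) (l 3)) (l 3)))), by decide +kernel⟩

def k13_mm_202_s : ∃ t, chk3 f_mm_202_s t 251 67 1 = true :=
  ⟨(b (a (b (b (a (c (l 16770008) (l 16770056)) (c (a (a (l 16776448) (b (l 16771336) (a (l 174650819287) (l 289541194599)))) (b (a (l 137069855463) (l 437180694759)) (l 548312973991))) (a (b (l 16771112) (a (l 250349616135) (c (b (l 16777096) (l 359871283911)) (b (l 16777096) (l 363092509383))))) (b (a (a (l 16776936) (b (l 16777000) (l 312626643463))) (c (l 443623145703) (l 448454983911))) (c (l 556902908583) (l 563882230423)))))) (a (c (a (l 16776232) (a (b (l 16771352) (a (l 179482657527) (l 302426096471))) (b (l 140827951879) (l 550997328375)))) (a (c (l 16776256) (l 16776264)) (b (a (l 16771376) (a (l 16776952) (b (l 16777016) (l 324437803543)))) (b (c (a (l 16777104) (l 560124133719)) (l 388325441575)) (l 520395686327))))) (a (a (b (c (l 441475662087)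 (c (l 450065596663) (l 454897434871))) (l 3)) (l 3)) (l 3)))) (a (a (b (b (a (c (l 145122919207) (c (l 149417886423) (l 146196660967))) (c (l 447918113047) (c (l 454360563991) (l 459729273111)))) (l 3)) (l 3)) (l 3)) (l 3))) (l 3)) (l 3)), by decide +kernel⟩

def k14_mm_202_s : ∃ t, chk3 f_mm_202_s t 504 132 1 = true :=
  ⟨(b (a (c (l 16761248) (l 16761368)) (b (l 16767792) (c (l 16769304) (l 16769368)))) (a (a (c (l 16771720) (l 16771784)) (b (l 16771984) (c (l 16777496) (c (l 16777432) (l 16777448))))) (b (a (c (l 16770344) (l 16773000)) (b (c (l 16770968) (l 16773608)) (b (c (l 16777504) (c (l 45264929287) (l 30232543719))) (a (c (l 16776904) (l 16776912)) (a (c (l 242296553959) (a (l 202031235415) (l 320679707047))) (l 3)))))) (a (b (b (c (l 16771296) (l 16773928)) (a (c (l 16776664) (l 16776680)) (a (c (l 16777032) (l 16777040)) (c (l 243907166711) (c (l 241222812151) (l 242296553975)))))) (a (b (c (l 16777024) (c (l 16777024) (l 16777024))) (a (c (l 250349617655)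 (a (l 207399944567) (l 331417125303))) (l 3))) (c (l 502678946199) (c (l 523080040855) (l 516637589911))))) (a (b (a (b (c (l 16777128) (c (l 16777136) (l 16777136))) (l 3)) (c (l 490330915111) (c (l 497847107879) (l 503752687911)))) (l 3)) (l 3)))))), by decide +kernel⟩

def k15_mm_202_s : ∃ t, chk3 f_mm_202_s t 505 132 1 = true :=
  ⟨(b (a (b (c (l 16773064) (a (l 16774576) (l 16772952))) (a (a (c (l 16770568) (l 16770600)) (c (l 16777296) (c (l 16776328) (l 16776344)))) (a (c (b (l 16771200) (b (l 16776992) (a (l 234780361175) (l 552607940855)))) (b (l 16771216) (c (b (l 16777000) (c (l 315847868999) (l 315847868999))) (b (l 16777000) (l 421611438183))))) (a (c (b (l 16776816) (l 480667238679)) (b (l 16776824) (c (l 488183431447) (l 493552140567)))) (b (b (c (l 16776880) (l 16774264)) (c (l 228874781143) (b (l 16777312) (l 363092509031)))) (l 3)))))) (b (l 14) (b (a (a (b (a (c (l 16777112) (c (l 16777112) (l 16777112))) (b (l 14) (l 3))) (c (l 550460457303) (l 566029713735)))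 (l 3)) (l 3)) (l 3)))) (b (a (a (b (b (a (c (l 16771528) (l 16774160)) (a (c (l 16777120) (c (l 16777120) (l 16777120))) (c (l 328195899943) (c (l 333564609047) (l 345912639991))))) (a (a (c (l 16777016) (l 16777024)) (c (l 236390973927) (c (l 233169748455) (l 233706619367)))) (c (l 556366037351) (l 572472164695)))) (a (c (l 498383978887) (c (l 505900171655) (l 511805751687))) (l 3))) (l 3)) (l 3)) (l 3))), by decide +kernel⟩

def k16_mm_202_s : ∃ t, chk3 f_mm_202_s t 252 133 1 = true :=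
  ⟨(a (b (b (a (c (a (a (l 16776368) (b (l 16771256) (b (l 16777032) (l 312626643671)))) (b (a (b (l 16771560) (l 161765917319)) (c (b (l 233169748647) (l 3)) (l 418390212775))) (l 528985621111))) (a (b (l 16771024) (b (c (l 16777456) (l 16777464)) (a (l 16776936) (c (c (l 312089772759) (l 312626643671)) (l 441475661975))))) (b (a (b (l 16771568) (c (l 172503335479) (l 171966463911))) (a (b (c (l 16777144) (l 16777144)) (l 3)) (c (l 503752687927) (l 509658267959)))) (c (l 539723039335) (l 544018006631))))) (l 3)) (b (b (a (a (a (c (l 232632877799) (a (a (l 16777120) (l 223506071943)) (l 385641087479))) (l 3)) (l 3)) (l 3)) (l 3)) (l 3))) (l 3)) (l 3)), by decide +kernel⟩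

def k17_mm_202_s : ∃ t, chk3 f_mm_202_s t 253 66 1 = true :=
  ⟨(l 3), by decide +kernel⟩

def k18_mm_202_s : ∃ t, chk3 f_mm_202_s t 126 67 1 = true :=
  ⟨(l 3), by decide +kernel⟩

def k19_mm_202_s : ∃ t, chk3 f_mm_202_s t 127 33 1 = true :=
  ⟨(l 3), by decide +kernel⟩

def k20_mm_202_s : ∃ t, chk3 f_mm_202_s t 30 34 1 = true :=
  ⟨(a (b (b (a (l 16727560) (l 16735120)) (a (l 16730184) (c (l 16738672) (l 16738896)))) (a (c (l 16736728) (l 16757880)) (b (c (l 16742656) (l 16743488)) (l 16728248)))) (b (a (b (c (l 16744688) (l 16745224)) (b (l 16732568) (l 16730688))) (a (b (l 16754752) (l 16739904)) (b (l 16751680) (b (l 16756104) (c (l 16748320) (l 16748600)))))) (a (c (a (l 16734448) (l 16772792)) (b (l 16735664) (l 16762400))) (a (b (a (l 16743952) (l 16763136)) (a (b (l 16748104) (l 16766496)) (a (c (l 16772824) (l 16773000)) (b (l 16768024) (c (l 45801801559) (b (l 16775248) (l 330343379543))))))) (b (c (b (l 16777328) (a (l 16762592) (c (a (l 16776928) (b (a (l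 16776272) (l 173040207495)) (l 425369535159))) (a (l 16775648) (b (l 116131889719) (l 428053889719)))))) (a (l 16771920) (b (l 16773960) (a (b (l 16775072) (l 346986376247)) (b (a (l 16776312) (a (l 278266903447) (b (l 16777008) (l 435033211895)))) (l 550997325447)))))) (a (b (a (c (l 16774888) (l 16774976)) (b (c (l 16775920) (l 16775976)) (c (a (l 16776752) (l 275582552135)) (a (l 275045677575) (l 525227522039))))) (c (a (b (a (l 16776408) (l 193441302311)) (l 440401920839)) (l 523616913271)) (a (a (b (l 16776440) (l 530059359287)) (c (l 522006296231) (l 521469422119))) (l 620790535383)))) (b (a (b (c (a (l 183240754919) (l 476372271895)) (b (a (l 16776856) (l 571398420631)) (l 578377741351))) (l 3)) (l 3)) (l 3)))))))), by decide +kernel⟩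

def k21_mm_202_s : ∃ t, chk3 f_mm_202_s t 30 35 1 = true :=
  ⟨(a (b (c (a (l 16755936) (l 16773176)) (a (b (l 16744184) (l 16750264)) (a (l 16755608) (l 16761320)))) (b (a (l 16754736) (c (l 16765352) (l 16759432))) (a (l 16759552) (a (l 16762312) (c (b (l 16771912) (b (l 16773656) (l 281488120167))) (b (l 16772200) (c (l 307794791751) (l 292225509927)))))))) (a (a (b (b (l 16764400) (c (l 16769400) (l 16769776))) (c (b (a (l 16772824) (b (l 16774672) (a (l 78014056695) (l 489794040855)))) (a (b (a (l 16775608) (b (l 16776504) (l 500531459127))) (l 525227514151)) (l 589652023351))) (b (a (l 16773048) (b (l 16774800) (a (l 344838891559) (b (l 450602464455) (l 585893923191))))) (a (b (a (l 16775696) (b (l 16776544) (l 501068327111))) (a (l 502142071031) (l 3))) (b (l 575156513511) (l 3)))))) (b (b (c (l 16775840) (c (l 16770816) (l 16770960))) (b (a (l 16769360) (a (c (l 16775248) (l 16775336)) (b (c (l 16776208) (l 16776256)) (c (a (l 16776984) (l 550997326583)) (l 472077301495)))))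 (a (c (a (l 16774568) (l 72108476359)) (a (l 16774696) (l 335712085751))) (a (c (b (l 169818982647) (l 589115159127)) (c (l 489257168935) (l 490867779895))) (l 3))))) (b (a (b (c (a (b (l 16776360) (l 248202136199)) (l 550460451623)) (a (b (l 16776400) (l 491404652615)) (l 544018002055))) (l 3)) (l 3)) (l 3)))) (b (a (b (c (a (b (l 16774240) (a (l 54928607207) (b (c (l 149954758743) (l 149954758679)) (l 533817458183)))) (b (a (b (l 16776064) (a (l 16776864) (l 304573581383))) (b (l 387251700055) (l 3))) (l 597705097927))) (a (b (l 16774368) (a (b (l 16775424) (l 371145568119)) (b (l 417853338231) (l 575693381287)))) (b (b (a (l 16776112) (l 512342618695)) (c (l 520932551767) (l 520395681991))) (l 620790544551)))) (a (b (c (l 566566581431) (c (l 578377729575) (l 573009033495))) (l 3)) (l 3))) (l 3)) (l 3)))), by decide +kernel⟩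

def k22_mm_202_s : ∃ t, chk3 f_mm_202_s t 248 68 1 = true :=
  ⟨(b (a (c (l 16746544) (l 16746848)) (b (l 16759376) (c (l 16762152) (l 16762296)))) (a (b (c (l 16750872) (l 16751056)) (a (c (l 16763256) (l 16752888)) (b (l 16772240) (c (l 16776160) (l 291151802791))))) (b (a (c (l 16774536) (l 16774632)) (b (c (l 16775640) (l 16775696)) (a (c (l 16776536) (l 283098740503)) (c (b (l 16777688) (l 472077304327)) (b (c (l 161765917719) (l 159618434087)) (l 498383978999)))))) (b (b (a (c (l 16776248) (l 16776280)) (c (l 455434306247) (a (l 422148309271) (l 3)))) (a (c (a (l 16776488) (l 227264169335)) (a (l 16776512) (c (l 231559136551) (l 235317232903)))) (l 3))) (a (a (c (l 373293056087) (b (c (l 172503336039) (l 174650819655)) (l 511805751863))) (l 3)) (l 3)))))), by decide +kernel⟩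

def k23_mm_202_s : ∃ t, chk3 f_mm_202_s t 249 68 1 = true :=
  ⟨(b (a (b (a (l 16767360) (c (l 16769128) (l 16774456))) (b (b (c (l 16775216) (l 16772664)) (a (l 16769800) (a (c (l 16776368) (l 16776400)) (c (l 199883752759) (a (l 300815482327) (c (l 307257934871) (l 311552902151))))))) (a (c (l 16776040) (a (l 16765176) (l 279340644007))) (c (a (b (l 142975435879) (l 458655531479)) (l 541333652439)) (a (b (c (l 144049177623) (l 149954757591)) (l 469929820615)) (l 554218554311)))))) (b (a (b (c (l 16770256) (l 16775560)) (c (a (l 16776432) (b (l 134922372119) (l 448454984087))) (a (l 329806508071) (b (c (l 135459242951) (l 132774888407)) (c (l 454897435031) (l 460266144151)))))) (b (b (c (a (l 16776528) (a (l 16777464) (l 490330915223))) (a (l 16776552) (c (a (l 193441301319) (l 498383978903)) (l 392620408919)))) (a (a (c (l 16776968) (l 300278611255)) (b (c (l 16777208) (l 231559135879)) (l 3))) (l 3))) (c (l 537038685511) (c (l 547776103719) (l 552071071015))))) (a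 (a (b (a (c (l 409800278279) (c (l 415168987399) (l 420000825607))) (c (l 517711332087) (l 545628619495))) (l 3)) (l 3)) (l 3)))) (a (b (a (b (a (b (c (l 16776632) (l 16776648)) (c (l 217600492839) (c (l 217063621895) (l 220821718247)))) (c (l 439328178727) (c (l 446844371479) (l 452213080599)))) (l 3)) (l 3)) (l 3)) (l 3))), by decide +kernel⟩

def k24_mm_202_s : ∃ t, chk3 f_mm_202_s t 124 69 1 = true :=
  ⟨(a (b (a (b (a (b (c (l 16775776) (l 16775832)) (a (c (l 16776648) (l 278266902663)) (c (l 380809248935) (b (c (l 186461979799) (l 189683205239)) (l 628306738343))))) (b (c (a (c (l 160692175191) (l 162839660087)) (l 457044918935)) (a (a (l 272361323319) (b (l 16776960) (l 382956733479))) (l 505900171399))) (l 3))) (a (b (c (l 500531463287) (l 614348093127)) (l 3)) (l 3))) (l 3)) (l 3)) (l 3)), by decide +kernel⟩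

def k25_mm_202_s : ∃ t, chk3 f_mm_202_s t 125 34 1 = true :=
  ⟨(l 3), by decide +kernel⟩

def k26_mm_202_s : ∃ t, chk3 f_mm_202_s t 63 34 1 = true :=
  ⟨(l 3), by decide +kernel⟩

def k27_mm_202_s : ∃ t, chk3 f_mm_202_s t 31 35 1 = true :=
  ⟨(l 3), by decide +kernel⟩

def k28_mm_202_s : ∃ t, chk3 f_mm_202_s t 15 9 1 = true :=
  ⟨(a (a (a (a (b (b (b (b (l 16761472) (l 16765760)) (b (c (l 16769672) (l 16770152)) (a (c (l 16772560) (l 16772856)) (c (l 330343370535) (b (l 16774400) (l 300278568951)))))) (b (b (c (a (b (l 16775728) (l 474761650631)) (l 516637584679)) (a (b (l 294373004263) (l 477982873543)) (b (l 503215797591) (l 3)))) (l 3)) (l 3))) (l 3)) (b (b (b (b (l 16766624) (c (l 16770744) (l 16771144))) (a (c (b (l 16773728) (b (a (l 16776256) (l 476909137143)) (l 548849823879))) (b (l 16773944) (b (a (l 16765832) (l 480667231575)) (l 546165461607)))) (b (c (b (l 16775400) (l 442012528727)) (b (l 16765024) (a (l 304036668279) (l 516637573751)))) (l 3)))) (l 3))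 (l 3))) (b (b (b (a (a (b (l 16770664) (a (c (l 16774232) (l 16774408)) (b (l 16774616) (c (l 148344146711) (l 301889186327))))) (c (b (l 16773312) (a (b (l 16775944) (l 512879484231)) (l 503215810375))) (b (l 16773536) (b (a (l 16776016) (l 420537683271)) (l 543481132551))))) (a (c (b (b (l 16775056) (a (l 100025764503) (l 507510777143))) (l 584820164823)) (b (b (l 16775176) (a (l 300278575287) (l 507510772711))) (b (l 575693357591) (l 3)))) (b (b (c (l 489794038039) (a (l 451676204823) (l 568177177223))) (l 3)) (l 3)))) (a (a (b (b (c (l 496773355831) (a (l 474224782839) (l 573545881511))) (l 3)) (l 3)) (l 3)) (l 3))) (l 3)) (l 3))) (l 3)) (l 3)), by decide +kernel⟩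

def k29_mm_202_s : ∃ t, chk3 f_mm_202_s t 7 5 1 = true :=
  ⟨(a (a (b (b (a (b (b (c (l 16751576) (l 16752696)) (a (l 16734088) (a (l 16753032) (c (l 16769112) (l 16769424))))) (c (a (b (l 16763656) (a (l 16770184) (b (l 16773816) (l 424295779159)))) (b (a (l 272361277463) (b (l 294909848263) (l 476372238039))) (a (l 445770586759) (l 3)))) (a (b (l 16764136) (a (l 16770408) (b (l 16752952) (l 425369519591)))) (b (a (b (l 16770520) (l 289004280711)) (b (l 293836104263) (l 477445976103))) (a (b (l 439865023623) (l 3)) (l 3)))))) (a (b (b (b (a (l 16742792) (l 16769416)) (c (l 277193128903) (l 287930545623))) (b (c (a (l 16772688) (l 438791293607)) (a (l 16772864) (a (l 299741689831) (l 489794013831)))) (a (c (l 345912636087) (a (l 270750675751) (l 447918094983))) (l 3)))) (a (a (b (c (l 494088960087) (l 494625825047)) (l 3)) (l 3)) (l 3))) (b (b (a (c (b (l 267529439063) (l 455971151831)) (b (l 271287533847) (a (l 446844358439) (l 3)))) (b (c (l 473687880343) (l 494625840823))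 (l 3))) (l 3)) (l 3)))) (a (a (a (b (b (c (l 423758898583) (b (l 291151742439) (l 477982838631))) (l 3)) (l 3)) (l 3)) (l 3)) (l 3))) (l 3)) (l 3)) (l 3)), by decide +kernel⟩

def k30_mm_202_s : ∃ t, chk3 f_mm_202_s t 3 3 1 = true :=
  ⟨(a (b (b (a (b (a (b (c (l 16750440) (l 16761072)) (b (c (l 16766728) (l 16766848)) (a (l 16723032) (c (l 272898129367) (l 274508742279))))) (a (b (c (b (l 16762744) (l 274508723095)) (b (l 16762824) (l 275582463815))) (a (c (l 358797511527) (l 363092476807)) (l 3))) (b (b (c (l 392083485399) (l 395841577895)) (l 3)) (l 3)))) (a (b (a (b (l 16755216) (a (l 16760032) (l 243907121079))) (a (b (l 245517725063) (l 371145539527)) (b (l 379735466199) (l 3)))) (a (a (b (l 241222764743) (l 280414317895)) (b (l 280951180167) (l 3))) (l 3))) (l 3))) (l 3)) (l 3)) (l 3)) (l 3)), by decide +kernel⟩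

theorem s31_mm_202_s : ∃ t, chk3 f_mm_202_s t 124 68 1 = true := ex3_a k22_mm_202_s k23_mm_202_s

theorem s32_mm_202_s : ∃ t, chk3 f_mm_202_s t 124 34 1 = true := ex3_b s31_mm_202_s k24_mm_202_s

theorem s33_mm_202_s : ∃ t, chk3 f_mm_202_s t 62 34 1 = true := ex3_a s32_mm_202_s k25_mm_202_s

theorem s34_mm_202_s : ∃ t, chk3 f_mm_202_s t 31 34 1 = true := ex3_a s33_mm_202_s k26_mm_202_s

theorem s35_mm_202_s : ∃ t, chk3 f_mm_202_s t 31 17 1 = true := ex3_b s34_mm_202_s k27_mm_202_s

theorem s36_mm_202_s : ∃ t, chk3 f_mm_202_s t 30 17 1 = true := ex3_b k20_mm_202_s k21_mm_202_s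

theorem s37_mm_202_s : ∃ t, chk3 f_mm_202_s t 15 17 1 = true := ex3_a s36_mm_202_s s35_mm_202_s

theorem s38_mm_202_s : ∃ t, chk3 f_mm_202_s t 252 132 1 = true := ex3_a k14_mm_202_s k15_mm_202_s

theorem s39_mm_202_s : ∃ t, chk3 f_mm_202_s t 252 66 1 = true := ex3_b s38_mm_202_s k16_mm_202_s

theorem s40_mm_202_s : ∃ t, chk3 f_mm_202_s t 126 66 1 = true := ex3_a s39_mm_202_s k17_mm_202_s

theorem s41_mm_202_s : ∃ t, chk3 f_mm_202_s t 126 33 1 = true := ex3_b s40_mm_202_s k18_mm_202_s

theorem s42_mm_202_s : ∃ t, chk3 f_mm_202_s t 63 33 1 = true := ex3_a s41_mm_202_s k19_mm_202_s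

theorem s43_mm_202_s : ∃ t, chk3 f_mm_202_s t 125 67 1 = true := ex3_a k12_mm_202_s k13_mm_202_s

theorem s44_mm_202_s : ∃ t, chk3 f_mm_202_s t 62 67 1 = true := ex3_a k11_mm_202_s s43_mm_202_s

theorem s45_mm_202_s : ∃ t, chk3 f_mm_202_s t 62 33 1 = true := ex3_b k10_mm_202_s s44_mm_202_s

theorem s46_mm_202_s : ∃ t, chk3 f_mm_202_s t 31 33 1 = true := ex3_a s45_mm_202_s s42_mm_202_s

theorem s47_mm_202_s : ∃ t, chk3 f_mm_202_s t 31 16 1 = true := ex3_b k9_mm_202_s s46_mm_202_s

theorem s48_mm_202_s : ∃ t, chk3 f_mm_202_s t 15 16 1 = true := ex3_a k8_mm_202_s s47_mm_202_s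

theorem s49_mm_202_s : ∃ t, chk3 f_mm_202_s t 15 8 1 = true := ex3_b s48_mm_202_s s37_mm_202_s

theorem s50_mm_202_s : ∃ t, chk3 f_mm_202_s t 15 4 1 = true := ex3_b s49_mm_202_s k28_mm_202_s

theorem s51_mm_202_s : ∃ t, chk3 f_mm_202_s t 14 9 1 = true := ex3_b k6_mm_202_s k7_mm_202_s

theorem s52_mm_202_s : ∃ t, chk3 f_mm_202_s t 14 4 1 = true := ex3_b k5_mm_202_s s51_mm_202_s

theorem s53_mm_202_s : ∃ t, chk3 f_mm_202_s t 7 4 1 = true := ex3_a s52_mm_202_s s50_mm_202_s

theorem s54_mm_202_s : ∃ t, chk3 f_mm_202_s t 7 2 1 = true := ex3_b s53_mm_202_s k29_mm_202_s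

theorem s55_mm_202_s : ∃ t, chk3 f_mm_202_s t 13 2 1 = true := ex3_a k3_mm_202_s k4_mm_202_s

theorem s56_mm_202_s : ∃ t, chk3 f_mm_202_s t 6 2 1 = true := ex3_a k2_mm_202_s s55_mm_202_s

theorem s57_mm_202_s : ∃ t, chk3 f_mm_202_s t 3 2 1 = true := ex3_a s56_mm_202_s s54_mm_202_s

theorem s58_mm_202_s : ∃ t, chk3 f_mm_202_s t 3 1 1 = true := ex3_b s57_mm_202_s k30_mm_202_s

theorem s59_mm_202_s : ∃ t, chk3 f_mm_202_s t 2 1 1 = true := ex3_b k0_mm_202_s k1_mm_202_s

theorem s60_mm_202_s : ∃ t, chk3 f_mm_202_s t 1 1 1 = true := ex3_a s59_mm_202_s s58_mm_202_s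

theorem c_mm_202_s : CertNE 0 536870912 1073741824 536870912 991146299 28908434 3 eng mog cd0q2 cd5q2 pd0 false false false .pp 2 0 2
    ndB0q2 ndB5q2 pcB0 cut_mm_202_s Ext.none :=
  certNE1 (fam := false) (s1 := false) (s2 := false) (a := 2) (b := 0) (c := 2) (cn := .pp) (n1 := ndB0q2) (n2 := ndB5q2) (pc := pcB0) (cut := cut_mm_202_s) (xt := Ext.none) (P1 := 0) (W1 := 536870912) (P2 := 1073741824) (W2 := 536870912) (P3 := 991146299) (W3 := 28908434) (N0 := 3) (En := eng) (mo := mog) (C1 := cd0q2) (C2 := cd5q2) (C3 := pd0)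
    rfl (fun _ => rfl) s60_mm_202_s

noncomputable def cut_mm_203_s : Cut := Cut.of [[⟨4, 0, 0, 1449551462⟩]]

noncomputable def f_mm_203_s : ℕ → ℕ → ℕ → ℕ → Bool := onCell 0 536870912 0 1230186008 991146299 28908434
    (rowNE 3 eng mog cd0q2 cd5q3 pd0 0 false false false .up 2 0 3 (qsf 0 536870912 0 1230186008 0) ndB0q2 ndB5q3 pcB0 cut_mm_203_s Ext.none)

def k0_mm_203_s : ∃ t, chk3 f_mm_203_s t 1 1 1 = true :=
  ⟨(b (l 2) (b (l 2) (a (b (a (b (l 2) (b (l 2) (a (a (l 16676488) (b (l 16735000) (l 16714432))) (a (a (b (l 220284793463) (l 16750880)) (b (l 330343360807) (l 246054596071))) (l 3))))) (l 3)) (a (b (a (b (a (l 16588520) (b (l 16692896) (l 16670544))) (a (b (l 16596672) (l 16579128)) (b (l 16647512) (l 16623112)))) (b (a (b (a (l 16730088) (l 16754936)) (l 16720904)) (b (c (l 294373003447) (l 294373004231)) (a (l 176798241271) (b (l 293299229943) (l 266455694199))))) (c (a (l 16683960) (b (l 158544639431) (l 16726040))) (a (l 16689840) (b (l 158007771607) (l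 16728680)))))) (a (b (a (l 16529392) (b (l 16579760) (l 16562248))) (c (l 16548264) (l 16520656))) (b (a (b (l 16651584) (l 16626432)) (b (l 16703792) (l 16679648))) (a (b (c (l 16601712) (l 16607344)) (c (l 16587864) (l 16585992))) (b (l 16655160) (a (l 16616864) (l 16643648))))))) (b (a (b (l 3) (a (b (c (l 333564564439) (l 334638305671)) (a (b (l 252497036119) (l 16761704)) (l 331953964279))) (l 3))) (l 3)) (a (b (a (b (a (l 16744184) (b (l 263234460055) (l 221358504759))) (c (l 16733032) (l 16734528))) (a (b (l 351281306423) (b (l 272898124407) (l 251423282567))) (l 3))) (a (b (a (l 16695232) (l 16701872)) (l 16641760)) (b (a (c (l 16751032) (l 16751616)) (c (l 270750617143) (l 268603128615))) (a (l 16725664) (b (l 221358490903) (l 16748424)))))) (b (l 3) (a (a (b (l 3) (b (l 344301993623) (a (l 16749512) (l 285246158519)))) (l 3)) (l 3))))))) (l 3)))), by decide +kernel⟩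

theorem c_mm_203_s : CertNE 0 536870912 0 1230186008 991146299 28908434 3 eng mog cd0q2 cd5q3 pd0 false false false .up 2 0 3
    ndB0q2 ndB5q3 pcB0 cut_mm_203_s Ext.none :=
  certNE0 (fam := false) (s1 := false) (s2 := false) (a := 2) (b := 0) (c := 3) (cn := .up) (n1 := ndB0q2) (n2 := ndB5q3) (pc := pcB0) (cut := cut_mm_203_s) (xt := Ext.none) (P1 := 0) (W1 := 536870912) (P2 := 0) (W2 := 1230186008) (P3 := 991146299) (W3 := 28908434) (N0 := 3) (En := eng) (mo := mog) (C1 := cd0q2) (C2 := cd5q3) (C3 := pd0)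
    rfl k0_mm_203_s

noncomputable def cut_mm_213_s : Cut := Cut.of [[⟨4, 0, 0, 1449551462⟩]]

noncomputable def f_mm_213_s : ℕ → ℕ → ℕ → ℕ → Bool := onCell 0 536870912 0 1230186008 991146299 28908434
    (rowNE 3 eng mog cd0q2 cd5q3 pd1 0 false false false .pnn 2 1 3 (qsf 0 536870912 0 1230186008 1) ndB0q2 ndB5q3 pcB1 cut_mm_213_s Ext.none)

def k0_mm_213_s : ∃ t, chk3 f_mm_213_s t 1 1 1 = true :=
  ⟨(b (a (l 3) (b (l 5) (l 3))) (b (a (b (l 3) (a (l 3) (l 3))) (l 3)) (a (b (a (b (a (b (a (a (b (l 286319858871) (a (l 16745776) (l 251960115527))) (b (l 3) (l 344302003031))) (l 3)) (a (b (a (l 16716520) (c (l 241759546247) (l 243907035991))) (a (l 16649960) (l 16726528))) (a (b (l 370608665735) (b (l 282024909463) (l 253033848599))) (l 3)))) (l 3)) (b (a (a (b (a (l 16622104) (l 16637712)) (l 16537144)) (b (a (c (l 16735256) (l 16738064)) (b (l 297057297319) (l 268603131895))) (a (l 16647160) (b (l 151565291975) (l 16736432))))) (a (b (l 3) (c (l 358260623959) (l 355039400535)))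 (l 3))) (b (a (a (l 16504736) (c (l 16665392) (l 16672120))) (a (a (b (l 253570715463) (l 16746944)) (l 358797506887)) (l 3))) (l 1)))) (l 3)) (a (l 1) (b (a (l 1) (l 3)) (l 1)))) (l 3)))), by decide +kernel⟩

theorem c_mm_213_s : CertNE 0 536870912 0 1230186008 991146299 28908434 3 eng mog cd0q2 cd5q3 pd1 false false false .pnn 2 1 3
    ndB0q2 ndB5q3 pcB1 cut_mm_213_s Ext.none :=
  certNE0 (fam := false) (s1 := false) (s2 := false) (a := 2) (b := 1) (c := 3) (cn := .pnn) (n1 := ndB0q2) (n2 := ndB5q3) (pc := pcB1) (cut := cut_mm_213_s) (xt := Ext.none) (P1 := 0) (W1 := 536870912) (P2 := 0) (W2 := 1230186008) (P3 := 991146299) (W3 := 28908434) (N0 := 3) (En := eng) (mo := mog) (C1 := cd0q2) (C2 := cd5q3) (C3 := pd1)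
    rfl k0_mm_213_s

end Pool.Agent.Strip051.G.I9231_9500.Tab.CS.BB05

namespace Pool.Agent.Strip051.G.I9231_9500.Tab.CS.BB50

open Pool.Agent.Strip051.PB Pool.Agent.Strip051.PB.T
open Pool.Agent.Strip051.G.I9231_9500.Tab

noncomputable def cut_pp_001_s : Cut := Cut.of [[⟨4, 0, 0, 1449551462⟩]]

noncomputable def f_pp_001_s : ℕ → ℕ → ℕ → ℕ → Bool := onCell 0 536870912 536870912 536870912 991146299 28908434
    (rowNE 3 eng mog cd5q0 cd0q1 pd0 2 false true true .up 0 0 1 (qsf 0 536870912 536870912 536870912 0) ndB5q0 ndB0q1 pcB0 cut_pp_001_s Ext.none)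

def k0_pp_001_s : ∃ t, chk3 f_pp_001_s t 2 1 1 = true :=
  ⟨(b (l 3) (b (b (l 3) (l 2)) (l 2))), by decide +kernel⟩

def k1_pp_001_s : ∃ t, chk3 f_pp_001_s t 3 2 1 = true :=
  ⟨(a (l 3) (b (l 3) (a (b (l 3) (a (b (l 3) (b (a (l 3) (l 513416302215)) (a (b (l 3) (l 334638231767)) (a (l 283098644407) (l 16718920))))) (b (b (l 3) (a (l 3) (b (l 329269536663) (l 16729160)))) (a (b (b (l 321216476343) (l 265918772119)) (b (l 16746848) (l 16705752))) (b (b (l 16753448) (l 16733640)) (l 16682336)))))) (b (b (a (l 3) (a (l 3) (b (l 3) (l 323900806887)))) (a (b (l 3) (a (l 3) (l 320679580391))) (a (b (l 325511418695) (l 259476280263)) (b (l 266992483847) (l 16725352))))) (a (b (a (b (l 315847743943) (b (l 16759088) (l 16739832))) (b (b (l 16763832) (l 16745296)) (l 16715832))) (b (a (l 16709944) (l 16655384)) (a (l 16648840) (l 16636224)))) (b (a (b (l 16741944) (l 16661160)) (b (l 16687104) (l 16648424))) (c (l 16495960) (l 16503424)))))))), by decide +kernel⟩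

def k2_pp_001_s : ∃ t, chk3 f_pp_001_s t 6 6 1 = true :=
  ⟨(a (b (b (l 3) (a (l 3) (b (l 3) (a (l 3) (b (l 3) (a (b (l 3) (l 2)) (c (l 275582472759) (l 16733784)))))))) (a (l 2) (b (a (l 2) (a (l 2) (b (b (l 284105288807) (l 2)) (l 2)))) (l 2)))) (b (a (b (l 3) (c (a (b (b (l 3) (l 496773315047)) (b (l 315847765511) (l 16755488))) (b (b (l 324437685671) (l 206326151719)) (l 16734144))) (a (b (l 505363219063) (b (l 312626539143) (l 16755792))) (b (b (l 323900810391) (l 16733600)) (l 16734760))))) (b (b (a (l 3) (c (l 456507982215) (l 473150988247))) (a (b (a (l 3) (l 333027649943)) (a (l 325511463335) (l 16746152))) (c (b (l 16762992) (l 16743088)) (l 137606660871)))) (a (b (c (l 16743952) (l 16744424)) (c (l 16680768) (l 16681936))) (b (c (l 16690456) (l 16691464)) (l 16627592))))) (a (b (a (b (c (l 16744592) (l 16724392)) (l 292158132087)) (b (c (l 16670448) (l 16671776)) (l 16627736))) (b (a (l 2) (l 16604376)) (l 2))) (b (a (b (l 16617472) (l 16615552)) (b (l 16626208)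 (l 16581888))) (b (a (l 16570680) (l 16536528)) (l 16443712)))))), by decide +kernel⟩

def k3_pp_001_s : ∃ t, chk3 f_pp_001_s t 7 6 1 = true :=
  ⟨(a (b (b (a (a (b (c (l 262160646151) (l 261623777383)) (c (l 16720336) (l 16721384))) (b (a (l 16737496) (l 16700048)) (l 16645880))) (b (a (l 16674960) (l 16662504)) (a (l 16654464) (l 16620888)))) (b (a (a (l 16637072) (l 16645712)) (l 16510752)) (a (a (l 16636280) (l 16602664)) (l 16509320)))) (a (b (b (a (l 16592568) (l 16558648)) (l 16488096)) (b (l 16484056) (l 16436960))) (b (a (l 16480288) (l 16467144)) (b (l 16414992) (l 16345768))))) (b (a (a (b (l 16544528) (l 16501304)) (b (l 16531928) (l 16488736))) (b (a (l 16519512) (l 16507432)) (l 16354400))) (b (a (l 16268720) (l 16328704)) (a (c (l 16254328) (l 16242056)) (c (l 16260880) (l 16202568)))))), by decide +kernel⟩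

def k4_pp_001_s : ∃ t, chk3 f_pp_001_s t 3 7 1 = true :=
  ⟨(a (b (a (l 2) (b (a (l 2) (b (l 16438304) (l 2))) (l 2))) (l 2)) (b (a (b (a (b (a (l 16407192) (l 16370816)) (c (l 16343440) (l 16345736))) (c (l 16218984) (b (l 16324936) (l 16274728)))) (a (c (l 16292072) (l 16244976)) (c (l 16235312) (l 16196368)))) (b (a (c (l 16245016) (l 16231896)) (c (l 16193592) (l 16167456))) (a (c (l 16180784) (l 16129352)) (l 15992984)))) (a (b (a (l 2) (c (l 16170064) (l 16088552))) (l 2)) (b (a (c (l 16114592) (l 16021368)) (l 6)) (l 6))))), by decide +kernel⟩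

theorem s5_pp_001_s : ∃ t, chk3 f_pp_001_s t 3 6 1 = true := ex3_a k2_pp_001_s k3_pp_001_s

theorem s6_pp_001_s : ∃ t, chk3 f_pp_001_s t 3 3 1 = true := ex3_b s5_pp_001_s k4_pp_001_s

theorem s7_pp_001_s : ∃ t, chk3 f_pp_001_s t 3 1 1 = true := ex3_b k1_pp_001_s s6_pp_001_s

theorem s8_pp_001_s : ∃ t, chk3 f_pp_001_s t 1 1 1 = true := ex3_a k0_pp_001_s s7_pp_001_s

theorem c_pp_001_s : CertNE 0 536870912 536870912 536870912 991146299 28908434 3 eng mog cd5q0 cd0q1 pd0 false true true .up 0 0 1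
    ndB5q0 ndB0q1 pcB0 cut_pp_001_s Ext.none :=
  certNE2 (fam := false) (s1 := true) (s2 := true) (a := 0) (b := 0) (c := 1) (cn := .up) (n1 := ndB5q0) (n2 := ndB0q1) (pc := pcB0) (cut := cut_pp_001_s) (xt := Ext.none) (P1 := 0) (W1 := 536870912) (P2 := 536870912) (W2 := 536870912) (P3 := 991146299) (W3 := 28908434) (N0 := 3) (En := eng) (mo := mog) (C1 := cd5q0) (C2 := cd0q1) (C3 := pd0)
    rfl (fun _ => rfl) s8_pp_001_s

noncomputable def cut_pp_011_s : Cut := Cut.of [[⟨4, 0, 0, 1449551462⟩]]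

noncomputable def f_pp_011_s : ℕ → ℕ → ℕ → ℕ → Bool := onCell 536870912 536870912 536870912 536870912 991146299 28908434
    (rowNE 3 eng mog cd5q0 cd0q1 pd1 2 false true true .pnn 0 1 1 (qsf 0 536870912 536870912 536870912 1) ndB5q0 ndB0q1 pcB1 cut_pp_011_s Ext.none)

def k0_pp_011_s : ∃ t, chk3 f_pp_011_s t 2 2 1 = true :=
  ⟨(a (b (a (b (l 3) (a (b (l 3) (a (l 3) (b (l 3) (l 335175117607)))) (b (a (l 3) (b (l 3) (l 484425298295))) (b (a (l 462950462823) (a (l 306721006423) (l 16776256))) (a (a (l 300815427511) (l 16775848)) (l 16774336)))))) (b (a (a (l 3) (l 1)) (l 1)) (a (a (b (b (l 496236457623) (a (l 312089715367) (l 16776776))) (b (l 16775232) (l 16771352))) (b (b (a (l 274911403943) (l 1)) (l 16773872)) (l 16770624))) (b (a (l 287259448711) (l 1)) (a (l 16762648) (l 16750688)))))) (a (b (a (b (b (a (l 331953891751) (a (l 293836107207) (l 16775472))) (a (a (l 286319915223) (l 16774384)) (l 16770592))) (b (a (l 16767728) (l 16762000)) (l 16791192))) (a (b (a (l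 16771072) (l 16769128)) (l 16752632)) (b (l 16766848) (l 16748376)))) (b (a (a (l 16735792) (l 16729480)) (l 16723048)) (a (l 16734864) (l 16661224)))) (b (b (a (a (l 16763176) (l 16758704)) (a (l 16752312) (l 16742144))) (a (l 16722032) (l 16729232))) (a (b (l 16714296) (l 16674136)) (b (l 16701240) (l 16662960)))))) (b (a (b (l 1) (a (b (l 1) (l 252899776199)) (l 1))) (l 1)) (a (b (a (b (l 16710888) (l 16697072)) (b (l 16614240) (l 16632872))) (a (b (l 16672736) (l 16638224)) (b (l 16609064) (l 16579280)))) (b (a (b (l 1) (l 16552968)) (l 1)) (a (b (l 16517544) (a (l 16498032) (l 16429376))) (b (l 16237928) (l 16119488))))))), by decide +kernel⟩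

def k1_pp_011_s : ∃ t, chk3 f_pp_011_s t 2 3 1 = true :=
  ⟨(b (a (a (b (a (b (l 16637312) (l 16543296)) (b (l 16626896) (l 16554736))) (b (a (b (l 16495576) (c (l 16433928) (l 16444304))) (b (l 16490744) (l 16456872))) (a (b (l 16420336) (l 16410696)) (l 16425976)))) (b (b (a (l 16620408) (l 16612376)) (a (b (l 16568968) (l 16530872)) (b (l 16561856) (l 16520744)))) (b (a (a (l 16476688) (l 16473392)) (l 16452896)) (a (l 16417448) (l 16332472))))) (a (b (b (a (b (l 16602904) (l 16571000)) (a (l 16536888) (l 16472232))) (a (l 16409872) (l 16373552))) (a (b (l 16370472) (l 6)) (l 6))) (b (a (b (l 16343928) (l 16207424)) (b (l 16163008) (l 6))) (l 6)))) (a (b (a (b (a (l 16411128) (l 16376992)) (a (l 16235960) (l 6))) (b (l 6) (l 6))) (l 6)) (l 6))), by decide +kernel⟩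

def k2_pp_011_s : ∃ t, chk3 f_pp_011_s t 3 1 1 = true :=
  ⟨(b (a (b (l 1) (a (b (l 1) (a (b (l 1) (l 16152632)) (l 1))) (l 1))) (l 1)) (b (a (a (l 6) (l 6)) (l 6)) (l 6))), by decide +kernel⟩

theorem s3_pp_011_s : ∃ t, chk3 f_pp_011_s t 2 1 1 = true := ex3_b k0_pp_011_s k1_pp_011_s

theorem s4_pp_011_s : ∃ t, chk3 f_pp_011_s t 1 1 1 = true := ex3_a s3_pp_011_s k2_pp_011_s

theorem c_pp_011_s : CertNE 0 536870912 536870912 536870912 991146299 28908434 3 eng mog cd5q0 cd0q1 pd1 false true true .pnn 0 1 1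
    ndB5q0 ndB0q1 pcB1 cut_pp_011_s Ext.none :=
  certNE2 (fam := false) (s1 := true) (s2 := true) (a := 0) (b := 1) (c := 1) (cn := .pnn) (n1 := ndB5q0) (n2 := ndB0q1) (pc := pcB1) (cut := cut_pp_011_s) (xt := Ext.none) (P1 := 0) (W1 := 536870912) (P2 := 536870912) (W2 := 536870912) (P3 := 991146299) (W3 := 28908434) (N0 := 3) (En := eng) (mo := mog) (C1 := cd5q0) (C2 := cd0q1) (C3 := pd1)
    rfl (fun _ => rfl) s4_pp_011_s

noncomputable def cut_pp_012_s : Cut := Cut.of [[⟨4, 0, 0, 1449551462⟩]]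

noncomputable def f_pp_012_s : ℕ → ℕ → ℕ → ℕ → Bool := onCell 0 536870912 0 536870912 991146299 28908434
    (rowNE 3 eng mog cd5q0 cd0q2 pd1 0 false true true .pnp 0 1 2 (qsf 0 536870912 0 536870912 1) ndB5q0 ndB0q2 pcB1 cut_pp_012_s Ext.none)

def k0_pp_012_s : ∃ t, chk3 f_pp_012_s t 1 1 1 = true :=
  ⟨(b (l 6) (l 6)), by decide +kernel⟩

theorem c_pp_012_s : CertNE 0 536870912 0 536870912 991146299 28908434 3 eng mog cd5q0 cd0q2 pd1 false true true .pnp 0 1 2
    ndB5q0 ndB0q2 pcB1 cut_pp_012_s Ext.none :=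
  certNE0 (fam := false) (s1 := true) (s2 := true) (a := 0) (b := 1) (c := 2) (cn := .pnp) (n1 := ndB5q0) (n2 := ndB0q2) (pc := pcB1) (cut := cut_pp_012_s) (xt := Ext.none) (P1 := 0) (W1 := 536870912) (P2 := 0) (W2 := 536870912) (P3 := 991146299) (W3 := 28908434) (N0 := 3) (En := eng) (mo := mog) (C1 := cd5q0) (C2 := cd0q2) (C3 := pd1)
    rfl k0_pp_012_s

noncomputable def cut_pp_022_s : Cut := Cut.of [[⟨4, 0, 0, 1449551462⟩]]

noncomputable def f_pp_022_s : ℕ → ℕ → ℕ → ℕ → Bool := onCell 1073741824 536870912 0 536870912 991146299 28908434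
    (rowNE 3 eng mog cd5q0 cd0q2 pd2 2 false true true .pp 0 2 2 (qsf 0 536870912 0 536870912 2) ndB5q0 ndB0q2 pcB2 cut_pp_022_s Ext.none)

def k0_pp_022_s : ∃ t, chk3 f_pp_022_s t 1 1 1 = true :=
  ⟨(l 6), by decide +kernel⟩

theorem c_pp_022_s : CertNE 0 536870912 0 536870912 991146299 28908434 3 eng mog cd5q0 cd0q2 pd2 false true true .pp 0 2 2
    ndB5q0 ndB0q2 pcB2 cut_pp_022_s Ext.none :=
  certNE2 (fam := false) (s1 := true) (s2 := true) (a := 0) (b := 2) (c := 2) (cn := .pp) (n1 := ndB5q0) (n2 := ndB0q2) (pc := pcB2) (cut := cut_pp_022_s) (xt := Ext.none) (P1 := 0) (W1 := 536870912) (P2 := 0) (W2 := 536870912) (P3 := 991146299) (W3 := 28908434) (N0 := 3) (En := eng) (mo := mog) (C1 := cd5q0) (C2 := cd0q2) (C3 := pd2)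
    rfl (fun _ => rfl) k0_pp_022_s

end Pool.Agent.Strip051.G.I9231_9500.Tab.CS.BB50

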