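import Pool.Agent.Strip051.G.I9231_9500.Tab

/-! # Certificates B1 (generated) -/

set_option linter.all false
set_option maxRecDepth 100000

namespace Pool.Agent.Strip051.G.I9231_9500.Tab.C.BA00

open Pool.Agent.Strip051.PB Pool.Agent.Strip051.PB.T
open Pool.Agent.Strip051.G.I9231_9500.Tab

noncomputable def cut_pp_022 : Cut := Cut.of [[⟨3, 0, 0, 1449551462⟩], [⟨4, 0, 0, 3113851289⟩], [⟨0, 0, 0, 26843545⟩, ⟨1, 1, 0, 26843545⟩, ⟨2, 1, 0, 26843545⟩]]

noncomputable def f_pp_022 : ℕ → ℕ → ℕ → ℕ → Bool := onCell 1073741824 536870912 0 536870912 991146299 28908434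
    (rowB 3 eng mog cd0q0 cd0q2 pd2 2 true true true .pp 0 2 2 (qsf 0 536870912 0 536870912 2) ndB0q0 ndB0q2 pcB2 cut_pp_022 Ext.none)

def k0_pp_022 : ∃ t, chk3 f_pp_022 t 4 2 1 = true :=
  ⟨(b (l 1) (a (l 1) (a (l 1) (b (l 1) (a (l 1) (a (l 1) (b (l 1) (c (b (l 16146752) (l 16186464)) (b (l 16083352) (l 16127136)))))))))), by decide +kernel⟩

def k1_pp_022 : ∃ t, chk3 f_pp_022 t 10 2 1 = true :=
  ⟨(a (a (b (l 1) (a (b (l 1) (b (c (l 16150680) (l 16095952)) (c (b (l 16203392) (l 16240112)) (a (l 16156600) (l 16190056))))) (b (b (b (l 1) (l 16083848)) (c (l 16149728) (l 16104208))) (b (c (l 16210128) (l 16169408)) (c (l 16275376) (l 16239176)))))) (b (a (b (l 1) (l 16121792)) (b (l 16165936) (l 16190616))) (b (a (b (b (l 16142824) (l 16158904)) (l 16177376)) (b (l 16182416) (l 16267288))) (b (c (l 16191208) (l 16191240)) (c (a (l 16327304) (l 16377664)) (a (l 16302752) (l 16364144))))))) (a (b (b (l 16218968) (c (l 16293368) (l 16294592))) (a (b (b (l 16296224) (l 16334096)) (b (l 16376936) (l 16341032)))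 (b (b (l 16345936) (l 16398792)) (b (l 16393336) (l 16393368))))) (b (b (l 16283032) (b (l 16333488) (l 16319200))) (b (b (c (l 16432808) (l 16444288)) (b (l 16380800) (l 16372376))) (a (b (l 16428976) (l 16443512)) (b (l 16483256) (l 16484464))))))), by decide +kernel⟩

def k2_pp_022 : ∃ t, chk3 f_pp_022 t 11 2 1 = true :=
  ⟨(b (a (b (c (l 16238592) (l 16158272)) (a (b (l 16369248) (l 16254952)) (b (l 16197736) (c (l 16316256) (l 16207416))))) (b (a (c (l 16295232) (l 16198848)) (c (l 16213392) (l 16093504))) (a (b (c (l 16272856) (l 16163952)) (c (b (l 16265800) (l 16280360)) (b (l 16151792) (l 16169184)))) (b (c (l 16187648) (l 16053656)) (c (b (l 16188072) (l 16214792)) (b (l 16009032) (l 16084200))))))) (c (a (b (b (c (l 16293328) (l 16238200)) (a (l 16488016) (l 16377800))) (b (a (l 16492080) (l 16373784)) (a (a (l 16553808) (l 16508960)) (b (l 16467360) (l 16447000))))) (b (a (b (l 16315216) (l 16300096)) (b (l 16258176) (l 16191528))) (a (b (a (l 16423592) (l 16403880)) (c (l 16439424) (l 16388960)))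 (b (c (l 16399440) (l 16357568)) (b (a (l 16432416) (l 16421472)) (a (l 16464256) (l 16456048))))))) (a (b (a (a (l 16446448) (l 16353088)) (b (l 16301720) (l 16305472))) (a (a (b (l 16488480) (l 16499688)) (b (l 16448784) (l 16489440))) (b (l 16291320) (b (l 16414288) (l 16399472))))) (b (a (b (l 16212960) (l 16168792)) (b (l 16096776) (c (l 16240304) (l 16186728)))) (a (b (a (l 16351432) (l 16325400)) (c (l 16358384) (l 16326744))) (b (c (l 16314176) (l 16269304)) (a (b (l 16360616) (l 16400624)) (b (l 16345672) (l 16389128))))))))), by decide +kernel⟩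

def k3_pp_022 : ∃ t, chk3 f_pp_022 t 8 6 1 = true :=
  ⟨(l 1), by decide +kernel⟩

def k4_pp_022 : ∃ t, chk3 f_pp_022 t 18 12 1 = true :=
  ⟨(l 1), by decide +kernel⟩

def k5_pp_022 : ∃ t, chk3 f_pp_022 t 36 13 1 = true :=
  ⟨(b (l 1) (a (l 1) (a (b (l 1) (b (a (l 1) (c (c (l 16326456) (l 16292624)) (c (l 16263048) (l 16229872)))) (c (c (a (b (l 16352632) (a (l 16367144) (l 16371568))) (b (a (l 16359368) (l 16363832)) (l 16378152))) (a (b (l 16319736) (a (l 16335352) (l 16340304))) (b (a (l 16327272) (l 16332264)) (l 16326688)))) (c (a (b (l 16285880) (a (l 16302640) (a (l 16306752) (l 16309488)))) (b (b (l 16271240) (l 16282160)) (c (l 16324208) (l 16308296)))) (a (b (l 16251064) (a (l 16289968) (l 16285520))) (b (b (l 16239824) (l 16251448)) (l 16273528))))))) (a (b (l 1) (c (b (b (a (l 1) (l 16313336)) (c (l 16334520) (a (l 16319576) (l 16324608)))) (c (b (l 16370472) (l 16386840)) (b (l 16339688) (l 16336392)))) (b (b (c (l 16270224) (l 16234896)) (c (a (l 16286280) (l 16291856)) (a (l 16252040) (l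 16258184)))) (c (a (l 16306952) (l 16313664)) (b (l 16275432) (l 16285352)))))) (b (b (l 1) (c (c (l 16307464) (l 16278512)) (c (l 16245952) (l 16212384)))) (c (b (c (b (l 16326112) (l 16363112)) (b (l 16296440) (l 16332088))) (c (a (l 16364200) (l 16378992)) (b (l 16349472) (l 16345968)))) (b (c (b (a (l 16278736) (l 16284368)) (l 16300160)) (b (l 16234272) (l 16267328))) (c (a (l 16319024) (l 16325664)) (c (l 16326192) (l 16310576)))))))))), by decide +kernel⟩

def k6_pp_022 : ∃ t, chk3 f_pp_022 t 37 26 1 = true :=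
  ⟨(b (b (l 1) (a (l 1) (a (l 1) (a (c (l 16254640) (l 16182616)) (c (l 16265440) (l 16195952)))))) (b (a (l 1) (c (a (c (l 16274832) (l 16240088)) (c (l 16284152) (l 16251792))) (a (c (l 16204320) (l 16178024)) (c (l 16218472) (l 16205184))))) (a (a (l 1) (a (l 1) (b (l 1) (c (l 16285248) (l 16218320))))) (c (a (a (b (l 16274960) (l 16300664)) (l 16303248)) (c (l 16312464) (l 16282120))) (a (c (a (l 16242192) (l 16254144)) (l 16216288)) (c (l 16250896) (l 16239744))))))), by decide +kernel⟩

def k7_pp_022 : ∃ t, chk3 f_pp_022 t 74 27 1 = true :=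
  ⟨(b (b (b (a (l 1) (c (a (l 16291328) (l 16295496)) (a (a (l 16223216) (l 16229448)) (l 16238744)))) (c (a (c (l 16298024) (l 16265328)) (c (l 16311576) (l 16284736))) (a (c (l 16232280) (l 16197248)) (c (l 16256952) (l 16223000))))) (c (a (c (a (b (l 16324624) (l 16340328)) (l 16330544)) (a (b (l 16290944) (l 16307872)) (b (l 16301352) (l 16318064)))) (c (b (l 16326744) (l 16341984)) (c (l 16316928) (l 16306768)))) (a (c (a (b (l 16256272) (l 16274464)) (b (l 16267824) (l 16285776))) (a (b (l 16220616) (l 16240112)) (b (l 16233352) (l 16252576)))) (c (c (l 16291152) (l 16275312)) (a (l 16244944) (l 16257288)))))) (c (a (c (b (a (l 16353544) (l 16362384)) (a (a (l 16383272) (l 16387528)) (a (l 16391768) (l 16395992)))) (b (a (l 16325560) (l 16335440)) (a (b (l 16359136) (l 16355424)) (b (l 16368704) (l 16364784))))) (c (b (a (l 16371144) (l 16379832)) (a (a (l 16400192) (l 16404376)) (a (l 16408544) (l 16412696)))) (b (a (l 16345232) (l 16354920)) (a (b (l 16378176) (l 16379288)) (b (l 16387560) (l 16388464))))))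 (c (a (a (b (l 16298000) (a (l 16330960) (l 16336224))) (b (c (l 16320568) (l 16305144)) (a (l 16341456) (l 16346664)))) (b (b (l 16313664) (a (l 16332664) (l 16343272))) (a (b (l 16350632) (l 16358208)) (b (l 16361008) (l 16368344))))) (a (b (a (l 16268232) (l 16281592)) (a (c (l 16327080) (l 16322480)) (c (l 16343568) (l 16334256)))) (b (a (l 16293520) (l 16305312)) (a (b (l 16322304) (l 16331144)) (b (l 16333696) (l 16342264)))))))), by decide +kernel⟩

def k8_pp_022 : ∃ t, chk3 f_pp_022 t 75 27 1 = true :=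
  ⟨(c (b (a (c (b (l 16333176) (b (l 16344864) (l 16359752))) (b (l 16307976) (c (l 16331192) (l 16327344)))) (b (c (l 16351544) (l 16328496)) (c (b (l 16383672) (l 16377232)) (b (l 16335960) (l 16362016))))) (c (a (b (a (l 16388448) (l 16396992)) (a (b (l 16421712) (l 16437016)) (l 16433952))) (b (a (l 16405464) (l 16413880)) (a (l 16441752) (l 16448504)))) (a (b (a (l 16367152) (l 16376664)) (a (a (l 16392296) (l 16396872)) (a (l 16401424) (l 16405960)))) (b (a (l 16386104) (l 16390208)) (a (a (l 16410472) (l 16414968)) (a (l 16419440) (l 16423896))))))) (b (c (a (b (l 16281888) (c (l 16312808) (l 16298056))) (b (l 16304624) (c (l 16334056) (l 16309888)))) (a (b (l 16249672) (a (l 16269496) (l 16271096))) (b (l 16274672) (c (l 16296008) (l 16302904))))) (c (a (b (c (l 16353184) (l 16340904)) (a (b (l 16371272) (l 16378376)) (b (l 16381440) (l 16388312)))) (b (c (l 16372216) (l 16362240)) (a (b (l 16391504) (l 16398144)) (a (l 16402232) (l 16407136))))) (a (b (a (l 16316984) (l 16328536)) (a (b (l 16344968)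 (l 16353264)) (b (l 16356112) (l 16364144)))) (b (a (l 16339960) (l 16351280)) (a (a (l 16373568) (l 16378984)) (a (l 16384384) (l 16389752)))))))), by decide +kernel⟩

def k9_pp_022 : ∃ t, chk3 f_pp_022 t 19 12 1 = true :=
  ⟨(a (a (b (l 1) (b (l 1) (c (a (b (l 1) (l 16225880)) (b (l 16221944) (l 16248552))) (a (l 16168440) (b (l 16150440) (l 16180528)))))) (b (b (l 1) (c (l 16203832) (l 16137544))) (b (c (a (l 16217400) (l 16230888)) (a (l 16157000) (l 16165624))) (c (a (b (l 16245080) (l 16270912)) (l 16301432)) (a (l 16224352) (l 16242128)))))) (b (c (a (b (l 16196128) (a (l 16207672) (l 16232544))) (b (l 16227304) (l 16269288))) (a (b (l 16107776) (a (l 16142480) (l 16173144))) (b (l 16172112) (l 16218304)))) (c (a (b (a (l 16254552) (l 16277928)) (a (l 16323592) (l 16324512))) (b (a (l 16301032) (l 16323840)) (a (l 16346160) (l 16367536)))) (a (b (c (l 16223752) (l 16194400)) (c (l 16275000) (l 16248360))) (b (c (l 16277688) (l 16253688)) (c (l 16325360) (l 16303608))))))), by decide +kernel⟩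

def k10_pp_022 : ∃ t, chk3 f_pp_022 t 38 26 1 = true :=
  ⟨(c (b (b (a (a (b (l 16225616) (l 16239520)) (l 16275440)) (a (l 16297040) (l 16318344))) (a (a (l 16286736) (l 16302616)) (a (l 16323448) (l 16344008)))) (b (a (a (a (l 16304592) (l 16314848)) (a (l 16325032) (l 16335136))) (a (a (l 16345176) (l 16355144)) (l 16377848))) (a (a (a (l 16333328) (l 16343200)) (a (l 16353000) (l 16362728))) (a (a (l 16372392) (l 16381992)) (a (l 16391528) (l 16401000)))))) (b (a (a (b (l 16197072) (l 16226224)) (c (l 16242360) (l 16210120))) (c (a (l 16267176) (l 16291608)) (a (l 16237424) (l 16264280)))) (a (c (a (b (l 16263656) (l 16295128)) (b (l 16287464) (l 16317992))) (a (b (l 16231848) (l 16265336)) (b (l 16258032) (l 16290464)))) (c (a (b (l 16310880) (l 16340488)) (b (l 16333936) (l 16362632))) (a (b (l 16283752) (l 16315144)) (l 16347832)))))), by decide +kernel⟩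

def k11_pp_022 : ∃ t, chk3 f_pp_022 t 38 27 2 = true :=
  ⟨(a (b (c (a (b (l 16369648) (b (l 16401240) (l 16394448))) (b (l 16387488) (l 16425488))) (a (b (l 16348680) (b (l 16355520) (l 16370680))) (b (l 16373784) (l 16404440)))) (a (b (c (a (l 16422224) (l 16430520)) (a (l 16399480) (l 16408680))) (c (a (l 16456512) (l 16464456)) (a (a (l 16428328) (l 16432744)) (l 16449168)))) (b (c (c (l 16447872) (l 16437776)) (a (l 16417808) (l 16426864))) (c (a (l 16472344) (l 16474944)) (a (l 16458544) (l 16467208)))))) (b (b (a (c (l 16405104) (l 16393344)) (c (l 16412016) (l 16412640))) (a (c (l 16442416) (l 16421896)) (c (l 16459144) (l 16440408)))) (b (a (c (c (l 16453216) (l 16454448)) (c (l 16445064) (l 16446024))) (c (a (l 16481648) (l 16489632)) (c (l 16472856) (l 16464184)))) (a (c (a (l 16482728) (l 16490472)) (a (l 16475808) (l 16484336))) (c (a (l 16508656) (l 16516320)) (a (l 16492816) (l 16501240))))))), by decide +kernel⟩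

def k12_pp_022 : ∃ t, chk3 f_pp_022 t 38 27 3 = true :=
  ⟨(a (b (c (a (b (l 16326944) (c (l 16344448) (l 16331784))) (b (l 16348880) (b (l 16372264) (l 16367000)))) (a (b (l 16299200) (a (l 16327608) (l 16339232))) (b (l 16323272) (l 16364320)))) (c (a (b (c (l 16392192) (l 16385800)) (a (a (l 16412016) (l 16416872)) (a (l 16416464) (l 16421280)))) (b (a (l 16406736) (l 16416696)) (a (l 16440264) (l 16448456)))) (a (b (a (l 16362488) (l 16373584)) (a (a (l 16395088) (l 16400400)) (a (l 16405688) (l 16410952)))) (b (a (l 16384576) (l 16395464)) (a (l 16423712) (l 16434416)))))) (b (b (a (c (l 16370456) (l 16346912)) (c (l 16391696) (l 16370152))) (a (c (l 16406024) (l 16384312)) (c (l 16421120) (l 16401288)))) (c (a (b (a (l 16426576) (l 16436376)) (a (l 16457880) (l 16467232))) (b (a (l 16446096) (l 16455744)) (a (l 16476512) (l 16485720)))) (b (a (a (l 16406256) (l 16416952)) (a (l 16427552) (l 16438072))) (a (a (l 16444696) (l 16449640)) (a (l 16459744) (l 16469760))))))), by decide +kernel⟩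

def k13_pp_022 : ∃ t, chk3 f_pp_022 t 39 26 1 = true :=
  ⟨(c (a (b (a (b (l 16339384) (l 16364312)) (b (l 16360176) (l 16384376))) (a (c (a (l 16408112) (l 16417168)) (l 16407640)) (c (l 16441160) (l 16422360)))) (b (a (b (l 16380744) (l 16404232)) (l 16434760)) (a (c (l 16448544) (l 16431616)) (c (l 16466216) (l 16451104))))) (a (a (b (c (l 16315680) (l 16290696)) (c (l 16388920) (l 16369592))) (b (c (l 16339416) (l 16316712)) (c (l 16403008) (l 16372632)))) (a (b (c (l 16362840) (l 16342352)) (c (l 16414200) (l 16396288))) (b (l 16403016) (c (l 16435552) (l 16419560)))))), by decide +kernel⟩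

def k14_pp_022 : ∃ t, chk3 f_pp_022 t 39 27 1 = true :=
  ⟨(a (c (b (b (a (c (l 16450200) (l 16431680)) (c (l 16467248) (l 16450496))) (a (c (l 16475696) (l 16458680)) (c (l 16492096) (l 16476736)))) (b (a (c (l 16501536) (a (l 16481688) (l 16490384))) (c (l 16517288) (l 16503344))) (a (c (a (l 16523944) (l 16531528)) (a (l 16509608) (l 16517936))) (c (a (l 16539088) (l 16546616)) (a (l 16526208) (l 16534448)))))) (b (b (a (c (l 16412616) (l 16393016)) (c (l 16433256) (l 16415528))) (a (c (l 16441160) (l 16423152)) (c (l 16460928) (l 16444672)))) (b (a (c (a (l 16465328) (l 16474840)) (a (l 16448504) (l 16458848))) (c (l 16494232) (l 16484712))) (c (a (a (l 16494864) (l 16503944)) (a (l 16512960) (l 16521928))) (a (a (l 16479696) (l 16489552)) (a (l 16499336) (l 16509048))))))) (c (b (c (a (b (l 16484152) (l 16508360)) (b (l 16500872) (l 16524456))) (b (a (l 16469112) (l 16487488)) (a (l 16494608) (l 16512248)))) (b (a (c (l 16532928) (l 16520472)) (c (l 16548400) (l 16537392))) (a (c (l 16563104) (a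 (l 16542648) (l 16550808))) (c (l 16572744) (l 16574088))))) (b (c (b (a (l 16453632) (l 16473712)) (a (l 16480448) (l 16499680))) (b (a (l 16437720) (l 16459552)) (a (l 16465896) (l 16486768)))) (b (c (a (l 16507664) (l 16526056)) (a (l 16494488) (l 16514408))) (c (a (a (l 16530840) (l 16539696)) (a (l 16548488) (l 16557184))) (a (a (l 16518696) (l 16528280)) (a (l 16537768) (l 16547160)))))))), by decide +kernel⟩

def k15_pp_022 : ∃ t, chk3 f_pp_022 t 16 14 1 = true :=
  ⟨(l 1), by decide +kernel⟩

def k16_pp_022 : ∃ t, chk3 f_pp_022 t 17 28 2 = true :=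
  ⟨(a (l 1) (a (l 1) (b (l 1) (a (b (l 1) (a (b (l 1) (c (a (l 16419944) (b (l 16440384) (l 16449720))) (b (a (l 1) (l 16412688)) (a (l 16418248) (l 16422832))))) (c (b (b (l 16407112) (a (l 16435248) (l 16439400))) (a (l 16433440) (l 16453264))) (b (b (a (l 1) (l 16401848)) (a (l 16407224) (l 16411856))) (b (a (l 16417304) (l 16421880)) (l 16413928)))))) (a (b (b (l 1) (c (b (l 16397200) (a (l 16425200) (l 16429384))) (a (l 16375872) (b (l 16391360) (l 16401232))))) (c (b (a (l 16417968) (l 16443064)) (l 16448856)) (b (b (a (l 16406496) (l 16411120)) (l 16397768)) (b (l 16412960) (l 16422920))))) (b (a (b (c (l 16410944) (l 16365616)) (c (l 16408048) (c (l 16408048) (l 16393816)))) (b (c (l 16399456) (b (l 16381208) (l 16390952))) (c (l 16433184) (l 16405592)))) (c (b (l 16438712) (l 16456872)) (b (b (l 16397016) (l 16412088)) (b (l 16421928) (l 16431784)))))))))), by decide +kernel⟩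

def k17_pp_022 : ∃ t, chk3 f_pp_022 t 34 58 2 = true :=
  ⟨(l 1), by decide +kernel⟩

def k18_pp_022 : ∃ t, chk3 f_pp_022 t 70 58 2 = true :=
  ⟨(b (a (l 1) (a (b (l 1) (c (a (l 16451960) (b (l 16461728) (l 16471312))) (a (b (l 1) (l 16441352)) (b (l 16435440) (l 16445864))))) (c (b (a (l 16435792) (b (l 16450896) (l 16460360))) (a (l 16460080) (l 16474592))) (b (a (l 16413968) (b (l 16423888) (l 16434168))) (b (l 16430096) (l 16436832)))))) (b (a (a (l 1) (c (a (l 16463208) (b (l 16472872) (l 16482592))) (a (b (l 1) (l 16453456)) (b (l 16447360) (l 16457920))))) (c (a (b (l 16457944) (l 16488568)) (l 16481176)) (a (b (l 16440968) (l 16454080)) (b (l 16452440) (l 16462824))))) (a (a (c (a (l 16477400) (b (l 16484344) (l 16494192))) (a (b (l 1) (l 16465920)) (b (l 16459640) (l 16470352)))) (c (c (l 16501024) (l 16489392)) (b (l 16455816) (l 16466448)))) (c (a (l 16497840) (l 16505584)) (a (b (l 16464584) (l 16475112)) (b (l 16473232) (l 16483656))))))), by decide +kernel⟩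

def k19_pp_022 : ∃ t, chk3 f_pp_022 t 71 58 2 = true :=
  ⟨(a (b (c (a (b (a (l 16443984) (l 16463768)) (l 16470080)) (b (l 16459312) (l 16477968))) (a (a (b (l 16423088) (l 16454064)) (b (l 16438080) (l 16458472))) (b (b (l 16424008) (l 16434112)) (b (l 16444232) (l 16459608))))) (c (a (b (l 16494232) (l 16513232)) (b (l 16501944) (l 16523384))) (a (b (b (l 16461168) (l 16471448)) (b (l 16481752) (l 16492072))) (b (b (l 16469768) (l 16479944)) (a (l 16493184) (l 16497328)))))) (b (c (a (b (l 16467264) (l 16490984)) (b (l 16475104) (l 16498648))) (a (b (b (l 16432896) (l 16442896)) (b (l 16458152) (l 16468192))) (b (b (l 16441664) (l 16451552)) (a (l 16469560) (l 16473784))))) (c (a (b (l 16509544) (l 16530816)) (b (l 16518352) (b (l 16525640) (l 16534904)))) (a (b (a (l 16481192) (l 16485368)) (a (l 16501440) (l 16505520))) (b (a (l 16489520) (l 16493640)) (a (l 16509568) (l 16513584))))))), by decide +kernel⟩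

def k20_pp_022 : ∃ t, chk3 f_pp_022 t 34 59 2 = true :=
  ⟨(a (a (l 1) (b (l 1) (a (l 1) (a (l 1) (b (l 1) (b (l 1) (c (l 16536224) (l 16504816)))))))) (b (a (a (l 1) (a (l 1) (b (l 1) (c (l 16494944) (l 16476816))))) (c (a (b (l 16485904) (a (b (l 16504320) (l 16514472)) (b (l 16508280) (l 16518392)))) (b (a (b (l 16492152) (l 16502168)) (b (l 16496144) (l 16506120))) (l 16513952))) (a (b (a (l 1) (l 16468872)) (a (b (l 16480936) (l 16491992)) (b (l 16485328) (l 16496336)))) (b (a (b (l 16467856) (l 16478768)) (b (l 16472296) (l 16483152))) (b (l 16481384) (l 16492312)))))) (a (b (a (a (l 1) (c (l 16512792) (l 16491696))) (c (a (b (l 16516824) (l 16527112)) (b (l 16520752) (l 16531000))) (a (b (l 16494392) (l 16505600)) (b (l 16498744) (l 16509904))))) (a (c (a (b (l 16529672) (l 16540104)) (l 16535480)) (a (b (l 16497752) (l 16519600)) (b (l 16512552) (l 16523864)))) (c (b (l 16528872) (l 16539200)) (a (l 16511984) (l 16516216))))) (c (a (b (l 16529064) (c (l 16556808) (l 16547384))) (b (l 16536720)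 (l 16560248))) (a (b (b (l 16494736) (l 16505824)) (b (l 16516936) (l 16528072))) (b (b (l 16503264) (l 16514248)) (a (l 16528720) (l 16532824)))))))), by decide +kernel⟩

def k21_pp_022 : ∃ t, chk3 f_pp_022 t 70 59 2 = true :=
  ⟨(b (a (c (a (b (l 16501800) (l 16521672)) (b (l 16509592) (l 16531912))) (a (b (b (l 16468408) (l 16479192)) (b (l 16489992) (l 16500816))) (b (b (l 16477096) (l 16487776)) (a (l 16501744) (l 16505928))))) (c (a (b (l 16517272) (l 16540728)) (b (l 16527464) (b (l 16523624) (l 16543808)))) (a (b (b (l 16485664) (l 16496240)) (a (l 16510088) (l 16514208))) (b (a (l 16497256) (l 16501424)) (a (l 16518304) (l 16522368)))))) (a (c (a (b (l 16545584) (b (l 16551456) (l 16561528))) (b (l 16554336) (b (l 16558768) (l 16568760)))) (a (b (a (l 16515032) (l 16519184)) (a (l 16536904) (l 16540944))) (b (a (l 16523296) (l 16527384)) (a (l 16544960) (l 16559432))))) (c (b (a (b (l 16546264) (l 16556112)) (b (l 16553544) (l 16563296))) (a (b (l 16565984) (l 16575880)) (a (l 16576240) (l 16590224))))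 (b (a (a (l 16531440) (l 16535464)) (a (l 16539456) (l 16548656))) (a (a (l 16563384) (l 16567304)) (c (l 16566528) (l 16563984))))))), by decide +kernel⟩

def k22_pp_022 : ∃ t, chk3 f_pp_022 t 71 59 2 = true :=
  ⟨(b (a (c (a (b (l 16535592) (b (l 16541448) (l 16551064))) (b (b (l 16529696) (l 16539176)) (b (l 16548680) (l 16558216)))) (a (b (a (l 16505552) (l 16509656)) (a (l 16526400) (l 16530400))) (b (a (l 16513728) (l 16517768)) (a (l 16534368) (l 16543552))))) (c (a (b (b (l 16536992) (l 16546392)) (b (l 16555808) (l 16565256))) (b (b (l 16544184) (l 16553496)) (a (l 16565776) (l 16569240)))) (a (b (a (l 16521776) (l 16525760)) (a (l 16547464) (l 16551344))) (b (a (l 16534952) (l 16538864)) (c (l 16555816) (l 16553112)))))) (b (a (c (a (b (l 16560712) (l 16570384)) (a (l 16570824) (l 16574304))) (a (a (l 16552592) (l 16556488)) (c (l 16560960) (l 16558328)))) (c (a (a (l 16577760) (l 16581192)) (a (l 16584600) (l 16593224))) (a (c (l 16573648) (l 16566128)) (c (l 16580968) (l 16573800))))) (b (a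 (c (a (l 16580080) (l 16586976)) (a (l 16570288) (l 16577872))) (c (a (l 16593768) (l 16605688)) (a (l 16585344) (l 16595312)))) (a (c (a (l 16589816) (l 16596624)) (a (l 16580816) (l 16588312))) (l 14))))), by decide +kernel⟩

def k23_pp_022 : ∃ t, chk3 f_pp_022 t 17 28 3 = true :=
  ⟨(a (l 1) (a (l 1) (b (l 1) (a (b (l 1) (a (b (l 1) (a (b (l 1) (c (l 16390096) (l 16361168))) (b (c (l 16384200) (l 16354912)) (c (l 16395168) (l 16366728))))) (a (b (b (l 1) (c (l 16378400) (l 16348768))) (c (b (l 16389296) (l 16400208)) (a (l 16355816) (l 16367760)))) (c (b (b (l 16372696) (l 16383520)) (l 16389296)) (b (b (l 16342728) (l 16354384)) (l 16361408)))))) (a (b (b (l 1) (a (b (l 1) (c (l 16367096) (l 16336800))) (b (c (l 16361592) (l 16330984)) (c (l 16372264) (l 16352960))))) (c (b (a (b (l 16377840) (l 16388600)) (l 16377808)) (a (l 16394288) (l 16399240))) (b (b (a (l 16358864) (l 16353984)) (l 16352248)) (a (l 16366888) (l 16372328))))) (b (b (a (b (l 1) (c (l 16356184) (l 16325280))) (b (c (l 16350872)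 (l 16319680)) (c (l 16361392) (l 16331008)))) (c (b (a (l 16366776) (l 16371936)) (l 16365528)) (a (b (l 16336688) (l 16348112)) (l 16337544)))) (c (b (a (l 16382848) (l 16387856)) (a (l 16404160) (l 16409048))) (b (a (l 16354792) (l 16360280)) (a (l 16377720) (l 16385696)))))))))), by decide +kernel⟩

def k24_pp_022 : ∃ t, chk3 f_pp_022 t 34 58 3 = true :=
  ⟨(l 1), by decide +kernel⟩

def k25_pp_022 : ∃ t, chk3 f_pp_022 t 70 58 3 = true :=
  ⟨(b (a (l 1) (a (b (l 1) (c (a (a (l 16407776) (l 16400456)) (b (l 16408400) (l 16419680))) (b (a (l 1) (l 16385848)) (a (l 16391240) (l 16392760))))) (a (b (b (l 1) (c (l 16402200) (l 16384496))) (c (b (l 16413400) (l 16424616)) (a (l 16382912) (l 16393488)))) (b (c (b (l 16396096) (l 16407224)) (b (l 16378016) (l 16379520))) (c (l 16413456) (l 16387056)))))) (b (a (a (l 1) (a (c (c (l 16428504) (l 16415184)) (c (l 16401680) (l 16387992))) (c (b (a (l 16419864) (l 16422352)) (l 16432544)) (b (a (l 16392760) (l 16395488)) (l 16406464))))) (c (a (a (l 16425192) (l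 16426152)) (a (l 16431000) (l 16435816))) (a (c (l 16407024) (l 16393936)) (a (l 16411112) (l 16416384))))) (a (a (a (b (l 1) (c (a (l 16439720) (l 16442168)) (l 16404784))) (c (b (a (l 16433000) (l 16435456)) (l 16445824)) (b (a (l 16406760) (l 16409456)) (l 16420616)))) (c (c (l 16442976) (l 16430664)) (c (l 16418176) (l 16410768)))) (c (a (a (l 16444056) (l 16448824)) (a (l 16453560) (l 16458256))) (a (a (l 16425016) (l 16430240)) (a (l 16435416) (l 16440560))))))), by decide +kernel⟩

def k26_pp_022 : ∃ t, chk3 f_pp_022 t 71 58 3 = true :=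
  ⟨(b (a (c (a (b (a (b (l 16401144) (l 16412208)) (l 16401176)) (a (l 16418352) (l 16423216))) (b (a (l 16406120) (l 16411024)) (a (l 16428040) (l 16432832)))) (a (b (b (a (l 16373072) (l 16378568)) (l 16377224)) (a (l 16392424) (l 16402992))) (b (a (l 16379432) (l 16384816)) (a (l 16408280) (l 16413528))))) (c (a (b (a (l 16415904) (l 16420736)) (a (l 16437592) (l 16442312))) (b (a (l 16425544) (l 16430312)) (a (l 16446992) (l 16451640)))) (a (b (a (l 16395400) (l 16400704)) (a (l 16418736) (l 16423904))) (b (a (l 16405960) (l 16411184)) (c (l 16432144) (l 16420496)))))) (c (a (a (b (a (l 16440592) (l 16445336)) (a (l 16462912) (l 16472784))) (b (a (l 16450048) (l 16454720)) (a (l 16477376) (l 16481928)))) (a (b (a (l 16459352) (l 16469200)) (c (l 16488512) (l 16478360))) (b (a (l 16473768) (l 16478296)) (c (l 16497208) (l 16492704))))) (a (a (b (a (l 16421624) (l 16426816)) (c (l 16448576) (l 16437280))) (b (a (l 16431968) (l 16437080)) (c (l 16458392) (l 16447536)))) (a (b (c (l 16445048) (l 16433776))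 (c (l 16468064) (l 16462872))) (b (c (l 16454816) (l 16443984)) (c (l 16482816) (l 16472800))))))), by decide +kernel⟩

def k27_pp_022 : ∃ t, chk3 f_pp_022 t 34 59 3 = true :=
  ⟨(a (a (l 1) (b (l 1) (a (l 1) (a (l 1) (b (l 1) (b (l 1) (c (l 16485928) (a (l 16470384) (l 16472976))))))))) (b (b (a (l 1) (a (a (l 1) (c (l 16433400) (l 16428696))) (c (a (b (l 16442872) (a (l 16453480) (l 16455904))) (b (a (l 16446544) (l 16448984)) (l 16459528))) (b (a (l 16417192) (l 16412072)) (a (l 16419464) (l 16435240)))))) (a (a (l 1) (b (l 1) (c (l 16454744) (l 16431928)))) (a (c (b (a (l 16456880) (l 16451240)) (a (l 16458384) (l 16473656))) (b (a (l 16432168) (l 16426984)) (a (l 16434616) (l 16450336)))) (c (a (l 16461984) (l 16466728)) (a (l 16443888) (l 16449080)))))) (a (b (b (a (l 1) (a (c (l 16471320) (l 16447608)) (c (l 16465632) (l 16442376)))) (a (a (l 1) (c (l 16478696) (l 16455512))) (c (a (l 16483472) (l 16488208)) (a (l 16450248) (l 16465912))))) (a (c (b (a (l 16475704) (l 16490936)) (c (l 16506136)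 (l 16495552))) (a (b (l 16453048) (l 16476848)) (b (l 16468728) (l 16481976)))) (c (a (l 16496512) (l 16501160)) (c (l 16477848) (l 16467176))))) (c (a (b (a (l 16476408) (l 16481104)) (a (l 16511024) (l 16515600))) (b (a (l 16485768) (l 16495640)) (c (l 16516680) (l 16507120)))) (a (b (a (l 16464560) (l 16469696)) (c (l 16487720) (l 16487960))) (b (c (l 16472200) (l 16461440)) (c (l 16502672) (l 16498088)))))))), by decide +kernel⟩

def k28_pp_022 : ∃ t, chk3 f_pp_022 t 70 59 3 = true :=
  ⟨(a (b (c (a (b (a (l 16447984) (l 16452776)) (a (l 16471440) (l 16476112))) (b (a (l 16457536) (l 16462256)) (a (l 16480752) (l 16490592)))) (a (b (a (l 16428944) (l 16434184)) (a (l 16454232) (l 16459344))) (b (a (l 16439392) (l 16444552)) (c (l 16467080) (l 16456256))))) (c (a (b (a (l 16500232) (l 16504784)) (c (l 16525424) (l 16521512))) (b (c (l 16511120) (l 16501464)) (c (l 16539280) (l 16530520)))) (a (b (c (l 16482024) (l 16471680)) (c (l 16517472) (l 16508064))) (b (c (l 16496928) (l 16492256)) (c (l 16526872)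 (l 16517872)))))) (b (c (a (b (a (l 16466944) (l 16471592)) (a (l 16495160) (l 16499696))) (b (a (l 16481448) (l 16486024)) (c (l 16506024) (l 16496312)))) (a (b (a (l 16449680) (l 16454760)) (c (l 16476848) (l 16466456))) (b (c (l 16462480) (l 16451624)) (c (l 16491704) (l 16481728))))) (c (a (b (c (l 16519816) (l 16515808)) (c (l 16547752) (l 16544616))) (b (c (l 16533624) (l 16524768)) (c (l 16561336) (l 16553336)))) (a (b (c (l 16506432) (l 16502176)) (c (l 16536128) (l 16527520))) (b (c (l 16521032) (l 16511928)) (c (l 16545224) (l 16537000))))))), by decide +kernel⟩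

def k29_pp_022 : ∃ t, chk3 f_pp_022 t 71 59 3 = true :=
  ⟨(b (c (a (a (b (a (l 16490568) (l 16495080)) (c (l 16514672) (l 16510608))) (b (c (l 16501384) (l 16491640)) (c (l 16528432) (l 16519512)))) (a (b (c (l 16509992) (l 16505888)) (c (l 16536816) (l 16528280))) (b (c (l 16523704) (l 16514752)) (c (l 16545064) (l 16536896))))) (a (a (b (c (l 16472200) (l 16461768)) (c (l 16501168) (l 16491600))) (b (c (l 16487008) (l 16476992)) (c (l 16510472) (l 16506544)))) (a (b (c (l 16496416) (l 16486808)) (c (l 16519616) (l 16516088))) (b (c (l 16505664) (l 16496464)) (c (l 16533856) (l 16525464)))))) (b (a (c (a (c (l 16542048) (l 16533576)) (c (l 16550344) (l 16547488))) (a (c (l 16530232) (l 16521528)) (c (l 16539280) (l 16530960)))) (c (a (c (l 16558504) (l 16556008)) (c (l 16571768) (l 16564392))) (a (c (l 16548168) (l 16540224)) (c (l 16556912) (l 16549336))))) (b (a (c (a (l 16557432) (l 16565736)) (a (l 16542840) (l 16553192))) (c (a (l 16575216) (l 16583240)) (a (l 16562072) (l 16571456)))) (a (c (a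 (l 16568792) (l 16576984)) (a (l 16556360) (l 16565272))) (l 14))))), by decide +kernel⟩

def k30_pp_022 : ∃ t, chk3 f_pp_022 t 16 30 1 = true :=
  ⟨(a (l 1) (b (a (l 1) (a (l 1) (b (l 1) (a (l 1) (b (l 1) (b (a (l 1) (b (a (l 1) (c (l 16563936) (l 16533008))) (c (a (l 16567552) (l 16572168)) (c (l 16539592) (l 16521424))))) (l 14))))))) (b (a (l 1) (b (a (a (l 1) (l 14)) (l 14)) (l 14))) (l 14)))), by decide +kernel⟩

def k31_pp_022 : ∃ t, chk3 f_pp_022 t 136 60 1 = true :=
  ⟨(a (b (l 1) (b (a (b (l 1) (c (c (l 16564888) (a (l 16553664) (l 16555776))) (a (c (l 16535024) (l 16515872)) (c (l 16537344) (l 16518400))))) (c (c (b (l 16555424) (l 16568696)) (b (l 16539440) (l 16553360))) (a (b (l 1) (c (l 16539656) (l 16520920))) (b (c (l 16529336) (l 16509792)) (l 16536360))))) (b (a (c (c (l 16575576) (l 16561152)) (c (l 16544608) (a (l 16529608) (l 16532104)))) (a (c (l 16577952) (l 16547432)) (l 14))) (l 14)))) (b (b (l 1) (b (a (l 1) (a (l 1) (c (l 16543592) (l 16506344)))) (c (a (c (l 16559120) (l 16539944))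 (c (l 16555096) (a (l 16543136) (l 16545256)))) (c (a (l 16509752) (a (l 16523736) (l 16526064))) (a (l 16510464) (a (l 16503808) (l 16506344))))))) (b (a (c (c (b (l 16561872) (l 16580344)) (b (a (l 16550480) (l 16552584)) (l 16563112))) (a (b (c (l 16531664) (l 16512328)) (l 16537776)) (c (l 16540256) (l 16521640)))) (c (c (l 16578824) (l 16561504)) (c (l 16546312) (l 16528008)))) (l 14)))), by decide +kernel⟩

def k32_pp_022 : ∃ t, chk3 f_pp_022 t 137 60 1 = true :=
  ⟨(a (b (b (b (l 1) (a (a (l 1) (c (l 16536608) (l 16495128))) (c (c (l 16539040) (l 16521808)) (c (a (l 16508072) (l 16510416)) (c (l 16493560) (l 16482928)))))) (c (c (a (b (l 16545736) (l 16566776)) (l 16560072)) (a (b (a (l 16535848) (l 16537976)) (l 16548416)) (l 16546880))) (c (a (b (a (l 16515880) (l 16518216)) (l 16529536)) (l 16527920)) (a (b (a (l 16495360) (l 16497912)) (l 16510136)) (l 16508440))))) (b (c (c (c (l 16583304) (l 16575056)) (c (l 16566688) (l 16560824))) (c (c (l 16554840) (l 16546112)) (c (l 16537272) (l 16528312))))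 (l 14))) (b (c (c (b (b (a (l 16532368) (l 16546720)) (l 16550048)) (a (l 16563856) (l 16567616))) (b (b (a (l 16513288) (l 16526736)) (l 16530800)) (c (l 16552408) (l 16543360)))) (b (c (b (a (l 16494280) (l 16506192)) (l 16512976)) (a (b (c (l 16485376) (l 16474456)) (l 16493368)) (l 16493720))) (c (c (l 16534184) (l 16530128)) (c (l 16520704) (l 16511152))))) (b (b (c (c (l 16581384) (l 16564944)) (c (l 16550664) (l 16535912))) (l 14)) (l 14)))), by decide +kernel⟩

def k33_pp_022 : ∃ t, chk3 f_pp_022 t 69 60 1 = true :=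
  ⟨(a (a (a (b (c (b (c (l 16545280) (l 16531416)) (c (l 16576584) (l 16559336))) (b (c (l 16517008) (l 16496816)) (c (l 16541592) (l 16523360)))) (b (b (b (c (l 16581552) (l 16548440)) (l 14)) (l 14)) (l 14))) (b (c (b (c (l 16549072) (l 16535608)) (c (l 16580288) (l 16563424))) (b (c (l 16521616) (l 16501840)) (c (l 16546080) (l 16528248)))) (l 14))) (b (c (c (b (a (l 16552832) (l 16556568)) (a (l 16583968) (l 16587624))) (b (a (l 16539768) (l 16549136)) (a (l 16567480) (l 16571512)))) (c (b (c (l 16522672) (l 16518472)) (c (l 16556976) (l 16548480))) (b (c (l 16514144) (l 16504440)) (c (l 16539864) (l 16531136))))) (l 14))) (b (a (c (b (c (b (l 16557008) (l 16567248)) (a (l 16553240) (l 16557304))) (c (a (l 16591248) (l 16594848)) (c (l 16570944) (l 16573536)))) (c (b (c (l 16536704) (l 16532912)) (c (l 16565544) (l 16557432))) (b (c (l 16523752) (l 16514464)) (c (l 16549216) (l 16540880))))) (b (c (c (b (l 16564368) (l 16574520)) (a (l 16561344) (l 16565344))) (c (c (l 16545360) (l 16541960)) (c (l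 16533200) (l 16524320)))) (b (c (c (l 16584648) (l 16574632)) (c (l 16558936) (l 16548048))) (l 14)))) (l 14))), by decide +kernel⟩

def k34_pp_022 : ∃ t, chk3 f_pp_022 t 34 61 1 = true :=
  ⟨(l 14), by decide +kernel⟩

def k35_pp_022 : ∃ t, chk3 f_pp_022 t 35 30 1 = true :=
  ⟨(b (b (a (b (b (c (a (c (a (l 16571616) (l 16578760)) (a (l 16555352) (l 16568472))) (c (a (l 16585800) (l 16592736)) (a (l 16576232) (l 16583864)))) (a (c (a (l 16543864) (l 16552496)) (a (l 16529296) (l 16541320))) (c (a (l 16563608) (l 16571960)) (a (l 16550568) (l 16559656))))) (a (c (c (a (l 16581688) (l 16588752)) (a (l 16571528) (l 16579304))) (c (a (l 16555688) (l 16566824)) (a (l 16544648) (l 16553920)))) (a (c (c (l 16595704) (l 16586960)) (c (l 16575200) (l 16563032))) (l 14)))) (b (a (a (c (c (l 16591728) (l 16582432)) (c (l 16567472) (l 16557344))) (l 14)) (l 14)) (l 14))) (l 14)) (l 14)) (l 14)), by decide +kernel⟩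

def k36_pp_022 : ∃ t, chk3 f_pp_022 t 8 31 1 = true :=
  ⟨(l 14), by decide +kernel⟩

def k37_pp_022 : ∃ t, chk3 f_pp_022 t 36 56 2 = true :=
  ⟨(a (a (b (l 1) (a (b (l 1) (a (c (l 16401552) (l 16355704)) (c (l 16387488) (b (l 16371400) (l 16381016))))) (a (b (c (l 16392464) (l 16343504)) (c (l 16410088) (l 16365232))) (b (c (l 16375808) (b (l 16361936) (l 16371416))) (c (l 16414320) (l 16385672)))))) (a (b (b (l 1) (c (b (l 16360576) (l 16369224)) (a (l 16334296) (b (l 16352840) (l 16362176))))) (c (b (l 16387480) (l 16399640)) (b (a (l 16355736) (l 16376224)) (l 16380896)))) (b (c (b (a (l 16375256) (l 16379640)) (l 16373552)) (a (b (l 16343808) (l 16362336)) (b (l 16330696) (l 16367136)))) (c (b (l 16390704) (l 16413176)) (b (l 16370200) (l 16391448)))))) (a (b (c (a (b (l 16365200) (l 16382096)) (b (l 16394784) (l 16390528))) (a (b (l 16340288) (l 16358552)) (b (l 16349904) (l 16367960)))) (c (a (b (l 16399072) (l 16421360)) (b (l 16407328) (l 16429432))) (a (b (l 16379520) (b (l 16385472) (l 16394696)))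 (b (l 16390032) (b (l 16394512) (l 16408880)))))) (b (c (a (b (l 16403288) (l 16398856)) (b (l 16411688) (l 16407072))) (a (b (l 16359400) (l 16379864)) (b (l 16368760) (l 16389024)))) (c (a (b (l 16420712) (l 16442648)) (b (l 16428752) (l 16450512))) (a (b (l 16400424) (b (l 16408680) (l 16417696))) (b (l 16409368) (b (l 16417472) (l 16426384)))))))), by decide +kernel⟩

def k38_pp_022 : ∃ t, chk3 f_pp_022 t 72 57 2 = true :=
  ⟨(a (b (c (a (b (b (l 16396072) (l 16425960)) (l 16428880)) (b (l 16414104) (l 16437032))) (a (a (b (l 16376368) (l 16410200)) (b (l 16395464) (l 16414768))) (b (b (l 16376664) (l 16386224)) (b (l 16401040) (l 16410632))))) (c (a (b (l 16446800) (l 16464784)) (b (l 16454776) (l 16472584))) (a (b (b (l 16411312) (l 16421032)) (b (l 16430768) (l 16440528))) (b (b (l 16420232) (l 16429856)) (b (l 16439488) (l 16449144)))))) (b (c (a (b (l 16422328) (l 16445080)) (b (l 16435688) (l 16453016))) (a (b (b (l 16385880) (l 16400576)) (b (l 16410048) (l 16419536))) (b (b (l 16394968) (l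 16409560)) (b (l 16418928) (l 16428312))))) (c (a (b (l 16462648) (l 16482904)) (b (l 16470408) (l 16490496))) (a (b (b (l 16429032) (l 16438552)) (a (l 16455976) (l 16460216))) (b (b (l 16437712) (l 16447120)) (a (l 16464432) (l 16468608))))))), by decide +kernel⟩

def k39_pp_022 : ∃ t, chk3 f_pp_022 t 73 57 2 = true :=
  ⟨(a (b (c (a (b (l 16443696) (l 16460856)) (b (l 16451600) (l 16468576))) (a (b (b (l 16409168) (l 16418424)) (b (l 16427688) (l 16436968))) (b (b (l 16418008) (l 16427160)) (a (l 16444016) (l 16448272))))) (c (a (b (l 16480688) (l 16499944)) (b (l 16489552) (b (l 16493200) (l 16507016)))) (a (b (a (l 16454048) (l 16458264)) (a (l 16472752) (l 16476872))) (b (a (l 16462456) (l 16466608)) (a (l 16480952) (l 16485008)))))) (b (c (a (b (l 16459392) (l 16478816)) (b (l 16467080) (l 16486984))) (a (b (b (l 16426720) (l 16435768)) (a (l 16452504) (l 16456704))) (b (b (l 16435312) (l 16446872)) (a (l 16460864) (l 16465000))))) (c (a (b (b (l 16478352) (l 16492040)) (b (l 16505752) (l 16514240)))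 (b (b (l 16490968) (l 16504576)) (b (l 16512960) (l 16521360)))) (a (b (a (l 16470736) (l 16474832)) (a (l 16489032) (l 16493024))) (b (a (l 16478888) (l 16482920)) (a (l 16496984) (l 16500920))))))), by decide +kernel⟩

def k40_pp_022 : ∃ t, chk3 f_pp_022 t 72 56 3 = true :=
  ⟨(a (b (l 1) (a (b (l 1) (a (b (l 1) (c (l 16345656) (l 16314184))) (b (c (l 16340536) (l 16308800)) (c (l 16350912) (l 16319968))))) (a (b (b (l 1) (c (l 16335512) (l 16303520))) (c (c (l 16358552) (l 16343360)) (c (l 16327944) (l 16312328)))) (b (b (c (l 16330584) (l 16298344)) (c (l 16340816) (l 16309352))) (c (l 16356200) (l 16325896)))))) (a (b (b (l 1) (a (b (l 1) (c (l 16325760) (l 16293296))) (b (c (l 16321048) (l 16288360)) (c (l 16331120) (l 16299184))))) (c (b (c (l 16351272) (l 16356928)) (b (l 16343144) (l 16353320))) (b (c (l 16341400) (l 16325656)) (c (l 16341888) (l 16326912))))) (a (b (b (b (l 1) (c (l 16316440) (l 16283544))) (c (l 16331432) (l 16320632))) (c (c (l 16358352) (l 16345096)) (b (l 16321224) (l 16332376))))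 (b (b (b (c (l 16311936) (l 16278840)) (c (l 16321840) (l 16289488))) (c (l 16336752) (l 16305504))) (c (c (l 16363360) (l 16351672)) (b (l 16326936) (l 16337952))))))), by decide +kernel⟩

def k41_pp_022 : ∃ t, chk3 f_pp_022 t 73 56 3 = true :=
  ⟨(c (a (b (a (b (c (l 16332816) (l 16317080)) (c (l 16352136) (l 16337120))) (c (b (l 16343208) (l 16362304)) (b (l 16328000) (l 16347792)))) (a (b (b (l 16343744) (l 16353648)) (b (l 16363568) (l 16374808))) (b (b (l 16353976) (l 16363760)) (c (l 16400728) (l 16387624))))) (b (a (c (b (l 16353464) (l 16372320)) (b (l 16338768) (l 16358312))) (c (b (l 16363576) (l 16382200)) (b (l 16349384) (l 16368680)))) (a (b (c (l 16391272) (l 16377944)) (a (l 16406800) (l 16395928))) (b (c (l 16400920) (l 16388064)) (a (l 16400752) (l 16405544)))))) (a (b (a (b (c (l 16301120) (l 16284944)) (c (l 16321888) (l 16306448))) (b (l 16294296) (c (l 16333072) (l 16318160)))) (a (b (c (l 16342744) (l 16328048)) (a (l 16343480) (l 16348976))) (b (c (l 16353672) (l 16339472)) (a (l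 16354424) (l 16359840))))) (b (a (b (l 16307160) (c (l 16344104) (l 16329696))) (b (l 16318552) (c (l 16354968) (l 16341072)))) (a (b (c (l 16364432) (l 16350736)) (a (l 16365208) (l 16370536))) (b (c (l 16375040) (l 16361824)) (a (l 16375824) (l 16381080))))))), by decide +kernel⟩

def k42_pp_022 : ∃ t, chk3 f_pp_022 t 72 57 3 = true :=
  ⟨(a (b (c (a (b (b (a (l 16356104) (l 16361312)) (l 16353416)) (b (l 16365176) (l 16376952))) (b (b (l 16353312) (l 16364944)) (a (l 16381880) (l 16386864)))) (a (b (a (b (l 16325432) (l 16336696)) (l 16326264)) (a (l 16343128) (l 16348672))) (b (a (l 16331904) (l 16337504)) (a (l 16354184) (l 16359648))))) (c (a (b (a (l 16392824) (l 16397760)) (a (l 16413896) (l 16418712))) (b (a (l 16402656) (l 16407512)) (a (l 16423488) (l 16428232)))) (a (b (a (l 16365728) (l 16371144)) (a (l 16391016) (l 16396288))) (b (a (l 16379136) (l 16384464)) (a (l 16401528) (l 16409344)))))) (b (c (a (b (b (l 16364816) (l 16375008)) (a (l 16391808) (l 16396712))) (b (b (l 16374856) (l 16386240))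 (a (l 16401584) (l 16406424)))) (a (b (a (l 16343064) (l 16348584)) (a (l 16365072) (l 16373072))) (b (a (l 16354064) (l 16359496)) (a (l 16378416) (l 16383720))))) (c (a (b (a (l 16412344) (l 16417128)) (a (l 16432944) (l 16437608))) (b (a (l 16421888) (l 16426600)) (a (l 16442248) (l 16449472)))) (a (b (a (l 16389752) (l 16395000)) (c (l 16417744) (l 16405848))) (b (c (l 16406256) (l 16394056)) (c (l 16427672) (l 16416224))))))), by decide +kernel⟩

def k43_pp_022 : ∃ t, chk3 f_pp_022 t 73 57 3 = true :=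
  ⟨(c (b (a (a (b (a (l 16391224) (l 16396104)) (a (l 16411224) (l 16415992))) (b (a (l 16400952) (l 16405768)) (a (l 16420720) (l 16425416)))) (a (b (a (l 16410544) (l 16415288)) (a (l 16430072) (l 16437320))) (b (a (l 16419992) (l 16424664)) (a (l 16441904) (l 16446456))))) (a (a (b (a (l 16431288) (l 16435936)) (c (l 16459024) (l 16448304))) (b (c (l 16448320) (l 16437320)) (c (l 16467800) (l 16457504)))) (a (b (c (l 16457192) (l 16446608)) (c (l 16476448) (l 16469176))) (b (c (l 16465920) (l 16457064)) (c (l 16487576) (l 16478072)))))) (b (a (a (b (a (l 16364896) (l 16370256)) (c (l 16395200) (l 16382712))) (b (a (l 16378192) (l 16383464)) (c (l 16405336) (l 16393304)))) (a (b (a (l 16388704) (l 16393896)) (c (l 16415312) (l 16403736))) (b (c (l 16404888) (l 16393056)) (c (l 16425136) (l 16413992))))) (a (a (b (c (l 16416288) (l 16404536)) (c (l 16437440) (l 16426424))) (b (c (l 16426160) (l 16414856)) (c (l 16449680) (l 16439088)))) (a (b (c (l 16435880) (l 16427632)) (c (l 16459136) (l 16451592)))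 (b (c (l 16448064) (l 16437616)) (c (l 16469752) (l 16461304))))))), by decide +kernel⟩

def k44_pp_022 : ∃ t, chk3 f_pp_022 t 74 28 2 = true :=
  ⟨(b (b (a (c (a (b (l 16419984) (l 16415184)) (b (l 16428192) (l 16428464))) (a (b (l 16378008) (l 16398064)) (b (l 16387160) (l 16409624)))) (c (a (a (l 16437000) (l 16441008)) (b (l 16444400) (l 16449560))) (a (b (l 16396216) (l 16418480)) (b (l 16405192) (l 16427240))))) (a (c (a (b (l 16436696) (l 16458272)) (b (l 16449792) (l 16465952))) (a (b (l 16418856) (b (l 16426144) (l 16434960))) (b (l 16428248) (b (l 16434728) (l 16443432))))) (c (a (b (l 16457584) (l 16473568)) (b (l 16465296) (l 16481112))) (a (b (l 16436896) (b (l 16443224) (l 16451824))) (b (l 16446112) (b (l 16451624) (l 16462752))))))) (c (b (a (a (b (l 16475976) (b (l 16476512) (l 16489992))) (b (l 16484792) (b (l 16489128) (l 16497280)))) (a (b (l 16492232) (b (l 16496432) (l 16509744))) (b (l 16500256) (b (l 16508920) (l 16516896))))) (a (a (b (b (l 16498248) (l 16511768)) (b (l 16520064)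 (l 16528376))) (b (b (l 16510696) (l 16518888)) (b (l 16527096) (l 16535328)))) (a (b (b (l 16517832) (l 16525936)) (a (l 16536408) (l 16539848))) (b (b (l 16524896) (l 16532920)) (a (l 16543280) (l 16546688)))))) (b (a (a (b (a (l 16451352) (l 16455536)) (a (l 16469104) (l 16473192))) (b (a (l 16459696) (l 16463832)) (a (l 16477248) (l 16481288)))) (a (b (a (l 16467952) (l 16472048)) (a (l 16485304) (l 16489304))) (b (a (l 16476128) (l 16480184)) (a (l 16493280) (l 16497232))))) (a (a (b (a (l 16486928) (l 16490912)) (c (l 16511176) (l 16502320))) (b (a (l 16494864) (l 16498808)) (c (l 16518704) (l 16512840)))) (a (b (a (l 16502720) (l 16506616)) (c (l 16526160) (l 16520648))) (b (a (l 16513112) (l 16516968)) (c (l 16533528) (l 16528376)))))))), by decide +kernel⟩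

def k45_pp_022 : ∃ t, chk3 f_pp_022 t 75 28 2 = true :=
  ⟨(b (a (b (c (a (b (l 16452400) (l 16457384)) (b (l 16460328) (l 16465136))) (a (b (l 16419312) (l 16435920)) (b (l 16428112) (l 16444520)))) (c (a (b (l 16472944) (l 16488584)) (b (l 16480528) (l 16495992))) (a (b (l 16455240) (c (l 16484728) (l 16475000))) (b (l 16463640) (c (l 16492728) (l 16483392)))))) (b (c (a (b (l 16468192) (l 16472832)) (b (l 16476000) (l 16480464))) (a (b (l 16436840) (l 16453040)) (b (l 16445480) (l 16461480)))) (c (a (b (l 16488048) (l 16503344)) (b (l 16495512) (l 16510632))) (a (b (l 16471952) (c (l 16500648) (l 16491704))) (b (l 16480200) (l 16498992)))))) (b (a (c (a (b (l 16508208) (b (l 16516088) (l 16523984))) (b (l 16515448) (b (l 16523200) (l 16531016)))) (a (b (a (l 16484216) (l 16488232)) (a (l 16501168) (l 16505080))) (b (a (l 16492232) (l 16496208)) (a (l 16508976) (l 16512856))))) (c (a (b (l 16522632) (b (l 16530256) (l 16537984))) (b (l 16531064) (l 16547624))) (a (b (b (l 16498024) (l 16506256)) (a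 (l 16516720) (l 16520560))) (b (b (l 16505920) (l 16514048)) (a (l 16524384) (l 16528192)))))) (a (c (a (b (b (l 16531904) (l 16539832)) (a (l 16550080) (l 16553464))) (b (b (l 16538840) (l 16546688)) (a (l 16556824) (l 16560176)))) (a (b (a (l 16520800) (l 16524616)) (c (l 16540832) (l 16536024))) (b (a (l 16531040) (l 16534816)) (c (l 16548056) (l 16546208))))) (c (a (b (b (l 16545728) (l 16553488)) (a (l 16563512) (l 16566840))) (b (b (l 16552552) (l 16560232)) (b (l 16567936) (l 16575656)))) (a (b (a (l 16538576) (l 16542320)) (c (l 16560464) (l 16553704))) (b (a (l 16546048) (l 16549752)) (c (l 16562312) (l 16561120)))))))), by decide +kernel⟩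

def k46_pp_022 : ∃ t, chk3 f_pp_022 t 74 56 3 = true :=
  ⟨(c (b (a (a (b (l 16356248) (c (l 16391952) (l 16378912))) (b (l 16366360) (c (l 16401592) (l 16389024)))) (a (b (l 16376360) (c (l 16411128) (l 16399024))) (b (l 16386264) (c (l 16420560) (l 16408912))))) (a (a (b (c (l 16410432) (l 16398048)) (a (l 16410296) (l 16415024))) (b (c (l 16419848) (l 16407920)) (a (l 16419728) (l 16424400)))) (a (b (c (l 16429152) (l 16417672)) (a (l 16429048) (l 16433672))) (b (c (l 16438360) (l 16427320)) (a (l 16438264) (l 16442840)))))) (b (a (a (b (l 16331096) (c (l 16365688) (l 16352280))) (b (l 16342200) (c (l 16376280) (l 16363360)))) (a (b (l 16353176) (c (l 16386744) (l 16374304))) (b (l 16364032) (c (l 16397104) (l 16385128))))) (a (a (b (c (l 16385496) (l 16372760)) (a (l 16386288) (l 16394088))) (b (c (l 16395824) (l 16383560)) (a (l 16399232) (l 16404352)))) (a (b (b (l 16384752) (l 16394576)) (a (l 16409440) (l 16414496))) (b (b (l 16395144) (l 16404832)) (a (l 16419520) (l 16424520))))))), by decide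 +kernel⟩

def k47_pp_022 : ∃ t, chk3 f_pp_022 t 74 57 3 = true :=
  ⟨(c (b (a (a (b (a (l 16429296) (l 16433904)) (c (l 16455792) (l 16445376))) (b (a (l 16438488) (l 16445664)) (c (l 16464520) (l 16454512)))) (a (b (c (l 16454928) (l 16444696)) (c (l 16473144) (l 16464848))) (b (c (l 16463688) (l 16453864)) (c (l 16481680) (l 16475088))))) (a (a (b (c (l 16474528) (l 16467384)) (c (l 16495952) (l 16488152))) (b (c (l 16484336) (l 16476280)) (c (l 16504232) (l 16496808)))) (a (b (c (l 16494048) (l 16485072)) (c (l 16513720) (l 16506664))) (b (c (l 16502360) (l 16495064)) (c (l 16523112) (l 16515120)))))) (b (a (a (b (c (l 16414824) (l 16403440)) (c (l 16436120) (l 16426720))) (b (c (l 16424632) (l 16413688)) (c (l 16446984) (l 16436696)))) (a (b (c (l 16434328) (l 16423808)) (c (l 16456424) (l 16446544))) (b (c (l 16443904) (l 16433808)) (c (l 16465744) (l 16458896))))) (a (a (b (c (l 16457480) (l 16448760)) (c (l 16480224) (l 16470856))) (b (c (l 16468088) (l 16459768)) (c (l 16489264) (l 16481600))))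 (a (b (c (l 16477272) (l 16469344)) (c (l 16498848) (l 16490904))) (b (c (l 16487656) (l 16478808)) (c (l 16508320) (l 16501408))))))), by decide +kernel⟩

def k48_pp_022 : ∃ t, chk3 f_pp_022 t 75 56 3 = true :=
  ⟨(b (a (c (a (b (l 16396056) (l 16417112)) (b (l 16405752) (l 16426576))) (a (b (l 16374768) (b (l 16386360) (l 16395872))) (b (l 16385384) (l 16407368)))) (c (a (b (l 16415360) (l 16435288)) (b (l 16424864) (l 16444568))) (a (b (l 16398512) (l 16416960)) (b (l 16403664) (l 16427096))))) (a (c (a (b (c (l 16447472) (l 16436864)) (a (l 16447384) (l 16451912))) (b (c (l 16456496) (l 16446312)) (a (l 16456408) (l 16460888)))) (a (b (b (l 16405408) (l 16414968)) (a (l 16429496) (l 16434432))) (b (b (l 16415568) (l 16425000)) (a (l 16439352) (l 16444232))))) (c (a (b (b (l 16445704) (l 16454432)) (a (l 16465336) (l 16469768))) (b (l 16465016) (b (l 16472056) (l 16480696)))) (a (b (b (l 16425616) (l 16434912)) (a (l 16451720) (l 16456552))) (b (b (l 16435552) (l 16444720)) (a (l 16456112) (l 16460896))))))),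 by decide +kernel⟩

def k49_pp_022 : ∃ t, chk3 f_pp_022 t 75 57 3 = true :=
  ⟨(c (b (a (a (b (c (l 16472344) (l 16462928)) (c (l 16490120) (l 16483912))) (b (c (l 16480920) (l 16471896)) (c (l 16498472) (l 16492640)))) (a (b (a (l 16485560) (l 16489880)) (c (l 16506736) (l 16501280))) (b (a (l 16494176) (l 16495824)) (c (l 16514920) (l 16512448))))) (a (a (b (c (l 16510576) (l 16503656)) (c (l 16531112) (l 16523472))) (b (c (l 16518704) (l 16513456)) (c (l 16539016) (l 16533032)))) (a (b (c (l 16529376) (l 16521856)) (c (l 16546848) (l 16541200))) (b (c (l 16537336) (l 16530168)) (c (l 16554592) (l 16550592)))))) (b (a (a (b (c (l 16453376) (l 16446320)) (c (l 16474960) (l 16468512))) (b (c (l 16462744) (l 16456088)) (c (l 16486696) (l 16478016)))) (a (b (c (l 16472008) (l 16468368)) (c (l 16495712) (l 16487408))) (b (c (l 16481168) (l 16472672)) (c (l 16504624) (l 16496688))))) (a (a (b (c (l 16496616) (l 16488152)) (c (l 16517032) (l 16510488))) (b (c (l 16505480) (l 16498696)) (c (l 16526952) (l 16519456))))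 (a (b (c (l 16514240) (l 16506512)) (c (l 16535464) (l 16528312))) (b (c (l 16522904) (l 16515536)) (c (l 16543880) (l 16537072))))))), by decide +kernel⟩

def k50_pp_022 : ∃ t, chk3 f_pp_022 t 72 58 2 = true :=
  ⟨(a (b (c (a (b (l 16485456) (l 16506216)) (b (l 16493088) (l 16514976))) (a (b (b (l 16450296) (l 16465336)) (a (l 16477976) (l 16482136))) (b (a (l 16466800) (l 16471000)) (a (l 16486264) (l 16490368))))) (c (a (b (b (l 16514616) (l 16523752)) (b (l 16532904) (l 16542072))) (b (b (l 16521944) (l 16530984)) (b (l 16540056) (l 16549144)))) (a (b (a (l 16497736) (l 16501792)) (a (l 16517576) (l 16521536))) (b (a (l 16505816) (l 16509816)) (a (l 16530704) (l 16534600)))))) (b (c (a (b (l 16503232) (b (l 16511320) (l 16520232))) (b (b (l 16490528) (l 16509792)) (b (l 16518600) (l 16527432)))) (a (b (a (l 16475168) (l 16479304)) (a (l 16494432) (l 16498472))) (b (a (l 16483416) (l 16487488)) (a (l 16502472) (l 16506448))))) (c (a (b (b (l 16529160) (l 16538120)) (a (l 16549864) (l 16553336))) (b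 (b (l 16536280) (l 16545144)) (a (l 16556784) (l 16560208)))) (a (b (a (l 16513784) (l 16517720)) (c (l 16539296) (l 16536192))) (b (a (l 16526864) (l 16530736)) (c (l 16546728) (l 16543976))))))), by decide +kernel⟩

def k51_pp_022 : ∃ t, chk3 f_pp_022 t 73 58 2 = true :=
  ⟨(a (b (c (a (b (b (l 16508360) (l 16517064)) (b (l 16525784) (l 16534520))) (b (b (l 16515608) (l 16524224)) (b (l 16532856) (l 16541512)))) (a (b (a (l 16491536) (l 16495552)) (a (l 16510392) (l 16519552))) (b (a (l 16499536) (l 16503488)) (c (l 16524432) (l 16515776))))) (c (a (b (a (l 16545944) (l 16549400)) (a (l 16563608) (l 16566976))) (b (a (l 16552832) (l 16556232)) (a (l 16570320) (l 16578880)))) (a (b (c (l 16535400) (l 16532304)) (c (l 16559280) (l 16551640))) (b (c (l 16542784) (l 16540048)) (c (l 16566472) (l 16559176)))))) (b (c (a (b (b (l 16522744) (l 16531272)) (a (l 16542384) (l 16545824))) (b (b (l 16529776) (l 16538216)) (a (l 16549232) (l 16552608)))) (a (b (a (l 16507408) (l 16516544)) (c (l 16531888) (l 16526224)))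 (b (c (l 16521352) (l 16515384)) (c (l 16541848) (l 16536536))))) (c (a (b (a (l 16559608) (l 16562960)) (a (l 16582168) (l 16585432))) (b (a (l 16566280) (l 16574824)) (c (l 16593496) (l 16587048)))) (a (b (c (l 16555296) (l 16547664)) (c (l 16573544) (l 16569200))) (b (c (l 16562440) (l 16555152)) (c (l 16583120) (l 16576480))))))), by decide +kernel⟩

def k52_pp_022 : ∃ t, chk3 f_pp_022 t 72 58 3 = true :=
  ⟨(a (b (c (a (b (a (l 16435040) (l 16439736)) (a (l 16461496) (l 16466072))) (b (a (l 16444392) (l 16451640)) (c (l 16472856) (l 16462368)))) (a (b (c (l 16419680) (l 16407672)) (c (l 16442016) (l 16430808))) (b (c (l 16429656) (l 16418096)) (c (l 16451736) (l 16440960))))) (c (a (b (c (l 16484832) (l 16474704)) (c (l 16505768) (l 16501656))) (b (c (l 16493480) (l 16489000)) (c (l 16519432) (l 16510472)))) (a (b (c (l 16469672) (l 16459264)) (c (l 16492176) (l 16482560))) (b (c (l 16479136) (l 16469136)) (c (l 16501376) (l 16492160)))))) (b (c (a (b (c (l 16461280) (l 16450456)) (c (l 16481600)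 (l 16471520))) (b (c (l 16470112) (l 16459704)) (c (l 16490200) (l 16483144)))) (a (b (c (l 16439480) (l 16428360)) (c (l 16466544) (l 16456184))) (b (c (l 16451776) (l 16443696)) (c (l 16475952) (l 16466008))))) (c (a (b (c (l 16504616) (l 16497904)) (c (l 16527720) (l 16519136))) (b (c (l 16515616) (l 16506664)) (c (l 16535872) (l 16527656)))) (a (b (c (l 16488440) (l 16478848)) (c (l 16510424) (l 16501600))) (b (c (l 16497592) (l 16488400)) (c (l 16521944) (l 16513496))))))), by decide +kernel⟩

def k53_pp_022 : ∃ t, chk3 f_pp_022 t 73 58 3 = true :=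
  ⟨(a (b (c (a (b (c (l 16478808) (l 16471424)) (c (l 16501288) (l 16494624))) (b (c (l 16487360) (l 16480376)) (c (l 16509616) (l 16503336)))) (a (b (c (l 16461288) (l 16453632)) (c (l 16485208) (l 16475664))) (b (c (l 16473264) (l 16463400)) (c (l 16494312) (l 16485160))))) (c (a (b (c (l 16523856) (l 16515280)) (c (l 16543888) (l 16538656))) (b (c (l 16531960) (l 16525064)) (c (l 16554392) (l 16546888)))) (a (b (c (l 16506592) (l 16500400)) (c (l 16530688) (l 16525232))) (b (c (l 16518056) (l 16509624)) (c (l 16540584) (l 16534184)))))) (b (c (a (b (c (l 16498400) (l 16489184)) (c (l 16520432) (l 16511904))) (b (c (l 16506680) (l 16500472)) (c (l 16528488) (l 16521632)))) (a (b (c (l 16482472) (l 16473000)) (c (l 16504568) (l 16497112))) (b (c (l 16491520) (l 16483752)) (c (l 16514672) (l 16506280))))) (c (a (b (c (l 16539928) (l 16534704)) (c (l 16562136) (l 16556288))) (b (c (l 16549072) (l 16542888)) (c (l 16571056) (c (l 16567256) (l 16558576))))) (a (b (c (l 16526752) (l 16519992)) (c (l 16550336)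 (l 16542968))) (b (c (l 16536592) (l 16530200)) (c (l 16558944) (l 16552904))))))), by decide +kernel⟩

def k54_pp_022 : ∃ t, chk3 f_pp_022 t 72 118 1 = true :=
  ⟨(c (a (c (a (b (b (l 16551272) (l 16560496)) (a (l 16572680) (l 16576088))) (b (a (l 16561104) (l 16564544)) (a (l 16579472) (l 16588072)))) (a (b (c (l 16543600) (l 16540504)) (c (l 16568456) (l 16560864))) (b (c (l 16551072) (l 16548336)) (c (l 16575728) (l 16568488))))) (c (a (b (a (l 16567960) (l 16571352)) (a (l 16591408) (l 16594712))) (b (a (l 16574720) (l 16583296)) (c (l 16602800) (l 16596416)))) (a (b (c (l 16563664) (l 16556040)) (c (l 16582888) (l 16578608))) (b (c (l 16570904) (l 16563616)) (c (l 16589936) (l 16585984)))))) (c (a (a (b (c (l 16532040) (l 16523464)) (c (l 16553168) (l 16547992))) (b (c (l 16540240) (l 16532032)) (c (l 16563768) (l 16558944)))) (a (b (c (l 16548304) (l 16543080)) (c (l 16571608) (l 16567128))) (b (c (l 16558856) (l 16551360)) (c (l 16581936) (l 16575168))))) (a (a (b (c (l 16514768) (l 16511192))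 (c (l 16542704) (l 16534688))) (b (c (l 16526336) (l 16520520)) (c (l 16551392) (l 16543736)))) (a (b (c (l 16535128) (l 16529688)) (c (l 16559928) (l 16552632))) (b (c (l 16546392) (l 16538688)) (c (l 16568312) (l 16563984))))))), by decide +kernel⟩

def k55_pp_022 : ∃ t, chk3 f_pp_022 t 73 118 1 = true :=
  ⟨(a (c (c (a (b (a (l 16586608) (l 16589896)) (c (l 16609104) (l 16603024))) (b (c (l 16597976) (l 16591544)) (c (l 16615296) (l 16612144)))) (a (b (c (l 16578016) (l 16573688)) (c (l 16599480) (l 16595848))) (b (c (l 16585016) (l 16581016)) (c (l 16608912) (l 16602968))))) (c (a (b (c (l 16566648) (l 16560808)) (c (l 16589504) (l 16584384))) (b (c (l 16575616) (l 16570112)) (c (l 16597592) (c (l 16587120) (l 16589288))))) (a (b (c (l 16554880) (l 16547536)) (c (l 16577856) (l 16572560))) (b (c (l 16563208) (l 16557520)) (c (a (l 16582624) (l 16586624)) (a (l 16576264) (l 16580424))))))) (b (c (c (a (c (l 16604232) (l 16598112)) (c (l 16610384) (l 16607192))) (a (c (l 16594520) (l 16589528)) (c (l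 16602592) (l 16597584)))) (c (a (c (l 16584448) (l 16578624)) (c (c (l 16588120) (l 16585056)) (b (l 16575384) (l 16585472)))) (a (c (l 16572704) (l 16566696)) (c (b (l 16568968) (l 16579392)) (a (l 16571016) (l 16575152)))))) (b (a (c (c (l 16617232) (c (l 16610968) (l 16605168))) (c (a (l 16589192) (l 16592920)) (a (l 16576928) (l 16580968)))) (l 14)) (l 14)))), by decide +kernel⟩

def k56_pp_022 : ∃ t, chk3 f_pp_022 t 36 119 1 = true :=
  ⟨(b (a (a (c (c (a (a (l 16601816) (l 16605144)) (c (l 16607984) (l 16601672))) (a (c (l 16588176) (l 16583960)) (c (l 16595256) (l 16594000)))) (c (a (c (l 16579648) (l 16572624)) (c (l 16587400) (l 16580712))) (a (c (l 16565496) (l 16558280)) (c (l 16573936) (l 16567064))))) (b (a (c (c (l 16606752) (c (l 16602624) (l 16596264))) (c (c (l 16589808) (l 16583264)) (b (l 16566512) (l 16573496)))) (a (c (a (l 16610000) (l 14)) (c (l 16592336) (l 16579568))) (l 14))) (l 14))) (l 14)) (l 14)), by decide +kernel⟩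

def k57_pp_022 : ∃ t, chk3 f_pp_022 t 148 58 1 = true :=
  ⟨(c (b (c (a (b (a (l 16539176) (l 16542600)) (a (l 16555968) (l 16559312))) (b (a (l 16546008) (l 16549400)) (a (l 16562632) (l 16565936)))) (a (b (c (l 16528776) (l 16523176)) (c (l 16551704) (l 16544112))) (b (c (l 16538736) (l 16530864)) (c (l 16558848) (l 16551600))))) (c (a (b (a (l 16578096) (l 16581352)) (c (l 16599720) (l 16593576))) (b (c (l 16589408) (l 16582968)) (c (l 16605880) (l 16602656)))) (a (b (c (l 16569480) (l 16563832)) (c (l 16589968) (l 16584952))) (b (c (l 16576432) (l 16572416)) (c (l 16597384) (a (l 16591576) (l 16595088))))))) (c (b (a (b (c (l 16516144) (l 16508992)) (c (l 16537728) (l 16530576))) (b (c (l 16525504) (l 16518064)) (c (l 16545552) (l 16539408)))) (a (b (c (l 16558088) (l 16551912)) (c (b (l 16575056) (l 16574168)) (b (l 16557904) (l 16573064)))) (b (c (a (l 16566424) (l 16570200)) (c (l 16557960) (l 16554528))) (c (b (l 16572008) (l 16586736)) (b (l 16568288) (l 16580712)))))) (b (a (b (c (l 16501728)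 (l 16494344)) (c (l 16523312) (l 16516600))) (b (c (l 16511168) (l 16503504)) (c (l 16532832) (l 16526144)))) (a (b (c (l 16545640) (l 16538944)) (c (b (l 16556384) (l 16566640)) (b (l 16549536) (l 16560120)))) (b (c (c (l 16551072) (l 16547592)) (b (l 16531880) (l 16547520))) (c (b (l 16564472) (l 16574600)) (b (l 16557952) (l 16568408)))))))), by decide +kernel⟩

def k58_pp_022 : ∃ t, chk3 f_pp_022 t 148 59 1 = true :=
  ⟨(b (b (a (c (c (c (l 16619072) (l 16613544)) (c (l 16609904) (c (l 16601056) (l 16598192)))) (c (c (b (l 16589032) (l 16598680)) (b (l 16583016) (l 16592984))) (c (a (l 16580104) (l 16586640)) (a (l 16579256) (l 16583328))))) (b (c (c (c (l 16623536) (l 16618144)) (a (l 16597736) (l 16606344))) (c (c (l 16596248) (l 16590536)) (c (l 16584752) (l 16578880)))) (l 14))) (l 14)) (l 14)), by decide +kernel⟩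

def k59_pp_022 : ∃ t, chk3 f_pp_022 t 149 29 1 = true :=
  ⟨(a (b (c (b (c (b (a (l 16552776) (l 16556136)) (a (l 16574472) (l 16577744))) (b (c (l 16545992) (l 16541096)) (c (l 16565912) (l 16560304)))) (b (c (c (l 16595664) (l 16589528)) (c (l 16585928) (l 16580264))) (c (c (l 16611968) (l 16609040)) (c (l 16604728) (b (l 16595784) (l 16599616)))))) (b (c (b (c (l 16533464) (l 16527032)) (c (l 16553944) (l 16547976))) (b (c (l 16520496) (l 16513200)) (c (a (l 16540792) (l 16544976)) (l 16535240)))) (c (b (c (b (l 16571160) (l 16570000)) (b (l 16554024) (l 16566288))) (c (b (l 16581976) (l 16593976)) (b (l 16578568) (l 16588256)))) (b (c (b (l 16549904) (l 16562480)) (b (l 16545688) (l 16555960))) (c (a (l 16575480) (l 16579416)) (a (l 16569368) (l 16578696))))))) (b (a (b (b (c (c (l 16625440) (l 16609688)) (c (l 16598872) (l 16590368))) (l 14)) (l 14)) (l 14)) (l 14))) (b (c (b (c (b (a (l 16559472) (l 16562800)) (a (l 16581000) (l 16584240))) (b (c (l 16555800) (l 16548616)) (c (l 16572904) (l 16567624))))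 (b (c (c (l 16601864) (l 16596024)) (c (l 16592728) (a (l 16587576) (l 16591104)))) (c (c (l 16620632) (l 16616680)) (c (l 16612152) (b (l 16592256) (l 16606472)))))) (b (c (b (c (l 16542640) (l 16535904)) (c (l 16562240) (a (l 16556096) (l 16560056)))) (b (c (l 16529392) (l 16522776)) (c (c (l 16547688) (l 16544224)) (l 16544552)))) (c (b (c (c (l 16579536) (l 16576472)) (b (l 16564448) (l 16576584))) (c (b (l 16591856) (l 16601120)) (a (l 16589048) (l 16592776)))) (b (c (b (l 16560648) (l 16570472)) (b (l 16554144) (l 16564280))) (c (a (l 16585944) (l 16589824)) (a (l 16582760) (l 16586792))))))) (l 14))), by decide +kernel⟩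

def k60_pp_022 : ∃ t, chk3 f_pp_022 t 75 116 1 = true :=
  ⟨(c (a (c (a (b (a (l 16566112) (l 16569408)) (c (l 16586872) (l 16586016))) (b (a (l 16572688) (l 16575952)) (c (l 16598360) (l 16592560)))) (a (b (c (l 16562904) (l 16556056)) (c (l 16579824) (l 16576168))) (b (c (l 16569944) (l 16563416)) (c (l 16586672) (l 16583328))))) (c (a (b (a (l 16579208) (l 16582448)) (c (l 16604552) (l 16599048))) (b (a (l 16585672) (l 16588888)) (c (l 16610696) (l 16605480)))) (a (b (c (l 16576920) (l 16570704)) (c (l 16596080) (l 16590408))) (b (c (l 16583824) (l 16577920)) (c (l 16602800) (l 16597424)))))) (c (a (a (b (c (l 16550408) (l 16544672)) (c (l 16570456) (b (l 16561280) (l 16560152)))) (b (c (l 16558104) (l 16552696)) (c (l 16578576) (b (l 16569128) (l 16567880))))) (a (b (c (l 16567016) (l 16560624)) (c (l 16585968) (l 16581120))) (b (c (l 16574552) (l 16568472)) (c (l 16593288) (l 16589064))))) (a (a (b (c (l 16538176) (l 16531584)) (c (c (l 16555816) (l 16552512)) (l 16553424))) (b (c (l 16547192) (l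 16540944)) (c (l 16567768) (l 16562192)))) (a (b (c (l 16555456) (l 16550192)) (c (l 16576192) (l 16570856))) (b (c (l 16563624) (l 16558688)) (c (l 16584112) (l 16579744))))))), by decide +kernel⟩

def k61_pp_022 : ∃ t, chk3 f_pp_022 t 75 117 1 = true :=
  ⟨(b (c (a (c (a (c (l 16608000) (l 16605080)) (c (l 16614088) (l 16611456))) (a (c (l 16599456) (l 16595392)) (c (l 16607432) (l 16602672)))) (c (a (c (l 16620120) (l 16617768)) (c (l 16626112) (l 16624024))) (a (c (l 16614024) (l 16610216)) (c (l 16621872) (l 16617024))))) (a (c (a (c (b (l 16575544) (l 16589896)) (b (l 16572152) (l 16584176))) (c (b (l 16582856) (l 16597096)) (b (l 16582384) (l 16591672)))) (a (c (b (l 16568672) (l 16578376)) (b (l 16562488) (l 16572496))) (c (b (l 16576600) (l 16586176)) (a (l 16573632) (l 16582936))))) (c (a (c (c (l 16601080) (l 16601080)) (b (l 16589912) (l 16599088))) (c (c (l 16608104) (l 16608248)) (b (l 16597360) (l 16606416)))) (a (c (b (l 16584424) (l 16593880)) (a (l 16586968) (l 16590984))) (c (b (l 16592168)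 (l 16601496)) (a (l 16594968) (l 16598928))))))) (a (a (a (c (c (l 16625224) (b (l 16600104) (l 16614096))) (c (c (l 16601840) (l 16599104)) (c (l 16596304) (l 16590800)))) (b (c (c (l 16624200) (l 16603456)) (c (l 16598144) (l 16587288))) (l 14))) (b (c (c (c (l 16631184) (l 16626336)) (a (l 16612032) (l 16615344))) (c (a (l 16601760) (l 16605360)) (a (l 16591200) (l 16595088)))) (l 14))) (b (a (a (c (c (l 16633312) (l 16618640)) (c (l 16608936) (l 16598952))) (l 14)) (l 14)) (l 14)))), by decide +kernel⟩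

def k62_pp_022 : ∃ t, chk3 f_pp_022 t 75 59 1 = true :=
  ⟨(l 14), by decide +kernel⟩

def k63_pp_022 : ∃ t, chk3 f_pp_022 t 76 28 2 = true :=
  ⟨(b (b (a (c (a (b (l 16483744) (l 16488040)) (c (l 16503136) (l 16483832))) (a (b (l 16454048) (l 16469848)) (b (l 16462552) (l 16478152)))) (c (a (a (l 16493928) (l 16497688)) (a (l 16501440) (l 16505184))) (a (c (l 16483016) (l 16479568)) (c (l 16491088) (l 16482792))))) (a (c (a (b (l 16502912) (l 16517872)) (b (l 16510264) (l 16525056))) (a (b (l 16488368) (l 16506968)) (b (l 16493848) (l 16514872)))) (c (a (b (l 16517568) (l 16532184)) (b (l 16524824) (l 16539272))) (a (b (l 16501888) (l 16522712)) (b (l 16509864) (l 16530496)))))) (c (b (a (a (b (l 16538128) (l 16554528)) (b (l 16539904) (l 16560064))) (a (b (l 16546872) (l 16566864)) (b (l 16553792) (l 16573624)))) (a (a (b (b (l 16559328) (l 16566928)) (b (l 16574544) (l 16582184))) (b (l 16578336) (b (l 16581104) (l 16588664)))) (a (b (l 16584320) (b (l 16587624) (l 16595096))) (b (l 16588288) (l 16608280)))))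 (b (a (a (b (b (l 16513744) (l 16521776)) (a (l 16531976) (l 16535752))) (b (l 16533008) (b (l 16537392) (l 16545368)))) (a (b (l 16540984) (b (l 16544896) (l 16552776))) (b (l 16545952) (l 16565408)))) (a (a (b (a (l 16548208) (l 16551880)) (c (l 16569352) (l 16568472))) (b (a (l 16555544) (l 16559184)) (a (l 16576896) (l 16580440)))) (a (b (b (l 16560672) (l 16568584)) (a (l 16583976) (l 16582256))) (b (b (l 16567920) (l 16575744)) (b (l 16583584) (l 16596688)))))))), by decide +kernel⟩

def k64_pp_022 : ∃ t, chk3 f_pp_022 t 76 28 3 = true :=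
  ⟨(b (c (b (a (a (b (l 16434280) (l 16456376)) (b (l 16443616) (l 16460232))) (a (b (l 16452864) (l 16469256)) (c (l 16479616) (l 16476320)))) (a (a (b (l 16473320) (b (l 16480840) (l 16489368))) (b (l 16482200) (l 16501624))) (a (b (l 16490992) (l 16510192)) (b (l 16499712) (l 16516064))))) (b (a (a (b (l 16413952) (l 16437120)) (b (l 16424144) (l 16447056))) (a (b (l 16434224) (l 16456880)) (b (l 16444216) (l 16461376)))) (a (a (b (l 16458432) (b (l 16463488) (l 16475176))) (b (l 16467448) (b (l 16472960) (l 16481904)))) (a (b (l 16477024) (b (l 16482344) (l 16491160))) (b (l 16483880) (l 16506472)))))) (c (b (a (a (b (a (l 16500080) (l 16504312)) (c (l 16523016) (l 16520904))) (b (b (l 16506400) (l 16517464)) (c (l 16531048) (l 16524032)))) (a (b (b (l 16514800) (l 16523136)) (a (l 16538896) (l 16537696))) (b (b (l 16523128) (l 16531352)) (b (l 16539600) (l 16553104))))) (a (a (b (c (l 16545224) (l 16538392)) (c (l 16562264) (l 16555968))) (b (c (l 16553032) (l 16546544)) (c (l 16569856) (l 16563880))))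 (a (b (c (l 16555536) (l 16554608)) (c (l 16577384) (l 16571720))) (b (a (l 16563584) (l 16562240)) (c (l 16584848) (l 16579480)))))) (b (a (a (b (c (l 16490232) (l 16482120)) (c (l 16513440) (l 16505872))) (b (a (l 16498312) (l 16502872)) (c (l 16522168) (l 16514960)))) (a (b (b (l 16505240) (l 16514080)) (c (l 16525568) (l 16518704))) (b (b (l 16509032) (l 16523000)) (a (l 16533944) (l 16538288))))) (a (a (b (c (l 16531472) (l 16524456)) (c (l 16552200) (l 16545728))) (b (c (l 16539952) (l 16533280)) (c (l 16560440) (l 16556912)))) (a (b (c (l 16548352) (l 16542008)) (c (l 16571216) (l 16565384))) (b (c (l 16556664) (l 16555888)) (c (l 16579288) (l 16573768)))))))), by decide +kernel⟩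

def k65_pp_022 : ∃ t, chk3 f_pp_022 t 77 28 2 = true :=
  ⟨(b (a (b (c (a (l 16522568) (l 16528672)) (a (a (l 16503600) (l 16507688)) (a (l 16511760) (l 16515824)))) (c (a (c (l 16542568) (l 16546256)) (c (l 16559968) (l 16553504))) (a (b (l 16517784) (l 16532976)) (b (l 16525640) (l 16540648))))) (b (c (a (l 16536040) (l 16543376)) (a (l 16525984) (l 16532552))) (c (a (c (l 16566856) (l 16560720)) (c (l 16573704) (l 16567896))) (a (b (l 16522960) (l 16548264)) (c (l 16561992) (l 16556008)))))) (b (a (c (a (b (l 16560672) (l 16575104)) (b (l 16567520) (l 16581784))) (a (b (l 16553488) (l 16571440)) (b (l 16560968) (l 16576112)))) (c (a (b (l 16574320) (l 16588424)) (c (l 16601048) (l 16596048))) (a (b (l 16563152) (l 16588592)) (b (l 16570536) (l 16595792))))) (a (c (a (b (l 16594848) (l 16614672)) (b (l 16606608) (l 16621032))) (a (b (b (l 16575120) (l 16582848)) (b (l 16590592) (l 16598360))) (b (l 16596576) (b (l 16597552) (l 16605224))))) (b (c (a (l 16613096) (l 16619552)) (a (l 16603624) (l 16610640)))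 (a (c (l 16627360) (l 16618744)) (c (l 16633664) (l 16625576))))))), by decide +kernel⟩

def k66_pp_022 : ∃ t, chk3 f_pp_022 t 77 28 3 = true :=
  ⟨(b (a (b (c (a (c (l 16493640) (l 16485496)) (c (l 16502352) (l 16494592))) (a (c (l 16477232) (l 16468856)) (c (l 16486720) (l 16478744)))) (c (a (b (l 16503112) (l 16524488)) (b (l 16511688) (l 16532848))) (a (b (l 16493280) (l 16515616)) (b (l 16507824) (l 16524672))))) (b (c (a (c (l 16511000) (l 16503616)) (c (l 16519592) (l 16512576))) (a (c (l 16496128) (l 16488536)) (c (l 16505456) (l 16498248)))) (c (a (b (l 16520200) (l 16535888)) (b (l 16528640) (l 16554608))) (a (b (l 16517056) (l 16533656)) (b (l 16526200) (l 16542552)))))) (a (b (c (a (b (l 16543312) (b (l 16547640) (l 16555792))) (b (l 16554064) (l 16570120))) (a (b (l 16534088) (b (l 16535200) (l 16549072))) (b (l 16541584) (b (l 16543824) (l 16552328))))) (c (a (b (b (l 16563960) (l 16577392)) (c (l 16587008) (l 16592424))) (b (b (l 16571712) (l 16579800)) (c (l 16604832) (l 16600048)))) (a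 (b (c (l 16559656) (l 16564448)) (c (l 16587280) (l 16582072))) (b (c (l 16578304) (l 16572920)) (c (l 16595200) (l 16590288)))))) (b (c (a (b (l 16562136) (l 16577976)) (b (l 16570152) (l 16585768))) (a (b (l 16550320) (l 16567048)) (b (l 16558976) (l 16575464)))) (c (a (b (l 16596504) (c (l 16612112) (l 16607616))) (b (l 16601464) (c (l 16619352) (l 16615128)))) (a (b (c (l 16586392) (l 16581312)) (c (l 16603056) (l 16598432))) (b (l 16592032) (c (l 16610848) (l 16606504)))))))), by decide +kernel⟩

def k67_pp_022 : ∃ t, chk3 f_pp_022 t 38 232 1 = true :=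
  ⟨(a (c (a (c (a (a (l 16592088) (l 16595280)) (a (l 16598456) (l 16601624))) (a (c (l 16590672) (l 16585064)) (c (l 16597464) (l 16592152)))) (c (a (b (l 16602592) (l 16610112)) (b (l 16608904) (l 16616344))) (a (c (l 16604200) (l 16599176)) (c (l 16605640) (l 16606144))))) (a (c (a (c (l 16582000) (l 16576240)) (c (l 16589384) (l 16586544))) (a (c (l 16573016) (l 16567088)) (c (l 16581008) (l 16575392)))) (c (a (c (l 16594080) (l 16594160)) (c (l 16606576) (l 16601696))) (a (c (l 16588920) (l 16583608)) (c (l 16596752) (l 16591736)))))) (c (a (c (a (b (l 16615184) (l 16622544)) (l 16635552)) (a (a (l 16618848) (l 16622224)) (c (l 16629360) (l 16625160)))) (a (c (l 16641720) (c (l 16635920) (l 16631976))) (c (l 16647832) (c (l 16642400) (l 16638712))))) (a (c (a (c (l 16613760) (l 16609168)) (c (l 16620896) (l 16616576))) (a (c (l 16604504) (l 16599776)) (c (l 16612192) (l 16607744)))) (c (a (c (l 16627976) (l 16623920)) (c (l 16634968) (l 16631176))) (a (c (l 16619808) (l 16615640)) (a (l 16623488)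 (l 16627288))))))), by decide +kernel⟩

def k68_pp_022 : ∃ t, chk3 f_pp_022 t 38 233 1 = true :=
  ⟨(a (c (a (c (a (c (l 16616800) (l 16611856)) (a (l 16618984) (l 16622072))) (a (c (l 16606840) (l 16604376)) (c (l 16613448) (l 16613880)))) (c (a (a (l 16625152) (l 16633456)) (a (l 16636512) (l 16639560))) (a (c (l 16625240) (l 16620712)) (c (l 16631752) (l 16627480))))) (c (a (a (c (l 16601832) (l 16596600)) (c (l 16609008) (l 16604056))) (a (c (l 16616104) (l 16611440)) (c (l 16623152) (l 16618760)))) (a (a (c (l 16592600) (l 16587224)) (c (l 16599040) (l 16596576))) (a (c (l 16606712) (l 16601912)) (c (l 16614304) (l 16609792)))))) (b (a (c (a (c (l 16629920) (l 16627032)) (c (l 16636008) (l 16633624))) (c (a (l 16621288) (l 16631024)) (a (l 16615304) (l 16622952)))) (l 14)) (l 14))), by decide +kernel⟩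

def k69_pp_022 : ∃ t, chk3 f_pp_022 t 38 117 1 = true :=
  ⟨(b (b (a (a (a (c (c (l 16628576) (c (l 16624272) (l 16619568))) (c (c (l 16614800) (l 16604720)) (c (l 16599816) (l 16594848)))) (b (c (c (l 16624864) (l 16621240)) (c (l 16613432) (l 16606024))) (l 14))) (l 14)) (l 14)) (l 14)) (l 14)), by decide +kernel⟩

def k70_pp_022 : ∃ t, chk3 f_pp_022 t 38 59 1 = true :=
  ⟨(l 14), by decide +kernel⟩

def k71_pp_022 : ∃ t, chk3 f_pp_022 t 78 28 2 = true :=
  ⟨(b (b (a (c (a (l 16550672) (l 16557944)) (a (l 16537928) (l 16545872))) (c (a (l 16565184) (l 16572400)) (a (l 16553784) (l 16561648)))) (a (c (a (l 16583032) (l 16589984)) (a (c (l 16569456) (l 16563792)) (c (l 16576872) (l 16571528)))) (c (a (l 16591672) (l 16598584)) (a (l 16588304) (l 16594504))))) (a (b (c (a (c (l 16607576) (l 16602864)) (c (l 16614088) (l 16609656))) (a (b (l 16588360) (l 16602944)) (b (l 16595664) (l 16610064)))) (b (a (c (l 16625984) (l 16617616)) (c (l 16632360) (l 16624520))) (a (c (l 16639904) (l 16632328)) (c (l 16646088)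 (l 16639008))))) (b (c (a (b (l 16611736) (l 16625184)) (b (l 16618376) (l 16631632))) (a (b (l 16602928) (l 16617120)) (b (l 16610128) (l 16624096)))) (c (b (a (l 16638672) (l 16644888)) (a (l 16652160) (l 16658144))) (b (a (l 16631344) (l 16638056)) (a (l 16645568) (l 16652016))))))), by decide +kernel⟩

def k72_pp_022 : ∃ t, chk3 f_pp_022 t 78 28 3 = true :=
  ⟨(b (a (b (c (a (l 16530048) (l 16533448)) (a (l 16516552) (l 16525920))) (c (a (c (l 16558048) (l 16552224)) (b (l 16555840) (l 16570888))) (a (b (l 16535280) (l 16551384)) (b (l 16544280) (l 16560144))))) (b (c (a (l 16542040) (l 16550584)) (a (l 16529976) (l 16539208))) (c (a (b (l 16564112) (l 16578952)) (b (l 16572336) (l 16586968))) (a (b (l 16553216) (l 16568840)) (b (l 16562088) (l 16577480)))))) (a (b (c (a (b (l 16578104) (l 16593512)) (b (l 16586008) (l 16601208))) (a (b (l 16567560) (l 16583808)) (b (l 16576080) (l 16592096)))) (c (b (a (l 16609000) (l 16616448)) (a (l 16624528) (l 16631720))) (b (a (l 16600136) (l 16608144)) (a (a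 (l 16614568) (l 16618464)) (l 16624232))))) (a (b (c (b (l 16593864) (l 16608816)) (b (l 16584544) (l 16600272))) (c (b (l 16623800) (l 16638776)) (b (l 16616040) (l 16631800)))) (b (c (b (l 16601640) (l 16616336)) (b (l 16592904) (l 16608352))) (b (c (l 16631024) (l 16623792)) (c (l 16645712) (l 16639224))))))), by decide +kernel⟩

def k73_pp_022 : ∃ t, chk3 f_pp_022 t 78 29 1 = true :=
  ⟨(a (a (b (b (b (b (a (c (l 16645336) (l 16630712)) (c (l 16648480) (l 16634352))) (l 14)) (l 14)) (l 14)) (l 14)) (l 14)) (l 14)), by decide +kernel⟩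

def k74_pp_022 : ∃ t, chk3 f_pp_022 t 79 14 1 = true :=
  ⟨(b (b (c (b (c (a (a (l 16579592) (l 16586776)) (a (l 16593880) (l 16600864))) (a (a (l 16569480) (l 16577296)) (a (l 16585008) (l 16592592)))) (a (c (a (l 16605448) (l 16612248)) (a (l 16596712) (l 16604080))) (a (c (l 16618976) (l 16611368)) (c (l 16625552) (l 16618480))))) (a (b (c (a (l 16559080) (l 16567536)) (a (l 16548376) (l 16557496))) (c (a (l 16595584) (l 16595672)) (a (b (l 16570904) (l 16586024)) (l 16594896)))) (a (b (c (l 16575880) (l 16566496)) (c (l 16603536) (l 16595480))) (b (c (l 16584072) (l 16575312)) (c (l 16611200) (l 16603712)))))) (a (b (c (c (a (b (l 16624960) (l 16637984)) (l 16643104)) (a (b (l 16617256) (l 16630960)) (b (l 16624272) (l 16637712)))) (c (b (a (l 16609320) (l 16616880)) (a (l 16623728) (l 16630992))) (b (a (l 16601160) (l 16609280)) (a (l 16616288) (l 16624088))))) (b (c (a (c (l 16651008) (l 16644664)) (c (l 16657032) (l 16651152))) (c (a (l 16638128) (l 16645104)) (a (l 16631408) (l 16638880)))) (a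 (a (c (l 16659696) (l 16647792)) (l 14)) (l 14)))) (b (c (a (b (l 16634504) (c (l 16650376) (l 16644336))) (c (l 16650224) (l 16650896))) (c (b (a (l 16624280) (l 16631512)) (a (l 16638104) (l 16645032))) (b (a (l 16617224) (l 16624968)) (a (l 16631704) (l 16639120))))) (b (a (c (c (l 16662928) (l 16657504)) (c (l 16651912) (l 16646168))) (b (c (l 16663040) (l 16652456)) (l 14))) (l 14))))) (l 14)), by decide +kernel⟩

def k75_pp_022 : ∃ t, chk3 f_pp_022 t 9 15 1 = true :=
  ⟨(l 14), by decide +kernel⟩

def k76_pp_022 : ∃ t, chk3 f_pp_022 t 20 12 1 = true :=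
  ⟨(a (b (c (a (b (l 16278000) (l 16317080)) (b (l 16327160) (l 16363384))) (a (b (l 16234392) (l 16276800)) (b (l 16294528) (l 16333216)))) (c (a (b (l 16378352) (a (l 16388568) (l 16409264))) (b (l 16400880) (a (l 16429624) (l 16449656)))) (a (b (l 16320512) (c (l 16374104) (l 16356960))) (b (l 16373264) (a (l 16402608) (l 16426704)))))) (b (c (a (b (l 16374824) (l 16408256)) (l 16415504)) (a (l 16328248) (l 16424384))) (a (c (b (l 16443000) (a (l 16469360) (l 16488736))) (b (l 16424072) (l 16441000))) (c (b (l 16483896) (l 16496248)) (b (l 16473104) (l 16486440)))))), by decide +kernel⟩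

def k77_pp_022 : ∃ t, chk3 f_pp_022 t 40 13 1 = true :=
  ⟨(b (a (a (c (b (l 16453088) (c (l 16483608) (l 16470248))) (b (l 16421448) (c (l 16456496) (l 16442360)))) (c (b (l 16451424) (b (l 16483856) (l 16505960))) (b (l 16423696) (b (l 16458888) (l 16482888))))) (c (b (a (l 16470424) (l 16489104)) (c (a (l 16517576) (l 16534176)) (a (l 16507520) (l 16525680)))) (b (a (l 16446464) (l 16468784)) (a (b (l 16480320) (l 16503440)) (b (l 16501360) (l 16523568)))))) (a (a (c (b (b (l 16511472) (c (l 16540288) (l 16529568))) (c (b (l 16563640) (l 16587280)) (b (l 16554008) (l 16578752)))) (b (b (l 16497688) (c (l 16518536) (l 16507192))) (b (c (l 16544096) (l 16533904)) (c (l 16569976) (l 16566200))))) (c (b (b (l 16528416) (a (l 16547224) (l 16555280))) (b (c (l 16578520) (l 16570200)) (c (l 16601400) (l 16594072)))) (b (b (l 16507296) (a (l 16527368) (l 16536856))) (b (c (l 16561648) (l 16552848)) (c (l 16586536) (l 16578792)))))) (c (b (a (b (l 16545080) (l 16567144)) (b (l 16561296) (l 16582560))) (a (b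 (c (l 16592968) (l 16585904)) (c (l 16614928) (l 16608744))) (b (c (l 16606824) (l 16600928)) (a (l 16622008) (l 16628568))))) (b (b (c (l 16519888) (l 16511328)) (a (a (l 16546208) (l 16555424)) (l 16568880))) (a (b (c (l 16578632) (l 16571152)) (c (l 16602368) (l 16595824))) (b (c (l 16594864) (l 16588640)) (c (l 16617448) (l 16612024)))))))), by decide +kernel⟩

def k78_pp_022 : ∃ t, chk3 f_pp_022 t 41 13 1 = true :=
  ⟨(b (a (c (b (a (l 16507528) (l 16525536)) (a (b (l 16536888) (l 16556888)) (l 16542432))) (b (a (l 16490720) (l 16512088)) (a (b (l 16521872) (l 16543128)) (l 16530976)))) (a (b (c (l 16543088) (l 16532880)) (c (l 16579240) (l 16570568))) (b (c (l 16560192) (l 16553064)) (c (l 16594424) (l 16588376))))) (c (a (b (a (b (l 16577048) (l 16597320)) (b (l 16592120) (l 16611432))) (a (b (l 16617680) (a (l 16634952) (l 16641160))) (b (l 16630776) (a (l 16647176) (l 16653000))))) (b (a (b (l 16606528) (l 16624832)) (b (l 16620224) (l 16637480))) (a (b (l 16643128) (a (l 16658624) (l 16664024)))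 (b (l 16654640) (a (l 16669264) (l 16674320)))))) (a (b (a (b (l 16564568) (l 16586152)) (b (l 16582232) (l 16602608))) (a (b (c (l 16610344) (l 16605280)) (a (l 16625928) (l 16633112))) (b (l 16602064) (a (l 16640064) (l 16646784))))) (b (a (b (l 16599072) (l 16618208)) (b (l 16615048) (l 16632904))) (a (b (l 16616376) (a (l 16653272) (l 16659480))) (b (l 16629680) (a (l 16665496) (l 16671296)))))))), by decide +kernel⟩

def k79_pp_022 : ∃ t, chk3 f_pp_022 t 21 12 1 = true :=
  ⟨(a (b (a (c (l 16459064) (l 16455784)) (c (l 16500856) (l 16484824))) (a (c (b (l 16523160) (l 16553544)) (b (l 16519936) (l 16550472))) (c (b (l 16560480) (l 16566296)) (b (l 16543272) (l 16569328))))) (b (a (b (l 16494168) (l 16515256)) (c (l 16598608) (l 16583424))) (a (b (c (l 16595000) (l 16605080)) (a (l 16572192) (l 16608896))) (c (b (l 16623640) (l 16639208)) (b (l 16607776) (l 16625936)))))), by decide +kernel⟩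

def k80_pp_022 : ∃ t, chk3 f_pp_022 t 21 13 1 = true :=
  ⟨(a (b (b (a (c (a (l 16576584) (l 16592280)) (l 16539776)) (c (l 16572488) (l 16574896))) (a (c (b (l 16586968) (l 16592184)) (b (l 16584456) (l 16600376))) (a (c (l 16614496) (l 16615360)) (c (l 16626664) (l 16629520))))) (a (c (b (a (b (l 16633160) (l 16649304)) (b (l 16645264) (l 16660408))) (a (b (l 16665456) (l 16660632)) (a (l 16659928) (l 16664656)))) (b (a (b (l 16630104) (l 16646592)) (c (l 16631136) (l 16630616))) (a (b (l 16642136) (a (l 16676880) (l 16682320))) (b (l 16653744) (l 16671840))))) (b (a (c (c (l 16642744) (l 16643032)) (a (l 16640408) (l 16646464))) (c (c (l 16652632) (l 16653664)) (l 16650072))) (b (c (a (l 16664216) (l 16673328)) (c (l 16669672) (l 16665024))) (c (a (l 16683960) (a (l 16684976) (l 16688992))) (a (c (l 16679032) (l 16679264)) (a (l 16686176) (l 16690672)))))))) (b (a (b (c (l 16599208) (l 16627128)) (c (b (l 16648280) (l 16654768)) (b (l 16643680) (l 16654728)))) (c (b (l 16635560) (b (l 16670528) (l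 16659432))) (b (l 16624752) (a (l 16669144) (l 16643872))))) (b (c (a (a (b (l 16677608) (l 16690184)) (b (l 16687320) (l 16699096))) (a (b (l 16691624) (l 16702008)) (b (l 16689976) (l 16701184)))) (a (a (l 16661312) (b (l 16688680) (l 16698968))) (b (a (l 16685288) (l 16661552)) (a (l 16696608) (l 16673888))))) (b (c (a (a (l 16702904) (l 16690040)) (a (l 16691904) (c (l 16714112) (l 16690632)))) (a (a (l 16684752) (l 16688736)) (a (l 16692656) (a (l 16686816) (l 16686600))))) (a (b (a (a (l 16690688) (l 16694776)) (a (l 16698728) (l 16709080))) (a (c (l 16718984) (l 16700216)) (l 14))) (l 14)))))), by decide +kernel⟩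

def k81_pp_022 : ∃ t, chk3 f_pp_022 t 44 6 1 = true :=
  ⟨(b (b (c (a (l 16583416) (l 16503304)) (a (l 16515344) (l 16471480))) (c (b (a (l 16609024) (l 16575920)) (a (l 16628088) (l 16577040))) (a (a (l 16561312) (l 16553440)) (b (l 16571512) (l 16576848))))) (b (c (c (b (a (l 16651952) (l 16625704)) (a (l 16662856) (b (l 16664744) (l 16656400)))) (a (b (l 16624128) (l 16641760)) (b (l 16617464) (b (l 16657920) (l 16671456))))) (a (b (b (l 16607280) (l 16619504)) (a (l 16640192) (l 16631888))) (b (b (l 16618424) (l 16611648)) (a (b (l 16648440) (l 16662928)) (b (l 16646104) (l 16661568)))))) (b (c (a (a (b (l 16688816) (l 16700832)) (b (l 16667160) (l 16685216))) (a (b (l 16666944) (b (l 16677096) (l 16684032))) (b (c (l 16690720) (l 16685560)) (a (l 16681296) (l 16681928))))) (a (a (b (l 16659384) (l 16672744)) (b (l 16657824) (c (l 16695160) (l 16691120)))) (a (b (l 16656864) (c (l 16695328) (l 16691008))) (b (c (l 16680208) (l 16674664)) (a (l 16693592) (l 16673064)))))) (b (b (a (a (c (l 16689184)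 (l 16683048)) (c (l 16689904) (l 16693736))) (l 14)) (l 14)) (l 14))))), by decide +kernel⟩

def k82_pp_022 : ∃ t, chk3 f_pp_022 t 45 6 1 = true :=
  ⟨(a (b (c (b (l 16488704) (b (l 16565768) (c (l 16617696) (l 16605984)))) (b (l 16430840) (b (l 16557456) (c (l 16593832) (l 16581256))))) (b (c (c (b (l 16622256) (b (l 16663480) (l 16661832))) (b (l 16612872) (a (l 16642520) (b (l 16655576) (l 16671168))))) (c (b (l 16603152) (a (l 16635296) (b (l 16647424) (l 16664200)))) (b (l 16593080) (b (l 16639568) (l 16636104))))) (b (b (c (a (c (l 16691544) (l 16686144)) (c (l 16692800) (l 16687208))) (a (c (l 16680544) (l 16674744)) (c (l 16681424) (l 16675424)))) (a (a (c (l 16682672) (l 16678896)) (l 14)) (l 14))) (l 14)))) (b (b (c (b (l 16526368) (l 16551864)) (b (l 16482040) (l 16513400))) (c (b (l 16557664) (c (l 16613208) (l 16600240))) (b (l 16525016) (c (l 16586792) (l 16572872))))) (b (c (c (b (b (l 16634296) (l 16648912)) (b (l 16642992) (a (l 16678832) (l 16680224)))) (b (b (l 16623368) (l 16639304))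 (b (l 16634688) (a (l 16671904) (l 16673136))))) (c (b (b (l 16612032) (l 16629344)) (b (l 16626080) (a (l 16664712) (l 16665784)))) (b (b (l 16600296) (l 16619032)) (b (l 16638136) (a (l 16657272) (l 16658176)))))) (b (b (a (c (c (l 16694464) (l 16688752)) (c (l 16682832) (l 16676704))) (b (b (c (l 16687264) (l 16674272)) (l 14)) (l 14))) (l 14)) (l 14))))), by decide +kernel⟩

def k83_pp_022 : ∃ t, chk3 f_pp_022 t 23 12 1 = true :=
  ⟨(c (c (b (a (b (l 16521416) (l 16507664)) (b (l 16507768) (a (l 16542608) (l 16540352)))) (a (b (a (l 16581056) (l 16577616)) (a (l 16610600) (b (l 16601640) (l 16618152)))) (b (a (l 16576080) (l 16576416)) (a (b (l 16602096) (l 16619944)) (a (l 16613040) (l 16630680)))))) (b (a (b (l 16497024) (l 16486640)) (b (l 16480328) (a (l 16519720) (l 16516552)))) (a (b (a (l 16563952) (l 16559424)) (a (l 16596632) (a (l 16595336) (l 16595128)))) (b (a (l 16557056) (l 16556824)) (a (b (l 16585960) (l 16605704)) (b (l 16587936) (l 16614392))))))) (c (b (a (b (l 16471736) (l 16443872))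 (b (l 16399456) (a (l 16496000) (l 16491896)))) (a (b (a (l 16546224) (l 16540568)) (a (l 16582152) (a (l 16580256) (l 16579736)))) (b (a (l 16537344) (l 16536520)) (a (a (l 16579808) (l 16580464)) (a (l 16581712) (l 16593992)))))) (b (a (b (l 16445568) (l 16442288)) (b (l 16380520) (a (l 16471456) (l 16466384)))) (a (b (a (l 16527880) (l 16521056)) (a (l 16567168) (a (l 16564656) (l 16563808)))) (b (a (l 16516944) (l 16515520)) (a (a (l 16563624) (l 16564088)) (a (l 16565208) (l 16587928)))))))), by decide +kernel⟩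

def k84_pp_022 : ∃ t, chk3 f_pp_022 t 23 13 1 = true :=
  ⟨(b (b (a (c (a (c (b (l 16633768) (l 16649768)) (b (l 16622112) (l 16639616))) (c (b (l 16635080) (a (l 16651616) (l 16653408))) (b (l 16622944) (a (l 16641208) (l 16642912))))) (a (c (b (l 16610016) (l 16629088)) (b (l 16597512) (l 16618192))) (a (c (l 16635944) (l 16618664)) (b (l 16604328) (c (l 16632032) (l 16620784)))))) (c (a (c (b (a (l 16637264) (l 16639280)) (a (l 16655640) (l 16658312))) (b (a (l 16624936) (l 16626896)) (a (l 16645120) (l 16647824)))) (b (c (a (l 16641720) (l 16644584)) (a (l 16629352) (l 16632280))) (a (c (l 16661400) (l 16651000)) (c (l 16670120) (l 16659872))))) (a (c (b (a (l 16612152) (l 16614064)) (a (l 16634216) (l 16636952))) (b (l 16610280) (a (l 16622928) (l 16625704)))) (b (c (a (l 16616528) (l 16619528)) (a (l 16603264) (l 16606336))) (a (c (l 16640232) (l 16629080)) (c (l 16649248) (l 16643504))))))) (a (a (c (c (b (a (l 16665488) (l 16667072)) (a (l 16682056) (l 16689576))) (b (a (l 16656888) (l 16658344))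 (a (l 16674872) (l 16677112)))) (a (b (c (l 16647968) (l 16638736)) (c (l 16667424) (l 16659712))) (b (c (l 16649296) (l 16639936)) (c (l 16669624) (l 16661880))))) (b (c (a (c (l 16669096) (l 16660304)) (c (l 16671560) (l 16662768))) (a (c (l 16651192) (l 16641768)) (c (l 16653656) (l 16644224)))) (b (a (c (c (l 16682504) (l 16674912)) (c (l 16667040) (l 16658896))) (a (c (l 16680960) (l 16665304)) (l 14))) (l 14)))) (b (a (a (c (c (l 16679712) (l 16670976)) (c (l 16661928) (l 16657800))) (b (c (c (l 16672872) (l 16663784)) (c (l 16654376) (l 16644632))) (l 14))) (b (a (a (c (l 16671056) (l 16652456)) (l 14)) (l 14)) (l 14))) (l 14)))) (l 14)), by decide +kernel⟩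

def k85_pp_022 : ∃ t, chk3 f_pp_022 t 20 56 1 = true :=
  ⟨(b (a (a (c (a (c (a (l 16607776) (l 16614520)) (a (l 16600080) (l 16607384))) (a (l 16612608) (l 16624568))) (a (c (a (l 16592160) (l 16600040)) (a (l 16584016) (l 16592488))) (c (a (l 16607744) (l 16615264)) (a (l 16600768) (l 16608848))))) (c (a (a (l 16631120) (l 16637504)) (a (l 16643720) (l 16649752))) (a (a (a (l 16617800) (l 16621544)) (l 16627072)) (c (l 16640056) (l 16614464))))) (c (c (a (a (l 16660192) (l 16670656)) (a (l 16680488) (l 16689632))) (a (a (l 16656688) (l 16646968)) (a (l 16657512) (l 16667288)))) (a (a (c (l 16653080) (l 16628400)) (c (l 16644168) (l 16641296))) (a (c (l 16655456) (l 16653336)) (c (l 16665888) (l 16664456)))))) (b (a (a (c (a (a (l 16622512) (l 16629168)) (a (l 16635672) (l 16642000))) (a (c (l 16615776) (l 16608816)) (c (l 16630304) (l 16624400)))) (c (a (a (l 16648168) (l 16654160)) (a (l 16659968) (l 16665592))) (a (a (l 16638128) (l 16645032)) (a (l 16651720) (l 16658184))))) (a (c (a (a (l 16671032)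 (l 16676264)) (a (l 16681280) (l 16686120))) (a (a (l 16664416) (l 16670408)) (a (l 16676136) (l 16681664)))) (a (a (a (l 16687664) (l 16690120)) (a (l 16692536) (l 16694920))) (l 14)))) (a (a (c (a (a (l 16634912) (l 16641312)) (a (l 16647560) (l 16653632))) (a (c (l 16628904) (l 16622528)) (c (l 16642824) (l 16637448)))) (c (a (a (l 16659536) (l 16665256)) (a (l 16670792) (l 16676128))) (a (a (l 16650424) (l 16656992)) (a (l 16663344) (l 16669456))))) (a (a (c (a (l 16681280) (l 16686200)) (a (l 16675344) (l 16680960))) (a (a (l 16676968) (l 14)) (l 14))) (l 14))))), by decide +kernel⟩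

def k86_pp_022 : ∃ t, chk3 f_pp_022 t 20 57 1 = true :=
  ⟨(a (b (b (a (c (a (a (l 16647288) (l 16653440)) (a (l 16659424) (l 16665232))) (a (c (l 16640688) (a (l 16632512) (l 16639848))) (a (l 16649528) (l 16656208)))) (a (c (a (l 16670856) (l 16676296)) (c (l 16667800) (l 16653304))) (a (c (l 16681552) (l 16674896)) (l 14)))) (a (c (a (a (l 16649168) (l 16665536)) (a (l 16671248) (l 16676784))) (b (a (a (l 16645688) (l 16652536)) (a (l 16659176) (l 16665600))) (a (a (l 16652440) (l 16659128)) (l 14)))) (l 14))) (l 14)) (l 14)), by decide +kernel⟩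

def k87_pp_022 : ∃ t, chk3 f_pp_022 t 21 28 1 = true :=
  ⟨(b (b (a (a (a (c (c (l 16677328) (l 16676536)) (c (l 16675728) (l 16674904))) (b (c (l 16681496) (l 16680896)) (l 14))) (a (a (a (l 16700920) (l 16702984)) (l 14)) (l 14))) (l 14)) (l 14)) (l 14)), by decide +kernel⟩

def k88_pp_022 : ∃ t, chk3 f_pp_022 t 10 29 1 = true :=
  ⟨(l 14), by decide +kernel⟩

def k89_pp_022 : ∃ t, chk3 f_pp_022 t 10 15 1 = true :=
  ⟨(l 4), by decide +kernel⟩

def k90_pp_022 : ∃ t, chk3 f_pp_022 t 11 7 1 = true :=
  ⟨(l 14), by decide +kernel⟩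

def k91_pp_022 : ∃ t, chk3 f_pp_022 t 12 4 2 = true :=
  ⟨(a (a (b (l 16136616) (b (b (l 16111440) (l 16106072)) (l 16142720))) (b (l 16063736) (b (b (l 16035456) (b (l 16033304) (l 16046616))) (c (l 16135088) (l 16054864))))) (b (c (a (l 16039368) (l 15979832)) (a (l 15950048) (l 15880936))) (b (b (a (a (l 15983248) (l 15952224)) (b (a (l 15918672) (l 15892368)) (l 15921384))) (a (l 15992152) (l 15957800))) (a (c (l 16100688) (l 16014728)) (c (l 16075328) (l 15984896)))))), by decide +kernel⟩

def k92_pp_022 : ∃ t, chk3 f_pp_022 t 13 4 2 = true :=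
  ⟨(b (a (b (a (l 15885504) (a (l 15843704) (l 15817056))) (b (a (l 15863200) (a (l 15820240) (l 15792864))) (a (a (l 15865464) (b (l 15837368) (a (l 15821672) (l 15811584)))) (b (a (l 15789824) (b (l 15764432) (l 15770712))) (a (l 15801368) (l 15813304)))))) (b (a (a (l 15791376) (l 15745696)) (c (l 15732368) (a (l 15678952) (l 15633312)))) (a (b (a (b (l 15770600) (a (l 15769352) (l 15716224))) (b (l 15745304) (b (a (l 15745672) (l 15693736)) (a (l 15707480) (l 15746376))))) (a (b (a (l 15757160) (l 15774824)) (l 15785264)) (c (l 15847360) (l 15723640)))) (b (b (a (a (l 15727408) (b (l 15717264) (a (l 15675440) (l 15671344)))) (b (a (l 15706056) (a (l 15656664) (l 15652872))) (a (b (l 15664408) (l 15713296)) (l 15708272)))) (a (a (b (l 15687008) (l 15744216)) (l 15734640)) (c (l 15798136) (l 15666904)))) (c (l 15781032) (a (l 15720016) (l 15718624))))))) (a (b (a (a (b (l 15886344) (l 15938216)) (b (l 15874344) (l 15928000))) (c (l 15921968) (c (l 15818936) (l 15763104)))) (a (c (l 16058528) (l 15964816))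 (c (l 16049680) (a (l 15955720) (l 15952432))))) (b (a (c (a (l 15914952) (l 15912744)) (a (l 15803440) (l 15800480))) (c (a (l 15912448) (l 15914016)) (a (l 15799704) (l 15801056)))) (a (c (a (l 16048040) (l 16028280)) (b (l 15877336) (l 15941920))) (c (a (l 16052248) (l 16056976)) (a (l 15955232) (l 15960200))))))), by decide +kernel⟩

def k93_pp_022 : ∃ t, chk3 f_pp_022 t 12 4 3 = true :=
  ⟨(a (a (b (l 15994208) (a (b (l 15976144) (l 16008792)) (b (l 15927792) (l 15974576)))) (b (b (l 15917000) (l 15882488)) (b (b (l 15856928) (a (l 15878672) (l 15841320))) (a (l 15943624) (l 15915896))))) (b (a (b (l 15829352) (l 15791488)) (b (l 15746960) (a (l 15726792) (l 15685336)))) (b (b (a (a (l 15788824) (b (l 15745664) (l 15746824))) (b (a (l 15704880) (l 15680768)) (a (l 15718328) (l 15696792)))) (a (a (l 15811296) (l 15785504)) (a (l 15762800) (l 15743152)))) (a (c (l 15925848) (l 15834120)) (c (l 15891416) (l 15794976)))))), by decide +kernel⟩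

def k94_pp_022 : ∃ t, chk3 f_pp_022 t 13 8 3 = true :=
  ⟨(a (b (a (l 15669544) (a (l 15614568) (l 15579408))) (b (a (l 15636448) (a (l 15579848) (l 15543664))) (a (a (l 15652640) (b (l 15600544) (b (l 15574672) (l 15582288)))) (b (a (a (l 15572712) (l 15535392)) (b (a (l 15538608) (l 15502856)) (a (l 15522072) (l 15536744)))) (a (a (l 15561848) (l 15576024)) (l 15545840)))))) (b (a (a (l 15545440) (b (l 15525248) (l 15479064))) (a (c (l 15548000) (l 15413080)) (b (l 15442832) (c (l 15507360) (l 15366376))))) (b (a (b (a (l 15514792) (l 15460216)) (a (a (l 15511896) (b (l 15497056) (c (l 15561800) (l 15426848)))) (b (b (l 15457216) (a (l 15479240) (a (l 15468888) (l 15465064)))) (a (c (l 15552552) (l 15416288)) (l 15480616))))) (b (a (b (l 15431040) (a (l 15475144) (b (l 15460848) (c (l 15511520) (l 15370136))))) (b (a (c (l 15499928) (l 15357312)) (b (c (l 15487200) (l 15342872)) (c (l 15488608) (a (l 15345584) (l 15342248))))) (a (b (c (l 15499880) (l 15357016)) (l 15437648)) (l 15430880)))) (a (a (b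 (c (l 15527464) (l 15429976)) (l 15477448)) (l 15443984)) (c (l 15531512) (l 15392056))))) (a (a (b (a (b (l 15492200) (l 15531376)) (l 15517296)) (l 15536024)) (c (l 15595960) (l 15464408))) (a (c (l 15591480) (l 15459064)) (c (l 15589512) (l 15456520))))))), by decide +kernel⟩

def k95_pp_022 : ∃ t, chk3 f_pp_022 t 13 9 3 = true :=
  ⟨(c (a (b (a (a (l 15749472) (l 15735808)) (a (l 15724344) (l 15694544))) (a (l 15867984) (a (l 15857144) (l 15853040)))) (b (a (a (l 15688304) (l 15684592)) (a (b (l 15666712) (l 15741968)) (b (l 15666816) (l 15744136)))) (a (c (l 15855784) (l 15804960)) (a (l 15855048) (b (l 15821528) (l 15899120)))))) (a (b (a (a (l 15636856) (l 15621264)) (a (l 15608120) (l 15597928))) (a (a (l 15773728) (l 15763184)) (b (l 15694136) (l 15769440)))) (b (a (a (l 15590624) (b (l 15545584) (l 15626768))) (a (b (l 15542640) (l 15626224)) (c (l 15573728) (l 15533768)))) (a (a (l 15748360) (l 15748792)) (b (l 15690800) (a (l 15793824) (l 15800448))))))), by decide +kernel⟩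

def k96_pp_022 : ∃ t, chk3 f_pp_022 t 24 5 1 = true :=
  ⟨(b (c (a (b (a (l 16221984) (l 16200976)) (c (l 16308688) (l 16253000))) (b (c (l 16208992) (l 16138536)) (c (l 16284040) (l 16223904)))) (a (b (c (l 16111560) (l 16042344)) (c (l 16195328) (l 16135736))) (b (a (l 16039344) (l 16017952)) (a (l 16137656) (l 16122592))))) (c (b (a (c (l 16376032) (l 16329840)) (c (b (l 16341520) (l 16380632)) (b (l 16289456) (l 16334048)))) (a (b (a (l 16412720) (l 16406144)) (a (l 16449992) (l 16446056))) (b (a (l 16401704) (l 16399312)) (a (l 16444152) (c (l 16462016) (l 16426088)))))) (a (b (c (l 16323944) (a (l 16240600) (l 16225240))) (c (b (l 16349160) (l 16395184)) (b (l 16307440) (l 16358592)))) (b (c (b (l 16235560) (l 16285800)) (b (l 16179864) (l 16235952))) (b (a (l 16317432) (l 16313352)) (a (l 16391760) (c (l 16388880) (l 16350416)))))))), by decide +kernel⟩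

def k97_pp_022 : ∃ t, chk3 f_pp_022 t 25 5 1 = true :=
  ⟨(b (c (a (b (c (l 16183760) (l 16108808)) (c (l 16267936) (l 16204544))) (b (c (l 16167064) (l 16088824)) (c (l 16280728) (a (l 16196016) (l 16192992))))) (a (b (c (l 16031288) (l 15951256)) (c (l 16138960) (l 16071224))) (b (c (l 16007920) (l 15924432)) (c (a (l 16128680) (l 16124848)) (a (l 16059168) (l 16054496)))))) (c (c (b (a (b (l 16332160) (l 16375816)) (b (l 16309360) (l 16378128))) (a (b (l 16420272) (a (l 16464048) (l 16467744))) (a (b (l 16424512) (l 16473048)) (b (l 16429392) (l 16479928))))) (b (a (b (l 16277760) (l 16327504)) (b (l 16274664) (l 16334352))) (a (b (l 16378016) (a (l 16427848) (l 16431520))) (a (b (l 16382064) (l 16437040)) (b (l 16387104) (l 16454840)))))) (a (c (b (b (l 16221456) (l 16277488)) (b (l 16344752) (a (l 16390368) (l 16394016)))) (b (b (l 16163296) (l 16225824)) (b (l 16305776) (a (l 16351624) (l 16355256))))) (a (b (b (l 16187920) (l 16272352)) (b (c (l 16338120) (l 16292720)) (c (l 16399752) (l 16361224))))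 (b (b (l 16187792) (c (l 16279984) (l 16227568))) (b (c (l 16343336) (l 16298128)) (c (l 16423256) (l 16390440)))))))), by decide +kernel⟩

def k98_pp_022 : ∃ t, chk3 f_pp_022 t 13 10 1 = true :=
  ⟨(a (c (b (a (c (l 16158256) (l 16077848)) (c (a (l 16156584) (l 16157728)) (a (l 16075256) (l 16076112)))) (a (c (a (l 16258464) (l 16259816)) (a (l 16192040) (l 16193120))) (c (b (l 16216928) (l 16271312)) (b (l 16146528) (l 16229416))))) (a (b (c (a (l 15997088) (l 15992952)) (a (l 15911792) (l 15906808))) (c (b (l 16070104) (l 16135048)) (b (l 15995312) (l 16088704)))) (a (b (c (l 15991200) (l 15904496)) (c (l 16148136) (l 16097912))) (b (c (l 15991768) (l 15904784)) (b (l 16080768) (c (l 16167840) (l 16100976))))))) (c (a (b (c (a (l 16160616) (l 16165208)) (b (l 16027688) (l 16092752))) (b (c (l 16227904) (l 16176520)) (c (a (l 16302504) (l 16311248)) (c (l 16239624) (l 16208240))))) (b (c (b (l 16123992) (l 16184480)) (a (l 16111440) (c (l 16119328) (l 16078520)))) (c (b (a (l 16261256) (l 16271416))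 (c (l 16320768) (l 16291440))) (a (b (l 16192632) (l 16261208)) (b (l 16203808) (l 16274120)))))) (a (b (c (b (l 15939416) (l 16012520)) (b (l 15848392) (l 15950744))) (b (c (c (l 16104328) (l 16067720)) (a (l 16028560) (l 16037448))) (c (a (l 16176224) (l 16186600)) (a (l 16109984) (l 16121240))))) (b (c (b (a (l 15968768) (l 15977016)) (a (l 16045024) (l 16055272))) (b (a (l 15878216) (l 15887096)) (c (l 15968040) (l 15926680)))) (c (b (a (l 16121720) (l 16133944)) (a (l 16198920) (l 16213096))) (b (a (l 16048584) (l 16061896)) (a (l 16134656) (l 16150152)))))))), by decide +kernel⟩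

def k99_pp_022 : ∃ t, chk3 f_pp_022 t 26 11 1 = true :=
  ⟨(c (b (a (c (b (l 16335424) (a (l 16384280) (l 16390392))) (b (l 16279488) (a (l 16335376) (l 16341856)))) (c (b (c (l 16339608) (l 16312472)) (a (l 16398048) (l 16407200))) (b (a (l 16288080) (l 16296064)) (a (l 16350120) (l 16360104))))) (a (a (b (c (l 16435848) (l 16393960)) (c (c (l 16496848) (l 16479704)) (c (l 16462248) (l 16444480)))) (b (c (l 16443832) (l 16402576)) (c (c (l 16506488) (l 16489776)) (b (l 16427688) (l 16479664))))) (b (a (c (l 16463792) (c (l 16423136) (l 16402576))) (c (c (l 16473816) (l 16454496)) (c (l 16434832) (l 16414816)))) (a (c (c (l 16517488) (l 16501312)) (c (l 16490088) (l 16479880))) (b (c (l 16507512) (l 16473960)) (c (a (l 16533288) (l 16540144)) (c (l 16514480) (l 16478392)))))))) (b (a (a (b (l 16211000) (c (l 16284776) (l 16232520))) (b (c (l 16224128) (l 16164496)) (c (l 16291648) (l 16239808)))) (a (b (c (l 16230688) (l 16171440)) (c (l 16300536) (l 16249344))) (b (c (l 16239280) (l 16180672)) (c (l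 16311384) (l 16271568))))) (a (b (a (c (l 16350616) (l 16305848)) (c (l 16370376) (l 16336768))) (a (c (a (l 16414656) (l 16420008)) (b (l 16361328) (l 16398576))) (c (b (l 16390608) (l 16446296)) (a (l 16389184) (l 16416976))))) (c (b (a (c (l 16381672) (l 16360424)) (b (l 16344928) (l 16402472))) (a (a (l 16457224) (c (l 16454616) (l 16437456))) (c (a (l 16462088) (l 16469984)) (a (l 16445264) (l 16453528))))) (b (a (a (l 16324688) (l 16331280)) (b (l 16321816) (l 16362504))) (b (a (l 16387304) (a (l 16399176) (l 16407704))) (a (a (l 16423128) (l 16431280)) (a (l 16439928) (l 16449056))))))))), by decide +kernel⟩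

def k100_pp_022 : ∃ t, chk3 f_pp_022 t 27 11 2 = true :=
  ⟨(b (a (c (b (a (l 16359880) (l 16370264)) (a (l 16417808) (a (l 16426680) (l 16433024)))) (b (a (l 16305784) (l 16317200)) (a (a (l 16368688) (l 16374920)) (a (l 16381552) (l 16388576))))) (a (b (c (l 16382064) (l 16330248)) (c (a (l 16439704) (l 16446720)) (c (l 16410808) (l 16388768)))) (b (c (l 16395248) (a (l 16341072) (l 16348768))) (c (c (l 16468040) (l 16447560)) (c (l 16426712) (l 16410752)))))) (a (b (a (c (c (l 16485784) (l 16467088)) (c (l 16448064) (l 16428704))) (c (c (l 16499032) (l 16481064)) (c (l 16471952) (a (l 16440160) (l 16448288))))) (a (c (c (a (l 16539864) (l 16546952)) (a (l 16524872) (l 16532360))) (c (a (l 16509608) (l 16527984)) (a (l 16494080) (l 16512864)))) (b (c (c (l 16543280) (l 16507352)) (c (l 16492128) (l 16487120))) (c (a (l 16562600) (l 16570704)) (a (l 16535752) (l 16548712)))))) (b (a (c (c (l 16521384) (a (l 16492432) (l 16500416))) (c (a (l 16474760) (l 16483192)) (a (l 16456784) (l 16465664)))) (c (c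 (a (l 16525192) (l 16533336)) (a (l 16508720) (l 16517336))) (c (a (l 16491952) (l 16511544)) (b (l 16440080) (l 16493048))))) (a (b (c (a (l 16526792) (l 16556088)) (a (l 16518664) (l 16527952))) (c (a (l 16579104) (a (l 16585608) (l 16590024))) (a (a (l 16551776) (l 16556544)) (c (l 16569920) (l 16557736))))) (a (b (c (l 16564712) (l 16541832)) (c (a (l 16594520) (l 16599080)) (c (l 16579688) (l 16568040)))) (b (c (l 16573624) (a (l 16545016) (l 16550072))) (b (c (l 16576952) (l 16564568)) (l 14)))))))), by decide +kernel⟩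

def k101_pp_022 : ∃ t, chk3 f_pp_022 t 27 22 3 = true :=
  ⟨(a (c (b (a (l 16249856) (l 16262336)) (a (c (l 16336176) (l 16311968)) (c (l 16350408) (l 16326872)))) (b (a (l 16192120) (l 16216208)) (a (c (l 16287384) (l 16262424)) (b (l 16248560) (l 16312256))))) (b (a (c (a (l 16272920) (l 16280536)) (c (l 16235368) (l 16207304))) (c (c (l 16305968) (l 16279504)) (c (l 16252632) (l 16225360)))) (b (a (c (l 16314408) (l 16286880)) (c (l 16342448) (l 16306136))) (a (c (l 16374704) (l 16330704)) (c (b (l 16362160) (l 16382336)) (a (l 16345776) (l 16356400))))))), by decide +kernel⟩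

def k102_pp_022 : ∃ t, chk3 f_pp_022 t 27 23 3 = true :=
  ⟨(a (c (b (a (c (l 16419496) (l 16402112)) (b (l 16396368) (a (l 16430592) (l 16439584)))) (b (a (c (l 16443152) (l 16426264)) (a (l 16469184) (l 16478672))) (a (a (l 16489192) (l 16498376)) (a (l 16513208) (a (l 16515416) (l 16520504)))))) (b (a (a (l 16375120) (c (l 16372960) (l 16352504))) (c (a (l 16381864) (l 16391240)) (a (l 16361824) (l 16371624)))) (a (a (b (l 16416720) (l 16458664)) (b (l 16426216) (l 16473976))) (b (a (l 16436184) (l 16446608)) (a (c (l 16486520) (l 16471944)) (c (l 16497248) (l 16483176))))))) (a (b (c (c (a (l 16438512) (l 16447840)) (a (l 16419936) (l 16440216))) (c (b (l 16363696) (l 16427656)) (b (l 16343640) (l 16409864)))) (b (c (a (l 16488560) (a (l 16496232) (l 16501472))) (a (l 16462712) (c (l 16476376) (l 16461112)))) (c (a (c (l 16534856) (l 16521728)) (c (l 16545344) (l 16532744))) (a (c (l 16508392) (l 16494848)) (c (l 16519952) (l 16506952)))))) (a (b (c (b (l 16428624) (l 16468976)) (b (l 16390544) (l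 16435456))) (b (c (a (l 16506800) (l 16512224)) (c (l 16487840) (l 16473120))) (c (c (l 16556192) (l 16544152)) (c (l 16537160) (l 16524728))))) (b (c (b (l 16438752) (l 16479560)) (b (l 16401680) (l 16452336))) (b (c (c (l 16527368) (l 16513648)) (c (l 16499712) (l 16485560))) (b (c (l 16548760) (l 16528256)) (l 14))))))), by decide +kernel⟩

def k103_pp_022 : ∃ t, chk3 f_pp_022 t 28 16 2 = true :=
  ⟨(a (b (a (l 15665552) (l 15644880)) (b (a (l 15651728) (c (l 15741560) (l 15602736))) (a (a (l 15648400) (b (l 15681400) (b (l 15636448) (a (l 15617512) (l 15657552))))) (b (a (l 15629336) (b (l 15609720) (a (l 15611616) (l 15599592)))) (a (b (a (l 15609168) (l 15628416)) (l 15678744)) (l 15633240)))))) (b (a (c (l 15736048) (l 15597040)) (c (l 15718904) (l 15576616))) (b (a (a (c (l 15728160) (l 15586816)) (b (l 15629264) (b (l 15599920) (a (c (l 15719888) (l 15576728)) (l 15595296))))) (b (a (c (l 15712736) (l 15568592)) (b (a (l 15634992) (l 15578568)) (a (b (l 15581352) (l 15582936)) (l 15584376))))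 (a (b (a (b (l 15577736) (l 15579256)) (l 15588376)) (l 15586280)) (l 15605120)))) (a (a (b (b (a (l 15609120) (l 15602536)) (l 15642376)) (l 15634424)) (c (l 15739048) (l 15598384))) (c (l 15742328) (l 15601760)))))), by decide +kernel⟩

def k104_pp_022 : ∃ t, chk3 f_pp_022 t 28 16 3 = true :=
  ⟨(b (a (a (c (l 15504544) (l 15364104)) (c (l 15478544) (l 15334456))) (a (c (l 15453664) (l 15306024)) (c (a (l 15435712) (l 15424104)) (c (l 15316976) (l 15240368))))) (a (a (a (c (l 15487048) (l 15343232)) (b (l 15407392) (b (l 15397232) (b (c (l 15465760) (l 15318672)) (c (a (l 15468056) (l 15465560)) (a (l 15321152) (l 15318248))))))) (b (c (l 15459544) (l 15312088)) (b (a (c (l 15457128) (l 15309000)) (b (c (l 15445728) (l 15296040)) (c (a (l 15447856) (l 15445792)) (a (l 15298328) (l 15295896))))) (a (b (c (a (l 15457776) (l 15455488)) (a (l 15309536) (l 15306872))) (l 15413360)) (c (l 15461008) (l 15312864)))))) (b (a (a (c (l 15441048) (l 15290960)) (b (c (l 15431384) (l 15280016)) (b (c (l 15427120)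 (l 15274976)) (c (a (b (l 15427864) (l 15429512)) (l 15427496)) (a (b (l 15275752) (l 15277528)) (l 15275192)))))) (b (a (c (l 15419960) (l 15287912)) (b (c (l 15409896) (l 15276432)) (c (a (b (l 15410448) (l 15412248)) (l 15410672)) (a (b (l 15256016) (l 15257960)) (l 15256120))))) (a (a (b (c (b (l 15418984) (l 15420696)) (b (l 15265688) (l 15267544))) (l 15373848)) (c (l 15424064) (l 15292168))) (c (l 15426144) (l 15273376))))) (a (a (a (b (b (c (l 15438296) (l 15329456)) (l 15371840)) (l 15409168)) (b (c (l 15441496) (l 15290944)) (l 15409864))) (c (l 15453312) (l 15303952))) (c (c (l 15493448) (l 15419896)) (c (l 15345280) (l 15269608))))))), by decide +kernel⟩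

def k105_pp_022 : ∃ t, chk3 f_pp_022 t 28 17 1 = true :=
  ⟨(c (a (b (a (b (a (b (a (l 15647600) (l 15649088)) (l 15707800)) (l 15657528)) (c (l 15798056) (l 15666352))) (c (l 15783896) (c (l 15683752) (l 15615664)))) (c (l 15783184) (a (l 15719400) (l 15722304)))) (c (b (a (l 15766248) (l 15739936)) (a (l 15852512) (l 15859016))) (c (a (l 15660072) (l 15666168)) (b (a (l 15619000) (l 15624472)) (a (l 15695328) (l 15702416)))))) (a (b (a (b (a (a (b (b (c (l 15478704) (l 15333168)) (l 15414472)) (l 15430048)) (c (l 15490600) (l 15346264))) (c (l 15490648) (l 15346184))) (c (l 15530488) (l 15390568))) (c (c (l 15546528) (l 15476352)) (c (l 15405152) (l 15332944)))) (a (c (l 15587376) (c (l 15490392) (l 15422792))) (c (c (l 15625592) (l 15559904)) (b (l 15436992) (l 15482152))))) (c (a (b (b (l 15494120) (l 15535728)) (c (l 15630728) (l 15565160))) (b (c (l 15555480) (l 15485464)) (c (l 15638064) (l 15572744)))) (a (b (c (l 15408520) (l 15336328)) (c (l 15498632) (l 15431152))) (c (b (l 15414424) (l 15506464))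 (b (l 15342384) (l 15439248))))))), by decide +kernel⟩

def k106_pp_022 : ∃ t, chk3 f_pp_022 t 58 32 1 = true :=
  ⟨(c (b (a (c (l 15707072) (l 15562736)) (c (l 15691760) (l 15544384))) (a (a (c (l 15702704) (l 15525536)) (b (l 15571232) (b (c (l 15693704) (l 15546160)) (a (b (l 15567176) (l 15570248)) (c (l 15695088) (l 15547496)))))) (a (b (a (l 15596312) (c (l 15687456) (l 15538856))) (b (a (c (l 15689768) (b (l 15540064) (l 15542032))) (c (l 15689856) (l 15541328))) (l 15574768))) (c (b (b (l 15683048) (a (l 15684560) (l 15684896))) (l 15697104)) (b (b (a (l 15535088) (l 15531472)) (a (b (l 15533880) (l 15535984)) (l 15535480))) (l 15549416)))))) (c (b (a (l 15413896) (l 15392440)) (a (b (l 15403856) (a (a (l 15405592) (l 15400640)) (b (a (l 15396056) (l 15391368)) (a (b (l 15394424) (l 15396440)) (l 15395320))))) (b (a (c (l 15426928) (l 15349392)) (b (a (l 15381312) (b (l 15376976) (l 15360624))) (a (b (l 15379792) (l 15382112)) (l 15381448)))) (a (b (a (b (l 15386936) (l 15389096)) (l 15388200))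 (l 15398336)) (l 15397152))))) (b (a (l 15260672) (l 15249144)) (a (b (l 15248872) (a (a (l 15250680) (l 15265960)) (b (a (l 15239784) (l 15244872)) (a (b (l 15237832) (l 15240024)) (l 15238688))))) (b (a (a (l 15233208) (c (l 15267808) (l 15187856))) (b (a (l 15223032) (c (l 15258272) (l 15177688))) (a (b (a (l 15221792) (l 15219912)) (l 15223736)) (l 15233400)))) (a (b (a (b (l 15229328) (l 15231672)) (l 15230592)) (l 15241912)) (l 15240432))))))), by decide +kernel⟩

def k107_pp_022 : ∃ t, chk3 f_pp_022 t 58 33 1 = true :=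
  ⟨(c (a (b (a (b (b (a (b (l 15574776) (l 15576440)) (c (l 15700608) (l 15553984))) (l 15583848)) (l 15607912)) (c (l 15715776) (l 15571056))) (c (l 15748256) (l 15587088))) (c (l 15654696) (c (l 15632552) (l 15539504)))) (c (a (b (a (b (b (a (b (l 15402264) (l 15404160)) (l 15402816)) (l 15412936)) (l 15429168)) (l 15421840)) (c (l 15500040) (l 15426688))) (c (b (l 15465784) (l 15508840)) (b (l 15390304) (l 15435816)))) (a (b (a (b (b (b (a (l 15246728) (l 15244352)) (l 15261224)) (l 15258504)) (l 15276560)) (l 15268240)) (c (l 15352272) (l 15276808))) (c (b (l 15313736) (l 15361752)) (b (l 15236088) (l 15286632)))))), by decide +kernel⟩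

def k108_pp_022 : ∃ t, chk3 f_pp_022 t 58 17 1 = true :=
  ⟨(a (c (c (c (l 15801832) (l 15738528)) (b (c (l 15699720) (l 15632032)) (l 15680240))) (c (c (b (l 15563312) (l 15647528)) (b (l 15493568) (l 15582584))) (c (b (l 15422816) (l 15516696)) (b (l 15351056) (l 15449872))))) (c (c (c (l 15810848) (l 15747960)) (c (l 15684056) (b (l 15641608) (l 15722568)))) (b (c (c (l 15573288) (l 15503960)) (c (l 15433624) (b (l 15337104) (l 15387504)))) (c (c (l 15659080) (l 15594640)) (c (l 15529272) (l 15462968)))))), by decide +kernel⟩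

def k109_pp_022 : ∃ t, chk3 f_pp_022 t 118 8 1 = true :=
  ⟨(b (b (b (c (a (c (l 15660504) (c (l 15569816) (l 15472944))) (b (l 15549072) (c (b (l 15673432) (a (l 15674960) (l 15675840))) (b (a (l 15523472) (l 15499304)) (a (b (l 15522416) (l 15524880)) (l 15524784)))))) (b (c (l 15375544) (l 15216688)) (a (c (a (l 15376152) (b (l 15372840) (c (l 15409664) (l 15330872)))) (a (l 15217224) (b (l 15213464) (b (l 15210432) (a (l 15210192) (l 15220048)))))) (b (c (a (l 15367888) (b (l 15363872) (a (l 15363728) (l 15341544)))) (a (l 15207760) (b (l 15203152) (a (l 15202944) (b (l 15200736) (l 15201832)))))) (a (c (b (a (l 15366872) (l 15365568)) (l 15369264)) (b (c (l 15246656) (l 15186296)) (l 15209112))) (c (l 15369064) (l 15219296))))))) (a (c (a (b (b (c (l 15679624) (b (l 15527992) (l 15530264))) (l 15571040)) (l 15574624)) (c (l 15693392) (b (l 15534936) (l 15555152)))) (b (b (a (b (c (a (l 15373408) (l 15371944)) (a (l 15213968) (l 15212256))) (c (l 15375504) (l 15216216))) (c (l 15375072) (l 15226136)))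 (c (l 15385200) (l 15226968))) (c (l 15402064) (l 15245736)))) (c (c (l 15696992) (l 15548872)) (c (c (l 15434784) (l 15357320)) (c (l 15278744) (l 15199072)))))) (c (c (c (l 15782232) (l 15712800)) (c (l 15642256) (l 15570608))) (c (c (b (l 15475976) (l 15519784)) (b (l 15400920) (l 15447240))) (b (c (l 15324776) (l 15247576)) (c (l 15373648) (l 15299024)))))) (c (c (c (l 15821408) (l 15759072)) (c (l 15706216) (b (l 15653152) (l 15735504)))) (b (c (c (l 15585368) (l 15516576)) (c (b (l 15422440) (l 15471160)) (b (l 15350384) (l 15401680)))) (c (c (l 15672640) (l 15608840)) (c (l 15544112) (l 15478472)))))), by decide +kernel⟩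

def k110_pp_022 : ∃ t, chk3 f_pp_022 t 119 8 1 = true :=
  ⟨(b (c (c (b (b (b (a (l 15649144) (b (l 15643880) (a (l 15666440) (l 15667928)))) (a (b (a (l 15670568) (l 15671744)) (l 15679552)) (l 15680224))) (l 15683600)) (c (l 15792696) (l 15723800))) (b (b (b (a (a (l 15519544) (c (l 15554896) (l 15477704))) (b (a (l 15513016) (b (l 15509848) (l 15488832))) (a (b (l 15512176) (l 15515088)) (l 15515392)))) (a (b (a (b (l 15517144) (l 15519816)) (l 15519920)) (l 15528856)) (l 15529424))) (a (l 15554296) (l 15560208))) (c (l 15653800) (l 15582712)))) (b (b (b (a (c (b (l 15362784) (a (l 15361664) (b (l 15357808) (a (l 15357696) (l 15325216))))) (a (l 15202720) (b (l 15199320) (b (l 15196240) (a (l 15196064) (b (l 15193984) (l 15195328))))))) (b (a (c (l 15355768) (l 15193952)) (c (b (l 15352064) (a (l 15352000) (b (l 15350304) (l 15351800)))) (b (l 15189696) (a (l 15189576) (b (l 15187624) (l 15189264)))))) (c (a (b (a (l 15354808) (b (l 15353048) (l 15354408))) (l 15357912)) (l 15358176)) (a (b (a (l 15192776)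 (b (l 15190752) (l 15192240))) (l 15196168)) (l 15196384))))) (a (b (a (c (b (a (l 15360664) (l 15338576)) (l 15363400)) (b (a (l 15199456) (b (l 15197312) (l 15198528))) (l 15202424))) (c (l 15363432) (l 15202384))) (c (l 15373512) (l 15213648))) (c (l 15373992) (l 15214032)))) (c (c (l 15443696) (l 15366624)) (c (l 15288456) (l 15209192)))) (c (b (c (l 15488296) (l 15413792)) (c (l 15532824) (l 15460880))) (c (b (l 15338224) (l 15387896)) (b (l 15261592) (l 15313896)))))) (c (b (c (l 15788040) (l 15636872)) (c (l 15901440) (l 15718064))) (c (b (c (l 15599464) (l 15531344)) (c (l 15688152) (l 15625112))) (b (c (b (l 15437496) (l 15487016)) (b (l 15366112) (l 15418248))) (c (l 15561160) (l 15496304)))))), by decide +kernel⟩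

def k111_pp_022 : ∃ t, chk3 f_pp_022 t 28 9 1 = true :=
  ⟨(c (b (a (b (c (l 15846288) (a (l 15790112) (l 15794704))) (c (l 15930416) (l 15821824))) (c (a (l 15924160) (b (l 15925624) (l 15992248))) (b (a (l 15801288) (l 15809808)) (a (l 15875312) (l 15885368))))) (a (c (b (l 15993680) (l 16077960)) (b (l 15903968) (a (l 16002608) (l 16012200)))) (c (a (b (l 16048432) (l 16113840)) (b (l 16058952) (l 16125672))) (b (a (l 15949400) (l 15960976)) (a (l 16023568) (l 16036656)))))) (a (b (c (a (b (l 15669296) (l 15748592)) (b (l 15674080) (l 15755280))) (a (c (l 15598208) (l 15537312)) (b (l 15549832) (l 15640056)))) (c (b (a (l 15827952) (l 15836520)) (a (l 15907496) (l 15917928))) (b (a (l 15721072) (l 15730304)) (a (l 15809464) (l 15820776))))) (b (c (c (a (l 15709888) (l 15740736)) (a (l 15672144) (l 15682424))) (c (a (l 15612560) (b (l 15598360) (l 15690184))) (a (l 15552120) (b (l 15535952) (l 15632568))))) (c (a (b (l 15847176) (l 15930376)) (c (l 15926656) (l 15877664))) (b (a (l 15720888) (l 15734704))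 (a (l 15813360) (l 15829096))))))), by decide +kernel⟩

def k112_pp_022 : ∃ t, chk3 f_pp_022 t 29 9 1 = true :=
  ⟨(c (a (a (b (c (b (l 15935112) (l 16003016)) (c (l 15844656) (l 15788600))) (c (b (l 16070976) (l 16138944)) (c (l 16015136) (l 15989296)))) (b (c (c (l 16007416) (l 15911808)) (c (l 15857248) (l 15822792))) (c (b (l 16084440) (l 16153600)) (b (l 15989264) (l 16046768))))) (b (c (b (a (l 15958760) (l 15972808)) (a (l 16029008) (l 16044144))) (b (a (l 15804440) (l 15820104)) (a (l 15884176) (l 15901088)))) (c (b (a (l 16099304) (l 16115504)) (a (l 16169576) (l 16186832))) (b (a (c (l 16029504) (l 15982032)) (l 16003040)) (a (l 16064656) (l 16084024)))))) (b (c (a (a (b (l 15659720) (l 15746136)) (b (l 15673120) (l 15761120))) (b (a (l 15688520) (l 15705848)) (a (l 15778024) (l 15807264)))) (a (b (a (c (l 15610424) (l 15548512)) (c (l 15624744) (l 15563456))) (a (l 15654680) (l 15671088))) (b (a (c (l 15641248) (l 15580712)) (c (l 15659872) (l 15600216))) (a (l 15689656) (l 15715568))))) (c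 (a (b (a (c (l 15899736) (l 15849080)) (l 15870080)) (a (l 15940056) (l 15958152))) (b (a (l 15888464) (l 15908632)) (a (l 15978008) (l 15999568)))) (a (b (a (l 15750728) (l 15768896)) (a (l 15846944) (l 15887816))) (b (a (l 15789136) (l 15821864)) (a (l 15909712) (l 15933520))))))), by decide +kernel⟩

def k113_pp_022 : ∃ t, chk3 f_pp_022 t 15 8 2 = true :=
  ⟨(a (b (a (a (b (a (b (a (b (b (c (l 15662592) (b (l 15486544) (l 15510696))) (c (l 15670736) (l 15518488))) (l 15562568)) (c (l 15678080) (l 15505776))) (c (l 15713056) (l 15566584))) (c (l 15617024) (b (l 15531760) (l 15573424)))) (c (c (l 15804696) (l 15736464)) (c (l 15667136) (l 15596736)))) (c (c (l 15709080) (b (l 15674352) (l 15750736))) (b (c (l 15579760) (a (l 15522120) (l 15529928))) (c (l 15682208) (l 15612608))))) (c (a (b (c (l 15760840) (l 15689200)) (l 15737064)) (c (l 15749944) (l 15681816))) (a (b (c (l 15616416) (b (l 15520536) (l 15564504))) (c (l 15698944) (l 15630280))) (b (c (l 15633784) (l 15539880)) (l 15620704))))) (c (a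 (a (b (l 15822400) (l 15915872)) (c (l 15903864) (l 15822896))) (b (a (l 15853592) (l 15892256)) (a (l 15948960) (l 15967512)))) (a (b (a (l 15651768) (l 15668392)) (a (l 15734176) (l 15772904))) (b (a (l 15686672) (l 15706560)) (a (l 15792256) (l 15813144)))))) (b (a (a (c (c (l 15767200) (l 15700168)) (b (c (l 15652776) (l 15580928)) (l 15641192))) (c (b (l 15756320) (l 15854568)) (b (l 15575232) (l 15663240)))) (c (a (b (l 15797424) (l 15875400)) (b (l 15818856) (l 15897464))) (b (a (l 15597952) (l 15622168)) (a (c (l 15781480) (l 15717656)) (l 15732712))))) (c (a (b (a (l 15911272) (l 15931568)) (a (l 15987328) (l 16008360))) (b (a (l 15953096) (l 15975784)) (a (l 16030552) (l 16053856)))) (a (b (a (l 15748968) (l 15771880)) (a (l 15835504) (l 15859280))) (a (c (l 15888960) (l 15843808)) (b (l 15863872) (l 15952776))))))), by decide +kernel⟩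

def k114_pp_022 : ∃ t, chk3 f_pp_022 t 15 9 2 = true :=
  ⟨(a (a (b (c (a (c (l 16049896) (l 15977744)) (c (l 16066680) (l 15995576))) (b (a (l 15837400) (l 15856288)) (a (l 15919576) (c (l 16006024) (l 15956800))))) (c (b (a (l 16132992) (l 16151720)) (c (l 16213208) (l 16174704))) (b (a (l 16022680) (l 16043768)) (a (l 16104816) (l 16126984))))) (b (c (b (a (l 16023240) (l 16042632)) (a (l 16097440) (l 16117672))) (b (a (l 15876696) (l 15898560)) (a (l 15981984) (l 16004816)))) (c (b (c (l 16181408) (l 16140544)) (a (l 16224776) (l 16267592))) (b (a (l 16066232) (l 16090024)) (a (l 16171424) (l 16196144)))))) (b (c (a (b (a (l 16063232) (l 16084992)) (a (l 16139040) (l 16161504))) (b (a (l 16107840) (l 16131744)) (c (l 16196088) (l 16156104)))) (a (b (a (l 15921832) (l 15967424)) (a (l 16028992) (l 16054440))) (b (a (l 15993328) (l 16020456)) (a (l 16081096) (l 16129888))))) (a (b (c (c (l 16224216) (l 16186232)) (a (l 16115080) (l 16162304))) (c (a (l 16290456) (l 16314288)) (a (l 16222064) (l 16259600))))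 (b (c (a (l 16262088) (l 16287144)) (a (l 16189712) (l 16218200))) (c (a (l 16339040) (l 16364648)) (a (l 16294280) (c (l 16321128) (l 16291520)))))))), by decide +kernel⟩

def k115_pp_022 : ∃ t, chk3 f_pp_022 t 15 8 6 = true :=
  ⟨(a (b (a (a (a (b (b (b (b (a (b (a (l 15349280) (b (l 15347656) (l 15349296))) (l 15352808)) (l 15353296)) (l 15363280)) (l 15380736)) (l 15384144)) (c (l 15521392) (l 15448688))) (b (b (c (l 15415584) (l 15336712)) (l 15402168)) (c (l 15529248) (l 15456928)))) (b (c (b (l 15427104) (l 15473120)) (b (l 15327824) (l 15397472))) (a (c (l 15537600) (l 15465696)) (c (l 15546432) (l 15474976))))) (c (a (b (b (l 15444200) (l 15490824)) (l 15539608)) (b (b (l 15463232) (l 15510440)) (l 15581040))) (a (b (b (l 15366744) (l 15416072)) (b (l 15465296) (l 15514432))) (b (b (l 15386768) (l 15436704)) (b (l 15486536) (l 15536272)))))) (a (a (b (c (l 15615536) (l 15527240)) (c (l 15705560) (l 15643400))) (b (c (l 15633504) (l 15567096)) (l 15660240))) (b (a (c (l 15653312) (l 15587944))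 (c (l 15674896) (l 15610680))) (a (l 15684408) (l 15707704))))) (a (b (a (c (b (l 15466072) (l 15603280)) (b (b (l 15408792) (l 15459296)) (l 15534832))) (b (c (l 15530992) (l 15437288)) (c (l 15627248) (l 15560104)))) (b (a (l 15633400) (l 15660984)) (a (l 15732688) (l 15769784)))) (a (b (b (c (l 15555704) (l 15484328)) (l 15578184)) (b (l 15677752) (l 15797944))) (b (b (l 15505304) (l 15606152)) (b (l 15706568) (l 15827592)))))), by decide +kernel⟩

def k116_pp_022 : ∃ t, chk3 f_pp_022 t 15 9 6 = true :=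
  ⟨(a (a (b (b (a (l 15735544) (l 15756552)) (a (l 15838304) (l 15860576))) (b (a (l 15930504) (l 15954024)) (a (l 16043720) (l 16068472)))) (b (b (a (l 15789784) (l 15814208)) (a (l 15884512) (l 15910040))) (b (a (l 15989616) (l 16026728)) (a (l 16099968) (a (l 16115360) (l 16129552)))))) (a (b (b (a (l 15840240) (l 15867816)) (a (l 15937104) (l 15986608))) (b (a (l 16054800) (l 16084256)) (a (a (l 16144088) (l 16158952)) (a (l 16174136) (l 16189640))))) (b (b (a (l 15896872) (l 15927328)) (a (l 16016528) (l 16047784))) (b (a (l 16125520) (a (l 16138944) (l 16155264))) (a (c (l 16229592) (l 16197224)) (c (l 16261456) (l 16230936))))))), by decide +kernel⟩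

def k117_pp_022 : ∃ t, chk3 f_pp_022 t 15 8 7 = true :=
  ⟨(a (b (a (a (b (b (a (b (a (b (b (a (l 15196960) (b (l 15184600) (l 15186400))) (l 15190336)) (l 15200096)) (l 15206472)) (l 15221392)) (c (l 15256720) (l 15175616))) (c (l 15303448) (l 15224856))) (c (b (l 15353984) (l 15404432)) (b (l 15278072) (l 15331184)))) (c (b (b (a (l 15265000) (l 15273848)) (l 15320744)) (b (l 15372008) (l 15423176))) (b (b (a (l 15184272) (l 15193536)) (l 15242944)) (b (l 15296928) (l 15350808))))) (a (b (c (b (l 15288200) (l 15340256)) (b (a (l 15203392) (l 15213840)) (l 15263392))) (c (b (l 15392208) (l 15444056)) (b (l 15318104) (l 15372704)))) (b (c (b (l 15309216) (l 15361928)) (b (l 15230600) (l 15286112))) (c (b (l 15414520) (l 15467008)) (b (l 15341512) (l 15396792)))))) (a (b (a (c (b (l 15454784) (l 15505072)) (b (l 15384208) (l 15437144))) (c (b (l 15474248) (l 15525248)) (b (l 15404600) (l 15458296)))) (a (c (l 15580344) (l 15516400)) (c (l 15601584) (l 15538672)))) (b (a (c (l 15521640) (b (l 15427208)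 (l 15481616))) (c (l 15545544) (l 15479496))) (a (c (l 15624824) (l 15563056)) (c (l 15649984) (l 15589480)))))) (b (a (b (a (c (b (l 15332368) (l 15385680)) (b (l 15254888) (l 15311048))) (c (b (l 15357568) (l 15411448)) (b (l 15281344) (l 15338104)))) (a (c (l 15444440) (b (l 15367080) (l 15422992))) (c (l 15492008) (l 15422976)))) (b (a (c (l 15411936) (l 15338552)) (c (l 15441264) (l 15369392))) (a (c (l 15520488) (l 15452912)) (l 15496904)))) (a (b (a (c (l 15571384) (l 15506640)) (c (l 15599088) (l 15535760))) (a (c (l 15676992) (l 15617864)) (l 15666568))) (b (a (l 15582056) (l 15608832)) (a (l 15697856) (l 15741312)))))), by decide +kernel⟩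

def k118_pp_022 : ∃ t, chk3 f_pp_022 t 15 9 7 = true :=
  ⟨(a (a (b (b (a (c (l 15680544) (l 15621880)) (c (l 15703192) (l 15645640))) (a (l 15743488) (l 15768120))) (b (a (l 15856528) (l 15882560)) (a (l 15969656) (a (l 15979568) (l 15993712))))) (b (b (a (c (l 15727752) (l 15671424)) (c (l 15754144) (l 15699160))) (a (l 15805112) (l 15833424))) (b (a (l 15915632) (l 15945504)) (a (a (l 16008272) (l 16023248)) (a (l 16038624) (l 16054400)))))) (a (b (b (a (l 15750384) (l 15786248)) (a (l 15863464) (l 15895168))) (b (a (a (l 15963168) (l 15979160)) (a (l 15995544) (l 16012304))) (a (c (l 16097152) (l 16060272)) (c (l 16130080) (l 16094936))))) (b (b (a (l 15818544) (l 15852440)) (a (l 15938944) (l 15973744))) (b (a (c (l 16057568) (l 16018576)) (c (l 16092336) (l 16055192))) (a (c (l 16164376) (l 16131064)) (b (l 16156720) (l 16211984))))))), by decide +kernel⟩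

def k119_pp_022 : ∃ t, chk3 f_pp_022 t 28 10 1 = true :=
  ⟨(c (b (a (b (c (l 16141312) (a (l 16073712) (l 16084936))) (c (a (l 16220104) (l 16231736)) (a (l 16145032) (l 16157880)))) (c (b (a (l 16179272) (l 16192408)) (c (l 16248392) (l 16213176))) (b (a (l 16097872) (l 16112448)) (a (l 16151392) (l 16167448))))) (c (a (b (c (l 16284496) (l 16252200)) (a (l 16346232) (l 16360656))) (b (a (l 16289488) (l 16326152)) (a (l 16376368) (a (l 16388960) (l 16397720))))) (a (b (a (l 16195680) (l 16231104)) (a (l 16288624) (l 16309904))) (b (a (l 16247120) (l 16264624)) (a (a (l 16317680) (l 16326800)) (a (l 16336272) (l 16346088))))))) (b (a (c (b (a (l 15987320) (l 15999608)) (a (l 16067488) (l 16060632))) (b (c (l 15906104) (l 15861184)) (a (l 15987528) (l 16002960)))) (c (b (a (l 15992848) (l 16008920)) (a (l 16097568) (l 16115312))) (b (a (l 15906208) (l 15944800)) (a (l 16020456) (l 16039952))))) (c (a (b (a (l 16148056) (l 16163984)) (a (l 16229080) (a (l 16242216) (l 16251496)))) (b (a (l 16181680) (l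 16214184)) (a (c (l 16280368) (l 16251936)) (c (l 16300872) (l 16273496))))) (a (b (a (l 16077312) (l 16094768)) (a (l 16183392) (c (l 16202208) (l 16171920)))) (b (a (l 16124688) (c (l 16152112) (l 16118864))) (a (c (l 16223064) (l 16193760)) (c (l 16245696) (l 16217488)))))))), by decide +kernel⟩

def k120_pp_022 : ∃ t, chk3 f_pp_022 t 29 10 1 = true :=
  ⟨(c (b (a (c (b (a (l 16206904) (l 16222728)) (c (l 16278920) (l 16256008))) (b (a (l 16107640) (l 16125328)) (a (l 16205984) (l 16225000)))) (c (b (c (l 16245776) (l 16209760)) (a (l 16310072) (l 16329392))) (b (a (l 16144488) (l 16186032)) (a (l 16245416) (l 16277656))))) (a (b (c (a (l 16343072) (l 16361176)) (a (l 16288816) (a (l 16298696) (l 16309192)))) (c (a (a (l 16406776) (l 16416112)) (c (l 16442272) (l 16418896))) (a (c (l 16374096) (l 16348696)) (c (l 16395112) (l 16370928))))) (b (a (c (l 16390904) (a (l 16320024) (l 16331168))) (c (c (l 16413544) (l 16387840)) (c (l 16361704) (l 16335136)))) (a (c (c (l 16461944) (l 16439824)) (c (l 16417328)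 (l 16404936))) (c (c (l 16482592) (l 16461824)) (c (l 16451176) (l 16434936))))))) (b (c (a (b (a (l 16026800) (l 16067400)) (a (l 16134784) (l 16166408))) (b (a (l 16088704) (l 16111624)) (a (a (l 16172824) (l 16184584)) (a (l 16196712) (l 16209224))))) (a (b (a (l 15964464) (l 15986088)) (a (l 16071880) (l 16103064))) (b (a (l 16020096) (a (l 16028448) (l 16041568))) (a (c (l 16127232) (l 16092320)) (c (l 16153440) (l 16119848)))))) (c (a (b (a (a (l 16216712) (l 16227632)) (c (l 16259704) (l 16229664))) (a (c (l 16322888) (l 16296664)) (c (l 16346352) (l 16331872)))) (b (a (c (l 16283216) (l 16254440)) (c (l 16308136) (l 16280720))) (a (c (l 16386928) (l 16368560)) (b (l 16363360) (a (l 16402440) (l 16416384)))))) (a (b (a (c (l 16174768) (l 16142616)) (c (l 16199168) (l 16168216))) (a (c (l 16270048) (l 16253520)) (c (l 16311776) (l 16291296)))) (b (a (c (l 16225224) (l 16195584)) (b (l 16213272) (l 16264416))) (a (c (l 16348520) (a (l 16291896) (l 16306784))) (b (l 16326160) (a (l 16359344) (l 16374808))))))))),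 by decide +kernel⟩

def k121_pp_022 : ∃ t, chk3 f_pp_022 t 56 22 1 = true :=
  ⟨(c (b (a (c (a (l 16406016) (l 16413600)) (a (l 16356840) (l 16365288))) (c (a (l 16421504) (l 16429712)) (c (l 16390512) (l 16366648)))) (a (c (c (l 16483536) (l 16463952)) (c (l 16453200) (a (l 16419056) (l 16428544)))) (c (c (l 16505432) (a (l 16477072) (l 16486200))) (c (a (l 16457888) (l 16467544)) (a (l 16438376) (l 16448560)))))) (b (a (c (c (l 16323368) (l 16297768)) (b (l 16214864) (l 16281472))) (c (c (l 16342392) (l 16328232)) (c (l 16303200) (l 16283040)))) (b (a (c (l 16373456) (b (l 16294824) (l 16317752))) (c (b (l 16361496) (l 16382488)) (a (l 16344272) (l 16356160)))) (a (c (c (l 16423176) (l 16382432)) (a (l 16367464) (l 16378968))) (c (a (l 16408472) (l 16440664)) (a (l 16390904) (l 16403280))))))), by decide +kernel⟩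

def k122_pp_022 : ∃ t, chk3 f_pp_022 t 56 23 1 = true :=
  ⟨(b (b (c (a (c (a (l 16517888) (l 16526680)) (a (l 16463176) (l 16473008))) (c (c (l 16527008) (l 16522240)) (a (l 16504128) (l 16514608)))) (a (c (a (l 16449264) (l 16460152)) (a (l 16413248) (l 16425248))) (c (a (l 16471424) (l 16488312)) (a (l 16442912) (c (l 16458744) (l 16442216)))))) (c (a (c (a (l 16550248) (l 16559384)) (a (l 16520896) (l 16535040))) (c (a (l 16568784) (l 16583040)) (a (a (l 16538976) (l 16544320)) (a (l 16549744) (l 16555240))))) (a (c (a (a (l 16487744) (l 16493320)) (a (l 16498992) (l 16504744))) (a (c (l 16467096) (l 16451176)) (c (l 16479296) (l 16463968)))) (c (a (c (l 16520664) (l 16506392)) (c (l 16532408) (l 16518760))) (a (c (l 16491896) (l 16477176)) (c (l 16504888) (l 16490808))))))) (b (a (c (c (a (a (l 16580496) (l 16585160)) (a (l 16589888) (l 16594688))) (a (a (l 16555216) (l 16560432)) (c (l 16574456) (l 16562312)))) (c (a (c (l 16538488) (l 16525344)) (c (l 16549960) (l 16537416))) (a (c (l 16511992)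 (l 16498424)) (c (l 16524664) (l 16516960))))) (a (b (c (c (l 16593688) (l 16559392)) (c (l 16540008) (l 16519824))) (l 14)) (l 14))) (l 14))), by decide +kernel⟩

def k123_pp_022 : ∃ t, chk3 f_pp_022 t 57 11 1 = true :=
  ⟨(b (c (b (a (c (c (l 16453560) (l 16431488)) (c (l 16409024) (l 16386176))) (c (c (l 16471192) (l 16450192)) (c (l 16434072) (l 16419552)))) (b (a (c (l 16493816) (a (l 16449392) (l 16459784))) (c (a (l 16506720) (l 16516528)) (a (l 16470488) (l 16460536)))) (a (c (c (l 16534136) (l 16496784)) (a (l 16466344) (l 16498064))) (c (a (l 16540648) (l 16550744)) (c (l 16522584) (l 16509488)))))) (c (b (a (c (l 16373440) (l 16354440)) (b (l 16352160) (a (l 16389688) (l 16401576)))) (b (a (c (l 16404264) (l 16384320)) (a (l 16433040) (l 16445312))) (a (a (l 16452256) (l 16464208)) (a (l 16481760) (a (l 16485976) (l 16492392)))))) (b (b (a (l 16279544) (l 16309328)) (a (a (l 16321016) (l 16333312)) (a (l 16346024) (l 16359160)))) (a (c (b (l 16385048) (l 16436848)) (b (l 16364488) (l 16421416)))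 (b (a (l 16394400) (l 16407968)) (a (l 16450736) (c (l 16465032) (l 16448640)))))))) (b (a (a (c (b (c (l 16554720) (l 16528016)) (c (a (l 16585880) (l 16590912)) (c (l 16569896) (l 16557304)))) (c (b (a (l 16492032) (l 16498120)) (c (l 16544496) (l 16531488))) (b (c (l 16471680) (l 16455784)) (c (l 16518272) (l 16510088))))) (b (c (c (l 16564600) (a (l 16533688) (l 16539312))) (c (c (l 16514776) (l 16500000)) (c (l 16485000) (l 16469768)))) (b (c (c (l 16590064) (l 16554928)) (c (l 16534680) (l 16513600))) (l 14)))) (b (c (c (c (l 16590240) (c (l 16576672) (l 16570176))) (a (a (l 16545008) (l 16550784)) (c (l 16566048) (l 16553048)))) (c (a (c (l 16527144) (l 16513032)) (c (l 16539840) (l 16526408))) (a (c (l 16498704) (l 16484152)) (c (l 16512776) (l 16498928))))) (l 14))) (l 14))), by decide +kernel⟩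

def k124_pp_022 : ∃ t, chk3 f_pp_022 t 29 44 1 = true :=
  ⟨(a (c (a (c (c (l 16489880) (l 16480544)) (b (l 16420080) (b (l 16428512) (l 16448136)))) (c (c (l 16522688) (a (l 16485680) (l 16496424))) (c (a (l 16466456) (l 16477864)) (a (l 16446904) (l 16458984))))) (c (a (c (a (l 16402512) (l 16414608)) (a (l 16381008) (l 16393752))) (c (a (l 16427040) (l 16450288)) (a (l 16417344) (l 16430800)))) (a (c (a (l 16359176) (l 16383064)) (a (l 16357976) (l 16372048))) (b (a (l 16351064) (l 16365392)) (a (l 16400984) (l 16415696)))))) (b (c (a (c (l 16509216) (a (l 16460376) (l 16472544))) (c (a (l 16520424) (l 16531680)) (a (l 16485000) (l 16497728)))) (a (c (a (l 16420856) (l 16434464)) (a (l 16380096) (l 16395184))) (c (a (l 16448392) (l 16462640)) (a (l 16410640) (l 16426456))))) (c (a (c (a (l 16533928) (l 16544960)) (c (l 16515096) (l 16498536))) (c (c (l 16569192) (l 16554624)) (c (l 16539808) (l 16529984)))) (a (c (a (l 16466264) (l 16480200)) (a (l 16430792) (l 16456728))) (c (a (l 16499688) (l 16519480))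 (a (l 16472544) (c (l 16486000) (l 16470376)))))))), by decide +kernel⟩

def k125_pp_022 : ∃ t, chk3 f_pp_022 t 29 45 1 = true :=
  ⟨(a (a (c (b (c (a (l 16526592) (l 16536912)) (a (l 16492832) (l 16504456))) (c (c (l 16573288) (l 16562000)) (a (l 16537368) (a (l 16541056) (l 16547096))))) (b (c (a (l 16457936) (l 16470904)) (a (l 16421928) (l 16446768))) (c (a (c (l 16509744) (l 16494528)) (c (l 16522720) (l 16508208))) (a (c (l 16479064) (l 16463376)) (c (l 16493464) (l 16478496)))))) (b (c (c (c (l 16560304) (l 16545352)) (c (l 16530136) (l 16519904))) (c (a (l 16489448) (c (l 16505608) (l 16489992))) (a (l 16461504) (c (l 16474136) (l 16458040))))) (b (c (c (a (l 16573760) (l 16584768)) (c (l 16548760) (l 16535152))) (c (a (l 16496928) (l 16521296)) (a (l 16488600) (l 16503992)))) (l 14)))) (b (a (a (c (c (l 16569352) (l 16547592)) (c (c (l 16519184) (l 16504312)) (c (l 16489216) (l 16473896)))) (b (c (c (l 16571696) (l 16543608)) (c (l 16514568) (l 16484608))) (l 14))) (a (a (c (c (l 16589232) (l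 16563512)) (c (l 16536928) (l 16519984))) (l 14)) (l 14))) (l 14))), by decide +kernel⟩

def k126_pp_022 : ∃ t, chk3 f_pp_022 t 29 23 1 = true :=
  ⟨(a (a (a (b (b (a (c (c (l 16593080) (l 16568536)) (c (l 16548384) (l 16528736))) (l 14)) (l 14)) (l 14)) (l 14)) (l 14)) (l 14)), by decide +kernel⟩

def k127_pp_022 : ∃ t, chk3 f_pp_022 t 60 5 1 = true :=
  ⟨(b (c (b (b (c (a (l 16256592) (l 16298128)) (a (l 16207952) (l 16231176))) (c (a (l 16349808) (l 16381760)) (a (a (l 16284328) (l 16296160)) (c (l 16328840) (l 16299968))))) (b (a (c (c (l 16434224) (l 16409888)) (c (l 16385128) (l 16359968))) (c (c (l 16455856) (l 16432952)) (c (l 16409664) (l 16385992)))) (a (c (c (l 16514648) (l 16495312)) (c (l 16483504) (a (l 16438560) (l 16451816)))) (c (c (l 16542344) (b (l 16489824) (l 16527776))) (c (a (l 16484184) (l 16497184)) (a (l 16465344) (l 16479144))))))) (b (c (b (a (l 16147896) (a (l 16155432) (l 16168768))) (a (c (l 16244224) (l 16212984)) (c (l 16270640) (l 16240864)))) (b (a (a (l 16055120) (l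 16069096)) (c (l 16108840) (l 16072712))) (a (c (l 16181264) (l 16149088)) (b (l 16169224) (l 16221552))))) (b (b (a (c (l 16298256) (l 16242856)) (c (l 16326272) (l 16273968))) (a (c (l 16344720) (l 16294696)) (c (l 16373320) (l 16336952)))) (a (c (c (a (l 16417856) (l 16431880)) (a (l 16396816) (l 16411632))) (b (a (l 16338760) (l 16354608)) (a (l 16390640) (l 16406816)))) (c (b (a (l 16413024) (l 16427912)) (a (l 16460072) (l 16475232))) (b (a (l 16370816) (l 16387368)) (a (l 16423336) (l 16440200)))))))) (b (b (a (a (c (b (c (l 16543160) (l 16510720)) (c (l 16579424) (l 16559960))) (b (c (l 16477192) (l 16442616)) (b (a (l 16493120) (l 16500992)) (l 14)))) (b (c (c (l 16554864) (l 16523976)) (c (l 16492048) (l 16469608))) (l 14))) (b (c (c (c (l 16579792) (l 16565784)) (c (l 16551536) (l 16547536))) (c (a (l 16517680) (l 16533112)) (a (l 16486448) (l 16511472)))) (l 14))) (l 14)) (l 14))), by decide +kernel⟩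

def k128_pp_022 : ∃ t, chk3 f_pp_022 t 61 5 1 = true :=
  ⟨(b (a (b (c (b (c (l 16319760) (l 16266120)) (c (c (l 16406912) (l 16380440)) (c (l 16353520) (l 16326152)))) (b (c (a (l 16182464) (l 16196496)) (c (l 16138472) (l 16103880))) (c (c (l 16298360) (l 16270136)) (b (l 16200560) (l 16253512))))) (c (b (c (c (l 16478368) (l 16456992)) (c (l 16445736) (l 16423640))) (b (c (l 16533120) (c (l 16496656) (l 16478528))) (c (c (l 16567800) (l 16552848)) (a (l 16522968) (l 16536968))))) (b (c (c (l 16411672) (a (l 16360184) (l 16375696))) (b (l 16317024) (a (l 16351216) (l 16368144)))) (c (b (a (l 16443096) (l 16458568)) (a (l 16490680) (l 16506400))) (b (a (l 16404256) (l 16421472)) (a (l 16457384) (l 16485368))))))) (b (c (b (c (l 16342392) (a (l 16274752) (l 16287856))) (c (c (l 16429552) (l 16404616)) (c (l 16379256) (l 16353488)))) (b (c (c (l 16234136) (l 16202104)) (c (l 16169608) (l 16136632))) (c (c (l 16327304) (l 16300728)) (c (l 16294712) (l 16267344))))) (b (c (c (c (l 16501728) (l 16492440))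 (c (l 16482808) (l 16464984))) (b (c (l 16396592) (l 16356224)) (c (a (l 16426312) (l 16442104)) (a (l 16385400) (l 16402984))))) (a (c (b (c (l 16541744) (l 16508584)) (c (l 16579088) (l 16551208))) (c (b (l 16474328) (l 16532888)) (b (l 16439008) (l 16503184)))) (b (c (c (l 16554296) (l 16522840)) (c (l 16490352) (l 16456856))) (l 14)))))) (l 14)), by decide +kernel⟩

def k129_pp_022 : ∃ t, chk3 f_pp_022 t 31 20 1 = true :=
  ⟨(c (a (b (a (c (l 16376464) (c (l 16322696) (l 16293248))) (c (l 16406208) (c (l 16349680) (l 16321920)))) (a (c (c (l 16453040) (l 16429720)) (c (l 16406008) (l 16381912))) (c (c (l 16477336) (l 16455712)) (c (l 16433720) (l 16432336))))) (b (a (c (c (l 16428344) (l 16403192)) (c (l 16377624) (l 16351640))) (c (c (l 16453608) (l 16430240)) (c (l 16406480) (l 16382344)))) (a (c (c (l 16502384) (l 16493008)) (c (l 16483296) (l 16462760))) (c (c (l 16549112) (l 16531080)) (b (l 16470984) (a (l 16496792) (l 16512272))))))) (a (c (b (a (c (l 16263344) (l 16232976)) (c (l 16293736)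 (l 16265112))) (a (c (l 16378400) (l 16353544)) (c (l 16409632) (l 16389200)))) (b (a (b (l 16159640) (l 16213592)) (b (l 16194192) (l 16248648))) (a (b (l 16267592) (l 16332136)) (b (l 16303136) (a (l 16348552) (l 16366880)))))) (c (b (a (c (l 16325248) (l 16298456)) (c (l 16357824) (l 16353904))) (a (b (l 16396264) (a (l 16426592) (l 16443552))) (b (a (l 16411232) (l 16428504)) (a (l 16460760) (l 16478200))))) (b (a (c (l 16292232) (l 16264656)) (b (l 16267280) (l 16333080))) (a (b (l 16355672) (a (l 16385504) (l 16404424))) (b (a (l 16368328) (l 16387616)) (a (l 16423624) (l 16443088)))))))), by decide +kernel⟩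

def k130_pp_022 : ∃ t, chk3 f_pp_022 t 31 21 1 = true :=
  ⟨(b (a (c (c (a (c (l 16536368) (l 16528752)) (c (l 16575680) (b (l 16514752) (l 16554104)))) (b (a (l 16469032) (c (l 16496776) (l 16478496))) (a (c (l 16510232) (l 16492872)) (a (l 16523624) (l 16538584))))) (c (a (b (a (l 16409752) (l 16425872)) (a (l 16458176) (l 16474504))) (b (a (l 16442256) (l 16458896)) (a (l 16491096) (l 16507944)))) (a (b (a (l 16366824) (l 16384776)) (a (l 16420880) (l 16439080))) (b (a (l 16403032) (l 16421592)) (a (l 16457576) (l 16476352)))))) (b (a (c (c (c (l 16557880) (l 16542008)) (c (l 16525856) (l 16509448))) (c (a (l 16475792) (l 16492936)) (a (l 16440432) (l 16459560)))) (a (c (c (l 16570200) (l 16540736)) (c (l 16510312) (l 16478952))) (l 14))) (l 14))) (a (a (a (b (c (c (l 16567040) (l 16537328)) (c (l 16506648) (l 16475008))) (l 14)) (l 14)) (l 14)) (l 14))), by decide +kernel⟩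

def k131_pp_022 : ∃ t, chk3 f_pp_022 t 31 11 1 = true :=
  ⟨(l 14), by decide +kernel⟩

def k132_pp_022 : ∃ t, chk3 f_pp_022 t 24 24 1 = true :=
  ⟨(c (a (a (b (c (l 16502712) (l 16473704)) (c (l 16540008) (l 16515568))) (b (c (l 16501752) (l 16472024)) (c (l 16541480) (l 16516648)))) (b (a (c (l 16502616) (l 16472440)) (c (l 16505192) (l 16474800))) (a (c (l 16544688) (l 16530192)) (c (b (l 16538312) (l 16560768)) (b (l 16512048) (l 16537248)))))) (a (a (b (c (l 16443640) (l 16412552)) (c (l 16490240) (l 16464040))) (b (c (l 16441232) (l 16409384)) (c (l 16490912) (l 16464304)))) (a (b (c (l 16441176) (l 16408856)) (c (l 16504312) (l 16488040))) (b (c (l 16443328) (l 16410784)) (c (b (l 16484848) (l 16512880)) (b (l 16456720) (l 16487680))))))), by decide +kernel⟩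

def k133_pp_022 : ∃ t, chk3 f_pp_022 t 25 24 1 = true :=
  ⟨(c (a (a (b (c (l 16509416) (l 16479056)) (c (b (l 16544168) (l 16567720)) (b (l 16518152) (l 16544584)))) (b (c (l 16515240) (l 16500864)) (c (b (l 16551576) (l 16576184)) (b (l 16526032) (l 16558896))))) (b (a (c (a (l 16520624) (l 16524688)) (a (l 16490864) (l 16495224))) (c (b (l 16497504) (l 16544512)) (b (l 16487904) (l 16517256)))) (a (b (c (l 16560480) (l 16540864)) (c (a (l 16583496) (l 16588816)) (a (l 16561568) (l 16567352)))) (b (c (a (l 16568112) (l 16573640)) (a (l 16543912) (l 16549944))) (c (a (l 16594480) (l 16600488)) (a (l 16573528) (l 16580112))))))) (a (a (b (c (l 16447608) (l 16415096)) (c (b (l 16491208) (l 16520624)) (b (l 16463344) (l 16495840)))) (b (c (l 16472304) (l 16442704)) (c (a (l 16522968) (l 16538456)) (a (l 16507552) (l 16512896))))) (a (b (c (a (l 16460040) (l 16464712)) (a (l 16428184) (l 16433176))) (c (a (b (l 16507128) (l 16538856)) (b (l 16512752) (l 16545112))) (a (b (l 16480304) (l 16515368)) (b (l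 16486360) (l 16522128))))) (b (c (b (l 16456248) (l 16489024)) (a (l 16459680) (l 16465744))) (b (c (a (l 16518848) (l 16525400)) (a (l 16492936) (l 16500032))) (c (a (l 16551832) (l 16559000)) (a (l 16529400) (l 16537176)))))))), by decide +kernel⟩

def k134_pp_022 : ∃ t, chk3 f_pp_022 t 12 100 1 = true :=
  ⟨(a (a (c (a (a (l 16557864) (l 16559024)) (a (l 16560640) (l 16562696))) (a (a (l 16514432) (l 16515304)) (a (l 16516768) (l 16518792)))) (c (a (c (l 16577040) (l 16555936)) (c (l 16583552) (l 16562752))) (a (a (l 16521368) (l 16524488)) (c (l 16541208) (l 16518928))))) (a (c (a (c (a (l 16589440) (l 16593832)) (a (l 16569024) (l 16573736))) (c (a (l 16598592) (l 16603704)) (a (l 16578864) (l 16584408)))) (a (c (a (l 16547872) (l 16552912)) (a (l 16525992) (l 16531384))) (c (a (l 16558432) (l 16564416)) (a (l 16537296) (l 16543744))))) (c (a (c (a (l 16609176) (l 16614992)) (a (l 16590352) (l 16596704))) (c (a (l 16626392) (c (l 16631816) (l 16623432))) (a (l 16611304) (c (l 16614888) (l 16606192)))))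 (a (c (a (l 16570856) (l 16583000)) (a (l 16550696) (l 16568648))) (c (a (c (l 16589736) (l 16580408)) (c (l 16597352) (l 16588352))) (a (c (l 16570928) (l 16561288)) (c (l 16579208) (l 16569912)))))))), by decide +kernel⟩

def k135_pp_022 : ∃ t, chk3 f_pp_022 t 12 101 1 = true :=
  ⟨(a (a (c (a (c (l 16588448) (l 16569664)) (c (l 16592944) (l 16574168))) (a (c (l 16550208) (l 16530088)) (c (l 16554720) (l 16534608)))) (c (a (c (l 16599032) (l 16585736)) (c (a (l 16604616) (l 16608800)) (a (l 16586400) (l 16590872)))) (a (c (l 16566528) (l 16551904)) (c (a (l 16567520) (l 16572288)) (a (l 16548000) (l 16553072)))))) (a (c (a (c (a (l 16613368) (l 16618288)) (a (l 16595768) (l 16601080))) (c (a (l 16623568) (l 16629200)) (a (l 16606800) (l 16618168)))) (a (c (a (l 16577536) (l 16583248)) (a (l 16558680) (l 16564816))) (c (a (l 16589432) (l 16603936)) (a (l 16571464) (l 16589120))))) (a (b (c (a (a (l 16618904) (l 16622056)) (c (l 16634832) (l 16618912))) (a (c (l 16595048) (l 16577376)) (c (l 16602416)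 (l 16585360)))) (a (a (c (l 16632688) (l 16606640)) (l 14)) (l 14))) (a (a (c (c (l 16646448) (l 16631792)) (c (l 16621848) (l 16611392))) (l 14)) (l 14))))), by decide +kernel⟩

def k136_pp_022 : ∃ t, chk3 f_pp_022 t 12 51 1 = true :=
  ⟨(b (a (a (c (a (c (l 16608432) (l 16591904)) (c (a (l 16612560) (l 16615800)) (a (l 16596136) (l 16599504)))) (a (a (l 16564824) (l 16577824)) (c (a (l 16579112) (l 16582624)) (a (l 16561512) (l 16565168))))) (c (a (c (a (l 16619416) (l 16623416)) (a (l 16603320) (l 16607560))) (c (a (l 16627792) (l 16632528)) (a (l 16612240) (l 16617328)))) (a (c (a (l 16586640) (l 16591136)) (a (l 16569384) (l 16574144))) (c (a (l 16596120) (l 16601584)) (a (l 16579456) (l 16585296)))))) (a (a (a (c (c (l 16642872) (l 16630704)) (c (l 16615376) (l 16602144))) (a (c (b (l 16627976) (l 16641096)) (b (l 16596552) (l 16617872))) (b (c (l 16630840) (l 16599896)) (l 14)))) (b (a (c (c (l 16642520) (l 16627968)) (a (l 16603368) (l 16612200))) (l 14)) (l 14))) (l 14))) (a (a (c (a (c (a (l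 16627360) (l 16630400)) (a (l 16613016) (l 16616160))) (c (a (l 16633832) (l 16637648)) (a (l 16619752) (l 16623776)))) (a (c (a (l 16598160) (l 16601408)) (a (l 16582784) (l 16586144))) (c (a (l 16605160) (l 16609408)) (a (l 16590064) (l 16594536))))) (a (c (c (a (l 16641840) (l 16651648)) (a (l 16628240) (l 16640984))) (c (a (l 16614144) (l 16627224)) (a (l 16599560) (l 16615600)))) (b (c (c (a (l 16645408) (l 16650560)) (a (l 16631840) (l 16637400))) (a (c (l 16617784) (l 16603240)) (c (l 16623760) (l 16609656)))) (a (a (c (l 16649856) (l 16629488)) (l 14)) (l 14))))) (l 14))), by decide +kernel⟩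

def k137_pp_022 : ∃ t, chk3 f_pp_022 t 12 13 1 = true :=
  ⟨(a (b (b (b (a (c (a (c (a (l 16647840) (l 16651480)) (a (l 16635664) (l 16639480))) (c (a (l 16663368) (c (l 16662704) (l 16657072))) (a (l 16648984) (c (l 16651336) (l 16645488))))) (a (c (a (l 16623040) (l 16627040)) (a (l 16609976) (l 16614176))) (c (a (l 16636784) (c (l 16639536) (l 16633488))) (a (l 16629408) (l 16636832))))) (b (a (a (c (c (l 16658920) (l 16647168)) (c (l 16634984) (l 16622384))) (l 14)) (l 14)) (l 14))) (b (a (a (a (c (a (l 16657240) (l 16659240)) (a (l 16635216) (l 16637432))) (a (c (l 16661344) (l 16639784)) (l 14))) (l 14)) (l 14)) (l 14))) (l 14)) (l 14)) (l 14)), by decide +kernel⟩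

def k138_pp_022 : ∃ t, chk3 f_pp_022 t 26 48 1 = true :=
  ⟨(c (a (a (c (c (l 16553864) (l 16545360)) (a (l 16527864) (b (l 16501520) (l 16532224)))) (b (c (l 16539552) (a (l 16507680) (l 16514232))) (c (a (l 16564304) (l 16570720)) (a (l 16538904) (l 16545968))))) (a (b (c (a (l 16548880) (l 16555520)) (a (l 16521168) (l 16528496))) (c (a (l 16577464) (l 16584536)) (a (l 16553416) (l 16561224)))) (b (c (a (l 16562472) (l 16569752)) (a (l 16536192) (l 16544256))) (c (a (l 16591920) (a (l 16597664) (l 16601584))) (a (a (l 16567328) (l 16571512)) (c (l 16583432) (l 16572408))))))) (b (a (a (c (l 16467824) (l 16441272)) (c (a (l 16477720) (l 16484880)) (a (l 16446768) (l 16454560)))) (a (c (a (l 16492480) (l 16500520)) (a (l 16462848) (l 16471616))) (c (a (l 16508984) (l 16523104)) (a (l 16480872) (l 16498464))))) (a (a (c (a (l 16498456) (l 16505304)) (a (l 16470056) (l 16477488))) (c (a (l 16512608) (l 16520344)) (a (l 16485432) (l 16493856)))) (a (c (a (l 16528504) (l 16544304)) (a (l 16508016) (c (l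 16518472) (l 16505808)))) (c (a (c (l 16552000) (l 16540152)) (c (l 16561192) (l 16549792))) (a (c (l 16528112) (l 16515880)) (c (l 16538200) (l 16526432)))))))), by decide +kernel⟩

def k139_pp_022 : ∃ t, chk3 f_pp_022 t 26 49 1 = true :=
  ⟨(b (a (c (a (c (a (l 16579512) (l 16585720)) (a (l 16556368) (l 16563184))) (c (a (l 16592264) (l 16599128)) (a (l 16570384) (l 16583200)))) (a (c (a (l 16532400) (l 16539848)) (a (l 16507632) (l 16515728))) (c (a (l 16547728) (c (l 16561584) (l 16550440))) (a (l 16534800) (c (l 16539112) (l 16527600)))))) (a (c (c (a (l 16611560) (c (l 16618608) (l 16608984))) (a (c (l 16591080) (l 16580688)) (c (l 16599176) (l 16589200)))) (c (a (c (l 16570120) (l 16559368)) (c (l 16579048) (l 16568720))) (a (c (l 16548448) (l 16537352)) (c (l 16558232) (l 16547568))))) (b (a (c (c (l 16593200) (l 16583992)) (c (l 16574088) (l 16553024))) (a (a (c (l 16609656) (l 16570016)) (l 14)) (l 14))) (l 14)))) (a (a (c (c (a (l 16606832) (l 16618752)) (a (l 16592312) (c (l 16599256) (l 16589536))))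 (c (a (l 16574472) (c (l 16579648) (l 16569592))) (a (l 16555928) (c (l 16559368) (l 16548984))))) (b (c (c (a (l 16613416) (l 16599648)) (a (l 16573200) (l 16591640))) (c (a (l 16563744) (l 16582968)) (a (l 16553632) (l 16563168)))) (a (c (c (l 16606640) (l 16599624)) (c (l 16591984) (l 16573248))) (l 14)))) (b (a (a (c (c (l 16617656) (l 16610440)) (c (l 16592120) (l 16575800))) (l 14)) (l 14)) (l 14)))), by decide +kernel⟩

def k140_pp_022 : ∃ t, chk3 f_pp_022 t 27 24 1 = true :=
  ⟨(b (a (a (a (c (b (c (l 16577336) (l 16555304)) (c (c (l 16612680) (l 16602480)) (c (l 16592096) (l 16581528)))) (b (c (c (l 16533616) (l 16520640)) (c (l 16507456) (l 16494064))) (c (c (l 16570768) (l 16559840)) (c (l 16548728) (l 16542688))))) (b (c (c (l 16585232) (a (l 16559232) (l 16563704))) (c (c (l 16543080) (l 16530568)) (c (l 16517864) (l 16504952)))) (b (c (c (l 16587232) (l 16576904)) (c (l 16560600) (l 16543584))) (l 14)))) (b (c (c (a (a (l 16591344) (l 16595512)) (a (l 16599760) (l 16604072))) (a (c (l 16576368)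 (l 16564744)) (c (l 16585584) (l 16574456)))) (c (a (c (l 16552920) (l 16540904)) (c (l 16563144) (l 16551640))) (a (c (l 16528696) (l 16516296)) (c (l 16545200) (l 16533328))))) (b (a (a (a (a (c (l 16602896) (l 16560928)) (l 14)) (l 14)) (l 14)) (l 14)) (l 14)))) (b (b (a (a (c (c (l 16581800) (l 16570416)) (c (l 16555640) (c (l 16540800) (l 16528928)))) (a (a (a (c (l 16597232) (l 16553176)) (l 14)) (l 14)) (l 14))) (l 14)) (l 14)) (l 14))) (l 14)), by decide +kernel⟩

def k141_pp_022 : ∃ t, chk3 f_pp_022 t 13 25 1 = true :=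
  ⟨(a (a (a (b (b (b (c (a (c (l 16627520) (l 16599800)) (c (l 16624056) (l 16618024))) (c (a (l 16592432) (l 16600904)) (a (l 16573968) (l 16583216)))) (l 14)) (l 14)) (l 14)) (l 14)) (l 14)) (l 14)), by decide +kernel⟩

def k142_pp_022 : ∃ t, chk3 f_pp_022 t 13 13 1 = true :=
  ⟨(l 14), by decide +kernel⟩

def k143_pp_022 : ∃ t, chk3 f_pp_022 t 6 7 1 = true :=
  ⟨(l 4), by decide +kernel⟩

def k144_pp_022 : ∃ t, chk3 f_pp_022 t 7 3 1 = true :=
  ⟨(b (l 14) (l 4)), by decide +kernel⟩

theorem s145_pp_022 : ∃ t, chk3 f_pp_022 t 26 24 1 = true := ex3_b k138_pp_022 k139_pp_022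

theorem s146_pp_022 : ∃ t, chk3 f_pp_022 t 13 24 1 = true := ex3_a s145_pp_022 k140_pp_022

theorem s147_pp_022 : ∃ t, chk3 f_pp_022 t 13 12 1 = true := ex3_b s146_pp_022 k141_pp_022

theorem s148_pp_022 : ∃ t, chk3 f_pp_022 t 13 6 1 = true := ex3_b s147_pp_022 k142_pp_022

theorem s149_pp_022 : ∃ t, chk3 f_pp_022 t 12 50 1 = true := ex3_b k134_pp_022 k135_pp_022

theorem s150_pp_022 : ∃ t, chk3 f_pp_022 t 12 25 1 = true := ex3_b s149_pp_022 k136_pp_022

theorem s151_pp_022 : ∃ t, chk3 f_pp_022 t 12 24 1 = true := ex3_a k132_pp_022 k133_pp_022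

theorem s152_pp_022 : ∃ t, chk3 f_pp_022 t 12 12 1 = true := ex3_b s151_pp_022 s150_pp_022

theorem s153_pp_022 : ∃ t, chk3 f_pp_022 t 12 6 1 = true := ex3_b s152_pp_022 k137_pp_022

theorem s154_pp_022 : ∃ t, chk3 f_pp_022 t 6 6 1 = true := ex3_a s153_pp_022 s148_pp_022

theorem s155_pp_022 : ∃ t, chk3 f_pp_022 t 6 3 1 = true := ex3_b s154_pp_022 k143_pp_022

theorem s156_pp_022 : ∃ t, chk3 f_pp_022 t 3 3 1 = true := ex3_a s155_pp_022 k144_pp_022

theorem s157_pp_022 : ∃ t, chk3 f_pp_022 t 31 10 1 = true := ex3_b k129_pp_022 k130_pp_022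

theorem s158_pp_022 : ∃ t, chk3 f_pp_022 t 31 5 1 = true := ex3_b s157_pp_022 k131_pp_022

theorem s159_pp_022 : ∃ t, chk3 f_pp_022 t 30 5 1 = true := ex3_a k127_pp_022 k128_pp_022

theorem s160_pp_022 : ∃ t, chk3 f_pp_022 t 15 5 1 = true := ex3_a s159_pp_022 s158_pp_022

theorem s161_pp_022 : ∃ t, chk3 f_pp_022 t 29 22 1 = true := ex3_b k124_pp_022 k125_pp_022

theorem s162_pp_022 : ∃ t, chk3 f_pp_022 t 29 11 1 = true := ex3_b s161_pp_022 k126_pp_022

theorem s163_pp_022 : ∃ t, chk3 f_pp_022 t 56 11 1 = true := ex3_b k121_pp_022 k122_pp_022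

theorem s164_pp_022 : ∃ t, chk3 f_pp_022 t 28 11 1 = true := ex3_a s163_pp_022 k123_pp_022

theorem s165_pp_022 : ∃ t, chk3 f_pp_022 t 14 11 1 = true := ex3_a s164_pp_022 s162_pp_022

theorem s166_pp_022 : ∃ t, chk3 f_pp_022 t 14 10 1 = true := ex3_a k119_pp_022 k120_pp_022

theorem s167_pp_022 : ∃ t, chk3 f_pp_022 t 14 5 1 = true := ex3_b s166_pp_022 s165_pp_022

theorem s168_pp_022 : ∃ t, chk3 f_pp_022 t 7 5 1 = true := ex3_a s167_pp_022 s160_pp_022

theorem s169_pp_022 : ∃ t, chk3 f_pp_022 t 15 4 7 = true := ex3_b k117_pp_022 k118_pp_022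

theorem s170_pp_022 : ∃ t, chk3 f_pp_022 t 15 4 6 = true := ex3_b k115_pp_022 k116_pp_022

theorem s171_pp_022 : ∃ t, chk3 f_pp_022 t 15 4 3 = true := ex3_c s170_pp_022 s169_pp_022

theorem s172_pp_022 : ∃ t, chk3 f_pp_022 t 15 4 2 = true := ex3_b k113_pp_022 k114_pp_022

theorem s173_pp_022 : ∃ t, chk3 f_pp_022 t 15 4 1 = true := ex3_c s172_pp_022 s171_pp_022

theorem s174_pp_022 : ∃ t, chk3 f_pp_022 t 14 9 1 = true := ex3_a k111_pp_022 k112_pp_022

theorem s175_pp_022 : ∃ t, chk3 f_pp_022 t 59 8 1 = true := ex3_a k109_pp_022 k110_pp_022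

theorem s176_pp_022 : ∃ t, chk3 f_pp_022 t 58 16 1 = true := ex3_b k106_pp_022 k107_pp_022

theorem s177_pp_022 : ∃ t, chk3 f_pp_022 t 58 8 1 = true := ex3_b s176_pp_022 k108_pp_022

theorem s178_pp_022 : ∃ t, chk3 f_pp_022 t 29 8 1 = true := ex3_a s177_pp_022 s175_pp_022

theorem s179_pp_022 : ∃ t, chk3 f_pp_022 t 28 16 1 = true := ex3_c k103_pp_022 k104_pp_022

theorem s180_pp_022 : ∃ t, chk3 f_pp_022 t 28 8 1 = true := ex3_b s179_pp_022 k105_pp_022

theorem s181_pp_022 : ∃ t, chk3 f_pp_022 t 14 8 1 = true := ex3_a s180_pp_022 s178_pp_022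

theorem s182_pp_022 : ∃ t, chk3 f_pp_022 t 14 4 1 = true := ex3_b s181_pp_022 s174_pp_022

theorem s183_pp_022 : ∃ t, chk3 f_pp_022 t 7 4 1 = true := ex3_a s182_pp_022 s173_pp_022

theorem s184_pp_022 : ∃ t, chk3 f_pp_022 t 7 2 1 = true := ex3_b s183_pp_022 s168_pp_022

theorem s185_pp_022 : ∃ t, chk3 f_pp_022 t 27 11 3 = true := ex3_b k101_pp_022 k102_pp_022

theorem s186_pp_022 : ∃ t, chk3 f_pp_022 t 27 11 1 = true := ex3_c k100_pp_022 s185_pp_022

theorem s187_pp_022 : ∃ t, chk3 f_pp_022 t 13 11 1 = true := ex3_a k99_pp_022 s186_pp_022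

theorem s188_pp_022 : ∃ t, chk3 f_pp_022 t 13 5 1 = true := ex3_b k98_pp_022 s187_pp_022

theorem s189_pp_022 : ∃ t, chk3 f_pp_022 t 12 5 1 = true := ex3_a k96_pp_022 k97_pp_022

theorem s190_pp_022 : ∃ t, chk3 f_pp_022 t 6 5 1 = true := ex3_a s189_pp_022 s188_pp_022

theorem s191_pp_022 : ∃ t, chk3 f_pp_022 t 13 4 3 = true := ex3_b k94_pp_022 k95_pp_022

theorem s192_pp_022 : ∃ t, chk3 f_pp_022 t 6 4 3 = true := ex3_a k93_pp_022 s191_pp_022

theorem s193_pp_022 : ∃ t, chk3 f_pp_022 t 6 4 2 = true := ex3_a k91_pp_022 k92_pp_022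

theorem s194_pp_022 : ∃ t, chk3 f_pp_022 t 6 4 1 = true := ex3_c s193_pp_022 s192_pp_022

theorem s195_pp_022 : ∃ t, chk3 f_pp_022 t 6 2 1 = true := ex3_b s194_pp_022 s190_pp_022

theorem s196_pp_022 : ∃ t, chk3 f_pp_022 t 3 2 1 = true := ex3_a s195_pp_022 s184_pp_022

theorem s197_pp_022 : ∃ t, chk3 f_pp_022 t 3 1 1 = true := ex3_b s196_pp_022 s156_pp_022

theorem s198_pp_022 : ∃ t, chk3 f_pp_022 t 20 28 1 = true := ex3_b k85_pp_022 k86_pp_022

theorem s199_pp_022 : ∃ t, chk3 f_pp_022 t 10 28 1 = true := ex3_a s198_pp_022 k87_pp_022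

theorem s200_pp_022 : ∃ t, chk3 f_pp_022 t 10 14 1 = true := ex3_b s199_pp_022 k88_pp_022

theorem s201_pp_022 : ∃ t, chk3 f_pp_022 t 10 7 1 = true := ex3_b s200_pp_022 k89_pp_022

theorem s202_pp_022 : ∃ t, chk3 f_pp_022 t 5 7 1 = true := ex3_a s201_pp_022 k90_pp_022

theorem s203_pp_022 : ∃ t, chk3 f_pp_022 t 23 6 1 = true := ex3_b k83_pp_022 k84_pp_022

theorem s204_pp_022 : ∃ t, chk3 f_pp_022 t 22 6 1 = true := ex3_a k81_pp_022 k82_pp_022

theorem s205_pp_022 : ∃ t, chk3 f_pp_022 t 11 6 1 = true := ex3_a s204_pp_022 s203_pp_022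

theorem s206_pp_022 : ∃ t, chk3 f_pp_022 t 21 6 1 = true := ex3_b k79_pp_022 k80_pp_022

theorem s207_pp_022 : ∃ t, chk3 f_pp_022 t 20 13 1 = true := ex3_a k77_pp_022 k78_pp_022

theorem s208_pp_022 : ∃ t, chk3 f_pp_022 t 20 6 1 = true := ex3_b k76_pp_022 s207_pp_022

theorem s209_pp_022 : ∃ t, chk3 f_pp_022 t 10 6 1 = true := ex3_a s208_pp_022 s206_pp_022

theorem s210_pp_022 : ∃ t, chk3 f_pp_022 t 5 6 1 = true := ex3_a s209_pp_022 s205_pp_022

theorem s211_pp_022 : ∃ t, chk3 f_pp_022 t 5 3 1 = true := ex3_b s210_pp_022 s202_pp_022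

theorem s212_pp_022 : ∃ t, chk3 f_pp_022 t 78 28 1 = true := ex3_c k71_pp_022 k72_pp_022

theorem s213_pp_022 : ∃ t, chk3 f_pp_022 t 78 14 1 = true := ex3_b s212_pp_022 k73_pp_022

theorem s214_pp_022 : ∃ t, chk3 f_pp_022 t 39 14 1 = true := ex3_a s213_pp_022 k74_pp_022

theorem s215_pp_022 : ∃ t, chk3 f_pp_022 t 38 116 1 = true := ex3_b k67_pp_022 k68_pp_022

theorem s216_pp_022 : ∃ t, chk3 f_pp_022 t 38 58 1 = true := ex3_b s215_pp_022 k69_pp_022

theorem s217_pp_022 : ∃ t, chk3 f_pp_022 t 38 29 1 = true := ex3_b s216_pp_022 k70_pp_022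

theorem s218_pp_022 : ∃ t, chk3 f_pp_022 t 77 28 1 = true := ex3_c k65_pp_022 k66_pp_022

theorem s219_pp_022 : ∃ t, chk3 f_pp_022 t 76 28 1 = true := ex3_c k63_pp_022 k64_pp_022

theorem s220_pp_022 : ∃ t, chk3 f_pp_022 t 38 28 1 = true := ex3_a s219_pp_022 s218_pp_022

theorem s221_pp_022 : ∃ t, chk3 f_pp_022 t 38 14 1 = true := ex3_b s220_pp_022 s217_pp_022

theorem s222_pp_022 : ∃ t, chk3 f_pp_022 t 19 14 1 = true := ex3_a s221_pp_022 s214_pp_022

theorem s223_pp_022 : ∃ t, chk3 f_pp_022 t 75 58 1 = true := ex3_b k60_pp_022 k61_pp_022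

theorem s224_pp_022 : ∃ t, chk3 f_pp_022 t 75 29 1 = true := ex3_b s223_pp_022 k62_pp_022

theorem s225_pp_022 : ∃ t, chk3 f_pp_022 t 148 29 1 = true := ex3_b k57_pp_022 k58_pp_022

theorem s226_pp_022 : ∃ t, chk3 f_pp_022 t 74 29 1 = true := ex3_a s225_pp_022 k59_pp_022

theorem s227_pp_022 : ∃ t, chk3 f_pp_022 t 37 29 1 = true := ex3_a s226_pp_022 s224_pp_022

theorem s228_pp_022 : ∃ t, chk3 f_pp_022 t 36 118 1 = true := ex3_a k54_pp_022 k55_pp_022

theorem s229_pp_022 : ∃ t, chk3 f_pp_022 t 36 59 1 = true := ex3_b s228_pp_022 k56_pp_022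

theorem s230_pp_022 : ∃ t, chk3 f_pp_022 t 36 58 3 = true := ex3_a k52_pp_022 k53_pp_022

theorem s231_pp_022 : ∃ t, chk3 f_pp_022 t 36 58 2 = true := ex3_a k50_pp_022 k51_pp_022

theorem s232_pp_022 : ∃ t, chk3 f_pp_022 t 36 58 1 = true := ex3_c s231_pp_022 s230_pp_022

theorem s233_pp_022 : ∃ t, chk3 f_pp_022 t 36 29 1 = true := ex3_b s232_pp_022 s229_pp_022

theorem s234_pp_022 : ∃ t, chk3 f_pp_022 t 18 29 1 = true := ex3_a s233_pp_022 s227_pp_022

theorem s235_pp_022 : ∃ t, chk3 f_pp_022 t 75 28 3 = true := ex3_b k48_pp_022 k49_pp_022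

theorem s236_pp_022 : ∃ t, chk3 f_pp_022 t 74 28 3 = true := ex3_b k46_pp_022 k47_pp_022

theorem s237_pp_022 : ∃ t, chk3 f_pp_022 t 37 28 3 = true := ex3_a s236_pp_022 s235_pp_022

theorem s238_pp_022 : ∃ t, chk3 f_pp_022 t 37 28 2 = true := ex3_a k44_pp_022 k45_pp_022

theorem s239_pp_022 : ∃ t, chk3 f_pp_022 t 37 28 1 = true := ex3_c s238_pp_022 s237_pp_022

theorem s240_pp_022 : ∃ t, chk3 f_pp_022 t 36 57 3 = true := ex3_a k42_pp_022 k43_pp_022

theorem s241_pp_022 : ∃ t, chk3 f_pp_022 t 36 56 3 = true := ex3_a k40_pp_022 k41_pp_022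

theorem s242_pp_022 : ∃ t, chk3 f_pp_022 t 36 28 3 = true := ex3_b s241_pp_022 s240_pp_022

theorem s243_pp_022 : ∃ t, chk3 f_pp_022 t 36 57 2 = true := ex3_a k38_pp_022 k39_pp_022

theorem s244_pp_022 : ∃ t, chk3 f_pp_022 t 36 28 2 = true := ex3_b k37_pp_022 s243_pp_022

theorem s245_pp_022 : ∃ t, chk3 f_pp_022 t 36 28 1 = true := ex3_c s244_pp_022 s242_pp_022

theorem s246_pp_022 : ∃ t, chk3 f_pp_022 t 18 28 1 = true := ex3_a s245_pp_022 s239_pp_022

theorem s247_pp_022 : ∃ t, chk3 f_pp_022 t 18 14 1 = true := ex3_b s246_pp_022 s234_pp_022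

theorem s248_pp_022 : ∃ t, chk3 f_pp_022 t 9 14 1 = true := ex3_a s247_pp_022 s222_pp_022

theorem s249_pp_022 : ∃ t, chk3 f_pp_022 t 9 7 1 = true := ex3_b s248_pp_022 k75_pp_022

theorem s250_pp_022 : ∃ t, chk3 f_pp_022 t 68 60 1 = true := ex3_a k31_pp_022 k32_pp_022

theorem s251_pp_022 : ∃ t, chk3 f_pp_022 t 34 60 1 = true := ex3_a s250_pp_022 k33_pp_022

theorem s252_pp_022 : ∃ t, chk3 f_pp_022 t 34 30 1 = true := ex3_b s251_pp_022 k34_pp_022

theorem s253_pp_022 : ∃ t, chk3 f_pp_022 t 17 30 1 = true := ex3_a s252_pp_022 k35_pp_022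

theorem s254_pp_022 : ∃ t, chk3 f_pp_022 t 8 30 1 = true := ex3_a k30_pp_022 s253_pp_022

theorem s255_pp_022 : ∃ t, chk3 f_pp_022 t 8 15 1 = true := ex3_b s254_pp_022 k36_pp_022

theorem s256_pp_022 : ∃ t, chk3 f_pp_022 t 35 59 3 = true := ex3_a k28_pp_022 k29_pp_022

theorem s257_pp_022 : ∃ t, chk3 f_pp_022 t 17 59 3 = true := ex3_a k27_pp_022 s256_pp_022

theorem s258_pp_022 : ∃ t, chk3 f_pp_022 t 35 58 3 = true := ex3_a k25_pp_022 k26_pp_022

theorem s259_pp_022 : ∃ t, chk3 f_pp_022 t 17 58 3 = true := ex3_a k24_pp_022 s258_pp_022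

theorem s260_pp_022 : ∃ t, chk3 f_pp_022 t 17 29 3 = true := ex3_b s259_pp_022 s257_pp_022

theorem s261_pp_022 : ∃ t, chk3 f_pp_022 t 17 14 3 = true := ex3_b k23_pp_022 s260_pp_022

theorem s262_pp_022 : ∃ t, chk3 f_pp_022 t 35 59 2 = true := ex3_a k21_pp_022 k22_pp_022

theorem s263_pp_022 : ∃ t, chk3 f_pp_022 t 17 59 2 = true := ex3_a k20_pp_022 s262_pp_022

theorem s264_pp_022 : ∃ t, chk3 f_pp_022 t 35 58 2 = true := ex3_a k18_pp_022 k19_pp_022

theorem s265_pp_022 : ∃ t, chk3 f_pp_022 t 17 58 2 = true := ex3_a k17_pp_022 s264_pp_022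

theorem s266_pp_022 : ∃ t, chk3 f_pp_022 t 17 29 2 = true := ex3_b s265_pp_022 s263_pp_022

theorem s267_pp_022 : ∃ t, chk3 f_pp_022 t 17 14 2 = true := ex3_b k16_pp_022 s266_pp_022

theorem s268_pp_022 : ∃ t, chk3 f_pp_022 t 17 14 1 = true := ex3_c s267_pp_022 s261_pp_022

theorem s269_pp_022 : ∃ t, chk3 f_pp_022 t 8 14 1 = true := ex3_a k15_pp_022 s268_pp_022

theorem s270_pp_022 : ∃ t, chk3 f_pp_022 t 8 7 1 = true := ex3_b s269_pp_022 s255_pp_022

theorem s271_pp_022 : ∃ t, chk3 f_pp_022 t 4 7 1 = true := ex3_a s270_pp_022 s249_pp_022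

theorem s272_pp_022 : ∃ t, chk3 f_pp_022 t 39 13 1 = true := ex3_b k13_pp_022 k14_pp_022

theorem s273_pp_022 : ∃ t, chk3 f_pp_022 t 38 27 1 = true := ex3_c k11_pp_022 k12_pp_022

theorem s274_pp_022 : ∃ t, chk3 f_pp_022 t 38 13 1 = true := ex3_b k10_pp_022 s273_pp_022

theorem s275_pp_022 : ∃ t, chk3 f_pp_022 t 19 13 1 = true := ex3_a s274_pp_022 s272_pp_022

theorem s276_pp_022 : ∃ t, chk3 f_pp_022 t 19 6 1 = true := ex3_b k9_pp_022 s275_pp_022

theorem s277_pp_022 : ∃ t, chk3 f_pp_022 t 37 27 1 = true := ex3_a k7_pp_022 k8_pp_022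

theorem s278_pp_022 : ∃ t, chk3 f_pp_022 t 37 13 1 = true := ex3_b k6_pp_022 s277_pp_022

theorem s279_pp_022 : ∃ t, chk3 f_pp_022 t 18 13 1 = true := ex3_a k5_pp_022 s278_pp_022

theorem s280_pp_022 : ∃ t, chk3 f_pp_022 t 18 6 1 = true := ex3_b k4_pp_022 s279_pp_022

theorem s281_pp_022 : ∃ t, chk3 f_pp_022 t 9 6 1 = true := ex3_a s280_pp_022 s276_pp_022

theorem s282_pp_022 : ∃ t, chk3 f_pp_022 t 4 6 1 = true := ex3_a k3_pp_022 s281_pp_022

theorem s283_pp_022 : ∃ t, chk3 f_pp_022 t 4 3 1 = true := ex3_b s282_pp_022 s271_pp_022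

theorem s284_pp_022 : ∃ t, chk3 f_pp_022 t 2 3 1 = true := ex3_a s283_pp_022 s211_pp_022

theorem s285_pp_022 : ∃ t, chk3 f_pp_022 t 5 2 1 = true := ex3_a k1_pp_022 k2_pp_022

theorem s286_pp_022 : ∃ t, chk3 f_pp_022 t 2 2 1 = true := ex3_a k0_pp_022 s285_pp_022

theorem s287_pp_022 : ∃ t, chk3 f_pp_022 t 2 1 1 = true := ex3_b s286_pp_022 s284_pp_022

theorem s288_pp_022 : ∃ t, chk3 f_pp_022 t 1 1 1 = true := ex3_a s287_pp_022 s197_pp_022

theorem c_pp_022 : CertB 0 536870912 0 536870912 991146299 28908434 3 eng mog cd0q0 cd0q2 pd2 true true true .pp 0 2 2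
    ndB0q0 ndB0q2 pcB2 cut_pp_022 Ext.none :=
  certB2 (fam := true) (s1 := true) (s2 := true) (a := 0) (b := 2) (c := 2) (cn := .pp) (n1 := ndB0q0) (n2 := ndB0q2) (pc := pcB2) (cut := cut_pp_022) (xt := Ext.none) (P1 := 0) (W1 := 536870912) (P2 := 0) (W2 := 536870912) (P3 := 991146299) (W3 := 28908434) (N0 := 3) (En := eng) (mo := mog) (C1 := cd0q0) (C2 := cd0q2) (C3 := pd2)
    rfl (fun _ => rfl) s288_pp_022

end Pool.Agent.Strip051.G.I9231_9500.Tab.C.BA00

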