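import Pool.Agent.Strip051.G.I9231_9500.Tab
import Pool.Agent.Strip051.PB.ExtD3

/-! # Certificates B10 (generated) -/

set_option linter.all false
set_option maxRecDepth 100000

namespace Pool.Agent.Strip051.G.I9231_9500.Tab.C.BA02

open Pool.Agent.Strip051.PB Pool.Agent.Strip051.PB.T
open Pool.Agent.Strip051.G.I9231_9500.Tab

noncomputable def cut_pm_123_a : Cut := Cut.of [[⟨0, 1, 0, 37748736⟩, ⟨1, 1, 0, 37748736⟩, ⟨2, 2, 0, 5242880⟩], [⟨0, 0, 1, 46137344⟩, ⟨1, 1, 0, 2097152⟩, ⟨2, 1, 1, 46137344⟩, ⟨0, 0, 0, 1027248803⟩, ⟨0, 1, 0, 87939455⟩, ⟨2, 1, 0, 1027248803⟩, ⟨2, 2, 0, 87939455⟩]]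

noncomputable def xt_pm_123_a : Ext := extD3 3 ⟨4, 1, 1, 5, 22, 5, 21, 25, 41, 100, 1, 20⟩ eng cd0q1 cd2q2a pd3 true true false .npn 1 2 3 rfl ndB0q1 ndB2q2a pcB3

noncomputable def f_pm_123_a : ℕ → ℕ → ℕ → ℕ → Bool := onCell 1610612736 536870912 0 536870912 991146299 28908434
    (rowB 3 eng mog cd0q1 cd2q2a pd3 2 true true false .npn 1 2 3 (qsf 536870912 536870912 0 536870912 3) ndB0q1 ndB2q2a pcB3 cut_pm_123_a xt_pm_123_a)

def k0_pm_123_a : ∃ t, chk3 f_pm_123_a t 2 1 1 = true :=
  ⟨(b (a (a (l 1) (b (l 1) (a (l 1) (l 33854909399)))) (a (b (a (l 16280456) (l 16288584)) (a (l 16181856) (l 16247040))) (b (a (l 16306712) (l 16335080)) (a (l 16258608) (l 16279824))))) (a (b (a (l 1) (b (a (l 1) (l 16184312)) (a (c (l 16086768) (l 16172712)) (l 15957624)))) (a (b (a (l 1) (c (l 16028520) (l 16129568))) (b (a (l 15865824) (l 15902504)) (a (c (l 15996880) (l 16042328)) (c (l 15951312) (l 15991856))))) (b (a (b (c (l 16022136) (l 16103448)) (l 16009704)) (b (c (l 15995992) (l 16068240)) (l 15995736)))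 (a (b (l 15860384) (c (l 15910352) (l 15944792))) (b (l 15802344) (a (l 15895704) (l 15876600))))))) (b (a (b (c (l 16145952) (l 16198208)) (a (l 16006096) (l 16062376))) (b (a (l 16176576) (l 16191704)) (a (l 16063880) (c (l 16085800) (l 16106904))))) (a (a (b (b (c (l 15980528) (l 16041624)) (l 15966912)) (c (b (l 15902224) (l 15842224)) (b (l 15935504) (l 15860424)))) (b (b (c (l 15974512) (l 16022568)) (l 15923648)) (b (c (l 15881408) (l 15903904)) (c (l 15815720) (l 15823536))))) (b (a (b (l 15887576) (c (l 15918200) (l 15943224))) (b (l 15997168) (c (b (l 15935312) (l 15907712)) (l 15931424)))) (a (b (c (l 15867936) (l 15877912)) (c (l 15837688) (l 15769728))) (b (c (l 15863616) (l 15858592)) (c (b (l 15806776) (l 15760304)) (b (l 15789984) (l 15735488)))))))))), by decide +kernel⟩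

def k1_pm_123_a : ∃ t, chk3 f_pm_123_a t 3 2 1 = true :=
  ⟨(a (a (b (a (l 16374104) (l 16424456)) (a (l 16311256) (l 16165072))) (b (a (l 16487120) (b (l 16578096) (l 16550000))) (a (b (l 16436872) (l 16380984)) (b (l 16508048) (l 16448760))))) (b (a (a (b (a (l 16648736) (l 16700096)) (l 16644272)) (a (b (l 16756336) (l 16720272)) (l 16762672))) (a (a (a (l 16754952) (l 16725384)) (a (l 159685324919) (l 4))) (l 4))) (a (a (b (l 16595728) (l 16534112)) (a (b (l 16675600) (l 16611608)) (b (l 16731616) (l 16672840)))) (a (a (b (l 16765328) (l 16735168)) (a (b (l 16755328) (l 16768736)) (b (l 16744232) (l 16761184)))) (a (a (b (l 330410293431) (a (l 16754000) (l 16746024))) (b (l 4) (a (l 16734896) (l 4)))) (l 4)))))), by decide +kernel⟩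

def k2_pm_123_a : ∃ t, chk3 f_pm_123_a t 6 3 1 = true :=
  ⟨(b (a (b (a (l 16216768) (l 16252992)) (a (c (l 16113008) (l 16119808)) (c (l 16151712) (l 16144272)))) (b (a (l 16302256) (l 16367264)) (a (c (l 16204248) (l 16183064)) (c (l 16273744) (l 16240704))))) (a (b (a (b (l 16013184) (b (l 16056664) (c (l 15919080) (l 15908728)))) (b (l 16041400) (c (b (l 15990384) (l 15948936)) (l 15944072)))) (a (b (c (l 15871112) (l 15848112)) (c (b (l 15809056) (l 15758120)) (b (l 15773216) (l 15713496)))) (b (c (a (l 15886760) (l 15903264)) (l 15850648)) (a (c (l 15794904) (l 15738008)) (c (l 15808832) (l 15739752)))))) (b (a (b (l 16106312) (a (c (l 16007008) (l 15964736)) (l 16011056))) (b (l 16150320) (c (l 16099144) (l 16031360)))) (a (b (a (c (l 15925792) (l 15865064)) (b (l 15940072) (l 15894792))) (c (b (l 15934200) (a (l 15800784) (l 15831384))) (a (l 15747720) (l 15763704)))) (b (b (a (l 16099120) (c (l 16064248) (l 15972144))) (a (l 15927968) (l 16035976))) (c (b (a (l 15929312) (l 15985904))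 (a (l 15875344) (b (l 15950344) (l 15924384)))) (b (a (l 15823768) (l 15863200)) (a (l 15754800) (l 15796672))))))))), by decide +kernel⟩

def k3_pm_123_a : ∃ t, chk3 f_pm_123_a t 7 6 1 = true :=
  ⟨(a (a (b (l 16367856) (b (l 16374352) (l 16313144))) (a (b (l 16530488) (b (l 16456616) (l 16400280))) (b (l 16593032) (b (l 16523520) (l 16472360))))) (b (a (a (l 16663192) (a (l 16717480) (l 16753032))) (a (a (b (l 16765368) (l 16773432)) (a (l 16761792) (b (l 16745632) (l 16760944)))) (a (a (a (a (l 16745160) (l 16741024)) (l 4)) (l 4)) (l 4)))) (a (a (b (l 16599032) (l 16554912)) (a (l 16660128) (l 16681416))) (a (b (a (l 16741944) (a (l 16771304) (l 16772328))) (a (l 16710392) (a (l 16743632) (l 16762736)))) (a (a (b (l 16764720) (l 16776112)) (b (a (l 16755064) (l 4)) (a (l 16771696) (b (l 16761360) (l 16770344))))) (a (a (b (l 4) (b (l 4) (l 16760768))) (l 4)) (l 4))))))), by decide +kernel⟩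

def k4_pm_123_a : ∃ t, chk3 f_pm_123_a t 14 7 1 = true :=
  ⟨(a (a (b (b (l 16217472) (l 16137984)) (b (b (c (l 16127584) (l 16022256)) (c (l 16095888) (l 15972760))) (b (c (l 16062576) (l 15920064)) (c (b (l 16034984) (c (b (l 16063104) (l 16054880)) (l 15972416))) (b (l 15875688) (l 15843680)))))) (b (b (l 16273416) (l 16201528)) (b (b (l 16147056) (c (l 16185688) (l 16044176))) (b (c (l 16292656) (l 16000752)) (c (a (c (l 576561770089976842183183) (l 16130408)) (b (l 16190776) (c (l 579850191373569825022479) (l 16134568)))) (b (l 15965824) (a (l 15913368) (l 16057208)))))))) (b (a (b (l 16339968) (a (l 16258504) (l 16301696))) (b (l 16483696) (a (l 16350264) (l 16403656)))) (a (b (b (a (l 16214640) (l 16267024)) (a (b (l 16196728) (l 16187576)) (c (l 16338256) (l 16170456)))) (b (a (c (l 16269656) (l 16082520)) (c (l 16353456) (l 16150240))) (c (b (a (l 16275240) (l 139767134164205583)) (b (a (l 580635619660887018873359) (l 140819710469390351)) (a (c (a (l 583035137932608007053839) (l 588343477996905666519567))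 (l 578309311622134044582415)) (b (c (l 140778616339333135) (l 139250707219709967)) (a (c (c (l 141204402319818767) (l 140083037675536399)) (l 138935765805973519)) (a (c (a (c (l 141739795814580239) (l 140592661404631055)) (b (l 141170386148671503) (l 14))) (l 139500090248314895)) (l 14))))))) (b (a (l 16060192) (l 16140456)) (a (l 571760427541966086234639) (c (l 138967445346615311) (l 136175991126687759))))))) (b (a (b (l 16326416) (c (l 16414816) (l 16236152))) (b (l 16392880) (c (l 16501800) (l 16311856)))) (b (b (l 141684132698357775) (c (l 141468697429884943) (l 138662949414944783))) (b (c (l 143009250880913423) (a (l 138140475145961487) (l 139475488665944079))) (b (c (a (l 142021957998231567) (l 143271828125892623)) (c (l 141061259673485327) (l 138417895757447183))) (b (b (c (a (l 142188671526862863) (l 143188952426151951)) (c (l 141001885985832975) (l 138106459058896911))) (l 14)) (l 14))))))))), by decide +kernel⟩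

def k5_pm_123_a : ∃ t, chk3 f_pm_123_a t 15 14 1 = true :=
  ⟨(b (a (a (a (l 16490552) (l 16540424)) (a (l 16592048) (l 16643448))) (a (a (l 16694016) (l 16740072)) (a (a (l 16746616) (b (l 16775416) (l 16774824))) (a (a (b (l 16770544) (l 16775920)) (a (b (l 16762608) (l 16772528)) (b (l 4) (l 16766336)))) (l 4))))) (a (a (a (l 16461728) (l 16524288)) (a (l 16695272) (l 16657776))) (a (a (l 16723296) (b (l 16759968) (l 16773256))) (a (b (a (l 16773328) (l 16772504)) (l 16773176)) (a (a (b (l 16775768) (l 16774104)) (b (a (l 16776296) (l 16774768)) (a (l 16775528) (l 16777008)))) (a (a (a (b (l 16771480) (l 16776800)) (b (l 16767328) (l 16775560))) (b (l 4) (b (l 18437327675085279539623936079) (l 6000495229008120427406911055)))) (l 4))))))), by decide +kernel⟩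

def k6_pm_123_a : ∃ t, chk3 f_pm_123_a t 60 15 1 = true :=
  ⟨(b (a (b (l 16466840) (c (l 16600560) (l 16398832))) (b (l 16548648) (c (l 16712496) (l 16498640)))) (b (a (c (l 600225778478284570009615) (l 587868186338491050140175)) (b (c (l 16745904) (l 16552600)) (c (l 16733600) (l 16610352)))) (b (a (c (l 143521623465099279) (l 591793020069013805850639)) (c (l 600358364578720302407695) (l 600041310850561762025487))) (b (c (a (l 143356078222901263) (b (l 16713080) (l 143414764671385679))) (a (l 142782957708492815) (c (l 600954713056072829771791) (l 599749909767580307742735)))) (b (b (c (a (l 143287702334062607) (l 143385009133092943)) (a (c (l 143089309172416527) (l 140900524726730767)) (l 143231833411387407))) (l 14)) (l 14)))))), by decide +kernel⟩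

def k7_pm_123_a : ∃ t, chk3 f_pm_123_a t 61 30 1 = true :=
  ⟨(a (b (l 16680112) (a (l 16693792) (l 16753048))) (b (l 16734032) (l 16759368))), by decide +kernel⟩

def k8_pm_123_a : ∃ t, chk3 f_pm_123_a t 244 62 1 = true :=
  ⟨(b (l 16745408) (l 601698347713791713763343)), by decide +kernel⟩

def k9_pm_123_a : ∃ t, chk3 f_pm_123_a t 244 126 1 = true :=
  ⟨(c (l 16726448) (l 601523679955210657538063)), by decide +kernel⟩

def k10_pm_123_a : ∃ t, chk3 f_pm_123_a t 244 254 1 = true :=
  ⟨(c (l 600999100633987052053711) (c (l 16715568) (l 16713760))), by decide +kernel⟩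

def k11_pm_123_a : ∃ t, chk3 f_pm_123_a t 244 510 1 = true :=
  ⟨(c (c (l 143463555510321423) (l 143435380521287951)) (c (l 143407411690684623) (l 600984689007633468022863))), by decide +kernel⟩

def k12_pm_123_a : ∃ t, chk3 f_pm_123_a t 244 1022 1 = true :=
  ⟨(c (c (l 143445894600556815) (l 143417032416805135)) (c (l 143388307672006863) (l 143359651646685263))), by decide +kernel⟩

def k13_pm_123_a : ∃ t, chk3 f_pm_123_a t 244 2046 1 = true :=
  ⟨(a (l 14) (c (c (l 143452422951387407) (l 143423629487194383)) (c (c (l 143401982849450255) (l 143387620477108495)) (c (l 143373189385273551) (l 143358827012915279))))), by decide +kernel⟩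

def k14_pm_123_a : ∃ t, chk3 f_pm_123_a t 488 2047 1 = true :=
  ⟨(l 14), by decide +kernel⟩

def k15_pm_123_a : ∃ t, chk3 f_pm_123_a t 978 2047 1 = true :=
  ⟨(l 14), by decide +kernel⟩

def k16_pm_123_a : ∃ t, chk3 f_pm_123_a t 1958 2047 1 = true :=
  ⟨(l 14), by decide +kernel⟩

def k17_pm_123_a : ∃ t, chk3 f_pm_123_a t 3918 2047 1 = true :=
  ⟨(a (l 14) (c (c (b (l 143459501058310415) (c (c (l 143468090993492239) (l 143455240450507023)) (a (c (l 143452491670487311) (l 143445276124594447)) (c (l 143454828132909327) (l 143447543867523343))))) (c (c (c (l 143442115028467983) (l 143432837898682639)) (a (l 143426309547655439) (c (l 143436067713777935) (l 143432494300578063)))) (b (l 143423492048290063) (b (l 143421705341403407) (c (c (l 143425828510302479) (l 143422186377609487)) (c (l 143418612964393231) (l 143410023029391631))))))) (b (c (c (l 143409060956487951) (l 143394629864685839)) (c (l 143380267492360399) (l 143365836400574671))) (c (b (c (l 143407205530124559) (l 143392705718845711))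 (a (c (c (c (l 143410229187281167) (l 143406587054604559)) (c (l 143403013641388303) (l 143399371508695311))) (c (c (l 143395729376002319) (l 143392087243325711)) (c (l 143388445110632719) (l 143384802977939727)))) (c (c (c (l 143412496930242831) (l 143408854797566223)) (c (l 143405212664873231) (l 143401639251656975))) (c (c (l 143397997118980367) (l 143394354986287375)) (c (l 143390712853610767) (l 143387070720917775)))))) (c (a (c (c (l 143381848039522575) (c (l 143379099260797199) (l 143377312554189071))) (c (c (l 143375525847580943) (l 143373670421512463)) (c (l 143371883714904335) (l 143370097008296143)))) (b (l 143379442858279119) (c (b (l 143382122918052111) (c (l 143383084990775567) (l 143379442858082575))) (c (c (l 143377106395644175) (l 143375319689036047)) (c (l 143373464262951183) (l 143371677556343055)))))) (b (l 143363774815781071) (c (b (l 143366386156077263) (a (c (c (l 143367279509291215) (l 143365424083206351)) (c (l 143363637376598223) (l 143361781950513359))) (b (l 143367004631367887)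 (c (c (l 143369272374329551) (l 143367416948244687)) (c (l 143365630241652943) (l 143363774815568079)))))) (b (l 143359101890691279) (c (b (l 143360407560847567) (a (a (l 14) (c (l 143360201402368207) (l 143358414695760079))) (c (l 143361988108959951) (l 143360132682875087)))) (a (c (c (l 143356765428138191) (l 143355872074842319)) (c (l 143354978721530063) (l 143354085368234191))) (c (a (l 143358002378522831) (l 143359170610102479)) (c (l 143357177745047759) (l 143356284391751887))))))))))))), by decide +kernel⟩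

def k18_pm_123_a : ∃ t, chk3 f_pm_123_a t 3919 2047 1 = true :=
  ⟨(c (c (b (l 143466922762420495) (b (c (l 143471458248196367) (l 143457027156427023)) (c (c (l 143472489040429327) (l 143465342214013199)) (c (l 143458126668136719) (l 143450979841736975))))) (b (c (l 143445344844235023) (l 143430913752465679)) (b (c (l 143442664784150799) (l 143428233692381455)) (c (c (l 143443764295844111) (l 143430982472352015)) (b (l 143426515705217295) (c (l 143428714728718607) (l 143421567902302479))))))) (c (b (c (l 143416551380173071) (l 143402120288403727)) (b (c (l 143413802600612111) (l 143399371508842767)) (c (c (c (l 143416826257883407) (l 143413252844667151)) (c (l 143409610711990543) (l 143406037298790671))) (c (c (l 143402395166114063) (l 143398821752914191)) (c (l 143395248339714319) (l 143385971209945359)))))) (b (c (l 143387757916127439) (l 143373326824358095)) (c (b (l 143384940417089743) (c (b (l 143386864562602255) (c (l 143387414318448911) (l 143383772185100559))) (c (c (l 143381710601240847)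 (l 143379923894649103)) (c (l 143378137188040975) (l 143376350481449231))))) (b (l 143370578044797135) (c (b (l 143372502190309583) (c (c (l 143373876579991759) (l 143372089873400015)) (c (l 143370303166791887) (l 143368516460183759)))) (b (l 143365286644433103) (c (c (l 143366729753592015) (l 143364874326835407)) (c (a (l 143361369633718479) (l 143364805608112335)) (c (l 143361781950693583) (l 143360819877920975))))))))))), by decide +kernel⟩

def k19_pm_123_a : ∃ t, chk3 f_pm_123_a t 490 62 1 = true :=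
  ⟨(b (l 16747760) (l 16738560)), by decide +kernel⟩

def k20_pm_123_a : ∃ t, chk3 f_pm_123_a t 490 63 1 = true :=
  ⟨(b (c (l 16729912) (l 16726928)) (b (c (l 16722232) (l 601601790367081677381711)) (c (b (l 143521004999721231) (b (c (l 143513858171683087) (l 143486713975439631)) (b (c (l 143500457871753487) (l 143473519833956623)) (a (c (b (l 143470771055165711) (c (c (l 143486645254783247) (l 143479773306339599)) (c (l 143472901357895951) (l 143466029409452303)))) (c (b (l 143461219045572879) (c (l 143447887466823951) (l 143440946798887183))) (a (b (l 143441565272752399) (c (l 143439503688188175) (l 143421224306589967))) (c (l 143453934780481807) (l 143447131551531279))))) (c (c (c (l 143509872441475279) (l 143503481529450767)) (c (l 143497090617426191) (l 143490699705401615))) (c (c (l 143484240073900303) (l 143477849161875727)) (c (l 143460188255666447) (l 143456614840844559)))))))) (b (c (l 143481010259837199) (l 143454621977837647)) (b (c (l 143459638498672911) (l 143432700460875855)) (c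 (b (c (l 143453316305600783) (l 143439847286702351)) (b (c (l 143445688442732815) (l 143432356862787855)) (b (c (l 143441771432050959) (l 143417169855234319)) (a (c (c (c (l 143431944545157391) (l 143428508570943759)) (c (l 143425072596713743) (l 143421567903023375))) (c (c (l 143418131926106383) (l 143403425957708047)) (c (l 143399989984149775) (a (l 143401364374274319) (l 143414283637981455))))) (c (c (l 143443420701491471) (l 143442664785232143)) (c (a (l 143435517959274767) (l 143448299784012047)) (c (l 143437098507763983) (l 143433868692013327)))))))) (b (c (l 143426378267820239) (l 143412909248921807)) (b (c (l 143418956563366159) (l 143405624983437519)) (a (c (a (c (c (l 143399165349445903) (l 143395660655739151)) (c (a (l 143388788707131663) (l 143395454498783503)) (c (l 143389475903488271) (l 143387757916373263)))) (c (c (l 143412222053466383) (l 143408854798745871)) (c (l 143405487544008975) (l 143402051569795343)))) (c (c (a (c (l 143385971209781455) (l 143384253222666447)) (l 143398684315058447))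 (a (c (l 143382466514731215) (l 143380679808123087)) (l 143389682062229711))) (b (l 143384528100966607) (b (l 143382603955372239) (a (b (l 143374701214302415) (c (c (l 143376694079340751) (l 143374976090882255)) (c (l 143373189384290511) (l 143371471397175503)))) (c (l 143384321942601935) (c (l 143387414319612111) (l 143385765051990223)))))))) (c (b (l 143428439852810511) (c (c (l 143430707595739407) (l 143427477779988751)) (c (l 143424316683714831) (l 143421086867308815)))) (a (c (c (l 143412290773664015) (l 143409060957913295)) (c (l 143405762421997775) (a (l 143399027913031887) (l 143406037300805839)))) (c (c (l 143425965951746319) (l 143422873574965519)) (c (l 143419712478707919) (a (l 143413046688563407) (l 143420056076337359))))))))))))))), by decide +kernel⟩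

def k21_pm_123_a : ∃ t, chk3 f_pm_123_a t 491 31 1 = true :=
  ⟨(b (b (l 16750544) (l 16741832)) (b (c (l 16732848) (l 16730888)) (b (c (l 16725368) (l 143579897601359951)) (b (c (l 143579691439636687) (c (l 143543544991580431) (l 143519699330990287))) (b (c (c (l 143559487910854863) (l 143536054567043279)) (c (l 143512621223264527) (l 143489325318455503))) (b (c (c (l 143543270112526543) (l 143520317805035727)) (c (l 143497296778101007) (c (l 143480048187785487) (l 143468572034072783)))) (c (c (a (c (c (l 143530488287789263) (l 143524578412183759)) (c (l 143518737256054991) (l 143512827380449487))) (c (c (l 143551653890048207) (l 143546225050845391)) (c (l 143540796211658959) (l 143535436091949263)))) (a (c (c (l 143506917504843983) (l 143500938909761807)) (c (l 143495029034156303) (l 143489119158567183))) (c (c (l 143530007252762831) (l 143524578413576399)) (c (l 143519149574389967) (l 143513652015726799))))) (c (c (a (b (l 143482796966101263) (c (l 143480666662011151) (l 143474756786405647)))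 (c (l 143508223171182799) (l 143502794334011663))) (c (a (a (l 143464929899905295) (l 143477780444135695)) (a (l 143490768424665359) (l 143503893849555215))) (a (c (l 143466922765320463) (l 143463899108049167)) (c (l 143493242329202959) (l 143490562269348111))))) (c (b (l 143472626483380495) (b (l 143457645634306319) (c (a (c (l 143457233318052111) (l 143454209660780815)) (c (l 143484102637830415) (l 143481422577975567))) (a (c (l 143451254722969871) (l 143448299785519375)) (c (l 143478673795973391) (l 143475925016641807)))))) (b (l 143461150329651407) (a (b (l 143443420701901007) (a (c (c (l 143438472898593039) (l 143435449241305359)) (c (l 143432425584017679) (c (l 143430157841055951) (l 143428646012420303)))) (c (c (l 143452285515661583) (l 143449330577867023)) (c (c (l 143447200273875215) (l 143445757164716303)) (c (l 143444245336097039) (l 143442802227609871)))))) (a (b (l 143464448865222927) (c (c (l 143466166852223247) (a (l 143459844659527951) (l 143466922766778639))) (c (c (l 143461287768916239)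 (l 143459913379250447)) (c (l 143458538988241167) (c (l 143457508195991823) (l 143456752281682191)))))) (c (l 143480185627820303) (c (l 143476131178316047) (l 143473451118493967))))))))))))))), by decide +kernel⟩

def k22_pm_123_a : ∃ t, chk3 f_pm_123_a t 123 31 1 = true :=
  ⟨(b (b (c (l 16755832) (l 16757952)) (c (l 16749056) (l 16750360))) (b (c (b (l 16742472) (l 599994617921601166436047)) (b (l 16743168) (l 600082239931762031568463))) (b (c (a (l 143704967063453903) (l 143789010997559503)) (a (l 143668683177918543) (l 143770250581606607))) (c (b (a (l 143645387270144207) (l 143734653885481167)) (b (c (a (l 143624496546496719) (l 143713213405839567)) (a (l 143607041798160591) (l 143703180362186959))) (a (b (c (l 143609721857376463) (l 143592541986881743)) (a (c (c (a (l 143570826627350735) (l 143592954302464207)) (c (l 143574881077657807) (l 143570139433353423))) (c (c (l 143565466508525775) (l 143549454870036687)) (c (l 143550348222824655) (l 143545606578536655)))) (a (c (c (l 143615288136073423)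 (l 143607247956689103)) (c (l 143599207777321167) (l 143579828884291791))) (c (c (l 143637690689208527) (l 143630543863152847)) (c (l 143623397037129935) (l 143616181491630287)))))) (b (c (l 143700225423327439) (l 143690192379576527)) (c (c (a (l 143660161963720911) (l 143716511942246607)) (a (l 143654320807936207) (l 143712320054165711))) (c (a (l 143648479652184271) (l 143708128166101199)) (a (l 143642569776955599) (l 143703867558576335)))))))) (b (c (l 143669645252247759) (l 143475925046968527)) (b (c (a (l 143589587049857231) (l 143693147318583503)) (a (l 143572201021079759) (l 143683045555601615))) (c (a (b (c (l 143579622724305103) (l 143570964069630159)) (b (c (l 143572544617349327) (l 143563954682134735)) (c (a (c (l 143544094749360335) (l 143533786827440335)) (c (l 143595634365366479) (l 143591786074423503))) (a (c (l 143528357988384975) (a (l 143516400796827855) (l 143543407555625167))) (c (l 143587937783480527) (l 143584089492537551)))))) (a (a (c (l 143639408679190735) (l 143621747773423823))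 (c (l 143665178487275727) (l 143659680929022159))) (c (l 143681258851303631) (l 143689642627547343)))) (a (a (b (l 143529938536480975) (c (a (c (l 143513789456580879) (l 143508772934353167)) (c (l 143541277251780815) (l 143536741765972175))) (b (l 143517981346250959) (a (c (l 143501419949605135) (l 143493585928847631)) (c (l 143529869817659599) (l 143519699334758607)))))) (c (a (c (l 143573369252528335) (l 143569314803122383)) (c (l 143600788328284367) (l 143597146195820751))) (b (l 143582027908890831) (a (c (l 143560587428741327) (l 143556464259875023)) (c (l 143588968577335503) (l 143585326444871887)))))) (a (b (l 143641813863186639) (c (c (l 143637484535136463) (l 143634460878061775)) (c (l 143620167226818767) (l 143617143569776847)))) (c (a (l 143681465007636687) (l 143708677924995279)) (c (l 143691841651015887) (l 143689711347302607)))))))))))), by decide +kernel⟩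

def k23_pm_123_a : ∃ t, chk3 f_pm_123_a t 62 30 1 = true :=
  ⟨(a (c (l 16743392) (l 16751040)) (b (l 16752088) (a (l 16751448) (l 16752480)))), by decide +kernel⟩

def k24_pm_123_a : ∃ t, chk3 f_pm_123_a t 124 31 1 = true :=
  ⟨(b (b (c (l 16762816) (l 16769616)) (c (a (l 16757056) (l 16762240)) (l 598441344242825351292495))) (b (b (l 143874910340759759) (l 143714381635322063)) (b (c (l 143736165699535055) (l 143742487896703183)) (a (b (c (l 143824057940164815) (l 143728744028700879)) (c (c (a (c (l 143761935525265615) (l 143770594179629263)) (c (l 143816979833749711) (l 143815949042122959))) (a (c (l 143768051559317711) (l 143759805222453455)) (c (l 143814918250528975) (l 143813818739491023)))) (b (c (l 143795195758903503) (l 143791691066753231)) (c (a (c (l 143754582541582543) (l 143751833762857167)) (c (l 143804610329198799) (l 143803304659697871))) (c (b (l 143779940034281679) (a (l 143744824376033487) (l 143797738382115023))) (a (a (l 143732454868828367) (l 143759873944699087)) (a (l 143786949423136975)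 (l 143813681304158415)))))))) (b (c (l 143910850654699599) (l 143918409801892047)) (c (c (a (c (l 143859448477860047) (l 143859792075981007)) (c (l 143900267854331983) (l 143901779683737679))) (a (c (l 143860066954641615) (l 143860410552811727)) (c (l 143903360232652879) (l 143904872062107727)))) (c (b (l 143892365115883727) (a (c (l 143852782690713807) (l 143852782691483855)) (c (l 143898412431261775) (l 143899649382777039)))) (b (l 143894564141203663) (c (a (l 143852713972809935) (l 143900748895387855)) (b (l 143881988475633871) (a (l 143848315927855311) (l 143897381641388239)))))))))))), by decide +kernel⟩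

def k25_pm_123_a : ∃ t, chk3 f_pm_123_a t 125 31 1 = true :=
  ⟨(a (b (b (l 16751688) (l 143718161245028559)) (b (l 143779252848181327) (b (c (l 144031796952940623) (l 143878689967259727)) (b (c (l 143989740628443215) (l 143827631389147215)) (c (a (c (c (l 143938475890376783) (l 143941087231557711)) (c (l 143943698572771407) (l 143946309914001487))) (b (l 143986235935965263) (a (c (l 143960191249825871) (l 143966169846497359)) (c (l 143977302400073807) (l 143983830753951823))))) (b (c (l 143978608074571855) (l 143985342586011727)) (c (a (c (l 143940881075421263) (l 143943011380281423)) (b (l 143985342585077839) (c (l 143975653137121359) (l 143978401917321295)))) (c (a (l 143945141685174351) (a (l 143976065455243343) (l 143994825875783759))) (a (b (l 143951807476236367) (l 143942667784486991)) (a (l 143978745516064847) (l 143997780814544975))))))))))) (b (b (l 16774208) (l 143744205933330639)) (b (l 143826531858104399) (b (c (l 144087459740237903) (l 144114191624716367)) (b (c (l 144048358353502287)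 (l 144065538228486223)) (c (b (l 143938613346795599) (a (c (l 143993588920270927) (b (l 144008501051899983) (l 144001285505908815))) (c (l 144026024521318479) (l 144030353850056783)))) (c (a (c (l 144016747391303759) (l 144019771049476175)) (a (l 144036126287822927) (l 144047396284252239))) (a (b (l 16762672) (c (l 144014067332841551) (l 144016541235134543))) (c (l 144045128541929551) (l 144002247584137295)))))))))), by decide +kernel⟩

def k26_pm_123_a : ∃ t, chk3 f_pm_123_a t 63 15 1 = true :=
  ⟨(b (b (b (a (l 16772912) (a (a (l 16775192) (l 16775392)) (a (a (l 16777656) (b (l 16775296) (l 16775640))) (a (c (l 22837817658482623743801655503) (l 24046743478097435299990798543)) (l 4))))) (a (l 16773184) (a (l 16776144) (a (a (l 16777792) (l 16775080)) (a (a (l 16773576) (l 25478111648521270385917427919)) (l 4)))))) (a (a (l 16753008) (l 16775328)) (a (b (l 16777320) (l 16778704)) (l 6)))) (b (a (a (b (l 16775312) (l 143698232606212175)) (b (l 16777096) (l 16756792))) (a (b (l 16758560) (b (l 16779688)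 (l 16758424))) (l 6))) (a (b (b (a (l 143874841658933327) (l 143842612228669519)) (l 143835121799102543)) (b (a (l 144000667031470159) (l 143980875829100623)) (b (a (c (l 144091720352694351) (l 143922807883186255)) (c (l 143944523241914447) (l 143950982875742287))) (a (b (c (l 143984449247477839) (l 144036469883928655)) (a (c (c (l 144050419940671567) (l 144053512318517327)) (c (l 144056192379568207) (a (l 144053443601023055) (l 144063201768751183)))) (c (c (l 144072135300186191) (l 144074196885602383)) (c (l 144075777434730575) (b (l 144080519080394831) (l 144073234814763087)))))) (b (c (l 144064782324514895) (l 144067668533936207)) (a (c (c (l 144091033160892495) (l 144092201392848975)) (c (l 144070348600148047) (a (l 144089177736790095) (l 144096668161605711)))) (c (c (l 144106769925406799) (l 144084710973997135)) (c (l 144084710974652495) (a (l 144103471391621199) (l 144109587426803791)))))))))) (a (b (a (l 143793409084915791) (l 143757400083218511)) (b (l 143994413571850319) (c (b (l 144054749268394063)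 (a (b (l 144127935529500751) (c (l 144096462007943247) (l 144096393288892495))) (a (c (l 144106976091111503) (l 144107113530490959)) (c (l 144109724871934031) (l 144109724872261711))))) (b (l 143967887851700303) (a (a (c (l 144098729751396431) (l 144098317435191375)) (c (l 144103265238564943) (l 144102646758473807))) (a (c (l 144106838653009999) (l 144106151456014415)) (a (c (l 144108831519031375) (l 144108075605180495)) (l 6)))))))) (l 6))))), by decide +kernel⟩

theorem s27_pm_123_a : ∃ t, chk3 f_pm_123_a t 62 31 1 = true := ex3_a k24_pm_123_a k25_pm_123_a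

theorem s28_pm_123_a : ∃ t, chk3 f_pm_123_a t 62 15 1 = true := ex3_b k23_pm_123_a s27_pm_123_a

theorem s29_pm_123_a : ∃ t, chk3 f_pm_123_a t 31 15 1 = true := ex3_a s28_pm_123_a k26_pm_123_a

theorem s30_pm_123_a : ∃ t, chk3 f_pm_123_a t 490 31 1 = true := ex3_b k19_pm_123_a k20_pm_123_a

theorem s31_pm_123_a : ∃ t, chk3 f_pm_123_a t 245 31 1 = true := ex3_a s30_pm_123_a k21_pm_123_a

theorem s32_pm_123_a : ∃ t, chk3 f_pm_123_a t 1959 2047 1 = true := ex3_a k17_pm_123_a k18_pm_123_a

theorem s33_pm_123_a : ∃ t, chk3 f_pm_123_a t 979 2047 1 = true := ex3_a k16_pm_123_a s32_pm_123_a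

theorem s34_pm_123_a : ∃ t, chk3 f_pm_123_a t 489 2047 1 = true := ex3_a k15_pm_123_a s33_pm_123_a

theorem s35_pm_123_a : ∃ t, chk3 f_pm_123_a t 244 2047 1 = true := ex3_a k14_pm_123_a s34_pm_123_a

theorem s36_pm_123_a : ∃ t, chk3 f_pm_123_a t 244 1023 1 = true := ex3_b k13_pm_123_a s35_pm_123_a

theorem s37_pm_123_a : ∃ t, chk3 f_pm_123_a t 244 511 1 = true := ex3_b k12_pm_123_a s36_pm_123_a

theorem s38_pm_123_a : ∃ t, chk3 f_pm_123_a t 244 255 1 = true := ex3_b k11_pm_123_a s37_pm_123_a

theorem s39_pm_123_a : ∃ t, chk3 f_pm_123_a t 244 127 1 = true := ex3_b k10_pm_123_a s38_pm_123_a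

theorem s40_pm_123_a : ∃ t, chk3 f_pm_123_a t 244 63 1 = true := ex3_b k9_pm_123_a s39_pm_123_a

theorem s41_pm_123_a : ∃ t, chk3 f_pm_123_a t 244 31 1 = true := ex3_b k8_pm_123_a s40_pm_123_a

theorem s42_pm_123_a : ∃ t, chk3 f_pm_123_a t 122 31 1 = true := ex3_a s41_pm_123_a s31_pm_123_a

theorem s43_pm_123_a : ∃ t, chk3 f_pm_123_a t 61 31 1 = true := ex3_a s42_pm_123_a k22_pm_123_a

theorem s44_pm_123_a : ∃ t, chk3 f_pm_123_a t 61 15 1 = true := ex3_b k7_pm_123_a s43_pm_123_a

theorem s45_pm_123_a : ∃ t, chk3 f_pm_123_a t 30 15 1 = true := ex3_a k6_pm_123_a s44_pm_123_a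

theorem s46_pm_123_a : ∃ t, chk3 f_pm_123_a t 15 15 1 = true := ex3_a s45_pm_123_a s29_pm_123_a

theorem s47_pm_123_a : ∃ t, chk3 f_pm_123_a t 15 7 1 = true := ex3_b k5_pm_123_a s46_pm_123_a

theorem s48_pm_123_a : ∃ t, chk3 f_pm_123_a t 7 7 1 = true := ex3_a k4_pm_123_a s47_pm_123_a

theorem s49_pm_123_a : ∃ t, chk3 f_pm_123_a t 7 3 1 = true := ex3_b k3_pm_123_a s48_pm_123_a

theorem s50_pm_123_a : ∃ t, chk3 f_pm_123_a t 3 3 1 = true := ex3_a k2_pm_123_a s49_pm_123_a

theorem s51_pm_123_a : ∃ t, chk3 f_pm_123_a t 3 1 1 = true := ex3_b k1_pm_123_a s50_pm_123_a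

theorem s52_pm_123_a : ∃ t, chk3 f_pm_123_a t 1 1 1 = true := ex3_a k0_pm_123_a s51_pm_123_a

theorem c_pm_123_a : CertB 536870912 536870912 0 536870912 991146299 28908434 3 eng mog cd0q1 cd2q2a pd3 true true false .npn 1 2 3
    ndB0q1 ndB2q2a pcB3 cut_pm_123_a xt_pm_123_a :=
  certB2 (fam := true) (s1 := true) (s2 := false) (a := 1) (b := 2) (c := 3) (cn := .npn) (n1 := ndB0q1) (n2 := ndB2q2a) (pc := pcB3) (cut := cut_pm_123_a) (xt := xt_pm_123_a) (P1 := 536870912) (W1 := 536870912) (P2 := 0) (W2 := 536870912) (P3 := 991146299) (W3 := 28908434) (N0 := 3) (En := eng) (mo := mog) (C1 := cd0q1) (C2 := cd2q2a) (C3 := pd3)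
    rfl (fun _ => rfl) s52_pm_123_a

noncomputable def cut_pm_123_b : Cut := Cut.of [[⟨0, 1, 0, 37748736⟩, ⟨1, 1, 0, 37748736⟩, ⟨2, 2, 0, 5242880⟩], [⟨0, 0, 1, 46137344⟩, ⟨1, 1, 0, 2097152⟩, ⟨2, 1, 1, 46137344⟩, ⟨0, 0, 0, 1027248803⟩, ⟨0, 1, 0, 87939455⟩, ⟨2, 1, 0, 1027248803⟩, ⟨2, 2, 0, 87939455⟩]]

noncomputable def f_pm_123_b : ℕ → ℕ → ℕ → ℕ → Bool := onCell 1610612736 536870912 1239849684 370763052 991146299 28908434
    (rowB 3 eng mog cd0q1 cd2q2b pd3 2 true true false .npn 1 2 3 (qsf 536870912 536870912 1239849684 370763052 3) ndB0q1 ndB2q2b pcB3 cut_pm_123_b Ext.none)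

def k0_pm_123_b : ∃ t, chk3 f_pm_123_b t 1 1 1 = true :=
  ⟨(a (b (a (l 1) (b (a (b (a (l 16319656) (l 16331064)) (l 1)) (b (a (l 16353128) (l 16386008)) (a (l 16417512) (l 16453048)))) (a (l 1) (b (a (l 1) (l 16502832)) (l 1))))) (l 1)) (b (a (a (b (b (a (l 16430056) (l 16485768)) (a (l 16500216) (l 16559424))) (b (a (l 16553448) (l 16621112)) (a (l 1) (l 16668856)))) (b (a (b (b (l 16531840) (l 16574880)) (l 16636880)) (b (b (a (l 16590968) (l 16637032)) (l 16661920)) (a (l 16703280) (l 16753704)))) (a (b (l 16706184) (l 16764200)) (b (l 16756392) (l 16713952))))) (b (a (a (b (a (b (l 16686576) (l 16741048)) (l 16761008)) (a (l 16754168) (l 16749488))) (b (a (l 16757552) (b (l 16753664) (l 16744680))) (a (l 16741848) (l 16726960)))) (a (a (b (a (l 16735952) (l 4)) (l 4)) (l 4)) (l 4))) (a (a (b (l 16730648) (l 16690400)) (a (b (l 16723216) (l 4)) (l 4))) (l 4)))) (a (a (l 1) (b (a (b (l 16683120) (l 1)) (b (l 16645816) (l 16572432))) (l 1))) (a (a (a (b (l 16615808) (l 1)) (l 4)) (l 4)) (l 4))))),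 by decide +kernel⟩

theorem c_pm_123_b : CertB 536870912 536870912 1239849684 370763052 991146299 28908434 3 eng mog cd0q1 cd2q2b pd3 true true false .npn 1 2 3
    ndB0q1 ndB2q2b pcB3 cut_pm_123_b Ext.none :=
  certB2 (fam := true) (s1 := true) (s2 := false) (a := 1) (b := 2) (c := 3) (cn := .npn) (n1 := ndB0q1) (n2 := ndB2q2b) (pc := pcB3) (cut := cut_pm_123_b) (xt := Ext.none) (P1 := 536870912) (W1 := 536870912) (P2 := 1239849684) (W2 := 370763052) (P3 := 991146299) (W3 := 28908434) (N0 := 3) (En := eng) (mo := mog) (C1 := cd0q1) (C2 := cd2q2b) (C3 := pd3)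
    rfl (fun _ => rfl) k0_pm_123_b

noncomputable def f_pm_133 : ℕ → ℕ → ℕ → ℕ → Bool := onCell 536870912 536870912 1610612736 536870912 991146299 28908434
    (rowB 3 eng mog cd0q1 cd2q3 pd3 0 true true false .dn 1 3 3 (qsf 536870912 536870912 1610612736 536870912 3) ndB0q1 ndB2q3 pcB3 Cut.none Ext.none)

def k0_pm_133 : ∃ t, chk3 f_pm_133 t 1 1 1 = true :=
  ⟨(l 4), by decide +kernel⟩

theorem c_pm_133 : CertB 536870912 536870912 1610612736 536870912 991146299 28908434 3 eng mog cd0q1 cd2q3 pd3 true true false .dn 1 3 3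
    ndB0q1 ndB2q3 pcB3 Cut.none Ext.none :=
  certB0 (fam := true) (s1 := true) (s2 := false) (a := 1) (b := 3) (c := 3) (cn := .dn) (n1 := ndB0q1) (n2 := ndB2q3) (pc := pcB3) (cut := Cut.none) (xt := Ext.none) (P1 := 536870912) (W1 := 536870912) (P2 := 1610612736) (W2 := 536870912) (P3 := 991146299) (W3 := 28908434) (N0 := 3) (En := eng) (mo := mog) (C1 := cd0q1) (C2 := cd2q3) (C3 := pd3)
    rfl k0_pm_133

noncomputable def cut_pm_202 : Cut := Cut.of [[⟨0, 1, 0, 53687091⟩, ⟨1, 0, 0, 53687091⟩, ⟨2, 1, 0, 53687091⟩]]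

noncomputable def f_pm_202 : ℕ → ℕ → ℕ → ℕ → Bool := onCell 0 536870912 1073741824 536870912 991146299 28908434
    (rowB 3 eng mog cd0q2 cd2q0 pd2 1 true true false .pp 2 0 2 (qsf 0 536870912 0 536870912 2) ndB0q2 ndB2q0 pcB2 cut_pm_202 Ext.none)

def k0_pm_202 : ∃ t, chk3 f_pm_202 t 2 2 1 = true :=
  ⟨(b (a (l 1) (b (l 1) (b (l 1) (a (l 1) (a (l 1) (b (l 1) (c (l 16135296) (l 16139688)))))))) (b (a (b (b (l 1) (a (c (l 16153184) (l 16120160)) (c (l 16179840) (l 16142544)))) (b (a (l 16185944) (c (l 16274480) (l 16254848))) (a (l 16285656) (l 16274488)))) (b (a (b (c (b (l 1) (l 16170728)) (l 242697553191)) (c (l 179883926023) (l 16067720))) (b (c (a (l 16213960) (l 16267616)) (a (l 16162976) (l 16218672))) (c (l 16234448) (l 16138440)))) (b (a (c (l 16321800) (l 16302808)) (a (l 16329224) (l 16361344))) (a (c (l 16415736) (l 16427752)) (l 16311144))))) (c (a (b (b (l 16476360) (l 16382032)) (a (l 16186048) (l 16210888))) (b (a (l 16440080) (l 16384056)) (a (l 16223328) (l 16196176)))) (a (b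 (a (l 16274928) (l 16319384)) (a (l 16075520) (l 16113904))) (b (a (l 16304392) (l 16221192)) (a (l 16133144) (l 16061672))))))), by decide +kernel⟩

def k1_pm_202 : ∃ t, chk3 f_pm_202 t 2 6 1 = true :=
  ⟨(b (a (b (a (b (l 15745216) (c (l 16003784) (l 15604216))) (c (l 16069952) (l 15888552))) (a (c (b (l 15706816) (l 15685896)) (b (a (l 15719832) (l 15674032)) (a (l 15699256) (l 15591192)))) (c (l 15892272) (l 15649128)))) (b (a (c (l 16091056) (l 15920464)) (c (l 16092608) (l 15923400))) (c (a (l 15920296) (l 15929336)) (a (l 15691256) (l 15705264))))) (a (b (a (c (l 15848808) (b (l 15629624) (l 15637440))) (a (b (c (l 15768504) (l 15479944)) (c (l 15729936) (l 15425992))) (c (l 15733320) (l 15436448)))) (a (c (l 15743536) (b (l 15661256) (l 15699992))) (c (a (l 15745712) (b (l 15640072) (l 15627456))) (a (l 15441880) (b (l 15288816) (l 15290304)))))) (b (c (a (l 15755536) (l 15771736)) (a (l 15469976) (l 15494496))) (a (c (b (l 15637144) (l 15572408)) (b (l 15310944) (l 15223704))) (c (l 15622032)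 (l 15294136)))))), by decide +kernel⟩

def k2_pm_202 : ∃ t, chk3 f_pm_202 t 2 7 1 = true :=
  ⟨(b (a (c (b (a (l 15849176) (l 15656816)) (a (l 15970376) (l 15776144))) (b (a (b (l 15752568) (l 15817960)) (b (l 15409344) (l 15458448))) (a (l 15685976) (l 15304376)))) (a (a (b (b (c (l 15530168) (l 15164256)) (l 15368232)) (c (l 15611152) (l 15264416))) (b (b (l 15315992) (c (l 15451320) (l 15061728))) (b (c (l 15439360) (l 15043816)) (l 15290776)))) (b (c (l 15482280) (l 15106976)) (a (b (l 15184200) (c (l 15354240) (l 14933032))) (a (l 15152648) (l 15157624)))))) (a (b (a (c (b (l 16249248) (l 16329024)) (a (l 16104312) (l 16031768))) (c (l 15908816) (l 15537368))) (a (c (a (l 16471016) (l 16329816)) (b (l 16103040) (l 16249824))) (c (l 16006664) (l 15724624)))) (a (b (c (l 15605064) (b (l 15269032) (l 15352672))) (c (l 15750408) (l 15287296))) (b (c (a (l 15358336) (b (l 15285960) (l 15273608))) (a (b (l 14948768) (l 15025128)) (b (l 14844912) (l 14827048)))) (c (b (l 15403352) (l 15477768)) (b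 (l 14952056) (l 15090320))))))), by decide +kernel⟩

def k3_pm_202 : ∃ t, chk3 f_pm_202 t 3 8 1 = true :=
  ⟨(a (l 1) (a (b (l 1) (b (a (l 1) (a (l 1) (l 6))) (a (b (l 1) (a (l 1) (b (a (l 1) (c (l 16487808) (l 16451848))) (c (a (c (l 16515336) (l 16487280)) (l 16484968)) (a (b (l 16441008) (l 16447040)) (l 16469592)))))) (a (b (b (a (l 1) (c (l 241088005751) (l 242698502679))) (c (a (l 224444971175) (l 16539992)) (a (l 16459440) (l 16484992)))) (c (c (l 16503800) (l 16497488)) (b (l 16446568) (l 16505472)))) (b (b (b (l 6) (c (l 16546416) (l 16514184))) (c (l 16537168) (l 16504176))) (c (l 16519720) (a (l 16535040) (l 16541696)))))))) (b (l 6) (b (l 6) (a (a (c (b (c (l 16576904) (l 16573176)) (l 16575392)) (b (b (l 16505960) (l 16541904)) (l 16527464))) (b (c (l 16606088) (l 16563088)) (l 16587160))) (c (a (l 16578336) (l 16538144)) (b (a (l 16680512) (l 16640032)) (l 16516816)))))))), by decide +kernel⟩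

def k4_pm_202 : ∃ t, chk3 f_pm_202 t 6 9 1 = true :=
  ⟨(b (a (l 1) (b (a (l 1) (b (l 1) (c (a (l 303364809191) (c (l 16440568) (l 16411496))) (a (l 16308760) (l 16324296))))) (a (c (b (a (l 1) (l 16337520)) (l 16251856)) (b (l 295848179847) (l 16254136))) (b (c (a (l 16390152) (l 16445752)) (a (l 16329888) (l 16386496))) (c (l 16334752) (l 16297408)))))) (b (b (a (a (l 1) (c (l 16269376) (l 16208088))) (a (c (l 16360240) (l 16301496)) (c (l 16442272) (l 16388456)))) (a (a (c (l 16218232) (l 16156808)) (c (l 16296848) (l 16238256))) (a (c (l 16386304) (l 16330552)) (c (l 16447040) (l 16422240))))) (a (a (c (l 16222568) (l 16208520)) (c (l 16257192) (l 16162800))) (a (c (l 16346160) (l 16261992)) (c (l 16467872) (l 16417760)))))), by decide +kernel⟩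

def k5_pm_202 : ∃ t, chk3 f_pm_202 t 7 9 1 = true :=
  ⟨(a (a (b (a (b (b (c (c (l 396780449479) (l 407517819687)) (b (l 389801107175) (l 16413336))) (c (l 16443568) (l 16426616))) (c (l 16399784) (b (l 16446360) (l 16472568)))) (b (b (b (c (a (l 16511312) (l 16520888)) (a (l 16453232) (l 16484352))) (c (l 16514616) (l 16477656))) (c (l 16485344) (l 16448720))) (c (l 16473080) (l 16424320)))) (b (c (l 16508816) (l 16433040)) (l 16437384))) (b (b (c (b (a (b (l 16537912) (l 16533088)) (l 16575856)) (a (l 16530104) (l 16616800))) (b (a (b (l 16523032) (l 16497632)) (l 16524944)) (a (l 16477752) (l 16569320)))) (b (a (l 16487152) (l 16511592)) (l 16483264))) (c (b (l 16569064) (l 16505056)) (b (l 16544344) (l 16503288))))) (b (a (a (b (b (l 16568960) (l 16576392)) (b (l 16482624) (l 16479896))) (b (c (l 16584344) (l 16589096)) (b (l 16540472) (l 16487712)))) (b (b (a (l 16549352) (l 16537544)) (a (l 16541120) (l 16487888))) (c (l 16420440) (l 16369968)))) (a (a (c (l 16328816) (l 16300728)) (b (b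 (l 16440552) (l 16400432)) (l 16345272))) (b (a (b (l 16384400) (l 16334328)) (l 16305784)) (c (l 16242520) (l 16155496)))))), by decide +kernel⟩

def k6_pm_202 : ∃ t, chk3 f_pm_202 t 3 5 1 = true :=
  ⟨(a (b (b (a (b (a (c (l 16331416) (l 16287352)) (c (l 16364520) (l 16309704))) (a (l 16290336) (l 16368264))) (b (c (l 16352920) (l 16318944)) (a (l 16477744) (l 16506520)))) (c (a (l 16310632) (b (l 16490056) (l 16415200))) (a (b (l 16447200) (l 16470104)) (b (l 16419432) (l 16300200))))) (b (a (c (l 16258048) (b (l 16365848) (l 16260400))) (c (l 16070280) (b (l 16263280) (l 16162440)))) (a (c (l 16139952) (l 15954536)) (c (l 16000272) (b (l 16061128) (l 15959824)))))) (b (a (a (b (c (l 16474496) (l 16375296)) (c (l 16310304) (l 16230448))) (b (c (l 16299056) (l 16225272)) (c (l 16262584) (l 16188504)))) (a (b (c (l 16122344) (b (l 16282712) (l 16194440))) (b (l 15936008) (l 15896880))) (b (b (c (l 16191768) (l 16127736)) (c (l 16123688) (l 16040280))) (c (l 16020328) (l 15907112))))) (a (b (c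 (b (l 16198416) (l 16124488)) (b (l 16098608) (l 16002176))) (c (a (l 16054808) (l 15970792)) (a (l 15904592) (l 15808584)))) (b (a (c (l 16007976) (l 15873552)) (c (l 15880544) (l 15726672))) (a (c (l 15864960) (l 15687872)) (c (l 15741184) (l 15546384))))))), by decide +kernel⟩

def k7_pm_202 : ∃ t, chk3 f_pm_202 t 3 3 1 = true :=
  ⟨(b (a (b (c (a (b (l 16064320) (l 15908032)) (b (l 15847312) (a (l 15866104) (l 15821848)))) (a (b (l 15784872) (b (l 15733240) (l 15630960))) (b (a (l 15835464) (l 15781256)) (a (l 15635592) (l 15586664))))) (c (a (b (l 15757368) (l 15614496)) (b (l 15701216) (l 15565712))) (a (b (b (l 15530664) (l 15432720)) (l 15291184)) (b (a (l 15442976) (l 15399528)) (l 15242128))))) (b (a (b (c (a (l 15906856) (l 15826392)) (a (l 15710656) (l 15619992))) (c (a (l 15762920) (l 15686424)) (a (l 15521552) (l 15436696)))) (c (a (b (l 15724416) (l 15588776)) (b (l 15604872) (l 15473960))) (a (b (l 15504960) (l 15327920)) (b (l 15369592) (l 15199304))))) (a (c (b (l 15590016) (l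 15463080)) (b (l 15301704) (l 15134072))) (c (a (b (l 15460232) (l 15340792)) (b (l 15350600) (l 15236760))) (a (b (l 15159568) (l 15002456)) (b (l 15038256) (l 14888952))))))) (a (b (c (a (b (l 15481392) (l 15359912)) (b (l 15440136) (l 15326304))) (a (b (l 15113504) (l 14951032)) (b (l 15075024) (l 14922944)))) (a (b (c (l 15251792) (l 14806096)) (c (a (b (l 15200840) (l 15209584)) (l 15160624)) (a (b (l 14734440) (l 14744448)) (l 14686480)))) (c (b (l 15225864) (l 15140408)) (b (l 14788104) (l 14672560))))) (b (a (c (b (l 15346568) (l 15242240)) (b (l 14979496) (l 14840232))) (c (a (l 15183144) (l 15088224)) (a (l 14814536) (l 14692608)))) (a (c (b (l 15151720) (l 15076536)) (b (l 14718384) (l 14615912))) (c (a (l 15020448) (l 14938888)) (a (l 14574296) (l 14491472))))))), by decide +kernel⟩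

theorem s8_pm_202 : ∃ t, chk3 f_pm_202 t 3 9 1 = true := ex3_a k4_pm_202 k5_pm_202

theorem s9_pm_202 : ∃ t, chk3 f_pm_202 t 3 4 1 = true := ex3_b k3_pm_202 s8_pm_202

theorem s10_pm_202 : ∃ t, chk3 f_pm_202 t 3 2 1 = true := ex3_b s9_pm_202 k6_pm_202

theorem s11_pm_202 : ∃ t, chk3 f_pm_202 t 3 1 1 = true := ex3_b s10_pm_202 k7_pm_202

theorem s12_pm_202 : ∃ t, chk3 f_pm_202 t 2 3 1 = true := ex3_b k1_pm_202 k2_pm_202

theorem s13_pm_202 : ∃ t, chk3 f_pm_202 t 2 1 1 = true := ex3_b k0_pm_202 s12_pm_202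

theorem s14_pm_202 : ∃ t, chk3 f_pm_202 t 1 1 1 = true := ex3_a s13_pm_202 s11_pm_202

theorem c_pm_202 : CertB 0 536870912 0 536870912 991146299 28908434 3 eng mog cd0q2 cd2q0 pd2 true true false .pp 2 0 2
    ndB0q2 ndB2q0 pcB2 cut_pm_202 Ext.none :=
  certB1 (fam := true) (s1 := true) (s2 := false) (a := 2) (b := 0) (c := 2) (cn := .pp) (n1 := ndB0q2) (n2 := ndB2q0) (pc := pcB2) (cut := cut_pm_202) (xt := Ext.none) (P1 := 0) (W1 := 536870912) (P2 := 0) (W2 := 536870912) (P3 := 991146299) (W3 := 28908434) (N0 := 3) (En := eng) (mo := mog) (C1 := cd0q2) (C2 := cd2q0) (C3 := pd2)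
    rfl (fun _ => rfl) s14_pm_202

noncomputable def f_pm_203 : ℕ → ℕ → ℕ → ℕ → Bool := onCell 0 536870912 1610612736 536870912 991146299 28908434
    (rowB 3 eng mog cd0q2 cd2q0 pd3 1 true true false .up 2 0 3 (qsf 0 536870912 0 536870912 3) ndB0q2 ndB2q0 pcB3 Cut.none Ext.none)

def k0_pm_203 : ∃ t, chk3 f_pm_203 t 1 1 1 = true :=
  ⟨(b (a (a (b (b (b (c (l 16423536) (l 16313400)) (a (l 4) (l 16371808))) (l 4)) (l 4)) (b (b (b (a (l 16141400) (l 15933752)) (a (l 16220832) (l 16005360))) (b (a (l 16292768) (l 16096600)) (a (l 16337280) (l 16193232)))) (b (b (a (l 4) (l 16263320)) (l 2)) (l 2)))) (b (a (b (a (b (l 15478416) (l 15764160)) (b (l 15554360) (c (l 15649880) (l 15421008)))) (b (a (l 15851472) (l 15367824)) (a (l 15956536) (l 15680432)))) (b (a (c (l 15502648) (l 15272440)) (c (l 15299056) (l 15055808))) (a (b (l 15364824) (l 2)) (l 2)))) (a (l 2) (l 2)))) (l 2)), by decide +kernel⟩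

theorem c_pm_203 : CertB 0 536870912 0 536870912 991146299 28908434 3 eng mog cd0q2 cd2q0 pd3 true true false .up 2 0 3
    ndB0q2 ndB2q0 pcB3 Cut.none Ext.none :=
  certB1 (fam := true) (s1 := true) (s2 := false) (a := 2) (b := 0) (c := 3) (cn := .up) (n1 := ndB0q2) (n2 := ndB2q0) (pc := pcB3) (cut := Cut.none) (xt := Ext.none) (P1 := 0) (W1 := 536870912) (P2 := 0) (W2 := 536870912) (P3 := 991146299) (W3 := 28908434) (N0 := 3) (En := eng) (mo := mog) (C1 := cd0q2) (C2 := cd2q0) (C3 := pd3)
    rfl (fun _ => rfl) k0_pm_203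

noncomputable def f_pm_213 : ℕ → ℕ → ℕ → ℕ → Bool := onCell 0 536870912 1610612736 536870912 991146299 28908434
    (rowB 3 eng mog cd0q2 cd2q1 pd3 1 true true false .pnn 2 1 3 (qsf 0 536870912 536870912 536870912 3) ndB0q2 ndB2q1 pcB3 Cut.none Ext.none)

def k0_pm_213 : ∃ t, chk3 f_pm_213 t 1 1 1 = true :=
  ⟨(b (a (a (b (l 1) (l 4)) (b (b (l 1) (b (l 1) (a (l 1) (l 15657720)))) (b (b (a (l 4) (l 15728656)) (l 4)) (l 4)))) (b (a (b (l 1) (a (l 197598766103) (b (l 14884280) (l 15188160)))) (b (a (c (l 14884176) (l 14741912)) (a (l 14665040) (l 14538600))) (a (b (l 14841640) (a (l 14961128) (l 14842696))) (a (l 14709512) (l 14587536))))) (a (b (b (a (l 15591448) (l 15338208)) (a (l 15701536) (l 15494536))) (b (a (l 15771952) (l 15639544)) (a (l 4) (l 15747792)))) (b (a (b (l 15027632) (l 15193312)) (b (a (l 14805048) (l 14674616)) (a (l 14926160) (l 14769760)))) (a (b (l 15362728) (l 15529944)) (b (a (l 15101352) (l 14907048)) (l 15180304))))))) (a (l 4) (b (a (l 4) (b (a (b (l 15669704) (l 15785144))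 (b (l 15357024) (a (l 15608688) (l 15441544)))) (a (l 4) (b (a (l 4) (l 15611128)) (l 4))))) (l 4)))), by decide +kernel⟩

theorem c_pm_213 : CertB 0 536870912 536870912 536870912 991146299 28908434 3 eng mog cd0q2 cd2q1 pd3 true true false .pnn 2 1 3
    ndB0q2 ndB2q1 pcB3 Cut.none Ext.none :=
  certB1 (fam := true) (s1 := true) (s2 := false) (a := 2) (b := 1) (c := 3) (cn := .pnn) (n1 := ndB0q2) (n2 := ndB2q1) (pc := pcB3) (cut := Cut.none) (xt := Ext.none) (P1 := 0) (W1 := 536870912) (P2 := 536870912) (W2 := 536870912) (P3 := 991146299) (W3 := 28908434) (N0 := 3) (En := eng) (mo := mog) (C1 := cd0q2) (C2 := cd2q1) (C3 := pd3)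
    rfl (fun _ => rfl) k0_pm_213

noncomputable def f_mm_001 : ℕ → ℕ → ℕ → ℕ → Bool := onCell 0 536870912 0 536870912 991146299 28908434
    (rowB 3 eng mog cd0q0 cd2q0 pd1 0 true false false .up 0 0 1 (qsf 0 536870912 0 536870912 1) ndB0q0 ndB2q0 pcB1 Cut.none Ext.none)

def k0_mm_001 : ∃ t, chk3 f_mm_001 t 1 1 1 = true :=
  ⟨(l 4), by decide +kernel⟩

theorem c_mm_001 : CertB 0 536870912 0 536870912 991146299 28908434 3 eng mog cd0q0 cd2q0 pd1 true false false .up 0 0 1
    ndB0q0 ndB2q0 pcB1 Cut.none Ext.none :=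
  certB0 (fam := true) (s1 := false) (s2 := false) (a := 0) (b := 0) (c := 1) (cn := .up) (n1 := ndB0q0) (n2 := ndB2q0) (pc := pcB1) (cut := Cut.none) (xt := Ext.none) (P1 := 0) (W1 := 536870912) (P2 := 0) (W2 := 536870912) (P3 := 991146299) (W3 := 28908434) (N0 := 3) (En := eng) (mo := mog) (C1 := cd0q0) (C2 := cd2q0) (C3 := pd1)
    rfl k0_mm_001

noncomputable def f_mm_011 : ℕ → ℕ → ℕ → ℕ → Bool := onCell 0 536870912 536870912 536870912 991146299 28908434
    (rowB 3 eng mog cd0q0 cd2q1 pd1 0 true false false .pnn 0 1 1 (qsf 0 536870912 536870912 536870912 1) ndB0q0 ndB2q1 pcB1 Cut.none Ext.none)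

def k0_mm_011 : ∃ t, chk3 f_mm_011 t 1 1 1 = true :=
  ⟨(l 4), by decide +kernel⟩

theorem c_mm_011 : CertB 0 536870912 536870912 536870912 991146299 28908434 3 eng mog cd0q0 cd2q1 pd1 true false false .pnn 0 1 1
    ndB0q0 ndB2q1 pcB1 Cut.none Ext.none :=
  certB0 (fam := true) (s1 := false) (s2 := false) (a := 0) (b := 1) (c := 1) (cn := .pnn) (n1 := ndB0q0) (n2 := ndB2q1) (pc := pcB1) (cut := Cut.none) (xt := Ext.none) (P1 := 0) (W1 := 536870912) (P2 := 536870912) (W2 := 536870912) (P3 := 991146299) (W3 := 28908434) (N0 := 3) (En := eng) (mo := mog) (C1 := cd0q0) (C2 := cd2q1) (C3 := pd1)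
    rfl k0_mm_011

noncomputable def f_mm_012 : ℕ → ℕ → ℕ → ℕ → Bool := onCell 0 536870912 536870912 536870912 991146299 28908434
    (rowB 3 eng mog cd0q0 cd2q1 pd2 0 true false false .pnp 0 1 2 (qsf 0 536870912 536870912 536870912 2) ndB0q0 ndB2q1 pcB2 Cut.none Ext.none)

def k0_mm_012 : ∃ t, chk3 f_mm_012 t 1 1 1 = true :=
  ⟨(l 4), by decide +kernel⟩

theorem c_mm_012 : CertB 0 536870912 536870912 536870912 991146299 28908434 3 eng mog cd0q0 cd2q1 pd2 true false false .pnp 0 1 2
    ndB0q0 ndB2q1 pcB2 Cut.none Ext.none :=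
  certB0 (fam := true) (s1 := false) (s2 := false) (a := 0) (b := 1) (c := 2) (cn := .pnp) (n1 := ndB0q0) (n2 := ndB2q1) (pc := pcB2) (cut := Cut.none) (xt := Ext.none) (P1 := 0) (W1 := 536870912) (P2 := 536870912) (W2 := 536870912) (P3 := 991146299) (W3 := 28908434) (N0 := 3) (En := eng) (mo := mog) (C1 := cd0q0) (C2 := cd2q1) (C3 := pd2)
    rfl k0_mm_012

noncomputable def f_mm_022_a : ℕ → ℕ → ℕ → ℕ → Bool := onCell 0 536870912 0 536870912 991146299 28908434
    (rowB 3 eng mog cd0q0 cd2q2a pd2 0 true false false .pp 0 2 2 (qsf 0 536870912 0 536870912 2) ndB0q0 ndB2q2a pcB2 Cut.none Ext.none)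

def k0_mm_022_a : ∃ t, chk3 f_mm_022_a t 1 1 1 = true :=
  ⟨(l 5), by decide +kernel⟩

theorem c_mm_022_a : CertB 0 536870912 0 536870912 991146299 28908434 3 eng mog cd0q0 cd2q2a pd2 true false false .pp 0 2 2
    ndB0q0 ndB2q2a pcB2 Cut.none Ext.none :=
  certB0 (fam := true) (s1 := false) (s2 := false) (a := 0) (b := 2) (c := 2) (cn := .pp) (n1 := ndB0q0) (n2 := ndB2q2a) (pc := pcB2) (cut := Cut.none) (xt := Ext.none) (P1 := 0) (W1 := 536870912) (P2 := 0) (W2 := 536870912) (P3 := 991146299) (W3 := 28908434) (N0 := 3) (En := eng) (mo := mog) (C1 := cd0q0) (C2 := cd2q2a) (C3 := pd2)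
    rfl k0_mm_022_a

noncomputable def f_mm_022_b : ℕ → ℕ → ℕ → ℕ → Bool := onCell 0 536870912 1239849684 370763052 991146299 28908434
    (rowB 3 eng mog cd0q0 cd2q2b pd2 0 true false false .pp 0 2 2 (qsf 0 536870912 1239849684 370763052 2) ndB0q0 ndB2q2b pcB2 Cut.none Ext.none)

def k0_mm_022_b : ∃ t, chk3 f_mm_022_b t 1 1 1 = true :=
  ⟨(l 5), by decide +kernel⟩

theorem c_mm_022_b : CertB 0 536870912 1239849684 370763052 991146299 28908434 3 eng mog cd0q0 cd2q2b pd2 true false false .pp 0 2 2
    ndB0q0 ndB2q2b pcB2 Cut.none Ext.none :=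
  certB0 (fam := true) (s1 := false) (s2 := false) (a := 0) (b := 2) (c := 2) (cn := .pp) (n1 := ndB0q0) (n2 := ndB2q2b) (pc := pcB2) (cut := Cut.none) (xt := Ext.none) (P1 := 0) (W1 := 536870912) (P2 := 1239849684) (W2 := 370763052) (P3 := 991146299) (W3 := 28908434) (N0 := 3) (En := eng) (mo := mog) (C1 := cd0q0) (C2 := cd2q2b) (C3 := pd2)
    rfl k0_mm_022_b

noncomputable def f_mm_023_a : ℕ → ℕ → ℕ → ℕ → Bool := onCell 0 536870912 0 536870912 991146299 28908434
    (rowB 3 eng mog cd0q0 cd2q2a pd3 0 true false false .up 0 2 3 (qsf 0 536870912 0 536870912 3) ndB0q0 ndB2q2a pcB3 Cut.none Ext.none)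

def k0_mm_023_a : ∃ t, chk3 f_mm_023_a t 1 1 1 = true :=
  ⟨(l 5), by decide +kernel⟩

theorem c_mm_023_a : CertB 0 536870912 0 536870912 991146299 28908434 3 eng mog cd0q0 cd2q2a pd3 true false false .up 0 2 3
    ndB0q0 ndB2q2a pcB3 Cut.none Ext.none :=
  certB0 (fam := true) (s1 := false) (s2 := false) (a := 0) (b := 2) (c := 3) (cn := .up) (n1 := ndB0q0) (n2 := ndB2q2a) (pc := pcB3) (cut := Cut.none) (xt := Ext.none) (P1 := 0) (W1 := 536870912) (P2 := 0) (W2 := 536870912) (P3 := 991146299) (W3 := 28908434) (N0 := 3) (En := eng) (mo := mog) (C1 := cd0q0) (C2 := cd2q2a) (C3 := pd3)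
    rfl k0_mm_023_a

noncomputable def f_mm_023_b : ℕ → ℕ → ℕ → ℕ → Bool := onCell 0 536870912 1239849684 370763052 991146299 28908434
    (rowB 3 eng mog cd0q0 cd2q2b pd3 0 true false false .up 0 2 3 (qsf 0 536870912 1239849684 370763052 3) ndB0q0 ndB2q2b pcB3 Cut.none Ext.none)

def k0_mm_023_b : ∃ t, chk3 f_mm_023_b t 1 1 1 = true :=
  ⟨(l 5), by decide +kernel⟩

theorem c_mm_023_b : CertB 0 536870912 1239849684 370763052 991146299 28908434 3 eng mog cd0q0 cd2q2b pd3 true false false .up 0 2 3
    ndB0q0 ndB2q2b pcB3 Cut.none Ext.none :=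
  certB0 (fam := true) (s1 := false) (s2 := false) (a := 0) (b := 2) (c := 3) (cn := .up) (n1 := ndB0q0) (n2 := ndB2q2b) (pc := pcB3) (cut := Cut.none) (xt := Ext.none) (P1 := 0) (W1 := 536870912) (P2 := 1239849684) (W2 := 370763052) (P3 := 991146299) (W3 := 28908434) (N0 := 3) (En := eng) (mo := mog) (C1 := cd0q0) (C2 := cd2q2b) (C3 := pd3)
    rfl k0_mm_023_b

noncomputable def f_mm_033 : ℕ → ℕ → ℕ → ℕ → Bool := onCell 0 536870912 1610612736 536870912 991146299 28908434
    (rowB 3 eng mog cd0q0 cd2q3 pd3 0 true false false .pnn 0 3 3 (qsf 0 536870912 1610612736 536870912 3) ndB0q0 ndB2q3 pcB3 Cut.none Ext.none)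

def k0_mm_033 : ∃ t, chk3 f_mm_033 t 1 1 1 = true :=
  ⟨(l 5), by decide +kernel⟩

theorem c_mm_033 : CertB 0 536870912 1610612736 536870912 991146299 28908434 3 eng mog cd0q0 cd2q3 pd3 true false false .pnn 0 3 3
    ndB0q0 ndB2q3 pcB3 Cut.none Ext.none :=
  certB0 (fam := true) (s1 := false) (s2 := false) (a := 0) (b := 3) (c := 3) (cn := .pnn) (n1 := ndB0q0) (n2 := ndB2q3) (pc := pcB3) (cut := Cut.none) (xt := Ext.none) (P1 := 0) (W1 := 536870912) (P2 := 1610612736) (W2 := 536870912) (P3 := 991146299) (W3 := 28908434) (N0 := 3) (En := eng) (mo := mog) (C1 := cd0q0) (C2 := cd2q3) (C3 := pd3)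
    rfl k0_mm_033

noncomputable def cut_mm_101 : Cut := Cut.of [[⟨0, 1, 0, 53687091⟩, ⟨1, 0, 0, 53687091⟩, ⟨2, 1, 0, 53687091⟩]]

noncomputable def f_mm_101 : ℕ → ℕ → ℕ → ℕ → Bool := onCell 536870912 536870912 0 536870912 991146299 28908434
    (rowB 3 eng mog cd0q1 cd2q0 pd1 0 true false false .npn 1 0 1 (qsf 536870912 536870912 0 536870912 1) ndB0q1 ndB2q0 pcB1 cut_mm_101 Ext.none)

def k0_mm_101 : ∃ t, chk3 f_mm_101 t 1 1 1 = true :=
  ⟨(a (l 4) (b (a (l 4) (b (a (l 4) (b (a (l 4) (b (l 6) (l 4))) (l 4))) (l 4))) (l 4))), by decide +kernel⟩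

theorem c_mm_101 : CertB 536870912 536870912 0 536870912 991146299 28908434 3 eng mog cd0q1 cd2q0 pd1 true false false .npn 1 0 1
    ndB0q1 ndB2q0 pcB1 cut_mm_101 Ext.none :=
  certB0 (fam := true) (s1 := false) (s2 := false) (a := 1) (b := 0) (c := 1) (cn := .npn) (n1 := ndB0q1) (n2 := ndB2q0) (pc := pcB1) (cut := cut_mm_101) (xt := Ext.none) (P1 := 536870912) (W1 := 536870912) (P2 := 0) (W2 := 536870912) (P3 := 991146299) (W3 := 28908434) (N0 := 3) (En := eng) (mo := mog) (C1 := cd0q1) (C2 := cd2q0) (C3 := pd1)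
    rfl k0_mm_101

noncomputable def cut_mm_102 : Cut := Cut.of [[⟨0, 1, 0, 53687091⟩, ⟨1, 0, 0, 53687091⟩, ⟨2, 1, 0, 53687091⟩]]

noncomputable def f_mm_102 : ℕ → ℕ → ℕ → ℕ → Bool := onCell 536870912 536870912 0 536870912 991146299 28908434
    (rowB 3 eng mog cd0q1 cd2q0 pd2 0 true false false .npp 1 0 2 (qsf 536870912 536870912 0 536870912 2) ndB0q1 ndB2q0 pcB2 cut_mm_102 Ext.none)

def k0_mm_102 : ∃ t, chk3 f_mm_102 t 1 1 1 = true :=
  ⟨(a (l 4) (b (a (l 4) (b (a (l 4) (b (a (l 4) (b (l 6) (l 4))) (l 4))) (l 4))) (l 4))), by decide +kernel⟩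

theorem c_mm_102 : CertB 536870912 536870912 0 536870912 991146299 28908434 3 eng mog cd0q1 cd2q0 pd2 true false false .npp 1 0 2
    ndB0q1 ndB2q0 pcB2 cut_mm_102 Ext.none :=
  certB0 (fam := true) (s1 := false) (s2 := false) (a := 1) (b := 0) (c := 2) (cn := .npp) (n1 := ndB0q1) (n2 := ndB2q0) (pc := pcB2) (cut := cut_mm_102) (xt := Ext.none) (P1 := 536870912) (W1 := 536870912) (P2 := 0) (W2 := 536870912) (P3 := 991146299) (W3 := 28908434) (N0 := 3) (En := eng) (mo := mog) (C1 := cd0q1) (C2 := cd2q0) (C3 := pd2)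
    rfl k0_mm_102

noncomputable def f_mm_112 : ℕ → ℕ → ℕ → ℕ → Bool := onCell 536870912 536870912 536870912 536870912 991146299 28908434
    (rowB 3 eng mog cd0q1 cd2q1 pd2 0 true false false .dn 1 1 2 (qsf 536870912 536870912 536870912 536870912 2) ndB0q1 ndB2q1 pcB2 Cut.none Ext.none)

def k0_mm_112 : ∃ t, chk3 f_mm_112 t 1 1 1 = true :=
  ⟨(l 4), by decide +kernel⟩

theorem c_mm_112 : CertB 536870912 536870912 536870912 536870912 991146299 28908434 3 eng mog cd0q1 cd2q1 pd2 true false false .dn 1 1 2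
    ndB0q1 ndB2q1 pcB2 Cut.none Ext.none :=
  certB0 (fam := true) (s1 := false) (s2 := false) (a := 1) (b := 1) (c := 2) (cn := .dn) (n1 := ndB0q1) (n2 := ndB2q1) (pc := pcB2) (cut := Cut.none) (xt := Ext.none) (P1 := 536870912) (W1 := 536870912) (P2 := 536870912) (W2 := 536870912) (P3 := 991146299) (W3 := 28908434) (N0 := 3) (En := eng) (mo := mog) (C1 := cd0q1) (C2 := cd2q1) (C3 := pd2)
    rfl k0_mm_112

noncomputable def f_mm_113 : ℕ → ℕ → ℕ → ℕ → Bool := onCell 536870912 536870912 536870912 536870912 991146299 28908434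
    (rowB 3 eng mog cd0q1 cd2q1 pd3 0 true false false .nn 1 1 3 (qsf 536870912 536870912 536870912 536870912 3) ndB0q1 ndB2q1 pcB3 Cut.none Ext.none)

def k0_mm_113 : ∃ t, chk3 f_mm_113 t 1 1 1 = true :=
  ⟨(l 4), by decide +kernel⟩

theorem c_mm_113 : CertB 536870912 536870912 536870912 536870912 991146299 28908434 3 eng mog cd0q1 cd2q1 pd3 true false false .nn 1 1 3
    ndB0q1 ndB2q1 pcB3 Cut.none Ext.none :=
  certB0 (fam := true) (s1 := false) (s2 := false) (a := 1) (b := 1) (c := 3) (cn := .nn) (n1 := ndB0q1) (n2 := ndB2q1) (pc := pcB3) (cut := Cut.none) (xt := Ext.none) (P1 := 536870912) (W1 := 536870912) (P2 := 536870912) (W2 := 536870912) (P3 := 991146299) (W3 := 28908434) (N0 := 3) (En := eng) (mo := mog) (C1 := cd0q1) (C2 := cd2q1) (C3 := pd3)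
    rfl k0_mm_113

noncomputable def f_mm_123_a : ℕ → ℕ → ℕ → ℕ → Bool := onCell 536870912 536870912 0 536870912 991146299 28908434
    (rowB 3 eng mog cd0q1 cd2q2a pd3 0 true false false .npn 1 2 3 (qsf 536870912 536870912 0 536870912 3) ndB0q1 ndB2q2a pcB3 Cut.none Ext.none)

def k0_mm_123_a : ∃ t, chk3 f_mm_123_a t 1 1 1 = true :=
  ⟨(l 4), by decide +kernel⟩

theorem c_mm_123_a : CertB 536870912 536870912 0 536870912 991146299 28908434 3 eng mog cd0q1 cd2q2a pd3 true false false .npn 1 2 3
    ndB0q1 ndB2q2a pcB3 Cut.none Ext.none :=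
  certB0 (fam := true) (s1 := false) (s2 := false) (a := 1) (b := 2) (c := 3) (cn := .npn) (n1 := ndB0q1) (n2 := ndB2q2a) (pc := pcB3) (cut := Cut.none) (xt := Ext.none) (P1 := 536870912) (W1 := 536870912) (P2 := 0) (W2 := 536870912) (P3 := 991146299) (W3 := 28908434) (N0 := 3) (En := eng) (mo := mog) (C1 := cd0q1) (C2 := cd2q2a) (C3 := pd3)
    rfl k0_mm_123_a

noncomputable def f_mm_123_b : ℕ → ℕ → ℕ → ℕ → Bool := onCell 536870912 536870912 1239849684 370763052 991146299 28908434
    (rowB 3 eng mog cd0q1 cd2q2b pd3 0 true false false .npn 1 2 3 (qsf 536870912 536870912 1239849684 370763052 3) ndB0q1 ndB2q2b pcB3 Cut.none Ext.none)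

def k0_mm_123_b : ∃ t, chk3 f_mm_123_b t 1 1 1 = true :=
  ⟨(l 4), by decide +kernel⟩

theorem c_mm_123_b : CertB 536870912 536870912 1239849684 370763052 991146299 28908434 3 eng mog cd0q1 cd2q2b pd3 true false false .npn 1 2 3
    ndB0q1 ndB2q2b pcB3 Cut.none Ext.none :=
  certB0 (fam := true) (s1 := false) (s2 := false) (a := 1) (b := 2) (c := 3) (cn := .npn) (n1 := ndB0q1) (n2 := ndB2q2b) (pc := pcB3) (cut := Cut.none) (xt := Ext.none) (P1 := 536870912) (W1 := 536870912) (P2 := 1239849684) (W2 := 370763052) (P3 := 991146299) (W3 := 28908434) (N0 := 3) (En := eng) (mo := mog) (C1 := cd0q1) (C2 := cd2q2b) (C3 := pd3)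
    rfl k0_mm_123_b

noncomputable def f_mm_133 : ℕ → ℕ → ℕ → ℕ → Bool := onCell 536870912 536870912 1610612736 536870912 991146299 28908434
    (rowB 3 eng mog cd0q1 cd2q3 pd3 0 true false false .dn 1 3 3 (qsf 536870912 536870912 1610612736 536870912 3) ndB0q1 ndB2q3 pcB3 Cut.none Ext.none)

def k0_mm_133 : ∃ t, chk3 f_mm_133 t 1 1 1 = true :=
  ⟨(l 4), by decide +kernel⟩

theorem c_mm_133 : CertB 536870912 536870912 1610612736 536870912 991146299 28908434 3 eng mog cd0q1 cd2q3 pd3 true false false .dn 1 3 3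
    ndB0q1 ndB2q3 pcB3 Cut.none Ext.none :=
  certB0 (fam := true) (s1 := false) (s2 := false) (a := 1) (b := 3) (c := 3) (cn := .dn) (n1 := ndB0q1) (n2 := ndB2q3) (pc := pcB3) (cut := Cut.none) (xt := Ext.none) (P1 := 536870912) (W1 := 536870912) (P2 := 1610612736) (W2 := 536870912) (P3 := 991146299) (W3 := 28908434) (N0 := 3) (En := eng) (mo := mog) (C1 := cd0q1) (C2 := cd2q3) (C3 := pd3)
    rfl k0_mm_133

noncomputable def cut_mm_202 : Cut := Cut.of [[⟨0, 1, 0, 53687091⟩, ⟨1, 0, 0, 53687091⟩, ⟨2, 1, 0, 53687091⟩]]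

noncomputable def f_mm_202 : ℕ → ℕ → ℕ → ℕ → Bool := onCell 0 536870912 0 536870912 991146299 28908434
    (rowB 3 eng mog cd0q2 cd2q0 pd2 0 true false false .pp 2 0 2 (qsf 0 536870912 0 536870912 2) ndB0q2 ndB2q0 pcB2 cut_mm_202 Ext.none)

def k0_mm_202 : ∃ t, chk3 f_mm_202 t 2 4 1 = true :=
  ⟨(b (a (b (b (a (c (l 16245224) (l 16233888)) (c (l 16154448) (l 16161352))) (a (l 16263160) (b (a (l 16335824) (l 16329240)) (l 16257904)))) (a (b (l 16442808) (l 16176736)) (b (b (l 16327952) (l 16312552)) (c (l 16405792) (a (l 16295888) (l 16351136)))))) (b (a (b (a (b (c (l 16190240) (l 16160640)) (l 16227208)) (c (b (l 16190184) (l 16254888)) (l 16045840))) (c (a (l 16349528) (l 16343152)) (b (l 16307448) (l 16382864)))) (b (a (c (b (l 16154456) (l 16258208)) (b (l 16151248) (l 16224976))) (c (b (a (l 16204864) (l 16212480)) (l 16246752)) (b (a (l 16153952) (l 16158040)) (l 16226224)))) (a (c (l 16300208) (l 16265624)) (c (b (l 16321936) (l 16372744)) (b (l 16291040) (l 16357632)))))) (a (b (a (l 16353032)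 (l 16292752)) (c (l 16498792) (l 16419272))) (b (c (a (l 16439296) (l 16419312)) (a (l 16457640) (l 16416744))) (a (l 16372328) (c (l 16513968) (l 16547680))))))) (a (b (b (a (c (l 16251608) (l 16129752)) (c (l 16344152) (l 16216368))) (a (a (l 15928872) (l 15943424)) (c (l 16278192) (l 16173336)))) (a (b (c (l 16047432) (a (l 15917200) (l 15998360))) (c (l 16100416) (l 15911616))) (c (b (l 16270408) (l 16256776)) (b (l 16130456) (l 16107344))))) (b (a (c (b (l 16451848) (l 16421680)) (b (l 16309984) (a (l 16288672) (l 16363944)))) (c (b (l 16551136) (l 16532824)) (b (l 16416128) (l 16364104)))) (b (a (c (l 16407032) (l 16218192)) (a (l 16335768) (l 16368008))) (a (c (l 16406920) (l 16211992)) (a (c (l 16508944) (l 16425280)) (l 16327408))))))), by decide +kernel⟩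

def k1_mm_202 : ∃ t, chk3 f_mm_202 t 2 5 1 = true :=
  ⟨(b (a (b (a (c (l 15935520) (b (l 15886808) (l 15880296))) (c (b (l 16257224) (l 16270720)) (b (l 16102728) (l 16115368)))) (a (c (l 15916136) (b (l 15890896) (l 15917480))) (c (b (l 16233368) (l 16311960)) (b (l 16123112) (l 16103840))))) (a (a (b (c (l 16390656) (l 16163064)) (c (l 16417304) (l 16117048))) (b (c (l 16470792) (l 16222304)) (b (l 16250456) (b (l 16370664) (l 16304952))))) (a (b (c (l 16419000) (b (l 16446888) (l 16483496))) (c (b (l 16593240) (l 16610392)) (b (l 16495448) (l 16531312)))) (b (b (c (l 16594720) (l 16527376)) (c (l 16618008) (l 16549728))) (l 4))))) (a (b (a (c (b (l 16152744) (l 16197512)) (b (l 15958960) (l 16014248))) (c (b (l 16337760) (l 16308824)) (b (l 16098392) (a (l 16243336) (l 16364568))))) (a (c (b (l 16251656) (l 16314296)) (b (l 16082232) (l 16161864))) (c (b (a (l 16440520) (l 16535920)) (a (l 16498792) (l 16558056))) (b (a (l 16322104) (l 16356944)) (a (l 16354192) (l 16465312)))))) (b (a (a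 (b (c (l 16532000) (a (l 16412472) (l 16465816))) (c (l 16565312) (b (l 16473536) (l 16484088)))) (b (b (l 16358448) (l 4)) (l 4))) (l 4)) (l 4)))), by decide +kernel⟩

def k2_mm_202 : ∃ t, chk3 f_mm_202 t 12 16 1 = true :=
  ⟨(b (a (b (c (a (c (l 16235992) (l 16208016)) (c (l 16248544) (l 16219280))) (a (c (l 16179232) (l 16149648)) (c (l 16189168) (l 16158208)))) (c (a (l 16279960) (l 16290864)) (a (l 16233304) (l 16241320)))) (b (b (c (a (a (l 16208744) (l 16237776)) (c (l 16246344) (l 16213984))) (a (a (l 16164992) (l 16172176)) (c (l 16180680) (l 16167400)))) (c (a (l 16262944) (a (l 16275560) (l 16284944))) (a (l 16203376) (a (l 16214816) (l 16223648))))) (c (a (c (l 16316928) (l 16291736)) (c (l 16333816) (l 16307824))) (a (l 16189656) (c (l 16281080) (l 16253568)))))) (a (c (b (l 16274376) (l 16386080)) (b (l 16215264) (l 16363216))) (b (c (a (l 16355312) (l 16371008)) (a (l 16313240) (l 16327112))) (c (l 16326136) (l 16297872))))), by decide +kernel⟩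

def k3_mm_202 : ∃ t, chk3 f_mm_202 t 26 32 1 = true :=
  ⟨(b (b (c (a (c (b (l 16265472) (l 16274176)) (b (l 16226888) (l 16242216))) (a (c (l 16284992) (l 16252440)) (b (c (l 16290928) (l 16257888)) (l 16309984)))) (a (c (b (l 16192568) (l 16209320)) (b (l 16157280) (l 16175488))) (a (c (l 16218936) (l 16184472)) (b (c (l 16223872) (l 16188896)) (l 16250016))))) (c (a (c (l 16294464) (l 16285456)) (c (l 16339272) (l 16309424))) (a (c (l 16254592) (l 16222848)) (c (l 16278704) (l 16247112))))) (b (c (a (l 16348656) (c (l 16364896) (l 16337480))) (a (l 16291992) (c (l 16309256) (l 16280232)))) (c (a (l 16353456) (l 16376720)) (a (l 16301464) (l 16324880))))), by decide +kernel⟩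

def k4_mm_202 : ∃ t, chk3 f_mm_202 t 27 32 1 = true :=
  ⟨(c (b (a (c (c (b (a (l 16319496) (l 16334072)) (l 16352840)) (b (a (l 16303712) (l 16318504)) (l 16338448))) (b (a (c (l 16287696) (l 16271448)) (b (a (l 16304192) (l 16291048)) (l 16323184))) (b (l 16330208) (l 16344520)))) (b (c (a (b (a (l 16330984) (l 16339000)) (l 16348720)) (b (a (l 16347240) (l 16355704)) (l 16365240))) (a (b (a (l 16299128) (l 16307472)) (l 16318376)) (b (a (l 16316056) (l 16330144)) (l 16335592)))) (c (a (l 16389632) (l 16406192)) (a (l 16361216) (l 16378480))))) (a (c (b (l 16392072) (l 16416160)) (b (l 16365256) (l 16391552))) (c (b (l 16423136) (l 16447088)) (b (l 16397440) (l 16423584))))) (b (a (c (b (a (c (l 16254960) (l 16238240)) (b (b (l 16252312) (l 16258056)) (l 16270392))) (a (l 16299744) (l 16315248))) (b (a (c (l 16221288) (l 16204096)) (b (b (l 16215168) (l 16224264)) (l 16237664))) (a (l 16268608) (l 16284568)))) (b (c (a (b (a (l 16266344) (l 16275016)) (l 16287144)) (b (a (l 16290192) (b (l 16288976)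 (l 16318360))) (l 16305080))) (a (b (a (l 16232632) (l 16241640)) (l 16255024)) (b (b (a (l 16246384) (l 16256016)) (l 16270776)) (l 16273712)))) (c (a (l 16331968) (l 16349952)) (a (l 16301896) (l 16320624))))) (a (c (b (l 16337656) (l 16366224)) (b (l 16309264) (l 16340176))) (c (b (l 16371000) (l 16399392)) (b (l 16343800) (l 16374512)))))), by decide +kernel⟩

def k5_mm_202 : ∃ t, chk3 f_mm_202 t 13 33 1 = true :=
  ⟨(c (a (b (a (l 16306144) (c (l 16423424) (l 16401656))) (a (l 16435992) (l 16457872))) (b (a (c (l 16449928) (l 16428696)) (b (l 16396120) (l 16481720))) (a (l 16462832) (l 16451480)))) (a (b (a (b (l 16330216) (l 16359592)) (b (l 16353176) (l 16382008))) (a (l 16405760) (l 16427520))) (b (a (c (l 16406840) (l 16384352)) (c (l 16418680) (l 16376360))) (a (l 16412464) (l 16403208))))), by decide +kernel⟩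

def k6_mm_202 : ∃ t, chk3 f_mm_202 t 6 17 1 = true :=
  ⟨(a (b (a (c (l 16387640) (l 16366064)) (c (b (l 16452528) (l 16490176)) (b (l 16439056) (l 16490056)))) (a (c (l 16520080) (l 16544248)) (c (l 16538080) (l 16513440)))) (b (a (c (b (a (l 16477536) (l 16498640)) (l 16503120)) (b (a (l 16461840) (l 16482672)) (l 16479184))) (c (b (a (l 16523864) (l 16553608)) (a (l 16559264) (l 16588320))) (b (a (l 16508704) (l 16519440)) (a (l 16556912) (l 16566832))))) (a (c (b (l 16534752) (l 16582840)) (b (l 16522432) (l 16601752))) (c (b (l 16603760) (l 16629976)) (a (l 16597192) (l 16542752)))))), by decide +kernel⟩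

def k7_mm_202 : ∃ t, chk3 f_mm_202 t 6 9 1 = true :=
  ⟨(b (a (c (b (a (l 16572368) (l 16586752)) (a (l 16602880) (l 16619600))) (b (a (l 16578656) (l 16619480)) (a (l 16556760) (l 16602608)))) (b (a (c (l 16615592) (l 16647464)) (c (a (l 16644936) (l 16662528)) (a (l 16662280) (l 16654424)))) (a (c (l 16620960) (c (l 16647240) (l 16629008))) (a (c (l 16660520) (l 16664336)) (l 4))))) (a (c (a (b (l 16607024) (l 16623104)) (b (l 16638416) (l 16650976))) (a (b (l 16554240) (l 16567032)) (b (l 16603960) (l 16612504)))) (b (a (c (l 16634584) (l 76470016327)) (l 4)) (l 4)))), by decide +kernel⟩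

def k8_mm_202 : ∃ t, chk3 f_mm_202 t 56 8 1 = true :=
  ⟨(b (b (b (c (b (c (a (b (c (l 16376216) (l 16363976)) (l 16382688)) (b (c (l 16399488) (c (l 16383472) (l 16376224))) (l 16401032))) (a (b (b (a (l 16330120) (l 16339464)) (l 16350352)) (l 16353872)) (b (a (b (l 16349072) (l 16377800)) (b (l 16361544) (l 16387672))) (l 16388904)))) (c (a (l 16423704) (l 16442184)) (a (l 16396816) (l 16416272)))) (b (c (a (b (a (b (l 16298496) (l 16327896)) (b (l 16311576) (l 16337720))) (l 16339944)) (b (a (c (l 16330304) (l 16314936)) (c (l 16340560) (l 16325456))) (b (l 16340384) (l 16348608)))) (a (b (a (b (l 16268592) (l 16296096)) (c (l 16288856) (l 16272800))) (l 16312072)) (b (a (c (l 16299344) (l 16283544)) (c (l 16310136) (l 16294616))) (c (l 16322488) (l 16307544))))) (c (a (l 16369152) (b (l 16360712) (l 16397384))) (a (l 16351184) (b (l 16353592) (l 16370608)))))) (c (a (c (l 16419328) (l 16374976)) (b (a (l 16451160) (l 16460968)) (l 16481120))) (a (c (l 16350920) (l 16326176)) (b (a (l 16402224)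 (l 16413096)) (l 16437200))))) (b (c (c (l 16473680) (l 16434184)) (b (c (l 16464512) (l 16443488)) (l 16419136))) (c (c (l 16555680) (l 16544024)) (c (l 16532024) (l 16519688))))) (b (c (b (l 16546576) (l 16601400)) (b (l 16536584) (l 16624920))) (c (b (l 16651656) (l 16669128)) (b (l 16665328) (l 16688088))))), by decide +kernel⟩

def k9_mm_202 : ∃ t, chk3 f_mm_202 t 57 8 1 = true :=
  ⟨(b (b (b (c (b (c (a (b (b (a (l 16397752) (l 16407488)) (l 16420208)) (l 16430704)) (b (a (b (l 16417432) (l 16445560)) (a (l 16428624) (l 16433768))) (l 16461208))) (a (b (c (a (l 16380088) (l 16390264)) (a (l 16365680) (l 16376144))) (b (l 16389640) (l 16397232))) (b (a (c (l 16400672) (l 16386856)) (c (l 16411312) (l 16397816))) (b (l 16410840) (l 16418488))))) (c (a (l 16461512) (b (l 16474952) (l 16488304))) (a (b (l 16429376) (l 16443880)) (b (l 16450712) (l 16465328))))) (b (c (c (a (b (a (l 16351064) (l 16361824)) (l 16372872)) (b (a (l 16372848) (l 16384136)) (l 16395032))) (a (b (a (l 16336240) (l 16347296))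 (l 16358904)) (b (a (l 16358640) (l 16370256)) (l 16381696)))) (c (a (b (a (l 16321216) (l 16332576)) (l 16344744)) (b (a (l 16344232) (l 16361432)) (l 16368176))) (a (b (a (l 16305976) (l 16317648)) (l 16330392)) (b (a (l 16329632) (l 16341928)) (l 16354480))))) (c (a (b (l 16403184) (l 16418976)) (b (l 16425768) (l 16441672))) (a (b (l 16376248) (l 16393360)) (b (l 16400128) (l 16417360)))))) (b (c (c (a (l 16487224) (l 16507592)) (a (l 16464800) (l 16486400))) (c (a (l 16441728) (l 16464592)) (a (l 16417992) (l 16442160)))) (c (c (l 16500552) (l 16480912)) (c (l 16460704) (l 16439912))))) (c (b (c (b (l 16544272) (l 16565584)) (b (l 16526624) (l 16550568))) (c (l 16574096) (l 16564632))) (b (c (b (l 16508464) (l 16535104)) (b (l 16489776) (l 16519208))) (c (l 16554896) (l 16544880))))) (b (c (b (a (l 16618072) (l 16618456)) (l 16661456)) (b (b (l 16610672) (l 16614136)) (l 16626344))) (b (c (l 16680024) (l 16696224)) (l 4)))), by decide +kernel⟩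

def k10_mm_202 : ∃ t, chk3 f_mm_202 t 58 16 1 = true :=
  ⟨(b (b (a (b (c (c (b (a (a (l 16438960) (l 16444208)) (c (l 16479360) (l 16445952))) (b (l 16457600) (l 16464632))) (b (a (c (l 16422200) (l 16409040)) (c (l 16433328) (l 16420536))) (a (l 16431256) (l 16442632)))) (c (c (b (a (l 16395704) (l 16407552)) (l 16418296)) (b (a (l 16382176) (l 16394392)) (l 16405664))) (c (b (a (l 16373704) (l 16391536)) (l 16392856)) (b (a (l 16365048) (l 16378008)) (l 16400848))))) (c (c (c (l 16508216) (l 16497248)) (b (l 16473072) (l 16487800))) (c (c (l 16463384) (l 16451768)) (b (l 16425296) (l 16442664))))) (a (b (c (c (b (c (l 16490016) (l 16456976)) (l 16477400)) (b (c (l 16444720) (l 16432296)) (l 16454280))) (c (b (c (l 16419696) (l 16406920)) (l 16430496)) (b (c (l 16404448) (l 16391320)) (l 16427016)))) (c (c (l 16519160) (l 16498008)) (c (l 16476240) (l 16453864)))) (b (b (b (l 6) (c (a (l 16484224) (l 6)) (c (l 16430328) (l 16405600)))) (c (c (l 16488544) (l 16466200)) (c (l 16464184) (l 16440552))))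 (c (c (l 16530408) (l 16510032)) (c (l 16489072) (l 16467520)))))) (c (c (b (a (l 16528888) (l 16551152)) (l 16501712)) (b (a (l 16509056) (l 16532824)) (l 16484824))) (c (b (a (l 16488648) (l 16513960)) (l 16467440)) (b (a (l 16467664) (l 16494560)) (a (l 16499040) (l 16526224)))))) (c (b (c (a (l 16587368) (l 16589320)) (a (l 16573088) (l 16576576))) (b (l 16583448) (l 16604008))) (b (c (a (l 16537416) (l 16563448)) (b (l 16541800) (l 16571536))) (b (l 16545008) (l 16593896))))), by decide +kernel⟩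

def k11_mm_202 : ∃ t, chk3 f_mm_202 t 59 16 1 = true :=
  ⟨(a (b (a (b (b (b (l 6) (b (l 6) (c (l 16513952) (l 16475576)))) (c (c (l 16541912) (l 16522352)) (c (l 16502224) (l 16481536)))) (c (c (l 16539256) (l 16523288)) (c (l 16506848) (l 16468976)))) (b (b (l 6) (c (c (l 16553672) (l 16534960)) (c (l 16515712) (l 16495928)))) (c (c (l 16530264) (l 16515152)) (c (l 16499608) (l 16483616))))) (c (b (b (l 16595896) (l 16619240)) (l 16610280)) (b (b (l 16570320) (l 16599136)) (l 16601672)))) (b (b (a (b (l 6) (b (l 6) (c (l 16564040) (l 16528680)))) (l 6)) (b (c (c (l 16598792) (l 16583896)) (c (l 16568568) (l 16552816))) (c (c (l 16624168) (l 16611528)) (c (l 16598520) (l 16585144))))) (b (b (c (l 16621744) (l 16599920)) (c (l 16645368) (l 16629056))) (c (b (l 16689064) (l 16708984)) (b (l 16680544) (l 16707640)))))), by decide +kernel⟩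

def k12_mm_202 : ∃ t, chk3 f_mm_202 t 29 17 1 = true :=
  ⟨(b (b (c (a (b (l 16665024) (l 16682032)) (a (l 16683648) (l 16717968))) (a (a (l 16660752) (l 16666184)) (a (b (l 16703368) (l 16716616)) (l 38889375159)))) (a (a (c (l 16689080) (l 16699032)) (c (l 16701360) (l 16712352))) (l 4))) (l 4)), by decide +kernel⟩

def k13_mm_202 : ∃ t, chk3 f_mm_202 t 15 8 1 = true :=
  ⟨(b (a (a (b (a (b (l 6) (c (b (c (l 16603112) (l 16590160)) (a (l 16616824) (l 16630304))) (b (c (l 16576832) (l 16563136)) (c (l 16628112) (l 16616816))))) (l 6)) (b (c (a (b (l 16627688) (l 16672600)) (b (c (l 16700448) (l 16672984)) (l 16668008))) (b (a (l 16609936) (l 16641896)) (c (c (l 16637352) (l 16634760)) (a (l 16657232) (l 16689368))))) (b (c (a (l 16715432) (l 16732624)) (a (l 16689856) (l 16690936))) (a (c (l 16726136) (l 16726888)) (l 4))))) (b (l 6) (b (b (l 6) (a (c (a (l 16736104) (l 16741080)) (b (l 16694136) (l 16735384))) (l 4))) (l 4)))) (b (l 6) (l 4))) (l 4)), by decide +kernel⟩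

def k14_mm_202 : ∃ t, chk3 f_mm_202 t 7 9 1 = true :=
  ⟨(a (l 4) (l 4)), by decide +kernel⟩

def k15_mm_202 : ∃ t, chk3 f_mm_202 t 3 5 1 = true :=
  ⟨(a (b (a (b (b (a (c (l 16641288) (l 16581208)) (l 4)) (l 4)) (l 4)) (l 4)) (l 4)) (l 4)), by decide +kernel⟩

def k16_mm_202 : ∃ t, chk3 f_mm_202 t 1 3 1 = true :=
  ⟨(a (a (b (b (b (b (a (c (l 16382512) (l 16081568)) (a (c (l 16533960) (l 16438896)) (l 4))) (a (a (l 16264320) (c (l 16501632) (l 16401192))) (l 4))) (a (a (c (l 16323936) (b (l 16347720) (l 16398144))) (b (l 16415488) (l 4))) (l 4))) (l 4)) (l 2)) (l 4)) (l 4)), by decide +kernel⟩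

theorem s17_mm_202 : ∃ t, chk3 f_mm_202 t 29 16 1 = true := ex3_a k10_mm_202 k11_mm_202

theorem s18_mm_202 : ∃ t, chk3 f_mm_202 t 29 8 1 = true := ex3_b s17_mm_202 k12_mm_202

theorem s19_mm_202 : ∃ t, chk3 f_mm_202 t 28 8 1 = true := ex3_a k8_mm_202 k9_mm_202

theorem s20_mm_202 : ∃ t, chk3 f_mm_202 t 14 8 1 = true := ex3_a s19_mm_202 s18_mm_202

theorem s21_mm_202 : ∃ t, chk3 f_mm_202 t 7 8 1 = true := ex3_a s20_mm_202 k13_mm_202

theorem s22_mm_202 : ∃ t, chk3 f_mm_202 t 7 4 1 = true := ex3_b s21_mm_202 k14_mm_202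

theorem s23_mm_202 : ∃ t, chk3 f_mm_202 t 13 32 1 = true := ex3_a k3_mm_202 k4_mm_202

theorem s24_mm_202 : ∃ t, chk3 f_mm_202 t 13 16 1 = true := ex3_b s23_mm_202 k5_mm_202

theorem s25_mm_202 : ∃ t, chk3 f_mm_202 t 6 16 1 = true := ex3_a k2_mm_202 s24_mm_202

theorem s26_mm_202 : ∃ t, chk3 f_mm_202 t 6 8 1 = true := ex3_b s25_mm_202 k6_mm_202

theorem s27_mm_202 : ∃ t, chk3 f_mm_202 t 6 4 1 = true := ex3_b s26_mm_202 k7_mm_202

theorem s28_mm_202 : ∃ t, chk3 f_mm_202 t 3 4 1 = true := ex3_a s27_mm_202 s22_mm_202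

theorem s29_mm_202 : ∃ t, chk3 f_mm_202 t 3 2 1 = true := ex3_b s28_mm_202 k15_mm_202

theorem s30_mm_202 : ∃ t, chk3 f_mm_202 t 2 2 1 = true := ex3_b k0_mm_202 k1_mm_202

theorem s31_mm_202 : ∃ t, chk3 f_mm_202 t 1 2 1 = true := ex3_a s30_mm_202 s29_mm_202

theorem s32_mm_202 : ∃ t, chk3 f_mm_202 t 1 1 1 = true := ex3_b s31_mm_202 k16_mm_202

theorem c_mm_202 : CertB 0 536870912 0 536870912 991146299 28908434 3 eng mog cd0q2 cd2q0 pd2 true false false .pp 2 0 2
    ndB0q2 ndB2q0 pcB2 cut_mm_202 Ext.none :=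
  certB0 (fam := true) (s1 := false) (s2 := false) (a := 2) (b := 0) (c := 2) (cn := .pp) (n1 := ndB0q2) (n2 := ndB2q0) (pc := pcB2) (cut := cut_mm_202) (xt := Ext.none) (P1 := 0) (W1 := 536870912) (P2 := 0) (W2 := 536870912) (P3 := 991146299) (W3 := 28908434) (N0 := 3) (En := eng) (mo := mog) (C1 := cd0q2) (C2 := cd2q0) (C3 := pd2)
    rfl s32_mm_202

noncomputable def f_mm_203 : ℕ → ℕ → ℕ → ℕ → Bool := onCell 0 536870912 1610612736 536870912 991146299 28908434
    (rowB 3 eng mog cd0q2 cd2q0 pd3 1 true false false .up 2 0 3 (qsf 0 536870912 0 536870912 3) ndB0q2 ndB2q0 pcB3 Cut.none Ext.none)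

def k0_mm_203 : ∃ t, chk3 f_mm_203 t 1 1 1 = true :=
  ⟨(b (a (l 4) (l 4)) (l 2)), by decide +kernel⟩

theorem c_mm_203 : CertB 0 536870912 0 536870912 991146299 28908434 3 eng mog cd0q2 cd2q0 pd3 true false false .up 2 0 3
    ndB0q2 ndB2q0 pcB3 Cut.none Ext.none :=
  certB1 (fam := true) (s1 := false) (s2 := false) (a := 2) (b := 0) (c := 3) (cn := .up) (n1 := ndB0q2) (n2 := ndB2q0) (pc := pcB3) (cut := Cut.none) (xt := Ext.none) (P1 := 0) (W1 := 536870912) (P2 := 0) (W2 := 536870912) (P3 := 991146299) (W3 := 28908434) (N0 := 3) (En := eng) (mo := mog) (C1 := cd0q2) (C2 := cd2q0) (C3 := pd3)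
    rfl (fun _ => rfl) k0_mm_203

noncomputable def f_mm_213 : ℕ → ℕ → ℕ → ℕ → Bool := onCell 0 536870912 536870912 536870912 991146299 28908434
    (rowB 3 eng mog cd0q2 cd2q1 pd3 0 true false false .pnn 2 1 3 (qsf 0 536870912 536870912 536870912 3) ndB0q2 ndB2q1 pcB3 Cut.none Ext.none)

def k0_mm_213 : ∃ t, chk3 f_mm_213 t 1 1 1 = true :=
  ⟨(l 4), by decide +kernel⟩

theorem c_mm_213 : CertB 0 536870912 536870912 536870912 991146299 28908434 3 eng mog cd0q2 cd2q1 pd3 true false false .pnn 2 1 3
    ndB0q2 ndB2q1 pcB3 Cut.none Ext.none :=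
  certB0 (fam := true) (s1 := false) (s2 := false) (a := 2) (b := 1) (c := 3) (cn := .pnn) (n1 := ndB0q2) (n2 := ndB2q1) (pc := pcB3) (cut := Cut.none) (xt := Ext.none) (P1 := 0) (W1 := 536870912) (P2 := 536870912) (W2 := 536870912) (P3 := 991146299) (W3 := 28908434) (N0 := 3) (En := eng) (mo := mog) (C1 := cd0q2) (C2 := cd2q1) (C3 := pd3)
    rfl k0_mm_213

end Pool.Agent.Strip051.G.I9231_9500.Tab.C.BA02

namespace Pool.Agent.Strip051.G.I9231_9500.Tab.C.BA03

open Pool.Agent.Strip051.PB Pool.Agent.Strip051.PB.T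
open Pool.Agent.Strip051.G.I9231_9500.Tab

noncomputable def f_pp_001 : ℕ → ℕ → ℕ → ℕ → Bool := onCell 0 536870912 0 536870912 991146299 28908434
    (rowB 3 eng mog cd0q0 cd3q0 pd1 0 true true true .up 0 0 1 (qsf 0 536870912 0 536870912 1) ndB0q0 ndB3q0 pcB1 Cut.none Ext.none)

def k0_pp_001 : ∃ t, chk3 f_pp_001 t 1 1 1 = true :=
  ⟨(l 4), by decide +kernel⟩

theorem c_pp_001 : CertB 0 536870912 0 536870912 991146299 28908434 3 eng mog cd0q0 cd3q0 pd1 true true true .up 0 0 1
    ndB0q0 ndB3q0 pcB1 Cut.none Ext.none :=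
  certB0 (fam := true) (s1 := true) (s2 := true) (a := 0) (b := 0) (c := 1) (cn := .up) (n1 := ndB0q0) (n2 := ndB3q0) (pc := pcB1) (cut := Cut.none) (xt := Ext.none) (P1 := 0) (W1 := 536870912) (P2 := 0) (W2 := 536870912) (P3 := 991146299) (W3 := 28908434) (N0 := 3) (En := eng) (mo := mog) (C1 := cd0q0) (C2 := cd3q0) (C3 := pd1)
    rfl k0_pp_001

noncomputable def f_pp_011 : ℕ → ℕ → ℕ → ℕ → Bool := onCell 0 536870912 536870912 536870912 991146299 28908434
    (rowB 3 eng mog cd0q0 cd3q1 pd1 0 true true true .pnn 0 1 1 (qsf 0 536870912 536870912 536870912 1) ndB0q0 ndB3q1 pcB1 Cut.none Ext.none)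

def k0_pp_011 : ∃ t, chk3 f_pp_011 t 1 1 1 = true :=
  ⟨(l 4), by decide +kernel⟩

theorem c_pp_011 : CertB 0 536870912 536870912 536870912 991146299 28908434 3 eng mog cd0q0 cd3q1 pd1 true true true .pnn 0 1 1
    ndB0q0 ndB3q1 pcB1 Cut.none Ext.none :=
  certB0 (fam := true) (s1 := true) (s2 := true) (a := 0) (b := 1) (c := 1) (cn := .pnn) (n1 := ndB0q0) (n2 := ndB3q1) (pc := pcB1) (cut := Cut.none) (xt := Ext.none) (P1 := 0) (W1 := 536870912) (P2 := 536870912) (W2 := 536870912) (P3 := 991146299) (W3 := 28908434) (N0 := 3) (En := eng) (mo := mog) (C1 := cd0q0) (C2 := cd3q1) (C3 := pd1)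
    rfl k0_pp_011

noncomputable def f_pp_012 : ℕ → ℕ → ℕ → ℕ → Bool := onCell 0 536870912 536870912 536870912 991146299 28908434
    (rowB 3 eng mog cd0q0 cd3q1 pd2 0 true true true .pnp 0 1 2 (qsf 0 536870912 536870912 536870912 2) ndB0q0 ndB3q1 pcB2 Cut.none Ext.none)

def k0_pp_012 : ∃ t, chk3 f_pp_012 t 1 1 1 = true :=
  ⟨(l 4), by decide +kernel⟩

theorem c_pp_012 : CertB 0 536870912 536870912 536870912 991146299 28908434 3 eng mog cd0q0 cd3q1 pd2 true true true .pnp 0 1 2
    ndB0q0 ndB3q1 pcB2 Cut.none Ext.none :=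
  certB0 (fam := true) (s1 := true) (s2 := true) (a := 0) (b := 1) (c := 2) (cn := .pnp) (n1 := ndB0q0) (n2 := ndB3q1) (pc := pcB2) (cut := Cut.none) (xt := Ext.none) (P1 := 0) (W1 := 536870912) (P2 := 536870912) (W2 := 536870912) (P3 := 991146299) (W3 := 28908434) (N0 := 3) (En := eng) (mo := mog) (C1 := cd0q0) (C2 := cd3q1) (C3 := pd2)
    rfl k0_pp_012

noncomputable def f_pp_022 : ℕ → ℕ → ℕ → ℕ → Bool := onCell 0 536870912 1073741824 536870912 991146299 28908434
    (rowB 3 eng mog cd0q0 cd3q2 pd2 0 true true true .pp 0 2 2 (qsf 0 536870912 1073741824 536870912 2) ndB0q0 ndB3q2 pcB2 Cut.none Ext.none)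

def k0_pp_022 : ∃ t, chk3 f_pp_022 t 1 1 1 = true :=
  ⟨(l 4), by decide +kernel⟩

theorem c_pp_022 : CertB 0 536870912 1073741824 536870912 991146299 28908434 3 eng mog cd0q0 cd3q2 pd2 true true true .pp 0 2 2
    ndB0q0 ndB3q2 pcB2 Cut.none Ext.none :=
  certB0 (fam := true) (s1 := true) (s2 := true) (a := 0) (b := 2) (c := 2) (cn := .pp) (n1 := ndB0q0) (n2 := ndB3q2) (pc := pcB2) (cut := Cut.none) (xt := Ext.none) (P1 := 0) (W1 := 536870912) (P2 := 1073741824) (W2 := 536870912) (P3 := 991146299) (W3 := 28908434) (N0 := 3) (En := eng) (mo := mog) (C1 := cd0q0) (C2 := cd3q2) (C3 := pd2)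
    rfl k0_pp_022

noncomputable def f_pp_023 : ℕ → ℕ → ℕ → ℕ → Bool := onCell 0 536870912 1073741824 536870912 991146299 28908434
    (rowB 3 eng mog cd0q0 cd3q2 pd3 0 true true true .up 0 2 3 (qsf 0 536870912 1073741824 536870912 3) ndB0q0 ndB3q2 pcB3 Cut.none Ext.none)

def k0_pp_023 : ∃ t, chk3 f_pp_023 t 1 1 1 = true :=
  ⟨(l 4), by decide +kernel⟩

theorem c_pp_023 : CertB 0 536870912 1073741824 536870912 991146299 28908434 3 eng mog cd0q0 cd3q2 pd3 true true true .up 0 2 3
    ndB0q0 ndB3q2 pcB3 Cut.none Ext.none :=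
  certB0 (fam := true) (s1 := true) (s2 := true) (a := 0) (b := 2) (c := 3) (cn := .up) (n1 := ndB0q0) (n2 := ndB3q2) (pc := pcB3) (cut := Cut.none) (xt := Ext.none) (P1 := 0) (W1 := 536870912) (P2 := 1073741824) (W2 := 536870912) (P3 := 991146299) (W3 := 28908434) (N0 := 3) (En := eng) (mo := mog) (C1 := cd0q0) (C2 := cd3q2) (C3 := pd3)
    rfl k0_pp_023

noncomputable def f_pp_033 : ℕ → ℕ → ℕ → ℕ → Bool := onCell 0 536870912 0 1230186008 991146299 28908434
    (rowB 3 eng mog cd0q0 cd3q3 pd3 0 true true true .pnn 0 3 3 (qsf 0 536870912 0 1230186008 3) ndB0q0 ndB3q3 pcB3 Cut.none Ext.none)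

def k0_pp_033 : ∃ t, chk3 f_pp_033 t 1 1 1 = true :=
  ⟨(b (l 4) (l 4)), by decide +kernel⟩

theorem c_pp_033 : CertB 0 536870912 0 1230186008 991146299 28908434 3 eng mog cd0q0 cd3q3 pd3 true true true .pnn 0 3 3
    ndB0q0 ndB3q3 pcB3 Cut.none Ext.none :=
  certB0 (fam := true) (s1 := true) (s2 := true) (a := 0) (b := 3) (c := 3) (cn := .pnn) (n1 := ndB0q0) (n2 := ndB3q3) (pc := pcB3) (cut := Cut.none) (xt := Ext.none) (P1 := 0) (W1 := 536870912) (P2 := 0) (W2 := 1230186008) (P3 := 991146299) (W3 := 28908434) (N0 := 3) (En := eng) (mo := mog) (C1 := cd0q0) (C2 := cd3q3) (C3 := pd3)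
    rfl k0_pp_033

noncomputable def f_pp_101 : ℕ → ℕ → ℕ → ℕ → Bool := onCell 536870912 536870912 0 536870912 991146299 28908434
    (rowB 3 eng mog cd0q1 cd3q0 pd1 0 true true true .npn 1 0 1 (qsf 536870912 536870912 0 536870912 1) ndB0q1 ndB3q0 pcB1 Cut.none Ext.none)

def k0_pp_101 : ∃ t, chk3 f_pp_101 t 1 1 1 = true :=
  ⟨(l 5), by decide +kernel⟩

theorem c_pp_101 : CertB 536870912 536870912 0 536870912 991146299 28908434 3 eng mog cd0q1 cd3q0 pd1 true true true .npn 1 0 1
    ndB0q1 ndB3q0 pcB1 Cut.none Ext.none :=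
  certB0 (fam := true) (s1 := true) (s2 := true) (a := 1) (b := 0) (c := 1) (cn := .npn) (n1 := ndB0q1) (n2 := ndB3q0) (pc := pcB1) (cut := Cut.none) (xt := Ext.none) (P1 := 536870912) (W1 := 536870912) (P2 := 0) (W2 := 536870912) (P3 := 991146299) (W3 := 28908434) (N0 := 3) (En := eng) (mo := mog) (C1 := cd0q1) (C2 := cd3q0) (C3 := pd1)
    rfl k0_pp_101

noncomputable def f_pp_102 : ℕ → ℕ → ℕ → ℕ → Bool := onCell 536870912 536870912 0 536870912 991146299 28908434
    (rowB 3 eng mog cd0q1 cd3q0 pd2 0 true true true .npp 1 0 2 (qsf 536870912 536870912 0 536870912 2) ndB0q1 ndB3q0 pcB2 Cut.none Ext.none)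

def k0_pp_102 : ∃ t, chk3 f_pp_102 t 1 1 1 = true :=
  ⟨(l 5), by decide +kernel⟩

theorem c_pp_102 : CertB 536870912 536870912 0 536870912 991146299 28908434 3 eng mog cd0q1 cd3q0 pd2 true true true .npp 1 0 2
    ndB0q1 ndB3q0 pcB2 Cut.none Ext.none :=
  certB0 (fam := true) (s1 := true) (s2 := true) (a := 1) (b := 0) (c := 2) (cn := .npp) (n1 := ndB0q1) (n2 := ndB3q0) (pc := pcB2) (cut := Cut.none) (xt := Ext.none) (P1 := 536870912) (W1 := 536870912) (P2 := 0) (W2 := 536870912) (P3 := 991146299) (W3 := 28908434) (N0 := 3) (En := eng) (mo := mog) (C1 := cd0q1) (C2 := cd3q0) (C3 := pd2)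
    rfl k0_pp_102

noncomputable def f_pp_112 : ℕ → ℕ → ℕ → ℕ → Bool := onCell 536870912 536870912 536870912 536870912 991146299 28908434
    (rowB 3 eng mog cd0q1 cd3q1 pd2 0 true true true .dn 1 1 2 (qsf 536870912 536870912 536870912 536870912 2) ndB0q1 ndB3q1 pcB2 Cut.none Ext.none)

def k0_pp_112 : ∃ t, chk3 f_pp_112 t 1 1 1 = true :=
  ⟨(l 4), by decide +kernel⟩

theorem c_pp_112 : CertB 536870912 536870912 536870912 536870912 991146299 28908434 3 eng mog cd0q1 cd3q1 pd2 true true true .dn 1 1 2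
    ndB0q1 ndB3q1 pcB2 Cut.none Ext.none :=
  certB0 (fam := true) (s1 := true) (s2 := true) (a := 1) (b := 1) (c := 2) (cn := .dn) (n1 := ndB0q1) (n2 := ndB3q1) (pc := pcB2) (cut := Cut.none) (xt := Ext.none) (P1 := 536870912) (W1 := 536870912) (P2 := 536870912) (W2 := 536870912) (P3 := 991146299) (W3 := 28908434) (N0 := 3) (En := eng) (mo := mog) (C1 := cd0q1) (C2 := cd3q1) (C3 := pd2)
    rfl k0_pp_112

noncomputable def f_pp_113 : ℕ → ℕ → ℕ → ℕ → Bool := onCell 536870912 536870912 536870912 536870912 991146299 28908434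
    (rowB 3 eng mog cd0q1 cd3q1 pd3 0 true true true .nn 1 1 3 (qsf 536870912 536870912 536870912 536870912 3) ndB0q1 ndB3q1 pcB3 Cut.none Ext.none)

def k0_pp_113 : ∃ t, chk3 f_pp_113 t 1 1 1 = true :=
  ⟨(l 4), by decide +kernel⟩

theorem c_pp_113 : CertB 536870912 536870912 536870912 536870912 991146299 28908434 3 eng mog cd0q1 cd3q1 pd3 true true true .nn 1 1 3
    ndB0q1 ndB3q1 pcB3 Cut.none Ext.none :=
  certB0 (fam := true) (s1 := true) (s2 := true) (a := 1) (b := 1) (c := 3) (cn := .nn) (n1 := ndB0q1) (n2 := ndB3q1) (pc := pcB3) (cut := Cut.none) (xt := Ext.none) (P1 := 536870912) (W1 := 536870912) (P2 := 536870912) (W2 := 536870912) (P3 := 991146299) (W3 := 28908434) (N0 := 3) (En := eng) (mo := mog) (C1 := cd0q1) (C2 := cd3q1) (C3 := pd3)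
    rfl k0_pp_113

noncomputable def f_pp_123 : ℕ → ℕ → ℕ → ℕ → Bool := onCell 536870912 536870912 1073741824 536870912 991146299 28908434
    (rowB 3 eng mog cd0q1 cd3q2 pd3 0 true true true .npn 1 2 3 (qsf 536870912 536870912 1073741824 536870912 3) ndB0q1 ndB3q2 pcB3 Cut.none Ext.none)

def k0_pp_123 : ∃ t, chk3 f_pp_123 t 1 1 1 = true :=
  ⟨(l 4), by decide +kernel⟩

theorem c_pp_123 : CertB 536870912 536870912 1073741824 536870912 991146299 28908434 3 eng mog cd0q1 cd3q2 pd3 true true true .npn 1 2 3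
    ndB0q1 ndB3q2 pcB3 Cut.none Ext.none :=
  certB0 (fam := true) (s1 := true) (s2 := true) (a := 1) (b := 2) (c := 3) (cn := .npn) (n1 := ndB0q1) (n2 := ndB3q2) (pc := pcB3) (cut := Cut.none) (xt := Ext.none) (P1 := 536870912) (W1 := 536870912) (P2 := 1073741824) (W2 := 536870912) (P3 := 991146299) (W3 := 28908434) (N0 := 3) (En := eng) (mo := mog) (C1 := cd0q1) (C2 := cd3q2) (C3 := pd3)
    rfl k0_pp_123

noncomputable def f_pp_133 : ℕ → ℕ → ℕ → ℕ → Bool := onCell 536870912 536870912 0 1230186008 991146299 28908434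
    (rowB 3 eng mog cd0q1 cd3q3 pd3 0 true true true .dn 1 3 3 (qsf 536870912 536870912 0 1230186008 3) ndB0q1 ndB3q3 pcB3 Cut.none Ext.none)

def k0_pp_133 : ∃ t, chk3 f_pp_133 t 1 1 1 = true :=
  ⟨(b (l 2) (l 4)), by decide +kernel⟩

theorem c_pp_133 : CertB 536870912 536870912 0 1230186008 991146299 28908434 3 eng mog cd0q1 cd3q3 pd3 true true true .dn 1 3 3
    ndB0q1 ndB3q3 pcB3 Cut.none Ext.none :=
  certB0 (fam := true) (s1 := true) (s2 := true) (a := 1) (b := 3) (c := 3) (cn := .dn) (n1 := ndB0q1) (n2 := ndB3q3) (pc := pcB3) (cut := Cut.none) (xt := Ext.none) (P1 := 536870912) (W1 := 536870912) (P2 := 0) (W2 := 1230186008) (P3 := 991146299) (W3 := 28908434) (N0 := 3) (En := eng) (mo := mog) (C1 := cd0q1) (C2 := cd3q3) (C3 := pd3)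
    rfl k0_pp_133

noncomputable def f_pp_202 : ℕ → ℕ → ℕ → ℕ → Bool := onCell 0 536870912 0 536870912 991146299 28908434
    (rowB 3 eng mog cd0q2 cd3q0 pd2 0 true true true .pp 2 0 2 (qsf 0 536870912 0 536870912 2) ndB0q2 ndB3q0 pcB2 Cut.none Ext.none)

def k0_pp_202 : ∃ t, chk3 f_pp_202 t 1 1 1 = true :=
  ⟨(l 5), by decide +kernel⟩

theorem c_pp_202 : CertB 0 536870912 0 536870912 991146299 28908434 3 eng mog cd0q2 cd3q0 pd2 true true true .pp 2 0 2
    ndB0q2 ndB3q0 pcB2 Cut.none Ext.none :=
  certB0 (fam := true) (s1 := true) (s2 := true) (a := 2) (b := 0) (c := 2) (cn := .pp) (n1 := ndB0q2) (n2 := ndB3q0) (pc := pcB2) (cut := Cut.none) (xt := Ext.none) (P1 := 0) (W1 := 536870912) (P2 := 0) (W2 := 536870912) (P3 := 991146299) (W3 := 28908434) (N0 := 3) (En := eng) (mo := mog) (C1 := cd0q2) (C2 := cd3q0) (C3 := pd2)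
    rfl k0_pp_202

noncomputable def f_pp_203 : ℕ → ℕ → ℕ → ℕ → Bool := onCell 0 536870912 0 536870912 991146299 28908434
    (rowB 3 eng mog cd0q2 cd3q0 pd3 0 true true true .up 2 0 3 (qsf 0 536870912 0 536870912 3) ndB0q2 ndB3q0 pcB3 Cut.none Ext.none)

def k0_pp_203 : ∃ t, chk3 f_pp_203 t 1 1 1 = true :=
  ⟨(l 5), by decide +kernel⟩

theorem c_pp_203 : CertB 0 536870912 0 536870912 991146299 28908434 3 eng mog cd0q2 cd3q0 pd3 true true true .up 2 0 3
    ndB0q2 ndB3q0 pcB3 Cut.none Ext.none :=
  certB0 (fam := true) (s1 := true) (s2 := true) (a := 2) (b := 0) (c := 3) (cn := .up) (n1 := ndB0q2) (n2 := ndB3q0) (pc := pcB3) (cut := Cut.none) (xt := Ext.none) (P1 := 0) (W1 := 536870912) (P2 := 0) (W2 := 536870912) (P3 := 991146299) (W3 := 28908434) (N0 := 3) (En := eng) (mo := mog) (C1 := cd0q2) (C2 := cd3q0) (C3 := pd3)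
    rfl k0_pp_203

noncomputable def f_pp_213 : ℕ → ℕ → ℕ → ℕ → Bool := onCell 0 536870912 536870912 536870912 991146299 28908434
    (rowB 3 eng mog cd0q2 cd3q1 pd3 0 true true true .pnn 2 1 3 (qsf 0 536870912 536870912 536870912 3) ndB0q2 ndB3q1 pcB3 Cut.none Ext.none)

def k0_pp_213 : ∃ t, chk3 f_pp_213 t 1 1 1 = true :=
  ⟨(l 4), by decide +kernel⟩

theorem c_pp_213 : CertB 0 536870912 536870912 536870912 991146299 28908434 3 eng mog cd0q2 cd3q1 pd3 true true true .pnn 2 1 3
    ndB0q2 ndB3q1 pcB3 Cut.none Ext.none :=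
  certB0 (fam := true) (s1 := true) (s2 := true) (a := 2) (b := 1) (c := 3) (cn := .pnn) (n1 := ndB0q2) (n2 := ndB3q1) (pc := pcB3) (cut := Cut.none) (xt := Ext.none) (P1 := 0) (W1 := 536870912) (P2 := 536870912) (W2 := 536870912) (P3 := 991146299) (W3 := 28908434) (N0 := 3) (En := eng) (mo := mog) (C1 := cd0q2) (C2 := cd3q1) (C3 := pd3)
    rfl k0_pp_213

noncomputable def f_pm_001 : ℕ → ℕ → ℕ → ℕ → Bool := onCell 0 536870912 536870912 536870912 991146299 28908434
    (rowB 3 eng mog cd0q0 cd3q0 pd1 1 true true false .up 0 0 1 (qsf 0 536870912 0 536870912 1) ndB0q0 ndB3q0 pcB1 Cut.none Ext.none)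

def k0_pm_001 : ∃ t, chk3 f_pm_001 t 1 1 1 = true :=
  ⟨(b (l 3) (b (l 3) (a (l 2) (b (l 3) (a (l 2) (b (l 3) (a (l 2) (b (b (l 3) (a (l 2) (a (c (l 261085445863) (l 261085648711)) (c (l 251958607879) (l 250885073703))))) (a (l 2) (a (b (c (l 15991552) (l 16064904)) (l 2)) (b (c (l 15948904) (l 16045288)) (c (l 15955016) (l 16030448))))))))))))), by decide +kernel⟩

theorem c_pm_001 : CertB 0 536870912 0 536870912 991146299 28908434 3 eng mog cd0q0 cd3q0 pd1 true true false .up 0 0 1
    ndB0q0 ndB3q0 pcB1 Cut.none Ext.none :=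
  certB1 (fam := true) (s1 := true) (s2 := false) (a := 0) (b := 0) (c := 1) (cn := .up) (n1 := ndB0q0) (n2 := ndB3q0) (pc := pcB1) (cut := Cut.none) (xt := Ext.none) (P1 := 0) (W1 := 536870912) (P2 := 0) (W2 := 536870912) (P3 := 991146299) (W3 := 28908434) (N0 := 3) (En := eng) (mo := mog) (C1 := cd0q0) (C2 := cd3q0) (C3 := pd1)
    rfl (fun _ => rfl) k0_pm_001

noncomputable def cut_pm_011 : Cut := Cut.of [[⟨0, 0, 0, 53687091⟩, ⟨1, 1, 0, 53687091⟩, ⟨2, 1, 0, 53687091⟩]]

noncomputable def xt_pm_011 : Ext := extD3 3 ⟨4, 1, 1, 5, 22, 5, 21, 25, 41, 100, 1, 20⟩ eng cd0q0 cd3q1 pd1 true true false .pnn 0 1 1 rfl ndB0q0 ndB3q1 pcB1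

noncomputable def f_pm_011 : ℕ → ℕ → ℕ → ℕ → Bool := onCell 536870912 536870912 536870912 536870912 991146299 28908434
    (rowB 3 eng mog cd0q0 cd3q1 pd1 2 true true false .pnn 0 1 1 (qsf 0 536870912 536870912 536870912 1) ndB0q0 ndB3q1 pcB1 cut_pm_011 xt_pm_011)

def k0_pm_011 : ∃ t, chk3 f_pm_011 t 1 1 1 = true :=
  ⟨(a (l 3) (a (l 3) (a (l 3) (a (b (l 3) (l 3)) (a (b (b (b (b (a (l 3) (c (l 245516310455) (b (l 241758086551) (l 244979350583)))) (l 3)) (l 3)) (l 3)) (l 3)) (b (c (b (b (b (a (b (l 16100376) (l 16118576)) (l 16064464)) (a (l 16106080) (l 16103216))) (b (a (l 16191464) (l 16146784)) (l 16111568))) (b (b (l 16204456) (l 16278624)) (b (l 16312040) (l 16324984)))) (b (b (b (a (b (l 16019632) (l 16039112)) (b (l 15975120) (l 15994704))) (b (a (l 16059712) (l 16015480)) (l 153711180327))) (b (a (l 16052184) (l 16071520)) (a (l 16163064) (l 16120184)))) (b (b (l 16108440) (l 16246104)) (b (l 16281144) (l 16254760))))) (b (b (b (c (l 285245388999) (l 283634642455)) (c (b (l 16461632)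 (l 16540184)) (l 306720215975))) (a (l 3) (b (c (l 16570544) (l 16475424)) (c (l 227263767735) (l 337322130647))))) (a (l 3) (b (b (b (l 335711645111) (a (l 3) (l 16586128))) (a (l 3) (b (l 6250146487549420251808612415) (c (l 16681416) (l 16636632))))) (b (b (a (l 3) (a (l 40728710862959408887407099967) (c (l 16712488) (l 16672408)))) (l 6)) (l 6))))))))))), by decide +kernel⟩

theorem c_pm_011 : CertB 0 536870912 536870912 536870912 991146299 28908434 3 eng mog cd0q0 cd3q1 pd1 true true false .pnn 0 1 1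
    ndB0q0 ndB3q1 pcB1 cut_pm_011 xt_pm_011 :=
  certB2 (fam := true) (s1 := true) (s2 := false) (a := 0) (b := 1) (c := 1) (cn := .pnn) (n1 := ndB0q0) (n2 := ndB3q1) (pc := pcB1) (cut := cut_pm_011) (xt := xt_pm_011) (P1 := 0) (W1 := 536870912) (P2 := 536870912) (W2 := 536870912) (P3 := 991146299) (W3 := 28908434) (N0 := 3) (En := eng) (mo := mog) (C1 := cd0q0) (C2 := cd3q1) (C3 := pd1)
    rfl (fun _ => rfl) k0_pm_011

noncomputable def cut_pm_012 : Cut := Cut.of [[⟨0, 0, 0, 53687091⟩, ⟨1, 1, 0, 53687091⟩, ⟨2, 1, 0, 53687091⟩]]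

noncomputable def xt_pm_012 : Ext := extD3 3 ⟨4, 1, 1, 5, 22, 5, 21, 25, 41, 100, 1, 20⟩ eng cd0q0 cd3q1 pd2 true true false .pnp 0 1 2 rfl ndB0q0 ndB3q1 pcB2

noncomputable def f_pm_012 : ℕ → ℕ → ℕ → ℕ → Bool := onCell 0 536870912 1073741824 536870912 991146299 28908434
    (rowB 3 eng mog cd0q0 cd3q1 pd2 1 true true false .pnp 0 1 2 (qsf 0 536870912 536870912 536870912 2) ndB0q0 ndB3q1 pcB2 cut_pm_012 xt_pm_012)

def k0_pm_012 : ∃ t, chk3 f_pm_012 t 2 8 1 = true :=
  ⟨(a (b (a (a (l 6) (a (l 6) (b (b (b (c (l 16670640) (l 16663376)) (l 142705991852163135)) (c (l 142325492040630527) (l 142295049325166655))) (b (c (l 141634380174475391) (l 141684820268925055)) (c (l 140948903264616575) (l 140908015160868991)))))) (a (b (b (a (c (l 142371534186135615) (l 16632560)) (l 141860604739797055)) (a (l 142029448469512255) (l 141949665135853631))) (a (b (l 141327204088627263) (a (l 141175127759224959) (l 16488152))) (b (l 141644413176578111) (l 140983194244071487)))) (a (b (b (l 16579656) (l 16538616))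 (c (l 16442096) (l 16473960))) (b (b (l 16560160) (l 16531432)) (c (l 16477648) (l 16493560)))))) (a (a (b (l 6) (l 2)) (b (a (l 6) (b (c (a (l 16443744) (l 16438416)) (l 140156430103429247)) (c (a (l 16382072) (l 16377712)) (a (l 16360912) (l 16359208))))) (a (a (l 2) (b (c (l 16324160) (l 16294296)) (l 2))) (b (a (c (l 16310896) (l 16294344)) (c (l 16317960) (l 16293672))) (a (a (l 2) (l 16245256)) (c (l 16238176) (l 16229328))))))) (a (b (a (c (b (l 16431120) (l 16371856)) (b (l 16422520) (l 16357352))) (c (l 139790704983457919) (l 139670652044984383))) (a (c (b (l 16292536) (l 16235080)) (b (l 16293352) (l 16230496))) (c (l 138420163508027519) (l 16286672)))) (b (c (b (l 16418528) (l 16364000)) (l 139234283375083583)) (c (a (l 16283152) (l 16284248)) (a (l 16271904) (l 16278792))))))) (a (b (a (b (c (b (l 16602736) (l 16570328)) (b (l 16547544) (l 16602200))) (c (l 16407576) (l 16430936))) (b (a (l 16462504) (l 16435328)) (a (l 16417824) (l 16417744)))) (c (a (b (l 16367600) (l 16288224)) (b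 (l 16390304) (l 16297000))) (a (b (l 16380416) (l 16291368)) (b (l 16413408) (l 16311168))))) (b (b (a (a (l 16428680) (l 16421680)) (c (l 16486776) (l 16417384))) (a (c (l 16481976) (l 16523080)) (l 16398408))) (b (a (c (l 16394192) (l 16426424)) (l 16335080)) (a (l 16235728) (l 16293800)))))), by decide +kernel⟩

def k1_pm_012 : ∃ t, chk3 f_pm_012 t 2 9 1 = true :=
  ⟨(a (a (b (b (a (l 2) (a (l 2) (a (l 2) (c (l 16183248) (l 16135088))))) (l 2)) (l 2)) (b (a (a (b (b (c (l 16183752) (l 16147792)) (a (l 16125416) (c (l 16144008) (l 16109872)))) (b (a (l 2) (l 16049464)) (l 2))) (b (c (b (l 16200208) (l 16146200)) (l 16146048)) (c (a (l 16065400) (l 16068624)) (a (l 16027560) (l 16034032))))) (b (c (a (l 16176912) (l 16181392)) (a (l 16155992) (l 16166592))) (a (c (l 16073776) (l 16044048)) (c (l 16081384) (l 16058072))))) (a (a (l 2) (b (c (l 15943152) (l 15919640)) (l 2))) (b (a (c (l 15952944) (l 15936192)) (c (l 15984376) (l 15953344))) (a (b (l 15858896) (l 2)) (c (l 15890848) (l 15852872)))))))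 (a (b (a (b (c (l 16190360) (l 16184656)) (a (l 16081608) (l 16094600))) (b (c (l 16205672) (l 16211656)) (c (l 16116328) (l 16114840)))) (a (b (c (l 16002192) (l 15981104)) (c (l 15891448) (l 15884744))) (b (c (l 16029064) (l 16020792)) (c (l 15944224) (l 15929824))))) (b (a (c (l 16055344) (l 16131264)) (b (l 16253720) (l 16172960))) (a (b (l 16059184) (l 15976368)) (b (l 16093536) (l 16015688)))))), by decide +kernel⟩

def k2_pm_012 : ∃ t, chk3 f_pm_012 t 3 4 1 = true :=
  ⟨(b (a (a (b (a (c (l 16316056) (l 16251400)) (c (l 16301264) (l 16214384))) (a (c (l 16347656) (l 16390168)) (c (l 16377080) (l 16424848)))) (b (a (c (l 16255544) (b (l 16267544) (l 16337680))) (b (c (l 16265808) (l 16214288)) (l 16218264))) (c (a (l 16383848) (l 16380504)) (a (l 16416048) (l 16357800))))) (a (a (b (b (c (l 16214128) (l 16163712)) (c (l 16267064) (l 16229784))) (c (l 16324088) (l 16280992))) (b (b (c (l 16166032) (l 16094944)) (l 16052248)) (b (l 16179936) (l 16275224)))) (b (a (c (b (l 16122256) (l 16171080))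 (b (l 16008552) (l 16133056))) (c (b (l 16083352) (l 16129984)) (b (a (l 16040712) (l 16021712)) (l 16090240)))) (a (c (l 16222032) (l 16135504)) (c (l 16172440) (l 16068056)))))) (a (a (b (a (b (l 16275936) (l 16201112)) (c (l 16244296) (l 16260032))) (a (b (l 16127120) (l 16054152)) (b (l 16159080) (l 16090896)))) (a (b (b (l 16315336) (l 16252040)) (l 16031224)) (b (l 16186696) (l 16059576)))) (a (b (a (l 16232200) (c (l 16296776) (l 16300904))) (a (b (l 16236288) (l 16181920)) (c (l 16202584) (l 16254120)))) (b (a (c (l 16257616) (l 16246352)) (c (l 16209360) (l 16195344))) (a (c (l 16211240) (l 16261968)) (c (l 16212264) (l 16207424))))))), by decide +kernel⟩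

def k3_pm_012 : ∃ t, chk3 f_pm_012 t 2 5 1 = true :=
  ⟨(a (b (b (a (l 2) (b (a (l 2) (a (l 2) (c (l 15802256) (l 15758160)))) (l 2))) (l 2)) (l 2)) (b (b (a (b (a (a (c (l 15818304) (l 15781288)) (l 15799664)) (c (l 15862864) (l 15843032))) (b (a (a (l 15737488) (l 15759400)) (c (l 15805248) (l 15781872))) (a (a (l 2) (b (l 15732504) (b (l 15722656) (l 15717000)))) (b (l 15767208) (c (b (l 15769864) (l 15764160)) (l 15740872)))))) (b (a (l 15896600) (l 15940152)) (b (a (l 15839720) (l 15885784)) (b (a (l 15814000) (l 15860816)) (a (c (l 15785808) (l 15793984)) (c (l 15826928) (l 15846432))))))) (a (a (b (a (l 2) (l 15662056)) (l 2)) (c (a (l 15652848) (l 15675360)) (l 15696384))) (a (c (l 15709808) (l 15692256)) (c (l 15756240) (l 15750288))))) (a (a (l 2) (b (a (l 2) (l 15462144)) (l 2))) (a (b (c (l 15523272) (l 15496864)) (c (l 15330824) (l 15295568))) (b (c (l 15580776) (l 15566528)) (c (l 15399544) (l 15377072))))))), by decide +kernel⟩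

def k4_pm_012 : ∃ t, chk3 f_pm_012 t 3 5 1 = true :=
  ⟨(a (b (b (b (a (a (l 15982800) (l 16023688)) (a (l 16061952) (l 16096672))) (a (b (a (l 15930968) (l 15974416)) (b (l 15824824) (a (l 15893032) (l 15937400)))) (b (l 15888032) (b (l 15949984) (a (l 15979304) (l 16017824)))))) (a (a (l 15804504) (l 15854152)) (a (l 15901240) (l 15944848)))) (b (a (a (l 15635944) (l 15696288)) (a (l 15753760) (l 15807416))) (a (a (l 15461808) (l 15532976)) (a (l 15600880) (l 15664592))))) (b (b (b (a (a (l 16126896) (l 16151680)) (a (l 16170048) (l 16181040))) (a (b (a (l 16085408) (l 16112840)) (b (l 15954504) (a (l 16031056) (l 16018048)))) (b (a (l 16133880) (l 16147568)) (b (a (l 16115672) (l 16130560)) (a (l 16103680) (l 16098224)))))) (a (c (l 15899896) (l 15874256)) (a (l 16045416) (l 16065640)))) (b (a (a (l 15856312) (l 15899504)) (a (l 15894040) (c (l 15938424) (l 15992112)))) (a (a (l 15723152) (l 15775584)) (a (c (l 15800960) (l 15840376)) (c (l 15831752) (l 15880744))))))), by decide +kernel⟩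

def k5_pm_012 : ∃ t, chk3 f_pm_012 t 1 3 1 = true :=
  ⟨(b (a (a (l 2) (a (l 2) (b (a (l 2) (b (c (l 15213176) (l 15182560)) (l 2))) (l 2)))) (a (a (b (a (b (c (l 15292264) (l 15273400)) (l 15099344)) (b (l 15364840) (l 15192552))) (a (l 2) (b (l 15016832) (l 2)))) (b (b (a (l 15443280) (l 15517080)) (a (l 15281632) (c (l 15364344) (l 15368192)))) (b (a (c (l 15122384) (l 15111672)) (c (l 15208848) (l 15207792))) (a (c (l 14955336) (l 14939672)) (c (l 15046680) (l 15041952)))))) (c (a (b (b (a (l 15577496) (l 15632840)) (a (l 15435176) (l 15496824))) (b (a (l 15285776) (l 15354992)) (a (l 15131256) (l 15209576)))) (b (b (l 15531560) (l 15491512)) (b (l 15404640) (l 15293024)))) (b (a (b (a (l 15594592) (l 15658416)) (a (l 15447416) (l 15518224))) (b (a (l 15714384) (l 15762288)) (l 15485904))) (a (b (a (l 15294184) (l 15373232)) (a (l 15137008) (l 15225792))) (b (l 15396456) (l 15262480))))))) (a (l 2) (a (a (l 2) (b (b (a (l 2) (c (l 14880312) (l 14873376))) (l 2)) (l 2))) (b (a (c (b (a (l 14974040)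 (l 15061416)) (a (l 14815016) (l 14911376))) (b (a (l 14978400) (l 15076920)) (a (l 14819392) (l 14927672)))) (c (b (l 15178520) (l 15041048)) (b (l 15147952) (l 15033000)))) (b (a (a (l 2) (a (l 2) (l 14795384))) (c (l 14902496) (l 14897752))) (a (l 2) (c (l 14763808) (l 14806280)))))))), by decide +kernel⟩

theorem s6_pm_012 : ∃ t, chk3 f_pm_012 t 1 5 1 = true := ex3_a k3_pm_012 k4_pm_012

theorem s7_pm_012 : ∃ t, chk3 f_pm_012 t 2 4 1 = true := ex3_b k0_pm_012 k1_pm_012

theorem s8_pm_012 : ∃ t, chk3 f_pm_012 t 1 4 1 = true := ex3_a s7_pm_012 k2_pm_012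

theorem s9_pm_012 : ∃ t, chk3 f_pm_012 t 1 2 1 = true := ex3_b s8_pm_012 s6_pm_012

theorem s10_pm_012 : ∃ t, chk3 f_pm_012 t 1 1 1 = true := ex3_b s9_pm_012 k5_pm_012

theorem c_pm_012 : CertB 0 536870912 536870912 536870912 991146299 28908434 3 eng mog cd0q0 cd3q1 pd2 true true false .pnp 0 1 2
    ndB0q0 ndB3q1 pcB2 cut_pm_012 xt_pm_012 :=
  certB1 (fam := true) (s1 := true) (s2 := false) (a := 0) (b := 1) (c := 2) (cn := .pnp) (n1 := ndB0q0) (n2 := ndB3q1) (pc := pcB2) (cut := cut_pm_012) (xt := xt_pm_012) (P1 := 0) (W1 := 536870912) (P2 := 536870912) (W2 := 536870912) (P3 := 991146299) (W3 := 28908434) (N0 := 3) (En := eng) (mo := mog) (C1 := cd0q0) (C2 := cd3q1) (C3 := pd2)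
    rfl (fun _ => rfl) s10_pm_012

noncomputable def f_pm_022 : ℕ → ℕ → ℕ → ℕ → Bool := onCell 0 536870912 1073741824 536870912 991146299 28908434
    (rowB 3 eng mog cd0q0 cd3q2 pd2 1 true true false .pp 0 2 2 (qsf 0 536870912 1073741824 536870912 2) ndB0q0 ndB3q2 pcB2 Cut.none Ext.none)

def k0_pm_022 : ∃ t, chk3 f_pm_022 t 2 8 1 = true :=
  ⟨(a (b (l 3) (a (b (l 3) (b (l 3) (b (l 3) (a (a (b (l 3) (c (l 16492576) (l 16432608))) (c (l 16537592) (l 16453424))) (a (a (l 232095477847) (l 16543864)) (l 3)))))) (l 3))) (l 1)), by decide +kernel⟩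

def k1_pm_022 : ∃ t, chk3 f_pm_022 t 4 18 1 = true :=
  ⟨(a (c (a (b (a (b (b (l 16461624) (l 16469472)) (b (l 16456408) (l 16421264))) (b (c (l 16554008) (l 16543360)) (b (l 16518792) (l 16505280)))) (a (b (b (l 16444112) (l 16444872)) (l 16351936)) (b (l 16456392) (l 16437408)))) (b (b (a (l 16560712) (b (l 16581864) (l 16580264))) (a (l 16534528) (l 16577688))) (b (a (l 16501984) (l 16569968)) (c (l 16470824) (l 16437248))))) (b (a (b (a (c (l 16408376) (l 16376056)) (b (l 16480656) (l 16465376))) (a (b (l 16390472) (c (l 16434024) (l 16399288))) (b (l 16471200) (l 16434840)))) (b (a (b (l 16542824) (l 16527608)) (a (l 16562448) (l 16573936))) (a (b (l 16512520) (l 16497384)) (l 16527656)))) (a (b (a (c (l 16406360) (l 16372728)) (l 16387568)) (a (l 16332232) (l 16393184))) (a (b (l 16451152) (l 16456664)) (b (l 16495776) (l 16501448)))))) (a (a (b (c (c (b (a (b (l 419866191127) (l 16589344)) (l 512208025991)) (b (l 288869625687) (l 16553544))) (b (a (l 445636070695) (l 525093010551)) (l 274374194119)))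 (b (b (l 464963455159) (l 271153051943)) (a (l 16617624) (l 16606064)))) (b (c (b (l 16532632) (l 16537248)) (l 16538944)) (a (l 16503376) (l 16534936)))) (b (a (b (l 1) (c (l 585759251271) (l 625487817751))) (l 1)) (c (b (a (b (l 427382264951) (l 16546408)) (c (l 490733097703) (l 474090086535))) (c (l 271152797655) (l 16567152))) (b (b (l 464426504119) (l 16588048)) (l 16603680))))) (a (b (l 1) (b (l 1) (c (l 599180900871) (l 606697352247)))) (l 1)))), by decide +kernel⟩

def k2_pm_022 : ∃ t, chk3 f_pm_022 t 4 19 1 = true :=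
  ⟨(a (a (b (c (b (c (l 16296032) (l 16287928)) (a (l 16336880) (l 16401616))) (a (b (l 16317312) (l 16282016)) (b (l 16378408) (l 16343248)))) (c (b (a (l 16299056) (l 16363888)) (a (l 16263552) (l 16327336))) (b (a (l 16247352) (l 16308720)) (a (l 16214824) (l 16275200))))) (b (a (c (b (l 16485792) (l 16468376)) (l 16340416)) (b (c (l 16512272) (l 16486944)) (l 16379704))) (a (b (l 16297304) (l 16303960)) (c (l 16417872) (l 16379800))))) (a (b (c (a (l 16517936) (b (l 16514696) (l 16567656))) (a (l 16471128) (l 16509016))) (c (a (l 16464128) (l 16546536)) (a (l 16444808) (l 16482960)))) (b (c (a (b (c (l 495027908471) (l 16516936)) (l 16485032)) (b (l 1) (l 586296048775))) (a (l 263099858247) (l 614213457543))) (a (b (l 16475240) (l 16512032)) (c (b (l 475700515495) (l 16487736)) (l 16530320)))))), by decide +kernel⟩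

def k3_pm_022 : ∃ t, chk3 f_pm_022 t 5 9 1 = true :=
  ⟨(b (l 1) (a (a (a (a (b (l 1) (c (l 567505541783) (l 516502861431))) (l 1)) (l 1)) (l 1)) (l 1))), by decide +kernel⟩

def k4_pm_022 : ∃ t, chk3 f_pm_022 t 3 4 1 = true :=
  ⟨(l 1), by decide +kernel⟩

def k5_pm_022 : ∃ t, chk3 f_pm_022 t 8 20 1 = true :=
  ⟨(b (a (b (c (a (l 16247912) (l 16306800)) (a (l 16201648) (l 16257264))) (c (a (l 16247208) (l 16306120)) (a (l 16203672) (l 16259280)))) (b (a (c (l 16368720) (l 16316336)) (c (l 16433640) (l 16378912))) (a (l 16321656) (l 16362256)))) (b (a (c (a (l 16231712) (l 16311736)) (a (b (l 16208664) (l 16215096)) (l 16268216))) (a (c (l 16372808) (l 16326440)) (l 16327816))) (a (b (a (c (l 16242192) (b (l 16221976) (l 16228864))) (c (l 16322432) (l 16281928))) (b (a (c (b (l 16271536) (a (l 16263832) (l 16293072))) (b (l 16235848) (a (l 16229800) (l 16257272)))) (c (l 16293560) (b (l 16291952) (l 16278680)))) (a (c (b (b (b (l 16242664) (b (a (l 16273872) (l 16303200)) (a (c (l 16264344) (a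 (l 16241184) (l 16255504))) (l 16285744)))) (a (l 16278400) (l 16307768))) (a (l 16276600) (l 16305952))) (a (b (b (b (l 16236584) (b (l 16240664) (b (b (l 16222664) (c (l 16232904) (l 16215936))) (l 16225192)))) (l 16224624)) (l 16223128)) (b (b (b (l 16264104) (b (l 16268216) (c (l 16259856) (l 16241936)))) (l 16273184)) (l 16271680)))) (b (c (b (b (l 16344248) (b (l 16348152) (l 16309760))) (l 16352776)) (b (b (l 16306568) (b (l 16289752) (a (l 16279184) (l 16329008)))) (l 16294784))) (c (l 16350952) (l 16293264)))))) (a (b (l 16278512) (b (c (l 16376024) (l 16334592)) (b (b (b (l 16323056) (c (l 16369672) (a (l 16335552) (l 16386560)))) (l 16311072)) (l 16309384)))) (b (l 16361360) (b (l 16333872) (c (l 16408240) (a (l 16371488) (l 16402232))))))))), by decide +kernel⟩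

def k6_pm_022 : ∃ t, chk3 f_pm_022 t 9 20 1 = true :=
  ⟨(b (a (b (a (l 16365400) (l 16423944)) (a (l 16422496) (l 16434944))) (b (a (l 16478584) (l 16476544)) (a (l 16484672) (l 16470880)))) (b (a (a (l 16388152) (l 16442632)) (l 16410432)) (a (b (a (l 16400904) (l 16455552)) (b (a (l 16415560) (l 16470400)) (a (a (l 16412624) (l 16441752)) (c (l 16513864) (l 16479464))))) (b (l 16398864) (b (b (l 16401744) (l 16390592)) (c (l 16385912) (c (l 16455808) (l 16510792)))))))), by decide +kernel⟩

def k7_pm_022 : ∃ t, chk3 f_pm_022 t 4 21 1 = true :=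
  ⟨(a (a (c (b (a (b (a (b (l 16270624) (l 16240184)) (l 16295192)) (a (c (l 16253816) (l 16240480)) (l 16276416))) (b (l 16298184) (l 16279280))) (a (b (a (l 16229000) (l 16258136)) (a (l 16190336) (l 16240352))) (a (l 16278824) (l 16308952)))) (b (a (b (a (c (l 16222072) (l 16206304)) (l 16231288)) (a (b (l 16202600) (l 16195000)) (l 16247200))) (b (a (l 16290920) (l 16319720)) (l 16226632))) (a (c (a (l 16203280) (l 16231040)) (a (l 16191688) (l 16218504))) (b (l 16232392) (l 16238624))))) (a (c (b (l 16329304) (l 16313096)) (b (b (l 16343064) (l 16327184)) (l 16283312))) (b (c (l 16392592) (l 16375032)) (c (l 16376032) (l 16343800))))) (a (a (b (b (l 16401472) (l 16404552)) (l 16357664)) (b (l 16420528) (l 16422392))) (c (b (l 16394368) (l 16403472)) (b (l 16455528) (l 16456944))))), by decide +kernel⟩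

def k8_pm_022 : ∃ t, chk3 f_pm_022 t 4 11 1 = true :=
  ⟨(c (a (a (b (a (a (b (a (l 16168096) (l 16171928)) (b (l 16161216) (l 16145520))) (b (l 16214640) (l 16182064))) (b (l 16196064) (l 16205160))) (a (b (b (l 16144552) (l 16129816)) (a (l 16073608) (l 16122936))) (b (l 16195288) (l 16166440)))) (b (a (b (l 16298856) (l 16286600)) (l 16281592)) (a (l 16177744) (l 16260320)))) (a (b (a (l 16342448) (l 16436288)) (b (l 16342256) (l 16333008))) (b (l 16382104) (l 16389160)))) (a (a (b (a (a (b (a (l 16157600) (l 16155256)) (l 16132984)) (b (l 16196608) (l 16170360))) (b (a (l 16224344) (l 16252688)) (l 16190904))) (a (b (c (l 16133760) (l 16131568)) (l 16068504)) (b (l 16187280) (l 16164640)))) (b (a (b (l 16275352) (l 16269336)) (b (l 16335424) (l 16328968))) (a (b (l 16244304) (l 16221232)) (l 16249696)))) (a (b (b (l 16337192) (l 16330064)) (b (l 16303888) (l 16300624))) (b (l 16403200) (l 16374320))))), by decide +kernel⟩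

def k9_pm_022 : ∃ t, chk3 f_pm_022 t 5 5 1 = true :=
  ⟨(b (b (a (b (a (a (b (l 455836245975) (b (l 16444944) (l 16456648))) (c (b (l 1) (l 527776885639)) (l 476237440359))) (l 1)) (a (a (b (l 16430984) (b (l 16420144) (b (l 16395480) (c (l 16423816) (l 16478000))))) (b (l 308196604279) (b (l 16392440) (b (l 16367896) (c (l 16393008) (l 16453840)))))) (a (b (l 1) (b (l 1) (b (l 1) (c (l 16299104) (l 16408744))))) (l 1)))) (l 1)) (b (a (a (c (l 16356464) (l 16388160)) (c (a (l 16353488) (l 16260200)) (a (l 16437240) (l 16392768)))) (l 1)) (a (a (a (l 16330488) (l 16306128)) (c (l 16293304) (l 16372256))) (a (c (l 357051482487) (l 357051684631)) (l 1))))) (a (b (a (c (l 16292664) (a (l 16397304) (l 16421232))) (c (l 16264184) (a (l 16403024) (l 16384320)))) (a (c (l 16330000) (l 16326264)) (c (l 16310144) (l 16318768)))) (b (a (c (b (l 16192808) (l 16274000)) (b (l 16318960) (l 16349920))) (c (l 376378911895) (l 347924745959))) (a (c (l 16266544) (l 16330056)) (c (l 16157960) (l 16276368)))))),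 by decide +kernel⟩

def k10_pm_022 : ∃ t, chk3 f_pm_022 t 3 5 1 = true :=
  ⟨(a (b (l 1) (a (b (l 1) (a (c (l 337723910007) (l 342019071031)) (l 1))) (l 1))) (l 1)), by decide +kernel⟩

def k11_pm_022 : ∃ t, chk3 f_pm_022 t 8 6 1 = true :=
  ⟨(b (a (a (b (c (b (c (l 16080408) (l 16084072)) (l 16015720)) (b (l 16090200) (l 16071880))) (c (b (l 16014056) (l 16014248)) (b (l 16055456) (l 16040880)))) (b (c (b (l 16139568) (l 16114656)) (b (l 16143968) (l 16125224))) (c (b (l 16091664) (l 16070528)) (l 16037928)))) (b (a (c (l 16144224) (l 16148512)) (c (l 16226024) (l 16227528))) (a (c (l 16097480) (l 16113952)) (b (l 16173632) (l 16154680))))) (a (c (b (a (b (l 15974288) (l 15957008)) (l 15958464)) (a (b (l 15920368) (l 15906216)) (l 15926480))) (b (a (b (l 16028072) (l 15996000)) (l 16011504)) (b (l 15927968) (l 15919792)))) (b (a (c (l 16058080) (l 16107648)) (c (l 16159344) (l 16163896))) (c (c (l 15982888) (l 16001320)) (b (l 16055640) (l 16026160)))))), by decide +kernel⟩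

def k12_pm_022 : ∃ t, chk3 f_pm_022 t 8 7 1 = true :=
  ⟨(b (a (b (c (a (b (l 15872488) (l 15860992)) (c (l 15908256) (l 15955816))) (a (a (l 15835440) (l 15862536)) (l 15857424))) (b (c (a (l 15829648) (l 15903392)) (c (l 15839944) (l 15802552))) (c (c (l 15809000) (l 15798792)) (a (l 15726176) (l 15795376))))) (b (c (b (l 15970960) (l 15960232)) (b (l 15974264) (l 15900032))) (c (a (l 15836080) (b (l 16005048) (l 15957496))) (a (b (l 15898216) (l 15862272)) (l 15827888))))) (b (b (a (a (c (c (l 15830440) (l 15769912)) (c (l 15769560) (l 15724688))) (c (l 15804960) (l 15735040))) (c (a (l 15822824) (l 15887960)) (a (l 15804336) (l 15829280)))) (a (c (b (c (l 15762176) (l 15741520)) (a (c (a (l 15775664) (l 15789752)) (l 15697344)) (l 15749896))) (a (b (l 15699976) (c (l 15692704) (l 15643312))) (l 15631888))) (c (a (l 15791752) (l 15859464)) (a (l 15745520) (l 15772976))))) (a (c (b (b (a (c (l 15738344) (l 15713952)) (a (l 15694784) (l 15750536))) (a (l 15649600) (c (l 15764112) (l 15717672))))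 (c (b (l 15685400) (l 15704544)) (a (l 15650344) (l 15680768)))) (b (a (c (l 15693680) (l 15599080)) (b (c (l 15694512) (l 15644248)) (l 15663352))) (c (l 15654096) (l 15555352)))) (c (b (a (b (l 15794232) (l 15684224)) (l 15809224)) (a (b (l 15745696) (l 15723000)) (b (l 15771512) (l 15750216)))) (b (a (b (l 15700992) (l 15692192)) (l 15715912)) (a (b (l 15644928) (l 15617536)) (b (l 15672840) (l 15647680)))))))), by decide +kernel⟩

def k13_pm_022 : ∃ t, chk3 f_pm_022 t 9 3 1 = true :=
  ⟨(c (b (b (a (b (l 16228688) (l 16221952)) (b (l 16346720) (l 16296840))) (a (b (l 16180696) (l 16128184)) (b (l 16239808) (l 16176056)))) (b (a (b (l 16006528) (b (l 16006408) (l 15941776))) (b (l 16085224) (l 16009952))) (a (b (a (l 15843096) (l 15904680)) (b (l 15784000) (a (b (l 15798872) (l 15774752)) (l 15812360)))) (b (l 15909128) (l 15731248))))) (b (b (a (b (l 16226224) (l 16210320)) (b (l 16359080) (l 16294600))) (a (b (l 16177520) (l 16048008)) (b (l 16202088) (l 16123888)))) (b (a (b (l 15912464)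 (a (l 15888664) (l 15947896))) (b (l 16039600) (l 15949928))) (a (b (a (l 15761968) (l 15846936)) (b (l 15672696) (a (b (l 15702312) (l 15674504)) (l 15716312)))) (b (l 15813784) (b (l 15803976) (l 15754432))))))), by decide +kernel⟩

def k14_pm_022 : ∃ t, chk3 f_pm_022 t 5 3 1 = true :=
  ⟨(b (a (b (a (b (c (l 16317944) (l 16319792)) (c (l 16277528) (l 16285112))) (b (c (l 16285880) (l 16320488)) (c (l 16254280) (l 16273072)))) (a (b (c (l 16229952) (l 16222408)) (c (l 16175608) (l 16153016))) (b (c (l 16215544) (l 16218624)) (l 16100880)))) (b (b (a (c (l 16250496) (l 16297608)) (c (l 16212504) (l 16272312))) (a (c (l 16227208) (l 16258032)) (c (l 16197008) (l 16240216)))) (b (a (c (l 16196792) (l 16211424)) (l 16145528)) (a (l 16137792) (l 16149944))))) (b (a (a (b (c (l 16115040) (l 16077472)) (c (l 16048936) (l 15996456))) (b (l 15999472) (c (l 16060616) (l 16017112)))) (a (b (l 16107272) (l 16029104)) (b (l 16106024) (l 16056288)))) (a (b (a (c (l 15978096) (l 15910792)) (c (l 15998216) (l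 15939392))) (a (c (l 15903432) (l 15800504)) (c (l 15931824) (l 15857864)))) (b (a (l 15904032) (l 16001464)) (a (c (l 15953520) (l 15888728)) (l 15942416)))))), by decide +kernel⟩

def k15_pm_022 : ∃ t, chk3 f_pm_022 t 3 3 1 = true :=
  ⟨(a (b (a (b (a (b (c (l 16172568) (l 16244824)) (c (l 16164352) (l 16219888))) (b (c (l 331818257527) (l 335576536167)) (c (l 16129600) (l 16197472)))) (c (a (l 16138304) (l 16113920)) (a (l 16147688) (l 16156536)))) (b (b (l 1) (a (l 328060045959) (l 1))) (a (b (l 16038456) (l 16105448)) (c (l 148208240983) (l 146060884935))))) (a (b (a (b (l 16101104) (l 16058440)) (b (l 16092984) (l 16057024))) (a (b (l 16010560) (l 15958296)) (c (l 16004456) (l 15980264)))) (b (c (a (l 16056648) (l 16039728)) (a (l 16078200) (l 16074032))) (a (c (l 16003104) (l 15991152)) (c (l 15998112) (l 15998848)))))) (a (a (b (a (b (l 1) (l 415033003063)) (l 1)) (b (c (l 16019624) (l 16067376)) (l 15891536))) (b (l 1) (b (b (l 383894441975) (l 16020464)) (l 15886040)))) (b (l 1) (b (a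 (b (l 1) (l 405906090807)) (l 1)) (c (a (l 15958720) (l 288331290679)) (a (l 16005432) (l 357050898759))))))), by decide +kernel⟩

theorem s16_pm_022 : ∃ t, chk3 f_pm_022 t 8 3 1 = true := ex3_b k11_pm_022 k12_pm_022

theorem s17_pm_022 : ∃ t, chk3 f_pm_022 t 4 3 1 = true := ex3_a s16_pm_022 k13_pm_022

theorem s18_pm_022 : ∃ t, chk3 f_pm_022 t 2 3 1 = true := ex3_a s17_pm_022 k14_pm_022

theorem s19_pm_022 : ∃ t, chk3 f_pm_022 t 1 3 1 = true := ex3_a s18_pm_022 k15_pm_022

theorem s20_pm_022 : ∃ t, chk3 f_pm_022 t 4 20 1 = true := ex3_a k5_pm_022 k6_pm_022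

theorem s21_pm_022 : ∃ t, chk3 f_pm_022 t 4 10 1 = true := ex3_b s20_pm_022 k7_pm_022

theorem s22_pm_022 : ∃ t, chk3 f_pm_022 t 4 5 1 = true := ex3_b s21_pm_022 k8_pm_022

theorem s23_pm_022 : ∃ t, chk3 f_pm_022 t 2 5 1 = true := ex3_a s22_pm_022 k9_pm_022

theorem s24_pm_022 : ∃ t, chk3 f_pm_022 t 1 5 1 = true := ex3_a s23_pm_022 k10_pm_022

theorem s25_pm_022 : ∃ t, chk3 f_pm_022 t 4 9 1 = true := ex3_b k1_pm_022 k2_pm_022

theorem s26_pm_022 : ∃ t, chk3 f_pm_022 t 2 9 1 = true := ex3_a s25_pm_022 k3_pm_022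

theorem s27_pm_022 : ∃ t, chk3 f_pm_022 t 2 4 1 = true := ex3_b k0_pm_022 s26_pm_022

theorem s28_pm_022 : ∃ t, chk3 f_pm_022 t 1 4 1 = true := ex3_a s27_pm_022 k4_pm_022

theorem s29_pm_022 : ∃ t, chk3 f_pm_022 t 1 2 1 = true := ex3_b s28_pm_022 s24_pm_022

theorem s30_pm_022 : ∃ t, chk3 f_pm_022 t 1 1 1 = true := ex3_b s29_pm_022 s19_pm_022

theorem c_pm_022 : CertB 0 536870912 1073741824 536870912 991146299 28908434 3 eng mog cd0q0 cd3q2 pd2 true true false .pp 0 2 2
    ndB0q0 ndB3q2 pcB2 Cut.none Ext.none :=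
  certB1 (fam := true) (s1 := true) (s2 := false) (a := 0) (b := 2) (c := 2) (cn := .pp) (n1 := ndB0q0) (n2 := ndB3q2) (pc := pcB2) (cut := Cut.none) (xt := Ext.none) (P1 := 0) (W1 := 536870912) (P2 := 1073741824) (W2 := 536870912) (P3 := 991146299) (W3 := 28908434) (N0 := 3) (En := eng) (mo := mog) (C1 := cd0q0) (C2 := cd3q2) (C3 := pd2)
    rfl (fun _ => rfl) s30_pm_022

noncomputable def f_pm_023 : ℕ → ℕ → ℕ → ℕ → Bool := onCell 0 536870912 1610612736 536870912 991146299 28908434
    (rowB 3 eng mog cd0q0 cd3q2 pd3 1 true true false .up 0 2 3 (qsf 0 536870912 1073741824 536870912 3) ndB0q0 ndB3q2 pcB3 Cut.none Ext.none)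

def k0_pm_023 : ∃ t, chk3 f_pm_023 t 4 2 1 = true :=
  ⟨(b (a (b (c (a (b (b (l 15653440) (l 15700752)) (l 15611808)) (b (b (l 15742216) (l 15782872)) (l 15678456))) (a (b (b (l 15550760) (l 15587144)) (l 15618272)) (b (a (l 15684632) (l 15728984)) (l 15683952)))) (b (a (l 2) (c (l 15663296) (l 15697744))) (l 2))) (c (b (b (a (b (a (l 15857952) (b (l 15868176) (l 15885720))) (l 15846976)) (b (a (l 15796392) (l 15952040)) (a (l 15873720) (l 15786576)))) (a (b (l 15809248) (l 15772888)) (l 15723504))) (a (b (l 15679248) (l 15658368)) (b (l 15766224) (l 15710808)))) (b (b (a (b (a (l 15835088) (l 15827536)) (l 15882432)) (b (a (l 15917616) (l 15997552)) (a (l 15951264) (l 15948784)))) (a (l 15807032) (l 15891488))) (a (b (l 15758592) (l 15675464)) (b (l 15807776) (l 15731120)))))) (b (a (l 2) (a (l 2) (b (l 15600000) (l 2)))) (l 2))), by decide +kernel⟩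

def k1_pm_023 : ∃ t, chk3 f_pm_023 t 5 2 1 = true :=
  ⟨(b (b (a (b (a (c (a (b (l 15979528) (l 15849904)) (l 15867904)) (b (l 16027640) (l 15875056))) (b (l 15881680) (c (l 15978768) (l 16045952)))) (a (b (c (a (l 15867480) (l 15819968)) (l 15824208)) (c (l 15841440) (l 15905264))) (c (b (l 15811384) (a (l 15860504) (l 15874208))) (b (l 15912944) (a (l 15929032) (l 15922440)))))) (b (a (b (l 15981136) (l 15905056)) (c (l 16085232) (l 16139736))) (a (c (b (l 15965648) (l 15907144)) (b (l 16028528) (l 15930600))) (c (l 15958768) (l 16037360))))) (a (b (c (a (l 15800648) (l 15825528)) (a (l 15805600) (l 15878976))) (c (a (l 15752064) (l 15783176)) (a (l 15776760) (l 15813456)))) (b (c (a (b (a (l 15853232) (l 15865912)) (l 15832816)) (b (l 15899296) (l 15812016))) (a (b (l 15883320) (l 15887952)) (b (l 15959840) (l 15913232)))) (a (c (l 15805528) (l 15842608)) (c (l 15823184) (l 15868456)))))) (b (a (b (a (l 15649528) (l 15688880)) (a (l 15670984) (l 15715648))) (b (c (l 15766280) (l 15804320))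 (a (l 15751168) (l 15778552)))) (a (b (a (l 2) (l 15690608)) (l 2)) (b (c (l 15760728) (l 15735032)) (l 15678640))))), by decide +kernel⟩

def k2_pm_023 : ∃ t, chk3 f_pm_023 t 2 3 1 = true :=
  ⟨(a (l 2) (b (b (a (l 2) (b (l 15706672) (l 2))) (l 2)) (l 2))), by decide +kernel⟩

def k3_pm_023 : ∃ t, chk3 f_pm_023 t 3 2 1 = true :=
  ⟨(b (a (b (a (b (a (l 15949584) (l 16055216)) (c (a (l 16016456) (l 16047288)) (a (l 16068472) (l 16094632)))) (b (a (l 16177288) (l 16190344)) (a (l 16009848) (l 16112864)))) (a (b (a (c (l 15916344) (l 15971200)) (c (l 15954568) (l 16003456))) (b (a (c (l 15847024) (l 15901816)) (l 15908880)) (a (l 15742640) (c (l 15841080) (l 15891272))))) (b (c (l 15896488) (l 15980184)) (a (l 15753920) (l 15889872))))) (b (a (b (a (l 16199504) (l 16204904)) (c (l 16115328) (l 16153544))) (b (c (l 16173000) (l 16195232)) (c (l 16127112) (l 16168280)))) (a (c (b (l 16045496) (l 15974304)) (b (l 16081208) (l 16008296))) (c (b (l 16068648) (l 16009016)) (l 15914680))))) (a (b (a (b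 (a (l 15779776) (b (l 15820696) (l 15826008))) (a (l 15798640) (l 15812248))) (b (a (b (l 15669504) (l 15836192)) (c (l 15853208) (l 15893216))) (a (l 15820088) (b (l 15831304) (l 15820808))))) (a (b (a (l 15785976) (l 15802832)) (l 15775248)) (c (l 15803024) (l 15814672)))) (b (a (b (c (l 15903136) (l 15936200)) (a (c (l 15824248) (l 15856560)) (l 15823912))) (b (c (l 15949552) (l 15977512)) (c (l 15891544) (l 15916224)))) (a (b (a (l 15821848) (l 15678592)) (l 15807304)) (b (a (l 15666880) (l 15859304)) (a (l 15825208) (l 15824720))))))), by decide +kernel⟩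

def k4_pm_023 : ∃ t, chk3 f_pm_023 t 3 3 1 = true :=
  ⟨(a (a (b (b (b (l 15810096) (l 15837384)) (b (l 15629872) (l 2))) (l 2)) (b (b (b (l 15820896) (l 15874144)) (b (l 15919032) (a (l 15961128) (l 15980824)))) (b (b (b (l 15980192) (l 2)) (l 2)) (l 2)))) (b (b (a (c (l 15883888) (l 15850504)) (c (l 15869728) (l 15848720))) (a (b (l 15934784) (l 15992848)) (b (l 15930048) (l 15992712)))) (a (b (b (b (l 16029920) (l 16030720)) (l 16022352)) (l 4)) (b (b (a (l 16052040) (l 16054856)) (b (l 16062320) (l 16055432))) (b (l 16062352) (l 4)))))), by decide +kernel⟩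

theorem s5_pm_023 : ∃ t, chk3 f_pm_023 t 3 1 1 = true := ex3_b k3_pm_023 k4_pm_023

theorem s6_pm_023 : ∃ t, chk3 f_pm_023 t 2 2 1 = true := ex3_a k0_pm_023 k1_pm_023

theorem s7_pm_023 : ∃ t, chk3 f_pm_023 t 2 1 1 = true := ex3_b s6_pm_023 k2_pm_023

theorem s8_pm_023 : ∃ t, chk3 f_pm_023 t 1 1 1 = true := ex3_a s7_pm_023 s5_pm_023

theorem c_pm_023 : CertB 0 536870912 1073741824 536870912 991146299 28908434 3 eng mog cd0q0 cd3q2 pd3 true true false .up 0 2 3
    ndB0q0 ndB3q2 pcB3 Cut.none Ext.none :=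
  certB1 (fam := true) (s1 := true) (s2 := false) (a := 0) (b := 2) (c := 3) (cn := .up) (n1 := ndB0q0) (n2 := ndB3q2) (pc := pcB3) (cut := Cut.none) (xt := Ext.none) (P1 := 0) (W1 := 536870912) (P2 := 1073741824) (W2 := 536870912) (P3 := 991146299) (W3 := 28908434) (N0 := 3) (En := eng) (mo := mog) (C1 := cd0q0) (C2 := cd3q2) (C3 := pd3)
    rfl (fun _ => rfl) s8_pm_023

noncomputable def f_pm_033 : ℕ → ℕ → ℕ → ℕ → Bool := onCell 1610612736 536870912 0 1230186008 991146299 28908434
    (rowB 3 eng mog cd0q0 cd3q3 pd3 2 true true false .pnn 0 3 3 (qsf 0 536870912 0 1230186008 3) ndB0q0 ndB3q3 pcB3 Cut.none Ext.none)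

def k0_pm_033 : ∃ t, chk3 f_pm_033 t 2 2 1 = true :=
  ⟨(l 1), by decide +kernel⟩

def k1_pm_033 : ∃ t, chk3 f_pm_033 t 2 6 1 = true :=
  ⟨(a (l 1) (a (l 1) (b (l 1) (b (l 1) (a (l 1) (b (l 1) (l 15157312))))))), by decide +kernel⟩

def k2_pm_033 : ∃ t, chk3 f_pm_033 t 2 14 1 = true :=
  ⟨(a (l 1) (a (b (a (l 1) (b (l 1) (l 15211808))) (a (b (l 1) (c (l 15402384) (l 15297264))) (b (l 15233440) (c (l 15432328) (l 15422992))))) (b (a (b (l 15190584) (l 15311664)) (b (l 15274080) (l 15373352))) (a (b (l 15165856) (c (l 15478744) (l 15535912))) (b (l 15331224) (l 15438168)))))), by decide +kernel⟩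

def k3_pm_033 : ∃ t, chk3 f_pm_033 t 2 15 1 = true :=
  ⟨(a (b (a (l 1) (a (b (l 1) (c (b (l 15434488) (l 15487264)) (b (l 15231696) (l 15218496)))) (b (c (l 15443144) (l 15105696)) (c (b (l 15549360) (l 15616808)) (a (l 15356512) (l 15469832)))))) (b (a (a (l 1) (a (b (l 1) (c (l 166460802199) (l 15275408))) (c (c (l 15573680) (l 15414144)) (b (l 15281272) (l 15354360))))) (a (a (c (l 15502592) (l 15205144)) (c (l 15558752) (l 15260648))) (c (b (l 15668832) (l 15699848)) (a (l 15419752) (l 15617912))))) (b (a (a (a (l 1) (c (c (l 15567680) (l 15454832)) (a (l 15249440) (l 15290680)))) (c (c (l 15633392) (l 15470736)) (b (l 15139528) (l 15197864)))) (a (c (l 15597512) (l 15316736)) (c (l 15772848) (l 15697424)))) (a (a (c (a (c (l 15476368) (l 15439840)) (c (l 15621576) (l 15530360))) (c (a (l 15331664) (l 15409328)) (a (l 15193800) (l 15279512)))) (c (a (l 15522320) (l 15667864)) (c (l 15355752) (l 15198808)))) (a (c (l 15649992) (a (l 15588800) (l 15666048))) (c (l 15802120) (l 15729800)))))))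 (b (a (b (a (c (l 15440256) (l 15369336)) (c (l 15532632) (l 15557608))) (a (c (l 15395344) (a (l 15539496) (l 15606544))) (c (l 15635144) (l 15701032)))) (b (a (c (l 15579728) (l 15673776)) (l 15683728)) (a (l 15567128) (l 15780016)))) (a (b (a (c (l 15582704) (l 15532296)) (c (l 15729928) (l 15831168))) (c (a (l 15804344) (l 15821312)) (a (l 15855192) (l 15957248)))) (b (a (l 15581464) (l 15829680)) (a (c (l 15848384) (l 16006120)) (l 15854784)))))), by decide +kernel⟩

def k4_pm_033 : ∃ t, chk3 f_pm_033 t 3 1 1 = true :=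
  ⟨(a (b (l 1) (b (b (a (l 1) (l 4)) (a (a (b (l 14895824) (b (l 15080920) (l 15212304))) (b (l 14965952) (b (l 15139880) (l 15260960)))) (a (b (a (l 15041792) (l 15103080)) (a (l 15256536) (l 15261176))) (b (l 4) (b (l 4) (l 15435488)))))) (b (a (b (a (b (a (l 15330352) (l 15352736)) (a (l 15432376) (l 15480616))) (b (l 15387464) (l 15519472))) (a (b (l 15536960) (l 15651696)) (b (a (l 15620280) (l 15647536)) (l 15690304)))) (b (a (b (l 15453256) (l 15561296)) (a (l 15554688) (l 15595656))) (a (b (l 15672256) (l 15780368)) (a (l 15754544) (l 15775800))))) (a (b (a (b (l 15745720) (l 15835280)) (b (l 15817688) (l 15900344))) (b (a (l 15921448) (l 15981488)) (a (l 16004000) (l 16058880)))) (b (a (b (a (l 15873432) (l 15891048)) (l 15972392)) (b (l 15908848) (l 16006016))) (a (b (l 16047552) (l 16121360)) (b (l 16073672) (l 16176880)))))))) (b (l 4) (b (l 4) (b (a (a (b (l 4) (a (l 15803800) (l 15838800))) (l 4)) (l 4)) (a (a (b (a (l 15973824) (l 15988464)) (b (l 16105776) (l 16193760))) (b (a (l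 16010656) (l 4)) (a (l 16150520) (l 16142136)))) (l 4)))))), by decide +kernel⟩

theorem s5_pm_033 : ∃ t, chk3 f_pm_033 t 2 7 1 = true := ex3_b k2_pm_033 k3_pm_033

theorem s6_pm_033 : ∃ t, chk3 f_pm_033 t 2 3 1 = true := ex3_b k1_pm_033 s5_pm_033

theorem s7_pm_033 : ∃ t, chk3 f_pm_033 t 2 1 1 = true := ex3_b k0_pm_033 s6_pm_033

theorem s8_pm_033 : ∃ t, chk3 f_pm_033 t 1 1 1 = true := ex3_a s7_pm_033 k4_pm_033

theorem c_pm_033 : CertB 0 536870912 0 1230186008 991146299 28908434 3 eng mog cd0q0 cd3q3 pd3 true true false .pnn 0 3 3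
    ndB0q0 ndB3q3 pcB3 Cut.none Ext.none :=
  certB2 (fam := true) (s1 := true) (s2 := false) (a := 0) (b := 3) (c := 3) (cn := .pnn) (n1 := ndB0q0) (n2 := ndB3q3) (pc := pcB3) (cut := Cut.none) (xt := Ext.none) (P1 := 0) (W1 := 536870912) (P2 := 0) (W2 := 1230186008) (P3 := 991146299) (W3 := 28908434) (N0 := 3) (En := eng) (mo := mog) (C1 := cd0q0) (C2 := cd3q3) (C3 := pd3)
    rfl (fun _ => rfl) s8_pm_033

noncomputable def xt_pm_101 : Ext := extD3 3 ⟨4, 1, 1, 5, 22, 5, 21, 25, 41, 100, 1, 20⟩ eng cd0q1 cd3q0 pd1 true true false .npn 1 0 1 rfl ndB0q1 ndB3q0 pcB1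

noncomputable def f_pm_101 : ℕ → ℕ → ℕ → ℕ → Bool := onCell 536870912 536870912 0 536870912 991146299 28908434
    (rowB 3 eng mog cd0q1 cd3q0 pd1 2 true true false .npn 1 0 1 (qsf 536870912 536870912 0 536870912 1) ndB0q1 ndB3q0 pcB1 Cut.none xt_pm_101)

def k0_pm_101 : ∃ t, chk3 f_pm_101 t 2 1 1 = true :=
  ⟨(l 3), by decide +kernel⟩

def k1_pm_101 : ∃ t, chk3 f_pm_101 t 6 2 1 = true :=
  ⟨(l 3), by decide +kernel⟩

def k2_pm_101 : ∃ t, chk3 f_pm_101 t 14 2 1 = true :=
  ⟨(l 3), by decide +kernel⟩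

def k3_pm_101 : ∃ t, chk3 f_pm_101 t 30 2 1 = true :=
  ⟨(b (b (l 3) (l 3)) (l 3)), by decide +kernel⟩

def k4_pm_101 : ∃ t, chk3 f_pm_101 t 248 2 1 = true :=
  ⟨(b (a (b (l 3) (l 3)) (b (b (a (b (l 3) (l 3)) (c (b (b (c (b (b (a (b (a (c (l 459729230551) (l 458655491127)) (l 16758880)) (l 402284045447)) (l 16766560)) (l 371682418103)) (l 437717584615)) (b (b (a (b (a (c (l 458118622679) (l 455971141543)) (l 16761368)) (l 404431533191)) (l 16768864)) (l 372756164087)) (a (l 443086289447) (l 16789216)))) (b (a (l 392620485687) (l 16812624)) (b (l 16792240) (l 353965699335)))) (b (a (l 6540288684259504729583747311) (l 144318700670173487)) (l 5911647258059456585687924847))) (b (c (b (b (b (a (a (a (l 3) (b (c (l 419463912359) (l 420537656663)) (l 418390184919))) (c (l 16746224) (l 16757920))) (l 16750304)) (c (l 374366782023) (l 397452241287))) (b (l 394231037911) (l 433959525783))) (b (l 280414449479) (l 6869116507194464169103704303))) (c (b (a (b (b (a (a (l 3) (c (l 418927045943) (l 420000789351)))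 (l 16759160)) (l 433959460215)) (l 445770644519)) (b (l 16759592) (l 16789552))) (b (l 319606025975) (l 320679737111))) (b (a (b (a (b (b (c (l 451676184167) (l 451139304167)) (l 450065575847)) (l 450602457767)) (b (l 16760432) (l 16764256))) (b (l 435033232679) (l 438791358615))) (b (l 16760640) (l 16789664))) (b (c (l 344838978535) (l 362018846855)) (b (l 329269688967) (l 334101500327)))))) (c (b (l 6259817894108928765579853935) (l 6018032730185725166380335151)) (b (c (l 6308174926893547811290611823) (b (l 6404888992462783085243613295) (l 6288832113779909869894008879))) (l 6085732576083977686740615215)))))) (c (b (b (l 5950332884286522736501309487) (b (l 320142295031) (l 5544133808894951321587105839))) (b (l 5041805902131091007747563567) (l 586538866923456644358703))) (b (b (l 6008361323627548985670909999) (b (l 326047820967) (l 140847060619903023))) (b (l 5699457445040010387598860847) (l 572503485316445262570031))))) (b (b (b (c (l 582941324080851800953391) (l 570260052221304387490351)) (l 3))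 (l 3)) (l 3)))) (b (l 3) (l 3))), by decide +kernel⟩

def k5_pm_101 : ∃ t, chk3 f_pm_101 t 249 2 1 = true :=
  ⟨(c (b (b (b (b (a (b (b (b (l 16758056) (l 16774912)) (l 16779568)) (l 143711564194709743)) (b (l 16759576) (l 16735376))) (b (a (l 143899992867291375) (l 16671488)) (l 143212935373963375))) (b (b (l 142845629710172207) (b (l 16529712) (l 142013711566667823))) (b (l 584439398579905566171183) (l 587702164952708607664687)))) (b (b (b (l 583908048762464681366063) (l 580737226394419498029615)) (b (l 577837340579956965872175) (l 16001480))) (b (l 207935229127) (l 202029541591)))) (b (b (b (l 15863880) (l 15833712)) (b (l 15839440) (l 15856368))) (b (b (l 221356808311) (l 223504395351)) (b (l 211156504631) (c (l 15975648) (l 16005808)))))) (b (b (b (b (b (b (a (a (c (l 16764968) (l 16767096)) (l 16775240)) (l 16788936)) (c (l 16789400) (l 16789808))) (c (l 143749084967846127) (l 602176810438301505529071))) (b (a (b (l 144182911052284015) (l 144152743141294127)) (l 16683976)) (l 143262275957211183)))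 (b (b (l 142971798684565551) (b (l 16430512) (l 139715250849284143))) (b (l 576454261077146065347119) (l 573722700051864802484783)))) (b (b (b (l 571303734413349781377583) (b (l 15918480) (l 15885168))) (b (b (l 15855464) (l 15829664)) (l 15797952))) (b (l 15752584) (l 15719904)))) (b (b (b (l 212229831879) (l 15798872)) (b (l 221893351303) (l 227799005527))) (a (l 3) (b (b (l 213840422247) (c (l 15847088) (l 15817200))) (c (b (l 15886736) (l 15929512)) (b (l 235315399655) (l 242294820935)))))))), by decide +kernel⟩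

def k6_pm_101 : ∃ t, chk3 f_pm_101 t 125 2 1 = true :=
  ⟨(c (b (b (b (b (b (l 143123531487920239) (l 142923489014104175)) (b (l 142161321214197999) (l 141778828557517039))) (b (b (l 141949115276951663) (b (l 16462632) (l 140967045080301615))) (b (l 580290321336361313984559) (l 588139122598297848602671)))) (b (b (b (l 585633684024485047947823) (l 582177513584049649816111)) (b (l 578944433454755723006511) (l 16009208))) (b (l 15929040) (l 15861920)))) (b (b (b (l 15826304) (l 15812792)) (b (l 15815376) (l 15829984))) (b (b (l 15853736) (l 15884504)) (b (l 15983528) (c (l 15975832) (l 15943744)))))) (b (b (b (b (a (l 597630551903546000451183) (l 142878202888896623)) (b (a (l 16647512) (l 16641424)) (l 142150944563789871))) (b (b (l 16502504) (b (l 16495792) (l 140655127321853999))) (b (l 579027582576642240161327) (l 576006061570026336428591)))) (b (b (b (l 573406375007376607367727) (a (l 15923720) (l 15945784))) (b (b (l 15882896) (l 15852872)) (l 15814736))) (b (l 15759192) (l 15716752)))) (b (b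 (b (l 15699392) (l 15699624)) (b (l 15712648) (l 15735208))) (b (b (a (l 15773184) (l 15757096)) (a (c (l 15833232) (l 15783048)) (l 15791632))) (b (c (l 15862584) (a (l 15823968) (l 15805808))) (c (l 15925424) (b (l 15846976) (l 15869248)))))))), by decide +kernel⟩

def k7_pm_101 : ∃ t, chk3 f_pm_101 t 63 2 1 = true :=
  ⟨(b (b (b (b (b (a (l 142079819959435375) (l 16541848)) (a (l 141690798889533551) (l 141801712021422191))) (a (b (l 141475431934001263) (l 140346576967991407)) (l 139803624168783983))) (b (b (a (c (l 16428272) (l 16454392)) (l 139562556230565999)) (b (a (l 140604824613077039) (l 16239928)) (a (l 139047984788766767) (l 138435350519037999)))) (b (c (a (l 578417399861470249443375) (l 577183196291414254313583)) (a (l 581427677756135825694767) (l 16255456))) (c (l 576705598040535867596847) (l 580439045704668146294831))))) (b (b (b (a (l 582351028270493040170543) (l 583946959863245116690479)) (c (l 584741322779919180255279) (l 575163139150021240787503))) (b (c (l 581274199585190044946991)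 (a (l 15900328) (l 15929640))) (a (l 15932096) (l 15942336)))) (c (a (l 15880760) (l 15868864)) (a (l 15737592) (l 15742336))))) (b (b (c (a (l 15793248) (l 15771088)) (a (l 15725040) (l 15671848))) (b (a (l 15741744) (l 15718600)) (c (l 15781224) (l 15695840)))) (b (c (b (l 15801512) (l 15871456)) (a (b (l 15734592) (l 15767064)) (l 15722056))) (c (b (a (l 15881840) (l 15846064)) (a (l 15920776) (l 15883712))) (b (a (l 15804184) (l 15772304)) (a (l 15865776) (l 15810848))))))), by decide +kernel⟩

def k8_pm_101 : ∃ t, chk3 f_pm_101 t 6 3 1 = true :=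
  ⟨(l 3), by decide +kernel⟩

def k9_pm_101 : ∃ t, chk3 f_pm_101 t 14 3 1 = true :=
  ⟨(l 3), by decide +kernel⟩

def k10_pm_101 : ∃ t, chk3 f_pm_101 t 30 3 1 = true :=
  ⟨(l 3), by decide +kernel⟩

def k11_pm_101 : ∃ t, chk3 f_pm_101 t 62 6 1 = true :=
  ⟨(a (b (b (l 3) (l 3)) (l 3)) (c (b (b (b (a (l 197197664007) (l 15993256)) (a (l 15970904) (l 16031680))) (b (c (l 114519828007) (l 16010832)) (c (l 146195149879) (a (l 179481158151) (l 16030392))))) (b (c (b (l 163911832503) (a (l 207935192903) (l 15961200))) (a (b (l 16048528) (l 198808517927)) (b (l 16017376) (l 16004288)))) (b (a (b (l 206324645575) (l 211156467799)) (b (l 15973352) (l 15967704))) (a (b (l 215451419943) (l 220283244103)) (b (l 15962544) (l 15957920)))))) (c (b (b (b (a (l 15959168) (l 15938696)) (a (l 218135638103) (l 15984464))) (b (a (l 201492804615) (l 16031352)) (a (l 16030296) (l 16071760)))) (b (b (a (l 200956037415) (l 16060864)) (b (l 214914575415) (l 152637724327))) (a (b (l 200956084343) (l 217599040519)) (b (l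 16036752) (l 16026072))))) (b (b (b (a (b (l 15902104) (l 15925512)) (l 15893736)) (a (b (l 15949264) (l 15983768)) (l 15940504))) (b (a (b (l 178944262471) (l 226725651319)) (l 15904456)) (b (a (l 230483796615) (l 16024600)) (a (l 233705074919) (l 16048864))))) (b (a (b (b (l 236926353735) (l 239610758359)) (a (l 3) (l 219746524183))) (b (l 16022224) (l 16073112))) (c (a (b (l 200419277079) (l 221894070647)) (b (l 16071144) (l 16060440))) (a (b (l 249274460615) (l 212230458263)) (b (l 16073520) (l 16083856))))))))), by decide +kernel⟩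

def k12_pm_101 : ∃ t, chk3 f_pm_101 t 62 7 1 = true :=
  ⟨(a (l 3) (a (a (l 3) (b (b (b (c (b (l 221893825847) (l 320141188775)) (c (l 323899427847) (l 360943647495))) (l 3)) (l 3)) (l 3))) (b (b (c (b (b (l 15943408) (l 15940024)) (b (l 15937312) (l 15935312))) (c (b (l 16017288) (l 16003016)) (b (b (l 16065064) (l 16060976)) (b (l 16057456) (l 16054552))))) (c (b (b (l 15928824) (l 15928368)) (b (l 15926096) (l 15924672))) (b (c (l 177870477159) (l 171428149639)) (c (l 187534141895) (l 182702424519))))) (b (c (b (b (l 15926744) (l 15929712)) (l 198271462327)) (b (c (l 15988392) (l 191829227687)) (c (l 15994720) (l 16036112)))) (b (c (l 207398287511) (l 201492918663)) (c (l 15963224) (l 16069872))))))), by decide +kernel⟩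

def k13_pm_101 : ∃ t, chk3 f_pm_101 t 63 3 1 = true :=
  ⟨(a (b (b (b (c (b (l 15962816) (l 15997256)) (b (c (l 15909336) (l 15865168)) (c (l 15912224) (l 15910768)))) (b (c (l 15988720) (a (l 15885016) (l 15948856))) (c (c (l 15956312) (l 15997992)) (a (l 15932400) (l 15995696))))) (b (c (b (c (l 15943344) (l 15986248)) (a (l 15962664) (l 15942760))) (b (a (l 15999400) (l 16020968)) (c (l 15998160) (l 16064848)))) (c (b (a (l 15951416) (l 15932360)) (a (l 15941952) (l 15923728))) (c (b (l 16008544) (l 15999168)) (b (l 16023416) (a (l 16054392) (l 16036704))))))) (b (b (c (b (a (l 15934728) (l 15917296)) (b (l 15922568) (l 15900168))) (b (c (l 15991632) (l 16058592)) (c (l 15986416) (l 16042296)))) (c (b (b (l 15899480) (l 15899568)) (b (l 15900448) (l 15902168))) (b (c (l 15962920) (l 16028528)) (c (l 15963400) (l 16028136))))) (b (c (b (b (l 15904744) (l 15908200)) (a (l 15922088) (l 15929088))) (b (c (l 15967168) (l 16030944)) (c (l 15974456) (l 16037216)))) (c (b (l 15927648) (l 15944152))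 (b (b (l 16023608) (l 16029824)) (l 16041064)))))) (c (b (b (b (l 15820264) (b (l 15944384) (l 15934088))) (b (b (l 15923224) (l 15912872)) (b (l 15903712) (l 15896288)))) (b (b (b (l 15891024) (l 15888280)) (b (l 15888352) (l 15870520))) (b (b (l 15876976) (l 15886944)) (b (l 15921600) (l 15939192))))) (b (b (b (b (l 15852336) (l 15895976)) (b (l 15941072) (l 15966056))) (b (b (l 15990544) (l 15981968)) (b (l 15952312) (l 15902624)))) (b (b (b (l 15896496) (l 15997368)) (b (l 15974952) (l 15976384))) (b (b (l 15980976) (l 15988992)) (b (l 16000656) (l 16016184))))))), by decide +kernel⟩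

theorem s14_pm_101 : ∃ t, chk3 f_pm_101 t 62 3 1 = true := ex3_b k11_pm_101 k12_pm_101

theorem s15_pm_101 : ∃ t, chk3 f_pm_101 t 31 3 1 = true := ex3_a s14_pm_101 k13_pm_101

theorem s16_pm_101 : ∃ t, chk3 f_pm_101 t 15 3 1 = true := ex3_a k10_pm_101 s15_pm_101

theorem s17_pm_101 : ∃ t, chk3 f_pm_101 t 7 3 1 = true := ex3_a k9_pm_101 s16_pm_101

theorem s18_pm_101 : ∃ t, chk3 f_pm_101 t 3 3 1 = true := ex3_a k8_pm_101 s17_pm_101

theorem s19_pm_101 : ∃ t, chk3 f_pm_101 t 124 2 1 = true := ex3_a k4_pm_101 k5_pm_101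

theorem s20_pm_101 : ∃ t, chk3 f_pm_101 t 62 2 1 = true := ex3_a s19_pm_101 k6_pm_101

theorem s21_pm_101 : ∃ t, chk3 f_pm_101 t 31 2 1 = true := ex3_a s20_pm_101 k7_pm_101

theorem s22_pm_101 : ∃ t, chk3 f_pm_101 t 15 2 1 = true := ex3_a k3_pm_101 s21_pm_101

theorem s23_pm_101 : ∃ t, chk3 f_pm_101 t 7 2 1 = true := ex3_a k2_pm_101 s22_pm_101

theorem s24_pm_101 : ∃ t, chk3 f_pm_101 t 3 2 1 = true := ex3_a k1_pm_101 s23_pm_101

theorem s25_pm_101 : ∃ t, chk3 f_pm_101 t 3 1 1 = true := ex3_b s24_pm_101 s18_pm_101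

theorem s26_pm_101 : ∃ t, chk3 f_pm_101 t 1 1 1 = true := ex3_a k0_pm_101 s25_pm_101

theorem c_pm_101 : CertB 536870912 536870912 0 536870912 991146299 28908434 3 eng mog cd0q1 cd3q0 pd1 true true false .npn 1 0 1
    ndB0q1 ndB3q0 pcB1 Cut.none xt_pm_101 :=
  certB2 (fam := true) (s1 := true) (s2 := false) (a := 1) (b := 0) (c := 1) (cn := .npn) (n1 := ndB0q1) (n2 := ndB3q0) (pc := pcB1) (cut := Cut.none) (xt := xt_pm_101) (P1 := 536870912) (W1 := 536870912) (P2 := 0) (W2 := 536870912) (P3 := 991146299) (W3 := 28908434) (N0 := 3) (En := eng) (mo := mog) (C1 := cd0q1) (C2 := cd3q0) (C3 := pd1)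
    rfl (fun _ => rfl) s26_pm_101

end Pool.Agent.Strip051.G.I9231_9500.Tab.C.BA03

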