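import Pool.Agent.Strip051.G.I9231_9500.Tab
import Pool.Agent.Strip051.PB.ExtD3

/-! # Certificates B11 (generated) -/

set_option linter.all false
set_option maxRecDepth 100000

namespace Pool.Agent.Strip051.G.I9231_9500.Tab.C.BA03

open Pool.Agent.Strip051.PB Pool.Agent.Strip051.PB.T
open Pool.Agent.Strip051.G.I9231_9500.Tab

noncomputable def xt_pm_102 : Ext := extD3 3 ⟨4, 1, 1, 5, 22, 5, 21, 25, 41, 100, 1, 20⟩ eng cd0q1 cd3q0 pd2 true true false .npp 1 0 2 rfl ndB0q1 ndB3q0 pcB2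

noncomputable def f_pm_102 : ℕ → ℕ → ℕ → ℕ → Bool := onCell 536870912 536870912 1073741824 536870912 991146299 28908434
    (rowB 3 eng mog cd0q1 cd3q0 pd2 1 true true false .npp 1 0 2 (qsf 536870912 536870912 0 536870912 2) ndB0q1 ndB3q0 pcB2 Cut.none xt_pm_102)

def k0_pm_102 : ∃ t, chk3 f_pm_102 t 4 2 1 = true :=
  ⟨(b (b (a (b (a (b (c (a (l 15917664) (l 15898784)) (a (l 15996808) (l 15980952))) (c (l 15887784) (a (l 15977104) (l 15958600)))) (b (c (a (l 15883824) (l 15872608)) (a (l 15969040) (l 15981856))) (c (b (l 15858384) (l 15845728)) (a (l 15944072) (l 15933336))))) (a (b (c (l 15869768) (l 15948064)) (l 2)) (b (c (l 15827496) (l 15912664)) (c (l 15805048) (l 15888840))))) (b (c (a (b (a (l 15864952) (l 15860664)) (a (l 15814032) (l 15807016))) (b (a (l 15859528) (l 15861312)) (a (l 15824208) (l 15823448)))) (a (b (a (l 15982488) (b (l 15962728) (l 15947016))) (a (l 15926208) (l 15922480))) (b (a (b (l 15964952) (l 15948288)) (b (l 15969896) (l 15952400)))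 (a (l 15921928) (l 15924320))))) (a (b (c (l 15800040) (l 15892128)) (c (l 15770400) (l 15861216))) (b (c (l 15786032) (a (l 15885560) (l 15885016))) (c (l 15749240) (l 15846984)))))) (a (b (a (l 2) (b (c (l 15785408) (l 15867640)) (l 2))) (l 2)) (b (a (b (c (l 15743040) (l 15832288)) (c (l 15718640) (l 15806128))) (b (c (l 15714168) (l 15810296)) (c (l 15681640) (l 15775848)))) (a (b (c (l 15697712) (l 15783368)) (l 2)) (b (c (l 15652320) (l 15744440)) (c (l 15626720) (l 15716688))))))) (b (b (b (a (l 2) (a (l 2) (c (l 15605296) (l 15693080)))) (l 2)) (l 2)) (l 2))), by decide +kernel⟩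

def k1_pm_102 : ∃ t, chk3 f_pm_102 t 5 4 1 = true :=
  ⟨(b (a (b (a (c (b (a (l 15865760) (l 15872568)) (a (l 15825488) (l 15830104))) (b (a (b (l 15977232) (l 15959040)) (c (l 15950552) (l 16004856))) (a (l 15929392) (l 15936856)))) (a (c (b (l 15881400) (l 15837016)) (b (l 15917416) (l 15946392))) (c (b (l 15912832) (l 15845944)) (b (l 15957920) (l 15957568))))) (a (b (c (l 15783960) (a (l 15887256) (l 15892040))) (c (l 15740160) (l 15844528))) (c (b (l 15792104) (l 15741576)) (b (a (l 15899096) (l 15908128)) (l 15852096))))) (b (c (a (b (a (l 15903552) (l 15915808)) (a (l 15856704) (l 15868912))) (b (a (l 15927504) (l 15936840)) (l 15867744))) (a (a (b (l 15969464) (l 15969744)) (b (l 15953856) (l 15982248))) (b (a (l 15955920) (l 15938752)) (l 15936800)))) (c (a (b (l 15808920) (l 15752176)) (b (l 15790528) (l 15770504))) (a (b (a (l 15918616) (l 15930128)) (l 15846224)) (b (l 15948440) (l 15845224)))))) (a (b (a (b (c (l 15697432) (l 15800144)) (c (l 15656808)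 (l 15757432))) (b (c (l 15691352) (l 15800200)) (c (l 15642744) (l 15749304)))) (a (b (c (l 15619120) (l 15717368)) (c (l 15584928) (l 15680656))) (b (c (l 15596760) (l 15700640)) (c (l 15556128) (l 15657056))))) (b (c (a (b (l 15694760) (l 15638344)) (b (l 15706408) (l 15642784))) (a (b (l 15808160) (l 15749280)) (b (l 15821672) (l 15755464)))) (a (b (c (l 15585504) (l 15693424)) (c (l 15520408) (l 15645856))) (b (c (l 15587904) (l 15697160)) (c (l 15540320) (l 15645824))))))), by decide +kernel⟩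

def k2_pm_102 : ∃ t, chk3 f_pm_102 t 5 5 1 = true :=
  ⟨(b (a (b (b (a (c (l 15556984) (l 15650040)) (c (l 15523032) (l 15620816))) (a (c (l 15535120) (l 15625440)) (c (l 15494680) (l 15589200)))) (a (c (l 15510256) (l 15596456)) (c (l 15458072) (l 15547664)))) (c (b (a (l 15484904) (l 15473472)) (a (l 15418968) (l 15392272))) (b (a (l 15583928) (l 15572712)) (a (l 15510288) (l 15482568))))) (b (a (a (l 2) (l 107471752967)) (a (c (l 15365416) (l 15448968)) (b (l 15379144) (l 15344936)))) (a (l 2) (a (l 15362720) (l 15300120))))), by decide +kernel⟩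

def k3_pm_102 : ∃ t, chk3 f_pm_102 t 2 3 1 = true :=
  ⟨(b (a (l 2) (a (l 2) (a (l 2) (b (b (l 15253120) (l 2)) (l 2))))) (l 2)), by decide +kernel⟩

def k4_pm_102 : ∃ t, chk3 f_pm_102 t 6 2 1 = true :=
  ⟨(a (a (c (b (b (b (b (a (l 15925128) (l 15891224)) (l 15913504)) (b (l 15859656) (l 15794376))) (b (b (l 15724048) (l 15658960)) (l 15387808))) (b (b (l 15473016) (l 15376736)) (l 15189040))) (b (b (b (b (a (l 15903064) (l 15870600)) (l 15965288)) (b (l 15972168) (l 15909944))) (b (b (l 15817720) (l 15770944)) (l 15536040))) (b (b (l 15570032) (l 15463432)) (l 15175440)))) (b (b (b (b (c (b (l 15828832) (l 15867584)) (b (l 15801112) (l 15856120))) (c (l 15909272) (l 15919368))) (b (c (l 15885856) (l 15971776)) (c (l 15821232) (l 15933920)))) (b (c (b (l 15749336) (l 15685912)) (b (l 15862448) (l 15796240))) (c (l 15598320) (l 15702424)))) (b (b (c (l 15481760) (l 15575336)) (l 15158784)) (b (l 15301432) (l 15203040))))) (b (b (b (a (b (c (b (l 15796248) (l 15837464))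 (b (l 15765968) (l 15826664))) (c (l 15881840) (l 15896816))) (b (c (l 15893872) (l 15889856)) (c (l 15890448) (l 15909856)))) (b (a (l 15768344) (l 15819408)) (c (a (l 15849248) (l 15885976)) (a (l 15957832) (l 15990424))))) (b (a (b (c (l 15784016) (l 15895520)) (l 15587712)) (c (l 15799000) (l 15908896))) (c (a (l 15627432) (l 15662456)) (a (l 15729312) (l 15762056))))) (b (b (c (a (l 15497896) (l 15519584)) (a (l 15587776) (l 15605480))) (c (l 15290432) (l 15426544))) (b (c (l 15247288) (l 15304712)) (c (l 15129440) (l 15170312)))))), by decide +kernel⟩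

def k5_pm_102 : ∃ t, chk3 f_pm_102 t 14 4 1 = true :=
  ⟨(b (b (a (b (c (l 15958128) (l 15881064)) (c (l 15951016) (l 15976376))) (b (a (b (b (c (l 580637786914647006548527) (l 576219503478617241227823)) (l 16037592)) (l 16046592)) (b (c (a (l 585558744126685421555759) (l 584818280290351804551215)) (a (l 581355768781640990364207) (l 583922748511648311775279))) (c (l 578892263756672461854767) (l 579632727593006156602927)))) (a (l 16063656) (b (c (l 579754360811742152628271) (l 580799195925292161588783)) (l 16141912))))) (a (b (c (l 15951880) (l 16027768)) (c (l 15939120) (l 16046216))) (b (c (l 16023696) (l 16136928)) (c (l 16008472) (l 16124784))))) (b (a (c (l 15850112) (l 15960080)) (c (l 15900232) (l 16009784))) (a (c (l 15700344) (l 15797904)) (c (l 15735424) (l 15830968))))), by decide +kernel⟩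

def k6_pm_102 : ∃ t, chk3 f_pm_102 t 30 8 1 = true :=
  ⟨(b (b (a (b (a (c (l 576959816938044726370415) (l 585325992401785702965295)) (c (b (l 576406415038526947534063) (l 579504314760971855785199)) (l 575251476876694118146095))) (c (a (l 581887265595264966318127) (l 580096051222040120978671)) (l 580702200559125879744559))) (b (a (a (b (a (l 138997956886642799) (l 138737441344258159)) (l 579691953525433500659311)) (b (l 137340649230893295) (l 571251702563857196494063))) (b (l 16210888) (a (l 137443865886769391) (l 16299768)))) (a (c (l 575233892727254768839919) (l 583036579038859000622703)) (b (c (l 569555177463856834686703) (l 575811219959248679759599)) (a (l 577643788224215883460335) (l 138021384274034927)))))) (a (b (c (l 572443397320654051383343) (l 583357528744014981240879)) (c (l 577267797356681314752559) (l 585774916908799341926447))) (b (a (c (l 578361192152782436625647) (l 16279352)) (c (l 574299737974724173393647) (l 580942873369682933198575))) (a (l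 573159073344638809955887) (c (l 577280616538972666425071) (l 16245088)))))) (a (b (b (c (l 577776235740212917049391) (l 584670706337762067847215)) (l 16162064)) (l 16108528)) (b (a (c (l 572051115778711488240687) (l 581388627044522586349103)) (b (l 572024598584105655737903) (l 572133261435914817936943))) (b (c (l 573582771997581592354351) (l 16057488)) (l 16104360))))), by decide +kernel⟩

def k7_pm_102 : ∃ t, chk3 f_pm_102 t 31 8 1 = true :=
  ⟨(a (b (b (b (b (l 140307269228314735) (l 140062284273631343)) (a (b (l 16293744) (a (l 137817974631874799) (l 16257384))) (l 139409174271426671))) (b (a (b (c (l 568055514800590346481263) (l 574595463903611845373551)) (a (l 16091736) (l 137707198788550767))) (b (l 16269304) (a (l 137658888998830191) (l 16230832)))) (a (c (l 570847313845557587717743) (l 579881320942007460130415)) (b (a (l 137380575064113263) (l 137344085022900335)) (a (l 15986400) (l 137307801098944623)))))) (b (c (b (a (l 575021754887832466255471) (l 569361197823946588335727))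 (a (l 16103392) (l 572709282361714153041519))) (b (a (l 16231616) (l 16062448)) (l 573076488195458087202415))) (c (b (a (l 16083392) (l 16066280)) (l 567003471759330672946799)) (b (a (l 16198136) (l 16178016)) (a (l 16166496) (l 16157432)))))) (a (b (b (b (b (l 16391200) (l 16404112)) (c (l 16365704) (l 16436200))) (b (l 16087048) (b (l 16219232) (a (l 137302715861303407) (l 16188664))))) (b (b (a (b (l 137267737610010735) (l 138130648062836847)) (b (l 137281756387295343) (l 137048659883622511))) (c (l 567169205456177628622447) (l 575938040866396263870063))) (b (c (l 570351557662004532751983) (l 16157696)) (c (l 16028352) (l 16138624))))) (b (b (b (c (b (l 16551080) (l 16500352)) (l 16497128)) (a (l 16335968) (l 16320504))) (b (c (l 16313304) (l 16386936)) (c (l 16213800) (l 16293744)))) (b (a (b (b (l 16172528) (l 137083088346153071)) (b (l 136832193497137263) (l 137830137719947375))) (b (l 16136848) (b (c (l 16074744) (l 16163528)) (c (l 16032072) (l 16145952)))))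 (b (a (l 135296794178781295) (c (l 16034544) (l 16134152))) (c (b (l 16020376) (l 16008656)) (l 16119880))))))), by decide +kernel⟩

def k8_pm_102 : ∃ t, chk3 f_pm_102 t 15 9 1 = true :=
  ⟨(a (b (c (a (l 15929040) (l 15941232)) (a (l 16037448) (l 16048968))) (c (l 15758784) (l 15852112))) (b (b (a (a (l 16043544) (b (b (l 15930960) (l 16057272)) (l 16023064))) (c (b (a (l 16005280) (l 15990224)) (a (l 15971312) (l 15965800))) (a (b (l 16116200) (l 16080968)) (b (l 16098920) (l 16074648))))) (a (l 15952024) (a (l 15955880) (b (c (l 15930544) (l 16037616)) (l 15936200))))) (c (b (l 15810224) (l 15693696)) (a (l 15853640) (l 15856144))))), by decide +kernel⟩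

def k9_pm_102 : ∃ t, chk3 f_pm_102 t 7 5 1 = true :=
  ⟨(a (b (b (a (c (l 15543568) (l 15625648)) (c (l 15564800) (l 15643184))) (a (l 15377104) (l 15422736))) (b (a (l 15258304) (l 15245040)) (a (l 15104632) (l 15073296)))) (b (a (b (c (l 15575632) (l 15650000)) (b (l 15465240) (l 15367504))) (b (c (l 15568440) (l 15638752)) (c (l 15370952) (l 15415560)))) (a (b (l 15222224) (l 15032696)) (b (c (l 15174432) (l 15189888)) (c (l 14982608) (l 14966280)))))), by decide +kernel⟩

def k10_pm_102 : ∃ t, chk3 f_pm_102 t 3 3 1 = true :=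
  ⟨(a (b (b (a (c (b (l 15124584) (l 15069312)) (b (l 15173208) (l 15106392))) (b (c (l 15022928) (l 15046888)) (c (l 14929632) (l 14936696)))) (a (c (l 177800912583) (l 194980824215)) (c (b (l 14851224) (l 14789232)) (b (l 14841776) (l 14764008))))) (a (l 2) (b (c (l 14563024) (l 212696854823)) (l 2)))) (b (a (b (b (a (l 14960664) (l 14889376)) (c (l 14850408) (l 14780456))) (c (b (l 14692264) (l 14591872)) (a (l 14633640) (l 14520632)))) (b (a (c (l 14787384) (l 14742888)) (c (l 14690616) (b (l 14748800) (l 14541144)))) (a (c (l 14503216) (l 14398408)) (c (b (l 14467248) (l 14324824)) (l 14256264))))) (a (a (b (c (l 14537944) (l 14446424)) (l 2)) (b (b (l 14394952) (l 14310816)) (b (l 14248360) (l 2)))) (b (a (b (l 14258616) (l 14156008)) (b (l 14106496) (l 13987288))) (a (b (l 14075904) (l 14020232)) (b (l 13892072) (b (l 13837504) (l 13820312)))))))), by decide +kernel⟩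

theorem s11_pm_102 : ∃ t, chk3 f_pm_102 t 15 8 1 = true := ex3_a k6_pm_102 k7_pm_102

theorem s12_pm_102 : ∃ t, chk3 f_pm_102 t 15 4 1 = true := ex3_b s11_pm_102 k8_pm_102

theorem s13_pm_102 : ∃ t, chk3 f_pm_102 t 7 4 1 = true := ex3_a k5_pm_102 s12_pm_102

theorem s14_pm_102 : ∃ t, chk3 f_pm_102 t 7 2 1 = true := ex3_b s13_pm_102 k9_pm_102

theorem s15_pm_102 : ∃ t, chk3 f_pm_102 t 3 2 1 = true := ex3_a k4_pm_102 s14_pm_102

theorem s16_pm_102 : ∃ t, chk3 f_pm_102 t 3 1 1 = true := ex3_b s15_pm_102 k10_pm_102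

theorem s17_pm_102 : ∃ t, chk3 f_pm_102 t 5 2 1 = true := ex3_b k1_pm_102 k2_pm_102

theorem s18_pm_102 : ∃ t, chk3 f_pm_102 t 2 2 1 = true := ex3_a k0_pm_102 s17_pm_102

theorem s19_pm_102 : ∃ t, chk3 f_pm_102 t 2 1 1 = true := ex3_b s18_pm_102 k3_pm_102

theorem s20_pm_102 : ∃ t, chk3 f_pm_102 t 1 1 1 = true := ex3_a s19_pm_102 s16_pm_102

theorem c_pm_102 : CertB 536870912 536870912 0 536870912 991146299 28908434 3 eng mog cd0q1 cd3q0 pd2 true true false .npp 1 0 2
    ndB0q1 ndB3q0 pcB2 Cut.none xt_pm_102 :=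
  certB1 (fam := true) (s1 := true) (s2 := false) (a := 1) (b := 0) (c := 2) (cn := .npp) (n1 := ndB0q1) (n2 := ndB3q0) (pc := pcB2) (cut := Cut.none) (xt := xt_pm_102) (P1 := 536870912) (W1 := 536870912) (P2 := 0) (W2 := 536870912) (P3 := 991146299) (W3 := 28908434) (N0 := 3) (En := eng) (mo := mog) (C1 := cd0q1) (C2 := cd3q0) (C3 := pd2)
    rfl (fun _ => rfl) s20_pm_102

noncomputable def f_pm_112 : ℕ → ℕ → ℕ → ℕ → Bool := onCell 536870912 536870912 1073741824 536870912 991146299 28908434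
    (rowB 3 eng mog cd0q1 cd3q1 pd2 1 true true false .dn 1 1 2 (qsf 536870912 536870912 536870912 536870912 2) ndB0q1 ndB3q1 pcB2 Cut.none Ext.none)

def k0_pm_112 : ∃ t, chk3 f_pm_112 t 1 2 1 = true :=
  ⟨(b (a (a (b (a (b (a (c (b (l 16049320) (l 16093664)) (b (a (l 16004144) (l 15988104)) (l 16052624))) (c (l 205653336327) (b (l 1) (l 16021160)))) (a (c (l 16096024) (l 16005640)) (c (l 16082104) (b (l 16060192) (l 16086856))))) (a (b (l 1) (b (l 1) (l 15985704))) (l 1))) (a (b (a (c (l 16165536) (l 16128168)) (c (l 16126344) (l 16108712))) (a (c (l 16168432) (l 16157488)) (c (l 16126008) (l 16113136)))) (b (a (c (l 16092016) (l 16074456)) (c (l 16062616) (l 16046680))) (a (c (l 16088288) (l 16074752)) (c (l 16055336) (l 16042680)))))) (b (l 1) (a (b (l 1) (a (c (l 16026056) (l 15953096)) (l 1))) (l 1)))) (l 1)) (a (a (b (b (b (a (a (l 16156272) (l 16111392)) (a (l 16071752) (l 16037560))) (a (b (a (l 16149752) (l 16104672)) (b (a (l 16137192) (l 16100832)) (b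 (l 15983688) (a (l 16123912) (l 16097488))))) (b (a (l 16064808) (l 16033624)) (b (a (l 16060936) (l 16033408)) (a (b (l 16059464) (l 16059584)) (l 16033648)))))) (a (a (c (l 16044752) (l 16111696)) (c (l 16044176) (l 16085216))) (a (c (l 16035872) (l 16051480)) (c (l 16020472) (l 16027568))))) (a (b (c (a (l 15953760) (l 15961392)) (a (l 16016152) (l 16031008))) (c (l 15863840) (l 15883616))) (b (c (l 15958736) (l 16030248)) (c (l 15879472) (l 15952464))))) (b (a (a (b (b (l 15973360) (l 16017576)) (l 15893176)) (b (l 241623668023) (l 16007864))) (b (l 1) (c (l 15911648) (l 15994840)))) (a (b (c (l 15927680) (l 15991608)) (c (l 15861528) (l 15938432))) (b (c (l 15865576) (l 15943208)) (c (l 15809360) (l 15880584)))))) (a (b (l 1) (a (c (l 15747072) (l 231422586567)) (l 1))) (l 1)))), by decide +kernel⟩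

def k1_pm_112 : ∃ t, chk3 f_pm_112 t 1 3 1 = true :=
  ⟨(a (b (a (b (a (c (a (l 15567896) (l 15637424)) (b (l 15819608) (l 15624464))) (b (c (l 15792424) (l 15861280)) (c (l 15698728) (l 15763984)))) (a (c (b (l 15540896) (l 15423736)) (a (l 15423816) (l 15494512))) (c (b (l 15599424) (l 15495504)) (b (l 15661904) (l 15556272))))) (b (a (c (a (l 15750776) (l 15741376)) (b (l 15858920) (l 15772408))) (c (l 15709104) (l 15749128))) (a (c (l 15571344) (l 15632880)) (c (l 15550192) (l 15598328))))) (a (b (a (c (b (l 15303352) (l 15180696)) (b (l 15354480) (l 15233640))) (c (b (l 15387944) (l 15277688)) (b (l 15448328) (l 15339280)))) (a (c (b (l 15056680) (l 14932288)) (b (l 15113288) (l 14994616))) (c (b (l 15165720) (l 15053024)) (b (l 15230360) (l 15122816))))) (b (a (c (l 15376896) (l 15434576)) (c (l 15370536) (l 15409184))) (a (c (l 15171776) (l 15232184)) (c (l 15178168) (l 15213368)))))) (a (b (b (a (c (l 15631040) (l 15670352)) (c (l 15500176) (l 15508280)))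 (a (c (l 15484296) (l 15503696)) (b (l 15393112) (l 15311608)))) (b (a (c (l 15314848) (l 15316496)) (b (l 15224840) (l 15133944))) (a (c (l 15130632) (l 15119544)) (c (l 15029920) (l 14958256))))) (b (a (b (l 1) (c (l 15165984) (l 15013512))) (l 1)) (a (b (c (l 15019984) (l 14828984)) (c (l 14862696) (l 14571984))) (b (a (l 237326609559) (l 1)) (a (c (l 14665584) (l 14456328)) (b (l 14391176) (l 14304104)))))))), by decide +kernel⟩

theorem s2_pm_112 : ∃ t, chk3 f_pm_112 t 1 1 1 = true := ex3_b k0_pm_112 k1_pm_112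

theorem c_pm_112 : CertB 536870912 536870912 536870912 536870912 991146299 28908434 3 eng mog cd0q1 cd3q1 pd2 true true false .dn 1 1 2
    ndB0q1 ndB3q1 pcB2 Cut.none Ext.none :=
  certB1 (fam := true) (s1 := true) (s2 := false) (a := 1) (b := 1) (c := 2) (cn := .dn) (n1 := ndB0q1) (n2 := ndB3q1) (pc := pcB2) (cut := Cut.none) (xt := Ext.none) (P1 := 536870912) (W1 := 536870912) (P2 := 536870912) (W2 := 536870912) (P3 := 991146299) (W3 := 28908434) (N0 := 3) (En := eng) (mo := mog) (C1 := cd0q1) (C2 := cd3q1) (C3 := pd2)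
    rfl (fun _ => rfl) s2_pm_112

noncomputable def f_pm_113 : ℕ → ℕ → ℕ → ℕ → Bool := onCell 536870912 536870912 1610612736 536870912 991146299 28908434
    (rowB 3 eng mog cd0q1 cd3q1 pd3 1 true true false .nn 1 1 3 (qsf 536870912 536870912 536870912 536870912 3) ndB0q1 ndB3q1 pcB3 Cut.none Ext.none)

def k0_pm_113 : ∃ t, chk3 f_pm_113 t 1 1 1 = true :=
  ⟨(a (b (b (a (b (a (c (b (l 14571824) (l 14386800)) (a (l 14269256) (l 14439160))) (b (l 14648088) (l 14371464))) (b (a (a (l 2) (l 14200920)) (a (l 14371120) (l 14502568))) (a (l 2) (a (l 14156504) (l 14325616))))) (b (a (a (l 14826616) (l 14910864)) (a (l 14982544) (l 15041120))) (a (a (l 14530832) (l 14625936)) (a (l 14709048) (l 14779824))))) (a (b (a (l 2) (b (a (l 2) (l 14105320)) (l 2))) (l 2)) (b (a (b (l 14185856) (l 47876369127)) (a (l 14413352) (l 14499608))) (a (b (l 23179824679) (l 2)) (b (a (l 14140016) (l 14254256)) (a (l 13879520) (l 14018224))))))) (a (l 2) (b (b (a (l 2) (b (l 323291213271)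 (l 2))) (l 2)) (l 2)))) (b (a (b (b (a (l 15103512) (l 15135976)) (a (l 14799920) (a (l 14920920) (l 14927328)))) (b (a (b (l 14674408) (a (l 14503424) (l 14579736))) (b (l 15049864) (l 14716008))) (a (b (l 14178168) (l 14203336)) (b (l 14616072) (l 14493456))))) (b (a (b (b (l 15135976) (l 15059864)) (b (l 15150344) (l 14973760))) (b (a (b (l 15029976) (l 14998576)) (b (l 14939800) (l 14971080))) (a (l 15031640) (l 15043928)))) (a (b (b (l 14958528) (l 14931536)) (b (l 14889032) (l 14819640))) (b (b (a (l 15065248) (l 15113088)) (a (l 15078648) (l 15132096))) (b (a (l 15062400) (l 4)) (l 4)))))) (b (a (a (b (b (l 13984048) (a (l 13652304) (l 13852320))) (b (l 4) (l 2))) (b (b (l 14408600) (l 4)) (l 4))) (a (l 4) (l 4))) (l 4)))), by decide +kernel⟩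

theorem c_pm_113 : CertB 536870912 536870912 536870912 536870912 991146299 28908434 3 eng mog cd0q1 cd3q1 pd3 true true false .nn 1 1 3
    ndB0q1 ndB3q1 pcB3 Cut.none Ext.none :=
  certB1 (fam := true) (s1 := true) (s2 := false) (a := 1) (b := 1) (c := 3) (cn := .nn) (n1 := ndB0q1) (n2 := ndB3q1) (pc := pcB3) (cut := Cut.none) (xt := Ext.none) (P1 := 536870912) (W1 := 536870912) (P2 := 536870912) (W2 := 536870912) (P3 := 991146299) (W3 := 28908434) (N0 := 3) (En := eng) (mo := mog) (C1 := cd0q1) (C2 := cd3q1) (C3 := pd3)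
    rfl (fun _ => rfl) k0_pm_113

noncomputable def xt_pm_123 : Ext := extD3 3 ⟨4, 1, 1, 5, 22, 5, 21, 25, 41, 100, 1, 20⟩ eng cd0q1 cd3q2 pd3 true true false .npn 1 2 3 rfl ndB0q1 ndB3q2 pcB3

noncomputable def f_pm_123 : ℕ → ℕ → ℕ → ℕ → Bool := onCell 1610612736 536870912 1073741824 536870912 991146299 28908434
    (rowB 3 eng mog cd0q1 cd3q2 pd3 2 true true false .npn 1 2 3 (qsf 536870912 536870912 1073741824 536870912 3) ndB0q1 ndB3q2 pcB3 Cut.none xt_pm_123)

def k0_pm_123 : ∃ t, chk3 f_pm_123 t 2 1 1 = true :=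
  ⟨(b (a (b (b (a (b (a (l 16150704) (l 16138928)) (a (l 16182784) (l 16147976))) (b (a (l 16083752) (l 16025584)) (a (l 16091056) (l 16036080)))) (a (a (l 1) (b (l 16148104) (l 1))) (b (a (l 16091736) (l 16038520)) (a (l 16087008) (l 16034488))))) (a (l 1) (b (a (l 1) (b (l 16024968) (l 1))) (l 1)))) (b (b (a (b (a (l 15968104) (b (l 15819000) (l 15918456))) (c (l 15938416) (l 15978424))) (b (a (b (l 15688768) (l 15866920)) (c (l 15541016) (l 15746232))) (a (l 15887904) (l 15847984)))) (a (b (c (l 15949248) (l 15982752)) (a (l 15986456) (l 15943536))) (a (b (l 15902904) (l 15906720)) (b (l 15869424) (l 15877456))))) (a (b (b (a (l 15977704) (l 15936328)) (a (l 15963360) (l 15922768))) (a (l 1) (b (l 15903568) (l 1)))) (b (a (b (l 15901752) (l 15889576)) (b (l 15875272) (l 15864952))) (a (b (l 15871200) (l 15847320)) (b (l 15847856) (l 15824488))))))) (a (l 1) (b (a (l 1) (b (a (l 1) (b (l 15798248) (l 1))) (l 1))) (l 1)))), by decide +kernel⟩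

def k1_pm_123 : ∃ t, chk3 f_pm_123 t 6 2 1 = true :=
  ⟨(b (a (b (b (a (b (l 15706864) (l 15747328)) (b (l 15669080) (l 15732648))) (a (l 15669920) (b (l 15782192) (l 15808952)))) (a (b (l 15845168) (l 15857816)) (b (l 15833672) (l 15850736)))) (b (a (b (c (l 15700088) (l 15690872)) (b (l 15776128) (l 15811792))) (b (c (b (l 15735496) (l 15775688)) (l 15718936)) (b (l 15805384) (l 15842120)))) (a (b (l 15840216) (l 15860448)) (b (l 15872688) (l 15893032))))) (a (b (a (l 15688504) (b (l 15854520) (l 15848368))) (a (b (l 15834984) (l 15823744)) (b (l 15836280) (l 15842480)))) (b (a (b (l 15866208) (l 15861352)) (b (l 15898648) (l 15897672))) (b (a (l 15862696) (l 15911000)) (l 15902736))))), by decide +kernel⟩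

def k2_pm_123 : ∃ t, chk3 f_pm_123 t 14 4 1 = true :=
  ⟨(a (b (b (b (c (l 15996560) (l 15803368)) (c (l 15897640) (l 15835064))) (b (l 15892248) (l 15917848))) (b (l 15943120) (l 15957408))) (a (b (b (b (l 16070480) (l 16017568)) (b (l 16014624) (l 16021368))) (b (l 16031592) (l 16034080))) (b (b (a (b (l 16209496) (l 16128216)) (b (l 16350296) (l 16220416))) (b (l 16134584) (l 16121152))) (b (l 16114216) (l 16104256))))), by decide +kernel⟩

def k3_pm_123 : ∃ t, chk3 f_pm_123 t 15 4 1 = true :=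
  ⟨(b (a (b (a (b (a (b (l 16559104) (l 16460928)) (b (l 16564752) (l 16545872))) (c (l 16403328) (l 16306376))) (b (a (c (b (l 16542488) (l 16520656)) (l 16594400)) (b (l 16581888) (l 140613071301312527))) (a (c (l 16495944) (l 16510344)) (l 16484848)))) (b (c (a (l 16355608) (l 16450424)) (l 16333304)) (a (l 16252240) (l 16359840)))) (a (b (b (a (c (l 16555704) (l 16621496)) (c (l 16564424) (l 16609504))) (a (l 16431936) (l 16450504))) (b (a (l 16478104) (l 16507608)) (c (l 16440632) (l 16485960)))) (a (b (b (b (l 16597816) (l 16605952)) (b (l 16613056) (l 16575328))) (b (l 16532856) (l 16487952))) (a (a (b (b (c (l 16577384) (l 16652384)) (l 16623456)) (l 16423192)) (b (b (b (l 16586880) (l 16583232)) (c (l 16608832) (l 16674768))) (l 16454424))) (a (b (b (l 16592816) (c (l 16609544) (l 16675488))) (b (l 16542320) (l 16522048))) (b (a (b (l 4) (l 16618520)) (l 4)) (a (b (l 16586240) (l 16534872)) (a (l 16472072) (a (l 16509464) (b (l 4) (l 6035736855463)))))))))))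 (a (a (b (l 16219504) (l 16192112)) (b (l 16352688) (l 16298512))) (a (b (b (l 16362432) (l 16400088)) (l 16351648)) (a (b (b (l 16448360) (l 16415840)) (l 16361968)) (a (b (l 16401584) (l 16367960)) (a (b (l 16452104) (l 16366480)) (b (a (l 16456776) (a (l 16459264) (a (l 16460528) (a (l 16461152) (b (l 16481320) (l 16441832)))))) (a (l 16372992) (a (l 16379144) (a (l 16384728) (l 16373728))))))))))), by decide +kernel⟩

def k4_pm_123 : ∃ t, chk3 f_pm_123 t 7 5 1 = true :=
  ⟨(a (a (b (b (l 15958856) (l 15965032)) (l 15969376)) (b (a (b (l 16029648) (l 16035952)) (b (l 16094936) (l 16096288))) (a (l 16053568) (l 16101232)))) (b (a (a (b (l 16173456) (l 16161832)) (a (l 16223736) (l 16247752))) (a (b (l 16284568) (l 16229488)) (a (b (l 16292408) (l 16235216)) (a (b (l 16295216) (l 16248736)) (a (l 16286560) (a (l 16296328) (a (l 16307976) (l 4)))))))) (a (a (l 16143952) (l 16160656)) (a (a (l 16164200) (l 16110472)) (a (b (l 16198360) (l 16165360)) (a (l 16200568)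 (l 4))))))), by decide +kernel⟩

def k5_pm_123 : ∃ t, chk3 f_pm_123 t 3 3 1 = true :=
  ⟨(a (b (a (b (a (l 15794040) (l 15842408)) (a (l 1) (l 15860232))) (b (a (l 15903144) (l 15955808)) (a (l 15925544) (l 15980848)))) (a (l 1) (b (a (l 1) (l 15992992)) (l 1)))) (b (a (a (b (l 16020448) (l 16042808)) (b (a (l 16072312) (l 16101456)) (a (l 16081616) (l 16076976)))) (b (a (a (l 16104352) (b (l 16125512) (l 16116672))) (a (a (l 16126760) (l 16126960)) (a (l 16145544) (l 4)))) (a (a (l 16096704) (l 16103456)) (a (l 16108208) (l 4))))) (a (a (b (l 16054440) (l 1)) (b (a (l 16067344) (l 16079712)) (a (l 1) (l 16045184)))) (a (b (a (l 16076304) (l 16085032)) (a (l 16060112) (l 4))) (l 4))))), by decide +kernel⟩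

theorem s6_pm_123 : ∃ t, chk3 f_pm_123 t 7 4 1 = true := ex3_a k2_pm_123 k3_pm_123

theorem s7_pm_123 : ∃ t, chk3 f_pm_123 t 7 2 1 = true := ex3_b s6_pm_123 k4_pm_123

theorem s8_pm_123 : ∃ t, chk3 f_pm_123 t 3 2 1 = true := ex3_a k1_pm_123 s7_pm_123

theorem s9_pm_123 : ∃ t, chk3 f_pm_123 t 3 1 1 = true := ex3_b s8_pm_123 k5_pm_123

theorem s10_pm_123 : ∃ t, chk3 f_pm_123 t 1 1 1 = true := ex3_a k0_pm_123 s9_pm_123

theorem c_pm_123 : CertB 536870912 536870912 1073741824 536870912 991146299 28908434 3 eng mog cd0q1 cd3q2 pd3 true true false .npn 1 2 3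
    ndB0q1 ndB3q2 pcB3 Cut.none xt_pm_123 :=
  certB2 (fam := true) (s1 := true) (s2 := false) (a := 1) (b := 2) (c := 3) (cn := .npn) (n1 := ndB0q1) (n2 := ndB3q2) (pc := pcB3) (cut := Cut.none) (xt := xt_pm_123) (P1 := 536870912) (W1 := 536870912) (P2 := 1073741824) (W2 := 536870912) (P3 := 991146299) (W3 := 28908434) (N0 := 3) (En := eng) (mo := mog) (C1 := cd0q1) (C2 := cd3q2) (C3 := pd3)
    rfl (fun _ => rfl) s10_pm_123

noncomputable def f_pm_133 : ℕ → ℕ → ℕ → ℕ → Bool := onCell 536870912 536870912 0 1230186008 991146299 28908434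
    (rowB 3 eng mog cd0q1 cd3q3 pd3 0 true true false .dn 1 3 3 (qsf 536870912 536870912 0 1230186008 3) ndB0q1 ndB3q3 pcB3 Cut.none Ext.none)

def k0_pm_133 : ∃ t, chk3 f_pm_133 t 1 1 1 = true :=
  ⟨(b (l 2) (b (l 2) (a (l 4) (l 2)))), by decide +kernel⟩

theorem c_pm_133 : CertB 536870912 536870912 0 1230186008 991146299 28908434 3 eng mog cd0q1 cd3q3 pd3 true true false .dn 1 3 3
    ndB0q1 ndB3q3 pcB3 Cut.none Ext.none :=
  certB0 (fam := true) (s1 := true) (s2 := false) (a := 1) (b := 3) (c := 3) (cn := .dn) (n1 := ndB0q1) (n2 := ndB3q3) (pc := pcB3) (cut := Cut.none) (xt := Ext.none) (P1 := 536870912) (W1 := 536870912) (P2 := 0) (W2 := 1230186008) (P3 := 991146299) (W3 := 28908434) (N0 := 3) (En := eng) (mo := mog) (C1 := cd0q1) (C2 := cd3q3) (C3 := pd3)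
    rfl k0_pm_133

noncomputable def f_pm_202 : ℕ → ℕ → ℕ → ℕ → Bool := onCell 0 536870912 0 536870912 991146299 28908434
    (rowB 3 eng mog cd0q2 cd3q0 pd2 0 true true false .pp 2 0 2 (qsf 0 536870912 0 536870912 2) ndB0q2 ndB3q0 pcB2 Cut.none Ext.none)

def k0_pm_202 : ∃ t, chk3 f_pm_202 t 4 1 1 = true :=
  ⟨(b (b (a (b (b (b (l 16410528) (l 16327688)) (b (b (l 16176384) (l 16062264)) (b (l 16029920) (l 15967560)))) (b (b (b (l 15933352) (l 15930304)) (b (l 15912576) (l 15889824))) (b (l 15863224) (l 15845912)))) (b (b (b (l 16268216) (l 16367024)) (b (b (l 16220112) (l 16126152)) (b (l 16068240) (l 16016632)))) (b (b (b (l 15964464) (l 15914008)) (b (l 15740536) (l 15812160))) (b (a (l 15759312) (l 15726512)) (a (l 15720112) (l 15643264)))))) (c (b (b (a (l 15884200) (l 15698984)) (a (l 15943008) (l 15713512))) (b (a (l 15850728) (l 15784864)) (a (l 4527880039) (l 15838304)))) (b (b (a (l 15826512) (l 15597968)) (a (l 15914120) (l 15629840))) (b (a (b (l 16023160)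 (l 16092328)) (l 15734512)) (a (b (l 16142848) (l 16169480)) (l 15666368)))))) (b (b (a (l 4) (b (c (b (l 15991512) (l 16028432)) (a (l 16110216) (l 15990328))) (b (a (l 4) (l 16053960)) (l 4)))) (l 4)) (l 2))), by decide +kernel⟩

def k1_pm_202 : ∃ t, chk3 f_pm_202 t 5 1 1 = true :=
  ⟨(b (b (a (b (b (b (c (l 16418056) (l 16322120)) (l 16272568)) (b (b (l 16276144) (b (l 16203912) (l 16166016))) (b (l 16130168) (l 16082080)))) (b (b (c (l 16021760) (l 15994824)) (b (l 15933376) (l 15870856))) (b (l 15774200) (l 15608752)))) (b (b (b (c (l 16258616) (l 16234304)) (a (l 16396392) (l 16358672))) (b (b (l 16248816) (b (l 16261768) (l 16225160))) (b (c (l 16185088) (l 16199832)) (c (l 16143256) (l 16152768))))) (b (b (c (l 16079888) (l 16015864)) (b (l 15967160) (l 15949112))) (c (l 15821600) (l 15765440))))) (b (a (b (a (b (l 15533952) (l 15489544)) (b (l 15539376) (l 15433848))) (b (a (l 15478976) (l 15366672)) (l 15293744))) (b (c (l 15596568) (l 15491976)) (a (b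 (l 15343080) (a (l 15262192) (l 15239616))) (l 15321880)))) (a (b (c (l 15507816) (l 15391776)) (c (l 15584872) (l 15504464))) (b (a (b (l 15219888) (l 15229104)) (b (l 15158672) (a (l 15114592) (l 15064320)))) (c (l 15260152) (l 14871848)))))) (b (b (a (b (c (l 15708112) (l 15655464)) (a (b (l 15934152) (l 15950144)) (l 15583496))) (b (c (l 15337200) (l 15089584)) (c (l 15459976) (l 15239792)))) (a (a (l 4) (b (b (l 15843992) (l 15950688)) (l 4))) (a (b (b (l 15689168) (l 15793288)) (b (l 15865912) (l 15897784))) (b (l 15340264) (b (l 15646680) (l 15665200)))))) (b (a (l 2) (b (a (l 2) (b (l 15813488) (l 2))) (l 2))) (l 2)))), by decide +kernel⟩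

def k2_pm_202 : ∃ t, chk3 f_pm_202 t 6 2 1 = true :=
  ⟨(a (b (b (b (b (a (b (l 16287808) (l 16392760)) (b (l 16273328) (l 16374336))) (c (l 16344848) (l 16372752))) (b (b (a (l 16367360) (l 16384368)) (b (l 16181480) (a (l 16261496) (l 16279496)))) (c (b (l 16223984) (l 16185216)) (b (l 16260984) (l 16218848))))) (b (b (c (b (l 16146368) (l 16107672)) (b (l 16174728) (l 16129432))) (b (a (l 16058720) (l 16086168)) (l 16016336))) (c (l 15877744) (l 15771120)))) (b (b (c (l 15657424) (l 15590616)) (c (l 15439400) (l 15327408))) (b (c (l 15225864) (l 15068176)) (a (b (l 14983416) (a (l 14969320) (l 14897888))) (l 14943160))))) (b (b (b (b (a (c (l 16350872) (c (l 16387368) (l 16375448))) (c (l 16384704) (l 16316672))) (c (c (l 16338792) (l 16411384)) (b (l 16462832) (l 16434872)))) (b (b (c (l 16323704) (l 16363384)) (c (b (l 16297208) (l 16263120)) (b (l 16356032) (l 16321832)))) (c (b (l 16131280) (l 16200808)) (b (l 16212128) (l 16238496))))) (b (b (c (b (l 16165272)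 (l 16129792)) (b (l 16220648) (l 16180408))) (b (a (l 16106576) (l 16117872)) (l 15891376))) (c (b (l 15962056) (l 15854760)) (b (l 15984320) (l 15858176))))) (b (b (c (l 15692920) (l 15666752)) (c (l 15477800) (l 15410464))) (b (c (l 15266968) (l 15157368)) (c (l 15063704) (l 14911656)))))), by decide +kernel⟩

def k3_pm_202 : ∃ t, chk3 f_pm_202 t 7 8 1 = true :=
  ⟨(a (a (b (b (c (l 16435664) (l 16364488)) (b (l 16350464) (l 16282304))) (b (b (l 16212584) (b (l 16311432) (l 16152456))) (b (c (l 16217576) (l 16293632)) (c (l 16185184) (l 16261864))))) (b (b (c (b (l 16603000) (l 16538048)) (a (l 16514752) (l 16558400))) (a (b (l 16413080) (l 16366360)) (c (l 16394904) (l 16430592)))) (b (b (c (l 16312000) (l 16391224)) (c (b (l 16243032) (l 16209824)) (l 16201960))) (c (b (l 16186712) (l 16156496)) (b (l 16272032) (l 16243800)))))) (b (a (c (a (b (l 16418736) (l 16348248)) (b (b (l 16555104) (l 16511424)) (l 16274304))) (b (b (l 16492320) (l 16453272)) (a (l 16405624)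 (l 16394432)))) (b (c (a (b (c (l 16511544) (l 16541944)) (l 16475744)) (b (a (l 16559600) (l 16535656)) (a (l 16455440) (l 16449976)))) (b (a (b (l 16610976) (l 16586824)) (l 16510360)) (a (l 16523904) (a (l 16522552) (l 16514312))))) (a (c (b (l 16388424) (l 16298888)) (l 16337256)) (c (b (a (l 16361192) (l 16346680)) (l 16262448)) (b (l 16363968) (l 16341008)))))) (b (b (a (c (l 16217328) (l 16342192)) (c (a (l 16207672) (l 16171160)) (l 16210360))) (a (c (b (l 16190048) (l 16157240)) (b (l 16274768) (l 16244352))) (c (b (l 16120088) (l 16003856)) (b (l 16206824) (l 16177712))))) (a (c (b (a (l 16151424) (l 16120320)) (l 16087136)) (b (l 16207120) (l 16203704))) (c (b (c (l 16045536) (l 16091800)) (c (l 16019152) (l 16067816))) (b (l 16080864) (l 16144576))))))), by decide +kernel⟩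

def k4_pm_202 : ∃ t, chk3 f_pm_202 t 7 9 1 = true :=
  ⟨(b (a (b (c (b (a (l 16152480) (l 16125896)) (l 16004464)) (a (l 16146344) (l 16028360))) (c (b (l 16033344) (l 16026912)) (b (l 16086976) (l 16094752)))) (b (a (c (b (l 16079816) (l 16051368)) (b (l 16176416) (l 16147192))) (c (b (l 15996528) (l 15991536)) (b (l 16121280) (l 16095896)))) (b (a (c (l 16020376) (l 16113664)) (c (l 15962848) (l 16065920))) (a (l 15933128) (c (l 15917920) (l 16016840)))))) (a (c (a (l 15905904) (l 15886792)) (a (l 15945912) (l 15944056))) (a (c (l 15849008) (l 15921728)) (c (b (l 15845264) (l 15746120)) (l 15840248))))), by decide +kernel⟩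

def k5_pm_202 : ∃ t, chk3 f_pm_202 t 7 5 1 = true :=
  ⟨(b (a (b (c (l 15540768) (l 15493544)) (c (l 15475792) (l 15455040))) (b (a (c (l 15643304) (l 15687616)) (c (l 15594088) (l 15655488))) (a (c (l 15434816) (l 15446816)) (c (l 15388256) (l 15420416))))) (a (b (a (l 15236128) (l 15214160)) (c (l 15064032) (l 14964816))) (a (c (b (l 15227864) (l 15026216)) (b (l 15204592) (l 14965576))) (b (c (l 15183024) (l 15182432)) (l 14943080))))), by decide +kernel⟩

def k6_pm_202 : ∃ t, chk3 f_pm_202 t 3 3 1 = true :=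
  ⟨(b (a (b (a (b (a (c (l 15056488) (l 14870576)) (c (b (l 14919624) (l 14887056)) (b (l 14684960) (l 14670312)))) (c (l 14908904) (a (l 14995024) (l 14733536)))) (b (a (l 14764392) (l 14786152)) (a (c (b (l 14760568) (l 14737640)) (b (l 14511224) (l 14508192))) (l 14590496)))) (a (b (c (l 15006856) (a (l 15175664) (l 14882624))) (c (l 15102360) (a (l 15403320) (l 15084120)))) (b (a (c (l 14794400) (l 14589608)) (c (b (l 14601920) (l 14584472)) (a (l 14364888) (l 14296488)))) (c (a (l 14919592) (l 14652088)) (a (l 14760480) (l 14436096)))))) (b (a (c (a (l 14784480) (l 14771440)) (b (l 14710176) (l 14510024))) (c (a (l 14741408) (b (l 14789792) (l 14608552))) (a (l 14622456) (l 14605672)))) (a (b (a (l 14395880) (l 14414352)) (a (b (b (l 14323024) (l 14280928)) (a (l 14356072) (l 14412544))) (l 14246704))) (c (a (l 14408704) (l 14427600)) (a (l 14211224) (l 14173696)))))) (a (b (a (b (a (b (l 15593960) (l 15692704)) (c (l 15367024) (l 15329088))) (l 2)) (b (a (c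 (l 15084240) (l 14980480)) (c (l 14794456) (l 14626352))) (a (c (l 15281768) (l 15240616)) (c (l 14974288) (l 14862688))))) (l 2)) (b (b (a (b (a (l 14307608) (a (l 14163400) (l 14131544))) (a (l 14428560) (a (l 14180600) (l 14083336)))) (a (l 14080296) (l 14048664))) (a (a (c (l 14659392) (l 14478368)) (c (l 14320368) (l 14029792))) (a (a (b (l 14004672) (l 14236344)) (l 13953840)) (l 13922064)))) (a (b (a (c (l 14853152) (l 14728816)) (c (l 14513464) (l 14314216))) (l 2)) (a (b (b (a (l 14083352) (l 14172816)) (l 14084496)) (c (l 14355840) (l 14132216))) (b (a (b (l 13853912) (l 13864112)) (l 13812320)) (a (b (l 13896032) (l 14000112)) (b (l 13775152) (l 13811312))))))))), by decide +kernel⟩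

theorem s7_pm_202 : ∃ t, chk3 f_pm_202 t 7 4 1 = true := ex3_b k3_pm_202 k4_pm_202

theorem s8_pm_202 : ∃ t, chk3 f_pm_202 t 7 2 1 = true := ex3_b s7_pm_202 k5_pm_202

theorem s9_pm_202 : ∃ t, chk3 f_pm_202 t 3 2 1 = true := ex3_a k2_pm_202 s8_pm_202

theorem s10_pm_202 : ∃ t, chk3 f_pm_202 t 3 1 1 = true := ex3_b s9_pm_202 k6_pm_202

theorem s11_pm_202 : ∃ t, chk3 f_pm_202 t 2 1 1 = true := ex3_a k0_pm_202 k1_pm_202

theorem s12_pm_202 : ∃ t, chk3 f_pm_202 t 1 1 1 = true := ex3_a s11_pm_202 s10_pm_202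

theorem c_pm_202 : CertB 0 536870912 0 536870912 991146299 28908434 3 eng mog cd0q2 cd3q0 pd2 true true false .pp 2 0 2
    ndB0q2 ndB3q0 pcB2 Cut.none Ext.none :=
  certB0 (fam := true) (s1 := true) (s2 := false) (a := 2) (b := 0) (c := 2) (cn := .pp) (n1 := ndB0q2) (n2 := ndB3q0) (pc := pcB2) (cut := Cut.none) (xt := Ext.none) (P1 := 0) (W1 := 536870912) (P2 := 0) (W2 := 536870912) (P3 := 991146299) (W3 := 28908434) (N0 := 3) (En := eng) (mo := mog) (C1 := cd0q2) (C2 := cd3q0) (C3 := pd2)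
    rfl s12_pm_202

noncomputable def f_pm_203 : ℕ → ℕ → ℕ → ℕ → Bool := onCell 0 536870912 1610612736 536870912 991146299 28908434
    (rowB 3 eng mog cd0q2 cd3q0 pd3 1 true true false .up 2 0 3 (qsf 0 536870912 0 536870912 3) ndB0q2 ndB3q0 pcB3 Cut.none Ext.none)

def k0_pm_203 : ∃ t, chk3 f_pm_203 t 1 1 1 = true :=
  ⟨(b (a (a (l 4) (b (b (b (l 15919456) (l 4)) (l 4)) (l 4))) (b (a (b (b (a (l 15681696) (l 15404624)) (a (l 15728960) (l 15497272))) (b (l 15638096) (l 4))) (b (a (l 15112408) (b (l 14666680) (l 14761192))) (a (b (l 15281312) (l 2)) (l 2)))) (a (l 2) (l 2)))) (l 2)), by decide +kernel⟩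

theorem c_pm_203 : CertB 0 536870912 0 536870912 991146299 28908434 3 eng mog cd0q2 cd3q0 pd3 true true false .up 2 0 3
    ndB0q2 ndB3q0 pcB3 Cut.none Ext.none :=
  certB1 (fam := true) (s1 := true) (s2 := false) (a := 2) (b := 0) (c := 3) (cn := .up) (n1 := ndB0q2) (n2 := ndB3q0) (pc := pcB3) (cut := Cut.none) (xt := Ext.none) (P1 := 0) (W1 := 536870912) (P2 := 0) (W2 := 536870912) (P3 := 991146299) (W3 := 28908434) (N0 := 3) (En := eng) (mo := mog) (C1 := cd0q2) (C2 := cd3q0) (C3 := pd3)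
    rfl (fun _ => rfl) k0_pm_203

noncomputable def f_pm_213 : ℕ → ℕ → ℕ → ℕ → Bool := onCell 0 536870912 1610612736 536870912 991146299 28908434
    (rowB 3 eng mog cd0q2 cd3q1 pd3 1 true true false .pnn 2 1 3 (qsf 0 536870912 536870912 536870912 3) ndB0q2 ndB3q1 pcB3 Cut.none Ext.none)

def k0_pm_213 : ∃ t, chk3 f_pm_213 t 1 1 1 = true :=
  ⟨(b (a (b (b (l 1) (l 4)) (l 4)) (b (a (b (l 1) (b (l 15961000) (l 4))) (b (a (l 15520872) (l 15082088)) (a (b (l 15659168) (l 15716824)) (b (l 15252272) (l 15324856))))) (a (l 4) (b (a (l 4) (b (l 15367464) (l 4))) (l 4))))) (l 4)), by decide +kernel⟩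

theorem c_pm_213 : CertB 0 536870912 536870912 536870912 991146299 28908434 3 eng mog cd0q2 cd3q1 pd3 true true false .pnn 2 1 3
    ndB0q2 ndB3q1 pcB3 Cut.none Ext.none :=
  certB1 (fam := true) (s1 := true) (s2 := false) (a := 2) (b := 1) (c := 3) (cn := .pnn) (n1 := ndB0q2) (n2 := ndB3q1) (pc := pcB3) (cut := Cut.none) (xt := Ext.none) (P1 := 0) (W1 := 536870912) (P2 := 536870912) (W2 := 536870912) (P3 := 991146299) (W3 := 28908434) (N0 := 3) (En := eng) (mo := mog) (C1 := cd0q2) (C2 := cd3q1) (C3 := pd3)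
    rfl (fun _ => rfl) k0_pm_213

noncomputable def f_mm_001 : ℕ → ℕ → ℕ → ℕ → Bool := onCell 0 536870912 0 536870912 991146299 28908434
    (rowB 3 eng mog cd0q0 cd3q0 pd1 0 true false false .up 0 0 1 (qsf 0 536870912 0 536870912 1) ndB0q0 ndB3q0 pcB1 Cut.none Ext.none)

def k0_mm_001 : ∃ t, chk3 f_mm_001 t 1 1 1 = true :=
  ⟨(l 4), by decide +kernel⟩

theorem c_mm_001 : CertB 0 536870912 0 536870912 991146299 28908434 3 eng mog cd0q0 cd3q0 pd1 true false false .up 0 0 1
    ndB0q0 ndB3q0 pcB1 Cut.none Ext.none :=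
  certB0 (fam := true) (s1 := false) (s2 := false) (a := 0) (b := 0) (c := 1) (cn := .up) (n1 := ndB0q0) (n2 := ndB3q0) (pc := pcB1) (cut := Cut.none) (xt := Ext.none) (P1 := 0) (W1 := 536870912) (P2 := 0) (W2 := 536870912) (P3 := 991146299) (W3 := 28908434) (N0 := 3) (En := eng) (mo := mog) (C1 := cd0q0) (C2 := cd3q0) (C3 := pd1)
    rfl k0_mm_001

noncomputable def f_mm_011 : ℕ → ℕ → ℕ → ℕ → Bool := onCell 0 536870912 536870912 536870912 991146299 28908434
    (rowB 3 eng mog cd0q0 cd3q1 pd1 0 true false false .pnn 0 1 1 (qsf 0 536870912 536870912 536870912 1) ndB0q0 ndB3q1 pcB1 Cut.none Ext.none)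

def k0_mm_011 : ∃ t, chk3 f_mm_011 t 1 1 1 = true :=
  ⟨(l 4), by decide +kernel⟩

theorem c_mm_011 : CertB 0 536870912 536870912 536870912 991146299 28908434 3 eng mog cd0q0 cd3q1 pd1 true false false .pnn 0 1 1
    ndB0q0 ndB3q1 pcB1 Cut.none Ext.none :=
  certB0 (fam := true) (s1 := false) (s2 := false) (a := 0) (b := 1) (c := 1) (cn := .pnn) (n1 := ndB0q0) (n2 := ndB3q1) (pc := pcB1) (cut := Cut.none) (xt := Ext.none) (P1 := 0) (W1 := 536870912) (P2 := 536870912) (W2 := 536870912) (P3 := 991146299) (W3 := 28908434) (N0 := 3) (En := eng) (mo := mog) (C1 := cd0q0) (C2 := cd3q1) (C3 := pd1)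
    rfl k0_mm_011

noncomputable def f_mm_012 : ℕ → ℕ → ℕ → ℕ → Bool := onCell 0 536870912 536870912 536870912 991146299 28908434
    (rowB 3 eng mog cd0q0 cd3q1 pd2 0 true false false .pnp 0 1 2 (qsf 0 536870912 536870912 536870912 2) ndB0q0 ndB3q1 pcB2 Cut.none Ext.none)

def k0_mm_012 : ∃ t, chk3 f_mm_012 t 1 1 1 = true :=
  ⟨(l 4), by decide +kernel⟩

theorem c_mm_012 : CertB 0 536870912 536870912 536870912 991146299 28908434 3 eng mog cd0q0 cd3q1 pd2 true false false .pnp 0 1 2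
    ndB0q0 ndB3q1 pcB2 Cut.none Ext.none :=
  certB0 (fam := true) (s1 := false) (s2 := false) (a := 0) (b := 1) (c := 2) (cn := .pnp) (n1 := ndB0q0) (n2 := ndB3q1) (pc := pcB2) (cut := Cut.none) (xt := Ext.none) (P1 := 0) (W1 := 536870912) (P2 := 536870912) (W2 := 536870912) (P3 := 991146299) (W3 := 28908434) (N0 := 3) (En := eng) (mo := mog) (C1 := cd0q0) (C2 := cd3q1) (C3 := pd2)
    rfl k0_mm_012

noncomputable def f_mm_022 : ℕ → ℕ → ℕ → ℕ → Bool := onCell 0 536870912 1073741824 536870912 991146299 28908434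
    (rowB 3 eng mog cd0q0 cd3q2 pd2 0 true false false .pp 0 2 2 (qsf 0 536870912 1073741824 536870912 2) ndB0q0 ndB3q2 pcB2 Cut.none Ext.none)

def k0_mm_022 : ∃ t, chk3 f_mm_022 t 1 1 1 = true :=
  ⟨(l 4), by decide +kernel⟩

theorem c_mm_022 : CertB 0 536870912 1073741824 536870912 991146299 28908434 3 eng mog cd0q0 cd3q2 pd2 true false false .pp 0 2 2
    ndB0q0 ndB3q2 pcB2 Cut.none Ext.none :=
  certB0 (fam := true) (s1 := false) (s2 := false) (a := 0) (b := 2) (c := 2) (cn := .pp) (n1 := ndB0q0) (n2 := ndB3q2) (pc := pcB2) (cut := Cut.none) (xt := Ext.none) (P1 := 0) (W1 := 536870912) (P2 := 1073741824) (W2 := 536870912) (P3 := 991146299) (W3 := 28908434) (N0 := 3) (En := eng) (mo := mog) (C1 := cd0q0) (C2 := cd3q2) (C3 := pd2)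
    rfl k0_mm_022

noncomputable def f_mm_023 : ℕ → ℕ → ℕ → ℕ → Bool := onCell 0 536870912 1073741824 536870912 991146299 28908434
    (rowB 3 eng mog cd0q0 cd3q2 pd3 0 true false false .up 0 2 3 (qsf 0 536870912 1073741824 536870912 3) ndB0q0 ndB3q2 pcB3 Cut.none Ext.none)

def k0_mm_023 : ∃ t, chk3 f_mm_023 t 1 1 1 = true :=
  ⟨(l 4), by decide +kernel⟩

theorem c_mm_023 : CertB 0 536870912 1073741824 536870912 991146299 28908434 3 eng mog cd0q0 cd3q2 pd3 true false false .up 0 2 3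
    ndB0q0 ndB3q2 pcB3 Cut.none Ext.none :=
  certB0 (fam := true) (s1 := false) (s2 := false) (a := 0) (b := 2) (c := 3) (cn := .up) (n1 := ndB0q0) (n2 := ndB3q2) (pc := pcB3) (cut := Cut.none) (xt := Ext.none) (P1 := 0) (W1 := 536870912) (P2 := 1073741824) (W2 := 536870912) (P3 := 991146299) (W3 := 28908434) (N0 := 3) (En := eng) (mo := mog) (C1 := cd0q0) (C2 := cd3q2) (C3 := pd3)
    rfl k0_mm_023

noncomputable def f_mm_033 : ℕ → ℕ → ℕ → ℕ → Bool := onCell 0 536870912 0 1230186008 991146299 28908434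
    (rowB 3 eng mog cd0q0 cd3q3 pd3 0 true false false .pnn 0 3 3 (qsf 0 536870912 0 1230186008 3) ndB0q0 ndB3q3 pcB3 Cut.none Ext.none)

def k0_mm_033 : ∃ t, chk3 f_mm_033 t 1 1 1 = true :=
  ⟨(l 5), by decide +kernel⟩

theorem c_mm_033 : CertB 0 536870912 0 1230186008 991146299 28908434 3 eng mog cd0q0 cd3q3 pd3 true false false .pnn 0 3 3
    ndB0q0 ndB3q3 pcB3 Cut.none Ext.none :=
  certB0 (fam := true) (s1 := false) (s2 := false) (a := 0) (b := 3) (c := 3) (cn := .pnn) (n1 := ndB0q0) (n2 := ndB3q3) (pc := pcB3) (cut := Cut.none) (xt := Ext.none) (P1 := 0) (W1 := 536870912) (P2 := 0) (W2 := 1230186008) (P3 := 991146299) (W3 := 28908434) (N0 := 3) (En := eng) (mo := mog) (C1 := cd0q0) (C2 := cd3q3) (C3 := pd3)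
    rfl k0_mm_033

noncomputable def f_mm_101 : ℕ → ℕ → ℕ → ℕ → Bool := onCell 536870912 536870912 0 536870912 991146299 28908434
    (rowB 3 eng mog cd0q1 cd3q0 pd1 0 true false false .npn 1 0 1 (qsf 536870912 536870912 0 536870912 1) ndB0q1 ndB3q0 pcB1 Cut.none Ext.none)

def k0_mm_101 : ∃ t, chk3 f_mm_101 t 1 1 1 = true :=
  ⟨(a (l 4) (b (l 4) (l 4))), by decide +kernel⟩

theorem c_mm_101 : CertB 536870912 536870912 0 536870912 991146299 28908434 3 eng mog cd0q1 cd3q0 pd1 true false false .npn 1 0 1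
    ndB0q1 ndB3q0 pcB1 Cut.none Ext.none :=
  certB0 (fam := true) (s1 := false) (s2 := false) (a := 1) (b := 0) (c := 1) (cn := .npn) (n1 := ndB0q1) (n2 := ndB3q0) (pc := pcB1) (cut := Cut.none) (xt := Ext.none) (P1 := 536870912) (W1 := 536870912) (P2 := 0) (W2 := 536870912) (P3 := 991146299) (W3 := 28908434) (N0 := 3) (En := eng) (mo := mog) (C1 := cd0q1) (C2 := cd3q0) (C3 := pd1)
    rfl k0_mm_101

noncomputable def f_mm_102 : ℕ → ℕ → ℕ → ℕ → Bool := onCell 536870912 536870912 0 536870912 991146299 28908434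
    (rowB 3 eng mog cd0q1 cd3q0 pd2 0 true false false .npp 1 0 2 (qsf 536870912 536870912 0 536870912 2) ndB0q1 ndB3q0 pcB2 Cut.none Ext.none)

def k0_mm_102 : ∃ t, chk3 f_mm_102 t 1 1 1 = true :=
  ⟨(a (l 4) (b (l 4) (l 4))), by decide +kernel⟩

theorem c_mm_102 : CertB 536870912 536870912 0 536870912 991146299 28908434 3 eng mog cd0q1 cd3q0 pd2 true false false .npp 1 0 2
    ndB0q1 ndB3q0 pcB2 Cut.none Ext.none :=
  certB0 (fam := true) (s1 := false) (s2 := false) (a := 1) (b := 0) (c := 2) (cn := .npp) (n1 := ndB0q1) (n2 := ndB3q0) (pc := pcB2) (cut := Cut.none) (xt := Ext.none) (P1 := 536870912) (W1 := 536870912) (P2 := 0) (W2 := 536870912) (P3 := 991146299) (W3 := 28908434) (N0 := 3) (En := eng) (mo := mog) (C1 := cd0q1) (C2 := cd3q0) (C3 := pd2)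
    rfl k0_mm_102

noncomputable def f_mm_112 : ℕ → ℕ → ℕ → ℕ → Bool := onCell 536870912 536870912 536870912 536870912 991146299 28908434
    (rowB 3 eng mog cd0q1 cd3q1 pd2 0 true false false .dn 1 1 2 (qsf 536870912 536870912 536870912 536870912 2) ndB0q1 ndB3q1 pcB2 Cut.none Ext.none)

def k0_mm_112 : ∃ t, chk3 f_mm_112 t 1 1 1 = true :=
  ⟨(l 4), by decide +kernel⟩

theorem c_mm_112 : CertB 536870912 536870912 536870912 536870912 991146299 28908434 3 eng mog cd0q1 cd3q1 pd2 true false false .dn 1 1 2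
    ndB0q1 ndB3q1 pcB2 Cut.none Ext.none :=
  certB0 (fam := true) (s1 := false) (s2 := false) (a := 1) (b := 1) (c := 2) (cn := .dn) (n1 := ndB0q1) (n2 := ndB3q1) (pc := pcB2) (cut := Cut.none) (xt := Ext.none) (P1 := 536870912) (W1 := 536870912) (P2 := 536870912) (W2 := 536870912) (P3 := 991146299) (W3 := 28908434) (N0 := 3) (En := eng) (mo := mog) (C1 := cd0q1) (C2 := cd3q1) (C3 := pd2)
    rfl k0_mm_112

noncomputable def f_mm_113 : ℕ → ℕ → ℕ → ℕ → Bool := onCell 536870912 536870912 536870912 536870912 991146299 28908434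
    (rowB 3 eng mog cd0q1 cd3q1 pd3 0 true false false .nn 1 1 3 (qsf 536870912 536870912 536870912 536870912 3) ndB0q1 ndB3q1 pcB3 Cut.none Ext.none)

def k0_mm_113 : ∃ t, chk3 f_mm_113 t 1 1 1 = true :=
  ⟨(l 4), by decide +kernel⟩

theorem c_mm_113 : CertB 536870912 536870912 536870912 536870912 991146299 28908434 3 eng mog cd0q1 cd3q1 pd3 true false false .nn 1 1 3
    ndB0q1 ndB3q1 pcB3 Cut.none Ext.none :=
  certB0 (fam := true) (s1 := false) (s2 := false) (a := 1) (b := 1) (c := 3) (cn := .nn) (n1 := ndB0q1) (n2 := ndB3q1) (pc := pcB3) (cut := Cut.none) (xt := Ext.none) (P1 := 536870912) (W1 := 536870912) (P2 := 536870912) (W2 := 536870912) (P3 := 991146299) (W3 := 28908434) (N0 := 3) (En := eng) (mo := mog) (C1 := cd0q1) (C2 := cd3q1) (C3 := pd3)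
    rfl k0_mm_113

noncomputable def f_mm_123 : ℕ → ℕ → ℕ → ℕ → Bool := onCell 536870912 536870912 1073741824 536870912 991146299 28908434
    (rowB 3 eng mog cd0q1 cd3q2 pd3 0 true false false .npn 1 2 3 (qsf 536870912 536870912 1073741824 536870912 3) ndB0q1 ndB3q2 pcB3 Cut.none Ext.none)

def k0_mm_123 : ∃ t, chk3 f_mm_123 t 1 1 1 = true :=
  ⟨(l 4), by decide +kernel⟩

theorem c_mm_123 : CertB 536870912 536870912 1073741824 536870912 991146299 28908434 3 eng mog cd0q1 cd3q2 pd3 true false false .npn 1 2 3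
    ndB0q1 ndB3q2 pcB3 Cut.none Ext.none :=
  certB0 (fam := true) (s1 := false) (s2 := false) (a := 1) (b := 2) (c := 3) (cn := .npn) (n1 := ndB0q1) (n2 := ndB3q2) (pc := pcB3) (cut := Cut.none) (xt := Ext.none) (P1 := 536870912) (W1 := 536870912) (P2 := 1073741824) (W2 := 536870912) (P3 := 991146299) (W3 := 28908434) (N0 := 3) (En := eng) (mo := mog) (C1 := cd0q1) (C2 := cd3q2) (C3 := pd3)
    rfl k0_mm_123

noncomputable def f_mm_133 : ℕ → ℕ → ℕ → ℕ → Bool := onCell 1610612736 536870912 0 1230186008 991146299 28908434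
    (rowB 3 eng mog cd0q1 cd3q3 pd3 2 true false false .dn 1 3 3 (qsf 536870912 536870912 0 1230186008 3) ndB0q1 ndB3q3 pcB3 Cut.none Ext.none)

def k0_mm_133 : ∃ t, chk3 f_mm_133 t 1 1 1 = true :=
  ⟨(l 5), by decide +kernel⟩

theorem c_mm_133 : CertB 536870912 536870912 0 1230186008 991146299 28908434 3 eng mog cd0q1 cd3q3 pd3 true false false .dn 1 3 3
    ndB0q1 ndB3q3 pcB3 Cut.none Ext.none :=
  certB2 (fam := true) (s1 := false) (s2 := false) (a := 1) (b := 3) (c := 3) (cn := .dn) (n1 := ndB0q1) (n2 := ndB3q3) (pc := pcB3) (cut := Cut.none) (xt := Ext.none) (P1 := 536870912) (W1 := 536870912) (P2 := 0) (W2 := 1230186008) (P3 := 991146299) (W3 := 28908434) (N0 := 3) (En := eng) (mo := mog) (C1 := cd0q1) (C2 := cd3q3) (C3 := pd3)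
    rfl (fun _ => rfl) k0_mm_133

noncomputable def f_mm_202 : ℕ → ℕ → ℕ → ℕ → Bool := onCell 0 536870912 0 536870912 991146299 28908434
    (rowB 3 eng mog cd0q2 cd3q0 pd2 0 true false false .pp 2 0 2 (qsf 0 536870912 0 536870912 2) ndB0q2 ndB3q0 pcB2 Cut.none Ext.none)

def k0_mm_202 : ∃ t, chk3 f_mm_202 t 2 4 1 = true :=
  ⟨(a (a (b (b (b (l 16211152) (b (l 16369120) (l 16274056))) (b (b (l 16185032) (l 16109960)) (b (l 16076824) (l 16056528)))) (b (b (c (l 16055784) (l 16016744)) (b (l 16028672) (l 16018544))) (b (l 16010352) (l 16016624)))) (b (b (b (l 16255576) (l 16268448)) (b (b (l 16236904) (l 16109272)) (b (l 16150344) (l 16141224)))) (b (b (c (l 16145264) (l 16129648)) (b (l 16145488) (l 16145488))) (c (l 16162072) (l 16036448))))) (a (b (b (b (b (l 16335072) (l 16512600)) (c (l 16393072) (l 16390848))) (b (b (l 16287040) (c (l 16233656) (l 16227160))) (c (l 16152480) (l 16131680)))) (b (b (c (l 16222976) (l 16231152)) (c (l 16242888) (l 16175520))) (b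 (c (l 16254824) (l 16236176)) (a (l 16248032) (l 4))))) (b (b (b (c (l 16275696) (b (l 16430688) (l 16537456))) (c (l 16412248) (l 16400408))) (b (b (l 16193400) (c (l 16263280) (l 16272560))) (c (b (l 16254464) (l 16259048)) (b (l 16269760) (l 16280152))))) (b (a (b (c (l 16265184) (l 16290272)) (c (l 16291080) (l 16323720))) (b (c (l 16284976) (l 16317568)) (l 4))) (l 4))))), by decide +kernel⟩

def k1_mm_202 : ∃ t, chk3 f_mm_202 t 3 4 1 = true :=
  ⟨(b (a (a (b (c (b (a (l 16557408) (l 16543384)) (a (l 16409208) (l 16354184))) (b (a (l 16546104) (l 16496984)) (a (l 16422176) (l 16397352)))) (b (b (a (l 16321056) (c (l 16307104) (l 16320392))) (a (b (l 16279552) (l 16265768)) (c (l 16268384) (l 16286136)))) (a (b (c (l 16263352) (l 16286504)) (l 16187200)) (l 4)))) (b (a (c (b (l 16392248) (b (l 16409536) (l 16357848))) (b (l 16360368) (b (l 16416776) (l 16367328)))) (b (b (c (l 16427648) (l 16376128)) (c (l 79690859079) (a (l 16456584) (l 16452952)))) (b (a (l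 16345680) (l 4)) (l 4)))) (l 4))) (a (b (a (b (b (a (c (l 16505328) (l 16477304)) (l 4)) (l 4)) (l 4)) (l 4)) (l 4)) (l 4))) (a (l 4) (l 4))), by decide +kernel⟩

def k2_mm_202 : ∃ t, chk3 f_mm_202 t 1 5 1 = true :=
  ⟨(a (b (a (b (a (c (l 16065856) (l 16053352)) (b (c (l 16200512) (l 16218528)) (c (l 16222472) (l 16249816)))) (a (b (l 15901688) (c (l 16160520) (l 16187048))) (b (a (l 16239312) (l 4)) (l 4)))) (b (l 4) (l 4))) (a (b (a (b (a (l 16184552) (l 4)) (l 4)) (l 4)) (l 4)) (l 4))) (l 4)), by decide +kernel⟩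

def k3_mm_202 : ∃ t, chk3 f_mm_202 t 1 3 1 = true :=
  ⟨(l 4), by decide +kernel⟩

theorem s4_mm_202 : ∃ t, chk3 f_mm_202 t 1 4 1 = true := ex3_a k0_mm_202 k1_mm_202

theorem s5_mm_202 : ∃ t, chk3 f_mm_202 t 1 2 1 = true := ex3_b s4_mm_202 k2_mm_202

theorem s6_mm_202 : ∃ t, chk3 f_mm_202 t 1 1 1 = true := ex3_b s5_mm_202 k3_mm_202

theorem c_mm_202 : CertB 0 536870912 0 536870912 991146299 28908434 3 eng mog cd0q2 cd3q0 pd2 true false false .pp 2 0 2
    ndB0q2 ndB3q0 pcB2 Cut.none Ext.none :=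
  certB0 (fam := true) (s1 := false) (s2 := false) (a := 2) (b := 0) (c := 2) (cn := .pp) (n1 := ndB0q2) (n2 := ndB3q0) (pc := pcB2) (cut := Cut.none) (xt := Ext.none) (P1 := 0) (W1 := 536870912) (P2 := 0) (W2 := 536870912) (P3 := 991146299) (W3 := 28908434) (N0 := 3) (En := eng) (mo := mog) (C1 := cd0q2) (C2 := cd3q0) (C3 := pd2)
    rfl s6_mm_202

noncomputable def f_mm_203 : ℕ → ℕ → ℕ → ℕ → Bool := onCell 0 536870912 1610612736 536870912 991146299 28908434
    (rowB 3 eng mog cd0q2 cd3q0 pd3 1 true false false .up 2 0 3 (qsf 0 536870912 0 536870912 3) ndB0q2 ndB3q0 pcB3 Cut.none Ext.none)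

def k0_mm_203 : ∃ t, chk3 f_mm_203 t 1 1 1 = true :=
  ⟨(l 4), by decide +kernel⟩

theorem c_mm_203 : CertB 0 536870912 0 536870912 991146299 28908434 3 eng mog cd0q2 cd3q0 pd3 true false false .up 2 0 3
    ndB0q2 ndB3q0 pcB3 Cut.none Ext.none :=
  certB1 (fam := true) (s1 := false) (s2 := false) (a := 2) (b := 0) (c := 3) (cn := .up) (n1 := ndB0q2) (n2 := ndB3q0) (pc := pcB3) (cut := Cut.none) (xt := Ext.none) (P1 := 0) (W1 := 536870912) (P2 := 0) (W2 := 536870912) (P3 := 991146299) (W3 := 28908434) (N0 := 3) (En := eng) (mo := mog) (C1 := cd0q2) (C2 := cd3q0) (C3 := pd3)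
    rfl (fun _ => rfl) k0_mm_203

noncomputable def f_mm_213 : ℕ → ℕ → ℕ → ℕ → Bool := onCell 0 536870912 536870912 536870912 991146299 28908434
    (rowB 3 eng mog cd0q2 cd3q1 pd3 0 true false false .pnn 2 1 3 (qsf 0 536870912 536870912 536870912 3) ndB0q2 ndB3q1 pcB3 Cut.none Ext.none)

def k0_mm_213 : ∃ t, chk3 f_mm_213 t 1 1 1 = true :=
  ⟨(l 4), by decide +kernel⟩

theorem c_mm_213 : CertB 0 536870912 536870912 536870912 991146299 28908434 3 eng mog cd0q2 cd3q1 pd3 true false false .pnn 2 1 3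
    ndB0q2 ndB3q1 pcB3 Cut.none Ext.none :=
  certB0 (fam := true) (s1 := false) (s2 := false) (a := 2) (b := 1) (c := 3) (cn := .pnn) (n1 := ndB0q2) (n2 := ndB3q1) (pc := pcB3) (cut := Cut.none) (xt := Ext.none) (P1 := 0) (W1 := 536870912) (P2 := 536870912) (W2 := 536870912) (P3 := 991146299) (W3 := 28908434) (N0 := 3) (En := eng) (mo := mog) (C1 := cd0q2) (C2 := cd3q1) (C3 := pd3)
    rfl k0_mm_213

end Pool.Agent.Strip051.G.I9231_9500.Tab.C.BA03

namespace Pool.Agent.Strip051.G.I9231_9500.Tab.C.BA04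

open Pool.Agent.Strip051.PB Pool.Agent.Strip051.PB.T
open Pool.Agent.Strip051.G.I9231_9500.Tab

noncomputable def f_pp_001 : ℕ → ℕ → ℕ → ℕ → Bool := onCell 0 536870912 0 536870912 991146299 28908434
    (rowB 3 eng mog cd0q0 cd4q0 pd1 0 true true true .up 0 0 1 (qsf 0 536870912 0 536870912 1) ndB0q0 ndB4q0 pcB1 Cut.none Ext.none)

def k0_pp_001 : ∃ t, chk3 f_pp_001 t 1 1 1 = true :=
  ⟨(l 4), by decide +kernel⟩

theorem c_pp_001 : CertB 0 536870912 0 536870912 991146299 28908434 3 eng mog cd0q0 cd4q0 pd1 true true true .up 0 0 1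
    ndB0q0 ndB4q0 pcB1 Cut.none Ext.none :=
  certB0 (fam := true) (s1 := true) (s2 := true) (a := 0) (b := 0) (c := 1) (cn := .up) (n1 := ndB0q0) (n2 := ndB4q0) (pc := pcB1) (cut := Cut.none) (xt := Ext.none) (P1 := 0) (W1 := 536870912) (P2 := 0) (W2 := 536870912) (P3 := 991146299) (W3 := 28908434) (N0 := 3) (En := eng) (mo := mog) (C1 := cd0q0) (C2 := cd4q0) (C3 := pd1)
    rfl k0_pp_001

noncomputable def f_pp_011 : ℕ → ℕ → ℕ → ℕ → Bool := onCell 0 536870912 536870912 536870912 991146299 28908434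
    (rowB 3 eng mog cd0q0 cd4q1 pd1 0 true true true .pnn 0 1 1 (qsf 0 536870912 536870912 536870912 1) ndB0q0 ndB4q1 pcB1 Cut.none Ext.none)

def k0_pp_011 : ∃ t, chk3 f_pp_011 t 1 1 1 = true :=
  ⟨(l 4), by decide +kernel⟩

theorem c_pp_011 : CertB 0 536870912 536870912 536870912 991146299 28908434 3 eng mog cd0q0 cd4q1 pd1 true true true .pnn 0 1 1
    ndB0q0 ndB4q1 pcB1 Cut.none Ext.none :=
  certB0 (fam := true) (s1 := true) (s2 := true) (a := 0) (b := 1) (c := 1) (cn := .pnn) (n1 := ndB0q0) (n2 := ndB4q1) (pc := pcB1) (cut := Cut.none) (xt := Ext.none) (P1 := 0) (W1 := 536870912) (P2 := 536870912) (W2 := 536870912) (P3 := 991146299) (W3 := 28908434) (N0 := 3) (En := eng) (mo := mog) (C1 := cd0q0) (C2 := cd4q1) (C3 := pd1)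
    rfl k0_pp_011

noncomputable def f_pp_012 : ℕ → ℕ → ℕ → ℕ → Bool := onCell 0 536870912 536870912 536870912 991146299 28908434
    (rowB 3 eng mog cd0q0 cd4q1 pd2 0 true true true .pnp 0 1 2 (qsf 0 536870912 536870912 536870912 2) ndB0q0 ndB4q1 pcB2 Cut.none Ext.none)

def k0_pp_012 : ∃ t, chk3 f_pp_012 t 1 1 1 = true :=
  ⟨(l 4), by decide +kernel⟩

theorem c_pp_012 : CertB 0 536870912 536870912 536870912 991146299 28908434 3 eng mog cd0q0 cd4q1 pd2 true true true .pnp 0 1 2
    ndB0q0 ndB4q1 pcB2 Cut.none Ext.none :=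
  certB0 (fam := true) (s1 := true) (s2 := true) (a := 0) (b := 1) (c := 2) (cn := .pnp) (n1 := ndB0q0) (n2 := ndB4q1) (pc := pcB2) (cut := Cut.none) (xt := Ext.none) (P1 := 0) (W1 := 536870912) (P2 := 536870912) (W2 := 536870912) (P3 := 991146299) (W3 := 28908434) (N0 := 3) (En := eng) (mo := mog) (C1 := cd0q0) (C2 := cd4q1) (C3 := pd2)
    rfl k0_pp_012

noncomputable def f_pp_022 : ℕ → ℕ → ℕ → ℕ → Bool := onCell 0 536870912 1073741824 536870912 991146299 28908434
    (rowB 3 eng mog cd0q0 cd4q2 pd2 0 true true true .pp 0 2 2 (qsf 0 536870912 1073741824 536870912 2) ndB0q0 ndB4q2 pcB2 Cut.none Ext.none)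

def k0_pp_022 : ∃ t, chk3 f_pp_022 t 1 1 1 = true :=
  ⟨(l 4), by decide +kernel⟩

theorem c_pp_022 : CertB 0 536870912 1073741824 536870912 991146299 28908434 3 eng mog cd0q0 cd4q2 pd2 true true true .pp 0 2 2
    ndB0q0 ndB4q2 pcB2 Cut.none Ext.none :=
  certB0 (fam := true) (s1 := true) (s2 := true) (a := 0) (b := 2) (c := 2) (cn := .pp) (n1 := ndB0q0) (n2 := ndB4q2) (pc := pcB2) (cut := Cut.none) (xt := Ext.none) (P1 := 0) (W1 := 536870912) (P2 := 1073741824) (W2 := 536870912) (P3 := 991146299) (W3 := 28908434) (N0 := 3) (En := eng) (mo := mog) (C1 := cd0q0) (C2 := cd4q2) (C3 := pd2)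
    rfl k0_pp_022

noncomputable def f_pp_023 : ℕ → ℕ → ℕ → ℕ → Bool := onCell 0 536870912 1073741824 536870912 991146299 28908434
    (rowB 3 eng mog cd0q0 cd4q2 pd3 0 true true true .up 0 2 3 (qsf 0 536870912 1073741824 536870912 3) ndB0q0 ndB4q2 pcB3 Cut.none Ext.none)

def k0_pp_023 : ∃ t, chk3 f_pp_023 t 1 1 1 = true :=
  ⟨(l 4), by decide +kernel⟩

theorem c_pp_023 : CertB 0 536870912 1073741824 536870912 991146299 28908434 3 eng mog cd0q0 cd4q2 pd3 true true true .up 0 2 3
    ndB0q0 ndB4q2 pcB3 Cut.none Ext.none :=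
  certB0 (fam := true) (s1 := true) (s2 := true) (a := 0) (b := 2) (c := 3) (cn := .up) (n1 := ndB0q0) (n2 := ndB4q2) (pc := pcB3) (cut := Cut.none) (xt := Ext.none) (P1 := 0) (W1 := 536870912) (P2 := 1073741824) (W2 := 536870912) (P3 := 991146299) (W3 := 28908434) (N0 := 3) (En := eng) (mo := mog) (C1 := cd0q0) (C2 := cd4q2) (C3 := pd3)
    rfl k0_pp_023

noncomputable def f_pp_033 : ℕ → ℕ → ℕ → ℕ → Bool := onCell 0 536870912 0 1230186008 991146299 28908434
    (rowB 3 eng mog cd0q0 cd4q3 pd3 0 true true true .pnn 0 3 3 (qsf 0 536870912 0 1230186008 3) ndB0q0 ndB4q3 pcB3 Cut.none Ext.none)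

def k0_pp_033 : ∃ t, chk3 f_pp_033 t 1 1 1 = true :=
  ⟨(b (l 4) (l 4)), by decide +kernel⟩

theorem c_pp_033 : CertB 0 536870912 0 1230186008 991146299 28908434 3 eng mog cd0q0 cd4q3 pd3 true true true .pnn 0 3 3
    ndB0q0 ndB4q3 pcB3 Cut.none Ext.none :=
  certB0 (fam := true) (s1 := true) (s2 := true) (a := 0) (b := 3) (c := 3) (cn := .pnn) (n1 := ndB0q0) (n2 := ndB4q3) (pc := pcB3) (cut := Cut.none) (xt := Ext.none) (P1 := 0) (W1 := 536870912) (P2 := 0) (W2 := 1230186008) (P3 := 991146299) (W3 := 28908434) (N0 := 3) (En := eng) (mo := mog) (C1 := cd0q0) (C2 := cd4q3) (C3 := pd3)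
    rfl k0_pp_033

noncomputable def f_pp_101 : ℕ → ℕ → ℕ → ℕ → Bool := onCell 536870912 536870912 0 536870912 991146299 28908434
    (rowB 3 eng mog cd0q1 cd4q0 pd1 0 true true true .npn 1 0 1 (qsf 536870912 536870912 0 536870912 1) ndB0q1 ndB4q0 pcB1 Cut.none Ext.none)

def k0_pp_101 : ∃ t, chk3 f_pp_101 t 1 1 1 = true :=
  ⟨(l 4), by decide +kernel⟩

theorem c_pp_101 : CertB 536870912 536870912 0 536870912 991146299 28908434 3 eng mog cd0q1 cd4q0 pd1 true true true .npn 1 0 1
    ndB0q1 ndB4q0 pcB1 Cut.none Ext.none :=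
  certB0 (fam := true) (s1 := true) (s2 := true) (a := 1) (b := 0) (c := 1) (cn := .npn) (n1 := ndB0q1) (n2 := ndB4q0) (pc := pcB1) (cut := Cut.none) (xt := Ext.none) (P1 := 536870912) (W1 := 536870912) (P2 := 0) (W2 := 536870912) (P3 := 991146299) (W3 := 28908434) (N0 := 3) (En := eng) (mo := mog) (C1 := cd0q1) (C2 := cd4q0) (C3 := pd1)
    rfl k0_pp_101

noncomputable def f_pp_102 : ℕ → ℕ → ℕ → ℕ → Bool := onCell 536870912 536870912 0 536870912 991146299 28908434
    (rowB 3 eng mog cd0q1 cd4q0 pd2 0 true true true .npp 1 0 2 (qsf 536870912 536870912 0 536870912 2) ndB0q1 ndB4q0 pcB2 Cut.none Ext.none)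

def k0_pp_102 : ∃ t, chk3 f_pp_102 t 1 1 1 = true :=
  ⟨(l 4), by decide +kernel⟩

theorem c_pp_102 : CertB 536870912 536870912 0 536870912 991146299 28908434 3 eng mog cd0q1 cd4q0 pd2 true true true .npp 1 0 2
    ndB0q1 ndB4q0 pcB2 Cut.none Ext.none :=
  certB0 (fam := true) (s1 := true) (s2 := true) (a := 1) (b := 0) (c := 2) (cn := .npp) (n1 := ndB0q1) (n2 := ndB4q0) (pc := pcB2) (cut := Cut.none) (xt := Ext.none) (P1 := 536870912) (W1 := 536870912) (P2 := 0) (W2 := 536870912) (P3 := 991146299) (W3 := 28908434) (N0 := 3) (En := eng) (mo := mog) (C1 := cd0q1) (C2 := cd4q0) (C3 := pd2)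
    rfl k0_pp_102

noncomputable def f_pp_112 : ℕ → ℕ → ℕ → ℕ → Bool := onCell 536870912 536870912 536870912 536870912 991146299 28908434
    (rowB 3 eng mog cd0q1 cd4q1 pd2 0 true true true .dn 1 1 2 (qsf 536870912 536870912 536870912 536870912 2) ndB0q1 ndB4q1 pcB2 Cut.none Ext.none)

def k0_pp_112 : ∃ t, chk3 f_pp_112 t 1 1 1 = true :=
  ⟨(l 4), by decide +kernel⟩

theorem c_pp_112 : CertB 536870912 536870912 536870912 536870912 991146299 28908434 3 eng mog cd0q1 cd4q1 pd2 true true true .dn 1 1 2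
    ndB0q1 ndB4q1 pcB2 Cut.none Ext.none :=
  certB0 (fam := true) (s1 := true) (s2 := true) (a := 1) (b := 1) (c := 2) (cn := .dn) (n1 := ndB0q1) (n2 := ndB4q1) (pc := pcB2) (cut := Cut.none) (xt := Ext.none) (P1 := 536870912) (W1 := 536870912) (P2 := 536870912) (W2 := 536870912) (P3 := 991146299) (W3 := 28908434) (N0 := 3) (En := eng) (mo := mog) (C1 := cd0q1) (C2 := cd4q1) (C3 := pd2)
    rfl k0_pp_112

noncomputable def f_pp_113 : ℕ → ℕ → ℕ → ℕ → Bool := onCell 536870912 536870912 536870912 536870912 991146299 28908434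
    (rowB 3 eng mog cd0q1 cd4q1 pd3 0 true true true .nn 1 1 3 (qsf 536870912 536870912 536870912 536870912 3) ndB0q1 ndB4q1 pcB3 Cut.none Ext.none)

def k0_pp_113 : ∃ t, chk3 f_pp_113 t 1 1 1 = true :=
  ⟨(l 4), by decide +kernel⟩

theorem c_pp_113 : CertB 536870912 536870912 536870912 536870912 991146299 28908434 3 eng mog cd0q1 cd4q1 pd3 true true true .nn 1 1 3
    ndB0q1 ndB4q1 pcB3 Cut.none Ext.none :=
  certB0 (fam := true) (s1 := true) (s2 := true) (a := 1) (b := 1) (c := 3) (cn := .nn) (n1 := ndB0q1) (n2 := ndB4q1) (pc := pcB3) (cut := Cut.none) (xt := Ext.none) (P1 := 536870912) (W1 := 536870912) (P2 := 536870912) (W2 := 536870912) (P3 := 991146299) (W3 := 28908434) (N0 := 3) (En := eng) (mo := mog) (C1 := cd0q1) (C2 := cd4q1) (C3 := pd3)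
    rfl k0_pp_113

noncomputable def f_pp_123 : ℕ → ℕ → ℕ → ℕ → Bool := onCell 536870912 536870912 1073741824 536870912 991146299 28908434
    (rowB 3 eng mog cd0q1 cd4q2 pd3 0 true true true .npn 1 2 3 (qsf 536870912 536870912 1073741824 536870912 3) ndB0q1 ndB4q2 pcB3 Cut.none Ext.none)

def k0_pp_123 : ∃ t, chk3 f_pp_123 t 1 1 1 = true :=
  ⟨(l 4), by decide +kernel⟩

theorem c_pp_123 : CertB 536870912 536870912 1073741824 536870912 991146299 28908434 3 eng mog cd0q1 cd4q2 pd3 true true true .npn 1 2 3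
    ndB0q1 ndB4q2 pcB3 Cut.none Ext.none :=
  certB0 (fam := true) (s1 := true) (s2 := true) (a := 1) (b := 2) (c := 3) (cn := .npn) (n1 := ndB0q1) (n2 := ndB4q2) (pc := pcB3) (cut := Cut.none) (xt := Ext.none) (P1 := 536870912) (W1 := 536870912) (P2 := 1073741824) (W2 := 536870912) (P3 := 991146299) (W3 := 28908434) (N0 := 3) (En := eng) (mo := mog) (C1 := cd0q1) (C2 := cd4q2) (C3 := pd3)
    rfl k0_pp_123

noncomputable def f_pp_133 : ℕ → ℕ → ℕ → ℕ → Bool := onCell 536870912 536870912 0 1230186008 991146299 28908434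
    (rowB 3 eng mog cd0q1 cd4q3 pd3 0 true true true .dn 1 3 3 (qsf 536870912 536870912 0 1230186008 3) ndB0q1 ndB4q3 pcB3 Cut.none Ext.none)

def k0_pp_133 : ∃ t, chk3 f_pp_133 t 1 1 1 = true :=
  ⟨(l 4), by decide +kernel⟩

theorem c_pp_133 : CertB 536870912 536870912 0 1230186008 991146299 28908434 3 eng mog cd0q1 cd4q3 pd3 true true true .dn 1 3 3
    ndB0q1 ndB4q3 pcB3 Cut.none Ext.none :=
  certB0 (fam := true) (s1 := true) (s2 := true) (a := 1) (b := 3) (c := 3) (cn := .dn) (n1 := ndB0q1) (n2 := ndB4q3) (pc := pcB3) (cut := Cut.none) (xt := Ext.none) (P1 := 536870912) (W1 := 536870912) (P2 := 0) (W2 := 1230186008) (P3 := 991146299) (W3 := 28908434) (N0 := 3) (En := eng) (mo := mog) (C1 := cd0q1) (C2 := cd4q3) (C3 := pd3)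
    rfl k0_pp_133

noncomputable def f_pp_202 : ℕ → ℕ → ℕ → ℕ → Bool := onCell 0 536870912 0 536870912 991146299 28908434
    (rowB 3 eng mog cd0q2 cd4q0 pd2 0 true true true .pp 2 0 2 (qsf 0 536870912 0 536870912 2) ndB0q2 ndB4q0 pcB2 Cut.none Ext.none)

def k0_pp_202 : ∃ t, chk3 f_pp_202 t 1 1 1 = true :=
  ⟨(l 4), by decide +kernel⟩

theorem c_pp_202 : CertB 0 536870912 0 536870912 991146299 28908434 3 eng mog cd0q2 cd4q0 pd2 true true true .pp 2 0 2
    ndB0q2 ndB4q0 pcB2 Cut.none Ext.none :=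
  certB0 (fam := true) (s1 := true) (s2 := true) (a := 2) (b := 0) (c := 2) (cn := .pp) (n1 := ndB0q2) (n2 := ndB4q0) (pc := pcB2) (cut := Cut.none) (xt := Ext.none) (P1 := 0) (W1 := 536870912) (P2 := 0) (W2 := 536870912) (P3 := 991146299) (W3 := 28908434) (N0 := 3) (En := eng) (mo := mog) (C1 := cd0q2) (C2 := cd4q0) (C3 := pd2)
    rfl k0_pp_202

noncomputable def f_pp_203 : ℕ → ℕ → ℕ → ℕ → Bool := onCell 0 536870912 0 536870912 991146299 28908434
    (rowB 3 eng mog cd0q2 cd4q0 pd3 0 true true true .up 2 0 3 (qsf 0 536870912 0 536870912 3) ndB0q2 ndB4q0 pcB3 Cut.none Ext.none)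

def k0_pp_203 : ∃ t, chk3 f_pp_203 t 1 1 1 = true :=
  ⟨(l 4), by decide +kernel⟩

theorem c_pp_203 : CertB 0 536870912 0 536870912 991146299 28908434 3 eng mog cd0q2 cd4q0 pd3 true true true .up 2 0 3
    ndB0q2 ndB4q0 pcB3 Cut.none Ext.none :=
  certB0 (fam := true) (s1 := true) (s2 := true) (a := 2) (b := 0) (c := 3) (cn := .up) (n1 := ndB0q2) (n2 := ndB4q0) (pc := pcB3) (cut := Cut.none) (xt := Ext.none) (P1 := 0) (W1 := 536870912) (P2 := 0) (W2 := 536870912) (P3 := 991146299) (W3 := 28908434) (N0 := 3) (En := eng) (mo := mog) (C1 := cd0q2) (C2 := cd4q0) (C3 := pd3)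
    rfl k0_pp_203

noncomputable def f_pp_213 : ℕ → ℕ → ℕ → ℕ → Bool := onCell 0 536870912 536870912 536870912 991146299 28908434
    (rowB 3 eng mog cd0q2 cd4q1 pd3 0 true true true .pnn 2 1 3 (qsf 0 536870912 536870912 536870912 3) ndB0q2 ndB4q1 pcB3 Cut.none Ext.none)

def k0_pp_213 : ∃ t, chk3 f_pp_213 t 1 1 1 = true :=
  ⟨(l 4), by decide +kernel⟩

theorem c_pp_213 : CertB 0 536870912 536870912 536870912 991146299 28908434 3 eng mog cd0q2 cd4q1 pd3 true true true .pnn 2 1 3
    ndB0q2 ndB4q1 pcB3 Cut.none Ext.none :=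
  certB0 (fam := true) (s1 := true) (s2 := true) (a := 2) (b := 1) (c := 3) (cn := .pnn) (n1 := ndB0q2) (n2 := ndB4q1) (pc := pcB3) (cut := Cut.none) (xt := Ext.none) (P1 := 0) (W1 := 536870912) (P2 := 536870912) (W2 := 536870912) (P3 := 991146299) (W3 := 28908434) (N0 := 3) (En := eng) (mo := mog) (C1 := cd0q2) (C2 := cd4q1) (C3 := pd3)
    rfl k0_pp_213

noncomputable def f_pm_001 : ℕ → ℕ → ℕ → ℕ → Bool := onCell 0 536870912 536870912 536870912 991146299 28908434
    (rowB 3 eng mog cd0q0 cd4q0 pd1 1 true true false .up 0 0 1 (qsf 0 536870912 0 536870912 1) ndB0q0 ndB4q0 pcB1 Cut.none Ext.none)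

def k0_pm_001 : ∃ t, chk3 f_pm_001 t 1 2 1 = true :=
  ⟨(l 3), by decide +kernel⟩

def k1_pm_001 : ∃ t, chk3 f_pm_001 t 2 3 1 = true :=
  ⟨(b (l 3) (l 2)), by decide +kernel⟩

def k2_pm_001 : ∃ t, chk3 f_pm_001 t 6 3 1 = true :=
  ⟨(b (l 3) (b (b (b (b (b (b (l 3) (l 2)) (l 2)) (l 2)) (l 2)) (l 2)) (l 2))), by decide +kernel⟩

def k3_pm_001 : ∃ t, chk3 f_pm_001 t 7 6 1 = true :=
  ⟨(b (l 3) (a (b (l 3) (b (b (l 3) (b (l 3) (a (l 3) (a (l 3) (a (l 3) (c (l 263233276311) (l 254642946823))))))) (b (a (l 3) (c (c (a (l 252495917383) (l 168744054839)) (a (a (l 241758293719) (l 165522631319)) (a (l 167133248503) (l 16114312)))) (c (a (a (l 236926265879) (l 164448693847)) (a (l 166059306711) (l 16001032))) (a (a (l 232094246679) (l 160690417799)) (a (l 162837902951) (l 15882696)))))) (a (a (a (l 3) (b (l 3) (b (l 3) (c (c (l 232631602935) (l 225652088295)) (c (l 219209450023) (l 213303688231)))))) (a (b (l 3) (c (c (l 171428337335) (l 168743780263)) (c (a (l 163374884119)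 (l 15954728)) (l 158542864791)))) (c (c (l 173038956967) (b (l 237463285383) (l 16074328))) (c (b (l 231557518791) (l 15956936)) (b (l 226725499207) (l 15834704)))))) (c (a (c (a (l 16194728) (l 16194952)) (c (l 158543360791) (l 160153857271))) (c (l 16194248) (l 16085456))) (c (a (a (b (l 15974800) (l 15959360)) (l 15969048)) (l 15971000)) (a (a (l 159616623783) (l 15848344)) (l 15851384)))))))) (b (a (l 3) (b (l 3) (b (l 3) (a (c (l 297056202439) (l 293297750647)) (c (l 172502134391) (l 168743692247)))))) (b (a (a (b (l 3) (c (c (l 155322383143) (l 161227737415)) (c (l 166059350391) (l 163911691543)))) (c (c (l 156932989527) (b (l 282023737047) (l 16136696))) (b (a (l 275044104103) (l 165522436471)) (c (l 16027712) (l 15913496))))) (c (a (b (l 171965245063) (l 16182888)) (b (l 16197936) (l 16174928))) (a (c (l 159616975847) (l 165522325095)) (c (l 16033008) (l 15923520))))) (c (a (a (b (c (l 16219480) (l 16113352)) (l 16138888)) (b (l 16163208) (l 16135264)))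 (a (l 16143816) (l 16136368))) (a (a (b (c (l 16001440) (l 15884312)) (l 15913600)) (b (l 15943360) (l 15913680))) (a (l 15927064) (l 15923976)))))))), by decide +kernel⟩

def k4_pm_001 : ∃ t, chk3 f_pm_001 t 14 7 1 = true :=
  ⟨(a (b (a (b (b (b (c (a (b (a (c (l 227262868999) (l 219746483063)) (c (l 173038908151) (l 167670006311))) (c (l 98883581399) (a (l 139148707191) (l 16034472)))) (c (b (l 173575784919) (l 16151088)) (c (l 160690760551) (l 162301254503)))) (a (b (c (c (l 215451375559) (l 212230057831)) (a (l 206324341127) (l 156395348615))) (c (a (l 139148520871) (l 15914760)) (l 89219345687))) (c (c (l 162301142903) (l 159079825687)) (c (l 155858509751) (l 15791512))))) (b (c (c (l 99957306487) (l 96199002759)) (c (l 92440721239) (l 89219316455))) (a (l 2) (c (l 16039448) (l 15800584))))) (a (l 2) (b (c (l 16033368) (l 15783816)) (l 2)))) (l 2)) (b (c (c (b (b (a (l 16140384) (l 16162848)) (l 16128768)) (l 16074832)) (b (b (a (b (l 16056272) (l 16039904))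 (l 16050456)) (l 16015720)) (l 15961624))) (c (b (b (a (b (l 15937920) (l 15921360)) (l 15932712)) (l 15897296)) (l 15842960)) (b (b (c (l 15860432) (l 15776800)) (l 15773872)) (l 15719168)))) (b (c (l 15940536) (l 15703432)) (l 2)))) (l 2)) (b (b (c (b (a (b (c (l 16164032) (l 16052936)) (a (l 16075504) (l 16076544))) (b (l 16088896) (l 16077128))) (a (b (l 16041000) (l 16004032)) (l 16024368))) (b (a (b (c (l 15936312) (l 15814608)) (l 15843160)) (b (l 15879904) (l 15846264))) (a (c (l 15848792) (l 15726136)) (l 15792616)))) (c (b (a (l 15945216) (l 15947808)) (l 15862864)) (b (a (l 15710504) (l 15715640)) (l 15629840)))) (a (l 2) (b (c (l 138611410695) (l 15561064)) (l 2))))), by decide +kernel⟩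

def k5_pm_001 : ∃ t, chk3 f_pm_001 t 15 7 1 = true :=
  ⟨(b (b (c (a (b (a (b (l 16108528) (l 16076176)) (l 16089496)) (a (l 16024040) (l 16021800))) (b (a (l 16084592) (l 16077872)) (l 16014976))) (a (b (a (c (l 15924328) (l 15805144)) (l 15865840)) (a (l 15795304) (l 15796248))) (c (l 15892176) (l 15771048)))) (c (a (b (l 15947968) (l 15866192)) (b (l 15941648) (l 15861984))) (a (b (l 15719912) (l 15637904)) (b (l 15719736) (l 15639104))))) (b (c (a (b (l 15778560) (l 15686312)) (b (l 15776784) (l 15687304))) (a (b (l 15550576) (l 15459216)) (l 15551304))) (c (a (l 133779117879) (l 15548064)) (a (l 129483736135) (l 15326184))))), by decide +kernel⟩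

theorem s6_pm_001 : ∃ t, chk3 f_pm_001 t 7 7 1 = true := ex3_a k4_pm_001 k5_pm_001

theorem s7_pm_001 : ∃ t, chk3 f_pm_001 t 7 3 1 = true := ex3_b k3_pm_001 s6_pm_001

theorem s8_pm_001 : ∃ t, chk3 f_pm_001 t 3 3 1 = true := ex3_a k2_pm_001 s7_pm_001

theorem s9_pm_001 : ∃ t, chk3 f_pm_001 t 1 3 1 = true := ex3_a k1_pm_001 s8_pm_001

theorem s10_pm_001 : ∃ t, chk3 f_pm_001 t 1 1 1 = true := ex3_b k0_pm_001 s9_pm_001

theorem c_pm_001 : CertB 0 536870912 0 536870912 991146299 28908434 3 eng mog cd0q0 cd4q0 pd1 true true false .up 0 0 1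
    ndB0q0 ndB4q0 pcB1 Cut.none Ext.none :=
  certB1 (fam := true) (s1 := true) (s2 := false) (a := 0) (b := 0) (c := 1) (cn := .up) (n1 := ndB0q0) (n2 := ndB4q0) (pc := pcB1) (cut := Cut.none) (xt := Ext.none) (P1 := 0) (W1 := 536870912) (P2 := 0) (W2 := 536870912) (P3 := 991146299) (W3 := 28908434) (N0 := 3) (En := eng) (mo := mog) (C1 := cd0q0) (C2 := cd4q0) (C3 := pd1)
    rfl (fun _ => rfl) s10_pm_001

noncomputable def cut_pm_011 : Cut := Cut.of [[⟨0, 0, 0, 53687091⟩, ⟨1, 1, 0, 53687091⟩, ⟨2, 1, 0, 53687091⟩]]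

noncomputable def f_pm_011 : ℕ → ℕ → ℕ → ℕ → Bool := onCell 0 536870912 536870912 536870912 991146299 28908434
    (rowB 3 eng mog cd0q0 cd4q1 pd1 1 true true false .pnn 0 1 1 (qsf 0 536870912 536870912 536870912 1) ndB0q0 ndB4q1 pcB1 cut_pm_011 Ext.none)

def k0_pm_011 : ∃ t, chk3 f_pm_011 t 1 2 1 = true :=
  ⟨(l 3), by decide +kernel⟩

def k1_pm_011 : ∃ t, chk3 f_pm_011 t 2 6 1 = true :=
  ⟨(l 3), by decide +kernel⟩

def k2_pm_011 : ∃ t, chk3 f_pm_011 t 4 14 1 = true :=
  ⟨(l 3), by decide +kernel⟩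

def k3_pm_011 : ∃ t, chk3 f_pm_011 t 8 15 1 = true :=
  ⟨(b (l 3) (a (b (l 3) (l 6)) (b (b (l 3) (b (l 3) (a (l 3) (a (b (l 3) (a (l 3) (c (b (l 377051057287) (l 208473604935)) (l 323363957319)))) (c (b (a (l 384030376423) (l 199346796055)) (a (l 224579716919) (l 16717360))) (a (l 209010451959) (l 189146232967))))))) (a (a (b (b (a (l 3) (b (l 3) (c (b (l 3) (l 387788495175)) (l 431275028023)))) (b (a (l 6) (c (b (l 190220001623) (l 6)) (l 16734664))) (l 6))) (l 6)) (b (b (b (a (l 3) (c (b (l 3) (l 235317161143)) (l 331417034439))) (c (a (b (l 375440457287) (l 188072521815)) (l 219211018615)) (a (l 268603140279) (l 16721280)))) (a (b (c (l 16729456) (l 16722600)) (l 16710552)) (c (l 16731376) (l 16713888)))) (b (c (a (l 16716592) (l 16710680)) (l 16707528)) (c (l 16703784) (l 16698544))))) (b (c (a (b (b (a (l 239075241927) (l 16722928)) (a (l 16723080) (l 16717544))) (a (l 16715160) (l 16709640))) (b (b (l 16735656) (l 16709312)) (l 16701440))) (a (b (a (l 306720921575)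 (l 16711904)) (l 16704936)) (b (l 16703232) (l 16693416)))) (b (a (c (l 16702216) (l 16695528)) (l 16687744)) (a (l 16668592) (l 16678440)))))))), by decide +kernel⟩

def k4_pm_011 : ∃ t, chk3 f_pm_011 t 9 15 1 = true :=
  ⟨(b (a (l 3) (b (l 3) (b (l 3) (b (a (l 3) (c (a (l 490330688183) (l 16690072)) (l 494625581463))) (c (a (a (l 433422449063) (l 326048195847)) (a (l 16673232) (l 16657624))) (a (l 519858558599) (l 16648208))))))) (a (b (b (a (a (l 3) (b (l 3) (c (b (l 3) (l 421074429463)) (l 466171589159)))) (a (b (l 3) (c (a (l 341617511367) (l 166597648023)) (l 329806309543))) (b (c (l 416779415047) (l 521469217335)) (c (b (l 16718176) (l 16691288)) (l 16680872))))) (a (a (b (c (b (l 413558239047) (a (l 225653471095) (l 183777529351))) (l 481740814391)) (c (a (b (l 16717200) (l 16711648)) (l 16708504)) (a (l 16704568) (l 16698352)))) (b (c (b (a (l 200957398567) (l 16710088)) (l 16728584)) (l 310478966535)) (c (l 16678216) (l 16688536)))) (a (b (c (a (l 16700432)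 (l 16693360)) (l 16684928)) (c (l 16685672) (l 16674272))) (b (c (l 16682576) (l 16669760)) (l 16665320))))) (a (b (a (b (c (l 16700576) (l 16691240)) (l 16664872)) (b (l 16662432) (l 16673304))) (b (a (l 16676144) (l 16663648)) (a (l 16666888) (l 16654424)))) (b (a (c (l 16669536) (l 16659152)) (l 16628736)) (a (l 16624184) (l 16630464))))) (b (b (a (b (c (a (l 316921396887) (l 16676600)) (l 305647041831)) (a (c (l 16679584) (l 16665408)) (l 16657232))) (c (a (l 16655264) (l 16639608)) (l 16609944))) (a (c (a (l 16662240) (l 16647280)) (l 16620048)) (c (l 16624168) (l 16608712)))) (b (a (c (l 16633152) (l 16620720)) (l 16574608)) (a (l 16565864) (l 16576336)))))), by decide +kernel⟩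

def k5_pm_011 : ∃ t, chk3 f_pm_011 t 5 7 1 = true :=
  ⟨(b (a (l 3) (b (l 3) (a (b (l 3) (b (l 3) (c (a (l 265918524535) (l 16559624)) (l 373829313575)))) (b (a (l 3) (b (l 3) (l 224579307143))) (a (b (l 217600032935) (l 16530072)) (c (l 188072065127) (l 16455464))))))) (b (a (a (b (a (l 3) (b (l 3) (c (l 399599449927) (l 307794421975)))) (c (a (b (a (l 490867511687) (l 299741434551)) (a (l 16626496) (l 16631088))) (b (a (l 16678568) (l 16619736)) (l 16605752))) (a (b (l 304573225623) (l 16599120)) (b (l 16585240) (l 16584728))))) (b (a (b (l 3) (c (b (l 188072360263) (l 16609576)) (l 16589656))) (b (c (l 242833116807) (l 16572040)) (c (l 16579848) (l 16553544)))) (b (a (c (l 16593744) (l 16570016)) (c (l 16558448) (l 16533104))) (a (l 16496856) (l 16523424))))) (b (a (a (c (b (l 16564976) (l 16544264)) (l 183240140151)) (c (l 16539816) (l 16489400))) (a (a (l 16476784) (l 16458320)) (l 16472472))) (a (a (b (l 16509328) (l 16486464)) (b (l 16472208) (l 16449016)))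 (c (a (l 16436936) (l 16399376)) (l 16368232))))) (a (b (a (b (a (c (l 16615384) (l 16597096)) (l 16508912)) (a (l 16541640) (l 16548920))) (b (a (l 16536024) (l 16499480)) (a (l 16512976) (l 16476232)))) (a (a (b (l 16562544) (l 16543224)) (b (l 16527768) (l 16508328))) (b (a (l 16491656) (l 16454720)) (l 16411528)))) (b (a (a (a (l 16459760) (l 16440960)) (l 16412512)) (c (l 16368080) (l 16341248))) (a (a (l 16406720) (l 16368320)) (a (l 16329416) (l 16290120))))))), by decide +kernel⟩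

def k6_pm_011 : ∃ t, chk3 f_pm_011 t 3 3 1 = true :=
  ⟨(b (a (l 3) (b (l 1) (a (a (a (a (l 3) (l 1)) (l 1)) (l 1)) (l 1)))) (b (a (a (b (a (l 3) (b (l 3) (b (l 3) (a (l 214378596775) (l 205251723127))))) (c (a (b (a (l 219210561143) (l 210083684263)) (a (l 16452816) (l 16417072))) (b (a (l 16422896) (l 16389104)) (l 16363640))) (a (b (a (l 219747367767) (l 16420992)) (l 16443128)) (b (l 129016051831) (l 16329288))))) (b (a (b (c (b (l 3) (l 203641097415)) (l 196124877111)) (c (a (l 205251688471) (l 16342376)) (l 126331615191))) (b (c (a (l 200419771639) (l 196661614327)) (a (l 197735357607) (l 16281472))) (c (a (l 16332576) (l 16302248)) (l 16279368)))) (a (b (c (l 16338760) (l 16302360)) (c (l 16293432) (l 16258680))) (b (c (l 16273456) (l 16236792)) (l 16207800))))) (a (b (a (a (b (c (l 88750694471) (l 16275216)) (l 16243360)) (b (l 231960758375) (l 16225008))) (b (l 1) (l 202432722615))) (a (b (c (l 16210984) (l 16173824)) (l 16141856)) (b (l 16133240) (l 16079136))))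 (b (l 1) (a (l 160556594727) (l 1))))) (a (b (a (a (b (a (l 16393408) (l 16356288)) (c (l 16342504) (l 16312576))) (b (a (l 16319272) (l 16282440)) (l 16309296))) (a (b (l 16227720) (l 16176240)) (b (l 16156400) (l 16102408)))) (a (a (b (c (l 16290872) (l 16263176)) (l 16230592)) (b (l 16199344) (l 16150968))) (a (b (l 16122016) (l 16071704)) (b (l 16046072) (l 15993648))))) (a (b (a (b (l 16087520) (l 16030872)) (b (l 16021752) (l 15962352))) (a (b (l 15972296) (l 15917616)) (b (l 15901432) (l 15844400)))) (b (a (b (l 15959704) (l 15897496)) (l 187936649687)) (a (c (l 15818544) (l 15788920)) (l 15739744))))))), by decide +kernel⟩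

theorem s7_pm_011 : ∃ t, chk3 f_pm_011 t 4 15 1 = true := ex3_a k3_pm_011 k4_pm_011

theorem s8_pm_011 : ∃ t, chk3 f_pm_011 t 4 7 1 = true := ex3_b k2_pm_011 s7_pm_011

theorem s9_pm_011 : ∃ t, chk3 f_pm_011 t 2 7 1 = true := ex3_a s8_pm_011 k5_pm_011

theorem s10_pm_011 : ∃ t, chk3 f_pm_011 t 2 3 1 = true := ex3_b k1_pm_011 s9_pm_011

theorem s11_pm_011 : ∃ t, chk3 f_pm_011 t 1 3 1 = true := ex3_a s10_pm_011 k6_pm_011

theorem s12_pm_011 : ∃ t, chk3 f_pm_011 t 1 1 1 = true := ex3_b k0_pm_011 s11_pm_011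

theorem c_pm_011 : CertB 0 536870912 536870912 536870912 991146299 28908434 3 eng mog cd0q0 cd4q1 pd1 true true false .pnn 0 1 1
    ndB0q0 ndB4q1 pcB1 cut_pm_011 Ext.none :=
  certB1 (fam := true) (s1 := true) (s2 := false) (a := 0) (b := 1) (c := 1) (cn := .pnn) (n1 := ndB0q0) (n2 := ndB4q1) (pc := pcB1) (cut := cut_pm_011) (xt := Ext.none) (P1 := 0) (W1 := 536870912) (P2 := 536870912) (W2 := 536870912) (P3 := 991146299) (W3 := 28908434) (N0 := 3) (En := eng) (mo := mog) (C1 := cd0q0) (C2 := cd4q1) (C3 := pd1)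
    rfl (fun _ => rfl) s12_pm_011

noncomputable def cut_pm_012 : Cut := Cut.of [[⟨0, 0, 0, 53687091⟩, ⟨1, 1, 0, 53687091⟩, ⟨2, 1, 0, 53687091⟩]]

noncomputable def xt_pm_012 : Ext := extD3 3 ⟨4, 1, 1, 5, 22, 5, 21, 25, 41, 100, 1, 20⟩ eng cd0q0 cd4q1 pd2 true true false .pnp 0 1 2 rfl ndB0q0 ndB4q1 pcB2

noncomputable def f_pm_012 : ℕ → ℕ → ℕ → ℕ → Bool := onCell 0 536870912 1073741824 536870912 991146299 28908434
    (rowB 3 eng mog cd0q0 cd4q1 pd2 1 true true false .pnp 0 1 2 (qsf 0 536870912 536870912 536870912 2) ndB0q0 ndB4q1 pcB2 cut_pm_012 xt_pm_012)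

def k0_pm_012 : ∃ t, chk3 f_pm_012 t 2 8 1 = true :=
  ⟨(a (a (b (a (l 6) (a (l 6) (b (b (b (a (l 16666832) (l 16678584)) (l 597137823027829086772799)) (c (l 596939950828066150985471) (l 596248632317400984837695))) (b (c (l 593319488438325163355775) (l 593010505198838202756735)) (c (a (l 16518688) (l 16516296)) (l 589046183919701918936703)))))) (a (b (l 6) (l 2)) (b (a (l 6) (b (c (a (l 16452720) (l 16451744)) (l 585133455894252027293311)) (c (a (l 16386928) (l 16387320)) (a (l 16363016) (l 16363400))))) (a (a (l 2) (b (a (l 2) (l 16316696)) (l 2))) (b (a (c (l 16321384) (l 16294344)) (c (l 16323096) (l 16296184))) (a (a (l 2) (l 16242096)) (c (l 16259152) (l 16229328)))))))) (b (a (b (a (b (a (l 16636280) (l 16647208)) (c (l 16596120) (l 16605272))) (b (a (l 16635152) (l 16622192)) (l 16562264))) (a (c (b (l 16575712) (l 16513264)) (b (l 16560792) (l 16495320))) (c (l 589940851317820233394239) (l 16441608)))) (b (a (b (l 16581144) (l 16599424)) (b (l 16574072)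 (l 16616320))) (c (l 588433694115773868879423) (b (l 16533512) (l 16496584))))) (a (a (b (c (b (l 16450808) (l 16388408)) (b (l 16429904) (l 16364624))) (c (b (l 16326128) (l 16264064)) (b (l 16299544) (l 16234752)))) (b (c (l 584079397244837966425727) (l 582483465358928605947967)) (c (l 138325468110700671) (l 16297112)))) (b (a (c (l 16427320) (l 16406320)) (l 16338752)) (a (c (l 16312896) (l 16287232)) (b (l 16338904) (l 16283024))))))) (a (b (a (b (a (l 16498112) (l 16486864)) (a (l 16471976) (l 16516168))) (b (a (l 16474200) (l 16439680)) (l 16457760))) (a (b (c (l 16420640) (l 16423840)) (a (l 16322440) (l 16334728))) (b (c (l 16455544) (l 16441264)) (l 16311888)))) (b (a (c (l 16335032) (l 16364248)) (b (l 16292480) (l 16379664))) (a (c (l 16385344) (l 16373464)) (l 16314080))))), by decide +kernel⟩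

def k1_pm_012 : ∃ t, chk3 f_pm_012 t 2 9 1 = true :=
  ⟨(a (a (b (b (a (l 2) (a (l 2) (a (l 2) (b (l 16179424) (l 2))))) (l 2)) (l 2)) (b (a (a (b (b (c (l 16191800) (l 16170352)) (a (l 16120720) (l 16127112))) (a (l 2) (c (l 16053776) (l 16016120)))) (b (c (b (l 16213888) (l 16154752)) (l 16152544)) (c (a (l 16062400) (l 16071592)) (a (l 16025680) (l 16035896))))) (b (a (c (l 16198712) (l 16168672)) (c (l 16213240) (l 16185128))) (a (c (l 16085440) (l 16051360)) (c (l 16104088) (l 16072304))))) (a (a (l 2) (b (a (l 2) (l 15958664)) (l 2))) (b (a (c (l 15973920) (l 15936200)) (c (l 15996240) (l 15961136))) (a (a (l 2) (l 15851856)) (c (l 15890856) (l 15852880))))))) (a (b (b (a (a (l 16215416) (l 16232224)) (l 16236968)) (a (a (l 16108656) (l 16129608)) (l 16161400))) (a (b (a (l 16002920) (l 16027584)) (a (l 15899304) (l 15927152))) (b (l 16022904) (a (l 15955160) (l 15982808))))) (b (a (b (l 16291008) (l 16202336)) (b (l 16321808) (l 16240728))) (a (b (l 16112904)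 (l 16023416)) (b (l 16158256) (l 16074928)))))), by decide +kernel⟩

def k2_pm_012 : ∃ t, chk3 f_pm_012 t 3 4 1 = true :=
  ⟨(a (b (b (a (a (c (l 16260424) (l 16300232)) (c (l 16139608) (l 16207040))) (c (a (l 16162464) (l 16110656)) (a (l 16214496) (l 16168360)))) (a (a (l 16270680) (c (l 16289968) (l 16328832))) (a (c (l 16219392) (l 16262144)) (l 16040744)))) (a (b (a (l 16270648) (l 16171176)) (a (l 16098528) (l 16200936))) (b (a (l 16108560) (l 16229176)) (a (l 16166448) (l 16244096))))) (c (a (b (a (l 15919792) (l 15956664)) (b (l 16127744) (l 16161088))) (b (b (l 15957520) (l 15998592)) (b (l 16032520) (l 16058744)))) (a (b (b (l 16040408) (l 16097848)) (b (l 16169936) (l 16193248))) (b (b (l 16028112) (l 16054584)) (l 16019528))))), by decide +kernel⟩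

def k3_pm_012 : ∃ t, chk3 f_pm_012 t 1 5 1 = true :=
  ⟨(a (a (b (b (a (l 2) (b (a (l 2) (a (l 2) (b (l 15794512) (l 2)))) (l 2))) (l 2)) (l 2)) (b (b (b (a (a (a (c (l 15818312) (l 15781288)) (l 15830224)) (c (l 15890072) (l 15861432))) (a (l 15935096) (l 15991640))) (a (b (a (a (l 15730352) (l 15761712)) (l 15788144)) (a (a (l 2) (b (l 15731400) (b (l 15720008) (l 15713432)))) (b (l 15778896) (b (l 15766840) (l 15738672))))) (b (a (l 15870840) (l 15930080)) (b (a (l 15840904) (l 15900672)) (a (b (l 15828168) (l 15799304)) (l 15883000)))))) (a (a (b (a (l 2) (l 15653752)) (l 2)) (c (a (l 15647816) (l 15680272)) (l 15675424))) (a (c (l 15728600) (l 15704408)) (l 15782160)))) (a (a (l 2) (b (a (l 2) (l 15448312)) (l 2))) (a (b (c (l 15523280) (l 15496872)) (a (l 2) (l 15317344))) (b (l 15590064) (c (l 15399560) (l 15377088))))))) (a (a (b (b (b (a (l 16044400) (l 16092216)) (b (l 15991416) (b (l 15984184) (a (l 15939080) (l 15989656))))) (a (l 15844672) (l 15902984)))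 (a (b (l 15666440) (l 15479032)) (b (l 15738152) (l 15564584)))) (a (b (b (b (l 16130528) (b (l 16079248) (b (l 16053176) (b (l 16039976) (l 16030736))))) (l 15891536)) (a (l 15707408) (b (l 15817560) (l 15661424)))) (b (b (l 16122008) (l 15991160)) (b (l 15852024) (l 15704944))))) (b (a (b (a (l 16142552) (l 16158960)) (a (l 16021904) (l 16048096))) (b (l 16085544) (l 16076624))) (a (b (a (l 15893232) (l 15929416)) (a (l 15756968) (l 15803432))) (c (l 15912384) (l 15859488)))))), by decide +kernel⟩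

def k4_pm_012 : ∃ t, chk3 f_pm_012 t 1 3 1 = true :=
  ⟨(a (a (l 2) (b (a (l 2) (b (a (l 2) (b (l 15219016) (l 2))) (l 2))) (l 2))) (a (a (b (b (a (b (l 15282728) (l 15077880)) (b (l 15382608) (l 15192568))) (a (l 2) (b (l 14994856) (l 2)))) (l 2)) (a (b (a (b (l 15322352) (b (l 15086952) (l 2))) (b (b (l 15497248) (l 15325328)) (b (l 15146008) (l 14959720)))) (l 2)) (b (b (c (b (l 15553288) (l 15391360)) (l 15257912)) (b (c (l 15222400) (l 15217200)) (c (l 15046640) (l 15041912)))) (a (l 2) (b (b (l 14891936) (l 2)) (l 2)))))) (b (a (b (b (a (l 15613504) (l 15670584)) (a (l 15463232) (l 15531296))) (c (a (l 15079032) (l 15308176)) (a (l 15101168) (l 15294472)))) (b (a (b (l 15720296) (l 15591336)) (b (l 15761424) (l 15642088))) (c (a (l 15381368) (l 15444216)) (a (l 15394856) (l 15463848))))) (b (a (c (a (b (l 14974040) (l 14799720)) (l 14762576)) (a (b (l 14978400) (l 14806656)) (l 14860616))) (c (a (l 15088456) (l 15171976)) (a (l 15110688) (l 15201584)))) (b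 (a (a (l 2) (a (l 2) (l 14784840))) (a (l 14766904) (l 14975704))) (a (l 2) (c (l 14567648) (l 14653168)))))))), by decide +kernel⟩

theorem s5_pm_012 : ∃ t, chk3 f_pm_012 t 2 4 1 = true := ex3_b k0_pm_012 k1_pm_012

theorem s6_pm_012 : ∃ t, chk3 f_pm_012 t 1 4 1 = true := ex3_a s5_pm_012 k2_pm_012

theorem s7_pm_012 : ∃ t, chk3 f_pm_012 t 1 2 1 = true := ex3_b s6_pm_012 k3_pm_012

theorem s8_pm_012 : ∃ t, chk3 f_pm_012 t 1 1 1 = true := ex3_b s7_pm_012 k4_pm_012

theorem c_pm_012 : CertB 0 536870912 536870912 536870912 991146299 28908434 3 eng mog cd0q0 cd4q1 pd2 true true false .pnp 0 1 2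
    ndB0q0 ndB4q1 pcB2 cut_pm_012 xt_pm_012 :=
  certB1 (fam := true) (s1 := true) (s2 := false) (a := 0) (b := 1) (c := 2) (cn := .pnp) (n1 := ndB0q0) (n2 := ndB4q1) (pc := pcB2) (cut := cut_pm_012) (xt := xt_pm_012) (P1 := 0) (W1 := 536870912) (P2 := 536870912) (W2 := 536870912) (P3 := 991146299) (W3 := 28908434) (N0 := 3) (En := eng) (mo := mog) (C1 := cd0q0) (C2 := cd4q1) (C3 := pd2)
    rfl (fun _ => rfl) s8_pm_012

noncomputable def f_pm_022 : ℕ → ℕ → ℕ → ℕ → Bool := onCell 1073741824 536870912 1073741824 536870912 991146299 28908434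
    (rowB 3 eng mog cd0q0 cd4q2 pd2 2 true true false .pp 0 2 2 (qsf 0 536870912 1073741824 536870912 2) ndB0q0 ndB4q2 pcB2 Cut.none Ext.none)

def k0_pm_022 : ∃ t, chk3 f_pm_022 t 4 1 1 = true :=
  ⟨(b (l 3) (l 1)), by decide +kernel⟩

def k1_pm_022 : ∃ t, chk3 f_pm_022 t 10 4 1 = true :=
  ⟨(a (a (a (b (b (c (b (l 142436964839) (l 16020688)) (b (c (l 15789712) (l 15674080)) (l 164985154823))) (l 3)) (l 3)) (b (b (c (b (l 16034240) (l 16048216)) (b (a (l 15772472) (l 15791616)) (l 15817864))) (c (b (l 16061128) (l 16073200)) (b (l 15853152) (l 15888264)))) (b (c (b (l 16082392) (l 16088720)) (b (l 15921008) (l 15951368))) (c (l 823189606135) (l 339468787463))))) (a (b (b (c (b (a (l 16055008) (l 16069480)) (l 16054976)) (c (a (l 15887968) (l 15905000)) (a (l 15766376) (l 15785256)))) (c (b (l 16088184) (l 16100256)) (b (l 15888776) (l 15923528)))) (b (c (b (l 16109712) (l 16116296)) (b (l 15956128) (l 15986320))) (c (b (l 16122640) (l 16131776)) (b (l 16016952)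 (l 16051320))))) (a (b (b (c (b (l 16090256) (l 16101176)) (b (l 15851656) (l 15884112))) (c (b (l 16111576) (l 16121560)) (b (l 15916488) (l 15948944)))) (b (c (l 16134600) (l 15891704)) (c (l 16145960) (l 16055904)))) (b (b (c (a (l 16116656) (b (l 16124776) (l 16135720))) (b (a (l 15873616) (l 15887792)) (a (l 15905712) (l 15919904)))) (c (a (l 16135816) (l 16149744)) (b (l 15943856) (l 15974808)))) (b (c (a (l 16150032) (l 16164696)) (b (l 16005680) (l 16034152))) (c (a (l 16157920) (l 16170672)) (a (l 16068800) (l 16081416)))))))) (c (b (b (b (l 16101344) (l 16174112)) (b (l 16204088) (l 16212280))) (b (b (l 16138160) (l 16225672)) (b (l 16226360) (l 16229408)))) (b (b (b (a (l 15928792) (l 15995856)) (l 15929680)) (b (l 16022120) (l 16051496))) (b (b (l 15936464) (l 16109072)) (b (l 16132432) (l 16159080)))))), by decide +kernel⟩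

def k2_pm_022 : ∃ t, chk3 f_pm_022 t 11 4 1 = true :=
  ⟨(a (b (b (c (l 16141848) (b (l 16091312) (l 16116096))) (c (l 16198160) (l 16028232))) (b (b (l 16106432) (l 16141976)) (b (l 16095656) (l 16211088)))) (b (c (b (l 16312664) (l 16384104)) (b (l 16176944) (l 16237064))) (b (c (l 16391880) (l 16299680)) (l 16222568)))), by decide +kernel⟩

def k3_pm_022 : ∃ t, chk3 f_pm_022 t 5 5 1 = true :=
  ⟨(b (a (a (a (l 3) (a (b (c (a (l 16148928) (l 16158336)) (a (l 16107152) (l 16118536))) (l 1)) (a (b (c (l 16168184) (l 16129632)) (l 1)) (a (b (c (l 16176384) (l 16138512)) (l 1)) (b (b (l 16154408) (l 16178840)) (c (l 16154488) (l 16213784))))))) (b (b (a (l 16183792) (l 16232928)) (l 16204256)) (b (l 16184176) (l 397853609783)))) (b (a (b (l 16281872) (l 16313496)) (b (l 16379216) (l 16334416))) (a (b (l 16323304) (l 16335760)) (b (l 16293912) (l 16254280))))) (a (a (l 1) (b (b (l 405906685991) (l 1)) (l 1))) (b (a (a (l 285647616151) (l 16196456)) (b (l 16216712)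 (l 16178000))) (a (b (l 16080024) (l 1)) (c (l 16178664) (l 16015936)))))), by decide +kernel⟩

def k4_pm_022 : ∃ t, chk3 f_pm_022 t 5 3 1 = true :=
  ⟨(a (l 1) (b (b (b (c (a (l 1) (l 219075452247)) (l 368324986839)) (l 1)) (l 1)) (l 1))), by decide +kernel⟩

def k5_pm_022 : ∃ t, chk3 f_pm_022 t 3 2 1 = true :=
  ⟨(b (a (b (a (c (b (a (l 16450800) (l 16440112)) (l 16142600)) (b (c (l 16318904) (l 16215784)) (l 16183696))) (c (b (a (l 16326288) (l 16116456)) (a (l 16177960) (l 16115408))) (b (a (l 16505584) (l 16501216)) (l 16185584)))) (a (b (c (l 16216120) (l 16250000)) (a (l 16194816) (l 16132336))) (b (c (l 15967888) (l 16188008)) (a (l 16016512) (l 15972752))))) (b (a (c (b (a (l 16061512) (l 16014104)) (l 15785696)) (b (a (l 16376536) (l 16155336)) (l 15917056))) (b (a (c (b (l 15912448) (l 15928752)) (b (l 16134912) (l 16172096))) (b (c (l 15978088) (l 16269672)) (c (l 15886584) (l 16131656)))) (a (c (l 15850256) (l 16036160)) (c (l 15617984) (b (l 16014216)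 (l 15916936)))))) (a (b (c (l 15881392) (l 15942488)) (a (l 15874736) (l 15784944))) (b (c (l 15721136) (l 15792792)) (a (l 15703056) (l 15628808)))))) (a (b (a (b (a (l 16220304) (l 16094040)) (a (b (l 16152232) (l 16113816)) (l 16007416))) (b (l 15714912) (l 15627552))) (a (b (a (b (l 16058088) (l 16021880)) (l 15701216)) (a (b (l 15945536) (l 15954136)) (b (l 15882832) (l 15851232)))) (b (a (l 15817960) (l 15712584)) (a (l 15603424) (l 15647576))))) (b (a (b (l 15729496) (l 15643792)) (b (l 15566800) (l 15482304))) (a (b (l 15571392) (l 15404240)) (b (l 15411168) (l 15352984)))))), by decide +kernel⟩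

def k6_pm_022 : ∃ t, chk3 f_pm_022 t 3 3 1 = true :=
  ⟨(b (a (b (a (b (a (c (l 16005224) (l 15842736)) (c (l 15890040) (l 15722872))) (c (l 352218623031) (l 348460134295))) (b (a (c (l 15779416) (l 15607248)) (l 15504984)) (a (c (l 15745656) (l 15543216)) (c (l 15645576) (l 15438448))))) (a (b (c (l 339870508007) (l 338796320471)) (l 1)) (b (a (l 263097407799) (c (l 15619304) (l 15387608))) (c (l 15493552) (l 330205889143))))) (b (a (b (l 15369400) (a (l 15448648) (l 15365616))) (b (l 15302040) (l 15256624))) (a (b (a (c (l 15529488) (l 15293392)) (l 15328832)) (a (c (l 15510280) (l 15255224)) (l 15282224))) (b (l 15221024) (a (l 15228600) (l 15163696)))))) (a (a (l 1) (a (l 1) (b (b (l 319468579703) (l 1)) (l 1)))) (b (a (b (a (l 15215880) (l 15074416)) (c (l 15444656) (l 15164872))) (b (a (l 15211824) (l 15147032)) (a (l 15201424) (l 15138472)))) (b (a (c (l 15438176) (l 15153928)) (a (l 15197200) (l 15136032))) (a (l 1) (c (l 15309720) (l 15021496))))))), by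 decide +kernel⟩

theorem s7_pm_022 : ∃ t, chk3 f_pm_022 t 3 1 1 = true := ex3_b k5_pm_022 k6_pm_022

theorem s8_pm_022 : ∃ t, chk3 f_pm_022 t 5 4 1 = true := ex3_a k1_pm_022 k2_pm_022

theorem s9_pm_022 : ∃ t, chk3 f_pm_022 t 5 2 1 = true := ex3_b s8_pm_022 k3_pm_022

theorem s10_pm_022 : ∃ t, chk3 f_pm_022 t 5 1 1 = true := ex3_b s9_pm_022 k4_pm_022

theorem s11_pm_022 : ∃ t, chk3 f_pm_022 t 2 1 1 = true := ex3_a k0_pm_022 s10_pm_022

theorem s12_pm_022 : ∃ t, chk3 f_pm_022 t 1 1 1 = true := ex3_a s11_pm_022 s7_pm_022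

theorem c_pm_022 : CertB 0 536870912 1073741824 536870912 991146299 28908434 3 eng mog cd0q0 cd4q2 pd2 true true false .pp 0 2 2
    ndB0q0 ndB4q2 pcB2 Cut.none Ext.none :=
  certB2 (fam := true) (s1 := true) (s2 := false) (a := 0) (b := 2) (c := 2) (cn := .pp) (n1 := ndB0q0) (n2 := ndB4q2) (pc := pcB2) (cut := Cut.none) (xt := Ext.none) (P1 := 0) (W1 := 536870912) (P2 := 1073741824) (W2 := 536870912) (P3 := 991146299) (W3 := 28908434) (N0 := 3) (En := eng) (mo := mog) (C1 := cd0q0) (C2 := cd4q2) (C3 := pd2)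
    rfl (fun _ => rfl) s12_pm_022

noncomputable def f_pm_023 : ℕ → ℕ → ℕ → ℕ → Bool := onCell 0 536870912 1073741824 536870912 991146299 28908434
    (rowB 3 eng mog cd0q0 cd4q2 pd3 0 true true false .up 0 2 3 (qsf 0 536870912 1073741824 536870912 3) ndB0q0 ndB4q2 pcB3 Cut.none Ext.none)

def k0_pm_023 : ∃ t, chk3 f_pm_023 t 2 1 1 = true :=
  ⟨(b (a (l 1) (a (l 1) (a (l 1) (b (l 1) (b (l 1) (l 363492039815)))))) (a (b (a (l 1) (b (l 1) (c (l 323763557175) (l 337721653703)))) (a (b (c (l 390335387447) (l 345237679879)) (c (l 245379866263) (l 245916203735))) (b (c (l 15144224) (l 14963976)) (c (l 15100488) (l 14820072))))) (b (c (b (a (l 15429304) (l 295846122087)) (a (l 15332304) (l 15243112))) (b (a (l 15265264) (l 296382595479)) (a (l 15051376) (l 14956800)))) (b (a (c (l 15162856) (l 14868448)) (c (l 15103832) (l 14801528))) (a (c (l 15051056) (l 14755976)) (l 14623368)))))), by decide +kernel⟩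

def k1_pm_023 : ∃ t, chk3 f_pm_023 t 3 2 1 = true :=
  ⟨(a (b (a (l 1) (a (l 1) (a (l 1) (b (l 1) (l 419326706759))))) (b (a (b (l 1) (l 386040639863)) (b (a (l 15456232) (l 15363672)) (l 116531073143))) (a (c (l 15156616) (l 15013376)) (c (l 15191240) (l 15084352))))) (b (a (b (a (l 1) (a (l 1) (b (l 1) (l 263097432087)))) (c (b (a (l 15484144) (l 15388400)) (l 15326432)) (b (l 105257273015) (l 15391528)))) (b (a (a (b (l 1) (c (l 15445448) (l 15663840))) (b (c (l 15606728) (l 15899208)) (c (l 15446664) (l 15661160)))) (c (b (b (l 15683424) (l 15602968)) (l 15261752)) (b (b (l 15986256) (l 15864952)) (l 15675104)))) (a (b (c (a (l 15322600) (l 15309968)) (l 15398232)) (a (l 15259072) (l 15006056))) (b (c (l 15362576) (l 15493576)) (c (l 15252640) (l 15316712)))))) (a (b (b (a (l 15277888) (l 15200128)) (l 14947944)) (b (l 15055504) (l 14992008))) (b (a (b (c (l 15132296) (l 15141920)) (l 15046080)) (b (l 15162872) (c (l 15089088) (l 15036200)))) (a (b (l 14974816)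 (l 14923360)) (b (c (l 15037976) (l 14934520)) (l 14910424))))))), by decide +kernel⟩

def k2_pm_023 : ∃ t, chk3 f_pm_023 t 3 3 1 = true :=
  ⟨(a (b (b (a (b (a (l 15258168) (l 15176720)) (c (l 15277328) (l 15016456))) (c (l 15152376) (l 14923968))) (a (b (l 14944136) (l 14998232)) (b (l 14819696) (l 14945336)))) (a (b (l 14915000) (l 14865424)) (b (b (l 14904136) (l 14880712)) (l 14830216)))) (b (a (b (c (l 15031168) (l 14819408)) (b (l 14890736) (l 14880424))) (b (a (l 14875792) (b (l 14895296) (l 14875912))) (a (l 14857184) (b (l 14870896) (l 14877800))))) (a (b (b (l 14879976) (l 14875368)) (b (l 14881160) (l 14904728))) (a (b (l 14876368) (l 14900000)) (b (b (l 14894008) (a (l 14904392) (l 14927496))) (b (a (l 14932456) (b (l 14946848) (l 14959824))) (a (b (l 14956480) (l 14977440)) (b (l 14789000) (a (l 14998400) (b (l 15005104) (b (l 15015792) (a (l 15019688) (a (l 15024752) (b (l 15026320) (l 14988160))))))))))))))), by decide +kernel⟩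

theorem s3_pm_023 : ∃ t, chk3 f_pm_023 t 3 1 1 = true := ex3_b k1_pm_023 k2_pm_023

theorem s4_pm_023 : ∃ t, chk3 f_pm_023 t 1 1 1 = true := ex3_a k0_pm_023 s3_pm_023

theorem c_pm_023 : CertB 0 536870912 1073741824 536870912 991146299 28908434 3 eng mog cd0q0 cd4q2 pd3 true true false .up 0 2 3
    ndB0q0 ndB4q2 pcB3 Cut.none Ext.none :=
  certB0 (fam := true) (s1 := true) (s2 := false) (a := 0) (b := 2) (c := 3) (cn := .up) (n1 := ndB0q0) (n2 := ndB4q2) (pc := pcB3) (cut := Cut.none) (xt := Ext.none) (P1 := 0) (W1 := 536870912) (P2 := 1073741824) (W2 := 536870912) (P3 := 991146299) (W3 := 28908434) (N0 := 3) (En := eng) (mo := mog) (C1 := cd0q0) (C2 := cd4q2) (C3 := pd3)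
    rfl s4_pm_023

noncomputable def f_pm_033 : ℕ → ℕ → ℕ → ℕ → Bool := onCell 1610612736 536870912 0 1230186008 991146299 28908434
    (rowB 3 eng mog cd0q0 cd4q3 pd3 2 true true false .pnn 0 3 3 (qsf 0 536870912 0 1230186008 3) ndB0q0 ndB4q3 pcB3 Cut.none Ext.none)

def k0_pm_033 : ∃ t, chk3 f_pm_033 t 2 1 1 = true :=
  ⟨(b (l 1) (b (a (l 1) (b (l 1) (a (l 1) (b (l 1) (a (l 1) (b (l 1) (a (l 1) (l 15171416)))))))) (b (a (l 1) (b (a (a (l 1) (b (l 1) (l 14887856))) (a (b (l 15074312) (l 15081864)) (b (l 15228216) (l 15300376)))) (a (b (a (l 1) (l 15024912)) (a (b (l 14948304) (l 15082872)) (b (l 15146568) (l 15187904)))) (a (b (l 15175368) (l 15293872)) (b (l 15363000) (l 15420152)))))) (a (b (a (l 1) (b (a (l 1) (l 15147448)) (a (l 15301056) (l 15386360)))) (a (b (a (l 1) (l 15473944)) (a (l 15627808) (l 15688896))) (b (a (l 15550248) (l 15599144)) (a (l 15666672) (l 15654144))))) (b (a (b (a (l 15242664) (l 15315008)) (a (l 15445496) (l 15508224))) (b (a (l 15398800)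 (l 15475248)) (l 15575872))) (a (b (a (l 15649528) (l 15681488)) (l 15642392)) (b (l 15678176) (l 15640704)))))))), by decide +kernel⟩

def k1_pm_033 : ∃ t, chk3 f_pm_033 t 6 1 1 = true :=
  ⟨(b (l 1) (b (b (a (l 1) (a (b (l 1) (l 14829920)) (b (a (l 14845424) (l 14919368)) (a (l 15023296) (l 15087856))))) (a (b (a (l 209409493175) (l 15042424)) (a (b (l 15124144) (l 15228088)) (b (l 15212712) (l 15277784)))) (b (a (l 148743371959) (l 15233328)) (a (b (l 15282976) (l 15347552)) (l 15397144))))) (b (a (b (a (b (a (l 15298416) (l 15306896)) (l 15400504)) (b (l 15338072) (l 15408472))) (a (b (l 15473008) (l 15515392)) (l 15532336))) (b (a (b (l 15398712) (l 15438424)) (l 15478976)) (a (l 15527832) (l 15544448)))) (a (b (b (l 15397896) (l 15645848)) (b (l 15677672) (l 15652896))) (b (b (l 15620312) (l 15664632)) (b (l 15681792) (l 15676440))))))), by decide +kernel⟩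

def k2_pm_033 : ∃ t, chk3 f_pm_033 t 7 1 1 = true :=
  ⟨(a (b (b (l 1) (a (b (l 1) (b (l 1) (a (l 14887048) (l 14998544)))) (l 4))) (b (b (a (b (a (l 15007856) (l 15111056)) (a (l 15159928) (l 15243024))) (b (l 15212032) (a (l 15337128) (l 15436432)))) (a (b (a (l 15316560) (l 15376984)) (l 15459832)) (b (a (l 15441592) (l 15520312)) (a (l 15524792) (l 15585672))))) (b (a (b (l 15546768) (l 15595280)) (b (l 15589536) (l 15645296))) (a (b (l 15634104) (l 15691376)) (b (a (l 15659736) (l 15681088)) (b (l 15705200) (l 15720376))))))) (b (l 4) (a (b (b (b (l 4) (l 4)) (a (b (l 15604576) (l 15649872)) (l 15695632))) (b (a (b (l 15680776) (l 15671096)) (b (l 15743792) (l 15739552))) (b (a (l 15705752) (l 15728168)) (a (l 15730976) (l 15747176))))) (b (a (b (l 4) (l 15744336)) (l 4)) (a (b (b (l 15786952) (l 15789840)) (b (l 15774280) (l 15779680))) (b (a (l 15817200) (a (l 15828544) (l 4))) (a (b (l 15808912) (l 15802832)) (b (a (l 15820536) (a (l 15823672) (l 15820976)))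 (a (l 15814056) (a (l 15819584) (l 15780984))))))))))), by decide +kernel⟩

theorem s3_pm_033 : ∃ t, chk3 f_pm_033 t 3 1 1 = true := ex3_a k1_pm_033 k2_pm_033

theorem s4_pm_033 : ∃ t, chk3 f_pm_033 t 1 1 1 = true := ex3_a k0_pm_033 s3_pm_033

theorem c_pm_033 : CertB 0 536870912 0 1230186008 991146299 28908434 3 eng mog cd0q0 cd4q3 pd3 true true false .pnn 0 3 3
    ndB0q0 ndB4q3 pcB3 Cut.none Ext.none :=
  certB2 (fam := true) (s1 := true) (s2 := false) (a := 0) (b := 3) (c := 3) (cn := .pnn) (n1 := ndB0q0) (n2 := ndB4q3) (pc := pcB3) (cut := Cut.none) (xt := Ext.none) (P1 := 0) (W1 := 536870912) (P2 := 0) (W2 := 1230186008) (P3 := 991146299) (W3 := 28908434) (N0 := 3) (En := eng) (mo := mog) (C1 := cd0q0) (C2 := cd4q3) (C3 := pd3)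
    rfl (fun _ => rfl) s4_pm_033

noncomputable def f_pm_101 : ℕ → ℕ → ℕ → ℕ → Bool := onCell 536870912 536870912 536870912 536870912 991146299 28908434
    (rowB 3 eng mog cd0q1 cd4q0 pd1 1 true true false .npn 1 0 1 (qsf 536870912 536870912 0 536870912 1) ndB0q1 ndB4q0 pcB1 Cut.none Ext.none)

def k0_pm_101 : ∃ t, chk3 f_pm_101 t 2 2 1 = true :=
  ⟨(a (l 3) (b (a (b (l 1) (l 3)) (l 1)) (l 3))), by decide +kernel⟩

def k1_pm_101 : ∃ t, chk3 f_pm_101 t 2 6 1 = true :=
  ⟨(a (b (a (l 3) (b (l 3) (b (a (l 3) (c (l 16187152) (l 16103488))) (a (c (l 365238805207) (l 394766397751)) (c (l 16157184) (l 16021144)))))) (a (b (a (b (a (l 3) (c (l 335174048087) (l 338394971639))) (c (a (l 171428390823) (l 16205520)) (a (b (l 16020584) (l 16010168)) (l 16014616)))) (c (b (a (l 168207170215) (l 16206304)) (a (l 16191784) (l 16176472))) (b (a (l 166596269143) (l 16035640)) (a (l 16006944) (l 15998016))))) (a (c (b (a (l 16176776) (l 16165216)) (l 16121896)) (b (a (l 15974088)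 (l 15968000)) (l 15916888))) (c (b (l 16144920) (l 16096904)) (b (l 15956632) (l 15903184))))) (b (c (a (b (l 16179808) (l 16150824)) (l 16126792)) (a (b (l 15998616) (l 15982480)) (l 15976664))) (c (a (l 16090224) (l 16053240)) (a (l 15912032) (l 15889080)))))) (b (a (b (a (l 3) (c (l 196124520535) (l 176260169703))) (a (c (l 177334134519) (l 170891478759)) (c (l 16059776) (l 15958976)))) (b (c (a (b (l 210082849207) (l 15986224)) (b (a (l 191829059751) (b (l 201492586231) (l 15873736))) (a (l 15933272) (l 15896976)))) (a (b (l 15915416) (l 15919632)) (b (a (l 15864864) (l 160153535047)) (l 15858480)))) (c (a (l 16001488) (b (l 15935120) (l 15943240))) (a (l 15913208) (b (l 15862288) (l 15856536)))))) (a (b (a (c (l 16082312) (l 15946752)) (c (l 16033688) (l 15912152))) (a (c (l 16011512) (l 15862016)) (l 15922560))) (b (c (a (l 15982312) (l 15931168)) (a (l 15872768) (l 15828976))) (c (l 16040400) (l 15924016)))))), by decide +kernel⟩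

def k2_pm_101 : ∃ t, chk3 f_pm_101 t 2 7 1 = true :=
  ⟨(b (a (a (b (c (a (b (l 16064480) (l 15999616)) (l 16009968)) (a (b (l 15855568) (l 15787696)) (l 15810008))) (c (a (l 15889888) (l 15870632)) (a (l 15674776) (l 15664840)))) (b (c (a (l 15981040) (l 15946592)) (a (l 15793320) (l 15772584))) (c (a (l 15845176) (l 15814072)) (a (l 15650624) (l 15632576))))) (a (b (a (l 15978472) (l 15795720)) (c (l 15883848) (l 15599144))) (b (a (l 15756240) (l 15714304)) (a (l 15629432) (l 15589488))))) (a (a (b (c (a (l 15724984) (l 15710536)) (a (l 15507480) (l 15500912))) (c (a (l 15546760) (l 15538776)) (a (l 15329072) (l 15327424)))) (b (c (a (l 15689896) (l 15663640)) (a (l 15490240) (l 15476016))) (c (a (l 15524768) (l 15506656)) (a (l 15321912) (l 15314744))))) (a (b (c (a (l 15632232) (l 15596080)) (l 15449128)) (a (c (l 15491176) (l 15312512)) (c (l 15481568) (l 15318664)))) (b (a (l 15664304) (l 15582224)) (a (l 15503440) (l 15433224)))))), by decide +kernel⟩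

def k3_pm_101 : ∃ t, chk3 f_pm_101 t 3 2 1 = true :=
  ⟨(a (b (l 1) (a (a (a (b (l 1) (l 3)) (l 1)) (l 1)) (l 1))) (l 1)), by decide +kernel⟩

def k4_pm_101 : ∃ t, chk3 f_pm_101 t 6 3 1 = true :=
  ⟨(b (b (a (b (a (b (c (a (b (c (l 364567070759) (l 346850299607)) (l 168609243687)) (b (l 1) (l 482141839639))) (a (b (l 323764866071) (l 15796432)) (l 453687690055))) (c (a (l 15860264) (l 303363916199)) (a (l 15806976) (l 265782864055)))) (b (l 1) (a (c (l 466572689591) (l 441339685719)) (l 1)))) (a (c (b (a (l 15887104) (l 15856808)) (l 15888744)) (b (l 15884936) (l 15802656))) (c (b (a (l 323228194887) (l 436508022423)) (l 156798483111)) (b (a (l 15766712) (l 411274981431)) (l 161630174343))))) (a (b (l 1) (b (l 1) (c (l 416107300199) (l 382821138023)))) (l 1))) (a (b (a (c (l 15886664) (l 15783648)) (b (a (l 15814208) (l 15805760)) (l 15797992))) (a (l 15943152) (c (l 15812168) (l 15687408)))) (b (a (c (b (l 346314065639) (l 15913512)) (b (l 315175330551) (l 15760952)))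 (c (l 441340264103) (l 409127829767))) (a (c (l 15859584) (l 15697152)) (c (l 16053184) (l 205653428199)))))) (b (a (b (a (l 15672808) (l 15640096)) (c (l 15707896) (l 15653472))) (b (a (b (l 15680920) (l 15603896)) (b (l 15832256) (l 15712064))) (a (l 15517432) (l 15562320)))) (a (b (a (l 15470688) (l 15461664)) (c (l 15493792) (l 15411496))) (b (a (l 15457040) (l 15461752)) (a (l 15476008) (l 15480296)))))), by decide +kernel⟩

def k5_pm_101 : ∃ t, chk3 f_pm_101 t 7 3 1 = true :=
  ⟨(b (a (b (l 1) (a (b (l 1) (b (l 1) (l 461740602903))) (l 1))) (l 1)) (b (a (b (a (b (l 260413878807) (l 15822528)) (a (l 402147560935) (l 1))) (a (c (l 15730048) (l 15688056)) (b (l 279740857239) (l 15625136)))) (a (a (a (b (l 1) (l 372619467191)) (l 1)) (l 1)) (l 1))) (a (b (a (l 15522304) (c (l 15566480) (l 15530128))) (a (l 15473464) (l 15463880))) (a (b (a (l 15513160) (c (b (l 409126856663) (l 15514352)) (b (l 493415305527) (l 447781218423)))) (a (l 15444144) (b (l 15440456)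 (l 15413664)))) (b (a (b (l 1) (c (l 466571896279) (l 479456534567))) (l 1)) (c (a (b (l 15454248) (l 15414864)) (l 460666356519)) (b (a (l 15396568) (l 510058115751)) (l 376377149255)))))))), by decide +kernel⟩

theorem s6_pm_101 : ∃ t, chk3 f_pm_101 t 3 3 1 = true := ex3_a k4_pm_101 k5_pm_101

theorem s7_pm_101 : ∃ t, chk3 f_pm_101 t 3 1 1 = true := ex3_b k3_pm_101 s6_pm_101

theorem s8_pm_101 : ∃ t, chk3 f_pm_101 t 2 3 1 = true := ex3_b k1_pm_101 k2_pm_101

theorem s9_pm_101 : ∃ t, chk3 f_pm_101 t 2 1 1 = true := ex3_b k0_pm_101 s8_pm_101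

theorem s10_pm_101 : ∃ t, chk3 f_pm_101 t 1 1 1 = true := ex3_a s9_pm_101 s7_pm_101

theorem c_pm_101 : CertB 536870912 536870912 0 536870912 991146299 28908434 3 eng mog cd0q1 cd4q0 pd1 true true false .npn 1 0 1
    ndB0q1 ndB4q0 pcB1 Cut.none Ext.none :=
  certB1 (fam := true) (s1 := true) (s2 := false) (a := 1) (b := 0) (c := 1) (cn := .npn) (n1 := ndB0q1) (n2 := ndB4q0) (pc := pcB1) (cut := Cut.none) (xt := Ext.none) (P1 := 536870912) (W1 := 536870912) (P2 := 0) (W2 := 536870912) (P3 := 991146299) (W3 := 28908434) (N0 := 3) (En := eng) (mo := mog) (C1 := cd0q1) (C2 := cd4q0) (C3 := pd1)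
    rfl (fun _ => rfl) s10_pm_101

noncomputable def f_pm_102 : ℕ → ℕ → ℕ → ℕ → Bool := onCell 536870912 536870912 1073741824 536870912 991146299 28908434
    (rowB 3 eng mog cd0q1 cd4q0 pd2 1 true true false .npp 1 0 2 (qsf 536870912 536870912 0 536870912 2) ndB0q1 ndB4q0 pcB2 Cut.none Ext.none)

def k0_pm_102 : ∃ t, chk3 f_pm_102 t 2 1 1 = true :=
  ⟨(b (a (a (b (b (c (b (l 15737312) (l 15747624)) (b (l 15640592) (l 15649128))) (c (l 215383357175) (l 218604380567))) (l 2)) (b (b (c (b (l 15787320) (l 15798472)) (b (l 15717600) (l 15723544))) (c (l 15763984) (l 15723200))) (b (c (l 15806432) (l 15712432)) (l 2)))) (b (b (a (c (b (l 15823208) (l 15835960)) (b (l 15790712) (l 15795064))) (c (b (l 15849976) (l 15864928)) (b (l 15868320) (l 15872576)))) (a (c (l 15840368) (l 15786840)) (c (l 15865096) (l 15856528)))) (c (a (b (l 15830816) (l 15816168)) (b (l 15842368) (l 15811616))) (a (b (l 15759088) (l 15724344)) (b (l 15809976) (l 15752408)))))) (a (l 2) (b (a (l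 2) (b (l 364633675927) (l 2))) (l 2)))), by decide +kernel⟩

def k1_pm_102 : ∃ t, chk3 f_pm_102 t 6 2 1 = true :=
  ⟨(b (b (a (c (b (l 15870304) (l 15886352)) (b (l 15955816) (l 15961312))) (c (b (a (l 15877800) (l 15869208)) (l 15853616)) (b (a (l 16021416) (l 16058552)) (l 16045304)))) (a (c (l 15876920) (l 15935624)) (c (b (l 15798080) (l 15738296)) (b (l 15989344) (l 15917840))))) (a (b (c (l 15829472) (l 15865320)) (c (l 15777480) (l 15780544))) (b (c (l 15653368) (l 15812464)) (c (l 15558344) (l 15688120))))), by decide +kernel⟩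

def k2_pm_102 : ∃ t, chk3 f_pm_102 t 7 2 1 = true :=
  ⟨(a (b (b (c (b (a (l 15839040) (b (l 15808632) (l 15771176))) (a (l 15771176) (l 15699072))) (b (a (l 16054952) (b (l 16022656) (l 15968976))) (a (l 15966488) (l 15879304)))) (a (c (l 15647216) (l 15815352)) (b (a (l 15703504) (l 15650088)) (l 15527072)))) (b (c (a (l 15491168) (l 15363792)) (a (l 15624240) (l 15472288))) (c (l 15285024) (l 15368328)))) (b (b (c (a (b (b (a (l 15768872) (l 15736576)) (a (l 15719160) (l 15678752))) (a (l 15634528) (l 15585960))) (b (b (a (b (a (l 15721224) (l 15703032)) (l 15681720)) (a (b (a (l 15669128) (l 15660960)) (l 15651664)) (b (b (a (l 15683352) (l 15633208)) (l 15618712)) (l 15601408)))) (a (l 15632224) (b (l 15585064) (l 15548808)))) (a (b (l 15565040) (l 15498040)) (b (l 15494520) (l 15443664))))) (a (b (b (a (l 15970528) (l 15845936)) (a (l 15905280) (l 15857544))) (a (l 15802656) (l 15746336))) (b (b (b (a (a (l 15913440) (l 15891456)) (a (b (l 15881440) (l 15861144))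 (b (a (l 15868528) (l 15859888)) (l 15842408)))) (a (l 15863904) (c (l 15752968) (l 15865896)))) (a (l 15804432) (b (a (l 15787960) (l 15766312)) (l 15733920)))) (a (b (l 15724496) (l 15644640)) (b (l 15669440) (l 15583680)))))) (a (b (c (l 15492752) (l 15633616)) (c (l 15378152) (l 15495272))) (b (c (a (l 15399048) (l 15337600)) (a (l 15525904) (l 15456048))) (c (l 15235512) (l 15182920))))) (b (a (b (l 15167928) (l 15200848)) (b (c (l 15109248) (l 15174416)) (a (l 15056320) (l 14959128)))) (a (c (l 15030552) (l 15062400)) (b (l 14882696) (l 14767672)))))), by decide +kernel⟩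

def k3_pm_102 : ∃ t, chk3 f_pm_102 t 3 3 1 = true :=
  ⟨(a (b (a (b (c (l 15730784) (l 15698608)) (l 15420688)) (b (c (l 15491080) (l 15590336)) (c (l 15456088) (l 15524424)))) (a (l 2) (b (l 353358617447) (l 2)))) (b (a (b (c (l 15173936) (l 15219872)) (c (l 15101200) (l 15111424))) (b (a (c (l 14880760) (l 14864760)) (b (l 14670416) (a (l 14649248) (l 14668512)))) (a (b (l 14782512) (c (l 14800464) (l 14742464))) (b (c (l 14644704) (l 14568664)) (l 14797024))))) (a (b (a (l 15172776) (b (l 14965264) (l 15003024))) (a (l 2) (b (l 15114104) (l 2)))) (b (a (b (c (l 14853032) (l 14799976)) (l 14938328)) (c (l 14910552) (l 14811032))) (c (a (l 15146456) (l 15115240)) (a (l 15148816) (l 15138096))))))), by decide +kernel⟩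

theorem s4_pm_102 : ∃ t, chk3 f_pm_102 t 3 2 1 = true := ex3_a k1_pm_102 k2_pm_102

theorem s5_pm_102 : ∃ t, chk3 f_pm_102 t 3 1 1 = true := ex3_b s4_pm_102 k3_pm_102

theorem s6_pm_102 : ∃ t, chk3 f_pm_102 t 1 1 1 = true := ex3_a k0_pm_102 s5_pm_102

theorem c_pm_102 : CertB 536870912 536870912 0 536870912 991146299 28908434 3 eng mog cd0q1 cd4q0 pd2 true true false .npp 1 0 2
    ndB0q1 ndB4q0 pcB2 Cut.none Ext.none :=
  certB1 (fam := true) (s1 := true) (s2 := false) (a := 1) (b := 0) (c := 2) (cn := .npp) (n1 := ndB0q1) (n2 := ndB4q0) (pc := pcB2) (cut := Cut.none) (xt := Ext.none) (P1 := 536870912) (W1 := 536870912) (P2 := 0) (W2 := 536870912) (P3 := 991146299) (W3 := 28908434) (N0 := 3) (En := eng) (mo := mog) (C1 := cd0q1) (C2 := cd4q0) (C3 := pd2)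
    rfl (fun _ => rfl) s6_pm_102

noncomputable def f_pm_112 : ℕ → ℕ → ℕ → ℕ → Bool := onCell 536870912 536870912 1073741824 536870912 991146299 28908434
    (rowB 3 eng mog cd0q1 cd4q1 pd2 1 true true false .dn 1 1 2 (qsf 536870912 536870912 536870912 536870912 2) ndB0q1 ndB4q1 pcB2 Cut.none Ext.none)

def k0_pm_112 : ∃ t, chk3 f_pm_112 t 1 1 1 = true :=
  ⟨(a (b (a (b (b (a (c (l 15770392) (l 15876920)) (b (l 1) (l 15899776))) (a (c (l 15905624) (l 15957976)) (c (l 15913904) (l 15943632)))) (b (a (b (l 15991256) (l 15986720)) (l 15914408)) (a (b (l 15974464) (l 15905080)) (l 15870936)))) (b (b (l 1) (a (l 354366620183) (l 1))) (a (b (l 15864792) (l 15800184)) (b (l 15840216) (l 15752368))))) (a (b (b (a (c (l 15742280) (l 15763112)) (l 15607016)) (a (c (l 15517784) (l 15522672)) (c (l 15570944) (l 15596456)))) (a (b (c (l 15064272) (a (l 15278016) (l 15338096))) (c (a (l 14975024) (l 15051376)) (a (l 15025840) (l 15105376)))) (b (c (l 15359808) (l 15394584)) (c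 (l 15135424) (l 15186760))))) (b (a (b (l 15709128) (l 15572232)) (b (l 15640248) (l 15495520))) (a (b (c (l 15381680) (l 15392744)) (c (l 15184448) (l 15216496))) (b (l 15325904) (l 15088008)))))) (b (a (b (l 1) (a (b (l 1) (l 15661296)) (l 1))) (l 1)) (a (b (a (b (l 15515432) (l 15356840)) (b (l 15320016) (l 15158416))) (a (b (l 15190208) (l 15020568)) (b (l 14990624) (b (l 14863296) (l 14788472))))) (b (a (b (l 1) (l 206724547511)) (l 1)) (a (b (a (l 14791048) (b (l 14683472) (l 14658584))) (a (b (l 14701160) (l 14692360)) (l 14728504))) (b (a (b (l 1) (l 14666944)) (l 1)) (a (b (l 14744016) (l 14831056)) (b (l 14789416) (l 14903736))))))))), by decide +kernel⟩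

theorem c_pm_112 : CertB 536870912 536870912 536870912 536870912 991146299 28908434 3 eng mog cd0q1 cd4q1 pd2 true true false .dn 1 1 2
    ndB0q1 ndB4q1 pcB2 Cut.none Ext.none :=
  certB1 (fam := true) (s1 := true) (s2 := false) (a := 1) (b := 1) (c := 2) (cn := .dn) (n1 := ndB0q1) (n2 := ndB4q1) (pc := pcB2) (cut := Cut.none) (xt := Ext.none) (P1 := 536870912) (W1 := 536870912) (P2 := 536870912) (W2 := 536870912) (P3 := 991146299) (W3 := 28908434) (N0 := 3) (En := eng) (mo := mog) (C1 := cd0q1) (C2 := cd4q1) (C3 := pd2)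
    rfl (fun _ => rfl) k0_pm_112

noncomputable def f_pm_113 : ℕ → ℕ → ℕ → ℕ → Bool := onCell 536870912 536870912 1610612736 536870912 991146299 28908434
    (rowB 3 eng mog cd0q1 cd4q1 pd3 1 true true false .nn 1 1 3 (qsf 536870912 536870912 536870912 536870912 3) ndB0q1 ndB4q1 pcB3 Cut.none Ext.none)

def k0_pm_113 : ∃ t, chk3 f_pm_113 t 1 1 1 = true :=
  ⟨(a (b (b (a (a (b (a (b (l 14445624) (l 14239416)) (b (l 14585720) (l 14410576))) (a (l 2) (b (l 14201160) (l 2)))) (b (a (l 14478168) (l 14731792)) (a (b (l 14371112) (l 14157768)) (l 33381425063)))) (a (b (a (l 14825936) (l 14906472)) (a (l 14529864) (l 14622736))) (b (l 15000064) (l 14568928)))) (a (b (a (l 2) (a (l 2) (b (l 14107704) (l 2)))) (l 2)) (b (a (a (l 79551814391) (l 14237632)) (a (l 14409312) (l 14278704))) (b (a (l 108542315623) (a (l 14140456) (l 14243320))) (a (l 2) (a (l 13893552) (l 14018192))))))) (a (l 2) (b (b (a (l 2) (b (l 432276062215) (l 2))) (l 2)) (l 2)))) (b (a (b (b (a (l 15072040)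 (l 14872688)) (a (a (l 14819992) (l 14863408)) (b (l 14983512) (l 14911200)))) (b (a (b (l 14659816) (l 14524640)) (b (l 14827888) (l 14730840))) (a (b (l 14368416) (l 14187544)) (b (l 14617464) (l 14484136))))) (b (a (b (l 15159768) (l 15124208)) (b (a (l 15197688) (l 15206552)) (a (l 15199160) (l 15195368)))) (a (b (b (l 15042720) (l 14981664)) (b (l 14903464) (l 4))) (b (b (l 15211784) (l 4)) (l 4))))) (b (a (a (b (b (l 14062008) (a (l 13665144) (l 13852296))) (a (l 2) (l 4))) (b (b (l 14333624) (l 4)) (l 4))) (l 4)) (l 4)))), by decide +kernel⟩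

theorem c_pm_113 : CertB 536870912 536870912 536870912 536870912 991146299 28908434 3 eng mog cd0q1 cd4q1 pd3 true true false .nn 1 1 3
    ndB0q1 ndB4q1 pcB3 Cut.none Ext.none :=
  certB1 (fam := true) (s1 := true) (s2 := false) (a := 1) (b := 1) (c := 3) (cn := .nn) (n1 := ndB0q1) (n2 := ndB4q1) (pc := pcB3) (cut := Cut.none) (xt := Ext.none) (P1 := 536870912) (W1 := 536870912) (P2 := 536870912) (W2 := 536870912) (P3 := 991146299) (W3 := 28908434) (N0 := 3) (En := eng) (mo := mog) (C1 := cd0q1) (C2 := cd4q1) (C3 := pd3)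
    rfl (fun _ => rfl) k0_pm_113

noncomputable def f_pm_123 : ℕ → ℕ → ℕ → ℕ → Bool := onCell 1610612736 536870912 1073741824 536870912 991146299 28908434
    (rowB 3 eng mog cd0q1 cd4q2 pd3 2 true true false .npn 1 2 3 (qsf 536870912 536870912 1073741824 536870912 3) ndB0q1 ndB4q2 pcB3 Cut.none Ext.none)

def k0_pm_123 : ∃ t, chk3 f_pm_123 t 4 2 1 = true :=
  ⟨(b (a (b (b (a (c (b (a (l 15708760) (l 15737024)) (l 15617240)) (b (l 15953336) (l 15875768))) (c (b (a (l 15767336) (l 15799200)) (l 15679424)) (b (l 15959536) (l 15925104)))) (a (b (c (l 15512936) (l 15739168)) (l 1)) (c (b (l 15576472) (l 15474968)) (b (l 15789064) (l 15656352))))) (b (a (l 1) (b (c (l 15372696) (l 15525176)) (l 1))) (l 1))) (b (c (a (b (b (a (l 15832096) (l 15865472)) (l 15748048)) (b (l 15647576) (l 15548032))) (b (b (a (l 15898776) (l 15931440)) (l 15818760)) (b (l 15722008) (l 15625664)))) (b (a (b (l 15951256) (l 15981928)) (b (l 15966784) (l 16042752))) (a (b (l 15847544) (l 15716112))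 (b (l 15911104) (l 15781912))))) (b (a (c (b (l 15449672) (l 15352776)) (l 15399328)) (c (l 15482888) (l 15593584))) (a (b (a (l 1) (l 15316488)) (l 1)) (c (l 15296240) (l 15352920)))))) (b (a (l 1) (b (a (l 1) (b (a (l 1) (l 15190216)) (l 1))) (l 1))) (l 1))), by decide +kernel⟩

def k1_pm_123 : ∃ t, chk3 f_pm_123 t 5 2 1 = true :=
  ⟨(b (a (b (a (b (c (b (a (l 15962856) (l 15992448)) (l 15824032)) (b (l 16002248) (l 16040840))) (c (b (l 15795160) (l 15703256)) (b (l 15975992) (l 15850104)))) (b (c (a (b (l 15915192) (l 15933240)) (b (l 15900280) (l 15896992))) (a (b (l 16167808) (l 16146952)) (b (l 16177416) (l 16110664)))) (c (b (l 15862216) (l 15775976)) (b (l 16038240) (l 15916776))))) (a (b (c (l 15566200) (l 15644824)) (c (l 15385656) (l 15429304))) (b (c (l 15562584) (l 15591264)) (c (l 15474472) (l 15507560))))) (b (b (a (c (a (b (l 16014256) (l 15960304)) (l 15972368)) (b (l 16211808) (l 15965304))) (c (l 15695176) (b (l 16251056) (l 16162616)))) (a (a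 (b (c (l 15899816) (l 16076656)) (l 15788720)) (b (l 15820920) (c (l 15840552) (l 15982576)))) (c (l 15790584) (l 15902352)))) (a (b (b (a (l 15794560) (l 15658784)) (l 15462456)) (c (l 15557512) (l 15583776))) (b (a (b (l 15753864) (l 15697544)) (b (l 15835000) (l 15766696))) (a (l 15541240) (b (l 15695360) (l 15613904))))))) (a (b (a (b (c (l 15209728) (l 15205104)) (b (l 15325568) (l 1))) (b (c (l 15305496) (l 15288072)) (c (l 15140840) (l 15080568)))) (a (l 1) (b (b (l 14995400) (l 1)) (l 1)))) (b (a (b (c (l 15397896) (l 15370720)) (l 15205480)) (b (c (l 15481392) (l 15448960)) (l 15295376))) (a (b (c (l 15090392) (l 14980008)) (l 14907456)) (b (l 15132432) (l 14937984)))))), by decide +kernel⟩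

def k2_pm_123 : ∃ t, chk3 f_pm_123 t 2 3 1 = true :=
  ⟨(a (l 1) (b (a (l 1) (b (a (l 1) (b (l 14891912) (l 1))) (l 1))) (l 1))), by decide +kernel⟩

def k3_pm_123 : ∃ t, chk3 f_pm_123 t 3 2 1 = true :=
  ⟨(a (b (a (b (b (a (c (l 15767520) (l 15949088)) (c (l 15848128) (l 15982688))) (a (c (l 15828696) (l 15972112)) (c (l 15809848) (l 15996936)))) (a (b (c (l 15738112) (l 15845832)) (b (l 15696720) (l 15461968))) (b (c (l 15722816) (l 15837320)) (l 15447480)))) (b (a (b (c (l 15888192) (l 16129144)) (c (l 15806448) (l 15984288))) (b (a (c (l 15915040) (l 16125648)) (b (l 16082088) (l 16010208))) (a (l 15902176) (b (l 15948624) (l 15887344))))) (b (a (c (l 15719128) (l 15831168)) (c (l 15739496) (l 15837744))) (a (l 15527352) (l 15663200))))) (a (b (a (b (c (l 15351168) (l 15384216)) (l 15270720)) (b (a (l 15541192) (l 15539096)) (a (l 15420152) (l 15428616)))) (a (b (l 15222088) (l 15076200)) (b (b (l 15331904) (l 15263744)) (l 15163080)))) (b (a (b (l 15536872)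 (l 15428984)) (b (l 15543472) (l 15432232))) (a (b (a (l 15327488) (l 15331336)) (l 15226056)) (b (l 15332256) (l 15158688)))))) (b (a (a (a (b (b (l 16094632) (l 15945976)) (b (l 15817440) (l 15687600))) (b (b (l 16184160) (l 15991648)) (b (l 15851712) (l 15718176)))) (a (b (b (l 4) (l 16070928)) (b (l 15907976) (l 15761264))) (b (l 4) (b (l 16009208) (l 15840064))))) (a (b (l 4) (l 4)) (l 4))) (a (a (b (b (b (l 15602752) (l 15542504)) (l 15453888)) (b (l 15346368) (l 15252696))) (b (b (a (l 15623680) (l 15676656)) (a (l 15492232) (l 15538416))) (b (a (l 15376304) (l 15411160)) (l 15286192)))) (b (a (a (b (l 15770312) (l 15609880)) (b (l 4) (l 15715136))) (l 4)) (a (a (b (l 15470976) (l 15428944)) (b (l 15558320) (l 15420232))) (a (b (l 4) (l 4)) (l 4))))))), by decide +kernel⟩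

def k4_pm_123 : ∃ t, chk3 f_pm_123 t 3 3 1 = true :=
  ⟨(a (b (a (b (a (b (l 14942160) (l 14870888)) (b (l 15035264) (l 14920256))) (b (a (l 1) (l 14863272)) (l 1))) (b (a (b (l 15116440) (l 15007792)) (b (l 15161448) (l 15078096))) (a (b (l 14912040) (l 14866896)) (b (l 14991504) (l 14917264))))) (a (l 1) (b (b (a (l 1) (l 14879160)) (l 1)) (l 1)))) (b (a (a (b (b (l 15173632) (l 14971000)) (b (l 15040560) (l 14983560))) (b (a (l 15150832) (l 15167848)) (a (l 14845904) (l 15044640)))) (b (a (a (b (l 15240024) (l 15158384)) (b (l 15305264) (l 15206960))) (a (b (l 15382944) (l 15281440)) (l 4))) (a (a (l 15061792) (b (l 15128968) (l 15069520))) (a (b (l 15185536) (l 15117624)) (a (l 15169400) (l 4)))))) (a (a (b (c (l 15067768) (l 14769696)) (l 1)) (b (a (l 14948936) (l 14967464)) (a (l 1) (l 14931104)))) (b (a (a (l 14982808) (l 15004544)) (a (l 15042840) (a (l 15063216) (a (l 15069696) (a (l 15071488) (l 4)))))) (a (a (l 14948840) (l 14967448)) (a (l 14993896)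 (a (l 15014536) (a (l 15025368) (a (l 15030656) (b (l 15036088) (l 15030416))))))))))), by decide +kernel⟩

theorem s5_pm_123 : ∃ t, chk3 f_pm_123 t 3 1 1 = true := ex3_b k3_pm_123 k4_pm_123

theorem s6_pm_123 : ∃ t, chk3 f_pm_123 t 2 2 1 = true := ex3_a k0_pm_123 k1_pm_123

theorem s7_pm_123 : ∃ t, chk3 f_pm_123 t 2 1 1 = true := ex3_b s6_pm_123 k2_pm_123

theorem s8_pm_123 : ∃ t, chk3 f_pm_123 t 1 1 1 = true := ex3_a s7_pm_123 s5_pm_123

theorem c_pm_123 : CertB 536870912 536870912 1073741824 536870912 991146299 28908434 3 eng mog cd0q1 cd4q2 pd3 true true false .npn 1 2 3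
    ndB0q1 ndB4q2 pcB3 Cut.none Ext.none :=
  certB2 (fam := true) (s1 := true) (s2 := false) (a := 1) (b := 2) (c := 3) (cn := .npn) (n1 := ndB0q1) (n2 := ndB4q2) (pc := pcB3) (cut := Cut.none) (xt := Ext.none) (P1 := 536870912) (W1 := 536870912) (P2 := 1073741824) (W2 := 536870912) (P3 := 991146299) (W3 := 28908434) (N0 := 3) (En := eng) (mo := mog) (C1 := cd0q1) (C2 := cd4q2) (C3 := pd3)
    rfl (fun _ => rfl) s8_pm_123

noncomputable def f_pm_133 : ℕ → ℕ → ℕ → ℕ → Bool := onCell 536870912 536870912 0 1230186008 991146299 28908434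
    (rowB 3 eng mog cd0q1 cd4q3 pd3 0 true true false .dn 1 3 3 (qsf 536870912 536870912 0 1230186008 3) ndB0q1 ndB4q3 pcB3 Cut.none Ext.none)

def k0_pm_133 : ∃ t, chk3 f_pm_133 t 1 1 1 = true :=
  ⟨(b (l 2) (b (l 2) (a (b (l 2) (a (b (l 2) (a (b (l 2) (a (l 15883328) (l 2))) (l 2))) (l 2))) (l 2)))), by decide +kernel⟩

theorem c_pm_133 : CertB 536870912 536870912 0 1230186008 991146299 28908434 3 eng mog cd0q1 cd4q3 pd3 true true false .dn 1 3 3
    ndB0q1 ndB4q3 pcB3 Cut.none Ext.none :=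
  certB0 (fam := true) (s1 := true) (s2 := false) (a := 1) (b := 3) (c := 3) (cn := .dn) (n1 := ndB0q1) (n2 := ndB4q3) (pc := pcB3) (cut := Cut.none) (xt := Ext.none) (P1 := 536870912) (W1 := 536870912) (P2 := 0) (W2 := 1230186008) (P3 := 991146299) (W3 := 28908434) (N0 := 3) (En := eng) (mo := mog) (C1 := cd0q1) (C2 := cd4q3) (C3 := pd3)
    rfl k0_pm_133

noncomputable def f_pm_202 : ℕ → ℕ → ℕ → ℕ → Bool := onCell 0 536870912 1073741824 536870912 991146299 28908434
    (rowB 3 eng mog cd0q2 cd4q0 pd2 1 true true false .pp 2 0 2 (qsf 0 536870912 0 536870912 2) ndB0q2 ndB4q0 pcB2 Cut.none Ext.none)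

def k0_pm_202 : ∃ t, chk3 f_pm_202 t 2 1 1 = true :=
  ⟨(b (a (b (l 1) (a (l 4) (b (b (c (b (l 1) (l 15454704)) (a (l 15313592) (l 15301664))) (b (l 15416264) (l 15479176))) (l 4)))) (b (b (l 1) (b (l 1) (b (l 1) (a (l 1) (a (l 1) (b (l 1) (a (l 15465560) (l 15477736)))))))) (b (b (a (b (c (l 15415544) (b (l 1) (l 15358744))) (c (l 15422232) (l 15366736))) (b (c (a (l 15444400) (l 15456416)) (a (l 15399728) (l 15420456))) (c (l 15430576) (l 15386008)))) (c (a (b (l 15441904) (l 15474640)) (b (l 15424712) (l 15432152))) (a (l 15390080) (b (l 15379456) (l 15389584))))) (b (a (b (l 15482640) (l 15560144)) (c (l 15654512) (l 15432992))) (a (b (l 15618960) (l 15676128)) (b (l 15515648) (l 15572256))))))) (b (b (a (l 4) (a (l 4) (b (c (l 15652816) (l 15542816)) (b (l 15752520) (l 15803920))))) (l 4)) (l 4))), by decide +kernel⟩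

def k1_pm_202 : ∃ t, chk3 f_pm_202 t 6 4 1 = true :=
  ⟨(b (l 1) (b (a (l 1) (b (a (l 1) (b (l 1) (c (l 15764512) (l 15881448)))) (a (c (a (l 15710872) (l 117606245799)) (b (a (l 1) (l 15853576)) (l 15765992))) (c (b (l 15719048) (l 15671120)) (b (l 15825320) (a (l 15781280) (l 15756336))))))) (c (a (a (b (l 15691368) (l 15516200)) (b (b (l 15633264) (l 15587344)) (l 15526248))) (a (b (b (l 15650072) (l 15597536)) (l 15527016)) (c (a (l 15547264) (l 15528712)) (b (l 15609936) (l 15526016))))) (a (b (a (l 15569600) (l 15630368)) (c (a (l 15506064) (l 15526224)) (l 15492776))) (b (a (l 15661824) (a (l 15703376) (l 15669944))) (a (b (l 15570024) (l 15515592)) (l 15550424))))))), by decide +kernel⟩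

def k2_pm_202 : ∃ t, chk3 f_pm_202 t 14 4 1 = true :=
  ⟨(b (b (l 1) (b (a (l 1) (a (l 1) (c (a (l 117069481367) (l 159482220727)) (b (l 16005872) (l 15893568))))) (b (a (l 1) (c (l 15739568) (a (l 15894496) (l 15844024)))) (a (c (l 15793080) (a (l 1) (l 15889800))) (c (l 15698216) (l 15861280)))))) (b (b (a (c (a (l 15750136) (l 15707568)) (b (l 15900888) (l 15806688))) (c (l 15636304) (c (l 15716352) (l 15772464)))) (c (a (l 15643928) (l 15554472)) (a (l 15749368) (l 15644288)))) (b (c (a (l 15559664) (l 15473680)) (a (l 15624624) (l 15545208))) (a (b (l 15520392) (l 15471952)) (l 15419920))))), by decide +kernel⟩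

def k3_pm_202 : ∃ t, chk3 f_pm_202 t 15 4 1 = true :=
  ⟨(a (b (b (b (l 1) (b (a (l 1) (b (l 1) (c (l 15743576) (l 15948968)))) (a (c (l 107405775735) (b (l 1) (l 15922544))) (c (l 15713864) (c (l 15810136) (l 15912896)))))) (b (c (a (b (l 15737584) (l 15697232)) (b (l 15674208) (l 15634584))) (a (b (l 15949216) (l 15837872)) (b (l 15824336) (l 15776952)))) (c (a (l 15636744) (l 15575400)) (a (l 15786048) (l 15705872))))) (b (c (b (l 15526568) (l 15448336)) (b (a (l 15668240) (l 15611384)) (l 15544336))) (c (l 15333248) (l 15487320)))) (b (b (a (b (b (l 1) (a (b (l 1) (c (l 15711592) (l 15904144))) (c (a (l 198136773943) (l 197599864215)) (c (l 15816584) (l 15927792))))) (c (b (a (l 15682312) (l 15648784)) (l 15647504)) (b (b (l 44055257895) (l 15841504)) (l 15827840)))) (b (b (c (a (a (a (l 1) (l 204042351207)) (a (l 203505460391) (l 203505441159))) (a (a (l 202968550695) (l 202431660231)) (b (l 15637800) (l 15660880)))) (c (a (l 234644251895) (l 15793416)) (a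 (l 236255108711) (l 15908920)))) (a (b (c (b (l 51570975207) (l 15679440)) (l 15892152)) (c (l 15665048) (l 15838200))) (c (l 15619968) (b (l 15827912) (l 15805632))))) (c (b (b (l 15608136) (l 15610096)) (l 15560648)) (b (a (l 15804272) (l 15772144)) (l 15743096))))) (c (b (a (l 15589272) (l 15524832)) (l 15480488)) (b (a (b (l 15760648) (l 15714408)) (l 15675496)) (a (l 15645088) (l 15585488))))) (b (c (b (l 15405136) (l 15330816)) (b (l 15524064) (l 15433920))) (c (l 15221776) (l 15300624))))), by decide +kernel⟩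

def k4_pm_202 : ∃ t, chk3 f_pm_202 t 3 5 1 = true :=
  ⟨(a (b (b (a (c (b (a (l 15461520) (l 15458936)) (l 15415432)) (b (a (l 15435160) (l 15443168)) (a (l 15387040) (l 15379696)))) (c (b (a (l 15447488) (l 15425912)) (l 15367856)) (a (l 15402072) (l 15386712)))) (a (b (c (l 15384936) (l 15346512)) (c (l 15368272) (l 15326544))) (c (b (l 15313520) (l 15273512)) (b (l 15287184) (l 15237952))))) (b (c (b (l 15286664) (l 15304728)) (a (l 15305344) (l 15174208))) (a (b (l 15354536) (l 15409776)) (c (l 15234320) (l 15191432))))) (b (a (b (a (b (c (l 15388224) (l 15412136)) (l 15287288)) (b (l 15332704) (l 15224704))) (b (c (l 15305960) (l 15193120)) (c (l 15138856) (l 15094592)))) (b (a (c (l 15184992) (l 15220144)) (c (l 15081800) (l 15127696))) (a (c (l 15043664) (l 15043472)) (l 14954920)))) (a (b (c (b (l 15089672) (l 15054576)) (l 15030680)) (c (l 15025256) (l 14974416))) (b (a (c (l 14919480) (l 14886584)) (l 14835728)) (c (a (l 14837424) (l 14720696)) (a (l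 14782112) (l 14669584))))))), by decide +kernel⟩

def k5_pm_202 : ∃ t, chk3 f_pm_202 t 3 3 1 = true :=
  ⟨(b (c (a (b (b (a (l 15485568) (l 15274240)) (a (l 15598456) (l 15352936))) (b (a (l 15716888) (l 15465160)) (a (l 15819928) (l 15601744)))) (b (a (b (l 15026664) (l 15069648)) (b (l 14711136) (l 14741888))) (a (b (l 15149112) (l 15259944)) (b (l 14790008) (l 14872048))))) (a (b (b (a (l 15478448) (l 15242672)) (a (l 15621512) (l 15342424))) (b (a (l 15622792) (l 15484272)) (a (l 15896152) (l 15656520)))) (b (a (b (l 14976176) (l 15029768)) (b (b (l 14671224) (l 14662864)) (l 14674352))) (a (b (l 15129040) (l 15267800)) (b (l 14732024) (l 14832424)))))) (a (b (a (l 4) (b (c (l 15729960) (l 15669064)) (a (l 4) (l 15616008)))) (l 4)) (b (a (b (l 15186640) (c (l 15551048) (l 15632032))) (b (c (l 14982984) (l 14969368)) (c (l 15117720) (l 15136480)))) (a (b (c (l 15686032) (l 15671912)) (a (l 4) (l 15568848))) (b (c (l 15270992) (l 15327224)) (a (l 15590640) (l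 15354872))))))), by decide +kernel⟩

theorem s6_pm_202 : ∃ t, chk3 f_pm_202 t 7 4 1 = true := ex3_a k2_pm_202 k3_pm_202

theorem s7_pm_202 : ∃ t, chk3 f_pm_202 t 3 4 1 = true := ex3_a k1_pm_202 s6_pm_202

theorem s8_pm_202 : ∃ t, chk3 f_pm_202 t 3 2 1 = true := ex3_b s7_pm_202 k4_pm_202

theorem s9_pm_202 : ∃ t, chk3 f_pm_202 t 3 1 1 = true := ex3_b s8_pm_202 k5_pm_202

theorem s10_pm_202 : ∃ t, chk3 f_pm_202 t 1 1 1 = true := ex3_a k0_pm_202 s9_pm_202

theorem c_pm_202 : CertB 0 536870912 0 536870912 991146299 28908434 3 eng mog cd0q2 cd4q0 pd2 true true false .pp 2 0 2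
    ndB0q2 ndB4q0 pcB2 Cut.none Ext.none :=
  certB1 (fam := true) (s1 := true) (s2 := false) (a := 2) (b := 0) (c := 2) (cn := .pp) (n1 := ndB0q2) (n2 := ndB4q0) (pc := pcB2) (cut := Cut.none) (xt := Ext.none) (P1 := 0) (W1 := 536870912) (P2 := 0) (W2 := 536870912) (P3 := 991146299) (W3 := 28908434) (N0 := 3) (En := eng) (mo := mog) (C1 := cd0q2) (C2 := cd4q0) (C3 := pd2)
    rfl (fun _ => rfl) s10_pm_202

noncomputable def f_pm_203 : ℕ → ℕ → ℕ → ℕ → Bool := onCell 0 536870912 1610612736 536870912 991146299 28908434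
    (rowB 3 eng mog cd0q2 cd4q0 pd3 1 true true false .up 2 0 3 (qsf 0 536870912 0 536870912 3) ndB0q2 ndB4q0 pcB3 Cut.none Ext.none)

def k0_pm_203 : ∃ t, chk3 f_pm_203 t 1 1 1 = true :=
  ⟨(b (a (l 4) (b (a (l 4) (b (a (l 4) (b (l 15675912) (l 15744312))) (l 4))) (l 4))) (l 2)), by decide +kernel⟩

theorem c_pm_203 : CertB 0 536870912 0 536870912 991146299 28908434 3 eng mog cd0q2 cd4q0 pd3 true true false .up 2 0 3
    ndB0q2 ndB4q0 pcB3 Cut.none Ext.none :=
  certB1 (fam := true) (s1 := true) (s2 := false) (a := 2) (b := 0) (c := 3) (cn := .up) (n1 := ndB0q2) (n2 := ndB4q0) (pc := pcB3) (cut := Cut.none) (xt := Ext.none) (P1 := 0) (W1 := 536870912) (P2 := 0) (W2 := 536870912) (P3 := 991146299) (W3 := 28908434) (N0 := 3) (En := eng) (mo := mog) (C1 := cd0q2) (C2 := cd4q0) (C3 := pd3)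
    rfl (fun _ => rfl) k0_pm_203

noncomputable def f_pm_213 : ℕ → ℕ → ℕ → ℕ → Bool := onCell 0 536870912 1610612736 536870912 991146299 28908434
    (rowB 3 eng mog cd0q2 cd4q1 pd3 1 true true false .pnn 2 1 3 (qsf 0 536870912 536870912 536870912 3) ndB0q2 ndB4q1 pcB3 Cut.none Ext.none)

def k0_pm_213 : ∃ t, chk3 f_pm_213 t 1 1 1 = true :=
  ⟨(b (a (l 4) (b (a (l 4) (b (a (l 4) (b (l 15408008) (l 15427784))) (l 4))) (l 4))) (l 4)), by decide +kernel⟩

theorem c_pm_213 : CertB 0 536870912 536870912 536870912 991146299 28908434 3 eng mog cd0q2 cd4q1 pd3 true true false .pnn 2 1 3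
    ndB0q2 ndB4q1 pcB3 Cut.none Ext.none :=
  certB1 (fam := true) (s1 := true) (s2 := false) (a := 2) (b := 1) (c := 3) (cn := .pnn) (n1 := ndB0q2) (n2 := ndB4q1) (pc := pcB3) (cut := Cut.none) (xt := Ext.none) (P1 := 0) (W1 := 536870912) (P2 := 536870912) (W2 := 536870912) (P3 := 991146299) (W3 := 28908434) (N0 := 3) (En := eng) (mo := mog) (C1 := cd0q2) (C2 := cd4q1) (C3 := pd3)
    rfl (fun _ => rfl) k0_pm_213

noncomputable def f_mm_001 : ℕ → ℕ → ℕ → ℕ → Bool := onCell 0 536870912 0 536870912 991146299 28908434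
    (rowB 3 eng mog cd0q0 cd4q0 pd1 0 true false false .up 0 0 1 (qsf 0 536870912 0 536870912 1) ndB0q0 ndB4q0 pcB1 Cut.none Ext.none)

def k0_mm_001 : ∃ t, chk3 f_mm_001 t 1 1 1 = true :=
  ⟨(l 4), by decide +kernel⟩

theorem c_mm_001 : CertB 0 536870912 0 536870912 991146299 28908434 3 eng mog cd0q0 cd4q0 pd1 true false false .up 0 0 1
    ndB0q0 ndB4q0 pcB1 Cut.none Ext.none :=
  certB0 (fam := true) (s1 := false) (s2 := false) (a := 0) (b := 0) (c := 1) (cn := .up) (n1 := ndB0q0) (n2 := ndB4q0) (pc := pcB1) (cut := Cut.none) (xt := Ext.none) (P1 := 0) (W1 := 536870912) (P2 := 0) (W2 := 536870912) (P3 := 991146299) (W3 := 28908434) (N0 := 3) (En := eng) (mo := mog) (C1 := cd0q0) (C2 := cd4q0) (C3 := pd1)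
    rfl k0_mm_001

noncomputable def f_mm_011 : ℕ → ℕ → ℕ → ℕ → Bool := onCell 0 536870912 536870912 536870912 991146299 28908434
    (rowB 3 eng mog cd0q0 cd4q1 pd1 0 true false false .pnn 0 1 1 (qsf 0 536870912 536870912 536870912 1) ndB0q0 ndB4q1 pcB1 Cut.none Ext.none)

def k0_mm_011 : ∃ t, chk3 f_mm_011 t 1 1 1 = true :=
  ⟨(l 4), by decide +kernel⟩

theorem c_mm_011 : CertB 0 536870912 536870912 536870912 991146299 28908434 3 eng mog cd0q0 cd4q1 pd1 true false false .pnn 0 1 1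
    ndB0q0 ndB4q1 pcB1 Cut.none Ext.none :=
  certB0 (fam := true) (s1 := false) (s2 := false) (a := 0) (b := 1) (c := 1) (cn := .pnn) (n1 := ndB0q0) (n2 := ndB4q1) (pc := pcB1) (cut := Cut.none) (xt := Ext.none) (P1 := 0) (W1 := 536870912) (P2 := 536870912) (W2 := 536870912) (P3 := 991146299) (W3 := 28908434) (N0 := 3) (En := eng) (mo := mog) (C1 := cd0q0) (C2 := cd4q1) (C3 := pd1)
    rfl k0_mm_011

noncomputable def f_mm_012 : ℕ → ℕ → ℕ → ℕ → Bool := onCell 0 536870912 536870912 536870912 991146299 28908434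
    (rowB 3 eng mog cd0q0 cd4q1 pd2 0 true false false .pnp 0 1 2 (qsf 0 536870912 536870912 536870912 2) ndB0q0 ndB4q1 pcB2 Cut.none Ext.none)

def k0_mm_012 : ∃ t, chk3 f_mm_012 t 1 1 1 = true :=
  ⟨(l 4), by decide +kernel⟩

theorem c_mm_012 : CertB 0 536870912 536870912 536870912 991146299 28908434 3 eng mog cd0q0 cd4q1 pd2 true false false .pnp 0 1 2
    ndB0q0 ndB4q1 pcB2 Cut.none Ext.none :=
  certB0 (fam := true) (s1 := false) (s2 := false) (a := 0) (b := 1) (c := 2) (cn := .pnp) (n1 := ndB0q0) (n2 := ndB4q1) (pc := pcB2) (cut := Cut.none) (xt := Ext.none) (P1 := 0) (W1 := 536870912) (P2 := 536870912) (W2 := 536870912) (P3 := 991146299) (W3 := 28908434) (N0 := 3) (En := eng) (mo := mog) (C1 := cd0q0) (C2 := cd4q1) (C3 := pd2)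
    rfl k0_mm_012

noncomputable def f_mm_022 : ℕ → ℕ → ℕ → ℕ → Bool := onCell 0 536870912 1073741824 536870912 991146299 28908434
    (rowB 3 eng mog cd0q0 cd4q2 pd2 0 true false false .pp 0 2 2 (qsf 0 536870912 1073741824 536870912 2) ndB0q0 ndB4q2 pcB2 Cut.none Ext.none)

def k0_mm_022 : ∃ t, chk3 f_mm_022 t 1 1 1 = true :=
  ⟨(l 4), by decide +kernel⟩

theorem c_mm_022 : CertB 0 536870912 1073741824 536870912 991146299 28908434 3 eng mog cd0q0 cd4q2 pd2 true false false .pp 0 2 2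
    ndB0q0 ndB4q2 pcB2 Cut.none Ext.none :=
  certB0 (fam := true) (s1 := false) (s2 := false) (a := 0) (b := 2) (c := 2) (cn := .pp) (n1 := ndB0q0) (n2 := ndB4q2) (pc := pcB2) (cut := Cut.none) (xt := Ext.none) (P1 := 0) (W1 := 536870912) (P2 := 1073741824) (W2 := 536870912) (P3 := 991146299) (W3 := 28908434) (N0 := 3) (En := eng) (mo := mog) (C1 := cd0q0) (C2 := cd4q2) (C3 := pd2)
    rfl k0_mm_022

noncomputable def f_mm_023 : ℕ → ℕ → ℕ → ℕ → Bool := onCell 0 536870912 1073741824 536870912 991146299 28908434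
    (rowB 3 eng mog cd0q0 cd4q2 pd3 0 true false false .up 0 2 3 (qsf 0 536870912 1073741824 536870912 3) ndB0q0 ndB4q2 pcB3 Cut.none Ext.none)

def k0_mm_023 : ∃ t, chk3 f_mm_023 t 1 1 1 = true :=
  ⟨(l 4), by decide +kernel⟩

theorem c_mm_023 : CertB 0 536870912 1073741824 536870912 991146299 28908434 3 eng mog cd0q0 cd4q2 pd3 true false false .up 0 2 3
    ndB0q0 ndB4q2 pcB3 Cut.none Ext.none :=
  certB0 (fam := true) (s1 := false) (s2 := false) (a := 0) (b := 2) (c := 3) (cn := .up) (n1 := ndB0q0) (n2 := ndB4q2) (pc := pcB3) (cut := Cut.none) (xt := Ext.none) (P1 := 0) (W1 := 536870912) (P2 := 1073741824) (W2 := 536870912) (P3 := 991146299) (W3 := 28908434) (N0 := 3) (En := eng) (mo := mog) (C1 := cd0q0) (C2 := cd4q2) (C3 := pd3)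
    rfl k0_mm_023

noncomputable def f_mm_033 : ℕ → ℕ → ℕ → ℕ → Bool := onCell 0 536870912 0 1230186008 991146299 28908434
    (rowB 3 eng mog cd0q0 cd4q3 pd3 0 true false false .pnn 0 3 3 (qsf 0 536870912 0 1230186008 3) ndB0q0 ndB4q3 pcB3 Cut.none Ext.none)

def k0_mm_033 : ∃ t, chk3 f_mm_033 t 1 1 1 = true :=
  ⟨(l 5), by decide +kernel⟩

theorem c_mm_033 : CertB 0 536870912 0 1230186008 991146299 28908434 3 eng mog cd0q0 cd4q3 pd3 true false false .pnn 0 3 3
    ndB0q0 ndB4q3 pcB3 Cut.none Ext.none :=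
  certB0 (fam := true) (s1 := false) (s2 := false) (a := 0) (b := 3) (c := 3) (cn := .pnn) (n1 := ndB0q0) (n2 := ndB4q3) (pc := pcB3) (cut := Cut.none) (xt := Ext.none) (P1 := 0) (W1 := 536870912) (P2 := 0) (W2 := 1230186008) (P3 := 991146299) (W3 := 28908434) (N0 := 3) (En := eng) (mo := mog) (C1 := cd0q0) (C2 := cd4q3) (C3 := pd3)
    rfl k0_mm_033

noncomputable def f_mm_101 : ℕ → ℕ → ℕ → ℕ → Bool := onCell 536870912 536870912 0 536870912 991146299 28908434
    (rowB 3 eng mog cd0q1 cd4q0 pd1 0 true false false .npn 1 0 1 (qsf 536870912 536870912 0 536870912 1) ndB0q1 ndB4q0 pcB1 Cut.none Ext.none)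

def k0_mm_101 : ∃ t, chk3 f_mm_101 t 1 1 1 = true :=
  ⟨(l 4), by decide +kernel⟩

theorem c_mm_101 : CertB 536870912 536870912 0 536870912 991146299 28908434 3 eng mog cd0q1 cd4q0 pd1 true false false .npn 1 0 1
    ndB0q1 ndB4q0 pcB1 Cut.none Ext.none :=
  certB0 (fam := true) (s1 := false) (s2 := false) (a := 1) (b := 0) (c := 1) (cn := .npn) (n1 := ndB0q1) (n2 := ndB4q0) (pc := pcB1) (cut := Cut.none) (xt := Ext.none) (P1 := 536870912) (W1 := 536870912) (P2 := 0) (W2 := 536870912) (P3 := 991146299) (W3 := 28908434) (N0 := 3) (En := eng) (mo := mog) (C1 := cd0q1) (C2 := cd4q0) (C3 := pd1)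
    rfl k0_mm_101

noncomputable def f_mm_102 : ℕ → ℕ → ℕ → ℕ → Bool := onCell 536870912 536870912 0 536870912 991146299 28908434
    (rowB 3 eng mog cd0q1 cd4q0 pd2 0 true false false .npp 1 0 2 (qsf 536870912 536870912 0 536870912 2) ndB0q1 ndB4q0 pcB2 Cut.none Ext.none)

def k0_mm_102 : ∃ t, chk3 f_mm_102 t 1 1 1 = true :=
  ⟨(l 4), by decide +kernel⟩

theorem c_mm_102 : CertB 536870912 536870912 0 536870912 991146299 28908434 3 eng mog cd0q1 cd4q0 pd2 true false false .npp 1 0 2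
    ndB0q1 ndB4q0 pcB2 Cut.none Ext.none :=
  certB0 (fam := true) (s1 := false) (s2 := false) (a := 1) (b := 0) (c := 2) (cn := .npp) (n1 := ndB0q1) (n2 := ndB4q0) (pc := pcB2) (cut := Cut.none) (xt := Ext.none) (P1 := 536870912) (W1 := 536870912) (P2 := 0) (W2 := 536870912) (P3 := 991146299) (W3 := 28908434) (N0 := 3) (En := eng) (mo := mog) (C1 := cd0q1) (C2 := cd4q0) (C3 := pd2)
    rfl k0_mm_102

noncomputable def f_mm_112 : ℕ → ℕ → ℕ → ℕ → Bool := onCell 536870912 536870912 536870912 536870912 991146299 28908434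
    (rowB 3 eng mog cd0q1 cd4q1 pd2 0 true false false .dn 1 1 2 (qsf 536870912 536870912 536870912 536870912 2) ndB0q1 ndB4q1 pcB2 Cut.none Ext.none)

def k0_mm_112 : ∃ t, chk3 f_mm_112 t 1 1 1 = true :=
  ⟨(l 4), by decide +kernel⟩

theorem c_mm_112 : CertB 536870912 536870912 536870912 536870912 991146299 28908434 3 eng mog cd0q1 cd4q1 pd2 true false false .dn 1 1 2
    ndB0q1 ndB4q1 pcB2 Cut.none Ext.none :=
  certB0 (fam := true) (s1 := false) (s2 := false) (a := 1) (b := 1) (c := 2) (cn := .dn) (n1 := ndB0q1) (n2 := ndB4q1) (pc := pcB2) (cut := Cut.none) (xt := Ext.none) (P1 := 536870912) (W1 := 536870912) (P2 := 536870912) (W2 := 536870912) (P3 := 991146299) (W3 := 28908434) (N0 := 3) (En := eng) (mo := mog) (C1 := cd0q1) (C2 := cd4q1) (C3 := pd2)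
    rfl k0_mm_112

noncomputable def f_mm_113 : ℕ → ℕ → ℕ → ℕ → Bool := onCell 536870912 536870912 536870912 536870912 991146299 28908434
    (rowB 3 eng mog cd0q1 cd4q1 pd3 0 true false false .nn 1 1 3 (qsf 536870912 536870912 536870912 536870912 3) ndB0q1 ndB4q1 pcB3 Cut.none Ext.none)

def k0_mm_113 : ∃ t, chk3 f_mm_113 t 1 1 1 = true :=
  ⟨(l 4), by decide +kernel⟩

theorem c_mm_113 : CertB 536870912 536870912 536870912 536870912 991146299 28908434 3 eng mog cd0q1 cd4q1 pd3 true false false .nn 1 1 3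
    ndB0q1 ndB4q1 pcB3 Cut.none Ext.none :=
  certB0 (fam := true) (s1 := false) (s2 := false) (a := 1) (b := 1) (c := 3) (cn := .nn) (n1 := ndB0q1) (n2 := ndB4q1) (pc := pcB3) (cut := Cut.none) (xt := Ext.none) (P1 := 536870912) (W1 := 536870912) (P2 := 536870912) (W2 := 536870912) (P3 := 991146299) (W3 := 28908434) (N0 := 3) (En := eng) (mo := mog) (C1 := cd0q1) (C2 := cd4q1) (C3 := pd3)
    rfl k0_mm_113

noncomputable def f_mm_123 : ℕ → ℕ → ℕ → ℕ → Bool := onCell 536870912 536870912 1073741824 536870912 991146299 28908434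
    (rowB 3 eng mog cd0q1 cd4q2 pd3 0 true false false .npn 1 2 3 (qsf 536870912 536870912 1073741824 536870912 3) ndB0q1 ndB4q2 pcB3 Cut.none Ext.none)

def k0_mm_123 : ∃ t, chk3 f_mm_123 t 1 1 1 = true :=
  ⟨(l 4), by decide +kernel⟩

theorem c_mm_123 : CertB 536870912 536870912 1073741824 536870912 991146299 28908434 3 eng mog cd0q1 cd4q2 pd3 true false false .npn 1 2 3
    ndB0q1 ndB4q2 pcB3 Cut.none Ext.none :=
  certB0 (fam := true) (s1 := false) (s2 := false) (a := 1) (b := 2) (c := 3) (cn := .npn) (n1 := ndB0q1) (n2 := ndB4q2) (pc := pcB3) (cut := Cut.none) (xt := Ext.none) (P1 := 536870912) (W1 := 536870912) (P2 := 1073741824) (W2 := 536870912) (P3 := 991146299) (W3 := 28908434) (N0 := 3) (En := eng) (mo := mog) (C1 := cd0q1) (C2 := cd4q2) (C3 := pd3)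
    rfl k0_mm_123

noncomputable def f_mm_133 : ℕ → ℕ → ℕ → ℕ → Bool := onCell 536870912 536870912 0 1230186008 991146299 28908434
    (rowB 3 eng mog cd0q1 cd4q3 pd3 0 true false false .dn 1 3 3 (qsf 536870912 536870912 0 1230186008 3) ndB0q1 ndB4q3 pcB3 Cut.none Ext.none)

def k0_mm_133 : ∃ t, chk3 f_mm_133 t 1 1 1 = true :=
  ⟨(l 4), by decide +kernel⟩

theorem c_mm_133 : CertB 536870912 536870912 0 1230186008 991146299 28908434 3 eng mog cd0q1 cd4q3 pd3 true false false .dn 1 3 3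
    ndB0q1 ndB4q3 pcB3 Cut.none Ext.none :=
  certB0 (fam := true) (s1 := false) (s2 := false) (a := 1) (b := 3) (c := 3) (cn := .dn) (n1 := ndB0q1) (n2 := ndB4q3) (pc := pcB3) (cut := Cut.none) (xt := Ext.none) (P1 := 536870912) (W1 := 536870912) (P2 := 0) (W2 := 1230186008) (P3 := 991146299) (W3 := 28908434) (N0 := 3) (En := eng) (mo := mog) (C1 := cd0q1) (C2 := cd4q3) (C3 := pd3)
    rfl k0_mm_133

noncomputable def f_mm_202 : ℕ → ℕ → ℕ → ℕ → Bool := onCell 0 536870912 0 536870912 991146299 28908434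
    (rowB 3 eng mog cd0q2 cd4q0 pd2 0 true false false .pp 2 0 2 (qsf 0 536870912 0 536870912 2) ndB0q2 ndB4q0 pcB2 Cut.none Ext.none)

def k0_mm_202 : ∃ t, chk3 f_mm_202 t 1 1 1 = true :=
  ⟨(l 4), by decide +kernel⟩

theorem c_mm_202 : CertB 0 536870912 0 536870912 991146299 28908434 3 eng mog cd0q2 cd4q0 pd2 true false false .pp 2 0 2
    ndB0q2 ndB4q0 pcB2 Cut.none Ext.none :=
  certB0 (fam := true) (s1 := false) (s2 := false) (a := 2) (b := 0) (c := 2) (cn := .pp) (n1 := ndB0q2) (n2 := ndB4q0) (pc := pcB2) (cut := Cut.none) (xt := Ext.none) (P1 := 0) (W1 := 536870912) (P2 := 0) (W2 := 536870912) (P3 := 991146299) (W3 := 28908434) (N0 := 3) (En := eng) (mo := mog) (C1 := cd0q2) (C2 := cd4q0) (C3 := pd2)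
    rfl k0_mm_202

noncomputable def f_mm_203 : ℕ → ℕ → ℕ → ℕ → Bool := onCell 0 536870912 0 536870912 991146299 28908434
    (rowB 3 eng mog cd0q2 cd4q0 pd3 0 true false false .up 2 0 3 (qsf 0 536870912 0 536870912 3) ndB0q2 ndB4q0 pcB3 Cut.none Ext.none)

def k0_mm_203 : ∃ t, chk3 f_mm_203 t 1 1 1 = true :=
  ⟨(l 4), by decide +kernel⟩

theorem c_mm_203 : CertB 0 536870912 0 536870912 991146299 28908434 3 eng mog cd0q2 cd4q0 pd3 true false false .up 2 0 3
    ndB0q2 ndB4q0 pcB3 Cut.none Ext.none :=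
  certB0 (fam := true) (s1 := false) (s2 := false) (a := 2) (b := 0) (c := 3) (cn := .up) (n1 := ndB0q2) (n2 := ndB4q0) (pc := pcB3) (cut := Cut.none) (xt := Ext.none) (P1 := 0) (W1 := 536870912) (P2 := 0) (W2 := 536870912) (P3 := 991146299) (W3 := 28908434) (N0 := 3) (En := eng) (mo := mog) (C1 := cd0q2) (C2 := cd4q0) (C3 := pd3)
    rfl k0_mm_203

noncomputable def f_mm_213 : ℕ → ℕ → ℕ → ℕ → Bool := onCell 0 536870912 536870912 536870912 991146299 28908434
    (rowB 3 eng mog cd0q2 cd4q1 pd3 0 true false false .pnn 2 1 3 (qsf 0 536870912 536870912 536870912 3) ndB0q2 ndB4q1 pcB3 Cut.none Ext.none)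

def k0_mm_213 : ∃ t, chk3 f_mm_213 t 1 1 1 = true :=
  ⟨(l 4), by decide +kernel⟩

theorem c_mm_213 : CertB 0 536870912 536870912 536870912 991146299 28908434 3 eng mog cd0q2 cd4q1 pd3 true false false .pnn 2 1 3
    ndB0q2 ndB4q1 pcB3 Cut.none Ext.none :=
  certB0 (fam := true) (s1 := false) (s2 := false) (a := 2) (b := 1) (c := 3) (cn := .pnn) (n1 := ndB0q2) (n2 := ndB4q1) (pc := pcB3) (cut := Cut.none) (xt := Ext.none) (P1 := 0) (W1 := 536870912) (P2 := 536870912) (W2 := 536870912) (P3 := 991146299) (W3 := 28908434) (N0 := 3) (En := eng) (mo := mog) (C1 := cd0q2) (C2 := cd4q1) (C3 := pd3)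
    rfl k0_mm_213

end Pool.Agent.Strip051.G.I9231_9500.Tab.C.BA04

namespace Pool.Agent.Strip051.G.I9231_9500.Tab.C.BA05

open Pool.Agent.Strip051.PB Pool.Agent.Strip051.PB.T
open Pool.Agent.Strip051.G.I9231_9500.Tab

noncomputable def cut_pp_001 : Cut := Cut.of [[⟨3, 0, 0, 1449551462⟩]]

noncomputable def f_pp_001 : ℕ → ℕ → ℕ → ℕ → Bool := onCell 0 536870912 0 536870912 991146299 28908434
    (rowB 3 eng mog cd0q0 cd5q0 pd1 0 true true true .up 0 0 1 (qsf 0 536870912 0 536870912 1) ndB0q0 ndB5q0 pcB1 cut_pp_001 Ext.none)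

def k0_pp_001 : ∃ t, chk3 f_pp_001 t 1 1 1 = true :=
  ⟨(l 4), by decide +kernel⟩

theorem c_pp_001 : CertB 0 536870912 0 536870912 991146299 28908434 3 eng mog cd0q0 cd5q0 pd1 true true true .up 0 0 1
    ndB0q0 ndB5q0 pcB1 cut_pp_001 Ext.none :=
  certB0 (fam := true) (s1 := true) (s2 := true) (a := 0) (b := 0) (c := 1) (cn := .up) (n1 := ndB0q0) (n2 := ndB5q0) (pc := pcB1) (cut := cut_pp_001) (xt := Ext.none) (P1 := 0) (W1 := 536870912) (P2 := 0) (W2 := 536870912) (P3 := 991146299) (W3 := 28908434) (N0 := 3) (En := eng) (mo := mog) (C1 := cd0q0) (C2 := cd5q0) (C3 := pd1)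
    rfl k0_pp_001

noncomputable def cut_pp_011 : Cut := Cut.of [[⟨3, 0, 0, 1449551462⟩]]

noncomputable def f_pp_011 : ℕ → ℕ → ℕ → ℕ → Bool := onCell 0 536870912 536870912 536870912 991146299 28908434
    (rowB 3 eng mog cd0q0 cd5q1 pd1 0 true true true .pnn 0 1 1 (qsf 0 536870912 536870912 536870912 1) ndB0q0 ndB5q1 pcB1 cut_pp_011 Ext.none)

def k0_pp_011 : ∃ t, chk3 f_pp_011 t 1 1 1 = true :=
  ⟨(l 4), by decide +kernel⟩

theorem c_pp_011 : CertB 0 536870912 536870912 536870912 991146299 28908434 3 eng mog cd0q0 cd5q1 pd1 true true true .pnn 0 1 1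
    ndB0q0 ndB5q1 pcB1 cut_pp_011 Ext.none :=
  certB0 (fam := true) (s1 := true) (s2 := true) (a := 0) (b := 1) (c := 1) (cn := .pnn) (n1 := ndB0q0) (n2 := ndB5q1) (pc := pcB1) (cut := cut_pp_011) (xt := Ext.none) (P1 := 0) (W1 := 536870912) (P2 := 536870912) (W2 := 536870912) (P3 := 991146299) (W3 := 28908434) (N0 := 3) (En := eng) (mo := mog) (C1 := cd0q0) (C2 := cd5q1) (C3 := pd1)
    rfl k0_pp_011

noncomputable def cut_pp_012 : Cut := Cut.of [[⟨3, 0, 0, 1449551462⟩]]

noncomputable def f_pp_012 : ℕ → ℕ → ℕ → ℕ → Bool := onCell 0 536870912 536870912 536870912 991146299 28908434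
    (rowB 3 eng mog cd0q0 cd5q1 pd2 0 true true true .pnp 0 1 2 (qsf 0 536870912 536870912 536870912 2) ndB0q0 ndB5q1 pcB2 cut_pp_012 Ext.none)

def k0_pp_012 : ∃ t, chk3 f_pp_012 t 1 1 1 = true :=
  ⟨(l 4), by decide +kernel⟩

theorem c_pp_012 : CertB 0 536870912 536870912 536870912 991146299 28908434 3 eng mog cd0q0 cd5q1 pd2 true true true .pnp 0 1 2
    ndB0q0 ndB5q1 pcB2 cut_pp_012 Ext.none :=
  certB0 (fam := true) (s1 := true) (s2 := true) (a := 0) (b := 1) (c := 2) (cn := .pnp) (n1 := ndB0q0) (n2 := ndB5q1) (pc := pcB2) (cut := cut_pp_012) (xt := Ext.none) (P1 := 0) (W1 := 536870912) (P2 := 536870912) (W2 := 536870912) (P3 := 991146299) (W3 := 28908434) (N0 := 3) (En := eng) (mo := mog) (C1 := cd0q0) (C2 := cd5q1) (C3 := pd2)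
    rfl k0_pp_012

noncomputable def cut_pp_022 : Cut := Cut.of [[⟨3, 0, 0, 1449551462⟩]]

noncomputable def f_pp_022 : ℕ → ℕ → ℕ → ℕ → Bool := onCell 0 536870912 1073741824 536870912 991146299 28908434
    (rowB 3 eng mog cd0q0 cd5q2 pd2 0 true true true .pp 0 2 2 (qsf 0 536870912 1073741824 536870912 2) ndB0q0 ndB5q2 pcB2 cut_pp_022 Ext.none)

def k0_pp_022 : ∃ t, chk3 f_pp_022 t 1 1 1 = true :=
  ⟨(l 4), by decide +kernel⟩

theorem c_pp_022 : CertB 0 536870912 1073741824 536870912 991146299 28908434 3 eng mog cd0q0 cd5q2 pd2 true true true .pp 0 2 2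
    ndB0q0 ndB5q2 pcB2 cut_pp_022 Ext.none :=
  certB0 (fam := true) (s1 := true) (s2 := true) (a := 0) (b := 2) (c := 2) (cn := .pp) (n1 := ndB0q0) (n2 := ndB5q2) (pc := pcB2) (cut := cut_pp_022) (xt := Ext.none) (P1 := 0) (W1 := 536870912) (P2 := 1073741824) (W2 := 536870912) (P3 := 991146299) (W3 := 28908434) (N0 := 3) (En := eng) (mo := mog) (C1 := cd0q0) (C2 := cd5q2) (C3 := pd2)
    rfl k0_pp_022

noncomputable def cut_pp_023 : Cut := Cut.of [[⟨3, 0, 0, 1449551462⟩]]

noncomputable def f_pp_023 : ℕ → ℕ → ℕ → ℕ → Bool := onCell 0 536870912 1073741824 536870912 991146299 28908434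
    (rowB 3 eng mog cd0q0 cd5q2 pd3 0 true true true .up 0 2 3 (qsf 0 536870912 1073741824 536870912 3) ndB0q0 ndB5q2 pcB3 cut_pp_023 Ext.none)

def k0_pp_023 : ∃ t, chk3 f_pp_023 t 1 1 1 = true :=
  ⟨(l 4), by decide +kernel⟩

theorem c_pp_023 : CertB 0 536870912 1073741824 536870912 991146299 28908434 3 eng mog cd0q0 cd5q2 pd3 true true true .up 0 2 3
    ndB0q0 ndB5q2 pcB3 cut_pp_023 Ext.none :=
  certB0 (fam := true) (s1 := true) (s2 := true) (a := 0) (b := 2) (c := 3) (cn := .up) (n1 := ndB0q0) (n2 := ndB5q2) (pc := pcB3) (cut := cut_pp_023) (xt := Ext.none) (P1 := 0) (W1 := 536870912) (P2 := 1073741824) (W2 := 536870912) (P3 := 991146299) (W3 := 28908434) (N0 := 3) (En := eng) (mo := mog) (C1 := cd0q0) (C2 := cd5q2) (C3 := pd3)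
    rfl k0_pp_023

noncomputable def cut_pp_033 : Cut := Cut.of [[⟨3, 0, 0, 1449551462⟩]]

noncomputable def f_pp_033 : ℕ → ℕ → ℕ → ℕ → Bool := onCell 0 536870912 0 1230186008 991146299 28908434
    (rowB 3 eng mog cd0q0 cd5q3 pd3 0 true true true .pnn 0 3 3 (qsf 0 536870912 0 1230186008 3) ndB0q0 ndB5q3 pcB3 cut_pp_033 Ext.none)

def k0_pp_033 : ∃ t, chk3 f_pp_033 t 1 1 1 = true :=
  ⟨(l 4), by decide +kernel⟩

theorem c_pp_033 : CertB 0 536870912 0 1230186008 991146299 28908434 3 eng mog cd0q0 cd5q3 pd3 true true true .pnn 0 3 3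
    ndB0q0 ndB5q3 pcB3 cut_pp_033 Ext.none :=
  certB0 (fam := true) (s1 := true) (s2 := true) (a := 0) (b := 3) (c := 3) (cn := .pnn) (n1 := ndB0q0) (n2 := ndB5q3) (pc := pcB3) (cut := cut_pp_033) (xt := Ext.none) (P1 := 0) (W1 := 536870912) (P2 := 0) (W2 := 1230186008) (P3 := 991146299) (W3 := 28908434) (N0 := 3) (En := eng) (mo := mog) (C1 := cd0q0) (C2 := cd5q3) (C3 := pd3)
    rfl k0_pp_033

noncomputable def cut_pp_101 : Cut := Cut.of [[⟨3, 0, 0, 1449551462⟩]]

noncomputable def f_pp_101 : ℕ → ℕ → ℕ → ℕ → Bool := onCell 536870912 536870912 0 536870912 991146299 28908434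
    (rowB 3 eng mog cd0q1 cd5q0 pd1 0 true true true .npn 1 0 1 (qsf 536870912 536870912 0 536870912 1) ndB0q1 ndB5q0 pcB1 cut_pp_101 Ext.none)

def k0_pp_101 : ∃ t, chk3 f_pp_101 t 1 1 1 = true :=
  ⟨(l 4), by decide +kernel⟩

theorem c_pp_101 : CertB 536870912 536870912 0 536870912 991146299 28908434 3 eng mog cd0q1 cd5q0 pd1 true true true .npn 1 0 1
    ndB0q1 ndB5q0 pcB1 cut_pp_101 Ext.none :=
  certB0 (fam := true) (s1 := true) (s2 := true) (a := 1) (b := 0) (c := 1) (cn := .npn) (n1 := ndB0q1) (n2 := ndB5q0) (pc := pcB1) (cut := cut_pp_101) (xt := Ext.none) (P1 := 536870912) (W1 := 536870912) (P2 := 0) (W2 := 536870912) (P3 := 991146299) (W3 := 28908434) (N0 := 3) (En := eng) (mo := mog) (C1 := cd0q1) (C2 := cd5q0) (C3 := pd1)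
    rfl k0_pp_101

noncomputable def cut_pp_102 : Cut := Cut.of [[⟨3, 0, 0, 1449551462⟩]]

noncomputable def f_pp_102 : ℕ → ℕ → ℕ → ℕ → Bool := onCell 536870912 536870912 0 536870912 991146299 28908434
    (rowB 3 eng mog cd0q1 cd5q0 pd2 0 true true true .npp 1 0 2 (qsf 536870912 536870912 0 536870912 2) ndB0q1 ndB5q0 pcB2 cut_pp_102 Ext.none)

def k0_pp_102 : ∃ t, chk3 f_pp_102 t 1 1 1 = true :=
  ⟨(l 4), by decide +kernel⟩

theorem c_pp_102 : CertB 536870912 536870912 0 536870912 991146299 28908434 3 eng mog cd0q1 cd5q0 pd2 true true true .npp 1 0 2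
    ndB0q1 ndB5q0 pcB2 cut_pp_102 Ext.none :=
  certB0 (fam := true) (s1 := true) (s2 := true) (a := 1) (b := 0) (c := 2) (cn := .npp) (n1 := ndB0q1) (n2 := ndB5q0) (pc := pcB2) (cut := cut_pp_102) (xt := Ext.none) (P1 := 536870912) (W1 := 536870912) (P2 := 0) (W2 := 536870912) (P3 := 991146299) (W3 := 28908434) (N0 := 3) (En := eng) (mo := mog) (C1 := cd0q1) (C2 := cd5q0) (C3 := pd2)
    rfl k0_pp_102

noncomputable def cut_pp_112 : Cut := Cut.of [[⟨3, 0, 0, 1449551462⟩]]

noncomputable def f_pp_112 : ℕ → ℕ → ℕ → ℕ → Bool := onCell 536870912 536870912 536870912 536870912 991146299 28908434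
    (rowB 3 eng mog cd0q1 cd5q1 pd2 0 true true true .dn 1 1 2 (qsf 536870912 536870912 536870912 536870912 2) ndB0q1 ndB5q1 pcB2 cut_pp_112 Ext.none)

def k0_pp_112 : ∃ t, chk3 f_pp_112 t 1 1 1 = true :=
  ⟨(l 4), by decide +kernel⟩

theorem c_pp_112 : CertB 536870912 536870912 536870912 536870912 991146299 28908434 3 eng mog cd0q1 cd5q1 pd2 true true true .dn 1 1 2
    ndB0q1 ndB5q1 pcB2 cut_pp_112 Ext.none :=
  certB0 (fam := true) (s1 := true) (s2 := true) (a := 1) (b := 1) (c := 2) (cn := .dn) (n1 := ndB0q1) (n2 := ndB5q1) (pc := pcB2) (cut := cut_pp_112) (xt := Ext.none) (P1 := 536870912) (W1 := 536870912) (P2 := 536870912) (W2 := 536870912) (P3 := 991146299) (W3 := 28908434) (N0 := 3) (En := eng) (mo := mog) (C1 := cd0q1) (C2 := cd5q1) (C3 := pd2)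
    rfl k0_pp_112

noncomputable def cut_pp_113 : Cut := Cut.of [[⟨3, 0, 0, 1449551462⟩]]

noncomputable def f_pp_113 : ℕ → ℕ → ℕ → ℕ → Bool := onCell 536870912 536870912 536870912 536870912 991146299 28908434
    (rowB 3 eng mog cd0q1 cd5q1 pd3 0 true true true .nn 1 1 3 (qsf 536870912 536870912 536870912 536870912 3) ndB0q1 ndB5q1 pcB3 cut_pp_113 Ext.none)

def k0_pp_113 : ∃ t, chk3 f_pp_113 t 1 1 1 = true :=
  ⟨(l 4), by decide +kernel⟩

theorem c_pp_113 : CertB 536870912 536870912 536870912 536870912 991146299 28908434 3 eng mog cd0q1 cd5q1 pd3 true true true .nn 1 1 3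
    ndB0q1 ndB5q1 pcB3 cut_pp_113 Ext.none :=
  certB0 (fam := true) (s1 := true) (s2 := true) (a := 1) (b := 1) (c := 3) (cn := .nn) (n1 := ndB0q1) (n2 := ndB5q1) (pc := pcB3) (cut := cut_pp_113) (xt := Ext.none) (P1 := 536870912) (W1 := 536870912) (P2 := 536870912) (W2 := 536870912) (P3 := 991146299) (W3 := 28908434) (N0 := 3) (En := eng) (mo := mog) (C1 := cd0q1) (C2 := cd5q1) (C3 := pd3)
    rfl k0_pp_113

noncomputable def cut_pp_123 : Cut := Cut.of [[⟨3, 0, 0, 1449551462⟩]]

noncomputable def f_pp_123 : ℕ → ℕ → ℕ → ℕ → Bool := onCell 536870912 536870912 1073741824 536870912 991146299 28908434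
    (rowB 3 eng mog cd0q1 cd5q2 pd3 0 true true true .npn 1 2 3 (qsf 536870912 536870912 1073741824 536870912 3) ndB0q1 ndB5q2 pcB3 cut_pp_123 Ext.none)

def k0_pp_123 : ∃ t, chk3 f_pp_123 t 1 1 1 = true :=
  ⟨(l 4), by decide +kernel⟩

theorem c_pp_123 : CertB 536870912 536870912 1073741824 536870912 991146299 28908434 3 eng mog cd0q1 cd5q2 pd3 true true true .npn 1 2 3
    ndB0q1 ndB5q2 pcB3 cut_pp_123 Ext.none :=
  certB0 (fam := true) (s1 := true) (s2 := true) (a := 1) (b := 2) (c := 3) (cn := .npn) (n1 := ndB0q1) (n2 := ndB5q2) (pc := pcB3) (cut := cut_pp_123) (xt := Ext.none) (P1 := 536870912) (W1 := 536870912) (P2 := 1073741824) (W2 := 536870912) (P3 := 991146299) (W3 := 28908434) (N0 := 3) (En := eng) (mo := mog) (C1 := cd0q1) (C2 := cd5q2) (C3 := pd3)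
    rfl k0_pp_123

noncomputable def cut_pp_133 : Cut := Cut.of [[⟨3, 0, 0, 1449551462⟩]]

noncomputable def f_pp_133 : ℕ → ℕ → ℕ → ℕ → Bool := onCell 536870912 536870912 0 1230186008 991146299 28908434
    (rowB 3 eng mog cd0q1 cd5q3 pd3 0 true true true .dn 1 3 3 (qsf 536870912 536870912 0 1230186008 3) ndB0q1 ndB5q3 pcB3 cut_pp_133 Ext.none)

def k0_pp_133 : ∃ t, chk3 f_pp_133 t 1 1 1 = true :=
  ⟨(l 4), by decide +kernel⟩

theorem c_pp_133 : CertB 536870912 536870912 0 1230186008 991146299 28908434 3 eng mog cd0q1 cd5q3 pd3 true true true .dn 1 3 3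
    ndB0q1 ndB5q3 pcB3 cut_pp_133 Ext.none :=
  certB0 (fam := true) (s1 := true) (s2 := true) (a := 1) (b := 3) (c := 3) (cn := .dn) (n1 := ndB0q1) (n2 := ndB5q3) (pc := pcB3) (cut := cut_pp_133) (xt := Ext.none) (P1 := 536870912) (W1 := 536870912) (P2 := 0) (W2 := 1230186008) (P3 := 991146299) (W3 := 28908434) (N0 := 3) (En := eng) (mo := mog) (C1 := cd0q1) (C2 := cd5q3) (C3 := pd3)
    rfl k0_pp_133

noncomputable def cut_pp_202 : Cut := Cut.of [[⟨3, 0, 0, 1449551462⟩]]

noncomputable def f_pp_202 : ℕ → ℕ → ℕ → ℕ → Bool := onCell 0 536870912 0 536870912 991146299 28908434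
    (rowB 3 eng mog cd0q2 cd5q0 pd2 0 true true true .pp 2 0 2 (qsf 0 536870912 0 536870912 2) ndB0q2 ndB5q0 pcB2 cut_pp_202 Ext.none)

def k0_pp_202 : ∃ t, chk3 f_pp_202 t 1 1 1 = true :=
  ⟨(l 4), by decide +kernel⟩

theorem c_pp_202 : CertB 0 536870912 0 536870912 991146299 28908434 3 eng mog cd0q2 cd5q0 pd2 true true true .pp 2 0 2
    ndB0q2 ndB5q0 pcB2 cut_pp_202 Ext.none :=
  certB0 (fam := true) (s1 := true) (s2 := true) (a := 2) (b := 0) (c := 2) (cn := .pp) (n1 := ndB0q2) (n2 := ndB5q0) (pc := pcB2) (cut := cut_pp_202) (xt := Ext.none) (P1 := 0) (W1 := 536870912) (P2 := 0) (W2 := 536870912) (P3 := 991146299) (W3 := 28908434) (N0 := 3) (En := eng) (mo := mog) (C1 := cd0q2) (C2 := cd5q0) (C3 := pd2)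
    rfl k0_pp_202

noncomputable def cut_pp_203 : Cut := Cut.of [[⟨3, 0, 0, 1449551462⟩]]

noncomputable def f_pp_203 : ℕ → ℕ → ℕ → ℕ → Bool := onCell 0 536870912 0 536870912 991146299 28908434
    (rowB 3 eng mog cd0q2 cd5q0 pd3 0 true true true .up 2 0 3 (qsf 0 536870912 0 536870912 3) ndB0q2 ndB5q0 pcB3 cut_pp_203 Ext.none)

def k0_pp_203 : ∃ t, chk3 f_pp_203 t 1 1 1 = true :=
  ⟨(l 4), by decide +kernel⟩

theorem c_pp_203 : CertB 0 536870912 0 536870912 991146299 28908434 3 eng mog cd0q2 cd5q0 pd3 true true true .up 2 0 3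
    ndB0q2 ndB5q0 pcB3 cut_pp_203 Ext.none :=
  certB0 (fam := true) (s1 := true) (s2 := true) (a := 2) (b := 0) (c := 3) (cn := .up) (n1 := ndB0q2) (n2 := ndB5q0) (pc := pcB3) (cut := cut_pp_203) (xt := Ext.none) (P1 := 0) (W1 := 536870912) (P2 := 0) (W2 := 536870912) (P3 := 991146299) (W3 := 28908434) (N0 := 3) (En := eng) (mo := mog) (C1 := cd0q2) (C2 := cd5q0) (C3 := pd3)
    rfl k0_pp_203

noncomputable def cut_pp_213 : Cut := Cut.of [[⟨3, 0, 0, 1449551462⟩]]

noncomputable def f_pp_213 : ℕ → ℕ → ℕ → ℕ → Bool := onCell 0 536870912 536870912 536870912 991146299 28908434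
    (rowB 3 eng mog cd0q2 cd5q1 pd3 0 true true true .pnn 2 1 3 (qsf 0 536870912 536870912 536870912 3) ndB0q2 ndB5q1 pcB3 cut_pp_213 Ext.none)

def k0_pp_213 : ∃ t, chk3 f_pp_213 t 1 1 1 = true :=
  ⟨(l 4), by decide +kernel⟩

theorem c_pp_213 : CertB 0 536870912 536870912 536870912 991146299 28908434 3 eng mog cd0q2 cd5q1 pd3 true true true .pnn 2 1 3
    ndB0q2 ndB5q1 pcB3 cut_pp_213 Ext.none :=
  certB0 (fam := true) (s1 := true) (s2 := true) (a := 2) (b := 1) (c := 3) (cn := .pnn) (n1 := ndB0q2) (n2 := ndB5q1) (pc := pcB3) (cut := cut_pp_213) (xt := Ext.none) (P1 := 0) (W1 := 536870912) (P2 := 536870912) (W2 := 536870912) (P3 := 991146299) (W3 := 28908434) (N0 := 3) (En := eng) (mo := mog) (C1 := cd0q2) (C2 := cd5q1) (C3 := pd3)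
    rfl k0_pp_213

noncomputable def cut_pm_001 : Cut := Cut.of [[⟨3, 0, 0, 1449551462⟩]]

noncomputable def f_pm_001 : ℕ → ℕ → ℕ → ℕ → Bool := onCell 0 536870912 0 536870912 991146299 28908434
    (rowB 3 eng mog cd0q0 cd5q0 pd1 0 true true false .up 0 0 1 (qsf 0 536870912 0 536870912 1) ndB0q0 ndB5q0 pcB1 cut_pm_001 Ext.none)

def k0_pm_001 : ∃ t, chk3 f_pm_001 t 1 1 1 = true :=
  ⟨(a (l 3) (b (l 6) (a (l 6) (b (l 6) (a (l 6) (b (l 6) (a (l 6) (b (l 6) (a (l 6) (l 15799064)))))))))), by decide +kernel⟩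

theorem c_pm_001 : CertB 0 536870912 0 536870912 991146299 28908434 3 eng mog cd0q0 cd5q0 pd1 true true false .up 0 0 1
    ndB0q0 ndB5q0 pcB1 cut_pm_001 Ext.none :=
  certB0 (fam := true) (s1 := true) (s2 := false) (a := 0) (b := 0) (c := 1) (cn := .up) (n1 := ndB0q0) (n2 := ndB5q0) (pc := pcB1) (cut := cut_pm_001) (xt := Ext.none) (P1 := 0) (W1 := 536870912) (P2 := 0) (W2 := 536870912) (P3 := 991146299) (W3 := 28908434) (N0 := 3) (En := eng) (mo := mog) (C1 := cd0q0) (C2 := cd5q0) (C3 := pd1)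
    rfl k0_pm_001

noncomputable def cut_pm_011 : Cut := Cut.of [[⟨3, 0, 0, 1449551462⟩], [⟨0, 0, 0, 26843545⟩, ⟨1, 1, 0, 26843545⟩, ⟨2, 1, 0, 26843545⟩]]

noncomputable def f_pm_011 : ℕ → ℕ → ℕ → ℕ → Bool := onCell 0 536870912 536870912 536870912 991146299 28908434
    (rowB 3 eng mog cd0q0 cd5q1 pd1 1 true true false .pnn 0 1 1 (qsf 0 536870912 536870912 536870912 1) ndB0q0 ndB5q1 pcB1 cut_pm_011 Ext.none)

def k0_pm_011 : ∃ t, chk3 f_pm_011 t 1 1 1 = true :=
  ⟨(b (l 6) (a (l 6) (b (l 6) (b (l 6) (a (l 6) (a (l 6) (b (l 6) (a (l 6) (c (l 15886096) (l 15895392)))))))))), by decide +kernel⟩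

theorem c_pm_011 : CertB 0 536870912 536870912 536870912 991146299 28908434 3 eng mog cd0q0 cd5q1 pd1 true true false .pnn 0 1 1
    ndB0q0 ndB5q1 pcB1 cut_pm_011 Ext.none :=
  certB1 (fam := true) (s1 := true) (s2 := false) (a := 0) (b := 1) (c := 1) (cn := .pnn) (n1 := ndB0q0) (n2 := ndB5q1) (pc := pcB1) (cut := cut_pm_011) (xt := Ext.none) (P1 := 0) (W1 := 536870912) (P2 := 536870912) (W2 := 536870912) (P3 := 991146299) (W3 := 28908434) (N0 := 3) (En := eng) (mo := mog) (C1 := cd0q0) (C2 := cd5q1) (C3 := pd1)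
    rfl (fun _ => rfl) k0_pm_011

noncomputable def cut_pm_012 : Cut := Cut.of [[⟨3, 0, 0, 1449551462⟩], [⟨0, 0, 0, 53687091⟩, ⟨1, 1, 0, 53687091⟩, ⟨2, 1, 0, 53687091⟩]]

noncomputable def f_pm_012 : ℕ → ℕ → ℕ → ℕ → Bool := onCell 0 536870912 1073741824 536870912 991146299 28908434
    (rowB 3 eng mog cd0q0 cd5q1 pd2 1 true true false .pnp 0 1 2 (qsf 0 536870912 536870912 536870912 2) ndB0q0 ndB5q1 pcB2 cut_pm_012 Ext.none)

def k0_pm_012 : ∃ t, chk3 f_pm_012 t 1 2 1 = true :=
  ⟨(b (a (l 6) (a (b (l 6) (a (l 6) (b (l 6) (a (l 16055912) (l 16107688))))) (b (a (b (l 6) (c (l 16239272) (l 16211472))) (b (c (l 16213032) (l 16219848)) (l 15976648))) (a (c (a (l 16147232) (l 16124528)) (b (l 16142776) (l 16069288))) (c (l 16082336) (l 16065080)))))) (a (a (b (l 6) (l 2)) (b (a (l 6) (b (l 6) (a (l 6) (b (l 6) (l 15716104))))) (a (b (b (l 6) (l 2)) (l 2)) (a (b (c (l 15522800) (l 15496376)) (a (l 2) (l 15332368))) (b (a (l 15559168) (l 15593688)) (c (l 15399080) (l 15376592)))))))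 (a (b (a (a (b (l 6) (c (l 15835104) (l 15810672))) (b (b (l 16038040) (b (l 15991160) (b (l 15966992) (b (l 15954600) (l 15945712))))) (c (l 15884112) (l 15860744)))) (b (a (l 16012872) (l 16013312)) (a (l 15894648) (l 15908592)))) (a (a (b (a (l 15629192) (l 15665872)) (l 15465528)) (b (c (l 15726760) (l 15705480)) (b (l 15590728) (l 15502056)))) (b (a (l 15659408) (l 15792216)) (a (b (l 15652792) (l 15575288)) (l 15664344))))) (b (a (b (c (l 16018856) (l 15990872)) (c (l 15929256) (l 15904064))) (c (l 15950096) (l 15929808))) (a (b (c (l 15830392) (l 15808968)) (a (l 15699152) (l 15724832))) (c (l 15793872) (l 15778168))))))), by decide +kernel⟩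

def k1_pm_012 : ∃ t, chk3 f_pm_012 t 1 3 1 = true :=
  ⟨(a (a (l 2) (b (a (l 2) (b (a (l 2) (b (a (l 2) (l 15218560)) (l 2))) (l 2))) (l 2))) (a (b (a (b (a (b (l 15303216) (l 15119008)) (b (l 15369376) (l 15192080))) (a (l 2) (b (l 15014760) (l 2)))) (b (b (a (b (l 15493584) (l 15410320)) (b (l 15555584) (l 15480696))) (a (c (l 15291712) (l 15278352)) (c (l 15367952) (l 15356912)))) (b (a (c (l 15122584) (l 15112176)) (c (l 15206344) (l 15198280))) (a (c (l 14951096) (l 14943744)) (c (l 15044496) (l 15039592)))))) (a (l 2) (b (a (l 2) (b (c (l 14885096) (l 14884064)) (l 2))) (l 2)))) (b (a (b (b (a (l 15574504) (l 15614152)) (a (l 15347744) (l 15493408))) (b (a (c (l 15283912) (l 15279160)) (l 15313288)) (a (c (l 15127464) (l 15126952)) (l 15084536)))) (b (b (l 15567776) (l 15425960)) (b (a (l 15419448) (l 15461904)) (a (l 15286600) (l 15350720))))) (b (a (c (a (b (l 14973560) (l 14822288)) (b (l 15058168) (l 14910896))) (a (b (l 14977904) (l 14831976)) (l 14786832)))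 (b (a (l 15085048) (l 15223792)) (a (l 14965248) (l 15071016)))) (b (a (a (l 2) (c (l 14767184) (l 14790784))) (a (l 14724472) (l 14959008))) (a (l 2) (a (l 103712172279) (l 14769008)))))))), by decide +kernel⟩

theorem s2_pm_012 : ∃ t, chk3 f_pm_012 t 1 1 1 = true := ex3_b k0_pm_012 k1_pm_012

theorem c_pm_012 : CertB 0 536870912 536870912 536870912 991146299 28908434 3 eng mog cd0q0 cd5q1 pd2 true true false .pnp 0 1 2
    ndB0q0 ndB5q1 pcB2 cut_pm_012 Ext.none :=
  certB1 (fam := true) (s1 := true) (s2 := false) (a := 0) (b := 1) (c := 2) (cn := .pnp) (n1 := ndB0q0) (n2 := ndB5q1) (pc := pcB2) (cut := cut_pm_012) (xt := Ext.none) (P1 := 0) (W1 := 536870912) (P2 := 536870912) (W2 := 536870912) (P3 := 991146299) (W3 := 28908434) (N0 := 3) (En := eng) (mo := mog) (C1 := cd0q0) (C2 := cd5q1) (C3 := pd2)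
    rfl (fun _ => rfl) s2_pm_012

noncomputable def cut_pm_022 : Cut := Cut.of [[⟨3, 0, 0, 1449551462⟩], [⟨0, 0, 0, 53687091⟩, ⟨1, 1, 0, 53687091⟩, ⟨2, 1, 0, 53687091⟩]]

noncomputable def f_pm_022 : ℕ → ℕ → ℕ → ℕ → Bool := onCell 1073741824 536870912 1073741824 536870912 991146299 28908434
    (rowB 3 eng mog cd0q0 cd5q2 pd2 2 true true false .pp 0 2 2 (qsf 0 536870912 1073741824 536870912 2) ndB0q0 ndB5q2 pcB2 cut_pm_022 Ext.none)

def k0_pm_022 : ∃ t, chk3 f_pm_022 t 2 1 1 = true :=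
  ⟨(a (l 6) (b (a (l 6) (a (b (b (b (a (l 15641728) (l 15574728)) (a (l 6) (l 15767456))) (l 6)) (l 6)) (b (b (b (c (l 15492976) (l 15472464)) (l 15565376)) (b (l 15793456) (l 15991000))) (b (b (b (l 16127408) (l 16222336)) (l 6)) (l 6))))) (l 6))), by decide +kernel⟩

def k1_pm_022 : ∃ t, chk3 f_pm_022 t 3 2 1 = true :=
  ⟨(b (a (b (a (b (a (c (l 15382424) (l 15365472)) (l 15133952)) (a (l 15554704) (l 15455600))) (b (a (c (l 15207408) (l 15198104)) (c (l 15073136) (l 15131808))) (a (l 15371968) (l 15302584)))) (a (b (a (l 15734344) (l 15629200)) (a (l 15903088) (l 15792136))) (b (a (l 15540240) (l 15466360)) (a (l 15697848) (l 15619376))))) (b (a (a (b (c (l 15064808) (l 15067560)) (c (l 15244960) (l 15247496))) (b (c (l 15003736) (l 15017368)) (c (l 15182024) (l 15191112)))) (a (b (c (l 14949112) (l 14976104)) (c (l 15129864) (l 15150048))) (b (c (l 14901696) (l 14944616)) (l 14972256)))) (a (b (a (l 15406232) (b (l 15319600) (l 15396776))) (a (l 15555512) (l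 15504784))) (b (a (c (l 15302728) (l 15317824)) (l 15229144)) (a (l 15447120) (l 15260192)))))) (a (b (a (b (a (l 16050528) (l 15932616)) (a (l 16094520) (l 16055688))) (b (a (l 15833232) (l 15750208)) (l 15674672))) (a (b (a (l 16103736) (l 16159112)) (a (a (l 6) (l 16144144)) (l 16177696))) (b (l 15876552) (a (l 16129064) (l 16033288))))) (b (a (a (l 15634240) (l 15558136)) (a (l 15473952) (b (l 15559008) (l 15659928)))) (a (a (l 15857136) (l 15859560)) (b (l 15760880) (l 15827608)))))), by decide +kernel⟩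

def k2_pm_022 : ∃ t, chk3 f_pm_022 t 3 3 1 = true :=
  ⟨(b (a (b (a (a (b (l 15974216) (l 6)) (b (l 15994504) (l 15954960))) (b (a (l 16155128) (l 16090792)) (a (l 16040048) (l 16118408)))) (a (a (l 1) (b (l 15725672) (l 1))) (b (a (l 486436814087) (l 15872992)) (l 15596736)))) (b (a (a (b (l 16009224) (l 16045784)) (l 15963224)) (a (l 15913008) (l 15877824))) (a (b (a (l 16067208) (l 15995312)) (a (l 15922208) (l 16023632))) (b (l 15924336) (a (l 15956480) (l 15905664)))))) (a (b (a (l 1) (b (l 15403792) (l 1))) (l 1)) (b (a (b (a (l 15717896) (l 15827152)) (l 15568592)) (b (a (l 15936592) (l 15948376)) (a (l 15731800) (l 15843944)))) (a (b (l 15372184) (l 1)) (b (l 15349840) (l 15373144)))))), by decide +kernel⟩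

theorem s3_pm_022 : ∃ t, chk3 f_pm_022 t 3 1 1 = true := ex3_b k1_pm_022 k2_pm_022

theorem s4_pm_022 : ∃ t, chk3 f_pm_022 t 1 1 1 = true := ex3_a k0_pm_022 s3_pm_022

theorem c_pm_022 : CertB 0 536870912 1073741824 536870912 991146299 28908434 3 eng mog cd0q0 cd5q2 pd2 true true false .pp 0 2 2
    ndB0q0 ndB5q2 pcB2 cut_pm_022 Ext.none :=
  certB2 (fam := true) (s1 := true) (s2 := false) (a := 0) (b := 2) (c := 2) (cn := .pp) (n1 := ndB0q0) (n2 := ndB5q2) (pc := pcB2) (cut := cut_pm_022) (xt := Ext.none) (P1 := 0) (W1 := 536870912) (P2 := 1073741824) (W2 := 536870912) (P3 := 991146299) (W3 := 28908434) (N0 := 3) (En := eng) (mo := mog) (C1 := cd0q0) (C2 := cd5q2) (C3 := pd2)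
    rfl (fun _ => rfl) s4_pm_022

noncomputable def cut_pm_023 : Cut := Cut.of [[⟨3, 0, 0, 1449551462⟩]]

noncomputable def f_pm_023 : ℕ → ℕ → ℕ → ℕ → Bool := onCell 0 536870912 1610612736 536870912 991146299 28908434
    (rowB 3 eng mog cd0q0 cd5q2 pd3 1 true true false .up 0 2 3 (qsf 0 536870912 1073741824 536870912 3) ndB0q0 ndB5q2 pcB3 cut_pm_023 Ext.none)

def k0_pm_023 : ∃ t, chk3 f_pm_023 t 2 1 1 = true :=
  ⟨(b (a (b (a (b (a (b (l 15449288) (l 416172157799)) (b (l 15734320) (l 15579992))) (a (l 2) (b (l 15310264) (l 2)))) (b (a (b (l 15825096) (l 15856184)) (b (l 15685352) (l 15771104))) (a (b (l 15711592) (l 15577896)) (l 15879912)))) (a (l 2) (b (a (l 2) (b (l 15703000) (l 2))) (l 2)))) (b (a (b (a (b (l 15594752) (l 15643936)) (b (l 15601664) (l 15606512))) (a (l 15580480) (b (l 15633496) (l 15696544)))) (b (b (l 15601256) (l 15633088)) (b (l 15659784) (l 15535288)))) (b (a (b (l 15834880) (l 15899000)) (a (b (l 15702664) (l 15769272)) (l 15654352)))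 (a (a (l 2) (l 15869608)) (a (l 15883944) (l 15833064)))))) (a (l 2) (b (b (a (l 2) (b (l 15929656) (l 2))) (l 2)) (l 2)))), by decide +kernel⟩

def k1_pm_023 : ∃ t, chk3 f_pm_023 t 3 1 1 = true :=
  ⟨(b (b (a (a (b (b (a (l 15566256) (l 15520816)) (l 15506208)) (b (l 15670624) (l 15723600))) (b (a (b (l 15457104) (l 15551632)) (b (l 15125640) (l 15447064))) (a (l 15504824) (b (l 15589392) (l 15679248))))) (a (b (a (b (l 15076088) (l 15293848)) (b (l 14915816) (l 15221376))) (a (b (l 15415680) (l 15609016)) (b (l 15359512) (l 15484496)))) (b (b (a (l 14805328) (l 14664520)) (a (l 15038368) (l 14841848))) (b (a (l 15198912) (l 15013344)) (a (l 15338448) (l 15174856)))))) (a (a (b (a (l 15779184) (l 15802296)) (b (l 15851584) (l 15886400))) (b (a (l 15807728) (l 15795424)) (a (l 15915264) (l 15922272)))) (a (b (a (b (l 15705640) (l 15791184)) (l 15520248)) (a (l 15896800) (l 15818464))) (b (b (l 15138392) (a (l 15576784) (l 15441168))) (b (l 15615680) (l 15707568))))))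 (a (b (b (a (a (l 15929792) (l 15960864)) (a (l 15998760) (l 16015800))) (a (a (l 2) (l 16027024)) (l 16043664))) (a (l 2) (b (b (l 16089280) (l 2)) (l 2)))) (b (a (b (a (l 16000376) (l 15945392)) (a (l 16045152) (l 16029656))) (b (b (l 15788384) (l 15858552)) (b (l 15919664) (l 15974288)))) (a (b (b (l 16089720) (l 16121264)) (a (l 2) (b (l 16169056) (l 2)))) (b (b (l 16025808) (l 16075768)) (b (b (l 16098288) (l 16122744)) (b (l 16162912) (b (l 16190496) (l 4))))))))), by decide +kernel⟩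

theorem s2_pm_023 : ∃ t, chk3 f_pm_023 t 1 1 1 = true := ex3_a k0_pm_023 k1_pm_023

theorem c_pm_023 : CertB 0 536870912 1073741824 536870912 991146299 28908434 3 eng mog cd0q0 cd5q2 pd3 true true false .up 0 2 3
    ndB0q0 ndB5q2 pcB3 cut_pm_023 Ext.none :=
  certB1 (fam := true) (s1 := true) (s2 := false) (a := 0) (b := 2) (c := 3) (cn := .up) (n1 := ndB0q0) (n2 := ndB5q2) (pc := pcB3) (cut := cut_pm_023) (xt := Ext.none) (P1 := 0) (W1 := 536870912) (P2 := 1073741824) (W2 := 536870912) (P3 := 991146299) (W3 := 28908434) (N0 := 3) (En := eng) (mo := mog) (C1 := cd0q0) (C2 := cd5q2) (C3 := pd3)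
    rfl (fun _ => rfl) s2_pm_023

end Pool.Agent.Strip051.G.I9231_9500.Tab.C.BA05

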