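import Pool.Agent.Strip051.G.I9231_9500.Tab

/-! # Certificates B12 (generated) -/

set_option linter.all false
set_option maxRecDepth 100000

namespace Pool.Agent.Strip051.G.I9231_9500.Tab.C.BA05

open Pool.Agent.Strip051.PB Pool.Agent.Strip051.PB.T
open Pool.Agent.Strip051.G.I9231_9500.Tab

noncomputable def cut_pm_033 : Cut := Cut.of [[⟨3, 0, 0, 1449551462⟩]]

noncomputable def f_pm_033 : ℕ → ℕ → ℕ → ℕ → Bool := onCell 1610612736 536870912 0 1230186008 991146299 28908434
    (rowB 3 eng mog cd0q0 cd5q3 pd3 2 true true false .pnn 0 3 3 (qsf 0 536870912 0 1230186008 3) ndB0q0 ndB5q3 pcB3 cut_pm_033 Ext.none)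

def k0_pm_033 : ∃ t, chk3 f_pm_033 t 2 1 1 = true :=
  ⟨(b (l 1) (b (a (l 1) (b (l 1) (b (l 1) (a (l 1) (b (l 1) (a (l 1) (l 14740968))))))) (b (a (l 1) (a (b (b (l 1) (a (l 1) (l 14837192))) (b (l 14930288) (l 15043168))) (a (b (l 287255137191) (l 15082960)) (b (a (l 14984624) (l 15064488)) (l 15207536))))) (a (b (a (l 1) (b (l 14955568) (l 352217072647))) (a (b (b (l 14980376) (l 322152239847)) (a (l 15274072) (l 15356496))) (b (a (l 15158032) (l 15319272)) (a (l 15555480) (l 15689912))))) (b (a (b (l 15056448) (a (l 15341184) (l 15480192))) (b (l 15485656) (l 15660232))) (a (b (a (l 15545664) (l 15669200)) (l 15851344)) (b (l 15833312) (l 15889880)))))))), by decide +kernel⟩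

def k1_pm_033 : ∃ t, chk3 f_pm_033 t 6 1 1 = true :=
  ⟨(b (l 1) (b (b (a (l 1) (b (a (l 1) (l 14880448)) (a (l 14897080) (l 15066832)))) (a (b (a (l 454759635575) (b (l 14879920) (l 14957984))) (a (b (l 14829440) (l 14924672)) (b (l 15043928) (l 15133256)))) (b (a (b (l 15051680) (l 15160912)) (b (l 15231920) (l 15344504))) (a (l 15300664) (l 15496976))))) (b (b (a (b (a (l 15091776) (l 15266968)) (l 15206336)) (a (b (l 15446904) (l 15572176)) (l 15660144))) (a (b (l 15519960) (l 15635096)) (l 15797928))) (b (a (b (l 15745864) (l 15860096)) (a (l 15932528) (l 15992528))) (a (b (l 15962944) (l 15949008)) (b (l 16028224) (l 16060984))))))), by decide +kernel⟩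

def k2_pm_033 : ∃ t, chk3 f_pm_033 t 7 1 1 = true :=
  ⟨(b (b (l 4) (b (a (a (l 1) (l 4)) (l 4)) (b (a (a (l 1) (l 15150328)) (l 4)) (a (a (a (l 14888216) (l 15011936)) (l 15235216)) (a (l 15532112) (l 4)))))) (a (b (b (a (b (a (l 15024128) (l 15143192)) (l 15263128)) (b (a (l 15277904) (l 15423632)) (a (l 15427176) (l 15553536)))) (a (b (l 15463648) (l 15644424)) (b (l 15632144) (a (l 15741904) (l 15806360))))) (b (b (a (l 15799984) (a (l 15886384) (l 15938072))) (l 15983088)) (a (b (l 16047336) (l 16095128)) (b (l 15848408) (a (l 16122768) (l 16134736)))))) (a (b (b (b (l 15655336) (a (l 15682696) (l 15800640))) (a (l 15794280) (b (l 15894040) (l 15967432)))) (b (a (b (l 15988296) (l 16081320)) (b (l 16045248) (l 16124240))) (b (a (l 16137560) (l 16173448)) (a (l 16160496) (l 16167448))))) (b (a (b (b (l 4) (l 15865392)) (b (l 15960144) (l 16048784))) (b (l 4) (a (l 16041816) (b (l 4) (a (l 16101776) (l 311081255927)))))) (a (b (b (l 16100144) (l 16166792))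 (b (l 16208328) (l 16181104))) (b (a (b (l 16146752) (l 16197712)) (b (a (l 16170672) (a (l 16175704) (l 16169216))) (a (l 16212280) (a (l 16219208) (l 16161592))))) (a (b (l 16220504) (l 16206992)) (b (a (l 16236120) (l 368526760343)) (a (l 16228568) (l 4)))))))))), by decide +kernel⟩

theorem s3_pm_033 : ∃ t, chk3 f_pm_033 t 3 1 1 = true := ex3_a k1_pm_033 k2_pm_033

theorem s4_pm_033 : ∃ t, chk3 f_pm_033 t 1 1 1 = true := ex3_a k0_pm_033 s3_pm_033

theorem c_pm_033 : CertB 0 536870912 0 1230186008 991146299 28908434 3 eng mog cd0q0 cd5q3 pd3 true true false .pnn 0 3 3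
    ndB0q0 ndB5q3 pcB3 cut_pm_033 Ext.none :=
  certB2 (fam := true) (s1 := true) (s2 := false) (a := 0) (b := 3) (c := 3) (cn := .pnn) (n1 := ndB0q0) (n2 := ndB5q3) (pc := pcB3) (cut := cut_pm_033) (xt := Ext.none) (P1 := 0) (W1 := 536870912) (P2 := 0) (W2 := 1230186008) (P3 := 991146299) (W3 := 28908434) (N0 := 3) (En := eng) (mo := mog) (C1 := cd0q0) (C2 := cd5q3) (C3 := pd3)
    rfl (fun _ => rfl) s4_pm_033

noncomputable def cut_pm_101 : Cut := Cut.of [[⟨3, 0, 0, 1449551462⟩]]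

noncomputable def f_pm_101 : ℕ → ℕ → ℕ → ℕ → Bool := onCell 536870912 536870912 536870912 536870912 991146299 28908434
    (rowB 3 eng mog cd0q1 cd5q0 pd1 1 true true false .npn 1 0 1 (qsf 536870912 536870912 0 536870912 1) ndB0q1 ndB5q0 pcB1 cut_pm_101 Ext.none)

def k0_pm_101 : ∃ t, chk3 f_pm_101 t 1 1 1 = true :=
  ⟨(b (a (b (l 6) (a (l 6) (b (l 6) (a (l 6) (b (l 6) (a (l 6) (l 16161768))))))) (a (b (l 1) (a (b (l 1) (b (l 1) (a (l 16182824) (l 1)))) (l 1))) (l 1))) (a (b (a (l 6) (b (a (b (l 6) (a (l 6) (l 16216840))) (b (a (l 16253424) (l 16124312)) (a (l 16107984) (l 15976544)))) (a (b (a (l 6) (l 16093648)) (a (l 16072648) (l 15990224))) (b (l 15926512) (l 15837728))))) (a (b (a (l 6) (b (a (l 6) (l 16020936)) (a (l 15964976) (l 15925000)))) (a (b (a (l 6) (l 15887912)) (a (l 15868280) (l 15848824))) (b (l 15872488) (l 15833528)))) (b (a (b (l 15939944) (l 15869168)) (b (l 15774608) (l 15734544))) (a (a (l 15826184) (l 15810736)) (b (l 15714520) (l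 15711176)))))) (a (b (a (b (b (a (l 16006576) (l 15888240)) (a (l 15844856) (l 15734968))) (a (l 15695032) (l 15555104))) (b (a (l 254508259719) (l 1)) (b (a (l 15497520) (l 15396408)) (l 15344704)))) (a (b (b (l 15563192) (l 15548400)) (b (l 15551584) (l 15569488))) (b (a (l 15378696) (l 15245568)) (b (l 15358696) (l 15404056))))) (b (a (b (l 1) (b (l 1) (a (l 15206928) (l 1)))) (l 1)) (a (b (a (l 15118672) (b (a (l 15077096) (l 1)) (l 15030232))) (b (a (l 15190112) (l 15060008)) (l 15204072))) (b (a (b (l 1) (a (l 14924064) (l 1))) (l 1)) (a (b (c (l 362954991927) (l 14909944)) (b (l 14956064) (l 14983584))) (b (c (l 498245564199) (l 511666704567)) (l 14625912))))))))), by decide +kernel⟩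

theorem c_pm_101 : CertB 536870912 536870912 0 536870912 991146299 28908434 3 eng mog cd0q1 cd5q0 pd1 true true false .npn 1 0 1
    ndB0q1 ndB5q0 pcB1 cut_pm_101 Ext.none :=
  certB1 (fam := true) (s1 := true) (s2 := false) (a := 1) (b := 0) (c := 1) (cn := .npn) (n1 := ndB0q1) (n2 := ndB5q0) (pc := pcB1) (cut := cut_pm_101) (xt := Ext.none) (P1 := 536870912) (W1 := 536870912) (P2 := 0) (W2 := 536870912) (P3 := 991146299) (W3 := 28908434) (N0 := 3) (En := eng) (mo := mog) (C1 := cd0q1) (C2 := cd5q0) (C3 := pd1)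
    rfl (fun _ => rfl) k0_pm_101

noncomputable def cut_pm_102 : Cut := Cut.of [[⟨3, 0, 0, 1449551462⟩]]

noncomputable def f_pm_102 : ℕ → ℕ → ℕ → ℕ → Bool := onCell 536870912 536870912 1073741824 536870912 991146299 28908434
    (rowB 3 eng mog cd0q1 cd5q0 pd2 1 true true false .npp 1 0 2 (qsf 536870912 536870912 0 536870912 2) ndB0q1 ndB5q0 pcB2 cut_pm_102 Ext.none)

def k0_pm_102 : ∃ t, chk3 f_pm_102 t 2 1 1 = true :=
  ⟨(b (b (a (b (a (b (a (l 16169592) (l 16135088)) (a (l 16113624) (l 16078608))) (b (c (l 16047504) (l 16106520)) (l 15829800))) (a (b (l 272829215895) (l 2)) (b (l 15959872) (l 15901672)))) (b (b (a (c (l 15953056) (l 16044600)) (c (l 15848904) (l 15969224))) (a (l 15785552) (l 15788752))) (a (b (l 15867176) (l 15803904)) (c (l 15685832) (l 15742552))))) (a (b (a (l 2) (b (l 15843384) (l 2))) (l 2)) (a (b (b (l 15742200) (l 15681656)) (b (l 15621840) (l 2))) (b (b (l 15611296) (l 15543448)) (a (l 15487072) (l 15402840)))))) (a (l 2) (b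 (a (l 2) (b (a (l 2) (l 15275800)) (l 2))) (l 2)))), by decide +kernel⟩

def k1_pm_102 : ∃ t, chk3 f_pm_102 t 3 2 1 = true :=
  ⟨(a (b (b (a (b (a (l 15812648) (l 15773456)) (a (l 15743600) (l 15674936))) (b (c (l 15584640) (l 15747328)) (a (l 15597872) (l 15511120)))) (a (c (l 15538936) (l 15599576)) (b (l 15317808) (l 15339616)))) (a (b (c (l 15400952) (l 15405648)) (b (l 15291256) (l 15218376))) (b (b (l 15240320) (l 15145728)) (c (l 15046968) (l 14970928))))) (b (a (b (b (a (l 15545216) (l 15324136)) (a (l 15413448) (l 15303608))) (b (a (l 15287320) (l 15163576)) (l 15013648))) (b (a (b (c (l 15228688) (l 15459112)) (b (l 15216312) (l 15131912))) (b (a (c (l 15072088) (b (l 15403736) (l 15275008))) (b (l 15071040) (l 14957848))) (b (a (l 15053056) (l 14854488)) (l 14664544)))) (a (b (a (l 15060536) (l 14963360)) (a (l 14910856) (l 14798480))) (b (c (l 14687088) (l 14759288)) (b (l 14614704) (l 14553544)))))) (a (b (b (l 14976544) (l 14862616)) (a (l 14790048)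 (b (l 14679024) (l 14593920)))) (b (a (b (l 14718336) (l 14606600)) (b (l 14476752) (l 14510056))) (a (b (l 14527768) (l 14478960)) (b (l 14365032) (l 14353720))))))), by decide +kernel⟩

def k2_pm_102 : ∃ t, chk3 f_pm_102 t 3 3 1 = true :=
  ⟨(a (b (a (b (b (l 15148584) (l 15081704)) (a (l 2) (l 14923080))) (b (b (l 14889600) (l 14813144)) (b (l 14740960) (l 14679840)))) (a (l 2) (b (a (l 2) (b (l 14558968) (l 2))) (l 2)))) (b (a (b (a (b (l 14659184) (l 14588552)) (b (l 14537328) (l 14512264))) (a (b (l 14540272) (l 14524376)) (b (l 14510024) (l 14528464)))) (b (a (b (l 14457960) (l 14462232)) (b (l 14369032) (l 14408320))) (a (b (l 14488968) (l 14535136)) (b (l 14468648) (l 14546912))))) (a (b (b (l 14548632) (l 14587040)) (b (l 14636176) (l 2))) (b (a (b (l 14597472) (l 14672488)) (c (l 14860040) (l 14619200))) (a (b (l 14756512) (l 14845720)) (b (l 14979168) (c (l 14985072) (l 14897968)))))))), by decide +kernel⟩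

theorem s3_pm_102 : ∃ t, chk3 f_pm_102 t 3 1 1 = true := ex3_b k1_pm_102 k2_pm_102

theorem s4_pm_102 : ∃ t, chk3 f_pm_102 t 1 1 1 = true := ex3_a k0_pm_102 s3_pm_102

theorem c_pm_102 : CertB 536870912 536870912 0 536870912 991146299 28908434 3 eng mog cd0q1 cd5q0 pd2 true true false .npp 1 0 2
    ndB0q1 ndB5q0 pcB2 cut_pm_102 Ext.none :=
  certB1 (fam := true) (s1 := true) (s2 := false) (a := 1) (b := 0) (c := 2) (cn := .npp) (n1 := ndB0q1) (n2 := ndB5q0) (pc := pcB2) (cut := cut_pm_102) (xt := Ext.none) (P1 := 536870912) (W1 := 536870912) (P2 := 0) (W2 := 536870912) (P3 := 991146299) (W3 := 28908434) (N0 := 3) (En := eng) (mo := mog) (C1 := cd0q1) (C2 := cd5q0) (C3 := pd2)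
    rfl (fun _ => rfl) s4_pm_102

noncomputable def cut_pm_112 : Cut := Cut.of [[⟨3, 0, 0, 1449551462⟩]]

noncomputable def f_pm_112 : ℕ → ℕ → ℕ → ℕ → Bool := onCell 536870912 536870912 1073741824 536870912 991146299 28908434
    (rowB 3 eng mog cd0q1 cd5q1 pd2 1 true true false .dn 1 1 2 (qsf 536870912 536870912 536870912 536870912 2) ndB0q1 ndB5q1 pcB2 cut_pm_112 Ext.none)

def k0_pm_112 : ∃ t, chk3 f_pm_112 t 1 1 1 = true :=
  ⟨(a (b (a (b (c (a (b (l 16114488) (l 16011568)) (b (l 16025856) (l 15923776))) (a (b (l 16135872) (l 16013992)) (b (l 16077256) (l 15947048)))) (a (b (b (l 15925432) (l 15863672)) (c (l 15769928) (l 15759768))) (b (l 15820728) (c (l 15706936) (l 15700008))))) (b (b (l 1) (a (l 326985561607) (l 1))) (a (b (l 15717000) (l 15598816)) (b (l 15581640) (l 15451112))))) (a (b (a (b (c (l 15621536) (l 15617952)) (c (l 15445216) (l 15454680))) (b (c (l 15583376) (l 15575568)) (c (l 15444496) (l 15445736)))) (a (b (b (a (l 15285048) (l 15319624))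 (a (l 15164560) (l 15219968))) (a (b (l 15040128) (l 14915520)) (b (l 15106376) (l 14968832)))) (b (c (l 15282984) (l 15301328)) (b (l 14955616) (a (l 15046672) (l 15081280)))))) (b (a (b (l 15482112) (l 15174872)) (b (l 15328640) (l 15212120))) (a (b (c (l 15245928) (l 15238904)) (c (l 15100640) (l 15115344))) (b (l 15099280) (c (l 15009848) (l 14938184))))))) (b (a (b (l 1) (a (b (l 1) (l 15259184)) (l 1))) (l 1)) (a (b (a (b (l 15120288) (l 14993400)) (b (l 14855832) (b (l 14746536) (l 14685976)))) (a (b (l 14877296) (l 14707776)) (b (a (l 14667040) (b (l 14561816) (l 14542520))) (a (b (l 14596296) (l 14572280)) (b (l 14558768) (l 14590400)))))) (b (a (b (l 1) (a (b (l 1) (l 14526792)) (l 1))) (l 1)) (a (b (c (l 14674936) (l 14467984)) (c (l 14742440) (l 14577304))) (b (a (l 331814866007) (l 1)) (a (b (l 14758984) (l 14848416)) (b (l 14855512) (l 14922792))))))))), by decide +kernel⟩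

theorem c_pm_112 : CertB 536870912 536870912 536870912 536870912 991146299 28908434 3 eng mog cd0q1 cd5q1 pd2 true true false .dn 1 1 2
    ndB0q1 ndB5q1 pcB2 cut_pm_112 Ext.none :=
  certB1 (fam := true) (s1 := true) (s2 := false) (a := 1) (b := 1) (c := 2) (cn := .dn) (n1 := ndB0q1) (n2 := ndB5q1) (pc := pcB2) (cut := cut_pm_112) (xt := Ext.none) (P1 := 536870912) (W1 := 536870912) (P2 := 536870912) (W2 := 536870912) (P3 := 991146299) (W3 := 28908434) (N0 := 3) (En := eng) (mo := mog) (C1 := cd0q1) (C2 := cd5q1) (C3 := pd2)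
    rfl (fun _ => rfl) k0_pm_112

noncomputable def cut_pm_113 : Cut := Cut.of [[⟨3, 0, 0, 1449551462⟩]]

noncomputable def f_pm_113 : ℕ → ℕ → ℕ → ℕ → Bool := onCell 536870912 536870912 1610612736 536870912 991146299 28908434
    (rowB 3 eng mog cd0q1 cd5q1 pd3 1 true true false .nn 1 1 3 (qsf 536870912 536870912 536870912 536870912 3) ndB0q1 ndB5q1 pcB3 cut_pm_113 Ext.none)

def k0_pm_113 : ∃ t, chk3 f_pm_113 t 1 1 1 = true :=
  ⟨(a (b (b (a (a (b (a (b (l 14445128) (l 14270096)) (b (l 14564400) (l 14410080))) (a (l 2) (b (l 14232304) (l 2)))) (b (a (b (l 14668856) (l 14525112)) (b (l 14764256) (l 14622840))) (a (b (l 14370616) (l 14189432)) (b (l 14480528) (l 14325104))))) (a (b (a (l 14775656) (l 14846384)) (a (b (l 14570992) (l 14429472)) (l 14412520))) (b (l 14899680) (a (l 14648696) (l 14703624))))) (a (b (a (l 2) (a (l 2) (b (l 14139944) (l 2)))) (l 2)) (a (b (a (l 113911580903) (l 14139920)) (a (l 2) (l 155786993031))) (b (a (l 45192499047) (b (l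 14515264) (l 14374120))) (b (a (l 14139960) (l 14214696)) (a (l 14057128) (l 14017680))))))) (a (l 2) (b (b (a (l 2) (b (l 442476739063) (l 2))) (l 2)) (l 2)))) (b (a (b (a (b (l 14851208) (a (l 14730576) (l 14757496))) (b (l 14922104) (l 15063896))) (b (a (b (l 14406848) (l 14528528)) (b (l 14738952) (l 14657880))) (a (b (a (l 14276576) (l 14371392)) (a (l 14100008) (l 14210528))) (b (l 14622000) (a (l 14354216) (l 14514640)))))) (b (a (b (l 14988456) (b (l 14976312) (l 14955304))) (b (a (l 15029376) (l 15010288)) (a (l 15028728) (l 4)))) (a (b (b (l 14920152) (l 14868976)) (b (l 14804392) (l 4))) (l 4)))) (a (b (a (b (b (l 409728105111) (a (l 13702992) (l 13851792))) (a (l 2) (l 4))) (b (b (a (l 14198632) (l 4)) (l 4)) (l 4))) (l 4)) (l 4)))), by decide +kernel⟩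

theorem c_pm_113 : CertB 536870912 536870912 536870912 536870912 991146299 28908434 3 eng mog cd0q1 cd5q1 pd3 true true false .nn 1 1 3
    ndB0q1 ndB5q1 pcB3 cut_pm_113 Ext.none :=
  certB1 (fam := true) (s1 := true) (s2 := false) (a := 1) (b := 1) (c := 3) (cn := .nn) (n1 := ndB0q1) (n2 := ndB5q1) (pc := pcB3) (cut := cut_pm_113) (xt := Ext.none) (P1 := 536870912) (W1 := 536870912) (P2 := 536870912) (W2 := 536870912) (P3 := 991146299) (W3 := 28908434) (N0 := 3) (En := eng) (mo := mog) (C1 := cd0q1) (C2 := cd5q1) (C3 := pd3)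
    rfl (fun _ => rfl) k0_pm_113

noncomputable def cut_pm_123 : Cut := Cut.of [[⟨3, 0, 0, 1449551462⟩]]

noncomputable def f_pm_123 : ℕ → ℕ → ℕ → ℕ → Bool := onCell 536870912 536870912 1610612736 536870912 991146299 28908434
    (rowB 3 eng mog cd0q1 cd5q2 pd3 1 true true false .npn 1 2 3 (qsf 536870912 536870912 1073741824 536870912 3) ndB0q1 ndB5q2 pcB3 cut_pm_123 Ext.none)

def k0_pm_123 : ∃ t, chk3 f_pm_123 t 2 1 1 = true :=
  ⟨(b (b (a (a (b (a (b (l 14454888) (l 14635184)) (b (l 14240944) (l 14423016))) (a (b (l 14813600) (l 14985792)) (b (l 14602744) (l 14781784)))) (b (a (b (l 1) (l 14208504)) (l 1)) (a (b (l 14386792) (l 14565584)) (b (l 14170504) (l 14344552))))) (a (b (l 1) (a (b (l 1) (l 14125368)) (l 1))) (l 1))) (a (a (b (a (b (l 15147648) (l 15287784)) (b (l 14954256) (l 15116120))) (a (l 15470328) (l 15193056))) (b (a (b (l 14745072) (l 14917776)) (b (l 14522384) (l 14702632))) (a (b (l 15079784) (l 15220080)) (b (l 14876080) (l 15039096)))))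 (a (b (a (b (l 14295040) (l 14472416)) (b (l 14071960) (l 14237656))) (a (b (l 14654448) (l 14830048)) (b (l 14415904) (l 14601824)))) (b (b (l 1) (a (l 14009896) (l 1))) (b (a (l 14168504) (l 13907560)) (a (l 14339888) (l 14043824))))))) (a (b (b (a (b (l 15560744) (l 15653728)) (b (l 15222480) (l 15386856))) (a (b (l 15737824) (l 15814560)) (b (l 15411624) (l 15405112)))) (a (b (b (a (l 15927328) (l 15840392)) (l 15732704)) (b (a (l 15820360) (l 15991096)) (b (l 16097544) (l 4)))) (b (b (a (l 15745320) (l 15629920)) (l 15784784)) (b (l 15911360) (l 4))))) (b (b (a (b (a (l 14995992) (l 14775560)) (a (l 15138768) (l 14937280))) (b (a (l 14514176) (l 14217800)) (a (l 14687728) (l 14420432)))) (a (b (a (l 15268648) (l 15077344)) (l 15135912)) (b (a (l 14867624) (l 14634232)) (a (l 15045720) (l 14865768))))) (b (a (b (b (l 15404296) (l 15476088)) (l 15613456)) (b (b (l 15116136) (l 4)) (l 4))) (l 4))))), by decide +kernel⟩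

def k1_pm_123 : ∃ t, chk3 f_pm_123 t 3 1 1 = true :=
  ⟨(b (a (b (l 1) (b (l 1) (a (b (l 1) (a (l 13760880) (l 1))) (l 1)))) (l 1)) (a (b (b (b (a (a (l 13924064) (l 13661096)) (l 1)) (a (a (l 14136656) (l 13870520)) (l 4))) (a (b (a (l 14394552) (l 4)) (l 4)) (l 4))) (l 4)) (l 4))), by decide +kernel⟩

theorem s2_pm_123 : ∃ t, chk3 f_pm_123 t 1 1 1 = true := ex3_a k0_pm_123 k1_pm_123

theorem c_pm_123 : CertB 536870912 536870912 1073741824 536870912 991146299 28908434 3 eng mog cd0q1 cd5q2 pd3 true true false .npn 1 2 3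
    ndB0q1 ndB5q2 pcB3 cut_pm_123 Ext.none :=
  certB1 (fam := true) (s1 := true) (s2 := false) (a := 1) (b := 2) (c := 3) (cn := .npn) (n1 := ndB0q1) (n2 := ndB5q2) (pc := pcB3) (cut := cut_pm_123) (xt := Ext.none) (P1 := 536870912) (W1 := 536870912) (P2 := 1073741824) (W2 := 536870912) (P3 := 991146299) (W3 := 28908434) (N0 := 3) (En := eng) (mo := mog) (C1 := cd0q1) (C2 := cd5q2) (C3 := pd3)
    rfl (fun _ => rfl) s2_pm_123

noncomputable def cut_pm_133 : Cut := Cut.of [[⟨3, 0, 0, 1449551462⟩]]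

noncomputable def f_pm_133 : ℕ → ℕ → ℕ → ℕ → Bool := onCell 536870912 536870912 0 1230186008 991146299 28908434
    (rowB 3 eng mog cd0q1 cd5q3 pd3 0 true true false .dn 1 3 3 (qsf 536870912 536870912 0 1230186008 3) ndB0q1 ndB5q3 pcB3 cut_pm_133 Ext.none)

def k0_pm_133 : ∃ t, chk3 f_pm_133 t 1 1 1 = true :=
  ⟨(b (l 2) (b (l 2) (a (b (l 2) (l 4)) (l 2)))), by decide +kernel⟩

theorem c_pm_133 : CertB 536870912 536870912 0 1230186008 991146299 28908434 3 eng mog cd0q1 cd5q3 pd3 true true false .dn 1 3 3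
    ndB0q1 ndB5q3 pcB3 cut_pm_133 Ext.none :=
  certB0 (fam := true) (s1 := true) (s2 := false) (a := 1) (b := 3) (c := 3) (cn := .dn) (n1 := ndB0q1) (n2 := ndB5q3) (pc := pcB3) (cut := cut_pm_133) (xt := Ext.none) (P1 := 536870912) (W1 := 536870912) (P2 := 0) (W2 := 1230186008) (P3 := 991146299) (W3 := 28908434) (N0 := 3) (En := eng) (mo := mog) (C1 := cd0q1) (C2 := cd5q3) (C3 := pd3)
    rfl k0_pm_133

noncomputable def cut_pm_202 : Cut := Cut.of [[⟨3, 0, 0, 1449551462⟩]]

noncomputable def f_pm_202 : ℕ → ℕ → ℕ → ℕ → Bool := onCell 0 536870912 1073741824 536870912 991146299 28908434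
    (rowB 3 eng mog cd0q2 cd5q0 pd2 1 true true false .pp 2 0 2 (qsf 0 536870912 0 536870912 2) ndB0q2 ndB5q0 pcB2 cut_pm_202 Ext.none)

def k0_pm_202 : ∃ t, chk3 f_pm_202 t 1 2 1 = true :=
  ⟨(a (b (b (l 1) (l 4)) (l 4)) (b (a (b (l 1) (a (b (l 1) (a (l 4) (b (b (l 14382232) (l 14419408)) (l 14478496)))) (b (a (b (l 1) (l 14390624)) (b (b (l 1) (l 14425632)) (l 14441088))) (b (a (l 14437432) (l 14467416)) (l 14493640))))) (b (a (b (l 1) (a (a (l 1) (b (l 1) (l 14612848))) (c (b (l 14547416) (l 14531280)) (l 14579320)))) (b (b (a (l 1) (c (l 14801912) (l 15018160))) (a (c (l 14659000) (l 14802280)) (a (l 14791016) (l 14830808)))) (a (b (a (l 14628888) (l 14679672)) (c (l 14568432) (l 14643384))) (b (l 14722168) (l 14623168))))) (b (a (b (a (c (l 14478640) (l 14483600)) (l 14526040)) (a (l 14479952) (l 14506016))) (a (b (l 14555800) (l 14516840)) (b (l 14576344) (l 14518544)))) (a (b (a (l 14487272) (l 14494632)) (l 14495672)) (a (b (l 14486840) (l 14464632))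 (b (l 14469960) (l 14429688))))))) (a (a (b (b (c (a (l 4) (l 14634704)) (l 14596576)) (l 4)) (l 4)) (b (b (b (l 14540016) (l 14593168)) (l 14601376)) (b (c (l 14851336) (l 14789560)) (c (l 14985320) (l 14929120))))) (b (a (b (b (l 14507088) (l 14525832)) (b (l 14551616) (l 14584056))) (b (a (l 14486536) (l 14383512)) (a (l 14446072) (l 14351424)))) (a (b (l 14622128) (l 14743200)) (b (a (l 14475872) (l 14349264)) (c (l 14508944) (l 14389840)))))))), by decide +kernel⟩

def k1_pm_202 : ∃ t, chk3 f_pm_202 t 1 3 1 = true :=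
  ⟨(a (l 4) (b (a (b (b (a (l 4) (c (l 15110456) (l 15060016))) (l 4)) (l 4)) (b (a (b (c (l 14897816) (l 14824464)) (a (l 15064272) (l 14911848))) (b (b (l 14497240) (l 14535224)) (c (l 14660616) (l 14540184)))) (a (a (l 4) (b (l 15037544) (l 15142280))) (b (a (l 14828584) (l 14589808)) (a (l 14956696) (l 14698576)))))) (a (l 4) (a (l 4) (b (b (a (l 15065528) (l 14820464)) (a (l 15140408) (l 14935248))) (b (a (l 4) (l 15015456)) (l 4))))))), by decide +kernel⟩

theorem s2_pm_202 : ∃ t, chk3 f_pm_202 t 1 1 1 = true := ex3_b k0_pm_202 k1_pm_202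

theorem c_pm_202 : CertB 0 536870912 0 536870912 991146299 28908434 3 eng mog cd0q2 cd5q0 pd2 true true false .pp 2 0 2
    ndB0q2 ndB5q0 pcB2 cut_pm_202 Ext.none :=
  certB1 (fam := true) (s1 := true) (s2 := false) (a := 2) (b := 0) (c := 2) (cn := .pp) (n1 := ndB0q2) (n2 := ndB5q0) (pc := pcB2) (cut := cut_pm_202) (xt := Ext.none) (P1 := 0) (W1 := 536870912) (P2 := 0) (W2 := 536870912) (P3 := 991146299) (W3 := 28908434) (N0 := 3) (En := eng) (mo := mog) (C1 := cd0q2) (C2 := cd5q0) (C3 := pd2)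
    rfl (fun _ => rfl) s2_pm_202

noncomputable def cut_pm_203 : Cut := Cut.of [[⟨3, 0, 0, 1449551462⟩]]

noncomputable def f_pm_203 : ℕ → ℕ → ℕ → ℕ → Bool := onCell 0 536870912 1610612736 536870912 991146299 28908434
    (rowB 3 eng mog cd0q2 cd5q0 pd3 1 true true false .up 2 0 3 (qsf 0 536870912 0 536870912 3) ndB0q2 ndB5q0 pcB3 cut_pm_203 Ext.none)

def k0_pm_203 : ∃ t, chk3 f_pm_203 t 1 1 1 = true :=
  ⟨(a (l 4) (b (l 4) (l 2))), by decide +kernel⟩

theorem c_pm_203 : CertB 0 536870912 0 536870912 991146299 28908434 3 eng mog cd0q2 cd5q0 pd3 true true false .up 2 0 3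
    ndB0q2 ndB5q0 pcB3 cut_pm_203 Ext.none :=
  certB1 (fam := true) (s1 := true) (s2 := false) (a := 2) (b := 0) (c := 3) (cn := .up) (n1 := ndB0q2) (n2 := ndB5q0) (pc := pcB3) (cut := cut_pm_203) (xt := Ext.none) (P1 := 0) (W1 := 536870912) (P2 := 0) (W2 := 536870912) (P3 := 991146299) (W3 := 28908434) (N0 := 3) (En := eng) (mo := mog) (C1 := cd0q2) (C2 := cd5q0) (C3 := pd3)
    rfl (fun _ => rfl) k0_pm_203

noncomputable def cut_pm_213 : Cut := Cut.of [[⟨3, 0, 0, 1449551462⟩]]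

noncomputable def f_pm_213 : ℕ → ℕ → ℕ → ℕ → Bool := onCell 0 536870912 536870912 536870912 991146299 28908434
    (rowB 3 eng mog cd0q2 cd5q1 pd3 0 true true false .pnn 2 1 3 (qsf 0 536870912 536870912 536870912 3) ndB0q2 ndB5q1 pcB3 cut_pm_213 Ext.none)

def k0_pm_213 : ∃ t, chk3 f_pm_213 t 1 1 1 = true :=
  ⟨(a (l 4) (b (l 4) (l 4))), by decide +kernel⟩

theorem c_pm_213 : CertB 0 536870912 536870912 536870912 991146299 28908434 3 eng mog cd0q2 cd5q1 pd3 true true false .pnn 2 1 3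
    ndB0q2 ndB5q1 pcB3 cut_pm_213 Ext.none :=
  certB0 (fam := true) (s1 := true) (s2 := false) (a := 2) (b := 1) (c := 3) (cn := .pnn) (n1 := ndB0q2) (n2 := ndB5q1) (pc := pcB3) (cut := cut_pm_213) (xt := Ext.none) (P1 := 0) (W1 := 536870912) (P2 := 536870912) (W2 := 536870912) (P3 := 991146299) (W3 := 28908434) (N0 := 3) (En := eng) (mo := mog) (C1 := cd0q2) (C2 := cd5q1) (C3 := pd3)
    rfl k0_pm_213

noncomputable def cut_mm_001 : Cut := Cut.of [[⟨3, 0, 0, 1449551462⟩]]

noncomputable def f_mm_001 : ℕ → ℕ → ℕ → ℕ → Bool := onCell 0 536870912 0 536870912 991146299 28908434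
    (rowB 3 eng mog cd0q0 cd5q0 pd1 0 true false false .up 0 0 1 (qsf 0 536870912 0 536870912 1) ndB0q0 ndB5q0 pcB1 cut_mm_001 Ext.none)

def k0_mm_001 : ∃ t, chk3 f_mm_001 t 1 1 1 = true :=
  ⟨(l 4), by decide +kernel⟩

theorem c_mm_001 : CertB 0 536870912 0 536870912 991146299 28908434 3 eng mog cd0q0 cd5q0 pd1 true false false .up 0 0 1
    ndB0q0 ndB5q0 pcB1 cut_mm_001 Ext.none :=
  certB0 (fam := true) (s1 := false) (s2 := false) (a := 0) (b := 0) (c := 1) (cn := .up) (n1 := ndB0q0) (n2 := ndB5q0) (pc := pcB1) (cut := cut_mm_001) (xt := Ext.none) (P1 := 0) (W1 := 536870912) (P2 := 0) (W2 := 536870912) (P3 := 991146299) (W3 := 28908434) (N0 := 3) (En := eng) (mo := mog) (C1 := cd0q0) (C2 := cd5q0) (C3 := pd1)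
    rfl k0_mm_001

noncomputable def cut_mm_011 : Cut := Cut.of [[⟨3, 0, 0, 1449551462⟩]]

noncomputable def f_mm_011 : ℕ → ℕ → ℕ → ℕ → Bool := onCell 0 536870912 536870912 536870912 991146299 28908434
    (rowB 3 eng mog cd0q0 cd5q1 pd1 0 true false false .pnn 0 1 1 (qsf 0 536870912 536870912 536870912 1) ndB0q0 ndB5q1 pcB1 cut_mm_011 Ext.none)

def k0_mm_011 : ∃ t, chk3 f_mm_011 t 1 1 1 = true :=
  ⟨(l 4), by decide +kernel⟩

theorem c_mm_011 : CertB 0 536870912 536870912 536870912 991146299 28908434 3 eng mog cd0q0 cd5q1 pd1 true false false .pnn 0 1 1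
    ndB0q0 ndB5q1 pcB1 cut_mm_011 Ext.none :=
  certB0 (fam := true) (s1 := false) (s2 := false) (a := 0) (b := 1) (c := 1) (cn := .pnn) (n1 := ndB0q0) (n2 := ndB5q1) (pc := pcB1) (cut := cut_mm_011) (xt := Ext.none) (P1 := 0) (W1 := 536870912) (P2 := 536870912) (W2 := 536870912) (P3 := 991146299) (W3 := 28908434) (N0 := 3) (En := eng) (mo := mog) (C1 := cd0q0) (C2 := cd5q1) (C3 := pd1)
    rfl k0_mm_011

noncomputable def cut_mm_012 : Cut := Cut.of [[⟨3, 0, 0, 1449551462⟩]]

noncomputable def f_mm_012 : ℕ → ℕ → ℕ → ℕ → Bool := onCell 0 536870912 536870912 536870912 991146299 28908434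
    (rowB 3 eng mog cd0q0 cd5q1 pd2 0 true false false .pnp 0 1 2 (qsf 0 536870912 536870912 536870912 2) ndB0q0 ndB5q1 pcB2 cut_mm_012 Ext.none)

def k0_mm_012 : ∃ t, chk3 f_mm_012 t 1 1 1 = true :=
  ⟨(l 4), by decide +kernel⟩

theorem c_mm_012 : CertB 0 536870912 536870912 536870912 991146299 28908434 3 eng mog cd0q0 cd5q1 pd2 true false false .pnp 0 1 2
    ndB0q0 ndB5q1 pcB2 cut_mm_012 Ext.none :=
  certB0 (fam := true) (s1 := false) (s2 := false) (a := 0) (b := 1) (c := 2) (cn := .pnp) (n1 := ndB0q0) (n2 := ndB5q1) (pc := pcB2) (cut := cut_mm_012) (xt := Ext.none) (P1 := 0) (W1 := 536870912) (P2 := 536870912) (W2 := 536870912) (P3 := 991146299) (W3 := 28908434) (N0 := 3) (En := eng) (mo := mog) (C1 := cd0q0) (C2 := cd5q1) (C3 := pd2)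
    rfl k0_mm_012

noncomputable def cut_mm_022 : Cut := Cut.of [[⟨3, 0, 0, 1449551462⟩]]

noncomputable def f_mm_022 : ℕ → ℕ → ℕ → ℕ → Bool := onCell 0 536870912 1073741824 536870912 991146299 28908434
    (rowB 3 eng mog cd0q0 cd5q2 pd2 0 true false false .pp 0 2 2 (qsf 0 536870912 1073741824 536870912 2) ndB0q0 ndB5q2 pcB2 cut_mm_022 Ext.none)

def k0_mm_022 : ∃ t, chk3 f_mm_022 t 1 1 1 = true :=
  ⟨(l 4), by decide +kernel⟩

theorem c_mm_022 : CertB 0 536870912 1073741824 536870912 991146299 28908434 3 eng mog cd0q0 cd5q2 pd2 true false false .pp 0 2 2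
    ndB0q0 ndB5q2 pcB2 cut_mm_022 Ext.none :=
  certB0 (fam := true) (s1 := false) (s2 := false) (a := 0) (b := 2) (c := 2) (cn := .pp) (n1 := ndB0q0) (n2 := ndB5q2) (pc := pcB2) (cut := cut_mm_022) (xt := Ext.none) (P1 := 0) (W1 := 536870912) (P2 := 1073741824) (W2 := 536870912) (P3 := 991146299) (W3 := 28908434) (N0 := 3) (En := eng) (mo := mog) (C1 := cd0q0) (C2 := cd5q2) (C3 := pd2)
    rfl k0_mm_022

noncomputable def cut_mm_023 : Cut := Cut.of [[⟨3, 0, 0, 1449551462⟩]]

noncomputable def f_mm_023 : ℕ → ℕ → ℕ → ℕ → Bool := onCell 0 536870912 1073741824 536870912 991146299 28908434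
    (rowB 3 eng mog cd0q0 cd5q2 pd3 0 true false false .up 0 2 3 (qsf 0 536870912 1073741824 536870912 3) ndB0q0 ndB5q2 pcB3 cut_mm_023 Ext.none)

def k0_mm_023 : ∃ t, chk3 f_mm_023 t 1 1 1 = true :=
  ⟨(l 4), by decide +kernel⟩

theorem c_mm_023 : CertB 0 536870912 1073741824 536870912 991146299 28908434 3 eng mog cd0q0 cd5q2 pd3 true false false .up 0 2 3
    ndB0q0 ndB5q2 pcB3 cut_mm_023 Ext.none :=
  certB0 (fam := true) (s1 := false) (s2 := false) (a := 0) (b := 2) (c := 3) (cn := .up) (n1 := ndB0q0) (n2 := ndB5q2) (pc := pcB3) (cut := cut_mm_023) (xt := Ext.none) (P1 := 0) (W1 := 536870912) (P2 := 1073741824) (W2 := 536870912) (P3 := 991146299) (W3 := 28908434) (N0 := 3) (En := eng) (mo := mog) (C1 := cd0q0) (C2 := cd5q2) (C3 := pd3)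
    rfl k0_mm_023

noncomputable def cut_mm_033 : Cut := Cut.of [[⟨3, 0, 0, 1449551462⟩]]

noncomputable def f_mm_033 : ℕ → ℕ → ℕ → ℕ → Bool := onCell 0 536870912 0 1230186008 991146299 28908434
    (rowB 3 eng mog cd0q0 cd5q3 pd3 0 true false false .pnn 0 3 3 (qsf 0 536870912 0 1230186008 3) ndB0q0 ndB5q3 pcB3 cut_mm_033 Ext.none)

def k0_mm_033 : ∃ t, chk3 f_mm_033 t 1 1 1 = true :=
  ⟨(l 4), by decide +kernel⟩

theorem c_mm_033 : CertB 0 536870912 0 1230186008 991146299 28908434 3 eng mog cd0q0 cd5q3 pd3 true false false .pnn 0 3 3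
    ndB0q0 ndB5q3 pcB3 cut_mm_033 Ext.none :=
  certB0 (fam := true) (s1 := false) (s2 := false) (a := 0) (b := 3) (c := 3) (cn := .pnn) (n1 := ndB0q0) (n2 := ndB5q3) (pc := pcB3) (cut := cut_mm_033) (xt := Ext.none) (P1 := 0) (W1 := 536870912) (P2 := 0) (W2 := 1230186008) (P3 := 991146299) (W3 := 28908434) (N0 := 3) (En := eng) (mo := mog) (C1 := cd0q0) (C2 := cd5q3) (C3 := pd3)
    rfl k0_mm_033

noncomputable def cut_mm_101 : Cut := Cut.of [[⟨3, 0, 0, 1449551462⟩]]

noncomputable def f_mm_101 : ℕ → ℕ → ℕ → ℕ → Bool := onCell 536870912 536870912 0 536870912 991146299 28908434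
    (rowB 3 eng mog cd0q1 cd5q0 pd1 0 true false false .npn 1 0 1 (qsf 536870912 536870912 0 536870912 1) ndB0q1 ndB5q0 pcB1 cut_mm_101 Ext.none)

def k0_mm_101 : ∃ t, chk3 f_mm_101 t 1 1 1 = true :=
  ⟨(l 4), by decide +kernel⟩

theorem c_mm_101 : CertB 536870912 536870912 0 536870912 991146299 28908434 3 eng mog cd0q1 cd5q0 pd1 true false false .npn 1 0 1
    ndB0q1 ndB5q0 pcB1 cut_mm_101 Ext.none :=
  certB0 (fam := true) (s1 := false) (s2 := false) (a := 1) (b := 0) (c := 1) (cn := .npn) (n1 := ndB0q1) (n2 := ndB5q0) (pc := pcB1) (cut := cut_mm_101) (xt := Ext.none) (P1 := 536870912) (W1 := 536870912) (P2 := 0) (W2 := 536870912) (P3 := 991146299) (W3 := 28908434) (N0 := 3) (En := eng) (mo := mog) (C1 := cd0q1) (C2 := cd5q0) (C3 := pd1)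
    rfl k0_mm_101

noncomputable def cut_mm_102 : Cut := Cut.of [[⟨3, 0, 0, 1449551462⟩]]

noncomputable def f_mm_102 : ℕ → ℕ → ℕ → ℕ → Bool := onCell 536870912 536870912 0 536870912 991146299 28908434
    (rowB 3 eng mog cd0q1 cd5q0 pd2 0 true false false .npp 1 0 2 (qsf 536870912 536870912 0 536870912 2) ndB0q1 ndB5q0 pcB2 cut_mm_102 Ext.none)

def k0_mm_102 : ∃ t, chk3 f_mm_102 t 1 1 1 = true :=
  ⟨(l 4), by decide +kernel⟩

theorem c_mm_102 : CertB 536870912 536870912 0 536870912 991146299 28908434 3 eng mog cd0q1 cd5q0 pd2 true false false .npp 1 0 2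
    ndB0q1 ndB5q0 pcB2 cut_mm_102 Ext.none :=
  certB0 (fam := true) (s1 := false) (s2 := false) (a := 1) (b := 0) (c := 2) (cn := .npp) (n1 := ndB0q1) (n2 := ndB5q0) (pc := pcB2) (cut := cut_mm_102) (xt := Ext.none) (P1 := 536870912) (W1 := 536870912) (P2 := 0) (W2 := 536870912) (P3 := 991146299) (W3 := 28908434) (N0 := 3) (En := eng) (mo := mog) (C1 := cd0q1) (C2 := cd5q0) (C3 := pd2)
    rfl k0_mm_102

noncomputable def cut_mm_112 : Cut := Cut.of [[⟨3, 0, 0, 1449551462⟩]]

noncomputable def f_mm_112 : ℕ → ℕ → ℕ → ℕ → Bool := onCell 536870912 536870912 536870912 536870912 991146299 28908434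
    (rowB 3 eng mog cd0q1 cd5q1 pd2 0 true false false .dn 1 1 2 (qsf 536870912 536870912 536870912 536870912 2) ndB0q1 ndB5q1 pcB2 cut_mm_112 Ext.none)

def k0_mm_112 : ∃ t, chk3 f_mm_112 t 1 1 1 = true :=
  ⟨(l 4), by decide +kernel⟩

theorem c_mm_112 : CertB 536870912 536870912 536870912 536870912 991146299 28908434 3 eng mog cd0q1 cd5q1 pd2 true false false .dn 1 1 2
    ndB0q1 ndB5q1 pcB2 cut_mm_112 Ext.none :=
  certB0 (fam := true) (s1 := false) (s2 := false) (a := 1) (b := 1) (c := 2) (cn := .dn) (n1 := ndB0q1) (n2 := ndB5q1) (pc := pcB2) (cut := cut_mm_112) (xt := Ext.none) (P1 := 536870912) (W1 := 536870912) (P2 := 536870912) (W2 := 536870912) (P3 := 991146299) (W3 := 28908434) (N0 := 3) (En := eng) (mo := mog) (C1 := cd0q1) (C2 := cd5q1) (C3 := pd2)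
    rfl k0_mm_112

noncomputable def cut_mm_113 : Cut := Cut.of [[⟨3, 0, 0, 1449551462⟩]]

noncomputable def f_mm_113 : ℕ → ℕ → ℕ → ℕ → Bool := onCell 536870912 536870912 536870912 536870912 991146299 28908434
    (rowB 3 eng mog cd0q1 cd5q1 pd3 0 true false false .nn 1 1 3 (qsf 536870912 536870912 536870912 536870912 3) ndB0q1 ndB5q1 pcB3 cut_mm_113 Ext.none)

def k0_mm_113 : ∃ t, chk3 f_mm_113 t 1 1 1 = true :=
  ⟨(l 4), by decide +kernel⟩

theorem c_mm_113 : CertB 536870912 536870912 536870912 536870912 991146299 28908434 3 eng mog cd0q1 cd5q1 pd3 true false false .nn 1 1 3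
    ndB0q1 ndB5q1 pcB3 cut_mm_113 Ext.none :=
  certB0 (fam := true) (s1 := false) (s2 := false) (a := 1) (b := 1) (c := 3) (cn := .nn) (n1 := ndB0q1) (n2 := ndB5q1) (pc := pcB3) (cut := cut_mm_113) (xt := Ext.none) (P1 := 536870912) (W1 := 536870912) (P2 := 536870912) (W2 := 536870912) (P3 := 991146299) (W3 := 28908434) (N0 := 3) (En := eng) (mo := mog) (C1 := cd0q1) (C2 := cd5q1) (C3 := pd3)
    rfl k0_mm_113

noncomputable def cut_mm_123 : Cut := Cut.of [[⟨3, 0, 0, 1449551462⟩]]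

noncomputable def f_mm_123 : ℕ → ℕ → ℕ → ℕ → Bool := onCell 536870912 536870912 1073741824 536870912 991146299 28908434
    (rowB 3 eng mog cd0q1 cd5q2 pd3 0 true false false .npn 1 2 3 (qsf 536870912 536870912 1073741824 536870912 3) ndB0q1 ndB5q2 pcB3 cut_mm_123 Ext.none)

def k0_mm_123 : ∃ t, chk3 f_mm_123 t 1 1 1 = true :=
  ⟨(l 4), by decide +kernel⟩

theorem c_mm_123 : CertB 536870912 536870912 1073741824 536870912 991146299 28908434 3 eng mog cd0q1 cd5q2 pd3 true false false .npn 1 2 3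
    ndB0q1 ndB5q2 pcB3 cut_mm_123 Ext.none :=
  certB0 (fam := true) (s1 := false) (s2 := false) (a := 1) (b := 2) (c := 3) (cn := .npn) (n1 := ndB0q1) (n2 := ndB5q2) (pc := pcB3) (cut := cut_mm_123) (xt := Ext.none) (P1 := 536870912) (W1 := 536870912) (P2 := 1073741824) (W2 := 536870912) (P3 := 991146299) (W3 := 28908434) (N0 := 3) (En := eng) (mo := mog) (C1 := cd0q1) (C2 := cd5q2) (C3 := pd3)
    rfl k0_mm_123

noncomputable def cut_mm_133 : Cut := Cut.of [[⟨3, 0, 0, 1449551462⟩]]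

noncomputable def f_mm_133 : ℕ → ℕ → ℕ → ℕ → Bool := onCell 536870912 536870912 0 1230186008 991146299 28908434
    (rowB 3 eng mog cd0q1 cd5q3 pd3 0 true false false .dn 1 3 3 (qsf 536870912 536870912 0 1230186008 3) ndB0q1 ndB5q3 pcB3 cut_mm_133 Ext.none)

def k0_mm_133 : ∃ t, chk3 f_mm_133 t 1 1 1 = true :=
  ⟨(l 4), by decide +kernel⟩

theorem c_mm_133 : CertB 536870912 536870912 0 1230186008 991146299 28908434 3 eng mog cd0q1 cd5q3 pd3 true false false .dn 1 3 3
    ndB0q1 ndB5q3 pcB3 cut_mm_133 Ext.none :=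
  certB0 (fam := true) (s1 := false) (s2 := false) (a := 1) (b := 3) (c := 3) (cn := .dn) (n1 := ndB0q1) (n2 := ndB5q3) (pc := pcB3) (cut := cut_mm_133) (xt := Ext.none) (P1 := 536870912) (W1 := 536870912) (P2 := 0) (W2 := 1230186008) (P3 := 991146299) (W3 := 28908434) (N0 := 3) (En := eng) (mo := mog) (C1 := cd0q1) (C2 := cd5q3) (C3 := pd3)
    rfl k0_mm_133

noncomputable def cut_mm_202 : Cut := Cut.of [[⟨3, 0, 0, 1449551462⟩]]

noncomputable def f_mm_202 : ℕ → ℕ → ℕ → ℕ → Bool := onCell 0 536870912 0 536870912 991146299 28908434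
    (rowB 3 eng mog cd0q2 cd5q0 pd2 0 true false false .pp 2 0 2 (qsf 0 536870912 0 536870912 2) ndB0q2 ndB5q0 pcB2 cut_mm_202 Ext.none)

def k0_mm_202 : ∃ t, chk3 f_mm_202 t 1 1 1 = true :=
  ⟨(l 4), by decide +kernel⟩

theorem c_mm_202 : CertB 0 536870912 0 536870912 991146299 28908434 3 eng mog cd0q2 cd5q0 pd2 true false false .pp 2 0 2
    ndB0q2 ndB5q0 pcB2 cut_mm_202 Ext.none :=
  certB0 (fam := true) (s1 := false) (s2 := false) (a := 2) (b := 0) (c := 2) (cn := .pp) (n1 := ndB0q2) (n2 := ndB5q0) (pc := pcB2) (cut := cut_mm_202) (xt := Ext.none) (P1 := 0) (W1 := 536870912) (P2 := 0) (W2 := 536870912) (P3 := 991146299) (W3 := 28908434) (N0 := 3) (En := eng) (mo := mog) (C1 := cd0q2) (C2 := cd5q0) (C3 := pd2)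
    rfl k0_mm_202

noncomputable def cut_mm_203 : Cut := Cut.of [[⟨3, 0, 0, 1449551462⟩]]

noncomputable def f_mm_203 : ℕ → ℕ → ℕ → ℕ → Bool := onCell 0 536870912 0 536870912 991146299 28908434
    (rowB 3 eng mog cd0q2 cd5q0 pd3 0 true false false .up 2 0 3 (qsf 0 536870912 0 536870912 3) ndB0q2 ndB5q0 pcB3 cut_mm_203 Ext.none)

def k0_mm_203 : ∃ t, chk3 f_mm_203 t 1 1 1 = true :=
  ⟨(l 4), by decide +kernel⟩

theorem c_mm_203 : CertB 0 536870912 0 536870912 991146299 28908434 3 eng mog cd0q2 cd5q0 pd3 true false false .up 2 0 3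
    ndB0q2 ndB5q0 pcB3 cut_mm_203 Ext.none :=
  certB0 (fam := true) (s1 := false) (s2 := false) (a := 2) (b := 0) (c := 3) (cn := .up) (n1 := ndB0q2) (n2 := ndB5q0) (pc := pcB3) (cut := cut_mm_203) (xt := Ext.none) (P1 := 0) (W1 := 536870912) (P2 := 0) (W2 := 536870912) (P3 := 991146299) (W3 := 28908434) (N0 := 3) (En := eng) (mo := mog) (C1 := cd0q2) (C2 := cd5q0) (C3 := pd3)
    rfl k0_mm_203

noncomputable def cut_mm_213 : Cut := Cut.of [[⟨3, 0, 0, 1449551462⟩]]

noncomputable def f_mm_213 : ℕ → ℕ → ℕ → ℕ → Bool := onCell 0 536870912 536870912 536870912 991146299 28908434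
    (rowB 3 eng mog cd0q2 cd5q1 pd3 0 true false false .pnn 2 1 3 (qsf 0 536870912 536870912 536870912 3) ndB0q2 ndB5q1 pcB3 cut_mm_213 Ext.none)

def k0_mm_213 : ∃ t, chk3 f_mm_213 t 1 1 1 = true :=
  ⟨(l 4), by decide +kernel⟩

theorem c_mm_213 : CertB 0 536870912 536870912 536870912 991146299 28908434 3 eng mog cd0q2 cd5q1 pd3 true false false .pnn 2 1 3
    ndB0q2 ndB5q1 pcB3 cut_mm_213 Ext.none :=
  certB0 (fam := true) (s1 := false) (s2 := false) (a := 2) (b := 1) (c := 3) (cn := .pnn) (n1 := ndB0q2) (n2 := ndB5q1) (pc := pcB3) (cut := cut_mm_213) (xt := Ext.none) (P1 := 0) (W1 := 536870912) (P2 := 536870912) (W2 := 536870912) (P3 := 991146299) (W3 := 28908434) (N0 := 3) (En := eng) (mo := mog) (C1 := cd0q2) (C2 := cd5q1) (C3 := pd3)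
    rfl k0_mm_213

end Pool.Agent.Strip051.G.I9231_9500.Tab.C.BA05

namespace Pool.Agent.Strip051.G.I9231_9500.Tab.C.BA11

open Pool.Agent.Strip051.PB Pool.Agent.Strip051.PB.T
open Pool.Agent.Strip051.G.I9231_9500.Tab

noncomputable def f_pp_001 : ℕ → ℕ → ℕ → ℕ → Bool := onCell 0 536870912 0 536870912 991146299 28908434
    (rowB 3 eng mog cd1q0 cd1q0 pd1 0 true true true .up 0 0 1 (qsf 0 536870912 0 536870912 1) ndB1q0 ndB1q0 pcB1 Cut.none Ext.none)

def k0_pp_001 : ∃ t, chk3 f_pp_001 t 1 1 1 = true :=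
  ⟨(l 4), by decide +kernel⟩

theorem c_pp_001 : CertB 0 536870912 0 536870912 991146299 28908434 3 eng mog cd1q0 cd1q0 pd1 true true true .up 0 0 1
    ndB1q0 ndB1q0 pcB1 Cut.none Ext.none :=
  certB0 (fam := true) (s1 := true) (s2 := true) (a := 0) (b := 0) (c := 1) (cn := .up) (n1 := ndB1q0) (n2 := ndB1q0) (pc := pcB1) (cut := Cut.none) (xt := Ext.none) (P1 := 0) (W1 := 536870912) (P2 := 0) (W2 := 536870912) (P3 := 991146299) (W3 := 28908434) (N0 := 3) (En := eng) (mo := mog) (C1 := cd1q0) (C2 := cd1q0) (C3 := pd1)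
    rfl k0_pp_001

noncomputable def f_pp_011 : ℕ → ℕ → ℕ → ℕ → Bool := onCell 0 536870912 536870912 536870912 991146299 28908434
    (rowB 3 eng mog cd1q0 cd1q1 pd1 0 true true true .pnn 0 1 1 (qsf 0 536870912 536870912 536870912 1) ndB1q0 ndB1q1 pcB1 Cut.none Ext.none)

def k0_pp_011 : ∃ t, chk3 f_pp_011 t 1 1 1 = true :=
  ⟨(l 4), by decide +kernel⟩

theorem c_pp_011 : CertB 0 536870912 536870912 536870912 991146299 28908434 3 eng mog cd1q0 cd1q1 pd1 true true true .pnn 0 1 1
    ndB1q0 ndB1q1 pcB1 Cut.none Ext.none :=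
  certB0 (fam := true) (s1 := true) (s2 := true) (a := 0) (b := 1) (c := 1) (cn := .pnn) (n1 := ndB1q0) (n2 := ndB1q1) (pc := pcB1) (cut := Cut.none) (xt := Ext.none) (P1 := 0) (W1 := 536870912) (P2 := 536870912) (W2 := 536870912) (P3 := 991146299) (W3 := 28908434) (N0 := 3) (En := eng) (mo := mog) (C1 := cd1q0) (C2 := cd1q1) (C3 := pd1)
    rfl k0_pp_011

noncomputable def f_pp_012 : ℕ → ℕ → ℕ → ℕ → Bool := onCell 0 536870912 536870912 536870912 991146299 28908434
    (rowB 3 eng mog cd1q0 cd1q1 pd2 0 true true true .pnp 0 1 2 (qsf 0 536870912 536870912 536870912 2) ndB1q0 ndB1q1 pcB2 Cut.none Ext.none)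

def k0_pp_012 : ∃ t, chk3 f_pp_012 t 1 1 1 = true :=
  ⟨(l 4), by decide +kernel⟩

theorem c_pp_012 : CertB 0 536870912 536870912 536870912 991146299 28908434 3 eng mog cd1q0 cd1q1 pd2 true true true .pnp 0 1 2
    ndB1q0 ndB1q1 pcB2 Cut.none Ext.none :=
  certB0 (fam := true) (s1 := true) (s2 := true) (a := 0) (b := 1) (c := 2) (cn := .pnp) (n1 := ndB1q0) (n2 := ndB1q1) (pc := pcB2) (cut := Cut.none) (xt := Ext.none) (P1 := 0) (W1 := 536870912) (P2 := 536870912) (W2 := 536870912) (P3 := 991146299) (W3 := 28908434) (N0 := 3) (En := eng) (mo := mog) (C1 := cd1q0) (C2 := cd1q1) (C3 := pd2)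
    rfl k0_pp_012

noncomputable def cut_pp_022_a : Cut := Cut.of [[⟨0, 0, 0, 53687091⟩, ⟨1, 1, 0, 53687091⟩, ⟨2, 1, 0, 53687091⟩]]

noncomputable def f_pp_022_a : ℕ → ℕ → ℕ → ℕ → Bool := onCell 1073741824 536870912 0 536870912 991146299 28908434
    (rowB 3 eng mog cd1q0 cd1q2a pd2 2 true true true .pp 0 2 2 (qsf 0 536870912 0 536870912 2) ndB1q0 ndB1q2a pcB2 cut_pp_022_a Ext.none)

def k0_pp_022_a : ∃ t, chk3 f_pp_022_a t 2 2 1 = true :=
  ⟨(a (b (l 1) (a (l 1) (a (l 1) (a (l 1) (a (l 1) (b (l 1) (b (l 1) (c (l 16243000) (l 16213696))))))))) (a (a (a (b (l 1) (a (b (l 1) (c (b (l 16223616) (l 16291152)) (b (l 16196784) (l 16271224)))) (c (b (l 16213304) (b (l 16274008) (l 16335728))) (b (l 16166944) (b (l 16257136) (l 16324184)))))) (a (b (b (l 1) (c (l 16166816) (l 16143664))) (b (c (l 16247464) (l 16233336)) (c (l 16328424) (l 16322424)))) (b (b (b (l 16166736) (l 16182296)) (l 16181912)) (b (c (l 16298944) (l 16295048)) (b (l 16364144) (l 16415784))))))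 (c (b (a (b (l 16218160) (l 16293872)) (b (l 16402808) (l 16416840))) (b (a (l 16306680) (l 16451984)) (a (l 16339928) (l 16475544)))) (b (b (a (l 16223336) (l 16433640)) (a (l 16280688) (l 16444792))) (b (a (l 16316288) (l 16476280)) (a (a (l 16434824) (l 16453416)) (l 16484568)))))) (b (a (a (b (l 16376232) (l 16372176)) (c (l 16340952) (a (l 16354224) (l 16258328)))) (c (b (a (l 16344376) (l 16302520)) (a (l 16414800) (l 16389856))) (b (l 15996896) (a (l 16343920) (l 16311800))))) (a (b (a (c (l 16521736) (l 16502272)) (c (l 16510880) (l 16463600))) (a (c (l 16557704) (l 16561800)) (c (l 16580160) (l 16547160)))) (b (c (a (l 16492216) (l 16484192)) (a (l 16397336) (l 16407664))) (a (c (l 16579400) (l 16545552)) (c (l 16588280) (l 16556384)))))))), by decide +kernel⟩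

def k1_pp_022_a : ∃ t, chk3 f_pp_022_a t 4 6 1 = true :=
  ⟨(a (l 1) (a (b (l 1) (a (a (l 1) (b (l 1) (a (b (l 1) (c (b (l 16390880) (l 16426160)) (b (l 16357392) (l 16397216)))) (c (b (l 16382696) (b (l 16412552) (l 16446872))) (b (l 16325968) (b (l 16383296) (l 16421912))))))) (b (b (a (l 1) (a (l 1) (c (l 16326568) (l 16292824)))) (a (a (l 1) (c (l 16341760) (l 16306616))) (c (a (l 16363688) (l 16384688)) (a (l 16332840) (l 16357896))))) (c (a (b (a (l 16415200) (l 16404776)) (a (l 16428904) (l 16469040))) (b (a (l 16424864) (l 16444064)) (a (l 16487288) (l 16504672)))) (a (b (a (l 16394264) (l 16377416)) (c (l 16422592) (l 16432576))) (b (a (l 16401328) (l 16424096)) (l 16397408))))))) (b (a (a (b (l 1) (b (l 1) (c (l 16340904) (l 16312984)))) (b (c (b (l 1) (l 16250832)) (l 16261440)) (c (b (l 16299096) (l 16348640)) (b (l 16268176) (l 16323280))))) (c (b (a (b (l 16254192) (l 16297920)) (l 16321656)) (a (b (l 16342928) (l 16389176)) (l 16405360)))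 (b (a (b (l 16221984) (l 16270592)) (l 16300592)) (a (l 16262104) (l 16392144))))) (a (b (c (a (b (a (l 16348464) (l 16369480)) (l 16372600)) (b (l 16399440) (l 16451472))) (a (b (a (l 16318976) (l 16344008)) (l 16372376)) (b (l 16379536) (l 16436912)))) (b (c (a (l 16450288) (l 16504736)) (a (l 16435216) (l 16495392))) (a (c (l 16508216) (l 16499152)) (c (l 16559200) (l 16554952))))) (b (c (a (b (l 16436672) (l 16485384)) (l 16472992)) (a (l 16366232) (l 16467224))) (a (c (l 16477136) (l 16474744)) (c (l 16545432) (l 16525656)))))))), by decide +kernel⟩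

def k2_pp_022_a : ∃ t, chk3 f_pp_022_a t 8 7 1 = true :=
  ⟨(a (b (l 1) (l 6)) (a (b (b (l 1) (b (l 1) (l 6))) (l 6)) (b (a (b (l 1) (a (b (b (l 1) (c (a (l 16547344) (l 16558360)) (c (l 16514992) (l 16503352)))) (a (l 6) (c (b (l 16580504) (l 16623912)) (c (l 16550600) (l 16543928))))) (b (c (b (a (l 16505824) (l 16516784)) (c (l 16557904) (l 16548808))) (b (c (l 16493232) (l 16480784)) (c (l 16539472) (l 16529912)))) (b (c (l 16553792) (l 16540704)) (c (l 16617408) (l 16609848)))))) (b (b (l 1) (a (b (l 1) (a (c (l 16486472) (l 16459784)) (c (l 16497376) (l 16472768)))) (c (b (a (l 16468312) (l 16479160)) (l 16492240)) (b (l 16473192) (l 16491592))))) (b (b (a (c (a (l 16527464) (l 16537872)) (l 16470504)) (c (l 16552952) (l 16536464))) (c (c (l 16544736) (l 16538336)) (c (l 16531776) (l 16546032)))) (b (c (a (l 16594112) (l 16633344)) (c (l 16597440) (l 16572408))) (c (c (l 16624232) (l 16622840)) (c (l 16621432) (l 16620000))))))) (b (b (a (c (b (a (l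 16620960) (l 16660352)) (a (l 16665208) (b (l 16692728) (l 16713128)))) (a (b (l 16615656) (l 16665608)) (b (l 16637296) (b (l 16694728) (l 16711352))))) (b (c (a (l 16677680) (l 16672576)) (a (l 16657592) (l 16676088))) (c (a (b (l 16729376) (l 16736752)) (l 37815715927)) (a (b (l 16709520) (l 16730672)) (l 67880481495))))) (a (b (b (c (a (l 16717752) (l 16738968)) (a (l 16713424) (l 16733192))) (a (c (l 16741504) (l 43721300167)) (l 4))) (l 4)) (l 4))) (l 4))))), by decide +kernel⟩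

def k3_pp_022_a : ∃ t, chk3 f_pp_022_a t 18 7 1 = true :=
  ⟨(b (b (a (a (a (b (b (l 1) (c (l 16477720) (l 16450008))) (c (c (l 16498112) (l 16488200)) (b (l 16472136) (l 16515496)))) (b (c (b (l 16440880) (l 16477752)) (b (l 16412456) (l 16454048))) (c (b (l 16514920) (l 16552400)) (b (l 16495904) (l 16538032))))) (a (c (b (b (l 16461752) (l 16497648)) (l 16510200)) (b (c (l 16463184) (l 16451816)) (l 16496864))) (c (b (l 16478040) (l 16548528)) (b (l 16459440) (l 16538288))))) (c (b (a (c (l 16508344) (l 16501656)) (l 16495896)) (a (c (l 16574144) (l 16571160)) (l 16580800))) (b (a (c (l 16494808) (l 16487808)) (l 16487912)) (a (c (l 16568128) (l 16565048)) (l 16558504))))) (a (a (a (c (b (c (l 16573272) (l 16568104)) (l 16607464)) (b (c (l 16562816) (l 16557400)) (c (l 16627672) (l 16627168)))) (b (c (l 16567312) (l 16559832)) (c (l 16622992) (l 16624552)))) (b (c (c (l 16592432) (l 16590800)) (a (l 16579184) (l 16597216))) (c (b (l 16646792) (a (l 16695152)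 (l 16722304))) (b (l 16628760) (a (l 16700568) (l 16726272)))))) (b (a (c (b (l 16624104) (l 16637848)) (b (l 16623664) (l 16641096))) (c (b (l 16650432) (l 16657144)) (a (l 16643000) (l 16632096)))) (b (a (c (a (l 16706288) (l 16712552)) (a (l 16711848) (l 16718784))) (a (l 74859756311) (l 4))) (l 4))))) (b (a (b (a (b (a (c (l 16683752) (l 16877708999)) (c (l 16710888) (l 16708056))) (l 4)) (l 4)) (l 4)) (l 4)) (l 4))), by decide +kernel⟩

def k4_pp_022_a : ∃ t, chk3 f_pp_022_a t 19 7 1 = true :=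
  ⟨(b (b (a (a (b (c (l 16567360) (l 16564160)) (c (l 16606720) (a (l 16623144) (l 16658032)))) (b (c (l 16593888) (l 16594600)) (c (l 16606496) (b (l 16661648) (l 16688712))))) (c (a (b (l 16617752) (l 16672216)) (b (l 16658680) (l 16690384))) (b (a (l 16621544) (l 16664544)) (a (b (l 16682136) (l 16697768)) (l 16696536))))) (a (b (a (a (b (l 16648784) (l 16688192)) (b (l 16655744) (l 4))) (c (a (l 16702920) (l 4)) (l 103850753847))) (l 4)) (l 4))) (l 4)), by decide +kernel⟩

def k5_pp_022_a : ∃ t, chk3 f_pp_022_a t 5 3 1 = true :=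
  ⟨(a (b (a (c (b (a (b (a (l 16363776) (l 16402464)) (a (l 16441360) (l 16474088))) (b (l 16412456) (l 16454448))) (a (b (a (l 16523792) (l 16550496)) (a (l 16569032) (b (l 16610592) (l 16651256)))) (b (a (l 16574216) (l 16595072)) (a (l 16646344) (l 16658024))))) (b (a (b (a (l 16350432) (l 16395904)) (a (l 16434224) (l 16472128))) (b (l 16414336) (l 16458600))) (a (b (a (l 16501472) (l 16531728)) (a (b (l 16591120) (l 16638416)) (l 16611888))) (b (a (l 16558176) (l 16580944)) (a (l 16653080) (l 16664944)))))) (b (a (c (b (l 16491784) (l 16522768)) (a (l 16493592) (l 16561616))) (c (b (l 16559560) (l 16601112)) (b (l 16574576) (l 16612632)))) (a (b (a (l 16575120) (l 16611456)) (a (c (l 16666960) (l 16673608)) (l 89355125959))) (b (a (l 35667952423) (l 54995329047)) (l 4))))) (b (a (b (b (a (a (c (l 16672088) (l 16678720)) (c (l 16680128) (l 16686608))) (l 4)) (l 4)) (l 4)) (l 4)) (l 4))) (b (a (b (a (c (l 16570232) (b (l 16612624) (l 16638256))) (b (l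 16545512) (c (l 16645752) (l 16654288)))) (a (b (a (l 82375763655) (l 82375779303)) (l 4)) (l 4))) (b (a (b (c (l 16639920) (l 16633512)) (c (l 16661128) (l 75933322279))) (b (c (l 16653032) (l 16653952)) (l 4))) (l 4))) (l 4))), by decide +kernel⟩

def k6_pp_022_a : ∃ t, chk3 f_pp_022_a t 6 1 1 = true :=
  ⟨(b (a (b (a (c (b (l 16135496) (l 16204672)) (b (a (l 16164288) (l 16139896)) (a (l 16293640) (l 16288656)))) (c (b (l 16138856) (l 16194992)) (b (a (l 16128920) (l 16130600)) (a (l 16296064) (l 16315112))))) (a (b (c (a (l 16486144) (l 16497408)) (a (l 16409872) (l 16403168))) (a (c (l 16605504) (b (l 16519472) (l 16616176))) (b (l 16520456) (c (l 16658320) (l 16642552))))) (b (c (a (l 16517328) (l 16545248)) (a (l 16470632) (l 16485656))) (a (b (c (l 16625232) (l 16604480)) (a (l 16666400) (l 4))) (b (c (l 16649800) (l 16634960)) (l 4)))))) (b (a (b (c (l 16138264) (a (l 16144216) (l 16169048))) (c (a (l 16415392) (l 16446168)) (a (l 16345056) (l 16364184))))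 (b (c (l 16149968) (a (l 16204392) (l 16249504))) (c (a (l 16484064) (l 16527736)) (a (l 16371744) (l 16407880))))) (a (a (b (c (l 16556504) (b (l 16499592) (l 16598400))) (c (l 44257984743) (l 54458490471))) (b (b (l 16480320) (c (l 16643672) (l 16630840))) (l 4))) (b (b (a (c (l 16613960) (l 16597456)) (c (l 16639400) (l 16629528))) (l 4)) (l 4))))) (b (a (b (a (a (b (a (l 16586320) (l 4)) (l 4)) (l 4)) (l 4)) (l 4)) (l 4)) (l 4))), by decide +kernel⟩

def k7_pp_022_a : ∃ t, chk3 f_pp_022_a t 7 1 1 = true :=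
  ⟨(b (b (a (a (b (c (l 16190432) (a (l 16303648) (l 16366088))) (c (a (l 16484880) (b (l 16577960) (l 16636384))) (a (b (l 16494664) (l 16600584)) (b (l 16559576) (l 16629752))))) (b (c (a (l 16478296) (l 16467936)) (a (l 16373176) (b (l 16441664) (l 16570680)))) (b (a (c (l 16614296) (l 16606336)) (l 32983595895)) (l 4)))) (b (a (c (a (b (l 16541536) (l 16595264)) (l 16523256)) (a (b (l 16521272) (l 16613104)) (b (l 16583632) (l 4)))) (a (c (l 16627400) (l 16629040)) (l 4))) (l 4))) (l 4)) (l 4)), by decide +kernel⟩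

theorem s8_pp_022_a : ∃ t, chk3 f_pp_022_a t 3 1 1 = true := ex3_a k6_pp_022_a k7_pp_022_a

theorem s9_pp_022_a : ∃ t, chk3 f_pp_022_a t 9 7 1 = true := ex3_a k3_pp_022_a k4_pp_022_a

theorem s10_pp_022_a : ∃ t, chk3 f_pp_022_a t 4 7 1 = true := ex3_a k2_pp_022_a s9_pp_022_a

theorem s11_pp_022_a : ∃ t, chk3 f_pp_022_a t 4 3 1 = true := ex3_b k1_pp_022_a s10_pp_022_a

theorem s12_pp_022_a : ∃ t, chk3 f_pp_022_a t 2 3 1 = true := ex3_a s11_pp_022_a k5_pp_022_a

theorem s13_pp_022_a : ∃ t, chk3 f_pp_022_a t 2 1 1 = true := ex3_b k0_pp_022_a s12_pp_022_a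

theorem s14_pp_022_a : ∃ t, chk3 f_pp_022_a t 1 1 1 = true := ex3_a s13_pp_022_a s8_pp_022_a

theorem c_pp_022_a : CertB 0 536870912 0 536870912 991146299 28908434 3 eng mog cd1q0 cd1q2a pd2 true true true .pp 0 2 2
    ndB1q0 ndB1q2a pcB2 cut_pp_022_a Ext.none :=
  certB2 (fam := true) (s1 := true) (s2 := true) (a := 0) (b := 2) (c := 2) (cn := .pp) (n1 := ndB1q0) (n2 := ndB1q2a) (pc := pcB2) (cut := cut_pp_022_a) (xt := Ext.none) (P1 := 0) (W1 := 536870912) (P2 := 0) (W2 := 536870912) (P3 := 991146299) (W3 := 28908434) (N0 := 3) (En := eng) (mo := mog) (C1 := cd1q0) (C2 := cd1q2a) (C3 := pd2)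
    rfl (fun _ => rfl) s14_pp_022_a

noncomputable def cut_pp_022_b : Cut := Cut.of [[⟨0, 0, 0, 53687091⟩, ⟨1, 1, 0, 53687091⟩, ⟨2, 1, 0, 53687091⟩]]

noncomputable def f_pp_022_b : ℕ → ℕ → ℕ → ℕ → Bool := onCell 0 536870912 1073741824 536870912 991146299 28908434
    (rowB 3 eng mog cd1q0 cd1q2b pd2 1 true true true .pp 0 2 2 (qsf 0 536870912 1239849684 370763052 2) ndB1q0 ndB1q2b pcB2 cut_pp_022_b Ext.none)

def k0_pp_022_b : ∃ t, chk3 f_pp_022_b t 1 2 1 = true :=
  ⟨(b (l 1) (a (a (b (a (b (a (b (l 1) (l 185789486551)) (l 1)) (a (b (l 80562919671) (a (l 16243752) (l 16346336))) (c (l 313565200807) (l 317860139015)))) (l 1)) (b (a (b (c (l 106332869527) (l 102574881927)) (a (l 16262832) (l 16287472))) (b (l 1) (a (l 16218000) (l 1)))) (a (c (a (l 16225512) (l 16259624)) (a (l 16030952) (l 16131624))) (a (b (l 16182728) (l 16136840)) (b (l 1) (l 322691510759)))))) (l 1)) (l 1))), by decide +kernel⟩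

def k1_pp_022_b : ∃ t, chk3 f_pp_022_b t 1 3 1 = true :=
  ⟨(b (a (a (b (a (c (b (a (l 16055768) (l 16145448)) (a (l 16003760) (l 16064656))) (b (a (l 15958520) (l 16011784)) (a (l 15847304) (l 15915504)))) (b (c (a (l 16181632) (l 16206232)) (a (l 16052624) (l 16081184))) (c (a (l 16113336) (l 16149824)) (a (l 15970312) (l 16011952))))) (a (b (c (l 15831488) (l 15693968)) (c (l 15950040) (l 15754672))) (b (c (l 15995280) (l 15768072)) (b (l 15774640) (l 15865528))))) (b (a (b (a (b (l 1) (l 337186893703)) (l 1)) (c (a (l 16174024) (l 345777189991)) (a (l 16040488) (l 350608812727)))) (l 1)) (b (a (c (a (l 16159024) (l 16181464)) (a (l 16024240) (l 16058896))) (a (c (l 359198792807) (l 373157175095)) (l 1))) (a (c (l 16041488) (b (l 16054880) (l 16076792))) (c (a (l 16223848) (l 368862470327)) (a (l 332355004567) (l 374230942167))))))) (l 1)) (a (b (a (b (a (c (l 15946424) (l 15745224)) (c (l 16114280) (l 15954120))) (a (c (l 15963112) (l 15849464)) (c (l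 16152424) (l 16060824)))) (b (a (b (l 15995056) (l 16089264)) (c (l 272762624823) (b (l 16170456) (l 16218656)))) (a (c (l 16288696) (l 16211752)) (b (l 16144144) (l 16364384))))) (a (b (a (c (l 15893768) (l 15914192)) (c (l 16125128) (l 16146896))) (a (c (l 15726360) (l 15765592)) (c (l 15952832) (l 15961840)))) (b (a (c (l 16360640) (l 16319536)) (b (l 16420584) (l 16479016))) (a (b (l 16231168) (l 15998032)) (b (l 16463992) (l 16402832)))))) (a (b (a (b (b (l 1) (c (l 387653111495) (l 387652954967))) (b (c (l 378526448087) (l 376378830135)) (l 349535426039))) (l 1)) (b (a (b (l 340945667303) (l 16493776)) (b (l 1) (l 400538278039))) (b (a (b (l 16588232) (l 16604192)) (c (l 389801112327) (l 393559236775))) (l 4)))) (l 1)))), by decide +kernel⟩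

theorem s2_pp_022_b : ∃ t, chk3 f_pp_022_b t 1 1 1 = true := ex3_b k0_pp_022_b k1_pp_022_b

theorem c_pp_022_b : CertB 0 536870912 1239849684 370763052 991146299 28908434 3 eng mog cd1q0 cd1q2b pd2 true true true .pp 0 2 2
    ndB1q0 ndB1q2b pcB2 cut_pp_022_b Ext.none :=
  certB1 (fam := true) (s1 := true) (s2 := true) (a := 0) (b := 2) (c := 2) (cn := .pp) (n1 := ndB1q0) (n2 := ndB1q2b) (pc := pcB2) (cut := cut_pp_022_b) (xt := Ext.none) (P1 := 0) (W1 := 536870912) (P2 := 1239849684) (W2 := 370763052) (P3 := 991146299) (W3 := 28908434) (N0 := 3) (En := eng) (mo := mog) (C1 := cd1q0) (C2 := cd1q2b) (C3 := pd2)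
    rfl (fun _ => rfl) s2_pp_022_b

noncomputable def f_pp_023_a : ℕ → ℕ → ℕ → ℕ → Bool := onCell 1610612736 536870912 0 536870912 991146299 28908434
    (rowB 3 eng mog cd1q0 cd1q2a pd3 2 true true true .up 0 2 3 (qsf 0 536870912 0 536870912 3) ndB1q0 ndB1q2a pcB3 Cut.none Ext.none)

def k0_pp_023_a : ∃ t, chk3 f_pp_023_a t 1 1 1 = true :=
  ⟨(a (b (l 4) (l 4)) (l 2)), by decide +kernel⟩

theorem c_pp_023_a : CertB 0 536870912 0 536870912 991146299 28908434 3 eng mog cd1q0 cd1q2a pd3 true true true .up 0 2 3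
    ndB1q0 ndB1q2a pcB3 Cut.none Ext.none :=
  certB2 (fam := true) (s1 := true) (s2 := true) (a := 0) (b := 2) (c := 3) (cn := .up) (n1 := ndB1q0) (n2 := ndB1q2a) (pc := pcB3) (cut := Cut.none) (xt := Ext.none) (P1 := 0) (W1 := 536870912) (P2 := 0) (W2 := 536870912) (P3 := 991146299) (W3 := 28908434) (N0 := 3) (En := eng) (mo := mog) (C1 := cd1q0) (C2 := cd1q2a) (C3 := pd3)
    rfl (fun _ => rfl) k0_pp_023_a

noncomputable def f_pp_023_b : ℕ → ℕ → ℕ → ℕ → Bool := onCell 1610612736 536870912 1239849684 370763052 991146299 28908434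
    (rowB 3 eng mog cd1q0 cd1q2b pd3 2 true true true .up 0 2 3 (qsf 0 536870912 1239849684 370763052 3) ndB1q0 ndB1q2b pcB3 Cut.none Ext.none)

def k0_pp_023_b : ∃ t, chk3 f_pp_023_b t 1 1 1 = true :=
  ⟨(a (a (a (b (l 4) (b (a (l 15879352) (l 4)) (a (l 15461144) (l 15633592)))) (l 4)) (l 4)) (l 4)), by decide +kernel⟩

theorem c_pp_023_b : CertB 0 536870912 1239849684 370763052 991146299 28908434 3 eng mog cd1q0 cd1q2b pd3 true true true .up 0 2 3
    ndB1q0 ndB1q2b pcB3 Cut.none Ext.none :=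
  certB2 (fam := true) (s1 := true) (s2 := true) (a := 0) (b := 2) (c := 3) (cn := .up) (n1 := ndB1q0) (n2 := ndB1q2b) (pc := pcB3) (cut := Cut.none) (xt := Ext.none) (P1 := 0) (W1 := 536870912) (P2 := 1239849684) (W2 := 370763052) (P3 := 991146299) (W3 := 28908434) (N0 := 3) (En := eng) (mo := mog) (C1 := cd1q0) (C2 := cd1q2b) (C3 := pd3)
    rfl (fun _ => rfl) k0_pp_023_b

noncomputable def f_pp_033 : ℕ → ℕ → ℕ → ℕ → Bool := onCell 0 536870912 1610612736 536870912 991146299 28908434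
    (rowB 3 eng mog cd1q0 cd1q3 pd3 1 true true true .pnn 0 3 3 (qsf 0 536870912 1610612736 536870912 3) ndB1q0 ndB1q3 pcB3 Cut.none Ext.none)

def k0_pp_033 : ∃ t, chk3 f_pp_033 t 1 1 1 = true :=
  ⟨(b (b (a (b (a (a (b (l 15408496) (l 15280392)) (b (l 1) (l 4))) (l 1)) (l 4)) (l 1)) (l 4)) (l 4)), by decide +kernel⟩

theorem c_pp_033 : CertB 0 536870912 1610612736 536870912 991146299 28908434 3 eng mog cd1q0 cd1q3 pd3 true true true .pnn 0 3 3
    ndB1q0 ndB1q3 pcB3 Cut.none Ext.none :=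
  certB1 (fam := true) (s1 := true) (s2 := true) (a := 0) (b := 3) (c := 3) (cn := .pnn) (n1 := ndB1q0) (n2 := ndB1q3) (pc := pcB3) (cut := Cut.none) (xt := Ext.none) (P1 := 0) (W1 := 536870912) (P2 := 1610612736) (W2 := 536870912) (P3 := 991146299) (W3 := 28908434) (N0 := 3) (En := eng) (mo := mog) (C1 := cd1q0) (C2 := cd1q3) (C3 := pd3)
    rfl (fun _ => rfl) k0_pp_033

noncomputable def f_pp_101 : ℕ → ℕ → ℕ → ℕ → Bool := onCell 536870912 536870912 0 536870912 991146299 28908434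
    (rowB 3 eng mog cd1q1 cd1q0 pd1 0 true true true .npn 1 0 1 (qsf 536870912 536870912 0 536870912 1) ndB1q1 ndB1q0 pcB1 Cut.none Ext.none)

def k0_pp_101 : ∃ t, chk3 f_pp_101 t 1 1 1 = true :=
  ⟨(l 4), by decide +kernel⟩

theorem c_pp_101 : CertB 536870912 536870912 0 536870912 991146299 28908434 3 eng mog cd1q1 cd1q0 pd1 true true true .npn 1 0 1
    ndB1q1 ndB1q0 pcB1 Cut.none Ext.none :=
  certB0 (fam := true) (s1 := true) (s2 := true) (a := 1) (b := 0) (c := 1) (cn := .npn) (n1 := ndB1q1) (n2 := ndB1q0) (pc := pcB1) (cut := Cut.none) (xt := Ext.none) (P1 := 536870912) (W1 := 536870912) (P2 := 0) (W2 := 536870912) (P3 := 991146299) (W3 := 28908434) (N0 := 3) (En := eng) (mo := mog) (C1 := cd1q1) (C2 := cd1q0) (C3 := pd1)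
    rfl k0_pp_101

noncomputable def f_pp_102 : ℕ → ℕ → ℕ → ℕ → Bool := onCell 536870912 536870912 0 536870912 991146299 28908434
    (rowB 3 eng mog cd1q1 cd1q0 pd2 0 true true true .npp 1 0 2 (qsf 536870912 536870912 0 536870912 2) ndB1q1 ndB1q0 pcB2 Cut.none Ext.none)

def k0_pp_102 : ∃ t, chk3 f_pp_102 t 1 1 1 = true :=
  ⟨(l 4), by decide +kernel⟩

theorem c_pp_102 : CertB 536870912 536870912 0 536870912 991146299 28908434 3 eng mog cd1q1 cd1q0 pd2 true true true .npp 1 0 2
    ndB1q1 ndB1q0 pcB2 Cut.none Ext.none :=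
  certB0 (fam := true) (s1 := true) (s2 := true) (a := 1) (b := 0) (c := 2) (cn := .npp) (n1 := ndB1q1) (n2 := ndB1q0) (pc := pcB2) (cut := Cut.none) (xt := Ext.none) (P1 := 536870912) (W1 := 536870912) (P2 := 0) (W2 := 536870912) (P3 := 991146299) (W3 := 28908434) (N0 := 3) (En := eng) (mo := mog) (C1 := cd1q1) (C2 := cd1q0) (C3 := pd2)
    rfl k0_pp_102

noncomputable def f_pp_112 : ℕ → ℕ → ℕ → ℕ → Bool := onCell 536870912 536870912 536870912 536870912 991146299 28908434
    (rowB 3 eng mog cd1q1 cd1q1 pd2 0 true true true .dn 1 1 2 (qsf 536870912 536870912 536870912 536870912 2) ndB1q1 ndB1q1 pcB2 Cut.none Ext.none)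

def k0_pp_112 : ∃ t, chk3 f_pp_112 t 1 1 1 = true :=
  ⟨(l 4), by decide +kernel⟩

theorem c_pp_112 : CertB 536870912 536870912 536870912 536870912 991146299 28908434 3 eng mog cd1q1 cd1q1 pd2 true true true .dn 1 1 2
    ndB1q1 ndB1q1 pcB2 Cut.none Ext.none :=
  certB0 (fam := true) (s1 := true) (s2 := true) (a := 1) (b := 1) (c := 2) (cn := .dn) (n1 := ndB1q1) (n2 := ndB1q1) (pc := pcB2) (cut := Cut.none) (xt := Ext.none) (P1 := 536870912) (W1 := 536870912) (P2 := 536870912) (W2 := 536870912) (P3 := 991146299) (W3 := 28908434) (N0 := 3) (En := eng) (mo := mog) (C1 := cd1q1) (C2 := cd1q1) (C3 := pd2)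
    rfl k0_pp_112

noncomputable def f_pp_113 : ℕ → ℕ → ℕ → ℕ → Bool := onCell 536870912 536870912 536870912 536870912 991146299 28908434
    (rowB 3 eng mog cd1q1 cd1q1 pd3 0 true true true .nn 1 1 3 (qsf 536870912 536870912 536870912 536870912 3) ndB1q1 ndB1q1 pcB3 Cut.none Ext.none)

def k0_pp_113 : ∃ t, chk3 f_pp_113 t 1 1 1 = true :=
  ⟨(l 4), by decide +kernel⟩

theorem c_pp_113 : CertB 536870912 536870912 536870912 536870912 991146299 28908434 3 eng mog cd1q1 cd1q1 pd3 true true true .nn 1 1 3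
    ndB1q1 ndB1q1 pcB3 Cut.none Ext.none :=
  certB0 (fam := true) (s1 := true) (s2 := true) (a := 1) (b := 1) (c := 3) (cn := .nn) (n1 := ndB1q1) (n2 := ndB1q1) (pc := pcB3) (cut := Cut.none) (xt := Ext.none) (P1 := 536870912) (W1 := 536870912) (P2 := 536870912) (W2 := 536870912) (P3 := 991146299) (W3 := 28908434) (N0 := 3) (En := eng) (mo := mog) (C1 := cd1q1) (C2 := cd1q1) (C3 := pd3)
    rfl k0_pp_113

noncomputable def f_pp_123_a : ℕ → ℕ → ℕ → ℕ → Bool := onCell 536870912 536870912 0 536870912 991146299 28908434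
    (rowB 3 eng mog cd1q1 cd1q2a pd3 0 true true true .npn 1 2 3 (qsf 536870912 536870912 0 536870912 3) ndB1q1 ndB1q2a pcB3 Cut.none Ext.none)

def k0_pp_123_a : ∃ t, chk3 f_pp_123_a t 1 1 1 = true :=
  ⟨(l 4), by decide +kernel⟩

theorem c_pp_123_a : CertB 536870912 536870912 0 536870912 991146299 28908434 3 eng mog cd1q1 cd1q2a pd3 true true true .npn 1 2 3
    ndB1q1 ndB1q2a pcB3 Cut.none Ext.none :=
  certB0 (fam := true) (s1 := true) (s2 := true) (a := 1) (b := 2) (c := 3) (cn := .npn) (n1 := ndB1q1) (n2 := ndB1q2a) (pc := pcB3) (cut := Cut.none) (xt := Ext.none) (P1 := 536870912) (W1 := 536870912) (P2 := 0) (W2 := 536870912) (P3 := 991146299) (W3 := 28908434) (N0 := 3) (En := eng) (mo := mog) (C1 := cd1q1) (C2 := cd1q2a) (C3 := pd3)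
    rfl k0_pp_123_a

noncomputable def f_pp_123_b : ℕ → ℕ → ℕ → ℕ → Bool := onCell 536870912 536870912 1239849684 370763052 991146299 28908434
    (rowB 3 eng mog cd1q1 cd1q2b pd3 0 true true true .npn 1 2 3 (qsf 536870912 536870912 1239849684 370763052 3) ndB1q1 ndB1q2b pcB3 Cut.none Ext.none)

def k0_pp_123_b : ∃ t, chk3 f_pp_123_b t 1 1 1 = true :=
  ⟨(l 4), by decide +kernel⟩

theorem c_pp_123_b : CertB 536870912 536870912 1239849684 370763052 991146299 28908434 3 eng mog cd1q1 cd1q2b pd3 true true true .npn 1 2 3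
    ndB1q1 ndB1q2b pcB3 Cut.none Ext.none :=
  certB0 (fam := true) (s1 := true) (s2 := true) (a := 1) (b := 2) (c := 3) (cn := .npn) (n1 := ndB1q1) (n2 := ndB1q2b) (pc := pcB3) (cut := Cut.none) (xt := Ext.none) (P1 := 536870912) (W1 := 536870912) (P2 := 1239849684) (W2 := 370763052) (P3 := 991146299) (W3 := 28908434) (N0 := 3) (En := eng) (mo := mog) (C1 := cd1q1) (C2 := cd1q2b) (C3 := pd3)
    rfl k0_pp_123_b

noncomputable def f_pp_133 : ℕ → ℕ → ℕ → ℕ → Bool := onCell 536870912 536870912 1610612736 536870912 991146299 28908434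
    (rowB 3 eng mog cd1q1 cd1q3 pd3 0 true true true .dn 1 3 3 (qsf 536870912 536870912 1610612736 536870912 3) ndB1q1 ndB1q3 pcB3 Cut.none Ext.none)

def k0_pp_133 : ∃ t, chk3 f_pp_133 t 1 1 1 = true :=
  ⟨(l 4), by decide +kernel⟩

theorem c_pp_133 : CertB 536870912 536870912 1610612736 536870912 991146299 28908434 3 eng mog cd1q1 cd1q3 pd3 true true true .dn 1 3 3
    ndB1q1 ndB1q3 pcB3 Cut.none Ext.none :=
  certB0 (fam := true) (s1 := true) (s2 := true) (a := 1) (b := 3) (c := 3) (cn := .dn) (n1 := ndB1q1) (n2 := ndB1q3) (pc := pcB3) (cut := Cut.none) (xt := Ext.none) (P1 := 536870912) (W1 := 536870912) (P2 := 1610612736) (W2 := 536870912) (P3 := 991146299) (W3 := 28908434) (N0 := 3) (En := eng) (mo := mog) (C1 := cd1q1) (C2 := cd1q3) (C3 := pd3)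
    rfl k0_pp_133

noncomputable def f_pp_202_a : ℕ → ℕ → ℕ → ℕ → Bool := onCell 0 536870912 0 536870912 991146299 28908434
    (rowB 3 eng mog cd1q2a cd1q0 pd2 0 true true true .pp 2 0 2 (qsf 0 536870912 0 536870912 2) ndB1q2a ndB1q0 pcB2 Cut.none Ext.none)

def k0_pp_202_a : ∃ t, chk3 f_pp_202_a t 1 1 1 = true :=
  ⟨(l 5), by decide +kernel⟩

theorem c_pp_202_a : CertB 0 536870912 0 536870912 991146299 28908434 3 eng mog cd1q2a cd1q0 pd2 true true true .pp 2 0 2
    ndB1q2a ndB1q0 pcB2 Cut.none Ext.none :=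
  certB0 (fam := true) (s1 := true) (s2 := true) (a := 2) (b := 0) (c := 2) (cn := .pp) (n1 := ndB1q2a) (n2 := ndB1q0) (pc := pcB2) (cut := Cut.none) (xt := Ext.none) (P1 := 0) (W1 := 536870912) (P2 := 0) (W2 := 536870912) (P3 := 991146299) (W3 := 28908434) (N0 := 3) (En := eng) (mo := mog) (C1 := cd1q2a) (C2 := cd1q0) (C3 := pd2)
    rfl k0_pp_202_a

noncomputable def f_pp_202_b : ℕ → ℕ → ℕ → ℕ → Bool := onCell 1239849684 370763052 0 536870912 991146299 28908434
    (rowB 3 eng mog cd1q2b cd1q0 pd2 0 true true true .pp 2 0 2 (qsf 1239849684 370763052 0 536870912 2) ndB1q2b ndB1q0 pcB2 Cut.none Ext.none)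

def k0_pp_202_b : ∃ t, chk3 f_pp_202_b t 1 1 1 = true :=
  ⟨(l 5), by decide +kernel⟩

theorem c_pp_202_b : CertB 1239849684 370763052 0 536870912 991146299 28908434 3 eng mog cd1q2b cd1q0 pd2 true true true .pp 2 0 2
    ndB1q2b ndB1q0 pcB2 Cut.none Ext.none :=
  certB0 (fam := true) (s1 := true) (s2 := true) (a := 2) (b := 0) (c := 2) (cn := .pp) (n1 := ndB1q2b) (n2 := ndB1q0) (pc := pcB2) (cut := Cut.none) (xt := Ext.none) (P1 := 1239849684) (W1 := 370763052) (P2 := 0) (W2 := 536870912) (P3 := 991146299) (W3 := 28908434) (N0 := 3) (En := eng) (mo := mog) (C1 := cd1q2b) (C2 := cd1q0) (C3 := pd2)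
    rfl k0_pp_202_b

noncomputable def f_pp_203_a : ℕ → ℕ → ℕ → ℕ → Bool := onCell 0 536870912 0 536870912 991146299 28908434
    (rowB 3 eng mog cd1q2a cd1q0 pd3 0 true true true .up 2 0 3 (qsf 0 536870912 0 536870912 3) ndB1q2a ndB1q0 pcB3 Cut.none Ext.none)

def k0_pp_203_a : ∃ t, chk3 f_pp_203_a t 1 1 1 = true :=
  ⟨(l 5), by decide +kernel⟩

theorem c_pp_203_a : CertB 0 536870912 0 536870912 991146299 28908434 3 eng mog cd1q2a cd1q0 pd3 true true true .up 2 0 3
    ndB1q2a ndB1q0 pcB3 Cut.none Ext.none :=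
  certB0 (fam := true) (s1 := true) (s2 := true) (a := 2) (b := 0) (c := 3) (cn := .up) (n1 := ndB1q2a) (n2 := ndB1q0) (pc := pcB3) (cut := Cut.none) (xt := Ext.none) (P1 := 0) (W1 := 536870912) (P2 := 0) (W2 := 536870912) (P3 := 991146299) (W3 := 28908434) (N0 := 3) (En := eng) (mo := mog) (C1 := cd1q2a) (C2 := cd1q0) (C3 := pd3)
    rfl k0_pp_203_a

noncomputable def f_pp_203_b : ℕ → ℕ → ℕ → ℕ → Bool := onCell 1239849684 370763052 0 536870912 991146299 28908434
    (rowB 3 eng mog cd1q2b cd1q0 pd3 0 true true true .up 2 0 3 (qsf 1239849684 370763052 0 536870912 3) ndB1q2b ndB1q0 pcB3 Cut.none Ext.none)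

def k0_pp_203_b : ∃ t, chk3 f_pp_203_b t 1 1 1 = true :=
  ⟨(l 5), by decide +kernel⟩

theorem c_pp_203_b : CertB 1239849684 370763052 0 536870912 991146299 28908434 3 eng mog cd1q2b cd1q0 pd3 true true true .up 2 0 3
    ndB1q2b ndB1q0 pcB3 Cut.none Ext.none :=
  certB0 (fam := true) (s1 := true) (s2 := true) (a := 2) (b := 0) (c := 3) (cn := .up) (n1 := ndB1q2b) (n2 := ndB1q0) (pc := pcB3) (cut := Cut.none) (xt := Ext.none) (P1 := 1239849684) (W1 := 370763052) (P2 := 0) (W2 := 536870912) (P3 := 991146299) (W3 := 28908434) (N0 := 3) (En := eng) (mo := mog) (C1 := cd1q2b) (C2 := cd1q0) (C3 := pd3)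
    rfl k0_pp_203_b

noncomputable def f_pp_213_a : ℕ → ℕ → ℕ → ℕ → Bool := onCell 0 536870912 536870912 536870912 991146299 28908434
    (rowB 3 eng mog cd1q2a cd1q1 pd3 0 true true true .pnn 2 1 3 (qsf 0 536870912 536870912 536870912 3) ndB1q2a ndB1q1 pcB3 Cut.none Ext.none)

def k0_pp_213_a : ∃ t, chk3 f_pp_213_a t 1 1 1 = true :=
  ⟨(l 4), by decide +kernel⟩

theorem c_pp_213_a : CertB 0 536870912 536870912 536870912 991146299 28908434 3 eng mog cd1q2a cd1q1 pd3 true true true .pnn 2 1 3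
    ndB1q2a ndB1q1 pcB3 Cut.none Ext.none :=
  certB0 (fam := true) (s1 := true) (s2 := true) (a := 2) (b := 1) (c := 3) (cn := .pnn) (n1 := ndB1q2a) (n2 := ndB1q1) (pc := pcB3) (cut := Cut.none) (xt := Ext.none) (P1 := 0) (W1 := 536870912) (P2 := 536870912) (W2 := 536870912) (P3 := 991146299) (W3 := 28908434) (N0 := 3) (En := eng) (mo := mog) (C1 := cd1q2a) (C2 := cd1q1) (C3 := pd3)
    rfl k0_pp_213_a

noncomputable def f_pp_213_b : ℕ → ℕ → ℕ → ℕ → Bool := onCell 1239849684 370763052 536870912 536870912 991146299 28908434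
    (rowB 3 eng mog cd1q2b cd1q1 pd3 0 true true true .pnn 2 1 3 (qsf 1239849684 370763052 536870912 536870912 3) ndB1q2b ndB1q1 pcB3 Cut.none Ext.none)

def k0_pp_213_b : ∃ t, chk3 f_pp_213_b t 1 1 1 = true :=
  ⟨(l 4), by decide +kernel⟩

theorem c_pp_213_b : CertB 1239849684 370763052 536870912 536870912 991146299 28908434 3 eng mog cd1q2b cd1q1 pd3 true true true .pnn 2 1 3
    ndB1q2b ndB1q1 pcB3 Cut.none Ext.none :=
  certB0 (fam := true) (s1 := true) (s2 := true) (a := 2) (b := 1) (c := 3) (cn := .pnn) (n1 := ndB1q2b) (n2 := ndB1q1) (pc := pcB3) (cut := Cut.none) (xt := Ext.none) (P1 := 1239849684) (W1 := 370763052) (P2 := 536870912) (W2 := 536870912) (P3 := 991146299) (W3 := 28908434) (N0 := 3) (En := eng) (mo := mog) (C1 := cd1q2b) (C2 := cd1q1) (C3 := pd3)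
    rfl k0_pp_213_b

noncomputable def f_pp_303 : ℕ → ℕ → ℕ → ℕ → Bool := onCell 1610612736 536870912 0 536870912 991146299 28908434
    (rowB 3 eng mog cd1q3 cd1q0 pd3 0 true true true .npn 3 0 3 (qsf 1610612736 536870912 0 536870912 3) ndB1q3 ndB1q0 pcB3 Cut.none Ext.none)

def k0_pp_303 : ∃ t, chk3 f_pp_303 t 1 1 1 = true :=
  ⟨(l 5), by decide +kernel⟩

theorem c_pp_303 : CertB 1610612736 536870912 0 536870912 991146299 28908434 3 eng mog cd1q3 cd1q0 pd3 true true true .npn 3 0 3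
    ndB1q3 ndB1q0 pcB3 Cut.none Ext.none :=
  certB0 (fam := true) (s1 := true) (s2 := true) (a := 3) (b := 0) (c := 3) (cn := .npn) (n1 := ndB1q3) (n2 := ndB1q0) (pc := pcB3) (cut := Cut.none) (xt := Ext.none) (P1 := 1610612736) (W1 := 536870912) (P2 := 0) (W2 := 536870912) (P3 := 991146299) (W3 := 28908434) (N0 := 3) (En := eng) (mo := mog) (C1 := cd1q3) (C2 := cd1q0) (C3 := pd3)
    rfl k0_pp_303

noncomputable def f_pp_313 : ℕ → ℕ → ℕ → ℕ → Bool := onCell 1610612736 536870912 536870912 536870912 991146299 28908434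
    (rowB 3 eng mog cd1q3 cd1q1 pd3 0 true true true .dn 3 1 3 (qsf 1610612736 536870912 536870912 536870912 3) ndB1q3 ndB1q1 pcB3 Cut.none Ext.none)

def k0_pp_313 : ∃ t, chk3 f_pp_313 t 1 1 1 = true :=
  ⟨(l 4), by decide +kernel⟩

theorem c_pp_313 : CertB 1610612736 536870912 536870912 536870912 991146299 28908434 3 eng mog cd1q3 cd1q1 pd3 true true true .dn 3 1 3
    ndB1q3 ndB1q1 pcB3 Cut.none Ext.none :=
  certB0 (fam := true) (s1 := true) (s2 := true) (a := 3) (b := 1) (c := 3) (cn := .dn) (n1 := ndB1q3) (n2 := ndB1q1) (pc := pcB3) (cut := Cut.none) (xt := Ext.none) (P1 := 1610612736) (W1 := 536870912) (P2 := 536870912) (W2 := 536870912) (P3 := 991146299) (W3 := 28908434) (N0 := 3) (En := eng) (mo := mog) (C1 := cd1q3) (C2 := cd1q1) (C3 := pd3)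
    rfl k0_pp_313

noncomputable def f_pm_001 : ℕ → ℕ → ℕ → ℕ → Bool := onCell 0 536870912 0 536870912 991146299 28908434
    (rowB 3 eng mog cd1q0 cd1q0 pd1 0 true true false .up 0 0 1 (qsf 0 536870912 0 536870912 1) ndB1q0 ndB1q0 pcB1 Cut.none Ext.none)

def k0_pm_001 : ∃ t, chk3 f_pm_001 t 1 1 1 = true :=
  ⟨(l 3), by decide +kernel⟩

theorem c_pm_001 : CertB 0 536870912 0 536870912 991146299 28908434 3 eng mog cd1q0 cd1q0 pd1 true true false .up 0 0 1
    ndB1q0 ndB1q0 pcB1 Cut.none Ext.none :=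
  certB0 (fam := true) (s1 := true) (s2 := false) (a := 0) (b := 0) (c := 1) (cn := .up) (n1 := ndB1q0) (n2 := ndB1q0) (pc := pcB1) (cut := Cut.none) (xt := Ext.none) (P1 := 0) (W1 := 536870912) (P2 := 0) (W2 := 536870912) (P3 := 991146299) (W3 := 28908434) (N0 := 3) (En := eng) (mo := mog) (C1 := cd1q0) (C2 := cd1q0) (C3 := pd1)
    rfl k0_pm_001

noncomputable def f_pm_011 : ℕ → ℕ → ℕ → ℕ → Bool := onCell 0 536870912 536870912 536870912 991146299 28908434
    (rowB 3 eng mog cd1q0 cd1q1 pd1 1 true true false .pnn 0 1 1 (qsf 0 536870912 536870912 536870912 1) ndB1q0 ndB1q1 pcB1 Cut.none Ext.none)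

def k0_pm_011 : ∃ t, chk3 f_pm_011 t 1 1 1 = true :=
  ⟨(l 3), by decide +kernel⟩

theorem c_pm_011 : CertB 0 536870912 536870912 536870912 991146299 28908434 3 eng mog cd1q0 cd1q1 pd1 true true false .pnn 0 1 1
    ndB1q0 ndB1q1 pcB1 Cut.none Ext.none :=
  certB1 (fam := true) (s1 := true) (s2 := false) (a := 0) (b := 1) (c := 1) (cn := .pnn) (n1 := ndB1q0) (n2 := ndB1q1) (pc := pcB1) (cut := Cut.none) (xt := Ext.none) (P1 := 0) (W1 := 536870912) (P2 := 536870912) (W2 := 536870912) (P3 := 991146299) (W3 := 28908434) (N0 := 3) (En := eng) (mo := mog) (C1 := cd1q0) (C2 := cd1q1) (C3 := pd1)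
    rfl (fun _ => rfl) k0_pm_011

noncomputable def f_pm_012 : ℕ → ℕ → ℕ → ℕ → Bool := onCell 1073741824 536870912 536870912 536870912 991146299 28908434
    (rowB 3 eng mog cd1q0 cd1q1 pd2 2 true true false .pnp 0 1 2 (qsf 0 536870912 536870912 536870912 2) ndB1q0 ndB1q1 pcB2 Cut.none Ext.none)

def k0_pm_012 : ∃ t, chk3 f_pm_012 t 2 1 1 = true :=
  ⟨(a (a (l 3) (b (l 3) (b (l 3) (a (l 3) (b (a (l 3) (b (l 3) (a (l 3) (l 16393040)))) (a (a (l 3) (b (l 3) (b (l 3) (l 16367344)))) (a (b (b (l 3) (l 16369760)) (b (l 16353592) (l 16340160))) (b (l 16330968) (b (l 16326744) (l 16313432)))))))))) (b (a (a (a (l 3) (b (l 2) (a (b (l 3) (l 3)) (a (b (l 16646168) (l 16643000)) (b (l 16648936) (l 16676392)))))) (b (l 2) (b (l 16637688) (l 16597472)))) (b (l 2) (b (b (l 2) (l 16661264)) (l 16426672)))) (a (a (a (b (b (l 3) (a (l 3) (b (l 16502424) (l 16444440)))) (b (a (b (l 16415264) (l 16366904)) (b (l 16390168) (l 16341168))) (b (a (l 16325480) (l 16280000)) (a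 (b (l 16300496) (l 16288952)) (b (l 16278848) (l 16272232)))))) (b (a (b (l 167670804647) (b (l 16479688) (l 16420616))) (a (b (l 16536408) (l 16328456)) (b (l 16443104) (b (l 16454056) (l 16397048))))) (a (b (b (l 16365936) (l 16276552)) (b (b (l 16289496) (l 16276224)) (l 16262712))) (a (b (b (l 16350464) (l 16307296)) (b (l 16274296) (l 16253872))) (b (b (l 16346840) (l 16303784)) (b (a (l 16271528) (l 16269456)) (a (l 16250600) (l 16248112)))))))) (b (b (l 16441176) (b (l 16408752) (l 16350968))) (b (b (l 16299104) (l 16255056)) (b (l 16221168) (b (l 16204000) (l 16197544)))))) (b (b (b (l 16436312) (l 16360848)) (b (l 16291280) (l 16227496))) (b (b (l 16171120) (a (l 16166464) (l 16083816))) (b (a (l 16132232) (l 16048832)) (a (l 16112848) (l 16030312)))))))), by decide +kernel⟩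

def k1_pm_012 : ∃ t, chk3 f_pm_012 t 3 1 1 = true :=
  ⟨(b (a (b (l 2) (b (l 2) (a (l 16463816) (l 2)))) (l 2)) (b (a (b (a (l 16221408) (l 16200720)) (a (b (l 16159144) (l 16086176)) (l 15949552))) (b (l 2) (a (l 15931848) (l 2)))) (b (a (a (b (l 16022504) (l 15970624)) (b (l 15898768) (l 15839928))) (a (l 15764744) (l 15686448))) (a (a (b (l 15933616) (l 15831512)) (b (l 15798432) (a (l 15810744) (l 15745184)))) (a (b (l 15683936) (a (l 15683816) (l 15626792))) (b (l 15590512) (b (l 15564192) (l 15539360)))))))), by decide +kernel⟩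

theorem s2_pm_012 : ∃ t, chk3 f_pm_012 t 1 1 1 = true := ex3_a k0_pm_012 k1_pm_012

theorem c_pm_012 : CertB 0 536870912 536870912 536870912 991146299 28908434 3 eng mog cd1q0 cd1q1 pd2 true true false .pnp 0 1 2
    ndB1q0 ndB1q1 pcB2 Cut.none Ext.none :=
  certB2 (fam := true) (s1 := true) (s2 := false) (a := 0) (b := 1) (c := 2) (cn := .pnp) (n1 := ndB1q0) (n2 := ndB1q1) (pc := pcB2) (cut := Cut.none) (xt := Ext.none) (P1 := 0) (W1 := 536870912) (P2 := 536870912) (W2 := 536870912) (P3 := 991146299) (W3 := 28908434) (N0 := 3) (En := eng) (mo := mog) (C1 := cd1q0) (C2 := cd1q1) (C3 := pd2)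
    rfl (fun _ => rfl) s2_pm_012

noncomputable def cut_pm_022_a : Cut := Cut.of [[⟨0, 0, 0, 53687091⟩, ⟨1, 1, 0, 53687091⟩, ⟨2, 1, 0, 53687091⟩]]

noncomputable def f_pm_022_a : ℕ → ℕ → ℕ → ℕ → Bool := onCell 1073741824 536870912 0 536870912 991146299 28908434
    (rowB 3 eng mog cd1q0 cd1q2a pd2 2 true true false .pp 0 2 2 (qsf 0 536870912 0 536870912 2) ndB1q0 ndB1q2a pcB2 cut_pm_022_a Ext.none)

def k0_pm_022_a : ∃ t, chk3 f_pm_022_a t 2 2 1 = true :=
  ⟨(a (a (l 1) (b (l 1) (a (l 1) (a (l 1) (a (l 1) (b (l 1) (c (l 16213064) (l 16148976)))))))) (a (b (a (a (l 1) (b (l 16049592) (a (l 16139072) (l 16187240)))) (a (b (l 16237768) (l 16217632)) (b (l 16341688) (l 16355752)))) (b (a (c (a (l 16165144) (l 16245592)) (a (l 16107296) (l 16202632))) (a (l 16249632) (l 16379536))) (a (a (c (l 16162328) (l 16107800)) (c (l 16318728) (l 16298232))) (c (l 16322768) (l 16280456))))) (b (a (b (l 16291040) (l 16303432)) (a (b (l 16330608) (l 16350448)) (b (l 16247296)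 (l 16271896)))) (a (b (a (l 16487832) (l 16432872)) (a (l 16488840) (l 16416720))) (b (a (l 16357424) (l 16283400)) (c (l 16325768) (l 16295360))))))), by decide +kernel⟩

def k1_pm_022_a : ∃ t, chk3 f_pm_022_a t 8 3 1 = true :=
  ⟨(b (l 1) (a (b (l 1) (l 6)) (a (b (b (l 1) (b (l 1) (l 6))) (l 6)) (b (b (a (l 1) (b (l 1) (c (b (l 16465424) (l 16467088)) (c (b (l 16418032) (l 16442600)) (l 16377280))))) (b (b (a (a (l 1) (c (l 16490824) (l 16431208))) (c (l 16490408) (l 16432008))) (a (c (a (l 16502728) (l 16515568)) (a (l 16445424) (l 16458824))) (c (l 16535368) (l 16479696)))) (a (c (b (l 16492848) (l 16540192)) (c (l 16446000) (l 16418968))) (c (l 16530792) (l 16479336))))) (b (b (a (c (l 16539184) (l 16492896)) (c (l 16582744) (l 16558096))) (a (c (l 16595912) (l 16577096)) (l 16554888))) (b (c (l 16598032) (l 16609912)) (a (c (l 16619880) (l 16624952)) (c (l 16609592) (l 16615232))))))))), by decide +kernel⟩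

def k2_pm_022_a : ∃ t, chk3 f_pm_022_a t 9 6 1 = true :=
  ⟨(a (b (l 1) (a (a (l 1) (b (l 1) (b (a (l 1) (c (l 16412960) (l 16343680))) (c (b (c (l 16463512) (l 16431008)) (l 16467520)) (b (c (l 16397496) (l 16362968)) (l 16402552)))))) (a (a (b (l 1) (b (c (l 16425384) (l 16357928)) (c (l 16438304) (l 16353960)))) (b (c (l 46740487111) (l 165388952743)) (c (b (l 16437904) (l 16473176)) (b (l 16372304) (l 16411632))))) (b (c (b (l 16349768) (l 16402056)) (b (l 16279856) (l 16335632))) (b (c (l 16456840) (l 16394104)) (c (l 16471448) (l 16433616))))))) (b (a (c (b (l 16234592) (a (l 16306080) (l 16336000))) (b (l 16119800) (a (l 16236024) (l 16270800)))) (c (b (l 16299368) (l 16339440)) (b (l 16237376) (l 16302744)))) (c (a (b (a (l 16340464) (l 16430944)) (a (l 16426576) (l 16472552))) (c (l 16346840) (c (l 16370840) (l 16358616)))) (b (a (a (l 16276560) (l 16371456)) (l 16357168)) (a (a (l 16390584) (l 16440528)) (l 16421624)))))), by decide +kernel⟩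

def k3_pm_022_a : ∃ t, chk3 f_pm_022_a t 9 7 1 = true :=
  ⟨(b (a (b (a (c (a (b (b (l 16454072) (l 16474448)) (l 16443480)) (b (l 16475248) (l 16515656))) (a (b (c (l 16416048) (l 16382672)) (c (l 16461656) (l 16430696))) (b (l 16392432) (l 16479144)))) (c (a (l 16464104) (l 16474864)) (a (b (l 16469840) (l 16512712)) (l 16421608)))) (a (c (b (b (l 16491072) (l 16513656)) (l 16527872)) (a (b (l 16475040) (l 16527616)) (l 16447272))) (c (l 16513816) (a (l 16498800) (l 16530016))))) (b (a (b (c (l 16498064) (l 16448504)) (l 16495728)) (c (a (l 16516376) (l 16504928)) (l 16464256))) (a (a (l 16524792) (l 16485216)) (b (l 16459320) (l 16455120))))) (a (b (a (c (b (l 16576832) (l 16622392)) (a (l 16528392) (l 16574464))) (b (l 16519024) (l 16504552))) (a (b (a (l 16574928) (l 16560752)) (c (l 16496960) (l 16544440))) (b (l 16442976) (c (l 16510504) (l 16535336))))) (a (b (c (l 16470624) (l 16483432)) (c (l 16374640) (l 16419912))) (b (c (l 16457600) (l 16464968))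 (c (l 16361656) (l 16381448)))))), by decide +kernel⟩

def k4_pm_022_a : ∃ t, chk3 f_pm_022_a t 5 3 1 = true :=
  ⟨(b (c (a (a (a (b (a (l 16346360) (l 16378136)) (l 16430184)) (b (l 16404952) (l 16454480))) (b (l 16429672) (b (l 16473872) (l 16377928)))) (b (a (l 16408656) (l 16286848)) (a (l 16223600) (l 16213616)))) (a (a (b (b (l 16185440) (l 16284424)) (b (l 16350944) (l 16428424))) (b (l 16375104) (c (l 16377744) (l 16387768)))) (b (a (l 16387152) (l 16263104)) (a (l 16223536) (l 16193784))))) (b (a (a (a (b (a (l 16428432) (l 16417056)) (a (l 16472272) (l 16349576))) (b (c (l 16440568) (l 16467272)) (a (b (l 16411200) (l 16382368)) (a (l 16327832) (a (l 16314720) (c (l 16277072) (l 16337224))))))) (b (c (l 16269552) (l 16284328)) (c (a (l 16305536) (l 16246840)) (a (l 16319664) (l 16253696))))) (a (c (b (l 16239832) (a (l 16190280) (l 16135952))) (b (l 16237944) (l 16075032))) (c (b (l 16130448) (l 16057352)) (b (l 16111344) (l 16037336))))) (a (a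 (a (b (c (l 16381648) (l 16403840)) (c (l 16263408) (l 16319736))) (a (b (l 16333432) (l 16167408)) (a (b (l 16303584) (l 16219496)) (a (b (l 16287944) (l 16202016)) (b (l 16235496) (c (l 16187680) (l 16192800))))))) (b (c (l 16202856) (l 16208008)) (c (b (l 16143024) (l 16096624)) (l 16076632)))) (b (b (a (c (l 16099744) (l 16092432)) (c (l 15972152) (l 15971664))) (a (l 16056760) (c (l 15927608) (l 15925376)))) (a (c (l 16000128) (l 15985952)) (c (l 15866280) (l 15860448))))))), by decide +kernel⟩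

def k5_pm_022_a : ∃ t, chk3 f_pm_022_a t 3 2 1 = true :=
  ⟨(b (a (a (a (b (l 15895392) (l 15947768)) (c (l 16053328) (l 15697992))) (a (c (l 15929384) (b (l 15743536) (l 15801808))) (c (l 15815496) (b (l 15595384) (l 15661736))))) (a (c (a (l 15712608) (l 15621616)) (a (b (l 15461104) (l 15534528)) (b (l 15341960) (l 15421400)))) (b (c (a (l 15515568) (l 15451960)) (a (l 15239128) (l 15157136))) (c (l 15538216) (a (l 15323480) (l 15241832)))))) (a (a (a (b (l 15965832) (c (l 16202608) (l 16145648))) (b (c (l 16086696) (l 15988376)) (c (l 16086248) (l 16003256)))) (a (c (l 15975488) (b (l 15845728) (l 15869608))) (c (l 15872936) (b (l 15713792) (l 15746000))))) (a (a (b (a (l 15709608) (l 15658808)) (l 15712016)) (b (l 15661904) (l 15622408))) (c (b (l 15583168) (l 15611232)) (b (l 15390840) (l 15409272)))))), by decide +kernel⟩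

def k6_pm_022_a : ∃ t, chk3 f_pm_022_a t 3 3 1 = true :=
  ⟨(a (b (a (a (b (c (l 16170448) (l 16123480)) (c (l 16104152) (l 16064416))) (b (c (l 16060624) (l 15990776)) (c (l 16001208) (l 15941728)))) (b (c (a (l 15958432) (l 15864800)) (a (l 15866344) (l 15751424))) (c (a (l 15905800) (l 15818840)) (a (l 15827008) (l 15721432))))) (a (b (a (c (b (l 16026536) (l 15957448)) (b (l 15989984) (l 15921600))) (c (a (l 15920416) (l 15874568)) (b (l 15875216) (l 15812440)))) (a (c (b (a (l 15896992) (l 15849864)) (b (a (l 15827760) (l 15779248)) (l 15761536))) (b (l 15837608) (b (l 15744280) (l 15721048)))) (c (b (c (l 15796384) (l 15771376)) (b (l 15798360) (a (l 15689000) (l 15644024)))) (b (l 15733104) (c (l 15631680) (l 15626368)))))) (b (c (a (l 15809616) (l 15730280)) (a (l 15740456) (l 15645184))) (a (c (b (l 15702616) (a (l 15630552) (l 15593160))) (b (l 15637536) (b (l 15570696) (l 15584728)))) (c (b (l 15629672) (a (l 15557680) (l 15525728))) (a (l 15507640)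 (l 15468008))))))) (b (a (b (c (l 15742632) (a (l 15647152) (l 15554576))) (c (b (l 15719520) (l 15692056)) (a (l 15626072) (l 15541904)))) (b (c (l 15616800) (l 15440168)) (c (a (l 15616624) (l 15571104)) (a (l 15469832) (l 15410688))))) (a (b (c (b (l 15632720) (a (l 15633000) (l 15574704))) (a (l 15559776) (l 15464168))) (c (a (b (l 15565832) (l 15503184)) (b (l 15511728) (l 15432472))) (a (b (l 15473360) (l 15392984)) (b (l 15406480) (l 15331560))))) (b (c (a (l 15550184) (l 15511600)) (a (l 15422096) (l 15371400))) (c (a (b (l 15467944) (l 15392840)) (b (l 15435000) (l 15363784))) (a (b (l 15350768) (l 15280944)) (b (l 15306896) (l 15241768)))))))), by decide +kernel⟩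

theorem s7_pm_022_a : ∃ t, chk3 f_pm_022_a t 3 1 1 = true := ex3_b k5_pm_022_a k6_pm_022_a

theorem s8_pm_022_a : ∃ t, chk3 f_pm_022_a t 9 3 1 = true := ex3_b k2_pm_022_a k3_pm_022_a

theorem s9_pm_022_a : ∃ t, chk3 f_pm_022_a t 4 3 1 = true := ex3_a k1_pm_022_a s8_pm_022_a

theorem s10_pm_022_a : ∃ t, chk3 f_pm_022_a t 2 3 1 = true := ex3_a s9_pm_022_a k4_pm_022_a

theorem s11_pm_022_a : ∃ t, chk3 f_pm_022_a t 2 1 1 = true := ex3_b k0_pm_022_a s10_pm_022_a

theorem s12_pm_022_a : ∃ t, chk3 f_pm_022_a t 1 1 1 = true := ex3_a s11_pm_022_a s7_pm_022_a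

theorem c_pm_022_a : CertB 0 536870912 0 536870912 991146299 28908434 3 eng mog cd1q0 cd1q2a pd2 true true false .pp 0 2 2
    ndB1q0 ndB1q2a pcB2 cut_pm_022_a Ext.none :=
  certB2 (fam := true) (s1 := true) (s2 := false) (a := 0) (b := 2) (c := 2) (cn := .pp) (n1 := ndB1q0) (n2 := ndB1q2a) (pc := pcB2) (cut := cut_pm_022_a) (xt := Ext.none) (P1 := 0) (W1 := 536870912) (P2 := 0) (W2 := 536870912) (P3 := 991146299) (W3 := 28908434) (N0 := 3) (En := eng) (mo := mog) (C1 := cd1q0) (C2 := cd1q2a) (C3 := pd2)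
    rfl (fun _ => rfl) s12_pm_022_a

noncomputable def cut_pm_022_b : Cut := Cut.of [[⟨0, 0, 0, 53687091⟩, ⟨1, 1, 0, 53687091⟩, ⟨2, 1, 0, 53687091⟩]]

noncomputable def f_pm_022_b : ℕ → ℕ → ℕ → ℕ → Bool := onCell 0 536870912 1073741824 536870912 991146299 28908434
    (rowB 3 eng mog cd1q0 cd1q2b pd2 1 true true false .pp 0 2 2 (qsf 0 536870912 1239849684 370763052 2) ndB1q0 ndB1q2b pcB2 cut_pm_022_b Ext.none)

def k0_pm_022_b : ∃ t, chk3 f_pm_022_b t 1 1 1 = true :=
  ⟨(b (a (b (l 1) (a (b (a (b (a (c (l 273836399479) (l 283499953559)) (l 1)) (a (b (l 16212096) (l 16244024)) (l 280816083927))) (l 1)) (a (b (a (b (l 16233376) (l 16243080)) (l 16263024)) (a (l 16109728) (l 16231080))) (b (b (l 1) (l 280815781815)) (b (l 186326355911) (l 197600479943))))) (l 1))) (l 1)) (b (a (a (b (a (b (c (l 16235168) (l 16124896)) (c (l 16113240) (l 15994056))) (b (a (l 16024600) (l 204042662279)) (c (l 16077472) (l 15943856)))) (a (c (b (l 15992704) (l 15873728)) (b (l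 15844896) (l 15698584))) (b (c (l 15974416) (l 15811704)) (c (l 15873136) (l 15682816))))) (b (a (b (c (l 278130840007) (l 274909342071)) (c (l 211021803319) (l 211021511175))) (l 1)) (a (b (c (l 15913688) (l 189546977591)) (c (l 15831232) (l 15628416))) (b (c (l 266319569479) (l 252897543751)) (c (l 242160261399) (l 248065530215)))))) (l 1)) (a (c (a (b (a (b (l 15756560) (l 15641584)) (l 15557024)) (a (l 15369072) (l 15368624))) (b (a (b (l 15750984) (l 15673256)) (b (l 15686680) (l 15628552))) (a (b (l 15598504) (l 15533088)) (b (l 15573576) (l 15530016))))) (a (b (a (b (l 15555464) (l 15416056)) (b (l 15557536) (l 15436328))) (a (l 15026088) (b (l 15319816) (l 15209176)))) (b (a (b (l 15522360) (l 15420688)) (b (l 15448216) (l 15366712))) (a (b (l 15323984) (l 15240680)) (b (l 15290456) (l 15230336)))))) (a (b (a (c (b (l 299605193863) (l 271687798343)) (b (l 298531015639) (l 270076715991))) (l 1)) (b (a (c (l 15508928) (l 199209623383)) (c (l 313563421863)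 (l 312489145991))) (a (c (b (l 15484824) (l 15479544)) (b (l 15181664) (l 15170888))) (c (a (l 15402368) (l 308194686775)) (a (l 233569093399) (l 302288416375)))))) (l 1))))), by decide +kernel⟩

theorem c_pm_022_b : CertB 0 536870912 1239849684 370763052 991146299 28908434 3 eng mog cd1q0 cd1q2b pd2 true true false .pp 0 2 2
    ndB1q0 ndB1q2b pcB2 cut_pm_022_b Ext.none :=
  certB1 (fam := true) (s1 := true) (s2 := false) (a := 0) (b := 2) (c := 2) (cn := .pp) (n1 := ndB1q0) (n2 := ndB1q2b) (pc := pcB2) (cut := cut_pm_022_b) (xt := Ext.none) (P1 := 0) (W1 := 536870912) (P2 := 1239849684) (W2 := 370763052) (P3 := 991146299) (W3 := 28908434) (N0 := 3) (En := eng) (mo := mog) (C1 := cd1q0) (C2 := cd1q2b) (C3 := pd2)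
    rfl (fun _ => rfl) k0_pm_022_b

noncomputable def f_pm_023_a : ℕ → ℕ → ℕ → ℕ → Bool := onCell 1610612736 536870912 0 536870912 991146299 28908434
    (rowB 3 eng mog cd1q0 cd1q2a pd3 2 true true false .up 0 2 3 (qsf 0 536870912 0 536870912 3) ndB1q0 ndB1q2a pcB3 Cut.none Ext.none)

def k0_pm_023_a : ∃ t, chk3 f_pm_023_a t 1 1 1 = true :=
  ⟨(a (a (b (a (b (b (a (l 16114456) (l 16037624)) (a (l 16027336) (l 15996736))) (c (l 15995952) (l 16004608))) (b (b (a (l 16096848) (l 16181152)) (a (b (l 16003896) (l 15984584)) (c (l 16057504) (l 16024632)))) (a (l 15945416) (b (l 15979824) (l 15953360))))) (b (a (b (l 15905736) (a (l 15893440) (l 15857024))) (c (l 1708925847) (l 15649552))) (a (b (c (l 15730536) (l 15786416)) (c (a (l 15573304) (l 15546936)) (a (l 15637496) (l 15595248)))) (b (c (l 15704280) (l 15730632)) (l 2))))) (b (a (a (b (l 16120848) (b (l 16016320) (l 15968792))) (b (l 16185272) (l 2))) (l 2)) (b (l 2) (l 2)))) (l 2)), by decide +kernel⟩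

theorem c_pm_023_a : CertB 0 536870912 0 536870912 991146299 28908434 3 eng mog cd1q0 cd1q2a pd3 true true false .up 0 2 3
    ndB1q0 ndB1q2a pcB3 Cut.none Ext.none :=
  certB2 (fam := true) (s1 := true) (s2 := false) (a := 0) (b := 2) (c := 3) (cn := .up) (n1 := ndB1q0) (n2 := ndB1q2a) (pc := pcB3) (cut := Cut.none) (xt := Ext.none) (P1 := 0) (W1 := 536870912) (P2 := 0) (W2 := 536870912) (P3 := 991146299) (W3 := 28908434) (N0 := 3) (En := eng) (mo := mog) (C1 := cd1q0) (C2 := cd1q2a) (C3 := pd3)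
    rfl (fun _ => rfl) k0_pm_023_a

noncomputable def f_pm_023_b : ℕ → ℕ → ℕ → ℕ → Bool := onCell 1610612736 536870912 1239849684 370763052 991146299 28908434
    (rowB 3 eng mog cd1q0 cd1q2b pd3 2 true true false .up 0 2 3 (qsf 0 536870912 1239849684 370763052 3) ndB1q0 ndB1q2b pcB3 Cut.none Ext.none)

def k0_pm_023_b : ∃ t, chk3 f_pm_023_b t 1 1 1 = true :=
  ⟨(a (a (b (a (b (a (l 16111928) (l 16166592)) (a (l 16170360) (l 16234544))) (b (a (l 16240264) (l 16307776)) (a (l 16317840) (l 16415360)))) (a (b (a (l 16118440) (l 16190648)) (a (l 15687760) (l 15962992))) (b (l 16141424) (a (l 16001944) (l 16032304))))) (b (a (b (a (l 16343592) (l 16468960)) (a (l 16522152) (l 16632760))) (a (b (l 283030868791) (l 16713128)) (b (l 4) (l 4)))) (a (b (a (l 16433264) (l 16437936)) (a (l 16057360) (l 16082368))) (a (b (l 16480096) (l 4)) (l 4))))) (a (l 4) (l 4))), by decide +kernel⟩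

theorem c_pm_023_b : CertB 0 536870912 1239849684 370763052 991146299 28908434 3 eng mog cd1q0 cd1q2b pd3 true true false .up 0 2 3
    ndB1q0 ndB1q2b pcB3 Cut.none Ext.none :=
  certB2 (fam := true) (s1 := true) (s2 := false) (a := 0) (b := 2) (c := 3) (cn := .up) (n1 := ndB1q0) (n2 := ndB1q2b) (pc := pcB3) (cut := Cut.none) (xt := Ext.none) (P1 := 0) (W1 := 536870912) (P2 := 1239849684) (W2 := 370763052) (P3 := 991146299) (W3 := 28908434) (N0 := 3) (En := eng) (mo := mog) (C1 := cd1q0) (C2 := cd1q2b) (C3 := pd3)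
    rfl (fun _ => rfl) k0_pm_023_b

noncomputable def f_pm_033 : ℕ → ℕ → ℕ → ℕ → Bool := onCell 0 536870912 1610612736 536870912 991146299 28908434
    (rowB 3 eng mog cd1q0 cd1q3 pd3 1 true true false .pnn 0 3 3 (qsf 0 536870912 1610612736 536870912 3) ndB1q0 ndB1q3 pcB3 Cut.none Ext.none)

def k0_pm_033 : ∃ t, chk3 f_pm_033 t 1 1 1 = true :=
  ⟨(b (b (a (a (b (a (b (l 15803632) (l 15732776)) (b (l 1) (l 15941216))) (a (b (l 15607064) (l 15413280)) (b (l 15913072) (l 15784136)))) (b (l 1) (a (l 269540936167) (l 1)))) (l 1)) (b (a (a (a (b (l 15346472) (l 15224872)) (b (l 15655416) (l 15534808))) (b (l 158945468119) (a (l 15829280) (l 16102632)))) (l 1)) (b (a (a (a (l 15150064) (l 4)) (l 4)) (l 1)) (l 4)))) (l 4)), by decide +kernel⟩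

theorem c_pm_033 : CertB 0 536870912 1610612736 536870912 991146299 28908434 3 eng mog cd1q0 cd1q3 pd3 true true false .pnn 0 3 3
    ndB1q0 ndB1q3 pcB3 Cut.none Ext.none :=
  certB1 (fam := true) (s1 := true) (s2 := false) (a := 0) (b := 3) (c := 3) (cn := .pnn) (n1 := ndB1q0) (n2 := ndB1q3) (pc := pcB3) (cut := Cut.none) (xt := Ext.none) (P1 := 0) (W1 := 536870912) (P2 := 1610612736) (W2 := 536870912) (P3 := 991146299) (W3 := 28908434) (N0 := 3) (En := eng) (mo := mog) (C1 := cd1q0) (C2 := cd1q3) (C3 := pd3)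
    rfl (fun _ => rfl) k0_pm_033

noncomputable def f_pm_101 : ℕ → ℕ → ℕ → ℕ → Bool := onCell 536870912 536870912 0 536870912 991146299 28908434
    (rowB 3 eng mog cd1q1 cd1q0 pd1 2 true true false .npn 1 0 1 (qsf 536870912 536870912 0 536870912 1) ndB1q1 ndB1q0 pcB1 Cut.none Ext.none)

def k0_pm_101 : ∃ t, chk3 f_pm_101 t 1 1 1 = true :=
  ⟨(l 3), by decide +kernel⟩

theorem c_pm_101 : CertB 536870912 536870912 0 536870912 991146299 28908434 3 eng mog cd1q1 cd1q0 pd1 true true false .npn 1 0 1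
    ndB1q1 ndB1q0 pcB1 Cut.none Ext.none :=
  certB2 (fam := true) (s1 := true) (s2 := false) (a := 1) (b := 0) (c := 1) (cn := .npn) (n1 := ndB1q1) (n2 := ndB1q0) (pc := pcB1) (cut := Cut.none) (xt := Ext.none) (P1 := 536870912) (W1 := 536870912) (P2 := 0) (W2 := 536870912) (P3 := 991146299) (W3 := 28908434) (N0 := 3) (En := eng) (mo := mog) (C1 := cd1q1) (C2 := cd1q0) (C3 := pd1)
    rfl (fun _ => rfl) k0_pm_101

noncomputable def f_pm_102 : ℕ → ℕ → ℕ → ℕ → Bool := onCell 536870912 536870912 1073741824 536870912 991146299 28908434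
    (rowB 3 eng mog cd1q1 cd1q0 pd2 1 true true false .npp 1 0 2 (qsf 536870912 536870912 0 536870912 2) ndB1q1 ndB1q0 pcB2 Cut.none Ext.none)

def k0_pm_102 : ∃ t, chk3 f_pm_102 t 1 2 1 = true :=
  ⟨(b (b (l 3) (a (l 3) (a (l 3) (b (l 3) (a (b (l 3) (a (l 3) (b (l 3) (l 16393040)))) (b (b (l 3) (a (l 3) (a (l 3) (l 16367344)))) (a (b (a (l 3) (l 16369760)) (l 16289024)) (b (a (l 16353592) (l 16340160)) (a (l 16326744) (l 16313432)))))))))) (a (b (b (b (l 3) (a (l 2) (b (a (l 3) (l 3)) (b (a (l 16646168) (l 16643000)) (a (l 16648936) (l 16676392)))))) (a (l 2) (a (l 16637688) (l 16597472)))) (a (l 2) (a (a (l 2) (l 16661264)) (l 16405696)))) (b (b (b (a (a (l 3) (b (l 3) (a (l 16502424) (l 16444440)))) (a (b (a (l 16415264) (l 16366904)) (a (l 16390168) (l 16341168))) (a (b (l 16325480) (a (l 16309328) (l 16291960))) (b (a (l 16300496) (l 16288952)) (a (l 16278848) (l 16272232)))))) (a (b (a (l 168207675559) (a (l 16479688) (l 16420616))) (b (a (l 16536408)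 (a (l 16462880) (l 16403680))) (a (a (l 16579688) (l 16515712)) (b (l 16405808) (l 16424168))))) (b (a (a (l 16365936) (b (l 16322744) (l 16312840))) (a (a (l 16289496) (l 16276224)) (l 16262712))) (b (a (a (l 16350464) (l 16307296)) (a (l 16274296) (l 16253872))) (a (a (l 16346840) (l 16282808)) (a (b (l 16271528) (l 16269456)) (b (l 16250600) (l 16248112)))))))) (a (a (l 16441176) (a (l 16408752) (l 16350968))) (a (a (l 16299104) (l 16255056)) (a (l 16221168) (a (l 16204000) (l 16197544)))))) (a (a (a (l 16436312) (l 16360848)) (a (l 16291280) (l 16227496))) (a (a (l 16171120) (b (l 16166464) (l 16083816))) (a (b (l 16132232) (l 16048832)) (b (l 16112848) (l 16030312)))))))), by decide +kernel⟩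

def k1_pm_102 : ∃ t, chk3 f_pm_102 t 1 3 1 = true :=
  ⟨(a (b (a (l 2) (a (l 2) (b (l 16463816) (l 2)))) (l 2)) (a (b (a (b (l 16200440) (l 16200720)) (b (a (l 16159144) (l 16086176)) (l 15928584))) (a (l 2) (b (l 15931848) (l 2)))) (b (a (b (a (l 16022504) (l 15970624)) (a (l 15898768) (l 15839928))) (b (a (l 15933616) (l 15852480)) (a (l 15798432) (b (l 15810744) (l 15745184))))) (a (b (l 15764744) (l 15686448)) (b (a (l 15683936) (b (l 15683816) (l 15626792))) (a (l 15590512) (a (l 15564192) (l 15539360)))))))), by decide +kernel⟩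

theorem s2_pm_102 : ∃ t, chk3 f_pm_102 t 1 1 1 = true := ex3_b k0_pm_102 k1_pm_102

theorem c_pm_102 : CertB 536870912 536870912 0 536870912 991146299 28908434 3 eng mog cd1q1 cd1q0 pd2 true true false .npp 1 0 2
    ndB1q1 ndB1q0 pcB2 Cut.none Ext.none :=
  certB1 (fam := true) (s1 := true) (s2 := false) (a := 1) (b := 0) (c := 2) (cn := .npp) (n1 := ndB1q1) (n2 := ndB1q0) (pc := pcB2) (cut := Cut.none) (xt := Ext.none) (P1 := 536870912) (W1 := 536870912) (P2 := 0) (W2 := 536870912) (P3 := 991146299) (W3 := 28908434) (N0 := 3) (En := eng) (mo := mog) (C1 := cd1q1) (C2 := cd1q0) (C3 := pd2)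
    rfl (fun _ => rfl) s2_pm_102

noncomputable def f_pm_112 : ℕ → ℕ → ℕ → ℕ → Bool := onCell 1073741824 536870912 536870912 536870912 991146299 28908434
    (rowB 3 eng mog cd1q1 cd1q1 pd2 2 true true false .dn 1 1 2 (qsf 536870912 536870912 536870912 536870912 2) ndB1q1 ndB1q1 pcB2 Cut.none Ext.none)

def k0_pm_112 : ∃ t, chk3 f_pm_112 t 1 1 1 = true :=
  ⟨(b (a (a (l 3) (a (a (a (l 3) (b (a (l 3) (a (l 3) (b (l 16113672) (l 16110488)))) (b (a (l 3) (a (l 24727945447) (l 16133384))) (l 1)))) (b (b (b (l 16172160) (l 16167032)) (b (l 16175360) (l 16169616))) (b (b (l 16167600) (l 16180344)) (l 249140143911)))) (b (b (a (l 16183256) (l 16301248)) (b (l 16245000) (l 16236624))) (b (b (l 16244752) (l 16199464)) (b (l 16252136) (l 16278768)))))) (a (b (b (a (b (l 16329136) (l 16358728)) (b (l 16293776) (l 16346104))) (a (l 16244784) (l 16362608))) (b (a (b (l 16510800) (l 16464952)) (l 16493912)) (a (l 16149312) (b (l 16588080) (l 16491624))))) (b (a (b (a (l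 16244624) (l 16172616)) (l 16166624)) (b (b (a (l 16052520) (l 15965256)) (l 16082520)) (b (l 16176824) (l 16285376)))) (b (a (l 16534504) (l 16300872)) (a (l 16573856) (l 16432592)))))) (a (a (l 1) (a (l 1) (b (b (b (l 16301048) (l 1)) (l 1)) (l 1)))) (b (a (b (a (b (l 16329056) (l 16314872)) (b (l 16411384) (l 16348128))) (a (b (l 16310672) (l 1)) (l 199748347063))) (b (a (l 16418720) (l 16405456)) (a (l 16164320) (l 16251416)))) (a (b (a (l 1) (l 220149109495)) (l 1)) (b (a (l 16003376) (l 16087632)) (a (b (l 16089720) (l 1)) (b (l 16006776) (l 131028108295)))))))), by decide +kernel⟩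

theorem c_pm_112 : CertB 536870912 536870912 536870912 536870912 991146299 28908434 3 eng mog cd1q1 cd1q1 pd2 true true false .dn 1 1 2
    ndB1q1 ndB1q1 pcB2 Cut.none Ext.none :=
  certB2 (fam := true) (s1 := true) (s2 := false) (a := 1) (b := 1) (c := 2) (cn := .dn) (n1 := ndB1q1) (n2 := ndB1q1) (pc := pcB2) (cut := Cut.none) (xt := Ext.none) (P1 := 536870912) (W1 := 536870912) (P2 := 536870912) (W2 := 536870912) (P3 := 991146299) (W3 := 28908434) (N0 := 3) (En := eng) (mo := mog) (C1 := cd1q1) (C2 := cd1q1) (C3 := pd2)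
    rfl (fun _ => rfl) k0_pm_112

noncomputable def f_pm_113 : ℕ → ℕ → ℕ → ℕ → Bool := onCell 536870912 536870912 536870912 536870912 991146299 28908434
    (rowB 3 eng mog cd1q1 cd1q1 pd3 0 true true false .nn 1 1 3 (qsf 536870912 536870912 536870912 536870912 3) ndB1q1 ndB1q1 pcB3 Cut.none Ext.none)

def k0_pm_113 : ∃ t, chk3 f_pm_113 t 2 1 1 = true :=
  ⟨(b (b (l 1) (a (l 1) (b (l 1) (a (l 1) (l 16561544))))) (b (a (b (l 1) (a (l 1) (b (l 1) (l 16319024)))) (b (a (l 16481080) (l 16295272)) (a (b (l 16275840) (l 16128464)) (b (l 16079360) (l 15869968))))) (a (b (a (b (l 1) (l 15933376)) (b (l 16164000) (l 15997984))) (b (a (c (l 15761768) (l 15811448)) (l 15698408)) (a (b (l 15652944) (a (l 15605344) (l 15616680))) (b (l 15691808) (c (l 15626912) (l 15694008)))))) (b (a (b (l 16006848) (l 15909520)) (b (a (l 15849064) (l 15746752)) (l 15689056))) (b (a (l 15843288) (l 15606184)) (a (b (l 15772208) (a (l 15719320) (l 15711872))) (b (l 15565352) (l 15521176)))))))),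 by decide +kernel⟩

def k1_pm_113 : ∃ t, chk3 f_pm_113 t 3 1 1 = true :=
  ⟨(b (a (b (a (l 1) (b (l 1) (a (l 1) (l 16319024)))) (a (b (l 16470600) (l 16295272)) (b (a (l 16275840) (b (l 16176440) (l 16078680))) (a (l 16079360) (l 15807056))))) (b (a (b (a (l 1) (l 15933376)) (a (l 16164000) (l 15997984))) (a (b (c (l 15761768) (l 15811448)) (l 15698408)) (b (a (l 15652944) (b (l 15605344) (l 15616680))) (a (l 15691808) (c (l 15626912) (l 15694008)))))) (a (b (a (l 16006848) (l 15909520)) (a (b (l 15849064) (l 15746752)) (l 15689056))) (a (b (l 15843288) (l 15606184)) (b (a (l 15772208) (l 15509600)) (a (l 15565352) (l 15521176))))))) (a (b (b (a (l 16058152) (l 15802640)) (a (l 15802640) (l 15600160))) (b (a (b (l 15610056) (a (l 15540768) (l 15458328))) (b (l 15459712) (l 15422120))) (a (b (l 15409864) (b (l 15359720) (a (l 15361960) (l 15289440)))) (b (a (l 15327904) (l 15328560)) (b (l 15293584) (l 15279216)))))) (b (a (b (a (l 15505200) (b (l 15540768)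 (l 15458328))) (a (l 15459712) (l 15589896))) (b (a (l 15409864) (b (l 15149928) (l 15305616))) (a (b (l 15327904) (l 15328560)) (a (l 15293584) (l 15279216))))) (a (b (b (l 15377944) (l 15398352)) (b (a (l 15402072) (l 15590456)) (a (l 15485496) (b (l 15795040) (l 16000112))))) (b (a (b (l 15402072) (l 15590456)) (b (l 15485496) (a (l 15795040) (l 16000112)))) (a (b (l 15990512) (b (l 16566296) (a (l 16712312) (b (l 16760528) (l 16737008))))) (b (a (l 16566296) (b (l 16712312) (a (l 16760528) (l 16737008)))) (a (b (l 16847064) (b (l 16790944) (l 16762800))) (b (a (l 16790944) (l 16762800)) (a (l 16794800) (b (l 16780672) (a (l 16786320) (b (l 16779640) (a (l 16781816) (b (l 16778568) (a (l 16779616) (b (l 16777936) (l 16778696)))))))))))))))))), by decide +kernel⟩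

theorem s2_pm_113 : ∃ t, chk3 f_pm_113 t 1 1 1 = true := ex3_a k0_pm_113 k1_pm_113

theorem c_pm_113 : CertB 536870912 536870912 536870912 536870912 991146299 28908434 3 eng mog cd1q1 cd1q1 pd3 true true false .nn 1 1 3
    ndB1q1 ndB1q1 pcB3 Cut.none Ext.none :=
  certB0 (fam := true) (s1 := true) (s2 := false) (a := 1) (b := 1) (c := 3) (cn := .nn) (n1 := ndB1q1) (n2 := ndB1q1) (pc := pcB3) (cut := Cut.none) (xt := Ext.none) (P1 := 536870912) (W1 := 536870912) (P2 := 536870912) (W2 := 536870912) (P3 := 991146299) (W3 := 28908434) (N0 := 3) (En := eng) (mo := mog) (C1 := cd1q1) (C2 := cd1q1) (C3 := pd3)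
    rfl s2_pm_113

noncomputable def f_pm_123_a : ℕ → ℕ → ℕ → ℕ → Bool := onCell 1610612736 536870912 0 536870912 991146299 28908434
    (rowB 3 eng mog cd1q1 cd1q2a pd3 2 true true false .npn 1 2 3 (qsf 536870912 536870912 0 536870912 3) ndB1q1 ndB1q2a pcB3 Cut.none Ext.none)

def k0_pm_123_a : ∃ t, chk3 f_pm_123_a t 2 1 1 = true :=
  ⟨(a (b (a (l 1) (b (l 1) (b (l 1) (l 16263640)))) (b (a (l 1) (b (l 16183224) (a (l 16220712) (l 16190776)))) (a (b (c (l 16153128) (l 16238960)) (c (a (l 16117736) (l 16064744)) (b (l 16170472) (l 16040096)))) (b (a (l 16128832) (l 16107040)) (a (b (l 16062800) (l 15981280)) (b (l 16007592) (l 15915672))))))) (b (a (b (a (l 16335376) (l 16294064)) (b (a (l 16200736) (l 16324600)) (a (l 16252160) (l 16257448)))) (b (a (b (l 16374696) (l 16452040)) (b (a (l 16355896) (l 16360296)) (l 16419504))) (b (a (l 16391464) (l 16453952)) (a (l 16282496) (l 16267808))))) (a (b (b (l 16132896) (c (l 16156480) (l 16152768))) (b (a (l 16067736)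 (l 16034144)) (a (b (l 15955024) (l 15852048)) (b (l 15907592) (l 15793088))))) (b (b (a (l 16214872) (l 16232824)) (a (l 16135472) (l 16136440))) (b (c (l 16012800) (l 15988104)) (a (b (l 15868280) (l 15742152)) (b (l 15840768) (l 15703552)))))))), by decide +kernel⟩

def k1_pm_123_a : ∃ t, chk3 f_pm_123_a t 3 1 1 = true :=
  ⟨(b (a (b (a (a (b (l 99554863511) (a (l 16407088) (l 16413808))) (a (l 94723459783) (l 4))) (l 4)) (a (a (b (l 16473776) (l 16401192)) (b (l 16396528) (l 16468056))) (a (a (l 16343344) (l 50699869463)) (b (l 4) (a (l 16579992) (l 16615592)))))) (l 4)) (a (a (b (b (a (b (l 16296088) (l 16239184)) (a (l 16315136) (l 16356312))) (a (l 16152016) (l 16128888))) (b (a (l 15996712) (l 16018160)) (b (a (l 15829768) (l 15841456)) (a (l 15683080) (l 15688992))))) (b (a (b (l 16418448) (b (l 16294184) (l 16210336))) (b (a (l 16484512) (l 16531000)) (a (l 16322808) (l 16377296)))) (b (a (l 16065312) (b (l 16201248) (l 16094120))) (a (b (l 15884320)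 (l 15733848)) (l 16114464))))) (b (a (b (a (a (l 16577632) (l 16624552)) (l 4)) (a (a (l 16435032) (l 16495696)) (a (l 16554024) (l 16527016)))) (l 4)) (a (a (b (b (l 16324528) (l 16218488)) (b (l 16118616) (l 16040280))) (a (b (l 16389456) (l 16420152)) (b (b (l 16509704) (l 16443656)) (b (l 16417960) (l 16553920))))) (b (a (a (b (l 16561608) (l 16533000)) (l 4)) (l 4)) (a (a (b (l 16574224) (l 16631248)) (b (l 16505248) (a (l 16601600) (l 16579280)))) (a (a (c (l 16509224) (l 16507360)) (l 4)) (l 4)))))))), by decide +kernel⟩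

theorem s2_pm_123_a : ∃ t, chk3 f_pm_123_a t 1 1 1 = true := ex3_a k0_pm_123_a k1_pm_123_a

theorem c_pm_123_a : CertB 536870912 536870912 0 536870912 991146299 28908434 3 eng mog cd1q1 cd1q2a pd3 true true false .npn 1 2 3
    ndB1q1 ndB1q2a pcB3 Cut.none Ext.none :=
  certB2 (fam := true) (s1 := true) (s2 := false) (a := 1) (b := 2) (c := 3) (cn := .npn) (n1 := ndB1q1) (n2 := ndB1q2a) (pc := pcB3) (cut := Cut.none) (xt := Ext.none) (P1 := 536870912) (W1 := 536870912) (P2 := 0) (W2 := 536870912) (P3 := 991146299) (W3 := 28908434) (N0 := 3) (En := eng) (mo := mog) (C1 := cd1q1) (C2 := cd1q2a) (C3 := pd3)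
    rfl (fun _ => rfl) s2_pm_123_a

noncomputable def f_pm_123_b : ℕ → ℕ → ℕ → ℕ → Bool := onCell 1610612736 536870912 1239849684 370763052 991146299 28908434
    (rowB 3 eng mog cd1q1 cd1q2b pd3 2 true true false .npn 1 2 3 (qsf 536870912 536870912 1239849684 370763052 3) ndB1q1 ndB1q2b pcB3 Cut.none Ext.none)

def k0_pm_123_b : ∃ t, chk3 f_pm_123_b t 1 1 1 = true :=
  ⟨(a (a (l 1) (b (a (b (b (a (l 16399216) (l 16310728)) (l 1)) (l 1)) (a (b (b (l 16114648) (l 16191648)) (l 1)) (b (l 4) (l 4)))) (l 1))) (a (l 4) (l 4))), by decide +kernel⟩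

theorem c_pm_123_b : CertB 536870912 536870912 1239849684 370763052 991146299 28908434 3 eng mog cd1q1 cd1q2b pd3 true true false .npn 1 2 3
    ndB1q1 ndB1q2b pcB3 Cut.none Ext.none :=
  certB2 (fam := true) (s1 := true) (s2 := false) (a := 1) (b := 2) (c := 3) (cn := .npn) (n1 := ndB1q1) (n2 := ndB1q2b) (pc := pcB3) (cut := Cut.none) (xt := Ext.none) (P1 := 536870912) (W1 := 536870912) (P2 := 1239849684) (W2 := 370763052) (P3 := 991146299) (W3 := 28908434) (N0 := 3) (En := eng) (mo := mog) (C1 := cd1q1) (C2 := cd1q2b) (C3 := pd3)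
    rfl (fun _ => rfl) k0_pm_123_b

noncomputable def f_pm_133 : ℕ → ℕ → ℕ → ℕ → Bool := onCell 536870912 536870912 1610612736 536870912 991146299 28908434
    (rowB 3 eng mog cd1q1 cd1q3 pd3 0 true true false .dn 1 3 3 (qsf 536870912 536870912 1610612736 536870912 3) ndB1q1 ndB1q3 pcB3 Cut.none Ext.none)

def k0_pm_133 : ∃ t, chk3 f_pm_133 t 1 1 1 = true :=
  ⟨(l 4), by decide +kernel⟩

theorem c_pm_133 : CertB 536870912 536870912 1610612736 536870912 991146299 28908434 3 eng mog cd1q1 cd1q3 pd3 true true false .dn 1 3 3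
    ndB1q1 ndB1q3 pcB3 Cut.none Ext.none :=
  certB0 (fam := true) (s1 := true) (s2 := false) (a := 1) (b := 3) (c := 3) (cn := .dn) (n1 := ndB1q1) (n2 := ndB1q3) (pc := pcB3) (cut := Cut.none) (xt := Ext.none) (P1 := 536870912) (W1 := 536870912) (P2 := 1610612736) (W2 := 536870912) (P3 := 991146299) (W3 := 28908434) (N0 := 3) (En := eng) (mo := mog) (C1 := cd1q1) (C2 := cd1q3) (C3 := pd3)
    rfl k0_pm_133

noncomputable def cut_pm_202_a : Cut := Cut.of [[⟨0, 1, 0, 53687091⟩, ⟨1, 0, 0, 53687091⟩, ⟨2, 1, 0, 53687091⟩]]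

noncomputable def f_pm_202_a : ℕ → ℕ → ℕ → ℕ → Bool := onCell 0 536870912 1073741824 536870912 991146299 28908434
    (rowB 3 eng mog cd1q2a cd1q0 pd2 1 true true false .pp 2 0 2 (qsf 0 536870912 0 536870912 2) ndB1q2a ndB1q0 pcB2 cut_pm_202_a Ext.none)

def k0_pm_202_a : ∃ t, chk3 f_pm_202_a t 2 1 1 = true :=
  ⟨(b (a (b (l 1) (b (b (b (l 1) (a (c (l 16153704) (l 16112704)) (c (l 16184224) (l 16141568)))) (b (a (l 16237768) (l 16217632)) (a (l 16341688) (l 16355752)))) (b (a (l 16291040) (l 16303432)) (b (a (l 16330608) (l 16350448)) (a (l 16247296) (l 16271896)))))) (a (b (l 1) (b (b (c (b (l 16165144) (l 16245592)) (b (l 16107296) (l 16202632))) (b (l 16249632) (l 16379536))) (b (l 16303336) (b (l 16357424) (l 16283400))))) (b (a (l 1) (b (l 1) (b (l 1) (b (l 1) (c (l 16226592) (l 16160928)))))) (b (b (b (c (a (l 16236896) (l 16296520)) (l 16086832)) (c (l 16318728) (l 16298232))) (c (l 16301800) (l 16280456))) (b (b (l 16488840) (l 16416720)) (c (l 16325768)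 (l 16295360))))))) (b (b (a (b (a (l 15916368) (l 15989712)) (c (l 16053328) (l 15718968))) (b (a (l 16028744) (l 15964848)) (a (l 15870552) (c (l 16086248) (l 16003256))))) (a (b (c (l 15929384) (a (l 15743536) (l 15801808))) (c (l 15815496) (a (l 15595384) (l 15661736)))) (b (a (l 15700168) (c (l 15977744) (l 15869608))) (c (l 15872936) (a (l 15713792) (l 15746000)))))) (a (b (c (b (l 15712608) (l 15621616)) (b (a (l 15461104) (l 15534528)) (a (l 15341960) (l 15421400)))) (b (c (l 15564312) (a (l 15239128) (l 15323480))) (c (a (l 15451960) (l 15508000)) (a (l 15157136) (l 15241832))))) (a (b (b (l 15725880) (l 15609480)) (c (l 15583168) (l 15354136))) (b (b (l 15712016) (l 15622408)) (c (l 15611232) (l 15409272))))))), by decide +kernel⟩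

def k1_pm_202_a : ∃ t, chk3 f_pm_202_a t 3 8 1 = true :=
  ⟨(a (l 1) (b (a (l 1) (l 6)) (b (a (a (l 1) (a (l 1) (l 6))) (l 6)) (b (a (a (l 1) (a (a (b (l 1) (c (l 16490824) (l 16431208))) (c (b (l 16502728) (l 16515568)) (b (l 16445424) (l 16458824)))) (c (c (l 16518720) (l 16493240)) (a (l 16423072) (l 16510160))))) (a (a (c (l 16539184) (l 16492896)) (c (l 16595912) (l 16577096))) (a (l 16604864) (a (l 16624864) (l 16598392))))) (a (a (a (l 1) (b (a (l 1) (c (l 16480904) (l 16419360))) (c (a (l 16472880) (l 16495280)) (l 16401312)))) (a (c (b (l 16474680) (l 16509304)) (b (l 16417240) (l 16473672))) (c (l 16530792) (l 16479336)))) (a (a (c (l 16582744) (l 16558096)) (l 16575864)) (a (l 16608680) (c (l 16609592) (l 16615232))))))))), by decide +kernel⟩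

def k2_pm_202_a : ∃ t, chk3 f_pm_202_a t 6 9 1 = true :=
  ⟨(b (a (l 1) (b (b (l 1) (a (l 1) (a (b (l 1) (c (l 16412960) (l 16343680))) (c (a (c (l 16463512) (l 16431008)) (l 16467520)) (a (b (l 16372464) (l 16389168)) (l 16402552)))))) (b (a (a (l 1) (c (l 16375648) (l 16305208))) (c (a (c (l 16447656) (l 16415400)) (b (l 16417336) (l 16473176))) (a (c (l 16382136) (l 16347856)) (b (l 16374928) (l 16432600))))) (a (c (a (l 16349768) (l 16402056)) (a (l 16279856) (l 16335632))) (a (c (l 16456840) (l 16394104)) (c (l 16471448) (l 16433616))))))) (a (b (b (a (l 1) (c (l 16306080) (l 16236024))) (a (c (l 16250624) (l 16180432)) (c (l 16336000) (l 16270800)))) (c (a (l 16257424) (l 16339440)) (a (l 16237376) (l 16302744)))) (c (b (a (b (l 16319488) (l 16430944)) (b (l 16426576) (l 16472552))) (b (c (l 16396936) (l 16371832)) (l 16390120))) (a (b (b (l 16297536) (l 16371456)) (l 16357168)) (b (b (l 16390584) (l 16440528)) (l 16421624)))))), by decide +kernel⟩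

def k3_pm_202_a : ∃ t, chk3 f_pm_202_a t 7 9 1 = true :=
  ⟨(a (b (a (b (c (b (a (a (l 16454072) (l 16453480)) (l 16422512)) (a (l 16454272) (l 16515656))) (b (a (a (l 16388112) (l 16410784)) (l 16383376)) (a (l 16413400) (l 16479144)))) (c (b (l 16464104) (l 16474864)) (b (l 16407544) (l 16442576)))) (b (c (a (b (l 16509216) (l 16558664)) (l 16527872)) (a (b (l 16475040) (l 16526752)) (l 16478840))) (c (l 16513816) (c (l 16505312) (l 16502152))))) (a (b (a (c (l 16498064) (l 16448504)) (l 16516696)) (c (b (l 16516376) (l 16504928)) (l 16459008))) (b (a (l 16517456) (l 16492112)) (a (l 16480296) (l 16455120))))) (b (a (b (a (c (l 16576832) (l 16554056)) (b (l 16597912) (l 16602336))) (a (l 16519024) (l 16504552))) (b (a (b (l 16574928) (l 16560752)) (c (l 16517936) (l 16544440))) (c (a (l 16553840) (l 16510504)) (l 16434344)))) (b (a (c (l 16470624) (l 16483432)) (c (l 16395616) (l 16419912))) (a (c (l 16457600) (l 16464968)) (c (l 16382624) (l 16402424)))))),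 by decide +kernel⟩

def k4_pm_202_a : ∃ t, chk3 f_pm_202_a t 3 5 1 = true :=
  ⟨(a (c (b (b (a (a (b (l 16364984) (l 16430992)) (l 16326288)) (a (l 16410080) (l 16371904))) (a (l 16408696) (a (l 16473872) (l 16377928)))) (a (b (l 16408656) (l 16286848)) (b (l 16223600) (l 16213616)))) (b (b (a (a (l 16206416) (l 16284424)) (a (l 16350944) (l 16428424))) (a (l 16396080) (b (l 16459552) (l 16421296)))) (a (b (l 16408120) (l 16263104)) (b (l 16223536) (l 16193784))))) (a (b (b (b (a (b (l 16428432) (l 16417056)) (b (l 16472272) (l 16370544))) (a (c (l 16440568) (l 16467272)) (b (l 16270800) (b (l 16348808) (b (l 16335696) (a (l 16303664) (l 16331368))))))) (a (c (l 16290520) (l 16305296)) (c (b (l 16305536) (l 16246840)) (b (l 16319664) (l 16253696))))) (b (c (a (l 16239832) (b (l 16190280) (l 16135952))) (a (l 16237944) (l 16096000))) (c (a (l 16130448) (l 16057352)) (a (l 16111344) (l 16037336))))) (b (b (b (a (c (l 16381648) (l 16403840)) (c (l 16305352)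 (l 16319736))) (b (a (l 16333432) (l 16209352)) (b (a (l 16303584) (l 16219496)) (b (a (l 16287944) (l 16202016)) (a (l 16277440) (c (l 16187680) (l 16192800))))))) (a (c (l 16202856) (l 16208008)) (b (c (l 16151032) (l 16152592)) (l 16003016)))) (a (a (b (c (l 16099744) (l 16092432)) (c (l 15972152) (l 15971664))) (b (l 16056760) (c (l 15927608) (l 15925376)))) (b (c (l 16000128) (l 15985952)) (c (l 15887248) (l 15860448))))))), by decide +kernel⟩

def k5_pm_202_a : ∃ t, chk3 f_pm_202_a t 3 3 1 = true :=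
  ⟨(b (a (b (b (a (c (l 16170448) (l 16123480)) (c (l 16104152) (l 16064416))) (a (c (l 16060624) (l 15990776)) (c (l 16001208) (l 15941728)))) (a (c (b (l 15958432) (l 15864800)) (b (l 15866344) (l 15751424))) (c (b (l 15905800) (l 15818840)) (b (l 15827008) (l 15721432))))) (b (a (b (c (a (l 16026536) (l 15957448)) (a (l 15989984) (l 15921600))) (c (b (l 15920416) (l 15874568)) (l 15739752))) (a (b (c (l 15873936) (l 15837608)) (c (l 15867816) (l 15733104))) (b (a (c (b (l 15827760) (l 15779248)) (l 15744280)) (l 15846224)) (c (b (a (l 15734912) (l 15689000)) (l 15690896)) (c (l 15631680) (l 15626368)))))) (a (c (b (l 15809616) (l 15730280)) (b (l 15740456) (l 15645184))) (b (c (a (l 15702616) (b (l 15630552) (l 15593160))) (a (l 15637536) (a (l 15570696) (l 15584728)))) (c (a (l 15629672) (b (l 15557680) (l 15525728))) (b (l 15507640) (l 15468008))))))) (a (b (b (a (l 15788264) (c (l 15741160) (l 15626072))) (a (l 15652696) (a (l 15618672) (l 15597528))))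 (c (a (l 15616800) (b (l 15616624) (l 15571104))) (a (l 15440168) (b (l 15469832) (l 15410688))))) (b (b (a (c (l 15848880) (l 15559776)) (c (a (l 15565832) (l 15482208)) (a (l 15473360) (l 15392984)))) (a (c (l 15599888) (l 15464168)) (c (a (l 15511728) (l 15432472)) (a (l 15406480) (l 15331560))))) (a (c (b (l 15550184) (l 15511600)) (b (l 15422096) (l 15371400))) (c (b (a (l 15467944) (l 15392840)) (a (l 15435000) (l 15363784))) (b (a (l 15350768) (l 15280944)) (a (l 15306896) (l 15241768)))))))), by decide +kernel⟩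

theorem s6_pm_202_a : ∃ t, chk3 f_pm_202_a t 3 9 1 = true := ex3_a k2_pm_202_a k3_pm_202_a

theorem s7_pm_202_a : ∃ t, chk3 f_pm_202_a t 3 4 1 = true := ex3_b k1_pm_202_a s6_pm_202_a

theorem s8_pm_202_a : ∃ t, chk3 f_pm_202_a t 3 2 1 = true := ex3_b s7_pm_202_a k4_pm_202_a

theorem s9_pm_202_a : ∃ t, chk3 f_pm_202_a t 3 1 1 = true := ex3_b s8_pm_202_a k5_pm_202_a

theorem s10_pm_202_a : ∃ t, chk3 f_pm_202_a t 1 1 1 = true := ex3_a k0_pm_202_a s9_pm_202_a

theorem c_pm_202_a : CertB 0 536870912 0 536870912 991146299 28908434 3 eng mog cd1q2a cd1q0 pd2 true true false .pp 2 0 2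
    ndB1q2a ndB1q0 pcB2 cut_pm_202_a Ext.none :=
  certB1 (fam := true) (s1 := true) (s2 := false) (a := 2) (b := 0) (c := 2) (cn := .pp) (n1 := ndB1q2a) (n2 := ndB1q0) (pc := pcB2) (cut := cut_pm_202_a) (xt := Ext.none) (P1 := 0) (W1 := 536870912) (P2 := 0) (W2 := 536870912) (P3 := 991146299) (W3 := 28908434) (N0 := 3) (En := eng) (mo := mog) (C1 := cd1q2a) (C2 := cd1q0) (C3 := pd2)
    rfl (fun _ => rfl) s10_pm_202_a

noncomputable def cut_pm_202_b : Cut := Cut.of [[⟨0, 1, 0, 53687091⟩, ⟨1, 0, 0, 53687091⟩, ⟨2, 1, 0, 53687091⟩]]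

noncomputable def f_pm_202_b : ℕ → ℕ → ℕ → ℕ → Bool := onCell 1073741824 536870912 0 536870912 991146299 28908434
    (rowB 3 eng mog cd1q2b cd1q0 pd2 2 true true false .pp 2 0 2 (qsf 1239849684 370763052 0 536870912 2) ndB1q2b ndB1q0 pcB2 cut_pm_202_b Ext.none)

def k0_pm_202_b : ∃ t, chk3 f_pm_202_b t 1 1 1 = true :=
  ⟨(a (b (a (l 1) (b (a (b (a (b (c (l 273836399479) (l 284036824471)) (l 1)) (b (c (l 16243776) (l 16233392)) (l 280816083927))) (l 1)) (b (a (b (a (l 16233376) (l 16243080)) (l 16284000)) (a (l 16134256) (l 16148392))) (a (a (l 1) (l 280815781815)) (a (l 186326355911) (l 197600479943))))) (l 1))) (l 1)) (a (b (b (a (b (a (c (l 16235168) (l 16124896)) (c (l 16113240) (l 15994056))) (a (b (l 16024600) (l 204042662279)) (c (l 16077472) (l 15943856)))) (b (c (a (l 15992704) (l 15873728)) (a (l 15844896) (l 15698584))) (a (c (l 15974416) (l 15811704)) (c (l 15873136) (l 15682816))))) (a (b (a (c (l 278130840007) (l 274909342071)) (c (l 211021803319)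 (l 211021511175))) (l 1)) (b (a (c (l 15913688) (l 189546977591)) (c (l 15831232) (l 15628416))) (a (c (l 266319569479) (l 252897543751)) (c (l 242160261399) (l 248065530215)))))) (l 1)) (b (c (b (a (b (a (l 15756560) (l 15641584)) (l 15557024)) (b (l 15369072) (l 15389600))) (a (b (a (l 15750984) (l 15673256)) (a (l 15686680) (l 15628552))) (b (a (l 15598504) (l 15533088)) (a (l 15573576) (l 15530016))))) (b (a (b (a (l 15555464) (l 15416056)) (a (l 15557536) (l 15436328))) (b (l 15047064) (a (l 15319816) (l 15209176)))) (a (b (a (l 15522360) (l 15420688)) (a (l 15448216) (l 15366712))) (b (a (l 15323984) (l 15240680)) (a (l 15290456) (l 15230336)))))) (b (a (b (c (a (l 299605193863) (l 271687798343)) (a (l 298531015639) (l 270076715991))) (l 1)) (a (b (c (l 15508928) (l 199209623383)) (c (l 313563421863) (l 312489145991))) (b (c (a (l 15484824) (l 15479544)) (a (l 15181664) (l 15170888))) (c (b (l 15402368) (l 308194687095)) (b (l 233569093399) (l 302288416375))))))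 (l 1))))), by decide +kernel⟩

theorem c_pm_202_b : CertB 1239849684 370763052 0 536870912 991146299 28908434 3 eng mog cd1q2b cd1q0 pd2 true true false .pp 2 0 2
    ndB1q2b ndB1q0 pcB2 cut_pm_202_b Ext.none :=
  certB2 (fam := true) (s1 := true) (s2 := false) (a := 2) (b := 0) (c := 2) (cn := .pp) (n1 := ndB1q2b) (n2 := ndB1q0) (pc := pcB2) (cut := cut_pm_202_b) (xt := Ext.none) (P1 := 1239849684) (W1 := 370763052) (P2 := 0) (W2 := 536870912) (P3 := 991146299) (W3 := 28908434) (N0 := 3) (En := eng) (mo := mog) (C1 := cd1q2b) (C2 := cd1q0) (C3 := pd2)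
    rfl (fun _ => rfl) k0_pm_202_b

noncomputable def f_pm_203_a : ℕ → ℕ → ℕ → ℕ → Bool := onCell 0 536870912 1610612736 536870912 991146299 28908434
    (rowB 3 eng mog cd1q2a cd1q0 pd3 1 true true false .up 2 0 3 (qsf 0 536870912 0 536870912 3) ndB1q2a ndB1q0 pcB3 Cut.none Ext.none)

def k0_pm_203_a : ∃ t, chk3 f_pm_203_a t 1 1 1 = true :=
  ⟨(b (b (a (b (a (a (b (l 16093488) (l 16037624)) (b (l 16027336) (l 15996736))) (c (l 15995952) (l 16004608))) (a (a (b (l 16096848) (l 16181152)) (b (l 16230088) (l 15978152))) (b (l 15945416) (a (l 15979824) (l 15953360))))) (a (b (c (a (l 15930920) (l 15850448)) (l 15703424)) (c (l 15675528) (l 15733440))) (b (a (c (l 15730536) (l 15786416)) (c (b (l 15573304) (l 15546936)) (b (l 15637496) (l 15595248)))) (a (c (l 15704280) (l 15730632)) (l 2))))) (a (b (a (b (l 16162784) (l 16227216)) (b (a (l 16016320) (l 15968792)) (l 2))) (l 2)) (a (l 2) (l 2)))) (l 2)), by decide +kernel⟩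

theorem c_pm_203_a : CertB 0 536870912 0 536870912 991146299 28908434 3 eng mog cd1q2a cd1q0 pd3 true true false .up 2 0 3
    ndB1q2a ndB1q0 pcB3 Cut.none Ext.none :=
  certB1 (fam := true) (s1 := true) (s2 := false) (a := 2) (b := 0) (c := 3) (cn := .up) (n1 := ndB1q2a) (n2 := ndB1q0) (pc := pcB3) (cut := Cut.none) (xt := Ext.none) (P1 := 0) (W1 := 536870912) (P2 := 0) (W2 := 536870912) (P3 := 991146299) (W3 := 28908434) (N0 := 3) (En := eng) (mo := mog) (C1 := cd1q2a) (C2 := cd1q0) (C3 := pd3)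
    rfl (fun _ => rfl) k0_pm_203_a

noncomputable def f_pm_203_b : ℕ → ℕ → ℕ → ℕ → Bool := onCell 1239849684 370763052 1610612736 536870912 991146299 28908434
    (rowB 3 eng mog cd1q2b cd1q0 pd3 1 true true false .up 2 0 3 (qsf 1239849684 370763052 0 536870912 3) ndB1q2b ndB1q0 pcB3 Cut.none Ext.none)

def k0_pm_203_b : ∃ t, chk3 f_pm_203_b t 1 1 1 = true :=
  ⟨(b (b (a (b (a (b (l 16111928) (l 16166592)) (l 15989568)) (a (b (l 16240264) (l 16328744)) (b (l 16317840) (l 16415360)))) (b (a (b (l 16118440) (l 16190648)) (b (l 15708736) (l 15962992))) (a (l 16120456) (b (l 16001944) (l 16032304))))) (a (b (a (b (l 16364560) (l 16489936)) (b (l 16522152) (l 16632760))) (b (a (l 283030868791) (l 16713128)) (a (l 4) (l 4)))) (b (a (b (l 16433264) (l 16437936)) (b (l 16057360) (l 16082368))) (b (a (l 16480096) (l 4)) (l 4))))) (b (l 4) (l 4))), by decide +kernel⟩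

theorem c_pm_203_b : CertB 1239849684 370763052 0 536870912 991146299 28908434 3 eng mog cd1q2b cd1q0 pd3 true true false .up 2 0 3
    ndB1q2b ndB1q0 pcB3 Cut.none Ext.none :=
  certB1 (fam := true) (s1 := true) (s2 := false) (a := 2) (b := 0) (c := 3) (cn := .up) (n1 := ndB1q2b) (n2 := ndB1q0) (pc := pcB3) (cut := Cut.none) (xt := Ext.none) (P1 := 1239849684) (W1 := 370763052) (P2 := 0) (W2 := 536870912) (P3 := 991146299) (W3 := 28908434) (N0 := 3) (En := eng) (mo := mog) (C1 := cd1q2b) (C2 := cd1q0) (C3 := pd3)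
    rfl (fun _ => rfl) k0_pm_203_b

noncomputable def f_pm_213_a : ℕ → ℕ → ℕ → ℕ → Bool := onCell 0 536870912 1610612736 536870912 991146299 28908434
    (rowB 3 eng mog cd1q2a cd1q1 pd3 1 true true false .pnn 2 1 3 (qsf 0 536870912 536870912 536870912 3) ndB1q2a ndB1q1 pcB3 Cut.none Ext.none)

def k0_pm_213_a : ∃ t, chk3 f_pm_213_a t 2 1 1 = true :=
  ⟨(b (b (b (l 1) (a (l 1) (b (l 1) (l 253435256551)))) (b (a (b (l 16377320) (l 16336008)) (a (b (l 16221712) (l 16324600)) (b (l 16252160) (l 16257448)))) (a (b (l 16206744) (a (l 16193096) (l 16419504))) (a (b (l 16391464) (l 16453952)) (b (l 16282496) (l 16330720)))))) (b (a (b (b (a (l 99554863511) (l 16349656)) (b (l 94723466999) (l 4))) (l 4)) (b (b (l 16290304) (a (l 16459448) (l 16468056))) (b (b (l 16427232) (l 16432936)) (a (l 4) (b (l 16579992) (l 16615592)))))) (l 4))), by decide +kernel⟩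

def k1_pm_213_a : ∃ t, chk3 f_pm_213_a t 3 1 1 = true :=
  ⟨(b (b (a (b (l 1) (a (l 16204200) (b (l 16220712) (l 16190776)))) (b (a (c (l 16153128) (l 16238960)) (c (b (l 16117736) (l 16064744)) (a (l 16170472) (l 16040096)))) (a (b (l 16128832) (l 16107040)) (c (b (l 16010552) (l 15956952)) (b (l 16038776) (l 15971568)))))) (b (a (a (l 16174840) (c (l 16156480) (l 16152768))) (a (b (l 16067736) (l 16034144)) (b (a (l 15955024) (l 15852048)) (a (l 15907592) (l 15793088))))) (a (a (b (l 16214872) (l 16232824)) (b (l 16135472) (l 16136440))) (a (b (l 16008920) (l 15995176)) (b (a (l 15868280) (l 15742152)) (a (l 15840768) (l 15703552))))))) (a (b (b (b (a (a (l 16296088) (l 16239184)) (l 16152016)) (a (l 16334696) (l 16191808))) (b (a (l 16418448) (a (l 16294184) (l 16210336))) (a (l 16464864) (b (l 16322808) (l 16377296))))) (b (a (b (b (l 16577632) (l 16624552)) (l 4)) (b (b (l 16435032) (l 16495696)) (b (l 16554024) (l 16568960)))) (l 4))) (b (b (a (b (l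 15996712) (l 16018160)) (a (b (l 15829768) (l 15841456)) (b (l 15683072) (l 15688992)))) (b (a (l 16065312) (a (l 15884320) (l 15733848))) (a (a (l 16201248) (l 16094120)) (l 16072448)))) (a (b (b (a (l 16324528) (l 16218488)) (b (l 16389456) (a (l 16509704) (l 16443656)))) (b (b (a (l 16561608) (l 16533000)) (l 4)) (l 4))) (b (b (a (l 16118616) (l 16040264)) (b (l 16357104) (a (l 16417960) (l 16553904)))) (a (b (b (l 16574224) (l 16547192)) (l 4)) (b (b (l 16631248) (b (l 16601600) (l 16579272))) (b (b (l 16525792) (l 4)) (l 4))))))))), by decide +kernel⟩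

theorem s2_pm_213_a : ∃ t, chk3 f_pm_213_a t 1 1 1 = true := ex3_a k0_pm_213_a k1_pm_213_a

theorem c_pm_213_a : CertB 0 536870912 536870912 536870912 991146299 28908434 3 eng mog cd1q2a cd1q1 pd3 true true false .pnn 2 1 3
    ndB1q2a ndB1q1 pcB3 Cut.none Ext.none :=
  certB1 (fam := true) (s1 := true) (s2 := false) (a := 2) (b := 1) (c := 3) (cn := .pnn) (n1 := ndB1q2a) (n2 := ndB1q1) (pc := pcB3) (cut := Cut.none) (xt := Ext.none) (P1 := 0) (W1 := 536870912) (P2 := 536870912) (W2 := 536870912) (P3 := 991146299) (W3 := 28908434) (N0 := 3) (En := eng) (mo := mog) (C1 := cd1q2a) (C2 := cd1q1) (C3 := pd3)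
    rfl (fun _ => rfl) s2_pm_213_a

noncomputable def f_pm_213_b : ℕ → ℕ → ℕ → ℕ → Bool := onCell 1239849684 370763052 1610612736 536870912 991146299 28908434
    (rowB 3 eng mog cd1q2b cd1q1 pd3 1 true true false .pnn 2 1 3 (qsf 1239849684 370763052 536870912 536870912 3) ndB1q2b ndB1q1 pcB3 Cut.none Ext.none)

def k0_pm_213_b : ∃ t, chk3 f_pm_213_b t 1 1 1 = true :=
  ⟨(b (b (l 1) (a (b (a (a (b (l 16399216) (l 16331696)) (l 1)) (l 1)) (b (a (a (l 16198536) (l 16191648)) (l 1)) (a (l 4) (l 4)))) (l 1))) (b (l 4) (l 4))), by decide +kernel⟩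

theorem c_pm_213_b : CertB 1239849684 370763052 536870912 536870912 991146299 28908434 3 eng mog cd1q2b cd1q1 pd3 true true false .pnn 2 1 3
    ndB1q2b ndB1q1 pcB3 Cut.none Ext.none :=
  certB1 (fam := true) (s1 := true) (s2 := false) (a := 2) (b := 1) (c := 3) (cn := .pnn) (n1 := ndB1q2b) (n2 := ndB1q1) (pc := pcB3) (cut := Cut.none) (xt := Ext.none) (P1 := 1239849684) (W1 := 370763052) (P2 := 536870912) (W2 := 536870912) (P3 := 991146299) (W3 := 28908434) (N0 := 3) (En := eng) (mo := mog) (C1 := cd1q2b) (C2 := cd1q1) (C3 := pd3)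
    rfl (fun _ => rfl) k0_pm_213_b

noncomputable def f_pm_303 : ℕ → ℕ → ℕ → ℕ → Bool := onCell 1610612736 536870912 0 536870912 991146299 28908434
    (rowB 3 eng mog cd1q3 cd1q0 pd3 2 true true false .npn 3 0 3 (qsf 1610612736 536870912 0 536870912 3) ndB1q3 ndB1q0 pcB3 Cut.none Ext.none)

def k0_pm_303 : ∃ t, chk3 f_pm_303 t 1 1 1 = true :=
  ⟨(a (a (b (b (a (b (a (l 15803632) (l 15732776)) (a (l 1) (l 15941216))) (b (a (l 15607064) (l 15413280)) (a (l 15913072) (l 15784136)))) (a (l 1) (b (l 269540936167) (l 1)))) (l 1)) (a (b (b (b (a (l 15346472) (l 15224872)) (a (l 15655416) (l 15534808))) (a (l 172367240919) (b (l 15829280) (l 16102632)))) (l 1)) (a (b (b (b (l 15150064) (l 4)) (l 4)) (l 1)) (l 4)))) (l 4)), by decide +kernel⟩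

theorem c_pm_303 : CertB 1610612736 536870912 0 536870912 991146299 28908434 3 eng mog cd1q3 cd1q0 pd3 true true false .npn 3 0 3
    ndB1q3 ndB1q0 pcB3 Cut.none Ext.none :=
  certB2 (fam := true) (s1 := true) (s2 := false) (a := 3) (b := 0) (c := 3) (cn := .npn) (n1 := ndB1q3) (n2 := ndB1q0) (pc := pcB3) (cut := Cut.none) (xt := Ext.none) (P1 := 1610612736) (W1 := 536870912) (P2 := 0) (W2 := 536870912) (P3 := 991146299) (W3 := 28908434) (N0 := 3) (En := eng) (mo := mog) (C1 := cd1q3) (C2 := cd1q0) (C3 := pd3)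
    rfl (fun _ => rfl) k0_pm_303

noncomputable def f_pm_313 : ℕ → ℕ → ℕ → ℕ → Bool := onCell 1610612736 536870912 536870912 536870912 991146299 28908434
    (rowB 3 eng mog cd1q3 cd1q1 pd3 0 true true false .dn 3 1 3 (qsf 1610612736 536870912 536870912 536870912 3) ndB1q3 ndB1q1 pcB3 Cut.none Ext.none)

def k0_pm_313 : ∃ t, chk3 f_pm_313 t 1 1 1 = true :=
  ⟨(l 4), by decide +kernel⟩

theorem c_pm_313 : CertB 1610612736 536870912 536870912 536870912 991146299 28908434 3 eng mog cd1q3 cd1q1 pd3 true true false .dn 3 1 3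
    ndB1q3 ndB1q1 pcB3 Cut.none Ext.none :=
  certB0 (fam := true) (s1 := true) (s2 := false) (a := 3) (b := 1) (c := 3) (cn := .dn) (n1 := ndB1q3) (n2 := ndB1q1) (pc := pcB3) (cut := Cut.none) (xt := Ext.none) (P1 := 1610612736) (W1 := 536870912) (P2 := 536870912) (W2 := 536870912) (P3 := 991146299) (W3 := 28908434) (N0 := 3) (En := eng) (mo := mog) (C1 := cd1q3) (C2 := cd1q1) (C3 := pd3)
    rfl k0_pm_313

noncomputable def f_mm_001 : ℕ → ℕ → ℕ → ℕ → Bool := onCell 0 536870912 0 536870912 991146299 28908434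
    (rowB 3 eng mog cd1q0 cd1q0 pd1 0 true false false .up 0 0 1 (qsf 0 536870912 0 536870912 1) ndB1q0 ndB1q0 pcB1 Cut.none Ext.none)

def k0_mm_001 : ∃ t, chk3 f_mm_001 t 1 1 1 = true :=
  ⟨(l 4), by decide +kernel⟩

theorem c_mm_001 : CertB 0 536870912 0 536870912 991146299 28908434 3 eng mog cd1q0 cd1q0 pd1 true false false .up 0 0 1
    ndB1q0 ndB1q0 pcB1 Cut.none Ext.none :=
  certB0 (fam := true) (s1 := false) (s2 := false) (a := 0) (b := 0) (c := 1) (cn := .up) (n1 := ndB1q0) (n2 := ndB1q0) (pc := pcB1) (cut := Cut.none) (xt := Ext.none) (P1 := 0) (W1 := 536870912) (P2 := 0) (W2 := 536870912) (P3 := 991146299) (W3 := 28908434) (N0 := 3) (En := eng) (mo := mog) (C1 := cd1q0) (C2 := cd1q0) (C3 := pd1)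
    rfl k0_mm_001

noncomputable def f_mm_011 : ℕ → ℕ → ℕ → ℕ → Bool := onCell 0 536870912 536870912 536870912 991146299 28908434
    (rowB 3 eng mog cd1q0 cd1q1 pd1 0 true false false .pnn 0 1 1 (qsf 0 536870912 536870912 536870912 1) ndB1q0 ndB1q1 pcB1 Cut.none Ext.none)

def k0_mm_011 : ∃ t, chk3 f_mm_011 t 1 1 1 = true :=
  ⟨(l 4), by decide +kernel⟩

theorem c_mm_011 : CertB 0 536870912 536870912 536870912 991146299 28908434 3 eng mog cd1q0 cd1q1 pd1 true false false .pnn 0 1 1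
    ndB1q0 ndB1q1 pcB1 Cut.none Ext.none :=
  certB0 (fam := true) (s1 := false) (s2 := false) (a := 0) (b := 1) (c := 1) (cn := .pnn) (n1 := ndB1q0) (n2 := ndB1q1) (pc := pcB1) (cut := Cut.none) (xt := Ext.none) (P1 := 0) (W1 := 536870912) (P2 := 536870912) (W2 := 536870912) (P3 := 991146299) (W3 := 28908434) (N0 := 3) (En := eng) (mo := mog) (C1 := cd1q0) (C2 := cd1q1) (C3 := pd1)
    rfl k0_mm_011

noncomputable def f_mm_012 : ℕ → ℕ → ℕ → ℕ → Bool := onCell 0 536870912 536870912 536870912 991146299 28908434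
    (rowB 3 eng mog cd1q0 cd1q1 pd2 0 true false false .pnp 0 1 2 (qsf 0 536870912 536870912 536870912 2) ndB1q0 ndB1q1 pcB2 Cut.none Ext.none)

def k0_mm_012 : ∃ t, chk3 f_mm_012 t 1 1 1 = true :=
  ⟨(l 4), by decide +kernel⟩

theorem c_mm_012 : CertB 0 536870912 536870912 536870912 991146299 28908434 3 eng mog cd1q0 cd1q1 pd2 true false false .pnp 0 1 2
    ndB1q0 ndB1q1 pcB2 Cut.none Ext.none :=
  certB0 (fam := true) (s1 := false) (s2 := false) (a := 0) (b := 1) (c := 2) (cn := .pnp) (n1 := ndB1q0) (n2 := ndB1q1) (pc := pcB2) (cut := Cut.none) (xt := Ext.none) (P1 := 0) (W1 := 536870912) (P2 := 536870912) (W2 := 536870912) (P3 := 991146299) (W3 := 28908434) (N0 := 3) (En := eng) (mo := mog) (C1 := cd1q0) (C2 := cd1q1) (C3 := pd2)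
    rfl k0_mm_012

noncomputable def f_mm_022_a : ℕ → ℕ → ℕ → ℕ → Bool := onCell 0 536870912 0 536870912 991146299 28908434
    (rowB 3 eng mog cd1q0 cd1q2a pd2 0 true false false .pp 0 2 2 (qsf 0 536870912 0 536870912 2) ndB1q0 ndB1q2a pcB2 Cut.none Ext.none)

def k0_mm_022_a : ∃ t, chk3 f_mm_022_a t 1 1 1 = true :=
  ⟨(l 5), by decide +kernel⟩

theorem c_mm_022_a : CertB 0 536870912 0 536870912 991146299 28908434 3 eng mog cd1q0 cd1q2a pd2 true false false .pp 0 2 2
    ndB1q0 ndB1q2a pcB2 Cut.none Ext.none :=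
  certB0 (fam := true) (s1 := false) (s2 := false) (a := 0) (b := 2) (c := 2) (cn := .pp) (n1 := ndB1q0) (n2 := ndB1q2a) (pc := pcB2) (cut := Cut.none) (xt := Ext.none) (P1 := 0) (W1 := 536870912) (P2 := 0) (W2 := 536870912) (P3 := 991146299) (W3 := 28908434) (N0 := 3) (En := eng) (mo := mog) (C1 := cd1q0) (C2 := cd1q2a) (C3 := pd2)
    rfl k0_mm_022_a

noncomputable def f_mm_022_b : ℕ → ℕ → ℕ → ℕ → Bool := onCell 0 536870912 1239849684 370763052 991146299 28908434
    (rowB 3 eng mog cd1q0 cd1q2b pd2 0 true false false .pp 0 2 2 (qsf 0 536870912 1239849684 370763052 2) ndB1q0 ndB1q2b pcB2 Cut.none Ext.none)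

def k0_mm_022_b : ∃ t, chk3 f_mm_022_b t 1 1 1 = true :=
  ⟨(l 5), by decide +kernel⟩

theorem c_mm_022_b : CertB 0 536870912 1239849684 370763052 991146299 28908434 3 eng mog cd1q0 cd1q2b pd2 true false false .pp 0 2 2
    ndB1q0 ndB1q2b pcB2 Cut.none Ext.none :=
  certB0 (fam := true) (s1 := false) (s2 := false) (a := 0) (b := 2) (c := 2) (cn := .pp) (n1 := ndB1q0) (n2 := ndB1q2b) (pc := pcB2) (cut := Cut.none) (xt := Ext.none) (P1 := 0) (W1 := 536870912) (P2 := 1239849684) (W2 := 370763052) (P3 := 991146299) (W3 := 28908434) (N0 := 3) (En := eng) (mo := mog) (C1 := cd1q0) (C2 := cd1q2b) (C3 := pd2)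
    rfl k0_mm_022_b

noncomputable def f_mm_023_a : ℕ → ℕ → ℕ → ℕ → Bool := onCell 0 536870912 0 536870912 991146299 28908434
    (rowB 3 eng mog cd1q0 cd1q2a pd3 0 true false false .up 0 2 3 (qsf 0 536870912 0 536870912 3) ndB1q0 ndB1q2a pcB3 Cut.none Ext.none)

def k0_mm_023_a : ∃ t, chk3 f_mm_023_a t 1 1 1 = true :=
  ⟨(l 5), by decide +kernel⟩

theorem c_mm_023_a : CertB 0 536870912 0 536870912 991146299 28908434 3 eng mog cd1q0 cd1q2a pd3 true false false .up 0 2 3
    ndB1q0 ndB1q2a pcB3 Cut.none Ext.none :=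
  certB0 (fam := true) (s1 := false) (s2 := false) (a := 0) (b := 2) (c := 3) (cn := .up) (n1 := ndB1q0) (n2 := ndB1q2a) (pc := pcB3) (cut := Cut.none) (xt := Ext.none) (P1 := 0) (W1 := 536870912) (P2 := 0) (W2 := 536870912) (P3 := 991146299) (W3 := 28908434) (N0 := 3) (En := eng) (mo := mog) (C1 := cd1q0) (C2 := cd1q2a) (C3 := pd3)
    rfl k0_mm_023_a

noncomputable def f_mm_023_b : ℕ → ℕ → ℕ → ℕ → Bool := onCell 0 536870912 1239849684 370763052 991146299 28908434
    (rowB 3 eng mog cd1q0 cd1q2b pd3 0 true false false .up 0 2 3 (qsf 0 536870912 1239849684 370763052 3) ndB1q0 ndB1q2b pcB3 Cut.none Ext.none)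

def k0_mm_023_b : ∃ t, chk3 f_mm_023_b t 1 1 1 = true :=
  ⟨(l 5), by decide +kernel⟩

theorem c_mm_023_b : CertB 0 536870912 1239849684 370763052 991146299 28908434 3 eng mog cd1q0 cd1q2b pd3 true false false .up 0 2 3
    ndB1q0 ndB1q2b pcB3 Cut.none Ext.none :=
  certB0 (fam := true) (s1 := false) (s2 := false) (a := 0) (b := 2) (c := 3) (cn := .up) (n1 := ndB1q0) (n2 := ndB1q2b) (pc := pcB3) (cut := Cut.none) (xt := Ext.none) (P1 := 0) (W1 := 536870912) (P2 := 1239849684) (W2 := 370763052) (P3 := 991146299) (W3 := 28908434) (N0 := 3) (En := eng) (mo := mog) (C1 := cd1q0) (C2 := cd1q2b) (C3 := pd3)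
    rfl k0_mm_023_b

noncomputable def f_mm_033 : ℕ → ℕ → ℕ → ℕ → Bool := onCell 0 536870912 1610612736 536870912 991146299 28908434
    (rowB 3 eng mog cd1q0 cd1q3 pd3 0 true false false .pnn 0 3 3 (qsf 0 536870912 1610612736 536870912 3) ndB1q0 ndB1q3 pcB3 Cut.none Ext.none)

def k0_mm_033 : ∃ t, chk3 f_mm_033 t 1 1 1 = true :=
  ⟨(l 5), by decide +kernel⟩

theorem c_mm_033 : CertB 0 536870912 1610612736 536870912 991146299 28908434 3 eng mog cd1q0 cd1q3 pd3 true false false .pnn 0 3 3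
    ndB1q0 ndB1q3 pcB3 Cut.none Ext.none :=
  certB0 (fam := true) (s1 := false) (s2 := false) (a := 0) (b := 3) (c := 3) (cn := .pnn) (n1 := ndB1q0) (n2 := ndB1q3) (pc := pcB3) (cut := Cut.none) (xt := Ext.none) (P1 := 0) (W1 := 536870912) (P2 := 1610612736) (W2 := 536870912) (P3 := 991146299) (W3 := 28908434) (N0 := 3) (En := eng) (mo := mog) (C1 := cd1q0) (C2 := cd1q3) (C3 := pd3)
    rfl k0_mm_033

noncomputable def f_mm_101 : ℕ → ℕ → ℕ → ℕ → Bool := onCell 536870912 536870912 0 536870912 991146299 28908434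
    (rowB 3 eng mog cd1q1 cd1q0 pd1 0 true false false .npn 1 0 1 (qsf 536870912 536870912 0 536870912 1) ndB1q1 ndB1q0 pcB1 Cut.none Ext.none)

def k0_mm_101 : ∃ t, chk3 f_mm_101 t 1 1 1 = true :=
  ⟨(l 4), by decide +kernel⟩

theorem c_mm_101 : CertB 536870912 536870912 0 536870912 991146299 28908434 3 eng mog cd1q1 cd1q0 pd1 true false false .npn 1 0 1
    ndB1q1 ndB1q0 pcB1 Cut.none Ext.none :=
  certB0 (fam := true) (s1 := false) (s2 := false) (a := 1) (b := 0) (c := 1) (cn := .npn) (n1 := ndB1q1) (n2 := ndB1q0) (pc := pcB1) (cut := Cut.none) (xt := Ext.none) (P1 := 536870912) (W1 := 536870912) (P2 := 0) (W2 := 536870912) (P3 := 991146299) (W3 := 28908434) (N0 := 3) (En := eng) (mo := mog) (C1 := cd1q1) (C2 := cd1q0) (C3 := pd1)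
    rfl k0_mm_101

noncomputable def f_mm_102 : ℕ → ℕ → ℕ → ℕ → Bool := onCell 536870912 536870912 0 536870912 991146299 28908434
    (rowB 3 eng mog cd1q1 cd1q0 pd2 0 true false false .npp 1 0 2 (qsf 536870912 536870912 0 536870912 2) ndB1q1 ndB1q0 pcB2 Cut.none Ext.none)

def k0_mm_102 : ∃ t, chk3 f_mm_102 t 1 1 1 = true :=
  ⟨(l 4), by decide +kernel⟩

theorem c_mm_102 : CertB 536870912 536870912 0 536870912 991146299 28908434 3 eng mog cd1q1 cd1q0 pd2 true false false .npp 1 0 2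
    ndB1q1 ndB1q0 pcB2 Cut.none Ext.none :=
  certB0 (fam := true) (s1 := false) (s2 := false) (a := 1) (b := 0) (c := 2) (cn := .npp) (n1 := ndB1q1) (n2 := ndB1q0) (pc := pcB2) (cut := Cut.none) (xt := Ext.none) (P1 := 536870912) (W1 := 536870912) (P2 := 0) (W2 := 536870912) (P3 := 991146299) (W3 := 28908434) (N0 := 3) (En := eng) (mo := mog) (C1 := cd1q1) (C2 := cd1q0) (C3 := pd2)
    rfl k0_mm_102

noncomputable def f_mm_112 : ℕ → ℕ → ℕ → ℕ → Bool := onCell 536870912 536870912 536870912 536870912 991146299 28908434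
    (rowB 3 eng mog cd1q1 cd1q1 pd2 0 true false false .dn 1 1 2 (qsf 536870912 536870912 536870912 536870912 2) ndB1q1 ndB1q1 pcB2 Cut.none Ext.none)

def k0_mm_112 : ∃ t, chk3 f_mm_112 t 1 1 1 = true :=
  ⟨(l 4), by decide +kernel⟩

theorem c_mm_112 : CertB 536870912 536870912 536870912 536870912 991146299 28908434 3 eng mog cd1q1 cd1q1 pd2 true false false .dn 1 1 2
    ndB1q1 ndB1q1 pcB2 Cut.none Ext.none :=
  certB0 (fam := true) (s1 := false) (s2 := false) (a := 1) (b := 1) (c := 2) (cn := .dn) (n1 := ndB1q1) (n2 := ndB1q1) (pc := pcB2) (cut := Cut.none) (xt := Ext.none) (P1 := 536870912) (W1 := 536870912) (P2 := 536870912) (W2 := 536870912) (P3 := 991146299) (W3 := 28908434) (N0 := 3) (En := eng) (mo := mog) (C1 := cd1q1) (C2 := cd1q1) (C3 := pd2)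
    rfl k0_mm_112

noncomputable def f_mm_113 : ℕ → ℕ → ℕ → ℕ → Bool := onCell 536870912 536870912 536870912 536870912 991146299 28908434
    (rowB 3 eng mog cd1q1 cd1q1 pd3 0 true false false .nn 1 1 3 (qsf 536870912 536870912 536870912 536870912 3) ndB1q1 ndB1q1 pcB3 Cut.none Ext.none)

def k0_mm_113 : ∃ t, chk3 f_mm_113 t 1 1 1 = true :=
  ⟨(l 4), by decide +kernel⟩

theorem c_mm_113 : CertB 536870912 536870912 536870912 536870912 991146299 28908434 3 eng mog cd1q1 cd1q1 pd3 true false false .nn 1 1 3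
    ndB1q1 ndB1q1 pcB3 Cut.none Ext.none :=
  certB0 (fam := true) (s1 := false) (s2 := false) (a := 1) (b := 1) (c := 3) (cn := .nn) (n1 := ndB1q1) (n2 := ndB1q1) (pc := pcB3) (cut := Cut.none) (xt := Ext.none) (P1 := 536870912) (W1 := 536870912) (P2 := 536870912) (W2 := 536870912) (P3 := 991146299) (W3 := 28908434) (N0 := 3) (En := eng) (mo := mog) (C1 := cd1q1) (C2 := cd1q1) (C3 := pd3)
    rfl k0_mm_113

noncomputable def f_mm_123_a : ℕ → ℕ → ℕ → ℕ → Bool := onCell 536870912 536870912 0 536870912 991146299 28908434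
    (rowB 3 eng mog cd1q1 cd1q2a pd3 0 true false false .npn 1 2 3 (qsf 536870912 536870912 0 536870912 3) ndB1q1 ndB1q2a pcB3 Cut.none Ext.none)

def k0_mm_123_a : ∃ t, chk3 f_mm_123_a t 1 1 1 = true :=
  ⟨(l 4), by decide +kernel⟩

theorem c_mm_123_a : CertB 536870912 536870912 0 536870912 991146299 28908434 3 eng mog cd1q1 cd1q2a pd3 true false false .npn 1 2 3
    ndB1q1 ndB1q2a pcB3 Cut.none Ext.none :=
  certB0 (fam := true) (s1 := false) (s2 := false) (a := 1) (b := 2) (c := 3) (cn := .npn) (n1 := ndB1q1) (n2 := ndB1q2a) (pc := pcB3) (cut := Cut.none) (xt := Ext.none) (P1 := 536870912) (W1 := 536870912) (P2 := 0) (W2 := 536870912) (P3 := 991146299) (W3 := 28908434) (N0 := 3) (En := eng) (mo := mog) (C1 := cd1q1) (C2 := cd1q2a) (C3 := pd3)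
    rfl k0_mm_123_a

noncomputable def f_mm_123_b : ℕ → ℕ → ℕ → ℕ → Bool := onCell 536870912 536870912 1239849684 370763052 991146299 28908434
    (rowB 3 eng mog cd1q1 cd1q2b pd3 0 true false false .npn 1 2 3 (qsf 536870912 536870912 1239849684 370763052 3) ndB1q1 ndB1q2b pcB3 Cut.none Ext.none)

def k0_mm_123_b : ∃ t, chk3 f_mm_123_b t 1 1 1 = true :=
  ⟨(l 4), by decide +kernel⟩

theorem c_mm_123_b : CertB 536870912 536870912 1239849684 370763052 991146299 28908434 3 eng mog cd1q1 cd1q2b pd3 true false false .npn 1 2 3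
    ndB1q1 ndB1q2b pcB3 Cut.none Ext.none :=
  certB0 (fam := true) (s1 := false) (s2 := false) (a := 1) (b := 2) (c := 3) (cn := .npn) (n1 := ndB1q1) (n2 := ndB1q2b) (pc := pcB3) (cut := Cut.none) (xt := Ext.none) (P1 := 536870912) (W1 := 536870912) (P2 := 1239849684) (W2 := 370763052) (P3 := 991146299) (W3 := 28908434) (N0 := 3) (En := eng) (mo := mog) (C1 := cd1q1) (C2 := cd1q2b) (C3 := pd3)
    rfl k0_mm_123_b

noncomputable def f_mm_133 : ℕ → ℕ → ℕ → ℕ → Bool := onCell 536870912 536870912 1610612736 536870912 991146299 28908434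
    (rowB 3 eng mog cd1q1 cd1q3 pd3 0 true false false .dn 1 3 3 (qsf 536870912 536870912 1610612736 536870912 3) ndB1q1 ndB1q3 pcB3 Cut.none Ext.none)

def k0_mm_133 : ∃ t, chk3 f_mm_133 t 1 1 1 = true :=
  ⟨(l 4), by decide +kernel⟩

theorem c_mm_133 : CertB 536870912 536870912 1610612736 536870912 991146299 28908434 3 eng mog cd1q1 cd1q3 pd3 true false false .dn 1 3 3
    ndB1q1 ndB1q3 pcB3 Cut.none Ext.none :=
  certB0 (fam := true) (s1 := false) (s2 := false) (a := 1) (b := 3) (c := 3) (cn := .dn) (n1 := ndB1q1) (n2 := ndB1q3) (pc := pcB3) (cut := Cut.none) (xt := Ext.none) (P1 := 536870912) (W1 := 536870912) (P2 := 1610612736) (W2 := 536870912) (P3 := 991146299) (W3 := 28908434) (N0 := 3) (En := eng) (mo := mog) (C1 := cd1q1) (C2 := cd1q3) (C3 := pd3)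
    rfl k0_mm_133

noncomputable def cut_mm_202_a : Cut := Cut.of [[⟨0, 1, 0, 53687091⟩, ⟨1, 0, 0, 53687091⟩, ⟨2, 1, 0, 53687091⟩]]

noncomputable def f_mm_202_a : ℕ → ℕ → ℕ → ℕ → Bool := onCell 0 536870912 1073741824 536870912 991146299 28908434
    (rowB 3 eng mog cd1q2a cd1q0 pd2 1 true false false .pp 2 0 2 (qsf 0 536870912 0 536870912 2) ndB1q2a ndB1q0 pcB2 cut_mm_202_a Ext.none)

def k0_mm_202_a : ∃ t, chk3 f_mm_202_a t 4 1 1 = true :=
  ⟨(b (b (l 1) (b (b (b (l 1) (b (a (l 1) (c (l 16166816) (l 16143664))) (a (a (l 16166736) (l 16182296)) (c (l 16228840) (l 16218848))))) (a (b (c (l 16218160) (l 16202368)) (c (l 16402808) (l 16433640))) (b (c (l 16293872) (l 16280688)) (c (l 16416840) (l 16444792))))) (b (c (b (l 16364760) (a (l 16398560) (l 16451288))) (a (b (l 16411520) (l 16325672)) (b (l 16453248) (l 16390824)))) (c (a (b (l 16344376) (l 16302520)) (b (l 16414800) (l 16389856))) (a (b (l 16256376) (l 16202856)) (b (l 16343920) (l 16311800)))))))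 (b (b (b (c (a (l 16135496) (l 16204672)) (a (b (l 16164288) (l 16139896)) (b (l 16293640) (l 16288656)))) (c (a (l 16138856) (l 16194992)) (a (b (l 16128920) (l 16130600)) (b (l 16296064) (l 16315112))))) (b (a (c (l 16138264) (b (l 16144216) (l 16169048))) (c (b (l 16415392) (l 16446168)) (b (l 16345056) (l 16364184)))) (a (c (l 16149968) (b (l 16204392) (l 16249504))) (c (b (l 16484064) (l 16527736)) (b (l 16371744) (l 16407880)))))) (b (b (a (c (l 16190432) (b (l 16303648) (l 16366088))) (c (b (l 16463912) (a (l 16577960) (l 16636384))) (b (a (l 16494664) (l 16600584)) (a (l 16559576) (l 16629752))))) (a (c (b (l 16478296) (l 16467936)) (b (l 16373176) (a (l 16441664) (l 16570680)))) (a (b (c (l 16614296) (l 16606336)) (l 18488081927)) (l 4)))) (a (b (c (b (a (l 16541536) (l 16595264)) (l 16523256)) (b (a (l 16521272) (l 16613104)) (a (l 16583632) (l 4)))) (b (c (l 16627400) (l 16629040)) (l 4))) (l 4))))), by decide +kernel⟩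

def k1_mm_202_a : ∃ t, chk3 f_mm_202_a t 5 1 1 = true :=
  ⟨(b (a (b (l 1) (b (b (b (b (l 1) (a (l 16173160) (a (l 16191992) (l 16220376)))) (c (a (l 16251656) (l 16294712)) (a (l 16240960) (l 16287600)))) (b (c (l 16306680) (l 16295312)) (a (l 16347712) (l 16369312)))) (b (b (c (l 16521736) (l 16502272)) (c (l 16510880) (l 16463600))) (c (b (l 16492216) (l 16484192)) (b (l 16397336) (l 16407664)))))) (b (a (l 1) (b (l 1) (b (l 1) (b (l 1) (b (l 1) (c (l 16243000) (l 16213696))))))) (c (b (b (b (a (b (l 16223616) (l 16274008)) (b (l 16291152) (l 16335728))) (a (l 16321984) (l 16354280))) (b (a (l 16422992) (l 16444512)) (b (l 16471528) (l 16520648)))) (b (b (l 16557704) (l 16580160)) (b (l 16579400) (l 16588280)))) (b (b (b (a (b (l 16196784) (l 16257136)) (b (l 16271224) (l 16324184))) (a (l 16318184) (l 16353504))) (b (b (l 16434824) (l 16453416)) (l 16484568))) (b (b (l 16561800) (l 16547160)) (b (l 16545552) (l 16556384))))))) (b (b (b (a (c (b (l 16486144)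 (l 16497408)) (b (l 16409872) (l 16403168))) (b (c (l 16605504) (a (l 16540440) (l 16616176))) (a (l 16520456) (c (l 16658320) (l 16642552))))) (a (c (b (l 16517328) (l 16545248)) (b (l 16470632) (l 16485656))) (b (a (c (l 16625232) (l 16604480)) (b (l 16666400) (l 4))) (a (c (l 16649800) (l 16634960)) (l 4))))) (b (b (a (c (l 16535528) (a (l 16499592) (l 16598400))) (c (l 44257985399) (l 54458490471))) (a (a (l 16480320) (c (l 16643672) (l 16630840))) (l 4))) (a (a (b (c (l 16613960) (l 16597456)) (c (l 16639400) (l 16629528))) (l 4)) (l 4)))) (l 4))), by decide +kernel⟩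

def k2_mm_202_a : ∃ t, chk3 f_mm_202_a t 6 4 1 = true :=
  ⟨(b (l 1) (b (a (l 1) (b (a (l 1) (b (l 1) (b (a (l 1) (c (a (l 16390880) (l 16426160)) (a (l 16357392) (l 16397216)))) (c (a (l 16393184) (a (l 16412552) (l 16446872))) (a (l 16346936) (a (l 16383296) (l 16421912))))))) (a (a (a (l 1) (b (l 1) (c (l 16350808) (l 16295672)))) (b (b (l 1) (c (l 16341760) (l 16306616))) (c (b (l 16363688) (l 16384688)) (b (l 16332840) (l 16357896))))) (b (c (a (b (a (l 16367328) (l 16400088)) (l 16415256)) (b (l 16428904) (l 16469040))) (a (b (l 16394264) (l 16377416)) (c (l 16422592) (l 16432576)))) (c (a (b (l 16424864) (l 16444064)) (b (l 16487288) (l 16504672))) (a (b (l 16401328) (l 16424096)) (b (l 16470936) (l 16491408)))))))) (a (b (b (a (l 1) (a (l 1) (c (b (l 16293368) (l 16316128)) (l 16318232)))) (a (a (l 1) (c (l 16250832) (l 16214256))) (c (a (l 16299096) (l 16348640)) (a (l 16268176) (l 16323280))))) (c (a (b (a (l 16254192) (l 16297920)) (l 16300688))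 (b (a (l 16342928) (l 16389176)) (l 16384384))) (a (b (a (l 16221984) (l 16270592)) (l 16300592)) (b (l 16241136) (l 16392144))))) (b (a (c (b (a (b (l 16348464) (l 16369480)) (b (l 16404808) (l 16424080))) (a (l 16399440) (l 16451472))) (b (a (b (l 16318976) (l 16344008)) (l 16372376)) (a (l 16379536) (l 16436912)))) (a (c (b (l 16429312) (l 16504736)) (b (l 16435216) (l 16495392))) (b (c (l 16508216) (l 16499152)) (c (l 16559200) (l 16554952))))) (a (c (b (a (l 16436672) (l 16485384)) (l 16452024)) (b (l 16366232) (l 16467224))) (b (c (a (l 16535304) (l 16586424)) (l 16474744)) (c (l 16524464) (l 16525656)))))))), by decide +kernel⟩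

def k3_mm_202_a : ∃ t, chk3 f_mm_202_a t 7 8 1 = true :=
  ⟨(b (a (l 1) (l 6)) (b (a (a (l 1) (a (l 1) (l 6))) (l 6)) (a (a (b (l 1) (a (l 1) (a (b (l 1) (c (b (l 16468312) (l 16479160)) (l 16477128))) (c (b (b (l 16486472) (l 16497376)) (l 16471264)) (b (c (l 16472848) (l 16459696)) (l 16491592)))))) (b (b (a (a (l 1) (c (b (l 16547344) (l 16558360)) (b (l 16523592) (l 16536696)))) (b (l 6) (c (a (l 16580504) (l 16623912)) (a (l 16564616) (l 16613760))))) (a (c (a (b (l 16505824) (l 16516784)) (c (l 16557904) (l 16548808))) (a (b (l 16480488) (l 16493536)) (c (l 16539472) (l 16529912)))) (a (c (c (l 16598912) (l 16592520)) (l 16540704)) (c (l 16596440) (l 16609848))))) (a (a (b (c (a (l 16522472) (l 16542920)) (l 16470504)) (c (l 16552952) (l 16536464))) (c (c (l 16544736) (l 16538336)) (c (l 16531776) (l 16546032)))) (a (c (c (l 16584336) (l 16580448)) (c (l 16576472) (l 16593384))) (c (c (l 16624232) (l 16622840)) (c (l 16621432) (l 16620000))))))) (a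 (a (b (b (b (l 6) (b (l 6) (a (l 16625992) (l 16672616)))) (a (c (l 16639376) (l 16637296)) (c (a (l 16692728) (l 16713128)) (a (l 16694728) (l 16711352))))) (a (c (b (l 16656712) (l 16672576)) (b (l 16657592) (l 16676088))) (c (b (a (l 16708408) (l 16736752)) (l 37815715927)) (b (a (l 16709520) (l 16730672)) (l 68417351591))))) (b (a (a (c (b (l 16707264) (l 16738968)) (b (l 16713424) (l 16733192))) (b (c (l 16720528) (l 16715088)) (l 4))) (l 4)) (l 4))) (l 4))))), by decide +kernel⟩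

def k4_mm_202_a : ∃ t, chk3 f_mm_202_a t 7 18 1 = true :=
  ⟨(a (b (a (b (b (a (a (l 1) (c (l 16477720) (l 16450008))) (c (a (l 16494896) (l 16533352)) (a (l 16472136) (l 16515496)))) (a (c (a (l 16451368) (l 16477752)) (a (l 16412456) (l 16454048))) (c (a (l 16514920) (l 16552400)) (a (l 16495904) (l 16538032))))) (b (c (a (a (l 16461752) (l 16497648)) (l 16489224)) (a (c (l 16463184) (l 16451816)) (l 16496864))) (c (a (l 16457072) (l 16548528)) (a (l 16459440) (l 16538288))))) (b (c (a (b (c (l 16573272) (l 16568104)) (l 16546336)) (b (c (l 16628696) (l 16628176)) (c (l 16643608) (l 16644336)))) (a (c (a (l 16572808) (l 16593904)) (l 16505384)) (a (l 16593792) (c (l 16657720) (l 16659072))))) (a (c (b (l 16583808) (l 16599240)) (b (l 16579184) (l 16597216))) (c (a (l 16646792) (b (l 16695152) (l 16722304))) (a (l 16649728) (b (l 16700568) (l 16726272))))))) (a (c (a (b (c (l 16508344) (l 16501656)) (b (l 16550936) (l 16566496))) (b (c (l 16574144) (l 16571160))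 (l 16559832))) (a (b (c (l 16494808) (l 16487808)) (l 16487912)) (b (c (l 16568128) (l 16565048)) (l 16579480)))) (a (b (c (b (l 16634632) (l 16627184)) (l 16579976)) (c (a (l 16650432) (l 16657144)) (b (l 16643000) (l 16632096)))) (a (b (c (b (l 16706288) (l 16712552)) (b (l 16711848) (l 16718784))) (b (l 74859756311) (l 4))) (l 4))))) (a (b (a (b (a (b (c (l 16683752) (l 16686168)) (c (l 16710888) (l 16708056))) (l 4)) (l 4)) (l 4)) (l 4)) (l 4))), by decide +kernel⟩

def k5_mm_202_a : ∃ t, chk3 f_mm_202_a t 7 19 1 = true :=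
  ⟨(a (a (b (b (a (c (l 16567360) (l 16564160)) (c (l 16606720) (b (l 16623144) (l 16658032)))) (a (c (l 16593888) (l 16594600)) (c (l 16606496) (a (l 16661648) (l 16688712))))) (c (a (b (l 16617752) (l 16658680)) (b (l 16666320) (l 16690384))) (a (b (l 16642512) (l 16664544)) (b (a (l 16682136) (l 16697768)) (l 16696536))))) (b (a (b (b (a (l 16648784) (l 16688192)) (a (l 16655744) (l 4))) (c (c (l 16702152) (l 16704912)) (l 103850753847))) (l 4)) (l 4))) (l 4)), by decide +kernel⟩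

def k6_mm_202_a : ∃ t, chk3 f_mm_202_a t 3 5 1 = true :=
  ⟨(b (a (b (c (a (b (a (b (l 16363776) (l 16402464)) (b (l 16441360) (l 16474088))) (a (l 16391480) (l 16454448))) (b (a (c (l 16474560) (l 16474744)) (b (l 16569032) (a (l 16610592) (l 16651256)))) (a (b (l 16574216) (l 16595072)) (b (l 16646344) (l 16658024))))) (a (b (a (b (l 16350432) (l 16395904)) (b (l 16434224) (l 16472128))) (a (l 16414336) (l 16458600))) (b (a (b (l 16501472) (l 16552704)) (b (a (l 16591120) (l 16638416)) (l 16615816))) (a (b (l 16558176) (l 16580944)) (b (l 16653080) (l 16664944)))))) (a (b (c (a (l 16491784) (l 16522768)) (b (l 16493592) (l 16561616))) (c (a (l 16559560) (l 16601112)) (a (l 16574576) (l 16612632)))) (b (a (b (l 16554152) (l 16600976)) (b (c (l 16666960) (l 16673608)) (l 89355125959))) (a (b (l 35667952423) (l 54995329047)) (l 4))))) (a (b (a (a (b (b (c (l 16672088) (l 16678720)) (c (l 16680128) (l 16686608))) (l 4)) (l 4)) (l 4)) (l 4)) (l 4))) (a (b (a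 (b (a (c (l 16595736) (l 16612624)) (c (l 16627456) (l 16638256))) (a (c (l 16622208) (l 16618520)) (c (l 16645752) (l 16654288)))) (b (a (b (l 82375763655) (l 82375779303)) (l 4)) (l 4))) (a (b (a (c (l 16639920) (l 16633512)) (b (l 75933305015) (l 85060123063))) (a (c (l 16653032) (l 16653952)) (l 4))) (l 4))) (l 4))), by decide +kernel⟩

def k7_mm_202_a : ∃ t, chk3 f_mm_202_a t 3 3 1 = true :=
  ⟨(b (a (b (a (b (b (a (b (l 16581072) (l 4)) (l 4)) (l 4)) (l 4)) (l 4)) (l 4)) (l 4)) (l 4)), by decide +kernel⟩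

theorem s8_mm_202_a : ∃ t, chk3 f_mm_202_a t 7 9 1 = true := ex3_b k4_mm_202_a k5_mm_202_a

theorem s9_mm_202_a : ∃ t, chk3 f_mm_202_a t 7 4 1 = true := ex3_b k3_mm_202_a s8_mm_202_a

theorem s10_mm_202_a : ∃ t, chk3 f_mm_202_a t 3 4 1 = true := ex3_a k2_mm_202_a s9_mm_202_a

theorem s11_mm_202_a : ∃ t, chk3 f_mm_202_a t 3 2 1 = true := ex3_b s10_mm_202_a k6_mm_202_a

theorem s12_mm_202_a : ∃ t, chk3 f_mm_202_a t 3 1 1 = true := ex3_b s11_mm_202_a k7_mm_202_a

theorem s13_mm_202_a : ∃ t, chk3 f_mm_202_a t 2 1 1 = true := ex3_a k0_mm_202_a k1_mm_202_a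

theorem s14_mm_202_a : ∃ t, chk3 f_mm_202_a t 1 1 1 = true := ex3_a s13_mm_202_a s12_mm_202_a

theorem c_mm_202_a : CertB 0 536870912 0 536870912 991146299 28908434 3 eng mog cd1q2a cd1q0 pd2 true false false .pp 2 0 2
    ndB1q2a ndB1q0 pcB2 cut_mm_202_a Ext.none :=
  certB1 (fam := true) (s1 := false) (s2 := false) (a := 2) (b := 0) (c := 2) (cn := .pp) (n1 := ndB1q2a) (n2 := ndB1q0) (pc := pcB2) (cut := cut_mm_202_a) (xt := Ext.none) (P1 := 0) (W1 := 536870912) (P2 := 0) (W2 := 536870912) (P3 := 991146299) (W3 := 28908434) (N0 := 3) (En := eng) (mo := mog) (C1 := cd1q2a) (C2 := cd1q0) (C3 := pd2)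
    rfl (fun _ => rfl) s14_mm_202_a

noncomputable def cut_mm_202_b : Cut := Cut.of [[⟨0, 1, 0, 53687091⟩, ⟨1, 0, 0, 53687091⟩, ⟨2, 1, 0, 53687091⟩]]

noncomputable def f_mm_202_b : ℕ → ℕ → ℕ → ℕ → Bool := onCell 1073741824 536870912 0 536870912 991146299 28908434
    (rowB 3 eng mog cd1q2b cd1q0 pd2 2 true false false .pp 2 0 2 (qsf 1239849684 370763052 0 536870912 2) ndB1q2b ndB1q0 pcB2 cut_mm_202_b Ext.none)

def k0_mm_202_b : ∃ t, chk3 f_mm_202_b t 2 1 1 = true :=
  ⟨(a (l 1) (b (b (a (b (a (b (a (l 1) (l 186326357463)) (l 1)) (b (a (l 80026048759) (b (l 16243752) (l 16346336))) (c (l 313565200807) (l 317860139015)))) (l 1)) (a (b (a (c (l 106332869527) (l 102574881927)) (b (l 16262832) (l 16287472))) (a (l 1) (b (l 16218000) (l 1)))) (b (c (b (l 16225512) (l 16259624)) (b (l 16030952) (l 16131624))) (b (a (l 16182728) (l 16136840)) (a (l 1) (l 322691510759)))))) (l 1)) (l 1))), by decide +kernel⟩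

def k1_mm_202_b : ∃ t, chk3 f_mm_202_b t 3 1 1 = true :=
  ⟨(a (b (b (c (a (b (a (b (l 16055768) (l 16145448)) (b (l 16003760) (l 16064656))) (a (b (l 16181632) (l 16206232)) (b (l 16113336) (l 16149824)))) (b (a (l 15831488) (l 15950040)) (a (l 15995280) (l 16032424)))) (a (b (a (b (l 15958520) (l 16011784)) (b (l 15847304) (l 15915504))) (a (b (l 16052624) (l 16081184)) (b (l 15970312) (l 16011952)))) (b (a (l 15652024) (l 15733704)) (a (b (l 15929216) (l 15983616)) (l 15938704))))) (a (b (a (b (a (l 1) (l 336650022791)) (l 1)) (c (b (l 16174024) (l 345777189991)) (b (l 16040488) (l 350608814039)))) (l 1)) (a (b (c (b (l 16159024) (l 16181464)) (b (l 16024240) (l 16051032))) (b (c (l 359198792807) (l 373157175095)) (l 1))) (b (c (l 16041488) (a (l 16054880) (l 16076792))) (c (b (l 16223848) (l 368862470327)) (b (l 332355004567) (l 374230942167))))))) (l 1)) (b (a (b (a (b (c (l 15946424) (l 15724256)) (c (l 16114280) (l 15954120))) (b (c (l 15963112) (l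 15849464)) (c (l 16152424) (l 16060824)))) (a (b (a (l 15995056) (l 16068296)) (c (l 272762624823) (a (l 16170456) (l 16218656)))) (b (c (l 16288696) (l 16211752)) (a (l 16144144) (l 16364384))))) (b (a (b (c (l 15893768) (l 15914192)) (c (l 16125128) (l 16146896))) (b (c (l 15726360) (l 15765592)) (c (l 15952832) (l 15961840)))) (a (b (c (l 16360640) (l 16319536)) (a (l 16420584) (l 16479016))) (b (a (l 16231168) (l 15998032)) (a (l 16463992) (l 16402832)))))) (b (a (b (a (a (l 1) (c (l 387653111495) (l 387652954967))) (a (c (l 378526448087) (l 376378830135)) (l 349535426039))) (l 1)) (a (b (a (l 340945667303) (l 16493776)) (a (l 1) (l 400538278039))) (a (b (a (l 16588232) (l 16604192)) (a (l 395169837623) (l 4))) (l 4)))) (l 1)))), by decide +kernel⟩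

theorem s2_mm_202_b : ∃ t, chk3 f_mm_202_b t 1 1 1 = true := ex3_a k0_mm_202_b k1_mm_202_b

theorem c_mm_202_b : CertB 1239849684 370763052 0 536870912 991146299 28908434 3 eng mog cd1q2b cd1q0 pd2 true false false .pp 2 0 2
    ndB1q2b ndB1q0 pcB2 cut_mm_202_b Ext.none :=
  certB2 (fam := true) (s1 := false) (s2 := false) (a := 2) (b := 0) (c := 2) (cn := .pp) (n1 := ndB1q2b) (n2 := ndB1q0) (pc := pcB2) (cut := cut_mm_202_b) (xt := Ext.none) (P1 := 1239849684) (W1 := 370763052) (P2 := 0) (W2 := 536870912) (P3 := 991146299) (W3 := 28908434) (N0 := 3) (En := eng) (mo := mog) (C1 := cd1q2b) (C2 := cd1q0) (C3 := pd2)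
    rfl (fun _ => rfl) s2_mm_202_b

noncomputable def f_mm_203_a : ℕ → ℕ → ℕ → ℕ → Bool := onCell 0 536870912 1610612736 536870912 991146299 28908434
    (rowB 3 eng mog cd1q2a cd1q0 pd3 1 true false false .up 2 0 3 (qsf 0 536870912 0 536870912 3) ndB1q2a ndB1q0 pcB3 Cut.none Ext.none)

def k0_mm_203_a : ∃ t, chk3 f_mm_203_a t 1 1 1 = true :=
  ⟨(a (b (l 4) (l 2)) (l 4)), by decide +kernel⟩

theorem c_mm_203_a : CertB 0 536870912 0 536870912 991146299 28908434 3 eng mog cd1q2a cd1q0 pd3 true false false .up 2 0 3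
    ndB1q2a ndB1q0 pcB3 Cut.none Ext.none :=
  certB1 (fam := true) (s1 := false) (s2 := false) (a := 2) (b := 0) (c := 3) (cn := .up) (n1 := ndB1q2a) (n2 := ndB1q0) (pc := pcB3) (cut := Cut.none) (xt := Ext.none) (P1 := 0) (W1 := 536870912) (P2 := 0) (W2 := 536870912) (P3 := 991146299) (W3 := 28908434) (N0 := 3) (En := eng) (mo := mog) (C1 := cd1q2a) (C2 := cd1q0) (C3 := pd3)
    rfl (fun _ => rfl) k0_mm_203_a

noncomputable def f_mm_203_b : ℕ → ℕ → ℕ → ℕ → Bool := onCell 1239849684 370763052 1610612736 536870912 991146299 28908434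
    (rowB 3 eng mog cd1q2b cd1q0 pd3 1 true false false .up 2 0 3 (qsf 1239849684 370763052 0 536870912 3) ndB1q2b ndB1q0 pcB3 Cut.none Ext.none)

def k0_mm_203_b : ∃ t, chk3 f_mm_203_b t 1 1 1 = true :=
  ⟨(b (b (b (a (l 4) (a (b (l 15879352) (l 4)) (b (l 15440176) (l 15612624)))) (l 4)) (l 4)) (l 4)), by decide +kernel⟩

theorem c_mm_203_b : CertB 1239849684 370763052 0 536870912 991146299 28908434 3 eng mog cd1q2b cd1q0 pd3 true false false .up 2 0 3
    ndB1q2b ndB1q0 pcB3 Cut.none Ext.none :=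
  certB1 (fam := true) (s1 := false) (s2 := false) (a := 2) (b := 0) (c := 3) (cn := .up) (n1 := ndB1q2b) (n2 := ndB1q0) (pc := pcB3) (cut := Cut.none) (xt := Ext.none) (P1 := 1239849684) (W1 := 370763052) (P2 := 0) (W2 := 536870912) (P3 := 991146299) (W3 := 28908434) (N0 := 3) (En := eng) (mo := mog) (C1 := cd1q2b) (C2 := cd1q0) (C3 := pd3)
    rfl (fun _ => rfl) k0_mm_203_b

noncomputable def f_mm_213_a : ℕ → ℕ → ℕ → ℕ → Bool := onCell 0 536870912 536870912 536870912 991146299 28908434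
    (rowB 3 eng mog cd1q2a cd1q1 pd3 0 true false false .pnn 2 1 3 (qsf 0 536870912 536870912 536870912 3) ndB1q2a ndB1q1 pcB3 Cut.none Ext.none)

def k0_mm_213_a : ∃ t, chk3 f_mm_213_a t 1 1 1 = true :=
  ⟨(l 4), by decide +kernel⟩

theorem c_mm_213_a : CertB 0 536870912 536870912 536870912 991146299 28908434 3 eng mog cd1q2a cd1q1 pd3 true false false .pnn 2 1 3
    ndB1q2a ndB1q1 pcB3 Cut.none Ext.none :=
  certB0 (fam := true) (s1 := false) (s2 := false) (a := 2) (b := 1) (c := 3) (cn := .pnn) (n1 := ndB1q2a) (n2 := ndB1q1) (pc := pcB3) (cut := Cut.none) (xt := Ext.none) (P1 := 0) (W1 := 536870912) (P2 := 536870912) (W2 := 536870912) (P3 := 991146299) (W3 := 28908434) (N0 := 3) (En := eng) (mo := mog) (C1 := cd1q2a) (C2 := cd1q1) (C3 := pd3)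
    rfl k0_mm_213_a

noncomputable def f_mm_213_b : ℕ → ℕ → ℕ → ℕ → Bool := onCell 1239849684 370763052 536870912 536870912 991146299 28908434
    (rowB 3 eng mog cd1q2b cd1q1 pd3 0 true false false .pnn 2 1 3 (qsf 1239849684 370763052 536870912 536870912 3) ndB1q2b ndB1q1 pcB3 Cut.none Ext.none)

def k0_mm_213_b : ∃ t, chk3 f_mm_213_b t 1 1 1 = true :=
  ⟨(l 4), by decide +kernel⟩

theorem c_mm_213_b : CertB 1239849684 370763052 536870912 536870912 991146299 28908434 3 eng mog cd1q2b cd1q1 pd3 true false false .pnn 2 1 3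
    ndB1q2b ndB1q1 pcB3 Cut.none Ext.none :=
  certB0 (fam := true) (s1 := false) (s2 := false) (a := 2) (b := 1) (c := 3) (cn := .pnn) (n1 := ndB1q2b) (n2 := ndB1q1) (pc := pcB3) (cut := Cut.none) (xt := Ext.none) (P1 := 1239849684) (W1 := 370763052) (P2 := 536870912) (W2 := 536870912) (P3 := 991146299) (W3 := 28908434) (N0 := 3) (En := eng) (mo := mog) (C1 := cd1q2b) (C2 := cd1q1) (C3 := pd3)
    rfl k0_mm_213_b

noncomputable def f_mm_303 : ℕ → ℕ → ℕ → ℕ → Bool := onCell 1610612736 536870912 0 536870912 991146299 28908434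
    (rowB 3 eng mog cd1q3 cd1q0 pd3 2 true false false .npn 3 0 3 (qsf 1610612736 536870912 0 536870912 3) ndB1q3 ndB1q0 pcB3 Cut.none Ext.none)

def k0_mm_303 : ∃ t, chk3 f_mm_303 t 1 1 1 = true :=
  ⟨(a (a (b (a (b (b (a (l 15408496) (l 15280392)) (a (l 1) (l 4))) (l 1)) (l 4)) (l 1)) (l 4)) (l 4)), by decide +kernel⟩

theorem c_mm_303 : CertB 1610612736 536870912 0 536870912 991146299 28908434 3 eng mog cd1q3 cd1q0 pd3 true false false .npn 3 0 3
    ndB1q3 ndB1q0 pcB3 Cut.none Ext.none :=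
  certB2 (fam := true) (s1 := false) (s2 := false) (a := 3) (b := 0) (c := 3) (cn := .npn) (n1 := ndB1q3) (n2 := ndB1q0) (pc := pcB3) (cut := Cut.none) (xt := Ext.none) (P1 := 1610612736) (W1 := 536870912) (P2 := 0) (W2 := 536870912) (P3 := 991146299) (W3 := 28908434) (N0 := 3) (En := eng) (mo := mog) (C1 := cd1q3) (C2 := cd1q0) (C3 := pd3)
    rfl (fun _ => rfl) k0_mm_303

noncomputable def f_mm_313 : ℕ → ℕ → ℕ → ℕ → Bool := onCell 1610612736 536870912 536870912 536870912 991146299 28908434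
    (rowB 3 eng mog cd1q3 cd1q1 pd3 0 true false false .dn 3 1 3 (qsf 1610612736 536870912 536870912 536870912 3) ndB1q3 ndB1q1 pcB3 Cut.none Ext.none)

def k0_mm_313 : ∃ t, chk3 f_mm_313 t 1 1 1 = true :=
  ⟨(l 4), by decide +kernel⟩

theorem c_mm_313 : CertB 1610612736 536870912 536870912 536870912 991146299 28908434 3 eng mog cd1q3 cd1q1 pd3 true false false .dn 3 1 3
    ndB1q3 ndB1q1 pcB3 Cut.none Ext.none :=
  certB0 (fam := true) (s1 := false) (s2 := false) (a := 3) (b := 1) (c := 3) (cn := .dn) (n1 := ndB1q3) (n2 := ndB1q1) (pc := pcB3) (cut := Cut.none) (xt := Ext.none) (P1 := 1610612736) (W1 := 536870912) (P2 := 536870912) (W2 := 536870912) (P3 := 991146299) (W3 := 28908434) (N0 := 3) (En := eng) (mo := mog) (C1 := cd1q3) (C2 := cd1q1) (C3 := pd3)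
    rfl k0_mm_313

end Pool.Agent.Strip051.G.I9231_9500.Tab.C.BA11

namespace Pool.Agent.Strip051.G.I9231_9500.Tab.C.BA12

open Pool.Agent.Strip051.PB Pool.Agent.Strip051.PB.T
open Pool.Agent.Strip051.G.I9231_9500.Tab

noncomputable def f_pp_001 : ℕ → ℕ → ℕ → ℕ → Bool := onCell 0 536870912 0 536870912 991146299 28908434
    (rowB 3 eng mog cd1q0 cd2q0 pd1 0 true true true .up 0 0 1 (qsf 0 536870912 0 536870912 1) ndB1q0 ndB2q0 pcB1 Cut.none Ext.none)

def k0_pp_001 : ∃ t, chk3 f_pp_001 t 1 1 1 = true :=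
  ⟨(l 4), by decide +kernel⟩

theorem c_pp_001 : CertB 0 536870912 0 536870912 991146299 28908434 3 eng mog cd1q0 cd2q0 pd1 true true true .up 0 0 1
    ndB1q0 ndB2q0 pcB1 Cut.none Ext.none :=
  certB0 (fam := true) (s1 := true) (s2 := true) (a := 0) (b := 0) (c := 1) (cn := .up) (n1 := ndB1q0) (n2 := ndB2q0) (pc := pcB1) (cut := Cut.none) (xt := Ext.none) (P1 := 0) (W1 := 536870912) (P2 := 0) (W2 := 536870912) (P3 := 991146299) (W3 := 28908434) (N0 := 3) (En := eng) (mo := mog) (C1 := cd1q0) (C2 := cd2q0) (C3 := pd1)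
    rfl k0_pp_001

noncomputable def f_pp_011 : ℕ → ℕ → ℕ → ℕ → Bool := onCell 0 536870912 536870912 536870912 991146299 28908434
    (rowB 3 eng mog cd1q0 cd2q1 pd1 0 true true true .pnn 0 1 1 (qsf 0 536870912 536870912 536870912 1) ndB1q0 ndB2q1 pcB1 Cut.none Ext.none)

def k0_pp_011 : ∃ t, chk3 f_pp_011 t 1 1 1 = true :=
  ⟨(l 4), by decide +kernel⟩

theorem c_pp_011 : CertB 0 536870912 536870912 536870912 991146299 28908434 3 eng mog cd1q0 cd2q1 pd1 true true true .pnn 0 1 1
    ndB1q0 ndB2q1 pcB1 Cut.none Ext.none :=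
  certB0 (fam := true) (s1 := true) (s2 := true) (a := 0) (b := 1) (c := 1) (cn := .pnn) (n1 := ndB1q0) (n2 := ndB2q1) (pc := pcB1) (cut := Cut.none) (xt := Ext.none) (P1 := 0) (W1 := 536870912) (P2 := 536870912) (W2 := 536870912) (P3 := 991146299) (W3 := 28908434) (N0 := 3) (En := eng) (mo := mog) (C1 := cd1q0) (C2 := cd2q1) (C3 := pd1)
    rfl k0_pp_011

noncomputable def f_pp_012 : ℕ → ℕ → ℕ → ℕ → Bool := onCell 0 536870912 536870912 536870912 991146299 28908434
    (rowB 3 eng mog cd1q0 cd2q1 pd2 0 true true true .pnp 0 1 2 (qsf 0 536870912 536870912 536870912 2) ndB1q0 ndB2q1 pcB2 Cut.none Ext.none)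

def k0_pp_012 : ∃ t, chk3 f_pp_012 t 1 1 1 = true :=
  ⟨(l 4), by decide +kernel⟩

theorem c_pp_012 : CertB 0 536870912 536870912 536870912 991146299 28908434 3 eng mog cd1q0 cd2q1 pd2 true true true .pnp 0 1 2
    ndB1q0 ndB2q1 pcB2 Cut.none Ext.none :=
  certB0 (fam := true) (s1 := true) (s2 := true) (a := 0) (b := 1) (c := 2) (cn := .pnp) (n1 := ndB1q0) (n2 := ndB2q1) (pc := pcB2) (cut := Cut.none) (xt := Ext.none) (P1 := 0) (W1 := 536870912) (P2 := 536870912) (W2 := 536870912) (P3 := 991146299) (W3 := 28908434) (N0 := 3) (En := eng) (mo := mog) (C1 := cd1q0) (C2 := cd2q1) (C3 := pd2)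
    rfl k0_pp_012

noncomputable def cut_pp_022_a : Cut := Cut.of [[⟨0, 0, 0, 53687091⟩, ⟨1, 1, 0, 53687091⟩, ⟨2, 1, 0, 53687091⟩]]

noncomputable def f_pp_022_a : ℕ → ℕ → ℕ → ℕ → Bool := onCell 0 536870912 0 536870912 991146299 28908434
    (rowB 3 eng mog cd1q0 cd2q2a pd2 0 true true true .pp 0 2 2 (qsf 0 536870912 0 536870912 2) ndB1q0 ndB2q2a pcB2 cut_pp_022_a Ext.none)

def k0_pp_022_a : ∃ t, chk3 f_pp_022_a t 2 2 1 = true :=
  ⟨(a (a (a (c (b (b (a (l 16374264) (l 16422848)) (a (l 16347976) (l 16432440))) (b (a (b (l 16408008) (l 16424352)) (l 16455096)) (a (b (l 16423432) (a (l 16456784) (l 16479000))) (b (l 16482256) (l 16506208))))) (b (b (a (l 16378600) (l 16433336)) (a (l 16351304) (l 16440304))) (b (a (a (l 16383816) (l 16408960)) (l 16460608)) (a (b (l 16403568) (a (l 16456216) (l 16481128))) (b (l 16486856) (l 16510704)))))) (b (b (a (l 16403752) (l 16493568)) (a (c (l 16463872) (l 16473008)) (c (l 16485288) (l 16492728)))) (b (a (c (l 16482736)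 (l 16488704)) (c (l 16499696) (l 16525112))) (a (a (b (l 16505120) (l 16525568)) (b (l 16512936) (l 4))) (l 4))))) (b (a (a (b (l 16425688) (c (l 16499536) (l 16504056))) (a (b (l 16515672) (l 36741532727)) (b (l 16519568) (l 4)))) (a (b (a (l 16524584) (l 4)) (l 4)) (l 4))) (l 4))) (l 4)), by decide +kernel⟩

def k1_pp_022_a : ∃ t, chk3 f_pp_022_a t 2 3 1 = true :=
  ⟨(a (a (a (a (a (b (b (b (c (l 16464056) (l 16463552)) (c (l 16476136) (l 16518000))) (b (c (b (l 16525400) (l 16566992)) (b (l 16525944) (l 16568056))) (c (b (l 16588992) (l 16611800)) (b (l 16590664) (l 16614136))))) (b (a (b (c (b (l 16628144) (l 16651440)) (b (l 16629936) (l 16653784))) (b (c (l 16627608) (l 16645720)) (b (c (l 16678656) (l 16675536)) (l 6)))) (b (c (b (l 16642048) (l 16653608)) (b (l 16639776) (l 16648960))) (a (b (c (l 16665088) (l 16660464)) (c (b (l 16676224) (l 4)) (l 117809418183))) (l 4)))) (l 6))) (b (b (b (c (l 16486360) (l 16509648)) (c (l 16540736) (l 16543696)))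 (b (c (b (l 16569096) (l 16589048)) (b (l 16572864) (l 16593336))) (c (b (l 16609064) (l 16608040)) (b (l 16613720) (l 16611720))))) (b (b (b (c (l 383560362231) (l 388392185831)) (l 4)) (l 4)) (l 4)))) (b (a (b (b (c (l 16526832) (l 16531120)) (c (l 16557584) (l 16562280))) (b (b (c (l 16581392) (l 16586272)) (l 4)) (l 4))) (b (b (c (l 16539184) (l 16544096)) (l 4)) (l 4))) (l 4))) (b (l 4) (l 4))) (l 4)) (l 4)), by decide +kernel⟩

def k2_pp_022_a : ∃ t, chk3 f_pp_022_a t 3 1 1 = true :=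
  ⟨(l 4), by decide +kernel⟩

theorem s3_pp_022_a : ∃ t, chk3 f_pp_022_a t 2 1 1 = true := ex3_b k0_pp_022_a k1_pp_022_a

theorem s4_pp_022_a : ∃ t, chk3 f_pp_022_a t 1 1 1 = true := ex3_a s3_pp_022_a k2_pp_022_a

theorem c_pp_022_a : CertB 0 536870912 0 536870912 991146299 28908434 3 eng mog cd1q0 cd2q2a pd2 true true true .pp 0 2 2
    ndB1q0 ndB2q2a pcB2 cut_pp_022_a Ext.none :=
  certB0 (fam := true) (s1 := true) (s2 := true) (a := 0) (b := 2) (c := 2) (cn := .pp) (n1 := ndB1q0) (n2 := ndB2q2a) (pc := pcB2) (cut := cut_pp_022_a) (xt := Ext.none) (P1 := 0) (W1 := 536870912) (P2 := 0) (W2 := 536870912) (P3 := 991146299) (W3 := 28908434) (N0 := 3) (En := eng) (mo := mog) (C1 := cd1q0) (C2 := cd2q2a) (C3 := pd2)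
    rfl s4_pp_022_a

noncomputable def cut_pp_022_b : Cut := Cut.of [[⟨0, 0, 0, 53687091⟩, ⟨1, 1, 0, 53687091⟩, ⟨2, 1, 0, 53687091⟩]]

noncomputable def f_pp_022_b : ℕ → ℕ → ℕ → ℕ → Bool := onCell 0 536870912 1073741824 536870912 991146299 28908434
    (rowB 3 eng mog cd1q0 cd2q2b pd2 1 true true true .pp 0 2 2 (qsf 0 536870912 1239849684 370763052 2) ndB1q0 ndB2q2b pcB2 cut_pp_022_b Ext.none)

def k0_pp_022_b : ∃ t, chk3 f_pp_022_b t 1 1 1 = true :=
  ⟨(b (b (l 1) (a (a (b (a (b (a (b (l 1) (c (l 16368160) (l 16362648))) (l 1)) (a (b (c (l 16380888) (l 16385776)) (c (l 16365480) (l 16399544))) (b (l 1) (l 308733563559)))) (l 1)) (a (b (a (b (l 16331736) (l 16347208)) (b (l 292627371591) (l 16320152))) (b (a (l 16313704) (l 16407416)) (a (l 16273256) (l 16382984)))) (b (b (l 1) (a (l 377453141751) (l 1))) (b (a (l 361346929223) (l 1)) (a (l 206728051847) (l 378526929095)))))) (l 1)) (l 1))) (b (a (a (b (b (a (b (a (l 16226224) (l 16331128)) (c (l 16070576)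 (l 16231744))) (b (a (c (l 16437608) (l 16443800)) (b (l 16528168) (l 16545288))) (a (c (l 16343632) (l 16388448)) (l 4)))) (a (a (b (l 16051064) (l 15949320)) (b (l 225182338855) (l 16064144))) (l 4))) (b (a (b (a (l 15895624) (l 4)) (l 4)) (l 4)) (l 4))) (b (l 4) (l 4))) (l 1)) (l 4))), by decide +kernel⟩

theorem c_pp_022_b : CertB 0 536870912 1239849684 370763052 991146299 28908434 3 eng mog cd1q0 cd2q2b pd2 true true true .pp 0 2 2
    ndB1q0 ndB2q2b pcB2 cut_pp_022_b Ext.none :=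
  certB1 (fam := true) (s1 := true) (s2 := true) (a := 0) (b := 2) (c := 2) (cn := .pp) (n1 := ndB1q0) (n2 := ndB2q2b) (pc := pcB2) (cut := cut_pp_022_b) (xt := Ext.none) (P1 := 0) (W1 := 536870912) (P2 := 1239849684) (W2 := 370763052) (P3 := 991146299) (W3 := 28908434) (N0 := 3) (En := eng) (mo := mog) (C1 := cd1q0) (C2 := cd2q2b) (C3 := pd2)
    rfl (fun _ => rfl) k0_pp_022_b

noncomputable def f_pp_023_a : ℕ → ℕ → ℕ → ℕ → Bool := onCell 1610612736 536870912 0 536870912 991146299 28908434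
    (rowB 3 eng mog cd1q0 cd2q2a pd3 2 true true true .up 0 2 3 (qsf 0 536870912 0 536870912 3) ndB1q0 ndB2q2a pcB3 Cut.none Ext.none)

def k0_pp_023_a : ∃ t, chk3 f_pp_023_a t 1 1 1 = true :=
  ⟨(l 4), by decide +kernel⟩

theorem c_pp_023_a : CertB 0 536870912 0 536870912 991146299 28908434 3 eng mog cd1q0 cd2q2a pd3 true true true .up 0 2 3
    ndB1q0 ndB2q2a pcB3 Cut.none Ext.none :=
  certB2 (fam := true) (s1 := true) (s2 := true) (a := 0) (b := 2) (c := 3) (cn := .up) (n1 := ndB1q0) (n2 := ndB2q2a) (pc := pcB3) (cut := Cut.none) (xt := Ext.none) (P1 := 0) (W1 := 536870912) (P2 := 0) (W2 := 536870912) (P3 := 991146299) (W3 := 28908434) (N0 := 3) (En := eng) (mo := mog) (C1 := cd1q0) (C2 := cd2q2a) (C3 := pd3)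
    rfl (fun _ => rfl) k0_pp_023_a

noncomputable def f_pp_023_b : ℕ → ℕ → ℕ → ℕ → Bool := onCell 1610612736 536870912 1239849684 370763052 991146299 28908434
    (rowB 3 eng mog cd1q0 cd2q2b pd3 2 true true true .up 0 2 3 (qsf 0 536870912 1239849684 370763052 3) ndB1q0 ndB2q2b pcB3 Cut.none Ext.none)

def k0_pp_023_b : ∃ t, chk3 f_pp_023_b t 1 1 1 = true :=
  ⟨(l 4), by decide +kernel⟩

theorem c_pp_023_b : CertB 0 536870912 1239849684 370763052 991146299 28908434 3 eng mog cd1q0 cd2q2b pd3 true true true .up 0 2 3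
    ndB1q0 ndB2q2b pcB3 Cut.none Ext.none :=
  certB2 (fam := true) (s1 := true) (s2 := true) (a := 0) (b := 2) (c := 3) (cn := .up) (n1 := ndB1q0) (n2 := ndB2q2b) (pc := pcB3) (cut := Cut.none) (xt := Ext.none) (P1 := 0) (W1 := 536870912) (P2 := 1239849684) (W2 := 370763052) (P3 := 991146299) (W3 := 28908434) (N0 := 3) (En := eng) (mo := mog) (C1 := cd1q0) (C2 := cd2q2b) (C3 := pd3)
    rfl (fun _ => rfl) k0_pp_023_b

noncomputable def f_pp_033 : ℕ → ℕ → ℕ → ℕ → Bool := onCell 0 536870912 1610612736 536870912 991146299 28908434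
    (rowB 3 eng mog cd1q0 cd2q3 pd3 0 true true true .pnn 0 3 3 (qsf 0 536870912 1610612736 536870912 3) ndB1q0 ndB2q3 pcB3 Cut.none Ext.none)

def k0_pp_033 : ∃ t, chk3 f_pp_033 t 1 1 1 = true :=
  ⟨(a (l 4) (l 4)), by decide +kernel⟩

theorem c_pp_033 : CertB 0 536870912 1610612736 536870912 991146299 28908434 3 eng mog cd1q0 cd2q3 pd3 true true true .pnn 0 3 3
    ndB1q0 ndB2q3 pcB3 Cut.none Ext.none :=
  certB0 (fam := true) (s1 := true) (s2 := true) (a := 0) (b := 3) (c := 3) (cn := .pnn) (n1 := ndB1q0) (n2 := ndB2q3) (pc := pcB3) (cut := Cut.none) (xt := Ext.none) (P1 := 0) (W1 := 536870912) (P2 := 1610612736) (W2 := 536870912) (P3 := 991146299) (W3 := 28908434) (N0 := 3) (En := eng) (mo := mog) (C1 := cd1q0) (C2 := cd2q3) (C3 := pd3)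
    rfl k0_pp_033

noncomputable def f_pp_101 : ℕ → ℕ → ℕ → ℕ → Bool := onCell 536870912 536870912 0 536870912 991146299 28908434
    (rowB 3 eng mog cd1q1 cd2q0 pd1 0 true true true .npn 1 0 1 (qsf 536870912 536870912 0 536870912 1) ndB1q1 ndB2q0 pcB1 Cut.none Ext.none)

def k0_pp_101 : ∃ t, chk3 f_pp_101 t 1 1 1 = true :=
  ⟨(l 4), by decide +kernel⟩

theorem c_pp_101 : CertB 536870912 536870912 0 536870912 991146299 28908434 3 eng mog cd1q1 cd2q0 pd1 true true true .npn 1 0 1
    ndB1q1 ndB2q0 pcB1 Cut.none Ext.none :=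
  certB0 (fam := true) (s1 := true) (s2 := true) (a := 1) (b := 0) (c := 1) (cn := .npn) (n1 := ndB1q1) (n2 := ndB2q0) (pc := pcB1) (cut := Cut.none) (xt := Ext.none) (P1 := 536870912) (W1 := 536870912) (P2 := 0) (W2 := 536870912) (P3 := 991146299) (W3 := 28908434) (N0 := 3) (En := eng) (mo := mog) (C1 := cd1q1) (C2 := cd2q0) (C3 := pd1)
    rfl k0_pp_101

noncomputable def f_pp_102 : ℕ → ℕ → ℕ → ℕ → Bool := onCell 536870912 536870912 0 536870912 991146299 28908434
    (rowB 3 eng mog cd1q1 cd2q0 pd2 0 true true true .npp 1 0 2 (qsf 536870912 536870912 0 536870912 2) ndB1q1 ndB2q0 pcB2 Cut.none Ext.none)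

def k0_pp_102 : ∃ t, chk3 f_pp_102 t 1 1 1 = true :=
  ⟨(l 4), by decide +kernel⟩

theorem c_pp_102 : CertB 536870912 536870912 0 536870912 991146299 28908434 3 eng mog cd1q1 cd2q0 pd2 true true true .npp 1 0 2
    ndB1q1 ndB2q0 pcB2 Cut.none Ext.none :=
  certB0 (fam := true) (s1 := true) (s2 := true) (a := 1) (b := 0) (c := 2) (cn := .npp) (n1 := ndB1q1) (n2 := ndB2q0) (pc := pcB2) (cut := Cut.none) (xt := Ext.none) (P1 := 536870912) (W1 := 536870912) (P2 := 0) (W2 := 536870912) (P3 := 991146299) (W3 := 28908434) (N0 := 3) (En := eng) (mo := mog) (C1 := cd1q1) (C2 := cd2q0) (C3 := pd2)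
    rfl k0_pp_102

noncomputable def f_pp_112 : ℕ → ℕ → ℕ → ℕ → Bool := onCell 536870912 536870912 536870912 536870912 991146299 28908434
    (rowB 3 eng mog cd1q1 cd2q1 pd2 0 true true true .dn 1 1 2 (qsf 536870912 536870912 536870912 536870912 2) ndB1q1 ndB2q1 pcB2 Cut.none Ext.none)

def k0_pp_112 : ∃ t, chk3 f_pp_112 t 1 1 1 = true :=
  ⟨(l 4), by decide +kernel⟩

theorem c_pp_112 : CertB 536870912 536870912 536870912 536870912 991146299 28908434 3 eng mog cd1q1 cd2q1 pd2 true true true .dn 1 1 2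
    ndB1q1 ndB2q1 pcB2 Cut.none Ext.none :=
  certB0 (fam := true) (s1 := true) (s2 := true) (a := 1) (b := 1) (c := 2) (cn := .dn) (n1 := ndB1q1) (n2 := ndB2q1) (pc := pcB2) (cut := Cut.none) (xt := Ext.none) (P1 := 536870912) (W1 := 536870912) (P2 := 536870912) (W2 := 536870912) (P3 := 991146299) (W3 := 28908434) (N0 := 3) (En := eng) (mo := mog) (C1 := cd1q1) (C2 := cd2q1) (C3 := pd2)
    rfl k0_pp_112

noncomputable def f_pp_113 : ℕ → ℕ → ℕ → ℕ → Bool := onCell 536870912 536870912 536870912 536870912 991146299 28908434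
    (rowB 3 eng mog cd1q1 cd2q1 pd3 0 true true true .nn 1 1 3 (qsf 536870912 536870912 536870912 536870912 3) ndB1q1 ndB2q1 pcB3 Cut.none Ext.none)

def k0_pp_113 : ∃ t, chk3 f_pp_113 t 1 1 1 = true :=
  ⟨(l 4), by decide +kernel⟩

theorem c_pp_113 : CertB 536870912 536870912 536870912 536870912 991146299 28908434 3 eng mog cd1q1 cd2q1 pd3 true true true .nn 1 1 3
    ndB1q1 ndB2q1 pcB3 Cut.none Ext.none :=
  certB0 (fam := true) (s1 := true) (s2 := true) (a := 1) (b := 1) (c := 3) (cn := .nn) (n1 := ndB1q1) (n2 := ndB2q1) (pc := pcB3) (cut := Cut.none) (xt := Ext.none) (P1 := 536870912) (W1 := 536870912) (P2 := 536870912) (W2 := 536870912) (P3 := 991146299) (W3 := 28908434) (N0 := 3) (En := eng) (mo := mog) (C1 := cd1q1) (C2 := cd2q1) (C3 := pd3)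
    rfl k0_pp_113

noncomputable def f_pp_123_a : ℕ → ℕ → ℕ → ℕ → Bool := onCell 536870912 536870912 0 536870912 991146299 28908434
    (rowB 3 eng mog cd1q1 cd2q2a pd3 0 true true true .npn 1 2 3 (qsf 536870912 536870912 0 536870912 3) ndB1q1 ndB2q2a pcB3 Cut.none Ext.none)

def k0_pp_123_a : ∃ t, chk3 f_pp_123_a t 1 1 1 = true :=
  ⟨(l 4), by decide +kernel⟩

theorem c_pp_123_a : CertB 536870912 536870912 0 536870912 991146299 28908434 3 eng mog cd1q1 cd2q2a pd3 true true true .npn 1 2 3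
    ndB1q1 ndB2q2a pcB3 Cut.none Ext.none :=
  certB0 (fam := true) (s1 := true) (s2 := true) (a := 1) (b := 2) (c := 3) (cn := .npn) (n1 := ndB1q1) (n2 := ndB2q2a) (pc := pcB3) (cut := Cut.none) (xt := Ext.none) (P1 := 536870912) (W1 := 536870912) (P2 := 0) (W2 := 536870912) (P3 := 991146299) (W3 := 28908434) (N0 := 3) (En := eng) (mo := mog) (C1 := cd1q1) (C2 := cd2q2a) (C3 := pd3)
    rfl k0_pp_123_a

noncomputable def f_pp_123_b : ℕ → ℕ → ℕ → ℕ → Bool := onCell 536870912 536870912 1239849684 370763052 991146299 28908434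
    (rowB 3 eng mog cd1q1 cd2q2b pd3 0 true true true .npn 1 2 3 (qsf 536870912 536870912 1239849684 370763052 3) ndB1q1 ndB2q2b pcB3 Cut.none Ext.none)

def k0_pp_123_b : ∃ t, chk3 f_pp_123_b t 1 1 1 = true :=
  ⟨(l 4), by decide +kernel⟩

theorem c_pp_123_b : CertB 536870912 536870912 1239849684 370763052 991146299 28908434 3 eng mog cd1q1 cd2q2b pd3 true true true .npn 1 2 3
    ndB1q1 ndB2q2b pcB3 Cut.none Ext.none :=
  certB0 (fam := true) (s1 := true) (s2 := true) (a := 1) (b := 2) (c := 3) (cn := .npn) (n1 := ndB1q1) (n2 := ndB2q2b) (pc := pcB3) (cut := Cut.none) (xt := Ext.none) (P1 := 536870912) (W1 := 536870912) (P2 := 1239849684) (W2 := 370763052) (P3 := 991146299) (W3 := 28908434) (N0 := 3) (En := eng) (mo := mog) (C1 := cd1q1) (C2 := cd2q2b) (C3 := pd3)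
    rfl k0_pp_123_b

noncomputable def f_pp_133 : ℕ → ℕ → ℕ → ℕ → Bool := onCell 536870912 536870912 1610612736 536870912 991146299 28908434
    (rowB 3 eng mog cd1q1 cd2q3 pd3 0 true true true .dn 1 3 3 (qsf 536870912 536870912 1610612736 536870912 3) ndB1q1 ndB2q3 pcB3 Cut.none Ext.none)

def k0_pp_133 : ∃ t, chk3 f_pp_133 t 1 1 1 = true :=
  ⟨(l 4), by decide +kernel⟩

theorem c_pp_133 : CertB 536870912 536870912 1610612736 536870912 991146299 28908434 3 eng mog cd1q1 cd2q3 pd3 true true true .dn 1 3 3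
    ndB1q1 ndB2q3 pcB3 Cut.none Ext.none :=
  certB0 (fam := true) (s1 := true) (s2 := true) (a := 1) (b := 3) (c := 3) (cn := .dn) (n1 := ndB1q1) (n2 := ndB2q3) (pc := pcB3) (cut := Cut.none) (xt := Ext.none) (P1 := 536870912) (W1 := 536870912) (P2 := 1610612736) (W2 := 536870912) (P3 := 991146299) (W3 := 28908434) (N0 := 3) (En := eng) (mo := mog) (C1 := cd1q1) (C2 := cd2q3) (C3 := pd3)
    rfl k0_pp_133

noncomputable def f_pp_202_a : ℕ → ℕ → ℕ → ℕ → Bool := onCell 0 536870912 0 536870912 991146299 28908434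
    (rowB 3 eng mog cd1q2a cd2q0 pd2 0 true true true .pp 2 0 2 (qsf 0 536870912 0 536870912 2) ndB1q2a ndB2q0 pcB2 Cut.none Ext.none)

def k0_pp_202_a : ∃ t, chk3 f_pp_202_a t 1 1 1 = true :=
  ⟨(l 5), by decide +kernel⟩

theorem c_pp_202_a : CertB 0 536870912 0 536870912 991146299 28908434 3 eng mog cd1q2a cd2q0 pd2 true true true .pp 2 0 2
    ndB1q2a ndB2q0 pcB2 Cut.none Ext.none :=
  certB0 (fam := true) (s1 := true) (s2 := true) (a := 2) (b := 0) (c := 2) (cn := .pp) (n1 := ndB1q2a) (n2 := ndB2q0) (pc := pcB2) (cut := Cut.none) (xt := Ext.none) (P1 := 0) (W1 := 536870912) (P2 := 0) (W2 := 536870912) (P3 := 991146299) (W3 := 28908434) (N0 := 3) (En := eng) (mo := mog) (C1 := cd1q2a) (C2 := cd2q0) (C3 := pd2)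
    rfl k0_pp_202_a

noncomputable def f_pp_202_b : ℕ → ℕ → ℕ → ℕ → Bool := onCell 1239849684 370763052 0 536870912 991146299 28908434
    (rowB 3 eng mog cd1q2b cd2q0 pd2 0 true true true .pp 2 0 2 (qsf 1239849684 370763052 0 536870912 2) ndB1q2b ndB2q0 pcB2 Cut.none Ext.none)

def k0_pp_202_b : ∃ t, chk3 f_pp_202_b t 1 1 1 = true :=
  ⟨(l 5), by decide +kernel⟩

theorem c_pp_202_b : CertB 1239849684 370763052 0 536870912 991146299 28908434 3 eng mog cd1q2b cd2q0 pd2 true true true .pp 2 0 2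
    ndB1q2b ndB2q0 pcB2 Cut.none Ext.none :=
  certB0 (fam := true) (s1 := true) (s2 := true) (a := 2) (b := 0) (c := 2) (cn := .pp) (n1 := ndB1q2b) (n2 := ndB2q0) (pc := pcB2) (cut := Cut.none) (xt := Ext.none) (P1 := 1239849684) (W1 := 370763052) (P2 := 0) (W2 := 536870912) (P3 := 991146299) (W3 := 28908434) (N0 := 3) (En := eng) (mo := mog) (C1 := cd1q2b) (C2 := cd2q0) (C3 := pd2)
    rfl k0_pp_202_b

noncomputable def f_pp_203_a : ℕ → ℕ → ℕ → ℕ → Bool := onCell 0 536870912 0 536870912 991146299 28908434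
    (rowB 3 eng mog cd1q2a cd2q0 pd3 0 true true true .up 2 0 3 (qsf 0 536870912 0 536870912 3) ndB1q2a ndB2q0 pcB3 Cut.none Ext.none)

def k0_pp_203_a : ∃ t, chk3 f_pp_203_a t 1 1 1 = true :=
  ⟨(l 5), by decide +kernel⟩

theorem c_pp_203_a : CertB 0 536870912 0 536870912 991146299 28908434 3 eng mog cd1q2a cd2q0 pd3 true true true .up 2 0 3
    ndB1q2a ndB2q0 pcB3 Cut.none Ext.none :=
  certB0 (fam := true) (s1 := true) (s2 := true) (a := 2) (b := 0) (c := 3) (cn := .up) (n1 := ndB1q2a) (n2 := ndB2q0) (pc := pcB3) (cut := Cut.none) (xt := Ext.none) (P1 := 0) (W1 := 536870912) (P2 := 0) (W2 := 536870912) (P3 := 991146299) (W3 := 28908434) (N0 := 3) (En := eng) (mo := mog) (C1 := cd1q2a) (C2 := cd2q0) (C3 := pd3)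
    rfl k0_pp_203_a

noncomputable def f_pp_203_b : ℕ → ℕ → ℕ → ℕ → Bool := onCell 1239849684 370763052 0 536870912 991146299 28908434
    (rowB 3 eng mog cd1q2b cd2q0 pd3 0 true true true .up 2 0 3 (qsf 1239849684 370763052 0 536870912 3) ndB1q2b ndB2q0 pcB3 Cut.none Ext.none)

def k0_pp_203_b : ∃ t, chk3 f_pp_203_b t 1 1 1 = true :=
  ⟨(l 5), by decide +kernel⟩

theorem c_pp_203_b : CertB 1239849684 370763052 0 536870912 991146299 28908434 3 eng mog cd1q2b cd2q0 pd3 true true true .up 2 0 3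
    ndB1q2b ndB2q0 pcB3 Cut.none Ext.none :=
  certB0 (fam := true) (s1 := true) (s2 := true) (a := 2) (b := 0) (c := 3) (cn := .up) (n1 := ndB1q2b) (n2 := ndB2q0) (pc := pcB3) (cut := Cut.none) (xt := Ext.none) (P1 := 1239849684) (W1 := 370763052) (P2 := 0) (W2 := 536870912) (P3 := 991146299) (W3 := 28908434) (N0 := 3) (En := eng) (mo := mog) (C1 := cd1q2b) (C2 := cd2q0) (C3 := pd3)
    rfl k0_pp_203_b

noncomputable def f_pp_213_a : ℕ → ℕ → ℕ → ℕ → Bool := onCell 0 536870912 536870912 536870912 991146299 28908434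
    (rowB 3 eng mog cd1q2a cd2q1 pd3 0 true true true .pnn 2 1 3 (qsf 0 536870912 536870912 536870912 3) ndB1q2a ndB2q1 pcB3 Cut.none Ext.none)

def k0_pp_213_a : ∃ t, chk3 f_pp_213_a t 1 1 1 = true :=
  ⟨(l 4), by decide +kernel⟩

theorem c_pp_213_a : CertB 0 536870912 536870912 536870912 991146299 28908434 3 eng mog cd1q2a cd2q1 pd3 true true true .pnn 2 1 3
    ndB1q2a ndB2q1 pcB3 Cut.none Ext.none :=
  certB0 (fam := true) (s1 := true) (s2 := true) (a := 2) (b := 1) (c := 3) (cn := .pnn) (n1 := ndB1q2a) (n2 := ndB2q1) (pc := pcB3) (cut := Cut.none) (xt := Ext.none) (P1 := 0) (W1 := 536870912) (P2 := 536870912) (W2 := 536870912) (P3 := 991146299) (W3 := 28908434) (N0 := 3) (En := eng) (mo := mog) (C1 := cd1q2a) (C2 := cd2q1) (C3 := pd3)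
    rfl k0_pp_213_a

noncomputable def f_pp_213_b : ℕ → ℕ → ℕ → ℕ → Bool := onCell 1239849684 370763052 536870912 536870912 991146299 28908434
    (rowB 3 eng mog cd1q2b cd2q1 pd3 0 true true true .pnn 2 1 3 (qsf 1239849684 370763052 536870912 536870912 3) ndB1q2b ndB2q1 pcB3 Cut.none Ext.none)

def k0_pp_213_b : ∃ t, chk3 f_pp_213_b t 1 1 1 = true :=
  ⟨(l 4), by decide +kernel⟩

theorem c_pp_213_b : CertB 1239849684 370763052 536870912 536870912 991146299 28908434 3 eng mog cd1q2b cd2q1 pd3 true true true .pnn 2 1 3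
    ndB1q2b ndB2q1 pcB3 Cut.none Ext.none :=
  certB0 (fam := true) (s1 := true) (s2 := true) (a := 2) (b := 1) (c := 3) (cn := .pnn) (n1 := ndB1q2b) (n2 := ndB2q1) (pc := pcB3) (cut := Cut.none) (xt := Ext.none) (P1 := 1239849684) (W1 := 370763052) (P2 := 536870912) (W2 := 536870912) (P3 := 991146299) (W3 := 28908434) (N0 := 3) (En := eng) (mo := mog) (C1 := cd1q2b) (C2 := cd2q1) (C3 := pd3)
    rfl k0_pp_213_b

noncomputable def f_pp_303 : ℕ → ℕ → ℕ → ℕ → Bool := onCell 1610612736 536870912 0 536870912 991146299 28908434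
    (rowB 3 eng mog cd1q3 cd2q0 pd3 0 true true true .npn 3 0 3 (qsf 1610612736 536870912 0 536870912 3) ndB1q3 ndB2q0 pcB3 Cut.none Ext.none)

def k0_pp_303 : ∃ t, chk3 f_pp_303 t 1 1 1 = true :=
  ⟨(l 5), by decide +kernel⟩

theorem c_pp_303 : CertB 1610612736 536870912 0 536870912 991146299 28908434 3 eng mog cd1q3 cd2q0 pd3 true true true .npn 3 0 3
    ndB1q3 ndB2q0 pcB3 Cut.none Ext.none :=
  certB0 (fam := true) (s1 := true) (s2 := true) (a := 3) (b := 0) (c := 3) (cn := .npn) (n1 := ndB1q3) (n2 := ndB2q0) (pc := pcB3) (cut := Cut.none) (xt := Ext.none) (P1 := 1610612736) (W1 := 536870912) (P2 := 0) (W2 := 536870912) (P3 := 991146299) (W3 := 28908434) (N0 := 3) (En := eng) (mo := mog) (C1 := cd1q3) (C2 := cd2q0) (C3 := pd3)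
    rfl k0_pp_303

noncomputable def f_pp_313 : ℕ → ℕ → ℕ → ℕ → Bool := onCell 1610612736 536870912 536870912 536870912 991146299 28908434
    (rowB 3 eng mog cd1q3 cd2q1 pd3 0 true true true .dn 3 1 3 (qsf 1610612736 536870912 536870912 536870912 3) ndB1q3 ndB2q1 pcB3 Cut.none Ext.none)

def k0_pp_313 : ∃ t, chk3 f_pp_313 t 1 1 1 = true :=
  ⟨(l 4), by decide +kernel⟩

theorem c_pp_313 : CertB 1610612736 536870912 536870912 536870912 991146299 28908434 3 eng mog cd1q3 cd2q1 pd3 true true true .dn 3 1 3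
    ndB1q3 ndB2q1 pcB3 Cut.none Ext.none :=
  certB0 (fam := true) (s1 := true) (s2 := true) (a := 3) (b := 1) (c := 3) (cn := .dn) (n1 := ndB1q3) (n2 := ndB2q1) (pc := pcB3) (cut := Cut.none) (xt := Ext.none) (P1 := 1610612736) (W1 := 536870912) (P2 := 536870912) (W2 := 536870912) (P3 := 991146299) (W3 := 28908434) (N0 := 3) (En := eng) (mo := mog) (C1 := cd1q3) (C2 := cd2q1) (C3 := pd3)
    rfl k0_pp_313

noncomputable def f_pm_001 : ℕ → ℕ → ℕ → ℕ → Bool := onCell 0 536870912 0 536870912 991146299 28908434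
    (rowB 3 eng mog cd1q0 cd2q0 pd1 0 true true false .up 0 0 1 (qsf 0 536870912 0 536870912 1) ndB1q0 ndB2q0 pcB1 Cut.none Ext.none)

def k0_pm_001 : ∃ t, chk3 f_pm_001 t 1 1 1 = true :=
  ⟨(l 3), by decide +kernel⟩

theorem c_pm_001 : CertB 0 536870912 0 536870912 991146299 28908434 3 eng mog cd1q0 cd2q0 pd1 true true false .up 0 0 1
    ndB1q0 ndB2q0 pcB1 Cut.none Ext.none :=
  certB0 (fam := true) (s1 := true) (s2 := false) (a := 0) (b := 0) (c := 1) (cn := .up) (n1 := ndB1q0) (n2 := ndB2q0) (pc := pcB1) (cut := Cut.none) (xt := Ext.none) (P1 := 0) (W1 := 536870912) (P2 := 0) (W2 := 536870912) (P3 := 991146299) (W3 := 28908434) (N0 := 3) (En := eng) (mo := mog) (C1 := cd1q0) (C2 := cd2q0) (C3 := pd1)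
    rfl k0_pm_001

noncomputable def f_pm_011 : ℕ → ℕ → ℕ → ℕ → Bool := onCell 0 536870912 536870912 536870912 991146299 28908434
    (rowB 3 eng mog cd1q0 cd2q1 pd1 1 true true false .pnn 0 1 1 (qsf 0 536870912 536870912 536870912 1) ndB1q0 ndB2q1 pcB1 Cut.none Ext.none)

def k0_pm_011 : ∃ t, chk3 f_pm_011 t 1 1 1 = true :=
  ⟨(l 3), by decide +kernel⟩

theorem c_pm_011 : CertB 0 536870912 536870912 536870912 991146299 28908434 3 eng mog cd1q0 cd2q1 pd1 true true false .pnn 0 1 1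
    ndB1q0 ndB2q1 pcB1 Cut.none Ext.none :=
  certB1 (fam := true) (s1 := true) (s2 := false) (a := 0) (b := 1) (c := 1) (cn := .pnn) (n1 := ndB1q0) (n2 := ndB2q1) (pc := pcB1) (cut := Cut.none) (xt := Ext.none) (P1 := 0) (W1 := 536870912) (P2 := 536870912) (W2 := 536870912) (P3 := 991146299) (W3 := 28908434) (N0 := 3) (En := eng) (mo := mog) (C1 := cd1q0) (C2 := cd2q1) (C3 := pd1)
    rfl (fun _ => rfl) k0_pm_011

noncomputable def f_pm_012 : ℕ → ℕ → ℕ → ℕ → Bool := onCell 1073741824 536870912 536870912 536870912 991146299 28908434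
    (rowB 3 eng mog cd1q0 cd2q1 pd2 2 true true false .pnp 0 1 2 (qsf 0 536870912 536870912 536870912 2) ndB1q0 ndB2q1 pcB2 Cut.none Ext.none)

def k0_pm_012 : ∃ t, chk3 f_pm_012 t 1 1 1 = true :=
  ⟨(a (a (a (l 3) (a (l 3) (b (b (b (l 2) (l 3)) (l 3)) (l 3)))) (b (b (a (a (a (a (b (l 2) (c (l 15515424) (l 15424432))) (l 2)) (l 2)) (l 2)) (l 2)) (a (a (a (b (a (l 15553048) (l 15534080)) (a (l 15729256) (l 15704976))) (a (b (l 15515664) (l 15681432)) (a (b (l 15522464) (l 15663272)) (b (c (l 15552368) (l 15470824)) (l 15648512))))) (b (l 15474728) (l 15597968))) (b (l 15375056) (l 15485528)))) (a (a (a (b (a (l 3) (b (l 220283132615) (l 1035790095431))) (b (l 3) (l 3))) (b (a (b (c (l 15898792) (l 15854280)) (b (l 16054920) (l 16188296))) (a (b (l 15855192) (l 16095648)) (b (a (l 15842448) (l 15832312)) (b (l 16012144) (l 16143336))))) (a (b (b (l 16332760) (l 16425144)) (b (l 16404696) (l 276118240679))) (a (b (b (l 16305496) (l 16459160)) (c (l 16281208)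 (l 16253296))) (b (b (l 16285744) (l 16391760)) (b (l 16473672) (l 16291064))))))) (b (b (l 15774040) (l 16001136)) (b (b (l 16203224) (l 16310792)) (b (l 16493040) (l 16321080))))) (b (b (l 15629552) (a (l 15882328) (l 15774352))) (b (a (l 16056192) (l 16014048)) (b (a (l 16365360) (l 16227096)) (l 16286144))))))) (b (a (b (l 2) (a (b (l 2) (l 15376480)) (l 2))) (l 2)) (b (a (a (b (l 15476264) (l 15632664)) (b (l 15369016) (l 15482240))) (a (l 15336392) (l 2))) (a (b (a (l 15844432) (l 15655104)) (a (b (l 16038776) (l 16161592)) (l 15886240))) (b (a (l 15508144) (l 15404864)) (a (l 15703760) (l 15561064))))))), by decide +kernel⟩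

theorem c_pm_012 : CertB 0 536870912 536870912 536870912 991146299 28908434 3 eng mog cd1q0 cd2q1 pd2 true true false .pnp 0 1 2
    ndB1q0 ndB2q1 pcB2 Cut.none Ext.none :=
  certB2 (fam := true) (s1 := true) (s2 := false) (a := 0) (b := 1) (c := 2) (cn := .pnp) (n1 := ndB1q0) (n2 := ndB2q1) (pc := pcB2) (cut := Cut.none) (xt := Ext.none) (P1 := 0) (W1 := 536870912) (P2 := 536870912) (W2 := 536870912) (P3 := 991146299) (W3 := 28908434) (N0 := 3) (En := eng) (mo := mog) (C1 := cd1q0) (C2 := cd2q1) (C3 := pd2)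
    rfl (fun _ => rfl) k0_pm_012

noncomputable def cut_pm_022_a : Cut := Cut.of [[⟨0, 0, 0, 53687091⟩, ⟨1, 1, 0, 53687091⟩, ⟨2, 1, 0, 53687091⟩]]

noncomputable def f_pm_022_a : ℕ → ℕ → ℕ → ℕ → Bool := onCell 1073741824 536870912 0 536870912 991146299 28908434
    (rowB 3 eng mog cd1q0 cd2q2a pd2 2 true true false .pp 0 2 2 (qsf 0 536870912 0 536870912 2) ndB1q0 ndB2q2a pcB2 cut_pm_022_a Ext.none)

def k0_pm_022_a : ∃ t, chk3 f_pm_022_a t 2 2 1 = true :=
  ⟨(a (b (l 1) (a (l 1) (a (l 1) (a (l 1) (a (l 1) (b (l 1) (b (l 1) (c (l 131028915495) (l 131028875447))))))))) (a (a (a (b (l 1) (b (a (l 1) (c (l 16140976) (l 16096752))) (b (c (l 247529891063) (l 16071640)) (a (c (l 16245792) (l 16202400)) (l 16234920))))) (b (b (c (l 16093560) (l 16053640)) (c (l 16123488) (l 16084072))) (b (c (l 16125400) (l 16108592)) (c (l 16226264) (l 16191392))))) (b (c (b (l 16116768) (l 16078656)) (b (l 16093032) (l 16054112))) (a (b (c (l 16252080) (l 16223288)) (c (l 16348128)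 (l 16321448))) (b (l 16285752) (b (l 16370544) (l 16404208)))))) (b (a (a (b (l 16304976) (l 16323656)) (b (l 16382272) (l 16397192))) (a (l 16466488) (l 16439520))) (a (c (b (l 16412744) (l 16496016)) (c (l 16264296) (l 16240912))) (a (l 16368808) (l 16351896)))))), by decide +kernel⟩

def k1_pm_022_a : ∃ t, chk3 f_pm_022_a t 2 6 1 = true :=
  ⟨(a (a (l 1) (b (a (l 1) (c (a (b (l 67141260967) (a (l 16226984) (l 16263008))) (b (a (l 16233496) (l 16270584)) (l 16254144))) (a (b (l 62309331191) (a (l 16175336) (l 16214280))) (b (a (l 16185176) (l 16225792)) (l 16210224))))) (a (a (a (l 1) (b (l 1) (c (b (l 16275296) (l 16325784)) (b (l 16224256) (l 16277136))))) (b (c (a (l 16238224) (b (l 16250152) (l 16293200))) (a (l 16185552) (l 16197696))) (c (a (b (l 16306736) (l 16356168)) (l 16342360)) (a (b (l 16257280) (l 16309008)) (l 16295968))))) (a (c (b (a (l 16305984) (l 16340424)) (l 16348952)) (b (a (l 16257872) (l 16295040)) (l 16306056))) (b (c (l 16371312)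 (l 16330472)) (l 16354304)))))) (a (a (a (b (b (a (c (l 16307432) (l 16266304)) (l 16238992)) (l 16265184)) (b (l 16360256) (l 16423136))) (a (b (b (l 16355096) (l 16425032)) (l 16413144)) (a (b (l 16309792) (l 16481032)) (b (b (l 16393224) (a (l 16463456) (b (l 16451992) (l 16466912)))) (a (l 16515264) (l 16470112)))))) (a (b (b (l 16366912) (l 16420056)) (a (l 16531720) (l 16455408))) (b (l 16420368) (a (l 16401376) (l 16390696))))) (a (b (a (l 16508432) (l 16450632)) (c (l 16233440) (a (l 16390232) (l 16349144)))) (b (a (l 16393472) (l 16337144)) (c (l 16273720) (l 16259432)))))), by decide +kernel⟩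

def k2_pm_022_a : ∃ t, chk3 f_pm_022_a t 2 14 1 = true :=
  ⟨(a (a (a (l 1) (b (b (l 1) (a (l 1) (a (l 1) (c (l 136934873127) (l 127807968359))))) (b (a (l 1) (a (c (a (l 16414984) (l 16425984)) (a (l 16373656) (l 16384368))) (c (l 16401368) (l 16380568)))) (a (l 6) (a (c (a (l 16480544) (l 16490864)) (a (l 16442400) (l 16452392))) (c (l 16507176) (l 16468488))))))) (a (b (a (a (c (b (l 16350784) (l 16407920)) (b (l 16303696) (l 16363560))) (c (b (l 16379016) (l 16434952)) (b (l 16332880) (l 16391456)))) (a (b (l 16344280) (l 16442240)) (l 16339952))) (a (a (c (l 16415384) (l 16354408)) (c (l 16482432) (l 16443144))) (c (l 16459120) (l 16442680)))) (a (b (c (l 16447840) (l 16409312)) (l 16456016)) (b (l 16430240) (l 16524656))))) (a (a (a (a (l 16439752) (l 16399792)) (a (l 16380488) (a (l 16391728) (a (l 16396352) (l 16343368))))) (c (l 16225024) (l 16233944))) (a (a (l 16235608) (b (l 16250856) (l 16175864))) (c (b (l 16173632) (l 16093832)) (b (l 16156920)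 (l 16074408)))))), by decide +kernel⟩

def k3_pm_022_a : ∃ t, chk3 f_pm_022_a t 2 15 1 = true :=
  ⟨(a (a (a (l 6) (a (l 6) (b (b (a (a (l 16447800) (l 16499168)) (l 16493304)) (c (l 16549400) (l 16517488))) (b (c (l 16621744) (l 16593384)) (a (l 16586104) (l 16566000)))))) (a (b (a (c (l 16514592) (l 16481056)) (l 16503776)) (a (b (l 16536072) (c (l 16525392) (l 16550464))) (a (l 16452880) (l 16437216)))) (a (b (l 16470048) (c (l 16411512) (l 16433864))) (b (l 16412608) (c (l 16398432) (l 16416600)))))) (a (a (a (b (l 16353344) (c (l 16320616) (l 16333624))) (a (b (l 16376064) (l 16265168)) (a (b (l 16344280) (l 16232720)) (a (b (l 16326864) (l 16214640)) (b (l 16314968) (c (l 16200424) (l 16204360))))))) (b (a (l 16276320) (l 16210968)) (c (l 16091128) (l 16130488)))) (a (b (l 16115872) (c (l 16013680) (l 15998800))) (b (l 15994832) (c (l 15901304) (l 15874096)))))), by decide +kernel⟩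

def k4_pm_022_a : ∃ t, chk3 f_pm_022_a t 3 1 1 = true :=
  ⟨(b (a (a (b (a (c (l 16368456) (l 16326016)) (l 16019968)) (a (b (l 16343832) (l 16250432)) (c (l 16243904) (l 16190656)))) (b (a (l 15950408) (l 15867408)) (a (c (l 16148832) (l 16075944)) (c (l 16060648) (l 15968648))))) (a (b (c (l 15943720) (l 15594192)) (c (a (l 15980200) (l 15908264)) (a (l 15869904) (l 15780784)))) (b (c (l 15810160) (l 15635488)) (c (l 15734432) (b (l 15669552) (l 15665736)))))) (a (b (a (a (b (l 16128856) (c (l 16174432) (l 16144480))) (b (l 16107144) (c (l 16080520) (l 16034688)))) (a (b (l 16049624) (c (l 15992984) (l 15931312))) (b (l 15957352) (c (l 15912712) (l 15835496))))) (a (b (a (c (b (l 16075072) (l 15992760)) (b (l 16043928) (l 15959984))) (c (l 15943640) (l 15897408))) (a (b (c (l 15899240) (l 15863608)) (c (l 15796800) (l 15757360))) (c (b (l 15787184) (a (l 15723888) (l 15678208))) (b (l 15759944) (l 15648920))))) (b (a (c (l 15860416) (l 15799872)) (c (l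 15784848) (l 15710216))) (a (c (b (l 15727136) (a (l 15637888) (l 15600928))) (b (l 15665632) (l 15535560))) (c (b (l 15655952) (l 15612800)) (a (l 15547952) (l 15509096))))))) (b (a (c (b (l 15887128) (l 15808056)) (b (l 15781064) (l 15624776))) (c (b (l 15770984) (l 15700488)) (b (l 15636208) (l 15574480)))) (a (b (c (b (l 15723344) (l 15630448)) (a (l 15629400) (l 15558320))) (c (a (b (l 15593448) (l 15490968)) (b (l 15540272) (l 15441488))) (a (b (l 15506256) (l 15403320)) (b (l 15440960) (l 15342360))))) (b (c (a (l 15611368) (l 15573392)) (a (l 15497784) (l 15448536))) (c (a (b (l 15496984) (l 15401960)) (b (l 15464104) (l 15372872))) (a (b (l 15386280) (l 15292032)) (b (l 15342880) (l 15252944))))))))), by decide +kernel⟩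

theorem s5_pm_022_a : ∃ t, chk3 f_pm_022_a t 2 7 1 = true := ex3_b k2_pm_022_a k3_pm_022_a

theorem s6_pm_022_a : ∃ t, chk3 f_pm_022_a t 2 3 1 = true := ex3_b k1_pm_022_a s5_pm_022_a

theorem s7_pm_022_a : ∃ t, chk3 f_pm_022_a t 2 1 1 = true := ex3_b k0_pm_022_a s6_pm_022_a

theorem s8_pm_022_a : ∃ t, chk3 f_pm_022_a t 1 1 1 = true := ex3_a s7_pm_022_a k4_pm_022_a

theorem c_pm_022_a : CertB 0 536870912 0 536870912 991146299 28908434 3 eng mog cd1q0 cd2q2a pd2 true true false .pp 0 2 2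
    ndB1q0 ndB2q2a pcB2 cut_pm_022_a Ext.none :=
  certB2 (fam := true) (s1 := true) (s2 := false) (a := 0) (b := 2) (c := 2) (cn := .pp) (n1 := ndB1q0) (n2 := ndB2q2a) (pc := pcB2) (cut := cut_pm_022_a) (xt := Ext.none) (P1 := 0) (W1 := 536870912) (P2 := 0) (W2 := 536870912) (P3 := 991146299) (W3 := 28908434) (N0 := 3) (En := eng) (mo := mog) (C1 := cd1q0) (C2 := cd2q2a) (C3 := pd2)
    rfl (fun _ => rfl) s8_pm_022_a

noncomputable def cut_pm_022_b : Cut := Cut.of [[⟨0, 0, 0, 53687091⟩, ⟨1, 1, 0, 53687091⟩, ⟨2, 1, 0, 53687091⟩]]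

noncomputable def f_pm_022_b : ℕ → ℕ → ℕ → ℕ → Bool := onCell 0 536870912 1073741824 536870912 991146299 28908434
    (rowB 3 eng mog cd1q0 cd2q2b pd2 1 true true false .pp 0 2 2 (qsf 0 536870912 1239849684 370763052 2) ndB1q0 ndB2q2b pcB2 cut_pm_022_b Ext.none)

def k0_pm_022_b : ∃ t, chk3 f_pm_022_b t 1 1 1 = true :=
  ⟨(b (a (b (l 1) (a (b (a (b (a (a (b (l 1) (l 274373145479)) (l 1)) (l 1)) (b (a (c (l 16165008) (l 16158616)) (l 1)) (a (c (l 16168720) (l 16149424)) (l 16298264)))) (l 1)) (a (a (b (c (l 16010000) (l 16044752)) (c (l 16007744) (l 16037720))) (b (a (l 16153704) (l 16305200)) (b (l 16228160) (l 16201376)))) (b (c (l 281352861031) (l 289405903527)) (b (l 16221416) (l 16244688))))) (l 1))) (l 1)) (a (b (a (b (b (a (a (c (l 15992328) (l 16017696)) (c (l 16190448) (l 16244776))) (a (l 16355800) (l 16297408))) (a (a (c (l 15942800) (l 15984728)) (l 16017472)) (l 16081808))) (b (a (a (l 15719696) (l 15982288)) (l 16111024)) (a (c (a (l 15866264)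 (l 16081088)) (l 15886704)) (l 16112448)))) (b (a (b (c (l 16051568) (l 15929568)) (c (l 16187648) (l 16111592))) (l 1)) (a (b (c (l 16191560) (l 16098576)) (l 15946416)) (b (c (l 15961952) (l 15835072)) (c (l 16009056) (l 15886872)))))) (a (b (a (a (b (l 15673392) (l 15701152)) (b (l 16057704) (l 16065968))) (b (l 16086392) (l 16075296))) (a (c (b (l 15903408) (l 15887704)) (l 15630208)) (c (l 16029208) (l 15873304)))) (b (a (c (l 16057704) (l 15922264)) (c (l 113311270343) (b (l 15870152) (l 15847960)))) (a (c (l 16038056) (l 15869232)) (c (l 15982384) (l 15804424)))))) (b (l 1) (a (b (a (b (c (l 15822744) (l 15674248)) (c (l 15843952) (l 15680792))) (l 1)) (a (c (l 139617666535) (l 138006684471)) (c (l 283498719143) (a (l 15556720) (l 310342406903))))) (l 1))))), by decide +kernel⟩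

theorem c_pm_022_b : CertB 0 536870912 1239849684 370763052 991146299 28908434 3 eng mog cd1q0 cd2q2b pd2 true true false .pp 0 2 2
    ndB1q0 ndB2q2b pcB2 cut_pm_022_b Ext.none :=
  certB1 (fam := true) (s1 := true) (s2 := false) (a := 0) (b := 2) (c := 2) (cn := .pp) (n1 := ndB1q0) (n2 := ndB2q2b) (pc := pcB2) (cut := cut_pm_022_b) (xt := Ext.none) (P1 := 0) (W1 := 536870912) (P2 := 1239849684) (W2 := 370763052) (P3 := 991146299) (W3 := 28908434) (N0 := 3) (En := eng) (mo := mog) (C1 := cd1q0) (C2 := cd2q2b) (C3 := pd2)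
    rfl (fun _ => rfl) k0_pm_022_b

noncomputable def f_pm_023_a : ℕ → ℕ → ℕ → ℕ → Bool := onCell 1610612736 536870912 0 536870912 991146299 28908434
    (rowB 3 eng mog cd1q0 cd2q2a pd3 2 true true false .up 0 2 3 (qsf 0 536870912 0 536870912 3) ndB1q0 ndB2q2a pcB3 Cut.none Ext.none)

def k0_pm_023_a : ∃ t, chk3 f_pm_023_a t 1 1 1 = true :=
  ⟨(a (a (b (a (b (l 16133528) (l 16012920)) (b (l 16082464) (l 16042464))) (b (a (b (l 16013872) (l 15770808)) (c (l 15896648) (l 15932288))) (a (b (c (l 15749672) (l 15813912)) (c (a (l 15578664) (l 15551352)) (l 15517064))) (b (a (l 15738864) (l 2)) (l 2))))) (b (a (b (l 16095416) (l 16050520)) (l 2)) (b (l 2) (l 2)))) (l 2)), by decide +kernel⟩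

theorem c_pm_023_a : CertB 0 536870912 0 536870912 991146299 28908434 3 eng mog cd1q0 cd2q2a pd3 true true false .up 0 2 3
    ndB1q0 ndB2q2a pcB3 Cut.none Ext.none :=
  certB2 (fam := true) (s1 := true) (s2 := false) (a := 0) (b := 2) (c := 3) (cn := .up) (n1 := ndB1q0) (n2 := ndB2q2a) (pc := pcB3) (cut := Cut.none) (xt := Ext.none) (P1 := 0) (W1 := 536870912) (P2 := 0) (W2 := 536870912) (P3 := 991146299) (W3 := 28908434) (N0 := 3) (En := eng) (mo := mog) (C1 := cd1q0) (C2 := cd2q2a) (C3 := pd3)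
    rfl (fun _ => rfl) k0_pm_023_a

noncomputable def f_pm_023_b : ℕ → ℕ → ℕ → ℕ → Bool := onCell 1610612736 536870912 1239849684 370763052 991146299 28908434
    (rowB 3 eng mog cd1q0 cd2q2b pd3 2 true true false .up 0 2 3 (qsf 0 536870912 1239849684 370763052 3) ndB1q0 ndB2q2b pcB3 Cut.none Ext.none)

def k0_pm_023_b : ∃ t, chk3 f_pm_023_b t 1 1 1 = true :=
  ⟨(a (a (b (b (a (b (l 16188352) (l 16284936)) (l 16042728)) (a (l 16312304) (l 16333704))) (b (a (a (l 16147416) (l 16300552)) (l 16353152)) (a (a (l 77340132583) (l 15647792)) (a (l 15982728) (l 16133056))))) (a (b (b (l 16075616) (b (l 16321944) (l 16379680))) (b (a (l 16375760) (l 16426320)) (a (l 16263056) (l 16344600)))) (b (b (a (l 16199616) (l 169213923559)) (a (l 16438248) (l 16564496))) (b (a (l 16542800) (l 16682912)) (a (l 16383888) (l 16409936)))))) (b (b (l 2) (a (a (a (l 16636736) (l 16616736)) (a (l 16592152) (l 2))) (l 2))) (a (a (a (b (l 16737368) (l 16427200)) (b (l 16688192) (l 16466920)))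 (b (a (l 16623008) (l 4)) (l 4))) (l 4)))), by decide +kernel⟩

theorem c_pm_023_b : CertB 0 536870912 1239849684 370763052 991146299 28908434 3 eng mog cd1q0 cd2q2b pd3 true true false .up 0 2 3
    ndB1q0 ndB2q2b pcB3 Cut.none Ext.none :=
  certB2 (fam := true) (s1 := true) (s2 := false) (a := 0) (b := 2) (c := 3) (cn := .up) (n1 := ndB1q0) (n2 := ndB2q2b) (pc := pcB3) (cut := Cut.none) (xt := Ext.none) (P1 := 0) (W1 := 536870912) (P2 := 1239849684) (W2 := 370763052) (P3 := 991146299) (W3 := 28908434) (N0 := 3) (En := eng) (mo := mog) (C1 := cd1q0) (C2 := cd2q2b) (C3 := pd3)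
    rfl (fun _ => rfl) k0_pm_023_b

noncomputable def f_pm_033 : ℕ → ℕ → ℕ → ℕ → Bool := onCell 0 536870912 1610612736 536870912 991146299 28908434
    (rowB 3 eng mog cd1q0 cd2q3 pd3 1 true true false .pnn 0 3 3 (qsf 0 536870912 1610612736 536870912 3) ndB1q0 ndB2q3 pcB3 Cut.none Ext.none)

def k0_pm_033 : ∃ t, chk3 f_pm_033 t 1 1 1 = true :=
  ⟨(b (a (b (a (b (a (b (l 15030176) (l 15158144)) (l 158944550087)) (a (b (l 15218576) (l 15251768)) (l 15405744))) (b (l 1) (a (l 15985520) (l 1)))) (b (a (a (b (a (l 15147208) (l 15350528)) (l 15114248)) (b (l 15653552) (l 15582440))) (a (b (l 16042648) (l 15983040)) (b (l 1) (l 16354928)))) (a (a (b (l 15087320) (l 15014888)) (b (l 15481928) (l 15395440))) (a (b (l 15870192) (l 15770712)) (b (l 16236696) (l 16124824)))))) (b (l 1) (b (l 1) (a (a (l 170757592615) (l 1)) (l 1))))) (b (b (a (a (b (a (l 14989408) (l 15348168)) (l 4)) (b (a (l 15700624) (l 16033040)) (l 4))) (a (b (a (l 16333048) (l 1)) (a (l 16290384)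 (l 16455368))) (l 1))) (a (l 4) (a (l 4) (b (l 1) (l 4))))) (l 4))), by decide +kernel⟩

theorem c_pm_033 : CertB 0 536870912 1610612736 536870912 991146299 28908434 3 eng mog cd1q0 cd2q3 pd3 true true false .pnn 0 3 3
    ndB1q0 ndB2q3 pcB3 Cut.none Ext.none :=
  certB1 (fam := true) (s1 := true) (s2 := false) (a := 0) (b := 3) (c := 3) (cn := .pnn) (n1 := ndB1q0) (n2 := ndB2q3) (pc := pcB3) (cut := Cut.none) (xt := Ext.none) (P1 := 0) (W1 := 536870912) (P2 := 1610612736) (W2 := 536870912) (P3 := 991146299) (W3 := 28908434) (N0 := 3) (En := eng) (mo := mog) (C1 := cd1q0) (C2 := cd2q3) (C3 := pd3)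
    rfl (fun _ => rfl) k0_pm_033

noncomputable def f_pm_101 : ℕ → ℕ → ℕ → ℕ → Bool := onCell 536870912 536870912 0 536870912 991146299 28908434
    (rowB 3 eng mog cd1q1 cd2q0 pd1 2 true true false .npn 1 0 1 (qsf 536870912 536870912 0 536870912 1) ndB1q1 ndB2q0 pcB1 Cut.none Ext.none)

def k0_pm_101 : ∃ t, chk3 f_pm_101 t 1 1 1 = true :=
  ⟨(a (l 3) (l 3)), by decide +kernel⟩

theorem c_pm_101 : CertB 536870912 536870912 0 536870912 991146299 28908434 3 eng mog cd1q1 cd2q0 pd1 true true false .npn 1 0 1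
    ndB1q1 ndB2q0 pcB1 Cut.none Ext.none :=
  certB2 (fam := true) (s1 := true) (s2 := false) (a := 1) (b := 0) (c := 1) (cn := .npn) (n1 := ndB1q1) (n2 := ndB2q0) (pc := pcB1) (cut := Cut.none) (xt := Ext.none) (P1 := 536870912) (W1 := 536870912) (P2 := 0) (W2 := 536870912) (P3 := 991146299) (W3 := 28908434) (N0 := 3) (En := eng) (mo := mog) (C1 := cd1q1) (C2 := cd2q0) (C3 := pd1)
    rfl (fun _ => rfl) k0_pm_101

end Pool.Agent.Strip051.G.I9231_9500.Tab.C.BA12

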