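import Pool.Agent.Strip051.G.I9231_9500.Tab
import Pool.Agent.Strip051.PB.ExtD3

/-! # Certificates B13 (generated) -/

set_option linter.all false
set_option maxRecDepth 100000

namespace Pool.Agent.Strip051.G.I9231_9500.Tab.C.BA12

open Pool.Agent.Strip051.PB Pool.Agent.Strip051.PB.T
open Pool.Agent.Strip051.G.I9231_9500.Tab

noncomputable def f_pm_102 : ℕ → ℕ → ℕ → ℕ → Bool := onCell 536870912 536870912 1073741824 536870912 991146299 28908434
    (rowB 3 eng mog cd1q1 cd2q0 pd2 1 true true false .npp 1 0 2 (qsf 536870912 536870912 0 536870912 2) ndB1q1 ndB2q0 pcB2 Cut.none Ext.none)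

def k0_pm_102 : ∃ t, chk3 f_pm_102 t 1 4 1 = true :=
  ⟨(b (l 3) (b (a (l 3) (a (l 3) (a (l 3) (a (l 3) (a (l 3) (b (l 3) (b (l 3) (l 16380016)))))))) (b (a (l 3) (b (a (l 3) (a (a (l 3) (l 16334400)) (a (l 16316952) (c (l 16374736) (l 16322904))))) (a (a (l 3) (a (l 16345832) (l 16293072))) (a (a (l 16222544) (l 16261480)) (a (l 16327568) (l 16213840)))))) (a (a (a (l 2) (c (l 649243752151) (l 16448088))) (c (a (l 16420360) (l 16483864)) (a (l 16403920) (l 16291176)))) (a (a (c (l 16384552) (a (l 16347240) (l 16317792))) (c (a (l 16483968) (l 16439040)) (b (l 16293840) (l 16266512)))) (a (a (b (l 16339744) (l 16312240)) (b (l 16315336) (l 16289424))) (a (b (l 16298624) (l 16276920)) (b (l 16292952) (l 16275448))))))))), by decide +kernel⟩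

def k1_pm_102 : ∃ t, chk3 f_pm_102 t 1 5 1 = true :=
  ⟨(a (b (b (b (a (a (l 2) (a (l 2) (l 24258568935))) (c (a (l 16340200) (c (l 16585824) (l 16539896))) (a (l 16310056) (b (l 16364848) (l 16346104))))) (a (l 2) (b (a (c (l 16489768) (l 16415328)) (l 16207488)) (c (a (l 16521776) (l 16508816)) (a (l 16405752) (l 16316680)))))) (a (l 2) (c (a (l 16553696) (l 16516664)) (a (l 16373064) (l 16274304))))) (a (l 2) (a (c (l 16506000) (l 16304672)) (c (l 16368816) (l 16117264))))) (b (a (b (b (a (c (a (l 16513536) (l 16445616)) (b (l 16295744) (l 16274744))) (c (b (l 16426024) (l 16410240)) (b (l 16241160) (l 16220440)))) (a (c (l 16231768) (l 15997648)) (c (b (l 16395208) (l 16291856)) (b (l 16200376) (l 16176752))))) (a (c (l 16432104) (l 16188584)) (c (l 16309064) (l 16120880)))) (a (b (b (a (l 16240632) (l 16177920)) (b (a (l 16254584) (l 16233400)) (b (l 16019656) (b (a (l 16234328) (l 16210480)) (a (l 16228880) (l 16198600)))))) (a (l 15981016) (l 16042040)))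 (b (b (a (l 16207840) (l 16165160)) (b (a (l 16221328) (l 16218840)) (b (a (l 16204912) (l 16191160)) (a (b (l 16186856) (l 16162424)) (l 16143568))))) (a (l 15935232) (c (l 16093568) (l 15987960)))))) (a (a (c (l 16160400) (l 15903952)) (c (b (l 16245760) (l 16162760)) (b (l 16023504) (l 15928672)))) (a (c (b (l 16118760) (l 16010168)) (b (l 15933888) (l 15807760))) (a (b (l 15944472) (l 15809608)) (b (l 15892200) (l 15744416))))))), by decide +kernel⟩

def k2_pm_102 : ∃ t, chk3 f_pm_102 t 1 3 1 = true :=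
  ⟨(a (a (l 2) (b (a (l 2) (b (c (l 16362040) (l 16087032)) (l 2))) (l 2))) (a (b (c (a (b (l 16083296) (l 16071304)) (b (l 15894624) (l 15902496))) (a (b (l 15816416) (l 15822576)) (b (l 15561048) (l 15637816)))) (a (l 2) (b (c (l 15799584) (l 15528376)) (l 2)))) (b (a (b (c (l 15606112) (a (l 15670624) (l 15591136))) (c (l 15614976) (l 15215096))) (b (a (c (l 15717496) (l 15512392)) (b (l 15600336) (l 15461848))) (c (a (l 15502288) (l 15382872)) (a (l 15261024) (l 15150400))))) (a (b (c (l 15533648) (l 15261624)) (c (l 15432552) (l 15150792))) (b (c (a (l 15322336) (l 15176744)) (a (l 15052192) (l 14908368))) (c (a (l 15186696) (l 15015864)) (a (l 14896656) (l 14720512)))))))), by decide +kernel⟩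

theorem s3_pm_102 : ∃ t, chk3 f_pm_102 t 1 2 1 = true := ex3_b k0_pm_102 k1_pm_102

theorem s4_pm_102 : ∃ t, chk3 f_pm_102 t 1 1 1 = true := ex3_b s3_pm_102 k2_pm_102

theorem c_pm_102 : CertB 536870912 536870912 0 536870912 991146299 28908434 3 eng mog cd1q1 cd2q0 pd2 true true false .npp 1 0 2
    ndB1q1 ndB2q0 pcB2 Cut.none Ext.none :=
  certB1 (fam := true) (s1 := true) (s2 := false) (a := 1) (b := 0) (c := 2) (cn := .npp) (n1 := ndB1q1) (n2 := ndB2q0) (pc := pcB2) (cut := Cut.none) (xt := Ext.none) (P1 := 536870912) (W1 := 536870912) (P2 := 0) (W2 := 536870912) (P3 := 991146299) (W3 := 28908434) (N0 := 3) (En := eng) (mo := mog) (C1 := cd1q1) (C2 := cd2q0) (C3 := pd2)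
    rfl (fun _ => rfl) s4_pm_102

noncomputable def f_pm_112 : ℕ → ℕ → ℕ → ℕ → Bool := onCell 536870912 536870912 1073741824 536870912 991146299 28908434
    (rowB 3 eng mog cd1q1 cd2q1 pd2 1 true true false .dn 1 1 2 (qsf 536870912 536870912 536870912 536870912 2) ndB1q1 ndB2q1 pcB2 Cut.none Ext.none)

def k0_pm_112 : ∃ t, chk3 f_pm_112 t 1 1 1 = true :=
  ⟨(b (b (b (l 3) (a (b (l 3) (b (l 3) (a (a (l 3) (c (l 16063704) (l 15932328))) (a (c (l 15900296) (l 15766592)) (l 1))))) (l 1))) (a (a (b (b (b (a (c (l 16188072) (l 16065760)) (c (l 16050688) (l 15920928))) (b (a (l 16099752) (l 15978880)) (a (l 15947712) (l 15808064)))) (a (l 16103672) (l 15963040))) (a (l 16015912) (l 15934152))) (a (b (b (b (c (l 15886600) (l 15753968)) (b (l 15813584) (c (l 15878040) (l 15744600)))) (l 15799704)) (l 15768784)) (b (b (l 1) (l 15617552)) (l 15586424)))) (b (l 1) (a (a (l 419863335207) (l 1)) (l 1))))) (a (a (b (a (b (l 16053384) (l 16039232)) (b (l 15902032) (l 15878480)))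 (a (l 16051352) (l 15865960))) (b (a (b (l 15733536) (l 15705432)) (b (l 15551024) (l 15521576))) (a (l 15659240) (b (l 15498112) (l 15484080))))) (b (a (a (b (a (l 15407040) (l 15301800)) (a (l 15372216) (l 15254904))) (b (b (l 1) (l 15104992)) (l 15061248))) (a (b (l 1) (l 343090214007)) (l 1))) (a (a (b (l 15280792) (l 15262384)) (b (l 15014192) (l 14987032))) (a (b (c (l 14785696) (l 14630624)) (c (l 14746376) (l 14582104))) (b (c (l 312488286855) (l 14285584)) (c (l 14398048) (l 14187024)))))))), by decide +kernel⟩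

theorem c_pm_112 : CertB 536870912 536870912 536870912 536870912 991146299 28908434 3 eng mog cd1q1 cd2q1 pd2 true true false .dn 1 1 2
    ndB1q1 ndB2q1 pcB2 Cut.none Ext.none :=
  certB1 (fam := true) (s1 := true) (s2 := false) (a := 1) (b := 1) (c := 2) (cn := .dn) (n1 := ndB1q1) (n2 := ndB2q1) (pc := pcB2) (cut := Cut.none) (xt := Ext.none) (P1 := 536870912) (W1 := 536870912) (P2 := 536870912) (W2 := 536870912) (P3 := 991146299) (W3 := 28908434) (N0 := 3) (En := eng) (mo := mog) (C1 := cd1q1) (C2 := cd2q1) (C3 := pd2)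
    rfl (fun _ => rfl) k0_pm_112

noncomputable def f_pm_113 : ℕ → ℕ → ℕ → ℕ → Bool := onCell 536870912 536870912 1610612736 536870912 991146299 28908434
    (rowB 3 eng mog cd1q1 cd2q1 pd3 1 true true false .nn 1 1 3 (qsf 536870912 536870912 536870912 536870912 3) ndB1q1 ndB2q1 pcB3 Cut.none Ext.none)

def k0_pm_113 : ∃ t, chk3 f_pm_113 t 1 1 1 = true :=
  ⟨(a (b (b (a (b (a (a (l 15961048) (l 16052360)) (l 15832648)) (a (a (l 2) (l 87608757575)) (a (l 16007032) (l 15827456)))) (a (b (l 15608296) (l 15578192)) (b (a (l 15480216) (l 15417472)) (a (l 15470208) (l 15413336))))) (a (b (a (l 2) (a (l 2) (l 15973112))) (l 2)) (a (b (a (l 15776312) (l 15609800)) (a (l 2) (l 15755312))) (b (a (l 15492064) (l 15441968)) (a (l 15448288) (l 15515128)))))) (a (l 2) (b (b (a (l 2) (a (l 2) (l 15494816))) (l 2)) (l 2)))) (b (b (a (b (a (l 15297888) (c (l 15134584) (l 15013848))) (a (l 15296584) (c (l 15123144) (l 15006784)))) (a (b (c (l 14837912) (l 14733848)) (b (l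 14758712) (a (l 14842072) (l 14666992)))) (b (b (a (l 14549832) (c (l 14395480) (l 14341288))) (a (l 14511680) (c (l 14374120) (l 14309784)))) (a (b (l 14490872) (l 14500664)) (b (l 14334528) (l 14349728)))))) (a (b (a (l 15335144) (c (l 15160600) (l 15047768))) (a (b (l 15393912) (l 15449384)) (b (l 15171912) (l 15238392)))) (a (b (a (b (l 14858120) (l 14890472)) (b (l 14687232) (l 14731392))) (a (l 15090544) (l 14835168))) (b (c (l 14544480) (l 14417672)) (l 14621624))))) (a (b (b (a (b (l 15520088) (l 15604056)) (b (l 15323512) (l 15427736))) (a (b (l 15697864) (l 2)) (a (b (l 15597416) (l 15725616)) (l 15579464)))) (a (l 2) (b (b (a (l 2) (l 15927976)) (l 2)) (l 2)))) (b (b (a (l 15115472) (l 14856704)) (a (l 15441704) (l 15232288))) (a (b (b (l 15887424) (l 16624384)) (b (b (l 16569320) (l 2)) (l 2))) (b (b (l 15703488) (l 16298720)) (b (l 16448336) (l 4)))))))), by decide +kernel⟩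

theorem c_pm_113 : CertB 536870912 536870912 536870912 536870912 991146299 28908434 3 eng mog cd1q1 cd2q1 pd3 true true false .nn 1 1 3
    ndB1q1 ndB2q1 pcB3 Cut.none Ext.none :=
  certB1 (fam := true) (s1 := true) (s2 := false) (a := 1) (b := 1) (c := 3) (cn := .nn) (n1 := ndB1q1) (n2 := ndB2q1) (pc := pcB3) (cut := Cut.none) (xt := Ext.none) (P1 := 536870912) (W1 := 536870912) (P2 := 536870912) (W2 := 536870912) (P3 := 991146299) (W3 := 28908434) (N0 := 3) (En := eng) (mo := mog) (C1 := cd1q1) (C2 := cd2q1) (C3 := pd3)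
    rfl (fun _ => rfl) k0_pm_113

noncomputable def f_pm_123_a : ℕ → ℕ → ℕ → ℕ → Bool := onCell 1610612736 536870912 0 536870912 991146299 28908434
    (rowB 3 eng mog cd1q1 cd2q2a pd3 2 true true false .npn 1 2 3 (qsf 536870912 536870912 0 536870912 3) ndB1q1 ndB2q2a pcB3 Cut.none Ext.none)

def k0_pm_123_a : ∃ t, chk3 f_pm_123_a t 1 1 1 = true :=
  ⟨(a (a (b (a (l 1) (b (l 1) (l 16325608))) (b (a (l 1) (b (l 16286480) (l 16231952))) (a (b (c (l 16211784) (l 16263920)) (c (a (l 16122800) (l 16068840)) (l 16061208))) (b (c (l 16107168) (l 16156848)) (c (l 15734224) (l 15799376)))))) (b (a (b (l 16319248) (l 16293016)) (b (a (l 16326584) (l 16352120)) (l 16291632))) (b (a (c (l 16200312) (l 16208128)) (b (l 16218360) (l 16089296))) (a (b (a (l 16074960) (l 16036800)) (a (l 15759664) (l 15705032))) (b (a (l 16006832) (l 15988328)) (a (l 15658416) (l 15539984))))))) (b (a (a (b (a (l 16398776) (l 16471272)) (a (l 16324488) (l 16374448))) (a (b (l 16543032) (l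 16447536)) (b (l 16523128) (l 16544616)))) (a (a (b (a (l 16636544) (l 4)) (a (l 16622080) (l 16675936))) (b (l 4) (a (l 16732808) (l 4)))) (l 4))) (a (a (b (c (l 16214832) (l 16039624)) (b (a (l 15985216) (l 16002352)) (a (b (l 15822696) (l 15680232)) (l 15781832)))) (b (a (b (l 16329840) (l 16212608)) (b (l 16415608) (l 16294552))) (b (a (l 16045744) (l 16122792)) (a (l 15803264) (l 15896680))))) (b (a (a (b (l 16537384) (l 16216248)) (a (l 16573752) (b (l 16684648) (l 16582400)))) (a (a (b (l 4) (l 16591624)) (l 4)) (l 4))) (a (a (b (a (l 16208920) (l 16280032)) (l 16067200)) (b (a (l 16361552) (l 16452240)) (a (l 16267336) (l 16451592)))) (b (a (a (b (l 16556488) (l 16524376)) (a (l 16567160) (l 4))) (l 4)) (a (a (b (l 16569352) (l 16630632)) (a (l 16596680) (l 16468736))) (a (a (a (l 16524112) (l 16505600)) (l 4)) (l 4))))))))), by decide +kernel⟩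

theorem c_pm_123_a : CertB 536870912 536870912 0 536870912 991146299 28908434 3 eng mog cd1q1 cd2q2a pd3 true true false .npn 1 2 3
    ndB1q1 ndB2q2a pcB3 Cut.none Ext.none :=
  certB2 (fam := true) (s1 := true) (s2 := false) (a := 1) (b := 2) (c := 3) (cn := .npn) (n1 := ndB1q1) (n2 := ndB2q2a) (pc := pcB3) (cut := Cut.none) (xt := Ext.none) (P1 := 536870912) (W1 := 536870912) (P2 := 0) (W2 := 536870912) (P3 := 991146299) (W3 := 28908434) (N0 := 3) (En := eng) (mo := mog) (C1 := cd1q1) (C2 := cd2q2a) (C3 := pd3)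
    rfl (fun _ => rfl) k0_pm_123_a

noncomputable def f_pm_123_b : ℕ → ℕ → ℕ → ℕ → Bool := onCell 1610612736 536870912 1239849684 370763052 991146299 28908434
    (rowB 3 eng mog cd1q1 cd2q2b pd3 2 true true false .npn 1 2 3 (qsf 536870912 536870912 1239849684 370763052 3) ndB1q1 ndB2q2b pcB3 Cut.none Ext.none)

def k0_pm_123_b : ∃ t, chk3 f_pm_123_b t 1 1 1 = true :=
  ⟨(a (a (l 1) (b (a (b (b (l 16337728) (l 1)) (l 1)) (b (a (l 16268520) (b (l 16395016) (l 16436568))) (a (l 1) (l 16338840)))) (l 1))) (b (a (a (b (a (l 16296864) (l 16254744)) (a (l 16273944) (l 16206592))) (b (a (b (l 16476304) (l 16363384)) (a (l 16384152) (l 4))) (a (a (l 16215968) (l 16231504)) (l 4)))) (l 4)) (a (a (l 1) (a (b (l 16097512) (l 1)) (l 4))) (l 4)))), by decide +kernel⟩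

theorem c_pm_123_b : CertB 536870912 536870912 1239849684 370763052 991146299 28908434 3 eng mog cd1q1 cd2q2b pd3 true true false .npn 1 2 3
    ndB1q1 ndB2q2b pcB3 Cut.none Ext.none :=
  certB2 (fam := true) (s1 := true) (s2 := false) (a := 1) (b := 2) (c := 3) (cn := .npn) (n1 := ndB1q1) (n2 := ndB2q2b) (pc := pcB3) (cut := Cut.none) (xt := Ext.none) (P1 := 536870912) (W1 := 536870912) (P2 := 1239849684) (W2 := 370763052) (P3 := 991146299) (W3 := 28908434) (N0 := 3) (En := eng) (mo := mog) (C1 := cd1q1) (C2 := cd2q2b) (C3 := pd3)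
    rfl (fun _ => rfl) k0_pm_123_b

noncomputable def f_pm_133 : ℕ → ℕ → ℕ → ℕ → Bool := onCell 536870912 536870912 1610612736 536870912 991146299 28908434
    (rowB 3 eng mog cd1q1 cd2q3 pd3 0 true true false .dn 1 3 3 (qsf 536870912 536870912 1610612736 536870912 3) ndB1q1 ndB2q3 pcB3 Cut.none Ext.none)

def k0_pm_133 : ∃ t, chk3 f_pm_133 t 1 1 1 = true :=
  ⟨(l 4), by decide +kernel⟩

theorem c_pm_133 : CertB 536870912 536870912 1610612736 536870912 991146299 28908434 3 eng mog cd1q1 cd2q3 pd3 true true false .dn 1 3 3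
    ndB1q1 ndB2q3 pcB3 Cut.none Ext.none :=
  certB0 (fam := true) (s1 := true) (s2 := false) (a := 1) (b := 3) (c := 3) (cn := .dn) (n1 := ndB1q1) (n2 := ndB2q3) (pc := pcB3) (cut := Cut.none) (xt := Ext.none) (P1 := 536870912) (W1 := 536870912) (P2 := 1610612736) (W2 := 536870912) (P3 := 991146299) (W3 := 28908434) (N0 := 3) (En := eng) (mo := mog) (C1 := cd1q1) (C2 := cd2q3) (C3 := pd3)
    rfl k0_pm_133

noncomputable def cut_pm_202_a : Cut := Cut.of [[⟨0, 1, 0, 53687091⟩, ⟨1, 0, 0, 53687091⟩, ⟨2, 1, 0, 53687091⟩]]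

noncomputable def f_pm_202_a : ℕ → ℕ → ℕ → ℕ → Bool := onCell 0 536870912 1073741824 536870912 991146299 28908434
    (rowB 3 eng mog cd1q2a cd2q0 pd2 1 true true false .pp 2 0 2 (qsf 0 536870912 0 536870912 2) ndB1q2a ndB2q0 pcB2 cut_pm_202_a Ext.none)

def k0_pm_202_a : ∃ t, chk3 f_pm_202_a t 2 2 1 = true :=
  ⟨(a (b (l 1) (b (b (b (l 1) (a (c (l 16157368) (l 16118048)) (c (l 16184872) (l 16142496)))) (b (a (l 16210000) (c (l 16265024) (l 16236192))) (a (l 16312376) (l 16286528)))) (c (b (l 16275144) (b (l 16336920) (l 16251928))) (b (b (l 16467984) (l 16369904)) (b (l 16256424) (l 16142552)))))) (b (b (l 1) (b (l 1) (a (l 1) (a (l 1) (b (l 1) (c (l 340408399943) (l 16083344))))))) (b (b (a (b (c (l 310880345415) (l 329133840471)) (b (l 152503485383) (l 16132984))) (b (c (a (l 16235400) (l 16289800)) (a (l 16179040) (l 16233080))) (c (l 16266496) (l 16203232)))) (a (b (c (l 16316760) (l 16288768)) (c (l 16398696) (l 16398432))) (c (l 16272344) (l 16226008))))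 (b (a (b (l 16490368) (l 16398576)) (c (l 16435424) (l 16376552))) (b (a (l 16305864) (l 16240872)) (a (l 16212704) (l 16192856))))))), by decide +kernel⟩

def k1_pm_202_a : ∃ t, chk3 f_pm_202_a t 2 3 1 = true :=
  ⟨(b (b (a (b (c (l 15999136) (a (l 15956184) (l 15989440))) (c (l 15895264) (a (l 15727680) (l 15770336)))) (b (c (a (l 16141608) (l 16126120)) (a (l 16002088) (l 15987560))) (c (a (l 15983824) (l 15973400)) (a (l 15791456) (l 15784600))))) (a (b (c (l 15796760) (a (l 15506592) (l 15557872))) (c (a (l 15633136) (l 15662944)) (a (b (l 15347496) (l 15258088)) (l 15355232)))) (b (c (a (l 15830824) (l 15825376)) (a (l 15586944) (l 15587536))) (c (l 15538168) (a (l 15391656) (l 15399344)))))) (b (a (b (a (c (b (l 15549744) (l 15533952)) (b (a (l 15197768) (l 15171960)) (a (l 15226816) (l 15119264)))) (c (l 15522288) (l 15166408))) (a (c (l 15544728) (b (l 15208352) (l 15272424))) (c (b (l 15441856) (l 15418760)) (b (l 15057856) (a (l 15050912) (l 14984112))))))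 (c (b (l 15550440) (l 15426880)) (b (a (l 15208424) (l 15222792)) (a (l 15039896) (l 15060424))))) (b (b (a (a (l 15345560) (c (l 15434040) (l 15043560))) (c (l 15349416) (l 14946272))) (a (c (l 15617432) (l 15172640)) (a (c (l 15317072) (l 14897616)) (l 15092344)))) (a (c (a (l 15855360) (l 15601080)) (a (l 15582936) (l 15258576))) (a (c (a (l 15405376) (l 15293560)) (a (l 15008808) (b (l 14839056) (l 14881920)))) (c (l 15243816) (b (l 14817288) (l 14781000)))))))), by decide +kernel⟩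

def k2_pm_202_a : ∃ t, chk3 f_pm_202_a t 3 8 1 = true :=
  ⟨(a (l 1) (b (a (l 1) (l 6)) (b (a (a (l 1) (a (l 1) (l 6))) (l 6)) (b (a (a (l 1) (a (b (a (l 1) (c (l 264710331495) (l 265783912359))) (c (a (l 250751600199) (l 16517400)) (a (l 253972725815) (l 16458840)))) (b (b (l 6) (c (l 16527464) (l 16492248))) (c (l 16517272) (l 16481048))))) (c (a (a (l 16516616) (l 16611760)) (l 16529328)) (a (a (c (l 16529152) (l 16501544)) (l 16545528)) (l 16555184)))) (a (a (a (l 1) (b (a (l 1) (c (l 16459688) (l 16419336))) (c (a (l 16472616) (l 16497176)) (a (l 16409720) (l 16435032))))) (a (c (c (l 16500160) (l 16470792)) (b (l 258267684775) (l 16474704))) (c (l 16498088) (a (l 16508544) (l 16538424))))) (a (a (c (l 16577968) (l 16526888)) (l 16580168)) (c (l 16528920) (l 16527848)))))))), by decide +kernel⟩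

def k3_pm_202_a : ∃ t, chk3 f_pm_202_a t 6 9 1 = true :=
  ⟨(b (a (l 1) (b (a (l 1) (b (l 1) (b (a (l 1) (c (l 180958257639) (l 16340928))) (a (c (l 289406239287) (l 307659718663)) (c (b (l 16400032) (l 16428360)) (c (l 16396024) (l 16361992))))))) (a (a (b (l 1) (c (l 16353544) (l 16285296))) (c (b (l 292090400775) (l 16379080)) (b (l 342019377799) (l 16332688)))) (c (b (a (c (l 16446800) (l 16414328)) (b (l 16457304) (l 16487288))) (b (l 16407544) (l 16417128))) (b (b (a (l 16359200) (l 16412408)) (l 132639690327)) (a (l 16382792) (l 16436168))))))) (a (b (b (a (l 1) (c (l 332892400455) (l 16200544))) (c (a (l 16257408) (l 16333672)) (a (l 16190192) (l 16267368)))) (a (c (l 94521626887) (l 16149064)) (c (l 16245624) (b (l 16294072) (l 16324944))))) (c (b (a (b (l 16313720) (l 16377952)) (b (l 16432816) (l 16455400))) (c (l 16350400) (l 16307832))) (a (b (b (l 16289000) (l 16334520)) (l 16301264)) (b (b (l 16350192) (l 16422192)) (l 16454176)))))), by decide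 +kernel⟩

def k4_pm_202_a : ∃ t, chk3 f_pm_202_a t 7 9 1 = true :=
  ⟨(b (a (b (b (a (a (c (c (l 237329764775) (l 238940317399)) (b (l 184179372311) (l 16345480))) (c (a (l 16456744) (l 16501864)) (b (l 16417984) (l 16456136)))) (a (c (l 16476896) (l 16394480)) (c (l 16552160) (l 16496928)))) (a (a (c (l 16417120) (l 16373144)) (c (l 16483808) (l 16420400))) (c (l 16498024) (b (l 16455168) (l 16477248))))) (a (c (b (a (b (l 16507328) (l 16520472)) (l 16500744)) (l 16459376)) (a (b (b (l 16463520) (l 16477400)) (l 16475816)) (b (l 16462488) (l 16522200)))) (b (b (l 16482216) (l 16524472)) (a (l 16515784) (l 16580176))))) (a (b (c (b (l 16604288) (l 16600032)) (b (l 16541184) (l 16610712))) (a (l 16457920) (l 16429552))) (b (c (a (l 16551984) (l 16517816)) (b (l 16518704) (l 16528312))) (c (l 16451752) (l 16382472))))) (a (b (a (c (l 16513120) (l 16430344)) (b (b (l 16482864) (l 16484408)) (l 16436872))) (c (a (l 16571536) (l 16485536)) (b (l 16439400) (l 16440576))))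 (a (b (c (l 16331072) (l 16311840)) (c (l 16382208) (l 16365456))) (b (c (l 16355360) (l 16331320)) (c (l 16265736) (l 16223016)))))), by decide +kernel⟩

def k5_pm_202_a : ∃ t, chk3 f_pm_202_a t 3 5 1 = true :=
  ⟨(a (b (b (a (b (c (a (l 16353808) (l 16386496)) (a (l 16300144) (l 16341856))) (c (l 16392320) (a (l 16386312) (l 16470264)))) (a (b (l 16351032) (l 16527312)) (b (l 16484488) (l 16512696)))) (a (c (l 16403712) (l 16338312)) (c (l 16353024) (l 16245816)))) (b (a (c (l 16382704) (l 16250064)) (c (l 16187848) (l 16078248))) (a (c (l 16232424) (l 16135992)) (c (l 16145816) (l 16032656))))) (b (a (b (c (a (l 16474232) (l 16324880)) (a (l 16428432) (l 16260168))) (c (a (l 16336872) (l 16250680)) (a (l 16291864) (l 16187400)))) (b (b (a (l 16173640) (c (l 16192352) (l 16130600))) (c (l 16083832) (l 15953248))) (c (a (l 16146784) (l 16022784)) (a (l 16061896) (l 15912488))))) (a (b (c (l 15984656) (a (l 16106240) (l 16003680))) (c (l 16008760) (l 15638032)))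 (b (c (a (l 16006360) (l 15883768)) (a (l 15880208) (l 15733136))) (c (a (l 15865448) (l 15745096)) (a (l 15697528) (l 15553832))))))), by decide +kernel⟩

def k6_pm_202_a : ∃ t, chk3 f_pm_202_a t 3 3 1 = true :=
  ⟨(b (a (b (c (a (b (l 16081872) (l 15933760)) (b (l 15999264) (l 15855680))) (a (b (l 15937304) (l 15741440)) (b (l 15840320) (l 15651448)))) (c (a (b (l 15790512) (l 15654272)) (b (l 15717408) (l 15586568))) (a (b (l 15551584) (l 15370608)) (b (l 15469072) (l 15295952))))) (b (a (b (c (l 15866384) (l 15682928)) (c (l 15727840) (l 15501656))) (c (b (l 15668976) (l 15536760)) (b (a (l 15517312) (l 15377920)) (l 15276496)))) (a (c (b (l 15595384) (l 15471080)) (b (l 15327792) (l 15163992))) (c (b (l 15411712) (l 15295824)) (b (l 15113136) (l 14961056)))))) (a (b (c (a (b (l 15527048) (l 15410664)) (b (l 15465080) (l 15354752))) (a (b (l 15201152) (l 15045664)) (b (l 15134624) (l 14987432)))) (c (a (l 15260656) (l 15214328)) (a (b (l 14906432) (l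 14785616)) (b (l 14856560) (l 14744072))))) (b (a (c (b (l 15356808) (l 15254320)) (b (l 15012680) (l 14876112))) (c (b (l 15190928) (l 15098728)) (b (l 14822600) (l 14699936)))) (a (c (l 15126776) (b (l 14756384) (l 14655448))) (c (b (l 15020816) (l 14958688)) (b (l 14595088) (l 14509952))))))), by decide +kernel⟩

theorem s7_pm_202_a : ∃ t, chk3 f_pm_202_a t 3 9 1 = true := ex3_a k3_pm_202_a k4_pm_202_a

theorem s8_pm_202_a : ∃ t, chk3 f_pm_202_a t 3 4 1 = true := ex3_b k2_pm_202_a s7_pm_202_a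

theorem s9_pm_202_a : ∃ t, chk3 f_pm_202_a t 3 2 1 = true := ex3_b s8_pm_202_a k5_pm_202_a

theorem s10_pm_202_a : ∃ t, chk3 f_pm_202_a t 3 1 1 = true := ex3_b s9_pm_202_a k6_pm_202_a

theorem s11_pm_202_a : ∃ t, chk3 f_pm_202_a t 2 1 1 = true := ex3_b k0_pm_202_a k1_pm_202_a

theorem s12_pm_202_a : ∃ t, chk3 f_pm_202_a t 1 1 1 = true := ex3_a s11_pm_202_a s10_pm_202_a

theorem c_pm_202_a : CertB 0 536870912 0 536870912 991146299 28908434 3 eng mog cd1q2a cd2q0 pd2 true true false .pp 2 0 2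
    ndB1q2a ndB2q0 pcB2 cut_pm_202_a Ext.none :=
  certB1 (fam := true) (s1 := true) (s2 := false) (a := 2) (b := 0) (c := 2) (cn := .pp) (n1 := ndB1q2a) (n2 := ndB2q0) (pc := pcB2) (cut := cut_pm_202_a) (xt := Ext.none) (P1 := 0) (W1 := 536870912) (P2 := 0) (W2 := 536870912) (P3 := 991146299) (W3 := 28908434) (N0 := 3) (En := eng) (mo := mog) (C1 := cd1q2a) (C2 := cd2q0) (C3 := pd2)
    rfl (fun _ => rfl) s12_pm_202_a

noncomputable def cut_pm_202_b : Cut := Cut.of [[⟨0, 1, 0, 53687091⟩, ⟨1, 0, 0, 53687091⟩, ⟨2, 1, 0, 53687091⟩]]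

noncomputable def f_pm_202_b : ℕ → ℕ → ℕ → ℕ → Bool := onCell 1073741824 536870912 0 536870912 991146299 28908434
    (rowB 3 eng mog cd1q2b cd2q0 pd2 2 true true false .pp 2 0 2 (qsf 1239849684 370763052 0 536870912 2) ndB1q2b ndB2q0 pcB2 cut_pm_202_b Ext.none)

def k0_pm_202_b : ∃ t, chk3 f_pm_202_b t 2 1 1 = true :=
  ⟨(b (b (a (l 1) (b (a (a (b (c (l 275983834279) (a (l 1) (l 16192304))) (l 1)) (b (c (l 16174120) (l 16119944)) (l 291016537975))) (b (a (c (l 16222064) (l 16202096)) (c (l 16289136) (l 16287688))) (a (l 98816615367) (l 16102344)))) (a (l 1) (a (b (a (l 1) (l 16228496)) (l 1)) (b (c (l 16279704) (l 16176176)) (l 297995158231)))))) (l 1)) (l 1)), by decide +kernel⟩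

def k1_pm_202_b : ∃ t, chk3 f_pm_202_b t 6 1 1 = true :=
  ⟨(b (b (b (a (b (c (l 16064888) (a (l 16147176) (l 15988392))) (a (l 16002664) (l 15905632))) (c (b (l 15915952) (l 15812240)) (b (a (l 15832376) (l 15679328)) (l 15671816)))) (a (c (b (l 15910568) (l 157334767511)) (a (b (l 16023640) (l 15938816)) (l 15607832))) (c (a (l 15905072) (l 15795160)) (a (l 15697856) (l 15561720))))) (a (b (c (a (l 304974167543) (l 263634904855)) (a (b (l 15839064) (l 1)) (b (l 15705616) (l 15515496)))) (l 1)) (b (c (a (l 206189521543) (l 15702968)) (a (b (l 15577352) (l 15480240)) (l 15371088))) (b (a (c (l 15685232) (l 15306216)) (c (l 15404080) (a (l 15291200) (l 15257776)))) (a (l 1) (c (l 345238620711) (a (l 1) (l 15208632)))))))) (l 1)), by decide +kernel⟩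

def k2_pm_202_b : ∃ t, chk3 f_pm_202_b t 7 1 1 = true :=
  ⟨(b (b (a (b (c (b (l 15543632) (l 15661136)) (b (l 15329992) (l 15426680))) (a (c (l 15688232) (l 15430480)) (b (l 15461280) (c (l 15584840) (l 15296440))))) (b (a (c (l 15493920) (l 15235304)) (b (c (l 15379048) (l 15109440)) (c (l 15427824) (a (l 15147608) (l 15139072))))) (a (b (c (l 15514232) (l 15233040)) (c (l 15571824) (l 15290840))) (c (l 15443400) (b (l 15272576) (l 15412640)))))) (a (b (a (b (c (l 15637184) (l 15340472)) (c (l 15613448) (l 15295912))) (b (c (l 15598744) (l 15298760)) (c (l 15643872) (l 15343584)))) (a (c (b (l 15610672) (l 15612688)) (b (l 15280328) (l 15272424))) (c (l 15692640) (l 15346440)))) (c (b (a (l 15696264) (l 15800640)) (a (l 15800912) (l 15932304))) (b (a (l 15429864) (l 15580312)) (a (l 15538568) (l 15721984)))))) (b (a (b (a (c (l 328595665863) (b (l 15245528) (l 1))) (c (l 183640737063) (b (l 15383712) (l 15352560)))) (l 1)) (a (b (c (l 15829840) (l 15406368))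 (c (l 344165327895) (l 338259133111))) (b (c (l 15987896) (l 15768624)) (c (l 15886208) (l 189546378039))))) (l 1))), by decide +kernel⟩

theorem s3_pm_202_b : ∃ t, chk3 f_pm_202_b t 3 1 1 = true := ex3_a k1_pm_202_b k2_pm_202_b

theorem s4_pm_202_b : ∃ t, chk3 f_pm_202_b t 1 1 1 = true := ex3_a k0_pm_202_b s3_pm_202_b

theorem c_pm_202_b : CertB 1239849684 370763052 0 536870912 991146299 28908434 3 eng mog cd1q2b cd2q0 pd2 true true false .pp 2 0 2
    ndB1q2b ndB2q0 pcB2 cut_pm_202_b Ext.none :=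
  certB2 (fam := true) (s1 := true) (s2 := false) (a := 2) (b := 0) (c := 2) (cn := .pp) (n1 := ndB1q2b) (n2 := ndB2q0) (pc := pcB2) (cut := cut_pm_202_b) (xt := Ext.none) (P1 := 1239849684) (W1 := 370763052) (P2 := 0) (W2 := 536870912) (P3 := 991146299) (W3 := 28908434) (N0 := 3) (En := eng) (mo := mog) (C1 := cd1q2b) (C2 := cd2q0) (C3 := pd2)
    rfl (fun _ => rfl) s4_pm_202_b

noncomputable def f_pm_203_a : ℕ → ℕ → ℕ → ℕ → Bool := onCell 0 536870912 1610612736 536870912 991146299 28908434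
    (rowB 3 eng mog cd1q2a cd2q0 pd3 1 true true false .up 2 0 3 (qsf 0 536870912 0 536870912 3) ndB1q2a ndB2q0 pcB3 Cut.none Ext.none)

def k0_pm_203_a : ∃ t, chk3 f_pm_203_a t 1 1 1 = true :=
  ⟨(b (b (a (b (a (b (l 16128624) (l 16207256)) (b (a (l 15910528) (l 15757296)) (l 15870864))) (a (b (l 16284336) (l 16343000)) (b (l 15980416) (l 16085680)))) (b (a (a (b (l 15653920) (l 15635784)) (l 15362072)) (a (c (l 15489488) (l 15280096)) (c (l 15299640) (l 15064344)))) (a (b (a (l 15685544) (l 15506928)) (a (l 15791928) (l 15561424))) (a (b (l 15352192) (l 2)) (l 2))))) (a (b (a (b (l 16378056) (l 4)) (b (l 16062872) (l 2))) (l 2)) (a (l 2) (l 2)))) (l 2)), by decide +kernel⟩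

theorem c_pm_203_a : CertB 0 536870912 0 536870912 991146299 28908434 3 eng mog cd1q2a cd2q0 pd3 true true false .up 2 0 3
    ndB1q2a ndB2q0 pcB3 Cut.none Ext.none :=
  certB1 (fam := true) (s1 := true) (s2 := false) (a := 2) (b := 0) (c := 3) (cn := .up) (n1 := ndB1q2a) (n2 := ndB2q0) (pc := pcB3) (cut := Cut.none) (xt := Ext.none) (P1 := 0) (W1 := 536870912) (P2 := 0) (W2 := 536870912) (P3 := 991146299) (W3 := 28908434) (N0 := 3) (En := eng) (mo := mog) (C1 := cd1q2a) (C2 := cd2q0) (C3 := pd3)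
    rfl (fun _ => rfl) k0_pm_203_a

noncomputable def f_pm_203_b : ℕ → ℕ → ℕ → ℕ → Bool := onCell 1239849684 370763052 1610612736 536870912 991146299 28908434
    (rowB 3 eng mog cd1q2b cd2q0 pd3 1 true true false .up 2 0 3 (qsf 1239849684 370763052 0 536870912 3) ndB1q2b ndB2q0 pcB3 Cut.none Ext.none)

def k0_pm_203_b : ∃ t, chk3 f_pm_203_b t 1 1 1 = true :=
  ⟨(b (b (a (b (a (b (l 16115664) (l 16184040)) (b (l 16351688) (l 16450376))) (b (a (l 676154260231) (l 16423648)) (l 4))) (b (a (b (l 16195976) (l 16263304)) (b (a (l 15931496) (a (l 15782616) (l 15682720))) (a (l 15961408) (l 15762144)))) (a (b (l 16279168) (l 16239136)) (b (l 15697792) (a (l 16009336) (l 15803600)))))) (a (l 4) (b (a (l 4) (b (l 15735312) (l 4))) (l 4)))) (l 4)), by decide +kernel⟩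

theorem c_pm_203_b : CertB 1239849684 370763052 0 536870912 991146299 28908434 3 eng mog cd1q2b cd2q0 pd3 true true false .up 2 0 3
    ndB1q2b ndB2q0 pcB3 Cut.none Ext.none :=
  certB1 (fam := true) (s1 := true) (s2 := false) (a := 2) (b := 0) (c := 3) (cn := .up) (n1 := ndB1q2b) (n2 := ndB2q0) (pc := pcB3) (cut := Cut.none) (xt := Ext.none) (P1 := 1239849684) (W1 := 370763052) (P2 := 0) (W2 := 536870912) (P3 := 991146299) (W3 := 28908434) (N0 := 3) (En := eng) (mo := mog) (C1 := cd1q2b) (C2 := cd2q0) (C3 := pd3)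
    rfl (fun _ => rfl) k0_pm_203_b

noncomputable def f_pm_213_a : ℕ → ℕ → ℕ → ℕ → Bool := onCell 0 536870912 1610612736 536870912 991146299 28908434
    (rowB 3 eng mog cd1q2a cd2q1 pd3 1 true true false .pnn 2 1 3 (qsf 0 536870912 536870912 536870912 3) ndB1q2a ndB2q1 pcB3 Cut.none Ext.none)

def k0_pm_213_a : ∃ t, chk3 f_pm_213_a t 1 1 1 = true :=
  ⟨(a (b (b (b (l 1) (a (l 1) (b (l 1) (l 15585400)))) (b (a (b (l 15754224) (l 4)) (b (l 15698848) (l 15770832))) (b (a (l 4) (l 15810320)) (l 4)))) (l 4)) (b (b (b (a (l 1) (a (l 15003472) (c (l 14679080) (l 14533376)))) (a (b (a (l 1) (l 14989696)) (a (l 15307760) (l 15076488))) (a (b (l 14833408) (l 14879280)) (c (l 14739528) (l 14563480))))) (a (b (b (l 15341696) (l 15498816)) (b (l 15646784) (l 15554496))) (b (a (b (l 14971128) (l 15124736)) (b (l 14738960) (a (l 14902512) (l 14768192)))) (b (a (l 15297768) (l 14986816)) (a (l 15472520) (l 15166160)))))) (b (b (a (b (l 15853016) (l 4)) (b (a (l 15634880)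 (l 15344608)) (a (l 15765248) (l 15516768)))) (a (l 4) (b (a (l 4) (l 15677944)) (l 4)))) (l 4)))), by decide +kernel⟩

theorem c_pm_213_a : CertB 0 536870912 536870912 536870912 991146299 28908434 3 eng mog cd1q2a cd2q1 pd3 true true false .pnn 2 1 3
    ndB1q2a ndB2q1 pcB3 Cut.none Ext.none :=
  certB1 (fam := true) (s1 := true) (s2 := false) (a := 2) (b := 1) (c := 3) (cn := .pnn) (n1 := ndB1q2a) (n2 := ndB2q1) (pc := pcB3) (cut := Cut.none) (xt := Ext.none) (P1 := 0) (W1 := 536870912) (P2 := 536870912) (W2 := 536870912) (P3 := 991146299) (W3 := 28908434) (N0 := 3) (En := eng) (mo := mog) (C1 := cd1q2a) (C2 := cd2q1) (C3 := pd3)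
    rfl (fun _ => rfl) k0_pm_213_a

noncomputable def f_pm_213_b : ℕ → ℕ → ℕ → ℕ → Bool := onCell 1239849684 370763052 536870912 536870912 991146299 28908434
    (rowB 3 eng mog cd1q2b cd2q1 pd3 0 true true false .pnn 2 1 3 (qsf 1239849684 370763052 536870912 536870912 3) ndB1q2b ndB2q1 pcB3 Cut.none Ext.none)

def k0_pm_213_b : ∃ t, chk3 f_pm_213_b t 1 1 1 = true :=
  ⟨(l 4), by decide +kernel⟩

theorem c_pm_213_b : CertB 1239849684 370763052 536870912 536870912 991146299 28908434 3 eng mog cd1q2b cd2q1 pd3 true true false .pnn 2 1 3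
    ndB1q2b ndB2q1 pcB3 Cut.none Ext.none :=
  certB0 (fam := true) (s1 := true) (s2 := false) (a := 2) (b := 1) (c := 3) (cn := .pnn) (n1 := ndB1q2b) (n2 := ndB2q1) (pc := pcB3) (cut := Cut.none) (xt := Ext.none) (P1 := 1239849684) (W1 := 370763052) (P2 := 536870912) (W2 := 536870912) (P3 := 991146299) (W3 := 28908434) (N0 := 3) (En := eng) (mo := mog) (C1 := cd1q2b) (C2 := cd2q1) (C3 := pd3)
    rfl k0_pm_213_b

noncomputable def f_pm_303 : ℕ → ℕ → ℕ → ℕ → Bool := onCell 1610612736 536870912 0 536870912 991146299 28908434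
    (rowB 3 eng mog cd1q3 cd2q0 pd3 2 true true false .npn 3 0 3 (qsf 1610612736 536870912 0 536870912 3) ndB1q3 ndB2q0 pcB3 Cut.none Ext.none)

def k0_pm_303 : ∃ t, chk3 f_pm_303 t 1 1 1 = true :=
  ⟨(a (b (a (b (a (b (b (a (l 15725616) (l 15622336)) (l 15797864)) (l 308195285495)) (b (a (l 15556296) (l 15425824)) (c (l 15741808) (l 15746456)))) (a (l 1) (b (a (l 1) (l 15954176)) (l 1)))) (b (a (b (a (l 15108608) (b (l 15118528) (l 15254128))) (a (l 15481168) (l 15492392))) (b (a (b (l 15050488) (l 4)) (l 4)) (l 4))) (a (b (a (l 15804248) (l 4)) (l 4)) (l 4)))) (a (l 1) (l 4))) (l 4)), by decide +kernel⟩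

theorem c_pm_303 : CertB 1610612736 536870912 0 536870912 991146299 28908434 3 eng mog cd1q3 cd2q0 pd3 true true false .npn 3 0 3
    ndB1q3 ndB2q0 pcB3 Cut.none Ext.none :=
  certB2 (fam := true) (s1 := true) (s2 := false) (a := 3) (b := 0) (c := 3) (cn := .npn) (n1 := ndB1q3) (n2 := ndB2q0) (pc := pcB3) (cut := Cut.none) (xt := Ext.none) (P1 := 1610612736) (W1 := 536870912) (P2 := 0) (W2 := 536870912) (P3 := 991146299) (W3 := 28908434) (N0 := 3) (En := eng) (mo := mog) (C1 := cd1q3) (C2 := cd2q0) (C3 := pd3)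
    rfl (fun _ => rfl) k0_pm_303

noncomputable def f_pm_313 : ℕ → ℕ → ℕ → ℕ → Bool := onCell 1610612736 536870912 536870912 536870912 991146299 28908434
    (rowB 3 eng mog cd1q3 cd2q1 pd3 0 true true false .dn 3 1 3 (qsf 1610612736 536870912 536870912 536870912 3) ndB1q3 ndB2q1 pcB3 Cut.none Ext.none)

def k0_pm_313 : ∃ t, chk3 f_pm_313 t 1 1 1 = true :=
  ⟨(l 4), by decide +kernel⟩

theorem c_pm_313 : CertB 1610612736 536870912 536870912 536870912 991146299 28908434 3 eng mog cd1q3 cd2q1 pd3 true true false .dn 3 1 3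
    ndB1q3 ndB2q1 pcB3 Cut.none Ext.none :=
  certB0 (fam := true) (s1 := true) (s2 := false) (a := 3) (b := 1) (c := 3) (cn := .dn) (n1 := ndB1q3) (n2 := ndB2q1) (pc := pcB3) (cut := Cut.none) (xt := Ext.none) (P1 := 1610612736) (W1 := 536870912) (P2 := 536870912) (W2 := 536870912) (P3 := 991146299) (W3 := 28908434) (N0 := 3) (En := eng) (mo := mog) (C1 := cd1q3) (C2 := cd2q1) (C3 := pd3)
    rfl k0_pm_313

noncomputable def f_mm_001 : ℕ → ℕ → ℕ → ℕ → Bool := onCell 0 536870912 0 536870912 991146299 28908434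
    (rowB 3 eng mog cd1q0 cd2q0 pd1 0 true false false .up 0 0 1 (qsf 0 536870912 0 536870912 1) ndB1q0 ndB2q0 pcB1 Cut.none Ext.none)

def k0_mm_001 : ∃ t, chk3 f_mm_001 t 1 1 1 = true :=
  ⟨(l 4), by decide +kernel⟩

theorem c_mm_001 : CertB 0 536870912 0 536870912 991146299 28908434 3 eng mog cd1q0 cd2q0 pd1 true false false .up 0 0 1
    ndB1q0 ndB2q0 pcB1 Cut.none Ext.none :=
  certB0 (fam := true) (s1 := false) (s2 := false) (a := 0) (b := 0) (c := 1) (cn := .up) (n1 := ndB1q0) (n2 := ndB2q0) (pc := pcB1) (cut := Cut.none) (xt := Ext.none) (P1 := 0) (W1 := 536870912) (P2 := 0) (W2 := 536870912) (P3 := 991146299) (W3 := 28908434) (N0 := 3) (En := eng) (mo := mog) (C1 := cd1q0) (C2 := cd2q0) (C3 := pd1)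
    rfl k0_mm_001

noncomputable def f_mm_011 : ℕ → ℕ → ℕ → ℕ → Bool := onCell 0 536870912 536870912 536870912 991146299 28908434
    (rowB 3 eng mog cd1q0 cd2q1 pd1 0 true false false .pnn 0 1 1 (qsf 0 536870912 536870912 536870912 1) ndB1q0 ndB2q1 pcB1 Cut.none Ext.none)

def k0_mm_011 : ∃ t, chk3 f_mm_011 t 1 1 1 = true :=
  ⟨(l 4), by decide +kernel⟩

theorem c_mm_011 : CertB 0 536870912 536870912 536870912 991146299 28908434 3 eng mog cd1q0 cd2q1 pd1 true false false .pnn 0 1 1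
    ndB1q0 ndB2q1 pcB1 Cut.none Ext.none :=
  certB0 (fam := true) (s1 := false) (s2 := false) (a := 0) (b := 1) (c := 1) (cn := .pnn) (n1 := ndB1q0) (n2 := ndB2q1) (pc := pcB1) (cut := Cut.none) (xt := Ext.none) (P1 := 0) (W1 := 536870912) (P2 := 536870912) (W2 := 536870912) (P3 := 991146299) (W3 := 28908434) (N0 := 3) (En := eng) (mo := mog) (C1 := cd1q0) (C2 := cd2q1) (C3 := pd1)
    rfl k0_mm_011

noncomputable def f_mm_012 : ℕ → ℕ → ℕ → ℕ → Bool := onCell 0 536870912 536870912 536870912 991146299 28908434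
    (rowB 3 eng mog cd1q0 cd2q1 pd2 0 true false false .pnp 0 1 2 (qsf 0 536870912 536870912 536870912 2) ndB1q0 ndB2q1 pcB2 Cut.none Ext.none)

def k0_mm_012 : ∃ t, chk3 f_mm_012 t 1 1 1 = true :=
  ⟨(l 4), by decide +kernel⟩

theorem c_mm_012 : CertB 0 536870912 536870912 536870912 991146299 28908434 3 eng mog cd1q0 cd2q1 pd2 true false false .pnp 0 1 2
    ndB1q0 ndB2q1 pcB2 Cut.none Ext.none :=
  certB0 (fam := true) (s1 := false) (s2 := false) (a := 0) (b := 1) (c := 2) (cn := .pnp) (n1 := ndB1q0) (n2 := ndB2q1) (pc := pcB2) (cut := Cut.none) (xt := Ext.none) (P1 := 0) (W1 := 536870912) (P2 := 536870912) (W2 := 536870912) (P3 := 991146299) (W3 := 28908434) (N0 := 3) (En := eng) (mo := mog) (C1 := cd1q0) (C2 := cd2q1) (C3 := pd2)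
    rfl k0_mm_012

noncomputable def f_mm_022_a : ℕ → ℕ → ℕ → ℕ → Bool := onCell 0 536870912 0 536870912 991146299 28908434
    (rowB 3 eng mog cd1q0 cd2q2a pd2 0 true false false .pp 0 2 2 (qsf 0 536870912 0 536870912 2) ndB1q0 ndB2q2a pcB2 Cut.none Ext.none)

def k0_mm_022_a : ∃ t, chk3 f_mm_022_a t 1 1 1 = true :=
  ⟨(l 5), by decide +kernel⟩

theorem c_mm_022_a : CertB 0 536870912 0 536870912 991146299 28908434 3 eng mog cd1q0 cd2q2a pd2 true false false .pp 0 2 2
    ndB1q0 ndB2q2a pcB2 Cut.none Ext.none :=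
  certB0 (fam := true) (s1 := false) (s2 := false) (a := 0) (b := 2) (c := 2) (cn := .pp) (n1 := ndB1q0) (n2 := ndB2q2a) (pc := pcB2) (cut := Cut.none) (xt := Ext.none) (P1 := 0) (W1 := 536870912) (P2 := 0) (W2 := 536870912) (P3 := 991146299) (W3 := 28908434) (N0 := 3) (En := eng) (mo := mog) (C1 := cd1q0) (C2 := cd2q2a) (C3 := pd2)
    rfl k0_mm_022_a

noncomputable def f_mm_022_b : ℕ → ℕ → ℕ → ℕ → Bool := onCell 0 536870912 1239849684 370763052 991146299 28908434
    (rowB 3 eng mog cd1q0 cd2q2b pd2 0 true false false .pp 0 2 2 (qsf 0 536870912 1239849684 370763052 2) ndB1q0 ndB2q2b pcB2 Cut.none Ext.none)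

def k0_mm_022_b : ∃ t, chk3 f_mm_022_b t 1 1 1 = true :=
  ⟨(l 5), by decide +kernel⟩

theorem c_mm_022_b : CertB 0 536870912 1239849684 370763052 991146299 28908434 3 eng mog cd1q0 cd2q2b pd2 true false false .pp 0 2 2
    ndB1q0 ndB2q2b pcB2 Cut.none Ext.none :=
  certB0 (fam := true) (s1 := false) (s2 := false) (a := 0) (b := 2) (c := 2) (cn := .pp) (n1 := ndB1q0) (n2 := ndB2q2b) (pc := pcB2) (cut := Cut.none) (xt := Ext.none) (P1 := 0) (W1 := 536870912) (P2 := 1239849684) (W2 := 370763052) (P3 := 991146299) (W3 := 28908434) (N0 := 3) (En := eng) (mo := mog) (C1 := cd1q0) (C2 := cd2q2b) (C3 := pd2)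
    rfl k0_mm_022_b

noncomputable def f_mm_023_a : ℕ → ℕ → ℕ → ℕ → Bool := onCell 0 536870912 0 536870912 991146299 28908434
    (rowB 3 eng mog cd1q0 cd2q2a pd3 0 true false false .up 0 2 3 (qsf 0 536870912 0 536870912 3) ndB1q0 ndB2q2a pcB3 Cut.none Ext.none)

def k0_mm_023_a : ∃ t, chk3 f_mm_023_a t 1 1 1 = true :=
  ⟨(l 5), by decide +kernel⟩

theorem c_mm_023_a : CertB 0 536870912 0 536870912 991146299 28908434 3 eng mog cd1q0 cd2q2a pd3 true false false .up 0 2 3
    ndB1q0 ndB2q2a pcB3 Cut.none Ext.none :=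
  certB0 (fam := true) (s1 := false) (s2 := false) (a := 0) (b := 2) (c := 3) (cn := .up) (n1 := ndB1q0) (n2 := ndB2q2a) (pc := pcB3) (cut := Cut.none) (xt := Ext.none) (P1 := 0) (W1 := 536870912) (P2 := 0) (W2 := 536870912) (P3 := 991146299) (W3 := 28908434) (N0 := 3) (En := eng) (mo := mog) (C1 := cd1q0) (C2 := cd2q2a) (C3 := pd3)
    rfl k0_mm_023_a

noncomputable def f_mm_023_b : ℕ → ℕ → ℕ → ℕ → Bool := onCell 0 536870912 1239849684 370763052 991146299 28908434
    (rowB 3 eng mog cd1q0 cd2q2b pd3 0 true false false .up 0 2 3 (qsf 0 536870912 1239849684 370763052 3) ndB1q0 ndB2q2b pcB3 Cut.none Ext.none)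

def k0_mm_023_b : ∃ t, chk3 f_mm_023_b t 1 1 1 = true :=
  ⟨(l 5), by decide +kernel⟩

theorem c_mm_023_b : CertB 0 536870912 1239849684 370763052 991146299 28908434 3 eng mog cd1q0 cd2q2b pd3 true false false .up 0 2 3
    ndB1q0 ndB2q2b pcB3 Cut.none Ext.none :=
  certB0 (fam := true) (s1 := false) (s2 := false) (a := 0) (b := 2) (c := 3) (cn := .up) (n1 := ndB1q0) (n2 := ndB2q2b) (pc := pcB3) (cut := Cut.none) (xt := Ext.none) (P1 := 0) (W1 := 536870912) (P2 := 1239849684) (W2 := 370763052) (P3 := 991146299) (W3 := 28908434) (N0 := 3) (En := eng) (mo := mog) (C1 := cd1q0) (C2 := cd2q2b) (C3 := pd3)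
    rfl k0_mm_023_b

noncomputable def f_mm_033 : ℕ → ℕ → ℕ → ℕ → Bool := onCell 0 536870912 1610612736 536870912 991146299 28908434
    (rowB 3 eng mog cd1q0 cd2q3 pd3 0 true false false .pnn 0 3 3 (qsf 0 536870912 1610612736 536870912 3) ndB1q0 ndB2q3 pcB3 Cut.none Ext.none)

def k0_mm_033 : ∃ t, chk3 f_mm_033 t 1 1 1 = true :=
  ⟨(l 5), by decide +kernel⟩

theorem c_mm_033 : CertB 0 536870912 1610612736 536870912 991146299 28908434 3 eng mog cd1q0 cd2q3 pd3 true false false .pnn 0 3 3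
    ndB1q0 ndB2q3 pcB3 Cut.none Ext.none :=
  certB0 (fam := true) (s1 := false) (s2 := false) (a := 0) (b := 3) (c := 3) (cn := .pnn) (n1 := ndB1q0) (n2 := ndB2q3) (pc := pcB3) (cut := Cut.none) (xt := Ext.none) (P1 := 0) (W1 := 536870912) (P2 := 1610612736) (W2 := 536870912) (P3 := 991146299) (W3 := 28908434) (N0 := 3) (En := eng) (mo := mog) (C1 := cd1q0) (C2 := cd2q3) (C3 := pd3)
    rfl k0_mm_033

noncomputable def f_mm_101 : ℕ → ℕ → ℕ → ℕ → Bool := onCell 536870912 536870912 0 536870912 991146299 28908434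
    (rowB 3 eng mog cd1q1 cd2q0 pd1 0 true false false .npn 1 0 1 (qsf 536870912 536870912 0 536870912 1) ndB1q1 ndB2q0 pcB1 Cut.none Ext.none)

def k0_mm_101 : ∃ t, chk3 f_mm_101 t 1 1 1 = true :=
  ⟨(l 4), by decide +kernel⟩

theorem c_mm_101 : CertB 536870912 536870912 0 536870912 991146299 28908434 3 eng mog cd1q1 cd2q0 pd1 true false false .npn 1 0 1
    ndB1q1 ndB2q0 pcB1 Cut.none Ext.none :=
  certB0 (fam := true) (s1 := false) (s2 := false) (a := 1) (b := 0) (c := 1) (cn := .npn) (n1 := ndB1q1) (n2 := ndB2q0) (pc := pcB1) (cut := Cut.none) (xt := Ext.none) (P1 := 536870912) (W1 := 536870912) (P2 := 0) (W2 := 536870912) (P3 := 991146299) (W3 := 28908434) (N0 := 3) (En := eng) (mo := mog) (C1 := cd1q1) (C2 := cd2q0) (C3 := pd1)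
    rfl k0_mm_101

noncomputable def f_mm_102 : ℕ → ℕ → ℕ → ℕ → Bool := onCell 536870912 536870912 0 536870912 991146299 28908434
    (rowB 3 eng mog cd1q1 cd2q0 pd2 0 true false false .npp 1 0 2 (qsf 536870912 536870912 0 536870912 2) ndB1q1 ndB2q0 pcB2 Cut.none Ext.none)

def k0_mm_102 : ∃ t, chk3 f_mm_102 t 1 1 1 = true :=
  ⟨(l 4), by decide +kernel⟩

theorem c_mm_102 : CertB 536870912 536870912 0 536870912 991146299 28908434 3 eng mog cd1q1 cd2q0 pd2 true false false .npp 1 0 2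
    ndB1q1 ndB2q0 pcB2 Cut.none Ext.none :=
  certB0 (fam := true) (s1 := false) (s2 := false) (a := 1) (b := 0) (c := 2) (cn := .npp) (n1 := ndB1q1) (n2 := ndB2q0) (pc := pcB2) (cut := Cut.none) (xt := Ext.none) (P1 := 536870912) (W1 := 536870912) (P2 := 0) (W2 := 536870912) (P3 := 991146299) (W3 := 28908434) (N0 := 3) (En := eng) (mo := mog) (C1 := cd1q1) (C2 := cd2q0) (C3 := pd2)
    rfl k0_mm_102

noncomputable def f_mm_112 : ℕ → ℕ → ℕ → ℕ → Bool := onCell 536870912 536870912 536870912 536870912 991146299 28908434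
    (rowB 3 eng mog cd1q1 cd2q1 pd2 0 true false false .dn 1 1 2 (qsf 536870912 536870912 536870912 536870912 2) ndB1q1 ndB2q1 pcB2 Cut.none Ext.none)

def k0_mm_112 : ∃ t, chk3 f_mm_112 t 1 1 1 = true :=
  ⟨(l 4), by decide +kernel⟩

theorem c_mm_112 : CertB 536870912 536870912 536870912 536870912 991146299 28908434 3 eng mog cd1q1 cd2q1 pd2 true false false .dn 1 1 2
    ndB1q1 ndB2q1 pcB2 Cut.none Ext.none :=
  certB0 (fam := true) (s1 := false) (s2 := false) (a := 1) (b := 1) (c := 2) (cn := .dn) (n1 := ndB1q1) (n2 := ndB2q1) (pc := pcB2) (cut := Cut.none) (xt := Ext.none) (P1 := 536870912) (W1 := 536870912) (P2 := 536870912) (W2 := 536870912) (P3 := 991146299) (W3 := 28908434) (N0 := 3) (En := eng) (mo := mog) (C1 := cd1q1) (C2 := cd2q1) (C3 := pd2)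
    rfl k0_mm_112

noncomputable def f_mm_113 : ℕ → ℕ → ℕ → ℕ → Bool := onCell 536870912 536870912 536870912 536870912 991146299 28908434
    (rowB 3 eng mog cd1q1 cd2q1 pd3 0 true false false .nn 1 1 3 (qsf 536870912 536870912 536870912 536870912 3) ndB1q1 ndB2q1 pcB3 Cut.none Ext.none)

def k0_mm_113 : ∃ t, chk3 f_mm_113 t 1 1 1 = true :=
  ⟨(l 4), by decide +kernel⟩

theorem c_mm_113 : CertB 536870912 536870912 536870912 536870912 991146299 28908434 3 eng mog cd1q1 cd2q1 pd3 true false false .nn 1 1 3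
    ndB1q1 ndB2q1 pcB3 Cut.none Ext.none :=
  certB0 (fam := true) (s1 := false) (s2 := false) (a := 1) (b := 1) (c := 3) (cn := .nn) (n1 := ndB1q1) (n2 := ndB2q1) (pc := pcB3) (cut := Cut.none) (xt := Ext.none) (P1 := 536870912) (W1 := 536870912) (P2 := 536870912) (W2 := 536870912) (P3 := 991146299) (W3 := 28908434) (N0 := 3) (En := eng) (mo := mog) (C1 := cd1q1) (C2 := cd2q1) (C3 := pd3)
    rfl k0_mm_113

noncomputable def f_mm_123_a : ℕ → ℕ → ℕ → ℕ → Bool := onCell 536870912 536870912 0 536870912 991146299 28908434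
    (rowB 3 eng mog cd1q1 cd2q2a pd3 0 true false false .npn 1 2 3 (qsf 536870912 536870912 0 536870912 3) ndB1q1 ndB2q2a pcB3 Cut.none Ext.none)

def k0_mm_123_a : ∃ t, chk3 f_mm_123_a t 1 1 1 = true :=
  ⟨(l 4), by decide +kernel⟩

theorem c_mm_123_a : CertB 536870912 536870912 0 536870912 991146299 28908434 3 eng mog cd1q1 cd2q2a pd3 true false false .npn 1 2 3
    ndB1q1 ndB2q2a pcB3 Cut.none Ext.none :=
  certB0 (fam := true) (s1 := false) (s2 := false) (a := 1) (b := 2) (c := 3) (cn := .npn) (n1 := ndB1q1) (n2 := ndB2q2a) (pc := pcB3) (cut := Cut.none) (xt := Ext.none) (P1 := 536870912) (W1 := 536870912) (P2 := 0) (W2 := 536870912) (P3 := 991146299) (W3 := 28908434) (N0 := 3) (En := eng) (mo := mog) (C1 := cd1q1) (C2 := cd2q2a) (C3 := pd3)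
    rfl k0_mm_123_a

noncomputable def f_mm_123_b : ℕ → ℕ → ℕ → ℕ → Bool := onCell 536870912 536870912 1239849684 370763052 991146299 28908434
    (rowB 3 eng mog cd1q1 cd2q2b pd3 0 true false false .npn 1 2 3 (qsf 536870912 536870912 1239849684 370763052 3) ndB1q1 ndB2q2b pcB3 Cut.none Ext.none)

def k0_mm_123_b : ∃ t, chk3 f_mm_123_b t 1 1 1 = true :=
  ⟨(l 4), by decide +kernel⟩

theorem c_mm_123_b : CertB 536870912 536870912 1239849684 370763052 991146299 28908434 3 eng mog cd1q1 cd2q2b pd3 true false false .npn 1 2 3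
    ndB1q1 ndB2q2b pcB3 Cut.none Ext.none :=
  certB0 (fam := true) (s1 := false) (s2 := false) (a := 1) (b := 2) (c := 3) (cn := .npn) (n1 := ndB1q1) (n2 := ndB2q2b) (pc := pcB3) (cut := Cut.none) (xt := Ext.none) (P1 := 536870912) (W1 := 536870912) (P2 := 1239849684) (W2 := 370763052) (P3 := 991146299) (W3 := 28908434) (N0 := 3) (En := eng) (mo := mog) (C1 := cd1q1) (C2 := cd2q2b) (C3 := pd3)
    rfl k0_mm_123_b

noncomputable def f_mm_133 : ℕ → ℕ → ℕ → ℕ → Bool := onCell 536870912 536870912 1610612736 536870912 991146299 28908434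
    (rowB 3 eng mog cd1q1 cd2q3 pd3 0 true false false .dn 1 3 3 (qsf 536870912 536870912 1610612736 536870912 3) ndB1q1 ndB2q3 pcB3 Cut.none Ext.none)

def k0_mm_133 : ∃ t, chk3 f_mm_133 t 1 1 1 = true :=
  ⟨(l 4), by decide +kernel⟩

theorem c_mm_133 : CertB 536870912 536870912 1610612736 536870912 991146299 28908434 3 eng mog cd1q1 cd2q3 pd3 true false false .dn 1 3 3
    ndB1q1 ndB2q3 pcB3 Cut.none Ext.none :=
  certB0 (fam := true) (s1 := false) (s2 := false) (a := 1) (b := 3) (c := 3) (cn := .dn) (n1 := ndB1q1) (n2 := ndB2q3) (pc := pcB3) (cut := Cut.none) (xt := Ext.none) (P1 := 536870912) (W1 := 536870912) (P2 := 1610612736) (W2 := 536870912) (P3 := 991146299) (W3 := 28908434) (N0 := 3) (En := eng) (mo := mog) (C1 := cd1q1) (C2 := cd2q3) (C3 := pd3)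
    rfl k0_mm_133

noncomputable def cut_mm_202_a : Cut := Cut.of [[⟨0, 1, 0, 53687091⟩, ⟨1, 0, 0, 53687091⟩, ⟨2, 1, 0, 53687091⟩]]

noncomputable def f_mm_202_a : ℕ → ℕ → ℕ → ℕ → Bool := onCell 0 536870912 0 536870912 991146299 28908434
    (rowB 3 eng mog cd1q2a cd2q0 pd2 0 true false false .pp 2 0 2 (qsf 0 536870912 0 536870912 2) ndB1q2a ndB2q0 pcB2 cut_mm_202_a Ext.none)

def k0_mm_202_a : ∃ t, chk3 f_mm_202_a t 4 2 1 = true :=
  ⟨(b (b (b (b (b (a (a (l 16222208) (l 16226592)) (c (l 16234416) (l 16224856))) (a (l 16290584) (c (l 16288544) (l 16288584)))) (a (c (l 16371792) (l 16395328)) (c (l 16298608) (l 16293920)))) (a (b (l 16339352) (l 16314384)) (b (c (l 16445008) (l 16488952)) (c (l 16495584) (l 16434280))))) (b (c (a (l 16384000) (l 16401576)) (a (b (l 16303824) (l 16269256)) (b (l 16395584) (l 16377368)))) (c (a (l 16349184) (l 16370504)) (a (l 16086120) (b (l 16378312) (l 16396984)))))) (b (b (a (c (l 16305360) (b (l 16279144) (l 16315944)))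 (b (c (l 16517936) (l 16432016)) (c (l 16554720) (l 16369624)))) (a (c (b (l 16470672) (l 16517368)) (b (l 16367400) (l 16298552))) (b (c (l 16585240) (a (l 16491936) (l 16532880))) (a (l 16347576) (l 4))))) (b (a (b (a (l 8823722567) (l 16291504)) (c (l 16577912) (l 16410472))) (l 4)) (l 4)))), by decide +kernel⟩

def k1_mm_202_a : ∃ t, chk3 f_mm_202_a t 5 2 1 = true :=
  ⟨(b (a (c (b (b (b (a (l 16245944) (b (l 16248496) (l 16296584))) (a (l 16358272) (l 16360592))) (b (l 16390688) (l 16489240))) (b (b (l 16530064) (l 16546456)) (b (l 16561360) (l 16573080)))) (b (b (b (a (l 16236824) (b (l 16231560) (l 16287552))) (b (l 16337792) (l 16391840))) (b (l 16380496) (l 16512840))) (b (b (l 16486752) (l 16480728)) (b (l 16493144) (l 16351040))))) (b (b (b (a (c (b (l 16259848) (l 16306424)) (b (l 16239528) (l 16293584))) (c (b (a (l 16271808) (l 16281640)) (l 16322080)) (b (a (l 16249208) (l 16257632)) (l 16305888)))) (c (a (l 16326168) (b (l 16362712) (l 16400216)))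 (a (l 16326408) (b (l 16353088) (l 16402392))))) (c (b (a (l 16415696) (l 16427392)) (a (l 16488000) (l 16497200))) (b (a (l 16460392) (l 16467688)) (l 16385056)))) (b (b (c (l 16526360) (l 16545072)) (c (l 16399824) (a (l 16548472) (l 16586200)))) (b (a (c (l 16554504) (l 16564960)) (c (l 16560624) (l 16598128))) (a (c (l 16564280) (l 16580632)) (l 4)))))) (b (b (a (c (b (l 16472728) (l 16589872)) (b (a (l 16528360) (l 16564096)) (l 44257438087))) (l 4)) (l 4)) (l 4))), by decide +kernel⟩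

def k2_mm_202_a : ∃ t, chk3 f_mm_202_a t 6 16 1 = true :=
  ⟨(a (c (b (a (b (a (l 16293288) (l 16285984)) (a (l 16338368) (l 16351680))) (b (a (c (l 16329336) (l 16316192)) (c (l 16347832) (l 16334504))) (a (l 16367304) (l 16385440)))) (a (b (l 16384848) (l 16421672)) (b (a (l 16407016) (l 16425024)) (l 16452448)))) (b (a (b (a (l 16268072) (l 16280752)) (l 16242080)) (b (a (l 16232960) (c (l 16320840) (l 16306856))) (a (l 16347376) (l 16365120)))) (a (b (l 16372496) (l 16420952)) (b (a (l 16393448) (l 16411072)) (l 16450184))))) (b (a (c (b (a (c (l 16368936) (l 16355584)) (c (b (l 16381328) (l 16403904)) (l 16337680))) (a (l 16364520) (c (l 16435368) (l 16425656)))) (b (a (c (l 16341904) (l 16327896)) (c (l 16345144) (l 16352288))) (a (l 16386152) (l 16347752)))) (c (b (a (c (b (l 16408016) (l 16430760)) (b (l 16394232) (l 16418928))) (c (b (l 16437504) (l 16460680)) (b (l 16424296) (l 16449480)))) (a (c (l 16462440) (l 16453176)) (b (l 16435776) (l 16498880))))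 (b (b (a (c (l 16380088) (l 16365592)) (c (l 16410744) (l 16396856))) (a (l 16379656) (c (l 16438008) (l 16426248)))) (a (c (l 16443696) (l 16434000)) (c (l 16475408) (l 16466440)))))) (a (c (b (a (l 16445912) (l 16469800)) (a (l 16482272) (l 16506136))) (b (a (l 16431992) (l 16456368)) (a (l 16479960) (l 16504360)))) (c (b (a (l 16455296) (c (l 16530912) (l 16525592))) (a (l 16533400) (l 16543600))) (b (a (l 16442880) (b (l 16505624) (l 16528768))) (a (l 16532704) (l 16544592))))))), by decide +kernel⟩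

def k3_mm_202_a : ∃ t, chk3 f_mm_202_a t 6 17 1 = true :=
  ⟨(a (b (c (a (l 16405760) (b (l 16484568) (l 16512048))) (a (b (l 16464984) (l 16503080)) (b (l 16493856) (l 16510512)))) (a (c (l 16515784) (l 16549752)) (c (l 16545072) (l 16577232)))) (b (a (c (b (l 16484040) (l 16511728)) (b (l 16472528) (l 16573344))) (c (b (a (l 16565432) (l 16575456)) (a (l 16592376) (l 16616360))) (b (a (l 16555464) (l 16609200)) (a (l 16613576) (l 16638304))))) (a (c (b (l 16575328) (l 16587448)) (b (l 16603680) (l 16622760))) (a (c (l 16607144) (l 16555016)) (l 4))))), by decide +kernel⟩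

def k4_mm_202_a : ∃ t, chk3 f_mm_202_a t 6 9 1 = true :=
  ⟨(b (a (b (a (c (l 16546480) (l 16593288)) (c (l 16569632) (l 16530720))) (a (c (l 16562384) (l 16616520)) (l 4))) (l 4)) (l 4)), by decide +kernel⟩

def k5_mm_202_a : ∃ t, chk3 f_mm_202_a t 28 16 1 = true :=
  ⟨(b (c (b (b (a (c (a (l 16461424) (l 16478192)) (a (l 16448800) (l 16466024))) (c (a (l 16495608) (l 16513680)) (a (l 16483960) (l 16502600)))) (a (c (l 16493512) (l 16483176)) (a (l 16515272) (l 16492128)))) (a (c (l 16484448) (l 16476832)) (c (b (l 16552224) (l 16573624)) (b (l 16544944) (l 16568072))))) (a (b (a (c (l 16408000) (l 16416808)) (c (l 16405000) (l 16414312))) (c (l 16490016) (l 16482048))) (b (b (c (a (l 16472000) (l 16491240)) (a (l 16459752) (l 16479584))) (c (l 16510520) (l 16500840))) (c (b (l 16537488) (l 16562400)) (l 16480504))))) (c (b (a (c (l 16565152) (l 16560880)) (c (l 16582096) (l 16579176))) (a (l 16557784) (b (l 16609080) (l 16645696)))) (b (a (b (l 16542352)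 (l 16565848)) (c (l 16555248) (l 16552240))) (a (b (l 16591040) (l 16593624)) (b (l 16633096) (l 16654816)))))), by decide +kernel⟩

def k6_mm_202_a : ∃ t, chk3 f_mm_202_a t 29 16 1 = true :=
  ⟨(a (b (c (b (c (b (a (l 16532416) (l 16530824)) (a (l 16557664) (l 16577520))) (b (a (l 16521968) (l 16542048)) (a (l 16549440) (l 16570040)))) (c (c (l 16562080) (l 16559656)) (b (l 16564632) (l 16609744)))) (b (c (b (a (l 16511248) (l 16532040)) (a (l 16541008) (l 16562368))) (b (a (l 16500264) (l 16521784)) (l 16501416))) (c (a (l 16581856) (l 16583072)) (a (l 16576312) (l 16578384))))) (b (c (b (l 16591392) (l 16639248)) (b (l 16586496) (l 16611448))) (c (b (l 16637408) (l 16674272)) (b (l 16611776) (l 16684296))))) (a (b (b (a (b (b (l 6) (c (l 16569160) (l 16551536))) (c (l 16589424) (l 16575320))) (b (l 6) (c (l 16579096) (l 16586824)))) (c (c (l 16592432) (l 16588824)) (c (l 16585144) (l 16581384)))) (b (c (b (l 16645680) (l 16685136)) (b (l 16643664) (l 16687376)))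 (c (l 16689528) (l 16697384)))) (b (b (a (b (l 6) (c (l 16589920) (l 16577576))) (l 6)) (b (c (l 16600632) (l 16593176)) (c (l 16646096) (l 16642632)))) (b (c (b (l 16689432) (l 16700312)) (b (l 16689440) (l 16703080))) (l 4))))), by decide +kernel⟩

def k7_mm_202_a : ∃ t, chk3 f_mm_202_a t 14 17 1 = true :=
  ⟨(a (b (a (b (c (l 16606408) (l 16599896)) (c (l 16635216) (l 16656960))) (b (c (l 34057421687) (l 72175220375)) (l 4))) (l 4)) (l 4)), by decide +kernel⟩

def k8_mm_202_a : ∃ t, chk3 f_mm_202_a t 15 8 1 = true :=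
  ⟨(b (a (b (b (l 6) (a (a (b (a (b (l 6) (l 16621720)) (l 6)) (c (l 16648608) (l 16671552))) (l 6)) (l 6))) (b (b (a (c (a (l 16687088) (l 16720960)) (a (l 16667312) (l 16722176))) (l 4)) (l 4)) (l 4))) (b (l 6) (l 4))) (l 4)), by decide +kernel⟩

def k9_mm_202_a : ∃ t, chk3 f_mm_202_a t 7 9 1 = true :=
  ⟨(l 4), by decide +kernel⟩

def k10_mm_202_a : ∃ t, chk3 f_mm_202_a t 3 5 1 = true :=
  ⟨(l 4), by decide +kernel⟩

def k11_mm_202_a : ∃ t, chk3 f_mm_202_a t 1 3 1 = true :=
  ⟨(l 4), by decide +kernel⟩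

theorem s12_mm_202_a : ∃ t, chk3 f_mm_202_a t 14 16 1 = true := ex3_a k5_mm_202_a k6_mm_202_a

theorem s13_mm_202_a : ∃ t, chk3 f_mm_202_a t 14 8 1 = true := ex3_b s12_mm_202_a k7_mm_202_a

theorem s14_mm_202_a : ∃ t, chk3 f_mm_202_a t 7 8 1 = true := ex3_a s13_mm_202_a k8_mm_202_a

theorem s15_mm_202_a : ∃ t, chk3 f_mm_202_a t 7 4 1 = true := ex3_b s14_mm_202_a k9_mm_202_a

theorem s16_mm_202_a : ∃ t, chk3 f_mm_202_a t 6 8 1 = true := ex3_b k2_mm_202_a k3_mm_202_a

theorem s17_mm_202_a : ∃ t, chk3 f_mm_202_a t 6 4 1 = true := ex3_b s16_mm_202_a k4_mm_202_a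

theorem s18_mm_202_a : ∃ t, chk3 f_mm_202_a t 3 4 1 = true := ex3_a s17_mm_202_a s15_mm_202_a

theorem s19_mm_202_a : ∃ t, chk3 f_mm_202_a t 3 2 1 = true := ex3_b s18_mm_202_a k10_mm_202_a

theorem s20_mm_202_a : ∃ t, chk3 f_mm_202_a t 2 2 1 = true := ex3_a k0_mm_202_a k1_mm_202_a

theorem s21_mm_202_a : ∃ t, chk3 f_mm_202_a t 1 2 1 = true := ex3_a s20_mm_202_a s19_mm_202_a

theorem s22_mm_202_a : ∃ t, chk3 f_mm_202_a t 1 1 1 = true := ex3_b s21_mm_202_a k11_mm_202_a

theorem c_mm_202_a : CertB 0 536870912 0 536870912 991146299 28908434 3 eng mog cd1q2a cd2q0 pd2 true false false .pp 2 0 2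
    ndB1q2a ndB2q0 pcB2 cut_mm_202_a Ext.none :=
  certB0 (fam := true) (s1 := false) (s2 := false) (a := 2) (b := 0) (c := 2) (cn := .pp) (n1 := ndB1q2a) (n2 := ndB2q0) (pc := pcB2) (cut := cut_mm_202_a) (xt := Ext.none) (P1 := 0) (W1 := 536870912) (P2 := 0) (W2 := 536870912) (P3 := 991146299) (W3 := 28908434) (N0 := 3) (En := eng) (mo := mog) (C1 := cd1q2a) (C2 := cd2q0) (C3 := pd2)
    rfl s22_mm_202_a

noncomputable def cut_mm_202_b : Cut := Cut.of [[⟨0, 1, 0, 53687091⟩, ⟨1, 0, 0, 53687091⟩, ⟨2, 1, 0, 53687091⟩]]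

noncomputable def f_mm_202_b : ℕ → ℕ → ℕ → ℕ → Bool := onCell 1073741824 536870912 0 536870912 991146299 28908434
    (rowB 3 eng mog cd1q2b cd2q0 pd2 2 true false false .pp 2 0 2 (qsf 1239849684 370763052 0 536870912 2) ndB1q2b ndB2q0 pcB2 cut_mm_202_b Ext.none)

def k0_mm_202_b : ∃ t, chk3 f_mm_202_b t 2 1 1 = true :=
  ⟨(a (l 1) (b (b (b (a (b (a (b (c (l 184715636711) (l 183641753783)) (l 1)) (b (a (l 16219816) (l 16236968)) (a (l 16319800) (l 16352272)))) (a (l 1) (c (l 343629952983) (l 351682978039)))) (c (a (b (l 16180360) (l 16430648)) (b (l 16239872) (l 16297776))) (a (b (a (l 16366984) (l 16277640)) (l 16337312)) (b (l 15966976) (l 16151760))))) (a (l 1) (b (a (c (l 16365592) (l 277058091143)) (c (l 16340704) (l 16187808))) (a (l 1) (c (l 385505697431) (l 367788724199)))))) (l 1)) (l 1))), by decide +kernel⟩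

def k1_mm_202_b : ∃ t, chk3 f_mm_202_b t 3 1 1 = true :=
  ⟨(a (b (b (c (a (b (a (b (l 16117032) (l 16156696)) (b (l 15964480) (l 16110016))) (a (c (l 16215568) (l 16133624)) (b (l 16217744) (l 16288760)))) (b (a (b (l 15905480) (l 16092112)) (b (l 15937016) (l 16078760))) (a (l 16243744) (l 16256464)))) (a (b (a (b (l 15880072) (l 16073960)) (b (l 15858472) (l 15996544))) (a (b (l 16139040) (l 16184752)) (b (l 16088912) (l 16160784)))) (b (a (b (l 15815448) (l 15958480)) (b (l 15789592) (l 15956216))) (a (b (l 16076248) (l 16172608)) (l 16031304))))) (a (b (a (c (l 458520062407) (b (l 445098093815) (l 1))) (c (b (l 16281232) (l 472478771559)) (b (l 16128600) (l 473015383831)))) (l 1)) (b (a (c (b (l 16362232) (l 16315304)) (b (l 16248128) (l 353293225623))) (c (l 16208064) (b (l 16313984) (l 16390768)))) (b (a (c (l 382821443463) (l 394632332471)) (a (l 352219750007) (l 295311513911))) (a (l 1) (a (l 1) (l 471942051159))))))) (l 1)) (b (b (a (b (a (b (c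 (l 15929672) (l 15797816)) (l 15848984)) (b (c (l 15941864) (l 15835064)) (l 15873488))) (a (c (l 16228496) (l 16175096)) (c (l 16070088) (l 15977240)))) (b (a (c (l 15803840) (l 15655888)) (b (c (l 15619512) (l 15651912)) (c (l 15652168) (l 15664200)))) (a (c (b (l 15870272) (l 15950528)) (b (l 15912160) (l 16021736))) (a (b (l 15776296) (l 4)) (l 4))))) (a (b (a (c (b (l 16344384) (l 16446824)) (b (l 16403592) (l 16477040))) (b (c (l 16205232) (l 16285776)) (l 4))) (a (b (a (l 16425600) (l 4)) (l 4)) (l 4))) (l 4))) (l 4))), by decide +kernel⟩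

theorem s2_mm_202_b : ∃ t, chk3 f_mm_202_b t 1 1 1 = true := ex3_a k0_mm_202_b k1_mm_202_b

theorem c_mm_202_b : CertB 1239849684 370763052 0 536870912 991146299 28908434 3 eng mog cd1q2b cd2q0 pd2 true false false .pp 2 0 2
    ndB1q2b ndB2q0 pcB2 cut_mm_202_b Ext.none :=
  certB2 (fam := true) (s1 := false) (s2 := false) (a := 2) (b := 0) (c := 2) (cn := .pp) (n1 := ndB1q2b) (n2 := ndB2q0) (pc := pcB2) (cut := cut_mm_202_b) (xt := Ext.none) (P1 := 1239849684) (W1 := 370763052) (P2 := 0) (W2 := 536870912) (P3 := 991146299) (W3 := 28908434) (N0 := 3) (En := eng) (mo := mog) (C1 := cd1q2b) (C2 := cd2q0) (C3 := pd2)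
    rfl (fun _ => rfl) s2_mm_202_b

noncomputable def f_mm_203_a : ℕ → ℕ → ℕ → ℕ → Bool := onCell 0 536870912 1610612736 536870912 991146299 28908434
    (rowB 3 eng mog cd1q2a cd2q0 pd3 1 true false false .up 2 0 3 (qsf 0 536870912 0 536870912 3) ndB1q2a ndB2q0 pcB3 Cut.none Ext.none)

def k0_mm_203_a : ∃ t, chk3 f_mm_203_a t 1 1 1 = true :=
  ⟨(l 4), by decide +kernel⟩

theorem c_mm_203_a : CertB 0 536870912 0 536870912 991146299 28908434 3 eng mog cd1q2a cd2q0 pd3 true false false .up 2 0 3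
    ndB1q2a ndB2q0 pcB3 Cut.none Ext.none :=
  certB1 (fam := true) (s1 := false) (s2 := false) (a := 2) (b := 0) (c := 3) (cn := .up) (n1 := ndB1q2a) (n2 := ndB2q0) (pc := pcB3) (cut := Cut.none) (xt := Ext.none) (P1 := 0) (W1 := 536870912) (P2 := 0) (W2 := 536870912) (P3 := 991146299) (W3 := 28908434) (N0 := 3) (En := eng) (mo := mog) (C1 := cd1q2a) (C2 := cd2q0) (C3 := pd3)
    rfl (fun _ => rfl) k0_mm_203_a

noncomputable def f_mm_203_b : ℕ → ℕ → ℕ → ℕ → Bool := onCell 1239849684 370763052 1610612736 536870912 991146299 28908434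
    (rowB 3 eng mog cd1q2b cd2q0 pd3 1 true false false .up 2 0 3 (qsf 1239849684 370763052 0 536870912 3) ndB1q2b ndB2q0 pcB3 Cut.none Ext.none)

def k0_mm_203_b : ∃ t, chk3 f_mm_203_b t 1 1 1 = true :=
  ⟨(b (b (a (l 4) (b (a (l 4) (b (a (l 15691088) (b (l 15475048) (l 15496136))) (l 4))) (l 4))) (l 4)) (l 4)), by decide +kernel⟩

theorem c_mm_203_b : CertB 1239849684 370763052 0 536870912 991146299 28908434 3 eng mog cd1q2b cd2q0 pd3 true false false .up 2 0 3
    ndB1q2b ndB2q0 pcB3 Cut.none Ext.none :=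
  certB1 (fam := true) (s1 := false) (s2 := false) (a := 2) (b := 0) (c := 3) (cn := .up) (n1 := ndB1q2b) (n2 := ndB2q0) (pc := pcB3) (cut := Cut.none) (xt := Ext.none) (P1 := 1239849684) (W1 := 370763052) (P2 := 0) (W2 := 536870912) (P3 := 991146299) (W3 := 28908434) (N0 := 3) (En := eng) (mo := mog) (C1 := cd1q2b) (C2 := cd2q0) (C3 := pd3)
    rfl (fun _ => rfl) k0_mm_203_b

noncomputable def f_mm_213_a : ℕ → ℕ → ℕ → ℕ → Bool := onCell 0 536870912 536870912 536870912 991146299 28908434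
    (rowB 3 eng mog cd1q2a cd2q1 pd3 0 true false false .pnn 2 1 3 (qsf 0 536870912 536870912 536870912 3) ndB1q2a ndB2q1 pcB3 Cut.none Ext.none)

def k0_mm_213_a : ∃ t, chk3 f_mm_213_a t 1 1 1 = true :=
  ⟨(l 4), by decide +kernel⟩

theorem c_mm_213_a : CertB 0 536870912 536870912 536870912 991146299 28908434 3 eng mog cd1q2a cd2q1 pd3 true false false .pnn 2 1 3
    ndB1q2a ndB2q1 pcB3 Cut.none Ext.none :=
  certB0 (fam := true) (s1 := false) (s2 := false) (a := 2) (b := 1) (c := 3) (cn := .pnn) (n1 := ndB1q2a) (n2 := ndB2q1) (pc := pcB3) (cut := Cut.none) (xt := Ext.none) (P1 := 0) (W1 := 536870912) (P2 := 536870912) (W2 := 536870912) (P3 := 991146299) (W3 := 28908434) (N0 := 3) (En := eng) (mo := mog) (C1 := cd1q2a) (C2 := cd2q1) (C3 := pd3)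
    rfl k0_mm_213_a

noncomputable def f_mm_213_b : ℕ → ℕ → ℕ → ℕ → Bool := onCell 1239849684 370763052 536870912 536870912 991146299 28908434
    (rowB 3 eng mog cd1q2b cd2q1 pd3 0 true false false .pnn 2 1 3 (qsf 1239849684 370763052 536870912 536870912 3) ndB1q2b ndB2q1 pcB3 Cut.none Ext.none)

def k0_mm_213_b : ∃ t, chk3 f_mm_213_b t 1 1 1 = true :=
  ⟨(l 4), by decide +kernel⟩

theorem c_mm_213_b : CertB 1239849684 370763052 536870912 536870912 991146299 28908434 3 eng mog cd1q2b cd2q1 pd3 true false false .pnn 2 1 3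
    ndB1q2b ndB2q1 pcB3 Cut.none Ext.none :=
  certB0 (fam := true) (s1 := false) (s2 := false) (a := 2) (b := 1) (c := 3) (cn := .pnn) (n1 := ndB1q2b) (n2 := ndB2q1) (pc := pcB3) (cut := Cut.none) (xt := Ext.none) (P1 := 1239849684) (W1 := 370763052) (P2 := 536870912) (W2 := 536870912) (P3 := 991146299) (W3 := 28908434) (N0 := 3) (En := eng) (mo := mog) (C1 := cd1q2b) (C2 := cd2q1) (C3 := pd3)
    rfl k0_mm_213_b

noncomputable def f_mm_303 : ℕ → ℕ → ℕ → ℕ → Bool := onCell 1610612736 536870912 0 536870912 991146299 28908434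
    (rowB 3 eng mog cd1q3 cd2q0 pd3 2 true false false .npn 3 0 3 (qsf 1610612736 536870912 0 536870912 3) ndB1q3 ndB2q0 pcB3 Cut.none Ext.none)

def k0_mm_303 : ∃ t, chk3 f_mm_303 t 1 1 1 = true :=
  ⟨(a (b (a (b (a (b (a (b (l 15302712) (l 15439544)) (b (l 15219696) (l 4))) (l 4)) (l 4)) (l 4)) (l 4)) (l 4)) (l 4)), by decide +kernel⟩

theorem c_mm_303 : CertB 1610612736 536870912 0 536870912 991146299 28908434 3 eng mog cd1q3 cd2q0 pd3 true false false .npn 3 0 3
    ndB1q3 ndB2q0 pcB3 Cut.none Ext.none :=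
  certB2 (fam := true) (s1 := false) (s2 := false) (a := 3) (b := 0) (c := 3) (cn := .npn) (n1 := ndB1q3) (n2 := ndB2q0) (pc := pcB3) (cut := Cut.none) (xt := Ext.none) (P1 := 1610612736) (W1 := 536870912) (P2 := 0) (W2 := 536870912) (P3 := 991146299) (W3 := 28908434) (N0 := 3) (En := eng) (mo := mog) (C1 := cd1q3) (C2 := cd2q0) (C3 := pd3)
    rfl (fun _ => rfl) k0_mm_303

noncomputable def f_mm_313 : ℕ → ℕ → ℕ → ℕ → Bool := onCell 1610612736 536870912 536870912 536870912 991146299 28908434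
    (rowB 3 eng mog cd1q3 cd2q1 pd3 0 true false false .dn 3 1 3 (qsf 1610612736 536870912 536870912 536870912 3) ndB1q3 ndB2q1 pcB3 Cut.none Ext.none)

def k0_mm_313 : ∃ t, chk3 f_mm_313 t 1 1 1 = true :=
  ⟨(l 4), by decide +kernel⟩

theorem c_mm_313 : CertB 1610612736 536870912 536870912 536870912 991146299 28908434 3 eng mog cd1q3 cd2q1 pd3 true false false .dn 3 1 3
    ndB1q3 ndB2q1 pcB3 Cut.none Ext.none :=
  certB0 (fam := true) (s1 := false) (s2 := false) (a := 3) (b := 1) (c := 3) (cn := .dn) (n1 := ndB1q3) (n2 := ndB2q1) (pc := pcB3) (cut := Cut.none) (xt := Ext.none) (P1 := 1610612736) (W1 := 536870912) (P2 := 536870912) (W2 := 536870912) (P3 := 991146299) (W3 := 28908434) (N0 := 3) (En := eng) (mo := mog) (C1 := cd1q3) (C2 := cd2q1) (C3 := pd3)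
    rfl k0_mm_313

end Pool.Agent.Strip051.G.I9231_9500.Tab.C.BA12

namespace Pool.Agent.Strip051.G.I9231_9500.Tab.C.BA13

open Pool.Agent.Strip051.PB Pool.Agent.Strip051.PB.T
open Pool.Agent.Strip051.G.I9231_9500.Tab

noncomputable def f_pp_001 : ℕ → ℕ → ℕ → ℕ → Bool := onCell 0 536870912 0 536870912 991146299 28908434
    (rowB 3 eng mog cd1q0 cd3q0 pd1 0 true true true .up 0 0 1 (qsf 0 536870912 0 536870912 1) ndB1q0 ndB3q0 pcB1 Cut.none Ext.none)

def k0_pp_001 : ∃ t, chk3 f_pp_001 t 1 1 1 = true :=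
  ⟨(l 4), by decide +kernel⟩

theorem c_pp_001 : CertB 0 536870912 0 536870912 991146299 28908434 3 eng mog cd1q0 cd3q0 pd1 true true true .up 0 0 1
    ndB1q0 ndB3q0 pcB1 Cut.none Ext.none :=
  certB0 (fam := true) (s1 := true) (s2 := true) (a := 0) (b := 0) (c := 1) (cn := .up) (n1 := ndB1q0) (n2 := ndB3q0) (pc := pcB1) (cut := Cut.none) (xt := Ext.none) (P1 := 0) (W1 := 536870912) (P2 := 0) (W2 := 536870912) (P3 := 991146299) (W3 := 28908434) (N0 := 3) (En := eng) (mo := mog) (C1 := cd1q0) (C2 := cd3q0) (C3 := pd1)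
    rfl k0_pp_001

noncomputable def f_pp_011 : ℕ → ℕ → ℕ → ℕ → Bool := onCell 0 536870912 536870912 536870912 991146299 28908434
    (rowB 3 eng mog cd1q0 cd3q1 pd1 0 true true true .pnn 0 1 1 (qsf 0 536870912 536870912 536870912 1) ndB1q0 ndB3q1 pcB1 Cut.none Ext.none)

def k0_pp_011 : ∃ t, chk3 f_pp_011 t 1 1 1 = true :=
  ⟨(l 4), by decide +kernel⟩

theorem c_pp_011 : CertB 0 536870912 536870912 536870912 991146299 28908434 3 eng mog cd1q0 cd3q1 pd1 true true true .pnn 0 1 1
    ndB1q0 ndB3q1 pcB1 Cut.none Ext.none :=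
  certB0 (fam := true) (s1 := true) (s2 := true) (a := 0) (b := 1) (c := 1) (cn := .pnn) (n1 := ndB1q0) (n2 := ndB3q1) (pc := pcB1) (cut := Cut.none) (xt := Ext.none) (P1 := 0) (W1 := 536870912) (P2 := 536870912) (W2 := 536870912) (P3 := 991146299) (W3 := 28908434) (N0 := 3) (En := eng) (mo := mog) (C1 := cd1q0) (C2 := cd3q1) (C3 := pd1)
    rfl k0_pp_011

noncomputable def f_pp_012 : ℕ → ℕ → ℕ → ℕ → Bool := onCell 0 536870912 536870912 536870912 991146299 28908434
    (rowB 3 eng mog cd1q0 cd3q1 pd2 0 true true true .pnp 0 1 2 (qsf 0 536870912 536870912 536870912 2) ndB1q0 ndB3q1 pcB2 Cut.none Ext.none)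

def k0_pp_012 : ∃ t, chk3 f_pp_012 t 1 1 1 = true :=
  ⟨(l 4), by decide +kernel⟩

theorem c_pp_012 : CertB 0 536870912 536870912 536870912 991146299 28908434 3 eng mog cd1q0 cd3q1 pd2 true true true .pnp 0 1 2
    ndB1q0 ndB3q1 pcB2 Cut.none Ext.none :=
  certB0 (fam := true) (s1 := true) (s2 := true) (a := 0) (b := 1) (c := 2) (cn := .pnp) (n1 := ndB1q0) (n2 := ndB3q1) (pc := pcB2) (cut := Cut.none) (xt := Ext.none) (P1 := 0) (W1 := 536870912) (P2 := 536870912) (W2 := 536870912) (P3 := 991146299) (W3 := 28908434) (N0 := 3) (En := eng) (mo := mog) (C1 := cd1q0) (C2 := cd3q1) (C3 := pd2)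
    rfl k0_pp_012

noncomputable def f_pp_022 : ℕ → ℕ → ℕ → ℕ → Bool := onCell 0 536870912 1073741824 536870912 991146299 28908434
    (rowB 3 eng mog cd1q0 cd3q2 pd2 0 true true true .pp 0 2 2 (qsf 0 536870912 1073741824 536870912 2) ndB1q0 ndB3q2 pcB2 Cut.none Ext.none)

def k0_pp_022 : ∃ t, chk3 f_pp_022 t 1 1 1 = true :=
  ⟨(l 4), by decide +kernel⟩

theorem c_pp_022 : CertB 0 536870912 1073741824 536870912 991146299 28908434 3 eng mog cd1q0 cd3q2 pd2 true true true .pp 0 2 2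
    ndB1q0 ndB3q2 pcB2 Cut.none Ext.none :=
  certB0 (fam := true) (s1 := true) (s2 := true) (a := 0) (b := 2) (c := 2) (cn := .pp) (n1 := ndB1q0) (n2 := ndB3q2) (pc := pcB2) (cut := Cut.none) (xt := Ext.none) (P1 := 0) (W1 := 536870912) (P2 := 1073741824) (W2 := 536870912) (P3 := 991146299) (W3 := 28908434) (N0 := 3) (En := eng) (mo := mog) (C1 := cd1q0) (C2 := cd3q2) (C3 := pd2)
    rfl k0_pp_022

noncomputable def f_pp_023 : ℕ → ℕ → ℕ → ℕ → Bool := onCell 0 536870912 1073741824 536870912 991146299 28908434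
    (rowB 3 eng mog cd1q0 cd3q2 pd3 0 true true true .up 0 2 3 (qsf 0 536870912 1073741824 536870912 3) ndB1q0 ndB3q2 pcB3 Cut.none Ext.none)

def k0_pp_023 : ∃ t, chk3 f_pp_023 t 1 1 1 = true :=
  ⟨(l 4), by decide +kernel⟩

theorem c_pp_023 : CertB 0 536870912 1073741824 536870912 991146299 28908434 3 eng mog cd1q0 cd3q2 pd3 true true true .up 0 2 3
    ndB1q0 ndB3q2 pcB3 Cut.none Ext.none :=
  certB0 (fam := true) (s1 := true) (s2 := true) (a := 0) (b := 2) (c := 3) (cn := .up) (n1 := ndB1q0) (n2 := ndB3q2) (pc := pcB3) (cut := Cut.none) (xt := Ext.none) (P1 := 0) (W1 := 536870912) (P2 := 1073741824) (W2 := 536870912) (P3 := 991146299) (W3 := 28908434) (N0 := 3) (En := eng) (mo := mog) (C1 := cd1q0) (C2 := cd3q2) (C3 := pd3)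
    rfl k0_pp_023

noncomputable def f_pp_033 : ℕ → ℕ → ℕ → ℕ → Bool := onCell 0 536870912 0 1230186008 991146299 28908434
    (rowB 3 eng mog cd1q0 cd3q3 pd3 0 true true true .pnn 0 3 3 (qsf 0 536870912 0 1230186008 3) ndB1q0 ndB3q3 pcB3 Cut.none Ext.none)

def k0_pp_033 : ∃ t, chk3 f_pp_033 t 1 1 1 = true :=
  ⟨(b (l 4) (l 4)), by decide +kernel⟩

theorem c_pp_033 : CertB 0 536870912 0 1230186008 991146299 28908434 3 eng mog cd1q0 cd3q3 pd3 true true true .pnn 0 3 3
    ndB1q0 ndB3q3 pcB3 Cut.none Ext.none :=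
  certB0 (fam := true) (s1 := true) (s2 := true) (a := 0) (b := 3) (c := 3) (cn := .pnn) (n1 := ndB1q0) (n2 := ndB3q3) (pc := pcB3) (cut := Cut.none) (xt := Ext.none) (P1 := 0) (W1 := 536870912) (P2 := 0) (W2 := 1230186008) (P3 := 991146299) (W3 := 28908434) (N0 := 3) (En := eng) (mo := mog) (C1 := cd1q0) (C2 := cd3q3) (C3 := pd3)
    rfl k0_pp_033

noncomputable def f_pp_101 : ℕ → ℕ → ℕ → ℕ → Bool := onCell 536870912 536870912 0 536870912 991146299 28908434
    (rowB 3 eng mog cd1q1 cd3q0 pd1 0 true true true .npn 1 0 1 (qsf 536870912 536870912 0 536870912 1) ndB1q1 ndB3q0 pcB1 Cut.none Ext.none)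

def k0_pp_101 : ∃ t, chk3 f_pp_101 t 1 1 1 = true :=
  ⟨(l 4), by decide +kernel⟩

theorem c_pp_101 : CertB 536870912 536870912 0 536870912 991146299 28908434 3 eng mog cd1q1 cd3q0 pd1 true true true .npn 1 0 1
    ndB1q1 ndB3q0 pcB1 Cut.none Ext.none :=
  certB0 (fam := true) (s1 := true) (s2 := true) (a := 1) (b := 0) (c := 1) (cn := .npn) (n1 := ndB1q1) (n2 := ndB3q0) (pc := pcB1) (cut := Cut.none) (xt := Ext.none) (P1 := 536870912) (W1 := 536870912) (P2 := 0) (W2 := 536870912) (P3 := 991146299) (W3 := 28908434) (N0 := 3) (En := eng) (mo := mog) (C1 := cd1q1) (C2 := cd3q0) (C3 := pd1)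
    rfl k0_pp_101

noncomputable def f_pp_102 : ℕ → ℕ → ℕ → ℕ → Bool := onCell 536870912 536870912 0 536870912 991146299 28908434
    (rowB 3 eng mog cd1q1 cd3q0 pd2 0 true true true .npp 1 0 2 (qsf 536870912 536870912 0 536870912 2) ndB1q1 ndB3q0 pcB2 Cut.none Ext.none)

def k0_pp_102 : ∃ t, chk3 f_pp_102 t 1 1 1 = true :=
  ⟨(l 4), by decide +kernel⟩

theorem c_pp_102 : CertB 536870912 536870912 0 536870912 991146299 28908434 3 eng mog cd1q1 cd3q0 pd2 true true true .npp 1 0 2
    ndB1q1 ndB3q0 pcB2 Cut.none Ext.none :=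
  certB0 (fam := true) (s1 := true) (s2 := true) (a := 1) (b := 0) (c := 2) (cn := .npp) (n1 := ndB1q1) (n2 := ndB3q0) (pc := pcB2) (cut := Cut.none) (xt := Ext.none) (P1 := 536870912) (W1 := 536870912) (P2 := 0) (W2 := 536870912) (P3 := 991146299) (W3 := 28908434) (N0 := 3) (En := eng) (mo := mog) (C1 := cd1q1) (C2 := cd3q0) (C3 := pd2)
    rfl k0_pp_102

noncomputable def f_pp_112 : ℕ → ℕ → ℕ → ℕ → Bool := onCell 536870912 536870912 536870912 536870912 991146299 28908434
    (rowB 3 eng mog cd1q1 cd3q1 pd2 0 true true true .dn 1 1 2 (qsf 536870912 536870912 536870912 536870912 2) ndB1q1 ndB3q1 pcB2 Cut.none Ext.none)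

def k0_pp_112 : ∃ t, chk3 f_pp_112 t 1 1 1 = true :=
  ⟨(l 4), by decide +kernel⟩

theorem c_pp_112 : CertB 536870912 536870912 536870912 536870912 991146299 28908434 3 eng mog cd1q1 cd3q1 pd2 true true true .dn 1 1 2
    ndB1q1 ndB3q1 pcB2 Cut.none Ext.none :=
  certB0 (fam := true) (s1 := true) (s2 := true) (a := 1) (b := 1) (c := 2) (cn := .dn) (n1 := ndB1q1) (n2 := ndB3q1) (pc := pcB2) (cut := Cut.none) (xt := Ext.none) (P1 := 536870912) (W1 := 536870912) (P2 := 536870912) (W2 := 536870912) (P3 := 991146299) (W3 := 28908434) (N0 := 3) (En := eng) (mo := mog) (C1 := cd1q1) (C2 := cd3q1) (C3 := pd2)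
    rfl k0_pp_112

noncomputable def f_pp_113 : ℕ → ℕ → ℕ → ℕ → Bool := onCell 536870912 536870912 536870912 536870912 991146299 28908434
    (rowB 3 eng mog cd1q1 cd3q1 pd3 0 true true true .nn 1 1 3 (qsf 536870912 536870912 536870912 536870912 3) ndB1q1 ndB3q1 pcB3 Cut.none Ext.none)

def k0_pp_113 : ∃ t, chk3 f_pp_113 t 1 1 1 = true :=
  ⟨(l 4), by decide +kernel⟩

theorem c_pp_113 : CertB 536870912 536870912 536870912 536870912 991146299 28908434 3 eng mog cd1q1 cd3q1 pd3 true true true .nn 1 1 3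
    ndB1q1 ndB3q1 pcB3 Cut.none Ext.none :=
  certB0 (fam := true) (s1 := true) (s2 := true) (a := 1) (b := 1) (c := 3) (cn := .nn) (n1 := ndB1q1) (n2 := ndB3q1) (pc := pcB3) (cut := Cut.none) (xt := Ext.none) (P1 := 536870912) (W1 := 536870912) (P2 := 536870912) (W2 := 536870912) (P3 := 991146299) (W3 := 28908434) (N0 := 3) (En := eng) (mo := mog) (C1 := cd1q1) (C2 := cd3q1) (C3 := pd3)
    rfl k0_pp_113

noncomputable def f_pp_123 : ℕ → ℕ → ℕ → ℕ → Bool := onCell 536870912 536870912 1073741824 536870912 991146299 28908434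
    (rowB 3 eng mog cd1q1 cd3q2 pd3 0 true true true .npn 1 2 3 (qsf 536870912 536870912 1073741824 536870912 3) ndB1q1 ndB3q2 pcB3 Cut.none Ext.none)

def k0_pp_123 : ∃ t, chk3 f_pp_123 t 1 1 1 = true :=
  ⟨(l 4), by decide +kernel⟩

theorem c_pp_123 : CertB 536870912 536870912 1073741824 536870912 991146299 28908434 3 eng mog cd1q1 cd3q2 pd3 true true true .npn 1 2 3
    ndB1q1 ndB3q2 pcB3 Cut.none Ext.none :=
  certB0 (fam := true) (s1 := true) (s2 := true) (a := 1) (b := 2) (c := 3) (cn := .npn) (n1 := ndB1q1) (n2 := ndB3q2) (pc := pcB3) (cut := Cut.none) (xt := Ext.none) (P1 := 536870912) (W1 := 536870912) (P2 := 1073741824) (W2 := 536870912) (P3 := 991146299) (W3 := 28908434) (N0 := 3) (En := eng) (mo := mog) (C1 := cd1q1) (C2 := cd3q2) (C3 := pd3)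
    rfl k0_pp_123

noncomputable def f_pp_133 : ℕ → ℕ → ℕ → ℕ → Bool := onCell 536870912 536870912 0 1230186008 991146299 28908434
    (rowB 3 eng mog cd1q1 cd3q3 pd3 0 true true true .dn 1 3 3 (qsf 536870912 536870912 0 1230186008 3) ndB1q1 ndB3q3 pcB3 Cut.none Ext.none)

def k0_pp_133 : ∃ t, chk3 f_pp_133 t 1 1 1 = true :=
  ⟨(l 4), by decide +kernel⟩

theorem c_pp_133 : CertB 536870912 536870912 0 1230186008 991146299 28908434 3 eng mog cd1q1 cd3q3 pd3 true true true .dn 1 3 3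
    ndB1q1 ndB3q3 pcB3 Cut.none Ext.none :=
  certB0 (fam := true) (s1 := true) (s2 := true) (a := 1) (b := 3) (c := 3) (cn := .dn) (n1 := ndB1q1) (n2 := ndB3q3) (pc := pcB3) (cut := Cut.none) (xt := Ext.none) (P1 := 536870912) (W1 := 536870912) (P2 := 0) (W2 := 1230186008) (P3 := 991146299) (W3 := 28908434) (N0 := 3) (En := eng) (mo := mog) (C1 := cd1q1) (C2 := cd3q3) (C3 := pd3)
    rfl k0_pp_133

noncomputable def f_pp_202_a : ℕ → ℕ → ℕ → ℕ → Bool := onCell 0 536870912 0 536870912 991146299 28908434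
    (rowB 3 eng mog cd1q2a cd3q0 pd2 0 true true true .pp 2 0 2 (qsf 0 536870912 0 536870912 2) ndB1q2a ndB3q0 pcB2 Cut.none Ext.none)

def k0_pp_202_a : ∃ t, chk3 f_pp_202_a t 1 1 1 = true :=
  ⟨(l 5), by decide +kernel⟩

theorem c_pp_202_a : CertB 0 536870912 0 536870912 991146299 28908434 3 eng mog cd1q2a cd3q0 pd2 true true true .pp 2 0 2
    ndB1q2a ndB3q0 pcB2 Cut.none Ext.none :=
  certB0 (fam := true) (s1 := true) (s2 := true) (a := 2) (b := 0) (c := 2) (cn := .pp) (n1 := ndB1q2a) (n2 := ndB3q0) (pc := pcB2) (cut := Cut.none) (xt := Ext.none) (P1 := 0) (W1 := 536870912) (P2 := 0) (W2 := 536870912) (P3 := 991146299) (W3 := 28908434) (N0 := 3) (En := eng) (mo := mog) (C1 := cd1q2a) (C2 := cd3q0) (C3 := pd2)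
    rfl k0_pp_202_a

noncomputable def f_pp_202_b : ℕ → ℕ → ℕ → ℕ → Bool := onCell 1239849684 370763052 0 536870912 991146299 28908434
    (rowB 3 eng mog cd1q2b cd3q0 pd2 0 true true true .pp 2 0 2 (qsf 1239849684 370763052 0 536870912 2) ndB1q2b ndB3q0 pcB2 Cut.none Ext.none)

def k0_pp_202_b : ∃ t, chk3 f_pp_202_b t 1 1 1 = true :=
  ⟨(l 5), by decide +kernel⟩

theorem c_pp_202_b : CertB 1239849684 370763052 0 536870912 991146299 28908434 3 eng mog cd1q2b cd3q0 pd2 true true true .pp 2 0 2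
    ndB1q2b ndB3q0 pcB2 Cut.none Ext.none :=
  certB0 (fam := true) (s1 := true) (s2 := true) (a := 2) (b := 0) (c := 2) (cn := .pp) (n1 := ndB1q2b) (n2 := ndB3q0) (pc := pcB2) (cut := Cut.none) (xt := Ext.none) (P1 := 1239849684) (W1 := 370763052) (P2 := 0) (W2 := 536870912) (P3 := 991146299) (W3 := 28908434) (N0 := 3) (En := eng) (mo := mog) (C1 := cd1q2b) (C2 := cd3q0) (C3 := pd2)
    rfl k0_pp_202_b

noncomputable def f_pp_203_a : ℕ → ℕ → ℕ → ℕ → Bool := onCell 0 536870912 0 536870912 991146299 28908434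
    (rowB 3 eng mog cd1q2a cd3q0 pd3 0 true true true .up 2 0 3 (qsf 0 536870912 0 536870912 3) ndB1q2a ndB3q0 pcB3 Cut.none Ext.none)

def k0_pp_203_a : ∃ t, chk3 f_pp_203_a t 1 1 1 = true :=
  ⟨(l 5), by decide +kernel⟩

theorem c_pp_203_a : CertB 0 536870912 0 536870912 991146299 28908434 3 eng mog cd1q2a cd3q0 pd3 true true true .up 2 0 3
    ndB1q2a ndB3q0 pcB3 Cut.none Ext.none :=
  certB0 (fam := true) (s1 := true) (s2 := true) (a := 2) (b := 0) (c := 3) (cn := .up) (n1 := ndB1q2a) (n2 := ndB3q0) (pc := pcB3) (cut := Cut.none) (xt := Ext.none) (P1 := 0) (W1 := 536870912) (P2 := 0) (W2 := 536870912) (P3 := 991146299) (W3 := 28908434) (N0 := 3) (En := eng) (mo := mog) (C1 := cd1q2a) (C2 := cd3q0) (C3 := pd3)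
    rfl k0_pp_203_a

noncomputable def f_pp_203_b : ℕ → ℕ → ℕ → ℕ → Bool := onCell 1239849684 370763052 0 536870912 991146299 28908434
    (rowB 3 eng mog cd1q2b cd3q0 pd3 0 true true true .up 2 0 3 (qsf 1239849684 370763052 0 536870912 3) ndB1q2b ndB3q0 pcB3 Cut.none Ext.none)

def k0_pp_203_b : ∃ t, chk3 f_pp_203_b t 1 1 1 = true :=
  ⟨(l 5), by decide +kernel⟩

theorem c_pp_203_b : CertB 1239849684 370763052 0 536870912 991146299 28908434 3 eng mog cd1q2b cd3q0 pd3 true true true .up 2 0 3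
    ndB1q2b ndB3q0 pcB3 Cut.none Ext.none :=
  certB0 (fam := true) (s1 := true) (s2 := true) (a := 2) (b := 0) (c := 3) (cn := .up) (n1 := ndB1q2b) (n2 := ndB3q0) (pc := pcB3) (cut := Cut.none) (xt := Ext.none) (P1 := 1239849684) (W1 := 370763052) (P2 := 0) (W2 := 536870912) (P3 := 991146299) (W3 := 28908434) (N0 := 3) (En := eng) (mo := mog) (C1 := cd1q2b) (C2 := cd3q0) (C3 := pd3)
    rfl k0_pp_203_b

noncomputable def f_pp_213_a : ℕ → ℕ → ℕ → ℕ → Bool := onCell 0 536870912 536870912 536870912 991146299 28908434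
    (rowB 3 eng mog cd1q2a cd3q1 pd3 0 true true true .pnn 2 1 3 (qsf 0 536870912 536870912 536870912 3) ndB1q2a ndB3q1 pcB3 Cut.none Ext.none)

def k0_pp_213_a : ∃ t, chk3 f_pp_213_a t 1 1 1 = true :=
  ⟨(l 4), by decide +kernel⟩

theorem c_pp_213_a : CertB 0 536870912 536870912 536870912 991146299 28908434 3 eng mog cd1q2a cd3q1 pd3 true true true .pnn 2 1 3
    ndB1q2a ndB3q1 pcB3 Cut.none Ext.none :=
  certB0 (fam := true) (s1 := true) (s2 := true) (a := 2) (b := 1) (c := 3) (cn := .pnn) (n1 := ndB1q2a) (n2 := ndB3q1) (pc := pcB3) (cut := Cut.none) (xt := Ext.none) (P1 := 0) (W1 := 536870912) (P2 := 536870912) (W2 := 536870912) (P3 := 991146299) (W3 := 28908434) (N0 := 3) (En := eng) (mo := mog) (C1 := cd1q2a) (C2 := cd3q1) (C3 := pd3)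
    rfl k0_pp_213_a

noncomputable def f_pp_213_b : ℕ → ℕ → ℕ → ℕ → Bool := onCell 1239849684 370763052 536870912 536870912 991146299 28908434
    (rowB 3 eng mog cd1q2b cd3q1 pd3 0 true true true .pnn 2 1 3 (qsf 1239849684 370763052 536870912 536870912 3) ndB1q2b ndB3q1 pcB3 Cut.none Ext.none)

def k0_pp_213_b : ∃ t, chk3 f_pp_213_b t 1 1 1 = true :=
  ⟨(l 4), by decide +kernel⟩

theorem c_pp_213_b : CertB 1239849684 370763052 536870912 536870912 991146299 28908434 3 eng mog cd1q2b cd3q1 pd3 true true true .pnn 2 1 3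
    ndB1q2b ndB3q1 pcB3 Cut.none Ext.none :=
  certB0 (fam := true) (s1 := true) (s2 := true) (a := 2) (b := 1) (c := 3) (cn := .pnn) (n1 := ndB1q2b) (n2 := ndB3q1) (pc := pcB3) (cut := Cut.none) (xt := Ext.none) (P1 := 1239849684) (W1 := 370763052) (P2 := 536870912) (W2 := 536870912) (P3 := 991146299) (W3 := 28908434) (N0 := 3) (En := eng) (mo := mog) (C1 := cd1q2b) (C2 := cd3q1) (C3 := pd3)
    rfl k0_pp_213_b

noncomputable def f_pp_303 : ℕ → ℕ → ℕ → ℕ → Bool := onCell 1610612736 536870912 0 536870912 991146299 28908434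
    (rowB 3 eng mog cd1q3 cd3q0 pd3 0 true true true .npn 3 0 3 (qsf 1610612736 536870912 0 536870912 3) ndB1q3 ndB3q0 pcB3 Cut.none Ext.none)

def k0_pp_303 : ∃ t, chk3 f_pp_303 t 1 1 1 = true :=
  ⟨(l 5), by decide +kernel⟩

theorem c_pp_303 : CertB 1610612736 536870912 0 536870912 991146299 28908434 3 eng mog cd1q3 cd3q0 pd3 true true true .npn 3 0 3
    ndB1q3 ndB3q0 pcB3 Cut.none Ext.none :=
  certB0 (fam := true) (s1 := true) (s2 := true) (a := 3) (b := 0) (c := 3) (cn := .npn) (n1 := ndB1q3) (n2 := ndB3q0) (pc := pcB3) (cut := Cut.none) (xt := Ext.none) (P1 := 1610612736) (W1 := 536870912) (P2 := 0) (W2 := 536870912) (P3 := 991146299) (W3 := 28908434) (N0 := 3) (En := eng) (mo := mog) (C1 := cd1q3) (C2 := cd3q0) (C3 := pd3)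
    rfl k0_pp_303

noncomputable def f_pp_313 : ℕ → ℕ → ℕ → ℕ → Bool := onCell 1610612736 536870912 536870912 536870912 991146299 28908434
    (rowB 3 eng mog cd1q3 cd3q1 pd3 0 true true true .dn 3 1 3 (qsf 1610612736 536870912 536870912 536870912 3) ndB1q3 ndB3q1 pcB3 Cut.none Ext.none)

def k0_pp_313 : ∃ t, chk3 f_pp_313 t 1 1 1 = true :=
  ⟨(l 4), by decide +kernel⟩

theorem c_pp_313 : CertB 1610612736 536870912 536870912 536870912 991146299 28908434 3 eng mog cd1q3 cd3q1 pd3 true true true .dn 3 1 3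
    ndB1q3 ndB3q1 pcB3 Cut.none Ext.none :=
  certB0 (fam := true) (s1 := true) (s2 := true) (a := 3) (b := 1) (c := 3) (cn := .dn) (n1 := ndB1q3) (n2 := ndB3q1) (pc := pcB3) (cut := Cut.none) (xt := Ext.none) (P1 := 1610612736) (W1 := 536870912) (P2 := 536870912) (W2 := 536870912) (P3 := 991146299) (W3 := 28908434) (N0 := 3) (En := eng) (mo := mog) (C1 := cd1q3) (C2 := cd3q1) (C3 := pd3)
    rfl k0_pp_313

noncomputable def f_pm_001 : ℕ → ℕ → ℕ → ℕ → Bool := onCell 0 536870912 0 536870912 991146299 28908434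
    (rowB 3 eng mog cd1q0 cd3q0 pd1 0 true true false .up 0 0 1 (qsf 0 536870912 0 536870912 1) ndB1q0 ndB3q0 pcB1 Cut.none Ext.none)

def k0_pm_001 : ∃ t, chk3 f_pm_001 t 1 1 1 = true :=
  ⟨(b (l 3) (l 3)), by decide +kernel⟩

theorem c_pm_001 : CertB 0 536870912 0 536870912 991146299 28908434 3 eng mog cd1q0 cd3q0 pd1 true true false .up 0 0 1
    ndB1q0 ndB3q0 pcB1 Cut.none Ext.none :=
  certB0 (fam := true) (s1 := true) (s2 := false) (a := 0) (b := 0) (c := 1) (cn := .up) (n1 := ndB1q0) (n2 := ndB3q0) (pc := pcB1) (cut := Cut.none) (xt := Ext.none) (P1 := 0) (W1 := 536870912) (P2 := 0) (W2 := 536870912) (P3 := 991146299) (W3 := 28908434) (N0 := 3) (En := eng) (mo := mog) (C1 := cd1q0) (C2 := cd3q0) (C3 := pd1)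
    rfl k0_pm_001

noncomputable def cut_pm_011 : Cut := Cut.of [[⟨0, 0, 0, 53687091⟩, ⟨1, 1, 0, 53687091⟩, ⟨2, 1, 0, 53687091⟩]]

noncomputable def f_pm_011 : ℕ → ℕ → ℕ → ℕ → Bool := onCell 0 536870912 536870912 536870912 991146299 28908434
    (rowB 3 eng mog cd1q0 cd3q1 pd1 1 true true false .pnn 0 1 1 (qsf 0 536870912 536870912 536870912 1) ndB1q0 ndB3q1 pcB1 cut_pm_011 Ext.none)

def k0_pm_011 : ∃ t, chk3 f_pm_011 t 1 1 1 = true :=
  ⟨(b (l 3) (b (l 3) (b (l 3) (a (a (b (l 3) (a (b (l 3) (a (l 6) (l 3))) (l 3))) (l 3)) (l 3))))), by decide +kernel⟩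

theorem c_pm_011 : CertB 0 536870912 536870912 536870912 991146299 28908434 3 eng mog cd1q0 cd3q1 pd1 true true false .pnn 0 1 1
    ndB1q0 ndB3q1 pcB1 cut_pm_011 Ext.none :=
  certB1 (fam := true) (s1 := true) (s2 := false) (a := 0) (b := 1) (c := 1) (cn := .pnn) (n1 := ndB1q0) (n2 := ndB3q1) (pc := pcB1) (cut := cut_pm_011) (xt := Ext.none) (P1 := 0) (W1 := 536870912) (P2 := 536870912) (W2 := 536870912) (P3 := 991146299) (W3 := 28908434) (N0 := 3) (En := eng) (mo := mog) (C1 := cd1q0) (C2 := cd3q1) (C3 := pd1)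
    rfl (fun _ => rfl) k0_pm_011

noncomputable def cut_pm_012 : Cut := Cut.of [[⟨0, 0, 0, 53687091⟩, ⟨1, 1, 0, 53687091⟩, ⟨2, 1, 0, 53687091⟩]]

noncomputable def xt_pm_012 : Ext := extD3 3 ⟨4, 1, 1, 5, 22, 5, 21, 25, 41, 100, 1, 20⟩ eng cd1q0 cd3q1 pd2 true true false .pnp 0 1 2 rfl ndB1q0 ndB3q1 pcB2

noncomputable def f_pm_012 : ℕ → ℕ → ℕ → ℕ → Bool := onCell 1073741824 536870912 536870912 536870912 991146299 28908434
    (rowB 3 eng mog cd1q0 cd3q1 pd2 2 true true false .pnp 0 1 2 (qsf 0 536870912 536870912 536870912 2) ndB1q0 ndB3q1 pcB2 cut_pm_012 xt_pm_012)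

def k0_pm_012 : ∃ t, chk3 f_pm_012 t 8 1 1 = true :=
  ⟨(b (a (b (l 3) (l 3)) (b (b (a (l 16218592) (l 16143720)) (a (l 16232376) (l 16100136))) (a (b (l 16187344) (b (l 16266232) (l 16212128))) (b (l 16018176) (l 16065848))))) (b (a (a (l 3) (b (c (l 16321864) (l 16425960)) (c (b (l 16401840) (l 395840640119)) (b (l 16432096) (l 16340592))))) (a (b (a (l 16258464) (l 16209552)) (b (a (l 16343984) (l 16287504)) (a (l 16359296) (l 16296320)))) (b (l 16155096) (b (l 16201408) (l 16204144))))) (a (b (a (b (l 3) (a (l 3) (l 141138088042872895))) (b (a (l 16419856) (a (l 16433880) (l 16422208))) (a (b (l 140505250351693887) (l 140642826726572095)) (l 139722604106907711)))) (b (a (a (b (l 3) (l 9731852848040359453920641151)) (b (l 141296967507165247) (a (l 142351949068353663) (l 141975641182322815)))) (a (b (l 140582559770181695) (l 141349537908867199)) (b (l 16465496) (l 16429928)))) (a (l 6) (b (a (a (l 141939425953841279) (l 141681865272787071)) (a (l 141251337670426751)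 (l 16459240))) (l 6))))) (b (a (b (a (l 16309824) (l 16304680)) (a (l 16382992) (l 16312120))) (b (l 16185640) (a (l 16243232) (l 16178528)))) (b (a (b (a (l 16390616) (l 16317440)) (a (l 16395688) (l 16323232))) (b (l 16217000) (l 16222144))) (a (b (a (l 139857225451962495) (l 16331080)) (a (b (l 16410080) (l 6)) (b (l 16337264) (l 16341456)))) (b (a (l 16261776) (l 16195088)) (c (l 16274528) (l 16247256))))))))), by decide +kernel⟩

def k1_pm_012 : ∃ t, chk3 f_pm_012 t 9 1 1 = true :=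
  ⟨(b (b (a (b (l 16037416) (a (l 16138800) (l 16096528))) (b (l 2) (l 16041432))) (a (b (a (l 16123824) (l 16064776)) (a (l 16110744) (l 16036120))) (b (l 15909136) (l 15948272)))) (b (a (b (a (l 16099104) (l 16011992)) (a (b (l 16091856) (l 16088864)) (l 15994712))) (b (l 15888272) (a (l 15912672) (l 15839720)))) (b (a (a (b (l 16088392) (l 16090824)) (b (l 15986752) (l 15983744))) (b (l 15855336) (a (l 15886976) (l 15800608)))) (a (b (a (l 135657296562454591) (l 15982488)) (a (b (l 16100128) (c (l 16114160) (l 16093152))) (b (l 15982608) (l 15983336)))) (b (a (l 15858952) (l 15788136)) (a (b (l 15875736) (l 15873632)) (c (l 15790384) (l 15764648)))))))), by decide +kernel⟩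

def k2_pm_012 : ∃ t, chk3 f_pm_012 t 5 1 1 = true :=
  ⟨(b (a (b (a (a (l 15981680) (l 2)) (l 2)) (a (a (b (l 15932576) (l 15875856)) (b (l 15836128) (a (l 15845080) (l 15829464)))) (b (l 15845984) (l 15775344)))) (b (l 2) (b (l 15749440) (l 15651432)))) (b (a (a (a (b (l 15823480) (l 15776352)) (b (a (l 15788016) (l 15771800)) (a (l 15735720) (a (l 15719792) (l 15713928))))) (b (l 15707168) (l 15642664))) (b (l 15553080) (a (l 15514368) (l 15400256)))) (a (a (a (b (l 15735224) (b (l 15708392) (b (l 15696496) (l 15689232)))) (b (a (l 15668016) (a (l 15671272) (l 15665392))) (a (b (l 15657752) (l 15639216)) (a (b (l 15638552) (l 15618912)) (c (b (l 15638664) (l 15625024)) (l 15550568)))))) (b (l 15582832) (b (l 15541096) (l 15515408)))) (b (a (l 15431672) (l 15295400)) (b (l 15378280) (a (l 15334840) (l 15169408))))))), by decide +kernel⟩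

def k3_pm_012 : ∃ t, chk3 f_pm_012 t 3 1 1 = true :=
  ⟨(b (a (b (l 2) (a (b (l 2) (l 15523104)) (l 2))) (l 2)) (a (b (a (b (l 15391040) (l 15255968)) (b (l 15272688) (l 15108128))) (a (b (a (l 15174240) (l 15068120)) (a (l 15050744) (l 14923184))) (b (l 14937440) (a (l 14811832) (l 14716456))))) (b (a (b (l 2) (l 15004456)) (l 2)) (a (b (l 14808928) (l 14603640)) (b (a (l 14742424) (l 2)) (a (l 14519840) (l 14482336))))))), by decide +kernel⟩

theorem s4_pm_012 : ∃ t, chk3 f_pm_012 t 4 1 1 = true := ex3_a k0_pm_012 k1_pm_012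

theorem s5_pm_012 : ∃ t, chk3 f_pm_012 t 2 1 1 = true := ex3_a s4_pm_012 k2_pm_012

theorem s6_pm_012 : ∃ t, chk3 f_pm_012 t 1 1 1 = true := ex3_a s5_pm_012 k3_pm_012

theorem c_pm_012 : CertB 0 536870912 536870912 536870912 991146299 28908434 3 eng mog cd1q0 cd3q1 pd2 true true false .pnp 0 1 2
    ndB1q0 ndB3q1 pcB2 cut_pm_012 xt_pm_012 :=
  certB2 (fam := true) (s1 := true) (s2 := false) (a := 0) (b := 1) (c := 2) (cn := .pnp) (n1 := ndB1q0) (n2 := ndB3q1) (pc := pcB2) (cut := cut_pm_012) (xt := xt_pm_012) (P1 := 0) (W1 := 536870912) (P2 := 536870912) (W2 := 536870912) (P3 := 991146299) (W3 := 28908434) (N0 := 3) (En := eng) (mo := mog) (C1 := cd1q0) (C2 := cd3q1) (C3 := pd2)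
    rfl (fun _ => rfl) s6_pm_012

noncomputable def f_pm_022 : ℕ → ℕ → ℕ → ℕ → Bool := onCell 0 536870912 1073741824 536870912 991146299 28908434
    (rowB 3 eng mog cd1q0 cd3q2 pd2 1 true true false .pp 0 2 2 (qsf 0 536870912 1073741824 536870912 2) ndB1q0 ndB3q2 pcB2 Cut.none Ext.none)

def k0_pm_022 : ∃ t, chk3 f_pm_022 t 2 8 1 = true :=
  ⟨(a (b (l 3) (a (b (l 3) (b (b (l 3) (a (l 3) (a (l 3) (a (l 16573952) (l 546567701079))))) (a (a (c (b (l 773798149751) (a (l 16504592) (l 16560984))) (b (l 782924845815) (a (l 16423928) (l 16498624)))) (b (c (l 16564936) (l 16520376)) (c (l 16550800) (l 16526216)))) (a (b (b (l 16540360) (l 16532920)) (l 16521792)) (c (l 194380383607) (l 16577024)))))) (b (l 1) (a (a (a (b (l 1) (c (l 585222496599) (l 619045413367))) (l 1)) (l 1)) (l 1))))) (l 1)), by decide +kernel⟩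

def k1_pm_022 : ∃ t, chk3 f_pm_022 t 2 9 1 = true :=
  ⟨(a (b (a (a (b (c (a (b (b (l 16466952) (l 16453752)) (b (l 16419352) (l 16403392))) (b (l 16530696) (b (l 16530424) (l 16532552)))) (b (a (c (l 16412584) (l 16379512)) (l 16460872)) (a (b (a (l 16419888) (l 16452136)) (a (l 16403832) (l 16435496))) (b (l 16479184) (l 16482320))))) (c (a (b (a (l 16440272) (l 16473520)) (l 16353936)) (b (l 16481080) (l 16483032))) (a (b (c (l 16408512) (l 16374984)) (l 16334384)) (b (l 16454560) (l 16418088))))) (b (b (c (a (l 16578328) (l 16562384)) (a (l 16524200) (l 16565744))) (c (l 16503824) (b (l 16488944) (l 16491064)))) (a (b (l 16427128) (l 16409896)) (b (l 16489712) (l 16472560))))) (b (a (b (a (c (a (l 16549368) (l 486974918695)) (l 416108157927)) (l 1)) (c (a (l 16548608) (l 608307856551)) (l 227666398295))) (l 1)) (b (a (a (l 16541720) (l 497712275351)) (l 1)) (a (b (l 168610420023) (l 16492040)) (c (l 601865255879) (l 562673712887)))))) (a (a (b (a (c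 (b (l 16377480) (l 16338864)) (b (l 16319416) (l 16284080))) (c (l 16340360) (l 16343384))) (b (c (a (l 16301040) (l 16367504)) (l 16176120)) (c (a (b (l 16273616) (l 16261368)) (l 16339464)) (a (b (l 16224184) (l 16213192)) (l 16286888))))) (b (a (c (l 16447688) (l 16426448)) (l 16374552)) (b (c (l 16383864) (l 16365600)) (c (l 16405744) (l 16389904))))) (b (a (c (l 16504568) (l 16451608)) (c (b (l 507912683287) (l 223907984919)) (l 452615169495))) (a (b (l 16399648) (l 16430784)) (b (l 180958281495) (l 16401000)))))) (b (l 1) (a (a (b (l 1) (c (l 631929921223) (l 521871551415))) (l 1)) (l 1)))), by decide +kernel⟩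

def k2_pm_022 : ∃ t, chk3 f_pm_022 t 4 10 1 = true :=
  ⟨(a (b (b (a (c (b (l 16232160) (l 16189168)) (b (l 16183848) (a (l 16212872) (l 16283936)))) (c (l 16378952) (l 16325040))) (b (a (a (c (l 16240728) (l 16158520)) (l 16251536)) (l 16294688)) (b (a (a (c (l 16229928) (a (l 16216864) (l 16252360))) (l 16283800)) (l 16305440)) (a (b (a (c (b (l 16280048) (l 16223824)) (b (l 16244328) (a (l 16234096) (l 16269408)))) (c (l 16358072) (l 16319192))) (b (a (a (c (b (b (l 16274288) (b (l 16278080) (a (c (l 16259104) (l 16243296)) (l 16269864)))) (l 16282568)) (b (b (l 16240816) (b (l 16244856) (b (b (l 16226832) (a (l 16219800) (l 16258432))) (l 16229344)))) (l 16228784))) (b (b (l 16294000) (c (l 16295856) (c (l 16290808) (l 16251816)))) (l 16281552))) (b (b (l 16305720) (b (l 16309560) (l 16271096))) (l 16314136))) (a (a (c (l 16280768) (l 16227288)) (l 16279912)) (l 16312496)))) (b (l 16297248) (c (l 16370312) (l 16327936))))))) (a (c (a (a (b (a (b (l 16239792)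 (l 16221152)) (l 16249032)) (b (l 16212304) (l 16215616))) (b (l 16297736) (l 16261416))) (b (l 16310648) (l 16295256))) (a (b (a (b (c (l 16247240) (l 16231464)) (a (l 16204680) (l 16232856))) (l 16224960)) (a (c (l 16207616) (l 16196048)) (l 16237112))) (b (l 16277192) (l 16289392)))) (a (c (l 16343104) (l 16309736)) (l 16332408)))) (b (b (a (l 16384256) (l 16346048)) (b (a (l 16451344) (l 16366392)) (b (a (l 16458560) (l 16379240)) (a (b (l 16456752) (l 16397848)) (b (l 16357608) (l 16341448)))))) (c (a (l 16450408) (l 16371992)) (a (l 16455744) (l 16430368))))), by decide +kernel⟩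

def k3_pm_022 : ∃ t, chk3 f_pm_022 t 5 10 1 = true :=
  ⟨(b (a (b (a (c (l 263636077159) (l 16385760)) (l 1)) (b (a (l 16277232) (l 1)) (a (b (l 16292080) (c (l 16162008) (l 16306464))) (b (l 1) (b (l 1) (l 585221369607)))))) (l 1)) (a (a (c (l 16285248) (l 16355704)) (c (l 131565461239) (l 16211080))) (a (c (l 332354957975) (l 330744543911)) (l 1)))), by decide +kernel⟩

def k4_pm_022 : ∃ t, chk3 f_pm_022 t 2 11 1 = true :=
  ⟨(a (a (a (b (a (c (b (a (c (l 16194016) (l 16186128)) (l 16227056)) (b (l 16142192) (l 16147480))) (b (a (b (l 16180728) (l 16167264)) (l 16209232)) (a (l 16148024) (l 16183280)))) (c (l 16181560) (b (l 16261520) (l 16235536)))) (c (a (b (a (l 16127448) (l 16164272)) (a (l 16099112) (l 16135856))) (l 16162496)) (a (b (a (l 16124032) (l 16159264)) (l 16077712)) (l 16179344)))) (b (a (c (l 16295032) (l 16295920)) (l 16290688)) (a (l 16188248) (l 16298312)))) (c (a (l 16301904) (l 16237056)) (b (a (l 16419576) (l 16380976)) (l 16289104))))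 (c (a (b (l 16073592) (l 16195472)) (b (a (l 16083216) (l 336649719383)) (a (l 16071816) (l 15980744)))) (a (b (l 16131488) (l 16213888)) (b (a (l 16159936) (l 335039297063)) (l 52645132007))))), by decide +kernel⟩

def k5_pm_022 : ∃ t, chk3 f_pm_022 t 3 2 1 = true :=
  ⟨(b (l 1) (b (l 1) (a (a (b (l 1) (a (c (l 340944492103) (l 15966392)) (l 1))) (l 1)) (l 1)))), by decide +kernel⟩

def k6_pm_022 : ∃ t, chk3 f_pm_022 t 2 6 1 = true :=
  ⟨(a (b (b (a (a (a (c (b (l 16028216) (l 16024720)) (b (l 16078576) (l 16081360))) (c (l 16130232) (l 16138848))) (b (l 16185944) (l 16163984))) (a (l 16306008) (l 16259040))) (a (a (c (a (b (l 16023112) (l 16002376)) (l 16063584)) (b (l 15994936) (l 16001304))) (a (l 16100824) (l 16209888))) (a (l 16236288) (l 16198528)))) (a (a (b (a (c (b (l 15983408) (l 15945168)) (l 15948424)) (b (l 16027784) (l 15992264))) (c (a (b (l 15929496) (l 15894344)) (l 15993008)) (b (l 15946688) (l 15935752)))) (b (a (l 16067784) (l 16155392))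 (c (l 16070912) (l 16064184)))) (b (a (l 16159976) (l 16131584)) (c (l 16090720) (l 16005024))))) (b (a (b (a (l 16204408) (l 16142256)) (a (l 16153152) (l 16100264))) (c (a (l 16043040) (l 15965696)) (b (l 16058072) (l 16019960)))) (a (b (a (l 16095656) (l 16052208)) (a (l 16032232) (l 15998360))) (b (l 15826784) (l 15933984))))), by decide +kernel⟩

def k7_pm_022 : ∃ t, chk3 f_pm_022 t 2 7 1 = true :=
  ⟨(a (b (c (a (b (a (a (b (l 15881552) (l 15849032)) (l 15945704)) (l 16001232)) (a (a (b (l 15838592) (l 15817136)) (l 15853504)) (l 15863712))) (b (a (l 16019232) (l 16008216)) (l 15850456))) (a (b (a (b (l 15920872) (l 15841744)) (l 15896504)) (a (a (b (l 15799512) (l 15737904)) (l 15755864)) (l 15786808))) (b (l 15913872) (l 15776000)))) (a (b (c (a (b (c (l 15808768) (l 15747200)) (a (b (l 15745000) (c (l 15776864) (l 15732592))) (b (l 15796104) (l 15769848)))) (b (l 15852480) (l 15738144))) (a (b (a (l 15654344) (l 15749872)) (b (a (l 15690792) (l 15704152))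 (a (c (l 15685328) (l 15635256)) (l 15674312)))) (b (l 15765048) (l 15706328)))) (c (a (c (b (a (l 15700224) (l 15758976)) (l 15663912)) (b (l 15640224) (l 15653856))) (b (l 15756824) (l 15714216))) (c (a (b (l 15631256) (l 15598376)) (l 15655984)) (a (b (l 15598376) (l 15539664)) (l 15599472))))) (b (a (c (l 15843840) (l 15753384)) (l 15809560)) (c (a (l 15656176) (l 15777312)) (b (a (l 15677392) (l 15692736)) (l 15640096)))))) (b (a (b (a (l 15963392) (l 15939160)) (c (l 15915888) (l 15850304))) (b (l 15889192) (l 15839656))) (a (b (c (l 15851176) (l 15769112)) (c (l 15785792) (a (l 15683544) (l 15687336)))) (b (l 15786128) (a (l 15731664) (l 15723296)))))), by decide +kernel⟩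

def k8_pm_022 : ∃ t, chk3 f_pm_022 t 3 3 1 = true :=
  ⟨(b (a (b (a (a (c (l 103647550743) (l 15891936)) (b (l 341481113463) (l 120290358567))) (b (l 1) (c (l 343628193575) (l 347386502695)))) (c (a (l 15804960) (b (l 121363722247) (l 15675000))) (a (l 15801824) (b (l 15638336) (l 15708144))))) (b (l 1) (a (b (l 1) (c (l 346312256791) (l 164313222327))) (l 1)))) (a (b (a (b (l 15798112) (l 15746488)) (c (l 15654568) (l 15677608))) (a (b (l 15732824) (l 15694904)) (c (l 15725248) (l 15603352)))) (b (a (c (b (l 126195836887) (l 15544608)) (b (l 15548240) (l 15562920))) (c (b (l 1) (l 223369206887)) (l 348459600535))) (a (c (b (l 15555360) (l 15562680)) (l 15524848)) (b (a (l 15468320) (l 218000548439)) (c (l 15449792) (l 15454360))))))), by decide +kernel⟩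

theorem s9_pm_022 : ∃ t, chk3 f_pm_022 t 2 3 1 = true := ex3_b k6_pm_022 k7_pm_022

theorem s10_pm_022 : ∃ t, chk3 f_pm_022 t 1 3 1 = true := ex3_a s9_pm_022 k8_pm_022

theorem s11_pm_022 : ∃ t, chk3 f_pm_022 t 2 10 1 = true := ex3_a k2_pm_022 k3_pm_022

theorem s12_pm_022 : ∃ t, chk3 f_pm_022 t 2 5 1 = true := ex3_b s11_pm_022 k4_pm_022

theorem s13_pm_022 : ∃ t, chk3 f_pm_022 t 2 4 1 = true := ex3_b k0_pm_022 k1_pm_022

theorem s14_pm_022 : ∃ t, chk3 f_pm_022 t 2 2 1 = true := ex3_b s13_pm_022 s12_pm_022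

theorem s15_pm_022 : ∃ t, chk3 f_pm_022 t 1 2 1 = true := ex3_a s14_pm_022 k5_pm_022

theorem s16_pm_022 : ∃ t, chk3 f_pm_022 t 1 1 1 = true := ex3_b s15_pm_022 s10_pm_022

theorem c_pm_022 : CertB 0 536870912 1073741824 536870912 991146299 28908434 3 eng mog cd1q0 cd3q2 pd2 true true false .pp 0 2 2
    ndB1q0 ndB3q2 pcB2 Cut.none Ext.none :=
  certB1 (fam := true) (s1 := true) (s2 := false) (a := 0) (b := 2) (c := 2) (cn := .pp) (n1 := ndB1q0) (n2 := ndB3q2) (pc := pcB2) (cut := Cut.none) (xt := Ext.none) (P1 := 0) (W1 := 536870912) (P2 := 1073741824) (W2 := 536870912) (P3 := 991146299) (W3 := 28908434) (N0 := 3) (En := eng) (mo := mog) (C1 := cd1q0) (C2 := cd3q2) (C3 := pd2)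
    rfl (fun _ => rfl) s16_pm_022

noncomputable def f_pm_023 : ℕ → ℕ → ℕ → ℕ → Bool := onCell 1610612736 536870912 1073741824 536870912 991146299 28908434
    (rowB 3 eng mog cd1q0 cd3q2 pd3 2 true true false .up 0 2 3 (qsf 0 536870912 1073741824 536870912 3) ndB1q0 ndB3q2 pcB3 Cut.none Ext.none)

def k0_pm_023 : ∃ t, chk3 f_pm_023 t 1 1 1 = true :=
  ⟨(a (a (b (b (c (a (b (a (l 15604720) (l 15542136)) (a (l 15698624) (l 15625040))) (b (a (l 15492320) (l 2)) (a (l 15562704) (l 15525200)))) (a (b (l 15545152) (l 15669168)) (b (l 15472744) (a (l 15668752) (l 15621424))))) (a (b (a (c (l 15771328) (l 15879592)) (b (l 15726248) (l 15711856))) (a (b (l 15859408) (l 15752608)) (b (l 15786040) (l 15812600)))) (b (a (c (l 15640648) (l 15737072)) (l 15652104)) (c (l 15704752) (l 15773528))))) (b (a (b (a (c (l 15863376) (l 15955288)) (l 15845624)) (c (a (l 15878696) (l 15831416)) (l 15715024))) (b (c (l 15761096) (l 15811024)) (a (l 15818320) (l 15789216)))) (a (b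 (a (c (l 15863520) (l 15871568)) (c (l 15817984) (l 15870208))) (a (a (b (l 15705568) (c (l 15694968) (b (l 15709792) (l 15642864)))) (c (l 15714664) (l 15655344))) (b (l 15785176) (l 15603272)))) (b (a (l 15801592) (l 15774272)) (a (l 15561360) (l 15724640)))))) (b (b (a (b (l 2) (b (l 2) (l 15549352))) (l 2)) (a (b (a (l 15637048) (l 15636248)) (l 15495992)) (b (l 15557792) (l 15733000)))) (b (a (b (l 15753584) (l 15773760)) (b (l 15783552) (l 15808696))) (a (b (l 15741360) (a (l 15714872) (l 15721720))) (b (l 15803784) (l 15765216)))))) (b (a (b (l 2) (a (b (l 2) (l 15822376)) (l 2))) (l 2)) (a (a (b (b (l 15878640) (l 15911544)) (b (l 15915800) (l 15886992))) (b (a (l 16016672) (l 16118776)) (a (l 15904152) (b (l 16159688) (l 16158712))))) (b (a (a (b (l 2) (l 16240696)) (l 2)) (l 2)) (a (a (l 16062304) (l 16284408)) (l 4)))))), by decide +kernel⟩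

theorem c_pm_023 : CertB 0 536870912 1073741824 536870912 991146299 28908434 3 eng mog cd1q0 cd3q2 pd3 true true false .up 0 2 3
    ndB1q0 ndB3q2 pcB3 Cut.none Ext.none :=
  certB2 (fam := true) (s1 := true) (s2 := false) (a := 0) (b := 2) (c := 3) (cn := .up) (n1 := ndB1q0) (n2 := ndB3q2) (pc := pcB3) (cut := Cut.none) (xt := Ext.none) (P1 := 0) (W1 := 536870912) (P2 := 1073741824) (W2 := 536870912) (P3 := 991146299) (W3 := 28908434) (N0 := 3) (En := eng) (mo := mog) (C1 := cd1q0) (C2 := cd3q2) (C3 := pd3)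
    rfl (fun _ => rfl) k0_pm_023

noncomputable def f_pm_033 : ℕ → ℕ → ℕ → ℕ → Bool := onCell 1610612736 536870912 0 1230186008 991146299 28908434
    (rowB 3 eng mog cd1q0 cd3q3 pd3 2 true true false .pnn 0 3 3 (qsf 0 536870912 0 1230186008 3) ndB1q0 ndB3q3 pcB3 Cut.none Ext.none)

def k0_pm_033 : ∃ t, chk3 f_pm_033 t 2 1 1 = true :=
  ⟨(b (l 1) (b (b (l 1) (a (l 1) (a (l 1) (a (l 1) (b (l 1) (b (l 1) (l 15008032))))))) (b (a (l 1) (a (b (a (l 1) (b (l 1) (l 272760317447))) (a (b (l 1) (c (l 15382632) (l 15295904))) (b (l 272760597479) (l 15325032)))) (b (a (b (l 15161608) (l 15313504)) (b (l 15275192) (l 15368304))) (a (c (l 15423704) (l 15473800)) (l 15369824))))) (a (a (b (l 1) (b (a (l 1) (a (b (l 1) (c (l 432211900551) (l 321078847143))) (a (c (l 230885268935) (l 146058978951)) (c (l 15399392) (l 15235640))))) (a (a (b (l 1) (c (c (l 165923885703) (l 149817527815)) (c (l 193840705111) (l 280813892423)))) (c (c (b (l 483214918199) (l 15627080)) (l 150354340503))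 (c (l 157333421079) (a (l 166460026359) (l 15268176))))) (c (b (a (l 248602149335) (l 15642968)) (l 15561656)) (c (l 15264320) (l 15128904)))))) (b (b (a (l 1) (c (l 306046799175) (l 290477243591))) (a (c (b (l 345238473767) (l 15320448)) (b (l 303362049207) (l 15072712))) (c (l 15502504) (l 251823241543)))) (c (b (a (l 177198140343) (l 15680304)) (a (l 15682216) (l 15774104))) (a (b (a (l 15297240) (l 15479872)) (l 15429856)) (b (l 15590240) (l 15743552)))))) (c (a (b (b (l 15298696) (l 15539176)) (b (l 15695920) (l 15788712))) (b (l 15553528) (l 15821120))) (a (b (a (b (l 15438240) (l 15578872)) (l 15632104)) (a (l 15759192) (l 15904552))) (b (l 15593816) (l 15931168)))))))), by decide +kernel⟩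

def k1_pm_033 : ∃ t, chk3 f_pm_033 t 3 1 1 = true :=
  ⟨(a (b (l 1) (b (a (b (l 1) (a (b (l 14940680) (l 15143240)) (b (l 14821336) (l 15188616)))) (a (b (b (l 1) (l 4)) (b (l 14903600) (l 15262312))) (l 4))) (b (a (a (b (a (l 15382928) (l 15394440)) (b (l 15547464) (l 15642952))) (b (l 15419472) (l 15668776))) (a (b (l 15475368) (l 15709888)) (b (l 15568856) (l 15778016)))) (a (b (a (l 15791792) (l 15765760)) (a (l 15980624) (l 16052392))) (a (b (l 15957648) (l 16140936)) (b (l 16000472) (l 16232632))))))) (b (b (l 4) (l 4)) (b (l 4) (a (a (b (l 4) (b (l 16098336) (l 16192248))) (l 4)) (l 4))))), by decide +kernel⟩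

theorem s2_pm_033 : ∃ t, chk3 f_pm_033 t 1 1 1 = true := ex3_a k0_pm_033 k1_pm_033

theorem c_pm_033 : CertB 0 536870912 0 1230186008 991146299 28908434 3 eng mog cd1q0 cd3q3 pd3 true true false .pnn 0 3 3
    ndB1q0 ndB3q3 pcB3 Cut.none Ext.none :=
  certB2 (fam := true) (s1 := true) (s2 := false) (a := 0) (b := 3) (c := 3) (cn := .pnn) (n1 := ndB1q0) (n2 := ndB3q3) (pc := pcB3) (cut := Cut.none) (xt := Ext.none) (P1 := 0) (W1 := 536870912) (P2 := 0) (W2 := 1230186008) (P3 := 991146299) (W3 := 28908434) (N0 := 3) (En := eng) (mo := mog) (C1 := cd1q0) (C2 := cd3q3) (C3 := pd3)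
    rfl (fun _ => rfl) s2_pm_033

noncomputable def f_pm_101 : ℕ → ℕ → ℕ → ℕ → Bool := onCell 536870912 536870912 0 536870912 991146299 28908434
    (rowB 3 eng mog cd1q1 cd3q0 pd1 2 true true false .npn 1 0 1 (qsf 536870912 536870912 0 536870912 1) ndB1q1 ndB3q0 pcB1 Cut.none Ext.none)

def k0_pm_101 : ∃ t, chk3 f_pm_101 t 1 1 1 = true :=
  ⟨(a (l 3) (b (l 3) (l 3))), by decide +kernel⟩

theorem c_pm_101 : CertB 536870912 536870912 0 536870912 991146299 28908434 3 eng mog cd1q1 cd3q0 pd1 true true false .npn 1 0 1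
    ndB1q1 ndB3q0 pcB1 Cut.none Ext.none :=
  certB2 (fam := true) (s1 := true) (s2 := false) (a := 1) (b := 0) (c := 1) (cn := .npn) (n1 := ndB1q1) (n2 := ndB3q0) (pc := pcB1) (cut := Cut.none) (xt := Ext.none) (P1 := 536870912) (W1 := 536870912) (P2 := 0) (W2 := 536870912) (P3 := 991146299) (W3 := 28908434) (N0 := 3) (En := eng) (mo := mog) (C1 := cd1q1) (C2 := cd3q0) (C3 := pd1)
    rfl (fun _ => rfl) k0_pm_101

noncomputable def xt_pm_102 : Ext := extD3 3 ⟨4, 1, 1, 5, 22, 5, 21, 25, 41, 100, 1, 20⟩ eng cd1q1 cd3q0 pd2 true true false .npp 1 0 2 rfl ndB1q1 ndB3q0 pcB2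

noncomputable def f_pm_102 : ℕ → ℕ → ℕ → ℕ → Bool := onCell 536870912 536870912 1073741824 536870912 991146299 28908434
    (rowB 3 eng mog cd1q1 cd3q0 pd2 1 true true false .npp 1 0 2 (qsf 536870912 536870912 0 536870912 2) ndB1q1 ndB3q0 pcB2 Cut.none xt_pm_102)

def k0_pm_102 : ∃ t, chk3 f_pm_102 t 2 1 1 = true :=
  ⟨(b (b (b (b (l 3) (b (a (a (l 3) (l 3)) (l 3)) (a (a (l 16260576) (l 16087848)) (a (l 16139808) (l 16088064))))) (a (b (a (b (l 16285864) (l 2)) (b (l 16186808) (l 16166952))) (a (l 2) (b (l 16144480) (l 16115616)))) (b (a (b (l 16085440) (l 16079936)) (b (l 15919936) (l 16012928))) (a (b (l 16049344) (l 16005688)) (b (l 15974856) (l 15916640)))))) (a (b (b (b (a (l 2) (l 16087744)) (l 2)) (l 2)) (l 2)) (b (b (b (a (l 15960488) (l 15854240)) (a (l 15743880) (b (l 15806304) (l 15769504)))) (a (l 15860608) (l 15708872))) (a (l 15799872) (l 15455528))))) (b (a (l 2) (a (l 2) (b (l 15488112) (l 2)))) (l 2))), by decide +kernel⟩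

def k1_pm_102 : ∃ t, chk3 f_pm_102 t 3 2 1 = true :=
  ⟨(b (b (b (l 3) (b (a (l 3) (l 3)) (b (a (a (l 3) (l 3)) (l 3)) (a (a (l 16042848) (l 15988176)) (a (a (l 16033144) (l 16040904)) (a (l 16053232) (a (c (l 138157242251231343) (l 139410273344847983)) (a (l 138217096955035759) (b (l 108076987943) (l 15934872)))))))))) (a (b (a (b (c (l 15973216) (l 16039784)) (l 15967000)) (b (b (l 15999392) (l 15974824)) (l 15942992))) (a (b (l 15921552) (l 15848816)) (b (l 15889712) (l 15802208)))) (a (b (b (a (l 15964920) (b (l 16005632) (l 15978632))) (a (l 15939528) (l 15944920))) (b (a (l 15880464) (l 15880880)) (l 15776456))) (b (a (b (c (l 15965216) (l 16043360)) (l 15957160)) (b (a (b (a (l 16027104) (l 137926963306414191)) (l 16003744)) (b (a (l 137826632858550383) (c (l 15970440) (l 16048848))) (a (l 137542546513313903) (c (l 15944504) (l 16048464))))) (a (l 15971544) (a (l 15981216) (b (l 15891968) (l 15977248)))))) (b (a (l 15886752) (l 15898160)) (a (l 15770488)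 (l 15773768))))))) (a (b (b (b (a (l 15769416) (l 15706080)) (a (b (l 15707712) (l 15660208)) (b (l 15630936) (l 15552232)))) (a (l 15579376) (l 15472552))) (a (b (l 15474056) (l 15380784)) (b (l 15336552) (l 15210984)))) (b (b (a (b (l 15663960) (b (l 15575792) (b (l 15528392) (l 15492216)))) (b (a (l 15645952) (l 15641216)) (b (l 15542496) (a (l 15474472) (l 15291768))))) (a (l 15157864) (a (l 15340152) (l 15315936)))) (a (b (l 15221760) (l 15063440)) (a (b (l 15150016) (l 14966616)) (b (l 15109752) (l 14909032))))))), by decide +kernel⟩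

def k2_pm_102 : ∃ t, chk3 f_pm_102 t 3 3 1 = true :=
  ⟨(b (a (b (a (l 15057712) (b (l 15097608) (l 14998048))) (a (b (l 15187456) (l 2)) (b (l 14913544) (l 14855056)))) (b (a (b (l 14915728) (c (l 14771912) (l 14790168))) (a (c (l 14684888) (l 14725520)) (c (l 14613856) (l 14650408)))) (a (b (c (l 14671992) (l 14676056)) (l 14581376)) (b (c (l 14470240) (l 14457328)) (c (l 14357640) (l 14321888)))))) (a (b (a (l 2) (c (l 14807672) (l 14795824))) (l 2)) (b (a (b (l 14506968) (l 14427680)) (c (b (l 14258856) (l 14175976)) (l 14144552))) (a (c (l 14432288) (l 14360448)) (c (l 14338304) (l 13966032)))))), by decide +kernel⟩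

theorem s3_pm_102 : ∃ t, chk3 f_pm_102 t 3 1 1 = true := ex3_b k1_pm_102 k2_pm_102

theorem s4_pm_102 : ∃ t, chk3 f_pm_102 t 1 1 1 = true := ex3_a k0_pm_102 s3_pm_102

theorem c_pm_102 : CertB 536870912 536870912 0 536870912 991146299 28908434 3 eng mog cd1q1 cd3q0 pd2 true true false .npp 1 0 2
    ndB1q1 ndB3q0 pcB2 Cut.none xt_pm_102 :=
  certB1 (fam := true) (s1 := true) (s2 := false) (a := 1) (b := 0) (c := 2) (cn := .npp) (n1 := ndB1q1) (n2 := ndB3q0) (pc := pcB2) (cut := Cut.none) (xt := xt_pm_102) (P1 := 536870912) (W1 := 536870912) (P2 := 0) (W2 := 536870912) (P3 := 991146299) (W3 := 28908434) (N0 := 3) (En := eng) (mo := mog) (C1 := cd1q1) (C2 := cd3q0) (C3 := pd2)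
    rfl (fun _ => rfl) s4_pm_102

noncomputable def f_pm_112 : ℕ → ℕ → ℕ → ℕ → Bool := onCell 536870912 536870912 1073741824 536870912 991146299 28908434
    (rowB 3 eng mog cd1q1 cd3q1 pd2 1 true true false .dn 1 1 2 (qsf 536870912 536870912 536870912 536870912 2) ndB1q1 ndB3q1 pcB2 Cut.none Ext.none)

def k0_pm_112 : ∃ t, chk3 f_pm_112 t 1 1 1 = true :=
  ⟨(a (b (b (b (a (b (l 3) (a (b (l 3) (l 15994664)) (b (l 1) (l 15977432)))) (l 1)) (a (b (a (b (l 16047552) (l 16114096)) (b (l 16086296) (l 16152776))) (a (l 16156128) (l 16134752))) (b (l 1) (a (l 16296552) (l 1))))) (b (a (b (b (l 16048584) (a (l 16078392) (l 16092472))) (a (l 16076832) (l 16108464))) (b (b (l 16146680) (a (l 16226512) (l 1))) (a (l 16196672) (l 16228120)))) (a (a (l 16069200) (l 16093832)) (a (l 16172920) (l 16135648))))) (b (a (b (a (l 16010016) (l 16025256)) (a (l 15786464) (l 15854416))) (b (a (l 16064712) (l 15976544)) (a (l 15851696) (l 15785024)))) (a (b (a (l 15493840) (l 15591608))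 (a (l 15190640) (l 15312176))) (b (a (l 15613560) (l 15570368)) (a (l 15357768) (l 15338304)))))) (b (b (l 1) (a (b (l 1) (a (l 15949760) (l 1))) (l 1))) (b (a (b (a (l 15813856) (l 15569216)) (a (l 15435272) (c (l 15423624) (l 15433912)))) (b (l 1) (a (b (l 1) (l 15104832)) (l 1)))) (a (b (a (l 15273144) (l 15190552)) (a (l 15256680) (l 15099496))) (b (a (c (l 15022648) (l 14988376)) (c (l 14699184) (l 14631144))) (a (l 14748216) (c (l 14575528) (l 14467240)))))))), by decide +kernel⟩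

theorem c_pm_112 : CertB 536870912 536870912 536870912 536870912 991146299 28908434 3 eng mog cd1q1 cd3q1 pd2 true true false .dn 1 1 2
    ndB1q1 ndB3q1 pcB2 Cut.none Ext.none :=
  certB1 (fam := true) (s1 := true) (s2 := false) (a := 1) (b := 1) (c := 2) (cn := .dn) (n1 := ndB1q1) (n2 := ndB3q1) (pc := pcB2) (cut := Cut.none) (xt := Ext.none) (P1 := 536870912) (W1 := 536870912) (P2 := 536870912) (W2 := 536870912) (P3 := 991146299) (W3 := 28908434) (N0 := 3) (En := eng) (mo := mog) (C1 := cd1q1) (C2 := cd3q1) (C3 := pd2)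
    rfl (fun _ => rfl) k0_pm_112

noncomputable def f_pm_113 : ℕ → ℕ → ℕ → ℕ → Bool := onCell 536870912 536870912 1610612736 536870912 991146299 28908434
    (rowB 3 eng mog cd1q1 cd3q1 pd3 1 true true false .nn 1 1 3 (qsf 536870912 536870912 536870912 536870912 3) ndB1q1 ndB3q1 pcB3 Cut.none Ext.none)

def k0_pm_113 : ∃ t, chk3 f_pm_113 t 1 1 1 = true :=
  ⟨(a (b (b (a (b (a (b (l 14524560) (l 14564520)) (c (l 14936536) (l 14818008))) (a (c (l 14332160) (l 14134048)) (c (l 14584496) (l 14438760)))) (b (a (l 14995200) (l 15093608)) (a (l 14693984) (l 14795880)))) (a (b (a (l 2) (l 13909432)) (l 2)) (b (a (l 14241016) (l 14481784)) (a (l 13870648) (l 14108528))))) (a (l 2) (b (b (a (l 2) (l 13641832)) (l 2)) (l 2)))) (b (b (a (b (a (l 15113496) (l 15064184)) (a (l 14850056) (l 14847400))) (b (a (l 14934048) (l 14732712)) (a (l 14766208) (l 14602336)))) (a (b (a (l 14574048) (l 14628408)) (a (l 14278568) (l 14405696))) (b (a (l 14616872) (l 14513912)) (a (l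 14500608) (b (l 14497824) (l 14529928)))))) (a (b (b (a (b (l 14022280) (l 13812536)) (b (l 14231064) (l 14104608))) (b (a (l 13580216) (l 13956856)) (a (l 2) (l 13809200)))) (a (l 2) (a (l 2) (l 4)))) (b (b (a (b (l 14438824) (l 14422488)) (b (l 14600968) (l 14690024))) (b (a (l 14411264) (l 14808800)) (a (l 14412040) (l 4)))) (l 4))))), by decide +kernel⟩

theorem c_pm_113 : CertB 536870912 536870912 536870912 536870912 991146299 28908434 3 eng mog cd1q1 cd3q1 pd3 true true false .nn 1 1 3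
    ndB1q1 ndB3q1 pcB3 Cut.none Ext.none :=
  certB1 (fam := true) (s1 := true) (s2 := false) (a := 1) (b := 1) (c := 3) (cn := .nn) (n1 := ndB1q1) (n2 := ndB3q1) (pc := pcB3) (cut := Cut.none) (xt := Ext.none) (P1 := 536870912) (W1 := 536870912) (P2 := 536870912) (W2 := 536870912) (P3 := 991146299) (W3 := 28908434) (N0 := 3) (En := eng) (mo := mog) (C1 := cd1q1) (C2 := cd3q1) (C3 := pd3)
    rfl (fun _ => rfl) k0_pm_113

noncomputable def f_pm_123 : ℕ → ℕ → ℕ → ℕ → Bool := onCell 1610612736 536870912 1073741824 536870912 991146299 28908434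
    (rowB 3 eng mog cd1q1 cd3q2 pd3 2 true true false .npn 1 2 3 (qsf 536870912 536870912 1073741824 536870912 3) ndB1q1 ndB3q2 pcB3 Cut.none Ext.none)

def k0_pm_123 : ∃ t, chk3 f_pm_123 t 2 1 1 = true :=
  ⟨(b (a (b (a (b (c (a (l 16115464) (l 16031304)) (l 15877032)) (c (a (l 1) (l 15979408)) (l 15932160))) (b (c (a (l 15944376) (l 15857288)) (a (l 16051088) (l 15957944))) (a (c (l 15903808) (l 16005912)) (c (l 15713776) (l 15935072))))) (a (l 1) (b (a (l 1) (l 15748376)) (l 1)))) (b (a (b (a (c (l 15583168) (l 15863744)) (b (l 15590056) (l 15647368))) (a (b (l 15742944) (l 15825872)) (l 15634968))) (b (a (b (c (l 15610848) (l 15672600)) (l 15697672)) (b (l 15584224) (l 15659296))) (c (l 15563192) (l 15650272)))) (a (b (c (l 15767816) (l 15784856)) (a (l 1) (l 15755744))) (b (a (l 15753184) (l 15737504)) (a (l 15732960) (l 15719760)))))) (a (l 1) (b (a (l 1) (b (l 15618472) (l 1))) (l 1)))), by decide +kernel⟩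

def k1_pm_123 : ∃ t, chk3 f_pm_123 t 3 1 1 = true :=
  ⟨(b (a (b (a (b (b (a (l 15549864) (l 15544856)) (a (l 15638160) (l 15640952))) (a (l 15711928) (l 15724544))) (b (b (a (l 15580728) (l 15678568)) (l 15710664)) (a (l 15765088) (l 15841968)))) (a (b (a (l 15736192) (l 15753360)) (l 15724288)) (b (l 15824504) (l 15790488)))) (b (a (a (b (b (l 15875088) (l 15901104)) (l 15965936)) (b (b (l 16240520) (l 16131152)) (a (l 16097664) (l 16207768)))) (b (a (a (l 16458536) (b (l 16713720) (l 16567296))) (a (b (a (l 16680592) (l 16664080)) (l 16654712)) (a (b (l 16610184) (l 16738016)) (a (l 16632400) (l 4))))) (a (a (l 16336352) (b (l 16498712) (l 16447024))) (a (l 16536184) (l 4))))) (a (a (b (l 15965984) (l 15891080)) (b (a (l 16067096) (l 16142408)) (a (l 15940616) (l 15978672)))) (b (a (a (l 16213088) (l 16270008)) (a (l 16352224) (l 4))) (a (a (l 16025976) (l 16080352)) (l 4)))))) (a (a (b (b (l 15695432) (l 15677616)) (l 1)) (b (a (l 15704496) (b (l 15754896)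 (l 15699984))) (a (l 1) (b (l 15666400) (l 1))))) (b (a (a (b (l 15784152) (l 15689512)) (b (l 15813048) (l 15694768))) (a (b (l 15860216) (l 4)) (l 4))) (a (a (b (l 15617584) (l 1)) (b (l 15618984) (l 15591136))) (l 4))))), by decide +kernel⟩

theorem s2_pm_123 : ∃ t, chk3 f_pm_123 t 1 1 1 = true := ex3_a k0_pm_123 k1_pm_123

theorem c_pm_123 : CertB 536870912 536870912 1073741824 536870912 991146299 28908434 3 eng mog cd1q1 cd3q2 pd3 true true false .npn 1 2 3
    ndB1q1 ndB3q2 pcB3 Cut.none Ext.none :=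
  certB2 (fam := true) (s1 := true) (s2 := false) (a := 1) (b := 2) (c := 3) (cn := .npn) (n1 := ndB1q1) (n2 := ndB3q2) (pc := pcB3) (cut := Cut.none) (xt := Ext.none) (P1 := 536870912) (W1 := 536870912) (P2 := 1073741824) (W2 := 536870912) (P3 := 991146299) (W3 := 28908434) (N0 := 3) (En := eng) (mo := mog) (C1 := cd1q1) (C2 := cd3q2) (C3 := pd3)
    rfl (fun _ => rfl) s2_pm_123

noncomputable def f_pm_133 : ℕ → ℕ → ℕ → ℕ → Bool := onCell 536870912 536870912 0 1230186008 991146299 28908434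
    (rowB 3 eng mog cd1q1 cd3q3 pd3 0 true true false .dn 1 3 3 (qsf 536870912 536870912 0 1230186008 3) ndB1q1 ndB3q3 pcB3 Cut.none Ext.none)

def k0_pm_133 : ∃ t, chk3 f_pm_133 t 1 1 1 = true :=
  ⟨(b (l 2) (b (l 2) (l 4))), by decide +kernel⟩

theorem c_pm_133 : CertB 536870912 536870912 0 1230186008 991146299 28908434 3 eng mog cd1q1 cd3q3 pd3 true true false .dn 1 3 3
    ndB1q1 ndB3q3 pcB3 Cut.none Ext.none :=
  certB0 (fam := true) (s1 := true) (s2 := false) (a := 1) (b := 3) (c := 3) (cn := .dn) (n1 := ndB1q1) (n2 := ndB3q3) (pc := pcB3) (cut := Cut.none) (xt := Ext.none) (P1 := 536870912) (W1 := 536870912) (P2 := 0) (W2 := 1230186008) (P3 := 991146299) (W3 := 28908434) (N0 := 3) (En := eng) (mo := mog) (C1 := cd1q1) (C2 := cd3q3) (C3 := pd3)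
    rfl k0_pm_133

noncomputable def f_pm_202_a : ℕ → ℕ → ℕ → ℕ → Bool := onCell 0 536870912 0 536870912 991146299 28908434
    (rowB 3 eng mog cd1q2a cd3q0 pd2 0 true true false .pp 2 0 2 (qsf 0 536870912 0 536870912 2) ndB1q2a ndB3q0 pcB2 Cut.none Ext.none)

def k0_pm_202_a : ∃ t, chk3 f_pm_202_a t 4 1 1 = true :=
  ⟨(b (b (b (b (b (a (l 16395512) (l 16303424)) (c (l 16368752) (l 16375496))) (b (b (l 16232712) (b (l 16162512) (l 16125592))) (c (l 16034376) (l 15971296)))) (b (b (c (l 15990040) (l 15952128)) (b (l 15897928) (l 15837056))) (a (b (l 15714824) (l 15601128)) (l 15706416)))) (b (b (a (b (a (l 15527000) (l 15491920)) (l 15471424)) (c (l 15539032) (l 15404904))) (a (c (l 15542264) (l 15412456)) (b (a (l 15338168) (l 15310208)) (c (l 15373496) (l 15207872))))) (b (c (a (l 15594600) (l 15392240)) (a (l 15492696) (l 15242104))) (a (l 15500560) (c (l 15467504) (l 15351888)))))) (b (b (b (a (c (l 15843640) (l 15838504)) (c (l 15589728) (l 15521768)))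 (a (c (l 15969128) (b (l 15993648) (l 16056224))) (c (l 15750912) (l 15741800)))) (b (a (b (l 16047744) (l 4)) (c (l 15892640) (b (l 15912808) (l 15987272)))) (a (l 4) (b (l 15989200) (l 2))))) (l 2))), by decide +kernel⟩

def k1_pm_202_a : ∃ t, chk3 f_pm_202_a t 5 1 1 = true :=
  ⟨(a (b (b (b (b (b (l 16197120) (l 16339880)) (b (b (l 16288600) (l 16181416)) (b (l 16153064) (l 16110024)))) (b (b (c (l 16047360) (l 16040224)) (b (l 15975904) (l 15918096))) (l 15768520))) (b (b (l 15529424) (c (l 15376192) (l 15223376))) (c (b (b (l 15248792) (l 15203560)) (l 15223432)) (b (b (l 15069064) (l 15017152)) (l 15052672))))) (b (b (b (c (l 15311664) (l 15178968)) (c (l 15446368) (l 15364536))) (b (c (l 15617736) (l 15597064)) (c (l 15656192) (a (l 15917120) (l 15750800))))) (l 2))) (b (b (b (b (b (a (l 16268912) (l 16240176)) (l 16211840)) (b (b (l 16329856) (b (l 16262256) (l 16227856))) (b (l 16177136) (l 16157952)))) (b (b (c (l 16087032) (l 16104920)) (b (l 16031672)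 (l 15975680))) (c (l 15845240) (l 15814648)))) (b (b (l 15595552) (l 15363864)) (b (l 15138760) (a (b (l 14981072) (l 14945656)) (l 14947776))))) (b (b (b (a (l 15003704) (b (l 14843816) (l 14860576))) (c (l 15116448) (l 14960744))) (b (c (l 15258592) (l 15154920)) (c (l 15436592) (l 15394504)))) (b (b (a (l 2) (l 15497816)) (l 2)) (l 2))))), by decide +kernel⟩

def k2_pm_202_a : ∃ t, chk3 f_pm_202_a t 6 2 1 = true :=
  ⟨(b (a (b (b (b (a (l 16218952) (a (l 16282256) (l 16278792))) (c (l 16464432) (l 16524392))) (b (b (l 16256176) (c (l 16250856) (l 16303472))) (b (a (l 16225288) (l 16238272)) (l 16007168)))) (b (b (c (l 16116656) (l 16160512)) (b (l 16078216) (l 16024008))) (c (l 15881648) (l 15882584)))) (c (b (b (b (a (l 16492672) (l 16527104)) (a (l 16468456) (l 16441536))) (b (b (l 16335104) (l 16125600)) (b (l 16210104) (l 16176984)))) (b (b (b (l 16143624) (l 16110272)) (l 16050408)) (l 15898248))) (b (b (b (a (l 16400000) (l 16431192)) (l 16393360))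 (b (b (l 16406936) (l 16238592)) (b (l 16282992) (l 16249536)))) (b (b (l 16068976) (l 16086656)) (l 15930448))))) (b (a (b (c (l 15671344) (l 15632048)) (c (l 15462672) (l 15381600))) (b (c (l 15690168) (l 15686192)) (c (l 15482168) (l 15439656)))) (a (b (l 15219016) (l 14982144)) (b (c (l 15277992) (l 15195504)) (c (l 15080920) (l 14957912)))))), by decide +kernel⟩

def k3_pm_202_a : ∃ t, chk3 f_pm_202_a t 14 2 1 = true :=
  ⟨(c (b (b (b (b (a (l 16493504) (b (l 16593712) (l 16530080))) (a (b (l 16490912) (l 16403344)) (l 16294880))) (b (b (l 16134504) (b (l 16234496) (l 16159880))) (b (a (l 16190728) (l 16164112)) (l 16023248)))) (b (b (b (l 16118808) (l 16088448)) (b (l 16055776) (l 16008728))) (a (l 15890672) (l 15872848)))) (b (b (l 15677544) (l 15470344)) (a (l 15172848) (l 15156440)))) (b (b (b (b (a (l 16457544) (l 16480752)) (a (l 16464200) (l 16376720))) (b (b (l 16280664) (b (l 16318328) (l 16287176))) (b (l 16142184) (l 16198032)))) (b (b (b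 (l 16209288) (l 16176864)) (b (l 16140488) (l 16087216))) (a (l 15944600) (l 15940064)))) (b (b (l 15707056) (l 15465144)) (b (l 15223328) (l 14985992))))), by decide +kernel⟩

def k4_pm_202_a : ∃ t, chk3 f_pm_202_a t 15 2 1 = true :=
  ⟨(b (b (b (b (a (b (a (l 16474864) (b (l 16492080) (l 16492592))) (c (l 16427600) (l 16502648))) (c (a (b (b (l 16595104) (l 16544080)) (l 16451920)) (b (a (l 16564392) (l 16537392)) (a (l 16458056) (l 16452696)))) (b (a (l 16529968) (l 16534816)) (a (l 16501528) (a (l 16525952) (l 16517288)))))) (a (c (b (l 16403624) (l 16335904)) (l 16252104)) (a (c (l 16171952) (l 16355888)) (c (b (a (l 16360032) (l 16347128)) (l 16262064)) (b (l 16385752) (l 16341312)))))) (b (b (a (c (l 16245632) (l 16332032)) (c (a (l 16204184) (l 16170920)) (l 16231264))) (c (a (b (l 16177000) (l 16144576)) (b (l 16118840) (l 16044688))) (a (b (l 16265424) (l 16235552)) (b (l 16207048) (l 16178120))))) (c (a (b (l 16123856) (l 16096800)) (b (c (l 16044240)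 (l 16091280)) (c (l 15997136) (l 16067592)))) (a (b (l 16220096) (l 16196776)) (b (l 16102528) (l 16145640)))))) (b (b (c (a (b (l 16069256) (l 16041552)) (b (l 16017120) (l 15991416))) (a (b (l 16170528) (l 16142336)) (b (l 16122704) (l 16097672)))) (c (a (b (l 16011288) (l 15965576)) (b (l 15962984) (l 15918304))) (a (l 16063528) (b (l 16068056) (l 16019320))))) (c (a (l 15842360) (b (l 15846008) (l 15747344))) (a (l 15921288) (l 15864536))))) (b (b (c (a (l 15639264) (l 15595984)) (a (l 15690800) (l 15660072))) (c (a (l 15433192) (l 15390976)) (a (l 15453344) (l 15426160)))) (c (b (l 15208808) (a (l 15028792) (l 14986496))) (b (l 15203480) (l 14967648))))), by decide +kernel⟩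

def k5_pm_202_a : ∃ t, chk3 f_pm_202_a t 3 3 1 = true :=
  ⟨(b (a (b (a (b (a (b (l 14815664) (l 14747672)) (l 14789272)) (a (b (l 14732536) (l 14784360)) (b (l 14656664) (l 14613904)))) (b (l 14855088) (l 14619664))) (a (b (c (l 14668936) (a (l 14806600) (l 14577976))) (c (l 15018776) (l 14882944))) (b (a (b (l 14507216) (b (l 14481856) (l 14497424))) (l 14448944)) (a (l 14462016) (b (l 14365344) (l 14272536)))))) (b (a (b (c (l 14877088) (l 14757080)) (c (l 14699448) (l 14540184))) (c (b (l 14942992) (l 14636864)) (a (l 14638416) (l 14614656)))) (a (c (a (l 14479152) (l 14449984)) (b (l 14338632) (l 14146104))) (c (b (l 14470840) (l 14321744)) (a (l 14230936) (l 14183928)))))) (a (b (a (b (c (l 15200712) (l 15103992)) (l 2)) (b (c (l 14721296) (l 14352000)) (c (l 14904336) (l 14570848)))) (l 2)) (b (a (b (a (b (a (l 14256120) (l 14185080)) (l 14262056)) (c (l 14263688) (l 14006344))) (a (c (l 14503136) (l 14292128)) (b (a (l 14130872) (l 14042136)) (l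 14141848)))) (a (b (l 14095768) (c (l 14122128) (l 13849056))) (b (l 14057176) (l 13930792)))) (a (b (a (l 14364552) (c (l 14400528) (l 14180200))) (l 2)) (c (b (a (b (l 14099544) (l 14150016)) (l 13987168)) (a (l 14291392) (a (l 14061264) (l 13948232)))) (b (a (b (l 13814832) (l 13877232)) (l 13696344)) (a (l 14055936) (a (l 13773920) (l 13786480))))))))), by decide +kernel⟩

theorem s6_pm_202_a : ∃ t, chk3 f_pm_202_a t 7 2 1 = true := ex3_a k3_pm_202_a k4_pm_202_a

theorem s7_pm_202_a : ∃ t, chk3 f_pm_202_a t 3 2 1 = true := ex3_a k2_pm_202_a s6_pm_202_a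

theorem s8_pm_202_a : ∃ t, chk3 f_pm_202_a t 3 1 1 = true := ex3_b s7_pm_202_a k5_pm_202_a

theorem s9_pm_202_a : ∃ t, chk3 f_pm_202_a t 2 1 1 = true := ex3_a k0_pm_202_a k1_pm_202_a

theorem s10_pm_202_a : ∃ t, chk3 f_pm_202_a t 1 1 1 = true := ex3_a s9_pm_202_a s8_pm_202_a

theorem c_pm_202_a : CertB 0 536870912 0 536870912 991146299 28908434 3 eng mog cd1q2a cd3q0 pd2 true true false .pp 2 0 2
    ndB1q2a ndB3q0 pcB2 Cut.none Ext.none :=
  certB0 (fam := true) (s1 := true) (s2 := false) (a := 2) (b := 0) (c := 2) (cn := .pp) (n1 := ndB1q2a) (n2 := ndB3q0) (pc := pcB2) (cut := Cut.none) (xt := Ext.none) (P1 := 0) (W1 := 536870912) (P2 := 0) (W2 := 536870912) (P3 := 991146299) (W3 := 28908434) (N0 := 3) (En := eng) (mo := mog) (C1 := cd1q2a) (C2 := cd3q0) (C3 := pd2)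
    rfl s10_pm_202_a

noncomputable def f_pm_202_b : ℕ → ℕ → ℕ → ℕ → Bool := onCell 1073741824 536870912 0 536870912 991146299 28908434
    (rowB 3 eng mog cd1q2b cd3q0 pd2 2 true true false .pp 2 0 2 (qsf 1239849684 370763052 0 536870912 2) ndB1q2b ndB3q0 pcB2 Cut.none Ext.none)

def k0_pm_202_b : ∃ t, chk3 f_pm_202_b t 2 1 1 = true :=
  ⟨(b (a (l 1) (b (a (b (b (a (b (l 16157792) (l 1)) (c (l 16388560) (l 16328480))) (b (b (c (l 16138528) (l 543345900695)) (l 1)) (l 1))) (l 1)) (b (b (a (c (l 16293456) (l 16254344)) (b (l 16164960) (l 16073056))) (b (b (a (l 16140448) (l 15997016)) (c (l 15981512) (l 15777664))) (c (a (l 16070864) (l 15954408)) (a (l 16044328) (l 15881304))))) (b (b (c (l 353829387479) (l 347386846439)) (c (l 339870662391) (l 331817511191))) (a (l 1) (l 15709576))))) (l 1))) (l 1)), by decide +kernel⟩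

def k1_pm_202_b : ∃ t, chk3 f_pm_202_b t 3 1 1 = true :=
  ⟨(b (a (b (a (b (b (c (l 15921712) (l 15596968)) (b (b (l 15579928) (c (l 15815800) (l 15673880))) (c (l 15786336) (l 15647472)))) (b (b (c (l 15755288) (l 15617608)) (a (l 15630080) (c (l 15674600) (l 15515968)))) (a (a (l 15660424) (l 15611696)) (a (l 15578408) (l 15566896))))) (b (b (c (l 15712904) (l 15507704)) (b (b (l 15462568) (a (l 15554776) (l 15442360))) (a (l 15529032) (c (l 15565112) (l 15340416))))) (b (a (b (c (l 15618504) (l 15424048)) (c (l 15634528) (l 15451872))) (b (l 15504296) (l 15558512))) (a (l 15570800) (l 15610064))))) (a (b (a (c (l 15581352) (l 15423512)) (c (l 15595816) (l 15481464))) (l 1)) (b (a (c (l 15644040) (l 15521624)) (c (l 15723456) (l 15604000))) (a (c (l 15546480) (l 15473536)) (c (l 15675800) (l 15611808)))))) (b (a (c (b (b (a (l 15549208) (l 15492808)) (b (a (l 15531560) (l 15578632)) (l 15614904))) (b (b (l 15681984) (l 15741808)) (l 15808816))) (b (b (a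 (l 15302424) (l 15173440)) (b (a (l 15286096) (l 15347992)) (l 15398800))) (b (a (l 15485184) (l 15579184)) (l 15663144)))) (b (b (a (l 15220976) (l 15421128)) (b (a (b (l 15535728) (l 15580776)) (l 15636944)) (a (l 15650760) (l 15780528)))) (b (c (a (l 15853720) (l 15974224)) (a (l 15708176) (l 15865544))) (a (l 15928568) (l 16084672))))) (a (a (b (c (l 15831168) (l 15725000)) (c (l 15831120) (l 15785408))) (b (l 15796592) (l 15894752))) (a (b (l 15986072) (a (l 16157632) (l 16258744))) (b (l 16192008) (c (l 16349168) (l 16382312))))))) (b (a (l 1) (b (a (a (c (l 15728536) (l 15738160)) (c (l 15933208) (l 190620974871))) (a (b (l 15966344) (l 4)) (l 4))) (a (l 1) (l 4)))) (l 1))), by decide +kernel⟩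

theorem s2_pm_202_b : ∃ t, chk3 f_pm_202_b t 1 1 1 = true := ex3_a k0_pm_202_b k1_pm_202_b

theorem c_pm_202_b : CertB 1239849684 370763052 0 536870912 991146299 28908434 3 eng mog cd1q2b cd3q0 pd2 true true false .pp 2 0 2
    ndB1q2b ndB3q0 pcB2 Cut.none Ext.none :=
  certB2 (fam := true) (s1 := true) (s2 := false) (a := 2) (b := 0) (c := 2) (cn := .pp) (n1 := ndB1q2b) (n2 := ndB3q0) (pc := pcB2) (cut := Cut.none) (xt := Ext.none) (P1 := 1239849684) (W1 := 370763052) (P2 := 0) (W2 := 536870912) (P3 := 991146299) (W3 := 28908434) (N0 := 3) (En := eng) (mo := mog) (C1 := cd1q2b) (C2 := cd3q0) (C3 := pd2)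
    rfl (fun _ => rfl) s2_pm_202_b

noncomputable def f_pm_203_a : ℕ → ℕ → ℕ → ℕ → Bool := onCell 0 536870912 1610612736 536870912 991146299 28908434
    (rowB 3 eng mog cd1q2a cd3q0 pd3 1 true true false .up 2 0 3 (qsf 0 536870912 0 536870912 3) ndB1q2a ndB3q0 pcB3 Cut.none Ext.none)

def k0_pm_203_a : ∃ t, chk3 f_pm_203_a t 1 1 1 = true :=
  ⟨(b (b (a (b (a (l 4) (b (l 15822616) (l 15862920))) (l 4)) (b (a (b (l 15416792) (l 15447224)) (a (l 15040424) (l 14692896))) (a (b (l 15594136) (l 15655488)) (b (l 14910920) (l 2))))) (a (l 4) (a (l 2) (l 2)))) (l 2)), by decide +kernel⟩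

theorem c_pm_203_a : CertB 0 536870912 0 536870912 991146299 28908434 3 eng mog cd1q2a cd3q0 pd3 true true false .up 2 0 3
    ndB1q2a ndB3q0 pcB3 Cut.none Ext.none :=
  certB1 (fam := true) (s1 := true) (s2 := false) (a := 2) (b := 0) (c := 3) (cn := .up) (n1 := ndB1q2a) (n2 := ndB3q0) (pc := pcB3) (cut := Cut.none) (xt := Ext.none) (P1 := 0) (W1 := 536870912) (P2 := 0) (W2 := 536870912) (P3 := 991146299) (W3 := 28908434) (N0 := 3) (En := eng) (mo := mog) (C1 := cd1q2a) (C2 := cd3q0) (C3 := pd3)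
    rfl (fun _ => rfl) k0_pm_203_a

noncomputable def f_pm_203_b : ℕ → ℕ → ℕ → ℕ → Bool := onCell 1610612736 536870912 0 536870912 991146299 28908434
    (rowB 3 eng mog cd1q2b cd3q0 pd3 2 true true false .up 2 0 3 (qsf 1239849684 370763052 0 536870912 3) ndB1q2b ndB3q0 pcB3 Cut.none Ext.none)

def k0_pm_203_b : ∃ t, chk3 f_pm_203_b t 1 1 1 = true :=
  ⟨(a (b (a (b (a (b (b (l 15549032) (b (l 15889392) (l 15958992))) (b (l 16011432) (l 16154600))) (b (b (l 2) (b (l 2) (l 15737664))) (b (b (l 15781392) (l 15842288)) (l 4)))) (a (b (l 16214168) (l 4)) (l 4))) (b (b (l 2) (l 4)) (l 4))) (l 4)) (l 4)), by decide +kernel⟩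

theorem c_pm_203_b : CertB 1239849684 370763052 0 536870912 991146299 28908434 3 eng mog cd1q2b cd3q0 pd3 true true false .up 2 0 3
    ndB1q2b ndB3q0 pcB3 Cut.none Ext.none :=
  certB2 (fam := true) (s1 := true) (s2 := false) (a := 2) (b := 0) (c := 3) (cn := .up) (n1 := ndB1q2b) (n2 := ndB3q0) (pc := pcB3) (cut := Cut.none) (xt := Ext.none) (P1 := 1239849684) (W1 := 370763052) (P2 := 0) (W2 := 536870912) (P3 := 991146299) (W3 := 28908434) (N0 := 3) (En := eng) (mo := mog) (C1 := cd1q2b) (C2 := cd3q0) (C3 := pd3)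
    rfl (fun _ => rfl) k0_pm_203_b

noncomputable def f_pm_213_a : ℕ → ℕ → ℕ → ℕ → Bool := onCell 0 536870912 1610612736 536870912 991146299 28908434
    (rowB 3 eng mog cd1q2a cd3q1 pd3 1 true true false .pnn 2 1 3 (qsf 0 536870912 536870912 536870912 3) ndB1q2a ndB3q1 pcB3 Cut.none Ext.none)

def k0_pm_213_a : ∃ t, chk3 f_pm_213_a t 1 1 1 = true :=
  ⟨(b (b (a (b (l 1) (l 4)) (b (a (l 1) (a (l 15448216) (l 15127488))) (a (b (l 15908600) (l 15998488)) (a (b (l 15587656) (l 15669728)) (l 15271736))))) (a (l 4) (b (a (l 4) (b (a (l 15702928) (l 15360720)) (l 4))) (l 4)))) (l 4)), by decide +kernel⟩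

theorem c_pm_213_a : CertB 0 536870912 536870912 536870912 991146299 28908434 3 eng mog cd1q2a cd3q1 pd3 true true false .pnn 2 1 3
    ndB1q2a ndB3q1 pcB3 Cut.none Ext.none :=
  certB1 (fam := true) (s1 := true) (s2 := false) (a := 2) (b := 1) (c := 3) (cn := .pnn) (n1 := ndB1q2a) (n2 := ndB3q1) (pc := pcB3) (cut := Cut.none) (xt := Ext.none) (P1 := 0) (W1 := 536870912) (P2 := 536870912) (W2 := 536870912) (P3 := 991146299) (W3 := 28908434) (N0 := 3) (En := eng) (mo := mog) (C1 := cd1q2a) (C2 := cd3q1) (C3 := pd3)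
    rfl (fun _ => rfl) k0_pm_213_a

noncomputable def f_pm_213_b : ℕ → ℕ → ℕ → ℕ → Bool := onCell 1239849684 370763052 536870912 536870912 991146299 28908434
    (rowB 3 eng mog cd1q2b cd3q1 pd3 0 true true false .pnn 2 1 3 (qsf 1239849684 370763052 536870912 536870912 3) ndB1q2b ndB3q1 pcB3 Cut.none Ext.none)

def k0_pm_213_b : ∃ t, chk3 f_pm_213_b t 1 1 1 = true :=
  ⟨(l 4), by decide +kernel⟩

theorem c_pm_213_b : CertB 1239849684 370763052 536870912 536870912 991146299 28908434 3 eng mog cd1q2b cd3q1 pd3 true true false .pnn 2 1 3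
    ndB1q2b ndB3q1 pcB3 Cut.none Ext.none :=
  certB0 (fam := true) (s1 := true) (s2 := false) (a := 2) (b := 1) (c := 3) (cn := .pnn) (n1 := ndB1q2b) (n2 := ndB3q1) (pc := pcB3) (cut := Cut.none) (xt := Ext.none) (P1 := 1239849684) (W1 := 370763052) (P2 := 536870912) (W2 := 536870912) (P3 := 991146299) (W3 := 28908434) (N0 := 3) (En := eng) (mo := mog) (C1 := cd1q2b) (C2 := cd3q1) (C3 := pd3)
    rfl k0_pm_213_b

noncomputable def f_pm_303 : ℕ → ℕ → ℕ → ℕ → Bool := onCell 1610612736 536870912 0 536870912 991146299 28908434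
    (rowB 3 eng mog cd1q3 cd3q0 pd3 2 true true false .npn 3 0 3 (qsf 1610612736 536870912 0 536870912 3) ndB1q3 ndB3q0 pcB3 Cut.none Ext.none)

def k0_pm_303 : ∃ t, chk3 f_pm_303 t 1 1 1 = true :=
  ⟨(a (b (a (b (a (b (b (l 15723776) (b (l 15971096) (l 16034504))) (b (l 271688333703) (l 1))) (b (b (a (l 15533576) (l 15410048)) (b (a (l 15780272) (l 15672920)) (l 15803936))) (b (a (l 15906680) (l 4)) (l 4)))) (a (l 1) (l 4))) (b (a (b (b (a (l 15324920) (l 4)) (l 4)) (l 4)) (l 4)) (l 4))) (l 4)) (l 4)), by decide +kernel⟩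

theorem c_pm_303 : CertB 1610612736 536870912 0 536870912 991146299 28908434 3 eng mog cd1q3 cd3q0 pd3 true true false .npn 3 0 3
    ndB1q3 ndB3q0 pcB3 Cut.none Ext.none :=
  certB2 (fam := true) (s1 := true) (s2 := false) (a := 3) (b := 0) (c := 3) (cn := .npn) (n1 := ndB1q3) (n2 := ndB3q0) (pc := pcB3) (cut := Cut.none) (xt := Ext.none) (P1 := 1610612736) (W1 := 536870912) (P2 := 0) (W2 := 536870912) (P3 := 991146299) (W3 := 28908434) (N0 := 3) (En := eng) (mo := mog) (C1 := cd1q3) (C2 := cd3q0) (C3 := pd3)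
    rfl (fun _ => rfl) k0_pm_303

noncomputable def f_pm_313 : ℕ → ℕ → ℕ → ℕ → Bool := onCell 1610612736 536870912 536870912 536870912 991146299 28908434
    (rowB 3 eng mog cd1q3 cd3q1 pd3 0 true true false .dn 3 1 3 (qsf 1610612736 536870912 536870912 536870912 3) ndB1q3 ndB3q1 pcB3 Cut.none Ext.none)

def k0_pm_313 : ∃ t, chk3 f_pm_313 t 1 1 1 = true :=
  ⟨(l 4), by decide +kernel⟩

theorem c_pm_313 : CertB 1610612736 536870912 536870912 536870912 991146299 28908434 3 eng mog cd1q3 cd3q1 pd3 true true false .dn 3 1 3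
    ndB1q3 ndB3q1 pcB3 Cut.none Ext.none :=
  certB0 (fam := true) (s1 := true) (s2 := false) (a := 3) (b := 1) (c := 3) (cn := .dn) (n1 := ndB1q3) (n2 := ndB3q1) (pc := pcB3) (cut := Cut.none) (xt := Ext.none) (P1 := 1610612736) (W1 := 536870912) (P2 := 536870912) (W2 := 536870912) (P3 := 991146299) (W3 := 28908434) (N0 := 3) (En := eng) (mo := mog) (C1 := cd1q3) (C2 := cd3q1) (C3 := pd3)
    rfl k0_pm_313

noncomputable def f_mm_001 : ℕ → ℕ → ℕ → ℕ → Bool := onCell 0 536870912 0 536870912 991146299 28908434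
    (rowB 3 eng mog cd1q0 cd3q0 pd1 0 true false false .up 0 0 1 (qsf 0 536870912 0 536870912 1) ndB1q0 ndB3q0 pcB1 Cut.none Ext.none)

def k0_mm_001 : ∃ t, chk3 f_mm_001 t 1 1 1 = true :=
  ⟨(l 4), by decide +kernel⟩

theorem c_mm_001 : CertB 0 536870912 0 536870912 991146299 28908434 3 eng mog cd1q0 cd3q0 pd1 true false false .up 0 0 1
    ndB1q0 ndB3q0 pcB1 Cut.none Ext.none :=
  certB0 (fam := true) (s1 := false) (s2 := false) (a := 0) (b := 0) (c := 1) (cn := .up) (n1 := ndB1q0) (n2 := ndB3q0) (pc := pcB1) (cut := Cut.none) (xt := Ext.none) (P1 := 0) (W1 := 536870912) (P2 := 0) (W2 := 536870912) (P3 := 991146299) (W3 := 28908434) (N0 := 3) (En := eng) (mo := mog) (C1 := cd1q0) (C2 := cd3q0) (C3 := pd1)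
    rfl k0_mm_001

noncomputable def f_mm_011 : ℕ → ℕ → ℕ → ℕ → Bool := onCell 0 536870912 536870912 536870912 991146299 28908434
    (rowB 3 eng mog cd1q0 cd3q1 pd1 0 true false false .pnn 0 1 1 (qsf 0 536870912 536870912 536870912 1) ndB1q0 ndB3q1 pcB1 Cut.none Ext.none)

def k0_mm_011 : ∃ t, chk3 f_mm_011 t 1 1 1 = true :=
  ⟨(l 4), by decide +kernel⟩

theorem c_mm_011 : CertB 0 536870912 536870912 536870912 991146299 28908434 3 eng mog cd1q0 cd3q1 pd1 true false false .pnn 0 1 1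
    ndB1q0 ndB3q1 pcB1 Cut.none Ext.none :=
  certB0 (fam := true) (s1 := false) (s2 := false) (a := 0) (b := 1) (c := 1) (cn := .pnn) (n1 := ndB1q0) (n2 := ndB3q1) (pc := pcB1) (cut := Cut.none) (xt := Ext.none) (P1 := 0) (W1 := 536870912) (P2 := 536870912) (W2 := 536870912) (P3 := 991146299) (W3 := 28908434) (N0 := 3) (En := eng) (mo := mog) (C1 := cd1q0) (C2 := cd3q1) (C3 := pd1)
    rfl k0_mm_011

noncomputable def f_mm_012 : ℕ → ℕ → ℕ → ℕ → Bool := onCell 0 536870912 536870912 536870912 991146299 28908434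
    (rowB 3 eng mog cd1q0 cd3q1 pd2 0 true false false .pnp 0 1 2 (qsf 0 536870912 536870912 536870912 2) ndB1q0 ndB3q1 pcB2 Cut.none Ext.none)

def k0_mm_012 : ∃ t, chk3 f_mm_012 t 1 1 1 = true :=
  ⟨(l 4), by decide +kernel⟩

theorem c_mm_012 : CertB 0 536870912 536870912 536870912 991146299 28908434 3 eng mog cd1q0 cd3q1 pd2 true false false .pnp 0 1 2
    ndB1q0 ndB3q1 pcB2 Cut.none Ext.none :=
  certB0 (fam := true) (s1 := false) (s2 := false) (a := 0) (b := 1) (c := 2) (cn := .pnp) (n1 := ndB1q0) (n2 := ndB3q1) (pc := pcB2) (cut := Cut.none) (xt := Ext.none) (P1 := 0) (W1 := 536870912) (P2 := 536870912) (W2 := 536870912) (P3 := 991146299) (W3 := 28908434) (N0 := 3) (En := eng) (mo := mog) (C1 := cd1q0) (C2 := cd3q1) (C3 := pd2)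
    rfl k0_mm_012

noncomputable def f_mm_022 : ℕ → ℕ → ℕ → ℕ → Bool := onCell 0 536870912 1073741824 536870912 991146299 28908434
    (rowB 3 eng mog cd1q0 cd3q2 pd2 0 true false false .pp 0 2 2 (qsf 0 536870912 1073741824 536870912 2) ndB1q0 ndB3q2 pcB2 Cut.none Ext.none)

def k0_mm_022 : ∃ t, chk3 f_mm_022 t 1 1 1 = true :=
  ⟨(l 4), by decide +kernel⟩

theorem c_mm_022 : CertB 0 536870912 1073741824 536870912 991146299 28908434 3 eng mog cd1q0 cd3q2 pd2 true false false .pp 0 2 2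
    ndB1q0 ndB3q2 pcB2 Cut.none Ext.none :=
  certB0 (fam := true) (s1 := false) (s2 := false) (a := 0) (b := 2) (c := 2) (cn := .pp) (n1 := ndB1q0) (n2 := ndB3q2) (pc := pcB2) (cut := Cut.none) (xt := Ext.none) (P1 := 0) (W1 := 536870912) (P2 := 1073741824) (W2 := 536870912) (P3 := 991146299) (W3 := 28908434) (N0 := 3) (En := eng) (mo := mog) (C1 := cd1q0) (C2 := cd3q2) (C3 := pd2)
    rfl k0_mm_022

noncomputable def f_mm_023 : ℕ → ℕ → ℕ → ℕ → Bool := onCell 0 536870912 1073741824 536870912 991146299 28908434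
    (rowB 3 eng mog cd1q0 cd3q2 pd3 0 true false false .up 0 2 3 (qsf 0 536870912 1073741824 536870912 3) ndB1q0 ndB3q2 pcB3 Cut.none Ext.none)

def k0_mm_023 : ∃ t, chk3 f_mm_023 t 1 1 1 = true :=
  ⟨(l 4), by decide +kernel⟩

theorem c_mm_023 : CertB 0 536870912 1073741824 536870912 991146299 28908434 3 eng mog cd1q0 cd3q2 pd3 true false false .up 0 2 3
    ndB1q0 ndB3q2 pcB3 Cut.none Ext.none :=
  certB0 (fam := true) (s1 := false) (s2 := false) (a := 0) (b := 2) (c := 3) (cn := .up) (n1 := ndB1q0) (n2 := ndB3q2) (pc := pcB3) (cut := Cut.none) (xt := Ext.none) (P1 := 0) (W1 := 536870912) (P2 := 1073741824) (W2 := 536870912) (P3 := 991146299) (W3 := 28908434) (N0 := 3) (En := eng) (mo := mog) (C1 := cd1q0) (C2 := cd3q2) (C3 := pd3)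
    rfl k0_mm_023

noncomputable def f_mm_033 : ℕ → ℕ → ℕ → ℕ → Bool := onCell 0 536870912 0 1230186008 991146299 28908434
    (rowB 3 eng mog cd1q0 cd3q3 pd3 0 true false false .pnn 0 3 3 (qsf 0 536870912 0 1230186008 3) ndB1q0 ndB3q3 pcB3 Cut.none Ext.none)

def k0_mm_033 : ∃ t, chk3 f_mm_033 t 1 1 1 = true :=
  ⟨(l 5), by decide +kernel⟩

theorem c_mm_033 : CertB 0 536870912 0 1230186008 991146299 28908434 3 eng mog cd1q0 cd3q3 pd3 true false false .pnn 0 3 3
    ndB1q0 ndB3q3 pcB3 Cut.none Ext.none :=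
  certB0 (fam := true) (s1 := false) (s2 := false) (a := 0) (b := 3) (c := 3) (cn := .pnn) (n1 := ndB1q0) (n2 := ndB3q3) (pc := pcB3) (cut := Cut.none) (xt := Ext.none) (P1 := 0) (W1 := 536870912) (P2 := 0) (W2 := 1230186008) (P3 := 991146299) (W3 := 28908434) (N0 := 3) (En := eng) (mo := mog) (C1 := cd1q0) (C2 := cd3q3) (C3 := pd3)
    rfl k0_mm_033

noncomputable def f_mm_101 : ℕ → ℕ → ℕ → ℕ → Bool := onCell 536870912 536870912 0 536870912 991146299 28908434
    (rowB 3 eng mog cd1q1 cd3q0 pd1 0 true false false .npn 1 0 1 (qsf 536870912 536870912 0 536870912 1) ndB1q1 ndB3q0 pcB1 Cut.none Ext.none)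

def k0_mm_101 : ∃ t, chk3 f_mm_101 t 1 1 1 = true :=
  ⟨(l 4), by decide +kernel⟩

theorem c_mm_101 : CertB 536870912 536870912 0 536870912 991146299 28908434 3 eng mog cd1q1 cd3q0 pd1 true false false .npn 1 0 1
    ndB1q1 ndB3q0 pcB1 Cut.none Ext.none :=
  certB0 (fam := true) (s1 := false) (s2 := false) (a := 1) (b := 0) (c := 1) (cn := .npn) (n1 := ndB1q1) (n2 := ndB3q0) (pc := pcB1) (cut := Cut.none) (xt := Ext.none) (P1 := 536870912) (W1 := 536870912) (P2 := 0) (W2 := 536870912) (P3 := 991146299) (W3 := 28908434) (N0 := 3) (En := eng) (mo := mog) (C1 := cd1q1) (C2 := cd3q0) (C3 := pd1)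
    rfl k0_mm_101

noncomputable def f_mm_102 : ℕ → ℕ → ℕ → ℕ → Bool := onCell 536870912 536870912 0 536870912 991146299 28908434
    (rowB 3 eng mog cd1q1 cd3q0 pd2 0 true false false .npp 1 0 2 (qsf 536870912 536870912 0 536870912 2) ndB1q1 ndB3q0 pcB2 Cut.none Ext.none)

def k0_mm_102 : ∃ t, chk3 f_mm_102 t 1 1 1 = true :=
  ⟨(l 4), by decide +kernel⟩

theorem c_mm_102 : CertB 536870912 536870912 0 536870912 991146299 28908434 3 eng mog cd1q1 cd3q0 pd2 true false false .npp 1 0 2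
    ndB1q1 ndB3q0 pcB2 Cut.none Ext.none :=
  certB0 (fam := true) (s1 := false) (s2 := false) (a := 1) (b := 0) (c := 2) (cn := .npp) (n1 := ndB1q1) (n2 := ndB3q0) (pc := pcB2) (cut := Cut.none) (xt := Ext.none) (P1 := 536870912) (W1 := 536870912) (P2 := 0) (W2 := 536870912) (P3 := 991146299) (W3 := 28908434) (N0 := 3) (En := eng) (mo := mog) (C1 := cd1q1) (C2 := cd3q0) (C3 := pd2)
    rfl k0_mm_102

noncomputable def f_mm_112 : ℕ → ℕ → ℕ → ℕ → Bool := onCell 536870912 536870912 536870912 536870912 991146299 28908434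
    (rowB 3 eng mog cd1q1 cd3q1 pd2 0 true false false .dn 1 1 2 (qsf 536870912 536870912 536870912 536870912 2) ndB1q1 ndB3q1 pcB2 Cut.none Ext.none)

def k0_mm_112 : ∃ t, chk3 f_mm_112 t 1 1 1 = true :=
  ⟨(l 4), by decide +kernel⟩

theorem c_mm_112 : CertB 536870912 536870912 536870912 536870912 991146299 28908434 3 eng mog cd1q1 cd3q1 pd2 true false false .dn 1 1 2
    ndB1q1 ndB3q1 pcB2 Cut.none Ext.none :=
  certB0 (fam := true) (s1 := false) (s2 := false) (a := 1) (b := 1) (c := 2) (cn := .dn) (n1 := ndB1q1) (n2 := ndB3q1) (pc := pcB2) (cut := Cut.none) (xt := Ext.none) (P1 := 536870912) (W1 := 536870912) (P2 := 536870912) (W2 := 536870912) (P3 := 991146299) (W3 := 28908434) (N0 := 3) (En := eng) (mo := mog) (C1 := cd1q1) (C2 := cd3q1) (C3 := pd2)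
    rfl k0_mm_112

noncomputable def f_mm_113 : ℕ → ℕ → ℕ → ℕ → Bool := onCell 536870912 536870912 536870912 536870912 991146299 28908434
    (rowB 3 eng mog cd1q1 cd3q1 pd3 0 true false false .nn 1 1 3 (qsf 536870912 536870912 536870912 536870912 3) ndB1q1 ndB3q1 pcB3 Cut.none Ext.none)

def k0_mm_113 : ∃ t, chk3 f_mm_113 t 1 1 1 = true :=
  ⟨(l 4), by decide +kernel⟩

theorem c_mm_113 : CertB 536870912 536870912 536870912 536870912 991146299 28908434 3 eng mog cd1q1 cd3q1 pd3 true false false .nn 1 1 3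
    ndB1q1 ndB3q1 pcB3 Cut.none Ext.none :=
  certB0 (fam := true) (s1 := false) (s2 := false) (a := 1) (b := 1) (c := 3) (cn := .nn) (n1 := ndB1q1) (n2 := ndB3q1) (pc := pcB3) (cut := Cut.none) (xt := Ext.none) (P1 := 536870912) (W1 := 536870912) (P2 := 536870912) (W2 := 536870912) (P3 := 991146299) (W3 := 28908434) (N0 := 3) (En := eng) (mo := mog) (C1 := cd1q1) (C2 := cd3q1) (C3 := pd3)
    rfl k0_mm_113

noncomputable def f_mm_123 : ℕ → ℕ → ℕ → ℕ → Bool := onCell 536870912 536870912 1073741824 536870912 991146299 28908434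
    (rowB 3 eng mog cd1q1 cd3q2 pd3 0 true false false .npn 1 2 3 (qsf 536870912 536870912 1073741824 536870912 3) ndB1q1 ndB3q2 pcB3 Cut.none Ext.none)

def k0_mm_123 : ∃ t, chk3 f_mm_123 t 1 1 1 = true :=
  ⟨(l 4), by decide +kernel⟩

theorem c_mm_123 : CertB 536870912 536870912 1073741824 536870912 991146299 28908434 3 eng mog cd1q1 cd3q2 pd3 true false false .npn 1 2 3
    ndB1q1 ndB3q2 pcB3 Cut.none Ext.none :=
  certB0 (fam := true) (s1 := false) (s2 := false) (a := 1) (b := 2) (c := 3) (cn := .npn) (n1 := ndB1q1) (n2 := ndB3q2) (pc := pcB3) (cut := Cut.none) (xt := Ext.none) (P1 := 536870912) (W1 := 536870912) (P2 := 1073741824) (W2 := 536870912) (P3 := 991146299) (W3 := 28908434) (N0 := 3) (En := eng) (mo := mog) (C1 := cd1q1) (C2 := cd3q2) (C3 := pd3)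
    rfl k0_mm_123

noncomputable def f_mm_133 : ℕ → ℕ → ℕ → ℕ → Bool := onCell 536870912 536870912 0 1230186008 991146299 28908434
    (rowB 3 eng mog cd1q1 cd3q3 pd3 0 true false false .dn 1 3 3 (qsf 536870912 536870912 0 1230186008 3) ndB1q1 ndB3q3 pcB3 Cut.none Ext.none)

def k0_mm_133 : ∃ t, chk3 f_mm_133 t 1 1 1 = true :=
  ⟨(l 4), by decide +kernel⟩

theorem c_mm_133 : CertB 536870912 536870912 0 1230186008 991146299 28908434 3 eng mog cd1q1 cd3q3 pd3 true false false .dn 1 3 3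
    ndB1q1 ndB3q3 pcB3 Cut.none Ext.none :=
  certB0 (fam := true) (s1 := false) (s2 := false) (a := 1) (b := 3) (c := 3) (cn := .dn) (n1 := ndB1q1) (n2 := ndB3q3) (pc := pcB3) (cut := Cut.none) (xt := Ext.none) (P1 := 536870912) (W1 := 536870912) (P2 := 0) (W2 := 1230186008) (P3 := 991146299) (W3 := 28908434) (N0 := 3) (En := eng) (mo := mog) (C1 := cd1q1) (C2 := cd3q3) (C3 := pd3)
    rfl k0_mm_133

noncomputable def f_mm_202_a : ℕ → ℕ → ℕ → ℕ → Bool := onCell 0 536870912 0 536870912 991146299 28908434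
    (rowB 3 eng mog cd1q2a cd3q0 pd2 0 true false false .pp 2 0 2 (qsf 0 536870912 0 536870912 2) ndB1q2a ndB3q0 pcB2 Cut.none Ext.none)

def k0_mm_202_a : ∃ t, chk3 f_mm_202_a t 1 1 1 = true :=
  ⟨(b (a (a (b (a (b (b (b (l 16450768) (l 16342224)) (b (b (l 16249240) (l 16199920)) (b (l 16192520) (l 16197360)))) (b (b (b (l 16207384) (l 16222768)) (b (l 16241576) (l 16254456))) (b (l 16124832) (l 16081984)))) (b (b (b (l 16338752) (l 16362536)) (b (b (l 16281144) (l 16218512)) (b (l 16240160) (l 16253016)))) (b (b (c (l 16272936) (l 16266072)) (c (l 16283048) (l 16242688))) (l 4)))) (l 4)) (b (a (b (b (b (c (l 16506160) (l 16499488)) (c (l 16384416) (l 16375632))) (b (b (l 16305680) (c (l 16269968) (l 16268200))) (b (c (l 16273192) (l 16279488)) (c (l 16288000) (l 16301192))))) (b (b (c (l 16124112) (l 30835215879)) (l 4)) (l 4))) (b (b (b (c (l 16401400) (l 16351448)) (a (l 16383456) (b (l 16405696) (l 16356968)))) (b (b (a (l 16312928) (l 16320864)) (c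 (l 16184360) (l 48015119751))) (l 4))) (l 4))) (l 4))) (a (b (b (b (a (b (a (c (l 16492976) (l 16480320)) (b (c (l 16511352) (l 16494264)) (c (l 16457120) (l 16441040)))) (a (c (l 16348184) (l 16317640)) (l 4))) (b (a (b (c (l 16506832) (l 16485808)) (l 4)) (l 4)) (l 4))) (l 4)) (l 4)) (l 4)) (l 4))) (l 4)), by decide +kernel⟩

theorem c_mm_202_a : CertB 0 536870912 0 536870912 991146299 28908434 3 eng mog cd1q2a cd3q0 pd2 true false false .pp 2 0 2
    ndB1q2a ndB3q0 pcB2 Cut.none Ext.none :=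
  certB0 (fam := true) (s1 := false) (s2 := false) (a := 2) (b := 0) (c := 2) (cn := .pp) (n1 := ndB1q2a) (n2 := ndB3q0) (pc := pcB2) (cut := Cut.none) (xt := Ext.none) (P1 := 0) (W1 := 536870912) (P2 := 0) (W2 := 536870912) (P3 := 991146299) (W3 := 28908434) (N0 := 3) (En := eng) (mo := mog) (C1 := cd1q2a) (C2 := cd3q0) (C3 := pd2)
    rfl k0_mm_202_a

noncomputable def f_mm_202_b : ℕ → ℕ → ℕ → ℕ → Bool := onCell 1073741824 536870912 0 536870912 991146299 28908434
    (rowB 3 eng mog cd1q2b cd3q0 pd2 2 true false false .pp 2 0 2 (qsf 1239849684 370763052 0 536870912 2) ndB1q2b ndB3q0 pcB2 Cut.none Ext.none)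

def k0_mm_202_b : ∃ t, chk3 f_mm_202_b t 1 1 1 = true :=
  ⟨(a (b (a (l 1) (b (a (b (b (a (b (l 397853679447) (l 1)) (c (l 16347064) (l 16267984))) (b (b (a (l 1) (l 16291720)) (l 1)) (l 1))) (l 1)) (a (b (b (c (l 16296432) (l 16247848)) (b (b (l 16198528) (c (l 16181944) (l 16154488))) (c (l 16181024) (l 16168240)))) (b (b (c (l 16191016) (l 16193128)) (l 1)) (l 1))) (b (b (c (l 16214248) (l 16143648)) (b (b (l 16140200) (l 15976264)) (c (l 16157144) (l 16127864)))) (b (b (c (l 16181968) (l 16169792)) (c (l 16198080) (l 16199072))) (l 373694120487))))) (l 1))) (l 1)) (b (a (b (a (a (b (b (c (l 16161664) (l 16079296)) (b (b (l 16114968) (l 16089432)) (c (l 16160168) (l 16123936)))) (b (b (c (l 16198720) (l 16181560)) (c (l 16228920) (l 16227176))) (a (l 16231784) (l 16264176)))) (b (b (c (l 16136256) (l 16052104)) (b (b (l 16120280) (l 16106712)) (c (l 16187616) (l 16153640)))) (b (b (c (l 16238704) (l 16225496)) (c (l 16281872) (l 16286056))) (c (l 16297128)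 (l 16315984))))) (b (b (a (l 15950896) (l 15894584)) (b (a (b (l 16152856) (l 16171656)) (b (l 16208512) (l 16238040))) (a (c (l 16236272) (l 16213384)) (c (l 16296136) (l 16290480))))) (b (a (b (c (l 16297136) (l 16295840)) (c (l 16336264) (l 16348416))) (b (c (l 16341184) (l 16349152)) (l 4))) (a (a (l 16341800) (l 4)) (l 4))))) (a (a (a (l 1) (a (l 1) (l 4))) (l 4)) (l 4))) (b (b (a (b (a (l 15917704) (c (l 15841656) (l 15839872))) (b (a (b (l 16145736) (l 16212496)) (b (l 16021064) (l 4))) (a (c (l 16274144) (l 16220424)) (l 4)))) (a (b (a (l 15544688) (l 15556144)) (l 4)) (l 4))) (l 4)) (l 4))) (l 4))), by decide +kernel⟩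

theorem c_mm_202_b : CertB 1239849684 370763052 0 536870912 991146299 28908434 3 eng mog cd1q2b cd3q0 pd2 true false false .pp 2 0 2
    ndB1q2b ndB3q0 pcB2 Cut.none Ext.none :=
  certB2 (fam := true) (s1 := false) (s2 := false) (a := 2) (b := 0) (c := 2) (cn := .pp) (n1 := ndB1q2b) (n2 := ndB3q0) (pc := pcB2) (cut := Cut.none) (xt := Ext.none) (P1 := 1239849684) (W1 := 370763052) (P2 := 0) (W2 := 536870912) (P3 := 991146299) (W3 := 28908434) (N0 := 3) (En := eng) (mo := mog) (C1 := cd1q2b) (C2 := cd3q0) (C3 := pd2)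
    rfl (fun _ => rfl) k0_mm_202_b

noncomputable def f_mm_203_a : ℕ → ℕ → ℕ → ℕ → Bool := onCell 0 536870912 1610612736 536870912 991146299 28908434
    (rowB 3 eng mog cd1q2a cd3q0 pd3 1 true false false .up 2 0 3 (qsf 0 536870912 0 536870912 3) ndB1q2a ndB3q0 pcB3 Cut.none Ext.none)

def k0_mm_203_a : ∃ t, chk3 f_mm_203_a t 1 1 1 = true :=
  ⟨(l 4), by decide +kernel⟩

theorem c_mm_203_a : CertB 0 536870912 0 536870912 991146299 28908434 3 eng mog cd1q2a cd3q0 pd3 true false false .up 2 0 3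
    ndB1q2a ndB3q0 pcB3 Cut.none Ext.none :=
  certB1 (fam := true) (s1 := false) (s2 := false) (a := 2) (b := 0) (c := 3) (cn := .up) (n1 := ndB1q2a) (n2 := ndB3q0) (pc := pcB3) (cut := Cut.none) (xt := Ext.none) (P1 := 0) (W1 := 536870912) (P2 := 0) (W2 := 536870912) (P3 := 991146299) (W3 := 28908434) (N0 := 3) (En := eng) (mo := mog) (C1 := cd1q2a) (C2 := cd3q0) (C3 := pd3)
    rfl (fun _ => rfl) k0_mm_203_a

noncomputable def f_mm_203_b : ℕ → ℕ → ℕ → ℕ → Bool := onCell 1610612736 536870912 0 536870912 991146299 28908434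
    (rowB 3 eng mog cd1q2b cd3q0 pd3 2 true false false .up 2 0 3 (qsf 1239849684 370763052 0 536870912 3) ndB1q2b ndB3q0 pcB3 Cut.none Ext.none)

def k0_mm_203_b : ∃ t, chk3 f_mm_203_b t 1 1 1 = true :=
  ⟨(a (b (l 4) (l 4)) (l 4)), by decide +kernel⟩

theorem c_mm_203_b : CertB 1239849684 370763052 0 536870912 991146299 28908434 3 eng mog cd1q2b cd3q0 pd3 true false false .up 2 0 3
    ndB1q2b ndB3q0 pcB3 Cut.none Ext.none :=
  certB2 (fam := true) (s1 := false) (s2 := false) (a := 2) (b := 0) (c := 3) (cn := .up) (n1 := ndB1q2b) (n2 := ndB3q0) (pc := pcB3) (cut := Cut.none) (xt := Ext.none) (P1 := 1239849684) (W1 := 370763052) (P2 := 0) (W2 := 536870912) (P3 := 991146299) (W3 := 28908434) (N0 := 3) (En := eng) (mo := mog) (C1 := cd1q2b) (C2 := cd3q0) (C3 := pd3)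
    rfl (fun _ => rfl) k0_mm_203_b

noncomputable def f_mm_213_a : ℕ → ℕ → ℕ → ℕ → Bool := onCell 0 536870912 536870912 536870912 991146299 28908434
    (rowB 3 eng mog cd1q2a cd3q1 pd3 0 true false false .pnn 2 1 3 (qsf 0 536870912 536870912 536870912 3) ndB1q2a ndB3q1 pcB3 Cut.none Ext.none)

def k0_mm_213_a : ∃ t, chk3 f_mm_213_a t 1 1 1 = true :=
  ⟨(l 4), by decide +kernel⟩

theorem c_mm_213_a : CertB 0 536870912 536870912 536870912 991146299 28908434 3 eng mog cd1q2a cd3q1 pd3 true false false .pnn 2 1 3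
    ndB1q2a ndB3q1 pcB3 Cut.none Ext.none :=
  certB0 (fam := true) (s1 := false) (s2 := false) (a := 2) (b := 1) (c := 3) (cn := .pnn) (n1 := ndB1q2a) (n2 := ndB3q1) (pc := pcB3) (cut := Cut.none) (xt := Ext.none) (P1 := 0) (W1 := 536870912) (P2 := 536870912) (W2 := 536870912) (P3 := 991146299) (W3 := 28908434) (N0 := 3) (En := eng) (mo := mog) (C1 := cd1q2a) (C2 := cd3q1) (C3 := pd3)
    rfl k0_mm_213_a

noncomputable def f_mm_213_b : ℕ → ℕ → ℕ → ℕ → Bool := onCell 1239849684 370763052 536870912 536870912 991146299 28908434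
    (rowB 3 eng mog cd1q2b cd3q1 pd3 0 true false false .pnn 2 1 3 (qsf 1239849684 370763052 536870912 536870912 3) ndB1q2b ndB3q1 pcB3 Cut.none Ext.none)

def k0_mm_213_b : ∃ t, chk3 f_mm_213_b t 1 1 1 = true :=
  ⟨(l 4), by decide +kernel⟩

theorem c_mm_213_b : CertB 1239849684 370763052 536870912 536870912 991146299 28908434 3 eng mog cd1q2b cd3q1 pd3 true false false .pnn 2 1 3
    ndB1q2b ndB3q1 pcB3 Cut.none Ext.none :=
  certB0 (fam := true) (s1 := false) (s2 := false) (a := 2) (b := 1) (c := 3) (cn := .pnn) (n1 := ndB1q2b) (n2 := ndB3q1) (pc := pcB3) (cut := Cut.none) (xt := Ext.none) (P1 := 1239849684) (W1 := 370763052) (P2 := 536870912) (W2 := 536870912) (P3 := 991146299) (W3 := 28908434) (N0 := 3) (En := eng) (mo := mog) (C1 := cd1q2b) (C2 := cd3q1) (C3 := pd3)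
    rfl k0_mm_213_b

noncomputable def f_mm_303 : ℕ → ℕ → ℕ → ℕ → Bool := onCell 1610612736 536870912 0 536870912 991146299 28908434
    (rowB 3 eng mog cd1q3 cd3q0 pd3 2 true false false .npn 3 0 3 (qsf 1610612736 536870912 0 536870912 3) ndB1q3 ndB3q0 pcB3 Cut.none Ext.none)

def k0_mm_303 : ∃ t, chk3 f_mm_303 t 1 1 1 = true :=
  ⟨(a (b (l 4) (l 4)) (l 4)), by decide +kernel⟩

theorem c_mm_303 : CertB 1610612736 536870912 0 536870912 991146299 28908434 3 eng mog cd1q3 cd3q0 pd3 true false false .npn 3 0 3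
    ndB1q3 ndB3q0 pcB3 Cut.none Ext.none :=
  certB2 (fam := true) (s1 := false) (s2 := false) (a := 3) (b := 0) (c := 3) (cn := .npn) (n1 := ndB1q3) (n2 := ndB3q0) (pc := pcB3) (cut := Cut.none) (xt := Ext.none) (P1 := 1610612736) (W1 := 536870912) (P2 := 0) (W2 := 536870912) (P3 := 991146299) (W3 := 28908434) (N0 := 3) (En := eng) (mo := mog) (C1 := cd1q3) (C2 := cd3q0) (C3 := pd3)
    rfl (fun _ => rfl) k0_mm_303

noncomputable def f_mm_313 : ℕ → ℕ → ℕ → ℕ → Bool := onCell 1610612736 536870912 536870912 536870912 991146299 28908434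
    (rowB 3 eng mog cd1q3 cd3q1 pd3 0 true false false .dn 3 1 3 (qsf 1610612736 536870912 536870912 536870912 3) ndB1q3 ndB3q1 pcB3 Cut.none Ext.none)

def k0_mm_313 : ∃ t, chk3 f_mm_313 t 1 1 1 = true :=
  ⟨(l 4), by decide +kernel⟩

theorem c_mm_313 : CertB 1610612736 536870912 536870912 536870912 991146299 28908434 3 eng mog cd1q3 cd3q1 pd3 true false false .dn 3 1 3
    ndB1q3 ndB3q1 pcB3 Cut.none Ext.none :=
  certB0 (fam := true) (s1 := false) (s2 := false) (a := 3) (b := 1) (c := 3) (cn := .dn) (n1 := ndB1q3) (n2 := ndB3q1) (pc := pcB3) (cut := Cut.none) (xt := Ext.none) (P1 := 1610612736) (W1 := 536870912) (P2 := 536870912) (W2 := 536870912) (P3 := 991146299) (W3 := 28908434) (N0 := 3) (En := eng) (mo := mog) (C1 := cd1q3) (C2 := cd3q1) (C3 := pd3)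
    rfl k0_mm_313

end Pool.Agent.Strip051.G.I9231_9500.Tab.C.BA13

namespace Pool.Agent.Strip051.G.I9231_9500.Tab.C.BA14

open Pool.Agent.Strip051.PB Pool.Agent.Strip051.PB.T
open Pool.Agent.Strip051.G.I9231_9500.Tab

noncomputable def f_pp_001 : ℕ → ℕ → ℕ → ℕ → Bool := onCell 0 536870912 0 536870912 991146299 28908434
    (rowB 3 eng mog cd1q0 cd4q0 pd1 0 true true true .up 0 0 1 (qsf 0 536870912 0 536870912 1) ndB1q0 ndB4q0 pcB1 Cut.none Ext.none)

def k0_pp_001 : ∃ t, chk3 f_pp_001 t 1 1 1 = true :=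
  ⟨(l 4), by decide +kernel⟩

theorem c_pp_001 : CertB 0 536870912 0 536870912 991146299 28908434 3 eng mog cd1q0 cd4q0 pd1 true true true .up 0 0 1
    ndB1q0 ndB4q0 pcB1 Cut.none Ext.none :=
  certB0 (fam := true) (s1 := true) (s2 := true) (a := 0) (b := 0) (c := 1) (cn := .up) (n1 := ndB1q0) (n2 := ndB4q0) (pc := pcB1) (cut := Cut.none) (xt := Ext.none) (P1 := 0) (W1 := 536870912) (P2 := 0) (W2 := 536870912) (P3 := 991146299) (W3 := 28908434) (N0 := 3) (En := eng) (mo := mog) (C1 := cd1q0) (C2 := cd4q0) (C3 := pd1)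
    rfl k0_pp_001

noncomputable def f_pp_011 : ℕ → ℕ → ℕ → ℕ → Bool := onCell 0 536870912 536870912 536870912 991146299 28908434
    (rowB 3 eng mog cd1q0 cd4q1 pd1 0 true true true .pnn 0 1 1 (qsf 0 536870912 536870912 536870912 1) ndB1q0 ndB4q1 pcB1 Cut.none Ext.none)

def k0_pp_011 : ∃ t, chk3 f_pp_011 t 1 1 1 = true :=
  ⟨(l 4), by decide +kernel⟩

theorem c_pp_011 : CertB 0 536870912 536870912 536870912 991146299 28908434 3 eng mog cd1q0 cd4q1 pd1 true true true .pnn 0 1 1
    ndB1q0 ndB4q1 pcB1 Cut.none Ext.none :=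
  certB0 (fam := true) (s1 := true) (s2 := true) (a := 0) (b := 1) (c := 1) (cn := .pnn) (n1 := ndB1q0) (n2 := ndB4q1) (pc := pcB1) (cut := Cut.none) (xt := Ext.none) (P1 := 0) (W1 := 536870912) (P2 := 536870912) (W2 := 536870912) (P3 := 991146299) (W3 := 28908434) (N0 := 3) (En := eng) (mo := mog) (C1 := cd1q0) (C2 := cd4q1) (C3 := pd1)
    rfl k0_pp_011

noncomputable def f_pp_012 : ℕ → ℕ → ℕ → ℕ → Bool := onCell 0 536870912 536870912 536870912 991146299 28908434
    (rowB 3 eng mog cd1q0 cd4q1 pd2 0 true true true .pnp 0 1 2 (qsf 0 536870912 536870912 536870912 2) ndB1q0 ndB4q1 pcB2 Cut.none Ext.none)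

def k0_pp_012 : ∃ t, chk3 f_pp_012 t 1 1 1 = true :=
  ⟨(l 4), by decide +kernel⟩

theorem c_pp_012 : CertB 0 536870912 536870912 536870912 991146299 28908434 3 eng mog cd1q0 cd4q1 pd2 true true true .pnp 0 1 2
    ndB1q0 ndB4q1 pcB2 Cut.none Ext.none :=
  certB0 (fam := true) (s1 := true) (s2 := true) (a := 0) (b := 1) (c := 2) (cn := .pnp) (n1 := ndB1q0) (n2 := ndB4q1) (pc := pcB2) (cut := Cut.none) (xt := Ext.none) (P1 := 0) (W1 := 536870912) (P2 := 536870912) (W2 := 536870912) (P3 := 991146299) (W3 := 28908434) (N0 := 3) (En := eng) (mo := mog) (C1 := cd1q0) (C2 := cd4q1) (C3 := pd2)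
    rfl k0_pp_012

noncomputable def f_pp_022 : ℕ → ℕ → ℕ → ℕ → Bool := onCell 0 536870912 1073741824 536870912 991146299 28908434
    (rowB 3 eng mog cd1q0 cd4q2 pd2 0 true true true .pp 0 2 2 (qsf 0 536870912 1073741824 536870912 2) ndB1q0 ndB4q2 pcB2 Cut.none Ext.none)

def k0_pp_022 : ∃ t, chk3 f_pp_022 t 1 1 1 = true :=
  ⟨(l 4), by decide +kernel⟩

theorem c_pp_022 : CertB 0 536870912 1073741824 536870912 991146299 28908434 3 eng mog cd1q0 cd4q2 pd2 true true true .pp 0 2 2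
    ndB1q0 ndB4q2 pcB2 Cut.none Ext.none :=
  certB0 (fam := true) (s1 := true) (s2 := true) (a := 0) (b := 2) (c := 2) (cn := .pp) (n1 := ndB1q0) (n2 := ndB4q2) (pc := pcB2) (cut := Cut.none) (xt := Ext.none) (P1 := 0) (W1 := 536870912) (P2 := 1073741824) (W2 := 536870912) (P3 := 991146299) (W3 := 28908434) (N0 := 3) (En := eng) (mo := mog) (C1 := cd1q0) (C2 := cd4q2) (C3 := pd2)
    rfl k0_pp_022

noncomputable def f_pp_023 : ℕ → ℕ → ℕ → ℕ → Bool := onCell 0 536870912 1073741824 536870912 991146299 28908434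
    (rowB 3 eng mog cd1q0 cd4q2 pd3 0 true true true .up 0 2 3 (qsf 0 536870912 1073741824 536870912 3) ndB1q0 ndB4q2 pcB3 Cut.none Ext.none)

def k0_pp_023 : ∃ t, chk3 f_pp_023 t 1 1 1 = true :=
  ⟨(l 4), by decide +kernel⟩

theorem c_pp_023 : CertB 0 536870912 1073741824 536870912 991146299 28908434 3 eng mog cd1q0 cd4q2 pd3 true true true .up 0 2 3
    ndB1q0 ndB4q2 pcB3 Cut.none Ext.none :=
  certB0 (fam := true) (s1 := true) (s2 := true) (a := 0) (b := 2) (c := 3) (cn := .up) (n1 := ndB1q0) (n2 := ndB4q2) (pc := pcB3) (cut := Cut.none) (xt := Ext.none) (P1 := 0) (W1 := 536870912) (P2 := 1073741824) (W2 := 536870912) (P3 := 991146299) (W3 := 28908434) (N0 := 3) (En := eng) (mo := mog) (C1 := cd1q0) (C2 := cd4q2) (C3 := pd3)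
    rfl k0_pp_023

noncomputable def f_pp_033 : ℕ → ℕ → ℕ → ℕ → Bool := onCell 0 536870912 0 1230186008 991146299 28908434
    (rowB 3 eng mog cd1q0 cd4q3 pd3 0 true true true .pnn 0 3 3 (qsf 0 536870912 0 1230186008 3) ndB1q0 ndB4q3 pcB3 Cut.none Ext.none)

def k0_pp_033 : ∃ t, chk3 f_pp_033 t 1 1 1 = true :=
  ⟨(b (l 4) (l 4)), by decide +kernel⟩

theorem c_pp_033 : CertB 0 536870912 0 1230186008 991146299 28908434 3 eng mog cd1q0 cd4q3 pd3 true true true .pnn 0 3 3
    ndB1q0 ndB4q3 pcB3 Cut.none Ext.none :=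
  certB0 (fam := true) (s1 := true) (s2 := true) (a := 0) (b := 3) (c := 3) (cn := .pnn) (n1 := ndB1q0) (n2 := ndB4q3) (pc := pcB3) (cut := Cut.none) (xt := Ext.none) (P1 := 0) (W1 := 536870912) (P2 := 0) (W2 := 1230186008) (P3 := 991146299) (W3 := 28908434) (N0 := 3) (En := eng) (mo := mog) (C1 := cd1q0) (C2 := cd4q3) (C3 := pd3)
    rfl k0_pp_033

noncomputable def f_pp_101 : ℕ → ℕ → ℕ → ℕ → Bool := onCell 536870912 536870912 0 536870912 991146299 28908434
    (rowB 3 eng mog cd1q1 cd4q0 pd1 0 true true true .npn 1 0 1 (qsf 536870912 536870912 0 536870912 1) ndB1q1 ndB4q0 pcB1 Cut.none Ext.none)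

def k0_pp_101 : ∃ t, chk3 f_pp_101 t 1 1 1 = true :=
  ⟨(l 4), by decide +kernel⟩

theorem c_pp_101 : CertB 536870912 536870912 0 536870912 991146299 28908434 3 eng mog cd1q1 cd4q0 pd1 true true true .npn 1 0 1
    ndB1q1 ndB4q0 pcB1 Cut.none Ext.none :=
  certB0 (fam := true) (s1 := true) (s2 := true) (a := 1) (b := 0) (c := 1) (cn := .npn) (n1 := ndB1q1) (n2 := ndB4q0) (pc := pcB1) (cut := Cut.none) (xt := Ext.none) (P1 := 536870912) (W1 := 536870912) (P2 := 0) (W2 := 536870912) (P3 := 991146299) (W3 := 28908434) (N0 := 3) (En := eng) (mo := mog) (C1 := cd1q1) (C2 := cd4q0) (C3 := pd1)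
    rfl k0_pp_101

noncomputable def f_pp_102 : ℕ → ℕ → ℕ → ℕ → Bool := onCell 536870912 536870912 0 536870912 991146299 28908434
    (rowB 3 eng mog cd1q1 cd4q0 pd2 0 true true true .npp 1 0 2 (qsf 536870912 536870912 0 536870912 2) ndB1q1 ndB4q0 pcB2 Cut.none Ext.none)

def k0_pp_102 : ∃ t, chk3 f_pp_102 t 1 1 1 = true :=
  ⟨(l 4), by decide +kernel⟩

theorem c_pp_102 : CertB 536870912 536870912 0 536870912 991146299 28908434 3 eng mog cd1q1 cd4q0 pd2 true true true .npp 1 0 2
    ndB1q1 ndB4q0 pcB2 Cut.none Ext.none :=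
  certB0 (fam := true) (s1 := true) (s2 := true) (a := 1) (b := 0) (c := 2) (cn := .npp) (n1 := ndB1q1) (n2 := ndB4q0) (pc := pcB2) (cut := Cut.none) (xt := Ext.none) (P1 := 536870912) (W1 := 536870912) (P2 := 0) (W2 := 536870912) (P3 := 991146299) (W3 := 28908434) (N0 := 3) (En := eng) (mo := mog) (C1 := cd1q1) (C2 := cd4q0) (C3 := pd2)
    rfl k0_pp_102

noncomputable def f_pp_112 : ℕ → ℕ → ℕ → ℕ → Bool := onCell 536870912 536870912 536870912 536870912 991146299 28908434
    (rowB 3 eng mog cd1q1 cd4q1 pd2 0 true true true .dn 1 1 2 (qsf 536870912 536870912 536870912 536870912 2) ndB1q1 ndB4q1 pcB2 Cut.none Ext.none)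

def k0_pp_112 : ∃ t, chk3 f_pp_112 t 1 1 1 = true :=
  ⟨(l 4), by decide +kernel⟩

theorem c_pp_112 : CertB 536870912 536870912 536870912 536870912 991146299 28908434 3 eng mog cd1q1 cd4q1 pd2 true true true .dn 1 1 2
    ndB1q1 ndB4q1 pcB2 Cut.none Ext.none :=
  certB0 (fam := true) (s1 := true) (s2 := true) (a := 1) (b := 1) (c := 2) (cn := .dn) (n1 := ndB1q1) (n2 := ndB4q1) (pc := pcB2) (cut := Cut.none) (xt := Ext.none) (P1 := 536870912) (W1 := 536870912) (P2 := 536870912) (W2 := 536870912) (P3 := 991146299) (W3 := 28908434) (N0 := 3) (En := eng) (mo := mog) (C1 := cd1q1) (C2 := cd4q1) (C3 := pd2)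
    rfl k0_pp_112

noncomputable def f_pp_113 : ℕ → ℕ → ℕ → ℕ → Bool := onCell 536870912 536870912 536870912 536870912 991146299 28908434
    (rowB 3 eng mog cd1q1 cd4q1 pd3 0 true true true .nn 1 1 3 (qsf 536870912 536870912 536870912 536870912 3) ndB1q1 ndB4q1 pcB3 Cut.none Ext.none)

def k0_pp_113 : ∃ t, chk3 f_pp_113 t 1 1 1 = true :=
  ⟨(l 4), by decide +kernel⟩

theorem c_pp_113 : CertB 536870912 536870912 536870912 536870912 991146299 28908434 3 eng mog cd1q1 cd4q1 pd3 true true true .nn 1 1 3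
    ndB1q1 ndB4q1 pcB3 Cut.none Ext.none :=
  certB0 (fam := true) (s1 := true) (s2 := true) (a := 1) (b := 1) (c := 3) (cn := .nn) (n1 := ndB1q1) (n2 := ndB4q1) (pc := pcB3) (cut := Cut.none) (xt := Ext.none) (P1 := 536870912) (W1 := 536870912) (P2 := 536870912) (W2 := 536870912) (P3 := 991146299) (W3 := 28908434) (N0 := 3) (En := eng) (mo := mog) (C1 := cd1q1) (C2 := cd4q1) (C3 := pd3)
    rfl k0_pp_113

noncomputable def f_pp_123 : ℕ → ℕ → ℕ → ℕ → Bool := onCell 536870912 536870912 1073741824 536870912 991146299 28908434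
    (rowB 3 eng mog cd1q1 cd4q2 pd3 0 true true true .npn 1 2 3 (qsf 536870912 536870912 1073741824 536870912 3) ndB1q1 ndB4q2 pcB3 Cut.none Ext.none)

def k0_pp_123 : ∃ t, chk3 f_pp_123 t 1 1 1 = true :=
  ⟨(l 4), by decide +kernel⟩

theorem c_pp_123 : CertB 536870912 536870912 1073741824 536870912 991146299 28908434 3 eng mog cd1q1 cd4q2 pd3 true true true .npn 1 2 3
    ndB1q1 ndB4q2 pcB3 Cut.none Ext.none :=
  certB0 (fam := true) (s1 := true) (s2 := true) (a := 1) (b := 2) (c := 3) (cn := .npn) (n1 := ndB1q1) (n2 := ndB4q2) (pc := pcB3) (cut := Cut.none) (xt := Ext.none) (P1 := 536870912) (W1 := 536870912) (P2 := 1073741824) (W2 := 536870912) (P3 := 991146299) (W3 := 28908434) (N0 := 3) (En := eng) (mo := mog) (C1 := cd1q1) (C2 := cd4q2) (C3 := pd3)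
    rfl k0_pp_123

noncomputable def f_pp_133 : ℕ → ℕ → ℕ → ℕ → Bool := onCell 536870912 536870912 0 1230186008 991146299 28908434
    (rowB 3 eng mog cd1q1 cd4q3 pd3 0 true true true .dn 1 3 3 (qsf 536870912 536870912 0 1230186008 3) ndB1q1 ndB4q3 pcB3 Cut.none Ext.none)

def k0_pp_133 : ∃ t, chk3 f_pp_133 t 1 1 1 = true :=
  ⟨(l 4), by decide +kernel⟩

theorem c_pp_133 : CertB 536870912 536870912 0 1230186008 991146299 28908434 3 eng mog cd1q1 cd4q3 pd3 true true true .dn 1 3 3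
    ndB1q1 ndB4q3 pcB3 Cut.none Ext.none :=
  certB0 (fam := true) (s1 := true) (s2 := true) (a := 1) (b := 3) (c := 3) (cn := .dn) (n1 := ndB1q1) (n2 := ndB4q3) (pc := pcB3) (cut := Cut.none) (xt := Ext.none) (P1 := 536870912) (W1 := 536870912) (P2 := 0) (W2 := 1230186008) (P3 := 991146299) (W3 := 28908434) (N0 := 3) (En := eng) (mo := mog) (C1 := cd1q1) (C2 := cd4q3) (C3 := pd3)
    rfl k0_pp_133

noncomputable def f_pp_202_a : ℕ → ℕ → ℕ → ℕ → Bool := onCell 0 536870912 0 536870912 991146299 28908434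
    (rowB 3 eng mog cd1q2a cd4q0 pd2 0 true true true .pp 2 0 2 (qsf 0 536870912 0 536870912 2) ndB1q2a ndB4q0 pcB2 Cut.none Ext.none)

def k0_pp_202_a : ∃ t, chk3 f_pp_202_a t 1 1 1 = true :=
  ⟨(l 4), by decide +kernel⟩

theorem c_pp_202_a : CertB 0 536870912 0 536870912 991146299 28908434 3 eng mog cd1q2a cd4q0 pd2 true true true .pp 2 0 2
    ndB1q2a ndB4q0 pcB2 Cut.none Ext.none :=
  certB0 (fam := true) (s1 := true) (s2 := true) (a := 2) (b := 0) (c := 2) (cn := .pp) (n1 := ndB1q2a) (n2 := ndB4q0) (pc := pcB2) (cut := Cut.none) (xt := Ext.none) (P1 := 0) (W1 := 536870912) (P2 := 0) (W2 := 536870912) (P3 := 991146299) (W3 := 28908434) (N0 := 3) (En := eng) (mo := mog) (C1 := cd1q2a) (C2 := cd4q0) (C3 := pd2)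
    rfl k0_pp_202_a

noncomputable def f_pp_202_b : ℕ → ℕ → ℕ → ℕ → Bool := onCell 1239849684 370763052 0 536870912 991146299 28908434
    (rowB 3 eng mog cd1q2b cd4q0 pd2 0 true true true .pp 2 0 2 (qsf 1239849684 370763052 0 536870912 2) ndB1q2b ndB4q0 pcB2 Cut.none Ext.none)

def k0_pp_202_b : ∃ t, chk3 f_pp_202_b t 1 1 1 = true :=
  ⟨(l 4), by decide +kernel⟩

theorem c_pp_202_b : CertB 1239849684 370763052 0 536870912 991146299 28908434 3 eng mog cd1q2b cd4q0 pd2 true true true .pp 2 0 2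
    ndB1q2b ndB4q0 pcB2 Cut.none Ext.none :=
  certB0 (fam := true) (s1 := true) (s2 := true) (a := 2) (b := 0) (c := 2) (cn := .pp) (n1 := ndB1q2b) (n2 := ndB4q0) (pc := pcB2) (cut := Cut.none) (xt := Ext.none) (P1 := 1239849684) (W1 := 370763052) (P2 := 0) (W2 := 536870912) (P3 := 991146299) (W3 := 28908434) (N0 := 3) (En := eng) (mo := mog) (C1 := cd1q2b) (C2 := cd4q0) (C3 := pd2)
    rfl k0_pp_202_b

noncomputable def f_pp_203_a : ℕ → ℕ → ℕ → ℕ → Bool := onCell 0 536870912 0 536870912 991146299 28908434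
    (rowB 3 eng mog cd1q2a cd4q0 pd3 0 true true true .up 2 0 3 (qsf 0 536870912 0 536870912 3) ndB1q2a ndB4q0 pcB3 Cut.none Ext.none)

def k0_pp_203_a : ∃ t, chk3 f_pp_203_a t 1 1 1 = true :=
  ⟨(l 4), by decide +kernel⟩

theorem c_pp_203_a : CertB 0 536870912 0 536870912 991146299 28908434 3 eng mog cd1q2a cd4q0 pd3 true true true .up 2 0 3
    ndB1q2a ndB4q0 pcB3 Cut.none Ext.none :=
  certB0 (fam := true) (s1 := true) (s2 := true) (a := 2) (b := 0) (c := 3) (cn := .up) (n1 := ndB1q2a) (n2 := ndB4q0) (pc := pcB3) (cut := Cut.none) (xt := Ext.none) (P1 := 0) (W1 := 536870912) (P2 := 0) (W2 := 536870912) (P3 := 991146299) (W3 := 28908434) (N0 := 3) (En := eng) (mo := mog) (C1 := cd1q2a) (C2 := cd4q0) (C3 := pd3)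
    rfl k0_pp_203_a

noncomputable def f_pp_203_b : ℕ → ℕ → ℕ → ℕ → Bool := onCell 1239849684 370763052 0 536870912 991146299 28908434
    (rowB 3 eng mog cd1q2b cd4q0 pd3 0 true true true .up 2 0 3 (qsf 1239849684 370763052 0 536870912 3) ndB1q2b ndB4q0 pcB3 Cut.none Ext.none)

def k0_pp_203_b : ∃ t, chk3 f_pp_203_b t 1 1 1 = true :=
  ⟨(l 4), by decide +kernel⟩

theorem c_pp_203_b : CertB 1239849684 370763052 0 536870912 991146299 28908434 3 eng mog cd1q2b cd4q0 pd3 true true true .up 2 0 3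
    ndB1q2b ndB4q0 pcB3 Cut.none Ext.none :=
  certB0 (fam := true) (s1 := true) (s2 := true) (a := 2) (b := 0) (c := 3) (cn := .up) (n1 := ndB1q2b) (n2 := ndB4q0) (pc := pcB3) (cut := Cut.none) (xt := Ext.none) (P1 := 1239849684) (W1 := 370763052) (P2 := 0) (W2 := 536870912) (P3 := 991146299) (W3 := 28908434) (N0 := 3) (En := eng) (mo := mog) (C1 := cd1q2b) (C2 := cd4q0) (C3 := pd3)
    rfl k0_pp_203_b

noncomputable def f_pp_213_a : ℕ → ℕ → ℕ → ℕ → Bool := onCell 0 536870912 536870912 536870912 991146299 28908434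
    (rowB 3 eng mog cd1q2a cd4q1 pd3 0 true true true .pnn 2 1 3 (qsf 0 536870912 536870912 536870912 3) ndB1q2a ndB4q1 pcB3 Cut.none Ext.none)

def k0_pp_213_a : ∃ t, chk3 f_pp_213_a t 1 1 1 = true :=
  ⟨(l 4), by decide +kernel⟩

theorem c_pp_213_a : CertB 0 536870912 536870912 536870912 991146299 28908434 3 eng mog cd1q2a cd4q1 pd3 true true true .pnn 2 1 3
    ndB1q2a ndB4q1 pcB3 Cut.none Ext.none :=
  certB0 (fam := true) (s1 := true) (s2 := true) (a := 2) (b := 1) (c := 3) (cn := .pnn) (n1 := ndB1q2a) (n2 := ndB4q1) (pc := pcB3) (cut := Cut.none) (xt := Ext.none) (P1 := 0) (W1 := 536870912) (P2 := 536870912) (W2 := 536870912) (P3 := 991146299) (W3 := 28908434) (N0 := 3) (En := eng) (mo := mog) (C1 := cd1q2a) (C2 := cd4q1) (C3 := pd3)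
    rfl k0_pp_213_a

noncomputable def f_pp_213_b : ℕ → ℕ → ℕ → ℕ → Bool := onCell 1239849684 370763052 536870912 536870912 991146299 28908434
    (rowB 3 eng mog cd1q2b cd4q1 pd3 0 true true true .pnn 2 1 3 (qsf 1239849684 370763052 536870912 536870912 3) ndB1q2b ndB4q1 pcB3 Cut.none Ext.none)

def k0_pp_213_b : ∃ t, chk3 f_pp_213_b t 1 1 1 = true :=
  ⟨(l 4), by decide +kernel⟩

theorem c_pp_213_b : CertB 1239849684 370763052 536870912 536870912 991146299 28908434 3 eng mog cd1q2b cd4q1 pd3 true true true .pnn 2 1 3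
    ndB1q2b ndB4q1 pcB3 Cut.none Ext.none :=
  certB0 (fam := true) (s1 := true) (s2 := true) (a := 2) (b := 1) (c := 3) (cn := .pnn) (n1 := ndB1q2b) (n2 := ndB4q1) (pc := pcB3) (cut := Cut.none) (xt := Ext.none) (P1 := 1239849684) (W1 := 370763052) (P2 := 536870912) (W2 := 536870912) (P3 := 991146299) (W3 := 28908434) (N0 := 3) (En := eng) (mo := mog) (C1 := cd1q2b) (C2 := cd4q1) (C3 := pd3)
    rfl k0_pp_213_b

noncomputable def f_pp_303 : ℕ → ℕ → ℕ → ℕ → Bool := onCell 1610612736 536870912 0 536870912 991146299 28908434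
    (rowB 3 eng mog cd1q3 cd4q0 pd3 0 true true true .npn 3 0 3 (qsf 1610612736 536870912 0 536870912 3) ndB1q3 ndB4q0 pcB3 Cut.none Ext.none)

def k0_pp_303 : ∃ t, chk3 f_pp_303 t 1 1 1 = true :=
  ⟨(l 4), by decide +kernel⟩

theorem c_pp_303 : CertB 1610612736 536870912 0 536870912 991146299 28908434 3 eng mog cd1q3 cd4q0 pd3 true true true .npn 3 0 3
    ndB1q3 ndB4q0 pcB3 Cut.none Ext.none :=
  certB0 (fam := true) (s1 := true) (s2 := true) (a := 3) (b := 0) (c := 3) (cn := .npn) (n1 := ndB1q3) (n2 := ndB4q0) (pc := pcB3) (cut := Cut.none) (xt := Ext.none) (P1 := 1610612736) (W1 := 536870912) (P2 := 0) (W2 := 536870912) (P3 := 991146299) (W3 := 28908434) (N0 := 3) (En := eng) (mo := mog) (C1 := cd1q3) (C2 := cd4q0) (C3 := pd3)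
    rfl k0_pp_303

noncomputable def f_pp_313 : ℕ → ℕ → ℕ → ℕ → Bool := onCell 1610612736 536870912 536870912 536870912 991146299 28908434
    (rowB 3 eng mog cd1q3 cd4q1 pd3 0 true true true .dn 3 1 3 (qsf 1610612736 536870912 536870912 536870912 3) ndB1q3 ndB4q1 pcB3 Cut.none Ext.none)

def k0_pp_313 : ∃ t, chk3 f_pp_313 t 1 1 1 = true :=
  ⟨(l 4), by decide +kernel⟩

theorem c_pp_313 : CertB 1610612736 536870912 536870912 536870912 991146299 28908434 3 eng mog cd1q3 cd4q1 pd3 true true true .dn 3 1 3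
    ndB1q3 ndB4q1 pcB3 Cut.none Ext.none :=
  certB0 (fam := true) (s1 := true) (s2 := true) (a := 3) (b := 1) (c := 3) (cn := .dn) (n1 := ndB1q3) (n2 := ndB4q1) (pc := pcB3) (cut := Cut.none) (xt := Ext.none) (P1 := 1610612736) (W1 := 536870912) (P2 := 536870912) (W2 := 536870912) (P3 := 991146299) (W3 := 28908434) (N0 := 3) (En := eng) (mo := mog) (C1 := cd1q3) (C2 := cd4q1) (C3 := pd3)
    rfl k0_pp_313

noncomputable def f_pm_001 : ℕ → ℕ → ℕ → ℕ → Bool := onCell 0 536870912 536870912 536870912 991146299 28908434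
    (rowB 3 eng mog cd1q0 cd4q0 pd1 1 true true false .up 0 0 1 (qsf 0 536870912 0 536870912 1) ndB1q0 ndB4q0 pcB1 Cut.none Ext.none)

def k0_pm_001 : ∃ t, chk3 f_pm_001 t 1 1 1 = true :=
  ⟨(b (l 3) (b (l 3) (a (l 2) (b (l 3) (a (l 2) (a (b (b (l 3) (l 2)) (l 2)) (b (c (b (l 16136976) (l 16068016)) (l 160689866439)) (c (l 15737944) (l 15484040))))))))), by decide +kernel⟩

theorem c_pm_001 : CertB 0 536870912 0 536870912 991146299 28908434 3 eng mog cd1q0 cd4q0 pd1 true true false .up 0 0 1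
    ndB1q0 ndB4q0 pcB1 Cut.none Ext.none :=
  certB1 (fam := true) (s1 := true) (s2 := false) (a := 0) (b := 0) (c := 1) (cn := .up) (n1 := ndB1q0) (n2 := ndB4q0) (pc := pcB1) (cut := Cut.none) (xt := Ext.none) (P1 := 0) (W1 := 536870912) (P2 := 0) (W2 := 536870912) (P3 := 991146299) (W3 := 28908434) (N0 := 3) (En := eng) (mo := mog) (C1 := cd1q0) (C2 := cd4q0) (C3 := pd1)
    rfl (fun _ => rfl) k0_pm_001

noncomputable def cut_pm_011 : Cut := Cut.of [[⟨0, 0, 0, 53687091⟩, ⟨1, 1, 0, 53687091⟩, ⟨2, 1, 0, 53687091⟩]]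

noncomputable def f_pm_011 : ℕ → ℕ → ℕ → ℕ → Bool := onCell 0 536870912 536870912 536870912 991146299 28908434
    (rowB 3 eng mog cd1q0 cd4q1 pd1 1 true true false .pnn 0 1 1 (qsf 0 536870912 536870912 536870912 1) ndB1q0 ndB4q1 pcB1 cut_pm_011 Ext.none)

def k0_pm_011 : ∃ t, chk3 f_pm_011 t 1 1 1 = true :=
  ⟨(b (l 3) (b (l 3) (a (b (l 3) (b (l 3) (a (b (l 3) (b (l 3) (a (a (l 6) (a (b (l 3) (l 12964526406471)) (l 301352200151))) (a (a (l 16692744) (l 16672424)) (l 16641976))))) (a (b (l 3) (a (l 16610280) (l 16569336))) (b (l 3) (a (l 16527872) (l 16485752))))))) (b (l 3) (a (b (a (l 3) (l 489256271511)) (a (b (l 16462456) (l 16421024)) (b (l 16375120) (l 16290040)))) (b (a (l 115593976663) (l 16263432)) (a (b (l 16242560) (l 16239712)) (l 16167120)))))))), by decide +kernel⟩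

theorem c_pm_011 : CertB 0 536870912 536870912 536870912 991146299 28908434 3 eng mog cd1q0 cd4q1 pd1 true true false .pnn 0 1 1
    ndB1q0 ndB4q1 pcB1 cut_pm_011 Ext.none :=
  certB1 (fam := true) (s1 := true) (s2 := false) (a := 0) (b := 1) (c := 1) (cn := .pnn) (n1 := ndB1q0) (n2 := ndB4q1) (pc := pcB1) (cut := cut_pm_011) (xt := Ext.none) (P1 := 0) (W1 := 536870912) (P2 := 536870912) (W2 := 536870912) (P3 := 991146299) (W3 := 28908434) (N0 := 3) (En := eng) (mo := mog) (C1 := cd1q0) (C2 := cd4q1) (C3 := pd1)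
    rfl (fun _ => rfl) k0_pm_011

noncomputable def cut_pm_012 : Cut := Cut.of [[⟨0, 0, 0, 53687091⟩, ⟨1, 1, 0, 53687091⟩, ⟨2, 1, 0, 53687091⟩]]

noncomputable def xt_pm_012 : Ext := extD3 3 ⟨4, 1, 1, 5, 22, 5, 21, 25, 41, 100, 1, 20⟩ eng cd1q0 cd4q1 pd2 true true false .pnp 0 1 2 rfl ndB1q0 ndB4q1 pcB2

noncomputable def f_pm_012 : ℕ → ℕ → ℕ → ℕ → Bool := onCell 1073741824 536870912 536870912 536870912 991146299 28908434
    (rowB 3 eng mog cd1q0 cd4q1 pd2 2 true true false .pnp 0 1 2 (qsf 0 536870912 536870912 536870912 2) ndB1q0 ndB4q1 pcB2 cut_pm_012 xt_pm_012)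

def k0_pm_012 : ∃ t, chk3 f_pm_012 t 4 1 1 = true :=
  ⟨(a (b (b (b (a (l 16203496) (l 16204568)) (a (l 16298168) (l 16239624))) (a (b (l 16264080) (a (l 16451216) (l 16397040))) (b (l 16264152) (l 16280944)))) (b (a (b (a (l 16407432) (l 16431448)) (a (a (l 16490872) (l 16531104)) (b (l 16455352) (l 16470624)))) (b (a (l 16336752) (l 16248912)) (a (l 16288952) (l 16248728)))) (a (b (a (b (a (l 16653040) (l 16584264)) (a (b (l 16671896) (l 16684152)) (l 16541992))) (b (l 16443416) (a (l 16534080) (l 16465584)))) (a (b (a (b (l 16633208) (a (b (l 16724744) (l 6)) (l 16667032))) (b (l 16598888) (l 595182033446020566249087))) (l 6)) (b (b (l 587876692811698147137599) (a (l 16553544) (l 16479920))) (b (a (b (l 16559152) (l 6)) (c (l 16488920) (l 16481872))) (l 6))))) (b (b (a (l 16361424) (l 16246448)) (a (l 16304384) (l 16244408))) (b (a (b (l 16371376) (l 581588220914087041166975)) (b (l 16242544) (l 16241264))) (a (b (a (l 16412192) (l 16341400)) (a (b (l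 16414736) (l 6)) (b (l 16342496) (l 16343208)))) (b (c (l 16248104) (l 16231680)) (a (l 16272632) (l 16183920))))))))) (b (b (a (b (l 16127792) (l 16146680)) (b (l 2) (l 16061760))) (a (b (l 16150984) (l 16144320)) (b (l 16050688) (l 16025888)))) (b (b (a (l 16129576) (l 15990800)) (a (b (l 16114352) (l 16102984)) (l 15801408))) (b (a (b (l 16090776) (a (l 16130776) (l 16026272))) (b (l 15912384) (l 15939976))) (a (b (a (l 16141912) (l 16009568)) (a (b (l 16113280) (c (l 16119816) (l 16096440))) (b (l 15996704) (l 15988152)))) (b (c (l 15873544) (l 15850496)) (a (b (l 15890336) (l 15878632)) (l 15766488)))))))), by decide +kernel⟩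

def k1_pm_012 : ∃ t, chk3 f_pm_012 t 5 1 1 = true :=
  ⟨(b (a (b (a (a (l 16005912) (l 2)) (l 2)) (a (a (l 15945776) (a (l 15932448) (b (l 15929240) (l 15888648)))) (l 15772176))) (b (l 2) (b (l 15765944) (l 15698104)))) (a (b (a (a (b (l 15900192) (l 15845056)) (b (a (l 15859736) (l 15836952)) (a (l 15800360) (l 15777320)))) (b (l 15768544) (l 15698960))) (a (a (b (l 15784080) (b (l 15735456) (b (l 15710664) (l 15694096)))) (b (a (l 15735104) (a (l 15715016) (l 15706368))) (a (b (l 15683344) (l 15648280)) (b (a (l 15662824) (l 15739088)) (a (l 15627504) (a (l 15622456) (l 15620448))))))) (b (l 15623352) (b (l 15563672) (l 15523424))))) (b (b (l 15612712) (l 15514040)) (b (a (l 15474016) (l 15338960)) (b (l 15318816) (a (l 15343376) (l 15178368))))))), by decide +kernel⟩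

def k2_pm_012 : ∃ t, chk3 f_pm_012 t 3 1 1 = true :=
  ⟨(b (a (b (l 2) (a (b (l 2) (l 15531176)) (l 2))) (l 2)) (a (b (a (b (l 15360184) (l 15312152)) (b (l 15182336) (a (l 15191928) (l 15126712)))) (a (b (a (l 15218408) (l 15112280)) (a (l 15068576) (l 14941368))) (b (l 14980368) (a (l 14830152) (l 14734704))))) (b (a (b (l 2) (a (l 15065864) (l 2))) (l 2)) (a (b (a (l 14875544) (l 14821128)) (l 14453600)) (b (a (l 14768352) (l 2)) (a (l 14538416) (l 14493512))))))), by decide +kernel⟩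

theorem s3_pm_012 : ∃ t, chk3 f_pm_012 t 2 1 1 = true := ex3_a k0_pm_012 k1_pm_012

theorem s4_pm_012 : ∃ t, chk3 f_pm_012 t 1 1 1 = true := ex3_a s3_pm_012 k2_pm_012

theorem c_pm_012 : CertB 0 536870912 536870912 536870912 991146299 28908434 3 eng mog cd1q0 cd4q1 pd2 true true false .pnp 0 1 2
    ndB1q0 ndB4q1 pcB2 cut_pm_012 xt_pm_012 :=
  certB2 (fam := true) (s1 := true) (s2 := false) (a := 0) (b := 1) (c := 2) (cn := .pnp) (n1 := ndB1q0) (n2 := ndB4q1) (pc := pcB2) (cut := cut_pm_012) (xt := xt_pm_012) (P1 := 0) (W1 := 536870912) (P2 := 536870912) (W2 := 536870912) (P3 := 991146299) (W3 := 28908434) (N0 := 3) (En := eng) (mo := mog) (C1 := cd1q0) (C2 := cd4q1) (C3 := pd2)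
    rfl (fun _ => rfl) s4_pm_012

noncomputable def f_pm_022 : ℕ → ℕ → ℕ → ℕ → Bool := onCell 1073741824 536870912 1073741824 536870912 991146299 28908434
    (rowB 3 eng mog cd1q0 cd4q2 pd2 2 true true false .pp 0 2 2 (qsf 0 536870912 1073741824 536870912 2) ndB1q0 ndB4q2 pcB2 Cut.none Ext.none)

def k0_pm_022 : ∃ t, chk3 f_pm_022 t 2 1 1 = true :=
  ⟨(b (b (a (l 3) (a (a (a (a (l 3) (b (c (b (l 16067664) (l 16079384)) (b (l 204713634583) (l 15876616))) (l 3))) (a (b (c (b (l 16055688) (l 16086600)) (b (c (l 15919768) (l 15795392)) (c (l 15963024) (l 15862192)))) (b (c (l 16120248) (l 15952784)) (c (l 16073176) (l 15956944)))) (a (b (c (b (l 16120392) (l 16128976)) (b (l 15886320) (l 15938984))) (b (c (l 16140232) (l 15997360)) (c (l 16154568) (l 16062016)))) (b (c (b (a (l 16133832) (l 16148096)) (a (l 16140832) (l 16153496))) (b (a (l 15901904) (l 15916720)) (a (l 15952664) (l 15965768)))) (b (c (a (l 16150808) (l 16161728)) (l 15889120)) (c (a (l 16164056)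 (l 16173176)) (l 16077416))))))) (b (c (b (l 16192504) (l 16214896)) (b (l 15953920) (l 16038344))) (b (c (l 16219008) (l 16086472)) (c (l 16226160) (l 16140816))))) (b (c (a (l 16109672) (l 16350832)) (b (l 16007688) (l 16073488))) (b (a (l 16067688) (l 16285704)) (a (l 16150288) (l 16358248)))))) (b (a (a (l 1) (l 3)) (a (a (a (l 3) (a (b (c (b (l 16150272) (l 383358074375)) (b (l 16095552) (l 364567488983))) (l 1)) (a (b (c (l 16172472) (l 16133488)) (l 1)) (b (c (a (l 16180896) (l 16188672)) (a (l 16142536) (l 16150376))) (c (a (l 1) (l 635687442375)) (l 600790762263)))))) (b (c (l 16236784) (l 16201888)) (c (l 374768168599) (l 370473178647)))) (b (a (l 16300600) (l 16367520)) (a (l 16205328) (l 16276632))))) (a (l 1) (a (a (l 1) (b (c (l 830034972743) (l 648035528311)) (l 1))) (c (b (l 377989259687) (l 518112458519)) (b (a (l 16214264) (l 16154776)) (a (l 519186377783) (l 15994504)))))))) (a (l 1) (b (a (l 1) (b (b (c (l 571262600151) (a (l 1) (l 633002284951)))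 (l 1)) (l 1))) (l 1)))), by decide +kernel⟩

def k1_pm_022 : ∃ t, chk3 f_pm_022 t 3 1 1 = true :=
  ⟨(b (b (a (b (c (a (b (l 16443104) (l 16362816)) (l 16158024)) (a (b (l 16427128) (l 16425984)) (l 16226032))) (a (b (c (l 16288944) (l 16430432)) (l 16093904)) (c (l 15975984) (l 16127328)))) (b (c (a (l 15954728) (l 15792208)) (a (l 16202456) (l 16030624))) (a (b (l 15918744) (l 15824856)) (l 15518184)))) (a (b (a (b (l 16165992) (l 15973376)) (b (l 15931632) (l 15847704))) (a (b (l 15768280) (a (l 15821736) (l 15869240))) (b (l 15772520) (l 15705816)))) (b (a (l 15694472) (l 15538112)) (a (l 15382776) (l 15399448))))) (a (b (b (a (c (b (l 358124285607) (l 580925635095)) (b (l 354365860935) (l 580925241095))) (b (l 15458536) (c (l 15695864) (l 15493720)))) (b (a (a (l 1) (l 597031364135)) (c (l 15665824) (l 15436880))) (a (l 1) (c (l 563208364263) (l 562670992343))))) (a (l 1) (b (b (a (l 1) (l 570724166599)) (l 1)) (l 1)))) (b (b (a (c (l 15535488) (l 15343168))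 (l 15295512)) (a (c (l 15462032) (b (l 15260672) (l 15218384))) (c (l 15346664) (l 15097032)))) (b (a (c (l 388724935063) (b (l 15185824) (l 15204512))) (c (l 15319000) (l 15039184))) (a (b (c (l 542270482951) (l 533680071223)) (l 1)) (c (l 401072683671) (l 367249847927))))))), by decide +kernel⟩

theorem s2_pm_022 : ∃ t, chk3 f_pm_022 t 1 1 1 = true := ex3_a k0_pm_022 k1_pm_022

theorem c_pm_022 : CertB 0 536870912 1073741824 536870912 991146299 28908434 3 eng mog cd1q0 cd4q2 pd2 true true false .pp 0 2 2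
    ndB1q0 ndB4q2 pcB2 Cut.none Ext.none :=
  certB2 (fam := true) (s1 := true) (s2 := false) (a := 0) (b := 2) (c := 2) (cn := .pp) (n1 := ndB1q0) (n2 := ndB4q2) (pc := pcB2) (cut := Cut.none) (xt := Ext.none) (P1 := 0) (W1 := 536870912) (P2 := 1073741824) (W2 := 536870912) (P3 := 991146299) (W3 := 28908434) (N0 := 3) (En := eng) (mo := mog) (C1 := cd1q0) (C2 := cd4q2) (C3 := pd2)
    rfl (fun _ => rfl) s2_pm_022

noncomputable def f_pm_023 : ℕ → ℕ → ℕ → ℕ → Bool := onCell 1610612736 536870912 1073741824 536870912 991146299 28908434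
    (rowB 3 eng mog cd1q0 cd4q2 pd3 2 true true false .up 0 2 3 (qsf 0 536870912 1073741824 536870912 3) ndB1q0 ndB4q2 pcB3 Cut.none Ext.none)

def k0_pm_023 : ∃ t, chk3 f_pm_023 t 1 1 1 = true :=
  ⟨(a (b (a (b (b (a (c (l 15618336) (l 15840152)) (c (l 15494632) (l 15722064))) (a (c (l 15579672) (l 15640816)) (c (l 15444000) (l 15516304)))) (b (a (b (l 15544736) (l 15473000)) (b (l 15419824) (l 15377952))) (a (l 15349056) (l 15270624)))) (b (a (b (l 2) (l 237931201287)) (l 2)) (a (b (b (l 15321896) (l 15298968)) (l 15214744)) (b (l 15229840) (l 15180264))))) (a (a (b (b (l 15212832) (l 14920584)) (b (c (l 15166752) (l 14900192)) (b (l 14997272) (a (l 15006256) (l 14957944))))) (b (b (l 15134288) (l 15030912)) (b (l 14957000) (c (b (l 15056704) (l 15064456)) (l 14792808))))) (b (b (a (l 15092112) (l 15084488)) (a (l 14990768) (l 14987592))) (b (a (l 14920184) (l 14925792)) (a (b (l 14904032) (l 14946928)) (c (l 15109928) (l 14791904))))))) (b (a (b (l 2)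 (a (b (l 2) (b (l 2) (l 15169592))) (l 2))) (l 2)) (a (b (b (a (l 15099784) (l 15105280)) (a (l 15018712) (l 15056624))) (a (b (l 14966800) (l 14975752)) (b (l 15039168) (l 15036808)))) (b (a (a (b (l 2) (l 15145136)) (l 2)) (l 2)) (a (a (b (l 15103032) (l 15073648)) (b (l 15152288) (l 15110360))) (b (a (b (l 2) (l 15200096)) (l 2)) (a (a (l 15153568) (l 15192032)) (a (l 15222704) (a (l 15241464) (a (l 15250440) (a (l 15255552) (l 15259752)))))))))))), by decide +kernel⟩

theorem c_pm_023 : CertB 0 536870912 1073741824 536870912 991146299 28908434 3 eng mog cd1q0 cd4q2 pd3 true true false .up 0 2 3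
    ndB1q0 ndB4q2 pcB3 Cut.none Ext.none :=
  certB2 (fam := true) (s1 := true) (s2 := false) (a := 0) (b := 2) (c := 3) (cn := .up) (n1 := ndB1q0) (n2 := ndB4q2) (pc := pcB3) (cut := Cut.none) (xt := Ext.none) (P1 := 0) (W1 := 536870912) (P2 := 1073741824) (W2 := 536870912) (P3 := 991146299) (W3 := 28908434) (N0 := 3) (En := eng) (mo := mog) (C1 := cd1q0) (C2 := cd4q2) (C3 := pd3)
    rfl (fun _ => rfl) k0_pm_023

noncomputable def f_pm_033 : ℕ → ℕ → ℕ → ℕ → Bool := onCell 1610612736 536870912 0 1230186008 991146299 28908434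
    (rowB 3 eng mog cd1q0 cd4q3 pd3 2 true true false .pnn 0 3 3 (qsf 0 536870912 0 1230186008 3) ndB1q0 ndB4q3 pcB3 Cut.none Ext.none)

def k0_pm_033 : ∃ t, chk3 f_pm_033 t 2 1 1 = true :=
  ⟨(b (l 1) (b (b (l 1) (a (l 1) (b (l 1) (a (l 1) (a (l 1) (b (l 1) (a (l 1) (l 15169552)))))))) (b (a (l 1) (a (b (a (l 1) (b (l 1) (l 388187088007))) (a (b (l 1) (a (l 15005096) (l 15008344))) (b (l 14835232) (l 353290914215)))) (b (a (b (l 386039788263) (l 15001448)) (b (l 15235584) (l 15318136))) (a (b (l 15257576) (l 15325328)) (l 15422048))))) (a (a (b (l 1) (b (a (l 1) (l 15482264)) (a (l 15629712) (l 15691368)))) (b (b (a (l 1) (l 15155440)) (l 336648222567)) (b (l 15531688) (l 15707752)))) (a (b (b (a (l 15220376) (l 15281352)) (l 15387040)) (b (l 15572392) (l 15734760))) (b (a (b (l 15387024) (l 15479768)) (l 15539888)) (b (l 15644488) (l 15768056)))))))), by decide +kernel⟩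

def k1_pm_033 : ∃ t, chk3 f_pm_033 t 3 1 1 = true :=
  ⟨(a (b (l 1) (b (a (b (l 1) (a (b (l 585219153127) (b (l 15123920) (l 15228360))) (b (l 334500418327) (l 15244152)))) (b (a (b (l 1) (l 14766456)) (b (a (l 14841520) (l 14919280)) (l 15054008))) (b (a (l 15139064) (l 15224576)) (l 15302192)))) (b (a (b (a (b (l 15290400) (l 15359552)) (l 15353168)) (a (l 15485392) (l 15469480))) (b (l 15445592) (a (l 15497352) (l 15559448)))) (a (b (l 15636496) (l 15611848)) (b (a (l 15615696) (l 15638976)) (a (l 15760160) (l 15764952))))))) (b (b (l 4) (a (a (b (l 1) (b (l 1) (a (l 14882528) (l 14998688)))) (l 4)) (l 4))) (a (b (a (b (a (b (l 15009552) (l 15154544)) (l 15174208)) (b (a (l 15298664) (l 15358848)) (b (l 15423000) (l 15482144)))) (b (a (l 15269696) (l 15374744)) (b (l 15469928) (l 15564248)))) (b (a (l 15615528) (b (l 15653288) (l 15731096))) (a (b (l 15715504) (l 15780528)) (b (l 15797352) (l 15850032))))) (a (b (b (l 4) (l 15518904)) (b (a (l 15777784)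 (l 15630592)) (a (l 15893480) (l 15934104)))) (b (l 4) (a (b (l 15907760) (l 15980560)) (b (l 4) (a (l 16011944) (b (l 4) (a (l 16038672) (l 16042440))))))))))), by decide +kernel⟩

theorem s2_pm_033 : ∃ t, chk3 f_pm_033 t 1 1 1 = true := ex3_a k0_pm_033 k1_pm_033

theorem c_pm_033 : CertB 0 536870912 0 1230186008 991146299 28908434 3 eng mog cd1q0 cd4q3 pd3 true true false .pnn 0 3 3
    ndB1q0 ndB4q3 pcB3 Cut.none Ext.none :=
  certB2 (fam := true) (s1 := true) (s2 := false) (a := 0) (b := 3) (c := 3) (cn := .pnn) (n1 := ndB1q0) (n2 := ndB4q3) (pc := pcB3) (cut := Cut.none) (xt := Ext.none) (P1 := 0) (W1 := 536870912) (P2 := 0) (W2 := 1230186008) (P3 := 991146299) (W3 := 28908434) (N0 := 3) (En := eng) (mo := mog) (C1 := cd1q0) (C2 := cd4q3) (C3 := pd3)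
    rfl (fun _ => rfl) s2_pm_033

noncomputable def f_pm_101 : ℕ → ℕ → ℕ → ℕ → Bool := onCell 536870912 536870912 0 536870912 991146299 28908434
    (rowB 3 eng mog cd1q1 cd4q0 pd1 2 true true false .npn 1 0 1 (qsf 536870912 536870912 0 536870912 1) ndB1q1 ndB4q0 pcB1 Cut.none Ext.none)

def k0_pm_101 : ∃ t, chk3 f_pm_101 t 1 1 1 = true :=
  ⟨(a (l 3) (a (b (b (b (l 3) (l 3)) (l 3)) (l 3)) (b (a (b (b (a (b (a (l 15965736) (l 15825632)) (a (l 15829040) (l 15789168))) (b (a (l 15664768) (l 15497400)) (l 15685592))) (a (b (l 122572634743) (l 16005024)) (b (l 15797960) (l 15728352)))) (b (a (b (l 16073632) (l 15827528)) (c (l 15901024) (l 135456767607))) (a (l 3) (b (l 15883600) (l 15794888))))) (b (a (b (b (a (l 15324768) (l 15148920)) (a (l 15440856) (l 15258816))) (b (l 15469520) (l 15601448))) (a (b (b (l 14975352) (l 15124264)) (l 15405880)) (b (b (l 14792152) (l 15011624)) (l 15243776)))) (a (b (b (l 15691616) (l 15739928)) (b (l 15756728) (l 15667536)))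 (b (b (l 15570640) (l 15627312)) (b (l 15641032) (l 15628024)))))) (a (a (l 3) (b (b (c (l 15784208) (l 163910862455)) (b (l 144047138743) (l 301887157927))) (l 3))) (b (a (b (c (l 15603520) (l 15404368)) (c (a (l 15779632) (l 15698200)) (a (l 15588792) (l 15513120)))) (b (b (l 15598312) (l 15558536)) (c (a (l 15613928) (l 15535816)) (l 15419952)))) (a (b (c (b (l 15692656) (l 15662272)) (b (l 15487904) (l 15449320))) (c (b (l 15634568) (l 15610896)) (b (l 15415640) (l 15388144)))) (b (c (b (l 15513592) (l 15474752)) (b (l 15319344) (l 15270560))) (c (b (l 15438944) (l 15407544)) (b (l 15227256) (l 15190680)))))))))), by decide +kernel⟩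

theorem c_pm_101 : CertB 536870912 536870912 0 536870912 991146299 28908434 3 eng mog cd1q1 cd4q0 pd1 true true false .npn 1 0 1
    ndB1q1 ndB4q0 pcB1 Cut.none Ext.none :=
  certB2 (fam := true) (s1 := true) (s2 := false) (a := 1) (b := 0) (c := 1) (cn := .npn) (n1 := ndB1q1) (n2 := ndB4q0) (pc := pcB1) (cut := Cut.none) (xt := Ext.none) (P1 := 536870912) (W1 := 536870912) (P2 := 0) (W2 := 536870912) (P3 := 991146299) (W3 := 28908434) (N0 := 3) (En := eng) (mo := mog) (C1 := cd1q1) (C2 := cd4q0) (C3 := pd1)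
    rfl (fun _ => rfl) k0_pm_101

noncomputable def f_pm_102 : ℕ → ℕ → ℕ → ℕ → Bool := onCell 536870912 536870912 1073741824 536870912 991146299 28908434
    (rowB 3 eng mog cd1q1 cd4q0 pd2 1 true true false .npp 1 0 2 (qsf 536870912 536870912 0 536870912 2) ndB1q1 ndB4q0 pcB2 Cut.none Ext.none)

def k0_pm_102 : ∃ t, chk3 f_pm_102 t 1 1 1 = true :=
  ⟨(b (a (b (a (b (a (c (b (l 15387128) (l 15432016)) (b (l 15239496) (l 15302288))) (c (b (l 15473184) (l 15514112)) (b (l 15351032) (l 15405512)))) (a (b (l 15408768) (l 2)) (b (c (l 15543896) (l 15447288)) (l 15527120)))) (b (a (c (b (l 15581832) (l 15630896)) (b (l 15495904) (l 15554752))) (c (b (l 15717904) (l 15779896)) (b (l 15680968) (l 15751552)))) (a (b (l 15493384) (l 15677248)) (c (l 15847336) (l 15829784))))) (b (a (b (b (a (l 2) (l 15545968)) (l 2)) (l 2)) (a (c (l 15746328) (l 15696784)) (l 15820216))) (a (l 2) (a (l 15623832) (l 15943024))))) (a (a (b (b (c (l 15636224) (l 15777784)) (c (l 15930256)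 (l 16020560))) (b (c (l 15922976) (l 16075496)) (l 15935912))) (b (b (c (b (l 15704872) (l 15688264)) (b (l 15846720) (l 15834704))) (c (l 15652472) (l 15802360))) (b (c (l 15605352) (l 15754992)) (c (l 15569424) (l 15713832))))) (b (b (a (b (c (l 15355376) (l 15534608)) (c (l 15398112) (l 15516464))) (c (b (a (l 15243664) (l 15096288)) (l 15113800)) (b (a (l 15337160) (l 15198456)) (l 15202608)))) (a (c (l 15332120) (l 15451224)) (b (c (l 15048472) (l 15135704)) (c (l 14982824) (l 15066376))))) (b (a (c (l 15248208) (l 15363104)) (c (l 14888224) (l 14962520))) (a (c (l 15177320) (l 15282424)) (c (l 14773824) (l 14830144))))))) (a (a (l 2) (a (l 2) (b (b (l 15969440) (l 2)) (l 2)))) (a (b (c (a (l 15935008) (l 15549200)) (a (l 16086648) (l 15678264))) (a (l 2) (b (l 15630928) (l 2)))) (b (a (b (l 14917736) (l 15069328)) (b (c (l 14679328) (l 14712784)) (c (l 14610728) (l 14618080)))) (a (b (l 15122136) (l 15143984)) (b (l 14499712) (l 14548640))))))), by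 decide +kernel⟩

theorem c_pm_102 : CertB 536870912 536870912 0 536870912 991146299 28908434 3 eng mog cd1q1 cd4q0 pd2 true true false .npp 1 0 2
    ndB1q1 ndB4q0 pcB2 Cut.none Ext.none :=
  certB1 (fam := true) (s1 := true) (s2 := false) (a := 1) (b := 0) (c := 2) (cn := .npp) (n1 := ndB1q1) (n2 := ndB4q0) (pc := pcB2) (cut := Cut.none) (xt := Ext.none) (P1 := 536870912) (W1 := 536870912) (P2 := 0) (W2 := 536870912) (P3 := 991146299) (W3 := 28908434) (N0 := 3) (En := eng) (mo := mog) (C1 := cd1q1) (C2 := cd4q0) (C3 := pd2)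
    rfl (fun _ => rfl) k0_pm_102

noncomputable def f_pm_112 : ℕ → ℕ → ℕ → ℕ → Bool := onCell 536870912 536870912 1073741824 536870912 991146299 28908434
    (rowB 3 eng mog cd1q1 cd4q1 pd2 1 true true false .dn 1 1 2 (qsf 536870912 536870912 536870912 536870912 2) ndB1q1 ndB4q1 pcB2 Cut.none Ext.none)

def k0_pm_112 : ∃ t, chk3 f_pm_112 t 1 1 1 = true :=
  ⟨(b (a (b (a (b (a (b (l 15562704) (l 15636656)) (l 484288256823)) (a (b (l 15693240) (l 15733848)) (b (l 15668496) (l 15703208)))) (b (l 1) (a (l 399462840087) (l 1)))) (b (a (b (b (l 15540312) (b (l 15736176) (a (l 15764608) (l 15740816)))) (a (l 15772616) (l 15747768))) (a (l 15804768) (l 15919064))) (a (a (l 15792600) (l 15764312)) (a (l 15818648) (l 15914720))))) (a (b (l 1) (b (l 1) (a (l 15783304) (l 1)))) (l 1))) (a (b (a (b (a (l 15781936) (l 15750728)) (a (l 15728008) (l 15694512))) (b (a (l 15791432) (l 15863208)) (a (l 15722616) (l 15703432)))) (a (b (a (l 15530904) (l 15596288)) (a (l 15126264)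 (l 15331144))) (b (a (l 15597304) (l 15514168)) (a (l 15356704) (l 15301992))))) (a (b (b (a (l 15670648) (l 15385880)) (a (l 15528736) (l 15265680))) (b (a (l 15362152) (l 15124552)) (a (l 15175696) (l 14967456)))) (b (b (l 1) (a (l 14906584) (l 1))) (a (b (l 14785792) (l 14656104)) (b (l 14348984) (l 14234952))))))), by decide +kernel⟩

theorem c_pm_112 : CertB 536870912 536870912 536870912 536870912 991146299 28908434 3 eng mog cd1q1 cd4q1 pd2 true true false .dn 1 1 2
    ndB1q1 ndB4q1 pcB2 Cut.none Ext.none :=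
  certB1 (fam := true) (s1 := true) (s2 := false) (a := 1) (b := 1) (c := 2) (cn := .dn) (n1 := ndB1q1) (n2 := ndB4q1) (pc := pcB2) (cut := Cut.none) (xt := Ext.none) (P1 := 536870912) (W1 := 536870912) (P2 := 536870912) (W2 := 536870912) (P3 := 991146299) (W3 := 28908434) (N0 := 3) (En := eng) (mo := mog) (C1 := cd1q1) (C2 := cd4q1) (C3 := pd2)
    rfl (fun _ => rfl) k0_pm_112

noncomputable def f_pm_113 : ℕ → ℕ → ℕ → ℕ → Bool := onCell 536870912 536870912 1610612736 536870912 991146299 28908434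
    (rowB 3 eng mog cd1q1 cd4q1 pd3 1 true true false .nn 1 1 3 (qsf 536870912 536870912 536870912 536870912 3) ndB1q1 ndB4q1 pcB3 Cut.none Ext.none)

def k0_pm_113 : ∃ t, chk3 f_pm_113 t 1 1 1 = true :=
  ⟨(a (b (b (a (b (a (b (l 189074594439) (l 14350440)) (l 14671944)) (a (b (l 14349560) (l 2)) (c (l 14584448) (l 14438720)))) (b (a (l 15013464) (l 15080752)) (a (l 14691952) (l 14786696)))) (a (b (a (l 2) (l 13959320)) (l 2)) (b (a (l 14261928) (l 14475920)) (a (l 13883536) (l 14108472))))) (a (l 2) (b (b (a (l 2) (l 13659456)) (l 2)) (l 2)))) (b (b (a (b (a (l 15086432) (l 15020128)) (a (l 14829568) (l 14813752))) (b (a (l 14866608) (l 14629096)) (a (l 14716784) (l 14539752)))) (a (b (a (l 14559224) (l 14603512)) (a (l 14269328) (l 14390104))) (b (a (l 14586184) (b (l 14505784) (l 14516080))) (a (b (l 14506824) (l 14470248)) (l 14569704))))) (a (a (b (b (b (l 14019176) (l 13816744)) (b (l 13596224) (l 2))) (l 2)) (b (b (b (l 14218760) (l 14094736)) (b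 (l 13952696) (l 13813496))) (b (b (l 13750688) (l 2)) (l 2)))) (b (b (a (l 14433776) (b (l 14636928) (l 14699024))) (b (a (l 14404248) (l 14803808)) (a (l 14388432) (l 4)))) (l 4))))), by decide +kernel⟩

theorem c_pm_113 : CertB 536870912 536870912 536870912 536870912 991146299 28908434 3 eng mog cd1q1 cd4q1 pd3 true true false .nn 1 1 3
    ndB1q1 ndB4q1 pcB3 Cut.none Ext.none :=
  certB1 (fam := true) (s1 := true) (s2 := false) (a := 1) (b := 1) (c := 3) (cn := .nn) (n1 := ndB1q1) (n2 := ndB4q1) (pc := pcB3) (cut := Cut.none) (xt := Ext.none) (P1 := 536870912) (W1 := 536870912) (P2 := 536870912) (W2 := 536870912) (P3 := 991146299) (W3 := 28908434) (N0 := 3) (En := eng) (mo := mog) (C1 := cd1q1) (C2 := cd4q1) (C3 := pd3)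
    rfl (fun _ => rfl) k0_pm_113

noncomputable def f_pm_123 : ℕ → ℕ → ℕ → ℕ → Bool := onCell 1610612736 536870912 1073741824 536870912 991146299 28908434
    (rowB 3 eng mog cd1q1 cd4q2 pd3 2 true true false .npn 1 2 3 (qsf 536870912 536870912 1073741824 536870912 3) ndB1q1 ndB4q2 pcB3 Cut.none Ext.none)

def k0_pm_123 : ∃ t, chk3 f_pm_123 t 2 1 1 = true :=
  ⟨(b (a (b (b (a (c (l 16121448) (l 16211776)) (c (l 15926088) (l 16156056))) (a (c (l 15929320) (l 15989328)) (c (l 15763904) (l 15843536)))) (b (a (l 1) (b (l 15647672) (l 1))) (l 1))) (b (a (b (b (c (l 15562680) (l 16081152)) (c (l 15654160) (l 15913080))) (c (l 15597656) (l 15690912))) (a (b (c (l 15628976) (l 15827352)) (l 15549736)) (b (b (l 15945856) (l 15778696)) (b (l 15596880) (l 15452376))))) (a (b (b (l 15495712) (l 15416456)) (l 15261880)) (b (l 15318200) (l 15148256))))) (a (l 1) (b (b (a (l 1) (l 14983768)) (l 1)) (l 1)))), by decide +kernel⟩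

def k1_pm_123 : ∃ t, chk3 f_pm_123 t 3 1 1 = true :=
  ⟨(b (a (b (a (b (a (l 15893032) (b (l 15974528) (l 15855312))) (a (b (l 15645952) (l 15464480)) (l 15616288))) (b (a (b (l 15976000) (l 15888304)) (l 15974080)) (a (l 15681896) (b (l 15814016) (l 15669352))))) (a (b (c (l 15294568) (l 15274512)) (b (l 15098208) (l 15021552))) (b (a (l 15339288) (l 15415304)) (a (l 15041080) (l 15082936))))) (b (a (a (b (l 15989856) (l 15830176)) (b (a (a (l 16175920) (l 16081392)) (b (l 16232864) (l 16222928))) (l 15807432))) (b (a (a (b (c (l 16397448) (l 16072824)) (l 16336296)) (c (l 16397496) (b (l 16011592) (l 16332376)))) (l 4)) (a (a (l 16129880) (l 16256720)) (a (l 16449464) (l 4))))) (a (a (b (l 15495304) (l 15151184)) (b (l 15617320) (a (l 15213792) (l 15264168)))) (b (a (a (l 15758608) (l 15887096)) (a (l 15955960) (a (l 16091960) (l 4)))) (a (a (l 15338264) (l 15444920)) (a (l 15538064) (a (l 15589440) (a (l 15608472) (l 4))))))))) (a (b (b (a (l 14892248)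 (l 14839616)) (a (l 14770776) (l 14695488))) (a (l 1) (b (l 14638840) (l 1)))) (b (a (a (b (l 14869728) (l 14673672)) (b (a (l 14903800) (l 14934824)) (a (l 14680576) (l 14694256)))) (a (a (b (l 14972672) (l 14714680)) (b (l 15036392) (l 14755608))) (a (b (l 15111552) (l 14811872)) (a (b (l 15179936) (l 14857584)) (a (b (l 15201560) (l 14883560)) (a (l 14913896) (b (l 4) (l 14897104)))))))) (a (a (b (l 14577920) (l 1)) (b (b (l 14576496) (l 14534640)) (l 14516824))) (b (a (b (l 14584904) (l 14524144)) (a (l 14620240) (a (l 14654968) (a (l 14672640) (a (l 14681456) (l 14687592)))))) (a (a (l 14494600) (l 14498496)) (a (l 14532592) (a (l 14558384) (a (l 14571144) (a (l 14578264) (l 14584032))))))))))), by decide +kernel⟩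

theorem s2_pm_123 : ∃ t, chk3 f_pm_123 t 1 1 1 = true := ex3_a k0_pm_123 k1_pm_123

theorem c_pm_123 : CertB 536870912 536870912 1073741824 536870912 991146299 28908434 3 eng mog cd1q1 cd4q2 pd3 true true false .npn 1 2 3
    ndB1q1 ndB4q2 pcB3 Cut.none Ext.none :=
  certB2 (fam := true) (s1 := true) (s2 := false) (a := 1) (b := 2) (c := 3) (cn := .npn) (n1 := ndB1q1) (n2 := ndB4q2) (pc := pcB3) (cut := Cut.none) (xt := Ext.none) (P1 := 536870912) (W1 := 536870912) (P2 := 1073741824) (W2 := 536870912) (P3 := 991146299) (W3 := 28908434) (N0 := 3) (En := eng) (mo := mog) (C1 := cd1q1) (C2 := cd4q2) (C3 := pd3)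
    rfl (fun _ => rfl) s2_pm_123

noncomputable def f_pm_133 : ℕ → ℕ → ℕ → ℕ → Bool := onCell 536870912 536870912 0 1230186008 991146299 28908434
    (rowB 3 eng mog cd1q1 cd4q3 pd3 0 true true false .dn 1 3 3 (qsf 536870912 536870912 0 1230186008 3) ndB1q1 ndB4q3 pcB3 Cut.none Ext.none)

def k0_pm_133 : ∃ t, chk3 f_pm_133 t 1 1 1 = true :=
  ⟨(b (l 2) (b (l 2) (a (b (l 2) (a (b (l 2) (a (l 4) (l 2))) (l 2))) (l 2)))), by decide +kernel⟩

theorem c_pm_133 : CertB 536870912 536870912 0 1230186008 991146299 28908434 3 eng mog cd1q1 cd4q3 pd3 true true false .dn 1 3 3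
    ndB1q1 ndB4q3 pcB3 Cut.none Ext.none :=
  certB0 (fam := true) (s1 := true) (s2 := false) (a := 1) (b := 3) (c := 3) (cn := .dn) (n1 := ndB1q1) (n2 := ndB4q3) (pc := pcB3) (cut := Cut.none) (xt := Ext.none) (P1 := 536870912) (W1 := 536870912) (P2 := 0) (W2 := 1230186008) (P3 := 991146299) (W3 := 28908434) (N0 := 3) (En := eng) (mo := mog) (C1 := cd1q1) (C2 := cd4q3) (C3 := pd3)
    rfl k0_pm_133

noncomputable def f_pm_202_a : ℕ → ℕ → ℕ → ℕ → Bool := onCell 0 536870912 1073741824 536870912 991146299 28908434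
    (rowB 3 eng mog cd1q2a cd4q0 pd2 1 true true false .pp 2 0 2 (qsf 0 536870912 0 536870912 2) ndB1q2a ndB4q0 pcB2 Cut.none Ext.none)

def k0_pm_202_a : ∃ t, chk3 f_pm_202_a t 2 1 1 = true :=
  ⟨(b (a (b (l 1) (b (b (b (l 1) (a (c (l 15437408) (l 15376224)) (c (l 15458960) (l 15407696)))) (a (b (l 15431888) (l 15471072)) (b (l 15435320) (l 15452056)))) (b (b (l 15503000) (l 15322816)) (c (l 15473008) (b (l 15602696) (l 15667032)))))) (b (b (l 1) (a (l 1) (a (l 1) (b (l 1) (b (l 1) (l 15568360)))))) (b (a (b (b (c (l 15500912) (l 15490112)) (c (l 15468232) (l 15428552))) (b (l 15470184) (l 15423808))) (c (b (b (l 15512504) (l 15460368)) (l 15410552)) (b (b (a (l 15493512) (l 15503120)) (l 15433968)) (b (l 15388656) (l 15361440))))) (b (c (l 15407184) (l 15242136)) (c (l 15474872) (l 15449288)))))) (b (b (a (b (a (l 4) (b (l 15701696) (l 15757864))) (l 4)) (b (c (l 15562296) (l 15434824)) (a (c (l 15743376) (l 15779256)) (l 15614432)))) (a (l 4) (b (a (b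 (l 15848656) (l 4)) (c (l 15732880) (l 15785360))) (a (l 4) (c (l 15843408) (l 15922192)))))) (l 4))), by decide +kernel⟩

def k1_pm_202_a : ∃ t, chk3 f_pm_202_a t 3 8 1 = true :=
  ⟨(a (l 1) (b (a (l 1) (a (b (l 1) (a (b (l 1) (c (l 15754784) (l 15955432))) (b (a (l 1) (c (l 15704512) (l 15934600))) (c (l 15700752) (l 15860424))))) (a (b (b (l 1) (c (a (b (l 1) (l 15704264)) (a (l 15690752) (l 15675448))) (c (l 223369996823) (a (l 15954848) (l 15925184))))) (c (b (a (l 15675360) (l 15645168)) (l 15621808)) (b (b (l 15860600) (l 15837872)) (l 15803680)))) (b (b (c (a (b (l 1) (l 15683040)) (a (a (l 203505420151) (l 202968530295)) (b (l 15637672) (l 15660776)))) (c (b (b (l 15825456) (l 15814792)) (l 15798768)) (a (l 15951392) (l 15908944)))) (a (c (a (l 15659896) (l 15644104)) (b (l 15880792) (l 15837480))) (c (l 15619728) (b (l 15827936) (l 15805704))))) (c (b (l 15618976) (l 15581144)) (c (l 15723080) (l 15829976))))))) (a (a (a (l 1) (b (l 1) (b (l 1)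 (l 15899224)))) (a (b (l 1) (c (l 15711768) (l 15840400))) (b (c (b (l 15765544) (l 15725872)) (b (l 15915624) (l 15867968))) (c (l 15666128) (l 15796144))))) (c (a (b (b (a (l 15694576) (l 15661800)) (l 15649664)) (l 15591056)) (b (a (l 15585184) (l 15524568)) (l 15479368))) (a (b (b (a (l 15866608) (l 15814104)) (l 15793760)) (l 15823136)) (b (a (l 15756168) (l 15675960)) (l 15636248))))))), by decide +kernel⟩

def k2_pm_202_a : ∃ t, chk3 f_pm_202_a t 3 9 1 = true :=
  ⟨(a (b (a (l 1) (b (a (l 1) (c (l 15763968) (l 15870768))) (c (a (l 15740360) (l 15680696)) (a (l 15825392) (l 15768576))))) (a (b (a (b (l 1) (l 15659208)) (c (l 15689272) (b (l 15781128) (l 15695656)))) (a (l 15598560) (l 15600520))) (b (c (l 15625704) (l 15776256)) (c (l 15537416) (a (l 15607240) (l 15565104)))))) (b (a (b (c (a (l 15692360) (l 15609200)) (a (l 15801712) (l 15721872))) (c (l 15612864) (a (l 15702344) (l 15625616)))) (c (a (b (l 15513512) (l 15436840)) (b (l 15404552) (l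 15330752))) (a (b (l 15630088) (l 15537152)) (b (l 15525200) (l 15435776))))) (a (c (b (l 15491408) (l 15413040)) (b (l 15567288) (l 15470944))) (c (a (l 15324016) (l 15222464)) (a (l 15399360) (l 15303520)))))), by decide +kernel⟩

def k3_pm_202_a : ∃ t, chk3 f_pm_202_a t 3 5 1 = true :=
  ⟨(b (a (b (a (c (l 15442424) (a (l 15463648) (l 15455352))) (b (c (l 15431464) (l 15477608)) (c (l 15371648) (l 15377200)))) (a (c (l 15416712) (l 15303608)) (c (l 15353264) (l 15250624)))) (a (b (c (l 15297296) (l 15411704)) (c (l 15151520) (l 15146240))) (b (c (l 15131432) (l 15176544)) (a (l 15043232) (l 14958832))))) (a (b (a (c (l 15301320) (l 15260640)) (c (l 15184160) (l 15124488))) (a (l 15279368) (l 15107008))) (a (b (c (b (l 15059288) (l 15013312)) (l 15000664)) (c (l 14971216) (l 14920640))) (b (c (l 14871176) (l 14849512)) (c (l 14938776) (l 14720896)))))), by decide +kernel⟩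

def k4_pm_202_a : ∃ t, chk3 f_pm_202_a t 3 3 1 = true :=
  ⟨(b (b (a (b (a (l 15328184) (l 15143592)) (a (l 15421328) (l 15205720))) (b (a (l 14908568) (c (l 14715296) (l 14647720))) (a (l 14961672) (l 14664232)))) (a (b (a (l 15552816) (l 15308632)) (a (c (l 15681144) (l 15745016)) (l 15446544))) (a (b (l 15036656) (l 15148896)) (b (l 14733352) (l 14820392))))) (b (a (b (a (c (l 15808192) (l 15903112)) (l 15613544)) (a (l 15703304) (c (l 15728368) (l 15832384)))) (a (c (l 15353168) (l 15145320)) (b (l 14940712) (l 15088592)))) (a (b (a (l 4) (c (l 15839160) (l 15966072))) (l 4)) (a (b (c (l 15595096) (l 15698768)) (c (l 15727448) (l 15859896))) (b (l 15258120) (l 15401248)))))), by decide +kernel⟩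

theorem s5_pm_202_a : ∃ t, chk3 f_pm_202_a t 3 4 1 = true := ex3_b k1_pm_202_a k2_pm_202_a

theorem s6_pm_202_a : ∃ t, chk3 f_pm_202_a t 3 2 1 = true := ex3_b s5_pm_202_a k3_pm_202_a

theorem s7_pm_202_a : ∃ t, chk3 f_pm_202_a t 3 1 1 = true := ex3_b s6_pm_202_a k4_pm_202_a

theorem s8_pm_202_a : ∃ t, chk3 f_pm_202_a t 1 1 1 = true := ex3_a k0_pm_202_a s7_pm_202_a

theorem c_pm_202_a : CertB 0 536870912 0 536870912 991146299 28908434 3 eng mog cd1q2a cd4q0 pd2 true true false .pp 2 0 2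
    ndB1q2a ndB4q0 pcB2 Cut.none Ext.none :=
  certB1 (fam := true) (s1 := true) (s2 := false) (a := 2) (b := 0) (c := 2) (cn := .pp) (n1 := ndB1q2a) (n2 := ndB4q0) (pc := pcB2) (cut := Cut.none) (xt := Ext.none) (P1 := 0) (W1 := 536870912) (P2 := 0) (W2 := 536870912) (P3 := 991146299) (W3 := 28908434) (N0 := 3) (En := eng) (mo := mog) (C1 := cd1q2a) (C2 := cd4q0) (C3 := pd2)
    rfl (fun _ => rfl) s8_pm_202_a

noncomputable def f_pm_202_b : ℕ → ℕ → ℕ → ℕ → Bool := onCell 1239849684 370763052 0 536870912 991146299 28908434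
    (rowB 3 eng mog cd1q2b cd4q0 pd2 0 true true false .pp 2 0 2 (qsf 1239849684 370763052 0 536870912 2) ndB1q2b ndB4q0 pcB2 Cut.none Ext.none)

def k0_pm_202_b : ∃ t, chk3 f_pm_202_b t 1 1 1 = true :=
  ⟨(b (a (b (b (a (b (a (a (b (l 15465480) (l 15481144)) (b (l 15558184) (l 4))) (l 4)) (l 4)) (l 4)) (l 4)) (l 4)) (l 4)) (l 4)), by decide +kernel⟩

theorem c_pm_202_b : CertB 1239849684 370763052 0 536870912 991146299 28908434 3 eng mog cd1q2b cd4q0 pd2 true true false .pp 2 0 2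
    ndB1q2b ndB4q0 pcB2 Cut.none Ext.none :=
  certB0 (fam := true) (s1 := true) (s2 := false) (a := 2) (b := 0) (c := 2) (cn := .pp) (n1 := ndB1q2b) (n2 := ndB4q0) (pc := pcB2) (cut := Cut.none) (xt := Ext.none) (P1 := 1239849684) (W1 := 370763052) (P2 := 0) (W2 := 536870912) (P3 := 991146299) (W3 := 28908434) (N0 := 3) (En := eng) (mo := mog) (C1 := cd1q2b) (C2 := cd4q0) (C3 := pd2)
    rfl k0_pm_202_b

noncomputable def f_pm_203_a : ℕ → ℕ → ℕ → ℕ → Bool := onCell 0 536870912 1610612736 536870912 991146299 28908434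
    (rowB 3 eng mog cd1q2a cd4q0 pd3 1 true true false .up 2 0 3 (qsf 0 536870912 0 536870912 3) ndB1q2a ndB4q0 pcB3 Cut.none Ext.none)

def k0_pm_203_a : ∃ t, chk3 f_pm_203_a t 1 1 1 = true :=
  ⟨(b (b (a (l 4) (a (l 4) (b (b (l 6137908071) (l 15837840)) (l 4)))) (l 4)) (l 2)), by decide +kernel⟩

theorem c_pm_203_a : CertB 0 536870912 0 536870912 991146299 28908434 3 eng mog cd1q2a cd4q0 pd3 true true false .up 2 0 3
    ndB1q2a ndB4q0 pcB3 Cut.none Ext.none :=
  certB1 (fam := true) (s1 := true) (s2 := false) (a := 2) (b := 0) (c := 3) (cn := .up) (n1 := ndB1q2a) (n2 := ndB4q0) (pc := pcB3) (cut := Cut.none) (xt := Ext.none) (P1 := 0) (W1 := 536870912) (P2 := 0) (W2 := 536870912) (P3 := 991146299) (W3 := 28908434) (N0 := 3) (En := eng) (mo := mog) (C1 := cd1q2a) (C2 := cd4q0) (C3 := pd3)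
    rfl (fun _ => rfl) k0_pm_203_a

noncomputable def f_pm_203_b : ℕ → ℕ → ℕ → ℕ → Bool := onCell 1239849684 370763052 1610612736 536870912 991146299 28908434
    (rowB 3 eng mog cd1q2b cd4q0 pd3 1 true true false .up 2 0 3 (qsf 1239849684 370763052 0 536870912 3) ndB1q2b ndB4q0 pcB3 Cut.none Ext.none)

def k0_pm_203_b : ∃ t, chk3 f_pm_203_b t 1 1 1 = true :=
  ⟨(l 4), by decide +kernel⟩

theorem c_pm_203_b : CertB 1239849684 370763052 0 536870912 991146299 28908434 3 eng mog cd1q2b cd4q0 pd3 true true false .up 2 0 3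
    ndB1q2b ndB4q0 pcB3 Cut.none Ext.none :=
  certB1 (fam := true) (s1 := true) (s2 := false) (a := 2) (b := 0) (c := 3) (cn := .up) (n1 := ndB1q2b) (n2 := ndB4q0) (pc := pcB3) (cut := Cut.none) (xt := Ext.none) (P1 := 1239849684) (W1 := 370763052) (P2 := 0) (W2 := 536870912) (P3 := 991146299) (W3 := 28908434) (N0 := 3) (En := eng) (mo := mog) (C1 := cd1q2b) (C2 := cd4q0) (C3 := pd3)
    rfl (fun _ => rfl) k0_pm_203_b

noncomputable def f_pm_213_a : ℕ → ℕ → ℕ → ℕ → Bool := onCell 0 536870912 1610612736 536870912 991146299 28908434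
    (rowB 3 eng mog cd1q2a cd4q1 pd3 1 true true false .pnn 2 1 3 (qsf 0 536870912 536870912 536870912 3) ndB1q2a ndB4q1 pcB3 Cut.none Ext.none)

def k0_pm_213_a : ∃ t, chk3 f_pm_213_a t 1 1 1 = true :=
  ⟨(b (b (a (l 4) (a (l 4) (b (b (l 15546928) (l 15570264)) (l 4)))) (l 4)) (l 4)), by decide +kernel⟩

theorem c_pm_213_a : CertB 0 536870912 536870912 536870912 991146299 28908434 3 eng mog cd1q2a cd4q1 pd3 true true false .pnn 2 1 3
    ndB1q2a ndB4q1 pcB3 Cut.none Ext.none :=
  certB1 (fam := true) (s1 := true) (s2 := false) (a := 2) (b := 1) (c := 3) (cn := .pnn) (n1 := ndB1q2a) (n2 := ndB4q1) (pc := pcB3) (cut := Cut.none) (xt := Ext.none) (P1 := 0) (W1 := 536870912) (P2 := 536870912) (W2 := 536870912) (P3 := 991146299) (W3 := 28908434) (N0 := 3) (En := eng) (mo := mog) (C1 := cd1q2a) (C2 := cd4q1) (C3 := pd3)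
    rfl (fun _ => rfl) k0_pm_213_a

noncomputable def f_pm_213_b : ℕ → ℕ → ℕ → ℕ → Bool := onCell 1239849684 370763052 536870912 536870912 991146299 28908434
    (rowB 3 eng mog cd1q2b cd4q1 pd3 0 true true false .pnn 2 1 3 (qsf 1239849684 370763052 536870912 536870912 3) ndB1q2b ndB4q1 pcB3 Cut.none Ext.none)

def k0_pm_213_b : ∃ t, chk3 f_pm_213_b t 1 1 1 = true :=
  ⟨(l 4), by decide +kernel⟩

theorem c_pm_213_b : CertB 1239849684 370763052 536870912 536870912 991146299 28908434 3 eng mog cd1q2b cd4q1 pd3 true true false .pnn 2 1 3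
    ndB1q2b ndB4q1 pcB3 Cut.none Ext.none :=
  certB0 (fam := true) (s1 := true) (s2 := false) (a := 2) (b := 1) (c := 3) (cn := .pnn) (n1 := ndB1q2b) (n2 := ndB4q1) (pc := pcB3) (cut := Cut.none) (xt := Ext.none) (P1 := 1239849684) (W1 := 370763052) (P2 := 536870912) (W2 := 536870912) (P3 := 991146299) (W3 := 28908434) (N0 := 3) (En := eng) (mo := mog) (C1 := cd1q2b) (C2 := cd4q1) (C3 := pd3)
    rfl k0_pm_213_b

noncomputable def f_pm_303 : ℕ → ℕ → ℕ → ℕ → Bool := onCell 1610612736 536870912 0 536870912 991146299 28908434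
    (rowB 3 eng mog cd1q3 cd4q0 pd3 0 true true false .npn 3 0 3 (qsf 1610612736 536870912 0 536870912 3) ndB1q3 ndB4q0 pcB3 Cut.none Ext.none)

def k0_pm_303 : ∃ t, chk3 f_pm_303 t 1 1 1 = true :=
  ⟨(l 4), by decide +kernel⟩

theorem c_pm_303 : CertB 1610612736 536870912 0 536870912 991146299 28908434 3 eng mog cd1q3 cd4q0 pd3 true true false .npn 3 0 3
    ndB1q3 ndB4q0 pcB3 Cut.none Ext.none :=
  certB0 (fam := true) (s1 := true) (s2 := false) (a := 3) (b := 0) (c := 3) (cn := .npn) (n1 := ndB1q3) (n2 := ndB4q0) (pc := pcB3) (cut := Cut.none) (xt := Ext.none) (P1 := 1610612736) (W1 := 536870912) (P2 := 0) (W2 := 536870912) (P3 := 991146299) (W3 := 28908434) (N0 := 3) (En := eng) (mo := mog) (C1 := cd1q3) (C2 := cd4q0) (C3 := pd3)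
    rfl k0_pm_303

noncomputable def f_pm_313 : ℕ → ℕ → ℕ → ℕ → Bool := onCell 1610612736 536870912 536870912 536870912 991146299 28908434
    (rowB 3 eng mog cd1q3 cd4q1 pd3 0 true true false .dn 3 1 3 (qsf 1610612736 536870912 536870912 536870912 3) ndB1q3 ndB4q1 pcB3 Cut.none Ext.none)

def k0_pm_313 : ∃ t, chk3 f_pm_313 t 1 1 1 = true :=
  ⟨(l 4), by decide +kernel⟩

theorem c_pm_313 : CertB 1610612736 536870912 536870912 536870912 991146299 28908434 3 eng mog cd1q3 cd4q1 pd3 true true false .dn 3 1 3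
    ndB1q3 ndB4q1 pcB3 Cut.none Ext.none :=
  certB0 (fam := true) (s1 := true) (s2 := false) (a := 3) (b := 1) (c := 3) (cn := .dn) (n1 := ndB1q3) (n2 := ndB4q1) (pc := pcB3) (cut := Cut.none) (xt := Ext.none) (P1 := 1610612736) (W1 := 536870912) (P2 := 536870912) (W2 := 536870912) (P3 := 991146299) (W3 := 28908434) (N0 := 3) (En := eng) (mo := mog) (C1 := cd1q3) (C2 := cd4q1) (C3 := pd3)
    rfl k0_pm_313

noncomputable def f_mm_001 : ℕ → ℕ → ℕ → ℕ → Bool := onCell 0 536870912 0 536870912 991146299 28908434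
    (rowB 3 eng mog cd1q0 cd4q0 pd1 0 true false false .up 0 0 1 (qsf 0 536870912 0 536870912 1) ndB1q0 ndB4q0 pcB1 Cut.none Ext.none)

def k0_mm_001 : ∃ t, chk3 f_mm_001 t 1 1 1 = true :=
  ⟨(l 4), by decide +kernel⟩

theorem c_mm_001 : CertB 0 536870912 0 536870912 991146299 28908434 3 eng mog cd1q0 cd4q0 pd1 true false false .up 0 0 1
    ndB1q0 ndB4q0 pcB1 Cut.none Ext.none :=
  certB0 (fam := true) (s1 := false) (s2 := false) (a := 0) (b := 0) (c := 1) (cn := .up) (n1 := ndB1q0) (n2 := ndB4q0) (pc := pcB1) (cut := Cut.none) (xt := Ext.none) (P1 := 0) (W1 := 536870912) (P2 := 0) (W2 := 536870912) (P3 := 991146299) (W3 := 28908434) (N0 := 3) (En := eng) (mo := mog) (C1 := cd1q0) (C2 := cd4q0) (C3 := pd1)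
    rfl k0_mm_001

noncomputable def f_mm_011 : ℕ → ℕ → ℕ → ℕ → Bool := onCell 0 536870912 536870912 536870912 991146299 28908434
    (rowB 3 eng mog cd1q0 cd4q1 pd1 0 true false false .pnn 0 1 1 (qsf 0 536870912 536870912 536870912 1) ndB1q0 ndB4q1 pcB1 Cut.none Ext.none)

def k0_mm_011 : ∃ t, chk3 f_mm_011 t 1 1 1 = true :=
  ⟨(l 4), by decide +kernel⟩

theorem c_mm_011 : CertB 0 536870912 536870912 536870912 991146299 28908434 3 eng mog cd1q0 cd4q1 pd1 true false false .pnn 0 1 1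
    ndB1q0 ndB4q1 pcB1 Cut.none Ext.none :=
  certB0 (fam := true) (s1 := false) (s2 := false) (a := 0) (b := 1) (c := 1) (cn := .pnn) (n1 := ndB1q0) (n2 := ndB4q1) (pc := pcB1) (cut := Cut.none) (xt := Ext.none) (P1 := 0) (W1 := 536870912) (P2 := 536870912) (W2 := 536870912) (P3 := 991146299) (W3 := 28908434) (N0 := 3) (En := eng) (mo := mog) (C1 := cd1q0) (C2 := cd4q1) (C3 := pd1)
    rfl k0_mm_011

noncomputable def f_mm_012 : ℕ → ℕ → ℕ → ℕ → Bool := onCell 0 536870912 536870912 536870912 991146299 28908434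
    (rowB 3 eng mog cd1q0 cd4q1 pd2 0 true false false .pnp 0 1 2 (qsf 0 536870912 536870912 536870912 2) ndB1q0 ndB4q1 pcB2 Cut.none Ext.none)

def k0_mm_012 : ∃ t, chk3 f_mm_012 t 1 1 1 = true :=
  ⟨(l 4), by decide +kernel⟩

theorem c_mm_012 : CertB 0 536870912 536870912 536870912 991146299 28908434 3 eng mog cd1q0 cd4q1 pd2 true false false .pnp 0 1 2
    ndB1q0 ndB4q1 pcB2 Cut.none Ext.none :=
  certB0 (fam := true) (s1 := false) (s2 := false) (a := 0) (b := 1) (c := 2) (cn := .pnp) (n1 := ndB1q0) (n2 := ndB4q1) (pc := pcB2) (cut := Cut.none) (xt := Ext.none) (P1 := 0) (W1 := 536870912) (P2 := 536870912) (W2 := 536870912) (P3 := 991146299) (W3 := 28908434) (N0 := 3) (En := eng) (mo := mog) (C1 := cd1q0) (C2 := cd4q1) (C3 := pd2)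
    rfl k0_mm_012

noncomputable def f_mm_022 : ℕ → ℕ → ℕ → ℕ → Bool := onCell 0 536870912 1073741824 536870912 991146299 28908434
    (rowB 3 eng mog cd1q0 cd4q2 pd2 0 true false false .pp 0 2 2 (qsf 0 536870912 1073741824 536870912 2) ndB1q0 ndB4q2 pcB2 Cut.none Ext.none)

def k0_mm_022 : ∃ t, chk3 f_mm_022 t 1 1 1 = true :=
  ⟨(l 4), by decide +kernel⟩

theorem c_mm_022 : CertB 0 536870912 1073741824 536870912 991146299 28908434 3 eng mog cd1q0 cd4q2 pd2 true false false .pp 0 2 2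
    ndB1q0 ndB4q2 pcB2 Cut.none Ext.none :=
  certB0 (fam := true) (s1 := false) (s2 := false) (a := 0) (b := 2) (c := 2) (cn := .pp) (n1 := ndB1q0) (n2 := ndB4q2) (pc := pcB2) (cut := Cut.none) (xt := Ext.none) (P1 := 0) (W1 := 536870912) (P2 := 1073741824) (W2 := 536870912) (P3 := 991146299) (W3 := 28908434) (N0 := 3) (En := eng) (mo := mog) (C1 := cd1q0) (C2 := cd4q2) (C3 := pd2)
    rfl k0_mm_022

noncomputable def f_mm_023 : ℕ → ℕ → ℕ → ℕ → Bool := onCell 0 536870912 1073741824 536870912 991146299 28908434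
    (rowB 3 eng mog cd1q0 cd4q2 pd3 0 true false false .up 0 2 3 (qsf 0 536870912 1073741824 536870912 3) ndB1q0 ndB4q2 pcB3 Cut.none Ext.none)

def k0_mm_023 : ∃ t, chk3 f_mm_023 t 1 1 1 = true :=
  ⟨(l 4), by decide +kernel⟩

theorem c_mm_023 : CertB 0 536870912 1073741824 536870912 991146299 28908434 3 eng mog cd1q0 cd4q2 pd3 true false false .up 0 2 3
    ndB1q0 ndB4q2 pcB3 Cut.none Ext.none :=
  certB0 (fam := true) (s1 := false) (s2 := false) (a := 0) (b := 2) (c := 3) (cn := .up) (n1 := ndB1q0) (n2 := ndB4q2) (pc := pcB3) (cut := Cut.none) (xt := Ext.none) (P1 := 0) (W1 := 536870912) (P2 := 1073741824) (W2 := 536870912) (P3 := 991146299) (W3 := 28908434) (N0 := 3) (En := eng) (mo := mog) (C1 := cd1q0) (C2 := cd4q2) (C3 := pd3)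
    rfl k0_mm_023

noncomputable def f_mm_033 : ℕ → ℕ → ℕ → ℕ → Bool := onCell 0 536870912 0 1230186008 991146299 28908434
    (rowB 3 eng mog cd1q0 cd4q3 pd3 0 true false false .pnn 0 3 3 (qsf 0 536870912 0 1230186008 3) ndB1q0 ndB4q3 pcB3 Cut.none Ext.none)

def k0_mm_033 : ∃ t, chk3 f_mm_033 t 1 1 1 = true :=
  ⟨(l 5), by decide +kernel⟩

theorem c_mm_033 : CertB 0 536870912 0 1230186008 991146299 28908434 3 eng mog cd1q0 cd4q3 pd3 true false false .pnn 0 3 3
    ndB1q0 ndB4q3 pcB3 Cut.none Ext.none :=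
  certB0 (fam := true) (s1 := false) (s2 := false) (a := 0) (b := 3) (c := 3) (cn := .pnn) (n1 := ndB1q0) (n2 := ndB4q3) (pc := pcB3) (cut := Cut.none) (xt := Ext.none) (P1 := 0) (W1 := 536870912) (P2 := 0) (W2 := 1230186008) (P3 := 991146299) (W3 := 28908434) (N0 := 3) (En := eng) (mo := mog) (C1 := cd1q0) (C2 := cd4q3) (C3 := pd3)
    rfl k0_mm_033

noncomputable def f_mm_101 : ℕ → ℕ → ℕ → ℕ → Bool := onCell 536870912 536870912 0 536870912 991146299 28908434
    (rowB 3 eng mog cd1q1 cd4q0 pd1 0 true false false .npn 1 0 1 (qsf 536870912 536870912 0 536870912 1) ndB1q1 ndB4q0 pcB1 Cut.none Ext.none)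

def k0_mm_101 : ∃ t, chk3 f_mm_101 t 1 1 1 = true :=
  ⟨(l 4), by decide +kernel⟩

theorem c_mm_101 : CertB 536870912 536870912 0 536870912 991146299 28908434 3 eng mog cd1q1 cd4q0 pd1 true false false .npn 1 0 1
    ndB1q1 ndB4q0 pcB1 Cut.none Ext.none :=
  certB0 (fam := true) (s1 := false) (s2 := false) (a := 1) (b := 0) (c := 1) (cn := .npn) (n1 := ndB1q1) (n2 := ndB4q0) (pc := pcB1) (cut := Cut.none) (xt := Ext.none) (P1 := 536870912) (W1 := 536870912) (P2 := 0) (W2 := 536870912) (P3 := 991146299) (W3 := 28908434) (N0 := 3) (En := eng) (mo := mog) (C1 := cd1q1) (C2 := cd4q0) (C3 := pd1)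
    rfl k0_mm_101

noncomputable def f_mm_102 : ℕ → ℕ → ℕ → ℕ → Bool := onCell 536870912 536870912 0 536870912 991146299 28908434
    (rowB 3 eng mog cd1q1 cd4q0 pd2 0 true false false .npp 1 0 2 (qsf 536870912 536870912 0 536870912 2) ndB1q1 ndB4q0 pcB2 Cut.none Ext.none)

def k0_mm_102 : ∃ t, chk3 f_mm_102 t 1 1 1 = true :=
  ⟨(l 4), by decide +kernel⟩

theorem c_mm_102 : CertB 536870912 536870912 0 536870912 991146299 28908434 3 eng mog cd1q1 cd4q0 pd2 true false false .npp 1 0 2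
    ndB1q1 ndB4q0 pcB2 Cut.none Ext.none :=
  certB0 (fam := true) (s1 := false) (s2 := false) (a := 1) (b := 0) (c := 2) (cn := .npp) (n1 := ndB1q1) (n2 := ndB4q0) (pc := pcB2) (cut := Cut.none) (xt := Ext.none) (P1 := 536870912) (W1 := 536870912) (P2 := 0) (W2 := 536870912) (P3 := 991146299) (W3 := 28908434) (N0 := 3) (En := eng) (mo := mog) (C1 := cd1q1) (C2 := cd4q0) (C3 := pd2)
    rfl k0_mm_102

noncomputable def f_mm_112 : ℕ → ℕ → ℕ → ℕ → Bool := onCell 536870912 536870912 536870912 536870912 991146299 28908434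
    (rowB 3 eng mog cd1q1 cd4q1 pd2 0 true false false .dn 1 1 2 (qsf 536870912 536870912 536870912 536870912 2) ndB1q1 ndB4q1 pcB2 Cut.none Ext.none)

def k0_mm_112 : ∃ t, chk3 f_mm_112 t 1 1 1 = true :=
  ⟨(l 4), by decide +kernel⟩

theorem c_mm_112 : CertB 536870912 536870912 536870912 536870912 991146299 28908434 3 eng mog cd1q1 cd4q1 pd2 true false false .dn 1 1 2
    ndB1q1 ndB4q1 pcB2 Cut.none Ext.none :=
  certB0 (fam := true) (s1 := false) (s2 := false) (a := 1) (b := 1) (c := 2) (cn := .dn) (n1 := ndB1q1) (n2 := ndB4q1) (pc := pcB2) (cut := Cut.none) (xt := Ext.none) (P1 := 536870912) (W1 := 536870912) (P2 := 536870912) (W2 := 536870912) (P3 := 991146299) (W3 := 28908434) (N0 := 3) (En := eng) (mo := mog) (C1 := cd1q1) (C2 := cd4q1) (C3 := pd2)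
    rfl k0_mm_112

noncomputable def f_mm_113 : ℕ → ℕ → ℕ → ℕ → Bool := onCell 536870912 536870912 536870912 536870912 991146299 28908434
    (rowB 3 eng mog cd1q1 cd4q1 pd3 0 true false false .nn 1 1 3 (qsf 536870912 536870912 536870912 536870912 3) ndB1q1 ndB4q1 pcB3 Cut.none Ext.none)

def k0_mm_113 : ∃ t, chk3 f_mm_113 t 1 1 1 = true :=
  ⟨(l 4), by decide +kernel⟩

theorem c_mm_113 : CertB 536870912 536870912 536870912 536870912 991146299 28908434 3 eng mog cd1q1 cd4q1 pd3 true false false .nn 1 1 3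
    ndB1q1 ndB4q1 pcB3 Cut.none Ext.none :=
  certB0 (fam := true) (s1 := false) (s2 := false) (a := 1) (b := 1) (c := 3) (cn := .nn) (n1 := ndB1q1) (n2 := ndB4q1) (pc := pcB3) (cut := Cut.none) (xt := Ext.none) (P1 := 536870912) (W1 := 536870912) (P2 := 536870912) (W2 := 536870912) (P3 := 991146299) (W3 := 28908434) (N0 := 3) (En := eng) (mo := mog) (C1 := cd1q1) (C2 := cd4q1) (C3 := pd3)
    rfl k0_mm_113

noncomputable def f_mm_123 : ℕ → ℕ → ℕ → ℕ → Bool := onCell 536870912 536870912 1073741824 536870912 991146299 28908434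
    (rowB 3 eng mog cd1q1 cd4q2 pd3 0 true false false .npn 1 2 3 (qsf 536870912 536870912 1073741824 536870912 3) ndB1q1 ndB4q2 pcB3 Cut.none Ext.none)

def k0_mm_123 : ∃ t, chk3 f_mm_123 t 1 1 1 = true :=
  ⟨(l 4), by decide +kernel⟩

theorem c_mm_123 : CertB 536870912 536870912 1073741824 536870912 991146299 28908434 3 eng mog cd1q1 cd4q2 pd3 true false false .npn 1 2 3
    ndB1q1 ndB4q2 pcB3 Cut.none Ext.none :=
  certB0 (fam := true) (s1 := false) (s2 := false) (a := 1) (b := 2) (c := 3) (cn := .npn) (n1 := ndB1q1) (n2 := ndB4q2) (pc := pcB3) (cut := Cut.none) (xt := Ext.none) (P1 := 536870912) (W1 := 536870912) (P2 := 1073741824) (W2 := 536870912) (P3 := 991146299) (W3 := 28908434) (N0 := 3) (En := eng) (mo := mog) (C1 := cd1q1) (C2 := cd4q2) (C3 := pd3)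
    rfl k0_mm_123

noncomputable def f_mm_133 : ℕ → ℕ → ℕ → ℕ → Bool := onCell 536870912 536870912 0 1230186008 991146299 28908434
    (rowB 3 eng mog cd1q1 cd4q3 pd3 0 true false false .dn 1 3 3 (qsf 536870912 536870912 0 1230186008 3) ndB1q1 ndB4q3 pcB3 Cut.none Ext.none)

def k0_mm_133 : ∃ t, chk3 f_mm_133 t 1 1 1 = true :=
  ⟨(l 4), by decide +kernel⟩

theorem c_mm_133 : CertB 536870912 536870912 0 1230186008 991146299 28908434 3 eng mog cd1q1 cd4q3 pd3 true false false .dn 1 3 3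
    ndB1q1 ndB4q3 pcB3 Cut.none Ext.none :=
  certB0 (fam := true) (s1 := false) (s2 := false) (a := 1) (b := 3) (c := 3) (cn := .dn) (n1 := ndB1q1) (n2 := ndB4q3) (pc := pcB3) (cut := Cut.none) (xt := Ext.none) (P1 := 536870912) (W1 := 536870912) (P2 := 0) (W2 := 1230186008) (P3 := 991146299) (W3 := 28908434) (N0 := 3) (En := eng) (mo := mog) (C1 := cd1q1) (C2 := cd4q3) (C3 := pd3)
    rfl k0_mm_133

noncomputable def f_mm_202_a : ℕ → ℕ → ℕ → ℕ → Bool := onCell 0 536870912 0 536870912 991146299 28908434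
    (rowB 3 eng mog cd1q2a cd4q0 pd2 0 true false false .pp 2 0 2 (qsf 0 536870912 0 536870912 2) ndB1q2a ndB4q0 pcB2 Cut.none Ext.none)

def k0_mm_202_a : ∃ t, chk3 f_mm_202_a t 1 1 1 = true :=
  ⟨(l 4), by decide +kernel⟩

theorem c_mm_202_a : CertB 0 536870912 0 536870912 991146299 28908434 3 eng mog cd1q2a cd4q0 pd2 true false false .pp 2 0 2
    ndB1q2a ndB4q0 pcB2 Cut.none Ext.none :=
  certB0 (fam := true) (s1 := false) (s2 := false) (a := 2) (b := 0) (c := 2) (cn := .pp) (n1 := ndB1q2a) (n2 := ndB4q0) (pc := pcB2) (cut := Cut.none) (xt := Ext.none) (P1 := 0) (W1 := 536870912) (P2 := 0) (W2 := 536870912) (P3 := 991146299) (W3 := 28908434) (N0 := 3) (En := eng) (mo := mog) (C1 := cd1q2a) (C2 := cd4q0) (C3 := pd2)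
    rfl k0_mm_202_a

noncomputable def f_mm_202_b : ℕ → ℕ → ℕ → ℕ → Bool := onCell 1239849684 370763052 0 536870912 991146299 28908434
    (rowB 3 eng mog cd1q2b cd4q0 pd2 0 true false false .pp 2 0 2 (qsf 1239849684 370763052 0 536870912 2) ndB1q2b ndB4q0 pcB2 Cut.none Ext.none)

def k0_mm_202_b : ∃ t, chk3 f_mm_202_b t 1 1 1 = true :=
  ⟨(l 4), by decide +kernel⟩

theorem c_mm_202_b : CertB 1239849684 370763052 0 536870912 991146299 28908434 3 eng mog cd1q2b cd4q0 pd2 true false false .pp 2 0 2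
    ndB1q2b ndB4q0 pcB2 Cut.none Ext.none :=
  certB0 (fam := true) (s1 := false) (s2 := false) (a := 2) (b := 0) (c := 2) (cn := .pp) (n1 := ndB1q2b) (n2 := ndB4q0) (pc := pcB2) (cut := Cut.none) (xt := Ext.none) (P1 := 1239849684) (W1 := 370763052) (P2 := 0) (W2 := 536870912) (P3 := 991146299) (W3 := 28908434) (N0 := 3) (En := eng) (mo := mog) (C1 := cd1q2b) (C2 := cd4q0) (C3 := pd2)
    rfl k0_mm_202_b

end Pool.Agent.Strip051.G.I9231_9500.Tab.C.BA14

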