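import Pool.Agent.Strip051.G.I9231_9500.Tab

/-! # Certificates B2 (generated) -/

set_option linter.all false
set_option maxRecDepth 100000

namespace Pool.Agent.Strip051.G.I9231_9500.Tab.C.BA00

open Pool.Agent.Strip051.PB Pool.Agent.Strip051.PB.T
open Pool.Agent.Strip051.G.I9231_9500.Tab

noncomputable def cut_pp_023 : Cut := Cut.of [[⟨3, 0, 0, 1449551462⟩], [⟨4, 0, 0, 2845415833⟩]]

noncomputable def f_pp_023 : ℕ → ℕ → ℕ → ℕ → Bool := onCell 1610612736 536870912 0 536870912 991146299 28908434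
    (rowB 3 eng mog cd0q0 cd0q2 pd3 2 true true true .up 0 2 3 (qsf 0 536870912 0 536870912 3) ndB0q0 ndB0q2 pcB3 cut_pp_023 Ext.none)

def k0_pp_023 : ∃ t, chk3 f_pp_023 t 1 1 1 = true :=
  ⟨(a (b (a (a (b (b (a (b (a (l 16307192) (l 16328000)) (l 14)) (l 14)) (l 14)) (l 14)) (l 14)) (l 14)) (l 4)) (l 2)), by decide +kernel⟩

theorem c_pp_023 : CertB 0 536870912 0 536870912 991146299 28908434 3 eng mog cd0q0 cd0q2 pd3 true true true .up 0 2 3
    ndB0q0 ndB0q2 pcB3 cut_pp_023 Ext.none :=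
  certB2 (fam := true) (s1 := true) (s2 := true) (a := 0) (b := 2) (c := 3) (cn := .up) (n1 := ndB0q0) (n2 := ndB0q2) (pc := pcB3) (cut := cut_pp_023) (xt := Ext.none) (P1 := 0) (W1 := 536870912) (P2 := 0) (W2 := 536870912) (P3 := 991146299) (W3 := 28908434) (N0 := 3) (En := eng) (mo := mog) (C1 := cd0q0) (C2 := cd0q2) (C3 := pd3)
    rfl (fun _ => rfl) k0_pp_023

noncomputable def cut_pp_101 : Cut := Cut.of [[⟨3, 0, 0, 1449551462⟩], [⟨4, 0, 0, 2845415833⟩]]

noncomputable def f_pp_101 : ℕ → ℕ → ℕ → ℕ → Bool := onCell 536870912 536870912 0 536870912 991146299 28908434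
    (rowB 3 eng mog cd0q1 cd0q0 pd1 0 true true true .npn 1 0 1 (qsf 536870912 536870912 0 536870912 1) ndB0q1 ndB0q0 pcB1 cut_pp_101 Ext.none)

def k0_pp_101 : ∃ t, chk3 f_pp_101 t 1 1 1 = true :=
  ⟨(l 14), by decide +kernel⟩

theorem c_pp_101 : CertB 536870912 536870912 0 536870912 991146299 28908434 3 eng mog cd0q1 cd0q0 pd1 true true true .npn 1 0 1
    ndB0q1 ndB0q0 pcB1 cut_pp_101 Ext.none :=
  certB0 (fam := true) (s1 := true) (s2 := true) (a := 1) (b := 0) (c := 1) (cn := .npn) (n1 := ndB0q1) (n2 := ndB0q0) (pc := pcB1) (cut := cut_pp_101) (xt := Ext.none) (P1 := 536870912) (W1 := 536870912) (P2 := 0) (W2 := 536870912) (P3 := 991146299) (W3 := 28908434) (N0 := 3) (En := eng) (mo := mog) (C1 := cd0q1) (C2 := cd0q0) (C3 := pd1)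
    rfl k0_pp_101

noncomputable def cut_pp_102 : Cut := Cut.of [[⟨3, 0, 0, 1449551462⟩], [⟨4, 0, 0, 2845415833⟩]]

noncomputable def f_pp_102 : ℕ → ℕ → ℕ → ℕ → Bool := onCell 536870912 536870912 0 536870912 991146299 28908434
    (rowB 3 eng mog cd0q1 cd0q0 pd2 0 true true true .npp 1 0 2 (qsf 536870912 536870912 0 536870912 2) ndB0q1 ndB0q0 pcB2 cut_pp_102 Ext.none)

def k0_pp_102 : ∃ t, chk3 f_pp_102 t 1 1 1 = true :=
  ⟨(l 14), by decide +kernel⟩

theorem c_pp_102 : CertB 536870912 536870912 0 536870912 991146299 28908434 3 eng mog cd0q1 cd0q0 pd2 true true true .npp 1 0 2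
    ndB0q1 ndB0q0 pcB2 cut_pp_102 Ext.none :=
  certB0 (fam := true) (s1 := true) (s2 := true) (a := 1) (b := 0) (c := 2) (cn := .npp) (n1 := ndB0q1) (n2 := ndB0q0) (pc := pcB2) (cut := cut_pp_102) (xt := Ext.none) (P1 := 536870912) (W1 := 536870912) (P2 := 0) (W2 := 536870912) (P3 := 991146299) (W3 := 28908434) (N0 := 3) (En := eng) (mo := mog) (C1 := cd0q1) (C2 := cd0q0) (C3 := pd2)
    rfl k0_pp_102

noncomputable def cut_pp_112 : Cut := Cut.of [[⟨3, 0, 0, 1449551462⟩], [⟨4, 0, 0, 2845415833⟩]]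

noncomputable def f_pp_112 : ℕ → ℕ → ℕ → ℕ → Bool := onCell 536870912 536870912 536870912 536870912 991146299 28908434
    (rowB 3 eng mog cd0q1 cd0q1 pd2 0 true true true .dn 1 1 2 (qsf 536870912 536870912 536870912 536870912 2) ndB0q1 ndB0q1 pcB2 cut_pp_112 Ext.none)

def k0_pp_112 : ∃ t, chk3 f_pp_112 t 1 1 1 = true :=
  ⟨(l 4), by decide +kernel⟩

theorem c_pp_112 : CertB 536870912 536870912 536870912 536870912 991146299 28908434 3 eng mog cd0q1 cd0q1 pd2 true true true .dn 1 1 2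
    ndB0q1 ndB0q1 pcB2 cut_pp_112 Ext.none :=
  certB0 (fam := true) (s1 := true) (s2 := true) (a := 1) (b := 1) (c := 2) (cn := .dn) (n1 := ndB0q1) (n2 := ndB0q1) (pc := pcB2) (cut := cut_pp_112) (xt := Ext.none) (P1 := 536870912) (W1 := 536870912) (P2 := 536870912) (W2 := 536870912) (P3 := 991146299) (W3 := 28908434) (N0 := 3) (En := eng) (mo := mog) (C1 := cd0q1) (C2 := cd0q1) (C3 := pd2)
    rfl k0_pp_112

noncomputable def cut_pp_113 : Cut := Cut.of [[⟨3, 0, 0, 1449551462⟩], [⟨4, 0, 0, 2845415833⟩]]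

noncomputable def f_pp_113 : ℕ → ℕ → ℕ → ℕ → Bool := onCell 536870912 536870912 536870912 536870912 991146299 28908434
    (rowB 3 eng mog cd0q1 cd0q1 pd3 0 true true true .nn 1 1 3 (qsf 536870912 536870912 536870912 536870912 3) ndB0q1 ndB0q1 pcB3 cut_pp_113 Ext.none)

def k0_pp_113 : ∃ t, chk3 f_pp_113 t 1 1 1 = true :=
  ⟨(l 4), by decide +kernel⟩

theorem c_pp_113 : CertB 536870912 536870912 536870912 536870912 991146299 28908434 3 eng mog cd0q1 cd0q1 pd3 true true true .nn 1 1 3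
    ndB0q1 ndB0q1 pcB3 cut_pp_113 Ext.none :=
  certB0 (fam := true) (s1 := true) (s2 := true) (a := 1) (b := 1) (c := 3) (cn := .nn) (n1 := ndB0q1) (n2 := ndB0q1) (pc := pcB3) (cut := cut_pp_113) (xt := Ext.none) (P1 := 536870912) (W1 := 536870912) (P2 := 536870912) (W2 := 536870912) (P3 := 991146299) (W3 := 28908434) (N0 := 3) (En := eng) (mo := mog) (C1 := cd0q1) (C2 := cd0q1) (C3 := pd3)
    rfl k0_pp_113

noncomputable def cut_pp_123 : Cut := Cut.of [[⟨3, 0, 0, 1449551462⟩], [⟨4, 0, 0, 2845415833⟩]]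

noncomputable def f_pp_123 : ℕ → ℕ → ℕ → ℕ → Bool := onCell 536870912 536870912 0 536870912 991146299 28908434
    (rowB 3 eng mog cd0q1 cd0q2 pd3 0 true true true .npn 1 2 3 (qsf 536870912 536870912 0 536870912 3) ndB0q1 ndB0q2 pcB3 cut_pp_123 Ext.none)

def k0_pp_123 : ∃ t, chk3 f_pp_123 t 1 1 1 = true :=
  ⟨(a (l 14) (l 4)), by decide +kernel⟩

theorem c_pp_123 : CertB 536870912 536870912 0 536870912 991146299 28908434 3 eng mog cd0q1 cd0q2 pd3 true true true .npn 1 2 3
    ndB0q1 ndB0q2 pcB3 cut_pp_123 Ext.none :=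
  certB0 (fam := true) (s1 := true) (s2 := true) (a := 1) (b := 2) (c := 3) (cn := .npn) (n1 := ndB0q1) (n2 := ndB0q2) (pc := pcB3) (cut := cut_pp_123) (xt := Ext.none) (P1 := 536870912) (W1 := 536870912) (P2 := 0) (W2 := 536870912) (P3 := 991146299) (W3 := 28908434) (N0 := 3) (En := eng) (mo := mog) (C1 := cd0q1) (C2 := cd0q2) (C3 := pd3)
    rfl k0_pp_123

noncomputable def cut_pp_202 : Cut := Cut.of [[⟨3, 0, 0, 1449551462⟩], [⟨4, 0, 0, 2845415833⟩]]

noncomputable def f_pp_202 : ℕ → ℕ → ℕ → ℕ → Bool := onCell 0 536870912 0 536870912 991146299 28908434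
    (rowB 3 eng mog cd0q2 cd0q0 pd2 0 true true true .pp 2 0 2 (qsf 0 536870912 0 536870912 2) ndB0q2 ndB0q0 pcB2 cut_pp_202 Ext.none)

def k0_pp_202 : ∃ t, chk3 f_pp_202 t 1 1 1 = true :=
  ⟨(l 5), by decide +kernel⟩

theorem c_pp_202 : CertB 0 536870912 0 536870912 991146299 28908434 3 eng mog cd0q2 cd0q0 pd2 true true true .pp 2 0 2
    ndB0q2 ndB0q0 pcB2 cut_pp_202 Ext.none :=
  certB0 (fam := true) (s1 := true) (s2 := true) (a := 2) (b := 0) (c := 2) (cn := .pp) (n1 := ndB0q2) (n2 := ndB0q0) (pc := pcB2) (cut := cut_pp_202) (xt := Ext.none) (P1 := 0) (W1 := 536870912) (P2 := 0) (W2 := 536870912) (P3 := 991146299) (W3 := 28908434) (N0 := 3) (En := eng) (mo := mog) (C1 := cd0q2) (C2 := cd0q0) (C3 := pd2)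
    rfl k0_pp_202

noncomputable def cut_pp_203 : Cut := Cut.of [[⟨3, 0, 0, 1449551462⟩], [⟨4, 0, 0, 2845415833⟩]]

noncomputable def f_pp_203 : ℕ → ℕ → ℕ → ℕ → Bool := onCell 0 536870912 0 536870912 991146299 28908434
    (rowB 3 eng mog cd0q2 cd0q0 pd3 0 true true true .up 2 0 3 (qsf 0 536870912 0 536870912 3) ndB0q2 ndB0q0 pcB3 cut_pp_203 Ext.none)

def k0_pp_203 : ∃ t, chk3 f_pp_203 t 1 1 1 = true :=
  ⟨(l 5), by decide +kernel⟩

theorem c_pp_203 : CertB 0 536870912 0 536870912 991146299 28908434 3 eng mog cd0q2 cd0q0 pd3 true true true .up 2 0 3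
    ndB0q2 ndB0q0 pcB3 cut_pp_203 Ext.none :=
  certB0 (fam := true) (s1 := true) (s2 := true) (a := 2) (b := 0) (c := 3) (cn := .up) (n1 := ndB0q2) (n2 := ndB0q0) (pc := pcB3) (cut := cut_pp_203) (xt := Ext.none) (P1 := 0) (W1 := 536870912) (P2 := 0) (W2 := 536870912) (P3 := 991146299) (W3 := 28908434) (N0 := 3) (En := eng) (mo := mog) (C1 := cd0q2) (C2 := cd0q0) (C3 := pd3)
    rfl k0_pp_203

noncomputable def cut_pp_213 : Cut := Cut.of [[⟨3, 0, 0, 1449551462⟩], [⟨4, 0, 0, 2845415833⟩]]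

noncomputable def f_pp_213 : ℕ → ℕ → ℕ → ℕ → Bool := onCell 0 536870912 536870912 536870912 991146299 28908434
    (rowB 3 eng mog cd0q2 cd0q1 pd3 0 true true true .pnn 2 1 3 (qsf 0 536870912 536870912 536870912 3) ndB0q2 ndB0q1 pcB3 cut_pp_213 Ext.none)

def k0_pp_213 : ∃ t, chk3 f_pp_213 t 1 1 1 = true :=
  ⟨(a (l 5) (l 4)), by decide +kernel⟩

theorem c_pp_213 : CertB 0 536870912 536870912 536870912 991146299 28908434 3 eng mog cd0q2 cd0q1 pd3 true true true .pnn 2 1 3
    ndB0q2 ndB0q1 pcB3 cut_pp_213 Ext.none :=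
  certB0 (fam := true) (s1 := true) (s2 := true) (a := 2) (b := 1) (c := 3) (cn := .pnn) (n1 := ndB0q2) (n2 := ndB0q1) (pc := pcB3) (cut := cut_pp_213) (xt := Ext.none) (P1 := 0) (W1 := 536870912) (P2 := 536870912) (W2 := 536870912) (P3 := 991146299) (W3 := 28908434) (N0 := 3) (En := eng) (mo := mog) (C1 := cd0q2) (C2 := cd0q1) (C3 := pd3)
    rfl k0_pp_213

noncomputable def cut_pm_001 : Cut := Cut.of [[⟨3, 0, 0, 1449551462⟩], [⟨4, 0, 0, 2845415833⟩]]

noncomputable def f_pm_001 : ℕ → ℕ → ℕ → ℕ → Bool := onCell 0 536870912 0 536870912 991146299 28908434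
    (rowB 3 eng mog cd0q0 cd0q0 pd1 0 true true false .up 0 0 1 (qsf 0 536870912 0 536870912 1) ndB0q0 ndB0q0 pcB1 cut_pm_001 Ext.none)

def k0_pm_001 : ∃ t, chk3 f_pm_001 t 1 1 1 = true :=
  ⟨(l 3), by decide +kernel⟩

theorem c_pm_001 : CertB 0 536870912 0 536870912 991146299 28908434 3 eng mog cd0q0 cd0q0 pd1 true true false .up 0 0 1
    ndB0q0 ndB0q0 pcB1 cut_pm_001 Ext.none :=
  certB0 (fam := true) (s1 := true) (s2 := false) (a := 0) (b := 0) (c := 1) (cn := .up) (n1 := ndB0q0) (n2 := ndB0q0) (pc := pcB1) (cut := cut_pm_001) (xt := Ext.none) (P1 := 0) (W1 := 536870912) (P2 := 0) (W2 := 536870912) (P3 := 991146299) (W3 := 28908434) (N0 := 3) (En := eng) (mo := mog) (C1 := cd0q0) (C2 := cd0q0) (C3 := pd1)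
    rfl k0_pm_001

noncomputable def cut_pm_011 : Cut := Cut.of [[⟨3, 0, 0, 1449551462⟩], [⟨4, 0, 0, 2845415833⟩], [⟨0, 0, 0, 53687091⟩, ⟨1, 1, 0, 53687091⟩, ⟨2, 1, 0, 53687091⟩]]

noncomputable def f_pm_011 : ℕ → ℕ → ℕ → ℕ → Bool := onCell 0 536870912 536870912 536870912 991146299 28908434
    (rowB 3 eng mog cd0q0 cd0q1 pd1 1 true true false .pnn 0 1 1 (qsf 0 536870912 536870912 536870912 1) ndB0q0 ndB0q1 pcB1 cut_pm_011 Ext.none)

def k0_pm_011 : ∃ t, chk3 f_pm_011 t 1 1 1 = true :=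
  ⟨(l 6), by decide +kernel⟩

theorem c_pm_011 : CertB 0 536870912 536870912 536870912 991146299 28908434 3 eng mog cd0q0 cd0q1 pd1 true true false .pnn 0 1 1
    ndB0q0 ndB0q1 pcB1 cut_pm_011 Ext.none :=
  certB1 (fam := true) (s1 := true) (s2 := false) (a := 0) (b := 1) (c := 1) (cn := .pnn) (n1 := ndB0q0) (n2 := ndB0q1) (pc := pcB1) (cut := cut_pm_011) (xt := Ext.none) (P1 := 0) (W1 := 536870912) (P2 := 536870912) (W2 := 536870912) (P3 := 991146299) (W3 := 28908434) (N0 := 3) (En := eng) (mo := mog) (C1 := cd0q0) (C2 := cd0q1) (C3 := pd1)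
    rfl (fun _ => rfl) k0_pm_011

noncomputable def cut_pm_012 : Cut := Cut.of [[⟨3, 0, 0, 1449551462⟩], [⟨4, 0, 0, 2845415833⟩], [⟨0, 0, 0, 16777216⟩, ⟨1, 1, 0, 16777216⟩, ⟨2, 1, 0, 16777216⟩]]

noncomputable def f_pm_012 : ℕ → ℕ → ℕ → ℕ → Bool := onCell 0 536870912 536870912 536870912 991146299 28908434
    (rowB 3 eng mog cd0q0 cd0q1 pd2 0 true true false .pnp 0 1 2 (qsf 0 536870912 536870912 536870912 2) ndB0q0 ndB0q1 pcB2 cut_pm_012 Ext.none)

def k0_pm_012 : ∃ t, chk3 f_pm_012 t 1 2 1 = true :=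
  ⟨(l 6), by decide +kernel⟩

def k1_pm_012 : ∃ t, chk3 f_pm_012 t 2 3 1 = true :=
  ⟨(b (l 6) (a (l 6) (b (l 6) (a (l 6) (b (l 6) (a (l 6) (b (l 6) (a (b (l 6) (c (l 16126392) (l 16107568))) (c (l 16126440) (l 16126352)))))))))), by decide +kernel⟩

def k2_pm_012 : ∃ t, chk3 f_pm_012 t 3 3 1 = true :=
  ⟨(b (a (l 6) (b (l 6) (a (b (l 6) (a (l 6) (b (l 6) (l 16528112)))) (b (a (l 6) (b (l 16518144) (l 16492896))) (a (l 16435392) (l 16414016)))))) (a (b (a (l 6) (b (l 6) (a (b (l 6) (a (l 6) (l 16407256))) (b (a (l 16470488) (l 16454776)) (a (l 16390448) (l 16374512)))))) (a (b (a (b (l 6) (a (l 6) (c (l 16303592) (l 16310968)))) (b (a (l 6) (c (l 16360712) (l 16347296))) (c (a (l 16282032) (l 16261928)) (a (l 16265360) (l 16242248))))) (a (b (c (a (l 16232048) (l 16192352)) (a (l 16234528) (l 16171520))) (c (a (l 16099672) (l 16074784)) (a (l 16074400) (l 16045336)))) (b (c (a (l 16170032) (l 16149280)) (a (l 16145648) (l 16121440))) (c (a (l 16051656) (l 16030208))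 (l 16026288))))) (b (a (b (c (l 16333840) (l 16316672)) (c (l 16234344) (l 16210320))) (b (c (l 16301704) (l 16279792)) (c (l 16201640) (l 16172136)))) (a (b (c (l 16120912) (l 16088096)) (c (l 16001024) (l 15957936))) (b (c (l 16087576) (l 16048504)) (c (l 15967032) (l 15916848))))))) (b (a (b (a (b (l 16544520) (c (l 16507224) (l 16476528))) (b (l 16504136) (b (l 16463128) (l 16457656)))) (a (c (l 16317160) (l 16321728)) (b (l 16404216) (l 16324072)))) (b (a (b (l 16462912) (b (l 16445960) (l 16406880))) (b (l 16420960) (l 16376392))) (a (b (l 16377032) (l 16297632)) (b (l 16308040) (l 16271896))))) (a (b (a (b (l 16260144) (l 16155904)) (b (l 16232312) (l 16128160))) (a (b (c (l 16058432) (l 16014200)) (c (l 15937752) (l 15881664))) (b (l 16008960) (c (l 15911912) (l 15852232))))) (b (a (b (l 16206560) (l 16103048)) (b (l 16182056) (l 16079776))) (a (b (l 15984496) (l 15858808)) (b (l 15962496) (l 15838184)))))))), by decide +kernel⟩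

theorem s3_pm_012 : ∃ t, chk3 f_pm_012 t 1 3 1 = true := ex3_a k1_pm_012 k2_pm_012

theorem s4_pm_012 : ∃ t, chk3 f_pm_012 t 1 1 1 = true := ex3_b k0_pm_012 s3_pm_012

theorem c_pm_012 : CertB 0 536870912 536870912 536870912 991146299 28908434 3 eng mog cd0q0 cd0q1 pd2 true true false .pnp 0 1 2
    ndB0q0 ndB0q1 pcB2 cut_pm_012 Ext.none :=
  certB0 (fam := true) (s1 := true) (s2 := false) (a := 0) (b := 1) (c := 2) (cn := .pnp) (n1 := ndB0q0) (n2 := ndB0q1) (pc := pcB2) (cut := cut_pm_012) (xt := Ext.none) (P1 := 0) (W1 := 536870912) (P2 := 536870912) (W2 := 536870912) (P3 := 991146299) (W3 := 28908434) (N0 := 3) (En := eng) (mo := mog) (C1 := cd0q0) (C2 := cd0q1) (C3 := pd2)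
    rfl s4_pm_012

noncomputable def cut_pm_022 : Cut := Cut.of [[⟨3, 0, 0, 1449551462⟩], [⟨4, 0, 0, 2845415833⟩], [⟨0, 0, 0, 53687091⟩, ⟨1, 1, 0, 53687091⟩, ⟨2, 1, 0, 53687091⟩]]

noncomputable def f_pm_022 : ℕ → ℕ → ℕ → ℕ → Bool := onCell 1073741824 536870912 0 536870912 991146299 28908434
    (rowB 3 eng mog cd0q0 cd0q2 pd2 2 true true false .pp 0 2 2 (qsf 0 536870912 0 536870912 2) ndB0q0 ndB0q2 pcB2 cut_pm_022 Ext.none)

def k0_pm_022 : ∃ t, chk3 f_pm_022 t 4 1 1 = true :=
  ⟨(b (a (l 1) (b (l 1) (a (l 1) (a (l 1) (a (l 1) (b (l 1) (b (l 1) (l 16186312)))))))) (b (a (l 1) (a (b (l 1) (a (l 6) (b (b (c (l 16294032) (l 16227832)) (l 6)) (l 6)))) (b (a (c (b (l 16197336) (a (l 16266472) (l 16298160))) (b (l 16128888) (a (l 16202824) (l 16240872)))) (c (b (l 16265920) (l 16346712)) (b (l 16211616) (l 16278048)))) (a (a (b (c (l 16364016) (l 16308600)) (l 6)) (b (c (l 16393592) (l 16343880)) (c (l 16438440) (l 16396128)))) (b (c (l 16355088) (l 16313976)) (c (a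 (l 16492568) (l 16537008)) (b (l 16458456) (l 16475400)))))))) (l 6))), by decide +kernel⟩

def k1_pm_022 : ∃ t, chk3 f_pm_022 t 5 2 1 = true :=
  ⟨(a (b (a (a (l 1) (b (c (l 16152112) (l 16117304)) (c (l 16179488) (l 16141888)))) (b (c (l 16204360) (l 16184160)) (a (c (l 16275608) (l 16259312)) (l 16291304)))) (a (a (b (c (l 16148152) (l 16092072)) (c (b (l 16214424) (l 16270560)) (b (l 16164280) (l 16225352)))) (b (c (l 16234688) (l 16197520)) (c (l 16258440) (l 16226880)))) (b (a (c (l 16322824) (l 16304432)) (c (l 16412824) (l 16413080))) (a (b (l 16348208) (l 16356096)) (b (l 16440248) (l 16484632)))))) (b (a (b (c (l 16343400) (l 16212832)) (a (l 16378904) (l 16277664))) (a (b (l 16096864) (l 16171800)) (b (c (l 16248608) (l 16147432)) (c (l 16279704) (l 16196568))))) (a (a (b (l 16395336) (b (l 16495000) (l 16484984))) (b (c (l 16435872) (l 16400968)) (c (l 16432248) (l 16402184)))) (b (a (c (l 16367304) (l 16315464)) (c (l 16303536) (l 16235488))) (c (l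 16216280) (a (l 16327032) (l 16255400))))))), by decide +kernel⟩

def k2_pm_022 : ∃ t, chk3 f_pm_022 t 5 6 1 = true :=
  ⟨(a (a (b (a (c (b (l 16336656) (l 16413352)) (b (l 16296536) (l 16378512))) (b (l 16291704) (b (l 16388472) (l 16407312)))) (a (b (b (l 16357808) (c (l 16525000) (l 16475784))) (c (l 16496136) (l 16492760))) (b (b (l 16470856) (l 16494656)) (c (l 16455272) (l 16469656))))) (b (a (b (l 16394120) (l 16462568)) (a (l 16458848) (l 16423360))) (b (a (l 16431584) (a (l 16487760) (l 16457064))) (a (c (l 16438848) (l 16443632)) (c (l 16427056) (l 16422688)))))) (b (a (a (b (l 16468360) (l 16402272)) (c (l 16406944) (l 16380024))) (c (b (l 16333480) (l 16318736)) (b (l 16287592) (l 16276464)))) (a (c (b (l 16330080) (a (l 16375912) (l 16327968))) (b (l 16310864) (a (l 16362664) (l 16306176)))) (c (b (l 16295200) (a (l 16282968) (l 16241064))) (b (l 16214824) (a (l 16252904) (l 16203000))))))), by decide +kernel⟩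

def k3_pm_022 : ∃ t, chk3 f_pm_022 t 5 7 1 = true :=
  ⟨(a (b (a (a (b (b (a (l 16489104) (l 16498456)) (l 6)) (l 6)) (a (b (b (l 16488288) (c (l 16465296) (l 16477448))) (l 6)) (b (b (l 16479328) (b (l 16451512) (a (l 16439608) (a (l 16429184) (b (l 16426256) (b (l 16418688) (a (c (l 16393584) (l 16421096)) (l 16413120)))))))) (a (l 6) (a (l 6) (a (l 6) (l 16395528))))))) (b (c (a (b (l 16434728) (l 16399640)) (b (l 16383808) (l 16350600))) (a (b (l 16438248) (l 16402296)) (b (l 16379264) (l 16345920)))) (a (c (l 16366368) (l 16367856)) (b (c (l 16325264) (l 16320352)) (l 16307816))))) (a (l 6) (b (b (a (l 6) (c (l 16290944) (l 16285416))) (l 6)) (l 6)))) (b (a (b (c (a (a (l 16331952) (l 16309408)) (c (l 16281656) (l 16272184))) (a (b (l 16323520) (l 16293200)) (b (l 16271232) (l 16243760)))) (b (c (a (l 16258496) (l 16216096)) (a (l 16268096) (l 16198520))) (c (l 16240168) (l 16231384)))) (b (c (a (l 16236208) (l 16198032)) (a (l 16210080) (l 16165088))) (c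 (b (b (c (l 16168976) (l 16155744)) (l 16175808)) (l 16147368)) (b (a (l 16153032) (l 16110496)) (l 16142960))))) (b (a (b (c (c (l 16211216) (l 16225288)) (b (l 16219856) (l 16210064))) (c (a (l 16225656) (l 16187632)) (a (l 16214288) (l 16171176)))) (b (c (a (l 16171960) (l 16137304)) (l 16129976)) (c (a (l 16152048) (l 16118848)) (l 16106072)))) (a (a (b (c (l 16200328) (l 16188568)) (l 6)) (c (b (l 16163960) (l 16140424)) (b (l 16147448) (l 16123928)))) (b (c (a (l 16129952) (l 16098256)) (a (l 16108696) (l 16072216))) (c (a (l 16108048) (l 16077880)) (a (l 16087072) (l 16052376)))))))), by decide +kernel⟩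

def k4_pm_022 : ∃ t, chk3 f_pm_022 t 6 2 1 = true :=
  ⟨(a (b (a (b (c (a (l 16177136) (l 16109344)) (a (l 16055680) (l 15968384))) (c (l 16014608) (a (l 16112928) (l 16033104)))) (b (c (a (l 16045544) (l 15985864)) (a (l 15885928) (b (l 15788096) (l 15828712)))) (c (a (l 16092824) (l 16037920)) (a (l 15957872) (l 15887136))))) (a (b (c (l 16109320) (a (l 16159288) (l 16087264))) (c (a (l 16259080) (l 16207944)) (a (l 16187808) (l 16123928)))) (b (c (a (l 16132720) (l 16082920)) (a (l 16019568) (l 15955952))) (c (a (l 16160128) (l 16115648)) (a (l 16063856) (l 16007592)))))) (b (a (a (b (c (b (l 15915320) (l 15944728)) (b (l 15713752) (l 15757496))) (c (l 15986672) (l 15820744))) (b (c (b (l 15862152) (l 15893656)) (b (l 15643960) (l 15690640))) (c (l 15938832) (b (l 15736256) (l 15780104))))) (a (b (c (b (l 15812728) (l 15846200)) (b (a (l 15594568) (l 15563080)) (l 15628136))) (c (b (l 15878760) (l 15909848)) (b (l 15676552) (l 15723256)))) (b (c (b (b (l 15737160)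 (l 15754936)) (l 15802336)) (b (a (l 15532720) (l 15503488)) (l 15590936))) (c (b (l 15836784) (l 15869800)) (b (l 15621000) (l 15670360)))))) (b (b (a (c (l 16002368) (l 15849544)) (c (l 15919800) (a (l 15767112) (l 15716944)))) (a (c (l 16025960) (l 15885088)) (c (l 15947736) (l 15783184)))) (a (c (b (l 16046232) (l 16061968)) (b (l 15916048) (l 15941920))) (c (b (l 15972480) (l 15992864)) (b (l 15820240) (l 15852336))))))), by decide +kernel⟩

def k5_pm_022 : ∃ t, chk3 f_pm_022 t 14 4 1 = true :=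
  ⟨(a (a (b (c (b (a (l 15714200) (l 15683640)) (l 15741096)) (b (a (c (l 15541816) (l 15407984)) (b (l 15413640) (l 15462184))) (a (l 15529152) (l 15503312)))) (c (b (l 15798264) (l 15833088)) (b (l 15569568) (l 15621408)))) (b (c (b (a (b (l 15644392) (l 15705552)) (b (l 15625984) (l 15687520))) (a (l 15734176) (l 15695736))) (b (a (c (l 15492456) (l 15351648)) (b (c (l 15456216) (l 15309760)) (l 15391152))) (a (l 15478544) (l 15454848)))) (c (b (l 15742208) (l 15799672)) (b (l 15522248) (l 15576360))))) (b (c (b (a (b (a (c (l 15720384) (l 15579392)) (c (l 15705296) (l 15561320))) (a (l 15649416) (l 15612216))) (b (a (c (l 15691064) (l 15544216)) (c (l 15677680) (a (l 15532016) (l 15524184)))) (a (l 15596880) (c (l 15696280) (l 15551320))))) (a (b (l 15661248) (l 15681128)) (b (c (l 15721144) (l 15582136)) (l 15630792)))) (b (a (b (a (c (l 15433984) (l 15284280)) (c (l 15412856) (l 15260008))) (a (l 15367792) (c (l 15440056) (l 15291968)))) (b (c (a (b (l 15385896)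 (l 15399712)) (a (l 15378480) (l 15340440))) (a (b (l 15228848) (l 15245064)) (c (l 15255224) (l 15174752)))) (c (a (l 15420416) (l 15401848)) (a (l 15269384) (l 15247984))))) (a (b (c (l 15477200) (l 15335360)) (l 15414912)) (b (c (l 15438760) (l 15291136)) (c (l 15466344) (l 15323568)))))) (c (b (a (l 15710520) (l 15682168)) (a (l 15769512) (l 15721576))) (b (a (b (l 15443768) (l 15493280)) (a (l 15428384) (l 15409904))) (a (l 15535256) (l 15498112)))))), by decide +kernel⟩

def k6_pm_022 : ∃ t, chk3 f_pm_022 t 30 64 2 = true :=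
  ⟨(a (a (b (a (a (l 15544832) (b (b (c (l 15659184) (l 15463352)) (l 15561712)) (l 15563696))) (b (a (c (l 15659008) (b (l 15506648) (l 15461216))) (c (l 15661168) (l 15507336))) (a (l 15539368) (b (c (l 15655656) (a (l 15500928) (l 15500704))) (l 15536744))))) (c (l 15662776) (l 15509952))) (c (b (a (a (b (l 15664248) (l 15655696)) (l 15662800)) (l 15667736)) (a (a (l 15655408) (l 15611632)) (b (a (l 15652664) (l 15655440)) (a (l 15650952) (l 15649544))))) (b (a (a (b (l 15510744) (b (l 15502872) (a (l 15498888) (l 15498784)))) (l 15509008)) (l 15514496)) (a (a (l 15501008) (b (b (a (l 15496928) (l 15496952)) (l 15496792)) (l 15498912))) (b (a (b (l 15499416) (a (l 15495040) (l 15495200))) (l 15500456)) (a (l 15495624) (b (a (l 15493232) (l 15493536)) (l 15493040)))))))) (c (a (a (b (l 15674656) (c (l 15693808) (l 15617488))) (l 15672536)) (l 15663176)) (a (a (b (l 15522200) (a (b (l 15504264) (b (l 15496272) (l 15450016))) (l 15502832))) (l 15519632)) (c (l 15570936)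 (l 15494000))))), by decide +kernel⟩

def k7_pm_022 : ∃ t, chk3 f_pm_022 t 30 65 2 = true :=
  ⟨(a (a (c (l 15669856) (l 15518792)) (c (l 15658216) (l 15504648))) (b (a (a (a (c (l 15649144) (l 15493520)) (b (c (l 15646744) (b (l 15448424) (l 15489576))) (l 15549152))) (b (a (c (l 15647424) (b (l 15493440) (l 15467888))) (c (l 15650792) (l 15494832))) (a (c (l 15645176) (l 15488696)) (c (l 15644200) (b (l 15466456) (l 15486400)))))) (c (a (a (l 15649688) (l 15653624)) (l 15659560)) (a (a (b (l 15499024) (b (l 15490920) (l 15486080))) (l 15497904)) (l 15504536)))) (a (c (l 15649824) (l 15494480)) (a (a (c (l 15643864) (l 15487152)) (b (c (l 15641920) (b (l 15484816) (l 15483512))) (l 15543416))) (b (a (c (l 15643296) (l 15444120)) (l 15522256)) (a (c (l 15640384) (l 15482888)) (c (l 15639896) (b (l 15482536) (l 15480912))))))))), by decide +kernel⟩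

def k8_pm_022 : ∃ t, chk3 f_pm_022 t 30 33 2 = true :=
  ⟨(a (a (c (l 15684000) (l 15536456)) (c (l 15672552) (l 15522536))) (a (c (l 15661920) (l 15509560)) (c (l 15652104) (b (l 15491424) (l 15503600))))), by decide +kernel⟩

def k9_pm_022 : ∃ t, chk3 f_pm_022 t 30 16 6 = true :=
  ⟨(b (a (b (a (b (a (b (a (l 15350192) (b (a (l 15346648) (b (l 15346888) (l 15345088))) (l 15346640))) (l 15351504)) (b (a (b (l 15348096) (a (l 15344104) (b (l 15344592) (l 15342616)))) (l 15348792)) (a (l 15344952) (b (a (l 15320672) (b (l 15342360) (l 15340240))) (l 15341584))))) (l 15331464)) (b (a (a (b (l 15352544) (b (l 15343696) (a (l 15318296) (b (l 15340208) (l 15337952))))) (l 15350512)) (l 15356568)) (a (b (a (l 15340088) (b (a (l 15305520) (l 15305480)) (l 15336880))) (l 15341504)) (b (a (b (l 15339648) (a (b (l 15334696) (l 15334304)) (l 15313920))) (l 15340744)) (a (l 15335552) (b (a (b (l 15332648) (l 15332136)) (l 15332936)) (l 15332504))))))) (a (l 15363072) (a (l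 15350448) (l 15342368)))) (b (a (a (b (l 15365096) (a (b (l 15344952) (b (l 15335960) (a (b (l 15330696) (l 15330056)) (l 15331088)))) (l 15343272))) (c (l 15401880) (l 15321952))) (c (l 15415928) (l 15336712))) (a (b (a (b (b (a (l 15330432) (a (b (l 15328848) (l 15328056)) (l 15329328))) (l 15309376)) (l 15332752)) (b (a (b (l 15332632) (a (b (l 15327096) (l 15326152)) (l 15327680))) (l 15334128)) (a (l 15327440) (b (a (b (l 15325456) (l 15324328)) (l 15326120)) (l 15324720))))) (l 15313416)) (b (a (a (b (l 15338768) (b (l 15329656) (a (b (l 15323920) (l 15322600)) (l 15324672)))) (l 15337440)) (l 15344800)) (a (a (l 15294216) (b (b (a (l 15290424) (l 15323336)) (l 15321320)) (l 15323464))) (b (a (b (l 15327032) (a (l 15299440) (l 15322096))) (l 15328920)) (a (l 15289152) (b (a (l 15319032) (l 15320960)) (l 15297280))))))))) (a (a (l 15384344) (l 15367904)) (a (b (l 15345272) (l 15359768)) (b (l 15299424) (l 15345528))))), by decide +kernel⟩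

def k10_pm_022 : ∃ t, chk3 f_pm_022 t 60 32 7 = true :=
  ⟨(b (a (b (a (a (l 15189664) (b (b (a (b (l 15183120) (l 15183224)) (b (l 15183656) (l 15181664))) (l 15183504)) (l 15186624))) (b (a (b (l 15184944) (a (b (l 15180240) (l 15180240)) (b (l 15181024) (l 15178840)))) (l 15185648)) (a (l 15181608) (b (a (b (l 15177464) (l 15177376)) (b (l 15178464) (l 15176120))) (l 15177728))))) (a (l 15195392) (l 15185360))) (b (a (a (b (l 15189760) (b (l 15179896) (a (b (l 15174792) (l 15174608)) (b (l 15176008) (l 15173496))))) (l 15187424)) (c (l 15235120) (l 15152744))) (a (b (a (l 15176040) (b (a (b (l 15172224) (l 15171936)) (b (l 15173648) (l 15170984))) (l 15172344))) (l 15177736)) (b (a (b (l 15175256) (a (b (l 15169768) (l 15169360)) (b (l 15171392) (l 15168576)))) (l 15176416)) (a (l 15170840) (b (a (b (l 15167416) (l 15166880)) (b (l 15169232) (l 15166280))) (l 15167320))))))) (a (l 15202824) (a (l 15188224) (l 15178872)))), by decide +kernel⟩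

def k11_pm_022 : ∃ t, chk3 f_pm_022 t 61 32 7 = true :=
  ⟨(b (a (b (c (l 15249080) (l 15167360)) (a (a (b (l 15181032) (b (l 15171024) (a (b (l 15165176) (l 15164496)) (l 15176056)))) (l 15179096)) (l 15196968))) (c (a (l 15251072) (l 15261808)) (a (l 15169376) (l 15180632)))) (a (b (a (b (a (l 15166008) (b (a (b (l 15163048) (l 15162200)) (l 15163552)) (l 15162672))) (l 15167704)) (b (a (b (l 15167184) (a (b (l 15161032) (l 15160008)) (l 15161648))) (l 15168784)) (a (l 15172016) (b (a (b (l 15159144) (l 15157912)) (l 15159856)) (l 15168872))))) (a (l 15174064) (l 15165344))) (b (a (a (b (l 15173896) (b (l 15163744) (a (b (l 15157368) (l 15155920)) (l 15158176)))) (l 15172352)) (l 15180472)) (b (a (a (a (l 15157904) (l 15177360)) (b (a (b (l 15155720) (l 15154024)) (l 15156616)) (a (l 15154816) (l 15153504)))) (a (b (l 15160696) (c (l 15196512) (l 15138088))) (l 15162744))) (a (l 15159064) (c (a (l 15195832) (b (l 15195056) (l 15193184))) (a (l 15111208) (b (l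 15110304) (l 15108368))))))))), by decide +kernel⟩

def k12_pm_022 : ∃ t, chk3 f_pm_022 t 30 33 7 = true :=
  ⟨(a (a (l 15227784) (l 15208768)) (a (b (l 15182432) (l 15199432)) (c (l 15215704) (l 15132616)))), by decide +kernel⟩

def k13_pm_022 : ∃ t, chk3 f_pm_022 t 30 17 1 = true :=
  ⟨(c (a (b (a (l 15589992) (l 15577592)) (l 15604840)) (b (a (l 15566048) (l 15552744)) (c (l 15695584) (l 15551712)))) (a (b (c (l 15404480) (l 15272536)) (c (l 15432816) (l 15284840))) (a (c (l 15395928) (l 15278560)) (b (c (l 15367464) (l 15208608)) (l 15341208))))), by decide +kernel⟩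

def k14_pm_022 : ∃ t, chk3 f_pm_022 t 31 32 1 = true :=
  ⟨(c (a (a (b (c (l 15700920) (c (l 15589232) (l 15513336))) (a (b (c (l 15667784) (l 15513760)) (c (l 15627376) (c (l 15531256) (l 15451688)))) (c (l 15666720) (l 15512408)))) (c (c (l 15736440) (l 15662640)) (c (l 15587664) (l 15511544)))) (c (a (b (l 15738744) (l 15699496)) (l 15718920)) (a (c (l 15608928) (l 15534064)) (c (l 15631712) (l 15558208))))) (c (a (a (a (b (l 15391952) (a (a (b (l 15351144) (c (l 15367272) (l 15264200))) (l 15341424)) (l 15345344))) (c (l 15417624) (l 15338368))) (c (b (l 15458536) (l 15410072)) (b (l 15381592) (l 15330296)))) (a (c (l 15458088) (l 15360040)) (c (l 15483608) (l 15407944)))) (a (a (b (c (l 15278920) (l 15198592)) (a (a (b (l 15188896) (b (l 15168336) (c (l 15196776) (l 15133064)))) (l 15180936)) (c (l 15231144) (l 15148232)))) (c (b (l 15303552) (l 15249400)) (b (l 15224448) (l 15167400)))) (a (c (b (l 15330208) (l 15275528)) (b (l 15252448) (l 15194840))) (c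 (l 15331216) (l 15253440)))))), by decide +kernel⟩

def k15_pm_022 : ∃ t, chk3 f_pm_022 t 31 33 2 = true :=
  ⟨(a (b (a (b (a (b (a (c (l 15638352) (l 15480416)) (c (l 15638144) (b (l 15480592) (l 15478608)))) (l 15518928)) (b (c (l 15642456) (l 15463784)) (a (c (l 15636568) (l 15478216)) (c (l 15636656) (b (l 15479008) (l 15476608)))))) (c (l 15640632) (l 15483328))) (b (a (c (l 15646304) (l 15468032)) (c (l 15655616) (l 15499472))) (a (b (a (c (l 15635032) (l 15476312)) (c (l 15635432) (b (l 15477784) (l 15474904)))) (l 15536024)) (c (b (l 15640888) (a (l 15633744) (l 15634488))) (b (l 15482688) (a (l 15474688) (l 15443928))))))) (a (c (l 15648032) (l 15492552)) (c (l 15639888) (l 15482432)))) (a (a (b (c (l 15655224) (l 15498896)) (b (a (c (l 15633768) (l 15474704)) (b (c (l 15633824) (l 15474488)) (l 15553160))) (l 15558296))) (b (c (l 15665072) (l 15509992)) (b (b (l 15509288) (c (l 15591248) (a (l 15472312) (l 15473920)))) (l 15512664)))) (b (c (l 15680432)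 (l 15527312)) (b (c (l 15650600) (l 15493312)) (a (b (c (l 15632856) (a (l 15471568) (l 15473688))) (l 15510512)) (b (l 15541120) (c (l 15632776) (a (l 15471128) (l 15473800))))))))), by decide +kernel⟩

def k16_pm_022 : ∃ t, chk3 f_pm_022 t 62 33 3 = true :=
  ⟨(b (a (b (a (c (b (b (a (l 15295872) (l 15296728)) (a (l 15317816) (l 15294552))) (l 15318936)) (b (c (a (l 15192552) (b (l 15192448) (l 15190128))) (a (l 15107696) (b (l 15107504) (l 15105088)))) (l 15151784))) (b (c (c (l 15363344) (l 15280928)) (c (l 15197360) (l 15112640))) (a (c (b (l 15293312) (l 15315032)) (c (l 15189632) (l 15104560))) (c (b (l 15315776) (l 15292152)) (b (l 15147872) (a (l 15144792) (l 15144312))))))) (c (l 15321256) (l 15154520))) (b (c (a (a (l 15292704) (l 15329968)) (l 15338600)) (a (c (l 15202320) (l 15117824)) (l 15173128))) (a (c (b (b (a (l 15291088) (l 15314272)) (a (l 15312552) (l 15290104))) (l 15313832)) (b (a (c (l 15187056) (l 15101800)) (b (l 15146080) (a (l 15142216)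 (l 15142080)))) (l 15145856))) (b (c (l 15319704) (l 15152064)) (b (c (a (l 15310184) (l 15313192)) (a (a (l 15141064) (l 15141128)) (l 15144776))) (a (l 15226656) (c (l 15309384) (a (l 15140016) (l 15140288))))))))) (c (a (l 15332336) (l 15320200)) (a (l 15167512) (l 15153320)))), by decide +kernel⟩

def k17_pm_022 : ∃ t, chk3 f_pm_022 t 63 33 3 = true :=
  ⟨(b (a (c (c (l 15384464) (l 15303096)) (a (c (l 15214016) (l 15130048)) (l 15185888))) (c (l 15338120) (c (l 15248312) (l 15166088)))) (a (b (a (c (b (a (b (l 15308672) (l 15308488)) (b (l 15312504) (l 15308056))) (l 15310000)) (b (a (c (l 15182992) (l 15118384)) (b (l 15143912) (l 15159944))) (l 15141344))) (b (c (l 15318520) (l 15150544)) (a (b (c (l 15307528) (l 15138336)) (l 15217784)) (b (l 15228312) (c (l 15307104) (l 15137808)))))) (c (l 15313072) (l 15144928))) (b (c (l 15331280) (l 15164632)) (a (c (b (a (b (l 15306768) (l 15305896)) (l 15309200)) (l 15307560)) (b (a (b (l 15137384) (l 15136480)) (b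 (l 15143192) (l 15137072))) (l 15138416))) (b (c (l 15318632) (l 15150480)) (c (a (l 15306320) (l 15309224)) (a (b (l 15136880) (l 15135464)) (l 15139968)))))))), by decide +kernel⟩

def k18_pm_022 : ∃ t, chk3 f_pm_022 t 31 17 1 = true :=
  ⟨(b (c (c (a (l 15637760) (a (l 15647592) (l 15641680))) (a (a (l 15510968) (l 15501016)) (a (l 15491976) (l 15463456)))) (a (c (a (l 15354480) (l 15342536)) (a (l 15193464) (l 15179488))) (c (a (l 15331616) (a (l 15324104) (l 15320048))) (a (l 15166672) (a (l 15157808) (l 15173952)))))) (c (a (c (l 15678408) (l 15530464)) (c (l 15664336) (l 15512776))) (a (c (l 15377952) (l 15221008)) (c (l 15356584) (l 15195888))))), by decide +kernel⟩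

def k19_pm_022 : ∃ t, chk3 f_pm_022 t 15 9 1 = true :=
  ⟨(c (a (b (a (b (l 15625776) (l 15688384)) (b (l 15603744) (l 15666888))) (a (l 15697776) (l 15656152))) (b (a (a (l 15600176) (l 15591728)) (a (l 15584088) (l 15577248))) (a (c (l 15745480) (l 15614544)) (c (l 15732696) (l 15598368))))) (a (b (a (a (l 15392464) (l 15376056)) (b (l 15337872) (l 15368896))) (a (l 15464920) (l 15435664))) (b (a (a (l 15333064) (l 15326040)) (c (l 15401272) (l 15248320))) (a (l 15389376) (l 15367968))))), by decide +kernel⟩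

def k20_pm_022 : ∃ t, chk3 f_pm_022 t 7 5 1 = true :=
  ⟨(a (b (c (a (b (a (l 15866200) (l 15834512)) (l 15881848)) (b (b (l 15762800) (l 15780912)) (l 15827944))) (a (b (a (l 15670520) (l 15627816)) (l 15695536)) (b (a (l 15588872) (l 15553688)) (l 15653576)))) (a (c (b (l 15910552) (l 15935008)) (b (l 15737944) (l 15775592))) (c (b (l 15860040) (l 15867048)) (b (l 15669160) (l 15711584))))) (b (c (a (b (b (l 15717128) (l 15736568)) (l 15764664)) (b (a (l 15721864) (l 15708256)) (l 15733736))) (a (b (b (l 15493808) (l 15522104)) (b (l 15549544) (l 15555064))) (b (b (l 15424184) (l 15453872)) (a (l 15527664) (l 15508592))))) (c (a (b (l 15799584) (l 15830496)) (a (l 15793736) (l 15782488))) (a (b (l 15613808) (l 15660232)) (b (l 15576936) (l 15600320)))))), by decide +kernel⟩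

def k21_pm_022 : ∃ t, chk3 f_pm_022 t 3 6 1 = true :=
  ⟨(a (a (b (a (c (b (l 16234216) (l 16225992)) (b (l 16165512) (l 16163288))) (c (b (l 16147448) (l 16145280)) (b (l 16057480) (l 16063448)))) (a (c (b (l 16209648) (a (l 16201784) (l 16165088))) (b (l 16153240) (a (l 16155888) (l 16111512)))) (c (b (l 16134912) (b (l 16121008) (l 16087464))) (b (l 16061400) (c (l 16066680) (l 16033344)))))) (b (a (c (b (l 16072000) (l 16075304)) (b (l 15962016) (l 15975288))) (c (b (l 16007680) (l 15994976)) (b (l 15878832) (l 15898656)))) (a (c (b (l 16070648) (a (l 16070144) (l 16043360))) (b (l 15980688) (l 15977064))) (c (b (l 15995408) (l 15986680)) (b (l 15910840) (l 15893144)))))) (a (b (b (c (a (l 15933112) (l 15910712)) (a (l 15807744) (l 15748712))) (c (a (l 15945736) (l 15948064)) (a (l 15833440) (l 15779496)))) (a (c (b (l 16055512) (a (l 15976536) (l 15958560))) (b (l 15830656) (l 15840104))) (c (b (l 15935856) (a (l 15942624) (l 15928712))) (a (l 15800560) (l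 15779904))))) (b (c (a (b (a (l 15884544) (l 15870208)) (a (l 15903328) (l 15890400))) (b (a (l 15858224) (l 15848512)) (a (l 15879616) (l 15870896)))) (a (b (l 15701504) (l 15715536)) (b (l 15644920) (l 15683448)))) (b (a (c (a (l 15914544) (l 15902992)) (l 15743272)) (a (c (l 15893384) (l 15741696)) (c (l 15885584) (l 15729952)))) (a (a (l 15833912) (l 15831944)) (c (l 15957272) (a (l 15763576) (l 15753424)))))))), by decide +kernel⟩

def k22_pm_022 : ∃ t, chk3 f_pm_022 t 3 14 1 = true :=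
  ⟨(b (a (a (a (c (a (l 16141400) (l 16108208)) (a (l 16122704) (l 16061888))) (c (c (l 16076744) (l 16049352)) (a (l 16024512) (l 15989536)))) (a (c (a (l 16085848) (l 16020000)) (b (l 15946568) (l 15936216))) (a (c (l 15998208) (l 15919744)) (c (l 15978464) (l 15894112))))) (a (a (c (a (l 15960704) (l 15944856)) (a (l 15870704) (l 15849480))) (c (a (l 15930896) (l 15918656)) (a (l 15830336) (l 15813344)))) (a (c (l 16050336) (l 15875840)) (c (l 15888256) (a (l 15774944) (l 15766288)))))) (a (a (a (a (b (c (a (l 16135256) (l 16119016)) (l 16070800)) (c (l 16116848) (l 16083088))) (b (c (a (l 16103440) (l 16088496)) (b (l 16058056) (l 16049832))) (l 16129112))) (c (b (a (a (l 16074176) (l 16060456)) (l 16083088)) (l 16043432)) (b (c (l 15996096) (l 15970472)) (l 15995808)))) (a (c (b (a (l 16017056) (l 15994944)) (l 15994576)) (b (a (l 15958272) (l 15930512)) (l 15936272))) (c (b (a (l 15974648) (l 15956384)) (a (l 15962736) (l 15943936))) (b (a (l 15904688) (l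 15881080)) (a (l 15896848) (l 15873216)))))) (a (a (c (b (a (l 15940360) (l 15926104)) (a (l 15927368) (l 15912912))) (b (l 15913280) (a (l 15852064) (l 15833240)))) (b (c (l 15907976) (l 15816048)) (b (c (l 15897648) (l 15811144)) (l 15852240)))) (c (a (b (l 15888736) (l 15939256)) (b (l 15874616) (l 15862640))) (a (b (l 15789504) (l 15784944)) (b (l 15770608) (l 15767792))))))), by decide +kernel⟩

def k23_pm_022 : ∃ t, chk3 f_pm_022 t 3 15 1 = true :=
  ⟨(a (a (b (a (b (c (a (l 16105040) (l 16075136)) (l 16033808)) (c (a (l 16087976) (l 16059352)) (l 16018424))) (b (c (l 16097520) (l 16009848)) (c (l 16041552) (l 15976312)))) (a (c (b (a (l 16068800) (l 16041480)) (a (l 16049864) (l 16023856))) (b (l 16000776) (a (l 16019736) (l 15989128)))) (c (a (l 16049768) (l 15984968)) (a (l 15967944) (l 15940600))))) (b (a (c (b (l 15987664) (l 15975512)) (b (l 15931784) (l 15921720))) (b (c (l 15948376) (l 15883152)) (c (l 15937680) (l 15875064)))) (a (c (a (l 15963872)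 (l 15944456)) (a (l 15915176) (l 15891584))) (c (a (l 15926624) (l 15910312)) (a (l 15869736) (l 15849536)))))) (c (a (b (a (b (l 15916160) (l 15906424)) (b (l 15890136) (l 15880704))) (a (a (l 15895328) (l 15881560)) (l 15863008))) (b (a (l 15864360) (l 15847416)) (a (l 15841048) (l 15822024)))) (a (b (a (b (l 15842352) (l 15835752)) (l 15911144)) (a (l 15948488) (l 15792056))) (b (a (l 15780784) (l 15762032)) (a (l 15767584) (l 15748536)))))), by decide +kernel⟩

theorem s24_pm_022 : ∃ t, chk3 f_pm_022 t 3 7 1 = true := ex3_b k22_pm_022 k23_pm_022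

theorem s25_pm_022 : ∃ t, chk3 f_pm_022 t 3 3 1 = true := ex3_b k21_pm_022 s24_pm_022

theorem s26_pm_022 : ∃ t, chk3 f_pm_022 t 31 33 3 = true := ex3_a k16_pm_022 k17_pm_022

theorem s27_pm_022 : ∃ t, chk3 f_pm_022 t 31 33 1 = true := ex3_c k15_pm_022 s26_pm_022

theorem s28_pm_022 : ∃ t, chk3 f_pm_022 t 31 16 1 = true := ex3_b k14_pm_022 s27_pm_022

theorem s29_pm_022 : ∃ t, chk3 f_pm_022 t 31 8 1 = true := ex3_b s28_pm_022 k18_pm_022

theorem s30_pm_022 : ∃ t, chk3 f_pm_022 t 30 32 7 = true := ex3_a k10_pm_022 k11_pm_022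

theorem s31_pm_022 : ∃ t, chk3 f_pm_022 t 30 16 7 = true := ex3_b s30_pm_022 k12_pm_022

theorem s32_pm_022 : ∃ t, chk3 f_pm_022 t 30 16 3 = true := ex3_c k9_pm_022 s31_pm_022

theorem s33_pm_022 : ∃ t, chk3 f_pm_022 t 30 32 2 = true := ex3_b k6_pm_022 k7_pm_022

theorem s34_pm_022 : ∃ t, chk3 f_pm_022 t 30 16 2 = true := ex3_b s33_pm_022 k8_pm_022

theorem s35_pm_022 : ∃ t, chk3 f_pm_022 t 30 16 1 = true := ex3_c s34_pm_022 s32_pm_022

theorem s36_pm_022 : ∃ t, chk3 f_pm_022 t 30 8 1 = true := ex3_b s35_pm_022 k13_pm_022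

theorem s37_pm_022 : ∃ t, chk3 f_pm_022 t 15 8 1 = true := ex3_a s36_pm_022 s29_pm_022

theorem s38_pm_022 : ∃ t, chk3 f_pm_022 t 15 4 1 = true := ex3_b s37_pm_022 k19_pm_022

theorem s39_pm_022 : ∃ t, chk3 f_pm_022 t 7 4 1 = true := ex3_a k5_pm_022 s38_pm_022

theorem s40_pm_022 : ∃ t, chk3 f_pm_022 t 7 2 1 = true := ex3_b s39_pm_022 k20_pm_022

theorem s41_pm_022 : ∃ t, chk3 f_pm_022 t 3 2 1 = true := ex3_a k4_pm_022 s40_pm_022

theorem s42_pm_022 : ∃ t, chk3 f_pm_022 t 3 1 1 = true := ex3_b s41_pm_022 s25_pm_022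

theorem s43_pm_022 : ∃ t, chk3 f_pm_022 t 5 3 1 = true := ex3_b k2_pm_022 k3_pm_022

theorem s44_pm_022 : ∃ t, chk3 f_pm_022 t 5 1 1 = true := ex3_b k1_pm_022 s43_pm_022

theorem s45_pm_022 : ∃ t, chk3 f_pm_022 t 2 1 1 = true := ex3_a k0_pm_022 s44_pm_022

theorem s46_pm_022 : ∃ t, chk3 f_pm_022 t 1 1 1 = true := ex3_a s45_pm_022 s42_pm_022

theorem c_pm_022 : CertB 0 536870912 0 536870912 991146299 28908434 3 eng mog cd0q0 cd0q2 pd2 true true false .pp 0 2 2
    ndB0q0 ndB0q2 pcB2 cut_pm_022 Ext.none :=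
  certB2 (fam := true) (s1 := true) (s2 := false) (a := 0) (b := 2) (c := 2) (cn := .pp) (n1 := ndB0q0) (n2 := ndB0q2) (pc := pcB2) (cut := cut_pm_022) (xt := Ext.none) (P1 := 0) (W1 := 536870912) (P2 := 0) (W2 := 536870912) (P3 := 991146299) (W3 := 28908434) (N0 := 3) (En := eng) (mo := mog) (C1 := cd0q0) (C2 := cd0q2) (C3 := pd2)
    rfl (fun _ => rfl) s46_pm_022

noncomputable def cut_pm_023 : Cut := Cut.of [[⟨3, 0, 0, 1449551462⟩], [⟨4, 0, 0, 2845415833⟩]]

noncomputable def f_pm_023 : ℕ → ℕ → ℕ → ℕ → Bool := onCell 1610612736 536870912 0 536870912 991146299 28908434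
    (rowB 3 eng mog cd0q0 cd0q2 pd3 2 true true false .up 0 2 3 (qsf 0 536870912 0 536870912 3) ndB0q0 ndB0q2 pcB3 cut_pm_023 Ext.none)

def k0_pm_023 : ∃ t, chk3 f_pm_023 t 4 2 1 = true :=
  ⟨(b (a (b (b (a (a (l 16224976) (l 16243256)) (a (l 16266016) (l 16292816))) (b (a (a (l 16199240) (b (l 16189808) (l 16172512))) (a (l 16200208) (l 16225768))) (c (a (l 16199520) (a (l 16195664) (l 16207840))) (a (l 16151176) (a (l 16142112) (l 16154432)))))) (a (c (l 16288272) (l 16153712)) (a (b (l 16170512) (l 16180976)) (b (c (l 16191672) (l 16143808)) (l 16175752))))) (b (a (a (b (c (l 16343224) (l 16302696)) (l 16242792)) (b (l 14) (c (l 16287352) (l 16242216)))) (b (l 14) (a (c (l 16321224) (l 16280000)) (l 14)))) (b (a (a (b (b (a (l 16169456) (l 16182352)) (a (l 16164112) (l 16167632))) (l 16167736)) (b (c (l 16262208) (l 16211008)) (c (l 16198272) (l 16147920)))) (a (b (l 16209704) (b (a (l 16186064) (l 16204424)) (c (l 16248544) (l 16218976)))) (c (a (l 16257896)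 (l 16277176)) (a (l 16211632) (l 16233152))))) (a (c (l 16193488) (l 16154768)) (a (c (l 16201448) (l 16158512)) (b (b (a (l 16249400) (b (l 16201432) (l 16214040))) (c (l 16211472) (l 16164808))) (l 16189032))))))) (a (b (a (c (l 16209520) (l 16207264)) (c (l 16194352) (l 16182816))) (a (c (l 16203608) (l 16223768)) (c (l 16185240) (l 16174888)))) (b (b (a (c (l 16192584) (l 16167144)) (c (l 16202376) (l 16171088))) (a (l 16245408) (c (l 16196664) (l 16176888)))) (c (a (l 16177864) (l 16181424)) (a (l 16264320) (b (l 16178248) (l 16174584))))))), by decide +kernel⟩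

def k1_pm_023 : ∃ t, chk3 f_pm_023 t 5 2 1 = true :=
  ⟨(a (b (b (l 14) (a (b (a (c (l 16306496) (l 16265912)) (l 14)) (a (b (a (b (l 16216280) (c (l 16223056) (l 16175704))) (c (l 16268616) (l 16223352))) (c (l 16222656) (l 16179040))) (b (l 14) (a (b (c (l 16258872) (l 16192720)) (l 16210192)) (l 2))))) (l 2))) (a (b (b (c (a (l 16217384) (l 16231112)) (a (l 16182784) (l 16194656))) (c (l 16215376) (l 16190592))) (c (l 16279624) (l 16290032))) (l 2))) (l 2)), by decide +kernel⟩

def k2_pm_023 : ∃ t, chk3 f_pm_023 t 2 3 1 = true :=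
  ⟨(b (a (a (b (a (c (l 16178200) (l 16218512)) (c (l 16135424) (l 16187272))) (a (c (l 16081144) (b (l 16196336) (l 16170216))) (b (c (l 16116080) (l 16162472)) (c (l 16077280) (l 16134408))))) (b (c (a (b (l 16155632) (l 16132408)) (b (l 16155264) (l 16129368))) (a (l 16104176) (l 36069578327))) (b (a (c (l 16100976) (l 16138408)) (c (l 16095176) (l 16123712))) (a (c (l 16059696) (l 16107576)) (l 2))))) (l 2)) (a (b (a (a (b (c (l 16055616) (l 16133264)) (c (l 15786896) (l 16084832))) (b (c (l 16027080) (l 16095216)) (c (l 15963712) (l 16042600)))) (a (b (c (l 16006912) (l 16065208)) (l 2)) (l 2))) (a (b (a (c (l 15966800) (l 16044088)) (c (b (l 15944664) (l 2)) (l 125726472775))) (a (c (l 15967416) (l 16017456)) (l 2))) (l 2))) (l 2))), by decide +kernel⟩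

def k3_pm_023 : ∃ t, chk3 f_pm_023 t 3 1 1 = true :=
  ⟨(l 2), by decide +kernel⟩

theorem s4_pm_023 : ∃ t, chk3 f_pm_023 t 2 2 1 = true := ex3_a k0_pm_023 k1_pm_023

theorem s5_pm_023 : ∃ t, chk3 f_pm_023 t 2 1 1 = true := ex3_b s4_pm_023 k2_pm_023

theorem s6_pm_023 : ∃ t, chk3 f_pm_023 t 1 1 1 = true := ex3_a s5_pm_023 k3_pm_023

theorem c_pm_023 : CertB 0 536870912 0 536870912 991146299 28908434 3 eng mog cd0q0 cd0q2 pd3 true true false .up 0 2 3
    ndB0q0 ndB0q2 pcB3 cut_pm_023 Ext.none :=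
  certB2 (fam := true) (s1 := true) (s2 := false) (a := 0) (b := 2) (c := 3) (cn := .up) (n1 := ndB0q0) (n2 := ndB0q2) (pc := pcB3) (cut := cut_pm_023) (xt := Ext.none) (P1 := 0) (W1 := 536870912) (P2 := 0) (W2 := 536870912) (P3 := 991146299) (W3 := 28908434) (N0 := 3) (En := eng) (mo := mog) (C1 := cd0q0) (C2 := cd0q2) (C3 := pd3)
    rfl (fun _ => rfl) s6_pm_023

noncomputable def cut_pm_101 : Cut := Cut.of [[⟨3, 0, 0, 1449551462⟩], [⟨4, 0, 0, 2845415833⟩], [⟨0, 1, 0, 53687091⟩, ⟨1, 0, 0, 53687091⟩, ⟨2, 1, 0, 53687091⟩]]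

noncomputable def f_pm_101 : ℕ → ℕ → ℕ → ℕ → Bool := onCell 536870912 536870912 536870912 536870912 991146299 28908434
    (rowB 3 eng mog cd0q1 cd0q0 pd1 1 true true false .npn 1 0 1 (qsf 536870912 536870912 0 536870912 1) ndB0q1 ndB0q0 pcB1 cut_pm_101 Ext.none)

def k0_pm_101 : ∃ t, chk3 f_pm_101 t 1 1 1 = true :=
  ⟨(l 6), by decide +kernel⟩

theorem c_pm_101 : CertB 536870912 536870912 0 536870912 991146299 28908434 3 eng mog cd0q1 cd0q0 pd1 true true false .npn 1 0 1
    ndB0q1 ndB0q0 pcB1 cut_pm_101 Ext.none :=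
  certB1 (fam := true) (s1 := true) (s2 := false) (a := 1) (b := 0) (c := 1) (cn := .npn) (n1 := ndB0q1) (n2 := ndB0q0) (pc := pcB1) (cut := cut_pm_101) (xt := Ext.none) (P1 := 536870912) (W1 := 536870912) (P2 := 0) (W2 := 536870912) (P3 := 991146299) (W3 := 28908434) (N0 := 3) (En := eng) (mo := mog) (C1 := cd0q1) (C2 := cd0q0) (C3 := pd1)
    rfl (fun _ => rfl) k0_pm_101

noncomputable def cut_pm_102 : Cut := Cut.of [[⟨3, 0, 0, 1449551462⟩], [⟨4, 0, 0, 2845415833⟩], [⟨0, 1, 0, 16777216⟩, ⟨1, 0, 0, 16777216⟩, ⟨2, 1, 0, 16777216⟩]]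

noncomputable def f_pm_102 : ℕ → ℕ → ℕ → ℕ → Bool := onCell 536870912 536870912 0 536870912 991146299 28908434
    (rowB 3 eng mog cd0q1 cd0q0 pd2 0 true true false .npp 1 0 2 (qsf 536870912 536870912 0 536870912 2) ndB0q1 ndB0q0 pcB2 cut_pm_102 Ext.none)

def k0_pm_102 : ∃ t, chk3 f_pm_102 t 2 1 1 = true :=
  ⟨(l 6), by decide +kernel⟩

def k1_pm_102 : ∃ t, chk3 f_pm_102 t 3 2 1 = true :=
  ⟨(a (l 6) (b (l 6) (a (l 6) (b (l 6) (a (l 6) (b (l 6) (a (l 6) (b (a (l 6) (c (l 16126392) (l 16107568))) (c (l 16126440) (l 16126352)))))))))), by decide +kernel⟩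

def k2_pm_102 : ∃ t, chk3 f_pm_102 t 3 3 1 = true :=
  ⟨(a (b (l 6) (a (l 6) (b (a (l 6) (b (l 6) (a (l 6) (l 16528112)))) (a (b (l 6) (a (l 16518144) (l 16492896))) (b (l 16435392) (l 16414016)))))) (b (a (b (l 6) (a (l 6) (b (a (l 6) (b (l 6) (l 16407256))) (a (b (l 16470488) (l 16454776)) (b (l 16390448) (l 16374512)))))) (b (a (b (a (l 6) (b (l 6) (c (l 16303592) (l 16310968)))) (a (b (l 6) (c (l 16360712) (l 16347296))) (c (b (l 16282032) (l 16261928)) (b (l 16265360) (l 16242248))))) (b (a (c (b (l 16232048) (l 16192352)) (b (l 16234528) (l 16171520))) (c (b (l 16099672) (l 16074784)) (b (l 16074400) (l 16045336)))) (a (c (b (l 16170032) (l 16149280)) (b (l 16145648) (l 16121440))) (c (b (l 16051656) (l 16030208)) (l 16026288))))) (a (b (a (c (l 16333840) (l 16316672)) (c (l 16234344) (l 16210320))) (a (c (l 16301704) (l 16279792)) (c (l 16201640) (l 16172136)))) (b (a (c (l 16120912) (l 16088096)) (c (l 16001024) (l 15957936))) (a (c (l 16087576) (l 16048504))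 (c (l 15967032) (l 15916848))))))) (a (b (a (b (a (l 16544520) (c (l 16507224) (l 16476528))) (a (l 16504136) (a (l 16463128) (l 16457656)))) (b (c (l 16317160) (l 16321728)) (a (l 16404216) (l 16324072)))) (a (b (a (l 16462912) (a (l 16445960) (l 16406880))) (a (l 16420960) (l 16376392))) (b (a (l 16377032) (l 16297632)) (a (l 16308040) (l 16271896))))) (b (a (a (b (l 16260144) (l 16232312)) (b (l 16155904) (l 16128160))) (b (a (c (l 16058432) (l 16014200)) (c (l 15937752) (l 15881664))) (a (l 16008960) (l 15914000)))) (a (b (a (l 16206560) (l 16103048)) (a (l 16182056) (l 16079776))) (b (a (l 15984496) (l 15858808)) (a (l 15962496) (l 15838184)))))))), by decide +kernel⟩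

theorem s3_pm_102 : ∃ t, chk3 f_pm_102 t 3 1 1 = true := ex3_b k1_pm_102 k2_pm_102

theorem s4_pm_102 : ∃ t, chk3 f_pm_102 t 1 1 1 = true := ex3_a k0_pm_102 s3_pm_102

theorem c_pm_102 : CertB 536870912 536870912 0 536870912 991146299 28908434 3 eng mog cd0q1 cd0q0 pd2 true true false .npp 1 0 2
    ndB0q1 ndB0q0 pcB2 cut_pm_102 Ext.none :=
  certB0 (fam := true) (s1 := true) (s2 := false) (a := 1) (b := 0) (c := 2) (cn := .npp) (n1 := ndB0q1) (n2 := ndB0q0) (pc := pcB2) (cut := cut_pm_102) (xt := Ext.none) (P1 := 536870912) (W1 := 536870912) (P2 := 0) (W2 := 536870912) (P3 := 991146299) (W3 := 28908434) (N0 := 3) (En := eng) (mo := mog) (C1 := cd0q1) (C2 := cd0q0) (C3 := pd2)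
    rfl s4_pm_102

noncomputable def cut_pm_112 : Cut := Cut.of [[⟨3, 0, 0, 1449551462⟩], [⟨4, 0, 0, 2845415833⟩]]

noncomputable def f_pm_112 : ℕ → ℕ → ℕ → ℕ → Bool := onCell 536870912 536870912 536870912 536870912 991146299 28908434
    (rowB 3 eng mog cd0q1 cd0q1 pd2 0 true true false .dn 1 1 2 (qsf 536870912 536870912 536870912 536870912 2) ndB0q1 ndB0q1 pcB2 cut_pm_112 Ext.none)

def k0_pm_112 : ∃ t, chk3 f_pm_112 t 2 1 1 = true :=
  ⟨(b (b (a (l 6) (a (l 6) (b (l 6) (a (b (l 6) (l 16516824)) (b (b (l 6) (l 16519568)) (l 16487352)))))) (a (b (l 6) (a (l 6) (b (a (l 6) (l 16516824)) (a (a (l 6) (l 16519568)) (l 16487352))))) (b (a (a (b (l 6) (l 16541600)) (b (l 16541600) (l 16495808))) (b (a (l 16493672) (l 16444008)) (a (l 16448712) (l 16399840)))) (a (a (b (l 16493672) (l 16444008)) (b (l 16448712) (l 16399840))) (a (b (l 16402456) (l 16354448)) (b (l 16354448) (l 16307408))))))) (b (a (b (a (b (a (l 6) (b (l 6) (l 16508272))) (a (b (l 16526088) (l 16500424))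 (b (l 16482608) (l 16457008)))) (b (a (b (l 16490896) (l 16464728)) (l 16393136)) (a (l 16426160) (l 16382480)))) (a (b (a (l 16420328) (l 16418832)) (a (l 16413032) (l 16369312))) (b (a (l 16375008) (l 16330784)) (a (l 16324848) (l 16279712))))) (b (a (b (a (l 16392280) (l 16348864)) (a (l 16338976) (l 16295616))) (a (b (l 16304344) (l 16251848)) (b (l 16258392) (l 16207104)))) (a (b (a (l 16286240) (l 16241560)) (a (l 16234120) (l 16188384))) (b (a (l 16176328) (l 2)) (l 2))))) (a (b (a (b (a (l 16366736) (l 16322448)) (b (a (b (l 16334968) (l 16304368)) (l 16199272)) (a (l 16245976) (l 16219008)))) (b (a (l 16276944) (l 16230424)) (b (a (l 16241384) (l 16195688)) (a (l 16190344) (l 2))))) (a (b (a (b (l 16157960) (l 16057520)) (b (l 16133424) (l 16035480))) (a (b (l 15942168) (l 15819936)) (b (l 15922736) (l 2)))) (b (a (b (l 16107848) (l 2)) (l 2)) (l 2)))) (b (a (b (a (l 16183224) (l 2)) (l 2)) (l 2)) (l 2))))), by decide +kernel⟩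

def k1_pm_112 : ∃ t, chk3 f_pm_112 t 3 1 1 = true :=
  ⟨(b (a (b (a (b (a (b (l 6) (a (l 6) (l 16508272))) (b (a (l 16526088) (l 16500424)) (a (l 16482608) (l 16457008)))) (a (b (a (l 16490896) (l 16464728)) (l 16393136)) (b (l 16426160) (l 16382480)))) (b (a (b (l 16420328) (l 16418832)) (b (l 16413032) (l 16369312))) (a (b (l 16375008) (l 16330784)) (b (l 16324848) (l 16279712))))) (a (b (a (b (l 16392280) (l 16348864)) (b (l 16338976) (l 16295616))) (b (a (l 16304344) (l 16251848)) (a (l 16258392) (l 16207104)))) (b (a (b (l 16286240) (l 16241560)) (b (l 16234120) (l 16188384))) (a (b (l 16176328) (l 2)) (l 2))))) (b (a (b (a (b (l 16366736) (l 16322448)) (a (b (a (l 16334968) (l 16304368)) (l 16199272)) (b (l 16245976) (l 16219008)))) (a (b (l 16276944) (l 16230424)) (a (b (l 16241384) (l 16195688)) (b (l 16190344) (l 2))))) (b (a (b (a (l 16157960) (l 16057520)) (a (l 16133424) (l 16035480))) (b (a (l 15942168) (l 15819936)) (a (l 15922736) (l 2)))) (a (b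 (a (l 16107848) (l 2)) (l 2)) (l 2)))) (a (b (a (b (l 16183224) (l 2)) (l 2)) (l 2)) (l 2)))) (a (b (b (a (a (l 42511941559) (l 2)) (l 2)) (l 2)) (l 2)) (l 2))), by decide +kernel⟩

theorem s2_pm_112 : ∃ t, chk3 f_pm_112 t 1 1 1 = true := ex3_a k0_pm_112 k1_pm_112

theorem c_pm_112 : CertB 536870912 536870912 536870912 536870912 991146299 28908434 3 eng mog cd0q1 cd0q1 pd2 true true false .dn 1 1 2
    ndB0q1 ndB0q1 pcB2 cut_pm_112 Ext.none :=
  certB0 (fam := true) (s1 := true) (s2 := false) (a := 1) (b := 1) (c := 2) (cn := .dn) (n1 := ndB0q1) (n2 := ndB0q1) (pc := pcB2) (cut := cut_pm_112) (xt := Ext.none) (P1 := 536870912) (W1 := 536870912) (P2 := 536870912) (W2 := 536870912) (P3 := 991146299) (W3 := 28908434) (N0 := 3) (En := eng) (mo := mog) (C1 := cd0q1) (C2 := cd0q1) (C3 := pd2)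
    rfl s2_pm_112

end Pool.Agent.Strip051.G.I9231_9500.Tab.C.BA00

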