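import Pool.Agent.Strip051.G.I9231_9500.Tab

/-! # Certificates B5 (generated) -/

set_option linter.all false
set_option maxRecDepth 100000

namespace Pool.Agent.Strip051.G.I9231_9500.Tab.C.BA00

open Pool.Agent.Strip051.PB Pool.Agent.Strip051.PB.T
open Pool.Agent.Strip051.G.I9231_9500.Tab

noncomputable def cut_pm_202 : Cut := Cut.of [[⟨3, 0, 0, 1449551462⟩], [⟨4, 0, 0, 2845415833⟩], [⟨0, 1, 0, 53687091⟩, ⟨1, 0, 0, 53687091⟩, ⟨2, 1, 0, 53687091⟩]]

noncomputable def f_pm_202 : ℕ → ℕ → ℕ → ℕ → Bool := onCell 0 536870912 1073741824 536870912 991146299 28908434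
    (rowB 3 eng mog cd0q2 cd0q0 pd2 1 true true false .pp 2 0 2 (qsf 0 536870912 0 536870912 2) ndB0q2 ndB0q0 pcB2 cut_pm_202 Ext.none)

def k0_pm_202 : ∃ t, chk3 f_pm_202 t 1 4 1 = true :=
  ⟨(a (b (l 1) (a (l 1) (b (l 1) (a (l 1) (a (l 1) (b (l 1) (b (l 1) (l 16207280)))))))) (a (b (l 1) (b (a (l 1) (a (a (b (l 1) (c (l 16315000) (l 16227832))) (l 6)) (l 6))) (a (b (a (c (l 16218312) (l 16128888)) (c (b (l 16266472) (l 16298160)) (b (l 16202824) (l 16240872)))) (a (c (l 16265920) (l 16211616)) (c (l 16325736) (l 16299024)))) (b (b (a (c (l 16364016) (l 16308600)) (l 6)) (a (c (l 16393592) (l 16343880)) (a (l 16367184) (l 6)))) (a (c (l 16355088) (l 16334944)) (a (b (l 16419232) (l 16471816)) (b (l 6) (l 16528200)))))))) (l 6))), by decide +kernel⟩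

def k1_pm_202 : ∃ t, chk3 f_pm_202 t 2 5 1 = true :=
  ⟨(b (a (b (b (l 1) (a (c (l 16152112) (l 16117304)) (c (l 16179488) (l 16141888)))) (a (c (l 16204360) (l 16184160)) (b (c (l 16275608) (l 16259312)) (l 16291304)))) (b (b (a (c (l 16190096) (l 16092072)) (c (a (l 16214424) (l 16270560)) (a (l 16164280) (l 16225352)))) (a (c (l 16234688) (l 16197520)) (c (l 16258440) (l 16226880)))) (a (b (c (l 16322824) (l 16304432)) (l 16287096)) (b (c (l 16318472) (l 16303112)) (a (l 16440248) (l 16505600)))))) (a (b (a (c (l 16343400) (l 16212832)) (b (l 16378904) (l 16277664))) (b (a (l 16096864) (l 16171800)) (a (c (l 16248608) (l 16147432)) (c (l 16279704) (l 16196568))))) (b (a (c (l 16304960) (b (l 16491352) (l 16400968))) (c (b (l 16498968) (l 16432248)) (b (l 16483864) (l 16402184)))) (a (b (c (l 16367304) (l 16315464)) (c (l 16303536) (l 16235488))) (c (l 16258224) (l 16144088)))))), by decide +kernel⟩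

def k2_pm_202 : ∃ t, chk3 f_pm_202 t 6 5 1 = true :=
  ⟨(a (b (b (b (c (a (l 16336656) (l 16413352)) (a (l 16296536) (l 16378512))) (a (l 16291704) (a (l 16388472) (l 16407312)))) (b (a (l 16394120) (l 16462568)) (b (l 16458848) (l 16423360)))) (b (b (a (l 16468360) (l 16402272)) (c (l 16406944) (l 16380024))) (c (a (l 16333480) (l 16318736)) (a (l 16287592) (l 16276464))))) (a (b (b (c (b (l 16446672) (l 16565072)) (c (l 16326928) (l 16314672))) (b (l 16431584) (l 16388152))) (b (c (l 16330080) (l 16310864)) (c (l 16295200) (l 16256768)))) (b (b (b (b (l 16447600) (l 16491304)) (c (l 16455272) (l 16490624))) (b (b (l 16456440) (l 16447032)) (c (l 16427056) (l 16422688)))) (b (c (b (l 16375912) (l 16327968)) (b (l 16362664) (l 16306176))) (c (b (l 16282968) (l 16241064)) (b (l 16252904) (l 16203000))))))), by decide +kernel⟩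

def k3_pm_202 : ∃ t, chk3 f_pm_202 t 7 5 1 = true :=
  ⟨(b (a (a (a (b (b (c (l 16483576) (l 16525128)) (c (l 16488400) (l 16500240))) (c (b (l 16434728) (l 16383808)) (b (l 16438248) (l 16379264)))) (b (b (l 6) (b (c (l 16465296) (l 16477448)) (b (l 16449624) (b (l 16418232) (a (l 16440936) (a (l 16426256) (a (l 16418688) (c (l 16391968) (l 16419248))))))))) (b (c (l 16399640) (l 16402296)) (c (l 16350600) (l 16345920))))) (b (b (l 6) (b (l 6) (b (l 6) (b (l 6) (b (l 6) (l 16395528)))))) (a (b (l 16375368) (b (l 16314608) (l 16289136))) (b (l 16358072) (l 16307816))))) (b (l 6) (a (a (b (l 6) (c (l 16290944) (l 16285416))) (l 6)) (l 6)))) (a (b (a (c (b (a (l 16335856) (l 16304928)) (c (l 16281656) (l 16272184))) (b (l 16224848) (l 16236776))) (a (c (b (l 16258496) (l 16216096)) (b (l 16268096) (l 16198520))) (c (l 16224432) (l 16231384)))) (a (c (b (l 16236208) (l 16198032)) (b (l 16210080) (l 16165088))) (c (a (a (c (l 16168976) (l 16155744)) (l 16175808)) (l 16147368)) (a (b (l 16153032)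 (l 16110496)) (l 16142960))))) (a (b (b (a (l 16227432) (c (l 16225656) (l 16214288))) (a (c (l 16209080) (l 16192584)) (c (l 16187632) (l 16171176)))) (a (c (l 16133520) (l 16129976)) (c (b (l 16152048) (l 16118848)) (l 16106072)))) (b (b (a (c (l 16200328) (l 16188568)) (l 6)) (c (a (l 16163960) (l 16140424)) (a (l 16147448) (l 16123928)))) (c (a (b (l 16129952) (l 16098256)) (b (l 16108048) (l 16077880))) (a (b (l 16108696) (l 16072216)) (b (l 16087072) (l 16052376)))))))), by decide +kernel⟩

def k4_pm_202 : ∃ t, chk3 f_pm_202 t 2 6 1 = true :=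
  ⟨(b (a (b (a (c (b (l 16177136) (l 16109344)) (b (l 16055680) (l 15968384))) (c (l 16014608) (b (l 16112928) (l 16033104)))) (a (c (b (l 16045544) (l 15985864)) (b (l 15885928) (a (l 15788096) (l 15828712)))) (c (b (l 16092824) (l 16037920)) (b (l 15957872) (l 15887136))))) (b (a (c (l 16130288) (b (l 16159288) (l 16087264))) (c (l 16107400) (b (l 16187808) (l 16123928)))) (a (c (b (l 16132720) (l 16082920)) (b (l 16019568) (l 15955952))) (c (b (l 16160128) (l 16115648)) (b (l 16063856) (l 16007592)))))) (a (b (b (a (c (a (l 15915320) (l 15944728)) (a (l 15713752) (l 15757496))) (c (l 15986672) (l 15820744))) (a (c (a (l 15862152) (l 15893656)) (a (l 15643960) (l 15690640))) (c (l 15938832) (a (l 15736256) (l 15780104))))) (b (a (c (a (l 15812728) (l 15846200)) (a (b (l 15594568) (l 15563080)) (l 15628136))) (c (a (l 15878760) (l 15909848)) (a (l 15676552) (l 15723256)))) (a (c (a (a (l 15737160) (l 15754936)) (l 15802336)) (a (b (l 15532720) (l 15503488)) (l 15569968))) (c (a (l 15836784)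 (l 15869800)) (a (l 15621000) (l 15670360)))))) (a (a (b (c (l 16002368) (l 15849544)) (c (l 15919800) (b (l 15767112) (l 15716944)))) (b (c (l 16025960) (l 15885088)) (c (l 15947736) (l 15783184)))) (b (c (a (l 16046232) (l 16061968)) (a (l 15916048) (l 15941920))) (c (a (l 15972480) (l 15992864)) (a (l 15820240) (l 15852336))))))), by decide +kernel⟩

def k5_pm_202 : ∃ t, chk3 f_pm_202 t 4 14 1 = true :=
  ⟨(b (b (a (c (a (b (l 15714200) (l 15683640)) (l 15762064)) (a (b (c (l 15541816) (l 15407984)) (a (l 15413640) (l 15462184))) (b (l 15529152) (l 15503312)))) (c (a (l 15798264) (l 15833088)) (a (l 15569568) (l 15621408)))) (a (c (a (b (a (l 15644392) (l 15705552)) (a (l 15625984) (l 15687520))) (b (l 15734176) (l 15695736))) (a (b (c (l 15492456) (l 15351648)) (a (c (l 15456216) (l 15309760)) (l 15391152))) (b (l 15478544) (l 15454848)))) (c (a (l 15742208) (l 15799672)) (a (l 15522248) (l 15576360))))) (a (c (a (b (a (b (c (l 15720384) (l 15579392)) (c (l 15705296) (l 15561320))) (b (l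 15649416) (l 15612216))) (a (b (c (l 15691064) (l 15544216)) (c (l 15677680) (b (l 15532016) (l 15524184)))) (b (l 15596880) (c (l 15696280) (l 15551320))))) (b (a (l 15661248) (l 15681128)) (a (c (l 15721144) (l 15582136)) (l 15630792)))) (a (b (a (b (c (l 15433984) (l 15284280)) (c (l 15412856) (l 15260008))) (b (l 15367792) (c (l 15440056) (l 15291968)))) (a (c (b (a (l 15385896) (l 15399712)) (b (l 15378480) (l 15337824))) (b (a (l 15228848) (l 15245064)) (c (l 15255224) (l 15174752)))) (c (b (l 15420416) (l 15401848)) (b (l 15269384) (l 15247984))))) (b (a (c (l 15477200) (l 15335360)) (l 15414912)) (a (c (l 15438760) (l 15291136)) (c (l 15466344) (l 15323568)))))) (c (a (b (l 15710520) (l 15682168)) (b (l 15769512) (l 15721576))) (a (b (c (l 15543608) (l 15413552)) (c (l 15507296) (l 15371760))) (b (l 15535256) (l 15498112)))))), by decide +kernel⟩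

def k6_pm_202 : ∃ t, chk3 f_pm_202 t 64 30 2 = true :=
  ⟨(b (b (a (b (b (l 15544832) (a (a (c (l 15659184) (l 15463352)) (l 15561712)) (l 15563696))) (c (a (b (l 15659008) (l 15661168)) (l 15596992)) (a (b (a (l 15506648) (l 15461216)) (l 15507336)) (b (l 15503696) (a (l 15459152) (l 15500824)))))) (c (l 15662776) (l 15509952))) (a (b (b (a (c (l 15664248) (l 15510744)) (a (l 15532208) (c (l 15654000) (b (l 15498888) (l 15498784))))) (c (l 15662800) (l 15509008))) (c (l 15667736) (l 15514496))) (b (b (c (l 15655408) (l 15501008)) (a (c (l 15652608) (a (b (l 15496928) (l 15496952)) (l 15496792))) (l 15555912))) (a (b (c (l 15652664) (a (l 15499416) (b (l 15495040) (l 15495200)))) (c (l 15655440) (l 15500456))) (b (c (l 15650952) (l 15495624)) (c (l 15649544) (a (b (l 15493232) (l 15493536)) (l 15493040)))))))) (c (b (a (l 15678272) (b (c (l 15693808) (l 15617488)) (l 15663112))) (l 15663176)) (b (b (a (l 15522200) (b (a (l 15504264) (a (l 15496272) (l 15450016))) (l 15502832))) (l 15519632))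 (c (l 15570936) (l 15494000))))), by decide +kernel⟩

def k7_pm_202 : ∃ t, chk3 f_pm_202 t 65 30 2 = true :=
  ⟨(b (b (c (l 15669856) (l 15518792)) (c (l 15658216) (l 15504648))) (a (b (b (b (c (l 15649144) (l 15493520)) (a (c (l 15646744) (a (l 15448424) (l 15489576))) (l 15549152))) (a (b (c (l 15647424) (a (l 15493440) (l 15467888))) (c (l 15650792) (l 15494832))) (b (c (l 15645176) (l 15488696)) (c (l 15644200) (a (l 15466456) (l 15486400)))))) (c (b (b (l 15649688) (l 15653624)) (l 15659560)) (b (b (a (l 15499024) (a (l 15490920) (l 15486080))) (l 15497904)) (l 15504536)))) (b (c (l 15649824) (l 15494480)) (b (b (c (l 15643864) (l 15487152)) (a (c (l 15641920) (a (l 15484816) (l 15483512))) (l 15543416))) (a (b (c (l 15643296) (l 15444120)) (l 15522256)) (b (c (l 15640384) (l 15482888)) (c (l 15639896) (a (l 15482536) (l 15480912))))))))), by decide +kernel⟩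

def k8_pm_202 : ∃ t, chk3 f_pm_202 t 33 30 2 = true :=
  ⟨(b (b (c (l 15684000) (l 15536456)) (c (l 15672552) (l 15522536))) (b (c (l 15661920) (l 15509560)) (c (l 15652104) (a (l 15491424) (l 15503600))))), by decide +kernel⟩

def k9_pm_202 : ∃ t, chk3 f_pm_202 t 32 60 3 = true :=
  ⟨(a (b (a (b (c (b (l 15351960) (a (a (b (l 15346648) (a (l 15346888) (l 15345088))) (l 15346640)) (l 15349296))) (b (l 15189664) (a (a (b (a (l 15183120) (l 15183224)) (a (l 15183656) (l 15181664))) (l 15183504)) (l 15186624)))) (a (c (a (l 15349920) (b (b (l 15344104) (a (l 15344592) (l 15342616))) (l 15345848))) (b (a (l 15184944) (b (a (l 15180240) (l 15180240)) (a (l 15181024) (l 15178840)))) (l 15185648))) (c (a (b (l 15344056) (b (l 15320672) (a (l 15342360) (l 15340240)))) (l 15343720)) (b (l 15181608) (a (b (a (l 15177464) (l 15177376)) (a (l 15178464) (l 15176120))) (l 15177728)))))) (c (l 15331464) (b (l 15195392) (l 15185360)))) (a (b (b (c (a (l 15352544) (a (l 15343696) (b (l 15318296) (a (l 15340208)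 (l 15337952))))) (a (l 15189760) (a (l 15179896) (b (a (l 15174792) (l 15174608)) (a (l 15176008) (l 15173496)))))) (c (l 15350512) (l 15187424))) (c (l 15356568) (c (l 15235120) (l 15152744)))) (b (c (a (b (l 15340088) (a (b (l 15305520) (l 15305480)) (l 15336880))) (l 15341504)) (a (b (l 15176040) (a (b (a (l 15172224) (l 15171936)) (a (l 15173648) (l 15170984))) (l 15172344))) (l 15177736))) (a (c (b (a (l 15339648) (b (a (l 15334696) (l 15334304)) (l 15313920))) (l 15340744)) (b (a (l 15175256) (b (a (l 15169768) (l 15169360)) (a (l 15171392) (l 15168576)))) (l 15176416))) (b (c (l 15335552) (l 15170840)) (c (a (b (a (l 15332648) (l 15332136)) (l 15332936)) (l 15332504)) (a (b (a (l 15167416) (l 15166880)) (a (l 15169232) (l 15166280))) (l 15167320)))))))) (c (b (l 15363072) (b (l 15350448) (l 15342368))) (b (l 15202824) (b (l 15188224) (l 15178872))))), by decide +kernel⟩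

def k10_pm_202 : ∃ t, chk3 f_pm_202 t 64 61 3 = true :=
  ⟨(b (a (c (c (l 15409160) (l 15329680)) (c (l 15249080) (l 15167360))) (b (b (a (c (l 15344952) (l 15181032)) (a (c (l 15335960) (l 15171024)) (c (b (a (l 15330696) (l 15330056)) (l 15331088)) (b (a (l 15165176) (l 15164496)) (l 15176056))))) (c (l 15343272) (l 15179096))) (c (l 15349984) (l 15196968)))) (c (c (l 15415928) (l 15336712)) (c (b (l 15251072) (l 15261808)) (b (l 15169376) (l 15180632))))), by decide +kernel⟩

def k11_pm_202 : ∃ t, chk3 f_pm_202 t 65 61 3 = true :=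
  ⟨(b (a (b (b (c (l 15333136) (l 15168120)) (a (c (a (b (a (l 15328848) (l 15328056)) (l 15329328)) (l 15328448)) (a (b (a (l 15163048) (l 15162200)) (l 15163552)) (l 15162672))) (c (l 15330840) (l 15165488)))) (a (b (c (a (l 15332632) (b (a (l 15327096) (l 15326152)) (l 15327680))) (a (l 15167184) (b (a (l 15161032) (l 15160008)) (l 15161648)))) (c (l 15334128) (l 15168784))) (b (c (l 15327440) (l 15172016)) (c (a (b (a (l 15325456) (l 15324328)) (l 15326120)) (l 15324720)) (a (b (a (l 15159144) (l 15157912)) (l 15159856)) (l 15168872)))))) (c (l 15313416) (b (l 15174064) (l 15165344)))) (a (b (b (c (a (l 15338768) (a (l 15329656) (b (a (l 15323920) (l 15322600)) (l 15324672)))) (a (l 15173896) (a (l 15163744) (b (a (l 15157368) (l 15155920)) (l 15158176))))) (c (l 15337440) (l 15172352))) (c (l 15344800) (l 15180472))) (b (c (b (l 15294216) (a (a (b (l 15290424) (l 15323336)) (l 15321320)) (l 15323464))) (a (b (b (l 15157904) (l 15177360)) (a (b (a (l 15155720) (l 15154024)) (l 15156616))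 (b (l 15154816) (l 15153504)))) (l 15159064))) (a (c (b (a (l 15327032) (b (l 15299440) (l 15322096))) (l 15328920)) (a (l 15163416) (b (c (l 15196512) (l 15138088)) (l 15159320)))) (b (c (l 15289152) (c (l 15195832) (l 15111208))) (c (a (b (l 15319032) (l 15320960)) (l 15297280)) (a (c (l 15195056) (l 15110304)) (b (l 15151048) (l 15150040))))))))), by decide +kernel⟩

def k12_pm_202 : ∃ t, chk3 f_pm_202 t 33 30 3 = true :=
  ⟨(b (c (b (l 15384344) (l 15367904)) (b (l 15227784) (l 15208768))) (c (b (a (l 15345272) (l 15359768)) (a (l 15299424) (l 15345528))) (b (a (l 15182432) (l 15199432)) (c (l 15215704) (l 15132616))))), by decide +kernel⟩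

def k13_pm_202 : ∃ t, chk3 f_pm_202 t 17 30 1 = true :=
  ⟨(c (b (a (b (l 15589992) (l 15577592)) (l 15604840)) (a (b (l 15566048) (l 15550120)) (c (l 15695584) (l 15551712)))) (b (a (c (l 15404480) (l 15251560)) (c (l 15432816) (l 15284840))) (b (c (l 15395928) (l 15262832)) (a (c (l 15367464) (l 15208608)) (l 15341208))))), by decide +kernel⟩

def k14_pm_202 : ∃ t, chk3 f_pm_202 t 32 31 1 = true :=
  ⟨(c (b (b (a (c (l 15700920) (c (l 15589232) (l 15513336))) (b (a (c (l 15667784) (l 15513760)) (c (l 15627376) (c (l 15531256) (l 15451688)))) (c (l 15666720) (l 15512408)))) (c (c (l 15736440) (l 15662640)) (c (l 15587664) (l 15511544)))) (c (b (a (l 15738744) (l 15699496)) (l 15739896)) (b (c (l 15608928) (l 15534064)) (c (l 15631712) (l 15558208))))) (c (b (b (b (a (l 15391952) (a (l 15355056) (a (l 15336576) (a (l 15327328) (c (l 15362216) (l 15258824)))))) (c (l 15417624) (l 15338368))) (c (a (l 15458536) (l 15410072)) (a (l 15381592) (l 15330296)))) (b (c (l 15458088) (l 15360040)) (c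 (l 15483608) (l 15407944)))) (b (b (a (c (l 15278920) (l 15198592)) (b (a (l 15191784) (a (l 15171192) (b (c (l 15196776) (l 15133064)) (l 15160312)))) (c (l 15231144) (l 15148232)))) (c (a (l 15303552) (l 15249400)) (a (l 15224448) (l 15167400)))) (b (c (a (l 15330208) (l 15275528)) (a (l 15252448) (l 15194840))) (c (l 15331216) (l 15253440)))))), by decide +kernel⟩

def k15_pm_202 : ∃ t, chk3 f_pm_202 t 33 31 2 = true :=
  ⟨(b (a (b (a (b (a (b (c (l 15638352) (l 15480416)) (c (l 15638144) (a (l 15480592) (l 15478608)))) (l 15518928)) (a (c (l 15642456) (l 15463784)) (b (c (l 15636568) (l 15478216)) (c (l 15636656) (a (l 15479008) (l 15476608)))))) (c (l 15640632) (l 15483328))) (a (b (c (l 15646304) (l 15468032)) (c (l 15655616) (l 15499472))) (b (a (b (c (l 15635032) (l 15476312)) (c (l 15635432) (a (l 15477784) (l 15474904)))) (l 15536024)) (c (a (l 15640888) (b (l 15633744) (l 15634488))) (a (l 15482688) (b (l 15474688) (l 15443928))))))) (b (c (l 15648032) (l 15492552)) (c (l 15639888)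 (l 15482432)))) (b (b (a (c (l 15655224) (l 15498896)) (a (a (b (c (l 15632704) (l 15473352)) (c (l 15633824) (l 15474488))) (l 15533176)) (l 15558296))) (a (c (l 15665072) (l 15509992)) (a (a (l 15509288) (c (l 15591248) (b (l 15472312) (l 15473920)))) (l 15512664)))) (a (c (l 15680432) (l 15527312)) (a (c (l 15650600) (l 15493312)) (b (a (c (l 15632856) (b (l 15471568) (l 15473688))) (l 15510512)) (a (l 15541120) (c (l 15632776) (b (l 15471128) (l 15473800))))))))), by decide +kernel⟩

def k16_pm_202 : ∃ t, chk3 f_pm_202 t 33 62 3 = true :=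
  ⟨(a (b (a (b (c (a (b (a (l 15295872) (l 15317816)) (a (l 15296728) (l 15294552))) (l 15318936)) (a (c (b (l 15192552) (a (l 15192448) (l 15190128))) (b (l 15107696) (a (l 15107504) (l 15105088)))) (l 15151784))) (a (c (c (l 15363344) (l 15280928)) (c (l 15197360) (l 15112640))) (b (c (a (l 15293312) (l 15315032)) (c (l 15189632) (l 15104560))) (c (a (l 15315776) (l 15292152)) (a (l 15147872) (b (l 15144792) (l 15144312))))))) (c (l 15321256) (l 15154520))) (a (c (b (b (l 15292704) (l 15329968)) (l 15338600)) (b (c (l 15202320) (l 15117824)) (l 15173128))) (b (c (a (b (a (l 15291088) (l 15312552)) (a (l 15314272) (l 15290104))) (l 15313832)) (a (b (c (l 15187056) (l 15101800)) (a (l 15146080) (b (l 15142216) (l 15142080)))) (l 15145856))) (a (c (l 15319704) (l 15152064)) (c (a (b (l 15310184) (l 15313192)) (b (l 15310360) (l 15309384))) (b (c (l 15184848) (l 15120384)) (a (l 15144776) (b (l 15140016) (l 15140288))))))))) (c (b (l 15332336) (l 15320200)) (b (l 15167512) (l 15153320)))), by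 decide +kernel⟩

def k17_pm_202 : ∃ t, chk3 f_pm_202 t 33 63 3 = true :=
  ⟨(a (b (c (c (l 15384464) (l 15303096)) (b (c (l 15214016) (l 15130048)) (l 15185888))) (c (l 15338120) (c (l 15248312) (l 15166088)))) (b (a (b (c (a (b (a (l 15308672) (l 15308488)) (a (l 15312504) (l 15308056))) (l 15310000)) (a (b (c (l 15182992) (l 15118384)) (a (l 15143912) (l 15159944))) (l 15141344))) (a (c (l 15318520) (l 15150544)) (a (b (c (l 15307528) (l 15138336)) (l 15228312)) (b (l 15217784) (c (l 15307104) (l 15137808)))))) (c (l 15313072) (l 15144928))) (a (c (l 15331280) (l 15164632)) (b (c (a (b (a (l 15306768) (l 15305896)) (l 15309200)) (l 15307560)) (a (b (a (l 15137384) (l 15136480)) (a (l 15143192) (l 15137072))) (l 15138416))) (a (c (l 15318632) (l 15150480)) (b (c (l 15306320) (a (l 15136880) (l 15135464))) (c (l 15309224) (l 15139968)))))))), by decide +kernel⟩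

def k18_pm_202 : ∃ t, chk3 f_pm_202 t 17 31 1 = true :=
  ⟨(a (c (c (b (l 15658728) (b (l 15647592) (l 15641680))) (b (b (l 15510968) (l 15501016)) (b (l 15491976) (l 15463456)))) (b (c (b (l 15354480) (l 15342536)) (b (l 15193464) (l 15179488))) (c (b (l 15331616) (a (l 15293856) (l 15329272))) (b (l 15166672) (b (l 15157808) (l 15173952)))))) (c (b (c (l 15678408) (l 15530464)) (c (l 15664336) (l 15512776))) (b (c (l 15377952) (l 15221008)) (c (l 15356584) (l 15195888))))), by decide +kernel⟩

def k19_pm_202 : ∃ t, chk3 f_pm_202 t 9 15 1 = true :=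
  ⟨(c (b (a (b (a (l 15625776) (l 15688384)) (a (l 15603744) (l 15666888))) (b (l 15697776) (l 15656152))) (a (b (b (l 15600176) (l 15591728)) (b (l 15584088) (l 15577248))) (b (c (l 15745480) (l 15614544)) (c (l 15732696) (l 15598368))))) (b (a (b (b (l 15392464) (l 15376056)) (a (l 15337872) (l 15368896))) (b (l 15464920) (l 15435664))) (a (b (b (l 15333064) (l 15326040)) (c (l 15401272) (l 15248320))) (b (l 15389376) (l 15367968))))), by decide +kernel⟩

def k20_pm_202 : ∃ t, chk3 f_pm_202 t 5 7 1 = true :=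
  ⟨(b (a (b (c (a (b (l 15866200) (l 15834512)) (l 15881848)) (a (b (l 15670520) (l 15627816)) (l 15695536))) (c (a (a (l 15762800) (l 15780912)) (l 15827944)) (a (b (l 15588872) (l 15553688)) (l 15643088)))) (b (c (a (l 15910552) (l 15935008)) (a (l 15737944) (l 15775592))) (c (a (l 15860040) (l 15867048)) (a (l 15669160) (l 15711584))))) (a (c (b (a (a (l 15717128) (l 15736568)) (l 15764664)) (a (b (l 15721864) (l 15708256)) (l 15733736))) (b (a (a (l 15493808) (l 15522104)) (l 15583904)) (a (a (l 15424184) (l 15453872)) (b (l 15527664) (l 15508592))))) (b (c (a (l 15799584) (l 15830496)) (a (l 15613808) (l 15660232))) (c (b (l 15793736) (l 15782488)) (a (l 15571696) (l 15600320)))))), by decide +kernel⟩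

def k21_pm_202 : ∃ t, chk3 f_pm_202 t 6 3 1 = true :=
  ⟨(b (b (a (b (c (a (l 16234216) (l 16225992)) (a (l 16165512) (l 16163288))) (c (a (l 16147448) (l 16145280)) (a (l 16057480) (l 16063448)))) (b (c (a (l 16209648) (b (l 16201784) (l 16165088))) (a (l 16153240) (b (l 16155888) (l 16111512)))) (c (a (l 16134912) (a (l 16121008) (l 16087464))) (a (l 16061400) (c (l 16066680) (l 16033344)))))) (a (b (c (a (l 16072000) (l 16075304)) (a (l 15962016) (l 15975288))) (c (a (l 16007680) (l 15994976)) (a (l 15878832) (l 15898656)))) (b (c (a (l 16070648) (l 16035648)) (a (l 15980688) (l 15977064))) (c (a (l 15995408) (l 15986680)) (a (l 15910840) (l 15893144)))))) (b (a (a (c (b (l 15954088) (l 15910712)) (b (l 15807744) (l 15748712))) (b (c (l 15966704) (l 15833440)) (c (l 15927096) (l 15779496)))) (a (b (c (l 16013568) (l 15830656)) (c (l 15935856) (l 15781912))) (b (c (b (l 15976536) (l 15958560)) (l 15840104)) (b (l 15880752) (l 15858896))))) (a (c (b (a (b (l 15884544) (l 15870208)) (b (l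 15903328) (l 15890400))) (a (b (l 15858224) (l 15848512)) (b (l 15879616) (l 15870896)))) (b (a (l 15701504) (l 15715536)) (a (l 15644920) (l 15683448)))) (a (b (c (l 15908672) (l 15743272)) (c (b (l 15893384) (l 15885584)) (b (l 15741696) (l 15729952)))) (b (b (l 15833912) (l 15821456)) (c (l 15894360) (b (l 15763576) (l 15753424)))))))), by decide +kernel⟩

def k22_pm_202 : ∃ t, chk3 f_pm_202 t 7 6 1 = true :=
  ⟨(a (b (b (a (c (b (l 16141400) (l 16108208)) (b (l 16122704) (l 16061888))) (a (c (b (a (l 16131416) (l 16122688)) (a (l 16100088) (l 16090568))) (b (l 16070800) (a (l 16058056) (l 16049832)))) (c (l 16143056) (l 16043608)))) (a (c (c (l 16076744) (l 16049352)) (b (l 16024512) (l 15989536))) (c (a (b (a (l 16071488) (l 16061456)) (l 16041144)) (l 16043432)) (a (c (l 15996096) (l 15970472)) (l 15995808))))) (b (a (c (b (l 16043904) (l 16020000)) (a (l 15946568) (l 15936216))) (c (a (b (l 16017056) (l 15994944)) (l 15994576)) (a (b (l 15958272) (l 15930512)) (l 15936272)))) (b (a (c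 (l 15998208) (l 15919744)) (a (c (l 15974648) (l 15904688)) (c (l 15962736) (l 15896848)))) (a (c (l 15978464) (l 15894112)) (c (a (l 15956384) (l 15943936)) (a (l 15881080) (l 15873216))))))) (b (a (b (a (c (b (l 16105040) (l 16075136)) (l 16033808)) (c (b (l 16087976) (l 16059352)) (l 16018424))) (a (c (l 16055576) (l 16009848)) (b (l 16054144) (l 15985328)))) (b (c (a (b (l 16068800) (l 16041480)) (b (l 16049864) (l 16023856))) (a (l 16000776) (b (l 16019736) (l 15989128)))) (c (b (l 16028792) (l 15984968)) (b (l 15967944) (l 15940600))))) (a (b (c (a (l 15987664) (l 15975512)) (a (l 15931784) (l 15921720))) (a (c (l 15948376) (l 15883152)) (c (l 15937680) (l 15875064)))) (b (c (b (l 15963872) (l 15944456)) (b (l 15915176) (l 15891584))) (c (b (l 15926624) (l 15910312)) (b (l 15869736) (l 15849536))))))), by decide +kernel⟩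

def k23_pm_202 : ∃ t, chk3 f_pm_202 t 7 7 1 = true :=
  ⟨(a (a (b (b (c (b (l 15960704) (l 15944856)) (b (l 15870704) (l 15849480))) (c (b (l 15930896) (l 15918656)) (b (l 15830336) (l 15813344)))) (b (c (l 15966456) (l 15854864)) (c (l 15888256) (b (l 15774944) (l 15766288))))) (a (b (b (c (l 16038016) (l 15892312)) (c (l 15907976) (l 15816048))) (b (b (l 15844952) (l 15835192)) (c (l 15874616) (l 15770608)))) (b (a (b (c (b (l 15928840) (l 15914904)) (l 15864608)) (c (l 15897648) (l 15811144))) (b (l 15966248) (l 15852240))) (b (c (l 15876336) (l 15784944)) (c (l 15862640) (l 15767792)))))) (b (a (b (c (a (l 15916160) (l 15906424)) (a (l 15842352) (l 15835752))) (c (a (l 15890136) (l 15880704)) (l 15890176))) (b (c (b (l 15895328) (l 15881560)) (l 15927512)) (c (l 15863008) (l 15792056)))) (a (b (a (l 15868944) (l 15840608)) (c (l 15847416) (l 15762032))) (b (c (l 15841048) (l 15767584)) (c (l 15822024) (l 15748536)))))), by decide +kernel⟩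

theorem s24_pm_202 : ∃ t, chk3 f_pm_202 t 7 3 1 = true := ex3_b k22_pm_202 k23_pm_202

theorem s25_pm_202 : ∃ t, chk3 f_pm_202 t 3 3 1 = true := ex3_a k21_pm_202 s24_pm_202

theorem s26_pm_202 : ∃ t, chk3 f_pm_202 t 33 31 3 = true := ex3_b k16_pm_202 k17_pm_202

theorem s27_pm_202 : ∃ t, chk3 f_pm_202 t 33 31 1 = true := ex3_c k15_pm_202 s26_pm_202

theorem s28_pm_202 : ∃ t, chk3 f_pm_202 t 16 31 1 = true := ex3_a k14_pm_202 s27_pm_202

theorem s29_pm_202 : ∃ t, chk3 f_pm_202 t 8 31 1 = true := ex3_a s28_pm_202 k18_pm_202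

theorem s30_pm_202 : ∃ t, chk3 f_pm_202 t 32 61 3 = true := ex3_a k10_pm_202 k11_pm_202

theorem s31_pm_202 : ∃ t, chk3 f_pm_202 t 32 30 3 = true := ex3_b k9_pm_202 s30_pm_202

theorem s32_pm_202 : ∃ t, chk3 f_pm_202 t 16 30 3 = true := ex3_a s31_pm_202 k12_pm_202

theorem s33_pm_202 : ∃ t, chk3 f_pm_202 t 32 30 2 = true := ex3_a k6_pm_202 k7_pm_202

theorem s34_pm_202 : ∃ t, chk3 f_pm_202 t 16 30 2 = true := ex3_a s33_pm_202 k8_pm_202

theorem s35_pm_202 : ∃ t, chk3 f_pm_202 t 16 30 1 = true := ex3_c s34_pm_202 s32_pm_202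

theorem s36_pm_202 : ∃ t, chk3 f_pm_202 t 8 30 1 = true := ex3_a s35_pm_202 k13_pm_202

theorem s37_pm_202 : ∃ t, chk3 f_pm_202 t 8 15 1 = true := ex3_b s36_pm_202 s29_pm_202

theorem s38_pm_202 : ∃ t, chk3 f_pm_202 t 4 15 1 = true := ex3_a s37_pm_202 k19_pm_202

theorem s39_pm_202 : ∃ t, chk3 f_pm_202 t 4 7 1 = true := ex3_b k5_pm_202 s38_pm_202

theorem s40_pm_202 : ∃ t, chk3 f_pm_202 t 2 7 1 = true := ex3_a s39_pm_202 k20_pm_202

theorem s41_pm_202 : ∃ t, chk3 f_pm_202 t 2 3 1 = true := ex3_b k4_pm_202 s40_pm_202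

theorem s42_pm_202 : ∃ t, chk3 f_pm_202 t 1 3 1 = true := ex3_a s41_pm_202 s25_pm_202

theorem s43_pm_202 : ∃ t, chk3 f_pm_202 t 3 5 1 = true := ex3_a k2_pm_202 k3_pm_202

theorem s44_pm_202 : ∃ t, chk3 f_pm_202 t 1 5 1 = true := ex3_a k1_pm_202 s43_pm_202

theorem s45_pm_202 : ∃ t, chk3 f_pm_202 t 1 2 1 = true := ex3_b k0_pm_202 s44_pm_202

theorem s46_pm_202 : ∃ t, chk3 f_pm_202 t 1 1 1 = true := ex3_b s45_pm_202 s42_pm_202

theorem c_pm_202 : CertB 0 536870912 0 536870912 991146299 28908434 3 eng mog cd0q2 cd0q0 pd2 true true false .pp 2 0 2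
    ndB0q2 ndB0q0 pcB2 cut_pm_202 Ext.none :=
  certB1 (fam := true) (s1 := true) (s2 := false) (a := 2) (b := 0) (c := 2) (cn := .pp) (n1 := ndB0q2) (n2 := ndB0q0) (pc := pcB2) (cut := cut_pm_202) (xt := Ext.none) (P1 := 0) (W1 := 536870912) (P2 := 0) (W2 := 536870912) (P3 := 991146299) (W3 := 28908434) (N0 := 3) (En := eng) (mo := mog) (C1 := cd0q2) (C2 := cd0q0) (C3 := pd2)
    rfl (fun _ => rfl) s46_pm_202

noncomputable def cut_pm_203 : Cut := Cut.of [[⟨3, 0, 0, 1449551462⟩], [⟨4, 0, 0, 2845415833⟩]]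

noncomputable def f_pm_203 : ℕ → ℕ → ℕ → ℕ → Bool := onCell 0 536870912 1610612736 536870912 991146299 28908434
    (rowB 3 eng mog cd0q2 cd0q0 pd3 1 true true false .up 2 0 3 (qsf 0 536870912 0 536870912 3) ndB0q2 ndB0q0 pcB3 cut_pm_203 Ext.none)

def k0_pm_203 : ∃ t, chk3 f_pm_203 t 2 4 1 = true :=
  ⟨(a (b (a (b (b (a (l 16224976) (a (l 16199240) (l 16179608))) (a (l 16243256) (a (a (l 16189808) (l 16172512)) (l 16169608)))) (a (b (l 16266016) (l 16292816)) (a (b (l 16200208) (l 16225768)) (b (a (l 16233160) (l 16164592)) (b (l 16238352) (l 16187032)))))) (b (c (l 16288272) (l 16153712)) (a (b (l 16170512) (c (l 16191672) (l 16143808))) (a (l 16175696) (l 16180192))))) (a (b (b (a (c (l 16343224) (l 16302696)) (l 16242792)) (a (l 14) (c (l 16287352) (l 16242216)))) (a (l 14) (b (c (l 16321224) (l 16280000)) (l 14)))) (a (a (b (c (b (a (l 16202336) (l 16193136)) (l 16262208)) (b (a (l 16148856) (l 16140376)) (l 16211008))) (b (l 16209704) (c (l 16290480) (l 16247376)))) (b (b (l 16167736)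 (c (l 16198272) (l 16147920))) (c (b (a (l 16219704) (l 16248544)) (l 16244536)) (b (a (l 16169224) (l 16218976)) (l 16197360))))) (b (c (l 16193488) (l 16154768)) (b (c (l 16201448) (l 16158512)) (a (a (b (l 16249400) (a (l 16201432) (l 16214040))) (c (l 16211472) (l 16164808))) (l 16189032))))))) (b (a (b (c (l 16209520) (l 16207264)) (c (l 16194352) (l 16182816))) (c (b (l 16203608) (l 16185240)) (b (l 16223768) (l 16174888)))) (a (a (b (c (l 16192584) (l 16167144)) (c (l 16202376) (l 16171088))) (b (l 16224440) (c (l 16196664) (l 16176888)))) (c (b (l 16177864) (l 16181424)) (b (l 16264320) (a (l 16178248) (l 16174584))))))), by decide +kernel⟩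

def k1_pm_203 : ∃ t, chk3 f_pm_203 t 2 5 1 = true :=
  ⟨(b (a (a (l 14) (b (a (b (c (l 16306496) (l 16265912)) (l 14)) (b (a (a (l 16268816) (b (c (l 16223056) (l 16175704)) (c (l 16236752) (l 16190536)))) (c (l 16222656) (l 16179040))) (a (l 14) (b (a (c (l 16258872) (l 16192720)) (l 16210192)) (l 2))))) (l 2))) (b (a (a (c (b (l 16217384) (l 16231112)) (b (l 16182784) (l 16194656))) (c (l 16215376) (l 16190592))) (c (l 16279624) (l 16290032))) (l 2))) (l 2)), by decide +kernel⟩

def k2_pm_203 : ∃ t, chk3 f_pm_203 t 3 2 1 = true :=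
  ⟨(a (b (b (a (c (b (l 16178200) (l 16135424)) (b (l 16218512) (l 16187272))) (b (c (l 16081144) (a (l 16196336) (l 16170216))) (a (c (l 16116080) (l 16162472)) (c (l 16077280) (l 16134408))))) (a (c (b (a (l 16155632) (l 16132408)) (a (l 16155264) (l 16129368))) (b (l 16104176) (l 36069578327))) (a (b (b (l 16122768) (l 16115368)) (c (l 16095176) (l 16123712))) (b (c (l 16059696) (l 16107576)) (l 2))))) (l 2)) (b (a (a (b (b (c (l 16055616) (l 16133264)) (c (l 16027080) (l 16095216))) (b (c (l 16006912) (l 16065208)) (l 2))) (b (b (c (l 15912728) (l 16084832)) (c (l 15963712) (l 16042600))) (l 2))) (b (a (b (c (l 15966800) (l 16044088)) (c (a (l 15923688) (l 2)) (l 125726472775))) (b (c (l 15967416) (l 16017456)) (l 2))) (l 2))) (l 2))), by decide +kernel⟩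

def k3_pm_203 : ∃ t, chk3 f_pm_203 t 1 3 1 = true :=
  ⟨(l 2), by decide +kernel⟩

theorem s4_pm_203 : ∃ t, chk3 f_pm_203 t 2 2 1 = true := ex3_b k0_pm_203 k1_pm_203

theorem s5_pm_203 : ∃ t, chk3 f_pm_203 t 1 2 1 = true := ex3_a s4_pm_203 k2_pm_203

theorem s6_pm_203 : ∃ t, chk3 f_pm_203 t 1 1 1 = true := ex3_b s5_pm_203 k3_pm_203

theorem c_pm_203 : CertB 0 536870912 0 536870912 991146299 28908434 3 eng mog cd0q2 cd0q0 pd3 true true false .up 2 0 3
    ndB0q2 ndB0q0 pcB3 cut_pm_203 Ext.none :=
  certB1 (fam := true) (s1 := true) (s2 := false) (a := 2) (b := 0) (c := 3) (cn := .up) (n1 := ndB0q2) (n2 := ndB0q0) (pc := pcB3) (cut := cut_pm_203) (xt := Ext.none) (P1 := 0) (W1 := 536870912) (P2 := 0) (W2 := 536870912) (P3 := 991146299) (W3 := 28908434) (N0 := 3) (En := eng) (mo := mog) (C1 := cd0q2) (C2 := cd0q0) (C3 := pd3)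
    rfl (fun _ => rfl) s6_pm_203

end Pool.Agent.Strip051.G.I9231_9500.Tab.C.BA00

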