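import Pool.Agent.Strip051.G.I9231_9500.Tab

/-! # Certificates B7 (generated) -/

set_option linter.all false
set_option maxRecDepth 100000

namespace Pool.Agent.Strip051.G.I9231_9500.Tab.C.BA00

open Pool.Agent.Strip051.PB Pool.Agent.Strip051.PB.T
open Pool.Agent.Strip051.G.I9231_9500.Tab

noncomputable def cut_mm_001 : Cut := Cut.of [[⟨3, 0, 0, 1449551462⟩], [⟨4, 0, 0, 2845415833⟩]]

noncomputable def f_mm_001 : ℕ → ℕ → ℕ → ℕ → Bool := onCell 0 536870912 0 536870912 991146299 28908434
    (rowB 3 eng mog cd0q0 cd0q0 pd1 0 true false false .up 0 0 1 (qsf 0 536870912 0 536870912 1) ndB0q0 ndB0q0 pcB1 cut_mm_001 Ext.none)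

def k0_mm_001 : ∃ t, chk3 f_mm_001 t 1 1 1 = true :=
  ⟨(l 4), by decide +kernel⟩

theorem c_mm_001 : CertB 0 536870912 0 536870912 991146299 28908434 3 eng mog cd0q0 cd0q0 pd1 true false false .up 0 0 1
    ndB0q0 ndB0q0 pcB1 cut_mm_001 Ext.none :=
  certB0 (fam := true) (s1 := false) (s2 := false) (a := 0) (b := 0) (c := 1) (cn := .up) (n1 := ndB0q0) (n2 := ndB0q0) (pc := pcB1) (cut := cut_mm_001) (xt := Ext.none) (P1 := 0) (W1 := 536870912) (P2 := 0) (W2 := 536870912) (P3 := 991146299) (W3 := 28908434) (N0 := 3) (En := eng) (mo := mog) (C1 := cd0q0) (C2 := cd0q0) (C3 := pd1)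
    rfl k0_mm_001

noncomputable def cut_mm_011 : Cut := Cut.of [[⟨3, 0, 0, 1449551462⟩], [⟨4, 0, 0, 2845415833⟩]]

noncomputable def f_mm_011 : ℕ → ℕ → ℕ → ℕ → Bool := onCell 0 536870912 536870912 536870912 991146299 28908434
    (rowB 3 eng mog cd0q0 cd0q1 pd1 0 true false false .pnn 0 1 1 (qsf 0 536870912 536870912 536870912 1) ndB0q0 ndB0q1 pcB1 cut_mm_011 Ext.none)

def k0_mm_011 : ∃ t, chk3 f_mm_011 t 1 1 1 = true :=
  ⟨(l 14), by decide +kernel⟩

theorem c_mm_011 : CertB 0 536870912 536870912 536870912 991146299 28908434 3 eng mog cd0q0 cd0q1 pd1 true false false .pnn 0 1 1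
    ndB0q0 ndB0q1 pcB1 cut_mm_011 Ext.none :=
  certB0 (fam := true) (s1 := false) (s2 := false) (a := 0) (b := 1) (c := 1) (cn := .pnn) (n1 := ndB0q0) (n2 := ndB0q1) (pc := pcB1) (cut := cut_mm_011) (xt := Ext.none) (P1 := 0) (W1 := 536870912) (P2 := 536870912) (W2 := 536870912) (P3 := 991146299) (W3 := 28908434) (N0 := 3) (En := eng) (mo := mog) (C1 := cd0q0) (C2 := cd0q1) (C3 := pd1)
    rfl k0_mm_011

noncomputable def cut_mm_012 : Cut := Cut.of [[⟨3, 0, 0, 1449551462⟩], [⟨4, 0, 0, 2845415833⟩]]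

noncomputable def f_mm_012 : ℕ → ℕ → ℕ → ℕ → Bool := onCell 0 536870912 536870912 536870912 991146299 28908434
    (rowB 3 eng mog cd0q0 cd0q1 pd2 0 true false false .pnp 0 1 2 (qsf 0 536870912 536870912 536870912 2) ndB0q0 ndB0q1 pcB2 cut_mm_012 Ext.none)

def k0_mm_012 : ∃ t, chk3 f_mm_012 t 1 1 1 = true :=
  ⟨(l 14), by decide +kernel⟩

theorem c_mm_012 : CertB 0 536870912 536870912 536870912 991146299 28908434 3 eng mog cd0q0 cd0q1 pd2 true false false .pnp 0 1 2
    ndB0q0 ndB0q1 pcB2 cut_mm_012 Ext.none :=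
  certB0 (fam := true) (s1 := false) (s2 := false) (a := 0) (b := 1) (c := 2) (cn := .pnp) (n1 := ndB0q0) (n2 := ndB0q1) (pc := pcB2) (cut := cut_mm_012) (xt := Ext.none) (P1 := 0) (W1 := 536870912) (P2 := 536870912) (W2 := 536870912) (P3 := 991146299) (W3 := 28908434) (N0 := 3) (En := eng) (mo := mog) (C1 := cd0q0) (C2 := cd0q1) (C3 := pd2)
    rfl k0_mm_012

noncomputable def cut_mm_022 : Cut := Cut.of [[⟨3, 0, 0, 1449551462⟩], [⟨4, 0, 0, 2845415833⟩]]

noncomputable def f_mm_022 : ℕ → ℕ → ℕ → ℕ → Bool := onCell 0 536870912 0 536870912 991146299 28908434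
    (rowB 3 eng mog cd0q0 cd0q2 pd2 0 true false false .pp 0 2 2 (qsf 0 536870912 0 536870912 2) ndB0q0 ndB0q2 pcB2 cut_mm_022 Ext.none)

def k0_mm_022 : ∃ t, chk3 f_mm_022 t 1 1 1 = true :=
  ⟨(l 5), by decide +kernel⟩

theorem c_mm_022 : CertB 0 536870912 0 536870912 991146299 28908434 3 eng mog cd0q0 cd0q2 pd2 true false false .pp 0 2 2
    ndB0q0 ndB0q2 pcB2 cut_mm_022 Ext.none :=
  certB0 (fam := true) (s1 := false) (s2 := false) (a := 0) (b := 2) (c := 2) (cn := .pp) (n1 := ndB0q0) (n2 := ndB0q2) (pc := pcB2) (cut := cut_mm_022) (xt := Ext.none) (P1 := 0) (W1 := 536870912) (P2 := 0) (W2 := 536870912) (P3 := 991146299) (W3 := 28908434) (N0 := 3) (En := eng) (mo := mog) (C1 := cd0q0) (C2 := cd0q2) (C3 := pd2)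
    rfl k0_mm_022

noncomputable def cut_mm_023 : Cut := Cut.of [[⟨3, 0, 0, 1449551462⟩], [⟨4, 0, 0, 2845415833⟩]]

noncomputable def f_mm_023 : ℕ → ℕ → ℕ → ℕ → Bool := onCell 0 536870912 0 536870912 991146299 28908434
    (rowB 3 eng mog cd0q0 cd0q2 pd3 0 true false false .up 0 2 3 (qsf 0 536870912 0 536870912 3) ndB0q0 ndB0q2 pcB3 cut_mm_023 Ext.none)

def k0_mm_023 : ∃ t, chk3 f_mm_023 t 1 1 1 = true :=
  ⟨(l 5), by decide +kernel⟩

theorem c_mm_023 : CertB 0 536870912 0 536870912 991146299 28908434 3 eng mog cd0q0 cd0q2 pd3 true false false .up 0 2 3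
    ndB0q0 ndB0q2 pcB3 cut_mm_023 Ext.none :=
  certB0 (fam := true) (s1 := false) (s2 := false) (a := 0) (b := 2) (c := 3) (cn := .up) (n1 := ndB0q0) (n2 := ndB0q2) (pc := pcB3) (cut := cut_mm_023) (xt := Ext.none) (P1 := 0) (W1 := 536870912) (P2 := 0) (W2 := 536870912) (P3 := 991146299) (W3 := 28908434) (N0 := 3) (En := eng) (mo := mog) (C1 := cd0q0) (C2 := cd0q2) (C3 := pd3)
    rfl k0_mm_023

noncomputable def cut_mm_101 : Cut := Cut.of [[⟨3, 0, 0, 1449551462⟩], [⟨4, 0, 0, 2845415833⟩], [⟨0, 1, 0, 53687091⟩, ⟨1, 0, 0, 53687091⟩, ⟨2, 1, 0, 53687091⟩]]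

noncomputable def f_mm_101 : ℕ → ℕ → ℕ → ℕ → Bool := onCell 536870912 536870912 0 536870912 991146299 28908434
    (rowB 3 eng mog cd0q1 cd0q0 pd1 0 true false false .npn 1 0 1 (qsf 536870912 536870912 0 536870912 1) ndB0q1 ndB0q0 pcB1 cut_mm_101 Ext.none)

def k0_mm_101 : ∃ t, chk3 f_mm_101 t 1 1 1 = true :=
  ⟨(l 14), by decide +kernel⟩

theorem c_mm_101 : CertB 536870912 536870912 0 536870912 991146299 28908434 3 eng mog cd0q1 cd0q0 pd1 true false false .npn 1 0 1
    ndB0q1 ndB0q0 pcB1 cut_mm_101 Ext.none :=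
  certB0 (fam := true) (s1 := false) (s2 := false) (a := 1) (b := 0) (c := 1) (cn := .npn) (n1 := ndB0q1) (n2 := ndB0q0) (pc := pcB1) (cut := cut_mm_101) (xt := Ext.none) (P1 := 536870912) (W1 := 536870912) (P2 := 0) (W2 := 536870912) (P3 := 991146299) (W3 := 28908434) (N0 := 3) (En := eng) (mo := mog) (C1 := cd0q1) (C2 := cd0q0) (C3 := pd1)
    rfl k0_mm_101

noncomputable def cut_mm_102 : Cut := Cut.of [[⟨3, 0, 0, 1449551462⟩], [⟨4, 0, 0, 2845415833⟩], [⟨0, 1, 0, 53687091⟩, ⟨1, 0, 0, 53687091⟩, ⟨2, 1, 0, 53687091⟩]]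

noncomputable def f_mm_102 : ℕ → ℕ → ℕ → ℕ → Bool := onCell 536870912 536870912 0 536870912 991146299 28908434
    (rowB 3 eng mog cd0q1 cd0q0 pd2 0 true false false .npp 1 0 2 (qsf 536870912 536870912 0 536870912 2) ndB0q1 ndB0q0 pcB2 cut_mm_102 Ext.none)

def k0_mm_102 : ∃ t, chk3 f_mm_102 t 1 1 1 = true :=
  ⟨(l 14), by decide +kernel⟩

theorem c_mm_102 : CertB 536870912 536870912 0 536870912 991146299 28908434 3 eng mog cd0q1 cd0q0 pd2 true false false .npp 1 0 2
    ndB0q1 ndB0q0 pcB2 cut_mm_102 Ext.none :=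
  certB0 (fam := true) (s1 := false) (s2 := false) (a := 1) (b := 0) (c := 2) (cn := .npp) (n1 := ndB0q1) (n2 := ndB0q0) (pc := pcB2) (cut := cut_mm_102) (xt := Ext.none) (P1 := 536870912) (W1 := 536870912) (P2 := 0) (W2 := 536870912) (P3 := 991146299) (W3 := 28908434) (N0 := 3) (En := eng) (mo := mog) (C1 := cd0q1) (C2 := cd0q0) (C3 := pd2)
    rfl k0_mm_102

noncomputable def cut_mm_112 : Cut := Cut.of [[⟨3, 0, 0, 1449551462⟩], [⟨4, 0, 0, 2845415833⟩]]

noncomputable def f_mm_112 : ℕ → ℕ → ℕ → ℕ → Bool := onCell 536870912 536870912 536870912 536870912 991146299 28908434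
    (rowB 3 eng mog cd0q1 cd0q1 pd2 0 true false false .dn 1 1 2 (qsf 536870912 536870912 536870912 536870912 2) ndB0q1 ndB0q1 pcB2 cut_mm_112 Ext.none)

def k0_mm_112 : ∃ t, chk3 f_mm_112 t 1 1 1 = true :=
  ⟨(l 4), by decide +kernel⟩

theorem c_mm_112 : CertB 536870912 536870912 536870912 536870912 991146299 28908434 3 eng mog cd0q1 cd0q1 pd2 true false false .dn 1 1 2
    ndB0q1 ndB0q1 pcB2 cut_mm_112 Ext.none :=
  certB0 (fam := true) (s1 := false) (s2 := false) (a := 1) (b := 1) (c := 2) (cn := .dn) (n1 := ndB0q1) (n2 := ndB0q1) (pc := pcB2) (cut := cut_mm_112) (xt := Ext.none) (P1 := 536870912) (W1 := 536870912) (P2 := 536870912) (W2 := 536870912) (P3 := 991146299) (W3 := 28908434) (N0 := 3) (En := eng) (mo := mog) (C1 := cd0q1) (C2 := cd0q1) (C3 := pd2)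
    rfl k0_mm_112

noncomputable def cut_mm_113 : Cut := Cut.of [[⟨3, 0, 0, 1449551462⟩], [⟨4, 0, 0, 2845415833⟩]]

noncomputable def f_mm_113 : ℕ → ℕ → ℕ → ℕ → Bool := onCell 536870912 536870912 536870912 536870912 991146299 28908434
    (rowB 3 eng mog cd0q1 cd0q1 pd3 0 true false false .nn 1 1 3 (qsf 536870912 536870912 536870912 536870912 3) ndB0q1 ndB0q1 pcB3 cut_mm_113 Ext.none)

def k0_mm_113 : ∃ t, chk3 f_mm_113 t 1 1 1 = true :=
  ⟨(l 4), by decide +kernel⟩

theorem c_mm_113 : CertB 536870912 536870912 536870912 536870912 991146299 28908434 3 eng mog cd0q1 cd0q1 pd3 true false false .nn 1 1 3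
    ndB0q1 ndB0q1 pcB3 cut_mm_113 Ext.none :=
  certB0 (fam := true) (s1 := false) (s2 := false) (a := 1) (b := 1) (c := 3) (cn := .nn) (n1 := ndB0q1) (n2 := ndB0q1) (pc := pcB3) (cut := cut_mm_113) (xt := Ext.none) (P1 := 536870912) (W1 := 536870912) (P2 := 536870912) (W2 := 536870912) (P3 := 991146299) (W3 := 28908434) (N0 := 3) (En := eng) (mo := mog) (C1 := cd0q1) (C2 := cd0q1) (C3 := pd3)
    rfl k0_mm_113

noncomputable def cut_mm_123 : Cut := Cut.of [[⟨3, 0, 0, 1449551462⟩], [⟨4, 0, 0, 2845415833⟩]]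

noncomputable def f_mm_123 : ℕ → ℕ → ℕ → ℕ → Bool := onCell 536870912 536870912 0 536870912 991146299 28908434
    (rowB 3 eng mog cd0q1 cd0q2 pd3 0 true false false .npn 1 2 3 (qsf 536870912 536870912 0 536870912 3) ndB0q1 ndB0q2 pcB3 cut_mm_123 Ext.none)

def k0_mm_123 : ∃ t, chk3 f_mm_123 t 1 1 1 = true :=
  ⟨(a (l 5) (l 4)), by decide +kernel⟩

theorem c_mm_123 : CertB 536870912 536870912 0 536870912 991146299 28908434 3 eng mog cd0q1 cd0q2 pd3 true false false .npn 1 2 3
    ndB0q1 ndB0q2 pcB3 cut_mm_123 Ext.none :=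
  certB0 (fam := true) (s1 := false) (s2 := false) (a := 1) (b := 2) (c := 3) (cn := .npn) (n1 := ndB0q1) (n2 := ndB0q2) (pc := pcB3) (cut := cut_mm_123) (xt := Ext.none) (P1 := 536870912) (W1 := 536870912) (P2 := 0) (W2 := 536870912) (P3 := 991146299) (W3 := 28908434) (N0 := 3) (En := eng) (mo := mog) (C1 := cd0q1) (C2 := cd0q2) (C3 := pd3)
    rfl k0_mm_123

noncomputable def cut_mm_202 : Cut := Cut.of [[⟨3, 0, 0, 1449551462⟩], [⟨4, 0, 0, 2845415833⟩], [⟨0, 1, 0, 26843545⟩, ⟨1, 0, 0, 26843545⟩, ⟨2, 1, 0, 26843545⟩]]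

noncomputable def f_mm_202 : ℕ → ℕ → ℕ → ℕ → Bool := onCell 0 536870912 0 536870912 991146299 28908434
    (rowB 3 eng mog cd0q2 cd0q0 pd2 0 true false false .pp 2 0 2 (qsf 0 536870912 0 536870912 2) ndB0q2 ndB0q0 pcB2 cut_mm_202 Ext.none)

def k0_mm_202 : ∃ t, chk3 f_mm_202 t 4 4 1 = true :=
  ⟨(a (b (b (b (l 16136616) (l 16263552)) (c (l 16294424) (l 16176032))) (b (b (c (l 16308000) (l 16215280)) (c (l 16225632) (l 16109288))) (c (b (l 16148144) (l 16074624)) (c (l 15894520) (l 15775088))))) (a (b (b (b (l 16238032) (l 16310024)) (c (l 16338160) (l 16215080))) (b (c (l 16111192) (b (l 16201760) (l 16089000))) (c (b (l 16134600) (a (l 16056528) (b (l 16078032) (l 16045992)))) (b (l 15942928) (a (l 15884392) (b (l 15910056) (l 15868280))))))) (b (b (c (l 16171392) (l 16151640)) (b (l 16358488) (c (l 16387808) (l 16272520)))) (b (b (c (l 16213008) (a (l 16205848) (l 16228136))) (c (a (l 16223584) (l 16253368)) (a (l 16097080) (l 16134264)))) (b (c (a (l 16153384) (l 16192072))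 (a (l 16005968) (l 16054672))) (c (c (l 16157936) (l 16081416)) (c (l 16002240) (l 15920472)))))))), by decide +kernel⟩

def k1_mm_202 : ∃ t, chk3 f_mm_202 t 5 8 1 = true :=
  ⟨(b (a (b (a (c (a (l 16224704) (l 16219728)) (l 16096456)) (c (l 16156304) (l 16148200))) (a (b (l 16277536) (l 16327024)) (c (l 16340800) (l 16297752)))) (b (a (c (b (l 16193152) (l 16251376)) (b (l 16148448) (l 16220208))) (c (a (b (l 16200952) (l 16256000)) (b (l 16208064) (l 16261104))) (a (b (l 16150320) (l 16218104)) (b (l 16153792) (l 16219032))))) (a (c (b (l 16307896) (l 16362744)) (l 16202872)) (a (c (l 16314576) (l 16294584)) (c (a (l 16336968) (l 16317536)) (l 16228864)))))) (a (a (b (a (l 16372568) (l 16359432)) (a (l 16258096) (l 16287744))) (b (a (l 16347168) (l 16335960)) (a (l 16317600) (l 16347448)))) (c (a (b (l 16358040) (l 16457856)) (b (a (l 16415096) (l 16413400)) (a (l 16488408) (l 16462144)))) (a (b (l 16348208) (l 16438352)) (b (a (l 16395848) (l 16388272)) (a (l 16509416) (l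 16476352))))))), by decide +kernel⟩

def k2_mm_202 : ∃ t, chk3 f_mm_202 t 5 9 1 = true :=
  ⟨(b (a (c (b (a (l 16308968) (b (l 16449056) (l 16416616))) (a (l 16242344) (l 16247920))) (b (a (l 16223376) (l 16259072)) (a (l 16095176) (c (l 16309744) (l 16265192))))) (c (a (b (b (l 16506632) (l 16478024)) (a (l 16423968) (l 16414976))) (b (c (l 16557576) (l 16520008)) (b (a (l 16499696) (l 16530384)) (l 16412184)))) (a (b (b (l 16454648) (l 16401784)) (a (l 16352368) (l 16373936))) (b (c (l 16481800) (l 16453432)) (c (l 16385528) (l 16339552)))))) (b (a (a (c (l 16124080) (c (l 16159200) (l 16096152))) (c (c (l 16350064) (l 16301352)) (c (l 16250896) (l 16198712)))) (a (c (c (l 16419080) (l 16380616)) (a (l 16296536) (l 16322464))) (c (a (l 16390792) (b (l 16495848) (l 16481928))) (a (l 16326344) (b (l 16443520) (l 16424776)))))) (a (a (c (c (l 16237104) (l 16171384)) (c (l 16103360) (l 16033080))) (c (c (l 16314792) (l 16260160)) (c (l 16203592) (l 16145120)))) (a (a (c (l 16348496)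 (l 16210624)) (c (l 16325296) (a (l 16290904) (l 16316144)))) (a (a (c (l 16417464) (l 16341072)) (c (l 16436720) (l 16365672))) (l 14)))))), by decide +kernel⟩

def k3_mm_202 : ∃ t, chk3 f_mm_202 t 4 10 1 = true :=
  ⟨(a (b (c (c (b (l 16048848) (l 15988688)) (b (l 15961040) (l 15891232))) (c (b (l 15870224) (l 15790504)) (b (l 15776488) (l 15686576)))) (b (c (a (l 15891968) (b (l 15882736) (a (l 15857712) (a (l 15848840) (l 15848216))))) (a (l 15678032) (b (l 15660880) (a (l 15629232) (a (l 15615656) (b (l 15599400) (l 15583616))))))) (a (c (l 15815336) (b (l 15622656) (l 15587232))) (c (a (l 15815080) (a (b (l 15820488) (b (l 15780280) (l 15769776))) (b (a (l 15801368) (l 15834584)) (l 15817232)))) (a (b (l 15591440) (l 15554872)) (a (b (l 15557304) (a (l 15522560) (b (l 15530808) (l 15541488)))) (b (b (l 15581056) (l 15582072)) (l 15572192)))))))) (b (a (b (c (a (b (l 16002000) (l 15969184)) (b (l 16018784) (l 15997224))) (a (b (l 15813304) (l 15770440)) (b (l 15832768) (l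 15804576)))) (c (a (b (l 15939600) (a (l 15905304) (l 15923384))) (l 15969560)) (a (b (a (l 15725536) (l 15734128)) (a (l 15687320) (l 15709640))) (l 15799632)))) (c (b (c (l 16118360) (l 16035384)) (c (l 16088152) (l 16000024))) (b (c (l 15949568) (l 15860984)) (c (l 15908912) (l 15814896))))) (a (c (b (a (b (a (l 15882200) (l 15907832)) (l 15881048)) (b (l 15947336) (l 15935432))) (c (l 15926504) (c (l 15824176) (l 15768808)))) (b (a (b (a (l 15656872) (l 15689048)) (l 15654376)) (b (l 15738664) (l 15722696))) (c (b (l 15731624) (l 15721064)) (a (l 15551368) (l 15626632))))) (c (b (c (l 16066768) (l 15974712)) (c (l 16032616) (b (l 15961872) (l 15956168)))) (b (c (b (l 15885864) (l 15873872)) (b (l 15788632) (l 15774904))) (c (b (l 15864504) (l 15857680)) (a (l 15701480) (l 15775888)))))))), by decide +kernel⟩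

def k4_mm_202 : ∃ t, chk3 f_mm_202 t 8 22 1 = true :=
  ⟨(b (a (c (b (l 15797080) (l 15751176)) (b (l 15552992) (a (l 15531808) (l 15486944)))) (a (c (b (l 15754560) (a (l 15752544) (a (l 15727048) (b (l 15712104) (l 15727112))))) (b (b (l 15528232) (l 15498928)) (a (l 15490816) (c (a (l 15551408) (b (l 15558392) (l 15550840))) (a (l 15415328) (b (l 15422968) (l 15414320))))))) (c (b (a (b (l 15751048) (l 15756256)) (l 15809168)) (c (l 15849144) (l 15725864))) (b (a (b (a (l 15499624) (l 15535664)) (l 15510176)) (l 15540128)) (c (l 15598624) (l 15467536)))))) (a (c (c (l 15737104) (b (l 15684648) (l 15659752))) (b (a (l 15500264) (l 15465216)) (a (l 15448920) (c (l 15514200) (l 15374152))))) (a (a (b (c (b (l 15734000) (l 15681064)) (b (l 15466144) (c (l 15520888) (l 15381024)))) (a (c (b (l 15712112) (l 15659896)) (b (l 15437232) (c (l 15494632) (l 15372240)))) (c (b (a (l 15668616) (l 15672224)) (l 15666712)) (c (b (a (l 15505208) (l 15509368)) (l 15502440)) (b (a (l 15363120)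 (l 15367656)) (l 15359768)))))) (c (b (a (b (l 15690824) (l 15685744)) (l 15702664)) (l 15696920)) (b (b (a (a (b (l 15463512) (l 15457016)) (c (l 15533696) (l 15395080))) (l 15479584)) (c (l 15535128) (l 15396472))) (c (l 15532416) (l 15393184))))) (c (c (l 15781568) (b (l 15721280) (l 15718944))) (b (c (l 15593064) (l 15460984)) (c (l 15590048) (l 15457264))))))), by decide +kernel⟩

def k5_mm_202 : ∃ t, chk3 f_mm_202 t 16 23 2 = true :=
  ⟨(b (a (b (l 15669912) (l 15649040)) (b (b (l 15657832) (c (l 15757608) (c (l 15655872) (l 15565728)))) (a (l 15635432) (a (b (l 15676008) (a (l 15666664) (b (l 15667520) (l 15611592)))) (b (a (b (l 15675848) (l 15609232)) (l 15636600)) (b (l 15632528) (l 15674944))))))) (a (b (c (l 15739680) (l 15601352)) (c (l 15722344) (l 15580720))) (a (b (b (l 15620168) (a (l 15654520) (a (l 15651080) (b (l 15588896) (c (l 15719752) (l 15576560)))))) (a (b (l 15623944) (a (l 15615744) (b (l 15584920) (a (l 15581016) (l 15572472))))) (b (a (b (l 15581512)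 (a (l 15577448) (l 15579240))) (c (l 15719360) (l 15575896))) (c (l 15717184) (l 15573192))))) (b (a (b (a (b (l 15638536) (l 15603784)) (c (l 15732752) (l 15591568))) (c (l 15729864) (l 15588056))) (c (l 15745568) (l 15606008))) (c (l 15741104) (l 15600488)))))), by decide +kernel⟩

def k6_mm_202 : ∃ t, chk3 f_mm_202 t 16 23 3 = true :=
  ⟨(a (b (b (l 15427568) (c (l 15483784) (l 15340432))) (b (c (l 15458672) (l 15311752)) (c (l 15434664) (l 15305256)))) (a (b (b (c (l 15492064) (l 15349184)) (c (l 15465432) (l 15318816))) (b (b (c (l 15446184) (l 15296840)) (b (c (l 15437416) (l 15286808)) (a (l 15358752) (a (l 15353696) (c (a (l 15427576) (l 15429472)) (a (l 15275416) (l 15277480))))))) (a (b (c (l 15424640) (l 15272304)) (b (c (l 15416440) (l 15262904)) (a (l 15334856) (c (a (l 15410016) (l 15412248)) (a (l 15255512) (l 15257952)))))) (b (a (c (b (l 15423720) (a (l 15418608) (l 15420664))) (b (l 15271088) (a (l 15265264) (l 15267504)))) (c (l 15427960) (l 15275656))) (c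 (b (l 15424152) (l 15425568)) (c (l 15310488) (l 15232984))))))) (b (b (b (l 15415904) (a (l 15404336) (b (l 15423168) (c (l 15469152) (l 15353928))))) (a (b (l 15389976) (a (l 15377528) (c (b (l 15452296) (l 15447824)) (b (l 15303424) (l 15298296))))) (b (a (b (l 15405064) (c (l 15457864) (l 15309640))) (c (l 15465520) (l 15318160))) (c (l 15460456) (l 15333320))))) (a (b (b (a (c (b (l 15442400) (l 15438176)) (b (l 15292232) (l 15329312))) (c (l 15445960) (l 15296048))) (c (l 15441816) (b (l 15290952) (l 15291888)))) (c (l 15444936) (l 15294456))) (c (b (l 15462080) (l 15466032)) (b (l 15313888) (l 15317928))))))), by decide +kernel⟩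

def k7_mm_202 : ∃ t, chk3 f_mm_202 t 17 23 1 = true :=
  ⟨(c (b (a (b (a (a (b (a (l 15649912) (l 15653744)) (l 15649016)) (l 15665888)) (c (l 15797864) (l 15666296))) (c (l 15783240) (c (l 15683144) (l 15615072)))) (c (l 15782120) (b (l 15718816) (l 15720832)))) (c (b (a (l 15765016) (l 15850296)) (c (l 15792112) (l 15728432))) (c (b (l 15658336) (l 15663704)) (a (b (l 15617728) (l 15622536)) (b (l 15692968) (l 15699192)))))) (c (b (b (a (a (a (b (a (l 15482216) (l 15486648)) (l 15480656)) (l 15500984)) (l 15530560)) (l 15589504)) (a (c (l 15545960) (l 15475816)) (c (l 15624112) (l 15558408)))) (b (a (a (l 15493040) (l 15534192)) (c (l 15628304) (l 15562664))) (a (c (l 15553488) (l 15483408)) (c (l 15634712) (l 15569272))))) (b (b (a (a (a (b (a (l 15337184) (l 15342024)) (l 15335176)) (l 15357872)) (l 15390760)) (c (l 15489968) (l 15422416))) (c (a (l 15404640) (l 15491744)) (a (l 15332456) (l 15424120)))) (b (a (c (l 15407200) (l 15334984)) (c (l 15496064) (l 15428520)))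 (a (a (l 15353048) (l 15399720)) (c (l 15502880) (l 15435536))))))), by decide +kernel⟩

def k8_mm_202 : ∃ t, chk3 f_mm_202 t 9 11 1 = true :=
  ⟨(b (c (a (b (c (b (l 15917488) (l 15914000)) (b (l 15806624) (l 15802200))) (c (a (l 15840944) (l 15899920)) (b (l 15799992) (a (l 15787072) (l 15854680))))) (b (c (b (l 16048832) (l 16048040)) (a (l 15878360) (l 15941120))) (c (a (l 15979392) (l 16037216)) (a (l 15878456) (l 15944064))))) (b (a (c (b (l 15713128) (l 15707752)) (b (l 15595152) (a (l 15548488) (l 15628960)))) (c (b (l 15853352) (l 15851456)) (a (l 15689208) (l 15767472)))) (a (c (b (a (l 15667736) (l 15741896)) (a (l 15666472) (l 15742312))) (b (a (l 15543976) (l 15626392)) (a (l 15542224) (l 15626512)))) (c (b (l 15851928) (a (l 15817448) (l 15891824))) (a (a (l 15709160) (l 15729288)) (l 15769648)))))) (c (b (a (a (c (l 15844088) (b (l 15788424) (l 15791864))) (c (l 15926520) (l 15817704))) (c (c (l 16062120) (l 16019864)) (a (l 15886728) (l 15975912)))) (a (a (b (c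 (l 15914072) (l 15797328)) (c (l 15920976) (l 15804760))) (c (l 15939128) (b (l 15869024) (l 15877696)))) (a (b (c (l 16039776) (l 15939936)) (c (l 16048784) (l 15949784))) (c (l 16085320) (b (l 16009960) (l 16020944)))))) (b (a (c (b (a (l 15667616) (l 15745064)) (a (l 15671104) (l 15750088))) (b (c (l 15595640) (l 15534712)) (c (l 15600000) (l 15539144)))) (c (c (b (l 15864032) (l 15871104)) (b (l 15813280) (l 15820600))) (a (b (l 15714456) (l 15721376)) (b (l 15798816) (l 15807304))))) (a (c (b (c (l 15704536) (l 15666592)) (c (l 15713056) (l 15675432))) (c (b (l 15606808) (a (l 15592568) (l 15681288))) (b (l 15546160) (a (l 15529936) (l 15623296))))) (c (a (b (l 15836880) (l 15826632)) (b (l 15915488) (l 15906528))) (a (b (l 15730688) (l 15721352)) (b (l 15818128) (l 15810224)))))))), by decide +kernel⟩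

def k9_mm_202 : ∃ t, chk3 f_mm_202 t 5 10 1 = true :=
  ⟨(a (b (c (a (c (b (l 16204320) (l 16180520)) (b (l 16133064) (l 16104968))) (b (c (l 16288376) (l 16229056)) (c (l 16270584) (l 16228744)))) (a (c (b (l 16059328) (l 16026824)) (b (l 15983192) (l 15946160))) (b (c (l 16167648) (l 16104208)) (c (a (l 16113936) (l 16171216)) (a (l 16043416) (l 16107464)))))) (c (a (b (c (l 16165144) (l 16086488)) (c (b (l 16158744) (l 16156848)) (b (l 16078480) (l 16075864)))) (b (c (b (l 16262560) (l 16259576)) (b (l 16197880) (l 16193992))) (c (b (l 16258440) (l 16259080)) (a (l 16142632) (l 16199336))))) (a (b (c (b (l 16009584) (l 16001304)) (a (l 15886352) (l 15955784))) (c (b (l 15995520) (l 15992160)) (a (l 15849816) (l 15923096)))) (b (c (a (l 16097728) (l 16158480)) (a (l 16024544) (l 16092448))) (c (a (l 16070264) (l 16155232)) (a (l 16016544) (l 16088056))))))) (a (a (a (b (c (b (l 16313760) (l 16298088)) (b (l 16206328) (l 16184464))) (b (c (l 16290808) (l 16199504)) (l 14)))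 (b (c (b (l 16335384) (l 16321208)) (b (l 16234080) (l 16214088))) (l 14))) (b (a (c (b (l 16356800) (l 16344096)) (b (l 16261560) (l 16264392))) (b (c (l 16378016) (l 16288736)) (l 14))) (l 14))) (a (a (b (b (c (l 16399016) (l 16336552)) (l 14)) (l 14)) (l 14)) (l 14)))), by decide +kernel⟩

def k10_mm_202 : ∃ t, chk3 f_mm_202 t 5 11 1 = true :=
  ⟨(a (a (a (b (c (b (b (l 16087864) (l 16088840)) (c (l 16115192) (l 16029832))) (b (c (l 15936016) (l 15845112)) (c (l 15941648) (l 15861208)))) (b (c (c (l 16127672) (b (l 16060120) (l 16068672))) (c (b (l 15972568) (l 15981832)) (b (l 15882296) (l 15892304)))) (a (b (c (l 16104840) (l 15928792)) (l 14)) (l 14)))) (b (c (b (c (l 16163264) (l 16085416)) (c (l 16171320) (l 16093736))) (b (c (l 16004960) (l 15921968)) (c (l 16024064) (b (l 15948696) (l 15955576))))) (l 14))) (a (b (b (c (c (l 16216200) (l 16145792)) (c (l 16073008) (l 16018880))) (l 14)) (l 14)) (l 14))) (l 14)), by decide +kernel⟩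

def k11_mm_202 : ∃ t, chk3 f_mm_202 t 12 8 1 = true :=
  ⟨(a (c (a (b (b (b (a (l 16214712) (l 16219776)) (l 16268152)) (b (l 16317608) (l 16365568))) (b (l 16371832) (l 16458976))) (b (b (b (c (l 16222064) (l 16213712)) (c (l 16289224) (l 16265328))) (b (l 16324912) (l 16370984))) (b (b (l 16415616) (l 16458848)) (b (l 16500728) (l 16540904))))) (b (b (a (b (l 16159608) (l 16222304)) (b (c (l 16183536) (l 16152512)) (c (l 16240744) (l 16215480)))) (a (b (l 16282864) (l 16341304)) (b (l 16286360) (l 16342440)))) (b (a (l 16341232) (b (l 16396504) (l 16448600))) (b (l 16438248) (l 16487216))))) (a (b (b (c (b (c (l 16257400) (l 16226976)) (c (l 16301616) (l 16276376))) (b (c (l 16195664) (l 16163472)) (c (l 16250408) (l 16223712)))) (c (b (c (l 16344712) (l 16324384)) (c (l 16386672) (l 16370976))) (b (c (l 16303472) (l 16281984)) (c (l 16354848) (l 16338272))))) (b (b (c (c (l 16427328) (l 16415992)) (l 16398408)) (c (l 16463152) (l 16448272))) (a (c (l 16459176) (l 16457160))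 (l 14)))) (b (b (c (b (c (a (l 16249008) (l 16258280)) (a (l 16217968) (l 16226944))) (c (b (l 16285224) (l 16306040)) (b (l 16257744) (l 16280960)))) (b (c (a (l 16207000) (l 16215656)) (a (l 16174144) (l 16182488))) (c (a (l 16259784) (l 16267168)) (l 16235544)))) (c (b (c (c (l 16342176) (l 16331536)) (a (l 16333008) (l 16339704))) (c (l 16398032) (l 16380848))) (b (c (l 16314032) (l 16291192)) (c (l 16363168) (l 16345000))))) (a (b (b (c (l 16428048) (l 16402040)) (l 14)) (l 14)) (l 14))))), by decide +kernel⟩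

def k12_mm_202 : ∃ t, chk3 f_mm_202 t 13 8 1 = true :=
  ⟨(b (a (b (a (a (c (b (c (l 16278776) (l 16247248)) (c (l 16308880) (l 16303080))) (b (c (l 16225280) (l 16191896)) (c (l 16275520) (l 16247176)))) (b (a (c (b (l 16249896) (l 16271264)) (b (l 16203312) (l 16229624))) (b (c (l 16266096) (l 16209032)) (l 14))) (l 14))) (l 14)) (l 14)) (l 14)) (l 14)), by decide +kernel⟩

def k13_mm_202 : ∃ t, chk3 f_mm_202 t 7 8 1 = true :=
  ⟨(l 14), by decide +kernel⟩

def k14_mm_202 : ∃ t, chk3 f_mm_202 t 3 9 1 = true :=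
  ⟨(a (a (b (a (a (c (b (l 16548240) (b (l 16560144) (l 16543472))) (b (l 16504040) (c (l 16503912) (l 16485424)))) (b (c (b (l 16578520) (l 16606360)) (l 16515992)) (l 14))) (l 14)) (l 14)) (l 14)) (l 14)), by decide +kernel⟩

def k15_mm_202 : ∃ t, chk3 f_mm_202 t 3 5 1 = true :=
  ⟨(l 14), by decide +kernel⟩

def k16_mm_202 : ∃ t, chk3 f_mm_202 t 16 24 2 = true :=
  ⟨(a (b (b (b (c (l 15709928) (l 15565896)) (a (l 15592664) (a (l 15585264) (a (l 15581608) (a (c (l 15695600) (l 15548344)) (b (l 15571216) (l 15565128))))))) (a (c (l 15694752) (l 15547976)) (a (b (l 15566216) (a (l 15559120) (b (c (l 15685960) (l 15536992)) (a (c (l 15683008) (l 15533472)) (l 15553808))))) (b (a (b (c (l 15691360) (l 15543352)) (a (c (l 15688248) (l 15539640)) (l 15559312))) (c (l 15696168) (l 15548648))) (c (l 15695360) (l 15547512)))))) (a (b (b (c (l 15683696) (l 15534704)) (a (l 15552104) (a (l 15546944) (b (a (l 15579736) (c (l 15675672) (l 15524808))) (a (c (l 15673360) (l 15522080)) (l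 15543752)))))) (a (b (c (l 15672056) (l 15520800)) (a (c (l 15666592) (l 15514256)) (b (a (l 15548912) (c (l 15666848) (l 15493400))) (a (c (l 15664816) (l 15490984)) (l 15550592))))) (b (a (b (a (l 15574656) (c (l 15671120) (l 15519432))) (a (c (l 15668952) (l 15516856)) (l 15554896))) (c (l 15677632) (l 15526752))) (c (l 15678104) (l 15527088))))) (c (b (b (a (a (b (l 15680840) (l 15679528)) (l 15686328)) (l 15699456)) (l 15694984)) (l 15660424)) (b (a (b (a (b (l 15509984) (a (l 15527616) (l 15530656))) (l 15537040)) (l 15536664)) (l 15533344)) (c (l 15592104) (l 15517168)))))) (b (b (a (a (b (a (b (l 15578144) (a (l 15574408) (l 15576504))) (c (l 15707168) (l 15561600))) (c (l 15705688) (l 15559688))) (c (l 15721288) (l 15577528))) (c (l 15746584) (l 15606264))) (c (l 15652768) (c (l 15630496) (l 15558336)))) (c (b (l 15661432) (c (l 15790032) (l 15721000))) (b (c (l 15639752) (l 15567984)) (c (l 15650856) (l 15579624)))))), by decide +kernel⟩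

def k17_mm_202 : ∃ t, chk3 f_mm_202 t 17 24 2 = true :=
  ⟨(b (b (c (c (l 15798912) (l 15735480)) (c (l 15671016) (a (l 15629448) (l 15707448)))) (c (c (l 15807344) (l 15744288)) (a (c (l 15705832) (l 15638400)) (l 15686264)))) (b (c (c (l 15817344) (l 15754792)) (c (l 15701704) (a (l 15649336) (l 15729832)))) (c (a (l 15763200) (l 15895800)) (a (l 15632568) (l 15711792))))), by decide +kernel⟩

def k18_mm_202 : ∃ t, chk3 f_mm_202 t 8 25 2 = true :=
  ⟨(c (a (b (b (b (a (a (a (a (b (l 15663032) (l 15662712)) (l 15669920)) (l 15683504)) (l 15710600)) (l 15764456)) (a (l 15614496) (l 15770824))) (c (l 15706024) (a (l 15671504) (l 15747160)))) (c (b (l 15730664) (l 15746240)) (b (a (l 15686024) (l 15762616)) (l 15685752)))) (b (a (b (l 15797080) (l 15811496)) (b (l 15909616) (l 15924880))) (a (b (l 15848328) (l 15886568)) (b (l 15941536) (l 15959536))))) (a (a (b (b (a (b (a (a (b (a (l 15509176) (l 15488648)) (a (l 15465424) (l 15511368))) (l 15517592)) (l 15533040)) (l 15529088))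 (c (l 15604168) (l 15529824))) (c (l 15576760) (a (l 15501264) (l 15544400)))) (b (c (l 15613064) (a (l 15517136) (l 15560840))) (c (l 15630088) (l 15535976)))) (b (b (c (l 15663768) (l 15593184)) (c (l 15678424) (l 15608624))) (b (c (l 15694768) (l 15625864)) (l 15621248)))) (b (a (b (l 15646920) (l 15663008)) (b (l 15727184) (l 15744256))) (a (b (l 15680776) (l 15700168)) (b (l 15783912) (l 15804160)))))), by decide +kernel⟩

def k19_mm_202 : ∃ t, chk3 f_mm_202 t 9 12 2 = true :=
  ⟨(a (a (b (b (c (b (l 15929552) (l 15939728)) (b (l 15793128) (l 15762376))) (c (b (l 15951456) (l 15964680)) (b (c (l 15866904) (l 15809408)) (l 15811032)))) (b (b (c (l 15979352) (l 15827416)) (c (l 15995416) (l 15845408))) (c (b (l 16012816) (l 16031504)) (b (l 15864960) (l 15886008))))) (b (b (c (b (l 15994832) (l 16005984)) (b (l 15888208) (l 15858576))) (b (c (l 16018624) (l 15872608)) (c (l 16032712) (l 15888312)))) (b (b (c (l 16048192) (l 15905624)) (l 14)) (l 14)))) (b (a (b (c (b (l 16059360)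 (l 16071432)) (b (l 15961432) (l 15964312))) (a (b (a (l 15990416) (l 16008048)) (l 14)) (l 14))) (a (b (b (l 16061832) (l 14)) (l 14)) (l 14))) (l 14))), by decide +kernel⟩

def k20_mm_202 : ∃ t, chk3 f_mm_202 t 8 24 6 = true :=
  ⟨(a (a (b (a (b (l 15418320) (l 15396640)) (b (b (l 15410824) (a (l 15402864) (a (l 15397944) (b (l 15398448) (a (l 15393928) (l 15396568)))))) (a (b (l 15391944) (a (l 15382968) (b (a (l 15383096) (l 15367096)) (a (b (l 15379624) (l 15378352)) (l 15382416))))) (b (a (b (a (l 15390520) (l 15390136)) (a (l 15386440) (l 15389296))) (l 15396560)) (b (l 15394024) (l 15396352)))))) (a (b (b (l 15381104) (a (l 15374528) (a (l 15369368) (b (a (l 15369288) (b (l 15369456) (l 15368488))) (a (b (l 15366248) (l 15365392)) (l 15369808)))))) (a (b (l 15364880) (a (l 15357224) (b (a (l 15356920) (b (l 15357144) (l 15356640))) (a (b (l 15354288) (l 15353912)) (l 15358616))))) (b (a (b (a (l 15362912) (b (l 15363128) (l 15362376))) (a (b (l 15360088) (l 15359464))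 (l 15364040))) (l 15371224)) (l 15371432)))) (b (b (a (a (b (a (l 15376016) (b (l 15376144) (l 15374968))) (a (b (l 15372760) (l 15371688)) (l 15375920))) (l 15383144)) (l 15399912)) (c (l 15432440) (l 15354872))) (c (l 15441096) (l 15363912))))) (b (b (a (a (b (a (b (l 15406512) (a (l 15401792) (l 15404216))) (l 15411496)) (b (l 15408328) (l 15410216))) (l 15429296)) (c (l 15498152) (l 15424736))) (c (a (l 15463776) (l 15506400)) (a (l 15388216) (l 15433280)))) (b (c (a (l 15473472) (l 15516808)) (a (l 15398304) (l 15444128))) (c (a (l 15485320) (l 15529320)) (a (l 15410672) (l 15457208)))))) (b (b (c (a (l 15560632) (l 15643288)) (a (l 15490784) (l 15578176))) (c (a (l 15569944) (l 15653968)) (a (l 15500464) (l 15589304)))) (b (a (c (l 15581368) (l 15512392)) (c (l 15666688) (l 15602608))) (a (c (l 15594840) (l 15505528)) (c (l 15681384) (l 15618016)))))), by decide +kernel⟩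

def k21_mm_202 : ∃ t, chk3 f_mm_202 t 8 25 6 = true :=
  ⟨(a (b (b (a (a (b (a (a (b (a (l 15351272) (b (l 15330552) (l 15351272))) (a (b (l 15317392) (l 15348728)) (l 15353544))) (l 15360584)) (l 15377960)) (c (l 15412712) (l 15333704))) (c (l 15454360) (l 15377784))) (c (a (l 15499232) (l 15543864)) (a (l 15425248) (l 15472456)))) (a (c (a (l 15423920) (l 15469672)) (a (b (l 15341392) (l 15349624)) (l 15393848))) (b (c (l 15533512) (l 15461408)) (c (l 15542112) (l 15470440))))) (c (b (a (a (l 15440616) (l 15486968)) (l 15513976)) (a (a (l 15459272) (l 15506184)) (l 15575944))) (b (a (a (l 15362984) (l 15412016)) (a (l 15460752) (l 15509192))) (a (a (l 15382600) (l 15432232)) (a (l 15481544) (l 15530536)))))) (b (b (a (c (l 15610296) (l 15521744)) (c (l 15698000) (l 15635456))) (a (c (l 15627680) (l 15540000)) (c (l 15716472) (l 15654872)))) (b (a (c (l 15646920) (l 15581216)) (c (l 15736728) (l 15676200))) (a (c (l 15667952) (l 15603360)) (l 15697680))))), by decide +kernel⟩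

def k22_mm_202 : ∃ t, chk3 f_mm_202 t 16 24 7 = true :=
  ⟨(a (b (a (b (l 15265744) (l 15240864)) (b (b (l 15256776) (a (l 15247736) (a (l 15241960) (b (l 15254216) (a (l 15237256) (l 15240144)))))) (a (b (l 15235200) (a (l 15224936) (b (c (l 15265280) (l 15206104)) (a (b (l 15221024) (l 15219528)) (l 15224064))))) (b (a (b (a (l 15233456) (l 15243432)) (a (b (l 15229240) (l 15227528)) (l 15231888))) (l 15240008)) (b (l 15237064) (l 15239568)))))) (a (b (b (l 15223008) (a (l 15215520) (a (l 15209464) (b (a (l 15209312) (b (l 15209456) (l 15218792))) (a (b (l 15205800) (a (l 15203696) (l 15205696))) (l 15209704)))))) (a (b (l 15204408) (a (l 15195632) (b (a (l 15195224) (b (a (l 15195032) (l 15195208)) (a (l 15193584) (l 15196008)))) (a (b (a (l 15191728) (l 15191992)) (a (l 15190424) (l 15192976))) (l 15196936))))) (b (a (b (a (l 15202048) (b (l 15202240) (a (l 15200224) (l 15202376)))) (a (b (l 15219752) (a (l 15196848) (l 15199144))) (l 15203120))) (l 15211168)) (l 15211240))))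 (b (b (a (a (b (a (l 15216968) (b (l 15217064) (l 15215680))) (a (b (l 15213208) (l 15232912)) (l 15216664))) (l 15224744)) (l 15243408)) (c (l 15276192) (l 15196416))) (c (l 15285616) (l 15206232))))) (b (b (a (a (b (a (b (l 15251568) (a (l 15246176) (l 15248832))) (l 15256984)) (b (l 15253320) (l 15255336))) (l 15276696)) (c (l 15350264) (l 15274728))) (c (a (l 15311568) (l 15359112)) (a (l 15233840) (l 15283896)))) (b (a (c (l 15322064) (l 15244744)) (c (l 15370400) (l 15295640))) (c (a (l 15334968) (l 15384064)) (a (l 15258192) (l 15309888)))))), by decide +kernel⟩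

def k23_mm_202 : ∃ t, chk3 f_mm_202 t 17 24 7 = true :=
  ⟨(b (b (a (c (l 15419928) (l 15348072)) (c (l 15512104) (l 15445096))) (a (c (l 15429984) (a (l 15333720) (l 15383304))) (c (l 15523696) (l 15457160)))) (c (b (a (a (l 15418504) (l 15466352)) (l 15537592)) (a (a (l 15432896) (l 15481456)) (l 15553720))) (b (a (a (l 15346280) (l 15396656)) (l 15471656)) (a (a (l 15361304) (l 15412432)) (l 15488520))))), by decide +kernel⟩

def k24_mm_202 : ∃ t, chk3 f_mm_202 t 8 25 7 = true :=
  ⟨(a (b (b (a (a (b (a (a (b (a (l 15188776) (b (a (l 15188528) (l 15188880)) (a (l 15187360) (l 15190040)))) (a (b (a (l 15185424) (l 15185872)) (a (l 15184408) (l 15187208))) (l 15191144))) (l 15199016)) (l 15218360)) (c (l 15253568) (l 15172320))) (c (l 15300128) (l 15221376))) (c (a (l 15350208) (l 15400016)) (a (l 15274120) (l 15326568)))) (c (a (a (b (l 15261616) (l 15270240)) (l 15316944)) (a (l 15367720) (l 15418208))) (a (a (b (l 15180736) (l 15189760)) (l 15238968)) (a (l 15292448) (l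 15345608))))) (c (b (a (a (l 15284256) (l 15336000)) (a (l 15387432) (l 15438552))) (a (a (l 15304840) (l 15357224)) (a (l 15409280) (l 15460992)))) (b (a (a (b (l 15199376) (l 15209592)) (l 15258928)) (a (l 15313096) (l 15366936))) (a (a (l 15226008) (l 15281184)) (a (l 15336008) (l 15390472)))))) (b (a (b (c (a (l 15449544) (l 15498776)) (a (l 15378720) (l 15430560))) (c (a (l 15468384) (l 15518248)) (a (l 15398448) (l 15450960)))) (b (c (l 15572008) (l 15507664)) (c (l 15592392) (l 15529032)))) (a (b (c (a (l 15489344) (l 15539808)) (a (l 15420424) (l 15473560))) (c (l 15537848) (a (l 15444568) (l 15498296)))) (b (c (l 15614800) (l 15552536)) (c (l 15639152) (l 15578104)))))), by decide +kernel⟩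

def k25_mm_202 : ∃ t, chk3 f_mm_202 t 9 12 3 = true :=
  ⟨(b (a (c (b (b (a (l 15653056) (l 15736248)) (a (l 15665296) (l 15749752))) (a (b (l 15679568) (l 15695816)) (b (l 15765224) (l 15782608)))) (b (a (b (c (l 15603328) (l 15541112)) (c (l 15616376) (l 15554720))) (b (c (l 15693504) (l 15636016)) (l 15658632))) (a (b (c (l 15631656) (l 15570672)) (c (l 15649088) (l 15588912))) (b (l 15675600) (l 15699944))))) (a (b (c (b (l 15818416) (l 15833120)) (b (l 15735248) (l 15751352))) (b (c (l 15870712) (l 15769592)) (l 14))) (b (b (c (l 15920496) (l 15825488)) (l 14)) (l 14)))) (a (a (b (c (b (l 15724448) (l 15744448)) (b (c (l 15668608) (l 15609360)) (c (l 15690144) (l 15631952)))) (c (b (l 15766216) (l 15800192)) (b (c (l 15713624) (l 15656600)) (c (l 15738984) (l 15683232))))) (a (b (b (b (l 15752008) (l 15762448)) (l 14)) (l 14)) (l 14))) (l 14))), by decide +kernel⟩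

def k26_mm_202 : ∃ t, chk3 f_mm_202 t 4 13 1 = true :=
  ⟨(a (b (a (c (b (b (c (c (l 15763200) (l 15695912)) (a (c (l 15648752) (l 15576680)) (l 15636112))) (a (c (l 15731384) (l 15570768)) (c (l 15849736) (l 15657784)))) (c (a (b (l 15793192) (l 15814360)) (b (l 15870264) (l 15892040))) (b (a (l 15593168) (c (l 15775848) (l 15711680))) (c (l 15714848) (l 15665112))))) (b (c (c (b (a (l 15461576) (l 15597760)) (a (l 15526144) (l 15621320))) (b (a (a (l 15404232) (l 15454416)) (l 15529016)) (a (l 15432168) (l 15553856)))) (a (b (c (a (l 15327568) (l 15380552)) (a (l 15249848) (l 15305656))) (c (a (l 15352368) (l 15405896)) (a (l 15275880) (l 15332280)))) (b (c (a (l 15433176) (l 15485440)) (a (l 15361088) (l 15416144))) (c (l 15485424) (l 15416056))))) (c (b (a (c (l 15550504) (l 15478832)) (l 15574304)) (a (c (l 15576544) (l 15506312)) (l 15599264))) (a (b (c (l 15406152) (l 15332472)) (c (l 15435104) (l 15362904))) (b (c (l 15513456) (l 15445520)) (l 15489904)))))) (a (c (b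 (c (b (l 15905176) (l 15925080)) (b (c (l 15814680) (l 15753160)) (l 15764552))) (b (c (l 15946224) (l 15788448)) (c (l 15968552) (l 15813736)))) (c (b (b (c (l 15690720) (l 15627352)) (l 15652784)) (b (l 15679536) (l 15697384))) (b (b (c (l 15563088) (l 15497928)) (c (l 15590216) (l 15526432))) (b (c (l 15619160) (l 15556864)) (l 15603864))))) (b (c (c (b (l 15978824) (l 15999352)) (b (l 15825904) (l 15849088))) (c (b (l 15721960) (l 15747896)) (b (c (l 15665392) (l 15605672)) (c (l 15693440) (l 15635152))))) (l 14)))) (b (b (a (b (c (c (l 15849048) (a (l 15698880) (l 15787888))) (a (c (l 15562704) (l 15422608)) (c (l 15662920) (l 15534352)))) (l 2)) (l 14)) (l 2)) (l 2))) (l 14)), by decide +kernel⟩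

def k27_mm_202 : ∃ t, chk3 f_mm_202 t 5 6 1 = true :=
  ⟨(l 14), by decide +kernel⟩

def k28_mm_202 : ∃ t, chk3 f_mm_202 t 2 7 1 = true :=
  ⟨(a (l 2) (l 14)), by decide +kernel⟩

def k29_mm_202 : ∃ t, chk3 f_mm_202 t 3 3 1 = true :=
  ⟨(l 14), by decide +kernel⟩

theorem s30_mm_202 : ∃ t, chk3 f_mm_202 t 8 24 7 = true := ex3_a k22_mm_202 k23_mm_202

theorem s31_mm_202 : ∃ t, chk3 f_mm_202 t 8 12 7 = true := ex3_b s30_mm_202 k24_mm_202

theorem s32_mm_202 : ∃ t, chk3 f_mm_202 t 8 12 6 = true := ex3_b k20_mm_202 k21_mm_202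

theorem s33_mm_202 : ∃ t, chk3 f_mm_202 t 8 12 3 = true := ex3_c s32_mm_202 s31_mm_202

theorem s34_mm_202 : ∃ t, chk3 f_mm_202 t 4 12 3 = true := ex3_a s33_mm_202 k25_mm_202

theorem s35_mm_202 : ∃ t, chk3 f_mm_202 t 8 24 2 = true := ex3_a k16_mm_202 k17_mm_202

theorem s36_mm_202 : ∃ t, chk3 f_mm_202 t 8 12 2 = true := ex3_b s35_mm_202 k18_mm_202

theorem s37_mm_202 : ∃ t, chk3 f_mm_202 t 4 12 2 = true := ex3_a s36_mm_202 k19_mm_202

theorem s38_mm_202 : ∃ t, chk3 f_mm_202 t 4 12 1 = true := ex3_c s37_mm_202 s34_mm_202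

theorem s39_mm_202 : ∃ t, chk3 f_mm_202 t 4 6 1 = true := ex3_b s38_mm_202 k26_mm_202

theorem s40_mm_202 : ∃ t, chk3 f_mm_202 t 2 6 1 = true := ex3_a s39_mm_202 k27_mm_202

theorem s41_mm_202 : ∃ t, chk3 f_mm_202 t 2 3 1 = true := ex3_b s40_mm_202 k28_mm_202

theorem s42_mm_202 : ∃ t, chk3 f_mm_202 t 1 3 1 = true := ex3_a s41_mm_202 k29_mm_202

theorem s43_mm_202 : ∃ t, chk3 f_mm_202 t 6 8 1 = true := ex3_a k11_mm_202 k12_mm_202

theorem s44_mm_202 : ∃ t, chk3 f_mm_202 t 3 8 1 = true := ex3_a s43_mm_202 k13_mm_202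

theorem s45_mm_202 : ∃ t, chk3 f_mm_202 t 3 4 1 = true := ex3_b s44_mm_202 k14_mm_202

theorem s46_mm_202 : ∃ t, chk3 f_mm_202 t 3 2 1 = true := ex3_b s45_mm_202 k15_mm_202

theorem s47_mm_202 : ∃ t, chk3 f_mm_202 t 5 5 1 = true := ex3_b k9_mm_202 k10_mm_202

theorem s48_mm_202 : ∃ t, chk3 f_mm_202 t 16 23 1 = true := ex3_c k5_mm_202 k6_mm_202

theorem s49_mm_202 : ∃ t, chk3 f_mm_202 t 8 23 1 = true := ex3_a s48_mm_202 k7_mm_202

theorem s50_mm_202 : ∃ t, chk3 f_mm_202 t 8 11 1 = true := ex3_b k4_mm_202 s49_mm_202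

theorem s51_mm_202 : ∃ t, chk3 f_mm_202 t 4 11 1 = true := ex3_a s50_mm_202 k8_mm_202

theorem s52_mm_202 : ∃ t, chk3 f_mm_202 t 4 5 1 = true := ex3_b k3_mm_202 s51_mm_202

theorem s53_mm_202 : ∃ t, chk3 f_mm_202 t 2 5 1 = true := ex3_a s52_mm_202 s47_mm_202

theorem s54_mm_202 : ∃ t, chk3 f_mm_202 t 5 4 1 = true := ex3_b k1_mm_202 k2_mm_202

theorem s55_mm_202 : ∃ t, chk3 f_mm_202 t 2 4 1 = true := ex3_a k0_mm_202 s54_mm_202

theorem s56_mm_202 : ∃ t, chk3 f_mm_202 t 2 2 1 = true := ex3_b s55_mm_202 s53_mm_202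

theorem s57_mm_202 : ∃ t, chk3 f_mm_202 t 1 2 1 = true := ex3_a s56_mm_202 s46_mm_202

theorem s58_mm_202 : ∃ t, chk3 f_mm_202 t 1 1 1 = true := ex3_b s57_mm_202 s42_mm_202

theorem c_mm_202 : CertB 0 536870912 0 536870912 991146299 28908434 3 eng mog cd0q2 cd0q0 pd2 true false false .pp 2 0 2
    ndB0q2 ndB0q0 pcB2 cut_mm_202 Ext.none :=
  certB0 (fam := true) (s1 := false) (s2 := false) (a := 2) (b := 0) (c := 2) (cn := .pp) (n1 := ndB0q2) (n2 := ndB0q0) (pc := pcB2) (cut := cut_mm_202) (xt := Ext.none) (P1 := 0) (W1 := 536870912) (P2 := 0) (W2 := 536870912) (P3 := 991146299) (W3 := 28908434) (N0 := 3) (En := eng) (mo := mog) (C1 := cd0q2) (C2 := cd0q0) (C3 := pd2)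
    rfl s58_mm_202

noncomputable def cut_mm_203 : Cut := Cut.of [[⟨3, 0, 0, 1449551462⟩], [⟨4, 0, 0, 2845415833⟩]]

noncomputable def f_mm_203 : ℕ → ℕ → ℕ → ℕ → Bool := onCell 0 536870912 1610612736 536870912 991146299 28908434
    (rowB 3 eng mog cd0q2 cd0q0 pd3 1 true false false .up 2 0 3 (qsf 0 536870912 0 536870912 3) ndB0q2 ndB0q0 pcB3 cut_mm_203 Ext.none)

def k0_mm_203 : ∃ t, chk3 f_mm_203 t 1 1 1 = true :=
  ⟨(a (b (b (b (a (a (a (b (b (l 16307192) (l 16328000)) (l 14)) (l 14)) (l 14)) (l 14)) (l 14)) (l 14)) (l 2)) (l 14)), by decide +kernel⟩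

theorem c_mm_203 : CertB 0 536870912 0 536870912 991146299 28908434 3 eng mog cd0q2 cd0q0 pd3 true false false .up 2 0 3
    ndB0q2 ndB0q0 pcB3 cut_mm_203 Ext.none :=
  certB1 (fam := true) (s1 := false) (s2 := false) (a := 2) (b := 0) (c := 3) (cn := .up) (n1 := ndB0q2) (n2 := ndB0q0) (pc := pcB3) (cut := cut_mm_203) (xt := Ext.none) (P1 := 0) (W1 := 536870912) (P2 := 0) (W2 := 536870912) (P3 := 991146299) (W3 := 28908434) (N0 := 3) (En := eng) (mo := mog) (C1 := cd0q2) (C2 := cd0q0) (C3 := pd3)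
    rfl (fun _ => rfl) k0_mm_203

noncomputable def cut_mm_213 : Cut := Cut.of [[⟨3, 0, 0, 1449551462⟩], [⟨4, 0, 0, 2845415833⟩]]

noncomputable def f_mm_213 : ℕ → ℕ → ℕ → ℕ → Bool := onCell 0 536870912 536870912 536870912 991146299 28908434
    (rowB 3 eng mog cd0q2 cd0q1 pd3 0 true false false .pnn 2 1 3 (qsf 0 536870912 536870912 536870912 3) ndB0q2 ndB0q1 pcB3 cut_mm_213 Ext.none)

def k0_mm_213 : ∃ t, chk3 f_mm_213 t 1 1 1 = true :=
  ⟨(a (l 14) (l 4)), by decide +kernel⟩

theorem c_mm_213 : CertB 0 536870912 536870912 536870912 991146299 28908434 3 eng mog cd0q2 cd0q1 pd3 true false false .pnn 2 1 3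
    ndB0q2 ndB0q1 pcB3 cut_mm_213 Ext.none :=
  certB0 (fam := true) (s1 := false) (s2 := false) (a := 2) (b := 1) (c := 3) (cn := .pnn) (n1 := ndB0q2) (n2 := ndB0q1) (pc := pcB3) (cut := cut_mm_213) (xt := Ext.none) (P1 := 0) (W1 := 536870912) (P2 := 536870912) (W2 := 536870912) (P3 := 991146299) (W3 := 28908434) (N0 := 3) (En := eng) (mo := mog) (C1 := cd0q2) (C2 := cd0q1) (C3 := pd3)
    rfl k0_mm_213

end Pool.Agent.Strip051.G.I9231_9500.Tab.C.BA00

namespace Pool.Agent.Strip051.G.I9231_9500.Tab.C.BA01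

open Pool.Agent.Strip051.PB Pool.Agent.Strip051.PB.T
open Pool.Agent.Strip051.G.I9231_9500.Tab

noncomputable def f_pp_001 : ℕ → ℕ → ℕ → ℕ → Bool := onCell 0 536870912 0 536870912 991146299 28908434
    (rowB 3 eng mog cd0q0 cd1q0 pd1 0 true true true .up 0 0 1 (qsf 0 536870912 0 536870912 1) ndB0q0 ndB1q0 pcB1 Cut.none Ext.none)

def k0_pp_001 : ∃ t, chk3 f_pp_001 t 1 1 1 = true :=
  ⟨(l 4), by decide +kernel⟩

theorem c_pp_001 : CertB 0 536870912 0 536870912 991146299 28908434 3 eng mog cd0q0 cd1q0 pd1 true true true .up 0 0 1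
    ndB0q0 ndB1q0 pcB1 Cut.none Ext.none :=
  certB0 (fam := true) (s1 := true) (s2 := true) (a := 0) (b := 0) (c := 1) (cn := .up) (n1 := ndB0q0) (n2 := ndB1q0) (pc := pcB1) (cut := Cut.none) (xt := Ext.none) (P1 := 0) (W1 := 536870912) (P2 := 0) (W2 := 536870912) (P3 := 991146299) (W3 := 28908434) (N0 := 3) (En := eng) (mo := mog) (C1 := cd0q0) (C2 := cd1q0) (C3 := pd1)
    rfl k0_pp_001

noncomputable def f_pp_011 : ℕ → ℕ → ℕ → ℕ → Bool := onCell 0 536870912 536870912 536870912 991146299 28908434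
    (rowB 3 eng mog cd0q0 cd1q1 pd1 0 true true true .pnn 0 1 1 (qsf 0 536870912 536870912 536870912 1) ndB0q0 ndB1q1 pcB1 Cut.none Ext.none)

def k0_pp_011 : ∃ t, chk3 f_pp_011 t 1 1 1 = true :=
  ⟨(l 4), by decide +kernel⟩

theorem c_pp_011 : CertB 0 536870912 536870912 536870912 991146299 28908434 3 eng mog cd0q0 cd1q1 pd1 true true true .pnn 0 1 1
    ndB0q0 ndB1q1 pcB1 Cut.none Ext.none :=
  certB0 (fam := true) (s1 := true) (s2 := true) (a := 0) (b := 1) (c := 1) (cn := .pnn) (n1 := ndB0q0) (n2 := ndB1q1) (pc := pcB1) (cut := Cut.none) (xt := Ext.none) (P1 := 0) (W1 := 536870912) (P2 := 536870912) (W2 := 536870912) (P3 := 991146299) (W3 := 28908434) (N0 := 3) (En := eng) (mo := mog) (C1 := cd0q0) (C2 := cd1q1) (C3 := pd1)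
    rfl k0_pp_011

noncomputable def f_pp_012 : ℕ → ℕ → ℕ → ℕ → Bool := onCell 0 536870912 536870912 536870912 991146299 28908434
    (rowB 3 eng mog cd0q0 cd1q1 pd2 0 true true true .pnp 0 1 2 (qsf 0 536870912 536870912 536870912 2) ndB0q0 ndB1q1 pcB2 Cut.none Ext.none)

def k0_pp_012 : ∃ t, chk3 f_pp_012 t 1 1 1 = true :=
  ⟨(l 4), by decide +kernel⟩

theorem c_pp_012 : CertB 0 536870912 536870912 536870912 991146299 28908434 3 eng mog cd0q0 cd1q1 pd2 true true true .pnp 0 1 2
    ndB0q0 ndB1q1 pcB2 Cut.none Ext.none :=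
  certB0 (fam := true) (s1 := true) (s2 := true) (a := 0) (b := 1) (c := 2) (cn := .pnp) (n1 := ndB0q0) (n2 := ndB1q1) (pc := pcB2) (cut := Cut.none) (xt := Ext.none) (P1 := 0) (W1 := 536870912) (P2 := 536870912) (W2 := 536870912) (P3 := 991146299) (W3 := 28908434) (N0 := 3) (En := eng) (mo := mog) (C1 := cd0q0) (C2 := cd1q1) (C3 := pd2)
    rfl k0_pp_012

noncomputable def cut_pp_022_a : Cut := Cut.of [[⟨0, 0, 0, 53687091⟩, ⟨1, 1, 0, 53687091⟩, ⟨2, 1, 0, 53687091⟩]]

noncomputable def f_pp_022_a : ℕ → ℕ → ℕ → ℕ → Bool := onCell 1073741824 536870912 0 536870912 991146299 28908434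
    (rowB 3 eng mog cd0q0 cd1q2a pd2 2 true true true .pp 0 2 2 (qsf 0 536870912 0 536870912 2) ndB0q0 ndB1q2a pcB2 cut_pp_022_a Ext.none)

def k0_pp_022_a : ∃ t, chk3 f_pp_022_a t 4 2 1 = true :=
  ⟨(a (l 1) (b (l 1) (a (l 1) (b (l 1) (b (l 1) (a (l 1) (a (l 1) (c (l 16244360) (l 16215208))))))))), by decide +kernel⟩

def k1_pp_022_a : ∃ t, chk3 f_pp_022_a t 8 6 1 = true :=
  ⟨(l 1), by decide +kernel⟩

def k2_pp_022_a : ∃ t, chk3 f_pp_022_a t 18 6 1 = true :=
  ⟨(b (l 1) (a (b (l 1) (a (l 1) (a (b (l 1) (c (b (l 16396688) (l 16426128)) (b (l 16364096) (l 16397184)))) (b (c (l 16369400) (l 16334800)) (c (b (l 16411984) (l 16440872)) (b (l 16382640) (l 16414992))))))) (b (a (a (l 1) (b (l 1) (c (l 16347096) (l 16312728)))) (a (b (l 1) (c (l 16373728) (l 16332336))) (b (c (l 16329376) (l 16296024)) (c (l 16379088) (l 16351512))))) (c (a (b (a (b (l 16371296) (l 16398888)) (l 16421416)) (a (l 16461992) (l 16476248))) (b (a (l 16415488) (l 16430240)) (a (l 16469240) (l 16482928))))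 (a (b (a (l 16382712) (l 16393432)) (a (l 16416432) (l 16433568))) (b (c (l 16405464) (l 16393504)) (a (l 16450280) (l 16466592)))))))), by decide +kernel⟩

def k3_pp_022_a : ∃ t, chk3 f_pp_022_a t 19 6 1 = true :=
  ⟨(b (a (a (b (l 1) (b (l 1) (c (a (l 16298840) (l 16316336)) (l 16305632)))) (b (c (l 16278984) (l 16240712)) (c (b (l 16298992) (l 16342096)) (b (l 16268064) (l 16315936))))) (b (c (a (b (l 16256816) (l 16295104)) (b (l 16295936) (l 16332096))) (a (b (l 16224904) (l 16267456)) (l 16292272))) (c (a (b (l 16334712) (l 16375680)) (b (l 16369616) (l 16408536))) (a (b (l 16311240) (l 16356296)) (b (l 16353096) (l 16395432)))))) (a (b (c (a (b (a (l 16346048) (l 16362448)) (a (l 16394656) (l 16409976))) (b (l 16386592) (a (l 16425072) (l 16439960)))) (a (b (a (l 16316240) (l 16336064)) (c (l 16385328) (l 16373648))) (b (l 16365104) (l 16357944)))) (c (a (b (a (l 16444736) (l 16459000)) (a (l 16496368) (l 16509592))) (b (a (l 16473056) (l 16486920)) (a (l 16522624) (l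 16535480)))) (a (b (a (l 16425696) (l 16442680)) (a (l 16482544) (l 16498152))) (b (a (l 16459336) (l 16475696)) (a (l 16513448) (l 16528464)))))) (b (b (c (a (l 16418088) (l 16448928)) (a (l 16402680) (l 16439144))) (c (a (a (l 16454680) (l 16469240)) (l 16490840)) (a (l 16450472) (l 16484288)))) (a (c (b (a (l 16500624) (l 16514200)) (a (l 16548208) (l 16560816))) (b (a (l 16491776) (l 16507616)) (a (l 16543224) (l 16557768)))) (c (b (a (l 16527680) (l 16541000)) (a (l 16573336) (l 16585784))) (b (l 16489016) (a (l 16572128) (l 16586312)))))))), by decide +kernel⟩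

def k4_pp_022_a : ∃ t, chk3 f_pp_022_a t 16 7 1 = true :=
  ⟨(b (l 1) (l 6)), by decide +kernel⟩

def k5_pp_022_a : ∃ t, chk3 f_pp_022_a t 34 7 1 = true :=
  ⟨(b (b (l 1) (b (l 1) (l 6))) (l 6)), by decide +kernel⟩

def k6_pp_022_a : ∃ t, chk3 f_pp_022_a t 35 14 1 = true :=
  ⟨(b (a (l 1) (b (l 1) (a (b (l 1) (a (c (l 16489136) (l 16462888)) (c (l 16496464) (l 16471712)))) (c (b (a (l 16470928) (l 16478296)) (l 16517736)) (b (a (l 16443520) (l 16452408)) (l 16484664)))))) (b (b (a (a (l 1) (c (a (l 16508360) (l 16515656)) (a (l 16483456) (l 16492224)))) (c (a (c (l 16531536) (l 16521160)) (l 16550776)) (a (c (l 16510512) (l 16499600)) (l 16521728)))) (a (c (a (a (l 16539080) (l 16546344)) (c (l 16551328) (l 16541672))) (a (a (l 16515712) (l 16524424)) (c (l 16531768) (l 16521608)))) (c (a (c (l 16564520) (l 16556168)) (c (l 16577280) (l 16570168))) (c (a (l 16547600) (l 16562880)) (a (l 16538832) (l 16555424)))))) (a (a (a (l 6) (c (b (l 16571184) (l 16617432)) (b (l 16553720)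 (l 16593896)))) (c (b (c (l 16585224) (l 16577664)) (c (l 16619568) (l 16614088))) (b (c (l 16569920) (l 16561976)) (c (l 16608480) (l 16602736))))) (c (a (b (c (l 16597936) (l 16591592)) (c (l 16631808) (l 16627456))) (b (c (l 16610224) (l 16605032)) (c (l 16643624) (l 16640344)))) (a (b (c (l 16585096) (l 16578448)) (c (l 16623008) (l 16618464))) (b (c (l 16599720) (l 16594296)) (c (l 16636984) (l 16633568)))))))), by decide +kernel⟩

def k7_pp_022_a : ∃ t, chk3 f_pp_022_a t 35 60 1 = true :=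
  ⟨(a (a (a (l 6) (a (l 6) (c (b (l 16644768) (b (l 16672160) (l 16690584))) (b (l 16636384) (b (l 16667024) (l 16687592)))))) (b (c (c (b (l 16645608) (l 16663128)) (b (l 16641688) (l 16660232))) (c (b (l 16637672) (l 16657272)) (b (l 16633568) (l 16654256)))) (c (c (a (l 16665784) (l 16671544)) (a (l 16664168) (l 16670424))) (c (a (l 16662528) (l 16669288)) (a (l 16660856) (l 16668144)))))) (c (b (a (c (b (l 16657504) (l 16674792)) (b (l 16654640) (l 16672912))) (c (b (l 16668976) (l 16686032)) (b (l 16667104) (l 16685104)))) (a (c (a (l 16677200) (l 16682752)) (a (l 16676552) (l 16682568))) (c (a (l 16688200) (l 16693544)) (a (l 16688464) (l 16694232))))) (b (a (c (b (l 16651720) (l 16671000)) (l 16627440)) (c (l 16643232) (l 16631320))) (b (a (c (l 16690392) (l 16689488)) (c (l 16703256) (l 16703312))) (a (c (l 16688928) (l 16689048)) (c (l 16701472) (l 16702512))))))), by decide +kernel⟩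

def k8_pp_022_a : ∃ t, chk3 f_pp_022_a t 35 61 1 = true :=
  ⟨(a (a (a (l 6) (a (l 6) (b (c (b (l 16709128) (l 16706824)) (b (l 16708280) (l 16708104))) (b (c (l 16725608) (l 16729008)) (b (c (l 16749096) (l 68954304695)) (l 4)))))) (b (c (b (a (l 16692592) (l 16698416)) (c (a (l 16710696) (l 16716176)) (a (l 16711640) (l 16717560)))) (c (b (l 16695776) (a (l 16712632) (l 16719000))) (b (l 16695984) (l 16717096)))) (b (c (a (a (l 16728448) (b (l 16726584) (l 16735592))) (b (l 16736008) (c (l 16747152) (l 16739080)))) (a (c (l 16741848) (l 16734760)) (b (l 16735176) (a (l 16745536) (l 16746168))))) (a (a (b (c (l 16750424) (l 16746616)) (l 4)) (l 4)) (l 4))))) (b (c (a (a (b (l 16704120) (c (l 16721544) (l 16723352))) (b (l 16709712) (c (l 16731808) (l 16728752)))) (a (b (l 16715200) (b (l 16728688) (b (l 16744856) (l 16736536)))) (b (l 16720568) (c (l 70564900647) (l 70028033943))))) (c (a (b (l 16708552) (a (l 16725232) (l 16731024))) (b (l 16720784) (a (c (l 16734832) (l 16735760))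 (l 67343685287)))) (a (a (l 16708880) (b (l 16713032) (l 16733376))) (b (l 16722800) (a (l 72175515319) (l 70028035719)))))) (b (b (a (c (a (a (l 16734472) (l 16736200)) (l 68954300039)) (a (a (l 16734544) (l 16745072)) (l 68417424535))) (l 4)) (l 4)) (l 4)))), by decide +kernel⟩

def k9_pp_022_a : ∃ t, chk3 f_pp_022_a t 35 31 1 = true :=
  ⟨(l 4), by decide +kernel⟩

def k10_pp_022_a : ∃ t, chk3 f_pp_022_a t 36 14 1 = true :=
  ⟨(b (a (a (b (b (l 1) (c (l 16469896) (l 16440328))) (c (b (l 16489136) (l 16521224)) (b (l 16465448) (l 16501416)))) (b (c (b (l 16441280) (l 16472032)) (b (l 16412912) (l 16447432))) (c (b (l 16503184) (l 16534744)) (b (l 16482304) (l 16517560))))) (c (b (a (b (l 16455952) (l 16486160)) (c (l 16490024) (l 16479896))) (a (b (l 16516776) (l 16547808)) (b (l 16529904) (l 16560408)))) (b (c (a (l 16453504) (l 16469520)) (a (l 16441440) (l 16458896))) (a (b (l 16498568) (l 16533120)) (b (l 16514232) (l 16548072)))))) (a (b (b (a (c (l 16553736) (l 16537760))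 (c (l 16566728) (l 16553208))) (c (c (a (l 16589632) (l 16601552)) (a (l 16583688) (l 16596712))) (a (c (l 16577600) (l 16571384)) (c (l 16591768) (l 16586712))))) (c (c (b (a (l 16622096) (l 16633552)) (a (l 16655032) (l 16666016))) (b (a (l 16617992) (l 16630456)) (a (l 16652744) (l 16664656)))) (a (b (c (l 16613792) (l 16609512)) (c (l 16650416) (l 16648048))) (b (c (l 16627312) (l 16624104)) (c (l 16663288) (l 16661912)))))) (b (b (c (a (l 16579264) (l 16591344)) (c (l 16535848) (l 16551664))) (c (a (c (l 16613056) (l 16609256)) (c (l 16624136) (l 16621304))) (a (c (l 16605376) (l 16601424)) (l 16585512)))) (c (c (b (a (l 16644584) (l 16655200)) (a (l 16655616) (l 16665760))) (b (a (l 16642448) (l 16653936)) (a (l 16676096) (l 16666072)))) (a (b (c (l 16640272) (l 16638080)) (a (l 16651272) (l 16657520))) (b (c (l 16652680) (l 16651424)) (c (l 16666416) (l 16666808)))))))), by decide +kernel⟩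

def k11_pp_022_a : ∃ t, chk3 f_pp_022_a t 37 14 1 = true :=
  ⟨(b (c (a (b (a (c (l 16502888) (l 16494056)) (c (l 16515464) (l 16507856))) (a (b (l 16542616) (l 16572592)) (b (l 16555008) (l 16584464)))) (b (c (a (l 16527784) (l 16539872)) (b (l 16513712) (l 16542216))) (a (b (l 16567120) (l 16596064)) (b (l 16578992) (l 16607424))))) (a (b (c (a (l 16485008) (l 16500072)) (a (l 16475752) (l 16492120))) (a (b (l 16529328) (l 16562472)) (b (l 16543984) (l 16576424)))) (b (c (b (l 16507016) (l 16536912)) (b (l 16500184) (l 16531504))) (a (b (l 16558240) (l 16590000)) (b (l 16572128) (l 16603216)))))) (b (b (c (a (a (l 16603008) (l 16614368)) (a (l 16625456) (l 16636320))) (a (c (l 16583248) (l 16580192)) (c (l 16608120) (l 16606920)))) (a (a (c (c (l 16634840) (l 16632912)) (l 16609016)) (c (c (l 16645264) (l 16644184)) (l 16621600))) (a (c (l 16634344) (l 16633824)) (c (l 16644704) (l 16645696))))) (a (c (a (b (c (l 16665432) (l 16664992)) (c (l 16675536) (l 16676576))) (b (c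 (l 16675392) (l 16675720)) (c (l 16685040) (l 16686768)))) (b (a (c (l 16664584) (l 16664200)) (c (l 16676096) (l 16676520))) (a (c (l 16677688) (l 16678864)) (c (l 16688576) (l 16690472))))) (c (b (a (b (l 16678000) (l 16672320)) (a (l 16693072) (l 16676984))) (a (c (l 16694328) (l 16696680)) (b (l 16697256) (a (l 16710024) (l 16713568))))) (a (b (b (l 16679536) (l 16675208)) (c (l 16699136) (l 16701696))) (b (a (l 16675328) (l 16680856)) (b (l 16702720) (a (l 16716432) (l 16720336))))))))), by decide +kernel⟩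

def k12_pp_022_a : ∃ t, chk3 f_pp_022_a t 19 28 1 = true :=
  ⟨(a (c (a (b (a (b (l 16536096) (l 16563152)) (b (l 16548552) (l 16575104))) (a (b (l 16590640) (l 16618576)) (b (l 16602088) (l 16629536)))) (a (b (l 16531920) (b (l 16613384) (l 16640336))) (b (l 16564768) (b (l 16624528) (l 16651040))))) (a (a (b (l 16498968) (b (l 16585688) (l 16616096))) (b (l 16534192) (b (l 16598936) (l 16628688)))) (b (c (l 16555976) (l 16554072)) (a (b (l 16611904) (l 16641008)) (b (l 16624640) (l 16653128)))))) (c (a (a (b (l 16576520) (b (l 16635600) (l 16661544))) (b (l 16588256) (c (l 16637304) (l 16639080)))) (b (c (l 16583896) (l 16585112)) (a (c (l 16647376) (l 16649728)) (c (l 16656976) (l 16659824))))) (a (b (c (l 16561232) (l 16561104)) (a (b (l 16637184) (l 16664944)) (c (l 16640960) (l 16642960)))) (b (a (l 16601720) (l 16614408)) (a (l 16627272) (l 16643400)))))), by decide +kernel⟩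

def k13_pp_022_a : ∃ t, chk3 f_pp_022_a t 19 29 1 = true :=
  ⟨(a (b (b (a (c (c (l 16631112) (l 16631416)) (c (l 16631776) (l 16632192))) (c (c (l 16651120) (l 16652736)) (a (l 16649616) (l 16661000)))) (a (a (c (l 16654864) (l 16657264)) (c (l 16664880) (l 16668576))) (c (a (l 16674656) (l 16684152)) (c (l 16662440) (l 16665280))))) (a (b (c (a (c (l 16683112) (l 16685400)) (c (l 16692264) (l 16695104))) (a (c (l 16687800) (l 16690304)) (c (l 16698064) (l 16701144)))) (b (c (a (c (l 16704696) (l 16707824)) (a (l 16711792) (l 16714272))) (a (b (l 16709072) (l 16716664)) (a (l 16718864) (l 16742456)))) (a (b (c (l 70027984247) (l 70027997639)) (l 4)) (l 4)))) (b (a (a (c (l 16700264) (l 16706912)) (c (l 72175429255) (l 72175440471))) (a (c (l 72175437671) (l 72712320791)) (c (l 72712316695) (l 125325680583)))) (l 4)))) (b (a (a (b (c (l 16666832) (l 16672016)) (c (l 16682656) (l 16689552))) (b (c (l 16676312) (l 16682504)) (c (b (l 16695448) (l 16706392)) (a (l 16706664) (l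 16705088))))) (a (b (c (l 16685392) (l 16692472)) (c (b (l 16702968) (l 141968677799)) (b (l 16710928) (l 147337413591)))) (c (b (l 16693752) (l 144116150743)) (b (l 16680592) (l 126936312983))))) (a (a (b (b (c (l 72712321911) (l 125862557495)) (l 4)) (l 4)) (l 4)) (l 4)))), by decide +kernel⟩

def k14_pp_022_a : ∃ t, chk3 f_pp_022_a t 36 30 1 = true :=
  ⟨(b (a (a (b (c (c (b (l 16680032) (l 16696856)) (b (l 16679096) (l 16696816))) (c (l 16656024) (l 16666048))) (c (b (c (l 16692832) (l 16693688)) (c (l 16709912) (l 16711656))) (c (b (l 16694592) (l 16713472)) (b (l 16695552) (l 16715368))))) (c (b (c (c (l 16677912) (l 16678080)) (c (l 16678256) (l 16678448))) (a (b (l 16701224) (l 16718560)) (b (l 16706400) (c (l 16721824) (l 16724432))))) (b (c (l 16668264) (l 16679184)) (a (b (l 16704256) (l 16723344)) (b (l 16710200) (c (l 16727144) (l 16729960))))))) (b (c (a (c (a (l 16685616) (l 16690568)) (l 16681376)) (c (a (l 16695416) (l 16700160)) (a (l 16697096) (l 16702184))))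 (c (a (l 16679960) (l 16691104)) (a (l 16670736) (l 16682640)))) (a (c (b (c (l 16712776) (l 16715128)) (a (b (l 16724016) (l 16729672)) (l 68954273623))) (b (c (l 16717584) (l 16720120)) (a (c (l 16730888) (l 16732360)) (b (l 16733296) (l 4))))) (b (c (a (c (l 16719232) (l 16722024)) (a (l 16723304) (l 16724592))) (a (a (l 16725536) (l 16727656)) (b (l 16727512) (l 16732896)))) (l 4))))) (a (b (a (a (b (c (c (l 16724272) (l 16726680)) (c (l 16729184) (l 16731776))) (c (l 119420159383) (c (l 16750016) (l 124788871847)))) (b (c (b (l 16726432) (l 69491158407)) (b (l 16731784) (l 57680007911))) (l 4))) (b (a (b (c (l 71101764039) (l 16744064)) (l 4)) (c (l 67880547255) (l 122641384055))) (l 4))) (l 4)) (l 4))), by decide +kernel⟩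

def k15_pp_022_a : ∃ t, chk3 f_pp_022_a t 37 30 1 = true :=
  ⟨(b (a (b (c (a (b (a (l 16718776) (l 16702608)) (a (l 16714096) (l 71638600455))) (b (a (l 16707344) (l 16711904)) (a (l 70027996551) (l 16722976)))) (a (c (b (l 16703544) (l 16720184)) (b (l 16705872) (l 16723224))) (b (c (l 16713856) (l 16716840)) (a (l 70028008407) (l 16739984))))) (a (a (b (c (l 68417397943) (l 60364349463)) (l 4)) (l 4)) (l 4))) (b (b (a (c (a (l 16715624) (l 16718440)) (c (l 16721568) (l 16724952))) (a (c (l 16720384) (l 16727152)) (l 4))) (l 4)) (l 4))) (l 4)), by decide +kernel⟩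

def k16_pp_022_a : ∃ t, chk3 f_pp_022_a t 18 31 1 = true :=
  ⟨(l 4), by decide +kernel⟩

def k17_pp_022_a : ∃ t, chk3 f_pp_022_a t 19 15 1 = true :=
  ⟨(l 4), by decide +kernel⟩

def k18_pp_022_a : ∃ t, chk3 f_pp_022_a t 10 2 1 = true :=
  ⟨(b (a (a (l 1) (a (b (l 1) (c (l 16170496) (l 16147520))) (b (b (l 16167608) (l 16182960)) (c (l 16226880) (l 16216856))))) (b (a (b (l 16190144) (l 16242912)) (b (l 16286008) (l 16308344))) (a (c (l 16287296) (l 16274496)) (b (l 16314656) (l 16305416))))) (a (b (a (a (l 1) (c (l 16237208) (l 16170088))) (c (b (l 16248080) (l 16287752)) (b (l 16237280) (l 16280456)))) (a (c (b (a (l 16225120) (l 16269136)) (a (l 16285504) (l 16325280))) (b (a (l 16198416) (l 16251952)) (a (l 16265112) (l 16313072)))) (c (b (l 16311512) (a (l 16363720) (l 16400872))) (b (l 16307496) (l 16276608))))) (c (b (a (b (l 16344352) (l 16375616)) (a (l 16425608) (l 16467616))) (a (b (l 16391216) (l 16370760)) (a (l 16403360) (b (l 16504512) (l 16536616))))) (b (a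 (l 16244880) (l 16348704)) (a (a (l 16360664) (l 16383320)) (b (l 16469712) (l 16459928))))))), by decide +kernel⟩

def k19_pp_022_a : ∃ t, chk3 f_pp_022_a t 11 2 1 = true :=
  ⟨(b (a (a (b (c (l 16466104) (l 16407824)) (b (l 16359632) (l 16358296))) (b (c (l 16346384) (l 16244672)) (c (l 16397752) (l 16265880)))) (c (a (b (l 16258024) (l 16285128)) (b (l 16160320) (b (l 16329552) (l 16373968)))) (b (a (l 16157632) (b (l 16121784) (l 16174360))) (a (l 16159192) (b (l 16228112) (l 16282976)))))) (a (b (a (c (l 16422304) (l 16368336)) (c (b (l 16481232) (l 16512024)) (a (l 16409824) (l 16385912)))) (a (a (b (l 16492104) (l 16496368)) (b (l 16523488) (l 16513208))) (c (b (l 16545304) (l 16581928)) (b (l 16483752) (a (l 16524704) (l 16536776)))))) (b (a (c (a (l 16472160) (l 16396128)) (b (l 16373952) (l 16401152))) (c (b (l 16420128) (l 16447480)) (b (l 16339640) (l 16398584)))) (c (a (b (l 16528176) (l 16573856)) (b (l 16477464) (a (l 16551880) (l 16553624)))) (a (b (l 16431648)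 (l 16444184)) (b (l 16397384) (c (l 16537696) (l 16512744)))))))), by decide +kernel⟩

def k20_pp_022_a : ∃ t, chk3 f_pp_022_a t 20 6 1 = true :=
  ⟨(b (a (c (b (a (l 16351040) (l 16386704)) (a (b (l 16403504) (l 16440432)) (l 16411792))) (b (a (l 16336648) (l 16379184)) (a (l 16350408) (l 16429632)))) (a (b (c (l 16421136) (l 16419944)) (c (l 16463328) (l 16465264))) (b (c (l 16454368) (l 16458984)) (c (l 16471904) (l 16478416))))) (a (c (b (a (b (l 16478864) (l 16518864)) (b (l 16507680) (l 16545880))) (a (b (l 16518656) (a (l 16597872) (l 16609544))) (b (l 16564488) (a (l 16620832) (l 16631456))))) (b (a (b (l 16474208) (l 16516800)) (b (l 16507648) (l 16547824))) (a (b (l 16519120) (a (l 16600000) (l 16613152))) (b (l 16568312) (a (l 16625792) (l 16637616)))))) (b (a (c (b (l 16535472) (l 16571472)) (b (l 16539584) (l 16576912))) (c (b (l 16561688) (l 16595240)) (b (l 16569408) (l 16582664)))) (b (c (a (l 16587640) (l 16608224)) (a (l 16594288) (l 16617120))) (c (a (l 16604232)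 (l 16621296)) (a (l 16611928) (a (l 16647096) (l 16655640)))))))), by decide +kernel⟩

def k21_pp_022_a : ∃ t, chk3 f_pp_022_a t 21 6 1 = true :=
  ⟨(b (a (a (b (c (l 16486584) (l 16496504)) (c (l 16520824) (l 16510400))) (b (c (l 16517304) (l 16511000)) (c (l 16546968) (l 16540040)))) (b (c (a (l 16525376) (l 16572768)) (a (l 16565224) (l 16595232))) (a (c (l 16549000) (l 16607824)) (a (l 16553008) (l 16563024))))) (a (b (c (a (b (l 16586016) (l 16616352)) (b (l 16607536) (l 16613528))) (a (b (l 16596808) (l 16606136)) (a (l 16607808) (l 16597064)))) (a (b (c (l 16625880) (l 16657392)) (c (l 16635816) (a (l 16663304) (l 16670160)))) (b (c (l 16641048) (l 16673632)) (c (l 16647920) (l 16689936))))) (b (a (c (b (l 16605112) (l 16629312)) (b (l 16641160) (l 16663984))) (c (b (l 16642080) (l 16663576)) (l 16626376))) (a (b (c (l 16653800) (l 16686912)) (a (c (l 16676864) (l 16708392)) (c (l 16681456) (l 16712848)))) (b (c (l 16664888) (l 16698056)) (c (a (l 16685464) (l 114588195767))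 (a (l 16695688) (l 100092733207)))))))), by decide +kernel⟩

def k22_pp_022_a : ∃ t, chk3 f_pp_022_a t 10 7 1 = true :=
  ⟨(b (a (b (a (a (c (b (a (l 16621984) (l 16632240)) (a (l 16646640) (l 16655200))) (b (a (l 16626584) (l 16637968)) (a (l 16653528) (l 16662848)))) (b (c (a (l 16641864) (l 16650824)) (a (l 16648584) (l 16658376))) (a (c (b (l 16694408) (l 16693992)) (b (l 16681328) (l 16723512))) (b (c (l 16701904) (l 16710352)) (c (l 66806711191) (l 120493820567)))))) (a (b (c (a (l 16658896) (l 16666504)) (b (l 16661600) (l 16659920))) (a (b (c (l 16687800) (l 16717624)) (c (l 117809461063) (l 125325689767))) (b (c (l 16693392) (l 16723424)) (l 4)))) (b (a (c (l 16673344) (l 16703488)) (c (l 16679456) (l 16709856))) (b (a (c (l 16697800) (l 16706896)) (c (l 143579264839) (l 137136851591))) (l 4))))) (a (b (b (a (c (a (l 65196096599) (l 118346331543)) (a (c (l 16706520) (l 16731792)) (l 150021732535))) (a (c (l 149484860087) (l 141968700679)) (l 4))) (l 4)) (l 4)) (l 4)))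 (b (b (a (a (a (c (l 16684832) (l 32446979895)) (c (l 66806678279) (l 103313939223))) (a (c (l 115661942535) (l 99018993015)) (c (l 116198822999) (l 116735745335)))) (a (a (c (l 144652991191) (l 133915624887)) (l 4)) (l 4))) (l 4)) (l 4))) (l 4)), by decide +kernel⟩

def k23_pp_022_a : ∃ t, chk3 f_pp_022_a t 11 3 1 = true :=
  ⟨(b (a (b (c (a (b (a (l 16596168) (l 16616976)) (a (l 16629728) (l 16645136))) (b (l 16601752) (a (l 16659000) (l 16669072)))) (a (b (a (l 16604432) (l 16595896)) (a (l 16641312) (l 16639304))) (b (a (l 16590280) (l 16565960)) (a (l 16639328) (l 16641640))))) (a (b (c (a (l 16602976) (l 16635016)) (a (l 16639744) (l 16645880))) (b (a (c (l 16695128) (l 16706912)) (c (l 46942465719) (b (l 16709864) (l 119420076039)))) (a (b (c (l 81839119639) (l 114588248775)) (l 4)) (l 4)))) (b (c (a (b (l 16678872) (l 16693272)) (b (l 16687512) (l 16699672))) (a (b (l 16679440) (l 16706664)) (b (l 16686024) (l 64659181159)))) (b (b (a (c (l 16704544) (l 16694248)) (c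 (l 101166467927) (l 125862534775))) (a (c (l 112977641351) (l 123715062647)) (l 4))) (l 4))))) (b (c (a (b (l 16586456) (a (l 16673704) (l 16680168))) (b (c (l 16639968) (l 16622216)) (a (l 16688416) (l 16677456)))) (a (b (a (l 16565040) (l 16566568)) (a (l 16625288) (l 16632240))) (b (a (l 16549520) (l 16555808)) (b (a (l 16623168) (l 16654320)) (a (l 16680912) (l 16693688)))))) (b (b (a (c (a (l 16694320) (l 16699264)) (c (l 16705152) (l 16694832))) (c (a (l 59290502455) (l 96334602743)) (a (b (l 16709400) (l 133378690759)) (a (l 142505490263) (l 140358021799))))) (a (c (a (l 94723967015) (l 109756368647)) (c (a (l 124251899815) (l 133915599575)) (a (l 140358013783) (l 145189866839)))) (a (c (l 115125109175) (l 131768113527)) (l 4)))) (l 4)))) (l 4)), by decide +kernel⟩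

def k24_pp_022_a : ∃ t, chk3 f_pp_022_a t 12 2 1 = true :=
  ⟨(b (a (c (b (a (b (l 16195384) (l 16245656)) (b (l 16156432) (l 16214424))) (a (b (l 16296800) (l 16349240)) (b (l 16273264) (l 16333376)))) (b (a (b (l 16058080) (l 16120928)) (b (l 16006840) (l 16079448))) (a (b (l 16184624) (l 16249632)) (b (l 16152872) (l 16227584))))) (b (c (a (b (l 16127168) (l 16192520)) (b (l 16107328) (l 16179648))) (a (b (l 15967920) (l 16049832)) (b (c (l 15983592) (l 15897704)) (l 16031736)))) (c (a (b (l 16258688) (l 16326136)) (b (l 16252736) (l 16327008))) (a (b (l 16132536) (l 16216528)) (b (c (l 16156416) (l 16089472)) (c (l 16244352) (l 16186872))))))) (a (b (b (c (a (l 16403408) (l 16395200)) (a (l 16316416) (l 16304040))) (c (a (l 16438768) (l 16417224)) (a (l 16343520) (c (l 16402360) (l 16362784))))) (c (a (b (l 16455776) (c (l 16571400) (l 16548128))) (b (c (l 16540464) (l 16510816)) (a (l 16549208) (l 16558264)))) (a (b (c (l 16473048) (l 16441232)) (b (l 16513224) (l 16509848)))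 (b (c (l 16480040) (l 16448144)) (a (l 16523016) (l 16512512)))))) (b (c (a (b (l 16395232) (l 16361568)) (b (c (l 16425112) (l 16380376)) (c (l 16498592) (l 16462768)))) (a (b (c (l 16326064) (l 16277912)) (c (l 16409640) (l 16370088))) (b (c (l 16333992) (l 16286000)) (c (l 16425600) (l 16387112))))) (c (a (b (c (l 16554328) (l 16525600)) (c (l 16627016) (l 16564496))) (b (c (l 16553480) (l 16526600)) (c (l 16632088) (l 16607632)))) (b (a (c (l 16495760) (l 16464856)) (c (l 16498680) (l 16469752))) (a (a (l 16504144) (l 16518688)) (c (c (l 16579312) (l 16569824)) (l 16513336)))))))), by decide +kernel⟩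

def k25_pp_022_a : ∃ t, chk3 f_pp_022_a t 13 4 1 = true :=
  ⟨(c (b (a (a (b (c (l 16137256) (l 16054576)) (l 16175160)) (b (a (l 16093368) (l 16093912)) (c (l 16214752) (l 16141512)))) (a (b (c (l 16139944) (l 16055960)) (c (l 16225088) (l 16152504))) (b (c (l 16151752) (l 16068648)) (c (l 16241896) (l 16170920))))) (a (a (b (l 16254752) (c (l 16361896) (l 16308528))) (a (b (l 16261112) (l 16346360)) (b (l 16267576) (l 16355720)))) (a (c (b (l 16310808) (l 16397480)) (b (l 16249568) (l 16347528))) (c (b (l 16332520) (l 16424000)) (b (l 16273608) (l 16377080)))))) (b (a (a (b (c (l 15969064) (l 15880792)) (c (l 16062984) (l 15985096))) (b (c (l 15964408) (l 15874920)) (c (l 16065744) (l 15987504)))) (a (b (c (l 15969136) (l 15879560)) (c (l 16077424) (l 15999912))) (b (c (l 15982752) (l 15894136)) (c (l 16097520) (l 16021752))))) (a (a (b (c (l 16157568) (l 16090040)) (c (l 16253240) (l 16196064))) (a (b (l 16130952) (l 16237544)) (b (l 16138400) (l 16248680)))) (a (c (b (l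 16186168) (l 16295776)) (b (l 16120688) (l 16242288))) (c (b (l 16212632) (l 16328472)) (b (l 16149648) (l 16278216))))))), by decide +kernel⟩

def k26_pp_022_a : ∃ t, chk3 f_pp_022_a t 13 5 1 = true :=
  ⟨(a (b (c (a (b (c (l 16439288) (l 16395656)) (c (l 16518584) (l 16484672))) (b (c (l 16459552) (l 16417936)) (b (l 16485160) (l 16509624)))) (a (b (c (l 16350408) (l 16303600)) (c (l 16449488) (l 16413056))) (b (c (l 16374792) (l 16330152)) (c (l 16480808) (l 16426392))))) (a (a (c (b (l 16538952) (l 16647424)) (b (l 16466192) (b (l 16609288) (l 16663640)))) (c (b (l 16532920) (l 16665128)) (b (l 16484376) (b (l 16609192) (l 16686200))))) (c (b (b (l 16534624) (a (l 16614136) (l 16653344))) (a (b (l 16681528) (l 83449656663)) (b (l 16700944) (l 111366945319)))) (b (c (l 16505008) (l 16461792)) (b (b (l 16587056) (l 16637088)) (a (b (l 16695824) (l 16693592)) (b (l 16695064) (l 16713048)))))))) (a (a (b (c (b (l 16458928) (l 16510888)) (b (l 16376992) (l 16430792))) (b (c (l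 16606648) (b (l 16582416) (l 16642144))) (c (b (l 16694840) (l 104387704199)) (b (l 16648816) (l 111366986023))))) (b (c (b (l 16474056) (l 16507568)) (b (l 16395568) (l 16431632))) (b (c (l 16626632) (b (l 16606544) (l 16667696))) (b (c (l 100092653815) (b (l 16712760) (l 16692264))) (l 4))))) (b (b (c (a (l 16469608) (l 16466496)) (c (l 16382464) (l 16302968))) (c (c (l 16526840) (l 16503728)) (a (l 16455096) (l 16459136)))) (b (b (c (l 16622656) (a (l 16611192) (l 16659160))) (c (a (l 16714512) (l 96334558407)) (a (l 16673304) (b (l 16706608) (l 16693880))))) (a (b (c (l 108682655847) (l 109756353351)) (l 4)) (l 4)))))), by decide +kernel⟩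

def k27_pp_022_a : ∃ t, chk3 f_pp_022_a t 28 2 1 = true :=
  ⟨(b (b (b (c (a (c (l 16170040) (l 16088744)) (c (l 16194416) (l 16115792))) (a (c (l 16004728) (l 15918064)) (c (a (l 16026368) (l 16043152)) (a (l 15941768) (l 15960208))))) (c (a (c (l 16264800) (l 16196320)) (c (l 16293416) (l 16228248))) (a (c (l 16125504) (l 16052408)) (c (l 16139880) (a (l 16080824) (l 16102240)))))) (c (a (c (b (l 16359952) (l 16455832)) (b (l 16304200) (l 16412728))) (b (c (l 16392696) (l 16340880)) (a (l 16400344) (l 16379128)))) (a (b (c (l 16246488) (l 16186888)) (a (c (l 16357552) (l 16310280)) (c (l 16378984) (l 16333944)))) (c (b (a (l 16276440) (l 16298440)) (a (l 16401968) (l 16426456))) (b (a (l 16219904) (l 16244208)) (a (l 16359352) (l 16386440))))))) (b (c (a (a (b (l 16464664) (b (l 16604840) (l 16656672))) (b (l 16464064) (l 16596704))) (a (b (l 16485584) (l 16613392)) (b (l 16487224) (b (l 16673352) (l 16672560))))) (a (a (b (l 16356920) (l 16464656)) (b (b (l 16454392) (l 16519832))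 (a (l 16548360) (l 16562624)))) (b (a (b (l 16480576) (l 16547280)) (b (l 16508232) (l 16576112))) (a (c (l 16612976) (l 16556088)) (b (l 16602032) (b (l 16694640) (l 16700808))))))) (b (b (c (a (a (l 16708536) (l 65732919367)) (a (l 90428986135) (l 82912891895))) (a (a (l 16687384) (b (l 16700384) (l 16696800))) (a (b (l 16698688) (l 16716136)) (l 86134091623)))) (a (a (c (l 105461374807) (b (l 16695192) (l 4))) (l 4)) (l 4))) (l 4)))), by decide +kernel⟩

def k28_pp_022_a : ∃ t, chk3 f_pp_022_a t 29 2 1 = true :=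
  ⟨(b (b (c (a (c (b (l 16224432) (l 16327296)) (b (a (l 16140344) (l 16158648)) (a (l 16256192) (l 16276608)))) (c (b (l 16238672) (a (l 16355880) (l 16376344))) (b (a (l 16178424) (l 16199616)) (a (l 16298400) (l 16321488))))) (a (c (b (a (l 16061736) (l 16082072)) (a (l 16191896) (l 16214640))) (b (a (l 15980664) (l 16003088)) (a (l 16125536) (l 16150680)))) (c (b (a (l 16104080) (l 16127712)) (a (l 16238944) (l 16264744))) (b (a (l 16027416) (l 16053568)) (a (l 16177576) (l 16206176)))))) (c (c (a (b (l 16430312) (l 16413144)) (b (a (l 16461432) (l 16483464)) (b (l 16552176) (l 16605440)))) (a (b (a (l 16372104) (l 16394568)) (a (l 16488360) (l 16512752))) (b (a (l 16418280) (l 16443184)) (c (l 16495448) (l 16481480))))) (a (c (b (a (l 16322008) (l 16347080)) (a (l 16452368) (l 16479656))) (b (a (l 16270264) (l 16298024)) (a (l 16415152) (l 16445416)))) (b (c (a (l 16373592) (l 16401472)) (a (l 16327416) (l 16358360))) (a (b (l 16457296) (l 16528344)) (a (l 16432408) (l 16448448)))))))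 (b (a (b (c (b (a (l 16588200) (l 16612392)) (a (l 16622184) (l 16668000))) (a (b (l 16537296) (l 16585272)) (c (l 16549400) (l 16529904)))) (c (b (a (l 16697896) (l 16679872)) (a (b (l 16720456) (l 16716192)) (l 85597232407))) (b (a (l 16653992) (b (l 16689632) (l 16721504))) (a (b (l 16701864) (l 16717384)) (l 86134078919))))) (b (c (a (b (l 16616512) (l 16693544)) (b (l 16652880) (l 16697904))) (a (b (l 16578336) (l 16648936)) (b (l 16590096) (a (l 16694728) (l 16689352))))) (b (c (a (b (l 16725480) (l 16718880)) (l 93113409431)) (a (b (l 16720264) (l 16719568)) (b (l 88281534199) (l 4)))) (l 4)))) (l 4))), by decide +kernel⟩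

def k29_pp_022_a : ∃ t, chk3 f_pp_022_a t 30 4 1 = true :=
  ⟨(b (c (a (c (b (a (l 16289176) (l 16310280)) (a (l 16397880) (l 16420424))) (b (a (l 16222160) (l 16246000)) (a (l 16345824) (l 16371352)))) (b (c (a (l 16332440) (l 16355600)) (a (l 16271072) (l 16297328))) (a (c (l 16443936) (l 16398000)) (c (l 16468344) (l 16425720))))) (a (c (b (a (l 16152896) (l 16179568)) (a (l 16291976) (l 16320576))) (b (a (l 16081472) (l 16111064)) (a (l 16236392) (l 16268160)))) (b (c (a (l 16207664) (l 16237112)) (a (l 16142264) (l 16175000))) (c (a (l 16350480) (l 16381608)) (a (l 16301408) (l 16336056)))))) (c (a (b (a (b (l 16459040) (l 16516968)) (b (l 16484168) (l 16542792))) (a (c (l 16572976) (l 16550432)) (c (b (l 16612584) (l 16667112)) (l 16557888)))) (b (a (a (l 16449328) (l 16462744)) (a (l 16455408) (l 16469240))) (a (b (l 16607544) (l 16666024)) (b (l 16614480) (l 16693680))))) (a (b (b (a (l 16374312) (l 16405952)) (a (l 16447456) (l 16480024))) (a (a (l 16443808) (l 16460432))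 (c (l 16538024) (l 16496464)))) (b (a (b (l 16438880) (l 16513784)) (c (l 16462384) (l 16412280))) (b (a (l 16546480) (l 16560992)) (a (l 16599568) (a (l 16689192) (l 16685848)))))))), by decide +kernel⟩

def k30_pp_022_a : ∃ t, chk3 f_pp_022_a t 31 4 1 = true :=
  ⟨(b (a (c (c (b (a (l 16379712) (l 16404736)) (a (l 16493608) (l 16519672))) (a (b (l 16324704) (l 16454448)) (b (l 16353144) (l 16484112)))) (b (c (a (l 16267848) (l 16299808)) (a (l 16209200) (b (l 16203536) (l 16286080)))) (b (a (l 16354672) (c (l 16410560) (l 16368304))) (a (l 16431600) (c (l 16484024) (l 16450224)))))) (b (c (a (c (l 16430600) (l 16382576)) (c (l 16457256) (l 16412952))) (a (c (l 16332928) (b (l 16240064) (l 16323384))) (c (b (l 16329480) (l 16404808)) (b (l 16277864) (l 16361904))))) (b (c (a (l 16499848) (c (l 16544896) (l 16512904))) (a (c (l 16444672) (l 16406360)) (c (l 16479776) (l 16445544)))) (c (a (l 16540568) (l 16507248)) (a (c (l 16518736) (l 16488968)) (c (l 16554360) (l 16528760)))))))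 (b (c (a (c (a (l 16543920) (l 16549824)) (a (l 16499456) (l 16509152))) (a (b (l 16559960) (c (l 16689336) (l 16677560))) (b (l 16568816) (c (l 16716856) (l 16709168))))) (b (a (a (l 16445352) (l 16460696)) (a (c (l 16592384) (l 16571128)) (b (l 16600464) (l 16618424)))) (a (a (l 16521664) (l 16537512)) (a (c (l 16644312) (l 16610584)) (b (l 16636016) (l 16694824)))))) (b (a (c (a (l 16653400) (l 16671560)) (a (l 16597304) (b (l 16636416) (l 16694496)))) (a (c (b (l 16727720) (a (l 16734920) (l 16732144))) (b (l 16694544) (a (l 16714296) (l 16730880)))) (b (c (a (l 16737256) (l 16734168)) (a (l 16716664) (l 16706632))) (l 4)))) (a (a (c (b (l 16728272) (l 92039640791)) (b (l 16694648) (a (l 16730608) (l 16727184)))) (b (c (a (l 16732584) (l 16730168)) (a (l 16732920) (l 16728992))) (l 4))) (l 4))))), by decide +kernel⟩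

def k31_pp_022_a : ∃ t, chk3 f_pp_022_a t 15 5 1 = true :=
  ⟨(b (a (b (b (a (c (a (l 16689896) (l 16695488)) (a (l 16634272) (a (l 16691496) (l 16687256)))) (a (c (b (l 16729464) (l 89355281863)) (b (l 16695552) (l 89892146375))) (b (c (l 90429025143) (a (l 16728352) (l 16725488))) (l 4)))) (a (b (a (c (l 16730904) (l 16718112)) (c (l 88818411623) (l 88818403479))) (a (c (l 16722200) (l 88281533239)) (l 4))) (l 4))) (l 4)) (l 4)) (l 4)), by decide +kernel⟩

def k32_pp_022_a : ∃ t, chk3 f_pp_022_a t 3 3 1 = true :=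
  ⟨(a (b (a (a (b (a (b (c (a (l 16642072) (l 16651488)) (c (l 16557600) (l 16539432))) (b (c (l 16656544) (a (l 16666720) (l 16681168))) (c (a (l 16702800) (l 100092690983)) (a (l 16645336) (b (l 16714000) (l 136063053975)))))) (a (b (c (l 16662536) (c (l 16638472) (l 16600704))) (c (b (l 16704800) (l 120493787367)) (b (l 16697520) (b (l 136063042039) (l 4))))) (b (c (l 16654216) (b (l 16622056) (l 16668368))) (b (c (l 101703286823) (b (l 16703744) (l 16681968))) (l 4))))) (b (a (a (b (c (l 117272577319) (l 134452445351)) (l 4)) (l 4)) (l 4)) (l 4))) (b (a (b (c (a (l 16668272) (b (l 16683920) (l 16685888))) (a (b (l 16616864) (l 16686232)) (b (l 16655472) (l 97945113783)))) (b (c (a (l 114051324375) (l 121030655399)) (a (a (l 133378669223) (l 130694335607)) (l 124251893863))) (l 4))) (b (c (b (a (l 16699920) (l 16710632)) (a (l 112977566727) (l 122104382727))) (b (a (l 16674880) (l 16695840)) (a (a (l 16673144) (l 128546828567)) (l 124788742471)))) (l 4))) (l 4))) (a (b (b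 (b (a (c (a (l 93113332503) (l 120493759127)) (a (b (l 16704792) (l 16681424)) (b (l 16671568) (l 4)))) (a (c (l 96334657607) (l 115125068919)) (l 4))) (l 4)) (l 4)) (l 4)) (l 4))) (l 4)) (l 4)), by decide +kernel⟩

theorem s33_pp_022_a : ∃ t, chk3 f_pp_022_a t 15 4 1 = true := ex3_a k29_pp_022_a k30_pp_022_a

theorem s34_pp_022_a : ∃ t, chk3 f_pp_022_a t 15 2 1 = true := ex3_b s33_pp_022_a k31_pp_022_a

theorem s35_pp_022_a : ∃ t, chk3 f_pp_022_a t 14 2 1 = true := ex3_a k27_pp_022_a k28_pp_022_a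

theorem s36_pp_022_a : ∃ t, chk3 f_pp_022_a t 7 2 1 = true := ex3_a s35_pp_022_a s34_pp_022_a

theorem s37_pp_022_a : ∃ t, chk3 f_pp_022_a t 13 2 1 = true := ex3_b k25_pp_022_a k26_pp_022_a

theorem s38_pp_022_a : ∃ t, chk3 f_pp_022_a t 6 2 1 = true := ex3_a k24_pp_022_a s37_pp_022_a

theorem s39_pp_022_a : ∃ t, chk3 f_pp_022_a t 3 2 1 = true := ex3_a s38_pp_022_a s36_pp_022_a

theorem s40_pp_022_a : ∃ t, chk3 f_pp_022_a t 3 1 1 = true := ex3_b s39_pp_022_a k32_pp_022_a

theorem s41_pp_022_a : ∃ t, chk3 f_pp_022_a t 10 6 1 = true := ex3_a k20_pp_022_a k21_pp_022_a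

theorem s42_pp_022_a : ∃ t, chk3 f_pp_022_a t 10 3 1 = true := ex3_b s41_pp_022_a k22_pp_022_a

theorem s43_pp_022_a : ∃ t, chk3 f_pp_022_a t 5 3 1 = true := ex3_a s42_pp_022_a k23_pp_022_a

theorem s44_pp_022_a : ∃ t, chk3 f_pp_022_a t 5 2 1 = true := ex3_a k18_pp_022_a k19_pp_022_a

theorem s45_pp_022_a : ∃ t, chk3 f_pp_022_a t 5 1 1 = true := ex3_b s44_pp_022_a s43_pp_022_a

theorem s46_pp_022_a : ∃ t, chk3 f_pp_022_a t 18 30 1 = true := ex3_a k14_pp_022_a k15_pp_022_a

theorem s47_pp_022_a : ∃ t, chk3 f_pp_022_a t 18 15 1 = true := ex3_b s46_pp_022_a k16_pp_022_a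

theorem s48_pp_022_a : ∃ t, chk3 f_pp_022_a t 9 15 1 = true := ex3_a s47_pp_022_a k17_pp_022_a

theorem s49_pp_022_a : ∃ t, chk3 f_pp_022_a t 19 14 1 = true := ex3_b k12_pp_022_a k13_pp_022_a

theorem s50_pp_022_a : ∃ t, chk3 f_pp_022_a t 18 14 1 = true := ex3_a k10_pp_022_a k11_pp_022_a

theorem s51_pp_022_a : ∃ t, chk3 f_pp_022_a t 9 14 1 = true := ex3_a s50_pp_022_a s49_pp_022_a

theorem s52_pp_022_a : ∃ t, chk3 f_pp_022_a t 9 7 1 = true := ex3_b s51_pp_022_a s48_pp_022_a

theorem s53_pp_022_a : ∃ t, chk3 f_pp_022_a t 35 30 1 = true := ex3_b k7_pp_022_a k8_pp_022_a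

theorem s54_pp_022_a : ∃ t, chk3 f_pp_022_a t 35 15 1 = true := ex3_b s53_pp_022_a k9_pp_022_a

theorem s55_pp_022_a : ∃ t, chk3 f_pp_022_a t 35 7 1 = true := ex3_b k6_pp_022_a s54_pp_022_a

theorem s56_pp_022_a : ∃ t, chk3 f_pp_022_a t 17 7 1 = true := ex3_a k5_pp_022_a s55_pp_022_a

theorem s57_pp_022_a : ∃ t, chk3 f_pp_022_a t 8 7 1 = true := ex3_a k4_pp_022_a s56_pp_022_a

theorem s58_pp_022_a : ∃ t, chk3 f_pp_022_a t 4 7 1 = true := ex3_a s57_pp_022_a s52_pp_022_a

theorem s59_pp_022_a : ∃ t, chk3 f_pp_022_a t 9 6 1 = true := ex3_a k2_pp_022_a k3_pp_022_a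

theorem s60_pp_022_a : ∃ t, chk3 f_pp_022_a t 4 6 1 = true := ex3_a k1_pp_022_a s59_pp_022_a

theorem s61_pp_022_a : ∃ t, chk3 f_pp_022_a t 4 3 1 = true := ex3_b s60_pp_022_a s58_pp_022_a

theorem s62_pp_022_a : ∃ t, chk3 f_pp_022_a t 4 1 1 = true := ex3_b k0_pp_022_a s61_pp_022_a

theorem s63_pp_022_a : ∃ t, chk3 f_pp_022_a t 2 1 1 = true := ex3_a s62_pp_022_a s45_pp_022_a

theorem s64_pp_022_a : ∃ t, chk3 f_pp_022_a t 1 1 1 = true := ex3_a s63_pp_022_a s40_pp_022_a

theorem c_pp_022_a : CertB 0 536870912 0 536870912 991146299 28908434 3 eng mog cd0q0 cd1q2a pd2 true true true .pp 0 2 2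
    ndB0q0 ndB1q2a pcB2 cut_pp_022_a Ext.none :=
  certB2 (fam := true) (s1 := true) (s2 := true) (a := 0) (b := 2) (c := 2) (cn := .pp) (n1 := ndB0q0) (n2 := ndB1q2a) (pc := pcB2) (cut := cut_pp_022_a) (xt := Ext.none) (P1 := 0) (W1 := 536870912) (P2 := 0) (W2 := 536870912) (P3 := 991146299) (W3 := 28908434) (N0 := 3) (En := eng) (mo := mog) (C1 := cd0q0) (C2 := cd1q2a) (C3 := pd2)
    rfl (fun _ => rfl) s64_pp_022_a

noncomputable def cut_pp_022_b : Cut := Cut.of [[⟨0, 0, 0, 53687091⟩, ⟨1, 1, 0, 53687091⟩, ⟨2, 1, 0, 53687091⟩]]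

noncomputable def f_pp_022_b : ℕ → ℕ → ℕ → ℕ → Bool := onCell 1073741824 536870912 1239849684 370763052 991146299 28908434
    (rowB 3 eng mog cd0q0 cd1q2b pd2 2 true true true .pp 0 2 2 (qsf 0 536870912 1239849684 370763052 2) ndB0q0 ndB1q2b pcB2 cut_pp_022_b Ext.none)

def k0_pp_022_b : ∃ t, chk3 f_pp_022_b t 2 1 1 = true :=
  ⟨(a (l 1) (b (b (b (a (a (a (l 1) (b (a (l 1) (l 16112856)) (l 1))) (a (b (a (l 16182536) (l 16252256)) (l 1)) (a (b (l 16280016) (l 16215952)) (b (l 16370624) (l 16283592))))) (a (a (b (l 16290656) (l 16191368)) (b (b (l 16194608) (l 16212520)) (l 16225496))) (a (c (b (l 16285456) (l 16277496)) (b (l 16177760) (l 16171640))) (b (c (l 16220264) (l 16093504)) (c (l 16213384) (l 16088560)))))) (a (l 1) (a (b (a (l 16233304) (l 16186344)) (l 1)) (c (b (l 16147112) (l 16125696)) (b (l 16012128) (l 15949880)))))) (a (l 1) (a (l 1) (b (c (l 15996664) (l 15842512)) (l 1))))) (l 1))), by decide +kernel⟩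

def k1_pp_022_b : ∃ t, chk3 f_pp_022_b t 6 1 1 = true :=
  ⟨(b (b (a (a (b (a (b (c (l 16166520) (l 16023648)) (c (l 16160000) (l 16019104))) (b (c (l 16124384) (l 15968312)) (c (l 16115472) (l 15961144)))) (a (b (l 15891720) (l 15981088)) (b (c (l 16105520) (l 15953208)) (l 15891248)))) (b (c (b (a (l 16091520) (l 16068296)) (a (l 16083200) (l 16060216))) (b (a (l 15924872) (l 15893712)) (a (l 15918440) (l 15887640)))) (a (b (c (l 16071552) (l 15908640)) (l 15853256)) (b (c (l 16048264) (l 15877576)) (l 15763000))))) (a (b (c (a (b (l 16054160) (l 16046552)) (b (l 16027736) (l 16041616))) (a (b (b (l 15875040) (l 15873200)) (l 15868760)) (b (b (l 15845312) (l 15865000)) (l 15861072)))) (a (b (c (l 16035648) (l 15859968)) (c (l 16020960) (l 15847272))) (c (l 16024448) (l 15847232)))) (b (c (a (b (b (l 16031272) (l 16050136)) (l 16044968)) (b (b (l 16041104) (l 16060552)) (l 16056320))) (a (b (a (l 15866056) (l 15848432)) (l 15864032)) (b (a (l 15854176) (l 15862256)) (l 15877256))))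 (c (a (l 16028816) (l 16041096)) (a (l 15851624) (l 15866232)))))) (a (a (b (c (a (l 16093240) (l 16056376)) (a (l 15957312) (l 15907968))) (l 1)) (b (a (c (l 15985152) (l 15868704)) (c (l 16006464) (l 15840696))) (c (l 15848648) (a (l 15805544) (l 15783120))))) (a (b (a (b (l 15857336) (l 15899640)) (b (l 15914232) (l 15894744))) (a (c (l 15938672) (l 15771048)) (c (l 15937848) (l 15768488)))) (b (a (c (l 15994056) (l 15821264)) (b (l 15934200) (l 15914472))) (a (c (l 15944808) (l 15776152)) (c (l 15959504) (l 15793960))))))) (a (l 1) (b (a (b (c (l 15858112) (l 15690064)) (l 1)) (b (c (l 15879840) (l 15714984)) (c (l 15784896) (l 15619688)))) (l 1)))), by decide +kernel⟩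

def k2_pp_022_b : ∃ t, chk3 f_pp_022_b t 7 2 1 = true :=
  ⟨(b (a (a (b (c (a (b (b (l 16058104) (l 16078176)) (l 16074800)) (b (a (l 16075152) (l 16088808)) (l 16100128))) (a (b (a (l 15872592) (l 15885120)) (l 15899632)) (b (a (l 15899768) (l 15916464)) (l 15930784)))) (c (a (l 16060944) (l 16088040)) (a (l 15890592) (l 15924304)))) (b (c (a (b (a (l 16104000) (l 16120696)) (l 16131848)) (b (a (l 16138816) (l 16158328)) (l 16169504))) (a (b (a (l 15935160) (l 15966256)) (l 15970136)) (b (b (a (l 15997128) (l 16021112)) (l 16013264)) (l 16017112)))) (c (a (l 16121472) (l 16160912)) (a (l 15966208) (l 16015888))))) (a (b (c (b (a (a (l 16179144) (l 16222200)) (a (l 16245480) (l 16269912))) (a (l 16212616) (l 16260712))) (a (b (b (a (l 16046816) (l 16074176)) (l 16065760)) (l 16071168)) (b (b (a (l 16103120) (l 16133568)) (l 16124760)) (l 16131728)))) (c (a (l 16205880) (l 16255816)) (a (l 16072696) (l 16136096)))) (b (a (c (b (a (l 16295432) (l 16321976)) (l 16313264)) (b (b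 (a (l 16165464) (l 16198736)) (l 16189688)) (l 16198240))) (c (b (a (l 16328536) (b (l 16375464) (l 16380280))) (l 16369800)) (b (a (b (l 16233304) (l 16241952)) (b (l 16269104) (l 16278328))) (l 16270096)))) (a (c (l 16310216) (l 16205384)) (c (l 16368464) (l 16279912)))))) (a (b (a (c (a (l 16029440) (l 16057840)) (a (l 15864616) (l 15900240))) (a (c (l 16093088) (l 15944768)) (c (l 16134472) (l 15997344)))) (a (a (c (l 15981912) (l 15821832)) (b (l 15949416) (l 15922520))) (a (b (l 15990560) (l 15964192)) (l 15963696)))) (c (a (b (l 16039072) (l 16165096)) (b (a (l 16289920) (l 16349864)) (l 16280376))) (a (b (a (l 16057512) (l 16124088)) (l 15992632)) (b (a (l 16196504) (l 16273936)) (l 16184072)))))), by decide +kernel⟩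

def k3_pp_022_b : ∃ t, chk3 f_pp_022_b t 7 3 1 = true :=
  ⟨(a (b (a (b (c (l 15929096) (l 15671504)) (c (l 15840256) (l 15689208))) (b (c (l 16005104) (l 15684352)) (a (l 15833072) (l 15885424)))) (a (l 1) (b (c (l 15814664) (l 15686736)) (l 1)))) (b (a (b (a (l 16023152) (l 16086344)) (a (l 15944160) (l 16008416))) (b (a (l 16154144) (l 16225648)) (a (l 16077408) (l 16099736)))) (a (b (a (l 15841616) (l 15907440)) (c (l 15669688) (l 15701808))) (b (a (l 15894672) (l 15878928)) (c (l 15644968) (l 15702440)))))), by decide +kernel⟩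

theorem s4_pp_022_b : ∃ t, chk3 f_pp_022_b t 7 1 1 = true := ex3_b k2_pp_022_b k3_pp_022_b

theorem s5_pp_022_b : ∃ t, chk3 f_pp_022_b t 3 1 1 = true := ex3_a k1_pp_022_b s4_pp_022_b

theorem s6_pp_022_b : ∃ t, chk3 f_pp_022_b t 1 1 1 = true := ex3_a k0_pp_022_b s5_pp_022_b

theorem c_pp_022_b : CertB 0 536870912 1239849684 370763052 991146299 28908434 3 eng mog cd0q0 cd1q2b pd2 true true true .pp 0 2 2
    ndB0q0 ndB1q2b pcB2 cut_pp_022_b Ext.none :=
  certB2 (fam := true) (s1 := true) (s2 := true) (a := 0) (b := 2) (c := 2) (cn := .pp) (n1 := ndB0q0) (n2 := ndB1q2b) (pc := pcB2) (cut := cut_pp_022_b) (xt := Ext.none) (P1 := 0) (W1 := 536870912) (P2 := 1239849684) (W2 := 370763052) (P3 := 991146299) (W3 := 28908434) (N0 := 3) (En := eng) (mo := mog) (C1 := cd0q0) (C2 := cd1q2b) (C3 := pd2)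
    rfl (fun _ => rfl) s6_pp_022_b

noncomputable def f_pp_023_a : ℕ → ℕ → ℕ → ℕ → Bool := onCell 1610612736 536870912 0 536870912 991146299 28908434
    (rowB 3 eng mog cd0q0 cd1q2a pd3 2 true true true .up 0 2 3 (qsf 0 536870912 0 536870912 3) ndB0q0 ndB1q2a pcB3 Cut.none Ext.none)

def k0_pp_023_a : ∃ t, chk3 f_pp_023_a t 1 1 1 = true :=
  ⟨(b (a (b (a (a (a (b (a (b (c (l 16626208) (l 16610408)) (c (l 16684352) (l 16632008))) (b (a (l 16640928) (l 16635688)) (a (l 16681888) (b (l 16703608) (l 16734392))))) (b (a (b (a (l 16716696) (l 16732376)) (a (l 61438026487) (l 95797785127))) (b (a (b (l 16740792) (l 16718048)) (b (l 86134121719) (l 4))) (l 4))) (l 4))) (b (a (b (a (l 16630968) (b (l 16673584) (l 16684552))) (b (a (l 16720144) (l 16736872)) (a (b (l 16743144) (l 86134125703)) (b (l 86671000935) (l 4))))) (b (a (b (l 16690584) (l 16722608)) (b (l 16686960) (l 16739800))) (b (a (b (l 16745952) (l 87207875879)) (a (l 74322975911) (l 103314015847))) (l 4)))) (b (l 4) (l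 4)))) (b (a (b (a (b (a (l 16725520) (c (l 16744416) (l 16741784))) (a (a (l 49090029927) (b (l 16753392) (l 16751080))) (c (l 98482178839) (l 98482177495)))) (b (a (b (l 16731768) (a (l 16735280) (l 102777163255))) (b (a (l 64122454375) (l 104924652167)) (l 4))) (l 4))) (l 4)) (l 4)) (l 4))) (l 4)) (l 4)) (l 2)) (l 4)), by decide +kernel⟩

theorem c_pp_023_a : CertB 0 536870912 0 536870912 991146299 28908434 3 eng mog cd0q0 cd1q2a pd3 true true true .up 0 2 3
    ndB0q0 ndB1q2a pcB3 Cut.none Ext.none :=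
  certB2 (fam := true) (s1 := true) (s2 := true) (a := 0) (b := 2) (c := 3) (cn := .up) (n1 := ndB0q0) (n2 := ndB1q2a) (pc := pcB3) (cut := Cut.none) (xt := Ext.none) (P1 := 0) (W1 := 536870912) (P2 := 0) (W2 := 536870912) (P3 := 991146299) (W3 := 28908434) (N0 := 3) (En := eng) (mo := mog) (C1 := cd0q0) (C2 := cd1q2a) (C3 := pd3)
    rfl (fun _ => rfl) k0_pp_023_a

noncomputable def f_pp_023_b : ℕ → ℕ → ℕ → ℕ → Bool := onCell 1610612736 536870912 1239849684 370763052 991146299 28908434
    (rowB 3 eng mog cd0q0 cd1q2b pd3 2 true true true .up 0 2 3 (qsf 0 536870912 1239849684 370763052 3) ndB0q0 ndB1q2b pcB3 Cut.none Ext.none)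

def k0_pp_023_b : ∃ t, chk3 f_pp_023_b t 1 1 1 = true :=
  ⟨(a (a (a (b (b (a (b (b (a (l 16585416) (b (l 16616520) (l 16613832))) (a (l 16577112) (l 16607536))) (b (l 16579928) (l 16564144))) (b (b (a (a (l 16639248) (l 16655832)) (a (l 16651840) (b (l 16691152) (l 16688760)))) (a (l 16640040) (l 16673832))) (b (l 16601344) (l 16577464)))) (a (b (l 16483456) (l 16328576)) (b (c (l 16480552) (l 16469400)) (l 16247192)))) (b (a (b (l 16160912) (l 15975664)) (b (l 16175920) (l 16006824))) (a (b (l 15766848) (l 15544992)) (b (l 48013980743) (l 15604472))))) (b (a (b (b (a (b (b (a (l 16708728) (l 16726400)) (l 16714800)) (l 16667408)) (b (a (b (l 16722928) (l 16723160)) (b (a (l 16726272) (b (l 16751840) (l 16739400))) (l 16699968))) (a (l 16681632) (l 4)))) (a (b (l 16627832) (l 16567984)) (l 4))) (b (b (l 16473088) (l 4)) (l 4))) (b (b (l 4) (l 4)) (l 4))) (l 4))) (l 4)) (l 4)), by decide +kernel⟩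

theorem c_pp_023_b : CertB 0 536870912 1239849684 370763052 991146299 28908434 3 eng mog cd0q0 cd1q2b pd3 true true true .up 0 2 3
    ndB0q0 ndB1q2b pcB3 Cut.none Ext.none :=
  certB2 (fam := true) (s1 := true) (s2 := true) (a := 0) (b := 2) (c := 3) (cn := .up) (n1 := ndB0q0) (n2 := ndB1q2b) (pc := pcB3) (cut := Cut.none) (xt := Ext.none) (P1 := 0) (W1 := 536870912) (P2 := 1239849684) (W2 := 370763052) (P3 := 991146299) (W3 := 28908434) (N0 := 3) (En := eng) (mo := mog) (C1 := cd0q0) (C2 := cd1q2b) (C3 := pd3)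
    rfl (fun _ => rfl) k0_pp_023_b

noncomputable def f_pp_033 : ℕ → ℕ → ℕ → ℕ → Bool := onCell 0 536870912 1610612736 536870912 991146299 28908434
    (rowB 3 eng mog cd0q0 cd1q3 pd3 1 true true true .pnn 0 3 3 (qsf 0 536870912 1610612736 536870912 3) ndB0q0 ndB1q3 pcB3 Cut.none Ext.none)

def k0_pp_033 : ∃ t, chk3 f_pp_033 t 1 1 1 = true :=
  ⟨(b (b (a (b (a (a (b (l 249138452935) (a (l 15238920) (l 15413784))) (b (l 1) (l 313563460759))) (l 1)) (l 4)) (l 1)) (l 4)) (l 4)), by decide +kernel⟩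

theorem c_pp_033 : CertB 0 536870912 1610612736 536870912 991146299 28908434 3 eng mog cd0q0 cd1q3 pd3 true true true .pnn 0 3 3
    ndB0q0 ndB1q3 pcB3 Cut.none Ext.none :=
  certB1 (fam := true) (s1 := true) (s2 := true) (a := 0) (b := 3) (c := 3) (cn := .pnn) (n1 := ndB0q0) (n2 := ndB1q3) (pc := pcB3) (cut := Cut.none) (xt := Ext.none) (P1 := 0) (W1 := 536870912) (P2 := 1610612736) (W2 := 536870912) (P3 := 991146299) (W3 := 28908434) (N0 := 3) (En := eng) (mo := mog) (C1 := cd0q0) (C2 := cd1q3) (C3 := pd3)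
    rfl (fun _ => rfl) k0_pp_033

noncomputable def f_pp_101 : ℕ → ℕ → ℕ → ℕ → Bool := onCell 536870912 536870912 0 536870912 991146299 28908434
    (rowB 3 eng mog cd0q1 cd1q0 pd1 0 true true true .npn 1 0 1 (qsf 536870912 536870912 0 536870912 1) ndB0q1 ndB1q0 pcB1 Cut.none Ext.none)

def k0_pp_101 : ∃ t, chk3 f_pp_101 t 1 1 1 = true :=
  ⟨(l 5), by decide +kernel⟩

theorem c_pp_101 : CertB 536870912 536870912 0 536870912 991146299 28908434 3 eng mog cd0q1 cd1q0 pd1 true true true .npn 1 0 1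
    ndB0q1 ndB1q0 pcB1 Cut.none Ext.none :=
  certB0 (fam := true) (s1 := true) (s2 := true) (a := 1) (b := 0) (c := 1) (cn := .npn) (n1 := ndB0q1) (n2 := ndB1q0) (pc := pcB1) (cut := Cut.none) (xt := Ext.none) (P1 := 536870912) (W1 := 536870912) (P2 := 0) (W2 := 536870912) (P3 := 991146299) (W3 := 28908434) (N0 := 3) (En := eng) (mo := mog) (C1 := cd0q1) (C2 := cd1q0) (C3 := pd1)
    rfl k0_pp_101

noncomputable def f_pp_102 : ℕ → ℕ → ℕ → ℕ → Bool := onCell 536870912 536870912 0 536870912 991146299 28908434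
    (rowB 3 eng mog cd0q1 cd1q0 pd2 0 true true true .npp 1 0 2 (qsf 536870912 536870912 0 536870912 2) ndB0q1 ndB1q0 pcB2 Cut.none Ext.none)

def k0_pp_102 : ∃ t, chk3 f_pp_102 t 1 1 1 = true :=
  ⟨(l 5), by decide +kernel⟩

theorem c_pp_102 : CertB 536870912 536870912 0 536870912 991146299 28908434 3 eng mog cd0q1 cd1q0 pd2 true true true .npp 1 0 2
    ndB0q1 ndB1q0 pcB2 Cut.none Ext.none :=
  certB0 (fam := true) (s1 := true) (s2 := true) (a := 1) (b := 0) (c := 2) (cn := .npp) (n1 := ndB0q1) (n2 := ndB1q0) (pc := pcB2) (cut := Cut.none) (xt := Ext.none) (P1 := 536870912) (W1 := 536870912) (P2 := 0) (W2 := 536870912) (P3 := 991146299) (W3 := 28908434) (N0 := 3) (En := eng) (mo := mog) (C1 := cd0q1) (C2 := cd1q0) (C3 := pd2)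
    rfl k0_pp_102

noncomputable def f_pp_112 : ℕ → ℕ → ℕ → ℕ → Bool := onCell 536870912 536870912 536870912 536870912 991146299 28908434
    (rowB 3 eng mog cd0q1 cd1q1 pd2 0 true true true .dn 1 1 2 (qsf 536870912 536870912 536870912 536870912 2) ndB0q1 ndB1q1 pcB2 Cut.none Ext.none)

def k0_pp_112 : ∃ t, chk3 f_pp_112 t 1 1 1 = true :=
  ⟨(l 4), by decide +kernel⟩

theorem c_pp_112 : CertB 536870912 536870912 536870912 536870912 991146299 28908434 3 eng mog cd0q1 cd1q1 pd2 true true true .dn 1 1 2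
    ndB0q1 ndB1q1 pcB2 Cut.none Ext.none :=
  certB0 (fam := true) (s1 := true) (s2 := true) (a := 1) (b := 1) (c := 2) (cn := .dn) (n1 := ndB0q1) (n2 := ndB1q1) (pc := pcB2) (cut := Cut.none) (xt := Ext.none) (P1 := 536870912) (W1 := 536870912) (P2 := 536870912) (W2 := 536870912) (P3 := 991146299) (W3 := 28908434) (N0 := 3) (En := eng) (mo := mog) (C1 := cd0q1) (C2 := cd1q1) (C3 := pd2)
    rfl k0_pp_112

noncomputable def f_pp_113 : ℕ → ℕ → ℕ → ℕ → Bool := onCell 536870912 536870912 536870912 536870912 991146299 28908434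
    (rowB 3 eng mog cd0q1 cd1q1 pd3 0 true true true .nn 1 1 3 (qsf 536870912 536870912 536870912 536870912 3) ndB0q1 ndB1q1 pcB3 Cut.none Ext.none)

def k0_pp_113 : ∃ t, chk3 f_pp_113 t 1 1 1 = true :=
  ⟨(l 4), by decide +kernel⟩

theorem c_pp_113 : CertB 536870912 536870912 536870912 536870912 991146299 28908434 3 eng mog cd0q1 cd1q1 pd3 true true true .nn 1 1 3
    ndB0q1 ndB1q1 pcB3 Cut.none Ext.none :=
  certB0 (fam := true) (s1 := true) (s2 := true) (a := 1) (b := 1) (c := 3) (cn := .nn) (n1 := ndB0q1) (n2 := ndB1q1) (pc := pcB3) (cut := Cut.none) (xt := Ext.none) (P1 := 536870912) (W1 := 536870912) (P2 := 536870912) (W2 := 536870912) (P3 := 991146299) (W3 := 28908434) (N0 := 3) (En := eng) (mo := mog) (C1 := cd0q1) (C2 := cd1q1) (C3 := pd3)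
    rfl k0_pp_113

noncomputable def f_pp_123_a : ℕ → ℕ → ℕ → ℕ → Bool := onCell 536870912 536870912 0 536870912 991146299 28908434
    (rowB 3 eng mog cd0q1 cd1q2a pd3 0 true true true .npn 1 2 3 (qsf 536870912 536870912 0 536870912 3) ndB0q1 ndB1q2a pcB3 Cut.none Ext.none)

def k0_pp_123_a : ∃ t, chk3 f_pp_123_a t 1 1 1 = true :=
  ⟨(a (l 4) (l 4)), by decide +kernel⟩

theorem c_pp_123_a : CertB 536870912 536870912 0 536870912 991146299 28908434 3 eng mog cd0q1 cd1q2a pd3 true true true .npn 1 2 3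
    ndB0q1 ndB1q2a pcB3 Cut.none Ext.none :=
  certB0 (fam := true) (s1 := true) (s2 := true) (a := 1) (b := 2) (c := 3) (cn := .npn) (n1 := ndB0q1) (n2 := ndB1q2a) (pc := pcB3) (cut := Cut.none) (xt := Ext.none) (P1 := 536870912) (W1 := 536870912) (P2 := 0) (W2 := 536870912) (P3 := 991146299) (W3 := 28908434) (N0 := 3) (En := eng) (mo := mog) (C1 := cd0q1) (C2 := cd1q2a) (C3 := pd3)
    rfl k0_pp_123_a

noncomputable def f_pp_123_b : ℕ → ℕ → ℕ → ℕ → Bool := onCell 536870912 536870912 1239849684 370763052 991146299 28908434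
    (rowB 3 eng mog cd0q1 cd1q2b pd3 0 true true true .npn 1 2 3 (qsf 536870912 536870912 1239849684 370763052 3) ndB0q1 ndB1q2b pcB3 Cut.none Ext.none)

def k0_pp_123_b : ∃ t, chk3 f_pp_123_b t 1 1 1 = true :=
  ⟨(a (l 4) (l 4)), by decide +kernel⟩

theorem c_pp_123_b : CertB 536870912 536870912 1239849684 370763052 991146299 28908434 3 eng mog cd0q1 cd1q2b pd3 true true true .npn 1 2 3
    ndB0q1 ndB1q2b pcB3 Cut.none Ext.none :=
  certB0 (fam := true) (s1 := true) (s2 := true) (a := 1) (b := 2) (c := 3) (cn := .npn) (n1 := ndB0q1) (n2 := ndB1q2b) (pc := pcB3) (cut := Cut.none) (xt := Ext.none) (P1 := 536870912) (W1 := 536870912) (P2 := 1239849684) (W2 := 370763052) (P3 := 991146299) (W3 := 28908434) (N0 := 3) (En := eng) (mo := mog) (C1 := cd0q1) (C2 := cd1q2b) (C3 := pd3)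
    rfl k0_pp_123_b

noncomputable def f_pp_133 : ℕ → ℕ → ℕ → ℕ → Bool := onCell 536870912 536870912 1610612736 536870912 991146299 28908434
    (rowB 3 eng mog cd0q1 cd1q3 pd3 0 true true true .dn 1 3 3 (qsf 536870912 536870912 1610612736 536870912 3) ndB0q1 ndB1q3 pcB3 Cut.none Ext.none)

def k0_pp_133 : ∃ t, chk3 f_pp_133 t 1 1 1 = true :=
  ⟨(l 4), by decide +kernel⟩

theorem c_pp_133 : CertB 536870912 536870912 1610612736 536870912 991146299 28908434 3 eng mog cd0q1 cd1q3 pd3 true true true .dn 1 3 3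
    ndB0q1 ndB1q3 pcB3 Cut.none Ext.none :=
  certB0 (fam := true) (s1 := true) (s2 := true) (a := 1) (b := 3) (c := 3) (cn := .dn) (n1 := ndB0q1) (n2 := ndB1q3) (pc := pcB3) (cut := Cut.none) (xt := Ext.none) (P1 := 536870912) (W1 := 536870912) (P2 := 1610612736) (W2 := 536870912) (P3 := 991146299) (W3 := 28908434) (N0 := 3) (En := eng) (mo := mog) (C1 := cd0q1) (C2 := cd1q3) (C3 := pd3)
    rfl k0_pp_133

noncomputable def f_pp_202 : ℕ → ℕ → ℕ → ℕ → Bool := onCell 0 536870912 0 536870912 991146299 28908434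
    (rowB 3 eng mog cd0q2 cd1q0 pd2 0 true true true .pp 2 0 2 (qsf 0 536870912 0 536870912 2) ndB0q2 ndB1q0 pcB2 Cut.none Ext.none)

def k0_pp_202 : ∃ t, chk3 f_pp_202 t 1 1 1 = true :=
  ⟨(l 5), by decide +kernel⟩

theorem c_pp_202 : CertB 0 536870912 0 536870912 991146299 28908434 3 eng mog cd0q2 cd1q0 pd2 true true true .pp 2 0 2
    ndB0q2 ndB1q0 pcB2 Cut.none Ext.none :=
  certB0 (fam := true) (s1 := true) (s2 := true) (a := 2) (b := 0) (c := 2) (cn := .pp) (n1 := ndB0q2) (n2 := ndB1q0) (pc := pcB2) (cut := Cut.none) (xt := Ext.none) (P1 := 0) (W1 := 536870912) (P2 := 0) (W2 := 536870912) (P3 := 991146299) (W3 := 28908434) (N0 := 3) (En := eng) (mo := mog) (C1 := cd0q2) (C2 := cd1q0) (C3 := pd2)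
    rfl k0_pp_202

noncomputable def f_pp_203 : ℕ → ℕ → ℕ → ℕ → Bool := onCell 0 536870912 0 536870912 991146299 28908434
    (rowB 3 eng mog cd0q2 cd1q0 pd3 0 true true true .up 2 0 3 (qsf 0 536870912 0 536870912 3) ndB0q2 ndB1q0 pcB3 Cut.none Ext.none)

def k0_pp_203 : ∃ t, chk3 f_pp_203 t 1 1 1 = true :=
  ⟨(l 5), by decide +kernel⟩

theorem c_pp_203 : CertB 0 536870912 0 536870912 991146299 28908434 3 eng mog cd0q2 cd1q0 pd3 true true true .up 2 0 3
    ndB0q2 ndB1q0 pcB3 Cut.none Ext.none :=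
  certB0 (fam := true) (s1 := true) (s2 := true) (a := 2) (b := 0) (c := 3) (cn := .up) (n1 := ndB0q2) (n2 := ndB1q0) (pc := pcB3) (cut := Cut.none) (xt := Ext.none) (P1 := 0) (W1 := 536870912) (P2 := 0) (W2 := 536870912) (P3 := 991146299) (W3 := 28908434) (N0 := 3) (En := eng) (mo := mog) (C1 := cd0q2) (C2 := cd1q0) (C3 := pd3)
    rfl k0_pp_203

noncomputable def f_pp_213 : ℕ → ℕ → ℕ → ℕ → Bool := onCell 0 536870912 536870912 536870912 991146299 28908434
    (rowB 3 eng mog cd0q2 cd1q1 pd3 0 true true true .pnn 2 1 3 (qsf 0 536870912 536870912 536870912 3) ndB0q2 ndB1q1 pcB3 Cut.none Ext.none)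

def k0_pp_213 : ∃ t, chk3 f_pp_213 t 1 1 1 = true :=
  ⟨(l 5), by decide +kernel⟩

theorem c_pp_213 : CertB 0 536870912 536870912 536870912 991146299 28908434 3 eng mog cd0q2 cd1q1 pd3 true true true .pnn 2 1 3
    ndB0q2 ndB1q1 pcB3 Cut.none Ext.none :=
  certB0 (fam := true) (s1 := true) (s2 := true) (a := 2) (b := 1) (c := 3) (cn := .pnn) (n1 := ndB0q2) (n2 := ndB1q1) (pc := pcB3) (cut := Cut.none) (xt := Ext.none) (P1 := 0) (W1 := 536870912) (P2 := 536870912) (W2 := 536870912) (P3 := 991146299) (W3 := 28908434) (N0 := 3) (En := eng) (mo := mog) (C1 := cd0q2) (C2 := cd1q1) (C3 := pd3)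
    rfl k0_pp_213

noncomputable def f_pm_001 : ℕ → ℕ → ℕ → ℕ → Bool := onCell 0 536870912 0 536870912 991146299 28908434
    (rowB 3 eng mog cd0q0 cd1q0 pd1 0 true true false .up 0 0 1 (qsf 0 536870912 0 536870912 1) ndB0q0 ndB1q0 pcB1 Cut.none Ext.none)

def k0_pm_001 : ∃ t, chk3 f_pm_001 t 1 1 1 = true :=
  ⟨(l 3), by decide +kernel⟩

theorem c_pm_001 : CertB 0 536870912 0 536870912 991146299 28908434 3 eng mog cd0q0 cd1q0 pd1 true true false .up 0 0 1
    ndB0q0 ndB1q0 pcB1 Cut.none Ext.none :=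
  certB0 (fam := true) (s1 := true) (s2 := false) (a := 0) (b := 0) (c := 1) (cn := .up) (n1 := ndB0q0) (n2 := ndB1q0) (pc := pcB1) (cut := Cut.none) (xt := Ext.none) (P1 := 0) (W1 := 536870912) (P2 := 0) (W2 := 536870912) (P3 := 991146299) (W3 := 28908434) (N0 := 3) (En := eng) (mo := mog) (C1 := cd0q0) (C2 := cd1q0) (C3 := pd1)
    rfl k0_pm_001

noncomputable def f_pm_011 : ℕ → ℕ → ℕ → ℕ → Bool := onCell 0 536870912 536870912 536870912 991146299 28908434
    (rowB 3 eng mog cd0q0 cd1q1 pd1 1 true true false .pnn 0 1 1 (qsf 0 536870912 536870912 536870912 1) ndB0q0 ndB1q1 pcB1 Cut.none Ext.none)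

def k0_pm_011 : ∃ t, chk3 f_pm_011 t 1 1 1 = true :=
  ⟨(l 3), by decide +kernel⟩

theorem c_pm_011 : CertB 0 536870912 536870912 536870912 991146299 28908434 3 eng mog cd0q0 cd1q1 pd1 true true false .pnn 0 1 1
    ndB0q0 ndB1q1 pcB1 Cut.none Ext.none :=
  certB1 (fam := true) (s1 := true) (s2 := false) (a := 0) (b := 1) (c := 1) (cn := .pnn) (n1 := ndB0q0) (n2 := ndB1q1) (pc := pcB1) (cut := Cut.none) (xt := Ext.none) (P1 := 0) (W1 := 536870912) (P2 := 536870912) (W2 := 536870912) (P3 := 991146299) (W3 := 28908434) (N0 := 3) (En := eng) (mo := mog) (C1 := cd0q0) (C2 := cd1q1) (C3 := pd1)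
    rfl (fun _ => rfl) k0_pm_011

noncomputable def f_pm_012 : ℕ → ℕ → ℕ → ℕ → Bool := onCell 1073741824 536870912 536870912 536870912 991146299 28908434
    (rowB 3 eng mog cd0q0 cd1q1 pd2 2 true true false .pnp 0 1 2 (qsf 0 536870912 536870912 536870912 2) ndB0q0 ndB1q1 pcB2 Cut.none Ext.none)

def k0_pm_012 : ∃ t, chk3 f_pm_012 t 4 1 1 = true :=
  ⟨(b (l 3) (a (l 3) (b (l 3) (b (l 3) (a (l 3) (a (l 3) (b (l 3) (a (l 3) (b (a (l 3) (c (l 101098637063) (l 122573513863))) (b (a (l 3) (c (l 74791907495) (l 16328048))) (a (c (l 110225390871) (l 16330296)) (c (l 16302632) (l 16319432))))))))))))), by decide +kernel⟩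

def k1_pm_012 : ∃ t, chk3 f_pm_012 t 5 2 1 = true :=
  ⟨(b (a (a (a (b (l 2) (l 3)) (l 2)) (l 2)) (l 2)) (a (a (a (l 3) (a (b (l 3) (l 3)) (a (b (b (a (b (l 2) (l 16494144)) (l 16406496)) (a (l 3) (l 16502696))) (l 3)) (b (b (l 65598353367) (l 16487536)) (b (l 16563736) (l 16598776)))))) (b (b (b (l 2) (a (l 16526408) (l 2))) (b (l 16473384) (l 16508280))) (b (a (l 16537672) (l 16583992)) (l 16515720)))) (b (a (b (l 2) (l 47344757591)) (l 2)) (a (b (a (l 16609104) (l 16655016)) (l 16615976)) (b (l 16692208) (l 16650656)))))), by decide +kernel⟩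

def k2_pm_012 : ∃ t, chk3 f_pm_012 t 5 6 1 = true :=
  ⟨(a (a (a (l 3) (a (b (l 3) (b (l 3) (a (l 3) (b (l 3) (l 138679879479))))) (a (b (l 3) (b (a (l 3) (l 16560528)) (a (b (l 16566128) (l 16525520)) (l 16499224)))) (b (b (l 16634056) (l 16669264)) (b (l 16553888) (l 16471256)))))) (b (b (l 16523568) (a (l 16611832) (l 16646672))) (b (b (a (l 16615928) (l 16582424)) (l 16493680)) (a (b (l 16531896) (l 16490464)) (l 16412664))))) (b (b (a (l 16653264) (l 16632304)) (a (l 16600784) (l 16542656))) (b (a (l 16386664) (l 16430288)) (a (b (l 16446184) (l 16402784)) (l 16339584))))), by decide +kernel⟩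

def k3_pm_012 : ∃ t, chk3 f_pm_012 t 40 7 1 = true :=
  ⟨(b (b (l 3) (a (l 3) (a (l 3) (b (c (l 16437288) (l 114520554999)) (c (a (l 16382368) (l 16376816)) (a (l 16408792) (l 16403816))))))) (b (a (b (l 3) (a (l 3) (c (b (l 16344184) (l 16329112)) (b (l 16353856) (l 16340784))))) (b (a (c (b (l 16364792) (l 16348232)) (b (l 16382680) (l 16370720))) (c (b (l 16353360) (l 16336648)) (b (l 16362200) (l 16347616)))) (a (c (b (l 16332296) (l 16317032)) (b (l 16343792) (l 16330784))) (c (a (l 16315800) (l 16310048)) (b (l 16333728) (l 16320600)))))) (a (b (a (c (b (l 16327000) (l 16313584)) (b (l 16338832) (l 16327576))) (c (b (l 16314720) (l 16301080)) (b (l 16328648) (l 16317488)))) (a (c (b (l 16301048) (l 16289568)) (b (l 16317616) (l 16329992))) (c (b (l 16288408) (l 16276824)) (b (l 16307408) (l 16319504))))) (b (a (c (b (l 16302544) (l 16288888)) (b (l 16318608) (l 16307320))) (c (a (l 16286784) (l 16280992)) (a (l 16305136) (l 16299872)))) (a (c (b (l 16297112) (l 16285464))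 (b (l 16317976) (l 16308840))) (b (c (l 16285288) (l 16307352)) (c (l 16273880) (l 16298216)))))))), by decide +kernel⟩

def k4_pm_012 : ∃ t, chk3 f_pm_012 t 82 7 1 = true :=
  ⟨(b (b (a (b (l 3) (c (l 16465432) (l 16442936))) (b (a (l 16495512) (l 16490608)) (a (c (l 16457760) (l 16456496)) (l 16431088)))) (a (b (c (c (l 16405080) (l 16406192)) (a (l 16431664) (l 16426704))) (c (c (l 16367080) (l 16370184)) (a (l 16398832) (l 16372824)))) (b (c (a (l 16418720) (l 16413608)) (a (l 16421688) (l 16416600))) (c (c (l 16356352) (l 16359648)) (b (l 16373168) (l 16357160)))))) (c (b (a (b (c (l 16331280) (l 16336384)) (c (l 16298088) (l 16305224))) (b (l 16336088) (b (l 16319384) (l 16304256)))) (a (b (b (l 16300360) (l 16286784)) (b (l 16253992) (a (l 16266544) (l 16264416)))) (b (a (l 16265200) (l 16262008)) (b (l 16269872) (l 16262536))))) (b (a (b (a (l 16347280) (l 16342128)) (c (l 16312792) (l 16320792))) (b (c (l 16331328) (l 16337360)) (c (l 16302328) (l 16310456)))) (a (b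 (b (l 16318680) (l 16307192)) (b (l 16276456) (l 16289744))) (b (a (l 16284632) (l 16281096)) (l 16267432)))))), by decide +kernel⟩

def k5_pm_012 : ∃ t, chk3 f_pm_012 t 166 7 1 = true :=
  ⟨(b (b (a (b (l 16485720) (l 16447072)) (b (l 16480856) (l 16442104))) (a (b (c (l 16408576) (l 16411448)) (c (l 16371192) (l 16378280))) (b (l 16404840) (l 16369424)))) (b (b (a (c (l 16336056) (l 16347328)) (c (l 16311264) (l 16322224))) (a (c (l 16284400) (l 16299544)) (c (l 16283224) (l 16297656)))) (b (c (b (l 16287360) (a (l 16277144) (l 16276896))) (b (l 16304488) (l 16274976))) (c (b (a (l 16268360) (l 16267976)) (a (l 16260864) (l 16260328))) (b (l 16267600) (l 16261488)))))), by decide +kernel⟩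

def k6_pm_012 : ∃ t, chk3 f_pm_012 t 167 14 1 = true :=
  ⟨(b (b (l 16473608) (a (l 16437160) (a (b (l 16422352) (c (l 16404488) (l 16403384))) (l 16432528)))) (a (b (a (l 16401048) (l 16399112)) (a (l 16366208) (c (l 16341976) (l 16348256)))) (b (b (c (l 16384768) (l 16385624)) (b (l 16372760) (l 16364752))) (c (b (l 16350928) (l 16335040)) (b (l 16355448) (l 16341336)))))), by decide +kernel⟩

def k7_pm_012 : ∃ t, chk3 f_pm_012 t 167 30 1 = true :=
  ⟨(a (b (a (b (l 16342968) (l 16329696)) (c (l 16332800) (l 16321536))) (c (a (l 16304784) (l 16285144)) (b (l 16303640) (l 16292864)))) (b (c (a (a (a (l 16334368) (a (l 16335552) (l 16315688))) (l 16336520)) (l 16334624)) (a (a (a (l 16343528) (b (l 16330256) (l 16317608))) (l 16324072)) (l 16322136))) (c (a (a (a (b (l 16313848) (l 16301352)) (a (b (l 16314976) (l 16302440)) (b (l 16316032) (b (l 16306496) (l 16300448))))) (b (l 16315864) (l 16303272))) (b (l 16313960) (l 16301360))) (a (a (a (l 16309528) (a (b (l 16326360)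 (l 16315456)) (b (l 16306208) (c (l 16312904) (l 16319688))))) (b (l 16326904) (l 16315952))) (b (l 16324968) (l 16314016)))))), by decide +kernel⟩

def k8_pm_012 : ∃ t, chk3 f_pm_012 t 167 31 1 = true :=
  ⟨(a (b (c (a (b (l 16287376) (l 16277160)) (b (l 16288552) (l 16278224))) (a (l 16278016) (b (l 16303920) (l 16295160)))) (c (a (b (l 16268112) (l 16260320)) (b (l 16269056) (a (l 16260680) (l 16261304)))) (a (l 16263008) (b (l 16287544) (l 16281168))))) (b (c (a (a (a (b (l 16289856) (l 16279440)) (a (b (l 16290896) (l 16280424)) (b (b (l 16294648) (l 16289120)) (b (c (l 16280224) (l 16287600)) (c (l 16275048) (l 16282808)))))) (b (l 16291664) (l 16281120))) (b (l 16289744) (l 16279200))) (a (a (a (b (l 16304736) (l 16295904)) (a (b (l 16305528) (l 16296640)) (b (b (l 16319144) (l 16282960)) (b (l 16278496) (c (l 16291016) (l 16299664)))))) (b (l 16305968) (l 16297032))) (b (l 16304040) (l 16295104)))) (c (a (a (a (b (l 16270168) (l 16262128)) (a (b (l 16271096) (l 16262992))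 (b (c (b (l 16270160) (l 16265576)) (b (l 16278312) (l 16274112))) (c (b (l 16261304) (l 16257360)) (b (l 16270232) (l 16266664)))))) (b (l 16271712) (l 16263536))) (b (l 16269800) (l 16261616))) (a (a (a (b (l 16288200) (l 16281728)) (a (b (l 16288896) (l 16282368)) (b (b (c (l 16286920) (l 16295976)) (c (l 16283112) (l 16292576))) (b (c (l 16279624) (l 16289496)) (c (l 16276456) (l 16286736)))))) (b (l 16289224) (l 16282632))) (b (l 16287304) (l 16280720)))))), by decide +kernel⟩

def k9_pm_012 : ∃ t, chk3 f_pm_012 t 21 7 1 = true :=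
  ⟨(b (b (b (a (l 16449880) (l 16412976)) (a (b (l 16420624) (l 16402952)) (l 16373720))) (b (a (b (l 16385920) (l 16369472)) (l 16338968)) (a (a (c (l 16332840) (l 16358480)) (c (l 16334240) (l 16338256))) (c (l 16305656) (l 16308536))))) (b (b (a (c (b (l 16299744) (l 16295744)) (a (b (l 16337960) (l 16325272)) (l 16290344))) (c (l 16253688) (l 16281536))) (a (a (c (b (l 16302600) (l 16268992)) (b (l 16292456) (l 16292000))) (c (l 16255328) (b (l 16293144) (l 16282216)))) (c (b (l 16253600) (l 16240824)) (b (l 16263352) (l 16252456))))) (b (a (c (b (a (l 16257360) (l 16258328)) (a (a (l 16272832) (l 16262720)) (l 16247752))) (b (a (a (l 16276648) (l 16287416)) (l 16272272)) (a (a (l 16267728) (l 16278512)) (l 16263408)))) (c (a (l 16212400) (l 16214136)) (b (l 16242568) (l 16233784)))) (a (c (b (a (a (l 16263432) (l 16253320)) (l 16238360)) (a (b (l 16252104) (l 16248344)) (l 16230216))) (b (a (a (l 16265184) (l 16270760)) (l 16255704)) (a (c (l 16243376) (l 16253400)) (l 16249248))))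 (c (b (l 16188128) (l 16180024)) (b (l 16226176) (l 16219856))))))), by decide +kernel⟩

def k10_pm_012 : ∃ t, chk3 f_pm_012 t 11 7 1 = true :=
  ⟨(b (b (a (b (l 16360304) (l 16319616)) (b (l 16294224) (l 16251856))) (a (b (a (l 16301560) (l 16265392)) (a (l 16269216) (l 16232712))) (b (l 16213416) (l 16180240)))) (b (a (b (a (l 16239936) (l 16203200)) (a (b (l 16220184) (l 16208296)) (l 16177360))) (b (l 16150400) (a (l 16141704) (l 16107152)))) (a (b (a (c (l 16165048) (l 16199632)) (b (l 16160632) (l 16151016))) (a (c (l 16146312) (l 16184776)) (b (l 16142664) (l 16135688)))) (b (a (l 16120152) (l 16085640)) (a (l 16103680) (l 16069352)))))), by decide +kernel⟩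

def k11_pm_012 : ∃ t, chk3 f_pm_012 t 3 1 1 = true :=
  ⟨(b (a (b (l 2) (a (b (l 2) (b (l 2) (a (l 16669408) (l 2)))) (l 2))) (l 2)) (b (a (b (a (b (a (l 16580504) (l 16530968)) (a (l 16466968) (l 16436136))) (b (l 2) (l 16195128))) (a (b (a (l 16393872) (l 16339848)) (a (l 16300664) (l 16244400))) (b (a (l 16288640) (l 16239848)) (a (l 16191288) (l 16140816))))) (b (l 2) (a (a (l 72576506263) (l 2)) (l 2)))) (a (b (a (b (a (l 16210816) (l 16152464)) (a (b (l 16148264) (l 16113776)) (l 16069384))) (b (a (l 16097472) (l 16045368)) (a (l 16011648) (l 15957248)))) (a (b (a (b (l 16083520) (l 16057336)) (b (l 16020288) (l 15993912))) (a (b (l 16035872) (a (l 16036040) (l 16003680))) (b (l 15972496) (l 15956816)))) (b (a (l 15946656) (l 15888952)) (a (b (l 15912144) (l 15896752)) (l 15846392))))) (b (a (b (a (l 15995656) (l 15947984)) (a (l 15905712) (l 15856672))) (a (l 84387154071) (l 2))) (a (b (a (l 15833488) (l 15780816)) (a (l 15790528) (l 15736192))) (b (a (l 15730592) (l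 15682496)) (a (l 15683048) (l 15630800)))))))), by decide +kernel⟩

theorem s12_pm_012 : ∃ t, chk3 f_pm_012 t 167 15 1 = true := ex3_b k7_pm_012 k8_pm_012

theorem s13_pm_012 : ∃ t, chk3 f_pm_012 t 167 7 1 = true := ex3_b k6_pm_012 s12_pm_012

theorem s14_pm_012 : ∃ t, chk3 f_pm_012 t 83 7 1 = true := ex3_a k5_pm_012 s13_pm_012

theorem s15_pm_012 : ∃ t, chk3 f_pm_012 t 41 7 1 = true := ex3_a k4_pm_012 s14_pm_012

theorem s16_pm_012 : ∃ t, chk3 f_pm_012 t 20 7 1 = true := ex3_a k3_pm_012 s15_pm_012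

theorem s17_pm_012 : ∃ t, chk3 f_pm_012 t 10 7 1 = true := ex3_a s16_pm_012 k9_pm_012

theorem s18_pm_012 : ∃ t, chk3 f_pm_012 t 5 7 1 = true := ex3_a s17_pm_012 k10_pm_012

theorem s19_pm_012 : ∃ t, chk3 f_pm_012 t 5 3 1 = true := ex3_b k2_pm_012 s18_pm_012

theorem s20_pm_012 : ∃ t, chk3 f_pm_012 t 5 1 1 = true := ex3_b k1_pm_012 s19_pm_012

theorem s21_pm_012 : ∃ t, chk3 f_pm_012 t 2 1 1 = true := ex3_a k0_pm_012 s20_pm_012

theorem s22_pm_012 : ∃ t, chk3 f_pm_012 t 1 1 1 = true := ex3_a s21_pm_012 k11_pm_012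

theorem c_pm_012 : CertB 0 536870912 536870912 536870912 991146299 28908434 3 eng mog cd0q0 cd1q1 pd2 true true false .pnp 0 1 2
    ndB0q0 ndB1q1 pcB2 Cut.none Ext.none :=
  certB2 (fam := true) (s1 := true) (s2 := false) (a := 0) (b := 1) (c := 2) (cn := .pnp) (n1 := ndB0q0) (n2 := ndB1q1) (pc := pcB2) (cut := Cut.none) (xt := Ext.none) (P1 := 0) (W1 := 536870912) (P2 := 536870912) (W2 := 536870912) (P3 := 991146299) (W3 := 28908434) (N0 := 3) (En := eng) (mo := mog) (C1 := cd0q0) (C2 := cd1q1) (C3 := pd2)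
    rfl (fun _ => rfl) s22_pm_012

noncomputable def cut_pm_022_a : Cut := Cut.of [[⟨0, 0, 0, 53687091⟩, ⟨1, 1, 0, 53687091⟩, ⟨2, 1, 0, 53687091⟩]]

noncomputable def f_pm_022_a : ℕ → ℕ → ℕ → ℕ → Bool := onCell 1073741824 536870912 0 536870912 991146299 28908434
    (rowB 3 eng mog cd0q0 cd1q2a pd2 2 true true false .pp 0 2 2 (qsf 0 536870912 0 536870912 2) ndB0q0 ndB1q2a pcB2 cut_pm_022_a Ext.none)

def k0_pm_022_a : ∃ t, chk3 f_pm_022_a t 8 1 1 = true :=
  ⟨(b (l 1) (b (l 1) (a (b (l 1) (l 6)) (a (b (b (l 1) (b (l 1) (l 6))) (l 6)) (a (b (b (l 1) (b (a (b (l 1) (c (l 16502912) (l 16445584))) (c (b (l 16491248) (l 16511320)) (b (l 16431584) (l 16455088)))) (b (c (l 16507184) (c (l 16488552) (l 16461176))) (c (l 16529128) (l 16479600))))) (b (b (c (a (l 16539304) (l 16567352)) (a (l 16474192) (l 16523856))) (c (b (l 16621080) (l 16625512)) (b (l 16583136) (l 16612600)))) (b (c (a (l 16620800) (l 16647224)) (a (l 16614128) (l 16619696))) (b (c (l 16668192) (l 16685944)) (c (a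 (l 16673056) (l 16660672)) (l 16662608)))))) (b (b (b (l 1) (c (b (l 16468368) (l 16486304)) (b (l 16404400) (l 16425416)))) (b (c (b (l 16505048) (l 16524616)) (b (l 16447336) (l 16470144))) (c (b (l 16545008) (l 16566232)) (b (l 16493872) (l 16518528))))) (b (b (c (l 16557816) (l 16515424)) (c (l 16605376) (l 16570400))) (b (b (l 16607880) (l 16636232)) (c (b (l 16642232) (b (l 16646872) (l 16635536))) (b (l 16663520) (l 16637208))))))))))), by decide +kernel⟩

def k1_pm_022_a : ∃ t, chk3 f_pm_022_a t 18 1 1 = true :=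
  ⟨(b (l 1) (a (a (b (l 1) (b (b (b (c (b (l 16456784) (l 16472568)) (b (l 16390584) (l 16409064))) (c (b (l 16489128) (l 16506480)) (b (l 16428392) (l 16448600)))) (b (c (l 16492160) (b (l 16469688) (l 16491664))) (c (l 16552688) (l 16505464)))) (b (b (c (l 16574576) (l 16554896)) (b (l 16570392) (l 16596104))) (b (b (l 16622792) (l 16604936)) (b (a (l 16631952) (l 16617616)) (c (l 16593136) (l 16630952))))))) (b (b (l 1) (b (l 1) (b (a (l 1) (c (l 16414240) (l 16344464))) (c (b (c (l 16465320) (l 16432752)) (l 16465080)) (b (c (l 16399176) (l 16364576)) (l 16400288)))))) (b (b (c (b (l 16466280) (l 16498416)) (b (l 16405136) (l 16442400))) (b (c (l 16533696) (l 16483128)) (c (l 16572184) (l 16527400)))) (b (b (c (l 16592960) (l 16575288)) (b (l 16588856) (l 16613768))) (b (b (l 16616264) (l 16596136)) (c (b (l 16627872) (l 16586456)) (l 16573176))))))) (b (b (l 1) (b (a (b (l 1) (c (l 16377248) (l 16306264))) (c (b (l 16350968) (l 16401376)) (b (l 16280704) (l 16335152))))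 (c (b (a (c (l 16447296) (l 16415096)) (l 16433712)) (b (a (l 16430328) (l 16495736)) (l 16480424))) (b (a (c (l 16381880) (l 16347648)) (l 16350816)) (b (a (c (l 16425488) (l 16393088)) (l 16416256)) (l 16400888)))))) (c (b (b (a (b (l 16510712) (l 16542024)) (l 16466448)) (b (l 16524840) (l 16541376))) (b (b (l 16581472) (l 16560032)) (b (b (l 16577752) (l 16540000)) (a (b (l 16599024) (l 16579752)) (b (l 16570352) (l 16551752)))))) (b (b (b (a (l 16453400) (l 16481624)) (a (l 16489448) (l 16516648))) (b (l 16457944) (l 16500688))) (b (b (l 16546320) (l 16590232)) (b (a (l 16608952) (l 16598592)) (a (l 16565320) (l 16556984))))))))), by decide +kernel⟩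

def k2_pm_022_a : ∃ t, chk3 f_pm_022_a t 19 1 1 = true :=
  ⟨(b (b (l 1) (a (l 1) (a (l 1) (b (l 1) (b (l 1) (l 16276440)))))) (c (b (b (a (b (l 16238976) (a (l 16307664) (l 16334984))) (b (l 16276840) (l 16293200))) (b (a (b (l 16305624) (l 16333904)) (a (l 16411656) (l 16438656))) (a (b (c (l 16483136) (l 16456488)) (a (l 16466376) (l 16491280))) (b (l 16457424) (c (l 16539272) (l 16519000)))))) (b (b (a (b (l 16509848) (l 16540152)) (a (l 16576568) (l 16564696))) (a (a (l 16557656) (l 16559456)) (b (l 16518368) (l 16521760)))) (b (a (b (l 16543616) (l 16517800)) (b (l 16500728) (l 16454976))) (a (b (a (l 16566272) (l 16535912)) (a (l 16532560) (l 16503168))) (b (l 16469312) (a (l 16473088) (l 16442288))))))) (b (b (a (b (l 16165296) (a (l 16237224) (l 16269984))) (b (l 16215072) (l 16215480))) (b (a (a (a (l 16288528) (l 16345688)) (l 16305904)) (c (l 16387232) (l 16360992))) (a (a (b (l 16421328) (b (l 16465464) (l 16487112))) (b (l 16450552) (l 16463496))) (b (l 16432648)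 (b (l 16475096) (l 16479264)))))) (b (b (a (b (l 16483568) (l 16496840)) (a (l 16524888) (l 16555368))) (a (b (l 16512776) (l 16573560)) (b (l 16573072) (l 16530792)))) (b (a (b (l 16574816) (l 16543952)) (a (l 16508680) (l 16474432))) (a (b (l 16508960) (a (l 16548352) (l 16517680))) (b (l 16486480) (l 16427848)))))))), by decide +kernel⟩

def k3_pm_022_a : ∃ t, chk3 f_pm_022_a t 5 2 1 = true :=
  ⟨(a (b (a (a (l 1) (b (c (l 16156296) (l 16115192)) (c (l 16184520) (l 16141840)))) (a (b (l 16233304) (l 16190656)) (b (l 16332016) (l 16324312)))) (a (a (b (c (l 16168384) (l 16110256)) (c (b (l 16235872) (l 16292744)) (b (l 16180344) (l 16239760)))) (b (c (l 16242088) (l 16199328)) (c (l 16269512) (l 16249728)))) (b (a (c (l 16317784) (l 16290392)) (c (l 16374808) (l 16362784))) (a (a (l 16285776) (l 16324944)) (c (l 16473928) (l 16460344)))))) (b (c (a (c (l 16281216) (l 16291280)) (a (l 16365968) (l 16260024))) (a (c (l 16308936) (l 16277936)) (b (l 16224224) (l 16254216)))) (a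 (b (c (l 16367856) (l 16338984)) (a (b (l 16512752) (l 16497984)) (c (l 16444864) (l 16436208)))) (b (a (l 16322832) (l 16322848)) (a (l 16317304) (l 16238888)))))), by decide +kernel⟩

def k4_pm_022_a : ∃ t, chk3 f_pm_022_a t 10 6 1 = true :=
  ⟨(a (a (c (b (b (l 16359048) (l 16393384)) (b (l 16417624) (b (l 16550184) (l 16456136)))) (b (b (l 16309328) (l 16347744)) (b (l 16356048) (a (l 16484672) (l 16512560))))) (b (b (c (l 16422488) (l 16384920)) (c (l 16474976) (a (l 16443248) (l 16479672)))) (b (b (l 16415608) (l 16451080)) (b (a (l 16499656) (l 16468616)) (a (l 16446608) (a (l 16487032) (a (l 16476280) (b (l 16497376) (c (l 16450648) (l 16452864)))))))))) (b (a (b (l 16349712) (l 16398672)) (b (l 16477336) (l 16403384))) (c (b (c (l 16378512) (l 16366608)) (a (l 16379088) (l 16412744))) (b (a (l 16497088) (l 16433424)) (a (l 16378376) (l 16404384)))))), by decide +kernel⟩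

def k5_pm_022_a : ∃ t, chk3 f_pm_022_a t 20 7 1 = true :=
  ⟨(b (a (b (a (a (l 16514792) (l 16497784)) (c (l 16521624) (l 16509008))) (a (c (l 16503600) (l 16509696)) (b (l 16492960) (l 16495440)))) (a (b (c (l 16490912) (l 16495552)) (c (l 16461488) (l 16482112))) (a (b (c (l 16468312) (l 16491176)) (c (l 16436864) (l 16454976))) (a (b (l 16425696) (c (l 16423184) (l 16439984))) (b (b (c (l 16457800) (l 16479472)) (l 16409416)) (c (b (l 16424112) (l 16403088)) (l 16387728))))))) (a (a (b (b (l 16506440) (l 16480320)) (b (l 16429008) (c (l 16410648) (l 16420104)))) (b (b (l 16473040) (l 16446688)) (b (l 16395216) (c (l 16377832) (l 16385192))))) (a (b (b (l 16417568) (l 16369592)) (b (c (l 16376088) (l 16385168)) (c (l 16342856) (l 16347888)))) (a (b (b (l 16411192) (l 16383256)) (b (l 16309376) (c (l 16313832) (l 16316872)))) (b (a (b (l 16395328) (l 16366392)) (b (c (l 16357616) (l 16390248)) (c (b (l 16336928) (l 16321920)) (l 16358880)))) (b (a (c (l 16330744) (l 16336496))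 (a (a (a (l 16325096) (c (l 16298248) (l 16303280))) (l 16318816)) (l 16316648))) (a (c (l 16274664) (l 16276504)) (c (a (a (a (l 16286888) (a (l 16284200) (b (l 16291464) (l 16272296)))) (l 16280192)) (l 16278224)) (a (a (a (l 16288192) (a (l 16285360) (l 16262008))) (l 16281112)) (l 16278936)))))))))), by decide +kernel⟩

def k6_pm_022_a : ∃ t, chk3 f_pm_022_a t 21 7 1 = true :=
  ⟨(b (b (b (c (a (l 16426352) (l 16375920)) (a (l 16443928) (l 16386552))) (a (l 16419864) (l 16367240))) (a (c (l 16384848) (l 16397216)) (c (l 16337912) (l 16344320)))) (b (a (c (b (l 16350408) (l 16322960)) (b (l 16358840) (l 16328400))) (c (b (l 16305912) (l 16280176)) (b (l 16308960) (l 16280584)))) (a (b (c (l 16270704) (l 16293768)) (c (c (l 16235880) (l 16234832)) (c (l 16234000) (l 16254360)))) (c (b (l 16250712) (b (l 16225928) (l 16208048))) (b (l 16248120) (l 16190072)))))), by decide +kernel⟩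

def k7_pm_022_a : ∃ t, chk3 f_pm_022_a t 11 3 1 = true :=
  ⟨(b (a (b (a (c (l 16376456) (l 16382136)) (c (l 16408256) (l 16404112))) (c (b (a (l 16410368) (l 16362264)) (a (l 16365040) (l 16320368))) (b (a (l 16416344) (l 16359960)) (a (l 16370208) (l 16318376))))) (b (c (a (l 16358624) (l 16312112)) (a (l 16344936) (l 16289248))) (c (b (l 16232976) (a (l 16278488) (l 16239536))) (b (a (l 16306944) (l 16257064)) (a (l 16269552) (l 16223880)))))) (b (a (b (c (b (a (l 16328896) (l 16264464)) (l 16294688)) (b (a (l 16332872) (l 16283064)) (l 16294552))) (a (c (l 16293832) (l 16294504)) (c (l 16231840) (l 16247976)))) (b (b (c (c (l 16229640) (l 16223896)) (a (l 16236816) (l 16193504))) (c (l 16213880) (l 16202104))) (c (b (l 16181928) (l 16167912)) (b (l 16190464) (l 16175448))))) (b (a (c (b (l 16244728) (c (l 16202096) (l 16219496))) (a (l 16249272) (l 16206016))) (c (b (l 16150648) (a (l 16167432) (l 16134592))) (a (l 16144256) (l 16105840)))) (a (a (c (b (l 16212200) (b (l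 16188592) (l 16171512))) (b (l 16204976) (l 16148768))) (c (b (l 16176096) (l 16145568)) (b (l 16164264) (l 16130768)))) (c (b (a (l 16142328) (l 16110840)) (a (l 16113264) (l 16083168))) (a (b (l 16125888) (l 16094040)) (l 16053992))))))), by decide +kernel⟩

def k8_pm_022_a : ∃ t, chk3 f_pm_022_a t 3 2 1 = true :=
  ⟨(a (a (b (a (c (b (l 16221616) (l 16247880)) (b (l 16130760) (l 16172720))) (c (b (l 16111648) (l 16145544)) (b (l 15990928) (l 16043704)))) (a (b (c (l 16264336) (l 16203776)) (c (l 16266368) (l 16198008))) (b (c (l 16170192) (l 16086248)) (c (l 16180680) (l 16050288))))) (b (a (c (b (l 16015696) (l 16056392)) (b (l 15762752) (l 15929992))) (c (b (a (l 15952128) (l 15913800)) (l 15979336)) (b (a (l 15784984) (l 15734640)) (l 15830248)))) (a (b (c (l 16088304) (l 15982680)) (c (l 16106768) (l 16020552))) (b (c (l 16017688) (l 15891856)) (c (l 16043168) (l 15939168)))))) (b (a (c (a (b (a (l 15878624) (l 15846600)) (l 15914200)) (b (a (l 15817680) (l 15791800))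 (l 15860696))) (a (b (a (l 15688008) (l 15645064)) (a (l 15764336) (l 15724728))) (b (a (l 15605808) (l 15570280)) (a (l 15688520) (l 15655744))))) (c (a (b (b (l 15722192) (l 15774136)) (l 15818448)) (b (a (l 15711112) (l 15718064)) (l 15787192))) (b (a (b (l 15501160) (l 15546872)) (b (l 15451488) (l 15498912))) (a (b (l 15591480) (l 15634464)) (b (l 15545344) (l 15590296)))))) (a (a (b (c (l 15958216) (l 15813600)) (c (l 15989856) (l 15869288))) (c (b (l 15909520) (l 15946456)) (b (l 15747848) (l 15810760)))) (c (b (a (l 15871208) (l 15822072)) (a (l 15891552) (l 15866808))) (b (a (l 15694576) (l 15653568)) (a (l 15763512) (l 15727296))))))), by decide +kernel⟩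

def k9_pm_022_a : ∃ t, chk3 f_pm_022_a t 6 6 1 = true :=
  ⟨(a (b (a (c (a (l 16268496) (l 16227664)) (a (l 16236736) (l 16187272))) (c (a (l 16189864) (l 16133432)) (a (l 16141160) (l 16097520)))) (a (c (b (l 16217176) (c (l 16192080) (l 16179576))) (b (l 16188056) (c (l 16166816) (l 16153800)))) (c (b (l 16148504) (c (l 16110824) (l 16092080))) (b (l 16104984) (c (l 16093840) (l 16074152)))))) (b (a (c (b (l 16108776) (l 16081632)) (b (l 16035888) (l 16037800))) (c (b (l 16050792) (l 16048624)) (b (l 15961968) (l 15969088)))) (a (c (b (l 16068520) (a (l 16080888) (l 16056040))) (b (l 16031960) (l 16017208))) (b (a (l 15996840) (l 15970936)) (c (a (l 16033336) (l 16012672)) (l 15938560)))))), by decide +kernel⟩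

def k10_pm_022_a : ∃ t, chk3 f_pm_022_a t 6 7 1 = true :=
  ⟨(b (a (b (b (a (c (c (l 16141984) (l 16130488)) (c (l 16139768) (l 16127896))) (c (l 16075984) (l 16061648))) (a (a (l 16149752) (a (l 16122760) (l 16147304))) (c (a (l 16096024) (l 16068200)) (b (l 16039376) (l 16046784))))) (a (a (b (l 16140312) (l 16127720)) (b (l 16105864) (l 16094472))) (c (a (l 16084472) (l 16057744)) (l 16016000)))) (b (b (a (c (a (l 16058280) (l 16035240)) (l 15978592)) (c (l 16067456) (l 15988160))) (a (c (a (l 16043064) (l 16020432)) (a (l 16000648) (l 15972688))) (c (a (l 16000048) (l 15981712)) (a (l 15947184) (l 15923896))))) (a (c (a (l 16033136) (l 16010544)) (a (l 15991280) (l 15963720))) (c (a (l 15989880) (l 15971088)) (l 15989512))))) (a (a (b (c (a (l 16155664) (l 16084776)) (c (l 16059152) (l 16067168))) (c (b (a (l 16081560) (l 16054384)) (a (l 16055208) (l 16029248))) (a (l 16020728) (l 15989536)))) (b (c (a (l 16057960) (l 16033192)) (l 16002312)) (c (b (l 16017504) (l 16014944))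 (c (l 15956512) (l 15936928))))) (a (b (c (a (l 16010336) (l 15989328)) (l 15934032)) (c (a (l 15973680) (l 15954280)) (l 15896104))) (b (c (l 16066184) (l 15949712)) (c (a (l 15936440) (l 15920104)) (a (l 15883480) (l 15863312))))))), by decide +kernel⟩

def k11_pm_022_a : ∃ t, chk3 f_pm_022_a t 7 3 1 = true :=
  ⟨(b (a (b (c (a (b (l 16002480) (l 16003816)) (l 15945048)) (a (b (l 15898696) (l 15910496)) (l 15854512))) (a (c (b (l 16019504) (a (l 15993992) (l 15977232))) (b (l 15893968) (a (l 15921992) (l 15899816)))) (c (b (l 15965520) (l 16039696)) (b (l 15870512) (l 15933536))))) (b (c (a (b (l 15932944) (l 15939848)) (b (l 15910976) (l 15919720))) (a (l 15813792) (l 15762008))) (c (a (b (l 15940240) (l 15933008)) (b (l 15922016) (l 15916512))) (a (b (l 15835040) (l 15838840)) (b (l 15808456) (l 15815264)))))) (b (b (a (a (c (a (l 15972664) (l 15957088)) (a (l 15908424) (l 15887936))) (c (a (l 15942968) (l 15931320)) (a (l 15868960) (l 15853000)))) (a (c (l 15937776) (l 15832792))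 (c (l 15901816) (l 15812264)))) (b (c (a (a (l 15969552) (l 15962352)) (a (l 15899968) (l 15885488))) (a (a (l 15885464) (l 15849104)) (a (l 15822400) (l 15804088)))) (a (a (a (l 15921368) (l 15904320)) (l 15965960)) (a (l 15857760) (l 15839288))))) (a (a (b (c (l 15950368) (l 15867840)) (c (l 15919192) (l 15836440))) (b (c (l 15903088) (l 15834944)) (c (l 15872552) (l 15805752)))) (a (b (c (l 15881344) (l 15808968)) (c (l 15850336) (l 15781096))) (b (c (l 15863456) (l 15789448)) (c (l 15830968) (l 15761768))))))), by decide +kernel⟩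

theorem s12_pm_022_a : ∃ t, chk3 f_pm_022_a t 6 3 1 = true := ex3_b k9_pm_022_a k10_pm_022_a

theorem s13_pm_022_a : ∃ t, chk3 f_pm_022_a t 3 3 1 = true := ex3_a s12_pm_022_a k11_pm_022_a

theorem s14_pm_022_a : ∃ t, chk3 f_pm_022_a t 3 1 1 = true := ex3_b k8_pm_022_a s13_pm_022_a

theorem s15_pm_022_a : ∃ t, chk3 f_pm_022_a t 10 7 1 = true := ex3_a k5_pm_022_a k6_pm_022_a

theorem s16_pm_022_a : ∃ t, chk3 f_pm_022_a t 10 3 1 = true := ex3_b k4_pm_022_a s15_pm_022_a

theorem s17_pm_022_a : ∃ t, chk3 f_pm_022_a t 5 3 1 = true := ex3_a s16_pm_022_a k7_pm_022_a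

theorem s18_pm_022_a : ∃ t, chk3 f_pm_022_a t 5 1 1 = true := ex3_b k3_pm_022_a s17_pm_022_a

theorem s19_pm_022_a : ∃ t, chk3 f_pm_022_a t 9 1 1 = true := ex3_a k1_pm_022_a k2_pm_022_a

theorem s20_pm_022_a : ∃ t, chk3 f_pm_022_a t 4 1 1 = true := ex3_a k0_pm_022_a s19_pm_022_a

theorem s21_pm_022_a : ∃ t, chk3 f_pm_022_a t 2 1 1 = true := ex3_a s20_pm_022_a s18_pm_022_a

theorem s22_pm_022_a : ∃ t, chk3 f_pm_022_a t 1 1 1 = true := ex3_a s21_pm_022_a s14_pm_022_a

theorem c_pm_022_a : CertB 0 536870912 0 536870912 991146299 28908434 3 eng mog cd0q0 cd1q2a pd2 true true false .pp 0 2 2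
    ndB0q0 ndB1q2a pcB2 cut_pm_022_a Ext.none :=
  certB2 (fam := true) (s1 := true) (s2 := false) (a := 0) (b := 2) (c := 2) (cn := .pp) (n1 := ndB0q0) (n2 := ndB1q2a) (pc := pcB2) (cut := cut_pm_022_a) (xt := Ext.none) (P1 := 0) (W1 := 536870912) (P2 := 0) (W2 := 536870912) (P3 := 991146299) (W3 := 28908434) (N0 := 3) (En := eng) (mo := mog) (C1 := cd0q0) (C2 := cd1q2a) (C3 := pd2)
    rfl (fun _ => rfl) s22_pm_022_a

end Pool.Agent.Strip051.G.I9231_9500.Tab.C.BA01

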