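import Pool.Agent.Strip051.G.I9231_9500.Tab
import Pool.Agent.Strip051.PB.ExtD3

/-! # Certificates B8 (generated) -/

set_option linter.all false
set_option maxRecDepth 100000

namespace Pool.Agent.Strip051.G.I9231_9500.Tab.C.BA01

open Pool.Agent.Strip051.PB Pool.Agent.Strip051.PB.T
open Pool.Agent.Strip051.G.I9231_9500.Tab

noncomputable def cut_pm_022_b : Cut := Cut.of [[⟨0, 0, 0, 53687091⟩, ⟨1, 1, 0, 53687091⟩, ⟨2, 1, 0, 53687091⟩]]

noncomputable def f_pm_022_b : ℕ → ℕ → ℕ → ℕ → Bool := onCell 0 536870912 1073741824 536870912 991146299 28908434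
    (rowB 3 eng mog cd0q0 cd1q2b pd2 1 true true false .pp 0 2 2 (qsf 0 536870912 1239849684 370763052 2) ndB0q0 ndB1q2b pcB2 cut_pm_022_b Ext.none)

def k0_pm_022_b : ∃ t, chk3 f_pm_022_b t 2 2 1 = true :=
  ⟨(a (b (l 1) (a (b (a (b (c (l 282426338743) (l 292089878263)) (c (l 244308550279) (l 16142848))) (b (l 1) (c (l 280816249271) (l 309807203767)))) (a (c (b (l 16282096) (l 16283688)) (b (l 16283840) (l 16323096))) (b (a (l 16306968) (l 254509403591)) (c (l 16363952) (l 16304944))))) (b (l 1) (a (b (b (l 1) (l 373694872423)) (c (l 16252008) (l 16187344))) (b (l 1) (c (l 271688998455) (l 279741896887))))))) (l 1)), by decide +kernel⟩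

def k1_pm_022_b : ∃ t, chk3 f_pm_022_b t 2 3 1 = true :=
  ⟨(a (b (a (a (b (b (l 16125272) (l 15985656)) (c (l 15939088) (l 15595264))) (b (b (c (l 16247736) (l 16158648)) (c (l 16132640) (l 16014672))) (c (l 15773296) (b (l 15873056) (l 15733992))))) (b (a (b (c (l 16230584) (l 16136240)) (c (l 16126352) (l 16003544))) (b (c (l 16207616) (l 16087856)) (c (l 16113592) (l 15986784)))) (c (a (b (l 16023208) (l 15921280)) (b (l 16020600) (l 15928760))) (a (b (l 15873184) (l 15745312)) (b (l 15867040) (l 15749752)))))) (a (b (c (a (l 15613152) (l 15677032)) (a (l 15490784) (l 15488672))) (c (a (l 15464208) (l 15526584)) (a (l 15212808) (l 15273192)))) (b (c (a (l 15729048) (l 15709544)) (a (l 15369856) (b (l 15635216) (l 15523888)))) (c (a (l 15578336) (l 15620328)) (a (l 15323048) (l 15363864)))))) (b (a (b (b (a (c (l 296922002487) (l 308733025943)) (l 1)) (c (a (l 16109520) (l 289405580231)) (a (l 148745270631) (l 295310972615)))) (b (c (a (l 16010568) (l 177199391063)) (a (l 15854048) (l 146597513255))) (c (a (l 15928432)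 (l 15921504)) (a (l 15746968) (l 15738072))))) (b (l 1) (b (a (c (l 280278563495) (l 281352069591)) (l 1)) (a (c (l 187936618487) (b (l 15744736) (l 15701456))) (c (l 269540967431) (l 263635080007)))))) (b (a (c (b (a (l 15847592) (l 15849856)) (a (l 15768368) (l 15779744))) (b (a (l 15642592) (l 15643424)) (a (l 15541336) (l 15551832)))) (c (b (a (l 15845472) (l 196526395463)) (a (l 15784104) (l 15782288))) (b (a (l 15637728) (b (l 15634376) (l 15586528))) (a (l 15555504) (l 15563312))))) (a (c (b (l 15702536) (l 15632456)) (b (l 15454944) (l 15366600))) (c (b (a (l 15724608) (l 15731064)) (a (l 15667504) (l 15682144))) (b (a (l 15476800) (l 15483104)) (a (l 15402296) (l 15417480)))))))), by decide +kernel⟩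

def k2_pm_022_b : ∃ t, chk3 f_pm_022_b t 3 1 1 = true :=
  ⟨(b (l 1) (b (l 1) (a (b (a (b (a (c (l 260950889207) (b (l 1) (l 247528640039))) (l 1)) (b (a (c (l 242697194327) (l 230348702999)) (l 1)) (a (c (l 15722304) (l 172903578023)) (c (l 249139594631) (l 243770555527))))) (l 1)) (a (c (b (a (l 15710832) (b (l 233033419879) (l 203505474423))) (a (l 15669672) (b (l 15702088) (l 15685800)))) (b (a (b (l 15498368) (l 15468776)) (a (l 191693855431) (l 215316158423))) (a (l 15426288) (b (l 15441320) (l 15417992))))) (b (a (b (l 1) (c (l 243770810391) (l 228738068183))) (l 1)) (a (c (b (l 223906548471) (l 204579159543)) (b (l 211558146439) (l 190083259063))) (b (l 1) (c (l 244307628615) (l 233032929447))))))) (l 1)))), by decide +kernel⟩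

theorem s3_pm_022_b : ∃ t, chk3 f_pm_022_b t 2 1 1 = true := ex3_b k0_pm_022_b k1_pm_022_b

theorem s4_pm_022_b : ∃ t, chk3 f_pm_022_b t 1 1 1 = true := ex3_a s3_pm_022_b k2_pm_022_b

theorem c_pm_022_b : CertB 0 536870912 1239849684 370763052 991146299 28908434 3 eng mog cd0q0 cd1q2b pd2 true true false .pp 0 2 2
    ndB0q0 ndB1q2b pcB2 cut_pm_022_b Ext.none :=
  certB1 (fam := true) (s1 := true) (s2 := false) (a := 0) (b := 2) (c := 2) (cn := .pp) (n1 := ndB0q0) (n2 := ndB1q2b) (pc := pcB2) (cut := cut_pm_022_b) (xt := Ext.none) (P1 := 0) (W1 := 536870912) (P2 := 1239849684) (W2 := 370763052) (P3 := 991146299) (W3 := 28908434) (N0 := 3) (En := eng) (mo := mog) (C1 := cd0q0) (C2 := cd1q2b) (C3 := pd2)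
    rfl (fun _ => rfl) s4_pm_022_b

noncomputable def f_pm_023_a : ℕ → ℕ → ℕ → ℕ → Bool := onCell 1610612736 536870912 0 536870912 991146299 28908434
    (rowB 3 eng mog cd0q0 cd1q2a pd3 2 true true false .up 0 2 3 (qsf 0 536870912 0 536870912 3) ndB0q0 ndB1q2a pcB3 Cut.none Ext.none)

def k0_pm_023_a : ∃ t, chk3 f_pm_023_a t 1 1 1 = true :=
  ⟨(a (a (b (a (b (a (b (l 16192032) (l 16228328)) (c (b (l 16200424) (l 16202384)) (l 16198992))) (a (b (l 16235272) (l 16187008)) (b (l 16210488) (l 16201528)))) (b (c (a (b (l 16198072) (l 16196904)) (b (l 16207784) (l 16202864))) (a (b (l 16176360) (l 16196416)) (b (l 16179632) (l 16195184)))) (a (b (l 16176312) (l 16184848)) (c (l 16156816) (l 16199368))))) (b (a (b (a (c (l 16166248) (l 16242496)) (c (l 16141168) (l 16207272))) (a (c (l 16106376) (l 16197568)) (c (l 16078336) (l 16159672)))) (b (a (c (l 16125584) (l 16182208)) (c (l 16119440) (l 16166856))) (a (c (l 16059080) (l 16130456)) (c (l 16048464) (l 16109624))))) (b (a (c (b (a (l 16039272) (l 16008856)) (a (b (l 15999432)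 (l 15989416)) (b (l 15965688) (l 15947248)))) (b (l 15993232) (a (l 16031064) (l 16050648)))) (a (b (l 15899224) (l 2)) (l 2))) (a (b (a (c (l 15991104) (l 16067976)) (c (l 15948560) (l 16019704))) (a (c (l 15979088) (l 16029592)) (l 2))) (l 2))))) (b (a (b (a (b (a (b (l 16205776) (l 16208048)) (c (l 16300496) (l 140759855399))) (c (l 16220168) (l 16206560))) (b (l 2) (l 2))) (a (c (l 44659740551) (l 16181368)) (l 2))) (l 2)) (b (l 2) (l 2)))) (l 2)), by decide +kernel⟩

theorem c_pm_023_a : CertB 0 536870912 0 536870912 991146299 28908434 3 eng mog cd0q0 cd1q2a pd3 true true false .up 0 2 3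
    ndB0q0 ndB1q2a pcB3 Cut.none Ext.none :=
  certB2 (fam := true) (s1 := true) (s2 := false) (a := 0) (b := 2) (c := 3) (cn := .up) (n1 := ndB0q0) (n2 := ndB1q2a) (pc := pcB3) (cut := Cut.none) (xt := Ext.none) (P1 := 0) (W1 := 536870912) (P2 := 0) (W2 := 536870912) (P3 := 991146299) (W3 := 28908434) (N0 := 3) (En := eng) (mo := mog) (C1 := cd0q0) (C2 := cd1q2a) (C3 := pd3)
    rfl (fun _ => rfl) k0_pm_023_a

noncomputable def f_pm_023_b : ℕ → ℕ → ℕ → ℕ → Bool := onCell 1610612736 536870912 1239849684 370763052 991146299 28908434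
    (rowB 3 eng mog cd0q0 cd1q2b pd3 2 true true false .up 0 2 3 (qsf 0 536870912 1239849684 370763052 3) ndB0q0 ndB1q2b pcB3 Cut.none Ext.none)

def k0_pm_023_b : ∃ t, chk3 f_pm_023_b t 1 1 1 = true :=
  ⟨(a (b (a (b (a (b (a (b (l 16207976) (l 16214312)) (b (l 16189728) (l 16195888))) (c (l 16195720) (l 16157096))) (b (a (b (a (l 16184848) (l 16185872)) (l 16191280)) (b (a (l 16190232) (l 16197912)) (l 16341928))) (a (b (l 16194776) (l 16195296)) (b (a (l 16200504) (l 16213184)) (l 16195544))))) (a (b (c (l 16189024) (l 16192936)) (b (l 16186920) (l 16172456))) (a (b (b (l 16192640) (l 16190360)) (l 16185824)) (b (b (l 16226760) (l 16239816)) (l 16255504))))) (a (b (a (a (b (b (b (l 16206640) (l 16211344)) (b (l 16217480) (l 16225568))) (l 16257368)) (b (b (b (a (l 16217528) (l 16230256)) (l 16320024)) (l 16260544)) (l 16304424))) (b (b (a (l 292694261735) (l 310411109655)) (c (l 16348352) (l 16316736))) (b (l 16363856) (l 16390728)))) (a (b (l 16324056) (l 16348016)) (b (l 16422160) (l 16446592)))) (b (a (b (b (l 2)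 (l 291620656999)) (b (l 16464664) (l 16491888))) (b (l 2) (l 294305237015))) (a (b (l 16523096) (l 16544800)) (b (l 16599560) (l 16598304)))))) (a (b (a (a (l 16126984) (a (l 16115536) (l 16121496))) (a (b (l 16172008) (l 16148672)) (b (l 16256664) (l 16234800)))) (a (b (a (l 16018184) (l 16029208)) (a (l 15781032) (l 15898528))) (b (l 16038264) (a (l 15966368) (l 16004328))))) (a (b (a (l 16195096) (b (l 16447576) (l 16390880))) (a (l 16133472) (l 16143912))) (b (a (b (l 16512128) (l 16380384)) (b (l 16487936) (l 16365096))) (a (l 16150296) (b (l 16235256) (l 16095968))))))) (a (b (b (l 2) (a (a (b (l 157940469239) (l 16524432)) (b (a (l 16631368) (l 2)) (l 16419064))) (l 4))) (a (a (b (b (l 16432648) (l 16379536)) (l 4)) (l 4)) (l 4))) (l 4))), by decide +kernel⟩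

theorem c_pm_023_b : CertB 0 536870912 1239849684 370763052 991146299 28908434 3 eng mog cd0q0 cd1q2b pd3 true true false .up 0 2 3
    ndB0q0 ndB1q2b pcB3 Cut.none Ext.none :=
  certB2 (fam := true) (s1 := true) (s2 := false) (a := 0) (b := 2) (c := 3) (cn := .up) (n1 := ndB0q0) (n2 := ndB1q2b) (pc := pcB3) (cut := Cut.none) (xt := Ext.none) (P1 := 0) (W1 := 536870912) (P2 := 1239849684) (W2 := 370763052) (P3 := 991146299) (W3 := 28908434) (N0 := 3) (En := eng) (mo := mog) (C1 := cd0q0) (C2 := cd1q2b) (C3 := pd3)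
    rfl (fun _ => rfl) k0_pm_023_b

noncomputable def f_pm_033 : ℕ → ℕ → ℕ → ℕ → Bool := onCell 0 536870912 1610612736 536870912 991146299 28908434
    (rowB 3 eng mog cd0q0 cd1q3 pd3 1 true true false .pnn 0 3 3 (qsf 0 536870912 1610612736 536870912 3) ndB0q0 ndB1q3 pcB3 Cut.none Ext.none)

def k0_pm_033 : ∃ t, chk3 f_pm_033 t 1 1 1 = true :=
  ⟨(a (b (a (b (b (a (b (l 15763072) (l 15753944)) (b (l 1) (l 295310324999))) (a (b (l 15627592) (l 15496448)) (b (l 15910256) (l 15855696)))) (b (a (b (l 15198176) (l 15200600)) (b (l 15725632) (l 15432504))) (b (a (b (l 15166152) (l 4)) (a (l 15414928) (l 15572272))) (l 4)))) (b (b (l 1) (a (b (l 1) (l 16055096)) (l 1))) (b (a (b (l 16027416) (l 15901640)) (b (l 1) (l 16159856))) (b (a (l 15661968) (l 16039944)) (a (l 4) (l 15855824)))))) (l 4)) (b (b (l 1) (a (b (l 1) (b (l 1) (a (l 16163208) (l 1)))) (l 1))) (b (b (a (b (a (l 4) (l 1)) (l 4)) (l 1)) (l 4)) (l 4)))), by decide +kernel⟩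

theorem c_pm_033 : CertB 0 536870912 1610612736 536870912 991146299 28908434 3 eng mog cd0q0 cd1q3 pd3 true true false .pnn 0 3 3
    ndB0q0 ndB1q3 pcB3 Cut.none Ext.none :=
  certB1 (fam := true) (s1 := true) (s2 := false) (a := 0) (b := 3) (c := 3) (cn := .pnn) (n1 := ndB0q0) (n2 := ndB1q3) (pc := pcB3) (cut := Cut.none) (xt := Ext.none) (P1 := 0) (W1 := 536870912) (P2 := 1610612736) (W2 := 536870912) (P3 := 991146299) (W3 := 28908434) (N0 := 3) (En := eng) (mo := mog) (C1 := cd0q0) (C2 := cd1q3) (C3 := pd3)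
    rfl (fun _ => rfl) k0_pm_033

noncomputable def cut_pm_101 : Cut := Cut.of [[⟨0, 1, 0, 53687091⟩, ⟨1, 0, 0, 53687091⟩, ⟨2, 1, 0, 53687091⟩]]

noncomputable def f_pm_101 : ℕ → ℕ → ℕ → ℕ → Bool := onCell 536870912 536870912 0 536870912 991146299 28908434
    (rowB 3 eng mog cd0q1 cd1q0 pd1 2 true true false .npn 1 0 1 (qsf 536870912 536870912 0 536870912 1) ndB0q1 ndB1q0 pcB1 cut_pm_101 Ext.none)

def k0_pm_101 : ∃ t, chk3 f_pm_101 t 1 1 1 = true :=
  ⟨(a (l 3) (b (a (l 3) (b (a (l 3) (b (a (l 3) (b (a (l 3) (l 6)) (l 3))) (l 3))) (l 3))) (l 3))), by decide +kernel⟩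

theorem c_pm_101 : CertB 536870912 536870912 0 536870912 991146299 28908434 3 eng mog cd0q1 cd1q0 pd1 true true false .npn 1 0 1
    ndB0q1 ndB1q0 pcB1 cut_pm_101 Ext.none :=
  certB2 (fam := true) (s1 := true) (s2 := false) (a := 1) (b := 0) (c := 1) (cn := .npn) (n1 := ndB0q1) (n2 := ndB1q0) (pc := pcB1) (cut := cut_pm_101) (xt := Ext.none) (P1 := 536870912) (W1 := 536870912) (P2 := 0) (W2 := 536870912) (P3 := 991146299) (W3 := 28908434) (N0 := 3) (En := eng) (mo := mog) (C1 := cd0q1) (C2 := cd1q0) (C3 := pd1)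
    rfl (fun _ => rfl) k0_pm_101

noncomputable def cut_pm_102 : Cut := Cut.of [[⟨0, 1, 0, 53687091⟩, ⟨1, 0, 0, 53687091⟩, ⟨2, 1, 0, 53687091⟩]]

noncomputable def xt_pm_102 : Ext := extD3 3 ⟨4, 1, 1, 5, 22, 5, 21, 25, 41, 100, 1, 20⟩ eng cd0q1 cd1q0 pd2 true true false .npp 1 0 2 rfl ndB0q1 ndB1q0 pcB2

noncomputable def f_pm_102 : ℕ → ℕ → ℕ → ℕ → Bool := onCell 536870912 536870912 1073741824 536870912 991146299 28908434
    (rowB 3 eng mog cd0q1 cd1q0 pd2 1 true true false .npp 1 0 2 (qsf 536870912 536870912 0 536870912 2) ndB0q1 ndB1q0 pcB2 cut_pm_102 xt_pm_102)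

def k0_pm_102 : ∃ t, chk3 f_pm_102 t 2 4 1 = true :=
  ⟨(b (l 3) (a (l 3) (b (l 3) (a (b (l 3) (a (l 3) (b (l 3) (a (l 3) (b (l 3) (l 16522840)))))) (b (a (l 3) (b (l 3) (a (l 3) (b (l 3) (l 16576976))))) (a (b (a (l 3) (b (l 3) (l 16538832))) (a (b (l 16530416) (l 16566504)) (c (l 16561400) (l 16583240)))) (b (a (c (l 16556088) (l 16597256)) (c (l 16580944) (l 16601616))) (a (c (l 16564280) (l 16587192)) (l 16537672))))))))), by decide +kernel⟩

def k1_pm_102 : ∃ t, chk3 f_pm_102 t 6 8 1 = true :=
  ⟨(a (l 3) (l 3)), by decide +kernel⟩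

def k2_pm_102 : ∃ t, chk3 f_pm_102 t 14 16 1 = true :=
  ⟨(l 3), by decide +kernel⟩

def k3_pm_102 : ∃ t, chk3 f_pm_102 t 28 34 1 = true :=
  ⟨(l 3), by decide +kernel⟩

def k4_pm_102 : ∃ t, chk3 f_pm_102 t 29 68 1 = true :=
  ⟨(a (l 3) (b (a (l 3) (b (l 3) (a (l 3) (c (b (l 3) (a (l 3) (c (a (l 418926881927) (l 6337789774712769160188745775)) (l 375977151703)))) (l 7411312841235734759809095727))))) (a (b (l 3) (a (l 3) (c (b (l 3) (a (l 3) (c (b (l 7237228831200675135233251375) (a (l 6918072364382097206559463471) (l 5293276305798242691679885359))) (l 364702805415)))) (l 7275911781639527024305646127)))) (a (b (c (b (l 3) (a (l 3) (c (b (l 7382300681835712392196970543) (a (l 394767657255) (l 5544733612994927003826903087))) (l 374366508119)))) (l 7391969283911069469269350959)) (c (c (c (a (b (b (l 404968205687) (a (l 388325204855) (l 300815264983))) (l 4896749296435744957500872751)) (b (l 5012806545783013089390123055) (l 16673336))) (b (l 5921917839219549790946334767) (l 261623655383))) (b (l 5776845717359728575217276975)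 (l 16636192))) (l 5138530965277129576676088367))) (b (c (c (c (a (b (a (l 415168782567) (l 6308775473761051985209613359)) (l 5099849599670881717832308783)) (l 4964450361260424936928468015)) (b (l 6192718005646928354162333743) (l 272897975879))) (b (l 6037974424195800893110884399) (l 271824205799))) (l 5438345181607567686721607727)) (c (l 599972857007657359775791) (l 16620144))))))), by decide +kernel⟩

def k5_pm_102 : ∃ t, chk3 f_pm_102 t 29 69 1 = true :=
  ⟨(b (a (a (l 3) (b (l 3) (c (a (l 3) (b (l 3) (a (l 3) (c (b (l 6850371352591806439054170671) (c (l 5312618115293906998153124399) (l 289004005079))) (l 342154186247))))) (l 7266238887813633821254199855)))) (a (b (c (c (c (a (b (l 3) (a (l 3) (b (l 7053471776595470806954350639) (a (l 369534681975) (l 270213579815))))) (b (a (b (l 7140514758137515021311940655) (a (l 376514016423) (l 283098494823))) (l 4800034883837201736848398383)) (a (l 4645292054667356031795796015) (l 16659240)))) (a (l 7053470724554597853167344175) (b (l 5622103548237444257606850607) (l 16642424))))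 (a (l 7101826860078022059836119599) (l 5099846734949173145849846319))) (a (l 396378112215) (l 4819374020426311504103434799))) (c (a (c (b (a (b (l 6976099908191820703540123695) (a (l 6511872370401373008315439663) (l 255181182279))) (l 4422849093098097198160828463)) (l 4171392483130692797026850863)) (l 4780689775256651997727791663)) (l 598697725823562134657071)) (l 4190732730559737948833344047))) (c (a (b (l 599297245005957719398447) (l 16663864)) (l 16680272)) (l 597936075385247681652783)))) (b (a (a (l 3) (c (c (a (b (l 3) (a (l 424295446647) (b (l 6550557248094754275881097775) (l 4848389802451977830956407343)))) (a (b (b (l 6714971410899231847942969903) (l 5070832400562732337281063471)) (l 16622312)) (l 3919935530457371151507135023))) (a (l 378124506039) (l 4442190079119576839170103855))) (a (l 379198177703) (l 4181060365060195219117238831)))) (a (c (l 598671208628956176373807) (l 16605016)) (a (l 16657568) (l 16680688)))) (a (a (c (a (l 3) (b (l 7604739073077840652899035695) (c (a (l 409263046375) (l 5032145984295603171817691695))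 (l 300815088663)))) (l 6985766293340450629739227695)) (c (a (c (b (a (b (l 353965364679) (l 254644263335)) (l 16618008)) (l 16618352)) (l 227800673991)) (l 597711689706747089803823)) (l 595069623793591292111407))) (a (l 598272440511499874478127) (a (l 16670656) (l 16693896)))))), by decide +kernel⟩

def k6_pm_102 : ∃ t, chk3 f_pm_102 t 14 35 1 = true :=
  ⟨(a (b (a (l 3) (a (a (l 3) (b (l 3) (b (l 3) (c (l 5718219126919154663768539183) (l 16537792))))) (b (a (l 3) (c (b (l 3) (c (b (l 392620022759) (l 4829045397295576965826882095)) (l 341617253815))) (l 6637002749825929788822110255))) (c (b (a (c (l 5931585279003791948035107375) (l 328195471447)) (l 3223591775973198586290334255)) (l 595650119985359441324591)) (c (l 185924668295) (l 169281637095)))))) (a (b (a (l 3) (c (b (l 404431113223) (c (l 4489950494190721521372839983) (l 238538001143))) (l 344301520727))) (c (a (b (l 376513825911) (c (l 210620745271) (l 16554696))) (c (l 142203377478418479) (l 16572760))) (a (l 319605478199) (l 16554904)))) (b (c (a (c (b (l 3716237969637446054598852655)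 (l 16593648)) (l 3145624982779337235834994735)) (l 596463218096660658465327)) (a (b (l 174650367447) (l 16561944)) (l 16588032))) (a (c (l 16604112) (l 16585616)) (c (l 16632160) (l 16619872)))))) (b (b (a (a (c (b (a (b (l 409263052855) (c (l 5235244861220660586645006895) (l 279340243143))) (c (b (l 4306790500309045823084665391) (l 16611160)) (l 206862695431))) (c (a (l 3716834407637195732410378799) (l 16618568)) (l 175724180887))) (b (l 4170794077812231407965192239) (l 155323056743))) (c (b (l 597755643107791732091439) (l 16636712)) (c (l 16608736) (l 16593624)))) (a (c (a (l 16658896) (l 16678328)) (a (l 16635160) (l 16659144))) (a (l 16691376) (l 16715368)))) (a (a (c (l 597198782028144717015599) (l 16593008)) (c (b (l 16647496) (l 16658656)) (b (l 16626224) (l 16642992)))) (a (c (l 16712392) (l 16701608)) (l 16732032)))) (a (b (a (c (l 598306451658571065666095) (l 16625992)) (c (l 16697336) (l 16667688))) (a (c (l 16664112) (l 16657864)) (l 16701312))) (b (l 16716040) (l 16729072))))), by decide +kernel⟩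

def k7_pm_102 : ∃ t, chk3 f_pm_102 t 30 32 1 = true :=
  ⟨(l 3), by decide +kernel⟩

def k8_pm_102 : ∃ t, chk3 f_pm_102 t 60 33 1 = true :=
  ⟨(b (l 3) (b (a (l 3) (b (l 3) (a (l 3) (b (l 3) (a (l 3) (c (l 5409336822236824503452605487) (l 4287451471948281004643129391))))))) (a (a (l 3) (b (l 3) (c (c (l 7817516714220861208015805487) (l 7662772432946380450575226927)) (l 7382300554726116509212596271)))) (b (a (a (l 3) (b (l 3) (c (l 4277782506414419600199736367) (l 4316464517080249286550689839)))) (c (b (a (l 5409337185407098454609697839) (l 16759184)) (l 198809957127)) (c (l 3349325725662618896090733615) (l 3204252877462249777998796847)))) (a (a (c (b (l 7343617757479590304869817391) (l 286856787415)) (l 4809705835566585202889988143)) (c (l 602801838149586535078959) (l 599634474546055232624687))) (l 602080685748454921870895)))))), by decide +kernel⟩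

def k9_pm_102 : ∃ t, chk3 f_pm_102 t 61 132 1 = true :=
  ⟨(a (l 3) (b (l 3) (a (l 3) (a (a (l 3) (b (l 3) (b (l 3) (c (c (a (l 403894707943) (l 364166255287)) (l 6918076738566285685220384303)) (a (l 7682117666618913439655812143) (l 6521548915529436074749172783)))))) (b (b (a (l 3) (a (l 3) (l 6))) (a (c (a (l 3) (l 435033211063)) (l 449528721255)) (c (c (a (b (l 424832671751) (l 365776867399)) (l 344838900599)) (l 7034133779522991859398762031)) (c (l 6734320009373176032233250351) (l 6773005553743417338740530223))))) (c (c (a (b (b (l 393157283063) (l 353428835911)) (l 16780456)) (l 16776984)) (a (b (l 7053476511355859851417263663) (l 16782016)) (l 16781304))) (b (a (a (l 7508032418634388243362716719) (l 6376477887792122730952858671)) (l 16781424)) (l 603173367104446160182831)))))))), by decide +kernel⟩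

def k10_pm_102 : ∃ t, chk3 f_pm_102 t 61 133 1 = true :=
  ⟨(a (a (l 3) (b (l 3) (a (b (l 3) (c (b (l 3) (l 428590758439)) (l 8330101346188964190560345135))) (b (c (c (l 421074574487) (l 428590759975)) (l 8204373200740775190013582383)) (c (a (b (l 418927079815) (l 6134692210242666593660705839)) (c (l 6008964010607166876546948143) (l 317995361943))) (b (a (l 445770555447) (l 4103696889783243305896418351)) (l 3494398232309992274479209519))))))) (a (b (b (b (l 3) (a (l 3) (a (l 3) (c (c (a (l 419463966519) (l 373829937399)) (l 395841643287)) (l 6898733573234931961033530415))))) (b (a (l 3) (c (a (c (l 395841641367) (l 401747208647)) (c (l 321753453319) (l 321216586183))) (a (l 6908404909751867589568240687) (l 602940476960515613203503)))) (a (a (l 3) (c (c (l 401210356663) (l 407115939751)) (l 6918076250015798108047809583))) (c (a (c (l 324437808807) (l 324437812455)) (l 16782144)) (l 4567924637981865591865728047))))) (b (a (c (c (b (a (l 406579066647) (l 327122164231)) (l 6047649710910041681125662255)) (a (l 6802019461260671066635885615)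 (l 316384748071))) (a (b (l 7217889786122548500002855983) (l 4210082431661081701984295983)) (l 4480881873765524995914128431))) (c (l 603045104587058686254639) (l 16778736))) (c (a (l 602890036644689066974767) (l 16780280)) (l 602768691656329162726447)))) (b (b (a (c (c (a (b (a (l 411410901799) (l 366313738359)) (l 318532227223)) (b (l 16778344) (l 16780248))) (c (l 6376477946302889089745411631) (l 6231406662040540970928643631))) (a (b (c (l 7121176045677242465205754927) (l 6869719410057334586568956975)) (l 603011958093801225853999)) (l 603067874786774656883759))) (c (l 16774616) (l 16763376))) (c (l 602905024624248907259439) (l 603037322366902553550383))) (a (c (l 16757736) (l 16764216)) (l 602021022060591608602159))))), by decide +kernel⟩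

def k11_pm_102 : ∃ t, chk3 f_pm_102 t 61 67 1 = true :=
  ⟨(a (b (b (a (b (a (l 3) (c (l 433959469783) (l 473150908087))) (c (a (l 439328179719) (c (l 6037977946947458219616836655) (l 5457693503668581141497060399))) (a (l 474224615831) (c (l 5515722070119679224734342191) (l 4471208507242050130710502447))))) (b (c (a (b (a (l 428590778471) (l 6115349320171322094358354991)) (l 5873564053061921597102152751)) (l 602737562775704812870703)) (a (c (l 4480881441708191144473779247) (l 4558251857430745443130383407)) (l 16751216))) (c (l 602295417378688043064367) (l 602508131396287944711215)))) (a (c (b (a (l 5360979620549238911560555567) (l 16773624)) (l 602671558019566065851439)) (b (c (l 4722666727264335715362151471) (l 3252610992840127770867324975)) (l 601537947950161222342703))) (c (l 16759064) (l 16731480)))) (b (a (c (l 16772808) (l 601638540351438177523759)) (c (l 16755392) (l 16734128))) (a (l 601837995771735230144047) (l 16759200)))) (a (b (b (c (l 602207795344337915469359) (l 602712774963355719097391)) (c (l 16754816)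 (l 16756928))) (b (l 16755808) (l 16773264))) (b (b (c (l 16753720) (l 16759328)) (l 16776984)) (l 16774248)))), by decide +kernel⟩

def k12_pm_102 : ∃ t, chk3 f_pm_102 t 31 16 1 = true :=
  ⟨(b (l 6) (a (b (a (b (a (b (l 6) (b (l 6) (c (l 602836425794724795850287) (l 603304800155971337707055)))) (l 6)) (a (b (a (b (l 16769952) (l 16758864)) (l 602297723221697247895087)) (c (l 16752408) (l 16759904))) (b (l 6) (l 16774192)))) (l 6)) (a (b (a (l 16753816) (l 16772056)) (l 601333304383093560417839)) (b (l 601110934017666226368111) (l 601004000486335116979823)))) (l 6))), by decide +kernel⟩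

def k13_pm_102 : ∃ t, chk3 f_pm_102 t 15 17 1 = true :=
  ⟨(a (b (a (b (a (a (b (b (b (l 3) (c (c (l 7469345396507008406851656751) (l 405505075623)) (l 401746917319))) (c (c (a (b (l 7063145607169851276350250031) (l 5186892771733204568498461743)) (l 5032150747590799455215442991)) (l 5728490314806150922384480303)) (l 5738159490171726165320833071))) (c (l 600867524095232353851439) (l 598513546613201184135215))) (c (b (b (b (c (l 6724647662320541615668845615) (l 6560232163280040204225288239)) (l 5070836372089085331922769967)) (l 601562447532134118905903)) (l 601869701113111856420911)) (b (b (l 4954776367835881941853591599) (l 16647104)) (l 599866499998857376962607)))) (b (b (a (l 601130966659035116722223) (l 602204624810200165473839)) (a (l 16721072) (l 16724144))) (a (b (l 601772279245972576458799) (l 16717360)) (l 16735944)))) (a (b (a (b (l 16680064) (l 16691832)) (b (l 16704072) (l 16716192))) (l 16744488)) (b (l 16745544) (l 16765056)))) (b (a (b (b (a (l 16741320) (l 16760528)) (l 16755952)) (l 16745112)) (b (l 16751432)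 (l 16768592))) (a (l 16745456) (b (l 16742472) (l 16735336))))) (a (b (a (l 16737976) (l 16759968)) (a (l 16752152) (l 16749024))) (b (a (l 16713528) (l 16699544)) (a (l 16716680) (l 16675768))))) (a (b (b (a (c (l 600434025609500192857647) (l 600128789641155544751663)) (l 600220590069898787712623)) (a (l 16700904) (l 599311222972899434688111))) (b (a (l 16678176) (l 16656352)) (c (l 16633800) (l 16649048)))) (b (b (a (l 598701615922501886013039) (l 6)) (a (l 142782545428529263) (c (l 16654312) (l 16673392)))) (a (l 142171148077056111) (b (c (l 16647096) (l 16667704)) (l 16585632)))))), by decide +kernel⟩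

def k14_pm_102 : ∃ t, chk3 f_pm_102 t 6 9 1 = true :=
  ⟨(b (a (b (l 3) (a (l 3) (b (l 3) (a (b (l 3) (l 216526248583)) (b (l 265918491399) (l 16537184)))))) (b (a (b (l 3) (a (l 3) (b (l 3) (a (l 3) (l 285245809319))))) (b (a (b (l 3) (c (l 359870799719) (l 364165738583))) (a (b (l 389398679639) (c (l 172502913751) (l 16539408))) (b (c (b (l 342154101127) (l 169281691383)) (l 284708879271)) (c (l 16578064) (l 16561416))))) (a (b (c (a (l 320142388951) (l 16563760)) (l 183240302679)) (c (l 16575368) (l 16563104))) (c (b (l 16588584) (l 16607192)) (b (l 16577456) (l 16603712)))))) (a (b (b (a (l 339469758855) (c (l 16568264) (l 16555592))) (a (c (l 16566112) (l 16553584)) (l 16540000))) (a (b (l 16536504) (l 16574696)) (c (l 16607088) (l 16610920)))) (b (a (c (l 16517424) (l 16578744)) (b (a (l 16616848) (l 16595752)) (a (l 16595344) (l 16659488)))) (a (b (a (l 16621056) (l 16637744)) (l 16626944)) (l 16615184)))))) (a (b (a (b (a (l 3) (b (l 328195527207) (l 16589656))) (a (b (l 16598136) (l 16602368)) (c (l 16600496)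 (l 16609312)))) (b (a (b (l 16583112) (l 16597576)) (c (l 16601016) (l 16603096))) (a (l 16594136) (b (l 16622944) (l 16621960))))) (a (b (a (l 16533024) (l 16580440)) (a (b (l 16587392) (l 16581392)) (b (l 16593192) (l 16588192)))) (b (a (c (l 16597416) (l 16619800)) (l 16596304)) (a (l 16599648) (l 16610312))))) (b (a (b (a (c (l 16614624) (l 16623664)) (b (l 16613384) (l 16647104))) (a (b (l 16633944) (l 16632744)) (l 16647504))) (b (a (l 16664672) (l 16678840)) (l 16601584))) (a (a (l 16583296) (l 16614480)) (a (l 16644536) (l 16652336)))))), by decide +kernel⟩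

def k15_pm_102 : ∃ t, chk3 f_pm_102 t 7 9 1 = true :=
  ⟨(a (b (a (b (b (a (b (c (b (a (l 16572176) (l 16595008)) (l 16593912)) (a (l 16557488) (l 16585224))) (c (l 16609280) (l 16600008))) (b (a (c (l 16625360) (l 16615976)) (c (l 16654384) (l 16650664))) (a (c (l 16646848) (l 16645680)) (l 16679928)))) (a (b (a (l 16616088) (c (l 16641200) (l 16642568))) (a (c (l 16637144) (l 16641000)) (l 16666544))) (a (l 16622112) (l 16715632)))) (a (b (b (l 16676136) (l 16696384)) (l 16697456)) (b (l 16715000) (l 16704824)))) (b (b (a (c (l 16716696) (l 16725776)) (l 16722040)) (a (l 16709656) (l 16731928))) (a (b (l 16720176) (l 16708272)) (b (c (l 16689864) (l 16701112)) (l 16652904))))) (a (b (a (l 16661232) (b (l 16693640) (l 16680432))) (a (b (l 16664752) (l 16648768)) (b (l 16640576) (l 16633744)))) (b (a (b (l 16670640) (l 16668152)) (l 16608768)) (b (l 16557280) (l 16544640))))) (a (b (b (a (b (c (l 16729976) (l 16740600)) (l 16651688)) (b (l 16639416) (l 16632776))) (a (a (l 16640992) (l 16621232)) (a (l 16599848) (l 16575784))))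 (b (a (l 16548392) (b (l 16581544) (l 16547576))) (a (l 16501464) (b (l 16512328) (l 16475840))))) (b (a (b (b (a (l 16646544) (l 16622008)) (l 16541328)) (c (l 16526680) (l 16544136))) (b (a (l 141597409128530031) (b (l 16575056) (l 16562840))) (b (l 16477904) (l 16484584)))) (b (a (c (l 16500344) (l 16516664)) (b (l 16469184) (l 16431880))) (a (b (l 16453800) (l 16416128)) (b (l 16393744) (l 16354856))))))), by decide +kernel⟩

def k16_pm_102 : ∃ t, chk3 f_pm_102 t 2 10 1 = true :=
  ⟨(a (b (b (b (l 3) (l 2)) (l 2)) (l 2)) (a (b (b (b (a (b (l 3) (a (l 16555464) (l 10367893191))) (a (b (l 89824700823) (l 16552760)) (b (l 16558984) (l 16553152)))) (a (b (a (l 20031557159) (l 16548096)) (a (l 16545200) (l 16542720))) (a (b (l 16547120) (l 16541496)) (b (l 16547288) (l 16541416))))) (a (a (b (b (l 16540128) (l 2)) (l 2)) (b (b (l 16537376) (l 16532152)) (b (a (l 16528456) (l 16527688)) (b (l 16505392) (c (l 16496984) (l 16511768)))))) (b (b (a (l 16535880) (l 16535816)) (a (l 16530832) (l 16531400))) (b (a (l 16527504)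 (l 16528528)) (b (a (l 16525800) (l 16526712)) (a (c (l 16495440) (l 16512104)) (c (l 16495416) (l 16524328)))))))) (a (b (a (l 2) (b (l 16519208) (l 2))) (l 2)) (c (a (l 16494688) (l 16493472)) (b (a (l 16521024) (l 16522160)) (l 16499368))))) (b (b (a (b (a (b (l 16560560) (l 16554536)) (c (l 16548304) (l 16571960))) (a (b (l 16548456) (l 16542504)) (b (l 16550608) (l 16545184)))) (b (a (b (l 16566208) (l 16559928)) (b (l 16570248) (l 16564616))) (a (b (l 16554304) (l 16550240)) (l 16558696)))) (b (a (a (b (l 16537448) (l 16534024)) (l 16539776)) (a (l 16544856) (l 16550912))) (b (a (a (l 16530920) (l 16534544)) (a (l 16539256) (l 16544904))) (a (b (a (l 16528976) (l 16532432)) (a (c (l 16496944) (l 16516648)) (c (l 16499960) (l 16520304)))) (a (b (l 16536936) (a (l 16534096) (l 16536504))) (b (l 16542336) (l 16540464))))))) (a (b (a (c (l 16505336) (l 16524400)) (l 16527920)) (a (l 16491480) (l 16493216))) (a (b (l 16521256) (l 16496080)) (b (l 16525960) (l 16499904))))))), by decide +kernel⟩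

def k17_pm_102 : ∃ t, chk3 f_pm_102 t 2 11 1 = true :=
  ⟨(a (l 2) (a (a (l 2) (b (a (l 2) (l 16460144)) (l 2))) (a (b (a (l 16458848) (l 16458936)) (l 16418384)) (b (a (l 16460264) (l 16462688)) (l 16416544))))), by decide +kernel⟩

def k18_pm_102 : ∃ t, chk3 f_pm_102 t 6 5 1 = true :=
  ⟨(b (b (b (a (a (b (a (l 16532016) (l 16582648)) (a (l 16566136) (l 16574232))) (b (l 16575496) (l 16565920))) (a (b (l 16614824) (l 16603736)) (b (a (l 16627224) (l 16632320)) (a (l 16613784) (l 16609952))))) (a (b (a (a (l 16557768) (l 16565208)) (l 16555848)) (b (a (l 16533600) (l 16569032)) (b (a (l 16509632) (a (l 16562008) (l 16567072))) (a (a (l 16546376) (l 16552728)) (a (c (l 16530328) (l 16566848)) (a (c (l 16533000) (l 16568416)) (l 16557688))))))) (b (a (a (l 16588688) (l 16593432)) (a (l 16568984) (l 16573032))) (a (b (a (l 16577720) (l 16574088)) (b (a (l 16564904) (l 16552280)) (a (l 16549312) (l 16535896)))) (b (l 16549128) (b (l 16484536) (a (l 16519552) (l 16499952)))))))) (a (a (a (l 16496888) (l 16523456)) (a (b (l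 16543072) (l 16514880)) (l 16523696))) (a (b (a (l 16526616) (l 16512112)) (l 16445600)) (a (b (l 16494624) (l 16459608)) (b (l 16473824) (l 16436568)))))) (a (a (b (a (l 16466048) (l 16470192)) (l 16419560)) (a (b (l 16474328) (l 16423912)) (b (l 16467184) (l 16415432)))) (a (b (a (l 16451240) (l 16432144)) (a (l 16396512) (l 16374048))) (b (b (a (l 16425880) (l 16400656)) (l 16296248)) (a (l 16347752) (l 16317320)))))), by decide +kernel⟩

def k19_pm_102 : ∃ t, chk3 f_pm_102 t 7 5 1 = true :=
  ⟨(a (b (b (b (a (b (a (l 16624760) (l 16599712)) (l 16555864)) (b (l 16509232) (l 16450648))) (b (a (l 16452984) (a (l 16490984) (l 16453160))) (a (b (l 16460528) (b (a (l 16493256) (l 16465840)) (a (l 16455744) (c (l 16425528) (l 16452664))))) (b (a (l 16456296) (l 16418448)) (b (a (l 16433880) (l 16396384)) (a (c (l 16394056) (l 16420696)) (c (l 16357144) (l 16383304)))))))) (a (b (a (l 16449352) (l 16420792)) (a (l 16409680) (l 16378552))) (a (b (l 16387744) (l 16342760)) (b (l 16349216) (l 16301312))))) (a (b (a (c (l 16352728)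 (l 16353368)) (c (l 16318720) (l 16317544))) (a (l 16282416) (l 16242624))) (b (a (c (l 16279760) (l 16276824)) (c (l 16234936) (l 16230112))) (a (l 16197536) (l 16156616))))) (b (b (b (a (a (l 16427240) (b (l 16438040) (l 16398664))) (a (c (l 16352240) (l 16362296)) (b (l 16315240) (l 16274752)))) (a (b (a (l 16408544) (l 16356720)) (b (a (l 16373952) (l 16322416)) (b (a (l 16352392) (l 16301520)) (a (c (l 16313936) (l 16339448)) (c (l 16264096) (l 16288712)))))) (b (a (l 16295408) (l 16232808)) (b (a (l 16261576) (l 16199648)) (b (a (l 16241520) (l 16180656)) (a (c (l 16205480) (l 16228784)) (l 16146496))))))) (a (a (b (l 16304264) (l 16253248)) (c (l 16225896) (l 16224864))) (a (c (l 16164288) (l 16161288)) (c (l 16101696) (l 16096888))))) (a (b (a (c (l 16183352) (l 16176296)) (c (l 16124640) (l 16114936))) (a (c (l 16094768) (l 16080192)) (c (l 16030160) (l 16011784)))) (b (a (c (l 16056592) (l 16043648)) (c (l 15987104) (l 15970944))) (a (c (l 15955816) (l 15932912)) (c (l 15879608) (l 15852064))))))), by decide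 +kernel⟩

def k20_pm_102 : ∃ t, chk3 f_pm_102 t 2 3 1 = true :=
  ⟨(a (l 2) (b (a (l 2) (b (a (l 2) (b (l 16376856) (l 2))) (l 2))) (l 2))), by decide +kernel⟩

def k21_pm_102 : ∃ t, chk3 f_pm_102 t 6 3 1 = true :=
  ⟨(b (a (b (a (b (l 16375776) (l 16336792)) (a (b (l 16377832) (l 16336224)) (b (l 16368720) (l 16327240)))) (a (l 2) (a (l 2) (b (l 16290480) (l 2))))) (b (a (b (l 16250872) (l 16289584)) (b (a (l 16291816) (l 16257512)) (c (l 16226368) (l 16221112)))) (a (b (l 16250192) (l 16216584)) (b (l 16178632) (l 16140296))))) (a (l 2) (b (a (l 2) (b (l 16108680) (l 2))) (l 2)))), by decide +kernel⟩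

def k22_pm_102 : ∃ t, chk3 f_pm_102 t 7 3 1 = true :=
  ⟨(a (b (b (a (b (a (l 16218336) (l 16152912)) (c (l 16143720) (l 16130712))) (b (a (l 16102784) (l 16045952)) (c (l 16037696) (l 16016192)))) (a (b (c (l 16093408) (l 16076448)) (c (l 16050416) (l 16029704))) (b (c (l 15958256) (l 15952224)) (c (l 15928760) (l 15896552))))) (b (a (b (l 15897880) (l 15952216)) (b (c (l 15886560) (l 15849496)) (a (l 15870744) (l 15791744)))) (a (l 2) (b (a (l 2) (l 15763024)) (l 2))))) (b (a (b (b (a (l 15981392) (c (l 15943096) (l 15916152))) (a (c (l 15939736) (l 15910520)) (c (l 15864016) (l 15828712)))) (a (b (l 15898152) (l 15796000)) (c (a (l 15783704) (l 15739288)) (l 15714536)))) (b (a (b (c (l 15862688) (l 15829928)) (c (l 15777816) (l 15735432))) (b (c (l 15779976) (l 15741168)) (c (l 15688912) (l 15639080)))) (a (b (c (l 15701760) (l 15650080)) (c (l 15635016) (l 15574456))) (a (b (l 15601824) (l 15526200)) (c (b (l 15582952) (l 15554344)) (b (l 15520088) (l 15438768))))))) (a (b (a (b (l 15744864) (l 15703096)) (c (b (l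 15679336) (l 15636552)) (l 15574448))) (b (a (l 15670952) (l 15631352)) (a (l 2) (l 15542936)))) (b (c (b (a (l 15578008) (b (l 15490648) (l 15465328))) (a (l 15530312) (b (l 15442496) (l 15421608)))) (a (b (l 15509072) (l 15453384)) (b (b (l 15412120) (l 15381968)) (b (l 15354280) (l 15328400))))) (a (a (b (l 15482800) (c (l 15497032) (l 15409952))) (b (c (l 15467944) (l 15380272)) (c (l 15445808) (l 15350872)))) (b (c (l 15395208) (l 15294592)) (c (l 15370408) (l 15260824)))))))), by decide +kernel⟩

theorem s23_pm_102 : ∃ t, chk3 f_pm_102 t 3 3 1 = true := ex3_a k21_pm_102 k22_pm_102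

theorem s24_pm_102 : ∃ t, chk3 f_pm_102 t 1 3 1 = true := ex3_a k20_pm_102 s23_pm_102

theorem s25_pm_102 : ∃ t, chk3 f_pm_102 t 3 5 1 = true := ex3_a k18_pm_102 k19_pm_102

theorem s26_pm_102 : ∃ t, chk3 f_pm_102 t 2 5 1 = true := ex3_b k16_pm_102 k17_pm_102

theorem s27_pm_102 : ∃ t, chk3 f_pm_102 t 1 5 1 = true := ex3_a s26_pm_102 s25_pm_102

theorem s28_pm_102 : ∃ t, chk3 f_pm_102 t 3 9 1 = true := ex3_a k14_pm_102 k15_pm_102

theorem s29_pm_102 : ∃ t, chk3 f_pm_102 t 61 66 1 = true := ex3_b k9_pm_102 k10_pm_102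

theorem s30_pm_102 : ∃ t, chk3 f_pm_102 t 61 33 1 = true := ex3_b s29_pm_102 k11_pm_102

theorem s31_pm_102 : ∃ t, chk3 f_pm_102 t 30 33 1 = true := ex3_a k8_pm_102 s30_pm_102

theorem s32_pm_102 : ∃ t, chk3 f_pm_102 t 30 16 1 = true := ex3_b k7_pm_102 s31_pm_102

theorem s33_pm_102 : ∃ t, chk3 f_pm_102 t 15 16 1 = true := ex3_a s32_pm_102 k12_pm_102

theorem s34_pm_102 : ∃ t, chk3 f_pm_102 t 15 8 1 = true := ex3_b s33_pm_102 k13_pm_102

theorem s35_pm_102 : ∃ t, chk3 f_pm_102 t 29 34 1 = true := ex3_b k4_pm_102 k5_pm_102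

theorem s36_pm_102 : ∃ t, chk3 f_pm_102 t 14 34 1 = true := ex3_a k3_pm_102 s35_pm_102

theorem s37_pm_102 : ∃ t, chk3 f_pm_102 t 14 17 1 = true := ex3_b s36_pm_102 k6_pm_102

theorem s38_pm_102 : ∃ t, chk3 f_pm_102 t 14 8 1 = true := ex3_b k2_pm_102 s37_pm_102

theorem s39_pm_102 : ∃ t, chk3 f_pm_102 t 7 8 1 = true := ex3_a s38_pm_102 s34_pm_102

theorem s40_pm_102 : ∃ t, chk3 f_pm_102 t 3 8 1 = true := ex3_a k1_pm_102 s39_pm_102

theorem s41_pm_102 : ∃ t, chk3 f_pm_102 t 3 4 1 = true := ex3_b s40_pm_102 s28_pm_102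

theorem s42_pm_102 : ∃ t, chk3 f_pm_102 t 1 4 1 = true := ex3_a k0_pm_102 s41_pm_102

theorem s43_pm_102 : ∃ t, chk3 f_pm_102 t 1 2 1 = true := ex3_b s42_pm_102 s27_pm_102

theorem s44_pm_102 : ∃ t, chk3 f_pm_102 t 1 1 1 = true := ex3_b s43_pm_102 s24_pm_102

theorem c_pm_102 : CertB 536870912 536870912 0 536870912 991146299 28908434 3 eng mog cd0q1 cd1q0 pd2 true true false .npp 1 0 2
    ndB0q1 ndB1q0 pcB2 cut_pm_102 xt_pm_102 :=
  certB1 (fam := true) (s1 := true) (s2 := false) (a := 1) (b := 0) (c := 2) (cn := .npp) (n1 := ndB0q1) (n2 := ndB1q0) (pc := pcB2) (cut := cut_pm_102) (xt := xt_pm_102) (P1 := 536870912) (W1 := 536870912) (P2 := 0) (W2 := 536870912) (P3 := 991146299) (W3 := 28908434) (N0 := 3) (En := eng) (mo := mog) (C1 := cd0q1) (C2 := cd1q0) (C3 := pd2)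
    rfl (fun _ => rfl) s44_pm_102

noncomputable def f_pm_112 : ℕ → ℕ → ℕ → ℕ → Bool := onCell 536870912 536870912 1073741824 536870912 991146299 28908434
    (rowB 3 eng mog cd0q1 cd1q1 pd2 1 true true false .dn 1 1 2 (qsf 536870912 536870912 536870912 536870912 2) ndB0q1 ndB1q1 pcB2 Cut.none Ext.none)

def k0_pm_112 : ∃ t, chk3 f_pm_112 t 1 4 1 = true :=
  ⟨(a (a (l 3) (a (a (l 3) (l 1)) (l 1))) (l 1)), by decide +kernel⟩

def k1_pm_112 : ∃ t, chk3 f_pm_112 t 4 20 1 = true :=
  ⟨(b (a (l 3) (b (l 3) (a (a (l 3) (b (l 3) (c (l 95193067783) (l 102172477703)))) (b (a (l 3) (b (l 3) (c (a (l 16350784) (l 16349752)) (l 72644535319)))) (a (c (b (l 16338456) (l 16365128)) (c (l 16389800) (l 16407296))) (c (a (l 16337928) (l 16336584)) (c (l 16386264) (l 16404072)))))))) (b (a (a (b (l 3) (a (l 3) (l 89824421495))) (b (a (l 3) (c (l 16402624) (l 16437480))) (c (a (l 16429360) (l 16415616)) (a (l 16463816) (l 16409016))))) (a (b (a (c (l 16369888) (l 16426568)) (c (b (l 16378112) (l 16384160)) (b (l 16414456) (l 16420944))))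 (c (a (l 16403504) (l 16372272)) (a (l 16439784) (l 16409544)))) (b (a (c (b (l 16370824) (l 16376520)) (b (l 16408040) (l 16414232))) (c (b (l 16365992) (l 16371000)) (b (l 16404136) (l 16409400)))) (a (c (l 16364072) (l 16402384)) (c (l 16378184) (l 16415656)))))) (b (a (a (b (a (l 16486968) (l 16471216)) (a (l 16493392) (l 16477752))) (b (a (l 16456560) (l 16422240)) (a (l 16463128) (l 16449728)))) (a (a (b (l 16410416) (l 16437760)) (b (l 16379360) (l 16427440))) (b (a (l 16370616) (l 16361232)) (a (l 16417488) (l 16375616))))) (a (a (a (l 16502944) (l 16487488)) (a (l 16472928) (b (l 16456224) (c (l 16445200) (l 16480392))))) (a (b (a (l 16423200) (c (l 16414592) (l 16452592))) (a (c (l 16411656) (l 16448368)) (a (c (l 16423824) (l 16462104)) (c (l 16416320) (l 16455656))))) (b (a (c (l 16402672) (l 16440776)) (c (b (l 16391528) (l 16391592)) (b (l 16427168) (l 16426904)))) (a (a (c (l 16408928) (l 16446936)) (c (l 16380816) (l 16417584))) (c (a (a (l 16396672) (l 16393400)) (c (l 16380400) (l 16397160))) (a (b (l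 16387760) (l 16430184)) (c (l 16414392) (l 16432104))))))))))), by decide +kernel⟩

def k2_pm_112 : ∃ t, chk3 f_pm_112 t 4 21 1 = true :=
  ⟨(b (a (a (a (l 16533872) (l 16519216)) (a (l 16505080) (l 16449840))) (a (a (c (l 16461416) (l 16498200)) (c (l 16443360) (l 16481472))) (a (c (l 16403392) (l 16439104)) (c (b (l 16357672) (l 16414112)) (b (l 16391888) (l 16447096)))))) (a (a (l 16552560) (l 16464152)) (a (a (l 16528920) (l 16502552)) (a (c (l 16459736) (l 16493032)) (c (l 16436072) (l 16467424)))))), by decide +kernel⟩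

def k3_pm_112 : ∃ t, chk3 f_pm_112 t 20 10 1 = true :=
  ⟨(a (b (b (a (b (l 3) (b (c (b (l 16344480) (l 16349496)) (l 54927786199)) (c (l 16336016) (l 16394536)))) (b (a (l 3) (l 1)) (b (c (b (l 16345296) (l 16350224)) (l 16362872)) (c (l 16336168) (l 16393944))))) (b (b (c (b (l 16363688) (l 16367896)) (b (l 16400112) (l 16403648))) (c (l 16373880) (l 16408696))) (b (b (c (l 16379384) (l 16413376)) (c (l 16381848) (l 16415296))) (b (c (b (l 16382008) (l 16381136)) (b (l 16415112) (l 16414120))) (c (b (b (b (l 16380032) (a (l 16360432) (c (l 16368528) (l 16384272)))) (l 16367928)) (l 16358512)) (a (c (l 16397336) (l 16404056)) (a (c (l 16403304) (l 16420136)) (c (l 16387392) (l 16406608))))))))) (b (c (a (l 16353200) (b (l 16382832) (l 16393376))) (b (a (l 16421792) (l 16414600)) (l 16428336))) (c (l 16414632) (l 16444264)))) (b (b (b (l 1) (b (l 1) (c (l 186326886407) (l 185790081447)))) (b (b (c (l 16366016) (l 16399440)) (c (l 16372304) (l 16404488))) (b (b (c (l 16375760) (l 16407152)) (c (l 16375560) (l 16406576)))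 (b (c (b (l 16374504) (l 16351952)) (b (l 16405384) (l 16403840))) (c (b (b (b (l 16350424) (b (l 22044420039) (a (l 16371472) (l 16346736)))) (a (l 16371352) (l 16367520))) (a (l 16372200) (l 16368216))) (b (b (b (l 16402400) (a (c (l 16395400) (l 16411728)) (c (l 16390968) (l 16406848)))) (a (l 16402976) (l 16398240))) (a (l 16403712) (l 16398832)))))))) (b (c (b (a (l 16377248) (l 16372360)) (l 16382936)) (b (c (l 16376384) (l 16392144)) (l 16412352))) (c (l 16395824) (l 16423904))))), by decide +kernel⟩

def k4_pm_112 : ∃ t, chk3 f_pm_112 t 21 10 1 = true :=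
  ⟨(b (b (l 1) (b (l 1) (b (l 1) (b (l 1) (a (a (b (l 1) (c (l 16364960) (l 16394712))) (l 1)) (l 1)))))) (b (a (c (b (a (l 22581294407) (l 191158756919)) (l 15065124007)) (b (a (l 16376400) (l 16372208)) (l 16378408))) (c (l 184716331127) (l 183105735399))) (a (c (l 16379920) (l 16385608)) (c (l 16367104) (l 16371520))))), by decide +kernel⟩

def k5_pm_112 : ∃ t, chk3 f_pm_112 t 11 10 1 = true :=
  ⟨(b (l 1) (a (a (b (l 1) (l 177200042759)) (l 1)) (l 1))), by decide +kernel⟩

def k6_pm_112 : ∃ t, chk3 f_pm_112 t 2 11 1 = true :=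
  ⟨(b (a (a (a (l 16550928) (l 16512104)) (a (b (l 16434128) (l 16584352)) (b (c (l 16439368) (l 16469728)) (l 16447440)))) (a (a (a (b (l 16453240) (l 16479992)) (b (l 16427936) (l 16449200))) (a (b (l 16405632) (l 16421400)) (b (l 16386504) (l 16396776)))) (a (a (b (l 16349720) (l 16375464)) (c (l 134250489959) (l 16348064))) (a (l 166462538935) (l 1))))) (a (a (a (l 16671608) (l 16649560)) (a (l 16571912) (b (l 16506312) (l 16568264)))) (a (a (c (l 16473496) (l 16497728)) (a (l 16451536) (l 16418944))) (a (c (l 16366056) (l 16387176)) (c (l 16300360) (l 16342248)))))), by decide +kernel⟩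

def k7_pm_112 : ∃ t, chk3 f_pm_112 t 3 5 1 = true :=
  ⟨(a (b (l 1) (a (a (b (l 1) (c (l 16269608) (l 16312312))) (l 1)) (l 1))) (l 1)), by decide +kernel⟩

def k8_pm_112 : ∃ t, chk3 f_pm_112 t 2 3 1 = true :=
  ⟨(a (b (a (b (a (b (l 16625568) (l 16462984)) (b (l 16711768) (l 16577216))) (a (l 16075880) (l 16174696))) (b (a (b (l 16707576) (l 16665816)) (b (a (l 16704712) (l 16629696)) (l 16703176))) (a (l 16271752) (l 16301088)))) (a (a (b (l 15952168) (b (l 15769024) (l 15654424))) (b (l 16070336) (l 15725760))) (b (b (l 16147688) (l 16043920)) (a (l 15881488) (l 15981392))))) (b (a (b (a (b (l 16490256) (l 16591440)) (b (l 16398576) (l 16481240))) (a (b (l 16651648) (l 16571976)) (l 16404128))) (b (a (b (l 16319552) (l 16445920)) (b (c (l 16328216) (l 16347960)) (l 16360464))) (a (b (l 16481824) (l 16570992)) (b (l 16398936) (l 16451920))))) (a (b (a (l 16202728) (b (l 16523952) (l 16393928))) (a (l 16084632) (l 16123448))) (b (a (l 16450848) (l 16381648)) (a (l 16218792) (l 16365888)))))), by decide +kernel⟩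

def k9_pm_112 : ∃ t, chk3 f_pm_112 t 3 3 1 = true :=
  ⟨(a (b (a (b (a (b (b (l 16288256) (l 16285104)) (l 16288504)) (b (a (l 16258008) (l 1)) (a (l 16244048) (l 16244880)))) (a (b (l 16307608) (l 16342816)) (a (l 16256496) (b (l 16234520) (l 16240816))))) (b (a (b (l 1) (l 135323768599)) (l 1)) (a (b (l 16198720) (l 16278424)) (b (l 16237864) (l 16285872))))) (a (b (a (l 16212872) (a (l 16309232) (a (l 16246008) (l 16169192)))) (a (l 16411768) (b (l 16388296) (l 16433280)))) (b (a (b (l 16288152) (l 16310760)) (b (l 16326712) (l 16359448))) (a (b (l 16344536) (l 16385064)) (b (l 16382552) (l 16413896)))))) (a (b (b (l 1) (a (b (l 1) (l 16310968)) (l 1))) (b (a (a (l 16276888) (l 16294656)) (a (l 16357416) (l 16244520))) (a (b (l 16433496) (l 16442408)) (b (l 16383352) (l 16346888))))) (b (l 1) (a (b (a (b (l 1) (l 16323896)) (l 1)) (a (b (l 16283888) (l 16234808)) (b (l 16182776) (l 16139104)))) (b (l 1) (c (a (b (l 16112232) (l 16078344)) (l 84320252503)) (a (b (l 16009328) (l 15973256)) (l 87541192519)))))))), by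 decide +kernel⟩

theorem s10_pm_112 : ∃ t, chk3 f_pm_112 t 1 3 1 = true := ex3_a k8_pm_112 k9_pm_112

theorem s11_pm_112 : ∃ t, chk3 f_pm_112 t 10 10 1 = true := ex3_a k3_pm_112 k4_pm_112

theorem s12_pm_112 : ∃ t, chk3 f_pm_112 t 5 10 1 = true := ex3_a s11_pm_112 k5_pm_112

theorem s13_pm_112 : ∃ t, chk3 f_pm_112 t 4 10 1 = true := ex3_b k1_pm_112 k2_pm_112

theorem s14_pm_112 : ∃ t, chk3 f_pm_112 t 2 10 1 = true := ex3_a s13_pm_112 s12_pm_112

theorem s15_pm_112 : ∃ t, chk3 f_pm_112 t 2 5 1 = true := ex3_b s14_pm_112 k6_pm_112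

theorem s16_pm_112 : ∃ t, chk3 f_pm_112 t 1 5 1 = true := ex3_a s15_pm_112 k7_pm_112

theorem s17_pm_112 : ∃ t, chk3 f_pm_112 t 1 2 1 = true := ex3_b k0_pm_112 s16_pm_112

theorem s18_pm_112 : ∃ t, chk3 f_pm_112 t 1 1 1 = true := ex3_b s17_pm_112 s10_pm_112

theorem c_pm_112 : CertB 536870912 536870912 536870912 536870912 991146299 28908434 3 eng mog cd0q1 cd1q1 pd2 true true false .dn 1 1 2
    ndB0q1 ndB1q1 pcB2 Cut.none Ext.none :=
  certB1 (fam := true) (s1 := true) (s2 := false) (a := 1) (b := 1) (c := 2) (cn := .dn) (n1 := ndB0q1) (n2 := ndB1q1) (pc := pcB2) (cut := Cut.none) (xt := Ext.none) (P1 := 536870912) (W1 := 536870912) (P2 := 536870912) (W2 := 536870912) (P3 := 991146299) (W3 := 28908434) (N0 := 3) (En := eng) (mo := mog) (C1 := cd0q1) (C2 := cd1q1) (C3 := pd2)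
    rfl (fun _ => rfl) s18_pm_112

noncomputable def xt_pm_113 : Ext := extD3 3 ⟨4, 1, 1, 5, 22, 5, 21, 25, 41, 100, 1, 20⟩ eng cd0q1 cd1q1 pd3 true true false .nn 1 1 3 rfl ndB0q1 ndB1q1 pcB3

noncomputable def f_pm_113 : ℕ → ℕ → ℕ → ℕ → Bool := onCell 536870912 536870912 536870912 536870912 991146299 28908434
    (rowB 3 eng mog cd0q1 cd1q1 pd3 0 true true false .nn 1 1 3 (qsf 536870912 536870912 536870912 536870912 3) ndB0q1 ndB1q1 pcB3 Cut.none xt_pm_113)

def k0_pm_113 : ∃ t, chk3 f_pm_113 t 2 1 1 = true :=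
  ⟨(b (a (l 1) (b (l 1) (a (l 1) (b (l 1) (a (l 1) (b (l 1) (l 16356776))))))) (b (a (b (l 1) (a (l 1) (c (l 144449977223) (l 15857024)))) (a (b (a (l 1) (b (l 1) (l 16096832))) (a (l 120827508391) (b (l 16061920) (l 15917376)))) (b (a (b (l 16283192) (l 16151288)) (b (l 16232640) (l 16101024))) (a (b (a (l 16030520) (l 16005616)) (l 15879280)) (b (l 15967048) (a (l 15847624) (l 15822664))))))) (a (b (a (c (l 176124863079) (l 151965654055)) (a (l 135322555671) (l 96667783159))) (a (b (b (l 15544520) (a (l 15601680) (l 15557160))) (a (l 15384736) (b (l 15506496) (l 15497936)))) (b (c (l 15549992) (l 15547152)) (a (b (l 15457952) (l 15426456)) (c (l 15379296) (l 15404320)))))) (b (a (a (l 15666024) (l 15592568)) (a (l 15666368) (b (l 15680488) (l 15566792)))) (b (a (a (l 15506776) (l 15480848)) (l 15548768)) (a (a (b (l 15400760) (l 15336360)) (l 15345608)) (l 15400096))))))), by decide +kernel⟩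

def k1_pm_113 : ∃ t, chk3 f_pm_113 t 6 2 1 = true :=
  ⟨(b (a (l 1) (a (l 1) (a (l 1) (b (l 1) (b (l 1) (l 16091512)))))) (a (b (a (l 1) (b (l 1) (a (l 1) (l 15973608)))) (a (b (l 16362400) (l 16304376)) (b (l 16102648) (l 16255128)))) (b (a (b (c (l 15987400) (l 16040760)) (a (l 15833432) (l 16122480))) (c (b (l 16081136) (l 16201936)) (b (l 16146160) (l 16226280)))) (a (b (a (c (l 16127640) (l 16189952)) (l 16205912)) (a (l 16223864) (l 16210448))) (b (c (l 16275728) (l 16274584)) (a (l 16190896) (l 16161544))))))), by decide +kernel⟩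

def k2_pm_113 : ∃ t, chk3 f_pm_113 t 7 2 1 = true :=
  ⟨(a (b (b (a (l 1) (b (l 1) (a (l 1) (l 16238392)))) (a (b (c (l 16045456) (l 16120136)) (c (l 16108952) (l 16184144))) (b (a (l 16181200) (l 16288168)) (a (l 16282752) (l 16316680))))) (b (a (b (a (l 16227008) (l 16287328)) (a (l 16298936) (l 16276136))) (b (a (l 16306312) (l 16220472)) (a (l 16206960) (l 16123440)))) (a (b (a (l 16227760) (l 16173736)) (a (l 16121800) (l 16071184))) (b (a (l 16107328) (l 16027720)) (a (l 16009384) (l 15935680)))))) (b (a (b (a (c (l 16188776) (l 16212016)) (b (l 16208128) (c (l 16251048) (l 16295080)))) (a (c (l 16040064) (l 16228728)) (a (b (l 16215888) (l 16061224)) (b (a (l 16167048) (l 16135448)) (l 15920824))))) (b (a (b (a (l 16041696) (l 16194576)) (c (l 16022416) (l 16178328))) (c (l 15998480) (l 16111352))) (b (a (c (l 16055256) (l 16093920)) (l 15977456)) (a (l 15910896) (l 15903824))))) (a (b (a (b (c (l 16115864) (l 16123080)) (l 15857048)) (b (a (c (l 16027312) (l 16041288)) (l 15985120)) (a (l 15980240) (l 15906072))))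 (a (b (c (l 15944376) (l 15925376)) (a (l 15872416) (l 15915696))) (b (c (l 15862824) (l 15842296)) (l 15781616)))) (b (c (a (l 15881312) (l 15802144)) (a (l 15880480) (l 15792216))) (b (a (l 15773584) (l 15700640)) (a (l 15713544) (l 15650440))))))), by decide +kernel⟩

def k3_pm_113 : ∃ t, chk3 f_pm_113 t 6 3 1 = true :=
  ⟨(b (a (b (a (b (l 16184336) (l 16055200)) (b (l 16139088) (l 16014120))) (a (b (l 15921824) (l 15788536)) (b (l 15884208) (l 15753224)))) (b (a (b (a (l 16108664) (l 16094128)) (a (l 15986904) (l 15952056))) (b (a (l 16076936) (l 16050864)) (c (l 15978984) (l 15921024)))) (a (b (a (l 15861344) (l 15954520)) (a (l 15734872) (l 15726840))) (b (a (l 15841720) (l 15828688)) (a (l 15724392) (l 15721248)))))) (a (b (a (b (a (l 15670592) (l 15649672)) (a (l 15545240) (l 15528160))) (b (l 15625168) (l 15504424))) (a (b (l 15411792) (l 15295480)) (b (a (l 15399560) (l 15390392)) (l 15437168)))) (b (a (b (l 15608640) (l 15493936)) (b (a (c (l 15658288) (l 15564632)) (l 15619640)) (a (l 15506592) (l 15527168))))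 (a (b (l 15390504) (a (l 15297816) (l 15311800))) (b (a (l 15414664) (c (l 15515552) (l 15382728))) (a (l 15340888) (l 15390224))))))), by decide +kernel⟩

def k4_pm_113 : ∃ t, chk3 f_pm_113 t 7 6 1 = true :=
  ⟨(a (b (a (b (c (l 16020272) (l 15967088)) (a (l 15910384) (l 15873112))) (b (a (l 15915320) (l 15850080)) (a (l 15827680) (l 15774152)))) (a (b (a (l 15808696) (l 15782032)) (a (l 15712776) (l 15699920))) (b (a (l 15749464) (c (l 15758520) (l 15665376))) (a (l 15684280) (a (l 15672072) (l 15665896)))))) (a (b (a (b (a (l 15878640) (l 15764528)) (a (l 15732352) (l 15711440))) (b (l 15723944) (l 15682712))) (b (a (b (l 15690776) (l 15676352)) (l 15665360)) (a (l 15668912) (l 15682992)))) (b (b (a (l 15667752) (l 15617824)) (a (l 15643160) (l 15611624))) (b (a (l 15650120) (l 15645736)) (a (l 15705304) (l 15744288)))))), by decide +kernel⟩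

def k5_pm_113 : ∃ t, chk3 f_pm_113 t 7 7 1 = true :=
  ⟨(a (b (a (b (a (l 15625624) (l 15630304)) (a (l 15550960) (l 15577712))) (a (b (l 15636696) (l 15612720)) (b (a (l 15645184) (l 15658000)) (a (l 15649992) (l 15688232))))) (a (b (c (l 15595248) (l 15443440)) (a (l 15460912) (l 15550384))) (b (a (l 15620680) (c (l 15842632) (l 15628168))) (a (b (l 15654784) (l 133129999543992335)) (b (a (l 15776360) (l 15895808)) (a (l 15856616) (l 16021272))))))) (b (a (b (a (l 15691024) (l 15753712)) (a (l 15766376) (l 15910584))) (b (a (l 15838648) (l 15954968)) (a (b (l 16024888) (l 16217144)) (b (l 16249536) (l 16565528))))) (a (b (a (b (l 15876008) (l 137511347822133263)) (b (l 16124240) (a (l 16239448) (l 16415616)))) (a (b (l 559534848530607092787215) (b (l 16258664) (l 16247728))) (b (a (l 16342160) (l 16386568)) (a (b (l 16324032) (l 16312008)) (b (l 16366848) (l 16352944)))))) (b (a (b (l 16476384) (a (l 16460720) (l 16505112))) (b (a (l 16580536) (l 16622184)) (a (l 16485208) (b (l 16589984) (l 16570384))))) (a (b (a (l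 16431096) (b (l 16480984) (l 16466584))) (a (b (l 16409016) (l 16397256)) (b (l 16448928) (a (l 16424016) (l 16437496))))) (b (a (b (l 16518320) (l 16431464)) (b (l 16548312) (l 16510592))) (a (b (l 16474304) (a (l 16435840) (l 16430992))) (b (a (l 16471312) (l 4)) (l 4))))))))), by decide +kernel⟩

theorem s6_pm_113 : ∃ t, chk3 f_pm_113 t 7 3 1 = true := ex3_b k4_pm_113 k5_pm_113

theorem s7_pm_113 : ∃ t, chk3 f_pm_113 t 3 3 1 = true := ex3_a k3_pm_113 s6_pm_113

theorem s8_pm_113 : ∃ t, chk3 f_pm_113 t 3 2 1 = true := ex3_a k1_pm_113 k2_pm_113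

theorem s9_pm_113 : ∃ t, chk3 f_pm_113 t 3 1 1 = true := ex3_b s8_pm_113 s7_pm_113

theorem s10_pm_113 : ∃ t, chk3 f_pm_113 t 1 1 1 = true := ex3_a k0_pm_113 s9_pm_113

theorem c_pm_113 : CertB 536870912 536870912 536870912 536870912 991146299 28908434 3 eng mog cd0q1 cd1q1 pd3 true true false .nn 1 1 3
    ndB0q1 ndB1q1 pcB3 Cut.none xt_pm_113 :=
  certB0 (fam := true) (s1 := true) (s2 := false) (a := 1) (b := 1) (c := 3) (cn := .nn) (n1 := ndB0q1) (n2 := ndB1q1) (pc := pcB3) (cut := Cut.none) (xt := xt_pm_113) (P1 := 536870912) (W1 := 536870912) (P2 := 536870912) (W2 := 536870912) (P3 := 991146299) (W3 := 28908434) (N0 := 3) (En := eng) (mo := mog) (C1 := cd0q1) (C2 := cd1q1) (C3 := pd3)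
    rfl s10_pm_113

noncomputable def cut_pm_123_a : Cut := Cut.of [[⟨0, 1, 0, 37748736⟩, ⟨1, 1, 0, 37748736⟩, ⟨2, 2, 0, 5242880⟩], [⟨0, 0, 1, 46137344⟩, ⟨1, 1, 0, 2097152⟩, ⟨2, 1, 1, 46137344⟩, ⟨0, 0, 0, 1027248803⟩, ⟨0, 1, 0, 87939455⟩, ⟨2, 1, 0, 1027248803⟩, ⟨2, 2, 0, 87939455⟩]]

noncomputable def xt_pm_123_a : Ext := extD3 3 ⟨4, 1, 1, 5, 22, 5, 21, 25, 41, 100, 1, 20⟩ eng cd0q1 cd1q2a pd3 true true false .npn 1 2 3 rfl ndB0q1 ndB1q2a pcB3

noncomputable def f_pm_123_a : ℕ → ℕ → ℕ → ℕ → Bool := onCell 1610612736 536870912 0 536870912 991146299 28908434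
    (rowB 3 eng mog cd0q1 cd1q2a pd3 2 true true false .npn 1 2 3 (qsf 536870912 536870912 0 536870912 3) ndB0q1 ndB1q2a pcB3 cut_pm_123_a xt_pm_123_a)

def k0_pm_123_a : ∃ t, chk3 f_pm_123_a t 4 1 1 = true :=
  ⟨(b (a (l 1) (b (l 1) (a (l 1) (b (l 1) (l 16094872))))) (b (a (l 1) (b (a (l 1) (c (l 16119488) (l 16166904))) (a (c (l 16059168) (l 16130552)) (c (l 16048480) (l 16109648))))) (b (a (a (l 1) (b (c (l 16008944) (l 16099696)) (b (l 47813030391) (c (l 15947280) (l 16037592))))) (b (a (l 15836336) (l 15900248)) (c (b (l 15868864) (a (l 15915728) (l 15894000))) (a (l 16014008) (l 15983600))))) (a (a (b (c (l 15991208) (l 16068096)) (c (l 15979152) (l 16029656))) (b (c (l 15948592) (l 16019736)) (c (l 15913344) (l 15979664)))) (a (c (b (l 15912384) (l 15915288)) (b (l 15976312) (l 15933264))) (c (b (l 15882528) (l 15901032)) (b (l 15937752) (l 15890280)))))))), by decide +kernel⟩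

def k1_pm_123_a : ∃ t, chk3 f_pm_123_a t 5 2 1 = true :=
  ⟨(b (a (a (a (l 1) (b (b (c (l 16239192) (l 16200688)) (l 16220160)) (l 16218656))) (b (b (a (b (a (b (l 16236504) (l 16231600)) (b (l 16258160) (l 16244808))) (l 16235912)) (b (l 16286536) (a (l 16336832) (b (l 16274256) (l 16263112))))) (a (l 16235336) (l 16253544))) (c (l 16248752) (l 16230288)))) (a (b (b (a (c (l 16336216) (l 16302992)) (l 16360728)) (a (b (a (l 16272328) (b (l 16292560) (l 16283256))) (l 16273800)) (b (a (l 16310320) (l 16336960)) (a (l 16293128) (b (l 16313056) (l 16304856)))))) (b (a (l 16270024) (l 16292696)) (l 16336304))) (b (a (b (l 16422488) (a (b (l 16363328) (l 16331408)) (l 16374088))) (c (l 16475544) (l 16453824))) (b (a (a (l 16313000) (c (l 16343192) (l 16315320))) (b (a (l 16354056) (l 16381480)) (a (l 16337960) (l 16376896)))) (a (l 16308168) (l 16334984)))))) (a (a (b (c (l 16202624) (l 16207792)) (l 16182888)) (b (a (l 16219088) (l 16232056)) (l 16197264))) (a (b (c (l 16260336) (l 16253496)) (l 16200928)) (b (c (l 16305128)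 (l 16293560)) (c (l 16257048) (l 16257624)))))), by decide +kernel⟩

def k2_pm_123_a : ∃ t, chk3 f_pm_123_a t 5 3 1 = true :=
  ⟨(b (a (b (a (c (l 16122776) (l 16160800)) (c (l 16135472) (l 16164024))) (a (c (l 16046536) (l 16096776)) (c (l 16053232) (l 16092096)))) (b (a (c (l 16157560) (l 16176736)) (c (l 16189208) (l 16199320))) (a (c (l 16068672) (l 16095880)) (c (l 16135136) (l 16108784))))) (b (a (a (b (l 15929768) (c (a (l 15901968) (l 15898056)) (l 15959304))) (b (l 15862072) (c (b (l 15914688) (l 15876144)) (l 15941240)))) (a (c (b (l 15977704) (l 15900912)) (b (l 16007448) (l 15930168))) (c (b (l 15996656) (l 15915912)) (b (l 16012144) (l 15928536))))) (a (a (b (c (l 15859192) (l 15904152)) (c (b (l 15838688) (l 15817584)) (l 15850744))) (b (c (b (l 15848200) (l 15835584)) (l 15770024)) (c (b (l 15816168) (l 15790216)) (l 15752128)))) (b (a (c (b (b (l 15849056) (l 15838656)) (l 15824952)) (b (l 15867808) (l 15838816))) (b (c (a (l 15847208) (l 15853944)) (l 15858080)) (c (l 15823792) (l 15821280)))) (a (c (b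 (l 15800728) (l 15769120)) (b (l 15803912) (l 15761928))) (c (b (l 15794232) (l 15756464)) (b (l 15781040) (l 15732776)))))))), by decide +kernel⟩

def k3_pm_123_a : ∃ t, chk3 f_pm_123_a t 12 2 1 = true :=
  ⟨(b (a (b (a (c (l 16567176) (l 16591560)) (b (a (l 16561536) (l 16586072)) (l 16519128))) (b (a (a (b (l 16408800) (l 16377944)) (l 16420784)) (l 16461704)) (a (b (a (l 16361568) (l 16380312)) (l 16360944)) (b (a (l 16402808) (l 16430768)) (a (l 16385744) (l 16405304)))))) (b (a (b (a (l 16610272) (l 16634096)) (l 16570120)) (b (a (l 16657520) (l 16680504)) (l 16661608))) (a (b (l 16515304) (a (l 16484752) (l 16471336))) (b (l 16567568) (l 16512496))))) (a (b (b (a (l 16348192) (l 16378960)) (l 16426224)) (c (l 16305720) (l 16300392))) (b (b (a (b (a (l 16410344) (l 16430744)) (l 16407160)) (b (a (l 16454696) (l 16483144)) (a (l 16435240) (l 16456528)))) (a (l 16388784) (l 16423528))) (b (a (l 16360728) (l 16393376)) (l 16321672))))), by decide +kernel⟩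

def k4_pm_123_a : ∃ t, chk3 f_pm_123_a t 13 2 1 = true :=
  ⟨(b (b (a (a (a (b (l 16703016) (l 16655648)) (b (l 16725032) (l 16679112))) (b (a (l 16746448) (b (a (l 16748392) (l 119957055703)) (l 16756760))) (a (l 16702096) (l 16724552)))) (b (a (a (a (l 117272685671) (l 105998405639)) (b (l 4) (l 76470529111))) (l 4)) (a (a (l 16746360) (b (l 95797845191) (l 16757088))) (a (b (l 76470529639) (l 95797841799)) (b (l 4) (l 75933658439)))))) (b (a (a (l 16618224) (l 16625152)) (a (l 16745504) (a (l 16747592) (b (l 16742368) (l 16758576))))) (a (a (l 16565976) (l 16617728)) (a (l 16646696) (l 16736720))))) (a (b (a (b (a (l 16495696) (l 16524152)) (b (a (l 16460352) (l 16482592)) (l 16453888))) (b (l 16565040) (b (l 16521680) (a (l 16485648) (l 16508976))))) (a (b (l 16429176) (l 16391984)) (b (l 16510632) (l 16429064)))) (b (a (b (l 16617928) (l 16564472)) (b (l 16648096) (l 16618608))) (a (b (b (a (l 16511184) (l 16535840)) (l 16502560)) (l 16469768)) (b (b (l 16578232) (a (l 16537160) (l 16563528))) (b (l 16527296) (l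 16502952))))))), by decide +kernel⟩

def k5_pm_123_a : ∃ t, chk3 f_pm_123_a t 7 2 1 = true :=
  ⟨(b (a (a (b (l 4) (b (a (a (b (l 81839219015) (l 16741160)) (l 92576605271)) (l 4)) (a (a (l 16750008) (l 84523537287)) (a (l 104924632567) (l 112440820263))))) (l 4)) (l 4)) (a (a (b (a (b (l 16739480) (l 16629264)) (a (b (l 16753472) (l 16709688)) (b (l 79154821831) (l 16734832)))) (a (b (l 16577752) (b (a (l 16564000) (l 16592520)) (l 16647288))) (b (a (l 16660608) (l 16687664)) (a (l 16606200) (l 16635672))))) (a (b (a (b (l 102240265943) (l 16757480)) (b (l 99019041575) (l 85597251575))) (b (a (l 16714528) (l 16740848)) (a (l 16664320) (l 16692968)))) (b (a (b (l 4) (l 100629641447)) (l 4)) (a (b (l 16759432) (l 16721600)) (b (l 79154799511) (l 16749136)))))) (a (a (b (l 4) (a (b (b (l 4) (l 16725464)) (b (l 16737520) (l 16758208))) (b (l 4) (a (l 16739792) (l 16728184))))) (l 4)) (l 4)))), by decide +kernel⟩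

def k6_pm_123_a : ∃ t, chk3 f_pm_123_a t 6 6 1 = true :=
  ⟨(a (b (a (c (l 16230808) (l 16232472)) (c (l 16283232) (l 16277128))) (a (c (l 16211608) (l 16131496)) (c (b (l 16204760) (l 16141264)) (b (l 16198184) (l 16131816))))) (b (b (a (a (l 16348960) (l 16384048)) (a (l 16422904) (l 16465864))) (a (l 16420056) (a (l 16369416) (l 16410968)))) (a (c (b (l 16264936) (l 16199136)) (b (l 16248640) (l 16177424))) (b (a (l 16308168) (l 16348688)) (c (l 16273776) (l 16241640)))))), by decide +kernel⟩

def k7_pm_123_a : ∃ t, chk3 f_pm_123_a t 6 7 1 = true :=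
  ⟨(a (b (a (c (b (l 16025832) (l 15941552)) (b (l 16026360) (l 15936264))) (c (b (l 16067168) (a (l 15969272) (l 15992552))) (b (l 16052120) (l 15955992)))) (b (a (b (c (a (l 15864056) (l 15877784)) (l 15858504)) (c (l 15834792) (l 15812752))) (b (c (a (l 15895552) (l 15917904)) (l 15872104)) (c (a (l 15853408) (l 15871968)) (l 15901160)))) (a (c (a (l 15776600) (l 15781472)) (b (l 15766680) (l 15711632))) (c (a (b (l 15814384) (l 15765304)) (b (l 15830816) (l 15778976))) (b (l 15765888) (l 15704064)))))) (b (a (b (c (l 16123440) (l 16093056)) (c (a (l 16020336) (l 16053424)) (l 16034464))) (b (c (l 16199008) (l 16154680)) (c (a (l 16092816) (l 16139840)) (a (l 16035096) (l 16072968))))) (b (a (b (c (l 16025104) (l 15904600)) (b (c (a (l 15907408) (l 15941624)) (l 15857592)) (c (l 15902504) (l 15829880)))) (b (c (a (l 16022368) (l 16074088)) (l 15965616)) (a (c (b (l 15985144) (l 15962608)) (l 15884184)) (c (b (l 16040080) (l 16060544)) (b (l 15939752) (l 15908976)))))) (a (c (b (a (l 15854120) (l 15886200)) (a (l 15800248)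 (l 15831512))) (b (l 15786736) (a (l 15712680) (l 15728528)))) (c (b (a (l 15929624) (a (l 15971736) (l 16005440))) (a (b (l 15890624) (l 15860976)) (a (l 15921208) (l 16042240)))) (a (b (l 15824608) (l 15755608)) (b (l 15865416) (l 15818992)))))))), by decide +kernel⟩

def k8_pm_123_a : ∃ t, chk3 f_pm_123_a t 7 6 1 = true :=
  ⟨(a (a (b (a (b (l 16513336) (l 16457392)) (b (b (a (l 16566256) (l 16593624)) (l 16553168)) (l 16509224))) (b (a (l 16394600) (l 16446592)) (c (l 16369960) (l 16330584)))) (b (a (b (a (b (l 16623616) (l 16595448)) (l 16576128)) (a (l 16551944) (b (l 16597672) (l 16567736)))) (b (a (l 16670440) (l 16701448)) (a (b (l 16628520) (l 16600616)) (b (l 16661672) (l 16633456))))) (a (b (a (l 16489976) (l 16521216)) (a (l 16422576) (l 16455472))) (b (a (l 16554672) (l 16632072)) (c (l 16530224) (l 16511232)))))) (b (b (a (a (a (l 16732536) (b (l 16737232) (l 16751064))) (a (a (l 16738760) (l 75933569223)) (a (l 146800536135) (l 4)))) (l 4)) (a (a (a (l 16618560) (l 16715824)) (a (c (l 16746040) (l 16752960))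 (a (l 16717672) (a (l 16718936) (l 65733027431))))) (a (a (a (b (l 4) (l 82912901991)) (l 4)) (l 4)) (l 4)))) (b (a (a (a (b (l 16640584) (l 16612248)) (b (l 16676840) (l 16650856))) (a (b (l 16714392) (l 16689240)) (b (l 16730200) (l 16729448)))) (a (a (a (b (l 16759544) (l 16757128)) (b (l 80765415479) (l 16739008))) (a (b (l 4) (a (l 16741496) (l 16725176))) (l 4))) (l 4))) (a (a (a (l 16569280) (l 16610848)) (a (b (a (l 16655328) (l 16675688)) (l 16642176)) (b (a (l 16696416) (l 16717832)) (a (l 16675912) (l 16698024))))) (a (a (a (b (l 16738392) (l 16719720)) (l 16728096)) (b (a (l 16739656) (a (l 16721824) (l 241826705671))) (a (l 16758120) (a (l 16759800) (l 16741096))))) (a (a (b (l 4) (a (b (l 16736528) (l 16742432)) (l 4))) (l 4)) (l 4))))))), by decide +kernel⟩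

def k9_pm_123_a : ∃ t, chk3 f_pm_123_a t 14 7 2 = true :=
  ⟨(a (b (b (a (l 16272312) (l 16331224)) (a (l 16196128) (l 16263664))) (b (b (a (l 16137888) (l 16217000)) (a (b (l 16109400) (a (l 16071384) (l 16112832))) (a (l 16250312) (l 16217920)))) (b (a (b (l 16075008) (l 16057296)) (a (l 16184544) (b (l 16207408) (l 16200848)))) (a (b (a (l 16013712) (l 16064104)) (c (b (l 16064920) (l 16076520)) (l 15973544))) (b (c (l 577206253802039658390031) (l 16110304)) (c (a (l 576601985187770923094543) (l 579719623045883574133263)) (a (l 16061664) (l 574561162756087909081615)))))))) (b (a (b (a (l 16381544) (l 16418376)) (a (l 16323088) (l 16367520))) (b (a (l 16458488) (l 16501328)) (a (l 16416536) (l 16553704)))) (a (b (a (b (l 16288832) (l 16276464)) (b (l 16343832) (a (l 16325616) (l 16361096)))) (b (b (b (a (l 16275728) (l 139609422915829775)) (l 139170923857936399)) (a (l 16276664) (l 139721435690483727))) (b (a (l 138647556250288143) (b (l 139807609936986127) (l 140239992946622479))) (a (b (l 584983287600683170325007)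 (c (a (l 582976627184253714506255) (l 589799041775116172730895)) (l 578253394945515849835023))) (b (c (l 141061946719649807) (l 139227686183141391)) (b (c (a (l 140413028656513039) (l 141219589298601999)) (l 139455491263414287)) (a (c (c (l 141394480393650191) (l 140092452244963343)) (l 138944493180551183)) (a (c (b (l 141259446616162319) (a (c (l 141593492012564495) (l 140620905115435023)) (l 14))) (l 139508955061878799)) (l 14))))))))) (b (a (b (l 16405320) (b (l 16412920) (l 16425920))) (b (l 16473568) (b (l 16493288) (l 16538208)))) (b (b (a (b (l 140550330172276751) (l 140707216761552911)) (b (l 591713757199219835478543) (l 141893177717506063))) (a (l 140894889690775567) (l 142257597170335759))) (b (a (b (l 141128604679077903) (l 142033434197082127)) (b (l 142688262214139919) (l 143034814602641423))) (b (a (c (l 142341503675088911) (l 141070055709097999)) (c (l 143339104503005199) (l 142528352016449551))) (b (b (a (c (l 142521480022982671) (l 140830155999985679)) (c (l 143236987346894863) (l 142778422198468623)))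 (l 14)) (l 14))))))))), by decide +kernel⟩

def k10_pm_123_a : ∃ t, chk3 f_pm_123_a t 14 7 3 = true :=
  ⟨(a (b (b (a (l 16219088) (l 16273088)) (a (l 16120328) (l 16179264))) (b (b (a (l 16038024) (l 16104112)) (a (b (l 15994136) (l 15964752)) (b (l 16065704) (l 16040392)))) (a (b (l 15923624) (c (l 15902920) (l 15820904))) (b (b (l 16017032) (l 15993840)) (b (c (l 16015984) (l 15922464)) (c (a (l 15963504) (l 16028432)) (l 15892096))))))) (b (a (b (l 16484520) (a (l 16232544) (l 16273192))) (b (a (l 16395544) (l 16438584)) (a (l 16319296) (l 16370224)))) (a (b (a (b (l 16165752) (l 16123584)) (b (l 16213832) (b (l 16187672) (l 16172824)))) (b (a (b (l 16096312) (l 16080152)) (c (l 138787125358608399) (a (l 16088936) (l 16123960)))) (b (a (l 16064064) (l 137090166472425487)) (a (l 574674148801580598845967) (c (b (l 137744513453867023) (l 137730425966772239)) (l 569728403380063531115023)))))) (b (a (b (l 16268976) (a (l 16227976) (l 16262904))) (b (l 16331032) (b (l 16320920) (l 16320416)))) (b (b (a (l 138199505175576591)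 (c (l 139814138298974223) (l 138522349346275343))) (a (l 138189472132464655) (l 139318808223563791))) (b (a (c (l 138957068830785551) (l 137441804101943311)) (c (l 140364306535809039) (l 138693323443191823))) (b (a (c (l 139067569778360335) (l 16221152)) (c (l 141235257465651215) (l 138849247970918415))) (b (c (a (l 139140068888412175) (a (l 140419694497972239) (l 141957086898798607))) (a (l 16244600) (l 139499884172410895))) (l 14))))))))), by decide +kernel⟩

def k11_pm_123_a : ∃ t, chk3 f_pm_123_a t 15 14 1 = true :=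
  ⟨(b (a (a (c (a (l 16546552) (l 16593688)) (a (l 16484760) (l 16533864))) (a (c (l 16641776) (l 16585160)) (b (l 16669632) (l 16658792)))) (a (a (b (a (l 16705680) (b (l 16730584) (l 16725920))) (l 16710200)) (b (a (l 16727736) (l 16738080)) (a (b (l 16724016) (l 16746072)) (a (l 16738144) (l 16759664))))) (a (a (b (a (l 16761024) (a (l 16741880) (l 16733392))) (b (l 16739744) (l 16739688))) (b (a (a (l 259543453639) (l 551601236279)) (l 4)) (a (a (l 16762656) (l 16743408)) (a (c (l 216593786855) (l 16751784)) (b (l 4) (l 16746696)))))) (l 4)))) (b (a (a (a (l 16483424) (l 16560960)) (a (a (l 16584336) (l 16614184)) (l 16659144))) (a (a (l 16717208) (a (l 16755536) (b (a (l 16759600) (l 16738272)) (l 16760952)))) (a (a (a (b (l 16760736) (l 16739576)) (b (l 16761416) (l 16741080))) (a (l 16741920) (a (l 16763984) (l 16744000)))) (a (a (a (b (l 251490404359) (l 16765968)) (b (l 691187686247) (c (l 16763408) (l 16773392)))) (a (b (l 4) (l 697093266519)) (l 4))) (l 4))))) (a (a (a (c (l 16529304) (l 16414648)) (c (l 16595960)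 (l 16479360))) (a (a (l 16589432) (l 16625064)) (c (l 16737632) (l 16621312)))) (a (a (c (l 16754136) (l 16694256)) (a (l 16742072) (l 16742248))) (a (a (b (l 16740904) (l 16743024)) (a (b (a (l 16742064) (l 16743128)) (l 16764360)) (b (l 16743840) (a (l 16743896) (l 16745096))))) (a (a (a (l 16745544) (l 16746152)) (a (b (b (l 279944571319) (l 16747376)) (l 16747160)) (a (b (l 720178723879) (l 16748312)) (b (l 4) (b (l 16750776) (l 16748928)))))) (a (a (a (b (l 4) (l 815204878439)) (l 4)) (l 4)) (l 4)))))))), by decide +kernel⟩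

def k12_pm_123_a : ∃ t, chk3 f_pm_123_a t 60 15 1 = true :=
  ⟨(c (b (a (b (l 16548984) (a (l 16575680) (l 16627344))) (b (l 16673680) (a (l 16682344) (l 16740808)))) (b (a (b (a (l 597221264320672299769871) (l 16710096)) (a (l 16706080) (l 599303153249556808294415))) (b (a (l 16747816) (l 16747096)) (b (a (l 16744104) (l 16744952)) (l 601461422396065898913807)))) (b (a (b (l 143645043666550799) (l 143519080846622735)) (b (l 600880638098372547092495) (a (l 601430581559587847856207) (l 601403776142233607790671)))) (b (a (c (l 143409267105906767) (l 143371883663278095)) (a (c (l 143454896851140815) (l 143422598693175375)) (c (l 601436057879079083140367) (l 600659276986762914047055)))) (b (b (a (c (l 143326803721928783) (l 143290794711744527)) (c (l 143413115403731151) (l 143382191635382351))) (l 14)) (l 14)))))) (b (a (b (l 16400432) (b (l 16401680) (l 590997791357576241193487))) (b (l 16477648) (a (l 16477936) (l 16530360)))) (b (a (b (c (l 590375791160217106555407) (l 584476290437957995061775)) (a (l 140303627230445583)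 (l 596038653419774709277199))) (b (a (l 16523352) (l 16590864)) (b (c (l 600168708408333777510415) (l 593220625262143564079631)) (l 598187700579013398192143)))) (b (a (c (l 597188117222889555091471) (l 591777742973833481101839)) (b (l 599998940738976814243855) (a (l 599354745814605186883599) (l 601458828092538970103823)))) (b (a (c (l 142772100072767503) (b (l 140604343726030863) (l 141137057313931279))) (c (a (l 143390850291007503) (l 600639965523660638199887)) (b (l 599310646531182404296719) (l 599801214968667870257167)))) (b (b (a (c (l 143109512702033935) (l 141820197744902159)) (c (l 143351611464417295) (l 143321374869356559))) (l 14)) (l 14))))))), by decide +kernel⟩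

def k13_pm_123_a : ∃ t, chk3 f_pm_123_a t 61 30 1 = true :=
  ⟨(a (a (b (c (l 16698312) (l 16540768)) (c (l 16747152) (l 16586336))) (b (l 16727440) (c (l 16748512) (l 16646456)))) (b (c (l 16751872) (l 16654208)) (c (b (l 16752256) (l 16752536)) (b (l 16713392) (l 16758608))))), by decide +kernel⟩

def k14_pm_123_a : ∃ t, chk3 f_pm_123_a t 122 62 1 = true :=
  ⟨(a (b (c (l 16746648) (l 16664432)) (c (b (a (l 16745488) (l 16745760)) (l 16740136)) (b (a (l 16704112) (l 16743104)) (l 16737144)))) (b (c (l 16748224) (l 16746024)) (c (b (l 16747840) (l 16743776)) (b (l 16747152) (l 16742608))))), by decide +kernel⟩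

def k15_pm_123_a : ∃ t, chk3 f_pm_123_a t 244 126 1 = true :=
  ⟨(c (a (l 601706706299111309026383) (b (l 16734136) (l 16727656))) (b (l 602626594080886295744527) (c (l 16713968) (l 602341101278612290428943)))), by decide +kernel⟩

def k16_pm_123_a : ∃ t, chk3 f_pm_123_a t 244 254 1 = true :=
  ⟨(a (c (l 601098251882627328189647) (c (l 601841021524586888912975) (l 601835256893218192859151))) (c (c (l 601391382199294161397007) (l 601389076332920322385167)) (c (l 601388788080072898536527) (l 601390517440751889883151)))), by decide +kernel⟩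

def k17_pm_123_a : ∃ t, chk3 f_pm_123_a t 244 510 1 = true :=
  ⟨(c (a (c (l 143455171733471503) (l 143427477780873487)) (c (l 143477368129372431) (l 600569925567613263832335))) (c (a (l 143400127425659087) (l 600531590901677840114895)) (a (l 601042623306711611400271) (l 600871990950418082504783)))), by decide +kernel⟩

def k18_pm_123_a : ∃ t, chk3 f_pm_123_a t 488 511 1 = true :=
  ⟨(l 14), by decide +kernel⟩

def k19_pm_123_a : ∃ t, chk3 f_pm_123_a t 489 1022 1 = true :=
  ⟨(c (c (l 143461081608388879) (l 143433250216952079)) (c (c (l 143412565651931407) (l 143398753035436239)) (c (l 143385077857878223) (l 143371402680320079)))), by decide +kernel⟩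

def k20_pm_123_a : ∃ t, chk3 f_pm_123_a t 489 2046 1 = true :=
  ⟨(c (c (c (l 143460188253536527) (l 143445963320164623)) (c (l 143431669667299599) (l 143417444733927695))) (c (c (l 143403151081079055) (l 143388994867183887)) (c (l 143374769933795535) (l 143360613719900239)))), by decide +kernel⟩

def k21_pm_123_a : ∃ t, chk3 f_pm_123_a t 978 2047 1 = true :=
  ⟨(l 14), by decide +kernel⟩

def k22_pm_123_a : ∃ t, chk3 f_pm_123_a t 979 4094 1 = true :=
  ⟨(a (l 14) (c (c (c (l 143469740261605647) (l 143455446608789775)) (c (l 143441152955957519) (l 143426790583664911))) (c (c (l 143412496930849039) (l 143392568280924431)) (c (c (l 143387483038417167) (l 143380336212000975)) (c (l 143373189385584847) (l 143366042559184975)))))), by decide +kernel⟩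

def k23_pm_123_a : ∃ t, chk3 f_pm_123_a t 979 8190 1 = true :=
  ⟨(a (l 14) (c (c (c (c (l 143471114650943759) (l 143463899105050895)) (c (l 143456683559174415) (l 143449536732758287))) (c (c (l 143442321186865423) (l 143435105640972559)) (c (l 143427890095096079) (l 143420743268679951)))) (c (c (c (l 143413527722787087) (l 143406312176894223)) (c (l 143399096631017743) (l 143391949804601615))) (c (c (l 143384734258708751) (l 143371883715723471)) (c (l 143364736889323727) (c (l 143364943047131343) (l 143361369633915087))))))), by decide +kernel⟩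

def k24_pm_123_a : ∃ t, chk3 f_pm_123_a t 1958 8191 1 = true :=
  ⟨(l 14), by decide +kernel⟩

def k25_pm_123_a : ∃ t, chk3 f_pm_123_a t 3918 8191 1 = true :=
  ⟨(a (l 14) (c (c (c (c (l 143467541237547279) (l 143460325691654415)) (c (c (l 143454896852353295) (l 143451254719660303)) (a (l 143444726368649487) (l 143446994111578383)))) (c (c (c (l 143440397041090831) (l 143436754908397839)) (c (l 143433181495181583) (l 143429539362504975))) (c (c (l 143425897229811983) (l 143422255097135375)) (c (l 143418681683919119) (b (l 143415451868201231) (l 143414695953744143)))))) (c (a (c (c (c (l 143410297906807055) (l 143406724493590799)) (c (l 143403082360897807) (l 143399440228221199))) (c (c (l 143395798095528207) (l 143392224682311951)) (c (l 143388582549635343) (l 143384940416942351)))) (c (c (c (l 143412565649768719) (l 143408923517075727)) (c (l 143405350103875855) (l 143401707971182863))) (c (c (l 143398065838506255) (l 143394423705813263)) (c (l 143390850292597007) (l 143387208159920399))))) (b (c (c (l 143381092125835535)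 (l 143373807860465871)) (c (l 143366592314573007) (l 143359308049203407))) (a (a (l 14) (c (c (c (l 143381367003676943) (c (l 143378618224296207) (l 143376831517688079))) (c (c (l 143374976091603215) (l 143373189384995087)) (c (l 143371333958910223) (l 143369547252318479)))) (c (c (c (l 143367691826233551) (l 143365905119625423)) (c (l 143364118413017295) (l 143362262986932431))) (c (c (l 143360476280324303) (l 143358620854255823)) (c (c (l 143357246464557263) (l 143356353111261391)) (c (l 143355459757949135) (l 143354566404653263))))))) (c (c (c (l 143383153710268687) (l 143379511577575695)) (c (c (l 143376762798194959) (l 143374976091586831)) (c (l 143373120665518351) (l 143371333958910223)))) (c (c (c (l 143369547252302031) (l 143367691826217167)) (c (l 143363087621079247) (b (l 143364393290973391) (l 143363843535061199)))) (c (b (l 143361644511592655) (c (l 143361988108976335) (l 143360201402368207))) (c (a (l 143358139817509071) (l 143359239329611983)) (c (l 143357246464557263) (l 143356353111261391))))))))))), by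 decide +kernel⟩

def k26_pm_123_a : ∃ t, chk3 f_pm_123_a t 3919 8191 1 = true :=
  ⟨(c (c (c (c (l 143472557759938831) (l 143465342214045967)) (c (l 143458195387646223) (l 143451048561246479))) (c (c (l 143443833015369999) (l 143431051191861519)) (c (c (l 143431257349685519) (l 143427683936469263)) (c (l 143424110523269391) (l 143420468390592783))))) (c (c (c (c (l 143416894977392911) (l 143413321564193039)) (c (l 143409679431516431) (l 143406106018316559))) (c (c (l 143402532605116687) (l 143398890472423695)) (c (l 143395317059223823) (l 143386108648931599)))) (c (c (b (l 143387070721097999) (c (l 143387414318481679) (l 143383840904610063))) (c (c (l 143381848040243471) (l 143380061333651727)) (c (l 143378274627043599) (l 143376419200975119)))) (b (c (l 143372639629344975) (l 143365492802928847)) (c (c (c (l 143373945299501263) (l 143372158592893135)) (c (l 143370371886285007) (l 143368585179693263))) (c (c (l 143366798473085135) (l 143364943046344911)) (c (a (l 143361438353211599) (l 143364874327605455)) (c (l 143361850670203087)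 (l 143360888597430479))))))))), by decide +kernel⟩

def k27_pm_123_a : ∃ t, chk3 f_pm_123_a t 245 126 1 = true :=
  ⟨(c (l 601048676420382108787919) (b (l 16736240) (l 601393688133013100535823))), by decide +kernel⟩

def k28_pm_123_a : ∃ t, chk3 f_pm_123_a t 490 127 2 = true :=
  ⟨(b (c (l 601921726145220666582287) (l 601926337809386297795855)) (b (c (l 143534955056595215) (l 143509528847466767)) (b (c (c (l 143520936279310607) (l 143507673418875151)) (c (l 143494479277932815) (l 143481285136974095))) (c (b (c (l 143507329820557583) (l 143494066960105743)) (b (c (l 143499220921139407) (l 143485958060671247)) (c (c (a (l 143486645254848783) (l 143507054942683343)) (a (l 143479842025881871) (l 143500732750135567))) (c (a (l 143472970077438223) (l 143494341838110991)) (a (l 143466098128994575) (l 143488019645563151)))))) (c (b (l 143480804099670287) (b (l 143461425206034703) (c (a (l 143447956186366223) (l 143481628733538575)) (a (b (l 143453797341315343) (l 143439641128714511)) (l 143475237821513999))))) (b (l 143467472519741711)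 (a (a (b (l 143441908870381839) (c (l 143439641127223567) (l 143421361742938383))) (c (l 143454140939059471) (l 143436136435417359))) (c (l 143460394414244111) (l 143456820999438607))))))))), by decide +kernel⟩

def k29_pm_123_a : ∃ t, chk3 f_pm_123_a t 490 127 3 = true :=
  ⟨(b (c (l 601177803501492139959503) (l 601187603314146488918095)) (b (c (l 143484583674675471) (b (l 601165121311615139749967) (l 143453110149939279))) (c (b (c (l 143468159715508495) (l 143455103013536015)) (b (c (l 143454209659306255) (l 143440946798854415)) (a (b (c (l 143434006129950991) (l 143420193513603343)) (c (c (c (l 143433456373891343) (l 143430020399677711)) (c (l 143426584425447695) (l 143411878454362383))) (c (c (l 143408442480132367) (l 143405006506590479)) (a (c (l 143406380896731407) (l 143402876203024655)) (c (l 143419231440929039) (l 143415864186208527)))))) (c (a (c (l 143452766549983503) (l 143435036922953999)) (c (l 143464998618808591) (l 143458745145770255))) (c (c (l 143447750027985167) (l 143444520212234511)) (c (l 143441359115960591)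 (l 143438129298882831))))))) (b (c (l 143442046311547087) (l 143429058329034831)) (b (c (l 143427752657895631) (l 143414558516936911)) (c (c (b (l 143423011013132559) (c (a (a (l 143399371507974415) (l 143412428211994895)) (l 143432219424473359)) (a (c (l 143392087243522319) (l 143390369256243471)) (l 143428989608722703)))) (b (l 143416345223168271) (b (l 143412153334448399) (c (a (c (l 143398478154268943) (l 143396760167170319)) (l 143424385403240719)) (a (a (c (l 143388307672269071) (l 143386589685154063)) (l 143400883338576143)) (l 143421224306311439)))))) (c (b (l 143409748152697039) (a (c (a (c (l 143386246087770319) (l 143384459381178575)) (l 143398959191720207)) (a (c (l 143382741392720079) (l 143380954686128335)) (b (l 143396966328074447) (l 143394148827775183)))) (a (c (l 143412565651669263) (l 143409335835902159)) (c (l 143426240829751567) (l 143423079733494031))))) (b (l 143403082362732751) (b (l 143398890472653007) (c (c (a (a (l 143377793589805263) (l 143391606208200911)) (l 143412428213027023)) (a (a (l 143376075602690255)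 (l 143389888221085903)) (l 143410847664881871))) (c (a (a (l 143374288896082127) (l 143388238953464015)) (b (l 143409954311618767) (l 143408511202410703))) (a (a (a (l 143369066216440015) (l 143376006884720847)) (l 143386520966365391)) (a (l 143400608461373647) (l 143414695956398287)))))))))))))), by decide +kernel⟩

def k30_pm_123_a : ∃ t, chk3 f_pm_123_a t 491 127 1 = true :=
  ⟨(c (c (b (l 600737099371323868226831) (b (l 143591648631226575) (b (l 143559556631101647) (c (a (c (l 143530350849704143) (l 143524509693575375)) (c (l 143556945290576079) (l 143551516451389647))) (b (l 143537703834730703) (a (c (l 143518805975662799) (l 143512896100057295)) (c (l 143540864931266767) (l 143535504811557071)))))))) (b (l 600748340335584098723087) (b (l 143569039921414415) (b (l 143536947921125583) (a (b (l 143509047809392911) (c (c (l 143507054943944911) (l 143501145068339471)) (c (l 143495235192750351) (l 143489394036621583)))) (c (c (l 143512827384447183) (l 143507467259379919)) (b (l 143527189754560719) (c (l 143519287013490895)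 (l 143513926893781199))))))))) (b (c (l 600762751834875351278799) (l 600779757408376602992719)) (b (c (l 143546843528478991) (l 143524990732976335)) (c (b (l 143514476650135823) (b (c (l 143503893848916239) (l 143492623853650191)) (c (b (l 143495853668974863) (c (a (l 143480804101046543) (l 143505886714118351)) (a (l 143474894225457423) (l 143500457872261391)))) (c (c (a (l 143473176238473487) (l 143499014765920527)) (a (l 143470221300678927) (l 143496334706082063))) (c (a (l 143467266362884367) (l 143493654646227215)) (a (l 143464311425089807) (l 143490905866912015))))))) (b (l 143469602824405199) (b (c (l 143481422577877263) (l 143470152582627535)) (a (b (c (l 143459707219820815) (l 143447887468642511)) (c (c (c (l 143458676427309327) (l 143455721489514767)) (c (l 143452766551720207) (b (l 143451186003656975) (l 143448437224521999)))) (b (c (l 143446719237226767) (l 143440878081114319)) (a (c (c (l 143438610337595663) (l 143435586680307983)) (c (l 143432563023364367) (c (l 143430295280058575) (l 143428783451422927))))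 (c (c (l 143452354235187471) (l 143449468016869647)) (c (c (l 143447337712877839) (l 143445894603718927)) (c (l 143444451494576399) (l 143442939666612495)))))))) (c (c (c (l 143488225801699599) (l 143485477025054991)) (a (c (l 143475856299622671) (l 143473107517604111)) (l 143488363246518543))) (a (b (l 143468915631964431) (c (c (l 143467678678286607) (c (l 143465548376981775) (l 143464173987315983))) (b (l 143462043683422479) (c (c (l 143461425207918863) (l 143460050818253071)) (c (l 143458676427243791) (c (l 143457645634994447) (l 143456958440161551))))))) (c (l 143483071843647759) (c (l 143479086116323599) (l 143476474775961871)))))))))))), by decide +kernel⟩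

def k31_pm_123_a : ∃ t, chk3 f_pm_123_a t 123 62 1 = true :=
  ⟨(b (c (l 16752768) (l 16736552)) (c (b (l 16731928) (a (l 16748600) (l 16753120))) (b (a (l 16753616) (l 16759536)) (a (l 16750224) (l 16736416))))), by decide +kernel⟩

def k32_pm_123_a : ∃ t, chk3 f_pm_123_a t 123 126 1 = true :=
  ⟨(c (a (b (l 16742968) (l 600445986819572483908815)) (b (l 16748432) (l 143854088354660559))) (a (b (l 16722976) (l 600619501487530275841615)) (b (l 16751736) (l 143854844273623247)))), by decide +kernel⟩

def k33_pm_123_a : ∃ t, chk3 f_pm_123_a t 123 254 1 = true :=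
  ⟨(c (a (b (l 143722559255281871) (l 143684488659468495)) (l 143784406795288783)) (a (c (l 143681877321793743) (l 143668958059921487)) (c (l 143777809727488207) (l 143774511194063055)))), by decide +kernel⟩

def k34_pm_123_a : ∃ t, chk3 f_pm_123_a t 123 255 2 = true :=
  ⟨(b (a (c (l 143653083853488335) (l 143637072214540495)) (c (l 143736921629327567) (l 143729293767901391))) (a (b (c (l 143624015510847695) (l 143606148445782223)) (c (a (b (l 143587181865681103) (c (a (l 143568009128919247) (l 143592885583102159)) (c (l 143574881077772495) (l 143570208152944847)))) (c (c (l 143621541611159759) (l 143617830759170255)) (c (l 143614119907164367) (l 143610409055174863)))) (b (c (l 143597008753590479) (l 143588693696299215)) (c (a (c (l 143565535228133583) (l 143555227306213583)) (c (l 143613226552819919) (l 143609446981353679))) (a (c (l 143550554381402319) (l 143545812737114319)) (c (l 143605667409887439) (l 143601887838421199))))))) (b (c (l 143712113894801615) (l 143703180362940623)) (c (a (b (l 143676998236668111) (c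 (l 143660024524865743) (l 143654252088574159))) (c (l 143720222794596559) (l 143716237064995023))) (a (b (l 143665728242139343) (c (l 143648479652298959) (l 143642707216040143))) (c (l 143712182615933135) (l 143708196886380751))))))), by decide +kernel⟩

def k35_pm_123_a : ∃ t, chk3 f_pm_123_a t 123 255 3 = true :=
  ⟨(b (c (a (l 143621472892502223) (l 143722009503940815)) (a (l 143606148448436431) (l 143715068837462223))) (c (a (b (c (l 143595222048194767) (l 143587113149415631)) (b (c (l 143580309919547599) (l 143571994862289103)) (a (c (b (l 143546980968005839) (c (l 143532962194194639) (l 143533924266475727))) (a (c (l 143524097379123407) (l 143519149576372431)) (c (l 143550623101485263) (l 143546156335153359)))) (c (c (l 143598108266954959) (l 143594328695505103)) (c (l 143579279129854159) (l 143575499555717327)))))) (c (b (l 143696583293321423) (a (a (l 143639752276885711) (l 143665590804431055)) (l 143692872443166927))) (a (b (l 143665865682911439) (a (l 143622366249042127) (l 143660230685180111))) (a (l 143673424830562511)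 (l 143722215663468751))))) (b (a (c (l 143579004250652879) (l 143570895351906511)) (c (l 143687924639514831) (l 143683595312627919))) (a (a (b (c (l 143535985851367631) (l 143526708721287375)) (a (c (c (l 143514201773621519) (l 143509253970870543)) (c (l 143498671171043599) (a (l 143492142819148047) (l 143506573911621903)))) (c (c (l 143541689568821455) (l 143537154083012815)) (c (l 143532687316680911) (b (l 143530831890874639) (l 143519974212763855)))))) (a (c (c (l 143574193886609615) (l 143570208156696783)) (b (l 143569314803908815) (c (l 143561068465275087) (l 143545812741177551)))) (c (c (l 143601612962365647) (l 143598039549395151)) (c (l 143594534855917775) (l 143579691448762575))))) (a (c (b (l 143646074471350479) (c (l 143637828132700367) (l 143634873195118799))) (b (l 143640370754699471) (c (l 143620716982829263) (b (l 143631505941004495) (l 143615219424231631))))) (c (a (l 143682289641734351) (l 143709502559092943)) (c (l 143692872443560143) (l 143685175862247631)))))))), by decide +kernel⟩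

def k36_pm_123_a : ∃ t, chk3 f_pm_123_a t 31 30 1 = true :=
  ⟨(b (a (a (c (l 16735072) (l 16748208)) (c (a (l 16759192) (l 16760184)) (a (l 16772072) (l 16751064)))) (b (a (a (l 16744416) (a (l 16766032) (l 16745336))) (a (a (a (b (l 16746032) (l 16767416)) (c (l 16743200) (l 16751728))) (a (l 16747920) (l 16748816))) (a (a (a (l 16750064) (a (l 303030034711) (l 508651593943))) (a (b (l 4) (l 991835418503)) (l 4))) (l 4)))) (a (a (l 16750880) (a (l 16746384) (l 16747208))) (a (a (a (l 16747936) (l 16748200)) (a (b (b (l 16748864) (l 16749048)) (l 16749440)) (a (l 16755656) (l 16750584)))) (a (b (a (l 16750880) (a (l 143428714824171727) (l 4))) (a (l 16751848) (l 6))) (l 4)))))) (a (a (c (b (l 16757328) (l 16737184)) (b (l 16768120) (l 16747128))) (a (b (c (l 16761136) (l 16773304)) (c (l 16762336) (l 16753000))) (c (b (l 16762248) (l 16763960)) (b (l 16773424) (l 16753696))))) (a (a (b (a (l 16746944) (l 16747336)) (c (l 16744464) (l 16753440))) (b (a (l 16748088) (l 16749144)) (c (l 16757544) (l 16754568)))) (a (b (a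 (l 16750472) (a (l 16751664) (a (l 16752112) (l 6)))) (a (b (l 16752296) (l 16753520)) (b (l 16753952) (l 16755120)))) (l 6))))), by decide +kernel⟩

def k37_pm_123_a : ∃ t, chk3 f_pm_123_a t 31 62 1 = true :=
  ⟨(a (a (c (b (a (l 16757248) (l 16760488)) (a (b (l 16757776) (l 16736640)) (l 600840862555159463290575))) (b (a (l 16765344) (l 16770328)) (a (b (l 16765104) (l 601604096616429249176655)) (l 601678171726343229121743)))) (a (b (c (l 16743024) (l 16764616)) (c (l 601836410306616918582991) (l 143873261113393359))) (b (c (l 16744984) (l 16755208)) (c (l 602028371751290176169679) (l 143887898365640911))))) (a (a (b (c (l 601811622298898403518159) (l 143893739517640911)) (c (l 602191798199470973855311) (l 143879789467369551))) (b (c (l 601887426903631745771087) (l 601390806040907626522191)) (c (a (l 16772128) (l 16752384)) (l 601806146041460828661327)))) (a (b (a (c (l 16752112) (l 16758032)) (c (l 16753840) (l 16759208))) (a (c (l 16764176) (l 16769272)) (c (l 16769496) (l 16773944)))) (l 6)))), by decide +kernel⟩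

def k38_pm_123_a : ∃ t, chk3 f_pm_123_a t 31 126 1 = true :=
  ⟨(a (a (c (a (l 143775679449252047) (b (l 143868107162140879) (l 143996956173451471))) (a (l 143806122144399567) (l 143716511963480271))) (b (a (c (l 143926106412630223) (l 143835602838290639)) (c (l 143953937808080975) (l 143865633256144975))) (c (l 143817941911765071) (l 143793409073659983)))) (a (c (a (b (l 143961977991266383) (l 143952288499925071)) (b (l 602537386626291715384911) (l 143964039535657039))) (a (l 143912706095923279) (b (l 143855325335322703) (l 143922120664760399)))) (a (a (c (b (l 16775048) (l 143968918622240847)) (l 143907827016384591)) (b (c (l 16765736) (l 16769432)) (c (l 143969193502326863) (l 143969743264612431)))) (l 6)))), by decide +kernel⟩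

def k39_pm_123_a : ∃ t, chk3 f_pm_123_a t 62 254 1 = true :=
  ⟨(a (c (a (l 143685588202160335) (l 143765921263648975)) (c (l 143742075582054607) (l 143752727104717007))) (a (c (b (l 144031796956414031) (l 143828524719161423)) (b (l 143899992969052239) (l 143865633246347343))) (c (l 143891746650046543) (l 143934284016566351)))), by decide +kernel⟩

def k40_pm_123_a : ∃ t, chk3 f_pm_123_a t 124 255 1 = true :=
  ⟨(c (c (b (a (l 143821309161439439) (l 143903497670312015)) (a (a (c (l 143760629855502543) (l 143758499552100559)) (c (l 143815468005523663) (l 143814849530839247))) (b (l 143885149567385679) (a (c (l 143851477017919695) (l 143851889335501007)) (c (l 143892296394391631) (l 143893945662718031)))))) (b (a (l 143821309163143375) (l 143910369620754639)) (a (b (l 143798081976533199) (a (c (l 143759805221404879) (l 143757331320586447)) (c (l 143806809351585999) (l 143805847279468751)))) (a (c (l 143859311040790735) (l 143860135675379919)) (c (l 143902398160339023) (l 143904459745706063)))))) (b (a (c (l 143821721481822415)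 (l 143822408678539471)) (c (l 143917585168711887) (l 143925144314183887))) (b (a (c (l 143796157832495311) (c (l 143794783443992783) (l 143793821372039375))) (c (a (l 143869550246379727) (l 143915798462365903)) (a (l 143872230308085967) (l 143921158584090831)))) (a (c (c (a (l 143754857419784399) (l 143804816487907535)) (a (l 143752383518998735) (l 143803785696362703))) (c (b (l 143781039546450127) (a (l 143745236693074127) (l 143798150699172047))) (a (a (l 143733485661372623) (l 143760904737243343)) (a (l 143787980215681231) (l 143814712096702671))))) (a (c (c (l 143852920129945807) (l 143853195008655567)) (c (l 143853469887414479) (a (l 143840825502351567) (l 143866320432611535)))) (c (c (l 143898549870477391) (l 143900061699965135)) (c (l 143901436090515663) (a (l 143890853290066127) (l 143914492794175695))))))))), by decide +kernel⟩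

def k41_pm_123_a : ∃ t, chk3 f_pm_123_a t 125 255 1 = true :=
  ⟨(b (a (c (c (l 143978333194371151) (l 143990908862201935)) (c (l 143823645659578447) (l 143836977220501583))) (c (a (l 144029529215025231) (l 144052412805496911)) (c (l 144059971950788687) (l 144072685057605711)))) (a (a (c (c (c (l 143936139428315215) (l 143939369244885071)) (c (l 143942530342010959) (l 143945760158629967))) (b (c (l 143958816862486607) (l 143966582166241359)) (c (c (l 143940949795160143) (l 143943423697453135)) (c (l 143945897600467023) (a (l 143937238944972879) (l 143959023022948431)))))) (c (b (c (l 143978882950922319) (l 143988503680565327)) (c (c (l 143966032406495311) (l 143969537100939343)) (c (l 143972973075939407) (l 143976340331479119)))) (b (c (l 143998124410323023) (l 144007813859704911)) (c (c (l 143979707587067983) (b (l 143987404170461263) (l 143978608075915343))) (a (c (l 143976752650371151) (l 143979845028102223)) (c (l 143995513070911567) (l 143998811607105615))))))) (c (c (b (l 144021214156849231) (a (l 143989534471192655)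 (l 144024581412339791))) (a (c (l 144008844649447503) (l 144012624221896783)) (b (l 144041142810001487) (l 144029529216450639)))) (a (c (c (l 144016335074902095) (l 144020045922566223)) (b (l 144035026777538639) (c (l 144014617088983119) (l 144017434588725327)))) (c (c (l 144039905860059215) (l 144042792079179855)) (c (l 144000667030339663) (l 144003415815929935))))))), by decide +kernel⟩

def k42_pm_123_a : ∃ t, chk3 f_pm_123_a t 63 127 1 = true :=
  ⟨(a (c (b (a (l 143925487921053775) (l 144039081222996047)) (b (a (b (l 144086291514835023) (l 143988160100696143)) (b (l 144025612224675919) (l 144064988473114703))) (a (a (b (l 144059697072291919) (c (l 144048701953753167) (l 144052481526448207))) (b (l 144079557005590607) (c (l 144070279874281551) (l 144072959935070287)))) (a (b (l 144096599440097359) (c (l 144088971576524879) (l 144090758283853903))) (b (l 144110755656302671) (c (l 144104570902052943) (l 144083061706539087))))))) (a (b (l 143960053826355279) (a (b (l 144003072210026575) (c (a (l 144057291891490895) (l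 144067187498270799)) (c (l 144020526973927503) (l 144022588548464719)))) (b (l 144018190519877711) (a (c (l 144076533349171279) (l 144057429330919503)) (c (l 144085260724731983) (l 144065538231042127)))))) (b (l 143976683944853583) (b (b (l 144041417687318607) (l 144076052312408143)) (a (a (c (l 144093369624952911) (l 144073166094778447)) (c (l 144100791330357327) (l 144080106763698255))) (a (c (l 144084985852559439) (l 144086428957278287)) (c (l 144090964448837711) (l 144092063956041807)))))))) (a (a (b (c (l 143959435353997391) (l 143982799981609039)) (b (c (l 144037844296384591) (l 144048427088150607)) (a (c (c (l 144115840899612751) (l 144117490167808079)) (c (l 144096187130806351) (l 144096943040512079))) (c (c (l 144120719984361551) (l 144099554386165839)) (c (l 144100516459528271) (l 144101066210689103)))))) (c (b (l 144033858557755471) (b (l 144088353104199759) (a (c (l 144101959569014863) (l 144103127800676431)) (c (l 144115840905019471) (l 144105601703460943))))) (b (l 144026917892538447) (b (l 144052481539883087)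 (b (l 144109106392088655) (a (c (l 144122919009910863) (l 144099760546660431)) (c (l 144103059082739791) (l 144113641882484815)))))))) (l 6))), by decide +kernel⟩

theorem s43_pm_123_a : ∃ t, chk3 f_pm_123_a t 62 255 1 = true := ex3_a k40_pm_123_a k41_pm_123_a

theorem s44_pm_123_a : ∃ t, chk3 f_pm_123_a t 62 127 1 = true := ex3_b k39_pm_123_a s43_pm_123_a

theorem s45_pm_123_a : ∃ t, chk3 f_pm_123_a t 31 127 1 = true := ex3_a s44_pm_123_a k42_pm_123_a

theorem s46_pm_123_a : ∃ t, chk3 f_pm_123_a t 31 63 1 = true := ex3_b k38_pm_123_a s45_pm_123_a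

theorem s47_pm_123_a : ∃ t, chk3 f_pm_123_a t 31 31 1 = true := ex3_b k37_pm_123_a s46_pm_123_a

theorem s48_pm_123_a : ∃ t, chk3 f_pm_123_a t 31 15 1 = true := ex3_b k36_pm_123_a s47_pm_123_a

theorem s49_pm_123_a : ∃ t, chk3 f_pm_123_a t 123 255 1 = true := ex3_c k34_pm_123_a k35_pm_123_a

theorem s50_pm_123_a : ∃ t, chk3 f_pm_123_a t 123 127 1 = true := ex3_b k33_pm_123_a s49_pm_123_a

theorem s51_pm_123_a : ∃ t, chk3 f_pm_123_a t 123 63 1 = true := ex3_b k32_pm_123_a s50_pm_123_a

theorem s52_pm_123_a : ∃ t, chk3 f_pm_123_a t 123 31 1 = true := ex3_b k31_pm_123_a s51_pm_123_a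

theorem s53_pm_123_a : ∃ t, chk3 f_pm_123_a t 490 127 1 = true := ex3_c k28_pm_123_a k29_pm_123_a

theorem s54_pm_123_a : ∃ t, chk3 f_pm_123_a t 245 127 1 = true := ex3_a s53_pm_123_a k30_pm_123_a

theorem s55_pm_123_a : ∃ t, chk3 f_pm_123_a t 245 63 1 = true := ex3_b k27_pm_123_a s54_pm_123_a

theorem s56_pm_123_a : ∃ t, chk3 f_pm_123_a t 1959 8191 1 = true := ex3_a k25_pm_123_a k26_pm_123_a

theorem s57_pm_123_a : ∃ t, chk3 f_pm_123_a t 979 8191 1 = true := ex3_a k24_pm_123_a s56_pm_123_a

theorem s58_pm_123_a : ∃ t, chk3 f_pm_123_a t 979 4095 1 = true := ex3_b k23_pm_123_a s57_pm_123_a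

theorem s59_pm_123_a : ∃ t, chk3 f_pm_123_a t 979 2047 1 = true := ex3_b k22_pm_123_a s58_pm_123_a

theorem s60_pm_123_a : ∃ t, chk3 f_pm_123_a t 489 2047 1 = true := ex3_a k21_pm_123_a s59_pm_123_a

theorem s61_pm_123_a : ∃ t, chk3 f_pm_123_a t 489 1023 1 = true := ex3_b k20_pm_123_a s60_pm_123_a

theorem s62_pm_123_a : ∃ t, chk3 f_pm_123_a t 489 511 1 = true := ex3_b k19_pm_123_a s61_pm_123_a

theorem s63_pm_123_a : ∃ t, chk3 f_pm_123_a t 244 511 1 = true := ex3_a k18_pm_123_a s62_pm_123_a

theorem s64_pm_123_a : ∃ t, chk3 f_pm_123_a t 244 255 1 = true := ex3_b k17_pm_123_a s63_pm_123_a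

theorem s65_pm_123_a : ∃ t, chk3 f_pm_123_a t 244 127 1 = true := ex3_b k16_pm_123_a s64_pm_123_a

theorem s66_pm_123_a : ∃ t, chk3 f_pm_123_a t 244 63 1 = true := ex3_b k15_pm_123_a s65_pm_123_a

theorem s67_pm_123_a : ∃ t, chk3 f_pm_123_a t 122 63 1 = true := ex3_a s66_pm_123_a s55_pm_123_a

theorem s68_pm_123_a : ∃ t, chk3 f_pm_123_a t 122 31 1 = true := ex3_b k14_pm_123_a s67_pm_123_a

theorem s69_pm_123_a : ∃ t, chk3 f_pm_123_a t 61 31 1 = true := ex3_a s68_pm_123_a s52_pm_123_a

theorem s70_pm_123_a : ∃ t, chk3 f_pm_123_a t 61 15 1 = true := ex3_b k13_pm_123_a s69_pm_123_a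

theorem s71_pm_123_a : ∃ t, chk3 f_pm_123_a t 30 15 1 = true := ex3_a k12_pm_123_a s70_pm_123_a

theorem s72_pm_123_a : ∃ t, chk3 f_pm_123_a t 15 15 1 = true := ex3_a s71_pm_123_a s48_pm_123_a

theorem s73_pm_123_a : ∃ t, chk3 f_pm_123_a t 15 7 1 = true := ex3_b k11_pm_123_a s72_pm_123_a

theorem s74_pm_123_a : ∃ t, chk3 f_pm_123_a t 14 7 1 = true := ex3_c k9_pm_123_a k10_pm_123_a

theorem s75_pm_123_a : ∃ t, chk3 f_pm_123_a t 7 7 1 = true := ex3_a s74_pm_123_a s73_pm_123_a

theorem s76_pm_123_a : ∃ t, chk3 f_pm_123_a t 7 3 1 = true := ex3_b k8_pm_123_a s75_pm_123_a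

theorem s77_pm_123_a : ∃ t, chk3 f_pm_123_a t 6 3 1 = true := ex3_b k6_pm_123_a k7_pm_123_a

theorem s78_pm_123_a : ∃ t, chk3 f_pm_123_a t 3 3 1 = true := ex3_a s77_pm_123_a s76_pm_123_a

theorem s79_pm_123_a : ∃ t, chk3 f_pm_123_a t 6 2 1 = true := ex3_a k3_pm_123_a k4_pm_123_a

theorem s80_pm_123_a : ∃ t, chk3 f_pm_123_a t 3 2 1 = true := ex3_a s79_pm_123_a k5_pm_123_a

theorem s81_pm_123_a : ∃ t, chk3 f_pm_123_a t 3 1 1 = true := ex3_b s80_pm_123_a s78_pm_123_a

theorem s82_pm_123_a : ∃ t, chk3 f_pm_123_a t 5 1 1 = true := ex3_b k1_pm_123_a k2_pm_123_a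

theorem s83_pm_123_a : ∃ t, chk3 f_pm_123_a t 2 1 1 = true := ex3_a k0_pm_123_a s82_pm_123_a

theorem s84_pm_123_a : ∃ t, chk3 f_pm_123_a t 1 1 1 = true := ex3_a s83_pm_123_a s81_pm_123_a

theorem c_pm_123_a : CertB 536870912 536870912 0 536870912 991146299 28908434 3 eng mog cd0q1 cd1q2a pd3 true true false .npn 1 2 3
    ndB0q1 ndB1q2a pcB3 cut_pm_123_a xt_pm_123_a :=
  certB2 (fam := true) (s1 := true) (s2 := false) (a := 1) (b := 2) (c := 3) (cn := .npn) (n1 := ndB0q1) (n2 := ndB1q2a) (pc := pcB3) (cut := cut_pm_123_a) (xt := xt_pm_123_a) (P1 := 536870912) (W1 := 536870912) (P2 := 0) (W2 := 536870912) (P3 := 991146299) (W3 := 28908434) (N0 := 3) (En := eng) (mo := mog) (C1 := cd0q1) (C2 := cd1q2a) (C3 := pd3)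
    rfl (fun _ => rfl) s84_pm_123_a

noncomputable def cut_pm_123_b : Cut := Cut.of [[⟨0, 1, 0, 37748736⟩, ⟨1, 1, 0, 37748736⟩, ⟨2, 2, 0, 5242880⟩], [⟨0, 0, 1, 46137344⟩, ⟨1, 1, 0, 2097152⟩, ⟨2, 1, 1, 46137344⟩, ⟨0, 0, 0, 1027248803⟩, ⟨0, 1, 0, 87939455⟩, ⟨2, 1, 0, 1027248803⟩, ⟨2, 2, 0, 87939455⟩]]

noncomputable def f_pm_123_b : ℕ → ℕ → ℕ → ℕ → Bool := onCell 1610612736 536870912 1239849684 370763052 991146299 28908434
    (rowB 3 eng mog cd0q1 cd1q2b pd3 2 true true false .npn 1 2 3 (qsf 536870912 536870912 1239849684 370763052 3) ndB0q1 ndB1q2b pcB3 cut_pm_123_b Ext.none)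

def k0_pm_123_b : ∃ t, chk3 f_pm_123_b t 1 1 1 = true :=
  ⟨(a (b (a (l 1) (a (b (b (a (b (a (l 1) (b (a (l 1) (l 16230256)) (l 1))) (l 1)) (b (a (b (l 16263984) (l 16282400)) (b (l 16312416) (l 16331128))) (a (l 1) (l 16357296)))) (l 1)) (l 1)) (b (a (b (b (a (b (l 16361976) (l 16380944)) (b (l 16391216) (l 16431368))) (a (l 16407432) (l 16458088))) (b (l 16464688) (l 1))) (b (b (a (b (l 16441624) (l 16481936)) (b (l 16491776) (l 16532192))) (a (l 16508800) (l 16559088))) (b (l 16545016) (l 16592528)))) (a (l 1) (b (l 16578512) (l 1)))))) (l 1)) (a (b (a (b (b (a (b (a (b (l 16562240) (l 16581720)) (b (l 16615936) (l 16630104))) (a (l 16608480) (l 16656448))) (a (b (a (l 16655840) (l 16678896)) (l 16702208)) (b (a (l 16680488) (l 16702448)) (l 16742304)))) (a (a (l 16652256) (l 16696632)) (a (l 16710984) (l 16693728)))) (a (b (a (l 16666752) (l 16647296)) (l 1)) (b (a (l 16631336) (l 16629840)) (a (l 16560080) (l 4))))) (b (a (b (a (b (a (l 16702520) (b (l 16735200) (l 16752480))) (a (l 16733496) (l 16728024))) (b (a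 (b (c (l 16741472) (l 16743152)) (l 16747272)) (a (b (l 16739368) (l 4)) (l 4))) (l 4))) (a (l 66806825527) (l 4))) (l 4)) (l 4))) (a (l 1) (l 4))) (l 4))), by decide +kernel⟩

theorem c_pm_123_b : CertB 536870912 536870912 1239849684 370763052 991146299 28908434 3 eng mog cd0q1 cd1q2b pd3 true true false .npn 1 2 3
    ndB0q1 ndB1q2b pcB3 cut_pm_123_b Ext.none :=
  certB2 (fam := true) (s1 := true) (s2 := false) (a := 1) (b := 2) (c := 3) (cn := .npn) (n1 := ndB0q1) (n2 := ndB1q2b) (pc := pcB3) (cut := cut_pm_123_b) (xt := Ext.none) (P1 := 536870912) (W1 := 536870912) (P2 := 1239849684) (W2 := 370763052) (P3 := 991146299) (W3 := 28908434) (N0 := 3) (En := eng) (mo := mog) (C1 := cd0q1) (C2 := cd1q2b) (C3 := pd3)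
    rfl (fun _ => rfl) k0_pm_123_b

noncomputable def f_pm_133 : ℕ → ℕ → ℕ → ℕ → Bool := onCell 536870912 536870912 1610612736 536870912 991146299 28908434
    (rowB 3 eng mog cd0q1 cd1q3 pd3 0 true true false .dn 1 3 3 (qsf 536870912 536870912 1610612736 536870912 3) ndB0q1 ndB1q3 pcB3 Cut.none Ext.none)

def k0_pm_133 : ∃ t, chk3 f_pm_133 t 1 1 1 = true :=
  ⟨(l 4), by decide +kernel⟩

theorem c_pm_133 : CertB 536870912 536870912 1610612736 536870912 991146299 28908434 3 eng mog cd0q1 cd1q3 pd3 true true false .dn 1 3 3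
    ndB0q1 ndB1q3 pcB3 Cut.none Ext.none :=
  certB0 (fam := true) (s1 := true) (s2 := false) (a := 1) (b := 3) (c := 3) (cn := .dn) (n1 := ndB0q1) (n2 := ndB1q3) (pc := pcB3) (cut := Cut.none) (xt := Ext.none) (P1 := 536870912) (W1 := 536870912) (P2 := 1610612736) (W2 := 536870912) (P3 := 991146299) (W3 := 28908434) (N0 := 3) (En := eng) (mo := mog) (C1 := cd0q1) (C2 := cd1q3) (C3 := pd3)
    rfl k0_pm_133

noncomputable def cut_pm_202 : Cut := Cut.of [[⟨0, 1, 0, 53687091⟩, ⟨1, 0, 0, 53687091⟩, ⟨2, 1, 0, 53687091⟩]]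

noncomputable def f_pm_202 : ℕ → ℕ → ℕ → ℕ → Bool := onCell 0 536870912 1073741824 536870912 991146299 28908434
    (rowB 3 eng mog cd0q2 cd1q0 pd2 1 true true false .pp 2 0 2 (qsf 0 536870912 0 536870912 2) ndB0q2 ndB1q0 pcB2 cut_pm_202 Ext.none)

def k0_pm_202 : ∃ t, chk3 f_pm_202 t 2 2 1 = true :=
  ⟨(a (b (l 1) (b (b (b (l 1) (a (c (l 16149520) (l 16114816)) (c (l 16179192) (l 16141616)))) (b (a (l 16213712) (l 16189664)) (a (l 16314968) (l 16322744)))) (b (a (c (l 16432432) (l 16342672)) (b (l 16477344) (l 16384408))) (c (a (l 16259640) (l 16286544)) (a (l 16165504) (l 16209112)))))) (b (b (l 1) (b (l 1) (a (l 1) (a (l 1) (b (l 1) (b (l 1) (l 16206848))))))) (b (b (b (a (c (l 16102976) (l 16089112)) (c (a (l 16215456) (l 16274344)) (a (l 16165224) (l 16228680)))) (a (c (l 16238200) (l 16200816)) (c (l 16286688) (l 16275384)))) (a (c (l 16251848) (l 16221360)) (c (l 16285312) (l 16256008)))) (b (a (b (l 16484512) (l 16398176)) (c (l 16424144) (l 16337472))) (a (c (l 16303272) (l 16239280)) (c (l 16303856) (l 16248048))))))),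 by decide +kernel⟩

def k1_pm_202 : ∃ t, chk3 f_pm_202 t 2 6 1 = true :=
  ⟨(a (b (b (a (c (l 16095512) (l 15956552)) (c (l 16132648) (l 16014864))) (a (c (l 15941296) (l 15759600)) (c (l 15987856) (l 15831392)))) (b (a (c (b (l 15832768) (l 15770160)) (b (l 15620688) (l 15540696))) (c (l 15853288) (l 15660296))) (a (b (a (c (l 15706016) (a (l 15457616) (l 15441352))) (l 15595728)) (a (a (l 15580616) (c (l 15651488) (l 15386960))) (l 15526184))) (c (l 15729968) (l 15503064))))) (b (b (a (c (l 16159184) (l 16059296)) (c (l 16169264) (l 16081976))) (a (c (l 16023520) (l 15889032)) (c (l 16042520) (l 15924752)))) (c (a (b (l 15897344) (l 15781664)) (b (l 15924680) (l 15816704))) (a (b (l 15730016) (l 15583656)) (b (l 15777816) (l 15642496)))))), by decide +kernel⟩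

def k2_pm_202 : ∃ t, chk3 f_pm_202 t 2 7 1 = true :=
  ⟨(b (b (a (a (a (c (l 15685440) (l 15431320)) (c (b (l 15607344) (a (l 15587032) (l 15558080))) (b (l 15356192) (a (l 15308120) (l 15273664))))) (c (l 15618872) (l 15361056))) (a (c (l 15677416) (l 15451248)) (c (l 15719504) (l 15520032)))) (a (b (a (a (c (l 15718496) (l 15475728)) (a (l 15473184) (c (l 15537656) (l 15247960)))) (c (l 15547488) (l 15269736))) (a (c (l 15673664) (l 15379328)) (a (a (c (l 15475440) (l 15198504)) (l 15343720)) (l 15377128)))) (a (c (l 15585472) (l 15334008)) (c (l 15633912) (l 15411552))))) (a (a (b (c (b (l 15710944) (l 15755416)) (b (l 15428664) (l 15508272))) (c (b (l 15806544) (l 15863792)) (b (l 15575536) (l 15671704)))) (b (a (c (b (a (l 15510712) (l 15462840)) (l 15507472)) (b (a (l 15217912) (l 15159112)) (a (l 15270416) (l 15166040)))) (c (l 15463360) (b (l 15180672) (l 15141920)))) (a (c (l 15579808) (l 15122560)) (b (a (c (l 15412800) (l 15126144)) (l 15263224)) (a (l 15393696) (c (l 15387528) (l 15097312))))))) (c (a (b (l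 15506664) (l 15441768)) (b (l 15560712) (l 15500664))) (a (b (l 15233064) (l 15149464)) (b (l 15318136) (l 15240768)))))), by decide +kernel⟩

def k3_pm_202 : ∃ t, chk3 f_pm_202 t 3 8 1 = true :=
  ⟨(a (l 1) (a (b (l 1) (a (b (l 1) (a (l 1) (b (l 1) (a (b (l 1) (a (c (l 16494000) (l 16435344)) (c (l 16509200) (l 16451680)))) (c (c (l 16530552) (l 16503160)) (l 16439536)))))) (b (a (l 1) (l 6)) (a (a (b (b (l 1) (c (l 16515296) (l 16459440))) (c (l 16496136) (l 16484064))) (b (c (b (l 16523840) (l 16538152)) (b (l 16469704) (l 16484976))) (c (l 16539024) (l 16508456)))) (b (c (c (l 16516280) (l 16513256)) (b (l 16447944) (l 16503944))) (c (l 16552432) (l 16504696))))))) (b (l 6) (b (l 6) (a (a (b (c (b (l 16570824) (l 16582744)) (l 16491152)) (c (l 16580168) (l 16558672))) (b (c (l 16611216) (l 16594664)) (l 16572720))) (a (b (l 16606896) (l 16595016)) (b (c (l 16614800) (l 16640048)) (a (l 16606400) (l 16585616))))))))), by decide +kernel⟩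

def k4_pm_202 : ∃ t, chk3 f_pm_202 t 6 9 1 = true :=
  ⟨(b (a (l 1) (b (b (l 1) (a (l 1) (c (a (l 16362832) (c (l 16440696) (l 16411664))) (a (l 16298736) (l 16366464))))) (b (a (c (l 16366952) (l 16238152)) (c (a (l 16391112) (l 16453008)) (a (l 16331304) (l 16397160)))) (a (c (l 16271968) (l 16273888)) (c (l 16387064) (l 16375472)))))) (a (b (c (a (l 16213928) (b (l 16264888) (l 16299176))) (a (l 16125336) (b (l 16201624) (l 16241688)))) (c (a (l 16267480) (l 16330032)) (a (l 16212944) (l 16302400)))) (b (a (c (b (l 16366016) (l 16397352)) (l 16223440)) (c (l 16366264) (l 16340360))) (a (c (l 16402744) (l 16380808)) (c (l 16485704) (l 16427152)))))), by decide +kernel⟩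

def k5_pm_202 : ∃ t, chk3 f_pm_202 t 7 9 1 = true :=
  ⟨(a (b (a (b (c (a (b (c (l 16440112) (l 16453368)) (l 16429688)) (b (a (b (l 16514296) (l 16526504)) (b (l 16540984) (l 16556456))) (b (l 16491256) (l 16524960)))) (b (a (b (l 122976258583) (l 16415712)) (a (b (l 16457856) (l 16471624)) (l 16424240))) (a (l 16416048) (a (l 16491824) (l 16505808))))) (c (b (a (l 16517680) (l 16522184)) (l 16471224)) (b (a (l 16465784) (l 16495328)) (l 16446008)))) (b (a (c (b (l 16537384) (l 16568024)) (b (l 16508208) (l 16541784))) (c (l 16552472) (l 16508048))) (a (a (c (l 16559744) (l 16516544)) (l 16539936)) (l 16521760)))) (a (b (c (l 16508208) (l 16446824)) (a (l 16511248) (l 16451968))) (b (a (b (l 16509128) (l 16495552)) (l 16483800)) (b (a (l 16483208) (l 16487192)) (a (l 16492920) (l 16449832)))))) (b (a (b (a (c (l 16595624) (l 16557576)) (a (l 16569056) (l 16550528))) (a (b (l 16578352) (l 16539208)) (l 16463456))) (b (a (b (l 16581600) (l 16566888)) (b (l 16541992) (l 16528472))) (a (l 16448504) (c (l 16504752) (l 16528424)))))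 (a (b (a (l 16459056) (l 16448680)) (c (l 16332688) (l 16396632))) (b (a (l 16434872) (l 16378056)) (c (l 16372160) (l 16389344)))))), by decide +kernel⟩

def k6_pm_202 : ∃ t, chk3 f_pm_202 t 3 5 1 = true :=
  ⟨(a (b (b (a (a (c (l 16212544) (l 16178336)) (c (l 16308432) (l 16278200))) (b (c (l 16389424) (l 16359536)) (a (l 16477088) (l 16476808)))) (a (c (l 16357568) (l 16341648)) (b (a (l 16526216) (l 16428992)) (a (l 16454952) (l 16402776))))) (b (a (b (l 16352024) (l 16299120)) (c (l 16210896) (l 16169672))) (a (c (l 16278312) (l 16228672)) (b (l 16121488) (l 16056392))))) (b (b (a (a (b (b (l 16487120) (l 16475008)) (l 16362568)) (b (a (l 16382096) (b (l 16435440) (l 16401720))) (b (l 16310704) (l 16362112)))) (b (a (a (l 16386216) (l 16354352)) (b (l 16321064) (l 16280976))) (b (a (a (l 16328776) (l 16295936)) (l 16240248)) (a (b (a (l 16301160) (l 16266632)) (a (b (l 16287608) (a (l 16268224) (l 16249608))) (b (l 16251456) (l 16241304)))) (b (l 16208864) (b (l 16191744) (c (l 16158160) (l 16181352)))))))) (c (a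 (a (l 16347840) (b (l 16313600) (l 16255768))) (a (a (a (l 16223520) (l 16200120)) (l 16212424)) (a (l 16131592) (l 16091720)))) (a (a (l 16348744) (l 16137448)) (a (a (a (l 16222000) (l 16198088)) (l 16167600)) (l 16106920))))) (a (b (c (a (l 16249824) (l 16170872)) (a (l 16231824) (l 16154000))) (c (a (l 16135552) (l 16061904)) (a (l 16098272) (l 16028024)))) (a (b (c (b (a (l 16126368) (l 16077680)) (l 16047840)) (b (l 16027096) (l 16027648))) (c (b (l 15994656) (l 15942936)) (b (l 15967120) (l 15907800)))) (b (c (l 15991072) (l 15973704)) (c (a (l 15874888) (l 15860256)) (a (l 15865376) (l 15830264)))))))), by decide +kernel⟩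

def k7_pm_202 : ∃ t, chk3 f_pm_202 t 3 3 1 = true :=
  ⟨(a (b (b (a (b (c (l 16153056) (l 16076360)) (c (l 16035224) (l 15932184))) (b (c (l 16099144) (l 16033528)) (c (l 15990536) (l 15902728)))) (a (c (b (l 15925848) (l 15825888)) (b (l 15797520) (l 15673632))) (c (b (l 15890112) (l 15798784)) (b (l 15780824) (l 15669008))))) (b (a (c (a (l 15694056) (l 15696312)) (b (l 15561664) (l 15462696))) (c (a (l 15689184) (l 15671192)) (b (l 15568360) (l 15479872)))) (a (c (a (l 15557232) (l 15545432)) (b (l 15377712) (l 15307640))) (c (b (l 15587416) (l 15540184)) (a (l 15368560) (l 15353488)))))) (b (a (b (b (c (a (l 16027240) (l 15958872)) (a (l 15970616) (l 15907824))) (c (a (l 15925976) (l 15862848)) (a (l 15850240) (l 15794704)))) (c (b (a (l 15832752) (l 15774760)) (l 15722816)) (b (l 15767424) (l 15616160)))) (b (b (a (c (c (l 15881904) (l 15859040)) (c (l 15835832) (l 15812280))) (a (c (b (l 15818912) (l 15772440)) (l 15731704)) (l 15818968))) (a (c (l 15759032) (l 15718512)) (c (a (l 15707280) (b (l 15683392) (l 15640280)))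 (c (l 15623736) (l 15616456))))) (a (b (c (b (l 15717120) (l 15677872)) (l 15620936)) (c (l 15623272) (l 15532376))) (c (b (b (l 15667320) (l 15587664)) (a (l 15558368) (l 15513464))) (b (b (l 15560216) (l 15516008)) (b (l 15473664) (l 15435240))))))) (a (b (c (b (l 15629712) (a (l 15609712) (l 15566240))) (b (l 15527808) (l 15429888))) (c (b (l 15642984) (l 15498928)) (b (l 15616832) (l 15397320)))) (b (c (a (b (l 15558568) (l 15503864)) (b (a (l 15497488) (l 15455160)) (l 15426256))) (a (b (l 15453744) (l 15385872)) (b (l 15382320) (l 15320592)))) (c (a (b (l 15459736) (l 15426712)) (b (l 15386552) (l 15357520))) (a (b (l 15329504) (l 15285328)) (b (l 15269808) (l 15230576)))))))), by decide +kernel⟩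

theorem s8_pm_202 : ∃ t, chk3 f_pm_202 t 3 9 1 = true := ex3_a k4_pm_202 k5_pm_202

theorem s9_pm_202 : ∃ t, chk3 f_pm_202 t 3 4 1 = true := ex3_b k3_pm_202 s8_pm_202

theorem s10_pm_202 : ∃ t, chk3 f_pm_202 t 3 2 1 = true := ex3_b s9_pm_202 k6_pm_202

theorem s11_pm_202 : ∃ t, chk3 f_pm_202 t 3 1 1 = true := ex3_b s10_pm_202 k7_pm_202

theorem s12_pm_202 : ∃ t, chk3 f_pm_202 t 2 3 1 = true := ex3_b k1_pm_202 k2_pm_202

theorem s13_pm_202 : ∃ t, chk3 f_pm_202 t 2 1 1 = true := ex3_b k0_pm_202 s12_pm_202

theorem s14_pm_202 : ∃ t, chk3 f_pm_202 t 1 1 1 = true := ex3_a s13_pm_202 s11_pm_202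

theorem c_pm_202 : CertB 0 536870912 0 536870912 991146299 28908434 3 eng mog cd0q2 cd1q0 pd2 true true false .pp 2 0 2
    ndB0q2 ndB1q0 pcB2 cut_pm_202 Ext.none :=
  certB1 (fam := true) (s1 := true) (s2 := false) (a := 2) (b := 0) (c := 2) (cn := .pp) (n1 := ndB0q2) (n2 := ndB1q0) (pc := pcB2) (cut := cut_pm_202) (xt := Ext.none) (P1 := 0) (W1 := 536870912) (P2 := 0) (W2 := 536870912) (P3 := 991146299) (W3 := 28908434) (N0 := 3) (En := eng) (mo := mog) (C1 := cd0q2) (C2 := cd1q0) (C3 := pd2)
    rfl (fun _ => rfl) s14_pm_202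

noncomputable def f_pm_203 : ℕ → ℕ → ℕ → ℕ → Bool := onCell 0 536870912 1610612736 536870912 991146299 28908434
    (rowB 3 eng mog cd0q2 cd1q0 pd3 1 true true false .up 2 0 3 (qsf 0 536870912 0 536870912 3) ndB0q2 ndB1q0 pcB3 Cut.none Ext.none)

def k0_pm_203 : ∃ t, chk3 f_pm_203 t 1 1 1 = true :=
  ⟨(b (a (b (b (a (b (a (l 16290568) (l 16114712)) (a (l 16352312) (l 16168776))) (a (b (l 15986632) (a (l 16024184) (l 15973792))) (b (l 15989392) (l 15957224)))) (a (b (a (l 16428008) (l 16239808)) (a (c (l 16503608) (l 16510328)) (l 16324360))) (a (b (a (l 16091096) (l 15993800)) (l 16122368)) (b (l 16072232) (a (l 15957448) (l 15939472)))))) (b (b (a (a (b (l 16558496) (l 16581376)) (l 16397056)) (a (l 16218768) (a (l 16057672) (l 16018736)))) (a (a (l 2) (l 2)) (l 2))) (l 2))) (a (b (b (a (c (l 15940272) (l 15939848)) (b (l 15892992) (l 15858904))) (a (b (l 15908280) (l 15908920)) (c (l 15842408) (l 15835632)))) (l 2)) (b (a (b (c (l 15744840) (l 15780768)) (c (l 15847808) (l 15729400))) (b (a (c (l 15613064) (l 15659040))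 (c (l 15651448) (l 15555568))) (l 2))) (l 2)))) (l 2)), by decide +kernel⟩

theorem c_pm_203 : CertB 0 536870912 0 536870912 991146299 28908434 3 eng mog cd0q2 cd1q0 pd3 true true false .up 2 0 3
    ndB0q2 ndB1q0 pcB3 Cut.none Ext.none :=
  certB1 (fam := true) (s1 := true) (s2 := false) (a := 2) (b := 0) (c := 3) (cn := .up) (n1 := ndB0q2) (n2 := ndB1q0) (pc := pcB3) (cut := Cut.none) (xt := Ext.none) (P1 := 0) (W1 := 536870912) (P2 := 0) (W2 := 536870912) (P3 := 991146299) (W3 := 28908434) (N0 := 3) (En := eng) (mo := mog) (C1 := cd0q2) (C2 := cd1q0) (C3 := pd3)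
    rfl (fun _ => rfl) k0_pm_203

noncomputable def f_pm_213 : ℕ → ℕ → ℕ → ℕ → Bool := onCell 0 536870912 1610612736 536870912 991146299 28908434
    (rowB 3 eng mog cd0q2 cd1q1 pd3 1 true true false .pnn 2 1 3 (qsf 0 536870912 536870912 536870912 3) ndB0q2 ndB1q1 pcB3 Cut.none Ext.none)

def k0_pm_213 : ∃ t, chk3 f_pm_213 t 1 2 1 = true :=
  ⟨(a (a (b (l 1) (b (b (a (c (l 16187160) (l 61973782247)) (l 16338504)) (a (b (l 16298856) (l 4)) (a (l 16239320) (l 16375872)))) (a (l 4) (b (c (l 16239224) (l 16192528)) (b (l 16357528) (l 4)))))) (b (a (l 1) (a (l 1) (b (l 1) (l 16266352)))) (b (a (b (l 16472976) (l 16468640)) (b (a (l 16343480) (l 16277496)) (a (l 16410472) (l 16319256)))) (b (a (l 16426848) (l 16429464)) (a (a (l 16300736) (l 16427704)) (l 16486104)))))) (a (b (b (l 1) (a (b (l 1) (l 16248928)) (b (l 16231136) (l 16205296)))) (b (a (b (l 16240216) (l 16121112)) (b (l 16184120) (l 16169600))) (a (b (a (l 16294512) (l 16234704)) (a (l 16359800) (l 16267240))) (b (l 16163952) (l 16172144))))) (b (a (b (c (l 16148440)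 (l 16235032)) (c (l 16096216) (l 16098616))) (b (a (b (l 16172336) (l 16118848)) (c (l 16054416) (l 16054840))) (a (b (l 16064240) (l 16010304)) (b (l 15977776) (l 15912600))))) (a (b (b (l 16082576) (l 16051824)) (b (l 16029504) (l 16018624))) (b (a (b (l 15959120) (l 15913144)) (b (l 15849448) (l 15791000))) (a (b (l 15875328) (l 15849296)) (b (l 15740576) (l 15702480)))))))), by decide +kernel⟩

def k1_pm_213 : ∃ t, chk3 f_pm_213 t 1 3 1 = true :=
  ⟨(b (a (a (l 4) (a (b (b (b (l 16398752) (l 16442752)) (l 4)) (l 4)) (b (b (l 16433728) (b (l 16506792) (l 16527152))) (b (b (l 16557760) (l 4)) (l 4))))) (a (b (a (b (l 16378808) (l 16445616)) (b (a (l 16235528) (l 16155392)) (a (l 16299488) (l 16198328)))) (b (a (b (l 16496600) (l 16529896)) (b (l 16303256) (l 16347848))) (a (b (l 16563360) (l 16598448)) (b (l 16393552) (l 16442392))))) (b (a (b (l 16022840) (l 16046616)) (a (b (l 15839680) (l 15852560)) (b (l 15682496) (l 15688840)))) (a (b (a (l 16157040) (l 16036560)) (a (l 16244360) (l 16120576))) (a (b (l 15896272)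 (l 15982600)) (b (l 15734000) (l 15838616))))))) (a (l 4) (a (a (l 4) (b (b (b (l 16491664) (l 16540144)) (b (a (l 4) (l 16550368)) (l 4))) (l 4))) (a (b (b (a (l 16365400) (l 16348176)) (b (a (l 16466320) (l 16369912)) (a (l 16525216) (l 16459552)))) (b (b (a (l 4) (l 16513736)) (l 4)) (l 4))) (b (b (a (l 16129968) (l 16040352)) (a (b (l 16289952) (l 16425928)) (b (l 16297048) (l 16553136)))) (a (b (b (l 16577712) (b (l 16579936) (l 16515664))) (l 4)) (b (b (l 16633760) (l 16455664)) (b (b (l 16525800) (l 4)) (l 4))))))))), by decide +kernel⟩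

theorem s2_pm_213 : ∃ t, chk3 f_pm_213 t 1 1 1 = true := ex3_b k0_pm_213 k1_pm_213

theorem c_pm_213 : CertB 0 536870912 536870912 536870912 991146299 28908434 3 eng mog cd0q2 cd1q1 pd3 true true false .pnn 2 1 3
    ndB0q2 ndB1q1 pcB3 Cut.none Ext.none :=
  certB1 (fam := true) (s1 := true) (s2 := false) (a := 2) (b := 1) (c := 3) (cn := .pnn) (n1 := ndB0q2) (n2 := ndB1q1) (pc := pcB3) (cut := Cut.none) (xt := Ext.none) (P1 := 0) (W1 := 536870912) (P2 := 536870912) (W2 := 536870912) (P3 := 991146299) (W3 := 28908434) (N0 := 3) (En := eng) (mo := mog) (C1 := cd0q2) (C2 := cd1q1) (C3 := pd3)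
    rfl (fun _ => rfl) s2_pm_213

noncomputable def f_mm_001 : ℕ → ℕ → ℕ → ℕ → Bool := onCell 0 536870912 0 536870912 991146299 28908434
    (rowB 3 eng mog cd0q0 cd1q0 pd1 0 true false false .up 0 0 1 (qsf 0 536870912 0 536870912 1) ndB0q0 ndB1q0 pcB1 Cut.none Ext.none)

def k0_mm_001 : ∃ t, chk3 f_mm_001 t 1 1 1 = true :=
  ⟨(l 4), by decide +kernel⟩

theorem c_mm_001 : CertB 0 536870912 0 536870912 991146299 28908434 3 eng mog cd0q0 cd1q0 pd1 true false false .up 0 0 1
    ndB0q0 ndB1q0 pcB1 Cut.none Ext.none :=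
  certB0 (fam := true) (s1 := false) (s2 := false) (a := 0) (b := 0) (c := 1) (cn := .up) (n1 := ndB0q0) (n2 := ndB1q0) (pc := pcB1) (cut := Cut.none) (xt := Ext.none) (P1 := 0) (W1 := 536870912) (P2 := 0) (W2 := 536870912) (P3 := 991146299) (W3 := 28908434) (N0 := 3) (En := eng) (mo := mog) (C1 := cd0q0) (C2 := cd1q0) (C3 := pd1)
    rfl k0_mm_001

noncomputable def f_mm_011 : ℕ → ℕ → ℕ → ℕ → Bool := onCell 0 536870912 536870912 536870912 991146299 28908434
    (rowB 3 eng mog cd0q0 cd1q1 pd1 0 true false false .pnn 0 1 1 (qsf 0 536870912 536870912 536870912 1) ndB0q0 ndB1q1 pcB1 Cut.none Ext.none)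

def k0_mm_011 : ∃ t, chk3 f_mm_011 t 1 1 1 = true :=
  ⟨(l 4), by decide +kernel⟩

theorem c_mm_011 : CertB 0 536870912 536870912 536870912 991146299 28908434 3 eng mog cd0q0 cd1q1 pd1 true false false .pnn 0 1 1
    ndB0q0 ndB1q1 pcB1 Cut.none Ext.none :=
  certB0 (fam := true) (s1 := false) (s2 := false) (a := 0) (b := 1) (c := 1) (cn := .pnn) (n1 := ndB0q0) (n2 := ndB1q1) (pc := pcB1) (cut := Cut.none) (xt := Ext.none) (P1 := 0) (W1 := 536870912) (P2 := 536870912) (W2 := 536870912) (P3 := 991146299) (W3 := 28908434) (N0 := 3) (En := eng) (mo := mog) (C1 := cd0q0) (C2 := cd1q1) (C3 := pd1)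
    rfl k0_mm_011

noncomputable def f_mm_012 : ℕ → ℕ → ℕ → ℕ → Bool := onCell 0 536870912 536870912 536870912 991146299 28908434
    (rowB 3 eng mog cd0q0 cd1q1 pd2 0 true false false .pnp 0 1 2 (qsf 0 536870912 536870912 536870912 2) ndB0q0 ndB1q1 pcB2 Cut.none Ext.none)

def k0_mm_012 : ∃ t, chk3 f_mm_012 t 1 1 1 = true :=
  ⟨(l 4), by decide +kernel⟩

theorem c_mm_012 : CertB 0 536870912 536870912 536870912 991146299 28908434 3 eng mog cd0q0 cd1q1 pd2 true false false .pnp 0 1 2
    ndB0q0 ndB1q1 pcB2 Cut.none Ext.none :=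
  certB0 (fam := true) (s1 := false) (s2 := false) (a := 0) (b := 1) (c := 2) (cn := .pnp) (n1 := ndB0q0) (n2 := ndB1q1) (pc := pcB2) (cut := Cut.none) (xt := Ext.none) (P1 := 0) (W1 := 536870912) (P2 := 536870912) (W2 := 536870912) (P3 := 991146299) (W3 := 28908434) (N0 := 3) (En := eng) (mo := mog) (C1 := cd0q0) (C2 := cd1q1) (C3 := pd2)
    rfl k0_mm_012

noncomputable def f_mm_022_a : ℕ → ℕ → ℕ → ℕ → Bool := onCell 0 536870912 0 536870912 991146299 28908434
    (rowB 3 eng mog cd0q0 cd1q2a pd2 0 true false false .pp 0 2 2 (qsf 0 536870912 0 536870912 2) ndB0q0 ndB1q2a pcB2 Cut.none Ext.none)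

def k0_mm_022_a : ∃ t, chk3 f_mm_022_a t 1 1 1 = true :=
  ⟨(l 5), by decide +kernel⟩

theorem c_mm_022_a : CertB 0 536870912 0 536870912 991146299 28908434 3 eng mog cd0q0 cd1q2a pd2 true false false .pp 0 2 2
    ndB0q0 ndB1q2a pcB2 Cut.none Ext.none :=
  certB0 (fam := true) (s1 := false) (s2 := false) (a := 0) (b := 2) (c := 2) (cn := .pp) (n1 := ndB0q0) (n2 := ndB1q2a) (pc := pcB2) (cut := Cut.none) (xt := Ext.none) (P1 := 0) (W1 := 536870912) (P2 := 0) (W2 := 536870912) (P3 := 991146299) (W3 := 28908434) (N0 := 3) (En := eng) (mo := mog) (C1 := cd0q0) (C2 := cd1q2a) (C3 := pd2)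
    rfl k0_mm_022_a

noncomputable def f_mm_022_b : ℕ → ℕ → ℕ → ℕ → Bool := onCell 0 536870912 1239849684 370763052 991146299 28908434
    (rowB 3 eng mog cd0q0 cd1q2b pd2 0 true false false .pp 0 2 2 (qsf 0 536870912 1239849684 370763052 2) ndB0q0 ndB1q2b pcB2 Cut.none Ext.none)

def k0_mm_022_b : ∃ t, chk3 f_mm_022_b t 1 1 1 = true :=
  ⟨(l 5), by decide +kernel⟩

theorem c_mm_022_b : CertB 0 536870912 1239849684 370763052 991146299 28908434 3 eng mog cd0q0 cd1q2b pd2 true false false .pp 0 2 2
    ndB0q0 ndB1q2b pcB2 Cut.none Ext.none :=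
  certB0 (fam := true) (s1 := false) (s2 := false) (a := 0) (b := 2) (c := 2) (cn := .pp) (n1 := ndB0q0) (n2 := ndB1q2b) (pc := pcB2) (cut := Cut.none) (xt := Ext.none) (P1 := 0) (W1 := 536870912) (P2 := 1239849684) (W2 := 370763052) (P3 := 991146299) (W3 := 28908434) (N0 := 3) (En := eng) (mo := mog) (C1 := cd0q0) (C2 := cd1q2b) (C3 := pd2)
    rfl k0_mm_022_b

noncomputable def f_mm_023_a : ℕ → ℕ → ℕ → ℕ → Bool := onCell 0 536870912 0 536870912 991146299 28908434
    (rowB 3 eng mog cd0q0 cd1q2a pd3 0 true false false .up 0 2 3 (qsf 0 536870912 0 536870912 3) ndB0q0 ndB1q2a pcB3 Cut.none Ext.none)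

def k0_mm_023_a : ∃ t, chk3 f_mm_023_a t 1 1 1 = true :=
  ⟨(l 5), by decide +kernel⟩

theorem c_mm_023_a : CertB 0 536870912 0 536870912 991146299 28908434 3 eng mog cd0q0 cd1q2a pd3 true false false .up 0 2 3
    ndB0q0 ndB1q2a pcB3 Cut.none Ext.none :=
  certB0 (fam := true) (s1 := false) (s2 := false) (a := 0) (b := 2) (c := 3) (cn := .up) (n1 := ndB0q0) (n2 := ndB1q2a) (pc := pcB3) (cut := Cut.none) (xt := Ext.none) (P1 := 0) (W1 := 536870912) (P2 := 0) (W2 := 536870912) (P3 := 991146299) (W3 := 28908434) (N0 := 3) (En := eng) (mo := mog) (C1 := cd0q0) (C2 := cd1q2a) (C3 := pd3)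
    rfl k0_mm_023_a

noncomputable def f_mm_023_b : ℕ → ℕ → ℕ → ℕ → Bool := onCell 0 536870912 1239849684 370763052 991146299 28908434
    (rowB 3 eng mog cd0q0 cd1q2b pd3 0 true false false .up 0 2 3 (qsf 0 536870912 1239849684 370763052 3) ndB0q0 ndB1q2b pcB3 Cut.none Ext.none)

def k0_mm_023_b : ∃ t, chk3 f_mm_023_b t 1 1 1 = true :=
  ⟨(l 5), by decide +kernel⟩

theorem c_mm_023_b : CertB 0 536870912 1239849684 370763052 991146299 28908434 3 eng mog cd0q0 cd1q2b pd3 true false false .up 0 2 3
    ndB0q0 ndB1q2b pcB3 Cut.none Ext.none :=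
  certB0 (fam := true) (s1 := false) (s2 := false) (a := 0) (b := 2) (c := 3) (cn := .up) (n1 := ndB0q0) (n2 := ndB1q2b) (pc := pcB3) (cut := Cut.none) (xt := Ext.none) (P1 := 0) (W1 := 536870912) (P2 := 1239849684) (W2 := 370763052) (P3 := 991146299) (W3 := 28908434) (N0 := 3) (En := eng) (mo := mog) (C1 := cd0q0) (C2 := cd1q2b) (C3 := pd3)
    rfl k0_mm_023_b

noncomputable def f_mm_033 : ℕ → ℕ → ℕ → ℕ → Bool := onCell 0 536870912 1610612736 536870912 991146299 28908434
    (rowB 3 eng mog cd0q0 cd1q3 pd3 0 true false false .pnn 0 3 3 (qsf 0 536870912 1610612736 536870912 3) ndB0q0 ndB1q3 pcB3 Cut.none Ext.none)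

def k0_mm_033 : ∃ t, chk3 f_mm_033 t 1 1 1 = true :=
  ⟨(l 5), by decide +kernel⟩

theorem c_mm_033 : CertB 0 536870912 1610612736 536870912 991146299 28908434 3 eng mog cd0q0 cd1q3 pd3 true false false .pnn 0 3 3
    ndB0q0 ndB1q3 pcB3 Cut.none Ext.none :=
  certB0 (fam := true) (s1 := false) (s2 := false) (a := 0) (b := 3) (c := 3) (cn := .pnn) (n1 := ndB0q0) (n2 := ndB1q3) (pc := pcB3) (cut := Cut.none) (xt := Ext.none) (P1 := 0) (W1 := 536870912) (P2 := 1610612736) (W2 := 536870912) (P3 := 991146299) (W3 := 28908434) (N0 := 3) (En := eng) (mo := mog) (C1 := cd0q0) (C2 := cd1q3) (C3 := pd3)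
    rfl k0_mm_033

noncomputable def cut_mm_101 : Cut := Cut.of [[⟨0, 1, 0, 53687091⟩, ⟨1, 0, 0, 53687091⟩, ⟨2, 1, 0, 53687091⟩]]

noncomputable def f_mm_101 : ℕ → ℕ → ℕ → ℕ → Bool := onCell 536870912 536870912 0 536870912 991146299 28908434
    (rowB 3 eng mog cd0q1 cd1q0 pd1 0 true false false .npn 1 0 1 (qsf 536870912 536870912 0 536870912 1) ndB0q1 ndB1q0 pcB1 cut_mm_101 Ext.none)

def k0_mm_101 : ∃ t, chk3 f_mm_101 t 1 1 1 = true :=
  ⟨(a (l 4) (b (a (l 4) (b (a (l 4) (b (a (l 4) (b (l 6) (l 4))) (l 4))) (l 4))) (l 4))), by decide +kernel⟩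

theorem c_mm_101 : CertB 536870912 536870912 0 536870912 991146299 28908434 3 eng mog cd0q1 cd1q0 pd1 true false false .npn 1 0 1
    ndB0q1 ndB1q0 pcB1 cut_mm_101 Ext.none :=
  certB0 (fam := true) (s1 := false) (s2 := false) (a := 1) (b := 0) (c := 1) (cn := .npn) (n1 := ndB0q1) (n2 := ndB1q0) (pc := pcB1) (cut := cut_mm_101) (xt := Ext.none) (P1 := 536870912) (W1 := 536870912) (P2 := 0) (W2 := 536870912) (P3 := 991146299) (W3 := 28908434) (N0 := 3) (En := eng) (mo := mog) (C1 := cd0q1) (C2 := cd1q0) (C3 := pd1)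
    rfl k0_mm_101

noncomputable def cut_mm_102 : Cut := Cut.of [[⟨0, 1, 0, 53687091⟩, ⟨1, 0, 0, 53687091⟩, ⟨2, 1, 0, 53687091⟩]]

noncomputable def f_mm_102 : ℕ → ℕ → ℕ → ℕ → Bool := onCell 536870912 536870912 0 536870912 991146299 28908434
    (rowB 3 eng mog cd0q1 cd1q0 pd2 0 true false false .npp 1 0 2 (qsf 536870912 536870912 0 536870912 2) ndB0q1 ndB1q0 pcB2 cut_mm_102 Ext.none)

def k0_mm_102 : ∃ t, chk3 f_mm_102 t 1 1 1 = true :=
  ⟨(a (l 4) (b (a (l 4) (b (a (l 4) (b (a (l 4) (b (l 6) (l 4))) (l 4))) (l 4))) (l 4))), by decide +kernel⟩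

theorem c_mm_102 : CertB 536870912 536870912 0 536870912 991146299 28908434 3 eng mog cd0q1 cd1q0 pd2 true false false .npp 1 0 2
    ndB0q1 ndB1q0 pcB2 cut_mm_102 Ext.none :=
  certB0 (fam := true) (s1 := false) (s2 := false) (a := 1) (b := 0) (c := 2) (cn := .npp) (n1 := ndB0q1) (n2 := ndB1q0) (pc := pcB2) (cut := cut_mm_102) (xt := Ext.none) (P1 := 536870912) (W1 := 536870912) (P2 := 0) (W2 := 536870912) (P3 := 991146299) (W3 := 28908434) (N0 := 3) (En := eng) (mo := mog) (C1 := cd0q1) (C2 := cd1q0) (C3 := pd2)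
    rfl k0_mm_102

noncomputable def f_mm_112 : ℕ → ℕ → ℕ → ℕ → Bool := onCell 536870912 536870912 536870912 536870912 991146299 28908434
    (rowB 3 eng mog cd0q1 cd1q1 pd2 0 true false false .dn 1 1 2 (qsf 536870912 536870912 536870912 536870912 2) ndB0q1 ndB1q1 pcB2 Cut.none Ext.none)

def k0_mm_112 : ∃ t, chk3 f_mm_112 t 1 1 1 = true :=
  ⟨(l 4), by decide +kernel⟩

theorem c_mm_112 : CertB 536870912 536870912 536870912 536870912 991146299 28908434 3 eng mog cd0q1 cd1q1 pd2 true false false .dn 1 1 2
    ndB0q1 ndB1q1 pcB2 Cut.none Ext.none :=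
  certB0 (fam := true) (s1 := false) (s2 := false) (a := 1) (b := 1) (c := 2) (cn := .dn) (n1 := ndB0q1) (n2 := ndB1q1) (pc := pcB2) (cut := Cut.none) (xt := Ext.none) (P1 := 536870912) (W1 := 536870912) (P2 := 536870912) (W2 := 536870912) (P3 := 991146299) (W3 := 28908434) (N0 := 3) (En := eng) (mo := mog) (C1 := cd0q1) (C2 := cd1q1) (C3 := pd2)
    rfl k0_mm_112

noncomputable def f_mm_113 : ℕ → ℕ → ℕ → ℕ → Bool := onCell 536870912 536870912 536870912 536870912 991146299 28908434
    (rowB 3 eng mog cd0q1 cd1q1 pd3 0 true false false .nn 1 1 3 (qsf 536870912 536870912 536870912 536870912 3) ndB0q1 ndB1q1 pcB3 Cut.none Ext.none)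

def k0_mm_113 : ∃ t, chk3 f_mm_113 t 1 1 1 = true :=
  ⟨(l 4), by decide +kernel⟩

theorem c_mm_113 : CertB 536870912 536870912 536870912 536870912 991146299 28908434 3 eng mog cd0q1 cd1q1 pd3 true false false .nn 1 1 3
    ndB0q1 ndB1q1 pcB3 Cut.none Ext.none :=
  certB0 (fam := true) (s1 := false) (s2 := false) (a := 1) (b := 1) (c := 3) (cn := .nn) (n1 := ndB0q1) (n2 := ndB1q1) (pc := pcB3) (cut := Cut.none) (xt := Ext.none) (P1 := 536870912) (W1 := 536870912) (P2 := 536870912) (W2 := 536870912) (P3 := 991146299) (W3 := 28908434) (N0 := 3) (En := eng) (mo := mog) (C1 := cd0q1) (C2 := cd1q1) (C3 := pd3)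
    rfl k0_mm_113

noncomputable def f_mm_123_a : ℕ → ℕ → ℕ → ℕ → Bool := onCell 536870912 536870912 0 536870912 991146299 28908434
    (rowB 3 eng mog cd0q1 cd1q2a pd3 0 true false false .npn 1 2 3 (qsf 536870912 536870912 0 536870912 3) ndB0q1 ndB1q2a pcB3 Cut.none Ext.none)

def k0_mm_123_a : ∃ t, chk3 f_mm_123_a t 1 1 1 = true :=
  ⟨(a (l 4) (l 4)), by decide +kernel⟩

theorem c_mm_123_a : CertB 536870912 536870912 0 536870912 991146299 28908434 3 eng mog cd0q1 cd1q2a pd3 true false false .npn 1 2 3
    ndB0q1 ndB1q2a pcB3 Cut.none Ext.none :=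
  certB0 (fam := true) (s1 := false) (s2 := false) (a := 1) (b := 2) (c := 3) (cn := .npn) (n1 := ndB0q1) (n2 := ndB1q2a) (pc := pcB3) (cut := Cut.none) (xt := Ext.none) (P1 := 536870912) (W1 := 536870912) (P2 := 0) (W2 := 536870912) (P3 := 991146299) (W3 := 28908434) (N0 := 3) (En := eng) (mo := mog) (C1 := cd0q1) (C2 := cd1q2a) (C3 := pd3)
    rfl k0_mm_123_a

noncomputable def f_mm_123_b : ℕ → ℕ → ℕ → ℕ → Bool := onCell 536870912 536870912 1239849684 370763052 991146299 28908434
    (rowB 3 eng mog cd0q1 cd1q2b pd3 0 true false false .npn 1 2 3 (qsf 536870912 536870912 1239849684 370763052 3) ndB0q1 ndB1q2b pcB3 Cut.none Ext.none)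

def k0_mm_123_b : ∃ t, chk3 f_mm_123_b t 1 1 1 = true :=
  ⟨(l 5), by decide +kernel⟩

theorem c_mm_123_b : CertB 536870912 536870912 1239849684 370763052 991146299 28908434 3 eng mog cd0q1 cd1q2b pd3 true false false .npn 1 2 3
    ndB0q1 ndB1q2b pcB3 Cut.none Ext.none :=
  certB0 (fam := true) (s1 := false) (s2 := false) (a := 1) (b := 2) (c := 3) (cn := .npn) (n1 := ndB0q1) (n2 := ndB1q2b) (pc := pcB3) (cut := Cut.none) (xt := Ext.none) (P1 := 536870912) (W1 := 536870912) (P2 := 1239849684) (W2 := 370763052) (P3 := 991146299) (W3 := 28908434) (N0 := 3) (En := eng) (mo := mog) (C1 := cd0q1) (C2 := cd1q2b) (C3 := pd3)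
    rfl k0_mm_123_b

noncomputable def f_mm_133 : ℕ → ℕ → ℕ → ℕ → Bool := onCell 536870912 536870912 1610612736 536870912 991146299 28908434
    (rowB 3 eng mog cd0q1 cd1q3 pd3 0 true false false .dn 1 3 3 (qsf 536870912 536870912 1610612736 536870912 3) ndB0q1 ndB1q3 pcB3 Cut.none Ext.none)

def k0_mm_133 : ∃ t, chk3 f_mm_133 t 1 1 1 = true :=
  ⟨(l 4), by decide +kernel⟩

theorem c_mm_133 : CertB 536870912 536870912 1610612736 536870912 991146299 28908434 3 eng mog cd0q1 cd1q3 pd3 true false false .dn 1 3 3
    ndB0q1 ndB1q3 pcB3 Cut.none Ext.none :=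
  certB0 (fam := true) (s1 := false) (s2 := false) (a := 1) (b := 3) (c := 3) (cn := .dn) (n1 := ndB0q1) (n2 := ndB1q3) (pc := pcB3) (cut := Cut.none) (xt := Ext.none) (P1 := 536870912) (W1 := 536870912) (P2 := 1610612736) (W2 := 536870912) (P3 := 991146299) (W3 := 28908434) (N0 := 3) (En := eng) (mo := mog) (C1 := cd0q1) (C2 := cd1q3) (C3 := pd3)
    rfl k0_mm_133

end Pool.Agent.Strip051.G.I9231_9500.Tab.C.BA01

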