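import Pool.Agent.Strip051.G.I9231_9500.Tab
import Pool.Agent.Strip051.PB.ExtD3

/-! # Certificates B9 (generated) -/

set_option linter.all false
set_option maxRecDepth 100000

namespace Pool.Agent.Strip051.G.I9231_9500.Tab.C.BA01

open Pool.Agent.Strip051.PB Pool.Agent.Strip051.PB.T
open Pool.Agent.Strip051.G.I9231_9500.Tab

noncomputable def cut_mm_202 : Cut := Cut.of [[⟨0, 1, 0, 53687091⟩, ⟨1, 0, 0, 53687091⟩, ⟨2, 1, 0, 53687091⟩]]

noncomputable def f_mm_202 : ℕ → ℕ → ℕ → ℕ → Bool := onCell 0 536870912 1073741824 536870912 991146299 28908434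
    (rowB 3 eng mog cd0q2 cd1q0 pd2 1 true false false .pp 2 0 2 (qsf 0 536870912 0 536870912 2) ndB0q2 ndB1q0 pcB2 cut_mm_202 Ext.none)

def k0_mm_202 : ∃ t, chk3 f_mm_202 t 2 2 1 = true :=
  ⟨(a (b (l 1) (b (b (b (l 1) (a (c (l 16147248) (l 16115968)) (c (l 16169624) (l 16141824)))) (a (c (l 16181120) (l 16168040)) (b (b (l 16264024) (l 16315280)) (a (l 16385592) (l 16307136))))) (b (a (c (l 16390520) (l 16246144)) (a (c (l 16354544) (l 16200992)) (b (l 16312112) (a (l 16249320) (l 16310816))))) (a (b (l 16160760) (l 15933168)) (a (b (c (l 16259328) (l 16150960)) (c (l 16183936) (l 16054448))) (b (l 16161104) (l 16098656))))))) (b (b (l 1) (b (l 1) (a (l 1) (b (l 1) (b (l 1) (a (l 1) (c (a (l 16143096) (l 16187264)) (a (l 16079328) (l 16128016))))))))) (b (b (a (b (b (l 1) (a (a (l 1) (l 16123024)) (c (l 16149144) (l 16103584)))) (a (b (a (l 16143376) (l 16160840)) (l 16166200)) (c (l 16230512) (l 16228496)))) (b (a (c (b (l 16149184) (l 16215008)) (b (l 16094320) (l 16174600))) (c (b (a (l 16207176) (l 16247496))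 (l 16285832)) (b (l 16137552) (l 16250288)))) (c (a (l 16243624) (l 16282552)) (a (l 16243872) (l 16263800))))) (a (a (b (a (l 16268536) (l 16306536)) (l 16390384)) (b (l 16271176) (l 16390368))) (b (c (a (l 16415624) (l 16440576)) (b (l 16390296) (l 16426328))) (c (l 16425328) (l 16419968))))) (c (b (a (b (l 16478696) (l 16416104)) (b (l 16532520) (l 16494928))) (a (b (l 16345120) (l 16328048)) (b (l 16384768) (l 16369296)))) (b (a (b (l 16428504) (l 16306616)) (b (l 16498832) (l 16324688))) (a (a (l 16139824) (l 16167792)) (b (l 16290864) (l 16249920)))))))), by decide +kernel⟩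

def k1_mm_202 : ∃ t, chk3 f_mm_202 t 2 6 1 = true :=
  ⟨(a (b (a (b (b (c (l 16100512) (l 15953528)) (a (l 15939904) (c (l 16020952) (l 15849160)))) (b (a (l 15620272) (c (l 15969248) (l 15783232))) (a (c (l 15877496) (l 15669728)) (c (l 15940616) (l 15747328))))) (b (c (b (l 16162288) (l 16125824)) (b (l 16026248) (l 15979992))) (c (b (l 16100560) (l 16085904)) (b (l 15948112) (l 15929888))))) (b (a (a (b (c (l 15827072) (a (l 15583064) (l 15626352))) (c (l 15801112) (l 15572720))) (c (l 15917928) (l 15719464))) (c (b (l 16081264) (l 16086064)) (b (l 15924592) (l 15931536)))) (a (c (b (l 15857160) (l 15864944)) (b (l 15644320) (l 15655400))) (c (b (l 16099736) (l 16121728)) (c (l 15916776) (l 15673584)))))) (b (b (a (a (b (l 16086560) (l 16020712)) (c (l 16288176) (l 16134016))) (b (c (l 16363968) (l 16222032)) (c (l 16347192) (l 16206440)))) (a (c (b (l 16279400) (l 16282960)) (b (l 16174344) (l 16095424))) (c (b (l 16339328) (l 16318792)) (b (a (l 16351440) (l 16473520)) (a (l 16373568) (l 16506888)))))) (b (a (c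 (a (l 16248696) (l 16298024)) (b (l 16070016) (l 16055472))) (c (a (l 16328032) (b (l 16572160) (l 16606864))) (a (b (l 16406168) (l 16448544)) (b (l 16528984) (a (l 16563408) (l 16629752)))))) (a (c (c (l 16212664) (l 16090688)) (b (l 16051104) (l 16077160))) (c (a (b (l 16531464) (l 16511704)) (b (l 16614352) (l 16591544))) (a (b (l 16499984) (a (l 16517440) (l 16576152))) (b (a (l 16571784) (l 16655576)) (l 16655064)))))))), by decide +kernel⟩

def k2_mm_202 : ∃ t, chk3 f_mm_202 t 2 7 1 = true :=
  ⟨(b (a (c (b (a (b (l 15881576) (l 15906520)) (b (l 16151504) (l 16188528))) (a (b (l 15939232) (l 15979168)) (c (l 16196384) (l 16085224)))) (b (a (b (l 15677928) (l 15711232)) (a (l 15954792) (l 15982784))) (a (b (l 15754600) (l 15807352)) (b (l 15999408) (l 16044080))))) (a (c (b (b (l 16297080) (l 16240376)) (a (l 16354152) (b (l 16502112) (l 16554344)))) (b (b (l 16132904) (a (l 16336920) (l 16475504))) (a (l 16189512) (b (a (l 16545152) (l 16591992)) (a (l 16581256) (l 4)))))) (b (a (b (c (l 16610536) (a (l 16579992)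 (l 16613632))) (c (l 16572544) (l 16603320))) (l 4)) (l 4)))) (a (b (a (c (b (l 16025784) (l 16078560)) (b (l 15868792) (l 15938248))) (c (c (l 16235992) (l 16162712)) (b (l 16117088) (l 16175800)))) (a (c (b (l 16136944) (l 16200408)) (c (l 15958720) (l 15838240))) (a (c (l 16352656) (l 16223280)) (c (b (l 16517768) (l 16551408)) (b (l 16440584) (l 16582312)))))) (a (a (a (b (b (l 16521824) (c (l 16586040) (l 16581552))) (b (l 42110232231) (l 4))) (b (b (c (l 16595984) (l 16591712)) (l 16537536)) (l 4))) (b (b (b (l 16569456) (l 4)) (l 4)) (l 4))) (l 4)))), by decide +kernel⟩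

def k3_mm_202 : ∃ t, chk3 f_mm_202 t 6 8 1 = true :=
  ⟨(l 1), by decide +kernel⟩

def k4_mm_202 : ∃ t, chk3 f_mm_202 t 12 18 1 = true :=
  ⟨(l 1), by decide +kernel⟩

def k5_mm_202 : ∃ t, chk3 f_mm_202 t 13 36 1 = true :=
  ⟨(b (l 1) (a (l 1) (a (a (l 1) (a (l 1) (b (l 1) (b (l 1) (b (l 1) (c (l 16305216) (l 16247016))))))) (a (b (b (l 1) (a (l 1) (c (c (l 16342512) (l 16309152)) (c (l 16274808) (l 16218528))))) (c (c (b (a (l 16335688) (l 16354584)) (l 16346600)) (b (a (l 16302128) (l 16322528)) (l 16320336))) (c (b (a (l 16267592) (l 16273808)) (l 16293152)) (b (a (l 16232072) (l 16245136)) (l 16265048))))) (c (b (c (b (a (l 16349696) (l 16348304)) (a (l 16340776) (l 16381048))) (b (a (l 16316568) (l 16324632)) (a (l 16314200) (l 16350776)))) (c (c (l 16374968) (l 16360592)) (b (l 16332296) (l 16365880)))) (b (c (c (a (b (l 16291096) (l 16305456)) (l 16310040)) (a (b (l 16273808) (l 16288856)) (l 16293920))) (a (b (l 16236936) (l 16253024)) (c (l 16280192) (l 16266240)))) (c (c (l 16316192) (l 16290480)) (c (l 16275040)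 (l 16269872))))))))), by decide +kernel⟩

def k6_mm_202 : ∃ t, chk3 f_mm_202 t 13 37 1 = true :=
  ⟨(b (b (a (l 1) (a (b (a (l 1) (c (c (l 16321728) (l 16293880)) (c (l 16263760) (l 16230040)))) (c (a (c (l 16287480) (l 16263432)) (a (l 16319120) (l 16337752))) (a (c (l 16227880) (l 16201808)) (c (l 16258752) (l 16246088))))) (c (c (a (b (l 16347808) (l 16380232)) (l 16411064)) (a (c (l 16331424) (l 16337368)) (l 16384264))) (c (a (b (l 16307408) (l 16321368)) (l 16335712)) (a (b (l 16275400) (l 16290664)) (l 16307352)))))) (a (a (l 1) (a (l 1) (a (l 1) (b (l 1) (c (l 16279720) (l 16220616)))))) (c (a (c (a (b (l 16320768) (l 16332856)) (l 16361792)) (a (a (l 16263968) (l 16282704)) (l 16331912))) (c (a (l 16396984) (l 16432424)) (a (l 16369768) (l 16407880)))) (a (c (a (a (l 16229824) (l 16249912)) (l 16301160)) (a (b (l 16218304) (l 16234464)) (l 16269536))) (c (a (l 16341752) (l 16382616)) (a (l 16312944) (l 16356640))))))) (b (a (a (l 1) (c (c (a (l 16273056) (l 16295960)) (a (l 16238176) (l 16284512))) (c (a (l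 16212768) (l 16251144)) (a (l 16175848) (l 16216824))))) (c (a (c (a (l 16350568) (l 16384440)) (a (l 16320624) (l 16356992))) (c (l 16414816) (l 16391136))) (a (c (a (l 16289800) (l 16328736)) (a (l 16258096) (l 16299680))) (c (l 16345792) (l 16320720))))) (a (a (a (l 1) (a (c (l 16251048) (l 16179032)) (c (l 16267600) (l 16197920)))) (c (c (b (l 16318696) (l 16330696)) (a (l 16276376) (l 16311016))) (c (a (l 16243304) (l 16280320)) (a (l 16209288) (l 16248752))))) (c (a (c (l 16389864) (l 16342568)) (c (l 16455968) (l 16434376))) (a (c (l 16315480) (l 16308584)) (c (l 16412144) (l 16389280))))))), by decide +kernel⟩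

def k7_mm_202 : ∃ t, chk3 f_mm_202 t 12 19 1 = true :=
  ⟨(b (b (a (l 1) (a (l 1) (a (b (l 1) (c (l 16219888) (l 16148112))) (c (b (l 16222376) (l 16250152)) (b (l 16148544) (l 16182328)))))) (a (a (l 1) (a (l 1) (c (l 16198072) (l 16124848)))) (c (a (b (l 16225592) (l 16233240)) (b (a (l 16247824) (l 16277000)) (l 16288952))) (a (b (l 16154416) (l 16168256)) (c (l 16240824) (l 16198936)))))) (a (c (b (a (l 16193504) (b (l 16208400) (l 16237296))) (a (l 16232576) (l 16279008))) (b (a (l 16146800) (c (l 16176816) (l 16144952))) (a (l 16177904) (l 16228984)))) (b (c (c (a (l 16288040) (l 16339224)) (a (l 16260744) (l 16314784))) (a (c (l 16232656) (l 16203768)) (c (l 16289632) (l 16263768)))) (c (a (l 16326520) (l 16375088)) (a (l 16281216) (l 16334584)))))), by decide +kernel⟩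

def k8_mm_202 : ∃ t, chk3 f_mm_202 t 13 19 1 = true :=
  ⟨(b (a (b (c (a (b (c (l 16296680) (l 16263960)) (c (l 16310984) (l 16280968))) (c (b (l 16348288) (l 16371016)) (b (l 16319856) (l 16345008)))) (a (c (b (l 16219800) (l 16250080)) (b (l 16185160) (l 16218304))) (c (b (l 16290584) (l 16318232)) (b (l 16260480) (l 16290688))))) (c (a (b (l 16321320) (l 16345688)) (c (l 16403608) (l 16381008))) (a (c (l 16293464) (l 16265744)) (c (l 16357744) (l 16333808))))) (b (b (c (a (c (l 16411336) (l 16387272)) (l 16423656)) (a (c (l 16362496) (l 16337024)) (l 16341304))) (c (a (l 16400144) (l 16485120)) (a (l 16313056) (l 16448512)))) (c (a (b (l 16442016) (l 16462112)) (b (l 16503832) (l 16521784))) (a (b (l 16401032) (l 16425056)) (b (l 16470808) (l 16492120)))))) (a (a (c (b (c (l 16391368) (l 16369872)) (l 16424656)) (b (l 16252560) (l 16389120))) (c (b (l 16351400) (l 16475192)) (b (l 16355344) (l 16444816)))) (b (c (a (l 16448896) (l 16505424)) (a (l 16417312) (l 16480376))) (c (b (l 16481992) (l 16519176)) (b (l 16458232)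 (l 16498192)))))), by decide +kernel⟩

def k9_mm_202 : ∃ t, chk3 f_mm_202 t 14 16 1 = true :=
  ⟨(l 1), by decide +kernel⟩

def k10_mm_202 : ∃ t, chk3 f_mm_202 t 28 17 1 = true :=
  ⟨(a (l 1) (b (l 1) (b (l 1) (b (a (l 1) (b (a (l 1) (b (a (l 1) (c (b (l 16419176) (l 16422256)) (c (l 16389176) (l 16360176)))) (c (c (l 16424144) (l 16407336)) (c (l 16383856) (a (l 16353880) (l 16367896)))))) (c (c (a (a (l 16405416) (l 16416368)) (l 16432816)) (a (b (l 16389872) (l 16396376)) (a (l 16400488) (l 16412392)))) (b (a (a (l 1) (c (l 16377424) (l 16347712))) (c (l 16375816) (l 16358088))) (a (c (a (l 16371712) (l 16384512)) (a (l 16341664) (l 16355456))) (c (l 16403744) (l 16355184))))))) (b (a (a (l 1) (a (b (l 1) (b (l 1) (c (l 16396120) (b (l 16342712) (l 16344744))))) (c (c (l 16406312) (l 16386440)) (c (b (l 16366104) (l 16373216)) (b (l 16335744) (l 16343504)))))) (c (c (c (l 16460736) (l 16426896)) (a (a (l 16389632) (l 16401360)) (l 16418968))) (c (a (a (l 16371848) (l 16374024)) (l 16414016)) (a (b (l 16345784) (l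 16342904)) (l 16387368))))) (c (a (c (a (a (l 16385976) (l 16396608)) (l 16412576)) (a (a (l 16362664) (l 16375504)) (l 54256752823))) (c (l 16428848) (c (l 16446912) (l 16434264)))) (a (b (a (a (l 1) (c (l 16355232) (l 16324256))) (c (l 16353024) (l 16333968))) (c (c (l 16370680) (l 16358584)) (a (a (l 16318696) (l 16332040)) (l 16331112)))) (c (a (l 16381480) (l 16427432)) (a (l 16375120) (l 16402000)))))))))), by decide +kernel⟩

def k11_mm_202 : ∃ t, chk3 f_mm_202 t 58 34 1 = true :=
  ⟨(l 1), by decide +kernel⟩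

def k12_mm_202 : ∃ t, chk3 f_mm_202 t 116 35 1 = true :=
  ⟨(b (b (l 1) (a (b (l 1) (b (a (l 1) (c (b (l 16430288) (l 16433368)) (c (l 16401384) (l 16373136)))) (c (c (l 16445296) (l 16418704)) (c (l 16396592) (a (l 16366592) (l 16380832)))))) (c (c (b (b (l 16450480) (l 16456320)) (l 16454480)) (b (b (l 16426648) (l 16430480)) (a (l 16423392) (l 16435672)))) (b (b (a (l 1) (c (l 16414048) (l 16386608))) (c (l 16409136) (l 16385736))) (c (a (l 16407712) (l 16410504)) (b (l 16373704) (l 16381248))))))) (c (b (c (b (a (l 16443472) (l 16465768)) (c (l 16492568) (l 16480944))) (b (a (a (l 16411736) (l 16423824)) (l 16462968)) (a (l 16430280) (l 16475128)))) (c (b (l 16497688) (l 16508344)) (b (l 16454264) (l 16486976)))) (b (c (b (a (a (l 16395304) (l 16397896)) (l 16438504)) (a (l 16426032) (l 16451832))) (b (a (b (l 16370888) (l 16367968)) (l 16413352)) (a (l 16400112) (l 16427880)))) (c (b (l 16410192) (l 16465000)) (c (l 16399336) (l 16387592)))))), by decide +kernel⟩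

def k13_mm_202 : ∃ t, chk3 f_mm_202 t 117 35 1 = true :=
  ⟨(b (b (a (b (l 1) (b (a (l 1) (a (a (a (l 1) (l 6)) (l 6)) (l 6))) (c (c (l 16467720) (l 16442664)) (c (l 16422136) (l 16400888))))) (b (l 6) (b (l 6) (c (a (l 16483912) (l 16496024)) (c (l 16454672) (l 16430320)))))) (c (c (b (a (l 16465856) (l 16509808)) (a (l 16498088) (l 16520784))) (b (a (b (l 16438544) (l 16465800)) (l 16487640)) (a (l 16475088) (l 16499736)))) (c (b (a (c (l 16423120) (l 16410512)) (l 16464824)) (a (l 16451432) (l 16478072))) (b (a (b (l 16408496) (l 16416008)) (l 16441376)) (a (l 16427104) (l 16455800)))))) (c (b (c (b (l 16520312) (l 16530904)) (b (l 16478416) (l 16511064))) (c (l 16525344) (l 16507048))) (b (c (c (l 16447640) (l 16437008)) (c (l 16426232) (l 16415304))) (c (l 16467248) (l 16447880))))), by decide +kernel⟩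

def k14_mm_202 : ∃ t, chk3 f_mm_202 t 59 17 1 = true :=
  ⟨(b (l 6) (b (b (b (l 6) (b (l 6) (a (c (a (l 16514240) (l 16538560)) (c (l 16474776) (l 16453608))) (c (c (l 16583136) (l 16567152)) (c (l 16550696) (l 16533784)))))) (a (c (c (b (l 16523448) (l 16554960)) (c (l 16514800) (l 16484360))) (c (c (l 16474752) (l 16465016)) (c (l 16455144) (l 16445136)))) (c (c (l 16553840) (a (l 16568496) (l 16593560))) (c (b (l 16559856) (l 16571792)) (l 16495208))))) (c (b (a (c (l 16549312) (l 16511720)) (c (l 16594224) (l 16581352))) (a (c (l 16589816) (l 16575112)) (c (l 16633576) (l 16622464)))) (b (c (a (l 16494616) (l 16568112)) (a (l 16477040) (l 16554496))) (c (c (l 16515504) (l 16498280)) (a (l 16544432) (l 16599264))))))), by decide +kernel⟩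

def k15_mm_202 : ∃ t, chk3 f_mm_202 t 15 8 1 = true :=
  ⟨(b (l 6) (b (l 6) (a (b (b (b (l 6) (b (a (l 6) (l 6)) (a (a (c (l 16603136) (l 16578472)) (c (l 16651752) (l 16635256))) (a (c (l 16700160) (l 16691760)) (a (l 16732328) (l 4)))))) (a (a (c (c (l 16621008) (l 16610160)) (c (l 16598992) (l 16587512))) (c (c (l 16666928) (l 16659952)) (c (l 16652760) (l 16645368)))) (a (c (l 16679640) (l 16662664)) (a (c (c (l 16751224) (l 16751984)) (a (l 16731032) (l 16752488))) (l 4))))) (a (a (c (b (c (l 16639256) (l 16630128)) (l 16631784)) (b (c (l 16620728) (l 16611064)) (l 16616256))) (c (b (l 16660368) (l 16677176)) (b (l 16649184) (l 16668928)))) (a (b (c (a (l 16716136) (l 16731104)) (a (l 16710616) (b (l 16752072) (l 16749744)))) (c (a (l 16727216) (l 16750248)) (a (l 16728256) (l 16751504)))) (a (b (c (l 16754584) (l 16755696)) (l 4)) (l 4))))) (l 4)))), by decide +kernel⟩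

def k16_mm_202 : ∃ t, chk3 f_mm_202 t 56 36 1 = true :=
  ⟨(b (b (a (l 1) (b (a (l 1) (c (a (c (l 16376760) (l 16351632)) (c (l 16387240) (l 16362984))) (b (a (l 1) (c (l 16344784) (l 16313248))) (c (l 16335344) (a (l 16307920) (l 16321056)))))) (c (c (a (a (l 16367880) (l 16399168)) (l 16393696)) (a (a (l 16339664) (l 16353464)) (l 16375496))) (b (a (a (l 1) (c (l 16334760) (l 16302712))) (c (l 16331968) (l 16301288))) (c (c (l 16345072) (l 16329816)) (c (l 16319592) (l 16309160))))))) (a (a (b (l 1) (c (c (l 16361432) (a (l 16319584) (l 16351344))) (c (a (l 16292288) (l 16303920)) (a (l 16261456) (l 16271328))))) (c (c (b (l 16373608) (l 16376168)) (b (a (l 16330728) (l 16339096)) (l 16346592))) (c (b (c (l 16351832) (l 16335744)) (l 16326648)) (b (c (l 16319440) (l 16302904)) (l 16295352))))) (c (c (b (a (l 16384760) (l 16426104)) (l 16427240)) (b (a (l 16355600) (l 16377656)) (b (l 16397024) (l 16403208)))) (c (b (a (l 16340024) (l 16349376)) (c (l 16379264) (l 16365120))) (b (a (a (l 16288368) (l 16301136)) (l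 16320304)) (c (l 16350768) (l 16336224))))))) (c (b (c (a (b (l 16383048) (l 16410128)) (b (l 16438288) (l 16449088))) (a (b (a (l 16338000) (l 16380264)) (l 16382192)) (b (l 16412336) (l 16424264)))) (c (a (l 16405688) (l 16464784)) (a (b (l 16394456) (l 16406440)) (l 16441600)))) (c (b (a (b (c (l 16326240) (l 16311032)) (l 16353440)) (b (l 16385632) (l 16398720))) (a (b (l 16366920) (l 16380072)) (l 16417736))) (b (a (b (c (l 16316576) (l 16300944)) (l 16302904)) (b (l 16358168) (l 16372456))) (a (b (l 16338600) (l 16352960)) (l 16393200)))))), by decide +kernel⟩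

def k17_mm_202 : ∃ t, chk3 f_mm_202 t 56 37 1 = true :=
  ⟨(b (c (b (c (a (l 16447840) (l 16484856)) (a (l 16423880) (l 16463744))) (c (l 16465152) (l 16423672))) (c (b (a (l 16399216) (l 16442008)) (l 16402560)) (b (a (l 16373856) (l 16419664)) (l 16380848)))) (b (c (a (l 16477656) (l 16513760)) (c (l 16467240) (l 16426568))) (c (l 16451792) (l 16417168)))), by decide +kernel⟩

def k18_mm_202 : ∃ t, chk3 f_mm_202 t 57 18 1 = true :=
  ⟨(b (a (b (c (c (b (b (c (l 16420184) (l 16406728)) (l 16424752)) (b (l 16456728) (l 16467480))) (b (b (a (l 16385272) (l 16397536)) (c (l 16426208) (l 16412960))) (b (l 16431768) (l 16443632)))) (c (b (b (a (a (l 16339656) (l 16351928)) (l 16370344)) (c (l 16399520) (l 16385896))) (b (l 16385104) (l 16419096))) (b (b (a (c (l 16323512) (l 16308400)) (l 16363360)) (a (l 16331112) (l 16378080))) (b (l 16358688) (l 16393856))))) (c (b (c (l 16483112) (l 16460888)) (c (l 16503064) (l 16482880))) (b (c (l 16417040) (l 16393512)) (c (l 16462104) (l 16440736))))) (b (c (b (c (b (l 16476512)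 (l 16487216)) (b (l 16431744) (l 16464520))) (c (l 16502776) (l 16460712))) (b (c (b (l 16386280) (l 16441168)) (c (l 16374408) (l 16361936))) (c (l 16438992) (l 16395696)))) (b (c (c (l 16522640) (l 16503552)) (c (l 16483912) (l 16463712))) (c (l 16511968) (l 16455592))))) (b (c (b (c (l 16519768) (l 16502920)) (a (l 16531936) (l 16569480))) (b (c (l 16464600) (l 16446760)) (c (l 16506592) (l 16490576)))) (c (c (l 16541096) (l 16507352)) (c (l 16515184) (l 16480688))))), by decide +kernel⟩

def k19_mm_202 : ∃ t, chk3 f_mm_202 t 29 18 1 = true :=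
  ⟨(b (a (a (b (c (b (c (l 16502856) (l 16483072)) (c (l 16543584) (l 16525784))) (b (c (l 16462704) (l 16420792)) (c (l 16507456) (l 16488608)))) (c (b (l 16512464) (l 16552016)) (b (l 16479632) (l 16522744)))) (b (c (b (c (l 16565960) (l 16549616)) (l 16524952)) (b (c (l 16532792) (l 16515496)) (c (l 16555120) (l 16539752)))) (c (b (l 16574872) (l 16613232)) (b (l 16548472) (l 16590072))))) (b (a (b (c (c (l 16608328) (l 16595416)) (c (l 16582128) (l 16568464))) (c (l 16599272) (l 16576120))) (c (c (l 16617312) (l 16608592)) (b (l 16584776) (l 16625960)))) (c (b (c (l 16620600) (l 16612448)) (l 16600696)) (b (c (l 16604064) (l 16595424)) (l 16576192))))) (b (a (c (b (c (l 16594712) (l 16583512)) (l 16563256)) (b (c (l 16571976) (l 16560112)) (l 16543112))) (c (c (l 16635224) (l 16630208)) (b (l 16614272) (l 16630272)))) (b (a (c (l 16599432) (l 16581960)) (c (l 16652048) (l 16644832))) (a (c (l 16613816) (l 16598808)) (a (l 16663576) (c (l 16741680) (l 16738128))))))), by decide +kernel⟩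

def k20_mm_202 : ∃ t, chk3 f_mm_202 t 14 19 1 = true :=
  ⟨(b (a (c (a (b (c (l 16527704) (l 16513352)) (l 16490744)) (b (b (l 16579816) (l 16594904)) (l 16574224))) (a (b (c (l 16498576) (l 16462408)) (l 16467192)) (b (b (l 16557880) (l 16575584)) (l 16558440)))) (a (b (c (l 16602480) (a (l 16623968) (l 16641336))) (c (l 16637296) (l 16629216))) (a (b (c (l 16705120) (l 16678888)) (c (l 16719056) (l 16715352))) (a (b (b (l 16720776) (l 16745888)) (l 4)) (l 4))))) (a (c (a (b (l 16562936) (l 16611600)) (b (l 16621208) (l 16686768))) (a (b (l 16544512) (l 16597504)) (b (l 16609424) (l 16662480)))) (a (b (c (a (l 16707168) (l 16732680)) (a (l 16700312) (l 16728424))) (c (a (l 16726024) (l 16741696)) (a (l 16721304) (l 16737872)))) (l 4)))), by decide +kernel⟩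

def k21_mm_202 : ∃ t, chk3 f_mm_202 t 15 9 1 = true :=
  ⟨(b (a (b (a (b (c (a (b (l 16648744) (l 16664648)) (b (l 16692888) (a (l 16738840) (l 16744648)))) (b (a (l 16636240) (l 16687320)) (a (l 16654912) (a (l 16734080) (l 16746664))))) (a (c (c (l 16687784) (l 16684832)) (c (l 16681792) (l 16678648))) (b (c (a (l 16743344) (l 16747648)) (a (l 16745952) (l 16749184))) (c (l 39426393607) (a (l 16746304) (l 4)))))) (a (b (b (a (c (l 16746936) (l 16748488)) (l 4)) (l 4)) (l 4)) (l 4))) (a (a (b (b (c (l 16722632) (l 16720688)) (c (l 16744880) (l 16726360))) (b (c (l 16749440) (l 16751720)) (l 4))) (l 4)) (l 4))) (l 4)) (l 4)), by decide +kernel⟩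

def k22_mm_202 : ∃ t, chk3 f_mm_202 t 6 5 1 = true :=
  ⟨(b (b (a (b (b (a (c (l 16205520) (l 16206560)) (c (a (l 16375088) (l 16419744)) (l 16259184))) (a (c (l 16361144) (l 16330688)) (c (l 16419768) (l 16415600)))) (a (c (b (l 16408376) (l 16452184)) (l 16288304)) (c (b (l 16480528) (l 16517072)) (b (l 16462872) (l 16506016))))) (b (a (b (c (a (l 16465384) (l 16511976)) (l 16358296)) (c (l 16482392) (l 16463040))) (b (c (l 16500080) (l 16482856)) (c (l 16548824) (l 16535880)))) (a (b (c (l 16535672) (l 16521800)) (c (l 16564920) (l 16555688))) (a (b (l 16568720) (l 16635992)) (c (l 16646272) (l 16628640)))))) (a (b (b (a (l 16469304) (l 16505904)) (a (l 16509896) (l 16572784))) (c (a (l 16580168) (l 16621096)) (a (l 16590528) (l 16626456)))) (b (a (c (l 16592888) (l 16581224)) (c (l 16644392) (l 16624400))) (a (c (l 16664792) (l 16663184)) (b (c (l 16699384) (l 16701936)) (a (l 16692232) (l 16715896))))))) (b (a (b (c (a (l 16581104) (l 16618888)) (a (l 16560720) (l 16607184))) (c (a (l 16562336) (l 16612680)) (a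 (l 16536232) (l 16598592)))) (b (a (c (l 16661688) (l 16658304)) (b (c (l 16708240) (l 16711072)) (c (l 16714872) (l 16718152)))) (a (c (l 16667968) (l 16665400)) (a (b (l 16709528) (l 16716952)) (l 4))))) (a (c (b (a (l 16553872) (l 16595096)) (a (l 16555256) (l 16607656))) (b (a (l 16524976) (l 16581384)) (a (l 16526384) (l 16617944)))) (a (b (c (l 16670504) (b (l 16677008) (l 16685968))) (a (c (l 16683096) (l 16683904)) (l 4))) (l 4))))), by decide +kernel⟩

def k23_mm_202 : ∃ t, chk3 f_mm_202 t 7 5 1 = true :=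
  ⟨(b (a (b (a (b (b (c (a (l 16657512) (l 16707472)) (a (l 16625960) (l 16701304))) (a (l 16612704) (c (l 16722808) (l 16717960)))) (b (a (l 16664280) (c (l 16732976) (l 16729024))) (a (l 16691152) (l 89892148759)))) (a (b (b (b (l 80228497671) (l 93650279975)) (l 4)) (l 4)) (l 4))) (a (a (b (b (l 16675488) (l 58753615543)) (l 4)) (l 4)) (l 4))) (l 4)) (l 4)), by decide +kernel⟩

def k24_mm_202 : ∃ t, chk3 f_mm_202 t 3 3 1 = true :=
  ⟨(b (a (b (b (a (c (a (b (l 16565840) (l 16584992)) (b (l 16647728) (c (l 16668280) (l 16667416)))) (a (b (l 16539688) (l 16543144)) (b (l 16620736) (b (l 16662160) (l 16673752))))) (b (a (b (c (l 16707976) (l 16711000)) (l 4)) (l 4)) (l 4))) (a (a (b (c (l 16611432) (l 16597968)) (c (l 16617072) (a (l 16608496) (l 16659928)))) (b (a (c (l 16673592) (l 16674104)) (l 4)) (l 4))) (l 4))) (a (b (a (a (b (c (l 16626936) (l 16645160)) (a (l 16660488) (l 4))) (l 4)) (l 4)) (l 4)) (l 4))) (l 4)) (l 4)), by decide +kernel⟩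

theorem s25_mm_202 : ∃ t, chk3 f_mm_202 t 3 5 1 = true := ex3_a k22_mm_202 k23_mm_202

theorem s26_mm_202 : ∃ t, chk3 f_mm_202 t 56 18 1 = true := ex3_b k16_mm_202 k17_mm_202

theorem s27_mm_202 : ∃ t, chk3 f_mm_202 t 28 18 1 = true := ex3_a s26_mm_202 k18_mm_202

theorem s28_mm_202 : ∃ t, chk3 f_mm_202 t 14 18 1 = true := ex3_a s27_mm_202 k19_mm_202

theorem s29_mm_202 : ∃ t, chk3 f_mm_202 t 14 9 1 = true := ex3_b s28_mm_202 k20_mm_202

theorem s30_mm_202 : ∃ t, chk3 f_mm_202 t 7 9 1 = true := ex3_a s29_mm_202 k21_mm_202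

theorem s31_mm_202 : ∃ t, chk3 f_mm_202 t 58 35 1 = true := ex3_a k12_mm_202 k13_mm_202

theorem s32_mm_202 : ∃ t, chk3 f_mm_202 t 58 17 1 = true := ex3_b k11_mm_202 s31_mm_202

theorem s33_mm_202 : ∃ t, chk3 f_mm_202 t 29 17 1 = true := ex3_a s32_mm_202 k14_mm_202

theorem s34_mm_202 : ∃ t, chk3 f_mm_202 t 14 17 1 = true := ex3_a k10_mm_202 s33_mm_202

theorem s35_mm_202 : ∃ t, chk3 f_mm_202 t 14 8 1 = true := ex3_b k9_mm_202 s34_mm_202

theorem s36_mm_202 : ∃ t, chk3 f_mm_202 t 7 8 1 = true := ex3_a s35_mm_202 k15_mm_202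

theorem s37_mm_202 : ∃ t, chk3 f_mm_202 t 7 4 1 = true := ex3_b s36_mm_202 s30_mm_202

theorem s38_mm_202 : ∃ t, chk3 f_mm_202 t 6 19 1 = true := ex3_a k7_mm_202 k8_mm_202

theorem s39_mm_202 : ∃ t, chk3 f_mm_202 t 13 18 1 = true := ex3_b k5_mm_202 k6_mm_202

theorem s40_mm_202 : ∃ t, chk3 f_mm_202 t 6 18 1 = true := ex3_a k4_mm_202 s39_mm_202

theorem s41_mm_202 : ∃ t, chk3 f_mm_202 t 6 9 1 = true := ex3_b s40_mm_202 s38_mm_202

theorem s42_mm_202 : ∃ t, chk3 f_mm_202 t 6 4 1 = true := ex3_b k3_mm_202 s41_mm_202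

theorem s43_mm_202 : ∃ t, chk3 f_mm_202 t 3 4 1 = true := ex3_a s42_mm_202 s37_mm_202

theorem s44_mm_202 : ∃ t, chk3 f_mm_202 t 3 2 1 = true := ex3_b s43_mm_202 s25_mm_202

theorem s45_mm_202 : ∃ t, chk3 f_mm_202 t 3 1 1 = true := ex3_b s44_mm_202 k24_mm_202

theorem s46_mm_202 : ∃ t, chk3 f_mm_202 t 2 3 1 = true := ex3_b k1_mm_202 k2_mm_202

theorem s47_mm_202 : ∃ t, chk3 f_mm_202 t 2 1 1 = true := ex3_b k0_mm_202 s46_mm_202

theorem s48_mm_202 : ∃ t, chk3 f_mm_202 t 1 1 1 = true := ex3_a s47_mm_202 s45_mm_202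

theorem c_mm_202 : CertB 0 536870912 0 536870912 991146299 28908434 3 eng mog cd0q2 cd1q0 pd2 true false false .pp 2 0 2
    ndB0q2 ndB1q0 pcB2 cut_mm_202 Ext.none :=
  certB1 (fam := true) (s1 := false) (s2 := false) (a := 2) (b := 0) (c := 2) (cn := .pp) (n1 := ndB0q2) (n2 := ndB1q0) (pc := pcB2) (cut := cut_mm_202) (xt := Ext.none) (P1 := 0) (W1 := 536870912) (P2 := 0) (W2 := 536870912) (P3 := 991146299) (W3 := 28908434) (N0 := 3) (En := eng) (mo := mog) (C1 := cd0q2) (C2 := cd1q0) (C3 := pd2)
    rfl (fun _ => rfl) s48_mm_202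

noncomputable def f_mm_203 : ℕ → ℕ → ℕ → ℕ → Bool := onCell 0 536870912 1610612736 536870912 991146299 28908434
    (rowB 3 eng mog cd0q2 cd1q0 pd3 1 true false false .up 2 0 3 (qsf 0 536870912 0 536870912 3) ndB0q2 ndB1q0 pcB3 Cut.none Ext.none)

def k0_mm_203 : ∃ t, chk3 f_mm_203 t 1 1 1 = true :=
  ⟨(a (b (a (b (b (b (a (l 16458152) (c (l 16587616) (l 16552592))) (a (c (l 16519616) (l 16524752)) (b (l 16614968) (l 4)))) (a (b (c (l 16567848) (l 16537888)) (b (l 16600944) (l 4))) (l 4))) (l 4)) (l 4)) (l 2)) (l 4)), by decide +kernel⟩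

theorem c_mm_203 : CertB 0 536870912 0 536870912 991146299 28908434 3 eng mog cd0q2 cd1q0 pd3 true false false .up 2 0 3
    ndB0q2 ndB1q0 pcB3 Cut.none Ext.none :=
  certB1 (fam := true) (s1 := false) (s2 := false) (a := 2) (b := 0) (c := 3) (cn := .up) (n1 := ndB0q2) (n2 := ndB1q0) (pc := pcB3) (cut := Cut.none) (xt := Ext.none) (P1 := 0) (W1 := 536870912) (P2 := 0) (W2 := 536870912) (P3 := 991146299) (W3 := 28908434) (N0 := 3) (En := eng) (mo := mog) (C1 := cd0q2) (C2 := cd1q0) (C3 := pd3)
    rfl (fun _ => rfl) k0_mm_203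

noncomputable def f_mm_213 : ℕ → ℕ → ℕ → ℕ → Bool := onCell 0 536870912 536870912 536870912 991146299 28908434
    (rowB 3 eng mog cd0q2 cd1q1 pd3 0 true false false .pnn 2 1 3 (qsf 0 536870912 536870912 536870912 3) ndB0q2 ndB1q1 pcB3 Cut.none Ext.none)

def k0_mm_213 : ∃ t, chk3 f_mm_213 t 1 1 1 = true :=
  ⟨(a (b (l 4) (l 4)) (l 4)), by decide +kernel⟩

theorem c_mm_213 : CertB 0 536870912 536870912 536870912 991146299 28908434 3 eng mog cd0q2 cd1q1 pd3 true false false .pnn 2 1 3
    ndB0q2 ndB1q1 pcB3 Cut.none Ext.none :=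
  certB0 (fam := true) (s1 := false) (s2 := false) (a := 2) (b := 1) (c := 3) (cn := .pnn) (n1 := ndB0q2) (n2 := ndB1q1) (pc := pcB3) (cut := Cut.none) (xt := Ext.none) (P1 := 0) (W1 := 536870912) (P2 := 536870912) (W2 := 536870912) (P3 := 991146299) (W3 := 28908434) (N0 := 3) (En := eng) (mo := mog) (C1 := cd0q2) (C2 := cd1q1) (C3 := pd3)
    rfl k0_mm_213

end Pool.Agent.Strip051.G.I9231_9500.Tab.C.BA01

namespace Pool.Agent.Strip051.G.I9231_9500.Tab.C.BA02

open Pool.Agent.Strip051.PB Pool.Agent.Strip051.PB.T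
open Pool.Agent.Strip051.G.I9231_9500.Tab

noncomputable def f_pp_001 : ℕ → ℕ → ℕ → ℕ → Bool := onCell 0 536870912 0 536870912 991146299 28908434
    (rowB 3 eng mog cd0q0 cd2q0 pd1 0 true true true .up 0 0 1 (qsf 0 536870912 0 536870912 1) ndB0q0 ndB2q0 pcB1 Cut.none Ext.none)

def k0_pp_001 : ∃ t, chk3 f_pp_001 t 1 1 1 = true :=
  ⟨(l 4), by decide +kernel⟩

theorem c_pp_001 : CertB 0 536870912 0 536870912 991146299 28908434 3 eng mog cd0q0 cd2q0 pd1 true true true .up 0 0 1
    ndB0q0 ndB2q0 pcB1 Cut.none Ext.none :=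
  certB0 (fam := true) (s1 := true) (s2 := true) (a := 0) (b := 0) (c := 1) (cn := .up) (n1 := ndB0q0) (n2 := ndB2q0) (pc := pcB1) (cut := Cut.none) (xt := Ext.none) (P1 := 0) (W1 := 536870912) (P2 := 0) (W2 := 536870912) (P3 := 991146299) (W3 := 28908434) (N0 := 3) (En := eng) (mo := mog) (C1 := cd0q0) (C2 := cd2q0) (C3 := pd1)
    rfl k0_pp_001

noncomputable def f_pp_011 : ℕ → ℕ → ℕ → ℕ → Bool := onCell 0 536870912 536870912 536870912 991146299 28908434
    (rowB 3 eng mog cd0q0 cd2q1 pd1 0 true true true .pnn 0 1 1 (qsf 0 536870912 536870912 536870912 1) ndB0q0 ndB2q1 pcB1 Cut.none Ext.none)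

def k0_pp_011 : ∃ t, chk3 f_pp_011 t 1 1 1 = true :=
  ⟨(l 4), by decide +kernel⟩

theorem c_pp_011 : CertB 0 536870912 536870912 536870912 991146299 28908434 3 eng mog cd0q0 cd2q1 pd1 true true true .pnn 0 1 1
    ndB0q0 ndB2q1 pcB1 Cut.none Ext.none :=
  certB0 (fam := true) (s1 := true) (s2 := true) (a := 0) (b := 1) (c := 1) (cn := .pnn) (n1 := ndB0q0) (n2 := ndB2q1) (pc := pcB1) (cut := Cut.none) (xt := Ext.none) (P1 := 0) (W1 := 536870912) (P2 := 536870912) (W2 := 536870912) (P3 := 991146299) (W3 := 28908434) (N0 := 3) (En := eng) (mo := mog) (C1 := cd0q0) (C2 := cd2q1) (C3 := pd1)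
    rfl k0_pp_011

noncomputable def f_pp_012 : ℕ → ℕ → ℕ → ℕ → Bool := onCell 0 536870912 536870912 536870912 991146299 28908434
    (rowB 3 eng mog cd0q0 cd2q1 pd2 0 true true true .pnp 0 1 2 (qsf 0 536870912 536870912 536870912 2) ndB0q0 ndB2q1 pcB2 Cut.none Ext.none)

def k0_pp_012 : ∃ t, chk3 f_pp_012 t 1 1 1 = true :=
  ⟨(l 4), by decide +kernel⟩

theorem c_pp_012 : CertB 0 536870912 536870912 536870912 991146299 28908434 3 eng mog cd0q0 cd2q1 pd2 true true true .pnp 0 1 2
    ndB0q0 ndB2q1 pcB2 Cut.none Ext.none :=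
  certB0 (fam := true) (s1 := true) (s2 := true) (a := 0) (b := 1) (c := 2) (cn := .pnp) (n1 := ndB0q0) (n2 := ndB2q1) (pc := pcB2) (cut := Cut.none) (xt := Ext.none) (P1 := 0) (W1 := 536870912) (P2 := 536870912) (W2 := 536870912) (P3 := 991146299) (W3 := 28908434) (N0 := 3) (En := eng) (mo := mog) (C1 := cd0q0) (C2 := cd2q1) (C3 := pd2)
    rfl k0_pp_012

noncomputable def cut_pp_022_a : Cut := Cut.of [[⟨0, 0, 0, 53687091⟩, ⟨1, 1, 0, 53687091⟩, ⟨2, 1, 0, 53687091⟩]]

noncomputable def f_pp_022_a : ℕ → ℕ → ℕ → ℕ → Bool := onCell 0 536870912 0 536870912 991146299 28908434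
    (rowB 3 eng mog cd0q0 cd2q2a pd2 0 true true true .pp 0 2 2 (qsf 0 536870912 0 536870912 2) ndB0q0 ndB2q2a pcB2 cut_pp_022_a Ext.none)

def k0_pp_022_a : ∃ t, chk3 f_pp_022_a t 8 2 1 = true :=
  ⟨(b (a (a (b (c (l 16370240) (l 16374712)) (c (l 16364568) (l 16367928))) (b (c (l 16395864) (l 16428824)) (c (l 16425400) (l 16434504)))) (a (b (c (l 16459576) (l 16477104)) (c (l 16461696) (l 16474632))) (b (c (l 16498760) (l 16491760)) (c (l 16494784) (l 16509752))))) (a (a (b (c (b (l 16403120) (l 16418992)) (b (l 16405296) (l 16420368))) (c (b (l 16417488) (l 16398472)) (b (l 16418240) (l 16398808)))) (b (c (a (l 16416504) (l 16433104)) (l 16420704)) (c (b (l 16449856) (l 16451136)) (b (l 16454568) (l 16497216))))) (b (a (c (l 16435560) (l 16486400)) (c (l 16505984) (l 16515792))) (b (a (c (l 16499832) (l 16506672)) (c (l 16525592) (l 16532896))) (a (c (l 16520960) (l 16527048)) (c (l 16543840) (l 16550352))))))), by decide +kernel⟩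

def k1_pp_022_a : ∃ t, chk3 f_pp_022_a t 8 3 1 = true :=
  ⟨(b (a (b (b (a (c (a (l 16481024) (l 16476056)) (a (l 16480096) (l 16477424))) (c (a (l 16491504) (l 16505952)) (a (l 16494736) (l 16531544)))) (a (c (a (l 16471640) (l 16487072)) (a (l 16471016) (l 16488736))) (c (a (l 16543872) (l 16557992)) (a (l 16547392) (l 16562904))))) (a (b (c (a (b (l 16541464) (l 16540816)) (c (l 16544792) (l 16545928))) (a (b (l 16541360) (l 16541152)) (b (l 16537456) (l 16579088)))) (c (a (b (l 16583456) (l 16605920)) (b (l 16597992) (l 16620736))) (a (b (l 16584328) (l 16607368)) (b (l 16601256) (l 16624664))))) (a (b (c (b (l 16549792) (l 16590096)) (b (l 16574824) (l 16594600))) (c (b (l 16609536) (l 16628696)) (b (l 16614336) (l 16633576)))) (b (c (b (l 16582432) (l 16598168)) (b (l 16587592) (l 16603248))) (l 4))))) (b (a (a (b (c (l 16540384) (l 16545944)) (c (l 16568344) (l 16573848))) (b (c (l 16551264) (l 16557208)) (l 4))) (l 4)) (l 4))) (a (a (a (b (b (c (b (c (l 16628544) (l 16629520)) (c (l 16651944) (l 16653200)))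 (b (l 16610088) (c (l 16654496) (l 16655840)))) (b (c (c (l 16662504) (l 16650520)) (c (l 16648968) (l 16636880))) (b (c (a (l 16682280) (l 16680912)) (a (l 16679776) (l 16676792))) (a (l 6) (c (l 16688600) (l 16684560)))))) (l 6)) (b (a (b (b (c (l 16641024) (l 16645104)) (c (l 16661584) (l 16656880))) (a (b (c (l 16672488) (l 16667760)) (l 4)) (l 4))) (b (b (c (l 16646328) (l 16649848)) (c (l 16666696) (l 16661880))) (l 4))) (l 4))) (b (l 4) (l 4))) (l 4))), by decide +kernel⟩

def k2_pp_022_a : ∃ t, chk3 f_pp_022_a t 9 1 1 = true :=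
  ⟨(b (b (a (b (a (c (l 16513384) (l 16489056)) (c (l 16521768) (l 16497840))) (c (a (l 16521824) (l 16538912)) (a (l 16527304) (l 16543200)))) (b (a (c (l 16538128) (l 16516760)) (c (l 16560816) (l 16522904))) (a (c (b (l 16550088) (l 16547816)) (b (l 16555952) (l 16555472))) (b (c (l 16558240) (l 16565336)) (l 4))))) (a (b (a (c (b (l 16524592) (l 16532952)) (b (l 16534736) (l 16540920))) (c (b (l 16539944) (l 16548824)) (b (l 16547968) (l 16555824)))) (a (b (c (l 16545944) (l 16552896)) (l 4)) (l 4))) (b (l 4) (l 4)))) (l 4)), by decide +kernel⟩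

def k3_pp_022_a : ∃ t, chk3 f_pp_022_a t 5 1 1 = true :=
  ⟨(b (a (b (a (b (b (a (c (l 16576832) (l 16562648)) (c (l 16585808) (l 16591472))) (a (c (l 16570952) (l 16577352)) (l 4))) (l 4)) (l 4)) (l 4)) (l 4)) (l 4)), by decide +kernel⟩

def k4_pp_022_a : ∃ t, chk3 f_pp_022_a t 3 1 1 = true :=
  ⟨(l 4), by decide +kernel⟩

theorem s5_pp_022_a : ∃ t, chk3 f_pp_022_a t 8 1 1 = true := ex3_b k0_pp_022_a k1_pp_022_a

theorem s6_pp_022_a : ∃ t, chk3 f_pp_022_a t 4 1 1 = true := ex3_a s5_pp_022_a k2_pp_022_a

theorem s7_pp_022_a : ∃ t, chk3 f_pp_022_a t 2 1 1 = true := ex3_a s6_pp_022_a k3_pp_022_a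

theorem s8_pp_022_a : ∃ t, chk3 f_pp_022_a t 1 1 1 = true := ex3_a s7_pp_022_a k4_pp_022_a

theorem c_pp_022_a : CertB 0 536870912 0 536870912 991146299 28908434 3 eng mog cd0q0 cd2q2a pd2 true true true .pp 0 2 2
    ndB0q0 ndB2q2a pcB2 cut_pp_022_a Ext.none :=
  certB0 (fam := true) (s1 := true) (s2 := true) (a := 0) (b := 2) (c := 2) (cn := .pp) (n1 := ndB0q0) (n2 := ndB2q2a) (pc := pcB2) (cut := cut_pp_022_a) (xt := Ext.none) (P1 := 0) (W1 := 536870912) (P2 := 0) (W2 := 536870912) (P3 := 991146299) (W3 := 28908434) (N0 := 3) (En := eng) (mo := mog) (C1 := cd0q0) (C2 := cd2q2a) (C3 := pd2)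
    rfl s8_pp_022_a

noncomputable def cut_pp_022_b : Cut := Cut.of [[⟨0, 0, 0, 53687091⟩, ⟨1, 1, 0, 53687091⟩, ⟨2, 1, 0, 53687091⟩]]

noncomputable def f_pp_022_b : ℕ → ℕ → ℕ → ℕ → Bool := onCell 0 536870912 1073741824 536870912 991146299 28908434
    (rowB 3 eng mog cd0q0 cd2q2b pd2 1 true true true .pp 0 2 2 (qsf 0 536870912 1239849684 370763052 2) ndB0q0 ndB2q2b pcB2 cut_pp_022_b Ext.none)

def k0_pp_022_b : ∃ t, chk3 f_pp_022_b t 1 1 1 = true :=
  ⟨(b (a (b (l 1) (a (b (a (b (a (b (l 1) (l 304438382519)) (l 1)) (a (b (c (l 16352952) (l 16358256)) (c (l 16339936) (l 16395992))) (b (l 1) (l 308733538375)))) (l 1)) (a (b (a (b (c (l 16320072) (l 16382792)) (l 16285232)) (b (a (l 16448544) (l 16462960)) (c (l 16467216) (l 16461808)))) (a (c (l 16284936) (l 16313400)) (b (c (l 16434240) (l 16429232)) (l 16240672)))) (b (a (b (l 1) (l 440266966167)) (l 1)) (a (b (b (l 432750776999) (l 416107753399)) (a (l 16460608) (l 268468246503))) (b (l 1) (c (l 415571058919) (l 445635735303))))))) (l 1))) (l 1)) (a (b (b (a (a (b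 (a (c (l 16196608) (l 16222200)) (b (l 16257784) (l 16310432))) (a (b (l 16062464) (l 16041728)) (b (l 16252216) (l 16083728)))) (b (a (b (c (l 16472856) (l 16445808)) (c (l 16434224) (l 16439536))) (b (c (l 416107886407) (l 428455848775)) (c (l 16522168) (l 16499024)))) (a (b (c (l 16378176) (l 16393464)) (c (l 16276288) (l 16326096))) (b (c (l 16501008) (l 16502024)) (c (l 16441104) (l 16448080)))))) (a (b (a (b (l 1) (c (l 440804046951) (l 396243766327))) (l 1)) (a (b (c (l 418255455575) (l 436509018679)) (b (l 404833599991) (c (l 16542432) (l 16547104)))) (b (l 1) (b (l 1) (l 466037046247))))) (l 1))) (b (b (a (a (a (l 15959184) (l 16027976)) (l 4)) (a (l 4) (l 1))) (l 4)) (l 4))) (l 4)) (a (b (l 1) (l 4)) (l 1)))), by decide +kernel⟩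

theorem c_pp_022_b : CertB 0 536870912 1239849684 370763052 991146299 28908434 3 eng mog cd0q0 cd2q2b pd2 true true true .pp 0 2 2
    ndB0q0 ndB2q2b pcB2 cut_pp_022_b Ext.none :=
  certB1 (fam := true) (s1 := true) (s2 := true) (a := 0) (b := 2) (c := 2) (cn := .pp) (n1 := ndB0q0) (n2 := ndB2q2b) (pc := pcB2) (cut := cut_pp_022_b) (xt := Ext.none) (P1 := 0) (W1 := 536870912) (P2 := 1239849684) (W2 := 370763052) (P3 := 991146299) (W3 := 28908434) (N0 := 3) (En := eng) (mo := mog) (C1 := cd0q0) (C2 := cd2q2b) (C3 := pd2)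
    rfl (fun _ => rfl) k0_pp_022_b

noncomputable def f_pp_023_a : ℕ → ℕ → ℕ → ℕ → Bool := onCell 0 536870912 0 536870912 991146299 28908434
    (rowB 3 eng mog cd0q0 cd2q2a pd3 0 true true true .up 0 2 3 (qsf 0 536870912 0 536870912 3) ndB0q0 ndB2q2a pcB3 Cut.none Ext.none)

def k0_pp_023_a : ∃ t, chk3 f_pp_023_a t 1 1 1 = true :=
  ⟨(a (l 1) (l 4)), by decide +kernel⟩

theorem c_pp_023_a : CertB 0 536870912 0 536870912 991146299 28908434 3 eng mog cd0q0 cd2q2a pd3 true true true .up 0 2 3
    ndB0q0 ndB2q2a pcB3 Cut.none Ext.none :=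
  certB0 (fam := true) (s1 := true) (s2 := true) (a := 0) (b := 2) (c := 3) (cn := .up) (n1 := ndB0q0) (n2 := ndB2q2a) (pc := pcB3) (cut := Cut.none) (xt := Ext.none) (P1 := 0) (W1 := 536870912) (P2 := 0) (W2 := 536870912) (P3 := 991146299) (W3 := 28908434) (N0 := 3) (En := eng) (mo := mog) (C1 := cd0q0) (C2 := cd2q2a) (C3 := pd3)
    rfl k0_pp_023_a

noncomputable def f_pp_023_b : ℕ → ℕ → ℕ → ℕ → Bool := onCell 0 536870912 1610612736 536870912 991146299 28908434
    (rowB 3 eng mog cd0q0 cd2q2b pd3 1 true true true .up 0 2 3 (qsf 0 536870912 1239849684 370763052 3) ndB0q0 ndB2q2b pcB3 Cut.none Ext.none)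

def k0_pp_023_b : ∃ t, chk3 f_pp_023_b t 1 1 1 = true :=
  ⟨(b (l 4) (l 4)), by decide +kernel⟩

theorem c_pp_023_b : CertB 0 536870912 1239849684 370763052 991146299 28908434 3 eng mog cd0q0 cd2q2b pd3 true true true .up 0 2 3
    ndB0q0 ndB2q2b pcB3 Cut.none Ext.none :=
  certB1 (fam := true) (s1 := true) (s2 := true) (a := 0) (b := 2) (c := 3) (cn := .up) (n1 := ndB0q0) (n2 := ndB2q2b) (pc := pcB3) (cut := Cut.none) (xt := Ext.none) (P1 := 0) (W1 := 536870912) (P2 := 1239849684) (W2 := 370763052) (P3 := 991146299) (W3 := 28908434) (N0 := 3) (En := eng) (mo := mog) (C1 := cd0q0) (C2 := cd2q2b) (C3 := pd3)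
    rfl (fun _ => rfl) k0_pp_023_b

noncomputable def f_pp_033 : ℕ → ℕ → ℕ → ℕ → Bool := onCell 0 536870912 1610612736 536870912 991146299 28908434
    (rowB 3 eng mog cd0q0 cd2q3 pd3 0 true true true .pnn 0 3 3 (qsf 0 536870912 1610612736 536870912 3) ndB0q0 ndB2q3 pcB3 Cut.none Ext.none)

def k0_pp_033 : ∃ t, chk3 f_pp_033 t 1 1 1 = true :=
  ⟨(a (l 4) (l 4)), by decide +kernel⟩

theorem c_pp_033 : CertB 0 536870912 1610612736 536870912 991146299 28908434 3 eng mog cd0q0 cd2q3 pd3 true true true .pnn 0 3 3
    ndB0q0 ndB2q3 pcB3 Cut.none Ext.none :=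
  certB0 (fam := true) (s1 := true) (s2 := true) (a := 0) (b := 3) (c := 3) (cn := .pnn) (n1 := ndB0q0) (n2 := ndB2q3) (pc := pcB3) (cut := Cut.none) (xt := Ext.none) (P1 := 0) (W1 := 536870912) (P2 := 1610612736) (W2 := 536870912) (P3 := 991146299) (W3 := 28908434) (N0 := 3) (En := eng) (mo := mog) (C1 := cd0q0) (C2 := cd2q3) (C3 := pd3)
    rfl k0_pp_033

noncomputable def f_pp_101 : ℕ → ℕ → ℕ → ℕ → Bool := onCell 536870912 536870912 0 536870912 991146299 28908434
    (rowB 3 eng mog cd0q1 cd2q0 pd1 0 true true true .npn 1 0 1 (qsf 536870912 536870912 0 536870912 1) ndB0q1 ndB2q0 pcB1 Cut.none Ext.none)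

def k0_pp_101 : ∃ t, chk3 f_pp_101 t 1 1 1 = true :=
  ⟨(l 5), by decide +kernel⟩

theorem c_pp_101 : CertB 536870912 536870912 0 536870912 991146299 28908434 3 eng mog cd0q1 cd2q0 pd1 true true true .npn 1 0 1
    ndB0q1 ndB2q0 pcB1 Cut.none Ext.none :=
  certB0 (fam := true) (s1 := true) (s2 := true) (a := 1) (b := 0) (c := 1) (cn := .npn) (n1 := ndB0q1) (n2 := ndB2q0) (pc := pcB1) (cut := Cut.none) (xt := Ext.none) (P1 := 536870912) (W1 := 536870912) (P2 := 0) (W2 := 536870912) (P3 := 991146299) (W3 := 28908434) (N0 := 3) (En := eng) (mo := mog) (C1 := cd0q1) (C2 := cd2q0) (C3 := pd1)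
    rfl k0_pp_101

noncomputable def f_pp_102 : ℕ → ℕ → ℕ → ℕ → Bool := onCell 536870912 536870912 0 536870912 991146299 28908434
    (rowB 3 eng mog cd0q1 cd2q0 pd2 0 true true true .npp 1 0 2 (qsf 536870912 536870912 0 536870912 2) ndB0q1 ndB2q0 pcB2 Cut.none Ext.none)

def k0_pp_102 : ∃ t, chk3 f_pp_102 t 1 1 1 = true :=
  ⟨(l 5), by decide +kernel⟩

theorem c_pp_102 : CertB 536870912 536870912 0 536870912 991146299 28908434 3 eng mog cd0q1 cd2q0 pd2 true true true .npp 1 0 2
    ndB0q1 ndB2q0 pcB2 Cut.none Ext.none :=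
  certB0 (fam := true) (s1 := true) (s2 := true) (a := 1) (b := 0) (c := 2) (cn := .npp) (n1 := ndB0q1) (n2 := ndB2q0) (pc := pcB2) (cut := Cut.none) (xt := Ext.none) (P1 := 536870912) (W1 := 536870912) (P2 := 0) (W2 := 536870912) (P3 := 991146299) (W3 := 28908434) (N0 := 3) (En := eng) (mo := mog) (C1 := cd0q1) (C2 := cd2q0) (C3 := pd2)
    rfl k0_pp_102

noncomputable def f_pp_112 : ℕ → ℕ → ℕ → ℕ → Bool := onCell 536870912 536870912 536870912 536870912 991146299 28908434
    (rowB 3 eng mog cd0q1 cd2q1 pd2 0 true true true .dn 1 1 2 (qsf 536870912 536870912 536870912 536870912 2) ndB0q1 ndB2q1 pcB2 Cut.none Ext.none)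

def k0_pp_112 : ∃ t, chk3 f_pp_112 t 1 1 1 = true :=
  ⟨(l 4), by decide +kernel⟩

theorem c_pp_112 : CertB 536870912 536870912 536870912 536870912 991146299 28908434 3 eng mog cd0q1 cd2q1 pd2 true true true .dn 1 1 2
    ndB0q1 ndB2q1 pcB2 Cut.none Ext.none :=
  certB0 (fam := true) (s1 := true) (s2 := true) (a := 1) (b := 1) (c := 2) (cn := .dn) (n1 := ndB0q1) (n2 := ndB2q1) (pc := pcB2) (cut := Cut.none) (xt := Ext.none) (P1 := 536870912) (W1 := 536870912) (P2 := 536870912) (W2 := 536870912) (P3 := 991146299) (W3 := 28908434) (N0 := 3) (En := eng) (mo := mog) (C1 := cd0q1) (C2 := cd2q1) (C3 := pd2)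
    rfl k0_pp_112

noncomputable def f_pp_113 : ℕ → ℕ → ℕ → ℕ → Bool := onCell 536870912 536870912 536870912 536870912 991146299 28908434
    (rowB 3 eng mog cd0q1 cd2q1 pd3 0 true true true .nn 1 1 3 (qsf 536870912 536870912 536870912 536870912 3) ndB0q1 ndB2q1 pcB3 Cut.none Ext.none)

def k0_pp_113 : ∃ t, chk3 f_pp_113 t 1 1 1 = true :=
  ⟨(l 4), by decide +kernel⟩

theorem c_pp_113 : CertB 536870912 536870912 536870912 536870912 991146299 28908434 3 eng mog cd0q1 cd2q1 pd3 true true true .nn 1 1 3
    ndB0q1 ndB2q1 pcB3 Cut.none Ext.none :=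
  certB0 (fam := true) (s1 := true) (s2 := true) (a := 1) (b := 1) (c := 3) (cn := .nn) (n1 := ndB0q1) (n2 := ndB2q1) (pc := pcB3) (cut := Cut.none) (xt := Ext.none) (P1 := 536870912) (W1 := 536870912) (P2 := 536870912) (W2 := 536870912) (P3 := 991146299) (W3 := 28908434) (N0 := 3) (En := eng) (mo := mog) (C1 := cd0q1) (C2 := cd2q1) (C3 := pd3)
    rfl k0_pp_113

noncomputable def f_pp_123_a : ℕ → ℕ → ℕ → ℕ → Bool := onCell 536870912 536870912 0 536870912 991146299 28908434
    (rowB 3 eng mog cd0q1 cd2q2a pd3 0 true true true .npn 1 2 3 (qsf 536870912 536870912 0 536870912 3) ndB0q1 ndB2q2a pcB3 Cut.none Ext.none)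

def k0_pp_123_a : ∃ t, chk3 f_pp_123_a t 1 1 1 = true :=
  ⟨(l 4), by decide +kernel⟩

theorem c_pp_123_a : CertB 536870912 536870912 0 536870912 991146299 28908434 3 eng mog cd0q1 cd2q2a pd3 true true true .npn 1 2 3
    ndB0q1 ndB2q2a pcB3 Cut.none Ext.none :=
  certB0 (fam := true) (s1 := true) (s2 := true) (a := 1) (b := 2) (c := 3) (cn := .npn) (n1 := ndB0q1) (n2 := ndB2q2a) (pc := pcB3) (cut := Cut.none) (xt := Ext.none) (P1 := 536870912) (W1 := 536870912) (P2 := 0) (W2 := 536870912) (P3 := 991146299) (W3 := 28908434) (N0 := 3) (En := eng) (mo := mog) (C1 := cd0q1) (C2 := cd2q2a) (C3 := pd3)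
    rfl k0_pp_123_a

noncomputable def f_pp_123_b : ℕ → ℕ → ℕ → ℕ → Bool := onCell 536870912 536870912 1239849684 370763052 991146299 28908434
    (rowB 3 eng mog cd0q1 cd2q2b pd3 0 true true true .npn 1 2 3 (qsf 536870912 536870912 1239849684 370763052 3) ndB0q1 ndB2q2b pcB3 Cut.none Ext.none)

def k0_pp_123_b : ∃ t, chk3 f_pp_123_b t 1 1 1 = true :=
  ⟨(l 4), by decide +kernel⟩

theorem c_pp_123_b : CertB 536870912 536870912 1239849684 370763052 991146299 28908434 3 eng mog cd0q1 cd2q2b pd3 true true true .npn 1 2 3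
    ndB0q1 ndB2q2b pcB3 Cut.none Ext.none :=
  certB0 (fam := true) (s1 := true) (s2 := true) (a := 1) (b := 2) (c := 3) (cn := .npn) (n1 := ndB0q1) (n2 := ndB2q2b) (pc := pcB3) (cut := Cut.none) (xt := Ext.none) (P1 := 536870912) (W1 := 536870912) (P2 := 1239849684) (W2 := 370763052) (P3 := 991146299) (W3 := 28908434) (N0 := 3) (En := eng) (mo := mog) (C1 := cd0q1) (C2 := cd2q2b) (C3 := pd3)
    rfl k0_pp_123_b

noncomputable def f_pp_133 : ℕ → ℕ → ℕ → ℕ → Bool := onCell 536870912 536870912 1610612736 536870912 991146299 28908434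
    (rowB 3 eng mog cd0q1 cd2q3 pd3 0 true true true .dn 1 3 3 (qsf 536870912 536870912 1610612736 536870912 3) ndB0q1 ndB2q3 pcB3 Cut.none Ext.none)

def k0_pp_133 : ∃ t, chk3 f_pp_133 t 1 1 1 = true :=
  ⟨(l 4), by decide +kernel⟩

theorem c_pp_133 : CertB 536870912 536870912 1610612736 536870912 991146299 28908434 3 eng mog cd0q1 cd2q3 pd3 true true true .dn 1 3 3
    ndB0q1 ndB2q3 pcB3 Cut.none Ext.none :=
  certB0 (fam := true) (s1 := true) (s2 := true) (a := 1) (b := 3) (c := 3) (cn := .dn) (n1 := ndB0q1) (n2 := ndB2q3) (pc := pcB3) (cut := Cut.none) (xt := Ext.none) (P1 := 536870912) (W1 := 536870912) (P2 := 1610612736) (W2 := 536870912) (P3 := 991146299) (W3 := 28908434) (N0 := 3) (En := eng) (mo := mog) (C1 := cd0q1) (C2 := cd2q3) (C3 := pd3)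
    rfl k0_pp_133

noncomputable def f_pp_202 : ℕ → ℕ → ℕ → ℕ → Bool := onCell 0 536870912 0 536870912 991146299 28908434
    (rowB 3 eng mog cd0q2 cd2q0 pd2 0 true true true .pp 2 0 2 (qsf 0 536870912 0 536870912 2) ndB0q2 ndB2q0 pcB2 Cut.none Ext.none)

def k0_pp_202 : ∃ t, chk3 f_pp_202 t 1 1 1 = true :=
  ⟨(l 5), by decide +kernel⟩

theorem c_pp_202 : CertB 0 536870912 0 536870912 991146299 28908434 3 eng mog cd0q2 cd2q0 pd2 true true true .pp 2 0 2
    ndB0q2 ndB2q0 pcB2 Cut.none Ext.none :=
  certB0 (fam := true) (s1 := true) (s2 := true) (a := 2) (b := 0) (c := 2) (cn := .pp) (n1 := ndB0q2) (n2 := ndB2q0) (pc := pcB2) (cut := Cut.none) (xt := Ext.none) (P1 := 0) (W1 := 536870912) (P2 := 0) (W2 := 536870912) (P3 := 991146299) (W3 := 28908434) (N0 := 3) (En := eng) (mo := mog) (C1 := cd0q2) (C2 := cd2q0) (C3 := pd2)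
    rfl k0_pp_202

noncomputable def f_pp_203 : ℕ → ℕ → ℕ → ℕ → Bool := onCell 0 536870912 0 536870912 991146299 28908434
    (rowB 3 eng mog cd0q2 cd2q0 pd3 0 true true true .up 2 0 3 (qsf 0 536870912 0 536870912 3) ndB0q2 ndB2q0 pcB3 Cut.none Ext.none)

def k0_pp_203 : ∃ t, chk3 f_pp_203 t 1 1 1 = true :=
  ⟨(l 5), by decide +kernel⟩

theorem c_pp_203 : CertB 0 536870912 0 536870912 991146299 28908434 3 eng mog cd0q2 cd2q0 pd3 true true true .up 2 0 3
    ndB0q2 ndB2q0 pcB3 Cut.none Ext.none :=
  certB0 (fam := true) (s1 := true) (s2 := true) (a := 2) (b := 0) (c := 3) (cn := .up) (n1 := ndB0q2) (n2 := ndB2q0) (pc := pcB3) (cut := Cut.none) (xt := Ext.none) (P1 := 0) (W1 := 536870912) (P2 := 0) (W2 := 536870912) (P3 := 991146299) (W3 := 28908434) (N0 := 3) (En := eng) (mo := mog) (C1 := cd0q2) (C2 := cd2q0) (C3 := pd3)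
    rfl k0_pp_203

noncomputable def f_pp_213 : ℕ → ℕ → ℕ → ℕ → Bool := onCell 0 536870912 536870912 536870912 991146299 28908434
    (rowB 3 eng mog cd0q2 cd2q1 pd3 0 true true true .pnn 2 1 3 (qsf 0 536870912 536870912 536870912 3) ndB0q2 ndB2q1 pcB3 Cut.none Ext.none)

def k0_pp_213 : ∃ t, chk3 f_pp_213 t 1 1 1 = true :=
  ⟨(l 4), by decide +kernel⟩

theorem c_pp_213 : CertB 0 536870912 536870912 536870912 991146299 28908434 3 eng mog cd0q2 cd2q1 pd3 true true true .pnn 2 1 3
    ndB0q2 ndB2q1 pcB3 Cut.none Ext.none :=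
  certB0 (fam := true) (s1 := true) (s2 := true) (a := 2) (b := 1) (c := 3) (cn := .pnn) (n1 := ndB0q2) (n2 := ndB2q1) (pc := pcB3) (cut := Cut.none) (xt := Ext.none) (P1 := 0) (W1 := 536870912) (P2 := 536870912) (W2 := 536870912) (P3 := 991146299) (W3 := 28908434) (N0 := 3) (En := eng) (mo := mog) (C1 := cd0q2) (C2 := cd2q1) (C3 := pd3)
    rfl k0_pp_213

noncomputable def f_pm_001 : ℕ → ℕ → ℕ → ℕ → Bool := onCell 0 536870912 0 536870912 991146299 28908434
    (rowB 3 eng mog cd0q0 cd2q0 pd1 0 true true false .up 0 0 1 (qsf 0 536870912 0 536870912 1) ndB0q0 ndB2q0 pcB1 Cut.none Ext.none)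

def k0_pm_001 : ∃ t, chk3 f_pm_001 t 1 1 1 = true :=
  ⟨(l 3), by decide +kernel⟩

theorem c_pm_001 : CertB 0 536870912 0 536870912 991146299 28908434 3 eng mog cd0q0 cd2q0 pd1 true true false .up 0 0 1
    ndB0q0 ndB2q0 pcB1 Cut.none Ext.none :=
  certB0 (fam := true) (s1 := true) (s2 := false) (a := 0) (b := 0) (c := 1) (cn := .up) (n1 := ndB0q0) (n2 := ndB2q0) (pc := pcB1) (cut := Cut.none) (xt := Ext.none) (P1 := 0) (W1 := 536870912) (P2 := 0) (W2 := 536870912) (P3 := 991146299) (W3 := 28908434) (N0 := 3) (En := eng) (mo := mog) (C1 := cd0q0) (C2 := cd2q0) (C3 := pd1)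
    rfl k0_pm_001

noncomputable def f_pm_011 : ℕ → ℕ → ℕ → ℕ → Bool := onCell 0 536870912 536870912 536870912 991146299 28908434
    (rowB 3 eng mog cd0q0 cd2q1 pd1 1 true true false .pnn 0 1 1 (qsf 0 536870912 536870912 536870912 1) ndB0q0 ndB2q1 pcB1 Cut.none Ext.none)

def k0_pm_011 : ∃ t, chk3 f_pm_011 t 1 1 1 = true :=
  ⟨(l 3), by decide +kernel⟩

theorem c_pm_011 : CertB 0 536870912 536870912 536870912 991146299 28908434 3 eng mog cd0q0 cd2q1 pd1 true true false .pnn 0 1 1
    ndB0q0 ndB2q1 pcB1 Cut.none Ext.none :=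
  certB1 (fam := true) (s1 := true) (s2 := false) (a := 0) (b := 1) (c := 1) (cn := .pnn) (n1 := ndB0q0) (n2 := ndB2q1) (pc := pcB1) (cut := Cut.none) (xt := Ext.none) (P1 := 0) (W1 := 536870912) (P2 := 536870912) (W2 := 536870912) (P3 := 991146299) (W3 := 28908434) (N0 := 3) (En := eng) (mo := mog) (C1 := cd0q0) (C2 := cd2q1) (C3 := pd1)
    rfl (fun _ => rfl) k0_pm_011

noncomputable def f_pm_012 : ℕ → ℕ → ℕ → ℕ → Bool := onCell 0 536870912 1073741824 536870912 991146299 28908434
    (rowB 3 eng mog cd0q0 cd2q1 pd2 1 true true false .pnp 0 1 2 (qsf 0 536870912 536870912 536870912 2) ndB0q0 ndB2q1 pcB2 Cut.none Ext.none)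

def k0_pm_012 : ∃ t, chk3 f_pm_012 t 1 4 1 = true :=
  ⟨(b (l 3) (a (a (l 3) (a (l 3) (l 3))) (a (b (l 3) (a (b (l 3) (a (b (l 3) (c (a (l 211157387959) (l 233168979751)) (a (l 450064810487) (l 16383568)))) (a (b (l 3) (c (l 253569952807) (l 16300688))) (b (c (l 284708349175) (l 16243240)) (c (l 270749705847) (l 16241400)))))) (a (b (l 3) (b (c (a (l 187534605543) (l 216525530807)) (l 213841232183)) (c (a (l 16207264) (l 16182104)) (l 16178392)))) (b (b (l 3) (c (l 451674911143) (l 469391557479))) (b (c (c (l 240684628023) (l 16083160)) (l 16081064)) (c (l 16117200) (l 16054192))))))) (b (b (l 3) (a (l 3) (a (l 3) (b (l 3) (a (l 15797968) (l 15768856)))))) (a (a (b (b (l 3) (c (l 196124175575) (l 15966744))) (b (c (l 16019296) (l 15963856)) (c (l 16037496) (l 15961080)))) (b (b (c (l 15953456) (l 15887200)) (c (l 15950152) (l 15884224))) (b (a (l 15943656) (l 15907016)) (l 15921760)))) (a (b (c (b (l 15929920) (l 15905504)) (l 15791776)) (b (l 15855624) (l 15851504))) (b (b (c (l 15849096) (l 15750960)) (l 15797104))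 (b (l 15793296) (l 15788688))))))))), by decide +kernel⟩

def k1_pm_012 : ∃ t, chk3 f_pm_012 t 4 5 1 = true :=
  ⟨(b (b (b (a (l 2) (l 3)) (l 2)) (l 2)) (l 2)), by decide +kernel⟩

def k2_pm_012 : ∃ t, chk3 f_pm_012 t 10 5 1 = true :=
  ⟨(b (b (b (b (l 3) (b (a (l 3) (c (a (c (l 270749829175) (l 267528563879)) (l 283097928487)) (a (l 277192173191) (l 16396224)))) (a (a (c (c (a (l 2) (b (l 3) (l 386176984759))) (l 407651657367)) (l 416241564439)) (c (c (b (l 431274150359) (l 260012322679)) (l 267528460647)) (l 278802648951))) (c (a (c (l 271823556247) (l 16349432)) (l 16412816)) (a (l 16327832) (l 16391680)))))) (a (a (a (l 2) (b (b (c (b (c (l 16253496) (l 16233616)) (l 2)) (l 16180416)) (l 2)) (l 2))) (b (b (c (b (c (l 16279232) (l 16262104)) (l 16267880)) (l 16255104)) (c (b (l 16265104) (l 16262400)) (l 16249648))) (b (b (c (l 16259760) (l 16245264)) (l 16270960)) (b (c (l 16277240) (l 16240768)) (l 16282784))))) (a (b (b (c (l 16350712) (l 16322904)) (c (l 16345336) (l 16317528))) (b (b (l 16327592) (l 16324920))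 (b (a (l 16309136) (l 16341568)) (l 16329544)))) (b (b (c (l 16407312) (l 16386808)) (l 16329072)) (b (b (l 16388016) (l 16386128)) (b (l 16388792) (l 16393184))))))) (a (a (l 2) (b (l 16250776) (l 2))) (b (a (l 16319000) (l 16383088)) (a (l 16294952) (l 16360144))))) (a (l 2) (b (a (l 2) (l 16323952)) (l 2)))), by decide +kernel⟩

def k3_pm_012 : ∃ t, chk3 f_pm_012 t 11 5 1 = true :=
  ⟨(a (b (b (b (b (b (l 3) (c (a (l 270213144663) (l 16504000)) (l 299204116167))) (c (a (b (l 16470944) (l 16465336)) (l 16474640)) (b (l 300814721767) (l 16438144)))) (b (b (c (l 16421912) (l 16433344)) (c (l 16437920) (l 16449136))) (b (c (b (l 16435360) (l 16436256)) (l 16383544)) (b (l 16393360) (l 16397128))))) (b (l 16387624) (l 16387136))) (b (a (l 16386728) (l 16445304)) (l 16368424))) (b (b (b (c (b (a (l 284708841351) (l 291151146327)) (a (l 16555768) (l 16493936))) (b (b (l 410336461863) (l 16465216)) (l 16454080))) (b (b (l 16420920) (a (l 16550096) (l 16491480))) (b (a (l 16550792) (l 16485416)) (a (l 16503024) (l 16434872)))))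 (l 16401696)) (b (l 16469032) (l 16482056)))), by decide +kernel⟩

def k4_pm_012 : ∃ t, chk3 f_pm_012 t 3 5 1 = true :=
  ⟨(b (a (b (b (a (a (b (c (b (a (l 16435928) (l 16379984)) (l 16344392)) (a (l 16425776) (l 16360896))) (c (a (l 16434920) (l 16378560)) (l 16371048))) (b (c (b (l 16300856) (l 16300128)) (l 16289832)) (c (l 16319232) (l 16267168)))) (b (a (c (l 16203120) (l 16155312)) (c (l 16114280) (l 16051576))) (a (c (l 16199144) (l 16152504)) (c (l 16108440) (l 16047416))))) (b (a (a (b (a (l 16429192) (l 16367872)) (a (l 16426488) (l 16363544))) (b (a (l 16308728) (l 16251448)) (l 16274792))) (a (l 16168288) (l 16070200))) (a (b (a (l 16388296) (l 16269064)) (a (b (l 16382288) (l 16378360)) (b (l 16263872) (l 16260504)))) (b (a (l 16161120) (l 16063848)) (a (b (l 16156640) (l 16153768)) (l 16100840)))))) (a (a (l 16333304) (l 16256112)) (a (l 16148336) (l 16051280)))) (b (b (a (b (a (a (l 16017112) (l 15975424)) (l 15916648)) (a (l 15989480) (l 15910448))) (a (l 15843192) (l 15781336))) (a (a (b (l 15982312)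 (b (l 15976688) (l 16004016))) (b (l 15904040) (b (l 15899072) (l 15916688)))) (b (a (l 15834768) (l 15773816)) (b (l 15799552) (a (l 15827688) (b (l 15768184) (l 15747032))))))) (a (a (l 15964352) (l 15886976)) (a (l 15818560) (l 15761168))))) (a (a (a (b (l 16354184) (l 16380912)) (b (l 16252384) (l 16253336))) (a (l 16140112) (l 16039072))) (a (a (l 15948864) (l 15868824)) (a (l 15798400) (b (l 15747600) (l 15734992)))))), by decide +kernel⟩

def k5_pm_012 : ∃ t, chk3 f_pm_012 t 1 3 1 = true :=
  ⟨(a (a (l 2) (b (a (l 2) (b (a (l 2) (b (l 16435560) (l 2))) (l 2))) (l 2))) (a (b (a (b (a (l 16195952) (l 16183488)) (a (l 2) (l 16318776))) (b (a (l 16144328) (l 16034856)) (a (l 16176584) (l 16052584)))) (a (l 2) (b (a (l 2) (l 16107648)) (l 2)))) (b (a (b (a (l 15937752) (l 15852056)) (a (l 15944016) (l 15849064))) (b (a (l 15776992) (l 15718536)) (a (l 15766456) (l 15681088)))) (a (b (a (l 15978448) (l 15867976)) (a (l 2) (l 15924184))) (b (a (l 15773168) (l 15676040)) (a (l 15807832) (l 15712352))))))), by decide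 +kernel⟩

theorem s6_pm_012 : ∃ t, chk3 f_pm_012 t 5 5 1 = true := ex3_a k2_pm_012 k3_pm_012

theorem s7_pm_012 : ∃ t, chk3 f_pm_012 t 2 5 1 = true := ex3_a k1_pm_012 s6_pm_012

theorem s8_pm_012 : ∃ t, chk3 f_pm_012 t 1 5 1 = true := ex3_a s7_pm_012 k4_pm_012

theorem s9_pm_012 : ∃ t, chk3 f_pm_012 t 1 2 1 = true := ex3_b k0_pm_012 s8_pm_012

theorem s10_pm_012 : ∃ t, chk3 f_pm_012 t 1 1 1 = true := ex3_b s9_pm_012 k5_pm_012

theorem c_pm_012 : CertB 0 536870912 536870912 536870912 991146299 28908434 3 eng mog cd0q0 cd2q1 pd2 true true false .pnp 0 1 2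
    ndB0q0 ndB2q1 pcB2 Cut.none Ext.none :=
  certB1 (fam := true) (s1 := true) (s2 := false) (a := 0) (b := 1) (c := 2) (cn := .pnp) (n1 := ndB0q0) (n2 := ndB2q1) (pc := pcB2) (cut := Cut.none) (xt := Ext.none) (P1 := 0) (W1 := 536870912) (P2 := 536870912) (W2 := 536870912) (P3 := 991146299) (W3 := 28908434) (N0 := 3) (En := eng) (mo := mog) (C1 := cd0q0) (C2 := cd2q1) (C3 := pd2)
    rfl (fun _ => rfl) s10_pm_012

noncomputable def cut_pm_022_a : Cut := Cut.of [[⟨0, 0, 0, 53687091⟩, ⟨1, 1, 0, 53687091⟩, ⟨2, 1, 0, 53687091⟩]]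

noncomputable def f_pm_022_a : ℕ → ℕ → ℕ → ℕ → Bool := onCell 1073741824 536870912 0 536870912 991146299 28908434
    (rowB 3 eng mog cd0q0 cd2q2a pd2 2 true true false .pp 0 2 2 (qsf 0 536870912 0 536870912 2) ndB0q0 ndB2q2a pcB2 cut_pm_022_a Ext.none)

def k0_pm_022_a : ∃ t, chk3 f_pm_022_a t 8 1 1 = true :=
  ⟨(b (l 1) (b (l 1) (a (b (l 1) (l 6)) (a (b (b (l 1) (b (l 1) (l 6))) (l 6)) (b (b (a (l 1) (b (l 1) (c (l 16382728) (l 16358912)))) (b (a (c (b (l 16407112) (l 16434288)) (b (l 16364512) (l 16393816))) (c (l 16413752) (l 16380792))) (a (c (b (l 16462304) (l 16491168)) (b (l 16424016) (l 16455128))) (c (l 16490056) (l 16453400))))) (b (b (a (c (b (l 16520896) (l 16551496)) (b (l 16487152) (l 16520112))) (c (l 16548768) (l 16516528))) (a (c (b (l 16582968) (l 16615312)) (b (l 16554008) (l 16588856))) (c (l 16568968) (l 16562368)))) (b (a (c (a (l 16621320) (l 16626192)) (a (l 16598816) (l 16603560))) (b (l 16605952) (l 16619912))) (a (b (b (l 16657384) (l 16675776)) (c (c (l 16645488) (l 16653120)) (l 16665072)))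 (c (b (l 16652872) (l 16623792)) (a (l 16641448) (l 16628272))))))))))), by decide +kernel⟩

def k1_pm_022_a : ∃ t, chk3 f_pm_022_a t 9 2 1 = true :=
  ⟨(b (l 1) (a (l 1) (b (l 1) (a (l 1) (a (l 1) (b (l 1) (c (l 16236056) (l 16188960)))))))), by decide +kernel⟩

def k2_pm_022_a : ∃ t, chk3 f_pm_022_a t 9 6 1 = true :=
  ⟨(a (b (l 1) (b (a (l 1) (a (c (l 16249784) (l 16196464)) (c (l 16272928) (l 16243280)))) (a (a (l 1) (b (c (l 16284080) (l 16232432)) (c (l 16325528) (l 16276896)))) (a (b (c (l 16305384) (l 16256008)) (c (l 16346456) (l 16299936))) (c (l 16327584) (l 16282048)))))) (b (a (b (c (l 16214424) (l 16160704)) (a (c (l 16233520) (l 16181616)) (c (l 16259288) (l 16210680)))) (b (a (c (l 16233304) (l 16184992)) (c (l 16260816) (l 16216232))) (c (l 16236848) (l 16193424)))) (a (b (c (a (l 16297312) (l 16322864)) (a (l 16249576) (l 16278192))) (c (a (l 16372496) (l 16397760)) (a (l 16329592) (l 16357680)))) (b (c (l 16321384) (l 16281600)) (a (l 16343104) (l 16372752)))))), by decide +kernel⟩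

def k3_pm_022_a : ∃ t, chk3 f_pm_022_a t 9 7 1 = true :=
  ⟨(b (a (b (b (a (a (c (l 16351152) (l 16304032)) (c (l 16370048) (l 16324616))) (c (l 16380464) (l 16317088))) (c (a (a (l 16399320) (l 16417712)) (l 16427504)) (a (a (l 16355760) (l 16375672)) (l 16388272)))) (b (a (c (a (l 16450720) (l 16468568)) (a (l 16410928) (l 16430144))) (c (l 16477688) (l 16441848))) (a (a (c (l 16505408) (l 16469616)) (l 16421744)) (a (l 16504520) (l 16505416))))) (b (a (a (b (l 16417056) (l 16465088)) (b (l 16443344) (l 16491232))) (b (l 16401832) (l 16448696))) (a (b (a (l 16495488) (l 16520912)) (l 16477768)) (b (l 16497824) (l 16547408))))) (a (b (a (b (a (c (l 16563432) (l 16531880)) (l 16502144)) (a (c (l 16603872) (l 16576808)) (l 16544128))) (b (a (l 16542448) (l 16542344)) (b (l 16556160) (l 16587312)))) (a (b (a (a (l 16591320) (l 16619440)) (l 16606384)) (b (a (l 16613928) (l 16585296)) (a (c (l 16596800) (l 16633864)) (c (l 16590240) (l 16627016))))) (b (a (l 16576120) (l 16566984)) (c (a (b (l 16610672) (l 16583616))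 (l 16527024)) (a (l 16571800) (l 16563696)))))) (a (b (b (l 16533472) (c (l 16579008) (l 16579672))) (b (a (l 16536472) (l 16526464)) (c (a (l 16540496) (l 16511128)) (l 16456096)))) (b (a (l 16500016) (b (l 16550936) (l 16551312))) (a (b (l 16537560) (l 16424024)) (b (l 16505424) (l 16413320))))))), by decide +kernel⟩

def k4_pm_022_a : ∃ t, chk3 f_pm_022_a t 5 2 1 = true :=
  ⟨(a (a (b (a (l 1) (b (c (l 16096152) (l 16056120)) (c (l 16123784) (l 16084352)))) (a (b (a (l 1) (c (l 16142456) (l 16098120))) (b (c (l 16219184) (l 16112640)) (c (a (l 16241552) (l 16268376)) (a (l 16198392) (l 16229200))))) (b (c (b (l 16164760) (l 16204024)) (b (l 16126544) (l 16167096))) (b (c (l 16252488) (l 16217248)) (a (c (l 16295488) (l 16260328)) (a (l 16300552) (a (l 16311608) (b (l 16304040) (c (l 16348264) (l 16319232)))))))))) (b (c (b (a (l 16160256) (l 16226792)) (a (l 16185168) (l 16249032))) (b (l 16064672) (a (l 16155768) (l 16229816)))) (b (a (c (l 16243616) (l 16215240)) (c (l 16305424) (l 16286464))) (a (c (b (l 16309360)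 (l 16366144)) (b (l 16282720) (l 16341288))) (c (l 16312768) (l 16295616)))))) (b (a (a (b (l 16292088) (l 16289992)) (b (l 16368056) (l 16361896))) (b (a (l 16441392) (l 16469992)) (a (l 16451680) (l 16477176)))) (a (b (a (l 16237720) (a (l 16414200) (l 16445992))) (a (b (l 16382264) (l 16432944)) (l 16381464))) (b (a (l 16491488) (l 16470576)) (c (l 16450600) (l 16400368)))))), by decide +kernel⟩

def k5_pm_022_a : ∃ t, chk3 f_pm_022_a t 10 3 1 = true :=
  ⟨(b (a (a (b (b (a (l 16268936) (l 16299752)) (a (l 16323552) (l 16354888))) (b (a (l 16389120) (l 16400136)) (a (l 16424176) (l 16455616)))) (a (b (b (l 16331280) (l 16387336)) (b (l 16433184) (l 16467152))) (b (a (b (l 16355448) (l 16412720)) (a (b (l 16367824) (l 16426152)) (b (a (l 16310288) (l 16378424)) (l 16414336)))) (a (b (l 16479832) (l 16533504)) (a (b (l 16494096) (l 16568528)) (b (l 16461704) (l 16536160))))))) (a (b (b (a (l 16396056) (l 16427448)) (l 16427128)) (b (l 16471296) (l 16527264))) (b (b (l 16368536) (l 16504536)) (b (l 16555296) (l 16496168)))))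 (a (b (a (b (b (l 16482480) (l 16505240)) (c (l 16481648) (l 16502024))) (a (b (l 16563456) (l 16480720)) (a (b (l 16555984) (l 16493576)) (a (b (l 16539928) (l 16497288)) (b (l 16486616) (l 16422224)))))) (a (b (a (l 16476000) (l 16441464)) (a (b (l 16472360) (l 16401616)) (b (l 16438056) (l 16346616)))) (a (b (l 16383976) (b (l 16380520) (c (l 16350088) (l 16354472)))) (b (a (l 16396136) (a (l 16357024) (b (l 16428264) (b (l 16396728) (l 16332544))))) (b (a (l 16371360) (a (l 16352632) (a (c (l 16297200) (b (l 16333896) (l 16309040))) (l 16334816)))) (a (c (l 16320728) (l 16323144)) (a (c (l 16281256) (l 16303448)) (a (a (a (l 16272552) (a (l 16269728) (c (l 16288216) (l 16288640)))) (l 16265512)) (l 16263448))))))))) (b (b (c (l 16425224) (l 16413976)) (a (l 16391816) (l 16386040))) (b (a (b (l 16398664) (l 16356792)) (b (l 16353016) (l 16312584))) (a (b (c (l 16310984) (l 16311488)) (c (c (l 16242376) (l 16241056)) (a (l 16271712) (l 16249408)))) (c (b (l 16270528) (l 16202640)) (b (l 16266600) (l 16217088)))))))),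 by decide +kernel⟩

def k6_pm_022_a : ∃ t, chk3 f_pm_022_a t 11 3 1 = true :=
  ⟨(b (b (a (a (b (l 16466192) (l 16531056)) (b (l 16502272) (l 16481400))) (b (a (l 16434488) (l 16411632)) (l 16411608))) (a (b (l 16416824) (l 16381384)) (b (l 16388424) (l 16356584)))) (b (a (b (a (l 16420632) (l 16376160)) (a (l 16362104) (l 16320216))) (b (a (l 16334680) (l 16295608)) (a (l 16280728) (l 16243584)))) (b (a (a (c (l 16293536) (l 16288456)) (c (l 16256112) (l 16246520))) (a (c (l 16221024) (l 16206928)) (c (l 16188208) (l 16169616)))) (b (a (a (c (l 16232488) (l 16224168)) (l 16169464)) (c (l 16126760) (l 16128432))) (a (a (c (a (l 16195752) (l 16177952)) (l 16176016)) (c (l 16152392) (l 16137256))) (c (a (l 16120216) (l 16090224)) (a (l 16100728) (l 16066312)))))))), by decide +kernel⟩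

def k7_pm_022_a : ∃ t, chk3 f_pm_022_a t 3 2 1 = true :=
  ⟨(b (c (a (a (a (l 16374384) (l 16273096)) (a (l 16266272) (l 16205976))) (a (a (l 16154816) (l 16112432)) (a (l 16078464) (l 16052536)))) (a (a (a (b (l 16375136) (l 16389328)) (l 16158336)) (a (l 16093448) (l 16038880))) (a (a (l 15994264) (l 16001384)) (a (l 15955248) (l 15918744))))) (a (a (a (b (a (l 16424288) (l 16380768)) (c (l 16350272) (l 16328096))) (b (a (l 16340128) (l 16302144)) (a (l 16323432) (l 16288216)))) (a (b (c (l 16276792) (l 16221632)) (c (l 16263000) (l 16215232))) (b (c (l 16221272) (l 16152704)) (c (l 16211456) (l 16151472))))) (a (a (b (c (l 16174328) (l 16092896)) (c (l 16168040) (l 16096344))) (c (b (l 16135552) (l 16132344)) (b (l 16042064) (l 16049648)))) (a (b (l 16053264) (a (l 16065872) (l 16051104))) (c (l 16082024) (b (l 15966816) (l 15980896))))))), by decide +kernel⟩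

def k8_pm_022_a : ∃ t, chk3 f_pm_022_a t 3 3 1 = true :=
  ⟨(a (b (a (b (a (c (b (l 16361312) (l 16337448)) (b (l 16341600) (l 16318432))) (c (b (l 16296080) (l 16272432)) (b (l 16264584) (l 16242752)))) (a (b (l 16308384) (l 16279840)) (b (l 16237912) (l 16212232)))) (b (a (c (b (l 16239632) (l 16217536)) (b (l 16196672) (l 16177376))) (c (l 16181744) (a (l 16142504) (l 16115136)))) (a (b (l 16176480) (l 16153400)) (b (a (l 16135256) (l 16111072)) (l 16102864))))) (a (b (a (b (a (l 16258880) (l 16224432)) (a (l 16208720) (l 16176064))) (b (l 16177104) (c (l 16147072) (l 16115160)))) (a (b (a (l 16146120) (l 16094432)) (c (a (l 16062064) (b (l 16076328) (l 16036480))) (a (l 16055824) (l 16024920)))) (b (c (l 16069512) (l 16055952)) (c (a (l 16032136) (l 16009424)) (c (l 15992216) (l 15972680)))))) (b (a (b (l 16121104) (l 16092792)) (b (l 16073080) (l 16033056))) (a (b (c (l 16045208) (l 16001856)) (c (l 15957824) (l 15932176))) (b (c (l 16006736) (l 15955248)) (a (l 15904344) (l 15886144))))))) (b (a (b (a (c (l 16141920)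 (l 16078752)) (c (l 16109840) (l 16036872))) (b (a (c (l 16088032) (l 16050760)) (a (l 16053856) (l 16038752))) (a (l 16060160) (l 16024816)))) (b (a (a (l 16050872) (l 16037760)) (a (l 16026344) (l 16016568))) (a (c (b (l 16055920) (l 16030720)) (a (l 15977144) (l 15964032))) (c (l 16027360) (l 15948288))))) (a (b (a (b (l 16032528) (l 15994768)) (c (l 15992424) (l 15948952))) (a (b (c (l 15974448) (l 15915472)) (c (l 15912824) (l 15851736))) (b (l 15894408) (c (l 15886872) (l 15820920))))) (b (a (c (l 15968672) (l 15919464)) (b (l 15950464) (l 15916440))) (a (b (l 15869664) (l 15809728)) (b (l 15870584) (b (l 15827328) (l 15793616)))))))), by decide +kernel⟩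

theorem s9_pm_022_a : ∃ t, chk3 f_pm_022_a t 3 1 1 = true := ex3_b k7_pm_022_a k8_pm_022_a

theorem s10_pm_022_a : ∃ t, chk3 f_pm_022_a t 5 3 1 = true := ex3_a k5_pm_022_a k6_pm_022_a

theorem s11_pm_022_a : ∃ t, chk3 f_pm_022_a t 5 1 1 = true := ex3_b k4_pm_022_a s10_pm_022_a

theorem s12_pm_022_a : ∃ t, chk3 f_pm_022_a t 9 3 1 = true := ex3_b k2_pm_022_a k3_pm_022_a

theorem s13_pm_022_a : ∃ t, chk3 f_pm_022_a t 9 1 1 = true := ex3_b k1_pm_022_a s12_pm_022_a

theorem s14_pm_022_a : ∃ t, chk3 f_pm_022_a t 4 1 1 = true := ex3_a k0_pm_022_a s13_pm_022_a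

theorem s15_pm_022_a : ∃ t, chk3 f_pm_022_a t 2 1 1 = true := ex3_a s14_pm_022_a s11_pm_022_a

theorem s16_pm_022_a : ∃ t, chk3 f_pm_022_a t 1 1 1 = true := ex3_a s15_pm_022_a s9_pm_022_a

theorem c_pm_022_a : CertB 0 536870912 0 536870912 991146299 28908434 3 eng mog cd0q0 cd2q2a pd2 true true false .pp 0 2 2
    ndB0q0 ndB2q2a pcB2 cut_pm_022_a Ext.none :=
  certB2 (fam := true) (s1 := true) (s2 := false) (a := 0) (b := 2) (c := 2) (cn := .pp) (n1 := ndB0q0) (n2 := ndB2q2a) (pc := pcB2) (cut := cut_pm_022_a) (xt := Ext.none) (P1 := 0) (W1 := 536870912) (P2 := 0) (W2 := 536870912) (P3 := 991146299) (W3 := 28908434) (N0 := 3) (En := eng) (mo := mog) (C1 := cd0q0) (C2 := cd2q2a) (C3 := pd2)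
    rfl (fun _ => rfl) s16_pm_022_a

noncomputable def cut_pm_022_b : Cut := Cut.of [[⟨0, 0, 0, 53687091⟩, ⟨1, 1, 0, 53687091⟩, ⟨2, 1, 0, 53687091⟩]]

noncomputable def f_pm_022_b : ℕ → ℕ → ℕ → ℕ → Bool := onCell 0 536870912 1073741824 536870912 991146299 28908434
    (rowB 3 eng mog cd0q0 cd2q2b pd2 1 true true false .pp 0 2 2 (qsf 0 536870912 1239849684 370763052 2) ndB0q0 ndB2q2b pcB2 cut_pm_022_b Ext.none)

def k0_pm_022_b : ∃ t, chk3 f_pm_022_b t 2 2 1 = true :=
  ⟨(a (b (l 1) (a (b (a (b (b (l 1) (c (l 273836322263) (l 278668090487))) (c (b (l 178810105351) (l 16161680)) (b (l 193842441831) (l 16142352)))) (b (l 1) (b (l 1) (l 275984035079)))) (c (a (b (b (l 16124728) (l 16089680)) (l 16019864)) (b (l 141229293751) (l 16169160))) (a (b (l 15952632) (l 16028080)) (b (l 150892990935) (l 16163432))))) (b (l 1) (a (b (b (l 1) (l 16349904)) (a (l 144450803031) (l 264710075623))) (b (l 1) (l 280816016327)))))) (l 1)), by decide +kernel⟩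

def k1_pm_022_b : ∃ t, chk3 f_pm_022_b t 2 3 1 = true :=
  ⟨(a (b (a (b (b (a (c (l 15982608) (l 16006800)) (b (l 16115112) (l 16090608))) (a (c (l 15932344) (l 15972736)) (c (l 16097936) (l 16186288)))) (a (c (b (l 15889848) (l 15854720)) (b (l 15946688) (l 15907216))) (b (c (l 16052848) (l 16157048)) (l 15864360)))) (b (a (b (c (l 16398048) (l 16434176)) (l 16117168)) (b (c (l 16408224) (l 16349248)) (l 16208160))) (a (b (l 16140040) (l 16155192)) (b (l 16230040) (l 16223384))))) (a (a (b (c (b (l 15826336) (l 15803840)) (l 15808800)) (c (l 15779336) (l 15811192))) (b (b (l 15882912) (l 15928232)) (c (l 15971984) (l 15879688)))) (b (b (a (l 16167432) (l 16209464)) (a (l 16131224) (l 16146824))) (b (a (l 16047256) (l 16078040)) (a (l 15958328) (l 16003912)))))) (b (b (a (a (b (l 284573894743) (c (l 16324064) (l 16264552))) (b (l 1) (c (l 270615225255) (l 275983802951)))) (l 1)) (b (a (a (l 16122424) (c (l 16250944) (l 16173904))) (a (c (l 16081032) (l 262025000503)) (l 1))) (a (a (l 16131184) (l 16047856)) (a (c (l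 16187680) (l 16094192)) (c (l 263635865639) (l 258267012471)))))) (b (a (c (a (l 16225464) (l 16165376)) (b (l 16109928) (l 16083288))) (b (a (l 15941360) (c (l 16133920) (l 16025000))) (c (l 16153928) (l 16033352)))) (a (c (b (l 16161392) (l 16116024)) (b (l 16029080) (l 15969040))) (b (c (l 16141632) (l 16008008)) (c (l 16123192) (l 15976496))))))), by decide +kernel⟩

def k2_pm_022_b : ∃ t, chk3 f_pm_022_b t 3 1 1 = true :=
  ⟨(b (l 1) (b (l 1) (a (b (a (b (a (c (l 16076168) (l 265783061879)) (l 1)) (c (a (l 16089376) (l 16035272)) (a (l 15966104) (l 15909488)))) (l 1)) (a (a (c (l 16096600) (l 15892872)) (b (a (l 15998368) (l 16016544)) (l 15993928))) (a (b (l 288868571335) (c (l 16026408) (l 15879040))) (b (l 1) (l 296921598759))))) (l 1)))), by decide +kernel⟩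

theorem s3_pm_022_b : ∃ t, chk3 f_pm_022_b t 2 1 1 = true := ex3_b k0_pm_022_b k1_pm_022_b

theorem s4_pm_022_b : ∃ t, chk3 f_pm_022_b t 1 1 1 = true := ex3_a s3_pm_022_b k2_pm_022_b

theorem c_pm_022_b : CertB 0 536870912 1239849684 370763052 991146299 28908434 3 eng mog cd0q0 cd2q2b pd2 true true false .pp 0 2 2
    ndB0q0 ndB2q2b pcB2 cut_pm_022_b Ext.none :=
  certB1 (fam := true) (s1 := true) (s2 := false) (a := 0) (b := 2) (c := 2) (cn := .pp) (n1 := ndB0q0) (n2 := ndB2q2b) (pc := pcB2) (cut := cut_pm_022_b) (xt := Ext.none) (P1 := 0) (W1 := 536870912) (P2 := 1239849684) (W2 := 370763052) (P3 := 991146299) (W3 := 28908434) (N0 := 3) (En := eng) (mo := mog) (C1 := cd0q0) (C2 := cd2q2b) (C3 := pd2)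
    rfl (fun _ => rfl) s4_pm_022_b

noncomputable def f_pm_023_a : ℕ → ℕ → ℕ → ℕ → Bool := onCell 1610612736 536870912 0 536870912 991146299 28908434
    (rowB 3 eng mog cd0q0 cd2q2a pd3 2 true true false .up 0 2 3 (qsf 0 536870912 0 536870912 3) ndB0q0 ndB2q2a pcB3 Cut.none Ext.none)

def k0_pm_023_a : ∃ t, chk3 f_pm_023_a t 1 1 1 = true :=
  ⟨(a (b (a (a (b (c (l 16295776) (l 16324448)) (a (c (l 16281552) (l 16374208)) (l 16082728))) (b (c (l 16263008) (l 16312376)) (a (l 16120616) (l 16167640)))) (a (b (a (l 16280424) (l 16288576)) (a (l 16244728) (l 2))) (l 2))) (a (b (a (b (c (l 16138584) (l 16214608)) (a (c (l 15959288) (l 16191224)) (b (l 16178696) (l 15947424)))) (b (a (l 16203592) (l 16184264)) (a (c (l 16086672) (l 16172616)) (l 16020528)))) (a (b (a (c (l 16093232) (l 16179008)) (c (l 16049360) (l 16129424))) (a (b (l 15949592) (a (l 16030856) (l 16005824))) (c (l 208941429639) (l 279271595031)))) (b (a (b (c (l 16022112) (l 16103424)) (l 2)) (l 2)) (l 2)))) (b (l 2) (l 2)))) (l 2)), by decide +kernel⟩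

theorem c_pm_023_a : CertB 0 536870912 0 536870912 991146299 28908434 3 eng mog cd0q0 cd2q2a pd3 true true false .up 0 2 3
    ndB0q0 ndB2q2a pcB3 Cut.none Ext.none :=
  certB2 (fam := true) (s1 := true) (s2 := false) (a := 0) (b := 2) (c := 3) (cn := .up) (n1 := ndB0q0) (n2 := ndB2q2a) (pc := pcB3) (cut := Cut.none) (xt := Ext.none) (P1 := 0) (W1 := 536870912) (P2 := 0) (W2 := 536870912) (P3 := 991146299) (W3 := 28908434) (N0 := 3) (En := eng) (mo := mog) (C1 := cd0q0) (C2 := cd2q2a) (C3 := pd3)
    rfl (fun _ => rfl) k0_pm_023_a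

noncomputable def f_pm_023_b : ℕ → ℕ → ℕ → ℕ → Bool := onCell 0 536870912 1610612736 536870912 991146299 28908434
    (rowB 3 eng mog cd0q0 cd2q2b pd3 1 true true false .up 0 2 3 (qsf 0 536870912 1239849684 370763052 3) ndB0q0 ndB2q2b pcB3 Cut.none Ext.none)

def k0_pm_023_b : ∃ t, chk3 f_pm_023_b t 1 1 1 = true :=
  ⟨(a (b (a (b (c (a (b (l 15246888) (l 15294320)) (b (l 15650248) (l 15652544))) (a (b (l 15159688) (l 15258256)) (b (l 15568488) (l 15621256)))) (b (a (l 2) (b (l 15686944) (l 2))) (l 2))) (b (b (a (c (l 16176552) (l 16118672)) (c (l 16428416) (l 16378888))) (a (b (l 16129592) (l 16111608)) (l 16232680))) (b (a (a (l 15992128) (l 16144080)) (l 16292368)) (a (b (b (l 16009632) (l 2)) (l 2)) (b (a (l 16210000) (l 16336576)) (l 16177520)))))) (b (a (l 2) (b (b (a (l 2) (l 16065592)) (l 2)) (l 2))) (l 2))) (b (b (a (a (b (c (l 16413784) (l 16477648)) (l 16328024)) (b (c (l 16179304) (a (l 16431816) (l 16386016))) (c (l 16388912) (l 16431016)))) (a (b (c (l 205116663591) (l 201895555591)) (c (l 16150504) (l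 16275840))) (b (l 1) (b (l 232497005047) (l 205116696887))))) (a (b (a (l 16431016) (l 16408256)) (a (b (l 16443856) (a (l 16383280) (l 16490760))) (b (l 16492344) (l 16536152)))) (b (a (b (l 16396376) (l 16439272)) (c (l 105258856247) (l 16206016))) (a (l 16450280) (b (l 16435512) (l 16505488)))))) (a (b (b (b (a (l 16330448) (l 16430640)) (a (l 16223624) (l 16441848))) (b (a (l 16144040) (l 16289032)) (l 4))) (l 4)) (b (b (a (b (l 16535456) (l 16624560)) (b (l 16588928) (b (l 16660688) (l 16727816)))) (b (a (l 16506904) (l 16661744)) (a (l 16379672) (l 16579296)))) (b (l 4) (l 4)))))), by decide +kernel⟩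

theorem c_pm_023_b : CertB 0 536870912 1239849684 370763052 991146299 28908434 3 eng mog cd0q0 cd2q2b pd3 true true false .up 0 2 3
    ndB0q0 ndB2q2b pcB3 Cut.none Ext.none :=
  certB1 (fam := true) (s1 := true) (s2 := false) (a := 0) (b := 2) (c := 3) (cn := .up) (n1 := ndB0q0) (n2 := ndB2q2b) (pc := pcB3) (cut := Cut.none) (xt := Ext.none) (P1 := 0) (W1 := 536870912) (P2 := 1239849684) (W2 := 370763052) (P3 := 991146299) (W3 := 28908434) (N0 := 3) (En := eng) (mo := mog) (C1 := cd0q0) (C2 := cd2q2b) (C3 := pd3)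
    rfl (fun _ => rfl) k0_pm_023_b

noncomputable def f_pm_033 : ℕ → ℕ → ℕ → ℕ → Bool := onCell 1610612736 536870912 1610612736 536870912 991146299 28908434
    (rowB 3 eng mog cd0q0 cd2q3 pd3 2 true true false .pnn 0 3 3 (qsf 0 536870912 1610612736 536870912 3) ndB0q0 ndB2q3 pcB3 Cut.none Ext.none)

def k0_pm_033 : ∃ t, chk3 f_pm_033 t 1 1 1 = true :=
  ⟨(a (b (a (b (a (b (a (b (l 14998248) (l 14858672)) (b (l 15210752) (l 15025080))) (a (l 1) (b (l 14888288) (l 1)))) (b (a (b (l 15437128) (l 15230368)) (b (l 15652248) (l 15449048))) (a (b (l 15047016) (l 14912184)) (b (l 15243848) (l 15062336))))) (b (a (l 1) (a (l 1) (b (l 14928592) (l 1)))) (l 1))) (b (a (b (a (b (l 15836760) (l 15655984)) (b (l 16002328) (l 15827232))) (a (b (l 15453576) (l 15247856)) (b (a (l 15601768) (l 15679504)) (a (l 15389992) (l 15455472))))) (b (a (b (l 16126896) (l 15949952)) (l 15917144)) (a (b (l 15751544) (l 15547904)) (l 15601856)))) (a (b (a (b (l 15063000) (l 14878328)) (b (l 15195584) (l 14992704))) (a (l 1) (b (l 14835968) (l 1))))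 (b (a (b (l 15325368) (l 15104064)) (b (l 15456768) (l 15242224))) (a (b (l 14907704) (l 14755328)) (b (l 15029608) (l 14841528))))))) (a (l 1) (b (a (l 1) (b (a (l 1) (b (l 14695328) (l 1))) (l 1))) (l 1)))) (b (a (b (a (b (a (l 16076664) (l 16124376)) (a (l 15838600) (l 15698264))) (a (b (a (l 16252832) (l 16299784)) (l 15862536)) (l 4))) (a (b (a (b (l 15571616) (l 15386128)) (a (l 15583928) (l 4))) (a (b (l 15186816) (l 14992672)) (l 4))) (l 4))) (l 4)) (a (b (a (a (b (b (l 14823736) (l 4)) (l 1)) (l 4)) (l 4)) (l 4)) (l 4)))), by decide +kernel⟩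

theorem c_pm_033 : CertB 0 536870912 1610612736 536870912 991146299 28908434 3 eng mog cd0q0 cd2q3 pd3 true true false .pnn 0 3 3
    ndB0q0 ndB2q3 pcB3 Cut.none Ext.none :=
  certB2 (fam := true) (s1 := true) (s2 := false) (a := 0) (b := 3) (c := 3) (cn := .pnn) (n1 := ndB0q0) (n2 := ndB2q3) (pc := pcB3) (cut := Cut.none) (xt := Ext.none) (P1 := 0) (W1 := 536870912) (P2 := 1610612736) (W2 := 536870912) (P3 := 991146299) (W3 := 28908434) (N0 := 3) (En := eng) (mo := mog) (C1 := cd0q0) (C2 := cd2q3) (C3 := pd3)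
    rfl (fun _ => rfl) k0_pm_033

noncomputable def cut_pm_101 : Cut := Cut.of [[⟨0, 1, 0, 53687091⟩, ⟨1, 0, 0, 53687091⟩, ⟨2, 1, 0, 53687091⟩]]

noncomputable def f_pm_101 : ℕ → ℕ → ℕ → ℕ → Bool := onCell 536870912 536870912 0 536870912 991146299 28908434
    (rowB 3 eng mog cd0q1 cd2q0 pd1 2 true true false .npn 1 0 1 (qsf 536870912 536870912 0 536870912 1) ndB0q1 ndB2q0 pcB1 cut_pm_101 Ext.none)

def k0_pm_101 : ∃ t, chk3 f_pm_101 t 1 1 1 = true :=
  ⟨(a (l 3) (b (a (l 3) (b (a (l 3) (b (a (l 3) (b (a (l 3) (l 6)) (l 3))) (l 3))) (l 3))) (l 3))), by decide +kernel⟩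

theorem c_pm_101 : CertB 536870912 536870912 0 536870912 991146299 28908434 3 eng mog cd0q1 cd2q0 pd1 true true false .npn 1 0 1
    ndB0q1 ndB2q0 pcB1 cut_pm_101 Ext.none :=
  certB2 (fam := true) (s1 := true) (s2 := false) (a := 1) (b := 0) (c := 1) (cn := .npn) (n1 := ndB0q1) (n2 := ndB2q0) (pc := pcB1) (cut := cut_pm_101) (xt := Ext.none) (P1 := 536870912) (W1 := 536870912) (P2 := 0) (W2 := 536870912) (P3 := 991146299) (W3 := 28908434) (N0 := 3) (En := eng) (mo := mog) (C1 := cd0q1) (C2 := cd2q0) (C3 := pd1)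
    rfl (fun _ => rfl) k0_pm_101

noncomputable def cut_pm_102 : Cut := Cut.of [[⟨0, 1, 0, 33554432⟩, ⟨1, 0, 0, 33554432⟩, ⟨2, 1, 0, 33554432⟩]]

noncomputable def xt_pm_102 : Ext := extD3 3 ⟨4, 1, 1, 5, 22, 5, 21, 25, 41, 100, 1, 20⟩ eng cd0q1 cd2q0 pd2 true true false .npp 1 0 2 rfl ndB0q1 ndB2q0 pcB2

noncomputable def f_pm_102 : ℕ → ℕ → ℕ → ℕ → Bool := onCell 536870912 536870912 1073741824 536870912 991146299 28908434
    (rowB 3 eng mog cd0q1 cd2q0 pd2 1 true true false .npp 1 0 2 (qsf 536870912 536870912 0 536870912 2) ndB0q1 ndB2q0 pcB2 cut_pm_102 xt_pm_102)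

def k0_pm_102 : ∃ t, chk3 f_pm_102 t 2 4 1 = true :=
  ⟨(b (a (l 3) (b (l 3) (b (l 3) (a (a (l 3) (c (l 316383521271) (l 290076766471))) (a (c (b (l 16141464) (l 16262088)) (l 255180104215)) (b (c (l 16206248) (l 16254632)) (a (l 16209568) (l 16054512)))))))) (a (b (b (a (l 3) (c (a (l 16402472) (l 16379344)) (a (l 16084584) (l 280949863271)))) (a (l 2) (a (b (l 16201064) (l 16170336)) (b (l 16173600) (l 16163520))))) (a (l 2) (b (a (c (l 16453384) (l 16187464)) (l 16108984)) (a (l 2) (l 16112744))))) (a (a (b (b (c (l 16354848) (l 16093664)) (b (l 16154992) (l 16230280))) (b (l 16112864) (l 16115272))) (b (b (b (c (l 16316776) (l 16306344)) (l 16151864)) (b (l 16228736) (l 16264272))) (b (l 16147008) (c (l 16437344) (l 16225008))))) (a (b (b (b (a (l 16311992) (l 16321216)) (l 16196344)) (l 16161464)) (b (c (l 16464480) (l 16278016)) (c (l 16443680) (l 16242056)))) (b (b (b (a (l 16312600) (l 16309048)) (l 16272624)) (l 16185560)) (b (c (l 16466856) (l 16305376)) (l 16208296))))))), by decide +kernel⟩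

def k1_pm_102 : ∃ t, chk3 f_pm_102 t 6 16 1 = true :=
  ⟨(a (l 3) (b (l 3) (a (l 3) (b (l 3) (b (a (l 3) (b (l 3) (c (a (c (l 16187704) (l 16144320)) (c (l 16218856) (l 16171808))) (a (l 16090200) (l 16111904))))) (a (c (b (a (l 3) (c (l 141363632007) (l 16136728))) (c (a (c (l 185923892215) (l 16156048)) (l 160154139559)) (l 161764664199))) (c (b (l 16100704) (l 16114920)) (l 16088080))) (a (c (c (b (l 16200840) (l 16213864)) (l 42579383863)) (b (l 16109832) (l 16130504))) (b (c (c (l 16231512) (l 16187928)) (l 16132912)) (c (l 16223232) (l 16153792)))))))))), by decide +kernel⟩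

def k2_pm_102 : ∃ t, chk3 f_pm_102 t 12 17 1 = true :=
  ⟨(b (b (b (l 3) (a (l 3) (a (l 3) (b (l 3) (c (l 16136080) (l 16129304)))))) (a (c (a (l 16154512) (l 16153616)) (a (l 16187600) (l 16175832))) (c (a (b (l 16145720) (l 16170328)) (b (l 16155640) (l 16181176))) (a (l 16168920) (b (l 16152656) (l 16183952)))))) (b (b (a (a (l 16054928) (l 16029960)) (a (c (l 16194368) (l 16210008)) (c (l 16208040) (l 16213896)))) (a (c (l 16210864) (l 16241512)) (c (l 16228496) (l 16240448)))) (a (a (l 16071056) (l 16072704)) (c (l 16273200) (l 16284952))))), by decide +kernel⟩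

def k3_pm_102 : ∃ t, chk3 f_pm_102 t 13 17 1 = true :=
  ⟨(b (a (a (b (a (b (l 3) (c (c (l 16148712) (l 16135112)) (l 16125192))) (c (b (c (c (l 146195403143) (l 16128656)) (l 16114704)) (c (l 16160472) (l 16144336))) (b (l 16096656) (l 16130504)))) (c (b (c (l 16179432) (l 16168216)) (l 16201136)) (b (l 16161416) (l 16193752)))) (c (b (b (a (c (c (b (a (l 3) (c (l 62980415383) (l 16148832))) (a (l 206861848679) (b (c (l 16165616) (l 16158912)) (l 16168544)))) (b (l 16135112) (l 16149160))) (b (l 16118136) (l 16133408))) (c (c (a (b (l 84455272503) (l 16174008)) (b (l 126868093111) (l 16183272))) (l 131163025831)) (l 133847366023))) (a (c (b (l 16168080) (l 16180584)) (l 16155920)) (c (b (l 16184472) (l 16197192)) (l 16170328)))) (b (c (a (l 16200480) (l 16219072)) (l 16193488)) (l 16233432))) (b (b (a (c (l 16109136) (l 16098448)) (l 140289811751)) (a (l 16138456) (l 16149304))) (b (a (l 16173216) (l 16184592)) (l 16214328))))) (c (b (a (b (a (c (b (c (l 16186136) (l 16170176)) (l 16190984)) (l 16156592)) (c (b (l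 16200592) (l 16213408)) (l 16176728))) (a (b (l 16191048) (l 16205792)) (b (l 16212968) (l 16229680)))) (b (a (c (l 16233680) (l 16200496)) (b (l 16237696) (l 16253904))) (l 16263152))) (a (b (l 16242632) (l 16275840)) (l 16312592))) (b (a (b (a (l 16124984) (l 16141248)) (c (l 16178296) (l 16164072))) (b (a (l 16160656) (l 16183496)) (l 16211184))) (a (l 16226712) (l 16268448))))) (a (b (c (a (l 16248664) (l 16282016)) (a (l 16243648) (l 16265704))) (c (a (l 16309976) (l 16342936)) (l 16315992))) (b (c (a (l 16324360) (l 16371760)) (a (l 16297448) (l 16335936))) (c (a (l 16378200) (l 16416424)) (a (l 16355368) (l 16386928)))))), by decide +kernel⟩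

def k4_pm_102 : ∃ t, chk3 f_pm_102 t 14 32 1 = true :=
  ⟨(a (l 3) (b (l 3) (b (l 3) (a (l 3) (a (b (l 3) (a (b (l 3) (c (l 8049028107137207409637687343) (l 459728536055))) (b (c (l 8194099205490371304737144879) (l 471002729095)) (c (l 4731735658115141730274689071) (l 140001192675049519))))) (a (b (l 3) (b (c (c (l 7043201825218537631197724719) (l 7207615736684700032704725039)) (l 4712392844998400142069202991)) (c (l 142850371433119791) (l 16409360)))) (b (b (l 3) (c (c (a (l 426443259175) (l 7014187605547881707659149423)) (l 7546114966177931516146761775)) (c (l 7729871690757969284846665775) (l 140219239689797679)))) (b (c (l 4838121130241228754284888111) (l 140893996307218479)) (c (l 16678016) (l 16458608)))))))))), by decide +kernel⟩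

def k5_pm_102 : ∃ t, chk3 f_pm_102 t 14 33 1 = true :=
  ⟨(b (a (a (a (l 3) (b (l 3) (b (l 3) (c (a (l 16231328) (l 129552732103)) (l 16129760))))) (a (b (l 3) (c (l 1482143054987641701642534959) (c (l 73718050327) (l 16134440)))) (b (a (l 3) (c (l 8223113425160192355038609455) (l 8435884369410782487227121711))) (c (b (l 140382104670502959) (l 140514664557035567)) (b (b (l 16187360) (l 16197120)) (l 16212880)))))) (b (b (a (a (l 3) (c (b (l 7981328261237982439998210095) (l 141295386772930607)) (b (l 139173603829088303) (l 139269055195430959)))) (c (a (b (l 3590509684397542281420046383) (l 142073153983938607)) (b (l 143037288449343535) (l 142971523896016943))) (a (b (l 139874886244040751) (l 139964359015759919)) (b (l 140735872750747695) (l 16439720))))) (a (c (a (b (l 140703093454422063) (l 140746730326720559)) (b (l 141312154325631023) (l 141336893339287599))) (b (l 139132028513419311) (l 139256273345773615))) (c (a (l 142055286955573295) (l 142896757086912559)) (a (l 140092933173887023) (l 140864034587312175)))))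 (a (c (b (a (l 140832148647755823) (l 141386577525211183)) (a (l 16420264) (l 16465440))) (b (l 139421337593987119) (l 139654159169355823))) (a (l 141781439632425007) (l 141968081891524655))))) (a (b (c (c (a (a (b (l 16242608) (l 16254432)) (l 140515214209826863)) (l 140923614205345839)) (a (a (b (l 16188552) (l 16204168)) (b (l 16226232) (l 16241512))) (l 140287546605092911))) (b (a (a (l 16118176) (l 16150232)) (a (l 16188856) (l 16233008))) (a (a (l 16139152) (l 16171904)) (a (l 16209448) (l 16252712))))) (a (a (b (c (l 16242464) (l 16160576)) (c (l 16256512) (l 16180856))) (c (b (l 16280744) (l 16295520)) (l 16202464))) (c (l 16355824) (l 16260248)))) (a (b (c (l 141412828328886319) (l 16319792)) (l 141734023088504879)) (b (l 142188465195974703) (l 142089990216138799))))), by decide +kernel⟩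

def k6_pm_102 : ∃ t, chk3 f_pm_102 t 14 17 1 = true :=
  ⟨(a (a (b (b (c (b (l 16298928) (l 16330544)) (l 16246800)) (c (l 16375240) (l 16321704))) (b (c (l 16423824) (l 16381472)) (l 16444280))) (b (b (c (b (l 16383600) (l 16410416)) (b (l 16299744) (l 16337112))) (c (l 16444792) (l 16385280))) (c (l 16503672) (l 16462240)))) (a (b (b (b (l 141625515088904239) (l 16479104)) (l 142090196312440879)) (l 141168805689786415)) (b (c (l 142427059409961007) (l 142664210187894831)) (l 141604830837325871)))), by decide +kernel⟩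

def k7_pm_102 : ∃ t, chk3 f_pm_102 t 30 64 1 = true :=
  ⟨(a (l 3) (b (l 3) (b (l 3) (a (l 3) (a (b (l 3) (b (l 3) (a (b (l 3) (a (l 3) (c (c (c (l 462413656983) (l 465098023831)) (l 484962247879)) (c (l 8765317608005492423171709999) (c (l 487109711895) (l 493015284215)))))) (a (b (l 3) (c (c (c (b (l 7856204826723754026426965551) (l 6415165258390027334723444271)) (l 6831035902034700791939112495)) (l 6889064221760596889370188847)) (c (l 6956764045753507535627246639) (c (l 7014792664086073326219271215) (l 7063149514997291141469690927))))) (c (c (b (c (l 7701462219779528334357782063) (l 7720805282789098524693388847)) (l 5825209529322760830786068015)) (l 6589250766934812572171803695)) (c (b (l 8127004549276353315985136687) (l 604818586091520192617519)) (b (l 8214047520442103988854692911) (l 604964430661852958792751)))))))) (a (b (l 3) (c (b (c (a (c (l 8223718243028338414240718383) (l 8262404011065351614479130159)) (c (l 6724650110549356648464637487) (l 6753664460788468145388183087))) (b (a (l 3) (l 456508084503)) (l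 7807847889631653741808655919))) (c (b (l 5902580763043122648103476783) (l 16788624)) (l 5854224002636242944490921519))) (c (b (l 8281747023634605978264411183) (l 5883237752203250541251058735)) (b (b (c (l 486035988743) (l 8949074488519549555798973487)) (l 8039962169559334506403388463)) (l 5921923649079241881289432111))))) (b (b (l 3) (c (c (c (l 7391977270774792633641672239) (l 7430663007971155585645649455)) (b (l 457044949559) (a (l 443086307207) (l 6860050207309873609189727791)))) (c (l 7585405654402942810503929391) (l 7682119935856664882107866159)))) (c (b (c (l 6183051532729359909862022703) (l 6212065223209140395519680047)) (l 604992965469091937312303)) (b (c (l 6250751084632795468914826799) (l 6299108362124969988703411247)) (l 604687585460051126824687)))))))))), by decide +kernel⟩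

def k8_pm_102 : ∃ t, chk3 f_pm_102 t 60 260 1 = true :=
  ⟨(l 3), by decide +kernel⟩

def k9_pm_102 : ∃ t, chk3 f_pm_102 t 120 261 1 = true :=
  ⟨(b (l 3) (b (l 3) (a (l 3) (a (l 3) (c (a (c (l 7497757933394029558535258415) (l 7787900130101635530779656303)) (c (l 7052873231775729680167551279) (l 7159258703902030833813028975))) (c (b (l 8271470457947051381473083503) (l 5805261785932547883326472303)) (l 7865271382554340185162924079))))))), by decide +kernel⟩

def k10_pm_102 : ∃ t, chk3 f_pm_102 t 121 1044 1 = true :=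
  ⟨(a (l 3) (b (a (l 3) (a (l 3) (b (a (l 3) (c (c (c (l 7304329802255812173312852271) (l 408189714263)) (c (l 425906466839) (l 7430058087495946363002519855))) (c (c (l 7488086526837342804100546863) (b (l 448991874855) (a (l 7981328261240091166395859183) (l 6907802133422296542252679407)))) (c (c (l 7623486218634046787601481967) (l 7720200284202759174902186095)) (l 7797571536657411751961182319))))) (c (c (c (l 6433903212133271677101064495) (l 6520945871145595208997175599)) (c (l 6617659936714837560998215983) (l 6646674156385662397184786735))) (c (a (c (l 7275315582585166007767482671) (c (l 7314001208812840394823581935) (l 7352686835040650021797150959))) (c (l 6056718356413618562713125167) (l 5998689917072098220363284719))) (c (a (c (l 7391372461267890445345767663) (l 7488086526836608261486133359)) (c (l 6008361323628872935719796975) (l 5679533500693239495660617839))) (l 5872961631830845277426597999))))))) (a (a (l 3) (c (c (c (l 433422637959) (l 437180737303)) (l 7894285602227810240618725679)) (c (c (c (l 436643859783)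 (l 439865088663)) (l 8087713733366046592353615983)) (c (l 8290813271060881393884069999) (l 471003257943))))) (c (c (a (c (l 6801416661296098261650047279) (l 6820759474410006682932429103)) (l 5582819435124600569494094127)) (c (l 6375874772791901349414207791) (b (b (l 6704702595727160062084317487) (l 6404888992462730240050921775)) (l 6047046949856796362205823279)))) (a (c (c (b (a (l 441475694279) (l 7052873231776072040597487919)) (l 6269489300665788761974440175)) (b (a (l 447918131319) (c (l 7091558858003755567343436015) (l 7130244484231435864263082223))) (a (l 6520945871145740344501502191) (l 16775904)))) (c (b (a (l 464560994551) (c (l 7188272923572489188981473391) (l 7275315582584295400562491503))) (a (l 6250146487551176103410172015) (l 16727256))) (l 7275315582583565668338679919))) (c (c (l 144318838289252655) (l 5650519281023091271519371503)) (c (l 5573148028567282970225655919) (l 142950427076919407)))))))), by decide +kernel⟩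

def k11_pm_102 : ∃ t, chk3 f_pm_102 t 121 1045 1 = true :=
  ⟨(a (b (l 3) (b (l 3) (a (l 3) (a (l 3) (c (c (l 7197944330129591490157969711) (l 7275315582585015924441137391)) (c (c (a (l 446307544135) (l 7023859012105312556605735151)) (l 7488086526836732575059673199)) (c (l 7652500438303479641882050671) (l 432885391575)))))))) (a (c (c (a (b (c (l 422148353095) (l 425906460887)) (l 6018032730185636449828667695)) (c (l 5950332884287372796939075887) (l 6037375543299704506454311215))) (b (a (a (l 3) (l 7594471998963290052472652079)) (c (l 6453246025247222498316566831) (l 6453246025247304892958671151))) (c (l 5989018510515193212916924719) (l 5989018510515277737863938351)))) (c (b (a (c (c (l 7681514657975651173908971759) (l 7739543097317198179386130671)) (l 7923299821898483275380408431)) (c (b (l 6782073848182390776134418671) (l 5901975851502936819937820911)) (b (a (l 7739543097317030709991473263) (l 6269489300665753852456091887)) (l 5843947412161320888795512943)))) (a (c (l 6076061169527440878455701743) (l 6027704136742485931943657583))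 (l 144350930243862639))) (c (b (a (l 8107056546478835092100448367) (b (l 6259817894107905532589424751) (l 5321691458086932677168791663))) (l 5186291766289958763468652655)) (b (l 5331362864642892516741627951) (l 142352223917457455))))) (c (c (l 144222218693738799) (l 144188821048410415)) (c (c (l 144303719971897583) (l 144327015860846831)) (c (l 143659062447210607) (l 142792440969674863)))))), by decide +kernel⟩

def k12_pm_102 : ∃ t, chk3 f_pm_102 t 121 523 1 = true :=
  ⟨(a (b (a (b (l 3) (a (l 3) (c (c (l 6985173385877356076114297135) (l 7081887451446657114517962991)) (c (c (l 7159258703901892501494759535) (l 7333344021925582440242380911)) (l 7497757933391961857872248879))))) (c (c (c (l 5979347103957998277930582319) (l 6076061169527243378712609071)) (b (a (a (l 7700857471089355567051882735) (l 7043201825218999769913032943)) (l 5882633038388956999146029295)) (l 5553805215453767074667299055))) (c (b (a (c (l 7391372461268157970273058927) (l 7565457779291829973233959023)) (c (l 5785918972819925959515980015) (l 5524790995782541535105450095)))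 (l 5476433962998224167987019887)) (c (l 5012206448264992497646846063) (l 4383565022064569763900457007))))) (c (a (c (l 5689204907250435530236526895) (b (l 5892304444945852729479168239) (l 144140167637270767))) (l 144052412867576047)) (c (a (c (l 5466762556441244874689183855) (l 4857463943354675861511651439)) (l 16763680)) (l 4161122671255656735178965039)))) (c (c (l 144001491729154351) (l 144154804885799215)) (a (c (l 144350861539704943) (l 142708809345400879)) (l 143950158202404975)))), by decide +kernel⟩

def k13_pm_102 : ∃ t, chk3 f_pm_102 t 60 131 1 = true :=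
  ⟨(b (a (b (a (b (l 3) (c (a (c (l 465098043287) (l 451139165767)) (c (l 6849773694080373709956464879) (l 6965830572763283415253139567))) (c (l 7710528877644744553697951791) (l 7865271382553527920746741807)))) (c (c (b (a (l 7043201825218753479302643951) (l 5370048490872092751451423023)) (l 143882675755516143)) (b (a (b (l 7700857471089360377337331823) (l 5901975851502821165044514927)) (l 5360377084315392115671105647)) (l 144106632495186031))) (c (a (a (l 7091558858002771641650085935) (l 6666016969497829191822409775)) (l 4635021592545515236507484271)) (l 3658209530295242503187578927)))) (a (c (c (l 5215305985961328476585607279) (l 4731735658115182274903343215)) (c (l 142127373713670191) (l 142974858199))) (c (l 143962871357636719) (l 142062502527664175)))) (b (a (c (l 143836977298014447) (c (l 143577148801941615) (l 142063808210960431))) (c (l 144033240121114927) (l 143577973445083183))) (a (c (l 143973866460299503) (l 142729425180999727)) (l 143785987394322479)))) (c (a (b (a (l 143900267851448431) (l 143920334023966831))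 (l 143706685117628527)) (l 143738708403896559)) (a (b (a (l 141441415770538031) (l 142029242292682799)) (l 141706741721022511)) (l 142924657250041903)))), by decide +kernel⟩

def k14_pm_102 : ∃ t, chk3 f_pm_102 t 122 520 2 = true :=
  ⟨(a (l 3) (b (b (l 3) (b (l 3) (a (l 3) (a (l 3) (a (l 3) (c (c (l 7372634534330238623202532399) (l 7459677395680215982291065903)) (l 7575734585940257003070970927))))))) (a (b (l 3) (a (l 3) (a (b (l 3) (c (c (c (l 7295263263139927906162514991) (l 7333949004947976876594256943)) (l 7401649026666925562926128175)) (l 7527376916454770916956314671))) (c (c (c (b (l 7469348571364601718164462639) (l 6163708694251252741726608431)) (l 6773007414846956150371261487)) (l 6792350398881403275135900719)) (c (l 6821364850577607177466240047) (l 6850379306885497098223426607)))))) (c (b (a (c (c (b (l 444160049479) (a (l 7730476539177989583045680175) (l 6560236347808641174988741679))) (c (l 7411320196010243023460932655) (l 7430663063023157430628523055))) (b (l 446844406951) (l 7333949141857405548659252271)))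 (c (b (a (c (l 6753664471741222439148575791) (l 6773007388041531168260807727)) (l 604891220146310422780975)) (l 604894390680448086187055)) (l 6241080178155581058737036335))) (a (c (b (a (c (l 6357136817607373253582904367) (l 6366808333691833224635489327)) (l 16790664)) (l 16790656)) (l 6047652075552047629805001775)) (l 16791840))) (c (b (a (b (l 444696932071) (l 7430663429652195895613856815)) (l 6260423200236437835531803695)) (l 5950938208861836840514329647)) (b (a (l 7769162499176433300339874863) (l 6279766226352519878449994799)) (l 5960609833897378996917607471))))))), by decide +kernel⟩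

def k15_pm_102 : ∃ t, chk3 f_pm_102 t 122 521 2 = true :=
  ⟨(a (b (a (l 3) (b (b (l 3) (a (l 3) (c (c (c (l 7798176463475071130097818671) (l 434496384087)) (l 437717611991)) (l 8001276335517565167450397743)))) (a (b (l 3) (a (l 3) (b (l 3) (c (c (l 7130849626500173660314971439) (l 397989164951)) (l 7285592053876839344479431983))))) (c (c (c (b (a (l 7546719941994392207550422063) (l 6540893589458578577021508655)) (l 6105680335326025487669697583)) (a (l 6889064428421776590147460143) (l 6260422925264658986792131631))) (b (l 7024464271251332161215339567) (l 6173380500871931873711053871))) (c (l 6666622491799735352024964143) (l 6695636222776052393311612207)))))) (a (b (b (l 3) (a (l 3) (a (l 3) (c (c (l 6927144946536089652244054319) (l 6956159166206901637904859439)) (c (l 7004516198991549202188976431) (l 7052873231776198347010818351)))))) (a (c (c (b (a (l 3) (l 429664536919)) (l 6762731035068473077730771247)) (b (l 436643870855) (l 6859445100637709451135893807))) (c (l 7275315582585030080657686831) (l 7323672615369684379437449519)))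 (c (c (a (l 6375874772791805004682559791) (l 144257609225486639)) (l 6163103828539695347288441135)) (c (l 6250146487552011938517123375) (l 6288832113779745012014301487))))) (c (b (a (c (b (a (l 7130244484231358761027256623) (l 6076666315831439262437682479)) (l 5776852761277936275534146863)) (l 6415165860359387555037965615)) (l 605137368887543988886575)) (l 604477465626818502094127)) (b (a (c (l 6463522412663994707163786543) (l 6492536913359243052109311279)) (l 604901452455024670633263)) (l 605007809451592564632879))))) (c (b (a (b (b (a (a (l 3) (c (c (l 7043806702459917826982386735) (l 7092163854283648344632286255)) (l 7150192474345596392145984559))) (a (c (l 5970280628829437836363717679) (l 331954038519)) (l 16793384))) (a (c (a (c (l 6743993109571783333117123631) (l 6753664638338379854845565999)) (l 604941660462136975760431)) (l 6444179806355176871729863727)) (l 605040811711533151591471))) (a (c (l 604946848608907701017647) (l 16797952)) (l 16787800))) (l 605003918223385728818223)) (l 605027841344606299724847)) (b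 (a (b (a (c (l 6995450222212963742843804719) (l 6908407060526934433687084079)) (c (l 605390435157805203135535) (l 605629378139634971106351))) (l 604776216226225905785903)) (l 605424446342191071779887)) (l 604712661507792855346415)))), by decide +kernel⟩

def k16_pm_102 : ∃ t, chk3 f_pm_102 t 123 260 2 = true :=
  ⟨(b (a (b (a (c (b (a (c (c (l 8010947205965982558642626095) (l 8039961521905679293511146543)) (l 8059304427541464105011747887)) (c (a (l 6889064186596490998850608687) (l 6250751354128197170756722223)) (l 6637607794819481344579083311))) (a (c (b (a (l 7614419690182713925895347247) (l 6173380113202075949644996143)) (l 5883237919665099085383802415)) (l 6444179689045413777977744431)) (l 604958377823953767472687))) (b (a (l 8310761162889082132131224623) (l 6685964349141642099732093999)) (c (l 6221737514921542590835235887) (l 6231409114304581269735431215)))) (c (c (l 604855191349291449097775) (l 605013141595422593457711)) (l 605256119802518485408815))) (a (c (l 604964718892229104557615) (l 605335671386336361749551))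 (l 604328882682438398434863))) (b (a (l 604279883518492604816943) (l 604981580515743866826479)) (l 604250339864529998065391))) (a (b (a (l 604386096420763170238191) (l 604320668095208876306159)) (l 604351796969785948188399)) (l 604286080408976419352303))), by decide +kernel⟩

def k17_pm_102 : ∃ t, chk3 f_pm_102 t 61 261 2 = true :=
  ⟨(a (b (a (b (a (c (b (a (c (l 5824604599047514378526572847) (l 5901975851502916547697738031)) (l 16791240)) (l 16794032)) (c (l 5824604599047643914758652207) (l 5872961631832295670924050735))) (l 604737161054718815776047)) (l 604194134997805287042351)) (b (l 604476888989800719084783) (l 604486400573453307309295))) (a (l 604186352743701766565167) (l 16777368))) (a (l 604370819947150491741935) (l 143960741034328303))), by decide +kernel⟩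

def k18_pm_102 : ∃ t, chk3 f_pm_102 t 122 520 3 = true :=
  ⟨(a (l 3) (a (a (l 3) (b (l 3) (b (l 3) (b (b (l 3) (a (l 3) (c (c (l 7682119759747905053427440687) (l 7701462674895292277919145007)) (c (a (l 468856105431) (l 7082493163979216048230947887)) (c (l 7749820034244893624781528111) (l 7769162721978514065577106479)))))) (c (c (l 7150192415258369281051860015) (a (c (l 7643434294641017188638759983) (l 7653106332710688370431728687)) (l 6289437305767959979641953327))) (a (c (c (b (l 458655560247) (l 7362964002840743586406374447)) (b (l 8291418919894932093411367983) (l 7372635282864525489197030447))) (c (b (l 8320433012167856934542498863) (a (l 7981933767399550829580114991) (l 6666622475658834287500041263))) (b (l 8339775697019173613820828719) (a (l 7991605044541028970853899311) (l 6685965160798381342930426927))))) (c (c (l 6318452098728929245584415791) (l 6337794789056623071745481775)) (a (c (l 6511879979683303413841566767) (l 6531222666840463102333344815)) (l 605459033987329280564271))))))))) (a (b (l 3) (c (b (c (b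 (l 449528773159) (l 7546720011169682483972807727)) (a (c (l 455971222247) (l 8272075639847888660855020591)) (b (l 464561149239) (l 6724650616970127547033213999)))) (c (l 6105680437647809021544307759) (b (l 6270094500148115692791487535) (l 16790696)))) (b (b (c (c (l 471003593495) (l 472614201543)) (c (l 474761688327) (l 8581560846530580641179966511))) (a (c (c (l 8214047820489925562795678767) (l 8243061920833300936175066159)) (c (l 8262404613755068147701652527) (l 8291418712080830888018992175))) (c (c (l 6753665420019159978286013487) (l 6773008117264382832088112175)) (c (l 6802022219913601214681308207) (l 6821364915141211435421686831))))) (c (b (a (c (l 6531223056239701283312426031) (l 6560237156583076656691485743)) (l 16786144)) (l 16786048)) (a (b (a (c (l 6802022197431631874846956591) (l 6821364887759325701007727663)) (l 6096009461995304334926928943)) (l 16770560)) (l 16789424)))))) (b (a (l 3) (b (l 3) (b (l 3) (c (c (l 7682120378866753027305233455) (l 7711134062429004485305588783)) (c (l 7740148104261613499883543599)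 (l 7759491452907486456550267951)))))) (c (b (c (l 6308780663637204973182737455) (b (l 6569908109177151251154263087) (l 16796240))) (l 16793288)) (b (c (b (a (l 6985779134150612357068643375) (l 326585321527)) (l 605740058604077201103919)) (b (a (c (l 7024464590610588937296256047) (l 7043807289008733295705611311)) (l 605528209277605694889007)) (l 605517544753688070544431))) (l 604867297025089792334895))))))), by decide +kernel⟩

def k19_pm_102 : ∃ t, chk3 f_pm_102 t 244 1042 3 = true :=
  ⟨(a (l 3) (b (b (l 3) (b (l 3) (a (l 3) (a (l 3) (a (l 3) (c (c (l 433959514967) (l 7962590625126627197544422447)) (c (c (l 7991605398487930885170322479) (l 8010948075557027408351763503)) (c (l 8010947938071137983976610863) (l 8020617980721915067467668527))))))))) (b (a (l 3) (a (b (l 3) (a (l 3) (c (c (l 7450006235560270558617607215) (l 7459678173902231591912168495)) (c (c (l 7479020779490194829469146159) (l 7498363452956657254164212975)) (c (c (l 7517706160578150697124801775) (l 7527377054661339223444892911)) (l 7585403940440744942478453999))))))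 (c (c (l 6676293633472936701995342895) (c (l 6705307821726576801646140463) (b (l 7159864553920441739786050607) (l 6183052483601370834375400495)))) (c (c (b (a (l 7730477398680971267447774255) (l 6598922842474432653687987247)) (l 6202395160958697733708880943)) (b (a (l 7740148667463768500321541167) (l 6618265519255298800718044207)) (l 6221737837163103128435465263))) (a (c (b (l 7749819934805413852434029615) (l 6405494412729422292548181039)) (b (l 7798175263283784834329189423) (l 6308778582902119533918264367))) (c (c (l 6357137437590912355907296303) (l 6366808775260769489041005615)) (c (l 6376479279368378791419878447) (l 6173378700585002430040529967)))))))) (a (b (l 3) (a (l 3) (c (c (l 7333949305140124951003573551) (c (l 7362358241597552624128704815) (l 7362358241597521700358324527))) (a (c (c (l 448455008935) (l 448991874023)) (c (l 455434316183) (l 461339789927))) (c (c (l 7014187605548475169090847023) (c (l 7033530418662285733822021871) (l 7043201825219187030456549615))) (c (c (l 7062544638332961929775562991) (l 7091558858003469762997764335))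 (l 7149587297344607750113132655))))))) (c (c (l 6241080391878603986847444271) (a (c (l 6482866150997395663289085231) (b (l 6802022431907350531373083951) (l 16795568))) (l 16789416))) (a (c (c (b (a (l 7237235566712498894290496815) (l 6154038072401810758782364975)) (l 327122190647)) (b (a (l 7266249644573874072790379759) (l 6163709339166965053304827119)) (l 605484542623421132467439))) (c (b (a (c (l 7294658395699012169163669743) (l 7304329802255725449304473839)) (l 6154037766012854320326962415)) (l 605116184115288080559343)) (b (a (l 7362358241596861031238402159) (l 5989621791103511843833605359)) (l 603063695119421843827823)))) (c (l 16783968) (l 16783640)))))))), by decide +kernel⟩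

def k20_pm_102 : ∃ t, chk3 f_pm_102 t 244 2086 3 = true :=
  ⟨(a (b (l 3) (a (l 3) (a (l 3) (c (c (l 7081887451446834891824021807) (c (l 7120573077674642800824205615) (b (l 7652500438305046446181941551) (l 6685359782613342625380041007)))) (c (c (b (l 7681514657975764079983214831) (a (l 7207615736686829993253716207) (l 6027704136742949444839964911))) (b (l 7720200284203343153120166127) (a (l 7236629956357443310885011695) (l 5998689917072126532782948591)))) (c (b (l 7787900130101285817285591151) (a (l 7304329802255388448947847279) (l 143861510112772335))) (l 7362358241596455448804098159))))))) (a (b (a (c (c (l 7304329802255925972775600431) (c (l 7343015428483726941108846895) (b (l 7913628415341800094450270511) (l 7023859012105432128509608239)))) (c (b (a (l 3) (c (l 7874942789114097463672930607) (l 7913628415341733092938957039))) (a (c (l 7652500438305008238147158255) (l 7691186064532643317657288943)) (c (l 6511274464588795204848255279) (l 6491931651474928633729728751)))) (c (b (l 8107056546479703912615985391) (a (l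 7739543097316809227096703215) (l 6462917431803824246694936815))) (b (l 8203770612048393210168639599) (l 6617659936713986126528725103))))) (c (c (l 6240475080995042953185296687) (c (l 6269489300665928468669399343) (l 6288832113779731611694334255))) (a (c (c (l 6453246025247290736720068911) (b (l 6753059628511686199007576303) (l 16791992))) (c (c (l 6404888992462514804451934447) (l 6240475080994684031289901295)) (l 6066389762969816377957843055))) (c (l 144382678662021359) (l 143912499992019055))))) (c (c (l 5950332884287538204728082735) (c (l 5969675697401505930899865903) (l 5960004290844557423975629103))) (c (c (l 5950332884287608642173780207) (l 5921318664616825381255708911)) (c (l 5824604599047311381149106415) (l 5457091149883987267504078959))))) (c (l 605238682039033902705967) (c (l 605586576195270518271215) (l 604229587265214999080047))))), by decide +kernel⟩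

def k21_pm_102 : ∃ t, chk3 f_pm_102 t 244 2087 3 = true :=
  ⟨(a (a (b (b (l 3) (a (l 3) (a (l 3) (c (c (l 421611482263) (l 7797571536658830534447579375)) (c (c (l 7845928569443362649984090351) (l 7884614195670667463694336239)) (l 8000671074352971681632436335)))))) (a (a (l 3) (c (c (l 7584800592406515749417517359) (c (l 7623486218634349290782245167) (l 7662171844861981277921542383))) (c (c (l 7700857471089564955259912431) (l 7749214503873686059589484783)) (l 7865271382555997561793118319)))) (c (c (l 6559631497373309728230310191) (c (l 6569302903930387015441498415) (b (l 6898130726865530348108120303) (l 5998689917072246654443454703)))) (c (c (b (l 6859445100637826480374759663) (l 5960004290844542786710765807)) (b (l 6791745254738997472329531631) (l 5863290225274948247378968815))) (c (l 6105075389197417441316257903) (l 5756904753147942169155551343)))))) (c (c (b (a (l 6869116507194657477015748911) (l 16800760)) (l 16799400)) (b (a (c (l 6898130726865558591820087599) (b (l 7343015428483707630928412975) (l 6337189146564336157572661551)))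 (l 144461499912225071)) (l 144466791279509807))) (c (b (a (c (b (l 7372029648154424096495730927) (l 6308174926893550422751396079)) (b (a (l 451139328231) (l 7014187605548273065096315119)) (l 6317846333450200687135867119))) (l 5727890533478507528169275631)) (l 144398827704549615)) (b (a (c (b (l 7497757933393623288881348719) (l 5979347103957635851306877039)) (l 7149587297344135784650686575)) (l 5515119589225513863360577647)) (l 143490974583357551))))) (c (l 605147889482090963823919) (l 604589875344325040122991))), by decide +kernel⟩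

def k22_pm_102 : ∃ t, chk3 f_pm_102 t 245 521 3 = true :=
  ⟨(c (b (a (b (a (b (a (l 3) (c (l 7343620601448711793982217263) (c (l 7362963494690590430948236335) (l 7372635529301497098920516655)))) (a (c (l 6889064531896481628621773871) (c (l 6918078782696113353194232879) (b (l 7527378024412336844124118063) (l 6482866106177234071867841583)))) (c (l 16802848) (l 605174550606067560094767)))) (c (l 5892909562282694187054554159) (l 5921923845364128040613452847))) (c (l 605148033411461602630703) (l 605165903694783009283119))) (l 605106672526618960882927)) (l 605171236132182614142191)) (b (a (b (b (a (a (l 3) (c (c (b (l 7904562765992872190550318127) (l 6995450537536995252798741551)) (b (l 7914234042557889579520302127) (a (l 7450006514279044297302514735) (l 6192723663320981836366945327)))) (c (b (l 7933576724815132873433111599) (a (l 7459677788826449053210434607) (l 6212066346154685882582866991))) (b (l 7943247979186411298721553455) (a (c (l 7469349095655655938111740975) (l 7450005483567219178763230255)) (l 6231409027547238048040524847))))))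 (a (c (c (l 6096009734373009798307388463) (l 6115352421241939110647749679)) (c (l 6134695106669716542229535791) (l 6144366384675885811957816367))) (l 604819450782648637234223))) (a (a (c (c (b (l 7537049298671511223880621103) (l 6502208786993325485022010415)) (b (a (l 459192424071) (l 7072821648182986453331762223)) (a (l 6840707880440684110326078511) (l 16793552)))) (c (b (a (l 460266160471) (c (l 7208221239675654020100398127) (l 7101835700391889009374665775))) (a (c (l 6860050591809195395564297263) (l 6869721930343743657155189807)) (l 16790872))) (b (a (l 458655541975) (c (l 7208221009956044227179273263) (l 7140520106828605268894325807))) (a (c (l 6889064225219361403169135663) (l 6792349109338700372316888111)) (l 16776888))))) (c (c (l 605737752761067996929071) (l 605608049091799721303087)) (c (l 605477192501026838813743) (l 605151203945599254830127)))) (l 604808209797978709449775))) (a (c (l 605659642329130880212015) (b (l 605397640917208963292207) (l 16789912))) (l 16772608))) (l 604842365180840674831599)) (l 604796824783401568038127))),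 by decide +kernel⟩

def k23_pm_102 : ∃ t, chk3 f_pm_102 t 123 260 3 = true :=
  ⟨(b (a (b (a (c (a (b (l 8446161249849766303694052399) (c (l 6511880135904167288094546991) (l 6550565214782351109576580143))) (c (l 6366808214940918250143833135) (l 6395822628590712500431756335))) (b (a (a (l 3) (b (l 3) (c (l 8291418305676000514115542063) (l 8330104481558995969012046895)))) (c (l 6802021698793081132394650671) (b (l 7972261702524454665676315695) (l 6328123326294782688761093167)))) (a (c (b (l 7517705765846427906261900335) (l 605761675882288596655151)) (b (a (l 8049633670655814917555674159) (l 6357137523195334072967863343)) (l 6028309689307400643681770543))) (l 604921196105430186482735)))) (a (c (l 604874214554117473246255) (l 604940219310256211598383)) (l 604962989509972194286639))) (a (c (l 604966160044109847895087) (l 604900587723557853555951)) (l 604978121736455374990575))) (b (a (l 604828818372334292085999) (l 604665391696485871611631)) (l 604750419665147207855855))) (a (b (a (l 605072661311721604639983) (l 604959386737953697115375))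 (l 605013285827090158562543)) (l 604097001217418440191727))), by decide +kernel⟩

def k24_pm_102 : ∃ t, chk3 f_pm_102 t 61 261 3 = true :=
  ⟨(a (b (a (a (b (c (b (a (b (c (l 6124418202312039033447809327) (c (l 6124418202312208358232178991) (l 6114746795755255453260497135))) (l 144337117653631215)) (l 16791240)) (l 144335537084891375)) (b (a (c (b (a (c (l 6269489300665782439757512943) (l 6066389762970064936338030703)) (l 16778248)) (l 16770096)) (b (l 5534462402339000827999895663) (l 16689856))) (l 143917791330074735)) (l 143747710593056879))) (l 144274995213680751)) (c (l 605106096090880544550191) (l 604695079465842707344495))) (b (a (l 604992533262684658773231) (l 605002621338906671590639)) (l 144265924249174255))) (a (b (l 603862670033825999923311) (l 144102578047287407)) (l 16776752))) (a (l 144029666684174575) (l 16782720))), by decide +kernel⟩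

def k25_pm_102 : ∃ t, chk3 f_pm_102 t 61 131 1 = true :=
  ⟨(a (b (b (a (l 143996543873499247) (l 143941155974201583)) (l 602796217285066959269487)) (l 602665648676867796659823)) (b (l 143629375690211567) (l 143752452273668335))), by decide +kernel⟩

def k26_pm_102 : ∃ t, chk3 f_pm_102 t 30 33 1 = true :=
  ⟨(a (b (b (a (b (a (l 142610746593181743) (l 143143803682766895)) (l 142794708665385007)) (b (l 143625802262134831) (l 143408648672002095))) (b (l 143173421777977391) (l 143109650087084079))) (c (l 16705968) (l 16595240))) (a (b (b (l 143407549173596271) (l 16741488)) (l 143182080547586159)) (b (l 143464998631047407) (l 143332163910680815)))), by decide +kernel⟩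

def k27_pm_102 : ∃ t, chk3 f_pm_102 t 31 16 1 = true :=
  ⟨(b (a (a (b (b (l 3) (b (b (l 3) (a (b (l 3) (b (l 3) (a (l 3) (a (l 3) (a (l 3) (c (l 7807847679223479151049694767) (l 8030290254564033941387091503))))))) (a (b (a (l 3) (a (l 3) (a (l 3) (l 6)))) (c (c (b (l 7362962963193776807175134767) (l 6299108382301096319311830575)) (b (a (l 445770662423) (l 6792350189049689436675284527)) (l 6337794092980264665355476527))) (c (b (l 7633762496667249341198605871) (l 6386151213386884182465699375)) (b (l 7740148025574720810462371375) (l 6424836175531765662514142767))))) (a (b (l 6) (c (l 604873926323741311245871) (l 604590884094360330133039))) (l 6))))) (b (b (a (a (b (l 3) (a (l 3) (c (c (l 7304934528752191001365667375) (l 7411320126546722370891931183)) (c (l 7517705775646260695422737967) (l 7614419836027284258669812783))))) (c (c (b (l 7130849201216081987199622703) (l 6057323227025081768921898543)) (l 6627936158831184894408941103)) (c (l 6685964701935622509414358575) (l 6734321841365446852539751983)))) (a (c (l 604893237758943471328815)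 (l 604298042032190191820335)) (c (l 604843373903869231423023) (l 604142541686119624846959)))) (a (a (c (c (b (l 6685964471063091211887762991) (l 604879114470512050576943)) (l 6444179484690077086404894255)) (c (l 6492536514304128115730013743) (l 6540893740203065304368880687))) (c (l 604923790178815543909935) (l 604423998706568484970031))) (a (c (l 604877385088255135440431) (l 604271380691815956164335)) (l 604110548275926315527791)))) (a (b (a (c (l 604956071980944537558575) (l 604552693616936647683823)) (c (l 604909378660007934434863) (l 604398778544669456183023))) (a (c (l 604943245870630445690607) (l 604529346931660625129199)) (l 604270804216976159928047))) (c (l 604134759440399882251887) (l 604305680078746620358255)))))) (b (a (b (b (c (l 604205952354235756228335) (l 603817129646626099212015)) (l 144017709485195503)) (l 143965551400468719)) (b (b (l 604140812233150369066607) (l 143954487557095535)) (l 143916898003353711))) (l 143691635521339503))) (b (b (l 6) (b (l 6) (b (l 6) (a (l 603986320719784645193327) (l 6)))))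 (b (b (a (l 143916279520378991) (l 6)) (l 143844055346561135)) (l 143785506312110191)))) (b (l 6) (a (b (l 6) (l 143329346408562799)) (l 6)))) (a (c (b (a (l 16777488) (l 16764632)) (a (l 16752216) (l 16738080))) (b (l 143370028326600815) (l 143459501073825903))) (b (a (l 143064707626188911) (a (l 142976677965561967) (l 6))) (a (l 143163251340984431) (c (l 16670376) (l 16710432)))))), by decide +kernel⟩

def k28_pm_102 : ∃ t, chk3 f_pm_102 t 15 17 1 = true :=
  ⟨(a (b (a (c (l 142678229294792815) (l 142986367323439151)) (b (l 142744131247636591) (l 142664760237523055))) (a (l 141911388446228527) (l 142037076378648687))) (a (b (c (l 143001623067885679) (l 142991315131400303)) (c (l 16562280) (l 16566864))) (a (b (l 142555496184184943) (a (l 16558792) (l 16531720))) (b (b (c (l 16679752) (l 16695904)) (l 16607576)) (b (l 16607864) (l 16563304)))))), by decide +kernel⟩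

def k29_pm_102 : ∃ t, chk3 f_pm_102 t 3 9 1 = true :=
  ⟨(a (b (a (c (b (a (l 16325632) (b (l 16329688) (l 16378960))) (a (l 16413376) (l 16425696))) (a (b (l 16353664) (l 16370264)) (b (l 16341640) (l 16398368)))) (a (b (c (b (l 16375448) (l 16412208)) (b (l 16366624) (l 16402592))) (c (l 16446008) (l 16419336))) (c (b (b (l 16432416) (l 16460776)) (l 16489456)) (b (l 16424104) (l 16442912))))) (a (a (b (l 16224952) (l 16236464)) (b (l 16318936) (l 16284944))) (c (a (l 16446968) (l 16394080)) (a (l 16306560) (l 16191608))))) (a (b (a (b (c (l 16469592) (l 16474200)) (c (l 16551104) (l 16466544))) (b (c (l 16541400) (l 16514104)) (c (l 16561376) (l 16471144)))) (b (a (c (l 16508680) (l 16385704)) (c (l 16482240) (l 16378576))) (a (l 16252480) (c (l 16400280) (l 16282376))))) (a (b (a (b (l 16475224) (l 16471952)) (b (l 141787968189169775) (l 16404840))) (b (a (l 16401288) (l 16372520)) (a (l 16307416) (l 16275464)))) (b (c (a (l 141418532118003823) (b (l 16505440) (l 16413680))) (a (b (l 16514464) (l 16412088)) (b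 (l 16492408) (l 16385288)))) (b (a (l 16334872) (l 16233832)) (a (l 16234560) (c (l 16223960) (l 16160216)))))))), by decide +kernel⟩

def k30_pm_102 : ∃ t, chk3 f_pm_102 t 2 5 1 = true :=
  ⟨(a (b (b (a (l 2) (b (c (l 16316520) (a (l 2) (l 16184552))) (l 2))) (l 2)) (l 2)) (b (c (b (b (a (a (l 16410424) (l 16405352)) (l 16377272)) (a (b (l 16377624) (a (l 16360352) (l 16344480))) (b (l 16359376) (a (l 16331840) (l 16321896))))) (a (a (l 16328440) (l 16306696)) (a (l 16288272) (l 16272616)))) (b (a (b (a (l 16183536) (l 16186800)) (b (l 16090208) (a (l 16048840) (l 15955632)))) (b (l 16005800) (b (l 16067136) (b (l 16084904) (a (l 16110160) (l 16105856)))))) (a (a (l 16098400) (l 16081032)) (a (l 16067584) (l 16056184))))) (b (a (a (l 2) (c (l 16265016) (l 16033416))) (a (c (l 16238224) (l 16008480)) (c (l 16213496) (l 15984840)))) (a (l 2) (a (l 4930581463) (l 10836007127)))))), by decide +kernel⟩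

def k31_pm_102 : ∃ t, chk3 f_pm_102 t 3 5 1 = true :=
  ⟨(a (b (b (b (a (a (l 16156288) (l 16199720)) (a (l 16220200) (l 16214896))) (c (a (b (l 16347472) (a (l 16292800) (l 16306096))) (b (l 16331224) (a (l 16275776) (l 16239928)))) (a (b (l 16069496) (b (l 16081864) (a (l 16102552) (l 16099520)))) (b (l 16088176) (b (l 16117184) (a (l 16095552) (l 16088080))))))) (a (c (a (l 16258680) (l 16244712)) (a (l 16045648) (l 16035184))) (a (c (l 16228272) (l 16023512)) (c (l 16205800) (l 16008056))))) (a (c (a (l 16010736) (l 15980136)) (a (b (l 15961280) (l 15886840)) (b (l 15936968) (l 15848304)))) (a (c (l 15903424) (b (l 15910576) (l 15806856))) (c (l 15819472) (b (l 15879584) (l 15760064)))))) (a (b (b (b (a (c (l 16358312) (l 16206400)) (l 16042008)) (b (a (l 16218752) (l 16183632)) (a (b (l 16185000) (l 15992544)) (b (l 16148944) (b (l 16130504) (l 16118072)))))) (a (c (l 16171968) (l 15985384)) (c (l 16121432) (l 15950368)))) (c (a (b (l 16053000) (l 15940376)) (b (l 15989768) (l 15875288))) (a (b (l 15840776) (l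 15704296)) (b (l 15789560) (l 15647544))))) (b (b (b (a (a (l 16213040) (l 16178568)) (a (l 16135216) (c (l 16138808) (l 16056352)))) (a (b (l 16063208) (b (l 16090984) (b (l 16073128) (l 16040720)))) (b (a (l 16063168) (l 16035040)) (a (b (l 16030280) (b (l 16014856) (l 16005896))) (l 15996536))))) (a (c (b (l 16085968) (l 16017136)) (b (l 15941048) (l 15855704))) (c (a (l 15994464) (l 15965216)) (a (l 15854864) (l 15835624))))) (a (b (c (l 15902984) (a (l 15748576) (l 15722088))) (c (l 15804984) (l 15586648))) (b (c (a (l 15866488) (l 15830520)) (a (l 15691024) (l 15662352))) (c (l 15718080) (l 15508880))))))), by decide +kernel⟩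

def k32_pm_102 : ∃ t, chk3 f_pm_102 t 1 3 1 = true :=
  ⟨(a (a (l 2) (b (a (l 2) (a (l 2) (b (b (l 15766168) (l 2)) (l 2)))) (l 2))) (a (b (a (b (c (a (l 16026704) (l 15952608)) (a (l 15629272) (l 15506144))) (a (l 2) (b (l 15578432) (l 2)))) (a (b (c (l 15872840) (b (l 15713928) (l 15633072))) (b (l 15454496) (c (l 15796216) (l 15511704)))) (b (b (c (l 15910080) (l 15651112)) (c (l 15828240) (l 15553488))) (c (b (l 15763776) (l 15711720)) (b (l 15475896) (l 15412648)))))) (a (l 2) (a (l 2) (b (c (l 15593136) (l 213235047559)) (l 2))))) (b (a (b (c (a (b (l 15840944) (l 15757504)) (b (l 15772240) (l 15679840))) (a (b (l 15582936) (l 15479520)) (b (l 15517712) (l 15400056)))) (c (a (b (l 15683992) (l 15621760)) (b (l 15595384) (l 15520240))) (a (b (l 15387304) (l 15308952)) (b (l 15292264) (l 15196072))))) (b (a (c (b (l 15692960) (l 15587088)) (b (l 15443056) (l 15306952))) (c (b (l 15591776) (l 15471304)) (b (l 15345840) (l 15189840)))) (a (c (b (l 15489072) (l 15400456)) (b (l 15180488) (l 15065656))) (c (b (l 15358616)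 (l 15255520)) (b (l 15043360) (l 14908712)))))) (a (a (b (c (l 15548576) (b (l 15243672) (l 15192776))) (l 2)) (b (c (l 15428128) (b (l 15113080) (l 15044792))) (c (l 15348384) (l 14973488)))) (b (a (c (b (l 15322688) (l 15257112)) (b (l 14964296) (l 14878112))) (c (b (l 15163688) (l 15084664)) (b (l 14788016) (l 14683248)))) (a (c (l 15184752) (b (l 14808704) (l 14757560))) (c (l 14993792) (b (l 14596264) (l 14528784))))))))), by decide +kernel⟩

theorem s33_pm_102 : ∃ t, chk3 f_pm_102 t 1 5 1 = true := ex3_a k30_pm_102 k31_pm_102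

theorem s34_pm_102 : ∃ t, chk3 f_pm_102 t 244 1043 3 = true := ex3_b k20_pm_102 k21_pm_102

theorem s35_pm_102 : ∃ t, chk3 f_pm_102 t 244 521 3 = true := ex3_b k19_pm_102 s34_pm_102

theorem s36_pm_102 : ∃ t, chk3 f_pm_102 t 122 521 3 = true := ex3_a s35_pm_102 k22_pm_102

theorem s37_pm_102 : ∃ t, chk3 f_pm_102 t 122 260 3 = true := ex3_b k18_pm_102 s36_pm_102

theorem s38_pm_102 : ∃ t, chk3 f_pm_102 t 61 260 3 = true := ex3_a s37_pm_102 k23_pm_102

theorem s39_pm_102 : ∃ t, chk3 f_pm_102 t 61 130 3 = true := ex3_b s38_pm_102 k24_pm_102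

theorem s40_pm_102 : ∃ t, chk3 f_pm_102 t 122 260 2 = true := ex3_b k14_pm_102 k15_pm_102

theorem s41_pm_102 : ∃ t, chk3 f_pm_102 t 61 260 2 = true := ex3_a s40_pm_102 k16_pm_102

theorem s42_pm_102 : ∃ t, chk3 f_pm_102 t 61 130 2 = true := ex3_b s41_pm_102 k17_pm_102

theorem s43_pm_102 : ∃ t, chk3 f_pm_102 t 61 130 1 = true := ex3_c s42_pm_102 s39_pm_102

theorem s44_pm_102 : ∃ t, chk3 f_pm_102 t 61 65 1 = true := ex3_b s43_pm_102 k25_pm_102

theorem s45_pm_102 : ∃ t, chk3 f_pm_102 t 121 522 1 = true := ex3_b k10_pm_102 k11_pm_102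

theorem s46_pm_102 : ∃ t, chk3 f_pm_102 t 121 261 1 = true := ex3_b s45_pm_102 k12_pm_102

theorem s47_pm_102 : ∃ t, chk3 f_pm_102 t 60 261 1 = true := ex3_a k9_pm_102 s46_pm_102

theorem s48_pm_102 : ∃ t, chk3 f_pm_102 t 60 130 1 = true := ex3_b k8_pm_102 s47_pm_102

theorem s49_pm_102 : ∃ t, chk3 f_pm_102 t 60 65 1 = true := ex3_b s48_pm_102 k13_pm_102

theorem s50_pm_102 : ∃ t, chk3 f_pm_102 t 30 65 1 = true := ex3_a s49_pm_102 s44_pm_102

theorem s51_pm_102 : ∃ t, chk3 f_pm_102 t 30 32 1 = true := ex3_b k7_pm_102 s50_pm_102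

theorem s52_pm_102 : ∃ t, chk3 f_pm_102 t 30 16 1 = true := ex3_b s51_pm_102 k26_pm_102

theorem s53_pm_102 : ∃ t, chk3 f_pm_102 t 15 16 1 = true := ex3_a s52_pm_102 k27_pm_102

theorem s54_pm_102 : ∃ t, chk3 f_pm_102 t 15 8 1 = true := ex3_b s53_pm_102 k28_pm_102

theorem s55_pm_102 : ∃ t, chk3 f_pm_102 t 14 16 1 = true := ex3_b k4_pm_102 k5_pm_102

theorem s56_pm_102 : ∃ t, chk3 f_pm_102 t 14 8 1 = true := ex3_b s55_pm_102 k6_pm_102

theorem s57_pm_102 : ∃ t, chk3 f_pm_102 t 7 8 1 = true := ex3_a s56_pm_102 s54_pm_102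

theorem s58_pm_102 : ∃ t, chk3 f_pm_102 t 6 17 1 = true := ex3_a k2_pm_102 k3_pm_102

theorem s59_pm_102 : ∃ t, chk3 f_pm_102 t 6 8 1 = true := ex3_b k1_pm_102 s58_pm_102

theorem s60_pm_102 : ∃ t, chk3 f_pm_102 t 3 8 1 = true := ex3_a s59_pm_102 s57_pm_102

theorem s61_pm_102 : ∃ t, chk3 f_pm_102 t 3 4 1 = true := ex3_b s60_pm_102 k29_pm_102

theorem s62_pm_102 : ∃ t, chk3 f_pm_102 t 1 4 1 = true := ex3_a k0_pm_102 s61_pm_102

theorem s63_pm_102 : ∃ t, chk3 f_pm_102 t 1 2 1 = true := ex3_b s62_pm_102 s33_pm_102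

theorem s64_pm_102 : ∃ t, chk3 f_pm_102 t 1 1 1 = true := ex3_b s63_pm_102 k32_pm_102

theorem c_pm_102 : CertB 536870912 536870912 0 536870912 991146299 28908434 3 eng mog cd0q1 cd2q0 pd2 true true false .npp 1 0 2
    ndB0q1 ndB2q0 pcB2 cut_pm_102 xt_pm_102 :=
  certB1 (fam := true) (s1 := true) (s2 := false) (a := 1) (b := 0) (c := 2) (cn := .npp) (n1 := ndB0q1) (n2 := ndB2q0) (pc := pcB2) (cut := cut_pm_102) (xt := xt_pm_102) (P1 := 536870912) (W1 := 536870912) (P2 := 0) (W2 := 536870912) (P3 := 991146299) (W3 := 28908434) (N0 := 3) (En := eng) (mo := mog) (C1 := cd0q1) (C2 := cd2q0) (C3 := pd2)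
    rfl (fun _ => rfl) s64_pm_102

noncomputable def f_pm_112 : ℕ → ℕ → ℕ → ℕ → Bool := onCell 536870912 536870912 1073741824 536870912 991146299 28908434
    (rowB 3 eng mog cd0q1 cd2q1 pd2 1 true true false .dn 1 1 2 (qsf 536870912 536870912 536870912 536870912 2) ndB0q1 ndB2q1 pcB2 Cut.none Ext.none)

def k0_pm_112 : ∃ t, chk3 f_pm_112 t 1 4 1 = true :=
  ⟨(a (b (a (l 3) (l 1)) (a (b (b (a (l 3) (a (b (l 3) (a (l 15673304) (l 15693800))) (l 1))) (b (a (a (l 15754896) (l 149952589527)) (a (c (l 15707824) (l 15607784)) (l 1))) (a (a (c (l 15798592) (l 15698352)) (l 15678432)) (a (c (l 15703432) (l 15604408)) (c (l 15661640) (l 15565016)))))) (a (a (b (b (l 15745336) (l 15741600)) (a (l 15727792) (l 15722744))) (b (b (l 15674648) (l 15671072)) (l 15665912))) (b (a (b (c (l 15699752) (l 15601184)) (l 15648352)) (c (l 15658752) (l 15561768))) (a (l 15707024) (l 41907310439))))) (b (l 1) (a (b (l 1) (a (l 192231173399) (l 1))) (l 1))))) (l 1)), by decide +kernel⟩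

def k1_pm_112 : ∃ t, chk3 f_pm_112 t 1 5 1 = true :=
  ⟨(a (a (b (b (b (a (c (l 15730032) (l 15653320)) (a (c (l 15686408) (l 15588128)) (b (l 15602552) (c (l 15646944) (l 15549424))))) (a (b (c (l 15723320) (l 15626664)) (b (a (l 15717136) (l 15670832)) (b (a (l 15716448) (l 15669896)) (a (l 15717264) (l 15669456))))) (a (b (c (l 15680256) (l 15582584)) (b (l 15627696) (b (l 15624888) (l 15622952)))) (b (l 15591912) (b (l 15584760) (b (l 15580160) (l 15576864))))))) (a (c (l 15712328) (l 15640680)) (c (a (l 15662792) (l 15615760)) (l 15460896)))) (a (a (l 15694832) (l 15585472)) (c (a (l 15645336) (l 15597712)) (b (l 15514288) (l 15507976))))) (a (b (b (b (a (b (c (l 15615832) (l 15519704)) (l 15560992)) (l 1)) (b (a (l 15550200) (l 1)) (b (a (l 15540968) (l 1)) (a (b (l 15534744) (c (l 15577184) (l 15482272))) (b (l 1) (c (l 15528320) (l 15434776))))))) (a (c (l 15567536) (l 15473024)) (c (l 15517160) (l 15423336)))) (c (a (l 15547600) (b (l 15500808) (l 15487240))) (b (a (l 15460208) (l 15407104)) (l 15402520))))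 (a (b (b (l 1) (c (l 15464040) (l 15370192))) (c (b (l 15444712) (l 15428272)) (b (l 15349592) (l 15332880)))) (b (l 1) (c (l 79487801895) (b (l 15285840) (l 15263856))))))) (a (b (l 1) (a (a (b (l 1) (c (l 15293968) (l 15186480))) (l 1)) (l 1))) (l 1))), by decide +kernel⟩

def k2_pm_112 : ∃ t, chk3 f_pm_112 t 2 3 1 = true :=
  ⟨(a (b (a (b (c (l 15672536) (l 15578528)) (b (l 15630088) (l 15628120))) (b (b (a (l 15591864) (l 15542832)) (l 15355872)) (b (l 15524584) (l 15549832)))) (a (a (b (l 15658672) (l 15593240)) (b (l 15635976) (l 15646280))) (a (b (l 15603544) (l 15626968)) (b (l 15582168) (l 15593456))))) (b (a (b (b (a (l 15489856) (l 15432008)) (a (l 15486632) (l 15426712))) (b (a (l 15487408) (l 15425808)) (a (l 15492416) (l 15429600)))) (b (c (a (l 15410400) (l 15341096)) (b (l 15284448) (l 15274696))) (b (a (l 15355992) (l 15276920)) (a (l 15357304) (l 15274568))))) (a (b (b (a (l 15501848) (l 15438360)) (l 15296840)) (b (l 15399944) (l 15466232))) (b (c (l 15305744) (b (l 15280032) (l 15294720))) (c (l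 15395840) (b (l 15316464) (l 15345552))))))), by decide +kernel⟩

def k3_pm_112 : ∃ t, chk3 f_pm_112 t 3 3 1 = true :=
  ⟨(a (b (a (b (a (b (c (l 15272760) (l 15162792)) (l 15200320)) (b (l 131563677159) (l 55327949783))) (c (a (l 15238888) (l 15142608)) (b (l 15079088) (l 15069520)))) (a (b (c (l 83245329639) (l 81097665671)) (b (l 15036448) (c (l 15025016) (l 14882424)))) (b (l 1) (b (c (l 14929176) (l 132637104231)) (c (l 14912976) (l 14751304)))))) (a (b (b (c (l 15161568) (l 15066888)) (a (l 15185120) (c (l 15129160) (l 15006592)))) (c (a (b (l 15246096) (l 15262112)) (b (l 15138784) (l 15154320))) (a (l 15139104) (b (l 15019968) (l 15040512))))) (b (c (a (b (l 15018688) (l 15017728)) (b (l 14902616) (l 14898336))) (b (a (l 14874264) (l 14734968)) (a (l 14872208) (l 14726336)))) (c (a (l 15029752) (l 14903776)) (b (l 14803264) (l 14814584)))))) (b (a (a (a (b (l 1) (b (l 1) (l 14924896))) (l 1)) (l 1)) (l 1)) (a (a (b (c (b (l 14778168) (l 14768344)) (b (l 14585632) (l 14567880))) (c (l 14766464) (l 14557472)))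 (b (c (l 142300562167) (b (l 14422320) (l 14394816))) (c (l 14616944) (l 14392144)))) (b (a (c (l 200819182039) (b (l 1) (l 14203224))) (l 1)) (a (c (l 14473824) (b (l 14175408) (l 14158768))) (c (l 14437856) (b (l 13950976) (l 13927136)))))))), by decide +kernel⟩

theorem s4_pm_112 : ∃ t, chk3 f_pm_112 t 1 3 1 = true := ex3_a k2_pm_112 k3_pm_112

theorem s5_pm_112 : ∃ t, chk3 f_pm_112 t 1 2 1 = true := ex3_b k0_pm_112 k1_pm_112

theorem s6_pm_112 : ∃ t, chk3 f_pm_112 t 1 1 1 = true := ex3_b s5_pm_112 s4_pm_112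

theorem c_pm_112 : CertB 536870912 536870912 536870912 536870912 991146299 28908434 3 eng mog cd0q1 cd2q1 pd2 true true false .dn 1 1 2
    ndB0q1 ndB2q1 pcB2 Cut.none Ext.none :=
  certB1 (fam := true) (s1 := true) (s2 := false) (a := 1) (b := 1) (c := 2) (cn := .dn) (n1 := ndB0q1) (n2 := ndB2q1) (pc := pcB2) (cut := Cut.none) (xt := Ext.none) (P1 := 536870912) (W1 := 536870912) (P2 := 536870912) (W2 := 536870912) (P3 := 991146299) (W3 := 28908434) (N0 := 3) (En := eng) (mo := mog) (C1 := cd0q1) (C2 := cd2q1) (C3 := pd2)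
    rfl (fun _ => rfl) s6_pm_112

noncomputable def f_pm_113 : ℕ → ℕ → ℕ → ℕ → Bool := onCell 536870912 536870912 1610612736 536870912 991146299 28908434
    (rowB 3 eng mog cd0q1 cd2q1 pd3 1 true true false .nn 1 1 3 (qsf 536870912 536870912 536870912 536870912 3) ndB0q1 ndB2q1 pcB3 Cut.none Ext.none)

def k0_pm_113 : ∃ t, chk3 f_pm_113 t 2 1 1 = true :=
  ⟨(b (b (a (a (b (a (b (a (l 15434768) (l 15395784)) (a (l 2) (l 15452672))) (b (l 15429904) (l 15442800))) (a (l 2) (b (a (l 2) (l 15488752)) (l 2)))) (b (c (a (l 15484720) (l 15518608)) (a (l 15464784) (l 15479680))) (a (b (l 15505128) (l 15554648)) (b (l 15533736) (l 15569704))))) (a (b (c (a (l 15527760) (l 15512328)) (a (l 15476080) (l 15454056))) (a (b (l 15547208) (l 15585352)) (b (l 15534208) (l 15578424)))) (b (a (b (l 15430880) (l 15458184)) (b (l 15369888) (c (l 15421000) (l 15365728)))) (a (c (l 15541592) (l 15490848)) (b (a (l 15448608) (l 15409152)) (l 15326536)))))) (a (b (a (l 2) (a (l 2) (b (l 15623048) (l 2)))) (l 2)) (a (b (a (b (l 15632256) (l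 15687936)) (b (l 15630840) (l 15688352))) (a (l 2) (b (l 15745112) (l 2)))) (b (a (b (l 15578240) (a (l 15675672) (l 15651480))) (b (l 15525184) (l 15585304))) (a (b (a (l 15740720) (l 15718552)) (l 15695856)) (b (l 15650712) (l 15711128))))))) (a (l 2) (b (b (a (l 2) (a (l 2) (l 15589400))) (l 2)) (l 2)))), by decide +kernel⟩

def k1_pm_113 : ∃ t, chk3 f_pm_113 t 3 1 1 = true :=
  ⟨(b (a (b (a (b (a (b (c (l 15315840) (l 15261624)) (a (l 15333168) (l 15289568))) (c (l 15238944) (l 15183088))) (b (a (l 15343032) (l 15249984)) (a (l 15383152) (l 15286848)))) (b (c (l 15292048) (a (l 15087200) (l 14983176))) (c (l 15151896) (l 15079656)))) (a (b (a (l 15312176) (l 15442888)) (a (l 15437536) (l 15482000))) (b (a (l 15256032) (l 15150608)) (a (l 15380080) (l 15279680))))) (b (a (b (c (l 14904888) (l 15062904)) (c (l 14951688) (l 14884976))) (b (a (c (l 14737040) (l 14613584)) (c (l 14610808) (l 14461328))) (a (l 14758672) (l 14709032)))) (a (b (c (l 15048744) (l 14929320)) (a (l 15181880) (l 15087472))) (b (a (l 14821768)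 (l 14703112)) (a (b (l 14944944) (l 15053040)) (b (l 14853104) (l 14992856))))))) (a (b (b (a (b (l 15464456) (l 15562040)) (a (l 15532144) (l 15445584))) (a (b (l 15742360) (l 2)) (b (l 15616728) (a (l 15732936) (l 15698672))))) (a (l 2) (b (b (a (l 2) (l 15869752)) (l 2)) (l 2)))) (b (a (b (b (l 15279352) (a (l 15421960) (l 15369960))) (b (a (l 15541640) (l 15517424)) (a (l 15681528) (l 15689704)))) (b (a (b (l 15186360) (l 15346360)) (b (l 15164744) (l 15341688))) (b (a (l 15518456) (l 15524072)) (a (l 15711256) (l 15729360))))) (a (b (b (a (l 15887344) (l 15914104)) (l 16420744)) (l 4)) (b (b (a (l 15963592) (l 4)) (l 4)) (l 4)))))), by decide +kernel⟩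

theorem s2_pm_113 : ∃ t, chk3 f_pm_113 t 1 1 1 = true := ex3_a k0_pm_113 k1_pm_113

theorem c_pm_113 : CertB 536870912 536870912 536870912 536870912 991146299 28908434 3 eng mog cd0q1 cd2q1 pd3 true true false .nn 1 1 3
    ndB0q1 ndB2q1 pcB3 Cut.none Ext.none :=
  certB1 (fam := true) (s1 := true) (s2 := false) (a := 1) (b := 1) (c := 3) (cn := .nn) (n1 := ndB0q1) (n2 := ndB2q1) (pc := pcB3) (cut := Cut.none) (xt := Ext.none) (P1 := 536870912) (W1 := 536870912) (P2 := 536870912) (W2 := 536870912) (P3 := 991146299) (W3 := 28908434) (N0 := 3) (En := eng) (mo := mog) (C1 := cd0q1) (C2 := cd2q1) (C3 := pd3)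
    rfl (fun _ => rfl) s2_pm_113

end Pool.Agent.Strip051.G.I9231_9500.Tab.C.BA02

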