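import Pool.Agent.Strip051.G.I9231_9500.Gn
import Pool.Agent.Strip051.PB.Corns
import Pool.Agent.Strip051.PB.CornW

/-! # Certificates of the aligned corners (generated) -/

set_option linter.all false

namespace Pool.Agent.Strip051.G.I9231_9500.Tab.CG

open Pool.Agent.Strip051.PB

def B012E_200_1_8_1 :
    ∃ t, chk3 (onCell 0 44739242 0 1073741824 991146299 28908434 (corT true 1 c0B cB012E gB2q0 gB0q2 gB0q1 gB1q1 true false)) t 1 8 1 = true :=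
  ⟨(T.l 1), by decide +kernel⟩

def B012E_200_1_36_1 :
    ∃ t, chk3 (onCell 0 44739242 0 1073741824 991146299 28908434 (corT true 1 c0B cB012E gB2q0 gB0q2 gB0q1 gB1q1 true false)) t 1 36 1 = true :=
  ⟨(T.l 1), by decide +kernel⟩

def B012E_200_1_74_1 :
    ∃ t, chk3 (onCell 0 44739242 0 1073741824 991146299 28908434 (corT true 1 c0B cB012E gB2q0 gB0q2 gB0q1 gB1q1 true false)) t 1 74 1 = true :=
  ⟨(T.l 1), by decide +kernel⟩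

def B012E_200_2_600_1 :
    ∃ t, chk3 (onCell 0 44739242 0 1073741824 991146299 28908434 (corT true 1 c0B cB012E gB2q0 gB0q2 gB0q1 gB1q1 true false)) t 2 600 1 = true :=
  ⟨(T.l 1), by decide +kernel⟩

def B012E_200_2_1202_1 :
    ∃ t, chk3 (onCell 0 44739242 0 1073741824 991146299 28908434 (corT true 1 c0B cB012E gB2q0 gB0q2 gB0q1 gB1q1 true false)) t 2 1202 1 = true :=
  ⟨(T.a (T.c (T.l 0) (T.l 204)) (T.b (T.l 1) (T.a (T.b (T.l 1) (T.b (T.a (T.l 1) (T.c (T.l 236) (T.c (T.l 204) (T.l 236)))) (T.a (T.c (T.c (T.l 0) (T.l 236)) (T.a (T.l 204) (T.l 236))) (T.c (T.l 236) (T.c (T.l 204) (T.l 204)))))) (T.b (T.a (T.l 1) (T.b (T.l 1) (T.b (T.l 1) (T.c (T.c (T.l 0) (T.l 204)) (T.c (T.l 236) (T.l 236)))))) (T.a (T.c (T.l 204) (T.c (T.l 204) (T.l 204))) (T.b (T.c (T.c (T.l 0) (T.l 204)) (T.c (T.l 236) (T.l 236))) (T.c (T.c (T.l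 0) (T.l 204)) (T.c (T.l 204) (T.l 236))))))))), by decide +kernel⟩

def B012E_200_4_1203_1 :
    ∃ t, chk3 (onCell 0 44739242 0 1073741824 991146299 28908434 (corT true 1 c0B cB012E gB2q0 gB0q2 gB0q1 gB1q1 true false)) t 4 1203 1 = true :=
  ⟨(T.c (T.l 0) (T.l 204)), by decide +kernel⟩

def B012E_200_5_2406_1 :
    ∃ t, chk3 (onCell 0 44739242 0 1073741824 991146299 28908434 (corT true 1 c0B cB012E gB2q0 gB0q2 gB0q1 gB1q1 true false)) t 5 2406 1 = true :=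
  ⟨(T.a (T.b (T.b (T.a (T.c (T.c (T.l 0) (T.l 236)) (T.a (T.l 204) (T.l 236))) (T.c (T.l 236) (T.c (T.l 204) (T.l 204)))) (T.a (T.c (T.c (T.l 0) (T.l 236)) (T.a (T.l 204) (T.l 236))) (T.c (T.l 236) (T.c (T.l 204) (T.l 204))))) (T.b (T.a (T.c (T.c (T.l 0) (T.l 236)) (T.a (T.l 204) (T.l 204))) (T.c (T.l 236) (T.c (T.l 204) (T.l 204)))) (T.a (T.c (T.c (T.l 0) (T.l 204)) (T.a (T.l 204) (T.l 204))) (T.c (T.l 236) (T.c (T.l 204) (T.l 204)))))) (T.b (T.b (T.a (T.c (T.l 204) (T.l 236)) (T.c (T.c (T.l 0) (T.l 204)) (T.c (T.l 204) (T.l 236)))) (T.a (T.c (T.l 204) (T.l 236)) (T.c (T.c (T.l 0) (T.l 204)) (T.c (T.l 204) (T.l 236))))) (T.b (T.a (T.c (T.l 204) (T.l 236)) (T.c (T.c (T.l 0) (T.l 204)) (T.c (T.l 204) (T.l 236)))) (T.a (T.c (T.l 204) (T.l 236)) (T.c (T.c (T.l 0) (T.l 204)) (T.c (T.l 204) (T.l 236))))))), by decide +kernel⟩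

def B012E_200_5_2407_1 :
    ∃ t, chk3 (onCell 0 44739242 0 1073741824 991146299 28908434 (corT true 1 c0B cB012E gB2q0 gB0q2 gB0q1 gB1q1 true false)) t 5 2407 1 = true :=
  ⟨(T.a (T.b (T.b (T.a (T.c (T.c (T.l 0) (T.l 204)) (T.a (T.l 204) (T.l 204))) (T.c (T.l 236) (T.c (T.l 204) (T.l 204)))) (T.a (T.c (T.c (T.l 0) (T.l 204)) (T.a (T.l 204) (T.l 204))) (T.c (T.l 236) (T.c (T.l 204) (T.l 204))))) (T.b (T.a (T.c (T.c (T.l 0) (T.l 204)) (T.a (T.l 204) (T.l 204))) (T.c (T.l 204) (T.c (T.l 204) (T.l 204)))) (T.a (T.c (T.c (T.l 0) (T.l 204)) (T.a (T.l 204) (T.l 204))) (T.c (T.l 0) (T.c (T.l 204) (T.l 204)))))) (T.b (T.b (T.a (T.c (T.l 204) (T.l 236)) (T.c (T.c (T.l 0) (T.l 204)) (T.c (T.l 204) (T.l 204)))) (T.a (T.c (T.l 204) (T.l 236)) (T.c (T.c (T.l 0) (T.l 204)) (T.c (T.l 204) (T.l 204))))) (T.b (T.a (T.c (T.l 204) (T.l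 236)) (T.c (T.c (T.l 0) (T.l 204)) (T.c (T.l 204) (T.l 204)))) (T.a (T.c (T.l 204) (T.l 236)) (T.c (T.c (T.l 0) (T.l 204)) (T.c (T.l 204) (T.l 204))))))), by decide +kernel⟩

def B012E_200_3_600_1 :
    ∃ t, chk3 (onCell 0 44739242 0 1073741824 991146299 28908434 (corT true 1 c0B cB012E gB2q0 gB0q2 gB0q1 gB1q1 true false)) t 3 600 1 = true :=
  ⟨(T.a (T.l 1) (T.a (T.l 1) (T.l 1))), by decide +kernel⟩

def B012E_200_6_1202_1 :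
    ∃ t, chk3 (onCell 0 44739242 0 1073741824 991146299 28908434 (corT true 1 c0B cB012E gB2q0 gB0q2 gB0q1 gB1q1 true false)) t 6 1202 1 = true :=
  ⟨(T.b (T.a (T.l 1) (T.b (T.l 1) (T.b (T.l 1) (T.a (T.c (T.l 236) (T.c (T.l 204) (T.l 204))) (T.c (T.c (T.l 204) (T.l 204)) (T.c (T.l 204) (T.l 204))))))) (T.a (T.b (T.a (T.c (T.l 236) (T.c (T.l 204) (T.l 204))) (T.c (T.l 236) (T.c (T.l 204) (T.l 204)))) (T.a (T.c (T.l 236) (T.c (T.l 204) (T.l 204))) (T.c (T.l 236) (T.c (T.l 204) (T.l 204))))) (T.b (T.a (T.c (T.l 236) (T.c (T.l 204) (T.l 204))) (T.c (T.c (T.l 204) (T.l 204)) (T.c (T.l 204) (T.l 204)))) (T.a (T.c (T.l 236) (T.c (T.l 204) (T.l 204))) (T.c (T.c (T.l 204) (T.l 204)) (T.c (T.l 204) (T.l 204))))))), by decide +kernel⟩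

def B012E_200_7_2404_1 :
    ∃ t, chk3 (onCell 0 44739242 0 1073741824 991146299 28908434 (corT true 1 c0B cB012E gB2q0 gB0q2 gB0q1 gB1q1 true false)) t 7 2404 1 = true :=
  ⟨(T.a (T.b (T.a (T.l 1) (T.a (T.l 1) (T.b (T.l 1) (T.c (T.c (T.l 204) (T.l 204)) (T.l 40))))) (T.a (T.b (T.c (T.c (T.l 236) (T.l 204)) (T.c (T.l 204) (T.l 0))) (T.c (T.c (T.l 204) (T.l 204)) (T.c (T.l 204) (T.l 0)))) (T.b (T.c (T.c (T.l 236) (T.l 204)) (T.c (T.l 0) (T.l 0))) (T.c (T.c (T.l 236) (T.l 204)) (T.c (T.l 0) (T.l 0)))))) (T.b (T.a (T.b (T.a (T.l 1) (T.a (T.l 1) (T.c (T.l 236) (T.c (T.l 0) (T.l 816))))) (T.c (T.c (T.l 236) (T.l 204)) (T.c (T.l 0) (T.l 0)))) (T.b (T.c (T.c (T.l 236) (T.l 204)) (T.c (T.l 0) (T.l 816))) (T.c (T.c (T.l 236) (T.l 204)) (T.c (T.l 0) (T.l 816))))) (T.a (T.b (T.c (T.c (T.l 236) (T.l 204)) (T.c (T.l 0) (T.l 0)))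 (T.c (T.c (T.l 236) (T.l 204)) (T.c (T.l 0) (T.l 0)))) (T.b (T.c (T.c (T.l 236) (T.l 204)) (T.c (T.l 0) (T.l 816))) (T.c (T.c (T.l 236) (T.l 204)) (T.c (T.l 0) (T.l 816))))))), by decide +kernel⟩

def B012E_200_7_2405_1 :
    ∃ t, chk3 (onCell 0 44739242 0 1073741824 991146299 28908434 (corT true 1 c0B cB012E gB2q0 gB0q2 gB0q1 gB1q1 true false)) t 7 2405 1 = true :=
  ⟨(T.a (T.b (T.a (T.b (T.c (T.c (T.l 204) (T.l 204)) (T.c (T.l 204) (T.l 0))) (T.c (T.c (T.l 204) (T.l 204)) (T.c (T.l 204) (T.l 0)))) (T.b (T.c (T.c (T.l 236) (T.l 204)) (T.c (T.l 0) (T.l 0))) (T.c (T.c (T.l 236) (T.l 204)) (T.c (T.l 0) (T.l 0))))) (T.a (T.c (T.c (T.l 204) (T.l 204)) (T.c (T.l 204) (T.l 0))) (T.c (T.c (T.l 236) (T.l 204)) (T.c (T.l 0) (T.l 0))))) (T.b (T.a (T.b (T.c (T.c (T.l 236) (T.l 204)) (T.c (T.l 0) (T.l 0))) (T.c (T.c (T.l 236) (T.l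 204)) (T.c (T.l 0) (T.l 0)))) (T.b (T.c (T.c (T.l 236) (T.l 204)) (T.c (T.l 0) (T.l 816))) (T.c (T.c (T.l 236) (T.l 204)) (T.c (T.l 0) (T.l 816))))) (T.a (T.c (T.c (T.l 236) (T.l 204)) (T.c (T.l 0) (T.l 0))) (T.c (T.c (T.l 236) (T.l 204)) (T.c (T.l 0) (T.l 816)))))), by decide +kernel⟩

def B012E_200_3_1203_1 :
    ∃ t, chk3 (onCell 0 44739242 0 1073741824 991146299 28908434 (corT true 1 c0B cB012E gB2q0 gB0q2 gB0q1 gB1q1 true false)) t 3 1203 1 = true :=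
  ⟨(T.a (T.b (T.a (T.b (T.a (T.c (T.l 236) (T.c (T.l 204) (T.l 204))) (T.c (T.l 236) (T.c (T.l 204) (T.l 204)))) (T.a (T.c (T.l 236) (T.c (T.l 204) (T.l 204))) (T.c (T.l 204) (T.c (T.l 204) (T.l 204))))) (T.b (T.a (T.c (T.l 236) (T.c (T.l 204) (T.l 204))) (T.c (T.l 236) (T.c (T.l 204) (T.l 204)))) (T.a (T.c (T.l 236) (T.l 236)) (T.c (T.l 236) (T.l 236))))) (T.a (T.b (T.a (T.c (T.l 236) (T.c (T.l 204) (T.l 204))) (T.c (T.l 204) (T.l 236))) (T.a (T.c (T.l 236) (T.c (T.l 204) (T.l 204))) (T.c (T.l 204) (T.l 236)))) (T.b (T.a (T.c (T.l 204) (T.l 236)) (T.c (T.l 236) (T.l 236))) (T.a (T.c (T.l 204) (T.l 236)) (T.c (T.l 236) (T.l 236)))))) (T.b (T.a (T.b (T.a (T.c (T.c (T.l 204) (T.l 204)) (T.c (T.l 204) (T.l 0))) (T.c (T.c (T.l 204) (T.l 204)) (T.c (T.l 0) (T.l 0)))) (T.a (T.c (T.c (T.l 204) (T.l 204)) (T.c (T.l 204) (T.l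 0))) (T.c (T.c (T.l 204) (T.l 204)) (T.c (T.l 0) (T.l 0))))) (T.b (T.a (T.c (T.c (T.l 236) (T.l 204)) (T.c (T.l 0) (T.l 0))) (T.c (T.c (T.l 236) (T.l 204)) (T.c (T.l 0) (T.l 816)))) (T.a (T.c (T.c (T.l 204) (T.l 204)) (T.c (T.l 0) (T.l 0))) (T.c (T.c (T.l 236) (T.l 204)) (T.c (T.l 0) (T.l 816)))))) (T.a (T.b (T.a (T.c (T.l 236) (T.l 32)) (T.c (T.c (T.l 204) (T.l 204)) (T.l 40))) (T.a (T.c (T.l 236) (T.l 32)) (T.c (T.l 236) (T.l 32)))) (T.b (T.a (T.c (T.l 236) (T.c (T.l 0) (T.l 0))) (T.c (T.c (T.l 236) (T.l 204)) (T.c (T.l 0) (T.l 816)))) (T.a (T.c (T.l 236) (T.c (T.l 0) (T.l 0))) (T.c (T.c (T.l 236) (T.l 204)) (T.c (T.l 0) (T.l 816)))))))), by decide +kernel⟩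

def B012E_200_2_1204_1 :
    ∃ t, chk3 (onCell 0 44739242 0 1073741824 991146299 28908434 (corT true 1 c0B cB012E gB2q0 gB0q2 gB0q1 gB1q1 true false)) t 2 1204 1 = true :=
  ⟨(T.a (T.c (T.l 0) (T.l 204)) (T.b (T.a (T.b (T.b (T.a (T.c (T.c (T.l 0) (T.l 204)) (T.a (T.l 204) (T.l 204))) (T.c (T.l 0) (T.c (T.l 204) (T.l 204)))) (T.a (T.c (T.c (T.l 0) (T.l 204)) (T.c (T.l 236) (T.l 236))) (T.c (T.l 0) (T.c (T.l 204) (T.l 204))))) (T.b (T.a (T.c (T.c (T.l 0) (T.l 204)) (T.c (T.l 236) (T.l 236))) (T.c (T.l 0) (T.c (T.l 204) (T.l 204)))) (T.a (T.c (T.c (T.l 0) (T.l 204)) (T.c (T.l 236) (T.l 236))) (T.c (T.l 0) (T.c (T.l 204) (T.l 204)))))) (T.b (T.b (T.a (T.c (T.l 204) (T.l 236)) (T.c (T.l 32) (T.c (T.l 204) (T.l 204)))) (T.a (T.c (T.l 204) (T.l 236)) (T.c (T.l 32) (T.c (T.l 204) (T.l 204))))) (T.b (T.a (T.c (T.l 204) (T.l 236))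 (T.c (T.l 32) (T.c (T.l 204) (T.l 204)))) (T.a (T.c (T.l 204) (T.l 236)) (T.c (T.l 32) (T.c (T.l 204) (T.l 204))))))) (T.a (T.b (T.b (T.a (T.c (T.c (T.l 0) (T.l 204)) (T.c (T.l 236) (T.l 236))) (T.c (T.l 0) (T.c (T.l 204) (T.l 204)))) (T.a (T.c (T.c (T.l 0) (T.l 204)) (T.c (T.l 236) (T.l 236))) (T.c (T.l 0) (T.c (T.l 204) (T.l 204))))) (T.b (T.a (T.c (T.c (T.l 0) (T.l 204)) (T.c (T.l 236) (T.l 236))) (T.c (T.l 0) (T.c (T.l 204) (T.l 204)))) (T.a (T.c (T.c (T.l 0) (T.l 204)) (T.c (T.l 204) (T.l 236))) (T.c (T.l 0) (T.c (T.l 204) (T.l 204)))))) (T.b (T.b (T.a (T.c (T.l 204) (T.l 236)) (T.c (T.l 32) (T.c (T.l 204) (T.l 204)))) (T.a (T.c (T.l 204) (T.l 236)) (T.c (T.l 32) (T.c (T.l 204) (T.l 204))))) (T.b (T.a (T.c (T.l 204) (T.l 236)) (T.c (T.l 32) (T.c (T.l 204) (T.l 204)))) (T.a (T.c (T.l 204) (T.l 236)) (T.c (T.l 32)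 (T.c (T.l 204) (T.l 204))))))))), by decide +kernel⟩

def B012E_200_2_1205_1 :
    ∃ t, chk3 (onCell 0 44739242 0 1073741824 991146299 28908434 (corT true 1 c0B cB012E gB2q0 gB0q2 gB0q1 gB1q1 true false)) t 2 1205 1 = true :=
  ⟨(T.a (T.c (T.l 0) (T.l 204)) (T.b (T.a (T.b (T.b (T.a (T.c (T.c (T.l 0) (T.l 204)) (T.c (T.l 204) (T.l 236))) (T.c (T.l 0) (T.l 236))) (T.a (T.c (T.c (T.l 0) (T.l 204)) (T.c (T.l 204) (T.l 236))) (T.c (T.l 0) (T.l 236)))) (T.b (T.a (T.c (T.c (T.l 0) (T.l 204)) (T.c (T.l 204) (T.l 236))) (T.c (T.l 0) (T.l 236))) (T.a (T.c (T.c (T.l 0) (T.l 204)) (T.c (T.l 204) (T.l 236))) (T.c (T.l 0) (T.l 236))))) (T.b (T.b (T.a (T.c (T.l 204) (T.l 236)) (T.c (T.l 32) (T.c (T.l 204) (T.l 204)))) (T.a (T.c (T.l 204) (T.l 236)) (T.c (T.l 32) (T.c (T.l 204) (T.l 204))))) (T.b (T.a (T.c (T.l 204) (T.l 236)) (T.c (T.l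 32) (T.c (T.l 204) (T.l 204)))) (T.a (T.c (T.l 204) (T.l 236)) (T.c (T.l 32) (T.c (T.l 204) (T.l 204))))))) (T.a (T.b (T.b (T.a (T.c (T.c (T.l 0) (T.l 204)) (T.c (T.l 204) (T.l 236))) (T.c (T.l 0) (T.l 236))) (T.a (T.c (T.c (T.l 0) (T.l 204)) (T.c (T.l 204) (T.l 236))) (T.c (T.l 0) (T.l 236)))) (T.b (T.a (T.c (T.c (T.l 0) (T.l 204)) (T.c (T.l 204) (T.l 236))) (T.c (T.l 0) (T.l 236))) (T.a (T.c (T.l 32) (T.c (T.l 204) (T.l 236))) (T.c (T.l 0) (T.l 236))))) (T.b (T.b (T.a (T.c (T.l 204) (T.l 204)) (T.c (T.l 32) (T.c (T.l 204) (T.l 204)))) (T.a (T.c (T.l 204) (T.l 204)) (T.c (T.l 32) (T.c (T.l 204) (T.l 204))))) (T.b (T.a (T.c (T.l 204) (T.l 204)) (T.c (T.l 32) (T.c (T.l 204) (T.l 204)))) (T.a (T.c (T.l 204) (T.l 204)) (T.c (T.l 0) (T.c (T.l 204) (T.l 204))))))))), by decide +kernel⟩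

def B012E_200_2_1206_1 :
    ∃ t, chk3 (onCell 0 44739242 0 1073741824 991146299 28908434 (corT true 1 c0B cB012E gB2q0 gB0q2 gB0q1 gB1q1 true false)) t 2 1206 1 = true :=
  ⟨(T.a (T.c (T.l 0) (T.l 204)) (T.b (T.a (T.b (T.b (T.a (T.c (T.l 32) (T.c (T.l 204) (T.l 204))) (T.c (T.l 0) (T.l 236))) (T.a (T.c (T.l 32) (T.c (T.l 204) (T.l 204))) (T.c (T.l 0) (T.l 236)))) (T.b (T.a (T.c (T.l 32) (T.c (T.l 204) (T.l 204))) (T.c (T.l 0) (T.l 236))) (T.a (T.c (T.l 32) (T.c (T.l 204) (T.l 204))) (T.c (T.l 0) (T.l 236))))) (T.b (T.b (T.a (T.c (T.l 204) (T.l 204)) (T.c (T.l 0) (T.c (T.l 204) (T.l 204)))) (T.a (T.c (T.l 204) (T.l 204)) (T.c (T.l 0) (T.c (T.l 204) (T.l 204))))) (T.b (T.a (T.c (T.l 204) (T.l 204)) (T.c (T.l 0) (T.l 748))) (T.a (T.c (T.l 204) (T.l 204)) (T.c (T.l 0) (T.l 748)))))) (T.a (T.b (T.b (T.a (T.c (T.l 32) (T.c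 (T.l 204) (T.l 204))) (T.c (T.l 0) (T.l 236))) (T.a (T.c (T.l 0) (T.c (T.l 204) (T.l 204))) (T.c (T.l 0) (T.l 236)))) (T.b (T.a (T.c (T.l 0) (T.c (T.l 204) (T.l 204))) (T.c (T.l 0) (T.l 236))) (T.a (T.c (T.l 0) (T.c (T.l 204) (T.l 204))) (T.c (T.l 0) (T.l 236))))) (T.b (T.b (T.a (T.c (T.l 204) (T.l 204)) (T.c (T.l 0) (T.l 748))) (T.a (T.c (T.l 204) (T.l 204)) (T.c (T.l 0) (T.l 748)))) (T.b (T.a (T.c (T.l 204) (T.l 204)) (T.c (T.l 0) (T.l 748))) (T.a (T.c (T.l 204) (T.l 204)) (T.c (T.l 0) (T.l 748)))))))), by decide +kernel⟩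

def B012E_200_2_1207_1 :
    ∃ t, chk3 (onCell 0 44739242 0 1073741824 991146299 28908434 (corT true 1 c0B cB012E gB2q0 gB0q2 gB0q1 gB1q1 true false)) t 2 1207 1 = true :=
  ⟨(T.a (T.c (T.l 0) (T.l 204)) (T.b (T.a (T.b (T.b (T.a (T.c (T.l 0) (T.c (T.l 204) (T.l 204))) (T.c (T.l 0) (T.l 236))) (T.a (T.c (T.l 0) (T.c (T.l 204) (T.l 204))) (T.c (T.l 0) (T.l 236)))) (T.b (T.a (T.c (T.l 0) (T.c (T.l 204) (T.l 204))) (T.c (T.l 0) (T.l 204))) (T.a (T.c (T.l 0) (T.c (T.l 204) (T.l 204))) (T.c (T.l 0) (T.l 204))))) (T.b (T.b (T.a (T.c (T.l 204) (T.l 204)) (T.c (T.l 0) (T.l 748))) (T.a (T.c (T.l 204) (T.l 204)) (T.c (T.l 0) (T.l 748)))) (T.b (T.a (T.c (T.l 204) (T.l 204)) (T.c (T.l 0) (T.l 748))) (T.a (T.c (T.l 204) (T.l 204)) (T.c (T.l 0) (T.l 748)))))) (T.a (T.b (T.b (T.a (T.c (T.l 0) (T.c (T.l 204) (T.l 204))) (T.c (T.l 0)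 (T.l 204))) (T.a (T.c (T.l 0) (T.c (T.l 204) (T.l 204))) (T.c (T.l 0) (T.l 204)))) (T.b (T.a (T.c (T.l 0) (T.c (T.l 204) (T.l 204))) (T.c (T.l 0) (T.l 204))) (T.a (T.c (T.l 0) (T.c (T.l 204) (T.l 204))) (T.c (T.l 0) (T.l 204))))) (T.b (T.b (T.a (T.c (T.l 204) (T.l 204)) (T.c (T.l 0) (T.l 748))) (T.a (T.c (T.l 204) (T.l 204)) (T.c (T.l 0) (T.l 748)))) (T.b (T.a (T.c (T.l 204) (T.l 204)) (T.c (T.l 0) (T.l 748))) (T.a (T.c (T.l 204) (T.l 204)) (T.c (T.l 0) (T.l 748)))))))), by decide +kernel⟩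

def B012E_200_3_1204_1 :
    ∃ t, chk3 (onCell 0 44739242 0 1073741824 991146299 28908434 (corT true 1 c0B cB012E gB2q0 gB0q2 gB0q1 gB1q1 true false)) t 3 1204 1 = true :=
  ⟨(T.a (T.b (T.a (T.b (T.a (T.c (T.l 204) (T.c (T.l 204) (T.l 204))) (T.c (T.l 204) (T.l 236))) (T.a (T.c (T.l 204) (T.l 236)) (T.c (T.l 204) (T.l 236)))) (T.b (T.a (T.c (T.l 204) (T.l 236)) (T.c (T.l 236) (T.l 236))) (T.a (T.c (T.l 204) (T.l 204)) (T.c (T.l 204) (T.l 204))))) (T.a (T.b (T.a (T.c (T.l 204) (T.l 236)) (T.c (T.l 204) (T.l 236))) (T.b (T.a (T.c (T.l 204) (T.l 236)) (T.c (T.l 204) (T.l 204))) (T.a (T.c (T.l 204) (T.l 236)) (T.c (T.l 204) (T.l 204))))) (T.b (T.a (T.c (T.l 204) (T.l 204)) (T.c (T.l 204) (T.l 204))) (T.a (T.c (T.l 204) (T.l 204)) (T.c (T.l 204) (T.l 204)))))) (T.b (T.a (T.b (T.a (T.c (T.l 236) (T.l 32)) (T.c (T.l 236) (T.l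 32))) (T.a (T.c (T.l 236) (T.l 0)) (T.c (T.l 236) (T.l 0)))) (T.b (T.a (T.c (T.l 236) (T.l 8)) (T.c (T.c (T.l 204) (T.l 204)) (T.c (T.l 0) (T.l 816)))) (T.a (T.c (T.l 236) (T.l 0)) (T.c (T.l 236) (T.c (T.l 0) (T.l 816)))))) (T.a (T.b (T.a (T.c (T.l 236) (T.l 0)) (T.c (T.l 236) (T.l 0))) (T.a (T.c (T.l 236) (T.l 0)) (T.c (T.l 236) (T.l 0)))) (T.c (T.a (T.l 236) (T.l 236)) (T.a (T.l 0) (T.c (T.l 0) (T.l 816))))))), by decide +kernel⟩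

def B012E_200_3_1205_1 :
    ∃ t, chk3 (onCell 0 44739242 0 1073741824 991146299 28908434 (corT true 1 c0B cB012E gB2q0 gB0q2 gB0q1 gB1q1 true false)) t 3 1205 1 = true :=
  ⟨(T.a (T.b (T.a (T.b (T.b (T.a (T.c (T.l 204) (T.l 236)) (T.c (T.l 204) (T.l 204))) (T.a (T.c (T.l 204) (T.l 236)) (T.c (T.l 204) (T.l 204)))) (T.b (T.a (T.c (T.l 204) (T.l 236)) (T.c (T.l 204) (T.l 204))) (T.a (T.c (T.l 204) (T.l 236)) (T.c (T.l 204) (T.l 204))))) (T.b (T.a (T.c (T.l 204) (T.l 204)) (T.c (T.l 204) (T.l 204))) (T.a (T.c (T.l 204) (T.l 204)) (T.c (T.l 204) (T.l 204))))) (T.a (T.b (T.b (T.a (T.c (T.l 204) (T.l 236)) (T.c (T.l 204) (T.l 204))) (T.a (T.c (T.l 204) (T.l 236)) (T.c (T.l 204) (T.l 204)))) (T.b (T.a (T.c (T.l 204) (T.l 204)) (T.c (T.l 204) (T.l 204))) (T.a (T.c (T.l 204) (T.l 204)) (T.c (T.l 204) (T.l 204))))) (T.c (T.a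 (T.l 204) (T.l 204)) (T.a (T.l 204) (T.l 204))))) (T.b (T.a (T.c (T.a (T.l 236) (T.l 236)) (T.c (T.l 32) (T.l 8))) (T.c (T.a (T.l 236) (T.l 236)) (T.c (T.l 0) (T.l 8)))) (T.a (T.c (T.a (T.l 204) (T.l 236)) (T.c (T.l 0) (T.l 0))) (T.c (T.c (T.l 236) (T.l 32)) (T.c (T.l 0) (T.l 8)))))), by decide +kernel⟩

def B012E_200_3_603_1 :
    ∃ t, chk3 (onCell 0 44739242 0 1073741824 991146299 28908434 (corT true 1 c0B cB012E gB2q0 gB0q2 gB0q1 gB1q1 true false)) t 3 603 1 = true :=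
  ⟨(T.b (T.a (T.b (T.a (T.b (T.b (T.a (T.c (T.l 204) (T.l 204)) (T.c (T.l 204) (T.l 204))) (T.a (T.c (T.l 204) (T.l 204)) (T.c (T.l 204) (T.l 204)))) (T.b (T.a (T.c (T.l 204) (T.l 204)) (T.c (T.l 204) (T.l 204))) (T.a (T.c (T.l 204) (T.l 204)) (T.c (T.l 204) (T.l 204))))) (T.c (T.a (T.l 204) (T.l 204)) (T.c (T.l 32) (T.l 32)))) (T.a (T.b (T.b (T.a (T.c (T.l 0) (T.l 204)) (T.c (T.l 204) (T.l 204))) (T.a (T.c (T.l 0) (T.l 204)) (T.c (T.l 204) (T.l 204)))) (T.b (T.a (T.c (T.l 0) (T.l 204)) (T.c (T.l 204) (T.l 204))) (T.a (T.c (T.l 0) (T.l 204)) (T.c (T.l 204) (T.l 204))))) (T.c (T.a (T.l 204) (T.l 204)) (T.c (T.l 32) (T.l 0))))) (T.b (T.a (T.c (T.a (T.l 204) (T.l 204)) (T.c (T.l 0) (T.l 0))) (T.c (T.c (T.l 236) (T.l 0)) (T.c (T.l 0) (T.l 0)))) (T.a (T.c (T.c (T.l 236) (T.l 32)) (T.c (T.l 0) (T.l 0))) (T.c (T.c (T.l 236)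 (T.l 0)) (T.c (T.l 0) (T.l 0)))))) (T.a (T.b (T.a (T.c (T.a (T.l 0) (T.l 204)) (T.a (T.l 204) (T.l 204))) (T.c (T.a (T.l 204) (T.l 204)) (T.c (T.l 0) (T.l 0)))) (T.a (T.c (T.a (T.l 0) (T.l 204)) (T.a (T.l 204) (T.l 204))) (T.c (T.c (T.l 236) (T.l 236)) (T.c (T.l 0) (T.l 0))))) (T.b (T.a (T.c (T.c (T.l 236) (T.l 0)) (T.c (T.l 0) (T.l 0))) (T.c (T.c (T.l 236) (T.l 0)) (T.c (T.l 0) (T.l 0)))) (T.a (T.c (T.c (T.l 236) (T.l 0)) (T.c (T.l 0) (T.l 0))) (T.c (T.c (T.l 236) (T.l 0)) (T.c (T.l 0) (T.l 0))))))), by decide +kernel⟩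

def B012E_200_2_604_1 :
    ∃ t, chk3 (onCell 0 44739242 0 1073741824 991146299 28908434 (corT true 1 c0B cB012E gB2q0 gB0q2 gB0q1 gB1q1 true false)) t 2 604 1 = true :=
  ⟨(T.a (T.c (T.l 0) (T.l 204)) (T.b (T.b (T.a (T.b (T.b (T.a (T.c (T.l 0) (T.c (T.l 204) (T.l 204))) (T.c (T.l 0) (T.l 204))) (T.a (T.c (T.l 0) (T.c (T.l 204) (T.l 204))) (T.c (T.l 0) (T.l 204)))) (T.b (T.a (T.c (T.l 0) (T.c (T.l 204) (T.l 204))) (T.c (T.l 0) (T.l 204))) (T.a (T.c (T.l 0) (T.c (T.l 204) (T.l 204))) (T.c (T.l 0) (T.l 204))))) (T.b (T.b (T.a (T.c (T.l 204) (T.l 204)) (T.c (T.l 0) (T.l 748))) (T.a (T.c (T.l 204) (T.l 204)) (T.c (T.l 0) (T.l 748)))) (T.a (T.c (T.l 204) (T.l 204)) (T.c (T.l 0) (T.l 748))))) (T.b (T.a (T.b (T.a (T.c (T.l 0) (T.c (T.l 204) (T.l 204))) (T.c (T.l 0) (T.l 204))) (T.a (T.c (T.l 0) (T.c (T.l 204) (T.l 204))) (T.c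 (T.l 0) (T.l 204)))) (T.a (T.c (T.l 204) (T.l 204)) (T.c (T.l 0) (T.l 748)))) (T.a (T.b (T.a (T.c (T.l 0) (T.l 236)) (T.c (T.l 0) (T.l 204))) (T.a (T.c (T.l 0) (T.l 236)) (T.c (T.l 0) (T.l 204)))) (T.a (T.c (T.l 0) (T.l 204)) (T.c (T.l 0) (T.l 748)))))) (T.b (T.b (T.a (T.b (T.a (T.c (T.l 0) (T.l 236)) (T.c (T.l 0) (T.l 204))) (T.a (T.c (T.l 0) (T.l 236)) (T.c (T.l 0) (T.l 204)))) (T.a (T.c (T.l 0) (T.l 204)) (T.c (T.l 0) (T.l 204)))) (T.a (T.a (T.c (T.l 0) (T.l 236)) (T.c (T.l 0) (T.l 204))) (T.a (T.c (T.l 0) (T.l 204)) (T.c (T.l 0) (T.l 204))))) (T.b (T.a (T.a (T.c (T.l 0) (T.l 236)) (T.c (T.l 0) (T.l 204))) (T.a (T.c (T.l 0) (T.l 204)) (T.c (T.l 0) (T.l 204)))) (T.a (T.a (T.c (T.l 0) (T.l 236)) (T.c (T.l 0) (T.l 204))) (T.a (T.c (T.l 0) (T.l 204)) (T.c (T.l 0) (T.l 204)))))))), by decide +kernel⟩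

def B012E_200_3_604_1 :
    ∃ t, chk3 (onCell 0 44739242 0 1073741824 991146299 28908434 (corT true 1 c0B cB012E gB2q0 gB0q2 gB0q1 gB1q1 true false)) t 3 604 1 = true :=
  ⟨(T.b (T.a (T.b (T.a (T.c (T.a (T.l 0) (T.l 204)) (T.a (T.l 204) (T.l 204))) (T.c (T.c (T.l 236) (T.l 204)) (T.c (T.l 0) (T.l 0)))) (T.a (T.c (T.a (T.l 0) (T.l 204)) (T.a (T.l 204) (T.l 204))) (T.c (T.c (T.l 236) (T.l 204)) (T.c (T.l 0) (T.l 0))))) (T.b (T.a (T.c (T.c (T.l 236) (T.l 0)) (T.c (T.l 0) (T.l 0))) (T.c (T.c (T.l 236) (T.l 0)) (T.c (T.l 0) (T.l 0)))) (T.a (T.c (T.c (T.l 204) (T.l 0)) (T.c (T.l 0) (T.l 0))) (T.c (T.c (T.l 204) (T.l 0)) (T.c (T.l 0) (T.l 0)))))) (T.a (T.b (T.a (T.c (T.a (T.l 0) (T.l 204)) (T.a (T.l 204) (T.l 204))) (T.c (T.c (T.l 204) (T.l 204)) (T.c (T.l 0) (T.l 0)))) (T.a (T.c (T.a (T.l 0) (T.l 204)) (T.a (T.l 204) (T.l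 204))) (T.c (T.c (T.l 204) (T.l 204)) (T.c (T.l 0) (T.l 0))))) (T.b (T.a (T.c (T.c (T.l 204) (T.l 0)) (T.c (T.l 0) (T.l 0))) (T.c (T.l 32) (T.c (T.l 0) (T.l 0)))) (T.a (T.c (T.c (T.l 204) (T.l 0)) (T.l 40)) (T.c (T.l 32) (T.l 8)))))), by decide +kernel⟩

def B012E_200_2_605_1 :
    ∃ t, chk3 (onCell 0 44739242 0 1073741824 991146299 28908434 (corT true 1 c0B cB012E gB2q0 gB0q2 gB0q1 gB1q1 true false)) t 2 605 1 = true :=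
  ⟨(T.a (T.c (T.l 0) (T.l 204)) (T.b (T.b (T.b (T.a (T.a (T.c (T.l 0) (T.l 236)) (T.c (T.l 0) (T.l 204))) (T.a (T.c (T.l 0) (T.l 204)) (T.c (T.l 0) (T.l 204)))) (T.a (T.a (T.c (T.l 0) (T.l 236)) (T.c (T.l 0) (T.l 204))) (T.a (T.c (T.l 0) (T.l 204)) (T.c (T.l 0) (T.l 204))))) (T.b (T.a (T.a (T.c (T.l 0) (T.l 204)) (T.c (T.l 0) (T.l 204))) (T.a (T.c (T.l 0) (T.l 204)) (T.c (T.l 0) (T.l 204)))) (T.a (T.a (T.c (T.l 0) (T.l 204)) (T.c (T.l 0) (T.l 204))) (T.a (T.c (T.l 0) (T.l 204)) (T.c (T.l 0) (T.l 204)))))) (T.b (T.b (T.a (T.a (T.c (T.l 0) (T.l 204)) (T.c (T.l 0) (T.l 204))) (T.a (T.c (T.l 0) (T.l 204)) (T.c (T.l 0) (T.l 204)))) (T.a (T.a (T.c (T.l 0) (T.l 204)) (T.c (T.l 0) (T.l 204))) (T.a (T.c (T.l 0) (T.l 204)) (T.c (T.l 0) (T.l 204))))) (T.b (T.a (T.a (T.c (T.l 0) (T.l 204)) (T.c (T.l 0) (T.l 204))) (T.a (T.c (T.l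 0) (T.l 204)) (T.c (T.l 0) (T.l 204)))) (T.a (T.a (T.c (T.l 0) (T.l 204)) (T.c (T.l 0) (T.l 204))) (T.a (T.c (T.l 0) (T.l 204)) (T.c (T.l 0) (T.l 204)))))))), by decide +kernel⟩

def B012E_200_3_605_1 :
    ∃ t, chk3 (onCell 0 44739242 0 1073741824 991146299 28908434 (corT true 1 c0B cB012E gB2q0 gB0q2 gB0q1 gB1q1 true false)) t 3 605 1 = true :=
  ⟨(T.b (T.a (T.b (T.a (T.c (T.c (T.l 32) (T.l 32)) (T.c (T.l 32) (T.l 236))) (T.c (T.c (T.l 204) (T.l 204)) (T.c (T.l 0) (T.l 0)))) (T.a (T.c (T.c (T.l 32) (T.l 32)) (T.c (T.l 32) (T.l 236))) (T.c (T.c (T.l 204) (T.l 204)) (T.c (T.l 0) (T.l 0))))) (T.b (T.a (T.c (T.l 32) (T.l 32)) (T.c (T.l 32) (T.l 0))) (T.a (T.c (T.l 32) (T.l 0)) (T.c (T.l 32) (T.l 0))))) (T.a (T.b (T.a (T.c (T.c (T.l 32) (T.l 32)) (T.c (T.l 32) (T.l 236))) (T.c (T.l 236) (T.l 32))) (T.a (T.c (T.c (T.l 0)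 (T.l 0)) (T.c (T.l 0) (T.l 204))) (T.c (T.l 236) (T.l 32)))) (T.a (T.c (T.l 32) (T.l 0)) (T.c (T.l 32) (T.l 0))))), by decide +kernel⟩

def B012E_200_1_606_1 :
    ∃ t, chk3 (onCell 0 44739242 0 1073741824 991146299 28908434 (corT true 1 c0B cB012E gB2q0 gB0q2 gB0q1 gB1q1 true false)) t 1 606 1 = true :=
  ⟨(T.a (T.a (T.c (T.l 0) (T.l 204)) (T.b (T.b (T.b (T.a (T.a (T.c (T.l 0) (T.l 204)) (T.c (T.l 0) (T.l 204))) (T.a (T.c (T.l 0) (T.l 204)) (T.c (T.l 0) (T.l 204)))) (T.a (T.a (T.c (T.l 0) (T.l 204)) (T.c (T.l 0) (T.l 204))) (T.a (T.c (T.l 0) (T.l 204)) (T.c (T.l 0) (T.l 204))))) (T.b (T.a (T.a (T.c (T.l 0) (T.l 204)) (T.c (T.l 0) (T.l 204))) (T.a (T.c (T.l 0) (T.l 204)) (T.c (T.l 0) (T.l 204)))) (T.a (T.a (T.c (T.l 0) (T.l 204)) (T.c (T.l 0) (T.l 204))) (T.a (T.c (T.l 0) (T.l 204)) (T.c (T.l 0) (T.l 204)))))) (T.b (T.b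 (T.a (T.a (T.c (T.l 0) (T.l 204)) (T.c (T.l 0) (T.l 204))) (T.a (T.c (T.l 0) (T.l 204)) (T.c (T.l 0) (T.l 204)))) (T.a (T.a (T.c (T.l 0) (T.l 204)) (T.c (T.l 0) (T.l 204))) (T.a (T.c (T.l 0) (T.l 204)) (T.c (T.l 0) (T.l 204))))) (T.b (T.a (T.a (T.c (T.l 0) (T.l 204)) (T.c (T.l 0) (T.l 204))) (T.a (T.c (T.l 0) (T.l 204)) (T.c (T.l 0) (T.l 204)))) (T.a (T.a (T.c (T.l 0) (T.l 204)) (T.c (T.l 0) (T.l 204))) (T.a (T.c (T.l 0) (T.l 204)) (T.c (T.l 0) (T.l 204)))))))) (T.b (T.a (T.a (T.c (T.c (T.l 0) (T.l 0)) (T.c (T.l 0) (T.l 204))) (T.c (T.l 32) (T.l 32))) (T.a (T.c (T.l 0) (T.l 0)) (T.c (T.l 0) (T.l 0)))) (T.a (T.a (T.c (T.c (T.l 0) (T.l 0)) (T.c (T.l 0) (T.l 204))) (T.c (T.l 0) (T.l 0))) (T.a (T.c (T.l 0) (T.l 0)) (T.c (T.l 0) (T.l 0)))))), by decide +kernel⟩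

def B012E_200_1_607_1 :
    ∃ t, chk3 (onCell 0 44739242 0 1073741824 991146299 28908434 (corT true 1 c0B cB012E gB2q0 gB0q2 gB0q1 gB1q1 true false)) t 1 607 1 = true :=
  ⟨(T.a (T.a (T.c (T.l 0) (T.l 204)) (T.b (T.b (T.b (T.a (T.a (T.c (T.l 0) (T.l 204)) (T.c (T.l 0) (T.l 204))) (T.a (T.c (T.l 0) (T.l 204)) (T.c (T.l 0) (T.l 204)))) (T.a (T.a (T.c (T.l 0) (T.l 204)) (T.c (T.l 0) (T.l 204))) (T.a (T.c (T.l 0) (T.l 204)) (T.c (T.l 0) (T.l 204))))) (T.b (T.a (T.a (T.c (T.l 0) (T.l 204)) (T.c (T.l 0) (T.l 204))) (T.a (T.c (T.l 0) (T.l 204)) (T.c (T.l 0) (T.l 204)))) (T.a (T.a (T.c (T.l 0) (T.l 204)) (T.c (T.l 0) (T.l 204))) (T.a (T.c (T.l 0) (T.l 204)) (T.c (T.l 0) (T.l 204)))))) (T.b (T.b (T.a (T.a (T.c (T.l 0) (T.l 204)) (T.c (T.l 0) (T.l 204))) (T.a (T.c (T.l 0) (T.l 204)) (T.c (T.l 0) (T.l 204)))) (T.a (T.a (T.c (T.l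 0) (T.l 204)) (T.c (T.l 0) (T.l 204))) (T.a (T.c (T.l 0) (T.l 204)) (T.c (T.l 0) (T.l 204))))) (T.b (T.a (T.a (T.c (T.l 0) (T.l 204)) (T.c (T.l 0) (T.l 204))) (T.a (T.c (T.l 0) (T.l 204)) (T.c (T.l 0) (T.l 204)))) (T.a (T.a (T.c (T.l 0) (T.l 204)) (T.c (T.l 0) (T.l 204))) (T.a (T.c (T.l 0) (T.l 204)) (T.c (T.l 0) (T.l 204)))))))) (T.b (T.a (T.a (T.c (T.c (T.l 0) (T.l 0)) (T.c (T.l 0) (T.l 0))) (T.c (T.l 0) (T.l 0))) (T.a (T.c (T.l 0) (T.l 0)) (T.c (T.l 0) (T.l 0)))) (T.a (T.a (T.c (T.l 32) (T.c (T.l 0) (T.l 0))) (T.c (T.l 0) (T.l 0))) (T.a (T.c (T.l 0) (T.l 0)) (T.c (T.l 0) (T.l 0)))))), by decide +kernel⟩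

def B012E_200_1_608_1 :
    ∃ t, chk3 (onCell 0 44739242 0 1073741824 991146299 28908434 (corT true 1 c0B cB012E gB2q0 gB0q2 gB0q1 gB1q1 true false)) t 1 608 1 = true :=
  ⟨(T.a (T.a (T.l 32) (T.b (T.b (T.b (T.a (T.a (T.c (T.l 0) (T.l 204)) (T.c (T.l 0) (T.l 204))) (T.a (T.c (T.l 0) (T.l 204)) (T.c (T.l 0) (T.l 204)))) (T.a (T.a (T.c (T.l 0) (T.l 204)) (T.c (T.l 0) (T.l 204))) (T.a (T.c (T.l 0) (T.l 204)) (T.c (T.l 0) (T.l 204))))) (T.b (T.a (T.a (T.c (T.l 0) (T.l 204)) (T.c (T.l 0) (T.l 204))) (T.a (T.c (T.l 0) (T.l 204)) (T.c (T.l 0) (T.l 204)))) (T.a (T.a (T.c (T.l 0) (T.l 204)) (T.c (T.l 0) (T.l 204))) (T.a (T.c (T.l 0) (T.l 204)) (T.c (T.l 0) (T.l 204)))))) (T.b (T.b (T.a (T.a (T.c (T.l 0) (T.l 204)) (T.c (T.l 0) (T.l 204))) (T.a (T.l 544) (T.c (T.l 0) (T.l 204)))) (T.a (T.a (T.c (T.l 0) (T.l 204)) (T.c (T.l 0)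 (T.l 204))) (T.a (T.l 544) (T.c (T.l 0) (T.l 204))))) (T.b (T.a (T.a (T.c (T.l 0) (T.l 204)) (T.c (T.l 0) (T.l 204))) (T.a (T.l 544) (T.c (T.l 0) (T.l 204)))) (T.a (T.a (T.c (T.l 0) (T.l 204)) (T.c (T.l 0) (T.l 204))) (T.a (T.l 544) (T.c (T.l 0) (T.l 204)))))))) (T.b (T.a (T.a (T.c (T.l 0) (T.l 544)) (T.c (T.l 0) (T.l 0))) (T.a (T.c (T.l 0) (T.l 0)) (T.c (T.l 0) (T.l 0)))) (T.a (T.a (T.c (T.l 0) (T.l 544)) (T.c (T.l 0) (T.l 0))) (T.a (T.c (T.l 0) (T.l 0)) (T.c (T.l 0) (T.l 0)))))), by decide +kernel⟩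

def B012E_200_1_609_1 :
    ∃ t, chk3 (onCell 0 44739242 0 1073741824 991146299 28908434 (corT true 1 c0B cB012E gB2q0 gB0q2 gB0q1 gB1q1 true false)) t 1 609 1 = true :=
  ⟨(T.a (T.a (T.l 0) (T.b (T.b (T.b (T.a (T.a (T.c (T.l 0) (T.l 204)) (T.c (T.l 0) (T.l 204))) (T.a (T.l 544) (T.c (T.l 0) (T.l 204)))) (T.a (T.a (T.c (T.l 0) (T.l 204)) (T.c (T.l 0) (T.l 204))) (T.a (T.l 544) (T.c (T.l 0) (T.l 204))))) (T.b (T.a (T.a (T.c (T.l 0) (T.l 204)) (T.c (T.l 0) (T.l 204))) (T.a (T.l 544) (T.c (T.l 0) (T.l 204)))) (T.a (T.a (T.c (T.l 0) (T.l 204)) (T.c (T.l 0) (T.l 204))) (T.a (T.l 544) (T.c (T.l 0) (T.l 204)))))) (T.b (T.b (T.a (T.a (T.c (T.l 0) (T.l 204)) (T.c (T.l 0) (T.l 204))) (T.a (T.l 544) (T.c (T.l 0) (T.l 204)))) (T.a (T.a (T.c (T.l 0) (T.l 204)) (T.l 32)) (T.a (T.l 512) (T.c (T.l 0) (T.l 204))))) (T.b (T.a (T.a (T.c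 (T.l 0) (T.l 204)) (T.l 32)) (T.a (T.l 512) (T.c (T.l 0) (T.l 204)))) (T.a (T.a (T.c (T.l 0) (T.l 204)) (T.l 32)) (T.a (T.l 512) (T.c (T.l 0) (T.l 204)))))))) (T.b (T.a (T.a (T.c (T.l 0) (T.l 512)) (T.c (T.l 0) (T.l 0))) (T.a (T.c (T.l 0) (T.l 0)) (T.c (T.l 0) (T.l 0)))) (T.a (T.a (T.c (T.l 0) (T.l 0)) (T.c (T.l 0) (T.l 0))) (T.a (T.c (T.l 0) (T.l 0)) (T.c (T.l 0) (T.l 0)))))), by decide +kernel⟩

def B012E_200_1_305_1 :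
    ∃ t, chk3 (onCell 0 44739242 0 1073741824 991146299 28908434 (corT true 1 c0B cB012E gB2q0 gB0q2 gB0q1 gB1q1 true false)) t 1 305 1 = true :=
  ⟨(T.b (T.a (T.a (T.l 0) (T.a (T.a (T.c (T.l 0) (T.l 204)) (T.l 32)) (T.a (T.l 512) (T.c (T.l 0) (T.l 204))))) (T.b (T.a (T.a (T.c (T.l 0) (T.l 0)) (T.c (T.l 0) (T.l 0))) (T.a (T.c (T.l 0) (T.l 0)) (T.c (T.l 0) (T.l 0)))) (T.a (T.a (T.c (T.l 0) (T.l 0)) (T.c (T.l 0) (T.l 0))) (T.a (T.c (T.l 0) (T.l 0)) (T.c (T.l 0) (T.l 0)))))) (T.a (T.a (T.l 0) (T.a (T.a (T.c (T.l 0) (T.l 204)) (T.l 0)) (T.a (T.l 0) (T.c (T.l 0) (T.l 204))))) (T.a (T.a (T.c (T.l 0) (T.l 0)) (T.c (T.l 0) (T.l 0))) (T.a (T.c (T.l 0) (T.l 0)) (T.c (T.l 0) (T.l 0)))))), by decide +kernel⟩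

def B012E_200_1_153_1 :
    ∃ t, chk3 (onCell 0 44739242 0 1073741824 991146299 28908434 (corT true 1 c0B cB012E gB2q0 gB0q2 gB0q1 gB1q1 true false)) t 1 153 1 = true :=
  ⟨(T.b (T.b (T.a (T.a (T.l 0) (T.a (T.a (T.l 32) (T.l 0)) (T.a (T.l 0) (T.c (T.l 0) (T.l 204))))) (T.a (T.a (T.c (T.l 0) (T.l 0)) (T.c (T.l 0) (T.l 0))) (T.a (T.c (T.l 0) (T.l 0)) (T.c (T.l 0) (T.l 0))))) (T.a (T.a (T.l 0) (T.a (T.a (T.l 0) (T.l 0)) (T.a (T.l 0) (T.c (T.l 0) (T.l 204))))) (T.a (T.a (T.c (T.l 0) (T.l 0)) (T.c (T.l 0) (T.l 0))) (T.a (T.c (T.l 0) (T.l 0)) (T.l 32))))) (T.b (T.a (T.a (T.l 0) (T.a (T.a (T.l 0) (T.l 0)) (T.a (T.l 0) (T.c (T.l 0) (T.l 204))))) (T.a (T.a (T.c (T.l 0) (T.l 0)) (T.l 32)) (T.a (T.l 0) (T.l 0)))) (T.a (T.a (T.l 0) (T.a (T.a (T.l 0) (T.l 0)) (T.a (T.l 0) (T.c (T.l 0) (T.l 204))))) (T.a (T.a (T.c (T.l 0) (T.l 0))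 (T.l 0)) (T.a (T.l 0) (T.l 0)))))), by decide +kernel⟩

def B012E_200_1_77_1 :
    ∃ t, chk3 (onCell 0 44739242 0 1073741824 991146299 28908434 (corT true 1 c0B cB012E gB2q0 gB0q2 gB0q1 gB1q1 true false)) t 1 77 1 = true :=
  ⟨(T.b (T.b (T.b (T.a (T.a (T.l 0) (T.a (T.c (T.l 0) (T.l 236)) (T.a (T.l 0) (T.l 512)))) (T.a (T.a (T.c (T.l 0) (T.l 0)) (T.l 0)) (T.a (T.l 0) (T.l 0)))) (T.a (T.a (T.l 0) (T.a (T.c (T.l 0) (T.l 204)) (T.a (T.l 0) (T.l 512)))) (T.a (T.a (T.c (T.l 0) (T.l 0)) (T.l 0)) (T.c (T.l 0) (T.l 128))))) (T.b (T.a (T.a (T.l 0) (T.a (T.c (T.l 0) (T.l 204)) (T.a (T.l 0) (T.l 0)))) (T.a (T.a (T.c (T.l 0) (T.l 0)) (T.l 0)) (T.c (T.l 0) (T.l 0)))) (T.a (T.a (T.l 0) (T.a (T.c (T.l 0) (T.l 204)) (T.c (T.l 0) (T.l 512)))) (T.a (T.a (T.c (T.l 0) (T.l 0)) (T.l 0)) (T.c (T.l 0) (T.l 0)))))) (T.b (T.b (T.a (T.a (T.l 0)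 (T.a (T.c (T.l 0) (T.l 204)) (T.c (T.l 0) (T.l 512)))) (T.a (T.a (T.l 512) (T.l 0)) (T.c (T.l 0) (T.l 0)))) (T.a (T.a (T.l 0) (T.a (T.c (T.l 0) (T.l 204)) (T.c (T.l 0) (T.l 0)))) (T.a (T.a (T.l 512) (T.l 0)) (T.c (T.l 0) (T.l 0))))) (T.b (T.a (T.a (T.l 0) (T.a (T.c (T.l 0) (T.l 204)) (T.c (T.l 0) (T.l 0)))) (T.a (T.a (T.l 0) (T.l 0)) (T.c (T.l 0) (T.l 0)))) (T.a (T.a (T.l 0) (T.a (T.c (T.l 0) (T.l 204)) (T.c (T.l 0) (T.l 0)))) (T.a (T.a (T.l 0) (T.l 0)) (T.c (T.l 0) (T.l 0))))))), by decide +kernel⟩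

def B012E_200_1_39_1 :
    ∃ t, chk3 (onCell 0 44739242 0 1073741824 991146299 28908434 (corT true 1 c0B cB012E gB2q0 gB0q2 gB0q1 gB1q1 true false)) t 1 39 1 = true :=
  ⟨(T.b (T.b (T.b (T.b (T.a (T.a (T.l 0) (T.a (T.l 0) (T.c (T.l 0) (T.l 0)))) (T.a (T.a (T.l 0) (T.l 0)) (T.c (T.l 0) (T.l 0)))) (T.a (T.a (T.l 0) (T.a (T.l 0) (T.c (T.l 0) (T.l 0)))) (T.a (T.a (T.l 0) (T.l 0)) (T.c (T.l 0) (T.l 0))))) (T.b (T.a (T.a (T.l 0) (T.a (T.l 0) (T.c (T.l 0) (T.l 0)))) (T.a (T.a (T.l 0) (T.l 0)) (T.c (T.l 0) (T.l 0)))) (T.a (T.a (T.l 0) (T.a (T.l 0) (T.c (T.l 0) (T.l 0)))) (T.a (T.a (T.l 0) (T.l 0)) (T.c (T.l 0) (T.l 0)))))) (T.b (T.a (T.a (T.l 0) (T.a (T.l 0) (T.c (T.l 0) (T.l 0)))) (T.a (T.a (T.l 0) (T.l 0)) (T.c (T.l 0) (T.l 0)))) (T.a (T.a (T.l 0) (T.a (T.l 0) (T.c (T.l 0) (T.l 0)))) (T.a (T.a (T.l 0) (T.l 0)) (T.c (T.l 0)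 (T.l 0)))))) (T.b (T.b (T.a (T.a (T.l 0) (T.a (T.l 0) (T.c (T.l 0) (T.l 0)))) (T.a (T.a (T.l 0) (T.l 0)) (T.c (T.l 0) (T.l 0)))) (T.a (T.a (T.l 0) (T.a (T.l 0) (T.c (T.l 0) (T.l 0)))) (T.a (T.a (T.l 0) (T.l 0)) (T.c (T.l 0) (T.l 0))))) (T.b (T.a (T.a (T.l 0) (T.a (T.l 0) (T.c (T.l 0) (T.l 0)))) (T.a (T.c (T.l 0) (T.l 512)) (T.c (T.l 0) (T.l 0)))) (T.a (T.a (T.l 0) (T.a (T.l 0) (T.l 512))) (T.a (T.c (T.l 0) (T.l 0)) (T.l 128)))))), by decide +kernel⟩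

def B012E_200_1_5_1 :
    ∃ t, chk3 (onCell 0 44739242 0 1073741824 991146299 28908434 (corT true 1 c0B cB012E gB2q0 gB0q2 gB0q1 gB1q1 true false)) t 1 5 1 = true :=
  ⟨(T.b (T.b (T.b (T.b (T.b (T.b (T.a (T.a (T.l 0) (T.a (T.l 0) (T.l 0))) (T.a (T.c (T.l 0) (T.l 0)) (T.l 0))) (T.a (T.a (T.l 0) (T.a (T.l 0) (T.l 0))) (T.a (T.c (T.l 0) (T.l 0)) (T.l 0)))) (T.b (T.a (T.a (T.l 0) (T.a (T.l 0) (T.l 0))) (T.a (T.c (T.l 0) (T.l 0)) (T.l 0))) (T.a (T.a (T.l 0) (T.a (T.l 0) (T.l 0))) (T.a (T.c (T.l 0) (T.l 0)) (T.l 0))))) (T.b (T.b (T.a (T.a (T.l 0) (T.a (T.l 0) (T.l 0))) (T.a (T.c (T.l 0) (T.l 0)) (T.l 0))) (T.a (T.a (T.l 0) (T.a (T.l 0) (T.l 0))) (T.a (T.c (T.l 0) (T.l 0)) (T.l 0)))) (T.b (T.a (T.a (T.l 0) (T.a (T.l 0) (T.l 0))) (T.a (T.l 128) (T.l 0))) (T.a (T.a (T.l 0) (T.a (T.l 0) (T.l 0))) (T.a (T.l 0) (T.l 0)))))) (T.b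 (T.b (T.b (T.a (T.a (T.l 0) (T.a (T.l 0) (T.l 0))) (T.a (T.l 0) (T.l 0))) (T.a (T.a (T.l 0) (T.a (T.l 0) (T.l 0))) (T.a (T.l 0) (T.l 0)))) (T.a (T.a (T.l 0) (T.a (T.l 0) (T.l 0))) (T.a (T.l 0) (T.l 0)))) (T.a (T.a (T.l 0) (T.a (T.l 0) (T.l 0))) (T.a (T.l 0) (T.l 0))))) (T.b (T.a (T.a (T.l 0) (T.a (T.l 0) (T.l 0))) (T.a (T.c (T.l 0) (T.l 0)) (T.l 0))) (T.a (T.a (T.l 0) (T.a (T.l 0) (T.l 0))) (T.a (T.l 0) (T.l 0))))) (T.b (T.a (T.a (T.l 0) (T.a (T.l 0) (T.l 0))) (T.a (T.b (T.l 0) (T.l 0)) (T.l 0))) (T.a (T.a (T.l 816) (T.a (T.l 816) (T.l 0))) (T.a (T.l 0) (T.l 0))))), by decide +kernel⟩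

def B012E_200_1_3_1 :
    ∃ t, chk3 (onCell 0 44739242 0 1073741824 991146299 28908434 (corT true 1 c0B cB012E gB2q0 gB0q2 gB0q1 gB1q1 true false)) t 1 3 1 = true :=
  ⟨(T.b (T.b (T.b (T.a (T.a (T.l 816) (T.a (T.l 816) (T.l 0))) (T.a (T.l 0) (T.l 0))) (T.a (T.a (T.l 816) (T.a (T.l 816) (T.l 0))) (T.a (T.l 0) (T.l 0)))) (T.a (T.a (T.l 816) (T.a (T.l 816) (T.l 0))) (T.a (T.b (T.l 0) (T.l 0)) (T.l 0)))) (T.b (T.a (T.a (T.l 816) (T.a (T.l 816) (T.l 0))) (T.a (T.l 0) (T.b (T.l 816) (T.l 816)))) (T.a (T.a (T.a (T.l 816) (T.b (T.l 816) (T.l 816))) (T.a (T.l 816) (T.l 0))) (T.a (T.l 0) (T.l 816))))), by decide +kernel⟩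

theorem B012E_200_1_304_1 :
    ∃ t, chk3 (onCell 0 44739242 0 1073741824 991146299 28908434 (corT true 1 c0B cB012E gB2q0 gB0q2 gB0q1 gB1q1 true false)) t 1 304 1 = true :=
  ex3_b B012E_200_1_608_1 B012E_200_1_609_1
theorem B012E_200_1_152_1 :
    ∃ t, chk3 (onCell 0 44739242 0 1073741824 991146299 28908434 (corT true 1 c0B cB012E gB2q0 gB0q2 gB0q1 gB1q1 true false)) t 1 152 1 = true :=
  ex3_b B012E_200_1_304_1 B012E_200_1_305_1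
theorem B012E_200_1_76_1 :
    ∃ t, chk3 (onCell 0 44739242 0 1073741824 991146299 28908434 (corT true 1 c0B cB012E gB2q0 gB0q2 gB0q1 gB1q1 true false)) t 1 76 1 = true :=
  ex3_b B012E_200_1_152_1 B012E_200_1_153_1
theorem B012E_200_1_38_1 :
    ∃ t, chk3 (onCell 0 44739242 0 1073741824 991146299 28908434 (corT true 1 c0B cB012E gB2q0 gB0q2 gB0q1 gB1q1 true false)) t 1 38 1 = true :=
  ex3_b B012E_200_1_76_1 B012E_200_1_77_1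
theorem B012E_200_1_19_1 :
    ∃ t, chk3 (onCell 0 44739242 0 1073741824 991146299 28908434 (corT true 1 c0B cB012E gB2q0 gB0q2 gB0q1 gB1q1 true false)) t 1 19 1 = true :=
  ex3_b B012E_200_1_38_1 B012E_200_1_39_1
theorem B012E_200_1_303_1 :
    ∃ t, chk3 (onCell 0 44739242 0 1073741824 991146299 28908434 (corT true 1 c0B cB012E gB2q0 gB0q2 gB0q1 gB1q1 true false)) t 1 303 1 = true :=
  ex3_b B012E_200_1_606_1 B012E_200_1_607_1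
theorem B012E_200_1_605_1 :
    ∃ t, chk3 (onCell 0 44739242 0 1073741824 991146299 28908434 (corT true 1 c0B cB012E gB2q0 gB0q2 gB0q1 gB1q1 true false)) t 1 605 1 = true :=
  ex3_a B012E_200_2_605_1 B012E_200_3_605_1
theorem B012E_200_1_604_1 :
    ∃ t, chk3 (onCell 0 44739242 0 1073741824 991146299 28908434 (corT true 1 c0B cB012E gB2q0 gB0q2 gB0q1 gB1q1 true false)) t 1 604 1 = true :=
  ex3_a B012E_200_2_604_1 B012E_200_3_604_1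
theorem B012E_200_1_302_1 :
    ∃ t, chk3 (onCell 0 44739242 0 1073741824 991146299 28908434 (corT true 1 c0B cB012E gB2q0 gB0q2 gB0q1 gB1q1 true false)) t 1 302 1 = true :=
  ex3_b B012E_200_1_604_1 B012E_200_1_605_1
theorem B012E_200_1_151_1 :
    ∃ t, chk3 (onCell 0 44739242 0 1073741824 991146299 28908434 (corT true 1 c0B cB012E gB2q0 gB0q2 gB0q1 gB1q1 true false)) t 1 151 1 = true :=
  ex3_b B012E_200_1_302_1 B012E_200_1_303_1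
theorem B012E_200_3_602_1 :
    ∃ t, chk3 (onCell 0 44739242 0 1073741824 991146299 28908434 (corT true 1 c0B cB012E gB2q0 gB0q2 gB0q1 gB1q1 true false)) t 3 602 1 = true :=
  ex3_b B012E_200_3_1204_1 B012E_200_3_1205_1
theorem B012E_200_3_301_1 :
    ∃ t, chk3 (onCell 0 44739242 0 1073741824 991146299 28908434 (corT true 1 c0B cB012E gB2q0 gB0q2 gB0q1 gB1q1 true false)) t 3 301 1 = true :=
  ex3_b B012E_200_3_602_1 B012E_200_3_603_1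
theorem B012E_200_2_603_1 :
    ∃ t, chk3 (onCell 0 44739242 0 1073741824 991146299 28908434 (corT true 1 c0B cB012E gB2q0 gB0q2 gB0q1 gB1q1 true false)) t 2 603 1 = true :=
  ex3_b B012E_200_2_1206_1 B012E_200_2_1207_1
theorem B012E_200_2_602_1 :
    ∃ t, chk3 (onCell 0 44739242 0 1073741824 991146299 28908434 (corT true 1 c0B cB012E gB2q0 gB0q2 gB0q1 gB1q1 true false)) t 2 602 1 = true :=
  ex3_b B012E_200_2_1204_1 B012E_200_2_1205_1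
theorem B012E_200_2_301_1 :
    ∃ t, chk3 (onCell 0 44739242 0 1073741824 991146299 28908434 (corT true 1 c0B cB012E gB2q0 gB0q2 gB0q1 gB1q1 true false)) t 2 301 1 = true :=
  ex3_b B012E_200_2_602_1 B012E_200_2_603_1
theorem B012E_200_1_301_1 :
    ∃ t, chk3 (onCell 0 44739242 0 1073741824 991146299 28908434 (corT true 1 c0B cB012E gB2q0 gB0q2 gB0q1 gB1q1 true false)) t 1 301 1 = true :=
  ex3_a B012E_200_2_301_1 B012E_200_3_301_1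
theorem B012E_200_7_1202_1 :
    ∃ t, chk3 (onCell 0 44739242 0 1073741824 991146299 28908434 (corT true 1 c0B cB012E gB2q0 gB0q2 gB0q1 gB1q1 true false)) t 7 1202 1 = true :=
  ex3_b B012E_200_7_2404_1 B012E_200_7_2405_1
theorem B012E_200_3_1202_1 :
    ∃ t, chk3 (onCell 0 44739242 0 1073741824 991146299 28908434 (corT true 1 c0B cB012E gB2q0 gB0q2 gB0q1 gB1q1 true false)) t 3 1202 1 = true :=
  ex3_a B012E_200_6_1202_1 B012E_200_7_1202_1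
theorem B012E_200_3_601_1 :
    ∃ t, chk3 (onCell 0 44739242 0 1073741824 991146299 28908434 (corT true 1 c0B cB012E gB2q0 gB0q2 gB0q1 gB1q1 true false)) t 3 601 1 = true :=
  ex3_b B012E_200_3_1202_1 B012E_200_3_1203_1
theorem B012E_200_3_300_1 :
    ∃ t, chk3 (onCell 0 44739242 0 1073741824 991146299 28908434 (corT true 1 c0B cB012E gB2q0 gB0q2 gB0q1 gB1q1 true false)) t 3 300 1 = true :=
  ex3_b B012E_200_3_600_1 B012E_200_3_601_1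
theorem B012E_200_5_1203_1 :
    ∃ t, chk3 (onCell 0 44739242 0 1073741824 991146299 28908434 (corT true 1 c0B cB012E gB2q0 gB0q2 gB0q1 gB1q1 true false)) t 5 1203 1 = true :=
  ex3_b B012E_200_5_2406_1 B012E_200_5_2407_1
theorem B012E_200_2_1203_1 :
    ∃ t, chk3 (onCell 0 44739242 0 1073741824 991146299 28908434 (corT true 1 c0B cB012E gB2q0 gB0q2 gB0q1 gB1q1 true false)) t 2 1203 1 = true :=
  ex3_a B012E_200_4_1203_1 B012E_200_5_1203_1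
theorem B012E_200_2_601_1 :
    ∃ t, chk3 (onCell 0 44739242 0 1073741824 991146299 28908434 (corT true 1 c0B cB012E gB2q0 gB0q2 gB0q1 gB1q1 true false)) t 2 601 1 = true :=
  ex3_b B012E_200_2_1202_1 B012E_200_2_1203_1
theorem B012E_200_2_300_1 :
    ∃ t, chk3 (onCell 0 44739242 0 1073741824 991146299 28908434 (corT true 1 c0B cB012E gB2q0 gB0q2 gB0q1 gB1q1 true false)) t 2 300 1 = true :=
  ex3_b B012E_200_2_600_1 B012E_200_2_601_1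
theorem B012E_200_1_300_1 :
    ∃ t, chk3 (onCell 0 44739242 0 1073741824 991146299 28908434 (corT true 1 c0B cB012E gB2q0 gB0q2 gB0q1 gB1q1 true false)) t 1 300 1 = true :=
  ex3_a B012E_200_2_300_1 B012E_200_3_300_1
theorem B012E_200_1_150_1 :
    ∃ t, chk3 (onCell 0 44739242 0 1073741824 991146299 28908434 (corT true 1 c0B cB012E gB2q0 gB0q2 gB0q1 gB1q1 true false)) t 1 150 1 = true :=
  ex3_b B012E_200_1_300_1 B012E_200_1_301_1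
theorem B012E_200_1_75_1 :
    ∃ t, chk3 (onCell 0 44739242 0 1073741824 991146299 28908434 (corT true 1 c0B cB012E gB2q0 gB0q2 gB0q1 gB1q1 true false)) t 1 75 1 = true :=
  ex3_b B012E_200_1_150_1 B012E_200_1_151_1
theorem B012E_200_1_37_1 :
    ∃ t, chk3 (onCell 0 44739242 0 1073741824 991146299 28908434 (corT true 1 c0B cB012E gB2q0 gB0q2 gB0q1 gB1q1 true false)) t 1 37 1 = true :=
  ex3_b B012E_200_1_74_1 B012E_200_1_75_1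
theorem B012E_200_1_18_1 :
    ∃ t, chk3 (onCell 0 44739242 0 1073741824 991146299 28908434 (corT true 1 c0B cB012E gB2q0 gB0q2 gB0q1 gB1q1 true false)) t 1 18 1 = true :=
  ex3_b B012E_200_1_36_1 B012E_200_1_37_1
theorem B012E_200_1_9_1 :
    ∃ t, chk3 (onCell 0 44739242 0 1073741824 991146299 28908434 (corT true 1 c0B cB012E gB2q0 gB0q2 gB0q1 gB1q1 true false)) t 1 9 1 = true :=
  ex3_b B012E_200_1_18_1 B012E_200_1_19_1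
theorem B012E_200_1_4_1 :
    ∃ t, chk3 (onCell 0 44739242 0 1073741824 991146299 28908434 (corT true 1 c0B cB012E gB2q0 gB0q2 gB0q1 gB1q1 true false)) t 1 4 1 = true :=
  ex3_b B012E_200_1_8_1 B012E_200_1_9_1
theorem B012E_200_1_2_1 :
    ∃ t, chk3 (onCell 0 44739242 0 1073741824 991146299 28908434 (corT true 1 c0B cB012E gB2q0 gB0q2 gB0q1 gB1q1 true false)) t 1 2 1 = true :=
  ex3_b B012E_200_1_4_1 B012E_200_1_5_1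
theorem B012E_200 :
    ∃ t, chk3 (onCell 0 44739242 0 1073741824 991146299 28908434 (corT true 1 c0B cB012E gB2q0 gB0q2 gB0q1 gB1q1 true false)) t 1 1 1 = true :=
  ex3_b B012E_200_1_2_1 B012E_200_1_3_1

def B012E_210_1_8_1 :
    ∃ t, chk3 (onCell 0 53687091 0 1073741824 991146299 28908434 (corT true 1 c0B cB012E gB2q0 gB1q2 gB0q1 gB1q1 true false)) t 1 8 1 = true :=
  ⟨(T.l 1), by decide +kernel⟩

def B012E_210_1_18_1 :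
    ∃ t, chk3 (onCell 0 53687091 0 1073741824 991146299 28908434 (corT true 1 c0B cB012E gB2q0 gB1q2 gB0q1 gB1q1 true false)) t 1 18 1 = true :=
  ⟨(T.l 1), by decide +kernel⟩

def B012E_210_1_76_1 :
    ∃ t, chk3 (onCell 0 53687091 0 1073741824 991146299 28908434 (corT true 1 c0B cB012E gB2q0 gB1q2 gB0q1 gB1q1 true false)) t 1 76 1 = true :=
  ⟨(T.b (T.l 1) (T.b (T.a (T.l 1) (T.l 1)) (T.a (T.a (T.l 0) (T.b (T.b (T.a (T.l 1) (T.l 1)) (T.b (T.a (T.a (T.l 204) (T.l 204)) (T.a (T.c (T.l 0) (T.l 204)) (T.l 0))) (T.a (T.a (T.l 204) (T.l 204)) (T.a (T.c (T.l 0) (T.l 204)) (T.l 0))))) (T.b (T.b (T.a (T.a (T.l 204) (T.l 204)) (T.a (T.c (T.l 0) (T.l 204)) (T.l 0))) (T.a (T.a (T.l 204) (T.l 204)) (T.c (T.l 32) (T.c (T.l 0) (T.l 716))))) (T.b (T.a (T.a (T.l 204) (T.l 204)) (T.a (T.c (T.l 0) (T.l 204)) (T.l 0))) (T.a (T.a (T.l 204)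 (T.l 204)) (T.a (T.c (T.l 0) (T.l 204)) (T.l 0))))))) (T.b (T.b (T.a (T.l 1) (T.l 1)) (T.a (T.b (T.b (T.b (T.l 1) (T.a (T.c (T.l 204) (T.l 0)) (T.c (T.l 204) (T.l 0)))) (T.a (T.c (T.l 204) (T.l 0)) (T.c (T.l 204) (T.l 0)))) (T.b (T.a (T.c (T.l 204) (T.l 0)) (T.c (T.l 204) (T.l 0))) (T.a (T.c (T.l 204) (T.l 0)) (T.c (T.l 204) (T.l 0))))) (T.b (T.b (T.b (T.l 1) (T.a (T.c (T.l 0) (T.l 0)) (T.c (T.l 0) (T.l 0)))) (T.a (T.c (T.l 0) (T.l 0)) (T.c (T.l 0) (T.l 0)))) (T.b (T.a (T.c (T.l 0) (T.l 0)) (T.c (T.l 0) (T.l 0))) (T.a (T.c (T.l 0) (T.l 0)) (T.c (T.l 0) (T.l 0))))))) (T.b (T.a (T.b (T.b (T.a (T.c (T.l 204) (T.l 0)) (T.c (T.l 204) (T.l 0))) (T.a (T.c (T.l 204) (T.l 0)) (T.c (T.l 204) (T.l 0)))) (T.a (T.c (T.l 204) (T.l 0)) (T.c (T.l 204) (T.l 0)))) (T.a (T.c (T.l 0) (T.l 0)) (T.c (T.l 0) (T.l 0)))) (T.a (T.a (T.c (T.l 204)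 (T.l 0)) (T.c (T.l 204) (T.l 0))) (T.a (T.c (T.l 0) (T.l 0)) (T.l 32)))))))), by decide +kernel⟩

def B012E_210_1_154_1 :
    ∃ t, chk3 (onCell 0 53687091 0 1073741824 991146299 28908434 (corT true 1 c0B cB012E gB2q0 gB1q2 gB0q1 gB1q1 true false)) t 1 154 1 = true :=
  ⟨(T.b (T.a (T.a (T.l 0) (T.b (T.b (T.b (T.a (T.a (T.l 204) (T.l 204)) (T.a (T.c (T.l 0) (T.l 204)) (T.l 0))) (T.a (T.a (T.l 204) (T.l 204)) (T.a (T.c (T.l 0) (T.l 204)) (T.l 0)))) (T.b (T.a (T.a (T.l 204) (T.l 204)) (T.a (T.c (T.l 0) (T.l 204)) (T.l 0))) (T.a (T.a (T.l 204) (T.l 204)) (T.a (T.c (T.l 0) (T.l 204)) (T.l 0))))) (T.b (T.b (T.a (T.c (T.l 204) (T.l 236)) (T.a (T.c (T.l 0) (T.l 204)) (T.l 0))) (T.a (T.c (T.l 204) (T.l 236)) (T.a (T.c (T.l 0) (T.l 204)) (T.l 0)))) (T.b (T.a (T.c (T.l 204) (T.l 236)) (T.a (T.c (T.l 0) (T.l 204)) (T.l 0))) (T.a (T.c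 (T.l 204) (T.l 236)) (T.a (T.c (T.l 0) (T.l 204)) (T.l 0))))))) (T.b (T.b (T.a (T.a (T.c (T.l 0) (T.l 0)) (T.c (T.l 204) (T.l 0))) (T.a (T.l 32) (T.l 32))) (T.a (T.a (T.c (T.l 0) (T.l 0)) (T.l 32)) (T.a (T.l 32) (T.l 32)))) (T.b (T.a (T.a (T.c (T.l 0) (T.l 0)) (T.l 32)) (T.a (T.l 32) (T.l 32))) (T.a (T.a (T.c (T.l 0) (T.l 0)) (T.l 32)) (T.a (T.l 32) (T.l 0)))))) (T.a (T.a (T.l 0) (T.b (T.b (T.b (T.a (T.c (T.l 204) (T.l 236)) (T.a (T.l 512) (T.l 0))) (T.a (T.c (T.l 204) (T.l 236)) (T.a (T.l 512) (T.l 0)))) (T.b (T.a (T.c (T.l 204) (T.l 204)) (T.a (T.l 512) (T.l 0))) (T.a (T.c (T.l 204) (T.l 204)) (T.a (T.l 512) (T.l 0))))) (T.a (T.c (T.l 204) (T.l 204)) (T.a (T.l 512) (T.l 0))))) (T.b (T.b (T.a (T.a (T.c (T.l 0) (T.l 0)) (T.l 0)) (T.a (T.l 0) (T.l 0))) (T.a (T.a (T.l 32) (T.l 0)) (T.c (T.l 32) (T.l 40)))) (T.b (T.a (T.a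 (T.l 32) (T.l 0)) (T.c (T.l 32) (T.l 0))) (T.a (T.a (T.l 0) (T.l 0)) (T.c (T.l 32) (T.l 0))))))), by decide +kernel⟩

def B012E_210_1_155_1 :
    ∃ t, chk3 (onCell 0 53687091 0 1073741824 991146299 28908434 (corT true 1 c0B cB012E gB2q0 gB1q2 gB0q1 gB1q1 true false)) t 1 155 1 = true :=
  ⟨(T.b (T.a (T.a (T.l 0) (T.a (T.c (T.l 204) (T.l 204)) (T.a (T.l 512) (T.l 0)))) (T.b (T.b (T.a (T.a (T.l 0) (T.l 0)) (T.c (T.l 32) (T.l 0))) (T.a (T.a (T.l 0) (T.l 0)) (T.c (T.l 0) (T.l 0)))) (T.a (T.a (T.l 0) (T.l 0)) (T.c (T.l 0) (T.l 0))))) (T.a (T.a (T.l 0) (T.a (T.c (T.l 0) (T.l 204)) (T.c (T.l 0) (T.l 512)))) (T.a (T.a (T.l 0) (T.l 0)) (T.c (T.l 0) (T.l 0))))), by decide +kernel⟩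

def B012E_210_1_39_1 :
    ∃ t, chk3 (onCell 0 53687091 0 1073741824 991146299 28908434 (corT true 1 c0B cB012E gB2q0 gB1q2 gB0q1 gB1q1 true false)) t 1 39 1 = true :=
  ⟨(T.b (T.b (T.b (T.a (T.a (T.l 0) (T.a (T.c (T.l 0) (T.l 204)) (T.c (T.l 0) (T.l 0)))) (T.a (T.a (T.l 0) (T.l 0)) (T.c (T.l 0) (T.l 0)))) (T.a (T.a (T.l 0) (T.a (T.l 32) (T.c (T.l 0) (T.l 0)))) (T.a (T.a (T.l 0) (T.l 0)) (T.c (T.l 0) (T.l 0))))) (T.b (T.a (T.a (T.l 0) (T.a (T.l 0) (T.c (T.l 0) (T.l 0)))) (T.a (T.a (T.l 0) (T.l 0)) (T.c (T.l 0) (T.l 0)))) (T.a (T.a (T.l 0) (T.a (T.l 0) (T.c (T.l 0) (T.l 0)))) (T.a (T.a (T.l 0) (T.l 0)) (T.c (T.l 0) (T.l 0)))))) (T.b (T.b (T.a (T.a (T.l 0) (T.a (T.l 0) (T.c (T.l 0) (T.l 0)))) (T.a (T.a (T.l 0) (T.l 0)) (T.l 0))) (T.a (T.a (T.l 0) (T.a (T.l 0) (T.c (T.l 0) (T.l 0)))) (T.a (T.a (T.l 0) (T.l 0)) (T.l 0))))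 (T.b (T.a (T.a (T.l 0) (T.a (T.l 0) (T.c (T.l 0) (T.l 0)))) (T.a (T.c (T.l 0) (T.l 640)) (T.l 0))) (T.a (T.a (T.l 0) (T.a (T.l 0) (T.l 512))) (T.a (T.c (T.l 0) (T.l 0)) (T.l 0)))))), by decide +kernel⟩

def B012E_210_1_5_1 :
    ∃ t, chk3 (onCell 0 53687091 0 1073741824 991146299 28908434 (corT true 1 c0B cB012E gB2q0 gB1q2 gB0q1 gB1q1 true false)) t 1 5 1 = true :=
  ⟨(T.b (T.b (T.b (T.b (T.b (T.b (T.a (T.a (T.l 0) (T.a (T.l 0) (T.l 512))) (T.a (T.c (T.l 0) (T.l 0)) (T.l 0))) (T.a (T.a (T.l 0) (T.a (T.l 0) (T.l 0))) (T.a (T.c (T.l 0) (T.l 0)) (T.l 0)))) (T.a (T.a (T.l 0) (T.a (T.l 0) (T.l 0))) (T.a (T.c (T.l 0) (T.l 0)) (T.l 0)))) (T.b (T.a (T.a (T.l 0) (T.a (T.l 0) (T.l 0))) (T.a (T.c (T.l 0) (T.l 0)) (T.l 0))) (T.a (T.a (T.l 0) (T.a (T.l 0) (T.l 0))) (T.a (T.c (T.l 0) (T.l 0)) (T.l 0))))) (T.b (T.b (T.a (T.a (T.l 0)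 (T.a (T.l 0) (T.l 0))) (T.a (T.l 0) (T.l 0))) (T.a (T.a (T.l 0) (T.a (T.l 0) (T.l 0))) (T.a (T.l 0) (T.l 0)))) (T.a (T.a (T.l 0) (T.a (T.l 0) (T.l 0))) (T.a (T.l 0) (T.l 0))))) (T.b (T.a (T.a (T.l 0) (T.a (T.l 0) (T.l 0))) (T.a (T.l 0) (T.l 0))) (T.a (T.a (T.l 0) (T.a (T.l 0) (T.l 0))) (T.a (T.l 0) (T.l 0))))) (T.a (T.a (T.l 0) (T.a (T.l 0) (T.l 0))) (T.a (T.b (T.l 0) (T.l 0)) (T.l 0)))), by decide +kernel⟩

def B012E_210_1_3_1 :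
    ∃ t, chk3 (onCell 0 53687091 0 1073741824 991146299 28908434 (corT true 1 c0B cB012E gB2q0 gB1q2 gB0q1 gB1q1 true false)) t 1 3 1 = true :=
  ⟨(T.b (T.b (T.a (T.a (T.l 0) (T.a (T.l 0) (T.l 0))) (T.a (T.l 0) (T.l 0))) (T.a (T.a (T.l 0) (T.l 0)) (T.a (T.l 0) (T.l 0)))) (T.b (T.a (T.a (T.l 0) (T.l 0)) (T.b (T.l 0) (T.l 0))) (T.a (T.a (T.l 816) (T.l 0)) (T.a (T.l 816) (T.l 816))))), by decide +kernel⟩

theorem B012E_210_1_77_1 :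
    ∃ t, chk3 (onCell 0 53687091 0 1073741824 991146299 28908434 (corT true 1 c0B cB012E gB2q0 gB1q2 gB0q1 gB1q1 true false)) t 1 77 1 = true :=
  ex3_b B012E_210_1_154_1 B012E_210_1_155_1
theorem B012E_210_1_38_1 :
    ∃ t, chk3 (onCell 0 53687091 0 1073741824 991146299 28908434 (corT true 1 c0B cB012E gB2q0 gB1q2 gB0q1 gB1q1 true false)) t 1 38 1 = true :=
  ex3_b B012E_210_1_76_1 B012E_210_1_77_1
theorem B012E_210_1_19_1 :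
    ∃ t, chk3 (onCell 0 53687091 0 1073741824 991146299 28908434 (corT true 1 c0B cB012E gB2q0 gB1q2 gB0q1 gB1q1 true false)) t 1 19 1 = true :=
  ex3_b B012E_210_1_38_1 B012E_210_1_39_1
theorem B012E_210_1_9_1 :
    ∃ t, chk3 (onCell 0 53687091 0 1073741824 991146299 28908434 (corT true 1 c0B cB012E gB2q0 gB1q2 gB0q1 gB1q1 true false)) t 1 9 1 = true :=
  ex3_b B012E_210_1_18_1 B012E_210_1_19_1
theorem B012E_210_1_4_1 :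
    ∃ t, chk3 (onCell 0 53687091 0 1073741824 991146299 28908434 (corT true 1 c0B cB012E gB2q0 gB1q2 gB0q1 gB1q1 true false)) t 1 4 1 = true :=
  ex3_b B012E_210_1_8_1 B012E_210_1_9_1
theorem B012E_210_1_2_1 :
    ∃ t, chk3 (onCell 0 53687091 0 1073741824 991146299 28908434 (corT true 1 c0B cB012E gB2q0 gB1q2 gB0q1 gB1q1 true false)) t 1 2 1 = true :=
  ex3_b B012E_210_1_4_1 B012E_210_1_5_1
theorem B012E_210 :
    ∃ t, chk3 (onCell 0 53687091 0 1073741824 991146299 28908434 (corT true 1 c0B cB012E gB2q0 gB1q2 gB0q1 gB1q1 true false)) t 1 1 1 = true :=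
  ex3_b B012E_210_1_2_1 B012E_210_1_3_1

def B012E_220 :
    ∃ t, chk3 (onCell 0 53687091 0 1073741824 991146299 28908434 (corT true 1 c0B cB012E gB2q0 gB2q2 gB0q1 gB1q1 true false)) t 1 1 1 = true :=
  ⟨(T.b (T.b (T.b (T.l 1) (T.l 1)) (T.b (T.b (T.b (T.b (T.b (T.l 1) (T.a (T.a (T.l 204) (T.a (T.l 204) (T.l 0))) (T.a (T.c (T.l 0) (T.l 0)) (T.l 0)))) (T.b (T.a (T.a (T.l 204) (T.a (T.l 204) (T.l 0))) (T.a (T.c (T.l 0) (T.l 0)) (T.l 0))) (T.a (T.a (T.l 204) (T.a (T.l 204) (T.l 0))) (T.a (T.l 0) (T.l 0))))) (T.b (T.b (T.a (T.a (T.l 204) (T.a (T.l 204) (T.l 0))) (T.a (T.l 0) (T.l 0))) (T.a (T.a (T.l 204) (T.a (T.l 204) (T.l 0))) (T.a (T.l 0) (T.l 0)))) (T.b (T.a (T.a (T.l 204) (T.a (T.l 204) (T.l 0))) (T.a (T.l 0) (T.l 0))) (T.a (T.a (T.l 204) (T.a (T.l 204) (T.l 0))) (T.a (T.l 0) (T.l 0)))))) (T.b (T.b (T.a (T.a (T.l 0) (T.a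 (T.l 204) (T.l 0))) (T.a (T.l 0) (T.l 0))) (T.a (T.a (T.l 0) (T.a (T.l 0) (T.l 0))) (T.a (T.l 0) (T.l 0)))) (T.b (T.a (T.a (T.l 0) (T.a (T.l 0) (T.l 0))) (T.a (T.l 0) (T.l 0))) (T.a (T.a (T.l 0) (T.a (T.l 0) (T.l 0))) (T.a (T.l 0) (T.l 0)))))) (T.b (T.a (T.a (T.l 0) (T.a (T.l 0) (T.l 0))) (T.a (T.l 0) (T.l 0))) (T.a (T.a (T.l 0) (T.a (T.l 0) (T.l 0))) (T.a (T.l 0) (T.l 0)))))) (T.b (T.b (T.a (T.a (T.l 0) (T.a (T.l 0) (T.l 0))) (T.a (T.l 0) (T.l 0))) (T.a (T.a (T.l 0) (T.l 0)) (T.a (T.l 0) (T.l 0)))) (T.b (T.a (T.a (T.l 0) (T.l 0)) (T.b (T.l 0) (T.l 0))) (T.a (T.a (T.l 0) (T.l 0)) (T.b (T.l 0) (T.l 0)))))), by decide +kernel⟩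

def B012L_050 :
    ∃ t, chk3 (onCell 0 53687091 0 1073741824 991146299 28908434 (corT true 1 c0B cB012L gB0q0 gB5q2 gB0q1 gB1q1 true false)) t 1 1 1 = true :=
  ⟨(T.l 1), by decide +kernel⟩

def B012L_150 :
    ∃ t, chk3 (onCell 0 53687091 0 1073741824 991146299 28908434 (corT true 1 c0B cB012L gB1q0 gB5q2 gB0q1 gB1q1 true false)) t 1 1 1 = true :=
  ⟨(T.l 1), by decide +kernel⟩

def B012L_250 :
    ∃ t, chk3 (onCell 0 53687091 0 1073741824 991146299 28908434 (corT true 1 c0B cB012L gB2q0 gB5q2 gB0q1 gB1q1 true false)) t 1 1 1 = true :=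
  ⟨(T.l 1), by decide +kernel⟩

def B012R_002 :
    ∃ t, chk3 (onCell 0 53687091 0 1073741824 991146299 28908434 (corT true 1 c0B cB012R gB0q0 gB0q2 gB2q1 gB3q1 false true)) t 1 1 1 = true :=
  ⟨(T.b (T.b (T.a (T.l 0) (T.b (T.a (T.l 0) (T.l 0)) (T.a (T.l 0) (T.b (T.l 0) (T.l 0))))) (T.b (T.b (T.a (T.l 0) (T.a (T.l 0) (T.l 0))) (T.a (T.l 0) (T.a (T.l 0) (T.l 0)))) (T.a (T.a (T.l 0) (T.a (T.l 0) (T.b (T.l 0) (T.l 0)))) (T.a (T.a (T.l 0) (T.b (T.l 0) (T.l 0))) (T.b (T.l 0) (T.l 0)))))) (T.b (T.b (T.a (T.a (T.l 0) (T.a (T.b (T.l 0) (T.l 0)) (T.b (T.l 0) (T.l 0)))) (T.a (T.a (T.b (T.l 0) (T.l 0)) (T.b (T.l 0) (T.l 0))) (T.a (T.b (T.l 0) (T.l 0)) (T.l 0)))) (T.a (T.a (T.l 0) (T.a (T.a (T.l 0) (T.l 0)) (T.b (T.l 0) (T.l 0)))) (T.a (T.a (T.b (T.l 0) (T.l 0)) (T.b (T.l 0) (T.l 0))) (T.a (T.b (T.l 0) (T.l 816)) (T.b (T.l 816) (T.l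 816)))))) (T.b (T.a (T.a (T.a (T.l 0) (T.a (T.l 0) (T.b (T.l 0) (T.l 816)))) (T.a (T.a (T.b (T.l 0) (T.l 816)) (T.b (T.l 816) (T.l 0))) (T.a (T.b (T.l 0) (T.l 816)) (T.l 0)))) (T.a (T.a (T.a (T.l 0) (T.l 0)) (T.b (T.l 816) (T.l 816))) (T.a (T.b (T.l 816) (T.l 820)) (T.b (T.l 816) (T.l 816))))) (T.a (T.a (T.a (T.l 0) (T.a (T.l 816) (T.a (T.l 816) (T.l 816)))) (T.a (T.a (T.b (T.l 816) (T.l 816)) (T.b (T.l 816) (T.l 816))) (T.a (T.b (T.l 816) (T.l 816)) (T.b (T.l 816) (T.l 816))))) (T.a (T.a (T.a (T.b (T.l 816) (T.l 816)) (T.b (T.l 816) (T.l 816))) (T.a (T.b (T.l 816) (T.l 816)) (T.b (T.l 816) (T.l 816)))) (T.a (T.b (T.b (T.l 816) (T.l 816)) (T.a (T.l 816) (T.l 816))) (T.b (T.b (T.l 816) (T.l 816)) (T.b (T.l 816) (T.l 816))))))))), by decide +kernel⟩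

def B012R_003 :
    ∃ t, chk3 (onCell 0 53687091 0 1073741824 991146299 28908434 (corT true 1 c0B cB012R gB0q0 gB0q2 gB3q1 gB4q1 true true)) t 1 1 1 = true :=
  ⟨(T.b (T.b (T.l 1) (T.l 1)) (T.l 1)), by decide +kernel⟩

def B012R_004 :
    ∃ t, chk3 (onCell 0 53687091 0 1073741824 991146299 28908434 (corT true 1 c0B cB012R gB0q0 gB0q2 gB4q1 gB5q1 true true)) t 1 1 1 = true :=
  ⟨(T.l 1), by decide +kernel⟩

def B012R_012 :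
    ∃ t, chk3 (onCell 0 53687091 0 1073741824 991146299 28908434 (corT true 1 c0B cB012R gB0q0 gB1q2 gB2q1 gB3q1 false true)) t 1 1 1 = true :=
  ⟨(T.a (T.l 16) (T.a (T.l 4) (T.b (T.b (T.l 0) (T.l 0)) (T.b (T.l 816) (T.b (T.l 816) (T.l 816)))))), by decide +kernel⟩

def B012R_013 :
    ∃ t, chk3 (onCell 0 53687091 0 1073741824 991146299 28908434 (corT true 1 c0B cB012R gB0q0 gB1q2 gB3q1 gB4q1 true true)) t 1 1 1 = true :=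
  ⟨(T.b (T.l 1) (T.l 1)), by decide +kernel⟩

def B012R_014 :
    ∃ t, chk3 (onCell 0 53687091 0 1073741824 991146299 28908434 (corT true 1 c0B cB012R gB0q0 gB1q2 gB4q1 gB5q1 true true)) t 1 1 1 = true :=
  ⟨(T.l 1), by decide +kernel⟩

def B012R_022 :
    ∃ t, chk3 (onCell 0 53687091 0 1073741824 991146299 28908434 (corT true 1 c0B cB012R gB0q0 gB2q2 gB2q1 gB3q1 false true)) t 1 1 1 = true :=
  ⟨(T.a (T.l 0) (T.a (T.l 0) (T.b (T.b (T.l 0) (T.l 816)) (T.b (T.l 816) (T.l 816))))), by decide +kernel⟩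

def B012R_023 :
    ∃ t, chk3 (onCell 0 53687091 0 1073741824 991146299 28908434 (corT true 1 c0B cB012R gB0q0 gB2q2 gB3q1 gB4q1 true true)) t 1 1 1 = true :=
  ⟨(T.b (T.l 1) (T.l 1)), by decide +kernel⟩

def B012R_024 :
    ∃ t, chk3 (onCell 0 53687091 0 1073741824 991146299 28908434 (corT true 1 c0B cB012R gB0q0 gB2q2 gB4q1 gB5q1 true true)) t 1 1 1 = true :=
  ⟨(T.l 1), by decide +kernel⟩

def B012R_102 :
    ∃ t, chk3 (onCell 0 53687091 0 1073741824 991146299 28908434 (corT true 1 c0B cB012R gB1q0 gB0q2 gB2q1 gB3q1 false true)) t 1 1 1 = true :=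
  ⟨(T.b (T.b (T.b (T.l 2) (T.b (T.l 2) (T.b (T.a (T.a (T.l 816) (T.l 816)) (T.l 0)) (T.a (T.a (T.l 816) (T.l 816)) (T.l 816))))) (T.b (T.b (T.a (T.a (T.l 816) (T.l 816)) (T.l 816)) (T.a (T.a (T.l 816) (T.l 816)) (T.b (T.l 0) (T.l 0)))) (T.b (T.a (T.a (T.l 816) (T.l 816)) (T.b (T.l 0) (T.l 0))) (T.a (T.a (T.l 816) (T.l 816)) (T.b (T.l 0) (T.l 0)))))) (T.b (T.b (T.a (T.a (T.l 816) (T.b (T.l 816) (T.l 816))) (T.a (T.l 0) (T.l 816))) (T.a (T.a (T.l 816) (T.a (T.l 816) (T.l 816))) (T.a (T.l 0) (T.l 816)))) (T.b (T.a (T.a (T.a (T.l 816) (T.b (T.l 816) (T.l 816))) (T.a (T.l 816) (T.l 816))) (T.a (T.l 820) (T.l 816))) (T.a (T.a (T.a (T.l 816) (T.b (T.l 816) (T.l 816))) (T.a (T.l 816) (T.l 816))) (T.a (T.b (T.l 816) (T.l 816)) (T.l 816)))))), by decide +kernel⟩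

def B012R_103 :
    ∃ t, chk3 (onCell 0 53687091 0 1073741824 991146299 28908434 (corT true 1 c0B cB012R gB1q0 gB0q2 gB3q1 gB4q1 true true)) t 1 1 1 = true :=
  ⟨(T.b (T.b (T.b (T.b (T.b (T.b (T.a (T.a (T.l 204) (T.l 0)) (T.a (T.l 0) (T.l 0))) (T.a (T.a (T.l 0) (T.l 0)) (T.a (T.l 0) (T.l 0)))) (T.b (T.a (T.a (T.l 0) (T.l 0)) (T.a (T.l 0) (T.l 0))) (T.a (T.a (T.l 0) (T.l 0)) (T.a (T.l 0) (T.l 0))))) (T.b (T.a (T.a (T.l 0) (T.l 0)) (T.a (T.l 0) (T.l 0))) (T.a (T.a (T.l 816) (T.l 0)) (T.a (T.l 0) (T.l 0))))) (T.b (T.a (T.a (T.l 816) (T.l 0)) (T.b (T.l 0) (T.l 0))) (T.b (T.a (T.a (T.l 816) (T.l 0)) (T.l 64)) (T.a (T.a (T.l 816) (T.l 1)) (T.l 1))))) (T.l 1)) (T.l 1)), by decide +kernel⟩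

def B012R_104 :
    ∃ t, chk3 (onCell 0 53687091 0 1073741824 991146299 28908434 (corT true 1 c0B cB012R gB1q0 gB0q2 gB4q1 gB5q1 true true)) t 1 1 1 = true :=
  ⟨(T.b (T.b (T.b (T.b (T.b (T.b (T.a (T.a (T.l 204) (T.l 0)) (T.l 0)) (T.a (T.a (T.l 0) (T.l 1)) (T.l 1))) (T.l 1)) (T.l 1)) (T.l 1)) (T.l 1)) (T.l 1)), by decide +kernel⟩

def B012R_112 :
    ∃ t, chk3 (onCell 0 53687091 0 1073741824 991146299 28908434 (corT true 1 c0B cB012R gB1q0 gB1q2 gB2q1 gB3q1 false true)) t 1 1 1 = true :=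
  ⟨(T.b (T.b (T.l 2) (T.a (T.a (T.l 816) (T.l 816)) (T.l 816))) (T.b (T.a (T.a (T.l 816) (T.l 816)) (T.l 816)) (T.a (T.a (T.l 816) (T.l 816)) (T.a (T.l 816) (T.l 816))))), by decide +kernel⟩

def B012R_113 :
    ∃ t, chk3 (onCell 0 53687091 0 1073741824 991146299 28908434 (corT true 1 c0B cB012R gB1q0 gB1q2 gB3q1 gB4q1 true true)) t 1 1 1 = true :=
  ⟨(T.b (T.b (T.b (T.b (T.b (T.a (T.a (T.l 0) (T.l 0)) (T.a (T.l 0) (T.l 0))) (T.a (T.a (T.l 0) (T.l 0)) (T.a (T.l 0) (T.l 0)))) (T.b (T.a (T.a (T.l 0) (T.l 0)) (T.a (T.l 0) (T.l 0))) (T.a (T.a (T.l 816) (T.l 0)) (T.a (T.l 0) (T.l 0))))) (T.b (T.a (T.a (T.l 816) (T.l 0)) (T.a (T.l 816) (T.l 0))) (T.a (T.a (T.l 816) (T.l 816)) (T.b (T.l 0) (T.l 816))))) (T.b (T.b (T.a (T.a (T.l 816) (T.l 816)) (T.l 816)) (T.l 1)) (T.l 1))) (T.l 1)), by decide +kernel⟩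

def B012R_114 :
    ∃ t, chk3 (onCell 0 53687091 0 1073741824 991146299 28908434 (corT true 1 c0B cB012R gB1q0 gB1q2 gB4q1 gB5q1 true true)) t 1 1 1 = true :=
  ⟨(T.b (T.b (T.b (T.b (T.b (T.a (T.a (T.l 0) (T.l 0)) (T.l 0)) (T.a (T.a (T.l 0) (T.l 1)) (T.l 1))) (T.l 1)) (T.l 1)) (T.l 1)) (T.l 1)), by decide +kernel⟩

def B012R_122 :
    ∃ t, chk3 (onCell 0 53687091 0 1073741824 991146299 28908434 (corT true 1 c0B cB012R gB1q0 gB2q2 gB2q1 gB3q1 false true)) t 1 1 1 = true :=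
  ⟨(T.b (T.l 2) (T.b (T.a (T.a (T.l 816) (T.l 816)) (T.l 816)) (T.a (T.a (T.l 816) (T.l 816)) (T.b (T.l 816) (T.l 816))))), by decide +kernel⟩

def B012R_123 :
    ∃ t, chk3 (onCell 0 53687091 0 1073741824 991146299 28908434 (corT true 1 c0B cB012R gB1q0 gB2q2 gB3q1 gB4q1 true true)) t 1 1 1 = true :=
  ⟨(T.b (T.b (T.b (T.a (T.a (T.l 0) (T.l 0)) (T.a (T.l 0) (T.l 0))) (T.a (T.a (T.l 816) (T.l 0)) (T.a (T.l 816) (T.l 0)))) (T.a (T.a (T.l 816) (T.l 816)) (T.l 816))) (T.b (T.a (T.a (T.l 816) (T.l 816)) (T.l 816)) (T.l 1))), by decide +kernel⟩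

def B012R_124 :
    ∃ t, chk3 (onCell 0 53687091 0 1073741824 991146299 28908434 (corT true 1 c0B cB012R gB1q0 gB2q2 gB4q1 gB5q1 true true)) t 1 1 1 = true :=
  ⟨(T.b (T.b (T.b (T.a (T.a (T.l 0) (T.l 0)) (T.b (T.l 0) (T.l 1))) (T.b (T.a (T.a (T.l 816) (T.l 1)) (T.l 1)) (T.l 1))) (T.l 1)) (T.l 1)), by decide +kernel⟩

def B012R_202 :
    ∃ t, chk3 (onCell 0 53687091 0 1073741824 991146299 28908434 (corT true 1 c0B cB012R gB2q0 gB0q2 gB2q1 gB3q1 false true)) t 1 1 1 = true :=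
  ⟨(T.b (T.l 2) (T.b (T.b (T.b (T.a (T.l 2) (T.b (T.l 2) (T.l 816))) (T.a (T.a (T.l 816) (T.l 816)) (T.l 816))) (T.a (T.a (T.l 816) (T.b (T.l 0) (T.l 0))) (T.b (T.l 816) (T.l 0)))) (T.b (T.a (T.a (T.a (T.l 816) (T.l 816)) (T.b (T.l 0) (T.l 0))) (T.a (T.l 816) (T.l 816))) (T.a (T.a (T.a (T.l 816) (T.l 816)) (T.b (T.l 0) (T.l 0))) (T.a (T.l 816) (T.l 816)))))), by decide +kernel⟩

def B012R_203 :
    ∃ t, chk3 (onCell 0 53687091 0 1073741824 991146299 28908434 (corT true 1 c0B cB012R gB2q0 gB0q2 gB3q1 gB4q1 true true)) t 1 1 1 = true :=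
  ⟨(T.b (T.b (T.l 2) (T.b (T.l 2) (T.b (T.l 2) (T.a (T.a (T.l 2) (T.l 816)) (T.l 0))))) (T.b (T.b (T.b (T.a (T.a (T.l 816) (T.l 816)) (T.l 0)) (T.a (T.a (T.l 816) (T.l 816)) (T.l 64))) (T.a (T.a (T.l 816) (T.l 1)) (T.l 1))) (T.l 1))), by decide +kernel⟩

def B012R_204 :
    ∃ t, chk3 (onCell 0 53687091 0 1073741824 991146299 28908434 (corT true 1 c0B cB012R gB2q0 gB0q2 gB4q1 gB5q1 true true)) t 1 1 1 = true :=
  ⟨(T.b (T.b (T.l 2) (T.b (T.a (T.l 2) (T.a (T.l 2) (T.l 816))) (T.b (T.a (T.a (T.l 2) (T.l 816)) (T.b (T.l 816) (T.l 816))) (T.a (T.a (T.l 816) (T.l 816)) (T.l 0))))) (T.b (T.b (T.a (T.a (T.l 816) (T.l 816)) (T.l 1)) (T.l 1)) (T.l 1))), by decide +kernel⟩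

def B012R_212 :
    ∃ t, chk3 (onCell 0 53687091 0 1073741824 991146299 28908434 (corT true 1 c0B cB012R gB2q0 gB1q2 gB2q1 gB3q1 false true)) t 1 1 1 = true :=
  ⟨(T.b (T.l 2) (T.b (T.a (T.l 2) (T.l 816)) (T.b (T.a (T.a (T.l 816) (T.l 816)) (T.l 816)) (T.a (T.a (T.l 816) (T.l 816)) (T.l 816))))), by decide +kernel⟩

def B012R_213 :
    ∃ t, chk3 (onCell 0 53687091 0 1073741824 991146299 28908434 (corT true 1 c0B cB012R gB2q0 gB1q2 gB3q1 gB4q1 true true)) t 1 1 1 = true :=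
  ⟨(T.b (T.l 2) (T.b (T.a (T.a (T.l 2) (T.l 816)) (T.l 816)) (T.b (T.a (T.a (T.l 816) (T.l 816)) (T.l 816)) (T.b (T.l 1) (T.l 1))))), by decide +kernel⟩

def B012R_214 :
    ∃ t, chk3 (onCell 0 53687091 0 1073741824 991146299 28908434 (corT true 1 c0B cB012R gB2q0 gB1q2 gB4q1 gB5q1 true true)) t 1 1 1 = true :=
  ⟨(T.b (T.l 2) (T.b (T.a (T.a (T.l 816) (T.l 816)) (T.l 816)) (T.a (T.a (T.l 816) (T.l 816)) (T.l 1)))), by decide +kernel⟩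

def B012R_222 :
    ∃ t, chk3 (onCell 0 53687091 0 1073741824 991146299 28908434 (corT true 1 c0B cB012R gB2q0 gB2q2 gB2q1 gB3q1 false true)) t 1 1 1 = true :=
  ⟨(T.l 2), by decide +kernel⟩

def B012R_223 :
    ∃ t, chk3 (onCell 0 53687091 0 1073741824 991146299 28908434 (corT true 1 c0B cB012R gB2q0 gB2q2 gB3q1 gB4q1 true true)) t 1 1 1 = true :=
  ⟨(T.l 2), by decide +kernel⟩

def B012R_224 :
    ∃ t, chk3 (onCell 0 53687091 0 1073741824 991146299 28908434 (corT true 1 c0B cB012R gB2q0 gB2q2 gB4q1 gB5q1 true true)) t 1 1 1 = true :=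
  ⟨(T.l 2), by decide +kernel⟩

def B022E_000 :
    ∃ t, chk3 (onCell 0 53687091 0 1073741824 991146299 28908434 (corT true 1 c0B cB022E gB0q0 gB0q2 gB0q2 gB1q2 true true)) t 1 1 1 = true :=
  ⟨(T.l 2), by decide +kernel⟩

def B022E_001 :
    ∃ t, chk3 (onCell 0 53687091 0 1073741824 991146299 28908434 (corT true 1 c0B cB022E gB0q0 gB0q2 gB1q2 gB2q2 true true)) t 1 1 1 = true :=
  ⟨(T.l 2), by decide +kernel⟩

def B022E_002 :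
    ∃ t, chk3 (onCell 0 53687091 0 1073741824 991146299 28908434 (corT true 1 c0B cB022E gB0q0 gB0q2 gB2q2 gB3q2 true false)) t 1 1 1 = true :=
  ⟨(T.b (T.b (T.a (T.a (T.a (T.l 204) (T.c (T.l 204) (T.l 204))) (T.a (T.l 204) (T.l 204))) (T.a (T.b (T.l 204) (T.l 204)) (T.a (T.l 204) (T.l 204)))) (T.a (T.a (T.a (T.l 204) (T.a (T.l 204) (T.l 204))) (T.a (T.l 204) (T.l 204))) (T.a (T.l 204) (T.l 204)))) (T.b (T.a (T.a (T.a (T.l 0) (T.a (T.l 204) (T.l 204))) (T.a (T.l 0) (T.l 0))) (T.a (T.b (T.l 204) (T.l 0)) (T.b (T.l 0) (T.l 0)))) (T.a (T.a (T.a (T.l 0) (T.a (T.l 0) (T.l 0))) (T.a (T.a (T.l 0) (T.l 0)) (T.l 0))) (T.a (T.a (T.b (T.l 0) (T.l 0)) (T.b (T.l 0) (T.l 0))) (T.b (T.l 0) (T.a (T.l 0) (T.l 0))))))), by decide +kernel⟩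

def B022E_010 :
    ∃ t, chk3 (onCell 0 53687091 0 1073741824 991146299 28908434 (corT true 1 c0B cB022E gB0q0 gB1q2 gB0q2 gB1q2 true true)) t 1 1 1 = true :=
  ⟨(T.l 2), by decide +kernel⟩

def B022E_011 :
    ∃ t, chk3 (onCell 0 53687091 0 1073741824 991146299 28908434 (corT true 1 c0B cB022E gB0q0 gB1q2 gB1q2 gB2q2 true true)) t 1 1 1 = true :=
  ⟨(T.l 2), by decide +kernel⟩

def B022E_012 :
    ∃ t, chk3 (onCell 0 53687091 0 1073741824 991146299 28908434 (corT true 1 c0B cB022E gB0q0 gB1q2 gB2q2 gB3q2 true false)) t 1 1 1 = true :=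
  ⟨(T.a (T.b (T.b (T.l 204) (T.l 204)) (T.b (T.l 0) (T.b (T.l 0) (T.l 0)))) (T.b (T.a (T.l 204) (T.b (T.b (T.l 204) (T.l 204)) (T.l 204))) (T.b (T.a (T.l 0) (T.b (T.l 204) (T.l 0))) (T.a (T.a (T.l 0) (T.b (T.l 0) (T.l 0))) (T.b (T.l 0) (T.b (T.l 0) (T.l 0))))))), by decide +kernel⟩

def B022E_020 :
    ∃ t, chk3 (onCell 0 53687091 0 1073741824 991146299 28908434 (corT true 1 c0B cB022E gB0q0 gB2q2 gB0q2 gB1q2 true true)) t 1 1 1 = true :=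
  ⟨(T.l 2), by decide +kernel⟩

def B022E_021 :
    ∃ t, chk3 (onCell 0 53687091 0 1073741824 991146299 28908434 (corT true 1 c0B cB022E gB0q0 gB2q2 gB1q2 gB2q2 true true)) t 1 1 1 = true :=
  ⟨(T.l 2), by decide +kernel⟩

def B022E_022 :
    ∃ t, chk3 (onCell 0 53687091 0 1073741824 991146299 28908434 (corT true 1 c0B cB022E gB0q0 gB2q2 gB2q2 gB3q2 true false)) t 1 1 1 = true :=
  ⟨(T.a (T.b (T.b (T.l 204) (T.l 204)) (T.b (T.l 204) (T.l 0))) (T.b (T.a (T.l 204) (T.b (T.l 204) (T.l 204))) (T.b (T.a (T.b (T.l 204) (T.l 204)) (T.b (T.l 204) (T.l 204))) (T.a (T.a (T.l 0) (T.b (T.l 204) (T.l 0))) (T.b (T.l 0) (T.b (T.l 0) (T.l 0))))))), by decide +kernel⟩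

def B022E_100 :
    ∃ t, chk3 (onCell 0 53687091 0 1073741824 991146299 28908434 (corT true 1 c0B cB022E gB1q0 gB0q2 gB0q2 gB1q2 true true)) t 1 1 1 = true :=
  ⟨(T.l 2), by decide +kernel⟩

def B022E_101 :
    ∃ t, chk3 (onCell 0 53687091 0 1073741824 991146299 28908434 (corT true 1 c0B cB022E gB1q0 gB0q2 gB1q2 gB2q2 true true)) t 1 1 1 = true :=
  ⟨(T.l 2), by decide +kernel⟩

def B022E_102 :
    ∃ t, chk3 (onCell 0 53687091 0 1073741824 991146299 28908434 (corT true 1 c0B cB022E gB1q0 gB0q2 gB2q2 gB3q2 true false)) t 1 1 1 = true :=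
  ⟨(T.b (T.a (T.a (T.a (T.l 204) (T.c (T.l 204) (T.l 204))) (T.a (T.l 204) (T.l 204))) (T.a (T.c (T.l 0) (T.l 204)) (T.b (T.a (T.l 204) (T.l 204)) (T.b (T.l 204) (T.l 0))))) (T.a (T.b (T.a (T.a (T.l 0) (T.l 0)) (T.c (T.l 0) (T.l 0))) (T.a (T.a (T.l 0) (T.c (T.l 0) (T.l 0))) (T.a (T.l 0) (T.l 0)))) (T.a (T.b (T.b (T.l 0) (T.l 0)) (T.a (T.l 0) (T.l 0))) (T.b (T.l 0) (T.b (T.l 0) (T.l 0)))))), by decide +kernel⟩

def B022E_110 :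
    ∃ t, chk3 (onCell 0 53687091 0 1073741824 991146299 28908434 (corT true 1 c0B cB022E gB1q0 gB1q2 gB0q2 gB1q2 true true)) t 1 1 1 = true :=
  ⟨(T.l 2), by decide +kernel⟩

def B022E_111 :
    ∃ t, chk3 (onCell 0 53687091 0 1073741824 991146299 28908434 (corT true 1 c0B cB022E gB1q0 gB1q2 gB1q2 gB2q2 true true)) t 1 1 1 = true :=
  ⟨(T.l 2), by decide +kernel⟩

def B022E_112 :
    ∃ t, chk3 (onCell 0 53687091 0 1073741824 991146299 28908434 (corT true 1 c0B cB022E gB1q0 gB1q2 gB2q2 gB3q2 true false)) t 1 1 1 = true :=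
  ⟨(T.b (T.a (T.l 204) (T.a (T.l 204) (T.b (T.b (T.l 204) (T.l 204)) (T.b (T.l 204) (T.l 0))))) (T.a (T.b (T.l 0) (T.a (T.l 0) (T.a (T.l 0) (T.l 0)))) (T.b (T.a (T.l 0) (T.l 0)) (T.a (T.b (T.l 0) (T.l 0)) (T.l 0))))), by decide +kernel⟩

def B022E_120 :
    ∃ t, chk3 (onCell 0 53687091 0 1073741824 991146299 28908434 (corT true 1 c0B cB022E gB1q0 gB2q2 gB0q2 gB1q2 true true)) t 1 1 1 = true :=
  ⟨(T.l 2), by decide +kernel⟩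

def B022E_121 :
    ∃ t, chk3 (onCell 0 53687091 0 1073741824 991146299 28908434 (corT true 1 c0B cB022E gB1q0 gB2q2 gB1q2 gB2q2 true true)) t 1 1 1 = true :=
  ⟨(T.l 2), by decide +kernel⟩

def B022E_122 :
    ∃ t, chk3 (onCell 0 53687091 0 1073741824 991146299 28908434 (corT true 1 c0B cB022E gB1q0 gB2q2 gB2q2 gB3q2 true false)) t 1 1 1 = true :=
  ⟨(T.b (T.a (T.l 204) (T.a (T.l 204) (T.b (T.l 204) (T.b (T.l 204) (T.l 204))))) (T.b (T.a (T.l 204) (T.a (T.b (T.l 204) (T.l 0)) (T.l 0))) (T.a (T.a (T.l 0) (T.a (T.l 0) (T.l 0))) (T.a (T.b (T.l 0) (T.l 0)) (T.l 0))))), by decide +kernel⟩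

def B022E_200 :
    ∃ t, chk3 (onCell 0 44739242 0 1073741824 991146299 28908434 (corT true 1 c0B cB022E gB2q0 gB0q2 gB0q2 gB1q2 true true)) t 1 1 1 = true :=
  ⟨(T.l 2), by decide +kernel⟩

def B022E_201 :
    ∃ t, chk3 (onCell 0 44739242 0 1073741824 991146299 28908434 (corT true 1 c0B cB022E gB2q0 gB0q2 gB1q2 gB2q2 true true)) t 1 1 1 = true :=
  ⟨(T.l 2), by decide +kernel⟩

def B022E_202 :
    ∃ t, chk3 (onCell 0 44739242 0 1073741824 991146299 28908434 (corT true 1 c0B cB022E gB2q0 gB0q2 gB2q2 gB3q2 true false)) t 1 1 1 = true :=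
  ⟨(T.b (T.b (T.a (T.a (T.a (T.l 204) (T.c (T.l 204) (T.l 204))) (T.a (T.l 204) (T.l 204))) (T.a (T.l 204) (T.l 204))) (T.a (T.a (T.a (T.l 204) (T.l 204)) (T.l 0)) (T.a (T.l 204) (T.b (T.l 204) (T.l 0))))) (T.b (T.a (T.a (T.a (T.l 0) (T.l 0)) (T.l 0)) (T.a (T.b (T.l 0) (T.l 0)) (T.l 0))) (T.a (T.a (T.a (T.l 0) (T.l 0)) (T.a (T.l 0) (T.l 0))) (T.a (T.b (T.l 0) (T.l 0)) (T.l 0))))), by decide +kernel⟩

def B022E_210 :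
    ∃ t, chk3 (onCell 0 53687091 0 1073741824 991146299 28908434 (corT true 1 c0B cB022E gB2q0 gB1q2 gB0q2 gB1q2 true true)) t 1 1 1 = true :=
  ⟨(T.l 2), by decide +kernel⟩

def B022E_211 :
    ∃ t, chk3 (onCell 0 53687091 0 1073741824 991146299 28908434 (corT true 1 c0B cB022E gB2q0 gB1q2 gB1q2 gB2q2 true true)) t 1 1 1 = true :=
  ⟨(T.l 2), by decide +kernel⟩

def B022E_212 :
    ∃ t, chk3 (onCell 0 53687091 0 1073741824 991146299 28908434 (corT true 1 c0B cB022E gB2q0 gB1q2 gB2q2 gB3q2 true false)) t 1 1 1 = true :=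
  ⟨(T.b (T.a (T.b (T.l 204) (T.l 204)) (T.a (T.l 0) (T.b (T.b (T.l 204) (T.l 204)) (T.b (T.l 204) (T.l 0))))) (T.b (T.a (T.l 0) (T.a (T.b (T.l 0) (T.l 0)) (T.l 0))) (T.a (T.a (T.l 0) (T.a (T.l 0) (T.l 0))) (T.a (T.b (T.l 0) (T.l 0)) (T.l 0))))), by decide +kernel⟩

def B022E_220 :
    ∃ t, chk3 (onCell 0 53687091 0 1073741824 991146299 28908434 (corT true 1 c0B cB022E gB2q0 gB2q2 gB0q2 gB1q2 true true)) t 1 1 1 = true :=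
  ⟨(T.l 2), by decide +kernel⟩

def B022E_221 :
    ∃ t, chk3 (onCell 0 53687091 0 1073741824 991146299 28908434 (corT true 1 c0B cB022E gB2q0 gB2q2 gB1q2 gB2q2 true true)) t 1 1 1 = true :=
  ⟨(T.l 2), by decide +kernel⟩

def B022E_222 :
    ∃ t, chk3 (onCell 0 53687091 0 1073741824 991146299 28908434 (corT true 1 c0B cB022E gB2q0 gB2q2 gB2q2 gB3q2 true false)) t 1 1 1 = true :=
  ⟨(T.b (T.a (T.b (T.l 204) (T.l 204)) (T.a (T.l 204) (T.b (T.l 204) (T.b (T.l 204) (T.l 204))))) (T.b (T.a (T.l 204) (T.a (T.b (T.l 0) (T.l 0)) (T.l 0))) (T.a (T.a (T.l 0) (T.a (T.l 0) (T.l 0))) (T.a (T.b (T.l 0) (T.l 0)) (T.l 0))))), by decide +kernel⟩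

def B022L_050 :
    ∃ t, chk3 (onCell 0 26843545 0 1073741824 991146299 28908434 (corX 1 c0B cB022L tB022L gB0q0 gB5q2 gB0q2 gB1q2 gB0q2 true true)) t 1 1 1 = true :=
  ⟨(T.b (T.l 2) (T.b (T.b (T.a (T.l 819) (T.a (T.l 819) (T.b (T.b (T.l 2) (T.a (T.l 816) (T.l 816))) (T.a (T.l 819) (T.b (T.l 0) (T.b (T.l 816) (T.l 819))))))) (T.b (T.b (T.l 819) (T.l 819)) (T.l 1))) (T.l 1))), by decide +kernel⟩

def B022L_051 :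
    ∃ t, chk3 (onCell 0 26843545 0 1073741824 991146299 28908434 (corT true 1 c0B cB022L gB0q0 gB5q2 gB1q2 gB2q2 true true)) t 1 1 1 = true :=
  ⟨(T.b (T.b (T.l 816) (T.l 0)) (T.b (T.b (T.b (T.l 0) (T.l 1)) (T.l 1)) (T.l 1))), by decide +kernel⟩

def B022L_052 :
    ∃ t, chk3 (onCell 0 26843545 0 1073741824 991146299 28908434 (corT true 1 c0B cB022L gB0q0 gB5q2 gB2q2 gB3q2 true false)) t 1 1 1 = true :=
  ⟨(T.b (T.b (T.l 816) (T.l 1)) (T.l 1)), by decide +kernel⟩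

def B022L_150 :
    ∃ t, chk3 (onCell 0 53687091 0 1073741824 991146299 28908434 (corT true 1 c0B cB022L gB1q0 gB5q2 gB0q2 gB1q2 true true)) t 1 1 1 = true :=
  ⟨(T.b (T.b (T.l 2) (T.b (T.l 2) (T.b (T.b (T.l 2) (T.b (T.a (T.a (T.l 816) (T.a (T.l 2) (T.l 2))) (T.l 2)) (T.a (T.a (T.l 816) (T.a (T.l 816) (T.l 816))) (T.a (T.l 0) (T.l 0))))) (T.b (T.b (T.a (T.a (T.l 816) (T.a (T.l 816) (T.l 816))) (T.a (T.l 0) (T.l 0))) (T.a (T.a (T.l 816) (T.a (T.l 816) (T.l 816))) (T.a (T.l 0) (T.l 0)))) (T.b (T.a (T.a (T.l 816) (T.a (T.l 816) (T.l 816))) (T.a (T.l 0) (T.l 0))) (T.a (T.a (T.l 816) (T.c (T.l 816) (T.l 816))) (T.a (T.l 0) (T.l 0)))))))) (T.b (T.b (T.b (T.b (T.b (T.a (T.a (T.l 816) (T.c (T.l 816) (T.l 816))) (T.a (T.l 0) (T.l 0))) (T.a (T.a (T.l 816) (T.l 816)) (T.a (T.l 0) (T.l 0)))) (T.b (T.a (T.a (T.l 816) (T.l 816)) (T.a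 (T.l 0) (T.l 0))) (T.a (T.l 1) (T.a (T.l 1) (T.l 0))))) (T.l 1)) (T.l 1)) (T.l 1))), by decide +kernel⟩

def B022L_151 :
    ∃ t, chk3 (onCell 0 53687091 0 1073741824 991146299 28908434 (corT true 1 c0B cB022L gB1q0 gB5q2 gB1q2 gB2q2 true true)) t 1 1 1 = true :=
  ⟨(T.b (T.a (T.l 0) (T.a (T.l 0) (T.b (T.b (T.b (T.l 2) (T.l 0)) (T.l 0)) (T.b (T.l 0) (T.l 0))))) (T.l 1)), by decide +kernel⟩

def B022L_152 :
    ∃ t, chk3 (onCell 0 53687091 0 1073741824 991146299 28908434 (corT true 1 c0B cB022L gB1q0 gB5q2 gB2q2 gB3q2 true false)) t 1 1 1 = true :=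
  ⟨(T.b (T.b (T.b (T.a (T.l 816) (T.b (T.l 0) (T.l 0))) (T.l 1)) (T.l 1)) (T.l 1)), by decide +kernel⟩

end Pool.Agent.Strip051.G.I9231_9500.Tab.CG
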