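import Pool.Agent.Strip051.G.I9231_9500.Gn
import Pool.Agent.Strip051.PB.Corns
import Pool.Agent.Strip051.PB.CornW

/-! # Certificates of the aligned corners (generated) -/

set_option linter.all false

namespace Pool.Agent.Strip051.G.I9231_9500.Tab.CG

open Pool.Agent.Strip051.PB

def B022L_250 :
    ∃ t, chk3 (onCell 0 53687091 0 1073741824 991146299 28908434 (corT true 1 c0B cB022L gB2q0 gB5q2 gB0q2 gB1q2 true true)) t 1 1 1 = true :=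
  ⟨(T.b (T.b (T.l 2) (T.b (T.b (T.b (T.l 2) (T.b (T.a (T.l 2) (T.l 2)) (T.a (T.a (T.l 816) (T.a (T.l 816) (T.l 0))) (T.a (T.l 0) (T.l 2))))) (T.b (T.b (T.a (T.a (T.l 816) (T.a (T.l 816) (T.l 0))) (T.a (T.l 0) (T.l 0))) (T.a (T.a (T.l 816) (T.c (T.l 0) (T.l 0))) (T.a (T.l 0) (T.l 0)))) (T.b (T.a (T.a (T.l 816) (T.c (T.l 0) (T.l 0))) (T.a (T.l 0) (T.l 0))) (T.a (T.a (T.l 0) (T.l 0)) (T.a (T.l 0) (T.l 0)))))) (T.b (T.b (T.b (T.a (T.a (T.l 0) (T.l 0)) (T.a (T.l 0) (T.l 0))) (T.a (T.a (T.l 0) (T.l 0)) (T.a (T.l 0) (T.l 0)))) (T.b (T.a (T.a (T.l 0) (T.l 0)) (T.a (T.l 0) (T.l 0))) (T.a (T.l 1) (T.a (T.l 1) (T.l 0))))) (T.l 1)))) (T.l 1)), by decide +kernel⟩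

def B022L_251 :
    ∃ t, chk3 (onCell 0 53687091 0 1073741824 991146299 28908434 (corT true 1 c0B cB022L gB2q0 gB5q2 gB1q2 gB2q2 true true)) t 1 1 1 = true :=
  ⟨(T.b (T.b (T.a (T.l 0) (T.b (T.a (T.l 816) (T.b (T.l 0) (T.l 0))) (T.l 0))) (T.b (T.a (T.l 0) (T.l 0)) (T.l 1))) (T.l 1)), by decide +kernel⟩

def B022L_252 :
    ∃ t, chk3 (onCell 0 53687091 0 1073741824 991146299 28908434 (corT true 1 c0B cB022L gB2q0 gB5q2 gB2q2 gB3q2 true false)) t 1 1 1 = true :=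
  ⟨(T.b (T.b (T.b (T.a (T.l 816) (T.b (T.l 0) (T.l 1))) (T.l 1)) (T.l 1)) (T.l 1)), by decide +kernel⟩

def B022R_004 :
    ∃ t, chk3 (onCell 0 53687091 0 1073741824 991146299 28908434 (corT true 1 c0B cB022R gB0q0 gB0q2 gB4q2 gB5q2 false true)) t 1 1 1 = true :=
  ⟨(T.b (T.b (T.a (T.a (T.a (T.b (T.l 204) (T.l 204)) (T.a (T.l 204) (T.a (T.b (T.l 204) (T.l 204)) (T.l 204)))) (T.a (T.a (T.c (T.l 204) (T.l 204)) (T.b (T.l 204) (T.l 204))) (T.a (T.b (T.l 204) (T.l 204)) (T.l 204)))) (T.a (T.a (T.a (T.l 204) (T.b (T.l 204) (T.l 204))) (T.b (T.c (T.l 204) (T.l 204)) (T.l 204))) (T.a (T.b (T.c (T.l 204) (T.l 204)) (T.l 204)) (T.b (T.b (T.c (T.l 204) (T.l 204)) (T.l 204)) (T.l 204))))) (T.a (T.a (T.a (T.l 204) (T.a (T.l 204) (T.l 204))) (T.a (T.b (T.l 204) (T.l 204)) (T.l 204))) (T.a (T.a (T.l 204) (T.l 204)) (T.a (T.l 204) (T.l 204)))))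 (T.b (T.a (T.a (T.a (T.l 204) (T.a (T.l 204) (T.l 204))) (T.a (T.l 204) (T.l 204))) (T.a (T.b (T.l 204) (T.l 204)) (T.b (T.l 204) (T.l 204)))) (T.a (T.a (T.a (T.l 204) (T.l 204)) (T.c (T.l 0) (T.l 204))) (T.a (T.b (T.l 204) (T.l 0)) (T.l 0))))), by decide +kernel⟩

def B022R_014 :
    ∃ t, chk3 (onCell 0 53687091 0 1073741824 991146299 28908434 (corT true 1 c0B cB022R gB0q0 gB1q2 gB4q2 gB5q2 false true)) t 1 1 1 = true :=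
  ⟨(T.a (T.b (T.l 204) (T.l 0)) (T.b (T.a (T.b (T.l 204) (T.l 204)) (T.b (T.b (T.l 204) (T.l 204)) (T.l 204))) (T.b (T.a (T.l 0) (T.l 0)) (T.b (T.l 16) (T.l 0))))), by decide +kernel⟩

def B022R_024 :
    ∃ t, chk3 (onCell 0 53687091 0 1073741824 991146299 28908434 (corT true 1 c0B cB022R gB0q0 gB2q2 gB4q2 gB5q2 false true)) t 1 1 1 = true :=
  ⟨(T.a (T.l 0) (T.b (T.b (T.a (T.l 0) (T.l 0)) (T.b (T.l 0) (T.l 816))) (T.b (T.b (T.l 816) (T.l 0)) (T.b (T.l 0) (T.l 0))))), by decide +kernel⟩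

def B022R_104 :
    ∃ t, chk3 (onCell 0 53687091 0 1073741824 991146299 28908434 (corT true 1 c0B cB022R gB1q0 gB0q2 gB4q2 gB5q2 false true)) t 1 1 1 = true :=
  ⟨(T.b (T.a (T.a (T.a (T.c (T.l 204) (T.l 204)) (T.a (T.b (T.l 204) (T.l 204)) (T.b (T.a (T.b (T.l 204) (T.l 204)) (T.l 204)) (T.l 204)))) (T.a (T.b (T.a (T.c (T.l 204) (T.l 204)) (T.b (T.l 204) (T.l 204))) (T.l 204)) (T.b (T.a (T.b (T.l 204) (T.l 204)) (T.l 204)) (T.l 204)))) (T.a (T.b (T.a (T.a (T.l 204) (T.b (T.l 204) (T.l 204))) (T.b (T.c (T.l 204) (T.l 204)) (T.l 204))) (T.l 204)) (T.b (T.b (T.a (T.c (T.l 204) (T.l 204)) (T.b (T.c (T.l 204) (T.l 204)) (T.l 204))) (T.b (T.l 204) (T.l 204))) (T.b (T.l 204) (T.l 204))))) (T.a (T.a (T.a (T.l 0) (T.l 0)) (T.b (T.l 0) (T.b (T.l 0) (T.l 0)))) (T.a (T.b (T.l 16) (T.l 0)) (T.b (T.l 0) (T.l 0))))), by decide +kernel⟩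

def B022R_114 :
    ∃ t, chk3 (onCell 0 53687091 0 1073741824 991146299 28908434 (corT true 1 c0B cB022R gB1q0 gB1q2 gB4q2 gB5q2 false true)) t 1 1 1 = true :=
  ⟨(T.b (T.a (T.l 0) (T.a (T.b (T.l 204) (T.l 0)) (T.b (T.b (T.l 204) (T.l 204)) (T.b (T.l 204) (T.l 0))))) (T.a (T.b (T.l 0) (T.a (T.l 816) (T.l 0))) (T.b (T.b (T.l 0) (T.l 0)) (T.b (T.l 0) (T.l 0))))), by decide +kernel⟩

def B022R_124 :
    ∃ t, chk3 (onCell 0 53687091 0 1073741824 991146299 28908434 (corT true 1 c0B cB022R gB1q0 gB2q2 gB4q2 gB5q2 false true)) t 1 1 1 = true :=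
  ⟨(T.b (T.a (T.l 0) (T.a (T.b (T.l 0) (T.l 816)) (T.b (T.l 0) (T.l 0)))) (T.a (T.b (T.l 816) (T.a (T.l 816) (T.b (T.l 816) (T.l 816)))) (T.a (T.b (T.l 816) (T.l 816)) (T.b (T.l 816) (T.l 816))))), by decide +kernel⟩

def B022R_204 :
    ∃ t, chk3 (onCell 0 53687091 0 1073741824 991146299 28908434 (corT true 1 c0B cB022R gB2q0 gB0q2 gB4q2 gB5q2 false true)) t 1 1 1 = true :=
  ⟨(T.b (T.b (T.a (T.a (T.a (T.b (T.l 204) (T.l 204)) (T.a (T.b (T.l 204) (T.l 204)) (T.b (T.c (T.l 204) (T.l 204)) (T.l 204)))) (T.a (T.a (T.c (T.l 204) (T.l 204)) (T.c (T.l 204) (T.l 204))) (T.b (T.a (T.l 204) (T.l 204)) (T.l 204)))) (T.a (T.a (T.a (T.l 204) (T.b (T.l 204) (T.l 204))) (T.b (T.c (T.l 204) (T.l 204)) (T.l 204))) (T.b (T.a (T.c (T.l 204) (T.b (T.l 204) (T.l 204))) (T.b (T.c (T.l 204) (T.l 204)) (T.l 204))) (T.l 204)))) (T.a (T.a (T.a (T.l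 204) (T.l 204)) (T.l 0)) (T.a (T.l 0) (T.b (T.l 204) (T.l 0))))) (T.a (T.b (T.a (T.a (T.l 0) (T.l 0)) (T.l 0)) (T.a (T.a (T.l 0) (T.l 0)) (T.b (T.l 0) (T.l 0)))) (T.a (T.b (T.l 0) (T.l 0)) (T.b (T.l 0) (T.l 0))))), by decide +kernel⟩

def B022R_214 :
    ∃ t, chk3 (onCell 0 53687091 0 1073741824 991146299 28908434 (corT true 1 c0B cB022R gB2q0 gB1q2 gB4q2 gB5q2 false true)) t 1 1 1 = true :=
  ⟨(T.b (T.a (T.l 0) (T.a (T.b (T.l 204) (T.l 0)) (T.b (T.b (T.l 204) (T.l 204)) (T.b (T.l 0) (T.l 0))))) (T.b (T.a (T.l 816) (T.b (T.l 0) (T.l 0))) (T.a (T.a (T.l 816) (T.b (T.l 0) (T.l 816))) (T.b (T.l 0) (T.l 0))))), by decide +kernel⟩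

def B022R_224 :
    ∃ t, chk3 (onCell 0 53687091 0 1073741824 991146299 28908434 (corT true 1 c0B cB022R gB2q0 gB2q2 gB4q2 gB5q2 false true)) t 1 1 1 = true :=
  ⟨(T.b (T.b (T.a (T.l 0) (T.a (T.l 0) (T.l 0))) (T.l 2)) (T.l 2)), by decide +kernel⟩

def B101E_000 :
    ∃ t, chk3 (onCell 0 26843545 0 1073741824 991146299 28908434 (corT true 1 c0B cB101E gB0q1 gB0q1 gB0q0 gB1q0 true true)) t 1 1 1 = true :=
  ⟨(T.l 2), by decide +kernel⟩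

def B101E_001 :
    ∃ t, chk3 (onCell 0 26843545 0 1073741824 991146299 28908434 (corT true 1 c0B cB101E gB0q1 gB0q1 gB1q0 gB2q0 true true)) t 1 1 1 = true :=
  ⟨(T.l 2), by decide +kernel⟩

def B101E_002_1_4_1 :
    ∃ t, chk3 (onCell 0 26843545 0 1073741824 991146299 28908434 (corT true 1 c0B cB101E gB0q1 gB0q1 gB2q0 gB3q0 true false)) t 1 4 1 = true :=
  ⟨(T.a (T.a (T.c (T.b (T.l 816) (T.l 816)) (T.b (T.l 824) (T.l 816))) (T.a (T.c (T.b (T.l 816) (T.l 816)) (T.b (T.l 816) (T.l 816))) (T.b (T.c (T.a (T.b (T.l 816) (T.l 816)) (T.b (T.l 816) (T.l 816))) (T.a (T.c (T.l 816) (T.l 816)) (T.c (T.l 816) (T.l 816)))) (T.a (T.c (T.l 816) (T.l 816)) (T.c (T.l 816) (T.b (T.l 816) (T.l 816))))))) (T.a (T.a (T.b (T.c (T.a (T.b (T.l 816) (T.l 816)) (T.b (T.l 816) (T.l 816))) (T.a (T.c (T.l 816) (T.l 816)) (T.c (T.l 816) (T.l 816)))) (T.c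 (T.b (T.l 816) (T.l 816)) (T.a (T.b (T.l 816) (T.l 816)) (T.b (T.l 816) (T.l 816))))) (T.b (T.c (T.b (T.c (T.l 816) (T.l 816)) (T.b (T.l 816) (T.l 816))) (T.a (T.c (T.l 816) (T.l 816)) (T.c (T.l 816) (T.l 944)))) (T.c (T.b (T.l 816) (T.l 816)) (T.a (T.b (T.l 816) (T.l 816)) (T.b (T.l 816) (T.l 816)))))) (T.b (T.a (T.c (T.b (T.c (T.l 816) (T.l 816)) (T.b (T.l 816) (T.l 816))) (T.a (T.c (T.l 816) (T.b (T.l 816) (T.l 816))) (T.c (T.l 944) (T.b (T.l 816) (T.l 816))))) (T.c (T.b (T.a (T.l 816) (T.b (T.l 816) (T.l 816))) (T.b (T.l 816) (T.l 816))) (T.b (T.c (T.b (T.l 816) (T.l 816)) (T.a (T.l 816) (T.l 816))) (T.c (T.b (T.l 816) (T.l 816)) (T.b (T.l 944) (T.l 816)))))) (T.a (T.c (T.b (T.l 816) (T.l 816)) (T.a (T.b (T.l 816) (T.l 816)) (T.b (T.l 944) (T.l 816)))) (T.c (T.b (T.l 944) (T.l 816)) (T.b (T.c (T.l 816) (T.b (T.l 816) (T.l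 816))) (T.c (T.l 816) (T.b (T.l 816) (T.l 816))))))))), by decide +kernel⟩

def B101E_002_1_5_1 :
    ∃ t, chk3 (onCell 0 26843545 0 1073741824 991146299 28908434 (corT true 1 c0B cB101E gB0q1 gB0q1 gB2q0 gB3q0 true false)) t 1 5 1 = true :=
  ⟨(T.a (T.a (T.c (T.b (T.l 816) (T.l 0)) (T.b (T.l 816) (T.l 0))) (T.a (T.c (T.l 0) (T.l 0)) (T.c (T.l 0) (T.a (T.l 0) (T.l 0))))) (T.a (T.a (T.b (T.c (T.b (T.l 816) (T.l 0)) (T.a (T.b (T.l 816) (T.l 0)) (T.b (T.l 816) (T.l 0)))) (T.c (T.l 0) (T.b (T.l 0) (T.l 0)))) (T.b (T.c (T.b (T.l 816) (T.l 0)) (T.a (T.b (T.l 816) (T.l 0)) (T.b (T.l 816) (T.l 0)))) (T.c (T.b (T.l 0) (T.l 204)) (T.a (T.b (T.l 0) (T.l 204)) (T.b (T.l 0) (T.l 204)))))) (T.b (T.a (T.c (T.b (T.l 0) (T.l 0)) (T.a (T.b (T.l 816) (T.l 0)) (T.b (T.l 816) (T.l 0)))) (T.c (T.b (T.l 0) (T.l 0)) (T.b (T.c (T.l 0) (T.l 0)) (T.c (T.l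 0) (T.l 512))))) (T.a (T.c (T.b (T.l 204) (T.l 204)) (T.b (T.c (T.l 204) (T.l 512)) (T.a (T.l 204) (T.l 716)))) (T.c (T.b (T.l 204) (T.l 716)) (T.b (T.c (T.l 204) (T.b (T.l 204) (T.l 204))) (T.c (T.l 204) (T.b (T.l 204) (T.l 204))))))))), by decide +kernel⟩

def B101E_002_1_6_1 :
    ∃ t, chk3 (onCell 0 26843545 0 1073741824 991146299 28908434 (corT true 1 c0B cB101E gB0q1 gB0q1 gB2q0 gB3q0 true false)) t 1 6 1 = true :=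
  ⟨(T.a (T.a (T.c (T.b (T.l 0) (T.l 0)) (T.b (T.l 0) (T.l 0))) (T.a (T.c (T.l 0) (T.l 32)) (T.c (T.b (T.l 0) (T.l 716)) (T.a (T.l 0) (T.b (T.l 204) (T.l 204)))))) (T.a (T.a (T.c (T.b (T.l 204) (T.l 204)) (T.a (T.b (T.l 204) (T.l 204)) (T.b (T.l 204) (T.l 204)))) (T.c (T.b (T.l 204) (T.l 716)) (T.b (T.c (T.l 204) (T.l 204)) (T.c (T.l 204) (T.l 204))))) (T.b (T.a (T.c (T.b (T.l 716) (T.l 204)) (T.b (T.a (T.l 716) (T.b (T.l 204) (T.l 204))) (T.c (T.l 204) (T.l 204)))) (T.c (T.b (T.b (T.l 204) (T.l 204)) (T.b (T.l 204) (T.l 204))) (T.b (T.c (T.l 716) (T.b (T.l 716) (T.l 716))) (T.c (T.b (T.l 204) (T.l 204)) (T.b (T.l 716) (T.l 716)))))) (T.c (T.a (T.b (T.l 204) (T.l 204)) (T.b (T.l 204) (T.l 716))) (T.a (T.c (T.l 204) (T.b (T.l 204) (T.l 204))) (T.c (T.l 716) (T.b (T.l 716) (T.l 716)))))))), by decide +kernel⟩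

def B101E_002_1_14_1 :
    ∃ t, chk3 (onCell 0 26843545 0 1073741824 991146299 28908434 (corT true 1 c0B cB101E gB0q1 gB0q1 gB2q0 gB3q0 true false)) t 1 14 1 = true :=
  ⟨(T.a (T.a (T.c (T.l 0) (T.l 0)) (T.a (T.c (T.l 204) (T.l 204)) (T.c (T.b (T.l 204) (T.l 716)) (T.a (T.l 204) (T.l 204))))) (T.a (T.a (T.c (T.b (T.l 204) (T.l 204)) (T.c (T.l 204) (T.l 204))) (T.c (T.b (T.l 204) (T.l 204)) (T.c (T.l 204) (T.l 204)))) (T.a (T.c (T.b (T.l 204) (T.l 716)) (T.c (T.l 204) (T.l 716))) (T.c (T.b (T.a (T.l 204) (T.b (T.l 204) (T.l 204))) (T.a (T.b (T.l 204) (T.l 204)) (T.b (T.l 204) (T.l 716)))) (T.b (T.a (T.b (T.l 716) (T.l 716)) (T.c (T.l 204) (T.l 716))) (T.c (T.a (T.l 204) (T.l 204)) (T.a (T.l 204) (T.l 716)))))))), by decide +kernel⟩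

def B101E_002_1_30_1 :
    ∃ t, chk3 (onCell 0 26843545 0 1073741824 991146299 28908434 (corT true 1 c0B cB101E gB0q1 gB0q1 gB2q0 gB3q0 true false)) t 1 30 1 = true :=
  ⟨(T.a (T.a (T.c (T.l 204) (T.l 204)) (T.a (T.c (T.l 204) (T.l 204)) (T.c (T.c (T.l 204) (T.l 204)) (T.c (T.l 204) (T.l 204))))) (T.a (T.a (T.c (T.l 204) (T.c (T.l 204) (T.l 204))) (T.c (T.l 716) (T.c (T.l 204) (T.l 204)))) (T.c (T.a (T.a (T.l 204) (T.b (T.l 204) (T.l 204))) (T.a (T.b (T.l 204) (T.l 716)) (T.c (T.l 204) (T.l 204)))) (T.a (T.a (T.l 204) (T.c (T.l 204) (T.l 204))) (T.a (T.c (T.l 204) (T.l 204)) (T.c (T.l 204) (T.l 204))))))), by decide +kernel⟩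

def B101E_002_1_62_1 :
    ∃ t, chk3 (onCell 0 26843545 0 1073741824 991146299 28908434 (corT true 1 c0B cB101E gB0q1 gB0q1 gB2q0 gB3q0 true false)) t 1 62 1 = true :=
  ⟨(T.b (T.a (T.a (T.c (T.l 204) (T.l 204)) (T.a (T.c (T.l 204) (T.l 204)) (T.c (T.c (T.l 204) (T.l 204)) (T.c (T.l 204) (T.l 204))))) (T.a (T.a (T.c (T.l 204) (T.c (T.l 204) (T.l 204))) (T.c (T.l 204) (T.c (T.l 204) (T.l 204)))) (T.c (T.a (T.c (T.l 204) (T.l 204)) (T.c (T.l 716) (T.l 716))) (T.a (T.a (T.l 204) (T.c (T.l 204) (T.l 204))) (T.c (T.l 716) (T.c (T.l 204) (T.l 204))))))) (T.a (T.a (T.c (T.l 204) (T.l 204)) (T.a (T.c (T.l 204) (T.l 204)) (T.c (T.c (T.l 204) (T.l 204)) (T.c (T.l 204) (T.l 204))))) (T.a (T.a (T.c (T.l 204) (T.c (T.l 204) (T.l 204))) (T.c (T.l 204) (T.c (T.l 204) (T.l 204)))) (T.a (T.c (T.c (T.l 716) (T.l 204)) (T.a (T.l 204) (T.c (T.l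 204) (T.l 204)))) (T.c (T.a (T.l 204) (T.l 716)) (T.c (T.b (T.l 204) (T.l 716)) (T.c (T.l 204) (T.l 204)))))))), by decide +kernel⟩

def B101E_002_1_126_1 :
    ∃ t, chk3 (onCell 0 26843545 0 1073741824 991146299 28908434 (corT true 1 c0B cB101E gB0q1 gB0q1 gB2q0 gB3q0 true false)) t 1 126 1 = true :=
  ⟨(T.b (T.a (T.a (T.c (T.l 204) (T.l 204)) (T.a (T.c (T.l 204) (T.l 204)) (T.c (T.c (T.l 204) (T.l 204)) (T.c (T.l 204) (T.l 204))))) (T.a (T.a (T.c (T.l 204) (T.c (T.l 204) (T.l 204))) (T.c (T.l 204) (T.c (T.l 204) (T.l 204)))) (T.a (T.c (T.c (T.l 204) (T.l 204)) (T.a (T.l 204) (T.c (T.l 204) (T.l 204)))) (T.c (T.c (T.l 716) (T.l 716)) (T.c (T.l 716) (T.c (T.l 204) (T.l 204))))))) (T.a (T.a (T.c (T.l 204) (T.l 204)) (T.a (T.c (T.l 204) (T.l 204)) (T.c (T.c (T.l 204) (T.l 204)) (T.c (T.l 204) (T.l 204))))) (T.a (T.a (T.c (T.l 204)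 (T.c (T.l 204) (T.l 204))) (T.c (T.l 204) (T.c (T.l 204) (T.l 204)))) (T.a (T.c (T.c (T.l 204) (T.l 204)) (T.a (T.l 204) (T.c (T.l 204) (T.l 204)))) (T.c (T.a (T.l 204) (T.l 716)) (T.c (T.l 716) (T.c (T.l 204) (T.l 204)))))))), by decide +kernel⟩

def B101E_002_1_127_1 :
    ∃ t, chk3 (onCell 0 26843545 0 1073741824 991146299 28908434 (corT true 1 c0B cB101E gB0q1 gB0q1 gB2q0 gB3q0 true false)) t 1 127 1 = true :=
  ⟨(T.b (T.a (T.a (T.c (T.l 204) (T.l 204)) (T.a (T.c (T.l 204) (T.l 204)) (T.c (T.c (T.l 204) (T.l 204)) (T.c (T.l 204) (T.l 204))))) (T.a (T.a (T.c (T.l 204) (T.c (T.l 204) (T.l 204))) (T.c (T.l 204) (T.c (T.l 204) (T.l 204)))) (T.a (T.c (T.c (T.l 716) (T.l 204)) (T.c (T.c (T.l 204) (T.l 204)) (T.a (T.l 204) (T.l 204)))) (T.c (T.a (T.l 204) (T.c (T.l 204) (T.l 204))) (T.c (T.b (T.l 716) (T.l 716)) (T.c (T.l 204) (T.l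 204))))))) (T.a (T.a (T.c (T.l 204) (T.l 204)) (T.a (T.c (T.l 204) (T.l 204)) (T.c (T.c (T.l 204) (T.l 204)) (T.c (T.l 204) (T.l 204))))) (T.a (T.a (T.c (T.l 204) (T.c (T.l 204) (T.l 204))) (T.c (T.l 204) (T.c (T.l 204) (T.l 204)))) (T.a (T.c (T.a (T.l 204) (T.l 204)) (T.c (T.a (T.l 204) (T.l 204)) (T.a (T.l 204) (T.l 204)))) (T.c (T.a (T.l 204) (T.c (T.l 204) (T.l 204))) (T.c (T.b (T.l 716) (T.l 748)) (T.a (T.l 204) (T.l 204)))))))), by decide +kernel⟩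

theorem B101E_002_1_63_1 :
    ∃ t, chk3 (onCell 0 26843545 0 1073741824 991146299 28908434 (corT true 1 c0B cB101E gB0q1 gB0q1 gB2q0 gB3q0 true false)) t 1 63 1 = true :=
  ex3_b B101E_002_1_126_1 B101E_002_1_127_1
theorem B101E_002_1_31_1 :
    ∃ t, chk3 (onCell 0 26843545 0 1073741824 991146299 28908434 (corT true 1 c0B cB101E gB0q1 gB0q1 gB2q0 gB3q0 true false)) t 1 31 1 = true :=
  ex3_b B101E_002_1_62_1 B101E_002_1_63_1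
theorem B101E_002_1_15_1 :
    ∃ t, chk3 (onCell 0 26843545 0 1073741824 991146299 28908434 (corT true 1 c0B cB101E gB0q1 gB0q1 gB2q0 gB3q0 true false)) t 1 15 1 = true :=
  ex3_b B101E_002_1_30_1 B101E_002_1_31_1
theorem B101E_002_1_7_1 :
    ∃ t, chk3 (onCell 0 26843545 0 1073741824 991146299 28908434 (corT true 1 c0B cB101E gB0q1 gB0q1 gB2q0 gB3q0 true false)) t 1 7 1 = true :=
  ex3_b B101E_002_1_14_1 B101E_002_1_15_1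
theorem B101E_002_1_3_1 :
    ∃ t, chk3 (onCell 0 26843545 0 1073741824 991146299 28908434 (corT true 1 c0B cB101E gB0q1 gB0q1 gB2q0 gB3q0 true false)) t 1 3 1 = true :=
  ex3_b B101E_002_1_6_1 B101E_002_1_7_1
theorem B101E_002_1_2_1 :
    ∃ t, chk3 (onCell 0 26843545 0 1073741824 991146299 28908434 (corT true 1 c0B cB101E gB0q1 gB0q1 gB2q0 gB3q0 true false)) t 1 2 1 = true :=
  ex3_b B101E_002_1_4_1 B101E_002_1_5_1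
theorem B101E_002 :
    ∃ t, chk3 (onCell 0 26843545 0 1073741824 991146299 28908434 (corT true 1 c0B cB101E gB0q1 gB0q1 gB2q0 gB3q0 true false)) t 1 1 1 = true :=
  ex3_b B101E_002_1_2_1 B101E_002_1_3_1

def B101L_300 :
    ∃ t, chk3 (onCell 0 53687091 0 1073741824 991146299 28908434 (corT true 1 c0B cB101L gB3q1 gB0q1 gB0q0 gB1q0 true true)) t 1 1 1 = true :=
  ⟨(T.b (T.l 1) (T.b (T.l 1) (T.b (T.l 1) (T.b (T.l 1) (T.b (T.b (T.l 1) (T.b (T.l 1) (T.b (T.b (T.l 1) (T.b (T.b (T.l 1) (T.a (T.a (T.l 816) (T.l 816)) (T.a (T.l 0) (T.l 1)))) (T.a (T.a (T.l 816) (T.l 816)) (T.a (T.l 0) (T.l 0))))) (T.b (T.b (T.a (T.a (T.l 816) (T.l 816)) (T.a (T.l 0) (T.l 0))) (T.a (T.a (T.l 816) (T.l 816)) (T.a (T.l 0) (T.l 0)))) (T.b (T.a (T.a (T.l 816) (T.l 816)) (T.a (T.l 0) (T.l 0))) (T.a (T.a (T.l 816) (T.l 816)) (T.a (T.l 0) (T.l 0)))))))) (T.b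 (T.b (T.b (T.b (T.b (T.a (T.a (T.l 816) (T.l 816)) (T.a (T.l 0) (T.l 0))) (T.a (T.a (T.l 816) (T.l 816)) (T.a (T.l 0) (T.l 0)))) (T.b (T.a (T.a (T.l 816) (T.l 816)) (T.a (T.l 0) (T.l 0))) (T.a (T.a (T.l 816) (T.l 816)) (T.a (T.l 0) (T.l 0))))) (T.b (T.b (T.a (T.a (T.l 816) (T.l 816)) (T.a (T.l 0) (T.l 0))) (T.a (T.a (T.l 816) (T.l 816)) (T.a (T.l 0) (T.l 0)))) (T.b (T.a (T.a (T.l 816) (T.l 816)) (T.a (T.l 0) (T.l 0))) (T.a (T.a (T.l 816) (T.l 816)) (T.a (T.l 0) (T.l 0)))))) (T.b (T.b (T.b (T.a (T.a (T.l 816) (T.l 816)) (T.a (T.l 0) (T.l 0))) (T.a (T.a (T.l 816) (T.l 816)) (T.a (T.l 0) (T.l 0)))) (T.a (T.a (T.l 816) (T.l 816)) (T.a (T.l 0) (T.l 0)))) (T.a (T.a (T.l 816) (T.l 816)) (T.a (T.l 0) (T.l 0))))) (T.b (T.a (T.a (T.l 816) (T.l 0)) (T.a (T.l 0) (T.l 0))) (T.a (T.a (T.l 816) (T.l 0)) (T.a (T.l 0) (T.l 0)))))))))), by decide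 +kernel⟩

def B101L_301 :
    ∃ t, chk3 (onCell 0 53687091 0 1073741824 991146299 28908434 (corT true 1 c0B cB101L gB3q1 gB0q1 gB1q0 gB2q0 true true)) t 1 1 1 = true :=
  ⟨(T.l 1), by decide +kernel⟩

def B101L_302 :
    ∃ t, chk3 (onCell 0 53687091 0 1073741824 991146299 28908434 (corT true 1 c0B cB101L gB3q1 gB0q1 gB2q0 gB3q0 true false)) t 1 1 1 = true :=
  ⟨(T.l 1), by decide +kernel⟩

def B101L_400_1_2_1 :
    ∃ t, chk3 (onCell 0 53687091 0 1073741824 991146299 28908434 (corT true 1 c0B cB101L gB4q1 gB0q1 gB0q0 gB1q0 true true)) t 1 2 1 = true :=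
  ⟨(T.l 1), by decide +kernel⟩

def B101L_400_1_6_1 :
    ∃ t, chk3 (onCell 0 53687091 0 1073741824 991146299 28908434 (corT true 1 c0B cB101L gB4q1 gB0q1 gB0q0 gB1q0 true true)) t 1 6 1 = true :=
  ⟨(T.l 1), by decide +kernel⟩

def B101L_400_1_28_1 :
    ∃ t, chk3 (onCell 0 53687091 0 1073741824 991146299 28908434 (corT true 1 c0B cB101L gB4q1 gB0q1 gB0q0 gB1q0 true true)) t 1 28 1 = true :=
  ⟨(T.b (T.b (T.a (T.l 1) (T.a (T.l 1) (T.b (T.l 1) (T.b (T.l 1) (T.a (T.c (T.l 816) (T.l 816)) (T.l 816)))))) (T.a (T.l 816) (T.a (T.c (T.l 816) (T.l 816)) (T.a (T.c (T.l 816) (T.l 816)) (T.l 816))))) (T.b (T.a (T.l 816) (T.a (T.l 816) (T.a (T.l 816) (T.l 816)))) (T.b (T.b (T.b (T.a (T.l 816) (T.a (T.l 816) (T.l 816))) (T.b (T.a (T.l 816) (T.a (T.l 816) (T.l 816))) (T.a (T.a (T.l 816) (T.l 816)) (T.a (T.l 816) (T.l 816))))) (T.b (T.b (T.a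 (T.a (T.l 816) (T.l 816)) (T.a (T.l 816) (T.l 816))) (T.a (T.a (T.l 816) (T.l 816)) (T.a (T.l 816) (T.l 816)))) (T.b (T.a (T.a (T.l 816) (T.l 816)) (T.a (T.l 816) (T.l 816))) (T.a (T.a (T.l 816) (T.l 816)) (T.a (T.l 816) (T.l 816)))))) (T.b (T.b (T.b (T.a (T.a (T.l 816) (T.l 816)) (T.a (T.l 816) (T.l 816))) (T.a (T.a (T.l 816) (T.l 816)) (T.a (T.l 816) (T.l 816)))) (T.b (T.a (T.a (T.l 816) (T.l 816)) (T.a (T.l 816) (T.l 816))) (T.a (T.a (T.l 816) (T.l 816)) (T.a (T.l 816) (T.l 816))))) (T.b (T.b (T.a (T.a (T.l 816) (T.l 816)) (T.a (T.l 816) (T.l 816))) (T.a (T.a (T.l 816) (T.l 816)) (T.a (T.l 816) (T.l 816)))) (T.b (T.a (T.a (T.l 816) (T.l 816)) (T.a (T.l 816) (T.l 816))) (T.a (T.a (T.l 816) (T.l 816)) (T.a (T.l 816) (T.l 816))))))))), by decide +kernel⟩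

def B101L_400_1_116_1 :
    ∃ t, chk3 (onCell 0 53687091 0 1073741824 991146299 28908434 (corT true 1 c0B cB101L gB4q1 gB0q1 gB0q0 gB1q0 true true)) t 1 116 1 = true :=
  ⟨(T.b (T.b (T.b (T.b (T.a (T.a (T.l 816) (T.l 816)) (T.a (T.l 816) (T.l 816))) (T.a (T.a (T.l 816) (T.l 816)) (T.a (T.l 816) (T.l 816)))) (T.b (T.a (T.a (T.l 816) (T.l 816)) (T.a (T.l 816) (T.l 816))) (T.a (T.a (T.l 816) (T.l 816)) (T.a (T.l 816) (T.l 816))))) (T.b (T.b (T.a (T.a (T.l 816) (T.l 816)) (T.a (T.l 816) (T.l 816))) (T.a (T.a (T.l 816) (T.l 816)) (T.a (T.l 816) (T.l 816)))) (T.b (T.a (T.a (T.l 816) (T.l 816)) (T.a (T.l 816) (T.l 816))) (T.a (T.a (T.l 816) (T.l 816)) (T.a (T.l 816) (T.l 816)))))) (T.b (T.b (T.b (T.a (T.a (T.l 816) (T.l 816)) (T.a (T.l 816) (T.l 816))) (T.a (T.a (T.l 816) (T.l 816)) (T.a (T.l 816) (T.l 816)))) (T.b (T.a (T.a (T.l 816)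 (T.l 816)) (T.a (T.l 816) (T.l 816))) (T.a (T.a (T.l 816) (T.l 816)) (T.a (T.l 816) (T.l 816))))) (T.b (T.b (T.a (T.a (T.l 816) (T.l 816)) (T.a (T.l 816) (T.l 816))) (T.a (T.a (T.l 816) (T.l 816)) (T.a (T.l 816) (T.l 0)))) (T.b (T.a (T.a (T.l 816) (T.l 816)) (T.a (T.l 816) (T.l 0))) (T.a (T.a (T.l 816) (T.l 816)) (T.a (T.l 816) (T.l 0))))))), by decide +kernel⟩

def B101L_400_1_117_1 :
    ∃ t, chk3 (onCell 0 53687091 0 1073741824 991146299 28908434 (corT true 1 c0B cB101L gB4q1 gB0q1 gB0q0 gB1q0 true true)) t 1 117 1 = true :=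
  ⟨(T.b (T.b (T.b (T.b (T.a (T.a (T.l 816) (T.l 816)) (T.a (T.l 816) (T.l 0))) (T.a (T.a (T.l 816) (T.l 816)) (T.a (T.l 816) (T.l 0)))) (T.b (T.a (T.a (T.l 816) (T.l 816)) (T.a (T.l 816) (T.l 0))) (T.a (T.a (T.l 816) (T.l 816)) (T.a (T.l 816) (T.l 0))))) (T.b (T.b (T.a (T.a (T.l 816) (T.l 816)) (T.a (T.l 816) (T.l 0))) (T.a (T.a (T.l 816) (T.l 816)) (T.a (T.l 816) (T.l 0)))) (T.b (T.a (T.a (T.l 816) (T.l 816)) (T.a (T.l 816) (T.l 0))) (T.a (T.a (T.l 816) (T.l 816)) (T.a (T.l 816) (T.l 0)))))) (T.b (T.b (T.b (T.a (T.a (T.l 816) (T.l 816)) (T.a (T.l 816) (T.l 0))) (T.a (T.a (T.l 816) (T.l 816)) (T.a (T.l 816) (T.l 0)))) (T.b (T.a (T.a (T.l 816) (T.l 816)) (T.a (T.l 816) (T.l 0))) (T.a (T.a (T.l 816) (T.l 816)) (T.a (T.l 816) (T.l 0))))) (T.b (T.b (T.a (T.a (T.l 816) (T.l 816)) (T.a (T.l 816) (T.l 0))) (T.a (T.a (T.l 816) (T.l 816))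 (T.a (T.l 816) (T.l 0)))) (T.b (T.a (T.a (T.l 816) (T.l 816)) (T.a (T.l 816) (T.l 0))) (T.a (T.a (T.l 816) (T.l 816)) (T.a (T.l 816) (T.l 0))))))), by decide +kernel⟩

def B101L_400_1_59_1 :
    ∃ t, chk3 (onCell 0 53687091 0 1073741824 991146299 28908434 (corT true 1 c0B cB101L gB4q1 gB0q1 gB0q0 gB1q0 true true)) t 1 59 1 = true :=
  ⟨(T.b (T.b (T.b (T.b (T.b (T.a (T.a (T.l 816) (T.l 816)) (T.a (T.l 816) (T.l 0))) (T.a (T.a (T.l 816) (T.l 0)) (T.a (T.l 816) (T.l 0)))) (T.b (T.a (T.a (T.l 816) (T.l 0)) (T.a (T.l 816) (T.l 0))) (T.a (T.a (T.l 816) (T.l 0)) (T.a (T.l 816) (T.l 0))))) (T.b (T.a (T.a (T.l 816) (T.l 0)) (T.a (T.l 816) (T.l 0))) (T.a (T.a (T.l 816) (T.l 0)) (T.a (T.l 816) (T.l 0))))) (T.b (T.a (T.a (T.l 816) (T.l 0)) (T.a (T.l 816) (T.l 0))) (T.a (T.a (T.l 816) (T.l 0)) (T.a (T.l 816) (T.l 0))))) (T.b (T.a (T.a (T.l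 816) (T.l 0)) (T.a (T.l 816) (T.l 0))) (T.a (T.a (T.l 816) (T.l 0)) (T.a (T.l 816) (T.l 0))))), by decide +kernel⟩

def B101L_400_1_15_1 :
    ∃ t, chk3 (onCell 0 53687091 0 1073741824 991146299 28908434 (corT true 1 c0B cB101L gB4q1 gB0q1 gB0q0 gB1q0 true true)) t 1 15 1 = true :=
  ⟨(T.b (T.b (T.b (T.a (T.a (T.l 816) (T.l 0)) (T.a (T.l 0) (T.l 0))) (T.a (T.a (T.l 816) (T.l 0)) (T.a (T.l 0) (T.l 0)))) (T.b (T.a (T.a (T.l 816) (T.l 0)) (T.a (T.l 0) (T.l 0))) (T.a (T.a (T.l 816) (T.l 0)) (T.a (T.l 0) (T.l 0))))) (T.b (T.b (T.a (T.a (T.l 816) (T.l 0)) (T.a (T.l 0) (T.l 0))) (T.a (T.a (T.l 816) (T.l 0)) (T.a (T.l 0) (T.l 0)))) (T.b (T.a (T.a (T.l 816) (T.l 0)) (T.a (T.l 0) (T.l 0))) (T.a (T.a (T.l 816) (T.l 0)) (T.a (T.l 0) (T.l 0)))))), by decide +kernel⟩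

theorem B101L_400_1_58_1 :
    ∃ t, chk3 (onCell 0 53687091 0 1073741824 991146299 28908434 (corT true 1 c0B cB101L gB4q1 gB0q1 gB0q0 gB1q0 true true)) t 1 58 1 = true :=
  ex3_b B101L_400_1_116_1 B101L_400_1_117_1
theorem B101L_400_1_29_1 :
    ∃ t, chk3 (onCell 0 53687091 0 1073741824 991146299 28908434 (corT true 1 c0B cB101L gB4q1 gB0q1 gB0q0 gB1q0 true true)) t 1 29 1 = true :=
  ex3_b B101L_400_1_58_1 B101L_400_1_59_1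
theorem B101L_400_1_14_1 :
    ∃ t, chk3 (onCell 0 53687091 0 1073741824 991146299 28908434 (corT true 1 c0B cB101L gB4q1 gB0q1 gB0q0 gB1q0 true true)) t 1 14 1 = true :=
  ex3_b B101L_400_1_28_1 B101L_400_1_29_1
theorem B101L_400_1_7_1 :
    ∃ t, chk3 (onCell 0 53687091 0 1073741824 991146299 28908434 (corT true 1 c0B cB101L gB4q1 gB0q1 gB0q0 gB1q0 true true)) t 1 7 1 = true :=
  ex3_b B101L_400_1_14_1 B101L_400_1_15_1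
theorem B101L_400_1_3_1 :
    ∃ t, chk3 (onCell 0 53687091 0 1073741824 991146299 28908434 (corT true 1 c0B cB101L gB4q1 gB0q1 gB0q0 gB1q0 true true)) t 1 3 1 = true :=
  ex3_b B101L_400_1_6_1 B101L_400_1_7_1
theorem B101L_400 :
    ∃ t, chk3 (onCell 0 53687091 0 1073741824 991146299 28908434 (corT true 1 c0B cB101L gB4q1 gB0q1 gB0q0 gB1q0 true true)) t 1 1 1 = true :=
  ex3_b B101L_400_1_2_1 B101L_400_1_3_1

def B101L_401 :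
    ∃ t, chk3 (onCell 0 53687091 0 1073741824 991146299 28908434 (corT true 1 c0B cB101L gB4q1 gB0q1 gB1q0 gB2q0 true true)) t 1 1 1 = true :=
  ⟨(T.b (T.l 1) (T.b (T.l 1) (T.b (T.l 1) (T.a (T.l 1) (T.a (T.l 1) (T.l 0)))))), by decide +kernel⟩

def B101L_402 :
    ∃ t, chk3 (onCell 0 53687091 0 1073741824 991146299 28908434 (corT true 1 c0B cB101L gB4q1 gB0q1 gB2q0 gB3q0 true false)) t 1 1 1 = true :=
  ⟨(T.l 1), by decide +kernel⟩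

def B101L_500 :
    ∃ t, chk3 (onCell 0 26843545 0 1073741824 991146299 28908434 (corX 1 c0B cB101L tB101L gB5q1 gB0q1 gB0q0 gB1q0 gB0q0 true true)) t 1 1 1 = true :=
  ⟨(T.b (T.l 1) (T.b (T.b (T.l 1) (T.l 207)) (T.a (T.l 207) (T.b (T.l 3) (T.l 3))))), by decide +kernel⟩

def B101L_501 :
    ∃ t, chk3 (onCell 0 26843545 0 1073741824 991146299 28908434 (corT true 1 c0B cB101L gB5q1 gB0q1 gB1q0 gB2q0 true true)) t 1 1 1 = true :=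
  ⟨(T.b (T.l 1) (T.b (T.l 1) (T.b (T.l 1) (T.a (T.l 204) (T.a (T.l 204) (T.l 0)))))), by decide +kernel⟩

def B101L_502 :
    ∃ t, chk3 (onCell 0 26843545 0 1073741824 991146299 28908434 (corT true 1 c0B cB101L gB5q1 gB0q1 gB2q0 gB3q0 true false)) t 1 1 1 = true :=
  ⟨(T.l 1), by decide +kernel⟩

def B101R_030 :
    ∃ t, chk3 (onCell 0 53687091 0 1073741824 991146299 28908434 (corT true 1 c0B cB101R gB0q1 gB3q1 gB0q0 gB1q0 true true)) t 1 1 1 = true :=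
  ⟨(T.l 1), by decide +kernel⟩

def B101R_031 :
    ∃ t, chk3 (onCell 0 53687091 0 1073741824 991146299 28908434 (corT true 1 c0B cB101R gB0q1 gB3q1 gB1q0 gB2q0 true true)) t 1 1 1 = true :=
  ⟨(T.l 1), by decide +kernel⟩

def B101R_032 :
    ∃ t, chk3 (onCell 0 53687091 0 1073741824 991146299 28908434 (corT true 1 c0B cB101R gB0q1 gB3q1 gB2q0 gB3q0 true false)) t 1 1 1 = true :=
  ⟨(T.l 1), by decide +kernel⟩

def B101R_040 :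
    ∃ t, chk3 (onCell 0 53687091 0 1073741824 991146299 28908434 (corT true 1 c0B cB101R gB0q1 gB4q1 gB0q0 gB1q0 true true)) t 1 1 1 = true :=
  ⟨(T.l 1), by decide +kernel⟩

def B101R_041 :
    ∃ t, chk3 (onCell 0 53687091 0 1073741824 991146299 28908434 (corT true 1 c0B cB101R gB0q1 gB4q1 gB1q0 gB2q0 true true)) t 1 1 1 = true :=
  ⟨(T.l 1), by decide +kernel⟩

def B101R_042 :
    ∃ t, chk3 (onCell 0 53687091 0 1073741824 991146299 28908434 (corT true 1 c0B cB101R gB0q1 gB4q1 gB2q0 gB3q0 true false)) t 1 1 1 = true :=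
  ⟨(T.l 1), by decide +kernel⟩

def B101R_050 :
    ∃ t, chk3 (onCell 0 53687091 0 1073741824 991146299 28908434 (corT true 1 c0B cB101R gB0q1 gB5q1 gB0q0 gB1q0 true true)) t 1 1 1 = true :=
  ⟨(T.l 1), by decide +kernel⟩

def B101R_051 :
    ∃ t, chk3 (onCell 0 53687091 0 1073741824 991146299 28908434 (corT true 1 c0B cB101R gB0q1 gB5q1 gB1q0 gB2q0 true true)) t 1 1 1 = true :=
  ⟨(T.l 1), by decide +kernel⟩

def B101R_052 :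
    ∃ t, chk3 (onCell 0 53687091 0 1073741824 991146299 28908434 (corT true 1 c0B cB101R gB0q1 gB5q1 gB2q0 gB3q0 true false)) t 1 1 1 = true :=
  ⟨(T.l 1), by decide +kernel⟩

def B102E_000 :
    ∃ t, chk3 (onCell 0 16777216 0 1073741824 991146299 28908434 (corX 1 c0B cB102E tB102E gB0q1 gB0q2 gB0q0 gB1q0 gB0q0 true true)) t 1 1 1 = true :=
  ⟨(T.b (T.b (T.l 1) (T.b (T.l 1) (T.b (T.l 1) (T.b (T.l 1) (T.a (T.b (T.l 1) (T.c (T.l 207) (T.l 207))) (T.l 1)))))) (T.b (T.b (T.b (T.c (T.a (T.b (T.l 207) (T.l 207)) (T.l 207)) (T.a (T.a (T.l 207) (T.l 207)) (T.l 751))) (T.c (T.a (T.b (T.l 207) (T.l 207)) (T.b (T.l 207) (T.l 207))) (T.a (T.a (T.l 207) (T.l 207)) (T.b (T.l 207) (T.l 207))))) (T.b (T.b (T.b (T.b (T.b (T.c (T.a (T.l 207) (T.l 207)) (T.a (T.l 207) (T.l 207))) (T.l 2)) (T.l 2)) (T.l 2)) (T.l 2)) (T.l 2))) (T.l 2))), by decide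 +kernel⟩

def B102E_001_1_2_1 :
    ∃ t, chk3 (onCell 0 16777216 0 1073741824 991146299 28908434 (corT true 1 c0B cB102E gB0q1 gB0q2 gB1q0 gB2q0 true true)) t 1 2 1 = true :=
  ⟨(T.l 1), by decide +kernel⟩

def B102E_001_1_6_1 :
    ∃ t, chk3 (onCell 0 16777216 0 1073741824 991146299 28908434 (corT true 1 c0B cB102E gB0q1 gB0q2 gB1q0 gB2q0 true true)) t 1 6 1 = true :=
  ⟨(T.b (T.b (T.l 1) (T.b (T.l 1) (T.a (T.b (T.l 1) (T.a (T.b (T.l 1) (T.a (T.b (T.l 1) (T.c (T.l 204) (T.l 204))) (T.l 1))) (T.l 1))) (T.l 1)))) (T.a (T.c (T.b (T.b (T.b (T.l 204) (T.l 204)) (T.l 204)) (T.b (T.l 204) (T.l 0))) (T.b (T.c (T.b (T.l 204) (T.l 204)) (T.b (T.l 204) (T.l 204))) (T.b (T.l 0) (T.l 0)))) (T.a (T.c (T.b (T.b (T.l 716) (T.l 204)) (T.l 0)) (T.b (T.c (T.l 204) (T.l 204)) (T.l 0))) (T.b (T.a (T.c (T.b (T.l 204) (T.l 204)) (T.b (T.l 748) (T.l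 204))) (T.c (T.a (T.b (T.l 204) (T.l 204)) (T.b (T.b (T.l 204) (T.l 204)) (T.b (T.l 204) (T.l 204)))) (T.a (T.b (T.l 716) (T.l 204)) (T.b (T.b (T.l 204) (T.l 204)) (T.l 716))))) (T.a (T.c (T.b (T.l 204) (T.b (T.l 204) (T.l 0))) (T.b (T.l 0) (T.c (T.l 0) (T.l 0)))) (T.c (T.b (T.c (T.l 716) (T.l 204)) (T.b (T.l 0) (T.l 0))) (T.b (T.b (T.l 0) (T.l 0)) (T.b (T.l 0) (T.l 0))))))))), by decide +kernel⟩

def B102E_001_1_28_1 :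
    ∃ t, chk3 (onCell 0 16777216 0 1073741824 991146299 28908434 (corT true 1 c0B cB102E gB0q1 gB0q2 gB1q0 gB2q0 true true)) t 1 28 1 = true :=
  ⟨(T.a (T.c (T.l 0) (T.b (T.l 0) (T.l 944))) (T.a (T.c (T.l 0) (T.b (T.l 0) (T.l 816))) (T.a (T.c (T.a (T.b (T.l 0) (T.l 0)) (T.b (T.l 0) (T.l 0))) (T.a (T.c (T.l 816) (T.l 944)) (T.c (T.l 816) (T.l 944)))) (T.c (T.b (T.b (T.l 0) (T.l 0)) (T.b (T.l 0) (T.l 0))) (T.b (T.b (T.l 944) (T.l 944)) (T.c (T.l 816) (T.l 944))))))), by decide +kernel⟩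

def B102E_001_1_232_1 :
    ∃ t, chk3 (onCell 0 16777216 0 1073741824 991146299 28908434 (corT true 1 c0B cB102E gB0q1 gB0q2 gB1q0 gB2q0 true true)) t 1 232 1 = true :=
  ⟨(T.a (T.c (T.l 0) (T.l 816)) (T.a (T.c (T.l 0) (T.l 816)) (T.c (T.a (T.l 0) (T.l 0)) (T.a (T.c (T.l 816) (T.l 816)) (T.c (T.l 816) (T.l 816)))))), by decide +kernel⟩

def B102E_001_1_1864_1 :
    ∃ t, chk3 (onCell 0 16777216 0 1073741824 991146299 28908434 (corT true 1 c0B cB102E gB0q1 gB0q2 gB1q0 gB2q0 true true)) t 1 1864 1 = true :=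
  ⟨(T.b (T.a (T.c (T.l 0) (T.l 816)) (T.b (T.a (T.c (T.l 0) (T.l 816)) (T.b (T.c (T.a (T.l 0) (T.l 0)) (T.a (T.c (T.l 816) (T.l 816)) (T.l 944))) (T.c (T.a (T.l 0) (T.l 0)) (T.a (T.c (T.l 816) (T.l 816)) (T.l 944))))) (T.a (T.c (T.l 0) (T.l 816)) (T.b (T.c (T.a (T.l 0) (T.l 0)) (T.a (T.c (T.l 816) (T.l 816)) (T.l 944))) (T.c (T.a (T.l 0) (T.l 0)) (T.a (T.c (T.l 816) (T.l 816)) (T.l 944))))))) (T.a (T.c (T.l 0) (T.l 816)) (T.b (T.a (T.c (T.l 0) (T.l 816)) (T.b (T.c (T.a (T.l 0) (T.l 0)) (T.a (T.c (T.l 816) (T.l 816)) (T.l 944))) (T.c (T.a (T.l 0) (T.l 0)) (T.a (T.c (T.l 816) (T.l 816)) (T.l 944))))) (T.a (T.c (T.l 0) (T.l 816)) (T.b (T.c (T.a (T.l 0) (T.l 0)) (T.a (T.c (T.l 816) (T.l 816)) (T.l 944))) (T.c (T.a (T.l 0) (T.l 0)) (T.a (T.c (T.l 816) (T.l 816)) (T.l 944)))))))), by decide +kernel⟩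

def B102E_001_1_1865_1 :
    ∃ t, chk3 (onCell 0 16777216 0 1073741824 991146299 28908434 (corT true 1 c0B cB102E gB0q1 gB0q2 gB1q0 gB2q0 true true)) t 1 1865 1 = true :=
  ⟨(T.b (T.a (T.c (T.l 0) (T.l 816)) (T.b (T.a (T.c (T.l 0) (T.l 816)) (T.b (T.c (T.a (T.l 0) (T.l 0)) (T.a (T.c (T.l 816) (T.l 816)) (T.l 944))) (T.c (T.a (T.l 0) (T.l 0)) (T.a (T.c (T.l 816) (T.l 816)) (T.l 944))))) (T.a (T.c (T.l 0) (T.l 816)) (T.b (T.c (T.a (T.l 0) (T.l 0)) (T.a (T.c (T.l 816) (T.l 816)) (T.l 944))) (T.c (T.a (T.l 0) (T.l 0)) (T.a (T.c (T.l 816) (T.l 816)) (T.l 944))))))) (T.a (T.c (T.l 0) (T.l 816)) (T.b (T.a (T.c (T.l 0) (T.l 816)) (T.b (T.c (T.a (T.l 0) (T.l 0)) (T.a (T.c (T.l 816) (T.l 816)) (T.l 944))) (T.c (T.a (T.l 0) (T.l 0)) (T.a (T.c (T.l 816) (T.l 816)) (T.l 944))))) (T.a (T.c (T.l 0) (T.l 816)) (T.b (T.c (T.a (T.l 0) (T.l 0))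 (T.a (T.c (T.l 816) (T.l 816)) (T.l 944))) (T.c (T.a (T.l 0) (T.l 0)) (T.a (T.c (T.l 816) (T.l 816)) (T.l 944)))))))), by decide +kernel⟩

def B102E_001_1_1866_1 :
    ∃ t, chk3 (onCell 0 16777216 0 1073741824 991146299 28908434 (corT true 1 c0B cB102E gB0q1 gB0q2 gB1q0 gB2q0 true true)) t 1 1866 1 = true :=
  ⟨(T.b (T.a (T.c (T.l 0) (T.l 816)) (T.b (T.a (T.c (T.l 0) (T.l 816)) (T.b (T.c (T.a (T.l 0) (T.l 0)) (T.a (T.c (T.l 816) (T.l 816)) (T.l 944))) (T.c (T.a (T.l 0) (T.l 816)) (T.a (T.c (T.l 816) (T.l 816)) (T.l 944))))) (T.a (T.c (T.l 0) (T.l 816)) (T.b (T.c (T.a (T.l 0) (T.l 816)) (T.a (T.c (T.l 816) (T.l 816)) (T.l 944))) (T.c (T.a (T.l 0) (T.l 816)) (T.a (T.c (T.l 816) (T.l 816)) (T.l 944))))))) (T.a (T.c (T.l 0) (T.l 816)) (T.b (T.a (T.c (T.l 0) (T.l 816)) (T.b (T.c (T.a (T.l 0) (T.l 816)) (T.a (T.c (T.l 816) (T.l 816))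 (T.l 944))) (T.c (T.a (T.l 0) (T.l 816)) (T.a (T.c (T.l 816) (T.l 816)) (T.l 944))))) (T.a (T.c (T.l 0) (T.l 816)) (T.b (T.c (T.a (T.l 0) (T.l 816)) (T.a (T.c (T.l 816) (T.l 816)) (T.l 944))) (T.c (T.a (T.l 0) (T.l 816)) (T.a (T.c (T.l 816) (T.l 816)) (T.l 944)))))))), by decide +kernel⟩

def B102E_001_1_1867_1 :
    ∃ t, chk3 (onCell 0 16777216 0 1073741824 991146299 28908434 (corT true 1 c0B cB102E gB0q1 gB0q2 gB1q0 gB2q0 true true)) t 1 1867 1 = true :=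
  ⟨(T.b (T.a (T.c (T.l 0) (T.l 816)) (T.b (T.a (T.c (T.l 0) (T.l 816)) (T.b (T.c (T.a (T.l 0) (T.l 816)) (T.a (T.c (T.l 816) (T.l 816)) (T.l 944))) (T.c (T.a (T.l 0) (T.l 816)) (T.a (T.c (T.l 816) (T.l 816)) (T.l 944))))) (T.a (T.c (T.l 0) (T.l 816)) (T.b (T.c (T.a (T.l 0) (T.l 816)) (T.a (T.c (T.l 816) (T.l 816)) (T.l 944))) (T.c (T.a (T.l 0) (T.l 816)) (T.a (T.c (T.l 816) (T.l 816)) (T.l 944))))))) (T.a (T.c (T.l 0) (T.l 816)) (T.b (T.a (T.c (T.l 0) (T.l 816)) (T.b (T.c (T.a (T.l 0) (T.l 816)) (T.a (T.c (T.l 816) (T.l 816)) (T.l 944))) (T.c (T.a (T.l 0) (T.l 816)) (T.a (T.c (T.l 816) (T.l 816)) (T.l 944))))) (T.a (T.c (T.l 0) (T.l 816)) (T.b (T.c (T.a (T.l 0) (T.l 816)) (T.a (T.c (T.l 816) (T.l 816)) (T.l 944))) (T.c (T.a (T.l 0) (T.l 816)) (T.a (T.c (T.l 816) (T.l 816)) (T.l 944)))))))), by decide +kernel⟩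

def B102E_001_1_467_1 :
    ∃ t, chk3 (onCell 0 16777216 0 1073741824 991146299 28908434 (corT true 1 c0B cB102E gB0q1 gB0q2 gB1q0 gB2q0 true true)) t 1 467 1 = true :=
  ⟨(T.b (T.b (T.b (T.a (T.c (T.l 0) (T.l 816)) (T.b (T.a (T.c (T.l 0) (T.l 816)) (T.b (T.c (T.a (T.l 0) (T.l 816)) (T.a (T.c (T.l 816) (T.l 816)) (T.l 944))) (T.c (T.a (T.l 0) (T.l 816)) (T.a (T.c (T.l 816) (T.l 816)) (T.l 944))))) (T.a (T.c (T.l 0) (T.l 816)) (T.b (T.c (T.a (T.l 0) (T.l 816)) (T.a (T.c (T.l 816) (T.l 816)) (T.l 944))) (T.c (T.a (T.l 0) (T.l 816)) (T.a (T.c (T.l 816) (T.l 816)) (T.l 944))))))) (T.a (T.c (T.l 0) (T.l 816)) (T.b (T.a (T.c (T.l 0) (T.l 816)) (T.b (T.c (T.a (T.l 0) (T.l 816)) (T.a (T.c (T.l 816) (T.l 816)) (T.l 944))) (T.c (T.a (T.l 0) (T.l 816)) (T.a (T.c (T.l 816) (T.l 816)) (T.l 944))))) (T.a (T.c (T.l 0) (T.l 816)) (T.b (T.c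 (T.a (T.l 0) (T.l 816)) (T.a (T.c (T.l 816) (T.l 816)) (T.l 944))) (T.c (T.a (T.l 0) (T.l 816)) (T.a (T.c (T.l 816) (T.l 816)) (T.l 944)))))))) (T.a (T.l 2) (T.b (T.b (T.a (T.c (T.l 0) (T.l 816)) (T.b (T.c (T.a (T.l 0) (T.l 816)) (T.a (T.c (T.l 816) (T.l 816)) (T.l 944))) (T.a (T.l 2) (T.c (T.l 816) (T.l 944))))) (T.l 2)) (T.l 2)))) (T.l 2)), by decide +kernel⟩

def B102E_001_1_117_1 :
    ∃ t, chk3 (onCell 0 16777216 0 1073741824 991146299 28908434 (corT true 1 c0B cB102E gB0q1 gB0q2 gB1q0 gB2q0 true true)) t 1 117 1 = true :=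
  ⟨(T.l 2), by decide +kernel⟩

def B102E_001_1_59_1 :
    ∃ t, chk3 (onCell 0 16777216 0 1073741824 991146299 28908434 (corT true 1 c0B cB102E gB0q1 gB0q2 gB1q0 gB2q0 true true)) t 1 59 1 = true :=
  ⟨(T.l 2), by decide +kernel⟩

def B102E_001_1_15_1 :
    ∃ t, chk3 (onCell 0 16777216 0 1073741824 991146299 28908434 (corT true 1 c0B cB102E gB0q1 gB0q2 gB1q0 gB2q0 true true)) t 1 15 1 = true :=
  ⟨(T.l 2), by decide +kernel⟩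

theorem B102E_001_1_933_1 :
    ∃ t, chk3 (onCell 0 16777216 0 1073741824 991146299 28908434 (corT true 1 c0B cB102E gB0q1 gB0q2 gB1q0 gB2q0 true true)) t 1 933 1 = true :=
  ex3_b B102E_001_1_1866_1 B102E_001_1_1867_1
theorem B102E_001_1_932_1 :
    ∃ t, chk3 (onCell 0 16777216 0 1073741824 991146299 28908434 (corT true 1 c0B cB102E gB0q1 gB0q2 gB1q0 gB2q0 true true)) t 1 932 1 = true :=
  ex3_b B102E_001_1_1864_1 B102E_001_1_1865_1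
theorem B102E_001_1_466_1 :
    ∃ t, chk3 (onCell 0 16777216 0 1073741824 991146299 28908434 (corT true 1 c0B cB102E gB0q1 gB0q2 gB1q0 gB2q0 true true)) t 1 466 1 = true :=
  ex3_b B102E_001_1_932_1 B102E_001_1_933_1
theorem B102E_001_1_233_1 :
    ∃ t, chk3 (onCell 0 16777216 0 1073741824 991146299 28908434 (corT true 1 c0B cB102E gB0q1 gB0q2 gB1q0 gB2q0 true true)) t 1 233 1 = true :=
  ex3_b B102E_001_1_466_1 B102E_001_1_467_1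
theorem B102E_001_1_116_1 :
    ∃ t, chk3 (onCell 0 16777216 0 1073741824 991146299 28908434 (corT true 1 c0B cB102E gB0q1 gB0q2 gB1q0 gB2q0 true true)) t 1 116 1 = true :=
  ex3_b B102E_001_1_232_1 B102E_001_1_233_1
theorem B102E_001_1_58_1 :
    ∃ t, chk3 (onCell 0 16777216 0 1073741824 991146299 28908434 (corT true 1 c0B cB102E gB0q1 gB0q2 gB1q0 gB2q0 true true)) t 1 58 1 = true :=
  ex3_b B102E_001_1_116_1 B102E_001_1_117_1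
theorem B102E_001_1_29_1 :
    ∃ t, chk3 (onCell 0 16777216 0 1073741824 991146299 28908434 (corT true 1 c0B cB102E gB0q1 gB0q2 gB1q0 gB2q0 true true)) t 1 29 1 = true :=
  ex3_b B102E_001_1_58_1 B102E_001_1_59_1
theorem B102E_001_1_14_1 :
    ∃ t, chk3 (onCell 0 16777216 0 1073741824 991146299 28908434 (corT true 1 c0B cB102E gB0q1 gB0q2 gB1q0 gB2q0 true true)) t 1 14 1 = true :=
  ex3_b B102E_001_1_28_1 B102E_001_1_29_1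
theorem B102E_001_1_7_1 :
    ∃ t, chk3 (onCell 0 16777216 0 1073741824 991146299 28908434 (corT true 1 c0B cB102E gB0q1 gB0q2 gB1q0 gB2q0 true true)) t 1 7 1 = true :=
  ex3_b B102E_001_1_14_1 B102E_001_1_15_1
theorem B102E_001_1_3_1 :
    ∃ t, chk3 (onCell 0 16777216 0 1073741824 991146299 28908434 (corT true 1 c0B cB102E gB0q1 gB0q2 gB1q0 gB2q0 true true)) t 1 3 1 = true :=
  ex3_b B102E_001_1_6_1 B102E_001_1_7_1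
theorem B102E_001 :
    ∃ t, chk3 (onCell 0 16777216 0 1073741824 991146299 28908434 (corT true 1 c0B cB102E gB0q1 gB0q2 gB1q0 gB2q0 true true)) t 1 1 1 = true :=
  ex3_b B102E_001_1_2_1 B102E_001_1_3_1

def B102E_002_1_2_1 :
    ∃ t, chk3 (onCell 0 16777216 0 1073741824 991146299 28908434 (corT true 1 c0B cB102E gB0q1 gB0q2 gB2q0 gB3q0 true false)) t 1 2 1 = true :=
  ⟨(T.l 1), by decide +kernel⟩

def B102E_002_1_6_1 :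
    ∃ t, chk3 (onCell 0 16777216 0 1073741824 991146299 28908434 (corT true 1 c0B cB102E gB0q1 gB0q2 gB2q0 gB3q0 true false)) t 1 6 1 = true :=
  ⟨(T.l 1), by decide +kernel⟩

def B102E_002_2_7_1 :
    ∃ t, chk3 (onCell 0 16777216 0 1073741824 991146299 28908434 (corT true 1 c0B cB102E gB0q1 gB0q2 gB2q0 gB3q0 true false)) t 2 7 1 = true :=
  ⟨(T.c (T.b (T.b (T.l 1) (T.c (T.l 0) (T.l 0))) (T.b (T.l 0) (T.l 204))) (T.b (T.b (T.l 1) (T.c (T.l 0) (T.b (T.l 816) (T.l 816)))) (T.b (T.l 0) (T.l 0)))), by decide +kernel⟩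

def B102E_002_3_28_1 :
    ∃ t, chk3 (onCell 0 16777216 0 1073741824 991146299 28908434 (corT true 1 c0B cB102E gB0q1 gB0q2 gB2q0 gB3q0 true false)) t 3 28 1 = true :=
  ⟨(T.l 1), by decide +kernel⟩

def B102E_002_3_232_1 :
    ∃ t, chk3 (onCell 0 16777216 0 1073741824 991146299 28908434 (corT true 1 c0B cB102E gB0q1 gB0q2 gB2q0 gB3q0 true false)) t 3 232 1 = true :=
  ⟨(T.l 1), by decide +kernel⟩

def B102E_002_3_466_1 :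
    ∃ t, chk3 (onCell 0 16777216 0 1073741824 991146299 28908434 (corT true 1 c0B cB102E gB0q1 gB0q2 gB2q0 gB3q0 true false)) t 3 466 1 = true :=
  ⟨(T.l 1), by decide +kernel⟩

def B102E_002_3_934_1 :
    ∃ t, chk3 (onCell 0 16777216 0 1073741824 991146299 28908434 (corT true 1 c0B cB102E gB0q1 gB0q2 gB2q0 gB3q0 true false)) t 3 934 1 = true :=
  ⟨(T.b (T.a (T.c (T.l 0) (T.l 816)) (T.l 1)) (T.b (T.b (T.a (T.c (T.l 0) (T.l 816)) (T.b (T.c (T.a (T.l 0) (T.l 816)) (T.a (T.c (T.l 816) (T.l 816)) (T.l 944))) (T.c (T.a (T.l 0) (T.l 816)) (T.a (T.c (T.l 816) (T.l 816)) (T.l 944))))) (T.a (T.c (T.l 0) (T.l 816)) (T.b (T.c (T.a (T.l 0) (T.l 816)) (T.a (T.c (T.l 816) (T.l 816)) (T.l 944))) (T.c (T.a (T.l 0) (T.l 816)) (T.a (T.c (T.l 816) (T.l 816)) (T.l 944)))))) (T.b (T.a (T.c (T.l 0) (T.l 816)) (T.b (T.c (T.a (T.l 0) (T.l 816)) (T.a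 (T.c (T.l 816) (T.l 816)) (T.l 944))) (T.c (T.a (T.l 0) (T.l 816)) (T.a (T.c (T.l 816) (T.l 816)) (T.l 944))))) (T.a (T.c (T.l 0) (T.l 816)) (T.b (T.c (T.a (T.l 0) (T.l 816)) (T.a (T.c (T.l 816) (T.l 816)) (T.l 944))) (T.c (T.a (T.l 0) (T.l 0)) (T.a (T.c (T.l 816) (T.l 816)) (T.l 944)))))))), by decide +kernel⟩

def B102E_002_3_935_1 :
    ∃ t, chk3 (onCell 0 16777216 0 1073741824 991146299 28908434 (corT true 1 c0B cB102E gB0q1 gB0q2 gB2q0 gB3q0 true false)) t 3 935 1 = true :=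
  ⟨(T.b (T.b (T.b (T.a (T.c (T.l 0) (T.l 816)) (T.b (T.c (T.a (T.l 0) (T.l 0)) (T.a (T.c (T.l 816) (T.l 816)) (T.l 944))) (T.c (T.a (T.l 0) (T.l 0)) (T.a (T.c (T.l 816) (T.l 816)) (T.l 944))))) (T.a (T.c (T.l 0) (T.l 816)) (T.b (T.c (T.a (T.l 0) (T.l 0)) (T.a (T.c (T.l 816) (T.l 816)) (T.l 944))) (T.c (T.a (T.l 0) (T.l 0)) (T.a (T.c (T.l 816) (T.l 816)) (T.l 944)))))) (T.b (T.a (T.c (T.l 0) (T.l 816)) (T.b (T.c (T.a (T.l 0) (T.l 0)) (T.a (T.c (T.l 816) (T.l 816)) (T.l 944))) (T.c (T.a (T.l 0) (T.l 0)) (T.a (T.c (T.l 816) (T.l 816)) (T.l 944))))) (T.a (T.c (T.l 0) (T.l 816)) (T.b (T.c (T.a (T.l 0) (T.l 0)) (T.a (T.c (T.l 816) (T.l 816)) (T.l 944))) (T.c (T.a (T.l 0) (T.l 0)) (T.a (T.c (T.l 816) (T.l 816)) (T.l 944))))))) (T.b (T.b (T.a (T.c (T.l 0) (T.l 816)) (T.b (T.c (T.a (T.l 0) (T.l 0)) (T.a (T.c (T.l 816) (T.l 816)) (T.l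 944))) (T.c (T.a (T.l 0) (T.l 0)) (T.a (T.c (T.l 816) (T.l 816)) (T.l 944))))) (T.a (T.c (T.l 0) (T.l 816)) (T.b (T.c (T.a (T.l 0) (T.l 0)) (T.a (T.c (T.l 816) (T.l 816)) (T.l 944))) (T.c (T.a (T.l 0) (T.l 0)) (T.a (T.c (T.l 816) (T.l 816)) (T.l 944)))))) (T.b (T.a (T.c (T.l 0) (T.l 816)) (T.b (T.c (T.a (T.l 0) (T.l 0)) (T.a (T.c (T.l 816) (T.l 816)) (T.l 944))) (T.a (T.c (T.l 0) (T.c (T.l 816) (T.l 816))) (T.c (T.l 0) (T.l 944))))) (T.a (T.c (T.l 0) (T.l 816)) (T.b (T.a (T.c (T.l 0) (T.c (T.l 816) (T.l 816))) (T.c (T.l 0) (T.l 944))) (T.a (T.c (T.l 0) (T.c (T.l 816) (T.l 816))) (T.c (T.l 0) (T.l 944)))))))), by decide +kernel⟩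

def B102E_002_3_117_1 :
    ∃ t, chk3 (onCell 0 16777216 0 1073741824 991146299 28908434 (corT true 1 c0B cB102E gB0q1 gB0q2 gB2q0 gB3q0 true false)) t 3 117 1 = true :=
  ⟨(T.a (T.c (T.l 0) (T.l 816)) (T.c (T.a (T.l 128) (T.l 0)) (T.a (T.c (T.l 816) (T.l 816)) (T.c (T.l 816) (T.l 816))))), by decide +kernel⟩

def B102E_002_3_59_1 :
    ∃ t, chk3 (onCell 0 16777216 0 1073741824 991146299 28908434 (corT true 1 c0B cB102E gB0q1 gB0q2 gB2q0 gB3q0 true false)) t 3 59 1 = true :=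
  ⟨(T.a (T.a (T.c (T.l 0) (T.l 0)) (T.c (T.b (T.l 0) (T.l 0)) (T.a (T.l 0) (T.l 0)))) (T.c (T.a (T.l 0) (T.l 0)) (T.a (T.c (T.l 0) (T.l 816)) (T.b (T.l 944) (T.l 0))))), by decide +kernel⟩

def B102E_002_3_15_1 :
    ∃ t, chk3 (onCell 0 16777216 0 1073741824 991146299 28908434 (corT true 1 c0B cB102E gB0q1 gB0q2 gB2q0 gB3q0 true false)) t 3 15 1 = true :=
  ⟨(T.a (T.a (T.c (T.l 204) (T.l 0)) (T.c (T.b (T.a (T.l 204) (T.l 204)) (T.b (T.l 204) (T.l 204))) (T.b (T.a (T.l 0) (T.l 0)) (T.c (T.l 204) (T.l 204))))) (T.a (T.c (T.b (T.b (T.l 204) (T.l 204)) (T.b (T.l 204) (T.l 204))) (T.b (T.b (T.l 0) (T.l 0)) (T.c (T.l 204) (T.l 204)))) (T.c (T.b (T.b (T.l 204) (T.l 204)) (T.b (T.l 204) (T.l 204))) (T.b (T.b (T.l 0) (T.l 204)) (T.c (T.l 204) (T.l 204)))))), by decide +kernel⟩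

theorem B102E_002_3_467_1 :
    ∃ t, chk3 (onCell 0 16777216 0 1073741824 991146299 28908434 (corT true 1 c0B cB102E gB0q1 gB0q2 gB2q0 gB3q0 true false)) t 3 467 1 = true :=
  ex3_b B102E_002_3_934_1 B102E_002_3_935_1
theorem B102E_002_3_233_1 :
    ∃ t, chk3 (onCell 0 16777216 0 1073741824 991146299 28908434 (corT true 1 c0B cB102E gB0q1 gB0q2 gB2q0 gB3q0 true false)) t 3 233 1 = true :=
  ex3_b B102E_002_3_466_1 B102E_002_3_467_1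
theorem B102E_002_3_116_1 :
    ∃ t, chk3 (onCell 0 16777216 0 1073741824 991146299 28908434 (corT true 1 c0B cB102E gB0q1 gB0q2 gB2q0 gB3q0 true false)) t 3 116 1 = true :=
  ex3_b B102E_002_3_232_1 B102E_002_3_233_1
theorem B102E_002_3_58_1 :
    ∃ t, chk3 (onCell 0 16777216 0 1073741824 991146299 28908434 (corT true 1 c0B cB102E gB0q1 gB0q2 gB2q0 gB3q0 true false)) t 3 58 1 = true :=
  ex3_b B102E_002_3_116_1 B102E_002_3_117_1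
theorem B102E_002_3_29_1 :
    ∃ t, chk3 (onCell 0 16777216 0 1073741824 991146299 28908434 (corT true 1 c0B cB102E gB0q1 gB0q2 gB2q0 gB3q0 true false)) t 3 29 1 = true :=
  ex3_b B102E_002_3_58_1 B102E_002_3_59_1
theorem B102E_002_3_14_1 :
    ∃ t, chk3 (onCell 0 16777216 0 1073741824 991146299 28908434 (corT true 1 c0B cB102E gB0q1 gB0q2 gB2q0 gB3q0 true false)) t 3 14 1 = true :=
  ex3_b B102E_002_3_28_1 B102E_002_3_29_1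
theorem B102E_002_3_7_1 :
    ∃ t, chk3 (onCell 0 16777216 0 1073741824 991146299 28908434 (corT true 1 c0B cB102E gB0q1 gB0q2 gB2q0 gB3q0 true false)) t 3 7 1 = true :=
  ex3_b B102E_002_3_14_1 B102E_002_3_15_1
theorem B102E_002_1_7_1 :
    ∃ t, chk3 (onCell 0 16777216 0 1073741824 991146299 28908434 (corT true 1 c0B cB102E gB0q1 gB0q2 gB2q0 gB3q0 true false)) t 1 7 1 = true :=
  ex3_a B102E_002_2_7_1 B102E_002_3_7_1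
theorem B102E_002_1_3_1 :
    ∃ t, chk3 (onCell 0 16777216 0 1073741824 991146299 28908434 (corT true 1 c0B cB102E gB0q1 gB0q2 gB2q0 gB3q0 true false)) t 1 3 1 = true :=
  ex3_b B102E_002_1_6_1 B102E_002_1_7_1
theorem B102E_002 :
    ∃ t, chk3 (onCell 0 16777216 0 1073741824 991146299 28908434 (corT true 1 c0B cB102E gB0q1 gB0q2 gB2q0 gB3q0 true false)) t 1 1 1 = true :=
  ex3_b B102E_002_1_2_1 B102E_002_1_3_1

def B102E_010 :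
    ∃ t, chk3 (onCell 0 26843545 0 1073741824 991146299 28908434 (corT true 1 c0B cB102E gB0q1 gB1q2 gB0q0 gB1q0 true true)) t 1 1 1 = true :=
  ⟨(T.b (T.b (T.l 1) (T.b (T.l 1) (T.b (T.b (T.l 1) (T.b (T.l 1) (T.a (T.b (T.a (T.b (T.l 1) (T.b (T.l 1) (T.a (T.c (T.c (T.l 816) (T.l 816)) (T.b (T.b (T.l 1) (T.l 816)) (T.l 816))) (T.l 1)))) (T.l 1)) (T.b (T.c (T.c (T.l 816) (T.a (T.l 816) (T.l 816))) (T.c (T.l 820) (T.l 816))) (T.l 816))) (T.b (T.l 1) (T.a (T.b (T.b (T.l 1) (T.c (T.l 816) (T.l 816))) (T.l 816)) (T.b (T.l 1) (T.a (T.l 816) (T.b (T.l 1) (T.c (T.l 816) (T.l 816)))))))))) (T.a (T.b (T.l 0) (T.l 0)) (T.a (T.b (T.l 0) (T.l 0)) (T.b (T.a (T.b (T.l 0) (T.l 0)) (T.b (T.c (T.l 0) (T.l 816)) (T.l 0))) (T.l 0))))))) (T.b (T.b (T.a (T.l 0) (T.b (T.a (T.b (T.l 0) (T.l 0)) (T.b (T.l 0) (T.l 0))) (T.b (T.a (T.l 0) (T.l 0)) (T.l 2))))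 (T.l 2)) (T.l 2))), by decide +kernel⟩

def B102E_011_1_2_1 :
    ∃ t, chk3 (onCell 0 26843545 0 1073741824 991146299 28908434 (corT true 1 c0B cB102E gB0q1 gB1q2 gB1q0 gB2q0 true true)) t 1 2 1 = true :=
  ⟨(T.l 1), by decide +kernel⟩

def B102E_011_1_6_1 :
    ∃ t, chk3 (onCell 0 26843545 0 1073741824 991146299 28908434 (corT true 1 c0B cB102E gB0q1 gB1q2 gB1q0 gB2q0 true true)) t 1 6 1 = true :=
  ⟨(T.a (T.c (T.l 0) (T.l 0)) (T.b (T.b (T.l 1) (T.a (T.a (T.l 0) (T.l 0)) (T.a (T.l 0) (T.l 0)))) (T.a (T.a (T.b (T.l 0) (T.b (T.l 0) (T.l 0))) (T.b (T.l 0) (T.b (T.l 0) (T.l 0)))) (T.a (T.b (T.b (T.l 0) (T.l 0)) (T.c (T.l 0) (T.l 0))) (T.b (T.l 0) (T.b (T.l 0) (T.l 8))))))), by decide +kernel⟩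

def B102E_011_1_56_1 :
    ∃ t, chk3 (onCell 0 26843545 0 1073741824 991146299 28908434 (corT true 1 c0B cB102E gB0q1 gB1q2 gB1q0 gB2q0 true true)) t 1 56 1 = true :=
  ⟨(T.a (T.l 0) (T.a (T.a (T.b (T.l 0) (T.l 128)) (T.l 136)) (T.a (T.c (T.l 0) (T.l 0)) (T.b (T.l 0) (T.l 136))))), by decide +kernel⟩

def B102E_011_2_114_1 :
    ∃ t, chk3 (onCell 0 26843545 0 1073741824 991146299 28908434 (corT true 1 c0B cB102E gB0q1 gB1q2 gB1q0 gB2q0 true true)) t 2 114 1 = true :=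
  ⟨(T.l 0), by decide +kernel⟩

def B102E_011_3_228_1 :
    ∃ t, chk3 (onCell 0 26843545 0 1073741824 991146299 28908434 (corT true 1 c0B cB102E gB0q1 gB1q2 gB1q0 gB2q0 true true)) t 3 228 1 = true :=
  ⟨(T.b (T.a (T.a (T.l 816) (T.l 816)) (T.a (T.c (T.l 0) (T.l 816)) (T.l 8))) (T.b (T.a (T.a (T.l 816) (T.l 816)) (T.a (T.c (T.l 0) (T.l 816)) (T.l 8))) (T.b (T.b (T.a (T.a (T.l 816) (T.l 816)) (T.a (T.c (T.l 0) (T.l 816)) (T.l 8))) (T.a (T.a (T.l 816) (T.l 816)) (T.a (T.c (T.l 0) (T.l 816)) (T.l 8)))) (T.b (T.a (T.a (T.l 816) (T.l 816)) (T.a (T.c (T.l 0) (T.l 816)) (T.l 8))) (T.a (T.a (T.l 816) (T.l 816)) (T.a (T.c (T.l 0) (T.l 816)) (T.l 8))))))), by decide +kernel⟩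

def B102E_011_3_229_1 :
    ∃ t, chk3 (onCell 0 26843545 0 1073741824 991146299 28908434 (corT true 1 c0B cB102E gB0q1 gB1q2 gB1q0 gB2q0 true true)) t 3 229 1 = true :=
  ⟨(T.b (T.b (T.b (T.b (T.a (T.a (T.l 816) (T.l 816)) (T.a (T.c (T.l 0) (T.l 816)) (T.l 8))) (T.a (T.a (T.l 816) (T.l 816)) (T.a (T.c (T.l 0) (T.l 816)) (T.l 8)))) (T.b (T.a (T.a (T.l 816) (T.l 816)) (T.a (T.c (T.l 0) (T.l 816)) (T.l 8))) (T.a (T.a (T.l 816) (T.l 816)) (T.a (T.c (T.l 0) (T.l 816)) (T.l 8))))) (T.b (T.b (T.a (T.a (T.l 816) (T.l 816)) (T.a (T.c (T.l 0) (T.l 816)) (T.l 8))) (T.a (T.a (T.l 816) (T.l 816)) (T.a (T.c (T.l 0) (T.l 816)) (T.l 8)))) (T.b (T.a (T.a (T.l 816) (T.l 816)) (T.a (T.c (T.l 0) (T.l 816)) (T.l 8))) (T.a (T.a (T.l 816) (T.l 816)) (T.a (T.c (T.l 0) (T.l 816)) (T.l 8)))))) (T.b (T.b (T.b (T.a (T.a (T.l 816) (T.l 816)) (T.a (T.c (T.l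 0) (T.l 816)) (T.l 8))) (T.a (T.a (T.l 816) (T.l 816)) (T.a (T.c (T.l 0) (T.l 816)) (T.l 8)))) (T.b (T.a (T.a (T.l 816) (T.l 816)) (T.a (T.c (T.l 0) (T.l 816)) (T.l 8))) (T.a (T.a (T.l 816) (T.l 816)) (T.a (T.c (T.l 0) (T.l 816)) (T.l 8))))) (T.b (T.b (T.a (T.a (T.l 816) (T.l 816)) (T.a (T.c (T.l 0) (T.l 816)) (T.l 8))) (T.a (T.a (T.l 816) (T.l 816)) (T.a (T.c (T.l 0) (T.l 816)) (T.l 8)))) (T.b (T.a (T.a (T.l 816) (T.l 816)) (T.a (T.c (T.l 0) (T.l 816)) (T.l 8))) (T.a (T.a (T.l 816) (T.l 816)) (T.a (T.c (T.l 0) (T.l 816)) (T.l 8))))))), by decide +kernel⟩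

def B102E_011_1_115_1 :
    ∃ t, chk3 (onCell 0 26843545 0 1073741824 991146299 28908434 (corT true 1 c0B cB102E gB0q1 gB1q2 gB1q0 gB2q0 true true)) t 1 115 1 = true :=
  ⟨(T.b (T.a (T.l 0) (T.b (T.b (T.b (T.b (T.a (T.a (T.l 816) (T.l 816)) (T.a (T.c (T.l 0) (T.l 816)) (T.l 136))) (T.a (T.a (T.l 816) (T.l 816)) (T.a (T.c (T.l 0) (T.l 816)) (T.l 136)))) (T.b (T.a (T.a (T.l 816) (T.l 816)) (T.a (T.c (T.l 0) (T.l 816)) (T.l 136))) (T.a (T.a (T.l 816) (T.l 816)) (T.a (T.c (T.l 0) (T.l 816)) (T.l 136))))) (T.b (T.b (T.a (T.a (T.l 816) (T.l 816)) (T.a (T.c (T.l 0) (T.l 816)) (T.l 136))) (T.a (T.a (T.l 944) (T.l 816)) (T.a (T.c (T.l 0) (T.l 816)) (T.l 136)))) (T.a (T.l 2) (T.l 2)))) (T.l 2))) (T.l 2)), by decide +kernel⟩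

def B102E_011_1_29_1 :
    ∃ t, chk3 (onCell 0 26843545 0 1073741824 991146299 28908434 (corT true 1 c0B cB102E gB0q1 gB1q2 gB1q0 gB2q0 true true)) t 1 29 1 = true :=
  ⟨(T.l 2), by decide +kernel⟩

def B102E_011_1_15_1 :
    ∃ t, chk3 (onCell 0 26843545 0 1073741824 991146299 28908434 (corT true 1 c0B cB102E gB0q1 gB1q2 gB1q0 gB2q0 true true)) t 1 15 1 = true :=
  ⟨(T.l 2), by decide +kernel⟩

theorem B102E_011_3_114_1 :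
    ∃ t, chk3 (onCell 0 26843545 0 1073741824 991146299 28908434 (corT true 1 c0B cB102E gB0q1 gB1q2 gB1q0 gB2q0 true true)) t 3 114 1 = true :=
  ex3_b B102E_011_3_228_1 B102E_011_3_229_1
theorem B102E_011_1_114_1 :
    ∃ t, chk3 (onCell 0 26843545 0 1073741824 991146299 28908434 (corT true 1 c0B cB102E gB0q1 gB1q2 gB1q0 gB2q0 true true)) t 1 114 1 = true :=
  ex3_a B102E_011_2_114_1 B102E_011_3_114_1
theorem B102E_011_1_57_1 :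
    ∃ t, chk3 (onCell 0 26843545 0 1073741824 991146299 28908434 (corT true 1 c0B cB102E gB0q1 gB1q2 gB1q0 gB2q0 true true)) t 1 57 1 = true :=
  ex3_b B102E_011_1_114_1 B102E_011_1_115_1
theorem B102E_011_1_28_1 :
    ∃ t, chk3 (onCell 0 26843545 0 1073741824 991146299 28908434 (corT true 1 c0B cB102E gB0q1 gB1q2 gB1q0 gB2q0 true true)) t 1 28 1 = true :=
  ex3_b B102E_011_1_56_1 B102E_011_1_57_1
theorem B102E_011_1_14_1 :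
    ∃ t, chk3 (onCell 0 26843545 0 1073741824 991146299 28908434 (corT true 1 c0B cB102E gB0q1 gB1q2 gB1q0 gB2q0 true true)) t 1 14 1 = true :=
  ex3_b B102E_011_1_28_1 B102E_011_1_29_1
theorem B102E_011_1_7_1 :
    ∃ t, chk3 (onCell 0 26843545 0 1073741824 991146299 28908434 (corT true 1 c0B cB102E gB0q1 gB1q2 gB1q0 gB2q0 true true)) t 1 7 1 = true :=
  ex3_b B102E_011_1_14_1 B102E_011_1_15_1
theorem B102E_011_1_3_1 :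
    ∃ t, chk3 (onCell 0 26843545 0 1073741824 991146299 28908434 (corT true 1 c0B cB102E gB0q1 gB1q2 gB1q0 gB2q0 true true)) t 1 3 1 = true :=
  ex3_b B102E_011_1_6_1 B102E_011_1_7_1
theorem B102E_011 :
    ∃ t, chk3 (onCell 0 26843545 0 1073741824 991146299 28908434 (corT true 1 c0B cB102E gB0q1 gB1q2 gB1q0 gB2q0 true true)) t 1 1 1 = true :=
  ex3_b B102E_011_1_2_1 B102E_011_1_3_1

def B102E_012_1_2_1 :
    ∃ t, chk3 (onCell 0 26843545 0 1073741824 991146299 28908434 (corT true 1 c0B cB102E gB0q1 gB1q2 gB2q0 gB3q0 true false)) t 1 2 1 = true :=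
  ⟨(T.l 1), by decide +kernel⟩

def B102E_012_1_6_1 :
    ∃ t, chk3 (onCell 0 26843545 0 1073741824 991146299 28908434 (corT true 1 c0B cB102E gB0q1 gB1q2 gB2q0 gB3q0 true false)) t 1 6 1 = true :=
  ⟨(T.l 1), by decide +kernel⟩

def B102E_012_1_56_1 :
    ∃ t, chk3 (onCell 0 26843545 0 1073741824 991146299 28908434 (corT true 1 c0B cB102E gB0q1 gB1q2 gB2q0 gB3q0 true false)) t 1 56 1 = true :=
  ⟨(T.l 1), by decide +kernel⟩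

def B102E_012_1_114_1 :
    ∃ t, chk3 (onCell 0 26843545 0 1073741824 991146299 28908434 (corT true 1 c0B cB102E gB0q1 gB1q2 gB2q0 gB3q0 true false)) t 1 114 1 = true :=
  ⟨(T.l 1), by decide +kernel⟩

def B102E_012_1_230_1 :
    ∃ t, chk3 (onCell 0 26843545 0 1073741824 991146299 28908434 (corT true 1 c0B cB102E gB0q1 gB1q2 gB2q0 gB3q0 true false)) t 1 230 1 = true :=
  ⟨(T.a (T.l 0) (T.b (T.b (T.l 1) (T.b (T.b (T.l 1) (T.a (T.a (T.l 816) (T.l 816)) (T.a (T.c (T.l 0) (T.l 816)) (T.l 0)))) (T.b (T.a (T.a (T.l 816) (T.l 816)) (T.a (T.c (T.l 0) (T.l 816)) (T.l 0))) (T.a (T.a (T.l 816) (T.l 816)) (T.a (T.c (T.l 0) (T.l 816)) (T.l 0)))))) (T.b (T.b (T.b (T.a (T.a (T.l 816) (T.l 816)) (T.a (T.c (T.l 0) (T.l 816)) (T.l 0))) (T.a (T.a (T.l 816) (T.l 816)) (T.a (T.c (T.l 0) (T.l 816)) (T.l 0)))) (T.b (T.a (T.a (T.l 816) (T.l 816)) (T.a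 (T.c (T.l 0) (T.l 816)) (T.l 0))) (T.a (T.a (T.l 816) (T.l 816)) (T.a (T.c (T.l 0) (T.l 816)) (T.l 0))))) (T.b (T.b (T.a (T.a (T.l 816) (T.l 816)) (T.a (T.c (T.l 0) (T.l 816)) (T.l 0))) (T.a (T.a (T.l 816) (T.l 816)) (T.a (T.c (T.l 0) (T.l 816)) (T.l 0)))) (T.b (T.b (T.a (T.a (T.l 816) (T.l 816)) (T.a (T.c (T.l 0) (T.l 816)) (T.l 0))) (T.a (T.a (T.l 816) (T.l 816)) (T.a (T.c (T.l 0) (T.l 816)) (T.l 0)))) (T.b (T.a (T.a (T.l 816) (T.l 816)) (T.a (T.c (T.l 0) (T.l 816)) (T.l 0))) (T.a (T.a (T.l 816) (T.l 816)) (T.a (T.c (T.l 0) (T.l 816)) (T.l 0))))))))), by decide +kernel⟩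

def B102E_012_1_462_1 :
    ∃ t, chk3 (onCell 0 26843545 0 1073741824 991146299 28908434 (corT true 1 c0B cB102E gB0q1 gB1q2 gB2q0 gB3q0 true false)) t 1 462 1 = true :=
  ⟨(T.b (T.b (T.a (T.l 0) (T.b (T.b (T.a (T.a (T.l 816) (T.l 816)) (T.a (T.c (T.l 0) (T.l 816)) (T.l 0))) (T.a (T.a (T.l 816) (T.l 816)) (T.a (T.c (T.l 0) (T.l 816)) (T.l 0)))) (T.b (T.a (T.a (T.l 816) (T.l 816)) (T.a (T.c (T.l 0) (T.l 816)) (T.l 0))) (T.a (T.a (T.l 0) (T.l 816)) (T.a (T.c (T.l 0) (T.l 816)) (T.l 0)))))) (T.a (T.a (T.l 0) (T.l 0)) (T.b (T.b (T.a (T.a (T.l 0) (T.l 816)) (T.a (T.c (T.l 0) (T.l 816)) (T.l 0))) (T.a (T.a (T.l 0) (T.l 816)) (T.a (T.c (T.l 0) (T.l 816)) (T.l 0)))) (T.b (T.a (T.a (T.l 0) (T.l 816)) (T.a (T.c (T.l 0) (T.l 816)) (T.l 0))) (T.a (T.a (T.l 0) (T.l 816)) (T.a (T.c (T.l 0) (T.l 816)) (T.l 0))))))) (T.b (T.a (T.a (T.l 0) (T.a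 (T.l 0) (T.l 0))) (T.b (T.b (T.a (T.a (T.l 0) (T.l 816)) (T.a (T.c (T.l 0) (T.l 816)) (T.l 0))) (T.a (T.a (T.l 0) (T.l 0)) (T.a (T.c (T.l 0) (T.l 816)) (T.l 0)))) (T.b (T.a (T.a (T.l 0) (T.l 0)) (T.a (T.c (T.l 0) (T.l 816)) (T.l 0))) (T.a (T.a (T.l 0) (T.l 0)) (T.a (T.c (T.l 0) (T.l 816)) (T.l 0)))))) (T.a (T.a (T.l 0) (T.a (T.l 0) (T.c (T.l 0) (T.l 816)))) (T.b (T.b (T.a (T.a (T.l 0) (T.l 0)) (T.a (T.c (T.l 0) (T.l 816)) (T.l 0))) (T.a (T.a (T.l 0) (T.l 0)) (T.a (T.c (T.l 0) (T.l 816)) (T.l 0)))) (T.b (T.a (T.a (T.l 0) (T.l 0)) (T.a (T.c (T.l 0) (T.l 816)) (T.l 0))) (T.a (T.a (T.l 0) (T.l 0)) (T.a (T.c (T.l 0) (T.l 816)) (T.l 0)))))))), by decide +kernel⟩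

def B102E_012_1_463_1 :
    ∃ t, chk3 (onCell 0 26843545 0 1073741824 991146299 28908434 (corT true 1 c0B cB102E gB0q1 gB1q2 gB2q0 gB3q0 true false)) t 1 463 1 = true :=
  ⟨(T.b (T.b (T.a (T.a (T.l 0) (T.a (T.l 0) (T.c (T.l 0) (T.l 816)))) (T.b (T.b (T.a (T.a (T.l 0) (T.l 0)) (T.a (T.c (T.l 0) (T.l 816)) (T.l 0))) (T.a (T.a (T.l 0) (T.l 0)) (T.a (T.c (T.l 0) (T.l 816)) (T.l 0)))) (T.b (T.a (T.a (T.l 0) (T.l 0)) (T.a (T.c (T.l 0) (T.l 816)) (T.l 0))) (T.a (T.a (T.l 0) (T.l 0)) (T.a (T.c (T.l 0) (T.l 816)) (T.l 0)))))) (T.a (T.a (T.l 0) (T.a (T.l 0) (T.c (T.l 0) (T.l 816)))) (T.b (T.b (T.a (T.a (T.l 0) (T.l 0)) (T.a (T.c (T.l 0) (T.l 816)) (T.l 0))) (T.a (T.a (T.l 0) (T.l 0)) (T.a (T.c (T.l 0) (T.l 816)) (T.l 0)))) (T.b (T.a (T.a (T.l 0) (T.l 0)) (T.a (T.c (T.l 0) (T.l 816)) (T.l 0))) (T.a (T.a (T.l 0) (T.l 0)) (T.a (T.c (T.l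 0) (T.l 816)) (T.l 0))))))) (T.b (T.a (T.a (T.l 0) (T.a (T.l 0) (T.c (T.l 0) (T.l 816)))) (T.b (T.b (T.a (T.a (T.l 0) (T.l 0)) (T.a (T.c (T.l 0) (T.l 816)) (T.l 0))) (T.a (T.a (T.l 0) (T.l 0)) (T.a (T.c (T.l 0) (T.l 816)) (T.l 0)))) (T.b (T.a (T.a (T.l 0) (T.l 0)) (T.a (T.c (T.l 0) (T.l 816)) (T.l 0))) (T.a (T.a (T.l 0) (T.l 0)) (T.a (T.c (T.l 0) (T.l 816)) (T.l 0)))))) (T.a (T.a (T.l 0) (T.a (T.l 0) (T.c (T.l 0) (T.l 816)))) (T.b (T.b (T.a (T.a (T.l 0) (T.l 0)) (T.a (T.c (T.l 0) (T.l 816)) (T.l 0))) (T.a (T.a (T.l 0) (T.l 0)) (T.a (T.c (T.l 0) (T.l 816)) (T.l 0)))) (T.a (T.a (T.l 0) (T.l 0)) (T.a (T.c (T.l 0) (T.l 816)) (T.l 0))))))), by decide +kernel⟩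

def B102E_012_1_232_1 :
    ∃ t, chk3 (onCell 0 26843545 0 1073741824 991146299 28908434 (corT true 1 c0B cB102E gB0q1 gB1q2 gB2q0 gB3q0 true false)) t 1 232 1 = true :=
  ⟨(T.b (T.b (T.b (T.a (T.a (T.l 0) (T.a (T.l 0) (T.c (T.l 0) (T.l 816)))) (T.b (T.a (T.a (T.l 0) (T.l 0)) (T.a (T.c (T.l 0) (T.l 816)) (T.l 0))) (T.a (T.a (T.l 0) (T.l 0)) (T.a (T.c (T.l 0) (T.l 816)) (T.l 0))))) (T.a (T.a (T.l 0) (T.a (T.l 0) (T.c (T.l 0) (T.l 816)))) (T.b (T.a (T.a (T.l 0) (T.l 0)) (T.a (T.c (T.l 0) (T.l 816)) (T.l 0))) (T.a (T.a (T.l 0) (T.l 0)) (T.a (T.c (T.l 0) (T.l 816)) (T.l 0)))))) (T.b (T.a (T.a (T.l 0) (T.a (T.l 0) (T.c (T.l 0) (T.l 816)))) (T.a (T.a (T.l 0) (T.l 0)) (T.a (T.c (T.l 0) (T.l 816)) (T.l 0)))) (T.a (T.a (T.l 0) (T.a (T.l 0) (T.c (T.l 0) (T.l 816)))) (T.a (T.a (T.l 0) (T.l 0)) (T.a (T.c (T.l 0) (T.l 816)) (T.l 0))))))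 (T.b (T.b (T.a (T.a (T.l 0) (T.a (T.l 0) (T.c (T.l 0) (T.l 816)))) (T.a (T.a (T.l 0) (T.l 0)) (T.a (T.c (T.l 0) (T.l 816)) (T.l 0)))) (T.a (T.a (T.l 0) (T.a (T.l 0) (T.c (T.l 0) (T.l 816)))) (T.a (T.a (T.l 0) (T.l 0)) (T.a (T.c (T.l 0) (T.l 816)) (T.l 0))))) (T.b (T.a (T.a (T.l 0) (T.a (T.l 0) (T.c (T.l 0) (T.l 816)))) (T.a (T.a (T.l 0) (T.l 0)) (T.a (T.c (T.l 0) (T.l 816)) (T.l 0)))) (T.a (T.a (T.l 0) (T.a (T.l 0) (T.c (T.l 0) (T.l 816)))) (T.a (T.a (T.l 0) (T.l 0)) (T.a (T.c (T.l 0) (T.l 816)) (T.l 0))))))), by decide +kernel⟩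

def B102E_012_1_233_1 :
    ∃ t, chk3 (onCell 0 26843545 0 1073741824 991146299 28908434 (corT true 1 c0B cB102E gB0q1 gB1q2 gB2q0 gB3q0 true false)) t 1 233 1 = true :=
  ⟨(T.b (T.b (T.b (T.a (T.a (T.l 0) (T.a (T.l 0) (T.c (T.l 0) (T.l 816)))) (T.a (T.a (T.l 0) (T.l 0)) (T.a (T.c (T.l 0) (T.l 816)) (T.l 0)))) (T.a (T.a (T.l 0) (T.a (T.l 0) (T.c (T.l 0) (T.l 816)))) (T.a (T.a (T.l 0) (T.l 0)) (T.a (T.c (T.l 0) (T.l 816)) (T.l 0))))) (T.b (T.a (T.a (T.l 0) (T.a (T.l 0) (T.c (T.l 0) (T.l 816)))) (T.a (T.a (T.l 0) (T.l 0)) (T.a (T.c (T.l 0) (T.l 816)) (T.l 0)))) (T.a (T.a (T.l 0) (T.a (T.l 0) (T.c (T.l 0) (T.l 816)))) (T.a (T.a (T.l 0) (T.l 0)) (T.a (T.c (T.l 0) (T.l 816)) (T.l 0)))))) (T.b (T.b (T.a (T.a (T.l 0) (T.a (T.l 0) (T.c (T.l 0) (T.l 816)))) (T.a (T.a (T.l 0) (T.l 0)) (T.a (T.c (T.l 0) (T.l 0)) (T.l 0)))) (T.a (T.a (T.l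 0) (T.a (T.l 0) (T.c (T.l 0) (T.l 816)))) (T.a (T.a (T.l 0) (T.l 0)) (T.a (T.c (T.l 0) (T.l 0)) (T.l 0))))) (T.a (T.a (T.l 0) (T.a (T.l 0) (T.c (T.l 0) (T.l 816)))) (T.a (T.a (T.l 0) (T.l 0)) (T.a (T.c (T.l 0) (T.l 0)) (T.l 0)))))), by decide +kernel⟩

def B102E_012_1_117_1 :
    ∃ t, chk3 (onCell 0 26843545 0 1073741824 991146299 28908434 (corT true 1 c0B cB102E gB0q1 gB1q2 gB2q0 gB3q0 true false)) t 1 117 1 = true :=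
  ⟨(T.b (T.b (T.b (T.a (T.a (T.l 0) (T.a (T.l 0) (T.c (T.l 0) (T.l 816)))) (T.a (T.a (T.l 0) (T.l 0)) (T.a (T.c (T.l 0) (T.l 0)) (T.l 0)))) (T.a (T.a (T.l 0) (T.a (T.l 0) (T.c (T.l 0) (T.l 816)))) (T.a (T.a (T.l 0) (T.l 0)) (T.a (T.c (T.l 0) (T.l 0)) (T.l 8))))) (T.b (T.a (T.a (T.l 0) (T.a (T.l 0) (T.c (T.l 0) (T.l 816)))) (T.a (T.a (T.l 0) (T.l 0)) (T.a (T.c (T.l 0) (T.l 0)) (T.l 8)))) (T.a (T.a (T.l 0) (T.a (T.l 0) (T.c (T.l 0) (T.l 816)))) (T.a (T.a (T.l 0) (T.l 0)) (T.a (T.c (T.l 0) (T.l 0)) (T.l 8)))))) (T.b (T.b (T.a (T.a (T.l 0) (T.a (T.l 0) (T.c (T.l 0) (T.l 816)))) (T.a (T.a (T.l 0) (T.l 0)) (T.a (T.c (T.l 0) (T.l 0)) (T.l 8)))) (T.a (T.a (T.l 0) (T.a (T.l 0) (T.c (T.l 0) (T.l 816)))) (T.a (T.a (T.l 0) (T.l 0)) (T.a (T.c (T.l 0) (T.l 0)) (T.l 8))))) (T.b (T.a (T.a (T.l 0) (T.a (T.l 0) (T.c (T.l 0) (T.l 816)))) (T.a (T.a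 (T.l 0) (T.l 0)) (T.a (T.c (T.l 0) (T.l 0)) (T.l 520)))) (T.a (T.a (T.l 0) (T.a (T.l 0) (T.c (T.l 0) (T.l 816)))) (T.a (T.a (T.l 0) (T.l 0)) (T.a (T.c (T.l 0) (T.l 0)) (T.c (T.l 0) (T.l 0)))))))), by decide +kernel⟩

def B102E_012_1_118_1 :
    ∃ t, chk3 (onCell 0 26843545 0 1073741824 991146299 28908434 (corT true 1 c0B cB102E gB0q1 gB1q2 gB2q0 gB3q0 true false)) t 1 118 1 = true :=
  ⟨(T.b (T.b (T.b (T.a (T.a (T.l 0) (T.a (T.l 0) (T.c (T.l 0) (T.l 816)))) (T.a (T.a (T.l 0) (T.l 0)) (T.a (T.c (T.l 0) (T.l 0)) (T.c (T.l 0) (T.l 0))))) (T.a (T.a (T.l 0) (T.a (T.l 0) (T.c (T.l 0) (T.l 816)))) (T.a (T.a (T.l 0) (T.l 0)) (T.a (T.c (T.l 0) (T.l 0)) (T.c (T.l 0) (T.l 0)))))) (T.b (T.a (T.a (T.l 0) (T.a (T.l 0) (T.c (T.l 0) (T.l 816)))) (T.a (T.a (T.l 0) (T.l 0)) (T.a (T.c (T.l 0) (T.l 0)) (T.c (T.l 204) (T.l 0))))) (T.a (T.a (T.l 0)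 (T.a (T.l 0) (T.c (T.l 0) (T.l 816)))) (T.a (T.a (T.l 0) (T.l 0)) (T.a (T.c (T.l 0) (T.l 0)) (T.c (T.l 204) (T.l 0))))))) (T.b (T.b (T.a (T.a (T.l 0) (T.a (T.l 0) (T.c (T.l 0) (T.l 816)))) (T.a (T.a (T.l 512) (T.l 0)) (T.a (T.c (T.l 0) (T.l 0)) (T.c (T.l 204) (T.l 0))))) (T.a (T.a (T.l 0) (T.a (T.l 0) (T.c (T.l 0) (T.l 0)))) (T.a (T.a (T.c (T.l 0) (T.l 0)) (T.l 0)) (T.a (T.c (T.l 0) (T.l 0)) (T.c (T.l 204) (T.l 0)))))) (T.b (T.a (T.a (T.l 0) (T.a (T.l 0) (T.c (T.l 0) (T.l 0)))) (T.a (T.a (T.c (T.l 0) (T.l 0)) (T.l 8)) (T.a (T.c (T.l 0) (T.l 0)) (T.c (T.l 204) (T.l 0))))) (T.a (T.a (T.l 0) (T.a (T.l 0) (T.c (T.l 0) (T.l 0)))) (T.a (T.a (T.c (T.l 204) (T.l 0)) (T.l 8)) (T.a (T.c (T.l 0) (T.l 0)) (T.c (T.l 204) (T.l 0)))))))), by decide +kernel⟩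

def B102E_012_1_119_1 :
    ∃ t, chk3 (onCell 0 26843545 0 1073741824 991146299 28908434 (corT true 1 c0B cB102E gB0q1 gB1q2 gB2q0 gB3q0 true false)) t 1 119 1 = true :=
  ⟨(T.b (T.b (T.b (T.a (T.a (T.l 0) (T.a (T.l 0) (T.c (T.l 204) (T.l 0)))) (T.a (T.a (T.c (T.l 204) (T.l 0)) (T.l 8)) (T.a (T.c (T.l 0) (T.l 0)) (T.c (T.l 204) (T.l 0))))) (T.a (T.a (T.l 0) (T.a (T.l 0) (T.c (T.l 204) (T.l 0)))) (T.a (T.a (T.c (T.l 204) (T.l 0)) (T.l 8)) (T.a (T.c (T.l 0) (T.l 0)) (T.c (T.l 204) (T.l 0)))))) (T.b (T.a (T.a (T.l 0) (T.a (T.l 0) (T.c (T.l 204) (T.l 0)))) (T.a (T.a (T.c (T.l 204) (T.l 0)) (T.l 8)) (T.a (T.c (T.l 0) (T.l 0)) (T.c (T.l 204) (T.l 0))))) (T.a (T.a (T.l 0) (T.a (T.l 0) (T.c (T.l 204) (T.l 0)))) (T.a (T.a (T.c (T.l 204) (T.l 0)) (T.l 520)) (T.a (T.c (T.l 0) (T.l 0)) (T.c (T.l 204) (T.l 0))))))) (T.b (T.b (T.a (T.a (T.l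 0) (T.a (T.l 0) (T.c (T.l 204) (T.l 0)))) (T.a (T.a (T.c (T.l 204) (T.l 0)) (T.c (T.l 204) (T.l 0))) (T.a (T.c (T.l 204) (T.l 0)) (T.c (T.l 204) (T.l 0))))) (T.a (T.a (T.l 0) (T.a (T.l 0) (T.c (T.l 204) (T.l 0)))) (T.a (T.a (T.c (T.l 204) (T.l 0)) (T.c (T.l 204) (T.l 0))) (T.a (T.c (T.l 204) (T.l 0)) (T.c (T.l 204) (T.l 0)))))) (T.b (T.a (T.a (T.l 0) (T.a (T.l 0) (T.c (T.l 204) (T.l 0)))) (T.a (T.a (T.c (T.l 204) (T.l 0)) (T.c (T.l 204) (T.l 0))) (T.a (T.c (T.l 204) (T.l 0)) (T.c (T.l 204) (T.l 0))))) (T.a (T.a (T.l 0) (T.a (T.l 0) (T.c (T.l 204) (T.l 0)))) (T.a (T.a (T.c (T.l 204) (T.l 0)) (T.c (T.l 204) (T.l 0))) (T.a (T.c (T.l 204) (T.l 0)) (T.c (T.l 204) (T.l 0)))))))), by decide +kernel⟩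

def B102E_012_1_60_1 :
    ∃ t, chk3 (onCell 0 26843545 0 1073741824 991146299 28908434 (corT true 1 c0B cB102E gB0q1 gB1q2 gB2q0 gB3q0 true false)) t 1 60 1 = true :=
  ⟨(T.b (T.b (T.b (T.a (T.a (T.l 0) (T.a (T.l 0) (T.c (T.l 204) (T.l 0)))) (T.a (T.a (T.c (T.l 204) (T.l 0)) (T.c (T.l 204) (T.l 0))) (T.a (T.c (T.l 204) (T.l 0)) (T.c (T.l 204) (T.l 0))))) (T.a (T.a (T.l 0) (T.a (T.l 0) (T.c (T.l 204) (T.l 0)))) (T.a (T.a (T.c (T.l 204) (T.l 0)) (T.c (T.l 204) (T.l 0))) (T.a (T.c (T.l 204) (T.l 0)) (T.c (T.l 204) (T.l 0)))))) (T.b (T.a (T.a (T.l 0) (T.a (T.l 0) (T.c (T.l 204) (T.l 0)))) (T.a (T.a (T.c (T.l 204) (T.l 0)) (T.c (T.l 204) (T.l 0))) (T.a (T.c (T.l 204) (T.l 0)) (T.c (T.l 204) (T.l 204))))) (T.a (T.a (T.l 0) (T.a (T.l 0) (T.c (T.l 204) (T.l 0)))) (T.a (T.a (T.c (T.l 204) (T.l 0)) (T.c (T.l 204) (T.l 0))) (T.a (T.c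 (T.l 204) (T.l 0)) (T.c (T.l 204) (T.l 204))))))) (T.b (T.b (T.a (T.a (T.l 0) (T.a (T.l 0) (T.c (T.l 204) (T.l 0)))) (T.a (T.a (T.c (T.l 204) (T.l 0)) (T.c (T.l 204) (T.l 0))) (T.a (T.c (T.l 204) (T.l 0)) (T.c (T.l 204) (T.l 204))))) (T.a (T.a (T.l 0) (T.a (T.l 0) (T.c (T.l 204) (T.l 0)))) (T.a (T.a (T.c (T.l 204) (T.l 0)) (T.c (T.l 204) (T.l 0))) (T.a (T.c (T.l 204) (T.l 0)) (T.c (T.l 204) (T.l 204)))))) (T.b (T.a (T.a (T.l 0) (T.a (T.l 0) (T.c (T.l 204) (T.l 0)))) (T.a (T.a (T.c (T.l 204) (T.l 0)) (T.c (T.l 204) (T.l 0))) (T.a (T.c (T.l 204) (T.l 0)) (T.c (T.l 204) (T.l 204))))) (T.a (T.a (T.l 0) (T.a (T.l 0) (T.c (T.l 204) (T.l 0)))) (T.a (T.a (T.c (T.l 204) (T.l 0)) (T.c (T.l 204) (T.l 0))) (T.a (T.c (T.l 204) (T.l 0)) (T.c (T.l 204) (T.l 204)))))))), by decide +kernel⟩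

def B102E_012_1_61_1 :
    ∃ t, chk3 (onCell 0 26843545 0 1073741824 991146299 28908434 (corT true 1 c0B cB102E gB0q1 gB1q2 gB2q0 gB3q0 true false)) t 1 61 1 = true :=
  ⟨(T.b (T.b (T.b (T.a (T.a (T.l 0) (T.a (T.l 0) (T.c (T.l 204) (T.l 0)))) (T.a (T.a (T.c (T.l 204) (T.l 204)) (T.c (T.l 204) (T.l 204))) (T.a (T.c (T.l 204) (T.l 0)) (T.c (T.l 204) (T.l 204))))) (T.a (T.a (T.l 0) (T.a (T.l 0) (T.c (T.l 204) (T.l 204)))) (T.a (T.a (T.c (T.l 204) (T.l 204)) (T.c (T.l 204) (T.l 204))) (T.a (T.c (T.l 204) (T.l 0)) (T.c (T.l 204) (T.l 204)))))) (T.b (T.a (T.a (T.l 0) (T.a (T.l 0) (T.c (T.l 204) (T.l 204)))) (T.a (T.a (T.c (T.l 204) (T.l 204)) (T.c (T.l 204) (T.l 204))) (T.a (T.c (T.l 204) (T.l 0)) (T.c (T.l 204) (T.l 204))))) (T.a (T.a (T.l 0) (T.a (T.l 204) (T.c (T.l 204) (T.l 204)))) (T.a (T.a (T.c (T.l 204) (T.l 204)) (T.c (T.l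 204) (T.l 204))) (T.a (T.c (T.l 204) (T.l 204)) (T.c (T.l 204) (T.l 204))))))) (T.b (T.b (T.a (T.a (T.l 0) (T.a (T.l 204) (T.c (T.l 204) (T.l 204)))) (T.a (T.a (T.c (T.l 204) (T.l 204)) (T.c (T.l 204) (T.l 204))) (T.a (T.c (T.l 204) (T.l 204)) (T.c (T.l 204) (T.l 204))))) (T.a (T.a (T.l 0) (T.a (T.l 204) (T.c (T.l 204) (T.l 204)))) (T.a (T.a (T.c (T.l 204) (T.l 204)) (T.c (T.l 204) (T.l 204))) (T.a (T.c (T.l 204) (T.l 204)) (T.c (T.l 204) (T.l 204)))))) (T.b (T.a (T.a (T.l 0) (T.a (T.l 204) (T.c (T.l 204) (T.l 204)))) (T.a (T.a (T.c (T.l 204) (T.l 204)) (T.c (T.l 204) (T.l 204))) (T.a (T.c (T.l 204) (T.l 204)) (T.c (T.l 204) (T.l 204))))) (T.a (T.a (T.l 0) (T.a (T.l 204) (T.c (T.l 204) (T.l 204)))) (T.a (T.a (T.c (T.l 204) (T.l 204)) (T.c (T.l 204) (T.l 204))) (T.a (T.c (T.l 204) (T.l 236)) (T.c (T.l 204) (T.l 204)))))))), by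 decide +kernel⟩

def B102E_012_1_124_1 :
    ∃ t, chk3 (onCell 0 26843545 0 1073741824 991146299 28908434 (corT true 1 c0B cB102E gB0q1 gB1q2 gB2q0 gB3q0 true false)) t 1 124 1 = true :=
  ⟨(T.b (T.b (T.a (T.a (T.l 0) (T.a (T.l 204) (T.c (T.l 204) (T.l 204)))) (T.a (T.a (T.c (T.l 204) (T.l 204)) (T.c (T.l 204) (T.l 204))) (T.a (T.c (T.l 204) (T.c (T.l 204) (T.l 204))) (T.c (T.l 204) (T.l 204))))) (T.a (T.a (T.l 204) (T.a (T.c (T.l 204) (T.l 204)) (T.c (T.l 204) (T.l 204)))) (T.a (T.a (T.c (T.l 204) (T.l 204)) (T.c (T.l 204) (T.l 204))) (T.a (T.c (T.l 204) (T.c (T.l 204) (T.l 204))) (T.c (T.l 204) (T.l 204)))))) (T.b (T.a (T.a (T.c (T.l 204) (T.l 204)) (T.a (T.c (T.l 204) (T.l 204)) (T.c (T.l 204) (T.l 204)))) (T.a (T.a (T.c (T.l 204) (T.l 204)) (T.c (T.l 204) (T.l 204))) (T.a (T.c (T.l 204) (T.c (T.l 204) (T.l 204))) (T.c (T.l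 204) (T.l 204))))) (T.a (T.a (T.c (T.l 204) (T.l 204)) (T.a (T.c (T.l 204) (T.l 204)) (T.c (T.l 204) (T.l 204)))) (T.a (T.a (T.c (T.l 204) (T.l 204)) (T.c (T.l 204) (T.l 204))) (T.a (T.c (T.l 204) (T.c (T.l 204) (T.l 204))) (T.c (T.l 204) (T.c (T.l 204) (T.l 204)))))))), by decide +kernel⟩

def B102E_012_1_125_1 :
    ∃ t, chk3 (onCell 0 26843545 0 1073741824 991146299 28908434 (corT true 1 c0B cB102E gB0q1 gB1q2 gB2q0 gB3q0 true false)) t 1 125 1 = true :=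
  ⟨(T.b (T.b (T.a (T.a (T.c (T.l 204) (T.l 204)) (T.a (T.c (T.l 204) (T.l 204)) (T.c (T.l 204) (T.l 204)))) (T.a (T.a (T.c (T.l 204) (T.l 204)) (T.c (T.l 204) (T.l 204))) (T.a (T.c (T.l 204) (T.c (T.l 204) (T.l 204))) (T.c (T.l 204) (T.c (T.l 204) (T.l 204)))))) (T.a (T.a (T.c (T.l 204) (T.l 204)) (T.a (T.c (T.l 204) (T.l 204)) (T.c (T.c (T.l 204) (T.l 204)) (T.l 204)))) (T.a (T.a (T.c (T.l 204) (T.l 204)) (T.c (T.l 204) (T.l 204))) (T.a (T.c (T.l 716) (T.c (T.l 204) (T.l 204))) (T.c (T.l 204) (T.c (T.l 204) (T.l 204))))))) (T.a (T.a (T.c (T.l 204) (T.l 204)) (T.a (T.c (T.l 204) (T.l 204)) (T.c (T.c (T.l 204) (T.l 204)) (T.c (T.l 204) (T.l 204))))) (T.a (T.a (T.c (T.l 204) (T.l 204)) (T.c (T.l 204) (T.l 204))) (T.a (T.c (T.c (T.l 204) (T.l 204)) (T.c (T.l 204) (T.l 204))) (T.c (T.c (T.l 204) (T.l 204)) (T.c (T.l 204) (T.l 204))))))),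 by decide +kernel⟩

def B102E_012_1_63_1 :
    ∃ t, chk3 (onCell 0 26843545 0 1073741824 991146299 28908434 (corT true 1 c0B cB102E gB0q1 gB1q2 gB2q0 gB3q0 true false)) t 1 63 1 = true :=
  ⟨(T.b (T.b (T.a (T.a (T.c (T.l 204) (T.l 204)) (T.a (T.c (T.l 204) (T.l 204)) (T.c (T.c (T.l 204) (T.l 204)) (T.c (T.l 204) (T.l 204))))) (T.a (T.a (T.c (T.l 204) (T.l 204)) (T.c (T.l 204) (T.c (T.l 204) (T.l 204)))) (T.a (T.c (T.c (T.l 204) (T.l 204)) (T.a (T.l 204) (T.l 204))) (T.c (T.c (T.l 204) (T.l 204)) (T.c (T.l 204) (T.l 204)))))) (T.a (T.a (T.c (T.l 204) (T.l 204)) (T.a (T.c (T.l 204) (T.l 204)) (T.c (T.c (T.l 204) (T.l 204)) (T.c (T.l 204) (T.l 204))))) (T.a (T.a (T.c (T.l 204) (T.c (T.l 204) (T.l 204))) (T.c (T.l 204) (T.c (T.l 204) (T.l 204)))) (T.a (T.c (T.c (T.l 204) (T.l 204)) (T.c (T.l 204) (T.c (T.l 204) (T.l 204)))) (T.c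 (T.c (T.l 204) (T.l 204)) (T.c (T.l 204) (T.l 204))))))) (T.b (T.a (T.a (T.c (T.l 204) (T.l 204)) (T.a (T.c (T.l 204) (T.l 204)) (T.c (T.c (T.l 204) (T.l 204)) (T.c (T.l 204) (T.l 204))))) (T.a (T.a (T.c (T.l 204) (T.c (T.l 204) (T.l 204))) (T.c (T.l 716) (T.c (T.l 204) (T.l 204)))) (T.a (T.c (T.c (T.l 204) (T.l 204)) (T.c (T.b (T.l 204) (T.l 204)) (T.a (T.l 204) (T.l 204)))) (T.c (T.c (T.l 204) (T.l 204)) (T.c (T.l 204) (T.c (T.l 204) (T.l 204))))))) (T.a (T.a (T.c (T.l 204) (T.l 204)) (T.a (T.c (T.l 204) (T.l 204)) (T.c (T.a (T.l 204) (T.l 204)) (T.c (T.l 204) (T.l 204))))) (T.a (T.a (T.c (T.c (T.l 204) (T.l 204)) (T.c (T.l 204) (T.l 204))) (T.c (T.c (T.l 204) (T.l 204)) (T.c (T.l 204) (T.l 204)))) (T.a (T.c (T.a (T.l 204) (T.l 204)) (T.c (T.c (T.l 204) (T.l 204)) (T.a (T.l 204) (T.l 204)))) (T.c (T.a (T.l 204) (T.c (T.l 204)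 (T.l 204))) (T.c (T.b (T.l 204) (T.l 204)) (T.c (T.l 204) (T.l 236))))))))), by decide +kernel⟩

theorem B102E_012_1_62_1 :
    ∃ t, chk3 (onCell 0 26843545 0 1073741824 991146299 28908434 (corT true 1 c0B cB102E gB0q1 gB1q2 gB2q0 gB3q0 true false)) t 1 62 1 = true :=
  ex3_b B102E_012_1_124_1 B102E_012_1_125_1
theorem B102E_012_1_31_1 :
    ∃ t, chk3 (onCell 0 26843545 0 1073741824 991146299 28908434 (corT true 1 c0B cB102E gB0q1 gB1q2 gB2q0 gB3q0 true false)) t 1 31 1 = true :=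
  ex3_b B102E_012_1_62_1 B102E_012_1_63_1
theorem B102E_012_1_30_1 :
    ∃ t, chk3 (onCell 0 26843545 0 1073741824 991146299 28908434 (corT true 1 c0B cB102E gB0q1 gB1q2 gB2q0 gB3q0 true false)) t 1 30 1 = true :=
  ex3_b B102E_012_1_60_1 B102E_012_1_61_1
theorem B102E_012_1_15_1 :
    ∃ t, chk3 (onCell 0 26843545 0 1073741824 991146299 28908434 (corT true 1 c0B cB102E gB0q1 gB1q2 gB2q0 gB3q0 true false)) t 1 15 1 = true :=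
  ex3_b B102E_012_1_30_1 B102E_012_1_31_1
theorem B102E_012_1_59_1 :
    ∃ t, chk3 (onCell 0 26843545 0 1073741824 991146299 28908434 (corT true 1 c0B cB102E gB0q1 gB1q2 gB2q0 gB3q0 true false)) t 1 59 1 = true :=
  ex3_b B102E_012_1_118_1 B102E_012_1_119_1
theorem B102E_012_1_116_1 :
    ∃ t, chk3 (onCell 0 26843545 0 1073741824 991146299 28908434 (corT true 1 c0B cB102E gB0q1 gB1q2 gB2q0 gB3q0 true false)) t 1 116 1 = true :=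
  ex3_b B102E_012_1_232_1 B102E_012_1_233_1
theorem B102E_012_1_58_1 :
    ∃ t, chk3 (onCell 0 26843545 0 1073741824 991146299 28908434 (corT true 1 c0B cB102E gB0q1 gB1q2 gB2q0 gB3q0 true false)) t 1 58 1 = true :=
  ex3_b B102E_012_1_116_1 B102E_012_1_117_1
theorem B102E_012_1_29_1 :
    ∃ t, chk3 (onCell 0 26843545 0 1073741824 991146299 28908434 (corT true 1 c0B cB102E gB0q1 gB1q2 gB2q0 gB3q0 true false)) t 1 29 1 = true :=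
  ex3_b B102E_012_1_58_1 B102E_012_1_59_1
theorem B102E_012_1_231_1 :
    ∃ t, chk3 (onCell 0 26843545 0 1073741824 991146299 28908434 (corT true 1 c0B cB102E gB0q1 gB1q2 gB2q0 gB3q0 true false)) t 1 231 1 = true :=
  ex3_b B102E_012_1_462_1 B102E_012_1_463_1
theorem B102E_012_1_115_1 :
    ∃ t, chk3 (onCell 0 26843545 0 1073741824 991146299 28908434 (corT true 1 c0B cB102E gB0q1 gB1q2 gB2q0 gB3q0 true false)) t 1 115 1 = true :=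
  ex3_b B102E_012_1_230_1 B102E_012_1_231_1
theorem B102E_012_1_57_1 :
    ∃ t, chk3 (onCell 0 26843545 0 1073741824 991146299 28908434 (corT true 1 c0B cB102E gB0q1 gB1q2 gB2q0 gB3q0 true false)) t 1 57 1 = true :=
  ex3_b B102E_012_1_114_1 B102E_012_1_115_1
theorem B102E_012_1_28_1 :
    ∃ t, chk3 (onCell 0 26843545 0 1073741824 991146299 28908434 (corT true 1 c0B cB102E gB0q1 gB1q2 gB2q0 gB3q0 true false)) t 1 28 1 = true :=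
  ex3_b B102E_012_1_56_1 B102E_012_1_57_1
theorem B102E_012_1_14_1 :
    ∃ t, chk3 (onCell 0 26843545 0 1073741824 991146299 28908434 (corT true 1 c0B cB102E gB0q1 gB1q2 gB2q0 gB3q0 true false)) t 1 14 1 = true :=
  ex3_b B102E_012_1_28_1 B102E_012_1_29_1
theorem B102E_012_1_7_1 :
    ∃ t, chk3 (onCell 0 26843545 0 1073741824 991146299 28908434 (corT true 1 c0B cB102E gB0q1 gB1q2 gB2q0 gB3q0 true false)) t 1 7 1 = true :=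
  ex3_b B102E_012_1_14_1 B102E_012_1_15_1
theorem B102E_012_1_3_1 :
    ∃ t, chk3 (onCell 0 26843545 0 1073741824 991146299 28908434 (corT true 1 c0B cB102E gB0q1 gB1q2 gB2q0 gB3q0 true false)) t 1 3 1 = true :=
  ex3_b B102E_012_1_6_1 B102E_012_1_7_1
theorem B102E_012 :
    ∃ t, chk3 (onCell 0 26843545 0 1073741824 991146299 28908434 (corT true 1 c0B cB102E gB0q1 gB1q2 gB2q0 gB3q0 true false)) t 1 1 1 = true :=
  ex3_b B102E_012_1_2_1 B102E_012_1_3_1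

def B102E_020 :
    ∃ t, chk3 (onCell 0 26843545 0 1073741824 991146299 28908434 (corT true 1 c0B cB102E gB0q1 gB2q2 gB0q0 gB1q0 true true)) t 1 1 1 = true :=
  ⟨(T.b (T.b (T.l 1) (T.b (T.a (T.l 0) (T.a (T.l 0) (T.b (T.l 816) (T.l 0)))) (T.a (T.l 0) (T.a (T.l 0) (T.b (T.l 0) (T.l 0)))))) (T.l 2)), by decide +kernel⟩

def B102E_021 :
    ∃ t, chk3 (onCell 0 26843545 0 1073741824 991146299 28908434 (corT true 1 c0B cB102E gB0q1 gB2q2 gB1q0 gB2q0 true true)) t 1 1 1 = true :=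
  ⟨(T.b (T.b (T.l 1) (T.b (T.l 1) (T.b (T.l 1) (T.a (T.l 0) (T.a (T.l 0) (T.l 0)))))) (T.b (T.a (T.l 0) (T.b (T.a (T.b (T.l 0) (T.l 0)) (T.b (T.l 0) (T.l 0))) (T.a (T.a (T.l 0) (T.l 0)) (T.a (T.l 0) (T.l 0))))) (T.l 2))), by decide +kernel⟩

end Pool.Agent.Strip051.G.I9231_9500.Tab.CG
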