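import Pool.Agent.Strip051.G.I9231_9500.Tab

/-! # Certificates B16 (generated) -/

set_option linter.all false
set_option maxRecDepth 100000

namespace Pool.Agent.Strip051.G.I9231_9500.Tab.C.BA44

open Pool.Agent.Strip051.PB Pool.Agent.Strip051.PB.T
open Pool.Agent.Strip051.G.I9231_9500.Tab

noncomputable def f_pm_203 : ℕ → ℕ → ℕ → ℕ → Bool := onCell 1073741824 536870912 1610612736 536870912 991146299 28908434
    (rowB 3 eng mog cd4q2 cd4q0 pd3 1 true true false .up 2 0 3 (qsf 1073741824 536870912 0 536870912 3) ndB4q2 ndB4q0 pcB3 Cut.none Ext.none)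

def k0_pm_203 : ∃ t, chk3 f_pm_203 t 1 1 1 = true :=
  ⟨(a (b (b (a (b (c (l 15598360) (l 15993712)) (a (l 15884520) (l 15495968))) (b (a (l 15271264) (l 15034584)) (a (l 15202072) (l 14971104)))) (a (b (a (l 2) (l 15464112)) (l 2)) (c (l 15079304) (l 15060144)))) (a (l 2) (b (b (l 15154768) (l 2)) (l 2)))) (b (b (a (a (l 14830232) (l 14724696)) (c (l 14794264) (l 14542776))) (a (c (l 14872528) (l 14634480)) (c (l 14833160) (l 14484520)))) (b (a (b (a (l 14915904) (l 14841144)) (b (l 14974120) (l 15044024))) (b (a (l 14816272) (l 14855728)) (a (l 15003376) (l 15034080)))) (b (a (c (l 15284720) (l 14873920)) (c (l 15306168) (l 14811504))) (l 4))))), by decide +kernel⟩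

theorem c_pm_203 : CertB 1073741824 536870912 0 536870912 991146299 28908434 3 eng mog cd4q2 cd4q0 pd3 true true false .up 2 0 3
    ndB4q2 ndB4q0 pcB3 Cut.none Ext.none :=
  certB1 (fam := true) (s1 := true) (s2 := false) (a := 2) (b := 0) (c := 3) (cn := .up) (n1 := ndB4q2) (n2 := ndB4q0) (pc := pcB3) (cut := Cut.none) (xt := Ext.none) (P1 := 1073741824) (W1 := 536870912) (P2 := 0) (W2 := 536870912) (P3 := 991146299) (W3 := 28908434) (N0 := 3) (En := eng) (mo := mog) (C1 := cd4q2) (C2 := cd4q0) (C3 := pd3)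
    rfl (fun _ => rfl) k0_pm_203

noncomputable def f_pm_213 : ℕ → ℕ → ℕ → ℕ → Bool := onCell 1073741824 536870912 1610612736 536870912 991146299 28908434
    (rowB 3 eng mog cd4q2 cd4q1 pd3 1 true true false .pnn 2 1 3 (qsf 1073741824 536870912 536870912 536870912 3) ndB4q2 ndB4q1 pcB3 Cut.none Ext.none)

def k0_pm_213 : ∃ t, chk3 f_pm_213 t 1 1 1 = true :=
  ⟨(a (b (b (a (b (a (l 15675360) (l 15471296)) (a (l 15534904) (l 15320520))) (b (l 1) (l 406440838167))) (a (b (a (l 15367408) (l 15243120)) (a (l 15283160) (l 15228408))) (a (l 15089920) (l 14942480)))) (a (b (a (b (l 15303272) (l 15455952)) (b (l 15310632) (l 15525360))) (a (b (b (l 15565432) (l 15434504)) (b (b (l 15416536) (l 15408144)) (l 4))) (b (b (l 15802304) (l 16016776)) (b (l 16125584) (l 4))))) (b (b (l 15182360) (a (l 15505088) (l 15414640))) (b (b (l 15791064) (l 16065968)) (b (l 16369656) (l 4)))))) (b (b (l 1) (a (b (l 1) (l 14802816)) (l 1))) (b (a (b (a (l 14992912) (l 14911888))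 (b (l 15129024) (l 15286264))) (b (l 1) (a (l 15133336) (l 1)))) (b (a (a (l 15631824) (l 15449520)) (l 15293368)) (l 4))))), by decide +kernel⟩

theorem c_pm_213 : CertB 1073741824 536870912 536870912 536870912 991146299 28908434 3 eng mog cd4q2 cd4q1 pd3 true true false .pnn 2 1 3
    ndB4q2 ndB4q1 pcB3 Cut.none Ext.none :=
  certB1 (fam := true) (s1 := true) (s2 := false) (a := 2) (b := 1) (c := 3) (cn := .pnn) (n1 := ndB4q2) (n2 := ndB4q1) (pc := pcB3) (cut := Cut.none) (xt := Ext.none) (P1 := 1073741824) (W1 := 536870912) (P2 := 536870912) (W2 := 536870912) (P3 := 991146299) (W3 := 28908434) (N0 := 3) (En := eng) (mo := mog) (C1 := cd4q2) (C2 := cd4q1) (C3 := pd3)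
    rfl (fun _ => rfl) k0_pm_213

noncomputable def f_pm_303 : ℕ → ℕ → ℕ → ℕ → Bool := onCell 0 1230186008 1610612736 536870912 991146299 28908434
    (rowB 3 eng mog cd4q3 cd4q0 pd3 1 true true false .npn 3 0 3 (qsf 0 1230186008 0 536870912 3) ndB4q3 ndB4q0 pcB3 Cut.none Ext.none)

def k0_pm_303 : ∃ t, chk3 f_pm_303 t 1 1 1 = true :=
  ⟨(b (a (l 1) (a (a (l 1) (b (l 1) (b (l 1) (b (l 1) (l 16113688))))) (a (b (l 1) (b (a (l 15637632) (l 15567480)) (a (l 15908144) (l 15747504)))) (b (a (l 15302416) (l 15492560)) (b (l 15485440) (a (l 15630616) (l 15555416))))))) (b (a (l 1) (a (b (a (l 1) (l 16082448)) (l 4)) (a (b (l 15944808) (l 4)) (b (b (l 15759600) (l 15847608)) (l 15854624))))) (a (a (l 4) (l 4)) (a (l 4) (l 4))))), by decide +kernel⟩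

theorem c_pm_303 : CertB 0 1230186008 0 536870912 991146299 28908434 3 eng mog cd4q3 cd4q0 pd3 true true false .npn 3 0 3
    ndB4q3 ndB4q0 pcB3 Cut.none Ext.none :=
  certB1 (fam := true) (s1 := true) (s2 := false) (a := 3) (b := 0) (c := 3) (cn := .npn) (n1 := ndB4q3) (n2 := ndB4q0) (pc := pcB3) (cut := Cut.none) (xt := Ext.none) (P1 := 0) (W1 := 1230186008) (P2 := 0) (W2 := 536870912) (P3 := 991146299) (W3 := 28908434) (N0 := 3) (En := eng) (mo := mog) (C1 := cd4q3) (C2 := cd4q0) (C3 := pd3)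
    rfl (fun _ => rfl) k0_pm_303

noncomputable def f_pm_313 : ℕ → ℕ → ℕ → ℕ → Bool := onCell 0 1230186008 536870912 536870912 991146299 28908434
    (rowB 3 eng mog cd4q3 cd4q1 pd3 0 true true false .dn 3 1 3 (qsf 0 1230186008 536870912 536870912 3) ndB4q3 ndB4q1 pcB3 Cut.none Ext.none)

def k0_pm_313 : ∃ t, chk3 f_pm_313 t 1 1 1 = true :=
  ⟨(a (l 2) (l 4)), by decide +kernel⟩

theorem c_pm_313 : CertB 0 1230186008 536870912 536870912 991146299 28908434 3 eng mog cd4q3 cd4q1 pd3 true true false .dn 3 1 3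
    ndB4q3 ndB4q1 pcB3 Cut.none Ext.none :=
  certB0 (fam := true) (s1 := true) (s2 := false) (a := 3) (b := 1) (c := 3) (cn := .dn) (n1 := ndB4q3) (n2 := ndB4q1) (pc := pcB3) (cut := Cut.none) (xt := Ext.none) (P1 := 0) (W1 := 1230186008) (P2 := 536870912) (W2 := 536870912) (P3 := 991146299) (W3 := 28908434) (N0 := 3) (En := eng) (mo := mog) (C1 := cd4q3) (C2 := cd4q1) (C3 := pd3)
    rfl k0_pm_313

noncomputable def f_mm_001 : ℕ → ℕ → ℕ → ℕ → Bool := onCell 0 536870912 0 536870912 991146299 28908434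
    (rowB 3 eng mog cd4q0 cd4q0 pd1 0 true false false .up 0 0 1 (qsf 0 536870912 0 536870912 1) ndB4q0 ndB4q0 pcB1 Cut.none Ext.none)

def k0_mm_001 : ∃ t, chk3 f_mm_001 t 1 1 1 = true :=
  ⟨(l 4), by decide +kernel⟩

theorem c_mm_001 : CertB 0 536870912 0 536870912 991146299 28908434 3 eng mog cd4q0 cd4q0 pd1 true false false .up 0 0 1
    ndB4q0 ndB4q0 pcB1 Cut.none Ext.none :=
  certB0 (fam := true) (s1 := false) (s2 := false) (a := 0) (b := 0) (c := 1) (cn := .up) (n1 := ndB4q0) (n2 := ndB4q0) (pc := pcB1) (cut := Cut.none) (xt := Ext.none) (P1 := 0) (W1 := 536870912) (P2 := 0) (W2 := 536870912) (P3 := 991146299) (W3 := 28908434) (N0 := 3) (En := eng) (mo := mog) (C1 := cd4q0) (C2 := cd4q0) (C3 := pd1)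
    rfl k0_mm_001

noncomputable def f_mm_011 : ℕ → ℕ → ℕ → ℕ → Bool := onCell 0 536870912 536870912 536870912 991146299 28908434
    (rowB 3 eng mog cd4q0 cd4q1 pd1 0 true false false .pnn 0 1 1 (qsf 0 536870912 536870912 536870912 1) ndB4q0 ndB4q1 pcB1 Cut.none Ext.none)

def k0_mm_011 : ∃ t, chk3 f_mm_011 t 1 1 1 = true :=
  ⟨(l 4), by decide +kernel⟩

theorem c_mm_011 : CertB 0 536870912 536870912 536870912 991146299 28908434 3 eng mog cd4q0 cd4q1 pd1 true false false .pnn 0 1 1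
    ndB4q0 ndB4q1 pcB1 Cut.none Ext.none :=
  certB0 (fam := true) (s1 := false) (s2 := false) (a := 0) (b := 1) (c := 1) (cn := .pnn) (n1 := ndB4q0) (n2 := ndB4q1) (pc := pcB1) (cut := Cut.none) (xt := Ext.none) (P1 := 0) (W1 := 536870912) (P2 := 536870912) (W2 := 536870912) (P3 := 991146299) (W3 := 28908434) (N0 := 3) (En := eng) (mo := mog) (C1 := cd4q0) (C2 := cd4q1) (C3 := pd1)
    rfl k0_mm_011

noncomputable def f_mm_012 : ℕ → ℕ → ℕ → ℕ → Bool := onCell 0 536870912 536870912 536870912 991146299 28908434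
    (rowB 3 eng mog cd4q0 cd4q1 pd2 0 true false false .pnp 0 1 2 (qsf 0 536870912 536870912 536870912 2) ndB4q0 ndB4q1 pcB2 Cut.none Ext.none)

def k0_mm_012 : ∃ t, chk3 f_mm_012 t 1 1 1 = true :=
  ⟨(l 4), by decide +kernel⟩

theorem c_mm_012 : CertB 0 536870912 536870912 536870912 991146299 28908434 3 eng mog cd4q0 cd4q1 pd2 true false false .pnp 0 1 2
    ndB4q0 ndB4q1 pcB2 Cut.none Ext.none :=
  certB0 (fam := true) (s1 := false) (s2 := false) (a := 0) (b := 1) (c := 2) (cn := .pnp) (n1 := ndB4q0) (n2 := ndB4q1) (pc := pcB2) (cut := Cut.none) (xt := Ext.none) (P1 := 0) (W1 := 536870912) (P2 := 536870912) (W2 := 536870912) (P3 := 991146299) (W3 := 28908434) (N0 := 3) (En := eng) (mo := mog) (C1 := cd4q0) (C2 := cd4q1) (C3 := pd2)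
    rfl k0_mm_012

noncomputable def f_mm_022 : ℕ → ℕ → ℕ → ℕ → Bool := onCell 0 536870912 1073741824 536870912 991146299 28908434
    (rowB 3 eng mog cd4q0 cd4q2 pd2 0 true false false .pp 0 2 2 (qsf 0 536870912 1073741824 536870912 2) ndB4q0 ndB4q2 pcB2 Cut.none Ext.none)

def k0_mm_022 : ∃ t, chk3 f_mm_022 t 1 1 1 = true :=
  ⟨(l 4), by decide +kernel⟩

theorem c_mm_022 : CertB 0 536870912 1073741824 536870912 991146299 28908434 3 eng mog cd4q0 cd4q2 pd2 true false false .pp 0 2 2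
    ndB4q0 ndB4q2 pcB2 Cut.none Ext.none :=
  certB0 (fam := true) (s1 := false) (s2 := false) (a := 0) (b := 2) (c := 2) (cn := .pp) (n1 := ndB4q0) (n2 := ndB4q2) (pc := pcB2) (cut := Cut.none) (xt := Ext.none) (P1 := 0) (W1 := 536870912) (P2 := 1073741824) (W2 := 536870912) (P3 := 991146299) (W3 := 28908434) (N0 := 3) (En := eng) (mo := mog) (C1 := cd4q0) (C2 := cd4q2) (C3 := pd2)
    rfl k0_mm_022

noncomputable def f_mm_023 : ℕ → ℕ → ℕ → ℕ → Bool := onCell 0 536870912 1073741824 536870912 991146299 28908434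
    (rowB 3 eng mog cd4q0 cd4q2 pd3 0 true false false .up 0 2 3 (qsf 0 536870912 1073741824 536870912 3) ndB4q0 ndB4q2 pcB3 Cut.none Ext.none)

def k0_mm_023 : ∃ t, chk3 f_mm_023 t 1 1 1 = true :=
  ⟨(l 4), by decide +kernel⟩

theorem c_mm_023 : CertB 0 536870912 1073741824 536870912 991146299 28908434 3 eng mog cd4q0 cd4q2 pd3 true false false .up 0 2 3
    ndB4q0 ndB4q2 pcB3 Cut.none Ext.none :=
  certB0 (fam := true) (s1 := false) (s2 := false) (a := 0) (b := 2) (c := 3) (cn := .up) (n1 := ndB4q0) (n2 := ndB4q2) (pc := pcB3) (cut := Cut.none) (xt := Ext.none) (P1 := 0) (W1 := 536870912) (P2 := 1073741824) (W2 := 536870912) (P3 := 991146299) (W3 := 28908434) (N0 := 3) (En := eng) (mo := mog) (C1 := cd4q0) (C2 := cd4q2) (C3 := pd3)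
    rfl k0_mm_023

noncomputable def f_mm_033 : ℕ → ℕ → ℕ → ℕ → Bool := onCell 0 536870912 0 1230186008 991146299 28908434
    (rowB 3 eng mog cd4q0 cd4q3 pd3 0 true false false .pnn 0 3 3 (qsf 0 536870912 0 1230186008 3) ndB4q0 ndB4q3 pcB3 Cut.none Ext.none)

def k0_mm_033 : ∃ t, chk3 f_mm_033 t 1 1 1 = true :=
  ⟨(l 4), by decide +kernel⟩

theorem c_mm_033 : CertB 0 536870912 0 1230186008 991146299 28908434 3 eng mog cd4q0 cd4q3 pd3 true false false .pnn 0 3 3
    ndB4q0 ndB4q3 pcB3 Cut.none Ext.none :=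
  certB0 (fam := true) (s1 := false) (s2 := false) (a := 0) (b := 3) (c := 3) (cn := .pnn) (n1 := ndB4q0) (n2 := ndB4q3) (pc := pcB3) (cut := Cut.none) (xt := Ext.none) (P1 := 0) (W1 := 536870912) (P2 := 0) (W2 := 1230186008) (P3 := 991146299) (W3 := 28908434) (N0 := 3) (En := eng) (mo := mog) (C1 := cd4q0) (C2 := cd4q3) (C3 := pd3)
    rfl k0_mm_033

noncomputable def f_mm_101 : ℕ → ℕ → ℕ → ℕ → Bool := onCell 536870912 536870912 0 536870912 991146299 28908434
    (rowB 3 eng mog cd4q1 cd4q0 pd1 0 true false false .npn 1 0 1 (qsf 536870912 536870912 0 536870912 1) ndB4q1 ndB4q0 pcB1 Cut.none Ext.none)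

def k0_mm_101 : ∃ t, chk3 f_mm_101 t 1 1 1 = true :=
  ⟨(l 4), by decide +kernel⟩

theorem c_mm_101 : CertB 536870912 536870912 0 536870912 991146299 28908434 3 eng mog cd4q1 cd4q0 pd1 true false false .npn 1 0 1
    ndB4q1 ndB4q0 pcB1 Cut.none Ext.none :=
  certB0 (fam := true) (s1 := false) (s2 := false) (a := 1) (b := 0) (c := 1) (cn := .npn) (n1 := ndB4q1) (n2 := ndB4q0) (pc := pcB1) (cut := Cut.none) (xt := Ext.none) (P1 := 536870912) (W1 := 536870912) (P2 := 0) (W2 := 536870912) (P3 := 991146299) (W3 := 28908434) (N0 := 3) (En := eng) (mo := mog) (C1 := cd4q1) (C2 := cd4q0) (C3 := pd1)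
    rfl k0_mm_101

noncomputable def f_mm_102 : ℕ → ℕ → ℕ → ℕ → Bool := onCell 536870912 536870912 0 536870912 991146299 28908434
    (rowB 3 eng mog cd4q1 cd4q0 pd2 0 true false false .npp 1 0 2 (qsf 536870912 536870912 0 536870912 2) ndB4q1 ndB4q0 pcB2 Cut.none Ext.none)

def k0_mm_102 : ∃ t, chk3 f_mm_102 t 1 1 1 = true :=
  ⟨(l 4), by decide +kernel⟩

theorem c_mm_102 : CertB 536870912 536870912 0 536870912 991146299 28908434 3 eng mog cd4q1 cd4q0 pd2 true false false .npp 1 0 2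
    ndB4q1 ndB4q0 pcB2 Cut.none Ext.none :=
  certB0 (fam := true) (s1 := false) (s2 := false) (a := 1) (b := 0) (c := 2) (cn := .npp) (n1 := ndB4q1) (n2 := ndB4q0) (pc := pcB2) (cut := Cut.none) (xt := Ext.none) (P1 := 536870912) (W1 := 536870912) (P2 := 0) (W2 := 536870912) (P3 := 991146299) (W3 := 28908434) (N0 := 3) (En := eng) (mo := mog) (C1 := cd4q1) (C2 := cd4q0) (C3 := pd2)
    rfl k0_mm_102

noncomputable def f_mm_112 : ℕ → ℕ → ℕ → ℕ → Bool := onCell 536870912 536870912 536870912 536870912 991146299 28908434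
    (rowB 3 eng mog cd4q1 cd4q1 pd2 0 true false false .dn 1 1 2 (qsf 536870912 536870912 536870912 536870912 2) ndB4q1 ndB4q1 pcB2 Cut.none Ext.none)

def k0_mm_112 : ∃ t, chk3 f_mm_112 t 1 1 1 = true :=
  ⟨(l 4), by decide +kernel⟩

theorem c_mm_112 : CertB 536870912 536870912 536870912 536870912 991146299 28908434 3 eng mog cd4q1 cd4q1 pd2 true false false .dn 1 1 2
    ndB4q1 ndB4q1 pcB2 Cut.none Ext.none :=
  certB0 (fam := true) (s1 := false) (s2 := false) (a := 1) (b := 1) (c := 2) (cn := .dn) (n1 := ndB4q1) (n2 := ndB4q1) (pc := pcB2) (cut := Cut.none) (xt := Ext.none) (P1 := 536870912) (W1 := 536870912) (P2 := 536870912) (W2 := 536870912) (P3 := 991146299) (W3 := 28908434) (N0 := 3) (En := eng) (mo := mog) (C1 := cd4q1) (C2 := cd4q1) (C3 := pd2)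
    rfl k0_mm_112

noncomputable def f_mm_113 : ℕ → ℕ → ℕ → ℕ → Bool := onCell 536870912 536870912 536870912 536870912 991146299 28908434
    (rowB 3 eng mog cd4q1 cd4q1 pd3 0 true false false .nn 1 1 3 (qsf 536870912 536870912 536870912 536870912 3) ndB4q1 ndB4q1 pcB3 Cut.none Ext.none)

def k0_mm_113 : ∃ t, chk3 f_mm_113 t 1 1 1 = true :=
  ⟨(l 4), by decide +kernel⟩

theorem c_mm_113 : CertB 536870912 536870912 536870912 536870912 991146299 28908434 3 eng mog cd4q1 cd4q1 pd3 true false false .nn 1 1 3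
    ndB4q1 ndB4q1 pcB3 Cut.none Ext.none :=
  certB0 (fam := true) (s1 := false) (s2 := false) (a := 1) (b := 1) (c := 3) (cn := .nn) (n1 := ndB4q1) (n2 := ndB4q1) (pc := pcB3) (cut := Cut.none) (xt := Ext.none) (P1 := 536870912) (W1 := 536870912) (P2 := 536870912) (W2 := 536870912) (P3 := 991146299) (W3 := 28908434) (N0 := 3) (En := eng) (mo := mog) (C1 := cd4q1) (C2 := cd4q1) (C3 := pd3)
    rfl k0_mm_113

noncomputable def f_mm_123 : ℕ → ℕ → ℕ → ℕ → Bool := onCell 536870912 536870912 1073741824 536870912 991146299 28908434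
    (rowB 3 eng mog cd4q1 cd4q2 pd3 0 true false false .npn 1 2 3 (qsf 536870912 536870912 1073741824 536870912 3) ndB4q1 ndB4q2 pcB3 Cut.none Ext.none)

def k0_mm_123 : ∃ t, chk3 f_mm_123 t 1 1 1 = true :=
  ⟨(l 4), by decide +kernel⟩

theorem c_mm_123 : CertB 536870912 536870912 1073741824 536870912 991146299 28908434 3 eng mog cd4q1 cd4q2 pd3 true false false .npn 1 2 3
    ndB4q1 ndB4q2 pcB3 Cut.none Ext.none :=
  certB0 (fam := true) (s1 := false) (s2 := false) (a := 1) (b := 2) (c := 3) (cn := .npn) (n1 := ndB4q1) (n2 := ndB4q2) (pc := pcB3) (cut := Cut.none) (xt := Ext.none) (P1 := 536870912) (W1 := 536870912) (P2 := 1073741824) (W2 := 536870912) (P3 := 991146299) (W3 := 28908434) (N0 := 3) (En := eng) (mo := mog) (C1 := cd4q1) (C2 := cd4q2) (C3 := pd3)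
    rfl k0_mm_123

noncomputable def f_mm_133 : ℕ → ℕ → ℕ → ℕ → Bool := onCell 536870912 536870912 0 1230186008 991146299 28908434
    (rowB 3 eng mog cd4q1 cd4q3 pd3 0 true false false .dn 1 3 3 (qsf 536870912 536870912 0 1230186008 3) ndB4q1 ndB4q3 pcB3 Cut.none Ext.none)

def k0_mm_133 : ∃ t, chk3 f_mm_133 t 1 1 1 = true :=
  ⟨(l 4), by decide +kernel⟩

theorem c_mm_133 : CertB 536870912 536870912 0 1230186008 991146299 28908434 3 eng mog cd4q1 cd4q3 pd3 true false false .dn 1 3 3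
    ndB4q1 ndB4q3 pcB3 Cut.none Ext.none :=
  certB0 (fam := true) (s1 := false) (s2 := false) (a := 1) (b := 3) (c := 3) (cn := .dn) (n1 := ndB4q1) (n2 := ndB4q3) (pc := pcB3) (cut := Cut.none) (xt := Ext.none) (P1 := 536870912) (W1 := 536870912) (P2 := 0) (W2 := 1230186008) (P3 := 991146299) (W3 := 28908434) (N0 := 3) (En := eng) (mo := mog) (C1 := cd4q1) (C2 := cd4q3) (C3 := pd3)
    rfl k0_mm_133

noncomputable def f_mm_202 : ℕ → ℕ → ℕ → ℕ → Bool := onCell 1073741824 536870912 0 536870912 991146299 28908434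
    (rowB 3 eng mog cd4q2 cd4q0 pd2 0 true false false .pp 2 0 2 (qsf 1073741824 536870912 0 536870912 2) ndB4q2 ndB4q0 pcB2 Cut.none Ext.none)

def k0_mm_202 : ∃ t, chk3 f_mm_202 t 1 1 1 = true :=
  ⟨(l 4), by decide +kernel⟩

theorem c_mm_202 : CertB 1073741824 536870912 0 536870912 991146299 28908434 3 eng mog cd4q2 cd4q0 pd2 true false false .pp 2 0 2
    ndB4q2 ndB4q0 pcB2 Cut.none Ext.none :=
  certB0 (fam := true) (s1 := false) (s2 := false) (a := 2) (b := 0) (c := 2) (cn := .pp) (n1 := ndB4q2) (n2 := ndB4q0) (pc := pcB2) (cut := Cut.none) (xt := Ext.none) (P1 := 1073741824) (W1 := 536870912) (P2 := 0) (W2 := 536870912) (P3 := 991146299) (W3 := 28908434) (N0 := 3) (En := eng) (mo := mog) (C1 := cd4q2) (C2 := cd4q0) (C3 := pd2)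
    rfl k0_mm_202

noncomputable def f_mm_203 : ℕ → ℕ → ℕ → ℕ → Bool := onCell 1073741824 536870912 0 536870912 991146299 28908434
    (rowB 3 eng mog cd4q2 cd4q0 pd3 0 true false false .up 2 0 3 (qsf 1073741824 536870912 0 536870912 3) ndB4q2 ndB4q0 pcB3 Cut.none Ext.none)

def k0_mm_203 : ∃ t, chk3 f_mm_203 t 1 1 1 = true :=
  ⟨(l 4), by decide +kernel⟩

theorem c_mm_203 : CertB 1073741824 536870912 0 536870912 991146299 28908434 3 eng mog cd4q2 cd4q0 pd3 true false false .up 2 0 3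
    ndB4q2 ndB4q0 pcB3 Cut.none Ext.none :=
  certB0 (fam := true) (s1 := false) (s2 := false) (a := 2) (b := 0) (c := 3) (cn := .up) (n1 := ndB4q2) (n2 := ndB4q0) (pc := pcB3) (cut := Cut.none) (xt := Ext.none) (P1 := 1073741824) (W1 := 536870912) (P2 := 0) (W2 := 536870912) (P3 := 991146299) (W3 := 28908434) (N0 := 3) (En := eng) (mo := mog) (C1 := cd4q2) (C2 := cd4q0) (C3 := pd3)
    rfl k0_mm_203

noncomputable def f_mm_213 : ℕ → ℕ → ℕ → ℕ → Bool := onCell 1073741824 536870912 536870912 536870912 991146299 28908434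
    (rowB 3 eng mog cd4q2 cd4q1 pd3 0 true false false .pnn 2 1 3 (qsf 1073741824 536870912 536870912 536870912 3) ndB4q2 ndB4q1 pcB3 Cut.none Ext.none)

def k0_mm_213 : ∃ t, chk3 f_mm_213 t 1 1 1 = true :=
  ⟨(l 4), by decide +kernel⟩

theorem c_mm_213 : CertB 1073741824 536870912 536870912 536870912 991146299 28908434 3 eng mog cd4q2 cd4q1 pd3 true false false .pnn 2 1 3
    ndB4q2 ndB4q1 pcB3 Cut.none Ext.none :=
  certB0 (fam := true) (s1 := false) (s2 := false) (a := 2) (b := 1) (c := 3) (cn := .pnn) (n1 := ndB4q2) (n2 := ndB4q1) (pc := pcB3) (cut := Cut.none) (xt := Ext.none) (P1 := 1073741824) (W1 := 536870912) (P2 := 536870912) (W2 := 536870912) (P3 := 991146299) (W3 := 28908434) (N0 := 3) (En := eng) (mo := mog) (C1 := cd4q2) (C2 := cd4q1) (C3 := pd3)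
    rfl k0_mm_213

noncomputable def f_mm_303 : ℕ → ℕ → ℕ → ℕ → Bool := onCell 0 1230186008 0 536870912 991146299 28908434
    (rowB 3 eng mog cd4q3 cd4q0 pd3 0 true false false .npn 3 0 3 (qsf 0 1230186008 0 536870912 3) ndB4q3 ndB4q0 pcB3 Cut.none Ext.none)

def k0_mm_303 : ∃ t, chk3 f_mm_303 t 1 1 1 = true :=
  ⟨(l 4), by decide +kernel⟩

theorem c_mm_303 : CertB 0 1230186008 0 536870912 991146299 28908434 3 eng mog cd4q3 cd4q0 pd3 true false false .npn 3 0 3
    ndB4q3 ndB4q0 pcB3 Cut.none Ext.none :=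
  certB0 (fam := true) (s1 := false) (s2 := false) (a := 3) (b := 0) (c := 3) (cn := .npn) (n1 := ndB4q3) (n2 := ndB4q0) (pc := pcB3) (cut := Cut.none) (xt := Ext.none) (P1 := 0) (W1 := 1230186008) (P2 := 0) (W2 := 536870912) (P3 := 991146299) (W3 := 28908434) (N0 := 3) (En := eng) (mo := mog) (C1 := cd4q3) (C2 := cd4q0) (C3 := pd3)
    rfl k0_mm_303

noncomputable def f_mm_313 : ℕ → ℕ → ℕ → ℕ → Bool := onCell 0 1230186008 536870912 536870912 991146299 28908434
    (rowB 3 eng mog cd4q3 cd4q1 pd3 0 true false false .dn 3 1 3 (qsf 0 1230186008 536870912 536870912 3) ndB4q3 ndB4q1 pcB3 Cut.none Ext.none)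

def k0_mm_313 : ∃ t, chk3 f_mm_313 t 1 1 1 = true :=
  ⟨(l 4), by decide +kernel⟩

theorem c_mm_313 : CertB 0 1230186008 536870912 536870912 991146299 28908434 3 eng mog cd4q3 cd4q1 pd3 true false false .dn 3 1 3
    ndB4q3 ndB4q1 pcB3 Cut.none Ext.none :=
  certB0 (fam := true) (s1 := false) (s2 := false) (a := 3) (b := 1) (c := 3) (cn := .dn) (n1 := ndB4q3) (n2 := ndB4q1) (pc := pcB3) (cut := Cut.none) (xt := Ext.none) (P1 := 0) (W1 := 1230186008) (P2 := 536870912) (W2 := 536870912) (P3 := 991146299) (W3 := 28908434) (N0 := 3) (En := eng) (mo := mog) (C1 := cd4q3) (C2 := cd4q1) (C3 := pd3)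
    rfl k0_mm_313

end Pool.Agent.Strip051.G.I9231_9500.Tab.C.BA44

namespace Pool.Agent.Strip051.G.I9231_9500.Tab.C.BA45

open Pool.Agent.Strip051.PB Pool.Agent.Strip051.PB.T
open Pool.Agent.Strip051.G.I9231_9500.Tab

noncomputable def f_pp_001 : ℕ → ℕ → ℕ → ℕ → Bool := onCell 0 536870912 0 536870912 991146299 28908434
    (rowB 3 eng mog cd4q0 cd5q0 pd1 0 true true true .up 0 0 1 (qsf 0 536870912 0 536870912 1) ndB4q0 ndB5q0 pcB1 Cut.none Ext.none)

def k0_pp_001 : ∃ t, chk3 f_pp_001 t 1 1 1 = true :=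
  ⟨(l 4), by decide +kernel⟩

theorem c_pp_001 : CertB 0 536870912 0 536870912 991146299 28908434 3 eng mog cd4q0 cd5q0 pd1 true true true .up 0 0 1
    ndB4q0 ndB5q0 pcB1 Cut.none Ext.none :=
  certB0 (fam := true) (s1 := true) (s2 := true) (a := 0) (b := 0) (c := 1) (cn := .up) (n1 := ndB4q0) (n2 := ndB5q0) (pc := pcB1) (cut := Cut.none) (xt := Ext.none) (P1 := 0) (W1 := 536870912) (P2 := 0) (W2 := 536870912) (P3 := 991146299) (W3 := 28908434) (N0 := 3) (En := eng) (mo := mog) (C1 := cd4q0) (C2 := cd5q0) (C3 := pd1)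
    rfl k0_pp_001

noncomputable def f_pp_011 : ℕ → ℕ → ℕ → ℕ → Bool := onCell 0 536870912 536870912 536870912 991146299 28908434
    (rowB 3 eng mog cd4q0 cd5q1 pd1 0 true true true .pnn 0 1 1 (qsf 0 536870912 536870912 536870912 1) ndB4q0 ndB5q1 pcB1 Cut.none Ext.none)

def k0_pp_011 : ∃ t, chk3 f_pp_011 t 1 1 1 = true :=
  ⟨(l 4), by decide +kernel⟩

theorem c_pp_011 : CertB 0 536870912 536870912 536870912 991146299 28908434 3 eng mog cd4q0 cd5q1 pd1 true true true .pnn 0 1 1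
    ndB4q0 ndB5q1 pcB1 Cut.none Ext.none :=
  certB0 (fam := true) (s1 := true) (s2 := true) (a := 0) (b := 1) (c := 1) (cn := .pnn) (n1 := ndB4q0) (n2 := ndB5q1) (pc := pcB1) (cut := Cut.none) (xt := Ext.none) (P1 := 0) (W1 := 536870912) (P2 := 536870912) (W2 := 536870912) (P3 := 991146299) (W3 := 28908434) (N0 := 3) (En := eng) (mo := mog) (C1 := cd4q0) (C2 := cd5q1) (C3 := pd1)
    rfl k0_pp_011

noncomputable def f_pp_012 : ℕ → ℕ → ℕ → ℕ → Bool := onCell 0 536870912 536870912 536870912 991146299 28908434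
    (rowB 3 eng mog cd4q0 cd5q1 pd2 0 true true true .pnp 0 1 2 (qsf 0 536870912 536870912 536870912 2) ndB4q0 ndB5q1 pcB2 Cut.none Ext.none)

def k0_pp_012 : ∃ t, chk3 f_pp_012 t 1 1 1 = true :=
  ⟨(l 4), by decide +kernel⟩

theorem c_pp_012 : CertB 0 536870912 536870912 536870912 991146299 28908434 3 eng mog cd4q0 cd5q1 pd2 true true true .pnp 0 1 2
    ndB4q0 ndB5q1 pcB2 Cut.none Ext.none :=
  certB0 (fam := true) (s1 := true) (s2 := true) (a := 0) (b := 1) (c := 2) (cn := .pnp) (n1 := ndB4q0) (n2 := ndB5q1) (pc := pcB2) (cut := Cut.none) (xt := Ext.none) (P1 := 0) (W1 := 536870912) (P2 := 536870912) (W2 := 536870912) (P3 := 991146299) (W3 := 28908434) (N0 := 3) (En := eng) (mo := mog) (C1 := cd4q0) (C2 := cd5q1) (C3 := pd2)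
    rfl k0_pp_012

noncomputable def f_pp_022 : ℕ → ℕ → ℕ → ℕ → Bool := onCell 0 536870912 1073741824 536870912 991146299 28908434
    (rowB 3 eng mog cd4q0 cd5q2 pd2 0 true true true .pp 0 2 2 (qsf 0 536870912 1073741824 536870912 2) ndB4q0 ndB5q2 pcB2 Cut.none Ext.none)

def k0_pp_022 : ∃ t, chk3 f_pp_022 t 1 1 1 = true :=
  ⟨(l 4), by decide +kernel⟩

theorem c_pp_022 : CertB 0 536870912 1073741824 536870912 991146299 28908434 3 eng mog cd4q0 cd5q2 pd2 true true true .pp 0 2 2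
    ndB4q0 ndB5q2 pcB2 Cut.none Ext.none :=
  certB0 (fam := true) (s1 := true) (s2 := true) (a := 0) (b := 2) (c := 2) (cn := .pp) (n1 := ndB4q0) (n2 := ndB5q2) (pc := pcB2) (cut := Cut.none) (xt := Ext.none) (P1 := 0) (W1 := 536870912) (P2 := 1073741824) (W2 := 536870912) (P3 := 991146299) (W3 := 28908434) (N0 := 3) (En := eng) (mo := mog) (C1 := cd4q0) (C2 := cd5q2) (C3 := pd2)
    rfl k0_pp_022

noncomputable def f_pp_023 : ℕ → ℕ → ℕ → ℕ → Bool := onCell 0 536870912 1073741824 536870912 991146299 28908434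
    (rowB 3 eng mog cd4q0 cd5q2 pd3 0 true true true .up 0 2 3 (qsf 0 536870912 1073741824 536870912 3) ndB4q0 ndB5q2 pcB3 Cut.none Ext.none)

def k0_pp_023 : ∃ t, chk3 f_pp_023 t 1 1 1 = true :=
  ⟨(l 4), by decide +kernel⟩

theorem c_pp_023 : CertB 0 536870912 1073741824 536870912 991146299 28908434 3 eng mog cd4q0 cd5q2 pd3 true true true .up 0 2 3
    ndB4q0 ndB5q2 pcB3 Cut.none Ext.none :=
  certB0 (fam := true) (s1 := true) (s2 := true) (a := 0) (b := 2) (c := 3) (cn := .up) (n1 := ndB4q0) (n2 := ndB5q2) (pc := pcB3) (cut := Cut.none) (xt := Ext.none) (P1 := 0) (W1 := 536870912) (P2 := 1073741824) (W2 := 536870912) (P3 := 991146299) (W3 := 28908434) (N0 := 3) (En := eng) (mo := mog) (C1 := cd4q0) (C2 := cd5q2) (C3 := pd3)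
    rfl k0_pp_023

noncomputable def f_pp_033 : ℕ → ℕ → ℕ → ℕ → Bool := onCell 0 536870912 0 1230186008 991146299 28908434
    (rowB 3 eng mog cd4q0 cd5q3 pd3 0 true true true .pnn 0 3 3 (qsf 0 536870912 0 1230186008 3) ndB4q0 ndB5q3 pcB3 Cut.none Ext.none)

def k0_pp_033 : ∃ t, chk3 f_pp_033 t 1 1 1 = true :=
  ⟨(l 4), by decide +kernel⟩

theorem c_pp_033 : CertB 0 536870912 0 1230186008 991146299 28908434 3 eng mog cd4q0 cd5q3 pd3 true true true .pnn 0 3 3
    ndB4q0 ndB5q3 pcB3 Cut.none Ext.none :=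
  certB0 (fam := true) (s1 := true) (s2 := true) (a := 0) (b := 3) (c := 3) (cn := .pnn) (n1 := ndB4q0) (n2 := ndB5q3) (pc := pcB3) (cut := Cut.none) (xt := Ext.none) (P1 := 0) (W1 := 536870912) (P2 := 0) (W2 := 1230186008) (P3 := 991146299) (W3 := 28908434) (N0 := 3) (En := eng) (mo := mog) (C1 := cd4q0) (C2 := cd5q3) (C3 := pd3)
    rfl k0_pp_033

noncomputable def f_pp_101 : ℕ → ℕ → ℕ → ℕ → Bool := onCell 536870912 536870912 0 536870912 991146299 28908434
    (rowB 3 eng mog cd4q1 cd5q0 pd1 0 true true true .npn 1 0 1 (qsf 536870912 536870912 0 536870912 1) ndB4q1 ndB5q0 pcB1 Cut.none Ext.none)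

def k0_pp_101 : ∃ t, chk3 f_pp_101 t 1 1 1 = true :=
  ⟨(l 4), by decide +kernel⟩

theorem c_pp_101 : CertB 536870912 536870912 0 536870912 991146299 28908434 3 eng mog cd4q1 cd5q0 pd1 true true true .npn 1 0 1
    ndB4q1 ndB5q0 pcB1 Cut.none Ext.none :=
  certB0 (fam := true) (s1 := true) (s2 := true) (a := 1) (b := 0) (c := 1) (cn := .npn) (n1 := ndB4q1) (n2 := ndB5q0) (pc := pcB1) (cut := Cut.none) (xt := Ext.none) (P1 := 536870912) (W1 := 536870912) (P2 := 0) (W2 := 536870912) (P3 := 991146299) (W3 := 28908434) (N0 := 3) (En := eng) (mo := mog) (C1 := cd4q1) (C2 := cd5q0) (C3 := pd1)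
    rfl k0_pp_101

noncomputable def f_pp_102 : ℕ → ℕ → ℕ → ℕ → Bool := onCell 536870912 536870912 0 536870912 991146299 28908434
    (rowB 3 eng mog cd4q1 cd5q0 pd2 0 true true true .npp 1 0 2 (qsf 536870912 536870912 0 536870912 2) ndB4q1 ndB5q0 pcB2 Cut.none Ext.none)

def k0_pp_102 : ∃ t, chk3 f_pp_102 t 1 1 1 = true :=
  ⟨(l 4), by decide +kernel⟩

theorem c_pp_102 : CertB 536870912 536870912 0 536870912 991146299 28908434 3 eng mog cd4q1 cd5q0 pd2 true true true .npp 1 0 2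
    ndB4q1 ndB5q0 pcB2 Cut.none Ext.none :=
  certB0 (fam := true) (s1 := true) (s2 := true) (a := 1) (b := 0) (c := 2) (cn := .npp) (n1 := ndB4q1) (n2 := ndB5q0) (pc := pcB2) (cut := Cut.none) (xt := Ext.none) (P1 := 536870912) (W1 := 536870912) (P2 := 0) (W2 := 536870912) (P3 := 991146299) (W3 := 28908434) (N0 := 3) (En := eng) (mo := mog) (C1 := cd4q1) (C2 := cd5q0) (C3 := pd2)
    rfl k0_pp_102

noncomputable def f_pp_112 : ℕ → ℕ → ℕ → ℕ → Bool := onCell 536870912 536870912 536870912 536870912 991146299 28908434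
    (rowB 3 eng mog cd4q1 cd5q1 pd2 0 true true true .dn 1 1 2 (qsf 536870912 536870912 536870912 536870912 2) ndB4q1 ndB5q1 pcB2 Cut.none Ext.none)

def k0_pp_112 : ∃ t, chk3 f_pp_112 t 1 1 1 = true :=
  ⟨(l 4), by decide +kernel⟩

theorem c_pp_112 : CertB 536870912 536870912 536870912 536870912 991146299 28908434 3 eng mog cd4q1 cd5q1 pd2 true true true .dn 1 1 2
    ndB4q1 ndB5q1 pcB2 Cut.none Ext.none :=
  certB0 (fam := true) (s1 := true) (s2 := true) (a := 1) (b := 1) (c := 2) (cn := .dn) (n1 := ndB4q1) (n2 := ndB5q1) (pc := pcB2) (cut := Cut.none) (xt := Ext.none) (P1 := 536870912) (W1 := 536870912) (P2 := 536870912) (W2 := 536870912) (P3 := 991146299) (W3 := 28908434) (N0 := 3) (En := eng) (mo := mog) (C1 := cd4q1) (C2 := cd5q1) (C3 := pd2)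
    rfl k0_pp_112

noncomputable def f_pp_113 : ℕ → ℕ → ℕ → ℕ → Bool := onCell 536870912 536870912 536870912 536870912 991146299 28908434
    (rowB 3 eng mog cd4q1 cd5q1 pd3 0 true true true .nn 1 1 3 (qsf 536870912 536870912 536870912 536870912 3) ndB4q1 ndB5q1 pcB3 Cut.none Ext.none)

def k0_pp_113 : ∃ t, chk3 f_pp_113 t 1 1 1 = true :=
  ⟨(l 4), by decide +kernel⟩

theorem c_pp_113 : CertB 536870912 536870912 536870912 536870912 991146299 28908434 3 eng mog cd4q1 cd5q1 pd3 true true true .nn 1 1 3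
    ndB4q1 ndB5q1 pcB3 Cut.none Ext.none :=
  certB0 (fam := true) (s1 := true) (s2 := true) (a := 1) (b := 1) (c := 3) (cn := .nn) (n1 := ndB4q1) (n2 := ndB5q1) (pc := pcB3) (cut := Cut.none) (xt := Ext.none) (P1 := 536870912) (W1 := 536870912) (P2 := 536870912) (W2 := 536870912) (P3 := 991146299) (W3 := 28908434) (N0 := 3) (En := eng) (mo := mog) (C1 := cd4q1) (C2 := cd5q1) (C3 := pd3)
    rfl k0_pp_113

noncomputable def f_pp_123 : ℕ → ℕ → ℕ → ℕ → Bool := onCell 536870912 536870912 1073741824 536870912 991146299 28908434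
    (rowB 3 eng mog cd4q1 cd5q2 pd3 0 true true true .npn 1 2 3 (qsf 536870912 536870912 1073741824 536870912 3) ndB4q1 ndB5q2 pcB3 Cut.none Ext.none)

def k0_pp_123 : ∃ t, chk3 f_pp_123 t 1 1 1 = true :=
  ⟨(l 4), by decide +kernel⟩

theorem c_pp_123 : CertB 536870912 536870912 1073741824 536870912 991146299 28908434 3 eng mog cd4q1 cd5q2 pd3 true true true .npn 1 2 3
    ndB4q1 ndB5q2 pcB3 Cut.none Ext.none :=
  certB0 (fam := true) (s1 := true) (s2 := true) (a := 1) (b := 2) (c := 3) (cn := .npn) (n1 := ndB4q1) (n2 := ndB5q2) (pc := pcB3) (cut := Cut.none) (xt := Ext.none) (P1 := 536870912) (W1 := 536870912) (P2 := 1073741824) (W2 := 536870912) (P3 := 991146299) (W3 := 28908434) (N0 := 3) (En := eng) (mo := mog) (C1 := cd4q1) (C2 := cd5q2) (C3 := pd3)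
    rfl k0_pp_123

noncomputable def f_pp_133 : ℕ → ℕ → ℕ → ℕ → Bool := onCell 536870912 536870912 0 1230186008 991146299 28908434
    (rowB 3 eng mog cd4q1 cd5q3 pd3 0 true true true .dn 1 3 3 (qsf 536870912 536870912 0 1230186008 3) ndB4q1 ndB5q3 pcB3 Cut.none Ext.none)

def k0_pp_133 : ∃ t, chk3 f_pp_133 t 1 1 1 = true :=
  ⟨(l 4), by decide +kernel⟩

theorem c_pp_133 : CertB 536870912 536870912 0 1230186008 991146299 28908434 3 eng mog cd4q1 cd5q3 pd3 true true true .dn 1 3 3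
    ndB4q1 ndB5q3 pcB3 Cut.none Ext.none :=
  certB0 (fam := true) (s1 := true) (s2 := true) (a := 1) (b := 3) (c := 3) (cn := .dn) (n1 := ndB4q1) (n2 := ndB5q3) (pc := pcB3) (cut := Cut.none) (xt := Ext.none) (P1 := 536870912) (W1 := 536870912) (P2 := 0) (W2 := 1230186008) (P3 := 991146299) (W3 := 28908434) (N0 := 3) (En := eng) (mo := mog) (C1 := cd4q1) (C2 := cd5q3) (C3 := pd3)
    rfl k0_pp_133

noncomputable def f_pp_202 : ℕ → ℕ → ℕ → ℕ → Bool := onCell 1073741824 536870912 0 536870912 991146299 28908434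
    (rowB 3 eng mog cd4q2 cd5q0 pd2 0 true true true .pp 2 0 2 (qsf 1073741824 536870912 0 536870912 2) ndB4q2 ndB5q0 pcB2 Cut.none Ext.none)

def k0_pp_202 : ∃ t, chk3 f_pp_202 t 1 1 1 = true :=
  ⟨(l 4), by decide +kernel⟩

theorem c_pp_202 : CertB 1073741824 536870912 0 536870912 991146299 28908434 3 eng mog cd4q2 cd5q0 pd2 true true true .pp 2 0 2
    ndB4q2 ndB5q0 pcB2 Cut.none Ext.none :=
  certB0 (fam := true) (s1 := true) (s2 := true) (a := 2) (b := 0) (c := 2) (cn := .pp) (n1 := ndB4q2) (n2 := ndB5q0) (pc := pcB2) (cut := Cut.none) (xt := Ext.none) (P1 := 1073741824) (W1 := 536870912) (P2 := 0) (W2 := 536870912) (P3 := 991146299) (W3 := 28908434) (N0 := 3) (En := eng) (mo := mog) (C1 := cd4q2) (C2 := cd5q0) (C3 := pd2)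
    rfl k0_pp_202

noncomputable def f_pp_203 : ℕ → ℕ → ℕ → ℕ → Bool := onCell 1073741824 536870912 0 536870912 991146299 28908434
    (rowB 3 eng mog cd4q2 cd5q0 pd3 0 true true true .up 2 0 3 (qsf 1073741824 536870912 0 536870912 3) ndB4q2 ndB5q0 pcB3 Cut.none Ext.none)

def k0_pp_203 : ∃ t, chk3 f_pp_203 t 1 1 1 = true :=
  ⟨(l 4), by decide +kernel⟩

theorem c_pp_203 : CertB 1073741824 536870912 0 536870912 991146299 28908434 3 eng mog cd4q2 cd5q0 pd3 true true true .up 2 0 3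
    ndB4q2 ndB5q0 pcB3 Cut.none Ext.none :=
  certB0 (fam := true) (s1 := true) (s2 := true) (a := 2) (b := 0) (c := 3) (cn := .up) (n1 := ndB4q2) (n2 := ndB5q0) (pc := pcB3) (cut := Cut.none) (xt := Ext.none) (P1 := 1073741824) (W1 := 536870912) (P2 := 0) (W2 := 536870912) (P3 := 991146299) (W3 := 28908434) (N0 := 3) (En := eng) (mo := mog) (C1 := cd4q2) (C2 := cd5q0) (C3 := pd3)
    rfl k0_pp_203

noncomputable def f_pp_213 : ℕ → ℕ → ℕ → ℕ → Bool := onCell 1073741824 536870912 536870912 536870912 991146299 28908434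
    (rowB 3 eng mog cd4q2 cd5q1 pd3 0 true true true .pnn 2 1 3 (qsf 1073741824 536870912 536870912 536870912 3) ndB4q2 ndB5q1 pcB3 Cut.none Ext.none)

def k0_pp_213 : ∃ t, chk3 f_pp_213 t 1 1 1 = true :=
  ⟨(l 4), by decide +kernel⟩

theorem c_pp_213 : CertB 1073741824 536870912 536870912 536870912 991146299 28908434 3 eng mog cd4q2 cd5q1 pd3 true true true .pnn 2 1 3
    ndB4q2 ndB5q1 pcB3 Cut.none Ext.none :=
  certB0 (fam := true) (s1 := true) (s2 := true) (a := 2) (b := 1) (c := 3) (cn := .pnn) (n1 := ndB4q2) (n2 := ndB5q1) (pc := pcB3) (cut := Cut.none) (xt := Ext.none) (P1 := 1073741824) (W1 := 536870912) (P2 := 536870912) (W2 := 536870912) (P3 := 991146299) (W3 := 28908434) (N0 := 3) (En := eng) (mo := mog) (C1 := cd4q2) (C2 := cd5q1) (C3 := pd3)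
    rfl k0_pp_213

noncomputable def f_pp_303 : ℕ → ℕ → ℕ → ℕ → Bool := onCell 0 1230186008 0 536870912 991146299 28908434
    (rowB 3 eng mog cd4q3 cd5q0 pd3 0 true true true .npn 3 0 3 (qsf 0 1230186008 0 536870912 3) ndB4q3 ndB5q0 pcB3 Cut.none Ext.none)

def k0_pp_303 : ∃ t, chk3 f_pp_303 t 1 1 1 = true :=
  ⟨(l 4), by decide +kernel⟩

theorem c_pp_303 : CertB 0 1230186008 0 536870912 991146299 28908434 3 eng mog cd4q3 cd5q0 pd3 true true true .npn 3 0 3
    ndB4q3 ndB5q0 pcB3 Cut.none Ext.none :=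
  certB0 (fam := true) (s1 := true) (s2 := true) (a := 3) (b := 0) (c := 3) (cn := .npn) (n1 := ndB4q3) (n2 := ndB5q0) (pc := pcB3) (cut := Cut.none) (xt := Ext.none) (P1 := 0) (W1 := 1230186008) (P2 := 0) (W2 := 536870912) (P3 := 991146299) (W3 := 28908434) (N0 := 3) (En := eng) (mo := mog) (C1 := cd4q3) (C2 := cd5q0) (C3 := pd3)
    rfl k0_pp_303

noncomputable def f_pp_313 : ℕ → ℕ → ℕ → ℕ → Bool := onCell 0 1230186008 536870912 536870912 991146299 28908434
    (rowB 3 eng mog cd4q3 cd5q1 pd3 0 true true true .dn 3 1 3 (qsf 0 1230186008 536870912 536870912 3) ndB4q3 ndB5q1 pcB3 Cut.none Ext.none)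

def k0_pp_313 : ∃ t, chk3 f_pp_313 t 1 1 1 = true :=
  ⟨(l 4), by decide +kernel⟩

theorem c_pp_313 : CertB 0 1230186008 536870912 536870912 991146299 28908434 3 eng mog cd4q3 cd5q1 pd3 true true true .dn 3 1 3
    ndB4q3 ndB5q1 pcB3 Cut.none Ext.none :=
  certB0 (fam := true) (s1 := true) (s2 := true) (a := 3) (b := 1) (c := 3) (cn := .dn) (n1 := ndB4q3) (n2 := ndB5q1) (pc := pcB3) (cut := Cut.none) (xt := Ext.none) (P1 := 0) (W1 := 1230186008) (P2 := 536870912) (W2 := 536870912) (P3 := 991146299) (W3 := 28908434) (N0 := 3) (En := eng) (mo := mog) (C1 := cd4q3) (C2 := cd5q1) (C3 := pd3)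
    rfl k0_pp_313

noncomputable def f_pm_001 : ℕ → ℕ → ℕ → ℕ → Bool := onCell 0 536870912 0 536870912 991146299 28908434
    (rowB 3 eng mog cd4q0 cd5q0 pd1 0 true true false .up 0 0 1 (qsf 0 536870912 0 536870912 1) ndB4q0 ndB5q0 pcB1 Cut.none Ext.none)

def k0_pm_001 : ∃ t, chk3 f_pm_001 t 1 1 1 = true :=
  ⟨(l 3), by decide +kernel⟩

theorem c_pm_001 : CertB 0 536870912 0 536870912 991146299 28908434 3 eng mog cd4q0 cd5q0 pd1 true true false .up 0 0 1
    ndB4q0 ndB5q0 pcB1 Cut.none Ext.none :=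
  certB0 (fam := true) (s1 := true) (s2 := false) (a := 0) (b := 0) (c := 1) (cn := .up) (n1 := ndB4q0) (n2 := ndB5q0) (pc := pcB1) (cut := Cut.none) (xt := Ext.none) (P1 := 0) (W1 := 536870912) (P2 := 0) (W2 := 536870912) (P3 := 991146299) (W3 := 28908434) (N0 := 3) (En := eng) (mo := mog) (C1 := cd4q0) (C2 := cd5q0) (C3 := pd1)
    rfl k0_pm_001

noncomputable def f_pm_011 : ℕ → ℕ → ℕ → ℕ → Bool := onCell 0 536870912 536870912 536870912 991146299 28908434
    (rowB 3 eng mog cd4q0 cd5q1 pd1 1 true true false .pnn 0 1 1 (qsf 0 536870912 536870912 536870912 1) ndB4q0 ndB5q1 pcB1 Cut.none Ext.none)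

def k0_pm_011 : ∃ t, chk3 f_pm_011 t 1 1 1 = true :=
  ⟨(l 3), by decide +kernel⟩

theorem c_pm_011 : CertB 0 536870912 536870912 536870912 991146299 28908434 3 eng mog cd4q0 cd5q1 pd1 true true false .pnn 0 1 1
    ndB4q0 ndB5q1 pcB1 Cut.none Ext.none :=
  certB1 (fam := true) (s1 := true) (s2 := false) (a := 0) (b := 1) (c := 1) (cn := .pnn) (n1 := ndB4q0) (n2 := ndB5q1) (pc := pcB1) (cut := Cut.none) (xt := Ext.none) (P1 := 0) (W1 := 536870912) (P2 := 536870912) (W2 := 536870912) (P3 := 991146299) (W3 := 28908434) (N0 := 3) (En := eng) (mo := mog) (C1 := cd4q0) (C2 := cd5q1) (C3 := pd1)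
    rfl (fun _ => rfl) k0_pm_011

noncomputable def f_pm_012 : ℕ → ℕ → ℕ → ℕ → Bool := onCell 1073741824 536870912 536870912 536870912 991146299 28908434
    (rowB 3 eng mog cd4q0 cd5q1 pd2 2 true true false .pnp 0 1 2 (qsf 0 536870912 536870912 536870912 2) ndB4q0 ndB5q1 pcB2 Cut.none Ext.none)

def k0_pm_012 : ∃ t, chk3 f_pm_012 t 1 1 1 = true :=
  ⟨(a (a (l 3) (a (a (a (l 3) (a (b (l 3) (l 3)) (b (b (l 2) (a (l 3) (l 15665176))) (b (a (l 3) (l 15246240)) (a (b (l 3) (l 3)) (b (l 14844016) (l 14541160))))))) (b (b (l 2) (l 15650816)) (b (l 14997184) (b (l 14823488) (l 14519632))))) (b (b (l 2) (l 15449080)) (b (b (l 15303424) (l 15057536)) (b (l 14773432) (l 14467544)))))) (b (b (l 2) (a (b (l 2) (l 15463264)) (l 2))) (b (a (b (l 15235752) (l 14980864)) (b (l 2) (l 14910136))) (a (b (c (l 14622552) (l 14763640)) (c (l 14326048) (l 14442848))) (b (l 14609616) (l 14296280)))))), by decide +kernel⟩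

theorem c_pm_012 : CertB 0 536870912 536870912 536870912 991146299 28908434 3 eng mog cd4q0 cd5q1 pd2 true true false .pnp 0 1 2
    ndB4q0 ndB5q1 pcB2 Cut.none Ext.none :=
  certB2 (fam := true) (s1 := true) (s2 := false) (a := 0) (b := 1) (c := 2) (cn := .pnp) (n1 := ndB4q0) (n2 := ndB5q1) (pc := pcB2) (cut := Cut.none) (xt := Ext.none) (P1 := 0) (W1 := 536870912) (P2 := 536870912) (W2 := 536870912) (P3 := 991146299) (W3 := 28908434) (N0 := 3) (En := eng) (mo := mog) (C1 := cd4q0) (C2 := cd5q1) (C3 := pd2)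
    rfl (fun _ => rfl) k0_pm_012

noncomputable def f_pm_022 : ℕ → ℕ → ℕ → ℕ → Bool := onCell 1073741824 536870912 1073741824 536870912 991146299 28908434
    (rowB 3 eng mog cd4q0 cd5q2 pd2 2 true true false .pp 0 2 2 (qsf 0 536870912 1073741824 536870912 2) ndB4q0 ndB5q2 pcB2 Cut.none Ext.none)

def k0_pm_022 : ∃ t, chk3 f_pm_022 t 1 1 1 = true :=
  ⟨(a (b (a (b (l 3) (a (l 1) (b (l 3) (l 1)))) (a (a (a (l 3) (b (a (l 3) (a (b (l 14609872) (l 15028864)) (b (l 14604904) (l 15024088)))) (b (a (l 3) (a (l 228200443975) (l 15400152))) (l 1)))) (b (b (l 14583616) (l 15003840)) (b (l 15380608) (l 610989991079)))) (b (b (l 14532840) (b (l 14854040) (l 15060656))) (b (l 15087224) (a (l 15671576) (l 15653960)))))) (a (l 1) (b (a (l 1) (b (l 671656872023) (l 1))) (l 1)))) (b (b (a (b (a (l 14476312) (l 14430192)) (a (l 14908472) (l 14873144))) (b (l 14374968) (l 14832488))) (a (b (a (l 15302096) (l 15278072)) (a (l 15635936) (l 15621800))) (b (l 15249800) (l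 15606920)))) (a (b (b (a (l 15915024) (l 15911472)) (a (l 15995640) (l 16151616))) (a (l 1) (b (l 16339760) (l 1)))) (b (b (l 15916952) (a (l 16165376) (l 16131008))) (a (b (l 16336928) (l 16254560)) (b (l 16235872) (l 16289032))))))), by decide +kernel⟩

theorem c_pm_022 : CertB 0 536870912 1073741824 536870912 991146299 28908434 3 eng mog cd4q0 cd5q2 pd2 true true false .pp 0 2 2
    ndB4q0 ndB5q2 pcB2 Cut.none Ext.none :=
  certB2 (fam := true) (s1 := true) (s2 := false) (a := 0) (b := 2) (c := 2) (cn := .pp) (n1 := ndB4q0) (n2 := ndB5q2) (pc := pcB2) (cut := Cut.none) (xt := Ext.none) (P1 := 0) (W1 := 536870912) (P2 := 1073741824) (W2 := 536870912) (P3 := 991146299) (W3 := 28908434) (N0 := 3) (En := eng) (mo := mog) (C1 := cd4q0) (C2 := cd5q2) (C3 := pd2)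
    rfl (fun _ => rfl) k0_pm_022

noncomputable def f_pm_023 : ℕ → ℕ → ℕ → ℕ → Bool := onCell 1610612736 536870912 1073741824 536870912 991146299 28908434
    (rowB 3 eng mog cd4q0 cd5q2 pd3 2 true true false .up 0 2 3 (qsf 0 536870912 1073741824 536870912 3) ndB4q0 ndB5q2 pcB3 Cut.none Ext.none)

def k0_pm_023 : ∃ t, chk3 f_pm_023 t 1 1 1 = true :=
  ⟨(a (b (b (a (b (a (l 14262480) (l 14254136)) (l 14803120)) (b (l 2) (l 14770160))) (a (b (l 15314064) (a (l 15776448) (l 15737728))) (a (b (l 15275976) (l 15638640)) (l 15149456)))) (a (b (a (b (l 16125232) (l 16297232)) (b (l 15997848) (l 16111240))) (a (l 16187992) (l 16180416))) (b (a (l 15887304) (l 15737248)) (a (b (l 16001568) (l 16038568)) (b (l 15902032) (l 15993752)))))) (b (a (b (l 2) (a (b (l 2) (l 15383256)) (l 2))) (l 2)) (a (b (a (b (l 15576104) (l 15748904)) (l 15582512)) (a (l 15968848) (l 16054944))) (b (a (a (l 15744792) (l 2)) (l 2)) (a (a (l 16150776) (l 16147224)) (a (l 16124768) (l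 4))))))), by decide +kernel⟩

theorem c_pm_023 : CertB 0 536870912 1073741824 536870912 991146299 28908434 3 eng mog cd4q0 cd5q2 pd3 true true false .up 0 2 3
    ndB4q0 ndB5q2 pcB3 Cut.none Ext.none :=
  certB2 (fam := true) (s1 := true) (s2 := false) (a := 0) (b := 2) (c := 3) (cn := .up) (n1 := ndB4q0) (n2 := ndB5q2) (pc := pcB3) (cut := Cut.none) (xt := Ext.none) (P1 := 0) (W1 := 536870912) (P2 := 1073741824) (W2 := 536870912) (P3 := 991146299) (W3 := 28908434) (N0 := 3) (En := eng) (mo := mog) (C1 := cd4q0) (C2 := cd5q2) (C3 := pd3)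
    rfl (fun _ => rfl) k0_pm_023

noncomputable def f_pm_033 : ℕ → ℕ → ℕ → ℕ → Bool := onCell 1610612736 536870912 0 1230186008 991146299 28908434
    (rowB 3 eng mog cd4q0 cd5q3 pd3 2 true true false .pnn 0 3 3 (qsf 0 536870912 0 1230186008 3) ndB4q0 ndB5q3 pcB3 Cut.none Ext.none)

def k0_pm_033 : ∃ t, chk3 f_pm_033 t 1 1 1 = true :=
  ⟨(a (b (l 1) (b (b (l 1) (a (l 1) (b (l 1) (a (l 1) (l 16104664))))) (b (a (l 1) (a (l 16099480) (l 16125872))) (a (a (b (l 1) (l 16357216)) (b (l 16167816) (l 16168336))) (b (l 16109256) (a (l 16092584) (l 16077800))))))) (a (b (l 1) (b (a (b (l 1) (a (l 16161200) (l 16150424))) (b (l 4) (l 16208920))) (b (a (l 16447120) (l 16344960)) (a (l 16168232) (b (l 16341528) (l 16273992)))))) (b (b (l 4) (l 4)) (b (l 4) (a (b (l 16352360) (a (l 16344792) (l 16325552))) (b (l 4) (l 4))))))), by decide +kernel⟩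

theorem c_pm_033 : CertB 0 536870912 0 1230186008 991146299 28908434 3 eng mog cd4q0 cd5q3 pd3 true true false .pnn 0 3 3
    ndB4q0 ndB5q3 pcB3 Cut.none Ext.none :=
  certB2 (fam := true) (s1 := true) (s2 := false) (a := 0) (b := 3) (c := 3) (cn := .pnn) (n1 := ndB4q0) (n2 := ndB5q3) (pc := pcB3) (cut := Cut.none) (xt := Ext.none) (P1 := 0) (W1 := 536870912) (P2 := 0) (W2 := 1230186008) (P3 := 991146299) (W3 := 28908434) (N0 := 3) (En := eng) (mo := mog) (C1 := cd4q0) (C2 := cd5q3) (C3 := pd3)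
    rfl (fun _ => rfl) k0_pm_033

noncomputable def f_pm_101 : ℕ → ℕ → ℕ → ℕ → Bool := onCell 536870912 536870912 536870912 536870912 991146299 28908434
    (rowB 3 eng mog cd4q1 cd5q0 pd1 1 true true false .npn 1 0 1 (qsf 536870912 536870912 0 536870912 1) ndB4q1 ndB5q0 pcB1 Cut.none Ext.none)

def k0_pm_101 : ∃ t, chk3 f_pm_101 t 1 1 1 = true :=
  ⟨(l 3), by decide +kernel⟩

theorem c_pm_101 : CertB 536870912 536870912 0 536870912 991146299 28908434 3 eng mog cd4q1 cd5q0 pd1 true true false .npn 1 0 1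
    ndB4q1 ndB5q0 pcB1 Cut.none Ext.none :=
  certB1 (fam := true) (s1 := true) (s2 := false) (a := 1) (b := 0) (c := 1) (cn := .npn) (n1 := ndB4q1) (n2 := ndB5q0) (pc := pcB1) (cut := Cut.none) (xt := Ext.none) (P1 := 536870912) (W1 := 536870912) (P2 := 0) (W2 := 536870912) (P3 := 991146299) (W3 := 28908434) (N0 := 3) (En := eng) (mo := mog) (C1 := cd4q1) (C2 := cd5q0) (C3 := pd1)
    rfl (fun _ => rfl) k0_pm_101

noncomputable def f_pm_102 : ℕ → ℕ → ℕ → ℕ → Bool := onCell 1073741824 536870912 0 536870912 991146299 28908434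
    (rowB 3 eng mog cd4q1 cd5q0 pd2 2 true true false .npp 1 0 2 (qsf 536870912 536870912 0 536870912 2) ndB4q1 ndB5q0 pcB2 Cut.none Ext.none)

def k0_pm_102 : ∃ t, chk3 f_pm_102 t 1 1 1 = true :=
  ⟨(a (a (a (l 3) (a (l 3) (b (b (b (l 2) (a (l 3) (l 260477192183))) (b (c (l 14095256) (l 14025416)) (l 3))) (l 3)))) (b (b (a (a (a (b (l 2) (a (l 13523712) (l 2))) (l 2)) (l 2)) (l 2)) (a (a (a (b (l 13922704) (l 14301200)) (a (b (l 13857904) (l 14235048)) (a (l 14018264) (l 14006536)))) (l 143975839015)) (b (l 13476928) (l 13845352)))) (a (a (a (b (l 14774760) (l 3)) (b (a (l 14712504) (a (l 14681960) (l 14664736))) (a (l 15179848) (a (l 15152856) (l 15135224))))) (b (l 14575216) (l 15053120))) (b (l 14136624) (l 14826784))))) (b (a (b (l 2) (a (b (l 2) (l 13513992)) (l 2))) (l 2)) (a (b (b (l 13680400) (l 13975640)) (b (l 14239064) (l 14466304))) (b (b (l 2) (a (l 13490736) (l 2))) (b (l 13591496) (l 13821904)))))), by decide +kernel⟩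

theorem c_pm_102 : CertB 536870912 536870912 0 536870912 991146299 28908434 3 eng mog cd4q1 cd5q0 pd2 true true false .npp 1 0 2
    ndB4q1 ndB5q0 pcB2 Cut.none Ext.none :=
  certB2 (fam := true) (s1 := true) (s2 := false) (a := 1) (b := 0) (c := 2) (cn := .npp) (n1 := ndB4q1) (n2 := ndB5q0) (pc := pcB2) (cut := Cut.none) (xt := Ext.none) (P1 := 536870912) (W1 := 536870912) (P2 := 0) (W2 := 536870912) (P3 := 991146299) (W3 := 28908434) (N0 := 3) (En := eng) (mo := mog) (C1 := cd4q1) (C2 := cd5q0) (C3 := pd2)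
    rfl (fun _ => rfl) k0_pm_102

noncomputable def f_pm_112 : ℕ → ℕ → ℕ → ℕ → Bool := onCell 1073741824 536870912 536870912 536870912 991146299 28908434
    (rowB 3 eng mog cd4q1 cd5q1 pd2 2 true true false .dn 1 1 2 (qsf 536870912 536870912 536870912 536870912 2) ndB4q1 ndB5q1 pcB2 Cut.none Ext.none)

def k0_pm_112 : ∃ t, chk3 f_pm_112 t 1 1 1 = true :=
  ⟨(a (a (l 3) (b (a (a (a (l 3) (a (l 3) (b (a (l 15407728) (l 15393320)) (a (l 3) (l 15389760))))) (b (l 15327280) (l 15342688))) (b (l 15140840) (l 15205528))) (b (a (l 1) (l 14999136)) (l 1)))) (b (b (a (l 14729136) (l 14122536)) (a (l 14885032) (l 14380032))) (b (a (l 14782504) (l 14402168)) (b (a (l 14512632) (l 14233408)) (l 499854640471))))), by decide +kernel⟩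

theorem c_pm_112 : CertB 536870912 536870912 536870912 536870912 991146299 28908434 3 eng mog cd4q1 cd5q1 pd2 true true false .dn 1 1 2
    ndB4q1 ndB5q1 pcB2 Cut.none Ext.none :=
  certB2 (fam := true) (s1 := true) (s2 := false) (a := 1) (b := 1) (c := 2) (cn := .dn) (n1 := ndB4q1) (n2 := ndB5q1) (pc := pcB2) (cut := Cut.none) (xt := Ext.none) (P1 := 536870912) (W1 := 536870912) (P2 := 536870912) (W2 := 536870912) (P3 := 991146299) (W3 := 28908434) (N0 := 3) (En := eng) (mo := mog) (C1 := cd4q1) (C2 := cd5q1) (C3 := pd2)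
    rfl (fun _ => rfl) k0_pm_112

noncomputable def f_pm_113 : ℕ → ℕ → ℕ → ℕ → Bool := onCell 536870912 536870912 536870912 536870912 991146299 28908434
    (rowB 3 eng mog cd4q1 cd5q1 pd3 0 true true false .nn 1 1 3 (qsf 536870912 536870912 536870912 536870912 3) ndB4q1 ndB5q1 pcB3 Cut.none Ext.none)

def k0_pm_113 : ∃ t, chk3 f_pm_113 t 1 1 1 = true :=
  ⟨(a (b (b (l 1) (a (l 1) (l 14640072))) (b (a (l 14600264) (l 14186576)) (b (a (l 14119776) (l 13771792)) (a (l 13763800) (l 13477728))))) (b (b (a (a (l 1) (l 452610157383)) (a (l 13942592) (l 13673944))) (a (b (l 14169152) (l 14004424)) (a (b (l 13717208) (l 13592664)) (l 13410048)))) (a (b (l 13752064) (b (l 13518432) (a (l 13386840) (l 13541032)))) (b (a (b (l 13507240) (l 13494248)) (b (l 13349544) (l 13531824))) (b (a (l 13645144) (l 14229056)) (a (l 14222208) (b (l 15881488) (a (l 16818632) (a (l 16851072) (b (l 16828488) (a (l 16815152) (b (l 16804344) (a (l 16796432) (b (l 16791136) (a (l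 16786888) (b (l 16784264) (l 16782592))))))))))))))))), by decide +kernel⟩

theorem c_pm_113 : CertB 536870912 536870912 536870912 536870912 991146299 28908434 3 eng mog cd4q1 cd5q1 pd3 true true false .nn 1 1 3
    ndB4q1 ndB5q1 pcB3 Cut.none Ext.none :=
  certB0 (fam := true) (s1 := true) (s2 := false) (a := 1) (b := 1) (c := 3) (cn := .nn) (n1 := ndB4q1) (n2 := ndB5q1) (pc := pcB3) (cut := Cut.none) (xt := Ext.none) (P1 := 536870912) (W1 := 536870912) (P2 := 536870912) (W2 := 536870912) (P3 := 991146299) (W3 := 28908434) (N0 := 3) (En := eng) (mo := mog) (C1 := cd4q1) (C2 := cd5q1) (C3 := pd3)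
    rfl k0_pm_113

noncomputable def f_pm_123 : ℕ → ℕ → ℕ → ℕ → Bool := onCell 1610612736 536870912 1073741824 536870912 991146299 28908434
    (rowB 3 eng mog cd4q1 cd5q2 pd3 2 true true false .npn 1 2 3 (qsf 536870912 536870912 1073741824 536870912 3) ndB4q1 ndB5q2 pcB3 Cut.none Ext.none)

def k0_pm_123 : ∃ t, chk3 f_pm_123 t 1 1 1 = true :=
  ⟨(a (b (b (a (b (a (l 14009208) (l 13912568)) (l 14657280)) (b (a (l 13824072) (l 13772864)) (l 14568104))) (a (b (l 15247000) (l 1)) (a (l 15305064) (l 15200528)))) (a (l 1) (b (a (l 1) (l 15766848)) (l 1)))) (b (a (b (b (a (l 13816752) (l 14081024)) (a (l 14607776) (l 14781416))) (a (b (l 15154320) (l 15461024)) (b (l 15251136) (l 15554152)))) (b (a (b (a (l 14568864) (l 15200904)) (a (l 15087336) (l 15413472))) (a (b (l 16303520) (l 15903048)) (a (l 16161968) (a (l 16458232) (a (l 16635536) (l 16759952)))))) (a (a (l 15626080) (l 15873104)) (a (a (l 16119632) (l 16318544)) (a (l 16542656) (a (l 16697296) (a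 (l 16730096) (l 16769896)))))))) (a (b (a (b (l 15655488) (l 15817408)) (l 15802968)) (a (l 1) (l 16157744))) (b (a (a (l 16058872) (l 16270936)) (a (l 16485976) (a (l 16616800) (a (l 16640368) (l 4))))) (a (a (l 16345008) (l 16447512)) (a (l 16503096) (l 4))))))), by decide +kernel⟩

theorem c_pm_123 : CertB 536870912 536870912 1073741824 536870912 991146299 28908434 3 eng mog cd4q1 cd5q2 pd3 true true false .npn 1 2 3
    ndB4q1 ndB5q2 pcB3 Cut.none Ext.none :=
  certB2 (fam := true) (s1 := true) (s2 := false) (a := 1) (b := 2) (c := 3) (cn := .npn) (n1 := ndB4q1) (n2 := ndB5q2) (pc := pcB3) (cut := Cut.none) (xt := Ext.none) (P1 := 536870912) (W1 := 536870912) (P2 := 1073741824) (W2 := 536870912) (P3 := 991146299) (W3 := 28908434) (N0 := 3) (En := eng) (mo := mog) (C1 := cd4q1) (C2 := cd5q2) (C3 := pd3)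
    rfl (fun _ => rfl) k0_pm_123

noncomputable def f_pm_133 : ℕ → ℕ → ℕ → ℕ → Bool := onCell 536870912 536870912 0 1230186008 991146299 28908434
    (rowB 3 eng mog cd4q1 cd5q3 pd3 0 true true false .dn 1 3 3 (qsf 536870912 536870912 0 1230186008 3) ndB4q1 ndB5q3 pcB3 Cut.none Ext.none)

def k0_pm_133 : ∃ t, chk3 f_pm_133 t 1 1 1 = true :=
  ⟨(b (l 2) (b (l 2) (l 4))), by decide +kernel⟩

theorem c_pm_133 : CertB 536870912 536870912 0 1230186008 991146299 28908434 3 eng mog cd4q1 cd5q3 pd3 true true false .dn 1 3 3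
    ndB4q1 ndB5q3 pcB3 Cut.none Ext.none :=
  certB0 (fam := true) (s1 := true) (s2 := false) (a := 1) (b := 3) (c := 3) (cn := .dn) (n1 := ndB4q1) (n2 := ndB5q3) (pc := pcB3) (cut := Cut.none) (xt := Ext.none) (P1 := 536870912) (W1 := 536870912) (P2 := 0) (W2 := 1230186008) (P3 := 991146299) (W3 := 28908434) (N0 := 3) (En := eng) (mo := mog) (C1 := cd4q1) (C2 := cd5q3) (C3 := pd3)
    rfl k0_pm_133

noncomputable def f_pm_202 : ℕ → ℕ → ℕ → ℕ → Bool := onCell 1073741824 536870912 1073741824 536870912 991146299 28908434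
    (rowB 3 eng mog cd4q2 cd5q0 pd2 1 true true false .pp 2 0 2 (qsf 1073741824 536870912 0 536870912 2) ndB4q2 ndB5q0 pcB2 Cut.none Ext.none)

def k0_pm_202 : ∃ t, chk3 f_pm_202 t 1 1 1 = true :=
  ⟨(b (a (b (a (b (b (a (a (c (l 15007224) (l 15296168)) (c (l 14833048) (l 15048760))) (l 1)) (a (a (c (l 15081112) (l 15372400)) (c (l 14904384) (l 15119520))) (a (l 14744648) (l 1)))) (b (a (a (l 15267840) (l 15054904)) (a (l 14850368) (l 14658568))) (a (a (l 15287944) (l 15075848)) (a (l 14877720) (l 14691840))))) (b (l 1) (a (a (b (l 1) (l 14517288)) (l 1)) (l 1)))) (a (b (b (a (b (l 15181600) (b (l 15178632) (l 15044488))) (b (l 14790704) (b (l 14792760) (l 14795312)))) (a (l 15169480) (l 14795160))) (a (l 15052192) (l 14807600))) (b (a (b (b (l 14437912) (a (l 14423208) (l 14405152))) (l 14465208)) (b (l 1) (l 14235696))) (a (l 14511704) (l 14283136))))) (b (l 1) (a (a (b (l 1) (l 14107432)) (l 1)) (l 1)))) (a (b (a (a (b (l 15177480) (l 15159432)) (b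 (l 14820920) (l 14827056))) (b (a (l 14534120) (l 14305264)) (a (l 14546256) (l 14314208)))) (a (a (b (l 15125328) (l 15089896)) (b (l 14821496) (l 14808832))) (a (b (l 14550016) (l 14551080)) (b (l 14317800) (l 14322472))))) (b (a (b (a (l 14126632) (l 13996904)) (a (l 14131016) (l 13996880))) (b (l 1) (a (l 13909280) (l 1)))) (a (b (a (l 14129760) (l 13990064)) (a (l 14132560) (l 13987160))) (b (a (l 13897520) (l 13848128)) (a (l 13888992) (l 13835168))))))), by decide +kernel⟩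

theorem c_pm_202 : CertB 1073741824 536870912 0 536870912 991146299 28908434 3 eng mog cd4q2 cd5q0 pd2 true true false .pp 2 0 2
    ndB4q2 ndB5q0 pcB2 Cut.none Ext.none :=
  certB1 (fam := true) (s1 := true) (s2 := false) (a := 2) (b := 0) (c := 2) (cn := .pp) (n1 := ndB4q2) (n2 := ndB5q0) (pc := pcB2) (cut := Cut.none) (xt := Ext.none) (P1 := 1073741824) (W1 := 536870912) (P2 := 0) (W2 := 536870912) (P3 := 991146299) (W3 := 28908434) (N0 := 3) (En := eng) (mo := mog) (C1 := cd4q2) (C2 := cd5q0) (C3 := pd2)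
    rfl (fun _ => rfl) k0_pm_202

noncomputable def f_pm_203 : ℕ → ℕ → ℕ → ℕ → Bool := onCell 1073741824 536870912 1610612736 536870912 991146299 28908434
    (rowB 3 eng mog cd4q2 cd5q0 pd3 1 true true false .up 2 0 3 (qsf 1073741824 536870912 0 536870912 3) ndB4q2 ndB5q0 pcB3 Cut.none Ext.none)

def k0_pm_203 : ∃ t, chk3 f_pm_203 t 1 1 1 = true :=
  ⟨(a (b (b (a (b (a (l 15267048) (l 15071936)) (a (l 15178976) (l 15034536))) (a (l 14852928) (l 14720584))) (a (a (l 2) (b (l 15033120) (l 2))) (a (b (l 14915760) (l 15012552)) (l 14842760)))) (a (l 2) (b (b (a (l 2) (l 15122328)) (l 2)) (l 2)))) (b (b (a (a (l 14597432) (l 14514384)) (a (l 14476696) (l 14486288))) (a (b (l 14649872) (a (l 14823832) (l 14777512))) (b (l 14613608) (a (l 14789176) (l 14925432))))) (a (b (b (a (l 15059952) (l 15033312)) (a (l 15370352) (l 15355824))) (b (a (l 2) (l 4)) (l 2))) (b (b (a (l 15109376) (l 15142320)) (a (l 15322608) (l 15339088))) (l 4))))), by decide +kernel⟩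

theorem c_pm_203 : CertB 1073741824 536870912 0 536870912 991146299 28908434 3 eng mog cd4q2 cd5q0 pd3 true true false .up 2 0 3
    ndB4q2 ndB5q0 pcB3 Cut.none Ext.none :=
  certB1 (fam := true) (s1 := true) (s2 := false) (a := 2) (b := 0) (c := 3) (cn := .up) (n1 := ndB4q2) (n2 := ndB5q0) (pc := pcB3) (cut := Cut.none) (xt := Ext.none) (P1 := 1073741824) (W1 := 536870912) (P2 := 0) (W2 := 536870912) (P3 := 991146299) (W3 := 28908434) (N0 := 3) (En := eng) (mo := mog) (C1 := cd4q2) (C2 := cd5q0) (C3 := pd3)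
    rfl (fun _ => rfl) k0_pm_203

noncomputable def f_pm_213 : ℕ → ℕ → ℕ → ℕ → Bool := onCell 1073741824 536870912 1610612736 536870912 991146299 28908434
    (rowB 3 eng mog cd4q2 cd5q1 pd3 1 true true false .pnn 2 1 3 (qsf 1073741824 536870912 536870912 536870912 3) ndB4q2 ndB5q1 pcB3 Cut.none Ext.none)

def k0_pm_213 : ∃ t, chk3 f_pm_213 t 1 1 1 = true :=
  ⟨(a (b (b (a (a (b (l 15275752) (l 15189872)) (l 14845312)) (a (l 14882760) (l 1))) (a (a (b (l 15138896) (l 15136568)) (l 14954048)) (a (l 14958464) (l 14846000)))) (b (a (b (a (l 15212816) (l 15231600)) (a (l 15403360) (l 15486696))) (b (l 15164808) (b (l 15435200) (l 15619104)))) (b (a (a (b (l 15507048) (a (l 15272488) (l 15596480))) (b (l 15778288) (l 15973616))) (b (l 15839432) (l 16119144))) (b (a (a (a (l 15077856) (l 15571688)) (l 16062928)) (l 16421688)) (a (l 4) (l 4)))))) (b (a (a (b (l 1) (l 14747904)) (l 1)) (l 1)) (a (b (b (a (l 15058208) (l 15030872)) (a (l 15365840) (l 15351112)))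 (b (a (l 15780304) (l 4)) (l 4))) (b (b (l 1) (l 15321672)) (l 4))))), by decide +kernel⟩

theorem c_pm_213 : CertB 1073741824 536870912 536870912 536870912 991146299 28908434 3 eng mog cd4q2 cd5q1 pd3 true true false .pnn 2 1 3
    ndB4q2 ndB5q1 pcB3 Cut.none Ext.none :=
  certB1 (fam := true) (s1 := true) (s2 := false) (a := 2) (b := 1) (c := 3) (cn := .pnn) (n1 := ndB4q2) (n2 := ndB5q1) (pc := pcB3) (cut := Cut.none) (xt := Ext.none) (P1 := 1073741824) (W1 := 536870912) (P2 := 536870912) (W2 := 536870912) (P3 := 991146299) (W3 := 28908434) (N0 := 3) (En := eng) (mo := mog) (C1 := cd4q2) (C2 := cd5q1) (C3 := pd3)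
    rfl (fun _ => rfl) k0_pm_213

noncomputable def f_pm_303 : ℕ → ℕ → ℕ → ℕ → Bool := onCell 0 1230186008 1610612736 536870912 991146299 28908434
    (rowB 3 eng mog cd4q3 cd5q0 pd3 1 true true false .npn 3 0 3 (qsf 0 1230186008 0 536870912 3) ndB4q3 ndB5q0 pcB3 Cut.none Ext.none)

def k0_pm_303 : ∃ t, chk3 f_pm_303 t 1 1 1 = true :=
  ⟨(a (l 4) (a (b (b (l 1) (l 4)) (l 4)) (b (b (a (l 1) (b (l 15363088) (l 15437760))) (a (b (l 16019264) (l 16145296)) (b (a (l 15876448) (l 15610320)) (l 15655680)))) (b (a (l 4) (b (l 16061544) (l 4))) (l 4))))), by decide +kernel⟩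

theorem c_pm_303 : CertB 0 1230186008 0 536870912 991146299 28908434 3 eng mog cd4q3 cd5q0 pd3 true true false .npn 3 0 3
    ndB4q3 ndB5q0 pcB3 Cut.none Ext.none :=
  certB1 (fam := true) (s1 := true) (s2 := false) (a := 3) (b := 0) (c := 3) (cn := .npn) (n1 := ndB4q3) (n2 := ndB5q0) (pc := pcB3) (cut := Cut.none) (xt := Ext.none) (P1 := 0) (W1 := 1230186008) (P2 := 0) (W2 := 536870912) (P3 := 991146299) (W3 := 28908434) (N0 := 3) (En := eng) (mo := mog) (C1 := cd4q3) (C2 := cd5q0) (C3 := pd3)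
    rfl (fun _ => rfl) k0_pm_303

noncomputable def f_pm_313 : ℕ → ℕ → ℕ → ℕ → Bool := onCell 0 1230186008 536870912 536870912 991146299 28908434
    (rowB 3 eng mog cd4q3 cd5q1 pd3 0 true true false .dn 3 1 3 (qsf 0 1230186008 536870912 536870912 3) ndB4q3 ndB5q1 pcB3 Cut.none Ext.none)

def k0_pm_313 : ∃ t, chk3 f_pm_313 t 1 1 1 = true :=
  ⟨(a (l 2) (l 4)), by decide +kernel⟩

theorem c_pm_313 : CertB 0 1230186008 536870912 536870912 991146299 28908434 3 eng mog cd4q3 cd5q1 pd3 true true false .dn 3 1 3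
    ndB4q3 ndB5q1 pcB3 Cut.none Ext.none :=
  certB0 (fam := true) (s1 := true) (s2 := false) (a := 3) (b := 1) (c := 3) (cn := .dn) (n1 := ndB4q3) (n2 := ndB5q1) (pc := pcB3) (cut := Cut.none) (xt := Ext.none) (P1 := 0) (W1 := 1230186008) (P2 := 536870912) (W2 := 536870912) (P3 := 991146299) (W3 := 28908434) (N0 := 3) (En := eng) (mo := mog) (C1 := cd4q3) (C2 := cd5q1) (C3 := pd3)
    rfl k0_pm_313

noncomputable def f_mm_001 : ℕ → ℕ → ℕ → ℕ → Bool := onCell 0 536870912 0 536870912 991146299 28908434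
    (rowB 3 eng mog cd4q0 cd5q0 pd1 0 true false false .up 0 0 1 (qsf 0 536870912 0 536870912 1) ndB4q0 ndB5q0 pcB1 Cut.none Ext.none)

def k0_mm_001 : ∃ t, chk3 f_mm_001 t 1 1 1 = true :=
  ⟨(l 4), by decide +kernel⟩

theorem c_mm_001 : CertB 0 536870912 0 536870912 991146299 28908434 3 eng mog cd4q0 cd5q0 pd1 true false false .up 0 0 1
    ndB4q0 ndB5q0 pcB1 Cut.none Ext.none :=
  certB0 (fam := true) (s1 := false) (s2 := false) (a := 0) (b := 0) (c := 1) (cn := .up) (n1 := ndB4q0) (n2 := ndB5q0) (pc := pcB1) (cut := Cut.none) (xt := Ext.none) (P1 := 0) (W1 := 536870912) (P2 := 0) (W2 := 536870912) (P3 := 991146299) (W3 := 28908434) (N0 := 3) (En := eng) (mo := mog) (C1 := cd4q0) (C2 := cd5q0) (C3 := pd1)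
    rfl k0_mm_001

noncomputable def f_mm_011 : ℕ → ℕ → ℕ → ℕ → Bool := onCell 0 536870912 536870912 536870912 991146299 28908434
    (rowB 3 eng mog cd4q0 cd5q1 pd1 0 true false false .pnn 0 1 1 (qsf 0 536870912 536870912 536870912 1) ndB4q0 ndB5q1 pcB1 Cut.none Ext.none)

def k0_mm_011 : ∃ t, chk3 f_mm_011 t 1 1 1 = true :=
  ⟨(l 4), by decide +kernel⟩

theorem c_mm_011 : CertB 0 536870912 536870912 536870912 991146299 28908434 3 eng mog cd4q0 cd5q1 pd1 true false false .pnn 0 1 1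
    ndB4q0 ndB5q1 pcB1 Cut.none Ext.none :=
  certB0 (fam := true) (s1 := false) (s2 := false) (a := 0) (b := 1) (c := 1) (cn := .pnn) (n1 := ndB4q0) (n2 := ndB5q1) (pc := pcB1) (cut := Cut.none) (xt := Ext.none) (P1 := 0) (W1 := 536870912) (P2 := 536870912) (W2 := 536870912) (P3 := 991146299) (W3 := 28908434) (N0 := 3) (En := eng) (mo := mog) (C1 := cd4q0) (C2 := cd5q1) (C3 := pd1)
    rfl k0_mm_011

noncomputable def f_mm_012 : ℕ → ℕ → ℕ → ℕ → Bool := onCell 0 536870912 536870912 536870912 991146299 28908434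
    (rowB 3 eng mog cd4q0 cd5q1 pd2 0 true false false .pnp 0 1 2 (qsf 0 536870912 536870912 536870912 2) ndB4q0 ndB5q1 pcB2 Cut.none Ext.none)

def k0_mm_012 : ∃ t, chk3 f_mm_012 t 1 1 1 = true :=
  ⟨(l 4), by decide +kernel⟩

theorem c_mm_012 : CertB 0 536870912 536870912 536870912 991146299 28908434 3 eng mog cd4q0 cd5q1 pd2 true false false .pnp 0 1 2
    ndB4q0 ndB5q1 pcB2 Cut.none Ext.none :=
  certB0 (fam := true) (s1 := false) (s2 := false) (a := 0) (b := 1) (c := 2) (cn := .pnp) (n1 := ndB4q0) (n2 := ndB5q1) (pc := pcB2) (cut := Cut.none) (xt := Ext.none) (P1 := 0) (W1 := 536870912) (P2 := 536870912) (W2 := 536870912) (P3 := 991146299) (W3 := 28908434) (N0 := 3) (En := eng) (mo := mog) (C1 := cd4q0) (C2 := cd5q1) (C3 := pd2)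
    rfl k0_mm_012

noncomputable def f_mm_022 : ℕ → ℕ → ℕ → ℕ → Bool := onCell 0 536870912 1073741824 536870912 991146299 28908434
    (rowB 3 eng mog cd4q0 cd5q2 pd2 0 true false false .pp 0 2 2 (qsf 0 536870912 1073741824 536870912 2) ndB4q0 ndB5q2 pcB2 Cut.none Ext.none)

def k0_mm_022 : ∃ t, chk3 f_mm_022 t 1 1 1 = true :=
  ⟨(l 4), by decide +kernel⟩

theorem c_mm_022 : CertB 0 536870912 1073741824 536870912 991146299 28908434 3 eng mog cd4q0 cd5q2 pd2 true false false .pp 0 2 2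
    ndB4q0 ndB5q2 pcB2 Cut.none Ext.none :=
  certB0 (fam := true) (s1 := false) (s2 := false) (a := 0) (b := 2) (c := 2) (cn := .pp) (n1 := ndB4q0) (n2 := ndB5q2) (pc := pcB2) (cut := Cut.none) (xt := Ext.none) (P1 := 0) (W1 := 536870912) (P2 := 1073741824) (W2 := 536870912) (P3 := 991146299) (W3 := 28908434) (N0 := 3) (En := eng) (mo := mog) (C1 := cd4q0) (C2 := cd5q2) (C3 := pd2)
    rfl k0_mm_022

noncomputable def f_mm_023 : ℕ → ℕ → ℕ → ℕ → Bool := onCell 0 536870912 1073741824 536870912 991146299 28908434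
    (rowB 3 eng mog cd4q0 cd5q2 pd3 0 true false false .up 0 2 3 (qsf 0 536870912 1073741824 536870912 3) ndB4q0 ndB5q2 pcB3 Cut.none Ext.none)

def k0_mm_023 : ∃ t, chk3 f_mm_023 t 1 1 1 = true :=
  ⟨(l 4), by decide +kernel⟩

theorem c_mm_023 : CertB 0 536870912 1073741824 536870912 991146299 28908434 3 eng mog cd4q0 cd5q2 pd3 true false false .up 0 2 3
    ndB4q0 ndB5q2 pcB3 Cut.none Ext.none :=
  certB0 (fam := true) (s1 := false) (s2 := false) (a := 0) (b := 2) (c := 3) (cn := .up) (n1 := ndB4q0) (n2 := ndB5q2) (pc := pcB3) (cut := Cut.none) (xt := Ext.none) (P1 := 0) (W1 := 536870912) (P2 := 1073741824) (W2 := 536870912) (P3 := 991146299) (W3 := 28908434) (N0 := 3) (En := eng) (mo := mog) (C1 := cd4q0) (C2 := cd5q2) (C3 := pd3)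
    rfl k0_mm_023

noncomputable def f_mm_033 : ℕ → ℕ → ℕ → ℕ → Bool := onCell 0 536870912 0 1230186008 991146299 28908434
    (rowB 3 eng mog cd4q0 cd5q3 pd3 0 true false false .pnn 0 3 3 (qsf 0 536870912 0 1230186008 3) ndB4q0 ndB5q3 pcB3 Cut.none Ext.none)

def k0_mm_033 : ∃ t, chk3 f_mm_033 t 1 1 1 = true :=
  ⟨(l 4), by decide +kernel⟩

theorem c_mm_033 : CertB 0 536870912 0 1230186008 991146299 28908434 3 eng mog cd4q0 cd5q3 pd3 true false false .pnn 0 3 3
    ndB4q0 ndB5q3 pcB3 Cut.none Ext.none :=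
  certB0 (fam := true) (s1 := false) (s2 := false) (a := 0) (b := 3) (c := 3) (cn := .pnn) (n1 := ndB4q0) (n2 := ndB5q3) (pc := pcB3) (cut := Cut.none) (xt := Ext.none) (P1 := 0) (W1 := 536870912) (P2 := 0) (W2 := 1230186008) (P3 := 991146299) (W3 := 28908434) (N0 := 3) (En := eng) (mo := mog) (C1 := cd4q0) (C2 := cd5q3) (C3 := pd3)
    rfl k0_mm_033

noncomputable def f_mm_101 : ℕ → ℕ → ℕ → ℕ → Bool := onCell 536870912 536870912 0 536870912 991146299 28908434
    (rowB 3 eng mog cd4q1 cd5q0 pd1 0 true false false .npn 1 0 1 (qsf 536870912 536870912 0 536870912 1) ndB4q1 ndB5q0 pcB1 Cut.none Ext.none)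

def k0_mm_101 : ∃ t, chk3 f_mm_101 t 1 1 1 = true :=
  ⟨(l 4), by decide +kernel⟩

theorem c_mm_101 : CertB 536870912 536870912 0 536870912 991146299 28908434 3 eng mog cd4q1 cd5q0 pd1 true false false .npn 1 0 1
    ndB4q1 ndB5q0 pcB1 Cut.none Ext.none :=
  certB0 (fam := true) (s1 := false) (s2 := false) (a := 1) (b := 0) (c := 1) (cn := .npn) (n1 := ndB4q1) (n2 := ndB5q0) (pc := pcB1) (cut := Cut.none) (xt := Ext.none) (P1 := 536870912) (W1 := 536870912) (P2 := 0) (W2 := 536870912) (P3 := 991146299) (W3 := 28908434) (N0 := 3) (En := eng) (mo := mog) (C1 := cd4q1) (C2 := cd5q0) (C3 := pd1)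
    rfl k0_mm_101

noncomputable def f_mm_102 : ℕ → ℕ → ℕ → ℕ → Bool := onCell 536870912 536870912 0 536870912 991146299 28908434
    (rowB 3 eng mog cd4q1 cd5q0 pd2 0 true false false .npp 1 0 2 (qsf 536870912 536870912 0 536870912 2) ndB4q1 ndB5q0 pcB2 Cut.none Ext.none)

def k0_mm_102 : ∃ t, chk3 f_mm_102 t 1 1 1 = true :=
  ⟨(l 4), by decide +kernel⟩

theorem c_mm_102 : CertB 536870912 536870912 0 536870912 991146299 28908434 3 eng mog cd4q1 cd5q0 pd2 true false false .npp 1 0 2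
    ndB4q1 ndB5q0 pcB2 Cut.none Ext.none :=
  certB0 (fam := true) (s1 := false) (s2 := false) (a := 1) (b := 0) (c := 2) (cn := .npp) (n1 := ndB4q1) (n2 := ndB5q0) (pc := pcB2) (cut := Cut.none) (xt := Ext.none) (P1 := 536870912) (W1 := 536870912) (P2 := 0) (W2 := 536870912) (P3 := 991146299) (W3 := 28908434) (N0 := 3) (En := eng) (mo := mog) (C1 := cd4q1) (C2 := cd5q0) (C3 := pd2)
    rfl k0_mm_102

noncomputable def f_mm_112 : ℕ → ℕ → ℕ → ℕ → Bool := onCell 536870912 536870912 536870912 536870912 991146299 28908434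
    (rowB 3 eng mog cd4q1 cd5q1 pd2 0 true false false .dn 1 1 2 (qsf 536870912 536870912 536870912 536870912 2) ndB4q1 ndB5q1 pcB2 Cut.none Ext.none)

def k0_mm_112 : ∃ t, chk3 f_mm_112 t 1 1 1 = true :=
  ⟨(l 4), by decide +kernel⟩

theorem c_mm_112 : CertB 536870912 536870912 536870912 536870912 991146299 28908434 3 eng mog cd4q1 cd5q1 pd2 true false false .dn 1 1 2
    ndB4q1 ndB5q1 pcB2 Cut.none Ext.none :=
  certB0 (fam := true) (s1 := false) (s2 := false) (a := 1) (b := 1) (c := 2) (cn := .dn) (n1 := ndB4q1) (n2 := ndB5q1) (pc := pcB2) (cut := Cut.none) (xt := Ext.none) (P1 := 536870912) (W1 := 536870912) (P2 := 536870912) (W2 := 536870912) (P3 := 991146299) (W3 := 28908434) (N0 := 3) (En := eng) (mo := mog) (C1 := cd4q1) (C2 := cd5q1) (C3 := pd2)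
    rfl k0_mm_112

noncomputable def f_mm_113 : ℕ → ℕ → ℕ → ℕ → Bool := onCell 536870912 536870912 536870912 536870912 991146299 28908434
    (rowB 3 eng mog cd4q1 cd5q1 pd3 0 true false false .nn 1 1 3 (qsf 536870912 536870912 536870912 536870912 3) ndB4q1 ndB5q1 pcB3 Cut.none Ext.none)

def k0_mm_113 : ∃ t, chk3 f_mm_113 t 1 1 1 = true :=
  ⟨(l 4), by decide +kernel⟩

theorem c_mm_113 : CertB 536870912 536870912 536870912 536870912 991146299 28908434 3 eng mog cd4q1 cd5q1 pd3 true false false .nn 1 1 3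
    ndB4q1 ndB5q1 pcB3 Cut.none Ext.none :=
  certB0 (fam := true) (s1 := false) (s2 := false) (a := 1) (b := 1) (c := 3) (cn := .nn) (n1 := ndB4q1) (n2 := ndB5q1) (pc := pcB3) (cut := Cut.none) (xt := Ext.none) (P1 := 536870912) (W1 := 536870912) (P2 := 536870912) (W2 := 536870912) (P3 := 991146299) (W3 := 28908434) (N0 := 3) (En := eng) (mo := mog) (C1 := cd4q1) (C2 := cd5q1) (C3 := pd3)
    rfl k0_mm_113

noncomputable def f_mm_123 : ℕ → ℕ → ℕ → ℕ → Bool := onCell 536870912 536870912 1073741824 536870912 991146299 28908434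
    (rowB 3 eng mog cd4q1 cd5q2 pd3 0 true false false .npn 1 2 3 (qsf 536870912 536870912 1073741824 536870912 3) ndB4q1 ndB5q2 pcB3 Cut.none Ext.none)

def k0_mm_123 : ∃ t, chk3 f_mm_123 t 1 1 1 = true :=
  ⟨(l 4), by decide +kernel⟩

theorem c_mm_123 : CertB 536870912 536870912 1073741824 536870912 991146299 28908434 3 eng mog cd4q1 cd5q2 pd3 true false false .npn 1 2 3
    ndB4q1 ndB5q2 pcB3 Cut.none Ext.none :=
  certB0 (fam := true) (s1 := false) (s2 := false) (a := 1) (b := 2) (c := 3) (cn := .npn) (n1 := ndB4q1) (n2 := ndB5q2) (pc := pcB3) (cut := Cut.none) (xt := Ext.none) (P1 := 536870912) (W1 := 536870912) (P2 := 1073741824) (W2 := 536870912) (P3 := 991146299) (W3 := 28908434) (N0 := 3) (En := eng) (mo := mog) (C1 := cd4q1) (C2 := cd5q2) (C3 := pd3)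
    rfl k0_mm_123

noncomputable def f_mm_133 : ℕ → ℕ → ℕ → ℕ → Bool := onCell 536870912 536870912 0 1230186008 991146299 28908434
    (rowB 3 eng mog cd4q1 cd5q3 pd3 0 true false false .dn 1 3 3 (qsf 536870912 536870912 0 1230186008 3) ndB4q1 ndB5q3 pcB3 Cut.none Ext.none)

def k0_mm_133 : ∃ t, chk3 f_mm_133 t 1 1 1 = true :=
  ⟨(l 4), by decide +kernel⟩

theorem c_mm_133 : CertB 536870912 536870912 0 1230186008 991146299 28908434 3 eng mog cd4q1 cd5q3 pd3 true false false .dn 1 3 3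
    ndB4q1 ndB5q3 pcB3 Cut.none Ext.none :=
  certB0 (fam := true) (s1 := false) (s2 := false) (a := 1) (b := 3) (c := 3) (cn := .dn) (n1 := ndB4q1) (n2 := ndB5q3) (pc := pcB3) (cut := Cut.none) (xt := Ext.none) (P1 := 536870912) (W1 := 536870912) (P2 := 0) (W2 := 1230186008) (P3 := 991146299) (W3 := 28908434) (N0 := 3) (En := eng) (mo := mog) (C1 := cd4q1) (C2 := cd5q3) (C3 := pd3)
    rfl k0_mm_133

noncomputable def f_mm_202 : ℕ → ℕ → ℕ → ℕ → Bool := onCell 1073741824 536870912 0 536870912 991146299 28908434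
    (rowB 3 eng mog cd4q2 cd5q0 pd2 0 true false false .pp 2 0 2 (qsf 1073741824 536870912 0 536870912 2) ndB4q2 ndB5q0 pcB2 Cut.none Ext.none)

def k0_mm_202 : ∃ t, chk3 f_mm_202 t 1 1 1 = true :=
  ⟨(l 4), by decide +kernel⟩

theorem c_mm_202 : CertB 1073741824 536870912 0 536870912 991146299 28908434 3 eng mog cd4q2 cd5q0 pd2 true false false .pp 2 0 2
    ndB4q2 ndB5q0 pcB2 Cut.none Ext.none :=
  certB0 (fam := true) (s1 := false) (s2 := false) (a := 2) (b := 0) (c := 2) (cn := .pp) (n1 := ndB4q2) (n2 := ndB5q0) (pc := pcB2) (cut := Cut.none) (xt := Ext.none) (P1 := 1073741824) (W1 := 536870912) (P2 := 0) (W2 := 536870912) (P3 := 991146299) (W3 := 28908434) (N0 := 3) (En := eng) (mo := mog) (C1 := cd4q2) (C2 := cd5q0) (C3 := pd2)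
    rfl k0_mm_202

noncomputable def f_mm_203 : ℕ → ℕ → ℕ → ℕ → Bool := onCell 1073741824 536870912 0 536870912 991146299 28908434
    (rowB 3 eng mog cd4q2 cd5q0 pd3 0 true false false .up 2 0 3 (qsf 1073741824 536870912 0 536870912 3) ndB4q2 ndB5q0 pcB3 Cut.none Ext.none)

def k0_mm_203 : ∃ t, chk3 f_mm_203 t 1 1 1 = true :=
  ⟨(l 4), by decide +kernel⟩

theorem c_mm_203 : CertB 1073741824 536870912 0 536870912 991146299 28908434 3 eng mog cd4q2 cd5q0 pd3 true false false .up 2 0 3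
    ndB4q2 ndB5q0 pcB3 Cut.none Ext.none :=
  certB0 (fam := true) (s1 := false) (s2 := false) (a := 2) (b := 0) (c := 3) (cn := .up) (n1 := ndB4q2) (n2 := ndB5q0) (pc := pcB3) (cut := Cut.none) (xt := Ext.none) (P1 := 1073741824) (W1 := 536870912) (P2 := 0) (W2 := 536870912) (P3 := 991146299) (W3 := 28908434) (N0 := 3) (En := eng) (mo := mog) (C1 := cd4q2) (C2 := cd5q0) (C3 := pd3)
    rfl k0_mm_203

noncomputable def f_mm_213 : ℕ → ℕ → ℕ → ℕ → Bool := onCell 1073741824 536870912 536870912 536870912 991146299 28908434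
    (rowB 3 eng mog cd4q2 cd5q1 pd3 0 true false false .pnn 2 1 3 (qsf 1073741824 536870912 536870912 536870912 3) ndB4q2 ndB5q1 pcB3 Cut.none Ext.none)

def k0_mm_213 : ∃ t, chk3 f_mm_213 t 1 1 1 = true :=
  ⟨(l 4), by decide +kernel⟩

theorem c_mm_213 : CertB 1073741824 536870912 536870912 536870912 991146299 28908434 3 eng mog cd4q2 cd5q1 pd3 true false false .pnn 2 1 3
    ndB4q2 ndB5q1 pcB3 Cut.none Ext.none :=
  certB0 (fam := true) (s1 := false) (s2 := false) (a := 2) (b := 1) (c := 3) (cn := .pnn) (n1 := ndB4q2) (n2 := ndB5q1) (pc := pcB3) (cut := Cut.none) (xt := Ext.none) (P1 := 1073741824) (W1 := 536870912) (P2 := 536870912) (W2 := 536870912) (P3 := 991146299) (W3 := 28908434) (N0 := 3) (En := eng) (mo := mog) (C1 := cd4q2) (C2 := cd5q1) (C3 := pd3)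
    rfl k0_mm_213

noncomputable def f_mm_303 : ℕ → ℕ → ℕ → ℕ → Bool := onCell 0 1230186008 0 536870912 991146299 28908434
    (rowB 3 eng mog cd4q3 cd5q0 pd3 0 true false false .npn 3 0 3 (qsf 0 1230186008 0 536870912 3) ndB4q3 ndB5q0 pcB3 Cut.none Ext.none)

def k0_mm_303 : ∃ t, chk3 f_mm_303 t 1 1 1 = true :=
  ⟨(l 4), by decide +kernel⟩

theorem c_mm_303 : CertB 0 1230186008 0 536870912 991146299 28908434 3 eng mog cd4q3 cd5q0 pd3 true false false .npn 3 0 3
    ndB4q3 ndB5q0 pcB3 Cut.none Ext.none :=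
  certB0 (fam := true) (s1 := false) (s2 := false) (a := 3) (b := 0) (c := 3) (cn := .npn) (n1 := ndB4q3) (n2 := ndB5q0) (pc := pcB3) (cut := Cut.none) (xt := Ext.none) (P1 := 0) (W1 := 1230186008) (P2 := 0) (W2 := 536870912) (P3 := 991146299) (W3 := 28908434) (N0 := 3) (En := eng) (mo := mog) (C1 := cd4q3) (C2 := cd5q0) (C3 := pd3)
    rfl k0_mm_303

noncomputable def f_mm_313 : ℕ → ℕ → ℕ → ℕ → Bool := onCell 0 1230186008 536870912 536870912 991146299 28908434
    (rowB 3 eng mog cd4q3 cd5q1 pd3 0 true false false .dn 3 1 3 (qsf 0 1230186008 536870912 536870912 3) ndB4q3 ndB5q1 pcB3 Cut.none Ext.none)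

def k0_mm_313 : ∃ t, chk3 f_mm_313 t 1 1 1 = true :=
  ⟨(l 4), by decide +kernel⟩

theorem c_mm_313 : CertB 0 1230186008 536870912 536870912 991146299 28908434 3 eng mog cd4q3 cd5q1 pd3 true false false .dn 3 1 3
    ndB4q3 ndB5q1 pcB3 Cut.none Ext.none :=
  certB0 (fam := true) (s1 := false) (s2 := false) (a := 3) (b := 1) (c := 3) (cn := .dn) (n1 := ndB4q3) (n2 := ndB5q1) (pc := pcB3) (cut := Cut.none) (xt := Ext.none) (P1 := 0) (W1 := 1230186008) (P2 := 536870912) (W2 := 536870912) (P3 := 991146299) (W3 := 28908434) (N0 := 3) (En := eng) (mo := mog) (C1 := cd4q3) (C2 := cd5q1) (C3 := pd3)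
    rfl k0_mm_313

end Pool.Agent.Strip051.G.I9231_9500.Tab.C.BA45

namespace Pool.Agent.Strip051.G.I9231_9500.Tab.C.BA55

open Pool.Agent.Strip051.PB Pool.Agent.Strip051.PB.T
open Pool.Agent.Strip051.G.I9231_9500.Tab

noncomputable def f_pp_001 : ℕ → ℕ → ℕ → ℕ → Bool := onCell 0 536870912 0 536870912 991146299 28908434
    (rowB 3 eng mog cd5q0 cd5q0 pd1 0 true true true .up 0 0 1 (qsf 0 536870912 0 536870912 1) ndB5q0 ndB5q0 pcB1 Cut.none Ext.none)

def k0_pp_001 : ∃ t, chk3 f_pp_001 t 1 1 1 = true :=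
  ⟨(l 4), by decide +kernel⟩

theorem c_pp_001 : CertB 0 536870912 0 536870912 991146299 28908434 3 eng mog cd5q0 cd5q0 pd1 true true true .up 0 0 1
    ndB5q0 ndB5q0 pcB1 Cut.none Ext.none :=
  certB0 (fam := true) (s1 := true) (s2 := true) (a := 0) (b := 0) (c := 1) (cn := .up) (n1 := ndB5q0) (n2 := ndB5q0) (pc := pcB1) (cut := Cut.none) (xt := Ext.none) (P1 := 0) (W1 := 536870912) (P2 := 0) (W2 := 536870912) (P3 := 991146299) (W3 := 28908434) (N0 := 3) (En := eng) (mo := mog) (C1 := cd5q0) (C2 := cd5q0) (C3 := pd1)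
    rfl k0_pp_001

noncomputable def f_pp_011 : ℕ → ℕ → ℕ → ℕ → Bool := onCell 0 536870912 536870912 536870912 991146299 28908434
    (rowB 3 eng mog cd5q0 cd5q1 pd1 0 true true true .pnn 0 1 1 (qsf 0 536870912 536870912 536870912 1) ndB5q0 ndB5q1 pcB1 Cut.none Ext.none)

def k0_pp_011 : ∃ t, chk3 f_pp_011 t 1 1 1 = true :=
  ⟨(l 4), by decide +kernel⟩

theorem c_pp_011 : CertB 0 536870912 536870912 536870912 991146299 28908434 3 eng mog cd5q0 cd5q1 pd1 true true true .pnn 0 1 1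
    ndB5q0 ndB5q1 pcB1 Cut.none Ext.none :=
  certB0 (fam := true) (s1 := true) (s2 := true) (a := 0) (b := 1) (c := 1) (cn := .pnn) (n1 := ndB5q0) (n2 := ndB5q1) (pc := pcB1) (cut := Cut.none) (xt := Ext.none) (P1 := 0) (W1 := 536870912) (P2 := 536870912) (W2 := 536870912) (P3 := 991146299) (W3 := 28908434) (N0 := 3) (En := eng) (mo := mog) (C1 := cd5q0) (C2 := cd5q1) (C3 := pd1)
    rfl k0_pp_011

noncomputable def f_pp_012 : ℕ → ℕ → ℕ → ℕ → Bool := onCell 0 536870912 536870912 536870912 991146299 28908434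
    (rowB 3 eng mog cd5q0 cd5q1 pd2 0 true true true .pnp 0 1 2 (qsf 0 536870912 536870912 536870912 2) ndB5q0 ndB5q1 pcB2 Cut.none Ext.none)

def k0_pp_012 : ∃ t, chk3 f_pp_012 t 1 1 1 = true :=
  ⟨(l 4), by decide +kernel⟩

theorem c_pp_012 : CertB 0 536870912 536870912 536870912 991146299 28908434 3 eng mog cd5q0 cd5q1 pd2 true true true .pnp 0 1 2
    ndB5q0 ndB5q1 pcB2 Cut.none Ext.none :=
  certB0 (fam := true) (s1 := true) (s2 := true) (a := 0) (b := 1) (c := 2) (cn := .pnp) (n1 := ndB5q0) (n2 := ndB5q1) (pc := pcB2) (cut := Cut.none) (xt := Ext.none) (P1 := 0) (W1 := 536870912) (P2 := 536870912) (W2 := 536870912) (P3 := 991146299) (W3 := 28908434) (N0 := 3) (En := eng) (mo := mog) (C1 := cd5q0) (C2 := cd5q1) (C3 := pd2)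
    rfl k0_pp_012

noncomputable def f_pp_022 : ℕ → ℕ → ℕ → ℕ → Bool := onCell 0 536870912 1073741824 536870912 991146299 28908434
    (rowB 3 eng mog cd5q0 cd5q2 pd2 0 true true true .pp 0 2 2 (qsf 0 536870912 1073741824 536870912 2) ndB5q0 ndB5q2 pcB2 Cut.none Ext.none)

def k0_pp_022 : ∃ t, chk3 f_pp_022 t 1 1 1 = true :=
  ⟨(l 4), by decide +kernel⟩

theorem c_pp_022 : CertB 0 536870912 1073741824 536870912 991146299 28908434 3 eng mog cd5q0 cd5q2 pd2 true true true .pp 0 2 2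
    ndB5q0 ndB5q2 pcB2 Cut.none Ext.none :=
  certB0 (fam := true) (s1 := true) (s2 := true) (a := 0) (b := 2) (c := 2) (cn := .pp) (n1 := ndB5q0) (n2 := ndB5q2) (pc := pcB2) (cut := Cut.none) (xt := Ext.none) (P1 := 0) (W1 := 536870912) (P2 := 1073741824) (W2 := 536870912) (P3 := 991146299) (W3 := 28908434) (N0 := 3) (En := eng) (mo := mog) (C1 := cd5q0) (C2 := cd5q2) (C3 := pd2)
    rfl k0_pp_022

noncomputable def f_pp_023 : ℕ → ℕ → ℕ → ℕ → Bool := onCell 0 536870912 1073741824 536870912 991146299 28908434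
    (rowB 3 eng mog cd5q0 cd5q2 pd3 0 true true true .up 0 2 3 (qsf 0 536870912 1073741824 536870912 3) ndB5q0 ndB5q2 pcB3 Cut.none Ext.none)

def k0_pp_023 : ∃ t, chk3 f_pp_023 t 1 1 1 = true :=
  ⟨(l 4), by decide +kernel⟩

theorem c_pp_023 : CertB 0 536870912 1073741824 536870912 991146299 28908434 3 eng mog cd5q0 cd5q2 pd3 true true true .up 0 2 3
    ndB5q0 ndB5q2 pcB3 Cut.none Ext.none :=
  certB0 (fam := true) (s1 := true) (s2 := true) (a := 0) (b := 2) (c := 3) (cn := .up) (n1 := ndB5q0) (n2 := ndB5q2) (pc := pcB3) (cut := Cut.none) (xt := Ext.none) (P1 := 0) (W1 := 536870912) (P2 := 1073741824) (W2 := 536870912) (P3 := 991146299) (W3 := 28908434) (N0 := 3) (En := eng) (mo := mog) (C1 := cd5q0) (C2 := cd5q2) (C3 := pd3)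
    rfl k0_pp_023

noncomputable def f_pp_033 : ℕ → ℕ → ℕ → ℕ → Bool := onCell 0 536870912 0 1230186008 991146299 28908434
    (rowB 3 eng mog cd5q0 cd5q3 pd3 0 true true true .pnn 0 3 3 (qsf 0 536870912 0 1230186008 3) ndB5q0 ndB5q3 pcB3 Cut.none Ext.none)

def k0_pp_033 : ∃ t, chk3 f_pp_033 t 1 1 1 = true :=
  ⟨(l 4), by decide +kernel⟩

theorem c_pp_033 : CertB 0 536870912 0 1230186008 991146299 28908434 3 eng mog cd5q0 cd5q3 pd3 true true true .pnn 0 3 3
    ndB5q0 ndB5q3 pcB3 Cut.none Ext.none :=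
  certB0 (fam := true) (s1 := true) (s2 := true) (a := 0) (b := 3) (c := 3) (cn := .pnn) (n1 := ndB5q0) (n2 := ndB5q3) (pc := pcB3) (cut := Cut.none) (xt := Ext.none) (P1 := 0) (W1 := 536870912) (P2 := 0) (W2 := 1230186008) (P3 := 991146299) (W3 := 28908434) (N0 := 3) (En := eng) (mo := mog) (C1 := cd5q0) (C2 := cd5q3) (C3 := pd3)
    rfl k0_pp_033

noncomputable def f_pp_101 : ℕ → ℕ → ℕ → ℕ → Bool := onCell 536870912 536870912 0 536870912 991146299 28908434
    (rowB 3 eng mog cd5q1 cd5q0 pd1 0 true true true .npn 1 0 1 (qsf 536870912 536870912 0 536870912 1) ndB5q1 ndB5q0 pcB1 Cut.none Ext.none)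

def k0_pp_101 : ∃ t, chk3 f_pp_101 t 1 1 1 = true :=
  ⟨(l 4), by decide +kernel⟩

theorem c_pp_101 : CertB 536870912 536870912 0 536870912 991146299 28908434 3 eng mog cd5q1 cd5q0 pd1 true true true .npn 1 0 1
    ndB5q1 ndB5q0 pcB1 Cut.none Ext.none :=
  certB0 (fam := true) (s1 := true) (s2 := true) (a := 1) (b := 0) (c := 1) (cn := .npn) (n1 := ndB5q1) (n2 := ndB5q0) (pc := pcB1) (cut := Cut.none) (xt := Ext.none) (P1 := 536870912) (W1 := 536870912) (P2 := 0) (W2 := 536870912) (P3 := 991146299) (W3 := 28908434) (N0 := 3) (En := eng) (mo := mog) (C1 := cd5q1) (C2 := cd5q0) (C3 := pd1)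
    rfl k0_pp_101

noncomputable def f_pp_102 : ℕ → ℕ → ℕ → ℕ → Bool := onCell 536870912 536870912 0 536870912 991146299 28908434
    (rowB 3 eng mog cd5q1 cd5q0 pd2 0 true true true .npp 1 0 2 (qsf 536870912 536870912 0 536870912 2) ndB5q1 ndB5q0 pcB2 Cut.none Ext.none)

def k0_pp_102 : ∃ t, chk3 f_pp_102 t 1 1 1 = true :=
  ⟨(l 4), by decide +kernel⟩

theorem c_pp_102 : CertB 536870912 536870912 0 536870912 991146299 28908434 3 eng mog cd5q1 cd5q0 pd2 true true true .npp 1 0 2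
    ndB5q1 ndB5q0 pcB2 Cut.none Ext.none :=
  certB0 (fam := true) (s1 := true) (s2 := true) (a := 1) (b := 0) (c := 2) (cn := .npp) (n1 := ndB5q1) (n2 := ndB5q0) (pc := pcB2) (cut := Cut.none) (xt := Ext.none) (P1 := 536870912) (W1 := 536870912) (P2 := 0) (W2 := 536870912) (P3 := 991146299) (W3 := 28908434) (N0 := 3) (En := eng) (mo := mog) (C1 := cd5q1) (C2 := cd5q0) (C3 := pd2)
    rfl k0_pp_102

noncomputable def f_pp_112 : ℕ → ℕ → ℕ → ℕ → Bool := onCell 536870912 536870912 536870912 536870912 991146299 28908434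
    (rowB 3 eng mog cd5q1 cd5q1 pd2 0 true true true .dn 1 1 2 (qsf 536870912 536870912 536870912 536870912 2) ndB5q1 ndB5q1 pcB2 Cut.none Ext.none)

def k0_pp_112 : ∃ t, chk3 f_pp_112 t 1 1 1 = true :=
  ⟨(l 4), by decide +kernel⟩

theorem c_pp_112 : CertB 536870912 536870912 536870912 536870912 991146299 28908434 3 eng mog cd5q1 cd5q1 pd2 true true true .dn 1 1 2
    ndB5q1 ndB5q1 pcB2 Cut.none Ext.none :=
  certB0 (fam := true) (s1 := true) (s2 := true) (a := 1) (b := 1) (c := 2) (cn := .dn) (n1 := ndB5q1) (n2 := ndB5q1) (pc := pcB2) (cut := Cut.none) (xt := Ext.none) (P1 := 536870912) (W1 := 536870912) (P2 := 536870912) (W2 := 536870912) (P3 := 991146299) (W3 := 28908434) (N0 := 3) (En := eng) (mo := mog) (C1 := cd5q1) (C2 := cd5q1) (C3 := pd2)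
    rfl k0_pp_112

noncomputable def f_pp_113 : ℕ → ℕ → ℕ → ℕ → Bool := onCell 536870912 536870912 536870912 536870912 991146299 28908434
    (rowB 3 eng mog cd5q1 cd5q1 pd3 0 true true true .nn 1 1 3 (qsf 536870912 536870912 536870912 536870912 3) ndB5q1 ndB5q1 pcB3 Cut.none Ext.none)

def k0_pp_113 : ∃ t, chk3 f_pp_113 t 1 1 1 = true :=
  ⟨(l 4), by decide +kernel⟩

theorem c_pp_113 : CertB 536870912 536870912 536870912 536870912 991146299 28908434 3 eng mog cd5q1 cd5q1 pd3 true true true .nn 1 1 3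
    ndB5q1 ndB5q1 pcB3 Cut.none Ext.none :=
  certB0 (fam := true) (s1 := true) (s2 := true) (a := 1) (b := 1) (c := 3) (cn := .nn) (n1 := ndB5q1) (n2 := ndB5q1) (pc := pcB3) (cut := Cut.none) (xt := Ext.none) (P1 := 536870912) (W1 := 536870912) (P2 := 536870912) (W2 := 536870912) (P3 := 991146299) (W3 := 28908434) (N0 := 3) (En := eng) (mo := mog) (C1 := cd5q1) (C2 := cd5q1) (C3 := pd3)
    rfl k0_pp_113

noncomputable def f_pp_123 : ℕ → ℕ → ℕ → ℕ → Bool := onCell 536870912 536870912 1073741824 536870912 991146299 28908434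
    (rowB 3 eng mog cd5q1 cd5q2 pd3 0 true true true .npn 1 2 3 (qsf 536870912 536870912 1073741824 536870912 3) ndB5q1 ndB5q2 pcB3 Cut.none Ext.none)

def k0_pp_123 : ∃ t, chk3 f_pp_123 t 1 1 1 = true :=
  ⟨(l 4), by decide +kernel⟩

theorem c_pp_123 : CertB 536870912 536870912 1073741824 536870912 991146299 28908434 3 eng mog cd5q1 cd5q2 pd3 true true true .npn 1 2 3
    ndB5q1 ndB5q2 pcB3 Cut.none Ext.none :=
  certB0 (fam := true) (s1 := true) (s2 := true) (a := 1) (b := 2) (c := 3) (cn := .npn) (n1 := ndB5q1) (n2 := ndB5q2) (pc := pcB3) (cut := Cut.none) (xt := Ext.none) (P1 := 536870912) (W1 := 536870912) (P2 := 1073741824) (W2 := 536870912) (P3 := 991146299) (W3 := 28908434) (N0 := 3) (En := eng) (mo := mog) (C1 := cd5q1) (C2 := cd5q2) (C3 := pd3)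
    rfl k0_pp_123

noncomputable def f_pp_133 : ℕ → ℕ → ℕ → ℕ → Bool := onCell 536870912 536870912 0 1230186008 991146299 28908434
    (rowB 3 eng mog cd5q1 cd5q3 pd3 0 true true true .dn 1 3 3 (qsf 536870912 536870912 0 1230186008 3) ndB5q1 ndB5q3 pcB3 Cut.none Ext.none)

def k0_pp_133 : ∃ t, chk3 f_pp_133 t 1 1 1 = true :=
  ⟨(l 4), by decide +kernel⟩

theorem c_pp_133 : CertB 536870912 536870912 0 1230186008 991146299 28908434 3 eng mog cd5q1 cd5q3 pd3 true true true .dn 1 3 3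
    ndB5q1 ndB5q3 pcB3 Cut.none Ext.none :=
  certB0 (fam := true) (s1 := true) (s2 := true) (a := 1) (b := 3) (c := 3) (cn := .dn) (n1 := ndB5q1) (n2 := ndB5q3) (pc := pcB3) (cut := Cut.none) (xt := Ext.none) (P1 := 536870912) (W1 := 536870912) (P2 := 0) (W2 := 1230186008) (P3 := 991146299) (W3 := 28908434) (N0 := 3) (En := eng) (mo := mog) (C1 := cd5q1) (C2 := cd5q3) (C3 := pd3)
    rfl k0_pp_133

noncomputable def f_pp_202 : ℕ → ℕ → ℕ → ℕ → Bool := onCell 1073741824 536870912 0 536870912 991146299 28908434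
    (rowB 3 eng mog cd5q2 cd5q0 pd2 0 true true true .pp 2 0 2 (qsf 1073741824 536870912 0 536870912 2) ndB5q2 ndB5q0 pcB2 Cut.none Ext.none)

def k0_pp_202 : ∃ t, chk3 f_pp_202 t 1 1 1 = true :=
  ⟨(l 4), by decide +kernel⟩

theorem c_pp_202 : CertB 1073741824 536870912 0 536870912 991146299 28908434 3 eng mog cd5q2 cd5q0 pd2 true true true .pp 2 0 2
    ndB5q2 ndB5q0 pcB2 Cut.none Ext.none :=
  certB0 (fam := true) (s1 := true) (s2 := true) (a := 2) (b := 0) (c := 2) (cn := .pp) (n1 := ndB5q2) (n2 := ndB5q0) (pc := pcB2) (cut := Cut.none) (xt := Ext.none) (P1 := 1073741824) (W1 := 536870912) (P2 := 0) (W2 := 536870912) (P3 := 991146299) (W3 := 28908434) (N0 := 3) (En := eng) (mo := mog) (C1 := cd5q2) (C2 := cd5q0) (C3 := pd2)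
    rfl k0_pp_202

noncomputable def f_pp_203 : ℕ → ℕ → ℕ → ℕ → Bool := onCell 1073741824 536870912 0 536870912 991146299 28908434
    (rowB 3 eng mog cd5q2 cd5q0 pd3 0 true true true .up 2 0 3 (qsf 1073741824 536870912 0 536870912 3) ndB5q2 ndB5q0 pcB3 Cut.none Ext.none)

def k0_pp_203 : ∃ t, chk3 f_pp_203 t 1 1 1 = true :=
  ⟨(l 4), by decide +kernel⟩

theorem c_pp_203 : CertB 1073741824 536870912 0 536870912 991146299 28908434 3 eng mog cd5q2 cd5q0 pd3 true true true .up 2 0 3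
    ndB5q2 ndB5q0 pcB3 Cut.none Ext.none :=
  certB0 (fam := true) (s1 := true) (s2 := true) (a := 2) (b := 0) (c := 3) (cn := .up) (n1 := ndB5q2) (n2 := ndB5q0) (pc := pcB3) (cut := Cut.none) (xt := Ext.none) (P1 := 1073741824) (W1 := 536870912) (P2 := 0) (W2 := 536870912) (P3 := 991146299) (W3 := 28908434) (N0 := 3) (En := eng) (mo := mog) (C1 := cd5q2) (C2 := cd5q0) (C3 := pd3)
    rfl k0_pp_203

noncomputable def f_pp_213 : ℕ → ℕ → ℕ → ℕ → Bool := onCell 1073741824 536870912 536870912 536870912 991146299 28908434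
    (rowB 3 eng mog cd5q2 cd5q1 pd3 0 true true true .pnn 2 1 3 (qsf 1073741824 536870912 536870912 536870912 3) ndB5q2 ndB5q1 pcB3 Cut.none Ext.none)

def k0_pp_213 : ∃ t, chk3 f_pp_213 t 1 1 1 = true :=
  ⟨(l 4), by decide +kernel⟩

theorem c_pp_213 : CertB 1073741824 536870912 536870912 536870912 991146299 28908434 3 eng mog cd5q2 cd5q1 pd3 true true true .pnn 2 1 3
    ndB5q2 ndB5q1 pcB3 Cut.none Ext.none :=
  certB0 (fam := true) (s1 := true) (s2 := true) (a := 2) (b := 1) (c := 3) (cn := .pnn) (n1 := ndB5q2) (n2 := ndB5q1) (pc := pcB3) (cut := Cut.none) (xt := Ext.none) (P1 := 1073741824) (W1 := 536870912) (P2 := 536870912) (W2 := 536870912) (P3 := 991146299) (W3 := 28908434) (N0 := 3) (En := eng) (mo := mog) (C1 := cd5q2) (C2 := cd5q1) (C3 := pd3)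
    rfl k0_pp_213

noncomputable def f_pp_303 : ℕ → ℕ → ℕ → ℕ → Bool := onCell 0 1230186008 0 536870912 991146299 28908434
    (rowB 3 eng mog cd5q3 cd5q0 pd3 0 true true true .npn 3 0 3 (qsf 0 1230186008 0 536870912 3) ndB5q3 ndB5q0 pcB3 Cut.none Ext.none)

def k0_pp_303 : ∃ t, chk3 f_pp_303 t 1 1 1 = true :=
  ⟨(l 4), by decide +kernel⟩

theorem c_pp_303 : CertB 0 1230186008 0 536870912 991146299 28908434 3 eng mog cd5q3 cd5q0 pd3 true true true .npn 3 0 3
    ndB5q3 ndB5q0 pcB3 Cut.none Ext.none :=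
  certB0 (fam := true) (s1 := true) (s2 := true) (a := 3) (b := 0) (c := 3) (cn := .npn) (n1 := ndB5q3) (n2 := ndB5q0) (pc := pcB3) (cut := Cut.none) (xt := Ext.none) (P1 := 0) (W1 := 1230186008) (P2 := 0) (W2 := 536870912) (P3 := 991146299) (W3 := 28908434) (N0 := 3) (En := eng) (mo := mog) (C1 := cd5q3) (C2 := cd5q0) (C3 := pd3)
    rfl k0_pp_303

noncomputable def f_pp_313 : ℕ → ℕ → ℕ → ℕ → Bool := onCell 0 1230186008 536870912 536870912 991146299 28908434
    (rowB 3 eng mog cd5q3 cd5q1 pd3 0 true true true .dn 3 1 3 (qsf 0 1230186008 536870912 536870912 3) ndB5q3 ndB5q1 pcB3 Cut.none Ext.none)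

def k0_pp_313 : ∃ t, chk3 f_pp_313 t 1 1 1 = true :=
  ⟨(l 4), by decide +kernel⟩

theorem c_pp_313 : CertB 0 1230186008 536870912 536870912 991146299 28908434 3 eng mog cd5q3 cd5q1 pd3 true true true .dn 3 1 3
    ndB5q3 ndB5q1 pcB3 Cut.none Ext.none :=
  certB0 (fam := true) (s1 := true) (s2 := true) (a := 3) (b := 1) (c := 3) (cn := .dn) (n1 := ndB5q3) (n2 := ndB5q1) (pc := pcB3) (cut := Cut.none) (xt := Ext.none) (P1 := 0) (W1 := 1230186008) (P2 := 536870912) (W2 := 536870912) (P3 := 991146299) (W3 := 28908434) (N0 := 3) (En := eng) (mo := mog) (C1 := cd5q3) (C2 := cd5q1) (C3 := pd3)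
    rfl k0_pp_313

noncomputable def f_pm_001 : ℕ → ℕ → ℕ → ℕ → Bool := onCell 0 536870912 0 536870912 991146299 28908434
    (rowB 3 eng mog cd5q0 cd5q0 pd1 0 true true false .up 0 0 1 (qsf 0 536870912 0 536870912 1) ndB5q0 ndB5q0 pcB1 Cut.none Ext.none)

def k0_pm_001 : ∃ t, chk3 f_pm_001 t 1 1 1 = true :=
  ⟨(l 3), by decide +kernel⟩

theorem c_pm_001 : CertB 0 536870912 0 536870912 991146299 28908434 3 eng mog cd5q0 cd5q0 pd1 true true false .up 0 0 1
    ndB5q0 ndB5q0 pcB1 Cut.none Ext.none :=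
  certB0 (fam := true) (s1 := true) (s2 := false) (a := 0) (b := 0) (c := 1) (cn := .up) (n1 := ndB5q0) (n2 := ndB5q0) (pc := pcB1) (cut := Cut.none) (xt := Ext.none) (P1 := 0) (W1 := 536870912) (P2 := 0) (W2 := 536870912) (P3 := 991146299) (W3 := 28908434) (N0 := 3) (En := eng) (mo := mog) (C1 := cd5q0) (C2 := cd5q0) (C3 := pd1)
    rfl k0_pm_001

noncomputable def f_pm_011 : ℕ → ℕ → ℕ → ℕ → Bool := onCell 0 536870912 536870912 536870912 991146299 28908434
    (rowB 3 eng mog cd5q0 cd5q1 pd1 1 true true false .pnn 0 1 1 (qsf 0 536870912 536870912 536870912 1) ndB5q0 ndB5q1 pcB1 Cut.none Ext.none)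

def k0_pm_011 : ∃ t, chk3 f_pm_011 t 1 1 1 = true :=
  ⟨(l 3), by decide +kernel⟩

theorem c_pm_011 : CertB 0 536870912 536870912 536870912 991146299 28908434 3 eng mog cd5q0 cd5q1 pd1 true true false .pnn 0 1 1
    ndB5q0 ndB5q1 pcB1 Cut.none Ext.none :=
  certB1 (fam := true) (s1 := true) (s2 := false) (a := 0) (b := 1) (c := 1) (cn := .pnn) (n1 := ndB5q0) (n2 := ndB5q1) (pc := pcB1) (cut := Cut.none) (xt := Ext.none) (P1 := 0) (W1 := 536870912) (P2 := 536870912) (W2 := 536870912) (P3 := 991146299) (W3 := 28908434) (N0 := 3) (En := eng) (mo := mog) (C1 := cd5q0) (C2 := cd5q1) (C3 := pd1)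
    rfl (fun _ => rfl) k0_pm_011

noncomputable def f_pm_012 : ℕ → ℕ → ℕ → ℕ → Bool := onCell 1073741824 536870912 536870912 536870912 991146299 28908434
    (rowB 3 eng mog cd5q0 cd5q1 pd2 2 true true false .pnp 0 1 2 (qsf 0 536870912 536870912 536870912 2) ndB5q0 ndB5q1 pcB2 Cut.none Ext.none)

def k0_pm_012 : ∃ t, chk3 f_pm_012 t 1 1 1 = true :=
  ⟨(a (a (b (l 3) (a (l 3) (b (l 3) (a (l 3) (b (l 3) (a (l 3) (l 13941664))))))) (a (a (a (b (l 3) (b (l 14512072) (b (l 14304800) (l 13949480)))) (b (b (l 2) (a (l 3) (a (l 15028264) (l 15020248)))) (b (a (l 14711632) (a (l 14706160) (l 14703432))) (a (b (l 14303360) (l 13957176)) (a (b (l 14303592) (l 13965384)) (b (l 14308344) (l 13977312))))))) (b (b (l 2) (l 14977208)) (b (l 14678952) (b (l 14304928) (l 13984896))))) (b (b (l 2) (b (l 14901992) (l 14834360))) (b (b (l 14707752) (l 14521320)) (b (l 14274912) (l 13983640)))))) (b (a (b (l 2) (b (l 2) (a (l 14683048) (l 2)))) (l 2)) (b (a (b (a (l 14586872)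 (l 14442632)) (a (l 14430072) (l 14315096))) (b (l 2) (a (l 14178616) (l 2)))) (a (b (a (l 14215760) (l 14130128)) (a (l 13961016) (l 13909288))) (b (a (l 14020456) (l 13891224)) (a (l 13830504) (l 13728200))))))), by decide +kernel⟩

theorem c_pm_012 : CertB 0 536870912 536870912 536870912 991146299 28908434 3 eng mog cd5q0 cd5q1 pd2 true true false .pnp 0 1 2
    ndB5q0 ndB5q1 pcB2 Cut.none Ext.none :=
  certB2 (fam := true) (s1 := true) (s2 := false) (a := 0) (b := 1) (c := 2) (cn := .pnp) (n1 := ndB5q0) (n2 := ndB5q1) (pc := pcB2) (cut := Cut.none) (xt := Ext.none) (P1 := 0) (W1 := 536870912) (P2 := 536870912) (W2 := 536870912) (P3 := 991146299) (W3 := 28908434) (N0 := 3) (En := eng) (mo := mog) (C1 := cd5q0) (C2 := cd5q1) (C3 := pd2)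
    rfl (fun _ => rfl) k0_pm_012

noncomputable def f_pm_022 : ℕ → ℕ → ℕ → ℕ → Bool := onCell 1073741824 536870912 1073741824 536870912 991146299 28908434
    (rowB 3 eng mog cd5q0 cd5q2 pd2 2 true true false .pp 0 2 2 (qsf 0 536870912 1073741824 536870912 2) ndB5q0 ndB5q2 pcB2 Cut.none Ext.none)

def k0_pm_022 : ∃ t, chk3 f_pm_022 t 1 1 1 = true :=
  ⟨(a (a (b (a (l 3) (b (a (l 3) (b (a (l 3) (l 13956400)) (a (b (l 14234080) (l 14418752)) (l 14330968)))) (a (l 1) (b (a (l 1) (l 14696512)) (l 1))))) (l 1)) (b (b (b (a (a (a (a (l 13970080) (l 13980904)) (a (l 13996200) (l 14023000))) (l 14046248)) (l 14076040)) (a (a (a (l 14385352) (l 14433240)) (l 14480984)) (l 14538512))) (a (a (b (a (l 14749272) (a (l 14789680) (l 14804192))) (l 1)) (b (l 14845832) (l 15074128))) (b (l 14918696) (l 15146352)))) (b (a (l 1) (b (l 15300488) (l 1))) (l 1)))) (b (b (a (b (l 14040048) (l 14601488)) (b (l 14006608) (a (l 14619416) (l 14594824)))) (a (b (a (l 14989976)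 (l 15027160)) (l 15229600)) (b (l 15020000) (l 15253920)))) (b (a (b (l 15383024) (l 15479824)) (b (l 15412160) (l 15508920))) (a (b (l 15525176) (l 1)) (b (l 15556832) (l 15427904)))))), by decide +kernel⟩

theorem c_pm_022 : CertB 0 536870912 1073741824 536870912 991146299 28908434 3 eng mog cd5q0 cd5q2 pd2 true true false .pp 0 2 2
    ndB5q0 ndB5q2 pcB2 Cut.none Ext.none :=
  certB2 (fam := true) (s1 := true) (s2 := false) (a := 0) (b := 2) (c := 2) (cn := .pp) (n1 := ndB5q0) (n2 := ndB5q2) (pc := pcB2) (cut := Cut.none) (xt := Ext.none) (P1 := 0) (W1 := 536870912) (P2 := 1073741824) (W2 := 536870912) (P3 := 991146299) (W3 := 28908434) (N0 := 3) (En := eng) (mo := mog) (C1 := cd5q0) (C2 := cd5q2) (C3 := pd2)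
    rfl (fun _ => rfl) k0_pm_022

noncomputable def f_pm_023 : ℕ → ℕ → ℕ → ℕ → Bool := onCell 1610612736 536870912 1073741824 536870912 991146299 28908434
    (rowB 3 eng mog cd5q0 cd5q2 pd3 2 true true false .up 0 2 3 (qsf 0 536870912 1073741824 536870912 3) ndB5q0 ndB5q2 pcB3 Cut.none Ext.none)

def k0_pm_023 : ∃ t, chk3 f_pm_023 t 1 1 1 = true :=
  ⟨(a (b (b (a (b (a (l 14030328) (l 13911496)) (a (l 14792848) (l 14693224))) (b (l 2) (a (l 14600072) (l 2)))) (a (a (l 15269936) (l 15131680)) (a (b (l 15052560) (l 15327336)) (b (l 15002976) (l 15292264))))) (a (b (b (l 15599888) (a (l 15726128) (l 15679560))) (a (l 15664320) (l 15877184))) (b (a (b (l 15498624) (l 15680960)) (b (l 15519672) (l 15734312))) (b (l 15873488) (l 16007016))))) (b (a (b (l 2) (a (b (l 2) (l 15347528)) (l 2))) (l 2)) (a (b (a (b (l 15627808) (l 15863592)) (l 15974896)) (a (l 16129680) (l 16392536))) (b (a (a (l 16251696) (l 2)) (l 2)) (a (a (l 16580928) (l 16739352)) (a (l 16689384)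 (l 4))))))), by decide +kernel⟩

theorem c_pm_023 : CertB 0 536870912 1073741824 536870912 991146299 28908434 3 eng mog cd5q0 cd5q2 pd3 true true false .up 0 2 3
    ndB5q0 ndB5q2 pcB3 Cut.none Ext.none :=
  certB2 (fam := true) (s1 := true) (s2 := false) (a := 0) (b := 2) (c := 3) (cn := .up) (n1 := ndB5q0) (n2 := ndB5q2) (pc := pcB3) (cut := Cut.none) (xt := Ext.none) (P1 := 0) (W1 := 536870912) (P2 := 1073741824) (W2 := 536870912) (P3 := 991146299) (W3 := 28908434) (N0 := 3) (En := eng) (mo := mog) (C1 := cd5q0) (C2 := cd5q2) (C3 := pd3)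
    rfl (fun _ => rfl) k0_pm_023

noncomputable def f_pm_033 : ℕ → ℕ → ℕ → ℕ → Bool := onCell 1610612736 536870912 0 1230186008 991146299 28908434
    (rowB 3 eng mog cd5q0 cd5q3 pd3 2 true true false .pnn 0 3 3 (qsf 0 536870912 0 1230186008 3) ndB5q0 ndB5q3 pcB3 Cut.none Ext.none)

def k0_pm_033 : ∃ t, chk3 f_pm_033 t 1 1 1 = true :=
  ⟨(b (a (l 1) (l 4)) (b (a (a (l 1) (a (l 1) (b (l 1) (l 16656856)))) (l 4)) (a (a (b (l 1) (b (l 16065424) (l 16014760))) (b (a (b (l 16362064) (l 16208752)) (l 16448408)) (a (l 16103864) (b (l 16274440) (l 16161776))))) (b (a (a (l 16666072) (l 16730048)) (l 4)) (a (a (b (l 16457256) (l 16373728)) (l 16607360)) (a (l 16696256) (l 4))))))), by decide +kernel⟩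

theorem c_pm_033 : CertB 0 536870912 0 1230186008 991146299 28908434 3 eng mog cd5q0 cd5q3 pd3 true true false .pnn 0 3 3
    ndB5q0 ndB5q3 pcB3 Cut.none Ext.none :=
  certB2 (fam := true) (s1 := true) (s2 := false) (a := 0) (b := 3) (c := 3) (cn := .pnn) (n1 := ndB5q0) (n2 := ndB5q3) (pc := pcB3) (cut := Cut.none) (xt := Ext.none) (P1 := 0) (W1 := 536870912) (P2 := 0) (W2 := 1230186008) (P3 := 991146299) (W3 := 28908434) (N0 := 3) (En := eng) (mo := mog) (C1 := cd5q0) (C2 := cd5q3) (C3 := pd3)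
    rfl (fun _ => rfl) k0_pm_033

noncomputable def f_pm_101 : ℕ → ℕ → ℕ → ℕ → Bool := onCell 536870912 536870912 536870912 536870912 991146299 28908434
    (rowB 3 eng mog cd5q1 cd5q0 pd1 1 true true false .npn 1 0 1 (qsf 536870912 536870912 0 536870912 1) ndB5q1 ndB5q0 pcB1 Cut.none Ext.none)

def k0_pm_101 : ∃ t, chk3 f_pm_101 t 1 1 1 = true :=
  ⟨(l 3), by decide +kernel⟩

theorem c_pm_101 : CertB 536870912 536870912 0 536870912 991146299 28908434 3 eng mog cd5q1 cd5q0 pd1 true true false .npn 1 0 1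
    ndB5q1 ndB5q0 pcB1 Cut.none Ext.none :=
  certB1 (fam := true) (s1 := true) (s2 := false) (a := 1) (b := 0) (c := 1) (cn := .npn) (n1 := ndB5q1) (n2 := ndB5q0) (pc := pcB1) (cut := Cut.none) (xt := Ext.none) (P1 := 536870912) (W1 := 536870912) (P2 := 0) (W2 := 536870912) (P3 := 991146299) (W3 := 28908434) (N0 := 3) (En := eng) (mo := mog) (C1 := cd5q1) (C2 := cd5q0) (C3 := pd1)
    rfl (fun _ => rfl) k0_pm_101

noncomputable def f_pm_102 : ℕ → ℕ → ℕ → ℕ → Bool := onCell 536870912 536870912 1073741824 536870912 991146299 28908434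
    (rowB 3 eng mog cd5q1 cd5q0 pd2 1 true true false .npp 1 0 2 (qsf 536870912 536870912 0 536870912 2) ndB5q1 ndB5q0 pcB2 Cut.none Ext.none)

def k0_pm_102 : ∃ t, chk3 f_pm_102 t 1 1 1 = true :=
  ⟨(a (b (b (l 3) (b (b (b (l 3) (a (l 2) (b (l 3) (b (l 15028264) (l 15020248))))) (a (l 2) (l 14977208))) (a (l 2) (a (l 14901992) (l 14834360))))) (a (l 2) (b (a (l 2) (b (l 14683048) (l 2))) (l 2)))) (b (b (b (l 3) (a (l 3) (b (l 3) (a (l 3) (b (l 3) (l 13941664)))))) (a (b (b (b (l 14554016) (b (l 14711632) (b (l 14706160) (l 14703432)))) (l 14678952)) (a (l 14707752) (l 14521320))) (b (b (b (a (l 14304800) (l 13949480)) (b (a (l 14303360) (l 13957176)) (b (a (l 14303592) (l 13965384)) (a (l 14308344) (l 13977312))))) (a (l 14304928) (l 13984896))) (a (l 14274912) (l 13983640))))) (a (b (a (b (l 14586872) (l 14442632)) (b (l 14430072) (l 14315096))) (a (l 2) (b (l 14178616) (l 2)))) (b (a (b (l 14215760) (l 14130128)) (b (l 13961016) (l 13909288))) (a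 (b (l 14020456) (l 13891224)) (b (l 13830504) (l 13728200))))))), by decide +kernel⟩

theorem c_pm_102 : CertB 536870912 536870912 0 536870912 991146299 28908434 3 eng mog cd5q1 cd5q0 pd2 true true false .npp 1 0 2
    ndB5q1 ndB5q0 pcB2 Cut.none Ext.none :=
  certB1 (fam := true) (s1 := true) (s2 := false) (a := 1) (b := 0) (c := 2) (cn := .npp) (n1 := ndB5q1) (n2 := ndB5q0) (pc := pcB2) (cut := Cut.none) (xt := Ext.none) (P1 := 536870912) (W1 := 536870912) (P2 := 0) (W2 := 536870912) (P3 := 991146299) (W3 := 28908434) (N0 := 3) (En := eng) (mo := mog) (C1 := cd5q1) (C2 := cd5q0) (C3 := pd2)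
    rfl (fun _ => rfl) k0_pm_102

noncomputable def f_pm_112 : ℕ → ℕ → ℕ → ℕ → Bool := onCell 536870912 536870912 1073741824 536870912 991146299 28908434
    (rowB 3 eng mog cd5q1 cd5q1 pd2 1 true true false .dn 1 1 2 (qsf 536870912 536870912 536870912 536870912 2) ndB5q1 ndB5q1 pcB2 Cut.none Ext.none)

def k0_pm_112 : ∃ t, chk3 f_pm_112 t 1 1 1 = true :=
  ⟨(b (b (a (l 3) (l 1)) (a (b (b (b (l 3) (b (l 3) (a (b (l 3) (l 15117848)) (b (l 15038712) (l 15030784))))) (a (l 15064536) (l 14993664))) (a (l 14914112) (l 14885952))) (a (b (l 1) (l 14629104)) (l 1)))) (a (a (b (a (l 14527376) (l 14615664)) (a (b (l 14111824) (l 13819008)) (b (l 14250352) (l 13974280)))) (b (l 14632592) (l 14229640))) (a (b (a (l 14528400) (l 14384440)) (a (l 14208512) (l 14117840))) (b (a (l 14183792) (l 1)) (a (l 13968016) (l 13789768)))))), by decide +kernel⟩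

theorem c_pm_112 : CertB 536870912 536870912 536870912 536870912 991146299 28908434 3 eng mog cd5q1 cd5q1 pd2 true true false .dn 1 1 2
    ndB5q1 ndB5q1 pcB2 Cut.none Ext.none :=
  certB1 (fam := true) (s1 := true) (s2 := false) (a := 1) (b := 1) (c := 2) (cn := .dn) (n1 := ndB5q1) (n2 := ndB5q1) (pc := pcB2) (cut := Cut.none) (xt := Ext.none) (P1 := 536870912) (W1 := 536870912) (P2 := 536870912) (W2 := 536870912) (P3 := 991146299) (W3 := 28908434) (N0 := 3) (En := eng) (mo := mog) (C1 := cd5q1) (C2 := cd5q1) (C3 := pd2)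
    rfl (fun _ => rfl) k0_pm_112

noncomputable def f_pm_113 : ℕ → ℕ → ℕ → ℕ → Bool := onCell 536870912 536870912 536870912 536870912 991146299 28908434
    (rowB 3 eng mog cd5q1 cd5q1 pd3 0 true true false .nn 1 1 3 (qsf 536870912 536870912 536870912 536870912 3) ndB5q1 ndB5q1 pcB3 Cut.none Ext.none)

def k0_pm_113 : ∃ t, chk3 f_pm_113 t 1 1 1 = true :=
  ⟨(a (b (a (l 1) (b (l 1) (l 14442024))) (b (a (b (l 1) (l 512202660551)) (l 405901890775)) (a (b (a (l 13934048) (l 13792008)) (l 13635520)) (b (a (l 13658584) (l 13542664)) (a (l 13431792) (l 13329928)))))) (b (a (b (a (l 1) (l 13926224)) (l 385500796119)) (b (a (b (l 13934048) (l 13792008)) (l 13635520)) (a (b (l 13658584) (l 13542664)) (b (l 13431792) (l 13329928))))) (a (b (l 13661224) (b (a (l 13461680) (l 13451016)) (a (l 13322608) (l 13507496)))) (b (a (b (l 13461680) (l 13451016)) (b (l 13322608) (l 13507496))) (b (a (l 13609792) (l 14209248)) (a (l 14209248) (b (l 15872728) (a (l 16854720)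 (b (l 16871192) (a (l 16822088) (b (l 16825712) (a (l 16801112) (b (l 16801848) (a (l 16789512) (b (l 16789632) (a (l 16783448) (l 16783352))))))))))))))))), by decide +kernel⟩

theorem c_pm_113 : CertB 536870912 536870912 536870912 536870912 991146299 28908434 3 eng mog cd5q1 cd5q1 pd3 true true false .nn 1 1 3
    ndB5q1 ndB5q1 pcB3 Cut.none Ext.none :=
  certB0 (fam := true) (s1 := true) (s2 := false) (a := 1) (b := 1) (c := 3) (cn := .nn) (n1 := ndB5q1) (n2 := ndB5q1) (pc := pcB3) (cut := Cut.none) (xt := Ext.none) (P1 := 536870912) (W1 := 536870912) (P2 := 536870912) (W2 := 536870912) (P3 := 991146299) (W3 := 28908434) (N0 := 3) (En := eng) (mo := mog) (C1 := cd5q1) (C2 := cd5q1) (C3 := pd3)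
    rfl k0_pm_113

noncomputable def f_pm_123 : ℕ → ℕ → ℕ → ℕ → Bool := onCell 1610612736 536870912 1073741824 536870912 991146299 28908434
    (rowB 3 eng mog cd5q1 cd5q2 pd3 2 true true false .npn 1 2 3 (qsf 536870912 536870912 1073741824 536870912 3) ndB5q1 ndB5q2 pcB3 Cut.none Ext.none)

def k0_pm_123 : ∃ t, chk3 f_pm_123 t 1 1 1 = true :=
  ⟨(a (b (b (a (b (l 13832496) (a (l 14798048) (l 14698560))) (b (a (l 13819528) (l 13762600)) (a (l 14605864) (l 14547712)))) (a (b (l 15197240) (l 1)) (a (l 15203184) (l 14951264)))) (a (l 1) (b (a (l 1) (b (l 15519528) (l 1))) (l 1)))) (b (a (b (a (b (l 13806520) (l 14570040)) (b (l 14075104) (l 14746360))) (a (b (l 15033144) (l 15347176)) (l 15510232))) (b (a (b (a (l 14570232) (l 15209760)) (a (l 15066016) (l 15415472))) (a (b (l 16317600) (l 15912464)) (a (l 16145392) (a (l 16431048) (a (l 16598408) (b (l 16775480) (l 16738216))))))) (a (a (l 15674968) (l 15940312)) (a (a (l 16192600) (l 16403936)) (a (l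 16599632) (a (l 16749664) (a (l 16720896) (l 16674960)))))))) (a (b (a (b (l 15626520) (l 15861720)) (l 15966736)) (a (l 1) (l 16383800))) (b (a (a (l 16241960) (l 16441408)) (a (l 16647888) (a (l 16721384) (l 4)))) (a (a (l 16573008) (l 16730144)) (a (l 16707672) (l 4))))))), by decide +kernel⟩

theorem c_pm_123 : CertB 536870912 536870912 1073741824 536870912 991146299 28908434 3 eng mog cd5q1 cd5q2 pd3 true true false .npn 1 2 3
    ndB5q1 ndB5q2 pcB3 Cut.none Ext.none :=
  certB2 (fam := true) (s1 := true) (s2 := false) (a := 1) (b := 2) (c := 3) (cn := .npn) (n1 := ndB5q1) (n2 := ndB5q2) (pc := pcB3) (cut := Cut.none) (xt := Ext.none) (P1 := 536870912) (W1 := 536870912) (P2 := 1073741824) (W2 := 536870912) (P3 := 991146299) (W3 := 28908434) (N0 := 3) (En := eng) (mo := mog) (C1 := cd5q1) (C2 := cd5q2) (C3 := pd3)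
    rfl (fun _ => rfl) k0_pm_123

noncomputable def f_pm_133 : ℕ → ℕ → ℕ → ℕ → Bool := onCell 536870912 536870912 0 1230186008 991146299 28908434
    (rowB 3 eng mog cd5q1 cd5q3 pd3 0 true true false .dn 1 3 3 (qsf 536870912 536870912 0 1230186008 3) ndB5q1 ndB5q3 pcB3 Cut.none Ext.none)

def k0_pm_133 : ∃ t, chk3 f_pm_133 t 1 1 1 = true :=
  ⟨(b (l 2) (b (l 2) (l 4))), by decide +kernel⟩

theorem c_pm_133 : CertB 536870912 536870912 0 1230186008 991146299 28908434 3 eng mog cd5q1 cd5q3 pd3 true true false .dn 1 3 3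
    ndB5q1 ndB5q3 pcB3 Cut.none Ext.none :=
  certB0 (fam := true) (s1 := true) (s2 := false) (a := 1) (b := 3) (c := 3) (cn := .dn) (n1 := ndB5q1) (n2 := ndB5q3) (pc := pcB3) (cut := Cut.none) (xt := Ext.none) (P1 := 536870912) (W1 := 536870912) (P2 := 0) (W2 := 1230186008) (P3 := 991146299) (W3 := 28908434) (N0 := 3) (En := eng) (mo := mog) (C1 := cd5q1) (C2 := cd5q3) (C3 := pd3)
    rfl k0_pm_133

noncomputable def f_pm_202 : ℕ → ℕ → ℕ → ℕ → Bool := onCell 1073741824 536870912 1073741824 536870912 991146299 28908434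
    (rowB 3 eng mog cd5q2 cd5q0 pd2 1 true true false .pp 2 0 2 (qsf 1073741824 536870912 0 536870912 2) ndB5q2 ndB5q0 pcB2 Cut.none Ext.none)

def k0_pm_202 : ∃ t, chk3 f_pm_202 t 1 1 1 = true :=
  ⟨(b (b (a (b (l 3) (a (b (l 3) (a (b (l 3) (l 13956400)) (b (a (l 14234080) (l 14418752)) (l 14330968)))) (b (l 1) (a (b (l 1) (l 14696512)) (l 1))))) (l 1)) (a (a (a (b (b (b (b (l 13970080) (l 13980904)) (b (l 13996200) (l 14023000))) (l 14046248)) (l 14076040)) (b (b (b (l 14385352) (l 14433240)) (l 14480984)) (l 14538512))) (b (b (a (b (l 14749272) (b (l 14789680) (l 14804192))) (l 1)) (a (l 14845832) (l 15074128))) (a (l 14918696) (l 15146352)))) (a (b (l 1) (a (l 15300488) (l 1))) (l 1)))) (a (a (b (a (l 14061016) (l 14601488)) (a (l 14006608) (b (l 14619416) (l 14594824)))) (b (a (b (l 14989976) (l 15027160)) (l 15229600)) (a (l 15020000) (l 15253920)))) (a (b (a (l 15383024) (l 15479824)) (a (l 15412160) (l 15508920))) (a (b (l 15525176) (l 15493920))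 (b (l 1) (l 241085727527)))))), by decide +kernel⟩

theorem c_pm_202 : CertB 1073741824 536870912 0 536870912 991146299 28908434 3 eng mog cd5q2 cd5q0 pd2 true true false .pp 2 0 2
    ndB5q2 ndB5q0 pcB2 Cut.none Ext.none :=
  certB1 (fam := true) (s1 := true) (s2 := false) (a := 2) (b := 0) (c := 2) (cn := .pp) (n1 := ndB5q2) (n2 := ndB5q0) (pc := pcB2) (cut := Cut.none) (xt := Ext.none) (P1 := 1073741824) (W1 := 536870912) (P2 := 0) (W2 := 536870912) (P3 := 991146299) (W3 := 28908434) (N0 := 3) (En := eng) (mo := mog) (C1 := cd5q2) (C2 := cd5q0) (C3 := pd2)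
    rfl (fun _ => rfl) k0_pm_202

noncomputable def f_pm_203 : ℕ → ℕ → ℕ → ℕ → Bool := onCell 1073741824 536870912 1610612736 536870912 991146299 28908434
    (rowB 3 eng mog cd5q2 cd5q0 pd3 1 true true false .up 2 0 3 (qsf 1073741824 536870912 0 536870912 3) ndB5q2 ndB5q0 pcB3 Cut.none Ext.none)

def k0_pm_203 : ∃ t, chk3 f_pm_203 t 1 1 1 = true :=
  ⟨(a (b (a (b (a (b (l 14030328) (l 13911496)) (b (l 14792848) (l 14693224))) (a (l 2) (b (l 14600072) (l 2)))) (b (b (l 15269936) (l 15131680)) (b (a (l 15052560) (l 15327336)) (a (l 15002976) (l 15292264))))) (a (l 2) (b (b (a (l 2) (l 15347528)) (l 2)) (l 2)))) (b (b (a (a (l 15599888) (b (l 15726128) (l 15679560))) (b (l 15685296) (l 15877184))) (a (b (a (l 15498624) (l 15680960)) (a (l 15519672) (l 15734312))) (a (l 15873488) (l 16007016)))) (a (b (b (a (l 15627808) (l 15863592)) (l 15974896)) (a (l 2) (b (l 16435000) (l 2)))) (b (b (l 16129680) (l 16392536)) (b (b (l 16580928) (l 16739352)) (b (l 16689384)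 (l 4))))))), by decide +kernel⟩

theorem c_pm_203 : CertB 1073741824 536870912 0 536870912 991146299 28908434 3 eng mog cd5q2 cd5q0 pd3 true true false .up 2 0 3
    ndB5q2 ndB5q0 pcB3 Cut.none Ext.none :=
  certB1 (fam := true) (s1 := true) (s2 := false) (a := 2) (b := 0) (c := 3) (cn := .up) (n1 := ndB5q2) (n2 := ndB5q0) (pc := pcB3) (cut := Cut.none) (xt := Ext.none) (P1 := 1073741824) (W1 := 536870912) (P2 := 0) (W2 := 536870912) (P3 := 991146299) (W3 := 28908434) (N0 := 3) (En := eng) (mo := mog) (C1 := cd5q2) (C2 := cd5q0) (C3 := pd3)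
    rfl (fun _ => rfl) k0_pm_203

noncomputable def f_pm_213 : ℕ → ℕ → ℕ → ℕ → Bool := onCell 1073741824 536870912 1610612736 536870912 991146299 28908434
    (rowB 3 eng mog cd5q2 cd5q1 pd3 1 true true false .pnn 2 1 3 (qsf 1073741824 536870912 536870912 536870912 3) ndB5q2 ndB5q1 pcB3 Cut.none Ext.none)

def k0_pm_213 : ∃ t, chk3 f_pm_213 t 1 1 1 = true :=
  ⟨(a (b (a (b (a (l 13748608) (b (l 14798048) (l 14698560))) (a (b (l 13819528) (l 13762600)) (b (l 14605864) (l 14547712)))) (b (a (l 15197240) (l 1)) (b (l 15203184) (l 14951264)))) (b (a (b (a (l 13806520) (l 14570040)) (a (l 14075104) (l 14746360))) (b (a (l 15033144) (l 15347176)) (l 15615088))) (b (a (a (b (l 14570232) (l 15209752)) (b (l 15066016) (l 15415472))) (b (l 15674968) (l 15940312))) (b (a (a (l 16317600) (l 15912464)) (b (l 16192600) (l 16403936))) (b (a (l 16145392) (l 16599632)) (a (b (l 16431048) (b (l 16598408) (a (l 16775480) (l 16738216)))) (b (l 16749664) (b (l 16720896)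 (l 16674960))))))))) (b (b (l 1) (a (b (l 1) (a (l 15519528) (l 1))) (l 1))) (b (a (b (a (l 15626520) (l 15861720)) (l 15966736)) (b (l 1) (l 16383800))) (b (a (b (l 16241960) (l 16441408)) (a (l 16696848) (l 16717880))) (b (a (l 16647888) (l 16707672)) (a (b (l 16721384) (l 4)) (l 4))))))), by decide +kernel⟩

theorem c_pm_213 : CertB 1073741824 536870912 536870912 536870912 991146299 28908434 3 eng mog cd5q2 cd5q1 pd3 true true false .pnn 2 1 3
    ndB5q2 ndB5q1 pcB3 Cut.none Ext.none :=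
  certB1 (fam := true) (s1 := true) (s2 := false) (a := 2) (b := 1) (c := 3) (cn := .pnn) (n1 := ndB5q2) (n2 := ndB5q1) (pc := pcB3) (cut := Cut.none) (xt := Ext.none) (P1 := 1073741824) (W1 := 536870912) (P2 := 536870912) (W2 := 536870912) (P3 := 991146299) (W3 := 28908434) (N0 := 3) (En := eng) (mo := mog) (C1 := cd5q2) (C2 := cd5q1) (C3 := pd3)
    rfl (fun _ => rfl) k0_pm_213

noncomputable def f_pm_303 : ℕ → ℕ → ℕ → ℕ → Bool := onCell 0 1230186008 1610612736 536870912 991146299 28908434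
    (rowB 3 eng mog cd5q3 cd5q0 pd3 1 true true false .npn 3 0 3 (qsf 0 1230186008 0 536870912 3) ndB5q3 ndB5q0 pcB3 Cut.none Ext.none)

def k0_pm_303 : ∃ t, chk3 f_pm_303 t 1 1 1 = true :=
  ⟨(a (b (l 1) (l 4)) (a (b (b (l 1) (b (l 1) (a (l 1) (l 16656856)))) (l 4)) (b (b (a (l 1) (a (l 16065424) (l 16014760))) (a (b (a (l 16362064) (l 16208752)) (l 16448400)) (b (l 16103864) (a (l 16274440) (l 16161776))))) (a (b (b (l 16666072) (l 16730048)) (l 4)) (b (b (a (l 16457256) (l 16373728)) (l 16607360)) (b (l 16696256) (l 4))))))), by decide +kernel⟩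

theorem c_pm_303 : CertB 0 1230186008 0 536870912 991146299 28908434 3 eng mog cd5q3 cd5q0 pd3 true true false .npn 3 0 3
    ndB5q3 ndB5q0 pcB3 Cut.none Ext.none :=
  certB1 (fam := true) (s1 := true) (s2 := false) (a := 3) (b := 0) (c := 3) (cn := .npn) (n1 := ndB5q3) (n2 := ndB5q0) (pc := pcB3) (cut := Cut.none) (xt := Ext.none) (P1 := 0) (W1 := 1230186008) (P2 := 0) (W2 := 536870912) (P3 := 991146299) (W3 := 28908434) (N0 := 3) (En := eng) (mo := mog) (C1 := cd5q3) (C2 := cd5q0) (C3 := pd3)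
    rfl (fun _ => rfl) k0_pm_303

noncomputable def f_pm_313 : ℕ → ℕ → ℕ → ℕ → Bool := onCell 0 1230186008 536870912 536870912 991146299 28908434
    (rowB 3 eng mog cd5q3 cd5q1 pd3 0 true true false .dn 3 1 3 (qsf 0 1230186008 536870912 536870912 3) ndB5q3 ndB5q1 pcB3 Cut.none Ext.none)

def k0_pm_313 : ∃ t, chk3 f_pm_313 t 1 1 1 = true :=
  ⟨(a (l 2) (a (l 2) (l 4))), by decide +kernel⟩

theorem c_pm_313 : CertB 0 1230186008 536870912 536870912 991146299 28908434 3 eng mog cd5q3 cd5q1 pd3 true true false .dn 3 1 3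
    ndB5q3 ndB5q1 pcB3 Cut.none Ext.none :=
  certB0 (fam := true) (s1 := true) (s2 := false) (a := 3) (b := 1) (c := 3) (cn := .dn) (n1 := ndB5q3) (n2 := ndB5q1) (pc := pcB3) (cut := Cut.none) (xt := Ext.none) (P1 := 0) (W1 := 1230186008) (P2 := 536870912) (W2 := 536870912) (P3 := 991146299) (W3 := 28908434) (N0 := 3) (En := eng) (mo := mog) (C1 := cd5q3) (C2 := cd5q1) (C3 := pd3)
    rfl k0_pm_313

noncomputable def f_mm_001 : ℕ → ℕ → ℕ → ℕ → Bool := onCell 0 536870912 0 536870912 991146299 28908434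
    (rowB 3 eng mog cd5q0 cd5q0 pd1 0 true false false .up 0 0 1 (qsf 0 536870912 0 536870912 1) ndB5q0 ndB5q0 pcB1 Cut.none Ext.none)

def k0_mm_001 : ∃ t, chk3 f_mm_001 t 1 1 1 = true :=
  ⟨(l 4), by decide +kernel⟩

theorem c_mm_001 : CertB 0 536870912 0 536870912 991146299 28908434 3 eng mog cd5q0 cd5q0 pd1 true false false .up 0 0 1
    ndB5q0 ndB5q0 pcB1 Cut.none Ext.none :=
  certB0 (fam := true) (s1 := false) (s2 := false) (a := 0) (b := 0) (c := 1) (cn := .up) (n1 := ndB5q0) (n2 := ndB5q0) (pc := pcB1) (cut := Cut.none) (xt := Ext.none) (P1 := 0) (W1 := 536870912) (P2 := 0) (W2 := 536870912) (P3 := 991146299) (W3 := 28908434) (N0 := 3) (En := eng) (mo := mog) (C1 := cd5q0) (C2 := cd5q0) (C3 := pd1)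
    rfl k0_mm_001

noncomputable def f_mm_011 : ℕ → ℕ → ℕ → ℕ → Bool := onCell 0 536870912 536870912 536870912 991146299 28908434
    (rowB 3 eng mog cd5q0 cd5q1 pd1 0 true false false .pnn 0 1 1 (qsf 0 536870912 536870912 536870912 1) ndB5q0 ndB5q1 pcB1 Cut.none Ext.none)

def k0_mm_011 : ∃ t, chk3 f_mm_011 t 1 1 1 = true :=
  ⟨(l 4), by decide +kernel⟩

theorem c_mm_011 : CertB 0 536870912 536870912 536870912 991146299 28908434 3 eng mog cd5q0 cd5q1 pd1 true false false .pnn 0 1 1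
    ndB5q0 ndB5q1 pcB1 Cut.none Ext.none :=
  certB0 (fam := true) (s1 := false) (s2 := false) (a := 0) (b := 1) (c := 1) (cn := .pnn) (n1 := ndB5q0) (n2 := ndB5q1) (pc := pcB1) (cut := Cut.none) (xt := Ext.none) (P1 := 0) (W1 := 536870912) (P2 := 536870912) (W2 := 536870912) (P3 := 991146299) (W3 := 28908434) (N0 := 3) (En := eng) (mo := mog) (C1 := cd5q0) (C2 := cd5q1) (C3 := pd1)
    rfl k0_mm_011

noncomputable def f_mm_012 : ℕ → ℕ → ℕ → ℕ → Bool := onCell 0 536870912 536870912 536870912 991146299 28908434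
    (rowB 3 eng mog cd5q0 cd5q1 pd2 0 true false false .pnp 0 1 2 (qsf 0 536870912 536870912 536870912 2) ndB5q0 ndB5q1 pcB2 Cut.none Ext.none)

def k0_mm_012 : ∃ t, chk3 f_mm_012 t 1 1 1 = true :=
  ⟨(l 4), by decide +kernel⟩

theorem c_mm_012 : CertB 0 536870912 536870912 536870912 991146299 28908434 3 eng mog cd5q0 cd5q1 pd2 true false false .pnp 0 1 2
    ndB5q0 ndB5q1 pcB2 Cut.none Ext.none :=
  certB0 (fam := true) (s1 := false) (s2 := false) (a := 0) (b := 1) (c := 2) (cn := .pnp) (n1 := ndB5q0) (n2 := ndB5q1) (pc := pcB2) (cut := Cut.none) (xt := Ext.none) (P1 := 0) (W1 := 536870912) (P2 := 536870912) (W2 := 536870912) (P3 := 991146299) (W3 := 28908434) (N0 := 3) (En := eng) (mo := mog) (C1 := cd5q0) (C2 := cd5q1) (C3 := pd2)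
    rfl k0_mm_012

noncomputable def f_mm_022 : ℕ → ℕ → ℕ → ℕ → Bool := onCell 0 536870912 1073741824 536870912 991146299 28908434
    (rowB 3 eng mog cd5q0 cd5q2 pd2 0 true false false .pp 0 2 2 (qsf 0 536870912 1073741824 536870912 2) ndB5q0 ndB5q2 pcB2 Cut.none Ext.none)

def k0_mm_022 : ∃ t, chk3 f_mm_022 t 1 1 1 = true :=
  ⟨(l 4), by decide +kernel⟩

theorem c_mm_022 : CertB 0 536870912 1073741824 536870912 991146299 28908434 3 eng mog cd5q0 cd5q2 pd2 true false false .pp 0 2 2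
    ndB5q0 ndB5q2 pcB2 Cut.none Ext.none :=
  certB0 (fam := true) (s1 := false) (s2 := false) (a := 0) (b := 2) (c := 2) (cn := .pp) (n1 := ndB5q0) (n2 := ndB5q2) (pc := pcB2) (cut := Cut.none) (xt := Ext.none) (P1 := 0) (W1 := 536870912) (P2 := 1073741824) (W2 := 536870912) (P3 := 991146299) (W3 := 28908434) (N0 := 3) (En := eng) (mo := mog) (C1 := cd5q0) (C2 := cd5q2) (C3 := pd2)
    rfl k0_mm_022

noncomputable def f_mm_023 : ℕ → ℕ → ℕ → ℕ → Bool := onCell 0 536870912 1073741824 536870912 991146299 28908434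
    (rowB 3 eng mog cd5q0 cd5q2 pd3 0 true false false .up 0 2 3 (qsf 0 536870912 1073741824 536870912 3) ndB5q0 ndB5q2 pcB3 Cut.none Ext.none)

def k0_mm_023 : ∃ t, chk3 f_mm_023 t 1 1 1 = true :=
  ⟨(l 4), by decide +kernel⟩

theorem c_mm_023 : CertB 0 536870912 1073741824 536870912 991146299 28908434 3 eng mog cd5q0 cd5q2 pd3 true false false .up 0 2 3
    ndB5q0 ndB5q2 pcB3 Cut.none Ext.none :=
  certB0 (fam := true) (s1 := false) (s2 := false) (a := 0) (b := 2) (c := 3) (cn := .up) (n1 := ndB5q0) (n2 := ndB5q2) (pc := pcB3) (cut := Cut.none) (xt := Ext.none) (P1 := 0) (W1 := 536870912) (P2 := 1073741824) (W2 := 536870912) (P3 := 991146299) (W3 := 28908434) (N0 := 3) (En := eng) (mo := mog) (C1 := cd5q0) (C2 := cd5q2) (C3 := pd3)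
    rfl k0_mm_023

noncomputable def f_mm_033 : ℕ → ℕ → ℕ → ℕ → Bool := onCell 0 536870912 0 1230186008 991146299 28908434
    (rowB 3 eng mog cd5q0 cd5q3 pd3 0 true false false .pnn 0 3 3 (qsf 0 536870912 0 1230186008 3) ndB5q0 ndB5q3 pcB3 Cut.none Ext.none)

def k0_mm_033 : ∃ t, chk3 f_mm_033 t 1 1 1 = true :=
  ⟨(l 4), by decide +kernel⟩

theorem c_mm_033 : CertB 0 536870912 0 1230186008 991146299 28908434 3 eng mog cd5q0 cd5q3 pd3 true false false .pnn 0 3 3
    ndB5q0 ndB5q3 pcB3 Cut.none Ext.none :=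
  certB0 (fam := true) (s1 := false) (s2 := false) (a := 0) (b := 3) (c := 3) (cn := .pnn) (n1 := ndB5q0) (n2 := ndB5q3) (pc := pcB3) (cut := Cut.none) (xt := Ext.none) (P1 := 0) (W1 := 536870912) (P2 := 0) (W2 := 1230186008) (P3 := 991146299) (W3 := 28908434) (N0 := 3) (En := eng) (mo := mog) (C1 := cd5q0) (C2 := cd5q3) (C3 := pd3)
    rfl k0_mm_033

noncomputable def f_mm_101 : ℕ → ℕ → ℕ → ℕ → Bool := onCell 536870912 536870912 0 536870912 991146299 28908434
    (rowB 3 eng mog cd5q1 cd5q0 pd1 0 true false false .npn 1 0 1 (qsf 536870912 536870912 0 536870912 1) ndB5q1 ndB5q0 pcB1 Cut.none Ext.none)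

def k0_mm_101 : ∃ t, chk3 f_mm_101 t 1 1 1 = true :=
  ⟨(l 4), by decide +kernel⟩

theorem c_mm_101 : CertB 536870912 536870912 0 536870912 991146299 28908434 3 eng mog cd5q1 cd5q0 pd1 true false false .npn 1 0 1
    ndB5q1 ndB5q0 pcB1 Cut.none Ext.none :=
  certB0 (fam := true) (s1 := false) (s2 := false) (a := 1) (b := 0) (c := 1) (cn := .npn) (n1 := ndB5q1) (n2 := ndB5q0) (pc := pcB1) (cut := Cut.none) (xt := Ext.none) (P1 := 536870912) (W1 := 536870912) (P2 := 0) (W2 := 536870912) (P3 := 991146299) (W3 := 28908434) (N0 := 3) (En := eng) (mo := mog) (C1 := cd5q1) (C2 := cd5q0) (C3 := pd1)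
    rfl k0_mm_101

noncomputable def f_mm_102 : ℕ → ℕ → ℕ → ℕ → Bool := onCell 536870912 536870912 0 536870912 991146299 28908434
    (rowB 3 eng mog cd5q1 cd5q0 pd2 0 true false false .npp 1 0 2 (qsf 536870912 536870912 0 536870912 2) ndB5q1 ndB5q0 pcB2 Cut.none Ext.none)

def k0_mm_102 : ∃ t, chk3 f_mm_102 t 1 1 1 = true :=
  ⟨(l 4), by decide +kernel⟩

theorem c_mm_102 : CertB 536870912 536870912 0 536870912 991146299 28908434 3 eng mog cd5q1 cd5q0 pd2 true false false .npp 1 0 2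
    ndB5q1 ndB5q0 pcB2 Cut.none Ext.none :=
  certB0 (fam := true) (s1 := false) (s2 := false) (a := 1) (b := 0) (c := 2) (cn := .npp) (n1 := ndB5q1) (n2 := ndB5q0) (pc := pcB2) (cut := Cut.none) (xt := Ext.none) (P1 := 536870912) (W1 := 536870912) (P2 := 0) (W2 := 536870912) (P3 := 991146299) (W3 := 28908434) (N0 := 3) (En := eng) (mo := mog) (C1 := cd5q1) (C2 := cd5q0) (C3 := pd2)
    rfl k0_mm_102

noncomputable def f_mm_112 : ℕ → ℕ → ℕ → ℕ → Bool := onCell 536870912 536870912 536870912 536870912 991146299 28908434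
    (rowB 3 eng mog cd5q1 cd5q1 pd2 0 true false false .dn 1 1 2 (qsf 536870912 536870912 536870912 536870912 2) ndB5q1 ndB5q1 pcB2 Cut.none Ext.none)

def k0_mm_112 : ∃ t, chk3 f_mm_112 t 1 1 1 = true :=
  ⟨(l 4), by decide +kernel⟩

theorem c_mm_112 : CertB 536870912 536870912 536870912 536870912 991146299 28908434 3 eng mog cd5q1 cd5q1 pd2 true false false .dn 1 1 2
    ndB5q1 ndB5q1 pcB2 Cut.none Ext.none :=
  certB0 (fam := true) (s1 := false) (s2 := false) (a := 1) (b := 1) (c := 2) (cn := .dn) (n1 := ndB5q1) (n2 := ndB5q1) (pc := pcB2) (cut := Cut.none) (xt := Ext.none) (P1 := 536870912) (W1 := 536870912) (P2 := 536870912) (W2 := 536870912) (P3 := 991146299) (W3 := 28908434) (N0 := 3) (En := eng) (mo := mog) (C1 := cd5q1) (C2 := cd5q1) (C3 := pd2)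
    rfl k0_mm_112

noncomputable def f_mm_113 : ℕ → ℕ → ℕ → ℕ → Bool := onCell 536870912 536870912 536870912 536870912 991146299 28908434
    (rowB 3 eng mog cd5q1 cd5q1 pd3 0 true false false .nn 1 1 3 (qsf 536870912 536870912 536870912 536870912 3) ndB5q1 ndB5q1 pcB3 Cut.none Ext.none)

def k0_mm_113 : ∃ t, chk3 f_mm_113 t 1 1 1 = true :=
  ⟨(l 4), by decide +kernel⟩

theorem c_mm_113 : CertB 536870912 536870912 536870912 536870912 991146299 28908434 3 eng mog cd5q1 cd5q1 pd3 true false false .nn 1 1 3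
    ndB5q1 ndB5q1 pcB3 Cut.none Ext.none :=
  certB0 (fam := true) (s1 := false) (s2 := false) (a := 1) (b := 1) (c := 3) (cn := .nn) (n1 := ndB5q1) (n2 := ndB5q1) (pc := pcB3) (cut := Cut.none) (xt := Ext.none) (P1 := 536870912) (W1 := 536870912) (P2 := 536870912) (W2 := 536870912) (P3 := 991146299) (W3 := 28908434) (N0 := 3) (En := eng) (mo := mog) (C1 := cd5q1) (C2 := cd5q1) (C3 := pd3)
    rfl k0_mm_113

noncomputable def f_mm_123 : ℕ → ℕ → ℕ → ℕ → Bool := onCell 536870912 536870912 1073741824 536870912 991146299 28908434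
    (rowB 3 eng mog cd5q1 cd5q2 pd3 0 true false false .npn 1 2 3 (qsf 536870912 536870912 1073741824 536870912 3) ndB5q1 ndB5q2 pcB3 Cut.none Ext.none)

def k0_mm_123 : ∃ t, chk3 f_mm_123 t 1 1 1 = true :=
  ⟨(l 4), by decide +kernel⟩

theorem c_mm_123 : CertB 536870912 536870912 1073741824 536870912 991146299 28908434 3 eng mog cd5q1 cd5q2 pd3 true false false .npn 1 2 3
    ndB5q1 ndB5q2 pcB3 Cut.none Ext.none :=
  certB0 (fam := true) (s1 := false) (s2 := false) (a := 1) (b := 2) (c := 3) (cn := .npn) (n1 := ndB5q1) (n2 := ndB5q2) (pc := pcB3) (cut := Cut.none) (xt := Ext.none) (P1 := 536870912) (W1 := 536870912) (P2 := 1073741824) (W2 := 536870912) (P3 := 991146299) (W3 := 28908434) (N0 := 3) (En := eng) (mo := mog) (C1 := cd5q1) (C2 := cd5q2) (C3 := pd3)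
    rfl k0_mm_123

noncomputable def f_mm_133 : ℕ → ℕ → ℕ → ℕ → Bool := onCell 536870912 536870912 0 1230186008 991146299 28908434
    (rowB 3 eng mog cd5q1 cd5q3 pd3 0 true false false .dn 1 3 3 (qsf 536870912 536870912 0 1230186008 3) ndB5q1 ndB5q3 pcB3 Cut.none Ext.none)

def k0_mm_133 : ∃ t, chk3 f_mm_133 t 1 1 1 = true :=
  ⟨(l 4), by decide +kernel⟩

theorem c_mm_133 : CertB 536870912 536870912 0 1230186008 991146299 28908434 3 eng mog cd5q1 cd5q3 pd3 true false false .dn 1 3 3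
    ndB5q1 ndB5q3 pcB3 Cut.none Ext.none :=
  certB0 (fam := true) (s1 := false) (s2 := false) (a := 1) (b := 3) (c := 3) (cn := .dn) (n1 := ndB5q1) (n2 := ndB5q3) (pc := pcB3) (cut := Cut.none) (xt := Ext.none) (P1 := 536870912) (W1 := 536870912) (P2 := 0) (W2 := 1230186008) (P3 := 991146299) (W3 := 28908434) (N0 := 3) (En := eng) (mo := mog) (C1 := cd5q1) (C2 := cd5q3) (C3 := pd3)
    rfl k0_mm_133

noncomputable def f_mm_202 : ℕ → ℕ → ℕ → ℕ → Bool := onCell 1073741824 536870912 0 536870912 991146299 28908434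
    (rowB 3 eng mog cd5q2 cd5q0 pd2 0 true false false .pp 2 0 2 (qsf 1073741824 536870912 0 536870912 2) ndB5q2 ndB5q0 pcB2 Cut.none Ext.none)

def k0_mm_202 : ∃ t, chk3 f_mm_202 t 1 1 1 = true :=
  ⟨(l 4), by decide +kernel⟩

theorem c_mm_202 : CertB 1073741824 536870912 0 536870912 991146299 28908434 3 eng mog cd5q2 cd5q0 pd2 true false false .pp 2 0 2
    ndB5q2 ndB5q0 pcB2 Cut.none Ext.none :=
  certB0 (fam := true) (s1 := false) (s2 := false) (a := 2) (b := 0) (c := 2) (cn := .pp) (n1 := ndB5q2) (n2 := ndB5q0) (pc := pcB2) (cut := Cut.none) (xt := Ext.none) (P1 := 1073741824) (W1 := 536870912) (P2 := 0) (W2 := 536870912) (P3 := 991146299) (W3 := 28908434) (N0 := 3) (En := eng) (mo := mog) (C1 := cd5q2) (C2 := cd5q0) (C3 := pd2)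
    rfl k0_mm_202

noncomputable def f_mm_203 : ℕ → ℕ → ℕ → ℕ → Bool := onCell 1073741824 536870912 0 536870912 991146299 28908434
    (rowB 3 eng mog cd5q2 cd5q0 pd3 0 true false false .up 2 0 3 (qsf 1073741824 536870912 0 536870912 3) ndB5q2 ndB5q0 pcB3 Cut.none Ext.none)

def k0_mm_203 : ∃ t, chk3 f_mm_203 t 1 1 1 = true :=
  ⟨(l 4), by decide +kernel⟩

theorem c_mm_203 : CertB 1073741824 536870912 0 536870912 991146299 28908434 3 eng mog cd5q2 cd5q0 pd3 true false false .up 2 0 3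
    ndB5q2 ndB5q0 pcB3 Cut.none Ext.none :=
  certB0 (fam := true) (s1 := false) (s2 := false) (a := 2) (b := 0) (c := 3) (cn := .up) (n1 := ndB5q2) (n2 := ndB5q0) (pc := pcB3) (cut := Cut.none) (xt := Ext.none) (P1 := 1073741824) (W1 := 536870912) (P2 := 0) (W2 := 536870912) (P3 := 991146299) (W3 := 28908434) (N0 := 3) (En := eng) (mo := mog) (C1 := cd5q2) (C2 := cd5q0) (C3 := pd3)
    rfl k0_mm_203

noncomputable def f_mm_213 : ℕ → ℕ → ℕ → ℕ → Bool := onCell 1073741824 536870912 536870912 536870912 991146299 28908434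
    (rowB 3 eng mog cd5q2 cd5q1 pd3 0 true false false .pnn 2 1 3 (qsf 1073741824 536870912 536870912 536870912 3) ndB5q2 ndB5q1 pcB3 Cut.none Ext.none)

def k0_mm_213 : ∃ t, chk3 f_mm_213 t 1 1 1 = true :=
  ⟨(l 4), by decide +kernel⟩

theorem c_mm_213 : CertB 1073741824 536870912 536870912 536870912 991146299 28908434 3 eng mog cd5q2 cd5q1 pd3 true false false .pnn 2 1 3
    ndB5q2 ndB5q1 pcB3 Cut.none Ext.none :=
  certB0 (fam := true) (s1 := false) (s2 := false) (a := 2) (b := 1) (c := 3) (cn := .pnn) (n1 := ndB5q2) (n2 := ndB5q1) (pc := pcB3) (cut := Cut.none) (xt := Ext.none) (P1 := 1073741824) (W1 := 536870912) (P2 := 536870912) (W2 := 536870912) (P3 := 991146299) (W3 := 28908434) (N0 := 3) (En := eng) (mo := mog) (C1 := cd5q2) (C2 := cd5q1) (C3 := pd3)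
    rfl k0_mm_213

noncomputable def f_mm_303 : ℕ → ℕ → ℕ → ℕ → Bool := onCell 0 1230186008 0 536870912 991146299 28908434
    (rowB 3 eng mog cd5q3 cd5q0 pd3 0 true false false .npn 3 0 3 (qsf 0 1230186008 0 536870912 3) ndB5q3 ndB5q0 pcB3 Cut.none Ext.none)

def k0_mm_303 : ∃ t, chk3 f_mm_303 t 1 1 1 = true :=
  ⟨(l 4), by decide +kernel⟩

theorem c_mm_303 : CertB 0 1230186008 0 536870912 991146299 28908434 3 eng mog cd5q3 cd5q0 pd3 true false false .npn 3 0 3
    ndB5q3 ndB5q0 pcB3 Cut.none Ext.none :=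
  certB0 (fam := true) (s1 := false) (s2 := false) (a := 3) (b := 0) (c := 3) (cn := .npn) (n1 := ndB5q3) (n2 := ndB5q0) (pc := pcB3) (cut := Cut.none) (xt := Ext.none) (P1 := 0) (W1 := 1230186008) (P2 := 0) (W2 := 536870912) (P3 := 991146299) (W3 := 28908434) (N0 := 3) (En := eng) (mo := mog) (C1 := cd5q3) (C2 := cd5q0) (C3 := pd3)
    rfl k0_mm_303

noncomputable def f_mm_313 : ℕ → ℕ → ℕ → ℕ → Bool := onCell 0 1230186008 536870912 536870912 991146299 28908434
    (rowB 3 eng mog cd5q3 cd5q1 pd3 0 true false false .dn 3 1 3 (qsf 0 1230186008 536870912 536870912 3) ndB5q3 ndB5q1 pcB3 Cut.none Ext.none)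

def k0_mm_313 : ∃ t, chk3 f_mm_313 t 1 1 1 = true :=
  ⟨(l 4), by decide +kernel⟩

theorem c_mm_313 : CertB 0 1230186008 536870912 536870912 991146299 28908434 3 eng mog cd5q3 cd5q1 pd3 true false false .dn 3 1 3
    ndB5q3 ndB5q1 pcB3 Cut.none Ext.none :=
  certB0 (fam := true) (s1 := false) (s2 := false) (a := 3) (b := 1) (c := 3) (cn := .dn) (n1 := ndB5q3) (n2 := ndB5q1) (pc := pcB3) (cut := Cut.none) (xt := Ext.none) (P1 := 0) (W1 := 1230186008) (P2 := 536870912) (W2 := 536870912) (P3 := 991146299) (W3 := 28908434) (N0 := 3) (En := eng) (mo := mog) (C1 := cd5q3) (C2 := cd5q1) (C3 := pd3)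
    rfl k0_mm_313

end Pool.Agent.Strip051.G.I9231_9500.Tab.C.BA55

namespace Pool.Agent.Strip051.G.I9231_9500.Tab.C.BB00

open Pool.Agent.Strip051.PB Pool.Agent.Strip051.PB.T
open Pool.Agent.Strip051.G.I9231_9500.Tab

noncomputable def cut_pp_001 : Cut := Cut.of [[⟨3, 0, 0, 1449551462⟩], [⟨4, 0, 0, 2845415833⟩]]

noncomputable def f_pp_001 : ℕ → ℕ → ℕ → ℕ → Bool := onCell 0 536870912 536870912 536870912 991146299 28908434
    (rowB 3 eng mog cd0q0 cd0q1 pd0 0 false true true .up 0 0 1 (qsf 0 536870912 536870912 536870912 0) ndB0q0 ndB0q1 pcB0 cut_pp_001 Ext.none)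

def k0_pp_001 : ∃ t, chk3 f_pp_001 t 1 1 1 = true :=
  ⟨(l 6), by decide +kernel⟩

theorem c_pp_001 : CertB 0 536870912 536870912 536870912 991146299 28908434 3 eng mog cd0q0 cd0q1 pd0 false true true .up 0 0 1
    ndB0q0 ndB0q1 pcB0 cut_pp_001 Ext.none :=
  certB0 (fam := false) (s1 := true) (s2 := true) (a := 0) (b := 0) (c := 1) (cn := .up) (n1 := ndB0q0) (n2 := ndB0q1) (pc := pcB0) (cut := cut_pp_001) (xt := Ext.none) (P1 := 0) (W1 := 536870912) (P2 := 536870912) (W2 := 536870912) (P3 := 991146299) (W3 := 28908434) (N0 := 3) (En := eng) (mo := mog) (C1 := cd0q0) (C2 := cd0q1) (C3 := pd0)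
    rfl k0_pp_001

noncomputable def cut_pp_011 : Cut := Cut.of [[⟨3, 0, 0, 1449551462⟩], [⟨4, 0, 0, 2845415833⟩], [⟨0, 0, 0, 53687091⟩, ⟨1, 1, 0, 53687091⟩, ⟨2, 1, 0, 53687091⟩]]

noncomputable def f_pp_011 : ℕ → ℕ → ℕ → ℕ → Bool := onCell 0 536870912 536870912 536870912 991146299 28908434
    (rowB 3 eng mog cd0q0 cd0q1 pd1 0 false true true .pnn 0 1 1 (qsf 0 536870912 536870912 536870912 1) ndB0q0 ndB0q1 pcB1 cut_pp_011 Ext.none)

def k0_pp_011 : ∃ t, chk3 f_pp_011 t 1 1 1 = true :=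
  ⟨(l 6), by decide +kernel⟩

theorem c_pp_011 : CertB 0 536870912 536870912 536870912 991146299 28908434 3 eng mog cd0q0 cd0q1 pd1 false true true .pnn 0 1 1
    ndB0q0 ndB0q1 pcB1 cut_pp_011 Ext.none :=
  certB0 (fam := false) (s1 := true) (s2 := true) (a := 0) (b := 1) (c := 1) (cn := .pnn) (n1 := ndB0q0) (n2 := ndB0q1) (pc := pcB1) (cut := cut_pp_011) (xt := Ext.none) (P1 := 0) (W1 := 536870912) (P2 := 536870912) (W2 := 536870912) (P3 := 991146299) (W3 := 28908434) (N0 := 3) (En := eng) (mo := mog) (C1 := cd0q0) (C2 := cd0q1) (C3 := pd1)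
    rfl k0_pp_011

noncomputable def cut_pp_012 : Cut := Cut.of [[⟨3, 0, 0, 1449551462⟩], [⟨4, 0, 0, 2845415833⟩], [⟨0, 0, 0, 16777216⟩, ⟨1, 1, 0, 16777216⟩, ⟨2, 1, 0, 16777216⟩]]

noncomputable def f_pp_012 : ℕ → ℕ → ℕ → ℕ → Bool := onCell 536870912 536870912 0 536870912 991146299 28908434
    (rowB 3 eng mog cd0q0 cd0q2 pd1 2 false true true .pnp 0 1 2 (qsf 0 536870912 0 536870912 1) ndB0q0 ndB0q2 pcB1 cut_pp_012 Ext.none)

def k0_pp_012 : ∃ t, chk3 f_pp_012 t 2 1 1 = true :=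
  ⟨(l 6), by decide +kernel⟩

def k1_pp_012 : ∃ t, chk3 f_pp_012 t 6 2 1 = true :=
  ⟨(b (a (b (b (a (a (l 6) (b (l 16649688) (l 6))) (a (l 16605584) (l 16626368))) (l 6)) (l 6)) (a (b (a (b (l 16531024) (a (l 16615712) (l 16609016))) (b (l 16527736) (l 16526160))) (l 6)) (b (a (b (l 16491048) (l 16500856)) (b (l 16463176) (l 16484528))) (b (a (b (l 16546272) (l 6)) (a (l 16519048) (l 16498120))) (l 6))))) (l 6)), by decide +kernel⟩

def k2_pp_012 : ∃ t, chk3 f_pp_012 t 14 2 1 = true :=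
  ⟨(b (a (b (a (b (l 16444376) (l 16456488)) (b (l 16413880) (l 16416992))) (a (b (c (l 16474576) (l 16467904)) (b (a (l 16493704) (l 16474216)) (l 6))) (b (c (l 16444952) (l 16442928)) (a (b (l 16457288) (l 16442144)) (c (l 16445040) (l 16444712)))))) (b (a (b (l 16434832) (l 16429192)) (b (l 16444528) (l 16430416))) (a (b (b (l 16405824) (l 16426168)) (c (l 16404080) (l 16407248))) (b (c (l 16415464) (l 16423816)) (c (l 16386504) (l 16415544)))))) (a (l 6) (b (b (a (b (a (c (l 16433936) (l 16435744)) (l 16400480)) (l 6)) (a (c (l 16386392) (b (l 16414136) (l 16412352))) (c (l 16376496) (l 16384776)))) (l 6)) (l 6)))), by decide +kernel⟩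

def k3_pp_012 : ∃ t, chk3 f_pp_012 t 15 2 1 = true :=
  ⟨(b (a (b (c (a (l 16425016) (l 16426736)) (a (l 16440008) (l 16427280))) (a (b (c (l 16416192) (l 16430176)) (c (l 16379640) (l 16413912))) (b (c (l 16427608) (l 16447576)) (c (l 16404752) (l 16423648))))) (b (a (b (l 16450312) (l 16433760)) (b (l 16507800) (l 16435720))) (a (b (l 16379032) (c (l 16420240) (l 16445136))) (b (l 16416088) (a (l 16433000) (l 16430240)))))) (a (b (a (b (c (b (l 16369640) (l 16363944)) (a (l 16380008) (l 16378144))) (b (c (a (l 16383632) (l 16376616)) (a (l 16392656) (l 16387928))) (l 6))) (b (c (b (l 16389416) (l 16359240)) (a (l 16400200) (l 16404296))) (c (a (b (l 16372520) (l 16365408)) (l 16346128)) (a (b (l 16386224) (l 16377464)) (l 16361488))))) (l 6)) (b (a (b (c (l 16351720) (l 16374360)) (c (a (l 16347200) (l 16372344)) (a (l 16386088) (l 16392936)))) (b (a (l 16379384) (l 16394464)) (c (a (l 16379656) (l 16390296)) (a (l 16403056) (l 16416656))))) (b (a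 (b (a (c (l 16353040) (l 16367800)) (c (l 16354832) (l 16372088))) (l 6)) (a (c (b (l 16359928) (l 16347600)) (l 16330592)) (c (l 16361728) (l 16383112)))) (a (l 6) (b (a (l 6) (c (l 16320560) (l 16358904))) (l 6))))))), by decide +kernel⟩

def k4_pp_012 : ∃ t, chk3 f_pp_012 t 3 3 1 = true :=
  ⟨(l 6), by decide +kernel⟩

theorem s5_pp_012 : ∃ t, chk3 f_pp_012 t 7 2 1 = true := ex3_a k2_pp_012 k3_pp_012

theorem s6_pp_012 : ∃ t, chk3 f_pp_012 t 3 2 1 = true := ex3_a k1_pp_012 s5_pp_012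

theorem s7_pp_012 : ∃ t, chk3 f_pp_012 t 3 1 1 = true := ex3_b s6_pp_012 k4_pp_012

theorem s8_pp_012 : ∃ t, chk3 f_pp_012 t 1 1 1 = true := ex3_a k0_pp_012 s7_pp_012

theorem c_pp_012 : CertB 0 536870912 0 536870912 991146299 28908434 3 eng mog cd0q0 cd0q2 pd1 false true true .pnp 0 1 2
    ndB0q0 ndB0q2 pcB1 cut_pp_012 Ext.none :=
  certB2 (fam := false) (s1 := true) (s2 := true) (a := 0) (b := 1) (c := 2) (cn := .pnp) (n1 := ndB0q0) (n2 := ndB0q2) (pc := pcB1) (cut := cut_pp_012) (xt := Ext.none) (P1 := 0) (W1 := 536870912) (P2 := 0) (W2 := 536870912) (P3 := 991146299) (W3 := 28908434) (N0 := 3) (En := eng) (mo := mog) (C1 := cd0q0) (C2 := cd0q2) (C3 := pd1)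
    rfl (fun _ => rfl) s8_pp_012

noncomputable def cut_pp_022 : Cut := Cut.of [[⟨3, 0, 0, 1449551462⟩], [⟨4, 0, 0, 2845415833⟩], [⟨0, 0, 0, 53687091⟩, ⟨1, 1, 0, 53687091⟩, ⟨2, 1, 0, 53687091⟩]]

noncomputable def f_pp_022 : ℕ → ℕ → ℕ → ℕ → Bool := onCell 1073741824 536870912 0 536870912 991146299 28908434
    (rowB 3 eng mog cd0q0 cd0q2 pd2 2 false true true .pp 0 2 2 (qsf 0 536870912 0 536870912 2) ndB0q0 ndB0q2 pcB2 cut_pp_022 Ext.none)

def k0_pp_022 : ∃ t, chk3 f_pp_022 t 8 4 1 = true :=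
  ⟨(c (a (b (c (l 16259312) (a (l 16314152) (l 16300360))) (a (b (l 16380384) (l 16294232)) (b (l 16380112) (l 16405984)))) (b (a (l 16320832) (l 16302544)) (a (l 16284680) (l 16343288)))) (a (a (b (b (l 16166624) (l 16206448)) (b (l 16244120) (c (l 16319144) (l 16240840)))) (b (l 16181328) (c (l 16285888) (l 16210888)))) (b (a (l 16176144) (l 16171040)) (a (c (l 16269424) (l 16200008)) (l 16221056))))), by decide +kernel⟩

def k1_pp_022 : ∃ t, chk3 f_pp_022 t 8 5 1 = true :=
  ⟨(a (a (a (b (b (c (l 16381896) (l 16321232)) (c (b (l 16445560) (l 16418040)) (b (l 16349504) (l 16379064)))) (b (c (b (b (l 16449904) (l 16425736)) (c (l 16518392) (l 16501264))) (c (b (l 16421112) (l 16439552)) (b (l 16354176) (l 16375256)))) (b (c (c (b (l 16528784) (l 16535824)) (c (l 16531936) (l 16502960))) (c (a (l 16462472) (l 16454168)) (a (l 16400416) (l 16392920)))) (l 6)))) (b (c (b (l 16431144) (c (l 16510360) (l 16447168))) (b (l 16311680) (c (l 16381152) (l 16312400))))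 (c (c (b (l 16493312) (b (l 16533520) (l 16525824))) (b (l 16476496) (b (l 16499200) (l 16514760)))) (b (c (l 16415168) (l 16351328)) (c (b (l 16441520) (l 16459488)) (b (l 16381512) (l 16402000))))))) (c (b (b (l 16367904) (c (l 16484904) (l 16424432))) (c (b (l 16444016) (a (l 16498296) (l 16518968))) (b (a (l 16459368) (l 16441832)) (a (l 16466528) (l 16467728))))) (b (b (l 16296864) (c (l 16361360) (l 16295752))) (b (c (a (l 16399784) (l 16384064)) (l 16351896)) (a (c (l 16432568) (l 16375464)) (c (l 16414408) (l 16359040))))))) (b (c (a (b (l 16401176) (l 16400512)) (b (l 16370648) (l 16386720))) (a (c (l 16320848) (l 16257768)) (b (l 16255904) (l 16278072)))) (c (a (b (a (l 16451048) (l 16432112)) (a (l 16388992) (l 16451176))) (b (l 16359936) (a (l 16428624) (l 16404776)))) (c (a (b (l 16360616) (l 16391936)) (b (l 16326352) (l 16346680))) (a (b (l 16303672) (l 16334056)) (b (l 16273680) (l 16297832))))))), by decide +kernel⟩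

def k2_pp_022 : ∃ t, chk3 f_pp_022 t 9 2 1 = true :=
  ⟨(c (b (a (b (a (l 16283872) (l 16263080)) (a (l 16317048) (l 16287256))) (b (l 16228824) (a (l 16256672) (l 16228408)))) (a (b (a (b (l 16337336) (l 16348832)) (l 16304032)) (a (b (l 16358192) (l 16367672)) (b (l 16313448) (l 16319448)))) (b (a (l 16265912) (l 16231704)) (a (b (l 16270984) (l 16274760)) (l 16232704))))) (b (a (b (a (l 16166440) (l 16160440)) (a (l 16206872) (l 16189672))) (b (l 16149800) (a (l 16172448) (l 16158576)))) (a (b (a (b (l 16233104) (l 16249736)) (l 16128848)) (a (b (l 16265080) (a (l 16291296) (l 16270568))) (b (l 16229480) (l 16240896)))) (b (a (l 16185984) (l 16164224)) (a (b (l 16197048) (l 16205424)) (b (l 16169720) (l 16174616))))))), by decide +kernel⟩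

def k3_pp_022 : ∃ t, chk3 f_pp_022 t 5 2 1 = true :=
  ⟨(a (b (b (a (c (l 16195872) (l 16152592)) (l 1)) (a (c (l 16194640) (l 16148688)) (l 1))) (a (a (b (c (l 16201696) (l 16147776)) (c (l 16197000) (l 16147464))) (b (c (l 16176088) (l 16136848)) (l 1))) (l 1))) (l 1)), by decide +kernel⟩

def k4_pp_022 : ∃ t, chk3 f_pp_022 t 2 3 1 = true :=
  ⟨(b (a (a (b (b (a (a (l 6) (a (l 6) (b (c (l 16449520) (l 16412424)) (l 6)))) (a (a (b (c (l 16489728) (l 16392776)) (l 6)) (c (l 16449704) (l 16378776))) (c (a (l 16444704) (l 16417912)) (a (l 16355856) (l 16332216))))) (a (l 6) (a (l 6) (a (l 6) (c (l 16433088) (l 16354176)))))) (l 6)) (a (a (b (c (b (a (l 16391312) (l 16365120)) (a (l 16404960) (l 16377848))) (b (a (l 16308936) (l 16286256)) (c (l 16335896) (l 16297480)))) (l 6)) (b (c (b (l 16327560) (l 16338640)) (b (l 16254400) (l 16270912))) (b (b (c (l 16349800) (l 16286096)) (l 6)) (l 6)))) (a (b (c (b (l 16280504) (l 16289304)) (b (l 16215736) (l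 16229136))) (b (c (l 16302552) (l 16267808)) (l 1))) (b (b (a (l 16219056) (l 16200648)) (l 1)) (l 1))))) (l 1)) (a (l 6) (l 1))), by decide +kernel⟩

def k5_pp_022 : ∃ t, chk3 f_pp_022 t 3 1 1 = true :=
  ⟨(l 1), by decide +kernel⟩

theorem s6_pp_022 : ∃ t, chk3 f_pp_022 t 8 2 1 = true := ex3_b k0_pp_022 k1_pp_022

theorem s7_pp_022 : ∃ t, chk3 f_pp_022 t 4 2 1 = true := ex3_a s6_pp_022 k2_pp_022

theorem s8_pp_022 : ∃ t, chk3 f_pp_022 t 2 2 1 = true := ex3_a s7_pp_022 k3_pp_022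

theorem s9_pp_022 : ∃ t, chk3 f_pp_022 t 2 1 1 = true := ex3_b s8_pp_022 k4_pp_022

theorem s10_pp_022 : ∃ t, chk3 f_pp_022 t 1 1 1 = true := ex3_a s9_pp_022 k5_pp_022

theorem c_pp_022 : CertB 0 536870912 0 536870912 991146299 28908434 3 eng mog cd0q0 cd0q2 pd2 false true true .pp 0 2 2
    ndB0q0 ndB0q2 pcB2 cut_pp_022 Ext.none :=
  certB2 (fam := false) (s1 := true) (s2 := true) (a := 0) (b := 2) (c := 2) (cn := .pp) (n1 := ndB0q0) (n2 := ndB0q2) (pc := pcB2) (cut := cut_pp_022) (xt := Ext.none) (P1 := 0) (W1 := 536870912) (P2 := 0) (W2 := 536870912) (P3 := 991146299) (W3 := 28908434) (N0 := 3) (En := eng) (mo := mog) (C1 := cd0q0) (C2 := cd0q2) (C3 := pd2)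
    rfl (fun _ => rfl) s10_pp_022

noncomputable def cut_pp_101 : Cut := Cut.of [[⟨3, 0, 0, 1449551462⟩], [⟨4, 0, 0, 2845415833⟩]]

noncomputable def f_pp_101 : ℕ → ℕ → ℕ → ℕ → Bool := onCell 536870912 536870912 536870912 536870912 991146299 28908434
    (rowB 3 eng mog cd0q1 cd0q1 pd0 0 false true true .npn 1 0 1 (qsf 536870912 536870912 536870912 536870912 0) ndB0q1 ndB0q1 pcB0 cut_pp_101 Ext.none)

def k0_pp_101 : ∃ t, chk3 f_pp_101 t 1 1 1 = true :=
  ⟨(l 3), by decide +kernel⟩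

theorem c_pp_101 : CertB 536870912 536870912 536870912 536870912 991146299 28908434 3 eng mog cd0q1 cd0q1 pd0 false true true .npn 1 0 1
    ndB0q1 ndB0q1 pcB0 cut_pp_101 Ext.none :=
  certB0 (fam := false) (s1 := true) (s2 := true) (a := 1) (b := 0) (c := 1) (cn := .npn) (n1 := ndB0q1) (n2 := ndB0q1) (pc := pcB0) (cut := cut_pp_101) (xt := Ext.none) (P1 := 536870912) (W1 := 536870912) (P2 := 536870912) (W2 := 536870912) (P3 := 991146299) (W3 := 28908434) (N0 := 3) (En := eng) (mo := mog) (C1 := cd0q1) (C2 := cd0q1) (C3 := pd0)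
    rfl k0_pp_101

noncomputable def cut_pp_102 : Cut := Cut.of [[⟨3, 0, 0, 1449551462⟩], [⟨4, 0, 0, 2845415833⟩]]

noncomputable def f_pp_102 : ℕ → ℕ → ℕ → ℕ → Bool := onCell 536870912 536870912 0 536870912 991146299 28908434
    (rowB 3 eng mog cd0q1 cd0q2 pd0 0 false true true .npp 1 0 2 (qsf 536870912 536870912 0 536870912 0) ndB0q1 ndB0q2 pcB0 cut_pp_102 Ext.none)

def k0_pp_102 : ∃ t, chk3 f_pp_102 t 1 1 1 = true :=
  ⟨(a (l 6) (l 3)), by decide +kernel⟩

theorem c_pp_102 : CertB 536870912 536870912 0 536870912 991146299 28908434 3 eng mog cd0q1 cd0q2 pd0 false true true .npp 1 0 2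
    ndB0q1 ndB0q2 pcB0 cut_pp_102 Ext.none :=
  certB0 (fam := false) (s1 := true) (s2 := true) (a := 1) (b := 0) (c := 2) (cn := .npp) (n1 := ndB0q1) (n2 := ndB0q2) (pc := pcB0) (cut := cut_pp_102) (xt := Ext.none) (P1 := 536870912) (W1 := 536870912) (P2 := 0) (W2 := 536870912) (P3 := 991146299) (W3 := 28908434) (N0 := 3) (En := eng) (mo := mog) (C1 := cd0q1) (C2 := cd0q2) (C3 := pd0)
    rfl k0_pp_102

noncomputable def cut_pp_112 : Cut := Cut.of [[⟨3, 0, 0, 1449551462⟩], [⟨4, 0, 0, 2845415833⟩]]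

noncomputable def f_pp_112 : ℕ → ℕ → ℕ → ℕ → Bool := onCell 536870912 536870912 0 536870912 991146299 28908434
    (rowB 3 eng mog cd0q1 cd0q2 pd1 0 false true true .dn 1 1 2 (qsf 536870912 536870912 0 536870912 1) ndB0q1 ndB0q2 pcB1 cut_pp_112 Ext.none)

def k0_pp_112 : ∃ t, chk3 f_pp_112 t 1 1 1 = true :=
  ⟨(a (l 6) (l 1)), by decide +kernel⟩

theorem c_pp_112 : CertB 536870912 536870912 0 536870912 991146299 28908434 3 eng mog cd0q1 cd0q2 pd1 false true true .dn 1 1 2
    ndB0q1 ndB0q2 pcB1 cut_pp_112 Ext.none :=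
  certB0 (fam := false) (s1 := true) (s2 := true) (a := 1) (b := 1) (c := 2) (cn := .dn) (n1 := ndB0q1) (n2 := ndB0q2) (pc := pcB1) (cut := cut_pp_112) (xt := Ext.none) (P1 := 536870912) (W1 := 536870912) (P2 := 0) (W2 := 536870912) (P3 := 991146299) (W3 := 28908434) (N0 := 3) (En := eng) (mo := mog) (C1 := cd0q1) (C2 := cd0q2) (C3 := pd1)
    rfl k0_pp_112

noncomputable def cut_pp_202 : Cut := Cut.of [[⟨3, 0, 0, 1449551462⟩], [⟨4, 0, 0, 2845415833⟩]]

noncomputable def f_pp_202 : ℕ → ℕ → ℕ → ℕ → Bool := onCell 0 536870912 0 536870912 991146299 28908434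
    (rowB 3 eng mog cd0q2 cd0q2 pd0 0 false true true .pp 2 0 2 (qsf 0 536870912 0 536870912 0) ndB0q2 ndB0q2 pcB0 cut_pp_202 Ext.none)

def k0_pp_202 : ∃ t, chk3 f_pp_202 t 1 1 1 = true :=
  ⟨(l 3), by decide +kernel⟩

theorem c_pp_202 : CertB 0 536870912 0 536870912 991146299 28908434 3 eng mog cd0q2 cd0q2 pd0 false true true .pp 2 0 2
    ndB0q2 ndB0q2 pcB0 cut_pp_202 Ext.none :=
  certB0 (fam := false) (s1 := true) (s2 := true) (a := 2) (b := 0) (c := 2) (cn := .pp) (n1 := ndB0q2) (n2 := ndB0q2) (pc := pcB0) (cut := cut_pp_202) (xt := Ext.none) (P1 := 0) (W1 := 536870912) (P2 := 0) (W2 := 536870912) (P3 := 991146299) (W3 := 28908434) (N0 := 3) (En := eng) (mo := mog) (C1 := cd0q2) (C2 := cd0q2) (C3 := pd0)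
    rfl k0_pp_202

noncomputable def cut_pm_001 : Cut := Cut.of [[⟨3, 0, 0, 1449551462⟩], [⟨4, 0, 0, 2845415833⟩]]

noncomputable def f_pm_001 : ℕ → ℕ → ℕ → ℕ → Bool := onCell 0 536870912 536870912 536870912 991146299 28908434
    (rowB 3 eng mog cd0q0 cd0q1 pd0 0 false true false .up 0 0 1 (qsf 0 536870912 536870912 536870912 0) ndB0q0 ndB0q1 pcB0 cut_pm_001 Ext.none)

def k0_pm_001 : ∃ t, chk3 f_pm_001 t 2 1 1 = true :=
  ⟨(b (l 4) (b (l 14) (l 2))), by decide +kernel⟩

def k1_pm_001 : ∃ t, chk3 f_pm_001 t 3 2 1 = true :=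
  ⟨(l 14), by decide +kernel⟩

def k2_pm_001 : ∃ t, chk3 f_pm_001 t 6 6 1 = true :=
  ⟨(l 14), by decide +kernel⟩

def k3_pm_001 : ∃ t, chk3 f_pm_001 t 7 12 1 = true :=
  ⟨(l 14), by decide +kernel⟩

def k4_pm_001 : ∃ t, chk3 f_pm_001 t 14 13 1 = true :=
  ⟨(a (l 14) (a (l 14) (b (l 14) (b (l 14) (b (l 14) (b (a (l 14) (a (l 14) (c (l 16198672) (l 15959688)))) (c (c (l 16205384) (l 16102032)) (a (c (l 16027744) (l 15912640)) (c (l 16041784) (l 15928488)))))))))), by decide +kernel⟩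

def k5_pm_001 : ∃ t, chk3 f_pm_001 t 15 26 1 = true :=
  ⟨(a (l 14) (a (b (l 14) (c (a (c (l 16306952) (l 16201232)) (b (l 16269920) (b (l 16242520) (b (l 16228368) (l 16220816))))) (b (c (l 16118536) (l 16022016)) (a (c (l 16096616) (l 15992424)) (b (l 16045408) (b (l 16025112) (a (l 16014664) (l 16012472)))))))) (b (b (l 14) (c (c (l 16326888) (l 16245184)) (a (l 16120336) (l 16106224)))) (c (b (c (l 16296680) (l 16207832)) (a (b (l 16231808) (l 16221752)) (b (l 16225272) (l 16222768)))) (b (a (l 16071088) (l 16057784)) (b (a (l 16032264) (a (l 16004384) (l 16024240))) (a (b (l 15997056) (l 16015872)) (l 16022200)))))))), by decide +kernel⟩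

def k6_pm_001 : ∃ t, chk3 f_pm_001 t 15 27 1 = true :=
  ⟨(a (a (b (a (l 14) (b (l 14) (b (l 14) (c (l 16201088) (l 15972072))))) (c (c (b (l 16211872) (l 16241592)) (b (a (l 16145776) (l 16155912)) (a (l 16157520) (l 16167192)))) (b (a (c (l 16036176) (l 15921440)) (c (l 16048248) (l 15935344))) (a (c (l 16050576) (l 15938360)) (c (l 16062120) (l 15951672)))))) (b (a (a (b (l 14) (c (b (l 16204368) (l 16207336)) (b (b (l 14) (l 15987440)) (l 15991752)))) (b (a (l 14) (b (l 14) (b (l 14) (c (l 16206984) (l 15991184))))) (c (l 16209240) (l 15973672)))) (c (b (b (a (l 14) (l 16221408)) (b (a (l 16211656) (l 16211240)) (l 16210272))) (l 16214400)) (b (b (c (l 16069472) (l 15960200)) (b (a (l 15987464) (l 15998072)) (l 15996544))) (c (l 16057704) (l 15946512))))) (c (c (a (l 16247496) (l 16252920)) (b (l 16126800) (l 16137400))) (c (b (a (l 16059032) (l 16068560)) (l 16035080)) (b (a (l 15947936) (l 15959248)) (a (l 15963672) (l 15974384))))))) (b (c (a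 (b (a (b (b (l 16219784) (l 16215104)) (l 16215608)) (l 16198888)) (a (l 16220240) (l 16224888))) (b (l 16203552) (a (l 16228376) (l 16230728)))) (a (b (b (a (b (a (l 16013152) (l 16008320)) (a (l 15981840) (l 16004816))) (l 15990296)) (a (l 16005360) (l 16014224))) (a (l 15991472) (l 15999968))) (b (c (l 16075888) (l 15969880)) (c (l 16083224) (l 15978408))))) (c (c (a (b (l 16276344) (l 16283552)) (l 16262688)) (a (b (l 16181624) (l 16191312)) (b (l 16189792) (l 16198592)))) (a (b (a (l 16013248) (l 16031696)) (a (c (l 16089144) (l 15983824)) (l 16044560))) (b (a (l 16017520) (l 16044144)) (a (l 16050792) (l 16055872))))))), by decide +kernel⟩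

def k7_pm_001 : ∃ t, chk3 f_pm_001 t 6 28 1 = true :=
  ⟨(l 14), by decide +kernel⟩

def k8_pm_001 : ∃ t, chk3 f_pm_001 t 14 28 1 = true :=
  ⟨(a (a (b (l 14) (b (l 14) (l 2))) (b (a (l 14) (b (l 14) (a (l 14) (a (l 14) (b (l 14) (c (l 16185832) (l 15959792))))))) (c (c (b (a (l 16187032) (l 16243144)) (l 23721850967)) (b (a (l 16085128) (l 16101248)) (b (l 16109840) (l 16142488)))) (a (b (b (l 14) (c (l 16026408) (l 15915408))) (c (l 16005104) (b (l 15931312) (l 2)))) (b (c (l 15995880) (b (l 15920136) (l 15934944))) (c (l 16022408) (b (l 15950480) (l 15966760)))))))) (a (b (a (b (l 14) (c (c (l 16240736) (l 16096648)) (c (b (l 16025432) (l 16036552)) (b (l 15911768) (l 15924816))))) (c (b (c (l 16239560) (l 16093736)) (c (l 16252672) (l 16110552))) (b (b (l 14) (c (l 16031112) (l 15917424))) (c (l 16004744) (b (l 15929448) (l 15942152)))))) (c (c (b (a (l 16255936) (l 16267376)) (l 16278448)) (b (b (l 16117848) (l 16127864)) (a (l 16179288) (l 16192040))))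 (b (c (a (l 16012416) (l 16027544)) (a (b (l 15938560) (l 15953016)) (b (l 15955560) (l 15969656)))) (c (b (l 16039048) (l 16052432)) (a (b (l 15968192) (l 15984096)) (l 15992152)))))) (c (b (b (c (a (l 16250632) (l 16260400)) (b (l 16109136) (l 16116688))) (c (l 16247104) (a (l 16165056) (l 16176288)))) (b (c (l 16282032) (l 16146784)) (c (l 16297648) (l 16187640)))) (b (b (a (c (b (l 16036560) (l 16045936)) (b (l 15923000) (l 15934024))) (c (l 16033832) (b (l 15938536) (l 15949240)))) (a (c (l 16019120) (b (l 15945720) (l 15958088))) (c (l 16074088) (l 15966544)))) (b (c (b (l 16041952) (l 16053456)) (a (l 15935992) (l 15991936))) (c (a (l 16107760) (l 16119480)) (a (l 16006816) (l 16020072)))))))), by decide +kernel⟩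

def k9_pm_001 : ∃ t, chk3 f_pm_001 t 15 28 1 = true :=
  ⟨(a (c (b (a (c (b (l 16251680) (l 16263176)) (b (l 16133768) (l 16169704))) (c (b (l 16284680) (l 16295272)) (b (l 16149624) (l 16184504)))) (a (b (c (l 16297128) (l 16186488)) (c (l 16311720) (l 16205184))) (b (c (l 16307304) (l 16200168)) (c (l 16320904) (l 16238648))))) (b (a (b (a (c (l 16067096) (l 15957832)) (c (l 16078072) (l 15970512))) (c (a (l 16085776) (l 16096152)) (a (l 15979888) (l 15991888)))) (b (c (l 16050184) (a (l 15981872) (l 15991936))) (c (l 16067360) (l 15975944)))) (a (b (c (l 16069736) (a (l 16004576) (l 16015856))) (c (l 16113552) (a (l 16031952) (l 16042472)))) (b (c (l 16107616) (l 15998824)) (c (l 16129112) (l 16034784)))))) (c (c (b (a (b (l 16291976) (l 16301688)) (l 16257000)) (a (b (l 16312792) (l 16325416)) (l 16235496))) (b (a (b (l 16202560) (l 16215424)) (b (l 16208888) (l 16220728))) (a (b (l 16229984) (l 16246328)) (b (l 16234192) (l 16249392))))) (b (a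 (c (b (l 16064592) (l 16080560)) (b (a (l 16000728) (l 16008296)) (l 15981680))) (b (a (l 16065176) (l 16069656)) (a (l 16060720) (l 16085536)))) (a (b (c (a (l 16138008) (l 16142760)) (l 16003112)) (c (l 16139680) (l 16048016))) (b (a (c (l 16146360) (l 16052976)) (l 16061616)) (c (l 16166512) (l 16056448))))))), by decide +kernel⟩

def k10_pm_001 : ∃ t, chk3 f_pm_001 t 3 29 1 = true :=
  ⟨(a (l 2) (b (b (a (a (a (l 2) (a (l 2) (b (c (l 16229656) (l 16035448)) (l 2)))) (c (a (c (l 16296936) (l 16209024)) (c (l 16315056) (l 16230576))) (a (c (a (l 16108616) (l 16122376)) (c (l 16000296) (l 15949848))) (c (l 16119416) (a (l 16038544) (l 16051016)))))) (a (c (a (c (l 16328072) (l 16246872)) (c (l 16336216) (l 16258136))) (a (c (l 16138760) (l 16046136)) (c (l 16152896) (l 16062928)))) (c (a (c (l 16339712) (l 16264592)) (l 16177632)) (a (c (l 16162048) (l 16074560)) (c (l 16187464) (l 16081376)))))) (a (a (l 2) (c (a (c (l 16317408) (l 16234520)) (c (l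 16334424) (l 16254768))) (a (c (l 16146296) (l 16032104)) (c (l 16169568) (l 16079192))))) (a (c (a (c (l 16346344) (l 16269776)) (c (l 16353416) (l 16279752))) (a (c (l 16187432) (l 16099712)) (c (l 16200088) (l 16114840)))) (c (a (l 16195384) (l 16215664)) (a (c (l 16207752) (l 16124776)) (c (l 16210728) (l 16129912))))))) (a (a (l 2) (a (a (l 2) (a (l 2) (b (c (l 16308960) (l 16145688)) (l 2)))) (c (b (c (l 16355792) (l 16281200)) (l 16219464)) (b (c (l 16201272) (l 16116328)) (c (l 16235576) (l 16156376)))))) (a (c (a (b (l 16205624) (l 16230472)) (b (l 16212960) (l 16236552))) (a (b (c (l 16217600) (l 16135128)) (c (l 16250320) (l 16173384))) (b (c (l 16228712) (l 16148504)) (c (l 16259840) (l 16184952))))) (c (a (b (l 16215600) (l 16258920)) (b (l 16213712) (l 16255792))) (a (b (c (l 16234840) (l 16156688)) (c (l 16264368) (l 16191312))) (b (c (l 16236272) (l 16160056)) (a (l 16145592) (l 16144816))))))))), by decide +kernel⟩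

def k11_pm_001 : ∃ t, chk3 f_pm_001 t 6 15 1 = true :=
  ⟨(l 2), by decide +kernel⟩

def k12_pm_001 : ∃ t, chk3 f_pm_001 t 7 30 1 = true :=
  ⟨(a (b (b (a (l 2) (a (l 2) (a (l 2) (c (l 16314008) (l 16198952))))) (l 2)) (l 2)) (b (a (c (a (c (l 16241848) (l 16221768)) (b (l 16283648) (l 16224264))) (a (b (a (l 16185056) (l 16190776)) (l 16146096)) (b (a (l 16195176) (l 16198280)) (a (l 16214784) (l 16216984))))) (c (a (b (l 16269416) (l 16170256)) (b (l 16219056) (a (l 16190200) (l 16176904)))) (a (b (a (l 16179152) (l 16179768)) (a (l 16196928) (l 16196624))) (b (a (l 16179224) (l 16177552)) (a (l 16195152) (l 16192552)))))) (b (a (c (a (l 16197760) (l 16139968)) (a (l 16191912) (l 16197040))) (a (a (c (l 16178152) (l 16260432)) (c (l 16163088) (l 16259168))) (c (b (l 16158576) (l 16126416)) (c (l 16243176) (l 16247856))))) (a (a (l 2) (c (a (l 16184648) (l 16146784)) (c (l 16229176) (l 16301608)))) (c (a (a (l 16131032) (l 16095456)) (c (l 16114848)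 (l 16142000))) (a (a (l 16188600) (l 16174072)) (a (l 16139736) (l 16127520)))))))), by decide +kernel⟩

def k13_pm_001 : ∃ t, chk3 f_pm_001 t 7 31 1 = true :=
  ⟨(a (l 2) (b (b (a (a (l 2) (a (l 2) (c (l 16094056) (l 16120840)))) (a (c (c (l 16071240) (l 16114480)) (c (l 16117544) (l 16143384))) (c (a (c (l 16072272) (l 16115728)) (c (l 16060488) (l 16104088))) (c (b (l 16175368) (l 16134536)) (b (l 16223696) (l 16180400)))))) (a (l 2) (b (c (a (a (l 16062632) (l 16049000)) (c (l 15990248) (l 16050880))) (a (c (l 16116416) (l 16159072)) (c (l 16092272) (l 16135432)))) (a (a (l 2) (b (c (l 16019120) (l 16096816)) (c (l 15978744) (l 16074128)))) (c (b (a (l 16006936) (l 15995960)) (a (l 15967920) (a (l 15960592) (l 15956336)))) (b (c (l 16059616) (l 16100632)) (c (b (l 16021880) (l 16016280)) (b (l 16082712) (l 16055264))))))))) (a (l 2) (a (a (l 2) (b (c (l 16011648) (l 16074080)) (l 2))) (c (b (b (l 15969800) (l 16006776)) (l 16031328)) (b (b (l 16058808)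 (l 16064416)) (l 16073480))))))), by decide +kernel⟩

theorem s14_pm_001 : ∃ t, chk3 f_pm_001 t 7 15 1 = true := ex3_b k12_pm_001 k13_pm_001

theorem s15_pm_001 : ∃ t, chk3 f_pm_001 t 3 15 1 = true := ex3_a k11_pm_001 s14_pm_001

theorem s16_pm_001 : ∃ t, chk3 f_pm_001 t 7 28 1 = true := ex3_a k8_pm_001 k9_pm_001

theorem s17_pm_001 : ∃ t, chk3 f_pm_001 t 3 28 1 = true := ex3_a k7_pm_001 s16_pm_001

theorem s18_pm_001 : ∃ t, chk3 f_pm_001 t 3 14 1 = true := ex3_b s17_pm_001 k10_pm_001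

theorem s19_pm_001 : ∃ t, chk3 f_pm_001 t 3 7 1 = true := ex3_b s18_pm_001 s15_pm_001

theorem s20_pm_001 : ∃ t, chk3 f_pm_001 t 15 13 1 = true := ex3_b k5_pm_001 k6_pm_001

theorem s21_pm_001 : ∃ t, chk3 f_pm_001 t 7 13 1 = true := ex3_a k4_pm_001 s20_pm_001

theorem s22_pm_001 : ∃ t, chk3 f_pm_001 t 7 6 1 = true := ex3_b k3_pm_001 s21_pm_001

theorem s23_pm_001 : ∃ t, chk3 f_pm_001 t 3 6 1 = true := ex3_a k2_pm_001 s22_pm_001

theorem s24_pm_001 : ∃ t, chk3 f_pm_001 t 3 3 1 = true := ex3_b s23_pm_001 s19_pm_001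

theorem s25_pm_001 : ∃ t, chk3 f_pm_001 t 3 1 1 = true := ex3_b k1_pm_001 s24_pm_001

theorem s26_pm_001 : ∃ t, chk3 f_pm_001 t 1 1 1 = true := ex3_a k0_pm_001 s25_pm_001

theorem c_pm_001 : CertB 0 536870912 536870912 536870912 991146299 28908434 3 eng mog cd0q0 cd0q1 pd0 false true false .up 0 0 1
    ndB0q0 ndB0q1 pcB0 cut_pm_001 Ext.none :=
  certB0 (fam := false) (s1 := true) (s2 := false) (a := 0) (b := 0) (c := 1) (cn := .up) (n1 := ndB0q0) (n2 := ndB0q1) (pc := pcB0) (cut := cut_pm_001) (xt := Ext.none) (P1 := 0) (W1 := 536870912) (P2 := 536870912) (W2 := 536870912) (P3 := 991146299) (W3 := 28908434) (N0 := 3) (En := eng) (mo := mog) (C1 := cd0q0) (C2 := cd0q1) (C3 := pd0)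
    rfl s26_pm_001

noncomputable def cut_pm_011 : Cut := Cut.of [[⟨3, 0, 0, 1449551462⟩], [⟨4, 0, 0, 2845415833⟩], [⟨0, 0, 0, 26843545⟩, ⟨1, 1, 0, 26843545⟩, ⟨2, 1, 0, 26843545⟩]]

noncomputable def f_pm_011 : ℕ → ℕ → ℕ → ℕ → Bool := onCell 536870912 536870912 536870912 536870912 991146299 28908434
    (rowB 3 eng mog cd0q0 cd0q1 pd1 2 false true false .pnn 0 1 1 (qsf 0 536870912 536870912 536870912 1) ndB0q0 ndB0q1 pcB1 cut_pm_011 Ext.none)

def k0_pm_011 : ∃ t, chk3 f_pm_011 t 1 2 1 = true :=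
  ⟨(l 4), by decide +kernel⟩

def k1_pm_011 : ∃ t, chk3 f_pm_011 t 1 6 1 = true :=
  ⟨(l 14), by decide +kernel⟩

def k2_pm_011 : ∃ t, chk3 f_pm_011 t 4 14 1 = true :=
  ⟨(b (a (a (b (l 14) (c (a (b (l 16313544) (l 16298968)) (l 16303920)) (a (l 16240256) (l 16281304)))) (l 14)) (l 14)) (a (a (b (c (a (l 16255560) (l 16273936)) (a (l 16205224) (l 16246000))) (c (a (l 16224312) (l 16263352)) (a (l 16168440) (l 16187920)))) (b (c (a (l 16293376) (l 16313768)) (a (l 16266752) (l 16288464))) (c (a (l 16282512) (l 16302720)) (a (l 16229336) (l 16250688))))) (a (a (b (c (l 16355976) (l 16311096)) (c (l 16323848) (l 16272960))) (b (l 14) (c (l 16345792) (l 16296128)))) (a (b (l 14) (a (l 16338904) (l 16371720))) (l 14))))), by decide +kernel⟩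

def k3_pm_011 : ∃ t, chk3 f_pm_011 t 4 15 1 = true :=
  ⟨(b (a (a (b (c (a (l 16191384) (l 16209072)) (a (l 16150392) (l 16169480))) (c (a (l 16136200) (l 16195376)) (a (b (l 16120152) (l 16098552)) (b (l 16138920) (l 16117088))))) (b (c (a (l 16248872) (l 16268768)) (a (l 16189568) (l 16210592))) (c (a (l 16213784) (l 16233312)) (a (l 16126672) (l 16168280))))) (a (b (c (a (l 16289696) (l 16311504)) (a (l 16232472) (l 16255248))) (c (a (l 16253904) (l 16275496)) (a (l 16189808) (l 16212160)))) (b (c (a (l 16334096) (l 16357320)) (l 16228000)) (c (a (l 16297944) (l 16321128)) (a (l 16235352) (l 16259360)))))) (a (c (b (a (a (b (l 16150360) (l 16133480)) (b (l 16167168) (l 16149392))) (a (l 16175904) (l 16194984))) (a (b (a (l 16134488) (l 16126352)) (l 16138112)) (b (a (l 16140960) (l 16157240)) (l 16183888)))) (b (a (a (b (l 16054656) (a (l 16029432) (l 16058752))) (b (l 16093936) (l 16072032))) (a (b (l 16113264) (l 16090864)) (l 16080128))) (a (b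 (a (b (l 16031936) (l 16067792)) (b (l 16003992) (l 16080928))) (a (l 16091896) (l 16103080))) (b (b (a (l 16040928) (l 16100584)) (l 16082056)) (l 16059232))))) (b (a (c (a (l 16215176) (l 16236400)) (a (l 16143184) (l 16165152))) (c (a (l 16258616) (l 16281640)) (a (l 16187896) (l 16211440)))) (a (c (b (b (l 16142752) (l 16207528)) (l 16213896)) (b (b (a (l 16119848) (l 16140448)) (l 16136624)) (l 16151416))) (b (b (a (l 16158776) (l 16223360)) (l 16085648)) (c (l 16248856) (l 16184824))))))), by decide +kernel⟩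

def k4_pm_011 : ∃ t, chk3 f_pm_011 t 5 7 1 = true :=
  ⟨(b (l 14) (b (a (b (a (c (a (l 16381096) (l 16405360)) (l 16320496)) (l 14)) (a (c (l 16293952) (l 16254856)) (c (a (l 16393856) (l 16418888)) (a (l 16336064) (l 16362920))))) (a (a (b (l 14) (b (l 14) (l 16407056))) (l 14)) (l 14))) (a (b (a (c (l 16275376) (l 16206152)) (c (l 16303760) (l 16278704))) (a (b (c (l 16250552) (b (l 16220688) (l 16216512))) (l 16172064)) (b (a (l 16229832) (l 16254944)) (l 16235112)))) (b (b (a (c (l 16427168) (l 16366192)) (l 14)) (a (c (l 16407880) (l 16341384)) (c (l 16459120) (l 16396784)))) (a (b (a (l 16280592) (l 16285688)) (l 16259440)) (b (c (l 16379648) (l 16374352)) (l 16265456))))))), by decide +kernel⟩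

def k5_pm_011 : ∃ t, chk3 f_pm_011 t 3 7 1 = true :=
  ⟨(a (b (l 14) (a (b (l 14) (b (l 14) (a (c (b (l 16430600) (l 16430288)) (b (l 16388232) (l 16408408))) (l 14)))) (l 14))) (l 14)), by decide +kernel⟩

theorem s6_pm_011 : ∃ t, chk3 f_pm_011 t 4 7 1 = true := ex3_b k2_pm_011 k3_pm_011

theorem s7_pm_011 : ∃ t, chk3 f_pm_011 t 2 7 1 = true := ex3_a s6_pm_011 k4_pm_011

theorem s8_pm_011 : ∃ t, chk3 f_pm_011 t 1 7 1 = true := ex3_a s7_pm_011 k5_pm_011

theorem s9_pm_011 : ∃ t, chk3 f_pm_011 t 1 3 1 = true := ex3_b k1_pm_011 s8_pm_011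

theorem s10_pm_011 : ∃ t, chk3 f_pm_011 t 1 1 1 = true := ex3_b k0_pm_011 s9_pm_011

theorem c_pm_011 : CertB 0 536870912 536870912 536870912 991146299 28908434 3 eng mog cd0q0 cd0q1 pd1 false true false .pnn 0 1 1
    ndB0q0 ndB0q1 pcB1 cut_pm_011 Ext.none :=
  certB2 (fam := false) (s1 := true) (s2 := false) (a := 0) (b := 1) (c := 1) (cn := .pnn) (n1 := ndB0q0) (n2 := ndB0q1) (pc := pcB1) (cut := cut_pm_011) (xt := Ext.none) (P1 := 0) (W1 := 536870912) (P2 := 536870912) (W2 := 536870912) (P3 := 991146299) (W3 := 28908434) (N0 := 3) (En := eng) (mo := mog) (C1 := cd0q0) (C2 := cd0q1) (C3 := pd1)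
    rfl (fun _ => rfl) s10_pm_011

noncomputable def cut_pm_012 : Cut := Cut.of [[⟨3, 0, 0, 1449551462⟩], [⟨4, 0, 0, 2845415833⟩], [⟨0, 0, 0, 53687091⟩, ⟨1, 1, 0, 53687091⟩, ⟨2, 1, 0, 53687091⟩]]

noncomputable def f_pm_012 : ℕ → ℕ → ℕ → ℕ → Bool := onCell 536870912 536870912 0 536870912 991146299 28908434
    (rowB 3 eng mog cd0q0 cd0q2 pd1 2 false true false .pnp 0 1 2 (qsf 0 536870912 0 536870912 1) ndB0q0 ndB0q2 pcB1 cut_pm_012 Ext.none)

def k0_pm_012 : ∃ t, chk3 f_pm_012 t 2 2 1 = true :=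
  ⟨(a (a (l 2) (b (l 2) (b (l 2) (a (l 2) (b (l 2) (a (l 2) (l 16281152))))))) (b (a (b (l 6) (a (b (l 6) (a (l 2) (l 213774565959))) (a (b (l 6) (l 16504016)) (b (b (l 6) (l 16581888)) (l 16615160))))) (b (a (b (l 6) (a (l 6) (b (l 6) (l 16599632)))) (b (a (l 6) (b (l 6) (l 16622576))) (l 16485384))) (a (a (b (l 16558792) (l 16639024)) (l 16497288)) (b (l 16485008) (l 16364440))))) (a (b (a (b (a (l 16476384) (l 16587008)) (l 129485730807)) (a (b (l 16610856) (l 16533208)) (l 16321848))) (a (b (a (l 16455336) (b (l 16467488) (l 16386472))) (c (l 16235440) (l 16224528))) (b (c (l 16313736) (l 16308336)) (c (l 16196080) (l 16183944))))) (a (b (a (l 16293176) (b (l 16516560) (l 16402064))) (b (c (l 16292928) (l 16267120)) (c (l 16095688) (l 16149224)))) (b (b (a (l 16431592) (l 16437184)) (a (l 16371120) (l 16346904))) (b (c (l 16233088) (l 16233032)) (c (a (l 16208936) (l 16208344)) (l 16079488)))))))), by decide +kernel⟩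

def k1_pm_012 : ∃ t, chk3 f_pm_012 t 2 6 1 = true :=
  ⟨(a (a (l 2) (b (a (l 2) (b (c (l 16108032) (l 16112248)) (c (a (l 16035560) (l 16015816)) (l 15872856)))) (b (a (a (l 2) (b (l 15858232) (b (b (l 15772304) (l 15761952)) (l 15797064)))) (b (a (c (l 15869968) (l 15795152)) (b (l 15856520) (a (l 15804152) (l 15837920)))) (a (c (l 15850632) (l 15779488)) (l 15863568)))) (a (c (a (l 15876064) (l 15911256)) (l 15814992)) (c (l 15878688) (l 15892656)))))) (a (b (a (b (c (l 16030928) (l 16074712)) (a (c (l 16001520) (l 15911368)) (c (b (l 16030616) (l 15934008)) (l 15902496)))) (b (c (a (l 16129040) (l 16117712)) (l 16041552)) (b (c (l 16001784) (l 15937040)) (c (a (b (l 15971768) (l 15977104)) (b (l 16068336) (l 15988720))) (a (l 15877352) (l 15905928)))))) (a (b (a (b (c (b (l 15990840) (l 15910480)) (l 15820088)) (l 15903120)) (c (b (l 15920040) (l 15979176)) (l 15879536))) (c (l 16027680) (l 15967512))) (c (b (a (l 15995312) (l 16030744)) (l 16025912))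 (b (a (l 15920408) (l 15962688)) (l 16039912))))) (b (a (b (c (a (l 16112168) (l 16112536)) (l 15909472)) (b (a (c (l 16007176) (l 15947320)) (c (b (l 16050048) (l 16042488)) (l 15972304))) (c (a (l 16000120) (l 16057904)) (a (l 15944584) (l 15989632))))) (b (b (a (l 16106424) (l 16118056)) (a (l 16082984) (c (b (l 16121928) (l 16086480)) (l 16049488)))) (c (a (a (a (l 16052936) (l 16061328)) (l 16074576)) (c (l 16114632) (l 16087496))) (a (b (l 16009224) (l 16035176)) (l 16066432))))) (a (c (b (a (l 16065224) (l 16098712)) (a (l 16132072) (l 16159848))) (b (a (l 16004320) (l 16045312)) (l 16046800))) (c (b (a (l 16131360) (l 16163168)) (a (l 16186896) (l 16213216))) (b (a (l 16085496) (l 16124848)) (a (l 16159904) (l 16192416)))))))), by decide +kernel⟩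

def k2_pm_012 : ∃ t, chk3 f_pm_012 t 2 7 1 = true :=
  ⟨(a (b (a (a (l 2) (a (b (l 2) (l 16050688)) (b (l 240616803207) (l 16079160)))) (a (b (c (l 16009312) (l 15959080)) (c (l 16130360) (l 16109528))) (b (c (l 16067472) (l 16024440)) (c (l 16179024) (l 16163504))))) (a (b (a (b (l 16082464) (l 87609394951)) (b (l 16155752) (l 16188720))) (a (b (c (l 16266288) (l 16268376)) (a (l 16067272) (l 16075584))) (b (l 16168664) (a (l 16105968) (l 16116480))))) (b (a (b (l 16224976) (l 16296168)) (b (l 16269440) (l 16336960))) (a (c (l 16115528) (a (l 16114304) (l 16145504))) (c (l 16182232) (l 16099416)))))) (b (a (a (b (c (l 16121792) (l 16086784)) (c (l 16223568) (l 16214688))) (b (c (l 16172136) (l 16146600)) (c (l 16264320) (l 16263168)))) (a (b (c (l 16218920) (l 16203704)) (c (l 16302080) (l 16287656))) (b (c (l 16220984) (l 16236656)) (c (l 16316400) (l 16309088))))) (a (b (a (b (l 16289472) (l 16374280)) (c (l 16366784) (l 16390720))) (a (c (l 16273888)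 (l 16166536)) (a (l 16190840) (l 16227696)))) (b (a (a (l 16298552) (l 16293448)) (a (l 16308688) (l 16323360))) (a (a (l 16244280) (l 16261512)) (a (l 16279328) (l 16297672))))))), by decide +kernel⟩

def k3_pm_012 : ∃ t, chk3 f_pm_012 t 6 2 1 = true :=
  ⟨(b (a (a (b (a (b (l 16641632) (l 16657536)) (l 16556456)) (b (a (l 16572568) (l 16527464)) (a (l 16468000) (l 16454992)))) (b (a (c (l 16604080) (l 16568832)) (b (l 16568472) (l 16512648))) (a (b (l 16489640) (l 16428336)) (b (l 16459376) (l 16409176))))) (a (b (a (b (l 16525008) (l 16479504)) (b (l 16489712) (l 16454448))) (a (b (l 16436896) (l 16397680)) (b (l 16422376) (l 16394000)))) (b (a (b (l 16462856) (l 16437680)) (b (l 16444648) (l 16429384))) (a (b (l 16415976) (l 16398264)) (b (l 16417848) (l 16410592)))))) (a (c (b (a (a (l 16353208) (l 16334960)) (a (l 16323560) (l 16319264))) (a (b (a (l 16283200) (l 16282896)) (a (l 16214048) (l 16226272))) (b (a (l 16289344) (l 16302720)) (a (l 16245192)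 (b (l 16278048) (l 16263688)))))) (b (a (a (l 16341304) (l 16327024)) (a (l 16320312) (l 16321176))) (a (b (l 16186008) (a (l 16155920) (l 16173992))) (b (a (l 16243256) (l 16262720)) (a (l 16199200) (l 16231608)))))) (b (a (a (b (l 16362448) (l 16352808)) (b (l 16369928) (l 16371800))) (a (b (l 16385168) (l 16393104)) (b (l 16408264) (c (l 16418480) (l 16404440))))) (a (b (c (a (l 16323096) (l 16350536)) (a (l 16289608) (l 16324000))) (c (a (b (l 16307480) (b (l 16301112) (l 16287024))) (b (l 16343832) (b (l 16341296) (l 16340096)))) (a (b (l 16274984) (l 16267176)) (b (l 16318752) (l 16338440))))) (b (a (c (l 16385120) (l 16365944)) (c (l 16426912) (l 16415504))) (a (b (c (b (l 16386448) (l 16386880)) (l 16368848)) (c (a (l 16352520) (l 16393864)) (l 16369232))) (b (a (c (l 16421944) (l 16410944)) (b (l 16443968) (l 16442208))) (c (l 16424704) (l 16418408))))))))), by decide +kernel⟩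

def k4_pm_012 : ∃ t, chk3 f_pm_012 t 14 2 1 = true :=
  ⟨(a (b (b (a (a (l 16411992) (l 16411960)) (b (l 16435008) (l 16438888))) (a (b (l 16428144) (l 16431120)) (b (l 16447008) (l 16459952)))) (b (a (b (l 16439312) (c (l 16456624) (l 16450192))) (b (l 16457440) (c (l 16481432) (l 16503888)))) (b (a (c (b (l 16470256) (l 16438704)) (l 16408768)) (b (l 16484096) (a (c (l 16501256) (l 16505240)) (b (l 16533768) (l 16533088))))) (c (a (b (a (l 16470104) (l 16492040)) (l 16464888)) (b (l 16481288) (l 16483112))) (a (b (a (l 16467552) (l 16493656)) (l 16466528)) (l 16458952)))))) (a (b (b (b (l 16443952) (l 16457016)) (b (l 16474568) (l 16476240))) (b (b (l 16462752) (c (l 16534984) (l 16544576))) (b (b (a (l 16561968) (l 16494488)) (b (a (l 16510088) (l 16509648)) (l 16494576))) (c (a (l 16501440) (l 16518464)) (l 16496608))))) (b (b (b (l 16462312) (l 16484272)) (b (l 16469032) (l 16501080))) (b (b (l 16497640) (c (l 16465440) (l 16477408))) (c (b (b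 (b (l 16462944) (a (l 16512056) (l 16491024))) (l 16491880)) (b (l 16487720) (l 16525088))) (b (b (b (l 16493096) (a (l 16501008) (l 16476840))) (l 16499888)) (c (l 16485840) (l 16478784)))))))), by decide +kernel⟩

def k5_pm_012 : ∃ t, chk3 f_pm_012 t 15 4 1 = true :=
  ⟨(a (b (a (c (l 16455664) (l 16451392)) (b (l 16465208) (l 16504000))) (a (b (l 16514424) (l 16484760)) (c (l 16418240) (l 16423464)))) (b (a (c (l 16488576) (l 16489752)) (c (l 16416032) (l 16390104))) (a (b (l 16418192) (c (l 16426368) (l 16424168))) (b (c (l 16433224) (l 16405120)) (c (l 16300088) (l 16353888)))))), by decide +kernel⟩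

def k6_pm_012 : ∃ t, chk3 f_pm_012 t 15 10 1 = true :=
  ⟨(a (b (a (c (l 16473512) (l 16482240)) (c (l 16418784) (l 16441680))) (a (a (c (l 16488504) (l 16474296)) (c (b (l 16471024) (b (l 16454264) (l 16443976))) (l 16401040))) (b (c (l 16404896) (l 16403912)) (a (b (l 16412656) (c (a (l 16402048) (l 16389840)) (l 16394808))) (b (c (a (l 16399792) (l 16363984)) (l 16367608)) (c (l 16374432) (l 16369848))))))) (b (a (c (b (l 16411608) (l 16365304)) (l 16330968)) (c (b (l 16281280) (a (l 16334288) (l 16297384))) (a (l 16316560) (l 16276656)))) (a (b (c (a (l 16377016) (b (l 16349048) (b (l 16317920) (b (a (l 16342552) (l 16349008)) (a (l 16341736) (l 16330904)))))) (a (l 16349624) (b (l 16318552) (c (l 16294384) (l 16278176))))) (c (a (b (a (b (l 16349088) (l 16371832)) (l 16338240)) (l 16376352)) (l 16329784)) (a (b (l 16337240) (l 16348304)) (l 16319968)))) (a (b (c (b (c (c (l 16304904) (l 16296768)) (l 16284304)) (b (a (b (a (l 16317720) (l 16309640))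 (l 16314288)) (l 16302240)) (l 16314296))) (b (l 16279464) (c (l 16265120) (l 16247376)))) (c (b (l 16303776) (l 16317648)) (l 16298600))) (b (b (c (a (b (l 16288408) (b (a (l 16288224) (l 16280960)) (l 16286792))) (b (b (a (l 16275744) (l 16266416)) (a (c (l 16282576) (l 16264024)) (l 16266688))) (l 16274784))) (b (l 16221920) (l 16222120))) (c (l 16269896) (l 16254088))) (c (c (l 16300168) (l 16304080)) (l 16277472))))))), by decide +kernel⟩

def k7_pm_012 : ∃ t, chk3 f_pm_012 t 15 11 1 = true :=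
  ⟨(a (b (a (b (a (b (c (l 16466344) (l 16449472)) (l 16464560)) (c (l 16449544) (l 16429744))) (c (a (l 16487256) (l 16470224)) (l 16460480))) (c (b (a (l 16431328) (l 16413096)) (a (l 16453248) (l 16436352))) (b (l 16398560) (l 16379856)))) (a (a (c (l 16473264) (l 16477272)) (c (a (l 16482976) (l 16475472)) (l 16439120))) (c (b (a (l 16474752) (l 16459200)) (a (l 16495840) (l 16481624))) (b (a (l 16453392) (l 16435832)) (a (l 16474960) (l 16458968)))))) (a (b (c (b (a (l 16394984) (l 16377048)) (a (l 16419584) (l 16402952))) (b (a (l 16367808) (l 16347680)) (a (l 16393384) (l 16374792)))) (c (b (a (l 16443776) (l 16441520)) (a (l 16477992) (a (l 16456952) (l 16449888)))) (b (a (l 16418544) (l 16401424)) (a (l 16443216) (l 16427584))))) (b (c (b (a (b (l 16331432) (l 16345112)) (a (l 16324936) (l 16326560))) (a (a (l 16390536) (l 16382264)) (c (l 16366992) (l 16341144)))) (b (a (l 16327784) (l 16308088)) (a (l 16356384) (l 16338088)))) (c (b (a (c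 (l 16419936) (l 16406112)) (c (l 16404992) (l 16390400))) (a (c (l 16445808) (l 16432648)) (a (l 16433944) (l 16430504)))) (b (a (l 16384448) (l 16367568)) (a (l 16422488) (c (l 16403880) (l 16389072)))))))), by decide +kernel⟩

def k8_pm_012 : ∃ t, chk3 f_pm_012 t 12 6 1 = true :=
  ⟨(b (a (b (a (b (c (l 16165408) (l 16106520)) (c (b (l 16122288) (l 16141688)) (l 16086232))) (b (c (b (l 16193488) (l 16159936)) (l 16134384)) (c (b (l 16156480) (l 16180512)) (l 16130488)))) (c (a (b (l 16151072) (l 16166680)) (a (l 16165032) (l 16182928))) (a (l 16111864) (l 16156384)))) (b (c (a (b (b (l 16220072) (l 16194496)) (l 16197008)) (b (a (l 16224800) (l 16244864)) (l 16236032))) (a (b (l 16172776) (l 16177648)) (b (l 16219192) (l 16225408)))) (c (a (a (l 16200616) (l 16218120)) (c (l 16249632) (l 16238408))) (a (l 16199816) (l 16242112))))) (a (c (b (a (l 16194280) (l 16224704)) (a (l 16238952) (l 16264096))) (b (a (l 16163216) (l 16200584)) (a (l 16223968)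 (l 16254600)))) (b (c (a (l 16251824) (a (l 16255280) (l 16269640))) (a (l 16236936) (l 16272272))) (c (a (l 16288656) (l 16312656)) (a (l 16284312) (l 16313112)))))), by decide +kernel⟩

def k9_pm_012 : ∃ t, chk3 f_pm_012 t 13 6 1 = true :=
  ⟨(b (a (b (c (a (b (a (l 16285608) (l 16305688)) (l 16274184)) (b (l 16314832) (l 16311464))) (a (b (l 16267640) (l 16271944)) (l 16316736))) (c (a (b (l 16275896) (l 16279896)) (b (l 16310312) (l 16311552))) (a (l 16283256) (b (l 16320408) (l 16326064))))) (b (a (c (b (l 16375080) (l 16347832)) (b (l 16363816) (l 16361160))) (c (a (l 16378672) (l 16417872)) (a (l 16395832) (l 16417632)))) (a (c (b (l 16343896) (l 16342448)) (b (l 16360872) (l 16363128))) (c (b (l 16397656) (l 16393624)) (b (l 16400016) (l 16398928)))))) (a (b (a (c (a (l 16283840) (l 16297872)) (l 16306568)) (c (b (l 16315384) (l 16322032)) (b (l 16334328) (l 16345360)))) (a (c (a (l 16330224) (l 16341832)) (l 16341024)) (c (b (l 16352672) (l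 16365584)) (l 16305056)))) (a (b (c (b (l 16343728) (l 16368912)) (b (l 16368072) (l 16375912))) (c (b (l 16376288) (l 16387048)) (b (l 16386848) (l 16401128)))) (b (c (b (l 16392432) (l 16394304)) (b (l 16400632) (l 16405328))) (c (b (l 16399464) (l 16408152)) (b (l 16413256) (l 16424664))))))), by decide +kernel⟩

def k10_pm_012 : ∃ t, chk3 f_pm_012 t 6 7 1 = true :=
  ⟨(b (a (b (a (c (a (l 16294328) (l 16314728)) (a (l 16295648) (l 16320048))) (a (c (l 16334656) (l 16343648)) (c (l 16354136) (l 16366464)))) (a (c (l 16307968) (l 16327312)) (a (l 16322040) (c (l 16410488) (l 16434992))))) (a (b (a (c (l 16373248) (l 16388448)) (b (l 16347544) (l 16390952))) (c (a (l 16425960) (l 16441296)) (a (l 16430744) (l 16446760)))) (b (a (c (l 16347664) (l 16367016)) (b (c (l 16420616) (l 16439824)) (l 16385120))) (a (c (l 16435536) (l 16441144)) (b (l 16428840) (l 16456456)))))) (a (b (b (a (l 16340592) (c (l 16436080) (l 16490704))) (a (l 16390088) (c (l 16499840)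 (l 16540384)))) (a (a (l 16316488) (c (l 16507520) (l 16414488))) (a (c (l 16526616) (l 16434552)) (c (l 16524728) (l 16434200))))) (b (a (b (a (l 16451488) (l 16464440)) (b (l 16447832) (l 16470656))) (b (c (l 16468072) (l 16478656)) (a (l 16497112) (l 16508192)))) (a (b (a (l 16514168) (l 16532168)) (l 14)) (l 14))))), by decide +kernel⟩

def k11_pm_012 : ∃ t, chk3 f_pm_012 t 14 6 2 = true :=
  ⟨(b (a (b (a (a (l 16435872) (l 16432696)) (a (l 16450256) (l 16446624))) (a (b (l 16408720) (l 16391688)) (b (a (l 16453176) (l 16468608)) (a (l 16444800) (l 16459040))))) (a (b (b (l 16480736) (l 16463728)) (b (a (l 16483832) (l 16498848)) (a (l 16473088) (l 16486952)))) (b (a (l 16497192) (l 16492568)) (b (a (l 16513648) (l 16507248)) (a (l 16500616) (l 16493120)))))) (a (b (a (b (l 16419568) (l 16419168)) (b (a (l 16439480) (l 16452576)) (a (l 16437432) (l 16449464)))) (a (b (l 16422200) (l 16428888)) (b (l 16423512) (l 16449272)))) (b (a (b (a (l 16465512)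 (l 16478288)) (a (l 16461360) (l 16473104))) (b (a (l 16490888) (l 16503320)) (a (l 16484712) (l 16496128)))) (a (b (a (l 16460856) (l 16471656)) (a (l 16464272) (l 16474192))) (b (a (l 16482328) (l 16492888)) (a (l 16484008) (l 16493872))))))), by decide +kernel⟩

def k12_pm_012 : ∃ t, chk3 f_pm_012 t 30 6 2 = true :=
  ⟨(b (b (a (b (a (l 16542472) (l 16508488)) (l 16506968)) (b (a (l 16495536) (l 16482664)) (a (l 16515792) (l 16504200)))) (a (b (c (l 16501824) (l 16513712)) (a (l 16506376) (l 16498440))) (b (c (l 16514120) (l 16509744)) (a (l 16511336) (l 16524120))))) (a (b (b (a (l 16494568) (l 16506680)) (a (l 16507480) (l 16497776))) (b (a (l 16503424) (l 16514016)) (a (l 16503736) (l 16513704)))) (b (b (a (l 16497736) (l 16509744)) (a (l 16509072) (l 16509864))) (b (a (l 16503656) (a (l 16532560) (l 16537848))) (a (l 16523688) (a (l 16531160) (l 16536136))))))), by decide +kernel⟩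

def k13_pm_012 : ∃ t, chk3 f_pm_012 t 31 6 2 = true :=
  ⟨(b (b (a (b (a (c (l 16496344) (l 16485104)) (c (l 16483800) (l 16471904))) (a (l 16471624) (b (l 16495992) (l 16507848)))) (b (a (a (l 16468224) (l 16472256)) (a (l 16465808) (b (l 16442176) (l 16455664)))) (a (c (b (l 16489936) (l 16502248)) (l 16484200)) (b (a (l 16475000) (l 16469032)) (a (l 16487928) (l 16482272)))))) (a (b (a (l 16493848) (c (l 16509704) (l 16498896))) (a (l 16515464) (b (l 16521608) (l 16532872)))) (b (a (b (l 16477336) (l 16489528)) (b (c (l 16503880) (l 16492112)) (c (l 16516512) (l 16505112)))) (a (b (l 16501576) (l 16513472)) (a (b (l 16525912) (l 16517304)) (b (l 16521184) (l 16512896))))))) (b (a (b (a (l 16521688) (b (l 16543960) (l 16551008))) (a (b (l 16533816) (l 16529320)) (a (l 16539888) (l 16524432)))) (b (b (a (l 16525192) (a (l 16529504) (l 16525408))) (a (l 16547224) (a (l 16541528) (l 16537760)))) (a (b (l 16535248) (l 16540552)) (b (a (l 16553376) (l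 16549928)) (a (l 16558992) (l 16561920)))))) (a (b (a (a (l 16543120) (l 16527392)) (b (l 16536528) (l 16533944))) (a (a (l 16541096) (l 16546040)) (b (l 16532552) (l 16532368)))) (b (a (a (l 16540328) (a (l 16546776) (l 16549320))) (b (a (l 16554696) (l 16559712)) (a (l 16551488) (l 16556496)))) (a (a (b (l 16560904) (l 16560504)) (b (l 16565784) (l 16565232))) (a (b (l 16549640) (l 16549144)) (b (l 16554568) (c (l 16570832) (l 16579472))))))))), by decide +kernel⟩

def k14_pm_012 : ∃ t, chk3 f_pm_012 t 14 6 3 = true :=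
  ⟨(b (a (b (a (a (l 16439064) (l 16460096)) (b (l 16476488) (l 16463472))) (a (b (l 16437760) (l 16433408)) (b (l 16453104) (l 16445584)))) (b (a (b (l 16496840) (l 16480544)) (c (l 16496208) (l 16509688))) (a (b (l 16467008) (l 16456424)) (b (l 16500400) (a (l 16521312) (l 16515224)))))) (a (b (a (b (l 16431960) (l 16433616)) (b (l 16441088) (l 16439816))) (a (b (l 16438632) (l 16447272)) (b (l 16442032) (l 16468984)))) (b (a (b (a (l 16483792) (l 16497920)) (a (l 16480400) (l 16493144))) (b (a (l 16511736) (l 16504272)) (a (l 16505616) (l 16517760)))) (a (b (a (l 16480592) (l 16492032)) (a (l 16484656) (l 16494856))) (b (a (l 16503224) (l 16514176)) (a (l 16504848) (l 16514792))))))), by decide +kernel⟩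

def k15_pm_012 : ∃ t, chk3 f_pm_012 t 30 6 3 = true :=
  ⟨(b (b (a (b (l 16476120) (l 16494400)) (b (a (l 16496088) (l 16481688)) (c (l 16473688) (l 16462952)))) (a (b (a (l 16538992) (l 16527400)) (b (l 16519520) (l 16512216))) (b (a (l 16515968) (l 16504616)) (a (l 16535552) (l 16504688))))) (b (a (b (b (l 16505752) (l 16500184)) (a (l 16508760) (l 16520544))) (b (a (l 16522128) (l 16525104)) (a (l 16532264) (l 16522912)))) (a (b (a (l 16525008) (l 16514848)) (a (l 16524648) (l 16534536))) (b (a (l 16525600) (b (l 16537616) (l 16534896))) (a (l 16523400) (a (l 16551672) (l 16556512))))))), by decide +kernel⟩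

def k16_pm_012 : ∃ t, chk3 f_pm_012 t 31 6 3 = true :=
  ⟨(b (b (a (b (a (l 16467408) (l 16416512)) (a (l 16470128) (c (l 16484368) (l 16472128)))) (b (a (c (l 16445712) (l 16432272)) (c (l 16431952) (l 16417928))) (a (c (l 16471896) (l 16459128)) (c (l 16472624) (l 16446280))))) (a (b (a (l 16472256) (b (l 16496808) (l 16508936))) (a (c (l 16521056) (l 16510280)) (c (l 16511320) (l 16500200)))) (b (a (b (l 16485160) (l 16477032)) (b (c (l 16479904) (l 16467256)) (c (l 16493288) (l 16481024)))) (a (b (l 16489736) (l 16491816)) (b (c (l 16506528) (l 16494664)) (c (l 16519632) (l 16508168))))))) (b (a (b (a (l 16527120) (b (l 16523440) (l 16534976))) (a (l 16544856) (b (l 16546344) (l 16557544)))) (b (a (b (c (l 16541088) (l 16530208)) (a (l 16528992) (l 16525048))) (b (a (l 16529256) (l 16504048)) (a (l 16521136) (l 16517272)))) (a (b (l 16533896) (l 16545864)) (b (a (l 16533840) (l 16530360)) (a (l 16546384) (l 16543296)))))) (a (b (a (b (l 16548352)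 (l 16545168)) (b (l 16558888) (l 16555256))) (a (a (l 16540336) (l 16545104)) (a (l 16549816) (l 16554472)))) (b (a (b (l 16557656) (a (l 16562664) (l 16567520))) (b (a (l 16558768) (l 16556128)) (a (l 16571056) (l 16568656)))) (a (a (b (l 16559872) (l 16558312)) (b (l 16564512) (l 16562728))) (a (b (l 16569080) (l 16567304)) (b (l 16573736) (c (l 16567416) (l 16576624))))))))), by decide +kernel⟩

def k17_pm_012 : ∃ t, chk3 f_pm_012 t 7 7 1 = true :=
  ⟨(a (b (a (b (a (b (c (l 16439504) (l 16459808)) (c (l 16454512) (l 16476768))) (b (c (l 16458128) (l 16479016)) (c (l 16471544) (l 16493640)))) (a (b (l 16423368) (l 16470280)) (b (c (l 16489952) (l 16513360)) (l 16462976)))) (b (a (b (a (l 16440232) (c (l 16480992) (l 16501920))) (a (l 16473816) (l 16461168))) (b (a (c (l 16490160) (l 16510936)) (c (l 16499368) (l 16519912))) (a (l 16469520) (c (l 16510000) (l 16530272))))) (a (b (a (l 16512776) (l 16499456)) (a (l 16536312) (l 16522528))) (b (a (l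 16507272) (l 16515176)) (a (l 16529832) (l 14)))))) (a (b (b (a (l 16480976) (l 16493672)) (l 14)) (l 14)) (l 14))) (b (b (a (a (b (a (c (l 16508704) (l 16528944)) (c (l 16518104) (l 16537976))) (a (c (l 16518832) (l 16538512)) (c (l 16527728) (l 16546736)))) (b (a (c (l 16527520) (l 16525976)) (c (b (l 16535512) (l 16538416)) (b (l 16554792) (l 16556936)))) (a (c (l 16536648) (l 16533944)) (c (l 16524584) (l 16542040))))) (a (b (a (c (b (l 16545008) (l 16547640)) (b (l 16542784) (l 16565488))) (c (b (l 16533440) (a (l 16554496) (l 16559024))) (b (l 16551568) (a (l 16571784) (l 16575904))))) (b (a (c (l 16551680) (l 16568656)) (c (l 16539640) (a (l 16574640) (l 16578768)))) (l 14))) (b (b (a (c (a (l 16561360) (l 16566136)) (a (l 16578976) (l 16562416))) (c (a (l 16571040) (c (l 16572240) (l 16580240))) (a (l 16566960) (a (l 16570544) (l 16572984))))) (a (c (a (l 16563696) (l 16568504)) (a (l 16580176) (l 16563600))) (a (c (l 16573584) (l 16573520))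 (l 14)))) (l 14)))) (b (a (a (a (l 16502168) (c (l 16543104) (l 16561416))) (a (c (l 16551576) (l 16568864)) (l 14))) (l 14)) (l 14))) (l 14))), by decide +kernel⟩

theorem s18_pm_012 : ∃ t, chk3 f_pm_012 t 15 6 3 = true := ex3_a k15_pm_012 k16_pm_012

theorem s19_pm_012 : ∃ t, chk3 f_pm_012 t 7 6 3 = true := ex3_a k14_pm_012 s18_pm_012

theorem s20_pm_012 : ∃ t, chk3 f_pm_012 t 15 6 2 = true := ex3_a k12_pm_012 k13_pm_012

theorem s21_pm_012 : ∃ t, chk3 f_pm_012 t 7 6 2 = true := ex3_a k11_pm_012 s20_pm_012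

theorem s22_pm_012 : ∃ t, chk3 f_pm_012 t 7 6 1 = true := ex3_c s21_pm_012 s19_pm_012

theorem s23_pm_012 : ∃ t, chk3 f_pm_012 t 7 3 1 = true := ex3_b s22_pm_012 k17_pm_012

theorem s24_pm_012 : ∃ t, chk3 f_pm_012 t 6 6 1 = true := ex3_a k8_pm_012 k9_pm_012

theorem s25_pm_012 : ∃ t, chk3 f_pm_012 t 6 3 1 = true := ex3_b s24_pm_012 k10_pm_012

theorem s26_pm_012 : ∃ t, chk3 f_pm_012 t 3 3 1 = true := ex3_a s25_pm_012 s23_pm_012

theorem s27_pm_012 : ∃ t, chk3 f_pm_012 t 15 5 1 = true := ex3_b k6_pm_012 k7_pm_012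

theorem s28_pm_012 : ∃ t, chk3 f_pm_012 t 15 2 1 = true := ex3_b k5_pm_012 s27_pm_012

theorem s29_pm_012 : ∃ t, chk3 f_pm_012 t 7 2 1 = true := ex3_a k4_pm_012 s28_pm_012

theorem s30_pm_012 : ∃ t, chk3 f_pm_012 t 3 2 1 = true := ex3_a k3_pm_012 s29_pm_012

theorem s31_pm_012 : ∃ t, chk3 f_pm_012 t 3 1 1 = true := ex3_b s30_pm_012 s26_pm_012

theorem s32_pm_012 : ∃ t, chk3 f_pm_012 t 2 3 1 = true := ex3_b k1_pm_012 k2_pm_012

theorem s33_pm_012 : ∃ t, chk3 f_pm_012 t 2 1 1 = true := ex3_b k0_pm_012 s32_pm_012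

theorem s34_pm_012 : ∃ t, chk3 f_pm_012 t 1 1 1 = true := ex3_a s33_pm_012 s31_pm_012

theorem c_pm_012 : CertB 0 536870912 0 536870912 991146299 28908434 3 eng mog cd0q0 cd0q2 pd1 false true false .pnp 0 1 2
    ndB0q0 ndB0q2 pcB1 cut_pm_012 Ext.none :=
  certB2 (fam := false) (s1 := true) (s2 := false) (a := 0) (b := 1) (c := 2) (cn := .pnp) (n1 := ndB0q0) (n2 := ndB0q2) (pc := pcB1) (cut := cut_pm_012) (xt := Ext.none) (P1 := 0) (W1 := 536870912) (P2 := 0) (W2 := 536870912) (P3 := 991146299) (W3 := 28908434) (N0 := 3) (En := eng) (mo := mog) (C1 := cd0q0) (C2 := cd0q2) (C3 := pd1)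
    rfl (fun _ => rfl) s34_pm_012

noncomputable def cut_pm_022 : Cut := Cut.of [[⟨3, 0, 0, 1449551462⟩], [⟨4, 0, 0, 2845415833⟩], [⟨0, 0, 0, 53687091⟩, ⟨1, 1, 0, 53687091⟩, ⟨2, 1, 0, 53687091⟩]]

noncomputable def f_pm_022 : ℕ → ℕ → ℕ → ℕ → Bool := onCell 1073741824 536870912 0 536870912 991146299 28908434
    (rowB 3 eng mog cd0q0 cd0q2 pd2 2 false true false .pp 0 2 2 (qsf 0 536870912 0 536870912 2) ndB0q0 ndB0q2 pcB2 cut_pm_022 Ext.none)

def k0_pm_022 : ∃ t, chk3 f_pm_022 t 4 4 1 = true :=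
  ⟨(a (c (a (b (a (l 16202488) (l 16275792)) (a (c (l 16253520) (l 16154472)) (l 16178824))) (b (a (l 16264528) (l 16252880)) (a (l 16194736) (l 16189680)))) (a (b (a (c (l 16148424) (l 16051552)) (l 16103424)) (a (c (l 16051056) (l 15943464)) (c (l 16057976) (l 15958704)))) (b (a (l 16106568) (l 16110224)) (a (l 16020448) (l 16033080))))) (a (c (b (a (l 16241200) (l 16227768)) (a (l 16184728) (l 16177296))) (b (a (l 16114800) (l 16118424)) (a (l 16046824) (l 16058888)))) (c (b (l 16205224) (a (l 16170160) (l 16166440))) (b (l 16123088) (a (l 16072296) (l 16090456)))))), by decide +kernel⟩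

def k1_pm_022 : ∃ t, chk3 f_pm_022 t 8 5 1 = true :=
  ⟨(b (a (c (a (c (l 16159496) (l 16046912)) (c (l 16156400) (l 16052496))) (a (c (l 15929648) (l 15807880)) (c (l 15944408) (l 15832272)))) (a (c (b (l 16131216) (l 16083072)) (b (l 15941080) (l 15879776))) (c (b (l 16131640) (a (l 16088264) (l 16071352))) (b (l 15961232) (a (l 15901344) (a (l 15912160) (l 15919904))))))) (a (c (b (b (a (a (l 16028224) (l 16033848)) (b (l 16044480) (a (l 16034800) (l 16049152)))) (a (a (b (l 15995048) (l 16036288)) (l 16044088)) (l 16069824))) (a (c (l 16154144) (l 16039848)) (c (l 16176960) (l 16075544)))) (b (b (a (a (l 15766720) (b (l 15789160) (l 15772904))) (b (a (l 15801512) (l 15817208)) (a (l 15793592) (l 15821584)))) (a (a (b (b (l 15746296) (l 15755912)) (l 15776696)) (l 15795936)) (c (l 15901352) (l 15783896)))) (a (c (l 15921056) (l 15797912)) (c (l 15970240) (l 15861152))))) (c (a (b (b (a (l 16037568) (l 16072256)) (l 16100328)) (c (l 16194704) (l 16105840)))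 (b (l 16045984) (a (l 16163808) (l 16169560)))) (a (b (b (b (a (l 15836080) (l 15860728)) (l 15868096)) (l 15901664)) (a (l 15954608) (l 15977664))) (b (c (l 15978296) (l 15887392)) (a (l 15998544) (l 16016656))))))), by decide +kernel⟩

def k2_pm_022 : ∃ t, chk3 f_pm_022 t 9 5 1 = true :=
  ⟨(b (a (b (c (a (l 16130864) (l 16128792)) (a (l 15981104) (l 16000640))) (a (c (b (l 16099624) (b (l 16088704) (l 16096536))) (b (l 15942200) (b (l 15928696) (l 15938864)))) (b (c (l 16103856) (l 15970120)) (c (l 16109312) (l 15977720))))) (b (c (a (l 16128048) (l 16134880)) (a (l 16022664) (l 16054256))) (a (c (b (l 16112064) (l 16125680)) (b (l 16003736) (l 16021464))) (c (l 16134224) (a (l 16043952) (l 16066816)))))) (a (a (c (b (l 16127152) (a (l 16173168) (l 16175504))) (b (l 16009768) (a (l 16032360) (l 16046584)))) (c (b (l 16139568) (a (l 16176872) (l 16177800))) (b (a (l 16007488) (l 16025520)) (a (l 16059664) (l 16072168))))) (a (c (b (l 16149144) (a (l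 16178232) (l 16178168))) (b (l 16072704) (a (l 16084016) (l 16095208)))) (c (b (l 16167968) (a (l 16156672) (l 16155720))) (b (l 16116416) (a (l 16105768) (l 16115736))))))), by decide +kernel⟩

def k3_pm_022 : ∃ t, chk3 f_pm_022 t 5 2 1 = true :=
  ⟨(a (a (b (b (c (l 16189168) (l 16147912)) (c (a (l 16168488) (l 16176328)) (a (l 16115904) (l 16148704)))) (b (b (a (c (l 16146768) (l 16092352)) (c (l 16121256) (l 16136192))) (a (c (l 16130176) (l 16099144)) (c (l 16144848) (l 16140288)))) (a (b (c (l 180420939063) (l 136934346663)) (a (a (l 591127191895) (l 1)) (l 1))) (l 1)))) (b (b (l 1) (l 1)) (l 1))) (l 1)), by decide +kernel⟩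

def k4_pm_022 : ∃ t, chk3 f_pm_022 t 4 12 1 = true :=
  ⟨(a (a (c (b (a (c (l 16230768) (l 16127976)) (c (l 16246656) (l 16155680))) (a (b (l 16240888) (l 16197768)) (a (l 16187184) (l 16191200)))) (b (a (c (l 16021200) (l 15910520)) (a (l 16001464) (l 16022920))) (a (a (l 15935872) (b (l 16055880) (l 16107312))) (c (b (l 16127872) (l 16171424)) (b (l 16038720) (l 16088104)))))) (c (b (a (c (l 16254776) (l 16175160)) (a (l 16220288) (l 16220528))) (a (a (l 16172040) (b (l 16262088) (l 16290112))) (a (b (l 16260336) (l 16286040)) (b (l 16257168) (l 16280688))))) (b (a (a (l 16041984) (l 16058632)) (a (l 16072384) (l 16083680))) (a (a (b (l 16105912) (l 16147096)) (b (l 16117080) (l 16154704))) (a (b (l 16125688) (l 16160392)) (b (l 16132648) (l 16164552))))))) (a (b (a (c (a (l 16219504) (l 16217320)) (a (l 16093504) (l 16101960))) (c (a (l 16214504) (b (l 16203144) (l 16219104))) (a (l 16130584) (b (l 16105776) (l 16127344))))) (a (c (b (a (l 16252800)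 (l 16247616)) (a (l 16274408) (l 16267056))) (a (b (l 16138208) (l 16167608)) (b (l 16142736) (l 16169352)))) (c (a (c (l 16272032) (l 16227376)) (b (l 16234480) (c (l 16247632) (l 16208720)))) (a (b (l 16146104) (l 16182904)) (b (l 16148432) (a (l 16169384) (l 16147792))))))) (a (a (b (c (a (l 16207928) (l 16205688)) (b (l 16113192) (l 16131760))) (c (b (b (l 16202648) (l 16208992)) (a (l 16231272) (l 448856533127))) (b (l 16149792) (a (l 16146920) (l 446708918231))))) (a (b (c (l 16203296) (l 16126248)) (c (b (l 16199536) (l 508449185751)) (b (l 16129256) (l 506838451095)))) (b (c (l 16179800) (l 16128624)) (b (c (l 511670376695) (l 16129272)) (l 1))))) (b (c (a (b (l 16171448) (l 527239608055)) (l 570726134407)) (a (b (l 16104816) (l 526702621495)) (l 570189170775))) (l 1))))), by decide +kernel⟩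

def k5_pm_022 : ∃ t, chk3 f_pm_022 t 4 26 1 = true :=
  ⟨(a (a (c (c (a (l 16295432) (b (l 16361416) (l 16391864))) (a (b (l 16279544) (l 16321736)) (b (l 16289272) (l 16325376)))) (a (a (b (l 16142648) (l 16196576)) (b (l 16158128) (l 16208608))) (a (b (l 16170976) (l 16217848)) (b (l 16180672) (l 16223936))))) (a (c (a (b (l 16322256) (l 16351464)) (b (l 16317504) (l 16344384))) (a (b (l 16187352) (l 16227416)) (b (l 16191992) (l 16229128)))) (c (a (b (l 16311232) (l 16315272)) (b (l 16303976) (c (l 16350584) (l 16302952)))) (a (b (l 16194872) (c (l 16256864) (l 16201808))) (b (l 16196552) (c (l 16253768) (l 16203040))))))) (b (a (a (c (a (l 16285128) (a (l 16288576) (l 16283488))) (a (a (l 16196952) (l 16196776)) (c (l 16197904) (l 16151392)))) (c (a (c (l 16274064) (l 16234264)) (a (a (l 16247088) (l 16244088)) (b (l 16236192) (l 245919382407)))) (a (c (l 16193248) (l 16151000)) (c (a (l 16209944) (l 221223292823)) (a (l 16170816) (l 16148680))))))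 (a (a (c (a (b (l 253435544583) (l 474626370583)) (l 1)) (c (l 469257538551) (l 472478700567))) (l 1)) (l 1))) (a (a (c (a (c (l 16338144) (l 16273424)) (c (l 16303464) (l 16273960))) (a (c (l 16228288) (l 16181760)) (c (l 16236664) (l 16195504)))) (b (a (c (a (l 16269792) (l 16273720)) (a (l 16191176) (l 16198880))) (a (a (c (l 16279120) (l 16186112)) (l 14)) (l 14))) (l 14))) (l 1)))), by decide +kernel⟩

def k6_pm_022 : ∃ t, chk3 f_pm_022 t 4 27 1 = true :=
  ⟨(a (b (a (c (a (c (l 16432368) (l 16363064)) (a (l 16393984) (l 16366920))) (a (a (l 16250072) (l 16258656)) (a (l 16264016) (l 16245656)))) (a (c (a (l 16338336) (c (l 16396288) (l 16345664))) (a (c (l 16296360) (l 16238104)) (c (l 16293360) (l 16239368)))) (c (a (c (l 16384288) (l 16337488)) (c (l 16371072) (l 16327976))) (a (c (l 16289168) (l 16239320)) (c (l 16283512) (l 16237680)))))) (a (c (a (a (l 16416424) (l 16412400)) (a (l 16384848) (l 16334656))) (a (a (l 16282160) (l 16265864))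 (a (c (l 16339648) (l 16279096)) (c (l 16337416) (l 16281096))))) (b (a (a (c (l 16401704) (l 16297560)) (l 14)) (l 14)) (l 14)))) (l 14)), by decide +kernel⟩

def k7_pm_022 : ∃ t, chk3 f_pm_022 t 4 7 1 = true :=
  ⟨(a (b (a (a (b (b (c (a (l 16412320) (l 16405304)) (a (l 16250520) (c (l 16385080) (l 16327320)))) (l 14)) (l 14)) (l 14)) (l 14)) (l 14)) (l 14)), by decide +kernel⟩

def k8_pm_022 : ∃ t, chk3 f_pm_022 t 5 3 1 = true :=
  ⟨(b (l 1) (l 1)), by decide +kernel⟩

def k9_pm_022 : ∃ t, chk3 f_pm_022 t 3 1 1 = true :=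
  ⟨(l 1), by decide +kernel⟩

theorem s10_pm_022 : ∃ t, chk3 f_pm_022 t 4 13 1 = true := ex3_b k5_pm_022 k6_pm_022

theorem s11_pm_022 : ∃ t, chk3 f_pm_022 t 4 6 1 = true := ex3_b k4_pm_022 s10_pm_022

theorem s12_pm_022 : ∃ t, chk3 f_pm_022 t 4 3 1 = true := ex3_b s11_pm_022 k7_pm_022

theorem s13_pm_022 : ∃ t, chk3 f_pm_022 t 2 3 1 = true := ex3_a s12_pm_022 k8_pm_022

theorem s14_pm_022 : ∃ t, chk3 f_pm_022 t 4 5 1 = true := ex3_a k1_pm_022 k2_pm_022

theorem s15_pm_022 : ∃ t, chk3 f_pm_022 t 4 2 1 = true := ex3_b k0_pm_022 s14_pm_022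

theorem s16_pm_022 : ∃ t, chk3 f_pm_022 t 2 2 1 = true := ex3_a s15_pm_022 k3_pm_022

theorem s17_pm_022 : ∃ t, chk3 f_pm_022 t 2 1 1 = true := ex3_b s16_pm_022 s13_pm_022

theorem s18_pm_022 : ∃ t, chk3 f_pm_022 t 1 1 1 = true := ex3_a s17_pm_022 k9_pm_022

theorem c_pm_022 : CertB 0 536870912 0 536870912 991146299 28908434 3 eng mog cd0q0 cd0q2 pd2 false true false .pp 0 2 2
    ndB0q0 ndB0q2 pcB2 cut_pm_022 Ext.none :=
  certB2 (fam := false) (s1 := true) (s2 := false) (a := 0) (b := 2) (c := 2) (cn := .pp) (n1 := ndB0q0) (n2 := ndB0q2) (pc := pcB2) (cut := cut_pm_022) (xt := Ext.none) (P1 := 0) (W1 := 536870912) (P2 := 0) (W2 := 536870912) (P3 := 991146299) (W3 := 28908434) (N0 := 3) (En := eng) (mo := mog) (C1 := cd0q0) (C2 := cd0q2) (C3 := pd2)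
    rfl (fun _ => rfl) s18_pm_022

end Pool.Agent.Strip051.G.I9231_9500.Tab.C.BB00

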