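import Pool.Agent.Strip051.G.I9231_9500.Gn
import Pool.Agent.Strip051.PB.Corns
import Pool.Agent.Strip051.PB.CornW

/-! # Certificates of the aligned corners (generated) -/

set_option linter.all false

namespace Pool.Agent.Strip051.G.I9231_9500.Tab.CG

open Pool.Agent.Strip051.PB

def B102E_022_1_2_1 :
    ∃ t, chk3 (onCell 0 26843545 0 1073741824 991146299 28908434 (corT true 1 c0B cB102E gB0q1 gB2q2 gB2q0 gB3q0 true false)) t 1 2 1 = true :=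
  ⟨(T.l 1), by decide +kernel⟩

def B102E_022_1_6_1 :
    ∃ t, chk3 (onCell 0 26843545 0 1073741824 991146299 28908434 (corT true 1 c0B cB102E gB0q1 gB2q2 gB2q0 gB3q0 true false)) t 1 6 1 = true :=
  ⟨(T.b (T.l 1) (T.b (T.l 1) (T.a (T.l 0) (T.a (T.l 944) (T.b (T.l 1) (T.l 8)))))), by decide +kernel⟩

def B102E_022_1_28_1 :
    ∃ t, chk3 (onCell 0 26843545 0 1073741824 991146299 28908434 (corT true 1 c0B cB102E gB0q1 gB2q2 gB2q0 gB3q0 true false)) t 1 28 1 = true :=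
  ⟨(T.b (T.a (T.l 0) (T.a (T.l 0) (T.c (T.l 0) (T.l 0)))) (T.b (T.a (T.l 0) (T.a (T.l 0) (T.c (T.l 0) (T.l 0)))) (T.b (T.a (T.l 0) (T.a (T.l 0) (T.c (T.l 0) (T.l 0)))) (T.b (T.b (T.a (T.a (T.l 0) (T.l 0)) (T.a (T.l 0) (T.c (T.l 0) (T.l 0)))) (T.a (T.a (T.l 0) (T.a (T.l 0) (T.l 0))) (T.a (T.l 0) (T.c (T.l 0) (T.l 0))))) (T.b (T.a (T.a (T.l 0) (T.a (T.l 0) (T.l 0))) (T.a (T.l 0) (T.c (T.l 0) (T.l 0)))) (T.a (T.a (T.l 0) (T.a (T.l 0) (T.l 0))) (T.a (T.l 0) (T.c (T.l 0) (T.l 0))))))))), by decide +kernel⟩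

def B102E_022_1_116_1 :
    ∃ t, chk3 (onCell 0 26843545 0 1073741824 991146299 28908434 (corT true 1 c0B cB102E gB0q1 gB2q2 gB2q0 gB3q0 true false)) t 1 116 1 = true :=
  ⟨(T.b (T.b (T.b (T.a (T.a (T.l 0) (T.a (T.l 0) (T.l 0))) (T.a (T.l 0) (T.c (T.l 0) (T.l 0)))) (T.a (T.a (T.l 0) (T.a (T.l 0) (T.l 0))) (T.a (T.l 0) (T.c (T.l 0) (T.l 0))))) (T.b (T.a (T.a (T.l 0) (T.a (T.l 0) (T.l 0))) (T.a (T.l 0) (T.c (T.l 0) (T.l 0)))) (T.b (T.a (T.a (T.l 0) (T.a (T.l 0) (T.l 0))) (T.a (T.l 0) (T.c (T.l 0) (T.l 0)))) (T.a (T.a (T.l 0) (T.a (T.l 0) (T.l 0))) (T.a (T.l 0) (T.c (T.l 0) (T.l 0))))))) (T.b (T.b (T.b (T.a (T.a (T.l 0) (T.a (T.l 0) (T.l 0))) (T.a (T.l 0) (T.c (T.l 0) (T.l 0)))) (T.a (T.a (T.l 0) (T.a (T.l 0) (T.l 0))) (T.a (T.l 0) (T.c (T.l 0) (T.l 0))))) (T.a (T.a (T.l 0) (T.a (T.l 0) (T.l 0))) (T.a (T.l 0) (T.c (T.l 0) (T.l 0))))) (T.b (T.a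 (T.a (T.l 0) (T.a (T.l 0) (T.l 0))) (T.a (T.l 0) (T.c (T.l 0) (T.l 0)))) (T.a (T.a (T.l 0) (T.a (T.l 0) (T.l 0))) (T.a (T.l 0) (T.c (T.l 0) (T.l 0))))))), by decide +kernel⟩

def B102E_022_1_117_1 :
    ∃ t, chk3 (onCell 0 26843545 0 1073741824 991146299 28908434 (corT true 1 c0B cB102E gB0q1 gB2q2 gB2q0 gB3q0 true false)) t 1 117 1 = true :=
  ⟨(T.b (T.b (T.b (T.a (T.a (T.l 0) (T.a (T.l 0) (T.l 0))) (T.a (T.l 0) (T.c (T.l 0) (T.l 0)))) (T.a (T.a (T.l 0) (T.a (T.l 0) (T.l 0))) (T.a (T.l 0) (T.c (T.l 0) (T.l 0))))) (T.b (T.a (T.a (T.l 0) (T.a (T.l 0) (T.l 0))) (T.a (T.l 0) (T.c (T.l 0) (T.l 0)))) (T.a (T.a (T.l 0) (T.a (T.l 0) (T.l 0))) (T.a (T.l 0) (T.c (T.l 0) (T.l 0)))))) (T.b (T.b (T.a (T.a (T.l 0) (T.a (T.l 0) (T.l 0))) (T.a (T.l 0) (T.c (T.l 0) (T.l 0)))) (T.a (T.a (T.l 0) (T.a (T.l 0) (T.l 0))) (T.a (T.l 0) (T.c (T.l 0) (T.l 0)))))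 (T.b (T.a (T.a (T.l 0) (T.a (T.l 0) (T.l 0))) (T.a (T.l 0) (T.c (T.l 0) (T.l 0)))) (T.a (T.a (T.l 0) (T.a (T.l 0) (T.l 0))) (T.a (T.l 0) (T.c (T.l 0) (T.l 0))))))), by decide +kernel⟩

def B102E_022_1_59_1 :
    ∃ t, chk3 (onCell 0 26843545 0 1073741824 991146299 28908434 (corT true 1 c0B cB102E gB0q1 gB2q2 gB2q0 gB3q0 true false)) t 1 59 1 = true :=
  ⟨(T.b (T.b (T.b (T.b (T.a (T.a (T.l 0) (T.a (T.l 0) (T.l 0))) (T.a (T.l 0) (T.c (T.l 0) (T.l 0)))) (T.a (T.a (T.l 0) (T.a (T.l 0) (T.l 0))) (T.a (T.l 0) (T.c (T.l 0) (T.l 0))))) (T.b (T.a (T.a (T.l 0) (T.a (T.l 0) (T.l 0))) (T.a (T.l 0) (T.c (T.l 0) (T.l 0)))) (T.a (T.a (T.l 0) (T.a (T.l 0) (T.l 0))) (T.a (T.l 0) (T.c (T.l 0) (T.l 0)))))) (T.b (T.b (T.a (T.a (T.l 0) (T.a (T.l 0) (T.l 0))) (T.a (T.c (T.l 204) (T.l 0)) (T.c (T.l 0) (T.l 0)))) (T.a (T.a (T.l 0) (T.a (T.l 0) (T.l 0))) (T.a (T.c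 (T.l 204) (T.l 0)) (T.c (T.l 0) (T.l 0))))) (T.b (T.a (T.a (T.l 0) (T.a (T.l 0) (T.l 0))) (T.a (T.c (T.l 204) (T.l 0)) (T.c (T.l 0) (T.l 0)))) (T.a (T.a (T.l 0) (T.a (T.l 0) (T.l 0))) (T.a (T.c (T.l 204) (T.l 0)) (T.c (T.l 0) (T.l 0))))))) (T.b (T.b (T.a (T.a (T.l 0) (T.a (T.l 0) (T.l 0))) (T.a (T.c (T.l 204) (T.l 0)) (T.c (T.l 0) (T.l 0)))) (T.a (T.a (T.l 0) (T.a (T.l 0) (T.l 0))) (T.a (T.c (T.l 204) (T.l 0)) (T.c (T.l 204) (T.l 0))))) (T.b (T.a (T.a (T.l 0) (T.a (T.l 0) (T.l 0))) (T.a (T.c (T.l 204) (T.l 0)) (T.c (T.l 204) (T.l 0)))) (T.a (T.a (T.l 0) (T.a (T.l 0) (T.l 0))) (T.a (T.c (T.l 204) (T.l 0)) (T.c (T.l 204) (T.l 0))))))), by decide +kernel⟩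

def B102E_022_1_60_1 :
    ∃ t, chk3 (onCell 0 26843545 0 1073741824 991146299 28908434 (corT true 1 c0B cB102E gB0q1 gB2q2 gB2q0 gB3q0 true false)) t 1 60 1 = true :=
  ⟨(T.b (T.b (T.b (T.a (T.a (T.l 0) (T.a (T.l 0) (T.l 0))) (T.a (T.c (T.l 204) (T.l 0)) (T.c (T.l 204) (T.l 0)))) (T.a (T.a (T.l 0) (T.a (T.l 0) (T.l 0))) (T.a (T.c (T.l 204) (T.l 204)) (T.c (T.l 204) (T.l 0))))) (T.b (T.a (T.a (T.l 0) (T.a (T.l 0) (T.l 0))) (T.a (T.c (T.l 204) (T.l 204)) (T.a (T.l 0) (T.l 204)))) (T.a (T.a (T.l 0) (T.a (T.l 0) (T.l 204))) (T.a (T.c (T.l 204) (T.l 204)) (T.a (T.l 0) (T.l 204)))))) (T.b (T.b (T.a (T.a (T.l 0) (T.a (T.l 0) (T.l 204))) (T.a (T.c (T.l 204) (T.l 204)) (T.a (T.l 0) (T.l 204)))) (T.a (T.a (T.l 0) (T.a (T.l 204) (T.l 204))) (T.a (T.c (T.l 204) (T.l 204)) (T.a (T.c (T.l 204) (T.l 204)) (T.l 204))))) (T.b (T.a (T.a (T.l 0) (T.a (T.l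 204) (T.l 204))) (T.a (T.c (T.l 204) (T.l 204)) (T.a (T.c (T.l 204) (T.l 204)) (T.l 204)))) (T.a (T.a (T.l 0) (T.a (T.l 204) (T.l 204))) (T.a (T.a (T.l 204) (T.l 204)) (T.a (T.c (T.l 204) (T.l 204)) (T.l 204))))))), by decide +kernel⟩

def B102E_022_1_61_1 :
    ∃ t, chk3 (onCell 0 26843545 0 1073741824 991146299 28908434 (corT true 1 c0B cB102E gB0q1 gB2q2 gB2q0 gB3q0 true false)) t 1 61 1 = true :=
  ⟨(T.b (T.b (T.b (T.a (T.a (T.l 0) (T.a (T.l 204) (T.c (T.l 204) (T.l 204)))) (T.a (T.a (T.l 204) (T.l 204)) (T.a (T.c (T.l 204) (T.l 204)) (T.c (T.l 204) (T.l 204))))) (T.a (T.a (T.l 0) (T.a (T.l 204) (T.c (T.l 204) (T.l 204)))) (T.a (T.a (T.l 204) (T.l 204)) (T.a (T.c (T.l 204) (T.l 204)) (T.c (T.l 204) (T.l 204)))))) (T.b (T.a (T.a (T.l 0) (T.a (T.l 204) (T.c (T.l 204) (T.l 204)))) (T.a (T.a (T.l 204) (T.l 204)) (T.a (T.c (T.l 204) (T.l 204))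 (T.c (T.l 204) (T.l 204))))) (T.a (T.a (T.l 0) (T.a (T.l 204) (T.c (T.l 204) (T.l 204)))) (T.a (T.a (T.l 204) (T.l 204)) (T.a (T.c (T.l 204) (T.l 204)) (T.c (T.l 204) (T.l 204))))))) (T.b (T.a (T.a (T.l 0) (T.a (T.l 204) (T.c (T.l 204) (T.l 204)))) (T.a (T.a (T.c (T.l 204) (T.l 204)) (T.c (T.l 204) (T.l 204))) (T.a (T.c (T.l 204) (T.l 204)) (T.c (T.l 204) (T.l 204))))) (T.a (T.a (T.l 204) (T.a (T.l 204) (T.c (T.l 204) (T.l 204)))) (T.a (T.a (T.c (T.l 204) (T.l 204)) (T.c (T.l 204) (T.l 204))) (T.a (T.c (T.l 204) (T.l 204)) (T.c (T.l 204) (T.l 204))))))), by decide +kernel⟩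

def B102E_022_1_62_1 :
    ∃ t, chk3 (onCell 0 26843545 0 1073741824 991146299 28908434 (corT true 1 c0B cB102E gB0q1 gB2q2 gB2q0 gB3q0 true false)) t 1 62 1 = true :=
  ⟨(T.b (T.b (T.a (T.a (T.l 204) (T.a (T.l 204) (T.c (T.l 204) (T.l 204)))) (T.a (T.a (T.c (T.l 204) (T.l 204)) (T.c (T.l 204) (T.l 204))) (T.a (T.c (T.l 204) (T.l 204)) (T.c (T.l 204) (T.l 204))))) (T.a (T.a (T.l 204) (T.a (T.l 204) (T.c (T.l 204) (T.l 204)))) (T.a (T.a (T.c (T.l 204) (T.l 204)) (T.c (T.l 204) (T.l 204))) (T.a (T.c (T.l 204) (T.l 204)) (T.c (T.l 204) (T.l 204)))))) (T.b (T.a (T.a (T.l 204) (T.a (T.l 204) (T.c (T.l 204) (T.l 204)))) (T.a (T.a (T.c (T.l 204) (T.l 204)) (T.c (T.l 204) (T.l 204))) (T.a (T.c (T.l 204) (T.l 236)) (T.c (T.l 204) (T.l 204))))) (T.a (T.a (T.c (T.l 204) (T.l 204)) (T.a (T.c (T.l 204) (T.l 204)) (T.c (T.l 204) (T.l 204)))) (T.a (T.a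 (T.c (T.l 204) (T.l 204)) (T.c (T.l 204) (T.l 204))) (T.a (T.c (T.l 204) (T.c (T.l 204) (T.l 204))) (T.c (T.l 204) (T.l 236))))))), by decide +kernel⟩

def B102E_022_1_63_1 :
    ∃ t, chk3 (onCell 0 26843545 0 1073741824 991146299 28908434 (corT true 1 c0B cB102E gB0q1 gB2q2 gB2q0 gB3q0 true false)) t 1 63 1 = true :=
  ⟨(T.b (T.b (T.a (T.a (T.c (T.l 204) (T.l 204)) (T.a (T.c (T.l 204) (T.l 204)) (T.c (T.l 204) (T.l 204)))) (T.a (T.a (T.c (T.l 204) (T.l 204)) (T.c (T.l 204) (T.l 204))) (T.a (T.c (T.l 204) (T.c (T.l 204) (T.l 204))) (T.c (T.l 204) (T.c (T.l 204) (T.l 204)))))) (T.a (T.a (T.c (T.l 204) (T.l 204)) (T.a (T.c (T.l 204) (T.l 204)) (T.c (T.c (T.l 204) (T.l 204)) (T.c (T.l 204) (T.l 204))))) (T.a (T.a (T.c (T.l 204) (T.l 204)) (T.c (T.l 204) (T.c (T.l 204) (T.l 204)))) (T.a (T.c (T.c (T.l 204) (T.l 204)) (T.c (T.l 204) (T.l 204)))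 (T.c (T.c (T.l 204) (T.l 204)) (T.c (T.l 204) (T.l 204))))))) (T.b (T.a (T.a (T.c (T.l 204) (T.l 204)) (T.a (T.c (T.l 204) (T.l 204)) (T.c (T.c (T.l 204) (T.l 204)) (T.c (T.l 204) (T.l 204))))) (T.a (T.a (T.c (T.l 204) (T.c (T.l 204) (T.l 204))) (T.c (T.l 204) (T.c (T.l 204) (T.l 204)))) (T.a (T.c (T.c (T.l 204) (T.l 204)) (T.c (T.l 204) (T.c (T.l 204) (T.l 204)))) (T.c (T.c (T.l 204) (T.l 204)) (T.c (T.l 204) (T.l 236)))))) (T.a (T.a (T.c (T.l 204) (T.l 204)) (T.a (T.c (T.l 204) (T.l 204)) (T.c (T.a (T.l 204) (T.l 204)) (T.c (T.l 204) (T.l 204))))) (T.a (T.a (T.c (T.c (T.l 204) (T.l 204)) (T.c (T.l 204) (T.l 204))) (T.c (T.c (T.l 204) (T.l 204)) (T.c (T.l 204) (T.l 204)))) (T.a (T.c (T.a (T.l 204) (T.l 204)) (T.c (T.c (T.l 204) (T.l 204)) (T.a (T.l 204) (T.l 204)))) (T.c (T.a (T.l 204) (T.l 716)) (T.c (T.b (T.l 204) (T.l 204)) (T.c (T.l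 204) (T.l 236))))))))), by decide +kernel⟩

theorem B102E_022_1_31_1 :
    ∃ t, chk3 (onCell 0 26843545 0 1073741824 991146299 28908434 (corT true 1 c0B cB102E gB0q1 gB2q2 gB2q0 gB3q0 true false)) t 1 31 1 = true :=
  ex3_b B102E_022_1_62_1 B102E_022_1_63_1
theorem B102E_022_1_30_1 :
    ∃ t, chk3 (onCell 0 26843545 0 1073741824 991146299 28908434 (corT true 1 c0B cB102E gB0q1 gB2q2 gB2q0 gB3q0 true false)) t 1 30 1 = true :=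
  ex3_b B102E_022_1_60_1 B102E_022_1_61_1
theorem B102E_022_1_15_1 :
    ∃ t, chk3 (onCell 0 26843545 0 1073741824 991146299 28908434 (corT true 1 c0B cB102E gB0q1 gB2q2 gB2q0 gB3q0 true false)) t 1 15 1 = true :=
  ex3_b B102E_022_1_30_1 B102E_022_1_31_1
theorem B102E_022_1_58_1 :
    ∃ t, chk3 (onCell 0 26843545 0 1073741824 991146299 28908434 (corT true 1 c0B cB102E gB0q1 gB2q2 gB2q0 gB3q0 true false)) t 1 58 1 = true :=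
  ex3_b B102E_022_1_116_1 B102E_022_1_117_1
theorem B102E_022_1_29_1 :
    ∃ t, chk3 (onCell 0 26843545 0 1073741824 991146299 28908434 (corT true 1 c0B cB102E gB0q1 gB2q2 gB2q0 gB3q0 true false)) t 1 29 1 = true :=
  ex3_b B102E_022_1_58_1 B102E_022_1_59_1
theorem B102E_022_1_14_1 :
    ∃ t, chk3 (onCell 0 26843545 0 1073741824 991146299 28908434 (corT true 1 c0B cB102E gB0q1 gB2q2 gB2q0 gB3q0 true false)) t 1 14 1 = true :=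
  ex3_b B102E_022_1_28_1 B102E_022_1_29_1
theorem B102E_022_1_7_1 :
    ∃ t, chk3 (onCell 0 26843545 0 1073741824 991146299 28908434 (corT true 1 c0B cB102E gB0q1 gB2q2 gB2q0 gB3q0 true false)) t 1 7 1 = true :=
  ex3_b B102E_022_1_14_1 B102E_022_1_15_1
theorem B102E_022_1_3_1 :
    ∃ t, chk3 (onCell 0 26843545 0 1073741824 991146299 28908434 (corT true 1 c0B cB102E gB0q1 gB2q2 gB2q0 gB3q0 true false)) t 1 3 1 = true :=
  ex3_b B102E_022_1_6_1 B102E_022_1_7_1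
theorem B102E_022 :
    ∃ t, chk3 (onCell 0 26843545 0 1073741824 991146299 28908434 (corT true 1 c0B cB102E gB0q1 gB2q2 gB2q0 gB3q0 true false)) t 1 1 1 = true :=
  ex3_b B102E_022_1_2_1 B102E_022_1_3_1

def B102L_300 :
    ∃ t, chk3 (onCell 0 53687091 0 1073741824 991146299 28908434 (corT true 1 c0B cB102L gB3q1 gB0q2 gB0q0 gB1q0 true true)) t 1 1 1 = true :=
  ⟨(T.b (T.l 2) (T.b (T.l 2) (T.b (T.b (T.b (T.a (T.a (T.l 204) (T.l 2)) (T.l 2)) (T.b (T.a (T.a (T.l 204) (T.l 0)) (T.a (T.l 0) (T.l 2))) (T.a (T.a (T.l 204) (T.l 0)) (T.a (T.l 0) (T.l 204))))) (T.b (T.b (T.a (T.a (T.l 204) (T.l 0)) (T.a (T.l 0) (T.l 0))) (T.a (T.a (T.l 204) (T.l 0)) (T.a (T.l 0) (T.l 0)))) (T.a (T.a (T.l 204) (T.l 0)) (T.a (T.l 0) (T.l 0))))) (T.b (T.a (T.a (T.l 0) (T.l 0)) (T.a (T.l 0) (T.l 0))) (T.b (T.a (T.a (T.l 0) (T.l 0)) (T.a (T.l 0) (T.l 0))) (T.a (T.a (T.l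 0) (T.l 0)) (T.a (T.l 0) (T.l 0)))))))), by decide +kernel⟩

def B102L_301 :
    ∃ t, chk3 (onCell 0 53687091 0 1073741824 991146299 28908434 (corT true 1 c0B cB102L gB3q1 gB0q2 gB1q0 gB2q0 true true)) t 1 1 1 = true :=
  ⟨(T.b (T.b (T.l 2) (T.b (T.a (T.a (T.l 204) (T.l 2)) (T.l 2)) (T.b (T.a (T.a (T.l 204) (T.b (T.l 0) (T.l 0))) (T.a (T.l 204) (T.l 204))) (T.a (T.a (T.l 204) (T.b (T.l 0) (T.l 0))) (T.a (T.l 204) (T.l 204)))))) (T.b (T.b (T.b (T.a (T.a (T.l 204) (T.b (T.l 0) (T.l 0))) (T.a (T.l 204) (T.l 204))) (T.a (T.a (T.l 204) (T.b (T.l 0) (T.l 0))) (T.a (T.l 204) (T.l 204)))) (T.b (T.a (T.a (T.l 204) (T.l 0)) (T.b (T.l 0) (T.l 0))) (T.a (T.a (T.l 204) (T.l 0)) (T.b (T.l 0) (T.l 0))))) (T.b (T.b (T.b (T.a (T.a (T.l 204) (T.l 0)) (T.l 0)) (T.a (T.a (T.l 204) (T.l 0)) (T.l 0))) (T.l 1)) (T.l 1)))), by decide +kernel⟩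

def B102L_302 :
    ∃ t, chk3 (onCell 0 53687091 0 1073741824 991146299 28908434 (corT true 1 c0B cB102L gB3q1 gB0q2 gB2q0 gB3q0 true false)) t 1 1 1 = true :=
  ⟨(T.b (T.b (T.b (T.a (T.a (T.a (T.l 204) (T.l 204)) (T.b (T.l 204) (T.l 204))) (T.a (T.l 204) (T.l 204))) (T.a (T.a (T.a (T.l 204) (T.l 204)) (T.b (T.l 204) (T.l 204))) (T.a (T.l 204) (T.l 204)))) (T.b (T.b (T.a (T.a (T.l 204) (T.l 204)) (T.a (T.l 204) (T.l 204))) (T.a (T.a (T.l 204) (T.l 0)) (T.a (T.l 204) (T.l 204)))) (T.b (T.a (T.a (T.l 204) (T.l 204)) (T.b (T.l 0) (T.l 0))) (T.a (T.l 1) (T.b (T.l 0) (T.l 1)))))) (T.l 1)), by decide +kernel⟩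

def B102L_310 :
    ∃ t, chk3 (onCell 0 53687091 0 1073741824 991146299 28908434 (corT true 1 c0B cB102L gB3q1 gB1q2 gB0q0 gB1q0 true true)) t 1 1 1 = true :=
  ⟨(T.b (T.l 2) (T.b (T.b (T.l 2) (T.b (T.l 2) (T.a (T.a (T.l 204) (T.l 204)) (T.b (T.l 2) (T.l 0))))) (T.b (T.b (T.b (T.a (T.a (T.l 204) (T.l 204)) (T.l 0)) (T.a (T.a (T.l 204) (T.l 204)) (T.a (T.l 204) (T.l 204)))) (T.a (T.a (T.l 204) (T.l 0)) (T.a (T.l 0) (T.l 0)))) (T.b (T.a (T.a (T.l 0) (T.l 0)) (T.a (T.l 0) (T.l 0))) (T.b (T.a (T.a (T.l 0) (T.l 0)) (T.a (T.l 0) (T.l 0))) (T.a (T.a (T.l 0) (T.l 0)) (T.a (T.l 0) (T.l 0)))))))), by decide +kernel⟩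

def B102L_311 :
    ∃ t, chk3 (onCell 0 53687091 0 1073741824 991146299 28908434 (corT true 1 c0B cB102L gB3q1 gB1q2 gB1q0 gB2q0 true true)) t 1 1 1 = true :=
  ⟨(T.b (T.b (T.b (T.b (T.l 2) (T.l 2)) (T.a (T.a (T.l 204) (T.l 204)) (T.l 0))) (T.a (T.a (T.l 204) (T.b (T.l 204) (T.l 204))) (T.b (T.l 0) (T.l 0)))) (T.b (T.a (T.a (T.l 204) (T.l 16)) (T.b (T.l 0) (T.l 0))) (T.l 1))), by decide +kernel⟩

def B102L_312 :
    ∃ t, chk3 (onCell 0 53687091 0 1073741824 991146299 28908434 (corT true 1 c0B cB102L gB3q1 gB1q2 gB2q0 gB3q0 true false)) t 1 1 1 = true :=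
  ⟨(T.b (T.b (T.b (T.a (T.a (T.l 204) (T.l 204)) (T.a (T.l 204) (T.l 204))) (T.a (T.a (T.l 204) (T.l 204)) (T.l 204))) (T.a (T.l 1) (T.b (T.l 0) (T.l 1)))) (T.l 1)), by decide +kernel⟩

def B102L_320 :
    ∃ t, chk3 (onCell 0 53687091 0 1073741824 991146299 28908434 (corT true 1 c0B cB102L gB3q1 gB2q2 gB0q0 gB1q0 true true)) t 1 1 1 = true :=
  ⟨(T.b (T.b (T.l 2) (T.b (T.a (T.a (T.l 204) (T.l 204)) (T.l 2)) (T.a (T.a (T.l 204) (T.l 204)) (T.l 220)))) (T.b (T.a (T.a (T.l 204) (T.l 204)) (T.b (T.l 16) (T.l 16))) (T.b (T.b (T.a (T.a (T.l 204) (T.l 204)) (T.a (T.l 204) (T.l 204))) (T.a (T.a (T.l 204) (T.l 0)) (T.a (T.l 0) (T.l 0)))) (T.b (T.a (T.a (T.l 0) (T.l 0)) (T.a (T.l 0) (T.l 0))) (T.b (T.a (T.a (T.l 0) (T.l 0)) (T.a (T.l 0) (T.l 0))) (T.a (T.a (T.l 0) (T.l 0)) (T.a (T.l 0) (T.l 0)))))))), by decide +kernel⟩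

def B102L_321 :
    ∃ t, chk3 (onCell 0 53687091 0 1073741824 991146299 28908434 (corT true 1 c0B cB102L gB3q1 gB2q2 gB1q0 gB2q0 true true)) t 1 1 1 = true :=
  ⟨(T.b (T.b (T.b (T.a (T.a (T.l 204) (T.l 204)) (T.b (T.l 204) (T.l 204))) (T.a (T.a (T.l 204) (T.l 204)) (T.l 204))) (T.a (T.a (T.l 204) (T.l 204)) (T.l 204))) (T.l 1)), by decide +kernel⟩

def B102L_322 :
    ∃ t, chk3 (onCell 0 53687091 0 1073741824 991146299 28908434 (corT true 1 c0B cB102L gB3q1 gB2q2 gB2q0 gB3q0 true false)) t 1 1 1 = true :=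
  ⟨(T.l 1), by decide +kernel⟩

def B102L_400 :
    ∃ t, chk3 (onCell 0 53687091 0 1073741824 991146299 28908434 (corT true 1 c0B cB102L gB4q1 gB0q2 gB0q0 gB1q0 true true)) t 1 1 1 = true :=
  ⟨(T.b (T.l 2) (T.b (T.l 2) (T.b (T.l 2) (T.b (T.l 2) (T.b (T.l 2) (T.b (T.a (T.a (T.l 0) (T.l 2)) (T.l 2)) (T.a (T.a (T.l 816) (T.l 0)) (T.a (T.l 0) (T.l 0))))))))), by decide +kernel⟩

def B102L_401 :
    ∃ t, chk3 (onCell 0 53687091 0 1073741824 991146299 28908434 (corT true 1 c0B cB102L gB4q1 gB0q2 gB1q0 gB2q0 true true)) t 1 1 1 = true :=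
  ⟨(T.b (T.b (T.l 2) (T.b (T.l 2) (T.a (T.a (T.l 204) (T.a (T.l 204) (T.l 204))) (T.l 2)))) (T.b (T.b (T.b (T.a (T.a (T.l 204) (T.b (T.l 0) (T.l 0))) (T.a (T.l 204) (T.l 204))) (T.a (T.a (T.l 204) (T.l 16)) (T.b (T.l 16) (T.l 0)))) (T.b (T.a (T.a (T.l 204) (T.l 0)) (T.b (T.l 0) (T.l 0))) (T.a (T.a (T.l 204) (T.l 0)) (T.b (T.l 0) (T.l 0))))) (T.b (T.b (T.a (T.a (T.l 204) (T.l 0)) (T.b (T.l 0) (T.l 0))) (T.a (T.a (T.l 204) (T.l 0)) (T.l 0))) (T.b (T.a (T.a (T.l 0) (T.l 0)) (T.l 0)) (T.a (T.a (T.l 0) (T.l 0)) (T.l 0)))))), by decide +kernel⟩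

def B102L_402 :
    ∃ t, chk3 (onCell 0 53687091 0 1073741824 991146299 28908434 (corT true 1 c0B cB102L gB4q1 gB0q2 gB2q0 gB3q0 true false)) t 1 1 1 = true :=
  ⟨(T.b (T.b (T.b (T.a (T.a (T.a (T.l 204) (T.l 204)) (T.b (T.l 204) (T.l 204))) (T.a (T.l 204) (T.l 204))) (T.a (T.a (T.a (T.l 204) (T.l 204)) (T.b (T.l 204) (T.l 204))) (T.a (T.l 204) (T.l 204)))) (T.b (T.a (T.a (T.l 204) (T.b (T.l 204) (T.l 204))) (T.a (T.l 204) (T.l 204))) (T.b (T.a (T.a (T.l 204) (T.l 204)) (T.a (T.l 204) (T.l 204))) (T.a (T.a (T.l 204) (T.l 204)) (T.b (T.l 0) (T.l 0)))))) (T.b (T.b (T.b (T.a (T.a (T.l 1) (T.l 0)) (T.l 0)) (T.l 1)) (T.l 1)) (T.l 1))), by decide +kernel⟩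

def B102L_410 :
    ∃ t, chk3 (onCell 0 53687091 0 1073741824 991146299 28908434 (corT true 1 c0B cB102L gB4q1 gB1q2 gB0q0 gB1q0 true true)) t 1 1 1 = true :=
  ⟨(T.b (T.l 2) (T.b (T.l 2) (T.b (T.l 2) (T.b (T.l 2) (T.b (T.a (T.a (T.l 0) (T.l 2)) (T.l 2)) (T.a (T.a (T.l 0) (T.l 0)) (T.a (T.l 0) (T.l 0)))))))), by decide +kernel⟩

def B102L_411 :
    ∃ t, chk3 (onCell 0 53687091 0 1073741824 991146299 28908434 (corT true 1 c0B cB102L gB4q1 gB1q2 gB1q0 gB2q0 true true)) t 1 1 1 = true :=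
  ⟨(T.b (T.b (T.a (T.a (T.l 204) (T.l 0)) (T.l 2)) (T.a (T.a (T.l 204) (T.l 0)) (T.b (T.l 0) (T.l 0)))) (T.b (T.a (T.a (T.l 204) (T.l 0)) (T.l 0)) (T.b (T.a (T.a (T.l 204) (T.l 0)) (T.b (T.l 0) (T.l 0))) (T.b (T.a (T.a (T.l 0) (T.l 0)) (T.l 0)) (T.a (T.a (T.l 0) (T.l 0)) (T.l 0)))))), by decide +kernel⟩

def B102L_412 :
    ∃ t, chk3 (onCell 0 53687091 0 1073741824 991146299 28908434 (corT true 1 c0B cB102L gB4q1 gB1q2 gB2q0 gB3q0 true false)) t 1 1 1 = true :=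
  ⟨(T.b (T.b (T.b (T.a (T.a (T.l 204) (T.l 204)) (T.a (T.l 204) (T.l 204))) (T.a (T.a (T.l 204) (T.l 204)) (T.l 204))) (T.a (T.a (T.l 1) (T.l 204)) (T.l 0))) (T.l 1)), by decide +kernel⟩

def B102L_420 :
    ∃ t, chk3 (onCell 0 53687091 0 1073741824 991146299 28908434 (corT true 1 c0B cB102L gB4q1 gB2q2 gB0q0 gB1q0 true true)) t 1 1 1 = true :=
  ⟨(T.b (T.l 2) (T.b (T.l 2) (T.b (T.b (T.l 2) (T.a (T.a (T.l 204) (T.l 2)) (T.l 2))) (T.a (T.a (T.l 0) (T.l 0)) (T.a (T.l 0) (T.l 0)))))), by decide +kernel⟩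

def B102L_421 :
    ∃ t, chk3 (onCell 0 53687091 0 1073741824 991146299 28908434 (corT true 1 c0B cB102L gB4q1 gB2q2 gB1q0 gB2q0 true true)) t 1 1 1 = true :=
  ⟨(T.b (T.b (T.a (T.a (T.l 204) (T.l 204)) (T.a (T.l 204) (T.l 204))) (T.a (T.a (T.l 204) (T.l 204)) (T.l 204))) (T.b (T.a (T.a (T.l 204) (T.l 204)) (T.l 0)) (T.b (T.a (T.a (T.l 204) (T.l 0)) (T.l 0)) (T.a (T.a (T.l 0) (T.l 0)) (T.b (T.l 0) (T.l 0)))))), by decide +kernel⟩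

def B102L_422 :
    ∃ t, chk3 (onCell 0 53687091 0 1073741824 991146299 28908434 (corT true 1 c0B cB102L gB4q1 gB2q2 gB2q0 gB3q0 true false)) t 1 1 1 = true :=
  ⟨(T.l 1), by decide +kernel⟩

def B102L_500 :
    ∃ t, chk3 (onCell 0 53687091 0 1073741824 991146299 28908434 (corT true 1 c0B cB102L gB5q1 gB0q2 gB0q0 gB1q0 true true)) t 1 1 1 = true :=
  ⟨(T.b (T.l 2) (T.l 2)), by decide +kernel⟩

def B102L_501 :
    ∃ t, chk3 (onCell 0 53687091 0 1073741824 991146299 28908434 (corT true 1 c0B cB102L gB5q1 gB0q2 gB1q0 gB2q0 true true)) t 1 1 1 = true :=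
  ⟨(T.b (T.b (T.l 2) (T.b (T.l 2) (T.l 2))) (T.b (T.b (T.b (T.a (T.a (T.l 204) (T.l 16)) (T.l 2)) (T.a (T.a (T.l 204) (T.l 0)) (T.a (T.l 204) (T.l 204)))) (T.b (T.a (T.a (T.l 204) (T.l 0)) (T.a (T.l 204) (T.l 204))) (T.a (T.a (T.l 204) (T.l 0)) (T.b (T.l 0) (T.l 0))))) (T.b (T.b (T.a (T.a (T.l 204) (T.l 0)) (T.b (T.l 0) (T.l 0))) (T.a (T.a (T.l 204) (T.l 0)) (T.l 0))) (T.a (T.a (T.l 204) (T.l 0)) (T.b (T.l 0) (T.l 256)))))), by decide +kernel⟩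

def B102L_502 :
    ∃ t, chk3 (onCell 0 53687091 0 1073741824 991146299 28908434 (corT true 1 c0B cB102L gB5q1 gB0q2 gB2q0 gB3q0 true false)) t 1 1 1 = true :=
  ⟨(T.b (T.b (T.b (T.a (T.a (T.a (T.l 204) (T.l 204)) (T.b (T.l 204) (T.l 204))) (T.a (T.l 204) (T.l 204))) (T.a (T.a (T.a (T.l 204) (T.l 204)) (T.b (T.l 204) (T.l 204))) (T.a (T.l 204) (T.l 204)))) (T.b (T.a (T.a (T.l 204) (T.b (T.l 204) (T.l 204))) (T.a (T.l 204) (T.l 204))) (T.a (T.a (T.l 204) (T.l 204)) (T.a (T.l 204) (T.l 204))))) (T.b (T.b (T.b (T.a (T.a (T.l 204) (T.l 204)) (T.b (T.l 0) (T.l 0))) (T.a (T.a (T.l 1) (T.l 204)) (T.b (T.l 0) (T.l 0)))) (T.a (T.l 1) (T.a (T.l 1) (T.l 0)))) (T.l 1))), by decide +kernel⟩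

def B102L_510 :
    ∃ t, chk3 (onCell 0 53687091 0 1073741824 991146299 28908434 (corT true 1 c0B cB102L gB5q1 gB1q2 gB0q0 gB1q0 true true)) t 1 1 1 = true :=
  ⟨(T.b (T.l 2) (T.l 2)), by decide +kernel⟩

def B102L_511 :
    ∃ t, chk3 (onCell 0 53687091 0 1073741824 991146299 28908434 (corT true 1 c0B cB102L gB5q1 gB1q2 gB1q0 gB2q0 true true)) t 1 1 1 = true :=
  ⟨(T.b (T.b (T.a (T.a (T.l 204) (T.l 2)) (T.l 2)) (T.a (T.a (T.l 204) (T.l 0)) (T.l 0))) (T.b (T.b (T.a (T.a (T.l 204) (T.l 0)) (T.l 0)) (T.a (T.a (T.l 204) (T.l 0)) (T.l 0))) (T.b (T.a (T.a (T.l 204) (T.l 0)) (T.l 256)) (T.a (T.a (T.l 204) (T.l 0)) (T.b (T.l 0) (T.l 0)))))), by decide +kernel⟩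

def B102L_512 :
    ∃ t, chk3 (onCell 0 53687091 0 1073741824 991146299 28908434 (corT true 1 c0B cB102L gB5q1 gB1q2 gB2q0 gB3q0 true false)) t 1 1 1 = true :=
  ⟨(T.b (T.b (T.a (T.a (T.l 204) (T.l 204)) (T.a (T.l 204) (T.l 204))) (T.a (T.a (T.l 204) (T.l 204)) (T.l 0))) (T.l 1)), by decide +kernel⟩

def B102L_520 :
    ∃ t, chk3 (onCell 0 53687091 0 1073741824 991146299 28908434 (corT true 1 c0B cB102L gB5q1 gB2q2 gB0q0 gB1q0 true true)) t 1 1 1 = true :=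
  ⟨(T.l 2), by decide +kernel⟩

def B102L_521 :
    ∃ t, chk3 (onCell 0 53687091 0 1073741824 991146299 28908434 (corT true 1 c0B cB102L gB5q1 gB2q2 gB1q0 gB2q0 true true)) t 1 1 1 = true :=
  ⟨(T.b (T.a (T.a (T.l 204) (T.l 204)) (T.a (T.l 204) (T.b (T.l 204) (T.l 204)))) (T.b (T.a (T.a (T.l 204) (T.l 204)) (T.b (T.l 204) (T.l 204))) (T.a (T.a (T.l 204) (T.l 0)) (T.a (T.l 0) (T.l 0))))), by decide +kernel⟩

def B102L_522 :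
    ∃ t, chk3 (onCell 0 53687091 0 1073741824 991146299 28908434 (corT true 1 c0B cB102L gB5q1 gB2q2 gB2q0 gB3q0 true false)) t 1 1 1 = true :=
  ⟨(T.l 1), by decide +kernel⟩

def B102R_050 :
    ∃ t, chk3 (onCell 0 53687091 0 1073741824 991146299 28908434 (corT true 1 c0B cB102R gB0q1 gB5q2 gB0q0 gB1q0 true true)) t 1 1 1 = true :=
  ⟨(T.l 1), by decide +kernel⟩

def B102R_051 :
    ∃ t, chk3 (onCell 0 53687091 0 1073741824 991146299 28908434 (corT true 1 c0B cB102R gB0q1 gB5q2 gB1q0 gB2q0 true true)) t 1 1 1 = true :=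
  ⟨(T.l 1), by decide +kernel⟩

def B102R_052 :
    ∃ t, chk3 (onCell 0 53687091 0 1073741824 991146299 28908434 (corT true 1 c0B cB102R gB0q1 gB5q2 gB2q0 gB3q0 true false)) t 1 1 1 = true :=
  ⟨(T.l 1), by decide +kernel⟩

def B202E_000 :
    ∃ t, chk3 (onCell 0 53687091 0 1073741824 991146299 28908434 (corT true 1 c0B cB202E gB0q2 gB0q2 gB0q0 gB1q0 true true)) t 1 1 1 = true :=
  ⟨(T.l 1), by decide +kernel⟩

def B202E_001 :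
    ∃ t, chk3 (onCell 0 53687091 0 1073741824 991146299 28908434 (corT true 1 c0B cB202E gB0q2 gB0q2 gB1q0 gB2q0 true true)) t 1 1 1 = true :=
  ⟨(T.l 1), by decide +kernel⟩

def B202E_002 :
    ∃ t, chk3 (onCell 0 53687091 0 1073741824 991146299 28908434 (corT true 1 c0B cB202E gB0q2 gB0q2 gB2q0 gB3q0 true false)) t 1 1 1 = true :=
  ⟨(T.l 1), by decide +kernel⟩

def B202E_010 :
    ∃ t, chk3 (onCell 0 53687091 0 1073741824 991146299 28908434 (corT true 1 c0B cB202E gB0q2 gB1q2 gB0q0 gB1q0 true true)) t 1 1 1 = true :=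
  ⟨(T.l 1), by decide +kernel⟩

def B202E_011 :
    ∃ t, chk3 (onCell 0 53687091 0 1073741824 991146299 28908434 (corT true 1 c0B cB202E gB0q2 gB1q2 gB1q0 gB2q0 true true)) t 1 1 1 = true :=
  ⟨(T.l 1), by decide +kernel⟩

def B202E_012 :
    ∃ t, chk3 (onCell 0 53687091 0 1073741824 991146299 28908434 (corT true 1 c0B cB202E gB0q2 gB1q2 gB2q0 gB3q0 true false)) t 1 1 1 = true :=
  ⟨(T.l 1), by decide +kernel⟩

def B202E_020 :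
    ∃ t, chk3 (onCell 0 53687091 0 1073741824 991146299 28908434 (corT true 1 c0B cB202E gB0q2 gB2q2 gB0q0 gB1q0 true true)) t 1 1 1 = true :=
  ⟨(T.l 1), by decide +kernel⟩

def B202E_021 :
    ∃ t, chk3 (onCell 0 53687091 0 1073741824 991146299 28908434 (corT true 1 c0B cB202E gB0q2 gB2q2 gB1q0 gB2q0 true true)) t 1 1 1 = true :=
  ⟨(T.l 1), by decide +kernel⟩

def B202E_022 :
    ∃ t, chk3 (onCell 0 53687091 0 1073741824 991146299 28908434 (corT true 1 c0B cB202E gB0q2 gB2q2 gB2q0 gB3q0 true false)) t 1 1 1 = true :=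
  ⟨(T.l 1), by decide +kernel⟩

def B202E_100 :
    ∃ t, chk3 (onCell 0 53687091 0 1073741824 991146299 28908434 (corT true 1 c0B cB202E gB1q2 gB0q2 gB0q0 gB1q0 true true)) t 1 1 1 = true :=
  ⟨(T.l 1), by decide +kernel⟩

def B202E_101 :
    ∃ t, chk3 (onCell 0 53687091 0 1073741824 991146299 28908434 (corT true 1 c0B cB202E gB1q2 gB0q2 gB1q0 gB2q0 true true)) t 1 1 1 = true :=
  ⟨(T.l 1), by decide +kernel⟩

def B202E_102 :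
    ∃ t, chk3 (onCell 0 53687091 0 1073741824 991146299 28908434 (corT true 1 c0B cB202E gB1q2 gB0q2 gB2q0 gB3q0 true false)) t 1 1 1 = true :=
  ⟨(T.l 1), by decide +kernel⟩

def B202E_110 :
    ∃ t, chk3 (onCell 0 53687091 0 1073741824 991146299 28908434 (corT true 1 c0B cB202E gB1q2 gB1q2 gB0q0 gB1q0 true true)) t 1 1 1 = true :=
  ⟨(T.l 1), by decide +kernel⟩

def B202E_111 :
    ∃ t, chk3 (onCell 0 53687091 0 1073741824 991146299 28908434 (corT true 1 c0B cB202E gB1q2 gB1q2 gB1q0 gB2q0 true true)) t 1 1 1 = true :=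
  ⟨(T.l 1), by decide +kernel⟩

def B202E_112 :
    ∃ t, chk3 (onCell 0 53687091 0 1073741824 991146299 28908434 (corT true 1 c0B cB202E gB1q2 gB1q2 gB2q0 gB3q0 true false)) t 1 1 1 = true :=
  ⟨(T.l 1), by decide +kernel⟩

def B202E_120 :
    ∃ t, chk3 (onCell 0 53687091 0 1073741824 991146299 28908434 (corT true 1 c0B cB202E gB1q2 gB2q2 gB0q0 gB1q0 true true)) t 1 1 1 = true :=
  ⟨(T.l 1), by decide +kernel⟩

def B202E_121 :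
    ∃ t, chk3 (onCell 0 53687091 0 1073741824 991146299 28908434 (corT true 1 c0B cB202E gB1q2 gB2q2 gB1q0 gB2q0 true true)) t 1 1 1 = true :=
  ⟨(T.l 1), by decide +kernel⟩

def B202E_122 :
    ∃ t, chk3 (onCell 0 53687091 0 1073741824 991146299 28908434 (corT true 1 c0B cB202E gB1q2 gB2q2 gB2q0 gB3q0 true false)) t 1 1 1 = true :=
  ⟨(T.l 1), by decide +kernel⟩

def B202E_200 :
    ∃ t, chk3 (onCell 0 53687091 0 1073741824 991146299 28908434 (corT true 1 c0B cB202E gB2q2 gB0q2 gB0q0 gB1q0 true true)) t 1 1 1 = true :=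
  ⟨(T.l 1), by decide +kernel⟩

def B202E_201 :
    ∃ t, chk3 (onCell 0 53687091 0 1073741824 991146299 28908434 (corT true 1 c0B cB202E gB2q2 gB0q2 gB1q0 gB2q0 true true)) t 1 1 1 = true :=
  ⟨(T.l 1), by decide +kernel⟩

def B202E_202 :
    ∃ t, chk3 (onCell 0 53687091 0 1073741824 991146299 28908434 (corT true 1 c0B cB202E gB2q2 gB0q2 gB2q0 gB3q0 true false)) t 1 1 1 = true :=
  ⟨(T.l 1), by decide +kernel⟩

def B202E_210 :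
    ∃ t, chk3 (onCell 0 53687091 0 1073741824 991146299 28908434 (corT true 1 c0B cB202E gB2q2 gB1q2 gB0q0 gB1q0 true true)) t 1 1 1 = true :=
  ⟨(T.l 1), by decide +kernel⟩

def B202E_211 :
    ∃ t, chk3 (onCell 0 53687091 0 1073741824 991146299 28908434 (corT true 1 c0B cB202E gB2q2 gB1q2 gB1q0 gB2q0 true true)) t 1 1 1 = true :=
  ⟨(T.l 1), by decide +kernel⟩

def B202E_212 :
    ∃ t, chk3 (onCell 0 53687091 0 1073741824 991146299 28908434 (corT true 1 c0B cB202E gB2q2 gB1q2 gB2q0 gB3q0 true false)) t 1 1 1 = true :=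
  ⟨(T.l 1), by decide +kernel⟩

def B202E_220 :
    ∃ t, chk3 (onCell 0 53687091 0 1073741824 991146299 28908434 (corT true 1 c0B cB202E gB2q2 gB2q2 gB0q0 gB1q0 true true)) t 1 1 1 = true :=
  ⟨(T.l 1), by decide +kernel⟩

def B202E_221 :
    ∃ t, chk3 (onCell 0 53687091 0 1073741824 991146299 28908434 (corT true 1 c0B cB202E gB2q2 gB2q2 gB1q0 gB2q0 true true)) t 1 1 1 = true :=
  ⟨(T.l 1), by decide +kernel⟩

def B202E_222 :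
    ∃ t, chk3 (onCell 0 53687091 0 1073741824 991146299 28908434 (corT true 1 c0B cB202E gB2q2 gB2q2 gB2q0 gB3q0 true false)) t 1 1 1 = true :=
  ⟨(T.l 1), by decide +kernel⟩

def B202L_500 :
    ∃ t, chk3 (onCell 0 53687091 0 1073741824 991146299 28908434 (corT true 1 c0B cB202L gB5q2 gB0q2 gB0q0 gB1q0 true true)) t 1 1 1 = true :=
  ⟨(T.l 2), by decide +kernel⟩

def B202L_501 :
    ∃ t, chk3 (onCell 0 53687091 0 1073741824 991146299 28908434 (corT true 1 c0B cB202L gB5q2 gB0q2 gB1q0 gB2q0 true true)) t 1 1 1 = true :=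
  ⟨(T.l 2), by decide +kernel⟩

def B202L_502 :
    ∃ t, chk3 (onCell 0 53687091 0 1073741824 991146299 28908434 (corT true 1 c0B cB202L gB5q2 gB0q2 gB2q0 gB3q0 true false)) t 1 1 1 = true :=
  ⟨(T.b (T.a (T.b (T.a (T.a (T.l 204) (T.l 204)) (T.b (T.l 204) (T.l 204))) (T.a (T.a (T.l 204) (T.l 204)) (T.l 204))) (T.b (T.a (T.l 204) (T.b (T.l 204) (T.l 204))) (T.a (T.l 204) (T.l 204)))) (T.b (T.a (T.a (T.a (T.l 204) (T.l 204)) (T.l 204)) (T.a (T.l 204) (T.l 16))) (T.a (T.a (T.a (T.l 204) (T.l 204)) (T.l 204)) (T.b (T.l 204) (T.l 16))))), by decide +kernel⟩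

def B202L_510 :
    ∃ t, chk3 (onCell 0 53687091 0 1073741824 991146299 28908434 (corT true 1 c0B cB202L gB5q2 gB1q2 gB0q0 gB1q0 true true)) t 1 1 1 = true :=
  ⟨(T.l 2), by decide +kernel⟩

def B202L_511 :
    ∃ t, chk3 (onCell 0 53687091 0 1073741824 991146299 28908434 (corT true 1 c0B cB202L gB5q2 gB1q2 gB1q0 gB2q0 true true)) t 1 1 1 = true :=
  ⟨(T.l 2), by decide +kernel⟩

def B202L_512 :
    ∃ t, chk3 (onCell 0 53687091 0 1073741824 991146299 28908434 (corT true 1 c0B cB202L gB5q2 gB1q2 gB2q0 gB3q0 true false)) t 1 1 1 = true :=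
  ⟨(T.b (T.b (T.a (T.a (T.l 204) (T.b (T.l 204) (T.l 204))) (T.a (T.l 204) (T.b (T.l 204) (T.l 204)))) (T.a (T.l 204) (T.a (T.l 204) (T.l 204)))) (T.a (T.l 0) (T.a (T.l 204) (T.b (T.b (T.l 204) (T.l 204)) (T.l 0))))), by decide +kernel⟩

def B202L_520 :
    ∃ t, chk3 (onCell 0 53687091 0 1073741824 991146299 28908434 (corT true 1 c0B cB202L gB5q2 gB2q2 gB0q0 gB1q0 true true)) t 1 1 1 = true :=
  ⟨(T.b (T.l 2) (T.l 2)), by decide +kernel⟩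

def B202L_521 :
    ∃ t, chk3 (onCell 0 53687091 0 1073741824 991146299 28908434 (corT true 1 c0B cB202L gB5q2 gB2q2 gB1q0 gB2q0 true true)) t 1 1 1 = true :=
  ⟨(T.b (T.a (T.b (T.a (T.l 204) (T.b (T.l 204) (T.l 204))) (T.l 204)) (T.b (T.a (T.l 204) (T.l 204)) (T.a (T.b (T.l 204) (T.l 204)) (T.l 204)))) (T.a (T.l 204) (T.a (T.b (T.l 204) (T.l 204)) (T.b (T.b (T.l 204) (T.l 204)) (T.l 0))))), by decide +kernel⟩

def B202L_522 :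
    ∃ t, chk3 (onCell 0 53687091 0 1073741824 991146299 28908434 (corT true 1 c0B cB202L gB5q2 gB2q2 gB2q0 gB3q0 true false)) t 1 1 1 = true :=
  ⟨(T.b (T.l 1) (T.b (T.l 1) (T.a (T.l 204) (T.a (T.l 204) (T.l 0))))), by decide +kernel⟩

def B202R_050 :
    ∃ t, chk3 (onCell 0 26843545 0 1073741824 991146299 28908434 (corX 1 c0B cB202R tB202R gB0q2 gB5q2 gB0q0 gB1q0 gB0q0 true true)) t 1 1 1 = true :=
  ⟨(T.b (T.b (T.l 1) (T.a (T.l 207) (T.b (T.l 207) (T.a (T.l 207) (T.b (T.b (T.l 204) (T.l 204)) (T.l 204)))))) (T.l 2)), by decide +kernel⟩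

def B202R_051 :
    ∃ t, chk3 (onCell 0 26843545 0 1073741824 991146299 28908434 (corT true 1 c0B cB202R gB0q2 gB5q2 gB1q0 gB2q0 true true)) t 1 1 1 = true :=
  ⟨(T.b (T.b (T.l 1) (T.b (T.l 1) (T.b (T.l 1) (T.a (T.l 204) (T.a (T.l 204) (T.l 204)))))) (T.b (T.b (T.a (T.l 0) (T.a (T.l 0) (T.l 0))) (T.l 2)) (T.l 2))), by decide +kernel⟩

def B202R_052 :
    ∃ t, chk3 (onCell 0 26843545 0 1073741824 991146299 28908434 (corT true 1 c0B cB202R gB0q2 gB5q2 gB2q0 gB3q0 true false)) t 1 1 1 = true :=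
  ⟨(T.b (T.l 1) (T.b (T.b (T.b (T.l 1) (T.a (T.l 0) (T.l 0))) (T.a (T.l 0) (T.b (T.l 0) (T.l 0)))) (T.b (T.a (T.a (T.l 204) (T.l 204)) (T.b (T.l 0) (T.l 0))) (T.a (T.a (T.l 204) (T.l 204)) (T.l 0))))), by decide +kernel⟩

def B202R_150 :
    ∃ t, chk3 (onCell 0 53687091 0 1073741824 991146299 28908434 (corT true 1 c0B cB202R gB1q2 gB5q2 gB0q0 gB1q0 true true)) t 1 1 1 = true :=
  ⟨(T.b (T.b (T.l 1) (T.b (T.l 1) (T.b (T.a (T.l 1) (T.b (T.l 1) (T.b (T.l 1) (T.a (T.l 0) (T.l 0))))) (T.a (T.l 0) (T.a (T.l 0) (T.b (T.l 0) (T.l 0))))))) (T.b (T.a (T.l 0) (T.b (T.a (T.l 0) (T.l 0)) (T.l 2))) (T.l 2))), by decide +kernel⟩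

def B202R_151 :
    ∃ t, chk3 (onCell 0 53687091 0 1073741824 991146299 28908434 (corT true 1 c0B cB202R gB1q2 gB5q2 gB1q0 gB2q0 true true)) t 1 1 1 = true :=
  ⟨(T.b (T.l 1) (T.b (T.b (T.a (T.l 204) (T.a (T.l 0) (T.b (T.l 0) (T.l 0)))) (T.a (T.l 0) (T.l 0))) (T.l 2))), by decide +kernel⟩

def B202R_152 :
    ∃ t, chk3 (onCell 0 53687091 0 1073741824 991146299 28908434 (corT true 1 c0B cB202R gB1q2 gB5q2 gB2q0 gB3q0 true false)) t 1 1 1 = true :=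
  ⟨(T.b (T.l 1) (T.b (T.b (T.l 1) (T.a (T.l 0) (T.l 0))) (T.a (T.l 0) (T.a (T.l 0) (T.l 0))))), by decide +kernel⟩

def B202R_250 :
    ∃ t, chk3 (onCell 0 53687091 0 1073741824 991146299 28908434 (corT true 1 c0B cB202R gB2q2 gB5q2 gB0q0 gB1q0 true true)) t 1 1 1 = true :=
  ⟨(T.b (T.l 1) (T.b (T.l 1) (T.b (T.l 1) (T.a (T.l 204) (T.b (T.l 0) (T.l 0)))))), by decide +kernel⟩

def B202R_251 :
    ∃ t, chk3 (onCell 0 53687091 0 1073741824 991146299 28908434 (corT true 1 c0B cB202R gB2q2 gB5q2 gB1q0 gB2q0 true true)) t 1 1 1 = true :=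
  ⟨(T.b (T.l 1) (T.b (T.l 1) (T.b (T.l 1) (T.a (T.l 204) (T.b (T.l 0) (T.l 0)))))), by decide +kernel⟩

def B202R_252 :
    ∃ t, chk3 (onCell 0 53687091 0 1073741824 991146299 28908434 (corT true 1 c0B cB202R gB2q2 gB5q2 gB2q0 gB3q0 true false)) t 1 1 1 = true :=
  ⟨(T.b (T.l 1) (T.b (T.l 1) (T.b (T.l 1) (T.b (T.l 1) (T.a (T.l 204) (T.l 0)))))), by decide +kernel⟩

end Pool.Agent.Strip051.G.I9231_9500.Tab.CG
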