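import Pool.Agent.Strip051.G.I9231_9500.Tab
import Pool.Agent.Strip051.PB.StripB

/-! # Strips, near vertex: certificates 8 (generated) -/

set_option linter.all false
set_option maxRecDepth 100000

namespace Pool.Agent.Strip051.G.I9231_9500.Tab.CS.BB50

open Pool.Agent.Strip051.PB Pool.Agent.Strip051.PB.T
open Pool.Agent.Strip051.G.I9231_9500.Tab

noncomputable def cut_pp_101_s : Cut := Cut.of [[⟨4, 0, 0, 1449551462⟩], [⟨0, 1, 0, 26843545⟩, ⟨1, 0, 0, 26843545⟩, ⟨2, 1, 0, 26843545⟩]]

noncomputable def f_pp_101_s : ℕ → ℕ → ℕ → ℕ → Bool := onCell 0 536870912 536870912 536870912 991146299 28908434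
    (rowNE 3 eng mog cd5q1 cd0q1 pd0 2 false true true .npn 1 0 1 (qsf 536870912 536870912 536870912 536870912 0) ndB5q1 ndB0q1 pcB0 cut_pp_101_s Ext.none)

def k0_pp_101_s : ∃ t, chk3 f_pp_101_s t 2 2 1 = true :=
  ⟨(l 3), by decide +kernel⟩

def k1_pp_101_s : ∃ t, chk3 f_pp_101_s t 4 6 1 = true :=
  ⟨(l 3), by decide +kernel⟩

def k2_pp_101_s : ∃ t, chk3 f_pp_101_s t 8 14 1 = true :=
  ⟨(l 3), by decide +kernel⟩

def k3_pp_101_s : ∃ t, chk3 f_pp_101_s t 16 30 1 = true :=
  ⟨(l 3), by decide +kernel⟩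

def k4_pp_101_s : ∃ t, chk3 f_pp_101_s t 16 62 1 = true :=
  ⟨(a (l 3) (b (l 3) (a (l 3) (b (l 3) (a (l 3) (b (l 3) (a (l 3) (b (l 3) (b (l 3) (a (l 3) (b (a (l 3) (a (l 3) (c (a (l 471003562215) (b (l 570324680951) (l 16777120))) (c (l 285246227271) (l 287930580519))))) (c (b (a (l 3) (a (a (l 294373032423) (l 16777128)) (l 16776880))) (a (a (l 3) (a (l 317995352535) (l 16777144))) (l 16776712))) (a (c (l 460266144055) (l 466708594999)) (c (l 16776872) (l 16777528))))))))))))))), by decide +kernel⟩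

def k5_pp_101_s : ∃ t, chk3 f_pp_101_s t 32 63 1 = true :=
  ⟨(b (b (l 3) (b (l 3) (b (l 3) (l 14)))) (l 14)), by decide +kernel⟩

def k6_pp_101_s : ∃ t, chk3 f_pp_101_s t 66 252 1 = true :=
  ⟨(a (l 3) (b (l 3) (a (l 3) (b (l 3) (b (l 3) (b (l 3) (a (l 3) (a (l 3) (b (a (l 3) (c (a (l 507510784183) (b (l 350207607127) (l 16777144))) (c (l 285783097895) (c (l 286856839719) (l 287393710631))))) (c (a (b (l 515563847863) (a (l 386714829127) (l 16777152))) (c (l 16777296) (l 16776968))) (a (c (l 292225548855) (c (l 293299290679) (l 294373032503))) (c (l 16776976) (l 16776976))))))))))))), by decide +kernel⟩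

def k7_pp_101_s : ∃ t, chk3 f_pp_101_s t 132 506 1 = true :=
  ⟨(a (l 3) (a (l 3) (a (l 3) (b (l 3) (b (l 3) (b (l 3) (c (a (a (l 3) (a (l 3) (b (l 3) (l 508047655063)))) (a (b (l 3) (b (c (l 489257173095) (l 381346119991)) (a (l 181093269703) (l 16777112)))) (b (a (l 3) (l 499457720455)) (a (b (l 169282109639) (l 16777016)) (l 16777016))))) (b (c (l 554218553751) (l 557976650135)) (c (a (l 548849844487) (l 156397208023)) (a (l 552071069959) (a (l 241222812023) (l 16777056)))))))))))), by decide +kernel⟩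

def k8_pp_101_s : ∃ t, chk3 f_pp_101_s t 264 1014 1 = true :=
  ⟨(a (l 3) (a (l 3) (a (l 3) (b (l 3) (b (l 3) (b (l 3) (b (a (l 3) (a (b (l 3) (c (l 242833424551) (l 319069093975))) (c (a (l 191293816999) (l 16777160)) (l 156397207719)))) (c (a (a (b (l 3) (l 318532223079)) (b (l 249812746407) (l 16777144))) (l 16776392)) (c (l 16777120) (l 144049176887)))))))))), by decide +kernel⟩

def k9_pp_101_s : ∃ t, chk3 f_pp_101_s t 530 1014 1 = true :=
  ⟨(a (b (l 3) (a (b (l 3) (b (b (a (l 3) (c (b (a (l 3) (l 218137362583)) (c (l 153712853143) (l 16777168))) (c (l 16777192) (l 16777192)))) (c (a (c (a (a (l 396378505415) (l 287930581175)) (l 149417885863)) (l 16777200)) (l 16775728)) (c (l 16777112) (l 138143596839)))) (c (l 16776200) (l 16775552)))) (b (a (b (l 3) (b (l 3) (c (a (a (l 386177958071) (l 263771390135)) (l 138143596695)) (c (l 16777192) (l 16777192))))) (b (c (l 575156519143) (l 588578291943)) (c (b (b (a (l 3) (l 16777288)) (l 142975434887)) (l 16775720)) (c (l 16777104) (l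 16777112))))) (c (l 295983642247) (l 16775360))))) (b (a (a (l 3) (b (l 3) (b (l 3) (c (l 553681682663) (l 581598970071))))) (b (l 3) (a (b (l 3) (c (b (l 540259909783) (b (a (l 441475661975) (l 16777192)) (l 16777152))) (b (l 468319207735) (c (l 16777176) (l 16777176))))) (b (c (l 546702360791) (l 568714068183)) (c (a (b (a (l 308331675847) (l 198273138871)) (l 16777056)) (l 16777056)) (c (l 16777088) (l 16777096))))))) (b (a (c (b (a (b (l 568177197207) (b (a (l 520395686007) (l 16777200)) (l 131701145735))) (a (b (a (l 324437803223) (l 214379266247)) (l 16775760)) (l 29695672503))) (l 16776184)) (a (b (b (l 504289558807) (c (l 16777184) (l 16777184))) (l 16774320)) (c (l 16776920) (l 16776928)))) (c (l 16775984) (l 16775344))) (c (l 16773456) (l 16773488))))), by decide +kernel⟩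

def k10_pp_101_s : ∃ t, chk3 f_pp_101_s t 531 1014 1 = true :=
  ⟨(c (b (b (a (a (a (l 3) (a (l 3) (b (l 3) (l 532206846119)))) (a (b (l 3) (b (l 511268880519) (b (a (l 358260670631) (l 16777176)) (l 16777128)))) (b (a (l 3) (l 516637589671)) (a (a (b (l 267529486519) (l 16777064)) (l 54928605367)) (l 16777032))))) (a (b (b (a (l 501068333175) (a (a (l 228337909959) (l 16777176)) (l 16777112))) (b (a (a (l 324974674087) (l 16777168)) (l 16777024)) (l 16777024))) (l 16775488)) (l 16775288))) (a (b (a (b (a (l 530059362439) (b (a (l 407652794503) (l 16777176)) (l 16777136))) (b (a (a (l 408189665431) (l 16777184)) (l 16777048)) (l 16777208))) (l 16775496)) (l 16775968)) (l 16773424))) (a (l 16774376) (l 16774928))) (a (b (b (b (c (l 564419101095) (l 568177197479)) (c (a (l 564419100951) (l 159618433559)) (a (l 567640326423) (a (a (l 309942288775) (l 207399944519)) (l 16777072))))) (a (b (c (c (l 16777472) (l 16777472)) (c (l 171429593607) (a (l 260013293991) (l 16777088)))) (l 16775512))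 (l 16775320))) (l 16773104)) (b (b (a (b (c (l 161765917159) (a (l 248202133895) (l 16777064))) (l 16774184)) (l 16773992)) (l 16770832)) (l 16774976)))), by decide +kernel⟩

def k11_pp_101_s : ∃ t, chk3 f_pp_101_s t 132 1015 1 = true :=
  ⟨(a (a (a (l 14) (b (a (l 3) (b (l 3) (b (l 3) (b (a (l 3) (b (a (l 3) (c (l 353965703335) (l 356113186983))) (l 14))) (l 14))))) (l 14))) (b (a (b (b (l 3) (a (l 3) (b (a (l 3) (c (a (b (l 3) (l 317995352215)) (b (l 357186928743) (l 16777160))) (c (l 16777216) (l 272361324791)))) (a (c (a (a (l 486035947703) (l 363092508855)) (b (l 325511544983) (l 16777160))) (c (l 16777216) (l 280414388471))) (c (l 16777064) (l 16777072)))))) (b (a (b (a (l 3) (c (a (a (l 3) (l 375440539831)) (b (l 372219314295) (l 16777168))) (c (l 16777216) (l 279877517575)))) (a (c (a (a (l 3) (l 387251699895)) (b (l 339470188711) (l 16777168))) (c (l 16777224) (l 287930581255))) (c (l 16777072) (l 16777080)))) (c (c (l 313163512535) (l 16774264)) (l 16776888))) (c (a (a (l 16777232)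 (l 16776792)) (l 16776504)) (c (l 16774088) (l 16776712))))) (b (a (b (a (b (l 3) (c (a (b (l 3) (l 302962966679)) (b (l 341617672295) (l 16777152))) (c (l 16777208) (l 264308261111)))) (c (b (a (b (l 3) (l 334101479527)) (b (l 326048415847) (l 16777152))) (l 16777056)) (c (l 16777128) (l 144049176903)))) (c (l 302962965191) (l 16776880))) (c (a (l 299204868279) (l 16775272)) (l 16776032))) (c (l 16774800) (l 16773520)))) (c (c (a (l 16774432) (l 16774968)) (l 16772752)) (c (l 16772776) (l 16772800))))) (a (a (b (c (l 16774408) (l 16773136)) (l 16772936)) (c (l 16771576) (l 16769024))) (c (l 16767808) (l 16762664)))), by decide +kernel⟩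

def k12_pp_101_s : ∃ t, chk3 f_pp_101_s t 532 506 1 = true :=
  ⟨(a (b (l 3) (b (l 3) (a (b (a (l 3) (a (l 3) (b (l 3) (b (l 3) (c (l 307257934071) (l 329806512343)))))) (c (b (c (a (b (a (l 3) (l 338933317847)) (l 74255958231)) (a (l 71571603623) (l 16775688))) (l 146196660711)) (l 16775464)) (b (c (l 139217338871) (a (l 228874781047) (l 16777048))) (l 16774168)))) (b (a (b (l 3) (b (a (l 3) (c (l 295446774007) (l 328732770503))) (c (l 69960990919) (l 93583311047)))) (b (a (l 3) (b (l 3) (c (l 284172484855) (l 316384739527)))) (c (c (l 16777280) (l 16777040)) (l 250886487639)))) (c (l 16775272) (l 16773976)))))) (b (l 3) (b (b (l 3) (b (c (c (a (l 3) (a (l 3) (a (l 551534198967) (l 455971176535)))) (l 526838137207)) (c (l 533280588151) (l 539723039079))) (c (b (a (l 3) (a (a (l 462950498535) (l 269140099287)) (l 16777104))) (a (a (l 3) (a (l 509658267847) (l 270750712039))) (l 16777264))) (c (a (l 394231022199) (l 16777088)) (a (l 515563847895) (c (l 16777088) (l 131164275095)))))))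 (a (b (b (a (b (a (l 3) (c (l 282561872103) (l 282025001191))) (c (l 16777280) (l 16777120))) (c (l 16777272) (l 16777032))) (c (l 16775448) (l 16774144))) (c (l 16776200) (l 16776224))) (c (l 16775208) (l 16774904)))))), by decide +kernel⟩

def k13_pp_101_s : ∃ t, chk3 f_pp_101_s t 533 506 1 = true :=
  ⟨(b (a (l 3) (b (l 3) (b (l 3) (a (b (l 3) (b (l 3) (c (b (l 512342622359) (a (l 3) (l 188609462487))) (c (l 321216578007) (l 324437803479))))) (b (b (l 3) (c (a (l 3) (a (l 350207607015) (l 16777264))) (c (l 303499837927) (l 316921610695)))) (c (a (b (a (l 362555637991) (l 178945786055)) (l 16777072)) (l 16776976)) (c (l 16777056) (l 16777056)))))))) (b (c (a (a (a (b (l 3) (b (b (a (l 474224787639) (l 227264168183)) (l 16777104)) (l 16776832))) (b (b (l 3) (a (l 536501813431) (b (l 3) (l 222432329959)))) (l 16777152))) (b (a (b (l 3) (b (a (l 424832663767) (l 209547428071)) (l 16777088))) (b (a (l 526301266087) (b (l 3) (l 207399944407))) (l 16776992))) (l 16775232))) (a (b (a (b (b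 (a (l 410337149127) (l 194515042519)) (l 16777080)) (l 16776808)) (l 16776800)) (l 16776160)) (l 16774840))) (a (c (b (a (l 516100718951) (b (l 374366798423) (l 16777072))) (l 16777464)) (a (b (l 526301266263) (b (l 115058147767) (l 16776752))) (b (b (l 492478398647) (l 108615696807)) (l 16776560)))) (b (a (c (l 16776888) (l 39359349159)) (l 16773912)) (l 16770760)))) (c (c (l 16773920) (l 16770008)) (l 16773984)))), by decide +kernel⟩

def k14_pp_101_s : ∃ t, chk3 f_pp_101_s t 267 506 1 = true :=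
  ⟨(a (b (b (b (l 3) (a (l 3) (a (c (b (l 3) (b (l 569250939111) (a (l 570324680871) (a (l 272898195687) (l 16777160))))) (c (l 487109689623) (c (l 493015269655) (l 495162753303)))) (b (b (c (l 553681682663) (l 572472164567)) (a (c (l 557439778967) (l 475298529591)) (c (a (l 239075328247) (l 16777144)) (l 168745238791)))) (c (a (a (b (l 270213841111) (l 16777072)) (l 16777064)) (l 16775616)) (c (l 16777016) (l 16777016))))))) (c (a (a (a (b (l 3) (b (a (b (l 348060123351) (l 16777104)) (l 71571603639)) (l 16776784))) (b (b (l 3) (a (l 488720302215) (b (l 3) (l 16777176)))) (l 16775472))) (b (b (b (l 3) (b (l 475835400311) (a (l 3) (l 16777168)))) (a (a (b (l 301352354039) (l 16777096)) (l 16777088)) (l 16775640))) (l 16773872))) (b (a (b (b (a (a (l 285783097575) (l 16777160)) (l 16775720)) (l 16775632)) (l 16776672)) (l 16773856)) (l 16773312))) (a (c (b (a (l 496236495159) (c (l 200957494007) (l 215453007239))) (l 16776688)) (b (a (l 503215817015) (b (l 462413627527) (l 16777032)))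 (l 16810770871))) (c (l 16776312) (l 9831448919))))) (c (b (l 16773568) (l 16773736)) (c (l 16769280) (l 16769320)))) (b (b (b (c (a (a (b (l 3) (b (l 544554877143) (a (l 436106953015) (l 160692175095)))) (a (b (l 533280587975) (c (l 74792829159) (l 16777080))) (b (b (l 396915376455) (l 133311758599)) (l 16774280)))) (a (b (c (l 38822478087) (l 16776976)) (l 16776624)) (l 16773808))) (a (c (a (l 475298529543) (c (l 167671497495) (l 197199397479))) (a (c (l 480667238663) (l 482814722311)) (b (a (l 451139338679) (l 246054650263)) (l 16777000)))) (c (l 16776624) (l 16776632)))) (c (b (a (b (a (a (l 171429593335) (l 16777008)) (l 16776728)) (l 16775424)) (l 16776072)) (l 16774768)) (c (l 16776280) (l 16776296)))) (c (l 16773864) (l 16772600))) (c (l 16767728) (l 16762592)))), by decide +kernel⟩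

def k15_pp_101_s : ∃ t, chk3 f_pp_101_s t 133 507 1 = true :=
  ⟨(a (b (c (a (a (b (l 16774344) (l 16774160)) (l 16768912)) (l 16767776)) (a (c (l 16771960) (l 16771992)) (l 16762632))) (c (l 16760296) (l 16760448))) (c (l 16764032) (l 16764232))), by decide +kernel⟩

def k16_pp_101_s : ∃ t, chk3 f_pp_101_s t 134 504 1 = true :=
  ⟨(a (l 3) (b (l 3) (b (l 3) (a (l 3) (a (a (l 3) (a (l 3) (b (l 3) (c (l 519858815303) (l 531669975351))))) (b (b (l 3) (a (l 3) (c (l 491941527767) (c (l 382419862135) (l 387251700343))))) (b (c (a (l 501068333287) (a (a (l 236390973799) (l 16777144)) (l 16777024))) (c (l 226727297239) (a (l 513416364263) (l 16777096)))) (c (a (a (a (l 243907166599) (l 16777320)) (l 16777040)) (l 16776768)) (c (l 16776936) (l 16776936)))))))))), by decide +kernel⟩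

def k17_pp_101_s : ∃ t, chk3 f_pp_101_s t 268 505 1 = true :=
  ⟨(a (b (l 3) (b (b (l 3) (a (l 3) (a (b (l 3) (c (a (l 477982883975) (b (l 309405417767) (l 16777112))) (c (l 244980908615) (l 246591521351)))) (b (c (a (l 462413627527) (b (l 295983644951) (l 16777096))) (c (l 237464715831) (l 239612199479))) (c (l 16776920) (l 16776928)))))) (b (a (a (b (l 3) (c (a (l 497847107751) (b (l 335712092487) (l 16777128))) (c (l 258402681447) (l 281488130583)))) (b (c (a (l 488183431319) (b (l 322827190583) (l 16777120))) (c (l 251960230487) (a (l 409800278407) (l 16777176)))) (c (l 16776944) (l 16776952)))) (c (c (l 16776560) (l 16776568)) (l 199883750135))) (c (a (c (c (l 16777240) (l 16776592)) (l 16776592)) (l 16775848)) (c (l 16776240) (l 16776248)))))) (b (a (l 3) (b (l 3) (b (l 3) (b (a (l 3) (c (c (a (b (l 3) (l 225116684551)) (l 95730794791)) (l 16777496)) (c (l 16777176) (l 233169748375)))) (a (c (a (b (l 3) (l 256255197431)) (b (l 215453008183) (l 16777064))) (c (l 16777184) (l 236927844791)))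 (c (l 16776872) (l 16776880))))))) (c (b (b (a (a (b (l 3) (a (l 452213080183) (b (l 282025001223) (l 16777088)))) (b (a (b (l 3) (l 270750712071)) (b (l 244444037415) (l 16777072))) (l 16776896))) (l 16776520)) (c (l 16777152) (l 16776176))) (l 16772472)) (b (a (b (a (b (l 3) (c (l 250349617623) (l 232096006695))) (b (c (l 16777352) (l 224579813911)) (l 16776904))) (l 16776560)) (l 16776192)) (l 16769904))))), by decide +kernel⟩

def k18_pp_101_s : ∃ t, chk3 f_pp_101_s t 269 505 1 = true :=
  ⟨(c (b (a (b (a (a (l 3) (b (l 3) (l 563882230215))) (a (b (l 3) (b (l 547239231783) (b (a (l 438254436647) (l 16777168)) (l 16777336)))) (a (b (l 3) (b (a (l 300278612359) (l 189146333543)) (l 16776912))) (b (l 538112426327) (l 16777224))))) (b (a (b (a (l 569250939191) (b (a (l 463487369527) (l 16777176)) (l 98415149399))) (a (a (b (l 502678946071) (l 196125655319)) (l 90898956567)) (l 16774224))) (l 16775160)) (l 16776784))) (b (a (b (b (a (l 518785073415) (a (a (l 275045679463) (l 161765916999))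 (l 16777048))) (b (a (a (l 382956732727) (l 16777144)) (l 16776880)) (l 16777208))) (l 16775136)) (l 16774752)) (l 16772392))) (a (b (l 16772432) (l 16773616)) (l 16762384))) (b (a (b (a (c (l 579988358023) (l 585357067127)) (b (c (l 566566584903) (l 572472164919)) (a (b (l 564419100951) (c (l 16777144) (l 188072591799))) (c (l 16776976) (l 68887249415))))) (a (b (c (a (c (l 270750712711) (l 272361325447)) (l 16777000)) (a (l 417316470871) (c (l 16777000) (l 106468213303)))) (l 16776512)) (l 16776144))) (b (b (a (b (a (l 541333651719) (c (l 16777120) (l 16777120))) (c (l 16776960) (l 16777288))) (l 16776440)) (l 16776112)) (l 16769832))) (a (l 16771792) (l 16772992)))), by decide +kernel⟩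

def k19_pp_101_s : ∃ t, chk3 f_pp_101_s t 270 252 1 = true :=
  ⟨(b (b (b (l 3) (a (l 3) (a (a (l 3) (c (b (l 3) (b (l 3) (c (l 435570081911) (l 310479159911)))) (c (l 515563848263) (l 522543170119)))) (a (b (l 3) (b (c (a (l 540259909847) (l 251423359399)) (c (l 16777264) (l 304036708951))) (c (l 16777008) (l 16777016)))) (b (c (a (l 539723039079) (b (l 3) (l 239612199319))) (c (l 340007060407) (l 473151045879))) (c (l 16776824) (l 16776832))))))) (b (b (a (a (l 3) (b (l 3) (a (l 3) (c (l 454897434775) (c (l 328732770951) (l 352891961911)))))) (a (a (b (c (l 445770629255) (c (l 319069094519) (l 322290319991))) (c (l 54928605559) (l 80161538391))) (c (c (l 16776848) (l 16776848)) (l 269140098039))) (c (l 16773688) (l 16771096)))) (a (b (a (l 3) (c (a (l 464561111207) (c (l 66739765607) (l 16777048))) (c (l 219211104967) (a (l 361481896519) (l 16777048))))) (c (a (a (l 3) (l 473687916727)) (a (a (l 148344144231) (l 16776984)) (l 16776712))) (a (c (l 522543169879) (l 525227524439)) (l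 300815481831)))) (c (l 16774664) (l 16776008)))) (a (a (b (c (b (a (l 482814722247) (a (l 160155304311) (l 16777000))) (b (a (a (l 295983644967) (l 16777096)) (l 16776824)) (l 16776832))) (a (c (l 216526750535) (b (l 378661765735) (l 16777088))) (l 292762418183))) (c (l 16773768) (l 16771176))) (c (l 16773392) (l 16773424))) (c (l 16769680) (l 16764504))))) (a (b (c (l 16771640) (l 16769104)) (l 16766248)) (c (l 16766144) (l 16761072)))), by decide +kernel⟩

def k20_pp_101_s : ∃ t, chk3 f_pp_101_s t 271 252 1 = true :=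
  ⟨(a (b (b (a (b (b (l 3) (c (a (l 3) (a (l 523080040775) (b (l 3) (l 194515042743)))) (c (l 481204109687) (l 487646560631)))) (a (b (c (b (a (l 512879493303) (l 207936815559)) (l 16776984)) (c (l 16777104) (l 168745237911))) (c (l 16776464) (l 16776488))) (c (l 16776448) (l 16776472)))) (b (c (a (b (l 3) (b (a (l 365776863719) (l 181093269927)) (l 16776952))) (b (a (l 505900171559) (b (l 3) (l 167134626199))) (l 16776768))) (b (c (l 471003562327) (l 477446013271)) (a (c (l 16777088) (l 157470950023)) (l 16776784)))) (c (l 16773288) (l 16770704)))) (c (l 16768936) (l 16769024))) (c (l 16759464) (l 16749192))) (b (b (c (b (b (b (a (a (a (l 330343383527) (l 16777400)) (l 16776912)) (l 16776368)) (l 16776384)) (l 16773248)) (l 16769584)) (b (a (b (c (l 16776896) (l 89288342967)) (l 16771016)) (l 16770656)) (l 16764416))) (c (l 16772736) (l 16772872))) (l 16763408))), by decide +kernel⟩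

def k21_pp_101_s : ∃ t, chk3 f_pp_101_s t 67 253 1 = true :=
  ⟨(a (b (a (a (b (c (b (l 16772512) (l 16773680)) (c (l 16769216) (l 16769256))) (l 16766312)) (c (l 16766224) (l 16766376))) (c (l 16764024) (l 16759000))) (c (l 16754368) (l 16754696))) (b (c (l 16754448) (l 16744320)) (l 16738384))), by decide +kernel⟩

def k22_pp_101_s : ∃ t, chk3 f_pp_101_s t 33 127 1 = true :=
  ⟨(b (a (b (a (a (a (l 14) (a (l 14) (b (l 16770128) (l 14)))) (b (c (l 16760304) (l 16760448)) (l 16757352))) (a (b (l 16757384) (l 16764856)) (l 16742456))) (a (a (l 14) (l 16742272)) (l 16737856))) (a (b (l 16738136) (l 16753104)) (b (l 16753504) (l 16726560)))) (a (a (l 14) (c (b (l 16732048) (l 16749632)) (a (l 16753760) (l 16730152)))) (a (b (l 16727304) (l 16724064)) (l 16720600)))), by decide +kernel⟩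

def k23_pp_101_s : ∃ t, chk3 f_pp_101_s t 17 30 1 = true :=
  ⟨(b (l 3) (a (l 3) (b (l 3) (a (l 3) (b (l 3) (a (l 3) (b (l 3) (b (a (l 3) (a (l 3) (a (c (l 574082769991) (l 567640314311)) (c (l 509658265271) (l 513953231047))))) (c (a (a (l 3) (l 551534195511)) (b (a (l 430201371527) (l 16776160)) (l 16775656))) (c (a (l 564955955495) (l 290078060455)) (a (l 564419080631) (l 312089732695)))))))))))), by decide +kernel⟩

def k24_pp_101_s : ∃ t, chk3 f_pp_101_s t 34 124 1 = true :=
  ⟨(a (l 3) (b (l 3) (a (l 3) (b (l 3) (a (l 3) (b (l 3) (b (a (l 3) (c (a (l 510195139335) (b (l 473151046023) (l 16777632))) (c (l 539723036471) (l 541333647399)))) (a (c (a (l 531669975911) (c (b (l 501605204471) (l 156397208359)) (l 232632878775))) (c (l 552071067351) (l 552607935991))) (c (a (b (l 125795566471) (l 16776432)) (l 16776080)) (l 320142832503)))))))))), by decide +kernel⟩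

def k25_pp_101_s : ∃ t, chk3 f_pp_101_s t 68 250 1 = true :=
  ⟨(a (l 3) (b (l 3) (a (l 3) (b (l 3) (b (a (l 3) (c (a (l 3) (c (b (l 3) (l 476909142439)) (l 506973913815))) (l 655150284247))) (b (a (l 3) (c (a (l 491941528007) (a (a (l 217063621319) (l 16777072)) (l 16776832))) (a (l 577304002567) (c (l 16776976) (l 16776984))))) (a (a (l 3) (c (l 504289559031) (l 552607940935))) (c (b (a (a (l 318532223607) (l 16777032)) (l 16776520)) (l 16776536)) (c (l 16776688) (l 72645346215)))))))))), by decide +kernel⟩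

def k26_pp_101_s : ∃ t, chk3 f_pp_101_s t 68 502 1 = true :=
  ⟨(a (a (l 3) (a (l 3) (b (l 3) (b (l 3) (b (a (l 3) (a (c (l 445770628679) (c (l 325511545735) (l 328732771207))) (c (b (l 266992615927) (l 16776952)) (l 313700383159)))) (a (c (a (l 459729273095) (b (l 286319968807) (l 16776984))) (c (l 232096007271) (a (l 350744478599) (l 16777112)))) (c (l 16776632) (l 16776648)))))))) (a (b (b (b (l 3) (a (l 3) (a (l 3) (c (l 545091748407) (l 556902908471))))) (a (a (l 3) (a (l 3) (c (l 571935294231) (l 586967679751)))) (c (a (b (l 556902908519) (a (b (l 555829166391) (l 175187690023)) (l 76403442215))) (b (a (b (l 519858815239) (l 16777136)) (l 16776968)) (l 16776496))) (a (b (l 571398423127) (c (l 187535721399) (l 186461978279))) (c (l 69424120935) (b (l 174650819479) (l 16776528))))))) (a (b (b (a (l 3) (a (b (l 3) (c (l 215453008391) (l 211694912007))) (c (a (l 143512306279) (l 16776960)) (l 320679706023)))) (a (a (b (l 3) (c (l 235854103095) (l 232632877623))) (c (b (l 224042943015)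 (l 16776920)) (l 313163513431))) (c (l 16776560) (l 16776584)))) (c (l 16775912) (l 16775960))) (c (l 16775184) (l 16775256)))) (b (a (c (b (b (a (l 518248202775) (a (b (l 341080801959) (l 16777080)) (l 16776904))) (a (a (b (l 381346120327) (l 16777104)) (l 16776936)) (l 16776424))) (l 16775784)) (b (a (c (b (l 540796781079) (l 16777064)) (l 438791305511)) (c (l 16776736) (b (l 152639111975) (l 16776464)))) (l 16775832))) (c (l 16775064) (l 16775144))) (c (l 16767864) (l 16773256))))), by decide +kernel⟩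

def k27_pp_101_s : ∃ t, chk3 f_pp_101_s t 68 503 1 = true :=
  ⟨(b (a (a (a (l 3) (b (l 3) (b (a (l 3) (a (c (l 508047655271) (l 516100718951)) (b (c (l 472077303991) (l 366850605655)) (c (l 16777072) (l 16777080))))) (a (b (c (l 513953235335) (l 537038684551)) (a (c (l 502678946039) (l 414095245959)) (c (l 126869307863) (l 127943049655)))) (c (c (l 36674994631) (l 16776752)) (l 294373030311)))))) (b (a (b (a (l 3) (c (a (l 475835400487) (b (l 304573579863) (l 16777016))) (c (l 241759683735) (a (l 486572818727) (l 176798302967))))) (c (a (a (l 491941527879) (b (l 322290320007) (l 16777048))) (l 16776688)) (a (c (l 261623907447) (l 404431568967)) (l 16776712)))) (c (c (l 16775960) (l 16775984)) (l 307257928471))) (c (a (c (c (l 5536481751) (l 16776024)) (l 16776040)) (l 16774624)) (c (l 16775376) (l 16775408))))) (a (c (l 16767960) (l 16762856)) (l 16767936))) (a (a (a (b (b (a (l 3) (b (c (l 540796780967) (l 553144811943)) (c (c (a (l 524690653463) (l 151028498919)) (l 254644585287))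 (c (l 253033972551) (l 252497101655))))) (c (a (a (l 567640326599) (a (l 453286822087) (b (l 438791307719) (l 16777088)))) (a (a (b (l 246054650263) (l 16776920)) (l 16776912)) (l 16774024))) (a (c (a (l 577840873927) (l 257328939895)) (l 446307500263)) (c (l 16776816) (l 16776824))))) (c (a (b (a (a (b (l 268066357703) (l 16776952)) (l 16776936)) (l 16776680)) (l 16770928)) (l 16770552)) (c (l 16776168) (c (l 16776184) (l 16777504))))) (c (b (a (a (b (b (l 134922371575) (l 16776800)) (l 16776288)) (l 16773656)) (l 16770496)) (l 16769488)) (a (c (l 16775800) (l 16775824)) (l 16775128)))) (c (l 16770672) (l 16768176))) (c (l 16758632) (l 16748424)))), by decide +kernel⟩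

def k28_pp_101_s : ∃ t, chk3 f_pp_101_s t 138 250 1 = true :=
  ⟨(b (a (l 3) (b (l 3) (b (a (l 3) (a (l 3) (c (a (l 501605204567) (b (l 3) (l 183240753799))) (l 564955969543)))) (b (a (l 3) (a (c (c (l 389399183431) (l 253033972855)) (c (l 255718327383) (l 268603229191))) (c (l 16776704) (l 16776720)))) (a (c (a (l 3) (c (l 402820956279) (l 265918874791))) (l 582135838839)) (c (l 16776400) (l 16776432))))))) (a (b (b (b (l 3) (a (l 3) (c (a (l 3) (c (l 426443276519) (l 301352354999))) (l 598241966503)))) (b (a (l 3) (a (c (c (l 439328178455) (l 313163515111)) (l 575693389079)) (c (l 16777496) (l 330880252503)))) (a (c (a (l 3) (c (l 452213080391) (l 325511546135))) (l 630454221751)) (c (c (c (l 31843156663) (l 16776536)) (l 16776544)) (l 308331673207))))) (c (b (a (b (a (c (l 464561111415) (l 466708595063)) (a (l 135459242679) (l 16776760))) (a (a (a (l 198273139351) (l 16777040)) (l 16776800)) (l 16776288))) (l 16775584)) (l 16774968)) (b (a (a (b (l 585893936679) (c (l 16776952) (l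 16776952))) (l 299204867975)) (l 16775648)) (l 16775056)))) (c (a (b (a (b (b (c (l 413558374583) (l 278803776727)) (l 16776808)) (l 16770616)) (l 16777456)) (l 16763096)) (l 16773528)) (b (b (a (a (c (l 172503333687) (b (l 553144810071) (l 16776832))) (l 16776488)) (l 16775520)) (l 16774936)) (l 16773072))))), by decide +kernel⟩

def k29_pp_101_s : ∃ t, chk3 f_pp_101_s t 139 250 1 = true :=
  ⟨(b (a (b (a (a (l 3) (b (l 3) (c (a (l 477446013431) (b (l 3) (l 16777056))) (l 549386713191)))) (a (c (b (l 566566585287) (a (b (l 270750712743) (l 16776752)) (l 16776720))) (b (l 666961439319) (l 416779597223))) (c (b (b (l 547776102999) (a (l 251960230775) (l 16776992))) (l 16776232)) (b (l 533817457015) (l 16776272))))) (b (b (a (a (a (c (l 316921611207) (l 328732771207)) (c (l 16777424) (l 316384739015))) (c (l 16776624) (l 16776648))) (c (l 16775624) (l 16775688))) (c (l 16775664) (l 16775720))) (c (l 16774712) (l 16774808)))) (c (b (b (b (a (a (a (l 235854103351) (l 16776952)) (l 16776472))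 (l 16775480)) (l 16775512)) (l 16774576)) (l 16762216)) (b (c (c (l 16775240) (l 16775264)) (l 285246219815)) (l 16772880)))) (a (c (l 16771528) (l 16771752)) (c (l 16747928) (l 16748264)))), by decide +kernel⟩

def k30_pp_101_s : ∃ t, chk3 f_pp_101_s t 69 251 1 = true :=
  ⟨(c (a (b (b (l 16774280) (l 16748064)) (l 16744080)) (l 16751968)) (a (a (b (l 16771896) (l 16766784)) (l 16766784)) (l 16763024))), by decide +kernel⟩

def k31_pp_101_s : ∃ t, chk3 f_pp_101_s t 70 124 1 = true :=
  ⟨(b (a (l 3) (b (l 3) (c (a (l 655687153783) (b (l 634212315111) (a (a (l 559050389495) (b (l 599315707271) (l 16776680))) (a (b (b (l 563882228423) (l 16776920)) (l 16776064)) (l 16776016))))) (c (a (l 648170932551) (b (l 628306719591) (a (l 516100715159) (l 56539219751)))) (a (l 639581006951) (b (l 621327390887) (a (l 519321939367) (l 349670731191)))))))) (b (a (a (l 3) (b (l 3) (c (a (a (l 606831901319) (b (l 3) (b (l 241759683079) (l 16776744)))) (b (a (l 518248201495) (b (l 216526750711) (l 16776664)))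 (l 16776080))) (a (c (l 548849838759) (l 549923577687)) (a (b (l 550997324215) (l 16776440)) (l 355039440199)))))) (a (c (b (b (a (l 656224023271) (a (l 445770628455) (l 16777416))) (a (a (l 488183430391) (c (l 76940313623) (l 16776840))) (l 16775912))) (l 16774760)) (b (c (a (l 532206841287) (c (l 79087798167) (l 77477185447))) (a (l 534354322887) (l 286319965575))) (l 16774872))) (c (l 16776056) (b (l 16774744) (l 16772488))))) (c (a (a (b (a (b (l 3) (a (l 523080040743) (b (l 475298529303) (l 16776904)))) (b (b (l 530596232887) (a (l 467245465511) (l 16776824))) (l 16776240))) (c (c (a (l 16777648) (l 16763880)) (l 16775040)) (l 16775072))) (c (c (l 16777080) (l 16773680)) (l 16773736))) (l 16769912)) (a (b (a (b (c (l 559587256775) (l 559587258391)) (a (c (l 527911876647) (l 530596229831)) (l 16776280))) (l 299204860167)) (a (a (l 323900924951) (l 16774528)) (l 16772680))) (l 16770248))))), by decide +kernel⟩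

def k32_pp_101_s : ∃ t, chk3 f_pp_101_s t 71 124 1 = true :=
  ⟨(b (a (b (a (b (l 3) (a (l 3) (c (l 590725768375) (b (l 3) (l 562271609255))))) (b (a (l 3) (c (l 570861550199) (b (l 3) (l 538649291271)))) (a (c (b (l 554755420871) (c (l 57076090071) (l 16776616))) (b (l 550460450231) (l 308868527399))) (c (l 292225543335) (l 299204853031))))) (a (b (c (a (a (a (l 562271613799) (l 502142070535)) (b (l 562271614695) (l 16776512))) (a (a (b (l 184314496199) (l 16776048)) (l 16776296)) (l 16775848))) (a (b (l 574082768343) (l 414095242023)) (b (l 310479137095) (l 16775664)))) (c (l 16774472) (l 16774608))) (c (l 16773184) (l 16773392)))) (b (a (a (b (c (b (l 527375005303) (l 16776432)) (b (l 526838132391) (l 16776480))) (c (l 16774760) (l 16774888))) (c (l 288467440279) (l 16770224))) (c (l 16772888) (l 16773120))) (c (l 16769624) (l 16770032)))) (a (b (c (l 16769792) (l 16770168)) (l 16757512)) (b (l 16754968) (l 16760976)))), by decide +kernel⟩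

def k33_pp_101_s : ∃ t, chk3 f_pp_101_s t 35 125 1 = true :=
  ⟨(a (b (b (a (c (l 16770056) (l 16770360)) (l 16758744)) (c (l 16762520) (l 16763152))) (a (l 16747296) (l 16732056))) (b (a (l 16758304) (l 16754016)) (l 16746456))), by decide +kernel⟩

def k34_pp_101_s : ∃ t, chk3 f_pp_101_s t 17 63 1 = true :=
  ⟨(b (a (a (b (a (b (a (b (c (a (l 16768848) (l 16772664)) (l 16770872)) (c (l 16770600) (l 16770808))) (c (l 16758688) (l 16748464))) (c (l 16744024) (l 16744408))) (b (c (l 16744064) (l 16744472)) (l 16738824))) (a (c (l 16735472) (l 16736104)) (l 16730480))) (b (a (l 16746816) (l 16731304)) (l 16722896))) (a (b (l 16724128) (a (l 16715728) (l 16732128))) (b (l 16715400) (l 16705008)))) (a (b (a (a (b (l 16748104) (l 16721568)) (l 16719328)) (c (l 16712072) (l 16733944))) (a (c (l 16713144) (l 16713080)) (l 16724296))) (a (a (l 16743128) (l 16717416)) (l 16736968)))), by decide +kernel⟩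

def k35_pp_101_s : ∃ t, chk3 f_pp_101_s t 18 14 1 = true :=
  ⟨(l 3), by decide +kernel⟩

def k36_pp_101_s : ∃ t, chk3 f_pp_101_s t 18 60 1 = true :=
  ⟨(a (l 3) (b (l 3) (a (l 3) (b (l 3) (a (b (l 3) (a (l 3) (c (b (l 584283302535) (a (l 510195133015) (l 279340626455))) (c (l 505900159015) (l 506973899623))))) (b (a (b (l 3) (c (l 555292276407) (l 568177174151))) (b (c (l 541333635879) (l 536501794375)) (c (l 368998082135) (l 308331643447)))) (c (a (b (l 431275108615) (l 16774736)) (l 16773368)) (c (l 289004281607) (l 301889183159))))))))), by decide +kernel⟩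

def k37_pp_101_s : ∃ t, chk3 f_pp_101_s t 36 61 1 = true :=
  ⟨(b (a (l 3) (b (l 3) (a (a (l 3) (a (l 3) (b (l 3) (c (l 590725770999) (l 601463180151))))) (b (a (l 3) (b (l 3) (c (l 557439773447) (l 569787799351)))) (c (a (b (l 572472146151) (a (l 453823690551) (l 16776248))) (a (a (b (l 503215813847) (l 16775392)) (l 341080793175)) (l 16774984))) (a (b (l 583746450039) (c (l 313700339463) (l 316384693239))) (c (l 291688636279) (l 291151764647)))))))) (a (b (a (l 3) (b (l 3) (a (b (l 3) (c (a (l 572472153783) (b (l 538649292263) (l 16776616))) (c (l 512879486215) (l 517174452295)))) (b (c (a (l 552607931799) (b (l 511805748695) (l 16776408))) (c (l 497847103463) (l 505363295543))) (c (l 16775400) (l 16770264)))))) (a (c (b (c (a (b (l 3) (a (l 629380469831) (l 511805748487))) (a (b (l 594483861335) (b (l 139754208311) (l 16775848))) (b (b (l 567640320551) (l 85530248631)) (l 16775200)))) (a (l 564419096215) (b (l 526301258183) (l 16775808)))) (a (a (a (b (b (l 523080038455) (l 16776360))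 (l 16774712)) (l 299741731319)) (l 16774328)) (l 16772568))) (a (b (a (l 625622380215) (c (l 550997309799) (l 552071058487))) (c (l 327122146887) (l 297057351047))) (b (b (c (l 525764385479) (l 528448738231)) (a (l 289004297319) (l 16775336))) (l 16772832)))) (c (b (a (b (l 323364052711) (l 16773472)) (l 16772224)) (l 16769120)) (b (c (l 308868529367) (l 301352329623)) (l 16769592))))) (c (b (a (b (a (b (l 619716782263) (a (l 533280580967) (a (b (l 289004324631) (l 16776488)) (l 16776416)))) (b (a (l 514490101239) (l 358260665351)) (l 16774976))) (c (l 16776856) (l 16773048))) (c (l 16776296) (l 16770592))) (c (l 16774800) (l 16764688))) (b (a (b (a (b (l 613274322503) (a (l 532206836343) (l 311552870935))) (b (a (l 515563841319) (l 307794780711)) (l 16775112))) (a (l 16774320) (l 16772160))) (c (l 16770800) (l 16770992))) (a (l 16767360) (l 16763232)))))), by decide +kernel⟩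

def k38_pp_101_s : ∃ t, chk3 f_pp_101_s t 37 61 1 = true :=
  ⟨(b (b (a (a (b (l 3) (a (l 3) (b (l 3) (c (a (l 600926305703) (l 504826425111)) (a (l 596631333511) (l 505363294807)))))) (b (a (l 3) (b (l 3) (c (l 499994586871) (a (l 542407378839) (l 313163481335))))) (c (a (b (l 513416358759) (l 331417117015)) (l 302426082535)) (a (b (a (l 577840855287) (l 316921571623)) (l 300278590855)) (l 16768120))))) (c (a (b (a (b (a (l 528448741015) (l 416779595335)) (l 16775304)) (l 16773968)) (l 16770944)) (l 16768200)) (a (b (a (c (l 308868494551) (l 308868494295)) (l 16774144)) (l 16771296)) (l 16768688)))) (c (a (a (b (a (b (l 542407390439) (a (b (l 254644583991) (l 16776424)) (l 16775784))) (b (l 348596986599) (l 16774048))) (l 16772120)) (l 16774752)) (l 16762264)) (a (a (b (b (a (a (l 3) (l 523616902215)) (l 304573552215)) (c (l 301889190007) (l 304573544375))) (l 16767176)) (b (l 16771888) (l 16768056))) (l 16763112)))) (a (a (b (c (l 16766000) (l 16766696)) (l 16758544)) (b (l 16751416)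 (l 16754280))) (c (l 16750352) (l 16752008)))), by decide +kernel⟩

def k39_pp_101_s : ∃ t, chk3 f_pp_101_s t 18 31 1 = true :=
  ⟨(b (a (a (a (b (b (c (l 16767248) (l 16767816)) (l 16758952)) (l 16745224)) (b (c (l 16758496) (l 16759616)) (l 16741392))) (b (c (l 16752104) (l 16753592)) (l 16735648))) (b (a (b (l 16748712) (l 16740768)) (l 16735920)) (a (l 16727888) (l 16719216)))) (b (a (c (a (l 16722416) (l 16715160)) (a (l 16724328) (l 16717056))) (a (l 16740072) (l 16700064))) (a (c (l 16700176) (l 16695768)) (a (l 16685424) (l 16676824))))), by decide +kernel⟩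

def k40_pp_101_s : ∃ t, chk3 f_pp_101_s t 38 7 1 = true :=
  ⟨(b (l 3) (b (b (b (a (l 3) (b (a (l 3) (b (l 3) (a (l 3) (b (l 3) (c (l 515026966535) (l 512879481255)))))) (a (b (a (l 3) (c (l 549923557703) (l 563882196647))) (a (b (c (l 567640305143) (l 569787785127)) (c (a (l 506437036871) (l 16776456)) (l 313700346455))) (c (b (l 314774095351) (l 16774624)) (l 282024966807)))) (b (c (a (b (l 528985606631) (l 271287557079)) (l 278803753287)) (c (l 310479098055) (l 311015967735))) (c (l 16771920) (l 16772176)))))) (a (b (a (b (l 3) (a (b (l 3) (c (l 527374995415) (l 524153767431))) (c (b (l 513953225927) (l 279877497671)) (b (l 511805740503) (l 287930560503))))) (b (a (b (l 3) (c (l 501068327399) (l 499994584503))) (c (b (l 415168974391) (l 16775296)) (c (l 276119375959) (l 310479113415)))) (c (l 285783078887) (l 295446755783)))) (a (c (b (c (a (l 279340619287) (l 16772688)) (l 16763496)) (l 16769704)) (c (l 293299256471) (l 293836127351))) (c (l 16766888) (l 16767424)))) (b (c (a (c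 (l 16770400) (l 16770560)) (l 16765424)) (c (l 16768296) (l 16768536))) (c (l 16759320) (l 16760208))))) (b (a (b (c (l 16760800) (l 16761664)) (l 16732032)) (b (l 16730336) (l 16742984))) (a (l 16720328) (l 16731088)))) (b (b (l 16689808) (c (l 16702816) (l 16706272))) (b (l 16732032) (l 16662504))))), by decide +kernel⟩

def k41_pp_101_s : ∃ t, chk3 f_pp_101_s t 39 7 1 = true :=
  ⟨(b (b (l 3) (b (l 3) (b (l 3) (a (b (l 3) (a (l 3) (b (l 3) (c (a (l 564419069863) (b (l 534891183927) (l 363092487559))) (c (l 506437021847) (l 508047633271)))))) (b (a (l 3) (c (b (l 563345315655) (a (l 512342617463) (c (l 265918838631) (l 16755168)))) (b (l 566029664711) (a (l 510195121335) (l 275582513543))))) (a (b (c (a (l 531133081111) (b (l 507510775031) (l 16775944))) (c (l 494088999415) (l 495699611415))) (c (a (l 275045654663) (l 16772672)) (l 286856812599))) (c (b (l 16767896) (l 16768712)) (b (l 16768072) (l 16769080))))))))) (b (b (b (a (b (a (b (a (l 3) (b (l 3) (c (l 443623142535) (l 316384698583))))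 (c (a (b (l 501605197383) (l 16775696)) (l 16774248)) (c (l 277729984919) (l 276656241895)))) (c (a (b (b (l 316921576359) (l 16774968)) (l 16771680)) (l 16771288)) (c (l 285246185415) (l 285246185159)))) (c (a (l 16768992) (l 16763816)) (a (l 16769376) (l 16764432)))) (c (b (l 16769968) (l 16755880)) (c (l 16760856) (l 16761248)))) (a (c (l 16753304) (l 16754440)) (a (l 16746048) (l 16719744)))) (b (a (l 16715832) (l 16726096)) (l 16715032))) (b (b (l 16699328) (c (l 16681528) (l 16683768))) (c (l 16657416) (l 16645816))))), by decide +kernel⟩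

def k42_pp_101_s : ∃ t, chk3 f_pp_101_s t 5 6 1 = true :=
  ⟨(a (l 3) (b (l 3) (b (l 3) (b (a (l 3) (a (l 3) (a (b (l 3) (b (l 3) (c (l 497310217463) (l 491404636055)))) (b (c (l 511268818135) (l 505363233831)) (c (l 275582473207) (l 281488052471)))))) (a (a (l 3) (b (l 3) (a (l 3) (b (l 3) (a (l 3) (c (l 423758892439) (l 294372969255))))))) (a (b (a (l 3) (b (c (l 510195102759) (l 503215778471)) (c (l 305647258855) (l 300278548887)))) (a (c (b (a (l 510731985815) (l 281488086903)) (l 165523969911)) (a (l 287393624583) (l 283098692279))) (c (l 16760376) (l 16760616)))) (b (a (c (l 256255135159) (l 279340584839)) (c (l 16731712) (l 16732024))) (c (l 16707656) (l 16718640))))))))), by decide +kernel⟩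

def k43_pp_101_s : ∃ t, chk3 f_pp_101_s t 10 28 1 = true :=
  ⟨(a (l 3) (b (l 3) (a (b (l 3) (a (l 3) (b (l 3) (a (b (l 3) (c (l 498383957511) (l 519858792215))) (c (b (l 485499063975) (l 279340620535)) (c (l 300815418055) (l 299204804391))))))) (b (a (a (l 3) (b (l 3) (c (l 524690612967) (l 528985577127)))) (b (a (l 3) (c (b (l 3) (l 475835390999)) (l 478519729927))) (c (a (b (l 488183413655) (l 279340615447)) (l 265381973271)) (c (l 294909831863) (l 292225476743))))) (a (b (a (b (l 3) (c (a (l 494088996951) (l 276119394103)) (l 300278559703))) (c (b (l 304573538471) (l 16771888)) (l 292762374311))) (c (a (l 16770768) (l 16743648)) (a (l 16770928) (l 16743952)))) (c (b (l 16764952) (l 16734192)) (a (l 16763544) (l 16736352)))))))), by decide +kernel⟩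

def k44_pp_101_s : ∃ t, chk3 f_pp_101_s t 20 29 1 = true :=
  ⟨(b (a (l 3) (b (a (l 3) (b (l 3) (a (l 3) (b (l 3) (c (a (l 536501789319) (l 400136577655)) (l 487109674759)))))) (a (b (a (l 3) (b (l 3) (c (l 533280557815) (l 538112393079)))) (a (c (b (l 548849805799) (a (l 502142061143) (l 270750681927))) (c (l 491404634647) (l 492478375415))) (c (b (a (l 471540427239) (l 16764632)) (l 16771992)) (c (l 282024949271) (l 282561819655))))) (b (a (b (c (a (l 3) (l 494625871031)) (l 524153758599)) (c (c (l 269676932791) (l 16754384)) (l 300815444551))) (c (b (l 276656264503) (l 16748816)) (l 291151775335))) (c (l 16773576) (l 16774600)))))) (a (b (a (b (l 3) (a (b (l 3) (a (l 3) (c (l 528448726343) (l 545628592727)))) (a (b (l 3) (c (a (l 491941521911) (l 267529457863)) (l 312089726295))) (b (c (l 509121381527) (l 506973896119)) (c (l 16774504) (l 16774616)))))) (b (a (b (l 3) (a (l 3) (c (l 490330907591) (l 314237202727)))) (c (b (a (l 521469405831) (c (l 320679664007) (l 312089731735)))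 (l 276656267127)) (c (l 307794729975) (l 293836095527)))) (c (a (a (b (l 268603194759) (l 16771808)) (l 16771328)) (l 16767192)) (c (l 286319925191) (l 287393666647))))) (c (a (b (a (b (a (b (l 534354312151) (l 314237227351)) (l 272898170839)) (l 16772288)) (l 16769136)) (l 16762888)) (l 16766864)) (a (b (a (c (l 277193100759) (l 276656229991)) (l 16769456)) (l 16763472)) (l 16767672)))) (c (b (a (b (a (l 158007805175) (l 16744120)) (l 16737792)) (l 16730808)) (l 16760152)) (b (a (b (a (l 203641829223) (l 16765520)) (l 16759432)) (l 16752624)) (l 16740544))))), by decide +kernel⟩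

def k45_pp_101_s : ∃ t, chk3 f_pp_101_s t 21 29 1 = true :=
  ⟨(b (a (b (a (b (a (l 3) (b (c (l 528985591079) (l 533280555831)) (c (a (l 484425327335) (l 16764824)) (l 301352306503)))) (c (a (b (a (l 502142059223) (l 272361294615)) (l 16773296)) (l 16769784)) (c (l 285246162695) (l 297057322263)))) (b (c (a (b (l 275582514055) (l 16770936)) (l 16746312)) (c (l 16749360) (l 291688634327))) (c (l 16739776) (l 16740224)))) (c (a (b (l 16763304) (l 16732880)) (l 16725392)) (a (a (l 16762032) (l 16735216)) (l 16726224)))) (c (b (a (l 16732216) (l 16719448)) (l 16706264)) (b (b (l 16773312) (l 16721824)) (l 16707456)))) (a (c (b (l 16712568) (l 16693592)) (b (l 16713848) (l 16695504))) (b (l 16676976) (l 16668144)))), by decide +kernel⟩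

def k46_pp_101_s : ∃ t, chk3 f_pp_101_s t 11 14 1 = true :=
  ⟨(b (a (b (a (b (l 3) (a (b (l 3) (a (c (l 523079998551) (l 527374962759)) (c (b (l 506973892871) (l 280951225239)) (l 294372963511)))) (b (c (c (a (l 482814697671) (l 278803729079)) (l 372756136055)) (a (l 509121370119) (l 288467404167))) (c (a (l 265381973799) (l 16744656)) (l 282024957607))))) (b (a (b (a (l 3) (c (l 503752662695) (l 506973886423))) (c (a (b (l 504826408327) (l 297057352151)) (l 265918845079)) (l 295446702391))) (c (b (a (l 287393664407) (l 16769128)) (l 16741432)) (b (l 284709305143) (l 16741672)))) (a (c (b (l 16765728) (l 16734712)) (l 16761000)) (c (l 16726216) (l 16726712))))) (a (b (c (a (b (a (c (l 276656245751) (l 283635567335)) (l 16768688)) (l 16741056)) (c (l 16732864) (l 16733072))) (a (c (l 266455687207) (l 284709298455)) (l 16733416))) (a (c (l 16726200) (l 16726824)) (c (l 16733888) (l 16734720)))) (c (b (a (l 16719568) (l 16726768)) (l 16692272)) (b (l 16713472) (l 16714344))))) (b (a (c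 (b (a (l 16732840) (l 16739824)) (l 16705264)) (b (c (l 16726216) (l 16726456)) (l 16706024))) (c (l 16665712) (l 16666640))) (c (a (l 16652992) (l 16665048)) (a (l 16675216) (l 16666600))))) (a (a (c (b (b (l 16699544) (l 16700312)) (l 16669920)) (b (l 16669800) (l 16672216))) (b (c (l 16661248) (l 16662912)) (l 16620776))) (b (a (l 16611584) (l 16601720)) (a (l 16611024) (l 16578992))))), by decide +kernel⟩

def k47_pp_101_s : ∃ t, chk3 f_pp_101_s t 5 15 1 = true :=
  ⟨(a (b (b (a (a (a (b (c (l 16749472) (l 16750640)) (l 16711568)) (b (l 16718064) (l 16700304))) (a (c (l 16696528) (l 16698824)) (l 16664664))) (a (c (l 16665040) (l 16667976)) (l 16618232))) (b (a (a (l 16709256) (l 16664296)) (a (l 16659232) (l 16609728))) (a (a (l 16692192) (l 16667512)) (c (l 16625152) (l 16690136))))) (c (a (b (a (l 16687520) (l 16642576)) (l 16622512)) (b (l 16666672) (l 16572136))) (a (a (b (b (l 16677216) (l 16656912)) (l 16617760)) (b (l 16640792) (l 16588104))) (b (a (l 16609888) (l 16577448))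 (l 16540624))))) (b (a (b (a (l 16630992) (c (l 16598000) (l 16601192))) (c (a (l 16571048) (l 16563112)) (b (l 16523040) (l 16541456)))) (b (c (a (l 16566352) (l 16535656)) (a (l 16568496) (l 16536024))) (c (l 16497312) (l 16483328)))) (c (a (b (l 16548440) (l 16517144)) (b (l 16489792) (l 16458528))) (a (b (l 16463288) (l 16451320)) (b (l 16454064) (l 16399432)))))), by decide +kernel⟩

def k48_pp_101_s : ∃ t, chk3 f_pp_101_s t 3 2 1 = true :=
  ⟨(a (l 3) (l 1)), by decide +kernel⟩

def k49_pp_101_s : ∃ t, chk3 f_pp_101_s t 3 6 1 = true :=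
  ⟨(b (a (a (b (l 3) (a (l 3) (b (l 3) (a (l 3) (b (l 3) (a (l 499457670647) (c (l 275582472759) (l 16733768)))))))) (a (b (l 1) (a (b (l 1) (c (l 322155982759) (l 329135305239))) (l 1))) (l 1))) (l 1)) (b (a (b (a (a (l 3) (c (a (b (l 493552084071) (a (l 316921514775) (l 16767624))) (b (l 262160688839) (l 16745080))) (a (b (l 491941467479) (l 306720951703)) (b (l 269676882375) (l 16745544))))) (a (a (c (l 16682256) (l 16704024)) (l 352220597351)) (l 1))) (a (a (a (a (l 3) (b (l 3) (c (l 483888434855) (l 487646529175)))) (c (b (a (l 497310188183) (l 271287501639)) (a (l 264308196903) (l 16735496))) (b (a (l 492478346679) (l 277729950871)) (a (l 278803711127) (l 16735776))))) (a (c (b (l 16754736) (l 16712728)) (b (l 16755048) (l 16713336))) (c (l 16671208) (l 16693128)))) (a (a (l 16639896) (l 16628336)) (l 375305787847)))) (l 1)) (a (a (a (c (b (a (b (a (l 320142745383) (l 16765000)) (l 16767440)) (a (l 16718976) (l 16703848))) (a (b (l 16709800) (l 16709632)) (l 16668720))) (b (a (b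 (a (l 281488029239) (l 16765168)) (a (l 16759216) (l 16744776))) (c (l 16690912) (l 16691248))) (a (l 16673736) (l 16669888)))) (b (a (c (l 16680632) (l 16681728)) (l 16628624)) (a (l 16616944) (l 16626584)))) (a (b (a (l 16638152) (l 16605008)) (l 16492728)) (a (l 16485376) (l 16492888)))) (a (a (l 412349513863) (l 1)) (l 1))))), by decide +kernel⟩

def k50_pp_101_s : ∃ t, chk3 f_pp_101_s t 3 7 1 = true :=
  ⟨(a (b (a (b (a (a (b (b (l 16667832) (l 16667368)) (l 16613824)) (b (l 16625944) (l 16602680))) (b (a (l 16614712) (l 16581624)) (l 16489744))) (a (a (b (l 16590648) (l 16545800)) (b (l 16557520) (l 16447664))) (b (l 16485120) (c (l 16461840) (l 16440048))))) (b (a (b (l 16509592) (l 16483432)) (b (l 16460752) (c (l 16408360) (l 16414216)))) (a (c (b (l 16434160) (l 16398552)) (b (l 16437136) (l 16388208))) (c (l 16314064) (b (l 16368424) (l 16314672)))))) (a (b (a (b (c (l 16469416) (l 16421536)) (c (l 16458480) (l 16431200))) (c (b (l 16428064) (l 16397512)) (b (l 16409200) (l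 16356648)))) (c (a (l 16308640) (l 16288536)) (a (b (l 16379448) (l 16323504)) (l 16191312)))) (b (c (a (l 16330448) (l 16290624)) (a (l 16245272) (l 16234288))) (c (a (l 16288984) (l 16226776)) (a (l 16198624) (l 16122960)))))) (b (a (b (a (c (l 16260432) (b (l 16392800) (l 16347176))) (b (l 1) (l 16280632))) (a (c (l 16294760) (l 16268768)) (c (l 16237728) (l 16198904)))) (b (l 1) (a (l 16052864) (l 1)))) (a (b (c (a (l 16230824) (l 16172760)) (a (l 16161784) (l 16091384))) (c (l 15988496) (a (l 16049008) (l 6)))) (b (c (l 16089992) (l 15865448)) (l 6))))), by decide +kernel⟩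

theorem s51_pp_101_s : ∃ t, chk3 f_pp_101_s t 3 3 1 = true := ex3_b k49_pp_101_s k50_pp_101_s

theorem s52_pp_101_s : ∃ t, chk3 f_pp_101_s t 3 1 1 = true := ex3_b k48_pp_101_s s51_pp_101_s

theorem s53_pp_101_s : ∃ t, chk3 f_pp_101_s t 10 29 1 = true := ex3_a k44_pp_101_s k45_pp_101_s

theorem s54_pp_101_s : ∃ t, chk3 f_pp_101_s t 10 14 1 = true := ex3_b k43_pp_101_s s53_pp_101_s

theorem s55_pp_101_s : ∃ t, chk3 f_pp_101_s t 5 14 1 = true := ex3_a s54_pp_101_s k46_pp_101_s

theorem s56_pp_101_s : ∃ t, chk3 f_pp_101_s t 5 7 1 = true := ex3_b s55_pp_101_s k47_pp_101_s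

theorem s57_pp_101_s : ∃ t, chk3 f_pp_101_s t 5 3 1 = true := ex3_b k42_pp_101_s s56_pp_101_s

theorem s58_pp_101_s : ∃ t, chk3 f_pp_101_s t 19 7 1 = true := ex3_a k40_pp_101_s k41_pp_101_s

theorem s59_pp_101_s : ∃ t, chk3 f_pp_101_s t 18 61 1 = true := ex3_a k37_pp_101_s k38_pp_101_s

theorem s60_pp_101_s : ∃ t, chk3 f_pp_101_s t 18 30 1 = true := ex3_b k36_pp_101_s s59_pp_101_s

theorem s61_pp_101_s : ∃ t, chk3 f_pp_101_s t 18 15 1 = true := ex3_b s60_pp_101_s k39_pp_101_s

theorem s62_pp_101_s : ∃ t, chk3 f_pp_101_s t 18 7 1 = true := ex3_b k35_pp_101_s s61_pp_101_s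

theorem s63_pp_101_s : ∃ t, chk3 f_pp_101_s t 9 7 1 = true := ex3_a s62_pp_101_s s58_pp_101_s

theorem s64_pp_101_s : ∃ t, chk3 f_pp_101_s t 35 124 1 = true := ex3_a k31_pp_101_s k32_pp_101_s

theorem s65_pp_101_s : ∃ t, chk3 f_pp_101_s t 35 62 1 = true := ex3_b s64_pp_101_s k33_pp_101_s

theorem s66_pp_101_s : ∃ t, chk3 f_pp_101_s t 69 250 1 = true := ex3_a k28_pp_101_s k29_pp_101_s

theorem s67_pp_101_s : ∃ t, chk3 f_pp_101_s t 69 125 1 = true := ex3_b s66_pp_101_s k30_pp_101_s

theorem s68_pp_101_s : ∃ t, chk3 f_pp_101_s t 68 251 1 = true := ex3_b k26_pp_101_s k27_pp_101_s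

theorem s69_pp_101_s : ∃ t, chk3 f_pp_101_s t 68 125 1 = true := ex3_b k25_pp_101_s s68_pp_101_s

theorem s70_pp_101_s : ∃ t, chk3 f_pp_101_s t 34 125 1 = true := ex3_a s69_pp_101_s s67_pp_101_s

theorem s71_pp_101_s : ∃ t, chk3 f_pp_101_s t 34 62 1 = true := ex3_b k24_pp_101_s s70_pp_101_s

theorem s72_pp_101_s : ∃ t, chk3 f_pp_101_s t 17 62 1 = true := ex3_a s71_pp_101_s s65_pp_101_s

theorem s73_pp_101_s : ∃ t, chk3 f_pp_101_s t 17 31 1 = true := ex3_b s72_pp_101_s k34_pp_101_s

theorem s74_pp_101_s : ∃ t, chk3 f_pp_101_s t 17 15 1 = true := ex3_b k23_pp_101_s s73_pp_101_s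

theorem s75_pp_101_s : ∃ t, chk3 f_pp_101_s t 135 252 1 = true := ex3_a k19_pp_101_s k20_pp_101_s

theorem s76_pp_101_s : ∃ t, chk3 f_pp_101_s t 134 505 1 = true := ex3_a k17_pp_101_s k18_pp_101_s

theorem s77_pp_101_s : ∃ t, chk3 f_pp_101_s t 134 252 1 = true := ex3_b k16_pp_101_s s76_pp_101_s

theorem s78_pp_101_s : ∃ t, chk3 f_pp_101_s t 67 252 1 = true := ex3_a s77_pp_101_s s75_pp_101_s

theorem s79_pp_101_s : ∃ t, chk3 f_pp_101_s t 67 126 1 = true := ex3_b s78_pp_101_s k21_pp_101_s

theorem s80_pp_101_s : ∃ t, chk3 f_pp_101_s t 266 506 1 = true := ex3_a k12_pp_101_s k13_pp_101_s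

theorem s81_pp_101_s : ∃ t, chk3 f_pp_101_s t 133 506 1 = true := ex3_a s80_pp_101_s k14_pp_101_s

theorem s82_pp_101_s : ∃ t, chk3 f_pp_101_s t 133 253 1 = true := ex3_b s81_pp_101_s k15_pp_101_s

theorem s83_pp_101_s : ∃ t, chk3 f_pp_101_s t 265 1014 1 = true := ex3_a k9_pp_101_s k10_pp_101_s

theorem s84_pp_101_s : ∃ t, chk3 f_pp_101_s t 132 1014 1 = true := ex3_a k8_pp_101_s s83_pp_101_s

theorem s85_pp_101_s : ∃ t, chk3 f_pp_101_s t 132 507 1 = true := ex3_b s84_pp_101_s k11_pp_101_s

theorem s86_pp_101_s : ∃ t, chk3 f_pp_101_s t 132 253 1 = true := ex3_b k7_pp_101_s s85_pp_101_s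

theorem s87_pp_101_s : ∃ t, chk3 f_pp_101_s t 66 253 1 = true := ex3_a s86_pp_101_s s82_pp_101_s

theorem s88_pp_101_s : ∃ t, chk3 f_pp_101_s t 66 126 1 = true := ex3_b k6_pp_101_s s87_pp_101_s

theorem s89_pp_101_s : ∃ t, chk3 f_pp_101_s t 33 126 1 = true := ex3_a s88_pp_101_s s79_pp_101_s

theorem s90_pp_101_s : ∃ t, chk3 f_pp_101_s t 33 63 1 = true := ex3_b s89_pp_101_s k22_pp_101_s

theorem s91_pp_101_s : ∃ t, chk3 f_pp_101_s t 16 63 1 = true := ex3_a k5_pp_101_s s90_pp_101_s

theorem s92_pp_101_s : ∃ t, chk3 f_pp_101_s t 16 31 1 = true := ex3_b k4_pp_101_s s91_pp_101_s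

theorem s93_pp_101_s : ∃ t, chk3 f_pp_101_s t 16 15 1 = true := ex3_b k3_pp_101_s s92_pp_101_s

theorem s94_pp_101_s : ∃ t, chk3 f_pp_101_s t 8 15 1 = true := ex3_a s93_pp_101_s s74_pp_101_s

theorem s95_pp_101_s : ∃ t, chk3 f_pp_101_s t 8 7 1 = true := ex3_b k2_pp_101_s s94_pp_101_s

theorem s96_pp_101_s : ∃ t, chk3 f_pp_101_s t 4 7 1 = true := ex3_a s95_pp_101_s s63_pp_101_s

theorem s97_pp_101_s : ∃ t, chk3 f_pp_101_s t 4 3 1 = true := ex3_b k1_pp_101_s s96_pp_101_s

theorem s98_pp_101_s : ∃ t, chk3 f_pp_101_s t 2 3 1 = true := ex3_a s97_pp_101_s s57_pp_101_s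

theorem s99_pp_101_s : ∃ t, chk3 f_pp_101_s t 2 1 1 = true := ex3_b k0_pp_101_s s98_pp_101_s

theorem s100_pp_101_s : ∃ t, chk3 f_pp_101_s t 1 1 1 = true := ex3_a s99_pp_101_s s52_pp_101_s

theorem c_pp_101_s : CertNE 536870912 536870912 536870912 536870912 991146299 28908434 3 eng mog cd5q1 cd0q1 pd0 false true true .npn 1 0 1
    ndB5q1 ndB0q1 pcB0 cut_pp_101_s Ext.none :=
  certNE2 (fam := false) (s1 := true) (s2 := true) (a := 1) (b := 0) (c := 1) (cn := .npn) (n1 := ndB5q1) (n2 := ndB0q1) (pc := pcB0) (cut := cut_pp_101_s) (xt := Ext.none) (P1 := 536870912) (W1 := 536870912) (P2 := 536870912) (W2 := 536870912) (P3 := 991146299) (W3 := 28908434) (N0 := 3) (En := eng) (mo := mog) (C1 := cd5q1) (C2 := cd0q1) (C3 := pd0)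
    rfl (fun _ => rfl) s100_pp_101_s

noncomputable def cut_pp_102_s : Cut := Cut.of [[⟨4, 0, 0, 1449551462⟩], [⟨0, 1, 0, 53687091⟩, ⟨1, 0, 0, 53687091⟩, ⟨2, 1, 0, 53687091⟩]]

noncomputable def f_pp_102_s : ℕ → ℕ → ℕ → ℕ → Bool := onCell 0 536870912 0 536870912 991146299 28908434
    (rowNE 3 eng mog cd5q1 cd0q2 pd0 2 false true true .npp 1 0 2 (qsf 536870912 536870912 0 536870912 0) ndB5q1 ndB0q2 pcB0 cut_pp_102_s Ext.none)

def k0_pp_102_s : ∃ t, chk3 f_pp_102_s t 2 2 1 = true :=
  ⟨(a (l 6) (l 6)), by decide +kernel⟩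

def k1_pp_102_s : ∃ t, chk3 f_pp_102_s t 4 3 1 = true :=
  ⟨(b (a (l 2) (b (l 6) (a (a (b (l 2) (c (l 98882875079) (l 15687736))) (b (b (l 6) (l 15549784)) (a (l 15703344) (l 15705112)))) (b (l 6) (c (l 15706768) (l 15702000)))))) (a (b (a (l 2) (b (a (l 2) (a (l 2) (c (l 15884384) (l 15884888)))) (b (a (l 2) (a (l 16056648) (l 16067936))) (a (l 14) (a (l 16186784) (l 16194856)))))) (a (l 14) (a (l 14) (b (b (a (l 16320784) (l 16325624)) (a (b (l 16424256) (l 16494320)) (b (l 16426640) (l 16493952)))) (b (b (a (l 16534968) (l 16547200)) (l 16533344)) (b (c (l 16646184) (l 16633320)) (c (l 16686992) (l 16679488)))))))) (b (a (a (b (a (b (l 15839792) (l 15956696)) (l 15910360)) (a (b (l 16077184) (l 16201048)) (l 16040496))) (b (c (l 15925944) (l 15914408)) (b (l 16090256) (l 16208224)))) (b (c (l 15932320) (l 15903536)) (a (l 15978752) (l 16059968)))) (b (a (a (b (a (l 16328736) (l 16330464)) (a (l 16353448) (l 16390960))) (b (l 16225072) (b (l 16314704) (l 16468784)))) (b (a (l 16201248)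 (l 16256128)) (a (l 16365664) (l 16413880)))) (a (a (b (c (l 16567888) (l 16540008)) (b (l 16599368) (l 16664408))) (b (l 16452272) (c (l 16634568) (l 16614984)))) (a (b (l 16477264) (l 16586248)) (b (l 16480848) (l 16586520)))))))), by decide +kernel⟩

def k2_pp_102_s : ∃ t, chk3 f_pp_102_s t 5 3 1 = true :=
  ⟨(b (a (b (l 6) (a (b (l 6) (l 15704896)) (l 6))) (l 6)) (b (a (a (b (c (l 15941392) (l 15889776)) (c (l 16175872) (l 16097904))) (b (l 15846192) (b (l 16066632) (l 16007000)))) (b (l 6) (a (b (l 16038912) (l 16097248)) (c (l 16126008) (l 15978800))))) (a (b (a (b (c (l 16341480) (l 16253200)) (l 16260904)) (c (l 16266376) (l 16105928))) (a (c (b (l 16497488) (l 16569936)) (b (l 16441360) (l 16531088))) (b (l 16335744) (l 16453848)))) (b (a (c (l 16311448) (l 16197616)) (l 16057080)) (a (c (l 16438712) (l 16321184)) (c (l 16385128) (l 16294368))))))), by decide +kernel⟩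

def k3_pp_102_s : ∃ t, chk3 f_pp_102_s t 3 1 1 = true :=
  ⟨(b (l 6) (b (l 6) (a (b (l 6) (a (b (c (l 16176144) (l 16021944)) (c (l 16299600) (l 15996848))) (b (l 6) (c (l 16141640) (l 16019344))))) (l 6)))), by decide +kernel⟩

theorem s4_pp_102_s : ∃ t, chk3 f_pp_102_s t 2 3 1 = true := ex3_a k1_pp_102_s k2_pp_102_s

theorem s5_pp_102_s : ∃ t, chk3 f_pp_102_s t 2 1 1 = true := ex3_b k0_pp_102_s s4_pp_102_s

theorem s6_pp_102_s : ∃ t, chk3 f_pp_102_s t 1 1 1 = true := ex3_a s5_pp_102_s k3_pp_102_s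

theorem c_pp_102_s : CertNE 536870912 536870912 0 536870912 991146299 28908434 3 eng mog cd5q1 cd0q2 pd0 false true true .npp 1 0 2
    ndB5q1 ndB0q2 pcB0 cut_pp_102_s Ext.none :=
  certNE2 (fam := false) (s1 := true) (s2 := true) (a := 1) (b := 0) (c := 2) (cn := .npp) (n1 := ndB5q1) (n2 := ndB0q2) (pc := pcB0) (cut := cut_pp_102_s) (xt := Ext.none) (P1 := 536870912) (W1 := 536870912) (P2 := 0) (W2 := 536870912) (P3 := 991146299) (W3 := 28908434) (N0 := 3) (En := eng) (mo := mog) (C1 := cd5q1) (C2 := cd0q2) (C3 := pd0)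
    rfl (fun _ => rfl) s6_pp_102_s

noncomputable def cut_pp_112_s : Cut := Cut.of [[⟨4, 0, 0, 1449551462⟩]]

noncomputable def f_pp_112_s : ℕ → ℕ → ℕ → ℕ → Bool := onCell 536870912 536870912 0 536870912 991146299 28908434
    (rowNE 3 eng mog cd5q1 cd0q2 pd1 2 false true true .dn 1 1 2 (qsf 536870912 536870912 0 536870912 1) ndB5q1 ndB0q2 pcB1 cut_pp_112_s Ext.none)

def k0_pp_112_s : ∃ t, chk3 f_pp_112_s t 1 1 1 = true :=
  ⟨(b (l 6) (l 6)), by decide +kernel⟩

theorem c_pp_112_s : CertNE 536870912 536870912 0 536870912 991146299 28908434 3 eng mog cd5q1 cd0q2 pd1 false true true .dn 1 1 2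
    ndB5q1 ndB0q2 pcB1 cut_pp_112_s Ext.none :=
  certNE2 (fam := false) (s1 := true) (s2 := true) (a := 1) (b := 1) (c := 2) (cn := .dn) (n1 := ndB5q1) (n2 := ndB0q2) (pc := pcB1) (cut := cut_pp_112_s) (xt := Ext.none) (P1 := 536870912) (W1 := 536870912) (P2 := 0) (W2 := 536870912) (P3 := 991146299) (W3 := 28908434) (N0 := 3) (En := eng) (mo := mog) (C1 := cd5q1) (C2 := cd0q2) (C3 := pd1)
    rfl (fun _ => rfl) k0_pp_112_s

noncomputable def cut_pp_202_s : Cut := Cut.of [[⟨4, 0, 0, 1449551462⟩], [⟨0, 1, 0, 53687091⟩, ⟨1, 0, 0, 53687091⟩, ⟨2, 1, 0, 53687091⟩]]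

noncomputable def f_pp_202_s : ℕ → ℕ → ℕ → ℕ → Bool := onCell 0 536870912 0 536870912 991146299 28908434
    (rowNE 3 eng mog cd5q2 cd0q2 pd0 2 false true true .pp 2 0 2 (qsf 1073741824 536870912 0 536870912 0) ndB5q2 ndB0q2 pcB0 cut_pp_202_s Ext.none)

def k0_pp_202_s : ∃ t, chk3 f_pp_202_s t 1 1 1 = true :=
  ⟨(a (b (a (l 6) (l 6)) (a (b (a (b (a (a (l 16112856) (l 15956016)) (b (l 6) (a (a (l 15878344) (l 15779808)) (l 6)))) (a (a (b (l 16277136) (a (l 16397288) (l 16305208))) (b (l 16085768) (b (l 16136512) (a (l 16220040) (l 16117240))))) (a (a (b (l 15930192) (b (l 15976152) (l 16020968))) (b (a (l 15848816) (a (l 15812704) (l 15800752))) (a (l 15917480) (l 15882776)))) (b (a (c (l 15742088) (l 15781272)) (b (l 15707752) (l 15737680))) (a (c (l 15846712) (l 15860728)) (l 15810288)))))) (b (l 6) (a (a (b (a (b (l 15657808) (l 15691440)) (l 15437528)) (c (l 15732840) (l 15748568))) (b (b (l 6) (l 15564056)) (a (l 15664456) (l 1)))) (b (l 6) (l 1))))) (a (b (b (a (a (b (a (l 16454856)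 (l 16355224)) (l 16377296)) (a (l 16281664) (l 16189920))) (a (a (l 16099952) (a (l 16033616) (l 15999144))) (a (c (l 15965016) (l 15967152)) (c (l 15918640) (l 15919712))))) (b (a (a (a (l 16520872) (l 16433872)) (a (l 16350248) (l 16267488))) (a (a (l 16186328) (c (l 16113064) (l 16107768))) (a (l 16058640) (l 16008776)))) (a (l 14) (a (l 14) (a (l 16124864) (l 1)))))) (a (l 14) (a (l 14) (l 1)))) (b (a (a (b (a (l 365104057303) (l 15817688)) (l 1)) (l 1)) (l 1)) (l 1)))) (b (l 1) (l 1)))) (l 1)), by decide +kernel⟩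

theorem c_pp_202_s : CertNE 1073741824 536870912 0 536870912 991146299 28908434 3 eng mog cd5q2 cd0q2 pd0 false true true .pp 2 0 2
    ndB5q2 ndB0q2 pcB0 cut_pp_202_s Ext.none :=
  certNE2 (fam := false) (s1 := true) (s2 := true) (a := 2) (b := 0) (c := 2) (cn := .pp) (n1 := ndB5q2) (n2 := ndB0q2) (pc := pcB0) (cut := cut_pp_202_s) (xt := Ext.none) (P1 := 1073741824) (W1 := 536870912) (P2 := 0) (W2 := 536870912) (P3 := 991146299) (W3 := 28908434) (N0 := 3) (En := eng) (mo := mog) (C1 := cd5q2) (C2 := cd0q2) (C3 := pd0)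
    rfl (fun _ => rfl) k0_pp_202_s

noncomputable def cut_pm_001_s : Cut := Cut.of [[⟨4, 0, 0, 1449551462⟩]]

noncomputable def f_pm_001_s : ℕ → ℕ → ℕ → ℕ → Bool := onCell 0 536870912 536870912 536870912 991146299 28908434
    (rowNE 3 eng mog cd5q0 cd0q1 pd0 0 false true false .up 0 0 1 (qsf 0 536870912 536870912 536870912 0) ndB5q0 ndB0q1 pcB0 cut_pm_001_s Ext.none)

def k0_pm_001_s : ∃ t, chk3 f_pm_001_s t 1 1 1 = true :=
  ⟨(l 4), by decide +kernel⟩

theorem c_pm_001_s : CertNE 0 536870912 536870912 536870912 991146299 28908434 3 eng mog cd5q0 cd0q1 pd0 false true false .up 0 0 1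
    ndB5q0 ndB0q1 pcB0 cut_pm_001_s Ext.none :=
  certNE0 (fam := false) (s1 := true) (s2 := false) (a := 0) (b := 0) (c := 1) (cn := .up) (n1 := ndB5q0) (n2 := ndB0q1) (pc := pcB0) (cut := cut_pm_001_s) (xt := Ext.none) (P1 := 0) (W1 := 536870912) (P2 := 536870912) (W2 := 536870912) (P3 := 991146299) (W3 := 28908434) (N0 := 3) (En := eng) (mo := mog) (C1 := cd5q0) (C2 := cd0q1) (C3 := pd0)
    rfl k0_pm_001_s

noncomputable def cut_pm_011_s : Cut := Cut.of [[⟨4, 0, 0, 1449551462⟩]]

noncomputable def f_pm_011_s : ℕ → ℕ → ℕ → ℕ → Bool := onCell 0 536870912 536870912 536870912 991146299 28908434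
    (rowNE 3 eng mog cd5q0 cd0q1 pd1 0 false true false .pnn 0 1 1 (qsf 0 536870912 536870912 536870912 1) ndB5q0 ndB0q1 pcB1 cut_pm_011_s Ext.none)

def k0_pm_011_s : ∃ t, chk3 f_pm_011_s t 1 1 1 = true :=
  ⟨(l 4), by decide +kernel⟩

theorem c_pm_011_s : CertNE 0 536870912 536870912 536870912 991146299 28908434 3 eng mog cd5q0 cd0q1 pd1 false true false .pnn 0 1 1
    ndB5q0 ndB0q1 pcB1 cut_pm_011_s Ext.none :=
  certNE0 (fam := false) (s1 := true) (s2 := false) (a := 0) (b := 1) (c := 1) (cn := .pnn) (n1 := ndB5q0) (n2 := ndB0q1) (pc := pcB1) (cut := cut_pm_011_s) (xt := Ext.none) (P1 := 0) (W1 := 536870912) (P2 := 536870912) (W2 := 536870912) (P3 := 991146299) (W3 := 28908434) (N0 := 3) (En := eng) (mo := mog) (C1 := cd5q0) (C2 := cd0q1) (C3 := pd1)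
    rfl k0_pm_011_s

noncomputable def cut_pm_012_s : Cut := Cut.of [[⟨4, 0, 0, 1449551462⟩]]

noncomputable def f_pm_012_s : ℕ → ℕ → ℕ → ℕ → Bool := onCell 0 536870912 0 536870912 991146299 28908434
    (rowNE 3 eng mog cd5q0 cd0q2 pd1 0 false true false .pnp 0 1 2 (qsf 0 536870912 0 536870912 1) ndB5q0 ndB0q2 pcB1 cut_pm_012_s Ext.none)

def k0_pm_012_s : ∃ t, chk3 f_pm_012_s t 1 1 1 = true :=
  ⟨(l 6), by decide +kernel⟩

theorem c_pm_012_s : CertNE 0 536870912 0 536870912 991146299 28908434 3 eng mog cd5q0 cd0q2 pd1 false true false .pnp 0 1 2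
    ndB5q0 ndB0q2 pcB1 cut_pm_012_s Ext.none :=
  certNE0 (fam := false) (s1 := true) (s2 := false) (a := 0) (b := 1) (c := 2) (cn := .pnp) (n1 := ndB5q0) (n2 := ndB0q2) (pc := pcB1) (cut := cut_pm_012_s) (xt := Ext.none) (P1 := 0) (W1 := 536870912) (P2 := 0) (W2 := 536870912) (P3 := 991146299) (W3 := 28908434) (N0 := 3) (En := eng) (mo := mog) (C1 := cd5q0) (C2 := cd0q2) (C3 := pd1)
    rfl k0_pm_012_s

noncomputable def cut_pm_022_s : Cut := Cut.of [[⟨4, 0, 0, 1449551462⟩]]

noncomputable def f_pm_022_s : ℕ → ℕ → ℕ → ℕ → Bool := onCell 0 536870912 0 536870912 991146299 28908434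
    (rowNE 3 eng mog cd5q0 cd0q2 pd2 0 false true false .pp 0 2 2 (qsf 0 536870912 0 536870912 2) ndB5q0 ndB0q2 pcB2 cut_pm_022_s Ext.none)

def k0_pm_022_s : ∃ t, chk3 f_pm_022_s t 1 1 1 = true :=
  ⟨(l 6), by decide +kernel⟩

theorem c_pm_022_s : CertNE 0 536870912 0 536870912 991146299 28908434 3 eng mog cd5q0 cd0q2 pd2 false true false .pp 0 2 2
    ndB5q0 ndB0q2 pcB2 cut_pm_022_s Ext.none :=
  certNE0 (fam := false) (s1 := true) (s2 := false) (a := 0) (b := 2) (c := 2) (cn := .pp) (n1 := ndB5q0) (n2 := ndB0q2) (pc := pcB2) (cut := cut_pm_022_s) (xt := Ext.none) (P1 := 0) (W1 := 536870912) (P2 := 0) (W2 := 536870912) (P3 := 991146299) (W3 := 28908434) (N0 := 3) (En := eng) (mo := mog) (C1 := cd5q0) (C2 := cd0q2) (C3 := pd2)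
    rfl k0_pm_022_s

noncomputable def cut_pm_101_s : Cut := Cut.of [[⟨4, 0, 0, 1449551462⟩]]

noncomputable def f_pm_101_s : ℕ → ℕ → ℕ → ℕ → Bool := onCell 536870912 536870912 536870912 536870912 991146299 28908434
    (rowNE 3 eng mog cd5q1 cd0q1 pd0 0 false true false .npn 1 0 1 (qsf 536870912 536870912 536870912 536870912 0) ndB5q1 ndB0q1 pcB0 cut_pm_101_s Ext.none)

def k0_pm_101_s : ∃ t, chk3 f_pm_101_s t 1 1 1 = true :=
  ⟨(l 4), by decide +kernel⟩

theorem c_pm_101_s : CertNE 536870912 536870912 536870912 536870912 991146299 28908434 3 eng mog cd5q1 cd0q1 pd0 false true false .npn 1 0 1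
    ndB5q1 ndB0q1 pcB0 cut_pm_101_s Ext.none :=
  certNE0 (fam := false) (s1 := true) (s2 := false) (a := 1) (b := 0) (c := 1) (cn := .npn) (n1 := ndB5q1) (n2 := ndB0q1) (pc := pcB0) (cut := cut_pm_101_s) (xt := Ext.none) (P1 := 536870912) (W1 := 536870912) (P2 := 536870912) (W2 := 536870912) (P3 := 991146299) (W3 := 28908434) (N0 := 3) (En := eng) (mo := mog) (C1 := cd5q1) (C2 := cd0q1) (C3 := pd0)
    rfl k0_pm_101_s

noncomputable def cut_pm_102_s : Cut := Cut.of [[⟨4, 0, 0, 1449551462⟩]]

noncomputable def f_pm_102_s : ℕ → ℕ → ℕ → ℕ → Bool := onCell 536870912 536870912 0 536870912 991146299 28908434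
    (rowNE 3 eng mog cd5q1 cd0q2 pd0 0 false true false .npp 1 0 2 (qsf 536870912 536870912 0 536870912 0) ndB5q1 ndB0q2 pcB0 cut_pm_102_s Ext.none)

def k0_pm_102_s : ∃ t, chk3 f_pm_102_s t 1 1 1 = true :=
  ⟨(l 6), by decide +kernel⟩

theorem c_pm_102_s : CertNE 536870912 536870912 0 536870912 991146299 28908434 3 eng mog cd5q1 cd0q2 pd0 false true false .npp 1 0 2
    ndB5q1 ndB0q2 pcB0 cut_pm_102_s Ext.none :=
  certNE0 (fam := false) (s1 := true) (s2 := false) (a := 1) (b := 0) (c := 2) (cn := .npp) (n1 := ndB5q1) (n2 := ndB0q2) (pc := pcB0) (cut := cut_pm_102_s) (xt := Ext.none) (P1 := 536870912) (W1 := 536870912) (P2 := 0) (W2 := 536870912) (P3 := 991146299) (W3 := 28908434) (N0 := 3) (En := eng) (mo := mog) (C1 := cd5q1) (C2 := cd0q2) (C3 := pd0)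
    rfl k0_pm_102_s

noncomputable def cut_pm_112_s : Cut := Cut.of [[⟨4, 0, 0, 1449551462⟩]]

noncomputable def f_pm_112_s : ℕ → ℕ → ℕ → ℕ → Bool := onCell 536870912 536870912 0 536870912 991146299 28908434
    (rowNE 3 eng mog cd5q1 cd0q2 pd1 0 false true false .dn 1 1 2 (qsf 536870912 536870912 0 536870912 1) ndB5q1 ndB0q2 pcB1 cut_pm_112_s Ext.none)

def k0_pm_112_s : ∃ t, chk3 f_pm_112_s t 1 1 1 = true :=
  ⟨(l 6), by decide +kernel⟩

theorem c_pm_112_s : CertNE 536870912 536870912 0 536870912 991146299 28908434 3 eng mog cd5q1 cd0q2 pd1 false true false .dn 1 1 2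
    ndB5q1 ndB0q2 pcB1 cut_pm_112_s Ext.none :=
  certNE0 (fam := false) (s1 := true) (s2 := false) (a := 1) (b := 1) (c := 2) (cn := .dn) (n1 := ndB5q1) (n2 := ndB0q2) (pc := pcB1) (cut := cut_pm_112_s) (xt := Ext.none) (P1 := 536870912) (W1 := 536870912) (P2 := 0) (W2 := 536870912) (P3 := 991146299) (W3 := 28908434) (N0 := 3) (En := eng) (mo := mog) (C1 := cd5q1) (C2 := cd0q2) (C3 := pd1)
    rfl k0_pm_112_s

noncomputable def cut_pm_202_s : Cut := Cut.of [[⟨4, 0, 0, 1449551462⟩]]

noncomputable def f_pm_202_s : ℕ → ℕ → ℕ → ℕ → Bool := onCell 0 536870912 0 536870912 991146299 28908434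
    (rowNE 3 eng mog cd5q2 cd0q2 pd0 2 false true false .pp 2 0 2 (qsf 1073741824 536870912 0 536870912 0) ndB5q2 ndB0q2 pcB0 cut_pm_202_s Ext.none)

def k0_pm_202_s : ∃ t, chk3 f_pm_202_s t 1 1 1 = true :=
  ⟨(l 6), by decide +kernel⟩

theorem c_pm_202_s : CertNE 1073741824 536870912 0 536870912 991146299 28908434 3 eng mog cd5q2 cd0q2 pd0 false true false .pp 2 0 2
    ndB5q2 ndB0q2 pcB0 cut_pm_202_s Ext.none :=
  certNE2 (fam := false) (s1 := true) (s2 := false) (a := 2) (b := 0) (c := 2) (cn := .pp) (n1 := ndB5q2) (n2 := ndB0q2) (pc := pcB0) (cut := cut_pm_202_s) (xt := Ext.none) (P1 := 1073741824) (W1 := 536870912) (P2 := 0) (W2 := 536870912) (P3 := 991146299) (W3 := 28908434) (N0 := 3) (En := eng) (mo := mog) (C1 := cd5q2) (C2 := cd0q2) (C3 := pd0)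
    rfl (fun _ => rfl) k0_pm_202_s

noncomputable def cut_mm_001_s : Cut := Cut.of [[⟨4, 0, 0, 1449551462⟩]]

noncomputable def f_mm_001_s : ℕ → ℕ → ℕ → ℕ → Bool := onCell 0 536870912 536870912 536870912 991146299 28908434
    (rowNE 3 eng mog cd5q0 cd0q1 pd0 0 false false false .up 0 0 1 (qsf 0 536870912 536870912 536870912 0) ndB5q0 ndB0q1 pcB0 cut_mm_001_s Ext.none)

def k0_mm_001_s : ∃ t, chk3 f_mm_001_s t 1 1 1 = true :=
  ⟨(l 5), by decide +kernel⟩

theorem c_mm_001_s : CertNE 0 536870912 536870912 536870912 991146299 28908434 3 eng mog cd5q0 cd0q1 pd0 false false false .up 0 0 1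
    ndB5q0 ndB0q1 pcB0 cut_mm_001_s Ext.none :=
  certNE0 (fam := false) (s1 := false) (s2 := false) (a := 0) (b := 0) (c := 1) (cn := .up) (n1 := ndB5q0) (n2 := ndB0q1) (pc := pcB0) (cut := cut_mm_001_s) (xt := Ext.none) (P1 := 0) (W1 := 536870912) (P2 := 536870912) (W2 := 536870912) (P3 := 991146299) (W3 := 28908434) (N0 := 3) (En := eng) (mo := mog) (C1 := cd5q0) (C2 := cd0q1) (C3 := pd0)
    rfl k0_mm_001_s

noncomputable def cut_mm_011_s : Cut := Cut.of [[⟨4, 0, 0, 1449551462⟩]]

noncomputable def f_mm_011_s : ℕ → ℕ → ℕ → ℕ → Bool := onCell 0 536870912 536870912 536870912 991146299 28908434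
    (rowNE 3 eng mog cd5q0 cd0q1 pd1 0 false false false .pnn 0 1 1 (qsf 0 536870912 536870912 536870912 1) ndB5q0 ndB0q1 pcB1 cut_mm_011_s Ext.none)

def k0_mm_011_s : ∃ t, chk3 f_mm_011_s t 1 1 1 = true :=
  ⟨(l 5), by decide +kernel⟩

theorem c_mm_011_s : CertNE 0 536870912 536870912 536870912 991146299 28908434 3 eng mog cd5q0 cd0q1 pd1 false false false .pnn 0 1 1
    ndB5q0 ndB0q1 pcB1 cut_mm_011_s Ext.none :=
  certNE0 (fam := false) (s1 := false) (s2 := false) (a := 0) (b := 1) (c := 1) (cn := .pnn) (n1 := ndB5q0) (n2 := ndB0q1) (pc := pcB1) (cut := cut_mm_011_s) (xt := Ext.none) (P1 := 0) (W1 := 536870912) (P2 := 536870912) (W2 := 536870912) (P3 := 991146299) (W3 := 28908434) (N0 := 3) (En := eng) (mo := mog) (C1 := cd5q0) (C2 := cd0q1) (C3 := pd1)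
    rfl k0_mm_011_s

noncomputable def cut_mm_012_s : Cut := Cut.of [[⟨4, 0, 0, 1449551462⟩]]

noncomputable def f_mm_012_s : ℕ → ℕ → ℕ → ℕ → Bool := onCell 0 536870912 0 536870912 991146299 28908434
    (rowNE 3 eng mog cd5q0 cd0q2 pd1 0 false false false .pnp 0 1 2 (qsf 0 536870912 0 536870912 1) ndB5q0 ndB0q2 pcB1 cut_mm_012_s Ext.none)

def k0_mm_012_s : ∃ t, chk3 f_mm_012_s t 1 1 1 = true :=
  ⟨(l 5), by decide +kernel⟩

theorem c_mm_012_s : CertNE 0 536870912 0 536870912 991146299 28908434 3 eng mog cd5q0 cd0q2 pd1 false false false .pnp 0 1 2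
    ndB5q0 ndB0q2 pcB1 cut_mm_012_s Ext.none :=
  certNE0 (fam := false) (s1 := false) (s2 := false) (a := 0) (b := 1) (c := 2) (cn := .pnp) (n1 := ndB5q0) (n2 := ndB0q2) (pc := pcB1) (cut := cut_mm_012_s) (xt := Ext.none) (P1 := 0) (W1 := 536870912) (P2 := 0) (W2 := 536870912) (P3 := 991146299) (W3 := 28908434) (N0 := 3) (En := eng) (mo := mog) (C1 := cd5q0) (C2 := cd0q2) (C3 := pd1)
    rfl k0_mm_012_s

noncomputable def cut_mm_022_s : Cut := Cut.of [[⟨4, 0, 0, 1449551462⟩]]

noncomputable def f_mm_022_s : ℕ → ℕ → ℕ → ℕ → Bool := onCell 0 536870912 0 536870912 991146299 28908434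
    (rowNE 3 eng mog cd5q0 cd0q2 pd2 0 false false false .pp 0 2 2 (qsf 0 536870912 0 536870912 2) ndB5q0 ndB0q2 pcB2 cut_mm_022_s Ext.none)

def k0_mm_022_s : ∃ t, chk3 f_mm_022_s t 1 1 1 = true :=
  ⟨(l 5), by decide +kernel⟩

theorem c_mm_022_s : CertNE 0 536870912 0 536870912 991146299 28908434 3 eng mog cd5q0 cd0q2 pd2 false false false .pp 0 2 2
    ndB5q0 ndB0q2 pcB2 cut_mm_022_s Ext.none :=
  certNE0 (fam := false) (s1 := false) (s2 := false) (a := 0) (b := 2) (c := 2) (cn := .pp) (n1 := ndB5q0) (n2 := ndB0q2) (pc := pcB2) (cut := cut_mm_022_s) (xt := Ext.none) (P1 := 0) (W1 := 536870912) (P2 := 0) (W2 := 536870912) (P3 := 991146299) (W3 := 28908434) (N0 := 3) (En := eng) (mo := mog) (C1 := cd5q0) (C2 := cd0q2) (C3 := pd2)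
    rfl k0_mm_022_s

noncomputable def cut_mm_101_s : Cut := Cut.of [[⟨4, 0, 0, 1449551462⟩]]

noncomputable def f_mm_101_s : ℕ → ℕ → ℕ → ℕ → Bool := onCell 0 536870912 536870912 536870912 991146299 28908434
    (rowNE 3 eng mog cd5q1 cd0q1 pd0 2 false false false .npn 1 0 1 (qsf 536870912 536870912 536870912 536870912 0) ndB5q1 ndB0q1 pcB0 cut_mm_101_s Ext.none)

def k0_mm_101_s : ∃ t, chk3 f_mm_101_s t 1 1 1 = true :=
  ⟨(l 5), by decide +kernel⟩

theorem c_mm_101_s : CertNE 536870912 536870912 536870912 536870912 991146299 28908434 3 eng mog cd5q1 cd0q1 pd0 false false false .npn 1 0 1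
    ndB5q1 ndB0q1 pcB0 cut_mm_101_s Ext.none :=
  certNE2 (fam := false) (s1 := false) (s2 := false) (a := 1) (b := 0) (c := 1) (cn := .npn) (n1 := ndB5q1) (n2 := ndB0q1) (pc := pcB0) (cut := cut_mm_101_s) (xt := Ext.none) (P1 := 536870912) (W1 := 536870912) (P2 := 536870912) (W2 := 536870912) (P3 := 991146299) (W3 := 28908434) (N0 := 3) (En := eng) (mo := mog) (C1 := cd5q1) (C2 := cd0q1) (C3 := pd0)
    rfl (fun _ => rfl) k0_mm_101_s

noncomputable def cut_mm_102_s : Cut := Cut.of [[⟨4, 0, 0, 1449551462⟩]]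

noncomputable def f_mm_102_s : ℕ → ℕ → ℕ → ℕ → Bool := onCell 536870912 536870912 0 536870912 991146299 28908434
    (rowNE 3 eng mog cd5q1 cd0q2 pd0 0 false false false .npp 1 0 2 (qsf 536870912 536870912 0 536870912 0) ndB5q1 ndB0q2 pcB0 cut_mm_102_s Ext.none)

def k0_mm_102_s : ∃ t, chk3 f_mm_102_s t 1 1 1 = true :=
  ⟨(l 5), by decide +kernel⟩

theorem c_mm_102_s : CertNE 536870912 536870912 0 536870912 991146299 28908434 3 eng mog cd5q1 cd0q2 pd0 false false false .npp 1 0 2
    ndB5q1 ndB0q2 pcB0 cut_mm_102_s Ext.none :=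
  certNE0 (fam := false) (s1 := false) (s2 := false) (a := 1) (b := 0) (c := 2) (cn := .npp) (n1 := ndB5q1) (n2 := ndB0q2) (pc := pcB0) (cut := cut_mm_102_s) (xt := Ext.none) (P1 := 536870912) (W1 := 536870912) (P2 := 0) (W2 := 536870912) (P3 := 991146299) (W3 := 28908434) (N0 := 3) (En := eng) (mo := mog) (C1 := cd5q1) (C2 := cd0q2) (C3 := pd0)
    rfl k0_mm_102_s

noncomputable def cut_mm_112_s : Cut := Cut.of [[⟨4, 0, 0, 1449551462⟩]]

noncomputable def f_mm_112_s : ℕ → ℕ → ℕ → ℕ → Bool := onCell 536870912 536870912 0 536870912 991146299 28908434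
    (rowNE 3 eng mog cd5q1 cd0q2 pd1 0 false false false .dn 1 1 2 (qsf 536870912 536870912 0 536870912 1) ndB5q1 ndB0q2 pcB1 cut_mm_112_s Ext.none)

def k0_mm_112_s : ∃ t, chk3 f_mm_112_s t 1 1 1 = true :=
  ⟨(l 5), by decide +kernel⟩

theorem c_mm_112_s : CertNE 536870912 536870912 0 536870912 991146299 28908434 3 eng mog cd5q1 cd0q2 pd1 false false false .dn 1 1 2
    ndB5q1 ndB0q2 pcB1 cut_mm_112_s Ext.none :=
  certNE0 (fam := false) (s1 := false) (s2 := false) (a := 1) (b := 1) (c := 2) (cn := .dn) (n1 := ndB5q1) (n2 := ndB0q2) (pc := pcB1) (cut := cut_mm_112_s) (xt := Ext.none) (P1 := 536870912) (W1 := 536870912) (P2 := 0) (W2 := 536870912) (P3 := 991146299) (W3 := 28908434) (N0 := 3) (En := eng) (mo := mog) (C1 := cd5q1) (C2 := cd0q2) (C3 := pd1)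
    rfl k0_mm_112_s

noncomputable def cut_mm_202_s : Cut := Cut.of [[⟨4, 0, 0, 1449551462⟩]]

noncomputable def f_mm_202_s : ℕ → ℕ → ℕ → ℕ → Bool := onCell 1073741824 536870912 0 536870912 991146299 28908434
    (rowNE 3 eng mog cd5q2 cd0q2 pd0 0 false false false .pp 2 0 2 (qsf 1073741824 536870912 0 536870912 0) ndB5q2 ndB0q2 pcB0 cut_mm_202_s Ext.none)

def k0_mm_202_s : ∃ t, chk3 f_mm_202_s t 1 1 1 = true :=
  ⟨(l 5), by decide +kernel⟩

theorem c_mm_202_s : CertNE 1073741824 536870912 0 536870912 991146299 28908434 3 eng mog cd5q2 cd0q2 pd0 false false false .pp 2 0 2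
    ndB5q2 ndB0q2 pcB0 cut_mm_202_s Ext.none :=
  certNE0 (fam := false) (s1 := false) (s2 := false) (a := 2) (b := 0) (c := 2) (cn := .pp) (n1 := ndB5q2) (n2 := ndB0q2) (pc := pcB0) (cut := cut_mm_202_s) (xt := Ext.none) (P1 := 1073741824) (W1 := 536870912) (P2 := 0) (W2 := 536870912) (P3 := 991146299) (W3 := 28908434) (N0 := 3) (En := eng) (mo := mog) (C1 := cd5q2) (C2 := cd0q2) (C3 := pd0)
    rfl k0_mm_202_s

end Pool.Agent.Strip051.G.I9231_9500.Tab.CS.BB50

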