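import Pool.Agent.Strip051.G.I9231_9500.Tab
import Pool.Agent.Strip051.PB.ExtD3

/-! # Certificates B19 (generated) -/

set_option linter.all false
set_option maxRecDepth 100000

namespace Pool.Agent.Strip051.G.I9231_9500.Tab.C.BB00

open Pool.Agent.Strip051.PB Pool.Agent.Strip051.PB.T
open Pool.Agent.Strip051.G.I9231_9500.Tab

noncomputable def cut_pm_112 : Cut := Cut.of [[⟨3, 0, 0, 1449551462⟩], [⟨4, 0, 0, 2845415833⟩]]

noncomputable def f_pm_112 : ℕ → ℕ → ℕ → ℕ → Bool := onCell 536870912 536870912 0 536870912 991146299 28908434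
    (rowB 3 eng mog cd0q1 cd0q2 pd1 0 false true false .dn 1 1 2 (qsf 536870912 536870912 0 536870912 1) ndB0q1 ndB0q2 pcB1 cut_pm_112 Ext.none)

def k0_pm_112 : ∃ t, chk3 f_pm_112 t 2 2 1 = true :=
  ⟨(a (a (b (b (l 6) (a (a (b (l 6) (b (l 6) (l 16550144))) (l 6)) (l 6))) (b (a (b (a (l 16522968) (b (l 16521368) (l 16568504))) (a (l 16582392) (l 16558888))) (b (a (b (l 6) (l 16515112)) (l 6)) (a (l 16470200) (b (l 16489520) (l 16559296))))) (a (b (a (l 16510688) (l 16547264)) (c (a (l 16385832) (l 16433024)) (l 16276544))) (b (b (l 16447680) (l 16466560)) (c (l 16428576) (l 16366304)))))) (b (l 6) (b (a (b (l 6) (a (b (l 6) (l 16486576)) (l 6))) (l 6)) (a (b (a (l 16442392) (a (l 16485576) (l 16471416))) (b (l 16440832) (l 16366696))) (b (a (b (l 6) (l 16527208)) (l 6)) (a (l 16459176) (b (l 16528296) (l 16552424)))))))) (b (l 6) (b (l 6) (b (l 6) (b (l 6) (l 1)))))), by decide +kernel⟩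

def k1_pm_112 : ∃ t, chk3 f_pm_112 t 2 3 1 = true :=
  ⟨(b (a (a (b (c (a (b (l 16134440) (a (l 16045496) (l 16072944))) (b (l 16198704) (a (l 16105576) (l 16143240)))) (a (b (l 16140056) (l 15908080)) (b (l 16167536) (l 15956464)))) (b (a (b (c (l 15914248) (l 15819496)) (a (c (b (l 15856488) (l 15826848)) (l 15717408)) (b (l 15799176) (a (l 15735992) (l 15731720))))) (a (b (l 15904200) (l 15833480)) (c (l 15923104) (l 15830400)))) (a (c (a (l 15874784) (l 15838800)) (a (l 15793656) (l 15753152))) (a (b (b (a (l 15712360) (l 15703144)) (l 15744080)) (l 15784184)) (b (a (b (l 15702872) (l 15714696)) (b (l 15734496) (l 15679864))) (l 15745560)))))) (b (a (a (b (a (l 16312096) (l 16382216)) (l 15979048)) (b (l 16321608) (l 16006960))) (a (b (l 16363032) (l 16060504)) (b (l 16364680) (l 1)))) (b (a (c (b (l 16033760) (l 15911984)) (b (l 15947920) (l 15820432))) (a (b (l 16058544) (l 1)) (l 1))) (a (b (a (b (l 15755176) (a (l 15677448) (l 15677104))) (l 15753648)) (a (c (l 15816840) (l 15661584)) (l 1)))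 (l 1))))) (l 1)) (a (b (a (b (a (c (l 15948552) (l 15891784)) (c (l 15862328) (l 15819328))) (a (c (l 16050280) (l 16022424)) (c (l 15991952) (l 15895832)))) (b (a (c (b (l 15765728) (l 15842504)) (l 89151701047)) (l 1)) (l 1))) (a (b (a (b (l 16087288) (c (l 16187040) (l 16198576))) (b (l 15968096) (l 1))) (a (b (c (l 16241848) (l 16248600)) (a (l 16041192) (l 1))) (l 1))) (l 1))) (l 1))), by decide +kernel⟩

def k2_pm_112 : ∃ t, chk3 f_pm_112 t 3 1 1 = true :=
  ⟨(l 1), by decide +kernel⟩

theorem s3_pm_112 : ∃ t, chk3 f_pm_112 t 2 1 1 = true := ex3_b k0_pm_112 k1_pm_112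

theorem s4_pm_112 : ∃ t, chk3 f_pm_112 t 1 1 1 = true := ex3_a s3_pm_112 k2_pm_112

theorem c_pm_112 : CertB 536870912 536870912 0 536870912 991146299 28908434 3 eng mog cd0q1 cd0q2 pd1 false true false .dn 1 1 2
    ndB0q1 ndB0q2 pcB1 cut_pm_112 Ext.none :=
  certB0 (fam := false) (s1 := true) (s2 := false) (a := 1) (b := 1) (c := 2) (cn := .dn) (n1 := ndB0q1) (n2 := ndB0q2) (pc := pcB1) (cut := cut_pm_112) (xt := Ext.none) (P1 := 536870912) (W1 := 536870912) (P2 := 0) (W2 := 536870912) (P3 := 991146299) (W3 := 28908434) (N0 := 3) (En := eng) (mo := mog) (C1 := cd0q1) (C2 := cd0q2) (C3 := pd1)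
    rfl s4_pm_112

noncomputable def cut_pm_202 : Cut := Cut.of [[⟨3, 0, 0, 1449551462⟩], [⟨4, 0, 0, 2845415833⟩], [⟨0, 1, 0, 53687091⟩, ⟨1, 0, 0, 53687091⟩, ⟨2, 1, 0, 53687091⟩]]

noncomputable def f_pm_202 : ℕ → ℕ → ℕ → ℕ → Bool := onCell 0 536870912 0 536870912 991146299 28908434
    (rowB 3 eng mog cd0q2 cd0q2 pd0 0 false true false .pp 2 0 2 (qsf 0 536870912 0 536870912 0) ndB0q2 ndB0q2 pcB0 cut_pm_202 Ext.none)

def k0_pm_202 : ∃ t, chk3 f_pm_202 t 1 1 1 = true :=
  ⟨(l 6), by decide +kernel⟩

theorem c_pm_202 : CertB 0 536870912 0 536870912 991146299 28908434 3 eng mog cd0q2 cd0q2 pd0 false true false .pp 2 0 2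
    ndB0q2 ndB0q2 pcB0 cut_pm_202 Ext.none :=
  certB0 (fam := false) (s1 := true) (s2 := false) (a := 2) (b := 0) (c := 2) (cn := .pp) (n1 := ndB0q2) (n2 := ndB0q2) (pc := pcB0) (cut := cut_pm_202) (xt := Ext.none) (P1 := 0) (W1 := 536870912) (P2 := 0) (W2 := 536870912) (P3 := 991146299) (W3 := 28908434) (N0 := 3) (En := eng) (mo := mog) (C1 := cd0q2) (C2 := cd0q2) (C3 := pd0)
    rfl k0_pm_202

noncomputable def cut_mm_001 : Cut := Cut.of [[⟨3, 0, 0, 1449551462⟩], [⟨4, 0, 0, 2845415833⟩]]

noncomputable def f_mm_001 : ℕ → ℕ → ℕ → ℕ → Bool := onCell 0 536870912 536870912 536870912 991146299 28908434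
    (rowB 3 eng mog cd0q0 cd0q1 pd0 0 false false false .up 0 0 1 (qsf 0 536870912 536870912 536870912 0) ndB0q0 ndB0q1 pcB0 cut_mm_001 Ext.none)

def k0_mm_001 : ∃ t, chk3 f_mm_001 t 1 1 1 = true :=
  ⟨(l 6), by decide +kernel⟩

theorem c_mm_001 : CertB 0 536870912 536870912 536870912 991146299 28908434 3 eng mog cd0q0 cd0q1 pd0 false false false .up 0 0 1
    ndB0q0 ndB0q1 pcB0 cut_mm_001 Ext.none :=
  certB0 (fam := false) (s1 := false) (s2 := false) (a := 0) (b := 0) (c := 1) (cn := .up) (n1 := ndB0q0) (n2 := ndB0q1) (pc := pcB0) (cut := cut_mm_001) (xt := Ext.none) (P1 := 0) (W1 := 536870912) (P2 := 536870912) (W2 := 536870912) (P3 := 991146299) (W3 := 28908434) (N0 := 3) (En := eng) (mo := mog) (C1 := cd0q0) (C2 := cd0q1) (C3 := pd0)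
    rfl k0_mm_001

noncomputable def cut_mm_011 : Cut := Cut.of [[⟨3, 0, 0, 1449551462⟩], [⟨4, 0, 0, 2845415833⟩]]

noncomputable def f_mm_011 : ℕ → ℕ → ℕ → ℕ → Bool := onCell 0 536870912 536870912 536870912 991146299 28908434
    (rowB 3 eng mog cd0q0 cd0q1 pd1 0 false false false .pnn 0 1 1 (qsf 0 536870912 536870912 536870912 1) ndB0q0 ndB0q1 pcB1 cut_mm_011 Ext.none)

def k0_mm_011 : ∃ t, chk3 f_mm_011 t 1 1 1 = true :=
  ⟨(l 6), by decide +kernel⟩

theorem c_mm_011 : CertB 0 536870912 536870912 536870912 991146299 28908434 3 eng mog cd0q0 cd0q1 pd1 false false false .pnn 0 1 1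
    ndB0q0 ndB0q1 pcB1 cut_mm_011 Ext.none :=
  certB0 (fam := false) (s1 := false) (s2 := false) (a := 0) (b := 1) (c := 1) (cn := .pnn) (n1 := ndB0q0) (n2 := ndB0q1) (pc := pcB1) (cut := cut_mm_011) (xt := Ext.none) (P1 := 0) (W1 := 536870912) (P2 := 536870912) (W2 := 536870912) (P3 := 991146299) (W3 := 28908434) (N0 := 3) (En := eng) (mo := mog) (C1 := cd0q0) (C2 := cd0q1) (C3 := pd1)
    rfl k0_mm_011

noncomputable def cut_mm_012 : Cut := Cut.of [[⟨3, 0, 0, 1449551462⟩], [⟨4, 0, 0, 2845415833⟩]]

noncomputable def f_mm_012 : ℕ → ℕ → ℕ → ℕ → Bool := onCell 0 536870912 0 536870912 991146299 28908434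
    (rowB 3 eng mog cd0q0 cd0q2 pd1 0 false false false .pnp 0 1 2 (qsf 0 536870912 0 536870912 1) ndB0q0 ndB0q2 pcB1 cut_mm_012 Ext.none)

def k0_mm_012 : ∃ t, chk3 f_mm_012 t 1 1 1 = true :=
  ⟨(l 5), by decide +kernel⟩

theorem c_mm_012 : CertB 0 536870912 0 536870912 991146299 28908434 3 eng mog cd0q0 cd0q2 pd1 false false false .pnp 0 1 2
    ndB0q0 ndB0q2 pcB1 cut_mm_012 Ext.none :=
  certB0 (fam := false) (s1 := false) (s2 := false) (a := 0) (b := 1) (c := 2) (cn := .pnp) (n1 := ndB0q0) (n2 := ndB0q2) (pc := pcB1) (cut := cut_mm_012) (xt := Ext.none) (P1 := 0) (W1 := 536870912) (P2 := 0) (W2 := 536870912) (P3 := 991146299) (W3 := 28908434) (N0 := 3) (En := eng) (mo := mog) (C1 := cd0q0) (C2 := cd0q2) (C3 := pd1)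
    rfl k0_mm_012

noncomputable def cut_mm_022 : Cut := Cut.of [[⟨3, 0, 0, 1449551462⟩], [⟨4, 0, 0, 2845415833⟩]]

noncomputable def f_mm_022 : ℕ → ℕ → ℕ → ℕ → Bool := onCell 0 536870912 0 536870912 991146299 28908434
    (rowB 3 eng mog cd0q0 cd0q2 pd2 0 false false false .pp 0 2 2 (qsf 0 536870912 0 536870912 2) ndB0q0 ndB0q2 pcB2 cut_mm_022 Ext.none)

def k0_mm_022 : ∃ t, chk3 f_mm_022 t 1 1 1 = true :=
  ⟨(l 5), by decide +kernel⟩

theorem c_mm_022 : CertB 0 536870912 0 536870912 991146299 28908434 3 eng mog cd0q0 cd0q2 pd2 false false false .pp 0 2 2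
    ndB0q0 ndB0q2 pcB2 cut_mm_022 Ext.none :=
  certB0 (fam := false) (s1 := false) (s2 := false) (a := 0) (b := 2) (c := 2) (cn := .pp) (n1 := ndB0q0) (n2 := ndB0q2) (pc := pcB2) (cut := cut_mm_022) (xt := Ext.none) (P1 := 0) (W1 := 536870912) (P2 := 0) (W2 := 536870912) (P3 := 991146299) (W3 := 28908434) (N0 := 3) (En := eng) (mo := mog) (C1 := cd0q0) (C2 := cd0q2) (C3 := pd2)
    rfl k0_mm_022

noncomputable def cut_mm_101 : Cut := Cut.of [[⟨3, 0, 0, 1449551462⟩], [⟨4, 0, 0, 2845415833⟩]]

noncomputable def f_mm_101 : ℕ → ℕ → ℕ → ℕ → Bool := onCell 536870912 536870912 536870912 536870912 991146299 28908434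
    (rowB 3 eng mog cd0q1 cd0q1 pd0 0 false false false .npn 1 0 1 (qsf 536870912 536870912 536870912 536870912 0) ndB0q1 ndB0q1 pcB0 cut_mm_101 Ext.none)

def k0_mm_101 : ∃ t, chk3 f_mm_101 t 1 1 1 = true :=
  ⟨(l 3), by decide +kernel⟩

theorem c_mm_101 : CertB 536870912 536870912 536870912 536870912 991146299 28908434 3 eng mog cd0q1 cd0q1 pd0 false false false .npn 1 0 1
    ndB0q1 ndB0q1 pcB0 cut_mm_101 Ext.none :=
  certB0 (fam := false) (s1 := false) (s2 := false) (a := 1) (b := 0) (c := 1) (cn := .npn) (n1 := ndB0q1) (n2 := ndB0q1) (pc := pcB0) (cut := cut_mm_101) (xt := Ext.none) (P1 := 536870912) (W1 := 536870912) (P2 := 536870912) (W2 := 536870912) (P3 := 991146299) (W3 := 28908434) (N0 := 3) (En := eng) (mo := mog) (C1 := cd0q1) (C2 := cd0q1) (C3 := pd0)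
    rfl k0_mm_101

noncomputable def cut_mm_102 : Cut := Cut.of [[⟨3, 0, 0, 1449551462⟩], [⟨4, 0, 0, 2845415833⟩]]

noncomputable def f_mm_102 : ℕ → ℕ → ℕ → ℕ → Bool := onCell 536870912 536870912 0 536870912 991146299 28908434
    (rowB 3 eng mog cd0q1 cd0q2 pd0 0 false false false .npp 1 0 2 (qsf 536870912 536870912 0 536870912 0) ndB0q1 ndB0q2 pcB0 cut_mm_102 Ext.none)

def k0_mm_102 : ∃ t, chk3 f_mm_102 t 1 1 1 = true :=
  ⟨(a (l 5) (l 3)), by decide +kernel⟩

theorem c_mm_102 : CertB 536870912 536870912 0 536870912 991146299 28908434 3 eng mog cd0q1 cd0q2 pd0 false false false .npp 1 0 2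
    ndB0q1 ndB0q2 pcB0 cut_mm_102 Ext.none :=
  certB0 (fam := false) (s1 := false) (s2 := false) (a := 1) (b := 0) (c := 2) (cn := .npp) (n1 := ndB0q1) (n2 := ndB0q2) (pc := pcB0) (cut := cut_mm_102) (xt := Ext.none) (P1 := 536870912) (W1 := 536870912) (P2 := 0) (W2 := 536870912) (P3 := 991146299) (W3 := 28908434) (N0 := 3) (En := eng) (mo := mog) (C1 := cd0q1) (C2 := cd0q2) (C3 := pd0)
    rfl k0_mm_102

noncomputable def cut_mm_112 : Cut := Cut.of [[⟨3, 0, 0, 1449551462⟩], [⟨4, 0, 0, 2845415833⟩]]

noncomputable def f_mm_112 : ℕ → ℕ → ℕ → ℕ → Bool := onCell 536870912 536870912 0 536870912 991146299 28908434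
    (rowB 3 eng mog cd0q1 cd0q2 pd1 2 false false false .dn 1 1 2 (qsf 536870912 536870912 0 536870912 1) ndB0q1 ndB0q2 pcB1 cut_mm_112 Ext.none)

def k0_mm_112 : ∃ t, chk3 f_mm_112 t 1 1 1 = true :=
  ⟨(l 5), by decide +kernel⟩

theorem c_mm_112 : CertB 536870912 536870912 0 536870912 991146299 28908434 3 eng mog cd0q1 cd0q2 pd1 false false false .dn 1 1 2
    ndB0q1 ndB0q2 pcB1 cut_mm_112 Ext.none :=
  certB2 (fam := false) (s1 := false) (s2 := false) (a := 1) (b := 1) (c := 2) (cn := .dn) (n1 := ndB0q1) (n2 := ndB0q2) (pc := pcB1) (cut := cut_mm_112) (xt := Ext.none) (P1 := 536870912) (W1 := 536870912) (P2 := 0) (W2 := 536870912) (P3 := 991146299) (W3 := 28908434) (N0 := 3) (En := eng) (mo := mog) (C1 := cd0q1) (C2 := cd0q2) (C3 := pd1)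
    rfl (fun _ => rfl) k0_mm_112

noncomputable def cut_mm_202 : Cut := Cut.of [[⟨3, 0, 0, 1449551462⟩], [⟨4, 0, 0, 2845415833⟩]]

noncomputable def f_mm_202 : ℕ → ℕ → ℕ → ℕ → Bool := onCell 0 536870912 0 536870912 991146299 28908434
    (rowB 3 eng mog cd0q2 cd0q2 pd0 0 false false false .pp 2 0 2 (qsf 0 536870912 0 536870912 0) ndB0q2 ndB0q2 pcB0 cut_mm_202 Ext.none)

def k0_mm_202 : ∃ t, chk3 f_mm_202 t 1 1 1 = true :=
  ⟨(l 3), by decide +kernel⟩

theorem c_mm_202 : CertB 0 536870912 0 536870912 991146299 28908434 3 eng mog cd0q2 cd0q2 pd0 false false false .pp 2 0 2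
    ndB0q2 ndB0q2 pcB0 cut_mm_202 Ext.none :=
  certB0 (fam := false) (s1 := false) (s2 := false) (a := 2) (b := 0) (c := 2) (cn := .pp) (n1 := ndB0q2) (n2 := ndB0q2) (pc := pcB0) (cut := cut_mm_202) (xt := Ext.none) (P1 := 0) (W1 := 536870912) (P2 := 0) (W2 := 536870912) (P3 := 991146299) (W3 := 28908434) (N0 := 3) (En := eng) (mo := mog) (C1 := cd0q2) (C2 := cd0q2) (C3 := pd0)
    rfl k0_mm_202

end Pool.Agent.Strip051.G.I9231_9500.Tab.C.BB00

namespace Pool.Agent.Strip051.G.I9231_9500.Tab.C.BB01

open Pool.Agent.Strip051.PB Pool.Agent.Strip051.PB.T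
open Pool.Agent.Strip051.G.I9231_9500.Tab

noncomputable def f_pp_001 : ℕ → ℕ → ℕ → ℕ → Bool := onCell 0 536870912 536870912 536870912 991146299 28908434
    (rowB 3 eng mog cd0q0 cd1q1 pd0 0 false true true .up 0 0 1 (qsf 0 536870912 536870912 536870912 0) ndB0q0 ndB1q1 pcB0 Cut.none Ext.none)

def k0_pp_001 : ∃ t, chk3 f_pp_001 t 1 1 1 = true :=
  ⟨(l 3), by decide +kernel⟩

theorem c_pp_001 : CertB 0 536870912 536870912 536870912 991146299 28908434 3 eng mog cd0q0 cd1q1 pd0 false true true .up 0 0 1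
    ndB0q0 ndB1q1 pcB0 Cut.none Ext.none :=
  certB0 (fam := false) (s1 := true) (s2 := true) (a := 0) (b := 0) (c := 1) (cn := .up) (n1 := ndB0q0) (n2 := ndB1q1) (pc := pcB0) (cut := Cut.none) (xt := Ext.none) (P1 := 0) (W1 := 536870912) (P2 := 536870912) (W2 := 536870912) (P3 := 991146299) (W3 := 28908434) (N0 := 3) (En := eng) (mo := mog) (C1 := cd0q0) (C2 := cd1q1) (C3 := pd0)
    rfl k0_pp_001

noncomputable def f_pp_011 : ℕ → ℕ → ℕ → ℕ → Bool := onCell 0 536870912 536870912 536870912 991146299 28908434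
    (rowB 3 eng mog cd0q0 cd1q1 pd1 0 false true true .pnn 0 1 1 (qsf 0 536870912 536870912 536870912 1) ndB0q0 ndB1q1 pcB1 Cut.none Ext.none)

def k0_pp_011 : ∃ t, chk3 f_pp_011 t 1 1 1 = true :=
  ⟨(l 3), by decide +kernel⟩

theorem c_pp_011 : CertB 0 536870912 536870912 536870912 991146299 28908434 3 eng mog cd0q0 cd1q1 pd1 false true true .pnn 0 1 1
    ndB0q0 ndB1q1 pcB1 Cut.none Ext.none :=
  certB0 (fam := false) (s1 := true) (s2 := true) (a := 0) (b := 1) (c := 1) (cn := .pnn) (n1 := ndB0q0) (n2 := ndB1q1) (pc := pcB1) (cut := Cut.none) (xt := Ext.none) (P1 := 0) (W1 := 536870912) (P2 := 536870912) (W2 := 536870912) (P3 := 991146299) (W3 := 28908434) (N0 := 3) (En := eng) (mo := mog) (C1 := cd0q0) (C2 := cd1q1) (C3 := pd1)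
    rfl k0_pp_011

noncomputable def cut_pp_012_a : Cut := Cut.of [[⟨0, 0, 0, 53687091⟩, ⟨1, 1, 0, 53687091⟩, ⟨2, 1, 0, 53687091⟩]]

noncomputable def xt_pp_012_a : Ext := extD3 3 ⟨4, 1, 1, 5, 22, 5, 21, 25, 41, 100, 1, 20⟩ eng cd0q0 cd1q2a pd1 false true true .pnp 0 1 2 rfl ndB0q0 ndB1q2a pcB1

noncomputable def f_pp_012_a : ℕ → ℕ → ℕ → ℕ → Bool := onCell 536870912 536870912 0 536870912 991146299 28908434
    (rowB 3 eng mog cd0q0 cd1q2a pd1 2 false true true .pnp 0 1 2 (qsf 0 536870912 0 536870912 1) ndB0q0 ndB1q2a pcB1 cut_pp_012_a xt_pp_012_a)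

def k0_pp_012_a : ∃ t, chk3 f_pp_012_a t 4 1 1 = true :=
  ⟨(l 3), by decide +kernel⟩

def k1_pp_012_a : ∃ t, chk3 f_pp_012_a t 10 2 1 = true :=
  ⟨(l 3), by decide +kernel⟩

def k2_pp_012_a : ∃ t, chk3 f_pp_012_a t 44 16 1 = true :=
  ⟨(b (a (l 3) (b (a (a (l 3) (a (l 3) (c (l 148344104263) (l 149417857447)))) (b (a (b (c (a (l 103783825719) (l 16764072)) (a (l 103246955911) (l 16764096))) (a (l 3) (c (l 122037436807) (l 121500566791)))) (c (a (l 78550891735) (l 16765064)) (c (l 74255925703) (l 73182184679)))) (a (l 3) (a (c (l 142975404855) (l 144049136903)) (b (c (l 101099469879) (l 100562600151)) (l 3)))))) (l 3))) (l 3)), by decide +kernel⟩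

def k3_pp_012_a : ∃ t, chk3 f_pp_012_a t 90 16 1 = true :=
  ⟨(b (c (b (a (b (l 16761912) (a (b (l 16763880) (a (l 119353080967) (l 16762712))) (l 16754296))) (l 16758032)) (a (b (a (l 142975398391) (b (a (l 98415114135) (l 16762800)) (a (l 147807241335) (l 113447499351)))) (l 3)) (b (a (a (l 16757624) (l 16763672)) (l 16764824)) (a (b (a (l 131164240855) (l 95193887511)) (l 146196627399)) (b (l 16762576) (a (l 110226272631) (l 16761480))))))) (b (a (b (c (l 16745504) (l 16755520)) (a (b (l 16763728) (a (l 118279339959) (l 16760160))) (l 16753816))) (c (l 16746440) (l 16745664))) (a (b (c (a (l 143512275047) (b (l 88214567703) (l 127406142055))) (a (l 144586017239) (b (l 87677697415) (l 127406142327)))) (l 3)) (b (a (a (l 73719052535) (l 16763264)) (l 16764048)) (a (b (a (l 130627371095) (l 94120146695)) (l 147807230263)) (b (l 16762320) (a (l 110763144535) (l 16761448)))))))) (b (a (l 3) (b (a (l 3) (a (l 3) (b (c (l 127406143223) (l 126869273383)) (l 3)))) (l 3))) (l 3))), by decide +kernel⟩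

def k4_pp_012_a : ∃ t, chk3 f_pp_012_a t 91 16 1 = true :=
  ⟨(b (a (a (b (l 16745128) (c (l 16754312) (l 16758640))) (c (l 16756408) (l 16757640))) (c (l 16752968) (b (l 16761320) (l 16744776)))) (a (b (a (b (a (b (c (l 91972660823) (l 90362049175)) (a (l 3) (l 137606690631))) (b (l 16758840) (c (l 107005046279) (l 105931305015)))) (l 3)) (c (b (l 16756712) (b (a (l 123111174695) (l 16757640)) (l 140291034391))) (b (c (l 16761664) (l 16761480)) (b (a (l 122574304775) (l 87140822727)) (a (l 3) (l 137069819703)))))) (l 3)) (a (b (a (b (l 16752128) (b (l 16758192) (c (l 102710077783) (l 101636336423)))) (c (l 16751824) (l 16757720))) (b (b (a (l 149417844647) (c (l 119353077111) (l 118279336183))) (l 3)) (l 3))) (c (b (l 16752768) (b (b (l 80698368663) (a (l 131164235591) (l 99488851463))) (l 147270364839))) (b (l 16756992) (b (b (c (l 16754632) (l 16754552)) (a (l 132237969719) (l 97341368183))) (l 149417843719))))))), by decide +kernel⟩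

def k5_pp_012_a : ∃ t, chk3 f_pp_012_a t 22 17 1 = true :=
  ⟨(l 3), by decide +kernel⟩

def k6_pp_012_a : ∃ t, chk3 f_pp_012_a t 22 9 1 = true :=
  ⟨(l 3), by decide +kernel⟩

def k7_pp_012_a : ∃ t, chk3 f_pp_012_a t 23 16 1 = true :=
  ⟨(b (a (a (a (b (l 16756448) (l 16752304)) (b (l 16752456) (l 16758672))) (c (l 16748656) (l 16751136))) (a (l 16742944) (l 16736896))) (a (a (a (b (c (l 16754392) (l 16757944)) (a (b (c (l 16760656) (l 16757536)) (b (a (c (l 115058108631) (b (l 95730756455) (l 129016751863))) (c (l 16759096) (l 16753744))) (a (l 3) (c (l 126332396183) (l 126332397255))))) (a (b (l 16761112) (b (l 16759536) (c (l 95193882999) (l 93046399783)))) (c (l 16750424) (l 16754904))))) (a (b (l 16744064) (c (l 16751224) (l 16755344))) (c (l 16743840) (l 16752152)))) (a (c (l 16742448) (l 16752520)) (b (l 16756840) (l 16741624)))) (a (a (l 16734992) (l 16752408)) (l 16726472)))), by decide +kernel⟩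

def k8_pp_012_a : ∃ t, chk3 f_pp_012_a t 23 34 1 = true :=
  ⟨(a (a (b (a (b (a (l 3) (b (a (c (l 139217299879) (l 140827912935)) (c (l 109689398007) (b (l 16755608) (l 121500557831)))) (l 3))) (l 3)) (c (b (a (b (l 16758824) (a (l 122037427863) (l 16752752))) (l 16759352)) (a (l 141364779799) (b (a (l 102173204087) (l 16757968)) (a (l 144586007271) (l 113447491943))))) (b (a (b (l 16755912) (a (b (l 108078784743) (l 139754167927)) (l 88214560823))) (l 16758744)) (c (a (l 141901653591) (b (l 90898914247) (l 125795520311))) (a (l 142438519479) (b (l 90362043895) (a (l 146196620391) (l 114521234071)))))))) (l 3)) (b (a (c (a (b (l 16760328) (l 76940267383)) (l 16749680)) (a (b (l 16759248) (c (l 16757896) (l 16755072))) (l 16748456))) (c (l 16740264) (l 16748864))) (a (b (c (a (b (a (l 128479876311) (l 96804493511)) (l 142438522599)) (c (l 89825168743) (l 89288298519))) (a (b (a (l 127406132359) (l 94120139799)) (l 142975388551)) (a (c (l 93583267223) (l 93046396855)) (l 16751768)))) (a (l 3) (b (a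 (l 3) (c (l 122574295111) (l 122037425287))) (l 3)))) (a (b (c (l 16758048) (l 16757328)) (b (c (l 83919588343) (c (l 16751200) (l 16755032))) (a (c (l 134385453943) (l 133848586807)) (c (l 102173200519) (l 100025717271))))) (c (l 16752672) (b (l 16757640) (l 16753832))))))) (c (a (a (b (l 16762208) (l 16753656)) (l 16740280)) (l 16757576)) (a (a (c (l 16748504) (l 16752656)) (l 16737320)) (l 16746768)))), by decide +kernel⟩

def k9_pp_012_a : ∃ t, chk3 f_pp_012_a t 23 35 1 = true :=
  ⟨(a (a (l 3) (a (l 3) (b (b (c (a (l 146733488295) (b (a (l 112910617559) (l 16755848)) (l 133848575175))) (a (l 148344090871) (b (a (l 115594973111) (l 16750432)) (a (l 3) (l 127943003239))))) (l 3)) (l 3)))) (a (b (a (b (c (a (c (l 16750896) (l 16753312)) (l 16756712)) (a (c (l 83382717319) (l 82308975815)) (l 16755888))) (a (b (a (c (l 139217289991) (l 139217294247)) (c (l 107005036391) (l 105394424247))) (l 3)) (a (c (l 102173197863) (b (l 16755072) (l 121500551079))) (c (l 16750032) (l 81235232439))))) (c (a (l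 16756528) (l 16757016)) (c (l 16755896) (l 16750072)))) (a (a (l 3) (a (l 3) (c (l 142438518583) (l 143512258103)))) (a (b (b (c (l 93046391543) (a (l 98415101191) (l 16754472))) (a (l 143512254599) (c (l 110763130375) (l 110226260743)))) (l 3)) (c (b (l 16749600) (b (l 113984356423) (l 139217291575))) (b (a (l 16749104) (l 16754400)) (b (a (l 126869258391) (l 16752528)) (l 140827894007))))))) (a (c (b (l 16757520) (a (c (l 84456453463) (l 83919583223)) (l 16755104))) (b (l 16755480) (a (b (l 16754432) (c (l 89288294791) (l 87677681783))) (l 16754056)))) (c (l 16748776) (b (l 16754912) (l 16753816)))))), by decide +kernel⟩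

def k10_pp_012_a : ∃ t, chk3 f_pp_012_a t 23 9 1 = true :=
  ⟨(a (l 3) (b (a (l 3) (b (b (a (c (b (a (l 133311700407) (b (l 16748280) (l 116668708631))) (l 144585989383)) (a (c (l 139217280855) (l 140291028135)) (b (c (l 100025711399) (l 98951969943)) (l 144585999591)))) (c (b (l 16748560) (a (b (l 98415097063) (l 130627351063)) (l 16747632))) (a (b (l 16742592) (a (l 119889926279) (l 101099452487))) (b (l 16752952) (l 80698356247))))) (a (l 3) (b (a (l 3) (c (l 126332376263) (b (l 118279321031) (l 145122868855)))) (l 3)))) (l 3))) (l 3))), by decide +kernel⟩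

def k11_pp_012_a : ∃ t, chk3 f_pp_012_a t 11 5 1 = true :=
  ⟨(l 3), by decide +kernel⟩

def k12_pp_012_a : ∃ t, chk3 f_pp_012_a t 5 3 1 = true :=
  ⟨(l 3), by decide +kernel⟩

def k13_pp_012_a : ∃ t, chk3 f_pp_012_a t 6 8 1 = true :=
  ⟨(a (a (a (c (b (l 16732208) (a (b (l 16750744) (l 16746520)) (l 16749672))) (b (l 16736296) (a (b (l 16752008) (a (l 16753520) (l 16752248))) (l 16728840)))) (b (l 16695056) (a (b (l 16740792) (l 16747624)) (l 16740656)))) (a (c (l 16727184) (l 16690072)) (b (l 16698696) (l 16705952)))) (a (a (l 16672064) (l 16615256)) (a (l 16595552) (l 16550696)))), by decide +kernel⟩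

def k14_pp_012_a : ∃ t, chk3 f_pp_012_a t 12 18 1 = true :=
  ⟨(a (a (a (a (b (c (b (l 16753688) (b (a (l 93583257591) (l 16752368)) (a (l 135459191511) (l 103246933559)))) (b (a (l 16752512) (l 16752200)) (b (a (c (l 91972645143) (l 91435774391)) (l 16751744)) (a (l 137069794039) (b (l 16748920) (l 120426803175)))))) (a (l 3) (c (l 146196589495) (l 148880955415)))) (b (a (b (l 16752736) (c (l 16741592) (l 16746088))) (c (l 16752840) (l 16751104))) (b (c (b (a (l 119889930247) (l 16745792)) (a (l 3) (l 129553605591))) (a (c (l 129553599943) (l 121500541703)) (b (l 16748144) (l 129016728071)))) (l 3)))) (c (b (a (l 16752512) (l 16751672)) (b (a (a (l 88214543303) (l 16750680)) (l 16750360)) (a (a (l 139754156439) (l 115058088103)) (a (l 99488834087) (l 16744232))))) (b (a (l 16739728) (l 16748656)) (b (a (b (l 16739640) (a (l 93046384311) (l 16749912))) (l 16749000)) (a (b (a (l 138680414551) (l 102173189863)) (l 3)) (b (l 16743992) (a (l 121500542199) (l 16738688)))))))) (b (a (c (l 16749536) (l 16745552))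 (l 16742600)) (a (c (a (l 16744040) (l 16748104)) (a (b (l 16747432) (l 16748048)) (l 16745920))) (c (l 16724488) (l 16721456))))) (a (a (b (l 16735992) (l 16717408)) (l 16729512)) (a (l 16699224) (l 16709312)))), by decide +kernel⟩

def k15_pp_012_a : ∃ t, chk3 f_pp_012_a t 12 19 1 = true :=
  ⟨(a (a (a (l 3) (b (a (l 3) (a (l 3) (b (c (l 134385445079) (l 136532929447)) (l 3)))) (l 3))) (a (b (a (b (a (c (l 108615637447) (l 107541898599)) (c (l 93583250887) (l 91972635719))) (l 3)) (c (b (l 16737384) (b (l 113984345687) (l 134922313431))) (b (l 16747312) (b (l 116668694759) (l 137606669047))))) (l 3)) (b (a (b (l 16735576) (c (l 85530180023) (l 84456436023))) (c (l 16745256) (l 16744056))) (a (b (c (l 131164215783) (l 133848571687)) (l 3)) (b (c (l 91972627975) (l 90898885223)) (a (l 3) (l 143512233591))))))) (a (a (b (a (l 16721424) (l 16739720)) (a (b (l 16739176) (c (l 95730732375) (l 97878205959))) (b (l 16742152) (l 16733384)))) (b (l 16713960) (a (l 16719488) (l 16737472)))) (a (c (l 16709928)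 (l 16707584)) (l 16699824)))), by decide +kernel⟩

def k16_pp_012_a : ∃ t, chk3 f_pp_012_a t 13 9 1 = true :=
  ⟨(a (a (b (l 16669192) (c (l 16685144) (l 16681928))) (b (l 16659640) (l 16656608))) (a (b (l 16623880) (l 16645184)) (l 16553968))), by decide +kernel⟩

def k17_pp_012_a : ∃ t, chk3 f_pp_012_a t 6 5 1 = true :=
  ⟨(a (a (l 3) (b (a (b (a (b (a (l 147807195431) (c (l 130090470727) (l 132237957415))) (l 3)) (b (a (b (l 83382680215) (l 132774807047)) (b (l 16740904) (l 88751387111))) (a (l 3) (l 134922289767)))) (l 3)) (b (a (b (c (l 16737448) (l 16716904)) (a (b (l 94120094807) (l 141364740423)) (c (l 91972609335) (l 90898868967)))) (b (l 16709224) (c (l 16715176) (l 16716752)))) (a (l 3) (b (c (l 120963631431) (l 122037378071)) (l 3))))) (l 3))) (a (b (a (b (a (c (l 16704024) (l 16704216)) (l 16693960)) (a (b (a (l 85530140551) (l 16713768)) (a (l 130627311655) (l 98951919239))) (b (l 16707088) (a (l 89288233927) (l 16714040))))) (b (a (l 16682320) (l 16690192)) (a (c (l 16700648) (l 16703336))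 (b (l 16706032) (l 16696024))))) (b (a (a (l 3) (b (a (l 3) (l 117742400807)) (l 3))) (a (b (a (l 91435716343) (l 16714760)) (l 108615592087)) (b (b (l 16704368) (l 16710016)) (a (l 95193812503) (l 101099381879))))) (l 3))) (b (a (b (l 16625976) (a (l 16677832) (l 16663656))) (b (l 16633744) (a (l 16669120) (l 16652368)))) (a (b (a (b (l 16695736) (c (l 16705248) (l 16710952))) (c (l 16687032) (l 16692072))) (b (a (a (l 99488780791) (l 104320607239)) (a (l 96804402551) (l 16706240))) (a (l 3) (c (l 106468095255) (l 109689335559))))) (a (c (b (l 16694024) (b (l 16714248) (a (l 110226181783) (l 16724856)))) (b (l 16699256) (b (l 16700128) (l 100025633607)))) (b (l 16660368) (b (l 16682576) (a (l 16701128) (l 16694168))))))))), by decide +kernel⟩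

def k18_pp_012_a : ∃ t, chk3 f_pp_012_a t 6 3 1 = true :=
  ⟨(b (a (l 3) (b (a (l 3) (b (a (l 3) (a (b (c (l 112910547751) (l 116668660727)) (l 3)) (c (b (a (l 115058019495) (l 16705184)) (l 107541841399)) (b (b (l 16713568) (l 105394361543)) (l 124184858247))))) (l 3))) (l 3))) (l 3)), by decide +kernel⟩

def k19_pp_012_a : ∃ t, chk3 f_pp_012_a t 14 2 1 = true :=
  ⟨(b (a (a (b (l 16481432) (l 16511024)) (b (b (a (l 16452392) (l 16429168)) (l 16464040)) (l 16464768))) (b (a (b (a (l 16408920) (l 16393104)) (a (l 16425424) (l 16358800))) (b (c (l 16373280) (l 16380432)) (a (b (l 16354088) (l 16381200)) (c (l 16337192) (l 16345240))))) (a (b (l 16441976) (l 16473544)) (b (a (l 16403808) (l 16378288)) (l 16424160))))) (a (b (a (b (l 16595000) (l 16604072)) (b (l 16552424) (l 16585040))) (a (a (b (l 16643920) (c (l 16671384) (l 16679392))) (b (l 16647272) (b (l 16671664) (l 16667280)))) (b (a (l 16628576) (l 16608904)) (a (l 16614216) (l 16602368))))) (b (a (b (l 16506872) (l 16541696)) (b (l 16459144)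 (l 16495736))) (a (b (l 16535848) (c (l 16567584) (l 16599680))) (b (l 16491752) (c (l 16566488) (l 16579440))))))), by decide +kernel⟩

def k20_pp_012_a : ∃ t, chk3 f_pp_012_a t 15 2 1 = true :=
  ⟨(b (a (b (b (a (a (l 16366448) (l 16363200)) (l 16300944)) (a (a (l 16351512) (l 16345280)) (a (l 16342008) (l 16341744)))) (a (b (a (c (l 16350376) (l 16360936)) (b (l 16312728) (b (l 16333936) (l 16339992)))) (c (l 16368304) (l 16380608))) (b (a (c (l 16296600) (l 16311272)) (l 16300152)) (a (b (l 16308232) (l 16346248)) (b (c (l 16282528) (l 16320160)) (l 16322328)))))) (c (b (a (l 16308280) (l 16326096)) (a (b (l 16291256) (a (b (l 16296104) (l 16273832)) (l 16269632))) (b (l 16322520) (l 16254480)))) (b (a (l 16331136) (l 16355080)) (a (b (l 16333448) (a (b (l 16315168) (l 16313568)) (l 16311952))) (b (l 16349496) (l 16301008)))))) (b (b (a (a (l 16389416) (a (l 16374072) (l 16350240))) (a (a (l 16306048) (b (c (l 16267296) (l 16309104)) (l 16314120))) (a (b (a (b (l 16289712) (l 16266480)) (l 16288856))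 (c (l 16262832) (l 16306648))) (a (b (l 16291864) (b (l 16282896) (l 16242400))) (c (l 16255368) (l 16302432)))))) (a (a (l 16448224) (l 16337736)) (a (c (l 16344608) (l 16364632)) (a (l 16280360) (c (l 16249544) (l 16316264)))))) (a (a (b (l 16445592) (c (l 16520792) (l 16535752))) (b (c (l 16432424) (l 16449584)) (c (l 16473888) (l 16491080)))) (a (b (c (l 16384816) (l 16404808)) (a (l 16447552) (l 16425488))) (b (c (l 16341528) (l 16364968)) (c (l 16384128) (l 16407048))))))), by decide +kernel⟩

def k21_pp_012_a : ∃ t, chk3 f_pp_012_a t 14 12 1 = true :=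
  ⟨(a (b (a (b (a (a (l 16702720) (l 16695488)) (l 16663072)) (b (a (a (l 113447403991) (l 16707712)) (l 16696672)) (a (a (l 123111096663) (l 116131760199)) (a (l 16708832) (l 16701424))))) (a (b (l 16667728) (a (l 16689352) (l 16681256))) (b (l 16650296) (l 16647592)))) (a (b (c (a (b (l 113447440807) (l 3)) (b (l 122574200551) (l 130627281671))) (a (l 133311669127) (a (l 131164173143) (l 129016674167)))) (l 3)) (a (c (a (b (l 16701608) (l 120963607655)) (b (l 16714736) (l 131701010039))) (a (b (l 16712480) (l 139754112855)) (b (l 16704808) (a (l 137069751495) (l 134922259879))))) (b (c (l 16681432) (l 16692768)) (a (b (l 16704832) (c (l 16708360) (l 16725088))) (b (l 16696736) (l 16706104))))))) (a (b (a (c (l 16635808) (l 16647272)) (b (l 16633432) (l 16631920))) (a (b (c (l 16684960) (l 16696776)) (c (l 16683096) (l 16695008))) (b (l 16630568) (c (l 16665240) (l 16698600))))) (c (b (b (l 16596128) (l 16595328)) (a (b (l 16646896) (l 16667232)) (b (l 16626328) (l 16647184)))) (b (l 16556736) (a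 (l 16628224) (l 16629504)))))), by decide +kernel⟩

def k22_pp_012_a : ∃ t, chk3 f_pp_012_a t 14 13 1 = true :=
  ⟨(b (a (a (l 3) (b (a (l 3) (b (a (c (l 142975322199) (l 145122829367)) (c (l 16709680) (l 132237910999))) (a (l 3) (c (l 148344034055) (l 150491541639))))) (l 3))) (b (a (a (a (b (l 16699584) (c (l 135459115271) (l 137069751911))) (c (l 16698168) (l 16704904))) (c (b (l 16701096) (l 16690120)) (l 16686944))) (a (c (l 16656288) (l 16679496)) (c (l 16647272) (l 16681440)))) (c (a (a (b (a (l 154249617303) (l 111299926823)) (l 142975327751)) (b (l 16700160) (a (l 115058026119) (l 16726928)))) (a (b (l 16682232) (l 16692616)) (b (l 16684104) (l 16673768)))) (a (a (b (a (l 155860254119) (l 142438464087)) (a (l 3) (l 162302708455))) (a (b (l 16716464) (l 148344047207)) (b (l 16728968) (l 16738952)))) (a (b (l 16715680) (l 16704888)) (l 16681224)))))) (a (l 3) (a (a (l 3) (b (c (b (a (l 148880947175) (l 117205512951)) (l 154249623671)) (b (a (l 168208291863) (b (l 148880921847) (l 161765834295)))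 (l 2981211071312790967517478975))) (l 3))) (a (b (b (a (c (l 16728464) (l 16719448)) (l 16704440)) (a (c (l 121500483479) (l 2275198392657840107769167935)) (c (l 16709040) (l 16723480)))) (b (a (l 3) (c (b (l 122037358599) (l 160155204519)) (l 2990882477869785860068917311))) (l 3))) (c (b (b (l 16684480) (l 143180499945144383)) (b (l 143278150343753791) (a (l 2410598084454982177966506047) (l 16712376)))) (b (a (l 16706720) (l 16697440)) (b (a (l 150491521511) (l 16713192)) (a (l 3097267949995948062956240959) (l 143316702006411327))))))))), by decide +kernel⟩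

def k23_pp_012_a : ∃ t, chk3 f_pp_012_a t 14 7 1 = true :=
  ⟨(b (a (l 3) (b (a (l 3) (b (a (l 3) (a (l 3) (b (c (l 2526654963138074883270197311) (l 180556318375)) (l 3)))) (l 3))) (l 3))) (l 3)), by decide +kernel⟩

def k24_pp_012_a : ∃ t, chk3 f_pp_012_a t 15 6 1 = true :=
  ⟨(a (b (a (b (a (l 16517752) (l 16516680)) (a (b (l 16612000) (l 16591256)) (b (l 16590472) (l 16570080)))) (b (a (l 16473360) (l 16471592)) (a (b (l 16568640) (l 16569624)) (c (l 16549352) (l 16565992))))) (a (b (b (a (c (l 16647808) (l 16661536)) (c (l 16626792) (l 16641120))) (a (c (a (l 16674616) (l 16664496)) (l 16661816)) (c (b (l 16643408) (l 16654632)) (l 16662816)))) (b (c (a (a (l 143036463881453695) (l 16655184)) (a (l 16655720) (l 16645656))) (a (l 16662200) (l 16663752))) (a (c (b (l 143177613710753919) (l 143271553247723647)) (b (l 16699272) (l 16704848))) (c (b (l 143175139769745663) (l 143266467977937151)) (l 143029729393950783))))) (b (a (b (c (l 16605432) (l 16620472)) (c (l 16607264) (l 16642648))) (b (c (l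 16583344) (l 16599168)) (c (l 16606544) (l 16621680)))) (a (b (c (b (l 16645504) (l 16636168)) (l 16644056)) (c (a (l 143027461595889983) (l 142964858131955967)) (l 142807765444690047))) (b (c (l 142672731598045439) (l 16644384)) (c (b (l 16626872) (l 143031516047016191)) (l 142681733882740991))))))) (b (a (b (a (l 16448696) (l 16447872)) (a (c (l 16526384) (l 16543992)) (c (l 16504488) (l 16523248)))) (b (b (l 16407080) (l 16387552)) (a (c (l 16484240) (l 16504400)) (c (l 16465544) (l 16487336))))) (a (b (a (b (l 16527000) (c (l 16584248) (l 16600184))) (b (l 16526952) (c (l 16562944) (l 16579880)))) (c (a (b (b (l 16602000) (l 16613968)) (b (l 16626000) (l 142801580633374847))) (b (l 16586952) (b (l 16605088) (l 16617288)))) (a (b (l 16623080) (l 16604192)) (b (l 16602936) (l 16626136))))) (b (a (b (l 16507744) (c (l 16543344) (l 16561528))) (b (l 16511208) (l 16482576))) (c (a (b (l 16567600) (a (l 16596752) (l 16587552))) (b (l 16549776) (a (l 16578952) (l 16570864)))) (a (b (l 16584784) (l 16587032))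 (b (l 16568392) (l 16592344)))))))), by decide +kernel⟩

def k25_pp_012_a : ∃ t, chk3 f_pp_012_a t 30 28 1 = true :=
  ⟨(b (b (a (a (c (a (l 143547874306900095) (l 16705144)) (a (l 143401914166378559) (l 16716392))) (a (l 143228053814018111) (l 143173284371660863))) (a (c (c (l 143225923507765503) (l 16674432)) (l 16683560)) (c (l 143124699639185663) (l 16663472)))) (c (a (a (a (l 2652383248378078024902164607) (l 143453866067148927)) (a (l 143450430074470655) (l 16697864))) (a (a (l 16688312) (l 16678512)) (c (l 143243996669722879) (l 16665888)))) (a (a (a (l 188072515095) (l 2294541205772052269120127039)) (l 143281723772026943)) (a (l 16689688) (l 16674992))))) (a (a (a (l 3) (b (c (l 2787782940174954150747619455) (l 197736196087)) (l 3))) (c (b (a (l 747116156665380664108613887) (l 143456820990624063)) (a (l 2865154192630370957161349375) (b (l 16718528) (l 143698507430953279)))) (b (a (l 2352569645113638101113602111) (l 16720248)) (a (l 207399877047) (l 2410598084455043819359158335))))) (a (a (c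 (b (l 143367623090520383) (l 143412153335972159)) (l 143408442493567103)) (c (b (l 143323642605568255) (l 143364805596872959)) (l 143359239328956671))) (a (c (b (l 143316289643675903) (l 143354291496288511)) (l 143287358736023807)) (c (b (l 16669848) (l 143353260682707199)) (l 143211148815302911)))))), by decide +kernel⟩

def k26_pp_012_a : ∃ t, chk3 f_pp_012_a t 30 29 1 = true :=
  ⟨(a (b (a (l 3) (a (l 3) (b (c (l 2943127202665181507700714815) (l 217600429463)) (l 3)))) (l 3)) (b (b (a (a (a (b (l 143534611476332671) (b (l 143512224999) (l 197736193799))) (c (l 16721872) (l 16736704))) (c (l 599599742256520372432127) (l 16724504))) (c (a (l 143391812355604735) (l 143386520934580479)) (l 143396828887351551))) (c (a (a (l 2962470583304560177805126975) (b (l 16729088) (l 1357016653575657738002427135))) (a (b (l 16719168) (l 600781486830078482853631)) (a (l 143598657989804287) (l 143596871272726783)))) (a (a (a (l 3) (l 199346824679)) (b (l 84456429175) (l 2420871687278208651403668735))) (a (l 16726216)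 (l 16716040))))) (a (b (a (l 3) (b (a (l 3) (l 1995329968829730121557568767)) (l 3))) (l 3)) (b (a (b (c (l 601410117299981720776447) (l 28084986535)) (a (l 1937301560040654184167075583) (c (l 602501933978794476859135) (l 16738088)))) (c (a (b (l 16729040) (l 601932967207612333600511)) (b (l 16723904) (l 143638584048828671))) (l 600111351143265923002111))) (a (b (a (l 3) (a (l 3) (l 602446593823951486070527))) (l 3)) (a (c (b (c (l 602457258440159353794303) (l 16743568)) (l 602345713159725363031807)) (l 1086217861430677550553836799)) (c (b (a (l 602144816729934355902207) (l 143656519842971903)) (c (b (l 603155640653119828963071) (l 602690725069031508291327)) (l 16747056))) (l 601964960906564929220351)))))))), by decide +kernel⟩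

def k27_pp_012_a : ∃ t, chk3 f_pp_012_a t 30 15 1 = true :=
  ⟨(b (a (l 3) (b (a (l 3) (b (a (l 3) (b (a (l 3) (b (c (l 603060812910287059382015) (l 16744832)) (l 3))) (l 3))) (l 3))) (l 3))) (l 3)), by decide +kernel⟩

def k28_pp_012_a : ∃ t, chk3 f_pp_012_a t 62 14 1 = true :=
  ⟨(c (b (b (a (b (l 142896138658267263) (l 142993651577815167)) (b (a (l 16634568) (l 16624664)) (a (l 16646848) (l 16636976)))) (a (a (b (l 16659112) (l 143434899442139391)) (b (l 16669440) (l 143319313260511359))) (b (a (l 16659160) (l 16649512)) (a (l 143198366960877695) (l 16662264))))) (b (a (a (b (l 143359789036306687) (a (l 143598726687932671) (l 143603811918545151))) (b (l 143422942214160511) (a (l 143556601627623679) (l 143495784880652415)))) (b (a (l 143300690287853695) (l 143080719224242303)) (a (c (l 143422804819886207) (l 16700056)) (c (l 16691456) (l 16691352))))) (a (b (b (c (a (l 143790247900840191) (l 143619823599648895)) (a (l 16728920) (l 16719112))) (a (a (l 143638858916479231) (l 143643119513846015))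 (a (l 143651434560520447) (l 143621404139470975)))) (a (b (a (a (l 143656244960018687) (l 143657000869232895)) (a (l 143658787570614527) (l 143661673783640319))) (b (c (a (l 143834434588459263) (l 143840550611878143)) (l 143867145040642303)) (a (a (l 603144976158201832550143) (l 143860960298565887)) (a (l 143861991080411391) (l 143864121379258623))))) (b (c (a (l 143834778155483391) (l 16729768)) (l 143686275348283519)) (b (a (l 143680777801089279) (l 143691704188371071)) (c (a (l 143857043283460351) (l 16737072)) (l 143707166086283391)))))) (b (a (b (l 143475993677414527) (c (l 143544988084322431) (l 16716584))) (b (l 143343433832022143) (l 143392568228954239))) (a (b (c (l 143593435342979199) (l 143557838649344127)) (c (a (l 143673287391035519) (l 16726408)) (l 143607591542833279))) (b (c (l 143463624220393599) (l 16714896)) (c (l 143511727879176319) (l 143471801861210239)))))))) (b (b (a (c (l 142901361370693759) (l 16651704)) (b (l 16643544) (l 16634152))) (a (b (l 143022238929666175) (l 143123325303554175))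 (b (l 16640688) (a (l 16683424) (l 16674448))))) (b (a (b (l 143223861922054271) (b (l 143299934401085567) (l 143350580667580543))) (b (c (l 143183592307048575) (l 16672984)) (a (l 16686840) (l 16678480)))) (a (a (b (l 143474825510273279) (b (l 143546293784985855) (l 601323071673950946995967))) (b (l 143375250968969343) (b (l 143628001223704703) (l 143674867919847551)))) (b (a (l 143437510796755071) (l 143301583655059583)) (a (b (l 16719504) (l 143559487900729471)) (b (l 16700968) (l 16717928)))))))), by decide +kernel⟩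

def k29_pp_012_a : ∃ t, chk3 f_pp_012_a t 63 14 1 = true :=
  ⟨(b (b (a (c (a (b (l 16615176) (l 16627720)) (l 16612808)) (b (l 16625728) (l 16637824))) (c (b (l 16594128) (l 16607384)) (b (l 16610616) (l 16623224)))) (a (c (a (b (l 16640480) (l 16653592)) (b (l 16632184) (l 16645552))) (a (l 16639160) (l 16652600))) (a (c (l 16610360) (l 16645760)) (b (l 16604064) (l 16617472))))) (b (c (a (b (a (l 16666960) (l 16659136)) (a (b (l 16677120) (l 16683960)) (l 16672880))) (a (b (l 16651840) (l 16665720)) (b (l 16645040) (l 16658872)))) (a (b (a (l 16678960) (l 16671760)) (a (l 16691784) (l 16684736))) (a (l 16650880) (l 16644768)))) (a (c (b (a (b (l 16690832) (l 16687248)) (b (l 16683280) (l 16690184))) (a (b (a (l 16706608) (l 16702744)) (c (l 16714592) (l 16713872))) (a (l 16681448) (l 16698688)))) (b (a (l 16683760) (l 16697800)) (a (b (l 16714504) (l 16700000)) (l 16689736)))) (a (b (c (l 16679520) (l 16691240)) (c (l 16672176) (l 16703968))) (b (c (l 16672544) (l 16684984)) (l 6)))))), by decide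 +kernel⟩

def k30_pp_012_a : ∃ t, chk3 f_pp_012_a t 124 120 1 = true :=
  ⟨(c (c (b (a (b (a (a (l 603381325058193749094143) (l 603122782412228767739647)) (c (l 143853057571487999) (l 16748224))) (a (a (l 602901997957015829769983) (b (l 16749576) (l 603509299359223886163711))) (c (a (l 16752416) (l 16750016)) (l 603066865738428081827583)))) (a (b (c (l 16743616) (l 16743472)) (c (c (l 143866457868583167) (l 16745576)) (l 16746904))) (b (l 143875734984048767) (c (l 16742288) (l 16742296))))) (a (a (a (l 3) (b (l 602951285363020085620479) (l 3))) (a (c (b (b (l 16753704) (l 603534375408889763409663)) (c (l 264149537863362872260369983) (l 16755664))) (l 621990762327145207609110271)) (b (c (c (l 16752424) (l 16752608)) (l 16753880)) (c (b (l 603442141696011637337855) (a (l 603649811916224927096383) (l 16755960))) (l 603566080770813579112191))))) (a (b (c (a (l 143877109395259647) (l 16748440)) (l 143890303538577663)) (c (a (a (l 603332037697200767135487) (l 143887692200640767)) (a (l 16752536) (l 16751048)))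 (a (l 16754968) (l 16752648)))) (b (c (l 143887692184125567) (l 16748376)) (c (a (l 143894907737391231) (l 16747040)) (l 143909338831339647)))))) (a (a (b (l 602800540894709548789503) (l 10905147063)) (b (l 602231574127788019068671) (c (l 157763196290137142189403903) (l 602932262206641298124543)))) (b (a (l 143896075942871295) (l 143905971538182271)) (a (b (l 16747752) (l 602500493096706406149887)) (b (l 16743216) (l 143927549471195263)))))) (a (b (l 602047971273313462628095) (a (l 1579460036249680572399333119) (l 602447170364349684264703))) (b (l 143721116151529599) (a (l 601805569531917679849215) (l 143742006891888767))))), by decide +kernel⟩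

def k31_pp_012_a : ∃ t, chk3 f_pp_012_a t 124 242 1 = true :=
  ⟨(a (a (l 3) (b (c (c (c (a (l 3) (b (b (l 603693622933399983316543) (l 603755304233896451300927)) (l 16757192))) (l 603179131711969180294719)) (l 16758832)) (l 16758704)) (l 3))) (c (c (b (a (a (c (b (c (l 603487682105957691928319) (l 16756344)) (c (a (l 603692181781519228902975) (l 16757368)) (l 603660043881410497998591))) (l 331849296860115545007861503)) (c (c (b (l 16753200) (l 603394583702981902970623)) (l 16756200)) (l 603369507671045664255743))) (c (a (c (l 143901710971961471) (l 16753904)) (l 143909270110584959)) (a (l 16753832) (l 16751576)))) (c (a (a (a (l 603880396217146298424895) (b (b (l 603703134535812995096127) (l 603769139291951734791743)) (l 16757848))) (c (b (c (l 603540716507401674452735) (l 16757584)) (a (a (l 603776633281731682098751) (l 603726192965905133788735)) (l 603638138381756500930303))) (b (l 16757520) (l 603718266430999601245951)))) (a (c (b (l 143909063961411711) (c (l 603449635717471265779327) (l 16757712)))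 (l 603399195405767885041279)) (b (l 143916416938901631) (l 143921227308580991)))) (a (b (l 167434726209666232365018879) (l 603099435822816439561983)) (a (b (l 16756440) (l 16758176)) (l 16756368))))) (b (a (l 602838010878381339537151) (l 143936895337726079)) (a (l 603146993856321951969023) (c (l 603340108200578287267455) (l 16754232))))) (a (l 602494440163699474345727) (l 601894344482274853105279)))), by decide +kernel⟩

def k32_pp_012_a : ∃ t, chk3 f_pp_012_a t 124 243 1 = true :=
  ⟨(a (l 3) (a (b (b (c (c (c (a (l 3) (c (a (l 3) (b (l 603748386704868816199231) (l 603812950309126799351359))) (l 603849843797274217487935))) (l 603226689724034215747135)) (l 16760208)) (l 16758488)) (l 3)) (l 3)) (c (a (c (c (b (c (b (c (a (l 603662061508680810458751) (l 16757872)) (l 603613350578615864094335)) (a (b (c (l 603771445134960953368127) (l 16758744)) (l 603842349807494275210815)) (c (l 603692613935630999301759) (l 16759376)))) (b (l 16759408) (c (l 603771300832993341664895) (l 603784559432838942502527))))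 (a (l 3) (c (b (b (c (l 603801421094080732683839) (l 16760032)) (l 603871749305861751119423)) (l 3)) (l 603923342543192907144767)))) (b (b (l 603668114361698283138687) (l 14126378967)) (l 16760160))) (l 380205932463120535311167103)) (b (c (c (c (b (l 143923357615194239) (a (l 603577321788537565703807) (l 16756928))) (b (l 16756488) (l 16759568))) (b (l 16757672) (l 16759416))) (l 16755696)) (c (b (c (c (c (a (l 603723166362581187505791) (l 16759168)) (l 603674743663029832478335)) (l 603692902180575682178687)) (l 603729795676488397778559)) (c (a (a (l 603908066333256867192383) (b (l 603826497136805935193663) (l 603894807735953889615423))) (c (c (l 603754295250421118774911) (l 16760664)) (l 16761224))) (l 15200123111))) (l 20568831191)))) (l 602472822888168159784575)))), by decide +kernel⟩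

def k33_pp_012_a : ∃ t, chk3 f_pp_012_a t 124 61 1 = true :=
  ⟨(b (a (l 3) (b (a (l 3) (a (l 3) (a (l 3) (c (c (c (b (b (a (l 603938042292376645180991) (b (l 603857626017430321061439) (l 16761440))) (l 3)) (l 3)) (l 603384928200541512375871)) (l 16763408)) (l 16762648))))) (l 3))) (l 3)), by decide +kernel⟩

def k34_pp_012_a : ∃ t, chk3 f_pp_012_a t 124 31 1 = true :=
  ⟨(l 3), by decide +kernel⟩

def k35_pp_012_a : ∃ t, chk3 f_pp_012_a t 125 60 1 = true :=
  ⟨(b (c (a (b (c (a (b (l 16736024) (l 143896556978045055)) (l 143657550636171391)) (a (l 16731104) (l 16734696))) (c (a (b (c (l 16741136) (l 16741296)) (c (l 143907895709630591) (l 16744776))) (b (l 16738656) (l 143717267874037887))) (a (l 143739807848284287) (l 143673630983471231)))) (b (c (a (l 16730464) (l 16722400)) (l 143521554754895999)) (a (b (l 143610409048932479) (l 143635079348158591)) (l 143555639621124223)))) (a (b (l 143607316691239039) (c (l 143676585933045887) (l 16740840))) (b (l 143476131172384895) (l 143526365123100799))))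 (b (a (a (c (c (b (a (c (l 16748984) (l 16749360)) (l 143926862291943551)) (a (c (c (l 16751792) (l 16751616)) (l 16752840)) (c (l 16750312) (l 16750656)))) (b (l 16745616) (l 143957236300841087))) (l 143732935925465215)) (c (c (b (c (l 16744168) (l 16743944)) (c (l 143938888199192703) (l 16750048))) (l 143723315184484479)) (l 143674043325481087))) (c (a (c (b (l 16741440) (l 143700981347614847)) (l 143656451119710335)) (a (l 143622572407619711) (l 143589449615605887))) (l 143577148840247423))) (a (a (c (c (b (a (c (c (b (l 16753472) (l 16755744)) (l 16756456)) (l 143944935524106367)) (c (c (l 16753136) (l 16752944)) (l 16754144))) (a (c (b (c (l 143937994866425983) (l 16757792)) (c (a (l 16759688) (l 16758248)) (l 16760864))) (b (l 16758944) (l 16758064))) (c (b (l 16756184) (l 143950707969491071)) (l 143959847647838335)))) (b (l 143965963681366143) (a (l 16756912) (l 16754752)))) (l 601993783953938299924095)) (c (c (b (a (c (l 16751672) (l 16751976)) (l 143953250560426111)) (a (c (c (l 16754808)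 (l 16754272)) (l 16755448)) (c (l 16753008) (l 16753280)))) (b (l 16746848) (l 143786056089436287))) (l 143722215691829375))) (a (c (c (b (c (l 16746264) (l 16746624)) (a (l 143946035028787327) (l 6))) (l 143707647149015167)) (l 143661467666055295)) (l 6))))), by decide +kernel⟩

def k36_pp_012_a : ∃ t, chk3 f_pp_012_a t 125 61 1 = true :=
  ⟨(b (a (b (c (b (c (a (c (a (c (b (a (c (l 603785424138261050715775) (l 16761320)) (l 16760680)) (a (c (l 603921901391312151699007) (l 16761720)) (c (l 603815976565279957741183) (l 16761968)))) (b (l 603755159956324264160895) (l 254478321394222230522719871))) (b (c (l 16759168) (l 16759096)) (c (a (l 16760672) (l 16759552)) (l 16762152)))) (a (c (l 409220021565687091923594879) (l 22179445527)) (b (l 16760224) (l 16759328)))) (a (c (b (l 16757168) (l 143965001623306367)) (l 143974347460018303)) (l 6))) (a (l 515605462562737498100739711) (l 143811551022153855))) (a (c (b (c (a (a (l 3) (l 603971765246386398207551)) (c (a (c (l 16762576) (l 16762600)) (l 16761304))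 (l 603815400119027467251327))) (l 215791997360829307836182143)) (a (l 3) (a (l 604027681939359830990399) (l 6)))) (l 603363166510342640709247)) (l 6))) (a (l 602824175709825152724607) (l 602092935195019437895295))) (a (a (l 3) (l 6)) (l 6))) (l 6)) (l 6)), by decide +kernel⟩

def k37_pp_012_a : ∃ t, chk3 f_pp_012_a t 125 31 1 = true :=
  ⟨(l 6), by decide +kernel⟩

def k38_pp_012_a : ∃ t, chk3 f_pp_012_a t 63 15 1 = true :=
  ⟨(b (a (b (b (a (a (c (b (l 16709968) (l 143487950928281727)) (l 143394561148502143)) (c (b (l 16716536) (l 6)) (l 16707832))) (a (a (b (l 16697208) (l 6)) (l 6)) (l 6))) (l 6)) (l 6)) (l 6)) (l 6)), by decide +kernel⟩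

theorem s39_pp_012_a : ∃ t, chk3 f_pp_012_a t 125 30 1 = true := ex3_b k35_pp_012_a k36_pp_012_a

theorem s40_pp_012_a : ∃ t, chk3 f_pp_012_a t 125 15 1 = true := ex3_b s39_pp_012_a k37_pp_012_a

theorem s41_pp_012_a : ∃ t, chk3 f_pp_012_a t 124 121 1 = true := ex3_b k31_pp_012_a k32_pp_012_a

theorem s42_pp_012_a : ∃ t, chk3 f_pp_012_a t 124 60 1 = true := ex3_b k30_pp_012_a s41_pp_012_a

theorem s43_pp_012_a : ∃ t, chk3 f_pp_012_a t 124 30 1 = true := ex3_b s42_pp_012_a k33_pp_012_a

theorem s44_pp_012_a : ∃ t, chk3 f_pp_012_a t 124 15 1 = true := ex3_b s43_pp_012_a k34_pp_012_a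

theorem s45_pp_012_a : ∃ t, chk3 f_pp_012_a t 62 15 1 = true := ex3_a s44_pp_012_a s40_pp_012_a

theorem s46_pp_012_a : ∃ t, chk3 f_pp_012_a t 31 15 1 = true := ex3_a s45_pp_012_a k38_pp_012_a

theorem s47_pp_012_a : ∃ t, chk3 f_pp_012_a t 31 14 1 = true := ex3_a k28_pp_012_a k29_pp_012_a

theorem s48_pp_012_a : ∃ t, chk3 f_pp_012_a t 31 7 1 = true := ex3_b s47_pp_012_a s46_pp_012_a

theorem s49_pp_012_a : ∃ t, chk3 f_pp_012_a t 30 14 1 = true := ex3_b k25_pp_012_a k26_pp_012_a

theorem s50_pp_012_a : ∃ t, chk3 f_pp_012_a t 30 7 1 = true := ex3_b s49_pp_012_a k27_pp_012_a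

theorem s51_pp_012_a : ∃ t, chk3 f_pp_012_a t 15 7 1 = true := ex3_a s50_pp_012_a s48_pp_012_a

theorem s52_pp_012_a : ∃ t, chk3 f_pp_012_a t 15 3 1 = true := ex3_b k24_pp_012_a s51_pp_012_a

theorem s53_pp_012_a : ∃ t, chk3 f_pp_012_a t 14 6 1 = true := ex3_b k21_pp_012_a k22_pp_012_a

theorem s54_pp_012_a : ∃ t, chk3 f_pp_012_a t 14 3 1 = true := ex3_b s53_pp_012_a k23_pp_012_a

theorem s55_pp_012_a : ∃ t, chk3 f_pp_012_a t 7 3 1 = true := ex3_a s54_pp_012_a s52_pp_012_a

theorem s56_pp_012_a : ∃ t, chk3 f_pp_012_a t 7 2 1 = true := ex3_a k19_pp_012_a k20_pp_012_a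

theorem s57_pp_012_a : ∃ t, chk3 f_pp_012_a t 7 1 1 = true := ex3_b s56_pp_012_a s55_pp_012_a

theorem s58_pp_012_a : ∃ t, chk3 f_pp_012_a t 12 9 1 = true := ex3_b k14_pp_012_a k15_pp_012_a

theorem s59_pp_012_a : ∃ t, chk3 f_pp_012_a t 6 9 1 = true := ex3_a s58_pp_012_a k16_pp_012_a

theorem s60_pp_012_a : ∃ t, chk3 f_pp_012_a t 6 4 1 = true := ex3_b k13_pp_012_a s59_pp_012_a

theorem s61_pp_012_a : ∃ t, chk3 f_pp_012_a t 6 2 1 = true := ex3_b s60_pp_012_a k17_pp_012_a

theorem s62_pp_012_a : ∃ t, chk3 f_pp_012_a t 6 1 1 = true := ex3_b s61_pp_012_a k18_pp_012_a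

theorem s63_pp_012_a : ∃ t, chk3 f_pp_012_a t 3 1 1 = true := ex3_a s62_pp_012_a s57_pp_012_a

theorem s64_pp_012_a : ∃ t, chk3 f_pp_012_a t 23 17 1 = true := ex3_b k8_pp_012_a k9_pp_012_a

theorem s65_pp_012_a : ∃ t, chk3 f_pp_012_a t 23 8 1 = true := ex3_b k7_pp_012_a s64_pp_012_a

theorem s66_pp_012_a : ∃ t, chk3 f_pp_012_a t 23 4 1 = true := ex3_b s65_pp_012_a k10_pp_012_a

theorem s67_pp_012_a : ∃ t, chk3 f_pp_012_a t 45 16 1 = true := ex3_a k3_pp_012_a k4_pp_012_a

theorem s68_pp_012_a : ∃ t, chk3 f_pp_012_a t 22 16 1 = true := ex3_a k2_pp_012_a s67_pp_012_a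

theorem s69_pp_012_a : ∃ t, chk3 f_pp_012_a t 22 8 1 = true := ex3_b s68_pp_012_a k5_pp_012_a

theorem s70_pp_012_a : ∃ t, chk3 f_pp_012_a t 22 4 1 = true := ex3_b s69_pp_012_a k6_pp_012_a

theorem s71_pp_012_a : ∃ t, chk3 f_pp_012_a t 11 4 1 = true := ex3_a s70_pp_012_a s66_pp_012_a

theorem s72_pp_012_a : ∃ t, chk3 f_pp_012_a t 11 2 1 = true := ex3_b s71_pp_012_a k11_pp_012_a

theorem s73_pp_012_a : ∃ t, chk3 f_pp_012_a t 5 2 1 = true := ex3_a k1_pp_012_a s72_pp_012_a

theorem s74_pp_012_a : ∃ t, chk3 f_pp_012_a t 5 1 1 = true := ex3_b s73_pp_012_a k12_pp_012_a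

theorem s75_pp_012_a : ∃ t, chk3 f_pp_012_a t 2 1 1 = true := ex3_a k0_pp_012_a s74_pp_012_a

theorem s76_pp_012_a : ∃ t, chk3 f_pp_012_a t 1 1 1 = true := ex3_a s75_pp_012_a s63_pp_012_a

theorem c_pp_012_a : CertB 0 536870912 0 536870912 991146299 28908434 3 eng mog cd0q0 cd1q2a pd1 false true true .pnp 0 1 2
    ndB0q0 ndB1q2a pcB1 cut_pp_012_a xt_pp_012_a :=
  certB2 (fam := false) (s1 := true) (s2 := true) (a := 0) (b := 1) (c := 2) (cn := .pnp) (n1 := ndB0q0) (n2 := ndB1q2a) (pc := pcB1) (cut := cut_pp_012_a) (xt := xt_pp_012_a) (P1 := 0) (W1 := 536870912) (P2 := 0) (W2 := 536870912) (P3 := 991146299) (W3 := 28908434) (N0 := 3) (En := eng) (mo := mog) (C1 := cd0q0) (C2 := cd1q2a) (C3 := pd1)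
    rfl (fun _ => rfl) s76_pp_012_a

noncomputable def cut_pp_012_b : Cut := Cut.of [[⟨0, 0, 0, 53687091⟩, ⟨1, 1, 0, 53687091⟩, ⟨2, 1, 0, 53687091⟩]]

noncomputable def f_pp_012_b : ℕ → ℕ → ℕ → ℕ → Bool := onCell 536870912 536870912 1239849684 370763052 991146299 28908434
    (rowB 3 eng mog cd0q0 cd1q2b pd1 2 false true true .pnp 0 1 2 (qsf 0 536870912 1239849684 370763052 1) ndB0q0 ndB1q2b pcB1 cut_pp_012_b Ext.none)

def k0_pp_012_b : ∃ t, chk3 f_pp_012_b t 4 2 1 = true :=
  ⟨(l 2), by decide +kernel⟩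

def k1_pp_012_b : ∃ t, chk3 f_pp_012_b t 10 2 1 = true :=
  ⟨(l 3), by decide +kernel⟩

def k2_pp_012_b : ∃ t, chk3 f_pp_012_b t 11 4 1 = true :=
  ⟨(b (a (a (b (a (l 3) (a (b (a (l 3) (b (b (a (l 3) (c (l 137606693255) (c (l 137606693575) (l 137606693655)))) (l 3)) (l 3))) (l 3)) (b (a (b (c (b (b (l 16763176) (l 16755400)) (a (l 16756784) (l 16757224))) (b (c (l 16756768) (l 16756832)) (a (l 16757248) (l 16757528)))) (c (l 138143529159) (l 139217272311))) (b (c (l 16750664) (b (l 16763344) (l 16758488))) (c (b (l 16753432) (l 16748552)) (b (l 16753672) (l 16749088))))) (b (c (l 139217268471) (l 139217253815)) (l 3))))) (l 3)) (c (b (a (b (a (b (l 16753200) (l 16732528)) (l 16743216)) (a (b (l 16743400) (l 16733872)) (l 16720512))) (b (c (l 16740640) (l 16741200)) (l 16724456))) (a (b (a (l 133848487335) (l 16721840)) (l 132774707799)) (b (l 16704720) (l 16706280)))) (b (a (b (a (b (a (l 16741168) (l 16763224)) (l 16732120)) (b (l 16764592) (l 16755120))) (a (b (l 16722680) (l 16734744)) (l 16719992)))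 (b (c (l 16741672) (l 16740080)) (l 16722256))) (a (b (a (l 134385361879) (l 16722744)) (l 132774711575)) (b (l 16724840) (l 16706944)))))) (a (c (b (a (b (l 16753280) (l 16748824)) (l 16727344)) (a (l 16683336) (l 16722168))) (b (a (b (l 16755496) (l 16744560)) (l 16730272)) (a (b (l 16726376) (l 16708544)) (l 16717168)))) (a (b (b (l 16740288) (l 16745656)) (c (l 16722256) (l 16715040))) (b (l 16695216) (l 16694856))))) (a (a (l 3) (b (a (l 3) (b (a (l 16688592) (l 16689008)) (l 123110947239))) (l 2))) (a (b (a (b (l 16670216) (l 16673192)) (b (l 16692600) (l 16674848))) (a (b (l 16656176) (l 2)) (b (l 16657304) (l 16640008)))) (b (a (l 16641312) (l 16659832)) (a (l 16648816) (l 16646912)))))), by decide +kernel⟩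

def k3_pp_012_b : ∃ t, chk3 f_pp_012_b t 11 5 1 = true :=
  ⟨(a (l 2) (b (a (l 2) (b (a (l 16615240) (l 16614016)) (l 2))) (l 2))), by decide +kernel⟩

def k4_pp_012_b : ∃ t, chk3 f_pp_012_b t 2 3 1 = true :=
  ⟨(l 2), by decide +kernel⟩

def k5_pp_012_b : ∃ t, chk3 f_pp_012_b t 6 1 1 = true :=
  ⟨(b (a (b (a (b (a (b (a (l 16711104) (l 16727800)) (c (l 16714016) (l 16701976))) (b (l 16680944) (l 16658208))) (a (b (a (l 16655424) (l 16649120)) (a (l 16642960) (l 16636992))) (b (l 16615240) (l 16582472)))) (b (b (a (l 16705040) (l 16676104)) (a (l 16668344) (l 16638592))) (a (b (l 16612744) (l 16601040)) (b (l 16603464) (l 16570552))))) (a (b (a (b (l 16587200) (l 16577088)) (b (l 16593112) (l 16563088))) (l 2)) (b (a (b (l 16570128) (l 16540760)) (b (l 16539656) (l 16510576))) (b (a (l 16512720) (l 16483080)) (l 153644935175))))) (b (a (b (b (a (l 16641344) (l 16580312)) (l 16478000)) (b (l 16441584) (l 16407728))) (b (b (a (l 16556544) (l 16507808)) (a (l 16515120) (l 16464576))) (c (l 16337320)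 (l 16319568)))) (a (b (a (l 16445672) (l 16443528)) (a (l 16411920) (l 16388496))) (b (a (l 16393496) (l 16338240)) (a (l 16337488) (l 16280616)))))) (a (l 2) (b (a (b (a (l 16384160) (l 16340400)) (l 2)) (b (a (l 16289304) (l 16231712)) (l 226121923911))) (l 2)))), by decide +kernel⟩

def k6_pp_012_b : ∃ t, chk3 f_pp_012_b t 7 1 1 = true :=
  ⟨(b (a (b (a (a (b (b (l 16434888) (l 16410576)) (l 16265584)) (b (b (a (l 16417360) (l 16397568)) (l 16294472)) (b (l 16311448) (l 16269728)))) (b (a (b (c (l 16373656) (l 16374888)) (l 16319200)) (b (c (l 16349336) (l 16355544)) (l 16293864))) (a (b (l 16267688) (l 16220328)) (b (l 16238952) (l 16187360))))) (a (b (b (l 16264224) (l 16230928)) (l 16102640)) (b (a (l 16114408) (l 16115936)) (a (l 16085024) (l 16031384))))) (b (b (a (a (b (c (l 16335864) (l 16347472)) (l 16279648)) (b (c (l 16333640) (l 16350920)) (l 16276880))) (a (b (c (l 16342960) (l 16366296)) (l 16285880)) (b (c (l 16364200) (l 16394008)) (l 16286064)))) (a (a (b (l 16221416) (l 16166576))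 (b (l 16215376) (l 16157352))) (a (b (l 16221168) (l 16160008)) (b (l 16239136) (l 16174888))))) (b (a (a (l 16090408) (l 16076536)) (b (l 16023208) (l 16050968))) (a (a (l 15998504) (l 15978760)) (a (l 15971112) (l 15975872)))))) (a (b (a (b (l 16030392) (a (l 16126032) (l 16056880))) (b (a (l 16029128) (l 15961280)) (l 15903424))) (a (l 2) (b (l 15907352) (l 2)))) (b (a (b (l 15902592) (a (l 15845432) (l 15811736))) (b (l 15876720) (l 15789856))) (a (b (a (l 15791592) (l 15740432)) (l 15615368)) (b (l 15710256) (l 15636232)))))), by decide +kernel⟩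

theorem s7_pp_012_b : ∃ t, chk3 f_pp_012_b t 3 1 1 = true := ex3_a k5_pp_012_b k6_pp_012_b

theorem s8_pp_012_b : ∃ t, chk3 f_pp_012_b t 11 2 1 = true := ex3_b k2_pp_012_b k3_pp_012_b

theorem s9_pp_012_b : ∃ t, chk3 f_pp_012_b t 5 2 1 = true := ex3_a k1_pp_012_b s8_pp_012_b

theorem s10_pp_012_b : ∃ t, chk3 f_pp_012_b t 2 2 1 = true := ex3_a k0_pp_012_b s9_pp_012_b

theorem s11_pp_012_b : ∃ t, chk3 f_pp_012_b t 2 1 1 = true := ex3_b s10_pp_012_b k4_pp_012_b

theorem s12_pp_012_b : ∃ t, chk3 f_pp_012_b t 1 1 1 = true := ex3_a s11_pp_012_b s7_pp_012_b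

theorem c_pp_012_b : CertB 0 536870912 1239849684 370763052 991146299 28908434 3 eng mog cd0q0 cd1q2b pd1 false true true .pnp 0 1 2
    ndB0q0 ndB1q2b pcB1 cut_pp_012_b Ext.none :=
  certB2 (fam := false) (s1 := true) (s2 := true) (a := 0) (b := 1) (c := 2) (cn := .pnp) (n1 := ndB0q0) (n2 := ndB1q2b) (pc := pcB1) (cut := cut_pp_012_b) (xt := Ext.none) (P1 := 0) (W1 := 536870912) (P2 := 1239849684) (W2 := 370763052) (P3 := 991146299) (W3 := 28908434) (N0 := 3) (En := eng) (mo := mog) (C1 := cd0q0) (C2 := cd1q2b) (C3 := pd1)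
    rfl (fun _ => rfl) s12_pp_012_b

noncomputable def cut_pp_022_a : Cut := Cut.of [[⟨0, 0, 0, 53687091⟩, ⟨1, 1, 0, 53687091⟩, ⟨2, 1, 0, 53687091⟩]]

noncomputable def f_pp_022_a : ℕ → ℕ → ℕ → ℕ → Bool := onCell 1073741824 536870912 0 536870912 991146299 28908434
    (rowB 3 eng mog cd0q0 cd1q2a pd2 2 false true true .pp 0 2 2 (qsf 0 536870912 0 536870912 2) ndB0q0 ndB1q2a pcB2 cut_pp_022_a Ext.none)

def k0_pp_022_a : ∃ t, chk3 f_pp_022_a t 8 2 1 = true :=
  ⟨(b (a (a (b (c (a (l 16382192) (l 16410912)) (c (l 16378912) (l 16307376))) (c (b (l 16410904) (b (l 16448936) (l 16439216))) (a (b (l 16393232) (l 16421976)) (l 16269072)))) (c (c (b (l 16483608) (l 16522760)) (b (l 16421944) (l 16465792))) (b (l 16282232) (c (l 16406224) (l 16344128))))) (c (b (a (l 16403168) (l 16393728)) (c (l 16384272) (l 16353440))) (b (a (l 16303816) (l 16282736)) (a (l 16306592) (l 16320584))))) (a (b (c (a (b (c (l 16567832) (l 16490560)) (a (l 16509496) (l 16532160))) (c (l 16539072) (l 16444456))) (a (b (c (l 16473528)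 (l 16411944)) (a (l 16395432) (l 16462480))) (b (l 16391248) (l 16373456)))) (a (c (b (a (l 16512736) (l 16533728)) (a (b (l 16514168) (l 16510072)) (l 16536160))) (b (c (l 16485328) (l 16471104)) (c (l 16492624) (l 16460264)))) (c (b (l 16480200) (l 16500864)) (b (l 16377056) (c (l 16511720) (l 16460576)))))) (b (c (a (c (l 16518472) (l 16468560)) (l 16347152)) (a (c (l 16416552) (l 16362464)) (b (l 16346816) (l 16362912)))) (c (a (c (l 16508312) (l 16399272)) (a (l 16426864) (l 16442744))) (a (b (l 16358552) (l 16358168)) (b (l 16378584) (l 16394096))))))), by decide +kernel⟩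

def k1_pp_022_a : ∃ t, chk3 f_pp_022_a t 8 6 1 = true :=
  ⟨(c (a (b (a (b (a (a (l 16521856) (l 16530024)) (l 16542176)) (a (b (l 16521472) (l 16519072)) (l 16517160))) (b (c (l 16580312) (l 16563352)) (a (l 16577448) (l 16593872)))) (b (a (a (b (l 16537992) (l 16536168)) (l 16536712)) (a (l 16578328) (l 16594496))) (a (b (a (b (l 16556152) (l 16539600)) (l 16538608)) (a (l 16535528) (l 16580832))) (b (b (l 16570936) (l 16553568)) (l 16580576))))) (b (a (b (c (l 16573944) (l 16530888)) (c (l 16589248) (l 16527440))) (b (l 16431232) (l 16443320))) (b (a (b (l 16524536) (l 16507488)) (b (l 16474776) (l 16462144))) (a (b (a (l 16555368) (l 16542416)) (l 16512792)) (b (b (l 16469216) (l 16442832)) (a (l 16506264) (l 16443368))))))) (a (b (a (b (a (l 16467080) (l 16485904)) (a (l 16522656) (l 16497768))) (b (c (l 16495776) (l 16489304)) (c (l 16522240) (l 16497696)))) (b (a (a (l 16539368) (l 16531880)) (a (l 16523392) (l 16513352))) (a (b (a (l 16588336) (l 16557664)) (c (l 16637712) (l 16579008))) (b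 (a (l 16546408) (l 16513168)) (l 16508040))))) (b (a (b (a (l 16476336) (l 16450360)) (a (l 16499664) (l 16469768))) (b (l 16366752) (l 16340936))) (a (b (b (l 16459432) (l 16429440)) (b (a (l 16500968) (l 16468016)) (l 16441288))) (b (b (l 16417768) (l 16365752)) (b (a (l 16456864) (l 16425480)) (a (l 16415096) (b (l 16430504) (l 16444048))))))))), by decide +kernel⟩

def k2_pp_022_a : ∃ t, chk3 f_pp_022_a t 8 7 1 = true :=
  ⟨(a (b (b (a (a (b (c (b (l 16574168) (l 16586216)) (l 16638624)) (c (b (l 16598488) (l 16610672)) (a (l 16651768) (l 16630496)))) (c (b (l 16586832) (l 16613616)) (b (l 16600120) (l 16578064)))) (c (b (b (l 16572224) (l 16566560)) (a (l 16599216) (l 16581488))) (b (a (l 16562232) (l 16546248)) (a (l 16558120) (l 16518832))))) (b (a (a (c (b (l 16622792) (c (l 16642344) (l 16669392))) (c (l 16658080) (l 16630672))) (c (l 16632816) (b (l 16598912) (l 16599416)))) (c (a (l 16590656) (l 16549880)) (a (b (l 16577048) (l 16576160)) (b (l 16556840) (l 16533696))))) (l 6))) (l 6)) (a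 (b (b (c (b (b (l 16522592) (l 16515312)) (a (l 16543992) (l 16507680))) (b (a (l 16510712) (l 16476440)) (a (l 16481032) (c (l 16502744) (l 16470280))))) (b (c (a (b (l 16576472) (l 16549472)) (b (l 16538880) (l 16511008))) (a (b (l 16517296) (l 16492968)) (c (l 16450032) (l 16440984)))) (l 6))) (l 6)) (b (a (b (b (c (l 16510072) (l 16443424)) (c (b (l 16518592) (l 16510488)) (c (l 16467776) (l 16435448)))) (b (c (c (l 16507536) (l 16484400)) (b (c (l 16458232) (l 16427568)) (a (l 16446776) (l 16428528)))) (a (a (l 6) (l 1)) (l 1)))) (b (c (b (l 16477456) (b (l 16484968) (l 16476184))) (b (l 16369704) (b (l 16421760) (l 16414848)))) (a (b (c (l 16472080) (l 16413680)) (l 1)) (l 1)))) (l 1)))), by decide +kernel⟩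

def k3_pp_022_a : ∃ t, chk3 f_pp_022_a t 9 1 1 = true :=
  ⟨(b (c (b (a (b (a (l 16362256) (l 16327992)) (a (l 16387072) (l 16345480))) (a (b (l 16290464) (l 16302496)) (l 16257056))) (a (b (a (l 16364272) (l 16357664)) (a (b (l 16418760) (l 16426128)) (l 16283280))) (b (a (l 16308800) (l 16263328)) (a (l 16314120) (l 16264912))))) (b (a (a (b (l 16261320) (l 16291688)) (b (l 16237664) (l 16259032))) (a (b (l 16211264) (l 16225600)) (l 16190152))) (a (b (a (l 16273840) (l 16274664)) (a (b (l 16332120) (l 16342144)) (b (l 16284648) (l 16291336)))) (b (a (l 16233880) (l 16197424)) (a (l 16241632) (l 16200152)))))) (b (b (b (a (a (c (l 16434224) (l 16353240)) (c (l 16375904) (l 16300088))) (c (a (l 16320968) (l 16269264)) (a (l 16251144) (l 16206232)))) (a (a (c (l 16401976) (l 16324464)) (c (l 16342624) (l 16227848))) (a (a (c (l 16342040) (l 16273208)) (a (l 270078692119) (l 16296792))) (l 1)))) (a (a (a (b (c (l 16451968) (l 16377760)) (b (c (l 16486248) (l 16394912)) (c (b (l 16469416) (l 16481520))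 (c (l 16414648) (l 16400728))))) (b (c (l 16441936) (l 16306704)) (b (c (l 16454808) (l 16365176)) (c (c (l 16471752) (l 16439696)) (b (c (l 16410352) (l 16376008)) (l 16386216)))))) (a (b (c (l 16411624) (b (l 16336896) (l 16346328))) (b (c (l 16424048) (l 16357272)) (l 1))) (b (c (l 16382032) (l 292090421607)) (l 1)))) (a (a (b (c (l 16353192) (l 16287640)) (l 1)) (l 1)) (l 1)))) (a (b (b (a (a (c (b (l 16445840) (l 16447728)) (b (c (l 16418608) (l 16385256)) (b (l 16390064) (l 1)))) (b (c (l 16436176) (l 16372688)) (l 1))) (l 1)) (l 1)) (l 1)) (l 1)))), by decide +kernel⟩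

def k4_pp_022_a : ∃ t, chk3 f_pp_022_a t 5 1 1 = true :=
  ⟨(b (a (b (b (a (c (l 16208192) (l 16161200)) (l 1)) (a (c (l 16206832) (l 16157984)) (l 1))) (a (a (b (c (l 16221552) (l 16165640)) (c (l 16219232) (l 16163080))) (b (c (l 16183664) (l 16138712)) (l 1))) (l 1))) (l 1)) (b (l 1) (l 1))), by decide +kernel⟩

def k5_pp_022_a : ∃ t, chk3 f_pp_022_a t 3 1 1 = true :=
  ⟨(l 1), by decide +kernel⟩

theorem s6_pp_022_a : ∃ t, chk3 f_pp_022_a t 8 3 1 = true := ex3_b k1_pp_022_a k2_pp_022_a

theorem s7_pp_022_a : ∃ t, chk3 f_pp_022_a t 8 1 1 = true := ex3_b k0_pp_022_a s6_pp_022_a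

theorem s8_pp_022_a : ∃ t, chk3 f_pp_022_a t 4 1 1 = true := ex3_a s7_pp_022_a k3_pp_022_a

theorem s9_pp_022_a : ∃ t, chk3 f_pp_022_a t 2 1 1 = true := ex3_a s8_pp_022_a k4_pp_022_a

theorem s10_pp_022_a : ∃ t, chk3 f_pp_022_a t 1 1 1 = true := ex3_a s9_pp_022_a k5_pp_022_a

theorem c_pp_022_a : CertB 0 536870912 0 536870912 991146299 28908434 3 eng mog cd0q0 cd1q2a pd2 false true true .pp 0 2 2
    ndB0q0 ndB1q2a pcB2 cut_pp_022_a Ext.none :=
  certB2 (fam := false) (s1 := true) (s2 := true) (a := 0) (b := 2) (c := 2) (cn := .pp) (n1 := ndB0q0) (n2 := ndB1q2a) (pc := pcB2) (cut := cut_pp_022_a) (xt := Ext.none) (P1 := 0) (W1 := 536870912) (P2 := 0) (W2 := 536870912) (P3 := 991146299) (W3 := 28908434) (N0 := 3) (En := eng) (mo := mog) (C1 := cd0q0) (C2 := cd1q2a) (C3 := pd2)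
    rfl (fun _ => rfl) s10_pp_022_a

noncomputable def cut_pp_022_b : Cut := Cut.of [[⟨0, 0, 0, 53687091⟩, ⟨1, 1, 0, 53687091⟩, ⟨2, 1, 0, 53687091⟩]]

noncomputable def f_pp_022_b : ℕ → ℕ → ℕ → ℕ → Bool := onCell 0 536870912 1073741824 536870912 991146299 28908434
    (rowB 3 eng mog cd0q0 cd1q2b pd2 1 false true true .pp 0 2 2 (qsf 0 536870912 1239849684 370763052 2) ndB0q0 ndB1q2b pcB2 cut_pp_022_b Ext.none)

def k0_pp_022_b : ∃ t, chk3 f_pp_022_b t 2 2 1 = true :=
  ⟨(a (a (b (b (l 1) (a (b (l 1) (c (l 327523425591) (l 327523221799))) (b (c (l 293700612039) (l 286721026759)) (c (l 16163592) (l 195453097015))))) (b (b (a (c (l 16188760) (l 16121848)) (c (l 16268336) (l 16226912))) (a (c (l 16212352) (l 16199752)) (l 16176976))) (b (a (l 16117736) (l 16270928)) (a (l 16152792) (l 16205192))))) (a (b (b (a (l 1) (b (l 1) (b (l 1) (l 295311219223)))) (b (c (l 193305916071) (l 197600645639)) (b (l 16192752) (l 16261368)))) (b (b (l 16247384) (l 16316864)) (b (l 16244056) (l 16111056)))) (b (b (b (a (l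 1) (c (l 303364604567) (l 296921829495))) (c (l 185789831015) (b (l 16182528) (l 16281008)))) (b (c (l 16367808) (l 16279552)) (l 16226856))) (b (b (l 16356216) (l 16283416)) (c (l 16113680) (l 16068280)))))) (c (b (a (b (a (b (b (l 126197275095) (l 16360832)) (l 16355888)) (b (b (l 16404064) (l 16483320)) (l 16474784))) (b (l 16321056) (l 16365336))) (b (b (a (l 16389960) (l 16427040)) (a (l 16437816) (l 16354816))) (b (l 16300896) (l 16165440)))) (a (b (l 16209240) (l 15919480)) (b (l 16005448) (l 15883896)))) (b (b (a (a (b (c (l 145524470855) (l 148208661671)) (l 16227600)) (b (b (l 16315408) (l 16367360)) (l 16358800))) (b (a (l 16303440) (l 16446104)) (l 16329336))) (a (b (l 16226240) (l 16383792)) (b (l 16408280) (l 16276984)))) (b (a (l 16228936) (l 15957824)) (a (l 15828760) (l 15830632)))))), by decide +kernel⟩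

def k1_pp_022_b : ∃ t, chk3 f_pp_022_b t 3 2 1 = true :=
  ⟨(a (b (b (a (c (a (c (l 16200840) (l 16362048)) (l 16021008)) (b (l 16278528) (l 16382032))) (c (a (l 16018792) (l 16001256)) (b (l 16230000) (l 16245600)))) (a (c (l 15931712) (l 16201160)) (c (l 15949648) (l 15957952)))) (b (a (b (l 16010216) (l 15911120)) (b (l 15914328) (l 15825752))) (a (l 15616032) (l 15692416)))) (b (b (a (c (b (l 15992968) (l 16016192)) (b (l 16100504) (l 16130080))) (c (b (l 15932792) (l 15927040)) (b (l 16052032) (l 16033392)))) (a (b (l 15910808) (l 15917456)) (c (l 15854920) (l 15912080)))) (b (a (l 15717272) (l 2)) (l 2)))), by decide +kernel⟩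

def k2_pp_022_b : ∃ t, chk3 f_pp_022_b t 1 3 1 = true :=
  ⟨(a (a (c (b (a (b (a (l 16135792) (l 16048456)) (a (l 15883056) (l 15723096))) (b (a (l 15965784) (l 15893008)) (l 15495200))) (a (b (a (l 15594552) (l 15571288)) (b (l 15428344) (l 15315472))) (b (l 15403168) (l 15278048)))) (b (a (b (a (l 15995608) (l 15946616)) (a (l 15602016) (l 15647440))) (b (a (l 15797208) (l 15784192)) (a (l 15572832) (l 15507616)))) (a (b (a (l 15429272) (l 15359040)) (b (l 15183392) (l 15049184))) (b (l 15141696) (l 15011256))))) (b (b (a (b (l 15802464) (l 15685696)) (b (l 15695776) (l 15588648))) (a (c (l 15597288) (l 15424672)) (c (l 15517000) (l 15338976)))) (b (a (c (l 15399792) (l 15172536)) (l 2)) (l 2)))) (b (a (b (a (l 15461232) (l 2)) (l 2)) (l 2)) (l 2))), by decide +kernel⟩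

theorem s3_pp_022_b : ∃ t, chk3 f_pp_022_b t 1 2 1 = true := ex3_a k0_pp_022_b k1_pp_022_b

theorem s4_pp_022_b : ∃ t, chk3 f_pp_022_b t 1 1 1 = true := ex3_b s3_pp_022_b k2_pp_022_b

theorem c_pp_022_b : CertB 0 536870912 1239849684 370763052 991146299 28908434 3 eng mog cd0q0 cd1q2b pd2 false true true .pp 0 2 2
    ndB0q0 ndB1q2b pcB2 cut_pp_022_b Ext.none :=
  certB1 (fam := false) (s1 := true) (s2 := true) (a := 0) (b := 2) (c := 2) (cn := .pp) (n1 := ndB0q0) (n2 := ndB1q2b) (pc := pcB2) (cut := cut_pp_022_b) (xt := Ext.none) (P1 := 0) (W1 := 536870912) (P2 := 1239849684) (W2 := 370763052) (P3 := 991146299) (W3 := 28908434) (N0 := 3) (En := eng) (mo := mog) (C1 := cd0q0) (C2 := cd1q2b) (C3 := pd2)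
    rfl (fun _ => rfl) s4_pp_022_b

noncomputable def f_pp_023 : ℕ → ℕ → ℕ → ℕ → Bool := onCell 0 536870912 1073741824 536870912 991146299 28908434
    (rowB 3 eng mog cd0q0 cd1q3 pd2 1 false true true .up 0 2 3 (qsf 0 536870912 1610612736 536870912 2) ndB0q0 ndB1q3 pcB2 Cut.none Ext.none)

def k0_pp_023 : ∃ t, chk3 f_pp_023 t 1 1 1 = true :=
  ⟨(b (a (a (l 1) (b (l 1) (b (l 1) (a (l 1) (c (l 15747976) (l 15752744)))))) (a (a (b (l 1) (b (c (l 15821456) (l 15804304)) (c (l 15660944) (l 15650160)))) (b (b (l 1) (c (l 373693410231) (l 371546182407))) (b (c (l 15739912) (l 15789112)) (c (l 15608904) (l 15580384))))) (b (a (b (c (l 376377837399) (l 374230727575)) (c (l 15714760) (l 15780984))) (b (c (b (a (l 15870952) (l 15827784)) (l 15805680)) (b (l 15804944) (l 15953368))) (c (l 15744992) (l 15834520)))) (b (a (c (l 15690304) (l 15720720)) (c (l 15667496) (l 15680632))) (a (l 15458808) (l 15517880)))))) (a (a (b (a (l 1) (b (l 1) (c (l 333964338407) (l 342554057943)))) (a (b (c (l 318931748007) (l 329131992887))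 (c (l 238400652759) (l 238937109207))) (b (c (l 15121824) (l 228199997479)) (c (l 15157224) (l 14926688))))) (b (b (a (c (l 15662336) (l 15607752)) (c (l 15567672) (l 15497928))) (a (c (l 15463848) (l 15339592)) (c (l 15398944) (l 15256448)))) (b (a (c (l 15280272) (l 15088944)) (c (l 15242296) (l 15030616))) (a (c (l 15113696) (l 14860168)) (c (l 15099544) (l 14824880)))))) (b (a (b (a (c (l 15509864) (l 15422808)) (l 15348144)) (a (c (l 15367168) (l 15206416)) (l 15234032))) (b (a (l 15425640) (l 15402776)) (a (l 15268816) (l 15326632)))) (a (b (a (l 14868024) (l 15001376)) (a (l 14734896) (l 14988208))) (b (a (l 15156560) (l 15205104)) (a (l 15027640) (b (l 15113304) (l 15050544)))))))), by decide +kernel⟩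

theorem c_pp_023 : CertB 0 536870912 1610612736 536870912 991146299 28908434 3 eng mog cd0q0 cd1q3 pd2 false true true .up 0 2 3
    ndB0q0 ndB1q3 pcB2 Cut.none Ext.none :=
  certB1 (fam := false) (s1 := true) (s2 := true) (a := 0) (b := 2) (c := 3) (cn := .up) (n1 := ndB0q0) (n2 := ndB1q3) (pc := pcB2) (cut := Cut.none) (xt := Ext.none) (P1 := 0) (W1 := 536870912) (P2 := 1610612736) (W2 := 536870912) (P3 := 991146299) (W3 := 28908434) (N0 := 3) (En := eng) (mo := mog) (C1 := cd0q0) (C2 := cd1q3) (C3 := pd2)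
    rfl (fun _ => rfl) k0_pp_023

noncomputable def f_pp_033 : ℕ → ℕ → ℕ → ℕ → Bool := onCell 0 536870912 1610612736 536870912 991146299 28908434
    (rowB 3 eng mog cd0q0 cd1q3 pd3 1 false true true .pnn 0 3 3 (qsf 0 536870912 1610612736 536870912 3) ndB0q0 ndB1q3 pcB3 Cut.none Ext.none)

def k0_pp_033 : ∃ t, chk3 f_pp_033 t 1 1 1 = true :=
  ⟨(a (b (b (a (b (a (b (l 15691648) (l 15626160)) (b (l 15652352) (l 15655264))) (a (b (l 15512200) (l 15397472)) (b (l 15648952) (l 15571144)))) (b (a (l 15647728) (l 15661408)) (a (l 15715936) (l 15779304)))) (a (b (a (b (l 15246512) (l 15191872)) (b (l 15507304) (l 15463520))) (a (b (l 15135320) (l 4)) (l 4))) (b (a (l 15686432) (l 15861560)) (l 4)))) (a (l 4) (b (l 4) (a (b (l 4) (l 2)) (l 2))))) (b (a (b (b (a (l 15688752) (l 15725944)) (a (l 15834360) (l 15829480))) (b (b (a (l 15964448) (l 16121736)) (a (l 16077584) (l 16248688))) (l 4))) (b (b (a (l 15643944) (l 15770976)) (a (l 15985640) (b (l 16129440) (l 2)))) (a (b (b (l 16292576) (l 2)) (l 2)) (l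 2)))) (a (b (a (b (l 4) (l 2)) (l 2)) (l 2)) (l 2)))), by decide +kernel⟩

theorem c_pp_033 : CertB 0 536870912 1610612736 536870912 991146299 28908434 3 eng mog cd0q0 cd1q3 pd3 false true true .pnn 0 3 3
    ndB0q0 ndB1q3 pcB3 Cut.none Ext.none :=
  certB1 (fam := false) (s1 := true) (s2 := true) (a := 0) (b := 3) (c := 3) (cn := .pnn) (n1 := ndB0q0) (n2 := ndB1q3) (pc := pcB3) (cut := Cut.none) (xt := Ext.none) (P1 := 0) (W1 := 536870912) (P2 := 1610612736) (W2 := 536870912) (P3 := 991146299) (W3 := 28908434) (N0 := 3) (En := eng) (mo := mog) (C1 := cd0q0) (C2 := cd1q3) (C3 := pd3)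
    rfl (fun _ => rfl) k0_pp_033

noncomputable def f_pp_101 : ℕ → ℕ → ℕ → ℕ → Bool := onCell 536870912 536870912 536870912 536870912 991146299 28908434
    (rowB 3 eng mog cd0q1 cd1q1 pd0 0 false true true .npn 1 0 1 (qsf 536870912 536870912 536870912 536870912 0) ndB0q1 ndB1q1 pcB0 Cut.none Ext.none)

def k0_pp_101 : ∃ t, chk3 f_pp_101 t 1 1 1 = true :=
  ⟨(l 3), by decide +kernel⟩

theorem c_pp_101 : CertB 536870912 536870912 536870912 536870912 991146299 28908434 3 eng mog cd0q1 cd1q1 pd0 false true true .npn 1 0 1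
    ndB0q1 ndB1q1 pcB0 Cut.none Ext.none :=
  certB0 (fam := false) (s1 := true) (s2 := true) (a := 1) (b := 0) (c := 1) (cn := .npn) (n1 := ndB0q1) (n2 := ndB1q1) (pc := pcB0) (cut := Cut.none) (xt := Ext.none) (P1 := 536870912) (W1 := 536870912) (P2 := 536870912) (W2 := 536870912) (P3 := 991146299) (W3 := 28908434) (N0 := 3) (En := eng) (mo := mog) (C1 := cd0q1) (C2 := cd1q1) (C3 := pd0)
    rfl k0_pp_101

noncomputable def f_pp_102_a : ℕ → ℕ → ℕ → ℕ → Bool := onCell 0 536870912 0 536870912 991146299 28908434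
    (rowB 3 eng mog cd0q1 cd1q2a pd0 2 false true true .npp 1 0 2 (qsf 536870912 536870912 0 536870912 0) ndB0q1 ndB1q2a pcB0 Cut.none Ext.none)

def k0_pp_102_a : ∃ t, chk3 f_pp_102_a t 1 1 1 = true :=
  ⟨(a (l 3) (l 3)), by decide +kernel⟩

theorem c_pp_102_a : CertB 536870912 536870912 0 536870912 991146299 28908434 3 eng mog cd0q1 cd1q2a pd0 false true true .npp 1 0 2
    ndB0q1 ndB1q2a pcB0 Cut.none Ext.none :=
  certB2 (fam := false) (s1 := true) (s2 := true) (a := 1) (b := 0) (c := 2) (cn := .npp) (n1 := ndB0q1) (n2 := ndB1q2a) (pc := pcB0) (cut := Cut.none) (xt := Ext.none) (P1 := 536870912) (W1 := 536870912) (P2 := 0) (W2 := 536870912) (P3 := 991146299) (W3 := 28908434) (N0 := 3) (En := eng) (mo := mog) (C1 := cd0q1) (C2 := cd1q2a) (C3 := pd0)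
    rfl (fun _ => rfl) k0_pp_102_a

noncomputable def f_pp_102_b : ℕ → ℕ → ℕ → ℕ → Bool := onCell 536870912 536870912 0 536870912 991146299 28908434
    (rowB 3 eng mog cd0q1 cd1q2b pd0 1 false true true .npp 1 0 2 (qsf 536870912 536870912 1239849684 370763052 0) ndB0q1 ndB1q2b pcB0 Cut.none Ext.none)

def k0_pp_102_b : ∃ t, chk3 f_pp_102_b t 1 1 1 = true :=
  ⟨(l 3), by decide +kernel⟩

theorem c_pp_102_b : CertB 536870912 536870912 1239849684 370763052 991146299 28908434 3 eng mog cd0q1 cd1q2b pd0 false true true .npp 1 0 2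
    ndB0q1 ndB1q2b pcB0 Cut.none Ext.none :=
  certB1 (fam := false) (s1 := true) (s2 := true) (a := 1) (b := 0) (c := 2) (cn := .npp) (n1 := ndB0q1) (n2 := ndB1q2b) (pc := pcB0) (cut := Cut.none) (xt := Ext.none) (P1 := 536870912) (W1 := 536870912) (P2 := 1239849684) (W2 := 370763052) (P3 := 991146299) (W3 := 28908434) (N0 := 3) (En := eng) (mo := mog) (C1 := cd0q1) (C2 := cd1q2b) (C3 := pd0)
    rfl (fun _ => rfl) k0_pp_102_b

noncomputable def f_pp_112_a : ℕ → ℕ → ℕ → ℕ → Bool := onCell 536870912 536870912 0 536870912 991146299 28908434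
    (rowB 3 eng mog cd0q1 cd1q2a pd1 0 false true true .dn 1 1 2 (qsf 536870912 536870912 0 536870912 1) ndB0q1 ndB1q2a pcB1 Cut.none Ext.none)

def k0_pp_112_a : ∃ t, chk3 f_pp_112_a t 1 1 1 = true :=
  ⟨(a (b (l 3) (l 3)) (l 1)), by decide +kernel⟩

theorem c_pp_112_a : CertB 536870912 536870912 0 536870912 991146299 28908434 3 eng mog cd0q1 cd1q2a pd1 false true true .dn 1 1 2
    ndB0q1 ndB1q2a pcB1 Cut.none Ext.none :=
  certB0 (fam := false) (s1 := true) (s2 := true) (a := 1) (b := 1) (c := 2) (cn := .dn) (n1 := ndB0q1) (n2 := ndB1q2a) (pc := pcB1) (cut := Cut.none) (xt := Ext.none) (P1 := 536870912) (W1 := 536870912) (P2 := 0) (W2 := 536870912) (P3 := 991146299) (W3 := 28908434) (N0 := 3) (En := eng) (mo := mog) (C1 := cd0q1) (C2 := cd1q2a) (C3 := pd1)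
    rfl k0_pp_112_a

noncomputable def f_pp_112_b : ℕ → ℕ → ℕ → ℕ → Bool := onCell 536870912 536870912 536870912 536870912 991146299 28908434
    (rowB 3 eng mog cd0q1 cd1q2b pd1 1 false true true .dn 1 1 2 (qsf 536870912 536870912 1239849684 370763052 1) ndB0q1 ndB1q2b pcB1 Cut.none Ext.none)

def k0_pp_112_b : ∃ t, chk3 f_pp_112_b t 1 1 1 = true :=
  ⟨(b (a (b (l 3) (a (b (l 3) (a (b (l 3) (a (b (a (b (l 16626680) (l 16635824)) (l 189682779543)) (a (l 16617640) (l 16594056))) (b (l 3) (a (l 16571608) (l 16550464))))) (l 3))) (l 3))) (l 3)) (a (b (a (b (a (b (a (b (l 16514120) (l 16541960)) (b (l 16512400) (l 16501112))) (a (b (l 16500456) (l 16452504)) (b (l 16462304) (l 16416864)))) (b (a (b (l 16492280) (l 16461552)) (b (l 3) (l 16423608))) (a (l 16321120) (l 16307888)))) (a (b (a (l 16368408) (l 16336176)) (a (l 16234904) (l 16206520))) (b (a (l 16306048) (l 16277536)) (a (l 16180672) (l 16156952))))) (b (a (b (l 3) (a (l 123110120999) (l 130626256567))) (l 3)) (a (b (a (l 16250184) (l 16223424))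 (a (l 16135008) (l 16114584))) (b (a (l 16195784) (l 2)) (l 2))))) (b (a (a (b (l 16003240) (l 15893016)) (b (l 15916016) (l 15852424))) (a (b (a (l 15993608) (l 2)) (l 2)) (l 2))) (a (a (b (a (l 15725320) (l 15697552)) (l 15579336)) (b (l 15669136) (l 2))) (l 2)))) (b (b (l 3) (l 2)) (l 2)))), by decide +kernel⟩

theorem c_pp_112_b : CertB 536870912 536870912 1239849684 370763052 991146299 28908434 3 eng mog cd0q1 cd1q2b pd1 false true true .dn 1 1 2
    ndB0q1 ndB1q2b pcB1 Cut.none Ext.none :=
  certB1 (fam := false) (s1 := true) (s2 := true) (a := 1) (b := 1) (c := 2) (cn := .dn) (n1 := ndB0q1) (n2 := ndB1q2b) (pc := pcB1) (cut := Cut.none) (xt := Ext.none) (P1 := 536870912) (W1 := 536870912) (P2 := 1239849684) (W2 := 370763052) (P3 := 991146299) (W3 := 28908434) (N0 := 3) (En := eng) (mo := mog) (C1 := cd0q1) (C2 := cd1q2b) (C3 := pd1)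
    rfl (fun _ => rfl) k0_pp_112_b

noncomputable def cut_pp_113 : Cut := Cut.of [[⟨0, 1, 0, 37748736⟩, ⟨1, 1, 0, 37748736⟩, ⟨2, 2, 0, 5242880⟩]]

noncomputable def xt_pp_113 : Ext := extD3 3 ⟨4, 1, 1, 5, 22, 5, 21, 25, 41, 100, 1, 20⟩ eng cd0q1 cd1q3 pd1 false true true .nn 1 1 3 rfl ndB0q1 ndB1q3 pcB1

noncomputable def f_pp_113 : ℕ → ℕ → ℕ → ℕ → Bool := onCell 536870912 536870912 536870912 536870912 991146299 28908434
    (rowB 3 eng mog cd0q1 cd1q3 pd1 1 false true true .nn 1 1 3 (qsf 536870912 536870912 1610612736 536870912 1) ndB0q1 ndB1q3 pcB1 cut_pp_113 xt_pp_113)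

def k0_pp_113 : ∃ t, chk3 f_pp_113 t 1 2 1 = true :=
  ⟨(a (a (l 1) (l 3)) (l 3)), by decide +kernel⟩

def k1_pp_113 : ∃ t, chk3 f_pp_113 t 2 3 1 = true :=
  ⟨(b (a (b (l 1) (a (l 1) (b (l 1) (a (l 1) (l 218538344391))))) (b (a (b (l 1) (a (l 1) (c (l 16277000) (l 16288928)))) (l 3)) (a (b (a (l 186863191095) (c (l 16194840) (l 16200232))) (a (c (l 16096312) (l 16099360)) (c (l 16083392) (l 16082536)))) (b (a (c (l 16174408) (l 16175688)) (c (l 16154040) (l 16148376))) (a (c (l 16073032) (l 16066816)) (c (l 16064568) (l 16050592))))))) (b (a (a (b (l 1) (c (l 15815432) (l 15833040))) (b (a (l 15976144) (l 15960608)) (a (l 15796904) (l 15785304)))) (a (b (a (l 15948760) (l 15940144)) (a (l 15777880) (l 15774344))) (b (a (l 15934384) (l 16078048)) (a (l 15774600) (l 15820816))))) (a (a (b (c (l 15622424) (l 15644688)) (c (l 15474584) (l 15503128))) (b (a (l 15603752) (l 15594952)) (c (l 15417880) (l 15431080)))) (a (b (a (l 15590704) (l 15590880)) (a (l 15400080) (l 15399576))) (b (a (l 15574688) (l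 15710592)) (a (l 15407192) (l 15421208))))))), by decide +kernel⟩

def k2_pp_113 : ∃ t, chk3 f_pp_113 t 3 6 1 = true :=
  ⟨(a (b (l 3) (a (b (l 3) (a (c (l 16055600) (l 16031592)) (l 90361025463))) (l 3))) (l 3)), by decide +kernel⟩

def k3_pp_113 : ∃ t, chk3 f_pp_113 t 6 7 1 = true :=
  ⟨(b (a (b (a (c (l 15947776) (l 15914664)) (c (l 15955008) (l 15909312))) (a (l 15871800) (c (l 15831384) (l 15775536)))) (b (a (b (l 15954840) (l 15910864)) (l 3)) (a (c (l 15862560) (l 15790864)) (c (b (l 15924504) (l 15883800)) (l 16024248))))) (b (a (a (b (l 15665776) (l 15578776)) (b (l 15689744) (l 15607984))) (a (b (l 15726688) (l 15653504)) (b (c (l 15834800) (l 15731856)) (c (l 15781056) (l 15669144))))) (a (a (l 15444032) (b (l 15522488) (l 15438816))) (a (b (l 15576024) (l 15500472)) (b (c (l 15722848) (l 15602176)) (l 15707960)))))), by decide +kernel⟩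

def k4_pp_113 : ∃ t, chk3 f_pp_113 t 7 14 1 = true :=
  ⟨(a (a (b (l 3) (b (l 3) (a (l 15942224) (l 166596425415)))) (l 3)) (l 3)), by decide +kernel⟩

def k5_pp_113 : ∃ t, chk3 f_pp_113 t 14 15 1 = true :=
  ⟨(a (c (b (b (a (l 15906544) (l 15968328)) (b (l 15919744) (l 15907856))) (b (a (l 15838632) (l 15947504)) (l 15869776))) (b (b (l 15805360) (l 15789944)) (b (l 15730264) (l 15697272)))) (b (b (a (c (l 138013343716458511) (l 184849882439)) (l 3)) (c (a (l 137754821093130255) (b (a (l 16155864) (l 145658961127)) (l 139178139273969679))) (a (l 15908504) (b (l 179481433447) (l 136558346168303631))))) (b (a (l 138638759959265295) (c (l 140016104671772687) (l 137094839211425807))) (a (l 137005503831195663) (l 139863547738095631))))), by decide +kernel⟩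

def k6_pp_113 : ∃ t, chk3 f_pp_113 t 15 30 1 = true :=
  ⟨(a (a (b (l 3) (b (l 3) (a (c (b (l 2130127294302995746296709199) (l 940544287801304742661587023)) (l 1172658045165997015544528911)) (c (a (b (l 3) (l 1733599625470561622608609487)) (l 3)) (l 3870980474546767700775895055))))) (l 3)) (l 3)), by decide +kernel⟩

def k7_pp_113 : ∃ t, chk3 f_pp_113 t 30 124 1 = true :=
  ⟨(a (a (c (l 141510203875197007) (l 138333370615988239)) (c (b (c (l 1878670723824934705635901711) (l 1075943979600212010221699279)) (a (l 16613096) (l 143875803635024143))) (c (l 988901320586523159465148495) (l 138660956458860559)))) (a (a (c (c (b (b (l 3) (l 78550864807)) (a (l 143903978651795727) (b (l 2410598084455442942096834831) (l 16723792)))) (b (l 1868999317267254473780396303) (l 1491814461548419121136501007))) (c (b (l 1965713382835636182702653647) (l 1356414769749642351845933263)) (l 834746937362893361343508191))) (b (l 3) (c (c (b (a (l 73719032647) (l 3)) (a (c (l 87140780487) (l 87677660007)) (b (l 69424069239) (a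 (l 88751409479) (l 87140804919))))) (b (l 3948351727005452737849245903) (c (l 1791628064812866535389741263) (l 1762613845142165600423248079)))) (c (a (l 1124301012385136514078064911) (l 1395100395979233875074253007)) (b (l 105394040023) (l 2275198392655845799572553935)))))) (l 3))), by decide +kernel⟩

def k8_pp_113 : ∃ t, chk3 f_pp_113 t 60 125 1 = true :=
  ⟨(c (a (l 16561192) (l 143861716022100175)) (l 139930343263174671)), by decide +kernel⟩

def k9_pp_113 : ∃ t, chk3 f_pp_113 t 122 125 1 = true :=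
  ⟨(b (c (a (l 144162295129456911) (b (a (c (l 16739888) (l 16748728)) (c (a (l 16724984) (c (l 109689358327) (l 16741720))) (l 144104089795477711))) (l 144037500579037391))) (a (l 141866514618875983) (b (c (l 2004399009064822192438034639) (l 141570265010307279)) (l 143199741451337935)))) (c (l 143967475334627535) (l 143390918923173967))), by decide +kernel⟩

def k10_pp_113 : ∃ t, chk3 f_pp_113 t 246 125 1 = true :=
  ⟨(b (c (a (c (c (b (b (a (l 83919576663) (l 78014004759)) (a (l 16748904) (l 103246926071))) (l 16741552)) (b (b (l 91972647863) (l 107005020967)) (l 16745664))) (b (b (a (l 1530500087776206757948997839) (l 2468626523797121820292808911)) (l 1936699163166738928191357135)) (l 16736248))) (b (b (l 3) (c (c (a (l 78550872343) (l 68350333479)) (l 85530200983)) (c (l 83919595431) (l 82308990999)))) (b (a (c (b (l 16746776) (l 16751472)) (l 16750936)) (c (c (b (l 60297279383) (l 16753688)) (l 99488841351)) (c (l 100025718599) (l 100562597639)))) (c (a (l 16746752) (l 16740496)) (l 16746584)))))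 (c (c (b (a (l 1578857120560799896402165967) (b (l 3) (l 80161516135))) (l 2023741822179063490858631375)) (b (l 1578857120560792062391042255) (l 2033413228736020175402664143))) (c (b (l 1617542746788492219227701455) (l 2033413228735665789057810639)) (b (l 1956041976279480355118842063) (l 1956041976279098687254118607))))) (c (b (c (l 144146489711640783) (l 16722376)) (l 144137693601284303)) (c (l 144197204662862031) (l 144201259129372879)))), by decide +kernel⟩

def k11_pp_113 : ∃ t, chk3 f_pp_113 t 247 125 1 = true :=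
  ⟨(b (b (l 3) (a (c (a (c (b (b (a (l 65665979495) (l 3)) (c (a (l 74255920727) (l 54391701175)) (l 94657012679))) (b (c (l 16754832) (l 16758840)) (l 16753680))) (c (b (l 83382728791) (l 16761312)) (l 1820642284483728411401371855))) (b (l 3) (c (c (b (a (l 66739730007) (l 45264897639)) (l 83919596935)) (b (l 88214564247) (l 16763056))) (c (l 95193884807) (l 95193892503))))) (c (c (b (l 73182198039) (l 1849656504154462194295521487)) (l 1540171494333166191285403855)) (c (l 1549842900890117584430366927) (l 1501485868105161813260452047)))) (a (b (l 3) (b (l 3) (c (c (c (a (l 62444764807) (l 35601223335)) (l 81235244935)) (c (l 81235251271) (l 80161516087))) (c (l 1404771802536349095483736271) (c (l 76940315255) (l 1453128835321090530521301199)))))) (l 3)))) (b (c (a (b (c (c (l 16754424) (l 16753088)) (l 144128622653440207)) (c (l 16744904) (l 16752704))) (b (c (c (a (b (a (l 16756128) (l 78550889911)) (l 16754104)) (b (a (l 53317961303) (l 3)) (a (l 16757352) (l 71034699431)))) (a (b (l 76940286535)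 (l 16757944)) (a (l 95193884759) (l 79087761303)))) (c (a (l 116131846519) (l 89288309383)) (a (l 116668724775) (l 89288316983)))) (a (c (l 16751344) (l 16759056)) (c (c (l 16756416) (l 16757552)) (b (l 16754416) (l 16761720)))))) (c (a (l 144187240377254095) (c (l 2004399009065185306182582479) (l 1965713382837550089229697231))) (a (l 144252867494789327) (c (l 1975384789394451660753895631) (l 1927027756609894874917814479))))) (c (a (l 144198716479455439) (c (b (l 16747320) (l 16741176)) (l 16730728))) (c (l 144264481051148495) (l 144325847560388815))))), by decide +kernel⟩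

def k12_pp_113 : ∃ t, chk3 f_pp_113 t 30 63 1 = true :=
  ⟨(c (a (l 142376138109616207) (b (a (l 143547118263730383) (b (a (l 144220844130533583) (b (l 144103127670800591) (l 16719200))) (l 143943217412686031))) (a (l 16626000) (l 143245164896780495)))) (a (l 141823839632523279) (b (a (l 143592885467480143) (c (l 143839244783304911) (l 143792515575972047))) (l 142497565617619023)))), by decide +kernel⟩

def k13_pp_113 : ∃ t, chk3 f_pp_113 t 62 124 1 = true :=
  ⟨(l 3), by decide +kernel⟩

def k14_pp_113 : ∃ t, chk3 f_pp_113 t 124 250 1 = true :=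
  ⟨(l 3), by decide +kernel⟩

def k15_pp_113 : ∃ t, chk3 f_pp_113 t 248 251 1 = true :=
  ⟨(a (c (b (a (b (a (b (l 3) (c (c (l 43654287159) (l 40969941671)) (l 72645318903))) (l 3)) (c (c (b (a (l 89825179223) (l 62444767175)) (l 16756608)) (c (l 69424093447) (l 67813485127))) (c (l 110226271575) (l 110763149207)))) (b (l 3) (c (a (c (b (l 35601225799) (l 79624634263)) (b (l 33453750919) (l 76940288535))) (b (l 3) (c (l 54928576599) (l 52244230919)))) (c (l 83919605351) (l 83382741431))))) (c (a (c (l 16754168) (l 16752544)) (b (b (c (l 92509534151) (l 16761528)) (l 16756616)) (l 16752000))) (b (a (l 16761240) (c (b (l 16765224) (l 16762080)) (l 16756912))) (l 16757080)))) (c (c (b (b (l 3735580782753354900236140751) (a (l 110763156727) (l 83382748871))) (b (l 144089727471616207) (l 16762680))) (b (b (l 2884497005744685510626296015) (l 1733599625471519572349550799)) (l 144148345175834831))) (c (b (b (l 2855482786073962104391090383) (l 1665899779573127963803910351)) (l 144175420657680591)) (b (l 1491814461548583429503140047)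 (l 144200709438619855))))) (b (l 3) (c (a (c (c (b (b (a (l 74255927543) (l 45801773639)) (a (l 16758104) (l 88751440183))) (l 16754608)) (b (c (l 64592259991) (l 62981651527)) (l 16758112))) (b (c (l 103783826167) (l 104857573767)) (l 16753000))) (b (b (l 3) (c (a (c (l 65665995447) (l 63518520279)) (b (l 3) (l 68350344759))) (a (l 95193898215) (l 66202873479)))) (c (a (c (l 16757888) (l 16761368)) (b (c (l 78550895399) (l 16765080)) (l 16760272))) (c (l 122037435095) (l 123111181319))))) (c (c (b (a (l 104857580983) (l 76940301879)) (a (l 16769000) (l 122574317047))) (b (a (l 105394459399) (l 76940309479)) (l 2246184172988161443797778639))) (c (c (l 1927027756609851650365898959) (l 1927027756609864981949022415)) (l 1927027756609872747253203151)))))), by decide +kernel⟩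

def k16_pp_113 : ∃ t, chk3 f_pp_113 t 249 251 1 = true :=
  ⟨(b (l 3) (b (l 3) (a (c (c (a (c (b (a (l 57076063383) (l 3)) (a (l 16760744) (l 77477156039))) (b (l 40969948487) (l 67276616967))) (b (l 3) (a (b (l 3) (l 84456473559)) (l 3)))) (c (a (l 97341380327) (l 69960971831)) (l 88214579687))) (c (c (l 88214586551) (l 88214593863)) (c (l 88751472199) (l 88751479751)))) (l 3)))), by decide +kernel⟩

def k17_pp_113 : ∃ t, chk3 f_pp_113 t 125 125 1 = true :=
  ⟨(l 3), by decide +kernel⟩

def k18_pp_113 : ∃ t, chk3 f_pp_113 t 63 62 1 = true :=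
  ⟨(l 3), by decide +kernel⟩

def k19_pp_113 : ∃ t, chk3 f_pp_113 t 124 63 1 = true :=
  ⟨(b (b (b (a (c (a (c (l 16740688) (l 16747712)) (c (b (a (l 16750240) (l 16754592)) (l 16746352)) (b (l 16748888) (l 16753144)))) (c (l 144214796877545679) (l 144264481074462927))) (c (a (c (c (b (a (l 16757280) (b (l 64592256775) (l 16760112))) (l 16753408)) (b (a (l 16760632) (b (l 60834168455) (l 16763408))) (l 16756664))) (b (b (c (l 117205598247) (l 117205603559)) (a (l 16764208) (l 16763216))) (l 16751176))) (c (a (c (b (b (l 30232525767) (l 58149808375)) (l 16762824)) (b (b (l 26474438615) (l 54928590647)) (l 16768312))) (b (l 3) (b (c (l 59760423447) (l 57076076391)) (c (l 16763928) (l 16765752))))) (c (b (l 84456481255) (b (l 111836894055) (l 16770792))) (b (l 84456487671) (a (l 16769624) (l 114521255703)))))) (c (a (b (c (a (l 16771048) (l 116668740999)) (l 120963706679)) (l 16758032)) (c (b (l 84456494215) (l 118279349095)) (b (l 84456501511) (l 117205614071)))) (c (a (l 2255855579545085211701625039)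 (b (l 84456508599) (l 116131879143))) (a (l 2236512766431219052918145231) (b (l 84456515799) (l 114521273751))))))) (a (c (l 144084504702779599) (l 144191638395240655)) (a (c (c (l 16735480) (l 16752368)) (l 144262831798321359)) (c (b (c (c (l 16766456) (l 16759072)) (a (l 16761744) (l 16765896))) (c (l 16751488) (l 16757640))) (c (l 144177069901135951) (l 144207100326117583)))))) (c (a (l 144043685339676879) (b (l 144109793480376399) (l 16708368))) (c (l 144018121644982351) (l 143992420616945871)))) (c (b (l 143721665798078543) (l 16680496)) (l 143314709012398159))), by decide +kernel⟩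

def k20_pp_113 : ∃ t, chk3 f_pp_113 t 125 252 1 = true :=
  ⟨(a (a (b (a (b (l 3) (c (b (l 3) (c (a (l 101636344743) (l 72645319415)) (l 94120162199))) (c (l 84993368263) (l 2488572227523855204419563103)))) (l 3)) (c (c (c (b (a (b (l 83919610439) (l 16760824)) (b (l 45801784455) (l 78014032775))) (a (l 16756328) (l 16760520))) (b (a (l 73182199687) (b (l 42043695239) (l 16769296))) (l 16771848))) (b (c (b (l 108078801799) (l 60297307303)) (l 116668734151)) (a (l 16763816) (l 16760032)))) (b (c (c (l 115594998343) (l 114521262967)) (c (l 112910656791) (l 111300050711))) (c (l 144234313256714319) (l 144166830722154575))))) (b (l 3) (a (c (c (b (b (l 3) (l 81772126183)) (c (b (l 71571584247) (l 16763200)) (l 64055398567))) (b (l 78014038007) (b (l 119889964311) (l 16770408)))) (c (c (l 106468195927) (l 106468201991)) (b (l 76940320967) (l 2382186815061466832994463327)))) (b (l 3) (c (c (b (l 75866549127) (a (l 126332408935) (l 98415125063))) (l 101099483319)) (c (l 100562623607) (l 100025764951)))))))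 (a (l 3) (l 3))), by decide +kernel⟩

def k21_pp_113 : ∃ t, chk3 f_pp_113 t 125 253 1 = true :=
  ⟨(a (b (a (c (c (l 144185247528517711) (l 16746168)) (b (l 144220981650145359) (l 16741512))) (c (b (a (c (l 16760120) (l 16765792)) (c (c (l 16768112) (l 16765608)) (b (l 16766096) (l 16768264)))) (c (l 16756224) (l 16761680))) (b (c (c (l 16761656) (l 16764608)) (l 144245445827444815)) (l 144213766107971663)))) (c (a (l 16741792) (l 144244552392032335)) (l 144205519743533135))) (b (a (b (c (c (a (b (a (l 117205605767) (l 90362063671)) (a (l 16765808) (l 87140845431))) (b (l 3) (l 104320704711))) (a (b (l 109152550183) (l 147270379671)) (l 95193906775))) (a (c (l 124184939207) (l 124184950871)) (c (l 92509563303) (l 91972703847)))) (c (c (a (l 16764984) (c (l 82845874039) (l 16770968))) (a (l 16767656) (b (l 141364801719) (l 16770072)))) (c (a (l 16773136) (l 2672329122161211076382010975)) (l 2729754500834051940194467919)))) (b (l 3) (c (c (a (b (l 98951997815) (c (l 83382747239) (l 16772816))) (b (l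 3) (l 93046420631))) (a (b (l 97878264775) (l 134922352487)) (l 139217321559))) (c (a (l 116131878487) (l 138680460935)) (a (l 116131889319) (l 133848633335)))))) (c (c (a (b (l 144170197978595407) (l 16752600)) (b (a (c (l 16763320) (l 16765728)) (b (c (l 76403427639) (l 16773144)) (l 16769672))) (l 144262419520831567))) (a (l 144217957976178767) (b (a (l 16761560) (b (l 129016774103) (l 16771784))) (l 16754832)))) (a (b (l 144203045882937423) (l 16744232)) (a (c (l 144174939627438159) (l 144177688395579471)) (b (c (l 140827936103) (l 138143591751)) (l 144169785672990799))))))), by decide +kernel⟩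

def k22_pp_113 : ∃ t, chk3 f_pp_113 t 125 127 1 = true :=
  ⟨(c (b (a (l 143985548639764559) (b (a (l 16725208) (l 144129172399063119)) (l 143959022985691215))) (l 143512415012044879)) (b (a (l 143960328612446287) (b (l 144109587359416399) (l 16726264))) (l 143674661713576015))), by decide +kernel⟩

def k23_pp_113 : ∃ t, chk3 f_pp_113 t 63 126 1 = true :=
  ⟨(a (b (l 3) (a (b (l 3) (a (a (b (c (b (c (l 161765893959) (l 176261421287)) (c (c (l 67276624583) (l 62444791895)) (l 126332421159))) (a (c (l 115595011095) (l 115595020775)) (c (l 96804532823) (l 188072597431)))) (c (b (c (c (l 16766968) (l 16769192)) (l 16767360)) (l 144277675236917327)) (c (l 144219194979369039) (l 16772648)))) (b (l 3) (c (c (a (c (l 87677716983) (l 16772936)) (b (l 101099487255) (l 93583300327))) (b (l 120963713591) (l 156934059687))) (c (l 134922358711) (l 132774884695))))) (b (l 3) (a (b (l 3) (c (c (c (l 50096760039) (l 45801797511)) (l 115595005991)) (c (l 112910659415) (l 109689442855)))) (l 3))))) (l 3))) (l 3)), by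 decide +kernel⟩

def k24_pp_113 : ∃ t, chk3 f_pp_113 t 126 254 1 = true :=
  ⟨(a (c (a (b (b (a (l 144187102978949199) (c (l 16767336) (l 16768888))) (l 144114878800838735)) (l 143999292623061071)) (a (b (b (c (c (l 82845879367) (l 16773064)) (b (l 151028480871) (l 16771168))) (l 144135632073162831)) (l 144019633600004175)) (b (c (b (b (b (l 166597744407) (l 110763165815)) (c (l 83919623527) (l 16773976))) (l 144231427060006991)) (b (b (l 193978160599) (l 144586031415)) (l 144139686555435087))) (l 144033927237501007)))) (c (b (a (l 144157828471423055) (b (a (l 2894168412301645837279772751) (b (l 195588781175) (l 145659780231))) (l 144151918605008975))) (l 144017022224580687)) (b (a (l 144163875773005903) (b (a (l 158544683015) (b (l 196125660535) (l 145659788439))) (l 144149375992660047))) (l 144023206985515087)))) (b (a (b (b (l 3) (a (c (c (l 145122903239) (l 190220065975)) (c (l 191293814823) (l 163913397719))) (l 3))) (c (b (a (c (c (l 76940303703) (l 69960986391)) (l 145659774695)) (a (c (l 175187679543)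 (l 186461972103)) (l 3))) (c (a (l 16771768) (c (l 66202887799) (l 39359346503))) (c (l 2778111533618631334741196879) (l 2768440127061709903300116559)))) (c (a (l 2787782940175540259246850127) (b (l 162302788439) (l 138143589975))) (a (l 2739425907390944234589077583) (b (l 284172482391) (l 134922371863)))))) (b (l 3) (a (l 3) (l 3)))) (a (b (a (c (b (l 144107388374843471) (l 16765056)) (l 144102921620193359)) (c (b (c (l 144202015130910799) (l 144196929885585487)) (l 144174389866397775)) (c (l 144204695168778319) (l 144105051934572623)))) (c (l 144018534080413775) (l 144033033881747535))) (b (b (a (c (c (a (b (l 64055406247) (l 16772264)) (l 188072575975)) (l 3667880936854986725022859343)) (c (l 3764595002424146270047944783) (l 3841966254879467968707215439))) (l 3)) (a (c (c (l 1424114615650265282063171663) (l 3010225290984613679289843791)) (c (l 168208356455) (l 16775184))) (c (c (b (l 3271353268021389455230648399) (l 2507312150024957285831245903)) (l 3600181090956557458197233743)) (c (l 3696895156525716178588221519)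 (l 3774266408981037258771316815))))) (c (c (b (c (l 988901320588962220407980111) (l 144197754524778575)) (l 144118727119290447)) (a (l 16764424) (b (l 2894168412301640820759265359) (l 16771824)))) (a (l 144151162694189135) (c (l 3000553884427691148334301263) (l 3000553884427680084504477775)))))))), by decide +kernel⟩

def k25_pp_113 : ∃ t, chk3 f_pp_113 t 126 255 1 = true :=
  ⟨(c (a (l 143607247927296079) (b (a (l 143908170604609615) (b (a (l 16762464) (l 144074609180753999)) (l 16748128))) (l 143782070306357327))) (a (l 143789354564698191) (b (a (l 143919509330313295) (b (l 143992901730123855) (l 16742624))) (l 143790110494851151)))), by decide +kernel⟩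

def k26_pp_113 : ∃ t, chk3 f_pp_113 t 127 254 1 = true :=
  ⟨(a (b (l 3) (a (b (l 3) (b (a (a (c (c (l 2391255271341947799820255311) (l 209547420119)) (c (l 211694908567) (l 212231785431))) (l 3)) (l 3)) (a (c (c (b (l 2865154192630882779899543631) (l 144179131544125519)) (l 2768440127061699870259855439)) (c (l 2768440127061694441426370639) (l 2768440127061682827840241743))) (a (b (l 3) (c (l 2439612304126520391145046095) (a (l 2545997776252597725485301839) (l 214916136855)))) (l 3))))) (l 3))) (l 3)), by decide +kernel⟩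

def k27_pp_113 : ∃ t, chk3 f_pp_113 t 127 510 1 = true :=
  ⟨(a (a (b (a (b (c (c (l 16772736) (l 16767256)) (l 144130821738692687)) (c (l 144073715853656143) (l 16762672))) (c (c (b (a (l 144164150698606671) (l 2400926677898836658232705103)) (l 144132402302894159)) (b (l 2642711841821758644882604111) (l 144095980963053647))) (c (l 2836139972960068870105546831) (l 2836139972960076841569566799)))) (a (c (l 16753672) (l 16758088)) (c (b (l 144055642611449935) (l 16766400)) (l 144055230299963471)))) (a (b (b (b (l 3) (a (c (l 3445438586045880800666730575) (l 3638866717184197760408944719)) (l 3))) (c (a (c (b (l 1162986638613450267310080079) (l 16773152)) (l 2855482786073920254213259343)) (b (l 3571166871285793644902694991) (c (l 1104958199271937896442560591) (l 2797454346732429529984106575)))) (a (c (l 2855482786073919635741802575) (l 169818977799)) (c (l 3851637661436377236799029327) (l 3870980474550199896165285967))))) (c (b (a (l 144069455242608719) (c (l 144119689198141519) (l 144128279125606479)))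 (l 144039218668896335)) (b (c (l 144133158205128783) (l 144099142068109391)) (l 144056398534590543)))) (a (b (a (a (l 3) (l 3)) (l 3)) (c (b (c (b (l 2681397468049406712390123599) (l 144142916383653967)) (l 2671726061492478752595230799)) (c (l 16774608) (l 16773552))) (b (c (l 2662054654935569690660438095) (l 2884497005744668055879794767)) (l 144071379396198479)))) (b (l 3) (b (b (l 3) (a (c (l 2468626523797222700512641103) (l 2449283710683402996094632015)) (c (l 3484124212273517254581600335) (l 6240475080994872253954490447)))) (c (c (b (l 1346743363194832326581960783) (l 16773144)) (l 3126282169667554858149052495)) (c (l 3126282169667552590409433167) (l 144131577665388623)))))))) (a (b (l 3) (b (l 3) (a (a (a (c (c (l 2671726061492459167543885903) (l 2671726061492464527665594447)) (b (l 3899994694220952095867174991) (l 144124980597588047))) (c (c (b (l 287930574951) (l 1104958199271906285483343951)) (l 3899994694220932648251686991)) (c (l 3967694540119361090447638607) (l 4016051572903944333293813839))))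 (b (l 3) (b (l 3) (a (c (l 2623369028707883896163795023) (l 2507312150024894063926280271)) (l 3))))) (l 3)))) (l 3))), by decide +kernel⟩

def k28_pp_113 : ∃ t, chk3 f_pp_113 t 127 511 1 = true :=
  ⟨(a (c (a (l 143836564895613007) (b (a (l 143988434977652815) (b (a (l 16769936) (l 144029735384580175)) (l 16762784))) (l 143843161974603855))) (a (l 143848109753614415) (b (a (l 16761160) (b (l 144040249468649551) (l 16760232))) (l 143853263764422735)))) (b (a (a (c (b (a (c (b (l 144134670040121423) (l 16772232)) (l 144088490547544143)) (c (b (a (l 144119757919191119) (l 2468626523797201878513549391)) (l 144106288902553679)) (b (l 2729754500833962398725177423) (l 144090552139317327)))) (a (l 16765488) (c (l 16774632) (l 16773056)))) (b (a (c (l 144096324565188687) (l 16772880)) (c (l 2923182631972292002841362511) (l 3213324828679810976232669263))) (a (l 16767856) (l 144075914878976079)))) (b (b (b (l 3) (l 6)) (l 6)) (l 6))) (l 6)) (a (a (c (l 143965276506603599) (l 143974759787577423)) (l 6)) (l 6)))),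 by decide +kernel⟩

theorem s29_pp_113 : ∃ t, chk3 f_pp_113 t 127 255 1 = true := ex3_b k27_pp_113 k28_pp_113

theorem s30_pp_113 : ∃ t, chk3 f_pp_113 t 127 127 1 = true := ex3_b k26_pp_113 s29_pp_113

theorem s31_pp_113 : ∃ t, chk3 f_pp_113 t 126 127 1 = true := ex3_b k24_pp_113 k25_pp_113

theorem s32_pp_113 : ∃ t, chk3 f_pp_113 t 63 127 1 = true := ex3_a s31_pp_113 s30_pp_113

theorem s33_pp_113 : ∃ t, chk3 f_pp_113 t 63 63 1 = true := ex3_b k23_pp_113 s32_pp_113

theorem s34_pp_113 : ∃ t, chk3 f_pp_113 t 125 126 1 = true := ex3_b k20_pp_113 k21_pp_113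

theorem s35_pp_113 : ∃ t, chk3 f_pp_113 t 125 63 1 = true := ex3_b s34_pp_113 k22_pp_113

theorem s36_pp_113 : ∃ t, chk3 f_pp_113 t 62 63 1 = true := ex3_a k19_pp_113 s35_pp_113

theorem s37_pp_113 : ∃ t, chk3 f_pp_113 t 31 63 1 = true := ex3_a s36_pp_113 s33_pp_113

theorem s38_pp_113 : ∃ t, chk3 f_pp_113 t 124 251 1 = true := ex3_a k15_pp_113 k16_pp_113

theorem s39_pp_113 : ∃ t, chk3 f_pp_113 t 124 125 1 = true := ex3_b k14_pp_113 s38_pp_113

theorem s40_pp_113 : ∃ t, chk3 f_pp_113 t 62 125 1 = true := ex3_a s39_pp_113 k17_pp_113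

theorem s41_pp_113 : ∃ t, chk3 f_pp_113 t 62 62 1 = true := ex3_b k13_pp_113 s40_pp_113

theorem s42_pp_113 : ∃ t, chk3 f_pp_113 t 31 62 1 = true := ex3_a s41_pp_113 k18_pp_113

theorem s43_pp_113 : ∃ t, chk3 f_pp_113 t 31 31 1 = true := ex3_b s42_pp_113 s37_pp_113

theorem s44_pp_113 : ∃ t, chk3 f_pp_113 t 123 125 1 = true := ex3_a k10_pp_113 k11_pp_113

theorem s45_pp_113 : ∃ t, chk3 f_pp_113 t 61 125 1 = true := ex3_a k9_pp_113 s44_pp_113

theorem s46_pp_113 : ∃ t, chk3 f_pp_113 t 30 125 1 = true := ex3_a k8_pp_113 s45_pp_113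

theorem s47_pp_113 : ∃ t, chk3 f_pp_113 t 30 62 1 = true := ex3_b k7_pp_113 s46_pp_113

theorem s48_pp_113 : ∃ t, chk3 f_pp_113 t 30 31 1 = true := ex3_b s47_pp_113 k12_pp_113

theorem s49_pp_113 : ∃ t, chk3 f_pp_113 t 15 31 1 = true := ex3_a s48_pp_113 s43_pp_113

theorem s50_pp_113 : ∃ t, chk3 f_pp_113 t 15 15 1 = true := ex3_b k6_pp_113 s49_pp_113

theorem s51_pp_113 : ∃ t, chk3 f_pp_113 t 7 15 1 = true := ex3_a k5_pp_113 s50_pp_113

theorem s52_pp_113 : ∃ t, chk3 f_pp_113 t 7 7 1 = true := ex3_b k4_pp_113 s51_pp_113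

theorem s53_pp_113 : ∃ t, chk3 f_pp_113 t 3 7 1 = true := ex3_a k3_pp_113 s52_pp_113

theorem s54_pp_113 : ∃ t, chk3 f_pp_113 t 3 3 1 = true := ex3_b k2_pp_113 s53_pp_113

theorem s55_pp_113 : ∃ t, chk3 f_pp_113 t 1 3 1 = true := ex3_a k1_pp_113 s54_pp_113

theorem s56_pp_113 : ∃ t, chk3 f_pp_113 t 1 1 1 = true := ex3_b k0_pp_113 s55_pp_113

theorem c_pp_113 : CertB 536870912 536870912 1610612736 536870912 991146299 28908434 3 eng mog cd0q1 cd1q3 pd1 false true true .nn 1 1 3
    ndB0q1 ndB1q3 pcB1 cut_pp_113 xt_pp_113 :=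
  certB1 (fam := false) (s1 := true) (s2 := true) (a := 1) (b := 1) (c := 3) (cn := .nn) (n1 := ndB0q1) (n2 := ndB1q3) (pc := pcB1) (cut := cut_pp_113) (xt := xt_pp_113) (P1 := 536870912) (W1 := 536870912) (P2 := 1610612736) (W2 := 536870912) (P3 := 991146299) (W3 := 28908434) (N0 := 3) (En := eng) (mo := mog) (C1 := cd0q1) (C2 := cd1q3) (C3 := pd1)
    rfl (fun _ => rfl) s56_pp_113

noncomputable def cut_pp_123 : Cut := Cut.of [[⟨0, 1, 0, 37748736⟩, ⟨1, 1, 0, 37748736⟩, ⟨2, 2, 0, 5242880⟩]]

noncomputable def xt_pp_123 : Ext := extD3 3 ⟨4, 1, 1, 5, 22, 5, 21, 25, 41, 100, 1, 20⟩ eng cd0q1 cd1q3 pd2 false true true .npn 1 2 3 rfl ndB0q1 ndB1q3 pcB2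

noncomputable def f_pp_123 : ℕ → ℕ → ℕ → ℕ → Bool := onCell 536870912 536870912 1073741824 536870912 991146299 28908434
    (rowB 3 eng mog cd0q1 cd1q3 pd2 1 false true true .npn 1 2 3 (qsf 536870912 536870912 1610612736 536870912 2) ndB0q1 ndB1q3 pcB2 cut_pp_123 xt_pp_123)

def k0_pp_123 : ∃ t, chk3 f_pp_123 t 2 1 1 = true :=
  ⟨(b (a (b (c (a (b (b (a (l 15789904) (l 15756896)) (l 15748888)) (l 15715024)) (b (b (a (l 15728240) (l 15703576)) (l 15712256)) (l 15686656))) (b (a (b (l 15708336) (l 15876712)) (b (l 15688600) (l 15816688))) (a (l 15785928) (l 15757896)))) (b (a (c (l 15669280) (l 15665904)) (c (l 15696176) (l 15676504))) (a (l 15518608) (l 15631216)))) (b (b (a (c (b (a (l 15682736) (l 15665952)) (l 15695048)) (a (l 15603728) (l 15536640))) (c (b (a (l 15654240) (l 15649456)) (l 15703384)) (b (a (l 15739024) (l 15713272)) (l 15749416)))) (a (c (l 15703848) (l 15753032)) (c (l 15567656) (l 15740320)))) (b (a (b (l 15738320) (l 15734144)) (c (l 15859136) (l 15813576))) (a (l 15718760) (b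 (l 15864912) (a (l 15824304) (l 15914384))))))) (a (b (b (a (l 15488880) (l 15562368)) (a (l 15386656) (b (l 15500160) (l 15451744)))) (b (a (b (l 15303816) (l 15244064)) (b (l 15405688) (l 15358088))) (a (c (l 15322464) (l 15030968)) (c (l 15414256) (l 15116360))))) (b (a (b (b (l 15691760) (l 15665080)) (b (l 15622136) (l 15572408))) (b (b (l 15841128) (l 15795432)) (b (l 15740664) (l 2)))) (a (b (b (l 15515320) (l 2)) (l 2)) (l 2))))), by decide +kernel⟩

def k1_pp_123 : ∃ t, chk3 f_pp_123 t 6 2 1 = true :=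
  ⟨(b (a (b (c (b (a (l 15654600) (l 15675264)) (l 15758520)) (b (a (l 15694936) (l 15689864)) (l 15767344))) (c (b (l 15850992) (l 15937976)) (b (l 15842024) (l 15912688)))) (b (b (c (a (l 15722488) (l 15839200)) (a (l 15708136) (l 15768464))) (c (l 16029520) (l 15931776))) (b (c (l 16082744) (l 16045840)) (a (l 16120016) (b (l 16290912) (l 16299408)))))) (b (a (b (l 15998800) (a (l 15995792) (l 16118672))) (b (a (l 16213736) (l 16288728)) (a (l 16193656) (l 16267520)))) (a (b (a (l 16018472) (l 16092088)) (a (l 15985872) (l 16054792))) (a (b (l 16163744) (l 2)) (l 2))))), by decide +kernel⟩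

def k2_pp_123 : ∃ t, chk3 f_pp_123 t 7 2 1 = true :=
  ⟨(b (b (a (b (a (b (c (b (l 15935280) (l 15989616)) (l 16027280)) (c (l 16072048) (l 15976176))) (b (c (l 141022226735038479) (l 138533756637642767)) (a (l 16295720) (l 16486952)))) (a (c (l 16237760) (l 16154952)) (b (c (l 16474424) (l 16464048)) (a (l 16453200) (l 16517144))))) (b (b (a (a (c (l 142349818680967247) (l 16574256)) (b (a (l 143058866328731727) (l 143173215549866191)) (l 142221863098138703))) (a (b (b (a (l 143450223812591695) (l 143371333864767567)) (l 142822333907550287)) (a (l 142991452653224015) (b (l 16674904) (l 16679952)))) (b (a (a (a (l 143469396640661583) (l 143316908134400079)) (b (l 143671981691043919) (l 143409679454847055))) (a (b (a (l 143712182613000271) (b (l 143800968204582991) (l 6))) (l 6)) (b (l 6) (c (l 421544240951) (l 412417433335))))) (a (b (l 142986092559777871) (l 312559413031)) (a (a (l 143164694510600271) (l 2)) (l 2)))))) (a (a (c (l 16582072) (l 16634728)) (a (l 16590216) (a (l 16635048) (l 141664891839201487))))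 (a (c (b (l 142335525179244623) (l 16724352)) (b (l 16684792) (l 16751872))) (b (c (l 410806664887) (l 403827345415)) (l 2))))) (a (a (b (a (l 16582624) (l 16594728)) (l 16546320)) (b (c (l 16646624) (l 16683640)) (c (l 16638168) (l 16666464)))) (a (b (b (l 16635184) (l 2)) (l 2)) (l 2))))) (a (b (a (b (l 16368784) (l 16276312)) (c (b (l 16450208) (l 16446744)) (b (l 16491504) (l 16475392)))) (a (c (l 16363552) (l 16387360)) (b (l 16412760) (l 2)))) (a (b (a (b (l 16574232) (l 2)) (l 2)) (l 2)) (l 2)))) (a (b (a (b (l 16300800) (l 2)) (l 2)) (l 2)) (l 2))), by decide +kernel⟩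

def k3_pp_123 : ∃ t, chk3 f_pp_123 t 3 3 1 = true :=
  ⟨(a (b (a (b (b (l 15782624) (l 2)) (l 2)) (l 2)) (l 2)) (l 2)), by decide +kernel⟩

theorem s4_pp_123 : ∃ t, chk3 f_pp_123 t 3 2 1 = true := ex3_a k1_pp_123 k2_pp_123

theorem s5_pp_123 : ∃ t, chk3 f_pp_123 t 3 1 1 = true := ex3_b s4_pp_123 k3_pp_123

theorem s6_pp_123 : ∃ t, chk3 f_pp_123 t 1 1 1 = true := ex3_a k0_pp_123 s5_pp_123

theorem c_pp_123 : CertB 536870912 536870912 1610612736 536870912 991146299 28908434 3 eng mog cd0q1 cd1q3 pd2 false true true .npn 1 2 3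
    ndB0q1 ndB1q3 pcB2 cut_pp_123 xt_pp_123 :=
  certB1 (fam := false) (s1 := true) (s2 := true) (a := 1) (b := 2) (c := 3) (cn := .npn) (n1 := ndB0q1) (n2 := ndB1q3) (pc := pcB2) (cut := cut_pp_123) (xt := xt_pp_123) (P1 := 536870912) (W1 := 536870912) (P2 := 1610612736) (W2 := 536870912) (P3 := 991146299) (W3 := 28908434) (N0 := 3) (En := eng) (mo := mog) (C1 := cd0q1) (C2 := cd1q3) (C3 := pd2)
    rfl (fun _ => rfl) s6_pp_123

noncomputable def f_pp_133 : ℕ → ℕ → ℕ → ℕ → Bool := onCell 536870912 536870912 1610612736 536870912 991146299 28908434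
    (rowB 3 eng mog cd0q1 cd1q3 pd3 0 false true true .dn 1 3 3 (qsf 536870912 536870912 1610612736 536870912 3) ndB0q1 ndB1q3 pcB3 Cut.none Ext.none)

def k0_pp_133 : ∃ t, chk3 f_pp_133 t 1 1 1 = true :=
  ⟨(a (b (l 1) (a (b (l 1) (b (l 1) (a (l 15949328) (l 1)))) (l 1))) (l 1)), by decide +kernel⟩

theorem c_pp_133 : CertB 536870912 536870912 1610612736 536870912 991146299 28908434 3 eng mog cd0q1 cd1q3 pd3 false true true .dn 1 3 3
    ndB0q1 ndB1q3 pcB3 Cut.none Ext.none :=
  certB0 (fam := false) (s1 := true) (s2 := true) (a := 1) (b := 3) (c := 3) (cn := .dn) (n1 := ndB0q1) (n2 := ndB1q3) (pc := pcB3) (cut := Cut.none) (xt := Ext.none) (P1 := 536870912) (W1 := 536870912) (P2 := 1610612736) (W2 := 536870912) (P3 := 991146299) (W3 := 28908434) (N0 := 3) (En := eng) (mo := mog) (C1 := cd0q1) (C2 := cd1q3) (C3 := pd3)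
    rfl k0_pp_133

noncomputable def f_pp_202_a : ℕ → ℕ → ℕ → ℕ → Bool := onCell 0 536870912 0 536870912 991146299 28908434
    (rowB 3 eng mog cd0q2 cd1q2a pd0 0 false true true .pp 2 0 2 (qsf 0 536870912 0 536870912 0) ndB0q2 ndB1q2a pcB0 Cut.none Ext.none)

def k0_pp_202_a : ∃ t, chk3 f_pp_202_a t 1 1 1 = true :=
  ⟨(l 3), by decide +kernel⟩

theorem c_pp_202_a : CertB 0 536870912 0 536870912 991146299 28908434 3 eng mog cd0q2 cd1q2a pd0 false true true .pp 2 0 2
    ndB0q2 ndB1q2a pcB0 Cut.none Ext.none :=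
  certB0 (fam := false) (s1 := true) (s2 := true) (a := 2) (b := 0) (c := 2) (cn := .pp) (n1 := ndB0q2) (n2 := ndB1q2a) (pc := pcB0) (cut := Cut.none) (xt := Ext.none) (P1 := 0) (W1 := 536870912) (P2 := 0) (W2 := 536870912) (P3 := 991146299) (W3 := 28908434) (N0 := 3) (En := eng) (mo := mog) (C1 := cd0q2) (C2 := cd1q2a) (C3 := pd0)
    rfl k0_pp_202_a

noncomputable def f_pp_202_b : ℕ → ℕ → ℕ → ℕ → Bool := onCell 0 536870912 1239849684 370763052 991146299 28908434
    (rowB 3 eng mog cd0q2 cd1q2b pd0 0 false true true .pp 2 0 2 (qsf 0 536870912 1239849684 370763052 0) ndB0q2 ndB1q2b pcB0 Cut.none Ext.none)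

def k0_pp_202_b : ∃ t, chk3 f_pp_202_b t 1 1 1 = true :=
  ⟨(l 3), by decide +kernel⟩

theorem c_pp_202_b : CertB 0 536870912 1239849684 370763052 991146299 28908434 3 eng mog cd0q2 cd1q2b pd0 false true true .pp 2 0 2
    ndB0q2 ndB1q2b pcB0 Cut.none Ext.none :=
  certB0 (fam := false) (s1 := true) (s2 := true) (a := 2) (b := 0) (c := 2) (cn := .pp) (n1 := ndB0q2) (n2 := ndB1q2b) (pc := pcB0) (cut := Cut.none) (xt := Ext.none) (P1 := 0) (W1 := 536870912) (P2 := 1239849684) (W2 := 370763052) (P3 := 991146299) (W3 := 28908434) (N0 := 3) (En := eng) (mo := mog) (C1 := cd0q2) (C2 := cd1q2b) (C3 := pd0)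
    rfl k0_pp_202_b

noncomputable def f_pp_203 : ℕ → ℕ → ℕ → ℕ → Bool := onCell 0 536870912 0 536870912 991146299 28908434
    (rowB 3 eng mog cd0q2 cd1q3 pd0 1 false true true .up 2 0 3 (qsf 0 536870912 1610612736 536870912 0) ndB0q2 ndB1q3 pcB0 Cut.none Ext.none)

def k0_pp_203 : ∃ t, chk3 f_pp_203 t 1 1 1 = true :=
  ⟨(l 3), by decide +kernel⟩

theorem c_pp_203 : CertB 0 536870912 1610612736 536870912 991146299 28908434 3 eng mog cd0q2 cd1q3 pd0 false true true .up 2 0 3
    ndB0q2 ndB1q3 pcB0 Cut.none Ext.none :=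
  certB1 (fam := false) (s1 := true) (s2 := true) (a := 2) (b := 0) (c := 3) (cn := .up) (n1 := ndB0q2) (n2 := ndB1q3) (pc := pcB0) (cut := Cut.none) (xt := Ext.none) (P1 := 0) (W1 := 536870912) (P2 := 1610612736) (W2 := 536870912) (P3 := 991146299) (W3 := 28908434) (N0 := 3) (En := eng) (mo := mog) (C1 := cd0q2) (C2 := cd1q3) (C3 := pd0)
    rfl (fun _ => rfl) k0_pp_203

noncomputable def cut_pp_213 : Cut := Cut.of [[⟨0, 1, 0, 37748736⟩, ⟨1, 1, 0, 37748736⟩, ⟨2, 2, 0, 5242880⟩]]

noncomputable def f_pp_213 : ℕ → ℕ → ℕ → ℕ → Bool := onCell 0 536870912 1610612736 536870912 991146299 28908434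
    (rowB 3 eng mog cd0q2 cd1q3 pd1 0 false true true .pnn 2 1 3 (qsf 0 536870912 1610612736 536870912 1) ndB0q2 ndB1q3 pcB1 cut_pp_213 Ext.none)

def k0_pp_213 : ∃ t, chk3 f_pp_213 t 1 1 1 = true :=
  ⟨(b (l 3) (a (l 3) (b (l 3) (a (l 3) (b (l 3) (a (l 3) (b (l 3) (a (l 3) (b (l 3) (b (l 3) (b (l 3) (l 6)))))))))))), by decide +kernel⟩

theorem c_pp_213 : CertB 0 536870912 1610612736 536870912 991146299 28908434 3 eng mog cd0q2 cd1q3 pd1 false true true .pnn 2 1 3
    ndB0q2 ndB1q3 pcB1 cut_pp_213 Ext.none :=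
  certB0 (fam := false) (s1 := true) (s2 := true) (a := 2) (b := 1) (c := 3) (cn := .pnn) (n1 := ndB0q2) (n2 := ndB1q3) (pc := pcB1) (cut := cut_pp_213) (xt := Ext.none) (P1 := 0) (W1 := 536870912) (P2 := 1610612736) (W2 := 536870912) (P3 := 991146299) (W3 := 28908434) (N0 := 3) (En := eng) (mo := mog) (C1 := cd0q2) (C2 := cd1q3) (C3 := pd1)
    rfl k0_pp_213

noncomputable def f_pm_001 : ℕ → ℕ → ℕ → ℕ → Bool := onCell 0 536870912 536870912 536870912 991146299 28908434
    (rowB 3 eng mog cd0q0 cd1q1 pd0 0 false true false .up 0 0 1 (qsf 0 536870912 536870912 536870912 0) ndB0q0 ndB1q1 pcB0 Cut.none Ext.none)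

def k0_pm_001 : ∃ t, chk3 f_pm_001 t 1 1 1 = true :=
  ⟨(a (l 4) (b (l 4) (a (l 4) (b (l 4) (b (l 4) (a (l 4) (b (l 4) (a (b (l 4) (l 2)) (b (a (b (l 4) (a (l 4) (l 15866664))) (c (l 15763056) (b (l 15891920) (l 15845424)))) (a (a (l 2) (a (l 2) (l 15781992))) (c (l 15767480) (l 15739096)))))))))))), by decide +kernel⟩

theorem c_pm_001 : CertB 0 536870912 536870912 536870912 991146299 28908434 3 eng mog cd0q0 cd1q1 pd0 false true false .up 0 0 1
    ndB0q0 ndB1q1 pcB0 Cut.none Ext.none :=
  certB0 (fam := false) (s1 := true) (s2 := false) (a := 0) (b := 0) (c := 1) (cn := .up) (n1 := ndB0q0) (n2 := ndB1q1) (pc := pcB0) (cut := Cut.none) (xt := Ext.none) (P1 := 0) (W1 := 536870912) (P2 := 536870912) (W2 := 536870912) (P3 := 991146299) (W3 := 28908434) (N0 := 3) (En := eng) (mo := mog) (C1 := cd0q0) (C2 := cd1q1) (C3 := pd0)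
    rfl k0_pm_001

noncomputable def f_pm_011 : ℕ → ℕ → ℕ → ℕ → Bool := onCell 0 536870912 536870912 536870912 991146299 28908434
    (rowB 3 eng mog cd0q0 cd1q1 pd1 0 false true false .pnn 0 1 1 (qsf 0 536870912 536870912 536870912 1) ndB0q0 ndB1q1 pcB1 Cut.none Ext.none)

def k0_pm_011 : ∃ t, chk3 f_pm_011 t 1 1 1 = true :=
  ⟨(a (l 4) (b (l 4) (b (l 4) (a (l 4) (b (l 4) (a (l 4) (b (l 4) (a (b (l 4) (a (l 4) (l 15773856))) (b (a (l 15902416) (l 15876200)) (a (l 15846888) (l 15802912))))))))))), by decide +kernel⟩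

theorem c_pm_011 : CertB 0 536870912 536870912 536870912 991146299 28908434 3 eng mog cd0q0 cd1q1 pd1 false true false .pnn 0 1 1
    ndB0q0 ndB1q1 pcB1 Cut.none Ext.none :=
  certB0 (fam := false) (s1 := true) (s2 := false) (a := 0) (b := 1) (c := 1) (cn := .pnn) (n1 := ndB0q0) (n2 := ndB1q1) (pc := pcB1) (cut := Cut.none) (xt := Ext.none) (P1 := 0) (W1 := 536870912) (P2 := 536870912) (W2 := 536870912) (P3 := 991146299) (W3 := 28908434) (N0 := 3) (En := eng) (mo := mog) (C1 := cd0q0) (C2 := cd1q1) (C3 := pd1)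
    rfl k0_pm_011

noncomputable def cut_pm_012_a : Cut := Cut.of [[⟨0, 0, 0, 53687091⟩, ⟨1, 1, 0, 53687091⟩, ⟨2, 1, 0, 53687091⟩]]

noncomputable def f_pm_012_a : ℕ → ℕ → ℕ → ℕ → Bool := onCell 536870912 536870912 0 536870912 991146299 28908434
    (rowB 3 eng mog cd0q0 cd1q2a pd1 2 false true false .pnp 0 1 2 (qsf 0 536870912 0 536870912 1) ndB0q0 ndB1q2a pcB1 cut_pm_012_a Ext.none)

def k0_pm_012_a : ∃ t, chk3 f_pm_012_a t 2 2 1 = true :=
  ⟨(a (b (l 2) (a (l 2) (a (l 2) (b (l 2) (a (l 2) (l 15781336)))))) (b (a (a (a (l 2) (b (l 16520712) (l 16418512))) (b (c (l 16532680) (l 16471392)) (c (l 16363648) (l 16287688)))) (a (b (a (l 16537272) (l 16486608)) (c (l 16294744) (l 16290296))) (b (a (l 16379520) (l 16405032)) (c (l 16302480) (l 16237456))))) (a (b (a (a (l 16168944) (l 16149840)) (c (l 16139016) (l 16125280))) (b (a (l 15892808) (c (l 16064744) (l 15979992))) (a (c (l 15978104) (l 15887784)) (a (l 15918488) (b (l 15941912) (l 15899240)))))) (b (a (c (l 16137944) (l 16103768)) (c (l 16161120)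 (l 16089640))) (a (b (c (l 16051176) (l 15968888)) (c (a (l 15977576) (l 15980192)) (a (l 15892192) (l 15920552)))) (b (a (l 16017936) (b (l 16046688) (l 16020640))) (c (l 16049056) (l 15978624)))))))), by decide +kernel⟩

def k1_pm_012_a : ∃ t, chk3 f_pm_012_a t 4 3 1 = true :=
  ⟨(b (a (l 2) (b (a (l 2) (b (b (l 15862976) (a (l 15796576) (a (l 15794104) (l 15780016)))) (c (b (l 15845912) (l 15880696)) (l 15735928)))) (a (c (b (l 15875416) (l 15968688)) (b (l 15801152) (l 15916680))) (c (b (l 15940992) (l 16026016)) (l 15717280))))) (a (b (a (l 2) (b (c (l 16013304) (l 15979464)) (c (l 16123928) (l 16115024)))) (b (a (b (l 16123688) (l 16169016)) (b (l 16172072) (l 16277648))) (a (b (l 16138448) (a (l 16083216) (l 16091768))) (c (l 16085504) (a (l 16107064) (l 16116248)))))) (b (a (b (c (l 16067312) (l 16037960)) (c (l 16171184) (l 16165240))) (b (l 16062768) (l 16107824))) (b (a (c (l 16279696) (l 16297952)) (c (l 16316976) (l 16337768))) (a (c (l 16149056) (b (l 16302496) (l 16169032))) (a (l 16106792)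 (l 16141144))))))), by decide +kernel⟩

def k2_pm_012_a : ∃ t, chk3 f_pm_012_a t 5 3 1 = true :=
  ⟨(b (a (b (b (a (a (b (l 15842512) (l 15822384)) (b (l 15847200) (l 15856808))) (c (a (l 15927824) (l 15959072)) (l 15861888))) (a (c (l 15931528) (l 15853952)) (c (l 15997064) (l 15929584)))) (a (c (b (l 16002240) (l 16078808)) (l 15865312)) (c (l 15946056) (l 15947008)))) (b (a (c (b (l 16011288) (l 16057792)) (l 15824088)) (c (b (l 16076504) (l 16113872)) (b (l 16019168) (l 16070224)))) (a (c (b (l 16110520) (l 16170616)) (l 15941424)) (c (b (l 16158208) (l 16210640)) (b (l 16128992) (l 16196432)))))) (a (b (b (a (l 16110480) (l 16154296)) (a (l 16190240) (l 16185064))) (b (a (l 16194136) (l 16225392)) (a (c (l 16289200) (l 16182128)) (c (l 16343736) (l 16257040))))) (b (a (b (c (l 16238896) (l 16233808)) (c (l 16316680) (l 16330120))) (b (c (l 16272168) (l 16274008)) (c (l 16344472) (l 16362832)))) (b (a (c (l 16405112) (l 16438008)) (c (l 16429016) (l 16464568))) (a (c (l 16400768) (l 16298832))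 (a (l 16320816) (l 16298224))))))), by decide +kernel⟩

def k3_pm_012_a : ∃ t, chk3 f_pm_012_a t 6 2 1 = true :=
  ⟨(a (b (a (b (a (l 16374608) (l 16351336)) (c (l 16272736) (l 16214184))) (b (a (l 16335368) (l 16326832)) (a (l 16242504) (l 16250672)))) (b (a (c (l 16062664) (l 16104600)) (a (c (l 16188344) (l 16134064)) (b (l 16202048) (l 16196424)))) (a (b (c (b (l 16110736) (l 16104024)) (a (l 16025816) (l 16063792))) (c (l 16115312) (l 16060952))) (a (c (l 16162360) (l 16115064)) (c (l 16173512) (l 16155168)))))) (b (a (b (a (l 16325856) (l 16332544)) (a (l 16266184) (l 16289112))) (b (a (l 16347008) (l 16369328)) (a (l 16319520) (l 16357480)))) (b (a (c (b (l 16266456) (a (l 16234744) (l 16273416))) (b (l 16228736) (l 16175784))) (a (b (l 16308136) (l 16298688)) (b (a (l 16344000) (l 16368680)) (l 16338576)))) (a (c (a (l 16206560) (l 16259504)) (a (l 16195688) (l 16234720))) (c (a (l 16290376) (l 16320136)) (a (l 16272224) (l 16308184))))))), by decide +kernel⟩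

def k4_pm_012_a : ∃ t, chk3 f_pm_012_a t 6 3 1 = true :=
  ⟨(b (a (b (a (c (b (l 16137288) (l 16165864)) (b (l 16093984) (l 16134408))) (c (b (l 16194000) (l 16214368)) (b (l 16163928) (l 16193760)))) (a (c (b (l 16202216) (l 16247440)) (b (l 16183072) (l 16241240))) (b (c (l 16243152) (l 16232632)) (c (l 16281656) (l 16281872))))) (a (b (c (b (l 16247008) (l 16259496)) (b (l 16228512) (l 16248240))) (b (a (l 16269256) (l 16289120)) (a (l 16307488) (l 16323832)))) (b (c (a (l 16287592) (l 16309568)) (b (l 16287712) (l 16297792))) (b (a (l 16308112) (l 16326240)) (a (l 16339440) (l 16354344)))))) (a (b (a (b (c (l 16302896) (l 16310336)) (c (l 16370168) (l 16371008))) (b (c (l 16331344) (l 16343080)) (c (l 16373112) (l 16376008)))) (a (b (b (l 16361344) (l 16430312)) (a (l 16318072) (l 16338352))) (b (a (l 16400840) (l 16389784)) (b (l 16429032) (a (l 16444840) (l 16446496)))))) (b (b (a (a (l 16358064) (l 16371400)) (c (l 16341400) (l 16356064))) (a (c (l 16353896) (l 16377936)) (a (l 16381432) (b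 (l 16437832) (l 16471304))))) (a (b (a (l 16399328) (b (l 16470272) (l 16514784))) (a (a (l 16437744) (l 16448352)) (a (l 16458984) (l 16469632)))) (b (a (a (l 16436232) (l 16440688)) (b (l 16488632) (l 16490048))) (b (b (l 16501040) (l 16523184)) (a (l 16515184) (l 16516720)))))))), by decide +kernel⟩

def k5_pm_012_a : ∃ t, chk3 f_pm_012_a t 7 2 1 = true :=
  ⟨(a (b (a (b (a (l 16399616) (l 16437944)) (a (l 16403040) (b (l 16448952) (l 16419096)))) (b (c (l 16402256) (l 16430840)) (b (a (l 16506120) (l 16542328)) (a (c (l 16516304) (l 16521376)) (b (l 16487552) (l 16537264)))))) (a (b (a (b (b (l 16409792) (l 16398992)) (l 16377328)) (b (l 16408008) (l 16414536))) (a (c (l 16348832) (l 16342496)) (b (l 16386128) (l 16365288)))) (b (a (b (l 16448208) (l 16450128)) (b (l 16508000) (l 16442112))) (a (b (l 16417000) (l 16391752)) (b (l 16446344) (l 16416848)))))) (b (a (a (b (l 16461768) (b (c (l 16452008) (l 16463904)) (l 16432120))) (b (l 16384680) (b (b (a (l 16448952) (l 16418328)) (a (l 16444008)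 (l 16422752))) (l 16439672)))) (b (a (c (l 16332840) (l 16373456)) (b (l 16310464) (a (c (l 16353568) (l 16325592)) (b (l 16308448) (a (l 16308856) (l 16295720)))))) (a (b (b (a (l 16368584) (l 16364248)) (l 16394920)) (l 16384776)) (c (b (l 16359216) (l 16403944)) (l 16294984))))) (a (b (a (c (l 16491968) (l 16498560)) (a (l 16458416) (l 16444592))) (a (b (l 16432160) (l 16419552)) (b (l 16437296) (l 16420792)))) (b (a (a (l 16409960) (l 16396480)) (c (l 16383232) (l 16369760))) (a (c (l 16413632) (l 16426944)) (b (l 16482480) (l 16440056))))))), by decide +kernel⟩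

def k6_pm_012_a : ∃ t, chk3 f_pm_012_a t 7 6 1 = true :=
  ⟨(a (a (b (a (b (l 16329496) (l 16331032)) (b (l 16353104) (l 16350832))) (b (a (l 16343512) (l 16359952)) (a (l 16368568) (l 16382144)))) (b (a (b (l 16375528) (l 16369624)) (b (l 16396752) (l 16387400))) (b (a (l 16375560) (l 16369200)) (a (l 16374128) (c (l 16404424) (l 16410632)))))) (a (b (a (b (l 16416744) (l 16383064)) (b (l 16414448) (c (l 16417584) (l 16422456)))) (b (a (c (l 16402216) (l 16406664)) (c (l 16416488) (l 16419776))) (a (c (l 16417448) (l 16421984)) (c (l 16430744) (l 16433312))))) (b (a (b (l 16390296) (c (l 16433208) (l 16437400))) (b (c (l 16466576) (l 16473672)) (c (l 16448536) (l 16451672)))) (c (b (a (l 16430776) (l 16444752)) (a (l 16444048) (b (l 16451416) (l 16462288)))) (b (a (l 16432568) (l 16444696)) (a (l 16444336) (b (l 16449504) (l 16459520)))))))), by decide +kernel⟩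

def k7_pm_012_a : ∃ t, chk3 f_pm_012_a t 14 7 1 = true :=
  ⟨(b (a (b (a (l 16366176) (c (l 16413472) (l 16425592))) (a (b (l 16448088) (l 16480808)) (b (l 16458000) (l 16490168)))) (b (a (c (l 16425240) (l 16435504)) (b (l 16430568) (l 16451936))) (a (b (l 16468072) (l 16499920)) (b (l 16478424) (l 16489288))))) (a (b (b (a (l 16497520) (l 16506800)) (a (l 16519792) (l 16529040))) (b (a (l 16548016) (l 16557656)) (a (l 16538600) (l 16570088)))) (a (b (b (l 16516488) (l 16518056)) (b (l 16546960) (a (l 16616976) (l 16606368)))) (b (b (l 16505864) (a (l 16567760) (l 16573072))) (b (a (l 16575464) (l 16581272)) (b (l 16620760) (c (l 16670072) (l 16647088)))))))), by decide +kernel⟩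

def k8_pm_012_a : ∃ t, chk3 f_pm_012_a t 15 7 1 = true :=
  ⟨(b (a (b (a (b (l 16441880) (l 16462992)) (b (l 16453432) (l 16453200))) (a (b (l 16489232) (c (l 16516808) (l 16525224))) (b (a (l 16497368) (l 16502632)) (a (l 16528792) (l 16534584))))) (b (a (b (a (l 16461968) (l 16467416)) (c (l 16485256) (l 16485064))) (b (a (l 16473296) (l 16479632)) (a (l 16494352) (c (l 16503640) (l 16499272))))) (a (b (a (l 16508408) (l 16514704)) (a (l 16519968) (c (l 16548160) (l 16548232)))) (b (a (c (l 16523096) (l 16520648)) (c (l 16531504) (l 16527264))) (a (c (l 16556696) (l 16554880)) (b (l 16553760) (c (l 16573640) (l 16569984)))))))) (a (b (b (a (a (l 16555720) (l 16539968)) (a (l 16545848) (b (l 16562688) (l 16583968)))) (a (a (l 16557376) (l 16563456)) (a (b (l 16599752) (l 16624384)) (b (l 16607104) (l 16611208))))) (a (a (b (b (l 16615744) (l 16643168)) (b (l 16672904) (l 16650856))) (b (b (l 16622408) (l 16629600)) (b (l 16659928) (l 16658696)))) (b (b (a (l 16629984) (l 16637856)) (a (l 16637544)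 (l 16645128))) (a (b (l 16667736) (c (l 16695344) (l 16680376))) (l 6))))) (b (b (a (a (b (l 16569872) (l 16591480)) (b (l 16577528) (l 16599112))) (a (b (l 16584744) (l 6)) (l 6))) (a (a (b (l 16614856) (l 16618768)) (b (c (l 16620928) (l 16623240)) (l 6))) (l 6))) (a (a (b (b (l 16634664) (l 6)) (l 6)) (l 6)) (l 6))))), by decide +kernel⟩

theorem s9_pm_012_a : ∃ t, chk3 f_pm_012_a t 7 7 1 = true := ex3_a k7_pm_012_a k8_pm_012_a

theorem s10_pm_012_a : ∃ t, chk3 f_pm_012_a t 7 3 1 = true := ex3_b k6_pm_012_a s9_pm_012_a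

theorem s11_pm_012_a : ∃ t, chk3 f_pm_012_a t 7 1 1 = true := ex3_b k5_pm_012_a s10_pm_012_a

theorem s12_pm_012_a : ∃ t, chk3 f_pm_012_a t 6 1 1 = true := ex3_b k3_pm_012_a k4_pm_012_a

theorem s13_pm_012_a : ∃ t, chk3 f_pm_012_a t 3 1 1 = true := ex3_a s12_pm_012_a s11_pm_012_a

theorem s14_pm_012_a : ∃ t, chk3 f_pm_012_a t 2 3 1 = true := ex3_a k1_pm_012_a k2_pm_012_a

theorem s15_pm_012_a : ∃ t, chk3 f_pm_012_a t 2 1 1 = true := ex3_b k0_pm_012_a s14_pm_012_a

theorem s16_pm_012_a : ∃ t, chk3 f_pm_012_a t 1 1 1 = true := ex3_a s15_pm_012_a s13_pm_012_a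

theorem c_pm_012_a : CertB 0 536870912 0 536870912 991146299 28908434 3 eng mog cd0q0 cd1q2a pd1 false true false .pnp 0 1 2
    ndB0q0 ndB1q2a pcB1 cut_pm_012_a Ext.none :=
  certB2 (fam := false) (s1 := true) (s2 := false) (a := 0) (b := 1) (c := 2) (cn := .pnp) (n1 := ndB0q0) (n2 := ndB1q2a) (pc := pcB1) (cut := cut_pm_012_a) (xt := Ext.none) (P1 := 0) (W1 := 536870912) (P2 := 0) (W2 := 536870912) (P3 := 991146299) (W3 := 28908434) (N0 := 3) (En := eng) (mo := mog) (C1 := cd0q0) (C2 := cd1q2a) (C3 := pd1)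
    rfl (fun _ => rfl) s16_pm_012_a

noncomputable def cut_pm_012_b : Cut := Cut.of [[⟨0, 0, 0, 53687091⟩, ⟨1, 1, 0, 53687091⟩, ⟨2, 1, 0, 53687091⟩]]

noncomputable def f_pm_012_b : ℕ → ℕ → ℕ → ℕ → Bool := onCell 0 536870912 536870912 536870912 991146299 28908434
    (rowB 3 eng mog cd0q0 cd1q2b pd1 1 false true false .pnp 0 1 2 (qsf 0 536870912 1239849684 370763052 1) ndB0q0 ndB1q2b pcB1 cut_pm_012_b Ext.none)

def k0_pm_012_b : ∃ t, chk3 f_pm_012_b t 1 1 1 = true :=
  ⟨(b (a (l 1) (b (l 1) (a (l 1) (b (a (l 1) (a (b (l 1) (l 325913531287)) (b (l 330208344007) (l 74121138647)))) (a (b (a (l 1) (l 239477408183)) (a (l 241624808903) (l 54256930183))) (b (a (l 16562208) (l 16597640)) (a (l 16474776) (l 16460576)))))))) (a (a (l 1) (b (l 1) (a (b (l 1) (a (b (l 1) (b (l 1) (a (l 1) (l 333429567399)))) (b (a (l 1) (l 262562674823)) (b (l 288332327655) (a (l 308733386663) (l 16409696)))))) (b (b (a (l 1) (b (l 1) (l 273837014327))) (a (l 266857801815) (b (l 298533033159) (a (l 16515952) (l 16453808)))))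 (b (a (b (l 293164433799) (l 314102343783)) (a (l 16503688) (l 16440488))) (a (b (l 16445184) (l 16459752)) (l 16471120))))))) (b (a (a (b (l 1) (a (b (l 1) (l 279205563143)) (b (l 283500447831) (b (l 308733351623) (l 291553432487))))) (b (a (b (l 1) (l 289942872583)) (b (l 299606592711) (c (l 250751255271) (l 16266944)))) (a (b (a (l 252361868583) (l 280815949431)) (b (l 16296088) (l 16261152))) (b (b (l 16302568) (l 16258992)) (l 16199360))))) (b (a (b (a (l 244308783191) (l 16358816)) (a (l 16272640) (l 16266648))) (b (a (l 16348328) (l 16326664)) (l 16171696))) (a (a (b (l 16216680) (l 16130376)) (l 15905232)) (b (l 16099520) (l 15997440))))) (a (b (a (a (b (b (l 303364737207) (l 300143475271)) (a (l 16401568) (l 16345240))) (b (b (l 16322104) (l 16296504)) (l 16265736))) (a (b (l 16215488) (l 16168440)) (b (l 16132064) (l 16080656)))) (a (b (a (l 16350736) (l 16240016)) (a (l 16347280) (l 16233504))) (a (l 16111392) (l 16038656)))) (b (a (b (l 16024656) (l 15965712)) (b (l 15909888) (l 15839312)))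 (a (b (l 15925272) (l 15905480)) (l 15771584))))))), by decide +kernel⟩

theorem c_pm_012_b : CertB 0 536870912 1239849684 370763052 991146299 28908434 3 eng mog cd0q0 cd1q2b pd1 false true false .pnp 0 1 2
    ndB0q0 ndB1q2b pcB1 cut_pm_012_b Ext.none :=
  certB1 (fam := false) (s1 := true) (s2 := false) (a := 0) (b := 1) (c := 2) (cn := .pnp) (n1 := ndB0q0) (n2 := ndB1q2b) (pc := pcB1) (cut := cut_pm_012_b) (xt := Ext.none) (P1 := 0) (W1 := 536870912) (P2 := 1239849684) (W2 := 370763052) (P3 := 991146299) (W3 := 28908434) (N0 := 3) (En := eng) (mo := mog) (C1 := cd0q0) (C2 := cd1q2b) (C3 := pd1)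
    rfl (fun _ => rfl) k0_pm_012_b

noncomputable def cut_pm_022_a : Cut := Cut.of [[⟨0, 0, 0, 53687091⟩, ⟨1, 1, 0, 53687091⟩, ⟨2, 1, 0, 53687091⟩]]

noncomputable def f_pm_022_a : ℕ → ℕ → ℕ → ℕ → Bool := onCell 1073741824 536870912 0 536870912 991146299 28908434
    (rowB 3 eng mog cd0q0 cd1q2a pd2 2 false true false .pp 0 2 2 (qsf 0 536870912 0 536870912 2) ndB0q0 ndB1q2a pcB2 cut_pm_022_a Ext.none)

def k0_pm_022_a : ∃ t, chk3 f_pm_022_a t 4 2 2 = true :=
  ⟨(a (b (a (b (a (l 16159840) (l 16160336)) (b (l 16092264) (a (b (l 16086648) (a (l 16082016) (l 16100424))) (b (a (l 16095288) (l 16105472)) (l 16126088))))) (b (l 16139984) (b (a (l 16124288) (b (l 16132368) (l 16132200))) (a (l 16120416) (l 16168304))))) (a (b (a (a (l 15974680) (l 16073888)) (b (l 16170776) (l 16228496))) (a (b (l 16264536) (l 16324096)) (b (l 16284040) (l 16337584)))) (b (a (l 16095872) (l 16112792)) (a (b (l 16297896) (l 16344336)) (b (l 16303168) (l 16341744)))))) (b (a (b (a (l 16162648) (l 16165248)) (a (b (l 16043832)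 (l 16188840)) (b (l 16164400) (l 16200576)))) (b (a (l 16166600) (l 16170096)) (a (l 16191696) (l 16197776)))) (a (b (a (l 16120912) (l 16141920)) (a (b (l 16298904) (l 16328640)) (b (l 16286936) (l 16309232)))) (b (a (l 16199056) (b (l 16226160) (l 16240728))) (a (b (l 16270696) (l 16244472)) (b (l 16252264) (c (l 16247752) (l 16231912)))))))), by decide +kernel⟩

def k1_pm_022_a : ∃ t, chk3 f_pm_022_a t 4 2 3 = true :=
  ⟨(a (b (a (b (a (l 15942112) (l 15959776)) (b (a (l 15881448) (l 15903808)) (a (b (a (l 15840320) (l 15856456)) (a (l 15841024) (l 15873296))) (b (a (l 15874600) (l 15896776)) (l 15919608))))) (b (a (l 15978352) (l 15998184)) (b (b (l 15868072) (a (l 15924328) (l 15963496))) (a (l 15831432) (l 16010976))))) (a (b (a (b (l 15816592) (l 16004912)) (b (l 15978496) (l 16054704))) (a (b (l 16085856) (l 16164680)) (b (l 16128248) (l 16199440)))) (b (a (b (l 16029552) (l 16097976)) (b (l 16074640) (l 16134376))) (a (b (l 16164248) (l 16226576)) (b (l 16190592) (l 16243208)))))) (b (a (b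 (a (l 16019720) (l 16044112)) (a (b (b (l 15995496) (l 16014760)) (l 16057392)) (b (l 16045784) (l 16093960)))) (b (a (l 16068320) (l 16074840)) (a (l 16104104) (l 16134560)))) (a (b (a (b (l 16110920) (l 16161032)) (b (l 16137608) (l 16177112))) (a (b (l 16206232) (l 16248024)) (b (l 16213080) (l 16245512)))) (b (a (b (l 16157224) (l 16187696)) (b (l 16174072) (l 16195520))) (a (b (l 16214800) (l 16238752)) (b (l 16213576) (c (l 16215664) (l 16199008)))))))), by decide +kernel⟩

def k2_pm_022_a : ∃ t, chk3 f_pm_022_a t 8 6 1 = true :=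
  ⟨(a (b (c (a (b (l 16340184) (c (l 16468728) (l 16410328))) (b (l 16347784) (l 16354816))) (a (b (l 16241688) (a (l 16311208) (l 16323120))) (b (l 16227048) (l 16209272)))) (a (b (c (c (l 16518280) (l 16468816)) (c (l 16417408) (l 16364072))) (c (b (l 16491048) (l 16474160)) (a (l 16397576) (l 16398432)))) (b (c (c (l 16505256) (l 16463512)) (a (l 16397552) (l 16397664))) (c (a (c (l 16549184) (l 16513832)) (l 16456688)) (a (l 16395472) (b (l 16439776) (l 16467048))))))) (b (c (a (b (l 16366944) (a (l 16431976) (l 16423528))) (b (l 16333968) (a (l 16413128) (l 16401024)))) (a (b (l 16264752) (a (l 16341040) (l 16340568))) (b (l 16228064) (a (l 16337840) (l 16333144))))) (c (a (b (a (l 16449072) (l 16436792)) (a (b (l 16497216) (l 16514624)) (b (l 16482384) (l 16498520)))) (b (c (l 16408248) (l 16380040)) (a (b (l 16466256) (l 16480856)) (b (l 16448576) (l 16419592))))) (a (b (a (l 16394600) (l 16389392)) (a (b (l 16433400) (l 16458568)) (b (l 16424984) (l 16448464)))) (b (c (l 16350888) (l 16299816))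 (a (b (l 16415008) (l 16436504)) (b (l 16403176) (l 16401600)))))))), by decide +kernel⟩

def k3_pm_022_a : ∃ t, chk3 f_pm_022_a t 8 7 1 = true :=
  ⟨(a (b (b (a (c (a (b (l 16586680) (l 16610312)) (b (l 16575752) (l 16576592))) (a (b (l 16513216) (l 16525440)) (b (l 16509040) (l 16519032)))) (c (a (c (l 16586264) (l 16517296)) (b (l 16527208) (l 16525208))) (a (b (l 16502584) (l 16510552)) (b (l 16494072) (l 16500400))))) (b (c (a (a (l 16612608) (l 16577304)) (c (a (l 16592792) (l 16595176)) (a (l 16593112) (l 16577080)))) (a (a (l 16537400) (l 16528984)) (a (l 16497928) (c (l 16558408) (l 16539152))))) (l 6))) (l 6)) (b (b (a (a (c (b (l 16532152) (l 16507720)) (b (l 16483920) (c (l 16519648) (l 16498856)))) (c (b (l 16493576) (c (l 16538976) (l 16521896))) (b (l 16471888) (c (l 16504296) (l 16486168))))) (a (c (b (c (l 16504296) (l 16486136)) (c (l 16474984) (l 16502136))) (b (c (l 16467432) (l 16448176)) (c (l 16486928) (l 16471288)))) (b (c (c (l 16482120) (l 16466320)) (c (l 16450072) (l 16433368)))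 (c (c (a (l 16478272) (l 448857041783)) (a (l 16465096) (l 438119604471))) (c (a (l 16472536) (l 427919037431)) (a (l 16458648) (l 416644729511))))))) (a (b (a (c (a (l 16572128) (l 16541216)) (c (l 16543120) (l 16526464))) (c (c (a (l 16558744) (l 16547368)) (a (l 16544752) (l 16534448))) (c (a (l 16530344) (l 16521160)) (a (l 16515528) (l 16507512))))) (l 6)) (a (a (b (c (b (l 16526056) (l 392485711271)) (b (l 16499856) (l 330208646327))) (a (l 6) (l 1))) (b (c (b (l 346851642711) (l 547104502343)) (b (l 317323700775) (l 527240244999))) (l 1))) (a (a (b (c (l 522945264679) (l 502007287175)) (l 1)) (l 1)) (l 1))))) (a (l 6) (l 1)))), by decide +kernel⟩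

def k4_pm_022_a : ∃ t, chk3 f_pm_022_a t 9 3 1 = true :=
  ⟨(b (a (b (a (c (b (a (l 16361160) (l 16349200)) (a (l 16387144) (l 16372120))) (b (a (l 16288384) (l 16284184)) (a (l 16326376) (l 16318208)))) (c (b (a (l 16336200) (l 16322184)) (a (l 16355720) (b (l 16334600) (l 16342040)))) (b (a (l 16278712) (l 16271976)) (a (l 16308392) (l 16297152))))) (a (b (c (a (b (l 16405872) (l 16417736)) (b (l 16388328) (l 16398456))) (a (b (l 16354088) (l 16371912)) (b (l 16342704) (l 16358304)))) (c (a (b (l 16429264) (c (l 16448672) (l 16432176))) (b (a (l 16413656) (l 16381704)) (a (l 296922458727) (l 457983700615)))) (a (b (l 16389392) (c (l 16415224) (l 16397800))) (b (c (l 16382360) (l 16364544)) (a (l 16393144) (l 438656303879)))))) (b (c (a (b (l 16369272) (l 257193936727)) (c (l 424160729639) (l 414497028407))) (a (b (l 16329496) (l 16342776)) (b (l 16314736) (l 434898098791)))) (b (a (c (a (l 16370296) (l 477310979319)) (a (l 16339288) (l 460667936647))) (l 1)) (l 1))))) (b (a (c (b (a (l 16307256)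 (l 16291504)) (a (a (l 16303376) (l 16293856)) (b (l 16277440) (l 504691237239)))) (b (a (l 16264088) (l 16255144)) (a (b (l 16279976) (l 16289600)) (l 444024794103)))) (b (c (a (l 448856614807) (l 514354813847)) (a (l 16224248) (l 501469881335))) (l 1))) (a (a (a (b (c (l 482679599735) (l 464962822695)) (l 1)) (l 1)) (l 1)) (l 1)))) (a (b (a (b (a (a (b (c (l 303901857735) (l 277058264359)) (c (l 507912798759) (l 485901078295))) (b (c (l 443488262199) (l 420939642295)) (l 1))) (a (b (c (l 511670824231) (l 495564671751)) (l 1)) (l 1))) (l 1)) (l 1)) (l 1)) (l 1))), by decide +kernel⟩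

def k5_pm_022_a : ∃ t, chk3 f_pm_022_a t 5 1 1 = true :=
  ⟨(b (a (b (a (c (b (a (l 16178168) (l 16190232)) (a (l 16202496) (l 16184240))) (b (a (l 16066216) (l 16167416)) (a (l 16163104) (l 16188968)))) (b (l 1) (l 1))) (a (b (a (c (c (l 16209264) (l 16195032)) (b (l 16188256) (l 16179320))) (c (l 554619975751) (l 550324999223))) (a (c (b (l 205117067351) (l 522407763271)) (b (l 16177456) (l 516502161655))) (l 1))) (l 1))) (l 1)) (b (l 1) (l 1))), by decide +kernel⟩

def k6_pm_022_a : ∃ t, chk3 f_pm_022_a t 3 1 1 = true :=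
  ⟨(l 1), by decide +kernel⟩

theorem s7_pm_022_a : ∃ t, chk3 f_pm_022_a t 8 3 1 = true := ex3_b k2_pm_022_a k3_pm_022_a

theorem s8_pm_022_a : ∃ t, chk3 f_pm_022_a t 4 3 1 = true := ex3_a s7_pm_022_a k4_pm_022_a

theorem s9_pm_022_a : ∃ t, chk3 f_pm_022_a t 4 2 1 = true := ex3_c k0_pm_022_a k1_pm_022_a

theorem s10_pm_022_a : ∃ t, chk3 f_pm_022_a t 4 1 1 = true := ex3_b s9_pm_022_a s8_pm_022_a

theorem s11_pm_022_a : ∃ t, chk3 f_pm_022_a t 2 1 1 = true := ex3_a s10_pm_022_a k5_pm_022_a

theorem s12_pm_022_a : ∃ t, chk3 f_pm_022_a t 1 1 1 = true := ex3_a s11_pm_022_a k6_pm_022_a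

theorem c_pm_022_a : CertB 0 536870912 0 536870912 991146299 28908434 3 eng mog cd0q0 cd1q2a pd2 false true false .pp 0 2 2
    ndB0q0 ndB1q2a pcB2 cut_pm_022_a Ext.none :=
  certB2 (fam := false) (s1 := true) (s2 := false) (a := 0) (b := 2) (c := 2) (cn := .pp) (n1 := ndB0q0) (n2 := ndB1q2a) (pc := pcB2) (cut := cut_pm_022_a) (xt := Ext.none) (P1 := 0) (W1 := 536870912) (P2 := 0) (W2 := 536870912) (P3 := 991146299) (W3 := 28908434) (N0 := 3) (En := eng) (mo := mog) (C1 := cd0q0) (C2 := cd1q2a) (C3 := pd2)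
    rfl (fun _ => rfl) s12_pm_022_a

noncomputable def cut_pm_022_b : Cut := Cut.of [[⟨0, 0, 0, 53687091⟩, ⟨1, 1, 0, 53687091⟩, ⟨2, 1, 0, 53687091⟩]]

noncomputable def f_pm_022_b : ℕ → ℕ → ℕ → ℕ → Bool := onCell 0 536870912 1073741824 536870912 991146299 28908434
    (rowB 3 eng mog cd0q0 cd1q2b pd2 1 false true false .pp 0 2 2 (qsf 0 536870912 1239849684 370763052 2) ndB0q0 ndB1q2b pcB2 cut_pm_022_b Ext.none)

def k0_pm_022_b : ∃ t, chk3 f_pm_022_b t 2 2 1 = true :=
  ⟨(a (b (a (b (l 1) (b (a (l 1) (b (l 1) (c (l 377988929431) (l 374767400263)))) (a (c (l 318396173255) (l 308732235671)) (c (l 244845051943) (l 282425781607))))) (b (b (a (l 1) (b (l 1) (c (l 387652567927) (l 383894006711)))) (a (b (l 1) (c (l 382820742039) (l 380672891367))) (c (l 273836038567) (b (l 289404927175) (l 16058912))))) (b (a (c (l 280815395751) (l 285646935815)) (c (l 16170104) (l 16080408))) (a (b (l 16084624) (l 16180984)) (l 16152592))))) (b (a (b (a (c (l 209411680503) (l 209948402695)) (c (l 16205608) (l 16134872)))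 (a (b (l 16217000) (l 16253440)) (l 16188728))) (a (b (l 16234952) (l 16215000)) (b (l 16311960) (l 16026880)))) (a (b (a (c (l 16308528) (l 16213640)) (c (l 16171272) (l 16091296))) (a (c (l 16139688) (l 15961240)) (c (l 16010248) (l 15888344)))) (b (a (l 15788648) (l 15881024)) (a (l 15697200) (l 15708696)))))) (b (b (a (b (c (a (b (l 275983524983) (l 16151696)) (l 16070576)) (a (b (l 279741147735) (l 15902000)) (b (l 16071192) (l 16137208)))) (c (c (l 16138144) (l 16074264)) (a (l 15985424) (l 16186056)))) (c (b (a (l 16229968) (l 16418768)) (l 16270976)) (b (a (l 16122576) (l 16212760)) (l 16180480)))) (a (b (c (l 16214080) (l 16045024)) (c (l 16313920) (l 16349440))) (c (b (l 16281536) (l 16061680)) (b (l 16412792) (l 16171688))))) (b (a (b (c (l 16125928) (l 16142216)) (l 15801648)) (b (l 15897824) (l 15753984))) (a (b (l 15605872) (c (l 15633056) (l 15490560))) (b (l 15579608) (l 15417992)))))), by decide +kernel⟩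

def k1_pm_022_b : ∃ t, chk3 f_pm_022_b t 3 2 1 = true :=
  ⟨(a (b (b (a (c (b (l 16294824) (l 16263352)) (b (l 16284528) (l 16446192))) (c (c (l 15917432) (l 16223112)) (b (l 16422648) (l 16262800)))) (a (b (a (l 16197688) (l 16006848)) (l 15840000)) (b (l 15791136) (l 15834400)))) (b (a (b (l 15789424) (l 15624272)) (b (l 15679088) (l 15534712))) (a (b (l 15470280) (l 15327384)) (l 15233784)))) (b (b (a (c (b (l 16017592) (l 15964920)) (a (l 16249048) (l 15988432))) (c (b (l 15974704) (l 15860304)) (b (l 16066592) (l 15999040)))) (a (c (l 15778080) (l 15821528)) (b (l 15796536) (l 2)))) (b (a (l 15521320) (l 2)) (l 2)))), by decide +kernel⟩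

def k2_pm_022_b : ∃ t, chk3 f_pm_022_b t 1 3 1 = true :=
  ⟨(a (a (b (b (a (a (b (c (l 15987480) (l 15863208)) (c (l 15911360) (l 15747656))) (b (c (l 15886768) (l 15734792)) (l 15524952))) (b (a (l 15650264) (l 15583800)) (a (l 15601152) (l 15498760)))) (a (c (b (l 15624080) (l 15759240)) (b (l 15490936) (l 15566040))) (b (a (l 15547416) (l 15451176)) (c (l 15574768) (l 15384568))))) (b (a (b (c (l 15752320) (l 15572064)) (c (l 15767144) (l 15630328))) (b (c (l 15584536) (l 15405728)) (l 15477088))) (a (b (c (l 15798576) (l 15693296)) (c (l 15701608) (l 15758840))) (b (l 15606104) (l 2))))) (b (b (a (b (l 15438600) (l 15360184)) (b (l 15220776) (l 15201288))) (a (b (l 15319488) (l 15313872)) (c (l 15275968) (l 15044968)))) (b (a (b (l 15340304) (l 2)) (l 2)) (l 2)))) (b (a (b (a (b (l 15196456) (l 2)) (l 2)) (l 2)) (l 2)) (l 2))), by decide +kernel⟩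

theorem s3_pm_022_b : ∃ t, chk3 f_pm_022_b t 1 2 1 = true := ex3_a k0_pm_022_b k1_pm_022_b

theorem s4_pm_022_b : ∃ t, chk3 f_pm_022_b t 1 1 1 = true := ex3_b s3_pm_022_b k2_pm_022_b

theorem c_pm_022_b : CertB 0 536870912 1239849684 370763052 991146299 28908434 3 eng mog cd0q0 cd1q2b pd2 false true false .pp 0 2 2
    ndB0q0 ndB1q2b pcB2 cut_pm_022_b Ext.none :=
  certB1 (fam := false) (s1 := true) (s2 := false) (a := 0) (b := 2) (c := 2) (cn := .pp) (n1 := ndB0q0) (n2 := ndB1q2b) (pc := pcB2) (cut := cut_pm_022_b) (xt := Ext.none) (P1 := 0) (W1 := 536870912) (P2 := 1239849684) (W2 := 370763052) (P3 := 991146299) (W3 := 28908434) (N0 := 3) (En := eng) (mo := mog) (C1 := cd0q0) (C2 := cd1q2b) (C3 := pd2)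
    rfl (fun _ => rfl) s4_pm_022_b

end Pool.Agent.Strip051.G.I9231_9500.Tab.C.BB01

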