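import Pool.Agent.Strip051.G.I9231_9500.Tab
import Pool.Agent.Strip051.PB.ExtD3

/-! # Certificates B21 (generated) -/

set_option linter.all false
set_option maxRecDepth 100000

namespace Pool.Agent.Strip051.G.I9231_9500.Tab.C.BB01

open Pool.Agent.Strip051.PB Pool.Agent.Strip051.PB.T
open Pool.Agent.Strip051.G.I9231_9500.Tab

noncomputable def cut_pm_113 : Cut := Cut.of [[⟨0, 1, 0, 37748736⟩, ⟨1, 1, 0, 37748736⟩, ⟨2, 2, 0, 5242880⟩]]

noncomputable def xt_pm_113 : Ext := extD3 3 ⟨4, 1, 1, 5, 22, 5, 21, 25, 41, 100, 1, 20⟩ eng cd0q1 cd1q3 pd1 false true false .nn 1 1 3 rfl ndB0q1 ndB1q3 pcB1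

noncomputable def f_pm_113 : ℕ → ℕ → ℕ → ℕ → Bool := onCell 536870912 536870912 536870912 536870912 991146299 28908434
    (rowB 3 eng mog cd0q1 cd1q3 pd1 1 false true false .nn 1 1 3 (qsf 536870912 536870912 1610612736 536870912 1) ndB0q1 ndB1q3 pcB1 cut_pm_113 xt_pm_113)

def k0_pm_113 : ∃ t, chk3 f_pm_113 t 1 2 1 = true :=
  ⟨(a (b (l 1) (a (l 1) (b (l 1) (a (l 1) (b (l 1) (l 154114238759)))))) (a (b (a (l 1) (l 3)) (a (b (b (l 1) (a (l 1) (c (l 274373319159) (l 16193872)))) (b (a (l 16344136) (c (l 16263136) (l 16262440))) (a (l 16282184) (l 16215968)))) (b (a (b (l 3) (b (l 3) (l 272896774583))) (l 3)) (b (a (c (l 198808534455) (l 207935351319)) (l 3)) (a (b (l 16134072) (l 16135416)) (c (l 251959122743) (l 263233075335))))))) (l 3))), by decide +kernel⟩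

def k1_pm_113 : ∃ t, chk3 f_pm_113 t 2 3 1 = true :=
  ⟨(b (a (b (l 1) (a (l 1) (b (l 1) (l 15921312)))) (b (a (b (l 1) (a (l 1) (l 16191232))) (b (l 16042280) (l 16090424))) (a (b (a (l 16034272) (l 16031016)) (l 15885096)) (c (b (l 16030736) (l 15882752)) (b (l 15992864) (l 15840920)))))) (b (a (a (c (l 15874552) (l 15808592)) (b (l 15811656) (l 15720736))) (a (b (l 15754624) (l 15643768)) (b (a (l 15720056) (l 15704312)) (l 15557496)))) (b (a (a (l 15755912) (l 15651168)) (a (l 15555480) (l 15449920))) (a (a (l 15726256) (l 15605632)) (a (l 15492840) (l 15391048)))))), by decide +kernel⟩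

def k2_pm_113 : ∃ t, chk3 f_pm_113 t 3 6 1 = true :=
  ⟨(a (b (a (b (a (l 16202480) (l 16152200)) (a (l 16104328) (l 16070512))) (b (a (l 16077704) (a (l 16140024) (l 276118252167))) (a (l 16034984) (a (l 16006616) (l 15986512))))) (a (b (a (l 15987792) (l 15970648)) (a (l 15853888) (l 15853160))) (b (a (l 15954168) (l 15937144)) (a (l 15856496) (l 15863304))))) (a (b (a (b (l 3) (a (l 297592979463) (l 3))) (l 3)) (b (a (a (l 15922832) (l 213304169431)) (a (l 335710666103) (l 3))) (b (a (l 15884000) (l 355574873063)) (a (l 15859192) (a (l 15870816) (l 368459715127)))))) (l 3))), by decide +kernel⟩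

def k3_pm_113 : ∃ t, chk3 f_pm_113 t 6 7 1 = true :=
  ⟨(b (a (b (a (l 15704656) (l 15719696)) (a (l 15552520) (l 15573256))) (b (a (l 15743152) (l 15776360)) (a (l 15616544) (l 15678392)))) (a (b (a (l 15420800) (l 15426192)) (a (l 15330200) (l 15305848))) (b (a (l 15480664) (l 15572672)) (a (l 15348888) (l 15465648))))), by decide +kernel⟩

def k4_pm_113 : ∃ t, chk3 f_pm_113 t 7 14 1 = true :=
  ⟨(a (b (a (l 15819392) (a (l 15940224) (b (l 365775409895) (l 199882356727)))) (a (l 16016048) (a (l 15847616) (b (l 15901200) (l 15926872))))) (a (b (a (b (l 3) (c (l 397450660247) (l 403355966855))) (l 3)) (b (a (c (l 4016051572899245569064861727) (l 210082745479)) (c (l 7816914349766242627272458271) (l 444158307367))) (c (a (l 16109984) (a (l 4335207989278661333846835231) (l 7845928569438254798885912607))) (a (l 15920592) (a (l 4151451264693871887832825887) (l 8116727953031156234283040799)))))) (l 3))), by decide +kernel⟩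

def k5_pm_113 : ∃ t, chk3 f_pm_113 t 14 15 1 = true :=
  ⟨(b (a (b (l 15723768) (l 15698408)) (b (c (l 16000112) (l 15816384)) (c (l 16048048) (l 15836216)))) (a (c (l 15756016) (l 15579216)) (b (c (l 16113664) (l 15868584)) (l 571514855109614815962639)))), by decide +kernel⟩

def k6_pm_113 : ∃ t, chk3 f_pm_113 t 30 15 1 = true :=
  ⟨(b (a (b (c (l 16214888) (l 15987688)) (c (l 16362760) (l 16087056))) (b (a (c (l 584646634363970367270095) (l 16094112)) (c (c (a (l 4470607681076323404912148575) (b (l 7459072307163751939576266847) (l 5582819435123065444781998367))) (b (l 7401626317572049320885575183) (l 4355141227189461542716104207))) (a (l 3155296389331888657628774431) (b (l 7923299821893776814616805407) (l 4780092690894926360150900767))))) (a (l 587990972250651686170191) (b (c (l 16656376) (l 16330792)) (l 598865906913651884486351))))) (b (a (l 586811821538548049897487) (b (l 595063859712116051111503) (l 593712347114471025618511))) (a (l 16505984) (a (l 16559624) (a (l 16608392) (l 588720197148438454478543)))))),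 by decide +kernel⟩

def k7_pm_113 : ∃ t, chk3 f_pm_113 t 62 60 1 = true :=
  ⟨(a (a (b (l 3) (c (c (a (l 6027704136741818803009028383) (l 7391372461267511251089015071)) (a (l 5544133808894775949411746015) (b (l 3) (l 7478415120278506985015492895)))) (b (l 8068370920248858739158171679) (c (l 7508015429183096356091485711) (l 429663439975))))) (l 3)) (l 3)), by decide +kernel⟩

def k8_pm_113 : ∃ t, chk3 f_pm_113 t 62 122 1 = true :=
  ⟨(b (a (a (c (a (l 16709960) (c (l 4325536582724932266834329887) (l 6018032730184867684888084767))) (c (l 5370638170590227697402437135) (l 270749945447))) (a (c (c (b (l 416779525111) (a (l 356650004807) (b (l 419463905591) (l 400673431303)))) (b (l 415705663063) (l 7014187605548096112326443295))) (c (c (l 7449994240564936628515266063) (l 7595061689633899672479637007)) (l 7807829880709521405809171983))) (l 3))) (l 3)) (a (a (c (l 16774824) (l 16471448)) (a (c (c (a (l 16773744) (b (l 343765101239) (l 16771152))) (l 6095403982640898156277235935)) (c (l 5892901326387926027813215759)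 (l 293835622615))) (b (a (c (c (b (l 415168941015) (a (l 349133812231) (l 406042140103))) (b (l 413558346599) (l 7081887451446578018349728031))) (c (c (l 403357669847) (l 412484246567)) (l 7672434657059974042255302159))) (l 3)) (c (c (a (l 341617620599) (b (a (l 402284024391) (l 3)) (c (l 370608641287) (l 370608671015)))) (a (l 4867135349912649457003643103) (c (l 6859445100637575722956832991) (l 6869116507194445889680654559)))) (c (a (l 6163702469339818993112325647) (c (l 6695031189169988148043661535) (l 6347457937236802606020402703))) (c (l 5786513503454890766786502159) (l 304572924311))))))) (a (a (b (l 3) (b (l 3) (a (a (c (c (l 423758856375) (l 421611411303)) (c (l 417853265047) (l 438790912359))) (l 3)) (l 3)))) (l 3)) (l 3)))), by decide +kernel⟩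

def k9_pm_113 : ∃ t, chk3 f_pm_113 t 62 246 1 = true :=
  ⟨(a (a (c (l 16792072) (l 16559088)) (c (b (c (c (l 16753168) (l 16757632)) (l 143905009530126559)) (l 16768608)) (c (l 144056123641872607) (l 593291530126816637693647)))) (a (a (a (c (b (c (c (b (a (l 377051111831) (l 420000778535)) (l 368998032487)) (b (l 403357781527) (l 368998041031))) (b (a (l 6617659936714575945846128863) (l 417853295543)) (l 6443574618690043643605680351))) (c (l 16747296) (l 16755920))) (c (b (c (b (l 400136572183) (l 370071809367)) (l 6608588363655299045170093583)) (l 16764832)) (c (c (l 6279758829496376696837430799) (l 6095999856141558326518226447)) (l 5825197915656214549385616911)))) (b (a (a (b (l 3) (b (l 3) (c (c (l 402284037687) (l 399062839879)) (c (l 7081887451446771051323785439) (c (l 402283874647) (l 408189340071)))))) (l 3)) (l 3)) (c (c (c (b (a (l 372756148663) (b (l 426980102375) (l 405505270023))) (l 351281301463)) (b (a (l 371682415239) (l 410337114487)) (l 351818179863))) (a (b (l 6230803674437889181105127647)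 (l 16773960)) (b (c (l 408189639303) (l 407115906087)) (l 5273334425303099026449416415)))) (c (c (b (a (l 372219312199) (l 406042173015)) (l 356113173271)) (b (a (l 372756171111) (l 404968419095)) (l 357723794903))) (c (c (l 6618259718042517995125399055) (l 6415160030755695070923693583)) (b (l 7304926278734134410520141327) (l 338933120647))))))) (a (a (c (b (l 3) (b (l 3) (c (c (b (l 421074524455) (l 399599692183)) (b (l 418927049015) (l 396915345815))) (c (l 403894673943) (l 402820940599))))) (b (l 3) (c (b (l 3) (c (l 401210315511) (l 7217887373346069734057877007))) (c (l 7333944410555781018193845775) (c (l 7508027026132280820731207183) (l 7614410019477133283270123023)))))) (l 3)) (l 3))) (l 3))), by decide +kernel⟩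

def k10_pm_113 : ∃ t, chk3 f_pm_113 t 124 247 1 = true :=
  ⟨(c (l 16774736) (l 16713192)), by decide +kernel⟩

def k11_pm_113 : ∃ t, chk3 f_pm_113 t 250 247 1 = true :=
  ⟨(b (a (c (c (l 16752800) (l 16761256)) (c (l 16769992) (l 16713192))) (a (b (c (c (c (a (l 351281303895) (b (l 415168946647) (l 385641050759))) (a (l 16754832) (b (l 413021471079) (l 384030446087)))) (a (b (l 354502544215) (l 16772664)) (c (l 393694118135) (l 397989093799)))) (c (a (l 6414560399019458638412136671) (c (l 396915357847) (l 7130244484231357524042170591))) (c (a (l 352355033495) (b (l 406579041703) (l 6705303544964255462456942095))) (c (l 6560231800974457381567094287) (l 6347458271584038941997768207))))) (c (c (a (l 16767712) (l 16753936)) (l 16763784)) (c (l 144216995949019359) (c (l 16768320) (l 16714968))))) (c (c (c (b (a (l 431811940967) (l 3)) (a (b (a (l 392083501255) (l 426443236535)) (l 363092464647)) (b (l 3) (l 425906365287)))) (b (l 431275064551) (a (b (l 406579022311) (l 364166214743)) (l 425906371095)))) (c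 (b (l 430201341287) (a (b (l 404431546775) (l 364703093079)) (l 423758895447))) (b (l 429127607687) (a (l 391009773879) (l 422685161767))))) (c (c (b (l 428053874231) (a (l 7062544638332837891096133855) (l 421611428231))) (b (l 427516990839) (a (l 7043201825219092403715064031) (l 420537694823)))) (c (b (l 427516999479) (a (c (l 391009786727) (l 7053473946970203229643169295)) (l 421074563799))) (b (l 427516927271) (a (b (l 7188874040560186052580875791) (l 6560233046706143109341535759)) (l 7508030567618912597009260047)))))))) (a (c (l 16786832) (l 16783104)) (c (a (l 16755808) (a (c (l 16757344) (l 16754864)) (b (c (c (b (a (l 365239949847) (l 417316433383)) (l 357186887047)) (b (l 400136573623) (l 16760160))) (c (b (l 397452227031) (l 16764136)) (l 6269489300665596828419883231))) (c (l 16766792) (l 16774696))))) (a (l 144026505581674719) (b (c (a (l 16760968) (c (l 6985173385877492759104356575) (l 6946487759649910181270864095))) (a (l 16769552) (c (c (l 384030466503) (l 383493610359)) (b (a (l 365776806487)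 (l 7266245666850320188643728911)) (l 357186872807))))) (c (l 16763608) (l 16772080))))))), by decide +kernel⟩

def k12_pm_113 : ∃ t, chk3 f_pm_113 t 251 247 1 = true :=
  ⟨(a (a (b (l 3) (a (b (a (b (l 3) (c (c (c (l 412484596375) (l 408726507751)) (b (l 418927055415) (l 384030446279))) (c (b (l 7352686835040370677089108191) (l 6907802133422227754010132703)) (c (l 403357839415) (a (l 6889060946598832677370682895) (l 415168986215)))))) (l 3)) (c (b (c (c (a (l 16761304) (l 404968404839)) (l 391546641335)) (c (l 391009778263) (l 388862302599))) (c (l 16754168) (l 16761984))) (c (c (l 381882980535) (l 6685359782613138391053254879)) (c (l 6685960769896831047736024591) (b (c (l 382419861767) (l 381882995143)) (l 16770040)))))) (b (l 3) (c (b (a (c (c (l 436643785607) (l 432885696871)) (l 429664470007)) (l 3)) (c (c (a (l 401210309687) (l 431811948615)) (l 410337121271)) (c (l 407652774455) (l 406579040487)))) (c (c (l 413558357799) (l 7459072307166469039595684063)) (c (b (l 430201380903) (l 407115925303)) (b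 (l 431275110167) (a (l 6869718325446429127686200847) (l 424832661607))))))))) (l 3)) (l 3)), by decide +kernel⟩

def k13_pm_113 : ∃ t, chk3 f_pm_113 t 63 30 1 = true :=
  ⟨(l 3), by decide +kernel⟩

def k14_pm_113 : ∃ t, chk3 f_pm_113 t 124 31 1 = true :=
  ⟨(b (c (l 598251688163492120260175) (l 596718014130022327004751)) (c (l 590875296072658895414863) (l 142488907123753039))), by decide +kernel⟩

def k15_pm_113 : ∃ t, chk3 f_pm_113 t 250 124 1 = true :=
  ⟨(c (b (b (l 16757552) (l 16776960)) (l 16769280)) (c (l 600226643361758981369423) (l 601717947415860165865039))), by decide +kernel⟩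

def k16_pm_113 : ∃ t, chk3 f_pm_113 t 251 496 1 = true :=
  ⟨(b (a (a (c (c (c (a (l 16766112) (b (a (l 16762568) (l 396915343639)) (l 16764008))) (l 359334378087)) (c (l 360408127639) (l 361481877319))) (c (c (l 361481885303) (l 360945022519)) (c (l 6502204271864483068428000783) (l 6492533111744537644752477711)))) (a (b (a (b (l 3) (c (c (c (l 422148274487) (l 418927056519)) (l 414632090247)) (c (l 7255972769471188042327916767) (c (l 413021515975) (l 414095266087))))) (l 3)) (c (c (c (a (l 370608662039) (l 422148274679)) (l 403894672711)) (c (l 401210325735) (l 399062849815))) (c (c (l 396915374023) (l 395841640183)) (c (l 394767895991) (a (l 369534975015) (l 415168997175)))))) (l 3))) (l 3)) (a (a (c (l 16753704) (c (l 16786464) (l 16794640))) (a (c (c (c (l 358797502839) (l 359334381175)) (c (l 359871259319) (l 16770256))) (c (l 5582819435124493848098472159) (c (l 358260678375) (l 357723815655)))) (b (a (c (c (c (l 418390179559) (l 414632090567)) (b (l 425369508551) (l 385641062199))) (c (l 7120573077674336586779590879)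 (c (l 409263420231) (l 410337159719)))) (l 3)) (c (c (c (a (l 16762896) (l 414095213543)) (l 396915353271)) (c (l 394231006167) (l 391546659175))) (c (c (l 389936054151) (l 388325449255)) (c (l 387251694407) (l 6802018444383904003393707535))))))) (b (l 3) (b (l 3) (a (a (a (c (c (c (l 443086240839) (l 440938764455)) (l 436106937367)) (c (l 435570081719) (c (l 433959480759) (l 435033230599)))) (l 3)) (l 3)) (l 3)))))), by decide +kernel⟩

def k17_pm_113 : ∃ t, chk3 f_pm_113 t 251 497 1 = true :=
  ⟨(b (a (c (c (c (l 16759792) (l 16763488)) (c (l 16756768) (l 16760592))) (c (c (l 16764472) (l 16768424)) (c (l 16772432) (l 16776512)))) (a (a (c (b (c (c (a (l 410337118455) (l 439865015591)) (l 417316446023)) (c (l 415168969719) (l 413558364439))) (c (a (l 16766000) (c (l 402284056087) (l 380809219879))) (c (l 371145549751) (l 370608685783)))) (c (c (l 397452236343) (l 7139915890788173196215763167)) (c (b (l 405505323895) (l 369534966663)) (c (l 393694150919) (l 393157294503))))) (a (b (l 3) (b (l 3) (c (c (c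 (l 430738212423) (l 428590735895)) (l 423222037687)) (c (l 422148300343) (c (l 420000838727) (l 420537717479)))))) (l 3))) (l 3))) (a (c (l 16759328) (l 16777352)) (a (c (a (c (l 16758080) (l 16775824)) (b (c (c (a (l 374903632855) (l 431811949239)) (l 407115901159)) (c (l 404431553783) (l 402284077447))) (c (c (l 364703086631) (l 364166224071)) (l 362018745303)))) (a (c (l 16762352) (l 16770088)) (c (c (l 392083529239) (l 391009794951)) (c (b (l 397989132823) (l 16781512)) (b (l 396915388327) (l 359871299895)))))) (a (a (b (l 3) (c (c (c (l 427516983255) (l 423758899095)) (b (l 433959456039) (l 387251678247))) (c (c (l 416779598887) (l 416242735431)) (c (l 416242742999) (l 416242750695))))) (l 3)) (l 3))))), by decide +kernel⟩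

def k18_pm_113 : ∃ t, chk3 f_pm_113 t 251 249 1 = true :=
  ⟨(a (c (l 16770384) (l 16785384)) (b (c (a (c (l 16752704) (l 16759808)) (c (a (b (b (a (l 360408120247) (c (l 422685146359) (l 418927062135))) (l 16757296)) (l 16771112)) (c (b (b (l 452213047335) (a (l 411410863767) (l 447381211879))) (b (l 396378481095) (l 16767368))) (b (b (l 448991828695) (l 423758900055)) (l 367387449031)))) (c (b (a (l 389936043687) (l 428053872183)) (l 362018745895)) (b (a (l 388325438103) (l 426980137415)) (l 361481881831))))) (c (a (l 16767144) (c (b (a (l 386714832615) (l 426443273671)) (l 360945018055)) (b (a (l 385641098167) (l 426443280951)) (l 360945025479)))) (a (l 16774720) (c (b (a (l 384567342871) (l 426980138295)) (l 360408161927)) (b (a (l 6685961955388368159736618511) (b (l 444696904855) (l 408189686871))) (l 359871298663)))))) (c (b (l 16759560) (l 16763888)) (c (l 16772272) (l 16779584))))), by decide +kernel⟩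

def k19_pm_113 : ∃ t, chk3 f_pm_113 t 125 125 1 = true :=
  ⟨(a (l 600509397326816346025551) (b (c (l 16760032) (l 16773984)) (l 602045377158971312860751))), by decide +kernel⟩

def k20_pm_113 : ∃ t, chk3 f_pm_113 t 125 63 1 = true :=
  ⟨(b (a (l 143440534511829071) (l 143463211934171215)) (l 142956818047090767)), by decide +kernel⟩

def k21_pm_113 : ∃ t, chk3 f_pm_113 t 126 124 1 = true :=
  ⟨(a (b (l 3) (a (b (b (l 3) (c (a (a (c (c (b (l 445233728055) (a (l 376514249399) (l 436643796215))) (b (l 442012509255) (l 410874000599))) (c (l 422685165335) (l 421611430407))) (l 3)) (l 3)) (a (a (c (c (l 421074566503) (l 421074573623)) (c (l 421074570375) (l 7604746263995551197442907663))) (l 3)) (l 3)))) (a (c (c (c (b (a (l 361481865143) (b (l 438254408743) (l 406579029191))) (l 16759872)) (b (a (l 360408129575) (b (l 434496318887) (l 403357810215))) (l 16773592))) (b (a (l 359334392935) (c (l 417853329351) (l 416779594247))) (l 16768056))) (c (b (a (l 358260665287) (c (l 415705859271) (l 415705866215))) (l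 16774856)) (a (l 6192118048210290729107947743) (b (c (l 416242733703) (l 7508032504815270712737390095)) (l 16780168))))) (a (b (b (l 3) (c (c (a (l 452213044919) (l 3)) (l 449528712375)) (c (l 449528725831) (l 451139341975)))) (c (c (b (c (l 425906380215) (l 427516999319)) (a (l 16769112) (l 381882960791))) (c (l 412484622359) (l 410874016183))) (c (c (l 403357830087) (l 410337158727)) (c (l 401210360119) (l 411410903959))))) (a (b (l 3) (b (l 3) (c (c (b (l 3) (l 436643802295)) (l 437180684935)) (c (l 436106956279) (l 437180701223))))) (l 3))))) (l 3))) (l 3)), by decide +kernel⟩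

def k22_pm_113 : ∃ t, chk3 f_pm_113 t 252 125 1 = true :=
  ⟨(b (a (b (a (c (l 16760648) (l 16773976)) (c (c (a (l 16763216) (b (b (c (l 418390189863) (l 414632099671)) (l 363629352343)) (l 16772696))) (a (l 16759056) (b (c (l 401210335287) (l 399062858039)) (l 16778904)))) (c (b (c (l 390472917479) (l 389399182311)) (l 16786960)) (c (l 6560234445632002251086638671) (l 6550563302805867370603949647))))) (c (l 16765848) (l 16778616))) (b (a (b (b (l 3) (a (a (c (c (b (l 446307478951) (l 391009767415)) (l 425369526839)) (c (l 423758926935) (l 424832671527))) (l 3)) (l 3))) (c (c (c (a (b (l 410337128551) (l 16769144)) (b (l 460802988359) (l 433422575943))) (a (l 397452234807) (l 435570063479))) (a (b (l 401747198775) (l 16776736)) (b (l 452749939751) (l 425369521991)))) (a (c (l 372219308103) (l 6695634433729686987665829455)) (c (b (l 452213081351) (l 424832658279)) (c (l 432348869207) (l 433422617559)))))) (l 3)) (a (c (b (a (l 16766320) (c (b (l 372756158839) (l 16771760)) (l 365776846727))) (l 16758416))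 (c (l 6386149161906869317724548687) (l 6424835091641185524048932431))) (c (b (a (c (c (a (l 425906384919) (l 447918089367)) (l 429664485607)) (b (l 444696877959) (l 413558358567))) (l 3)) (c (a (l 357186902775) (c (a (l 417853323527) (l 440401898871)) (l 423758907671))) (a (l 358797526727) (b (l 436106945207) (l 404968436295))))) (b (c (c (l 435570069927) (l 436106946951)) (c (l 437180684471) (l 438254443095))) (a (c (l 358260668055) (l 357186938551)) (b (c (l 435570086087) (l 437180690023)) (c (l 381346115079) (l 380809256583))))))))) (c (a (l 16778168) (b (a (l 16764584) (b (c (l 16763952) (l 16769584)) (l 16760344))) (l 16769536))) (c (l 603267762272466553105999) (l 143903635164594255)))), by decide +kernel⟩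

def k23_pm_113 : ∃ t, chk3 f_pm_113 t 253 125 1 = true :=
  ⟨(b (a (b (l 3) (a (b (l 3) (a (b (l 3) (c (c (l 458655510263) (l 455971166823)) (c (l 455434307415) (l 457044932039)))) (l 3))) (l 3))) (l 3)) (a (b (a (c (c (b (a (b (a (l 418927068247) (l 453286803655)) (l 371145548855)) (c (l 455434282311) (l 452749933063))) (a (l 16773968) (b (a (l 374366775847) (l 440401903895)) (l 360945003655)))) (b (a (b (l 427517012407) (l 371682429079)) (b (l 3) (l 447381234007))) (l 6347463761363601653830495823))) (c (a (l 6366203366234475448219304015) (b (l 450065587319) (l 6395217585905259671202791503))) (a (l 6366203366234531935641747535) (b (l 452213082487) (l 6859445100637330394457079887))))) (b (l 3) (a (b (l 3) (c (c (a (l 433959454007) (l 3)) (l 438791301143)) (c (l 438254440951) (l 439865064759)))) (l 3)))) (a (c (c (l 16757608) (l 16762792)) (b (l 143907346001625167) (l 16772760))) (b (c (c (a (b (a (l 16766464) (l 427517004103)) (l 16772984)) (b (l 462950479943) (a (l 421074554199) (l 457044902375)))) (a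 (l 5689204907250290806958506063) (b (l 459192393639) (l 429664497319)))) (c (a (l 373829922807) (b (l 458655533143) (l 429127636727))) (c (l 418927083031) (l 420000830343)))) (c (c (c (l 356650035175) (l 357723781863)) (l 358797528199)) (c (l 360945022071) (l 360408161719)))))) (b (l 3) (b (l 3) (a (a (c (c (c (a (l 430201357431) (l 454897416487)) (l 435033198935)) (b (l 451139331607) (l 420537693447))) (b (c (l 449528728871) (l 451139351943)) (c (l 419463961527) (l 418927079847)))) (l 3)) (l 3)))))), by decide +kernel⟩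

def k24_pm_113 : ∃ t, chk3 f_pm_113 t 127 62 1 = true :=
  ⟨(l 3), by decide +kernel⟩

def k25_pm_113 : ∃ t, chk3 f_pm_113 t 126 126 1 = true :=
  ⟨(a (b (l 143823714368864335) (l 143710327229743183)) (b (a (c (b (l 143825226218815567) (l 16772848)) (b (l 143889891266953295) (l 16778248))) (b (b (a (c (a (c (l 354502553943) (l 356113176071)) (c (c (a (l 421611424967) (l 446307484023)) (l 428590749911)) (b (l 442549398631) (l 411947760455)))) (a (c (l 16775712) (l 16782032)) (b (c (l 440938795479) (l 442012547191)) (c (l 383493600119) (l 383493609879))))) (a (b (l 3) (c (c (l 467782320359) (l 464561103831)) (c (l 462950500343) (l 463487380823)))) (l 3))) (a (c (c (l 16766040) (l 16770560)) (c (l 16775240) (l 16780064))) (c (a (b (c (a (l 422685169063) (l 461876742743)) (l 433422594695)) (c (l 368461199271) (l 368998078247))) (b (l 3) (c (a (l 454897421879) (l 3)) (l 455971170791)))) (c (a (b (l 431811991095) (l 371145570583)) (l 458118650967)) (c (l 435570077431) (l 437180700119)))))) (a (c (l 16763648)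 (l 16772584)) (b (c (b (a (l 16766656) (c (a (l 371682426215) (l 448454971911)) (l 424295790727))) (c (l 350744459847) (l 352891951863))) (c (a (l 16784664) (l 6443574618690184381126508639)) (l 6433903212133235118303346783))) (c (l 16769992) (a (l 16769536) (l 16776808))))))) (a (l 143785300162560079) (c (l 143876628358889551) (l 143887073759821903))))), by decide +kernel⟩

def k26_pm_113 : ∃ t, chk3 f_pm_113 t 254 252 1 = true :=
  ⟨(a (b (l 3) (a (a (b (b (l 3) (c (c (a (l 441475651031) (l 3)) (l 446844366791)) (c (l 445770633319) (l 446844383751)))) (c (b (c (a (l 16768520) (l 434496330135)) (l 415168986727)) (c (l 16774984) (l 16778888))) (c (l 6453246025247095985686872159) (l 5930990071173365213429153871)))) (b (l 3) (c (b (c (l 472614160615) (l 469929813799)) (c (a (l 423758912871) (l 466708582967)) (l 437717562759))) (c (a (l 434496334439) (l 464561112919)) (l 448991853095))))) (l 3))) (l 3)), by decide +kernel⟩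

def k27_pm_113 : ∃ t, chk3 f_pm_113 t 254 253 1 = true :=
  ⟨(a (b (a (b (c (c (c (l 352891944199) (l 353428818791)) (l 355039434567)) (c (l 357186926279) (l 6453246025247058808459133023))) (c (l 16761136) (l 16768568))) (a (b (c (b (c (a (l 459729262055) (l 3)) (l 460803009735)) (c (a (l 370071816039) (l 452213070231)) (l 428590748215))) (b (c (l 459729275431) (l 461339895927)) (c (l 427517013767) (l 429664505031)))) (c (c (l 350207591735) (l 351818211383)) (c (l 16776392) (l 16781392)))) (b (l 3) (c (b (c (a (l 445233749335) (l 3)) (l 451676205655)) (c (l 6772402441625381383698776159) (l 6811088067853043607420846175))) (b (c (l 451139341751) (l 452749940759)) (c (l 411947758215) (l 421074570807))))))) (a (c (l 16766792) (l 16772056)) (b (c (c (l 16770440) (l 16771072)) (c (l 144171984717693023) (l 144114810098679903))) (c (l 16762688) (l 16769088))))) (b (a (a (b (l 3) (a (c (c (l 8590626874325803591108558943) (l 474761652279)) (c (l 474224788151) (l 475835407879))) (l 3))) (l 3)) (l 3)) (a (b (a (c (b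 (c (a (l 424295783015) (l 471003552151)) (l 7971656854683093868618891359)) (c (l 364166236535) (l 365239984327))) (b (c (l 442012526631) (l 444160016999)) (c (l 367924345239) (l 370608706359)))) (b (l 3) (c (c (l 8435884369415121917058154591) (l 466171719399)) (c (l 466171725527) (l 468319194519))))) (c (c (a (l 16767272) (b (a (l 366850592695) (l 456508039383)) (l 351281336647))) (l 6549960090816245497653837919)) (c (l 6569302903930067126229975135) (a (l 16765936) (l 389936056807))))) (a (b (l 3) (b (l 3) (c (c (a (l 8087713733366103217187946591) (l 3)) (l 8223113425162930827081826399)) (c (l 457044910327) (l 459729270663))))) (l 3))))), by decide +kernel⟩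

def k28_pm_113 : ∃ t, chk3 f_pm_113 t 255 126 1 = true :=
  ⟨(l 3), by decide +kernel⟩

def k29_pm_113 : ∃ t, chk3 f_pm_113 t 126 127 1 = true :=
  ⟨(a (l 143215340772851791) (b (l 143745717708046415) (l 143615975335379023))), by decide +kernel⟩

def k30_pm_113 : ∃ t, chk3 f_pm_113 t 254 127 1 = true :=
  ⟨(a (b (c (l 143826531886825551) (l 143902260738474063)) (l 143714106773225551)) (b (b (a (b (c (l 144148345210617951) (l 144128279113498719)) (c (l 16764184) (l 16767352))) (b (c (a (b (c (l 6956159166206796084724629599) (l 6859445100637614893076185183)) (l 144186690682257503)) (b (c (a (l 482814713111) (l 3)) (l 481204104007)) (c (a (l 6859445100637630354954223711) (l 475298521255)) (a (l 419463954135) (l 473151042423))))) (c (a (l 6627331343271581558684368991) (b (l 481204109207) (l 435033206295))) (a (l 6617659936714649475727294559) (b (l 483888469127) (l 437180692519))))) (c (a (l 16770280) (c (l 6366203366234832514616426591) (l 6404888992462492401874714719))) (c (l 5205634579404752154304528479) (l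 5157277546620151662878802015))))) (a (l 143952975719596111) (c (l 603025937246566156676703) (l 144019908493656143)))) (b (l 143966513438556239) (l 143892983576657999)))), by decide +kernel⟩

def k31_pm_113 : ∃ t, chk3 f_pm_113 t 255 254 1 = true :=
  ⟨(a (a (a (b (b (l 3) (c (b (c (a (l 8426212962858164201733537887) (l 3)) (l 8493912808756575189183053919)) (c (a (l 363629369623) (l 8290813271061315494965346399)) (a (l 365239986743) (l 458118652903)))) (b (c (l 472614164855) (l 459729267751)) (a (l 6656345562942324549980536927) (c (l 458118662551) (l 444696883815)))))) (b (c (c (l 5350705677758523873058586719) (l 5350705677758515626725851231)) (c (l 144156935156465759) (l 144156385405075551))) (c (l 16771760) (l 16774696)))) (b (l 3) (b (b (a (c (c (b (l 475835393975) (l 440938786535)) (l 8116727953036807038386782303)) (c (l 435033208423) (l 437180691079))) (l 3)) (c (c (a (l 327659020503) (b (l 464561105735) (l 372219305639))) (l 6859445100637580808216625247)) (c (l 6782073848182247633416011871) (l 6733716815397651265157300319))))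 (c (l 144152124785590367) (b (l 144145115407302751) (l 16773256)))))) (b (l 3) (a (b (a (b (l 3) (c (c (l 8532598434984228685521911903) (l 486572814855)) (c (l 487109689447) (l 471003555415)))) (l 3)) (c (b (a (c (l 6811088067852982309647581279) (l 6859445100637575035781726303)) (a (c (l 8600298280882643108943708255) (l 459729270583)) (l 3))) (c (a (l 16772088) (l 6646674156385384151954210911)) (l 6482260244917800494072135775))) (b (c (a (l 6898130726865251965469278303) (l 461339880743)) (a (l 391546668791) (l 462950496967))) (c (l 5166948953177091648576536671) (l 5108920513835579071553421407))))) (a (a (b (l 3) (b (l 3) (b (l 3) (c (a (l 6965830572763644192493584479) (l 7807242943215422662114623583)) (l 7507429339951009607639367775))))) (l 3)) (l 3))))) (l 3)), by decide +kernel⟩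

def k32_pm_113 : ∃ t, chk3 f_pm_113 t 255 255 1 = true :=
  ⟨(a (c (b (a (l 143988984722636879) (b (a (l 144119001991282783) (b (c (a (l 6472588838360869441899200607) (b (l 8832412038248631225925025887) (c (l 443086270423) (l 439865046247)))) (a (l 6511274464588545684391067743) (b (l 489794041303) (l 8174756392378267182453375071)))) (c (l 5486105369555324338758582367) (l 5118591920392481673855434847)))) (l 603924639538928806178399))) (l 143983281008525391)) (b (a (l 143990633983803471) (b (a (l 603862958289284754239071) (b (b (a (l 6791745254739144806886457439) (a (l 8165084985821360250816446559) (l 3))) (c (l 6753059628511466708971012191) (l 6704702595726888276494401631))) (c (l 5041220667937148361614409823) (l 4963849415481808933340037215)))) (a (l 16768448) (l 603882269663876336201311)))) (l 143949058705064015))) (b (a (a (a (b (b (l 3) (a (c (c (b (l 8561612654654938279154401375) (l 332490861191)) (l 6956159166206715201909260383)) (c (l 7004516198991308683956715615) (l 394231020903))) (b (l 3) (c (c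 (l 7681514657975485010150015071) (l 445233757223)) (l 7691186064532414550496723039))))) (a (c (l 604071060608428067434079) (l 604122077387961862303327)) (l 6))) (b (l 3) (l 6))) (b (l 3) (l 6))) (l 3)) (l 6))), by decide +kernel⟩

theorem s33_pm_113 : ∃ t, chk3 f_pm_113 t 255 127 1 = true := ex3_b k31_pm_113 k32_pm_113

theorem s34_pm_113 : ∃ t, chk3 f_pm_113 t 127 127 1 = true := ex3_a k30_pm_113 s33_pm_113

theorem s35_pm_113 : ∃ t, chk3 f_pm_113 t 63 127 1 = true := ex3_a k29_pm_113 s34_pm_113

theorem s36_pm_113 : ∃ t, chk3 f_pm_113 t 254 126 1 = true := ex3_b k26_pm_113 k27_pm_113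

theorem s37_pm_113 : ∃ t, chk3 f_pm_113 t 127 126 1 = true := ex3_a s36_pm_113 k28_pm_113

theorem s38_pm_113 : ∃ t, chk3 f_pm_113 t 63 126 1 = true := ex3_a k25_pm_113 s37_pm_113

theorem s39_pm_113 : ∃ t, chk3 f_pm_113 t 63 63 1 = true := ex3_b s38_pm_113 s35_pm_113

theorem s40_pm_113 : ∃ t, chk3 f_pm_113 t 126 125 1 = true := ex3_a k22_pm_113 k23_pm_113

theorem s41_pm_113 : ∃ t, chk3 f_pm_113 t 126 62 1 = true := ex3_b k21_pm_113 s40_pm_113

theorem s42_pm_113 : ∃ t, chk3 f_pm_113 t 63 62 1 = true := ex3_a s41_pm_113 k24_pm_113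

theorem s43_pm_113 : ∃ t, chk3 f_pm_113 t 63 31 1 = true := ex3_b s42_pm_113 s39_pm_113

theorem s44_pm_113 : ∃ t, chk3 f_pm_113 t 251 248 1 = true := ex3_b k16_pm_113 k17_pm_113

theorem s45_pm_113 : ∃ t, chk3 f_pm_113 t 251 124 1 = true := ex3_b s44_pm_113 k18_pm_113

theorem s46_pm_113 : ∃ t, chk3 f_pm_113 t 125 124 1 = true := ex3_a k15_pm_113 s45_pm_113

theorem s47_pm_113 : ∃ t, chk3 f_pm_113 t 125 62 1 = true := ex3_b s46_pm_113 k19_pm_113

theorem s48_pm_113 : ∃ t, chk3 f_pm_113 t 125 31 1 = true := ex3_b s47_pm_113 k20_pm_113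

theorem s49_pm_113 : ∃ t, chk3 f_pm_113 t 62 31 1 = true := ex3_a k14_pm_113 s48_pm_113

theorem s50_pm_113 : ∃ t, chk3 f_pm_113 t 31 31 1 = true := ex3_a s49_pm_113 s43_pm_113

theorem s51_pm_113 : ∃ t, chk3 f_pm_113 t 125 247 1 = true := ex3_a k11_pm_113 k12_pm_113

theorem s52_pm_113 : ∃ t, chk3 f_pm_113 t 62 247 1 = true := ex3_a k10_pm_113 s51_pm_113

theorem s53_pm_113 : ∃ t, chk3 f_pm_113 t 62 123 1 = true := ex3_b k9_pm_113 s52_pm_113

theorem s54_pm_113 : ∃ t, chk3 f_pm_113 t 62 61 1 = true := ex3_b k8_pm_113 s53_pm_113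

theorem s55_pm_113 : ∃ t, chk3 f_pm_113 t 62 30 1 = true := ex3_b k7_pm_113 s54_pm_113

theorem s56_pm_113 : ∃ t, chk3 f_pm_113 t 31 30 1 = true := ex3_a s55_pm_113 k13_pm_113

theorem s57_pm_113 : ∃ t, chk3 f_pm_113 t 31 15 1 = true := ex3_b s56_pm_113 s50_pm_113

theorem s58_pm_113 : ∃ t, chk3 f_pm_113 t 15 15 1 = true := ex3_a k6_pm_113 s57_pm_113

theorem s59_pm_113 : ∃ t, chk3 f_pm_113 t 7 15 1 = true := ex3_a k5_pm_113 s58_pm_113

theorem s60_pm_113 : ∃ t, chk3 f_pm_113 t 7 7 1 = true := ex3_b k4_pm_113 s59_pm_113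

theorem s61_pm_113 : ∃ t, chk3 f_pm_113 t 3 7 1 = true := ex3_a k3_pm_113 s60_pm_113

theorem s62_pm_113 : ∃ t, chk3 f_pm_113 t 3 3 1 = true := ex3_b k2_pm_113 s61_pm_113

theorem s63_pm_113 : ∃ t, chk3 f_pm_113 t 1 3 1 = true := ex3_a k1_pm_113 s62_pm_113

theorem s64_pm_113 : ∃ t, chk3 f_pm_113 t 1 1 1 = true := ex3_b k0_pm_113 s63_pm_113

theorem c_pm_113 : CertB 536870912 536870912 1610612736 536870912 991146299 28908434 3 eng mog cd0q1 cd1q3 pd1 false true false .nn 1 1 3
    ndB0q1 ndB1q3 pcB1 cut_pm_113 xt_pm_113 :=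
  certB1 (fam := false) (s1 := true) (s2 := false) (a := 1) (b := 1) (c := 3) (cn := .nn) (n1 := ndB0q1) (n2 := ndB1q3) (pc := pcB1) (cut := cut_pm_113) (xt := xt_pm_113) (P1 := 536870912) (W1 := 536870912) (P2 := 1610612736) (W2 := 536870912) (P3 := 991146299) (W3 := 28908434) (N0 := 3) (En := eng) (mo := mog) (C1 := cd0q1) (C2 := cd1q3) (C3 := pd1)
    rfl (fun _ => rfl) s64_pm_113

noncomputable def cut_pm_123 : Cut := Cut.of [[⟨0, 1, 0, 37748736⟩, ⟨1, 1, 0, 37748736⟩, ⟨2, 2, 0, 5242880⟩]]

noncomputable def xt_pm_123 : Ext := extD3 3 ⟨4, 1, 1, 5, 22, 5, 21, 25, 41, 100, 1, 20⟩ eng cd0q1 cd1q3 pd2 false true false .npn 1 2 3 rfl ndB0q1 ndB1q3 pcB2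

noncomputable def f_pm_123 : ℕ → ℕ → ℕ → ℕ → Bool := onCell 536870912 536870912 1073741824 536870912 991146299 28908434
    (rowB 3 eng mog cd0q1 cd1q3 pd2 1 false true false .npn 1 2 3 (qsf 536870912 536870912 1610612736 536870912 2) ndB0q1 ndB1q3 pcB2 cut_pm_123 xt_pm_123)

def k0_pm_123 : ∃ t, chk3 f_pm_123 t 2 1 1 = true :=
  ⟨(b (a (b (b (c (a (b (l 15896752) (l 15881616)) (b (l 15831232) (l 15798784))) (a (b (l 16027160) (l 15984328)) (b (l 15960592) (l 15903896)))) (a (b (l 15671568) (l 15712744)) (b (l 15616008) (l 15683544)))) (b (a (b (l 15615760) (l 15527432)) (c (l 15595936) (l 15566656))) (a (l 15306920) (l 15308360)))) (b (c (a (b (b (l 15633776) (l 15737632)) (l 15687688)) (b (a (l 15614312) (l 15853248)) (l 15871720))) (b (a (b (l 15797960) (l 15838768)) (b (l 15646272) (l 15795392))) (a (l 15667960) (l 15609376)))) (a (b (c (l 15648472) (l 15622096)) (l 15598408)) (b (c (l 15773456) (l 15739320)) (b (l 15793112) (a (l 15759184) (l 15894536))))))) (a (b (b (a (l 15100888) (l 15409336)) (a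 (l 15207680) (b (l 15386184) (l 15386048)))) (a (b (b (l 15174832) (l 15169368)) (c (l 15331528) (l 15042776))) (b (c (l 15507312) (l 15267488)) (c (l 15566464) (l 15306360))))) (b (a (b (b (l 15596960) (l 15610392)) (c (l 15693856) (l 15509064))) (b (c (l 15652272) (l 15653616)) (c (l 15666320) (l 15500344)))) (a (b (c (l 15726952) (l 15520728)) (l 2)) (l 2))))), by decide +kernel⟩

def k1_pm_123 : ∃ t, chk3 f_pm_123 t 6 2 1 = true :=
  ⟨(b (a (b (c (b (a (l 15690576) (l 15700128)) (l 15747936)) (b (a (l 15783688) (l 15765248)) (l 15796336))) (c (b (l 15813264) (l 15888008)) (b (l 15832520) (l 15879528)))) (b (b (c (a (l 15742504) (l 15840704)) (a (l 15771064) (l 15820024))) (c (l 16023984) (l 15969480))) (b (c (l 16067192) (l 16039416)) (a (l 16098056) (b (l 16284624) (l 16305080)))))) (b (a (a (l 15917960) (b (l 16031400) (l 16112352))) (b (a (l 16214920) (l 16267640)) (a (l 16193848) (l 16272800)))) (a (b (a (l 16005144) (l 16092576)) (a (l 15986624) (l 16077160))) (a (b (l 16177848) (l 2)) (l 2))))),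 by decide +kernel⟩

def k2_pm_123 : ∃ t, chk3 f_pm_123 t 7 2 1 = true :=
  ⟨(b (b (a (a (b (c (l 16062336) (l 15950896)) (c (l 16247144) (l 16163360))) (b (b (l 581146075841632238839311) (c (l 16494496) (l 16315816))) (a (c (l 16451728) (l 16406248)) (b (l 16470272) (a (l 16483392) (l 16522632)))))) (a (b (b (a (l 585841638890598510501903) (c (l 141627714534686927) (l 16628328))) (a (l 16546288) (c (a (l 16625072) (l 16664112)) (l 16593504)))) (a (b (a (l 16565448) (l 16606440)) (l 16525632)) (b (a (l 16626432) (l 16605808)) (l 527307418759)))) (b (a (a (b (l 142285153811021903) (b (l 16650960) (l 16658520))) (b (b (l 142986779719778383) (l 142674587117715535)) (c (l 16678016) (l 16705432)))) (b (b (b (a (l 143316701973725263) (a (a (l 143759530354409551) (l 143775610723287119)) (l 6))) (a (a (l 16729832) (l 143416826280280143)) (a (l 6) (c (l 677631667559) (l 671726075079))))) (a (a (l 143140917533016143) (l 143172459800477775)) (a (a (l 600299565291645555222095) (l 2)) (l 2)))) (a (c (l 649714253287) (l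 653472297847)) (l 2)))) (a (b (c (l 519791402647) (l 536434392311)) (l 2)) (l 2))))) (b (a (a (b (l 16370784) (a (l 16379152) (l 16408424))) (a (b (l 16447376) (l 16439648)) (b (l 16481536) (l 16505744)))) (a (a (b (l 16550072) (l 2)) (l 2)) (l 2))) (a (a (c (l 16362696) (l 16387336)) (a (l 526232955703) (l 2))) (l 2)))) (a (b (b (a (l 16101224) (l 2)) (l 2)) (l 2)) (l 2))), by decide +kernel⟩

def k3_pm_123 : ∃ t, chk3 f_pm_123 t 3 3 1 = true :=
  ⟨(a (b (a (b (b (l 375371292215) (l 2)) (l 2)) (l 2)) (l 2)) (l 2)), by decide +kernel⟩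

theorem s4_pm_123 : ∃ t, chk3 f_pm_123 t 3 2 1 = true := ex3_a k1_pm_123 k2_pm_123

theorem s5_pm_123 : ∃ t, chk3 f_pm_123 t 3 1 1 = true := ex3_b s4_pm_123 k3_pm_123

theorem s6_pm_123 : ∃ t, chk3 f_pm_123 t 1 1 1 = true := ex3_a k0_pm_123 s5_pm_123

theorem c_pm_123 : CertB 536870912 536870912 1610612736 536870912 991146299 28908434 3 eng mog cd0q1 cd1q3 pd2 false true false .npn 1 2 3
    ndB0q1 ndB1q3 pcB2 cut_pm_123 xt_pm_123 :=
  certB1 (fam := false) (s1 := true) (s2 := false) (a := 1) (b := 2) (c := 3) (cn := .npn) (n1 := ndB0q1) (n2 := ndB1q3) (pc := pcB2) (cut := cut_pm_123) (xt := xt_pm_123) (P1 := 536870912) (W1 := 536870912) (P2 := 1610612736) (W2 := 536870912) (P3 := 991146299) (W3 := 28908434) (N0 := 3) (En := eng) (mo := mog) (C1 := cd0q1) (C2 := cd1q3) (C3 := pd2)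
    rfl (fun _ => rfl) s6_pm_123

noncomputable def f_pm_133 : ℕ → ℕ → ℕ → ℕ → Bool := onCell 536870912 536870912 1610612736 536870912 991146299 28908434
    (rowB 3 eng mog cd0q1 cd1q3 pd3 0 false true false .dn 1 3 3 (qsf 536870912 536870912 1610612736 536870912 3) ndB0q1 ndB1q3 pcB3 Cut.none Ext.none)

def k0_pm_133 : ∃ t, chk3 f_pm_133 t 1 1 1 = true :=
  ⟨(a (b (l 1) (a (b (l 1) (b (l 1) (a (l 15922688) (l 1)))) (l 1))) (l 1)), by decide +kernel⟩

theorem c_pm_133 : CertB 536870912 536870912 1610612736 536870912 991146299 28908434 3 eng mog cd0q1 cd1q3 pd3 false true false .dn 1 3 3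
    ndB0q1 ndB1q3 pcB3 Cut.none Ext.none :=
  certB0 (fam := false) (s1 := true) (s2 := false) (a := 1) (b := 3) (c := 3) (cn := .dn) (n1 := ndB0q1) (n2 := ndB1q3) (pc := pcB3) (cut := Cut.none) (xt := Ext.none) (P1 := 536870912) (W1 := 536870912) (P2 := 1610612736) (W2 := 536870912) (P3 := 991146299) (W3 := 28908434) (N0 := 3) (En := eng) (mo := mog) (C1 := cd0q1) (C2 := cd1q3) (C3 := pd3)
    rfl k0_pm_133

noncomputable def cut_pm_202_a : Cut := Cut.of [[⟨0, 1, 0, 53687091⟩, ⟨1, 0, 0, 53687091⟩, ⟨2, 1, 0, 53687091⟩]]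

noncomputable def f_pm_202_a : ℕ → ℕ → ℕ → ℕ → Bool := onCell 0 536870912 0 536870912 991146299 28908434
    (rowB 3 eng mog cd0q2 cd1q2a pd0 0 false true false .pp 2 0 2 (qsf 0 536870912 0 536870912 0) ndB0q2 ndB1q2a pcB0 cut_pm_202_a Ext.none)

def k0_pm_202_a : ∃ t, chk3 f_pm_202_a t 1 1 1 = true :=
  ⟨(a (l 3) (b (l 3) (a (l 3) (b (l 3) (a (l 3) (b (l 3) (l 6))))))), by decide +kernel⟩

theorem c_pm_202_a : CertB 0 536870912 0 536870912 991146299 28908434 3 eng mog cd0q2 cd1q2a pd0 false true false .pp 2 0 2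
    ndB0q2 ndB1q2a pcB0 cut_pm_202_a Ext.none :=
  certB0 (fam := false) (s1 := true) (s2 := false) (a := 2) (b := 0) (c := 2) (cn := .pp) (n1 := ndB0q2) (n2 := ndB1q2a) (pc := pcB0) (cut := cut_pm_202_a) (xt := Ext.none) (P1 := 0) (W1 := 536870912) (P2 := 0) (W2 := 536870912) (P3 := 991146299) (W3 := 28908434) (N0 := 3) (En := eng) (mo := mog) (C1 := cd0q2) (C2 := cd1q2a) (C3 := pd0)
    rfl k0_pm_202_a

noncomputable def cut_pm_202_b : Cut := Cut.of [[⟨0, 1, 0, 53687091⟩, ⟨1, 0, 0, 53687091⟩, ⟨2, 1, 0, 53687091⟩]]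

noncomputable def f_pm_202_b : ℕ → ℕ → ℕ → ℕ → Bool := onCell 0 536870912 1239849684 370763052 991146299 28908434
    (rowB 3 eng mog cd0q2 cd1q2b pd0 0 false true false .pp 2 0 2 (qsf 0 536870912 1239849684 370763052 0) ndB0q2 ndB1q2b pcB0 cut_pm_202_b Ext.none)

def k0_pm_202_b : ∃ t, chk3 f_pm_202_b t 1 1 1 = true :=
  ⟨(l 3), by decide +kernel⟩

theorem c_pm_202_b : CertB 0 536870912 1239849684 370763052 991146299 28908434 3 eng mog cd0q2 cd1q2b pd0 false true false .pp 2 0 2
    ndB0q2 ndB1q2b pcB0 cut_pm_202_b Ext.none :=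
  certB0 (fam := false) (s1 := true) (s2 := false) (a := 2) (b := 0) (c := 2) (cn := .pp) (n1 := ndB0q2) (n2 := ndB1q2b) (pc := pcB0) (cut := cut_pm_202_b) (xt := Ext.none) (P1 := 0) (W1 := 536870912) (P2 := 1239849684) (W2 := 370763052) (P3 := 991146299) (W3 := 28908434) (N0 := 3) (En := eng) (mo := mog) (C1 := cd0q2) (C2 := cd1q2b) (C3 := pd0)
    rfl k0_pm_202_b

noncomputable def f_pm_203 : ℕ → ℕ → ℕ → ℕ → Bool := onCell 0 536870912 0 536870912 991146299 28908434
    (rowB 3 eng mog cd0q2 cd1q3 pd0 1 false true false .up 2 0 3 (qsf 0 536870912 1610612736 536870912 0) ndB0q2 ndB1q3 pcB0 Cut.none Ext.none)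

def k0_pm_203 : ∃ t, chk3 f_pm_203 t 1 1 1 = true :=
  ⟨(l 3), by decide +kernel⟩

theorem c_pm_203 : CertB 0 536870912 1610612736 536870912 991146299 28908434 3 eng mog cd0q2 cd1q3 pd0 false true false .up 2 0 3
    ndB0q2 ndB1q3 pcB0 Cut.none Ext.none :=
  certB1 (fam := false) (s1 := true) (s2 := false) (a := 2) (b := 0) (c := 3) (cn := .up) (n1 := ndB0q2) (n2 := ndB1q3) (pc := pcB0) (cut := Cut.none) (xt := Ext.none) (P1 := 0) (W1 := 536870912) (P2 := 1610612736) (W2 := 536870912) (P3 := 991146299) (W3 := 28908434) (N0 := 3) (En := eng) (mo := mog) (C1 := cd0q2) (C2 := cd1q3) (C3 := pd0)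
    rfl (fun _ => rfl) k0_pm_203

noncomputable def cut_pm_213 : Cut := Cut.of [[⟨0, 1, 0, 37748736⟩, ⟨1, 1, 0, 37748736⟩, ⟨2, 2, 0, 5242880⟩]]

noncomputable def f_pm_213 : ℕ → ℕ → ℕ → ℕ → Bool := onCell 0 536870912 1610612736 536870912 991146299 28908434
    (rowB 3 eng mog cd0q2 cd1q3 pd1 0 false true false .pnn 2 1 3 (qsf 0 536870912 1610612736 536870912 1) ndB0q2 ndB1q3 pcB1 cut_pm_213 Ext.none)

def k0_pm_213 : ∃ t, chk3 f_pm_213 t 1 1 1 = true :=
  ⟨(b (l 3) (a (l 3) (b (l 3) (a (l 3) (b (l 3) (a (l 3) (b (l 3) (a (l 3) (b (l 3) (b (l 3) (b (l 3) (l 6)))))))))))), by decide +kernel⟩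

theorem c_pm_213 : CertB 0 536870912 1610612736 536870912 991146299 28908434 3 eng mog cd0q2 cd1q3 pd1 false true false .pnn 2 1 3
    ndB0q2 ndB1q3 pcB1 cut_pm_213 Ext.none :=
  certB0 (fam := false) (s1 := true) (s2 := false) (a := 2) (b := 1) (c := 3) (cn := .pnn) (n1 := ndB0q2) (n2 := ndB1q3) (pc := pcB1) (cut := cut_pm_213) (xt := Ext.none) (P1 := 0) (W1 := 536870912) (P2 := 1610612736) (W2 := 536870912) (P3 := 991146299) (W3 := 28908434) (N0 := 3) (En := eng) (mo := mog) (C1 := cd0q2) (C2 := cd1q3) (C3 := pd1)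
    rfl k0_pm_213

noncomputable def f_mm_001 : ℕ → ℕ → ℕ → ℕ → Bool := onCell 0 536870912 536870912 536870912 991146299 28908434
    (rowB 3 eng mog cd0q0 cd1q1 pd0 0 false false false .up 0 0 1 (qsf 0 536870912 536870912 536870912 0) ndB0q0 ndB1q1 pcB0 Cut.none Ext.none)

def k0_mm_001 : ∃ t, chk3 f_mm_001 t 1 1 1 = true :=
  ⟨(l 3), by decide +kernel⟩

theorem c_mm_001 : CertB 0 536870912 536870912 536870912 991146299 28908434 3 eng mog cd0q0 cd1q1 pd0 false false false .up 0 0 1
    ndB0q0 ndB1q1 pcB0 Cut.none Ext.none :=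
  certB0 (fam := false) (s1 := false) (s2 := false) (a := 0) (b := 0) (c := 1) (cn := .up) (n1 := ndB0q0) (n2 := ndB1q1) (pc := pcB0) (cut := Cut.none) (xt := Ext.none) (P1 := 0) (W1 := 536870912) (P2 := 536870912) (W2 := 536870912) (P3 := 991146299) (W3 := 28908434) (N0 := 3) (En := eng) (mo := mog) (C1 := cd0q0) (C2 := cd1q1) (C3 := pd0)
    rfl k0_mm_001

noncomputable def f_mm_011 : ℕ → ℕ → ℕ → ℕ → Bool := onCell 0 536870912 536870912 536870912 991146299 28908434
    (rowB 3 eng mog cd0q0 cd1q1 pd1 0 false false false .pnn 0 1 1 (qsf 0 536870912 536870912 536870912 1) ndB0q0 ndB1q1 pcB1 Cut.none Ext.none)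

def k0_mm_011 : ∃ t, chk3 f_mm_011 t 1 1 1 = true :=
  ⟨(l 3), by decide +kernel⟩

theorem c_mm_011 : CertB 0 536870912 536870912 536870912 991146299 28908434 3 eng mog cd0q0 cd1q1 pd1 false false false .pnn 0 1 1
    ndB0q0 ndB1q1 pcB1 Cut.none Ext.none :=
  certB0 (fam := false) (s1 := false) (s2 := false) (a := 0) (b := 1) (c := 1) (cn := .pnn) (n1 := ndB0q0) (n2 := ndB1q1) (pc := pcB1) (cut := Cut.none) (xt := Ext.none) (P1 := 0) (W1 := 536870912) (P2 := 536870912) (W2 := 536870912) (P3 := 991146299) (W3 := 28908434) (N0 := 3) (En := eng) (mo := mog) (C1 := cd0q0) (C2 := cd1q1) (C3 := pd1)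
    rfl k0_mm_011

noncomputable def f_mm_012_a : ℕ → ℕ → ℕ → ℕ → Bool := onCell 0 536870912 0 536870912 991146299 28908434
    (rowB 3 eng mog cd0q0 cd1q2a pd1 0 false false false .pnp 0 1 2 (qsf 0 536870912 0 536870912 1) ndB0q0 ndB1q2a pcB1 Cut.none Ext.none)

def k0_mm_012_a : ∃ t, chk3 f_mm_012_a t 1 1 1 = true :=
  ⟨(l 5), by decide +kernel⟩

theorem c_mm_012_a : CertB 0 536870912 0 536870912 991146299 28908434 3 eng mog cd0q0 cd1q2a pd1 false false false .pnp 0 1 2
    ndB0q0 ndB1q2a pcB1 Cut.none Ext.none :=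
  certB0 (fam := false) (s1 := false) (s2 := false) (a := 0) (b := 1) (c := 2) (cn := .pnp) (n1 := ndB0q0) (n2 := ndB1q2a) (pc := pcB1) (cut := Cut.none) (xt := Ext.none) (P1 := 0) (W1 := 536870912) (P2 := 0) (W2 := 536870912) (P3 := 991146299) (W3 := 28908434) (N0 := 3) (En := eng) (mo := mog) (C1 := cd0q0) (C2 := cd1q2a) (C3 := pd1)
    rfl k0_mm_012_a

noncomputable def f_mm_012_b : ℕ → ℕ → ℕ → ℕ → Bool := onCell 0 536870912 1239849684 370763052 991146299 28908434
    (rowB 3 eng mog cd0q0 cd1q2b pd1 0 false false false .pnp 0 1 2 (qsf 0 536870912 1239849684 370763052 1) ndB0q0 ndB1q2b pcB1 Cut.none Ext.none)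

def k0_mm_012_b : ∃ t, chk3 f_mm_012_b t 1 1 1 = true :=
  ⟨(l 5), by decide +kernel⟩

theorem c_mm_012_b : CertB 0 536870912 1239849684 370763052 991146299 28908434 3 eng mog cd0q0 cd1q2b pd1 false false false .pnp 0 1 2
    ndB0q0 ndB1q2b pcB1 Cut.none Ext.none :=
  certB0 (fam := false) (s1 := false) (s2 := false) (a := 0) (b := 1) (c := 2) (cn := .pnp) (n1 := ndB0q0) (n2 := ndB1q2b) (pc := pcB1) (cut := Cut.none) (xt := Ext.none) (P1 := 0) (W1 := 536870912) (P2 := 1239849684) (W2 := 370763052) (P3 := 991146299) (W3 := 28908434) (N0 := 3) (En := eng) (mo := mog) (C1 := cd0q0) (C2 := cd1q2b) (C3 := pd1)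
    rfl k0_mm_012_b

noncomputable def f_mm_022_a : ℕ → ℕ → ℕ → ℕ → Bool := onCell 0 536870912 0 536870912 991146299 28908434
    (rowB 3 eng mog cd0q0 cd1q2a pd2 0 false false false .pp 0 2 2 (qsf 0 536870912 0 536870912 2) ndB0q0 ndB1q2a pcB2 Cut.none Ext.none)

def k0_mm_022_a : ∃ t, chk3 f_mm_022_a t 1 1 1 = true :=
  ⟨(l 5), by decide +kernel⟩

theorem c_mm_022_a : CertB 0 536870912 0 536870912 991146299 28908434 3 eng mog cd0q0 cd1q2a pd2 false false false .pp 0 2 2
    ndB0q0 ndB1q2a pcB2 Cut.none Ext.none :=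
  certB0 (fam := false) (s1 := false) (s2 := false) (a := 0) (b := 2) (c := 2) (cn := .pp) (n1 := ndB0q0) (n2 := ndB1q2a) (pc := pcB2) (cut := Cut.none) (xt := Ext.none) (P1 := 0) (W1 := 536870912) (P2 := 0) (W2 := 536870912) (P3 := 991146299) (W3 := 28908434) (N0 := 3) (En := eng) (mo := mog) (C1 := cd0q0) (C2 := cd1q2a) (C3 := pd2)
    rfl k0_mm_022_a

noncomputable def f_mm_022_b : ℕ → ℕ → ℕ → ℕ → Bool := onCell 0 536870912 1239849684 370763052 991146299 28908434
    (rowB 3 eng mog cd0q0 cd1q2b pd2 0 false false false .pp 0 2 2 (qsf 0 536870912 1239849684 370763052 2) ndB0q0 ndB1q2b pcB2 Cut.none Ext.none)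

def k0_mm_022_b : ∃ t, chk3 f_mm_022_b t 1 1 1 = true :=
  ⟨(l 5), by decide +kernel⟩

theorem c_mm_022_b : CertB 0 536870912 1239849684 370763052 991146299 28908434 3 eng mog cd0q0 cd1q2b pd2 false false false .pp 0 2 2
    ndB0q0 ndB1q2b pcB2 Cut.none Ext.none :=
  certB0 (fam := false) (s1 := false) (s2 := false) (a := 0) (b := 2) (c := 2) (cn := .pp) (n1 := ndB0q0) (n2 := ndB1q2b) (pc := pcB2) (cut := Cut.none) (xt := Ext.none) (P1 := 0) (W1 := 536870912) (P2 := 1239849684) (W2 := 370763052) (P3 := 991146299) (W3 := 28908434) (N0 := 3) (En := eng) (mo := mog) (C1 := cd0q0) (C2 := cd1q2b) (C3 := pd2)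
    rfl k0_mm_022_b

noncomputable def f_mm_023 : ℕ → ℕ → ℕ → ℕ → Bool := onCell 0 536870912 1610612736 536870912 991146299 28908434
    (rowB 3 eng mog cd0q0 cd1q3 pd2 0 false false false .up 0 2 3 (qsf 0 536870912 1610612736 536870912 2) ndB0q0 ndB1q3 pcB2 Cut.none Ext.none)

def k0_mm_023 : ∃ t, chk3 f_mm_023 t 1 1 1 = true :=
  ⟨(l 5), by decide +kernel⟩

theorem c_mm_023 : CertB 0 536870912 1610612736 536870912 991146299 28908434 3 eng mog cd0q0 cd1q3 pd2 false false false .up 0 2 3
    ndB0q0 ndB1q3 pcB2 Cut.none Ext.none :=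
  certB0 (fam := false) (s1 := false) (s2 := false) (a := 0) (b := 2) (c := 3) (cn := .up) (n1 := ndB0q0) (n2 := ndB1q3) (pc := pcB2) (cut := Cut.none) (xt := Ext.none) (P1 := 0) (W1 := 536870912) (P2 := 1610612736) (W2 := 536870912) (P3 := 991146299) (W3 := 28908434) (N0 := 3) (En := eng) (mo := mog) (C1 := cd0q0) (C2 := cd1q3) (C3 := pd2)
    rfl k0_mm_023

noncomputable def f_mm_033 : ℕ → ℕ → ℕ → ℕ → Bool := onCell 0 536870912 1610612736 536870912 991146299 28908434
    (rowB 3 eng mog cd0q0 cd1q3 pd3 0 false false false .pnn 0 3 3 (qsf 0 536870912 1610612736 536870912 3) ndB0q0 ndB1q3 pcB3 Cut.none Ext.none)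

def k0_mm_033 : ∃ t, chk3 f_mm_033 t 1 1 1 = true :=
  ⟨(l 5), by decide +kernel⟩

theorem c_mm_033 : CertB 0 536870912 1610612736 536870912 991146299 28908434 3 eng mog cd0q0 cd1q3 pd3 false false false .pnn 0 3 3
    ndB0q0 ndB1q3 pcB3 Cut.none Ext.none :=
  certB0 (fam := false) (s1 := false) (s2 := false) (a := 0) (b := 3) (c := 3) (cn := .pnn) (n1 := ndB0q0) (n2 := ndB1q3) (pc := pcB3) (cut := Cut.none) (xt := Ext.none) (P1 := 0) (W1 := 536870912) (P2 := 1610612736) (W2 := 536870912) (P3 := 991146299) (W3 := 28908434) (N0 := 3) (En := eng) (mo := mog) (C1 := cd0q0) (C2 := cd1q3) (C3 := pd3)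
    rfl k0_mm_033

noncomputable def f_mm_101 : ℕ → ℕ → ℕ → ℕ → Bool := onCell 536870912 536870912 536870912 536870912 991146299 28908434
    (rowB 3 eng mog cd0q1 cd1q1 pd0 0 false false false .npn 1 0 1 (qsf 536870912 536870912 536870912 536870912 0) ndB0q1 ndB1q1 pcB0 Cut.none Ext.none)

def k0_mm_101 : ∃ t, chk3 f_mm_101 t 1 1 1 = true :=
  ⟨(l 3), by decide +kernel⟩

theorem c_mm_101 : CertB 536870912 536870912 536870912 536870912 991146299 28908434 3 eng mog cd0q1 cd1q1 pd0 false false false .npn 1 0 1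
    ndB0q1 ndB1q1 pcB0 Cut.none Ext.none :=
  certB0 (fam := false) (s1 := false) (s2 := false) (a := 1) (b := 0) (c := 1) (cn := .npn) (n1 := ndB0q1) (n2 := ndB1q1) (pc := pcB0) (cut := Cut.none) (xt := Ext.none) (P1 := 536870912) (W1 := 536870912) (P2 := 536870912) (W2 := 536870912) (P3 := 991146299) (W3 := 28908434) (N0 := 3) (En := eng) (mo := mog) (C1 := cd0q1) (C2 := cd1q1) (C3 := pd0)
    rfl k0_mm_101

noncomputable def f_mm_102_a : ℕ → ℕ → ℕ → ℕ → Bool := onCell 536870912 536870912 0 536870912 991146299 28908434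
    (rowB 3 eng mog cd0q1 cd1q2a pd0 0 false false false .npp 1 0 2 (qsf 536870912 536870912 0 536870912 0) ndB0q1 ndB1q2a pcB0 Cut.none Ext.none)

def k0_mm_102_a : ∃ t, chk3 f_mm_102_a t 1 1 1 = true :=
  ⟨(a (l 5) (l 3)), by decide +kernel⟩

theorem c_mm_102_a : CertB 536870912 536870912 0 536870912 991146299 28908434 3 eng mog cd0q1 cd1q2a pd0 false false false .npp 1 0 2
    ndB0q1 ndB1q2a pcB0 Cut.none Ext.none :=
  certB0 (fam := false) (s1 := false) (s2 := false) (a := 1) (b := 0) (c := 2) (cn := .npp) (n1 := ndB0q1) (n2 := ndB1q2a) (pc := pcB0) (cut := Cut.none) (xt := Ext.none) (P1 := 536870912) (W1 := 536870912) (P2 := 0) (W2 := 536870912) (P3 := 991146299) (W3 := 28908434) (N0 := 3) (En := eng) (mo := mog) (C1 := cd0q1) (C2 := cd1q2a) (C3 := pd0)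
    rfl k0_mm_102_a

noncomputable def f_mm_102_b : ℕ → ℕ → ℕ → ℕ → Bool := onCell 536870912 536870912 1239849684 370763052 991146299 28908434
    (rowB 3 eng mog cd0q1 cd1q2b pd0 0 false false false .npp 1 0 2 (qsf 536870912 536870912 1239849684 370763052 0) ndB0q1 ndB1q2b pcB0 Cut.none Ext.none)

def k0_mm_102_b : ∃ t, chk3 f_mm_102_b t 1 1 1 = true :=
  ⟨(l 5), by decide +kernel⟩

theorem c_mm_102_b : CertB 536870912 536870912 1239849684 370763052 991146299 28908434 3 eng mog cd0q1 cd1q2b pd0 false false false .npp 1 0 2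
    ndB0q1 ndB1q2b pcB0 Cut.none Ext.none :=
  certB0 (fam := false) (s1 := false) (s2 := false) (a := 1) (b := 0) (c := 2) (cn := .npp) (n1 := ndB0q1) (n2 := ndB1q2b) (pc := pcB0) (cut := Cut.none) (xt := Ext.none) (P1 := 536870912) (W1 := 536870912) (P2 := 1239849684) (W2 := 370763052) (P3 := 991146299) (W3 := 28908434) (N0 := 3) (En := eng) (mo := mog) (C1 := cd0q1) (C2 := cd1q2b) (C3 := pd0)
    rfl k0_mm_102_b

noncomputable def f_mm_112_a : ℕ → ℕ → ℕ → ℕ → Bool := onCell 536870912 536870912 0 536870912 991146299 28908434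
    (rowB 3 eng mog cd0q1 cd1q2a pd1 2 false false false .dn 1 1 2 (qsf 536870912 536870912 0 536870912 1) ndB0q1 ndB1q2a pcB1 Cut.none Ext.none)

def k0_mm_112_a : ∃ t, chk3 f_mm_112_a t 1 1 1 = true :=
  ⟨(l 5), by decide +kernel⟩

theorem c_mm_112_a : CertB 536870912 536870912 0 536870912 991146299 28908434 3 eng mog cd0q1 cd1q2a pd1 false false false .dn 1 1 2
    ndB0q1 ndB1q2a pcB1 Cut.none Ext.none :=
  certB2 (fam := false) (s1 := false) (s2 := false) (a := 1) (b := 1) (c := 2) (cn := .dn) (n1 := ndB0q1) (n2 := ndB1q2a) (pc := pcB1) (cut := Cut.none) (xt := Ext.none) (P1 := 536870912) (W1 := 536870912) (P2 := 0) (W2 := 536870912) (P3 := 991146299) (W3 := 28908434) (N0 := 3) (En := eng) (mo := mog) (C1 := cd0q1) (C2 := cd1q2a) (C3 := pd1)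
    rfl (fun _ => rfl) k0_mm_112_a

noncomputable def f_mm_112_b : ℕ → ℕ → ℕ → ℕ → Bool := onCell 536870912 536870912 1239849684 370763052 991146299 28908434
    (rowB 3 eng mog cd0q1 cd1q2b pd1 0 false false false .dn 1 1 2 (qsf 536870912 536870912 1239849684 370763052 1) ndB0q1 ndB1q2b pcB1 Cut.none Ext.none)

def k0_mm_112_b : ∃ t, chk3 f_mm_112_b t 1 1 1 = true :=
  ⟨(l 5), by decide +kernel⟩

theorem c_mm_112_b : CertB 536870912 536870912 1239849684 370763052 991146299 28908434 3 eng mog cd0q1 cd1q2b pd1 false false false .dn 1 1 2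
    ndB0q1 ndB1q2b pcB1 Cut.none Ext.none :=
  certB0 (fam := false) (s1 := false) (s2 := false) (a := 1) (b := 1) (c := 2) (cn := .dn) (n1 := ndB0q1) (n2 := ndB1q2b) (pc := pcB1) (cut := Cut.none) (xt := Ext.none) (P1 := 536870912) (W1 := 536870912) (P2 := 1239849684) (W2 := 370763052) (P3 := 991146299) (W3 := 28908434) (N0 := 3) (En := eng) (mo := mog) (C1 := cd0q1) (C2 := cd1q2b) (C3 := pd1)
    rfl k0_mm_112_b

noncomputable def f_mm_113 : ℕ → ℕ → ℕ → ℕ → Bool := onCell 536870912 536870912 1610612736 536870912 991146299 28908434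
    (rowB 3 eng mog cd0q1 cd1q3 pd1 0 false false false .nn 1 1 3 (qsf 536870912 536870912 1610612736 536870912 1) ndB0q1 ndB1q3 pcB1 Cut.none Ext.none)

def k0_mm_113 : ∃ t, chk3 f_mm_113 t 1 1 1 = true :=
  ⟨(l 5), by decide +kernel⟩

theorem c_mm_113 : CertB 536870912 536870912 1610612736 536870912 991146299 28908434 3 eng mog cd0q1 cd1q3 pd1 false false false .nn 1 1 3
    ndB0q1 ndB1q3 pcB1 Cut.none Ext.none :=
  certB0 (fam := false) (s1 := false) (s2 := false) (a := 1) (b := 1) (c := 3) (cn := .nn) (n1 := ndB0q1) (n2 := ndB1q3) (pc := pcB1) (cut := Cut.none) (xt := Ext.none) (P1 := 536870912) (W1 := 536870912) (P2 := 1610612736) (W2 := 536870912) (P3 := 991146299) (W3 := 28908434) (N0 := 3) (En := eng) (mo := mog) (C1 := cd0q1) (C2 := cd1q3) (C3 := pd1)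
    rfl k0_mm_113

noncomputable def f_mm_123 : ℕ → ℕ → ℕ → ℕ → Bool := onCell 536870912 536870912 1610612736 536870912 991146299 28908434
    (rowB 3 eng mog cd0q1 cd1q3 pd2 0 false false false .npn 1 2 3 (qsf 536870912 536870912 1610612736 536870912 2) ndB0q1 ndB1q3 pcB2 Cut.none Ext.none)

def k0_mm_123 : ∃ t, chk3 f_mm_123 t 1 1 1 = true :=
  ⟨(l 5), by decide +kernel⟩

theorem c_mm_123 : CertB 536870912 536870912 1610612736 536870912 991146299 28908434 3 eng mog cd0q1 cd1q3 pd2 false false false .npn 1 2 3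
    ndB0q1 ndB1q3 pcB2 Cut.none Ext.none :=
  certB0 (fam := false) (s1 := false) (s2 := false) (a := 1) (b := 2) (c := 3) (cn := .npn) (n1 := ndB0q1) (n2 := ndB1q3) (pc := pcB2) (cut := Cut.none) (xt := Ext.none) (P1 := 536870912) (W1 := 536870912) (P2 := 1610612736) (W2 := 536870912) (P3 := 991146299) (W3 := 28908434) (N0 := 3) (En := eng) (mo := mog) (C1 := cd0q1) (C2 := cd1q3) (C3 := pd2)
    rfl k0_mm_123

noncomputable def f_mm_133 : ℕ → ℕ → ℕ → ℕ → Bool := onCell 536870912 536870912 1610612736 536870912 991146299 28908434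
    (rowB 3 eng mog cd0q1 cd1q3 pd3 0 false false false .dn 1 3 3 (qsf 536870912 536870912 1610612736 536870912 3) ndB0q1 ndB1q3 pcB3 Cut.none Ext.none)

def k0_mm_133 : ∃ t, chk3 f_mm_133 t 1 1 1 = true :=
  ⟨(l 5), by decide +kernel⟩

theorem c_mm_133 : CertB 536870912 536870912 1610612736 536870912 991146299 28908434 3 eng mog cd0q1 cd1q3 pd3 false false false .dn 1 3 3
    ndB0q1 ndB1q3 pcB3 Cut.none Ext.none :=
  certB0 (fam := false) (s1 := false) (s2 := false) (a := 1) (b := 3) (c := 3) (cn := .dn) (n1 := ndB0q1) (n2 := ndB1q3) (pc := pcB3) (cut := Cut.none) (xt := Ext.none) (P1 := 536870912) (W1 := 536870912) (P2 := 1610612736) (W2 := 536870912) (P3 := 991146299) (W3 := 28908434) (N0 := 3) (En := eng) (mo := mog) (C1 := cd0q1) (C2 := cd1q3) (C3 := pd3)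
    rfl k0_mm_133

noncomputable def f_mm_202_a : ℕ → ℕ → ℕ → ℕ → Bool := onCell 0 536870912 0 536870912 991146299 28908434
    (rowB 3 eng mog cd0q2 cd1q2a pd0 0 false false false .pp 2 0 2 (qsf 0 536870912 0 536870912 0) ndB0q2 ndB1q2a pcB0 Cut.none Ext.none)

def k0_mm_202_a : ∃ t, chk3 f_mm_202_a t 1 1 1 = true :=
  ⟨(l 3), by decide +kernel⟩

theorem c_mm_202_a : CertB 0 536870912 0 536870912 991146299 28908434 3 eng mog cd0q2 cd1q2a pd0 false false false .pp 2 0 2
    ndB0q2 ndB1q2a pcB0 Cut.none Ext.none :=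
  certB0 (fam := false) (s1 := false) (s2 := false) (a := 2) (b := 0) (c := 2) (cn := .pp) (n1 := ndB0q2) (n2 := ndB1q2a) (pc := pcB0) (cut := Cut.none) (xt := Ext.none) (P1 := 0) (W1 := 536870912) (P2 := 0) (W2 := 536870912) (P3 := 991146299) (W3 := 28908434) (N0 := 3) (En := eng) (mo := mog) (C1 := cd0q2) (C2 := cd1q2a) (C3 := pd0)
    rfl k0_mm_202_a

noncomputable def f_mm_202_b : ℕ → ℕ → ℕ → ℕ → Bool := onCell 0 536870912 1239849684 370763052 991146299 28908434
    (rowB 3 eng mog cd0q2 cd1q2b pd0 0 false false false .pp 2 0 2 (qsf 0 536870912 1239849684 370763052 0) ndB0q2 ndB1q2b pcB0 Cut.none Ext.none)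

def k0_mm_202_b : ∃ t, chk3 f_mm_202_b t 1 1 1 = true :=
  ⟨(l 3), by decide +kernel⟩

theorem c_mm_202_b : CertB 0 536870912 1239849684 370763052 991146299 28908434 3 eng mog cd0q2 cd1q2b pd0 false false false .pp 2 0 2
    ndB0q2 ndB1q2b pcB0 Cut.none Ext.none :=
  certB0 (fam := false) (s1 := false) (s2 := false) (a := 2) (b := 0) (c := 2) (cn := .pp) (n1 := ndB0q2) (n2 := ndB1q2b) (pc := pcB0) (cut := Cut.none) (xt := Ext.none) (P1 := 0) (W1 := 536870912) (P2 := 1239849684) (W2 := 370763052) (P3 := 991146299) (W3 := 28908434) (N0 := 3) (En := eng) (mo := mog) (C1 := cd0q2) (C2 := cd1q2b) (C3 := pd0)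
    rfl k0_mm_202_b

noncomputable def f_mm_203 : ℕ → ℕ → ℕ → ℕ → Bool := onCell 0 536870912 0 536870912 991146299 28908434
    (rowB 3 eng mog cd0q2 cd1q3 pd0 1 false false false .up 2 0 3 (qsf 0 536870912 1610612736 536870912 0) ndB0q2 ndB1q3 pcB0 Cut.none Ext.none)

def k0_mm_203 : ∃ t, chk3 f_mm_203 t 1 1 1 = true :=
  ⟨(l 3), by decide +kernel⟩

theorem c_mm_203 : CertB 0 536870912 1610612736 536870912 991146299 28908434 3 eng mog cd0q2 cd1q3 pd0 false false false .up 2 0 3
    ndB0q2 ndB1q3 pcB0 Cut.none Ext.none :=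
  certB1 (fam := false) (s1 := false) (s2 := false) (a := 2) (b := 0) (c := 3) (cn := .up) (n1 := ndB0q2) (n2 := ndB1q3) (pc := pcB0) (cut := Cut.none) (xt := Ext.none) (P1 := 0) (W1 := 536870912) (P2 := 1610612736) (W2 := 536870912) (P3 := 991146299) (W3 := 28908434) (N0 := 3) (En := eng) (mo := mog) (C1 := cd0q2) (C2 := cd1q3) (C3 := pd0)
    rfl (fun _ => rfl) k0_mm_203

noncomputable def f_mm_213 : ℕ → ℕ → ℕ → ℕ → Bool := onCell 0 536870912 1610612736 536870912 991146299 28908434
    (rowB 3 eng mog cd0q2 cd1q3 pd1 0 false false false .pnn 2 1 3 (qsf 0 536870912 1610612736 536870912 1) ndB0q2 ndB1q3 pcB1 Cut.none Ext.none)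

def k0_mm_213 : ∃ t, chk3 f_mm_213 t 1 1 1 = true :=
  ⟨(a (l 3) (l 5)), by decide +kernel⟩

theorem c_mm_213 : CertB 0 536870912 1610612736 536870912 991146299 28908434 3 eng mog cd0q2 cd1q3 pd1 false false false .pnn 2 1 3
    ndB0q2 ndB1q3 pcB1 Cut.none Ext.none :=
  certB0 (fam := false) (s1 := false) (s2 := false) (a := 2) (b := 1) (c := 3) (cn := .pnn) (n1 := ndB0q2) (n2 := ndB1q3) (pc := pcB1) (cut := Cut.none) (xt := Ext.none) (P1 := 0) (W1 := 536870912) (P2 := 1610612736) (W2 := 536870912) (P3 := 991146299) (W3 := 28908434) (N0 := 3) (En := eng) (mo := mog) (C1 := cd0q2) (C2 := cd1q3) (C3 := pd1)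
    rfl k0_mm_213

end Pool.Agent.Strip051.G.I9231_9500.Tab.C.BB01

namespace Pool.Agent.Strip051.G.I9231_9500.Tab.C.BB02

open Pool.Agent.Strip051.PB Pool.Agent.Strip051.PB.T
open Pool.Agent.Strip051.G.I9231_9500.Tab

noncomputable def f_pp_001 : ℕ → ℕ → ℕ → ℕ → Bool := onCell 0 536870912 536870912 536870912 991146299 28908434
    (rowB 3 eng mog cd0q0 cd2q1 pd0 0 false true true .up 0 0 1 (qsf 0 536870912 536870912 536870912 0) ndB0q0 ndB2q1 pcB0 Cut.none Ext.none)

def k0_pp_001 : ∃ t, chk3 f_pp_001 t 1 1 1 = true :=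
  ⟨(l 3), by decide +kernel⟩

theorem c_pp_001 : CertB 0 536870912 536870912 536870912 991146299 28908434 3 eng mog cd0q0 cd2q1 pd0 false true true .up 0 0 1
    ndB0q0 ndB2q1 pcB0 Cut.none Ext.none :=
  certB0 (fam := false) (s1 := true) (s2 := true) (a := 0) (b := 0) (c := 1) (cn := .up) (n1 := ndB0q0) (n2 := ndB2q1) (pc := pcB0) (cut := Cut.none) (xt := Ext.none) (P1 := 0) (W1 := 536870912) (P2 := 536870912) (W2 := 536870912) (P3 := 991146299) (W3 := 28908434) (N0 := 3) (En := eng) (mo := mog) (C1 := cd0q0) (C2 := cd2q1) (C3 := pd0)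
    rfl k0_pp_001

noncomputable def f_pp_011 : ℕ → ℕ → ℕ → ℕ → Bool := onCell 0 536870912 536870912 536870912 991146299 28908434
    (rowB 3 eng mog cd0q0 cd2q1 pd1 0 false true true .pnn 0 1 1 (qsf 0 536870912 536870912 536870912 1) ndB0q0 ndB2q1 pcB1 Cut.none Ext.none)

def k0_pp_011 : ∃ t, chk3 f_pp_011 t 1 1 1 = true :=
  ⟨(l 3), by decide +kernel⟩

theorem c_pp_011 : CertB 0 536870912 536870912 536870912 991146299 28908434 3 eng mog cd0q0 cd2q1 pd1 false true true .pnn 0 1 1
    ndB0q0 ndB2q1 pcB1 Cut.none Ext.none :=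
  certB0 (fam := false) (s1 := true) (s2 := true) (a := 0) (b := 1) (c := 1) (cn := .pnn) (n1 := ndB0q0) (n2 := ndB2q1) (pc := pcB1) (cut := Cut.none) (xt := Ext.none) (P1 := 0) (W1 := 536870912) (P2 := 536870912) (W2 := 536870912) (P3 := 991146299) (W3 := 28908434) (N0 := 3) (En := eng) (mo := mog) (C1 := cd0q0) (C2 := cd2q1) (C3 := pd1)
    rfl k0_pp_011

noncomputable def cut_pp_012_a : Cut := Cut.of [[⟨0, 0, 0, 53687091⟩, ⟨1, 1, 0, 53687091⟩, ⟨2, 1, 0, 53687091⟩]]

noncomputable def f_pp_012_a : ℕ → ℕ → ℕ → ℕ → Bool := onCell 536870912 536870912 0 536870912 991146299 28908434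
    (rowB 3 eng mog cd0q0 cd2q2a pd1 2 false true true .pnp 0 1 2 (qsf 0 536870912 0 536870912 1) ndB0q0 ndB2q2a pcB1 cut_pp_012_a Ext.none)

def k0_pp_012_a : ∃ t, chk3 f_pp_012_a t 2 1 1 = true :=
  ⟨(l 3), by decide +kernel⟩

def k1_pp_012_a : ∃ t, chk3 f_pp_012_a t 6 1 1 = true :=
  ⟨(b (a (l 3) (b (l 3) (l 3))) (l 3)), by decide +kernel⟩

def k2_pp_012_a : ∃ t, chk3 f_pp_012_a t 7 2 1 = true :=
  ⟨(a (a (b (b (a (a (l 101099316951) (l 16663416)) (a (l 16682872) (l 16665720))) (a (l 3) (b (l 116131645511) (l 122574128279)))) (l 3)) (b (b (a (b (l 16609256) (l 16644736)) (l 16554320)) (a (a (l 16678264) (l 16659848)) (l 16566664))) (b (a (b (l 117205374983) (l 130627187495)) (a (l 16635504) (l 16636512))) (a (l 3) (b (a (l 16694968) (l 16688272)) (l 120426640119)))))) (a (b (a (b (l 16530288) (l 16512296)) (b (l 16462152) (a (l 16551192) (l 16527144)))) (a (b (b (l 16572680) (a (l 16646384) (l 16624512))) (b (c (l 16653136) (l 16661624)) (b (l 16632136) (l 48485876183)))) (b (a (l 16549640) (l 16525912))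 (a (b (l 16624384) (l 16626632)) (b (l 16600992) (l 16603544)))))) (b (a (b (l 16413568) (a (l 16502480) (l 16478768))) (b (l 16390288) (c (l 16439312) (l 16453264)))) (a (a (b (l 16501376) (b (l 16576664) (l 16579400))) (b (l 16477776) (b (l 16553256) (l 16577288)))) (b (b (l 16476248) (l 16456384)) (b (a (l 16531784) (l 16512192)) (a (l 16556200) (l 16537144)))))))), by decide +kernel⟩

def k3_pp_012_a : ∃ t, chk3 f_pp_012_a t 14 3 1 = true :=
  ⟨(l 3), by decide +kernel⟩

def k4_pp_012_a : ∃ t, chk3 f_pp_012_a t 15 6 1 = true :=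
  ⟨(a (b (a (b (a (l 16683536) (l 16650760)) (a (l 3) (l 97878080583))) (b (a (c (l 16646520) (l 16675752)) (l 16606912)) (a (b (l 16669000) (l 16681392)) (b (l 16646624) (l 16659544))))) (a (l 3) (b (a (b (l 16672512) (l 16700416)) (b (l 16651768) (a (l 16691544) (l 16680656)))) (a (l 3) (b (c (l 16696320) (l 16702024)) (b (l 16708264) (l 3))))))) (b (a (b (a (l 16583184) (l 16581472)) (a (b (l 16623264) (l 16636472)) (b (l 16621992) (l 16614496)))) (b (a (l 16560936) (l 16542400)) (a (c (l 16604288) (l 16613536)) (c (l 16585784) (l 16596072))))) (a (b (a (b (l 16628984) (c (l 16660424) (l 16667160))) (b (l 16628248) (b (l 16638704) (l 16645784)))) (a (a (b (l 16683328) (l 16695480)) (b (l 16672272) (l 16686624))) (a (b (l 16661672) (l 16673520)) (b (l 16651608) (l 16666192))))) (b (a (b (l 16608648) (l 16601960)) (a (l 16581640) (l 16578640))) (a (b (a (l 16642064) (l 16653992)) (a (l 16656760) (l 16647784))) (b (b (l 16616456) (l 16624016)) (a (l 16639480) (l 16631792)))))))), by decide +kernel⟩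

def k5_pp_012_a : ∃ t, chk3 f_pp_012_a t 15 7 1 = true :=
  ⟨(a (l 3) (b (a (b (a (a (b (l 89288211607) (l 3)) (b (b (l 16697504) (l 16704752)) (b (l 16711888) (l 16718896)))) (b (a (c (l 16688320) (l 16693440)) (c (l 16680912) (l 16683656))) (a (c (b (l 16699680) (l 16707440)) (l 16707960)) (c (b (l 16689952) (l 16698016)) (l 16698752))))) (a (l 3) (b (c (a (b (l 16725776) (l 16723360)) (b (c (l 16705448) (l 16707448)) (a (l 16717248) (l 16713040)))) (a (l 81772049703) (b (l 16710592) (l 16718944)))) (a (l 3) (b (c (a (l 16725880) (l 16732464)) (l 16723984)) (c (l 34527440359) (l 16746176))))))) (b (a (b (a (b (l 16667872) (l 16675544)) (c (l 16660264) (l 16687368))) (c (a (b (l 16701856) (l 16689304)) (b (l 16693568) (l 16702248))) (a (l 16690112) (l 16682416)))) (b (a (c (l 16673080) (l 16679712)) (c (l 16665728) (l 16672976))) (a (c (l 16669432) (l 16675440)) (c (l 16662504) (l 16690104))))) (a (b (a (c (b (l 16697992) (a (l 16708920) (l 16704952))) (b (l 16702520) (l 16711128))) (c (b (l 16690176)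 (l 16699248)) (b (l 16716144) (l 16703928)))) (a (b (c (a (l 16728472) (l 16714072)) (l 16719896)) (c (a (l 16737656) (l 16733792)) (l 16734520))) (b (c (a (l 16710328) (l 16706640)) (l 16712832)) (c (a (l 16719504) (l 16715784)) (l 16721632))))) (b (a (b (l 16690880) (a (l 16696344) (l 16693040))) (b (l 16679224) (l 16688216))) (a (b (c (l 16701272) (l 16706176)) (a (l 16714264) (l 6))) (b (a (l 16698704) (l 6)) (l 6))))))) (a (l 3) (b (a (b (b (a (c (a (l 16749824) (l 16738864)) (l 16746256)) (a (c (l 16738544) (l 16745424)) (l 6))) (l 6)) (l 6)) (l 6)) (l 6))))), by decide +kernel⟩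

theorem s6_pp_012_a : ∃ t, chk3 f_pp_012_a t 15 3 1 = true := ex3_b k4_pp_012_a k5_pp_012_a

theorem s7_pp_012_a : ∃ t, chk3 f_pp_012_a t 7 3 1 = true := ex3_a k3_pp_012_a s6_pp_012_a

theorem s8_pp_012_a : ∃ t, chk3 f_pp_012_a t 7 1 1 = true := ex3_b k2_pp_012_a s7_pp_012_a

theorem s9_pp_012_a : ∃ t, chk3 f_pp_012_a t 3 1 1 = true := ex3_a k1_pp_012_a s8_pp_012_a

theorem s10_pp_012_a : ∃ t, chk3 f_pp_012_a t 1 1 1 = true := ex3_a k0_pp_012_a s9_pp_012_a

theorem c_pp_012_a : CertB 0 536870912 0 536870912 991146299 28908434 3 eng mog cd0q0 cd2q2a pd1 false true true .pnp 0 1 2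
    ndB0q0 ndB2q2a pcB1 cut_pp_012_a Ext.none :=
  certB2 (fam := false) (s1 := true) (s2 := true) (a := 0) (b := 1) (c := 2) (cn := .pnp) (n1 := ndB0q0) (n2 := ndB2q2a) (pc := pcB1) (cut := cut_pp_012_a) (xt := Ext.none) (P1 := 0) (W1 := 536870912) (P2 := 0) (W2 := 536870912) (P3 := 991146299) (W3 := 28908434) (N0 := 3) (En := eng) (mo := mog) (C1 := cd0q0) (C2 := cd2q2a) (C3 := pd1)
    rfl (fun _ => rfl) s10_pp_012_a

noncomputable def cut_pp_012_b : Cut := Cut.of [[⟨0, 0, 0, 53687091⟩, ⟨1, 1, 0, 53687091⟩, ⟨2, 1, 0, 53687091⟩]]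

noncomputable def f_pp_012_b : ℕ → ℕ → ℕ → ℕ → Bool := onCell 536870912 536870912 1239849684 370763052 991146299 28908434
    (rowB 3 eng mog cd0q0 cd2q2b pd1 2 false true true .pnp 0 1 2 (qsf 0 536870912 1239849684 370763052 1) ndB0q0 ndB2q2b pcB1 cut_pp_012_b Ext.none)

def k0_pp_012_b : ∃ t, chk3 f_pp_012_b t 1 1 1 = true :=
  ⟨(a (l 3) (a (a (l 3) (b (b (b (l 3) (l 3)) (l 3)) (l 3))) (b (a (b (a (b (a (a (b (a (l 16690008) (l 16684408)) (l 16661000)) (b (l 16672656) (l 16645912))) (b (a (l 16655784) (l 16616664)) (l 16577208))) (a (b (l 16627960) (l 16603376)) (b (l 16572072) (l 16547336)))) (b (a (b (c (l 16585504) (l 16589264)) (l 16558120)) (b (l 16523408) (l 16534472))) (a (b (l 16551640) (l 16525712)) (b (l 16505472) (l 16478136))))) (a (b (a (b (l 16579576) (l 16535368)) (a (l 16501744) (l 16502072))) (a (l 3) (l 16489256))) (b (a (l 16405616) (l 16398120)) (b (l 16367072) (l 16344736))))) (b (a (b (a (b (l 16476976) (l 16486176)) (b (c (l 16465744) (l 16475544)) (l 16414752))) (a (b (l 16455440)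 (l 16426480)) (b (l 16403072) (l 16372328)))) (b (a (b (l 16358040) (l 16383968)) (b (l 16312736) (l 16336376))) (a (b (l 16349248) (l 16316536)) (b (l 16299480) (l 16264712))))) (a (b (a (l 16344288) (l 16245720)) (a (l 16336400) (l 16255928))) (b (a (b (l 16285624) (l 16256304)) (b (l 16231864) (l 16200712))) (a (l 16215120) (l 16156992)))))) (a (b (a (a (l 3) (b (l 16383000) (l 16360184))) (b (b (l 16322984) (l 16301664)) (a (l 16338712) (l 16305568)))) (a (l 2) (b (a (l 16317024) (l 16263208)) (l 2)))) (b (a (b (a (l 16289984) (l 16228064)) (a (l 16245624) (l 16181648))) (b (a (l 16163456) (l 16102312)) (a (l 16114600) (l 16050824)))) (a (b (a (l 16202024) (l 16136408)) (l 252428332263)) (b (a (l 16067264) (l 16001192)) (a (l 16020280) (l 15952272))))))))), by decide +kernel⟩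

theorem c_pp_012_b : CertB 0 536870912 1239849684 370763052 991146299 28908434 3 eng mog cd0q0 cd2q2b pd1 false true true .pnp 0 1 2
    ndB0q0 ndB2q2b pcB1 cut_pp_012_b Ext.none :=
  certB2 (fam := false) (s1 := true) (s2 := true) (a := 0) (b := 1) (c := 2) (cn := .pnp) (n1 := ndB0q0) (n2 := ndB2q2b) (pc := pcB1) (cut := cut_pp_012_b) (xt := Ext.none) (P1 := 0) (W1 := 536870912) (P2 := 1239849684) (W2 := 370763052) (P3 := 991146299) (W3 := 28908434) (N0 := 3) (En := eng) (mo := mog) (C1 := cd0q0) (C2 := cd2q2b) (C3 := pd1)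
    rfl (fun _ => rfl) k0_pp_012_b

noncomputable def cut_pp_022_a : Cut := Cut.of [[⟨0, 0, 0, 53687091⟩, ⟨1, 1, 0, 53687091⟩, ⟨2, 1, 0, 53687091⟩]]

noncomputable def f_pp_022_a : ℕ → ℕ → ℕ → ℕ → Bool := onCell 1073741824 536870912 0 536870912 991146299 28908434
    (rowB 3 eng mog cd0q0 cd2q2a pd2 2 false true true .pp 0 2 2 (qsf 0 536870912 0 536870912 2) ndB0q0 ndB2q2a pcB2 cut_pp_022_a Ext.none)

def k0_pp_022_a : ∃ t, chk3 f_pp_022_a t 8 2 1 = true :=
  ⟨(b (a (c (a (b (l 16501504) (l 16488096)) (l 16473784)) (b (a (l 16537864) (l 16496184)) (a (l 16564816) (l 16519688)))) (b (a (l 16362280) (l 16356232)) (c (l 16407000) (l 16342232)))) (a (b (c (a (l 16439880) (l 16562176)) (a (l 16511624) (l 16482552))) (a (b (a (l 16483480) (l 16481064)) (b (l 16487200) (l 16497896))) (c (l 16485176) (l 16453352)))) (b (a (a (l 16433424) (l 16427168)) (a (l 16399752) (l 16370928))) (a (b (b (l 16411272) (l 16451728)) (l 16443880)) (b (a (l 16430528) (l 16400408)) (l 16382312)))))), by decide +kernel⟩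

def k1_pp_022_a : ∃ t, chk3 f_pp_022_a t 8 6 1 = true :=
  ⟨(c (a (b (a (b (l 16523968) (b (l 16564880) (l 16557000))) (b (l 16588192) (l 16561264))) (a (b (b (l 16571504) (b (l 16582392) (l 16589848))) (a (b (l 16604944) (l 16619888)) (b (l 16635008) (l 16634000)))) (b (b (l 16567056) (l 16531752)) (a (c (l 16578464) (l 16579440)) (l 16524288))))) (b (b (a (l 16501304) (l 16453640)) (a (l 16487568) (l 16413496))) (a (b (a (l 16535536) (l 16495376)) (a (l 16523184) (l 16480992))) (b (l 16373976) (b (l 16424680) (l 16375512)))))) (a (b (a (b (l 16599560) (b (l 16603792) (l 16586736))) (b (l 16513816) (l 16490312))) (a (b (a (l 16612128) (l 16570744)) (a (a (l 16633248) (l 16609952)) (b (l 16615728) (l 16596200)))) (b (a (l 16571296) (l 16529296)) (a (b (l 16569928) (l 16568736)) (l 16501832))))) (b (a (b (l 16489160) (l 16456880)) (b (l 16420336) (l 16381848))) (a (b (l 16371968) (a (l 16478024) (l 16434376))) (b (l 16323328) (b (l 16375840) (l 16328064))))))), by decide +kernel⟩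

def k2_pp_022_a : ∃ t, chk3 f_pp_022_a t 8 7 1 = true :=
  ⟨(a (b (b (a (a (b (c (a (l 16646904) (l 16669136)) (l 16607144)) (c (a (l 16663200) (l 16669664)) (b (l 16631112) (l 16633336)))) (b (c (l 16611752) (l 16597488)) (c (b (l 16611120) (l 16610920)) (a (l 16633712) (l 16607248))))) (b (a (c (l 16585184) (l 16568192)) (c (l 16559904) (l 16519568))) (c (a (l 16583120) (l 16557048)) (a (l 16568632) (l 16519040))))) (b (c (a (a (a (a (l 16674152) (l 16690696)) (l 16649944)) (b (l 16611104) (l 16611656))) (a (a (l 16615736) (l 16591288)) (l 16565960))) (a (a (a (l 16651304) (l 16643992)) (b (l 16601752) (l 16582872))) (a (a (l 16583776) (l 16557856)) (l 16520008)))) (l 6))) (l 6)) (b (a (b (c (b (a (l 16515400) (l 16472504)) (a (l 16511744) (l 16468144))) (b (a (l 16473056) (l 16428504)) (a (l 16471544) (l 16426120)))) (b (c (a (l 16509344) (b (l 16465696) (l 16464480))) (a (l 16471512) (b (l 16425288) (l 16425232)))) (l 6))) (b (c (a (b (l 16431216) (l 16426248)) (b (l 16391512) (l 16386032))) (b (a (l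 16385880) (l 16345160)) (a (l 16382736) (l 16341376)))) (b (a (c (l 16427768) (l 16388920)) (c (l 16381808) (l 16339040))) (a (c (l 16420232) (l 16386288)) (l 1))))) (a (l 6) (l 1)))), by decide +kernel⟩

def k3_pp_022_a : ∃ t, chk3 f_pp_022_a t 9 1 1 = true :=
  ⟨(a (b (b (a (b (l 16306240) (c (l 16430096) (l 16369688))) (b (l 16273424) (c (l 16369720) (l 16312448)))) (c (b (a (l 16416424) (l 16351576)) (a (b (l 16420704) (l 16427976)) (b (l 16374336) (l 16342264)))) (b (a (l 16358800) (l 16317336)) (a (b (l 16365112) (l 16373248)) (b (l 16320640) (l 16289136)))))) (b (b (a (b (c (l 16405688) (l 16351864)) (c (l 16383664) (l 16330952))) (b (c (l 16339248) (l 16286664)) (c (l 16274456) (l 16243616)))) (a (b (c (a (l 16381456) (l 16346048)) (a (l 16330304) (l 16294888))) (c (b (l 16329120) (a (l 16360344) (l 16324104))) (a (b (l 16318608) (l 16311928)) (l 23118029799)))) (b (c (a (l 16311880) (l 16278968)) (a (l 16260984) (l 16228584))) (a (b (l 59625260871) (l 1)) (l 1))))) (b (b (a (a (b (c (l 16353384)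 (l 16306344)) (c (l 16347504) (l 16302016))) (b (c (l 16316832) (l 16269400)) (l 1))) (l 1)) (l 1)) (l 1)))) (b (b (a (b (l 16173408) (c (l 16306960) (l 16253176))) (b (c (l 16245848) (l 16195168)) (c (l 16244952) (l 16195256)))) (b (c (a (l 16306544) (l 16243120)) (a (l 16254152) (l 16194264))) (a (b (a (l 16298488) (l 16266360)) (b (c (l 16305760) (l 16255032)) (l 16228224))) (c (b (l 16243288) (a (l 16254944) (l 16224904))) (b (l 16195200) (a (l 16206504) (l 16178176))))))) (b (b (a (b (c (l 16276776) (l 16226312)) (c (a (l 16268800) (l 16238392)) (a (l 16218264) (l 16188984)))) (b (a (l 16229416) (l 16180672)) (l 1))) (a (a (a (b (l 16243632) (l 1)) (l 1)) (l 1)) (l 1))) (l 1)))), by decide +kernel⟩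

def k4_pp_022_a : ∃ t, chk3 f_pp_022_a t 5 1 1 = true :=
  ⟨(b (a (a (b (c (b (l 16078112) (a (l 16186048) (l 16130296))) (b (l 16078072) (a (l 16141208) (l 16091088)))) (b (c (a (l 16182584) (l 16125144)) (a (l 16137984) (l 16085528))) (a (b (c (l 16181904) (l 16137680)) (a (b (l 16186208) (l 1)) (l 1))) (l 1)))) (b (b (l 1) (l 1)) (l 1))) (l 1)) (b (l 1) (l 1))), by decide +kernel⟩

def k5_pp_022_a : ∃ t, chk3 f_pp_022_a t 3 1 1 = true :=
  ⟨(l 1), by decide +kernel⟩

theorem s6_pp_022_a : ∃ t, chk3 f_pp_022_a t 8 3 1 = true := ex3_b k1_pp_022_a k2_pp_022_a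

theorem s7_pp_022_a : ∃ t, chk3 f_pp_022_a t 8 1 1 = true := ex3_b k0_pp_022_a s6_pp_022_a

theorem s8_pp_022_a : ∃ t, chk3 f_pp_022_a t 4 1 1 = true := ex3_a s7_pp_022_a k3_pp_022_a

theorem s9_pp_022_a : ∃ t, chk3 f_pp_022_a t 2 1 1 = true := ex3_a s8_pp_022_a k4_pp_022_a

theorem s10_pp_022_a : ∃ t, chk3 f_pp_022_a t 1 1 1 = true := ex3_a s9_pp_022_a k5_pp_022_a

theorem c_pp_022_a : CertB 0 536870912 0 536870912 991146299 28908434 3 eng mog cd0q0 cd2q2a pd2 false true true .pp 0 2 2
    ndB0q0 ndB2q2a pcB2 cut_pp_022_a Ext.none :=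
  certB2 (fam := false) (s1 := true) (s2 := true) (a := 0) (b := 2) (c := 2) (cn := .pp) (n1 := ndB0q0) (n2 := ndB2q2a) (pc := pcB2) (cut := cut_pp_022_a) (xt := Ext.none) (P1 := 0) (W1 := 536870912) (P2 := 0) (W2 := 536870912) (P3 := 991146299) (W3 := 28908434) (N0 := 3) (En := eng) (mo := mog) (C1 := cd0q0) (C2 := cd2q2a) (C3 := pd2)
    rfl (fun _ => rfl) s10_pp_022_a

noncomputable def cut_pp_022_b : Cut := Cut.of [[⟨0, 0, 0, 53687091⟩, ⟨1, 1, 0, 53687091⟩, ⟨2, 1, 0, 53687091⟩]]

noncomputable def f_pp_022_b : ℕ → ℕ → ℕ → ℕ → Bool := onCell 0 536870912 1073741824 536870912 991146299 28908434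
    (rowB 3 eng mog cd0q0 cd2q2b pd2 1 false true true .pp 0 2 2 (qsf 0 536870912 1239849684 370763052 2) ndB0q0 ndB2q2b pcB2 cut_pp_022_b Ext.none)

def k0_pp_022_b : ∃ t, chk3 f_pp_022_b t 2 2 1 = true :=
  ⟨(a (b (b (a (l 1) (b (a (l 1) (c (l 303364952215) (l 296385472007))) (a (c (a (l 1) (l 266320694311)) (l 270615473511)) (b (b (l 16383136) (l 16383312)) (l 187937409223))))) (a (b (a (l 1) (c (l 289405860439) (l 288868868455))) (a (b (l 1) (c (l 296922112119) (l 297458884823))) (c (b (l 274373442743) (l 16255104)) (b (l 273836464279) (l 16204960))))) (c (a (b (l 224444560743) (l 16286216)) (b (l 16364168) (l 16326504))) (a (b (b (l 16325280) (l 16309760)) (l 16257632)) (b (l 16347752) (l 16280496)))))) (a (b (a (b (c (b (l 284037116119) (l 16144472)) (b (l 281889544359) (l 16106432))) (c (b (l 16105248) (l 16067864)) (l 15996848))) (b (c (b (l 16214440) (l 16175472)) (b (l 16171464) (l 16139624))) (c (l 16120344) (l 16095144)))) (a (b (c (l 16015368) (l 16004088)) (c (l 15952136) (l 15956280))) (b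 (c (l 16053216) (l 16042200)) (c (l 15993520) (l 15996752))))) (b (a (b (c (l 16229936) (l 16193616)) (c (l 16159472) (l 16136248))) (b (c (l 16253256) (l 16219344)) (l 16175808))) (a (b (l 16007048) (l 16019896)) (b (l 16121640) (l 16073968)))))) (b (c (a (b (b (a (b (l 16503528) (l 16560216)) (b (l 16501448) (l 16518400))) (a (l 16495424) (l 16491824))) (b (l 16289080) (l 16341440))) (b (b (a (l 16398552) (l 16406664)) (l 16425296)) (b (l 16405352) (l 16340032)))) (b (a (b (a (b (l 16461584) (l 16464960)) (l 16441592)) (a (l 16388144) (l 16432384))) (b (a (l 16499288) (l 16490320)) (l 16427296))) (a (b (a (l 16360144) (l 16365360)) (l 16216664)) (b (l 16364824) (l 16307728))))) (b (a (b (a (l 16211672) (l 16263320)) (a (l 16195928) (l 16208568))) (b (l 16226584) (l 16217832))) (a (b (l 16236712) (l 16108128)) (b (l 16171792) (l 16129608)))))), by decide +kernel⟩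

def k1_pp_022_b : ∃ t, chk3 f_pp_022_b t 2 3 1 = true :=
  ⟨(a (b (a (b (b (a (c (l 15896776) (l 15916512)) (c (l 15941240) (l 15958784))) (a (c (l 15849192) (l 15884728)) (l 15827608))) (b (a (l 15729176) (l 15796160)) (c (l 15569648) (l 15696664)))) (b (b (a (l 15997640) (l 16032416)) (a (l 15939824) (l 15996360))) (b (a (l 15929656) (l 15964912)) (a (l 15903280) (l 15936896))))) (a (b (c (a (l 15717336) (l 15786552)) (a (l 15830112) (l 15868016))) (c (a (l 15702984) (l 15744664)) (a (l 15736480) (l 15668808)))) (b (c (a (l 15836536) (l 15870768)) (a (l 15865008) (l 15802320))) (b (l 15570536) (l 2))))) (b (b (a (b (l 16068288) (l 16032376)) (b (l 16090168) (l 16032128))) (a (b (l 15999160) (l 15943352)) (b (l 15938832) (l 2)))) (b (a (b (l 15836184) (l 2)) (l 2)) (l 2)))), by decide +kernel⟩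

def k2_pp_022_b : ∃ t, chk3 f_pp_022_b t 3 1 1 = true :=
  ⟨(b (a (b (b (c (a (b (a (l 16355656) (l 16286616)) (l 16325392)) (b (l 16155808) (l 16235448))) (a (b (l 16371280) (l 16409632)) (b (l 16333824) (l 16313896)))) (a (b (a (l 16369288) (l 16321584)) (l 16165288)) (c (l 16213264) (l 16267136)))) (b (a (b (l 16261976) (l 16215720)) (c (l 16152144) (l 16170288))) (a (b (l 16166048) (l 16097992)) (l 16043960)))) (b (b (a (c (b (l 16110392) (l 16150128)) (b (l 16238264) (l 16221616))) (c (b (l 16063488) (l 16064800)) (l 16099192))) (a (c (l 16130288) (l 16178536)) (c (l 16049736) (l 16095480)))) (b (a (l 16078184) (l 2)) (l 2)))) (b (a (b (a (b (l 16021024) (l 2)) (l 2)) (l 2)) (l 2)) (l 2))), by decide +kernel⟩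

theorem s3_pp_022_b : ∃ t, chk3 f_pp_022_b t 2 1 1 = true := ex3_b k0_pp_022_b k1_pp_022_b

theorem s4_pp_022_b : ∃ t, chk3 f_pp_022_b t 1 1 1 = true := ex3_a s3_pp_022_b k2_pp_022_b

theorem c_pp_022_b : CertB 0 536870912 1239849684 370763052 991146299 28908434 3 eng mog cd0q0 cd2q2b pd2 false true true .pp 0 2 2
    ndB0q0 ndB2q2b pcB2 cut_pp_022_b Ext.none :=
  certB1 (fam := false) (s1 := true) (s2 := true) (a := 0) (b := 2) (c := 2) (cn := .pp) (n1 := ndB0q0) (n2 := ndB2q2b) (pc := pcB2) (cut := cut_pp_022_b) (xt := Ext.none) (P1 := 0) (W1 := 536870912) (P2 := 1239849684) (W2 := 370763052) (P3 := 991146299) (W3 := 28908434) (N0 := 3) (En := eng) (mo := mog) (C1 := cd0q0) (C2 := cd2q2b) (C3 := pd2)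
    rfl (fun _ => rfl) s4_pp_022_b

noncomputable def f_pp_023 : ℕ → ℕ → ℕ → ℕ → Bool := onCell 0 536870912 1073741824 536870912 991146299 28908434
    (rowB 3 eng mog cd0q0 cd2q3 pd2 1 false true true .up 0 2 3 (qsf 0 536870912 1610612736 536870912 2) ndB0q0 ndB2q3 pcB2 Cut.none Ext.none)

def k0_pp_023 : ∃ t, chk3 f_pp_023 t 1 1 1 = true :=
  ⟨(a (b (a (l 1) (b (l 1) (b (l 1) (a (l 1) (b (l 1) (l 190620279527)))))) (a (b (a (l 1) (a (l 1) (a (l 1) (b (l 1) (l 195988628807))))) (a (a (b (l 1) (c (l 198135625703) (l 15309920))) (b (c (l 207799400455) (l 15383960)) (b (l 15302432) (l 15341040)))) (b (c (a (l 15510120) (l 15575808)) (a (l 15578648) (l 15673048))) (c (a (l 15527104) (l 15583864)) (a (l 15651808) (l 15687584)))))) (b (b (a (b (l 1) (l 182566985159)) (b (l 15629192) (l 15645096))) (a (c (l 164850178743) (l 15494472)) (c (l 15741544) (l 15789976)))) (b (a (b (l 15479960) (l 15625144)) (c (l 15723384) (l 15758784))) (a (c (l 15643832) (l 15616048)) (b (l 15636240) (l 15494608))))))) (b (a (b (b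 (l 1) (a (l 1) (c (l 377451760199) (l 376378090727)))) (b (a (b (l 1) (l 362956074135)) (c (l 15859384) (l 15879592))) (a (c (l 15770584) (l 15788344)) (c (l 15883440) (l 15922832))))) (b (b (a (b (l 1) (l 383357477271)) (b (c (l 16004064) (l 16058936)) (l 67140547543))) (a (c (l 15872008) (l 15941928)) (c (l 15983408) (l 16036200)))) (b (a (c (l 15938264) (l 15985008)) (b (l 15998792) (l 15988952))) (a (c (l 15922640) (l 15958784)) (l 15751728))))) (b (a (b (a (c (l 15818000) (l 15856000)) (b (l 15884536) (l 15866376))) (a (b (l 15817720) (l 15797712)) (b (l 15838488) (l 15757800)))) (b (a (b (l 15908672) (l 15869528)) (l 15811536)) (a (l 15696248) (l 15598856)))) (a (b (a (b (l 15764480) (l 15630656)) (b (l 15630832) (l 15500584))) (a (b (l 15493888) (l 15356064)) (b (l 15368912) (l 15238184)))) (b (a (l 15494992) (l 15374768)) (a (c (l 15328920) (l 15081472)) (b (l 15213688) (l 15112600)))))))), by decide +kernel⟩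

theorem c_pp_023 : CertB 0 536870912 1610612736 536870912 991146299 28908434 3 eng mog cd0q0 cd2q3 pd2 false true true .up 0 2 3
    ndB0q0 ndB2q3 pcB2 Cut.none Ext.none :=
  certB1 (fam := false) (s1 := true) (s2 := true) (a := 0) (b := 2) (c := 3) (cn := .up) (n1 := ndB0q0) (n2 := ndB2q3) (pc := pcB2) (cut := Cut.none) (xt := Ext.none) (P1 := 0) (W1 := 536870912) (P2 := 1610612736) (W2 := 536870912) (P3 := 991146299) (W3 := 28908434) (N0 := 3) (En := eng) (mo := mog) (C1 := cd0q0) (C2 := cd2q3) (C3 := pd2)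
    rfl (fun _ => rfl) k0_pp_023

noncomputable def f_pp_033 : ℕ → ℕ → ℕ → ℕ → Bool := onCell 0 536870912 1610612736 536870912 991146299 28908434
    (rowB 3 eng mog cd0q0 cd2q3 pd3 1 false true true .pnn 0 3 3 (qsf 0 536870912 1610612736 536870912 3) ndB0q0 ndB2q3 pcB3 Cut.none Ext.none)

def k0_pp_033 : ∃ t, chk3 f_pp_033 t 1 1 1 = true :=
  ⟨(a (b (b (a (b (a (a (b (l 15039072) (l 15064920)) (l 15157736)) (a (l 15306216) (l 15416960))) (a (a (b (l 15085784) (l 15100104)) (l 15214272)) (a (l 15226080) (l 15431208)))) (b (a (l 15558312) (l 15696184)) (a (b (l 15556992) (l 15548800)) (b (l 15666176) (l 15669464))))) (a (b (a (b (a (l 15094200) (l 15204568)) (a (l 15028504) (l 15150904))) (b (a (l 15316592) (l 15415856)) (l 15308432))) (a (b (a (l 14959192) (l 15111096)) (a (l 14911040) (l 15097016))) (b (l 15355192) (l 15386264)))) (b (a (b (l 15557624) (l 15593312)) (l 15689680)) (b (a (l 15656208) (l 15918976)) (a (l 15716944) (l 4)))))) (a (b (b (a (b (a (l 14912504) (l 4)) (l 4)) (l 4)) (l 4)) (l 4))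 (b (l 4) (a (b (l 4) (l 2)) (l 2))))) (b (a (b (b (a (l 15769376) (l 15764168)) (a (b (l 15709384) (l 15769976)) (b (l 15764264) (l 15900472)))) (b (a (b (l 15880632) (l 15903208)) (b (l 16102400) (l 16226568))) (a (b (l 16127080) (l 4)) (l 4)))) (b (b (a (b (l 15773592) (l 15775472)) (b (l 15847624) (l 15980312))) (a (b (l 15940616) (l 16153360)) (b (l 16204520) (l 2)))) (a (b (b (l 16317144) (l 2)) (l 2)) (l 2)))) (a (b (a (b (l 4) (l 2)) (l 2)) (l 2)) (l 2)))), by decide +kernel⟩

theorem c_pp_033 : CertB 0 536870912 1610612736 536870912 991146299 28908434 3 eng mog cd0q0 cd2q3 pd3 false true true .pnn 0 3 3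
    ndB0q0 ndB2q3 pcB3 Cut.none Ext.none :=
  certB1 (fam := false) (s1 := true) (s2 := true) (a := 0) (b := 3) (c := 3) (cn := .pnn) (n1 := ndB0q0) (n2 := ndB2q3) (pc := pcB3) (cut := Cut.none) (xt := Ext.none) (P1 := 0) (W1 := 536870912) (P2 := 1610612736) (W2 := 536870912) (P3 := 991146299) (W3 := 28908434) (N0 := 3) (En := eng) (mo := mog) (C1 := cd0q0) (C2 := cd2q3) (C3 := pd3)
    rfl (fun _ => rfl) k0_pp_033

noncomputable def f_pp_101 : ℕ → ℕ → ℕ → ℕ → Bool := onCell 536870912 536870912 536870912 536870912 991146299 28908434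
    (rowB 3 eng mog cd0q1 cd2q1 pd0 0 false true true .npn 1 0 1 (qsf 536870912 536870912 536870912 536870912 0) ndB0q1 ndB2q1 pcB0 Cut.none Ext.none)

def k0_pp_101 : ∃ t, chk3 f_pp_101 t 1 1 1 = true :=
  ⟨(l 3), by decide +kernel⟩

theorem c_pp_101 : CertB 536870912 536870912 536870912 536870912 991146299 28908434 3 eng mog cd0q1 cd2q1 pd0 false true true .npn 1 0 1
    ndB0q1 ndB2q1 pcB0 Cut.none Ext.none :=
  certB0 (fam := false) (s1 := true) (s2 := true) (a := 1) (b := 0) (c := 1) (cn := .npn) (n1 := ndB0q1) (n2 := ndB2q1) (pc := pcB0) (cut := Cut.none) (xt := Ext.none) (P1 := 536870912) (W1 := 536870912) (P2 := 536870912) (W2 := 536870912) (P3 := 991146299) (W3 := 28908434) (N0 := 3) (En := eng) (mo := mog) (C1 := cd0q1) (C2 := cd2q1) (C3 := pd0)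
    rfl k0_pp_101

noncomputable def f_pp_102_a : ℕ → ℕ → ℕ → ℕ → Bool := onCell 536870912 536870912 0 536870912 991146299 28908434
    (rowB 3 eng mog cd0q1 cd2q2a pd0 0 false true true .npp 1 0 2 (qsf 536870912 536870912 0 536870912 0) ndB0q1 ndB2q2a pcB0 Cut.none Ext.none)

def k0_pp_102_a : ∃ t, chk3 f_pp_102_a t 1 1 1 = true :=
  ⟨(l 3), by decide +kernel⟩

theorem c_pp_102_a : CertB 536870912 536870912 0 536870912 991146299 28908434 3 eng mog cd0q1 cd2q2a pd0 false true true .npp 1 0 2
    ndB0q1 ndB2q2a pcB0 Cut.none Ext.none :=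
  certB0 (fam := false) (s1 := true) (s2 := true) (a := 1) (b := 0) (c := 2) (cn := .npp) (n1 := ndB0q1) (n2 := ndB2q2a) (pc := pcB0) (cut := Cut.none) (xt := Ext.none) (P1 := 536870912) (W1 := 536870912) (P2 := 0) (W2 := 536870912) (P3 := 991146299) (W3 := 28908434) (N0 := 3) (En := eng) (mo := mog) (C1 := cd0q1) (C2 := cd2q2a) (C3 := pd0)
    rfl k0_pp_102_a

noncomputable def f_pp_102_b : ℕ → ℕ → ℕ → ℕ → Bool := onCell 536870912 536870912 0 536870912 991146299 28908434
    (rowB 3 eng mog cd0q1 cd2q2b pd0 1 false true true .npp 1 0 2 (qsf 536870912 536870912 1239849684 370763052 0) ndB0q1 ndB2q2b pcB0 Cut.none Ext.none)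

def k0_pp_102_b : ∃ t, chk3 f_pp_102_b t 1 1 1 = true :=
  ⟨(l 3), by decide +kernel⟩

theorem c_pp_102_b : CertB 536870912 536870912 1239849684 370763052 991146299 28908434 3 eng mog cd0q1 cd2q2b pd0 false true true .npp 1 0 2
    ndB0q1 ndB2q2b pcB0 Cut.none Ext.none :=
  certB1 (fam := false) (s1 := true) (s2 := true) (a := 1) (b := 0) (c := 2) (cn := .npp) (n1 := ndB0q1) (n2 := ndB2q2b) (pc := pcB0) (cut := Cut.none) (xt := Ext.none) (P1 := 536870912) (W1 := 536870912) (P2 := 1239849684) (W2 := 370763052) (P3 := 991146299) (W3 := 28908434) (N0 := 3) (En := eng) (mo := mog) (C1 := cd0q1) (C2 := cd2q2b) (C3 := pd0)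
    rfl (fun _ => rfl) k0_pp_102_b

noncomputable def f_pp_112_a : ℕ → ℕ → ℕ → ℕ → Bool := onCell 536870912 536870912 0 536870912 991146299 28908434
    (rowB 3 eng mog cd0q1 cd2q2a pd1 0 false true true .dn 1 1 2 (qsf 536870912 536870912 0 536870912 1) ndB0q1 ndB2q2a pcB1 Cut.none Ext.none)

def k0_pp_112_a : ∃ t, chk3 f_pp_112_a t 1 1 1 = true :=
  ⟨(l 3), by decide +kernel⟩

theorem c_pp_112_a : CertB 536870912 536870912 0 536870912 991146299 28908434 3 eng mog cd0q1 cd2q2a pd1 false true true .dn 1 1 2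
    ndB0q1 ndB2q2a pcB1 Cut.none Ext.none :=
  certB0 (fam := false) (s1 := true) (s2 := true) (a := 1) (b := 1) (c := 2) (cn := .dn) (n1 := ndB0q1) (n2 := ndB2q2a) (pc := pcB1) (cut := Cut.none) (xt := Ext.none) (P1 := 536870912) (W1 := 536870912) (P2 := 0) (W2 := 536870912) (P3 := 991146299) (W3 := 28908434) (N0 := 3) (En := eng) (mo := mog) (C1 := cd0q1) (C2 := cd2q2a) (C3 := pd1)
    rfl k0_pp_112_a

noncomputable def f_pp_112_b : ℕ → ℕ → ℕ → ℕ → Bool := onCell 536870912 536870912 536870912 536870912 991146299 28908434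
    (rowB 3 eng mog cd0q1 cd2q2b pd1 1 false true true .dn 1 1 2 (qsf 536870912 536870912 1239849684 370763052 1) ndB0q1 ndB2q2b pcB1 Cut.none Ext.none)

def k0_pp_112_b : ∃ t, chk3 f_pp_112_b t 1 1 1 = true :=
  ⟨(b (l 3) (a (b (l 3) (b (b (a (a (l 3) (l 3)) (l 3)) (a (a (a (l 16246152) (l 16235584)) (a (l 16203080) (l 16190536))) (l 2))) (a (b (a (b (l 16159784) (l 16076360)) (b (l 16094872) (l 2))) (a (b (l 15987704) (l 15900560)) (l 2))) (l 2)))) (b (l 3) (l 2)))), by decide +kernel⟩

theorem c_pp_112_b : CertB 536870912 536870912 1239849684 370763052 991146299 28908434 3 eng mog cd0q1 cd2q2b pd1 false true true .dn 1 1 2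
    ndB0q1 ndB2q2b pcB1 Cut.none Ext.none :=
  certB1 (fam := false) (s1 := true) (s2 := true) (a := 1) (b := 1) (c := 2) (cn := .dn) (n1 := ndB0q1) (n2 := ndB2q2b) (pc := pcB1) (cut := Cut.none) (xt := Ext.none) (P1 := 536870912) (W1 := 536870912) (P2 := 1239849684) (W2 := 370763052) (P3 := 991146299) (W3 := 28908434) (N0 := 3) (En := eng) (mo := mog) (C1 := cd0q1) (C2 := cd2q2b) (C3 := pd1)
    rfl (fun _ => rfl) k0_pp_112_b

noncomputable def cut_pp_113 : Cut := Cut.of [[⟨0, 1, 0, 37748736⟩, ⟨1, 1, 0, 37748736⟩, ⟨2, 2, 0, 5242880⟩]]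

noncomputable def xt_pp_113 : Ext := extD3 3 ⟨4, 1, 1, 5, 22, 5, 21, 25, 41, 100, 1, 20⟩ eng cd0q1 cd2q3 pd1 false true true .nn 1 1 3 rfl ndB0q1 ndB2q3 pcB1

noncomputable def f_pp_113 : ℕ → ℕ → ℕ → ℕ → Bool := onCell 536870912 536870912 536870912 536870912 991146299 28908434
    (rowB 3 eng mog cd0q1 cd2q3 pd1 1 false true true .nn 1 1 3 (qsf 536870912 536870912 1610612736 536870912 1) ndB0q1 ndB2q3 pcB1 cut_pp_113 xt_pp_113)

def k0_pp_113 : ∃ t, chk3 f_pp_113 t 1 2 1 = true :=
  ⟨(l 3), by decide +kernel⟩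

def k1_pp_113 : ∃ t, chk3 f_pp_113 t 2 3 1 = true :=
  ⟨(b (l 3) (b (b (a (a (l 1) (l 3)) (l 3)) (a (a (a (l 1) (l 244308207095)) (a (l 122572762791) (l 108614267655))) (a (a (l 16129584) (l 191829208311)) (l 3)))) (a (b (a (a (l 15985744) (l 15972056)) (b (l 15960424) (l 16021800))) (a (c (l 16015792) (l 16062048)) (a (l 16041448) (l 16028072)))) (b (a (a (b (l 16137344) (l 16094296)) (b (l 16116024) (l 16034736))) (a (b (l 16060800) (l 15978704)) (b (l 16009824) (l 15928424)))) (a (a (l 15963240) (l 15900608)) (a (b (l 15887944) (l 15797272)) (b (l 15836456) (l 15744616)))))))), by decide +kernel⟩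

def k2_pp_113 : ∃ t, chk3 f_pp_113 t 3 6 1 = true :=
  ⟨(l 3), by decide +kernel⟩

def k3_pp_113 : ∃ t, chk3 f_pp_113 t 6 7 1 = true :=
  ⟨(b (l 3) (b (b (a (a (l 613272735239) (l 3)) (l 3)) (a (a (l 15887088) (l 160153865623)) (b (l 3) (a (l 188607960375) (l 606293614759))))) (a (a (b (l 15795048) (l 15703120)) (b (l 15769456) (l 15679488))) (a (b (c (l 15805936) (l 15730432)) (l 15684872)) (b (a (c (l 15840896) (l 15744656)) (b (l 214914625527) (l 15811112))) (c (l 15795560) (l 15681648))))))), by decide +kernel⟩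

def k4_pp_113 : ∃ t, chk3 f_pp_113 t 7 14 1 = true :=
  ⟨(l 3), by decide +kernel⟩

def k5_pp_113 : ∃ t, chk3 f_pp_113 t 14 15 1 = true :=
  ⟨(b (l 3) (a (a (b (b (c (l 593945626743) (l 634210682215)) (c (l 15937064) (l 15798184))) (c (l 15909112) (l 15759456))) (b (b (l 3) (c (l 4064984019732190935181842959) (l 225652064167))) (c (l 16116056) (l 15849528)))) (b (b (l 3) (a (c (b (l 614346891015) (l 4606597279431088090070047247)) (l 4771001054412809153551047183)) (c (c (l 9432631624061084761127557135) (l 10409437657683157544828753935)) (l 11676382700761241844698717711)))) (b (a (c (l 580879323969862411229711) (l 15982808)) (a (c (c (l 3523401507296900141419337743) (l 585351218255856496990735)) (l 575689159586498499910159)) (b (c (c (b (a (l 295983182583) (l 425369220967)) (l 4780691093045931763434067983)) (b (l 8920052195515962445417125903) (l 4741998478096333079197505551))) (b (l 10554511776403024739364165647) (l 4596916707724670184643139599))) (c (l 16560704) (l 16257592))))) (a (l 586797846513761476497935)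 (c (l 16533360) (l 16355992))))))), by decide +kernel⟩

def k6_pp_113 : ∃ t, chk3 f_pp_113 t 15 30 1 = true :=
  ⟨(l 3), by decide +kernel⟩

def k7_pp_113 : ∃ t, chk3 f_pp_113 t 30 62 1 = true :=
  ⟨(l 3), by decide +kernel⟩

def k8_pp_113 : ∃ t, chk3 f_pp_113 t 60 63 1 = true :=
  ⟨(b (b (a (b (l 3) (c (c (b (a (l 367924181383) (l 3)) (a (l 280414192391) (l 6453848988638281142171065359))) (a (l 5399660605114929497584850959) (l 7101831848481142117688498191))) (c (a (l 291151099847) (l 8687934251891970416573306895)) (l 10051599984649729769011550223)))) (l 3)) (a (c (a (l 601443120156407250606095) (b (c (l 4287453194124778511094717455) (l 4925765944159184759746648079)) (l 16681040))) (c (l 3977958781652102621125941263) (l 584362876296032266360847))) (b (a (c (c (b (a (l 5515722251993046576372341775) (l 6560234266785325359465683983)) (l 602234888999696086473743)) (b (b (l 375977280327) (l 6366805890651164962533825551)) (l 602155337415878193372175))) (a (c (l 291151623319) (l 286319494247)) (c (l 5651119901677670009008216079)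 (l 5428668137693637667837274127)))) (b (l 3) (c (a (c (a (l 280951133783) (l 5254594028086435412949249295)) (l 5177222677056298475974798607)) (b (c (l 380272267623) (l 391546557511)) (c (l 5312622416411215941351107855) (l 312626527095)))) (c (b (l 6656947978551065546767985743) (l 5515721758398018273967320143)) (b (l 8156011720416261269006051343) (l 5525386522684342459237214223)))))) (c (a (l 16694528) (c (l 601717947181870197452047) (l 601634360380345344011535))) (c (l 601446145855314181318735) (l 593850120733443802834959)))))) (c (b (l 599975305246905658779727) (l 16644504)) (b (l 595643778734152839260175) (l 16644728)))), by decide +kernel⟩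

def k9_pp_113 : ∃ t, chk3 f_pp_113 t 61 126 1 = true :=
  ⟨(b (l 3) (a (b (a (a (b (l 3) (c (c (l 6801416661295751228148416783) (l 387788470967)) (c (l 395304664519) (l 435032998359)))) (l 3)) (l 3)) (a (c (a (b (c (a (l 272898081991) (l 5050892074493620230140559631)) (l 5002535041709013897553690895)) (l 16714352)) (b (b (c (l 6501603058031272958887330063) (l 6714374002283450030098350351)) (c (l 4973520822038339625741959439) (l 5128263326949012984738447631))) (l 143690604694716687))) (c (b (a (l 5079906294164353257112305871) (b (l 381882884359) (l 5215305985961265666842542351))) (l 16717880)) (a (l 5312020051530129992942944335) (b (b (l 387788454615) (l 5582819435124110668192120911)) (l 16721376))))) (a (b (b (l 3) (c (a (c (l 5882633038388600894663426319) (l 333564515255)) (c (l 371682350727) (l 385104129207))) (c (l 6791745254738816258978398479) (b (l 408726448935) (l 6859445100637221748858142927))))) (c (b (c (l 4847792536798450833330454735) (l 4983192228595288407544873231)) (l 16725520)) (c (l 4905820976139927057754734863)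 (a (l 16726128) (l 5428076930213458268642099407))))) (b (l 3) (c (b (c (c (l 6211460861323811297555202255) (l 6346860553120650383597732047)) (a (l 5640847874465692308324139215) (l 6791745254738849519214428367))) (c (l 4702721438444712649680535759) (l 4838121130241550292614185167))) (b (c (a (l 5737561940034861474069971215) (l 7023859012104857908441596111)) (c (l 379198553143) (l 382419778903))) (c (l 4925163789253801325450674383) (b (l 5099249107278315898068123855) (l 16731624))))))))) (b (l 3) (a (b (l 3) (b (l 3) (a (b (a (c (c (c (l 343228205655) (l 348596914903)) (l 6085732576083904638083383503)) (c (l 6269489300665327585444430031) (c (l 378661686935) (l 383493525399)))) (l 3)) (c (c (c (l 5244320205632115929262637263) (l 5283005831859784543889686735)) (c (l 5370048490872037981907714255) (l 5370048490872037844468842703))) (c (c (l 316921534135) (l 319605888903)) (c (l 322290246295) (l 324437731495))))) (a (c (c (l 6956159166206485747512033487) (l 7188272923572496404481835215)) (c (l 7439729494052374388473741519)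 (c (l 421611371255) (l 425906338807)))) (l 3))))) (l 3))))), by decide +kernel⟩

def k10_pp_113 : ∃ t, chk3 f_pp_113 t 122 254 1 = true :=
  ⟨(a (c (l 143431394767143183) (l 143416139043831887)) (c (b (l 143668889339494607) (l 16707352)) (c (l 143573987707371727) (l 143563611066679503)))), by decide +kernel⟩

def k11_pp_113 : ∃ t, chk3 f_pp_113 t 246 254 1 = true :=
  ⟨(b (b (c (b (a (c (l 143823439451111631) (l 143822683537096911)) (c (c (b (a (l 5437748336770480855194255567) (l 374366731447)) (l 5041220667936877675530535119)) (b (a (l 313700312023) (l 380272311591)) (l 5089577700721463392274710735))) (c (b (a (l 316384666711) (l 385641020855)) (l 5128263326949131663304376527)) (b (a (l 319069021415) (l 391546601047)) (l 5176620359733716761573277903))))) (c (l 143813200270377167) (l 143811688442085583))) (a (c (l 143798288141189327) (l 143794027528667343)) (b (a (c (c (l 310479085303) (l 313700310951)) (c (l 316384665719) (l 5486105369555052347007926479))) (c (b (c (l 396915310343) (l 403894632391)) (c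 (l 304036644439) (l 316921541671))) (b (c (l 410873954471) (l 416242663831)) (c (l 317458413927) (l 5631176467908830319245000911))))) (c (l 16741120) (l 143837939268026575))))) (c (l 143751971184935119) (a (l 16727008) (l 16738712)))) (c (l 16720024) (l 16720104))), by decide +kernel⟩

def k12_pp_113 : ∃ t, chk3 f_pp_113 t 494 508 1 = true :=
  ⟨(b (b (b (l 3) (a (c (c (c (l 6627331343271321524123222223) (l 6733716815397409784850677967)) (c (l 6830430880966580668583133391) (l 385104150631))) (c (c (l 7033530418661838576092528847) (l 7159258703901759597945290959)) (c (l 7284986989141680276200702159) (b (l 3) (l 7207615736686337549388054735))))) (l 3))) (c (c (c (a (l 4973520822038480431982887119) (b (a (l 5824604599047215311265530063) (l 379735448487)) (l 5021877854823091300058677455))) (a (l 5021877854823065873849123023) (b (a (l 5863290225274884063331696847) (l 385641028631)) (l 5060563481050759708527263951)))) (c (a (l 5070234887607650972118008015) (b (a (l 5921318664616386538595614927) (l 391009737879))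 (l 5108920513835344875515625679))) (a (l 5108920513835318762111353039) (b (a (l 5969675697400971705584009423) (l 396378447159)) (l 5157277546619929630187143375))))) (c (c (a (l 5157277546619903241904980175) (b (a (l 6027704136742473562372686031) (l 401747153815)) (l 5205634579404514109980770511))) (a (l 5205634579404487309381763279) (b (b (l 411947703175) (a (l 316384680135) (l 7207615736686363662793621711))) (c (l 5244320205632181487657238735) (l 5263663018746014935977345231))))) (b (a (c (l 5447419743327422627611050191) (c (l 5486105369555089592970707151) (l 5505448182668922766412923087))) (c (b (l 418390154327) (a (l 5756904753148789617850663119) (c (l 403894639559) (l 406578994231)))) (b (l 7662171844861463407849930959) (a (c (l 321753389591) (l 322827131527)) (c (l 409263348887) (l 411947703559)))))) (a (l 16742712) (c (c (l 5283005831859848246858580175) (l 5312020051530598591137284303)) (a (l 16745208) (c (l 5466762556441279303117504719) (l 5495776776112029441237893327))))))))) (c (c (l 16741016) (l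 16742400)) (c (l 16743824) (l 143845498413285583)))), by decide +kernel⟩

def k13_pp_113 : ∃ t, chk3 f_pp_113 t 495 508 1 = true :=
  ⟨(b (a (b (l 3) (b (l 3) (b (a (c (c (c (l 6172775235096249266866192591) (l 6221132267880834983610433743)) (c (l 6269489300665420356757160143) (l 6327517740006922488423792847))) (c (c (c (l 363629322359) (l 366313676999)) (c (l 368998031655) (l 372219254583))) (c (c (l 6511274464588343992675844303) (l 6801416661295854307408134351)) (c (b (l 407652738135) (l 6414560399019169535530172623)) (b (l 410337092807) (a (l 6056718356413233870976860367) (l 388862256279))))))) (l 3)) (c (a (c (c (l 270213784119) (l 275582493335)) (c (l 280414331735) (l 5166948953176868516380098767))) (c (c (l 344301970679) (l 346986325335)) (c (l 349670680023) (l 6250146487551594330142605519)))) (c (a (c (l 5263663018746038231881449679) (l 5350705677758290501668323535)) (c (c (l 355039389383) (l 356650002199)) (c (l 358260615015) (l 359334356935)))) (a (c (c (l 300815426919) (l 5476433962998210149131600079))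 (c (l 5524790995782794422766797007) (l 5582819435124295661080002767))) (c (c (l 360944969767) (l 6424231805576097770204840143)) (c (b (l 386177903255) (l 5940661477730242664347877583)) (b (l 387788514791) (a (l 313700329863) (l 369534906455))))))))))) (l 3)) (c (b (c (b (a (c (l 235854047543) (l 241222756759)) (c (b (l 6308174926893113229361725647) (l 4818778317127880877716324559)) (b (l 6356531959677698808666931407) (l 4915492382697051486570823887)))) (l 143937170209685711)) (b (a (c (l 246591466055) (l 143937445087920335)) (c (b (l 6414560399019201146491912399) (l 5012206448266221683108479183)) (b (l 6462917431803786038602383567) (l 5108920513835391604768243919)))) (l 143936139428462799))) (l 143907964437709007)) (b (c (c (b (a (l 143936551740244175) (b (a (l 6153432421982431486590877903) (l 391009745447)) (l 5205634579404561114111164623))) (l 143934490150486223)) (b (a (l 4741407064672510937987268815) (a (c (l 331953938471) (l 5863290225274913956311204047)) (b (l 394767841991) (l 5698876313807337788850847951))))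 (l 143932909602668751))) (c (b (c (a (l 292225489175) (b (l 6617659936714456099064086735) (l 5370048490872148414128767183))) (a (l 143933184486260943) (b (a (l 6269489300665433069864534223) (l 398525938615)) (a (l 16749576) (l 337859523847))))) (l 143930985468231887)) (a (c (l 4741407064672497056653050063) (l 4789764097457080986690814159)) (b (b (a (c (b (l 374903615703) (l 319069042135)) (b (l 376514227239) (l 5795590379376493897893593295))) (c (l 400136551463) (l 402284035223))) (a (l 143954075208876239) (c (l 5872961631831841503790842063) (b (l 365776810599) (l 311015980151))))) (l 16749848))))) (c (l 16744768) (l 16744912))))), by decide +kernel⟩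

def k14_pp_113 : ∃ t, chk3 f_pp_113 t 247 509 1 = true :=
  ⟨(c (l 143778634347872463) (l 143763584761217231)), by decide +kernel⟩

def k15_pp_113 : ∃ t, chk3 f_pp_113 t 61 255 1 = true :=
  ⟨(a (c (l 16681696) (l 16681608)) (c (l 143498671145730255) (l 143468297136767183))), by decide +kernel⟩

def k16_pp_113 : ∃ t, chk3 f_pp_113 t 31 62 1 = true :=
  ⟨(l 3), by decide +kernel⟩

def k17_pp_113 : ∃ t, chk3 f_pp_113 t 62 126 1 = true :=
  ⟨(l 3), by decide +kernel⟩

def k18_pp_113 : ∃ t, chk3 f_pp_113 t 124 1016 1 = true :=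
  ⟨(l 3), by decide +kernel⟩

def k19_pp_113 : ∃ t, chk3 f_pp_113 t 248 2034 1 = true :=
  ⟨(a (b (a (a (c (c (l 6772402441625152616527216847) (c (l 380272329335) (l 383493554951))) (c (c (l 386714780583) (l 389936006231)) (c (l 7081887451446495211351720143) (c (l 395841586615) (l 397452199463))))) (l 3)) (l 3)) (c (a (c (c (l 4973520822038574577682350287) (l 5050892074493910982302761167)) (c (b (l 5476433962998265124723900623) (l 268066310439)) (b (l 5573148028567435046383665359) (l 273435019671)))) (c (l 6656345562942173023491440847) (c (l 374366754103) (l 377587979719)))) (a (a (c (c (l 5176620359733821971108774095) (l 5273334425302990999415374031)) (c (c (l 294909855127) (l 5389391303985993201164140751)) (b (c (l 5727890533478093699409117391) (b (l 6056718356413274484196769999) (l 300278563495))) (l 16751240)))) (c (c (l 6124418202311709111145726159) (b (l 378661717815) (l 300815436567))) (c (b (l 6878787913751240190061428943) (l 5515119589225928104352792783)) (b (c (l 384567298183) (l 386177911015))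 (c (l 309942242311) (l 5631176467908929893784682703)))))) (a (c (c (l 376514236423) (l 6840102287523586212685332687)) (c (a (l 6849773694080497336207327439) (l 396915332263)) (c (l 385641042439) (l 6975501979320420831962169551)))) (l 3))))) (l 3)), by decide +kernel⟩

def k20_pp_113 : ∃ t, chk3 f_pp_113 t 248 2035 1 = true :=
  ⟨(b (a (c (c (c (l 4383565022066634372197875919) (l 4460936274521970570659692751)) (a (l 16750432) (c (l 5031549261380092720990453967) (l 5118591920392345334374662351)))) (a (c (l 143967819103404239) (c (l 16750680) (l 16750768))) (a (c (c (l 276656246983) (l 281488085351)) (c (l 5186291766290751374015791311) (c (l 290078020247) (l 5292677238416835855172157647)))) (c (c (l 337859530615) (l 5979347103957967835116044495)) (c (c (l 343228240023) (l 6047046949856384801157087439)) (b (c (l 368461173943) (l 6530617277702239632135815375)) (c (l 294909859847) (l 297057343639)))))))) (a (a (b (l 3) (c (c (l 334101438983) (c (l 338933277271) (l 341617631879))) (c (c (l 351818176727) (l 355039402359))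 (c (l 6317846333450074999151935695) (c (l 360408111799) (l 6385546179348491552876134607)))))) (l 3)) (l 3))) (c (a (c (l 16750272) (l 16750360)) (a (c (l 4799435504014100068526899407) (c (l 271287543959) (l 275582511463))) (c (l 6375874772791610391047307471) (c (l 358797503799) (l 362018726791))))) (a (c (l 16751800) (l 143960947166642383)) (a (c (c (l 5070234887607774529760428239) (l 5147606140063109216393822415)) (c (c (l 5215305985961527007068471503) (l 5253991612189194109867016399)) (b (a (l 144010219030085839) (c (l 352355049639) (l 6230803674437826302779834575))) (l 16755160)))) (c (c (l 6578974310486866511850455247) (a (l 6472588838360769180150710479) (l 388325406023))) (c (b (l 7139915890788056510499668175) (a (l 5785918972819652936971829455) (l 386177921703))) (a (b (l 7168930110458796890452787407) (c (l 324437766343) (l 5901975851502654451525746895))) (c (l 394230986391) (l 395841599239))))))))), by decide +kernel⟩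

def k21_pp_113 : ∃ t, chk3 f_pp_113 t 249 1017 1 = true :=
  ⟨(l 3), by decide +kernel⟩

def k22_pp_113 : ∃ t, chk3 f_pp_113 t 125 508 1 = true :=
  ⟨(l 3), by decide +kernel⟩

def k23_pp_113 : ∃ t, chk3 f_pp_113 t 248 1018 1 = true :=
  ⟨(a (c (l 143922189361643727) (c (l 16746200) (l 16746336))) (c (b (c (l 4103094231916062874941063375) (c (l 4209479704042149074084249807) (l 4277179549940567002197852367))) (l 16750816)) (b (c (a (l 16752792) (c (l 4693050031888015175057342671) (l 4760749877786432553415164111))) (b (a (l 16753816) (a (c (l 16756200) (l 16756288)) (c (l 5379719897429139595856249039) (c (l 299741706007) (l 5476433962998306837456519375))))) (l 16753712))) (l 16754392)))), by decide +kernel⟩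

def k24_pp_113 : ∃ t, chk3 f_pp_113 t 249 1018 1 = true :=
  ⟨(b (b (a (a (c (c (l 6240475080994786904329158863) (c (l 350744443079) (l 353965668679))) (c (c (l 6433903212133125510698336463) (b (l 382419828199) (l 5660190687579756447978520783))) (c (b (l 6946487759649730136200855759) (a (l 305110416343) (l 370608668167))) (c (a (l 6385546179348526805972025551) (l 384030441975)) (b (l 7033530418661980688000893135) (a (l 310479125655) (l 374366764791))))))) (l 3)) (l 3)) (a (c (a (c (l 250886455175) (l 4693050031888041700778246351)) (c (l 5843947412161202691245506767) (c (l 343228253127) (l 346449478727)))) (a (c (c (l 16760936) (l 269140066599)) (c (l 4944506602367878590523179215) (c (l 275582517831) (l 5031549261380128592567369935)))) (c (c (l 349133832135) (b (l 371682412775) (l 5437748336770678286291763407))) (a (c (b (l 362018734983) (l 16760400)) (b (c (l 364703089671) (l 366313702503)) (l 5253991612189241732472045775))) (c (l 6685359782612987002020233423) (b (l 3) (c (l 356650027367) (l 358260640199))))))))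 (a (a (c (c (l 381346092263) (l 388325414391)) (a (c (l 7110901671117351314925879503) (c (l 399599703383) (l 7265644176028019176364327119))) (l 3))) (l 3)) (l 3)))) (a (c (c (l 144041280237437135) (l 144039081225109711)) (c (a (l 16755752) (l 144052137923772623)) (c (l 144031659522113743) (l 144028567145824463)))) (a (c (c (l 4722064251558830871569776719) (c (l 320142803543) (l 4934835195811003544734236879))) (c (b (c (l 341080771127) (b (l 353965674039) (l 287393684775))) (l 16761080)) (c (b (a (l 5447419743327602878833328335) (l 6491931651474658841014698191)) (l 16761200)) (b (b (a (c (l 326048389175) (l 350207577847)) (l 7101230264560434693846778063)) (c (l 5331362864644599715013607631) (l 5370048490872266474214752463))) (l 16761280))))) (c (c (l 6201789454767167699015974991) (b (l 380809224375) (l 5108920513835532617163456591))) (c (b (c (l 386177935047) (l 389936031607)) (c (l 324437776695) (l 5292677238416952609586888911))) (b (c (l 7101230264560479773827055823) (c (l 396915353799) (l 7188272923572731012821844175)))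 (c (b (a (l 304573555191) (l 374903645111)) (l 278803752711)) (b (a (c (l 307257909879) (l 309942264455)) (c (l 377587999815) (l 379198612631))) (l 5108920513835519079425507535))))))))), by decide +kernel⟩

def k25_pp_113 : ∃ t, chk3 f_pp_113 t 125 1018 1 = true :=
  ⟨(b (l 3) (b (l 3) (a (a (a (c (c (l 366313713207) (l 373293034023)) (c (c (l 378124873783) (l 381882970327)) (a (c (l 379198614487) (c (l 381882969175) (l 383493581351))) (l 3)))) (l 3)) (l 3)) (l 3)))), by decide +kernel⟩

def k26_pp_113 : ∃ t, chk3 f_pp_113 t 62 1019 1 = true :=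
  ⟨(a (a (c (l 16742536) (l 143869137918673103)) (c (c (l 144018602827317327) (l 144014891975737423)) (a (l 16756104) (c (l 144041692578054223) (l 144035439095218383))))) (b (a (a (c (c (b (l 5872961631832005674649256015) (l 4257836736826842749145350223)) (b (a (l 4944506602367954456838914127) (l 365239972599)) (l 4383565022066762327889133647))) (c (c (b (a (l 278266885639) (l 370071812343)) (l 4431922054851345089696235599)) (b (a (l 5118591920392457072267313231) (l 373829908903)) (l 4489950494192845159778500687))) (b (a (a (c (l 16767288) (l 278803754183)) (c (l 339470165063) (c (l 342154521063) (l 5940661477730407110091227343)))) (b (l 3) (c (l 6607988530157703305249898575) (c (l 369534941015) (l 6695031189169953444733042767))))) (a (l 16763672) (c (l 5002535041709460574237786191) (c (l 278803759143) (l 5079906294164793405445374031))))))) (a (b (l 3) (c (c (l 350744461159) (l 357186911047)) (c (c (l 362018750775) (l 366313718231)) (c (l 6675688376056136763968176207) (b (l 7159258703901991113911337039)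 (a (l 308331660231) (l 382956717335))))))) (l 3))) (l 3)) (a (a (c (l 144090002356781135) (c (l 16762320) (l 16762464))) (c (c (b (l 4615678779432810780578447439) (l 16766824)) (b (a (l 252497086087) (l 349133849335)) (l 16772168))) (c (b (a (l 4741407064672713385606266959) (c (l 353965689047) (l 358260656503))) (l 144132264855748687)) (c (b (a (l 265918859207) (l 6530617277702389578062118991)) (l 270750694967)) (b (a (l 4896149569583379666496667727) (b (l 6956159166206741658899890255) (a (l 290614922103) (l 366850591879)))) (l 144125530347405391)))))) (b (l 3) (a (c (c (l 6385546179348684104880193615) (a (l 341080788775) (l 386177950583))) (a (c (c (l 345912627175) (l 350744465527)) (c (l 6385546179348641430083223631) (b (l 6762731035068408275213271119) (l 5302348644973925992968028239)))) (c (l 395304756391) (c (l 401210336663) (l 405505304119))))) (l 3)))))), by decide +kernel⟩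

def k27_pp_113 : ∃ t, chk3 f_pp_113 t 62 255 1 = true :=
  ⟨(c (a (b (l 143574125153812559) (l 16725016)) (b (b (a (l 143973385421258831) (a (c (l 3638866717184088290276393039) (c (l 3677552343411844522236641359) (l 3716237969639420777886957647))) (b (a (c (l 345375760791) (l 6356531959677944687000928335)) (c (l 375440536775) (l 382956729799))) (c (l 211158037655) (l 4054737199131638030525317199))))) (a (l 16752704) (l 16770080))) (l 143760286277451855))) (a (b (l 143554333944660047) (l 16724960)) (b (b (a (c (l 144055367735820367) (l 144048083450052687)) (a (b (c (a (l 16768408) (c (l 320679694183) (l 4712392845001993346625880143))) (a (l 144138449611718735) (b (c (l 340007049079) (a (l 289541185479) (l 359871274263))) (l 16770256)))) (l 16768824)) (b (b (a (c (l 387788565127) (c (l 393694145383) (l 397452241943))) (l 3)) (a (c (l 5050892074494105870780366927) (c (l 332490857799) (b (l 345912631655) (l 16772384)))) (c (l 380272373719) (c (l 385641083047) (l 7014187605548302683167064143))))) (a (c (l 16769960)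 (l 16770088)) (c (l 4489950494192912504879235151) (c (l 4567321746648245129928343631) (l 4606007372875910446020526159))))))) (a (l 16752840) (b (l 144011730857476175) (l 16761568)))) (l 143740288909869135)))), by decide +kernel⟩

def k28_pp_113 : ∃ t, chk3 f_pp_113 t 63 126 1 = true :=
  ⟨(l 3), by decide +kernel⟩

def k29_pp_113 : ∃ t, chk3 f_pp_113 t 63 254 1 = true :=
  ⟨(l 3), by decide +kernel⟩

def k30_pp_113 : ∃ t, chk3 f_pp_113 t 126 255 1 = true :=
  ⟨(a (b (a (b (b (l 3) (a (c (c (l 335712086967) (l 5341034271201602098028232783)) (c (b (l 372219311239) (l 258402678935)) (b (c (l 377588020567) (l 6869116507194506087956430927)) (c (l 264845129815) (l 266992613591))))) (b (l 3) (c (c (l 348060120807) (l 356650055607)) (c (l 364703119511) (c (l 369534957911) (l 6724045408840752717296517199))))))) (c (c (l 167671496151) (l 144069523980451919)) (c (l 144064988495183951) (c (l 144060727887773775) (l 144057429354348623))))) (b (l 3) (c (b (c (b (l 362555638535) (l 281488130151)) (b (l 6627331343271587056247046223)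 (l 4499621900749825002798809167))) (l 144091926535274575)) (b (c (b (a (l 356650056711) (l 403357830439)) (a (l 16774864) (l 348596993735))) (b (a (c (l 362018765991) (l 6578974310486998178405318735)) (l 7401043867824964434029723727)) (a (l 16777592) (c (l 353428832103) (b (l 373293056871) (l 282561874167)))))) (c (l 16778456) (l 16776256)))))) (b (c (l 143927893117878351) (l 143915729770758223)) (l 143938750780375119))) (b (b (l 3) (b (b (l 3) (a (a (a (c (l 379198638615) (c (l 391009798967) (l 399062862871))) (l 3)) (l 3)) (l 3))) (b (a (a (c (l 4915492382697272557182976079) (c (l 5041220667937172413436969039) (c (l 346449510759) (l 5118591920392525860487594063)))) (c (l 6907802133422199579040743503) (c (l 391546671319) (c (l 395304767847) (l 396915380695))))) (l 3)) (a (a (c (l 16775360) (l 144191913373515855)) (c (l 4799435504014270286715191375) (c (l 266455749367) (c (l 270750716615) (l 4944506602367993970562809935))))) (a (c (l 6820759474409942086574063695) (c (l 385641091495) (c (l 388862317095) (l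 7033530418662111461203640399)))) (l 3)))))) (b (c (b (a (l 16778856) (a (l 4248165330269968665443057743) (b (a (l 5360377084315466195240271951) (l 392083543175)) (l 144159890101452879)))) (a (l 16769912) (l 144079900617523279))) (b (a (c (l 16773712) (l 16768544)) (c (b (a (l 256792073127) (l 6840102287523768869105107023)) (l 144149101141885007)) (b (a (l 4780092690900401447865237583) (c (l 382419866167) (b (l 408726541879) (l 371145576135)))) (l 4228822517156117831095959631)))) (a (l 16770024) (l 144072135306117199)))) (c (l 143920746294116431) (l 143909270141665359))))), by decide +kernel⟩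

def k31_pp_113 : ∃ t, chk3 f_pp_113 t 127 255 1 = true :=
  ⟨(b (l 3) (a (b (b (b (l 3) (a (a (a (c (l 303499842247) (c (l 285246232871) (l 5283005831860118520626151503))) (c (l 386177962967) (c (l 392083543175) (l 7101230264560525815905009743)))) (l 3)) (l 3))) (a (a (c (l 144142847669125199) (c (l 16779184) (l 144134738771132495))) (c (c (l 3832294848322539596601802831) (b (l 4606007372875909827556393039) (l 16777280))) (c (b (l 6985173385877501349040242767) (l 16777320)) (b (c (l 7014187605548258702705836111) (b (l 389936059399) (l 268066363239))) (l 16777368))))) (b (a (a (c (l 410337155271) (c (l 414632122727) (l 415705859415))) (l 3)) (l 3)) (a (c (c (l 6743388221954557372156428367) (l 6801416661296061634126708815)) (c (l 6849773694080649481174614095) (b (l 7410715274381839823422226511) (l 265382007255)))) (a (b (l 3) (c (l 394767897223) (c (l 399062864615) (l 400673477431)))) (l 3)))))) (a (c (l 144045540853383247) (l 144037500685467727)) (c (b (a (l 144122712850743375) (b (c (l 367387474295) (l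 6666016969499207361079197775)) (l 16776592))) (l 16768376)) (b (a (c (l 16778688) (l 144115428581015631)) (b (a (c (l 16779496) (l 220821721959)) (c (l 6898130726865219598598438991) (a (l 6753059628511474955311300687) (l 7091558858003563496367865935)))) (l 144114878837030991))) (l 144035576553439311))))) (b (l 3) (b (b (b (l 3) (l 6)) (l 6)) (l 6))))), by decide +kernel⟩

theorem s32_pp_113 : ∃ t, chk3 f_pp_113 t 63 255 1 = true := ex3_a k30_pp_113 k31_pp_113

theorem s33_pp_113 : ∃ t, chk3 f_pp_113 t 63 127 1 = true := ex3_b k29_pp_113 s32_pp_113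

theorem s34_pp_113 : ∃ t, chk3 f_pp_113 t 63 63 1 = true := ex3_b k28_pp_113 s33_pp_113

theorem s35_pp_113 : ∃ t, chk3 f_pp_113 t 124 1018 1 = true := ex3_a k23_pp_113 k24_pp_113

theorem s36_pp_113 : ∃ t, chk3 f_pp_113 t 62 1018 1 = true := ex3_a s35_pp_113 k25_pp_113

theorem s37_pp_113 : ∃ t, chk3 f_pp_113 t 62 509 1 = true := ex3_b s36_pp_113 k26_pp_113

theorem s38_pp_113 : ∃ t, chk3 f_pp_113 t 248 1017 1 = true := ex3_b k19_pp_113 k20_pp_113

theorem s39_pp_113 : ∃ t, chk3 f_pp_113 t 124 1017 1 = true := ex3_a s38_pp_113 k21_pp_113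

theorem s40_pp_113 : ∃ t, chk3 f_pp_113 t 124 508 1 = true := ex3_b k18_pp_113 s39_pp_113

theorem s41_pp_113 : ∃ t, chk3 f_pp_113 t 62 508 1 = true := ex3_a s40_pp_113 k22_pp_113

theorem s42_pp_113 : ∃ t, chk3 f_pp_113 t 62 254 1 = true := ex3_b s41_pp_113 s37_pp_113

theorem s43_pp_113 : ∃ t, chk3 f_pp_113 t 62 127 1 = true := ex3_b s42_pp_113 k27_pp_113

theorem s44_pp_113 : ∃ t, chk3 f_pp_113 t 62 63 1 = true := ex3_b k17_pp_113 s43_pp_113

theorem s45_pp_113 : ∃ t, chk3 f_pp_113 t 31 63 1 = true := ex3_a s44_pp_113 s34_pp_113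

theorem s46_pp_113 : ∃ t, chk3 f_pp_113 t 31 31 1 = true := ex3_b k16_pp_113 s45_pp_113

theorem s47_pp_113 : ∃ t, chk3 f_pp_113 t 247 508 1 = true := ex3_a k12_pp_113 k13_pp_113

theorem s48_pp_113 : ∃ t, chk3 f_pp_113 t 247 254 1 = true := ex3_b s47_pp_113 k14_pp_113

theorem s49_pp_113 : ∃ t, chk3 f_pp_113 t 123 254 1 = true := ex3_a k11_pp_113 s48_pp_113

theorem s50_pp_113 : ∃ t, chk3 f_pp_113 t 61 254 1 = true := ex3_a k10_pp_113 s49_pp_113

theorem s51_pp_113 : ∃ t, chk3 f_pp_113 t 61 127 1 = true := ex3_b s50_pp_113 k15_pp_113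

theorem s52_pp_113 : ∃ t, chk3 f_pp_113 t 61 63 1 = true := ex3_b k9_pp_113 s51_pp_113

theorem s53_pp_113 : ∃ t, chk3 f_pp_113 t 30 63 1 = true := ex3_a k8_pp_113 s52_pp_113

theorem s54_pp_113 : ∃ t, chk3 f_pp_113 t 30 31 1 = true := ex3_b k7_pp_113 s53_pp_113

theorem s55_pp_113 : ∃ t, chk3 f_pp_113 t 15 31 1 = true := ex3_a s54_pp_113 s46_pp_113

theorem s56_pp_113 : ∃ t, chk3 f_pp_113 t 15 15 1 = true := ex3_b k6_pp_113 s55_pp_113

theorem s57_pp_113 : ∃ t, chk3 f_pp_113 t 7 15 1 = true := ex3_a k5_pp_113 s56_pp_113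

theorem s58_pp_113 : ∃ t, chk3 f_pp_113 t 7 7 1 = true := ex3_b k4_pp_113 s57_pp_113

theorem s59_pp_113 : ∃ t, chk3 f_pp_113 t 3 7 1 = true := ex3_a k3_pp_113 s58_pp_113

theorem s60_pp_113 : ∃ t, chk3 f_pp_113 t 3 3 1 = true := ex3_b k2_pp_113 s59_pp_113

theorem s61_pp_113 : ∃ t, chk3 f_pp_113 t 1 3 1 = true := ex3_a k1_pp_113 s60_pp_113

theorem s62_pp_113 : ∃ t, chk3 f_pp_113 t 1 1 1 = true := ex3_b k0_pp_113 s61_pp_113

theorem c_pp_113 : CertB 536870912 536870912 1610612736 536870912 991146299 28908434 3 eng mog cd0q1 cd2q3 pd1 false true true .nn 1 1 3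
    ndB0q1 ndB2q3 pcB1 cut_pp_113 xt_pp_113 :=
  certB1 (fam := false) (s1 := true) (s2 := true) (a := 1) (b := 1) (c := 3) (cn := .nn) (n1 := ndB0q1) (n2 := ndB2q3) (pc := pcB1) (cut := cut_pp_113) (xt := xt_pp_113) (P1 := 536870912) (W1 := 536870912) (P2 := 1610612736) (W2 := 536870912) (P3 := 991146299) (W3 := 28908434) (N0 := 3) (En := eng) (mo := mog) (C1 := cd0q1) (C2 := cd2q3) (C3 := pd1)
    rfl (fun _ => rfl) s62_pp_113

noncomputable def cut_pp_123 : Cut := Cut.of [[⟨0, 1, 0, 37748736⟩, ⟨1, 1, 0, 37748736⟩, ⟨2, 2, 0, 5242880⟩]]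

noncomputable def xt_pp_123 : Ext := extD3 3 ⟨4, 1, 1, 5, 22, 5, 21, 25, 41, 100, 1, 20⟩ eng cd0q1 cd2q3 pd2 false true true .npn 1 2 3 rfl ndB0q1 ndB2q3 pcB2

noncomputable def f_pp_123 : ℕ → ℕ → ℕ → ℕ → Bool := onCell 1073741824 536870912 1610612736 536870912 991146299 28908434
    (rowB 3 eng mog cd0q1 cd2q3 pd2 2 false true true .npn 1 2 3 (qsf 536870912 536870912 1610612736 536870912 2) ndB0q1 ndB2q3 pcB2 cut_pp_123 xt_pp_123)

def k0_pp_123 : ∃ t, chk3 f_pp_123 t 4 2 1 = true :=
  ⟨(b (a (b (a (b (l 15952920) (l 16044384)) (c (l 15996344) (l 16052224))) (a (c (l 16026456) (l 16087992)) (c (l 16019008) (l 16076032)))) (b (a (b (l 1) (l 16010976)) (l 1)) (a (b (l 16024904) (l 16038712)) (l 15907288)))) (a (b (a (b (l 15996320) (a (l 15919088) (l 15960912))) (c (l 16022192) (l 16062712))) (a (b (c (l 15849616) (l 15851216)) (a (l 15770120) (l 15829056))) (c (l 15896880) (l 15932816)))) (b (a (l 16057616) (l 16041424)) (a (c (l 15951976) (l 15978440)) (l 15991424))))), by decide +kernel⟩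

def k1_pp_123 : ∃ t, chk3 f_pp_123 t 4 3 1 = true :=
  ⟨(b (a (b (a (b (a (l 15748656) (l 15784880)) (a (l 15870360) (l 15762928))) (a (b (l 15820912) (l 15792192)) (l 15631488))) (a (b (a (c (l 15740632) (l 15714200)) (l 15769976)) (a (c (l 15810680) (l 15748744)) (l 15818376))) (b (a (l 15793280) (l 15820520)) (a (l 15836568) (l 15849528))))) (b (a (c (l 15874712) (l 15891448)) (l 15913440)) (a (b (l 15864584) (l 15907000)) (b (l 15894144) (l 15910760))))) (a (b (a (c (b (a (a (l 16142952) (l 15973384)) (l 15971288)) (a (a (l 590843875549323361951759) (l 16294712)) (l 16229072))) (b (a (a (l 15848424) (l 15870736)) (l 15896072)) (a (a (b (l 16040080) (l 16262032)) (l 16116240)) (l 16099024)))) (a (b (l 15937976) (l 16127648)) (b (l 15932464) (l 16093568)))) (a (b (a (b (c (l 595995996021332280909839) (l 593481762294373727281167)) (a (a (b (l 142672800423034895) (l 143326460087501007)) (c (l 16634256) (l 16674944))) (b (l 16640896) (l 142873873615896591)))) (c (l 590792284157385515458575) (l 590977039954942398260751)))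 (a (b (a (a (a (b (l 143568283974582351) (l 143593366624403535)) (l 143239873568505935)) (l 143153836773507151)) (b (l 142997156402053199) (l 143228534881648719))) (b (a (a (c (l 143806809343475791) (l 143775335837483087)) (l 143598039571857487)) (l 143234650912800847)) (b (a (a (a (c (l 143951120288825423) (l 143980257332904015)) (l 143816017778344015)) (l 143796845039534159)) (l 143413940053147727)) (l 6)))) (b (a (l 142073978883145743) (l 16621816)) (a (a (l 142918884861444175) (l 142856487549747279)) (b (l 16694208) (l 16692672)))))) (b (a (a (l 16485912) (l 16432112)) (l 16369216)) (a (b (l 16592720) (a (a (l 16658568) (l 16661656)) (l 16612272))) (b (l 16534840) (l 16574080)))))) (b (a (b (l 15948536) (a (l 16072608) (l 16070000))) (b (l 15961640) (l 16060480))) (a (b (a (l 16303824) (l 16267712)) (a (b (l 16450864) (l 16487992)) (l 16308936))) (b (l 16227368) (a (l 16376720) (l 16336080))))))), by decide +kernel⟩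

def k2_pp_123 : ∃ t, chk3 f_pp_123 t 5 1 1 = true :=
  ⟨(b (b (a (b (l 1) (a (l 15988720) (l 1))) (l 1)) (a (b (a (l 16020040) (l 15994544)) (a (l 15997728) (l 15988104))) (b (a (l 15965832) (l 1)) (a (l 15965496) (l 15932272))))) (b (a (b (a (l 15920232) (l 15908456)) (a (l 15900304) (l 15880952))) (b (a (l 15881888) (l 15843528)) (a (l 15845528) (l 15797656)))) (b (a (a (l 15983992) (l 15944088)) (a (l 15889104) (l 15822648))) (a (b (a (l 16165400) (l 16091664)) (a (l 16271352) (l 16177856))) (b (l 15859176) (a (l 16078280) (l 15974208))))))), by decide +kernel⟩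

def k3_pp_123 : ∃ t, chk3 f_pp_123 t 3 1 1 = true :=
  ⟨(b (a (b (l 1) (a (b (l 1) (a (l 15890296) (l 1))) (l 1))) (l 1)) (b (a (a (b (a (l 15795744) (l 15740360)) (a (l 15740072) (l 15675024))) (b (a (l 15678928) (l 1)) (a (l 15604360) (l 15529464)))) (a (b (l 1) (a (l 15451664) (l 1))) (l 1))) (a (b (a (a (l 15747672) (l 15666560)) (l 15496456)) (a (b (l 15769944) (a (l 15867056) (l 15758152))) (b (l 15564768) (l 15595280)))) (b (a (a (l 15403336) (l 15313464)) (a (l 15224424) (l 1))) (a (b (l 15359472) (l 15379928)) (b (l 15162760) (l 15176192))))))), by decide +kernel⟩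

theorem s4_pp_123 : ∃ t, chk3 f_pp_123 t 4 1 1 = true := ex3_b k0_pp_123 k1_pp_123

theorem s5_pp_123 : ∃ t, chk3 f_pp_123 t 2 1 1 = true := ex3_a s4_pp_123 k2_pp_123

theorem s6_pp_123 : ∃ t, chk3 f_pp_123 t 1 1 1 = true := ex3_a s5_pp_123 k3_pp_123

theorem c_pp_123 : CertB 536870912 536870912 1610612736 536870912 991146299 28908434 3 eng mog cd0q1 cd2q3 pd2 false true true .npn 1 2 3
    ndB0q1 ndB2q3 pcB2 cut_pp_123 xt_pp_123 :=
  certB2 (fam := false) (s1 := true) (s2 := true) (a := 1) (b := 2) (c := 3) (cn := .npn) (n1 := ndB0q1) (n2 := ndB2q3) (pc := pcB2) (cut := cut_pp_123) (xt := xt_pp_123) (P1 := 536870912) (W1 := 536870912) (P2 := 1610612736) (W2 := 536870912) (P3 := 991146299) (W3 := 28908434) (N0 := 3) (En := eng) (mo := mog) (C1 := cd0q1) (C2 := cd2q3) (C3 := pd2)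
    rfl (fun _ => rfl) s6_pp_123

noncomputable def f_pp_133 : ℕ → ℕ → ℕ → ℕ → Bool := onCell 536870912 536870912 1610612736 536870912 991146299 28908434
    (rowB 3 eng mog cd0q1 cd2q3 pd3 0 false true true .dn 1 3 3 (qsf 536870912 536870912 1610612736 536870912 3) ndB0q1 ndB2q3 pcB3 Cut.none Ext.none)

def k0_pp_133 : ∃ t, chk3 f_pp_133 t 1 1 1 = true :=
  ⟨(a (b (l 1) (a (b (l 1) (b (l 1) (a (l 430601918935) (l 1)))) (l 1))) (l 1)), by decide +kernel⟩

theorem c_pp_133 : CertB 536870912 536870912 1610612736 536870912 991146299 28908434 3 eng mog cd0q1 cd2q3 pd3 false true true .dn 1 3 3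
    ndB0q1 ndB2q3 pcB3 Cut.none Ext.none :=
  certB0 (fam := false) (s1 := true) (s2 := true) (a := 1) (b := 3) (c := 3) (cn := .dn) (n1 := ndB0q1) (n2 := ndB2q3) (pc := pcB3) (cut := Cut.none) (xt := Ext.none) (P1 := 536870912) (W1 := 536870912) (P2 := 1610612736) (W2 := 536870912) (P3 := 991146299) (W3 := 28908434) (N0 := 3) (En := eng) (mo := mog) (C1 := cd0q1) (C2 := cd2q3) (C3 := pd3)
    rfl k0_pp_133

noncomputable def f_pp_202_a : ℕ → ℕ → ℕ → ℕ → Bool := onCell 0 536870912 0 536870912 991146299 28908434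
    (rowB 3 eng mog cd0q2 cd2q2a pd0 0 false true true .pp 2 0 2 (qsf 0 536870912 0 536870912 0) ndB0q2 ndB2q2a pcB0 Cut.none Ext.none)

def k0_pp_202_a : ∃ t, chk3 f_pp_202_a t 1 1 1 = true :=
  ⟨(l 3), by decide +kernel⟩

theorem c_pp_202_a : CertB 0 536870912 0 536870912 991146299 28908434 3 eng mog cd0q2 cd2q2a pd0 false true true .pp 2 0 2
    ndB0q2 ndB2q2a pcB0 Cut.none Ext.none :=
  certB0 (fam := false) (s1 := true) (s2 := true) (a := 2) (b := 0) (c := 2) (cn := .pp) (n1 := ndB0q2) (n2 := ndB2q2a) (pc := pcB0) (cut := Cut.none) (xt := Ext.none) (P1 := 0) (W1 := 536870912) (P2 := 0) (W2 := 536870912) (P3 := 991146299) (W3 := 28908434) (N0 := 3) (En := eng) (mo := mog) (C1 := cd0q2) (C2 := cd2q2a) (C3 := pd0)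
    rfl k0_pp_202_a

noncomputable def f_pp_202_b : ℕ → ℕ → ℕ → ℕ → Bool := onCell 0 536870912 1239849684 370763052 991146299 28908434
    (rowB 3 eng mog cd0q2 cd2q2b pd0 0 false true true .pp 2 0 2 (qsf 0 536870912 1239849684 370763052 0) ndB0q2 ndB2q2b pcB0 Cut.none Ext.none)

def k0_pp_202_b : ∃ t, chk3 f_pp_202_b t 1 1 1 = true :=
  ⟨(l 3), by decide +kernel⟩

theorem c_pp_202_b : CertB 0 536870912 1239849684 370763052 991146299 28908434 3 eng mog cd0q2 cd2q2b pd0 false true true .pp 2 0 2
    ndB0q2 ndB2q2b pcB0 Cut.none Ext.none :=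
  certB0 (fam := false) (s1 := true) (s2 := true) (a := 2) (b := 0) (c := 2) (cn := .pp) (n1 := ndB0q2) (n2 := ndB2q2b) (pc := pcB0) (cut := Cut.none) (xt := Ext.none) (P1 := 0) (W1 := 536870912) (P2 := 1239849684) (W2 := 370763052) (P3 := 991146299) (W3 := 28908434) (N0 := 3) (En := eng) (mo := mog) (C1 := cd0q2) (C2 := cd2q2b) (C3 := pd0)
    rfl k0_pp_202_b

noncomputable def f_pp_203 : ℕ → ℕ → ℕ → ℕ → Bool := onCell 0 536870912 0 536870912 991146299 28908434
    (rowB 3 eng mog cd0q2 cd2q3 pd0 1 false true true .up 2 0 3 (qsf 0 536870912 1610612736 536870912 0) ndB0q2 ndB2q3 pcB0 Cut.none Ext.none)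

def k0_pp_203 : ∃ t, chk3 f_pp_203 t 1 1 1 = true :=
  ⟨(l 3), by decide +kernel⟩

theorem c_pp_203 : CertB 0 536870912 1610612736 536870912 991146299 28908434 3 eng mog cd0q2 cd2q3 pd0 false true true .up 2 0 3
    ndB0q2 ndB2q3 pcB0 Cut.none Ext.none :=
  certB1 (fam := false) (s1 := true) (s2 := true) (a := 2) (b := 0) (c := 3) (cn := .up) (n1 := ndB0q2) (n2 := ndB2q3) (pc := pcB0) (cut := Cut.none) (xt := Ext.none) (P1 := 0) (W1 := 536870912) (P2 := 1610612736) (W2 := 536870912) (P3 := 991146299) (W3 := 28908434) (N0 := 3) (En := eng) (mo := mog) (C1 := cd0q2) (C2 := cd2q3) (C3 := pd0)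
    rfl (fun _ => rfl) k0_pp_203

noncomputable def cut_pp_213 : Cut := Cut.of [[⟨0, 1, 0, 37748736⟩, ⟨1, 1, 0, 37748736⟩, ⟨2, 2, 0, 5242880⟩]]

noncomputable def f_pp_213 : ℕ → ℕ → ℕ → ℕ → Bool := onCell 0 536870912 1610612736 536870912 991146299 28908434
    (rowB 3 eng mog cd0q2 cd2q3 pd1 0 false true true .pnn 2 1 3 (qsf 0 536870912 1610612736 536870912 1) ndB0q2 ndB2q3 pcB1 cut_pp_213 Ext.none)

def k0_pp_213 : ∃ t, chk3 f_pp_213 t 1 1 1 = true :=
  ⟨(b (l 3) (a (l 3) (b (l 3) (a (l 3) (b (l 3) (a (l 3) (b (l 3) (a (l 3) (b (l 3) (b (l 3) (b (l 3) (l 6)))))))))))), by decide +kernel⟩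

theorem c_pp_213 : CertB 0 536870912 1610612736 536870912 991146299 28908434 3 eng mog cd0q2 cd2q3 pd1 false true true .pnn 2 1 3
    ndB0q2 ndB2q3 pcB1 cut_pp_213 Ext.none :=
  certB0 (fam := false) (s1 := true) (s2 := true) (a := 2) (b := 1) (c := 3) (cn := .pnn) (n1 := ndB0q2) (n2 := ndB2q3) (pc := pcB1) (cut := cut_pp_213) (xt := Ext.none) (P1 := 0) (W1 := 536870912) (P2 := 1610612736) (W2 := 536870912) (P3 := 991146299) (W3 := 28908434) (N0 := 3) (En := eng) (mo := mog) (C1 := cd0q2) (C2 := cd2q3) (C3 := pd1)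
    rfl k0_pp_213

noncomputable def f_pm_001 : ℕ → ℕ → ℕ → ℕ → Bool := onCell 0 536870912 536870912 536870912 991146299 28908434
    (rowB 3 eng mog cd0q0 cd2q1 pd0 0 false true false .up 0 0 1 (qsf 0 536870912 536870912 536870912 0) ndB0q0 ndB2q1 pcB0 Cut.none Ext.none)

def k0_pm_001 : ∃ t, chk3 f_pm_001 t 1 1 1 = true :=
  ⟨(l 4), by decide +kernel⟩

theorem c_pm_001 : CertB 0 536870912 536870912 536870912 991146299 28908434 3 eng mog cd0q0 cd2q1 pd0 false true false .up 0 0 1
    ndB0q0 ndB2q1 pcB0 Cut.none Ext.none :=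
  certB0 (fam := false) (s1 := true) (s2 := false) (a := 0) (b := 0) (c := 1) (cn := .up) (n1 := ndB0q0) (n2 := ndB2q1) (pc := pcB0) (cut := Cut.none) (xt := Ext.none) (P1 := 0) (W1 := 536870912) (P2 := 536870912) (W2 := 536870912) (P3 := 991146299) (W3 := 28908434) (N0 := 3) (En := eng) (mo := mog) (C1 := cd0q0) (C2 := cd2q1) (C3 := pd0)
    rfl k0_pm_001

noncomputable def f_pm_011 : ℕ → ℕ → ℕ → ℕ → Bool := onCell 0 536870912 536870912 536870912 991146299 28908434
    (rowB 3 eng mog cd0q0 cd2q1 pd1 0 false true false .pnn 0 1 1 (qsf 0 536870912 536870912 536870912 1) ndB0q0 ndB2q1 pcB1 Cut.none Ext.none)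

def k0_pm_011 : ∃ t, chk3 f_pm_011 t 1 1 1 = true :=
  ⟨(l 4), by decide +kernel⟩

theorem c_pm_011 : CertB 0 536870912 536870912 536870912 991146299 28908434 3 eng mog cd0q0 cd2q1 pd1 false true false .pnn 0 1 1
    ndB0q0 ndB2q1 pcB1 Cut.none Ext.none :=
  certB0 (fam := false) (s1 := true) (s2 := false) (a := 0) (b := 1) (c := 1) (cn := .pnn) (n1 := ndB0q0) (n2 := ndB2q1) (pc := pcB1) (cut := Cut.none) (xt := Ext.none) (P1 := 0) (W1 := 536870912) (P2 := 536870912) (W2 := 536870912) (P3 := 991146299) (W3 := 28908434) (N0 := 3) (En := eng) (mo := mog) (C1 := cd0q0) (C2 := cd2q1) (C3 := pd1)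
    rfl k0_pm_011

noncomputable def cut_pm_012_a : Cut := Cut.of [[⟨0, 0, 0, 53687091⟩, ⟨1, 1, 0, 53687091⟩, ⟨2, 1, 0, 53687091⟩]]

noncomputable def xt_pm_012_a : Ext := extD3 3 ⟨4, 1, 1, 5, 22, 5, 21, 25, 41, 100, 1, 20⟩ eng cd0q0 cd2q2a pd1 false true false .pnp 0 1 2 rfl ndB0q0 ndB2q2a pcB1

noncomputable def f_pm_012_a : ℕ → ℕ → ℕ → ℕ → Bool := onCell 536870912 536870912 0 536870912 991146299 28908434
    (rowB 3 eng mog cd0q0 cd2q2a pd1 2 false true false .pnp 0 1 2 (qsf 0 536870912 0 536870912 1) ndB0q0 ndB2q2a pcB1 cut_pm_012_a xt_pm_012_a)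

def k0_pm_012_a : ∃ t, chk3 f_pm_012_a t 2 1 1 = true :=
  ⟨(b (a (a (l 2) (b (l 2) (a (l 2) (b (l 2) (l 15849648))))) (a (b (a (a (l 2) (b (l 15766912) (l 15771568))) (b (a (l 15778416) (l 15800704)) (l 15818184))) (a (b (l 15819288) (l 15899120)) (b (l 15871912) (l 15941960)))) (b (a (c (l 15895728) (l 15825080)) (b (l 15906072) (l 15923928))) (a (b (l 15917816) (l 15978296)) (b (l 15957112) (l 16008328)))))) (a (b (a (l 2) (b (a (l 2) (l 15872928)) (a (b (l 16009040) (l 16081792)) (b (l 16049480) (l 16118648))))) (a (b (a (l 2) (b (l 16120280) (l 16122344))) (c (a (b (l 16240448) (l 16092376)) (b (l 16281008) (l 16132232))) (b (a (l 16269848) (l 16311672)) (a (a (l 16088032) (l 16116856)) (b (l 16252096) (l 16155200)))))) (b (a (b (l 16159896) (l 16159600)) (b (l 16193896) (l 16275592))) (b (a (l 16164488) (l 16280032)) (a (a (l 16106960) (l 16119464)) (a (l 16153984) (l 16168560))))))) (b (a (b (a (l 15997160) (l 16031240)) (a (b (l 16083832) (l 16149776)) (l 16039144))) (b (a (l 16059312) (l 16081608))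 (a (l 16060992) (b (l 16153288) (l 16211936))))) (a (b (a (b (l 16222568) (l 16302872)) (b (l 16246280) (l 16325640))) (a (b (l 16307344) (a (l 16205088) (l 16242552))) (b (l 16330576) (a (l 16259928) (l 16299120))))) (b (a (c (l 16229992) (l 16317192)) (c (l 16242968) (l 16333736))) (a (b (l 16371032) (a (l 16318120) (l 16337848))) (b (l 16366192) (a (l 16358224) (l 16358232))))))))), by decide +kernel⟩

def k1_pm_012_a : ∃ t, chk3 f_pm_012_a t 6 1 1 = true :=
  ⟨(b (a (b (a (b (l 15959816) (l 15966760)) (a (l 15974856) (l 15994000))) (a (b (l 15989856) (l 16032208)) (b (l 16016168) (l 16050128)))) (b (a (c (l 16030768) (l 16029536)) (c (l 16075208) (l 16062776))) (a (b (l 16015192) (l 16062304)) (b (l 16029024) (l 16068968))))) (b (a (b (a (l 16098376) (l 16109888)) (a (b (l 16166192) (l 16223304)) (b (l 16174512) (l 16230584)))) (b (a (l 16032568) (c (l 16115176) (l 16121912))) (a (b (l 16178600) (l 16234192)) (b (l 16178832) (l 16234528))))) (a (b (a (a (l 16202072) (l 16164792)) (b (l 16277096) (l 16273760)))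 (a (b (l 16316520) (a (l 16379736) (l 16380728))) (b (b (l 16427224) (l 16458104)) (c (l 16439032) (l 16367352))))) (b (a (b (l 16260264) (c (l 16368416) (l 16401224))) (b (a (l 16303368) (l 16303552)) (b (l 16365064) (l 16369680)))) (a (b (b (c (l 16437472) (l 16475664)) (l 16426104)) (a (l 16406704) (b (l 16550448) (l 16496000)))) (b (b (l 16399872) (b (l 16462224) (l 16470320))) (a (a (l 16489096) (l 16479752)) (a (l 16489328) (l 16482376))))))))), by decide +kernel⟩

def k2_pm_012_a : ∃ t, chk3 f_pm_012_a t 7 2 1 = true :=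
  ⟨(a (b (a (b (l 16107320) (l 16071664)) (b (l 16127120) (l 16081528))) (a (b (l 16036832) (l 16070352)) (b (l 16038736) (b (l 16039544) (l 16051240))))) (b (a (b (l 16139904) (l 16084856)) (b (l 16145448) (a (l 16082968) (l 16079576)))) (a (b (b (l 16038120) (l 16030856)) (a (l 16039584) (l 16034176))) (b (a (l 16049032) (l 16021832)) (b (a (l 16043584) (l 16036360)) (a (l 16052992) (l 16045656))))))), by decide +kernel⟩

def k3_pm_012_a : ∃ t, chk3 f_pm_012_a t 7 6 1 = true :=
  ⟨(a (b (a (a (l 16116736) (l 16114520)) (a (l 16111328) (l 16107216))) (a (b (l 16175616) (a (l 16232720) (l 16230864))) (b (a (l 16171000) (l 16167008)) (a (l 16228464) (l 16225584))))) (a (b (a (a (l 16103448) (l 16100600)) (c (l 16076656) (l 16095376))) (b (a (l 16162832) (l 16137424)) (a (l 16222720) (l 16220192)))) (b (a (c (l 16072352) (l 16087808)) (b (l 16066704) (l 16079896))) (a (b (l 16133160) (l 16226968)) (b (l 16128808) (a (l 16215416) (l 16214512))))))), by decide +kernel⟩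

def k4_pm_012_a : ∃ t, chk3 f_pm_012_a t 7 7 1 = true :=
  ⟨(a (b (a (b (a (l 16303240) (l 16302512)) (a (l 16369232) (l 16349288))) (b (a (l 16301408) (l 16300632)) (a (l 16308848) (b (l 16368352) (l 16420544))))) (a (b (a (b (l 16466976) (l 16504224)) (b (l 16470232) (l 16509168))) (a (b (l 16547240) (l 16566112)) (b (l 16533328) (l 16567064)))) (b (a (c (l 16431672) (l 16452664)) (b (l 16478328) (l 16500104))) (a (b (l 16541024) (c (l 16591120) (l 16593768))) (b (l 141859367748173887) (b (l 16606096) (c (l 16674872) (l 16630664)))))))) (b (a (b (a (l 16237048) (c (l 16299128) (l 16300576))) (a (b (l 16369936) (l 16423656)) (b (l 140706804277477503) (l 141063183597961343)))) (b (a (b (l 16255176) (l 16322424)) (b (c (l 16280648) (l 16272592)) (c (l 16307488) (l 16321288)))) (a (b (l 140547100220162175) (c (l 16432536) (l 16432576))) (a (b (l 16377968) (l 16448848)) (b (l 16381184) (c (l 16444704) (l 16438848))))))) (a (b (a (b (a (l 16481816) (l 16484120)) (l 141733267465044031)) (a (b (l 16487096) (l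 16513368)) (b (l 16490696) (l 142180012808519935)))) (b (a (c (l 142318757499453567) (l 142187159690182719)) (b (l 142458258079842431) (c (l 142630331719909631) (l 16618544)))) (a (a (a (l 16613640) (l 16627816)) (b (l 16643680) (l 16663936))) (a (b (l 16650864) (c (l 16700880) (l 16685776))) (l 6))))) (b (a (b (c (l 141838545597530239) (l 141764809602646143)) (a (l 142026837106081919) (c (l 142486226815500415) (l 142309549045891199)))) (b (a (c (l 16505152) (l 16503320)) (l 6)) (l 6))) (a (b (a (b (l 16602712) (l 6)) (l 6)) (l 6)) (l 6)))))), by decide +kernel⟩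

theorem s5_pm_012_a : ∃ t, chk3 f_pm_012_a t 7 3 1 = true := ex3_b k3_pm_012_a k4_pm_012_a

theorem s6_pm_012_a : ∃ t, chk3 f_pm_012_a t 7 1 1 = true := ex3_b k2_pm_012_a s5_pm_012_a

theorem s7_pm_012_a : ∃ t, chk3 f_pm_012_a t 3 1 1 = true := ex3_a k1_pm_012_a s6_pm_012_a

theorem s8_pm_012_a : ∃ t, chk3 f_pm_012_a t 1 1 1 = true := ex3_a k0_pm_012_a s7_pm_012_a

theorem c_pm_012_a : CertB 0 536870912 0 536870912 991146299 28908434 3 eng mog cd0q0 cd2q2a pd1 false true false .pnp 0 1 2
    ndB0q0 ndB2q2a pcB1 cut_pm_012_a xt_pm_012_a :=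
  certB2 (fam := false) (s1 := true) (s2 := false) (a := 0) (b := 1) (c := 2) (cn := .pnp) (n1 := ndB0q0) (n2 := ndB2q2a) (pc := pcB1) (cut := cut_pm_012_a) (xt := xt_pm_012_a) (P1 := 0) (W1 := 536870912) (P2 := 0) (W2 := 536870912) (P3 := 991146299) (W3 := 28908434) (N0 := 3) (En := eng) (mo := mog) (C1 := cd0q0) (C2 := cd2q2a) (C3 := pd1)
    rfl (fun _ => rfl) s8_pm_012_a

noncomputable def cut_pm_012_b : Cut := Cut.of [[⟨0, 0, 0, 53687091⟩, ⟨1, 1, 0, 53687091⟩, ⟨2, 1, 0, 53687091⟩]]

noncomputable def f_pm_012_b : ℕ → ℕ → ℕ → ℕ → Bool := onCell 0 536870912 536870912 536870912 991146299 28908434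
    (rowB 3 eng mog cd0q0 cd2q2b pd1 1 false true false .pnp 0 1 2 (qsf 0 536870912 1239849684 370763052 1) ndB0q0 ndB2q2b pcB1 cut_pm_012_b Ext.none)

def k0_pm_012_b : ∃ t, chk3 f_pm_012_b t 1 1 1 = true :=
  ⟨(a (b (l 1) (a (l 1) (b (l 1) (a (b (l 1) (b (a (l 1) (l 325912852823)) (a (b (l 1) (l 323765422647)) (c (l 331818172423) (l 16014552))))) (b (a (b (l 1) (l 329134068103)) (b (l 334502750599) (l 291552859751))) (b (a (l 296921551559) (l 16031672)) (a (b (l 16064200) (l 15990232)) (l 15899344)))))))) (b (a (l 1) (b (l 1) (a (b (l 1) (a (b (l 1) (l 15992560)) (b (l 15924384) (l 15897008)))) (b (a (b (l 1) (l 15872280)) (b (l 264709020711) (l 15795840))) (a (b (l 15831128) (l 15811768)) (c (l 15789592) (l 15706880))))))) (a (b (a (b (l 1) (a (b (l 1) (l 336113331111)) (b (l 335576406871) (l 16093528)))) (b (a (c (l 334502578263) (l 348461146903)) (b (l 16118632) (l 16008888))) (a (b (l 16054656) (l 15989256)) (b (l 15957632) (l 15900976))))) (a (b (a (b (l 285110416807) (l 16026424)) (b (l 16012224)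 (l 15921560))) (a (b (l 15915936) (l 15792480)) (b (l 15820224) (l 15706656)))) (b (a (b (l 15916520) (l 15835256)) (l 15803376)) (a (l 15693880) (l 15642672))))) (b (a (b (a (b (l 15956304) (l 15917440)) (b (l 15868776) (l 15838848))) (a (l 15852296) (l 15788848))) (b (a (l 15782792) (l 15733064)) (a (l 15739128) (l 15679000)))) (a (b (a (l 15746792) (l 15706616)) (a (l 15610488) (l 15596776))) (b (a (l 15682208) (l 15668840)) (a (l 15600928) (l 15621976)))))))), by decide +kernel⟩

theorem c_pm_012_b : CertB 0 536870912 1239849684 370763052 991146299 28908434 3 eng mog cd0q0 cd2q2b pd1 false true false .pnp 0 1 2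
    ndB0q0 ndB2q2b pcB1 cut_pm_012_b Ext.none :=
  certB1 (fam := false) (s1 := true) (s2 := false) (a := 0) (b := 1) (c := 2) (cn := .pnp) (n1 := ndB0q0) (n2 := ndB2q2b) (pc := pcB1) (cut := cut_pm_012_b) (xt := Ext.none) (P1 := 0) (W1 := 536870912) (P2 := 1239849684) (W2 := 370763052) (P3 := 991146299) (W3 := 28908434) (N0 := 3) (En := eng) (mo := mog) (C1 := cd0q0) (C2 := cd2q2b) (C3 := pd1)
    rfl (fun _ => rfl) k0_pm_012_b

noncomputable def cut_pm_022_a : Cut := Cut.of [[⟨0, 0, 0, 53687091⟩, ⟨1, 1, 0, 53687091⟩, ⟨2, 1, 0, 53687091⟩]]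

noncomputable def f_pm_022_a : ℕ → ℕ → ℕ → ℕ → Bool := onCell 1073741824 536870912 0 536870912 991146299 28908434
    (rowB 3 eng mog cd0q0 cd2q2a pd2 2 false true false .pp 0 2 2 (qsf 0 536870912 0 536870912 2) ndB0q0 ndB2q2a pcB2 cut_pm_022_a Ext.none)

def k0_pm_022_a : ∃ t, chk3 f_pm_022_a t 4 2 1 = true :=
  ⟨(a (b (a (c (a (b (l 16399128) (l 16282392)) (l 16168448)) (b (l 16318032) (l 16226128))) (c (b (l 16320376) (l 16236520)) (c (l 16236968) (l 16266120)))) (a (c (b (a (l 16257376) (l 16261944)) (a (l 16225680) (l 16245600))) (b (a (l 16340376) (l 16319224)) (a (l 16301520) (l 16320368)))) (c (b (a (l 16277280) (l 16302624)) (a (l 16275368) (l 16296032))) (b (a (l 16354008) (l 16359992)) (a (l 16331192) (l 16336120)))))) (a (b (a (a (l 16213384) (l 16240312)) (a (l 16270336) (l 16282696))) (a (b (c (l 16339872) (l 16381128)) (c (l 16306336) (l 16354752))) (b (c (l 16386880) (l 16415080)) (c (l 16428800) (l 16446368))))) (a (b (c (l 16435576) (l 16446352)) (b (c (l 16439616) (l 16457416)) (c (l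 16491704) (l 16501752)))) (b (c (l 16466936) (l 16449976)) (b (c (l 16481800) (l 16473296)) (c (l 16387584) (l 16404256))))))), by decide +kernel⟩

def k1_pm_022_a : ∃ t, chk3 f_pm_022_a t 8 3 1 = true :=
  ⟨(b (a (b (a (c (b (l 16228320) (l 16246120)) (b (l 16304640) (l 16309200))) (c (b (l 16259672) (l 16287320)) (b (l 16316768) (l 16333280)))) (a (c (b (l 16165400) (a (l 16319312) (l 16346296))) (b (l 16310336) (a (l 16361760) (l 16381488)))) (b (c (l 16246712) (l 16324104)) (c (a (l 16376560) (l 16408608)) (a (l 16405296) (l 16431560)))))) (b (a (c (b (l 16302592) (l 16339552)) (b (l 16343648) (l 16371488))) (c (b (l 16356592) (l 16358984)) (b (l 16384704) (l 16379792)))) (a (b (c (a (l 16375568) (l 16407912)) (l 16331096)) (c (b (l 16377248) (l 16373320)) (c (l 16386576) (l 16415584)))) (c (b (l 16333232) (a (l 16470744) (l 16549488))) (b (l 16389160) (a (l 16501072) (l 16555496))))))) (a (b (b (a (c (a (b (l 16368808) (l 16409496)) (b (l 16399904) (l 16442168))) (a (l 16357544) (l 16383128))) (c (a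 (b (l 16432672) (l 16476184)) (b (l 16466800) (l 16511096))) (a (b (l 16454248) (l 16493240)) (l 16419648)))) (b (a (c (a (l 16455248) (l 16489152)) (a (l 16478360) (l 16506760))) (a (c (l 16502944) (l 16536600)) (c (l 16517736) (l 16547056)))) (l 6))) (l 6)) (b (a (b (a (c (b (l 16501840) (l 16547032)) (b (l 16513752) (l 16555200))) (c (b (l 16537920) (l 16542040)) (b (l 16545880) (l 16567616)))) (b (a (c (l 16533536) (l 16559088)) (c (a (l 16603704) (l 16643816)) (l 16612016))) (l 6))) (b (a (c (b (l 16554072) (l 16601000)) (b (l 16558664) (l 16623576))) (b (c (l 16613216) (l 16615016)) (c (l 16603280) (l 16604104)))) (a (a (a (b (l 16658168) (l 6)) (b (l 16646656) (l 1))) (b (c (l 16617488) (l 16640248)) (l 1))) (b (a (c (l 613139780695) (l 612066046919)) (l 1)) (l 1))))) (a (l 6) (l 1))))), by decide +kernel⟩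

def k2_pm_022_a : ∃ t, chk3 f_pm_022_a t 9 3 1 = true :=
  ⟨(b (a (b (a (c (a (l 16364384) (l 16398592)) (a (l 16402608) (l 16474768))) (a (c (l 16496360) (l 16506192)) (b (l 16508200) (l 16517360)))) (a (b (c (a (l 16491536) (l 16549568)) (a (l 16500032) (l 16555152))) (a (c (l 16587360) (l 16590600)) (c (l 16537896) (l 16557872)))) (b (c (a (l 16582080) (l 16526664)) (a (l 16579056) (l 16546224))) (a (c (l 536903922359) (l 534756448967)) (l 1))))) (b (a (c (b (l 16523032) (l 218539305831)) (b (l 16518376) (l 210486248407))) (b (a (l 16428896) (l 535293047927)) (l 1))) (a (b (a (c (l 546567497863) (l 16469624)) (l 1)) (l 1)) (l 1)))) (a (b (a (b (a (c (b (l 16600896) (l 607234097495)) (b (l 16601320) (l 606160364103))) (b (c (l 604012837911) (l 602939105175)) (l 1))) (l 1)) (l 1)) (l 1)) (l 1))), by decide +kernel⟩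

def k3_pm_022_a : ∃ t, chk3 f_pm_022_a t 5 1 1 = true :=
  ⟨(b (a (a (a (b (c (l 16418248) (l 16409584)) (c (b (l 16422112) (l 657162792727)) (b (l 16418808) (l 486437658791)))) (b (c (l 16301840) (l 16321184)) (b (c (l 16315040) (l 16336472)) (l 1)))) (b (b (l 1) (l 1)) (l 1))) (l 1)) (b (l 1) (l 1))), by decide +kernel⟩

def k4_pm_022_a : ∃ t, chk3 f_pm_022_a t 3 1 1 = true :=
  ⟨(l 1), by decide +kernel⟩

theorem s5_pm_022_a : ∃ t, chk3 f_pm_022_a t 4 3 1 = true := ex3_a k1_pm_022_a k2_pm_022_a

theorem s6_pm_022_a : ∃ t, chk3 f_pm_022_a t 4 1 1 = true := ex3_b k0_pm_022_a s5_pm_022_a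

theorem s7_pm_022_a : ∃ t, chk3 f_pm_022_a t 2 1 1 = true := ex3_a s6_pm_022_a k3_pm_022_a

theorem s8_pm_022_a : ∃ t, chk3 f_pm_022_a t 1 1 1 = true := ex3_a s7_pm_022_a k4_pm_022_a

theorem c_pm_022_a : CertB 0 536870912 0 536870912 991146299 28908434 3 eng mog cd0q0 cd2q2a pd2 false true false .pp 0 2 2
    ndB0q0 ndB2q2a pcB2 cut_pm_022_a Ext.none :=
  certB2 (fam := false) (s1 := true) (s2 := false) (a := 0) (b := 2) (c := 2) (cn := .pp) (n1 := ndB0q0) (n2 := ndB2q2a) (pc := pcB2) (cut := cut_pm_022_a) (xt := Ext.none) (P1 := 0) (W1 := 536870912) (P2 := 0) (W2 := 536870912) (P3 := 991146299) (W3 := 28908434) (N0 := 3) (En := eng) (mo := mog) (C1 := cd0q0) (C2 := cd2q2a) (C3 := pd2)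
    rfl (fun _ => rfl) s8_pm_022_a

noncomputable def cut_pm_022_b : Cut := Cut.of [[⟨0, 0, 0, 53687091⟩, ⟨1, 1, 0, 53687091⟩, ⟨2, 1, 0, 53687091⟩]]

noncomputable def f_pm_022_b : ℕ → ℕ → ℕ → ℕ → Bool := onCell 1073741824 536870912 1239849684 370763052 991146299 28908434
    (rowB 3 eng mog cd0q0 cd2q2b pd2 2 false true false .pp 0 2 2 (qsf 0 536870912 1239849684 370763052 2) ndB0q0 ndB2q2b pcB2 cut_pm_022_b Ext.none)

def k0_pm_022_b : ∃ t, chk3 f_pm_022_b t 2 2 1 = true :=
  ⟨(a (b (a (a (b (c (a (l 16203288) (l 16220984)) (c (l 16298304) (l 16275048))) (c (c (l 16021136) (l 16089424)) (a (l 16355456) (l 16293400)))) (b (c (c (l 16131080) (l 16250696)) (a (l 16381648) (l 16362496))) (c (a (l 16113616) (l 16090544)) (a (l 16246624) (l 16172552))))) (a (c (b (b (l 16249096) (l 16221280)) (l 15889888)) (b (b (l 16327824) (l 16308408)) (l 15954280))) (b (a (c (l 16224664) (l 16263152)) (b (l 16370288) (l 16298440))) (a (l 16000488) (b (l 16171688) (l 16058232)))))) (a (a (c (b (a (l 16063032) (l 16004176))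 (l 15750256)) (b (a (l 16272768) (l 16154512)) (l 15906704))) (b (c (l 15793064) (l 15892176)) (a (l 15704216) (l 15746176)))) (a (b (a (l 15813872) (l 15874592)) (c (l 15752552) (l 15817168))) (b (a (l 15906368) (l 15906048)) (c (l 15731336) (l 15749488)))))) (b (a (b (a (a (b (l 16409920) (l 16322040)) (b (l 16346416) (l 16353304))) (a (b (l 16235696) (l 16389456)) (c (l 16164208) (l 16178368)))) (a (a (b (l 16192288) (l 16072896)) (b (l 16222248) (l 16098848))) (a (b (l 16259344) (l 16134168)) (b (l 16301344) (l 16175696))))) (a (b (a (l 526702481383) (l 1)) (a (b (l 16346432) (l 16222664)) (l 16124112))) (b (l 1) (a (l 301753464551) (l 498248051879))))) (a (a (b (a (l 15915344) (l 15934200)) (a (l 15735104) (l 15745488))) (b (a (b (l 16016328) (l 15909720)) (l 15893760)) (a (l 15765608) (l 15795112)))) (a (a (b (b (l 16102064) (l 15987360)) (l 15682672)) (b (l 15982768) (l 15793424))) (b (a (l 15962704) (l 16169256)) (a (l 15785904) (l 15909232))))))), by decide +kernel⟩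

def k1_pm_022_b : ∃ t, chk3 f_pm_022_b t 2 3 1 = true :=
  ⟨(a (a (b (a (b (c (a (l 15932648) (l 15845304)) (a (l 16164600) (l 16033968))) (c (a (l 15930288) (l 15827344)) (a (l 16117008) (l 16029816)))) (b (c (l 15740600) (l 15871368)) (c (l 15700008) (l 15756000)))) (a (b (b (c (l 15789376) (l 15946256)) (a (c (l 15969896) (l 16142576)) (l 15801608))) (a (b (l 15830520) (l 15869384)) (c (l 15662656) (b (l 16106184) (l 16082824))))) (b (c (l 15570480) (a (l 15917456) (l 15784776))) (a (b (l 15757080) (l 15663232)) (c (l 15677008) (l 15825808)))))) (b (a (b (c (l 15647144) (l 15713928)) (c (l 15578352) (l 15649000))) (b (c (l 15603024) (l 15619752)) (c (l 15508968) (l 15525376)))) (a (b (a (l 15622960) (l 15544736)) (a (l 15635840) (l 15540200))) (b (l 15456112) (a (l 15460960) (l 15397056)))))) (b (a (a (b (l 15589640) (l 15472104)) (b (l 15506352) (l 15474584))) (a (b (c (l 15701416) (l 15642272)) (l 15518864)) (b (a (l 15739720) (l 15749800)) (l 15494112)))) (a (a (b (l 15385528) (l 15307504)) (b (l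 15365992) (l 15284512))) (a (b (l 15391928) (l 15289856)) (b (l 15457440) (l 15338496)))))), by decide +kernel⟩

def k2_pm_022_b : ∃ t, chk3 f_pm_022_b t 3 1 1 = true :=
  ⟨(b (b (l 1) (a (a (a (a (b (l 16022328) (l 16013152)) (b (l 15881104) (l 16039040))) (b (a (l 569115038023) (l 1)) (a (l 16040120) (l 15842248)))) (a (a (b (l 1) (c (l 15872376) (l 15854544))) (l 1)) (l 1))) (l 1))) (a (a (b (a (b (a (l 15811848) (l 15921992)) (l 15458832)) (b (a (l 15992936) (l 16067056)) (a (l 15788760) (l 15883464)))) (a (b (l 15557096) (l 15425104)) (b (l 15538688) (l 15543392)))) (b (a (b (a (l 15837456) (l 15746632)) (a (l 15961152) (l 15973016))) (b (l 4) (a (l 15901816) (l 4)))) (a (b (a (l 15796336) (l 15874536)) (l 15624480)) (b (a (l 15948376) (l 15998552)) (a (l 15807408) (l 15881088)))))) (b (l 4) (a (a (b (l 4) (a (l 15929208) (l 4))) (l 4)) (l 4))))), by decide +kernel⟩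

theorem s3_pm_022_b : ∃ t, chk3 f_pm_022_b t 2 1 1 = true := ex3_b k0_pm_022_b k1_pm_022_b

theorem s4_pm_022_b : ∃ t, chk3 f_pm_022_b t 1 1 1 = true := ex3_a s3_pm_022_b k2_pm_022_b

theorem c_pm_022_b : CertB 0 536870912 1239849684 370763052 991146299 28908434 3 eng mog cd0q0 cd2q2b pd2 false true false .pp 0 2 2
    ndB0q0 ndB2q2b pcB2 cut_pm_022_b Ext.none :=
  certB2 (fam := false) (s1 := true) (s2 := false) (a := 0) (b := 2) (c := 2) (cn := .pp) (n1 := ndB0q0) (n2 := ndB2q2b) (pc := pcB2) (cut := cut_pm_022_b) (xt := Ext.none) (P1 := 0) (W1 := 536870912) (P2 := 1239849684) (W2 := 370763052) (P3 := 991146299) (W3 := 28908434) (N0 := 3) (En := eng) (mo := mog) (C1 := cd0q0) (C2 := cd2q2b) (C3 := pd2)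
    rfl (fun _ => rfl) s4_pm_022_b

noncomputable def f_pm_023 : ℕ → ℕ → ℕ → ℕ → Bool := onCell 0 536870912 1073741824 536870912 991146299 28908434
    (rowB 3 eng mog cd0q0 cd2q3 pd2 1 false true false .up 0 2 3 (qsf 0 536870912 1610612736 536870912 2) ndB0q0 ndB2q3 pcB2 Cut.none Ext.none)

def k0_pm_023 : ∃ t, chk3 f_pm_023 t 1 2 1 = true :=
  ⟨(a (a (l 1) (b (l 1) (b (l 1) (a (l 1) (b (l 1) (l 359196372343)))))) (b (a (b (l 1) (a (l 1) (b (l 1) (c (l 15205088) (l 15121216))))) (b (b (a (l 1) (c (a (l 265244862567) (l 15461720)) (a (l 258803002103) (l 15810864)))) (a (a (l 1) (a (l 1) (l 260412859847))) (a (c (l 15205088) (l 15463224)) (c (l 15412176) (l 15622152))))) (a (a (b (l 261486125559) (l 15115928)) (b (a (l 15281408) (l 15310112)) (l 15155600))) (a (b (c (l 15283128) (l 15425536)) (c (l 15172920) (l 15247128))) (c (l 15228320) (l 15123344)))))) (a (b (a (c (l 367786061639) (l 384429062487)) (b (c (l 14990592) (l 15005384)) (a (l 14939200) (l 14935560)))) (a (c (b (l 14968464) (l 14982056)) (l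 206187764391)) (c (b (l 14934944) (l 14943464)) (l 14841216)))) (b (a (b (a (l 15015360) (l 15045952)) (a (l 14944688) (l 14965680))) (b (a (l 15090144) (l 15130632)) (a (l 14997800) (l 15042144)))) (b (a (l 14990808) (a (l 14932504) (l 14973528))) (a (l 14927080) (a (l 14892440) (l 14924104)))))))), by decide +kernel⟩

def k1_pm_023 : ∃ t, chk3 f_pm_023 t 1 3 1 = true :=
  ⟨(a (b (a (b (l 1) (a (l 1) (b (l 1) (a (l 1) (l 15410288))))) (b (a (b (l 1) (l 360807276151)) (b (l 240011007303) (l 221220573607))) (a (b (l 255580723287) (l 259875876807)) (b (l 15208560) (l 15306192))))) (a (b (a (l 4) (b (a (l 4) (l 15510056)) (l 4))) (l 4)) (b (a (b (c (l 15522328) (l 15535448)) (a (l 4) (l 15608272))) (b (l 15420488) (l 15547136))) (a (l 4) (b (l 177399530551) (l 157535795623)))))) (b (a (b (a (b (l 14958816) (l 15033360)) (c (l 14997024) (l 14880600))) (a (b (l 15108504) (l 15202512)) (b (l 15027192) (l 15108752)))) (a (b (c (l 15182824) (l 14819488)) (c (l 15073664) (l 14887672))) (b (a (l 14874776) (b (l 14892896)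 (l 14878648))) (a (l 14915448) (b (l 14879680) (l 14893712)))))) (a (b (a (b (l 15312464) (l 15435152)) (b (l 15205088) (l 15312904))) (a (b (l 15567056) (l 15704216)) (b (l 15428568) (l 15548032)))) (a (b (b (l 15085640) (l 15167168)) (b (l 15253992) (l 15341432))) (b (a (l 15006728) (a (l 14938200) (l 14930528))) (a (l 15115392) (b (l 14983048) (l 15021144)))))))), by decide +kernel⟩

theorem s2_pm_023 : ∃ t, chk3 f_pm_023 t 1 1 1 = true := ex3_b k0_pm_023 k1_pm_023

theorem c_pm_023 : CertB 0 536870912 1610612736 536870912 991146299 28908434 3 eng mog cd0q0 cd2q3 pd2 false true false .up 0 2 3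
    ndB0q0 ndB2q3 pcB2 Cut.none Ext.none :=
  certB1 (fam := false) (s1 := true) (s2 := false) (a := 0) (b := 2) (c := 3) (cn := .up) (n1 := ndB0q0) (n2 := ndB2q3) (pc := pcB2) (cut := Cut.none) (xt := Ext.none) (P1 := 0) (W1 := 536870912) (P2 := 1610612736) (W2 := 536870912) (P3 := 991146299) (W3 := 28908434) (N0 := 3) (En := eng) (mo := mog) (C1 := cd0q0) (C2 := cd2q3) (C3 := pd2)
    rfl (fun _ => rfl) s2_pm_023

noncomputable def f_pm_033 : ℕ → ℕ → ℕ → ℕ → Bool := onCell 1610612736 536870912 1610612736 536870912 991146299 28908434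
    (rowB 3 eng mog cd0q0 cd2q3 pd3 2 false true false .pnn 0 3 3 (qsf 0 536870912 1610612736 536870912 3) ndB0q0 ndB2q3 pcB3 Cut.none Ext.none)

def k0_pm_033 : ∃ t, chk3 f_pm_033 t 1 1 1 = true :=
  ⟨(a (b (a (b (l 4) (a (b (l 4) (a (l 15800408) (l 4))) (l 4))) (l 4)) (a (b (a (b (a (l 15875224) (l 15894808)) (l 15911872)) (a (l 136061021175) (l 4))) (a (b (l 15929000) (b (l 15890280) (l 15872464))) (b (a (l 16030848) (l 16044824)) (a (l 15997504) (l 16079576))))) (b (l 4) (a (b (l 4) (a (l 16129176) (l 16128624))) (l 4))))) (l 4)), by decide +kernel⟩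

theorem c_pm_033 : CertB 0 536870912 1610612736 536870912 991146299 28908434 3 eng mog cd0q0 cd2q3 pd3 false true false .pnn 0 3 3
    ndB0q0 ndB2q3 pcB3 Cut.none Ext.none :=
  certB2 (fam := false) (s1 := true) (s2 := false) (a := 0) (b := 3) (c := 3) (cn := .pnn) (n1 := ndB0q0) (n2 := ndB2q3) (pc := pcB3) (cut := Cut.none) (xt := Ext.none) (P1 := 0) (W1 := 536870912) (P2 := 1610612736) (W2 := 536870912) (P3 := 991146299) (W3 := 28908434) (N0 := 3) (En := eng) (mo := mog) (C1 := cd0q0) (C2 := cd2q3) (C3 := pd3)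
    rfl (fun _ => rfl) k0_pm_033

noncomputable def f_pm_101 : ℕ → ℕ → ℕ → ℕ → Bool := onCell 0 536870912 536870912 536870912 991146299 28908434
    (rowB 3 eng mog cd0q1 cd2q1 pd0 2 false true false .npn 1 0 1 (qsf 536870912 536870912 536870912 536870912 0) ndB0q1 ndB2q1 pcB0 Cut.none Ext.none)

def k0_pm_101 : ∃ t, chk3 f_pm_101 t 1 1 1 = true :=
  ⟨(a (b (l 4) (a (b (l 4) (b (l 4) (a (a (b (a (b (l 4) (l 14960184)) (l 15036064)) (a (b (l 15003216) (l 15050688)) (b (l 15026744) (l 15056112)))) (b (l 4) (b (l 15114920) (a (l 15093872) (l 15134720))))) (a (l 4) (l 4))))) (l 4))) (l 4)), by decide +kernel⟩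

theorem c_pm_101 : CertB 536870912 536870912 536870912 536870912 991146299 28908434 3 eng mog cd0q1 cd2q1 pd0 false true false .npn 1 0 1
    ndB0q1 ndB2q1 pcB0 Cut.none Ext.none :=
  certB2 (fam := false) (s1 := true) (s2 := false) (a := 1) (b := 0) (c := 1) (cn := .npn) (n1 := ndB0q1) (n2 := ndB2q1) (pc := pcB0) (cut := Cut.none) (xt := Ext.none) (P1 := 536870912) (W1 := 536870912) (P2 := 536870912) (W2 := 536870912) (P3 := 991146299) (W3 := 28908434) (N0 := 3) (En := eng) (mo := mog) (C1 := cd0q1) (C2 := cd2q1) (C3 := pd0)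
    rfl (fun _ => rfl) k0_pm_101

end Pool.Agent.Strip051.G.I9231_9500.Tab.C.BB02

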