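import Pool.Agent.Strip051.G.I9231_9500.Tab
import Pool.Agent.Strip051.PB.ExtD3

/-! # Certificates B22 (generated) -/

set_option linter.all false
set_option maxRecDepth 100000

namespace Pool.Agent.Strip051.G.I9231_9500.Tab.C.BB02

open Pool.Agent.Strip051.PB Pool.Agent.Strip051.PB.T
open Pool.Agent.Strip051.G.I9231_9500.Tab

noncomputable def cut_pm_102_a : Cut := Cut.of [[⟨0, 1, 0, 26843545⟩, ⟨1, 0, 0, 26843545⟩, ⟨2, 1, 0, 26843545⟩], [⟨0, 0, 1, 46137344⟩, ⟨1, 1, 2, 46137344⟩, ⟨2, 1, 0, 2097152⟩, ⟨0, 0, 0, 1027248803⟩, ⟨0, 1, 0, 87939455⟩, ⟨1, 0, 0, 87939455⟩, ⟨1, 1, 0, 1027248803⟩]]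

noncomputable def xt_pm_102_a : Ext := extD3 3 ⟨4, 1, 1, 5, 22, 5, 21, 25, 41, 100, 1, 20⟩ eng cd0q1 cd2q2a pd0 false true false .npp 1 0 2 rfl ndB0q1 ndB2q2a pcB0

noncomputable def f_pm_102_a : ℕ → ℕ → ℕ → ℕ → Bool := onCell 536870912 536870912 0 536870912 991146299 28908434
    (rowB 3 eng mog cd0q1 cd2q2a pd0 0 false true false .npp 1 0 2 (qsf 536870912 536870912 0 536870912 0) ndB0q1 ndB2q2a pcB0 cut_pm_102_a xt_pm_102_a)

def k0_pm_102_a : ∃ t, chk3 f_pm_102_a t 4 1 1 = true :=
  ⟨(b (a (l 2) (a (l 2) (b (l 2) (b (l 2) (c (l 16341856) (l 16158552)))))) (b (a (l 2) (a (b (l 2) (c (l 16157592) (l 16093608))) (b (c (l 16230672) (l 16131944)) (c (l 16117912) (l 16046160))))) (a (b (a (l 2) (b (c (l 16140528) (l 16077176)) (c (l 16105328) (l 16067040)))) (a (b (c (l 16081272) (l 16072296)) (c (b (l 16033400) (l 16036024)) (b (l 16065192) (l 16060632)))) (b (c (l 16048048) (l 16036496)) (a (c (l 16012568) (l 16029512)) (c (l 16009600) (l 15994600)))))) (b (a (b (c (l 16146672) (l 16077688)) (c (l 16109984) (l 16067808)))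 (b (c (l 16167328) (l 16093248)) (c (l 16128656) (l 16083120)))) (c (a (b (l 16072008) (a (l 16010184) (l 15972112))) (b (l 16046432) (a (l 15957992) (l 15967472)))) (a (b (l 16037232) (b (l 16050936) (a (l 16023728) (l 16047976)))) (b (b (l 16075400) (l 16070048)) (b (l 16064376) (a (l 16054192) (l 16062952)))))))))), by decide +kernel⟩

def k1_pm_102_a : ∃ t, chk3 f_pm_102_a t 5 1 2 = true :=
  ⟨(b (a (b (a (l 16366864) (l 16317520)) (a (b (l 16419648) (b (l 16411288) (l 16388752))) (b (l 16435144) (l 16344080)))) (b (a (b (l 16467744) (l 16459672)) (b (l 16493992) (l 16486912))) (a (b (l 16457384) (l 16459584)) (b (l 16486072) (l 16489800))))) (b (a (b (a (l 16333944) (b (l 16406848) (l 16367360))) (a (b (l 16278552) (l 16240264)) (l 16139480))) (b (a (b (l 16453416) (l 16430272)) (b (l 16491776) (l 16459336))) (a (l 16195632) (b (l 16408936) (l 16366240))))) (a (b (a (b (l 16179616) (l 16117240)) (b (l 16243840) (l 16198408))) (a (b (b (l 16126896) (l 16104480)) (b (l 16060344) (a (l 16051344) (l 16063736)))) (b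 (l 16044816) (a (l 16026984) (l 16018904))))) (b (a (b (l 16292712) (l 16240304)) (b (l 16292304) (l 16206200))) (a (b (b (l 16177408) (l 16130640)) (b (l 16079696) (a (l 16043192) (l 16005072)))) (b (b (l 16132296) (l 16077392)) (b (l 15912640) (a (l 15968912) (l 15935600))))))))), by decide +kernel⟩

def k2_pm_102_a : ∃ t, chk3 f_pm_102_a t 5 1 3 = true :=
  ⟨(b (a (b (a (b (l 16279736) (l 16244328)) (b (l 16320664) (l 16284568))) (a (b (l 16213088) (l 16105008)) (b (l 16254072) (l 16121120)))) (b (a (b (l 16350352) (l 16334816)) (b (a (l 16414200) (l 16444552)) (l 16371560))) (a (b (l 16304440) (l 16279832)) (b (l 16362496) (l 16317544))))) (b (a (b (a (l 16161656) (b (l 16212496) (l 16198496))) (a (l 16012880) (b (l 16186712) (l 16175080)))) (b (a (c (l 16307824) (l 16190584)) (b (l 16323800) (l 16313528))) (a (b (l 16240224) (l 16227240)) (b (l 16304440) (l 16287032))))) (a (b (a (b (l 16122304) (l 16111192)) (b (l 16142112) (l 16149816))) (a (b (b (l 16102192) (l 16095568)) (b (l 16088168) (a (l 16073768) (l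 16085952)))) (b (a (l 16124536) (l 16143176)) (b (l 16096888) (a (l 16098440) (l 16061216)))))) (b (a (b (l 16212840) (l 16195176)) (b (l 16267816) (l 16225872))) (a (b (a (l 16161808) (l 16149144)) (b (l 16028952) (a (l 16019792) (l 15958336)))) (b (b (l 16140760) (l 16075616)) (b (l 15898104) (a (l 15940368) (l 15903648))))))))), by decide +kernel⟩

def k3_pm_102_a : ∃ t, chk3 f_pm_102_a t 6 2 1 = true :=
  ⟨(a (b (a (c (b (a (l 16516264) (l 16531552)) (l 16518056)) (b (a (l 16475992) (l 16508240)) (l 16350800))) (b (a (b (c (l 16550080) (l 16552392)) (l 16537768)) (c (b (l 16570160) (l 16561520)) (b (l 16559864) (l 16545008)))) (c (a (l 16542128) (l 16557440)) (a (l 16505400) (l 16538992))))) (a (c (b (l 16519120) (l 16525152)) (b (l 16384368) (l 16340304))) (b (c (l 16511256) (a (l 16476944) (l 16511328))) (c (l 16541688) (l 16346528))))) (b (a (b (a (b (l 16607656) (a (l 16580848) (l 16597296))) (b (l 16636928) (l 16619696))) (b (a (c (l 16574656) (l 16559728)) (a (l 16596048) (l 16611840))) (a (l 16547344) (c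 (l 16589568) (l 16596656))))) (b (a (b (l 16621472) (l 16647144)) (b (a (l 16681264) (l 16692160)) (l 16650536))) (a (l 16584880) (b (l 16637120) (l 16646688))))) (a (b (c (a (l 16577096) (l 16529808)) (a (l 16545688) (b (l 16586008) (l 16573792)))) (c (a (l 16589608) (l 16605616)) (a (l 16525720) (l 16560800)))) (b (a (c (b (l 16606296) (l 16608448)) (b (l 16614000) (l 16587624))) (a (b (l 16631016) (l 16602360)) (l 16640304))) (a (c (l 16619512) (l 16573800)) (c (b (l 16628176) (l 16636104)) (b (l 16589088) (l 16623848)))))))), by decide +kernel⟩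

def k4_pm_102_a : ∃ t, chk3 f_pm_102_a t 7 2 1 = true :=
  ⟨(a (b (a (b (a (b (a (a (l 16678216) (l 139754006743)) (l 142975229655)) (a (l 16687584) (l 75329479607))) (b (l 3) (l 130090299095))) (a (b (l 16638000) (l 16669320)) (b (a (l 16671488) (l 16657696)) (a (l 16683832) (l 16670128))))) (a (b (l 3) (a (l 109152315495) (l 3))) (l 3))) (a (b (a (b (l 16660784) (l 16654472)) (a (l 16672928) (l 16639816))) (a (c (b (l 16644240) (l 16627448)) (b (l 16653144) (a (l 16648464) (l 16658992)))) (b (l 16671144) (l 16670376)))) (b (a (b (a (l 16691144) (l 110226075911)) (a (l 16686720) (l 16671552))) (a (b (l 3) (l 144585815591)) (l 3))) (a (b (l 16666264) (l 16686728)) (b (a (l 16674016) (l 149417658791)) (a (l 16695424) (l 93046219575))))))) (a (b (l 3) (b (l 3) (a (b (l 3) (a (l 154786367895) (l 3))) (l 3)))) (l 3))), by decide +kernel⟩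

def k5_pm_102_a : ∃ t, chk3 f_pm_102_a t 6 6 1 = true :=
  ⟨(a (b (a (c (l 16526032) (l 16301088)) (c (l 16525224) (a (l 16437352) (l 16473512)))) (c (a (b (l 16322256) (l 16351880)) (b (l 16487936) (a (l 16393696) (l 16417016)))) (a (b (l 16369440) (l 16332216)) (b (l 16439816) (a (l 16401512) (l 16416792)))))) (b (a (c (a (l 16601304) (l 16623096)) (a (l 16510344) (l 16547288))) (c (b (l 16600600) (l 16612872)) (b (a (l 16585592) (l 16619272)) (l 16472568)))) (a (b (c (l 16550616) (l 16491840)) (a (c (l 16447408) (l 16439480)) (c (l 16485064) (l 16470760)))) (c (b (l 16552864) (a (l 16530200) (l 16583152))) (b (a (l 16571608) (l 16610928)) (a (l 16511376) (l 16562016))))))), by decide +kernel⟩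

def k6_pm_102_a : ∃ t, chk3 f_pm_102_a t 6 14 1 = true :=
  ⟨(a (a (b (c (l 16287704) (l 16305392)) (c (l 16188232) (l 16198544))) (c (b (a (l 16299520) (l 16316520)) (a (l 16189936) (l 16200464))) (b (l 16311648) (l 16191896)))) (a (b (c (b (a (l 16370048) (l 16406472)) (a (l 16313608) (b (l 16362272) (l 16331712)))) (a (l 16230072) (b (l 16392432) (l 16331232)))) (c (a (l 16219816) (b (l 16283512) (l 16214576))) (a (l 16205504) (b (l 16263432) (l 16187904))))) (b (a (c (b (l 16451592) (b (l 16406928) (l 16375216))) (b (l 16431032) (a (l 16357576) (l 16378688)))) (c (b (l 16505504) (l 16445472)) (b (l 16480760) (l 16416056)))) (b (c (a (a (l 16313760) (l 16337544)) (b (l 16396432) (l 16424728))) (a (a (l 16287304) (l 16306944)) (a (l 16330016) (l 16356512)))) (c (a (l 16254336) (l 16307264)) (a (l 16217944) (l 16261120))))))), by decide +kernel⟩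

def k7_pm_102_a : ∃ t, chk3 f_pm_102_a t 6 15 1 = true :=
  ⟨(a (b (a (c (b (l 16102736) (l 16039112)) (b (l 16102456) (l 16028832))) (c (a (l 16060800) (l 16063544)) (b (l 16084128) (l 16001472)))) (a (c (b (l 16032512) (a (l 15906168) (l 15881848))) (b (a (l 15959160) (l 15935048)) (a (l 15869968) (l 15840240)))) (c (b (a (l 15948520) (l 15944424)) (a (l 15864168) (l 15854904))) (b (a (l 15916112) (l 15903656)) (a (l 15815528) (l 15797248)))))) (b (a (a (c (b (l 16114624) (l 16036168)) (l 16044720)) (c (b (l 16139584) (l 16057856)) (b (l 16103776) (l 16009960)))) (c (a (b (l 16177184) (l 16093288)) (b (l 16229384) (l 16145128))) (a (b (l 16130240) (l 16032584)) (b (l 16170480) (l 16069904))))) (a (c (b (a (l 15950352) (l 15968600)) (a (b (l 15880720) (l 15831392)) (b (l 15896352) (l 15845296)))) (b (a (l 15899320) (l 15905144)) (a (l 15787240) (b (l 15818608) (l 15756576))))) (c (b (a (l 16023016) (b (l 16077824) (l 16030816))) (a (b (l 15928616) (a (l 15867104) (l 15888312))) (b (a (l 15966504) (l 15999688)) (c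 (a (l 15947040) (l 15985080)) (a (l 15884680) (l 15916192)))))) (b (a (l 15923712) (l 16021264)) (a (b (l 15834088) (l 15770032)) (b (l 15867112) (c (l 15834616) (l 15770248))))))))), by decide +kernel⟩

def k8_pm_102_a : ∃ t, chk3 f_pm_102_a t 7 6 1 = true :=
  ⟨(a (a (b (a (c (b (l 16659016) (l 16674104)) (b (l 16630136) (l 16648392))) (b (c (l 16626968) (a (l 16672192) (l 16680800))) (c (l 16619728) (a (l 16670632) (l 16664968))))) (c (b (a (l 16689768) (l 16699552)) (a (l 16643488) (l 16684416))) (b (a (l 16646904) (l 16656784)) (a (l 16601256) (l 16634664))))) (b (a (b (l 16689032) (a (b (l 16667160) (l 16651392)) (l 16655344))) (b (a (l 16697760) (l 16701472)) (l 16663232))) (a (b (a (l 141540647082426415) (c (l 16684688) (l 16689424))) (c (l 16724608) (l 16706536))) (b (a (b (l 16709424) (l 16672472)) (l 16715520)) (c (a (l 16726008) (b (l 16719544) (l 16708952))) (a (l 16725016) (b (l 16728240) (l 16734296)))))))) (a (b (a (b (a (b (l 16680488) (l 16704368)) (b (l 3) (l 156397005687))) (a (l 16687664) (b (l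 140827762679) (l 16689368)))) (a (b (l 3) (b (l 3) (l 161765721847))) (l 3))) (a (b (b (a (l 16714576) (l 16714528)) (l 16688440)) (a (b (l 16726008) (c (l 16728176) (l 16736720))) (l 16708336))) (b (a (b (a (l 16692408) (l 157470776391)) (a (l 16718528) (l 16696120))) (a (b (l 3) (l 162302619815)) (l 3))) (a (b (l 16702984) (l 16709992)) (b (a (l 16699920) (b (l 178945628231) (l 158544543015))) (a (l 16706976) (b (l 16701992) (l 16705864)))))))) (b (l 3) (a (b (l 3) (a (a (b (l 3) (b (l 225116563879) (l 161228904839))) (l 3)) (l 3))) (l 3))))), by decide +kernel⟩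

def k9_pm_102_a : ∃ t, chk3 f_pm_102_a t 14 14 1 = true :=
  ⟨(a (b (c (a (b (l 16568432) (l 16509608)) (l 141549511713882159)) (a (b (l 16542600) (l 16477216)) (b (l 16616912) (l 16552304)))) (c (a (b (l 16444776) (b (l 16497496) (l 16356048))) (b (l 16521184) (l 140547169103937583))) (a (b (l 16423888) (b (l 16341432) (l 16297424))) (b (l 16478072) (b (l 16416696) (l 16372816)))))) (b (a (c (l 141825076979466287) (l 142230109535207471)) (a (l 141930080304021551) (b (l 16738672) (l 16725400)))) (b (a (l 141557620561854511) (l 141785425785978927)) (a (c (l 16546496) (l 16487648)) (c (l 16666240) (l 142975303386382383)))))), by decide +kernel⟩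

def k10_pm_102_a : ∃ t, chk3 f_pm_102_a t 28 15 1 = true :=
  ⟨(b (b (a (c (l 16298104) (l 16227064)) (c (b (l 141760480079347759) (l 16366544)) (b (l 16410744) (l 16278608)))) (c (a (b (l 16237464) (l 16195400)) (l 140231677690773551)) (a (l 16125192) (b (l 16228408) (l 16176336))))) (a (c (a (b (l 16129712) (b (l 16040320) (b (l 16005528) (c (l 16021392) (l 15943176))))) (c (b (l 16186160) (b (l 16127656) (l 136875280555687983))) (b (l 16121744) (b (l 16051944) (b (l 16016840) (l 15993552)))))) (b (c (l 16041472) (l 15986208)) (b (c (l 15957784) (l 15889480)) (c (a (l 15880400) (l 15921584)) (l 15821304))))) (b (c (l 138908896330154031) (c (l 16191784) (l 16061832))) (c (b (l 137974586215874607) (b (l 139345196387123247) (c (a (l 137440498423382063) (a (l 138100274337366063) (b (l 138647624943910959) (c (l 138888418084257839) (l 138242111247745071))))) (l 137043506012815407)))) (a (b (l 15985768) (c (l 15973232) (l 15881368))) (c (l 136374452949401647) (a (l 15951368) (l 135392520182087727)))))))), by decide +kernel⟩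

def k11_pm_102_a : ∃ t, chk3 f_pm_102_a t 29 15 1 = true :=
  ⟨(b (a (b (a (b (l 141799718966100015) (l 141257590934421551)) (b (l 16487744) (l 141628195187015727))) (c (l 141584077237862447) (l 140024351020253231))) (b (a (l 142207500530417711) (l 142617481052012591)) (b (a (l 141652521943482415) (l 142212448381861935)) (a (l 141200210289049647) (l 141955231344738351))))) (a (b (c (l 140450274486042671) (l 138319832924209199)) (b (c (l 141142417003905071) (l 137442972263530543)) (a (c (b (l 139110862990196783) (c (b (l 139499196866379823) (c (b (l 139813725973610543) (b (l 139803692974129199) (c (b (l 139975216906190895) (c (a (l 139724047126937647) (c (a (a (l 140193263718350895) (l 140372346752204847)) (a (l 140556652392071215) (l 140746249454092335))) (l 140373171344293935))) (a (l 139552110879457327) (l 140237175475372079)))) (l 139621448934064175)))) (l 139108045585743919))) (l 138097388014927919))) (c (l 136847861541863471) (l 135507419194736687))) (c (b (l 142305837943439407) (b (c (l 141602425437306927) (l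 139372340707672111)) (a (c (b (l 140511984716120111) (c (c (a (a (c (l 140889185992294447) (l 140702612579336239)) (l 140992814984134703)) (l 141298891592089647)) (l 140712027152695343)) (l 140138837894168623))) (l 138995620472750127)) (a (c (a (c (c (l 141783089123967023) (l 141211342963818543)) (l 140622760539504687)) (b (l 141214091742642223) (l 14))) (l 139534587430649903)) (l 14))))) (b (l 137281344088506415) (c (l 138716138193862703) (l 136263883350130735))))))) (b (b (c (l 142233476570628143) (l 140206870113533999)) (c (l 142177882528841775) (l 140259852772098095))) (b (c (a (l 141552741355978799) (l 143109100357582895)) (a (l 138745550230339631) (l 140204464960651311))) (b (c (a (l 142743649970421807) (l 143235338105208879)) (a (l 140286584640831535) (c (l 140872143563882543) (l 139101242332889135)))) (b (b (c (a (l 142468222373642287) (l 143271140933140527)) (c (l 141672656819077167) (l 138996926066081839))) (l 14)) (l 14))))))), by decide +kernel⟩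

def k12_pm_102_a : ∃ t, chk3 f_pm_102_a t 15 14 1 = true :=
  ⟨(a (b (a (c (a (b (l 16739040) (l 16750720)) (b (l 16736120) (l 16747344))) (a (b (l 16744032) (l 16747032)) (b (l 16744248) (a (l 16752304) (l 16753088))))) (a (b (l 16738928) (c (l 16722344) (l 16708824))) (b (c (l 16710168) (l 16716696)) (l 16711576)))) (b (a (a (c (l 16760648) (l 16749672)) (c (l 16759600) (l 16756784))) (a (c (a (l 16756168) (l 16753160)) (a (l 16760560) (l 16738704))) (a (b (l 16751632) (l 16735328)) (l 16729888)))) (a (a (l 142832504528044079) (c (l 16758448) (l 16744776))) (a (c (l 16767648) (l 16744488)) (a (l 598560816394890190921263) (a (l 599328662116958388411951) (l 599423056500133619363567))))))) (a (b (a (b (a (b (c (l 16703304) (l 16708640)) (l 16710272)) (a (b (l 186461845031) (l 149417762887)) (l 3))) (a (l 16716776) (b (a (l 16711664) (c (l 149954641127) (l 16711536))) (c (l 16712776) (l 16717520))))) (b (l 3) (a (a (b (l 3) (b (l 165523902439) (l 138143492103))) (l 3)) (l 3)))) (a (b (a (l 16726152) (b (l 16725104)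 (l 16724888))) (a (b (l 16754760) (l 601194808803001695956719)) (c (l 16730344) (l 16735488)))) (b (a (a (b (b (l 16715960) (l 16718512)) (l 16722472)) (b (c (a (l 91435727335) (l 177335064791)) (l 152639015767)) (c (l 16729608) (l 16723104)))) (b (l 3) (a (c (b (l 178408812807) (l 142975348071)) (l 154249636455)) (l 3)))) (a (b (c (l 16725112) (l 16729400)) (l 16732688)) (b (a (c (b (l 16732792) (l 16746152)) (l 16725728)) (b (l 228337825767) (c (l 145122842167) (l 146733457655)))) (a (l 16741728) (b (a (l 16728160) (l 99488818727)) (l 16739760)))))))) (b (l 3) (a (b (l 3) (b (l 3) (a (a (b (l 227264091015) (a (c (l 16744392) (l 16725128)) (l 173577005863))) (l 3)) (l 3)))) (l 3))))), by decide +kernel⟩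

def k13_pm_102_a : ∃ t, chk3 f_pm_102_a t 30 30 1 = true :=
  ⟨(a (a (b (l 142880127016583215) (b (l 142785156647206959) (b (l 142742688001949743) (l 142730387216351279)))) (b (l 599157019778145730979887) (b (l 143189227312381999) (l 142947197335502895)))) (a (b (c (l 16768856) (b (l 16752184) (l 16727104))) (b (l 600520061627258179268207) (l 600910613768939255967343))) (b (c (l 600358652673031912386287) (l 600556378668465907330799)) (b (l 601241790576828134239983) (l 601879067991619737923311))))), by decide +kernel⟩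

def k14_pm_102_a : ∃ t, chk3 f_pm_102_a t 60 31 1 = true :=
  ⟨(b (a (b (l 142724752228728879) (l 143038800279797807)) (b (l 142922458343882799) (l 599900654398343728556079))) (b (a (c (l 143331133083992175) (l 141769757492625455)) (c (l 600828756414954804014319) (l 599889125307405052831791))) (b (c (a (l 143163594952540271) (b (l 143680090615333103) (l 143392774466207983))) (a (c (l 142887480026972207) (l 140895027161399343)) (c (l 600877467292999086188655) (l 600291783015345597704239)))) (b (b (c (a (l 143383497300623471) (l 143494066962022639)) (a (c (l 143163251341033519) (l 141028274255003695)) (c (l 143428852168638575) (l 143384184502009903)))) (l 14)) (l 14))))), by decide +kernel⟩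

def k15_pm_102_a : ∃ t, chk3 f_pm_102_a t 61 62 1 = true :=
  ⟨(b (a (b (l 601687971324249183645295) (l 601021870634072992689775)) (l 601730341171745133637359)) (a (b (l 601586513950574911680111) (l 601793175224971144719983)) (b (l 601487074609272325582575) (c (l 600947218848795800710895) (l 601259660689862646525679))))), by decide +kernel⟩

def k16_pm_102_a : ∃ t, chk3 f_pm_102_a t 61 126 1 = true :=
  ⟨(a (a (c (l 602469363947388845501743) (l 601838715744937056233583)) (c (l 602764511746534059355375) (l 602205921334864062868719))) (a (c (l 601319036329731407146735) (l 600837115030167411076335)) (b (l 601790869585921347776239) (l 143776297921347823)))), by decide +kernel⟩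

def k17_pm_102_a : ∃ t, chk3 f_pm_102_a t 122 254 1 = true :=
  ⟨(a (c (l 601870421089681016155439) (l 601497739125905663354991)) (b (c (l 603041213014154890865903) (l 602681501418474596707567)) (c (l 601751670217931065879791) (l 601461998614719476280559)))), by decide +kernel⟩

def k18_pm_102_a : ∃ t, chk3 f_pm_102_a t 122 510 1 = true :=
  ⟨(c (a (c (l 143567321939984687) (l 601743887971730254589231)) (c (l 601316730416353447537903) (l 601207779392442212281583))) (a (c (l 601611878424474551594223) (l 601476986572770136647791)) (c (l 601096522434949492944111) (l 600983247864342675238127)))), by decide +kernel⟩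

def k19_pm_102_a : ∃ t, chk3 f_pm_102_a t 488 511 1 = true :=
  ⟨(l 14), by decide +kernel⟩

def k20_pm_102_a : ∃ t, chk3 f_pm_102_a t 978 511 1 = true :=
  ⟨(l 14), by decide +kernel⟩

def k21_pm_102_a : ∃ t, chk3 f_pm_102_a t 1958 511 1 = true :=
  ⟨(l 14), by decide +kernel⟩

def k22_pm_102_a : ∃ t, chk3 f_pm_102_a t 1959 511 2 = true :=
  ⟨(b (c (l 143522791709819183) (l 143492417696956719)) (b (c (l 143490218670719279) (l 143460600572510511)) (c (b (c (l 143481491294585135) (l 143466854044270895)) (b (c (l 143473382394659119) (l 143436342594978095)) (a (a (l 14) (a (c (c (l 143468365871579439) (l 143461150325670191)) (c (l 143453866060284207) (l 143446650514374959))) (c (c (l 143469740261392687) (l 143462524715483439)) (c (l 143455309169590575) (l 143448024904204591))))) (c (c (l 143475237820580143) (l 143468090994164015)) (c (l 143460944167747887) (l 143453728621855023)))))) (b (c (l 143452148074463535) (l 143437510824149295)) (b (c (l 143433112777851183) (c (l 143433456373940527) (l 143426172108538159))) (a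 (a (l 14) (c (a (c (l 143439366249005359) (l 143426446986527023)) (b (l 143438472895873327) (c (l 143439503687991599) (l 143432219422621999)))) (c (a (c (l 143426653144318255) (l 143423011011625263)) (c (l 143428096253624623) (l 143424454120931631))) (a (c (l 143419368878932271) (l 143415726746239279)) (c (l 143420811988238639) (l 143417238575022383)))))) (c (c (l 143446581795438895) (l 143439366249546031)) (c (l 143432219423129903) (l 143413733883052335))))))))), by decide +kernel⟩

def k23_pm_102_a : ∃ t, chk3 f_pm_102_a t 1959 1022 3 = true :=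
  ⟨(c (l 143461837525631279) (l 143430913756905711)), by decide +kernel⟩

def k24_pm_102_a : ∃ t, chk3 f_pm_102_a t 1959 2046 3 = true :=
  ⟨(c (l 143430776315855151) (l 143389544626028783)), by decide +kernel⟩

def k25_pm_102_a : ∃ t, chk3 f_pm_102_a t 1959 2047 3 = true :=
  ⟨(b (c (c (l 143422804854358319) (l 143408030165074223)) (c (l 143393324195283183) (l 143378549505999087))) (a (a (l 14) (c (c (b (l 143412428211454255) (a (c (c (l 143412084613546287) (l 143408442480853295)) (c (l 143404800348160303) (l 143401158215467311))) (c (c (l 143413596442329391) (l 143409954309636399)) (c (l 143406312176943407) (l 143397035047158063))))) (b (l 143397859680649519) (a (c (c (l 143397516082774319) (l 143393873950081327)) (c (l 143390231817388335) (l 143380954687602991))) (c (b (l 143398409436250415) (c (l 143397859680256303) (l 143394217547563311))) (b (l 143391125170864431) (c (l 143390575414870319) (l 143387002001654063))))))) (b (c (l 143383222430368047) (l 143368585180102895)) (b (c (c (l 143383153710596399) (l 143375800725733679))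 (c (l 143368516460347631) (l 143361232194961647))) (c (a (c (c (l 143381710601175343) (c (l 143378961821778223) (l 143377175115186479))) (c (c (l 143375319689101615) (l 143373532982493487)) (c (l 143371677556408623) (l 143369890849800495)))) (c (c (l 143383359868977455) (b (l 143380267492180271) (l 143379167980388655))) (c (c (l 143377037676380463) (l 143375182250295599)) (c (l 143373395543687471) (l 143371608837079343))))) (a (a (l 14) (c (c (c (l 143368310301671663) (l 143366523595063535)) (c (l 143364668168978671) (l 143360063963840751))) (b (l 143358895732293871) (c (c (l 143360476280373487) (b (l 143358895732228335) (l 143358345976332527))) (c (c (l 143357246464590063) (l 143356353111294191)) (c (l 143355459757981935) (l 143354566404686063))))))) (b (c (l 143367554387493103) (l 143360338841600239)) (c (c (c (l 143369203655098607) (l 143367416948506863)) (c (l 143365630241898735) (l 143363774815813871))) (c (c (l 143361988109205743) (l 143360201402597615)) (c (c (l 143358827012915439) (l 143357933659603183)) (c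 (l 143357040306307311) (l 143356146952995055)))))))))))) (c (c (b (l 143419025282236719) (c (c (l 143419643757412655) (l 143416001624736047)) (c (l 143412428211519791) (l 143408854798319919)))) (b (l 143404456751448367) (c (c (l 143405281385103663) (l 143401639252427055)) (c (l 143398065839210799) (l 143394492426010927))))) (c (b (l 143389888220660015) (c (c (l 143390850291974447) (l 143387276878774575)) (c (c (l 143384596820197679) (l 143382810113605935)) (c (l 143380954687521071) (l 143379167980912943))))) (b (l 143364049695686895) (c (c (c (l 143377381274304751) (l 143375594567696623)) (c (l 143373807859761391) (l 143372021153825007))) (c (c (l 143370165727576303) (a (l 143365698961031407) (l 143371059081904367))) (c (c (l 143367073350926575) (l 143366179997614319)) (c (l 143365286644318447) (l 143364324571545839)))))))))), by decide +kernel⟩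

def k26_pm_102_a : ∃ t, chk3 f_pm_102_a t 490 511 1 = true :=
  ⟨(c (b (c (l 143566222424670447) (l 143536054570484015)) (c (a (b (l 143516469514469679) (c (c (l 143460119541285167) (l 143453178873315631)) (c (l 143468640754762031) (l 143461700081434927)))) (b (l 143550416942563567) (c (l 143490149958926575) (l 143499770678821167)))) (a (b (l 143487057574854959) (b (c (l 143478879955517743) (l 143464655022162223)) (c (c (l 143449468012970287) (l 143442596064510255)) (c (l 143435655397900591) (a (l 143441840152183087) (l 143460669292478767)))))) (c (c (l 143522860428788015) (l 143471183381512495)) (c (l 143464517591482671) (l 143457851796095279)))))) (b (c (l 143505611838390575) (l 143294780479815919)) (c (c (a (b (l 143464929900642607) (c (c (l 143428371134005551) (l 143424866440282415)) (c (l 143421361746559279) (l 143417857052164399)))) (c (l 143451186006065455) (l 143466991484944687))) (b (l 143469327949005103) (b (l 143455790210072879) (c (a (c (l 143409748153516335) (l 143406312178614575)) (l 143469190510838063))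 (a (a (c (l 143415451870052655) (l 143411878456852783)) (l 143433593812844847)) (l 143462868312899887)))))) (b (c (l 143455034296123695) (l 143440740643242223)) (b (c (l 143442115032596783) (l 143428371135660271)) (c (a (a (b (l 143405281386365231) (c (c (l 143406174736875823) (l 143402670043169071)) (c (l 143399234069594415) (a (l 143390506695328047) (l 143400883339641135))))) (c (c (l 143428508573679919) (l 143425141318926639)) (c (l 143421774064173359) (l 143418406809420079)))) (c (l 143434006133293359) (a (l 143440259604398383) (l 143460119539646767)))) (c (a (c (a (c (l 143395179620712751) (l 143393461633597679)) (l 143415039554683183)) (a (c (l 143391674927005935) (l 143378686945362159)) (l 143411603577766127))) (c (l 143445482283303215) (l 143442321187012847))) (a (b (l 143398065841242351) (b (l 143395042183856367) (c (a (c (l 143385077856403695) (l 143383359869124847)) (l 143405212665626863)) (a (a (c (l 143376281763315951) (l 143374563774857455)) (c (l 143386933284225263) (l 143385215297110255))) (l 143401914131038447)))))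 (c (l 143416620102353135) (l 143413459006079215)))))))))), by decide +kernel⟩

def k27_pm_102_a : ∃ t, chk3 f_pm_102_a t 491 511 1 = true :=
  ⟨(c (c (b (l 143630818744926447) (b (l 143598520585928943) (c (l 143560449987838191) (l 143543476277182703)))) (b (l 143604430462615791) (a (c (l 143508635503476975) (l 143496403424477487)) (c (l 143586632116076783) (l 143575499559616751))))) (b (c (l 143577904741318895) (l 143551310300545263)) (a (c (c (l 143495441355784495) (c (l 143520111652258095) (l 143513995618124079))) (c (c (l 143507948303483183) (l 143456821001355567)) (c (l 143450704967221551) (l 143444657660625135)))) (c (c (l 143541895731593455) (b (l 143562236699427119) (l 143544575791399215))) (b (l 143545125547770159) (c (c (l 143536604331229487) (l 143531381650440495)) (c (l 143526090250158383) (l 143520867569353007)))))))), by decide +kernel⟩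

def k28_pm_102_a : ∃ t, chk3 f_pm_102_a t 123 127 1 = true :=
  ⟨(c (a (b (b (l 143764409460572399) (l 143855050436395247)) (b (l 143589037285851375) (b (c (l 143717199144632559) (l 143697820250030319)) (a (b (c (l 143658237823205615) (l 143638584050778351)) (c (c (l 143642157462962415) (l 143633017771639023)) (c (l 143623878080332015) (b (l 143619548753101039) (l 143610134183411951))))) (c (c (l 143706547625181423) (l 143699332076814575)) (b (l 143698026409935087) (c (l 143682633244623087) (l 143675967452152047)))))))) (b (l 143813131538972911) (b (l 143689367742300399) (c (b (l 143815742894342383) (a (a (l 143741182244847855) (l 143765234070601967)) (l 143754238955700463))) (a (b (l 143780833394475247) (c (l 143746198772777199) (l 143741594556891375))) (c (l 143723933653500143) (l 143721322313449711))))))) (c (b (a (l 601342094961996275100911) (l 143959710220861679)) (b (l 143613157829361903) (c (b (l 143563267492528367) (a (a (a (l 143598383150776559) (l 143631162347569391)) (a (l 143662773313061103) (l 143693353486172399)))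 (a (l 143692116538802415) (l 143792034674098415)))) (b (l 143556189375004911) (b (a (l 143647655025557743) (l 143770319315353839)) (a (a (b (l 143601338089930991) (c (l 143594809738608879) (l 143590549130641647))) (a (l 143646830389870831) (l 143678784955416815))) (a (l 143724620849922287) (l 143782413946421487)))))))) (b (a (l 601967554843335990160623) (l 143936620473336047)) (b (l 143594397409919215) (b (a (l 143479223590207727) (l 143788873577283823)) (c (a (a (a (c (l 143581134560280879) (l 143576255476908335)) (c (l 143616044061180143) (l 143611783453196527))) (a (c (l 143649854050255087) (l 143646211917644015)) (c (l 143682564527489263) (l 143679609589743855)))) (a (a (l 143713144695308527) (l 143744205910130927)) (l 143698919772848367))) (a (b (l 143630956191039727) (a (a (c (l 143563404933153071) (l 143558800729063727)) (b (l 143601544249983215) (c (l 143595703093575919) (l 143591786083041519)))) (a (b (l 143636934787252463) (c (l 143630887472382191) (l 143627588937220335))) (c (l 143668889350078703) (l 143666140570812655)))))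 (a (c (l 143680709099798767) (l 143678784959742191)) (l 143697751542005999))))))))), by decide +kernel⟩

def k29_pm_102_a : ∃ t, chk3 f_pm_102_a t 31 30 1 = true :=
  ⟨(b (a (b (a (a (l 600724273598284983524911) (l 601649059913337631469167)) (a (l 16737920) (c (l 16744904) (l 16732080)))) (a (a (l 601977499273792636935727) (c (l 16743480) (l 601849813217157468069423))) (a (l 16742704) (a (l 16740712) (l 16737368))))) (a (a (b (a (b (c (l 101099439399) (l 16741936)) (l 16743088)) (a (b (l 176261361415) (c (l 135996050311) (l 16736288))) (l 3))) (a (c (l 16735504) (l 16731976)) (b (a (l 16740040) (c (l 139217276583) (l 140827883239))) (c (l 16743352) (l 16750608))))) (a (b (l 3) (a (b (l 3) (c (l 142438503703) (l 144585981223))) (l 3))) (l 3))) (l 3))) (b (a (a (a (l 602562895167756774825519) (l 601639981503318985858607)) (a (a (l 601559853458748803980847) (l 601616058382098426584623)) (l 16745048))) (a (a (a (l 16739712) (b (l 16744720) (l 16737464))) (a (c (a (b (l 16743120) (l 16756784)) (b (a (l 109152509815) (l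 162839601367)) (l 16749360))) (a (l 69424055367) (b (l 147807208695) (l 16751768)))) (b (l 3) (a (c (a (l 112373737335) (l 167134571143)) (l 151565307655)) (l 3))))) (l 3))) (a (a (c (l 16759304) (l 602284896540186847014511)) (a (l 602026930167369992597103) (c (l 602068723731478647697007) (l 601875609338087880453743)))) (b (a (a (l 16753440) (b (a (l 16746360) (a (c (l 16749672) (l 16752248)) (l 174113887719))) (a (l 16737688) (a (l 16744848) (c (l 143512254503) (l 146196604167)))))) (l 3)) (a (a (l 16746728) (a (l 16751024) (a (l 16747696) (c (b (l 88751423175) (l 16758048)) (l 78013999479))))) (a (a (a (b (l 177871997639) (a (a (l 16750184) (l 112910612183)) (l 177335122407))) (l 3)) (l 3)) (l 3))))))), by decide +kernel⟩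

def k30_pm_102_a : ∃ t, chk3 f_pm_102_a t 31 31 1 = true :=
  ⟨(a (b (a (b (l 601990036719286051466863) (a (b (l 16768056) (l 601406081704317615779567)) (l 603104912028508245438063))) (b (a (c (l 16779880) (l 16780248)) (l 602290949403374795517551)) (c (l 602788435065529331773039) (l 602785264525413068140143)))) (b (b (a (b (l 602162686655089834274415) (l 602216297590816001650287)) (b (l 603754295061373838175855) (l 602404512132477201231471))) (a (l 602465617014827440778863) (a (b (l 603438106409653923638895) (l 143921227336958063)) (b (l 603074936063547301097071) (l 603216168986413228813935))))) (a (b (c (l 143742556659499119) (l 602636249419430786215535)) (b (a (c (l 143772380887236847) (l 143769288511733999)) (c (l 143841856292552815) (l 143864465005576303))) (c (a (a (c (l 143769357246726383) (l 143769151078514927)) (c (l 143806465761050863) (l 143811894601597167))) (c (l 143811069976182895) (l 143825363630719087))) (a (c (c (l 143793065461825775) (l 143795058327421167)) (c (l 143797257351479535) (l 143754651276722415)))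 (c (a (l 143773961482813679) (l 603484223267639172294255)) (c (l 603448194461480494933743) (l 603317626109948583880431))))))) (a (b (b (l 143879583322865775) (l 603419083286054315454063)) (b (c (l 603471541214994948583023) (l 603717690007218372095599)) (l 6))) (l 6))))) (b (b (a (a (a (l 602229268088241116409455) (l 602249155945231637818991)) (a (l 602973478902078797983343) (b (c (l 16754392) (l 16749384)) (l 603024495732396277083759)))) (a (b (a (a (c (a (l 16748760) (b (l 105394425575) (l 16759048))) (l 1685242592686463264580894831)) (a (b (l 181630097559) (b (l 153175935159) (l 124721777735))) (l 3))) (l 3)) (a (a (c (l 16752400) (l 16739832)) (l 6)) (l 6))) (l 3))) (a (a (b (l 602468067374002905505327) (l 603374695645261786639983)) (b (a (l 603174375504149524344431) (l 6)) (l 6))) (l 6))) (a (b (a (b (l 602752982721153765518959) (l 6)) (l 6)) (l 6)) (l 6)))), by decide +kernel⟩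

theorem s31_pm_102_a : ∃ t, chk3 f_pm_102_a t 31 15 1 = true := ex3_b k29_pm_102_a k30_pm_102_a

theorem s32_pm_102_a : ∃ t, chk3 f_pm_102_a t 245 511 1 = true := ex3_a k26_pm_102_a k27_pm_102_a

theorem s33_pm_102_a : ∃ t, chk3 f_pm_102_a t 1959 1023 3 = true := ex3_b k24_pm_102_a k25_pm_102_a

theorem s34_pm_102_a : ∃ t, chk3 f_pm_102_a t 1959 511 3 = true := ex3_b k23_pm_102_a s33_pm_102_a

theorem s35_pm_102_a : ∃ t, chk3 f_pm_102_a t 1959 511 1 = true := ex3_c k22_pm_102_a s34_pm_102_a

theorem s36_pm_102_a : ∃ t, chk3 f_pm_102_a t 979 511 1 = true := ex3_a k21_pm_102_a s35_pm_102_a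

theorem s37_pm_102_a : ∃ t, chk3 f_pm_102_a t 489 511 1 = true := ex3_a k20_pm_102_a s36_pm_102_a

theorem s38_pm_102_a : ∃ t, chk3 f_pm_102_a t 244 511 1 = true := ex3_a k19_pm_102_a s37_pm_102_a

theorem s39_pm_102_a : ∃ t, chk3 f_pm_102_a t 122 511 1 = true := ex3_a s38_pm_102_a s32_pm_102_a

theorem s40_pm_102_a : ∃ t, chk3 f_pm_102_a t 122 255 1 = true := ex3_b k18_pm_102_a s39_pm_102_a

theorem s41_pm_102_a : ∃ t, chk3 f_pm_102_a t 122 127 1 = true := ex3_b k17_pm_102_a s40_pm_102_a

theorem s42_pm_102_a : ∃ t, chk3 f_pm_102_a t 61 127 1 = true := ex3_a s41_pm_102_a k28_pm_102_a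

theorem s43_pm_102_a : ∃ t, chk3 f_pm_102_a t 61 63 1 = true := ex3_b k16_pm_102_a s42_pm_102_a

theorem s44_pm_102_a : ∃ t, chk3 f_pm_102_a t 61 31 1 = true := ex3_b k15_pm_102_a s43_pm_102_a

theorem s45_pm_102_a : ∃ t, chk3 f_pm_102_a t 30 31 1 = true := ex3_a k14_pm_102_a s44_pm_102_a

theorem s46_pm_102_a : ∃ t, chk3 f_pm_102_a t 30 15 1 = true := ex3_b k13_pm_102_a s45_pm_102_a

theorem s47_pm_102_a : ∃ t, chk3 f_pm_102_a t 15 15 1 = true := ex3_a s46_pm_102_a s31_pm_102_a

theorem s48_pm_102_a : ∃ t, chk3 f_pm_102_a t 15 7 1 = true := ex3_b k12_pm_102_a s47_pm_102_a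

theorem s49_pm_102_a : ∃ t, chk3 f_pm_102_a t 14 15 1 = true := ex3_a k10_pm_102_a k11_pm_102_a

theorem s50_pm_102_a : ∃ t, chk3 f_pm_102_a t 14 7 1 = true := ex3_b k9_pm_102_a s49_pm_102_a

theorem s51_pm_102_a : ∃ t, chk3 f_pm_102_a t 7 7 1 = true := ex3_a s50_pm_102_a s48_pm_102_a

theorem s52_pm_102_a : ∃ t, chk3 f_pm_102_a t 7 3 1 = true := ex3_b k8_pm_102_a s51_pm_102_a

theorem s53_pm_102_a : ∃ t, chk3 f_pm_102_a t 6 7 1 = true := ex3_b k6_pm_102_a k7_pm_102_a

theorem s54_pm_102_a : ∃ t, chk3 f_pm_102_a t 6 3 1 = true := ex3_b k5_pm_102_a s53_pm_102_a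

theorem s55_pm_102_a : ∃ t, chk3 f_pm_102_a t 3 3 1 = true := ex3_a s54_pm_102_a s52_pm_102_a

theorem s56_pm_102_a : ∃ t, chk3 f_pm_102_a t 3 2 1 = true := ex3_a k3_pm_102_a k4_pm_102_a

theorem s57_pm_102_a : ∃ t, chk3 f_pm_102_a t 3 1 1 = true := ex3_b s56_pm_102_a s55_pm_102_a

theorem s58_pm_102_a : ∃ t, chk3 f_pm_102_a t 5 1 1 = true := ex3_c k1_pm_102_a k2_pm_102_a

theorem s59_pm_102_a : ∃ t, chk3 f_pm_102_a t 2 1 1 = true := ex3_a k0_pm_102_a s58_pm_102_a

theorem s60_pm_102_a : ∃ t, chk3 f_pm_102_a t 1 1 1 = true := ex3_a s59_pm_102_a s57_pm_102_a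

theorem c_pm_102_a : CertB 536870912 536870912 0 536870912 991146299 28908434 3 eng mog cd0q1 cd2q2a pd0 false true false .npp 1 0 2
    ndB0q1 ndB2q2a pcB0 cut_pm_102_a xt_pm_102_a :=
  certB0 (fam := false) (s1 := true) (s2 := false) (a := 1) (b := 0) (c := 2) (cn := .npp) (n1 := ndB0q1) (n2 := ndB2q2a) (pc := pcB0) (cut := cut_pm_102_a) (xt := xt_pm_102_a) (P1 := 536870912) (W1 := 536870912) (P2 := 0) (W2 := 536870912) (P3 := 991146299) (W3 := 28908434) (N0 := 3) (En := eng) (mo := mog) (C1 := cd0q1) (C2 := cd2q2a) (C3 := pd0)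
    rfl s60_pm_102_a

noncomputable def cut_pm_102_b : Cut := Cut.of [[⟨0, 1, 0, 26843545⟩, ⟨1, 0, 0, 26843545⟩, ⟨2, 1, 0, 26843545⟩], [⟨0, 0, 1, 46137344⟩, ⟨1, 1, 2, 46137344⟩, ⟨2, 1, 0, 2097152⟩, ⟨0, 0, 0, 1027248803⟩, ⟨0, 1, 0, 87939455⟩, ⟨1, 0, 0, 87939455⟩, ⟨1, 1, 0, 1027248803⟩]]

noncomputable def f_pm_102_b : ℕ → ℕ → ℕ → ℕ → Bool := onCell 536870912 536870912 0 536870912 991146299 28908434
    (rowB 3 eng mog cd0q1 cd2q2b pd0 1 false true false .npp 1 0 2 (qsf 536870912 536870912 1239849684 370763052 0) ndB0q1 ndB2q2b pcB0 cut_pm_102_b Ext.none)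

def k0_pm_102_b : ∃ t, chk3 f_pm_102_b t 2 1 1 = true :=
  ⟨(b (l 1) (a (l 1) (b (l 1) (a (b (l 1) (c (a (l 281352886903) (b (l 280279293575) (l 16409544))) (b (a (l 1) (l 282963461623)) (a (l 282963344263) (l 127270815943))))) (a (b (b (l 1) (c (l 280279367159) (l 248067151671))) (b (c (l 16387632) (l 121365363815)) (c (l 16426624) (l 16342576)))) (b (b (c (l 275447635175) (l 286184973015)) (c (l 91300813575) (b (l 136934844727) (l 16434248)))) (b (c (l 16448200) (l 16396296)) (c (l 16402480) (l 16348760))))))))), by decide +kernel⟩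

def k1_pm_102_b : ∃ t, chk3 f_pm_102_b t 3 1 1 = true :=
  ⟨(a (b (l 1) (b (a (b (l 1) (a (b (l 1) (b (l 1) (a (l 1) (l 286185195191)))) (b (a (l 1) (l 301217687943)) (a (b (c (l 286722111335) (l 293701450391)) (c (l 16549904) (l 92911676871))) (b (l 16583368) (l 16554608)))))) (b (b (a (l 1) (b (l 1) (a (l 1) (b (l 1) (l 334503951127))))) (a (b (l 1) (a (l 1) (l 318934589063))) (b (a (l 327524582423) (b (a (l 331819590791) (l 16697704)) (l 16664960))) (a (b (l 149283418343) (l 16662592)) (l 16666456))))) (b (a (a (b (l 309807718343) (l 16593568)) (b (l 148209582791) (l 16615264))) (a (b (l 16642216) (l 16615352)) (b (l 16640688) (l 16615152)))) (a (b (l 16545008) (l 16559320)) (a (l 16554784) (l 16535312)))))) (a (b (a (b (c (b (l 100427794167) (l 16512856)) (b (l 122976361319) (l 16495968))) (c (l 16473432) (l 16455256))) (b (a (c (l 16508072) (l 16474752)) (l 16512608)) (a (c (l 16455088) (l 16461928)) (l 16459032)))) (a (b (c (l 16423920) (l 16403688)) (c (l 16378504) (l 16355824))) (b (a (c (l 16405848) (l 16410352))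 (l 16408464)) (a (l 16340216) (l 16360592))))) (b (a (b (a (l 16516816) (l 16520592)) (l 16424872)) (b (a (l 16524040) (l 16527240)) (l 16433952))) (a (b (l 16416952) (l 16369488)) (b (l 16426928) (l 16379072))))))) (a (b (b (l 1) (l 3)) (b (a (a (b (a (b (b (l 1) (b (l 335040816855) (c (l 16676528) (l 16682408)))) (b (b (l 16690424) (l 16679776)) (l 16662320))) (l 3)) (b (b (l 16612480) (l 16611216)) (b (l 16588656) (l 16565680)))) (l 3)) (l 3)) (b (a (b (a (l 16530136) (l 16475720)) (a (l 16481864) (l 16435072))) (l 3)) (a (b (a (l 16433368) (l 16412832)) (l 16302632)) (b (l 3) (l 278265893671)))))) (l 3))), by decide +kernel⟩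

theorem s2_pm_102_b : ∃ t, chk3 f_pm_102_b t 1 1 1 = true := ex3_a k0_pm_102_b k1_pm_102_b

theorem c_pm_102_b : CertB 536870912 536870912 1239849684 370763052 991146299 28908434 3 eng mog cd0q1 cd2q2b pd0 false true false .npp 1 0 2
    ndB0q1 ndB2q2b pcB0 cut_pm_102_b Ext.none :=
  certB1 (fam := false) (s1 := true) (s2 := false) (a := 1) (b := 0) (c := 2) (cn := .npp) (n1 := ndB0q1) (n2 := ndB2q2b) (pc := pcB0) (cut := cut_pm_102_b) (xt := Ext.none) (P1 := 536870912) (W1 := 536870912) (P2 := 1239849684) (W2 := 370763052) (P3 := 991146299) (W3 := 28908434) (N0 := 3) (En := eng) (mo := mog) (C1 := cd0q1) (C2 := cd2q2b) (C3 := pd0)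
    rfl (fun _ => rfl) s2_pm_102_b

noncomputable def f_pm_112_a : ℕ → ℕ → ℕ → ℕ → Bool := onCell 536870912 536870912 0 536870912 991146299 28908434
    (rowB 3 eng mog cd0q1 cd2q2a pd1 2 false true false .dn 1 1 2 (qsf 536870912 536870912 0 536870912 1) ndB0q1 ndB2q2a pcB1 Cut.none Ext.none)

def k0_pm_112_a : ∃ t, chk3 f_pm_112_a t 1 1 1 = true :=
  ⟨(a (a (b (a (b (a (b (a (l 16115688) (l 16052792)) (a (l 15918168) (l 15863856))) (b (l 15863856) (a (l 15815048) (l 15771864)))) (b (a (b (l 15735504) (a (l 15648112) (b (l 15634288) (l 15614480)))) (b (a (l 15671064) (l 15631512)) (a (l 15616080) (l 15664480)))) (a (a (b (l 15617624) (l 15675000)) (l 15679056)) (c (l 15766512) (l 15693560))))) (b (a (b (l 15876224) (a (l 15733528) (b (l 15742440) (l 15657696)))) (b (l 15807192) (b (a (l 15714336) (l 15709320)) (l 15706080)))) (a (b (a (b (l 15640328) (l 15699624)) (l 15710920)) (l 15667576)) (b (l 15759880) (l 15849688))))) (b (a (b (a (c (l 15823600) (l 15768816)) (c (l 15880056) (l 15832600))) (a (b (l 15908984)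 (l 15989720)) (b (l 15962256) (l 16038904)))) (b (a (c (l 15930304) (l 15889360)) (c (l 15974544) (l 15938960))) (a (b (l 16009088) (l 16081872)) (b (l 16049616) (l 1))))) (a (b (a (b (l 16074696) (l 16016672)) (b (l 16120312) (l 16101456))) (a (b (c (l 16240496) (l 16269896)) (c (l 16071296) (a (l 16087992) (l 16095816)))) (b (c (l 16281160) (l 16311832)) (l 1)))) (b (a (b (l 16160032) (l 1)) (l 1)) (l 1))))) (b (a (b (a (a (b (l 15771352) (l 15741576)) (b (l 15766920) (l 15771584))) (b (l 1) (l 1))) (a (b (l 15819360) (l 15899264)) (l 1))) (l 1)) (b (l 1) (l 1)))) (l 1)), by decide +kernel⟩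

theorem c_pm_112_a : CertB 536870912 536870912 0 536870912 991146299 28908434 3 eng mog cd0q1 cd2q2a pd1 false true false .dn 1 1 2
    ndB0q1 ndB2q2a pcB1 Cut.none Ext.none :=
  certB2 (fam := false) (s1 := true) (s2 := false) (a := 1) (b := 1) (c := 2) (cn := .dn) (n1 := ndB0q1) (n2 := ndB2q2a) (pc := pcB1) (cut := Cut.none) (xt := Ext.none) (P1 := 536870912) (W1 := 536870912) (P2 := 0) (W2 := 536870912) (P3 := 991146299) (W3 := 28908434) (N0 := 3) (En := eng) (mo := mog) (C1 := cd0q1) (C2 := cd2q2a) (C3 := pd1)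
    rfl (fun _ => rfl) k0_pm_112_a

noncomputable def f_pm_112_b : ℕ → ℕ → ℕ → ℕ → Bool := onCell 536870912 536870912 536870912 536870912 991146299 28908434
    (rowB 3 eng mog cd0q1 cd2q2b pd1 1 false true false .dn 1 1 2 (qsf 536870912 536870912 1239849684 370763052 1) ndB0q1 ndB2q2b pcB1 Cut.none Ext.none)

def k0_pm_112_b : ∃ t, chk3 f_pm_112_b t 2 2 1 = true :=
  ⟨(a (b (a (b (l 1) (a (b (l 1) (l 279741333703)) (b (l 282425632327) (l 15878496)))) (b (a (b (l 1) (l 282425676023)) (b (l 281888980951) (l 123512048455))) (a (b (l 15851768) (l 15933344)) (b (l 16035816) (l 16004408))))) (a (b (a (b (l 15803680) (l 15804320)) (b (l 15855912) (l 15828168))) (a (l 15767912) (l 15779656))) (b (a (l 15885472) (l 15942976)) (a (l 15804744) (l 15842392))))) (b (a (b (a (b (a (l 16151312) (l 16211896)) (l 16162408)) (b (l 16270192) (l 16283640))) (a (b (l 16131624) (l 16090856)) (b (l 16242840) (l 16191368)))) (b (a (b (l 16395960) (l 16419248)) (b (l 16530128) (l 16540528))) (a (b (l 16366800) (l 16303360)) (b (l 16496736)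 (l 16421232))))) (a (b (a (l 15972208) (l 15992808)) (a (l 15891664) (l 15951400))) (b (a (l 16002528) (b (l 16336472) (l 16244040))) (b (l 15980256) (l 16009584)))))), by decide +kernel⟩

def k1_pm_112_b : ∃ t, chk3 f_pm_112_b t 3 2 1 = true :=
  ⟨(a (b (a (b (a (b (l 16324464) (l 16391856)) (a (b (l 16309080) (l 16326544)) (b (l 16199384) (l 16180968)))) (a (b (l 16493128) (l 16532384)) (a (b (l 16359528) (l 16405152)) (b (l 16202064) (l 16241664))))) (b (b (a (l 16264224) (a (l 16336272) (l 16372656))) (a (l 16276440) (l 16336864))) (b (a (l 16281800) (l 16330048)) (a (l 16301360) (l 16334760))))) (a (b (a (b (l 16439504) (l 16337480)) (b (l 16156864) (l 16421104))) (a (b (l 16228408) (l 16114408)) (b (l 16305744) (l 16183520)))) (b (a (b (l 16334128) (l 16378232)) (b (l 16349728) (l 16326504))) (a (b (l 16317920) (l 2)) (l 2))))) (b (a (b (a (b (l 16303240) (l 16400128)) (a (b (l 178944697687) (l 211693731111)) (l 3))) (a (b (l 16379104) (l 16338904)) (b (a (l 16226432) (l 16210208)) (l 718969613127)))) (l 3))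 (a (b (a (b (l 16286432) (l 2)) (l 2)) (l 2)) (l 2)))), by decide +kernel⟩

def k2_pm_112_b : ∃ t, chk3 f_pm_112_b t 1 3 1 = true :=
  ⟨(a (a (b (a (b (c (l 15724160) (l 15678248)) (l 15655080)) (b (a (l 15715360) (l 15731976)) (l 15606512))) (a (b (l 15572816) (a (l 15622384) (l 15579176))) (b (a (l 15563464) (l 15538792)) (l 15487768)))) (b (a (b (a (l 15758448) (l 15793792)) (a (l 15629368) (l 15640528))) (b (a (l 15836792) (l 15885904)) (a (l 15658296) (l 2)))) (b (a (a (l 15520952) (l 2)) (l 2)) (l 2)))) (b (a (a (b (a (l 15939064) (l 2)) (l 2)) (l 2)) (l 2)) (l 2))), by decide +kernel⟩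

theorem s3_pm_112_b : ∃ t, chk3 f_pm_112_b t 1 2 1 = true := ex3_a k0_pm_112_b k1_pm_112_b

theorem s4_pm_112_b : ∃ t, chk3 f_pm_112_b t 1 1 1 = true := ex3_b s3_pm_112_b k2_pm_112_b

theorem c_pm_112_b : CertB 536870912 536870912 1239849684 370763052 991146299 28908434 3 eng mog cd0q1 cd2q2b pd1 false true false .dn 1 1 2
    ndB0q1 ndB2q2b pcB1 Cut.none Ext.none :=
  certB1 (fam := false) (s1 := true) (s2 := false) (a := 1) (b := 1) (c := 2) (cn := .dn) (n1 := ndB0q1) (n2 := ndB2q2b) (pc := pcB1) (cut := Cut.none) (xt := Ext.none) (P1 := 536870912) (W1 := 536870912) (P2 := 1239849684) (W2 := 370763052) (P3 := 991146299) (W3 := 28908434) (N0 := 3) (En := eng) (mo := mog) (C1 := cd0q1) (C2 := cd2q2b) (C3 := pd1)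
    rfl (fun _ => rfl) s4_pm_112_b

noncomputable def cut_pm_113 : Cut := Cut.of [[⟨0, 1, 0, 37748736⟩, ⟨1, 1, 0, 37748736⟩, ⟨2, 2, 0, 5242880⟩]]

noncomputable def xt_pm_113 : Ext := extD3 3 ⟨4, 1, 1, 5, 22, 5, 21, 25, 41, 100, 1, 20⟩ eng cd0q1 cd2q3 pd1 false true false .nn 1 1 3 rfl ndB0q1 ndB2q3 pcB1

noncomputable def f_pm_113 : ℕ → ℕ → ℕ → ℕ → Bool := onCell 536870912 536870912 536870912 536870912 991146299 28908434
    (rowB 3 eng mog cd0q1 cd2q3 pd1 1 false true false .nn 1 1 3 (qsf 536870912 536870912 1610612736 536870912 1) ndB0q1 ndB2q3 pcB1 cut_pm_113 xt_pm_113)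

def k0_pm_113 : ∃ t, chk3 f_pm_113 t 1 2 1 = true :=
  ⟨(a (a (l 1) (b (l 1) (a (l 1) (b (l 1) (a (l 1) (b (l 1) (l 16022280))))))) (a (b (a (l 1) (b (l 1) (a (l 1) (b (l 1) (l 92910166247))))) (a (b (a (l 1) (b (l 1) (l 143913103143))) (a (b (l 16218360) (l 16100224)) (b (l 16159952) (l 16171848)))) (b (a (b (l 15828720) (c (l 16025360) (l 16090384))) (b (l 15903408) (l 16012896))) (a (b (a (l 16146360) (l 16148304)) (l 16017096)) (b (l 16162480) (l 16172096)))))) (b (a (b (a (l 1) (a (l 1) (l 3))) (a (b (l 160019180871) (l 15887176)) (b (a (l 157871931143) (l 292760871303)) (a (l 16092824) (l 214377867735))))) (l 3)) (a (b (a (b (l 15961512) (l 16109368)) (b (a (l 16131600) (l 255716810711)) (a (l 16157736) (l 16172896)))) (a (b (l 16178576) (l 16122504)) (b (l 16051272) (c (l 16071728) (l 16051048))))) (a (a (b (b (l 3) (l 290076531751)) (b (l 288466155399) (l 127941208135))) (l 3)) (l 3)))))), by decide +kernel⟩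

def k1_pm_113 : ∃ t, chk3 f_pm_113 t 2 3 1 = true :=
  ⟨(a (b (a (l 1) (b (l 1) (a (l 1) (l 15488432)))) (b (a (a (l 1) (l 15381904)) (a (l 15376080) (l 15377768))) (a (a (l 101498815479) (l 15344544)) (b (l 15326880) (l 15312656))))) (b (a (b (a (l 1) (l 15726520)) (a (l 15515168) (l 15527584))) (a (b (l 89688512631) (l 15587296)) (b (b (l 15908064) (l 15794192)) (b (l 15683296) (l 15578184))))) (b (a (a (l 15385872) (l 15399352)) (b (l 15678024) (l 15619888))) (a (b (l 15360120) (l 15353344)) (b (l 15577368) (a (l 15283360) (l 15282480))))))), by decide +kernel⟩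

def k2_pm_113 : ∃ t, chk3 f_pm_113 t 3 6 1 = true :=
  ⟨(a (a (b (a (b (l 15978032) (l 15854888)) (b (l 16044760) (l 15914488))) (b (a (l 15733944) (l 15785104)) (a (l 15618432) (l 15660528)))) (b (a (b (l 16089112) (l 15964048)) (b (l 16070904) (l 15965608))) (a (b (l 15833992) (l 15703968)) (b (l 15856720) (l 15744696))))) (a (b (b (a (l 15993168) (c (l 16005160) (l 15972888))) (a (l 15948384) (c (l 15944816) (l 15896992)))) (b (a (l 15864072) (a (l 15863776) (l 15859560))) (a (l 15784112) (a (l 15809544) (l 15823192))))) (b (a (b (a (l 15947144) (l 297055643479)) (a (l 15892536) (a (l 15874824) (l 133847069223)))) (l 3)) (a (b (a (l 15934864) (b (l 15843000) (l 15833856))) (a (b (l 15834304) (l 15833136)) (b (l 15832984) (l 15947912)))) (a (a (b (l 3) (b (l 226188766535) (l 130089065047))) (l 3)) (l 3)))))), by decide +kernel⟩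

def k3_pm_113 : ∃ t, chk3 f_pm_113 t 6 7 1 = true :=
  ⟨(b (a (b (a (l 15511840) (l 15544800)) (a (l 15417928) (l 15442208))) (a (b (l 15581344) (l 15473096)) (b (l 15633672) (l 15613144)))) (a (b (a (l 15340920) (l 15357496)) (a (l 15285784) (l 15296272))) (a (b (l 15384064) (l 15320648)) (b (a (l 15415912) (l 15462160)) (a (l 15356344) (l 15398232)))))), by decide +kernel⟩

def k4_pm_113 : ∃ t, chk3 f_pm_113 t 7 14 1 = true :=
  ⟨(a (a (b (l 15710768) (l 15646904)) (b (a (l 15771992) (l 15812952)) (b (l 15793704) (l 15805808)))) (a (b (a (c (l 15918896) (l 15784384)) (b (a (l 15862296) (l 15872816)) (b (l 15898752) (l 15926776)))) (a (c (l 16025616) (l 15838856)) (b (c (l 16075560) (l 15888520)) (c (l 16201728) (l 15974632))))) (a (b (b (a (c (l 15946728) (l 15813160)) (b (l 3) (l 371144120167))) (a (c (l 16022216) (l 15860232)) (c (l 4277760441514434056816859679) (l 242294901111)))) (c (a (l 589148077000902742775839) (b (a (l 16271752) (l 2952784862507091428971698719)) (a (l 16427168) (l 590989580874136541616159))))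 (a (l 576111993548312671198751) (b (l 2681977492049691329306794527) (l 584286495246351718424095))))) (a (a (b (l 3) (b (l 3) (b (c (a (l 2391847370465558828266969119) (l 3)) (l 4393817703255608363269347871)) (c (c (a (l 597631849892552968575007) (l 2275797213314926285626234911)) (l 2517576171061392821591021599)) (a (l 580427378740056560998431) (l 2469212579018137569865291807)))))) (l 3)) (l 3))))), by decide +kernel⟩

def k5_pm_113 : ∃ t, chk3 f_pm_113 t 14 15 1 = true :=
  ⟨(b (a (b (l 15607208) (l 15586056)) (a (l 15773688) (l 136729732365582351))) (a (b (l 15570000) (l 15562576)) (a (l 15832152) (l 138055056532226063)))), by decide +kernel⟩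

def k6_pm_113 : ∃ t, chk3 f_pm_113 t 30 15 1 = true :=
  ⟨(b (a (b (l 16054136) (l 16178432)) (b (c (l 16383464) (l 16105040)) (l 141480036037509199))) (a (l 140354342265176079) (b (l 142285978435125327) (l 141343078339166287)))), by decide +kernel⟩

def k7_pm_113 : ∃ t, chk3 f_pm_113 t 62 30 1 = true :=
  ⟨(c (b (a (l 16567112) (l 600525394638740261836831)) (a (l 16765632) (l 595324709210510720855775))) (b (a (l 16254400) (l 588036372440085900236831)) (a (l 16557680) (l 594397040381002655800863)))), by decide +kernel⟩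

def k8_pm_113 : ∃ t, chk3 f_pm_113 t 126 30 1 = true :=
  ⟨(a (c (c (b (b (b (l 2440214212018074814524955679) (l 1869601929595009158875667487)) (l 603235048404942523767839)) (l 601255049162586230075103)) (b (b (a (l 16604160) (l 1192600716857803067475089439)) (l 603303359004090480827423)) (l 600682623639878258749151))) (b (a (l 590464713359164225067039) (c (b (l 591402038542409646184479) (l 600664033449669168453663)) (l 587054083318160941160479))) (b (l 602239644403635352284767) (l 16749016)))) (b (a (b (b (l 3) (c (c (l 3088198781355296745913293855) (l 3987639496897247850285832223)) (c (l 206325862215) (l 229947700903)))) (c (c (b (a (l 1705188192795027539070278687) (l 2159743323292692202164755487)) (b (l 2449885687605642125675031839) (l 2575614887977098757410090271))) (b (l 2353171162308692457269112031) (l 2478899949069674966161288479))) (c (b (l 2304813126770363538619279455) (l 2459557089262531438942219359)) (b (l 2430534199043516214083545119) (l 2536921413810922269878773791))))) (l 3)) (b (b (a (c (c (l 2217772344715139698921090335)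 (l 602378283317093736557855)) (c (l 602366465876206991944927) (l 600848932398554992388191))) (a (c (b (c (l 2333226831999825062456869151) (l 2139798700861399319777378591)) (c (a (l 2120455887747850163951517983) (l 2197827140203155163764867359)) (l 2381583864784595290994065695))) (c (l 2265526986101380402452037855) (l 2246184172987552726569074783))) (l 3))) (a (c (l 603085889016990042418399) (l 602387795050417374866655)) (c (c (b (a (l 2081770261520230271439569119) (b (l 3) (l 2323555425443036190899650783))) (a (l 16729984) (c (l 2594354809036821565377872095) (l 2545997776252236673267646687)))) (c (b (l 2545997776252091743885066527) (l 2526654963138341308683419871)) (b (l 2507312150024423129258344735) (l 2516983556581424206566506719)))) (c (a (l 2043084635292585777349066975) (b (l 2101113074633909307098530079) (a (l 1791628064812723736283906271) (l 1956041976280279562774937823)))) (c (l 2400926677898320781015843103) (b (l 2381583864784493311313789151) (l 2468626523796803923927040223))))))) (b (c (a (l 16740352) (a (l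 602951861902318704488159) (c (a (l 603182734392315830513375) (b (c (l 2478297930353853173610299615) (l 2458955117240019656570929375)) (l 2178484327089474616319295711))) (b (c (l 2584683402479955384391188703) (l 2575011995923038419713196255)) (l 2130730504565496508388699359))))) (a (l 16741112) (c (a (l 16730096) (c (l 1859327910711202274980905183) (l 1849656504154285104144531679))) (c (l 1946972371402048217507867871) (l 1946972362755137139115584735))))) (c (c (l 602656425714330273820383) (l 602720701089723934633695)) (c (l 602788147001041970736863) (l 602858763448284382129375))))))), by decide +kernel⟩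

def k9_pm_113 : ∃ t, chk3 f_pm_113 t 127 60 1 = true :=
  ⟨(l 3), by decide +kernel⟩

def k10_pm_113 : ∃ t, chk3 f_pm_113 t 508 122 1 = true :=
  ⟨(l 3), by decide +kernel⟩

def k11_pm_113 : ∃ t, chk3 f_pm_113 t 1016 123 1 = true :=
  ⟨(b (b (l 3) (a (c (c (b (c (l 2323555425443188335836872927) (l 138680390615)) (c (l 2604026215593809173690384607) (l 2555669182809224762616496351))) (b (c (l 135996033527) (l 132774808183)) (c (l 2516983556581557041342873823) (l 2478297930353889045191049439)))) (c (c (l 2323555425443202354609602783) (l 2304212612329367669339357407)) (c (l 2284869799215532640471761119) (l 2265526986101697268006617311)))) (l 3))) (c (a (b (c (c (l 2072098854963416111132098783) (l 2033413228735748596016922847)) (c (l 2004399009064997908140638431) (l 1975384789394246945386135775))) (c (l 16754912) (l 16755072))) (b (b (a (c (c (l 2371912458227810061596704991) (l 2313884018886308342247407839)) (c (l 2246184172987889383341703391) (l 2178484327089470012119171295))) (l 3)) (c (b (c (l 2507312150024664472085676255)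 (l 2439612304126245719338631391)) (c (l 2691068874606103431087620319) (l 2613697622150767644942778591))) (b (c (l 2371912458227826622993891551) (l 2313884018886324216449532127)) (c (l 2545997776252348548598038751) (l 2497640743467763175451328735))))) (c (a (b (l 143967681664483551) (l 16753936)) (b (c (l 2662054654935368823572349151) (l 2555669182809281868515000543)) (l 143985411287400671))) (c (c (l 2429940897569381187626156255) (l 2420269491012464085509095647)) (c (l 2410598084455546983392051423) (l 2400926677898629812555530463)))))) (c (a (b (c (l 1965713382837329843269189855) (l 1956041976280412534993830111)) (l 16744784)) (c (b (b (l 2043084635292622817174995167) (b (l 2265526986101738499705110751) (l 2449283710683177527426564319))) (c (l 2391255271341712572999532767) (l 2381583864784795264724058335))) (b (b (l 2014070415621870686190043359) (c (l 2333226832000164605436444895) (l 2323555425443247022283079903))) (a (l 143981631722455263) (c (l 2342898238557120602783449311) (l 2333226832000203088349561055)))))) (b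 (c (a (l 1956041976280411916518752479) (b (l 1985056195951118211607724255) (c (l 2304212612329412337012408543) (a (l 1743271032028231821655933151) (l 1965713382837307990477439199))))) (b (c (l 2352569645113979293332586719) (l 2342898238557061504020791519)) (c (b (l 2507312150024675123604308191) (l 2613697622150777540547231967)) (b (l 2497640743467757403012006111) (l 2604026215593859888674406623))))) (a (l 143999430072811743) (a (c (l 143980807067467999) (l 143979707566801119)) (b (c (c (l 2159141513975680956590784735) (l 2139798700861846202600816863)) (c (a (l 2381583864784775061201027295) (l 2014070415621920507824013535)) (b (l 2236512766431007190728884447) (l 2487969336910865658392330463)))) (c (l 143982937392496863) (l 143981494276980959))))))))), by decide +kernel⟩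

def k12_pm_113 : ∃ t, chk3 f_pm_113 t 1017 123 1 = true :=
  ⟨(a (a (b (l 3) (b (l 3) (b (b (l 3) (a (c (c (c (l 141901632983) (l 135996053047)) (c (l 130627344183) (l 111299988775))) (c (c (l 110763119063) (l 108078765479)) (c (l 1956041976280419887989063903) (c (l 99488831527) (l 97878218727))))) (l 3))) (c (c (c (l 2555669182809299048387739871) (l 2507312150024714156277825759)) (c (l 2429940897569377820376760543) (l 2362241051670958242995470559))) (c (c (l 2313884018886372320092782815) (l 2284869799215620120388042975)) (c (c (l 2265526986101785022801051871) (l 2255855579544867164769779935)) (c (l 2246184172987949238019031263) (l 2236512766431031173829329119)))))))) (l 3)) (l 3)), by decide +kernel⟩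

def k13_pm_113 : ∃ t, chk3 f_pm_113 t 509 61 1 = true :=
  ⟨(l 3), by decide +kernel⟩

def k14_pm_113 : ∃ t, chk3 f_pm_113 t 255 61 1 = true :=
  ⟨(l 3), by decide +kernel⟩

def k15_pm_113 : ∃ t, chk3 f_pm_113 t 62 31 1 = true :=
  ⟨(a (b (l 142878684013199439) (l 142501070378565711)) (b (c (l 142961559710515279) (l 142976952869011535)) (l 142399709157916751))), by decide +kernel⟩

def k16_pm_113 : ∃ t, chk3 f_pm_113 t 126 31 1 = true :=
  ⟨(c (b (a (l 597265797314840622341663) (b (l 602344272202458159165023) (l 16759912))) (b (l 143641057913782351) (l 143351748892655695))) (b (a (l 143076871056982095) (a (l 599628421708156222316063) (b (l 603273526888854358486623) (l 16764056)))) (b (l 143579279102312527) (l 143263581802627151)))), by decide +kernel⟩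

def k17_pm_113 : ∃ t, chk3 f_pm_113 t 508 31 1 = true :=
  ⟨(b (b (b (c (c (a (l 603148146905919631650527) (c (b (a (l 2439612304126332580767826143) (l 2768440127061421625059836127)) (l 2352569645114124428891095263)) (b (a (l 2410598084455581618013946079) (l 2633040435264583020053856479)) (l 2342898238557207326774083807)))) (a (l 603137482381795860246239) (b (c (a (l 2381583864784830380382159071) (l 2516983556581578138245808351)) (a (l 2371912458227912865948319967) (l 2400926677898574218510450911))) (a (l 16754776) (c (l 2197827140203439937340424415) (l 2178484327089605183350489311)))))) (b (a (c (l 144045334671491295) (l 144044510038229215)) (a (c (b (c (l 2439612304126316844009111775) (l 2420269491012481677702365407)) (c (l 146733481463) (l 2633040435264685824393511135))) (c (c (l 2352569645114075981655949535) (l 2342898238557158192344154335)) (c (b (l 2391255271341727760011526367) (l 2613697622150849283697721567)) (b (l 2381583864784809695821824223) (l 2613697622150848459064115423))))) (a (b (l 3) (c (c (l 2149470107418816012566135007)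 (l 2110784481191146504585986271)) (c (b (l 1878670723825128082316493023) (l 2226841359874157090114519263)) (c (l 2062427448406557901624361183) (l 2052756041849639699995705567))))) (l 3)))) (a (l 603339243671971402788575) (c (a (l 144066156675563743) (c (b (l 2342898238557179357948870879) (l 2449283710683295793668341983)) (b (l 2323555425443343916764184799) (l 2429940897569460421203165407)))) (c (b (c (l 2536326369695529921506935007) (l 2526654963138612063475663071)) (l 2526654963138641200539648223)) (c (b (l 2526654963138611170122727647) (l 2536326369695557065707192543)) (b (b (l 2478297930354017825516830943) (l 2604026215593954034377146591)) (l 2545997776252473274471399647)))))))) (a (c (l 16755368) (l 603982862182113803038303)) (c (c (l 144137006471544927) (l 144135975679737951)) (c (b (l 144108556607766751) (l 16772544)) (c (l 144133226901405919) (l 144132196109500639)))))) (c (l 603180716800779719192159) (l 603308979315830759009887))) (b (c (l 16750560) (l 143671844337582159)) (l 143483003150811215))), by decide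 +kernel⟩

def k18_pm_113 : ∃ t, chk3 f_pm_113 t 509 124 1 = true :=
  ⟨(a (a (b (a (a (b (l 3) (b (l 3) (c (c (l 127406133687) (l 2246184172988023867386691807)) (c (c (l 115594974183) (l 111836880087)) (c (l 1975384789394341709570769119) (b (l 3) (l 2120455887748102776817287391))))))) (l 3)) (l 3)) (c (c (b (b (l 2352569645114130544932307167) (l 2691068874606254545244160223)) (l 144128416532283487)) (b (c (l 2429940897569479868813295839) (l 2410598084455644977384734943)) (l 144127248312205407))) (b (b (c (c (l 2236512766431123326662377695) (l 2217169953317287610599784671)) (c (b (l 2072098854963522832506061023) (l 2284869799215712410664567007)) (c (l 2178484327089615628719292639) (b (l 2043084635292768571217903839) (l 2265526986101875320213029087))))) (c (c (l 2604026215593998702045495519) (l 2584683402480163123421872351)) (c (l 2565340589366327269920358623) (c (l 2555669182809408587255906527) (l 2555669182809407419024900319))))) (c (c (l 144125805192708191) (l 144124499522830559)) (b (c (l 153712821895) (l 144108487895400671))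 (l 16768808)))))) (b (l 3) (b (l 3) (b (a (c (c (l 142438530039) (l 2400926677898750758863421535)) (c (c (l 130627369415) (l 128479888391)) (c (l 2284869799215740723095077087) (c (l 2265526986101904869593841887) (l 2255855579544986461806756063))))) (l 3)) (c (c (l 2594354809037111767783342175) (l 2536326369695608330446766175)) (c (c (l 139217306023) (l 2487969336911019658766254303)) (c (l 2458955117240266496989167839) (c (l 2449283710683347676885598431) (l 2439612304126429337817989343))))))))) (l 3)), by decide +kernel⟩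

def k19_pm_113 : ∃ t, chk3 f_pm_113 t 509 125 1 = true :=
  ⟨(b (a (c (b (c (l 144164631710466143) (l 2758768720504747034000064607)) (l 144207512670503007)) (c (a (l 16765560) (c (l 2778111533618590652802957407) (l 2787782940175506311811416159))) (b (c (l 2787782940175493736148484191) (c (l 2797454346732409463876239455) (l 2807125753289325603921461343))) (l 16766768)))) (b (a (c (c (a (l 2207498546760448779979259999) (l 2033413228735875039889637471)) (c (l 2275198392658803486171234399) (l 2255855579544968251144945759))) (c (c (l 2236512766431133359716384863) (b (l 1975384789394376481637695583) (l 2371912458228038485182480479))) (b (a (c (l 2091441668077424656720101471) (b (l 118816217527) (l 2197827140203516215985815647))) (l 3)) (c (l 2352569645114202219364089951) (c (l 2333226832000366228424081503) (l 2323555425443402740660240479)))))) (l 3)) (c (c (a (l 2662054654935588519777943647) (l 2226841359874234605702791263)) (c (l 2507312150024831116855361631) (l 2487969336910995881829072991))) (c (c (a (l 2671726061492502117203574879)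 (l 2149470107418902530410889311)) (b (l 2342898238557241342938284127) (l 2584683402480192741530517599))) (b (c (a (l 2604026215594068589769834591) (l 2197827140203487972285710431)) (a (l 2613697622150983286705635423) (c (l 221895443159) (l 219747956951)))) (c (l 2575011995923273646548893791) (c (l 2565340589366357643943854175) (l 2555669182809438617681461343)))))))) (c (b (c (l 2826468566403138917439045727) (l 2846414503308450636384955999)) (l 603117306261924934561375)) (a (l 604067601812784304516703) (c (c (l 2807125753289297222783139935) (l 2816797159846212744352628831)) (b (c (l 2739425907390856136207450207) (a (l 16777256) (l 2613697622150920820704624735))) (l 16772704)))))), by decide +kernel⟩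

def k20_pm_113 : ∃ t, chk3 f_pm_113 t 509 63 1 = true :=
  ⟨(c (b (a (l 602485505108625339199071) (l 602918139015860284665439)) (l 143663185642356815)) (b (b (l 602974344036791524322911) (l 16763464)) (l 143713144701485135))), by decide +kernel⟩

def k21_pm_113 : ∃ t, chk3 f_pm_113 t 255 62 1 = true :=
  ⟨(a (b (l 3) (a (b (l 3) (a (b (a (b (l 3) (c (c (l 139217321975) (l 134385483799)) (c (l 2342898238557331021868499039) (c (l 127943033543) (l 2275198392658905878210805855))))) (l 3)) (c (c (l 2497640743467939647117328479) (l 2497640743467982802948948063)) (c (l 2507312150024888360194572383) (c (l 2516983556581810753712275551) (l 2526654963138723938819539039))))) (b (l 3) (b (l 3) (c (c (l 257865800087) (l 248738994743)) (c (l 1994727602508284628045086815) (c (l 235854095815) (l 1927027756609860240301572191)))))))) (l 3))) (l 3)), by decide +kernel⟩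

def k22_pm_113 : ∃ t, chk3 f_pm_113 t 255 126 1 = true :=
  ⟨(b (a (a (c (a (l 144071173239160927) (c (l 2575011995923307662697676895) (l 2594354809037141042299076703))) (c (c (l 2749097313947817012635762783) (l 2758768720504732396766265439)) (a (l 144063751536345183) (b (c (l 2420269491012648253758865503) (l 2429940897569562057341239391)) (l 144053993378332767))))) (a (b (b (l 3) (a (b (l 3) (c (l 197736261831) (c (l 193978163415) (l 238001582007)))) (l 3))) (c (c (l 2613697622150997511647035487) (l 2575011995923327316472463455)) (c (l 2526654963138739057108205663) (c (l 2497640743467990430817140831) (l 2478297930354153202926026847))))) (l 3))) (l 3)) (a (a (c (l 603376137131943859433055) (l 603413607089364797533791)) (b (c (a (l 144151437596278879) (c (l 2536326369695661313186906207) (l 2487969336911074084614733919))) (a (c (l 144147451867594847) (l 3135953576224492026362970207)) (b (a (c (l 2362241051671174090926964831) (l 2313884018886584732050980959)) (l 3)) (c (l 2633040435264846902892822623) (l 2594354809037174852292231263)))))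 (c (a (l 16774592) (l 2942525445086189497718734943)) (c (l 3077925136883021368216993887) (l 3126282169667616155932164191))))) (b (l 3) (a (a (b (a (c (l 2207498546760497021079175263) (c (l 243907168327) (l 2072098854963654773941829727))) (l 3)) (c (c (l 2604026215594095046785646687) (l 2555669182809508024371609695)) (c (l 2497640743468001700817223775) (c (l 2468626523797252181172666463) (l 2439612304126498950676332639))))) (l 3)) (l 3))))), by decide +kernel⟩

def k23_pm_113 : ∃ t, chk3 f_pm_113 t 255 127 1 = true :=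
  ⟨(b (a (b (c (l 603671285005993301126751) (l 603569251494204717133407)) (c (l 143999636231454799) (l 144024031645401167))) (a (b (a (c (c (l 3193982015566002335646826591) (l 3155296389338337019554889823)) (c (l 3116610763110672184499945567) (l 3077925136883007967919652959))) (a (b (c (l 3677552343411874002894110815) (c (l 363092509287) (l 365239995639))) (c (l 2720083094277082473850241119) (c (l 2652383248378674784939327583) (l 2594354809037172309675786335)))) (l 3))) (c (a (l 16778432) (b (c (l 2971539664756905207381737567) (a (l 16775592) (l 2584683402480235278909685855))) (c (l 16777480) (l 3445438586045823419911520351)))) (a (l 603905328101458901429855) (c (a (l 144129997121503327) (b (l 2526654963138735896022401119) (l 167671498695))) (b (c (l 2845811379516994149854150751) (l 2816797159846244905087107167)) (l 3368067333590492444134211679)))))) (a (a (b (l 3) (b (l 3) (a (c (b (l 191293817063) (l 169282111319)) (c (l 2623369028707890836837646431) (b (l 198273139367) (l 149417887879)))) (a (c (l 4286850956497616526782840927)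 (c (l 265382005575) (l 3822623441765611155762970719))) (l 3))))) (l 3)) (l 3)))) (a (c (l 143856837147656271) (l 143834159720120399)) (b (a (a (c (l 16766112) (l 16766040)) (b (c (l 16775976) (l 16778536)) (l 6))) (b (b (a (a (a (c (l 16780112) (l 16778856)) (l 6)) (l 6)) (l 3)) (l 6)) (l 6))) (l 6)))), by decide +kernel⟩

theorem s24_pm_113 : ∃ t, chk3 f_pm_113 t 255 63 1 = true := ex3_b k22_pm_113 k23_pm_113

theorem s25_pm_113 : ∃ t, chk3 f_pm_113 t 255 31 1 = true := ex3_b k21_pm_113 s24_pm_113

theorem s26_pm_113 : ∃ t, chk3 f_pm_113 t 509 62 1 = true := ex3_b k18_pm_113 k19_pm_113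

theorem s27_pm_113 : ∃ t, chk3 f_pm_113 t 509 31 1 = true := ex3_b s26_pm_113 k20_pm_113

theorem s28_pm_113 : ∃ t, chk3 f_pm_113 t 254 31 1 = true := ex3_a k17_pm_113 s27_pm_113

theorem s29_pm_113 : ∃ t, chk3 f_pm_113 t 127 31 1 = true := ex3_a s28_pm_113 s25_pm_113

theorem s30_pm_113 : ∃ t, chk3 f_pm_113 t 63 31 1 = true := ex3_a k16_pm_113 s29_pm_113

theorem s31_pm_113 : ∃ t, chk3 f_pm_113 t 31 31 1 = true := ex3_a k15_pm_113 s30_pm_113

theorem s32_pm_113 : ∃ t, chk3 f_pm_113 t 508 123 1 = true := ex3_a k11_pm_113 k12_pm_113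

theorem s33_pm_113 : ∃ t, chk3 f_pm_113 t 508 61 1 = true := ex3_b k10_pm_113 s32_pm_113

theorem s34_pm_113 : ∃ t, chk3 f_pm_113 t 254 61 1 = true := ex3_a s33_pm_113 k13_pm_113

theorem s35_pm_113 : ∃ t, chk3 f_pm_113 t 127 61 1 = true := ex3_a s34_pm_113 k14_pm_113

theorem s36_pm_113 : ∃ t, chk3 f_pm_113 t 127 30 1 = true := ex3_b k9_pm_113 s35_pm_113

theorem s37_pm_113 : ∃ t, chk3 f_pm_113 t 63 30 1 = true := ex3_a k8_pm_113 s36_pm_113

theorem s38_pm_113 : ∃ t, chk3 f_pm_113 t 31 30 1 = true := ex3_a k7_pm_113 s37_pm_113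

theorem s39_pm_113 : ∃ t, chk3 f_pm_113 t 31 15 1 = true := ex3_b s38_pm_113 s31_pm_113

theorem s40_pm_113 : ∃ t, chk3 f_pm_113 t 15 15 1 = true := ex3_a k6_pm_113 s39_pm_113

theorem s41_pm_113 : ∃ t, chk3 f_pm_113 t 7 15 1 = true := ex3_a k5_pm_113 s40_pm_113

theorem s42_pm_113 : ∃ t, chk3 f_pm_113 t 7 7 1 = true := ex3_b k4_pm_113 s41_pm_113

theorem s43_pm_113 : ∃ t, chk3 f_pm_113 t 3 7 1 = true := ex3_a k3_pm_113 s42_pm_113

theorem s44_pm_113 : ∃ t, chk3 f_pm_113 t 3 3 1 = true := ex3_b k2_pm_113 s43_pm_113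

theorem s45_pm_113 : ∃ t, chk3 f_pm_113 t 1 3 1 = true := ex3_a k1_pm_113 s44_pm_113

theorem s46_pm_113 : ∃ t, chk3 f_pm_113 t 1 1 1 = true := ex3_b k0_pm_113 s45_pm_113

theorem c_pm_113 : CertB 536870912 536870912 1610612736 536870912 991146299 28908434 3 eng mog cd0q1 cd2q3 pd1 false true false .nn 1 1 3
    ndB0q1 ndB2q3 pcB1 cut_pm_113 xt_pm_113 :=
  certB1 (fam := false) (s1 := true) (s2 := false) (a := 1) (b := 1) (c := 3) (cn := .nn) (n1 := ndB0q1) (n2 := ndB2q3) (pc := pcB1) (cut := cut_pm_113) (xt := xt_pm_113) (P1 := 536870912) (W1 := 536870912) (P2 := 1610612736) (W2 := 536870912) (P3 := 991146299) (W3 := 28908434) (N0 := 3) (En := eng) (mo := mog) (C1 := cd0q1) (C2 := cd2q3) (C3 := pd1)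
    rfl (fun _ => rfl) s46_pm_113

noncomputable def cut_pm_123 : Cut := Cut.of [[⟨0, 1, 0, 37748736⟩, ⟨1, 1, 0, 37748736⟩, ⟨2, 2, 0, 5242880⟩]]

noncomputable def xt_pm_123 : Ext := extD3 3 ⟨4, 1, 1, 5, 22, 5, 21, 25, 41, 100, 1, 20⟩ eng cd0q1 cd2q3 pd2 false true false .npn 1 2 3 rfl ndB0q1 ndB2q3 pcB2

noncomputable def f_pm_123 : ℕ → ℕ → ℕ → ℕ → Bool := onCell 536870912 536870912 1073741824 536870912 991146299 28908434
    (rowB 3 eng mog cd0q1 cd2q3 pd2 1 false true false .npn 1 2 3 (qsf 536870912 536870912 1610612736 536870912 2) ndB0q1 ndB2q3 pcB2 cut_pm_123 xt_pm_123)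

def k0_pm_123 : ∃ t, chk3 f_pm_123 t 2 2 1 = true :=
  ⟨(a (b (c (b (a (b (a (l 15525792) (l 15493776)) (a (l 15408688) (l 15414152))) (b (a (b (l 15535536) (l 15488448)) (b (l 15534736) (l 15496328))) (a (l 15427696) (l 15448560)))) (a (b (a (l 15311128) (l 15332888)) (l 15250184)) (b (a (l 15362992) (l 15400848)) (l 15342256)))) (b (a (b (a (l 15800688) (l 15777080)) (a (l 15609312) (l 15604416))) (b (a (l 15759912) (l 15748040)) (a (l 15606488) (l 15614576)))) (a (b (l 15448736) (l 15314072)) (b (l 15490512) (l 15392784))))) (b (a (b (a (l 15172496) (l 15223312)) (l 15258480)) (b (l 15127272) (l 15303112))) (a (b (l 15084784) (l 15052872)) (b (l 15263168) (l 15257536))))) (b (b (a (c (b (a (b (l 15539792) (l 15510432)) (b (l 15550104) (l 15530312))) (a (l 15476184) (l 15510368))) (b (a (l 15740408) (l 15736208)) (a (l 15627928) (l 15646080)))) (c (b (a (b (l 15565800) (l 15556272)) (b (l 15587656) (l 15589320))) (a (l 15551680) (l 15601552))) (b (a (l 15734608) (l 15735568)) (a (l 15668848) (l 15697072))))) (a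 (b (a (l 15238984) (l 15285488)) (a (l 15449872) (l 15515960))) (b (c (a (l 15560464) (l 15632456)) (a (l 15625688) (l 15680944))) (a (l 15591368) (l 15678856))))) (b (a (b (a (l 15425464) (l 15510104)) (l 15655160)) (b (a (l 15605688) (l 15715816)) (l 15696440))) (a (b (l 15435552) (l 15498656)) (b (l 15741976) (a (l 15710632) (l 15859224))))))), by decide +kernel⟩

def k1_pm_123 : ∃ t, chk3 f_pm_123 t 2 3 1 = true :=
  ⟨(a (b (a (b (b (l 15035600) (l 15031520)) (c (l 15171152) (l 14923608))) (b (b (l 15263528) (l 15279232)) (b (l 15302416) (a (l 15256992) (l 15398280))))) (a (b (b (l 15080504) (a (l 15039064) (l 15178016))) (b (l 15157336) (l 15228536))) (b (b (l 15366088) (l 15422584)) (a (l 15453080) (l 2))))) (b (a (b (b (l 15527632) (a (l 15484664) (l 15628040))) (a (b (l 15512480) (l 15548024)) (l 67206754311))) (b (b (a (l 15743968) (l 15879368)) (a (l 15768832) (l 15924600))) (a (l 15646200) (l 2)))) (a (b (a (l 15649208) (l 2)) (l 2)) (l 2)))), by decide +kernel⟩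

def k2_pm_123 : ∃ t, chk3 f_pm_123 t 6 2 1 = true :=
  ⟨(b (b (a (c (b (a (b (l 15617392) (l 15631568)) (b (l 15659000) (l 15687600))) (a (l 15662728) (l 15740792))) (b (a (l 15740848) (l 15754712)) (a (l 15733616) (l 15784112)))) (b (c (a (b (l 15721688) (l 15767248)) (b (l 15825424) (l 15890752))) (a (l 15995088) (b (l 15822480) (l 15877368)))) (a (c (l 15846792) (l 15858712)) (c (l 16001736) (l 15976208))))) (a (b (a (l 15941848) (l 15913776)) (a (l 15783488) (l 15914064))) (b (a (l 16065736) (b (l 16105392) (l 16189432))) (a (l 16085424) (b (l 16276544) (l 16286048)))))) (a (b (b (a (l 15846768) (l 16009072)) (a (l 15918888) (l 16082992))) (b (a (l 15972648) (l 16094152)) (a (l 15988288) (l 16133400)))) (b (b (a (b (l 16185048) (l 16187440)) (l 16206104)) (a (l 16195336) (l 16325864))) (a (b (l 16232208) (l 2)) (l 2))))), by decide +kernel⟩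

def k3_pm_123 : ∃ t, chk3 f_pm_123 t 7 2 1 = true :=
  ⟨(b (b (b (a (b (a (c (l 16015264) (l 15941008)) (l 140123513239552015)) (a (b (l 16039096) (l 16084568)) (l 140098018511388687))) (a (a (b (l 140880733536157711) (c (l 16518464) (l 16576520))) (a (b (l 142243715833774159) (l 16584704)) (b (l 142290719988580559) (a (l 16642136) (l 16562288))))) (a (b (a (l 142163863829839951) (b (l 142866108269641807) (l 142316489891725391))) (a (b (l 142012681031598159) (l 16637704)) (b (l 142376550683000911) (l 16652944)))) (b (b (b (a (l 143188265195896911) (a (a (l 143664560019488847) (l 143530213417140303)) (l 6))) (a (a (l 16694864) (l 143363431230652495)) (a (l 6) (a (a (l 873052678423) (l 2)) (l 2))))) (a (a (l 143012755657392207) (l 142934071883612239)) (a (b (l 871978882183) (l 2)) (l 2)))) (a (a (b (l 16689984) (l 2)) (l 2)) (l 2)))))) (a (a (c (l 16245320) (l 16172568)) (b (c (l 16451608) (l 16449168)) (a (l 16447552) (a (l 16465312) (l 16455192))))) (a (a (b (a (l 16526696) (l 16536632)) (c (l 16570488) (l 16587728)))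 (b (c (a (l 16619112) (l 16684216)) (l 16558728)) (l 746350742215))) (a (b (a (l 800038005911) (l 2)) (l 2)) (l 2))))) (a (b (a (b (l 16367888) (a (l 16360120) (l 16392800))) (a (b (l 16432864) (l 16445208)) (b (c (l 16489152) (l 16526296)) (l 16512152)))) (a (b (l 16353240) (l 16219616)) (a (b (l 16474712) (l 2)) (l 2)))) (a (b (a (a (l 16508264) (l 2)) (l 2)) (l 2)) (l 2)))) (a (b (b (a (b (l 742055030951) (l 2)) (l 2)) (l 2)) (l 2)) (l 2))), by decide +kernel⟩

def k4_pm_123 : ∃ t, chk3 f_pm_123 t 3 3 1 = true :=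
  ⟨(a (b (a (b (a (b (l 16030312) (l 2)) (l 2)) (l 2)) (l 2)) (l 2)) (l 2)), by decide +kernel⟩

theorem s5_pm_123 : ∃ t, chk3 f_pm_123 t 3 2 1 = true := ex3_a k2_pm_123 k3_pm_123

theorem s6_pm_123 : ∃ t, chk3 f_pm_123 t 3 1 1 = true := ex3_b s5_pm_123 k4_pm_123

theorem s7_pm_123 : ∃ t, chk3 f_pm_123 t 2 1 1 = true := ex3_b k0_pm_123 k1_pm_123

theorem s8_pm_123 : ∃ t, chk3 f_pm_123 t 1 1 1 = true := ex3_a s7_pm_123 s6_pm_123

theorem c_pm_123 : CertB 536870912 536870912 1610612736 536870912 991146299 28908434 3 eng mog cd0q1 cd2q3 pd2 false true false .npn 1 2 3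
    ndB0q1 ndB2q3 pcB2 cut_pm_123 xt_pm_123 :=
  certB1 (fam := false) (s1 := true) (s2 := false) (a := 1) (b := 2) (c := 3) (cn := .npn) (n1 := ndB0q1) (n2 := ndB2q3) (pc := pcB2) (cut := cut_pm_123) (xt := xt_pm_123) (P1 := 536870912) (W1 := 536870912) (P2 := 1610612736) (W2 := 536870912) (P3 := 991146299) (W3 := 28908434) (N0 := 3) (En := eng) (mo := mog) (C1 := cd0q1) (C2 := cd2q3) (C3 := pd2)
    rfl (fun _ => rfl) s8_pm_123

noncomputable def f_pm_133 : ℕ → ℕ → ℕ → ℕ → Bool := onCell 536870912 536870912 1610612736 536870912 991146299 28908434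
    (rowB 3 eng mog cd0q1 cd2q3 pd3 0 false true false .dn 1 3 3 (qsf 536870912 536870912 1610612736 536870912 3) ndB0q1 ndB2q3 pcB3 Cut.none Ext.none)

def k0_pm_133 : ∃ t, chk3 f_pm_133 t 1 1 1 = true :=
  ⟨(a (b (l 1) (a (b (l 1) (b (l 1) (a (l 15896488) (l 1)))) (l 1))) (l 1)), by decide +kernel⟩

theorem c_pm_133 : CertB 536870912 536870912 1610612736 536870912 991146299 28908434 3 eng mog cd0q1 cd2q3 pd3 false true false .dn 1 3 3
    ndB0q1 ndB2q3 pcB3 Cut.none Ext.none :=
  certB0 (fam := false) (s1 := true) (s2 := false) (a := 1) (b := 3) (c := 3) (cn := .dn) (n1 := ndB0q1) (n2 := ndB2q3) (pc := pcB3) (cut := Cut.none) (xt := Ext.none) (P1 := 536870912) (W1 := 536870912) (P2 := 1610612736) (W2 := 536870912) (P3 := 991146299) (W3 := 28908434) (N0 := 3) (En := eng) (mo := mog) (C1 := cd0q1) (C2 := cd2q3) (C3 := pd3)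
    rfl k0_pm_133

noncomputable def cut_pm_202_a : Cut := Cut.of [[⟨0, 1, 0, 53687091⟩, ⟨1, 0, 0, 53687091⟩, ⟨2, 1, 0, 53687091⟩]]

noncomputable def f_pm_202_a : ℕ → ℕ → ℕ → ℕ → Bool := onCell 0 536870912 0 536870912 991146299 28908434
    (rowB 3 eng mog cd0q2 cd2q2a pd0 0 false true false .pp 2 0 2 (qsf 0 536870912 0 536870912 0) ndB0q2 ndB2q2a pcB0 cut_pm_202_a Ext.none)

def k0_pm_202_a : ∃ t, chk3 f_pm_202_a t 1 1 1 = true :=
  ⟨(a (l 3) (b (l 3) (a (l 3) (b (l 3) (a (l 3) (b (l 3) (l 6))))))), by decide +kernel⟩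

theorem c_pm_202_a : CertB 0 536870912 0 536870912 991146299 28908434 3 eng mog cd0q2 cd2q2a pd0 false true false .pp 2 0 2
    ndB0q2 ndB2q2a pcB0 cut_pm_202_a Ext.none :=
  certB0 (fam := false) (s1 := true) (s2 := false) (a := 2) (b := 0) (c := 2) (cn := .pp) (n1 := ndB0q2) (n2 := ndB2q2a) (pc := pcB0) (cut := cut_pm_202_a) (xt := Ext.none) (P1 := 0) (W1 := 536870912) (P2 := 0) (W2 := 536870912) (P3 := 991146299) (W3 := 28908434) (N0 := 3) (En := eng) (mo := mog) (C1 := cd0q2) (C2 := cd2q2a) (C3 := pd0)
    rfl k0_pm_202_a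

noncomputable def cut_pm_202_b : Cut := Cut.of [[⟨0, 1, 0, 53687091⟩, ⟨1, 0, 0, 53687091⟩, ⟨2, 1, 0, 53687091⟩]]

noncomputable def f_pm_202_b : ℕ → ℕ → ℕ → ℕ → Bool := onCell 0 536870912 1239849684 370763052 991146299 28908434
    (rowB 3 eng mog cd0q2 cd2q2b pd0 0 false true false .pp 2 0 2 (qsf 0 536870912 1239849684 370763052 0) ndB0q2 ndB2q2b pcB0 cut_pm_202_b Ext.none)

def k0_pm_202_b : ∃ t, chk3 f_pm_202_b t 1 1 1 = true :=
  ⟨(l 3), by decide +kernel⟩

theorem c_pm_202_b : CertB 0 536870912 1239849684 370763052 991146299 28908434 3 eng mog cd0q2 cd2q2b pd0 false true false .pp 2 0 2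
    ndB0q2 ndB2q2b pcB0 cut_pm_202_b Ext.none :=
  certB0 (fam := false) (s1 := true) (s2 := false) (a := 2) (b := 0) (c := 2) (cn := .pp) (n1 := ndB0q2) (n2 := ndB2q2b) (pc := pcB0) (cut := cut_pm_202_b) (xt := Ext.none) (P1 := 0) (W1 := 536870912) (P2 := 1239849684) (W2 := 370763052) (P3 := 991146299) (W3 := 28908434) (N0 := 3) (En := eng) (mo := mog) (C1 := cd0q2) (C2 := cd2q2b) (C3 := pd0)
    rfl k0_pm_202_b

noncomputable def f_pm_203 : ℕ → ℕ → ℕ → ℕ → Bool := onCell 0 536870912 0 536870912 991146299 28908434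
    (rowB 3 eng mog cd0q2 cd2q3 pd0 1 false true false .up 2 0 3 (qsf 0 536870912 1610612736 536870912 0) ndB0q2 ndB2q3 pcB0 Cut.none Ext.none)

def k0_pm_203 : ∃ t, chk3 f_pm_203 t 1 1 1 = true :=
  ⟨(l 3), by decide +kernel⟩

theorem c_pm_203 : CertB 0 536870912 1610612736 536870912 991146299 28908434 3 eng mog cd0q2 cd2q3 pd0 false true false .up 2 0 3
    ndB0q2 ndB2q3 pcB0 Cut.none Ext.none :=
  certB1 (fam := false) (s1 := true) (s2 := false) (a := 2) (b := 0) (c := 3) (cn := .up) (n1 := ndB0q2) (n2 := ndB2q3) (pc := pcB0) (cut := Cut.none) (xt := Ext.none) (P1 := 0) (W1 := 536870912) (P2 := 1610612736) (W2 := 536870912) (P3 := 991146299) (W3 := 28908434) (N0 := 3) (En := eng) (mo := mog) (C1 := cd0q2) (C2 := cd2q3) (C3 := pd0)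
    rfl (fun _ => rfl) k0_pm_203

noncomputable def cut_pm_213 : Cut := Cut.of [[⟨0, 1, 0, 37748736⟩, ⟨1, 1, 0, 37748736⟩, ⟨2, 2, 0, 5242880⟩]]

noncomputable def f_pm_213 : ℕ → ℕ → ℕ → ℕ → Bool := onCell 0 536870912 1610612736 536870912 991146299 28908434
    (rowB 3 eng mog cd0q2 cd2q3 pd1 0 false true false .pnn 2 1 3 (qsf 0 536870912 1610612736 536870912 1) ndB0q2 ndB2q3 pcB1 cut_pm_213 Ext.none)

def k0_pm_213 : ∃ t, chk3 f_pm_213 t 1 1 1 = true :=
  ⟨(b (l 3) (a (l 3) (b (l 3) (a (l 3) (b (l 3) (a (l 3) (b (l 3) (b (l 3) (a (l 3) (b (l 3) (b (l 3) (l 6)))))))))))), by decide +kernel⟩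

theorem c_pm_213 : CertB 0 536870912 1610612736 536870912 991146299 28908434 3 eng mog cd0q2 cd2q3 pd1 false true false .pnn 2 1 3
    ndB0q2 ndB2q3 pcB1 cut_pm_213 Ext.none :=
  certB0 (fam := false) (s1 := true) (s2 := false) (a := 2) (b := 1) (c := 3) (cn := .pnn) (n1 := ndB0q2) (n2 := ndB2q3) (pc := pcB1) (cut := cut_pm_213) (xt := Ext.none) (P1 := 0) (W1 := 536870912) (P2 := 1610612736) (W2 := 536870912) (P3 := 991146299) (W3 := 28908434) (N0 := 3) (En := eng) (mo := mog) (C1 := cd0q2) (C2 := cd2q3) (C3 := pd1)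
    rfl k0_pm_213

noncomputable def f_mm_001 : ℕ → ℕ → ℕ → ℕ → Bool := onCell 0 536870912 536870912 536870912 991146299 28908434
    (rowB 3 eng mog cd0q0 cd2q1 pd0 0 false false false .up 0 0 1 (qsf 0 536870912 536870912 536870912 0) ndB0q0 ndB2q1 pcB0 Cut.none Ext.none)

def k0_mm_001 : ∃ t, chk3 f_mm_001 t 1 1 1 = true :=
  ⟨(l 3), by decide +kernel⟩

theorem c_mm_001 : CertB 0 536870912 536870912 536870912 991146299 28908434 3 eng mog cd0q0 cd2q1 pd0 false false false .up 0 0 1
    ndB0q0 ndB2q1 pcB0 Cut.none Ext.none :=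
  certB0 (fam := false) (s1 := false) (s2 := false) (a := 0) (b := 0) (c := 1) (cn := .up) (n1 := ndB0q0) (n2 := ndB2q1) (pc := pcB0) (cut := Cut.none) (xt := Ext.none) (P1 := 0) (W1 := 536870912) (P2 := 536870912) (W2 := 536870912) (P3 := 991146299) (W3 := 28908434) (N0 := 3) (En := eng) (mo := mog) (C1 := cd0q0) (C2 := cd2q1) (C3 := pd0)
    rfl k0_mm_001

noncomputable def f_mm_011 : ℕ → ℕ → ℕ → ℕ → Bool := onCell 0 536870912 536870912 536870912 991146299 28908434
    (rowB 3 eng mog cd0q0 cd2q1 pd1 0 false false false .pnn 0 1 1 (qsf 0 536870912 536870912 536870912 1) ndB0q0 ndB2q1 pcB1 Cut.none Ext.none)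

def k0_mm_011 : ∃ t, chk3 f_mm_011 t 1 1 1 = true :=
  ⟨(l 3), by decide +kernel⟩

theorem c_mm_011 : CertB 0 536870912 536870912 536870912 991146299 28908434 3 eng mog cd0q0 cd2q1 pd1 false false false .pnn 0 1 1
    ndB0q0 ndB2q1 pcB1 Cut.none Ext.none :=
  certB0 (fam := false) (s1 := false) (s2 := false) (a := 0) (b := 1) (c := 1) (cn := .pnn) (n1 := ndB0q0) (n2 := ndB2q1) (pc := pcB1) (cut := Cut.none) (xt := Ext.none) (P1 := 0) (W1 := 536870912) (P2 := 536870912) (W2 := 536870912) (P3 := 991146299) (W3 := 28908434) (N0 := 3) (En := eng) (mo := mog) (C1 := cd0q0) (C2 := cd2q1) (C3 := pd1)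
    rfl k0_mm_011

noncomputable def f_mm_012_a : ℕ → ℕ → ℕ → ℕ → Bool := onCell 0 536870912 0 536870912 991146299 28908434
    (rowB 3 eng mog cd0q0 cd2q2a pd1 0 false false false .pnp 0 1 2 (qsf 0 536870912 0 536870912 1) ndB0q0 ndB2q2a pcB1 Cut.none Ext.none)

def k0_mm_012_a : ∃ t, chk3 f_mm_012_a t 1 1 1 = true :=
  ⟨(l 5), by decide +kernel⟩

theorem c_mm_012_a : CertB 0 536870912 0 536870912 991146299 28908434 3 eng mog cd0q0 cd2q2a pd1 false false false .pnp 0 1 2
    ndB0q0 ndB2q2a pcB1 Cut.none Ext.none :=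
  certB0 (fam := false) (s1 := false) (s2 := false) (a := 0) (b := 1) (c := 2) (cn := .pnp) (n1 := ndB0q0) (n2 := ndB2q2a) (pc := pcB1) (cut := Cut.none) (xt := Ext.none) (P1 := 0) (W1 := 536870912) (P2 := 0) (W2 := 536870912) (P3 := 991146299) (W3 := 28908434) (N0 := 3) (En := eng) (mo := mog) (C1 := cd0q0) (C2 := cd2q2a) (C3 := pd1)
    rfl k0_mm_012_a

noncomputable def f_mm_012_b : ℕ → ℕ → ℕ → ℕ → Bool := onCell 0 536870912 1239849684 370763052 991146299 28908434
    (rowB 3 eng mog cd0q0 cd2q2b pd1 0 false false false .pnp 0 1 2 (qsf 0 536870912 1239849684 370763052 1) ndB0q0 ndB2q2b pcB1 Cut.none Ext.none)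

def k0_mm_012_b : ∃ t, chk3 f_mm_012_b t 1 1 1 = true :=
  ⟨(l 5), by decide +kernel⟩

theorem c_mm_012_b : CertB 0 536870912 1239849684 370763052 991146299 28908434 3 eng mog cd0q0 cd2q2b pd1 false false false .pnp 0 1 2
    ndB0q0 ndB2q2b pcB1 Cut.none Ext.none :=
  certB0 (fam := false) (s1 := false) (s2 := false) (a := 0) (b := 1) (c := 2) (cn := .pnp) (n1 := ndB0q0) (n2 := ndB2q2b) (pc := pcB1) (cut := Cut.none) (xt := Ext.none) (P1 := 0) (W1 := 536870912) (P2 := 1239849684) (W2 := 370763052) (P3 := 991146299) (W3 := 28908434) (N0 := 3) (En := eng) (mo := mog) (C1 := cd0q0) (C2 := cd2q2b) (C3 := pd1)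
    rfl k0_mm_012_b

noncomputable def f_mm_022_a : ℕ → ℕ → ℕ → ℕ → Bool := onCell 0 536870912 0 536870912 991146299 28908434
    (rowB 3 eng mog cd0q0 cd2q2a pd2 0 false false false .pp 0 2 2 (qsf 0 536870912 0 536870912 2) ndB0q0 ndB2q2a pcB2 Cut.none Ext.none)

def k0_mm_022_a : ∃ t, chk3 f_mm_022_a t 1 1 1 = true :=
  ⟨(l 5), by decide +kernel⟩

theorem c_mm_022_a : CertB 0 536870912 0 536870912 991146299 28908434 3 eng mog cd0q0 cd2q2a pd2 false false false .pp 0 2 2
    ndB0q0 ndB2q2a pcB2 Cut.none Ext.none :=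
  certB0 (fam := false) (s1 := false) (s2 := false) (a := 0) (b := 2) (c := 2) (cn := .pp) (n1 := ndB0q0) (n2 := ndB2q2a) (pc := pcB2) (cut := Cut.none) (xt := Ext.none) (P1 := 0) (W1 := 536870912) (P2 := 0) (W2 := 536870912) (P3 := 991146299) (W3 := 28908434) (N0 := 3) (En := eng) (mo := mog) (C1 := cd0q0) (C2 := cd2q2a) (C3 := pd2)
    rfl k0_mm_022_a

noncomputable def f_mm_022_b : ℕ → ℕ → ℕ → ℕ → Bool := onCell 0 536870912 1239849684 370763052 991146299 28908434
    (rowB 3 eng mog cd0q0 cd2q2b pd2 0 false false false .pp 0 2 2 (qsf 0 536870912 1239849684 370763052 2) ndB0q0 ndB2q2b pcB2 Cut.none Ext.none)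

def k0_mm_022_b : ∃ t, chk3 f_mm_022_b t 1 1 1 = true :=
  ⟨(l 5), by decide +kernel⟩

theorem c_mm_022_b : CertB 0 536870912 1239849684 370763052 991146299 28908434 3 eng mog cd0q0 cd2q2b pd2 false false false .pp 0 2 2
    ndB0q0 ndB2q2b pcB2 Cut.none Ext.none :=
  certB0 (fam := false) (s1 := false) (s2 := false) (a := 0) (b := 2) (c := 2) (cn := .pp) (n1 := ndB0q0) (n2 := ndB2q2b) (pc := pcB2) (cut := Cut.none) (xt := Ext.none) (P1 := 0) (W1 := 536870912) (P2 := 1239849684) (W2 := 370763052) (P3 := 991146299) (W3 := 28908434) (N0 := 3) (En := eng) (mo := mog) (C1 := cd0q0) (C2 := cd2q2b) (C3 := pd2)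
    rfl k0_mm_022_b

noncomputable def f_mm_023 : ℕ → ℕ → ℕ → ℕ → Bool := onCell 0 536870912 1610612736 536870912 991146299 28908434
    (rowB 3 eng mog cd0q0 cd2q3 pd2 0 false false false .up 0 2 3 (qsf 0 536870912 1610612736 536870912 2) ndB0q0 ndB2q3 pcB2 Cut.none Ext.none)

def k0_mm_023 : ∃ t, chk3 f_mm_023 t 1 1 1 = true :=
  ⟨(l 5), by decide +kernel⟩

theorem c_mm_023 : CertB 0 536870912 1610612736 536870912 991146299 28908434 3 eng mog cd0q0 cd2q3 pd2 false false false .up 0 2 3
    ndB0q0 ndB2q3 pcB2 Cut.none Ext.none :=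
  certB0 (fam := false) (s1 := false) (s2 := false) (a := 0) (b := 2) (c := 3) (cn := .up) (n1 := ndB0q0) (n2 := ndB2q3) (pc := pcB2) (cut := Cut.none) (xt := Ext.none) (P1 := 0) (W1 := 536870912) (P2 := 1610612736) (W2 := 536870912) (P3 := 991146299) (W3 := 28908434) (N0 := 3) (En := eng) (mo := mog) (C1 := cd0q0) (C2 := cd2q3) (C3 := pd2)
    rfl k0_mm_023

noncomputable def f_mm_033 : ℕ → ℕ → ℕ → ℕ → Bool := onCell 0 536870912 1610612736 536870912 991146299 28908434
    (rowB 3 eng mog cd0q0 cd2q3 pd3 0 false false false .pnn 0 3 3 (qsf 0 536870912 1610612736 536870912 3) ndB0q0 ndB2q3 pcB3 Cut.none Ext.none)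

def k0_mm_033 : ∃ t, chk3 f_mm_033 t 1 1 1 = true :=
  ⟨(l 5), by decide +kernel⟩

theorem c_mm_033 : CertB 0 536870912 1610612736 536870912 991146299 28908434 3 eng mog cd0q0 cd2q3 pd3 false false false .pnn 0 3 3
    ndB0q0 ndB2q3 pcB3 Cut.none Ext.none :=
  certB0 (fam := false) (s1 := false) (s2 := false) (a := 0) (b := 3) (c := 3) (cn := .pnn) (n1 := ndB0q0) (n2 := ndB2q3) (pc := pcB3) (cut := Cut.none) (xt := Ext.none) (P1 := 0) (W1 := 536870912) (P2 := 1610612736) (W2 := 536870912) (P3 := 991146299) (W3 := 28908434) (N0 := 3) (En := eng) (mo := mog) (C1 := cd0q0) (C2 := cd2q3) (C3 := pd3)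
    rfl k0_mm_033

noncomputable def f_mm_101 : ℕ → ℕ → ℕ → ℕ → Bool := onCell 536870912 536870912 536870912 536870912 991146299 28908434
    (rowB 3 eng mog cd0q1 cd2q1 pd0 0 false false false .npn 1 0 1 (qsf 536870912 536870912 536870912 536870912 0) ndB0q1 ndB2q1 pcB0 Cut.none Ext.none)

def k0_mm_101 : ∃ t, chk3 f_mm_101 t 1 1 1 = true :=
  ⟨(l 3), by decide +kernel⟩

theorem c_mm_101 : CertB 536870912 536870912 536870912 536870912 991146299 28908434 3 eng mog cd0q1 cd2q1 pd0 false false false .npn 1 0 1
    ndB0q1 ndB2q1 pcB0 Cut.none Ext.none :=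
  certB0 (fam := false) (s1 := false) (s2 := false) (a := 1) (b := 0) (c := 1) (cn := .npn) (n1 := ndB0q1) (n2 := ndB2q1) (pc := pcB0) (cut := Cut.none) (xt := Ext.none) (P1 := 536870912) (W1 := 536870912) (P2 := 536870912) (W2 := 536870912) (P3 := 991146299) (W3 := 28908434) (N0 := 3) (En := eng) (mo := mog) (C1 := cd0q1) (C2 := cd2q1) (C3 := pd0)
    rfl k0_mm_101

noncomputable def f_mm_102_a : ℕ → ℕ → ℕ → ℕ → Bool := onCell 536870912 536870912 0 536870912 991146299 28908434
    (rowB 3 eng mog cd0q1 cd2q2a pd0 0 false false false .npp 1 0 2 (qsf 536870912 536870912 0 536870912 0) ndB0q1 ndB2q2a pcB0 Cut.none Ext.none)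

def k0_mm_102_a : ∃ t, chk3 f_mm_102_a t 1 1 1 = true :=
  ⟨(l 3), by decide +kernel⟩

theorem c_mm_102_a : CertB 536870912 536870912 0 536870912 991146299 28908434 3 eng mog cd0q1 cd2q2a pd0 false false false .npp 1 0 2
    ndB0q1 ndB2q2a pcB0 Cut.none Ext.none :=
  certB0 (fam := false) (s1 := false) (s2 := false) (a := 1) (b := 0) (c := 2) (cn := .npp) (n1 := ndB0q1) (n2 := ndB2q2a) (pc := pcB0) (cut := Cut.none) (xt := Ext.none) (P1 := 536870912) (W1 := 536870912) (P2 := 0) (W2 := 536870912) (P3 := 991146299) (W3 := 28908434) (N0 := 3) (En := eng) (mo := mog) (C1 := cd0q1) (C2 := cd2q2a) (C3 := pd0)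
    rfl k0_mm_102_a

noncomputable def f_mm_102_b : ℕ → ℕ → ℕ → ℕ → Bool := onCell 536870912 536870912 1239849684 370763052 991146299 28908434
    (rowB 3 eng mog cd0q1 cd2q2b pd0 0 false false false .npp 1 0 2 (qsf 536870912 536870912 1239849684 370763052 0) ndB0q1 ndB2q2b pcB0 Cut.none Ext.none)

def k0_mm_102_b : ∃ t, chk3 f_mm_102_b t 1 1 1 = true :=
  ⟨(l 5), by decide +kernel⟩

theorem c_mm_102_b : CertB 536870912 536870912 1239849684 370763052 991146299 28908434 3 eng mog cd0q1 cd2q2b pd0 false false false .npp 1 0 2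
    ndB0q1 ndB2q2b pcB0 Cut.none Ext.none :=
  certB0 (fam := false) (s1 := false) (s2 := false) (a := 1) (b := 0) (c := 2) (cn := .npp) (n1 := ndB0q1) (n2 := ndB2q2b) (pc := pcB0) (cut := Cut.none) (xt := Ext.none) (P1 := 536870912) (W1 := 536870912) (P2 := 1239849684) (W2 := 370763052) (P3 := 991146299) (W3 := 28908434) (N0 := 3) (En := eng) (mo := mog) (C1 := cd0q1) (C2 := cd2q2b) (C3 := pd0)
    rfl k0_mm_102_b

noncomputable def f_mm_112_a : ℕ → ℕ → ℕ → ℕ → Bool := onCell 536870912 536870912 0 536870912 991146299 28908434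
    (rowB 3 eng mog cd0q1 cd2q2a pd1 0 false false false .dn 1 1 2 (qsf 536870912 536870912 0 536870912 1) ndB0q1 ndB2q2a pcB1 Cut.none Ext.none)

def k0_mm_112_a : ∃ t, chk3 f_mm_112_a t 1 1 1 = true :=
  ⟨(l 3), by decide +kernel⟩

theorem c_mm_112_a : CertB 536870912 536870912 0 536870912 991146299 28908434 3 eng mog cd0q1 cd2q2a pd1 false false false .dn 1 1 2
    ndB0q1 ndB2q2a pcB1 Cut.none Ext.none :=
  certB0 (fam := false) (s1 := false) (s2 := false) (a := 1) (b := 1) (c := 2) (cn := .dn) (n1 := ndB0q1) (n2 := ndB2q2a) (pc := pcB1) (cut := Cut.none) (xt := Ext.none) (P1 := 536870912) (W1 := 536870912) (P2 := 0) (W2 := 536870912) (P3 := 991146299) (W3 := 28908434) (N0 := 3) (En := eng) (mo := mog) (C1 := cd0q1) (C2 := cd2q2a) (C3 := pd1)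
    rfl k0_mm_112_a

noncomputable def f_mm_112_b : ℕ → ℕ → ℕ → ℕ → Bool := onCell 536870912 536870912 1239849684 370763052 991146299 28908434
    (rowB 3 eng mog cd0q1 cd2q2b pd1 0 false false false .dn 1 1 2 (qsf 536870912 536870912 1239849684 370763052 1) ndB0q1 ndB2q2b pcB1 Cut.none Ext.none)

def k0_mm_112_b : ∃ t, chk3 f_mm_112_b t 1 1 1 = true :=
  ⟨(l 5), by decide +kernel⟩

theorem c_mm_112_b : CertB 536870912 536870912 1239849684 370763052 991146299 28908434 3 eng mog cd0q1 cd2q2b pd1 false false false .dn 1 1 2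
    ndB0q1 ndB2q2b pcB1 Cut.none Ext.none :=
  certB0 (fam := false) (s1 := false) (s2 := false) (a := 1) (b := 1) (c := 2) (cn := .dn) (n1 := ndB0q1) (n2 := ndB2q2b) (pc := pcB1) (cut := Cut.none) (xt := Ext.none) (P1 := 536870912) (W1 := 536870912) (P2 := 1239849684) (W2 := 370763052) (P3 := 991146299) (W3 := 28908434) (N0 := 3) (En := eng) (mo := mog) (C1 := cd0q1) (C2 := cd2q2b) (C3 := pd1)
    rfl k0_mm_112_b

noncomputable def f_mm_113 : ℕ → ℕ → ℕ → ℕ → Bool := onCell 536870912 536870912 1610612736 536870912 991146299 28908434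
    (rowB 3 eng mog cd0q1 cd2q3 pd1 0 false false false .nn 1 1 3 (qsf 536870912 536870912 1610612736 536870912 1) ndB0q1 ndB2q3 pcB1 Cut.none Ext.none)

def k0_mm_113 : ∃ t, chk3 f_mm_113 t 1 1 1 = true :=
  ⟨(l 5), by decide +kernel⟩

theorem c_mm_113 : CertB 536870912 536870912 1610612736 536870912 991146299 28908434 3 eng mog cd0q1 cd2q3 pd1 false false false .nn 1 1 3
    ndB0q1 ndB2q3 pcB1 Cut.none Ext.none :=
  certB0 (fam := false) (s1 := false) (s2 := false) (a := 1) (b := 1) (c := 3) (cn := .nn) (n1 := ndB0q1) (n2 := ndB2q3) (pc := pcB1) (cut := Cut.none) (xt := Ext.none) (P1 := 536870912) (W1 := 536870912) (P2 := 1610612736) (W2 := 536870912) (P3 := 991146299) (W3 := 28908434) (N0 := 3) (En := eng) (mo := mog) (C1 := cd0q1) (C2 := cd2q3) (C3 := pd1)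
    rfl k0_mm_113

noncomputable def f_mm_123 : ℕ → ℕ → ℕ → ℕ → Bool := onCell 536870912 536870912 1610612736 536870912 991146299 28908434
    (rowB 3 eng mog cd0q1 cd2q3 pd2 0 false false false .npn 1 2 3 (qsf 536870912 536870912 1610612736 536870912 2) ndB0q1 ndB2q3 pcB2 Cut.none Ext.none)

def k0_mm_123 : ∃ t, chk3 f_mm_123 t 1 1 1 = true :=
  ⟨(l 5), by decide +kernel⟩

theorem c_mm_123 : CertB 536870912 536870912 1610612736 536870912 991146299 28908434 3 eng mog cd0q1 cd2q3 pd2 false false false .npn 1 2 3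
    ndB0q1 ndB2q3 pcB2 Cut.none Ext.none :=
  certB0 (fam := false) (s1 := false) (s2 := false) (a := 1) (b := 2) (c := 3) (cn := .npn) (n1 := ndB0q1) (n2 := ndB2q3) (pc := pcB2) (cut := Cut.none) (xt := Ext.none) (P1 := 536870912) (W1 := 536870912) (P2 := 1610612736) (W2 := 536870912) (P3 := 991146299) (W3 := 28908434) (N0 := 3) (En := eng) (mo := mog) (C1 := cd0q1) (C2 := cd2q3) (C3 := pd2)
    rfl k0_mm_123

noncomputable def f_mm_133 : ℕ → ℕ → ℕ → ℕ → Bool := onCell 536870912 536870912 1610612736 536870912 991146299 28908434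
    (rowB 3 eng mog cd0q1 cd2q3 pd3 0 false false false .dn 1 3 3 (qsf 536870912 536870912 1610612736 536870912 3) ndB0q1 ndB2q3 pcB3 Cut.none Ext.none)

def k0_mm_133 : ∃ t, chk3 f_mm_133 t 1 1 1 = true :=
  ⟨(l 5), by decide +kernel⟩

theorem c_mm_133 : CertB 536870912 536870912 1610612736 536870912 991146299 28908434 3 eng mog cd0q1 cd2q3 pd3 false false false .dn 1 3 3
    ndB0q1 ndB2q3 pcB3 Cut.none Ext.none :=
  certB0 (fam := false) (s1 := false) (s2 := false) (a := 1) (b := 3) (c := 3) (cn := .dn) (n1 := ndB0q1) (n2 := ndB2q3) (pc := pcB3) (cut := Cut.none) (xt := Ext.none) (P1 := 536870912) (W1 := 536870912) (P2 := 1610612736) (W2 := 536870912) (P3 := 991146299) (W3 := 28908434) (N0 := 3) (En := eng) (mo := mog) (C1 := cd0q1) (C2 := cd2q3) (C3 := pd3)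
    rfl k0_mm_133

noncomputable def f_mm_202_a : ℕ → ℕ → ℕ → ℕ → Bool := onCell 0 536870912 0 536870912 991146299 28908434
    (rowB 3 eng mog cd0q2 cd2q2a pd0 0 false false false .pp 2 0 2 (qsf 0 536870912 0 536870912 0) ndB0q2 ndB2q2a pcB0 Cut.none Ext.none)

def k0_mm_202_a : ∃ t, chk3 f_mm_202_a t 1 1 1 = true :=
  ⟨(l 3), by decide +kernel⟩

theorem c_mm_202_a : CertB 0 536870912 0 536870912 991146299 28908434 3 eng mog cd0q2 cd2q2a pd0 false false false .pp 2 0 2
    ndB0q2 ndB2q2a pcB0 Cut.none Ext.none :=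
  certB0 (fam := false) (s1 := false) (s2 := false) (a := 2) (b := 0) (c := 2) (cn := .pp) (n1 := ndB0q2) (n2 := ndB2q2a) (pc := pcB0) (cut := Cut.none) (xt := Ext.none) (P1 := 0) (W1 := 536870912) (P2 := 0) (W2 := 536870912) (P3 := 991146299) (W3 := 28908434) (N0 := 3) (En := eng) (mo := mog) (C1 := cd0q2) (C2 := cd2q2a) (C3 := pd0)
    rfl k0_mm_202_a

noncomputable def f_mm_202_b : ℕ → ℕ → ℕ → ℕ → Bool := onCell 0 536870912 1239849684 370763052 991146299 28908434
    (rowB 3 eng mog cd0q2 cd2q2b pd0 0 false false false .pp 2 0 2 (qsf 0 536870912 1239849684 370763052 0) ndB0q2 ndB2q2b pcB0 Cut.none Ext.none)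

def k0_mm_202_b : ∃ t, chk3 f_mm_202_b t 1 1 1 = true :=
  ⟨(l 3), by decide +kernel⟩

theorem c_mm_202_b : CertB 0 536870912 1239849684 370763052 991146299 28908434 3 eng mog cd0q2 cd2q2b pd0 false false false .pp 2 0 2
    ndB0q2 ndB2q2b pcB0 Cut.none Ext.none :=
  certB0 (fam := false) (s1 := false) (s2 := false) (a := 2) (b := 0) (c := 2) (cn := .pp) (n1 := ndB0q2) (n2 := ndB2q2b) (pc := pcB0) (cut := Cut.none) (xt := Ext.none) (P1 := 0) (W1 := 536870912) (P2 := 1239849684) (W2 := 370763052) (P3 := 991146299) (W3 := 28908434) (N0 := 3) (En := eng) (mo := mog) (C1 := cd0q2) (C2 := cd2q2b) (C3 := pd0)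
    rfl k0_mm_202_b

noncomputable def f_mm_203 : ℕ → ℕ → ℕ → ℕ → Bool := onCell 0 536870912 0 536870912 991146299 28908434
    (rowB 3 eng mog cd0q2 cd2q3 pd0 1 false false false .up 2 0 3 (qsf 0 536870912 1610612736 536870912 0) ndB0q2 ndB2q3 pcB0 Cut.none Ext.none)

def k0_mm_203 : ∃ t, chk3 f_mm_203 t 1 1 1 = true :=
  ⟨(l 3), by decide +kernel⟩

theorem c_mm_203 : CertB 0 536870912 1610612736 536870912 991146299 28908434 3 eng mog cd0q2 cd2q3 pd0 false false false .up 2 0 3
    ndB0q2 ndB2q3 pcB0 Cut.none Ext.none :=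
  certB1 (fam := false) (s1 := false) (s2 := false) (a := 2) (b := 0) (c := 3) (cn := .up) (n1 := ndB0q2) (n2 := ndB2q3) (pc := pcB0) (cut := Cut.none) (xt := Ext.none) (P1 := 0) (W1 := 536870912) (P2 := 1610612736) (W2 := 536870912) (P3 := 991146299) (W3 := 28908434) (N0 := 3) (En := eng) (mo := mog) (C1 := cd0q2) (C2 := cd2q3) (C3 := pd0)
    rfl (fun _ => rfl) k0_mm_203

noncomputable def f_mm_213 : ℕ → ℕ → ℕ → ℕ → Bool := onCell 0 536870912 1610612736 536870912 991146299 28908434
    (rowB 3 eng mog cd0q2 cd2q3 pd1 0 false false false .pnn 2 1 3 (qsf 0 536870912 1610612736 536870912 1) ndB0q2 ndB2q3 pcB1 Cut.none Ext.none)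

def k0_mm_213 : ∃ t, chk3 f_mm_213 t 1 1 1 = true :=
  ⟨(b (l 3) (a (l 3) (l 5))), by decide +kernel⟩

theorem c_mm_213 : CertB 0 536870912 1610612736 536870912 991146299 28908434 3 eng mog cd0q2 cd2q3 pd1 false false false .pnn 2 1 3
    ndB0q2 ndB2q3 pcB1 Cut.none Ext.none :=
  certB0 (fam := false) (s1 := false) (s2 := false) (a := 2) (b := 1) (c := 3) (cn := .pnn) (n1 := ndB0q2) (n2 := ndB2q3) (pc := pcB1) (cut := Cut.none) (xt := Ext.none) (P1 := 0) (W1 := 536870912) (P2 := 1610612736) (W2 := 536870912) (P3 := 991146299) (W3 := 28908434) (N0 := 3) (En := eng) (mo := mog) (C1 := cd0q2) (C2 := cd2q3) (C3 := pd1)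
    rfl k0_mm_213

end Pool.Agent.Strip051.G.I9231_9500.Tab.C.BB02

namespace Pool.Agent.Strip051.G.I9231_9500.Tab.C.BB03

open Pool.Agent.Strip051.PB Pool.Agent.Strip051.PB.T
open Pool.Agent.Strip051.G.I9231_9500.Tab

noncomputable def f_pp_001 : ℕ → ℕ → ℕ → ℕ → Bool := onCell 0 536870912 0 536870912 991146299 28908434
    (rowB 3 eng mog cd0q0 cd3q1 pd0 1 false true true .up 0 0 1 (qsf 0 536870912 536870912 536870912 0) ndB0q0 ndB3q1 pcB0 Cut.none Ext.none)

def k0_pp_001 : ∃ t, chk3 f_pp_001 t 1 1 1 = true :=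
  ⟨(l 3), by decide +kernel⟩

theorem c_pp_001 : CertB 0 536870912 536870912 536870912 991146299 28908434 3 eng mog cd0q0 cd3q1 pd0 false true true .up 0 0 1
    ndB0q0 ndB3q1 pcB0 Cut.none Ext.none :=
  certB1 (fam := false) (s1 := true) (s2 := true) (a := 0) (b := 0) (c := 1) (cn := .up) (n1 := ndB0q0) (n2 := ndB3q1) (pc := pcB0) (cut := Cut.none) (xt := Ext.none) (P1 := 0) (W1 := 536870912) (P2 := 536870912) (W2 := 536870912) (P3 := 991146299) (W3 := 28908434) (N0 := 3) (En := eng) (mo := mog) (C1 := cd0q0) (C2 := cd3q1) (C3 := pd0)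
    rfl (fun _ => rfl) k0_pp_001

noncomputable def cut_pp_011 : Cut := Cut.of [[⟨0, 0, 0, 53687091⟩, ⟨1, 1, 0, 53687091⟩, ⟨2, 1, 0, 53687091⟩]]

noncomputable def f_pp_011 : ℕ → ℕ → ℕ → ℕ → Bool := onCell 0 536870912 536870912 536870912 991146299 28908434
    (rowB 3 eng mog cd0q0 cd3q1 pd1 1 false true true .pnn 0 1 1 (qsf 0 536870912 536870912 536870912 1) ndB0q0 ndB3q1 pcB1 cut_pp_011 Ext.none)

def k0_pp_011 : ∃ t, chk3 f_pp_011 t 1 1 1 = true :=
  ⟨(b (l 3) (b (l 3) (a (a (b (l 3) (a (b (l 3) (a (l 6) (l 3))) (l 3))) (l 3)) (l 2)))), by decide +kernel⟩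

theorem c_pp_011 : CertB 0 536870912 536870912 536870912 991146299 28908434 3 eng mog cd0q0 cd3q1 pd1 false true true .pnn 0 1 1
    ndB0q0 ndB3q1 pcB1 cut_pp_011 Ext.none :=
  certB1 (fam := false) (s1 := true) (s2 := true) (a := 0) (b := 1) (c := 1) (cn := .pnn) (n1 := ndB0q0) (n2 := ndB3q1) (pc := pcB1) (cut := cut_pp_011) (xt := Ext.none) (P1 := 0) (W1 := 536870912) (P2 := 536870912) (W2 := 536870912) (P3 := 991146299) (W3 := 28908434) (N0 := 3) (En := eng) (mo := mog) (C1 := cd0q0) (C2 := cd3q1) (C3 := pd1)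
    rfl (fun _ => rfl) k0_pp_011

noncomputable def f_pp_012 : ℕ → ℕ → ℕ → ℕ → Bool := onCell 0 536870912 536870912 536870912 991146299 28908434
    (rowB 3 eng mog cd0q0 cd3q2 pd1 1 false true true .pnp 0 1 2 (qsf 0 536870912 1073741824 536870912 1) ndB0q0 ndB3q2 pcB1 Cut.none Ext.none)

def k0_pp_012 : ∃ t, chk3 f_pp_012 t 1 1 1 = true :=
  ⟨(b (l 3) (l 3)), by decide +kernel⟩

theorem c_pp_012 : CertB 0 536870912 1073741824 536870912 991146299 28908434 3 eng mog cd0q0 cd3q2 pd1 false true true .pnp 0 1 2
    ndB0q0 ndB3q2 pcB1 Cut.none Ext.none :=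
  certB1 (fam := false) (s1 := true) (s2 := true) (a := 0) (b := 1) (c := 2) (cn := .pnp) (n1 := ndB0q0) (n2 := ndB3q2) (pc := pcB1) (cut := Cut.none) (xt := Ext.none) (P1 := 0) (W1 := 536870912) (P2 := 1073741824) (W2 := 536870912) (P3 := 991146299) (W3 := 28908434) (N0 := 3) (En := eng) (mo := mog) (C1 := cd0q0) (C2 := cd3q2) (C3 := pd1)
    rfl (fun _ => rfl) k0_pp_012

noncomputable def f_pp_022 : ℕ → ℕ → ℕ → ℕ → Bool := onCell 0 536870912 1073741824 536870912 991146299 28908434
    (rowB 3 eng mog cd0q0 cd3q2 pd2 1 false true true .pp 0 2 2 (qsf 0 536870912 1073741824 536870912 2) ndB0q0 ndB3q2 pcB2 Cut.none Ext.none)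

def k0_pp_022 : ∃ t, chk3 f_pp_022 t 2 8 1 = true :=
  ⟨(b (l 3) (b (a (l 3) (l 3)) (b (a (a (l 3) (a (l 3) (l 3))) (b (a (l 3) (a (c (l 16128256) (l 16073520)) (c (l 16068376) (l 16023888)))) (a (a (c (l 16283920) (l 16273200)) (c (l 16203176) (l 16180912))) (a (c (l 16133464) (l 16100784)) (c (l 16074072) (l 16031872)))))) (a (a (a (b (l 3) (a (c (b (l 16471080) (l 16485128)) (a (l 16441864) (l 16490040))) (c (l 16535720) (l 16489736)))) (a (c (l 16570536) (l 16511816)) (b (l 16507104) (l 16507360)))) (a (c (a (l 16514736) (l 16458048)) (a (l 16515352) (l 16472312))) (c (a (l 16405576) (l 16356040)) (a (l 16413056) (l 16357144))))) (a (a (c (l 16288032) (l 16280440)) (c (l 16187408) (l 16190376))) (a (c (l 16139744) (l 16091128)) (c (a (l 16095392) (l 16069064)) (l 16024456)))))))), by decide +kernel⟩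

def k1_pp_022 : ∃ t, chk3 f_pp_022 t 4 9 1 = true :=
  ⟨(b (a (a (b (c (b (a (c (l 16482448) (l 16454728)) (l 16495192)) (a (b (l 16449160) (a (l 16464800) (l 16487704))) (c (l 16500928) (l 16475736)))) (b (a (a (b (l 16447584) (l 16432280)) (l 16425240)) (l 16425144)) (a (b (l 16367832) (a (l 16401336) (l 16428688))) (c (l 16449696) (l 16422808))))) (a (c (b (a (l 16434824) (l 16457752)) (l 16343600)) (b (a (l 16373808) (l 16401248)) (l 16330280))) (c (b (l 16451136) (l 16454296)) (b (l 16422376) (l 16407880))))) (b (b (a (c (l 16565392) (l 16503552)) (b (l 16507544) (l 16507552))) (a (c (l 16516344) (l 16473104)) (c (l 16534528) (l 16553256)))) (a (b (c (l 16499960) (l 16480232)) (l 16401672)) (b (l 16492952) (l 16478424))))) (b (a (b (c (a (l 16514072) (l 16458736)) (a (l 16519376) (l 16478120))) (a (b (l 16466408) (l 16493248)) (l 16391728))) (b (c (a (l 16407608) (l 16359480)) (a (l 16420480) (l 16366040))) (c (l 16394296) (l 16404048)))) (a (c (c (l 16424088) (l 16433648)) (l 16406760)) (c (l 16376976) (l 16403616)))))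 (a (a (a (b (c (b (l 16367544) (l 16329312)) (b (l 16315640) (l 16280616))) (b (c (l 16291872) (l 16246224)) (b (l 16242944) (a (l 16215648) (l 16244840))))) (b (c (b (l 16416216) (l 16378864)) (l 16271736)) (b (l 16302928) (b (l 16298936) (l 16290496))))) (b (a (c (l 16406456) (l 16394320)) (b (l 16443536) (l 16451232))) (a (b (l 16380408) (l 16313568)) (b (l 16417944) (l 16418432))))) (b (a (b (l 16455664) (l 16466264)) (a (l 16471936) (l 16427200))) (a (b (l 16397448) (l 16445184)) (b (a (l 16483664) (l 16436960)) (l 16422624)))))), by decide +kernel⟩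

def k2_pp_022 : ∃ t, chk3 f_pp_022 t 5 9 1 = true :=
  ⟨(b (a (b (b (a (c (b (l 16291184) (l 16295688)) (b (l 16288088) (l 16293888))) (c (l 16196904) (l 16204072))) (a (c (l 16309760) (l 16306384)) (c (l 16237752) (l 16222560)))) (a (c (l 16337680) (l 16330648)) (c (l 16268696) (l 16250280)))) (b (b (a (c (a (l 16168176) (l 16138888)) (l 16107880)) (c (l 16100224) (l 16065200))) (a (l 16163520) (l 16086224))) (a (c (l 16210232) (l 16181248)) (b (l 16130728) (l 16153656))))) (a (b (a (b (l 16358576) (l 16372480)) (b (l 16287240) (l 16299072))) (a (b (l 16370584) (l 16354216)) (l 16284024))) (b (a (b (l 16226000) (l 16232672)) (b (l 16172144) (l 16172496))) (a (l 16215848) (l 16157008))))), by decide +kernel⟩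

def k3_pp_022 : ∃ t, chk3 f_pp_022 t 3 4 1 = true :=
  ⟨(b (b (l 3) (a (b (b (l 3) (b (l 3) (a (a (l 3) (l 760912442375)) (a (l 227799572231) (l 15995880))))) (a (a (b (c (b (l 16018240) (l 16024392)) (b (l 15963832) (l 15973312))) (c (l 16076432) (l 16009424))) (b (a (c (l 15989712) (l 15930552)) (l 15982120)) (c (l 15996064) (l 15941184)))) (a (a (b (l 15921960) (l 15942664)) (b (l 15905760) (l 15928112))) (b (c (l 15922176) (l 15848176)) (c (l 15944936) (l 15874752)))))) (a (b (c (a (l 275044101319) (l 279339030199)) (a (l 285781376183) (l 290076296167))) (b (a (c (l 15903624) (l 15824872)) (l 15892608)) (a (l 15893320) (l 15882336)))) (a (b (c (l 15912408) (l 15760416)) (b (l 15842560) (l 15877016))) (b (b (l 875265716199) (l 2)) (l 2)))))) (a (b (a (b (a (c (l 16049552) (l 16024496)) (c (l 16036624) (l 15981288))) (a (a (l 16108336) (l 16088744)) (a (l 16070360) (l 16053736)))) (b (a (c (l 16010544) (l 15947008)) (l 15956864)) (a (b (l 16021928) (l 16042496)) (c (l 16040968) (l 15971080))))) (a (b (a (b (l 16124440)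 (l 16120752)) (l 16078520)) (a (l 16106848) (l 16064712))) (a (c (l 16065880) (l 16005528)) (b (l 16013736) (l 16001832))))) (b (a (b (a (l 15920408) (l 15932232)) (a (l 15986832) (l 15970600))) (b (a (l 15926512) (l 2)) (l 2))) (a (a (b (l 15990592) (l 15979728)) (l 15946696)) (l 2))))), by decide +kernel⟩

def k4_pp_022 : ∃ t, chk3 f_pp_022 t 8 20 1 = true :=
  ⟨(b (a (a (c (b (l 16247048) (l 16246040)) (b (l 16206560) (l 16208256))) (b (l 16287744) (l 16245512))) (a (b (l 16349904) (l 16349000)) (l 16350208))) (b (a (a (c (l 16230000) (b (l 16212880) (l 16218936))) (c (l 16306200) (l 16279496))) (a (l 16311648) (l 16373400))) (b (a (a (c (l 16218848) (a (l 16214096) (l 16244616))) (c (l 16314936) (l 16291128))) (a (l 16341664) (l 16381304))) (a (b (a (c (b (l 16268736) (a (l 16262296) (l 16288384))) (b (l 16238704) (a (l 16231104) (l 16261008)))) (c (l 16305208) (l 16262264))) (a (c (b (b (b (l 16239312) (b (a (l 16272136) (l 16297904)) (a (c (l 16261856) (a (l 16240624) (l 16253816))) (l 16301216)))) (a (l 16276568)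 (l 16302184))) (a (l 16274776) (l 16300408))) (a (b (b (b (l 16237752) (b (l 16241752) (b (b (l 16244672) (c (l 16233184) (l 16217680))) (l 16226176)))) (l 16225616)) (l 16245104)) (b (b (b (l 16267440) (b (l 16271320) (c (l 16260608) (l 16268000)))) (l 16276008)) (l 16274528)))) (b (c (b (b (l 16333824) (a (l 16304672) (l 16352144))) (l 16341344)) (b (b (l 16312720) (b (l 16316416) (l 16277832))) (l 16320872))) (c (l 16339592) (l 16319408))))) (b (a (l 16310864) (l 16391448)) (a (a (c (l 16354640) (a (l 16332024) (l 16368464))) (c (l 16381912) (l 16370832))) (c (l 16402312) (l 16375976)))))))), by decide +kernel⟩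

def k5_pp_022 : ∃ t, chk3 f_pp_022 t 8 21 1 = true :=
  ⟨(c (a (a (a (b (b (b (l 16247880) (l 16238480)) (a (l 16218208) (l 16252024))) (b (l 16206552) (l 16188984))) (b (b (l 16289872) (l 16271496)) (l 16218640))) (b (a (l 16306864) (l 16333464)) (l 16221880))) (a (b (l 16353032) (l 16318312)) (l 16348936))) (a (a (b (b (a (c (l 16222424) (l 16229072)) (l 16265776)) (a (c (l 16227232) (l 16214576)) (l 16250552))) (b (a (a (l 16177744) (l 16213464)) (l 16235792)) (a (l 16191688) (l 16221496)))) (b (b (l 16268808) (l 16274712)) (a (l 16258760) (l 16289280)))) (a (b (l 16322624) (l 16314704)) (l 16328792)))), by decide +kernel⟩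

def k6_pp_022 : ∃ t, chk3 f_pp_022 t 9 10 1 = true :=
  ⟨(b (b (a (a (l 16432048) (l 16439072)) (c (l 16390184) (l 16363576))) (b (a (l 16355296) (l 16322744)) (b (a (l 16323936) (l 16314192)) (a (c (b (l 16343840) (a (l 16413864) (l 16367616))) (b (l 16342192) (a (l 16393176) (l 16361664)))) (b (l 16250512) (a (l 16277080) (l 16234120))))))) (b (a (a (c (l 16397024) (l 16372944)) (l 16305320)) (a (l 16302632) (l 16260648))) (a (a (l 16329232) (l 16282784)) (c (l 16272432) (l 16249656))))), by decide +kernel⟩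

def k7_pp_022 : ∃ t, chk3 f_pp_022 t 4 11 1 = true :=
  ⟨(a (a (b (c (a (a (b (a (l 16167512) (l 16170160)) (b (l 16160216) (l 16144632))) (b (l 16211008) (l 16179112))) (b (l 16230400) (l 16198872))) (a (a (b (c (l 16174464) (l 16167584)) (c (l 16146968) (l 16143368))) (b (l 16200976) (l 16175240))) (b (l 16204624) (l 16200040)))) (c (a (b (a (l 16111736) (l 16149160)) (a (l 16094024) (l 16121136))) (b (l 16169224) (l 16162408))) (a (b (a (l 16121248) (l 16151416)) (a (l 16099272) (l 16129480))) (b (l 16176312) (l 16154408))))) (b (c (a (b (l 16306376) (l 16275280)) (l 16305032)) (a (b (l 16287560) (l 16262168)) (l 16295880))) (a (c (l 16148224) (l 16164552)) (b (l 16249504) (l 16224728))))) (a (b (a (b (l 16308064) (l 16274288)) (b (l 16258112) (l 16231288))) (a (c (l 16262120) (l 16192008)) (b (l 16202304) (l 16171176)))) (b (c (l 16157872) (a (l 16231888) (l 16191256))) (c (l 16109480) (a (l 16171544) (l 16133936)))))), by decide +kernel⟩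

def k8_pp_022 : ∃ t, chk3 f_pp_022 t 5 5 1 = true :=
  ⟨(b (b (b (a (a (b (l 16334328) (l 16310504)) (c (l 16259384) (l 16233648))) (a (c (l 16198328) (l 16164136)) (c (l 16145968) (l 16104040)))) (a (b (a (l 16260064) (l 16208728)) (b (a (l 16253240) (l 16182552)) (a (b (l 16148696) (a (l 16215024) (l 16198896))) (b (l 16162920) (c (l 16164688) (l 16131384)))))) (b (a (l 16146056) (l 16092248)) (b (a (l 16121400) (l 16069040)) (a (b (l 16102776) (c (l 16088144) (l 16047024))) (b (l 16030416) (c (l 16061896) (l 15992768)))))))) (a (a (c (a (l 16226344) (l 16193008)) (a (l 16198712) (l 16160888))) (c (l 16147496) (a (l 16125840) (l 16093216)))) (a (c (l 16073336) (c (l 16060312) (l 16036768))) (c (a (l 16059744) (l 16039064)) (l 15975888))))) (a (a (b (c (l 16112296) (a (l 16153408) (l 16118392))) (c (l 16069008) (a (l 16098920) (l 16066496)))) (b (c (l 16117960) (a (l 16085952) (l 16055784))) (c (l 16078968) (b (l 16035424) (l 16008824))))) (a (b (c (l 16068720) (l 16014568)) (c (l 16033328) (l 15970352))) (b (c (l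 16005856) (l 15966800)) (c (l 15994368) (l 15926136)))))), by decide +kernel⟩

def k9_pp_022 : ∃ t, chk3 f_pp_022 t 3 5 1 = true :=
  ⟨(a (b (b (a (b (a (l 16077576) (l 16037592)) (b (a (l 16046664) (l 16008664)) (b (a (l 16024832) (l 15988120)) (a (b (l 15987144) (c (l 16022408) (l 15967952))) (b (l 15972320) (a (l 15968560) (l 15952768))))))) (b (a (l 15983744) (l 15978264)) (b (a (l 15977592) (l 15952792)) (b (a (l 15958272) (l 15934608)) (a (b (l 15943360) (l 15932216)) (b (l 15920568) (l 15910080))))))) (a (a (c (l 16011368) (l 15932296)) (c (l 15980240) (l 15917336))) (a (c (l 15955048) (l 15888504)) (c (l 15935152) (l 15866112))))) (a (a (b (c (l 15991680) (l 15905664)) (b (l 15935592) (l 15915968))) (b (c (l 15962544) (l 15893528)) (a (l 15903576) (l 2)))) (a (b (l 15882512) (l 2)) (l 2)))) (b (b (b (a (a (l 15957584) (l 2)) (l 2)) (l 2)) (l 2)) (l 2))), by decide +kernel⟩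

def k10_pp_022 : ∃ t, chk3 f_pp_022 t 4 6 1 = true :=
  ⟨(a (a (a (b (b (c (b (a (l 16067792) (l 16095024)) (a (l 16043472) (l 16070776))) (b (l 16052352) (l 16055152))) (c (b (l 15992712) (l 15993040)) (b (l 16038808) (l 16024240)))) (b (c (b (l 15953136) (l 15914864)) (b (l 15990392) (l 15979136))) (c (b (l 15899088) (l 15884736)) (b (l 15948416) (l 15940064))))) (b (b (c (b (l 16136448) (l 16112264)) (b (l 16134296) (l 16115936))) (c (c (l 16029648) (l 16045424)) (l 16028816))) (b (c (b (l 16007840) (l 15969120)) (l 16001816)) (c (b (l 15952736) (l 15937600)) (a (l 15936736) (l 15897192)))))) (b (b (a (b (l 16120752) (l 16099280)) (b (l 16196576) (l 16157976))) (a (c (l 16051440) (l 16089856)) (b (l 16096432) (l 16053936)))) (b (b (a (l 16002024) (l 15967632)) (c (l 15987544) (a (l 16033336) (l 16016552)))) (c (a (l 15933376) (c (l 16003320) (l 15949712))) (a (b (l 15980792) (l 15905648)) (b (l 15965584) (l 15912944))))))) (b (a (b (b (a (l 16155104) (l 16137928)) (a (l 16097248) (l 16081616))) (c (a (l 16115136)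 (l 16093704)) (b (l 16035664) (l 15992624)))) (b (c (l 16052376) (b (l 16102672) (l 16066640))) (c (b (l 16088120) (l 16053320)) (b (l 16028456) (l 15988160))))) (a (c (b (a (b (l 16087552) (l 16045784)) (l 16016528)) (b (l 15904528) (l 15839040))) (b (a (l 15941496) (l 15949448)) (a (l 15800728) (l 15811416)))) (b (c (b (l 16016528) (l 15977840)) (b (l 15945816) (l 15901480))) (c (b (l 15937304) (l 15895024)) (b (l 15855232) (l 15807152))))))), by decide +kernel⟩

def k11_pp_022 : ∃ t, chk3 f_pp_022 t 8 7 1 = true :=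
  ⟨(a (b (c (a (b (b (l 15850704) (l 15838808)) (b (l 15827912) (c (l 15837232) (l 15820144)))) (b (b (l 15923576) (l 15899744)) (b (l 15825376) (c (l 15853784) (l 15813088))))) (b (b (c (l 15898064) (l 15842768)) (a (l 15839392) (l 15804960))) (a (b (a (l 15786896) (l 15790944)) (c (l 15779448) (l 15757224))) (b (l 15724192) (c (l 15769728) (l 15723864)))))) (b (c (b (a (c (l 15803112) (l 15740992)) (b (l 15729376) (a (l 15707192) (l 15717608)))) (b (a (c (a (l 15788024) (l 15777688)) (a (l 15745120) (l 15733472))) (a (l 15682912) (l 15735984))) (a (c (l 15759216) (l 15713840)) (l 15675584)))) (b (a (c (l 15738944) (l 15692288)) (b (l 15700760) (a (l 15676448) (l 15663272)))) (c (a (b (l 15724184) (l 15665336)) (l 15675912)) (a (b (l 15643328) (l 15613896)) (l 15601464))))) (c (c (b (a (l 15682224) (l 15707680)) (l 15585408)) (b (a (l 15675656) (l 15656064)) (l 15656960))) (b (a (c (l 15623752) (l 15568680)) (l 15635160)) (a (l 15601480) (l 15515240)))))) (a (b (b (b (c (l 15943776) (l 15870912)) (c (l 15871928) (l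 15834728))) (b (c (c (l 15881536) (l 15841264)) (l 15776248)) (c (l 15724520) (l 15716552)))) (b (b (c (b (c (l 15790784) (l 15745120)) (c (l 15768848) (l 15721440))) (b (a (l 15677832) (l 15665112)) (l 15644880))) (c (c (l 15736456) (l 15685928)) (l 15667168))) (b (c (l 15666064) (l 15549752)) (l 2)))) (b (b (c (b (l 15894912) (l 15866376)) (b (l 15858720) (l 15803008))) (b (c (l 15836520) (l 15745936)) (c (b (l 15797680) (l 15771816)) (b (l 15702392) (l 15673120))))) (b (c (b (b (l 15750032) (l 15728304)) (l 15695968)) (b (b (l 15647672) (l 15621504)) (l 15582528))) (l 2))))), by decide +kernel⟩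

def k12_pp_022 : ∃ t, chk3 f_pp_022 t 9 7 1 = true :=
  ⟨(a (a (b (b (c (b (l 15910432) (l 15862264)) (b (l 15827304) (l 15773024))) (b (c (l 15812744) (l 15717344)) (c (b (l 15775168) (l 15754408)) (b (l 15674880) (l 15650536))))) (b (b (c (l 15723464) (l 15612992)) (l 2)) (l 2))) (b (b (c (l 15778200) (b (l 15797992) (l 15744960))) (c (b (b (l 15802560) (l 15778200)) (l 15748936)) (b (b (l 15704320) (l 15676664)) (l 15641784)))) (l 2))) (b (a (b (c (l 15839272) (l 15744480)) (b (c (l 15772168) (l 15667952)) (l 2))) (b (c (b (l 15840312) (l 15794440)) (b (l 15744720) (l 15692664))) (l 2))) (l 2))), by decide +kernel⟩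

def k13_pp_022 : ∃ t, chk3 f_pp_022 t 5 3 1 = true :=
  ⟨(b (b (a (a (b (c (l 16016696) (b (l 16036640) (l 16003128))) (c (l 15934648) (b (l 15967368) (l 15929400)))) (b (c (l 16030624) (b (l 15979808) (l 15948400))) (c (l 15973176) (b (l 15914640) (l 15878576))))) (b (a (c (l 15988240) (l 15916024)) (c (l 15951832) (l 15874896))) (a (c (l 15933704) (l 15851784)) (c (l 15899496) (l 15813296))))) (a (b (a (c (l 15833752) (b (l 15889288) (l 15847096))) (c (l 15907032) (l 15819936))) (b (a (c (l 15892184) (l 15802896)) (c (l 15852400) (l 15757192))) (a (c (l 15851736) (l 15756784)) (l 2)))) (b (a (c (l 15870128) (l 15778032)) (l 2)) (l 2)))) (b (a (b (a (a (b (l 15771088) (l 2)) (l 2)) (l 2)) (l 2)) (l 2)) (l 2))), by decide +kernel⟩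

def k14_pp_022 : ∃ t, chk3 f_pp_022 t 3 3 1 = true :=
  ⟨(b (a (b (a (a (b (c (l 15920792) (l 15840112)) (l 2)) (l 2)) (l 2)) (l 2)) (l 2)) (l 2)), by decide +kernel⟩

theorem s15_pp_022 : ∃ t, chk3 f_pp_022 t 4 7 1 = true := ex3_a k11_pp_022 k12_pp_022

theorem s16_pp_022 : ∃ t, chk3 f_pp_022 t 4 3 1 = true := ex3_b k10_pp_022 s15_pp_022

theorem s17_pp_022 : ∃ t, chk3 f_pp_022 t 2 3 1 = true := ex3_a s16_pp_022 k13_pp_022

theorem s18_pp_022 : ∃ t, chk3 f_pp_022 t 1 3 1 = true := ex3_a s17_pp_022 k14_pp_022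

theorem s19_pp_022 : ∃ t, chk3 f_pp_022 t 8 10 1 = true := ex3_b k4_pp_022 k5_pp_022

theorem s20_pp_022 : ∃ t, chk3 f_pp_022 t 4 10 1 = true := ex3_a s19_pp_022 k6_pp_022

theorem s21_pp_022 : ∃ t, chk3 f_pp_022 t 4 5 1 = true := ex3_b s20_pp_022 k7_pp_022

theorem s22_pp_022 : ∃ t, chk3 f_pp_022 t 2 5 1 = true := ex3_a s21_pp_022 k8_pp_022

theorem s23_pp_022 : ∃ t, chk3 f_pp_022 t 1 5 1 = true := ex3_a s22_pp_022 k9_pp_022

theorem s24_pp_022 : ∃ t, chk3 f_pp_022 t 2 9 1 = true := ex3_a k1_pp_022 k2_pp_022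

theorem s25_pp_022 : ∃ t, chk3 f_pp_022 t 2 4 1 = true := ex3_b k0_pp_022 s24_pp_022

theorem s26_pp_022 : ∃ t, chk3 f_pp_022 t 1 4 1 = true := ex3_a s25_pp_022 k3_pp_022

theorem s27_pp_022 : ∃ t, chk3 f_pp_022 t 1 2 1 = true := ex3_b s26_pp_022 s23_pp_022

theorem s28_pp_022 : ∃ t, chk3 f_pp_022 t 1 1 1 = true := ex3_b s27_pp_022 s18_pp_022

theorem c_pp_022 : CertB 0 536870912 1073741824 536870912 991146299 28908434 3 eng mog cd0q0 cd3q2 pd2 false true true .pp 0 2 2
    ndB0q0 ndB3q2 pcB2 Cut.none Ext.none :=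
  certB1 (fam := false) (s1 := true) (s2 := true) (a := 0) (b := 2) (c := 2) (cn := .pp) (n1 := ndB0q0) (n2 := ndB3q2) (pc := pcB2) (cut := Cut.none) (xt := Ext.none) (P1 := 0) (W1 := 536870912) (P2 := 1073741824) (W2 := 536870912) (P3 := 991146299) (W3 := 28908434) (N0 := 3) (En := eng) (mo := mog) (C1 := cd0q0) (C2 := cd3q2) (C3 := pd2)
    rfl (fun _ => rfl) s28_pp_022

noncomputable def f_pp_023 : ℕ → ℕ → ℕ → ℕ → Bool := onCell 1073741824 536870912 0 1230186008 991146299 28908434
    (rowB 3 eng mog cd0q0 cd3q3 pd2 2 false true true .up 0 2 3 (qsf 0 536870912 0 1230186008 2) ndB0q0 ndB3q3 pcB2 Cut.none Ext.none)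

def k0_pp_023 : ∃ t, chk3 f_pp_023 t 2 1 1 = true :=
  ⟨(b (l 2) (b (a (l 2) (a (l 2) (b (l 2) (b (l 2) (a (l 2) (l 128947373015)))))) (b (a (l 2) (b (a (a (l 2) (l 74723546823)) (a (b (l 15871184) (l 15888424)) (b (l 15838496) (l 15860144)))) (b (a (a (l 2) (l 15925800)) (a (l 15910488) (l 15885888))) (a (a (a (l 16004176) (a (l 15985648) (a (l 15972376) (l 15958856)))) (l 15949792)) (a (l 15938136) (l 15917240)))))) (a (a (a (l 3) (b (l 2) (a (b (c (a (l 15908912) (l 15932760)) (l 15890528)) (c (l 225651549031) (l 16054416))) (b (c (l 15981280) (l 16073984)) (c (l 16014200) (l 16117248)))))) (b (b (a (l 2) (l 15927104)) (a (a (l 15976672) (l 16084232)) (c (l 16039960) (l 16139808)))) (a (a (b (l 15884520) (c (l 16083688) (l 16191120))) (b (l 16125496) (l 16050080))) (b (c (l 16078760) (l 16188944)) (c (l 16127960) (l 16248344)))))) (a (a (b (a (b (l 16033856) (l 16070928)) (a (b (l 16015512) (l 16052856)) (b (a (l 16001976) (l 15987848)) (a (l 16039088) (l 15898544))))) (b (a (l 16053888) (a (l 16099112) (a (l 16085160)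 (c (l 16015936) (l 16126848))))) (a (l 15963584) (a (l 16030256) (a (l 16037144) (a (l 16004160) (l 15890152))))))) (b (b (l 15980240) (c (l 15971040) (l 16068384))) (b (c (l 16012120) (l 16121736)) (c (l 16064176) (l 16144008))))) (b (b (a (l 15972320) (l 15871312)) (a (c (l 15968656) (l 16062528)) (c (l 15957640) (l 16046848)))) (b (a (c (l 16013528) (l 16120144)) (c (l 16006264) (l 16108608))) (c (a (l 16069600) (l 16003352)) (a (l 16188688) (l 16118368)))))))))), by decide +kernel⟩

def k1_pp_023 : ∃ t, chk3 f_pp_023 t 6 1 1 = true :=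
  ⟨(b (l 2) (b (b (a (l 2) (a (l 15599672) (l 15409752))) (a (b (a (l 15795184) (l 15759104)) (a (b (l 15795288) (l 15797904)) (l 15747408))) (b (c (l 15719088) (l 15657832)) (a (l 15709120) (l 15662176))))) (b (a (b (a (b (l 15809208) (l 15824928)) (b (l 15783192) (l 15797072))) (a (b (l 15852400) (l 15887944)) (b (c (l 15804096) (l 15838728)) (a (l 15860688) (l 15841400))))) (b (a (b (l 15749976) (l 15768008)) (b (l 15707696) (l 15728768))) (a (b (l 15790640) (c (l 15801408) (l 15840536))) (b (l 15754400) (c (l 15772592) (l 15800064)))))) (a (b (b (a (c (l 15895752) (l 15965592)) (c (l 15865664) (l 15928424))) (a (c (l 15938496) (l 16021960)) (c (l 15911640) (l 15988448)))) (b (c (a (l 15990712) (l 15967072)) (a (l 16087616) (l 16052528))) (a (b (l 15921128) (l 15917328)) (c (l 15908096) (l 16033032))))) (c (b (b (a (l 15831624) (l 15801800)) (a (b (l 15863304) (l 15890640)) (b (l 15830288) (l 15852328)))) (b (a (l 15872624) (b (l 15878944) (l 15912736))) (a (b (l 15986168) (l 16024096)) (b (l 15948496) (l 15924488)))))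 (b (a (b (l 15886152) (l 15861992)) (b (l 15846344) (b (l 15887768) (l 15917864)))) (b (a (b (l 16000152) (l 16038992)) (b (l 15910272) (l 15993680))) (a (l 15956096) (b (l 16036672) (l 16040656)))))))))), by decide +kernel⟩

def k2_pp_023 : ∃ t, chk3 f_pp_023 t 7 2 1 = true :=
  ⟨(b (a (l 2) (b (l 15202216) (l 15248760))) (b (b (a (l 2) (l 15284304)) (a (l 15496520) (l 15309080))) (b (a (l 15503528) (l 15325248)) (a (l 15512672) (l 15344096))))), by decide +kernel⟩

def k3_pp_023 : ∃ t, chk3 f_pp_023 t 7 6 1 = true :=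
  ⟨(b (a (a (l 15361064) (l 15245096)) (b (l 15367688) (l 15205776))) (a (b (a (l 15599928) (l 15533840)) (a (l 15628600) (l 15567424))) (b (a (l 15462984) (l 15388352)) (a (l 15500552) (l 15428880))))), by decide +kernel⟩

def k4_pp_023 : ∃ t, chk3 f_pp_023 t 7 7 1 = true :=
  ⟨(a (b (b (a (c (l 15683088) (l 15655480)) (b (l 15599656) (l 15604744))) (a (b (l 15709360) (c (l 15736208) (l 15751416))) (b (l 15656264) (c (l 15691384) (l 15694272))))) (b (b (a (c (l 15767456) (l 15800808)) (c (l 15724192) (l 15746344))) (c (a (b (l 15795624) (l 15817200)) (b (l 15753528) (l 15775712))) (a (l 15753152) (l 15701344)))) (b (a (b (c (l 15800288) (a (l 15918504) (l 15894856))) (c (a (l 15878800) (l 15859368)) (l 15808032))) (c (b (l 15800280) (l 15764488)) (b (l 15856480) (l 15893200)))) (a (a (b (l 15808712) (l 15809808)) (b (c (l 15890464) (l 15971064)) (l 15783840))) (a (b (c (l 15847952) (l 15946168)) (c (l 15798496) (l 15840304))) (b (a (l 15719688) (l 15706864)) (c (l 15795640) (l 15807728)))))))) (c (b (b (b (l 15538544)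 (l 15557920)) (b (l 15581256) (a (l 15638552) (l 15578232)))) (b (b (a (l 15672456) (l 15612288)) (a (l 15671472) (b (l 15642200) (l 15664952)))) (b (a (b (l 15749568) (a (l 15790336) (l 15762616))) (b (l 15625640) (a (l 15731880) (l 15698984)))) (a (a (b (l 15820352) (l 15790128)) (b (l 15792104) (l 15761888))) (b (a (l 15761472) (l 15728648)) (c (l 15699056) (l 15716072))))))) (b (b (a (l 15520864) (l 15444936)) (b (l 15546136) (a (l 15629528) (l 15558208)))) (b (b (a (l 15683904) (l 15613832)) (a (l 15661656) (a (l 15694528) (l 15658408)))) (b (a (b (l 15797088) (l 15750800)) (b (l 15728160) (l 15661152))) (a (b (a (l 15889888) (l 15845032)) (a (l 15751848) (l 15715400))) (a (b (l 15791184) (l 15701936)) (b (l 15738176) (l 15672608))))))))), by decide +kernel⟩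

theorem s5_pp_023 : ∃ t, chk3 f_pp_023 t 7 3 1 = true := ex3_b k3_pp_023 k4_pp_023

theorem s6_pp_023 : ∃ t, chk3 f_pp_023 t 7 1 1 = true := ex3_b k2_pp_023 s5_pp_023

theorem s7_pp_023 : ∃ t, chk3 f_pp_023 t 3 1 1 = true := ex3_a k1_pp_023 s6_pp_023

theorem s8_pp_023 : ∃ t, chk3 f_pp_023 t 1 1 1 = true := ex3_a k0_pp_023 s7_pp_023

theorem c_pp_023 : CertB 0 536870912 0 1230186008 991146299 28908434 3 eng mog cd0q0 cd3q3 pd2 false true true .up 0 2 3
    ndB0q0 ndB3q3 pcB2 Cut.none Ext.none :=
  certB2 (fam := false) (s1 := true) (s2 := true) (a := 0) (b := 2) (c := 3) (cn := .up) (n1 := ndB0q0) (n2 := ndB3q3) (pc := pcB2) (cut := Cut.none) (xt := Ext.none) (P1 := 0) (W1 := 536870912) (P2 := 0) (W2 := 1230186008) (P3 := 991146299) (W3 := 28908434) (N0 := 3) (En := eng) (mo := mog) (C1 := cd0q0) (C2 := cd3q3) (C3 := pd2)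
    rfl (fun _ => rfl) s8_pp_023

noncomputable def f_pp_033 : ℕ → ℕ → ℕ → ℕ → Bool := onCell 1610612736 536870912 0 1230186008 991146299 28908434
    (rowB 3 eng mog cd0q0 cd3q3 pd3 2 false true true .pnn 0 3 3 (qsf 0 536870912 0 1230186008 3) ndB0q0 ndB3q3 pcB3 Cut.none Ext.none)

def k0_pp_033 : ∃ t, chk3 f_pp_033 t 1 2 1 = true :=
  ⟨(b (a (a (a (b (l 15865608) (l 15845200)) (b (l 16001160) (l 15896968))) (a (b (l 16158600) (l 16068248)) (a (l 16141176) (l 4)))) (l 4)) (a (b (a (b (a (l 15822880) (l 15798640)) (a (l 15816848) (l 15751136))) (b (a (l 15949600) (l 16013584)) (a (l 15854792) (a (l 15922536) (l 15922400))))) (a (b (a (l 15806800) (l 15710032)) (a (l 15796992) (l 15681968))) (a (b (l 15761408) (l 15655944)) (b (l 15642376) (l 15719432))))) (b (l 4) (a (a (a (b (l 15761776) (l 15655760)) (l 4)) (l 4)) (l 4))))), by decide +kernel⟩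

def k1_pp_033 : ∃ t, chk3 f_pp_033 t 1 6 1 = true :=
  ⟨(a (a (b (a (b (l 15789264) (l 15782144)) (b (l 15659024) (l 15644768))) (a (b (l 15777048) (a (l 15815080) (l 15737136))) (b (l 15631360) (a (l 15660296) (l 15582320))))) (a (b (a (l 15569912) (b (l 15573816) (l 15504280))) (b (l 15492112) (a (b (l 15509984) (l 15502312)) (b (l 15434984) (l 15414320))))) (b (b (l 15611776) (a (l 15490016) (l 15490336))) (b (a (b (l 15417776) (l 15384368)) (b (l 15396552) (l 15334448))) (a (b (l 15351544) (l 15328832)) (b (l 15284504) (l 15249248))))))) (a (b (a (a (b (l 15528048) (l 15368872)) (b (l 15385168) (l 15205312))) (l 4)) (a (a (b (l 15220776) (b (l 15122416) (l 15059776))) (b (l 15021632) (l 485361538231))) (a (b (a (l 14873080) (l 1)) (l 1)) (l 1)))) (l 4))), by decide +kernel⟩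

def k2_pp_033 : ∃ t, chk3 f_pp_033 t 4 7 1 = true :=
  ⟨(b (a (b (a (l 15592056) (b (l 15739040) (l 15743016))) (a (b (l 15814456) (l 15616952)) (b (l 15728136) (c (l 15683568) (l 15721744))))) (b (a (b (l 15657376) (l 15657520)) (b (l 15574160) (l 15570880))) (a (b (l 15409496) (c (l 15595192) (l 15594080))) (b (c (l 15511632) (l 15563984)) (c (l 15506392) (l 15465432)))))) (b (a (b (a (b (l 15703416) (l 15533152)) (c (l 15519696) (b (l 15642072) (l 15578856)))) (a (c (b (l 15785216) (l 15691064)) (b (l 15603400) (l 15426032))) (c (b (l 15659120) (l 15544040)) (b (l 15428168) (l 15294416))))) (b (a (c (l 15409488) (b (l 15510304) (l 15385912))) (c (l 15408208) (l 93983008295))) (c (a (b (l 15553984) (l 15475416)) (l 128342475175)) (a (a (l 15274832) (l 15207616)) (a (l 15156224) (l 1)))))) (a (b (b (a (c (l 15508272) (a (l 15530496) (l 15462976))) (c (l 15424000) (l 15155784))) (c (a (c (l 15684648) (l 15541296)) (c (l 15533944) (l 15368584))) (a (c (l 15472920) (l 15353824)) (c (l 15341664) (l 15222488))))) (b (c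 (a (c (a (l 15656408) (l 15594200)) (l 15303152)) (c (l 224442996887) (l 15184304))) (a (c (a (l 15426064) (l 15362272)) (a (l 15297624) (l 15233328))) (c (l 75192019159) (l 15129576)))) (a (a (c (c (l 15485472) (l 15449280)) (c (l 15341424) (l 15203840))) (a (c (l 52643804871) (l 150891183527)) (l 1))) (l 1)))) (b (b (a (c (l 15292360) (l 14976120)) (l 1)) (l 1)) (l 1))))), by decide +kernel⟩

def k3_pp_033 : ∃ t, chk3 f_pp_033 t 5 7 1 = true :=
  ⟨(b (a (b (a (b (l 15489272) (l 15330584)) (b (l 15398816) (l 15239608))) (a (b (c (l 15424240) (l 15435096)) (c (l 15417760) (l 15329920))) (b (l 15152376) (c (l 15283656) (l 15173448))))) (b (a (b (l 15309952) (l 15274120)) (b (l 15188416) (l 1))) (l 1))) (a (b (b (a (c (l 15337760) (l 15029744)) (l 1)) (l 1)) (l 1)) (l 1))), by decide +kernel⟩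

def k4_pp_033 : ∃ t, chk3 f_pp_033 t 3 7 1 = true :=
  ⟨(l 1), by decide +kernel⟩

theorem s5_pp_033 : ∃ t, chk3 f_pp_033 t 2 7 1 = true := ex3_a k2_pp_033 k3_pp_033

theorem s6_pp_033 : ∃ t, chk3 f_pp_033 t 1 7 1 = true := ex3_a s5_pp_033 k4_pp_033

theorem s7_pp_033 : ∃ t, chk3 f_pp_033 t 1 3 1 = true := ex3_b k1_pp_033 s6_pp_033

theorem s8_pp_033 : ∃ t, chk3 f_pp_033 t 1 1 1 = true := ex3_b k0_pp_033 s7_pp_033

theorem c_pp_033 : CertB 0 536870912 0 1230186008 991146299 28908434 3 eng mog cd0q0 cd3q3 pd3 false true true .pnn 0 3 3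
    ndB0q0 ndB3q3 pcB3 Cut.none Ext.none :=
  certB2 (fam := false) (s1 := true) (s2 := true) (a := 0) (b := 3) (c := 3) (cn := .pnn) (n1 := ndB0q0) (n2 := ndB3q3) (pc := pcB3) (cut := Cut.none) (xt := Ext.none) (P1 := 0) (W1 := 536870912) (P2 := 0) (W2 := 1230186008) (P3 := 991146299) (W3 := 28908434) (N0 := 3) (En := eng) (mo := mog) (C1 := cd0q0) (C2 := cd3q3) (C3 := pd3)
    rfl (fun _ => rfl) s8_pp_033

noncomputable def f_pp_101 : ℕ → ℕ → ℕ → ℕ → Bool := onCell 536870912 536870912 536870912 536870912 991146299 28908434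
    (rowB 3 eng mog cd0q1 cd3q1 pd0 0 false true true .npn 1 0 1 (qsf 536870912 536870912 536870912 536870912 0) ndB0q1 ndB3q1 pcB0 Cut.none Ext.none)

def k0_pp_101 : ∃ t, chk3 f_pp_101 t 1 1 1 = true :=
  ⟨(a (l 3) (l 5)), by decide +kernel⟩

theorem c_pp_101 : CertB 536870912 536870912 536870912 536870912 991146299 28908434 3 eng mog cd0q1 cd3q1 pd0 false true true .npn 1 0 1
    ndB0q1 ndB3q1 pcB0 Cut.none Ext.none :=
  certB0 (fam := false) (s1 := true) (s2 := true) (a := 1) (b := 0) (c := 1) (cn := .npn) (n1 := ndB0q1) (n2 := ndB3q1) (pc := pcB0) (cut := Cut.none) (xt := Ext.none) (P1 := 536870912) (W1 := 536870912) (P2 := 536870912) (W2 := 536870912) (P3 := 991146299) (W3 := 28908434) (N0 := 3) (En := eng) (mo := mog) (C1 := cd0q1) (C2 := cd3q1) (C3 := pd0)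
    rfl k0_pp_101

noncomputable def f_pp_102 : ℕ → ℕ → ℕ → ℕ → Bool := onCell 536870912 536870912 0 536870912 991146299 28908434
    (rowB 3 eng mog cd0q1 cd3q2 pd0 1 false true true .npp 1 0 2 (qsf 536870912 536870912 1073741824 536870912 0) ndB0q1 ndB3q2 pcB0 Cut.none Ext.none)

def k0_pp_102 : ∃ t, chk3 f_pp_102 t 1 1 1 = true :=
  ⟨(l 3), by decide +kernel⟩

theorem c_pp_102 : CertB 536870912 536870912 1073741824 536870912 991146299 28908434 3 eng mog cd0q1 cd3q2 pd0 false true true .npp 1 0 2
    ndB0q1 ndB3q2 pcB0 Cut.none Ext.none :=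
  certB1 (fam := false) (s1 := true) (s2 := true) (a := 1) (b := 0) (c := 2) (cn := .npp) (n1 := ndB0q1) (n2 := ndB3q2) (pc := pcB0) (cut := Cut.none) (xt := Ext.none) (P1 := 536870912) (W1 := 536870912) (P2 := 1073741824) (W2 := 536870912) (P3 := 991146299) (W3 := 28908434) (N0 := 3) (En := eng) (mo := mog) (C1 := cd0q1) (C2 := cd3q2) (C3 := pd0)
    rfl (fun _ => rfl) k0_pp_102

noncomputable def f_pp_112 : ℕ → ℕ → ℕ → ℕ → Bool := onCell 536870912 536870912 1073741824 536870912 991146299 28908434
    (rowB 3 eng mog cd0q1 cd3q2 pd1 0 false true true .dn 1 1 2 (qsf 536870912 536870912 1073741824 536870912 1) ndB0q1 ndB3q2 pcB1 Cut.none Ext.none)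

def k0_pp_112 : ∃ t, chk3 f_pp_112 t 1 1 1 = true :=
  ⟨(a (l 3) (l 3)), by decide +kernel⟩

theorem c_pp_112 : CertB 536870912 536870912 1073741824 536870912 991146299 28908434 3 eng mog cd0q1 cd3q2 pd1 false true true .dn 1 1 2
    ndB0q1 ndB3q2 pcB1 Cut.none Ext.none :=
  certB0 (fam := false) (s1 := true) (s2 := true) (a := 1) (b := 1) (c := 2) (cn := .dn) (n1 := ndB0q1) (n2 := ndB3q2) (pc := pcB1) (cut := Cut.none) (xt := Ext.none) (P1 := 536870912) (W1 := 536870912) (P2 := 1073741824) (W2 := 536870912) (P3 := 991146299) (W3 := 28908434) (N0 := 3) (En := eng) (mo := mog) (C1 := cd0q1) (C2 := cd3q2) (C3 := pd1)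
    rfl k0_pp_112

noncomputable def cut_pp_113 : Cut := Cut.of [[⟨0, 1, 0, 37748736⟩, ⟨1, 1, 0, 37748736⟩, ⟨2, 2, 0, 5242880⟩]]

noncomputable def f_pp_113 : ℕ → ℕ → ℕ → ℕ → Bool := onCell 536870912 536870912 0 1230186008 991146299 28908434
    (rowB 3 eng mog cd0q1 cd3q3 pd1 2 false true true .nn 1 1 3 (qsf 536870912 536870912 0 1230186008 1) ndB0q1 ndB3q3 pcB1 cut_pp_113 Ext.none)

def k0_pp_113 : ∃ t, chk3 f_pp_113 t 1 1 1 = true :=
  ⟨(a (b (l 2) (b (l 3) (b (l 3) (l 3)))) (a (b (l 2) (b (l 3) (l 3))) (b (a (l 3) (b (a (l 2) (b (b (l 6) (l 3)) (l 3))) (l 3))) (b (l 3) (l 3))))), by decide +kernel⟩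

theorem c_pp_113 : CertB 536870912 536870912 0 1230186008 991146299 28908434 3 eng mog cd0q1 cd3q3 pd1 false true true .nn 1 1 3
    ndB0q1 ndB3q3 pcB1 cut_pp_113 Ext.none :=
  certB2 (fam := false) (s1 := true) (s2 := true) (a := 1) (b := 1) (c := 3) (cn := .nn) (n1 := ndB0q1) (n2 := ndB3q3) (pc := pcB1) (cut := cut_pp_113) (xt := Ext.none) (P1 := 536870912) (W1 := 536870912) (P2 := 0) (W2 := 1230186008) (P3 := 991146299) (W3 := 28908434) (N0 := 3) (En := eng) (mo := mog) (C1 := cd0q1) (C2 := cd3q3) (C3 := pd1)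
    rfl (fun _ => rfl) k0_pp_113

end Pool.Agent.Strip051.G.I9231_9500.Tab.C.BB03

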