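import Pool.Agent.Strip051.G.I9231_9500.Tab
import Pool.Agent.Strip051.PB.ExtD3

/-! # Certificates B26 (generated) -/

set_option linter.all false
set_option maxRecDepth 100000

namespace Pool.Agent.Strip051.G.I9231_9500.Tab.C.BB04

open Pool.Agent.Strip051.PB Pool.Agent.Strip051.PB.T
open Pool.Agent.Strip051.G.I9231_9500.Tab

noncomputable def f_pm_202 : ℕ → ℕ → ℕ → ℕ → Bool := onCell 0 536870912 0 536870912 991146299 28908434
    (rowB 3 eng mog cd0q2 cd4q2 pd0 1 false true false .pp 2 0 2 (qsf 0 536870912 1073741824 536870912 0) ndB0q2 ndB4q2 pcB0 Cut.none Ext.none)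

def k0_pm_202 : ∃ t, chk3 f_pm_202 t 2 4 1 = true :=
  ⟨(a (a (b (b (b (l 16278800) (l 16191976)) (b (b (a (l 16145000) (l 16081984)) (a (b (l 16091136) (a (l 16089728) (l 16048264))) (l 16017120))) (b (a (l 16057144) (l 15986120)) (a (l 16045696) (l 15964120))))) (b (b (c (a (l 16069480) (l 15974248)) (a (l 15972952) (l 15896376))) (c (l 16000336) (l 15876544))) (a (b (b (l 15939544) (c (l 16007640) (l 15822000))) (c (a (l 15983384) (l 15961696)) (l 15761456))) (c (l 15907496) (l 15735296))))) (b (b (b (l 16173488) (l 16098528)) (b (b (l 16005800) (l 15945304)) (b (l 15913544) (l 15887856)))) (b (b (b (l 15862624) (a (l 15863008) (l 15814528))) (a (c (b (l 15880096) (l 15854904)) (l 15755736)) (l 15666608))) (b (a (l 15769504) (c (l 15757704) (l 15652784))) (a (l 15721384) (c (l 15706784) (l 15572168))))))) (a (b (b (b (c (l 16101304) (l 16103592)) (l 15912568)) (b (b (l 15912600) (l 15857608)) (b (l 15826112) (l 15799768)))) (b (b (c (l 15790400) (l 15731128)) (b (l 15723480)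 (l 15689400))) (b (l 15635936) (c (l 15630000) (l 15514648))))) (b (b (b (c (l 15987688) (l 16002520)) (c (l 15901808) (l 15898048))) (b (b (l 15824600) (c (l 15787600) (l 15762368))) (c (l 15746024) (l 15710992)))) (b (b (c (l 15678920) (l 15649984)) (c (l 15631576) (l 15586016))) (c (l 15564208) (l 15470528)))))), by decide +kernel⟩

def k1_pm_202 : ∃ t, chk3 f_pm_202 t 2 5 1 = true :=
  ⟨(b (b (b (a (c (a (a (l 15909920) (l 15868936)) (l 15730840)) (a (a (l 15679968) (l 15639416)) (l 15542544))) (a (a (c (l 15591968) (l 15449080)) (l 15473696)) (l 15414728))) (a (a (a (c (l 15848480) (l 15607672)) (c (l 15740136) (l 15566776))) (c (l 15708632) (l 15481928))) (a (a (l 15476216) (c (l 15462976) (l 15332424))) (l 15345464)))) (a (b (a (a (c (l 15788168) (l 15539376)) (c (l 15772168) (l 15499416))) (a (c (l 15671664) (l 15458368)) (l 15519968))) (a (a (c (l 15735216) (l 15480552)) (c (l 15718120) (l 15438536))) (a (c (l 15694392) (l 15395304)) (c (l 15628664) (l 15343136)))))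 (a (c (a (l 15535952) (b (l 15418264) (l 15424464))) (a (l 15302232) (l 15231448))) (a (c (b (l 15377792) (l 15304608)) (l 15182120)) (l 15222568))))) (a (b (a (a (c (b (l 15687544) (a (l 15656200) (l 15638968))) (b (a (l 15432848) (l 15415912)) (a (l 15385176) (l 15366872)))) (c (b (l 15667616) (l 15622832)) (b (l 15383264) (l 15335416)))) (a (c (l 15605512) (b (l 15341880) (l 15291968))) (c (b (a (l 15630848) (l 15594128)) (l 15579192)) (b (l 15296360) (l 15244048))))) (a (a (b (c (l 15595192) (b (l 15343648) (l 15325216))) (c (l 15571712) (a (l 15288888) (l 15290200)))) (c (b (l 15564784) (l 15532632)) (b (a (l 15306392) (l 15283264)) (a (l 15248216) (l 15229440))))) (c (a (l 15545600) (l 15525288)) (a (l 15230408) (l 15182920))))) (c (a (b (a (b (l 15517640) (l 15511920)) (l 15407576)) (a (b (l 15501952) (l 15476488)) (l 15402280))) (b (a (l 15293200) (a (l 15211856) (l 15157464))) (l 15222608))) (a (b (b (l 15194992) (l 15154280)) (a (b (l 15150736) (l 15109392)) (l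 15063032))) (b (a (l 15060560) (l 14998304)) (l 14940144)))))), by decide +kernel⟩

def k2_pm_202 : ∃ t, chk3 f_pm_202 t 8 24 1 = true :=
  ⟨(c (a (b (b (l 15578760) (l 15529424)) (a (b (l 15524712) (c (l 15648232) (l 15496344))) (l 15509208))) (b (l 15508144) (l 15515272))) (a (b (a (b (l 15289216) (l 15298664)) (l 15262480)) (b (c (l 15335904) (l 15177312)) (a (a (c (l 15345456) (l 15184152)) (l 15254336)) (l 15237816)))) (b (a (l 15241792) (l 15198848)) (l 15209136)))), by decide +kernel⟩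

def k3_pm_202 : ∃ t, chk3 f_pm_202 t 8 25 1 = true :=
  ⟨(a (a (b (b (c (b (c (l 15646568) (l 15493392)) (c (l 206323841079) (c (l 206323673911) (l 212229096103)))) (c (a (b (l 15341256) (c (l 235314378599) (l 236387971799))) (l 15328584)) (a (b (l 15199560) (c (l 237461596631) (l 238535223271))) (l 15165976)))) (a (a (b (c (c (l 221356208487) (l 243904608391)) (a (l 3) (c (l 242830476583) (l 247125208471)))) (l 3)) (c (c (l 203102600935) (b (l 15493744) (l 214913461703))) (b (c (l 15334128) (l 15169896)) (a (c (l 242830467271) (l 243903972695)) (c (l 15331096) (l 15166144)))))) (c (c (l 15639112) (l 15484184)) (c (l 15324552) (l 15160312))))) (b (b (a (a (l 3) (c (c (l 221893066375) (l 242293980839)) (a (l 3) (c (l 242830458951) (l 243903963143))))) (c (c (l 15639248) (l 15483256)) (c (l 213302551271) (l 227260959255)))) (a (l 3) (c (a (c (l 15621472) (l 214376572887)) (l 15516912)) (c (c (l 231556250055) (l 232629838935)) (c (l 233166590791) (l 234240215863)))))) (a (l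 3) (a (b (c (c (l 221893054695) (l 243367710151)) (c (l 245514869511) (l 248198911415))) (l 3)) (c (c (l 188070192343) (b (l 15480088) (l 213839687319))) (c (b (l 15318128) (l 236387985415)) (b (l 15172488) (a (l 244440811383) (l 15149264))))))))) (b (c (b (l 15545552) (l 15522584)) (c (l 15308984) (l 15146336))) (c (b (a (l 15486352) (l 15536552)) (c (l 15621416) (l 15464520))) (b (c (l 15304160) (l 15139232)) (a (c (l 15308968) (l 15142432)) (l 15214384)))))) (c (b (l 15464976) (b (l 15504320) (l 15504312))) (b (a (l 15205376) (l 15182280)) (b (l 15186832) (l 15205208))))), by decide +kernel⟩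

def k4_pm_202 : ∃ t, chk3 f_pm_202 t 8 13 1 = true :=
  ⟨(b (a (b (b (b (c (c (a (l 249273603815) (l 15623144)) (a (l 251420770551) (l 174111234231))) (a (a (l 3) (c (l 250346697831) (l 252493845831))) (a (c (l 15277560) (l 203638608999)) (l 15213880)))) (a (l 3) (a (c (c (l 204713181479) (l 205786623671)) (a (c (l 235851104295) (l 236924605271)) (c (l 15306480) (l 15138624)))) (c (l 15539592) (l 15214032))))) (a (l 3) (a (b (c (c (l 211692506375) (a (l 225113941863) (l 15470952))) (c (a (l 247125460439) (l 15307264)) (a (l 249809477879) (l 15138896)))) (a (l 3) (c (c (l 15631264) (l 212765927111)) (c (l 235314225975) (l 236387726487))))) (c (c (l 15620800) (l 15462048)) (c (l 15298504) (l 15130304)))))) (a (l 3) (a (b (c (c (l 228335622695) (l 251420752087)) (c (l 253567906295) (l 255715072071))) (l 3)) (c (c (b (l 162300379399) (l 213839993015)) (b (b (l 15464760) (l 203102259223)) (a (l 250347004551) (l 156931380615)))) (b (b (c (l 15300560) (l 15131680)) (c (l 204175704007)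 (l 226187170503))) (b (c (l 224039929719) (l 235850847575)) (c (l 243904220759) (l 246051364663)))))))) (c (b (b (l 15463680) (a (l 15521880) (l 15494528))) (a (b (l 15473488) (c (l 15610336) (l 15450768))) (b (l 15498192) (l 15503088)))) (b (a (b (l 15195616) (l 15238352)) (l 15170864)) (b (c (l 15269216) (l 15101536)) (a (c (l 15286424) (l 15117440)) (l 15176584)))))) (b (b (b (a (b (c (l 259473881751) (c (l 262694718791) (l 264841861799))) (l 3)) (a (c (a (l 141899106615) (l 15528856)) (c (l 15290368) (l 15120920))) (c (l 15507544) (l 15180120)))) (l 2)) (l 2)) (l 2))), by decide +kernel⟩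

def k5_pm_202 : ∃ t, chk3 f_pm_202 t 9 6 1 = true :=
  ⟨(b (b (a (c (a (b (l 15504656) (l 15482352)) (l 15479392)) (b (l 15185472) (b (l 15148248) (l 15138336)))) (c (l 15460856) (l 15120680))) (a (c (a (b (l 15467976) (l 15464216)) (b (l 15449320) (l 15437360))) (b (a (l 15157376) (l 15218792)) (a (l 15148704) (l 15143176)))) (c (b (l 15426832) (l 15411760)) (b (l 15091984) (l 15061488))))) (b (a (c (b (l 15451160) (l 15457168)) (b (l 15132168) (l 15134656))) (c (b (a (l 15410856) (l 15391968)) (a (l 15411248) (l 15387712))) (b (a (l 15133512) (l 15061464)) (a (l 15091448) (l 15063992))))) (b (a (c (l 15426304) (l 151495114599)) (a (l 15284064) (c (l 15389656) (l 15068280)))) (l 2)))), by decide +kernel⟩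

def k6_pm_202 : ∃ t, chk3 f_pm_202 t 5 6 1 = true :=
  ⟨(b (a (b (c (a (l 15435528) (b (l 15400680) (l 15384056))) (a (l 15065456) (b (l 15018568) (l 14988088)))) (c (a (l 15388256) (l 15354888)) (a (l 15025800) (l 14959472)))) (b (c (a (l 15292376) (l 15164200)) (c (l 14969064) (l 14789472))) (c (a (b (l 15306224) (l 15299432)) (l 15187456)) (a (b (l 14897016) (l 14877376)) (l 14795128))))) (a (b (c (a (l 15341480) (l 15325624)) (a (l 15012800) (l 14942624))) (a (c (b (l 15357584) (l 2827260182439)) (b (l 14999864) (l 2857324146791))) (c (l 15315968) (l 14950560)))) (b (c (a (l 15282424) (b (l 15215416) (l 15219840))) (a (l 14863024) (b (l 14783456) (l 14774976)))) (c (a (l 15270776) (l 15215352)) (a (l 14868480) (l 14774136)))))), by decide +kernel⟩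

def k7_pm_202 : ∃ t, chk3 f_pm_202 t 2 7 1 = true :=
  ⟨(b (a (l 2) (a (l 2) (b (c (l 993845647879) (l 857479837687)) (l 2)))) (l 2)), by decide +kernel⟩

def k8_pm_202 : ∃ t, chk3 f_pm_202 t 6 4 1 = true :=
  ⟨(a (b (b (b (c (a (l 15898584) (l 15836168)) (a (l 15928048) (l 15879360))) (c (l 15794136) (a (l 15831544) (l 15788264)))) (b (b (c (l 15734832) (l 15737768)) (b (l 15680888) (l 15640048))) (c (l 15631536) (c (l 15618568) (l 15631264))))) (b (b (c (a (l 15627728) (l 15576472)) (l 15569952)) (c (b (l 15567792) (l 15539944)) (l 15503832))) (c (l 15468672) (l 15392176)))) (b (b (a (b (c (l 15769768) (b (l 15851120) (l 15809104))) (c (l 15683688) (l 15744688))) (a (b (c (b (a (l 15739416) (l 15716448)) (l 15699408)) (b (l 15813048) (l 15749408))) (b (c (l 15668688) (l 15707752)) (l 15644048))) (b (c (l 15667224) (l 15759072)) (b (l 15687624) (c (l 15605104) (l 15645960)))))) (b (a (b (l 15644248) (l 15604472)) (a (b (l 15628112) (l 15590672)) (b (l 15599368) (l 15543016))))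 (c (a (l 15574240) (l 15517272)) (b (l 15557136) (l 15520360))))) (b (b (c (l 15471736) (l 15487976)) (c (a (l 15470144) (l 15408816)) (l 15418432))) (c (l 15337256) (c (l 15301024) (l 15297816)))))), by decide +kernel⟩

def k9_pm_202 : ∃ t, chk3 f_pm_202 t 7 4 1 = true :=
  ⟨(a (a (b (b (c (b (l 15591120) (l 15539216)) (b (l 15708864) (l 15630032))) (b (c (l 15471176) (l 15558696)) (a (c (l 15466544) (l 15483800)) (l 15439800)))) (b (b (a (l 15398568) (a (l 15377024) (l 15372440))) (c (l 15482288) (a (l 15360888) (l 15332248)))) (c (l 15261800) (l 15222048)))) (b (b (c (b (l 15480512) (l 15426640)) (b (l 15636816) (l 15552592))) (c (l 15350528) (l 15519496))) (b (c (l 15239344) (l 15299832)) (b (c (l 15305904) (l 15192144)) (a (l 15172752) (l 15319792)))))) (b (c (b (a (b (l 15357240) (l 15301208)) (b (l 15226664) (l 15169008))) (a (l 15221816) (l 15085848))) (b (a (b (l 15620032) (l 15466920)) (b (l 15476032) (l 15379576))) (a (b (l 15381688) (l 15301608)) (b (l 15287528)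 (l 15200808))))) (c (a (b (l 15125952) (l 15042176)) (b (l 14964312) (l 14896400))) (a (b (l 15191408) (l 15064208)) (b (l 15080408) (l 14939280)))))), by decide +kernel⟩

def k10_pm_202 : ∃ t, chk3 f_pm_202 t 3 5 1 = true :=
  ⟨(a (b (b (a (c (l 15354264) (l 15243480)) (b (l 15218816) (l 15156408))) (a (b (l 15200256) (l 15133648)) (b (l 15094072) (l 15031600)))) (a (b (c (l 15123064) (l 14945816)) (a (c (b (l 15059456) (l 15107352)) (l 14821320)) (a (l 14885712) (l 14871176)))) (b (b (l 14968784) (l 14905432)) (c (l 14918000) (l 14740176))))) (c (b (a (b (a (l 15157728) (b (l 15105896) (l 15060816))) (l 15149608)) (a (b (b (l 14988032) (l 14959472)) (a (l 14930024) (l 14878032))) (b (l 14820368) (l 14758632)))) (a (b (l 14924048) (l 14823064)) (a (b (l 14821232) (l 14737976)) (b (l 14714528) (l 14658152))))) (b (a (b (a (l 15105280) (l 15029032)) (l 14929920)) (a (b (l 14965264) (a (l 14887424) (l 14845168))) (b (l 14821304) (l 14728024)))) (a (b (l 14987208) (l 14687320))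 (a (b (l 14754144) (l 14642024)) (a (b (l 14701808) (l 14609888)) (b (l 14619128) (l 14572080)))))))), by decide +kernel⟩

def k11_pm_202 : ∃ t, chk3 f_pm_202 t 3 3 1 = true :=
  ⟨(b (a (a (b (b (a (c (l 15023344) (l 14737656)) (c (b (l 14902320) (l 14874368)) (l 14649416))) (c (l 14966848) (l 14638264))) (b (c (a (l 15083248) (l 14923480)) (l 14614672)) (c (a (b (l 15124824) (l 15142408)) (l 14978032)) (a (l 14677088) (l 14553312))))) (b (b (c (l 14785112) (l 14595176)) (a (c (b (l 14745648) (l 14723704)) (l 14481928)) (b (l 14582760) (l 14515688)))) (b (a (c (l 14746480) (l 14427592)) (c (b (l 14589432) (l 14570960)) (l 14295792))) (c (l 14702472) (l 14347408))))) (b (a (b (c (l 14719176) (l 14552624)) (c (l 14610768) (l 14413480))) (a (b (l 14604504) (l 14599488)) (b (a (l 14556888) (l 14556168)) (l 14450672)))) (a (b (c (a (l 14512416) (l 14483112)) (l 14248104)) (a (b (c (l 14435264) (l 14167208)) (a (l 14307280) (l 14233432))) (c (l 14366088) (l 14118232)))) (a (c (a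 (l 14408016) (l 14394344)) (l 14195816)) (b (l 14347096) (l 14426336)))))) (b (b (a (a (c (a (l 15151720) (a (l 15085464) (l 15006056))) (a (l 14691184) (l 14578624))) (c (c (l 14872080) (l 14672032)) (l 14361064))) (a (a (b (l 14277240) (l 14300464)) (c (b (l 14286000) (l 14265560)) (b (l 14009232) (l 13969112)))) (c (a (l 14232872) (l 14230256)) (a (l 13978560) (l 14008392))))) (a (a (l 2) (c (a (l 14959368) (l 14759248)) (a (l 14480800) (l 14319856)))) (a (c (a (l 14540480) (l 14304096)) (a (l 14148224) (l 13967688))) (a (c (b (l 14146912) (l 14119480)) (b (l 13862976) (l 13815592))) (c (l 14121704) (l 13864336)))))) (a (l 2) (b (a (c (l 14525736) (l 14107208)) (a (c (l 14385856) (l 13942344)) (b (l 13893296) (a (l 13841312) (l 13838712))))) (a (l 2) (a (c (l 14263144) (l 13868560)) (c (a (l 14058928) (l 13958600)) (b (l 13661832) (l 13671888))))))))), by decide +kernel⟩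

theorem s12_pm_202 : ∃ t, chk3 f_pm_202 t 3 4 1 = true := ex3_a k8_pm_202 k9_pm_202

theorem s13_pm_202 : ∃ t, chk3 f_pm_202 t 3 2 1 = true := ex3_b s12_pm_202 k10_pm_202

theorem s14_pm_202 : ∃ t, chk3 f_pm_202 t 3 1 1 = true := ex3_b s13_pm_202 k11_pm_202

theorem s15_pm_202 : ∃ t, chk3 f_pm_202 t 8 12 1 = true := ex3_b k2_pm_202 k3_pm_202

theorem s16_pm_202 : ∃ t, chk3 f_pm_202 t 8 6 1 = true := ex3_b s15_pm_202 k4_pm_202

theorem s17_pm_202 : ∃ t, chk3 f_pm_202 t 4 6 1 = true := ex3_a s16_pm_202 k5_pm_202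

theorem s18_pm_202 : ∃ t, chk3 f_pm_202 t 2 6 1 = true := ex3_a s17_pm_202 k6_pm_202

theorem s19_pm_202 : ∃ t, chk3 f_pm_202 t 2 3 1 = true := ex3_b s18_pm_202 k7_pm_202

theorem s20_pm_202 : ∃ t, chk3 f_pm_202 t 2 2 1 = true := ex3_b k0_pm_202 k1_pm_202

theorem s21_pm_202 : ∃ t, chk3 f_pm_202 t 2 1 1 = true := ex3_b s20_pm_202 s19_pm_202

theorem s22_pm_202 : ∃ t, chk3 f_pm_202 t 1 1 1 = true := ex3_a s21_pm_202 s14_pm_202

theorem c_pm_202 : CertB 0 536870912 1073741824 536870912 991146299 28908434 3 eng mog cd0q2 cd4q2 pd0 false true false .pp 2 0 2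
    ndB0q2 ndB4q2 pcB0 Cut.none Ext.none :=
  certB1 (fam := false) (s1 := true) (s2 := false) (a := 2) (b := 0) (c := 2) (cn := .pp) (n1 := ndB0q2) (n2 := ndB4q2) (pc := pcB0) (cut := Cut.none) (xt := Ext.none) (P1 := 0) (W1 := 536870912) (P2 := 1073741824) (W2 := 536870912) (P3 := 991146299) (W3 := 28908434) (N0 := 3) (En := eng) (mo := mog) (C1 := cd0q2) (C2 := cd4q2) (C3 := pd0)
    rfl (fun _ => rfl) s22_pm_202

noncomputable def f_pm_203 : ℕ → ℕ → ℕ → ℕ → Bool := onCell 0 536870912 0 1230186008 991146299 28908434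
    (rowB 3 eng mog cd0q2 cd4q3 pd0 0 false true false .up 2 0 3 (qsf 0 536870912 0 1230186008 0) ndB0q2 ndB4q3 pcB0 Cut.none Ext.none)

def k0_pm_203 : ∃ t, chk3 f_pm_203 t 1 2 1 = true :=
  ⟨(l 2), by decide +kernel⟩

def k1_pm_203 : ∃ t, chk3 f_pm_203 t 1 6 1 = true :=
  ⟨(l 2), by decide +kernel⟩

def k2_pm_203 : ∃ t, chk3 f_pm_203 t 1 14 1 = true :=
  ⟨(a (b (l 2) (b (a (l 2) (l 2)) (a (a (l 3) (a (l 3) (a (b (l 3) (c (l 303498752551) (l 306183012599))) (b (b (l 2) (a (l 275581576519) (l 16206152))) (b (a (l 203103990135) (l 16191560)) (l 16184048)))))) (a (a (a (b (l 210016220391) (l 16162984)) (l 197668200791)) (l 185320156151)) (a (l 16035976) (l 2)))))) (l 2)), by decide +kernel⟩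

def k3_pm_203 : ∃ t, chk3 f_pm_203 t 1 30 1 = true :=
  ⟨(a (a (a (l 3) (b (a (a (l 3) (b (l 3) (b (l 318531049367) (l 235853101015)))) (a (b (a (b (l 306183175623) (l 225115672743)) (b (l 193977161175) (l 16177032))) (b (l 172502315255) (l 16157624))) (b (l 16204792) (l 16135624)))) (a (b (a (l 3) (c (l 201493365255) (l 203640743335))) (a (b (l 301351327479) (l 221894439367)) (l 16249088))) (b (a (l 16138968) (l 16110008)) (l 16101304))))) (b (a (a (b (l 16118888) (l 16090696)) (l 16040664)) (a (c (l 16038136) (b (l 15960504) (l 15930640))) (c (l 15938880) (l 15870312)))) (a (a (b (l 16064240) (l 16040080)) (a (l 16002704) (b (l 15980912) (l 15956408)))) (a (c (l 15952856) (l 15870368)) (l 15853032))))) (a (a (b (a (l 15831520) (l 15751280)) (c (l 15805448) (l 15668024))) (b (l 2) (a (l 15602176) (l 15492712)))) (a (a (c (l 293766021511) (l 15282256)) (l 2)) (l 2)))), by decide +kernel⟩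

def k4_pm_203 : ∃ t, chk3 f_pm_203 t 1 31 1 = true :=
  ⟨(a (a (a (b (a (l 3) (b (l 337321500215) (c (l 242832255943) (l 246590239959)))) (a (l 3) (b (a (l 321752424951) (l 190219056167)) (a (l 214915105063) (l 16140112))))) (b (a (b (a (b (l 199345851687) (l 16147128)) (l 16124128)) (a (l 16134984) (l 16107152))) (b (l 16080744) (l 16063520))) (a (b (l 16108008) (l 16099472)) (b (l 16050368) (l 16041320))))) (c (a (b (a (l 16115584) (b (l 15980752) (l 15970896))) (a (b (l 16013672) (l 16013264)) (l 15966752))) (b (l 15878312) (l 15893520))) (a (b (a (l 16150872) (l 15899304)) (a (b (l 15963984) (l 15958872)) (l 15891064))) (b (l 15801496) (l 15771464))))) (a (a (b (c (l 15778336) (l 15614528)) (a (l 15720368) (c (l 15722568) (l 15522248)))) (b (c (a (l 15656272) (l 15543344)) (l 15380712)) (a (c (l 15610464) (l 15404872)) (l 15357744)))) (a (c (b (l 15289896) (l 15181336)) (b (l 15085912) (l 15023096))) (b (c (l 14888808) (l 14714424)) (c (l 14759744) (l 14636032)))))),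 by decide +kernel⟩

theorem s5_pm_203 : ∃ t, chk3 f_pm_203 t 1 15 1 = true := ex3_b k3_pm_203 k4_pm_203

theorem s6_pm_203 : ∃ t, chk3 f_pm_203 t 1 7 1 = true := ex3_b k2_pm_203 s5_pm_203

theorem s7_pm_203 : ∃ t, chk3 f_pm_203 t 1 3 1 = true := ex3_b k1_pm_203 s6_pm_203

theorem s8_pm_203 : ∃ t, chk3 f_pm_203 t 1 1 1 = true := ex3_b k0_pm_203 s7_pm_203

theorem c_pm_203 : CertB 0 536870912 0 1230186008 991146299 28908434 3 eng mog cd0q2 cd4q3 pd0 false true false .up 2 0 3
    ndB0q2 ndB4q3 pcB0 Cut.none Ext.none :=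
  certB0 (fam := false) (s1 := true) (s2 := false) (a := 2) (b := 0) (c := 3) (cn := .up) (n1 := ndB0q2) (n2 := ndB4q3) (pc := pcB0) (cut := Cut.none) (xt := Ext.none) (P1 := 0) (W1 := 536870912) (P2 := 0) (W2 := 1230186008) (P3 := 991146299) (W3 := 28908434) (N0 := 3) (En := eng) (mo := mog) (C1 := cd0q2) (C2 := cd4q3) (C3 := pd0)
    rfl s8_pm_203

noncomputable def cut_pm_213 : Cut := Cut.of [[⟨0, 1, 0, 37748736⟩, ⟨1, 1, 0, 37748736⟩, ⟨2, 2, 0, 5242880⟩]]

noncomputable def xt_pm_213 : Ext := extD3 3 ⟨4, 1, 1, 5, 22, 5, 21, 25, 41, 100, 1, 20⟩ eng cd0q2 cd4q3 pd1 false true false .pnn 2 1 3 rfl ndB0q2 ndB4q3 pcB1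

noncomputable def f_pm_213 : ℕ → ℕ → ℕ → ℕ → Bool := onCell 0 536870912 0 1230186008 991146299 28908434
    (rowB 3 eng mog cd0q2 cd4q3 pd1 0 false true false .pnn 2 1 3 (qsf 0 536870912 0 1230186008 1) ndB0q2 ndB4q3 pcB1 cut_pm_213 xt_pm_213)

def k0_pm_213 : ∃ t, chk3 f_pm_213 t 2 2 1 = true :=
  ⟨(l 3), by decide +kernel⟩

def k1_pm_213 : ∃ t, chk3 f_pm_213 t 6 4 1 = true :=
  ⟨(l 3), by decide +kernel⟩

def k2_pm_213 : ∃ t, chk3 f_pm_213 t 14 8 1 = true :=
  ⟨(l 3), by decide +kernel⟩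

def k3_pm_213 : ∃ t, chk3 f_pm_213 t 28 9 1 = true :=
  ⟨(a (l 3) (b (l 3) (a (l 3) (b (l 3) (b (a (l 3) (b (l 3) (a (l 3) (b (l 3) (a (l 3) (b (l 3) (c (l 181630110199) (l 176261322615)))))))) (b (a (l 3) (c (a (b (l 177335133767) (a (l 182166964087) (l 178945701815))) (b (a (l 183777565879) (l 181630065463)) (l 16755096))) (a (b (a (l 3) (l 172503206311)) (a (l 177871927495) (l 174113823207))) (b (c (l 173576970631) (l 171429440295)) (l 16707584))))) (c (b (a (a (l 3) (l 183777567575)) (l 181630048343)) (a (a (l 182703816263) (l 180556296871)) (l 16746408))) (a (a (b (l 3) (l 178408781943)) (b (a (l 176261285687) (l 181093141063)) (l 176261290391))) (c (l 16712432) (l 16688248)))))))))), by decide +kernel⟩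

def k4_pm_213 : ∃ t, chk3 f_pm_213 t 58 18 1 = true :=
  ⟨(l 3), by decide +kernel⟩

def k5_pm_213 : ∃ t, chk3 f_pm_213 t 59 36 1 = true :=
  ⟨(a (l 3) (b (l 3) (a (l 3) (b (l 3) (a (l 3) (b (l 3) (a (l 3) (a (l 3) (c (l 334101468663) (c (l 321216567575) (l 324437793591))))))))))), by decide +kernel⟩

def k6_pm_213 : ∃ t, chk3 f_pm_213 t 118 37 1 = true :=
  ⟨(b (l 3) (a (b (l 3) (a (l 3) (b (l 3) (c (a (l 308331662007) (b (l 219747962839) (l 176798286999))) (c (a (l 311552888791) (b (l 216526738663) (l 172503325943))) (a (l 5341636001975399954672853535) (l 2962469360919830755791921695))))))) (b (a (l 3) (b (a (l 3) (b (l 3) (c (l 310479147495) (c (l 229411640903) (l 229948512599))))) (c (a (b (l 310479146935) (l 177335162647)) (l 181630125415)) (a (b (l 315847836615) (a (l 160155272679) (l 173040175319))) (c (l 178945757575) (l 172503306119)))))) (a (b (a (b (l 3) (c (a (l 214916124583) (l 173040194631)) (c (l 163913389831) (l 158544669351)))) (c (b (l 173577065607) (l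 184314481223)) (c (l 172503305255) (l 2991483220879130005581750815)))) (c (a (l 183240738359) (l 16774848)) (a (c (l 177335160263) (l 3155896698848189448353047071)) (l 16775688)))) (b (c (l 188609448887) (c (l 183777612839) (l 181093231015))) (l 16756976)))))), by decide +kernel⟩

def k7_pm_213 : ∃ t, chk3 f_pm_213 t 119 37 1 = true :=
  ⟨(b (a (b (l 3) (a (b (l 3) (a (l 3) (b (l 3) (c (a (l 311552889879) (l 174113934119)) (a (l 215452998039) (l 167671484583)))))) (c (b (a (l 333564595927) (b (l 313700373607) (a (l 227801028903) (l 185925095367)))) (a (b (a (l 222969190023) (l 180019514887)) (l 16768248)) (l 16774616))) (b (a (l 319605953511) (b (a (l 3) (l 232095996823)) (a (l 163913388743) (l 178945775143)))) (a (c (c (l 178945772855) (l 177335160471)) (l 3329982845246820611635060767)) (l 16770024)))))) (b (a (b (l 3) (a (a (l 3) (b (l 3) (c (l 238001576231) (b (l 224579802359) (l 165524002199))))) (b (c (a (l 314774116023) (l 230485384167)) (a (l 320142826343) (b (l 217063610007)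 (l 175187678983)))) (c (l 185925095223) (l 179482645815))))) (b (a (b (l 3) (c (a (l 314774116663) (l 180019516071)) (a (b (l 3) (l 159618422423)) (l 172503324295)))) (b (c (a (l 240685931495) (l 185388225495)) (a (b (l 227801028375) (l 169818969943)) (l 179482646887))) (c (l 16774272) (l 16764336)))) (c (l 192367546615) (c (l 188072581463) (l 184851356567))))) (a (b (c (a (l 185925094791) (l 16775488)) (c (l 182703870727) (l 3223596777348536873856131103))) (l 16756688)) (l 16758928)))) (b (a (a (b (a (b (c (l 235317215175) (a (l 3) (l 161765900967))) (c (l 181630126471) (a (l 169818960167) (l 16752856)))) (c (l 187535707015) (c (l 182166999927) (l 178945767671)))) (c (l 16754656) (l 16755384))) (c (l 16756904) (l 16757560))) (l 16762704)) (c (l 16762872) (l 16762344)))), by decide +kernel⟩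

def k8_pm_213 : ∃ t, chk3 f_pm_213 t 58 76 1 = true :=
  ⟨(a (l 3) (a (l 3) (b (a (l 3) (b (l 3) (a (l 3) (b (l 3) (c (l 168208354871) (c (l 162302776343) (l 156934025527))))))) (c (a (b (l 305647300423) (a (c (l 171429579271) (l 167671473463)) (b (a (l 169282096791) (l 174650802951)) (l 181630125559)))) (c (b (a (l 175724547655) (l 181093254055)) (l 16774080)) (b (a (l 171966441799) (l 176798287431)) (l 16753632)))) (c (a (b (l 308868511719) (a (b (l 3) (a (l 158544668615) (l 164450228631))) (b (a (l 162302770535) (l 168745222503)) (l 177335129607)))) (b (a (b (l 159081550407) (a (l 167134614359) (l 174113914023))) (b (l 171966433863) (l 16772808))) (a (l 16768968) (l 16769976)))) (a (b (l 5331963541071546231323140639) (a (l 2865754148481782539160396319) (b (l 2972139724370820783036031519) (l 175187612519)))) (c (b (l 3049510540878116916419580447) (l 16749552)) (l 3030169007939041611619983903)))))))), by decide +kernel⟩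

def k9_pm_213 : ∃ t, chk3 f_pm_213 t 116 77 1 = true :=
  ⟨(a (l 3) (b (l 3) (a (b (l 3) (a (l 3) (a (l 3) (b (l 3) (c (l 175187655047) (c (l 169818918135) (l 167134515543))))))) (b (a (l 3) (b (l 3) (c (c (l 178945772135) (c (l 175187676711) (l 172503318855))) (c (b (c (l 162839619159) (l 161765842647)) (a (l 166597701207) (c (l 173040164983) (a (l 176261365847) (l 177335096727))))) (c (l 3039838567372049992561906207) (a (l 160692061639) (b (l 160692062711) (a (l 173576976007) (l 174650717735))))))))) (c (c (a (l 185925084119) (l 183777607847)) (a (b (l 174650805703) (a (l 181093256135) (l 182703847895))) (b (a (l 178408882839) (l 16772424)) (l 16771744)))) (a (b (a (l 3) (c (c (l 173577031623) (l 171966394695)) (c (l 171429499527) (l 170355733415)))) (a (b (c (l 173040145111) (l 171429483943)) (c (l 175724475335) (l 173040113303))) (b (c (l 178408832087) (l 175724468519)) (l 16733712)))) (b (c (a (b (c (l 178945742391) (l 177871976167)) (l 181093188855)) (l 16749104))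 (a (b (c (l 176798209895) (l 166060780919)) (l 178408823911)) (l 16724304))) (l 16734392)))))))), by decide +kernel⟩

def k10_pm_213 : ∃ t, chk3 f_pm_213 t 234 77 1 = true :=
  ⟨(a (b (a (l 3) (b (l 3) (c (c (l 174650794551) (b (l 162302774279) (a (l 169282097223) (l 171966449495)))) (c (b (l 158007761047) (c (a (l 166060853895) (l 169818951127)) (a (b (l 3) (l 167671441031)) (b (l 170355798167) (l 16749624))))) (c (l 2943124639576999459115717151) (b (l 153175882663) (c (l 3001155744184789934358827551) (a (l 160155193687) (l 166597653687))))))))) (b (a (b (c (c (l 175724547143) (a (l 166060871335) (b (l 169818968311) (l 174650796791)))) (c (c (a (l 162302752183) (b (l 166597721239) (l 172503288215))) (a (b (l 3) (a (l 3) (l 164450210583))) (b (a (l 158007761927) (l 162839600391)) (l 171966392551)))) (c (l 2972138789207769154435535391) (c (l 2952798619166484398818021919) (a (l 156397092743) (b (l 161228932023) (l 169282001127))))))) (c (c (l 184851350279) (c (l 182703868567)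 (l 181630115367))) (c (a (b (c (l 175724511031) (a (b (l 165523950647) (l 177335097863)) (l 181093195623))) (l 16750920)) (l 16751696)) (a (c (l 3155895559041361844804801055) (b (c (l 3097869611163231099805258271) (l 170892611591)) (l 16719848))) (l 16726656))))) (b (c (c (l 16772040) (l 178408896007)) (a (c (c (l 176261386791) (l 175724491239)) (c (l 174650731127) (l 173040112023))) (l 16741704))) (c (l 16773712) (l 16739392)))) (c (l 16753936) (l 16735840)))) (b (b (a (a (l 3) (b (l 3) (c (l 168208349367) (c (l 161765857927) (l 2846411237946018042436330015))))) (c (c (l 174113935191) (b (l 167671484263) (l 175187658135))) (c (b (c (l 163913385175) (l 162302747543)) (a (b (l 167134595047) (l 175187632903)) (l 178945732007))) (b (l 2875425509786492721019839007) (l 3030167364737643256331919903))))) (a (c (b (c (l 176261419159) (a (l 167134614071) (l 176261417719))) (l 16762200)) (c (b (b (a (l 161229009639) (l 172503276295)) (c (l 173040168887) (l 171966402295))) (l 16756856))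 (b (a (a (c (l 157470874887) (l 156397108167)) (l 2943125028831614889945162271)) (l 3088195676104832263234495007)) (l 16731464)))) (c (l 16773728) (b (l 16746760) (l 16744568))))) (c (l 16756008) (l 16738712)))), by decide +kernel⟩

def k11_pm_213 : ∃ t, chk3 f_pm_213 t 235 77 1 = true :=
  ⟨(b (a (b (c (a (c (l 181630125015) (l 177872029751)) (l 16774456)) (a (b (a (c (l 171966415143) (l 3049510703871939913404883487)) (l 16741184)) (l 16749400)) (l 16751008))) (l 16731088)) (b (l 16756672) (l 16775456))) (l 16768368)), by decide +kernel⟩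

def k12_pm_213 : ∃ t, chk3 f_pm_213 t 58 39 1 = true :=
  ⟨(b (a (a (b (a (l 3) (b (l 3) (c (c (l 184851331383) (b (l 175724530455) (l 174113914119))) (c (a (l 172503255895) (b (l 175724484071) (l 176798200951))) (a (l 170355725527) (b (l 174113823847) (l 174113844007))))))) (a (c (b (c (l 183240738839) (l 178408872951)) (c (l 183777613879) (l 178408865319))) (a (b (l 168745137815) (c (l 173576979751) (l 170892608279))) (b (c (l 177871956071) (l 176261296439)) (l 16716776)))) (b (c (c (l 183240736487) (l 180556339991)) (a (c (l 176798196887) (l 174113838951)) (l 16721328))) (l 16720288)))) (b (a (b (a (b (l 3) (c (c (l 185388223575) (l 180019503927)) (c (a (l 173040134183) (l 181630069127)) (a (l 170892602871) (l 178945689623))))) (b (c (c (l 178945773111) (l 174650800199)) (c (a (l 175724493655) (l 176261343991)) (a (l 174113853767) (l 173576981719)))) (c (l 185925065959) (c (l 16741808) (l 16717304))))) (c (c (l 185925092231) (l 182703833703)) (a (c (l 180019431367) (l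 177335067623)) (l 16726040)))) (b (a (b (c (l 16772712) (l 16728032)) (l 16754624)) (l 16735328)) (l 16751824))) (c (l 16770728) (l 16718728)))) (a (c (l 16758504) (l 16724000)) (l 16755680))) (a (a (b (c (l 16759200) (l 16709224)) (l 16725000)) (l 16731016)) (l 16734848))), by decide +kernel⟩

def k13_pm_213 : ∃ t, chk3 f_pm_213 t 59 19 1 = true :=
  ⟨(b (b (a (a (b (a (b (a (l 3) (b (l 3) (c (l 174650806951) (c (l 168745228343) (l 163913358023))))) (c (a (b (l 171429580887) (l 179482641671)) (l 184314480487)) (c (a (b (l 165524002311) (l 174113924039)) (l 178945768231)) (a (l 2952797094571599063638516255) (l 3194581634187539431081075231))))) (b (b (a (c (l 178408903975) (c (l 172503325303) (l 167134566599))) (c (l 16773344) (l 16773096))) (c (l 186998835575) (c (l 16753552) (l 180556334119)))) (c (l 16775904) (l 16767752)))) (a (b (c (l 16754136) (l 16761864)) (l 16757408)) (l 16759560))) (b (c (l 16758936) (l 16773240)) (l 16764720))) (l 16757112)) (a (c (l 16762912) (l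 16749376)) (l 16771112))) (b (l 16749616) (l 16752752))), by decide +kernel⟩

def k14_pm_213 : ∃ t, chk3 f_pm_213 t 30 16 1 = true :=
  ⟨(l 3), by decide +kernel⟩

def k15_pm_213 : ∃ t, chk3 f_pm_213 t 60 17 1 = true :=
  ⟨(b (l 3) (a (l 3) (b (l 3) (a (l 3) (b (a (l 3) (b (l 3) (a (l 3) (a (l 3) (b (l 3) (c (l 385104207927) (c (l 389399175511) (l 6337189146563874568802959583)))))))) (a (b (l 3) (a (a (l 3) (b (l 3) (b (l 3) (c (c (l 320679698743) (a (l 384030466231) (l 249275868007))) (c (l 4993465993692319183891358943) (a (l 331417117367) (l 233706612055))))))) (a (b (l 3) (b (c (a (l 323364053399) (l 234780352007)) (c (l 4780695088351246604014052575) (l 4422250648294327794592481503))) (c (l 16772808) (l 190220066983)))) (b (a (b (l 3) (c (b (l 340007051751) (l 247128383351)) (b (l 330343375783) (l 174113939783)))) (b (c (l 339470180775) (l 330343375719)) (c (l 193978163095) (l 183240745143)))) (c (l 16774672) (l 16773568)))))) (b (a (b (l 3) (a (a (l 3) (b (l 3) (b (l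 3) (c (l 242833416055) (l 228874772791))))) (a (b (c (l 385104208327) (l 331417117543)) (c (l 238001577879) (l 182167003623))) (b (c (b (l 324437795671) (l 236927836423)) (b (l 330343376135) (l 176261423463))) (c (l 16774312) (l 16774512)))))) (a (b (b (l 3) (a (c (l 338933310231) (b (l 3) (l 238538449287))) (c (b (l 315310989383) (l 16774032)) (b (l 228337902135) (l 189683196663))))) (c (l 203104968839) (b (l 191293809143) (l 16775176)))) (b (b (a (c (b (l 385104208759) (l 247665254679)) (b (l 331417117975) (l 173577069223))) (c (l 193978163511) (l 183777616583))) (c (l 16774536) (l 16773408))) (l 16775640)))) (a (b (c (a (b (c (l 258939545015) (l 243907159687)) (l 16774552)) (l 16775120)) (c (l 3475054832214783594567181535) (l 3416424366374966629157388511))) (l 16765624)) (l 16766736))))))))), by decide +kernel⟩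

def k16_pm_213 : ∃ t, chk3 f_pm_213 t 61 34 1 = true :=
  ⟨(l 6), by decide +kernel⟩

def k17_pm_213 : ∃ t, chk3 f_pm_213 t 61 70 1 = true :=
  ⟨(b (l 6) (b (a (a (l 3) (l 6)) (a (l 6) (l 6))) (a (a (a (l 3) (a (l 3) (a (b (l 3) (b (l 3) (a (a (l 3) (b (l 3) (c (l 317458474311) (l 4344879395838845017487179999)))) (c (b (c (l 323900926023) (l 249812740327)) (l 200420615799)) (b (c (l 249812740487) (l 232096000567)) (l 190756939527)))))) (b (b (l 3) (c (l 386714822743) (c (l 348060116663) (l 6105075389197814227653181663)))) (c (b (a (b (l 389936047959) (c (l 256255191319) (l 247665255895))) (b (l 236927837623) (l 16774744))) (l 16773720)) (a (b (b (l 333564602519) (c (l 233706612343) (l 170355845063))) (l 199346874343)) (c (l 196125648535) (l 190220068663)))))))) (a (a (a (b (a (b (l 3) (c (b (l 326585280727) (l 193978164887)) (b (c (l 331417119159) (l 240685933895)) (l 183777617703)))) (b (a (c (l 387788564455) (l 6095403982640829093254545631)) (b (l 3) (c (l 249275868951)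 (l 174113941591)))) (c (l 204178712455) (c (l 196125648983) (l 193441294567))))) (c (l 16775608) (l 16774416))) (b (c (a (b (b (c (l 256255188967) (l 247665256167)) (l 16774760)) (l 16775272)) (l 16775392)) (c (l 3533083869346087582872266463) (l 3474452805716479068746989791))) (l 16776568))) (c (l 16771984) (l 16772040))) (l 16758744))) (l 16755336)))), by decide +kernel⟩

def k18_pm_213 : ∃ t, chk3 f_pm_213 t 61 71 1 = true :=
  ⟨(a (a (b (a (b (a (l 3) (a (l 3) (b (l 3) (b (c (l 385104208855) (c (l 346986374359) (l 333564601751))) (a (c (b (l 387788563799) (l 247665255143)) (c (l 4983795316934719445711824095) (l 4547978933534258162294620383))) (c (b (l 236390966199) (l 16774488)) (l 183777616999))))))) (a (a (b (l 3) (b (a (l 3) (b (l 3) (c (l 323364054439) (c (l 228874773239) (l 228337902695))))) (c (a (b (l 324437796071) (l 193978163895)) (l 16774312)) (c (l 4258439203164791854760158431) (l 3242339048350457897696428255))))) (b (b (l 3) (a (c (l 387251692407) (l 332490859767))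 (c (b (l 340543923479) (l 236390965959)) (c (l 250886480423) (l 4431922054851252524572229855))))) (c (b (c (l 241222803831) (l 193441292823)) (l 16774992)) (c (l 194515034839) (l 188072584231))))) (b (c (a (b (a (l 340007052519) (b (l 323900925591) (l 16774264))) (l 201494356695)) (l 16772496)) (a (a (b (c (l 330343376375) (l 6124418202311733300441039071)) (l 188609455207)) (c (l 3417026899294229520269976799) (l 3348724520476549044642087135))) (b (l 198810002743) (l 16775592)))) (c (l 16776024) (l 16776144))))) (b (b (a (a (a (l 3) (b (l 3) (a (c (l 386177951207) (l 332490860343)) (b (l 3) (c (l 249812739351) (l 174650811767)))))) (b (a (c (l 389399176551) (l 348596987575)) (c (b (l 341617665799) (l 236927837367)) (b (c (l 331953989639) (l 333027731639)) (l 179482650119)))) (c (a (b (l 247665255399) (l 16774496)) (l 16774784)) (c (l 3436369683296795870620869855) (l 186998843015))))) (c (c (l 207936807879) (l 204715582855)) (c (l 199346873847) (l 3542152651614900982590144735))))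 (a (c (a (a (b (b (l 324974667463) (l 193978164375)) (l 16774776)) (l 205789324519)) (l 16775584)) (a (b (a (b (c (l 244444030935) (l 241222805639)) (l 183240746231)) (l 193978164759)) (l 16775152)) (l 16775704))) (l 16766512))) (c (l 16767608) (l 16767656)))) (a (b (a (c (l 16773624) (b (l 16773088) (l 16777040))) (l 16757136)) (l 16758944)) (l 16758080))) (b (a (b (l 16773800) (l 16778840)) (l 16776552)) (l 16774080))) (a (l 16769456) (l 16762536))), by decide +kernel⟩

def k19_pm_213 : ∃ t, chk3 f_pm_213 t 31 8 1 = true :=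
  ⟨(b (l 6) (b (l 6) (a (a (b (l 16739368) (l 16752024)) (l 16742376)) (l 16679312)))), by decide +kernel⟩

def k20_pm_213 : ∃ t, chk3 f_pm_213 t 120 72 1 = true :=
  ⟨(a (l 3) (b (l 3) (a (l 3) (b (a (l 3) (b (l 3) (c (l 378124884359) (c (l 382956723063) (l 346449501415))))) (a (b (l 3) (c (a (l 319605955751) (c (l 251423351111) (l 236927834215))) (a (c (l 323900923607) (l 5901975851502614800416997599)) (b (c (l 243370287527) (l 228874773287)) (l 183777615223))))) (b (c (a (b (l 379735497879) (l 247665254551)) (b (l 232095996279) (l 16773992))) (a (b (l 328195891031) (c (l 229948513351) (l 233706611751))) (c (l 182703873047) (l 179482648023)))) (c (l 16769360) (l 191830678935)))))))), by decide +kernel⟩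

def k21_pm_213 : ∃ t, chk3 f_pm_213 t 120 73 1 = true :=
  ⟨(a (b (a (l 3) (b (l 3) (a (l 3) (b (c (l 335712082215) (c (l 342154533815) (l 326585277847))) (c (a (b (l 319605955607) (l 227801028375)) (l 187535710327)) (a (b (l 324437794727) (l 168745228999)) (l 177872034487))))))) (a (b (a (l 3) (b (l 3) (c (a (l 334638340471) (l 243907155031)) (a (l 323364052327) (b (l 231559125143) (l 172503325255)))))) (b (a (a (l 3) (b (l 3) (c (l 229411642823) (l 163913390327)))) (c (l 187535709319) (l 178945775415))) (a (c (a (l 233706610375) (l 16773776)) (c (l 177335162663) (l 173577067159))) (l 16764904)))) (b (a (b (c (a (l 317995342791) (b (l 242296544983) (l 16773560))) (a (b (l 3) (l 219747965287)) (b (l 224042932791) (l 16771424)))) (c (l 189683193415) (l 183777614343))) (c (l 16770008) (b (l 16769760) (l 16776392)))) (c (l 16756192) (l 16756624))))) (b (a (b (a (a (l 3) (b (l 3) (b (l 3) (c (l 242833416023) (l 224042932919))))) (b (c (a (l 378124884663) (b (l 319605955959)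 (l 232095996263))) (a (l 344838888935) (b (l 324974665879) (l 174113938567)))) (c (c (l 196125645671) (l 191830676135)) (c (l 183240743911) (l 180019518855))))) (b (a (c (a (b (l 317995343415) (l 16772152)) (l 16773984)) (a (b (l 238538449319) (l 177872034791)) (l 185925098807))) (l 16770248)) (c (l 16765344) (l 16765736)))) (b (a (b (c (l 193978161239) (l 185925097959)) (l 16775832)) (l 16755888)) (l 16757824))) (c (l 16760160) (l 16760448)))), by decide +kernel⟩

def k22_pm_213 : ∃ t, chk3 f_pm_213 t 121 36 1 = true :=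
  ⟨(b (a (b (a (b (l 3) (a (l 3) (b (l 3) (c (a (l 382419852087) (b (l 337322696215) (c (l 253033963959) (l 238001578711)))) (a (l 388862303639) (b (l 328732762215) (c (l 234243480983) (l 172503326423)))))))) (a (b (l 3) (b (a (b (l 3) (c (l 321216569159) (c (l 326585278695) (l 6085732576084048742894289183)))) (b (c (c (l 319605956615) (l 321753440519)) (c (l 4974123211707362580384752927) (l 4489950494192739950269366559))) (c (l 193978162375) (l 183777615271)))) (c (c (l 197736258023) (l 194515033127)) (c (l 191293808247) (l 187535712135))))) (b (a (b (l 3) (b (l 3) (c (a (l 321753440343) (l 234780351687)) (c (l 248738997095) (l 4422250648294322571912003871))))) (b (c (l 381346110791) (c (l 385641078471) (l 346986373079))) (b (c (c (l 254107706055) (l 253033964471)) (c (l 239075321015) (l 3116610763110525056092832031))) (c (l 16774168) (l 16774416))))) (c (l 199883741991) (c (l 195588775687) (l 192367550439)))))) (a (b (a (a (b (l 3) (b (c (l 320142827159) (c (l 325511536775)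 (l 6076061169527125387304730847))) (c (l 187535710903) (l 180019518791)))) (b (b (l 3) (c (c (l 318532214567) (l 320142827607)) (c (l 243370287511) (l 242296546023)))) (c (l 196125645703) (l 186998840503)))) (b (c (a (b (c (l 248738996327) (l 247665254791)) (l 16773856)) (l 16774392)) (a (b (c (l 248202126023) (l 233706611719)) (l 16771536)) (l 16774680))) (c (l 16775344) (l 16775616)))) (c (l 16771312) (a (l 16765464) (l 16777664)))) (c (l 16768224) (l 16768384)))) (b (a (b (a (b (c (a (b (l 322290309943) (c (l 244444030007) (l 236927835671))) (b (l 193978162663) (l 16774592))) (a (b (c (l 327659020743) (l 6105075389197888375967400223)) (c (l 182703873815) (l 178945777863))) (l 188072582791))) (c (l 16775168) (l 16764896))) (c (l 16765800) (l 16765968))) (l 16767720)) (l 16769912)) (l 16758016))) (a (c (l 16758256) (l 16758224)) (l 16773024))), by decide +kernel⟩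

def k23_pm_213 : ∃ t, chk3 f_pm_213 t 60 37 1 = true :=
  ⟨(a (b (a (b (a (b (c (l 16755360) (l 16766336)) (l 16758400)) (l 16760600)) (l 16760656)) (l 16777328)) (l 16772808)) (b (l 16768240) (l 16760856))), by decide +kernel⟩

def k24_pm_213 : ∃ t, chk3 f_pm_213 t 61 18 1 = true :=
  ⟨(b (a (b (a (l 16753648) (l 16768136)) (l 16742704)) (l 16733560)) (a (l 16752928) (l 16740784))), by decide +kernel⟩

def k25_pm_213 : ∃ t, chk3 f_pm_213 t 30 19 1 = true :=
  ⟨(a (b (a (l 16741416) (l 16750704)) (l 16744384)) (b (l 16733992) (l 16722888))), by decide +kernel⟩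

def k26_pm_213 : ∃ t, chk3 f_pm_213 t 31 9 1 = true :=
  ⟨(b (a (b (l 16691856) (l 16720376)) (b (l 16705624) (l 16691928))) (a (l 16661968) (l 16676312))), by decide +kernel⟩

def k27_pm_213 : ∃ t, chk3 f_pm_213 t 12 10 1 = true :=
  ⟨(l 3), by decide +kernel⟩

def k28_pm_213 : ∃ t, chk3 f_pm_213 t 26 10 1 = true :=
  ⟨(l 3), by decide +kernel⟩

def k29_pm_213 : ∃ t, chk3 f_pm_213 t 27 20 1 = true :=
  ⟨(b (l 3) (a (l 3) (a (l 3) (a (l 3) (b (l 3) (b (l 3) (c (l 191293630103) (b (l 190756689911) (l 189146066983))))))))), by decide +kernel⟩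

def k30_pm_213 : ∃ t, chk3 f_pm_213 t 27 21 1 = true :=
  ⟨(b (b (a (l 3) (a (a (l 3) (a (l 3) (b (l 3) (c (l 195051701703) (l 196125372055))))) (a (c (b (l 193441101911) (a (l 190756730951) (l 184851126871))) (b (a (l 3) (l 191830393175)) (c (l 188609189671) (a (l 189146025831) (l 185924792519))))) (c (b (l 184851140167) (l 16665528)) (b (c (l 185924845415) (l 185387935591)) (l 16625816)))))) (a (l 3) (a (a (b (l 3) (c (a (l 197199160247) (l 190219834343)) (c (l 195051621559) (a (l 199883427095) (l 190756615015))))) (c (b (a (l 193441074391) (l 187535471783)) (l 16653896)) (b (c (l 191830405383) (a (l 195588468087) (l 188072268343))) (a (l 186461642247) (l 16614824))))) (b (a (c (l 16659544) (l 16620968)) (l 16635568)) (l 16627624))))) (b (a (a (l 3) (a (b (l 3) (c (a (l 207399688007) (l 196125394279)) (b (a (l 3) (l 205789007335)) (c (l 201494050087) (l 202567757319))))) (c (b (a (l 202030988439) (l 193977920423)) (a (l 189682922407) (l 16642312))) (c (b (a (l 203641550167)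 (l 193440997063)) (l 187535403479)) (b (a (l 204715257351) (l 193977832375)) (a (l 190756592263) (l 16596936))))))) (a (b (a (c (l 185924835607) (c (l 185924798135) (l 186461633607))) (l 16625072)) (a (l 16620224) (l 16614648))) (l 16611552))) (a (b (a (a (l 3) (b (l 3) (c (l 204178446327) (c (l 206325880135) (l 207936458999))))) (c (a (a (l 191293541927) (l 16637392)) (l 16633832)) (a (b (c (l 195051588967) (l 196662166583)) (a (l 189682833495) (l 16599432))) (l 16597096)))) (a (b (a (l 3) (c (l 197199115047) (c (l 199346548103) (a (l 206325839079) (l 191830310999))))) (c (a (l 209547146551) (l 188072282023)) (c (a (l 211157710471) (l 189145988231)) (a (l 212231419079) (l 191293437799))))) (c (l 16626472) (l 16589664)))) (a (l 16601496) (l 16589336))))), by decide +kernel⟩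

def k31_pm_213 : ∃ t, chk3 f_pm_213 t 24 11 1 = true :=
  ⟨(l 3), by decide +kernel⟩

def k32_pm_213 : ∃ t, chk3 f_pm_213 t 25 11 1 = true :=
  ⟨(b (l 3) (a (a (l 3) (b (l 3) (b (l 3) (b (a (l 3) (a (l 3) (c (b (l 3) (l 230484967175)) (c (l 240685476295) (l 243906672295))))) (c (a (c (l 244980495367) (l 248201692903)) (a (b (l 234779930327) (l 203641421047)) (b (l 201493933207) (l 16553952)))) (c (a (l 250886019031) (a (l 227263688903) (l 196125201847))) (a (l 254644086487) (a (l 229948013783) (l 195588301559))))))))) (b (a (l 3) (b (l 3) (b (a (l 3) (c (b (c (l 226726930103) (l 227263771783)) (c (l 212768276695) (l 213305117991))) (c (b (l 228874354743) (a (l 226726864071) (l 200420177911))) (b (l 231558678999) (a (l 229411188215) (l 199346434103)))))) (a (c (b (a (l 3) (l 227800646615)) (c (l 218136977863) (l 218673819479))) (c (a (l 238001151143) (b (l 231021827735) (l 206325756567))) (a (l 240685475831) (b (l 233706152055) (l 205252009031))))) (c (a (c (l 198272751943)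 (l 199346464503)) (l 16572512)) (b (c (l 198809562839) (l 197735820567)) (l 16540616))))))) (c (b (a (a (a (l 3) (b (l 3) (c (l 228337510999) (l 231021836823)))) (b (b (a (l 3) (l 236927444279)) (c (l 223505678935) (l 224042520871))) (b (c (l 207936412647) (l 207936383303)) (a (l 16565160) (l 16562104))))) (a (b (a (c (l 204178322327) (l 204178292743)) (l 16568592)) (l 16560008)) (l 16558816))) (a (b (a (a (b (l 226189993511) (l 198809574663)) (b (l 16563136) (l 16558072))) (l 16556008)) (l 16548848)) (l 16541368))) (b (a (a (a (l 3) (b (l 3) (c (l 233706162135) (l 236390486919)))) (b (b (a (l 3) (l 241222373799)) (c (l 224042491383) (l 225116203191))) (b (c (l 207936353431) (l 208473193959)) (a (l 16535192) (l 16531600))))) (b (a (b (c (l 203641393575) (l 203641362855)) (l 16537040)) (l 16532448)) (l 16525176))) (a (b (a (b (c (l 212768184055) (l 213305024903)) (a (l 195588334535) (l 16527888))) (l 16525208)) (a (l 16521456) (l 16514208))) (l 16508552))))))), by decide +kernel⟩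

def k33_pm_213 : ∃ t, chk3 f_pm_213 t 52 22 1 = true :=
  ⟨(b (l 3) (b (a (l 3) (a (l 3) (b (l 3) (a (l 3) (b (l 3) (c (l 211157675687) (c (l 212231391815) (l 213305101831)))))))) (b (a (l 3) (a (a (l 3) (b (l 3) (c (l 217600139879) (c (l 219210706599) (l 220284417063))))) (c (a (b (l 214378897287) (l 196125278999)) (b (l 193440928007) (l 16595488))) (c (a (b (l 215452613751) (l 198272729367)) (l 193440895783)) (a (b (l 216526323991) (l 199346439591)) (b (l 196662088183) (l 16555192))))))) (a (a (l 3) (a (l 3) (b (l 3) (c (l 225116324967) (c (l 226190021399) (l 228337474103)))))) (a (b (c (a (l 221358232423) (l 199346500599)) (a (c (l 222431928551) (l 224042510135)) (c (l 201493951463) (l 202030790999)))) (c (c (l 195588429575) (l 197735883431)) (a (c (l 204178307159) (l 205252017415)) (l 16559960)))) (c (l 16589552) (l 16557152))))))), by decide +kernel⟩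

def k34_pm_213 : ∃ t, chk3 f_pm_213 t 53 22 1 = true :=
  ⟨(a (a (b (l 3) (b (b (a (c (l 226726929479) (c (l 227263796295) (l 228337506743))) (b (c (l 219747648711) (c (l 220821343815) (l 221895053799))) (c (l 204715253543) (c (l 204178335255) (l 206862657527))))) (c (a (b (l 207936475095) (l 16602352)) (l 16601872)) (b (a (c (l 209010169895) (l 210083879671)) (l 16572152)) (c (l 16576800) (l 16560392))))) (b (c (l 16593480) (l 16560592)) (l 16566744)))) (b (b (l 3) (b (l 3) (c (c (l 210620864631) (a (l 219210771079) (l 202030895959))) (c (a (l 219747610679) (b (l 214378900071) (l 198272757175))) (a (b (l 3) (l 218673831655)) (b (l 215452609543) (l 200420213271))))))) (b (c (b (a (b (l 199346529399) (l 16606312)) (l 16605872)) (l 16597472)) (b (a (b (c (l 200957113367) (l 203641435383)) (l 16573888)) (l 16572960)) (l 16564040))) (l 16565128)))) (b (b (a (l 3) (b (a (l 3) (c (l 214378978279) (c (l 215452671991) (l 216526381063)))) (c (c (l 202567817959) (a (l 208473368583)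 (l 192904106439))) (c (b (l 207936467175) (l 199883393239)) (a (b (l 218673855927) (l 206325814247)) (b (l 203641463143) (l 16579512))))))) (a (b (a (b (l 3) (c (l 209547113383) (c (l 211157678231) (l 212231387447)))) (b (c (l 206862762935) (c (l 207936456439) (l 209010165367))) (c (l 190219734759) (c (l 192904054727) (l 195051505351))))) (c (c (l 185924795831) (l 188072247751)) (a (b (c (l 195588406103) (l 197735857079)) (l 16577384)) (l 16576480)))) (b (c (a (l 186461643607) (l 16614176)) (a (c (l 16592016) (l 190756542615)) (l 16580056))) (l 16588544)))) (b (a (c (l 16596512) (l 16562064)) (l 16572720)) (l 16554640)))), by decide +kernel⟩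

def k35_pm_213 : ∃ t, chk3 f_pm_213 t 27 22 1 = true :=
  ⟨(b (b (a (a (a (c (b (a (b (l 209547139655) (l 194514723991)) (l 189146020375)) (l 16619856)) (c (b (b (l 203641507511) (l 192367208119)) (l 16594168)) (b (a (b (l 212231411959) (l 198272757527)) (b (l 195588406519) (l 16583032))) (l 16576704)))) (b (c (l 16624320) (l 16589216)) (l 16596592))) (b (l 16597736) (l 16587056))) (l 16572896)) (a (a (c (l 16602144) (l 16565512)) (l 16570616)) (l 16549608))) (a (b (l 16555296) (l 16532640)) (l 16513312))), by decide +kernel⟩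

def k36_pm_213 : ∃ t, chk3 f_pm_213 t 13 23 1 = true :=
  ⟨(a (b (b (a (a (c (c (a (b (l 242296208727) (a (l 222968839607) (l 204178351959))) (b (a (l 215989525591) (l 198809650727)) (l 16589504))) (a (b (l 235853728791) (b (l 221895070183) (l 208473287335))) (b (b (l 216526368535) (l 203641456631)) (l 16574024)))) (c (a (b (l 244980504791) (a (b (l 3) (l 218673807591)) (b (l 214915714759) (l 16560880)))) (b (a (b (l 229948114247) (l 211157621927)) (b (l 207936400007) (l 16564432))) (l 16558264))) (a (b (l 246591087463) (a (b (l 3) (l 221358131367)) (b (l 217600038359) (l 16545200)))) (b (a (b (l 232095567159) (l 211694461687)) (b (l 208473239559) (l 16548552))) (l 16542232))))) (b (a (c (l 16585664) (b (l 16556424) (l 16551040))) (l 16563064)) (a (l 16559400) (l 16552472)))) (a (l 16547184) (l 16532600))) (a (a (b (a (c (b (a (l 197735859575) (l 16578912)) (l 16575432)) (a (c (l 195051474263) (l 193977720775)) (l 16544992))) (l 16555736)) (c (l 16564712) (l 16532224)))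 (l 16539872)) (l 16517728))) (a (b (c (l 16542640) (l 16507792)) (l 16503448)) (l 16483592))) (b (a (l 16497576) (l 16463680)) (l 16452848))), by decide +kernel⟩

def k37_pm_213 : ∃ t, chk3 f_pm_213 t 14 5 1 = true :=
  ⟨(a (b (a (b (b (a (l 3) (b (l 3) (b (a (l 3) (a (l 3) (c (l 184851252503) (l 180019332439)))) (c (a (l 237464586791) (a (l 186461848775) (l 180556241063))) (a (l 216526543319) (a (l 181629928263) (l 178945577111))))))) (c (a (b (a (l 3) (b (l 3) (l 186998689111))) (a (b (a (l 189683031143) (l 188072416055)) (l 183240542023)) (b (l 181629940743) (l 16678584)))) (b (a (b (a (l 186998704439) (l 181629969719)) (l 16695224)) (l 16698336)) (l 16679896))) (a (b (a (l 3) (b (l 3) (a (l 184314258007) (l 182166769815)))) (a (b (b (l 186998603991) (l 185924851815)) (a (l 185924819863) (l 16640224))) (b (a (l 183777346055) (l 16645784)) (l 16636352)))) (b (a (b (a (l 182166786407) (l 180556167031)) (l 16653064)) (b (l 16659536) (l 16648544))) (l 16634088))))) (b (a (b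 (c (l 16665504) (l 16622648)) (l 16622800)) (l 16624128)) (l 16582528))) (b (a (b (c (b (a (b (l 3) (a (l 3) (l 184314398151))) (b (a (l 214916056775) (b (l 182166936151) (l 178408796983))) (a (l 178945661223) (l 16729224)))) (a (b (a (l 186461864951) (l 16720280)) (l 16711384)) (l 16715656))) (b (a (b (l 3) (a (l 3) (b (l 176798125879) (l 174650632135)))) (c (b (a (l 213305381127) (l 181629995703)) (l 176261262935)) (b (a (l 213842209751) (l 180019338967)) (l 174113776007)))) (a (b (b (l 176261251911) (l 177871849943)) (l 16666408)) (l 16668200)))) (b (l 16672216) (l 16650240))) (b (b (a (b (a (b (c (l 178945675863) (l 174650672631)) (l 16713160)) (l 16715216)) (l 16705728)) (l 16710056)) (l 16689824)) (l 16656016))) (b (l 16610936) (l 16558960)))) (b (b (a (l 16532768) (l 16503448)) (l 16463128)) (b (l 16407160) (l 16351368)))) (b (b (b (a (a (b (l 16710408) (l 16688680)) (l 16702336)) (l 16716928)) (a (l 16651944) (l 16660248))) (b (l 16594528) (l 16530048))) (b (l 16468120)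 (l 16329912)))), by decide +kernel⟩

def k38_pm_213 : ∃ t, chk3 f_pm_213 t 15 5 1 = true :=
  ⟨(b (a (b (a (l 16709992) (l 16710392)) (l 16596536)) (b (a (l 16688032) (l 16660344)) (a (l 16682296) (l 16660608)))) (b (a (l 16388248) (l 16484640)) (a (l 16237336) (l 16145416)))), by decide +kernel⟩

def k39_pm_213 : ∃ t, chk3 f_pm_213 t 4 6 1 = true :=
  ⟨(l 3), by decide +kernel⟩

def k40_pm_213 : ∃ t, chk3 f_pm_213 t 5 12 1 = true :=
  ⟨(a (l 3) (a (l 3) (b (l 3) (b (a (l 3) (b (l 3) (a (l 3) (a (l 3) (b (l 3) (c (l 269139541383) (l 277192550951))))))) (b (a (l 3) (a (b (l 3) (c (l 279876940167) (l 288466821527))) (c (b (a (l 272897625767) (b (l 229947994695) (l 16508496))) (a (b (l 233706079303) (l 208473135127)) (l 16477096))) (b (a (l 281487506375) (l 218673657111)) (a (l 222431741799) (l 16448440)))))) (a (a (l 3) (b (l 3) (c (l 285782494311) (l 294372375559)))) (c (a (b (a (l 279876922615) (b (l 239611600359) (l 212231219351))) (a (b (l 243906554855) (l 215452432647))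 (l 16464808))) (b (l 16468920) (l 16458656))) (a (b (a (l 288466803255) (l 225652955495)) (a (l 228874168439) (l 16436152))) (b (l 16439832) (l 16428656)))))))))), by decide +kernel⟩

def k41_pm_213 : ∃ t, chk3 f_pm_213 t 5 26 1 = true :=
  ⟨(a (l 3) (a (b (l 3) (a (l 3) (b (a (l 3) (b (a (l 3) (c (b (l 269139418967) (l 230484751575)) (l 250348937399))) (a (c (b (l 271286887943) (l 232632221527)) (l 251959535399)) (c (l 16424112) (l 16394480))))) (a (b (a (l 3) (c (b (l 273434356647) (l 235316561463)) (l 253570133223))) (a (c (b (l 275044954151) (l 237464030535)) (l 254643860119)) (c (l 16409384) (l 16379128)))) (c (b (l 197198736247) (l 16406008)) (b (l 16385240) (l 16374464))))))) (a (b (a (b (l 3) (b (a (l 3) (c (b (l 263233867367) (l 224579199367)) (l 246053997959))) (a (c (b (l 265918207863) (l 227800410759)) (l 248738339031)) (c (l 16438272) (l 16409152))))) (c (b (b (a (l 286856218119) (b (l 247664638119) (l 218673645287))) (a (b (l 254107075623) (l 221894857943))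 (l 16451856))) (b (l 16443456) (l 16433456))) (b (b (a (l 295446098519) (l 232095380983)) (a (l 239611560743) (l 16423056))) (b (l 16414080) (l 16403024))))) (b (b (a (c (l 16461272) (l 16400024)) (l 16407960)) (c (l 16417016) (l 16385264))) (c (l 16402672) (l 16369304)))) (b (b (b (a (c (l 16456504) (l 16427352)) (l 16433128)) (c (l 16442440) (l 16411448))) (c (l 16427472) (l 16395048))) (b (l 16391072) (l 16371536)))))), by decide +kernel⟩

def k42_pm_213 : ∃ t, chk3 f_pm_213 t 5 27 1 = true :=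
  ⟨(a (a (l 3) (b (l 3) (a (l 3) (b (a (l 3) (b (a (l 3) (c (b (l 280413583623) (l 237463953767)) (l 257328135399))) (a (c (b (l 280413567175) (l 235853325335)) (l 257328117895)) (c (l 16362640) (l 16329712))))) (a (b (a (l 3) (c (b (l 275044894567) (l 234779568391)) (l 257328101511))) (a (c (b (l 274508007639) (l 232632068903)) (l 256791214087)) (c (l 16346568) (l 16312440)))) (c (b (l 16375384) (l 16346216)) (b (l 16320528) (l 16311008)))))))) (b (a (a (b (a (l 3) (b (a (l 3) (c (b (l 276655551383) (l 239074628615)) (l 255717586391))) (a (c (b (l 277729277479) (l 239611484151)) (l 256254442103)) (c (l 16394168) (l 16363160))))) (a (b (a (l 3) (c (b (l 278803003351) (l 239074597815)) (l 256791296215))) (a (c (b (l 279876729031) (l 238537711159)) (l 257328151063)) (c (l 16378544) (l 16346656)))) (c (b (l 202030516263) (l 16376672)) (b (l 16353840) (l 16343568))))) (b (b (a (c (l 199883061991) (l 16369824)) (l 16380368)) (c (l 16389552) (l 16356480))) (c (l 16376080) (l 16341272))))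 (a (b (l 16387712) (l 16348392)) (l 16427880))) (b (a (a (b (a (c (l 200419872471) (l 16337376)) (l 16350880)) (c (l 16360568) (l 16325736))) (l 16361736)) (l 16325576)) (a (a (c (l 16348288) (l 16311624)) (l 16324024)) (l 16310456))))), by decide +kernel⟩

def k43_pm_213 : ∃ t, chk3 f_pm_213 t 3 48 1 = true :=
  ⟨(a (a (a (a (l 3) (a (l 3) (a (l 3) (b (l 3) (b (l 3) (c (b (a (l 3) (l 238537985815)) (a (l 242296077559) (l 16536408))) (b (l 254644059655) (l 216526213847)))))))) (b (a (a (b (a (l 3) (b (l 3) (c (l 251422918791) (l 257865313031)))) (c (a (a (l 3) (l 257865363143)) (b (a (l 252496653319) (l 211694496151)) (a (l 214378848295) (l 16545416)))) (a (l 265918373863) (c (b (l 226726803751) (l 205788856887)) (l 218673705303))))) (a (c (b (a (b (l 243369856471) (l 209010138055)) (b (l 206325779575) (l 16549736))) (l 16543528)) (b (b (a (l 249812249991) (l 204715128407)) (a (l 207936349879) (l 16520152))) (l 16513648))) (b (c (l 16547776) (l 16517616)) (l 16522160))))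 (a (b (l 16554256) (l 16512040)) (l 16503440))) (c (a (a (c (b (a (a (l 241759234919) (l 210620716471)) (l 16546408)) (l 188072158647)) (b (a (b (l 231558661927) (l 211694427703)) (l 16531856)) (l 16545360))) (l 16524928)) (l 16505848)) (a (a (c (b (a (b (l 232095504391) (l 211694398903)) (l 16517056)) (l 16509480)) (b (a (l 223505535271) (l 16502008)) (l 16494320))) (l 16493456)) (l 16471240))))) (a (a (b (l 16481264) (l 16458952)) (l 16437672)) (l 16383016))) (a (a (l 16297064) (l 16192192)) (a (l 16070656) (l 15957384)))), by decide +kernel⟩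

def k44_pm_213 : ∃ t, chk3 f_pm_213 t 3 49 1 = true :=
  ⟨(a (a (a (a (b (l 3) (a (l 3) (a (l 3) (b (l 3) (c (b (l 268602720407) (l 236390455047)) (l 260549596311)))))) (b (a (b (l 3) (c (a (l 3) (b (l 258402193367) (l 226189949127))) (c (l 260012765335) (l 263233962855)))) (c (b (a (b (l 253570364839) (a (l 249275389911) (l 16552664))) (b (l 194514597431) (l 16527472))) (a (b (l 198809555703) (l 16522712)) (l 16519672))) (c (b (a (l 246590995719) (l 16508328)) (l 190219568935)) (b (a (l 249275321671) (l 16493552)) (l 16506656))))) (c (a (b (a (b (l 263770892503) (l 231558627223)) (b (l 203104513367) (l 16517792))) (a (b (l 207399470887) (l 16512728)) (l 16509976))) (l 16527808)) (a (b (a (b (l 271287030135) (l 232095442327)) (l 197198882311)) (a (l 200956969623) (l 16480592))) (l 16476400))))) (a (a (b (c (l 16516128) (l 16485216)) (l 16479176)) (b (l 16487696) (l 16465976))) (b (l 16466800) (l 16444912)))) (a (a (l 16425376) (l 16392040)) (l 16335392))) (a (a (l 16245592)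 (l 16132184)) (a (l 15992440) (l 15852416)))), by decide +kernel⟩

def k45_pm_213 : ∃ t, chk3 f_pm_213 t 3 25 1 = true :=
  ⟨(a (a (b (a (b (a (a (a (l 3) (b (l 3) (c (l 261086521671) (l 268602638935)))) (c (b (a (b (l 277729515303) (l 241759153479)) (b (l 211694427751) (l 16507496))) (a (b (l 216526255863) (l 16502104)) (l 16499672))) (b (a (l 264844553271) (l 204178184999)) (a (l 207936271255) (l 16470632))))) (a (c (b (l 16502240) (l 16491816)) (l 16487912)) (l 16470136))) (a (a (c (b (a (l 265381456663) (b (l 220821212071) (l 16496536))) (a (b (l 225653038839) (l 16490808)) (l 16488720))) (b (a (l 272897595143) (l 211694357463)) (a (l 215452442615) (l 16459928)))) (b (c (l 16491784) (l 16462416)) (l 16466416))) (a (l 16460512) (l 16448608)))) (a (b (l 16450976) (l 16429496)) (l 16412264))) (a (a (b (a (b (c (l 16480680) (l 16451512)) (l 16476408)) (l 16492208)) (b (l 16502496) (l 16429000))) (b (l 16433248) (l 16412232))) (a (l 16397776) (l 16370288)))) (a (b (l 16364960)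 (l 16323368)) (b (l 16290232) (l 16248904)))) (a (a (b (l 16196680) (l 16212464)) (b (l 16073096) (l 16008760))) (a (l 15879240) (l 15710616)))), by decide +kernel⟩

def k46_pm_213 : ∃ t, chk3 f_pm_213 t 3 13 1 = true :=
  ⟨(a (b (a (b (a (a (b (l 16413304) (l 16392904)) (l 16381584)) (l 16407496)) (a (a (l 16405544) (l 16343632)) (l 16308800))) (a (b (l 16285504) (l 16251896)) (b (a (l 16232672) (l 16188304)) (a (l 16196296) (l 16138312))))) (a (b (a (b (l 16327632) (l 16311736)) (l 16278400)) (a (l 16290792) (a (l 16264896) (l 16242656)))) (a (b (a (l 16240528) (l 16223416)) (a (l 16205808) (l 16147184))) (b (l 16111432) (l 16037232))))) (a (b (a (b (l 16097272) (l 16031816)) (l 15903288)) (a (b (l 15956752) (l 15866864)) (b (l 15776464) (l 15673096)))) (b (a (l 15718448) (l 15522040)) (a (l 15664832) (l 15299048))))), by decide +kernel⟩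

def k47_pm_213 : ∃ t, chk3 f_pm_213 t 2 28 1 = true :=
  ⟨(a (l 3) (a (b (a (a (l 3) (b (l 3) (c (l 312088870663) (l 317994380711)))) (a (b (a (l 3) (b (a (l 3) (c (l 255717521319) (l 256254326215))) (c (a (l 255180635111) (l 16330456)) (l 222968321463)))) (a (b (a (l 3) (c (l 254643748295) (l 254106808119))) (c (a (l 254106862199) (l 16314472)) (l 219210190695))) (c (b (l 16322744) (l 16315640)) (l 16302872)))) (b (a (b (c (l 16338560) (l 16303424)) (l 16354704)) (a (l 16358304) (l 16315840))) (c (l 16320224) (l 16281200))))) (a (a (a (l 3) (b (l 3) (c (l 307793830503) (l 312088720135)))) (c (b (a (l 308330734631) (b (a (l 305646382775) (l 235853236135)) (a (l 235316349687) (l 16298784)))) (a (b (a (l 301888253255) (l 230484496807)) (l 215452103511)) (l 16288960))) (b (a (l 313699369767) (b (l 251959303383) (l 215452060327))) (a (b (l 247127432407) (l 211157058711)) (l 16248536))))) (b (a (b (c (l 16308112) (l 16269456)) (a (l 16281120) (l 16282608))) (l 16286952)) (a (c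 (l 16293024) (l 16251128)) (l 16274920))))) (b (a (b (a (l 16355800) (l 16308792)) (a (l 16299192) (l 16295272))) (b (l 16297016) (l 16285472))) (a (b (l 16285224) (l 16275048)) (l 16293064))))), by decide +kernel⟩

def k48_pm_213 : ∃ t, chk3 f_pm_213 t 2 29 1 = true :=
  ⟨(a (a (l 3) (a (l 3) (b (a (l 3) (a (l 3) (b (l 3) (c (l 304572542023) (l 307256810935))))) (b (a (l 3) (c (a (l 302961900407) (b (l 232631910039) (l 16241304))) (a (l 304572423207) (b (l 229947469415) (l 16195296))))) (l 1))))) (a (b (b (c (a (a (a (l 306183185543) (b (a (l 292224617367) (l 224578886311)) (l 211157103847))) (b (l 16279144) (l 16274312))) (l 16285512)) (a (a (a (l 309941200375) (b (l 241758691271) (l 16226240))) (l 16234008)) (l 16240520))) (a (a (b (a (c (l 238000646695) (l 236389950711)) (l 16241792)) (c (l 199882795527) (l 16212480))) (c (l 16268024) (l 16222864))) (a (l 16252440) (l 16257360)))) (a (b (a (c (l 16251576) (l 16205248)) (l 16238208)) (a (l 16285656) (l 16233192))) (b (l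 16249280) (l 16246008)))) (b (a (b (l 16267112) (l 16261600)) (b (l 16264104) (l 16237856))) (a (l 16237216) (a (b (l 16261408) (l 16252360)) (b (l 16242400) (l 16203136))))))), by decide +kernel⟩

def k49_pm_213 : ∃ t, chk3 f_pm_213 t 2 15 1 = true :=
  ⟨(b (a (l 1) (b (a (l 1) (b (a (l 1475890422071) (l 16187432)) (l 1))) (l 1))) (l 1)), by decide +kernel⟩

def k50_pm_213 : ∃ t, chk3 f_pm_213 t 3 7 1 = true :=
  ⟨(a (b (a (b (a (b (l 16269568) (a (l 16262584) (b (l 16251768) (l 16236672)))) (b (a (l 16222336) (l 16204976)) (a (l 16197584) (l 16130440)))) (b (a (a (b (l 16249936) (l 16226904)) (l 16182568)) (l 16069184)) (a (l 16116952) (l 15943688)))) (b (b (a (l 16106552) (l 15945128)) (a (l 16012296) (l 15831272))) (b (a (l 15892808) (l 15691832)) (a (l 15744256) (l 15523088))))) (b (a (b (a (l 15984640) (l 15785400)) (a (l 1) (l 15590824))) (b (a (l 15562976) (l 15321488)) (a (l 15345600) (b (l 15147264) (l 15030808))))) (l 1))) (b (a (b (b (a (l 15758448) (l 15550648))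 (a (l 15627728) (l 15405416))) (b (a (l 15470992) (l 15233728)) (a (l 15284592) (l 15035864)))) (b (a (b (l 15324456) (l 15166752)) (b (l 15088848) (l 14924552))) (a (b (l 15090848) (b (l 14856832) (l 14806024))) (b (b (l 14806472) (l 14751968)) (l 14707520))))) (a (b (b (a (b (l 15123704) (l 15010112)) (b (l 14898952) (l 14855488))) (a (b (l 15121832) (l 14903408)) (l 14853104))) (b (a (l 14929544) (l 14890856)) (l 1))) (b (b (a (l 14780168) (l 14680272)) (a (l 14784200) (l 14688504))) (b (a (l 14825808) (l 14736312)) (a (l 14908296) (l 14827304))))))), by decide +kernel⟩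

theorem s51_pm_213 : ∃ t, chk3 f_pm_213 t 2 14 1 = true := ex3_b k47_pm_213 k48_pm_213

theorem s52_pm_213 : ∃ t, chk3 f_pm_213 t 2 7 1 = true := ex3_b s51_pm_213 k49_pm_213

theorem s53_pm_213 : ∃ t, chk3 f_pm_213 t 1 7 1 = true := ex3_a s52_pm_213 k50_pm_213

theorem s54_pm_213 : ∃ t, chk3 f_pm_213 t 3 24 1 = true := ex3_b k43_pm_213 k44_pm_213

theorem s55_pm_213 : ∃ t, chk3 f_pm_213 t 3 12 1 = true := ex3_b s54_pm_213 k45_pm_213

theorem s56_pm_213 : ∃ t, chk3 f_pm_213 t 3 6 1 = true := ex3_b s55_pm_213 k46_pm_213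

theorem s57_pm_213 : ∃ t, chk3 f_pm_213 t 5 13 1 = true := ex3_b k41_pm_213 k42_pm_213

theorem s58_pm_213 : ∃ t, chk3 f_pm_213 t 5 6 1 = true := ex3_b k40_pm_213 s57_pm_213

theorem s59_pm_213 : ∃ t, chk3 f_pm_213 t 2 6 1 = true := ex3_a k39_pm_213 s58_pm_213

theorem s60_pm_213 : ∃ t, chk3 f_pm_213 t 1 6 1 = true := ex3_a s59_pm_213 s56_pm_213

theorem s61_pm_213 : ∃ t, chk3 f_pm_213 t 1 3 1 = true := ex3_b s60_pm_213 s53_pm_213

theorem s62_pm_213 : ∃ t, chk3 f_pm_213 t 7 5 1 = true := ex3_a k37_pm_213 k38_pm_213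

theorem s63_pm_213 : ∃ t, chk3 f_pm_213 t 26 22 1 = true := ex3_a k33_pm_213 k34_pm_213

theorem s64_pm_213 : ∃ t, chk3 f_pm_213 t 13 22 1 = true := ex3_a s63_pm_213 k35_pm_213

theorem s65_pm_213 : ∃ t, chk3 f_pm_213 t 13 11 1 = true := ex3_b s64_pm_213 k36_pm_213

theorem s66_pm_213 : ∃ t, chk3 f_pm_213 t 12 11 1 = true := ex3_a k31_pm_213 k32_pm_213

theorem s67_pm_213 : ∃ t, chk3 f_pm_213 t 6 11 1 = true := ex3_a s66_pm_213 s65_pm_213

theorem s68_pm_213 : ∃ t, chk3 f_pm_213 t 27 10 1 = true := ex3_b k29_pm_213 k30_pm_213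

theorem s69_pm_213 : ∃ t, chk3 f_pm_213 t 13 10 1 = true := ex3_a k28_pm_213 s68_pm_213

theorem s70_pm_213 : ∃ t, chk3 f_pm_213 t 6 10 1 = true := ex3_a k27_pm_213 s69_pm_213

theorem s71_pm_213 : ∃ t, chk3 f_pm_213 t 6 5 1 = true := ex3_b s70_pm_213 s67_pm_213

theorem s72_pm_213 : ∃ t, chk3 f_pm_213 t 3 5 1 = true := ex3_a s71_pm_213 s62_pm_213

theorem s73_pm_213 : ∃ t, chk3 f_pm_213 t 120 36 1 = true := ex3_b k20_pm_213 k21_pm_213

theorem s74_pm_213 : ∃ t, chk3 f_pm_213 t 60 36 1 = true := ex3_a s73_pm_213 k22_pm_213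

theorem s75_pm_213 : ∃ t, chk3 f_pm_213 t 60 18 1 = true := ex3_b s74_pm_213 k23_pm_213

theorem s76_pm_213 : ∃ t, chk3 f_pm_213 t 30 18 1 = true := ex3_a s75_pm_213 k24_pm_213

theorem s77_pm_213 : ∃ t, chk3 f_pm_213 t 30 9 1 = true := ex3_b s76_pm_213 k25_pm_213

theorem s78_pm_213 : ∃ t, chk3 f_pm_213 t 15 9 1 = true := ex3_a s77_pm_213 k26_pm_213

theorem s79_pm_213 : ∃ t, chk3 f_pm_213 t 61 35 1 = true := ex3_b k17_pm_213 k18_pm_213

theorem s80_pm_213 : ∃ t, chk3 f_pm_213 t 61 17 1 = true := ex3_b k16_pm_213 s79_pm_213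

theorem s81_pm_213 : ∃ t, chk3 f_pm_213 t 30 17 1 = true := ex3_a k15_pm_213 s80_pm_213

theorem s82_pm_213 : ∃ t, chk3 f_pm_213 t 30 8 1 = true := ex3_b k14_pm_213 s81_pm_213

theorem s83_pm_213 : ∃ t, chk3 f_pm_213 t 15 8 1 = true := ex3_a s82_pm_213 k19_pm_213

theorem s84_pm_213 : ∃ t, chk3 f_pm_213 t 15 4 1 = true := ex3_b s83_pm_213 s78_pm_213

theorem s85_pm_213 : ∃ t, chk3 f_pm_213 t 117 77 1 = true := ex3_a k10_pm_213 k11_pm_213

theorem s86_pm_213 : ∃ t, chk3 f_pm_213 t 58 77 1 = true := ex3_a k9_pm_213 s85_pm_213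

theorem s87_pm_213 : ∃ t, chk3 f_pm_213 t 58 38 1 = true := ex3_b k8_pm_213 s86_pm_213

theorem s88_pm_213 : ∃ t, chk3 f_pm_213 t 58 19 1 = true := ex3_b s87_pm_213 k12_pm_213

theorem s89_pm_213 : ∃ t, chk3 f_pm_213 t 29 19 1 = true := ex3_a s88_pm_213 k13_pm_213

theorem s90_pm_213 : ∃ t, chk3 f_pm_213 t 59 37 1 = true := ex3_a k6_pm_213 k7_pm_213

theorem s91_pm_213 : ∃ t, chk3 f_pm_213 t 59 18 1 = true := ex3_b k5_pm_213 s90_pm_213

theorem s92_pm_213 : ∃ t, chk3 f_pm_213 t 29 18 1 = true := ex3_a k4_pm_213 s91_pm_213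

theorem s93_pm_213 : ∃ t, chk3 f_pm_213 t 29 9 1 = true := ex3_b s92_pm_213 s89_pm_213

theorem s94_pm_213 : ∃ t, chk3 f_pm_213 t 14 9 1 = true := ex3_a k3_pm_213 s93_pm_213

theorem s95_pm_213 : ∃ t, chk3 f_pm_213 t 14 4 1 = true := ex3_b k2_pm_213 s94_pm_213

theorem s96_pm_213 : ∃ t, chk3 f_pm_213 t 7 4 1 = true := ex3_a s95_pm_213 s84_pm_213

theorem s97_pm_213 : ∃ t, chk3 f_pm_213 t 3 4 1 = true := ex3_a k1_pm_213 s96_pm_213

theorem s98_pm_213 : ∃ t, chk3 f_pm_213 t 3 2 1 = true := ex3_b s97_pm_213 s72_pm_213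

theorem s99_pm_213 : ∃ t, chk3 f_pm_213 t 1 2 1 = true := ex3_a k0_pm_213 s98_pm_213

theorem s100_pm_213 : ∃ t, chk3 f_pm_213 t 1 1 1 = true := ex3_b s99_pm_213 s61_pm_213

theorem c_pm_213 : CertB 0 536870912 0 1230186008 991146299 28908434 3 eng mog cd0q2 cd4q3 pd1 false true false .pnn 2 1 3
    ndB0q2 ndB4q3 pcB1 cut_pm_213 xt_pm_213 :=
  certB0 (fam := false) (s1 := true) (s2 := false) (a := 2) (b := 1) (c := 3) (cn := .pnn) (n1 := ndB0q2) (n2 := ndB4q3) (pc := pcB1) (cut := cut_pm_213) (xt := xt_pm_213) (P1 := 0) (W1 := 536870912) (P2 := 0) (W2 := 1230186008) (P3 := 991146299) (W3 := 28908434) (N0 := 3) (En := eng) (mo := mog) (C1 := cd0q2) (C2 := cd4q3) (C3 := pd1)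
    rfl s100_pm_213

noncomputable def f_mm_001 : ℕ → ℕ → ℕ → ℕ → Bool := onCell 0 536870912 0 536870912 991146299 28908434
    (rowB 3 eng mog cd0q0 cd4q1 pd0 1 false false false .up 0 0 1 (qsf 0 536870912 536870912 536870912 0) ndB0q0 ndB4q1 pcB0 Cut.none Ext.none)

def k0_mm_001 : ∃ t, chk3 f_mm_001 t 1 1 1 = true :=
  ⟨(l 3), by decide +kernel⟩

theorem c_mm_001 : CertB 0 536870912 536870912 536870912 991146299 28908434 3 eng mog cd0q0 cd4q1 pd0 false false false .up 0 0 1
    ndB0q0 ndB4q1 pcB0 Cut.none Ext.none :=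
  certB1 (fam := false) (s1 := false) (s2 := false) (a := 0) (b := 0) (c := 1) (cn := .up) (n1 := ndB0q0) (n2 := ndB4q1) (pc := pcB0) (cut := Cut.none) (xt := Ext.none) (P1 := 0) (W1 := 536870912) (P2 := 536870912) (W2 := 536870912) (P3 := 991146299) (W3 := 28908434) (N0 := 3) (En := eng) (mo := mog) (C1 := cd0q0) (C2 := cd4q1) (C3 := pd0)
    rfl (fun _ => rfl) k0_mm_001

noncomputable def f_mm_011 : ℕ → ℕ → ℕ → ℕ → Bool := onCell 0 536870912 536870912 536870912 991146299 28908434
    (rowB 3 eng mog cd0q0 cd4q1 pd1 1 false false false .pnn 0 1 1 (qsf 0 536870912 536870912 536870912 1) ndB0q0 ndB4q1 pcB1 Cut.none Ext.none)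

def k0_mm_011 : ∃ t, chk3 f_mm_011 t 1 1 1 = true :=
  ⟨(l 5), by decide +kernel⟩

theorem c_mm_011 : CertB 0 536870912 536870912 536870912 991146299 28908434 3 eng mog cd0q0 cd4q1 pd1 false false false .pnn 0 1 1
    ndB0q0 ndB4q1 pcB1 Cut.none Ext.none :=
  certB1 (fam := false) (s1 := false) (s2 := false) (a := 0) (b := 1) (c := 1) (cn := .pnn) (n1 := ndB0q0) (n2 := ndB4q1) (pc := pcB1) (cut := Cut.none) (xt := Ext.none) (P1 := 0) (W1 := 536870912) (P2 := 536870912) (W2 := 536870912) (P3 := 991146299) (W3 := 28908434) (N0 := 3) (En := eng) (mo := mog) (C1 := cd0q0) (C2 := cd4q1) (C3 := pd1)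
    rfl (fun _ => rfl) k0_mm_011

noncomputable def f_mm_012 : ℕ → ℕ → ℕ → ℕ → Bool := onCell 0 536870912 1073741824 536870912 991146299 28908434
    (rowB 3 eng mog cd0q0 cd4q2 pd1 0 false false false .pnp 0 1 2 (qsf 0 536870912 1073741824 536870912 1) ndB0q0 ndB4q2 pcB1 Cut.none Ext.none)

def k0_mm_012 : ∃ t, chk3 f_mm_012 t 1 1 1 = true :=
  ⟨(l 5), by decide +kernel⟩

theorem c_mm_012 : CertB 0 536870912 1073741824 536870912 991146299 28908434 3 eng mog cd0q0 cd4q2 pd1 false false false .pnp 0 1 2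
    ndB0q0 ndB4q2 pcB1 Cut.none Ext.none :=
  certB0 (fam := false) (s1 := false) (s2 := false) (a := 0) (b := 1) (c := 2) (cn := .pnp) (n1 := ndB0q0) (n2 := ndB4q2) (pc := pcB1) (cut := Cut.none) (xt := Ext.none) (P1 := 0) (W1 := 536870912) (P2 := 1073741824) (W2 := 536870912) (P3 := 991146299) (W3 := 28908434) (N0 := 3) (En := eng) (mo := mog) (C1 := cd0q0) (C2 := cd4q2) (C3 := pd1)
    rfl k0_mm_012

noncomputable def f_mm_022 : ℕ → ℕ → ℕ → ℕ → Bool := onCell 0 536870912 1073741824 536870912 991146299 28908434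
    (rowB 3 eng mog cd0q0 cd4q2 pd2 0 false false false .pp 0 2 2 (qsf 0 536870912 1073741824 536870912 2) ndB0q0 ndB4q2 pcB2 Cut.none Ext.none)

def k0_mm_022 : ∃ t, chk3 f_mm_022 t 1 1 1 = true :=
  ⟨(l 5), by decide +kernel⟩

theorem c_mm_022 : CertB 0 536870912 1073741824 536870912 991146299 28908434 3 eng mog cd0q0 cd4q2 pd2 false false false .pp 0 2 2
    ndB0q0 ndB4q2 pcB2 Cut.none Ext.none :=
  certB0 (fam := false) (s1 := false) (s2 := false) (a := 0) (b := 2) (c := 2) (cn := .pp) (n1 := ndB0q0) (n2 := ndB4q2) (pc := pcB2) (cut := Cut.none) (xt := Ext.none) (P1 := 0) (W1 := 536870912) (P2 := 1073741824) (W2 := 536870912) (P3 := 991146299) (W3 := 28908434) (N0 := 3) (En := eng) (mo := mog) (C1 := cd0q0) (C2 := cd4q2) (C3 := pd2)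
    rfl k0_mm_022

noncomputable def f_mm_023 : ℕ → ℕ → ℕ → ℕ → Bool := onCell 0 536870912 0 1230186008 991146299 28908434
    (rowB 3 eng mog cd0q0 cd4q3 pd2 0 false false false .up 0 2 3 (qsf 0 536870912 0 1230186008 2) ndB0q0 ndB4q3 pcB2 Cut.none Ext.none)

def k0_mm_023 : ∃ t, chk3 f_mm_023 t 1 1 1 = true :=
  ⟨(l 5), by decide +kernel⟩

theorem c_mm_023 : CertB 0 536870912 0 1230186008 991146299 28908434 3 eng mog cd0q0 cd4q3 pd2 false false false .up 0 2 3
    ndB0q0 ndB4q3 pcB2 Cut.none Ext.none :=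
  certB0 (fam := false) (s1 := false) (s2 := false) (a := 0) (b := 2) (c := 3) (cn := .up) (n1 := ndB0q0) (n2 := ndB4q3) (pc := pcB2) (cut := Cut.none) (xt := Ext.none) (P1 := 0) (W1 := 536870912) (P2 := 0) (W2 := 1230186008) (P3 := 991146299) (W3 := 28908434) (N0 := 3) (En := eng) (mo := mog) (C1 := cd0q0) (C2 := cd4q3) (C3 := pd2)
    rfl k0_mm_023

noncomputable def f_mm_033 : ℕ → ℕ → ℕ → ℕ → Bool := onCell 0 536870912 0 1230186008 991146299 28908434
    (rowB 3 eng mog cd0q0 cd4q3 pd3 0 false false false .pnn 0 3 3 (qsf 0 536870912 0 1230186008 3) ndB0q0 ndB4q3 pcB3 Cut.none Ext.none)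

def k0_mm_033 : ∃ t, chk3 f_mm_033 t 1 1 1 = true :=
  ⟨(l 5), by decide +kernel⟩

theorem c_mm_033 : CertB 0 536870912 0 1230186008 991146299 28908434 3 eng mog cd0q0 cd4q3 pd3 false false false .pnn 0 3 3
    ndB0q0 ndB4q3 pcB3 Cut.none Ext.none :=
  certB0 (fam := false) (s1 := false) (s2 := false) (a := 0) (b := 3) (c := 3) (cn := .pnn) (n1 := ndB0q0) (n2 := ndB4q3) (pc := pcB3) (cut := Cut.none) (xt := Ext.none) (P1 := 0) (W1 := 536870912) (P2 := 0) (W2 := 1230186008) (P3 := 991146299) (W3 := 28908434) (N0 := 3) (En := eng) (mo := mog) (C1 := cd0q0) (C2 := cd4q3) (C3 := pd3)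
    rfl k0_mm_033

noncomputable def cut_mm_101 : Cut := Cut.of [[⟨0, 1, 0, 53687091⟩, ⟨1, 0, 0, 53687091⟩, ⟨2, 1, 0, 53687091⟩]]

noncomputable def f_mm_101 : ℕ → ℕ → ℕ → ℕ → Bool := onCell 536870912 536870912 0 536870912 991146299 28908434
    (rowB 3 eng mog cd0q1 cd4q1 pd0 1 false false false .npn 1 0 1 (qsf 536870912 536870912 536870912 536870912 0) ndB0q1 ndB4q1 pcB0 cut_mm_101 Ext.none)

def k0_mm_101 : ∃ t, chk3 f_mm_101 t 1 1 1 = true :=
  ⟨(a (l 3) (b (a (l 3) (b (a (l 3) (b (b (a (l 3) (l 6)) (l 3)) (l 3))) (l 3))) (l 3))), by decide +kernel⟩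

theorem c_mm_101 : CertB 536870912 536870912 536870912 536870912 991146299 28908434 3 eng mog cd0q1 cd4q1 pd0 false false false .npn 1 0 1
    ndB0q1 ndB4q1 pcB0 cut_mm_101 Ext.none :=
  certB1 (fam := false) (s1 := false) (s2 := false) (a := 1) (b := 0) (c := 1) (cn := .npn) (n1 := ndB0q1) (n2 := ndB4q1) (pc := pcB0) (cut := cut_mm_101) (xt := Ext.none) (P1 := 536870912) (W1 := 536870912) (P2 := 536870912) (W2 := 536870912) (P3 := 991146299) (W3 := 28908434) (N0 := 3) (En := eng) (mo := mog) (C1 := cd0q1) (C2 := cd4q1) (C3 := pd0)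
    rfl (fun _ => rfl) k0_mm_101

noncomputable def f_mm_102 : ℕ → ℕ → ℕ → ℕ → Bool := onCell 536870912 536870912 1073741824 536870912 991146299 28908434
    (rowB 3 eng mog cd0q1 cd4q2 pd0 0 false false false .npp 1 0 2 (qsf 536870912 536870912 1073741824 536870912 0) ndB0q1 ndB4q2 pcB0 Cut.none Ext.none)

def k0_mm_102 : ∃ t, chk3 f_mm_102 t 1 1 1 = true :=
  ⟨(l 3), by decide +kernel⟩

theorem c_mm_102 : CertB 536870912 536870912 1073741824 536870912 991146299 28908434 3 eng mog cd0q1 cd4q2 pd0 false false false .npp 1 0 2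
    ndB0q1 ndB4q2 pcB0 Cut.none Ext.none :=
  certB0 (fam := false) (s1 := false) (s2 := false) (a := 1) (b := 0) (c := 2) (cn := .npp) (n1 := ndB0q1) (n2 := ndB4q2) (pc := pcB0) (cut := Cut.none) (xt := Ext.none) (P1 := 536870912) (W1 := 536870912) (P2 := 1073741824) (W2 := 536870912) (P3 := 991146299) (W3 := 28908434) (N0 := 3) (En := eng) (mo := mog) (C1 := cd0q1) (C2 := cd4q2) (C3 := pd0)
    rfl k0_mm_102

noncomputable def f_mm_112 : ℕ → ℕ → ℕ → ℕ → Bool := onCell 536870912 536870912 1073741824 536870912 991146299 28908434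
    (rowB 3 eng mog cd0q1 cd4q2 pd1 0 false false false .dn 1 1 2 (qsf 536870912 536870912 1073741824 536870912 1) ndB0q1 ndB4q2 pcB1 Cut.none Ext.none)

def k0_mm_112 : ∃ t, chk3 f_mm_112 t 1 1 1 = true :=
  ⟨(l 3), by decide +kernel⟩

theorem c_mm_112 : CertB 536870912 536870912 1073741824 536870912 991146299 28908434 3 eng mog cd0q1 cd4q2 pd1 false false false .dn 1 1 2
    ndB0q1 ndB4q2 pcB1 Cut.none Ext.none :=
  certB0 (fam := false) (s1 := false) (s2 := false) (a := 1) (b := 1) (c := 2) (cn := .dn) (n1 := ndB0q1) (n2 := ndB4q2) (pc := pcB1) (cut := Cut.none) (xt := Ext.none) (P1 := 536870912) (W1 := 536870912) (P2 := 1073741824) (W2 := 536870912) (P3 := 991146299) (W3 := 28908434) (N0 := 3) (En := eng) (mo := mog) (C1 := cd0q1) (C2 := cd4q2) (C3 := pd1)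
    rfl k0_mm_112

noncomputable def f_mm_113 : ℕ → ℕ → ℕ → ℕ → Bool := onCell 536870912 536870912 0 1230186008 991146299 28908434
    (rowB 3 eng mog cd0q1 cd4q3 pd1 0 false false false .nn 1 1 3 (qsf 536870912 536870912 0 1230186008 1) ndB0q1 ndB4q3 pcB1 Cut.none Ext.none)

def k0_mm_113 : ∃ t, chk3 f_mm_113 t 1 1 1 = true :=
  ⟨(b (l 5) (b (l 5) (a (l 5) (l 3)))), by decide +kernel⟩

theorem c_mm_113 : CertB 536870912 536870912 0 1230186008 991146299 28908434 3 eng mog cd0q1 cd4q3 pd1 false false false .nn 1 1 3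
    ndB0q1 ndB4q3 pcB1 Cut.none Ext.none :=
  certB0 (fam := false) (s1 := false) (s2 := false) (a := 1) (b := 1) (c := 3) (cn := .nn) (n1 := ndB0q1) (n2 := ndB4q3) (pc := pcB1) (cut := Cut.none) (xt := Ext.none) (P1 := 536870912) (W1 := 536870912) (P2 := 0) (W2 := 1230186008) (P3 := 991146299) (W3 := 28908434) (N0 := 3) (En := eng) (mo := mog) (C1 := cd0q1) (C2 := cd4q3) (C3 := pd1)
    rfl k0_mm_113

noncomputable def f_mm_123 : ℕ → ℕ → ℕ → ℕ → Bool := onCell 1073741824 536870912 0 1230186008 991146299 28908434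
    (rowB 3 eng mog cd0q1 cd4q3 pd2 2 false false false .npn 1 2 3 (qsf 536870912 536870912 0 1230186008 2) ndB0q1 ndB4q3 pcB2 Cut.none Ext.none)

def k0_mm_123 : ∃ t, chk3 f_mm_123 t 1 1 1 = true :=
  ⟨(b (l 5) (l 5)), by decide +kernel⟩

theorem c_mm_123 : CertB 536870912 536870912 0 1230186008 991146299 28908434 3 eng mog cd0q1 cd4q3 pd2 false false false .npn 1 2 3
    ndB0q1 ndB4q3 pcB2 Cut.none Ext.none :=
  certB2 (fam := false) (s1 := false) (s2 := false) (a := 1) (b := 2) (c := 3) (cn := .npn) (n1 := ndB0q1) (n2 := ndB4q3) (pc := pcB2) (cut := Cut.none) (xt := Ext.none) (P1 := 536870912) (W1 := 536870912) (P2 := 0) (W2 := 1230186008) (P3 := 991146299) (W3 := 28908434) (N0 := 3) (En := eng) (mo := mog) (C1 := cd0q1) (C2 := cd4q3) (C3 := pd2)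
    rfl (fun _ => rfl) k0_mm_123

noncomputable def f_mm_133 : ℕ → ℕ → ℕ → ℕ → Bool := onCell 1610612736 536870912 0 1230186008 991146299 28908434
    (rowB 3 eng mog cd0q1 cd4q3 pd3 2 false false false .dn 1 3 3 (qsf 536870912 536870912 0 1230186008 3) ndB0q1 ndB4q3 pcB3 Cut.none Ext.none)

def k0_mm_133 : ∃ t, chk3 f_mm_133 t 1 1 1 = true :=
  ⟨(l 5), by decide +kernel⟩

theorem c_mm_133 : CertB 536870912 536870912 0 1230186008 991146299 28908434 3 eng mog cd0q1 cd4q3 pd3 false false false .dn 1 3 3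
    ndB0q1 ndB4q3 pcB3 Cut.none Ext.none :=
  certB2 (fam := false) (s1 := false) (s2 := false) (a := 1) (b := 3) (c := 3) (cn := .dn) (n1 := ndB0q1) (n2 := ndB4q3) (pc := pcB3) (cut := Cut.none) (xt := Ext.none) (P1 := 536870912) (W1 := 536870912) (P2 := 0) (W2 := 1230186008) (P3 := 991146299) (W3 := 28908434) (N0 := 3) (En := eng) (mo := mog) (C1 := cd0q1) (C2 := cd4q3) (C3 := pd3)
    rfl (fun _ => rfl) k0_mm_133

noncomputable def f_mm_202 : ℕ → ℕ → ℕ → ℕ → Bool := onCell 0 536870912 0 536870912 991146299 28908434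
    (rowB 3 eng mog cd0q2 cd4q2 pd0 1 false false false .pp 2 0 2 (qsf 0 536870912 1073741824 536870912 0) ndB0q2 ndB4q2 pcB0 Cut.none Ext.none)

def k0_mm_202 : ∃ t, chk3 f_mm_202 t 8 4 1 = true :=
  ⟨(b (b (b (a (l 16451032) (b (l 16304720) (l 16486456))) (a (b (l 16350024) (l 16235608)) (l 16313976))) (b (b (c (l 16292472) (l 16207680)) (b (l 16199952) (l 16122376))) (c (b (l 16209088) (l 16071672)) (b (l 16177120) (l 15942272))))) (a (b (b (c (l 16168272) (l 16053984)) (a (b (l 16053744) (l 16028240)) (b (l 16031640) (l 16055336)))) (b (c (l 16046312) (l 15887576)) (c (l 15998904) (l 15802792)))) (b (b (a (b (l 16194968) (l 16160680)) (b (l 16185584) (l 16179376))) (b (a (b (l 15981312) (l 16106208)) (l 16131056)) (l 16078096))) (b (c (l 16052784) (a (l 15920328) (l 15939840))) (c (a (l 16011440) (l 16022168)) (a (l 15832080) (l 15846640))))))), by decide +kernel⟩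

def k1_mm_202 : ∃ t, chk3 f_mm_202 t 8 10 1 = true :=
  ⟨(c (b (a (b (l 15934488) (l 15865400)) (b (a (l 15942672) (l 15957728)) (l 15891824))) (a (b (l 15828832) (l 15759160)) (b (b (l 15852528) (l 234241564119)) (a (l 15786264) (b (l 229409671607) (l 225651521751)))))) (b (a (b (a (l 15710840) (l 15731368)) (a (l 15636344) (l 15654400))) (b (a (l 15746672) (l 15762368)) (l 15677776))) (a (b (a (l 15569064) (l 15584600)) (a (l 15505200) (l 15522288))) (b (b (l 15625144) (l 244441684775)) (a (b (l 15553536) (l 15524880)) (b (l 236388548439) (l 230482901527))))))), by decide +kernel⟩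

def k2_mm_202 : ∃ t, chk3 f_mm_202 t 8 11 1 = true :=
  ⟨(b (a (b (c (l 15719312) (a (l 15450696) (l 15467720))) (c (b (l 15672168) (a (l 15667712) (l 15645728))) (b (l 15402048) (c (l 15471960) (l 15329632))))) (b (a (c (b (l 15735584) (l 229409505431)) (b (l 243904583863) (a (l 15468832) (l 234777722039)))) (b (a (c (l 309403327943) (l 331414555367)) (l 3)) (l 3))) (a (b (c (a (l 15675648) (l 294370845431)) (c (a (l 15515336) (l 315845353399)) (l 233167027271))) (a (c (l 226188191639) (c (l 229945954695) (l 232093230151))) (l 3))) (l 3)))) (b (a (c (a (l 15626144) (b (b (l 15677352) (l 225114387943)) (a (l 15614832) (b (l 224577505319) (l 224040619079))))) (c (a (l 15435304) (b (l 229945901943) (a (l 15442072) (b (l 228335262375) (l 226724630743))))) (a (l 15288832) (b (l 233703788055) (b (l 231556270119) (l 229945635911)))))) (a (b (c (b (l 222430076999) (l 287391525751)) (c (l 295444174055) (l 297591365175))) (l 3)) (l 3))) (a (b (c (a (l 15608984) (a (b (l 15627680)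 (l 222429966807)) (b (l 221893113543) (l 270748416711)))) (c (a (l 15412104) (a (l 226187726551) (l 275579864775))) (a (l 15261472) (a (l 229408730983) (l 276653303559))))) (a (c (a (l 15614920) (l 15578744)) (c (l 15398824) (l 15245608))) (a (b (c (a (l 15615416) (l 222966827783)) (c (l 225113957687) (l 228334911863))) (c (a (l 221356197079) (l 262158430519)) (c (l 225650793911) (l 248735986375)))) (l 3)))) (l 3)))), by decide +kernel⟩

def k3_mm_202 : ∃ t, chk3 f_mm_202 t 9 2 1 = true :=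
  ⟨(b (b (b (a (b (l 16187232) (b (l 16452664) (l 16472464))) (b (b (l 16241456) (a (l 16323040) (l 16192576))) (b (a (l 16327592) (b (l 16318664) (l 16349720))) (a (l 16274656) (c (l 16395496) (l 16417824)))))) (b (b (a (a (l 16407680) (l 16358384)) (a (l 16333840) (l 16357408))) (a (a (l 16316624) (a (l 16329376) (l 16423160))) (a (l 16416168) (l 16432752)))) (a (a (b (l 16278952) (l 16232216)) (b (l 16363488) (l 16228864))) (a (b (a (l 16375512) (l 16384960)) (l 16262248)) (a (l 16242832) (l 16230424)))))) (b (c (a (b (a (l 16275848) (l 16285256)) (a (l 16188480) (l 16200960))) (b (l 212230536887) (l 216525312711))) (a (b (a (l 16164464) (l 16180224)) (a (l 16056888) (l 16072088))) (b (l 213840920759) (l 218135656503)))) (b (a (a (c (l 16108200) (l 15954944)) (c (l 16123920) (l 15970992))) (a (c (l 364701851383) (l 424294282887)) (l 3))) (a (b (c (l 16062384) (l 15892624)) (c (l 16028280) (l 15847760))) (l 3))))) (a (b (b (b (c (l 231557540407) (a (l 15777576) (l 388860404583)))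 (a (c (l 229409911799) (l 234241401959)) (l 3))) (b (a (c (l 350742646247) (l 367385179799)) (l 3)) (l 3))) (l 3)) (l 3))), by decide +kernel⟩

def k4_mm_202 : ∃ t, chk3 f_mm_202 t 5 2 1 = true :=
  ⟨(a (a (b (b (b (b (b (b (a (l 16168440) (l 16155496)) (c (l 210083022279) (l 212230444727))) (c (l 207935605527) (l 209546183543))) (a (b (l 207398859895) (l 16364048)) (l 3))) (b (l 215452109031) (l 3))) (l 3)) (l 3)) (l 3)) (l 3)), by decide +kernel⟩

def k5_mm_202 : ∃ t, chk3 f_mm_202 t 2 3 1 = true :=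
  ⟨(b (b (a (a (a (b (b (a (b (c (a (l 15585776) (a (l 15565384) (c (l 218135079111) (l 220282314375)))) (b (c (l 15389976) (l 15234920)) (a (l 15301776) (c (l 221892655831) (l 225113627063))))) (a (c (c (l 15673776) (l 15525120)) (c (l 15371888) (l 15214176))) (c (c (a (l 216524443271) (l 239609896007)) (b (l 220282296519) (l 221892949735))) (a (b (c (l 15382344) (l 15224856)) (c (l 221892605783) (l 246051558951))) (b (c (l 225113843607) (l 251420285847)) (c (l 280948466183) (l 283632503271))))))) (b (c (c (l 258937294231) (b (l 244978466807) (l 259473969911))) (b (c (l 247125647911) (l 249809691063)) (c (l 293296532599) (l 295980573463)))) (l 3))) (a (b (c (c (a (a (l 15666488) (l 214913810295)) (l 241220591111)) (a (b (l 15520240) (l 215450413911)) (b (l 242830927527) (l 271821947927)))) (c (a (b (l 15365440) (a (l 15358872) (l 220818824983))) (b (l 246588713623) (l 274505990295))) (a (b (l 15206128) (a (l 15198656) (l 244440915655))) (b (l 249272769799) (l 276653152647)))))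 (a (a (c (c (l 213303179463) (b (l 15512104) (l 217060992423))) (c (b (l 15355464) (a (l 15351032) (l 236924928327))) (b (l 15194264) (a (l 15188960) (l 261620757831))))) (b (c (c (l 226188081815) (l 227261543271)) (c (l 264842297015) (l 268063199703))) (l 3))) (l 3))) (l 3))) (b (b (b (a (a (a (c (c (l 221356226823) (l 222966547911)) (c (l 255715426887) (a (l 256788907063) (l 3)))) (l 3)) (l 3)) (l 3)) (l 3)) (l 3)) (l 3))) (l 3)) (l 3)) (l 3)) (l 3)) (l 3)), by decide +kernel⟩

def k6_mm_202 : ∃ t, chk3 f_mm_202 t 3 1 1 = true :=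
  ⟨(l 3), by decide +kernel⟩

theorem s7_mm_202 : ∃ t, chk3 f_mm_202 t 8 5 1 = true := ex3_b k1_mm_202 k2_mm_202

theorem s8_mm_202 : ∃ t, chk3 f_mm_202 t 8 2 1 = true := ex3_b k0_mm_202 s7_mm_202

theorem s9_mm_202 : ∃ t, chk3 f_mm_202 t 4 2 1 = true := ex3_a s8_mm_202 k3_mm_202

theorem s10_mm_202 : ∃ t, chk3 f_mm_202 t 2 2 1 = true := ex3_a s9_mm_202 k4_mm_202

theorem s11_mm_202 : ∃ t, chk3 f_mm_202 t 2 1 1 = true := ex3_b s10_mm_202 k5_mm_202

theorem s12_mm_202 : ∃ t, chk3 f_mm_202 t 1 1 1 = true := ex3_a s11_mm_202 k6_mm_202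

theorem c_mm_202 : CertB 0 536870912 1073741824 536870912 991146299 28908434 3 eng mog cd0q2 cd4q2 pd0 false false false .pp 2 0 2
    ndB0q2 ndB4q2 pcB0 Cut.none Ext.none :=
  certB1 (fam := false) (s1 := false) (s2 := false) (a := 2) (b := 0) (c := 2) (cn := .pp) (n1 := ndB0q2) (n2 := ndB4q2) (pc := pcB0) (cut := Cut.none) (xt := Ext.none) (P1 := 0) (W1 := 536870912) (P2 := 1073741824) (W2 := 536870912) (P3 := 991146299) (W3 := 28908434) (N0 := 3) (En := eng) (mo := mog) (C1 := cd0q2) (C2 := cd4q2) (C3 := pd0)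
    rfl (fun _ => rfl) s12_mm_202

noncomputable def f_mm_203 : ℕ → ℕ → ℕ → ℕ → Bool := onCell 0 536870912 0 1230186008 991146299 28908434
    (rowB 3 eng mog cd0q2 cd4q3 pd0 0 false false false .up 2 0 3 (qsf 0 536870912 0 1230186008 0) ndB0q2 ndB4q3 pcB0 Cut.none Ext.none)

def k0_mm_203 : ∃ t, chk3 f_mm_203 t 1 1 1 = true :=
  ⟨(b (l 2) (b (l 2) (a (l 3) (l 3)))), by decide +kernel⟩

theorem c_mm_203 : CertB 0 536870912 0 1230186008 991146299 28908434 3 eng mog cd0q2 cd4q3 pd0 false false false .up 2 0 3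
    ndB0q2 ndB4q3 pcB0 Cut.none Ext.none :=
  certB0 (fam := false) (s1 := false) (s2 := false) (a := 2) (b := 0) (c := 3) (cn := .up) (n1 := ndB0q2) (n2 := ndB4q3) (pc := pcB0) (cut := Cut.none) (xt := Ext.none) (P1 := 0) (W1 := 536870912) (P2 := 0) (W2 := 1230186008) (P3 := 991146299) (W3 := 28908434) (N0 := 3) (En := eng) (mo := mog) (C1 := cd0q2) (C2 := cd4q3) (C3 := pd0)
    rfl k0_mm_203

noncomputable def f_mm_213 : ℕ → ℕ → ℕ → ℕ → Bool := onCell 0 536870912 0 1230186008 991146299 28908434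
    (rowB 3 eng mog cd0q2 cd4q3 pd1 0 false false false .pnn 2 1 3 (qsf 0 536870912 0 1230186008 1) ndB0q2 ndB4q3 pcB1 Cut.none Ext.none)

def k0_mm_213 : ∃ t, chk3 f_mm_213 t 1 1 1 = true :=
  ⟨(b (a (l 3) (b (l 5) (l 3))) (b (l 3) (a (l 3) (l 3)))), by decide +kernel⟩

theorem c_mm_213 : CertB 0 536870912 0 1230186008 991146299 28908434 3 eng mog cd0q2 cd4q3 pd1 false false false .pnn 2 1 3
    ndB0q2 ndB4q3 pcB1 Cut.none Ext.none :=
  certB0 (fam := false) (s1 := false) (s2 := false) (a := 2) (b := 1) (c := 3) (cn := .pnn) (n1 := ndB0q2) (n2 := ndB4q3) (pc := pcB1) (cut := Cut.none) (xt := Ext.none) (P1 := 0) (W1 := 536870912) (P2 := 0) (W2 := 1230186008) (P3 := 991146299) (W3 := 28908434) (N0 := 3) (En := eng) (mo := mog) (C1 := cd0q2) (C2 := cd4q3) (C3 := pd1)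
    rfl k0_mm_213

end Pool.Agent.Strip051.G.I9231_9500.Tab.C.BB04

namespace Pool.Agent.Strip051.G.I9231_9500.Tab.C.BB05

open Pool.Agent.Strip051.PB Pool.Agent.Strip051.PB.T
open Pool.Agent.Strip051.G.I9231_9500.Tab

noncomputable def cut_pp_001 : Cut := Cut.of [[⟨3, 0, 0, 1449551462⟩]]

noncomputable def f_pp_001 : ℕ → ℕ → ℕ → ℕ → Bool := onCell 0 536870912 536870912 536870912 991146299 28908434
    (rowB 3 eng mog cd0q0 cd5q1 pd0 0 false true true .up 0 0 1 (qsf 0 536870912 536870912 536870912 0) ndB0q0 ndB5q1 pcB0 cut_pp_001 Ext.none)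

def k0_pp_001 : ∃ t, chk3 f_pp_001 t 1 1 1 = true :=
  ⟨(l 6), by decide +kernel⟩

theorem c_pp_001 : CertB 0 536870912 536870912 536870912 991146299 28908434 3 eng mog cd0q0 cd5q1 pd0 false true true .up 0 0 1
    ndB0q0 ndB5q1 pcB0 cut_pp_001 Ext.none :=
  certB0 (fam := false) (s1 := true) (s2 := true) (a := 0) (b := 0) (c := 1) (cn := .up) (n1 := ndB0q0) (n2 := ndB5q1) (pc := pcB0) (cut := cut_pp_001) (xt := Ext.none) (P1 := 0) (W1 := 536870912) (P2 := 536870912) (W2 := 536870912) (P3 := 991146299) (W3 := 28908434) (N0 := 3) (En := eng) (mo := mog) (C1 := cd0q0) (C2 := cd5q1) (C3 := pd0)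
    rfl k0_pp_001

noncomputable def cut_pp_011 : Cut := Cut.of [[⟨3, 0, 0, 1449551462⟩], [⟨0, 0, 0, 53687091⟩, ⟨1, 1, 0, 53687091⟩, ⟨2, 1, 0, 53687091⟩]]

noncomputable def f_pp_011 : ℕ → ℕ → ℕ → ℕ → Bool := onCell 0 536870912 536870912 536870912 991146299 28908434
    (rowB 3 eng mog cd0q0 cd5q1 pd1 0 false true true .pnn 0 1 1 (qsf 0 536870912 536870912 536870912 1) ndB0q0 ndB5q1 pcB1 cut_pp_011 Ext.none)

def k0_pp_011 : ∃ t, chk3 f_pp_011 t 1 1 1 = true :=
  ⟨(l 6), by decide +kernel⟩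

theorem c_pp_011 : CertB 0 536870912 536870912 536870912 991146299 28908434 3 eng mog cd0q0 cd5q1 pd1 false true true .pnn 0 1 1
    ndB0q0 ndB5q1 pcB1 cut_pp_011 Ext.none :=
  certB0 (fam := false) (s1 := true) (s2 := true) (a := 0) (b := 1) (c := 1) (cn := .pnn) (n1 := ndB0q0) (n2 := ndB5q1) (pc := pcB1) (cut := cut_pp_011) (xt := Ext.none) (P1 := 0) (W1 := 536870912) (P2 := 536870912) (W2 := 536870912) (P3 := 991146299) (W3 := 28908434) (N0 := 3) (En := eng) (mo := mog) (C1 := cd0q0) (C2 := cd5q1) (C3 := pd1)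
    rfl k0_pp_011

noncomputable def cut_pp_012 : Cut := Cut.of [[⟨3, 0, 0, 1449551462⟩], [⟨0, 0, 0, 53687091⟩, ⟨1, 1, 0, 53687091⟩, ⟨2, 1, 0, 53687091⟩]]

noncomputable def f_pp_012 : ℕ → ℕ → ℕ → ℕ → Bool := onCell 0 536870912 536870912 536870912 991146299 28908434
    (rowB 3 eng mog cd0q0 cd5q2 pd1 1 false true true .pnp 0 1 2 (qsf 0 536870912 1073741824 536870912 1) ndB0q0 ndB5q2 pcB1 cut_pp_012 Ext.none)

def k0_pp_012 : ∃ t, chk3 f_pp_012 t 1 1 1 = true :=
  ⟨(l 6), by decide +kernel⟩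

theorem c_pp_012 : CertB 0 536870912 1073741824 536870912 991146299 28908434 3 eng mog cd0q0 cd5q2 pd1 false true true .pnp 0 1 2
    ndB0q0 ndB5q2 pcB1 cut_pp_012 Ext.none :=
  certB1 (fam := false) (s1 := true) (s2 := true) (a := 0) (b := 1) (c := 2) (cn := .pnp) (n1 := ndB0q0) (n2 := ndB5q2) (pc := pcB1) (cut := cut_pp_012) (xt := Ext.none) (P1 := 0) (W1 := 536870912) (P2 := 1073741824) (W2 := 536870912) (P3 := 991146299) (W3 := 28908434) (N0 := 3) (En := eng) (mo := mog) (C1 := cd0q0) (C2 := cd5q2) (C3 := pd1)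
    rfl (fun _ => rfl) k0_pp_012

noncomputable def cut_pp_022 : Cut := Cut.of [[⟨3, 0, 0, 1449551462⟩], [⟨0, 0, 0, 26843545⟩, ⟨1, 1, 0, 26843545⟩, ⟨2, 1, 0, 26843545⟩]]

noncomputable def f_pp_022 : ℕ → ℕ → ℕ → ℕ → Bool := onCell 0 536870912 1073741824 536870912 991146299 28908434
    (rowB 3 eng mog cd0q0 cd5q2 pd2 0 false true true .pp 0 2 2 (qsf 0 536870912 1073741824 536870912 2) ndB0q0 ndB5q2 pcB2 cut_pp_022 Ext.none)

def k0_pp_022 : ∃ t, chk3 f_pp_022 t 1 1 1 = true :=
  ⟨(a (b (l 6) (a (b (b (a (a (b (l 6) (l 16026104)) (l 6)) (l 6)) (a (b (a (l 15969680) (l 16065960)) (a (l 15879224) (l 16018608))) (a (b (l 6) (l 16162432)) (l 6)))) (a (b (a (l 15736976) (l 15777456)) (b (l 15669240) (l 15577808))) (a (b (l 15821936) (l 15858000)) (b (a (l 16091960) (l 16136160)) (l 15979088))))) (b (l 6) (b (l 6) (a (b (l 16126504) (l 16154048)) (l 6)))))) (l 6)), by decide +kernel⟩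

theorem c_pp_022 : CertB 0 536870912 1073741824 536870912 991146299 28908434 3 eng mog cd0q0 cd5q2 pd2 false true true .pp 0 2 2
    ndB0q0 ndB5q2 pcB2 cut_pp_022 Ext.none :=
  certB0 (fam := false) (s1 := true) (s2 := true) (a := 0) (b := 2) (c := 2) (cn := .pp) (n1 := ndB0q0) (n2 := ndB5q2) (pc := pcB2) (cut := cut_pp_022) (xt := Ext.none) (P1 := 0) (W1 := 536870912) (P2 := 1073741824) (W2 := 536870912) (P3 := 991146299) (W3 := 28908434) (N0 := 3) (En := eng) (mo := mog) (C1 := cd0q0) (C2 := cd5q2) (C3 := pd2)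
    rfl k0_pp_022

noncomputable def cut_pp_023 : Cut := Cut.of [[⟨3, 0, 0, 1449551462⟩]]

noncomputable def f_pp_023 : ℕ → ℕ → ℕ → ℕ → Bool := onCell 1073741824 536870912 0 1230186008 991146299 28908434
    (rowB 3 eng mog cd0q0 cd5q3 pd2 2 false true true .up 0 2 3 (qsf 0 536870912 0 1230186008 2) ndB0q0 ndB5q3 pcB2 cut_pp_023 Ext.none)

def k0_pp_023 : ∃ t, chk3 f_pp_023 t 1 1 1 = true :=
  ⟨(a (b (l 2) (l 6)) (a (b (l 2) (a (b (b (l 2) (l 6)) (l 6)) (b (b (b (a (l 2) (l 16595160)) (l 16572904)) (b (a (l 16544776) (l 16498960)) (a (l 16499400) (l 16440696)))) (b (b (b (l 16432024) (l 16403040)) (b (l 16370592) (l 16334224))) (b (b (l 16293408) (l 16247608)) (b (l 16112616) (l 15976296))))))) (b (b (a (l 2) (b (l 167600909111) (a (l 2) (l 15637304)))) (a (b (b (l 2) (a (l 2) (l 16108944))) (b (l 16308008) (l 16434168))) (b (b (l 189076908567) (a (l 16041448) (l 15973280))) (b (a (l 16188568) (l 16101696)) (l 16276832))))) (b (b (a (b (a (l 16546432) (l 16481888)) (a (l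 16515032) (l 16466256))) (b (l 16361888) (b (l 16363120) (l 16359200)))) (b (a (l 16418936) (l 16286984)) (a (l 16236080) (l 16181432)))) (b (b (a (l 16154688) (l 16069720)) (a (l 16019016) (l 15800304))) (b (a (b (l 16084528) (l 16023872)) (b (l 15838352) (a (l 15828304) (l 15687184)))) (a (b (l 15954336) (a (l 15952232) (l 15813888))) (b (a (l 15747488) (l 15584864)) (a (l 15654160) (l 15493464)))))))))), by decide +kernel⟩

theorem c_pp_023 : CertB 0 536870912 0 1230186008 991146299 28908434 3 eng mog cd0q0 cd5q3 pd2 false true true .up 0 2 3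
    ndB0q0 ndB5q3 pcB2 cut_pp_023 Ext.none :=
  certB2 (fam := false) (s1 := true) (s2 := true) (a := 0) (b := 2) (c := 3) (cn := .up) (n1 := ndB0q0) (n2 := ndB5q3) (pc := pcB2) (cut := cut_pp_023) (xt := Ext.none) (P1 := 0) (W1 := 536870912) (P2 := 0) (W2 := 1230186008) (P3 := 991146299) (W3 := 28908434) (N0 := 3) (En := eng) (mo := mog) (C1 := cd0q0) (C2 := cd5q3) (C3 := pd2)
    rfl (fun _ => rfl) k0_pp_023

noncomputable def cut_pp_033 : Cut := Cut.of [[⟨3, 0, 0, 1449551462⟩]]

noncomputable def f_pp_033 : ℕ → ℕ → ℕ → ℕ → Bool := onCell 1610612736 536870912 0 1230186008 991146299 28908434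
    (rowB 3 eng mog cd0q0 cd5q3 pd3 2 false true true .pnn 0 3 3 (qsf 0 536870912 0 1230186008 3) ndB0q0 ndB5q3 pcB3 cut_pp_033 Ext.none)

def k0_pp_033 : ∃ t, chk3 f_pp_033 t 1 2 1 = true :=
  ⟨(b (a (a (b (a (a (l 15929312) (l 15901144)) (a (l 15901088) (l 15936248))) (a (l 16017288) (l 15928024))) (a (b (b (l 16122024) (l 15968120)) (b (l 15891328) (l 15884280))) (b (a (b (l 16173352) (l 16104720)) (l 15832904)) (b (l 16003864) (a (l 15855296) (l 15887136)))))) (a (a (a (b (l 15940576) (b (l 16060000) (l 15946496))) (b (l 4) (b (l 16022536) (l 15965832)))) (b (l 4) (a (l 15813504) (l 4)))) (l 4))) (a (a (b (a (b (l 16078264) (l 16118368)) (b (l 15961448) (l 15983656))) (a (b (a (b (l 16190704) (l 16231264)) (l 16021160)) (a (l 16312536) (l 16176064))) (b (a (l 16039552) (l 15962544)) (a (b (l 16060728) (l 16098456)) (b (l 15967208) (l 15976176)))))) (a (b (b (l 15863736) (l 15858688)) (b (l 15849088) (a (l 15879768) (l 15784248)))) (b (b (a (l 15805664) (l 15787472)) (l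 15746480)) (b (l 15700920) (l 15648640))))) (b (a (a (a (b (l 15791392) (l 15676928)) (b (l 15827328) (l 15649032))) (a (b (l 15840664) (l 15636600)) (b (l 15705512) (l 15598080)))) (a (a (b (l 4) (l 15521288)) (l 4)) (l 4))) (a (a (a (l 15547592) (b (l 15520744) (l 15410664))) (a (b (l 15458768) (l 15296320)) (b (l 15386576) (l 15184296)))) (b (a (a (l 15303032) (l 15206992)) (l 4)) (a (a (a (l 15094712) (l 15041464)) (l 15011024)) (l 1))))))), by decide +kernel⟩

def k1_pp_033 : ∃ t, chk3 f_pp_033 t 1 6 1 = true :=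
  ⟨(a (a (b (a (b (a (l 16363888) (l 16253184)) (a (b (l 16354944) (l 16319264)) (l 16210544))) (b (a (l 16135344) (l 16010992)) (a (l 16113400) (l 15987480)))) (b (a (a (l 16204736) (l 15914576)) (a (b (l 16034176) (l 15945536)) (b (l 15905832) (l 15815032)))) (a (a (l 16041568) (l 15931232)) (a (l 15808200) (l 15667832))))) (b (a (b (a (b (l 15873608) (l 15884144)) (b (l 15759240) (l 15748352))) (a (l 15854696) (l 15717056))) (b (a (l 15640568) (l 15523600)) (a (l 15574168) (b (l 15454904) (l 15402440))))) (a (b (b (l 15695864) (a (l 15672240) (l 15519536))) (a (b (l 15564112) (l 15470640)) (b (l 15399472) (l 15285424)))) (b (a (b (l 15471776) (l 15361720)) (b (l 15313008) (l 15193448))) (a (b (l 15216424) (l 15092968)) (b (l 15038104) (l 14899768))))))) (b (a (a (b (a (l 15411336) (l 15277664)) (a (b (l 15319976) (l 15248624)) (l 15137280))) (b (a (l 15143328) (l 15001352)) (l 14906416))) (a (a (a (l 14802696) (l 1)) (l 1)) (l 1))) (a (a (b (a (b (l 15158096) (l 15034384))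 (l 15145912)) (b (a (l 14885848) (l 14766344)) (a (l 14748280) (l 1)))) (a (b (l 15070104) (l 1)) (l 1))) (l 1)))), by decide +kernel⟩

def k2_pp_033 : ∃ t, chk3 f_pp_033 t 1 7 1 = true :=
  ⟨(a (b (a (b (a (b (a (l 15936912) (l 15820504)) (l 15815104)) (b (l 15617752) (a (l 15616560) (l 15468560)))) (a (b (l 15736552) (a (l 15715256) (l 15571384))) (b (l 15332848) (l 15170584)))) (a (b (b (a (l 15378880) (l 15193144)) (a (l 15296912) (l 15119280))) (b (l 15103720) (l 14983696))) (b (b (l 14914136) (l 14629432)) (l 1)))) (a (b (a (b (a (l 15614816) (l 15446704)) (a (l 15484712) (l 15310344))) (b (l 15083888) (l 15057560))) (a (b (b (l 15291384) (l 15069952)) (a (l 15306184) (l 15164312))) (b (a (l 15031088) (l 1)) (l 1)))) (a (b (b (l 14871152) (l 1)) (l 1)) (l 1)))) (l 1)), by decide +kernel⟩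

theorem s3_pp_033 : ∃ t, chk3 f_pp_033 t 1 3 1 = true := ex3_b k1_pp_033 k2_pp_033

theorem s4_pp_033 : ∃ t, chk3 f_pp_033 t 1 1 1 = true := ex3_b k0_pp_033 s3_pp_033

theorem c_pp_033 : CertB 0 536870912 0 1230186008 991146299 28908434 3 eng mog cd0q0 cd5q3 pd3 false true true .pnn 0 3 3
    ndB0q0 ndB5q3 pcB3 cut_pp_033 Ext.none :=
  certB2 (fam := false) (s1 := true) (s2 := true) (a := 0) (b := 3) (c := 3) (cn := .pnn) (n1 := ndB0q0) (n2 := ndB5q3) (pc := pcB3) (cut := cut_pp_033) (xt := Ext.none) (P1 := 0) (W1 := 536870912) (P2 := 0) (W2 := 1230186008) (P3 := 991146299) (W3 := 28908434) (N0 := 3) (En := eng) (mo := mog) (C1 := cd0q0) (C2 := cd5q3) (C3 := pd3)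
    rfl (fun _ => rfl) s4_pp_033

noncomputable def cut_pp_101 : Cut := Cut.of [[⟨3, 0, 0, 1449551462⟩]]

noncomputable def f_pp_101 : ℕ → ℕ → ℕ → ℕ → Bool := onCell 536870912 536870912 0 536870912 991146299 28908434
    (rowB 3 eng mog cd0q1 cd5q1 pd0 1 false true true .npn 1 0 1 (qsf 536870912 536870912 536870912 536870912 0) ndB0q1 ndB5q1 pcB0 cut_pp_101 Ext.none)

def k0_pp_101 : ∃ t, chk3 f_pp_101 t 1 1 1 = true :=
  ⟨(l 6), by decide +kernel⟩

theorem c_pp_101 : CertB 536870912 536870912 536870912 536870912 991146299 28908434 3 eng mog cd0q1 cd5q1 pd0 false true true .npn 1 0 1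
    ndB0q1 ndB5q1 pcB0 cut_pp_101 Ext.none :=
  certB1 (fam := false) (s1 := true) (s2 := true) (a := 1) (b := 0) (c := 1) (cn := .npn) (n1 := ndB0q1) (n2 := ndB5q1) (pc := pcB0) (cut := cut_pp_101) (xt := Ext.none) (P1 := 536870912) (W1 := 536870912) (P2 := 536870912) (W2 := 536870912) (P3 := 991146299) (W3 := 28908434) (N0 := 3) (En := eng) (mo := mog) (C1 := cd0q1) (C2 := cd5q1) (C3 := pd0)
    rfl (fun _ => rfl) k0_pp_101

noncomputable def cut_pp_102 : Cut := Cut.of [[⟨3, 0, 0, 1449551462⟩]]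

noncomputable def f_pp_102 : ℕ → ℕ → ℕ → ℕ → Bool := onCell 536870912 536870912 1073741824 536870912 991146299 28908434
    (rowB 3 eng mog cd0q1 cd5q2 pd0 0 false true true .npp 1 0 2 (qsf 536870912 536870912 1073741824 536870912 0) ndB0q1 ndB5q2 pcB0 cut_pp_102 Ext.none)

def k0_pp_102 : ∃ t, chk3 f_pp_102 t 1 1 1 = true :=
  ⟨(l 6), by decide +kernel⟩

theorem c_pp_102 : CertB 536870912 536870912 1073741824 536870912 991146299 28908434 3 eng mog cd0q1 cd5q2 pd0 false true true .npp 1 0 2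
    ndB0q1 ndB5q2 pcB0 cut_pp_102 Ext.none :=
  certB0 (fam := false) (s1 := true) (s2 := true) (a := 1) (b := 0) (c := 2) (cn := .npp) (n1 := ndB0q1) (n2 := ndB5q2) (pc := pcB0) (cut := cut_pp_102) (xt := Ext.none) (P1 := 536870912) (W1 := 536870912) (P2 := 1073741824) (W2 := 536870912) (P3 := 991146299) (W3 := 28908434) (N0 := 3) (En := eng) (mo := mog) (C1 := cd0q1) (C2 := cd5q2) (C3 := pd0)
    rfl k0_pp_102

noncomputable def cut_pp_112 : Cut := Cut.of [[⟨3, 0, 0, 1449551462⟩]]

noncomputable def f_pp_112 : ℕ → ℕ → ℕ → ℕ → Bool := onCell 536870912 536870912 1073741824 536870912 991146299 28908434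
    (rowB 3 eng mog cd0q1 cd5q2 pd1 0 false true true .dn 1 1 2 (qsf 536870912 536870912 1073741824 536870912 1) ndB0q1 ndB5q2 pcB1 cut_pp_112 Ext.none)

def k0_pp_112 : ∃ t, chk3 f_pp_112 t 1 1 1 = true :=
  ⟨(l 6), by decide +kernel⟩

theorem c_pp_112 : CertB 536870912 536870912 1073741824 536870912 991146299 28908434 3 eng mog cd0q1 cd5q2 pd1 false true true .dn 1 1 2
    ndB0q1 ndB5q2 pcB1 cut_pp_112 Ext.none :=
  certB0 (fam := false) (s1 := true) (s2 := true) (a := 1) (b := 1) (c := 2) (cn := .dn) (n1 := ndB0q1) (n2 := ndB5q2) (pc := pcB1) (cut := cut_pp_112) (xt := Ext.none) (P1 := 536870912) (W1 := 536870912) (P2 := 1073741824) (W2 := 536870912) (P3 := 991146299) (W3 := 28908434) (N0 := 3) (En := eng) (mo := mog) (C1 := cd0q1) (C2 := cd5q2) (C3 := pd1)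
    rfl k0_pp_112

noncomputable def cut_pp_113 : Cut := Cut.of [[⟨3, 0, 0, 1449551462⟩], [⟨0, 1, 0, 37748736⟩, ⟨1, 1, 0, 37748736⟩, ⟨2, 2, 0, 5242880⟩]]

noncomputable def f_pp_113 : ℕ → ℕ → ℕ → ℕ → Bool := onCell 536870912 536870912 0 1230186008 991146299 28908434
    (rowB 3 eng mog cd0q1 cd5q3 pd1 0 false true true .nn 1 1 3 (qsf 536870912 536870912 0 1230186008 1) ndB0q1 ndB5q3 pcB1 cut_pp_113 Ext.none)

def k0_pp_113 : ∃ t, chk3 f_pp_113 t 1 1 1 = true :=
  ⟨(b (a (l 2) (a (l 2) (b (a (l 2) (l 6)) (l 6)))) (b (a (a (l 2) (l 6)) (l 6)) (l 6))), by decide +kernel⟩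

theorem c_pp_113 : CertB 536870912 536870912 0 1230186008 991146299 28908434 3 eng mog cd0q1 cd5q3 pd1 false true true .nn 1 1 3
    ndB0q1 ndB5q3 pcB1 cut_pp_113 Ext.none :=
  certB0 (fam := false) (s1 := true) (s2 := true) (a := 1) (b := 1) (c := 3) (cn := .nn) (n1 := ndB0q1) (n2 := ndB5q3) (pc := pcB1) (cut := cut_pp_113) (xt := Ext.none) (P1 := 536870912) (W1 := 536870912) (P2 := 0) (W2 := 1230186008) (P3 := 991146299) (W3 := 28908434) (N0 := 3) (En := eng) (mo := mog) (C1 := cd0q1) (C2 := cd5q3) (C3 := pd1)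
    rfl k0_pp_113

noncomputable def cut_pp_123 : Cut := Cut.of [[⟨3, 0, 0, 1449551462⟩], [⟨0, 1, 0, 37748736⟩, ⟨1, 1, 0, 37748736⟩, ⟨2, 2, 0, 5242880⟩]]

noncomputable def f_pp_123 : ℕ → ℕ → ℕ → ℕ → Bool := onCell 1073741824 536870912 0 1230186008 991146299 28908434
    (rowB 3 eng mog cd0q1 cd5q3 pd2 2 false true true .npn 1 2 3 (qsf 536870912 536870912 0 1230186008 2) ndB0q1 ndB5q3 pcB2 cut_pp_123 Ext.none)

def k0_pp_123 : ∃ t, chk3 f_pp_123 t 1 1 1 = true :=
  ⟨(a (b (a (a (l 6) (b (b (a (l 6) (b (a (l 6) (l 16374784)) (l 6))) (l 6)) (l 6))) (b (a (b (a (a (b (l 16325624) (l 6)) (b (l 16279976) (a (l 16344408) (a (l 16318800) (b (l 16281000) (l 6)))))) (b (l 16216152) (a (l 16273216) (l 16229176)))) (a (l 6) (b (l 16358704) (l 6)))) (b (a (b (l 16124600) (l 16170936)) (l 16062592)) (a (b (l 16146936) (l 16390600)) (b (l 16164712) (l 16296128))))) (a (l 6) (b (a (l 6) (b (l 16440760) (l 16553736))) (l 6))))) (l 6)) (b (b (a (b (a (a (l 15971352) (l 15876960)) (a (l 15780680)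 (l 15683592))) (a (a (b (l 16089912) (l 16199928)) (b (l 16015312) (l 16120344))) (a (b (l 15943712) (l 16052592)) (l 15819656)))) (b (a (a (l 15586704) (l 15491056)) (c (l 15475224) (l 15226464))) (a (a (l 15853664) (l 15781928)) (a (l 15710200) (l 15637192))))) (a (b (a (b (a (l 16357136) (l 16273024)) (a (l 16501632) (l 16426632))) (b (a (l 16185952) (l 16107752)) (l 16270016))) (a (a (b (l 16628304) (l 6)) (b (l 16562160) (l 16660416))) (b (l 16458096) (a (l 16608576) (l 16541224))))) (a (b (b (a (l 16043120) (l 15973408)) (a (l 16192104) (l 16108912))) (b (l 16307880) (l 16433760))) (a (b (b (l 15904824) (l 16041320)) (l 67140872663)) (b (b (l 15836024) (l 1)) (l 1)))))) (b (a (b (a (b (l 16647488) (l 6)) (b (a (l 16631328) (l 16595080)) (l 16509504))) (a (l 6) (b (a (l 16544304) (l 1)) (l 1)))) (b (a (b (a (l 16546168) (l 1)) (l 1)) (l 1)) (l 1))) (l 1)))), by decide +kernel⟩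

theorem c_pp_123 : CertB 536870912 536870912 0 1230186008 991146299 28908434 3 eng mog cd0q1 cd5q3 pd2 false true true .npn 1 2 3
    ndB0q1 ndB5q3 pcB2 cut_pp_123 Ext.none :=
  certB2 (fam := false) (s1 := true) (s2 := true) (a := 1) (b := 2) (c := 3) (cn := .npn) (n1 := ndB0q1) (n2 := ndB5q3) (pc := pcB2) (cut := cut_pp_123) (xt := Ext.none) (P1 := 536870912) (W1 := 536870912) (P2 := 0) (W2 := 1230186008) (P3 := 991146299) (W3 := 28908434) (N0 := 3) (En := eng) (mo := mog) (C1 := cd0q1) (C2 := cd5q3) (C3 := pd2)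
    rfl (fun _ => rfl) k0_pp_123

noncomputable def cut_pp_133 : Cut := Cut.of [[⟨3, 0, 0, 1449551462⟩]]

noncomputable def f_pp_133 : ℕ → ℕ → ℕ → ℕ → Bool := onCell 536870912 536870912 0 1230186008 991146299 28908434
    (rowB 3 eng mog cd0q1 cd5q3 pd3 0 false true true .dn 1 3 3 (qsf 536870912 536870912 0 1230186008 3) ndB0q1 ndB5q3 pcB3 cut_pp_133 Ext.none)

def k0_pp_133 : ∃ t, chk3 f_pp_133 t 1 1 1 = true :=
  ⟨(b (b (a (a (b (a (l 16025408) (l 1)) (l 1)) (l 1)) (l 1)) (l 1)) (l 1)), by decide +kernel⟩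

theorem c_pp_133 : CertB 536870912 536870912 0 1230186008 991146299 28908434 3 eng mog cd0q1 cd5q3 pd3 false true true .dn 1 3 3
    ndB0q1 ndB5q3 pcB3 cut_pp_133 Ext.none :=
  certB0 (fam := false) (s1 := true) (s2 := true) (a := 1) (b := 3) (c := 3) (cn := .dn) (n1 := ndB0q1) (n2 := ndB5q3) (pc := pcB3) (cut := cut_pp_133) (xt := Ext.none) (P1 := 536870912) (W1 := 536870912) (P2 := 0) (W2 := 1230186008) (P3 := 991146299) (W3 := 28908434) (N0 := 3) (En := eng) (mo := mog) (C1 := cd0q1) (C2 := cd5q3) (C3 := pd3)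
    rfl k0_pp_133

noncomputable def cut_pp_202 : Cut := Cut.of [[⟨3, 0, 0, 1449551462⟩]]

noncomputable def f_pp_202 : ℕ → ℕ → ℕ → ℕ → Bool := onCell 0 536870912 1073741824 536870912 991146299 28908434
    (rowB 3 eng mog cd0q2 cd5q2 pd0 0 false true true .pp 2 0 2 (qsf 0 536870912 1073741824 536870912 0) ndB0q2 ndB5q2 pcB0 cut_pp_202 Ext.none)

def k0_pp_202 : ∃ t, chk3 f_pp_202 t 1 1 1 = true :=
  ⟨(l 5), by decide +kernel⟩

theorem c_pp_202 : CertB 0 536870912 1073741824 536870912 991146299 28908434 3 eng mog cd0q2 cd5q2 pd0 false true true .pp 2 0 2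
    ndB0q2 ndB5q2 pcB0 cut_pp_202 Ext.none :=
  certB0 (fam := false) (s1 := true) (s2 := true) (a := 2) (b := 0) (c := 2) (cn := .pp) (n1 := ndB0q2) (n2 := ndB5q2) (pc := pcB0) (cut := cut_pp_202) (xt := Ext.none) (P1 := 0) (W1 := 536870912) (P2 := 1073741824) (W2 := 536870912) (P3 := 991146299) (W3 := 28908434) (N0 := 3) (En := eng) (mo := mog) (C1 := cd0q2) (C2 := cd5q2) (C3 := pd0)
    rfl k0_pp_202

noncomputable def cut_pp_203 : Cut := Cut.of [[⟨3, 0, 0, 1449551462⟩]]

noncomputable def f_pp_203 : ℕ → ℕ → ℕ → ℕ → Bool := onCell 0 536870912 0 1230186008 991146299 28908434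
    (rowB 3 eng mog cd0q2 cd5q3 pd0 0 false true true .up 2 0 3 (qsf 0 536870912 0 1230186008 0) ndB0q2 ndB5q3 pcB0 cut_pp_203 Ext.none)

def k0_pp_203 : ∃ t, chk3 f_pp_203 t 1 1 1 = true :=
  ⟨(b (l 2) (a (l 5) (l 6))), by decide +kernel⟩

theorem c_pp_203 : CertB 0 536870912 0 1230186008 991146299 28908434 3 eng mog cd0q2 cd5q3 pd0 false true true .up 2 0 3
    ndB0q2 ndB5q3 pcB0 cut_pp_203 Ext.none :=
  certB0 (fam := false) (s1 := true) (s2 := true) (a := 2) (b := 0) (c := 3) (cn := .up) (n1 := ndB0q2) (n2 := ndB5q3) (pc := pcB0) (cut := cut_pp_203) (xt := Ext.none) (P1 := 0) (W1 := 536870912) (P2 := 0) (W2 := 1230186008) (P3 := 991146299) (W3 := 28908434) (N0 := 3) (En := eng) (mo := mog) (C1 := cd0q2) (C2 := cd5q3) (C3 := pd0)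
    rfl k0_pp_203

noncomputable def cut_pp_213 : Cut := Cut.of [[⟨3, 0, 0, 1449551462⟩], [⟨0, 1, 0, 37748736⟩, ⟨1, 1, 0, 37748736⟩, ⟨2, 2, 0, 5242880⟩]]

noncomputable def f_pp_213 : ℕ → ℕ → ℕ → ℕ → Bool := onCell 0 536870912 0 1230186008 991146299 28908434
    (rowB 3 eng mog cd0q2 cd5q3 pd1 0 false true true .pnn 2 1 3 (qsf 0 536870912 0 1230186008 1) ndB0q2 ndB5q3 pcB1 cut_pp_213 Ext.none)

def k0_pp_213 : ∃ t, chk3 f_pp_213 t 1 1 1 = true :=
  ⟨(b (l 6) (a (l 5) (l 6))), by decide +kernel⟩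

theorem c_pp_213 : CertB 0 536870912 0 1230186008 991146299 28908434 3 eng mog cd0q2 cd5q3 pd1 false true true .pnn 2 1 3
    ndB0q2 ndB5q3 pcB1 cut_pp_213 Ext.none :=
  certB0 (fam := false) (s1 := true) (s2 := true) (a := 2) (b := 1) (c := 3) (cn := .pnn) (n1 := ndB0q2) (n2 := ndB5q3) (pc := pcB1) (cut := cut_pp_213) (xt := Ext.none) (P1 := 0) (W1 := 536870912) (P2 := 0) (W2 := 1230186008) (P3 := 991146299) (W3 := 28908434) (N0 := 3) (En := eng) (mo := mog) (C1 := cd0q2) (C2 := cd5q3) (C3 := pd1)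
    rfl k0_pp_213

noncomputable def cut_pm_001 : Cut := Cut.of [[⟨3, 0, 0, 1449551462⟩]]

noncomputable def f_pm_001 : ℕ → ℕ → ℕ → ℕ → Bool := onCell 0 536870912 536870912 536870912 991146299 28908434
    (rowB 3 eng mog cd0q0 cd5q1 pd0 0 false true false .up 0 0 1 (qsf 0 536870912 536870912 536870912 0) ndB0q0 ndB5q1 pcB0 cut_pm_001 Ext.none)

def k0_pm_001 : ∃ t, chk3 f_pm_001 t 1 1 1 = true :=
  ⟨(l 4), by decide +kernel⟩

theorem c_pm_001 : CertB 0 536870912 536870912 536870912 991146299 28908434 3 eng mog cd0q0 cd5q1 pd0 false true false .up 0 0 1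
    ndB0q0 ndB5q1 pcB0 cut_pm_001 Ext.none :=
  certB0 (fam := false) (s1 := true) (s2 := false) (a := 0) (b := 0) (c := 1) (cn := .up) (n1 := ndB0q0) (n2 := ndB5q1) (pc := pcB0) (cut := cut_pm_001) (xt := Ext.none) (P1 := 0) (W1 := 536870912) (P2 := 536870912) (W2 := 536870912) (P3 := 991146299) (W3 := 28908434) (N0 := 3) (En := eng) (mo := mog) (C1 := cd0q0) (C2 := cd5q1) (C3 := pd0)
    rfl k0_pm_001

noncomputable def cut_pm_011 : Cut := Cut.of [[⟨3, 0, 0, 1449551462⟩]]

noncomputable def f_pm_011 : ℕ → ℕ → ℕ → ℕ → Bool := onCell 0 536870912 536870912 536870912 991146299 28908434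
    (rowB 3 eng mog cd0q0 cd5q1 pd1 0 false true false .pnn 0 1 1 (qsf 0 536870912 536870912 536870912 1) ndB0q0 ndB5q1 pcB1 cut_pm_011 Ext.none)

def k0_pm_011 : ∃ t, chk3 f_pm_011 t 1 1 1 = true :=
  ⟨(l 4), by decide +kernel⟩

theorem c_pm_011 : CertB 0 536870912 536870912 536870912 991146299 28908434 3 eng mog cd0q0 cd5q1 pd1 false true false .pnn 0 1 1
    ndB0q0 ndB5q1 pcB1 cut_pm_011 Ext.none :=
  certB0 (fam := false) (s1 := true) (s2 := false) (a := 0) (b := 1) (c := 1) (cn := .pnn) (n1 := ndB0q0) (n2 := ndB5q1) (pc := pcB1) (cut := cut_pm_011) (xt := Ext.none) (P1 := 0) (W1 := 536870912) (P2 := 536870912) (W2 := 536870912) (P3 := 991146299) (W3 := 28908434) (N0 := 3) (En := eng) (mo := mog) (C1 := cd0q0) (C2 := cd5q1) (C3 := pd1)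
    rfl k0_pm_011

noncomputable def cut_pm_012 : Cut := Cut.of [[⟨3, 0, 0, 1449551462⟩]]

noncomputable def f_pm_012 : ℕ → ℕ → ℕ → ℕ → Bool := onCell 0 536870912 1073741824 536870912 991146299 28908434
    (rowB 3 eng mog cd0q0 cd5q2 pd1 0 false true false .pnp 0 1 2 (qsf 0 536870912 1073741824 536870912 1) ndB0q0 ndB5q2 pcB1 cut_pm_012 Ext.none)

def k0_pm_012 : ∃ t, chk3 f_pm_012 t 1 1 1 = true :=
  ⟨(l 4), by decide +kernel⟩

theorem c_pm_012 : CertB 0 536870912 1073741824 536870912 991146299 28908434 3 eng mog cd0q0 cd5q2 pd1 false true false .pnp 0 1 2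
    ndB0q0 ndB5q2 pcB1 cut_pm_012 Ext.none :=
  certB0 (fam := false) (s1 := true) (s2 := false) (a := 0) (b := 1) (c := 2) (cn := .pnp) (n1 := ndB0q0) (n2 := ndB5q2) (pc := pcB1) (cut := cut_pm_012) (xt := Ext.none) (P1 := 0) (W1 := 536870912) (P2 := 1073741824) (W2 := 536870912) (P3 := 991146299) (W3 := 28908434) (N0 := 3) (En := eng) (mo := mog) (C1 := cd0q0) (C2 := cd5q2) (C3 := pd1)
    rfl k0_pm_012

noncomputable def cut_pm_022 : Cut := Cut.of [[⟨3, 0, 0, 1449551462⟩]]

noncomputable def f_pm_022 : ℕ → ℕ → ℕ → ℕ → Bool := onCell 0 536870912 1073741824 536870912 991146299 28908434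
    (rowB 3 eng mog cd0q0 cd5q2 pd2 0 false true false .pp 0 2 2 (qsf 0 536870912 1073741824 536870912 2) ndB0q0 ndB5q2 pcB2 cut_pm_022 Ext.none)

def k0_pm_022 : ∃ t, chk3 f_pm_022 t 1 1 1 = true :=
  ⟨(l 4), by decide +kernel⟩

theorem c_pm_022 : CertB 0 536870912 1073741824 536870912 991146299 28908434 3 eng mog cd0q0 cd5q2 pd2 false true false .pp 0 2 2
    ndB0q0 ndB5q2 pcB2 cut_pm_022 Ext.none :=
  certB0 (fam := false) (s1 := true) (s2 := false) (a := 0) (b := 2) (c := 2) (cn := .pp) (n1 := ndB0q0) (n2 := ndB5q2) (pc := pcB2) (cut := cut_pm_022) (xt := Ext.none) (P1 := 0) (W1 := 536870912) (P2 := 1073741824) (W2 := 536870912) (P3 := 991146299) (W3 := 28908434) (N0 := 3) (En := eng) (mo := mog) (C1 := cd0q0) (C2 := cd5q2) (C3 := pd2)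
    rfl k0_pm_022

noncomputable def cut_pm_023 : Cut := Cut.of [[⟨3, 0, 0, 1449551462⟩]]

noncomputable def f_pm_023 : ℕ → ℕ → ℕ → ℕ → Bool := onCell 0 536870912 0 1230186008 991146299 28908434
    (rowB 3 eng mog cd0q0 cd5q3 pd2 0 false true false .up 0 2 3 (qsf 0 536870912 0 1230186008 2) ndB0q0 ndB5q3 pcB2 cut_pm_023 Ext.none)

def k0_pm_023 : ∃ t, chk3 f_pm_023 t 1 1 1 = true :=
  ⟨(b (a (l 2) (a (l 2) (b (a (l 2) (a (l 2) (b (b (b (l 15145432) (l 15316760)) (l 15592416)) (b (l 15904432) (c (l 16086744) (l 16060864)))))) (a (l 4) (l 4))))) (l 4)), by decide +kernel⟩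

theorem c_pm_023 : CertB 0 536870912 0 1230186008 991146299 28908434 3 eng mog cd0q0 cd5q3 pd2 false true false .up 0 2 3
    ndB0q0 ndB5q3 pcB2 cut_pm_023 Ext.none :=
  certB0 (fam := false) (s1 := true) (s2 := false) (a := 0) (b := 2) (c := 3) (cn := .up) (n1 := ndB0q0) (n2 := ndB5q3) (pc := pcB2) (cut := cut_pm_023) (xt := Ext.none) (P1 := 0) (W1 := 536870912) (P2 := 0) (W2 := 1230186008) (P3 := 991146299) (W3 := 28908434) (N0 := 3) (En := eng) (mo := mog) (C1 := cd0q0) (C2 := cd5q3) (C3 := pd2)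
    rfl k0_pm_023

noncomputable def cut_pm_033 : Cut := Cut.of [[⟨3, 0, 0, 1449551462⟩]]

noncomputable def f_pm_033 : ℕ → ℕ → ℕ → ℕ → Bool := onCell 1610612736 536870912 0 1230186008 991146299 28908434
    (rowB 3 eng mog cd0q0 cd5q3 pd3 2 false true false .pnn 0 3 3 (qsf 0 536870912 0 1230186008 3) ndB0q0 ndB5q3 pcB3 cut_pm_033 Ext.none)

def k0_pm_033 : ∃ t, chk3 f_pm_033 t 1 1 1 = true :=
  ⟨(b (b (a (a (a (b (a (l 15959528) (l 16040936)) (a (l 16108936) (l 16144904))) (b (a (l 16120808) (l 16176488)) (b (l 16174040) (l 4)))) (a (b (b (l 16128664) (l 4)) (l 4)) (l 4))) (l 4)) (l 4)) (l 4)), by decide +kernel⟩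

theorem c_pm_033 : CertB 0 536870912 0 1230186008 991146299 28908434 3 eng mog cd0q0 cd5q3 pd3 false true false .pnn 0 3 3
    ndB0q0 ndB5q3 pcB3 cut_pm_033 Ext.none :=
  certB2 (fam := false) (s1 := true) (s2 := false) (a := 0) (b := 3) (c := 3) (cn := .pnn) (n1 := ndB0q0) (n2 := ndB5q3) (pc := pcB3) (cut := cut_pm_033) (xt := Ext.none) (P1 := 0) (W1 := 536870912) (P2 := 0) (W2 := 1230186008) (P3 := 991146299) (W3 := 28908434) (N0 := 3) (En := eng) (mo := mog) (C1 := cd0q0) (C2 := cd5q3) (C3 := pd3)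
    rfl (fun _ => rfl) k0_pm_033

noncomputable def cut_pm_101 : Cut := Cut.of [[⟨3, 0, 0, 1449551462⟩]]

noncomputable def f_pm_101 : ℕ → ℕ → ℕ → ℕ → Bool := onCell 536870912 536870912 536870912 536870912 991146299 28908434
    (rowB 3 eng mog cd0q1 cd5q1 pd0 0 false true false .npn 1 0 1 (qsf 536870912 536870912 536870912 536870912 0) ndB0q1 ndB5q1 pcB0 cut_pm_101 Ext.none)

def k0_pm_101 : ∃ t, chk3 f_pm_101 t 1 1 1 = true :=
  ⟨(l 4), by decide +kernel⟩

theorem c_pm_101 : CertB 536870912 536870912 536870912 536870912 991146299 28908434 3 eng mog cd0q1 cd5q1 pd0 false true false .npn 1 0 1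
    ndB0q1 ndB5q1 pcB0 cut_pm_101 Ext.none :=
  certB0 (fam := false) (s1 := true) (s2 := false) (a := 1) (b := 0) (c := 1) (cn := .npn) (n1 := ndB0q1) (n2 := ndB5q1) (pc := pcB0) (cut := cut_pm_101) (xt := Ext.none) (P1 := 536870912) (W1 := 536870912) (P2 := 536870912) (W2 := 536870912) (P3 := 991146299) (W3 := 28908434) (N0 := 3) (En := eng) (mo := mog) (C1 := cd0q1) (C2 := cd5q1) (C3 := pd0)
    rfl k0_pm_101

noncomputable def cut_pm_102 : Cut := Cut.of [[⟨3, 0, 0, 1449551462⟩]]

noncomputable def f_pm_102 : ℕ → ℕ → ℕ → ℕ → Bool := onCell 536870912 536870912 0 536870912 991146299 28908434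
    (rowB 3 eng mog cd0q1 cd5q2 pd0 1 false true false .npp 1 0 2 (qsf 536870912 536870912 1073741824 536870912 0) ndB0q1 ndB5q2 pcB0 cut_pm_102 Ext.none)

def k0_pm_102 : ∃ t, chk3 f_pm_102 t 1 1 1 = true :=
  ⟨(a (l 4) (b (l 4) (a (l 4) (b (l 4) (a (l 4) (a (l 4) (b (l 4) (a (l 4) (b (b (l 4) (l 14963336)) (c (l 15057520) (l 15010192))))))))))), by decide +kernel⟩

theorem c_pm_102 : CertB 536870912 536870912 1073741824 536870912 991146299 28908434 3 eng mog cd0q1 cd5q2 pd0 false true false .npp 1 0 2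
    ndB0q1 ndB5q2 pcB0 cut_pm_102 Ext.none :=
  certB1 (fam := false) (s1 := true) (s2 := false) (a := 1) (b := 0) (c := 2) (cn := .npp) (n1 := ndB0q1) (n2 := ndB5q2) (pc := pcB0) (cut := cut_pm_102) (xt := Ext.none) (P1 := 536870912) (W1 := 536870912) (P2 := 1073741824) (W2 := 536870912) (P3 := 991146299) (W3 := 28908434) (N0 := 3) (En := eng) (mo := mog) (C1 := cd0q1) (C2 := cd5q2) (C3 := pd0)
    rfl (fun _ => rfl) k0_pm_102

noncomputable def cut_pm_112 : Cut := Cut.of [[⟨3, 0, 0, 1449551462⟩]]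

noncomputable def f_pm_112 : ℕ → ℕ → ℕ → ℕ → Bool := onCell 536870912 536870912 1073741824 536870912 991146299 28908434
    (rowB 3 eng mog cd0q1 cd5q2 pd1 0 false true false .dn 1 1 2 (qsf 536870912 536870912 1073741824 536870912 1) ndB0q1 ndB5q2 pcB1 cut_pm_112 Ext.none)

def k0_pm_112 : ∃ t, chk3 f_pm_112 t 1 1 1 = true :=
  ⟨(a (l 4) (b (l 4) (a (l 4) (b (l 4) (a (l 4) (b (l 4) (a (l 4) (b (l 728564294583) (a (l 15019008) (l 15018752)))))))))), by decide +kernel⟩

theorem c_pm_112 : CertB 536870912 536870912 1073741824 536870912 991146299 28908434 3 eng mog cd0q1 cd5q2 pd1 false true false .dn 1 1 2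
    ndB0q1 ndB5q2 pcB1 cut_pm_112 Ext.none :=
  certB0 (fam := false) (s1 := true) (s2 := false) (a := 1) (b := 1) (c := 2) (cn := .dn) (n1 := ndB0q1) (n2 := ndB5q2) (pc := pcB1) (cut := cut_pm_112) (xt := Ext.none) (P1 := 536870912) (W1 := 536870912) (P2 := 1073741824) (W2 := 536870912) (P3 := 991146299) (W3 := 28908434) (N0 := 3) (En := eng) (mo := mog) (C1 := cd0q1) (C2 := cd5q2) (C3 := pd1)
    rfl k0_pm_112

noncomputable def cut_pm_113 : Cut := Cut.of [[⟨3, 0, 0, 1449551462⟩], [⟨0, 1, 0, 37748736⟩, ⟨1, 1, 0, 37748736⟩, ⟨2, 2, 0, 5242880⟩]]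

noncomputable def f_pm_113 : ℕ → ℕ → ℕ → ℕ → Bool := onCell 536870912 536870912 0 1230186008 991146299 28908434
    (rowB 3 eng mog cd0q1 cd5q3 pd1 0 false true false .nn 1 1 3 (qsf 536870912 536870912 0 1230186008 1) ndB0q1 ndB5q3 pcB1 cut_pm_113 Ext.none)

def k0_pm_113 : ∃ t, chk3 f_pm_113 t 2 1 1 = true :=
  ⟨(b (l 2) (b (b (l 2) (l 4)) (l 4))), by decide +kernel⟩

def k1_pm_113 : ∃ t, chk3 f_pm_113 t 6 1 1 = true :=
  ⟨(b (l 2) (b (b (a (l 2) (b (a (l 2) (l 15060144)) (a (l 14440480) (l 14766640)))) (a (b (a (b (l 2) (l 13696024)) (b (l 13968208) (l 13939408))) (a (l 4) (l 14075952))) (b (a (l 14273048) (l 14583944)) (a (b (l 14246432) (l 14320392)) (b (l 14521952) (l 14531216)))))) (b (a (l 4) (b (a (b (l 14428896) (l 4)) (b (l 14601232) (l 14697296))) (c (l 14821296) (l 14735488)))) (l 4)))), by decide +kernel⟩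

def k2_pm_113 : ∃ t, chk3 f_pm_113 t 7 1 1 = true :=
  ⟨(b (b (a (l 2) (a (l 2) (b (l 6) (b (a (l 2) (l 6)) (a (l 16440728) (b (l 6) (l 16539448))))))) (a (b (a (l 2) (b (l 2) (l 16619096))) (b (a (l 2) (l 16365048)) (a (l 15872584) (l 15995208)))) (b (a (b (l 16533528) (l 16612120)) (b (a (l 16567976) (l 16607472)) (l 16670224))) (a (b (l 16482000) (l 16083696)) (b (l 16602600) (l 16143600)))))) (b (a (b (b (a (l 15384448) (l 15661760)) (a (l 15071640) (l 15328080))) (b (a (l 14861368) (l 15093280)) (a (l 14771848) (l 14962528)))) (b (a (b (l 15790080) (l 15518496)) (b (l 15841312) (l 15590568))) (b (a (l 15262608) (l 15354104)) (a (l 15107584) (l 15180848))))) (b (a (b (a (b (l 14776784) (l 14834512)) (c (l 15013952) (l 14919400))) (a (b (l 15075920) (l 14963864)) (c (b (l 15057048) (l 15114264)) (b (l 14968160) (l 15032720))))) (b (a (b (l 15064056) (l 15086544)) (l 15108872)) (a (b (l 15107904) (a (b (l 15135584) (l 15153960)) (l 15164016))) (b (l 15136040) (l 15164728)))))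 (a (a (l 4) (b (b (l 15087744) (l 769003687)) (l 4))) (b (a (c (b (l 15239472) (l 15489800)) (b (l 15128424) (l 15158512))) (b (l 15201056) (a (l 15211312) (l 15220344)))) (a (c (l 12579271799) (a (l 15171360) (l 15154600))) (b (a (l 15146536) (l 15205784)) (a (l 15064912) (l 15110072))))))))), by decide +kernel⟩

theorem s3_pm_113 : ∃ t, chk3 f_pm_113 t 3 1 1 = true := ex3_a k1_pm_113 k2_pm_113

theorem s4_pm_113 : ∃ t, chk3 f_pm_113 t 1 1 1 = true := ex3_a k0_pm_113 s3_pm_113

theorem c_pm_113 : CertB 536870912 536870912 0 1230186008 991146299 28908434 3 eng mog cd0q1 cd5q3 pd1 false true false .nn 1 1 3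
    ndB0q1 ndB5q3 pcB1 cut_pm_113 Ext.none :=
  certB0 (fam := false) (s1 := true) (s2 := false) (a := 1) (b := 1) (c := 3) (cn := .nn) (n1 := ndB0q1) (n2 := ndB5q3) (pc := pcB1) (cut := cut_pm_113) (xt := Ext.none) (P1 := 536870912) (W1 := 536870912) (P2 := 0) (W2 := 1230186008) (P3 := 991146299) (W3 := 28908434) (N0 := 3) (En := eng) (mo := mog) (C1 := cd0q1) (C2 := cd5q3) (C3 := pd1)
    rfl s4_pm_113

noncomputable def cut_pm_123 : Cut := Cut.of [[⟨3, 0, 0, 1449551462⟩], [⟨0, 1, 0, 37748736⟩, ⟨1, 1, 0, 37748736⟩, ⟨2, 2, 0, 5242880⟩]]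

noncomputable def xt_pm_123 : Ext := extD3 3 ⟨4, 1, 1, 5, 22, 5, 21, 25, 41, 100, 1, 20⟩ eng cd0q1 cd5q3 pd2 false true false .npn 1 2 3 rfl ndB0q1 ndB5q3 pcB2

noncomputable def f_pm_123 : ℕ → ℕ → ℕ → ℕ → Bool := onCell 1073741824 536870912 0 1230186008 991146299 28908434
    (rowB 3 eng mog cd0q1 cd5q3 pd2 2 false true false .npn 1 2 3 (qsf 536870912 536870912 0 1230186008 2) ndB0q1 ndB5q3 pcB2 cut_pm_123 xt_pm_123)

def k0_pm_123 : ∃ t, chk3 f_pm_123 t 2 2 1 = true :=
  ⟨(a (b (a (b (a (l 6) (a (l 6) (b (l 6) (a (l 16603528) (l 16577608))))) (a (b (a (l 6) (c (l 16696880) (l 16727320))) (a (a (l 16458376) (l 16515032)) (c (l 16729560) (l 16680872)))) (b (a (l 16481448) (l 16605728)) (c (l 16624840) (l 16666016))))) (b (a (b (a (l 6) (l 16459784)) (a (l 16537520) (l 16481768))) (b (l 16391520) (l 16394048))) (a (c (b (l 16485440) (l 16476168)) (b (l 16564544) (l 16470264))) (b (l 16380624) (l 16352720))))) (b (b (a (c (a (a (l 16699912) (l 16747432)) (l 16626752)) (a (b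 (l 139253112652775439) (l 139272766350049295)) (l 16480424))) (a (l 16297504) (l 16167616))) (a (a (a (c (l 16700152) (l 139764935355400207)) (l 16488304)) (a (l 16401624) (l 16285640))) (a (l 16151008) (l 15979064)))) (a (b (a (c (l 16449776) (l 16363384)) (a (l 16195864) (l 16102512))) (a (b (c (l 16220168) (l 16250704)) (a (b (l 16239520) (l 16129424)) (b (l 16068512) (l 15901744)))) (b (a (b (l 16091976) (l 16023136)) (b (l 15983128) (l 15865704))) (a (l 15803544) (l 15648296))))) (b (a (b (l 16019240) (a (l 15964840) (l 15859256))) (a (a (l 15835432) (l 15784032)) (l 15788248))) (a (a (b (l 15780616) (l 15519928)) (l 15530968)) (a (l 15435872) (l 15362960))))))) (b (a (b (a (l 16154280) (l 16160560)) (a (b (l 16230432) (l 16176992)) (l 16037952))) (b (a (l 16036136) (l 15908704)) (a (l 15850064) (l 15683728)))) (a (b (a (b (l 15993224) (l 15895272)) (b (l 15812192) (a (l 15654024) (l 15570160)))) (a (b (a (l 15604304) (l 15517640)) (l 15293480)) (b (l 15431328) (l 15271040))))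 (b (a (b (l 15630120) (a (l 15499552) (l 15450256))) (b (a (l 15504520) (l 15437816)) (l 15414976))) (a (b (l 15386232) (l 15447072)) (b (l 15413864) (a (l 15396800) (l 15456008)))))))), by decide +kernel⟩

def k1_pm_123 : ∃ t, chk3 f_pm_123 t 3 2 1 = true :=
  ⟨(b (b (a (a (a (l 15779904) (l 15651200)) (a (l 15523920) (l 15399192))) (a (a (l 15291072) (b (l 15248608) (b (l 15133120) (l 15144144)))) (a (b (l 15158952) (c (l 15341664) (l 15063760))) (b (c (l 15284816) (l 14987928)) (l 15396144))))) (a (a (a (b (l 15607232) (l 15481960)) (b (l 15454232) (b (l 15353968) (l 15290080)))) (a (b (l 15315480) (b (l 15271320) (l 15347120))) (b (b (l 15214824) (l 15212936)) (l 15383656)))) (a (a (b (b (l 15169664) (l 15305224)) (l 15506376)) (b (l 15377568) (l 15670280))) (a (b (l 15568072) (l 15801056)) (b (l 15766008) (c (l 16046568) (l 16005736))))))) (b (a (a (a (b (b (l 15295200) (l 15390152)) (l 15409416)) (b (l 15390104) (l 15509136))) (a (b (l 15462968) (l 15641632)) (b (l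 15588176) (c (l 15825224) (l 15752104))))) (a (a (b (l 15755888) (b (l 15909160) (l 4))) (b (c (l 15947352) (l 15887416)) (l 4))) (a (b (b (l 16031760) (l 4)) (l 4)) (l 4)))) (a (a (a (b (l 15316488) (b (l 15487240) (l 4))) (b (b (l 15614328) (l 15469464)) (l 4))) (a (b (b (l 15752752) (l 4)) (l 4)) (l 15818608))) (l 4)))), by decide +kernel⟩

def k2_pm_123 : ∃ t, chk3 f_pm_123 t 1 3 1 = true :=
  ⟨(b (a (b (a (a (a (b (a (b (l 15815416) (l 15394992)) (b (l 15624632) (l 15254888))) (c (l 14769824) (b (l 14936600) (l 14544120)))) (a (b (l 15454928) (l 14663728)) (b (l 15205344) (l 14633904)))) (a (b (a (l 15127888) (l 15074536)) (b (l 14745640) (a (l 14522632) (l 14587072)))) (b (a (l 15043168) (l 15031320)) (a (l 14958224) (l 14799752))))) (a (a (b (a (l 15038136) (l 15067400)) (a (l 14880896) (l 4))) (b (a (l 15114752) (l 15174088)) (l 4))) (a (b (b (l 15284544) (l 4)) (l 4)) (l 4)))) (b (a (a (a (b (a (l 14223784) (l 14211544)) (a (l 13953352) (l 14053904))) (b (a (l 14248272)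 (l 14326120)) (l 4))) (a (l 4) (l 4))) (l 4)) (l 4))) (l 4)) (l 4)), by decide +kernel⟩

theorem s3_pm_123 : ∃ t, chk3 f_pm_123 t 1 2 1 = true := ex3_a k0_pm_123 k1_pm_123

theorem s4_pm_123 : ∃ t, chk3 f_pm_123 t 1 1 1 = true := ex3_b s3_pm_123 k2_pm_123

theorem c_pm_123 : CertB 536870912 536870912 0 1230186008 991146299 28908434 3 eng mog cd0q1 cd5q3 pd2 false true false .npn 1 2 3
    ndB0q1 ndB5q3 pcB2 cut_pm_123 xt_pm_123 :=
  certB2 (fam := false) (s1 := true) (s2 := false) (a := 1) (b := 2) (c := 3) (cn := .npn) (n1 := ndB0q1) (n2 := ndB5q3) (pc := pcB2) (cut := cut_pm_123) (xt := xt_pm_123) (P1 := 536870912) (W1 := 536870912) (P2 := 0) (W2 := 1230186008) (P3 := 991146299) (W3 := 28908434) (N0 := 3) (En := eng) (mo := mog) (C1 := cd0q1) (C2 := cd5q3) (C3 := pd2)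
    rfl (fun _ => rfl) s4_pm_123

noncomputable def cut_pm_133 : Cut := Cut.of [[⟨3, 0, 0, 1449551462⟩]]

noncomputable def f_pm_133 : ℕ → ℕ → ℕ → ℕ → Bool := onCell 536870912 536870912 0 1230186008 991146299 28908434
    (rowB 3 eng mog cd0q1 cd5q3 pd3 0 false true false .dn 1 3 3 (qsf 536870912 536870912 0 1230186008 3) ndB0q1 ndB5q3 pcB3 cut_pm_133 Ext.none)

def k0_pm_133 : ∃ t, chk3 f_pm_133 t 1 1 1 = true :=
  ⟨(b (b (a (a (a (b (a (l 15918424) (l 1)) (l 1)) (l 1)) (l 1)) (l 1)) (l 1)) (l 1)), by decide +kernel⟩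

theorem c_pm_133 : CertB 536870912 536870912 0 1230186008 991146299 28908434 3 eng mog cd0q1 cd5q3 pd3 false true false .dn 1 3 3
    ndB0q1 ndB5q3 pcB3 cut_pm_133 Ext.none :=
  certB0 (fam := false) (s1 := true) (s2 := false) (a := 1) (b := 3) (c := 3) (cn := .dn) (n1 := ndB0q1) (n2 := ndB5q3) (pc := pcB3) (cut := cut_pm_133) (xt := Ext.none) (P1 := 536870912) (W1 := 536870912) (P2 := 0) (W2 := 1230186008) (P3 := 991146299) (W3 := 28908434) (N0 := 3) (En := eng) (mo := mog) (C1 := cd0q1) (C2 := cd5q3) (C3 := pd3)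
    rfl k0_pm_133

noncomputable def cut_pm_202 : Cut := Cut.of [[⟨3, 0, 0, 1449551462⟩]]

noncomputable def f_pm_202 : ℕ → ℕ → ℕ → ℕ → Bool := onCell 0 536870912 1073741824 536870912 991146299 28908434
    (rowB 3 eng mog cd0q2 cd5q2 pd0 0 false true false .pp 2 0 2 (qsf 0 536870912 1073741824 536870912 0) ndB0q2 ndB5q2 pcB0 cut_pm_202 Ext.none)

def k0_pm_202 : ∃ t, chk3 f_pm_202 t 2 1 1 = true :=
  ⟨(b (a (b (l 1) (a (b (b (l 15354872) (l 15646368)) (b (b (b (l 15724808) (l 15754720)) (l 15809224)) (b (l 15881304) (l 15943728)))) (b (b (b (l 1) (c (l 15374784) (l 15329488))) (a (l 15538440) (l 15458280))) (b (b (b (l 15598368) (l 15635784)) (l 15692264)) (b (l 15765016) (l 15829336)))))) (b (b (l 1) (b (l 1) (a (l 1) (c (l 14728592) (l 14656776))))) (b (a (b (l 15126208) (b (l 15284904) (b (l 15342424) (l 15414312)))) (b (l 14923568) (l 15133872))) (b (a (a (b (a (l 15536536) (l 15503256)) (l 15597832)) (l 15483768)) (l 15328752)) (a (b (l 15444848) (l 15707504)) (a (l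 15564304) (l 15457112))))))) (b (b (a (b (a (l 16015728) (l 15910408)) (a (l 16088416) (l 15996216))) (a (b (l 15799128) (l 15897208)) (b (a (l 15702552) (l 15629648)) (l 15783192)))) (a (b (l 15989680) (a (b (l 16156488) (l 16042136)) (l 16089088))) (a (b (l 15969552) (l 16015584)) (b (l 15875912) (l 15934200))))) (b (b (a (a (a (l 16237568) (b (l 16149984) (l 16173800))) (a (l 16115544) (l 16081488))) (a (l 16034632) (l 15965376))) (a (a (l 16064896) (a (l 16043688) (l 15999408))) (a (l 16031768) (l 15968624)))) (a (a (b (c (l 16320904) (l 16302352)) (c (a (l 16478656) (l 16425152)) (l 16368416))) (b (l 16098536) (l 16155488))) (a (b (c (l 16004144) (l 16050912)) (c (l 16067544) (l 16080168))) (b (l 15942152) (c (l 15891576) (l 15944496)))))))), by decide +kernel⟩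

def k1_pm_202 : ∃ t, chk3 f_pm_202 t 3 1 1 = true :=
  ⟨(b (b (a (b (l 1) (a (b (l 1) (c (l 14512080) (l 14441688))) (l 4))) (l 4)) (a (b (a (b (c (l 14726088) (l 14662808)) (l 14902752)) (a (c (l 14664912) (l 14600160)) (l 4))) (a (b (l 15099800) (l 15283216)) (b (c (l 14878688) (l 14823344)) (a (l 15084960) (l 14945832))))) (a (b (l 4) (l 4)) (l 4)))) (a (b (b (a (b (l 15455928) (a (l 15680176) (l 15558416))) (b (a (l 15258408) (l 15107592)) (l 15348528))) (a (b (a (l 15792920) (l 15714800)) (l 15841064)) (b (l 15423424) (a (l 15733512) (l 15585032))))) (b (a (b (l 15891488) (l 15906072)) (b (a (l 15828016) (l 15734528)) (l 15752848))) (a (b (l 15891504) (l 15845976)) (b (l 15841104) (l 15805640))))) (a (a (b (b (b (l 14968600) (l 15107184)) (b (l 15256520) (l 15409896))) (b (b (l 15564040) (l 15652480)) (b (l 15795656) (l 15782336)))) (b (b (b (l 4) (l 14967656)) (b (l 15080616) (l 15208328))) (b (b (l 15355712) (l 15512608)) (b (a (l 15729008) (l 15622504)) (l 15749472)))))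 (a (b (b (l 4) (b (l 4) (c (l 15048136) (l 14996144)))) (b (b (c (l 15142432) (l 15107112)) (l 15256568)) (b (l 15421072) (a (l 15670728) (l 15534072))))) (b (l 4) (b (b (l 4) (c (l 15031328) (l 14978504))) (b (a (l 15188488) (l 15031088)) (l 15283184)))))))), by decide +kernel⟩

theorem s2_pm_202 : ∃ t, chk3 f_pm_202 t 1 1 1 = true := ex3_a k0_pm_202 k1_pm_202

theorem c_pm_202 : CertB 0 536870912 1073741824 536870912 991146299 28908434 3 eng mog cd0q2 cd5q2 pd0 false true false .pp 2 0 2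
    ndB0q2 ndB5q2 pcB0 cut_pm_202 Ext.none :=
  certB0 (fam := false) (s1 := true) (s2 := false) (a := 2) (b := 0) (c := 2) (cn := .pp) (n1 := ndB0q2) (n2 := ndB5q2) (pc := pcB0) (cut := cut_pm_202) (xt := Ext.none) (P1 := 0) (W1 := 536870912) (P2 := 1073741824) (W2 := 536870912) (P3 := 991146299) (W3 := 28908434) (N0 := 3) (En := eng) (mo := mog) (C1 := cd0q2) (C2 := cd5q2) (C3 := pd0)
    rfl s2_pm_202

noncomputable def cut_pm_203 : Cut := Cut.of [[⟨3, 0, 0, 1449551462⟩]]

noncomputable def f_pm_203 : ℕ → ℕ → ℕ → ℕ → Bool := onCell 0 536870912 0 1230186008 991146299 28908434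
    (rowB 3 eng mog cd0q2 cd5q3 pd0 0 false true false .up 2 0 3 (qsf 0 536870912 0 1230186008 0) ndB0q2 ndB5q3 pcB0 cut_pm_203 Ext.none)

def k0_pm_203 : ∃ t, chk3 f_pm_203 t 1 1 1 = true :=
  ⟨(b (l 2) (b (l 2) (a (b (b (l 2) (b (a (l 2) (l 2)) (a (a (l 6) (l 448387111223)) (a (l 16415416) (l 219142514807))))) (b (a (b (a (a (l 6) (l 16540656)) (l 16432536)) (a (c (l 16534968) (l 16514704)) (l 16394288))) (a (c (b (l 16412960) (l 16367672)) (b (l 16323072) (l 16267480))) (b (c (l 16285880) (l 16172384)) (l 16145232)))) (a (a (b (c (l 16510992) (l 16466192)) (c (l 16482808) (l 16411648))) (b (a (l 16423504) (l 16283368)) (c (a (l 16419712) (l 16339656)) (l 16299264)))) (b (a (c (l 16276040) (l 16213504)) (l 16050208)) (a (l 16119784) (c (l 15945608) (l 15965376))))))) (b (l 2) (b (b (a (a (l 16019304) (l 2)) (l 2)) (a (a (l 15917808) (a (l 15719904) (l 15592040))) (a (b (l 2) (l 15436352)) (l 2)))) (b (a (a (a (l 15875328) (l 15756680)) (a (l 15660880) (l 15604168))) (a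 (l 15346952) (a (l 15594680) (l 2)))) (a (a (b (l 15775616) (l 15793456)) (l 15732312)) (a (l 15624320) (a (b (l 15682968) (l 15688848)) (b (a (l 15639232) (l 2)) (l 15451432))))))))))), by decide +kernel⟩

theorem c_pm_203 : CertB 0 536870912 0 1230186008 991146299 28908434 3 eng mog cd0q2 cd5q3 pd0 false true false .up 2 0 3
    ndB0q2 ndB5q3 pcB0 cut_pm_203 Ext.none :=
  certB0 (fam := false) (s1 := true) (s2 := false) (a := 2) (b := 0) (c := 3) (cn := .up) (n1 := ndB0q2) (n2 := ndB5q3) (pc := pcB0) (cut := cut_pm_203) (xt := Ext.none) (P1 := 0) (W1 := 536870912) (P2 := 0) (W2 := 1230186008) (P3 := 991146299) (W3 := 28908434) (N0 := 3) (En := eng) (mo := mog) (C1 := cd0q2) (C2 := cd5q3) (C3 := pd0)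
    rfl k0_pm_203

noncomputable def cut_pm_213 : Cut := Cut.of [[⟨3, 0, 0, 1449551462⟩], [⟨0, 1, 0, 37748736⟩, ⟨1, 1, 0, 37748736⟩, ⟨2, 2, 0, 5242880⟩]]

noncomputable def f_pm_213 : ℕ → ℕ → ℕ → ℕ → Bool := onCell 0 536870912 0 1230186008 991146299 28908434
    (rowB 3 eng mog cd0q2 cd5q3 pd1 0 false true false .pnn 2 1 3 (qsf 0 536870912 0 1230186008 1) ndB0q2 ndB5q3 pcB1 cut_pm_213 Ext.none)

def k0_pm_213 : ∃ t, chk3 f_pm_213 t 1 2 1 = true :=
  ⟨(a (l 6) (b (a (l 6) (l 6)) (a (b (l 6) (a (l 6) (b (l 6) (a (l 6) (b (l 16535520) (l 16494360)))))) (b (a (b (l 6) (a (l 6) (l 16563256))) (a (b (l 6) (l 16560016)) (b (b (l 16599640) (l 16622288)) (l 16680464)))) (a (b (a (l 16520656) (l 16445936)) (a (l 16440896) (l 16317912))) (a (b (l 16405472) (l 16217400)) (b (l 16476680) (l 16152720)))))))), by decide +kernel⟩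

def k1_pm_213 : ∃ t, chk3 f_pm_213 t 1 6 1 = true :=
  ⟨(a (b (l 6) (a (l 6) (b (a (l 6) (a (l 6) (b (a (l 6) (l 16576864)) (l 16560688)))) (a (b (l 6) (a (l 6) (b (l 6) (l 16525560)))) (b (a (a (l 16517208) (l 16595024)) (l 16560752)) (l 16491760)))))) (a (b (b (a (a (l 6) (l 6)) (a (b (l 16536096) (l 16501752)) (l 16427472))) (a (b (a (l 6) (l 16541408)) (a (l 16547928) (l 16513008))) (a (l 16439984) (l 16322616)))) (b (a (b (l 16517352) (l 16469784)) (b (l 16287032) (l 16201856))) (a (b (l 16397864) (l 16295528)) (b (l 16093704) (l 15964680))))) (b (a (b (a (l 16313416) (l 16184656)) (a (l 16186496) (l 16035616))) (b (a (l 16045856) (l 15912040)) (a (l 15870432) (l 15694280)))) (a (b (a (l 16014856) (l 15843904)) (b (a (l 15836048) (l 15669912)) (l 15745312))) (b (a (l 15703224) (l 15481888)) (a (l 15492016) (l 15303792))))))), by decide +kernel⟩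

def k2_pm_213 : ∃ t, chk3 f_pm_213 t 1 7 1 = true :=
  ⟨(a (b (b (a (l 6) (a (b (a (b (l 6) (l 16430288)) (l 16577232)) (a (l 16461312) (l 16562592))) (b (l 16475216) (l 16346040)))) (a (a (l 6) (b (a (l 6) (l 16375968)) (a (l 16324776) (l 16585744)))) (a (b (l 16472144) (l 16195968)) (b (l 16140816) (a (l 16030544) (b (l 15876216) (l 15791696))))))) (b (a (l 1) (b (a (l 1) (a (b (l 15833264) (l 1)) (l 15807200))) (l 1))) (l 1))) (a (b (b (a (b (l 16156504) (a (l 16072952) (l 15873576))) (b (a (l 15874880) (l 15741088)) (a (l 15758264) (l 15696904)))) (a (b (a (l 15860552) (l 15770480)) (a (l 15784520) (l 15784440))) (b (l 15727320) (l 15759736)))) (b (a (b (l 15838640) (l 15910216)) (b (l 15810792) (a (l 15896064) (l 15863760)))) (l 1))) (b (b (a (b (l 15604184) (l 15589056)) (a (l 15401256) (l 15219728))) (a (b (l 15596880) (l 15629072)) (b (l 15320328) (a (l 15453112) (l 15269976))))) (b (a (b (a (l 15729176) (l 15637176)) (l 15524152)) (b (l 15134760) (l 15412464)))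 (a (l 15720104) (b (a (l 15513248) (l 15324792)) (a (l 15499640) (l 15285008)))))))), by decide +kernel⟩

theorem s3_pm_213 : ∃ t, chk3 f_pm_213 t 1 3 1 = true := ex3_b k1_pm_213 k2_pm_213

theorem s4_pm_213 : ∃ t, chk3 f_pm_213 t 1 1 1 = true := ex3_b k0_pm_213 s3_pm_213

theorem c_pm_213 : CertB 0 536870912 0 1230186008 991146299 28908434 3 eng mog cd0q2 cd5q3 pd1 false true false .pnn 2 1 3
    ndB0q2 ndB5q3 pcB1 cut_pm_213 Ext.none :=
  certB0 (fam := false) (s1 := true) (s2 := false) (a := 2) (b := 1) (c := 3) (cn := .pnn) (n1 := ndB0q2) (n2 := ndB5q3) (pc := pcB1) (cut := cut_pm_213) (xt := Ext.none) (P1 := 0) (W1 := 536870912) (P2 := 0) (W2 := 1230186008) (P3 := 991146299) (W3 := 28908434) (N0 := 3) (En := eng) (mo := mog) (C1 := cd0q2) (C2 := cd5q3) (C3 := pd1)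
    rfl s4_pm_213

noncomputable def cut_mm_001 : Cut := Cut.of [[⟨3, 0, 0, 1449551462⟩]]

noncomputable def f_mm_001 : ℕ → ℕ → ℕ → ℕ → Bool := onCell 0 536870912 536870912 536870912 991146299 28908434
    (rowB 3 eng mog cd0q0 cd5q1 pd0 0 false false false .up 0 0 1 (qsf 0 536870912 536870912 536870912 0) ndB0q0 ndB5q1 pcB0 cut_mm_001 Ext.none)

def k0_mm_001 : ∃ t, chk3 f_mm_001 t 1 1 1 = true :=
  ⟨(l 6), by decide +kernel⟩

theorem c_mm_001 : CertB 0 536870912 536870912 536870912 991146299 28908434 3 eng mog cd0q0 cd5q1 pd0 false false false .up 0 0 1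
    ndB0q0 ndB5q1 pcB0 cut_mm_001 Ext.none :=
  certB0 (fam := false) (s1 := false) (s2 := false) (a := 0) (b := 0) (c := 1) (cn := .up) (n1 := ndB0q0) (n2 := ndB5q1) (pc := pcB0) (cut := cut_mm_001) (xt := Ext.none) (P1 := 0) (W1 := 536870912) (P2 := 536870912) (W2 := 536870912) (P3 := 991146299) (W3 := 28908434) (N0 := 3) (En := eng) (mo := mog) (C1 := cd0q0) (C2 := cd5q1) (C3 := pd0)
    rfl k0_mm_001

noncomputable def cut_mm_011 : Cut := Cut.of [[⟨3, 0, 0, 1449551462⟩]]

noncomputable def f_mm_011 : ℕ → ℕ → ℕ → ℕ → Bool := onCell 0 536870912 536870912 536870912 991146299 28908434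
    (rowB 3 eng mog cd0q0 cd5q1 pd1 0 false false false .pnn 0 1 1 (qsf 0 536870912 536870912 536870912 1) ndB0q0 ndB5q1 pcB1 cut_mm_011 Ext.none)

def k0_mm_011 : ∃ t, chk3 f_mm_011 t 1 1 1 = true :=
  ⟨(l 6), by decide +kernel⟩

theorem c_mm_011 : CertB 0 536870912 536870912 536870912 991146299 28908434 3 eng mog cd0q0 cd5q1 pd1 false false false .pnn 0 1 1
    ndB0q0 ndB5q1 pcB1 cut_mm_011 Ext.none :=
  certB0 (fam := false) (s1 := false) (s2 := false) (a := 0) (b := 1) (c := 1) (cn := .pnn) (n1 := ndB0q0) (n2 := ndB5q1) (pc := pcB1) (cut := cut_mm_011) (xt := Ext.none) (P1 := 0) (W1 := 536870912) (P2 := 536870912) (W2 := 536870912) (P3 := 991146299) (W3 := 28908434) (N0 := 3) (En := eng) (mo := mog) (C1 := cd0q0) (C2 := cd5q1) (C3 := pd1)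
    rfl k0_mm_011

noncomputable def cut_mm_012 : Cut := Cut.of [[⟨3, 0, 0, 1449551462⟩]]

noncomputable def f_mm_012 : ℕ → ℕ → ℕ → ℕ → Bool := onCell 0 536870912 1073741824 536870912 991146299 28908434
    (rowB 3 eng mog cd0q0 cd5q2 pd1 0 false false false .pnp 0 1 2 (qsf 0 536870912 1073741824 536870912 1) ndB0q0 ndB5q2 pcB1 cut_mm_012 Ext.none)

def k0_mm_012 : ∃ t, chk3 f_mm_012 t 1 1 1 = true :=
  ⟨(l 5), by decide +kernel⟩

theorem c_mm_012 : CertB 0 536870912 1073741824 536870912 991146299 28908434 3 eng mog cd0q0 cd5q2 pd1 false false false .pnp 0 1 2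
    ndB0q0 ndB5q2 pcB1 cut_mm_012 Ext.none :=
  certB0 (fam := false) (s1 := false) (s2 := false) (a := 0) (b := 1) (c := 2) (cn := .pnp) (n1 := ndB0q0) (n2 := ndB5q2) (pc := pcB1) (cut := cut_mm_012) (xt := Ext.none) (P1 := 0) (W1 := 536870912) (P2 := 1073741824) (W2 := 536870912) (P3 := 991146299) (W3 := 28908434) (N0 := 3) (En := eng) (mo := mog) (C1 := cd0q0) (C2 := cd5q2) (C3 := pd1)
    rfl k0_mm_012

noncomputable def cut_mm_022 : Cut := Cut.of [[⟨3, 0, 0, 1449551462⟩]]

noncomputable def f_mm_022 : ℕ → ℕ → ℕ → ℕ → Bool := onCell 0 536870912 1073741824 536870912 991146299 28908434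
    (rowB 3 eng mog cd0q0 cd5q2 pd2 0 false false false .pp 0 2 2 (qsf 0 536870912 1073741824 536870912 2) ndB0q0 ndB5q2 pcB2 cut_mm_022 Ext.none)

def k0_mm_022 : ∃ t, chk3 f_mm_022 t 1 1 1 = true :=
  ⟨(l 5), by decide +kernel⟩

theorem c_mm_022 : CertB 0 536870912 1073741824 536870912 991146299 28908434 3 eng mog cd0q0 cd5q2 pd2 false false false .pp 0 2 2
    ndB0q0 ndB5q2 pcB2 cut_mm_022 Ext.none :=
  certB0 (fam := false) (s1 := false) (s2 := false) (a := 0) (b := 2) (c := 2) (cn := .pp) (n1 := ndB0q0) (n2 := ndB5q2) (pc := pcB2) (cut := cut_mm_022) (xt := Ext.none) (P1 := 0) (W1 := 536870912) (P2 := 1073741824) (W2 := 536870912) (P3 := 991146299) (W3 := 28908434) (N0 := 3) (En := eng) (mo := mog) (C1 := cd0q0) (C2 := cd5q2) (C3 := pd2)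
    rfl k0_mm_022

noncomputable def cut_mm_023 : Cut := Cut.of [[⟨3, 0, 0, 1449551462⟩]]

noncomputable def f_mm_023 : ℕ → ℕ → ℕ → ℕ → Bool := onCell 0 536870912 0 1230186008 991146299 28908434
    (rowB 3 eng mog cd0q0 cd5q3 pd2 0 false false false .up 0 2 3 (qsf 0 536870912 0 1230186008 2) ndB0q0 ndB5q3 pcB2 cut_mm_023 Ext.none)

def k0_mm_023 : ∃ t, chk3 f_mm_023 t 1 1 1 = true :=
  ⟨(l 5), by decide +kernel⟩

theorem c_mm_023 : CertB 0 536870912 0 1230186008 991146299 28908434 3 eng mog cd0q0 cd5q3 pd2 false false false .up 0 2 3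
    ndB0q0 ndB5q3 pcB2 cut_mm_023 Ext.none :=
  certB0 (fam := false) (s1 := false) (s2 := false) (a := 0) (b := 2) (c := 3) (cn := .up) (n1 := ndB0q0) (n2 := ndB5q3) (pc := pcB2) (cut := cut_mm_023) (xt := Ext.none) (P1 := 0) (W1 := 536870912) (P2 := 0) (W2 := 1230186008) (P3 := 991146299) (W3 := 28908434) (N0 := 3) (En := eng) (mo := mog) (C1 := cd0q0) (C2 := cd5q3) (C3 := pd2)
    rfl k0_mm_023

noncomputable def cut_mm_033 : Cut := Cut.of [[⟨3, 0, 0, 1449551462⟩]]

noncomputable def f_mm_033 : ℕ → ℕ → ℕ → ℕ → Bool := onCell 0 536870912 0 1230186008 991146299 28908434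
    (rowB 3 eng mog cd0q0 cd5q3 pd3 0 false false false .pnn 0 3 3 (qsf 0 536870912 0 1230186008 3) ndB0q0 ndB5q3 pcB3 cut_mm_033 Ext.none)

def k0_mm_033 : ∃ t, chk3 f_mm_033 t 1 1 1 = true :=
  ⟨(l 5), by decide +kernel⟩

theorem c_mm_033 : CertB 0 536870912 0 1230186008 991146299 28908434 3 eng mog cd0q0 cd5q3 pd3 false false false .pnn 0 3 3
    ndB0q0 ndB5q3 pcB3 cut_mm_033 Ext.none :=
  certB0 (fam := false) (s1 := false) (s2 := false) (a := 0) (b := 3) (c := 3) (cn := .pnn) (n1 := ndB0q0) (n2 := ndB5q3) (pc := pcB3) (cut := cut_mm_033) (xt := Ext.none) (P1 := 0) (W1 := 536870912) (P2 := 0) (W2 := 1230186008) (P3 := 991146299) (W3 := 28908434) (N0 := 3) (En := eng) (mo := mog) (C1 := cd0q0) (C2 := cd5q3) (C3 := pd3)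
    rfl k0_mm_033

noncomputable def cut_mm_101 : Cut := Cut.of [[⟨3, 0, 0, 1449551462⟩], [⟨0, 1, 0, 53687091⟩, ⟨1, 0, 0, 53687091⟩, ⟨2, 1, 0, 53687091⟩]]

noncomputable def f_mm_101 : ℕ → ℕ → ℕ → ℕ → Bool := onCell 536870912 536870912 0 536870912 991146299 28908434
    (rowB 3 eng mog cd0q1 cd5q1 pd0 1 false false false .npn 1 0 1 (qsf 536870912 536870912 536870912 536870912 0) ndB0q1 ndB5q1 pcB0 cut_mm_101 Ext.none)

def k0_mm_101 : ∃ t, chk3 f_mm_101 t 1 1 1 = true :=
  ⟨(l 6), by decide +kernel⟩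

theorem c_mm_101 : CertB 536870912 536870912 536870912 536870912 991146299 28908434 3 eng mog cd0q1 cd5q1 pd0 false false false .npn 1 0 1
    ndB0q1 ndB5q1 pcB0 cut_mm_101 Ext.none :=
  certB1 (fam := false) (s1 := false) (s2 := false) (a := 1) (b := 0) (c := 1) (cn := .npn) (n1 := ndB0q1) (n2 := ndB5q1) (pc := pcB0) (cut := cut_mm_101) (xt := Ext.none) (P1 := 536870912) (W1 := 536870912) (P2 := 536870912) (W2 := 536870912) (P3 := 991146299) (W3 := 28908434) (N0 := 3) (En := eng) (mo := mog) (C1 := cd0q1) (C2 := cd5q1) (C3 := pd0)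
    rfl (fun _ => rfl) k0_mm_101

noncomputable def cut_mm_102 : Cut := Cut.of [[⟨3, 0, 0, 1449551462⟩], [⟨0, 1, 0, 53687091⟩, ⟨1, 0, 0, 53687091⟩, ⟨2, 1, 0, 53687091⟩]]

noncomputable def f_mm_102 : ℕ → ℕ → ℕ → ℕ → Bool := onCell 536870912 536870912 1073741824 536870912 991146299 28908434
    (rowB 3 eng mog cd0q1 cd5q2 pd0 0 false false false .npp 1 0 2 (qsf 536870912 536870912 1073741824 536870912 0) ndB0q1 ndB5q2 pcB0 cut_mm_102 Ext.none)

def k0_mm_102 : ∃ t, chk3 f_mm_102 t 1 1 1 = true :=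
  ⟨(l 6), by decide +kernel⟩

theorem c_mm_102 : CertB 536870912 536870912 1073741824 536870912 991146299 28908434 3 eng mog cd0q1 cd5q2 pd0 false false false .npp 1 0 2
    ndB0q1 ndB5q2 pcB0 cut_mm_102 Ext.none :=
  certB0 (fam := false) (s1 := false) (s2 := false) (a := 1) (b := 0) (c := 2) (cn := .npp) (n1 := ndB0q1) (n2 := ndB5q2) (pc := pcB0) (cut := cut_mm_102) (xt := Ext.none) (P1 := 536870912) (W1 := 536870912) (P2 := 1073741824) (W2 := 536870912) (P3 := 991146299) (W3 := 28908434) (N0 := 3) (En := eng) (mo := mog) (C1 := cd0q1) (C2 := cd5q2) (C3 := pd0)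
    rfl k0_mm_102

noncomputable def cut_mm_112 : Cut := Cut.of [[⟨3, 0, 0, 1449551462⟩]]

noncomputable def f_mm_112 : ℕ → ℕ → ℕ → ℕ → Bool := onCell 536870912 536870912 1073741824 536870912 991146299 28908434
    (rowB 3 eng mog cd0q1 cd5q2 pd1 0 false false false .dn 1 1 2 (qsf 536870912 536870912 1073741824 536870912 1) ndB0q1 ndB5q2 pcB1 cut_mm_112 Ext.none)

def k0_mm_112 : ∃ t, chk3 f_mm_112 t 1 1 1 = true :=
  ⟨(l 6), by decide +kernel⟩

theorem c_mm_112 : CertB 536870912 536870912 1073741824 536870912 991146299 28908434 3 eng mog cd0q1 cd5q2 pd1 false false false .dn 1 1 2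
    ndB0q1 ndB5q2 pcB1 cut_mm_112 Ext.none :=
  certB0 (fam := false) (s1 := false) (s2 := false) (a := 1) (b := 1) (c := 2) (cn := .dn) (n1 := ndB0q1) (n2 := ndB5q2) (pc := pcB1) (cut := cut_mm_112) (xt := Ext.none) (P1 := 536870912) (W1 := 536870912) (P2 := 1073741824) (W2 := 536870912) (P3 := 991146299) (W3 := 28908434) (N0 := 3) (En := eng) (mo := mog) (C1 := cd0q1) (C2 := cd5q2) (C3 := pd1)
    rfl k0_mm_112

noncomputable def cut_mm_113 : Cut := Cut.of [[⟨3, 0, 0, 1449551462⟩]]

noncomputable def f_mm_113 : ℕ → ℕ → ℕ → ℕ → Bool := onCell 536870912 536870912 0 1230186008 991146299 28908434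
    (rowB 3 eng mog cd0q1 cd5q3 pd1 0 false false false .nn 1 1 3 (qsf 536870912 536870912 0 1230186008 1) ndB0q1 ndB5q3 pcB1 cut_mm_113 Ext.none)

def k0_mm_113 : ∃ t, chk3 f_mm_113 t 1 1 1 = true :=
  ⟨(a (l 5) (b (l 5) (l 6))), by decide +kernel⟩

theorem c_mm_113 : CertB 536870912 536870912 0 1230186008 991146299 28908434 3 eng mog cd0q1 cd5q3 pd1 false false false .nn 1 1 3
    ndB0q1 ndB5q3 pcB1 cut_mm_113 Ext.none :=
  certB0 (fam := false) (s1 := false) (s2 := false) (a := 1) (b := 1) (c := 3) (cn := .nn) (n1 := ndB0q1) (n2 := ndB5q3) (pc := pcB1) (cut := cut_mm_113) (xt := Ext.none) (P1 := 536870912) (W1 := 536870912) (P2 := 0) (W2 := 1230186008) (P3 := 991146299) (W3 := 28908434) (N0 := 3) (En := eng) (mo := mog) (C1 := cd0q1) (C2 := cd5q3) (C3 := pd1)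
    rfl k0_mm_113

noncomputable def cut_mm_123 : Cut := Cut.of [[⟨3, 0, 0, 1449551462⟩]]

noncomputable def f_mm_123 : ℕ → ℕ → ℕ → ℕ → Bool := onCell 1073741824 536870912 0 1230186008 991146299 28908434
    (rowB 3 eng mog cd0q1 cd5q3 pd2 2 false false false .npn 1 2 3 (qsf 536870912 536870912 0 1230186008 2) ndB0q1 ndB5q3 pcB2 cut_mm_123 Ext.none)

def k0_mm_123 : ∃ t, chk3 f_mm_123 t 1 1 1 = true :=
  ⟨(b (l 5) (l 5)), by decide +kernel⟩

theorem c_mm_123 : CertB 536870912 536870912 0 1230186008 991146299 28908434 3 eng mog cd0q1 cd5q3 pd2 false false false .npn 1 2 3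
    ndB0q1 ndB5q3 pcB2 cut_mm_123 Ext.none :=
  certB2 (fam := false) (s1 := false) (s2 := false) (a := 1) (b := 2) (c := 3) (cn := .npn) (n1 := ndB0q1) (n2 := ndB5q3) (pc := pcB2) (cut := cut_mm_123) (xt := Ext.none) (P1 := 536870912) (W1 := 536870912) (P2 := 0) (W2 := 1230186008) (P3 := 991146299) (W3 := 28908434) (N0 := 3) (En := eng) (mo := mog) (C1 := cd0q1) (C2 := cd5q3) (C3 := pd2)
    rfl (fun _ => rfl) k0_mm_123

noncomputable def cut_mm_133 : Cut := Cut.of [[⟨3, 0, 0, 1449551462⟩]]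

noncomputable def f_mm_133 : ℕ → ℕ → ℕ → ℕ → Bool := onCell 1610612736 536870912 0 1230186008 991146299 28908434
    (rowB 3 eng mog cd0q1 cd5q3 pd3 2 false false false .dn 1 3 3 (qsf 536870912 536870912 0 1230186008 3) ndB0q1 ndB5q3 pcB3 cut_mm_133 Ext.none)

def k0_mm_133 : ∃ t, chk3 f_mm_133 t 1 1 1 = true :=
  ⟨(l 5), by decide +kernel⟩

theorem c_mm_133 : CertB 536870912 536870912 0 1230186008 991146299 28908434 3 eng mog cd0q1 cd5q3 pd3 false false false .dn 1 3 3
    ndB0q1 ndB5q3 pcB3 cut_mm_133 Ext.none :=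
  certB2 (fam := false) (s1 := false) (s2 := false) (a := 1) (b := 3) (c := 3) (cn := .dn) (n1 := ndB0q1) (n2 := ndB5q3) (pc := pcB3) (cut := cut_mm_133) (xt := Ext.none) (P1 := 536870912) (W1 := 536870912) (P2 := 0) (W2 := 1230186008) (P3 := 991146299) (W3 := 28908434) (N0 := 3) (En := eng) (mo := mog) (C1 := cd0q1) (C2 := cd5q3) (C3 := pd3)
    rfl (fun _ => rfl) k0_mm_133

noncomputable def cut_mm_202 : Cut := Cut.of [[⟨3, 0, 0, 1449551462⟩], [⟨0, 1, 0, 26843545⟩, ⟨1, 0, 0, 26843545⟩, ⟨2, 1, 0, 26843545⟩]]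

noncomputable def f_mm_202 : ℕ → ℕ → ℕ → ℕ → Bool := onCell 0 536870912 0 536870912 991146299 28908434
    (rowB 3 eng mog cd0q2 cd5q2 pd0 1 false false false .pp 2 0 2 (qsf 0 536870912 1073741824 536870912 0) ndB0q2 ndB5q2 pcB0 cut_mm_202 Ext.none)

def k0_mm_202 : ∃ t, chk3 f_mm_202 t 1 2 1 = true :=
  ⟨(b (b (a (a (b (a (l 15780552) (l 15908832)) (b (b (l 15896464) (l 15913888)) (a (l 15915360) (l 16018168)))) (a (b (l 15902808) (b (b (l 16056768) (l 16064328)) (b (l 16096952) (l 16133440)))) (b (b (l 16137456) (l 16155728)) (b (b (l 16158936) (l 16159952)) (b (l 16192344) (a (l 16205880) (l 16257184))))))) (a (a (a (b (b (l 16234944) (l 16244304)) (b (b (l 16239328) (b (l 16232840) (l 6))) (l 6))) (l 6)) (l 6)) (l 6))) (a (b (a (b (a (l 15985968) (l 16088368)) (a (l 16047944) (l 16148112))) (b (a (l 16080048) (c (a (l 16249040) (l 16201568)) (b (l 16284408) (l 16322896)))) (a (b (l 16233616) (l 16258648)) (a (b (l 16247960) (l 16335392)) (l 16273544))))) (a (a (l 16111312)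 (b (l 16186544) (l 16220288))) (a (b (a (l 16258784) (l 16202248)) (a (l 16267408) (l 16357664))) (c (b (l 16416096) (l 16478616)) (l 16439480))))) (l 6))) (a (a (a (b (b (l 16171112) (b (l 16207024) (a (l 16197800) (l 16246336)))) (b (b (a (l 16214784) (l 16289824)) (l 16291816)) (c (l 16368200) (l 16332472)))) (b (b (b (a (l 16220784) (l 16268168)) (a (l 16246488) (l 16307272))) (c (b (l 16311408) (l 16367208)) (l 16204296))) (b (b (l 16231584) (c (l 16470384) (l 16349640))) (c (a (b (l 16474064) (l 16515288)) (b (l 16540832) (l 16555016))) (a (l 16362312) (l 16363384)))))) (a (b (b (c (l 16399056) (l 16365384)) (a (c (l 16467048) (l 16423280)) (b (c (l 16524704) (l 16470040)) (l 6)))) (b (a (b (a (l 16489536) (l 16375608)) (c (l 16562832) (l 16487096))) (l 6)) (l 6))) (a (b (b (b (l 16481088) (l 6)) (l 6)) (l 6)) (l 6)))) (l 6))), by decide +kernel⟩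

def k1_mm_202 : ∃ t, chk3 f_mm_202 t 1 3 1 = true :=
  ⟨(a (a (b (b (a (a (b (l 16367952) (c (l 16487536) (l 16405648))) (b (c (l 16494776) (l 16416792)) (c (l 16526408) (l 16455432)))) (b (c (l 16462016) (a (l 16460568) (l 16508344))) (c (l 16565392) (l 16482296)))) (a (b (c (l 16528808) (l 16471968)) (c (l 16545608) (l 16514264))) (l 6))) (l 2)) (l 6)) (l 6)), by decide +kernel⟩

theorem s2_mm_202 : ∃ t, chk3 f_mm_202 t 1 1 1 = true := ex3_b k0_mm_202 k1_mm_202

theorem c_mm_202 : CertB 0 536870912 1073741824 536870912 991146299 28908434 3 eng mog cd0q2 cd5q2 pd0 false false false .pp 2 0 2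
    ndB0q2 ndB5q2 pcB0 cut_mm_202 Ext.none :=
  certB1 (fam := false) (s1 := false) (s2 := false) (a := 2) (b := 0) (c := 2) (cn := .pp) (n1 := ndB0q2) (n2 := ndB5q2) (pc := pcB0) (cut := cut_mm_202) (xt := Ext.none) (P1 := 0) (W1 := 536870912) (P2 := 1073741824) (W2 := 536870912) (P3 := 991146299) (W3 := 28908434) (N0 := 3) (En := eng) (mo := mog) (C1 := cd0q2) (C2 := cd5q2) (C3 := pd0)
    rfl (fun _ => rfl) s2_mm_202

noncomputable def cut_mm_203 : Cut := Cut.of [[⟨3, 0, 0, 1449551462⟩]]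

noncomputable def f_mm_203 : ℕ → ℕ → ℕ → ℕ → Bool := onCell 0 536870912 0 1230186008 991146299 28908434
    (rowB 3 eng mog cd0q2 cd5q3 pd0 0 false false false .up 2 0 3 (qsf 0 536870912 0 1230186008 0) ndB0q2 ndB5q3 pcB0 cut_mm_203 Ext.none)

def k0_mm_203 : ∃ t, chk3 f_mm_203 t 1 1 1 = true :=
  ⟨(b (l 2) (b (l 2) (a (b (l 6) (a (b (l 6) (a (b (l 6) (c (l 16548264) (l 16520656))) (l 6))) (l 6))) (l 3)))), by decide +kernel⟩

theorem c_mm_203 : CertB 0 536870912 0 1230186008 991146299 28908434 3 eng mog cd0q2 cd5q3 pd0 false false false .up 2 0 3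
    ndB0q2 ndB5q3 pcB0 cut_mm_203 Ext.none :=
  certB0 (fam := false) (s1 := false) (s2 := false) (a := 2) (b := 0) (c := 3) (cn := .up) (n1 := ndB0q2) (n2 := ndB5q3) (pc := pcB0) (cut := cut_mm_203) (xt := Ext.none) (P1 := 0) (W1 := 536870912) (P2 := 0) (W2 := 1230186008) (P3 := 991146299) (W3 := 28908434) (N0 := 3) (En := eng) (mo := mog) (C1 := cd0q2) (C2 := cd5q3) (C3 := pd0)
    rfl k0_mm_203

noncomputable def cut_mm_213 : Cut := Cut.of [[⟨3, 0, 0, 1449551462⟩]]

noncomputable def f_mm_213 : ℕ → ℕ → ℕ → ℕ → Bool := onCell 0 536870912 0 1230186008 991146299 28908434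
    (rowB 3 eng mog cd0q2 cd5q3 pd1 0 false false false .pnn 2 1 3 (qsf 0 536870912 0 1230186008 1) ndB0q2 ndB5q3 pcB1 cut_mm_213 Ext.none)

def k0_mm_213 : ∃ t, chk3 f_mm_213 t 1 1 1 = true :=
  ⟨(b (l 6) (b (l 6) (a (b (l 6) (a (l 1) (l 6))) (l 3)))), by decide +kernel⟩

theorem c_mm_213 : CertB 0 536870912 0 1230186008 991146299 28908434 3 eng mog cd0q2 cd5q3 pd1 false false false .pnn 2 1 3
    ndB0q2 ndB5q3 pcB1 cut_mm_213 Ext.none :=
  certB0 (fam := false) (s1 := false) (s2 := false) (a := 2) (b := 1) (c := 3) (cn := .pnn) (n1 := ndB0q2) (n2 := ndB5q3) (pc := pcB1) (cut := cut_mm_213) (xt := Ext.none) (P1 := 0) (W1 := 536870912) (P2 := 0) (W2 := 1230186008) (P3 := 991146299) (W3 := 28908434) (N0 := 3) (En := eng) (mo := mog) (C1 := cd0q2) (C2 := cd5q3) (C3 := pd1)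
    rfl k0_mm_213

end Pool.Agent.Strip051.G.I9231_9500.Tab.C.BB05

namespace Pool.Agent.Strip051.G.I9231_9500.Tab.C.BB10

open Pool.Agent.Strip051.PB Pool.Agent.Strip051.PB.T
open Pool.Agent.Strip051.G.I9231_9500.Tab

noncomputable def f_pp_001 : ℕ → ℕ → ℕ → ℕ → Bool := onCell 0 536870912 0 536870912 991146299 28908434
    (rowB 3 eng mog cd1q0 cd0q1 pd0 1 false true true .up 0 0 1 (qsf 0 536870912 536870912 536870912 0) ndB1q0 ndB0q1 pcB0 Cut.none Ext.none)

def k0_pp_001 : ∃ t, chk3 f_pp_001 t 1 1 1 = true :=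
  ⟨(l 3), by decide +kernel⟩

theorem c_pp_001 : CertB 0 536870912 536870912 536870912 991146299 28908434 3 eng mog cd1q0 cd0q1 pd0 false true true .up 0 0 1
    ndB1q0 ndB0q1 pcB0 Cut.none Ext.none :=
  certB1 (fam := false) (s1 := true) (s2 := true) (a := 0) (b := 0) (c := 1) (cn := .up) (n1 := ndB1q0) (n2 := ndB0q1) (pc := pcB0) (cut := Cut.none) (xt := Ext.none) (P1 := 0) (W1 := 536870912) (P2 := 536870912) (W2 := 536870912) (P3 := 991146299) (W3 := 28908434) (N0 := 3) (En := eng) (mo := mog) (C1 := cd1q0) (C2 := cd0q1) (C3 := pd0)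
    rfl (fun _ => rfl) k0_pp_001

noncomputable def cut_pp_011 : Cut := Cut.of [[⟨0, 0, 0, 53687091⟩, ⟨1, 1, 0, 53687091⟩, ⟨2, 1, 0, 53687091⟩]]

noncomputable def f_pp_011 : ℕ → ℕ → ℕ → ℕ → Bool := onCell 0 536870912 536870912 536870912 991146299 28908434
    (rowB 3 eng mog cd1q0 cd0q1 pd1 0 false true true .pnn 0 1 1 (qsf 0 536870912 536870912 536870912 1) ndB1q0 ndB0q1 pcB1 cut_pp_011 Ext.none)

def k0_pp_011 : ∃ t, chk3 f_pp_011 t 1 1 1 = true :=
  ⟨(a (b (l 3) (b (l 3) (a (b (l 3) (a (b (l 3) (a (b (l 3) (l 6)) (l 3))) (l 3))) (l 3)))) (l 3)), by decide +kernel⟩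

theorem c_pp_011 : CertB 0 536870912 536870912 536870912 991146299 28908434 3 eng mog cd1q0 cd0q1 pd1 false true true .pnn 0 1 1
    ndB1q0 ndB0q1 pcB1 cut_pp_011 Ext.none :=
  certB0 (fam := false) (s1 := true) (s2 := true) (a := 0) (b := 1) (c := 1) (cn := .pnn) (n1 := ndB1q0) (n2 := ndB0q1) (pc := pcB1) (cut := cut_pp_011) (xt := Ext.none) (P1 := 0) (W1 := 536870912) (P2 := 536870912) (W2 := 536870912) (P3 := 991146299) (W3 := 28908434) (N0 := 3) (En := eng) (mo := mog) (C1 := cd1q0) (C2 := cd0q1) (C3 := pd1)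
    rfl k0_pp_011

end Pool.Agent.Strip051.G.I9231_9500.Tab.C.BB10

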