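import Pool.Agent.Strip051.G.I9231_9500.Tab
import Pool.Agent.Strip051.PB.ExtD3

/-! # Certificates B27 (generated) -/

set_option linter.all false
set_option maxRecDepth 100000

namespace Pool.Agent.Strip051.G.I9231_9500.Tab.C.BB10

open Pool.Agent.Strip051.PB Pool.Agent.Strip051.PB.T
open Pool.Agent.Strip051.G.I9231_9500.Tab

noncomputable def cut_pp_012 : Cut := Cut.of [[⟨0, 0, 0, 53687091⟩, ⟨1, 1, 0, 53687091⟩, ⟨2, 1, 0, 53687091⟩]]

noncomputable def xt_pp_012 : Ext := extD3 3 ⟨4, 1, 1, 5, 22, 5, 21, 25, 41, 100, 1, 20⟩ eng cd1q0 cd0q2 pd1 false true true .pnp 0 1 2 rfl ndB1q0 ndB0q2 pcB1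

noncomputable def f_pp_012 : ℕ → ℕ → ℕ → ℕ → Bool := onCell 536870912 536870912 0 536870912 991146299 28908434
    (rowB 3 eng mog cd1q0 cd0q2 pd1 2 false true true .pnp 0 1 2 (qsf 0 536870912 0 536870912 1) ndB1q0 ndB0q2 pcB1 cut_pp_012 xt_pp_012)

def k0_pp_012 : ∃ t, chk3 f_pp_012 t 2 1 1 = true :=
  ⟨(b (a (b (l 2) (b (l 2) (l 3))) (b (a (a (a (l 2) (b (b (l 16681752) (l 16654640)) (l 16662416))) (b (b (l 16563880) (a (l 16702808) (l 16695600))) (a (l 16679152) (l 16681384)))) (b (a (l 16411576) (l 16396048)) (a (b (l 16559840) (l 16680968)) (b (l 16474080) (l 16642280))))) (a (a (b (b (a (l 16634376) (l 16644752)) (a (b (l 16573928) (c (l 155792695959) (l 163845793191))) (b (l 16610080) (l 16545048)))) (b (a (b (a (l 52780598887) (b (l 100562102695) (l 16551360))) (l 3)) (b (a (b (l 16564880) (l 88750942807)) (l 16527016)) (c (l 69960461911) (l 71571107735)))) (l 3))) (b (b (l 16654352) (a (l 16570016) (l 16621864))) (a (b (b (l 16519304) (c (l 103783322615) (l 104320234343)))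 (a (l 3) (l 68886720839))) (b (c (l 16560944) (l 16574848)) (b (a (l 89824687111) (l 112910144391)) (l 3)))))) (b (a (b (l 16654688) (l 16629888)) (l 16547808)) (a (c (b (l 16537744) (a (b (l 16573232) (l 102172733543)) (l 16540512))) (b (l 16549096) (a (b (l 16590472) (l 101099038871)) (l 16578120)))) (b (l 16605808) (a (b (l 16605432) (l 16577696)) (l 16610096)))))))) (b (a (l 3) (a (l 3) (b (a (a (l 3) (b (c (l 95193419303) (l 102172789559)) (l 3))) (b (a (c (l 110225825591) (l 110225867623)) (b (l 16604256) (l 123110750615))) (a (l 3) (b (l 105930845111) (l 3))))) (l 3)))) (l 3))), by decide +kernel⟩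

def k1_pp_012 : ∃ t, chk3 f_pp_012 t 6 1 1 = true :=
  ⟨(b (b (a (a (b (l 16362424) (b (l 16495432) (l 16468848))) (b (l 16311568) (a (l 16471776) (l 16431920)))) (a (b (l 16286128) (l 16385760)) (b (l 16286736) (l 16348088)))) (a (a (b (l 16601736) (b (l 16608432) (l 16592792))) (b (b (l 16538320) (l 16562784)) (b (l 16581616) (l 16601584)))) (a (b (b (l 16466816) (l 16505560)) (l 16450008)) (b (b (l 16401464) (l 16440832)) (l 16419624))))) (b (a (b (a (b (a (l 16570968) (l 16620080)) (a (b (l 123110741143) (l 108078278135)) (b (l 16619192) (l 124721310631)))) (b (l 16579400) (a (b (l 16629616) (l 16615480)) (l 16638008)))) (a (l 3) (b (a (b (l 167671027287) (l 3)) (b (l 136532477719) (c (l 141364231671) (l 138679851095)))) (l 3)))) (b (a (b (l 16604216) (a (l 16639512) (l 16633752))) (a (l 16538384) (l 16519440))) (a (b (a (a (b (l 16630256) (l 16517216)) (l 16521248)) (b (l 16656912) (l 16633936))) (b (a (c (l 152638459591) (l 148880333831)) (a (l 158544106711) (l 16525968)))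 (a (l 3) (a (l 3) (l 219747469239))))) (b (a (l 16662936) (l 16654016)) (a (b (a (l 16614912) (l 16642272)) (c (b (l 200420297879) (l 184314079703)) (l 135458566727))) (b (l 16680520) (a (l 16524272) (l 16640320)))))))) (a (l 3) (b (b (a (l 3) (b (c (a (l 243369834663) (a (l 248738543639) (a (l 252496690199) (l 255181083895)))) (a (l 238537859543) (b (l 141901065447) (l 254107219095)))) (l 3))) (l 3)) (l 3))))), by decide +kernel⟩

def k2_pp_012 : ∃ t, chk3 f_pp_012 t 7 2 1 = true :=
  ⟨(a (b (a (b (l 16314016) (l 16338608)) (b (l 16368704) (l 16358424))) (a (b (a (l 16384824) (l 16369424)) (b (l 16418832) (l 16467088))) (b (a (l 16362128) (l 16362872)) (b (a (l 16379016) (l 16365072)) (a (l 16419664) (l 16390224)))))) (b (a (b (a (l 16428144) (l 16476912)) (l 16324944)) (b (l 16417560) (a (l 16425568) (l 16454320)))) (a (b (a (l 16371888) (l 16389448)) (b (l 16364000) (a (l 16367712) (l 16357032)))) (b (c (l 16353240) (l 16366040)) (a (b (l 16383048) (l 16363976)) (b (l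 16407912) (l 16381584))))))), by decide +kernel⟩

def k3_pp_012 : ∃ t, chk3 f_pp_012 t 7 6 1 = true :=
  ⟨(a (b (a (a (l 16497080) (l 16450920)) (b (l 16462216) (l 16417640))) (a (b (a (l 16638760) (l 16619248)) (a (b (l 16677968) (l 16687344)) (l 16655648))) (b (a (l 16596480) (l 16570960)) (a (l 16636240) (l 16592072))))) (a (b (b (a (l 16416472) (l 16388000)) (a (l 16479392) (l 16450088))) (b (a (l 16543336) (l 16514656)) (a (l 16544896) (b (l 16563184) (l 16595696))))) (b (b (a (b (l 16355504) (l 16374504)) (b (l 16362400) (a (l 16359392) (l 16356408)))) (a (l 16421488) (l 16396096))) (b (a (l 16464568) (l 16417720)) (a (b (l 16533608) (l 16565784)) (b (l 16507304) (l 16539136))))))), by decide +kernel⟩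

def k4_pp_012 : ∃ t, chk3 f_pp_012 t 14 14 1 = true :=
  ⟨(a (b (a (a (b (b (l 16622152) (c (l 16593728) (l 16573448))) (b (c (l 266455303847) (l 260549660727)) (l 3))) (c (b (l 16646520) (b (l 225653184871) (b (l 226190000743) (l 278266440839)))) (b (l 16634432) (l 277192736279)))) (b (l 16612072) (a (b (l 16622232) (c (l 4228822517155269557485076543) (l 16566592))) (b (l 16664544) (l 16623992))))) (b (a (l 3) (b (c (a (b (l 4335803525119087515978820159) (l 288467029863)) (b (l 16606136) (l 4519559890853910819878414911))) (a (l 283635097255) (l 232632451783))) (a (l 3) (c (c (l 5341630275700635546384853567) (l 295983184823)) (l 294372509255))))) (l 3))) (b (a (b (l 16702320) (a (l 16688256) (l 16723144))) (b (l 16681136) (l 16691280))) (b (c (a (b (a (l 16640008) (l 16683816)) (a (b (l 4693646499573742005376756287) (a (l 5360973155395907643528505919) (l 4829046076366513603602262591))) (l 16648032))) (a (l 16667432) (l 16733568))) (a (b (l 143036188889350207) (a (l 248201715735)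 (l 16618680))) (l 143304882254823487))) (a (b (c (c (a (b (l 5477030389178499686692219455) (l 3)) (b (a (l 5003132362556939047969237567) (l 16641720)) (a (l 5564073890834372440013150783) (b (l 280950960327) (l 5186889383296902528812440127))))) (a (l 307794375335) (l 4945104687314396091407510079))) (a (l 306720539143) (l 4722662295865023114907445823))) (a (l 3) (c (a (l 3) (b (c (l 5670459259485754768938981951) (l 315847482535)) (l 3))) (l 5757497377569683515311647295)))) (b (a (c (l 598912888524544451225663) (l 16625664)) (l 16695680)) (b (a (c (c (a (a (l 5564074588063652351056959551) (l 5283604310674897556444928063)) (l 16658104)) (l 5177217854960905753013414463)) (l 4993459271581490684819974719)) (l 599109750657675574700095)) (c (c (a (c (a (l 5776845597744122472241633343) (b (l 5448018954824103301884942399) (l 5689803911797619059885168703))) (l 5689802787122691315859494975)) (a (l 599808853923627035973695) (l 16692384))) (a (l 5360974711121241919094676031) (l 599120126091673805088831)))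 (a (l 5244917167921141297821887039) (l 16625088))))))))), by decide +kernel⟩

def k5_pp_012 : ∃ t, chk3 f_pp_012 t 14 15 1 = true :=
  ⟨(b (a (l 3) (b (a (l 3) (b (c (c (a (b (a (l 3) (l 6405487305833037519473924159)) (l 3)) (b (a (b (a (l 5699475589867550428207306815) (l 305110241687)) (l 5844547261799754471080220735)) (l 5477034455390646020347287615)) (a (l 3) (b (l 5825204896595924944086931519) (l 6018632902354051986037397567))))) (a (l 6473184658250472664690678335) (b (l 5535061960289268736798119999) (l 5921916741350047029027297343)))) (a (l 6347453805595645790990985791) (b (l 5302947531777363142031534143) (l 5950930729714073812957833279)))) (l 3))) (l 3))) (l 3)), by decide +kernel⟩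

def k6_pp_012 : ∃ t, chk3 f_pp_012 t 15 14 1 = true :=
  ⟨(a (a (b (b (l 16655960) (l 16666848)) (b (l 16677048) (a (b (l 16740064) (l 16731616)) (l 16701128)))) (b (b (l 16607176) (a (l 16667616) (l 16652824))) (b (a (l 16698976) (l 16684080)) (a (l 16708752) (l 16693728))))) (b (a (b (l 16555904) (a (l 16637128) (l 16622064))) (b (a (l 16577136) (l 16564936)) (a (l 16608384) (l 16596032)))) (a (b (a (l 16668088) (l 16652712)) (a (l 16677416) (l 16661688))) (a (b (l 16638776) (l 16647464)) (b (l 16626232) (b (l 16648312) (l 16662864))))))), by decide +kernel⟩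

def k7_pp_012 : ∃ t, chk3 f_pp_012 t 60 15 1 = true :=
  ⟨(a (b (b (b (a (b (l 16671864) (c (c (l 5506049469136083418544806975) (l 260549953959)) (l 252496829735))) (l 601396858661721852209215)) (c (c (b (a (l 6125019372910162342984866879) (l 5061165696772632595400268863)) (l 6337790888434942610448751679)) (b (a (l 333027500343) (l 266455573783)) (l 6202389337552177964259039295))) (a (l 6076657790120859244876732479) (b (l 3310637382287194780217595967) (l 6018632576941957310651226175))))) (l 3)) (l 3)) (b (b (a (b (l 16717664) (b (l 16699264) (c (a (l 5022480887966311228065193023) (l 16730328)) (l 3417023677599236436923439167)))) (b (l 16740696) (c (l 16746104) (l 16695472)))) (b (a (a (l 3) (b (c (l 5892907471747775958547045439) (l 4558251755397192285278853183)) (l 3))) (c (b (c (l 3784540521539454021081750591) (l 3842568937822526129252359231)) (l 6511877337187214854890642495)) (b (b (l 16677920) (l 3755525798330235783709431871)) (b (l 5293277310281103580409321535) (l 3)))))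 (l 3))) (l 3))), by decide +kernel⟩

def k8_pp_012 : ∃ t, chk3 f_pp_012 t 61 15 1 = true :=
  ⟨(b (b (a (b (l 16730912) (a (l 601677306745424685395583) (l 16739144))) (b (l 16737112) (l 16730272))) (b (a (b (a (c (l 16772520) (l 16707352)) (l 16761016)) (a (b (c (l 3987639704134888303529090111) (l 3175240726420908318780037183)) (c (a (l 323900928311) (l 5041822964075073475056917567)) (a (l 309405244647) (l 3136555422434800722842311743)))) (c (l 16755728) (l 16731648)))) (a (b (l 16763160) (l 16749416)) (l 16737416))) (b (a (c (a (b (a (l 3) (l 346449510039)) (l 3)) (b (a (b (l 268066359399) (l 303499842839)) (l 16780392)) (a (l 349670735575) (a (l 333027742823) (l 306721065031))))) (a (l 6860046664093859576000616511) (b (c (l 3194584119166028826746215487) (l 3136555423875952603537185855)) (a (l 378661663863) (c (l 4896751876674072267837594687) (l 4142382111335463322346593343)))))) (a (a (c (l 16770336) (l 16755864)) (l 16754624)) (l 16748024))) (a (a (l 3) (a (l 3) (c (c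 (l 349670736855) (l 352891965463)) (l 7546717426607899531470412863)))) (a (b (a (c (b (a (l 308331678727) (l 16781952)) (a (l 357186924567) (l 330880256679))) (c (b (l 260550172231) (l 323900930823)) (l 4800037868462746787988331583))) (c (a (l 16775544) (l 16778624)) (l 16768752))) (a (l 3) (c (a (c (l 340543932887) (l 345375763495)) (c (l 322290317927) (l 327659019383))) (b (a (l 4771023938751754096509918271) (l 16774008)) (c (l 350744475287) (l 349133836407)))))) (b (l 602919147912680330632767) (a (c (b (l 16778232) (a (l 310479160247) (l 16779072))) (l 3358998774556219242086095935)) (l 16765616)))))))) (b (b (a (l 3) (b (a (l 3) (a (b (c (c (b (a (l 339470199031) (l 313163514455)) (l 346449514439)) (a (l 350207600615) (l 331953996023))) (a (c (l 355039441575) (l 359871295991)) (b (l 243907172071) (b (l 336248957879) (l 372219310631))))) (l 3)) (c (b (a (c (l 312626638919) (l 269140097607)) (l 16777512)) (c (a (l 350207607431) (b (l 311552895911) (l 350744486599))) (a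 (l 356113179415) (l 336785835543)))) (c (b (l 243370291719) (b (l 327659030279) (l 362555632503))) (b (l 181630139719) (b (a (l 349670752967) (l 260550171319)) (l 366850602343))))))) (l 3))) (l 3)) (l 3))), by decide +kernel⟩

def k9_pp_012 : ∃ t, chk3 f_pp_012 t 31 15 1 = true :=
  ⟨(a (b (b (a (b (l 16720536) (l 16713552)) (b (l 16704520) (l 16718288))) (a (b (a (l 16752088) (l 16743576)) (a (b (l 16760112) (l 16746376)) (l 16734512))) (b (l 16710384) (l 6)))) (b (a (b (a (a (b (b (l 603283471108136095850047) (b (c (l 16766552) (l 16758496)) (l 6))) (l 6)) (l 6)) (l 6)) (l 6)) (l 6)) (l 6))) (b (b (a (b (l 16690048) (l 6)) (l 6)) (l 6)) (l 6))), by decide +kernel⟩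

theorem s10_pp_012 : ∃ t, chk3 f_pp_012 t 30 15 1 = true := ex3_a k7_pp_012 k8_pp_012

theorem s11_pp_012 : ∃ t, chk3 f_pp_012 t 15 15 1 = true := ex3_a s10_pp_012 k9_pp_012

theorem s12_pp_012 : ∃ t, chk3 f_pp_012 t 15 7 1 = true := ex3_b k6_pp_012 s11_pp_012

theorem s13_pp_012 : ∃ t, chk3 f_pp_012 t 14 7 1 = true := ex3_b k4_pp_012 k5_pp_012

theorem s14_pp_012 : ∃ t, chk3 f_pp_012 t 7 7 1 = true := ex3_a s13_pp_012 s12_pp_012

theorem s15_pp_012 : ∃ t, chk3 f_pp_012 t 7 3 1 = true := ex3_b k3_pp_012 s14_pp_012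

theorem s16_pp_012 : ∃ t, chk3 f_pp_012 t 7 1 1 = true := ex3_b k2_pp_012 s15_pp_012

theorem s17_pp_012 : ∃ t, chk3 f_pp_012 t 3 1 1 = true := ex3_a k1_pp_012 s16_pp_012

theorem s18_pp_012 : ∃ t, chk3 f_pp_012 t 1 1 1 = true := ex3_a k0_pp_012 s17_pp_012

theorem c_pp_012 : CertB 0 536870912 0 536870912 991146299 28908434 3 eng mog cd1q0 cd0q2 pd1 false true true .pnp 0 1 2
    ndB1q0 ndB0q2 pcB1 cut_pp_012 xt_pp_012 :=
  certB2 (fam := false) (s1 := true) (s2 := true) (a := 0) (b := 1) (c := 2) (cn := .pnp) (n1 := ndB1q0) (n2 := ndB0q2) (pc := pcB1) (cut := cut_pp_012) (xt := xt_pp_012) (P1 := 0) (W1 := 536870912) (P2 := 0) (W2 := 536870912) (P3 := 991146299) (W3 := 28908434) (N0 := 3) (En := eng) (mo := mog) (C1 := cd1q0) (C2 := cd0q2) (C3 := pd1)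
    rfl (fun _ => rfl) s18_pp_012

noncomputable def cut_pp_022 : Cut := Cut.of [[⟨0, 0, 0, 53687091⟩, ⟨1, 1, 0, 53687091⟩, ⟨2, 1, 0, 53687091⟩]]

noncomputable def f_pp_022 : ℕ → ℕ → ℕ → ℕ → Bool := onCell 1073741824 536870912 0 536870912 991146299 28908434
    (rowB 3 eng mog cd1q0 cd0q2 pd2 2 false true true .pp 0 2 2 (qsf 0 536870912 0 536870912 2) ndB1q0 ndB0q2 pcB2 cut_pp_022 Ext.none)

def k0_pp_022 : ∃ t, chk3 f_pp_022 t 2 2 1 = true :=
  ⟨(a (a (a (b (c (b (l 16207696) (a (l 16317648) (l 16356488))) (b (a (l 16154112) (l 16150112)) (a (b (l 16210928) (l 16246008)) (l 16216432)))) (a (b (b (c (l 16421400) (l 16280560)) (c (l 16384512) (c (l 16354968) (l 16275336)))) (b (c (a (l 16419264) (l 16443872)) (c (l 16388504) (l 16314136))) (a (c (a (l 16452080) (l 16442632)) (c (l 16431376) (l 16340368))) (c (l 16407392) (c (l 16415624) (l 16347944)))))) (c (b (b (l 16413776) (l 16415688)) (b (l 16375632) (b (l 16414384) (l 16405760)))) (c (b (l 16316048) (b (l 16360728)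 (l 16391800))) (b (l 16239768) (b (l 16291584) (l 16327784))))))) (b (c (b (l 16297808) (l 16215560)) (b (l 16146240) (a (l 16205488) (l 16195256)))) (c (b (a (l 16310496) (l 16342528)) (a (b (l 16402880) (l 16339208)) (b (l 16387560) (l 16403944)))) (b (a (b (l 16246248) (l 16273248)) (l 16240496)) (b (a (l 16301160) (l 16275744)) (a (c (l 16359592) (l 16300640)) (l 16300312))))))) (b (c (a (b (l 16263616) (l 16272352)) (b (l 16231184) (l 16245552))) (a (b (l 16145032) (l 16097464)) (b (l 16148592) (l 16165248)))) (a (b (c (c (l 16341456) (l 16291432)) (c (l 16239576) (l 16185888))) (c (a (b (l 16350656) (l 16363032)) (l 16254016)) (a (b (l 16250208) (l 16269888)) (b (l 16224560) (l 16239080))))) (b (c (a (l 16268968) (l 16236896)) (a (l 16185728) (l 16167936))) (c (a (l 16276696) (l 16235816)) (a (b (l 16198768) (l 16207864)) (l 16174120))))))) (a (b (b (a (c (l 16200688) (l 16156936)) (l 1)) (a (c (l 16135328) (l 16152008)) (l 1))) (a (a (b (c (l 16204576) (l 16150352))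 (c (l 248603471479) (l 243771566151))) (b (c (l 16172024) (l 16132936)) (l 1))) (l 1))) (l 1))), by decide +kernel⟩

def k1_pp_022 : ∃ t, chk3 f_pp_022 t 16 6 1 = true :=
  ⟨(a (b (c (a (b (b (l 16469912) (a (l 16491024) (l 16501440))) (b (a (l 16507928) (l 16517880)) (a (l 16520536) (l 16514280)))) (c (b (l 16527304) (l 16535336)) (b (l 16490784) (b (l 16537000) (l 16554928))))) (c (b (a (b (l 16459880) (l 16479744)) (b (l 16442616) (l 16461440))) (a (b (l 16458536) (a (l 16527280) (l 16517096))) (b (l 16481104) (l 16501720)))) (b (a (b (l 16394072) (l 16395816)) (b (l 16379032) (l 16400616))) (a (b (a (l 16444696) (l 16436072)) (a (l 16469632) (l 16460416))) (b (l 16423056) (l 16446504)))))) (b (c (c (a (a (l 16600064) (l 16587424)) (l 16568296)) (a (b (l 16555352) (l 16576664)) (b (l 16552960) (l 16573184)))) (a (c (b (a (l 16550392) (l 16539656)) (a (l 16553800) (l 16563440))) (b (a (l 16495688) (l 16485856)) (a (l 16522984) (l 16512520)))) (c (a (l 16477344) (l 16508104))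 (b (l 16471016) (l 16496720))))) (a (c (b (b (l 16574632) (l 16585688)) (l 16599720)) (b (c (l 16552688) (a (l 16551728) (l 16540616))) (a (l 16542344) (l 16551136)))) (b (c (l 16553800) (c (l 16570600) (l 16523816))) (c (l 16596536) (l 16511752)))))) (b (c (b (a (b (l 16470944) (l 16484936)) (l 16414552)) (c (b (l 16513576) (l 16527504)) (a (l 16502752) (l 16501360)))) (c (b (a (l 16433920) (l 16415784)) (a (l 16408176) (l 16450688))) (b (a (l 16373936) (l 16358088)) (a (b (l 16405544) (l 16427752)) (l 16398176))))) (c (b (a (b (l 16511024) (l 16528880)) (l 16452416)) (a (a (l 16544048) (l 16551264)) (l 16509496))) (b (a (b (c (l 16501504) (l 16450992)) (l 16436584)) (c (l 16489368) (l 16442080))) (a (a (l 16458800) (l 16467576)) (b (l 16499984) (l 16524488))))))), by decide +kernel⟩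

def k2_pp_022 : ∃ t, chk3 f_pp_022 t 17 6 1 = true :=
  ⟨(b (c (b (a (a (l 16434928) (l 16455040)) (l 16400904)) (a (a (l 16460440) (l 16478472)) (l 16379168))) (a (b (a (l 16328096) (l 16352728)) (a (l 16342160) (l 16385264))) (b (l 16305544) (c (l 16377464) (l 16332552))))) (c (a (b (b (l 16448200) (l 16463256)) (c (l 16527504) (l 16511496))) (b (c (l 16484328) (l 16446408)) (b (l 16485864) (l 16438072)))) (c (b (a (l 16433672) (l 16407216)) (a (l 16494208) (l 16420264))) (b (a (l 16389264) (l 16366728)) (a (l 16454680) (l 16405144)))))), by decide +kernel⟩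

def k3_pp_022 : ∃ t, chk3 f_pp_022 t 9 6 1 = true :=
  ⟨(a (a (b (c (b (l 16376728) (l 16392472)) (b (l 16290968) (l 16314240))) (b (c (l 16369232) (c (l 16358560) (l 16322104))) (c (b (l 16385824) (a (l 16455568) (l 16424824))) (b (l 16320656) (a (l 16392512) (l 16364976)))))) (b (c (b (l 16330624) (l 16341696)) (b (l 16254768) (l 16272376))) (a (b (c (l 16369464) (l 16304624)) (c (l 491806415319) (l 447783059623))) (b (c (l 16341288) (l 16280392)) (l 1))))) (a (b (c (b (l 16283568) (l 16289800)) (b (l 16217904) (l 16229576))) (b (c (l 439729721847) (l 449930168519)) (l 1))) (b (b (a (l 16219088) (l 16197448)) (l 1)) (l 1)))), by decide +kernel⟩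

def k4_pp_022 : ∃ t, chk3 f_pp_022 t 5 6 1 = true :=
  ⟨(l 1), by decide +kernel⟩

def k5_pp_022 : ∃ t, chk3 f_pp_022 t 2 7 1 = true :=
  ⟨(a (a (a (b (b (b (a (c (c (l 16599056) (l 16614752)) (a (l 16545704) (l 16561744))) (c (l 16555224) (l 16459280))) (a (c (b (l 16572944) (l 16578632)) (a (l 16599408) (l 16572440))) (a (c (l 16635768) (l 16544408)) (c (l 16582992) (b (l 16571696) (l 16542112)))))) (b (a (c (b (a (l 16602432) (l 16646704)) (l 16606232)) (a (l 16621800) (l 16609728))) (c (a (l 16638432) (l 16579232)) (b (l 16558656) (l 16534720)))) (l 6))) (l 6)) (a (b (b (c (b (l 16495296) (a (b (l 16589312) (l 16574328)) (b (l 16578904) (l 16517432)))) (b (a (l 16523560) (l 16496040)) (b (a (l 16543440) (l 16514752)) (a (l 16510208) (b (l 16499800) (l 16517096)))))) (b (c (a (l 16540008) (b (l 16547864) (l 16514800))) (a (l 16480904) (b (l 16510280) (l 16459288)))) (l 6))) (l 6)) (b (b (b (c (c (l 16469856) (l 16439096)) (a (l 16468104) (c (l 16455616) (l 16423656))))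 (c (b (a (c (l 16561272) (l 16531560)) (c (l 117070826903) (l 120292000391))) (a (a (l 16552272) (l 16532904)) (l 16461464))) (b (a (c (l 16500896) (l 16469280)) (b (l 16432264) (c (l 16470360) (l 16440384)))) (a (a (l 16492664) (l 16474544)) (l 16404928))))) (a (b (c (b (l 16465840) (c (l 16527712) (l 16501648))) (b (l 62309857831) (c (l 16474808) (l 16447192)))) (a (a (l 6) (l 1)) (l 1))) (b (b (c (l 49424999911) (l 16433552)) (l 1)) (l 1)))) (l 1)))) (b (a (b (a (a (a (b (c (l 16478032) (l 16418200)) (b (c (l 310881233415) (l 314102347479)) (l 1))) (b (c (l 16462080) (l 16403712)) (l 1))) (b (c (l 445635626775) (l 417718363639)) (l 1))) (l 1)) (l 1)) (l 1)) (l 1))) (l 1)), by decide +kernel⟩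

def k6_pp_022 : ∃ t, chk3 f_pp_022 t 3 1 1 = true :=
  ⟨(l 1), by decide +kernel⟩

theorem s7_pp_022 : ∃ t, chk3 f_pp_022 t 8 6 1 = true := ex3_a k1_pp_022 k2_pp_022

theorem s8_pp_022 : ∃ t, chk3 f_pp_022 t 4 6 1 = true := ex3_a s7_pp_022 k3_pp_022

theorem s9_pp_022 : ∃ t, chk3 f_pp_022 t 2 6 1 = true := ex3_a s8_pp_022 k4_pp_022

theorem s10_pp_022 : ∃ t, chk3 f_pp_022 t 2 3 1 = true := ex3_b s9_pp_022 k5_pp_022

theorem s11_pp_022 : ∃ t, chk3 f_pp_022 t 2 1 1 = true := ex3_b k0_pp_022 s10_pp_022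

theorem s12_pp_022 : ∃ t, chk3 f_pp_022 t 1 1 1 = true := ex3_a s11_pp_022 k6_pp_022

theorem c_pp_022 : CertB 0 536870912 0 536870912 991146299 28908434 3 eng mog cd1q0 cd0q2 pd2 false true true .pp 0 2 2
    ndB1q0 ndB0q2 pcB2 cut_pp_022 Ext.none :=
  certB2 (fam := false) (s1 := true) (s2 := true) (a := 0) (b := 2) (c := 2) (cn := .pp) (n1 := ndB1q0) (n2 := ndB0q2) (pc := pcB2) (cut := cut_pp_022) (xt := Ext.none) (P1 := 0) (W1 := 536870912) (P2 := 0) (W2 := 536870912) (P3 := 991146299) (W3 := 28908434) (N0 := 3) (En := eng) (mo := mog) (C1 := cd1q0) (C2 := cd0q2) (C3 := pd2)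
    rfl (fun _ => rfl) s12_pp_022

noncomputable def f_pp_101 : ℕ → ℕ → ℕ → ℕ → Bool := onCell 536870912 536870912 536870912 536870912 991146299 28908434
    (rowB 3 eng mog cd1q1 cd0q1 pd0 0 false true true .npn 1 0 1 (qsf 536870912 536870912 536870912 536870912 0) ndB1q1 ndB0q1 pcB0 Cut.none Ext.none)

def k0_pp_101 : ∃ t, chk3 f_pp_101 t 1 1 1 = true :=
  ⟨(l 3), by decide +kernel⟩

theorem c_pp_101 : CertB 536870912 536870912 536870912 536870912 991146299 28908434 3 eng mog cd1q1 cd0q1 pd0 false true true .npn 1 0 1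
    ndB1q1 ndB0q1 pcB0 Cut.none Ext.none :=
  certB0 (fam := false) (s1 := true) (s2 := true) (a := 1) (b := 0) (c := 1) (cn := .npn) (n1 := ndB1q1) (n2 := ndB0q1) (pc := pcB0) (cut := Cut.none) (xt := Ext.none) (P1 := 536870912) (W1 := 536870912) (P2 := 536870912) (W2 := 536870912) (P3 := 991146299) (W3 := 28908434) (N0 := 3) (En := eng) (mo := mog) (C1 := cd1q1) (C2 := cd0q1) (C3 := pd0)
    rfl k0_pp_101

noncomputable def f_pp_102 : ℕ → ℕ → ℕ → ℕ → Bool := onCell 0 536870912 0 536870912 991146299 28908434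
    (rowB 3 eng mog cd1q1 cd0q2 pd0 2 false true true .npp 1 0 2 (qsf 536870912 536870912 0 536870912 0) ndB1q1 ndB0q2 pcB0 Cut.none Ext.none)

def k0_pp_102 : ∃ t, chk3 f_pp_102 t 1 1 1 = true :=
  ⟨(b (b (a (l 3) (a (l 3) (b (b (a (a (l 227263654551) (a (l 134921842103) (l 16571072))) (a (l 16507032) (l 16615664))) (a (l 3) (a (a (l 16478744) (l 105393825351)) (c (l 16439304) (l 16489040))))) (a (l 3) (a (l 3) (b (a (l 71034025911) (b (l 16462744) (l 16498648))) (l 3))))))) (a (l 3) (l 3))) (l 3)), by decide +kernel⟩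

theorem c_pp_102 : CertB 536870912 536870912 0 536870912 991146299 28908434 3 eng mog cd1q1 cd0q2 pd0 false true true .npp 1 0 2
    ndB1q1 ndB0q2 pcB0 Cut.none Ext.none :=
  certB2 (fam := false) (s1 := true) (s2 := true) (a := 1) (b := 0) (c := 2) (cn := .npp) (n1 := ndB1q1) (n2 := ndB0q2) (pc := pcB0) (cut := Cut.none) (xt := Ext.none) (P1 := 536870912) (W1 := 536870912) (P2 := 0) (W2 := 536870912) (P3 := 991146299) (W3 := 28908434) (N0 := 3) (En := eng) (mo := mog) (C1 := cd1q1) (C2 := cd0q2) (C3 := pd0)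
    rfl (fun _ => rfl) k0_pp_102

noncomputable def f_pp_112 : ℕ → ℕ → ℕ → ℕ → Bool := onCell 536870912 536870912 0 536870912 991146299 28908434
    (rowB 3 eng mog cd1q1 cd0q2 pd1 2 false true true .dn 1 1 2 (qsf 536870912 536870912 0 536870912 1) ndB1q1 ndB0q2 pcB1 Cut.none Ext.none)

def k0_pp_112 : ∃ t, chk3 f_pp_112 t 4 4 1 = true :=
  ⟨(a (a (b (a (c (l 16314552) (l 16360520)) (b (l 16251296) (l 16335848))) (b (a (b (l 16360976) (a (l 97340653991) (l 76939503335))) (c (l 16395712) (l 16434888))) (a (l 57612185383) (b (a (l 84455732119) (a (l 106467418791) (l 123647263095))) (l 3))))) (b (b (l 16177856) (c (l 16249384) (l 16304000))) (b (a (c (l 16348328) (l 16392192)) (c (l 16305936) (l 16354928))) (a (b (c (l 16404432) (l 16442152)) (a (l 70497060103) (c (l 98414320711) (l 100025013895)))) (a (b (l 16390880) (c (l 16403024) (l 16439912))) (c (l 16365440) (l 16406952))))))) (a (a (b (a (l 16200904) (l 16084720)) (b (l 16233328) (b (l 16301136) (c (l 16351152) (l 16394152)))))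 (b (b (b (l 16133288) (l 16153768)) (l 16203304)) (b (l 16266264) (c (l 16299256) (l 16350272))))) (b (b (a (b (l 16140808) (l 16132824)) (b (l 16168696) (l 16130016))) (l 16166024)) (b (c (l 16194808) (l 16253360)) (a (c (l 16267208) (l 16319728)) (c (l 16240680) (l 16292616))))))), by decide +kernel⟩

def k1_pp_112 : ∃ t, chk3 f_pp_112 t 4 5 1 = true :=
  ⟨(b (a (a (l 3) (b (a (l 3) (b (a (l 64054705703) (c (l 84992609223) (l 84455734263))) (l 3))) (l 3))) (a (b (a (b (a (b (c (l 16384920) (l 16422888)) (c (l 16394768) (l 16430472))) (c (l 16371816) (l 16411008))) (a (l 3) (c (l 74792016055) (l 75865852631)))) (c (b (a (l 16352696) (l 16334800)) (a (b (l 16352512) (l 74255127799)) (b (l 16355792) (l 86066250071)))) (b (l 16386768) (a (b (l 16411160) (l 75865835063)) (b (l 16396072) (l 88750695783)))))) (a (l 3) (a (l 3) (b (c (l 63517691079) (l 60296530183)) (l 3))))) (b (a (b (c (l 16310160) (l 16358248)) (c (a (l 16345320) (l 16329392)) (a (l 16386880) (l 16373928))))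 (c (b (l 16281776) (l 16308000)) (b (l 16329616) (l 16353336)))) (a (b (a (b (c (a (l 90361226103) (l 16338944)) (l 82845103911)) (c (l 16342664) (l 16398096))) (b (c (l 16348592) (l 16388192)) (c (a (l 78013182471) (l 102172360679)) (a (l 80697622999) (l 105930542551))))) (l 3)) (b (c (a (c (l 16350320) (l 16350176)) (l 16326320)) (a (b (l 16376256) (l 16363752)) (l 16369208))) (a (b (c (a (l 65665138503) (l 89287448247)) (a (l 16368472) (l 92508758311))) (l 3)) (b (c (a (l 103782950535) (l 16340448)) (a (l 16362968) (l 16379400))) (c (a (l 16328112) (l 76402534999)) (l 73181389879))))))))) (l 3)), by decide +kernel⟩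

def k2_pp_112 : ∃ t, chk3 f_pp_112 t 5 2 1 = true :=
  ⟨(a (a (b (b (b (a (l 16171752) (l 16200984)) (b (a (l 16133456) (l 16142320)) (l 16150312))) (b (l 16146384) (c (l 16212488) (l 16263352)))) (a (b (b (c (l 16271992) (l 16318248)) (b (c (b (l 16302976) (l 16314768)) (l 16351872)) (a (b (c (l 16331552) (l 16372584)) (c (a (l 100561719639) (l 16318360)) (a (l 104856767559) (l 16377264)))) (c (b (l 16320968) (l 16331656)) (l 16346136))))) (b (b (a (b (c (a (l 3) (l 64054493703)) (l 60833333543)) (l 3)) (a (a (b (c (l 80160619847) (l 16356976)) (l 1)) (l 1)) (l 1))) (l 3)) (l 3))) (a (b (b (l 16281704) (l 1008813019447)) (l 1)) (l 1)))) (b (b (l 1) (l 1)) (l 1))) (l 1)), by decide +kernel⟩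

def k3_pp_112 : ∃ t, chk3 f_pp_112 t 2 3 1 = true :=
  ⟨(b (a (l 3) (l 1)) (l 3)), by decide +kernel⟩

def k4_pp_112 : ∃ t, chk3 f_pp_112 t 3 1 1 = true :=
  ⟨(l 1), by decide +kernel⟩

theorem s5_pp_112 : ∃ t, chk3 f_pp_112 t 4 2 1 = true := ex3_b k0_pp_112 k1_pp_112

theorem s6_pp_112 : ∃ t, chk3 f_pp_112 t 2 2 1 = true := ex3_a s5_pp_112 k2_pp_112

theorem s7_pp_112 : ∃ t, chk3 f_pp_112 t 2 1 1 = true := ex3_b s6_pp_112 k3_pp_112

theorem s8_pp_112 : ∃ t, chk3 f_pp_112 t 1 1 1 = true := ex3_a s7_pp_112 k4_pp_112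

theorem c_pp_112 : CertB 536870912 536870912 0 536870912 991146299 28908434 3 eng mog cd1q1 cd0q2 pd1 false true true .dn 1 1 2
    ndB1q1 ndB0q2 pcB1 Cut.none Ext.none :=
  certB2 (fam := false) (s1 := true) (s2 := true) (a := 1) (b := 1) (c := 2) (cn := .dn) (n1 := ndB1q1) (n2 := ndB0q2) (pc := pcB1) (cut := Cut.none) (xt := Ext.none) (P1 := 536870912) (W1 := 536870912) (P2 := 0) (W2 := 536870912) (P3 := 991146299) (W3 := 28908434) (N0 := 3) (En := eng) (mo := mog) (C1 := cd1q1) (C2 := cd0q2) (C3 := pd1)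
    rfl (fun _ => rfl) s8_pp_112

noncomputable def f_pp_202_a : ℕ → ℕ → ℕ → ℕ → Bool := onCell 0 536870912 0 536870912 991146299 28908434
    (rowB 3 eng mog cd1q2a cd0q2 pd0 0 false true true .pp 2 0 2 (qsf 0 536870912 0 536870912 0) ndB1q2a ndB0q2 pcB0 Cut.none Ext.none)

def k0_pp_202_a : ∃ t, chk3 f_pp_202_a t 1 1 1 = true :=
  ⟨(l 3), by decide +kernel⟩

theorem c_pp_202_a : CertB 0 536870912 0 536870912 991146299 28908434 3 eng mog cd1q2a cd0q2 pd0 false true true .pp 2 0 2
    ndB1q2a ndB0q2 pcB0 Cut.none Ext.none :=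
  certB0 (fam := false) (s1 := true) (s2 := true) (a := 2) (b := 0) (c := 2) (cn := .pp) (n1 := ndB1q2a) (n2 := ndB0q2) (pc := pcB0) (cut := Cut.none) (xt := Ext.none) (P1 := 0) (W1 := 536870912) (P2 := 0) (W2 := 536870912) (P3 := 991146299) (W3 := 28908434) (N0 := 3) (En := eng) (mo := mog) (C1 := cd1q2a) (C2 := cd0q2) (C3 := pd0)
    rfl k0_pp_202_a

noncomputable def f_pp_202_b : ℕ → ℕ → ℕ → ℕ → Bool := onCell 1239849684 370763052 0 536870912 991146299 28908434
    (rowB 3 eng mog cd1q2b cd0q2 pd0 0 false true true .pp 2 0 2 (qsf 1239849684 370763052 0 536870912 0) ndB1q2b ndB0q2 pcB0 Cut.none Ext.none)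

def k0_pp_202_b : ∃ t, chk3 f_pp_202_b t 1 1 1 = true :=
  ⟨(l 3), by decide +kernel⟩

theorem c_pp_202_b : CertB 1239849684 370763052 0 536870912 991146299 28908434 3 eng mog cd1q2b cd0q2 pd0 false true true .pp 2 0 2
    ndB1q2b ndB0q2 pcB0 Cut.none Ext.none :=
  certB0 (fam := false) (s1 := true) (s2 := true) (a := 2) (b := 0) (c := 2) (cn := .pp) (n1 := ndB1q2b) (n2 := ndB0q2) (pc := pcB0) (cut := Cut.none) (xt := Ext.none) (P1 := 1239849684) (W1 := 370763052) (P2 := 0) (W2 := 536870912) (P3 := 991146299) (W3 := 28908434) (N0 := 3) (En := eng) (mo := mog) (C1 := cd1q2b) (C2 := cd0q2) (C3 := pd0)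
    rfl k0_pp_202_b

noncomputable def f_pm_001 : ℕ → ℕ → ℕ → ℕ → Bool := onCell 0 536870912 536870912 536870912 991146299 28908434
    (rowB 3 eng mog cd1q0 cd0q1 pd0 0 false true false .up 0 0 1 (qsf 0 536870912 536870912 536870912 0) ndB1q0 ndB0q1 pcB0 Cut.none Ext.none)

def k0_pm_001 : ∃ t, chk3 f_pm_001 t 1 1 1 = true :=
  ⟨(b (l 4) (b (a (l 4) (a (l 4) (b (l 4) (b (l 4) (a (a (l 4) (b (l 4) (a (l 4) (b (l 4) (l 92575548199))))) (a (b (l 4) (c (a (l 16308464) (l 16294360)) (a (l 16323080) (l 16314112)))) (b (c (a (l 16284288) (l 16269528)) (a (l 16298952) (l 16287536))) (c (l 16262840) (l 16315664))))))))) (a (l 2) (a (b (b (b (l 4) (l 2)) (l 2)) (l 2)) (a (b (b (a (b (a (l 4) (c (l 16252136) (l 16305424))) (a (a (l 2) (b (l 16326328) (l 2))) (c (l 16372128) (l 16379696)))) (b (c (a (l 16275760) (l 16327280)) (a (l 16270296) (l 16350000))) (c (l 16369392) (l 16290144)))) (a (b (c (l 16271128) (a (l 2) (l 16458832))) (l 2)) (b (c (l 16428952) (l 16289592)) (c (l 16357400)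 (b (l 16276928) (l 16188520)))))) (b (b (a (l 2) (c (l 340475452135) (l 186392764791))) (l 2)) (l 2))) (b (b (a (b (c (l 16319544) (l 16357368)) (c (l 16359504) (l 16425920))) (c (b (l 16309792) (l 16343264)) (b (l 16365576) (l 16363752)))) (a (b (c (l 16408976) (l 16319728)) (c (l 16315152) (b (l 16213488) (l 16133968)))) (b (c (l 16365208) (l 16254720)) (c (l 16276840) (l 16061016))))) (b (b (a (c (l 16170344) (l 15853592)) (c (b (l 16197824) (l 16143256)) (b (l 16009552) (l 15930904)))) (a (b (c (l 16038936) (a (l 15865104) (l 15877464))) (l 15806232)) (c (l 16141232) (l 15844400)))) (b (a (c (l 16147472) (l 15938376)) (c (l 16188632) (l 15991296))) (a (l 2) (l 103715021991)))))))))), by decide +kernel⟩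

theorem c_pm_001 : CertB 0 536870912 536870912 536870912 991146299 28908434 3 eng mog cd1q0 cd0q1 pd0 false true false .up 0 0 1
    ndB1q0 ndB0q1 pcB0 Cut.none Ext.none :=
  certB0 (fam := false) (s1 := true) (s2 := false) (a := 0) (b := 0) (c := 1) (cn := .up) (n1 := ndB1q0) (n2 := ndB0q1) (pc := pcB0) (cut := Cut.none) (xt := Ext.none) (P1 := 0) (W1 := 536870912) (P2 := 536870912) (W2 := 536870912) (P3 := 991146299) (W3 := 28908434) (N0 := 3) (En := eng) (mo := mog) (C1 := cd1q0) (C2 := cd0q1) (C3 := pd0)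
    rfl k0_pm_001

noncomputable def cut_pm_011 : Cut := Cut.of [[⟨0, 0, 0, 53687091⟩, ⟨1, 1, 0, 53687091⟩, ⟨2, 1, 0, 53687091⟩]]

noncomputable def f_pm_011 : ℕ → ℕ → ℕ → ℕ → Bool := onCell 536870912 536870912 536870912 536870912 991146299 28908434
    (rowB 3 eng mog cd1q0 cd0q1 pd1 2 false true false .pnn 0 1 1 (qsf 0 536870912 536870912 536870912 1) ndB1q0 ndB0q1 pcB1 cut_pm_011 Ext.none)

def k0_pm_011 : ∃ t, chk3 f_pm_011 t 2 1 1 = true :=
  ⟨(b (a (l 4) (b (a (b (l 1) (l 4)) (l 1)) (l 4))) (b (l 4) (b (a (a (b (b (l 4) (a (c (l 16373064) (l 16384440)) (a (l 68953439319) (l 16389792)))) (a (b (l 16383608) (l 16403208)) (b (a (l 16395256) (l 16405472)) (l 16418304)))) (b (l 4) (a (b (c (l 16365048) (l 69490354247)) (l 16434752)) (b (c (l 152168517271) (l 136062402727)) (a (l 16448360) (l 16397776)))))) (a (b (l 4) (b (l 4) (a (c (a (l 16473768) (l 16495488)) (a (l 16481296) (l 16501424))) (b (l 4) (a (l 16445976) (l 4)))))) (l 4))) (a (a (b (b (a (l 16376848) (l 16434136))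 (a (l 16292952) (l 16335384))) (b (l 16273904) (l 16254480))) (b (b (a (l 16455656) (l 16472176)) (a (l 16383520) (l 16439360))) (b (a (l 16325848) (l 16363688)) (l 16320832)))) (b (a (a (b (l 16427816) (l 16493784)) (b (a (l 16506296) (c (l 16515280) (l 16524560))) (l 16445192))) (b (a (c (b (l 16488504) (l 16537272)) (a (l 16520056) (l 16498608))) (b (l 4) (a (c (l 16566416) (l 16571512)) (l 179549274647)))) (a (c (l 16540752) (l 16558568)) (c (l 16567928) (a (l 16573536) (l 16585744)))))) (a (b (a (l 16381728) (b (l 16462456) (l 16424768))) (l 16387784)) (b (a (b (l 16515160) (l 16465272)) (b (l 16564440) (l 16510672))) (a (l 16438520) (l 16476024))))))))), by decide +kernel⟩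

def k1_pm_011 : ∃ t, chk3 f_pm_011 t 3 2 1 = true :=
  ⟨(a (b (l 1) (a (b (l 1) (l 4)) (l 1))) (l 1)), by decide +kernel⟩

def k2_pm_011 : ∃ t, chk3 f_pm_011 t 3 3 1 = true :=
  ⟨(a (b (l 4) (b (l 4) (a (b (b (l 4) (a (a (c (l 16593016) (l 16580752)) (b (b (l 4) (l 16594360)) (l 16608664))) (b (l 4) (a (c (l 16602872) (l 16630552)) (b (l 4) (l 16631888)))))) (a (b (c (l 16594736) (l 16574248)) (b (l 16518792) (l 16502176))) (b (b (a (l 16624640) (l 16638104)) (l 16584120)) (b (b (l 16569648) (l 16549760)) (l 16536800))))) (b (a (l 4) (l 4)) (b (b (a (a (c (l 16650336) (l 16658136)) (c (l 16670568) (l 16676808))) (a (c (l 16693104) (l 46942468279)) (l 4))) (a (a (l 16637768) (l 16658904)) (a (c (l 16674008) (l 16674704)) (c (l 16691664) (l 66269761367))))) (a (b (a (l 16591792) (l 16614400)) (l 16574408)) (b (a (l 16636096) (l 16657400)) (a (l 16601664) (l 16620872))))))))) (b (a (b (l 1) (l 4)) (l 1)) (b (l 4) (b (l 4) (a (b (b (l 4) (b (l 4) (a (a (c (l 16703552) (l 16704360))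 (a (l 16718840) (l 4))) (l 4)))) (a (b (a (c (l 16683744) (l 16673568)) (b (c (l 16709720) (l 16707968)) (l 16691056))) (a (l 16619600) (b (l 16670184) (l 16652616)))) (b (b (a (a (l 155390407415) (l 375507494759)) (l 4)) (a (a (l 16709424) (l 16719224)) (a (c (l 16722256) (l 16725968)) (c (l 16729016) (l 16742208))))) (a (b (l 16693488) (l 16672848)) (b (a (l 16711888) (l 16724392)) (b (l 16699800) (l 16688880))))))) (b (l 4) (a (a (a (b (b (l 4) (b (l 4) (b (l 4) (l 16731792)))) (b (c (l 16728544) (l 16732600)) (l 16710568))) (b (l 4) (b (c (l 16745176) (b (l 16737160) (l 16736832))) (b (l 16729088) (l 16715336))))) (l 6)) (l 6)))))))), by decide +kernel⟩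

theorem s3_pm_011 : ∃ t, chk3 f_pm_011 t 3 1 1 = true := ex3_b k1_pm_011 k2_pm_011

theorem s4_pm_011 : ∃ t, chk3 f_pm_011 t 1 1 1 = true := ex3_a k0_pm_011 s3_pm_011

theorem c_pm_011 : CertB 0 536870912 536870912 536870912 991146299 28908434 3 eng mog cd1q0 cd0q1 pd1 false true false .pnn 0 1 1
    ndB1q0 ndB0q1 pcB1 cut_pm_011 Ext.none :=
  certB2 (fam := false) (s1 := true) (s2 := false) (a := 0) (b := 1) (c := 1) (cn := .pnn) (n1 := ndB1q0) (n2 := ndB0q1) (pc := pcB1) (cut := cut_pm_011) (xt := Ext.none) (P1 := 0) (W1 := 536870912) (P2 := 536870912) (W2 := 536870912) (P3 := 991146299) (W3 := 28908434) (N0 := 3) (En := eng) (mo := mog) (C1 := cd1q0) (C2 := cd0q1) (C3 := pd1)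
    rfl (fun _ => rfl) s4_pm_011

noncomputable def cut_pm_012 : Cut := Cut.of [[⟨0, 0, 0, 53687091⟩, ⟨1, 1, 0, 53687091⟩, ⟨2, 1, 0, 53687091⟩]]

noncomputable def xt_pm_012 : Ext := extD3 3 ⟨4, 1, 1, 5, 22, 5, 21, 25, 41, 100, 1, 20⟩ eng cd1q0 cd0q2 pd1 false true false .pnp 0 1 2 rfl ndB1q0 ndB0q2 pcB1

noncomputable def f_pm_012 : ℕ → ℕ → ℕ → ℕ → Bool := onCell 536870912 536870912 0 536870912 991146299 28908434
    (rowB 3 eng mog cd1q0 cd0q2 pd1 2 false true false .pnp 0 1 2 (qsf 0 536870912 0 536870912 1) ndB1q0 ndB0q2 pcB1 cut_pm_012 xt_pm_012)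

def k0_pm_012 : ∃ t, chk3 f_pm_012 t 2 1 1 = true :=
  ⟨(b (a (b (l 2) (a (l 2) (b (l 2) (b (l 2) (a (l 2) (l 15535040)))))) (b (a (b (a (l 16276600) (l 16258192)) (a (l 16002336) (l 16029408))) (a (b (l 16283240) (l 16037152)) (b (l 16226576) (l 16025872)))) (a (b (a (b (l 15878008) (l 15713800)) (c (l 15821688) (l 15753728))) (b (a (b (l 15612416) (c (l 15599128) (l 15521160))) (b (l 15602624) (l 15624504))) (c (l 15670056) (l 15612856)))) (b (a (l 15676608) (b (l 15883688) (l 15794448))) (a (c (l 15747176) (l 15694792)) (c (l 15817312) (l 15775440))))))) (b (a (a (l 2) (b (a (l 2) (c (l 15713832) (l 15679960))) (b (a (l 15829824) (l 15849112)) (l 15847992)))) (a (b (c (a (l 15750080) (l 15792000)) (a (l 15722088) (l 15769872))) (a (b (l 15873320) (l 15974248)) (l 15759216))) (a (b (c (l 15839384) (l 15823072)) (l 15830288)) (b (c (l 15892000) (l 15881408)) (l 15885104))))) (a (b (a (b (l 15925928) (c (l 16045408) (b (l 16215240) (l 16250976)))) (b (l 15947664) (b (l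 16085432) (a (l 16217328) (l 16222368))))) (a (b (l 16244592) (l 16294408)) (b (l 16188616) (l 16242240)))) (b (b (a (l 15962760) (l 15910320)) (a (b (l 16173672) (l 16084384)) (a (l 16195312) (l 16227576)))) (a (b (l 16070976) (l 16190344)) (b (c (b (l 16268208) (l 16329920)) (l 16300704)) (c (l 16426928) (l 16479848)))))))), by decide +kernel⟩

def k1_pm_012 : ∃ t, chk3 f_pm_012 t 3 2 1 = true :=
  ⟨(a (b (a (a (b (l 16193576) (l 16037696)) (b (l 16184648) (l 16072720))) (a (b (l 16200144) (l 16130952)) (b (l 16240336) (l 16212312)))) (a (b (a (b (l 15930680) (l 15869952)) (b (l 16000080) (l 15965832))) (a (c (l 15896408) (l 15865120)) (l 15970800))) (b (a (b (l 16091640) (l 16075592)) (b (l 16203456) (l 16192336))) (a (l 16064792) (c (l 16162576) (l 16161920)))))) (a (b (a (b (l 16305480) (l 16316712)) (b (l 16395952) (l 16360264))) (b (a (b (l 16312904) (l 16311000)) (b (a (l 16441616) (l 16514192)) (a (l 16401464) (l 16462008)))) (a (c (l 16257832) (l 16266808)) (a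 (l 16338464) (l 16368896))))) (b (a (b (l 16428432) (l 16369208)) (b (l 16334320) (a (l 16326448) (b (l 16397752) (l 16249240))))) (a (a (b (l 16387936) (l 16357648)) (b (l 16434816) (l 16388488))) (b (c (l 16303976) (l 16294824)) (a (l 16419320) (l 16343552))))))), by decide +kernel⟩

def k2_pm_012 : ∃ t, chk3 f_pm_012 t 3 6 1 = true :=
  ⟨(a (a (b (a (l 15821112) (c (l 16011808) (l 16012304))) (a (l 15902696) (c (l 16082056) (l 16104064)))) (b (a (c (l 16078408) (l 16084176)) (c (l 16149016) (l 16159816))) (a (b (l 16119568) (l 16161968)) (b (l 16176624) (l 16209648))))) (a (b (a (c (l 16223296) (l 16238816)) (a (l 16290232) (l 16330776))) (a (b (l 16237856) (l 16261992)) (b (l 16303040) (l 16276960)))) (a (b (b (l 16320840) (l 16275808)) (b (a (l 16354256) (l 16389504)) (a (l 16364368) (l 16396080)))) (b (a (a (l 16382120) (l 16382264)) (c (l 16400536) (l 16428184))) (b (a (l 16425512) (l 16441208)) (a (l 16428808) (b (l 16459880) (l 16465016)))))))), by decide +kernel⟩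

def k3_pm_012 : ∃ t, chk3 f_pm_012 t 3 7 1 = true :=
  ⟨(a (a (a (b (b (l 16155296) (l 16244752)) (b (c (l 16304848) (l 16385944)) (l 16409024))) (b (b (l 16184760) (l 16266760)) (b (c (l 16284208) (l 16401920)) (l 16351376)))) (b (a (b (l 16219152) (l 16293880)) (b (l 16258592) (l 16326384))) (b (b (a (l 16362880) (l 16390664)) (a (l 16341512) (c (l 16426992) (l 16469296)))) (a (b (l 16503992) (l 16585776)) (b (l 16464088) (l 16550656)))))) (b (a (a (b (l 16303168) (l 16301624)) (b (a (l 16339896) (l 16366080)) (a (l 16396840) (l 16420328)))) (a (b (a (l 16393576) (l 16422360)) (a (l 16445352) (l 16388024))) (b (a (b (l 16443712) (l 16461152)) (b (l 16475512) (l 16450000))) (a (b (l 16484928) (l 16515160)) (a (b (l 16507216) (l 16536960)) (b (l 16522576) (l 16552056))))))) (a (b (a (b (l 16424880) (b (l 16461048) (l 16405648))) (b (l 16423520) (l 16429232))) (a (b (c (l 16450680) (l 16566040)) (a (l 16633944) (l 16626224))) (b (b (a (l 16524992) (l 16542064)) (a (l 16568072)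 (l 16538048))) (a (l 16576288) (b (l 16627376) (l 16676160)))))) (b (a (a (b (l 16500144) (l 16546832)) (b (l 16525512) (l 16529776))) (b (a (a (l 16545640) (l 16559656)) (a (l 16553160) (l 6))) (a (a (l 16591592) (l 16563552)) (l 6)))) (a (b (b (a (l 16585248) (l 16609856)) (a (c (l 16585920) (l 16604344)) (a (l 16609208) (l 16642848)))) (a (b (l 592506679320529994164287) (a (l 16706776) (l 16692072))) (a (b (l 593799969201254033452671) (a (l 16717680) (l 6))) (l 6)))) (b (a (a (l 16601056) (l 6)) (l 6)) (l 6))))))), by decide +kernel⟩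

theorem s4_pm_012 : ∃ t, chk3 f_pm_012 t 3 3 1 = true := ex3_b k2_pm_012 k3_pm_012

theorem s5_pm_012 : ∃ t, chk3 f_pm_012 t 3 1 1 = true := ex3_b k1_pm_012 s4_pm_012

theorem s6_pm_012 : ∃ t, chk3 f_pm_012 t 1 1 1 = true := ex3_a k0_pm_012 s5_pm_012

theorem c_pm_012 : CertB 0 536870912 0 536870912 991146299 28908434 3 eng mog cd1q0 cd0q2 pd1 false true false .pnp 0 1 2
    ndB1q0 ndB0q2 pcB1 cut_pm_012 xt_pm_012 :=
  certB2 (fam := false) (s1 := true) (s2 := false) (a := 0) (b := 1) (c := 2) (cn := .pnp) (n1 := ndB1q0) (n2 := ndB0q2) (pc := pcB1) (cut := cut_pm_012) (xt := xt_pm_012) (P1 := 0) (W1 := 536870912) (P2 := 0) (W2 := 536870912) (P3 := 991146299) (W3 := 28908434) (N0 := 3) (En := eng) (mo := mog) (C1 := cd1q0) (C2 := cd0q2) (C3 := pd1)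
    rfl (fun _ => rfl) s6_pm_012

noncomputable def cut_pm_022 : Cut := Cut.of [[⟨0, 0, 0, 53687091⟩, ⟨1, 1, 0, 53687091⟩, ⟨2, 1, 0, 53687091⟩]]

noncomputable def f_pm_022 : ℕ → ℕ → ℕ → ℕ → Bool := onCell 0 536870912 0 536870912 991146299 28908434
    (rowB 3 eng mog cd1q0 cd0q2 pd2 0 false true false .pp 0 2 2 (qsf 0 536870912 0 536870912 2) ndB1q0 ndB0q2 pcB2 cut_pm_022 Ext.none)

def k0_pm_022 : ∃ t, chk3 f_pm_022 t 4 2 1 = true :=
  ⟨(b (a (a (b (c (l 16194880) (l 16149664)) (c (a (l 16175208) (l 16172536)) (a (l 16136080) (l 16108080)))) (b (c (l 16208744) (l 16119792)) (c (l 16170888) (l 16070128)))) (c (b (a (l 16225992) (l 16246416)) (a (l 16151816) (l 16053392))) (a (b (l 16096560) (c (l 16064272) (l 15988648))) (b (l 16079880) (c (l 16039912) (l 15942544)))))) (a (b (a (b (c (a (l 16151872) (l 16143456)) (a (l 16101488) (l 16065992))) (c (a (l 16133560) (l 16151664)) (a (l 16097592) (l 16069288)))) (b (c (a (l 16136000) (l 16129504)) (b (l 16022848) (l 15922048)))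 (c (a (l 16147944) (l 16143144)) (a (l 16040408) (l 16010704))))) (a (b (c (a (a (l 16144376) (l 16148168)) (l 16174352)) (a (b (l 16102392) (l 16106824)) (l 16088576))) (c (a (b (l 16180480) (a (l 16165144) (l 16196152))) (b (l 16194976) (l 16210656))) (a (c (l 16113104) (l 16077560)) (b (l 16106800) (l 16121136))))) (c (b (a (l 16180288) (l 16184616)) (a (l 16217856) (l 16230768))) (b (a (l 16072080) (l 16054128)) (a (l 16109088) (l 16102240)))))) (b (b (a (c (a (l 16123984) (l 16119416)) (a (l 15970152) (l 15941848))) (c (l 16115528) (a (l 15915312) (l 15892160)))) (a (c (a (l 16136928) (l 16129208)) (a (l 15979792) (l 15947544))) (c (a (l 16056536) (b (l 16093312) (l 16127048))) (b (a (l 15895368) (b (l 15853968) (l 15869160))) (l 15790576))))) (c (a (b (a (l 16186824) (l 16186752)) (a (l 16240824) (l 16247840))) (b (c (l 16232008) (l 16132104)) (c (l 16300112) (l 16205056)))) (a (b (a (l 16034160) (l 16011984)) (a (l 16092528) (l 16079760))) (b (a (l 15987688) (l 15961376))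 (a (l 16064136) (l 16045792)))))))), by decide +kernel⟩

def k1_pm_022 : ∃ t, chk3 f_pm_022 t 5 2 1 = true :=
  ⟨(a (b (a (c (b (l 16185848) (c (l 16243272) (l 16135240))) (b (c (l 16121088) (l 16016768)) (c (l 16022456) (l 15905128)))) (b (l 1) (l 1))) (a (b (b (c (l 16115528) (c (l 15927920) (l 15796600))) (a (c (b (l 16085200) (l 16116456)) (b (b (l 15826304) (l 15831792)) (l 15865728))) (b (l 1) (l 1)))) (a (c (b (l 16173816) (l 16252336)) (b (l 15933128) (l 16024856))) (l 1))) (l 1))) (l 1)), by decide +kernel⟩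

def k2_pm_022 : ∃ t, chk3 f_pm_022 t 8 12 1 = true :=
  ⟨(a (b (a (c (b (a (l 16176544) (l 16210104)) (c (l 16236760) (l 16179648))) (b (a (l 16108424) (l 16133024)) (a (l 16140880) (l 16147696)))) (c (c (l 16238792) (l 16215728)) (c (l 16170280) (l 16123408)))) (a (c (b (a (c (l 16223816) (l 16188872)) (l 16245032)) (a (c (c (l 16251848) (l 16234384)) (l 16218184)) (b (l 16260912) (l 16272400)))) (b (a (c (l 16152872) (l 16115840)) (l 16165424)) (a (c (l 16171192) (l 16133624)) (b (l 16180968) (l 16192448))))) (c (b (a (l 16262040) (l 16278344)) (a (l 16285880) (l 16304232))) (b (a (l 16174800) (l 16183440)) (c (l 16227856) (l 16181184)))))) (c (b (a (b (l 16250488) (l 16274616)) (l 16241176)) (a (b (l 16301000) (l 16308728)) (b (l 16327368) (l 16359464)))) (b (a (b (l 16142136) (l 16166960)) (l 16115688)) (a (b (l 16194528) (l 16224968)) (b (l 16205288) (l 16240248)))))), by decide +kernel⟩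

def k3_pm_022 : ∃ t, chk3 f_pm_022 t 16 13 2 = true :=
  ⟨(b (c (a (b (a (b (l 16259528) (l 16271384)) (l 16310240)) (a (a (b (l 16277520) (l 16290720)) (l 16297256)) (l 16337600))) (b (l 16344224) (l 16332344))) (a (b (a (b (l 16223960) (l 16235872)) (l 16271640)) (a (a (b (l 16242872) (l 16256312)) (l 16261352)) (l 16299632))) (b (l 16301024) (a (l 16321640) (l 16342256))))) (a (a (b (b (c (a (l 16310688) (l 16339744)) (c (l 16291168) (l 16273576))) (c (a (b (l 16315896) (l 16323576)) (l 16355128)) (a (b (l 16282208) (l 16290168)) (l 16320400)))) (c (c (a (b (l 16343600) (l 16360064)) (l 16367040)) (a (b (l 16327368) (l 16346816)) (l 16350456))) (b (a (c (l 16310896) (l 16294176)) (l 16316312)) (a (a (a (b (l 16331096) (l 16339952)) (l 16318144)) (l 16323536)) (l 16334152))))) (b (c (b (l 16360144) (l 16376136)) (b (l 16322968) (l 16339616))) (c (b (l 16392928) (l 16410536)) (b (l 16357192) (l 16375696))))) (a (b (c (l 16394416) (l 16355048)) (c (l 16429496) (l 16391952)))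 (b (l 16356632) (c (l 16455856) (l 16416032)))))), by decide +kernel⟩

def k4_pm_022 : ∃ t, chk3 f_pm_022 t 16 13 3 = true :=
  ⟨(b (a (b (a (c (a (l 16196480) (l 16197656)) (b (l 16149640) (l 16161664))) (c (l 16231856) (l 16190880))) (c (a (a (b (l 16207200) (l 16220896)) (l 16224360)) (l 16260504)) (a (b (l 16185320) (a (l 16184464) (l 16214792))) (l 16220200)))) (b (c (l 16256424) (l 16210440)) (a (a (l 16253840) (l 16262272)) (l 16274264)))) (a (b (a (c (b (c (l 16255072) (l 16235000)) (a (b (l 16247536) (l 16255768)) (l 16284632))) (b (c (l 16214016) (l 16195400)) (a (b (l 16211864) (l 16220392)) (l 16247816)))) (c (b (l 16284648) (l 16301976)) (b (l 16245176) (l 16263216)))) (a (c (b (a (c (l 16277224) (l 16260024)) (l 16281240)) (a (a (b (l 16278840) (l 16288128)) (l 16290104)) (l 16299912))) (b (a (c (l 16242584) (l 16224896)) (l 16245152)) (a (a (b (l 16244816) (l 16257144)) (l 16255720)) (l 16264672)))) (c (b (l 16320352) (l 16339800)) (b (l 16282424) (l 16302824)))))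 (b (a (c (l 16314424) (l 16272560)) (c (l 16334160) (l 16289512))) (a (c (l 16353232) (l 16313312)) (c (l 16374904) (l 16332480)))))), by decide +kernel⟩

def k5_pm_022 : ∃ t, chk3 f_pm_022 t 17 13 1 = true :=
  ⟨(c (b (a (b (l 16277008) (c (l 16418472) (l 16370616))) (b (l 16372896) (l 16388784))) (a (b (c (l 16454160) (l 16408320)) (a (l 16417872) (l 16461040))) (c (b (l 16495600) (l 16536440)) (l 16361000)))) (b (a (b (c (l 16284824) (l 16232024)) (c (l 16321136) (l 16270040))) (b (l 16278208) (l 16298464))) (a (b (c (l 16360936) (l 16312000)) (c (l 16404432) (l 16358128))) (b (l 16301232) (l 16307696))))), by decide +kernel⟩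

def k6_pm_022 : ∃ t, chk3 f_pm_022 t 9 6 1 = true :=
  ⟨(a (a (b (b (c (l 16300272) (l 16157312)) (c (l 16261808) (l 16104752))) (b (c (b (l 16400912) (l 16398520)) (b (l 16292536) (l 16337464))) (c (a (l 16391400) (l 16428144)) (b (l 16364680) (l 16374392))))) (b (c (b (l 16313760) (l 16302088)) (b (l 16153240) (l 16213448))) (b (c (l 16318912) (b (l 16301800) (l 16350064))) (a (b (l 16273768) (l 1)) (l 1))))) (a (b (c (b (l 16302776) (b (l 16381336) (l 16421640))) (b (l 16145568) (l 16212968))) (b (c (l 16359544) (l 16226440)) (l 1))) (b (b (c (l 16288456) (l 16134472)) (l 1)) (l 1)))), by decide +kernel⟩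

def k7_pm_022 : ∃ t, chk3 f_pm_022 t 5 6 1 = true :=
  ⟨(l 1), by decide +kernel⟩

def k8_pm_022 : ∃ t, chk3 f_pm_022 t 16 28 2 = true :=
  ⟨(c (a (a (b (b (a (a (b (l 16361272) (l 16370208)) (l 16373616)) (l 16385296)) (a (a (b (l 16379368) (l 16388744)) (l 16392120)) (l 16425040))) (a (a (b (c (l 16410296) (l 16398616)) (c (l 16429944) (l 16423448))) (b (l 16411432) (l 16442032))) (b (l 16444616) (l 16464976)))) (b (b (l 16428976) (l 16448272)) (b (l 16468352) (l 16468224)))) (a (b (l 16467784) (l 16467272)) (b (l 16495456) (l 16538080)))) (a (a (b (b (a (a (b (l 16329944) (l 16341952)) (l 16342032)) (l 16352976)) (a (a (b (l 16352752) (b (l 16356376) (l 16361376))) (l 16372024)) (l 16393776))) (a (c (b (b (l 16380368) (l 16390616)) (b (l 16401088) (l 16411800))) (b (b (l 16365384) (l 16375928)) (b (l 16391960) (l 16403000)))) (b (l 16414536) (l 16436200)))) (b (b (l 16395176) (l 16415624)) (b (l 16436976) (l 16412032)))) (b (a (l 16432568) (l 16458200)) (a (l 16413888)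 (l 16503880))))), by decide +kernel⟩

def k9_pm_022 : ∃ t, chk3 f_pm_022 t 16 28 3 = true :=
  ⟨(a (a (b (c (b (a (a (b (b (l 16316248) (l 16321104)) (a (l 16305792) (l 16330280))) (l 16319992)) (l 16319696)) (a (a (b (b (l 16315144) (l 16320288)) (b (l 16325504) (l 16330776))) (l 16343160)) (l 16361584))) (b (a (a (b (a (l 16262936) (l 16287096)) (b (l 16272264) (l 16277512))) (l 16286544)) (l 16285448)) (a (b (c (l 16297056) (l 16280624)) (a (b (l 16293752) (l 16301936)) (l 16324248))) (l 16328456)))) (a (c (c (b (b (l 16352808) (l 16365624)) (b (l 16377384) (l 16390064))) (b (a (b (l 16352112) (l 16363200)) (l 16364920)) (a (b (l 16353600) (l 16365248)) (l 16366936)))) (b (a (b (b (l 16307568) (l 16314584)) (b (l 16320360) (l 16326864))) (a (l 16329240) (l 16322208))) (a (b (c (l 16338720) (l 16323632)) (c (l 16350712) (l 16335968))) (c (l 16352008) (l 16336880))))) (c (b (l 16383560) (l 16406560)) (b (l 16351688) (l 16376072))))) (b (c (b (l 16360328) (l 16381976)) (b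 (l 16324456) (l 16347328))) (c (b (l 16404648) (a (l 16421184) (l 16435344))) (b (l 16371360) (a (l 16389816) (l 16403096)))))) (a (b (c (l 16375264) (l 16316848)) (c (b (l 16431208) (l 16455752)) (b (l 16395960) (l 16422120)))) (b (c (l 16419736) (l 16380056)) (c (l 16468560) (l 16432128))))), by decide +kernel⟩

def k10_pm_022 : ∃ t, chk3 f_pm_022 t 16 29 1 = true :=
  ⟨(b (b (a (a (c (a (c (a (b (l 16449112) (l 16459728)) (l 16473480)) (c (b (l 16422744) (l 16433936)) (b (l 16414296) (l 16425848)))) (c (l 16475688) (b (l 16432096) (l 16464632)))) (c (a (c (b (l 16403024) (l 16416256)) (a (b (l 16377192) (l 16389432)) (l 16391056))) (a (l 16426816) (l 16434464))) (a (a (b (c (l 16363008) (l 16348624)) (c (l 16375624) (l 16361624))) (b (l 16363272) (l 16376200))) (a (l 16398040) (l 16405288))))) (c (c (l 16468912) (a (l 16474648) (l 16490024))) (c (a (l 16445712) (l 16460312)) (a (l 16415936) (l 16429704))))) (c (a (c (l 16542256) (l 16512264)) (l 16514336)) (a (c (l 16481336)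 (l 16449448)) (l 16470056)))) (b (a (a (c (a (c (c (l 16470736) (l 16458152)) (c (l 16445384) (l 16442920))) (a (l 16480216) (l 16493792))) (a (c (c (l 16429776) (a (l 16401976) (l 16430904))) (a (c (l 16388560) (l 16374960)) (l 16389464))) (c (l 16449480) (l 16421728)))) (c (c (l 16527648) (l 16500424)) (c (l 16472368) (l 16443480)))) (c (a (l 16524272) (l 16553608)) (a (l 16465120) (l 16512224)))) (l 6))) (l 6)), by decide +kernel⟩

def k11_pm_022 : ∃ t, chk3 f_pm_022 t 17 14 1 = true :=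
  ⟨(b (c (a (b (c (l 16471128) (l 16451680)) (c (l 16494448) (l 16478408))) (b (l 16431968) (a (l 16553104) (l 16595424)))) (a (b (a (l 16336816) (l 16418672)) (c (l 16440128) (l 16400592))) (b (c (l 16488704) (l 16440648)) (a (l 16470312) (l 16466360))))) (b (a (c (a (l 16491032) (l 16537704)) (c (l 16474120) (a (l 16511736) (l 16532896)))) (c (a (l 16577968) (l 16564400)) (b (l 16481640) (l 16491616)))) (a (l 6) (a (c (l 16524336) (l 16551016)) (l 1))))), by decide +kernel⟩

def k12_pm_022 : ∃ t, chk3 f_pm_022 t 8 15 1 = true :=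
  ⟨(a (l 6) (a (l 6) (l 1))), by decide +kernel⟩

def k13_pm_022 : ∃ t, chk3 f_pm_022 t 9 7 1 = true :=
  ⟨(a (a (b (b (b (c (l 16511512) (l 16408760)) (c (l 16489648) (l 16425736))) (l 1)) (l 1)) (l 1)) (l 1)), by decide +kernel⟩

def k14_pm_022 : ∃ t, chk3 f_pm_022 t 5 7 1 = true :=
  ⟨(l 1), by decide +kernel⟩

def k15_pm_022 : ∃ t, chk3 f_pm_022 t 3 1 1 = true :=
  ⟨(l 1), by decide +kernel⟩

theorem s16_pm_022 : ∃ t, chk3 f_pm_022 t 16 28 1 = true := ex3_c k8_pm_022 k9_pm_022

theorem s17_pm_022 : ∃ t, chk3 f_pm_022 t 16 14 1 = true := ex3_b s16_pm_022 k10_pm_022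

theorem s18_pm_022 : ∃ t, chk3 f_pm_022 t 8 14 1 = true := ex3_a s17_pm_022 k11_pm_022

theorem s19_pm_022 : ∃ t, chk3 f_pm_022 t 8 7 1 = true := ex3_b s18_pm_022 k12_pm_022

theorem s20_pm_022 : ∃ t, chk3 f_pm_022 t 4 7 1 = true := ex3_a s19_pm_022 k13_pm_022

theorem s21_pm_022 : ∃ t, chk3 f_pm_022 t 2 7 1 = true := ex3_a s20_pm_022 k14_pm_022

theorem s22_pm_022 : ∃ t, chk3 f_pm_022 t 16 13 1 = true := ex3_c k3_pm_022 k4_pm_022

theorem s23_pm_022 : ∃ t, chk3 f_pm_022 t 8 13 1 = true := ex3_a s22_pm_022 k5_pm_022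

theorem s24_pm_022 : ∃ t, chk3 f_pm_022 t 8 6 1 = true := ex3_b k2_pm_022 s23_pm_022

theorem s25_pm_022 : ∃ t, chk3 f_pm_022 t 4 6 1 = true := ex3_a s24_pm_022 k6_pm_022

theorem s26_pm_022 : ∃ t, chk3 f_pm_022 t 2 6 1 = true := ex3_a s25_pm_022 k7_pm_022

theorem s27_pm_022 : ∃ t, chk3 f_pm_022 t 2 3 1 = true := ex3_b s26_pm_022 s21_pm_022

theorem s28_pm_022 : ∃ t, chk3 f_pm_022 t 2 2 1 = true := ex3_a k0_pm_022 k1_pm_022

theorem s29_pm_022 : ∃ t, chk3 f_pm_022 t 2 1 1 = true := ex3_b s28_pm_022 s27_pm_022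

theorem s30_pm_022 : ∃ t, chk3 f_pm_022 t 1 1 1 = true := ex3_a s29_pm_022 k15_pm_022

theorem c_pm_022 : CertB 0 536870912 0 536870912 991146299 28908434 3 eng mog cd1q0 cd0q2 pd2 false true false .pp 0 2 2
    ndB1q0 ndB0q2 pcB2 cut_pm_022 Ext.none :=
  certB0 (fam := false) (s1 := true) (s2 := false) (a := 0) (b := 2) (c := 2) (cn := .pp) (n1 := ndB1q0) (n2 := ndB0q2) (pc := pcB2) (cut := cut_pm_022) (xt := Ext.none) (P1 := 0) (W1 := 536870912) (P2 := 0) (W2 := 536870912) (P3 := 991146299) (W3 := 28908434) (N0 := 3) (En := eng) (mo := mog) (C1 := cd1q0) (C2 := cd0q2) (C3 := pd2)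
    rfl s30_pm_022

noncomputable def f_pm_101 : ℕ → ℕ → ℕ → ℕ → Bool := onCell 0 536870912 536870912 536870912 991146299 28908434
    (rowB 3 eng mog cd1q1 cd0q1 pd0 2 false true false .npn 1 0 1 (qsf 536870912 536870912 536870912 536870912 0) ndB1q1 ndB0q1 pcB0 Cut.none Ext.none)

def k0_pm_101 : ∃ t, chk3 f_pm_101 t 2 2 1 = true :=
  ⟨(a (b (l 4) (b (l 4) (b (l 4) (a (a (b (l 16364912) (l 16397864)) (a (l 16477432) (l 16511584))) (a (a (l 16620320) (l 4)) (l 4)))))) (l 4)), by decide +kernel⟩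

def k1_pm_101 : ∃ t, chk3 f_pm_101 t 4 3 1 = true :=
  ⟨(b (b (a (a (b (l 16198096) (a (l 16131720) (l 16143568))) (b (l 16340536) (l 16201120))) (b (a (a (l 16457784) (l 16504560)) (a (l 16523904) (l 16555992))) (a (l 16297872) (l 16323568)))) (a (a (b (l 15999160) (c (l 16028112) (l 15838280))) (b (l 16075272) (l 15897656))) (a (b (l 15911280) (l 15796792)) (b (c (l 16237104) (l 16176864)) (l 15938576))))) (a (b (a (b (b (a (l 15976936) (l 15898432)) (l 15956864)) (a (l 15888400) (l 15900312))) (a (b (b (l 15838560) (l 15835848)) (a (l 15905280) (l 15839248))) (b (b (l 15832984) (l 15807720)) (l 15792176)))) (a (b (b (l 15837040) (c (l 15821888) (l 15786264))) (b (a (a (l 15802688) (l 15782480)) (l 15752048)) (c (a (b (l 15800416) (l 15795712)) (l 15728312)) (b (l 15722032) (l 15716424))))) (a (b (a (l 15801224) (l 15796376)) (a (b (l 15720640) (l 15675392)) (b (l 15703272) (l 15648032)))) (b (b (l 15791688) (l 15784864)) (b (l 15719944) (a (l 15653856) (l 15677192)))))))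 (b (a (b (b (l 15972904) (a (l 15815792) (l 15840336))) (a (l 15780096) (l 15794280))) (b (b (l 15937208) (l 15883680)) (l 15832016))) (a (b (a (b (l 15759440) (l 15748408)) (b (l 15765344) (l 15754040))) (a (b (l 15729416) (l 15708072)) (b (l 15747016) (l 15756576)))) (b (b (l 15797944) (l 15785224)) (b (l 15782440) (l 15804872))))))), by decide +kernel⟩

def k2_pm_101 : ∃ t, chk3 f_pm_101 t 5 3 1 = true :=
  ⟨(b (b (a (b (a (b (l 4) (l 16560448)) (l 4)) (a (b (l 16503896) (l 16412640)) (b (l 16549152) (l 16467352)))) (b (l 4) (a (b (l 63048453575) (a (l 16499496) (l 16514288))) (c (l 75396032983) (b (l 4) (l 16516248)))))) (a (b (a (c (l 16305992) (l 16248920)) (c (l 16357952) (l 16304376))) (a (l 15962656) (c (l 16198304) (l 16116728)))) (b (a (c (l 16395784) (l 16348192)) (c (l 16402904) (l 16280760))) (a (c (l 16233392) (l 16151720)) (c (l 16257712) (l 16178920)))))) (b (a (b (a (b (l 15996264) (l 16077880)) (b (l 16038928) (l 15963920))) (a (l 15878936) (b (l 15921384)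 (l 15895448)))) (b (a (c (l 16080472) (l 15966552)) (c (l 16096640) (l 15978568))) (a (b (l 16158704) (l 15903256)) (b (c (l 15989176) (l 15845816)) (l 15891536))))) (a (b (a (l 15837536) (l 15868904)) (a (b (l 15828128) (l 15849688)) (l 15819904))) (b (a (l 15881304) (l 15645648)) (a (l 15872560) (l 15869584)))))), by decide +kernel⟩

def k3_pm_101 : ∃ t, chk3 f_pm_101 t 3 2 1 = true :=
  ⟨(l 4), by decide +kernel⟩

def k4_pm_101 : ∃ t, chk3 f_pm_101 t 3 6 1 = true :=
  ⟨(b (a (l 4) (l 1)) (a (a (b (b (a (c (l 16481208) (l 16443608)) (a (l 16459712) (l 4))) (a (l 16283952) (a (l 16411416) (l 74322060711)))) (a (c (l 16276128) (l 16204008)) (c (l 16293664) (l 16127488)))) (b (a (b (l 4) (c (l 16354648) (l 56605281527))) (l 4)) (a (c (b (l 16364520) (l 16266720)) (b (l 16333608) (l 16205552))) (b (c (l 214243922839) (a (l 16366640) (l 16384312))) (c (l 16292984) (l 16249552)))))) (a (b (l 1) (a (b (l 1) (c (l 339334716503) (l 375841829303))) (l 1))) (l 1)))), by decide +kernel⟩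

def k5_pm_101 : ∃ t, chk3 f_pm_101 t 3 7 1 = true :=
  ⟨(a (b (a (b (a (c (l 16105104) (l 15986400)) (c (l 16110416) (l 15995128))) (b (a (c (l 15982552) (l 15829656)) (l 15901120)) (a (l 15865872) (b (l 15834024) (l 15821552))))) (b (a (c (l 16117064) (b (l 16075784) (l 15945728))) (c (b (l 16184808) (l 16075768)) (b (l 16107192) (l 15963432)))) (b (a (l 15852912) (c (l 15966552) (l 15818904))) (a (c (l 15883392) (l 15703216)) (c (l 15859352) (l 15675824)))))) (b (a (a (b (l 15858040) (l 15854248)) (b (l 15823008) (l 15825184))) (a (b (l 15777728) (l 15786968)) (b (a (l 15738208) (l 15711368)) (l 15741512)))) (a (a (b (l 15851944) (l 15862664)) (b (l 15827504) (l 15841128))) (a (c (l 15865632) (l 15736488)) (c (l 15836752) (l 15696320)))))) (b (a (b (b (a (c (l 16213080) (l 16154120)) (l 1)) (a (c (l 16092464) (l 15994976)) (c (l 16122824) (l 16044728)))) (a (c (b (l 15970792) (l 15848288)) (b (l 15833800) (l 15670696))) (c (b (l 15986640) (l 15848608)) (b (l 15864920)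 (l 15681728))))) (a (a (b (l 1) (c (l 15932232) (l 189546529431))) (l 1)) (l 1))) (b (a (b (b (a (a (l 15681144) (l 15661176)) (a (l 15648696) (l 15645808))) (a (l 15671032) (a (l 15625400) (l 15598456)))) (a (l 15690504) (l 15635416))) (b (a (c (b (l 15743912) (l 113311433159)) (b (l 15553928) (a (l 15468976) (l 15457344)))) (l 1)) (a (a (l 15592000) (l 15562592)) (b (l 1) (l 15531000))))) (b (a (a (l 15714384) (l 15668264)) (a (c (l 15707736) (l 15527480)) (a (l 15582704) (l 15557864)))) (a (a (l 15746832) (l 15709392)) (a (l 15712512) (a (l 15640824) (l 15621152)))))))), by decide +kernel⟩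

theorem s6_pm_101 : ∃ t, chk3 f_pm_101 t 3 3 1 = true := ex3_b k4_pm_101 k5_pm_101

theorem s7_pm_101 : ∃ t, chk3 f_pm_101 t 3 1 1 = true := ex3_b k3_pm_101 s6_pm_101

theorem s8_pm_101 : ∃ t, chk3 f_pm_101 t 2 3 1 = true := ex3_a k1_pm_101 k2_pm_101

theorem s9_pm_101 : ∃ t, chk3 f_pm_101 t 2 1 1 = true := ex3_b k0_pm_101 s8_pm_101

theorem s10_pm_101 : ∃ t, chk3 f_pm_101 t 1 1 1 = true := ex3_a s9_pm_101 s7_pm_101

theorem c_pm_101 : CertB 536870912 536870912 536870912 536870912 991146299 28908434 3 eng mog cd1q1 cd0q1 pd0 false true false .npn 1 0 1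
    ndB1q1 ndB0q1 pcB0 Cut.none Ext.none :=
  certB2 (fam := false) (s1 := true) (s2 := false) (a := 1) (b := 0) (c := 1) (cn := .npn) (n1 := ndB1q1) (n2 := ndB0q1) (pc := pcB0) (cut := Cut.none) (xt := Ext.none) (P1 := 536870912) (W1 := 536870912) (P2 := 536870912) (W2 := 536870912) (P3 := 991146299) (W3 := 28908434) (N0 := 3) (En := eng) (mo := mog) (C1 := cd1q1) (C2 := cd0q1) (C3 := pd0)
    rfl (fun _ => rfl) s10_pm_101

noncomputable def xt_pm_102 : Ext := extD3 3 ⟨4, 1, 1, 5, 22, 5, 21, 25, 41, 100, 1, 20⟩ eng cd1q1 cd0q2 pd0 false true false .npp 1 0 2 rfl ndB1q1 ndB0q2 pcB0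

noncomputable def f_pm_102 : ℕ → ℕ → ℕ → ℕ → Bool := onCell 0 536870912 0 536870912 991146299 28908434
    (rowB 3 eng mog cd1q1 cd0q2 pd0 2 false true false .npp 1 0 2 (qsf 536870912 536870912 0 536870912 0) ndB1q1 ndB0q2 pcB0 Cut.none xt_pm_102)

def k0_pm_102 : ∃ t, chk3 f_pm_102 t 4 2 1 = true :=
  ⟨(b (l 2) (a (l 2) (a (l 2) (b (l 2) (b (l 2) (a (l 2) (a (l 2) (b (l 3) (c (b (l 134921420759) (a (l 153711960199) (l 16331688))) (b (l 135995189447) (l 131700242407))))))))))), by decide +kernel⟩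

def k1_pm_102 : ∃ t, chk3 f_pm_102 t 5 4 1 = true :=
  ⟨(a (l 3) (l 3)), by decide +kernel⟩

def k2_pm_102 : ∃ t, chk3 f_pm_102 t 5 10 1 = true :=
  ⟨(a (a (l 3) (b (l 3) (a (l 3) (b (l 3) (a (l 3) (b (l 3) (a (l 166060058119) (b (l 164986303479) (l 175186853463))))))))) (a (b (a (l 3) (a (l 3) (c (l 189682411047) (l 183239991335)))) (a (b (a (l 3) (b (l 3) (a (l 3) (l 173039406391)))) (a (b (c (l 173576264359) (l 173576260711)) (a (b (l 174649990519) (l 16376560)) (l 16359176))) (b (a (b (l 174113137335) (l 16364520)) (l 177334369223)) (l 16363408)))) (b (a (b (b (l 3) (l 175186910455)) (a (b (l 173576284263) (l 174113152647)) (l 173039422615))) (b (a (b (l 174113174039) (l 169818206199)) (l 169281347799)) (l 16383336))) (a (b (l 16372912) (l 16389864)) (l 16397464))))) (b (a (b (l 3) (a (b (l 3) (a (l 164449522327) (l 166060145031))) (c (l 160154572711) (l 167670784711)))) (b (b (a (l 3) (l 180018836471)) (a (l 179481946279) (l 158544025127))) (a (b (l 16419752) (l 16434344))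 (l 16444200)))) (a (b (a (b (l 16394656) (l 16410336)) (l 16419104)) (l 16384632)) (b (l 16407064) (l 16415920)))))), by decide +kernel⟩

def k3_pm_102 : ∃ t, chk3 f_pm_102 t 5 11 1 = true :=
  ⟨(b (a (a (a (l 3) (b (l 3) (b (l 3) (a (a (l 3) (l 158543789831)) (c (b (l 167133748983) (l 174113083175)) (l 176797406327)))))) (b (a (a (l 3) (b (l 3) (c (b (l 166596895799) (l 174113104407)) (l 176797445655)))) (a (a (b (l 166596894759) (b (l 177871183063) (l 16361480))) (b (b (l 165523161719) (l 177334322039)) (l 16364440))) (b (a (b (l 176260587719) (l 16368528)) (l 16371808)) (l 16368216)))) (a (c (a (b (b (l 167133755319) (l 173576222327)) (l 16345744)) (b (l 178944945623) (l 16350472))) (a (b (l 176260543207) (l 16357792)) (l 183239890471))) (a (l 16339984) (l 16365296))))) (b (a (a (c (l 16352112) (l 16360416)) (l 16386744)) (a (a (l 16393600) (l 16396720)) (c (l 16407200) (l 16404560)))) (a (a (l 16371640) (c (l 16377256) (l 16380312))) (a (c (l 16394240) (l 16387768))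 (l 16400168))))) (a (b (a (c (a (a (b (l 3) (l 156933170071)) (b (l 157470043879) (a (l 168744347575) (l 176797419143)))) (a (b (a (l 167670609927) (l 176260556103)) (l 16337520)) (b (l 16341096) (l 16341488)))) (a (a (l 154248814871) (b (l 159080685687) (l 170354946375))) (a (b (l 168744336951) (l 16351136)) (l 16333304)))) (a (a (l 16330464) (l 16355112)) (c (l 16333664) (l 16362864)))) (a (a (a (b (c (a (l 169818087303) (l 176797413383)) (l 170354945591)) (l 16320312)) (c (l 16336000) (l 16350568))) (a (l 16325120) (b (l 16348544) (l 16348896)))) (a (c (c (l 16326376) (l 16329824)) (a (l 16355928) (l 16358264))) (c (l 16362872) (l 16358920))))) (a (a (b (c (l 16368096) (l 16306192)) (l 16366008)) (c (l 16390120) (l 16361400))) (c (l 16418552) (l 16361048))))), by decide +kernel⟩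

def k4_pm_102 : ∃ t, chk3 f_pm_102 t 4 6 1 = true :=
  ⟨(a (l 2) (b (a (l 2) (b (a (a (l 2) (b (l 2) (l 1039481765159))) (c (b (a (l 1333687073335) (l 16335224)) (a (l 16318912) (l 16343856))) (b (a (l 1415828350199) (l 16351536)) (a (l 16333984) (l 16313168))))) (b (a (a (l 2) (c (l 16351760) (l 16359152))) (c (l 16336176) (l 16349112))) (a (c (l 16346336) (l 16352632)) (c (l 16375448) (l 16339328)))))) (a (a (b (l 2) (b (l 16284656) (a (l 2) (l 16204360)))) (b (a (b (l 2) (l 16343768)) (b (l 16322952) (l 16329520))) (b (l 16268160) (l 16053776)))) (b (b (a (c (l 91904608647) (l 16338552)) (b (l 16356752) (l 16338248))) (a (l 16312192) (l 16292832))) (c (a (l 16213248) (l 16201040)) (a (l 16221320) (l 16204488))))))), by decide +kernel⟩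

def k5_pm_102 : ∃ t, chk3 f_pm_102 t 4 7 1 = true :=
  ⟨(a (b (a (l 2) (a (b (l 2) (a (l 15977816) (a (l 15939552) (l 15928608)))) (b (a (l 2) (b (l 2) (c (l 16001920) (l 16057560)))) (a (c (l 15899552) (l 15963464)) (c (l 15934736) (l 15984888)))))) (a (b (a (l 2) (c (b (l 15957344) (l 15897680)) (b (l 15967144) (l 15900536)))) (a (c (l 15852160) (l 15854152)) (b (a (l 15853200) (l 15825200)) (l 564405072833717125326447)))) (a (a (b (l 15873112) (l 15773224)) (b (a (l 15845304) (l 15839200)) (a (l 15754040) (l 15751728)))) (b (a (a (l 15850056) (l 15860864)) (a (l 15871592) (l 15882328))) (a (l 15769224) (l 15792496)))))) (b (a (a (b (b (c (l 16103440) (l 16148824)) (a (c (l 16013016) (l 16073480)) (c (l 16025960) (l 16089920)))) (a (c (l 15950208) (l 16005648)) (l 15954200))) (b (b (l 138347251837354095) (c (l 137395349446705263) (l 16102512))) (a (l 16013280) (l 16015376)))) (b (b (l 138001455396962351) (b (l 16070568) (l 16048760))) (c (l 15964608) (l 16049120)))) (a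 (a (b (c (l 15886880) (l 15932480)) (c (l 15810560) (l 15844064))) (b (c (l 15919584) (l 15971352)) (a (l 15859784) (l 15870552)))) (b (a (l 15957112) (l 15969056)) (l 15706296))))), by decide +kernel⟩

def k6_pm_102 : ∃ t, chk3 f_pm_102 t 5 3 1 = true :=
  ⟨(b (a (b (a (b (a (b (b (l 16324032) (a (l 16345784) (l 16306136))) (a (c (l 16327576) (l 16353144)) (l 16329120))) (b (c (c (l 16326488) (l 16328744)) (a (l 16353840) (l 16353328))) (c (l 16362112) (l 16341048)))) (a (b (c (l 16367216) (l 16338232)) (c (l 16383360) (l 16325544))) (b (l 16354304) (c (l 16390256) (l 16313344))))) (b (c (a (l 16367984) (l 16382920)) (a (l 16340872) (l 16335560))) (b (c (l 16399320) (l 16318272)) (c (a (l 16397904) (l 16403576)) (a (l 16304904) (l 16297624)))))) (a (b (a (b (c (l 16368296) (l 16305168)) (l 16277480)) (c (l 16322288) (l 16264136))) (c (l 16188968) (l 16185848))) (b (c (l 16250096) (l 16246088)) (c (l 16179704) (l 16168992))))) (c (b (b (a (l 16407696) (l 16443896)) (a (b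 (l 16403232) (l 16236624)) (b (l 16345312) (l 16401576)))) (a (b (l 16307288) (l 16177472)) (b (l 16308080) (l 16180896)))) (b (b (a (l 16309680) (l 16328320)) (a (b (l 16283792) (l 16285640)) (b (l 16301752) (l 16271520)))) (a (b (l 16230320) (l 16160128)) (b (l 16222776) (l 16157840)))))) (b (a (b (a (b (l 16101704) (c (l 16017048) (l 16079936))) (b (l 16093872) (b (l 16053296) (l 16035848)))) (a (l 15916824) (l 16031040))) (b (a (b (l 16092256) (l 15959792)) (b (l 16096256) (l 16049440))) (a (l 16044312) (l 16061280)))) (a (b (a (l 15863176) (l 16018328)) (a (l 15934888) (l 15975736))) (b (a (l 16050960) (l 16086408)) (a (l 16000160) (l 15992632)))))), by decide +kernel⟩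

def k7_pm_102 : ∃ t, chk3 f_pm_102 t 6 2 1 = true :=
  ⟨(b (a (b (l 3) (a (b (l 3) (a (b (l 3) (a (l 198809369015) (l 157470300439))) (b (a (l 207936254807) (l 155859746391)) (a (l 153175359831) (l 16503856))))) (b (a (b (l 3) (l 191830110551)) (b (l 199883237383) (l 144048650791))) (a (b (a (l 149417312935) (l 16537888)) (l 16514648)) (l 16538920))))) (b (a (b (l 3) (a (l 237464376695) (l 150491203335))) (b (a (l 3) (l 221358190679)) (a (l 131163881287) (l 16672248)))) (a (b (a (b (l 142438096903) (l 16585984)) (l 16612920)) (a (l 16552760) (l 16566128))) (b (a (l 16627568) (l 16641744)) (a (l 16579056) (l 16568192)))))) (b (a (a (b (a (b (a (l 156933406295) (l 16472528)) (l 16453840)) (l 16432648)) (c (a (l 16431064) (l 16446648)) (a (l 16407872) (l 16418056)))) (b (a (l 16487072) (l 16475928)) (c (a (l 16466704) (l 16488128)) (b (l 16399904) (l 16442192))))) (a (b (c (a (l 16515632) (l 16535848)) (a (l 16502928) (l 16517024))) (c (l 16521872) (l 16468296))) (b (c (l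 16571992) (l 16431416)) (l 16361336)))) (a (a (a (b (c (l 16431088) (l 16402680)) (l 16407016)) (b (l 16386304) (l 16419360))) (c (l 16410984) (b (l 16412400) (l 16373656)))) (c (a (l 16477200) (l 16521392)) (a (l 16301400) (l 16337592)))))), by decide +kernel⟩

def k8_pm_102 : ∃ t, chk3 f_pm_102 t 7 2 1 = true :=
  ⟨(b (a (b (a (a (b (l 130626971623) (l 16708320)) (l 93582844583)) (b (l 16618432) (l 16743872))) (a (b (l 16662288) (c (l 16587960) (l 16518256))) (b (c (l 16698704) (l 16672304)) (c (l 16674024) (l 16627392))))) (c (b (a (l 16724576) (l 16669208)) (a (l 16699232) (l 16619568))) (b (a (l 16722688) (l 16639000)) (a (b (l 16701368) (l 16645024)) (l 16662256))))) (b (a (c (a (l 16598064) (l 16661824)) (a (l 16445360) (l 16549952))) (c (a (l 16617616) (l 16542488)) (a (l 16570504) (l 16589944)))) (a (c (a (l 16642904) (b (l 16617240) (l 16556936))) (a (l 16397024) (b (l 16479592) (l 16433272)))) (c (a (l 16453472) (b (l 16473352) (l 16424576))) (a (l 16264464) (l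 16330160)))))), by decide +kernel⟩

def k9_pm_102 : ∃ t, chk3 f_pm_102 t 3 3 1 = true :=
  ⟨(b (a (b (a (c (b (a (l 16435936) (l 16386440)) (a (b (l 16426216) (l 16405952)) (l 16444496))) (a (b (l 16221584) (l 16119176)) (b (l 16247856) (l 16285000)))) (b (c (a (l 16377288) (c (l 16573304) (l 16519592))) (a (l 16301416) (l 16337592))) (c (a (l 16453976) (l 16464112)) (a (l 16292208) (l 16304536))))) (b (a (a (c (l 16313696) (l 16221968)) (c (l 16323064) (l 16227064))) (c (l 16301664) (l 16245144))) (a (a (l 16133488) (l 16186528)) (c (l 16230384) (l 16194392))))) (a (b (c (b (a (b (l 16578792) (l 16547328)) (l 16500000)) (l 16415648)) (b (a (l 16375344) (l 16392392)) (l 16332216))) (c (a (l 16318952) (l 16344936)) (a (l 16251920) (l 16279216)))) (b (c (a (l 16428120) (l 16384952)) (a (l 16391728) (l 16420200))) (c (a (l 16373152) (l 16350136)) (a (l 16311136) (l 16347480)))))) (a (b (a (b (a (b (l 16105640) (l 16060624)) (b (l 16120304) (l 16077392))) (a (l 16081744) (l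 16105440))) (b (a (b (l 16140120) (l 16099776)) (l 16146288)) (a (l 16132960) (l 16099488)))) (a (b (a (l 16124072) (l 16155576)) (a (l 15978792) (l 15960416))) (b (a (l 16141288) (l 16126504)) (a (l 15938688) (l 15830640))))) (b (a (b (c (l 16186208) (l 16203936)) (a (l 16026656) (b (l 16193136) (l 16248560)))) (b (c (l 16269248) (l 16280072)) (a (b (l 16229992) (l 16245136)) (b (l 16271760) (l 16243656))))) (a (b (a (l 16111744) (l 16097448)) (a (c (l 15939064) (l 15834136)) (c (l 15915672) (l 15804176)))) (b (a (l 15874272) (b (l 16132752) (l 16009168))) (a (c (l 15891344) (l 15774472)) (c (l 15866728) (l 15745632)))))))), by decide +kernel⟩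

theorem s10_pm_102 : ∃ t, chk3 f_pm_102 t 3 2 1 = true := ex3_a k7_pm_102 k8_pm_102

theorem s11_pm_102 : ∃ t, chk3 f_pm_102 t 3 1 1 = true := ex3_b s10_pm_102 k9_pm_102

theorem s12_pm_102 : ∃ t, chk3 f_pm_102 t 4 3 1 = true := ex3_b k4_pm_102 k5_pm_102

theorem s13_pm_102 : ∃ t, chk3 f_pm_102 t 2 3 1 = true := ex3_a s12_pm_102 k6_pm_102

theorem s14_pm_102 : ∃ t, chk3 f_pm_102 t 5 5 1 = true := ex3_b k2_pm_102 k3_pm_102

theorem s15_pm_102 : ∃ t, chk3 f_pm_102 t 5 2 1 = true := ex3_b k1_pm_102 s14_pm_102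

theorem s16_pm_102 : ∃ t, chk3 f_pm_102 t 2 2 1 = true := ex3_a k0_pm_102 s15_pm_102

theorem s17_pm_102 : ∃ t, chk3 f_pm_102 t 2 1 1 = true := ex3_b s16_pm_102 s13_pm_102

theorem s18_pm_102 : ∃ t, chk3 f_pm_102 t 1 1 1 = true := ex3_a s17_pm_102 s11_pm_102

theorem c_pm_102 : CertB 536870912 536870912 0 536870912 991146299 28908434 3 eng mog cd1q1 cd0q2 pd0 false true false .npp 1 0 2
    ndB1q1 ndB0q2 pcB0 Cut.none xt_pm_102 :=
  certB2 (fam := false) (s1 := true) (s2 := false) (a := 1) (b := 0) (c := 2) (cn := .npp) (n1 := ndB1q1) (n2 := ndB0q2) (pc := pcB0) (cut := Cut.none) (xt := xt_pm_102) (P1 := 536870912) (W1 := 536870912) (P2 := 0) (W2 := 536870912) (P3 := 991146299) (W3 := 28908434) (N0 := 3) (En := eng) (mo := mog) (C1 := cd1q1) (C2 := cd0q2) (C3 := pd0)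
    rfl (fun _ => rfl) s18_pm_102

noncomputable def f_pm_112 : ℕ → ℕ → ℕ → ℕ → Bool := onCell 536870912 536870912 0 536870912 991146299 28908434
    (rowB 3 eng mog cd1q1 cd0q2 pd1 2 false true false .dn 1 1 2 (qsf 536870912 536870912 0 536870912 1) ndB1q1 ndB0q2 pcB1 Cut.none Ext.none)

def k0_pm_112 : ∃ t, chk3 f_pm_112 t 1 1 1 = true :=
  ⟨(a (b (a (b (a (b (a (b (a (l 16200136) (l 16147496)) (b (a (c (l 16126320) (l 16190352)) (l 16181480)) (l 16273008))) (b (b (a (l 16151712) (l 16136728)) (a (b (l 16131048) (l 16151936)) (l 16181408))) (l 16201800))) (a (a (l 16296384) (l 16327336)) (l 16248160))) (b (a (b (a (b (l 16105728) (l 16211936)) (l 16202984)) (l 16305608)) (l 16110680)) (a (l 16232432) (l 16246840)))) (a (b (a (c (l 16386048) (l 16319048)) (b (l 16516600) (l 16401848))) (b (a (l 16088944) (l 16117456)) (a (b (b (l 16019416) (l 15980312)) (l 16009568)) (b (l 15891008) (l 16099328))))) (b (a (l 16237160) (l 16261240)) (b (a (b (l 16241024) (l 16100840)) (b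 (l 16249104) (l 16117280))) (a (a (l 16112888) (l 16169128)) (l 16219896)))))) (a (a (b (b (l 16177088) (l 16291744)) (b (l 16288040) (b (b (l 16258992) (l 16186432)) (l 16276384)))) (b (b (l 1) (l 1)) (l 1))) (l 1))) (b (a (a (b (b (a (l 16050520) (l 16191944)) (a (l 16252624) (l 16315552))) (a (l 16167312) (l 16169480))) (b (a (b (l 16257888) (l 16365576)) (l 16189664)) (b (l 16359200) (l 16155072)))) (l 1)) (a (b (a (b (a (l 16120728) (l 16118352)) (a (l 15898232) (l 15843488))) (b (l 15956496) (l 1))) (a (b (l 58013315239) (c (l 15735096) (l 15690744))) (l 1))) (l 1)))) (l 1)), by decide +kernel⟩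

theorem c_pm_112 : CertB 536870912 536870912 0 536870912 991146299 28908434 3 eng mog cd1q1 cd0q2 pd1 false true false .dn 1 1 2
    ndB1q1 ndB0q2 pcB1 Cut.none Ext.none :=
  certB2 (fam := false) (s1 := true) (s2 := false) (a := 1) (b := 1) (c := 2) (cn := .dn) (n1 := ndB1q1) (n2 := ndB0q2) (pc := pcB1) (cut := Cut.none) (xt := Ext.none) (P1 := 536870912) (W1 := 536870912) (P2 := 0) (W2 := 536870912) (P3 := 991146299) (W3 := 28908434) (N0 := 3) (En := eng) (mo := mog) (C1 := cd1q1) (C2 := cd0q2) (C3 := pd1)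
    rfl (fun _ => rfl) k0_pm_112

noncomputable def cut_pm_202_a : Cut := Cut.of [[⟨0, 1, 0, 53687091⟩, ⟨1, 0, 0, 53687091⟩, ⟨2, 1, 0, 53687091⟩]]

noncomputable def f_pm_202_a : ℕ → ℕ → ℕ → ℕ → Bool := onCell 0 536870912 0 536870912 991146299 28908434
    (rowB 3 eng mog cd1q2a cd0q2 pd0 0 false true false .pp 2 0 2 (qsf 0 536870912 0 536870912 0) ndB1q2a ndB0q2 pcB0 cut_pm_202_a Ext.none)

def k0_pm_202_a : ∃ t, chk3 f_pm_202_a t 1 1 1 = true :=
  ⟨(a (l 3) (b (l 3) (a (l 3) (b (l 3) (a (l 3) (b (l 3) (l 6))))))), by decide +kernel⟩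

theorem c_pm_202_a : CertB 0 536870912 0 536870912 991146299 28908434 3 eng mog cd1q2a cd0q2 pd0 false true false .pp 2 0 2
    ndB1q2a ndB0q2 pcB0 cut_pm_202_a Ext.none :=
  certB0 (fam := false) (s1 := true) (s2 := false) (a := 2) (b := 0) (c := 2) (cn := .pp) (n1 := ndB1q2a) (n2 := ndB0q2) (pc := pcB0) (cut := cut_pm_202_a) (xt := Ext.none) (P1 := 0) (W1 := 536870912) (P2 := 0) (W2 := 536870912) (P3 := 991146299) (W3 := 28908434) (N0 := 3) (En := eng) (mo := mog) (C1 := cd1q2a) (C2 := cd0q2) (C3 := pd0)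
    rfl k0_pm_202_a

noncomputable def cut_pm_202_b : Cut := Cut.of [[⟨0, 1, 0, 53687091⟩, ⟨1, 0, 0, 53687091⟩, ⟨2, 1, 0, 53687091⟩]]

noncomputable def f_pm_202_b : ℕ → ℕ → ℕ → ℕ → Bool := onCell 1239849684 370763052 0 536870912 991146299 28908434
    (rowB 3 eng mog cd1q2b cd0q2 pd0 0 false true false .pp 2 0 2 (qsf 1239849684 370763052 0 536870912 0) ndB1q2b ndB0q2 pcB0 cut_pm_202_b Ext.none)

def k0_pm_202_b : ∃ t, chk3 f_pm_202_b t 1 1 1 = true :=
  ⟨(l 3), by decide +kernel⟩

theorem c_pm_202_b : CertB 1239849684 370763052 0 536870912 991146299 28908434 3 eng mog cd1q2b cd0q2 pd0 false true false .pp 2 0 2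
    ndB1q2b ndB0q2 pcB0 cut_pm_202_b Ext.none :=
  certB0 (fam := false) (s1 := true) (s2 := false) (a := 2) (b := 0) (c := 2) (cn := .pp) (n1 := ndB1q2b) (n2 := ndB0q2) (pc := pcB0) (cut := cut_pm_202_b) (xt := Ext.none) (P1 := 1239849684) (W1 := 370763052) (P2 := 0) (W2 := 536870912) (P3 := 991146299) (W3 := 28908434) (N0 := 3) (En := eng) (mo := mog) (C1 := cd1q2b) (C2 := cd0q2) (C3 := pd0)
    rfl k0_pm_202_b

noncomputable def f_mm_001 : ℕ → ℕ → ℕ → ℕ → Bool := onCell 0 536870912 536870912 536870912 991146299 28908434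
    (rowB 3 eng mog cd1q0 cd0q1 pd0 0 false false false .up 0 0 1 (qsf 0 536870912 536870912 536870912 0) ndB1q0 ndB0q1 pcB0 Cut.none Ext.none)

def k0_mm_001 : ∃ t, chk3 f_mm_001 t 1 1 1 = true :=
  ⟨(l 5), by decide +kernel⟩

theorem c_mm_001 : CertB 0 536870912 536870912 536870912 991146299 28908434 3 eng mog cd1q0 cd0q1 pd0 false false false .up 0 0 1
    ndB1q0 ndB0q1 pcB0 Cut.none Ext.none :=
  certB0 (fam := false) (s1 := false) (s2 := false) (a := 0) (b := 0) (c := 1) (cn := .up) (n1 := ndB1q0) (n2 := ndB0q1) (pc := pcB0) (cut := Cut.none) (xt := Ext.none) (P1 := 0) (W1 := 536870912) (P2 := 536870912) (W2 := 536870912) (P3 := 991146299) (W3 := 28908434) (N0 := 3) (En := eng) (mo := mog) (C1 := cd1q0) (C2 := cd0q1) (C3 := pd0)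
    rfl k0_mm_001

noncomputable def f_mm_011 : ℕ → ℕ → ℕ → ℕ → Bool := onCell 0 536870912 536870912 536870912 991146299 28908434
    (rowB 3 eng mog cd1q0 cd0q1 pd1 0 false false false .pnn 0 1 1 (qsf 0 536870912 536870912 536870912 1) ndB1q0 ndB0q1 pcB1 Cut.none Ext.none)

def k0_mm_011 : ∃ t, chk3 f_mm_011 t 1 1 1 = true :=
  ⟨(l 5), by decide +kernel⟩

theorem c_mm_011 : CertB 0 536870912 536870912 536870912 991146299 28908434 3 eng mog cd1q0 cd0q1 pd1 false false false .pnn 0 1 1
    ndB1q0 ndB0q1 pcB1 Cut.none Ext.none :=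
  certB0 (fam := false) (s1 := false) (s2 := false) (a := 0) (b := 1) (c := 1) (cn := .pnn) (n1 := ndB1q0) (n2 := ndB0q1) (pc := pcB1) (cut := Cut.none) (xt := Ext.none) (P1 := 0) (W1 := 536870912) (P2 := 536870912) (W2 := 536870912) (P3 := 991146299) (W3 := 28908434) (N0 := 3) (En := eng) (mo := mog) (C1 := cd1q0) (C2 := cd0q1) (C3 := pd1)
    rfl k0_mm_011

noncomputable def f_mm_012 : ℕ → ℕ → ℕ → ℕ → Bool := onCell 0 536870912 0 536870912 991146299 28908434
    (rowB 3 eng mog cd1q0 cd0q2 pd1 0 false false false .pnp 0 1 2 (qsf 0 536870912 0 536870912 1) ndB1q0 ndB0q2 pcB1 Cut.none Ext.none)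

def k0_mm_012 : ∃ t, chk3 f_mm_012 t 1 1 1 = true :=
  ⟨(l 5), by decide +kernel⟩

theorem c_mm_012 : CertB 0 536870912 0 536870912 991146299 28908434 3 eng mog cd1q0 cd0q2 pd1 false false false .pnp 0 1 2
    ndB1q0 ndB0q2 pcB1 Cut.none Ext.none :=
  certB0 (fam := false) (s1 := false) (s2 := false) (a := 0) (b := 1) (c := 2) (cn := .pnp) (n1 := ndB1q0) (n2 := ndB0q2) (pc := pcB1) (cut := Cut.none) (xt := Ext.none) (P1 := 0) (W1 := 536870912) (P2 := 0) (W2 := 536870912) (P3 := 991146299) (W3 := 28908434) (N0 := 3) (En := eng) (mo := mog) (C1 := cd1q0) (C2 := cd0q2) (C3 := pd1)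
    rfl k0_mm_012

noncomputable def f_mm_022 : ℕ → ℕ → ℕ → ℕ → Bool := onCell 0 536870912 0 536870912 991146299 28908434
    (rowB 3 eng mog cd1q0 cd0q2 pd2 0 false false false .pp 0 2 2 (qsf 0 536870912 0 536870912 2) ndB1q0 ndB0q2 pcB2 Cut.none Ext.none)

def k0_mm_022 : ∃ t, chk3 f_mm_022 t 1 1 1 = true :=
  ⟨(l 5), by decide +kernel⟩

theorem c_mm_022 : CertB 0 536870912 0 536870912 991146299 28908434 3 eng mog cd1q0 cd0q2 pd2 false false false .pp 0 2 2
    ndB1q0 ndB0q2 pcB2 Cut.none Ext.none :=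
  certB0 (fam := false) (s1 := false) (s2 := false) (a := 0) (b := 2) (c := 2) (cn := .pp) (n1 := ndB1q0) (n2 := ndB0q2) (pc := pcB2) (cut := Cut.none) (xt := Ext.none) (P1 := 0) (W1 := 536870912) (P2 := 0) (W2 := 536870912) (P3 := 991146299) (W3 := 28908434) (N0 := 3) (En := eng) (mo := mog) (C1 := cd1q0) (C2 := cd0q2) (C3 := pd2)
    rfl k0_mm_022

noncomputable def f_mm_101 : ℕ → ℕ → ℕ → ℕ → Bool := onCell 536870912 536870912 536870912 536870912 991146299 28908434
    (rowB 3 eng mog cd1q1 cd0q1 pd0 0 false false false .npn 1 0 1 (qsf 536870912 536870912 536870912 536870912 0) ndB1q1 ndB0q1 pcB0 Cut.none Ext.none)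

def k0_mm_101 : ∃ t, chk3 f_mm_101 t 1 1 1 = true :=
  ⟨(l 3), by decide +kernel⟩

theorem c_mm_101 : CertB 536870912 536870912 536870912 536870912 991146299 28908434 3 eng mog cd1q1 cd0q1 pd0 false false false .npn 1 0 1
    ndB1q1 ndB0q1 pcB0 Cut.none Ext.none :=
  certB0 (fam := false) (s1 := false) (s2 := false) (a := 1) (b := 0) (c := 1) (cn := .npn) (n1 := ndB1q1) (n2 := ndB0q1) (pc := pcB0) (cut := Cut.none) (xt := Ext.none) (P1 := 536870912) (W1 := 536870912) (P2 := 536870912) (W2 := 536870912) (P3 := 991146299) (W3 := 28908434) (N0 := 3) (En := eng) (mo := mog) (C1 := cd1q1) (C2 := cd0q1) (C3 := pd0)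
    rfl k0_mm_101

noncomputable def f_mm_102 : ℕ → ℕ → ℕ → ℕ → Bool := onCell 536870912 536870912 0 536870912 991146299 28908434
    (rowB 3 eng mog cd1q1 cd0q2 pd0 0 false false false .npp 1 0 2 (qsf 536870912 536870912 0 536870912 0) ndB1q1 ndB0q2 pcB0 Cut.none Ext.none)

def k0_mm_102 : ∃ t, chk3 f_mm_102 t 1 1 1 = true :=
  ⟨(l 5), by decide +kernel⟩

theorem c_mm_102 : CertB 536870912 536870912 0 536870912 991146299 28908434 3 eng mog cd1q1 cd0q2 pd0 false false false .npp 1 0 2
    ndB1q1 ndB0q2 pcB0 Cut.none Ext.none :=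
  certB0 (fam := false) (s1 := false) (s2 := false) (a := 1) (b := 0) (c := 2) (cn := .npp) (n1 := ndB1q1) (n2 := ndB0q2) (pc := pcB0) (cut := Cut.none) (xt := Ext.none) (P1 := 536870912) (W1 := 536870912) (P2 := 0) (W2 := 536870912) (P3 := 991146299) (W3 := 28908434) (N0 := 3) (En := eng) (mo := mog) (C1 := cd1q1) (C2 := cd0q2) (C3 := pd0)
    rfl k0_mm_102

noncomputable def f_mm_112 : ℕ → ℕ → ℕ → ℕ → Bool := onCell 536870912 536870912 0 536870912 991146299 28908434
    (rowB 3 eng mog cd1q1 cd0q2 pd1 0 false false false .dn 1 1 2 (qsf 536870912 536870912 0 536870912 1) ndB1q1 ndB0q2 pcB1 Cut.none Ext.none)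

def k0_mm_112 : ∃ t, chk3 f_mm_112 t 1 1 1 = true :=
  ⟨(l 5), by decide +kernel⟩

theorem c_mm_112 : CertB 536870912 536870912 0 536870912 991146299 28908434 3 eng mog cd1q1 cd0q2 pd1 false false false .dn 1 1 2
    ndB1q1 ndB0q2 pcB1 Cut.none Ext.none :=
  certB0 (fam := false) (s1 := false) (s2 := false) (a := 1) (b := 1) (c := 2) (cn := .dn) (n1 := ndB1q1) (n2 := ndB0q2) (pc := pcB1) (cut := Cut.none) (xt := Ext.none) (P1 := 536870912) (W1 := 536870912) (P2 := 0) (W2 := 536870912) (P3 := 991146299) (W3 := 28908434) (N0 := 3) (En := eng) (mo := mog) (C1 := cd1q1) (C2 := cd0q2) (C3 := pd1)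
    rfl k0_mm_112

noncomputable def f_mm_202_a : ℕ → ℕ → ℕ → ℕ → Bool := onCell 0 536870912 0 536870912 991146299 28908434
    (rowB 3 eng mog cd1q2a cd0q2 pd0 0 false false false .pp 2 0 2 (qsf 0 536870912 0 536870912 0) ndB1q2a ndB0q2 pcB0 Cut.none Ext.none)

def k0_mm_202_a : ∃ t, chk3 f_mm_202_a t 1 1 1 = true :=
  ⟨(l 3), by decide +kernel⟩

theorem c_mm_202_a : CertB 0 536870912 0 536870912 991146299 28908434 3 eng mog cd1q2a cd0q2 pd0 false false false .pp 2 0 2
    ndB1q2a ndB0q2 pcB0 Cut.none Ext.none :=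
  certB0 (fam := false) (s1 := false) (s2 := false) (a := 2) (b := 0) (c := 2) (cn := .pp) (n1 := ndB1q2a) (n2 := ndB0q2) (pc := pcB0) (cut := Cut.none) (xt := Ext.none) (P1 := 0) (W1 := 536870912) (P2 := 0) (W2 := 536870912) (P3 := 991146299) (W3 := 28908434) (N0 := 3) (En := eng) (mo := mog) (C1 := cd1q2a) (C2 := cd0q2) (C3 := pd0)
    rfl k0_mm_202_a

noncomputable def f_mm_202_b : ℕ → ℕ → ℕ → ℕ → Bool := onCell 1239849684 370763052 0 536870912 991146299 28908434
    (rowB 3 eng mog cd1q2b cd0q2 pd0 0 false false false .pp 2 0 2 (qsf 1239849684 370763052 0 536870912 0) ndB1q2b ndB0q2 pcB0 Cut.none Ext.none)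

def k0_mm_202_b : ∃ t, chk3 f_mm_202_b t 1 1 1 = true :=
  ⟨(l 3), by decide +kernel⟩

theorem c_mm_202_b : CertB 1239849684 370763052 0 536870912 991146299 28908434 3 eng mog cd1q2b cd0q2 pd0 false false false .pp 2 0 2
    ndB1q2b ndB0q2 pcB0 Cut.none Ext.none :=
  certB0 (fam := false) (s1 := false) (s2 := false) (a := 2) (b := 0) (c := 2) (cn := .pp) (n1 := ndB1q2b) (n2 := ndB0q2) (pc := pcB0) (cut := Cut.none) (xt := Ext.none) (P1 := 1239849684) (W1 := 370763052) (P2 := 0) (W2 := 536870912) (P3 := 991146299) (W3 := 28908434) (N0 := 3) (En := eng) (mo := mog) (C1 := cd1q2b) (C2 := cd0q2) (C3 := pd0)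
    rfl k0_mm_202_b

end Pool.Agent.Strip051.G.I9231_9500.Tab.C.BB10

namespace Pool.Agent.Strip051.G.I9231_9500.Tab.C.BB11

open Pool.Agent.Strip051.PB Pool.Agent.Strip051.PB.T
open Pool.Agent.Strip051.G.I9231_9500.Tab

noncomputable def f_pp_001 : ℕ → ℕ → ℕ → ℕ → Bool := onCell 0 536870912 536870912 536870912 991146299 28908434
    (rowB 3 eng mog cd1q0 cd1q1 pd0 0 false true true .up 0 0 1 (qsf 0 536870912 536870912 536870912 0) ndB1q0 ndB1q1 pcB0 Cut.none Ext.none)

def k0_pp_001 : ∃ t, chk3 f_pp_001 t 1 1 1 = true :=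
  ⟨(l 3), by decide +kernel⟩

theorem c_pp_001 : CertB 0 536870912 536870912 536870912 991146299 28908434 3 eng mog cd1q0 cd1q1 pd0 false true true .up 0 0 1
    ndB1q0 ndB1q1 pcB0 Cut.none Ext.none :=
  certB0 (fam := false) (s1 := true) (s2 := true) (a := 0) (b := 0) (c := 1) (cn := .up) (n1 := ndB1q0) (n2 := ndB1q1) (pc := pcB0) (cut := Cut.none) (xt := Ext.none) (P1 := 0) (W1 := 536870912) (P2 := 536870912) (W2 := 536870912) (P3 := 991146299) (W3 := 28908434) (N0 := 3) (En := eng) (mo := mog) (C1 := cd1q0) (C2 := cd1q1) (C3 := pd0)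
    rfl k0_pp_001

noncomputable def f_pp_011 : ℕ → ℕ → ℕ → ℕ → Bool := onCell 0 536870912 536870912 536870912 991146299 28908434
    (rowB 3 eng mog cd1q0 cd1q1 pd1 0 false true true .pnn 0 1 1 (qsf 0 536870912 536870912 536870912 1) ndB1q0 ndB1q1 pcB1 Cut.none Ext.none)

def k0_pp_011 : ∃ t, chk3 f_pp_011 t 1 1 1 = true :=
  ⟨(l 3), by decide +kernel⟩

theorem c_pp_011 : CertB 0 536870912 536870912 536870912 991146299 28908434 3 eng mog cd1q0 cd1q1 pd1 false true true .pnn 0 1 1
    ndB1q0 ndB1q1 pcB1 Cut.none Ext.none :=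
  certB0 (fam := false) (s1 := true) (s2 := true) (a := 0) (b := 1) (c := 1) (cn := .pnn) (n1 := ndB1q0) (n2 := ndB1q1) (pc := pcB1) (cut := Cut.none) (xt := Ext.none) (P1 := 0) (W1 := 536870912) (P2 := 536870912) (W2 := 536870912) (P3 := 991146299) (W3 := 28908434) (N0 := 3) (En := eng) (mo := mog) (C1 := cd1q0) (C2 := cd1q1) (C3 := pd1)
    rfl k0_pp_011

noncomputable def cut_pp_012_a : Cut := Cut.of [[⟨0, 0, 0, 53687091⟩, ⟨1, 1, 0, 53687091⟩, ⟨2, 1, 0, 53687091⟩]]

noncomputable def xt_pp_012_a : Ext := extD3 3 ⟨4, 1, 1, 5, 22, 5, 21, 25, 41, 100, 1, 20⟩ eng cd1q0 cd1q2a pd1 false true true .pnp 0 1 2 rfl ndB1q0 ndB1q2a pcB1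

noncomputable def f_pp_012_a : ℕ → ℕ → ℕ → ℕ → Bool := onCell 536870912 536870912 0 536870912 991146299 28908434
    (rowB 3 eng mog cd1q0 cd1q2a pd1 2 false true true .pnp 0 1 2 (qsf 0 536870912 0 536870912 1) ndB1q0 ndB1q2a pcB1 cut_pp_012_a xt_pp_012_a)

def k0_pp_012_a : ∃ t, chk3 f_pp_012_a t 1 2 1 = true :=
  ⟨(b (a (a (l 2) (a (a (a (l 2) (b (l 16595232) (b (l 182636183687) (a (l 72644752247) (l 91435220711))))) (b (a (l 16624016) (l 16628144)) (a (b (l 16572000) (a (l 109151961735) (l 16502392))) (b (l 16583160) (l 16513560))))) (a (b (l 16626664) (a (l 16537256) (l 16584792))) (b (l 16608576) (l 16542912))))) (a (a (a (b (l 16571568) (l 16568568)) (b (l 16488928) (l 16533840))) (a (b (l 16397816) (l 16483024)) (b (l 16372856) (l 16418312)))) (a (a (b (l 16329592) (l 16251176)) (b (l 16318400) (a (l 16319488) (l 16308504)))) (a (b (l 16340064) (l 16267864)) (b (l 16312720) (a (l 16331448) (l 16358112))))))) (a (a (l 3) (a (a (l 3) (b (b (a (l 68886654695) (b (l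 110225702327) (l 79624076343))) (l 3)) (l 3))) (a (b (a (b (b (l 16551584) (l 116668163047)) (l 86603395159)) (b (l 16559640) (b (l 122573757831) (l 100025184791)))) (l 3)) (b (a (b (l 16568568) (l 130089975111)) (l 16508280)) (b (a (l 104857038263) (l 121500052279)) (l 3)))))) (a (a (a (b (a (l 16573784) (l 16571528)) (a (b (l 16554856) (l 122036947527)) (b (l 16581864) (l 125795153111)))) (b (l 16558856) (a (b (l 16582976) (l 16596096)) (l 16567992)))) (a (b (l 16525976) (a (l 16582448) (l 16570888))) (b (l 16477560) (a (l 16554744) (l 16534560))))) (a (a (b (l 16417544) (l 16392984)) (b (a (l 16368032) (l 16337608)) (b (l 16416232) (l 16463400)))) (a (b (a (b (l 16297808) (l 16322416)) (b (l 16295144) (l 16298368))) (a (l 16393448) (l 16362120))) (b (a (b (l 16303632) (l 16289288)) (l 16312608)) (a (b (l 16309408) (l 16356352)) (b (b (l 16289592) (l 16296712)) (l 16329400))))))))), by decide +kernel⟩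

def k1_pp_012_a : ∃ t, chk3 f_pp_012_a t 2 3 1 = true :=
  ⟨(l 3), by decide +kernel⟩

def k2_pp_012_a : ∃ t, chk3 f_pp_012_a t 3 6 1 = true :=
  ⟨(a (a (b (a (l 3) (b (a (l 134385015975) (l 16552200)) (a (l 3) (l 142974883911)))) (l 3)) (b (a (b (a (l 16618744) (l 16615672)) (a (l 151027998871) (l 16569392))) (a (b (l 16606592) (l 16642056)) (l 16529384))) (a (b (a (l 3) (b (l 184314051591) (l 3))) (l 3)) (b (a (a (l 167134095431) (l 168207887095)) (b (l 16662696) (l 16630544))) (a (l 3) (b (a (l 179482130055) (l 219747596503)) (l 3))))))) (a (a (b (b (l 16562968) (l 16525168)) (b (a (l 16663640) (l 16648160)) (a (b (l 16624008) (a (l 192367015415) (l 231021894567))) (b (l 16684984) (l 16598880))))) (b (a (l 16489088) (l 16420400)) (b (a (l 16628120) (l 16604272)) (a (l 16638864) (l 16617072))))) (a (b (a (b (l 16469096) (l 16522408)) (b (l 16438712) (l 16492664))) (a (b (l 16577240) (l 16591288)) (b (l 16506168) (b (l 16590224) (l 16597720))))) (b (a (b (l 16408264) (l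 16461992)) (b (l 16381144) (l 16434664))) (a (b (l 16454240) (a (l 16560160) (l 16544864))) (b (b (l 16475520) (l 16503240)) (a (l 16530936) (l 16497360)))))))), by decide +kernel⟩

def k3_pp_012_a : ∃ t, chk3 f_pp_012_a t 3 7 1 = true :=
  ⟨(a (l 3) (a (b (a (a (l 3) (b (a (c (l 313700094759) (l 309941912759)) (b (l 186461612327) (l 316921260055))) (l 3))) (b (a (b (a (l 16689184) (l 16715552)) (a (l 358797394519) (b (l 16710536) (l 16709512)))) (a (b (l 16705936) (l 16709968)) (l 16666848))) (a (b (a (l 3) (l 333564340167)) (l 3)) (a (b (b (l 308868426823) (l 347523104711)) (l 3)) (b (b (l 16735608) (l 215452704663)) (l 371145432791)))))) (l 3)) (a (b (a (b (b (l 16654552) (l 16662032)) (b (a (l 16717680) (l 16704992)) (a (b (l 16725984) (l 352355014567)) (b (l 16726160) (l 16723592))))) (a (b (l 16627512) (b (l 16691288) (l 16698888))) (b (l 16591360) (b (l 16676040) (l 16683584))))) (b (a (b (a (l 422148058151) (b (l 258939483127) (l 350744325943))) (l 3)) (b (a (b (l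 16717512) (a (l 220284797751) (l 16738680))) (b (l 16725760) (l 16729192))) (c (a (l 341617634391) (b (l 195588718855) (l 7740144340837592086912491071))) (a (l 446844246807) (b (l 196125610007) (l 282024972359)))))) (l 3))) (b (a (b (b (l 16542224) (a (l 16652032) (l 16636304))) (a (b (l 16659496) (l 16666824)) (b (l 16643552) (l 16650640)))) (b (a (b (l 16593912) (l 16622056)) (b (l 16581200) (l 16609256))) (a (b (l 16629144) (l 16636040)) (b (l 16595248) (a (l 16647088) (l 16640920)))))) (b (a (a (b (b (l 16708824) (l 16722784)) (b (a (l 16740968) (l 16732352)) (a (b (l 16750328) (l 222969166487)) (b (l 16742584) (l 6))))) (b (b (l 16692440) (l 16706256)) (b (l 16719976) (l 6)))) (b (a (b (l 16677672) (l 6)) (l 6)) (l 6))) (a (a (a (a (l 3) (l 6)) (l 6)) (l 6)) (l 6))))))), by decide +kernel⟩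

theorem s4_pp_012_a : ∃ t, chk3 f_pp_012_a t 3 3 1 = true := ex3_b k2_pp_012_a k3_pp_012_a

theorem s5_pp_012_a : ∃ t, chk3 f_pp_012_a t 1 3 1 = true := ex3_a k1_pp_012_a s4_pp_012_a

theorem s6_pp_012_a : ∃ t, chk3 f_pp_012_a t 1 1 1 = true := ex3_b k0_pp_012_a s5_pp_012_a

theorem c_pp_012_a : CertB 0 536870912 0 536870912 991146299 28908434 3 eng mog cd1q0 cd1q2a pd1 false true true .pnp 0 1 2
    ndB1q0 ndB1q2a pcB1 cut_pp_012_a xt_pp_012_a :=
  certB2 (fam := false) (s1 := true) (s2 := true) (a := 0) (b := 1) (c := 2) (cn := .pnp) (n1 := ndB1q0) (n2 := ndB1q2a) (pc := pcB1) (cut := cut_pp_012_a) (xt := xt_pp_012_a) (P1 := 0) (W1 := 536870912) (P2 := 0) (W2 := 536870912) (P3 := 991146299) (W3 := 28908434) (N0 := 3) (En := eng) (mo := mog) (C1 := cd1q0) (C2 := cd1q2a) (C3 := pd1)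
    rfl (fun _ => rfl) s6_pp_012_a

noncomputable def cut_pp_012_b : Cut := Cut.of [[⟨0, 0, 0, 53687091⟩, ⟨1, 1, 0, 53687091⟩, ⟨2, 1, 0, 53687091⟩]]

noncomputable def f_pp_012_b : ℕ → ℕ → ℕ → ℕ → Bool := onCell 536870912 536870912 1239849684 370763052 991146299 28908434
    (rowB 3 eng mog cd1q0 cd1q2b pd1 2 false true true .pnp 0 1 2 (qsf 0 536870912 1239849684 370763052 1) ndB1q0 ndB1q2b pcB1 cut_pp_012_b Ext.none)

def k0_pp_012_b : ∃ t, chk3 f_pp_012_b t 1 1 1 = true :=
  ⟨(a (a (l 2) (b (a (b (b (a (l 16616968) (l 16621224)) (l 2)) (l 2)) (b (a (b (l 16608240) (l 16531576)) (b (l 16575840) (l 16492280))) (a (l 2) (l 16393768)))) (l 2))) (a (b (a (b (a (b (l 16524592) (l 16433264)) (b (l 16443240) (l 16346208))) (a (l 16324760) (l 16123968))) (b (a (b (l 16349056) (l 16240232)) (b (l 16285376) (l 16163832))) (a (l 16110792) (l 16013008)))) (a (l 2) (b (a (l 16001376) (l 15871056)) (l 2)))) (b (a (b (a (b (l 16251808) (l 16119280)) (b (l 16249592) (l 16107784))) (a (l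 15949592) (l 15921672))) (b (a (b (l 16196272) (l 16130672)) (b (a (l 16325544) (l 16325168)) (l 16189608))) (a (l 15888504) (l 15746616)))) (a (b (a (l 15779448) (l 15726504)) (l 15378888)) (b (a (l 15713208) (l 15740640)) (l 15427952)))))), by decide +kernel⟩

theorem c_pp_012_b : CertB 0 536870912 1239849684 370763052 991146299 28908434 3 eng mog cd1q0 cd1q2b pd1 false true true .pnp 0 1 2
    ndB1q0 ndB1q2b pcB1 cut_pp_012_b Ext.none :=
  certB2 (fam := false) (s1 := true) (s2 := true) (a := 0) (b := 1) (c := 2) (cn := .pnp) (n1 := ndB1q0) (n2 := ndB1q2b) (pc := pcB1) (cut := cut_pp_012_b) (xt := Ext.none) (P1 := 0) (W1 := 536870912) (P2 := 1239849684) (W2 := 370763052) (P3 := 991146299) (W3 := 28908434) (N0 := 3) (En := eng) (mo := mog) (C1 := cd1q0) (C2 := cd1q2b) (C3 := pd1)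
    rfl (fun _ => rfl) k0_pp_012_b

noncomputable def cut_pp_022_a : Cut := Cut.of [[⟨0, 0, 0, 53687091⟩, ⟨1, 1, 0, 53687091⟩, ⟨2, 1, 0, 53687091⟩]]

noncomputable def f_pp_022_a : ℕ → ℕ → ℕ → ℕ → Bool := onCell 1073741824 536870912 0 536870912 991146299 28908434
    (rowB 3 eng mog cd1q0 cd1q2a pd2 2 false true true .pp 0 2 2 (qsf 0 536870912 0 536870912 2) ndB1q0 ndB1q2a pcB2 cut_pp_022_a Ext.none)

def k0_pp_022_a : ∃ t, chk3 f_pp_022_a t 2 2 1 = true :=
  ⟨(a (a (b (c (a (c (b (l 16489576) (l 16529424)) (b (l 16417224) (l 16399280))) (b (l 16332256) (l 16323152))) (a (b (a (l 16311568) (l 16293104)) (a (l 16304600) (l 16343296))) (b (l 16245120) (a (l 16319064) (l 16294816))))) (b (c (a (a (l 16407880) (c (l 16546304) (l 16485784))) (c (l 16484232) (l 16408904))) (a (a (c (l 16454896) (l 16384696)) (l 16306120)) (a (l 16359488) (l 16328600)))) (a (c (a (a (l 16503576) (l 16503040)) (c (l 16581680) (l 16484024))) (a (b (l 16397736) (l 16384256)) (b (l 16425800) (l 16429944))))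 (a (c (c (l 16535104) (l 16482912)) (l 16295856)) (c (l 16421312) (l 16341720)))))) (b (a (c (b (l 16335352) (l 16336552)) (b (l 16231200) (l 16258544))) (c (b (l 16274584) (l 16284944)) (b (l 16197720) (l 16210016)))) (a (c (b (l 16249664) (a (l 16416088) (l 16367816))) (b (c (l 16305752) (l 16257176)) (a (l 16323896) (l 16284320)))) (b (c (l 16269432) (l 16175632)) (c (a (l 16318448) (l 16268016)) (a (l 16243936) (l 16202720))))))) (a (b (b (a (c (l 16213016) (l 16165544)) (l 1)) (a (c (l 16210432) (l 16161296)) (l 1))) (a (b (c (l 190084466183) (l 193842491655)) (a (c (l 464425609463) (l 481068514263)) (l 1))) (l 1))) (l 1))), by decide +kernel⟩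

def k1_pp_022_a : ∃ t, chk3 f_pp_022_a t 8 6 1 = true :=
  ⟨(c (b (a (a (b (l 16528624) (l 16514552)) (a (l 16525232) (l 16510472))) (a (c (l 16568664) (l 16500672)) (l 16387816))) (a (a (b (b (l 16532560) (l 16530728)) (b (l 16528840) (l 16547784))) (b (l 16571552) (l 16580032))) (b (a (l 16535928) (l 16456672)) (b (c (l 16480360) (l 16442280)) (a (l 16504720) (a (l 16518760) (b (l 16527872) (l 16505288)))))))) (b (c (a (a (b (l 16549048) (l 16538840)) (l 16456352)) (a (l 16472832) (l 16425160))) (a (a (b (l 16489856) (l 16525384)) (l 16402312)) (a (l 16422248) (l 16378168)))) (b (a (a (b (l 16497144) (l 16517040)) (l 16457504)) (a (l 16448488) (l 16375064))) (a (c (c (l 16535272) (l 16513192)) (a (l 16568064) (l 16536592))) (a (b (l 16494200) (a (l 16526592) (l 16476136))) (b (l 16375312) (a (b (l 16485376) (l 16468928)) (b (l 16456000) (l 16435320))))))))), by decide +kernel⟩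

def k2_pp_022_a : ∃ t, chk3 f_pp_022_a t 8 7 1 = true :=
  ⟨(b (a (b (a (c (b (b (l 16547032) (l 16555720)) (l 16554760)) (b (a (l 16637224) (l 16585616)) (l 16584912))) (c (b (l 16572096) (l 16581592)) (b (b (l 16538632) (l 16558160)) (l 16532888)))) (b (a (c (b (l 16595632) (l 16608896)) (a (l 16649968) (l 16609952))) (c (l 16547800) (b (l 16549736) (l 16526120)))) (l 6))) (b (a (c (b (a (l 16560336) (l 16543616)) (a (l 16563832) (l 16523008))) (b (a (l 16529104) (l 16514576)) (b (l 16480536) (l 16452872)))) (c (b (b (l 16470520) (l 16437272)) (a (b (l 16529368) (l 16517392)) (b (l 16466840) (l 16453432)))) (c (b (l 16392920) (a (l 16475800) (l 16392752))) (b (l 16357952) (a (l 16442872) (l 16381640)))))) (a (b (a (c (l 16524856) (b (l 16529992) (l 16524248))) (c (b (l 16549096) (l 16496352)) (c (l 16457400) (l 16447688)))) (l 6)) (a (b (c (b (l 16463272) (c (l 16506576) (l 16478872))) (b (c (l 16460616) (l 16429784)) (c (l 16450336) (l 16420984)))) (a (a (l 6) (l 1))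 (l 1))) (a (b (c (l 98817162391) (l 82710942119)) (l 1)) (l 1)))))) (a (l 6) (a (l 6) (l 1)))), by decide +kernel⟩

def k3_pp_022_a : ∃ t, chk3 f_pp_022_a t 9 3 1 = true :=
  ⟨(b (a (b (a (c (l 16312712) (b (l 16346472) (l 16363816))) (c (b (l 16378968) (l 16387632)) (b (l 16300456) (l 16313200)))) (b (a (c (b (l 16455768) (l 16421712)) (b (l 16378624) (l 16326664))) (c (a (l 16413560) (l 498248850519)) (c (l 141766481015) (l 142303284183)))) (b (a (c (a (l 16488176) (l 16456208)) (a (l 16416064) (l 16323904))) (a (c (l 475163492039) (l 494490813111)) (l 1))) (a (c (b (a (l 16473856) (a (l 16469368) (l 16451680))) (a (l 16488328) (l 16449136))) (b (a (l 16383600) (c (l 16410504) (l 16376080))) (a (l 16420792) (l 16383896)))) (l 1))))) (b (a (c (b (l 16324024) (l 136397699975)) (b (l 16253312) (c (l 16278488) (l 16243736)))) (b (a (l 495027553655) (l 441340417367)) (l 1))) (a (a (b (c (l 419865768727) (l 431676811015)) (l 1)) (l 1)) (l 1)))) (b (a (b (a (a (b (c (b (l 16474336)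 (l 16460088)) (c (l 16418976) (l 16385616))) (a (c (l 16448984) (l 16387824)) (l 1))) (a (b (c (l 16436536) (l 16373240)) (l 1)) (l 1))) (l 1)) (l 1)) (l 1)) (l 1))), by decide +kernel⟩

def k4_pp_022_a : ∃ t, chk3 f_pp_022_a t 5 3 1 = true :=
  ⟨(b (l 1) (l 1)), by decide +kernel⟩

def k5_pp_022_a : ∃ t, chk3 f_pp_022_a t 3 1 1 = true :=
  ⟨(l 1), by decide +kernel⟩

theorem s6_pp_022_a : ∃ t, chk3 f_pp_022_a t 8 3 1 = true := ex3_b k1_pp_022_a k2_pp_022_a

theorem s7_pp_022_a : ∃ t, chk3 f_pp_022_a t 4 3 1 = true := ex3_a s6_pp_022_a k3_pp_022_a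

theorem s8_pp_022_a : ∃ t, chk3 f_pp_022_a t 2 3 1 = true := ex3_a s7_pp_022_a k4_pp_022_a

theorem s9_pp_022_a : ∃ t, chk3 f_pp_022_a t 2 1 1 = true := ex3_b k0_pp_022_a s8_pp_022_a

theorem s10_pp_022_a : ∃ t, chk3 f_pp_022_a t 1 1 1 = true := ex3_a s9_pp_022_a k5_pp_022_a

theorem c_pp_022_a : CertB 0 536870912 0 536870912 991146299 28908434 3 eng mog cd1q0 cd1q2a pd2 false true true .pp 0 2 2
    ndB1q0 ndB1q2a pcB2 cut_pp_022_a Ext.none :=
  certB2 (fam := false) (s1 := true) (s2 := true) (a := 0) (b := 2) (c := 2) (cn := .pp) (n1 := ndB1q0) (n2 := ndB1q2a) (pc := pcB2) (cut := cut_pp_022_a) (xt := Ext.none) (P1 := 0) (W1 := 536870912) (P2 := 0) (W2 := 536870912) (P3 := 991146299) (W3 := 28908434) (N0 := 3) (En := eng) (mo := mog) (C1 := cd1q0) (C2 := cd1q2a) (C3 := pd2)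
    rfl (fun _ => rfl) s10_pp_022_a

noncomputable def cut_pp_022_b : Cut := Cut.of [[⟨0, 0, 0, 53687091⟩, ⟨1, 1, 0, 53687091⟩, ⟨2, 1, 0, 53687091⟩]]

noncomputable def f_pp_022_b : ℕ → ℕ → ℕ → ℕ → Bool := onCell 1073741824 536870912 1239849684 370763052 991146299 28908434
    (rowB 3 eng mog cd1q0 cd1q2b pd2 2 false true true .pp 0 2 2 (qsf 0 536870912 1239849684 370763052 2) ndB1q0 ndB1q2b pcB2 cut_pp_022_b Ext.none)

def k0_pp_022_b : ∃ t, chk3 f_pp_022_b t 1 1 1 = true :=
  ⟨(a (b (a (a (b (b (a (c (l 16281816) (b (l 16256552) (l 16346344))) (c (l 16291176) (l 16186144))) (c (a (l 16521384) (l 16489136)) (a (l 16393512) (l 16379360)))) (c (b (l 16287440) (l 16236208)) (b (l 16372392) (l 16429528)))) (b (b (c (a (b (l 16342776) (l 16381832)) (l 16245312)) (a (l 16198328) (l 16212800))) (a (l 16140912) (l 16203608))) (c (b (l 16353936) (l 16217728)) (b (l 16385544) (l 16320000))))) (b (a (a (b (c (l 16190504) (l 16187616)) (l 16246576)) (b (c (l 315175365575) (l 316249118103))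 (l 16165096))) (b (a (a (l 454224860727) (l 1)) (l 1)) (a (c (l 16159456) (l 16241792)) (a (l 464962292679) (l 469257181831))))) (a (a (b (l 16354168) (l 16214872)) (b (l 16319248) (l 16177888))) (a (b (l 16284200) (l 16140272)) (b (l 16081960) (l 16102672)))))) (a (a (b (c (l 15869840) (a (l 16273672) (l 16220376))) (c (l 15873104) (l 16030992))) (b (c (l 15953832) (l 16135880)) (c (l 15847416) (l 15937744)))) (a (b (a (l 15987240) (l 15988960)) (l 15702888)) (b (a (l 15947400) (l 15779304)) (l 15524928))))) (b (a (b (l 1) (a (a (b (l 468183365351) (l 16065816)) (b (l 465498928887) (l 295310664343))) (b (l 1) (a (l 413422137207) (l 1))))) (l 1)) (a (a (b (a (b (l 15926760) (l 15800672)) (b (l 15887120) (l 15756744))) (c (l 15679160) (l 15548040))) (b (c (b (l 313027248711) (l 15713136)) (b (l 300678715655) (l 15567712))) (c (l 15459376) (b (l 15480208) (l 15366248))))) (b (a (b (l 1) (c (l 348997400119) (l 519721579415))) (l 1)) (a (c (b (l 15548104) (l 15477320)) (b (l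 15312856) (l 15248760))) (c (a (l 517574022199) (l 544417513431)) (b (l 548175294631) (l 14901936)))))))), by decide +kernel⟩

theorem c_pp_022_b : CertB 0 536870912 1239849684 370763052 991146299 28908434 3 eng mog cd1q0 cd1q2b pd2 false true true .pp 0 2 2
    ndB1q0 ndB1q2b pcB2 cut_pp_022_b Ext.none :=
  certB2 (fam := false) (s1 := true) (s2 := true) (a := 0) (b := 2) (c := 2) (cn := .pp) (n1 := ndB1q0) (n2 := ndB1q2b) (pc := pcB2) (cut := cut_pp_022_b) (xt := Ext.none) (P1 := 0) (W1 := 536870912) (P2 := 1239849684) (W2 := 370763052) (P3 := 991146299) (W3 := 28908434) (N0 := 3) (En := eng) (mo := mog) (C1 := cd1q0) (C2 := cd1q2b) (C3 := pd2)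
    rfl (fun _ => rfl) k0_pp_022_b

noncomputable def f_pp_023 : ℕ → ℕ → ℕ → ℕ → Bool := onCell 1073741824 536870912 1610612736 536870912 991146299 28908434
    (rowB 3 eng mog cd1q0 cd1q3 pd2 2 false true true .up 0 2 3 (qsf 0 536870912 1610612736 536870912 2) ndB1q0 ndB1q3 pcB2 Cut.none Ext.none)

def k0_pp_023 : ∃ t, chk3 f_pp_023 t 1 1 1 = true :=
  ⟨(a (b (a (b (a (c (b (l 15644632) (l 15609104)) (l 15562584)) (c (l 15584848) (l 15695680))) (a (l 2) (b (l 15605472) (l 2)))) (b (a (b (l 15576560) (l 15519792)) (b (l 15471416) (l 15406752))) (a (l 182096844743) (l 15303712)))) (a (l 2) (b (a (l 2) (l 15341272)) (l 2)))) (a (b (b (a (b (l 15358456) (l 15283504)) (b (l 14991856) (l 15156088))) (a (b (l 15250320) (l 15257032)) (b (l 15111176) (l 15107048)))) (b (a (l 15126648) (l 15172448)) (a (l 2) (b (l 15302952) (l 2))))) (b (b (a (b (c (l 15232472) (l 15031112)) (l 14884432)) (a (b (l 15056280) (l 14949864)) (b (b (l 15047808) (l 14979752)) (c (l 15075800) (l 14820864)))))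 (a (b (l 14971000) (l 14739048)) (a (b (l 14923080) (l 14982064)) (b (l 15001920) (l 15091040))))) (b (a (a (l 15046272) (b (l 14983688) (l 15076000))) (c (l 15326400) (l 15051984))) (a (b (a (l 15171376) (l 15201416)) (a (l 2) (l 15334544))) (b (l 15402192) (l 15328976))))))), by decide +kernel⟩

theorem c_pp_023 : CertB 0 536870912 1610612736 536870912 991146299 28908434 3 eng mog cd1q0 cd1q3 pd2 false true true .up 0 2 3
    ndB1q0 ndB1q3 pcB2 Cut.none Ext.none :=
  certB2 (fam := false) (s1 := true) (s2 := true) (a := 0) (b := 2) (c := 3) (cn := .up) (n1 := ndB1q0) (n2 := ndB1q3) (pc := pcB2) (cut := Cut.none) (xt := Ext.none) (P1 := 0) (W1 := 536870912) (P2 := 1610612736) (W2 := 536870912) (P3 := 991146299) (W3 := 28908434) (N0 := 3) (En := eng) (mo := mog) (C1 := cd1q0) (C2 := cd1q3) (C3 := pd2)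
    rfl (fun _ => rfl) k0_pp_023

noncomputable def f_pp_033 : ℕ → ℕ → ℕ → ℕ → Bool := onCell 1610612736 536870912 1610612736 536870912 991146299 28908434
    (rowB 3 eng mog cd1q0 cd1q3 pd3 2 false true true .pnn 0 3 3 (qsf 0 536870912 1610612736 536870912 3) ndB1q0 ndB1q3 pcB3 Cut.none Ext.none)

def k0_pp_033 : ∃ t, chk3 f_pp_033 t 1 1 1 = true :=
  ⟨(a (b (a (b (a (b (a (l 15462208) (l 444559613159)) (a (l 15682840) (l 15630280))) (b (a (l 574482276855) (l 1)) (a (l 15460616) (l 488045654967)))) (a (b (l 15707112) (l 15761504)) (b (a (l 15580536) (l 15418688)) (l 15648576)))) (b (a (b (l 1) (a (l 529384243703) (l 1))) (l 1)) (a (b (a (l 15182344) (l 14770728)) (a (l 15423264) (l 15245176))) (b (a (l 616893729943) (l 1)) (a (l 14912784) (l 4)))))) (a (b (a (l 15894744) (l 15744256)) (a (l 15987448) (b (l 16138248) (l 16326720)))) (a (a (b (l 15762672) (l 16073456)) (b (l 15641040) (l 4))) (l 4)))) (b (a (b (l 1) (a (b (l 1) (l 4)) (l 1))) (l 1)) (a (l 4) (b (a (b (l 1)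 (l 4)) (l 1)) (l 4))))), by decide +kernel⟩

theorem c_pp_033 : CertB 0 536870912 1610612736 536870912 991146299 28908434 3 eng mog cd1q0 cd1q3 pd3 false true true .pnn 0 3 3
    ndB1q0 ndB1q3 pcB3 Cut.none Ext.none :=
  certB2 (fam := false) (s1 := true) (s2 := true) (a := 0) (b := 3) (c := 3) (cn := .pnn) (n1 := ndB1q0) (n2 := ndB1q3) (pc := pcB3) (cut := Cut.none) (xt := Ext.none) (P1 := 0) (W1 := 536870912) (P2 := 1610612736) (W2 := 536870912) (P3 := 991146299) (W3 := 28908434) (N0 := 3) (En := eng) (mo := mog) (C1 := cd1q0) (C2 := cd1q3) (C3 := pd3)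
    rfl (fun _ => rfl) k0_pp_033

noncomputable def f_pp_101 : ℕ → ℕ → ℕ → ℕ → Bool := onCell 536870912 536870912 536870912 536870912 991146299 28908434
    (rowB 3 eng mog cd1q1 cd1q1 pd0 0 false true true .npn 1 0 1 (qsf 536870912 536870912 536870912 536870912 0) ndB1q1 ndB1q1 pcB0 Cut.none Ext.none)

def k0_pp_101 : ∃ t, chk3 f_pp_101 t 1 1 1 = true :=
  ⟨(l 3), by decide +kernel⟩

theorem c_pp_101 : CertB 536870912 536870912 536870912 536870912 991146299 28908434 3 eng mog cd1q1 cd1q1 pd0 false true true .npn 1 0 1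
    ndB1q1 ndB1q1 pcB0 Cut.none Ext.none :=
  certB0 (fam := false) (s1 := true) (s2 := true) (a := 1) (b := 0) (c := 1) (cn := .npn) (n1 := ndB1q1) (n2 := ndB1q1) (pc := pcB0) (cut := Cut.none) (xt := Ext.none) (P1 := 536870912) (W1 := 536870912) (P2 := 536870912) (W2 := 536870912) (P3 := 991146299) (W3 := 28908434) (N0 := 3) (En := eng) (mo := mog) (C1 := cd1q1) (C2 := cd1q1) (C3 := pd0)
    rfl k0_pp_101

noncomputable def f_pp_102_a : ℕ → ℕ → ℕ → ℕ → Bool := onCell 0 536870912 0 536870912 991146299 28908434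
    (rowB 3 eng mog cd1q1 cd1q2a pd0 2 false true true .npp 1 0 2 (qsf 536870912 536870912 0 536870912 0) ndB1q1 ndB1q2a pcB0 Cut.none Ext.none)

def k0_pp_102_a : ∃ t, chk3 f_pp_102_a t 1 1 1 = true :=
  ⟨(a (a (l 3) (l 3)) (l 3)), by decide +kernel⟩

theorem c_pp_102_a : CertB 536870912 536870912 0 536870912 991146299 28908434 3 eng mog cd1q1 cd1q2a pd0 false true true .npp 1 0 2
    ndB1q1 ndB1q2a pcB0 Cut.none Ext.none :=
  certB2 (fam := false) (s1 := true) (s2 := true) (a := 1) (b := 0) (c := 2) (cn := .npp) (n1 := ndB1q1) (n2 := ndB1q2a) (pc := pcB0) (cut := Cut.none) (xt := Ext.none) (P1 := 536870912) (W1 := 536870912) (P2 := 0) (W2 := 536870912) (P3 := 991146299) (W3 := 28908434) (N0 := 3) (En := eng) (mo := mog) (C1 := cd1q1) (C2 := cd1q2a) (C3 := pd0)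
    rfl (fun _ => rfl) k0_pp_102_a

noncomputable def f_pp_102_b : ℕ → ℕ → ℕ → ℕ → Bool := onCell 536870912 536870912 0 536870912 991146299 28908434
    (rowB 3 eng mog cd1q1 cd1q2b pd0 1 false true true .npp 1 0 2 (qsf 536870912 536870912 1239849684 370763052 0) ndB1q1 ndB1q2b pcB0 Cut.none Ext.none)

def k0_pp_102_b : ∃ t, chk3 f_pp_102_b t 1 1 1 = true :=
  ⟨(a (a (l 1) (l 3)) (l 3)), by decide +kernel⟩

theorem c_pp_102_b : CertB 536870912 536870912 1239849684 370763052 991146299 28908434 3 eng mog cd1q1 cd1q2b pd0 false true true .npp 1 0 2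
    ndB1q1 ndB1q2b pcB0 Cut.none Ext.none :=
  certB1 (fam := false) (s1 := true) (s2 := true) (a := 1) (b := 0) (c := 2) (cn := .npp) (n1 := ndB1q1) (n2 := ndB1q2b) (pc := pcB0) (cut := Cut.none) (xt := Ext.none) (P1 := 536870912) (W1 := 536870912) (P2 := 1239849684) (W2 := 370763052) (P3 := 991146299) (W3 := 28908434) (N0 := 3) (En := eng) (mo := mog) (C1 := cd1q1) (C2 := cd1q2b) (C3 := pd0)
    rfl (fun _ => rfl) k0_pp_102_b

noncomputable def f_pp_112_a : ℕ → ℕ → ℕ → ℕ → Bool := onCell 536870912 536870912 0 536870912 991146299 28908434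
    (rowB 3 eng mog cd1q1 cd1q2a pd1 0 false true true .dn 1 1 2 (qsf 536870912 536870912 0 536870912 1) ndB1q1 ndB1q2a pcB1 Cut.none Ext.none)

def k0_pp_112_a : ∃ t, chk3 f_pp_112_a t 1 1 1 = true :=
  ⟨(a (b (a (b (b (a (c (b (a (l 16279640) (a (l 16318264) (l 16351656))) (a (a (l 16312728) (l 16295168)) (a (b (l 16355480) (l 91434992375)) (b (l 93582463831) (l 65128361575))))) (a (a (l 16248592) (b (l 16334936) (l 16334304))) (b (a (l 16362576) (l 16396056)) (a (b (l 16395872) (l 99488131527)) (b (l 97877522167) (l 65128447639)))))) (a (b (b (a (l 16335208) (a (l 16425856) (l 93582570727))) (a (a (l 16415024) (l 84992601511)) (a (l 66202171287) (l 3)))) (a (c (l 59222793895) (l 58149141479)) (l 3))) (a (b (a (l 55464778215) (l 3)) (l 3)) (l 3)))) (a (a (b (c (a (b (l 16344976) (a (l 16360504) (l 16350856))) (b (l 88750658471) (l 66738940775))) (a (b (l 16380616) (l 97877545063)) (b (l 96803794455) (l 68349620615)))) (a (a (c (l 67275790295) (l 68349596007)) (l 56538352887))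 (l 3))) (a (b (a (c (l 64591454279) (l 64591539687)) (l 54927768679)) (l 3)) (l 3))) (l 3))) (l 3)) (l 3)) (l 3)) (l 1)), by decide +kernel⟩

theorem c_pp_112_a : CertB 536870912 536870912 0 536870912 991146299 28908434 3 eng mog cd1q1 cd1q2a pd1 false true true .dn 1 1 2
    ndB1q1 ndB1q2a pcB1 Cut.none Ext.none :=
  certB0 (fam := false) (s1 := true) (s2 := true) (a := 1) (b := 1) (c := 2) (cn := .dn) (n1 := ndB1q1) (n2 := ndB1q2a) (pc := pcB1) (cut := Cut.none) (xt := Ext.none) (P1 := 536870912) (W1 := 536870912) (P2 := 0) (W2 := 536870912) (P3 := 991146299) (W3 := 28908434) (N0 := 3) (En := eng) (mo := mog) (C1 := cd1q1) (C2 := cd1q2a) (C3 := pd1)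
    rfl k0_pp_112_a

noncomputable def f_pp_112_b : ℕ → ℕ → ℕ → ℕ → Bool := onCell 536870912 536870912 1239849684 370763052 991146299 28908434
    (rowB 3 eng mog cd1q1 cd1q2b pd1 2 false true true .dn 1 1 2 (qsf 536870912 536870912 1239849684 370763052 1) ndB1q1 ndB1q2b pcB1 Cut.none Ext.none)

def k0_pp_112_b : ∃ t, chk3 f_pp_112_b t 1 1 1 = true :=
  ⟨(a (a (b (a (b (a (l 3) (a (l 3) (b (b (c (l 16412912) (l 16447256)) (l 16564568)) (l 3)))) (l 3)) (b (a (b (a (b (c (l 16440440) (l 16479352)) (l 16435520)) (b (l 16335592) (l 16492632))) (a (l 66202314215) (b (l 16565808) (l 16638880)))) (b (a (b (l 16357936) (l 16445728)) (b (l 16343832) (l 16404080))) (a (l 16506624) (l 16498800)))) (a (b (l 72644881463) (l 3)) (b (a (l 16628944) (l 16634496)) (a (l 16648552) (l 16703904)))))) (a (l 3) (b (a (l 3) (b (l 16358408) (l 3))) (l 3)))) (b (a (b (a (b (c (l 16285840) (l 16348352)) (c (l 16375048) (l 16409088))) (b (c (l 16266640) (l 16307640)) (l 16303536))) (a (b (b (l 16523272)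 (l 16566536)) (l 16647288)) (c (l 16361640) (l 16387608)))) (b (a (b (l 16146632) (l 16322584)) (b (l 1) (l 16303144))) (a (b (l 16394824) (l 16487952)) (b (l 16346328) (l 16412776))))) (a (b (a (b (a (l 16609496) (l 16671824)) (l 16272704)) (b (l 16706792) (l 16497696))) (a (b (l 16192120) (l 3)) (b (l 16272008) (l 16062568)))) (b (a (b (l 16598552) (l 16645792)) (l 16445288)) (a (b (l 16466512) (l 16266944)) (l 16319408)))))) (a (b (b (l 1) (a (a (l 16252176) (l 207801334455)) (a (l 16220280) (l 1)))) (a (b (a (l 16455088) (l 16375776)) (a (l 16468520) (l 16443224))) (b (a (l 16314736) (l 16273112)) (a (l 16377344) (l 16292856))))) (b (l 1) (a (b (a (l 16249424) (l 16241168)) (a (l 16215456) (l 16162504))) (b (l 1) (l 16118024)))))), by decide +kernel⟩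

theorem c_pp_112_b : CertB 536870912 536870912 1239849684 370763052 991146299 28908434 3 eng mog cd1q1 cd1q2b pd1 false true true .dn 1 1 2
    ndB1q1 ndB1q2b pcB1 Cut.none Ext.none :=
  certB2 (fam := false) (s1 := true) (s2 := true) (a := 1) (b := 1) (c := 2) (cn := .dn) (n1 := ndB1q1) (n2 := ndB1q2b) (pc := pcB1) (cut := Cut.none) (xt := Ext.none) (P1 := 536870912) (W1 := 536870912) (P2 := 1239849684) (W2 := 370763052) (P3 := 991146299) (W3 := 28908434) (N0 := 3) (En := eng) (mo := mog) (C1 := cd1q1) (C2 := cd1q2b) (C3 := pd1)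
    rfl (fun _ => rfl) k0_pp_112_b

noncomputable def f_pp_113 : ℕ → ℕ → ℕ → ℕ → Bool := onCell 536870912 536870912 536870912 536870912 991146299 28908434
    (rowB 3 eng mog cd1q1 cd1q3 pd1 1 false true true .nn 1 1 3 (qsf 536870912 536870912 1610612736 536870912 1) ndB1q1 ndB1q3 pcB1 Cut.none Ext.none)

def k0_pp_113 : ∃ t, chk3 f_pp_113 t 1 1 1 = true :=
  ⟨(b (a (b (l 1) (a (l 1) (b (l 1) (a (l 1) (c (l 16517424) (l 16475008)))))) (b (a (l 3) (l 3)) (a (b (a (b (l 1) (l 312490934151)) (b (l 3) (l 219745903367))) (a (c (l 15994824) (l 16015288)) (b (a (l 16027992) (l 15883696)) (l 15834816)))) (b (l 3) (a (b (l 3) (l 224040167463)) (l 3)))))) (b (a (a (b (l 1) (a (l 1) (l 214780574871))) (b (a (l 140156073831) (b (l 16368264) (l 16250696))) (a (b (l 16284088) (l 16111352)) (b (l 16108368) (l 15941920))))) (a (b (a (b (l 16127264) (l 16033192)) (b (l 15868640) (l 15801360))) (a (l 15659600) (b (l 15717448) (l 15618208)))) (b (a (b (l 131161430551) (l 15567208)) (b (l 296518191207)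 (l 289001967399))) (a (b (l 15522704) (l 15480264)) (b (l 189680844247) (l 15375088)))))) (a (b (a (a (l 16177384) (l 16032128)) (a (l 15637296) (b (l 15776936) (l 15631432)))) (a (a (l 15979512) (l 15828072)) (a (l 15573912) (l 15487416)))) (b (a (a (b (l 15620264) (l 15484368)) (b (l 15505824) (l 15393816))) (a (b (l 15449728) (l 15443752)) (b (l 15477792) (l 15735416)))) (a (a (l 15349744) (b (l 15328256) (l 15315248))) (a (b (l 15495536) (l 15680736)) (b (l 16337488) (a (l 16770192) (l 16801280))))))))), by decide +kernel⟩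

theorem c_pp_113 : CertB 536870912 536870912 1610612736 536870912 991146299 28908434 3 eng mog cd1q1 cd1q3 pd1 false true true .nn 1 1 3
    ndB1q1 ndB1q3 pcB1 Cut.none Ext.none :=
  certB1 (fam := false) (s1 := true) (s2 := true) (a := 1) (b := 1) (c := 3) (cn := .nn) (n1 := ndB1q1) (n2 := ndB1q3) (pc := pcB1) (cut := Cut.none) (xt := Ext.none) (P1 := 536870912) (W1 := 536870912) (P2 := 1610612736) (W2 := 536870912) (P3 := 991146299) (W3 := 28908434) (N0 := 3) (En := eng) (mo := mog) (C1 := cd1q1) (C2 := cd1q3) (C3 := pd1)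
    rfl (fun _ => rfl) k0_pp_113

noncomputable def f_pp_123 : ℕ → ℕ → ℕ → ℕ → Bool := onCell 1073741824 536870912 1610612736 536870912 991146299 28908434
    (rowB 3 eng mog cd1q1 cd1q3 pd2 2 false true true .npn 1 2 3 (qsf 536870912 536870912 1610612736 536870912 2) ndB1q1 ndB1q3 pcB2 Cut.none Ext.none)

def k0_pp_123 : ∃ t, chk3 f_pp_123 t 1 1 1 = true :=
  ⟨(a (b (a (b (a (b (c (l 16145392) (l 16169176)) (c (l 16033400) (l 16188576))) (b (l 15997592) (l 15936304))) (a (b (c (l 15910624) (l 16069496)) (c (l 15798104) (l 15929120))) (b (l 15845064) (l 15763672)))) (b (a (b (l 1) (l 15717856)) (l 1)) (a (b (l 15644256) (l 15577584)) (b (l 15431024) (l 15362552))))) (a (b (a (a (c (l 15720784) (l 15792048)) (a (l 15774504) (l 15775536))) (b (l 15721208) (l 15765152))) (a (b (c (a (l 16185872) (l 16066096)) (b (l 15955160) (l 16165472))) (a (b (l 16354976) (c (l 16527656) (l 16379896))) (b (l 16460656) (l 16614968)))) (b (a (l 16009440) (l 15932672)) (a (b (l 16365896) (l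 16666720)) (l 16412784))))) (b (a (b (l 15542592) (l 15577832)) (b (l 15315664) (l 15320872))) (b (a (l 15746600) (l 15426296)) (a (a (l 16248048) (l 16022600)) (l 15481144)))))) (a (b (b (l 1) (a (b (l 1) (l 15155640)) (l 1))) (b (a (b (l 15088344) (l 15055832)) (b (l 14890784) (l 14820024))) (a (b (l 15093896) (l 15270792)) (b (l 14795312) (l 14894360))))) (b (l 1) (b (a (a (l 14725136) (l 1)) (l 1)) (a (b (a (l 14614304) (l 14631752)) (a (l 14661952) (l 14670592))) (b (l 14843720) (a (l 14791128) (l 14953032)))))))), by decide +kernel⟩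

theorem c_pp_123 : CertB 536870912 536870912 1610612736 536870912 991146299 28908434 3 eng mog cd1q1 cd1q3 pd2 false true true .npn 1 2 3
    ndB1q1 ndB1q3 pcB2 Cut.none Ext.none :=
  certB2 (fam := false) (s1 := true) (s2 := true) (a := 1) (b := 2) (c := 3) (cn := .npn) (n1 := ndB1q1) (n2 := ndB1q3) (pc := pcB2) (cut := Cut.none) (xt := Ext.none) (P1 := 536870912) (W1 := 536870912) (P2 := 1610612736) (W2 := 536870912) (P3 := 991146299) (W3 := 28908434) (N0 := 3) (En := eng) (mo := mog) (C1 := cd1q1) (C2 := cd1q3) (C3 := pd2)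
    rfl (fun _ => rfl) k0_pp_123

noncomputable def f_pp_133 : ℕ → ℕ → ℕ → ℕ → Bool := onCell 536870912 536870912 1610612736 536870912 991146299 28908434
    (rowB 3 eng mog cd1q1 cd1q3 pd3 1 false true true .dn 1 3 3 (qsf 536870912 536870912 1610612736 536870912 3) ndB1q1 ndB1q3 pcB3 Cut.none Ext.none)

def k0_pp_133 : ∃ t, chk3 f_pp_133 t 1 1 1 = true :=
  ⟨(a (b (a (b (a (b (l 15815672) (l 2)) (l 2)) (l 2)) (l 2)) (l 2)) (l 2)), by decide +kernel⟩

theorem c_pp_133 : CertB 536870912 536870912 1610612736 536870912 991146299 28908434 3 eng mog cd1q1 cd1q3 pd3 false true true .dn 1 3 3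
    ndB1q1 ndB1q3 pcB3 Cut.none Ext.none :=
  certB1 (fam := false) (s1 := true) (s2 := true) (a := 1) (b := 3) (c := 3) (cn := .dn) (n1 := ndB1q1) (n2 := ndB1q3) (pc := pcB3) (cut := Cut.none) (xt := Ext.none) (P1 := 536870912) (W1 := 536870912) (P2 := 1610612736) (W2 := 536870912) (P3 := 991146299) (W3 := 28908434) (N0 := 3) (En := eng) (mo := mog) (C1 := cd1q1) (C2 := cd1q3) (C3 := pd3)
    rfl (fun _ => rfl) k0_pp_133

noncomputable def f_pp_202_aa : ℕ → ℕ → ℕ → ℕ → Bool := onCell 0 536870912 0 536870912 991146299 28908434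
    (rowB 3 eng mog cd1q2a cd1q2a pd0 0 false true true .pp 2 0 2 (qsf 0 536870912 0 536870912 0) ndB1q2a ndB1q2a pcB0 Cut.none Ext.none)

def k0_pp_202_aa : ∃ t, chk3 f_pp_202_aa t 1 1 1 = true :=
  ⟨(l 3), by decide +kernel⟩

theorem c_pp_202_aa : CertB 0 536870912 0 536870912 991146299 28908434 3 eng mog cd1q2a cd1q2a pd0 false true true .pp 2 0 2
    ndB1q2a ndB1q2a pcB0 Cut.none Ext.none :=
  certB0 (fam := false) (s1 := true) (s2 := true) (a := 2) (b := 0) (c := 2) (cn := .pp) (n1 := ndB1q2a) (n2 := ndB1q2a) (pc := pcB0) (cut := Cut.none) (xt := Ext.none) (P1 := 0) (W1 := 536870912) (P2 := 0) (W2 := 536870912) (P3 := 991146299) (W3 := 28908434) (N0 := 3) (En := eng) (mo := mog) (C1 := cd1q2a) (C2 := cd1q2a) (C3 := pd0)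
    rfl k0_pp_202_aa

noncomputable def f_pp_202_ab : ℕ → ℕ → ℕ → ℕ → Bool := onCell 0 536870912 1239849684 370763052 991146299 28908434
    (rowB 3 eng mog cd1q2a cd1q2b pd0 0 false true true .pp 2 0 2 (qsf 0 536870912 1239849684 370763052 0) ndB1q2a ndB1q2b pcB0 Cut.none Ext.none)

def k0_pp_202_ab : ∃ t, chk3 f_pp_202_ab t 1 1 1 = true :=
  ⟨(l 3), by decide +kernel⟩

theorem c_pp_202_ab : CertB 0 536870912 1239849684 370763052 991146299 28908434 3 eng mog cd1q2a cd1q2b pd0 false true true .pp 2 0 2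
    ndB1q2a ndB1q2b pcB0 Cut.none Ext.none :=
  certB0 (fam := false) (s1 := true) (s2 := true) (a := 2) (b := 0) (c := 2) (cn := .pp) (n1 := ndB1q2a) (n2 := ndB1q2b) (pc := pcB0) (cut := Cut.none) (xt := Ext.none) (P1 := 0) (W1 := 536870912) (P2 := 1239849684) (W2 := 370763052) (P3 := 991146299) (W3 := 28908434) (N0 := 3) (En := eng) (mo := mog) (C1 := cd1q2a) (C2 := cd1q2b) (C3 := pd0)
    rfl k0_pp_202_ab

noncomputable def f_pp_202_ba : ℕ → ℕ → ℕ → ℕ → Bool := onCell 1239849684 370763052 0 536870912 991146299 28908434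
    (rowB 3 eng mog cd1q2b cd1q2a pd0 0 false true true .pp 2 0 2 (qsf 1239849684 370763052 0 536870912 0) ndB1q2b ndB1q2a pcB0 Cut.none Ext.none)

def k0_pp_202_ba : ∃ t, chk3 f_pp_202_ba t 1 1 1 = true :=
  ⟨(l 3), by decide +kernel⟩

theorem c_pp_202_ba : CertB 1239849684 370763052 0 536870912 991146299 28908434 3 eng mog cd1q2b cd1q2a pd0 false true true .pp 2 0 2
    ndB1q2b ndB1q2a pcB0 Cut.none Ext.none :=
  certB0 (fam := false) (s1 := true) (s2 := true) (a := 2) (b := 0) (c := 2) (cn := .pp) (n1 := ndB1q2b) (n2 := ndB1q2a) (pc := pcB0) (cut := Cut.none) (xt := Ext.none) (P1 := 1239849684) (W1 := 370763052) (P2 := 0) (W2 := 536870912) (P3 := 991146299) (W3 := 28908434) (N0 := 3) (En := eng) (mo := mog) (C1 := cd1q2b) (C2 := cd1q2a) (C3 := pd0)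
    rfl k0_pp_202_ba

noncomputable def f_pp_202_bb : ℕ → ℕ → ℕ → ℕ → Bool := onCell 1239849684 370763052 1239849684 370763052 991146299 28908434
    (rowB 3 eng mog cd1q2b cd1q2b pd0 0 false true true .pp 2 0 2 (qsf 1239849684 370763052 1239849684 370763052 0) ndB1q2b ndB1q2b pcB0 Cut.none Ext.none)

def k0_pp_202_bb : ∃ t, chk3 f_pp_202_bb t 1 1 1 = true :=
  ⟨(l 3), by decide +kernel⟩

theorem c_pp_202_bb : CertB 1239849684 370763052 1239849684 370763052 991146299 28908434 3 eng mog cd1q2b cd1q2b pd0 false true true .pp 2 0 2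
    ndB1q2b ndB1q2b pcB0 Cut.none Ext.none :=
  certB0 (fam := false) (s1 := true) (s2 := true) (a := 2) (b := 0) (c := 2) (cn := .pp) (n1 := ndB1q2b) (n2 := ndB1q2b) (pc := pcB0) (cut := Cut.none) (xt := Ext.none) (P1 := 1239849684) (W1 := 370763052) (P2 := 1239849684) (W2 := 370763052) (P3 := 991146299) (W3 := 28908434) (N0 := 3) (En := eng) (mo := mog) (C1 := cd1q2b) (C2 := cd1q2b) (C3 := pd0)
    rfl k0_pp_202_bb

noncomputable def f_pp_203_a : ℕ → ℕ → ℕ → ℕ → Bool := onCell 0 536870912 0 536870912 991146299 28908434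
    (rowB 3 eng mog cd1q2a cd1q3 pd0 1 false true true .up 2 0 3 (qsf 0 536870912 1610612736 536870912 0) ndB1q2a ndB1q3 pcB0 Cut.none Ext.none)

def k0_pp_203_a : ∃ t, chk3 f_pp_203_a t 1 1 1 = true :=
  ⟨(l 3), by decide +kernel⟩

theorem c_pp_203_a : CertB 0 536870912 1610612736 536870912 991146299 28908434 3 eng mog cd1q2a cd1q3 pd0 false true true .up 2 0 3
    ndB1q2a ndB1q3 pcB0 Cut.none Ext.none :=
  certB1 (fam := false) (s1 := true) (s2 := true) (a := 2) (b := 0) (c := 3) (cn := .up) (n1 := ndB1q2a) (n2 := ndB1q3) (pc := pcB0) (cut := Cut.none) (xt := Ext.none) (P1 := 0) (W1 := 536870912) (P2 := 1610612736) (W2 := 536870912) (P3 := 991146299) (W3 := 28908434) (N0 := 3) (En := eng) (mo := mog) (C1 := cd1q2a) (C2 := cd1q3) (C3 := pd0)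
    rfl (fun _ => rfl) k0_pp_203_a

noncomputable def f_pp_203_b : ℕ → ℕ → ℕ → ℕ → Bool := onCell 1239849684 370763052 1610612736 536870912 991146299 28908434
    (rowB 3 eng mog cd1q2b cd1q3 pd0 0 false true true .up 2 0 3 (qsf 1239849684 370763052 1610612736 536870912 0) ndB1q2b ndB1q3 pcB0 Cut.none Ext.none)

def k0_pp_203_b : ∃ t, chk3 f_pp_203_b t 1 1 1 = true :=
  ⟨(l 3), by decide +kernel⟩

theorem c_pp_203_b : CertB 1239849684 370763052 1610612736 536870912 991146299 28908434 3 eng mog cd1q2b cd1q3 pd0 false true true .up 2 0 3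
    ndB1q2b ndB1q3 pcB0 Cut.none Ext.none :=
  certB0 (fam := false) (s1 := true) (s2 := true) (a := 2) (b := 0) (c := 3) (cn := .up) (n1 := ndB1q2b) (n2 := ndB1q3) (pc := pcB0) (cut := Cut.none) (xt := Ext.none) (P1 := 1239849684) (W1 := 370763052) (P2 := 1610612736) (W2 := 536870912) (P3 := 991146299) (W3 := 28908434) (N0 := 3) (En := eng) (mo := mog) (C1 := cd1q2b) (C2 := cd1q3) (C3 := pd0)
    rfl k0_pp_203_b

noncomputable def cut_pp_213_a : Cut := Cut.of [[⟨0, 1, 0, 37748736⟩, ⟨1, 1, 0, 37748736⟩, ⟨2, 2, 0, 5242880⟩]]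

noncomputable def f_pp_213_a : ℕ → ℕ → ℕ → ℕ → Bool := onCell 0 536870912 1610612736 536870912 991146299 28908434
    (rowB 3 eng mog cd1q2a cd1q3 pd1 0 false true true .pnn 2 1 3 (qsf 0 536870912 1610612736 536870912 1) ndB1q2a ndB1q3 pcB1 cut_pp_213_a Ext.none)

def k0_pp_213_a : ∃ t, chk3 f_pp_213_a t 1 1 1 = true :=
  ⟨(b (l 3) (b (l 3) (a (l 3) (a (l 3) (b (l 3) (a (l 3) (b (l 3) (a (l 3) (b (l 3) (b (l 3) (b (l 3) (l 6)))))))))))), by decide +kernel⟩

theorem c_pp_213_a : CertB 0 536870912 1610612736 536870912 991146299 28908434 3 eng mog cd1q2a cd1q3 pd1 false true true .pnn 2 1 3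
    ndB1q2a ndB1q3 pcB1 cut_pp_213_a Ext.none :=
  certB0 (fam := false) (s1 := true) (s2 := true) (a := 2) (b := 1) (c := 3) (cn := .pnn) (n1 := ndB1q2a) (n2 := ndB1q3) (pc := pcB1) (cut := cut_pp_213_a) (xt := Ext.none) (P1 := 0) (W1 := 536870912) (P2 := 1610612736) (W2 := 536870912) (P3 := 991146299) (W3 := 28908434) (N0 := 3) (En := eng) (mo := mog) (C1 := cd1q2a) (C2 := cd1q3) (C3 := pd1)
    rfl k0_pp_213_a

noncomputable def cut_pp_213_b : Cut := Cut.of [[⟨0, 1, 0, 37748736⟩, ⟨1, 1, 0, 37748736⟩, ⟨2, 2, 0, 5242880⟩]]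

noncomputable def f_pp_213_b : ℕ → ℕ → ℕ → ℕ → Bool := onCell 1239849684 370763052 1610612736 536870912 991146299 28908434
    (rowB 3 eng mog cd1q2b cd1q3 pd1 0 false true true .pnn 2 1 3 (qsf 1239849684 370763052 1610612736 536870912 1) ndB1q2b ndB1q3 pcB1 cut_pp_213_b Ext.none)

def k0_pp_213_b : ∃ t, chk3 f_pp_213_b t 1 1 1 = true :=
  ⟨(l 3), by decide +kernel⟩

theorem c_pp_213_b : CertB 1239849684 370763052 1610612736 536870912 991146299 28908434 3 eng mog cd1q2b cd1q3 pd1 false true true .pnn 2 1 3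
    ndB1q2b ndB1q3 pcB1 cut_pp_213_b Ext.none :=
  certB0 (fam := false) (s1 := true) (s2 := true) (a := 2) (b := 1) (c := 3) (cn := .pnn) (n1 := ndB1q2b) (n2 := ndB1q3) (pc := pcB1) (cut := cut_pp_213_b) (xt := Ext.none) (P1 := 1239849684) (W1 := 370763052) (P2 := 1610612736) (W2 := 536870912) (P3 := 991146299) (W3 := 28908434) (N0 := 3) (En := eng) (mo := mog) (C1 := cd1q2b) (C2 := cd1q3) (C3 := pd1)
    rfl k0_pp_213_b

noncomputable def f_pp_303 : ℕ → ℕ → ℕ → ℕ → Bool := onCell 1610612736 536870912 1610612736 536870912 991146299 28908434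
    (rowB 3 eng mog cd1q3 cd1q3 pd0 0 false true true .npn 3 0 3 (qsf 1610612736 536870912 1610612736 536870912 0) ndB1q3 ndB1q3 pcB0 Cut.none Ext.none)

def k0_pp_303 : ∃ t, chk3 f_pp_303 t 1 1 1 = true :=
  ⟨(l 3), by decide +kernel⟩

theorem c_pp_303 : CertB 1610612736 536870912 1610612736 536870912 991146299 28908434 3 eng mog cd1q3 cd1q3 pd0 false true true .npn 3 0 3
    ndB1q3 ndB1q3 pcB0 Cut.none Ext.none :=
  certB0 (fam := false) (s1 := true) (s2 := true) (a := 3) (b := 0) (c := 3) (cn := .npn) (n1 := ndB1q3) (n2 := ndB1q3) (pc := pcB0) (cut := Cut.none) (xt := Ext.none) (P1 := 1610612736) (W1 := 536870912) (P2 := 1610612736) (W2 := 536870912) (P3 := 991146299) (W3 := 28908434) (N0 := 3) (En := eng) (mo := mog) (C1 := cd1q3) (C2 := cd1q3) (C3 := pd0)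
    rfl k0_pp_303

noncomputable def f_pp_313 : ℕ → ℕ → ℕ → ℕ → Bool := onCell 1610612736 536870912 1610612736 536870912 991146299 28908434
    (rowB 3 eng mog cd1q3 cd1q3 pd1 0 false true true .dn 3 1 3 (qsf 1610612736 536870912 1610612736 536870912 1) ndB1q3 ndB1q3 pcB1 Cut.none Ext.none)

def k0_pp_313 : ∃ t, chk3 f_pp_313 t 1 1 1 = true :=
  ⟨(l 3), by decide +kernel⟩

theorem c_pp_313 : CertB 1610612736 536870912 1610612736 536870912 991146299 28908434 3 eng mog cd1q3 cd1q3 pd1 false true true .dn 3 1 3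
    ndB1q3 ndB1q3 pcB1 Cut.none Ext.none :=
  certB0 (fam := false) (s1 := true) (s2 := true) (a := 3) (b := 1) (c := 3) (cn := .dn) (n1 := ndB1q3) (n2 := ndB1q3) (pc := pcB1) (cut := Cut.none) (xt := Ext.none) (P1 := 1610612736) (W1 := 536870912) (P2 := 1610612736) (W2 := 536870912) (P3 := 991146299) (W3 := 28908434) (N0 := 3) (En := eng) (mo := mog) (C1 := cd1q3) (C2 := cd1q3) (C3 := pd1)
    rfl k0_pp_313

noncomputable def f_pm_001 : ℕ → ℕ → ℕ → ℕ → Bool := onCell 0 536870912 536870912 536870912 991146299 28908434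
    (rowB 3 eng mog cd1q0 cd1q1 pd0 0 false true false .up 0 0 1 (qsf 0 536870912 536870912 536870912 0) ndB1q0 ndB1q1 pcB0 Cut.none Ext.none)

def k0_pm_001 : ∃ t, chk3 f_pm_001 t 1 1 1 = true :=
  ⟨(l 4), by decide +kernel⟩

theorem c_pm_001 : CertB 0 536870912 536870912 536870912 991146299 28908434 3 eng mog cd1q0 cd1q1 pd0 false true false .up 0 0 1
    ndB1q0 ndB1q1 pcB0 Cut.none Ext.none :=
  certB0 (fam := false) (s1 := true) (s2 := false) (a := 0) (b := 0) (c := 1) (cn := .up) (n1 := ndB1q0) (n2 := ndB1q1) (pc := pcB0) (cut := Cut.none) (xt := Ext.none) (P1 := 0) (W1 := 536870912) (P2 := 536870912) (W2 := 536870912) (P3 := 991146299) (W3 := 28908434) (N0 := 3) (En := eng) (mo := mog) (C1 := cd1q0) (C2 := cd1q1) (C3 := pd0)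
    rfl k0_pm_001

noncomputable def f_pm_011 : ℕ → ℕ → ℕ → ℕ → Bool := onCell 0 536870912 536870912 536870912 991146299 28908434
    (rowB 3 eng mog cd1q0 cd1q1 pd1 0 false true false .pnn 0 1 1 (qsf 0 536870912 536870912 536870912 1) ndB1q0 ndB1q1 pcB1 Cut.none Ext.none)

def k0_pm_011 : ∃ t, chk3 f_pm_011 t 1 1 1 = true :=
  ⟨(l 4), by decide +kernel⟩

theorem c_pm_011 : CertB 0 536870912 536870912 536870912 991146299 28908434 3 eng mog cd1q0 cd1q1 pd1 false true false .pnn 0 1 1
    ndB1q0 ndB1q1 pcB1 Cut.none Ext.none :=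
  certB0 (fam := false) (s1 := true) (s2 := false) (a := 0) (b := 1) (c := 1) (cn := .pnn) (n1 := ndB1q0) (n2 := ndB1q1) (pc := pcB1) (cut := Cut.none) (xt := Ext.none) (P1 := 0) (W1 := 536870912) (P2 := 536870912) (W2 := 536870912) (P3 := 991146299) (W3 := 28908434) (N0 := 3) (En := eng) (mo := mog) (C1 := cd1q0) (C2 := cd1q1) (C3 := pd1)
    rfl k0_pm_011

noncomputable def cut_pm_012_a : Cut := Cut.of [[⟨0, 0, 0, 53687091⟩, ⟨1, 1, 0, 53687091⟩, ⟨2, 1, 0, 53687091⟩]]

noncomputable def xt_pm_012_a : Ext := extD3 3 ⟨4, 1, 1, 5, 22, 5, 21, 25, 41, 100, 1, 20⟩ eng cd1q0 cd1q2a pd1 false true false .pnp 0 1 2 rfl ndB1q0 ndB1q2a pcB1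

noncomputable def f_pm_012_a : ℕ → ℕ → ℕ → ℕ → Bool := onCell 536870912 536870912 0 536870912 991146299 28908434
    (rowB 3 eng mog cd1q0 cd1q2a pd1 2 false true false .pnp 0 1 2 (qsf 0 536870912 0 536870912 1) ndB1q0 ndB1q2a pcB1 cut_pm_012_a xt_pm_012_a)

def k0_pm_012_a : ∃ t, chk3 f_pm_012_a t 2 1 1 = true :=
  ⟨(a (b (b (l 2) (a (l 2) (b (l 2) (c (l 15665208) (l 15627864))))) (b (a (l 2) (b (c (l 15805640) (l 15807784)) (c (l 15965704) (l 16008560)))) (b (a (b (b (l 2) (l 16107368)) (l 16203872)) (b (a (l 16141440) (l 16136160)) (a (l 16209976) (l 16214072)))) (a (b (l 16246120) (l 16295208)) (b (l 16275104) (l 16284776)))))) (b (b (a (b (a (l 15839176) (l 15815616)) (b (a (l 15649216) (l 15651680)) (a (b (l 15555096) (l 15666168)) (l 15559704)))) (b (a (l 15815040) (l 15837488)) (a (b (l 15676336) (l 15622560)) (b (l 15729888) (l 15720480))))) (a (b (c (l 15630312) (l 15571456)) (c (l 15724512) (l 15697024))) (b (a (l 15668592) (l 15734016)) (a (l 15771704) (l 15818088)))))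 (b (a (b (c (l 15838088) (l 15843208)) (a (l 15991976) (l 15999952))) (b (a (l 15876992) (l 15906624)) (a (l 16011768) (l 16027600)))) (b (a (b (l 15922752) (a (l 16217584) (l 16222584))) (b (l 16097448) (a (l 16229024) (l 16237016)))) (b (a (l 16221160) (c (l 16307592) (l 16365496))) (a (l 16232584) (c (l 16428264) (l 16478896)))))))), by decide +kernel⟩

def k1_pm_012_a : ∃ t, chk3 f_pm_012_a t 6 1 1 = true :=
  ⟨(a (b (b (b (a (l 15882912) (l 15950176)) (a (b (l 15808560) (l 15806152)) (l 15901208))) (b (c (l 15874360) (l 15848848)) (a (l 15868744) (l 15923368)))) (b (b (a (l 15940416) (l 15978264)) (a (l 16047568) (l 16071816))) (b (b (l 16058592) (a (l 16246912) (l 16259520))) (b (c (l 16238608) (l 16392720)) (b (l 16348160) (l 16374592)))))) (b (b (b (a (l 16039944) (l 16150048)) (a (l 15997704) (l 16099256))) (a (b (l 15976392) (l 15981656)) (b (l 16056784) (l 16043256)))) (b (b (a (l 16020080) (l 16065720)) (a (l 16100432) (l 16070584))) (b (a (b (l 16193216) (l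 16276376)) (b (l 16219272) (l 16298728))) (b (a (c (l 16371416) (l 16412936)) (c (l 16288328) (l 16365248))) (a (b (l 16503432) (l 16584888)) (a (l 16500032) (l 16428544)))))))), by decide +kernel⟩

def k2_pm_012_a : ∃ t, chk3 f_pm_012_a t 7 1 1 = true :=
  ⟨(b (a (b (a (b (l 16127872) (l 16202648)) (b (a (l 16375808) (l 16422304)) (l 16307056))) (a (b (l 16139504) (l 16107800)) (b (l 16223936) (l 16174856)))) (b (b (a (b (l 16446912) (l 16507376)) (l 16269232)) (a (a (l 16385544) (l 16437712)) (l 16368400))) (a (b (l 16246448) (l 16160032)) (b (a (l 16373528) (l 16395112)) (a (l 16296528) (l 16331872)))))) (b (a (b (a (l 16115024) (l 16125840)) (a (b (l 16149944) (l 16192064)) (b (l 16194120) (l 16231888)))) (b (a (a (l 16209280) (l 16237952)) (a (l 16267280) (l 16276192))) (a (b (l 16242400) (a (l 16264760) (l 16288240))) (b (a (l 16281048) (l 16308024)) (a (l 16312896) (l 16338704)))))) (a (b (a (b (l 16250488) (l 16327304)) (b (l 16287064) (a (l 16352488) (l 16371280))))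 (a (b (b (l 16335304) (a (l 16458664) (l 16447888))) (b (c (l 16515240) (l 16560464)) (a (l 16632680) (l 16645824)))) (b (b (l 16431496) (a (l 16418048) (b (l 16480904) (l 16511264)))) (b (a (l 16522216) (b (l 16530480) (l 16576984))) (b (l 591139313663038164020799) (a (l 16679280) (l 16696216))))))) (b (a (b (a (l 16317944) (l 16340368)) (a (l 16391664) (l 16392688))) (b (a (l 16364192) (b (l 16373984) (l 16404720))) (a (b (l 16416048) (l 16458472)) (b (l 16441240) (a (l 16477296) (l 16490448)))))) (a (b (a (b (l 16461176) (l 16515832)) (b (l 16483264) (l 16538240))) (b (a (b (l 141199042285142079) (l 16566584)) (a (b (l 16577840) (l 16596224)) (b (l 16589704) (l 142158503743013119)))) (a (b (l 594014700710746914842687) (l 16666960)) (a (b (l 16645400) (l 16696640)) (l 6))))) (b (a (b (a (l 16500976) (l 16513408)) (a (l 16556280) (l 16568976))) (b (a (l 16526320) (l 6)) (l 6))) (a (b (a (b (l 16602128) (l 6)) (l 6)) (l 6)) (l 6)))))))), by decide +kernel⟩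

theorem s3_pm_012_a : ∃ t, chk3 f_pm_012_a t 3 1 1 = true := ex3_a k1_pm_012_a k2_pm_012_a

theorem s4_pm_012_a : ∃ t, chk3 f_pm_012_a t 1 1 1 = true := ex3_a k0_pm_012_a s3_pm_012_a

theorem c_pm_012_a : CertB 0 536870912 0 536870912 991146299 28908434 3 eng mog cd1q0 cd1q2a pd1 false true false .pnp 0 1 2
    ndB1q0 ndB1q2a pcB1 cut_pm_012_a xt_pm_012_a :=
  certB2 (fam := false) (s1 := true) (s2 := false) (a := 0) (b := 1) (c := 2) (cn := .pnp) (n1 := ndB1q0) (n2 := ndB1q2a) (pc := pcB1) (cut := cut_pm_012_a) (xt := xt_pm_012_a) (P1 := 0) (W1 := 536870912) (P2 := 0) (W2 := 536870912) (P3 := 991146299) (W3 := 28908434) (N0 := 3) (En := eng) (mo := mog) (C1 := cd1q0) (C2 := cd1q2a) (C3 := pd1)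
    rfl (fun _ => rfl) s4_pm_012_a

noncomputable def cut_pm_012_b : Cut := Cut.of [[⟨0, 0, 0, 53687091⟩, ⟨1, 1, 0, 53687091⟩, ⟨2, 1, 0, 53687091⟩]]

noncomputable def f_pm_012_b : ℕ → ℕ → ℕ → ℕ → Bool := onCell 536870912 536870912 1239849684 370763052 991146299 28908434
    (rowB 3 eng mog cd1q0 cd1q2b pd1 2 false true false .pnp 0 1 2 (qsf 0 536870912 1239849684 370763052 1) ndB1q0 ndB1q2b pcB1 cut_pm_012_b Ext.none)

def k0_pm_012_b : ∃ t, chk3 f_pm_012_b t 1 1 1 = true :=
  ⟨(a (a (l 2) (b (a (b (b (a (l 15962016) (l 15907344)) (l 2)) (l 2)) (b (b (c (l 15877944) (l 15842360)) (l 15813160)) (b (l 15785488) (l 2)))) (l 2))) (a (b (b (a (b (a (l 15887120) (l 15928560)) (l 15799616)) (b (a (l 15993928) (l 16083000)) (l 15889736))) (a (c (l 15719856) (l 15668648)) (a (l 15700224) (l 15740448)))) (a (l 2) (b (l 15552272) (l 2)))) (b (a (b (b (a (l 16195480) (l 16247232)) (l 15829952)) (b (l 15923936) (l 15788256))) (b (a (b (l 16258320) (l 16288992)) (b (b (l 16317144) (l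 16504360)) (l 16413320))) (a (l 15879512) (b (l 16221240) (l 16059232))))) (a (b (l 15627304) (l 15491800)) (b (a (l 15748672) (l 15851152)) (l 15605128)))))), by decide +kernel⟩

theorem c_pm_012_b : CertB 0 536870912 1239849684 370763052 991146299 28908434 3 eng mog cd1q0 cd1q2b pd1 false true false .pnp 0 1 2
    ndB1q0 ndB1q2b pcB1 cut_pm_012_b Ext.none :=
  certB2 (fam := false) (s1 := true) (s2 := false) (a := 0) (b := 1) (c := 2) (cn := .pnp) (n1 := ndB1q0) (n2 := ndB1q2b) (pc := pcB1) (cut := cut_pm_012_b) (xt := Ext.none) (P1 := 0) (W1 := 536870912) (P2 := 1239849684) (W2 := 370763052) (P3 := 991146299) (W3 := 28908434) (N0 := 3) (En := eng) (mo := mog) (C1 := cd1q0) (C2 := cd1q2b) (C3 := pd1)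
    rfl (fun _ => rfl) k0_pm_012_b

noncomputable def cut_pm_022_a : Cut := Cut.of [[⟨0, 0, 0, 53687091⟩, ⟨1, 1, 0, 53687091⟩, ⟨2, 1, 0, 53687091⟩]]

noncomputable def f_pm_022_a : ℕ → ℕ → ℕ → ℕ → Bool := onCell 1073741824 536870912 0 536870912 991146299 28908434
    (rowB 3 eng mog cd1q0 cd1q2a pd2 2 false true false .pp 0 2 2 (qsf 0 536870912 0 536870912 2) ndB1q0 ndB1q2a pcB2 cut_pm_022_a Ext.none)

def k0_pm_022_a : ∃ t, chk3 f_pm_022_a t 2 2 1 = true :=
  ⟨(a (c (a (b (b (a (b (l 16161352) (b (l 16142560) (l 16084392))) (b (l 16159136) (b (l 16148976) (l 16168480)))) (a (c (l 16273816) (l 16177416)) (l 16066424))) (a (b (a (l 16280888) (l 16298072)) (a (l 16451856) (l 16437712))) (b (l 16181776) (a (l 16419432) (l 16354840))))) (b (b (a (b (l 16163144) (l 16151240)) (b (l 16172944) (l 16186504))) (a (l 16170792) (a (l 16227816) (l 16221848)))) (a (b (a (l 16309936) (l 16293240)) (a (l 16327584) (l 16274912))) (b (a (l 16273808) (l 16252376)) (a (b (l 16298072) (l 16307856))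 (b (l 16264648) (a (l 16276728) (l 16234480)))))))) (a (b (b (a (b (l 15937008) (b (l 15913648) (a (l 15903520) (l 15937552)))) (b (l 15975496) (b (l 15921496) (l 15989224)))) (a (a (l 16011080) (l 16038440)) (a (l 16063920) (l 16087392)))) (a (b (a (l 16171584) (l 16185872)) (b (l 16285056) (l 16308528))) (b (a (l 16197136) (l 16205168)) (a (l 16313576) (l 16305560))))) (b (b (a (b (l 16024280) (a (l 16021072) (l 16053952))) (b (l 16082864) (l 16101576))) (a (l 15950712) (a (l 16145232) (l 16161208)))) (a (b (a (l 16209728) (l 16210872)) (a (l 16292696) (l 16191280))) (b (a (l 16209272) (l 16205712)) (a (b (l 16245792) (l 16262968)) (b (l 16227264) (l 350609067831)))))))) (a (b (a (b (a (b (l 16157264) (l 16170608)) (b (l 16178512) (l 16186968))) (a (c (l 16214560) (l 16176032)) (c (l 16184944) (l 16189688)))) (b (l 1) (l 1))) (a (b (a (c (l 345777211111) (l 339871590007)) (c (l 750040959671) (l 750040964055))) (a (b (c (l 391948123463) (l 382821297847)) (c (l 739840561799)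 (l 714070618935))) (l 1))) (l 1))) (l 1))), by decide +kernel⟩

def k1_pm_022_a : ∃ t, chk3 f_pm_022_a t 8 3 1 = true :=
  ⟨(b (a (b (c (b (l 16494672) (l 16404744)) (a (l 16384040) (l 16370080))) (c (a (b (l 16517544) (l 16500264)) (b (l 16568960) (l 16542952))) (b (a (l 16537064) (l 16510496)) (a (l 16569720) (l 16491880))))) (a (b (c (l 16407392) (l 16266568)) (c (b (l 16535336) (b (l 16552792) (l 16520320))) (b (l 16435280) (b (l 16483072) (l 16477568))))) (b (c (b (l 16442736) (l 16446208)) (b (l 16370400) (l 16406592))) (c (b (l 16402568) (a (l 16493816) (b (l 16482456) (l 16486184)))) (b (l 16353136) (a (l 16474216) (b (l 16442784) (l 16451336)))))))) (a (b (b (a (a (a (l 16441944) (l 16458944)) (a (l 16476184) (l 16493664))) (c (b (l 16588368) (l 16549168)) (b (l 16563408) (l 16517552)))) (b (a (c (a (l 16557472) (l 16599024)) (l 16534632)) (c (a (l 16641264) (l 16609640)) (a (l 16630832) (l 16580560)))) (l 6))) (l 6)) (b (a (b (c (a (l 16525536) (b (l 16554560)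 (l 16538216))) (a (l 16489992) (b (l 16519056) (l 16508064)))) (b (c (a (l 16555144) (c (a (l 16576848) (l 16558432)) (l 16513560))) (a (l 16528184) (c (l 16522016) (l 16509144)))) (l 6))) (b (c (a (b (l 16522184) (a (l 16533264) (l 16515368))) (b (a (l 16496720) (l 16479160)) (a (b (l 16497256) (l 548178199255)) (b (l 537977612471) (l 718903085575))))) (a (b (l 16489400) (a (l 16504808) (l 16487992))) (b (a (l 16465872) (l 16449536)) (a (b (l 16469816) (l 520797734039)) (l 633540587831))))) (a (b (a (c (b (l 16534000) (l 586832984743)) (b (l 16509152) (l 456910131335))) (b (c (l 561600011799) (l 532608935911)) (c (l 761315981559) (l 754336616087)))) (a (a (l 6) (l 1)) (l 1))) (b (a (b (c (l 722661218231) (l 710313161943)) (l 1)) (l 1)) (l 1))))) (a (l 6) (l 1))))), by decide +kernel⟩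

def k2_pm_022_a : ∃ t, chk3 f_pm_022_a t 9 3 1 = true :=
  ⟨(b (a (b (a (c (b (l 16404096) (l 16378432)) (b (l 16343504) (l 16348776))) (c (b (l 16360232) (a (l 16381496) (l 16354032))) (b (l 16311024) (a (l 16338056) (l 16315256))))) (a (b (c (a (l 16445552) (l 16416160)) (a (l 16402296) (l 16376824))) (a (c (b (l 16451280) (a (l 16461192) (l 16443960))) (c (l 16405400) (l 16408792))) (b (c (c (l 16426352) (l 16410240)) (l 16385232)) (c (a (l 503080895815) (l 663068384135)) (a (l 16396360) (l 650720297879)))))) (b (a (c (b (l 16385232) (l 362420555879)) (b (l 16347832) (l 16351808))) (c (b (l 16354312) (l 650720222775)) (b (l 16320848) (l 646962036503)))) (a (b (c (a (l 608844389911) (l 680248178807)) (a (l 16340816) (l 668436963687))) (l 1)) (l 1))))) (b (a (b (c (a (l 16324680) (l 16300056)) (a (l 16283848) (l 16264736))) (a (c (b (l 16326272) (l 16325216)) (l 365641601303)) (c (l 656088791959) (l 652867504231)))) (b (a (c (l 650183216695) (l 639445739111)) (c (l 723197598535)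 (l 711386394647))) (l 1))) (a (b (a (b (c (l 685079926071) (l 672194968711)) (l 1)) (l 1)) (l 1)) (l 1)))) (a (b (a (b (a (a (b (c (l 513281520791) (l 482142951911)) (c (l 722661144359) (l 709776214535))) (b (c (l 652331042087) (l 638909216215)) (l 1))) (a (b (c (l 746820265079) (l 712997345207)) (l 1)) (l 1))) (l 1)) (l 1)) (l 1)) (l 1))), by decide +kernel⟩

def k3_pm_022_a : ∃ t, chk3 f_pm_022_a t 5 3 1 = true :=
  ⟨(b (l 1) (l 1)), by decide +kernel⟩

def k4_pm_022_a : ∃ t, chk3 f_pm_022_a t 3 1 1 = true :=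
  ⟨(l 1), by decide +kernel⟩

theorem s5_pm_022_a : ∃ t, chk3 f_pm_022_a t 4 3 1 = true := ex3_a k1_pm_022_a k2_pm_022_a

theorem s6_pm_022_a : ∃ t, chk3 f_pm_022_a t 2 3 1 = true := ex3_a s5_pm_022_a k3_pm_022_a

theorem s7_pm_022_a : ∃ t, chk3 f_pm_022_a t 2 1 1 = true := ex3_b k0_pm_022_a s6_pm_022_a

theorem s8_pm_022_a : ∃ t, chk3 f_pm_022_a t 1 1 1 = true := ex3_a s7_pm_022_a k4_pm_022_a

theorem c_pm_022_a : CertB 0 536870912 0 536870912 991146299 28908434 3 eng mog cd1q0 cd1q2a pd2 false true false .pp 0 2 2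
    ndB1q0 ndB1q2a pcB2 cut_pm_022_a Ext.none :=
  certB2 (fam := false) (s1 := true) (s2 := false) (a := 0) (b := 2) (c := 2) (cn := .pp) (n1 := ndB1q0) (n2 := ndB1q2a) (pc := pcB2) (cut := cut_pm_022_a) (xt := Ext.none) (P1 := 0) (W1 := 536870912) (P2 := 0) (W2 := 536870912) (P3 := 991146299) (W3 := 28908434) (N0 := 3) (En := eng) (mo := mog) (C1 := cd1q0) (C2 := cd1q2a) (C3 := pd2)
    rfl (fun _ => rfl) s8_pm_022_a

noncomputable def cut_pm_022_b : Cut := Cut.of [[⟨0, 0, 0, 53687091⟩, ⟨1, 1, 0, 53687091⟩, ⟨2, 1, 0, 53687091⟩]]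

noncomputable def f_pm_022_b : ℕ → ℕ → ℕ → ℕ → Bool := onCell 1073741824 536870912 1239849684 370763052 991146299 28908434
    (rowB 3 eng mog cd1q0 cd1q2b pd2 2 false true false .pp 0 2 2 (qsf 0 536870912 1239849684 370763052 2) ndB1q0 ndB1q2b pcB2 cut_pm_022_b Ext.none)

def k0_pm_022_b : ∃ t, chk3 f_pm_022_b t 2 1 1 = true :=
  ⟨(a (b (a (b (c (b (a (l 16143120) (l 16176768)) (l 16122832)) (b (a (l 15855160) (l 15988464)) (a (l 16213544) (l 16228512)))) (c (b (l 16336000) (l 16306760)) (b (l 16262208) (l 16431416)))) (b (a (b (a (l 15917496) (l 15990312)) (l 16074912)) (b (a (l 16064952) (l 16120496)) (l 16172992))) (a (c (l 16281696) (l 16347768)) (b (l 16233560) (l 16158384))))) (a (b (c (b (l 16087608) (l 16014824)) (a (l 16394728) (l 16251072))) (c (l 15850640) (l 15950736))) (b (a (c (l 15971136) (l 16088664)) (l 15697352)) (a (l 15805152) (l 15696288))))) (b (a (b (a (b (a (l 16136000) (l 16132448)) (l 16215376)) (b (a (l 578779079015) (l 594885180263)) (b (l 16301224)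 (l 16291848)))) (a (b (l 16236144) (l 16049200)) (a (l 15989800) (l 15912456)))) (b (b (a (a (l 614749396103) (l 1)) (l 1)) (a (b (l 335039618775) (l 16178576)) (a (l 492342691735) (l 511133109079)))) (a (c (l 16034152) (l 15745984)) (b (c (l 16094184) (l 15980880)) (l 15795552))))) (a (b (a (l 15817264) (l 15737024)) (a (l 15592360) (l 15500832))) (b (a (l 15686984) (l 15495328)) (a (l 15448832) (l 15428864)))))), by decide +kernel⟩

def k1_pm_022_b : ∃ t, chk3 f_pm_022_b t 3 1 1 = true :=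
  ⟨(b (a (b (l 1) (a (a (b (c (l 398390247559) (l 599179347223)) (c (l 15933160) (l 15791960))) (c (b (l 500395623751) (l 15877712)) (b (l 636223374407) (l 15780408)))) (b (l 1) (a (c (l 487510537495) (l 621727658743)) (l 1))))) (l 1)) (a (a (b (a (b (l 15727544) (l 15602088)) (b (l 15571848) (l 15624328))) (a (l 15436776) (l 15468312))) (b (a (c (l 199210645783) (l 303362811639)) (c (l 506300602727) (b (l 15711208) (l 15628960)))) (a (l 15435136) (c (l 15661008) (l 15504472))))) (a (b (b (l 1) (a (l 535291473447) (l 594347320615))) (a (c (l 15728896) (l 15585760)) (b (l 15726952) (l 15716672)))) (b (l 1) (a (c (l 604547737143) (l 580925453335)) (b (l 1) (l 610453013127))))))), by decide +kernel⟩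

theorem s2_pm_022_b : ∃ t, chk3 f_pm_022_b t 1 1 1 = true := ex3_a k0_pm_022_b k1_pm_022_b

theorem c_pm_022_b : CertB 0 536870912 1239849684 370763052 991146299 28908434 3 eng mog cd1q0 cd1q2b pd2 false true false .pp 0 2 2
    ndB1q0 ndB1q2b pcB2 cut_pm_022_b Ext.none :=
  certB2 (fam := false) (s1 := true) (s2 := false) (a := 0) (b := 2) (c := 2) (cn := .pp) (n1 := ndB1q0) (n2 := ndB1q2b) (pc := pcB2) (cut := cut_pm_022_b) (xt := Ext.none) (P1 := 0) (W1 := 536870912) (P2 := 1239849684) (W2 := 370763052) (P3 := 991146299) (W3 := 28908434) (N0 := 3) (En := eng) (mo := mog) (C1 := cd1q0) (C2 := cd1q2b) (C3 := pd2)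
    rfl (fun _ => rfl) s2_pm_022_b

noncomputable def f_pm_023 : ℕ → ℕ → ℕ → ℕ → Bool := onCell 0 536870912 1073741824 536870912 991146299 28908434
    (rowB 3 eng mog cd1q0 cd1q3 pd2 1 false true false .up 0 2 3 (qsf 0 536870912 1610612736 536870912 2) ndB1q0 ndB1q3 pcB2 Cut.none Ext.none)

def k0_pm_023 : ∃ t, chk3 f_pm_023 t 1 1 1 = true :=
  ⟨(b (b (a (l 1) (a (b (l 1) (a (l 1) (l 335038702839))) (b (c (a (l 15942400) (l 15892792)) (a (l 16201200) (l 16065560))) (a (l 319469238551) (l 15659680))))) (a (a (l 1) (a (l 1) (b (l 1) (l 398388875895)))) (a (b (a (l 366176842359) (l 323226930599)) (c (l 15265272) (l 274371152535))) (b (a (l 15456616) (l 15419744)) (a (l 15178336) (l 15230648)))))) (b (a (a (a (l 1) (a (l 1) (b (l 1) (l 382282929191)))) (b (c (l 330206380807) (l 323226638311)) (c (l 252360195063) (l 331279691127)))) (b (a (a (l 294235365015) (l 15263648)) (a (l 15194152) (l 15149504))) (a (c (l 15421952) (l 15242192)) (c (l 15333296) (l 15118280))))) (a (b (a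 (c (a (l 595957989495) (l 15836200)) (a (l 577167204887) (l 15662968))) (b (c (l 15679672) (l 15502688)) (l 15624040))) (a (b (a (l 592736477911) (l 15824488)) (a (c (l 15546432) (l 15628800)) (l 15706720))) (b (l 15756136) (l 15857144)))) (b (a (c (l 15575104) (l 15306472)) (c (l 15501832) (l 15304776))) (a (b (l 15667520) (l 15804688)) (a (l 15698368) (b (l 15600776) (l 15762216)))))))), by decide +kernel⟩

theorem c_pm_023 : CertB 0 536870912 1610612736 536870912 991146299 28908434 3 eng mog cd1q0 cd1q3 pd2 false true false .up 0 2 3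
    ndB1q0 ndB1q3 pcB2 Cut.none Ext.none :=
  certB1 (fam := false) (s1 := true) (s2 := false) (a := 0) (b := 2) (c := 3) (cn := .up) (n1 := ndB1q0) (n2 := ndB1q3) (pc := pcB2) (cut := Cut.none) (xt := Ext.none) (P1 := 0) (W1 := 536870912) (P2 := 1610612736) (W2 := 536870912) (P3 := 991146299) (W3 := 28908434) (N0 := 3) (En := eng) (mo := mog) (C1 := cd1q0) (C2 := cd1q3) (C3 := pd2)
    rfl (fun _ => rfl) k0_pm_023

noncomputable def f_pm_033 : ℕ → ℕ → ℕ → ℕ → Bool := onCell 0 536870912 1610612736 536870912 991146299 28908434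
    (rowB 3 eng mog cd1q0 cd1q3 pd3 1 false true false .pnn 0 3 3 (qsf 0 536870912 1610612736 536870912 3) ndB1q0 ndB1q3 pcB3 Cut.none Ext.none)

def k0_pm_033 : ∃ t, chk3 f_pm_033 t 1 1 1 = true :=
  ⟨(a (b (b (b (a (a (b (l 15358776) (l 15278904)) (b (l 15570520) (l 15520320))) (b (l 15871648) (l 15854104))) (l 4)) (l 4)) (a (l 4) (b (l 4) (a (b (l 4) (l 2)) (l 2))))) (b (a (b (b (l 16103696) (b (l 16182016) (l 4))) (l 4)) (b (b (a (l 16226912) (l 16332144)) (a (l 16434824) (l 16556512))) (a (b (l 16586720) (l 2)) (l 2)))) (a (b (a (b (l 4) (l 2)) (l 2)) (l 2)) (l 2)))), by decide +kernel⟩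

theorem c_pm_033 : CertB 0 536870912 1610612736 536870912 991146299 28908434 3 eng mog cd1q0 cd1q3 pd3 false true false .pnn 0 3 3
    ndB1q0 ndB1q3 pcB3 Cut.none Ext.none :=
  certB1 (fam := false) (s1 := true) (s2 := false) (a := 0) (b := 3) (c := 3) (cn := .pnn) (n1 := ndB1q0) (n2 := ndB1q3) (pc := pcB3) (cut := Cut.none) (xt := Ext.none) (P1 := 0) (W1 := 536870912) (P2 := 1610612736) (W2 := 536870912) (P3 := 991146299) (W3 := 28908434) (N0 := 3) (En := eng) (mo := mog) (C1 := cd1q0) (C2 := cd1q3) (C3 := pd3)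
    rfl (fun _ => rfl) k0_pm_033

noncomputable def f_pm_101 : ℕ → ℕ → ℕ → ℕ → Bool := onCell 0 536870912 536870912 536870912 991146299 28908434
    (rowB 3 eng mog cd1q1 cd1q1 pd0 2 false true false .npn 1 0 1 (qsf 536870912 536870912 536870912 536870912 0) ndB1q1 ndB1q1 pcB0 Cut.none Ext.none)

def k0_pm_101 : ∃ t, chk3 f_pm_101 t 1 1 1 = true :=
  ⟨(b (l 4) (a (a (b (a (b (l 4) (a (b (l 4) (l 15348296)) (l 4))) (l 4)) (a (b (a (b (c (l 15128400) (l 15070800)) (l 14932472)) (b (c (l 15282056) (l 15238520)) (l 15065536))) (a (b (a (l 14799840) (l 14819152)) (b (c (l 14782296) (l 14733608)) (c (a (l 14758304) (l 14739232)) (l 14696400)))) (b (l 14937448) (c (l 14745344) (l 14748656))))) (b (a (b (l 15436080) (l 15221168)) (b (l 4) (c (l 15392696) (l 15360584)))) (b (a (l 15086680) (l 15223832)) (a (l 15002168) (l 15130288)))))) (b (l 4) (a (b (a (b (l 4) (b (l 4) (l 15477088))) (l 4)) (b (a (l 15357392) (c (l 15501792) (l 15487400))) (a (l 15257984) (l 15381520)))) (b (l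 4) (b (a (b (l 4) (l 15582640)) (l 4)) (a (l 15497304) (c (l 15601776) (l 15614168)))))))) (a (b (l 4) (a (b (l 4) (b (l 4) (a (c (l 15610352) (l 15622008)) (c (l 15596872) (l 15605912))))) (l 4))) (l 4)))), by decide +kernel⟩

theorem c_pm_101 : CertB 536870912 536870912 536870912 536870912 991146299 28908434 3 eng mog cd1q1 cd1q1 pd0 false true false .npn 1 0 1
    ndB1q1 ndB1q1 pcB0 Cut.none Ext.none :=
  certB2 (fam := false) (s1 := true) (s2 := false) (a := 1) (b := 0) (c := 1) (cn := .npn) (n1 := ndB1q1) (n2 := ndB1q1) (pc := pcB0) (cut := Cut.none) (xt := Ext.none) (P1 := 536870912) (W1 := 536870912) (P2 := 536870912) (W2 := 536870912) (P3 := 991146299) (W3 := 28908434) (N0 := 3) (En := eng) (mo := mog) (C1 := cd1q1) (C2 := cd1q1) (C3 := pd0)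
    rfl (fun _ => rfl) k0_pm_101

end Pool.Agent.Strip051.G.I9231_9500.Tab.C.BB11

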