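import Pool.Agent.Strip051.G.I9231_9500.Tab
import Pool.Agent.Strip051.PB.ExtD3

/-! # Certificates B28 (generated) -/

set_option linter.all false
set_option maxRecDepth 100000

namespace Pool.Agent.Strip051.G.I9231_9500.Tab.C.BB11

open Pool.Agent.Strip051.PB Pool.Agent.Strip051.PB.T
open Pool.Agent.Strip051.G.I9231_9500.Tab

noncomputable def xt_pm_102_a : Ext := extD3 3 ⟨4, 1, 1, 5, 22, 5, 21, 25, 41, 100, 1, 20⟩ eng cd1q1 cd1q2a pd0 false true false .npp 1 0 2 rfl ndB1q1 ndB1q2a pcB0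

noncomputable def f_pm_102_a : ℕ → ℕ → ℕ → ℕ → Bool := onCell 0 536870912 0 536870912 991146299 28908434
    (rowB 3 eng mog cd1q1 cd1q2a pd0 2 false true false .npp 1 0 2 (qsf 536870912 536870912 0 536870912 0) ndB1q1 ndB1q2a pcB0 Cut.none xt_pm_102_a)

def k0_pm_102_a : ∃ t, chk3 f_pm_102_a t 4 2 1 = true :=
  ⟨(b (l 2) (a (l 2) (a (l 2) (a (l 2) (b (l 2) (b (l 2) (b (c (l 16276160) (l 845134367047)) (a (l 2) (l 16270280))))))))), by decide +kernel⟩

def k1_pm_102_a : ∃ t, chk3 f_pm_102_a t 5 4 1 = true :=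
  ⟨(a (a (l 3) (b (l 3) (b (l 3) (a (b (l 3) (a (l 3) (b (l 3) (l 161227980423)))) (b (a (l 162301813959) (b (l 159617405287) (l 170891701735))) (a (b (l 166596710391) (l 16274904)) (l 16280160))))))) (a (b (a (l 3) (a (l 3) (b (l 3) (l 181092382087)))) (a (b (b (l 174113016183) (a (l 163375525479) (b (l 169818013335) (l 16300912)))) (b (c (l 166059904951) (l 178944815687)) (l 16307064))) (b (b (a (l 172502409175) (l 173039281495)) (a (l 16329296) (l 16334280))) (l 16318816)))) (b (a (b (l 3) (b (a (l 3) (l 183776806983)) (a (l 170354988375) (l 16367960)))) (b (a (l 191829916007) (l 175723737847)) (c (l 156396417335) (l 172502482135)))) (b (a (a (l 16344728) (l 16349856)) (l 16357464)) (a (c (l 16298968) (l 16329424)) (c (l 16333512) (l 16336688))))))), by decide +kernel⟩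

def k2_pm_102_a : ∃ t, chk3 f_pm_102_a t 5 5 1 = true :=
  ⟨(b (a (a (a (a (l 2) (b (l 3) (b (c (l 138679374935) (l 144048130439)) (l 16278160)))) (b (b (a (l 3) (l 154248672503)) (a (c (l 147269309543) (l 150490576983)) (b (a (l 158543609351) (l 16260784)) (l 16259896)))) (b (a (a (l 177870955783) (l 16278976)) (l 16280616)) (l 16222696)))) (a (b (a (b (a (l 159080478359) (l 167670427351)) (l 16262960)) (b (b (l 175186636471) (l 16288608)) (l 16286672))) (b (l 16283856) (c (l 16272592) (l 16251200)))) (a (b (l 16249248) (b (l 16285616) (l 16265352))) (b (l 16294168) (c (l 16285448) (l 16294968)))))) (a (b (a (b (l 16301056) (c (l 16266328) (l 16302880))) (c (l 16259984) (b (l 16312672) (l 16306632)))) (a (c (l 16296256) (l 16271016)) (l 16256904))) (b (a (c (l 16318544) (l 16312976)) (l 16323192)) (c (l 16339624) (l 16283176))))) (a (a (b (a (b (c (l 16244344) (l 16294520)) (c (l 268534963063) (a (l 16297824) (l 16296136)))) (b (c (l 16249360) (a (l 16293856)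 (l 16293576))) (a (l 16282880) (l 16261840)))) (a (c (l 16288904) (l 16286416)) (c (l 16298624) (l 16273472)))) (b (a (c (l 16286024) (l 16219568)) (c (l 16299056) (l 16273320))) (a (l 16265792) (l 16289184)))) (a (b (c (l 16322440) (l 16264744)) (c (a (l 16334584) (l 16346480)) (a (l 16243464) (l 16236784)))) (b (c (l 16357888) (l 16258872)) (c (b (l 16370568) (l 16363296)) (l 16211512)))))), by decide +kernel⟩

def k3_pm_102_a : ∃ t, chk3 f_pm_102_a t 4 3 1 = true :=
  ⟨(b (a (l 2) (a (b (l 2) (a (a (l 2) (b (l 2) (l 15944264))) (b (c (l 16185016) (l 16212064)) (a (l 60228400839) (l 16087800))))) (b (b (a (c (l 16305248) (l 16305320)) (b (l 16296456) (c (l 16312256) (l 16279520)))) (a (b (b (l 16305464) (l 16287064)) (l 16249288)) (b (l 16273424) (l 16225104)))) (b (a (c (l 16163832) (l 16185896)) (l 16113224)) (c (l 16041800) (l 16099264)))))) (b (a (a (l 2) (a (b (l 2) (a (l 15916384) (a (l 15881144) (l 15871496)))) (b (a (l 2) (b (l 2) (l 15947176)))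 (a (a (l 15880536) (l 15889624)) (l 15840200))))) (c (a (a (b (a (l 15944864) (l 15958384)) (l 15900112)) (b (b (l 137289796217323631) (l 15956656)) (l 15927776))) (b (b (l 15971088) (l 15953160)) (l 15935072))) (a (a (b (a (l 16018720) (l 16035744)) (l 15963256)) (b (b (l 16062712) (l 16033768)) (l 15995648))) (b (l 16044592) (l 16004344))))) (b (a (a (a (l 2) (c (l 15847160) (l 15899840))) (a (a (l 15840208) (a (l 15814144) (l 15808776))) (a (l 15824944) (l 15846824)))) (a (a (c (l 15855528) (l 15904808)) (a (l 15912128) (l 15920480))) (l 15812200))) (a (a (a (c (l 15841832) (l 15845784)) (c (b (l 15826352) (l 15784184)) (l 15759864))) (a (a (l 15766152) (c (l 15741424) (l 15751880))) (a (l 15762976) (l 15786328)))) (a (a (a (l 15809440) (l 15832592)) (b (l 15876616) (l 15836552))) (l 15764808)))))), by decide +kernel⟩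

def k4_pm_102_a : ∃ t, chk3 f_pm_102_a t 5 3 1 = true :=
  ⟨(b (b (a (b (a (a (b (l 16292720) (l 138520906271391855)) (b (l 16288608) (l 16192688))) (b (c (l 16260960) (l 16240728)) (c (l 16289176) (l 16216536)))) (a (c (l 16235288) (l 16205208)) (c (l 16214392) (l 16173800)))) (a (b (c (a (l 16304312) (l 16297896)) (l 16208344)) (c (l 16204488) (l 16154856))) (c (b (l 16295704) (l 16202760)) (l 16169416)))) (a (a (b (c (l 16128936) (l 16139840)) (c (l 16022968) (l 16076016))) (b (c (l 16114080) (l 16117528)) (c (l 16013472) (l 16062440)))) (a (b (l 16064600) (l 16033456)) (b (l 16105016) (l 16036064))))) (b (a (a (b (c (l 15961000) (l 16036800)) (l 15982312)) (b (c (l 15961048) (l 16035776)) (l 16000800))) (a (b (l 15939832) (l 16023824)) (b (l 15991744) (l 16050928)))) (a (a (c (l 15928256) (l 15987320)) (c (l 15966720) (l 16028400))) (a (c (l 16008384) (l 16068872)) (c (l 16051856) (l 16067696)))))), by decide +kernel⟩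

def k5_pm_102_a : ∃ t, chk3 f_pm_102_a t 3 2 1 = true :=
  ⟨(a (b (a (b (a (a (b (a (l 173576271463) (l 158544011543)) (l 16396112)) (b (l 16442416) (l 16407736))) (a (l 16437648) (b (l 16468416) (l 16428416)))) (a (b (a (l 16365824) (c (l 16377008) (l 16375448))) (a (c (l 16352328) (l 16344816)) (l 16358688))) (c (b (l 16409712) (l 16406640)) (b (a (l 16386888) (l 16393008)) (l 16353128))))) (b (b (a (a (l 16480880) (l 16490968)) (c (l 16528456) (l 16506384))) (a (c (l 16464888) (l 16403112)) (l 16423904))) (a (c (l 16455504) (l 16385168)) (c (l 16506016) (l 16402640))))) (a (b (a (c (l 16374584) (l 16257296)) (c (l 16419016) (l 16306512))) (c (b (a (l 16397304) (l 16432552)) (a (l 16238328) (l 16396784))) (a (b (l 16259096) (l 16232208)) (b (l 16260288) (l 16231416))))) (b (c (a (l 16465376) (l 16512136)) (a (l 16318272) (l 16333864))) (c (b (a (l 16426872) (l 16457752)) (l 16328464)) (a (b (l 16271584) (l 16235712)) (l 16021160)))))) (b (a (a (c (l 16396696)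 (b (l 16505304) (l 16422960))) (c (l 16592192) (b (l 16528448) (l 16445528)))) (c (a (l 16643656) (l 16568808)) (a (l 16375664) (l 16431576)))) (a (c (b (a (l 16510160) (l 16521416)) (a (l 16289472) (l 16488144))) (b (a (l 16286080) (l 16348640)) (c (l 16242864) (l 16164576)))) (b (a (c (l 16505512) (l 16395656)) (c (l 16479784) (l 16425712))) (c (l 16305000) (l 16263816)))))), by decide +kernel⟩

def k6_pm_102_a : ∃ t, chk3 f_pm_102_a t 3 3 1 = true :=
  ⟨(a (b (a (b (a (c (l 16211840) (l 16166024)) (c (l 16262464) (l 16169736))) (c (a (l 16072560) (l 16086904)) (a (l 16084400) (l 16094832)))) (b (c (a (l 16275472) (l 16292320)) (a (l 16179744) (l 16195528))) (c (a (l 16106656) (l 16131592)) (l 15995880)))) (b (a (a (b (l 15985248) (l 16081720)) (b (l 15983048) (l 16115792))) (b (a (l 16068920) (l 16095992)) (a (l 16152752) (l 16192232)))) (a (a (c (l 16085272) (l 16044960)) (c (l 16074000) (l 16019792))) (a (b (l 16117168) (l 15933560)) (b (l 16096912) (l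 15907400)))))) (b (a (b (c (a (l 16312776) (l 16336776)) (l 16229720)) (c (l 16053128) (l 16175424))) (b (c (l 16379832) (l 16292240)) (c (l 16257232) (l 16249160)))) (b (a (b (a (l 16064272) (l 16057664)) (a (l 16233888) (l 16224464))) (b (a (l 16055288) (l 16057208)) (a (l 16213136) (l 16203232)))) (a (b (a (l 16076048) (l 16055072)) (a (c (l 15929624) (l 15824888)) (c (l 15904048) (l 15792376)))) (b (a (l 16034448) (c (l 16051536) (l 15974928))) (a (c (l 15877384) (l 15759960)) (c (l 15850304) (l 15728272)))))))), by decide +kernel⟩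

theorem s7_pm_102_a : ∃ t, chk3 f_pm_102_a t 3 1 1 = true := ex3_b k5_pm_102_a k6_pm_102_a

theorem s8_pm_102_a : ∃ t, chk3 f_pm_102_a t 2 3 1 = true := ex3_a k3_pm_102_a k4_pm_102_a

theorem s9_pm_102_a : ∃ t, chk3 f_pm_102_a t 5 2 1 = true := ex3_b k1_pm_102_a k2_pm_102_a

theorem s10_pm_102_a : ∃ t, chk3 f_pm_102_a t 2 2 1 = true := ex3_a k0_pm_102_a s9_pm_102_a

theorem s11_pm_102_a : ∃ t, chk3 f_pm_102_a t 2 1 1 = true := ex3_b s10_pm_102_a s8_pm_102_a

theorem s12_pm_102_a : ∃ t, chk3 f_pm_102_a t 1 1 1 = true := ex3_a s11_pm_102_a s7_pm_102_a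

theorem c_pm_102_a : CertB 536870912 536870912 0 536870912 991146299 28908434 3 eng mog cd1q1 cd1q2a pd0 false true false .npp 1 0 2
    ndB1q1 ndB1q2a pcB0 Cut.none xt_pm_102_a :=
  certB2 (fam := false) (s1 := true) (s2 := false) (a := 1) (b := 0) (c := 2) (cn := .npp) (n1 := ndB1q1) (n2 := ndB1q2a) (pc := pcB0) (cut := Cut.none) (xt := xt_pm_102_a) (P1 := 536870912) (W1 := 536870912) (P2 := 0) (W2 := 536870912) (P3 := 991146299) (W3 := 28908434) (N0 := 3) (En := eng) (mo := mog) (C1 := cd1q1) (C2 := cd1q2a) (C3 := pd0)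
    rfl (fun _ => rfl) s12_pm_102_a

noncomputable def f_pm_102_b : ℕ → ℕ → ℕ → ℕ → Bool := onCell 536870912 536870912 0 536870912 991146299 28908434
    (rowB 3 eng mog cd1q1 cd1q2b pd0 1 false true false .npp 1 0 2 (qsf 536870912 536870912 1239849684 370763052 0) ndB1q1 ndB1q2b pcB0 Cut.none Ext.none)

def k0_pm_102_b : ∃ t, chk3 f_pm_102_b t 1 1 1 = true :=
  ⟨(a (b (l 1) (b (l 1) (a (l 1) (b (a (l 1) (a (b (l 1) (l 261489277463)) (b (l 209412813255) (l 16536328)))) (a (c (l 245919478279) (b (l 16445304) (l 16540816))) (c (a (l 16644864) (l 16529904)) (a (l 16558832) (l 16462200)))))))) (a (b (l 1) (b (a (b (l 1) (a (b (l 1) (c (l 16656760) (l 16588720))) (b (l 16490136) (l 16401480)))) (b (a (b (l 1) (l 378526894503)) (b (b (l 1) (l 388727422327)) (b (l 16414576) (l 16454832)))) (b (a (l 16482096) (l 16391464)) (a (l 16418832) (l 16310720))))) (b (a (a (b (l 16476720) (l 16484600)) (b (l 16445016) (l 16369336))) (b (a (l 16339584) (l 16234208)) (l 16214480)))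 (a (a (l 16215704) (b (l 16300856) (l 16239792))) (b (l 16146248) (l 16083320)))))) (a (b (a (a (l 1) (b (l 1) (l 3))) (l 3)) (b (a (b (a (b (b (l 394096097879) (l 16455240)) (l 16370400)) (b (b (b (l 3) (l 16357128)) (l 33989722295)) (b (l 16352080) (l 16313864)))) (b (l 16157152) (l 16206216))) (b (l 3) (b (l 798493294519) (l 37210207111)))) (b (b (a (l 16132488) (l 16029184)) (a (l 16062224) (l 15966216))) (b (l 15907928) (l 15887336))))) (b (l 3) (a (b (l 3) (b (l 3) (b (l 15797048) (l 15745240)))) (l 3)))))), by decide +kernel⟩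

theorem c_pm_102_b : CertB 536870912 536870912 1239849684 370763052 991146299 28908434 3 eng mog cd1q1 cd1q2b pd0 false true false .npp 1 0 2
    ndB1q1 ndB1q2b pcB0 Cut.none Ext.none :=
  certB1 (fam := false) (s1 := true) (s2 := false) (a := 1) (b := 0) (c := 2) (cn := .npp) (n1 := ndB1q1) (n2 := ndB1q2b) (pc := pcB0) (cut := Cut.none) (xt := Ext.none) (P1 := 536870912) (W1 := 536870912) (P2 := 1239849684) (W2 := 370763052) (P3 := 991146299) (W3 := 28908434) (N0 := 3) (En := eng) (mo := mog) (C1 := cd1q1) (C2 := cd1q2b) (C3 := pd0)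
    rfl (fun _ => rfl) k0_pm_102_b

noncomputable def f_pm_112_a : ℕ → ℕ → ℕ → ℕ → Bool := onCell 536870912 536870912 0 536870912 991146299 28908434
    (rowB 3 eng mog cd1q1 cd1q2a pd1 2 false true false .dn 1 1 2 (qsf 536870912 536870912 0 536870912 1) ndB1q1 ndB1q2a pcB1 Cut.none Ext.none)

def k0_pm_112_a : ∃ t, chk3 f_pm_112_a t 1 1 1 = true :=
  ⟨(a (a (b (b (a (a (b (l 16402752) (l 16111712)) (b (l 16430008) (l 16152504))) (a (b (l 16448064) (l 16194992)) (b (l 16476320) (b (l 16309728) (l 16089488))))) (a (b (a (b (b (l 16006600) (l 15930776)) (l 15965272)) (b (b (l 16023864) (l 15999424)) (l 16059400))) (a (b (l 16070016) (l 16178056)) (l 16201280))) (b (a (b (l 15932792) (l 16141064)) (c (l 16229080) (l 16127088))) (c (l 16322512) (l 16257440))))) (b (a (b (a (l 16342208) (l 16386600)) (b (l 16266632) (l 16156168))) (b (c (l 16341160) (l 16389608)) (b (l 16233384) (l 16166552)))) (b (a (b (b (l 16061392) (l 15999736)) (l 15925568)) (b (a (l 16049016)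 (l 1)) (l 1))) (a (c (l 98278448567) (l 15623520)) (l 1))))) (b (a (b (b (a (l 16490768) (l 1)) (a (b (l 16309776) (l 16203296)) (l 1))) (b (c (l 16307336) (l 16217552)) (l 37076317175))) (l 1)) (b (l 1) (l 1)))) (l 1)), by decide +kernel⟩

theorem c_pm_112_a : CertB 536870912 536870912 0 536870912 991146299 28908434 3 eng mog cd1q1 cd1q2a pd1 false true false .dn 1 1 2
    ndB1q1 ndB1q2a pcB1 Cut.none Ext.none :=
  certB2 (fam := false) (s1 := true) (s2 := false) (a := 1) (b := 1) (c := 2) (cn := .dn) (n1 := ndB1q1) (n2 := ndB1q2a) (pc := pcB1) (cut := Cut.none) (xt := Ext.none) (P1 := 536870912) (W1 := 536870912) (P2 := 0) (W2 := 536870912) (P3 := 991146299) (W3 := 28908434) (N0 := 3) (En := eng) (mo := mog) (C1 := cd1q1) (C2 := cd1q2a) (C3 := pd1)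
    rfl (fun _ => rfl) k0_pm_112_a

noncomputable def f_pm_112_b : ℕ → ℕ → ℕ → ℕ → Bool := onCell 536870912 536870912 536870912 536870912 991146299 28908434
    (rowB 3 eng mog cd1q1 cd1q2b pd1 1 false true false .dn 1 1 2 (qsf 536870912 536870912 1239849684 370763052 1) ndB1q1 ndB1q2b pcB1 Cut.none Ext.none)

def k0_pm_112_b : ∃ t, chk3 f_pm_112_b t 1 1 1 = true :=
  ⟨(b (a (b (a (b (a (l 1) (a (l 238403136935) (l 243771928327))) (a (b (l 239476934695) (l 16314256)) (b (l 16437280) (l 16507024)))) (b (a (c (l 16347952) (l 16439672)) (b (l 16632872) (l 16715776))) (a (a (l 16567552) (l 16599072)) (l 16554744)))) (a (b (a (l 279205395719) (l 16365272)) (a (l 16417240) (l 16329456))) (b (a (l 16429328) (l 16345320)) (a (l 16238792) (l 16147216))))) (b (a (a (b (a (l 16515680) (b (l 16360496) (l 16429752))) (b (l 16566472) (l 16465984))) (b (a (l 16312376) (l 16374776)) (a (b (l 16367696) (l 16397096)) (l 16280784)))) (a (b (a (l 16168288) (l 15756616)) (a (l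 16082136) (l 15859176))) (b (a (b (l 15734152) (l 15712472)) (b (l 3) (l 15534400))) (a (l 330810444343) (l 2))))) (a (a (b (l 16292080) (l 16051024)) (b (a (l 16224560) (l 16122112)) (a (l 15969936) (l 2)))) (a (b (l 360339213655) (l 2)) (l 2))))) (b (a (a (b (a (l 16283264) (l 16173360)) (a (l 16173600) (l 16041880))) (b (a (l 16055888) (l 15936864)) (a (l 15898832) (l 15754160)))) (a (b (a (l 15818984) (l 2)) (l 2)) (l 2))) (a (a (b (l 16031384) (l 16009088)) (b (l 15450040) (l 2))) (l 2)))), by decide +kernel⟩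

theorem c_pm_112_b : CertB 536870912 536870912 1239849684 370763052 991146299 28908434 3 eng mog cd1q1 cd1q2b pd1 false true false .dn 1 1 2
    ndB1q1 ndB1q2b pcB1 Cut.none Ext.none :=
  certB1 (fam := false) (s1 := true) (s2 := false) (a := 1) (b := 1) (c := 2) (cn := .dn) (n1 := ndB1q1) (n2 := ndB1q2b) (pc := pcB1) (cut := Cut.none) (xt := Ext.none) (P1 := 536870912) (W1 := 536870912) (P2 := 1239849684) (W2 := 370763052) (P3 := 991146299) (W3 := 28908434) (N0 := 3) (En := eng) (mo := mog) (C1 := cd1q1) (C2 := cd1q2b) (C3 := pd1)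
    rfl (fun _ => rfl) k0_pm_112_b

noncomputable def f_pm_113 : ℕ → ℕ → ℕ → ℕ → Bool := onCell 536870912 536870912 536870912 536870912 991146299 28908434
    (rowB 3 eng mog cd1q1 cd1q3 pd1 1 false true false .nn 1 1 3 (qsf 536870912 536870912 1610612736 536870912 1) ndB1q1 ndB1q3 pcB1 Cut.none Ext.none)

def k0_pm_113 : ∃ t, chk3 f_pm_113 t 1 1 1 = true :=
  ⟨(b (a (b (l 1) (a (l 1) (b (l 1) (a (l 1) (l 16137888))))) (b (a (a (l 1) (b (l 1) (a (l 1) (l 16243952)))) (a (b (a (l 1) (b (l 1) (l 15864528))) (b (l 195989186567) (l 15715704))) (b (a (b (l 222832229111) (l 15591856)) (b (l 3) (l 297591090519))) (a (b (l 15618144) (l 15597536)) (b (l 129013579351) (l 15153648)))))) (a (a (b (b (l 1) (l 16214968)) (l 15869568)) (b (a (l 16202512) (b (l 16141920) (l 16053792))) (b (l 15860576) (l 15865712)))) (a (b (b (l 15771440) (l 15797856)) (b (l 15732576) (l 15655832))) (b (b (a (l 15569936) (l 15388960)) (c (l 15459880) (l 15444536))) (b (a (l 15492896) (l 15345408))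 (l 15380528))))))) (b (a (a (b (l 1) (a (l 1) (l 16074112))) (b (a (l 16064384) (l 15938016)) (a (l 15922800) (l 15768032)))) (a (b (a (l 15813816) (l 15606544)) (a (l 15622520) (l 15497056))) (b (a (b (l 15575600) (l 15496784)) (b (l 15342672) (l 15312376))) (a (a (l 15418632) (l 15373304)) (b (l 15302432) (l 15334176)))))) (a (a (b (a (l 16142040) (l 16004672)) (a (l 16081856) (l 15993464))) (b (a (l 15825976) (l 15644696)) (a (l 15788624) (l 15584464)))) (b (a (a (l 15483272) (l 15373616)) (a (l 15617504) (b (l 15447776) (l 15720288)))) (a (a (l 15417480) (l 15358688)) (a (l 15594464) (b (l 16332504) (a (l 16825408) (l 16797336))))))))), by decide +kernel⟩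

theorem c_pm_113 : CertB 536870912 536870912 1610612736 536870912 991146299 28908434 3 eng mog cd1q1 cd1q3 pd1 false true false .nn 1 1 3
    ndB1q1 ndB1q3 pcB1 Cut.none Ext.none :=
  certB1 (fam := false) (s1 := true) (s2 := false) (a := 1) (b := 1) (c := 3) (cn := .nn) (n1 := ndB1q1) (n2 := ndB1q3) (pc := pcB1) (cut := Cut.none) (xt := Ext.none) (P1 := 536870912) (W1 := 536870912) (P2 := 1610612736) (W2 := 536870912) (P3 := 991146299) (W3 := 28908434) (N0 := 3) (En := eng) (mo := mog) (C1 := cd1q1) (C2 := cd1q3) (C3 := pd1)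
    rfl (fun _ => rfl) k0_pm_113

noncomputable def f_pm_123 : ℕ → ℕ → ℕ → ℕ → Bool := onCell 1073741824 536870912 1610612736 536870912 991146299 28908434
    (rowB 3 eng mog cd1q1 cd1q3 pd2 2 false true false .npn 1 2 3 (qsf 536870912 536870912 1610612736 536870912 2) ndB1q1 ndB1q3 pcB2 Cut.none Ext.none)

def k0_pm_123 : ∃ t, chk3 f_pm_123 t 1 1 1 = true :=
  ⟨(a (a (b (b (a (b (c (l 15991728) (l 16123088)) (c (l 16022464) (l 16172752))) (b (l 15936832) (l 15926112))) (a (b (c (l 16005304) (l 16182304)) (c (l 15849464) (l 16017656))) (b (l 15844368) (l 15741368)))) (b (a (a (c (l 15744944) (l 15865968)) (b (l 15800872) (l 15812920))) (b (l 15684552) (l 15725056))) (a (b (b (l 16148016) (a (l 16340896) (l 16156088))) (c (b (l 16540744) (l 125190558759)) (a (b (l 16463344) (l 16365584)) (l 16464000)))) (b (c (l 15942920) (l 15952224)) (a (l 16247320) (l 16399712)))))) (b (b (a (b (l 1) (l 15638632)) (l 1)) (a (b (l 15544384) (l 15474176)) (b (l 15294320) (l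 15200664)))) (b (a (b (l 15437352) (l 15484880)) (b (l 15145592) (l 15182960))) (b (a (l 15684208) (l 15337136)) (a (a (l 16239592) (l 16016400)) (a (l 15786472) (l 15561952))))))) (b (a (a (b (l 1) (b (l 1) (l 15064944))) (l 1)) (l 1)) (a (b (a (b (a (l 14965904) (l 14921496)) (a (l 14953768) (l 14836192))) (b (l 14978968) (a (l 14797024) (l 14849776)))) (a (b (l 14981712) (l 15220712)) (b (a (l 14763656) (l 14712464)) (a (l 14945272) (l 14788480))))) (b (a (b (l 1) (l 15008656)) (l 1)) (a (b (l 14662112) (a (l 14669552) (l 14774264))) (b (l 171291583975) (a (l 14900912) (l 15067328)))))))), by decide +kernel⟩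

theorem c_pm_123 : CertB 536870912 536870912 1610612736 536870912 991146299 28908434 3 eng mog cd1q1 cd1q3 pd2 false true false .npn 1 2 3
    ndB1q1 ndB1q3 pcB2 Cut.none Ext.none :=
  certB2 (fam := false) (s1 := true) (s2 := false) (a := 1) (b := 2) (c := 3) (cn := .npn) (n1 := ndB1q1) (n2 := ndB1q3) (pc := pcB2) (cut := Cut.none) (xt := Ext.none) (P1 := 536870912) (W1 := 536870912) (P2 := 1610612736) (W2 := 536870912) (P3 := 991146299) (W3 := 28908434) (N0 := 3) (En := eng) (mo := mog) (C1 := cd1q1) (C2 := cd1q3) (C3 := pd2)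
    rfl (fun _ => rfl) k0_pm_123

noncomputable def f_pm_133 : ℕ → ℕ → ℕ → ℕ → Bool := onCell 536870912 536870912 1610612736 536870912 991146299 28908434
    (rowB 3 eng mog cd1q1 cd1q3 pd3 0 false true false .dn 1 3 3 (qsf 536870912 536870912 1610612736 536870912 3) ndB1q1 ndB1q3 pcB3 Cut.none Ext.none)

def k0_pm_133 : ∃ t, chk3 f_pm_133 t 1 1 1 = true :=
  ⟨(a (b (l 1) (a (b (l 1) (a (b (l 1) (l 407515426343)) (l 1))) (l 1))) (l 1)), by decide +kernel⟩

theorem c_pm_133 : CertB 536870912 536870912 1610612736 536870912 991146299 28908434 3 eng mog cd1q1 cd1q3 pd3 false true false .dn 1 3 3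
    ndB1q1 ndB1q3 pcB3 Cut.none Ext.none :=
  certB0 (fam := false) (s1 := true) (s2 := false) (a := 1) (b := 3) (c := 3) (cn := .dn) (n1 := ndB1q1) (n2 := ndB1q3) (pc := pcB3) (cut := Cut.none) (xt := Ext.none) (P1 := 536870912) (W1 := 536870912) (P2 := 1610612736) (W2 := 536870912) (P3 := 991146299) (W3 := 28908434) (N0 := 3) (En := eng) (mo := mog) (C1 := cd1q1) (C2 := cd1q3) (C3 := pd3)
    rfl k0_pm_133

noncomputable def cut_pm_202_aa : Cut := Cut.of [[⟨0, 1, 0, 53687091⟩, ⟨1, 0, 0, 53687091⟩, ⟨2, 1, 0, 53687091⟩]]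

noncomputable def f_pm_202_aa : ℕ → ℕ → ℕ → ℕ → Bool := onCell 0 536870912 0 536870912 991146299 28908434
    (rowB 3 eng mog cd1q2a cd1q2a pd0 0 false true false .pp 2 0 2 (qsf 0 536870912 0 536870912 0) ndB1q2a ndB1q2a pcB0 cut_pm_202_aa Ext.none)

def k0_pm_202_aa : ∃ t, chk3 f_pm_202_aa t 1 1 1 = true :=
  ⟨(a (l 3) (b (l 3) (a (l 3) (b (l 3) (a (l 3) (b (l 3) (l 6))))))), by decide +kernel⟩

theorem c_pm_202_aa : CertB 0 536870912 0 536870912 991146299 28908434 3 eng mog cd1q2a cd1q2a pd0 false true false .pp 2 0 2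
    ndB1q2a ndB1q2a pcB0 cut_pm_202_aa Ext.none :=
  certB0 (fam := false) (s1 := true) (s2 := false) (a := 2) (b := 0) (c := 2) (cn := .pp) (n1 := ndB1q2a) (n2 := ndB1q2a) (pc := pcB0) (cut := cut_pm_202_aa) (xt := Ext.none) (P1 := 0) (W1 := 536870912) (P2 := 0) (W2 := 536870912) (P3 := 991146299) (W3 := 28908434) (N0 := 3) (En := eng) (mo := mog) (C1 := cd1q2a) (C2 := cd1q2a) (C3 := pd0)
    rfl k0_pm_202_aa

noncomputable def cut_pm_202_ab : Cut := Cut.of [[⟨0, 1, 0, 53687091⟩, ⟨1, 0, 0, 53687091⟩, ⟨2, 1, 0, 53687091⟩]]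

noncomputable def f_pm_202_ab : ℕ → ℕ → ℕ → ℕ → Bool := onCell 0 536870912 1239849684 370763052 991146299 28908434
    (rowB 3 eng mog cd1q2a cd1q2b pd0 0 false true false .pp 2 0 2 (qsf 0 536870912 1239849684 370763052 0) ndB1q2a ndB1q2b pcB0 cut_pm_202_ab Ext.none)

def k0_pm_202_ab : ∃ t, chk3 f_pm_202_ab t 1 1 1 = true :=
  ⟨(l 3), by decide +kernel⟩

theorem c_pm_202_ab : CertB 0 536870912 1239849684 370763052 991146299 28908434 3 eng mog cd1q2a cd1q2b pd0 false true false .pp 2 0 2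
    ndB1q2a ndB1q2b pcB0 cut_pm_202_ab Ext.none :=
  certB0 (fam := false) (s1 := true) (s2 := false) (a := 2) (b := 0) (c := 2) (cn := .pp) (n1 := ndB1q2a) (n2 := ndB1q2b) (pc := pcB0) (cut := cut_pm_202_ab) (xt := Ext.none) (P1 := 0) (W1 := 536870912) (P2 := 1239849684) (W2 := 370763052) (P3 := 991146299) (W3 := 28908434) (N0 := 3) (En := eng) (mo := mog) (C1 := cd1q2a) (C2 := cd1q2b) (C3 := pd0)
    rfl k0_pm_202_ab

noncomputable def cut_pm_202_ba : Cut := Cut.of [[⟨0, 1, 0, 53687091⟩, ⟨1, 0, 0, 53687091⟩, ⟨2, 1, 0, 53687091⟩]]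

noncomputable def f_pm_202_ba : ℕ → ℕ → ℕ → ℕ → Bool := onCell 1239849684 370763052 0 536870912 991146299 28908434
    (rowB 3 eng mog cd1q2b cd1q2a pd0 0 false true false .pp 2 0 2 (qsf 1239849684 370763052 0 536870912 0) ndB1q2b ndB1q2a pcB0 cut_pm_202_ba Ext.none)

def k0_pm_202_ba : ∃ t, chk3 f_pm_202_ba t 1 1 1 = true :=
  ⟨(l 3), by decide +kernel⟩

theorem c_pm_202_ba : CertB 1239849684 370763052 0 536870912 991146299 28908434 3 eng mog cd1q2b cd1q2a pd0 false true false .pp 2 0 2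
    ndB1q2b ndB1q2a pcB0 cut_pm_202_ba Ext.none :=
  certB0 (fam := false) (s1 := true) (s2 := false) (a := 2) (b := 0) (c := 2) (cn := .pp) (n1 := ndB1q2b) (n2 := ndB1q2a) (pc := pcB0) (cut := cut_pm_202_ba) (xt := Ext.none) (P1 := 1239849684) (W1 := 370763052) (P2 := 0) (W2 := 536870912) (P3 := 991146299) (W3 := 28908434) (N0 := 3) (En := eng) (mo := mog) (C1 := cd1q2b) (C2 := cd1q2a) (C3 := pd0)
    rfl k0_pm_202_ba

noncomputable def cut_pm_202_bb : Cut := Cut.of [[⟨0, 1, 0, 53687091⟩, ⟨1, 0, 0, 53687091⟩, ⟨2, 1, 0, 53687091⟩]]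

noncomputable def f_pm_202_bb : ℕ → ℕ → ℕ → ℕ → Bool := onCell 1239849684 370763052 1239849684 370763052 991146299 28908434
    (rowB 3 eng mog cd1q2b cd1q2b pd0 0 false true false .pp 2 0 2 (qsf 1239849684 370763052 1239849684 370763052 0) ndB1q2b ndB1q2b pcB0 cut_pm_202_bb Ext.none)

def k0_pm_202_bb : ∃ t, chk3 f_pm_202_bb t 1 1 1 = true :=
  ⟨(l 3), by decide +kernel⟩

theorem c_pm_202_bb : CertB 1239849684 370763052 1239849684 370763052 991146299 28908434 3 eng mog cd1q2b cd1q2b pd0 false true false .pp 2 0 2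
    ndB1q2b ndB1q2b pcB0 cut_pm_202_bb Ext.none :=
  certB0 (fam := false) (s1 := true) (s2 := false) (a := 2) (b := 0) (c := 2) (cn := .pp) (n1 := ndB1q2b) (n2 := ndB1q2b) (pc := pcB0) (cut := cut_pm_202_bb) (xt := Ext.none) (P1 := 1239849684) (W1 := 370763052) (P2 := 1239849684) (W2 := 370763052) (P3 := 991146299) (W3 := 28908434) (N0 := 3) (En := eng) (mo := mog) (C1 := cd1q2b) (C2 := cd1q2b) (C3 := pd0)
    rfl k0_pm_202_bb

noncomputable def f_pm_203_a : ℕ → ℕ → ℕ → ℕ → Bool := onCell 0 536870912 0 536870912 991146299 28908434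
    (rowB 3 eng mog cd1q2a cd1q3 pd0 1 false true false .up 2 0 3 (qsf 0 536870912 1610612736 536870912 0) ndB1q2a ndB1q3 pcB0 Cut.none Ext.none)

def k0_pm_203_a : ∃ t, chk3 f_pm_203_a t 1 1 1 = true :=
  ⟨(l 3), by decide +kernel⟩

theorem c_pm_203_a : CertB 0 536870912 1610612736 536870912 991146299 28908434 3 eng mog cd1q2a cd1q3 pd0 false true false .up 2 0 3
    ndB1q2a ndB1q3 pcB0 Cut.none Ext.none :=
  certB1 (fam := false) (s1 := true) (s2 := false) (a := 2) (b := 0) (c := 3) (cn := .up) (n1 := ndB1q2a) (n2 := ndB1q3) (pc := pcB0) (cut := Cut.none) (xt := Ext.none) (P1 := 0) (W1 := 536870912) (P2 := 1610612736) (W2 := 536870912) (P3 := 991146299) (W3 := 28908434) (N0 := 3) (En := eng) (mo := mog) (C1 := cd1q2a) (C2 := cd1q3) (C3 := pd0)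
    rfl (fun _ => rfl) k0_pm_203_a

noncomputable def f_pm_203_b : ℕ → ℕ → ℕ → ℕ → Bool := onCell 1239849684 370763052 1610612736 536870912 991146299 28908434
    (rowB 3 eng mog cd1q2b cd1q3 pd0 0 false true false .up 2 0 3 (qsf 1239849684 370763052 1610612736 536870912 0) ndB1q2b ndB1q3 pcB0 Cut.none Ext.none)

def k0_pm_203_b : ∃ t, chk3 f_pm_203_b t 1 1 1 = true :=
  ⟨(l 3), by decide +kernel⟩

theorem c_pm_203_b : CertB 1239849684 370763052 1610612736 536870912 991146299 28908434 3 eng mog cd1q2b cd1q3 pd0 false true false .up 2 0 3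
    ndB1q2b ndB1q3 pcB0 Cut.none Ext.none :=
  certB0 (fam := false) (s1 := true) (s2 := false) (a := 2) (b := 0) (c := 3) (cn := .up) (n1 := ndB1q2b) (n2 := ndB1q3) (pc := pcB0) (cut := Cut.none) (xt := Ext.none) (P1 := 1239849684) (W1 := 370763052) (P2 := 1610612736) (W2 := 536870912) (P3 := 991146299) (W3 := 28908434) (N0 := 3) (En := eng) (mo := mog) (C1 := cd1q2b) (C2 := cd1q3) (C3 := pd0)
    rfl k0_pm_203_b

noncomputable def cut_pm_213_a : Cut := Cut.of [[⟨0, 1, 0, 37748736⟩, ⟨1, 1, 0, 37748736⟩, ⟨2, 2, 0, 5242880⟩]]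

noncomputable def f_pm_213_a : ℕ → ℕ → ℕ → ℕ → Bool := onCell 0 536870912 1610612736 536870912 991146299 28908434
    (rowB 3 eng mog cd1q2a cd1q3 pd1 0 false true false .pnn 2 1 3 (qsf 0 536870912 1610612736 536870912 1) ndB1q2a ndB1q3 pcB1 cut_pm_213_a Ext.none)

def k0_pm_213_a : ∃ t, chk3 f_pm_213_a t 1 1 1 = true :=
  ⟨(b (l 3) (b (l 3) (a (l 3) (a (l 3) (b (l 3) (a (l 3) (b (l 3) (a (l 3) (b (l 3) (b (l 3) (b (l 3) (l 6)))))))))))), by decide +kernel⟩

theorem c_pm_213_a : CertB 0 536870912 1610612736 536870912 991146299 28908434 3 eng mog cd1q2a cd1q3 pd1 false true false .pnn 2 1 3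
    ndB1q2a ndB1q3 pcB1 cut_pm_213_a Ext.none :=
  certB0 (fam := false) (s1 := true) (s2 := false) (a := 2) (b := 1) (c := 3) (cn := .pnn) (n1 := ndB1q2a) (n2 := ndB1q3) (pc := pcB1) (cut := cut_pm_213_a) (xt := Ext.none) (P1 := 0) (W1 := 536870912) (P2 := 1610612736) (W2 := 536870912) (P3 := 991146299) (W3 := 28908434) (N0 := 3) (En := eng) (mo := mog) (C1 := cd1q2a) (C2 := cd1q3) (C3 := pd1)
    rfl k0_pm_213_a

noncomputable def cut_pm_213_b : Cut := Cut.of [[⟨0, 1, 0, 37748736⟩, ⟨1, 1, 0, 37748736⟩, ⟨2, 2, 0, 5242880⟩]]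

noncomputable def f_pm_213_b : ℕ → ℕ → ℕ → ℕ → Bool := onCell 1239849684 370763052 1610612736 536870912 991146299 28908434
    (rowB 3 eng mog cd1q2b cd1q3 pd1 0 false true false .pnn 2 1 3 (qsf 1239849684 370763052 1610612736 536870912 1) ndB1q2b ndB1q3 pcB1 cut_pm_213_b Ext.none)

def k0_pm_213_b : ∃ t, chk3 f_pm_213_b t 1 1 1 = true :=
  ⟨(l 3), by decide +kernel⟩

theorem c_pm_213_b : CertB 1239849684 370763052 1610612736 536870912 991146299 28908434 3 eng mog cd1q2b cd1q3 pd1 false true false .pnn 2 1 3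
    ndB1q2b ndB1q3 pcB1 cut_pm_213_b Ext.none :=
  certB0 (fam := false) (s1 := true) (s2 := false) (a := 2) (b := 1) (c := 3) (cn := .pnn) (n1 := ndB1q2b) (n2 := ndB1q3) (pc := pcB1) (cut := cut_pm_213_b) (xt := Ext.none) (P1 := 1239849684) (W1 := 370763052) (P2 := 1610612736) (W2 := 536870912) (P3 := 991146299) (W3 := 28908434) (N0 := 3) (En := eng) (mo := mog) (C1 := cd1q2b) (C2 := cd1q3) (C3 := pd1)
    rfl k0_pm_213_b

noncomputable def f_pm_303 : ℕ → ℕ → ℕ → ℕ → Bool := onCell 1610612736 536870912 1610612736 536870912 991146299 28908434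
    (rowB 3 eng mog cd1q3 cd1q3 pd0 0 false true false .npn 3 0 3 (qsf 1610612736 536870912 1610612736 536870912 0) ndB1q3 ndB1q3 pcB0 Cut.none Ext.none)

def k0_pm_303 : ∃ t, chk3 f_pm_303 t 1 1 1 = true :=
  ⟨(l 3), by decide +kernel⟩

theorem c_pm_303 : CertB 1610612736 536870912 1610612736 536870912 991146299 28908434 3 eng mog cd1q3 cd1q3 pd0 false true false .npn 3 0 3
    ndB1q3 ndB1q3 pcB0 Cut.none Ext.none :=
  certB0 (fam := false) (s1 := true) (s2 := false) (a := 3) (b := 0) (c := 3) (cn := .npn) (n1 := ndB1q3) (n2 := ndB1q3) (pc := pcB0) (cut := Cut.none) (xt := Ext.none) (P1 := 1610612736) (W1 := 536870912) (P2 := 1610612736) (W2 := 536870912) (P3 := 991146299) (W3 := 28908434) (N0 := 3) (En := eng) (mo := mog) (C1 := cd1q3) (C2 := cd1q3) (C3 := pd0)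
    rfl k0_pm_303

noncomputable def f_pm_313 : ℕ → ℕ → ℕ → ℕ → Bool := onCell 1610612736 536870912 1610612736 536870912 991146299 28908434
    (rowB 3 eng mog cd1q3 cd1q3 pd1 0 false true false .dn 3 1 3 (qsf 1610612736 536870912 1610612736 536870912 1) ndB1q3 ndB1q3 pcB1 Cut.none Ext.none)

def k0_pm_313 : ∃ t, chk3 f_pm_313 t 1 1 1 = true :=
  ⟨(l 3), by decide +kernel⟩

theorem c_pm_313 : CertB 1610612736 536870912 1610612736 536870912 991146299 28908434 3 eng mog cd1q3 cd1q3 pd1 false true false .dn 3 1 3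
    ndB1q3 ndB1q3 pcB1 Cut.none Ext.none :=
  certB0 (fam := false) (s1 := true) (s2 := false) (a := 3) (b := 1) (c := 3) (cn := .dn) (n1 := ndB1q3) (n2 := ndB1q3) (pc := pcB1) (cut := Cut.none) (xt := Ext.none) (P1 := 1610612736) (W1 := 536870912) (P2 := 1610612736) (W2 := 536870912) (P3 := 991146299) (W3 := 28908434) (N0 := 3) (En := eng) (mo := mog) (C1 := cd1q3) (C2 := cd1q3) (C3 := pd1)
    rfl k0_pm_313

noncomputable def f_mm_001 : ℕ → ℕ → ℕ → ℕ → Bool := onCell 0 536870912 536870912 536870912 991146299 28908434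
    (rowB 3 eng mog cd1q0 cd1q1 pd0 0 false false false .up 0 0 1 (qsf 0 536870912 536870912 536870912 0) ndB1q0 ndB1q1 pcB0 Cut.none Ext.none)

def k0_mm_001 : ∃ t, chk3 f_mm_001 t 1 1 1 = true :=
  ⟨(l 3), by decide +kernel⟩

theorem c_mm_001 : CertB 0 536870912 536870912 536870912 991146299 28908434 3 eng mog cd1q0 cd1q1 pd0 false false false .up 0 0 1
    ndB1q0 ndB1q1 pcB0 Cut.none Ext.none :=
  certB0 (fam := false) (s1 := false) (s2 := false) (a := 0) (b := 0) (c := 1) (cn := .up) (n1 := ndB1q0) (n2 := ndB1q1) (pc := pcB0) (cut := Cut.none) (xt := Ext.none) (P1 := 0) (W1 := 536870912) (P2 := 536870912) (W2 := 536870912) (P3 := 991146299) (W3 := 28908434) (N0 := 3) (En := eng) (mo := mog) (C1 := cd1q0) (C2 := cd1q1) (C3 := pd0)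
    rfl k0_mm_001

noncomputable def f_mm_011 : ℕ → ℕ → ℕ → ℕ → Bool := onCell 0 536870912 536870912 536870912 991146299 28908434
    (rowB 3 eng mog cd1q0 cd1q1 pd1 0 false false false .pnn 0 1 1 (qsf 0 536870912 536870912 536870912 1) ndB1q0 ndB1q1 pcB1 Cut.none Ext.none)

def k0_mm_011 : ∃ t, chk3 f_mm_011 t 1 1 1 = true :=
  ⟨(l 3), by decide +kernel⟩

theorem c_mm_011 : CertB 0 536870912 536870912 536870912 991146299 28908434 3 eng mog cd1q0 cd1q1 pd1 false false false .pnn 0 1 1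
    ndB1q0 ndB1q1 pcB1 Cut.none Ext.none :=
  certB0 (fam := false) (s1 := false) (s2 := false) (a := 0) (b := 1) (c := 1) (cn := .pnn) (n1 := ndB1q0) (n2 := ndB1q1) (pc := pcB1) (cut := Cut.none) (xt := Ext.none) (P1 := 0) (W1 := 536870912) (P2 := 536870912) (W2 := 536870912) (P3 := 991146299) (W3 := 28908434) (N0 := 3) (En := eng) (mo := mog) (C1 := cd1q0) (C2 := cd1q1) (C3 := pd1)
    rfl k0_mm_011

noncomputable def f_mm_012_a : ℕ → ℕ → ℕ → ℕ → Bool := onCell 0 536870912 0 536870912 991146299 28908434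
    (rowB 3 eng mog cd1q0 cd1q2a pd1 0 false false false .pnp 0 1 2 (qsf 0 536870912 0 536870912 1) ndB1q0 ndB1q2a pcB1 Cut.none Ext.none)

def k0_mm_012_a : ∃ t, chk3 f_mm_012_a t 1 1 1 = true :=
  ⟨(l 5), by decide +kernel⟩

theorem c_mm_012_a : CertB 0 536870912 0 536870912 991146299 28908434 3 eng mog cd1q0 cd1q2a pd1 false false false .pnp 0 1 2
    ndB1q0 ndB1q2a pcB1 Cut.none Ext.none :=
  certB0 (fam := false) (s1 := false) (s2 := false) (a := 0) (b := 1) (c := 2) (cn := .pnp) (n1 := ndB1q0) (n2 := ndB1q2a) (pc := pcB1) (cut := Cut.none) (xt := Ext.none) (P1 := 0) (W1 := 536870912) (P2 := 0) (W2 := 536870912) (P3 := 991146299) (W3 := 28908434) (N0 := 3) (En := eng) (mo := mog) (C1 := cd1q0) (C2 := cd1q2a) (C3 := pd1)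
    rfl k0_mm_012_a

noncomputable def f_mm_012_b : ℕ → ℕ → ℕ → ℕ → Bool := onCell 0 536870912 1239849684 370763052 991146299 28908434
    (rowB 3 eng mog cd1q0 cd1q2b pd1 0 false false false .pnp 0 1 2 (qsf 0 536870912 1239849684 370763052 1) ndB1q0 ndB1q2b pcB1 Cut.none Ext.none)

def k0_mm_012_b : ∃ t, chk3 f_mm_012_b t 1 1 1 = true :=
  ⟨(l 5), by decide +kernel⟩

theorem c_mm_012_b : CertB 0 536870912 1239849684 370763052 991146299 28908434 3 eng mog cd1q0 cd1q2b pd1 false false false .pnp 0 1 2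
    ndB1q0 ndB1q2b pcB1 Cut.none Ext.none :=
  certB0 (fam := false) (s1 := false) (s2 := false) (a := 0) (b := 1) (c := 2) (cn := .pnp) (n1 := ndB1q0) (n2 := ndB1q2b) (pc := pcB1) (cut := Cut.none) (xt := Ext.none) (P1 := 0) (W1 := 536870912) (P2 := 1239849684) (W2 := 370763052) (P3 := 991146299) (W3 := 28908434) (N0 := 3) (En := eng) (mo := mog) (C1 := cd1q0) (C2 := cd1q2b) (C3 := pd1)
    rfl k0_mm_012_b

noncomputable def f_mm_022_a : ℕ → ℕ → ℕ → ℕ → Bool := onCell 0 536870912 0 536870912 991146299 28908434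
    (rowB 3 eng mog cd1q0 cd1q2a pd2 0 false false false .pp 0 2 2 (qsf 0 536870912 0 536870912 2) ndB1q0 ndB1q2a pcB2 Cut.none Ext.none)

def k0_mm_022_a : ∃ t, chk3 f_mm_022_a t 1 1 1 = true :=
  ⟨(l 5), by decide +kernel⟩

theorem c_mm_022_a : CertB 0 536870912 0 536870912 991146299 28908434 3 eng mog cd1q0 cd1q2a pd2 false false false .pp 0 2 2
    ndB1q0 ndB1q2a pcB2 Cut.none Ext.none :=
  certB0 (fam := false) (s1 := false) (s2 := false) (a := 0) (b := 2) (c := 2) (cn := .pp) (n1 := ndB1q0) (n2 := ndB1q2a) (pc := pcB2) (cut := Cut.none) (xt := Ext.none) (P1 := 0) (W1 := 536870912) (P2 := 0) (W2 := 536870912) (P3 := 991146299) (W3 := 28908434) (N0 := 3) (En := eng) (mo := mog) (C1 := cd1q0) (C2 := cd1q2a) (C3 := pd2)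
    rfl k0_mm_022_a

noncomputable def f_mm_022_b : ℕ → ℕ → ℕ → ℕ → Bool := onCell 0 536870912 1239849684 370763052 991146299 28908434
    (rowB 3 eng mog cd1q0 cd1q2b pd2 0 false false false .pp 0 2 2 (qsf 0 536870912 1239849684 370763052 2) ndB1q0 ndB1q2b pcB2 Cut.none Ext.none)

def k0_mm_022_b : ∃ t, chk3 f_mm_022_b t 1 1 1 = true :=
  ⟨(l 5), by decide +kernel⟩

theorem c_mm_022_b : CertB 0 536870912 1239849684 370763052 991146299 28908434 3 eng mog cd1q0 cd1q2b pd2 false false false .pp 0 2 2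
    ndB1q0 ndB1q2b pcB2 Cut.none Ext.none :=
  certB0 (fam := false) (s1 := false) (s2 := false) (a := 0) (b := 2) (c := 2) (cn := .pp) (n1 := ndB1q0) (n2 := ndB1q2b) (pc := pcB2) (cut := Cut.none) (xt := Ext.none) (P1 := 0) (W1 := 536870912) (P2 := 1239849684) (W2 := 370763052) (P3 := 991146299) (W3 := 28908434) (N0 := 3) (En := eng) (mo := mog) (C1 := cd1q0) (C2 := cd1q2b) (C3 := pd2)
    rfl k0_mm_022_b

noncomputable def f_mm_023 : ℕ → ℕ → ℕ → ℕ → Bool := onCell 0 536870912 1610612736 536870912 991146299 28908434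
    (rowB 3 eng mog cd1q0 cd1q3 pd2 0 false false false .up 0 2 3 (qsf 0 536870912 1610612736 536870912 2) ndB1q0 ndB1q3 pcB2 Cut.none Ext.none)

def k0_mm_023 : ∃ t, chk3 f_mm_023 t 1 1 1 = true :=
  ⟨(l 5), by decide +kernel⟩

theorem c_mm_023 : CertB 0 536870912 1610612736 536870912 991146299 28908434 3 eng mog cd1q0 cd1q3 pd2 false false false .up 0 2 3
    ndB1q0 ndB1q3 pcB2 Cut.none Ext.none :=
  certB0 (fam := false) (s1 := false) (s2 := false) (a := 0) (b := 2) (c := 3) (cn := .up) (n1 := ndB1q0) (n2 := ndB1q3) (pc := pcB2) (cut := Cut.none) (xt := Ext.none) (P1 := 0) (W1 := 536870912) (P2 := 1610612736) (W2 := 536870912) (P3 := 991146299) (W3 := 28908434) (N0 := 3) (En := eng) (mo := mog) (C1 := cd1q0) (C2 := cd1q3) (C3 := pd2)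
    rfl k0_mm_023

noncomputable def f_mm_033 : ℕ → ℕ → ℕ → ℕ → Bool := onCell 0 536870912 1610612736 536870912 991146299 28908434
    (rowB 3 eng mog cd1q0 cd1q3 pd3 0 false false false .pnn 0 3 3 (qsf 0 536870912 1610612736 536870912 3) ndB1q0 ndB1q3 pcB3 Cut.none Ext.none)

def k0_mm_033 : ∃ t, chk3 f_mm_033 t 1 1 1 = true :=
  ⟨(l 5), by decide +kernel⟩

theorem c_mm_033 : CertB 0 536870912 1610612736 536870912 991146299 28908434 3 eng mog cd1q0 cd1q3 pd3 false false false .pnn 0 3 3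
    ndB1q0 ndB1q3 pcB3 Cut.none Ext.none :=
  certB0 (fam := false) (s1 := false) (s2 := false) (a := 0) (b := 3) (c := 3) (cn := .pnn) (n1 := ndB1q0) (n2 := ndB1q3) (pc := pcB3) (cut := Cut.none) (xt := Ext.none) (P1 := 0) (W1 := 536870912) (P2 := 1610612736) (W2 := 536870912) (P3 := 991146299) (W3 := 28908434) (N0 := 3) (En := eng) (mo := mog) (C1 := cd1q0) (C2 := cd1q3) (C3 := pd3)
    rfl k0_mm_033

noncomputable def f_mm_101 : ℕ → ℕ → ℕ → ℕ → Bool := onCell 536870912 536870912 536870912 536870912 991146299 28908434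
    (rowB 3 eng mog cd1q1 cd1q1 pd0 0 false false false .npn 1 0 1 (qsf 536870912 536870912 536870912 536870912 0) ndB1q1 ndB1q1 pcB0 Cut.none Ext.none)

def k0_mm_101 : ∃ t, chk3 f_mm_101 t 1 1 1 = true :=
  ⟨(l 3), by decide +kernel⟩

theorem c_mm_101 : CertB 536870912 536870912 536870912 536870912 991146299 28908434 3 eng mog cd1q1 cd1q1 pd0 false false false .npn 1 0 1
    ndB1q1 ndB1q1 pcB0 Cut.none Ext.none :=
  certB0 (fam := false) (s1 := false) (s2 := false) (a := 1) (b := 0) (c := 1) (cn := .npn) (n1 := ndB1q1) (n2 := ndB1q1) (pc := pcB0) (cut := Cut.none) (xt := Ext.none) (P1 := 536870912) (W1 := 536870912) (P2 := 536870912) (W2 := 536870912) (P3 := 991146299) (W3 := 28908434) (N0 := 3) (En := eng) (mo := mog) (C1 := cd1q1) (C2 := cd1q1) (C3 := pd0)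
    rfl k0_mm_101

noncomputable def f_mm_102_a : ℕ → ℕ → ℕ → ℕ → Bool := onCell 536870912 536870912 0 536870912 991146299 28908434
    (rowB 3 eng mog cd1q1 cd1q2a pd0 0 false false false .npp 1 0 2 (qsf 536870912 536870912 0 536870912 0) ndB1q1 ndB1q2a pcB0 Cut.none Ext.none)

def k0_mm_102_a : ∃ t, chk3 f_mm_102_a t 1 1 1 = true :=
  ⟨(l 5), by decide +kernel⟩

theorem c_mm_102_a : CertB 536870912 536870912 0 536870912 991146299 28908434 3 eng mog cd1q1 cd1q2a pd0 false false false .npp 1 0 2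
    ndB1q1 ndB1q2a pcB0 Cut.none Ext.none :=
  certB0 (fam := false) (s1 := false) (s2 := false) (a := 1) (b := 0) (c := 2) (cn := .npp) (n1 := ndB1q1) (n2 := ndB1q2a) (pc := pcB0) (cut := Cut.none) (xt := Ext.none) (P1 := 536870912) (W1 := 536870912) (P2 := 0) (W2 := 536870912) (P3 := 991146299) (W3 := 28908434) (N0 := 3) (En := eng) (mo := mog) (C1 := cd1q1) (C2 := cd1q2a) (C3 := pd0)
    rfl k0_mm_102_a

noncomputable def f_mm_102_b : ℕ → ℕ → ℕ → ℕ → Bool := onCell 536870912 536870912 1239849684 370763052 991146299 28908434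
    (rowB 3 eng mog cd1q1 cd1q2b pd0 0 false false false .npp 1 0 2 (qsf 536870912 536870912 1239849684 370763052 0) ndB1q1 ndB1q2b pcB0 Cut.none Ext.none)

def k0_mm_102_b : ∃ t, chk3 f_mm_102_b t 1 1 1 = true :=
  ⟨(l 5), by decide +kernel⟩

theorem c_mm_102_b : CertB 536870912 536870912 1239849684 370763052 991146299 28908434 3 eng mog cd1q1 cd1q2b pd0 false false false .npp 1 0 2
    ndB1q1 ndB1q2b pcB0 Cut.none Ext.none :=
  certB0 (fam := false) (s1 := false) (s2 := false) (a := 1) (b := 0) (c := 2) (cn := .npp) (n1 := ndB1q1) (n2 := ndB1q2b) (pc := pcB0) (cut := Cut.none) (xt := Ext.none) (P1 := 536870912) (W1 := 536870912) (P2 := 1239849684) (W2 := 370763052) (P3 := 991146299) (W3 := 28908434) (N0 := 3) (En := eng) (mo := mog) (C1 := cd1q1) (C2 := cd1q2b) (C3 := pd0)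
    rfl k0_mm_102_b

noncomputable def f_mm_112_a : ℕ → ℕ → ℕ → ℕ → Bool := onCell 536870912 536870912 0 536870912 991146299 28908434
    (rowB 3 eng mog cd1q1 cd1q2a pd1 0 false false false .dn 1 1 2 (qsf 536870912 536870912 0 536870912 1) ndB1q1 ndB1q2a pcB1 Cut.none Ext.none)

def k0_mm_112_a : ∃ t, chk3 f_mm_112_a t 1 1 1 = true :=
  ⟨(l 5), by decide +kernel⟩

theorem c_mm_112_a : CertB 536870912 536870912 0 536870912 991146299 28908434 3 eng mog cd1q1 cd1q2a pd1 false false false .dn 1 1 2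
    ndB1q1 ndB1q2a pcB1 Cut.none Ext.none :=
  certB0 (fam := false) (s1 := false) (s2 := false) (a := 1) (b := 1) (c := 2) (cn := .dn) (n1 := ndB1q1) (n2 := ndB1q2a) (pc := pcB1) (cut := Cut.none) (xt := Ext.none) (P1 := 536870912) (W1 := 536870912) (P2 := 0) (W2 := 536870912) (P3 := 991146299) (W3 := 28908434) (N0 := 3) (En := eng) (mo := mog) (C1 := cd1q1) (C2 := cd1q2a) (C3 := pd1)
    rfl k0_mm_112_a

noncomputable def f_mm_112_b : ℕ → ℕ → ℕ → ℕ → Bool := onCell 536870912 536870912 1239849684 370763052 991146299 28908434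
    (rowB 3 eng mog cd1q1 cd1q2b pd1 0 false false false .dn 1 1 2 (qsf 536870912 536870912 1239849684 370763052 1) ndB1q1 ndB1q2b pcB1 Cut.none Ext.none)

def k0_mm_112_b : ∃ t, chk3 f_mm_112_b t 1 1 1 = true :=
  ⟨(l 5), by decide +kernel⟩

theorem c_mm_112_b : CertB 536870912 536870912 1239849684 370763052 991146299 28908434 3 eng mog cd1q1 cd1q2b pd1 false false false .dn 1 1 2
    ndB1q1 ndB1q2b pcB1 Cut.none Ext.none :=
  certB0 (fam := false) (s1 := false) (s2 := false) (a := 1) (b := 1) (c := 2) (cn := .dn) (n1 := ndB1q1) (n2 := ndB1q2b) (pc := pcB1) (cut := Cut.none) (xt := Ext.none) (P1 := 536870912) (W1 := 536870912) (P2 := 1239849684) (W2 := 370763052) (P3 := 991146299) (W3 := 28908434) (N0 := 3) (En := eng) (mo := mog) (C1 := cd1q1) (C2 := cd1q2b) (C3 := pd1)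
    rfl k0_mm_112_b

noncomputable def f_mm_113 : ℕ → ℕ → ℕ → ℕ → Bool := onCell 536870912 536870912 1610612736 536870912 991146299 28908434
    (rowB 3 eng mog cd1q1 cd1q3 pd1 0 false false false .nn 1 1 3 (qsf 536870912 536870912 1610612736 536870912 1) ndB1q1 ndB1q3 pcB1 Cut.none Ext.none)

def k0_mm_113 : ∃ t, chk3 f_mm_113 t 1 1 1 = true :=
  ⟨(l 5), by decide +kernel⟩

theorem c_mm_113 : CertB 536870912 536870912 1610612736 536870912 991146299 28908434 3 eng mog cd1q1 cd1q3 pd1 false false false .nn 1 1 3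
    ndB1q1 ndB1q3 pcB1 Cut.none Ext.none :=
  certB0 (fam := false) (s1 := false) (s2 := false) (a := 1) (b := 1) (c := 3) (cn := .nn) (n1 := ndB1q1) (n2 := ndB1q3) (pc := pcB1) (cut := Cut.none) (xt := Ext.none) (P1 := 536870912) (W1 := 536870912) (P2 := 1610612736) (W2 := 536870912) (P3 := 991146299) (W3 := 28908434) (N0 := 3) (En := eng) (mo := mog) (C1 := cd1q1) (C2 := cd1q3) (C3 := pd1)
    rfl k0_mm_113

noncomputable def f_mm_123 : ℕ → ℕ → ℕ → ℕ → Bool := onCell 536870912 536870912 1610612736 536870912 991146299 28908434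
    (rowB 3 eng mog cd1q1 cd1q3 pd2 0 false false false .npn 1 2 3 (qsf 536870912 536870912 1610612736 536870912 2) ndB1q1 ndB1q3 pcB2 Cut.none Ext.none)

def k0_mm_123 : ∃ t, chk3 f_mm_123 t 1 1 1 = true :=
  ⟨(l 5), by decide +kernel⟩

theorem c_mm_123 : CertB 536870912 536870912 1610612736 536870912 991146299 28908434 3 eng mog cd1q1 cd1q3 pd2 false false false .npn 1 2 3
    ndB1q1 ndB1q3 pcB2 Cut.none Ext.none :=
  certB0 (fam := false) (s1 := false) (s2 := false) (a := 1) (b := 2) (c := 3) (cn := .npn) (n1 := ndB1q1) (n2 := ndB1q3) (pc := pcB2) (cut := Cut.none) (xt := Ext.none) (P1 := 536870912) (W1 := 536870912) (P2 := 1610612736) (W2 := 536870912) (P3 := 991146299) (W3 := 28908434) (N0 := 3) (En := eng) (mo := mog) (C1 := cd1q1) (C2 := cd1q3) (C3 := pd2)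
    rfl k0_mm_123

noncomputable def f_mm_133 : ℕ → ℕ → ℕ → ℕ → Bool := onCell 536870912 536870912 1610612736 536870912 991146299 28908434
    (rowB 3 eng mog cd1q1 cd1q3 pd3 0 false false false .dn 1 3 3 (qsf 536870912 536870912 1610612736 536870912 3) ndB1q1 ndB1q3 pcB3 Cut.none Ext.none)

def k0_mm_133 : ∃ t, chk3 f_mm_133 t 1 1 1 = true :=
  ⟨(l 5), by decide +kernel⟩

theorem c_mm_133 : CertB 536870912 536870912 1610612736 536870912 991146299 28908434 3 eng mog cd1q1 cd1q3 pd3 false false false .dn 1 3 3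
    ndB1q1 ndB1q3 pcB3 Cut.none Ext.none :=
  certB0 (fam := false) (s1 := false) (s2 := false) (a := 1) (b := 3) (c := 3) (cn := .dn) (n1 := ndB1q1) (n2 := ndB1q3) (pc := pcB3) (cut := Cut.none) (xt := Ext.none) (P1 := 536870912) (W1 := 536870912) (P2 := 1610612736) (W2 := 536870912) (P3 := 991146299) (W3 := 28908434) (N0 := 3) (En := eng) (mo := mog) (C1 := cd1q1) (C2 := cd1q3) (C3 := pd3)
    rfl k0_mm_133

noncomputable def f_mm_202_aa : ℕ → ℕ → ℕ → ℕ → Bool := onCell 0 536870912 0 536870912 991146299 28908434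
    (rowB 3 eng mog cd1q2a cd1q2a pd0 0 false false false .pp 2 0 2 (qsf 0 536870912 0 536870912 0) ndB1q2a ndB1q2a pcB0 Cut.none Ext.none)

def k0_mm_202_aa : ∃ t, chk3 f_mm_202_aa t 1 1 1 = true :=
  ⟨(l 3), by decide +kernel⟩

theorem c_mm_202_aa : CertB 0 536870912 0 536870912 991146299 28908434 3 eng mog cd1q2a cd1q2a pd0 false false false .pp 2 0 2
    ndB1q2a ndB1q2a pcB0 Cut.none Ext.none :=
  certB0 (fam := false) (s1 := false) (s2 := false) (a := 2) (b := 0) (c := 2) (cn := .pp) (n1 := ndB1q2a) (n2 := ndB1q2a) (pc := pcB0) (cut := Cut.none) (xt := Ext.none) (P1 := 0) (W1 := 536870912) (P2 := 0) (W2 := 536870912) (P3 := 991146299) (W3 := 28908434) (N0 := 3) (En := eng) (mo := mog) (C1 := cd1q2a) (C2 := cd1q2a) (C3 := pd0)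
    rfl k0_mm_202_aa

noncomputable def f_mm_202_ab : ℕ → ℕ → ℕ → ℕ → Bool := onCell 0 536870912 1239849684 370763052 991146299 28908434
    (rowB 3 eng mog cd1q2a cd1q2b pd0 0 false false false .pp 2 0 2 (qsf 0 536870912 1239849684 370763052 0) ndB1q2a ndB1q2b pcB0 Cut.none Ext.none)

def k0_mm_202_ab : ∃ t, chk3 f_mm_202_ab t 1 1 1 = true :=
  ⟨(l 3), by decide +kernel⟩

theorem c_mm_202_ab : CertB 0 536870912 1239849684 370763052 991146299 28908434 3 eng mog cd1q2a cd1q2b pd0 false false false .pp 2 0 2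
    ndB1q2a ndB1q2b pcB0 Cut.none Ext.none :=
  certB0 (fam := false) (s1 := false) (s2 := false) (a := 2) (b := 0) (c := 2) (cn := .pp) (n1 := ndB1q2a) (n2 := ndB1q2b) (pc := pcB0) (cut := Cut.none) (xt := Ext.none) (P1 := 0) (W1 := 536870912) (P2 := 1239849684) (W2 := 370763052) (P3 := 991146299) (W3 := 28908434) (N0 := 3) (En := eng) (mo := mog) (C1 := cd1q2a) (C2 := cd1q2b) (C3 := pd0)
    rfl k0_mm_202_ab

noncomputable def f_mm_202_ba : ℕ → ℕ → ℕ → ℕ → Bool := onCell 1239849684 370763052 0 536870912 991146299 28908434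
    (rowB 3 eng mog cd1q2b cd1q2a pd0 0 false false false .pp 2 0 2 (qsf 1239849684 370763052 0 536870912 0) ndB1q2b ndB1q2a pcB0 Cut.none Ext.none)

def k0_mm_202_ba : ∃ t, chk3 f_mm_202_ba t 1 1 1 = true :=
  ⟨(l 3), by decide +kernel⟩

theorem c_mm_202_ba : CertB 1239849684 370763052 0 536870912 991146299 28908434 3 eng mog cd1q2b cd1q2a pd0 false false false .pp 2 0 2
    ndB1q2b ndB1q2a pcB0 Cut.none Ext.none :=
  certB0 (fam := false) (s1 := false) (s2 := false) (a := 2) (b := 0) (c := 2) (cn := .pp) (n1 := ndB1q2b) (n2 := ndB1q2a) (pc := pcB0) (cut := Cut.none) (xt := Ext.none) (P1 := 1239849684) (W1 := 370763052) (P2 := 0) (W2 := 536870912) (P3 := 991146299) (W3 := 28908434) (N0 := 3) (En := eng) (mo := mog) (C1 := cd1q2b) (C2 := cd1q2a) (C3 := pd0)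
    rfl k0_mm_202_ba

noncomputable def f_mm_202_bb : ℕ → ℕ → ℕ → ℕ → Bool := onCell 1239849684 370763052 1239849684 370763052 991146299 28908434
    (rowB 3 eng mog cd1q2b cd1q2b pd0 0 false false false .pp 2 0 2 (qsf 1239849684 370763052 1239849684 370763052 0) ndB1q2b ndB1q2b pcB0 Cut.none Ext.none)

def k0_mm_202_bb : ∃ t, chk3 f_mm_202_bb t 1 1 1 = true :=
  ⟨(l 3), by decide +kernel⟩

theorem c_mm_202_bb : CertB 1239849684 370763052 1239849684 370763052 991146299 28908434 3 eng mog cd1q2b cd1q2b pd0 false false false .pp 2 0 2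
    ndB1q2b ndB1q2b pcB0 Cut.none Ext.none :=
  certB0 (fam := false) (s1 := false) (s2 := false) (a := 2) (b := 0) (c := 2) (cn := .pp) (n1 := ndB1q2b) (n2 := ndB1q2b) (pc := pcB0) (cut := Cut.none) (xt := Ext.none) (P1 := 1239849684) (W1 := 370763052) (P2 := 1239849684) (W2 := 370763052) (P3 := 991146299) (W3 := 28908434) (N0 := 3) (En := eng) (mo := mog) (C1 := cd1q2b) (C2 := cd1q2b) (C3 := pd0)
    rfl k0_mm_202_bb

noncomputable def f_mm_203_a : ℕ → ℕ → ℕ → ℕ → Bool := onCell 0 536870912 0 536870912 991146299 28908434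
    (rowB 3 eng mog cd1q2a cd1q3 pd0 1 false false false .up 2 0 3 (qsf 0 536870912 1610612736 536870912 0) ndB1q2a ndB1q3 pcB0 Cut.none Ext.none)

def k0_mm_203_a : ∃ t, chk3 f_mm_203_a t 1 1 1 = true :=
  ⟨(l 3), by decide +kernel⟩

theorem c_mm_203_a : CertB 0 536870912 1610612736 536870912 991146299 28908434 3 eng mog cd1q2a cd1q3 pd0 false false false .up 2 0 3
    ndB1q2a ndB1q3 pcB0 Cut.none Ext.none :=
  certB1 (fam := false) (s1 := false) (s2 := false) (a := 2) (b := 0) (c := 3) (cn := .up) (n1 := ndB1q2a) (n2 := ndB1q3) (pc := pcB0) (cut := Cut.none) (xt := Ext.none) (P1 := 0) (W1 := 536870912) (P2 := 1610612736) (W2 := 536870912) (P3 := 991146299) (W3 := 28908434) (N0 := 3) (En := eng) (mo := mog) (C1 := cd1q2a) (C2 := cd1q3) (C3 := pd0)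
    rfl (fun _ => rfl) k0_mm_203_a

noncomputable def f_mm_203_b : ℕ → ℕ → ℕ → ℕ → Bool := onCell 1239849684 370763052 1610612736 536870912 991146299 28908434
    (rowB 3 eng mog cd1q2b cd1q3 pd0 0 false false false .up 2 0 3 (qsf 1239849684 370763052 1610612736 536870912 0) ndB1q2b ndB1q3 pcB0 Cut.none Ext.none)

def k0_mm_203_b : ∃ t, chk3 f_mm_203_b t 1 1 1 = true :=
  ⟨(l 3), by decide +kernel⟩

theorem c_mm_203_b : CertB 1239849684 370763052 1610612736 536870912 991146299 28908434 3 eng mog cd1q2b cd1q3 pd0 false false false .up 2 0 3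
    ndB1q2b ndB1q3 pcB0 Cut.none Ext.none :=
  certB0 (fam := false) (s1 := false) (s2 := false) (a := 2) (b := 0) (c := 3) (cn := .up) (n1 := ndB1q2b) (n2 := ndB1q3) (pc := pcB0) (cut := Cut.none) (xt := Ext.none) (P1 := 1239849684) (W1 := 370763052) (P2 := 1610612736) (W2 := 536870912) (P3 := 991146299) (W3 := 28908434) (N0 := 3) (En := eng) (mo := mog) (C1 := cd1q2b) (C2 := cd1q3) (C3 := pd0)
    rfl k0_mm_203_b

noncomputable def f_mm_213_a : ℕ → ℕ → ℕ → ℕ → Bool := onCell 0 536870912 1610612736 536870912 991146299 28908434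
    (rowB 3 eng mog cd1q2a cd1q3 pd1 0 false false false .pnn 2 1 3 (qsf 0 536870912 1610612736 536870912 1) ndB1q2a ndB1q3 pcB1 Cut.none Ext.none)

def k0_mm_213_a : ∃ t, chk3 f_mm_213_a t 1 1 1 = true :=
  ⟨(b (l 3) (l 5)), by decide +kernel⟩

theorem c_mm_213_a : CertB 0 536870912 1610612736 536870912 991146299 28908434 3 eng mog cd1q2a cd1q3 pd1 false false false .pnn 2 1 3
    ndB1q2a ndB1q3 pcB1 Cut.none Ext.none :=
  certB0 (fam := false) (s1 := false) (s2 := false) (a := 2) (b := 1) (c := 3) (cn := .pnn) (n1 := ndB1q2a) (n2 := ndB1q3) (pc := pcB1) (cut := Cut.none) (xt := Ext.none) (P1 := 0) (W1 := 536870912) (P2 := 1610612736) (W2 := 536870912) (P3 := 991146299) (W3 := 28908434) (N0 := 3) (En := eng) (mo := mog) (C1 := cd1q2a) (C2 := cd1q3) (C3 := pd1)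
    rfl k0_mm_213_a

noncomputable def f_mm_213_b : ℕ → ℕ → ℕ → ℕ → Bool := onCell 1239849684 370763052 1610612736 536870912 991146299 28908434
    (rowB 3 eng mog cd1q2b cd1q3 pd1 0 false false false .pnn 2 1 3 (qsf 1239849684 370763052 1610612736 536870912 1) ndB1q2b ndB1q3 pcB1 Cut.none Ext.none)

def k0_mm_213_b : ∃ t, chk3 f_mm_213_b t 1 1 1 = true :=
  ⟨(l 3), by decide +kernel⟩

theorem c_mm_213_b : CertB 1239849684 370763052 1610612736 536870912 991146299 28908434 3 eng mog cd1q2b cd1q3 pd1 false false false .pnn 2 1 3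
    ndB1q2b ndB1q3 pcB1 Cut.none Ext.none :=
  certB0 (fam := false) (s1 := false) (s2 := false) (a := 2) (b := 1) (c := 3) (cn := .pnn) (n1 := ndB1q2b) (n2 := ndB1q3) (pc := pcB1) (cut := Cut.none) (xt := Ext.none) (P1 := 1239849684) (W1 := 370763052) (P2 := 1610612736) (W2 := 536870912) (P3 := 991146299) (W3 := 28908434) (N0 := 3) (En := eng) (mo := mog) (C1 := cd1q2b) (C2 := cd1q3) (C3 := pd1)
    rfl k0_mm_213_b

noncomputable def f_mm_303 : ℕ → ℕ → ℕ → ℕ → Bool := onCell 1610612736 536870912 1610612736 536870912 991146299 28908434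
    (rowB 3 eng mog cd1q3 cd1q3 pd0 0 false false false .npn 3 0 3 (qsf 1610612736 536870912 1610612736 536870912 0) ndB1q3 ndB1q3 pcB0 Cut.none Ext.none)

def k0_mm_303 : ∃ t, chk3 f_mm_303 t 1 1 1 = true :=
  ⟨(l 3), by decide +kernel⟩

theorem c_mm_303 : CertB 1610612736 536870912 1610612736 536870912 991146299 28908434 3 eng mog cd1q3 cd1q3 pd0 false false false .npn 3 0 3
    ndB1q3 ndB1q3 pcB0 Cut.none Ext.none :=
  certB0 (fam := false) (s1 := false) (s2 := false) (a := 3) (b := 0) (c := 3) (cn := .npn) (n1 := ndB1q3) (n2 := ndB1q3) (pc := pcB0) (cut := Cut.none) (xt := Ext.none) (P1 := 1610612736) (W1 := 536870912) (P2 := 1610612736) (W2 := 536870912) (P3 := 991146299) (W3 := 28908434) (N0 := 3) (En := eng) (mo := mog) (C1 := cd1q3) (C2 := cd1q3) (C3 := pd0)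
    rfl k0_mm_303

noncomputable def f_mm_313 : ℕ → ℕ → ℕ → ℕ → Bool := onCell 1610612736 536870912 1610612736 536870912 991146299 28908434
    (rowB 3 eng mog cd1q3 cd1q3 pd1 0 false false false .dn 3 1 3 (qsf 1610612736 536870912 1610612736 536870912 1) ndB1q3 ndB1q3 pcB1 Cut.none Ext.none)

def k0_mm_313 : ∃ t, chk3 f_mm_313 t 1 1 1 = true :=
  ⟨(l 3), by decide +kernel⟩

theorem c_mm_313 : CertB 1610612736 536870912 1610612736 536870912 991146299 28908434 3 eng mog cd1q3 cd1q3 pd1 false false false .dn 3 1 3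
    ndB1q3 ndB1q3 pcB1 Cut.none Ext.none :=
  certB0 (fam := false) (s1 := false) (s2 := false) (a := 3) (b := 1) (c := 3) (cn := .dn) (n1 := ndB1q3) (n2 := ndB1q3) (pc := pcB1) (cut := Cut.none) (xt := Ext.none) (P1 := 1610612736) (W1 := 536870912) (P2 := 1610612736) (W2 := 536870912) (P3 := 991146299) (W3 := 28908434) (N0 := 3) (En := eng) (mo := mog) (C1 := cd1q3) (C2 := cd1q3) (C3 := pd1)
    rfl k0_mm_313

end Pool.Agent.Strip051.G.I9231_9500.Tab.C.BB11

namespace Pool.Agent.Strip051.G.I9231_9500.Tab.C.BB12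

open Pool.Agent.Strip051.PB Pool.Agent.Strip051.PB.T
open Pool.Agent.Strip051.G.I9231_9500.Tab

noncomputable def f_pp_001 : ℕ → ℕ → ℕ → ℕ → Bool := onCell 0 536870912 536870912 536870912 991146299 28908434
    (rowB 3 eng mog cd1q0 cd2q1 pd0 0 false true true .up 0 0 1 (qsf 0 536870912 536870912 536870912 0) ndB1q0 ndB2q1 pcB0 Cut.none Ext.none)

def k0_pp_001 : ∃ t, chk3 f_pp_001 t 1 1 1 = true :=
  ⟨(l 3), by decide +kernel⟩

theorem c_pp_001 : CertB 0 536870912 536870912 536870912 991146299 28908434 3 eng mog cd1q0 cd2q1 pd0 false true true .up 0 0 1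
    ndB1q0 ndB2q1 pcB0 Cut.none Ext.none :=
  certB0 (fam := false) (s1 := true) (s2 := true) (a := 0) (b := 0) (c := 1) (cn := .up) (n1 := ndB1q0) (n2 := ndB2q1) (pc := pcB0) (cut := Cut.none) (xt := Ext.none) (P1 := 0) (W1 := 536870912) (P2 := 536870912) (W2 := 536870912) (P3 := 991146299) (W3 := 28908434) (N0 := 3) (En := eng) (mo := mog) (C1 := cd1q0) (C2 := cd2q1) (C3 := pd0)
    rfl k0_pp_001

noncomputable def f_pp_011 : ℕ → ℕ → ℕ → ℕ → Bool := onCell 0 536870912 536870912 536870912 991146299 28908434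
    (rowB 3 eng mog cd1q0 cd2q1 pd1 0 false true true .pnn 0 1 1 (qsf 0 536870912 536870912 536870912 1) ndB1q0 ndB2q1 pcB1 Cut.none Ext.none)

def k0_pp_011 : ∃ t, chk3 f_pp_011 t 1 1 1 = true :=
  ⟨(l 3), by decide +kernel⟩

theorem c_pp_011 : CertB 0 536870912 536870912 536870912 991146299 28908434 3 eng mog cd1q0 cd2q1 pd1 false true true .pnn 0 1 1
    ndB1q0 ndB2q1 pcB1 Cut.none Ext.none :=
  certB0 (fam := false) (s1 := true) (s2 := true) (a := 0) (b := 1) (c := 1) (cn := .pnn) (n1 := ndB1q0) (n2 := ndB2q1) (pc := pcB1) (cut := Cut.none) (xt := Ext.none) (P1 := 0) (W1 := 536870912) (P2 := 536870912) (W2 := 536870912) (P3 := 991146299) (W3 := 28908434) (N0 := 3) (En := eng) (mo := mog) (C1 := cd1q0) (C2 := cd2q1) (C3 := pd1)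
    rfl k0_pp_011

noncomputable def cut_pp_012_a : Cut := Cut.of [[⟨0, 0, 0, 53687091⟩, ⟨1, 1, 0, 53687091⟩, ⟨2, 1, 0, 53687091⟩]]

noncomputable def f_pp_012_a : ℕ → ℕ → ℕ → ℕ → Bool := onCell 536870912 536870912 0 536870912 991146299 28908434
    (rowB 3 eng mog cd1q0 cd2q2a pd1 2 false true true .pnp 0 1 2 (qsf 0 536870912 0 536870912 1) ndB1q0 ndB2q2a pcB1 cut_pp_012_a Ext.none)

def k0_pp_012_a : ∃ t, chk3 f_pp_012_a t 2 1 1 = true :=
  ⟨(l 3), by decide +kernel⟩

def k1_pp_012_a : ∃ t, chk3 f_pp_012_a t 3 2 1 = true :=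
  ⟨(a (a (b (a (l 3) (b (a (l 16564688) (l 16568416)) (l 3))) (l 3)) (b (a (b (l 16502528) (l 131700623719)) (b (l 16543448) (l 16571360))) (a (b (l 126868831735) (l 3)) (b (a (l 16609704) (l 16602792)) (l 173039788823))))) (a (b (a (b (l 16504040) (l 16537704)) (b (l 16451448) (l 16489248))) (a (b (l 16559632) (a (l 16637616) (l 16623872))) (b (l 16494920) (a (l 16604600) (l 16581280))))) (a (b (a (l 16426872) (l 16395648)) (b (a (l 16495592) (l 16465296)) (a (l 16554352) (l 16524904)))) (b (a (l 16343104) (l 16294096)) (b (a (l 16433480) (l 16405264)) (a (l 16493104) (l 16464904))))))), by decide +kernel⟩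

def k2_pp_012_a : ∃ t, chk3 f_pp_012_a t 3 3 1 = true :=
  ⟨(a (l 3) (b (b (a (a (a (l 217063312055) (l 213305190327)) (a (l 16624856) (l 16604184))) (a (a (l 16578800) (b (l 16574136) (l 16609408))) (a (b (l 16542312) (l 16577536)) (b (l 16514088) (l 16549248))))) (a (a (l 3) (b (a (l 16693072) (l 16677080)) (a (l 3) (l 134385378343)))) (a (a (b (l 16653104) (l 16703592)) (b (l 16625104) (c (l 16657488) (l 16668528)))) (a (b (l 16572144) (c (l 16625040) (l 16636624))) (b (l 16543728) (a (l 16629664) (l 16616968))))))) (a (l 3) (a (b (a (b (l 181093094279) (l 3)) (b (b (l 16670680) (l 16690112)) (a (l 229948415495) (a (l 16715520) (l 16707736))))) (b (a (l 3) (l 3)) (l 3))) (b (a (b (a (l 16656272) (l 16640176)) (a (b (l 16727120) (l 16725528)) (b (l 16689832) (l 16709032)))) (b (a (l 16625736) (b (l 16645200) (l 16664192))) (a (b (l 16675200) (l 16694240)) (b (l 16662200) (c (l 16698248) (l 16706024)))))) (a (a (b (b (l 16723416) (l 347523210471)) (l 3))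 (b (b (l 16707160) (b (l 16742208) (l 6))) (l 6))) (b (a (b (b (l 16708400) (l 6)) (l 6)) (l 6)) (l 6)))))))), by decide +kernel⟩

theorem s3_pp_012_a : ∃ t, chk3 f_pp_012_a t 3 1 1 = true := ex3_b k1_pp_012_a k2_pp_012_a

theorem s4_pp_012_a : ∃ t, chk3 f_pp_012_a t 1 1 1 = true := ex3_a k0_pp_012_a s3_pp_012_a

theorem c_pp_012_a : CertB 0 536870912 0 536870912 991146299 28908434 3 eng mog cd1q0 cd2q2a pd1 false true true .pnp 0 1 2
    ndB1q0 ndB2q2a pcB1 cut_pp_012_a Ext.none :=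
  certB2 (fam := false) (s1 := true) (s2 := true) (a := 0) (b := 1) (c := 2) (cn := .pnp) (n1 := ndB1q0) (n2 := ndB2q2a) (pc := pcB1) (cut := cut_pp_012_a) (xt := Ext.none) (P1 := 0) (W1 := 536870912) (P2 := 0) (W2 := 536870912) (P3 := 991146299) (W3 := 28908434) (N0 := 3) (En := eng) (mo := mog) (C1 := cd1q0) (C2 := cd2q2a) (C3 := pd1)
    rfl (fun _ => rfl) s4_pp_012_a

noncomputable def cut_pp_012_b : Cut := Cut.of [[⟨0, 0, 0, 53687091⟩, ⟨1, 1, 0, 53687091⟩, ⟨2, 1, 0, 53687091⟩]]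

noncomputable def f_pp_012_b : ℕ → ℕ → ℕ → ℕ → Bool := onCell 536870912 536870912 1239849684 370763052 991146299 28908434
    (rowB 3 eng mog cd1q0 cd2q2b pd1 2 false true true .pnp 0 1 2 (qsf 0 536870912 1239849684 370763052 1) ndB1q0 ndB2q2b pcB1 cut_pp_012_b Ext.none)

def k0_pp_012_b : ∃ t, chk3 f_pp_012_b t 1 1 1 = true :=
  ⟨(a (a (l 2) (l 3)) (a (b (a (a (l 3) (b (b (a (l 127405497671) (l 16502200)) (a (l 16450208) (l 16446928))) (b (l 147269409191) (l 16284112)))) (b (a (b (a (l 16518408) (l 16508472)) (l 16369104)) (b (l 16379712) (l 16394688))) (a (b (l 16358736) (l 16294600)) (b (l 16313392) (l 16241184))))) (a (l 2) (b (a (l 251354804359) (l 16088432)) (l 2)))) (a (b (b (a (b (l 16375640) (l 16340432)) (b (l 16275320) (l 16273776))) (a (b (l 16250632) (l 16169688)) (b (l 16175272) (l 16085240)))) (b (a (l 16066456) (l 15925848)) (a (l 2) (l 15845456)))) (b (b (a (b (a (l 16331216) (l 16297840)) (l 16116488)) (b (a (l 16265032) (l 16235776)) (a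 (l 16145424) (l 16112832)))) (a (b (l 16093368) (l 15994304)) (b (l 16013984) (l 15906472)))) (b (a (b (l 15903800) (l 15822448)) (b (l 15808936) (l 15720024))) (a (l 15719432) (b (l 15640416) (l 15570600)))))))), by decide +kernel⟩

theorem c_pp_012_b : CertB 0 536870912 1239849684 370763052 991146299 28908434 3 eng mog cd1q0 cd2q2b pd1 false true true .pnp 0 1 2
    ndB1q0 ndB2q2b pcB1 cut_pp_012_b Ext.none :=
  certB2 (fam := false) (s1 := true) (s2 := true) (a := 0) (b := 1) (c := 2) (cn := .pnp) (n1 := ndB1q0) (n2 := ndB2q2b) (pc := pcB1) (cut := cut_pp_012_b) (xt := Ext.none) (P1 := 0) (W1 := 536870912) (P2 := 1239849684) (W2 := 370763052) (P3 := 991146299) (W3 := 28908434) (N0 := 3) (En := eng) (mo := mog) (C1 := cd1q0) (C2 := cd2q2b) (C3 := pd1)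
    rfl (fun _ => rfl) k0_pp_012_b

noncomputable def cut_pp_022_a : Cut := Cut.of [[⟨0, 0, 0, 53687091⟩, ⟨1, 1, 0, 53687091⟩, ⟨2, 1, 0, 53687091⟩]]

noncomputable def f_pp_022_a : ℕ → ℕ → ℕ → ℕ → Bool := onCell 1073741824 536870912 0 536870912 991146299 28908434
    (rowB 3 eng mog cd1q0 cd2q2a pd2 2 false true true .pp 0 2 2 (qsf 0 536870912 0 536870912 2) ndB1q0 ndB2q2a pcB2 cut_pp_022_a Ext.none)

def k0_pp_022_a : ∃ t, chk3 f_pp_022_a t 8 1 1 = true :=
  ⟨(b (c (b (a (l 16409592) (l 16427728)) (a (b (l 16501288) (l 16443264)) (b (l 16490424) (l 16402808)))) (b (a (c (l 16521000) (l 16431928)) (l 16305704)) (a (b (l 16493560) (l 16461048)) (b (l 16396272) (l 16313664))))) (b (a (a (b (b (c (l 16554880) (l 16620864)) (b (l 16462696) (l 16540032))) (b (l 16499688) (a (l 16556456) (l 16566360)))) (b (b (l 16453856) (l 16517400)) (b (l 16468664) (b (l 16505872) (l 16481944))))) (b (b (c (a (l 16572536) (l 16465432)) (a (l 16485976) (l 16445320))) (a (l 16448392)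 (l 16376384))) (a (b (l 16413240) (b (l 16444448) (l 16395288))) (b (c (l 16466536) (l 16411144)) (c (b (l 16448768) (l 16436480)) (b (l 16396472) (l 16386496))))))) (a (b (b (a (c (b (l 16652200) (l 16634520)) (b (l 16607192) (l 16591104))) (c (b (l 16565712) (l 16561280)) (b (l 16559664) (l 16538176)))) (b (a (c (l 16614248) (l 16575744)) (a (c (l 16623816) (l 16584280)) (c (l 16573888) (l 16533760)))) (l 6))) (l 6)) (a (b (b (c (b (l 16495472) (l 16444656)) (b (l 16468632) (l 16400160))) (b (b (c (l 16437928) (l 16396104)) (b (c (l 16434528) (l 16394104)) (l 6))) (l 6))) (l 6)) (b (a (b (b (c (l 16447112) (l 16399544)) (c (l 16435128) (l 16390464))) (b (c (b (l 16425960) (l 16419736)) (b (l 16383640) (l 16379072))) (c (l 92374645495) (l 69825995399)))) (b (c (b (l 16400544) (l 158409710935)) (b (l 16353200) (b (l 16344752) (l 16339056)))) (b (c (l 118681238663) (l 16330424)) (l 1)))) (l 1)))))), by decide +kernel⟩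

def k1_pp_022_a : ∃ t, chk3 f_pp_022_a t 9 1 1 = true :=
  ⟨(b (b (a (c (l 16303456) (l 16234928)) (c (b (l 16277960) (l 16279160)) (b (l 16221240) (l 16224200)))) (a (a (b (l 16332016) (c (l 16438704) (l 16376872))) (b (l 16234472) (c (l 16312960) (l 16234656)))) (b (c (a (l 16309600) (l 16248312)) (a (l 16253896) (l 16197976))) (a (a (c (l 16327736) (l 16273768)) (b (l 16269832) (a (l 16278560) (l 16272408)))) (b (c (l 16247192) (l 16198288)) (c (a (l 16260392) (l 175589158599)) (b (l 16177376) (a (l 16209824) (l 16174280))))))))) (b (a (b (a (b (c (l 16417832) (l 16380384)) (c (l 16413184) (l 16357176))) (b (c (l 16324560) (l 16269840)) (c (l 16313864) (l 16281808)))) (b (a (c (l 16321720) (l 16289456)) (c (b (l 16309864) (l 59088221383)) (b (l 16258304) (l 16179104)))) (b (a (c (l 16341184) (l 16311360)) (a (a (l 16293336) (l 16271544)) (l 1))) (a (c (a (l 16369088) (l 16323864)) (a (l 16319864) (l 16275200))) (l 1))))) (b (a (b (c (l 16269440) (l 16239368))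 (c (a (l 16274912) (l 16234528)) (a (l 16224120) (l 16185248)))) (b (c (a (l 16232120) (l 16192816)) (l 132639268423)) (l 1))) (a (a (a (b (l 203506577863) (l 1)) (l 1)) (l 1)) (l 1)))) (a (b (b (a (a (c (b (l 16353776) (l 16337968)) (b (l 16306704) (l 16293272))) (b (c (l 16306872) (l 16260128)) (l 1))) (l 1)) (l 1)) (l 1)) (l 1)))), by decide +kernel⟩

def k2_pp_022_a : ∃ t, chk3 f_pp_022_a t 5 1 1 = true :=
  ⟨(b (a (a (b (c (b (l 16103904) (a (l 16191168) (l 16130816))) (b (l 16103392) (a (l 16145576) (l 16091592)))) (b (c (a (l 172904663047) (l 430065707671)) (a (l 16098616) (l 443487409415))) (a (b (c (l 183105229063) (l 178273310455)) (a (c (l 281889617319) (l 243771598551)) (l 1))) (l 1)))) (b (b (l 1) (l 1)) (l 1))) (l 1)) (b (l 1) (l 1))), by decide +kernel⟩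

def k3_pp_022_a : ∃ t, chk3 f_pp_022_a t 3 1 1 = true :=
  ⟨(l 1), by decide +kernel⟩

theorem s4_pp_022_a : ∃ t, chk3 f_pp_022_a t 4 1 1 = true := ex3_a k0_pp_022_a k1_pp_022_a

theorem s5_pp_022_a : ∃ t, chk3 f_pp_022_a t 2 1 1 = true := ex3_a s4_pp_022_a k2_pp_022_a

theorem s6_pp_022_a : ∃ t, chk3 f_pp_022_a t 1 1 1 = true := ex3_a s5_pp_022_a k3_pp_022_a

theorem c_pp_022_a : CertB 0 536870912 0 536870912 991146299 28908434 3 eng mog cd1q0 cd2q2a pd2 false true true .pp 0 2 2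
    ndB1q0 ndB2q2a pcB2 cut_pp_022_a Ext.none :=
  certB2 (fam := false) (s1 := true) (s2 := true) (a := 0) (b := 2) (c := 2) (cn := .pp) (n1 := ndB1q0) (n2 := ndB2q2a) (pc := pcB2) (cut := cut_pp_022_a) (xt := Ext.none) (P1 := 0) (W1 := 536870912) (P2 := 0) (W2 := 536870912) (P3 := 991146299) (W3 := 28908434) (N0 := 3) (En := eng) (mo := mog) (C1 := cd1q0) (C2 := cd2q2a) (C3 := pd2)
    rfl (fun _ => rfl) s6_pp_022_a

noncomputable def cut_pp_022_b : Cut := Cut.of [[⟨0, 0, 0, 53687091⟩, ⟨1, 1, 0, 53687091⟩, ⟨2, 1, 0, 53687091⟩]]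

noncomputable def f_pp_022_b : ℕ → ℕ → ℕ → ℕ → Bool := onCell 1073741824 536870912 1239849684 370763052 991146299 28908434
    (rowB 3 eng mog cd1q0 cd2q2b pd2 2 false true true .pp 0 2 2 (qsf 0 536870912 1239849684 370763052 2) ndB1q0 ndB2q2b pcB2 cut_pp_022_b Ext.none)

def k0_pp_022_b : ∃ t, chk3 f_pp_022_b t 2 1 1 = true :=
  ⟨(b (b (b (a (a (a (a (l 16341928) (l 16385048)) (a (l 16364056) (l 16320912))) (a (c (l 16372400) (l 16323488)) (c (l 16210064) (l 16174456)))) (a (a (c (b (l 16116112) (l 16199624)) (b (l 16115752) (l 16157792))) (a (c (l 346850633895) (l 16014488)) (c (l 338797462167) (l 341481784807)))) (a (b (l 1) (c (l 335576045911) (l 338797272935))) (l 1)))) (a (a (a (a (l 16336952) (l 16420168)) (l 16301448)) (c (l 16164392) (a (l 16354040) (l 16273664)))) (a (a (c (l 16230736) (l 16190048)) (c (l 16129592) (l 16103232))) (a (c (b (l 15988592) (l 16038160)) (l 193305292471)) (c (b (l 349534492071) (l 15804928)) (l 366177496983)))))) (a (a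 (c (b (l 16245104) (l 16274008)) (b (l 16468528) (l 16403968))) (a (c (l 16388248) (l 16398256)) (b (l 16334688) (l 16365224)))) (a (a (b (l 16251624) (l 16289568)) (b (l 16102024) (l 16210384))) (a (b (c (l 16080448) (l 16069360)) (l 16128064)) (b (c (l 15958576) (l 15984128)) (l 15980024)))))) (a (a (b (c (a (l 16114784) (l 16161448)) (l 16269232)) (c (l 15984128) (l 16069584))) (b (c (l 16217832) (l 16294824)) (c (l 16053744) (l 16126968)))) (a (b (a (l 16277120) (l 16269440)) (c (l 16092848) (l 16114464))) (b (a (l 16198352) (l 15935928)) (a (l 16095648) (l 16083536)))))), by decide +kernel⟩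

def k1_pp_022_b : ∃ t, chk3 f_pp_022_b t 3 1 1 = true :=
  ⟨(b (a (b (l 1) (a (b (a (c (l 355976808279) (l 358661236455)) (c (l 398926202439) (l 404295029207))) (a (c (l 15945760) (l 15965512)) (c (l 253434387255) (l 15800352)))) (b (l 1) (a (c (l 389262483175) (l 393020710695)) (l 1))))) (l 1)) (a (b (a (a (b (l 16019232) (l 16075448)) (b (l 15811888) (l 16001712))) (a (b (c (l 15829112) (l 15881656)) (l 15863888)) (b (c (l 403757934167) (l 406442495511)) (c (l 15818736) (l 15885616))))) (a (c (l 16088056) (l 16024296)) (a (l 15866824) (a (l 15965072) (l 15848864))))) (b (a (b (l 1) (c (a (l 15606256) (l 446170513159)) (a (l 484825952183) (l 533681081111)))) (l 1)) (a (b (a (l 15725656) (l 279203917415)) (a (l 15901368) (l 15851984))) (a (b (a (l 451539400279) (l 475161653351)) (l 15583256)) (b (l 1) (l 477846079479))))))), by decide +kernel⟩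

theorem s2_pp_022_b : ∃ t, chk3 f_pp_022_b t 1 1 1 = true := ex3_a k0_pp_022_b k1_pp_022_b

theorem c_pp_022_b : CertB 0 536870912 1239849684 370763052 991146299 28908434 3 eng mog cd1q0 cd2q2b pd2 false true true .pp 0 2 2
    ndB1q0 ndB2q2b pcB2 cut_pp_022_b Ext.none :=
  certB2 (fam := false) (s1 := true) (s2 := true) (a := 0) (b := 2) (c := 2) (cn := .pp) (n1 := ndB1q0) (n2 := ndB2q2b) (pc := pcB2) (cut := cut_pp_022_b) (xt := Ext.none) (P1 := 0) (W1 := 536870912) (P2 := 1239849684) (W2 := 370763052) (P3 := 991146299) (W3 := 28908434) (N0 := 3) (En := eng) (mo := mog) (C1 := cd1q0) (C2 := cd2q2b) (C3 := pd2)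
    rfl (fun _ => rfl) s2_pp_022_b

noncomputable def f_pp_023 : ℕ → ℕ → ℕ → ℕ → Bool := onCell 1073741824 536870912 1610612736 536870912 991146299 28908434
    (rowB 3 eng mog cd1q0 cd2q3 pd2 2 false true true .up 0 2 3 (qsf 0 536870912 1610612736 536870912 2) ndB1q0 ndB2q3 pcB2 Cut.none Ext.none)

def k0_pp_023 : ∃ t, chk3 f_pp_023 t 1 1 1 = true :=
  ⟨(a (b (a (b (a (b (l 16196800) (l 16064504)) (b (l 16183288) (l 16093720))) (a (l 2) (b (l 15978392) (l 2)))) (b (a (b (l 16101216) (l 16086768)) (b (l 16003768) (l 16048880))) (a (b (l 15961960) (l 15864992)) (b (l 15912952) (l 15803488))))) (b (a (l 2) (a (l 2) (l 15703520))) (l 2))) (b (a (b (a (b (l 15896880) (l 15968392)) (b (c (l 15756760) (l 15818968)) (l 15866928))) (a (b (l 15837664) (l 15714480)) (b (l 15742856) (l 15605192)))) (b (a (b (c (l 15631800) (l 15726976)) (l 15577592)) (b (c (b (l 15471216) (l 15541728)) (l 205652224695)) (c (l 15627536) (l 15602816)))) (a (b (l 15635720) (l 15483216))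 (b (l 15481904) (l 15356504))))) (a (b (a (b (l 15623272) (l 15572200)) (b (l 15498504) (l 15431112))) (b (a (l 2) (l 15413120)) (l 2))) (b (a (c (l 15446528) (l 15049752)) (b (l 15114288) (a (l 15158664) (l 15119000)))) (a (b (l 15238960) (a (l 2) (l 204645026599))) (b (a (l 15169040) (l 15235504)) (a (l 15393712) (l 15555304)))))))), by decide +kernel⟩

theorem c_pp_023 : CertB 0 536870912 1610612736 536870912 991146299 28908434 3 eng mog cd1q0 cd2q3 pd2 false true true .up 0 2 3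
    ndB1q0 ndB2q3 pcB2 Cut.none Ext.none :=
  certB2 (fam := false) (s1 := true) (s2 := true) (a := 0) (b := 2) (c := 3) (cn := .up) (n1 := ndB1q0) (n2 := ndB2q3) (pc := pcB2) (cut := Cut.none) (xt := Ext.none) (P1 := 0) (W1 := 536870912) (P2 := 1610612736) (W2 := 536870912) (P3 := 991146299) (W3 := 28908434) (N0 := 3) (En := eng) (mo := mog) (C1 := cd1q0) (C2 := cd2q3) (C3 := pd2)
    rfl (fun _ => rfl) k0_pp_023

noncomputable def f_pp_033 : ℕ → ℕ → ℕ → ℕ → Bool := onCell 0 536870912 1610612736 536870912 991146299 28908434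
    (rowB 3 eng mog cd1q0 cd2q3 pd3 1 false true true .pnn 0 3 3 (qsf 0 536870912 1610612736 536870912 3) ndB1q0 ndB2q3 pcB3 Cut.none Ext.none)

def k0_pp_033 : ∃ t, chk3 f_pp_033 t 1 1 1 = true :=
  ⟨(a (b (b (a (b (a (b (a (l 15045792) (l 15172640)) (l 14966600)) (l 15131984)) (a (b (l 15089888) (a (l 15105128) (l 15215752))) (b (l 15374280) (l 15363136)))) (b (a (l 15567424) (l 15730680)) (a (b (l 15559576) (l 15558320)) (l 15752840)))) (a (b (a (b (a (l 14881488) (l 15186592)) (l 14907000)) (b (l 15336120) (l 15323064))) (b (a (l 15022112) (l 15333832)) (a (a (l 14908592) (l 15086312)) (l 15368128)))) (b (b (l 15712592) (a (l 15621208) (l 15928256))) (a (b (l 15675520) (l 4)) (l 4))))) (a (b (b (a (b (a (l 14913568) (l 4)) (l 4)) (l 4)) (l 4)) (l 4)) (b (l 4) (a (b (l 4) (l 2)) (l 2))))) (b (a (b (b (a (l 15846336) (l 15924336)) (a (l 15955632) (b (l 16096016) (l 16236904)))) (b (b (a (l 16113376) (l 16348696)) (a (l 16179488) (l 4))) (l 4))) (b (b (a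 (b (l 16023200) (l 16168200)) (b (l 16240752) (l 16436184))) (a (b (l 16349824) (l 16486072)) (b (l 16596160) (l 2)))) (a (b (l 4) (l 2)) (l 2)))) (a (b (a (b (l 4) (l 2)) (l 2)) (l 2)) (l 2)))), by decide +kernel⟩

theorem c_pp_033 : CertB 0 536870912 1610612736 536870912 991146299 28908434 3 eng mog cd1q0 cd2q3 pd3 false true true .pnn 0 3 3
    ndB1q0 ndB2q3 pcB3 Cut.none Ext.none :=
  certB1 (fam := false) (s1 := true) (s2 := true) (a := 0) (b := 3) (c := 3) (cn := .pnn) (n1 := ndB1q0) (n2 := ndB2q3) (pc := pcB3) (cut := Cut.none) (xt := Ext.none) (P1 := 0) (W1 := 536870912) (P2 := 1610612736) (W2 := 536870912) (P3 := 991146299) (W3 := 28908434) (N0 := 3) (En := eng) (mo := mog) (C1 := cd1q0) (C2 := cd2q3) (C3 := pd3)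
    rfl (fun _ => rfl) k0_pp_033

noncomputable def f_pp_101 : ℕ → ℕ → ℕ → ℕ → Bool := onCell 536870912 536870912 536870912 536870912 991146299 28908434
    (rowB 3 eng mog cd1q1 cd2q1 pd0 0 false true true .npn 1 0 1 (qsf 536870912 536870912 536870912 536870912 0) ndB1q1 ndB2q1 pcB0 Cut.none Ext.none)

def k0_pp_101 : ∃ t, chk3 f_pp_101 t 1 1 1 = true :=
  ⟨(l 3), by decide +kernel⟩

theorem c_pp_101 : CertB 536870912 536870912 536870912 536870912 991146299 28908434 3 eng mog cd1q1 cd2q1 pd0 false true true .npn 1 0 1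
    ndB1q1 ndB2q1 pcB0 Cut.none Ext.none :=
  certB0 (fam := false) (s1 := true) (s2 := true) (a := 1) (b := 0) (c := 1) (cn := .npn) (n1 := ndB1q1) (n2 := ndB2q1) (pc := pcB0) (cut := Cut.none) (xt := Ext.none) (P1 := 536870912) (W1 := 536870912) (P2 := 536870912) (W2 := 536870912) (P3 := 991146299) (W3 := 28908434) (N0 := 3) (En := eng) (mo := mog) (C1 := cd1q1) (C2 := cd2q1) (C3 := pd0)
    rfl k0_pp_101

noncomputable def f_pp_102_a : ℕ → ℕ → ℕ → ℕ → Bool := onCell 536870912 536870912 0 536870912 991146299 28908434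
    (rowB 3 eng mog cd1q1 cd2q2a pd0 0 false true true .npp 1 0 2 (qsf 536870912 536870912 0 536870912 0) ndB1q1 ndB2q2a pcB0 Cut.none Ext.none)

def k0_pp_102_a : ∃ t, chk3 f_pp_102_a t 1 1 1 = true :=
  ⟨(a (l 3) (l 3)), by decide +kernel⟩

theorem c_pp_102_a : CertB 536870912 536870912 0 536870912 991146299 28908434 3 eng mog cd1q1 cd2q2a pd0 false true true .npp 1 0 2
    ndB1q1 ndB2q2a pcB0 Cut.none Ext.none :=
  certB0 (fam := false) (s1 := true) (s2 := true) (a := 1) (b := 0) (c := 2) (cn := .npp) (n1 := ndB1q1) (n2 := ndB2q2a) (pc := pcB0) (cut := Cut.none) (xt := Ext.none) (P1 := 536870912) (W1 := 536870912) (P2 := 0) (W2 := 536870912) (P3 := 991146299) (W3 := 28908434) (N0 := 3) (En := eng) (mo := mog) (C1 := cd1q1) (C2 := cd2q2a) (C3 := pd0)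
    rfl k0_pp_102_a

noncomputable def f_pp_102_b : ℕ → ℕ → ℕ → ℕ → Bool := onCell 536870912 536870912 0 536870912 991146299 28908434
    (rowB 3 eng mog cd1q1 cd2q2b pd0 1 false true true .npp 1 0 2 (qsf 536870912 536870912 1239849684 370763052 0) ndB1q1 ndB2q2b pcB0 Cut.none Ext.none)

def k0_pp_102_b : ∃ t, chk3 f_pp_102_b t 1 1 1 = true :=
  ⟨(l 3), by decide +kernel⟩

theorem c_pp_102_b : CertB 536870912 536870912 1239849684 370763052 991146299 28908434 3 eng mog cd1q1 cd2q2b pd0 false true true .npp 1 0 2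
    ndB1q1 ndB2q2b pcB0 Cut.none Ext.none :=
  certB1 (fam := false) (s1 := true) (s2 := true) (a := 1) (b := 0) (c := 2) (cn := .npp) (n1 := ndB1q1) (n2 := ndB2q2b) (pc := pcB0) (cut := Cut.none) (xt := Ext.none) (P1 := 536870912) (W1 := 536870912) (P2 := 1239849684) (W2 := 370763052) (P3 := 991146299) (W3 := 28908434) (N0 := 3) (En := eng) (mo := mog) (C1 := cd1q1) (C2 := cd2q2b) (C3 := pd0)
    rfl (fun _ => rfl) k0_pp_102_b

noncomputable def f_pp_112_a : ℕ → ℕ → ℕ → ℕ → Bool := onCell 536870912 536870912 0 536870912 991146299 28908434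
    (rowB 3 eng mog cd1q1 cd2q2a pd1 0 false true true .dn 1 1 2 (qsf 536870912 536870912 0 536870912 1) ndB1q1 ndB2q2a pcB1 Cut.none Ext.none)

def k0_pp_112_a : ∃ t, chk3 f_pp_112_a t 1 1 1 = true :=
  ⟨(a (l 3) (l 1)), by decide +kernel⟩

theorem c_pp_112_a : CertB 536870912 536870912 0 536870912 991146299 28908434 3 eng mog cd1q1 cd2q2a pd1 false true true .dn 1 1 2
    ndB1q1 ndB2q2a pcB1 Cut.none Ext.none :=
  certB0 (fam := false) (s1 := true) (s2 := true) (a := 1) (b := 1) (c := 2) (cn := .dn) (n1 := ndB1q1) (n2 := ndB2q2a) (pc := pcB1) (cut := Cut.none) (xt := Ext.none) (P1 := 536870912) (W1 := 536870912) (P2 := 0) (W2 := 536870912) (P3 := 991146299) (W3 := 28908434) (N0 := 3) (En := eng) (mo := mog) (C1 := cd1q1) (C2 := cd2q2a) (C3 := pd1)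
    rfl k0_pp_112_a

noncomputable def f_pp_112_b : ℕ → ℕ → ℕ → ℕ → Bool := onCell 536870912 536870912 536870912 536870912 991146299 28908434
    (rowB 3 eng mog cd1q1 cd2q2b pd1 1 false true true .dn 1 1 2 (qsf 536870912 536870912 1239849684 370763052 1) ndB1q1 ndB2q2b pcB1 Cut.none Ext.none)

def k0_pp_112_b : ∃ t, chk3 f_pp_112_b t 1 1 1 = true :=
  ⟨(a (b (l 3) (b (b (b (l 3) (a (a (a (l 214378011287) (l 16233216)) (l 212230458231)) (a (l 16204520) (l 3)))) (a (a (b (a (l 16183016) (l 16188320)) (l 16138400)) (b (l 16205304) (l 16174824))) (a (b (l 16323272) (l 16262688)) (b (l 16267864) (l 2))))) (b (a (a (b (l 16088424) (l 16031056)) (b (l 16114688) (l 16043632))) (a (b (l 16187328) (l 2)) (l 2))) (a (b (a (l 15964872) (l 15961096)) (a (l 15892544) (l 2))) (l 2))))) (b (l 3) (b (a (b (l 3) (l 2)) (l 2)) (l 2)))), by decide +kernel⟩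

theorem c_pp_112_b : CertB 536870912 536870912 1239849684 370763052 991146299 28908434 3 eng mog cd1q1 cd2q2b pd1 false true true .dn 1 1 2
    ndB1q1 ndB2q2b pcB1 Cut.none Ext.none :=
  certB1 (fam := false) (s1 := true) (s2 := true) (a := 1) (b := 1) (c := 2) (cn := .dn) (n1 := ndB1q1) (n2 := ndB2q2b) (pc := pcB1) (cut := Cut.none) (xt := Ext.none) (P1 := 536870912) (W1 := 536870912) (P2 := 1239849684) (W2 := 370763052) (P3 := 991146299) (W3 := 28908434) (N0 := 3) (En := eng) (mo := mog) (C1 := cd1q1) (C2 := cd2q2b) (C3 := pd1)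
    rfl (fun _ => rfl) k0_pp_112_b

noncomputable def f_pp_113 : ℕ → ℕ → ℕ → ℕ → Bool := onCell 536870912 536870912 536870912 536870912 991146299 28908434
    (rowB 3 eng mog cd1q1 cd2q3 pd1 1 false true true .nn 1 1 3 (qsf 536870912 536870912 1610612736 536870912 1) ndB1q1 ndB2q3 pcB1 Cut.none Ext.none)

def k0_pp_113 : ∃ t, chk3 f_pp_113 t 1 1 1 = true :=
  ⟨(b (a (l 3) (l 3)) (b (a (a (b (l 1) (a (l 1) (b (l 1) (l 318395548423)))) (b (a (b (l 1) (a (l 1) (l 15919424))) (l 3)) (a (b (a (l 15935136) (l 16028256)) (a (l 15911048) (l 16001112))) (b (a (l 16129648) (l 16207336)) (l 16038048))))) (a (b (l 3) (a (b (a (l 16096120) (l 15979232)) (a (l 16016744) (l 15907784))) (b (a (l 15858632) (l 15736512)) (a (l 15800944) (l 15697864))))) (b (l 3) (a (b (l 3) (a (l 15600080) (l 15509792))) (b (l 3) (a (l 262158585783) (l 277727710615))))))) (a (b (a (a (b (l 1) (l 15599976)) (b (l 15668616) (l 15717216))) (a (b (l 15855504) (l 15868128)) (b (l 16066440) (l 15920912))))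 (a (b (a (l 15631328) (a (l 15672064) (l 15717136))) (a (l 158944476087) (l 15455808))) (b (a (l 15803896) (l 15750696)) (a (l 15734736) (l 15580464))))) (b (a (a (b (l 15850200) (l 15707760)) (b (l 15668008) (l 15562208))) (a (b (l 15543528) (l 15542656)) (b (a (l 15502752) (l 15507992)) (l 15747096)))) (a (b (a (l 15541304) (l 15438288)) (a (b (l 15407592) (l 15337000)) (l 15318232))) (a (b (l 15573712) (l 15676536)) (b (l 16331400) (a (l 16808800) (l 16761704))))))))), by decide +kernel⟩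

theorem c_pp_113 : CertB 536870912 536870912 1610612736 536870912 991146299 28908434 3 eng mog cd1q1 cd2q3 pd1 false true true .nn 1 1 3
    ndB1q1 ndB2q3 pcB1 Cut.none Ext.none :=
  certB1 (fam := false) (s1 := true) (s2 := true) (a := 1) (b := 1) (c := 3) (cn := .nn) (n1 := ndB1q1) (n2 := ndB2q3) (pc := pcB1) (cut := Cut.none) (xt := Ext.none) (P1 := 536870912) (W1 := 536870912) (P2 := 1610612736) (W2 := 536870912) (P3 := 991146299) (W3 := 28908434) (N0 := 3) (En := eng) (mo := mog) (C1 := cd1q1) (C2 := cd2q3) (C3 := pd1)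
    rfl (fun _ => rfl) k0_pp_113

noncomputable def f_pp_123 : ℕ → ℕ → ℕ → ℕ → Bool := onCell 1073741824 536870912 1610612736 536870912 991146299 28908434
    (rowB 3 eng mog cd1q1 cd2q3 pd2 2 false true true .npn 1 2 3 (qsf 536870912 536870912 1610612736 536870912 2) ndB1q1 ndB2q3 pcB2 Cut.none Ext.none)

def k0_pp_123 : ∃ t, chk3 f_pp_123 t 1 1 1 = true :=
  ⟨(a (b (a (b (a (b (c (l 15557048) (l 15640056)) (c (l 15634432) (l 15730408))) (b (l 202430943655) (c (l 15536704) (l 15616896)))) (a (b (c (l 15766336) (l 15875184)) (a (l 16002160) (l 15932272))) (b (c (l 15613696) (l 15698528)) (l 15590064)))) (b (a (b (l 1) (l 15530280)) (l 1)) (a (b (l 15539520) (l 15597456)) (b (l 15484368) (l 15464488))))) (b (a (a (b (a (l 15816048) (l 15871312)) (c (l 15802432) (l 15833464))) (b (l 15815720) (l 15830384))) (a (b (l 15680216) (l 15680624)) (b (l 15474776) (l 15455256)))) (a (b (a (c (a (l 16171736) (l 16066784)) (b (l 15944392) (l 16154000))) (a (l 16021760)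 (l 15958928))) (a (a (b (l 16440016) (c (l 16512792) (l 16375408))) (b (l 16454320) (l 16602040))) (b (l 16320152) (a (l 16655848) (l 16558072))))) (b (a (l 15792496) (l 15494400)) (a (b (l 16044576) (l 16227152)) (b (l 15658272) (l 15785440))))))) (b (a (b (l 1) (a (b (l 1) (l 15392560)) (l 1))) (l 1)) (a (b (a (b (l 15315168) (l 15219528)) (b (l 15203816) (l 15011392))) (b (a (l 15180176) (l 14896640)) (a (l 15204456) (l 14936352)))) (b (a (b (l 1) (l 14852912)) (l 1)) (a (b (l 14666144) (a (l 14704512) (b (l 14567288) (l 14688336)))) (b (a (l 14601336) (l 1)) (a (l 14704288) (l 14862272)))))))), by decide +kernel⟩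

theorem c_pp_123 : CertB 536870912 536870912 1610612736 536870912 991146299 28908434 3 eng mog cd1q1 cd2q3 pd2 false true true .npn 1 2 3
    ndB1q1 ndB2q3 pcB2 Cut.none Ext.none :=
  certB2 (fam := false) (s1 := true) (s2 := true) (a := 1) (b := 2) (c := 3) (cn := .npn) (n1 := ndB1q1) (n2 := ndB2q3) (pc := pcB2) (cut := Cut.none) (xt := Ext.none) (P1 := 536870912) (W1 := 536870912) (P2 := 1610612736) (W2 := 536870912) (P3 := 991146299) (W3 := 28908434) (N0 := 3) (En := eng) (mo := mog) (C1 := cd1q1) (C2 := cd2q3) (C3 := pd2)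
    rfl (fun _ => rfl) k0_pp_123

noncomputable def f_pp_133 : ℕ → ℕ → ℕ → ℕ → Bool := onCell 1610612736 536870912 1610612736 536870912 991146299 28908434
    (rowB 3 eng mog cd1q1 cd2q3 pd3 2 false true true .dn 1 3 3 (qsf 536870912 536870912 1610612736 536870912 3) ndB1q1 ndB2q3 pcB3 Cut.none Ext.none)

def k0_pp_133 : ∃ t, chk3 f_pp_133 t 1 1 1 = true :=
  ⟨(a (b (l 1) (a (b (l 1) (a (b (l 1) (l 15539368)) (l 1))) (l 1))) (l 1)), by decide +kernel⟩

theorem c_pp_133 : CertB 536870912 536870912 1610612736 536870912 991146299 28908434 3 eng mog cd1q1 cd2q3 pd3 false true true .dn 1 3 3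
    ndB1q1 ndB2q3 pcB3 Cut.none Ext.none :=
  certB2 (fam := false) (s1 := true) (s2 := true) (a := 1) (b := 3) (c := 3) (cn := .dn) (n1 := ndB1q1) (n2 := ndB2q3) (pc := pcB3) (cut := Cut.none) (xt := Ext.none) (P1 := 536870912) (W1 := 536870912) (P2 := 1610612736) (W2 := 536870912) (P3 := 991146299) (W3 := 28908434) (N0 := 3) (En := eng) (mo := mog) (C1 := cd1q1) (C2 := cd2q3) (C3 := pd3)
    rfl (fun _ => rfl) k0_pp_133

noncomputable def f_pp_202_aa : ℕ → ℕ → ℕ → ℕ → Bool := onCell 0 536870912 0 536870912 991146299 28908434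
    (rowB 3 eng mog cd1q2a cd2q2a pd0 0 false true true .pp 2 0 2 (qsf 0 536870912 0 536870912 0) ndB1q2a ndB2q2a pcB0 Cut.none Ext.none)

def k0_pp_202_aa : ∃ t, chk3 f_pp_202_aa t 1 1 1 = true :=
  ⟨(l 3), by decide +kernel⟩

theorem c_pp_202_aa : CertB 0 536870912 0 536870912 991146299 28908434 3 eng mog cd1q2a cd2q2a pd0 false true true .pp 2 0 2
    ndB1q2a ndB2q2a pcB0 Cut.none Ext.none :=
  certB0 (fam := false) (s1 := true) (s2 := true) (a := 2) (b := 0) (c := 2) (cn := .pp) (n1 := ndB1q2a) (n2 := ndB2q2a) (pc := pcB0) (cut := Cut.none) (xt := Ext.none) (P1 := 0) (W1 := 536870912) (P2 := 0) (W2 := 536870912) (P3 := 991146299) (W3 := 28908434) (N0 := 3) (En := eng) (mo := mog) (C1 := cd1q2a) (C2 := cd2q2a) (C3 := pd0)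
    rfl k0_pp_202_aa

noncomputable def f_pp_202_ab : ℕ → ℕ → ℕ → ℕ → Bool := onCell 0 536870912 1239849684 370763052 991146299 28908434
    (rowB 3 eng mog cd1q2a cd2q2b pd0 0 false true true .pp 2 0 2 (qsf 0 536870912 1239849684 370763052 0) ndB1q2a ndB2q2b pcB0 Cut.none Ext.none)

def k0_pp_202_ab : ∃ t, chk3 f_pp_202_ab t 1 1 1 = true :=
  ⟨(l 3), by decide +kernel⟩

theorem c_pp_202_ab : CertB 0 536870912 1239849684 370763052 991146299 28908434 3 eng mog cd1q2a cd2q2b pd0 false true true .pp 2 0 2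
    ndB1q2a ndB2q2b pcB0 Cut.none Ext.none :=
  certB0 (fam := false) (s1 := true) (s2 := true) (a := 2) (b := 0) (c := 2) (cn := .pp) (n1 := ndB1q2a) (n2 := ndB2q2b) (pc := pcB0) (cut := Cut.none) (xt := Ext.none) (P1 := 0) (W1 := 536870912) (P2 := 1239849684) (W2 := 370763052) (P3 := 991146299) (W3 := 28908434) (N0 := 3) (En := eng) (mo := mog) (C1 := cd1q2a) (C2 := cd2q2b) (C3 := pd0)
    rfl k0_pp_202_ab

noncomputable def f_pp_202_ba : ℕ → ℕ → ℕ → ℕ → Bool := onCell 1239849684 370763052 0 536870912 991146299 28908434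
    (rowB 3 eng mog cd1q2b cd2q2a pd0 0 false true true .pp 2 0 2 (qsf 1239849684 370763052 0 536870912 0) ndB1q2b ndB2q2a pcB0 Cut.none Ext.none)

def k0_pp_202_ba : ∃ t, chk3 f_pp_202_ba t 1 1 1 = true :=
  ⟨(l 3), by decide +kernel⟩

theorem c_pp_202_ba : CertB 1239849684 370763052 0 536870912 991146299 28908434 3 eng mog cd1q2b cd2q2a pd0 false true true .pp 2 0 2
    ndB1q2b ndB2q2a pcB0 Cut.none Ext.none :=
  certB0 (fam := false) (s1 := true) (s2 := true) (a := 2) (b := 0) (c := 2) (cn := .pp) (n1 := ndB1q2b) (n2 := ndB2q2a) (pc := pcB0) (cut := Cut.none) (xt := Ext.none) (P1 := 1239849684) (W1 := 370763052) (P2 := 0) (W2 := 536870912) (P3 := 991146299) (W3 := 28908434) (N0 := 3) (En := eng) (mo := mog) (C1 := cd1q2b) (C2 := cd2q2a) (C3 := pd0)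
    rfl k0_pp_202_ba

noncomputable def f_pp_202_bb : ℕ → ℕ → ℕ → ℕ → Bool := onCell 1239849684 370763052 1239849684 370763052 991146299 28908434
    (rowB 3 eng mog cd1q2b cd2q2b pd0 0 false true true .pp 2 0 2 (qsf 1239849684 370763052 1239849684 370763052 0) ndB1q2b ndB2q2b pcB0 Cut.none Ext.none)

def k0_pp_202_bb : ∃ t, chk3 f_pp_202_bb t 1 1 1 = true :=
  ⟨(l 3), by decide +kernel⟩

theorem c_pp_202_bb : CertB 1239849684 370763052 1239849684 370763052 991146299 28908434 3 eng mog cd1q2b cd2q2b pd0 false true true .pp 2 0 2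
    ndB1q2b ndB2q2b pcB0 Cut.none Ext.none :=
  certB0 (fam := false) (s1 := true) (s2 := true) (a := 2) (b := 0) (c := 2) (cn := .pp) (n1 := ndB1q2b) (n2 := ndB2q2b) (pc := pcB0) (cut := Cut.none) (xt := Ext.none) (P1 := 1239849684) (W1 := 370763052) (P2 := 1239849684) (W2 := 370763052) (P3 := 991146299) (W3 := 28908434) (N0 := 3) (En := eng) (mo := mog) (C1 := cd1q2b) (C2 := cd2q2b) (C3 := pd0)
    rfl k0_pp_202_bb

noncomputable def f_pp_203_a : ℕ → ℕ → ℕ → ℕ → Bool := onCell 0 536870912 0 536870912 991146299 28908434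
    (rowB 3 eng mog cd1q2a cd2q3 pd0 1 false true true .up 2 0 3 (qsf 0 536870912 1610612736 536870912 0) ndB1q2a ndB2q3 pcB0 Cut.none Ext.none)

def k0_pp_203_a : ∃ t, chk3 f_pp_203_a t 1 1 1 = true :=
  ⟨(l 3), by decide +kernel⟩

theorem c_pp_203_a : CertB 0 536870912 1610612736 536870912 991146299 28908434 3 eng mog cd1q2a cd2q3 pd0 false true true .up 2 0 3
    ndB1q2a ndB2q3 pcB0 Cut.none Ext.none :=
  certB1 (fam := false) (s1 := true) (s2 := true) (a := 2) (b := 0) (c := 3) (cn := .up) (n1 := ndB1q2a) (n2 := ndB2q3) (pc := pcB0) (cut := Cut.none) (xt := Ext.none) (P1 := 0) (W1 := 536870912) (P2 := 1610612736) (W2 := 536870912) (P3 := 991146299) (W3 := 28908434) (N0 := 3) (En := eng) (mo := mog) (C1 := cd1q2a) (C2 := cd2q3) (C3 := pd0)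
    rfl (fun _ => rfl) k0_pp_203_a

noncomputable def f_pp_203_b : ℕ → ℕ → ℕ → ℕ → Bool := onCell 1239849684 370763052 1610612736 536870912 991146299 28908434
    (rowB 3 eng mog cd1q2b cd2q3 pd0 0 false true true .up 2 0 3 (qsf 1239849684 370763052 1610612736 536870912 0) ndB1q2b ndB2q3 pcB0 Cut.none Ext.none)

def k0_pp_203_b : ∃ t, chk3 f_pp_203_b t 1 1 1 = true :=
  ⟨(l 3), by decide +kernel⟩

theorem c_pp_203_b : CertB 1239849684 370763052 1610612736 536870912 991146299 28908434 3 eng mog cd1q2b cd2q3 pd0 false true true .up 2 0 3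
    ndB1q2b ndB2q3 pcB0 Cut.none Ext.none :=
  certB0 (fam := false) (s1 := true) (s2 := true) (a := 2) (b := 0) (c := 3) (cn := .up) (n1 := ndB1q2b) (n2 := ndB2q3) (pc := pcB0) (cut := Cut.none) (xt := Ext.none) (P1 := 1239849684) (W1 := 370763052) (P2 := 1610612736) (W2 := 536870912) (P3 := 991146299) (W3 := 28908434) (N0 := 3) (En := eng) (mo := mog) (C1 := cd1q2b) (C2 := cd2q3) (C3 := pd0)
    rfl k0_pp_203_b

noncomputable def cut_pp_213_a : Cut := Cut.of [[⟨0, 1, 0, 37748736⟩, ⟨1, 1, 0, 37748736⟩, ⟨2, 2, 0, 5242880⟩]]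

noncomputable def f_pp_213_a : ℕ → ℕ → ℕ → ℕ → Bool := onCell 0 536870912 1610612736 536870912 991146299 28908434
    (rowB 3 eng mog cd1q2a cd2q3 pd1 0 false true true .pnn 2 1 3 (qsf 0 536870912 1610612736 536870912 1) ndB1q2a ndB2q3 pcB1 cut_pp_213_a Ext.none)

def k0_pp_213_a : ∃ t, chk3 f_pp_213_a t 1 1 1 = true :=
  ⟨(b (l 3) (b (l 3) (a (l 3) (a (l 3) (b (l 3) (a (l 3) (b (l 3) (a (l 3) (b (l 3) (b (l 3) (b (l 3) (l 6)))))))))))), by decide +kernel⟩

theorem c_pp_213_a : CertB 0 536870912 1610612736 536870912 991146299 28908434 3 eng mog cd1q2a cd2q3 pd1 false true true .pnn 2 1 3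
    ndB1q2a ndB2q3 pcB1 cut_pp_213_a Ext.none :=
  certB0 (fam := false) (s1 := true) (s2 := true) (a := 2) (b := 1) (c := 3) (cn := .pnn) (n1 := ndB1q2a) (n2 := ndB2q3) (pc := pcB1) (cut := cut_pp_213_a) (xt := Ext.none) (P1 := 0) (W1 := 536870912) (P2 := 1610612736) (W2 := 536870912) (P3 := 991146299) (W3 := 28908434) (N0 := 3) (En := eng) (mo := mog) (C1 := cd1q2a) (C2 := cd2q3) (C3 := pd1)
    rfl k0_pp_213_a

noncomputable def cut_pp_213_b : Cut := Cut.of [[⟨0, 1, 0, 37748736⟩, ⟨1, 1, 0, 37748736⟩, ⟨2, 2, 0, 5242880⟩]]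

noncomputable def f_pp_213_b : ℕ → ℕ → ℕ → ℕ → Bool := onCell 1239849684 370763052 1610612736 536870912 991146299 28908434
    (rowB 3 eng mog cd1q2b cd2q3 pd1 0 false true true .pnn 2 1 3 (qsf 1239849684 370763052 1610612736 536870912 1) ndB1q2b ndB2q3 pcB1 cut_pp_213_b Ext.none)

def k0_pp_213_b : ∃ t, chk3 f_pp_213_b t 1 1 1 = true :=
  ⟨(l 3), by decide +kernel⟩

theorem c_pp_213_b : CertB 1239849684 370763052 1610612736 536870912 991146299 28908434 3 eng mog cd1q2b cd2q3 pd1 false true true .pnn 2 1 3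
    ndB1q2b ndB2q3 pcB1 cut_pp_213_b Ext.none :=
  certB0 (fam := false) (s1 := true) (s2 := true) (a := 2) (b := 1) (c := 3) (cn := .pnn) (n1 := ndB1q2b) (n2 := ndB2q3) (pc := pcB1) (cut := cut_pp_213_b) (xt := Ext.none) (P1 := 1239849684) (W1 := 370763052) (P2 := 1610612736) (W2 := 536870912) (P3 := 991146299) (W3 := 28908434) (N0 := 3) (En := eng) (mo := mog) (C1 := cd1q2b) (C2 := cd2q3) (C3 := pd1)
    rfl k0_pp_213_b

noncomputable def f_pp_303 : ℕ → ℕ → ℕ → ℕ → Bool := onCell 1610612736 536870912 1610612736 536870912 991146299 28908434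
    (rowB 3 eng mog cd1q3 cd2q3 pd0 0 false true true .npn 3 0 3 (qsf 1610612736 536870912 1610612736 536870912 0) ndB1q3 ndB2q3 pcB0 Cut.none Ext.none)

def k0_pp_303 : ∃ t, chk3 f_pp_303 t 1 1 1 = true :=
  ⟨(l 3), by decide +kernel⟩

theorem c_pp_303 : CertB 1610612736 536870912 1610612736 536870912 991146299 28908434 3 eng mog cd1q3 cd2q3 pd0 false true true .npn 3 0 3
    ndB1q3 ndB2q3 pcB0 Cut.none Ext.none :=
  certB0 (fam := false) (s1 := true) (s2 := true) (a := 3) (b := 0) (c := 3) (cn := .npn) (n1 := ndB1q3) (n2 := ndB2q3) (pc := pcB0) (cut := Cut.none) (xt := Ext.none) (P1 := 1610612736) (W1 := 536870912) (P2 := 1610612736) (W2 := 536870912) (P3 := 991146299) (W3 := 28908434) (N0 := 3) (En := eng) (mo := mog) (C1 := cd1q3) (C2 := cd2q3) (C3 := pd0)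
    rfl k0_pp_303

noncomputable def f_pp_313 : ℕ → ℕ → ℕ → ℕ → Bool := onCell 1610612736 536870912 1610612736 536870912 991146299 28908434
    (rowB 3 eng mog cd1q3 cd2q3 pd1 0 false true true .dn 3 1 3 (qsf 1610612736 536870912 1610612736 536870912 1) ndB1q3 ndB2q3 pcB1 Cut.none Ext.none)

def k0_pp_313 : ∃ t, chk3 f_pp_313 t 1 1 1 = true :=
  ⟨(l 3), by decide +kernel⟩

theorem c_pp_313 : CertB 1610612736 536870912 1610612736 536870912 991146299 28908434 3 eng mog cd1q3 cd2q3 pd1 false true true .dn 3 1 3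
    ndB1q3 ndB2q3 pcB1 Cut.none Ext.none :=
  certB0 (fam := false) (s1 := true) (s2 := true) (a := 3) (b := 1) (c := 3) (cn := .dn) (n1 := ndB1q3) (n2 := ndB2q3) (pc := pcB1) (cut := Cut.none) (xt := Ext.none) (P1 := 1610612736) (W1 := 536870912) (P2 := 1610612736) (W2 := 536870912) (P3 := 991146299) (W3 := 28908434) (N0 := 3) (En := eng) (mo := mog) (C1 := cd1q3) (C2 := cd2q3) (C3 := pd1)
    rfl k0_pp_313

noncomputable def f_pm_001 : ℕ → ℕ → ℕ → ℕ → Bool := onCell 0 536870912 536870912 536870912 991146299 28908434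
    (rowB 3 eng mog cd1q0 cd2q1 pd0 0 false true false .up 0 0 1 (qsf 0 536870912 536870912 536870912 0) ndB1q0 ndB2q1 pcB0 Cut.none Ext.none)

def k0_pm_001 : ∃ t, chk3 f_pm_001 t 1 1 1 = true :=
  ⟨(l 4), by decide +kernel⟩

theorem c_pm_001 : CertB 0 536870912 536870912 536870912 991146299 28908434 3 eng mog cd1q0 cd2q1 pd0 false true false .up 0 0 1
    ndB1q0 ndB2q1 pcB0 Cut.none Ext.none :=
  certB0 (fam := false) (s1 := true) (s2 := false) (a := 0) (b := 0) (c := 1) (cn := .up) (n1 := ndB1q0) (n2 := ndB2q1) (pc := pcB0) (cut := Cut.none) (xt := Ext.none) (P1 := 0) (W1 := 536870912) (P2 := 536870912) (W2 := 536870912) (P3 := 991146299) (W3 := 28908434) (N0 := 3) (En := eng) (mo := mog) (C1 := cd1q0) (C2 := cd2q1) (C3 := pd0)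
    rfl k0_pm_001

noncomputable def f_pm_011 : ℕ → ℕ → ℕ → ℕ → Bool := onCell 0 536870912 536870912 536870912 991146299 28908434
    (rowB 3 eng mog cd1q0 cd2q1 pd1 0 false true false .pnn 0 1 1 (qsf 0 536870912 536870912 536870912 1) ndB1q0 ndB2q1 pcB1 Cut.none Ext.none)

def k0_pm_011 : ∃ t, chk3 f_pm_011 t 1 1 1 = true :=
  ⟨(l 4), by decide +kernel⟩

theorem c_pm_011 : CertB 0 536870912 536870912 536870912 991146299 28908434 3 eng mog cd1q0 cd2q1 pd1 false true false .pnn 0 1 1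
    ndB1q0 ndB2q1 pcB1 Cut.none Ext.none :=
  certB0 (fam := false) (s1 := true) (s2 := false) (a := 0) (b := 1) (c := 1) (cn := .pnn) (n1 := ndB1q0) (n2 := ndB2q1) (pc := pcB1) (cut := Cut.none) (xt := Ext.none) (P1 := 0) (W1 := 536870912) (P2 := 536870912) (W2 := 536870912) (P3 := 991146299) (W3 := 28908434) (N0 := 3) (En := eng) (mo := mog) (C1 := cd1q0) (C2 := cd2q1) (C3 := pd1)
    rfl k0_pm_011

noncomputable def cut_pm_012_a : Cut := Cut.of [[⟨0, 0, 0, 53687091⟩, ⟨1, 1, 0, 53687091⟩, ⟨2, 1, 0, 53687091⟩]]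

noncomputable def xt_pm_012_a : Ext := extD3 3 ⟨4, 1, 1, 5, 22, 5, 21, 25, 41, 100, 1, 20⟩ eng cd1q0 cd2q2a pd1 false true false .pnp 0 1 2 rfl ndB1q0 ndB2q2a pcB1

noncomputable def f_pm_012_a : ℕ → ℕ → ℕ → ℕ → Bool := onCell 536870912 536870912 0 536870912 991146299 28908434
    (rowB 3 eng mog cd1q0 cd2q2a pd1 2 false true false .pnp 0 1 2 (qsf 0 536870912 0 536870912 1) ndB1q0 ndB2q2a pcB1 cut_pm_012_a xt_pm_012_a)

def k0_pm_012_a : ∃ t, chk3 f_pm_012_a t 2 1 1 = true :=
  ⟨(b (a (a (l 2) (b (l 2) (l 15713328))) (a (b (l 15711136) (l 15745056)) (b (l 15720400) (l 15723024)))) (a (b (a (l 2) (b (l 16006160) (l 15910888))) (a (b (l 16192376) (l 16083784)) (b (l 16192096) (b (l 16278664) (l 16348872))))) (b (a (b (l 15961592) (a (l 16077216) (l 16062520))) (b (l 15925672) (a (l 16048864) (l 16036416)))) (a (b (c (l 16162800) (l 16224240)) (b (l 16308600) (l 16338696))) (b (b (l 16151560) (l 16238672)) (a (l 16239232) (l 16176136))))))), by decide +kernel⟩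

def k1_pm_012_a : ∃ t, chk3 f_pm_012_a t 6 1 1 = true :=
  ⟨(b (a (b (l 15740680) (b (l 15768800) (l 15819784))) (b (l 15771272) (a (l 15793240) (l 15795728)))) (b (a (b (l 15900688) (a (l 16025464) (l 16016464))) (b (l 15888688) (a (l 16010232) (l 16008160)))) (a (b (a (l 16134328) (l 16073272)) (b (a (l 16362120) (l 16356488)) (b (l 16449040) (l 16437704)))) (b (a (b (l 16143040) (l 16259440)) (b (l 16141864) (l 16265504))) (b (a (l 16371696) (l 16344712)) (a (l 16481736) (l 16401736))))))), by decide +kernel⟩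

def k2_pm_012_a : ∃ t, chk3 f_pm_012_a t 7 1 1 = true :=
  ⟨(b (a (b (a (l 15800144) (l 15822112)) (a (l 15801160) (l 15809552))) (b (a (l 15845840) (l 15828984)) (a (a (l 15796536) (l 15802888)) (b (l 15821640) (a (l 15840776) (l 15847856)))))) (b (a (b (a (l 15888920) (l 15894208)) (a (l 16010864) (b (l 15979904) (l 16057360)))) (a (b (l 15903624) (b (l 15991568) (l 16071984))) (b (c (l 15902208) (l 15911440)) (b (l 16008296) (a (l 16086448) (l 16098040)))))) (a (b (a (b (c (l 16133368) (l 16155392)) (l 16166568)) (b (a (l 16148704) (l 16156016)) (a (l 16275928) (b (l 16243136) (l 16316160))))) (a (b (b (l 16382056) (l 16462416)) (c (l 16521136) (l 16561592))) (b (b (l 580518598415691944209983) (l 585010957696384318991935)) (b (l 588956255781277347606079) (b (l 16608656) (l 16625656)))))) (b (a (b (l 136639435478007871) (a (b (l 16251208) (l 16321152)) (b (l 16263992) (l 138970331736621183)))) (a (b (l 16188784) (b (l 16278688) (l 16346408))) (b (b (l 16173904)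 (l 16231688)) (b (l 16295176) (a (l 16359872) (l 16369504)))))) (a (b (a (b (l 16402168) (l 16490056)) (b (a (l 16406256) (l 16410184)) (b (l 16474176) (l 16520552)))) (b (a (l 16520696) (b (l 16568384) (l 16596736))) (a (b (l 16636528) (l 16687816)) (b (l 16626624) (a (l 16717776) (l 6)))))) (b (b (a (a (l 16416120) (l 16425136)) (a (l 16435272) (l 6))) (a (a (l 586329900906112923004543) (b (l 16485560) (l 6))) (l 6))) (a (b (a (b (l 16574800) (l 6)) (l 6)) (l 6)) (l 6)))))))), by decide +kernel⟩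

theorem s3_pm_012_a : ∃ t, chk3 f_pm_012_a t 3 1 1 = true := ex3_a k1_pm_012_a k2_pm_012_a

theorem s4_pm_012_a : ∃ t, chk3 f_pm_012_a t 1 1 1 = true := ex3_a k0_pm_012_a s3_pm_012_a

theorem c_pm_012_a : CertB 0 536870912 0 536870912 991146299 28908434 3 eng mog cd1q0 cd2q2a pd1 false true false .pnp 0 1 2
    ndB1q0 ndB2q2a pcB1 cut_pm_012_a xt_pm_012_a :=
  certB2 (fam := false) (s1 := true) (s2 := false) (a := 0) (b := 1) (c := 2) (cn := .pnp) (n1 := ndB1q0) (n2 := ndB2q2a) (pc := pcB1) (cut := cut_pm_012_a) (xt := xt_pm_012_a) (P1 := 0) (W1 := 536870912) (P2 := 0) (W2 := 536870912) (P3 := 991146299) (W3 := 28908434) (N0 := 3) (En := eng) (mo := mog) (C1 := cd1q0) (C2 := cd2q2a) (C3 := pd1)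
    rfl (fun _ => rfl) s4_pm_012_a

noncomputable def cut_pm_012_b : Cut := Cut.of [[⟨0, 0, 0, 53687091⟩, ⟨1, 1, 0, 53687091⟩, ⟨2, 1, 0, 53687091⟩]]

noncomputable def f_pm_012_b : ℕ → ℕ → ℕ → ℕ → Bool := onCell 536870912 536870912 1239849684 370763052 991146299 28908434
    (rowB 3 eng mog cd1q0 cd2q2b pd1 2 false true false .pnp 0 1 2 (qsf 0 536870912 1239849684 370763052 1) ndB1q0 ndB2q2b pcB1 cut_pm_012_b Ext.none)

def k0_pm_012_b : ∃ t, chk3 f_pm_012_b t 1 1 1 = true :=
  ⟨(a (a (l 2) (b (b (a (b (l 15592104) (l 2)) (b (l 15631160) (l 15515384))) (a (l 2) (l 15390952))) (l 2))) (a (b (b (a (b (l 15658752) (l 15517888)) (b (l 15694264) (l 15522800))) (a (l 15363880) (a (l 15338784) (l 15319984)))) (a (l 2) (b (l 15170184) (l 2)))) (b (b (a (b (a (l 15724408) (l 15746168)) (l 15527912)) (b (a (l 15768576) (l 15791104)) (a (l 15529624) (l 15529568)))) (a (a (l 15298840) (l 15274976)) (b (l 15320400) (l 15151456)))) (a (b (l 15098376) (l 15081912)) (b (b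 (l 15024280) (l 14939344)) (l 14874904)))))), by decide +kernel⟩

theorem c_pm_012_b : CertB 0 536870912 1239849684 370763052 991146299 28908434 3 eng mog cd1q0 cd2q2b pd1 false true false .pnp 0 1 2
    ndB1q0 ndB2q2b pcB1 cut_pm_012_b Ext.none :=
  certB2 (fam := false) (s1 := true) (s2 := false) (a := 0) (b := 1) (c := 2) (cn := .pnp) (n1 := ndB1q0) (n2 := ndB2q2b) (pc := pcB1) (cut := cut_pm_012_b) (xt := Ext.none) (P1 := 0) (W1 := 536870912) (P2 := 1239849684) (W2 := 370763052) (P3 := 991146299) (W3 := 28908434) (N0 := 3) (En := eng) (mo := mog) (C1 := cd1q0) (C2 := cd2q2b) (C3 := pd1)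
    rfl (fun _ => rfl) k0_pm_012_b

noncomputable def cut_pm_022_a : Cut := Cut.of [[⟨0, 0, 0, 53687091⟩, ⟨1, 1, 0, 53687091⟩, ⟨2, 1, 0, 53687091⟩]]

noncomputable def f_pm_022_a : ℕ → ℕ → ℕ → ℕ → Bool := onCell 1073741824 536870912 0 536870912 991146299 28908434
    (rowB 3 eng mog cd1q0 cd2q2a pd2 2 false true false .pp 0 2 2 (qsf 0 536870912 0 536870912 2) ndB1q0 ndB2q2a pcB2 cut_pm_022_a Ext.none)

def k0_pm_022_a : ∃ t, chk3 f_pm_022_a t 2 2 1 = true :=
  ⟨(a (a (b (c (a (a (l 16059376) (l 16117880)) (a (l 16181312) (l 16228376))) (a (b (l 16212440) (l 16148560)) (a (l 16195968) (l 16227216)))) (a (c (b (l 16014392) (a (l 16003800) (l 16071944))) (b (l 16082688) (a (l 16056544) (l 16112712)))) (c (b (l 16135352) (a (l 16144376) (l 16220728))) (b (l 16156256) (a (l 16175000) (l 16242952)))))) (a (b (c (a (l 16279800) (l 16334648)) (a (l 16327656) (l 16370408))) (b (c (l 16188784) (l 16232488)) (a (c (l 16300720) (l 16316216)) (c (l 16362240) (l 16372552)))))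 (a (b (c (l 16390872) (l 16416112)) (b (l 16387416) (c (l 16465672) (l 16472080)))) (b (c (l 16446544) (l 16462640)) (b (l 16392832) (c (l 16396560) (l 16393184))))))) (a (a (b (a (c (l 16431432) (l 16423712)) (c (l 16303896) (l 16323296))) (a (b (a (l 16444944) (l 16387208)) (a (l 660920760439) (l 708702176359))) (b (c (l 684006041687) (l 16288136)) (l 1)))) (b (b (l 1) (l 1)) (l 1))) (l 1))), by decide +kernel⟩

def k1_pm_022_a : ∃ t, chk3 f_pm_022_a t 8 3 1 = true :=
  ⟨(b (b (a (c (a (l 16052400) (l 16132520)) (a (l 16084688) (l 16155960))) (a (c (l 16216472) (l 16232752)) (c (l 16219968) (l 16272648)))) (b (a (c (a (l 16127288) (l 16216112)) (a (l 16146408) (l 16228664))) (a (c (l 16308320) (l 16315904)) (c (l 16361552) (l 16365672)))) (a (a (c (l 16097040) (l 16213800)) (c (l 16212352) (l 16282088))) (a (c (a (l 16368928) (l 16418312)) (l 16292032)) (a (c (l 16468320) (l 16469816)) (c (l 16476936) (l 16477696))))))) (a (b (b (a (c (a (l 16272832) (l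 16321888)) (a (l 16279984) (l 16326856))) (a (c (l 16371696) (l 16374848)) (c (l 16422192) (l 16423896)))) (b (a (c (a (l 16357704) (l 16408704)) (a (l 16361136) (l 16410488))) (c (a (l 16460376) (l 16512656)) (a (l 16460880) (l 16512224)))) (l 6))) (l 6)) (b (a (b (c (a (l 16410416) (b (l 16495528) (l 16533312))) (a (l 16431992) (l 16441000))) (b (a (c (l 16523552) (l 16522512)) (c (a (l 16605424) (l 16632192)) (l 16595216))) (l 6))) (b (a (b (c (l 16547224) (l 16546952)) (a (l 16551360) (l 16598792))) (a (b (l 16565048) (l 397317642743)) (b (l 16612192) (l 709776524151)))) (a (b (a (b (l 16641320) (l 348999364103)) (l 718903371255)) (c (l 1166653774423) (l 1154842616823))) (b (a (l 1135515246759) (l 1)) (l 1))))) (a (l 6) (l 1))))), by decide +kernel⟩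

def k2_pm_022_a : ∃ t, chk3 f_pm_022_a t 9 3 1 = true :=
  ⟨(b (a (b (a (c (b (l 16363368) (l 16403384)) (l 16275248)) (c (b (l 16453416) (l 16519080)) (b (l 16458688) (l 16521968)))) (a (c (b (l 16459344) (a (l 16569920) (l 322692489527))) (b (l 16461424) (a (l 16570280) (l 16542664)))) (b (c (c (l 16467032) (l 16487384)) (l 382821892487)) (a (c (l 711923798167) (l 712997544215)) (l 1))))) (b (b (a (a (l 16522448) (l 16492496)) (c (l 677563794711) (l 678100668007))) (a (c (l 393559194199) (l 388727359879)) (l 1))) (a (b (c (l 1063037362967) (l 1043173136071)) (l 1)) (l 1)))) (a (b (a (b (c (a (a (l 692596603095) (l 1085049311751)) (l 1161821780023)) (a (l 710313283607) (l 1144641910919))) (l 1)) (l 1)) (l 1)) (l 1))), by decide +kernel⟩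

def k3_pm_022_a : ∃ t, chk3 f_pm_022_a t 5 3 1 = true :=
  ⟨(b (l 1) (l 1)), by decide +kernel⟩

def k4_pm_022_a : ∃ t, chk3 f_pm_022_a t 3 1 1 = true :=
  ⟨(l 1), by decide +kernel⟩

theorem s5_pm_022_a : ∃ t, chk3 f_pm_022_a t 4 3 1 = true := ex3_a k1_pm_022_a k2_pm_022_a

theorem s6_pm_022_a : ∃ t, chk3 f_pm_022_a t 2 3 1 = true := ex3_a s5_pm_022_a k3_pm_022_a

theorem s7_pm_022_a : ∃ t, chk3 f_pm_022_a t 2 1 1 = true := ex3_b k0_pm_022_a s6_pm_022_a

theorem s8_pm_022_a : ∃ t, chk3 f_pm_022_a t 1 1 1 = true := ex3_a s7_pm_022_a k4_pm_022_a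

theorem c_pm_022_a : CertB 0 536870912 0 536870912 991146299 28908434 3 eng mog cd1q0 cd2q2a pd2 false true false .pp 0 2 2
    ndB1q0 ndB2q2a pcB2 cut_pm_022_a Ext.none :=
  certB2 (fam := false) (s1 := true) (s2 := false) (a := 0) (b := 2) (c := 2) (cn := .pp) (n1 := ndB1q0) (n2 := ndB2q2a) (pc := pcB2) (cut := cut_pm_022_a) (xt := Ext.none) (P1 := 0) (W1 := 536870912) (P2 := 0) (W2 := 536870912) (P3 := 991146299) (W3 := 28908434) (N0 := 3) (En := eng) (mo := mog) (C1 := cd1q0) (C2 := cd2q2a) (C3 := pd2)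
    rfl (fun _ => rfl) s8_pm_022_a

noncomputable def cut_pm_022_b : Cut := Cut.of [[⟨0, 0, 0, 53687091⟩, ⟨1, 1, 0, 53687091⟩, ⟨2, 1, 0, 53687091⟩]]

noncomputable def f_pm_022_b : ℕ → ℕ → ℕ → ℕ → Bool := onCell 1073741824 536870912 1239849684 370763052 991146299 28908434
    (rowB 3 eng mog cd1q0 cd2q2b pd2 2 false true false .pp 0 2 2 (qsf 0 536870912 1239849684 370763052 2) ndB1q0 ndB2q2b pcB2 cut_pm_022_b Ext.none)

def k0_pm_022_b : ∃ t, chk3 f_pm_022_b t 2 1 1 = true :=
  ⟨(a (b (a (a (b (c (b (l 15890448) (l 15785488)) (b (l 16036776) (l 15901344))) (c (b (l 15556752) (l 15372984)) (b (l 15666968) (l 15481368)))) (b (a (b (l 15894264) (l 15864008)) (b (l 15940920) (l 15887928))) (c (b (l 15602176) (l 15405624)) (l 15397856)))) (b (a (b (c (a (l 16175224) (l 16177352)) (l 16162808)) (c (l 15918064) (l 15956816))) (b (c (l 16205096) (l 16228408)) (c (l 16012440) (l 16025248)))) (a (c (l 15360240) (l 15450728)) (c (l 15491768) (l 15513360))))) (a (b (a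 (c (l 15187576) (l 15301312)) (c (l 15193176) (l 15254424))) (a (c (l 15098136) (l 15231608)) (b (l 15102752) (l 15081008)))) (b (a (c (l 15234952) (l 15255264)) (c (l 15305728) (l 15295576))) (a (l 15067040) (l 15086272))))) (b (a (b (a (b (a (b (l 16436264) (l 16290752)) (b (l 16335320) (l 16335320))) (c (l 16049568) (l 16064208))) (b (a (b (l 696890864775) (l 16380872)) (c (l 706554384775) (l 706554434599))) (c (l 16216824) (l 16197672)))) (a (b (l 15694448) (l 15645000)) (b (a (l 15939488) (l 15993776)) (l 15750664)))) (b (b (a (b (l 1) (c (l 731250267223) (l 730713475111))) (l 1)) (a (a (l 16262528) (l 16124936)) (a (l 390337190471) (l 726418202839)))) (a (b (a (l 16049480) (l 16105888)) (l 15720288)) (b (c (l 16206080) (l 16173736)) (a (l 15958848) (l 16020928)))))) (a (b (a (b (l 15458976) (l 15305104)) (b (l 15562200) (l 15402072))) (a (l 15137224) (l 15217152))) (b (a (b (l 15679944) (l 15517312)) (b (l 15786336) (l 15645872))) (a (l 15321184) (l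 15444184)))))), by decide +kernel⟩

def k1_pm_022_b : ∃ t, chk3 f_pm_022_b t 3 1 1 = true :=
  ⟨(b (a (b (l 1) (a (a (b (c (l 15901632) (l 15950488)) (a (l 16083192) (l 16144952))) (b (a (l 672194287175) (l 1)) (a (l 16113576) (l 15885232)))) (a (b (l 1) (a (l 383357177239) (l 1))) (l 1)))) (l 1)) (a (a (b (a (a (l 15740568) (l 15893176)) (c (l 15963496) (l 15793264))) (a (l 15456280) (a (l 15693040) (l 15765920)))) (a (b (a (b (l 16029048) (l 4)) (l 4)) (a (l 15827192) (l 4))) (l 4))) (b (a (l 4) (l 1)) (l 4)))), by decide +kernel⟩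

theorem s2_pm_022_b : ∃ t, chk3 f_pm_022_b t 1 1 1 = true := ex3_a k0_pm_022_b k1_pm_022_b

theorem c_pm_022_b : CertB 0 536870912 1239849684 370763052 991146299 28908434 3 eng mog cd1q0 cd2q2b pd2 false true false .pp 0 2 2
    ndB1q0 ndB2q2b pcB2 cut_pm_022_b Ext.none :=
  certB2 (fam := false) (s1 := true) (s2 := false) (a := 0) (b := 2) (c := 2) (cn := .pp) (n1 := ndB1q0) (n2 := ndB2q2b) (pc := pcB2) (cut := cut_pm_022_b) (xt := Ext.none) (P1 := 0) (W1 := 536870912) (P2 := 1239849684) (W2 := 370763052) (P3 := 991146299) (W3 := 28908434) (N0 := 3) (En := eng) (mo := mog) (C1 := cd1q0) (C2 := cd2q2b) (C3 := pd2)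
    rfl (fun _ => rfl) s2_pm_022_b

noncomputable def f_pm_023 : ℕ → ℕ → ℕ → ℕ → Bool := onCell 0 536870912 1073741824 536870912 991146299 28908434
    (rowB 3 eng mog cd1q0 cd2q3 pd2 1 false true false .up 0 2 3 (qsf 0 536870912 1610612736 536870912 2) ndB1q0 ndB2q3 pcB2 Cut.none Ext.none)

def k0_pm_023 : ∃ t, chk3 f_pm_023 t 1 1 1 = true :=
  ⟨(b (b (a (l 1) (b (a (l 1) (a (b (l 1) (l 14597208)) (b (l 263632848535) (l 14814208)))) (a (b (l 1) (a (l 1) (l 366712809319))) (a (b (l 14826296) (l 14727904)) (b (l 14792480) (l 14797368)))))) (a (b (l 1) (a (l 1) (b (l 1) (a (l 1) (l 15093632))))) (a (b (a (b (l 1) (l 14845208)) (b (l 14758640) (l 14804904))) (b (a (l 14923496) (l 14873424)) (a (l 15002704) (l 14961960)))) (b (a (b (l 14756408) (l 14807176)) (l 14802104)) (a (l 14879040) (l 14971312)))))) (b (a (b (a (l 1) (b (a (l 1) (l 15178160)) (a (l 481066597255) (l 15282976)))) (a (b (l 1) (l 4)) (b (a (l 359197055047) (l 15397096)) (a (l 4) (l 15496696)))))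 (a (b (b (a (l 15102528) (l 15069136)) (a (l 15220768) (l 15192760))) (b (a (l 15354904) (l 15330256)) (a (l 15495248) (l 15478880)))) (b (a (l 14942576) (l 15116664)) (a (l 15183328) (l 15155456))))) (a (b (l 4) (l 4)) (a (b (a (b (l 15622912) (l 15731136)) (b (l 15635560) (l 15788008))) (a (l 4) (b (l 15924432) (l 16041072)))) (b (a (l 15682384) (l 15626912)) (a (l 15886224) (b (l 15800128) (l 15896912)))))))), by decide +kernel⟩

theorem c_pm_023 : CertB 0 536870912 1610612736 536870912 991146299 28908434 3 eng mog cd1q0 cd2q3 pd2 false true false .up 0 2 3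
    ndB1q0 ndB2q3 pcB2 Cut.none Ext.none :=
  certB1 (fam := false) (s1 := true) (s2 := false) (a := 0) (b := 2) (c := 3) (cn := .up) (n1 := ndB1q0) (n2 := ndB2q3) (pc := pcB2) (cut := Cut.none) (xt := Ext.none) (P1 := 0) (W1 := 536870912) (P2 := 1610612736) (W2 := 536870912) (P3 := 991146299) (W3 := 28908434) (N0 := 3) (En := eng) (mo := mog) (C1 := cd1q0) (C2 := cd2q3) (C3 := pd2)
    rfl (fun _ => rfl) k0_pm_023

noncomputable def f_pm_033 : ℕ → ℕ → ℕ → ℕ → Bool := onCell 1610612736 536870912 1610612736 536870912 991146299 28908434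
    (rowB 3 eng mog cd1q0 cd2q3 pd3 2 false true false .pnn 0 3 3 (qsf 0 536870912 1610612736 536870912 3) ndB1q0 ndB2q3 pcB3 Cut.none Ext.none)

def k0_pm_033 : ∃ t, chk3 f_pm_033 t 1 1 1 = true :=
  ⟨(a (b (a (l 4) (b (a (b (l 1) (l 4)) (l 1)) (l 4))) (a (b (a (l 263299597783) (l 4)) (a (b (l 16230088) (l 16307248)) (a (l 296050272615) (l 277259032007)))) (l 4))) (b (a (b (l 1) (a (b (l 1) (l 4)) (l 1))) (l 1)) (a (l 4) (b (a (b (l 1) (l 4)) (l 1)) (l 4))))), by decide +kernel⟩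

theorem c_pm_033 : CertB 0 536870912 1610612736 536870912 991146299 28908434 3 eng mog cd1q0 cd2q3 pd3 false true false .pnn 0 3 3
    ndB1q0 ndB2q3 pcB3 Cut.none Ext.none :=
  certB2 (fam := false) (s1 := true) (s2 := false) (a := 0) (b := 3) (c := 3) (cn := .pnn) (n1 := ndB1q0) (n2 := ndB2q3) (pc := pcB3) (cut := Cut.none) (xt := Ext.none) (P1 := 0) (W1 := 536870912) (P2 := 1610612736) (W2 := 536870912) (P3 := 991146299) (W3 := 28908434) (N0 := 3) (En := eng) (mo := mog) (C1 := cd1q0) (C2 := cd2q3) (C3 := pd3)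
    rfl (fun _ => rfl) k0_pm_033

noncomputable def f_pm_101 : ℕ → ℕ → ℕ → ℕ → Bool := onCell 536870912 536870912 536870912 536870912 991146299 28908434
    (rowB 3 eng mog cd1q1 cd2q1 pd0 0 false true false .npn 1 0 1 (qsf 536870912 536870912 536870912 536870912 0) ndB1q1 ndB2q1 pcB0 Cut.none Ext.none)

def k0_pm_101 : ∃ t, chk3 f_pm_101 t 1 1 1 = true :=
  ⟨(l 4), by decide +kernel⟩

theorem c_pm_101 : CertB 536870912 536870912 536870912 536870912 991146299 28908434 3 eng mog cd1q1 cd2q1 pd0 false true false .npn 1 0 1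
    ndB1q1 ndB2q1 pcB0 Cut.none Ext.none :=
  certB0 (fam := false) (s1 := true) (s2 := false) (a := 1) (b := 0) (c := 1) (cn := .npn) (n1 := ndB1q1) (n2 := ndB2q1) (pc := pcB0) (cut := Cut.none) (xt := Ext.none) (P1 := 536870912) (W1 := 536870912) (P2 := 536870912) (W2 := 536870912) (P3 := 991146299) (W3 := 28908434) (N0 := 3) (En := eng) (mo := mog) (C1 := cd1q1) (C2 := cd2q1) (C3 := pd0)
    rfl k0_pm_101

noncomputable def xt_pm_102_a : Ext := extD3 3 ⟨4, 1, 1, 5, 22, 5, 21, 25, 41, 100, 1, 20⟩ eng cd1q1 cd2q2a pd0 false true false .npp 1 0 2 rfl ndB1q1 ndB2q2a pcB0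

noncomputable def f_pm_102_a : ℕ → ℕ → ℕ → ℕ → Bool := onCell 0 536870912 0 536870912 991146299 28908434
    (rowB 3 eng mog cd1q1 cd2q2a pd0 2 false true false .npp 1 0 2 (qsf 536870912 536870912 0 536870912 0) ndB1q1 ndB2q2a pcB0 Cut.none xt_pm_102_a)

def k0_pm_102_a : ∃ t, chk3 f_pm_102_a t 2 2 1 = true :=
  ⟨(a (b (l 2) (a (l 2) (a (l 2) (b (l 2) (c (l 15934432) (l 16150272)))))) (a (b (a (a (l 2) (b (l 209479039575) (b (l 16219616) (l 16211896)))) (b (a (l 16216440) (l 16210488)) (c (b (l 16238736) (l 16220488)) (a (l 16161448) (l 16141432))))) (a (b (a (b (l 16216352) (l 16168240)) (l 16158616)) (c (l 16079760) (l 16081200))) (b (c (l 16143064) (l 16094656)) (c (l 16037336) (l 16034952))))) (b (a (b (c (l 16249056) (l 16147472)) (c (l 16080288) (l 16111264))) (b (c (l 16238032) (l 16128640)) (l 16023832))) (a (b (c (l 16108168) (l 16054784)) (l 15882104)) (b (l 16059368) (l 15992400)))))), by decide +kernel⟩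

def k1_pm_102_a : ∃ t, chk3 f_pm_102_a t 2 3 1 = true :=
  ⟨(a (b (a (l 2) (a (b (l 2) (a (b (l 2) (a (l 2) (l 15937304))) (b (a (b (l 2) (l 15971952)) (l 15977480)) (a (l 15948728) (l 15945616))))) (b (c (b (l 16038224) (l 15968056)) (l 16034808)) (b (a (l 15964120) (l 15948816)) (l 15936640))))) (b (a (a (l 2) (b (a (l 2) (a (l 2) (l 15873552))) (a (a (l 15844464) (a (l 15813704) (l 15805912))) (a (l 15819536) (l 15838360))))) (c (a (a (b (l 15866840) (l 15821104)) (l 15881440)) (l 15869312)) (a (a (a (l 15901336) (l 15921632)) (l 15942512)) (l 15953464)))) (b (a (a (a (l 2) (c (l 15822872) (l 15847032))) (a (a (l 15775384) (l 15770632)) (a (l 15785072) (l 15807224)))) (a (a (a (l 15829520) (l 15852304)) (l 15710784)) (l 15905184))) (a (a (b (c (l 15728128) (l 15822024)) (a (a (l 15827016) (l 15805088)) (l 571442949685030637524527))) (a (a (l 15751216) (b (l 560626949726744391904879) (l 565778778184819666003567))) (a (l 15728464) (l 15751960)))) (a (a (b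 (l 15817640) (l 15792600)) (b (l 15857760) (l 15830712))) (l 15880184)))))) (b (a (b (a (b (l 16006400) (a (l 15965928) (l 15949712))) (b (l 15972976) (l 15930120))) (a (b (l 15933600) (l 15931064)) (a (l 15929448) (l 15929272)))) (b (a (b (l 15952832) (l 15916288)) (b (l 15943240) (l 15912288))) (a (l 15935368) (l 15949592)))) (a (b (a (c (l 15885456) (l 15972976)) (l 15838504)) (a (b (l 15943176) (l 15924432)) (b (l 15985816) (l 15969392)))) (b (a (l 15996016) (l 16033104)) (a (b (l 16031936) (l 15996640)) (b (l 16079928) (l 15987088))))))), by decide +kernel⟩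

def k2_pm_102_a : ∃ t, chk3 f_pm_102_a t 3 1 1 = true :=
  ⟨(b (a (b (a (a (b (c (l 16256208) (l 16111600)) (l 16114056)) (c (l 16207624) (l 16079072))) (c (a (l 16212216) (l 16223320)) (l 15981736))) (c (a (b (l 16078968) (l 15994480)) (b (l 16093576) (l 16016616))) (a (b (l 16016856) (l 15983320)) (l 15892088)))) (b (a (a (l 15987152) (l 16073152)) (c (l 16302936) (l 16182400))) (a (c (l 15912648) (l 16062608)) (c (l 16169224) (l 16132272))))) (a (c (b (a (b (a (l 15905888) (l 15916368)) (l 15947352)) (b (l 15821120) (l 16011088))) (a (b (l 16015728) (a (l 16075640) (l 16060512))) (b (l 16068936) (a (l 16040456) (l 16016776))))) (b (a (b (l 15895232) (l 16020176)) (b (l 15990048) (l 16082880))) (a (b (l 16074544) (a (l 16029648) (l 15999416))) (b (l 16107368) (b (l 16040000) (l 15751968)))))) (b (a (b (b (l 16029632) (l 15810064)) (a (l 16105936) (l 16149992))) (b (c (l 16050440) (l 16126496)) (a (l 16197136) (l 16246912)))) (a (b (a (l 16145544) (l 16118104))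 (a (b (l 16027632) (l 15797728)) (b (l 15995944) (l 15764768)))) (b (a (l 16069392) (b (l 16208360) (l 16081080))) (a (b (l 15963808) (l 15689128)) (b (l 15931760) (l 15550504)))))))), by decide +kernel⟩

theorem s3_pm_102_a : ∃ t, chk3 f_pm_102_a t 2 1 1 = true := ex3_b k0_pm_102_a k1_pm_102_a

theorem s4_pm_102_a : ∃ t, chk3 f_pm_102_a t 1 1 1 = true := ex3_a s3_pm_102_a k2_pm_102_a

theorem c_pm_102_a : CertB 536870912 536870912 0 536870912 991146299 28908434 3 eng mog cd1q1 cd2q2a pd0 false true false .npp 1 0 2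
    ndB1q1 ndB2q2a pcB0 Cut.none xt_pm_102_a :=
  certB2 (fam := false) (s1 := true) (s2 := false) (a := 1) (b := 0) (c := 2) (cn := .npp) (n1 := ndB1q1) (n2 := ndB2q2a) (pc := pcB0) (cut := Cut.none) (xt := xt_pm_102_a) (P1 := 536870912) (W1 := 536870912) (P2 := 0) (W2 := 536870912) (P3 := 991146299) (W3 := 28908434) (N0 := 3) (En := eng) (mo := mog) (C1 := cd1q1) (C2 := cd2q2a) (C3 := pd0)
    rfl (fun _ => rfl) s4_pm_102_a

noncomputable def f_pm_102_b : ℕ → ℕ → ℕ → ℕ → Bool := onCell 536870912 536870912 1239849684 370763052 991146299 28908434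
    (rowB 3 eng mog cd1q1 cd2q2b pd0 0 false true false .npp 1 0 2 (qsf 536870912 536870912 1239849684 370763052 0) ndB1q1 ndB2q2b pcB0 Cut.none Ext.none)

def k0_pm_102_b : ∃ t, chk3 f_pm_102_b t 1 1 1 = true :=
  ⟨(a (b (a (l 2) (b (a (b (c (l 16393520) (l 16231608)) (l 2)) (b (c (l 16335848) (l 16155456)) (c (l 16307264) (l 16099328)))) (a (l 2) (c (b (l 16283320) (l 2)) (l 15827192))))) (l 2)) (b (a (b (a (c (b (l 16189104) (l 16235520)) (b (l 16082632) (l 16031200))) (b (a (c (l 16275912) (l 16083488)) (b (l 16028144) (l 15948920))) (a (c (l 16225536) (l 16001032)) (c (l 16186512) (l 15985208))))) (a (c (b (l 16029104) (l 16084376)) (b (l 15908136) (l 15915352))) (b (a (l 15870856) (l 15939952)) (c (l 16048008) (l 15842456))))) (b (a (b (a (c (l 16036200) (l 15850496)) (c (l 16222288) (l 16072632))) (a (c (l 16147528) (l 15983256)) (c (l 16110472) (l 15988568)))) (a (b (c (l 16154120) (b (l 16141000) (l 16085192))) (c (l 16081512) (l 16005584))) (b (c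 (a (l 16181904) (l 16175744)) (a (l 16134032) (b (l 16180688) (l 16125528)))) (c (a (l 16066112) (l 16059656)) (a (l 16027056) (l 16046384)))))) (b (a (a (l 15784112) (c (l 16008624) (l 15893392))) (a (c (l 15976240) (l 15907520)) (c (a (l 15959056) (l 15951880)) (a (l 15928040) (l 15947488))))) (a (a (l 15868280) (c (l 15916704) (l 15807624))) (a (c (l 15880200) (l 15817720)) (c (l 15856264) (a (l 15836320) (l 15855136)))))))) (a (a (l 2) (b (c (a (l 15989192) (l 15917456)) (a (l 15780968) (l 15739824))) (l 2))) (a (b (a (b (l 15816208) (l 15753936)) (b (l 15679136) (l 15714640))) (a (l 2) (c (l 15675280) (l 15581640)))) (b (a (c (b (l 15793432) (l 15716104)) (b (l 15736008) (l 15662440))) (c (b (l 15726696) (l 15687760)) (a (l 15711432) (b (l 15771256) (l 15690440))))) (a (c (l 15618208) (l 15567416)) (b (c (l 15594208) (l 15612472)) (a (l 15547968) (l 15545256))))))))), by decide +kernel⟩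

theorem c_pm_102_b : CertB 536870912 536870912 1239849684 370763052 991146299 28908434 3 eng mog cd1q1 cd2q2b pd0 false true false .npp 1 0 2
    ndB1q1 ndB2q2b pcB0 Cut.none Ext.none :=
  certB0 (fam := false) (s1 := true) (s2 := false) (a := 1) (b := 0) (c := 2) (cn := .npp) (n1 := ndB1q1) (n2 := ndB2q2b) (pc := pcB0) (cut := Cut.none) (xt := Ext.none) (P1 := 536870912) (W1 := 536870912) (P2 := 1239849684) (W2 := 370763052) (P3 := 991146299) (W3 := 28908434) (N0 := 3) (En := eng) (mo := mog) (C1 := cd1q1) (C2 := cd2q2b) (C3 := pd0)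
    rfl k0_pm_102_b

noncomputable def f_pm_112_a : ℕ → ℕ → ℕ → ℕ → Bool := onCell 536870912 536870912 0 536870912 991146299 28908434
    (rowB 3 eng mog cd1q1 cd2q2a pd1 2 false true false .dn 1 1 2 (qsf 536870912 536870912 0 536870912 1) ndB1q1 ndB2q2a pcB1 Cut.none Ext.none)

def k0_pm_112_a : ∃ t, chk3 f_pm_112_a t 1 1 1 = true :=
  ⟨(a (b (a (a (b (l 16082888) (l 16182104)) (b (l 16328352) (l 16322552))) (a (b (l 16366464) (l 16371600)) (l 1))) (a (b (a (b (l 16245880) (l 15916224)) (b (l 16228160) (l 59087570007))) (b (a (l 15905688) (l 353292542535)) (a (b (l 15789408) (l 114921490839)) (l 1)))) (b (l 1) (l 1)))) (l 1)), by decide +kernel⟩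

theorem c_pm_112_a : CertB 536870912 536870912 0 536870912 991146299 28908434 3 eng mog cd1q1 cd2q2a pd1 false true false .dn 1 1 2
    ndB1q1 ndB2q2a pcB1 Cut.none Ext.none :=
  certB2 (fam := false) (s1 := true) (s2 := false) (a := 1) (b := 1) (c := 2) (cn := .dn) (n1 := ndB1q1) (n2 := ndB2q2a) (pc := pcB1) (cut := Cut.none) (xt := Ext.none) (P1 := 536870912) (W1 := 536870912) (P2 := 0) (W2 := 536870912) (P3 := 991146299) (W3 := 28908434) (N0 := 3) (En := eng) (mo := mog) (C1 := cd1q1) (C2 := cd2q2a) (C3 := pd1)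
    rfl (fun _ => rfl) k0_pm_112_a

noncomputable def f_pm_112_b : ℕ → ℕ → ℕ → ℕ → Bool := onCell 536870912 536870912 1239849684 370763052 991146299 28908434
    (rowB 3 eng mog cd1q1 cd2q2b pd1 0 false true false .dn 1 1 2 (qsf 536870912 536870912 1239849684 370763052 1) ndB1q1 ndB2q2b pcB1 Cut.none Ext.none)

def k0_pm_112_b : ∃ t, chk3 f_pm_112_b t 1 1 1 = true :=
  ⟨(a (b (a (b (a (b (l 16256984) (l 16158912)) (b (l 16170232) (l 16082128))) (a (l 15865064) (l 15706800))) (b (a (b (l 15874672) (l 15938080)) (b (l 324838028279) (l 74656016455))) (a (b (l 15862216) (l 15794752)) (b (l 15658320) (l 15596992))))) (a (b (a (l 15769456) (l 15805744)) (a (l 15472200) (l 15663840))) (a (b (b (l 15736016) (l 15685896)) (l 15625752)) (b (a (l 15582488) (b (l 15493768) (l 15477376))) (a (l 15534040) (l 15479416)))))) (b (b (l 1) (a (a (b (a (l 15465848) (b (l 1) (l 15355456))) (a (l 15428104) (l 15395952))) (b (l 1) (a (l 15426624) (l 1)))) (l 1))) (a (a (b (b (a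 (l 15431296) (l 15443040)) (l 15460168)) (a (l 15465504) (l 15477400))) (b (a (b (l 15481752) (l 15510848)) (b (l 15542768) (l 15573040))) (a (l 15511328) (b (l 15576936) (l 15558592))))) (a (b (b (l 1) (a (l 15660600) (l 15778096))) (a (b (l 15662304) (l 15638016)) (b (l 15778168) (l 15747920)))) (b (l 1) (a (b (l 15933240) (l 15897744)) (b (l 1) (a (l 16044320) (l 15951200))))))))), by decide +kernel⟩

theorem c_pm_112_b : CertB 536870912 536870912 1239849684 370763052 991146299 28908434 3 eng mog cd1q1 cd2q2b pd1 false true false .dn 1 1 2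
    ndB1q1 ndB2q2b pcB1 Cut.none Ext.none :=
  certB0 (fam := false) (s1 := true) (s2 := false) (a := 1) (b := 1) (c := 2) (cn := .dn) (n1 := ndB1q1) (n2 := ndB2q2b) (pc := pcB1) (cut := Cut.none) (xt := Ext.none) (P1 := 536870912) (W1 := 536870912) (P2 := 1239849684) (W2 := 370763052) (P3 := 991146299) (W3 := 28908434) (N0 := 3) (En := eng) (mo := mog) (C1 := cd1q1) (C2 := cd2q2b) (C3 := pd1)
    rfl k0_pm_112_b

noncomputable def f_pm_113 : ℕ → ℕ → ℕ → ℕ → Bool := onCell 536870912 536870912 536870912 536870912 991146299 28908434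
    (rowB 3 eng mog cd1q1 cd2q3 pd1 1 false true false .nn 1 1 3 (qsf 536870912 536870912 1610612736 536870912 1) ndB1q1 ndB2q3 pcB1 Cut.none Ext.none)

def k0_pm_113 : ∃ t, chk3 f_pm_113 t 1 1 1 = true :=
  ⟨(b (a (b (l 1) (a (l 1) (a (l 1) (b (l 1) (l 171292383415))))) (a (b (a (l 1) (b (l 1) (a (l 1) (l 15721888)))) (a (b (l 15556376) (l 15504304)) (b (l 15386008) (l 15517336)))) (b (a (b (a (l 1) (l 15989688)) (a (l 15790000) (l 15866736))) (a (b (b (l 15942440) (l 15920408)) (l 15748368)) (b (a (b (l 15708640) (l 15701208)) (b (l 15611112) (l 15618560))) (a (l 15723008) (l 15530336))))) (a (b (b (l 15727104) (l 15650408)) (b (l 15571720) (l 15494688))) (b (a (l 15753456) (a (l 15788784) (l 15730488))) (a (l 15541728) (a (l 15549808) (l 15531000)))))))) (b (a (a (b (l 1) (a (l 1) (l 15565616))) (a (b (l 15586152) (l 15508104)) (b (l 15482816) (l 15447824)))) (a (b (a (l 15441800) (l 15415992)) (a (l 15385632) (l 15335976))) (a (b (b (l 15423488) (l 15362968))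 (l 15431640)) (b (a (l 15365136) (b (l 15381872) (l 15306992))) (a (l 15292200) (l 15285088)))))) (a (a (b (a (l 15437824) (l 15436280)) (a (l 15245944) (l 15309488))) (b (a (l 15447480) (l 15433232)) (a (l 15399416) (l 15448312)))) (a (b (a (l 15354920) (l 15306416)) (a (l 15373872) (l 15370432))) (b (a (l 15337256) (a (l 15464464) (l 15642592))) (a (l 15633608) (b (l 16332336) (a (l 16841024) (l 16810640))))))))), by decide +kernel⟩

theorem c_pm_113 : CertB 536870912 536870912 1610612736 536870912 991146299 28908434 3 eng mog cd1q1 cd2q3 pd1 false true false .nn 1 1 3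
    ndB1q1 ndB2q3 pcB1 Cut.none Ext.none :=
  certB1 (fam := false) (s1 := true) (s2 := false) (a := 1) (b := 1) (c := 3) (cn := .nn) (n1 := ndB1q1) (n2 := ndB2q3) (pc := pcB1) (cut := Cut.none) (xt := Ext.none) (P1 := 536870912) (W1 := 536870912) (P2 := 1610612736) (W2 := 536870912) (P3 := 991146299) (W3 := 28908434) (N0 := 3) (En := eng) (mo := mog) (C1 := cd1q1) (C2 := cd2q3) (C3 := pd1)
    rfl (fun _ => rfl) k0_pm_113

noncomputable def f_pm_123 : ℕ → ℕ → ℕ → ℕ → Bool := onCell 536870912 536870912 1073741824 536870912 991146299 28908434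
    (rowB 3 eng mog cd1q1 cd2q3 pd2 1 false true false .npn 1 2 3 (qsf 536870912 536870912 1610612736 536870912 2) ndB1q1 ndB2q3 pcB2 Cut.none Ext.none)

def k0_pm_123 : ∃ t, chk3 f_pm_123 t 1 1 1 = true :=
  ⟨(a (b (b (a (b (a (b (l 15372160) (l 15416856)) (b (l 15502824) (l 15553120))) (a (b (l 15298800) (l 15203464)) (b (l 15436432) (l 15318088)))) (b (a (c (l 15414472) (a (l 15902488) (l 15889376))) (b (l 15800000) (l 15696376))) (a (b (l 15558496) (l 15437608)) (b (l 15614456) (l 15550840))))) (a (b (a (l 15011208) (l 15003680)) (a (l 14878584) (l 15018800))) (b (a (l 15288368) (l 15485712)) (a (l 15139704) (b (l 15446560) (l 15433880)))))) (a (b (a (b (l 14959152) (l 14934320)) (b (b (l 14925472) (l 14866968)) (a (l 14815800) (b (l 14789304) (l 14759120))))) (a (b (b (l 14912088) (l 14887528)) (b (l 14935792) (l 14982296))) (b (a (b (l 14765096) (l 14773608)) (b (l 14780768) (l 14835224))) (a (b (l 14795984) (l 2)) (l 2))))) (b (a (b (b (l 15053120)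 (l 15007664)) (b (l 15007472) (l 15038976))) (b (b (l 15410208) (l 15416288)) (b (l 15455280) (l 2)))) (a (b (b (l 15102216) (l 2)) (l 2)) (l 2))))) (b (a (b (b (a (b (l 15769056) (l 15747792)) (b (l 15871912) (l 15952752))) (a (l 15681336) (b (l 16081408) (a (l 16093728) (l 16403128))))) (a (b (b (l 15820392) (l 15873344)) (b (l 15849136) (l 15828768))) (b (b (l 16092768) (l 16230064)) (a (l 16144408) (l 2))))) (b (b (a (b (c (l 16441296) (l 16292664)) (a (l 16299192) (l 16589456))) (b (a (b (l 16467832) (l 16504568)) (l 132169565799)) (a (l 16535752) (l 16381704)))) (a (b (a (l 16516576) (l 16526904)) (l 16257328)) (b (a (l 16537008) (l 2)) (l 2)))) (a (b (a (l 16486512) (l 2)) (l 2)) (l 2)))) (a (b (a (b (a (l 15744376) (l 2)) (l 2)) (l 2)) (l 2)) (l 2)))), by decide +kernel⟩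

theorem c_pm_123 : CertB 536870912 536870912 1610612736 536870912 991146299 28908434 3 eng mog cd1q1 cd2q3 pd2 false true false .npn 1 2 3
    ndB1q1 ndB2q3 pcB2 Cut.none Ext.none :=
  certB1 (fam := false) (s1 := true) (s2 := false) (a := 1) (b := 2) (c := 3) (cn := .npn) (n1 := ndB1q1) (n2 := ndB2q3) (pc := pcB2) (cut := Cut.none) (xt := Ext.none) (P1 := 536870912) (W1 := 536870912) (P2 := 1610612736) (W2 := 536870912) (P3 := 991146299) (W3 := 28908434) (N0 := 3) (En := eng) (mo := mog) (C1 := cd1q1) (C2 := cd2q3) (C3 := pd2)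
    rfl (fun _ => rfl) k0_pm_123

noncomputable def f_pm_133 : ℕ → ℕ → ℕ → ℕ → Bool := onCell 536870912 536870912 1610612736 536870912 991146299 28908434
    (rowB 3 eng mog cd1q1 cd2q3 pd3 0 false true false .dn 1 3 3 (qsf 536870912 536870912 1610612736 536870912 3) ndB1q1 ndB2q3 pcB3 Cut.none Ext.none)

def k0_pm_133 : ∃ t, chk3 f_pm_133 t 1 1 1 = true :=
  ⟨(a (b (l 1) (a (b (l 1) (a (b (l 1) (l 408589208183)) (l 1))) (l 1))) (l 1)), by decide +kernel⟩

theorem c_pm_133 : CertB 536870912 536870912 1610612736 536870912 991146299 28908434 3 eng mog cd1q1 cd2q3 pd3 false true false .dn 1 3 3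
    ndB1q1 ndB2q3 pcB3 Cut.none Ext.none :=
  certB0 (fam := false) (s1 := true) (s2 := false) (a := 1) (b := 3) (c := 3) (cn := .dn) (n1 := ndB1q1) (n2 := ndB2q3) (pc := pcB3) (cut := Cut.none) (xt := Ext.none) (P1 := 536870912) (W1 := 536870912) (P2 := 1610612736) (W2 := 536870912) (P3 := 991146299) (W3 := 28908434) (N0 := 3) (En := eng) (mo := mog) (C1 := cd1q1) (C2 := cd2q3) (C3 := pd3)
    rfl k0_pm_133

noncomputable def cut_pm_202_aa : Cut := Cut.of [[⟨0, 1, 0, 53687091⟩, ⟨1, 0, 0, 53687091⟩, ⟨2, 1, 0, 53687091⟩]]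

noncomputable def f_pm_202_aa : ℕ → ℕ → ℕ → ℕ → Bool := onCell 0 536870912 0 536870912 991146299 28908434
    (rowB 3 eng mog cd1q2a cd2q2a pd0 0 false true false .pp 2 0 2 (qsf 0 536870912 0 536870912 0) ndB1q2a ndB2q2a pcB0 cut_pm_202_aa Ext.none)

def k0_pm_202_aa : ∃ t, chk3 f_pm_202_aa t 1 1 1 = true :=
  ⟨(a (l 3) (b (l 3) (a (l 3) (b (l 3) (a (l 3) (b (l 3) (l 6))))))), by decide +kernel⟩

theorem c_pm_202_aa : CertB 0 536870912 0 536870912 991146299 28908434 3 eng mog cd1q2a cd2q2a pd0 false true false .pp 2 0 2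
    ndB1q2a ndB2q2a pcB0 cut_pm_202_aa Ext.none :=
  certB0 (fam := false) (s1 := true) (s2 := false) (a := 2) (b := 0) (c := 2) (cn := .pp) (n1 := ndB1q2a) (n2 := ndB2q2a) (pc := pcB0) (cut := cut_pm_202_aa) (xt := Ext.none) (P1 := 0) (W1 := 536870912) (P2 := 0) (W2 := 536870912) (P3 := 991146299) (W3 := 28908434) (N0 := 3) (En := eng) (mo := mog) (C1 := cd1q2a) (C2 := cd2q2a) (C3 := pd0)
    rfl k0_pm_202_aa

noncomputable def cut_pm_202_ab : Cut := Cut.of [[⟨0, 1, 0, 53687091⟩, ⟨1, 0, 0, 53687091⟩, ⟨2, 1, 0, 53687091⟩]]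

noncomputable def f_pm_202_ab : ℕ → ℕ → ℕ → ℕ → Bool := onCell 0 536870912 1239849684 370763052 991146299 28908434
    (rowB 3 eng mog cd1q2a cd2q2b pd0 0 false true false .pp 2 0 2 (qsf 0 536870912 1239849684 370763052 0) ndB1q2a ndB2q2b pcB0 cut_pm_202_ab Ext.none)

def k0_pm_202_ab : ∃ t, chk3 f_pm_202_ab t 1 1 1 = true :=
  ⟨(l 3), by decide +kernel⟩

theorem c_pm_202_ab : CertB 0 536870912 1239849684 370763052 991146299 28908434 3 eng mog cd1q2a cd2q2b pd0 false true false .pp 2 0 2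
    ndB1q2a ndB2q2b pcB0 cut_pm_202_ab Ext.none :=
  certB0 (fam := false) (s1 := true) (s2 := false) (a := 2) (b := 0) (c := 2) (cn := .pp) (n1 := ndB1q2a) (n2 := ndB2q2b) (pc := pcB0) (cut := cut_pm_202_ab) (xt := Ext.none) (P1 := 0) (W1 := 536870912) (P2 := 1239849684) (W2 := 370763052) (P3 := 991146299) (W3 := 28908434) (N0 := 3) (En := eng) (mo := mog) (C1 := cd1q2a) (C2 := cd2q2b) (C3 := pd0)
    rfl k0_pm_202_ab

noncomputable def cut_pm_202_ba : Cut := Cut.of [[⟨0, 1, 0, 53687091⟩, ⟨1, 0, 0, 53687091⟩, ⟨2, 1, 0, 53687091⟩]]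

noncomputable def f_pm_202_ba : ℕ → ℕ → ℕ → ℕ → Bool := onCell 1239849684 370763052 0 536870912 991146299 28908434
    (rowB 3 eng mog cd1q2b cd2q2a pd0 0 false true false .pp 2 0 2 (qsf 1239849684 370763052 0 536870912 0) ndB1q2b ndB2q2a pcB0 cut_pm_202_ba Ext.none)

def k0_pm_202_ba : ∃ t, chk3 f_pm_202_ba t 1 1 1 = true :=
  ⟨(l 3), by decide +kernel⟩

theorem c_pm_202_ba : CertB 1239849684 370763052 0 536870912 991146299 28908434 3 eng mog cd1q2b cd2q2a pd0 false true false .pp 2 0 2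
    ndB1q2b ndB2q2a pcB0 cut_pm_202_ba Ext.none :=
  certB0 (fam := false) (s1 := true) (s2 := false) (a := 2) (b := 0) (c := 2) (cn := .pp) (n1 := ndB1q2b) (n2 := ndB2q2a) (pc := pcB0) (cut := cut_pm_202_ba) (xt := Ext.none) (P1 := 1239849684) (W1 := 370763052) (P2 := 0) (W2 := 536870912) (P3 := 991146299) (W3 := 28908434) (N0 := 3) (En := eng) (mo := mog) (C1 := cd1q2b) (C2 := cd2q2a) (C3 := pd0)
    rfl k0_pm_202_ba

noncomputable def cut_pm_202_bb : Cut := Cut.of [[⟨0, 1, 0, 53687091⟩, ⟨1, 0, 0, 53687091⟩, ⟨2, 1, 0, 53687091⟩]]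

noncomputable def f_pm_202_bb : ℕ → ℕ → ℕ → ℕ → Bool := onCell 1239849684 370763052 1239849684 370763052 991146299 28908434
    (rowB 3 eng mog cd1q2b cd2q2b pd0 0 false true false .pp 2 0 2 (qsf 1239849684 370763052 1239849684 370763052 0) ndB1q2b ndB2q2b pcB0 cut_pm_202_bb Ext.none)

def k0_pm_202_bb : ∃ t, chk3 f_pm_202_bb t 1 1 1 = true :=
  ⟨(l 3), by decide +kernel⟩

theorem c_pm_202_bb : CertB 1239849684 370763052 1239849684 370763052 991146299 28908434 3 eng mog cd1q2b cd2q2b pd0 false true false .pp 2 0 2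
    ndB1q2b ndB2q2b pcB0 cut_pm_202_bb Ext.none :=
  certB0 (fam := false) (s1 := true) (s2 := false) (a := 2) (b := 0) (c := 2) (cn := .pp) (n1 := ndB1q2b) (n2 := ndB2q2b) (pc := pcB0) (cut := cut_pm_202_bb) (xt := Ext.none) (P1 := 1239849684) (W1 := 370763052) (P2 := 1239849684) (W2 := 370763052) (P3 := 991146299) (W3 := 28908434) (N0 := 3) (En := eng) (mo := mog) (C1 := cd1q2b) (C2 := cd2q2b) (C3 := pd0)
    rfl k0_pm_202_bb

noncomputable def f_pm_203_a : ℕ → ℕ → ℕ → ℕ → Bool := onCell 0 536870912 0 536870912 991146299 28908434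
    (rowB 3 eng mog cd1q2a cd2q3 pd0 1 false true false .up 2 0 3 (qsf 0 536870912 1610612736 536870912 0) ndB1q2a ndB2q3 pcB0 Cut.none Ext.none)

def k0_pm_203_a : ∃ t, chk3 f_pm_203_a t 1 1 1 = true :=
  ⟨(l 3), by decide +kernel⟩

theorem c_pm_203_a : CertB 0 536870912 1610612736 536870912 991146299 28908434 3 eng mog cd1q2a cd2q3 pd0 false true false .up 2 0 3
    ndB1q2a ndB2q3 pcB0 Cut.none Ext.none :=
  certB1 (fam := false) (s1 := true) (s2 := false) (a := 2) (b := 0) (c := 3) (cn := .up) (n1 := ndB1q2a) (n2 := ndB2q3) (pc := pcB0) (cut := Cut.none) (xt := Ext.none) (P1 := 0) (W1 := 536870912) (P2 := 1610612736) (W2 := 536870912) (P3 := 991146299) (W3 := 28908434) (N0 := 3) (En := eng) (mo := mog) (C1 := cd1q2a) (C2 := cd2q3) (C3 := pd0)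
    rfl (fun _ => rfl) k0_pm_203_a

noncomputable def f_pm_203_b : ℕ → ℕ → ℕ → ℕ → Bool := onCell 1239849684 370763052 1610612736 536870912 991146299 28908434
    (rowB 3 eng mog cd1q2b cd2q3 pd0 0 false true false .up 2 0 3 (qsf 1239849684 370763052 1610612736 536870912 0) ndB1q2b ndB2q3 pcB0 Cut.none Ext.none)

def k0_pm_203_b : ∃ t, chk3 f_pm_203_b t 1 1 1 = true :=
  ⟨(l 3), by decide +kernel⟩

theorem c_pm_203_b : CertB 1239849684 370763052 1610612736 536870912 991146299 28908434 3 eng mog cd1q2b cd2q3 pd0 false true false .up 2 0 3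
    ndB1q2b ndB2q3 pcB0 Cut.none Ext.none :=
  certB0 (fam := false) (s1 := true) (s2 := false) (a := 2) (b := 0) (c := 3) (cn := .up) (n1 := ndB1q2b) (n2 := ndB2q3) (pc := pcB0) (cut := Cut.none) (xt := Ext.none) (P1 := 1239849684) (W1 := 370763052) (P2 := 1610612736) (W2 := 536870912) (P3 := 991146299) (W3 := 28908434) (N0 := 3) (En := eng) (mo := mog) (C1 := cd1q2b) (C2 := cd2q3) (C3 := pd0)
    rfl k0_pm_203_b

noncomputable def cut_pm_213_a : Cut := Cut.of [[⟨0, 1, 0, 37748736⟩, ⟨1, 1, 0, 37748736⟩, ⟨2, 2, 0, 5242880⟩]]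

noncomputable def f_pm_213_a : ℕ → ℕ → ℕ → ℕ → Bool := onCell 0 536870912 1610612736 536870912 991146299 28908434
    (rowB 3 eng mog cd1q2a cd2q3 pd1 0 false true false .pnn 2 1 3 (qsf 0 536870912 1610612736 536870912 1) ndB1q2a ndB2q3 pcB1 cut_pm_213_a Ext.none)

def k0_pm_213_a : ∃ t, chk3 f_pm_213_a t 1 1 1 = true :=
  ⟨(b (l 3) (b (l 3) (a (l 3) (a (l 3) (b (l 3) (a (l 3) (b (l 3) (a (l 3) (b (l 3) (b (l 3) (b (l 3) (l 6)))))))))))), by decide +kernel⟩

theorem c_pm_213_a : CertB 0 536870912 1610612736 536870912 991146299 28908434 3 eng mog cd1q2a cd2q3 pd1 false true false .pnn 2 1 3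
    ndB1q2a ndB2q3 pcB1 cut_pm_213_a Ext.none :=
  certB0 (fam := false) (s1 := true) (s2 := false) (a := 2) (b := 1) (c := 3) (cn := .pnn) (n1 := ndB1q2a) (n2 := ndB2q3) (pc := pcB1) (cut := cut_pm_213_a) (xt := Ext.none) (P1 := 0) (W1 := 536870912) (P2 := 1610612736) (W2 := 536870912) (P3 := 991146299) (W3 := 28908434) (N0 := 3) (En := eng) (mo := mog) (C1 := cd1q2a) (C2 := cd2q3) (C3 := pd1)
    rfl k0_pm_213_a

noncomputable def cut_pm_213_b : Cut := Cut.of [[⟨0, 1, 0, 37748736⟩, ⟨1, 1, 0, 37748736⟩, ⟨2, 2, 0, 5242880⟩]]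

noncomputable def f_pm_213_b : ℕ → ℕ → ℕ → ℕ → Bool := onCell 1239849684 370763052 1610612736 536870912 991146299 28908434
    (rowB 3 eng mog cd1q2b cd2q3 pd1 0 false true false .pnn 2 1 3 (qsf 1239849684 370763052 1610612736 536870912 1) ndB1q2b ndB2q3 pcB1 cut_pm_213_b Ext.none)

def k0_pm_213_b : ∃ t, chk3 f_pm_213_b t 1 1 1 = true :=
  ⟨(l 3), by decide +kernel⟩

theorem c_pm_213_b : CertB 1239849684 370763052 1610612736 536870912 991146299 28908434 3 eng mog cd1q2b cd2q3 pd1 false true false .pnn 2 1 3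
    ndB1q2b ndB2q3 pcB1 cut_pm_213_b Ext.none :=
  certB0 (fam := false) (s1 := true) (s2 := false) (a := 2) (b := 1) (c := 3) (cn := .pnn) (n1 := ndB1q2b) (n2 := ndB2q3) (pc := pcB1) (cut := cut_pm_213_b) (xt := Ext.none) (P1 := 1239849684) (W1 := 370763052) (P2 := 1610612736) (W2 := 536870912) (P3 := 991146299) (W3 := 28908434) (N0 := 3) (En := eng) (mo := mog) (C1 := cd1q2b) (C2 := cd2q3) (C3 := pd1)
    rfl k0_pm_213_b

noncomputable def f_pm_303 : ℕ → ℕ → ℕ → ℕ → Bool := onCell 1610612736 536870912 1610612736 536870912 991146299 28908434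
    (rowB 3 eng mog cd1q3 cd2q3 pd0 0 false true false .npn 3 0 3 (qsf 1610612736 536870912 1610612736 536870912 0) ndB1q3 ndB2q3 pcB0 Cut.none Ext.none)

def k0_pm_303 : ∃ t, chk3 f_pm_303 t 1 1 1 = true :=
  ⟨(l 3), by decide +kernel⟩

theorem c_pm_303 : CertB 1610612736 536870912 1610612736 536870912 991146299 28908434 3 eng mog cd1q3 cd2q3 pd0 false true false .npn 3 0 3
    ndB1q3 ndB2q3 pcB0 Cut.none Ext.none :=
  certB0 (fam := false) (s1 := true) (s2 := false) (a := 3) (b := 0) (c := 3) (cn := .npn) (n1 := ndB1q3) (n2 := ndB2q3) (pc := pcB0) (cut := Cut.none) (xt := Ext.none) (P1 := 1610612736) (W1 := 536870912) (P2 := 1610612736) (W2 := 536870912) (P3 := 991146299) (W3 := 28908434) (N0 := 3) (En := eng) (mo := mog) (C1 := cd1q3) (C2 := cd2q3) (C3 := pd0)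
    rfl k0_pm_303

noncomputable def f_pm_313 : ℕ → ℕ → ℕ → ℕ → Bool := onCell 1610612736 536870912 1610612736 536870912 991146299 28908434
    (rowB 3 eng mog cd1q3 cd2q3 pd1 0 false true false .dn 3 1 3 (qsf 1610612736 536870912 1610612736 536870912 1) ndB1q3 ndB2q3 pcB1 Cut.none Ext.none)

def k0_pm_313 : ∃ t, chk3 f_pm_313 t 1 1 1 = true :=
  ⟨(l 3), by decide +kernel⟩

theorem c_pm_313 : CertB 1610612736 536870912 1610612736 536870912 991146299 28908434 3 eng mog cd1q3 cd2q3 pd1 false true false .dn 3 1 3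
    ndB1q3 ndB2q3 pcB1 Cut.none Ext.none :=
  certB0 (fam := false) (s1 := true) (s2 := false) (a := 3) (b := 1) (c := 3) (cn := .dn) (n1 := ndB1q3) (n2 := ndB2q3) (pc := pcB1) (cut := Cut.none) (xt := Ext.none) (P1 := 1610612736) (W1 := 536870912) (P2 := 1610612736) (W2 := 536870912) (P3 := 991146299) (W3 := 28908434) (N0 := 3) (En := eng) (mo := mog) (C1 := cd1q3) (C2 := cd2q3) (C3 := pd1)
    rfl k0_pm_313

noncomputable def f_mm_001 : ℕ → ℕ → ℕ → ℕ → Bool := onCell 0 536870912 536870912 536870912 991146299 28908434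
    (rowB 3 eng mog cd1q0 cd2q1 pd0 0 false false false .up 0 0 1 (qsf 0 536870912 536870912 536870912 0) ndB1q0 ndB2q1 pcB0 Cut.none Ext.none)

def k0_mm_001 : ∃ t, chk3 f_mm_001 t 1 1 1 = true :=
  ⟨(l 3), by decide +kernel⟩

theorem c_mm_001 : CertB 0 536870912 536870912 536870912 991146299 28908434 3 eng mog cd1q0 cd2q1 pd0 false false false .up 0 0 1
    ndB1q0 ndB2q1 pcB0 Cut.none Ext.none :=
  certB0 (fam := false) (s1 := false) (s2 := false) (a := 0) (b := 0) (c := 1) (cn := .up) (n1 := ndB1q0) (n2 := ndB2q1) (pc := pcB0) (cut := Cut.none) (xt := Ext.none) (P1 := 0) (W1 := 536870912) (P2 := 536870912) (W2 := 536870912) (P3 := 991146299) (W3 := 28908434) (N0 := 3) (En := eng) (mo := mog) (C1 := cd1q0) (C2 := cd2q1) (C3 := pd0)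
    rfl k0_mm_001

noncomputable def f_mm_011 : ℕ → ℕ → ℕ → ℕ → Bool := onCell 0 536870912 536870912 536870912 991146299 28908434
    (rowB 3 eng mog cd1q0 cd2q1 pd1 0 false false false .pnn 0 1 1 (qsf 0 536870912 536870912 536870912 1) ndB1q0 ndB2q1 pcB1 Cut.none Ext.none)

def k0_mm_011 : ∃ t, chk3 f_mm_011 t 1 1 1 = true :=
  ⟨(l 3), by decide +kernel⟩

theorem c_mm_011 : CertB 0 536870912 536870912 536870912 991146299 28908434 3 eng mog cd1q0 cd2q1 pd1 false false false .pnn 0 1 1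
    ndB1q0 ndB2q1 pcB1 Cut.none Ext.none :=
  certB0 (fam := false) (s1 := false) (s2 := false) (a := 0) (b := 1) (c := 1) (cn := .pnn) (n1 := ndB1q0) (n2 := ndB2q1) (pc := pcB1) (cut := Cut.none) (xt := Ext.none) (P1 := 0) (W1 := 536870912) (P2 := 536870912) (W2 := 536870912) (P3 := 991146299) (W3 := 28908434) (N0 := 3) (En := eng) (mo := mog) (C1 := cd1q0) (C2 := cd2q1) (C3 := pd1)
    rfl k0_mm_011

noncomputable def f_mm_012_a : ℕ → ℕ → ℕ → ℕ → Bool := onCell 0 536870912 0 536870912 991146299 28908434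
    (rowB 3 eng mog cd1q0 cd2q2a pd1 0 false false false .pnp 0 1 2 (qsf 0 536870912 0 536870912 1) ndB1q0 ndB2q2a pcB1 Cut.none Ext.none)

def k0_mm_012_a : ∃ t, chk3 f_mm_012_a t 1 1 1 = true :=
  ⟨(l 5), by decide +kernel⟩

theorem c_mm_012_a : CertB 0 536870912 0 536870912 991146299 28908434 3 eng mog cd1q0 cd2q2a pd1 false false false .pnp 0 1 2
    ndB1q0 ndB2q2a pcB1 Cut.none Ext.none :=
  certB0 (fam := false) (s1 := false) (s2 := false) (a := 0) (b := 1) (c := 2) (cn := .pnp) (n1 := ndB1q0) (n2 := ndB2q2a) (pc := pcB1) (cut := Cut.none) (xt := Ext.none) (P1 := 0) (W1 := 536870912) (P2 := 0) (W2 := 536870912) (P3 := 991146299) (W3 := 28908434) (N0 := 3) (En := eng) (mo := mog) (C1 := cd1q0) (C2 := cd2q2a) (C3 := pd1)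
    rfl k0_mm_012_a

noncomputable def f_mm_012_b : ℕ → ℕ → ℕ → ℕ → Bool := onCell 0 536870912 1239849684 370763052 991146299 28908434
    (rowB 3 eng mog cd1q0 cd2q2b pd1 0 false false false .pnp 0 1 2 (qsf 0 536870912 1239849684 370763052 1) ndB1q0 ndB2q2b pcB1 Cut.none Ext.none)

def k0_mm_012_b : ∃ t, chk3 f_mm_012_b t 1 1 1 = true :=
  ⟨(l 5), by decide +kernel⟩

theorem c_mm_012_b : CertB 0 536870912 1239849684 370763052 991146299 28908434 3 eng mog cd1q0 cd2q2b pd1 false false false .pnp 0 1 2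
    ndB1q0 ndB2q2b pcB1 Cut.none Ext.none :=
  certB0 (fam := false) (s1 := false) (s2 := false) (a := 0) (b := 1) (c := 2) (cn := .pnp) (n1 := ndB1q0) (n2 := ndB2q2b) (pc := pcB1) (cut := Cut.none) (xt := Ext.none) (P1 := 0) (W1 := 536870912) (P2 := 1239849684) (W2 := 370763052) (P3 := 991146299) (W3 := 28908434) (N0 := 3) (En := eng) (mo := mog) (C1 := cd1q0) (C2 := cd2q2b) (C3 := pd1)
    rfl k0_mm_012_b

noncomputable def f_mm_022_a : ℕ → ℕ → ℕ → ℕ → Bool := onCell 0 536870912 0 536870912 991146299 28908434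
    (rowB 3 eng mog cd1q0 cd2q2a pd2 0 false false false .pp 0 2 2 (qsf 0 536870912 0 536870912 2) ndB1q0 ndB2q2a pcB2 Cut.none Ext.none)

def k0_mm_022_a : ∃ t, chk3 f_mm_022_a t 1 1 1 = true :=
  ⟨(l 5), by decide +kernel⟩

theorem c_mm_022_a : CertB 0 536870912 0 536870912 991146299 28908434 3 eng mog cd1q0 cd2q2a pd2 false false false .pp 0 2 2
    ndB1q0 ndB2q2a pcB2 Cut.none Ext.none :=
  certB0 (fam := false) (s1 := false) (s2 := false) (a := 0) (b := 2) (c := 2) (cn := .pp) (n1 := ndB1q0) (n2 := ndB2q2a) (pc := pcB2) (cut := Cut.none) (xt := Ext.none) (P1 := 0) (W1 := 536870912) (P2 := 0) (W2 := 536870912) (P3 := 991146299) (W3 := 28908434) (N0 := 3) (En := eng) (mo := mog) (C1 := cd1q0) (C2 := cd2q2a) (C3 := pd2)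
    rfl k0_mm_022_a

noncomputable def f_mm_022_b : ℕ → ℕ → ℕ → ℕ → Bool := onCell 0 536870912 1239849684 370763052 991146299 28908434
    (rowB 3 eng mog cd1q0 cd2q2b pd2 0 false false false .pp 0 2 2 (qsf 0 536870912 1239849684 370763052 2) ndB1q0 ndB2q2b pcB2 Cut.none Ext.none)

def k0_mm_022_b : ∃ t, chk3 f_mm_022_b t 1 1 1 = true :=
  ⟨(l 5), by decide +kernel⟩

theorem c_mm_022_b : CertB 0 536870912 1239849684 370763052 991146299 28908434 3 eng mog cd1q0 cd2q2b pd2 false false false .pp 0 2 2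
    ndB1q0 ndB2q2b pcB2 Cut.none Ext.none :=
  certB0 (fam := false) (s1 := false) (s2 := false) (a := 0) (b := 2) (c := 2) (cn := .pp) (n1 := ndB1q0) (n2 := ndB2q2b) (pc := pcB2) (cut := Cut.none) (xt := Ext.none) (P1 := 0) (W1 := 536870912) (P2 := 1239849684) (W2 := 370763052) (P3 := 991146299) (W3 := 28908434) (N0 := 3) (En := eng) (mo := mog) (C1 := cd1q0) (C2 := cd2q2b) (C3 := pd2)
    rfl k0_mm_022_b

noncomputable def f_mm_023 : ℕ → ℕ → ℕ → ℕ → Bool := onCell 0 536870912 1610612736 536870912 991146299 28908434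
    (rowB 3 eng mog cd1q0 cd2q3 pd2 0 false false false .up 0 2 3 (qsf 0 536870912 1610612736 536870912 2) ndB1q0 ndB2q3 pcB2 Cut.none Ext.none)

def k0_mm_023 : ∃ t, chk3 f_mm_023 t 1 1 1 = true :=
  ⟨(l 5), by decide +kernel⟩

theorem c_mm_023 : CertB 0 536870912 1610612736 536870912 991146299 28908434 3 eng mog cd1q0 cd2q3 pd2 false false false .up 0 2 3
    ndB1q0 ndB2q3 pcB2 Cut.none Ext.none :=
  certB0 (fam := false) (s1 := false) (s2 := false) (a := 0) (b := 2) (c := 3) (cn := .up) (n1 := ndB1q0) (n2 := ndB2q3) (pc := pcB2) (cut := Cut.none) (xt := Ext.none) (P1 := 0) (W1 := 536870912) (P2 := 1610612736) (W2 := 536870912) (P3 := 991146299) (W3 := 28908434) (N0 := 3) (En := eng) (mo := mog) (C1 := cd1q0) (C2 := cd2q3) (C3 := pd2)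
    rfl k0_mm_023

noncomputable def f_mm_033 : ℕ → ℕ → ℕ → ℕ → Bool := onCell 0 536870912 1610612736 536870912 991146299 28908434
    (rowB 3 eng mog cd1q0 cd2q3 pd3 0 false false false .pnn 0 3 3 (qsf 0 536870912 1610612736 536870912 3) ndB1q0 ndB2q3 pcB3 Cut.none Ext.none)

def k0_mm_033 : ∃ t, chk3 f_mm_033 t 1 1 1 = true :=
  ⟨(l 5), by decide +kernel⟩

theorem c_mm_033 : CertB 0 536870912 1610612736 536870912 991146299 28908434 3 eng mog cd1q0 cd2q3 pd3 false false false .pnn 0 3 3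
    ndB1q0 ndB2q3 pcB3 Cut.none Ext.none :=
  certB0 (fam := false) (s1 := false) (s2 := false) (a := 0) (b := 3) (c := 3) (cn := .pnn) (n1 := ndB1q0) (n2 := ndB2q3) (pc := pcB3) (cut := Cut.none) (xt := Ext.none) (P1 := 0) (W1 := 536870912) (P2 := 1610612736) (W2 := 536870912) (P3 := 991146299) (W3 := 28908434) (N0 := 3) (En := eng) (mo := mog) (C1 := cd1q0) (C2 := cd2q3) (C3 := pd3)
    rfl k0_mm_033

noncomputable def f_mm_101 : ℕ → ℕ → ℕ → ℕ → Bool := onCell 536870912 536870912 536870912 536870912 991146299 28908434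
    (rowB 3 eng mog cd1q1 cd2q1 pd0 0 false false false .npn 1 0 1 (qsf 536870912 536870912 536870912 536870912 0) ndB1q1 ndB2q1 pcB0 Cut.none Ext.none)

def k0_mm_101 : ∃ t, chk3 f_mm_101 t 1 1 1 = true :=
  ⟨(l 3), by decide +kernel⟩

theorem c_mm_101 : CertB 536870912 536870912 536870912 536870912 991146299 28908434 3 eng mog cd1q1 cd2q1 pd0 false false false .npn 1 0 1
    ndB1q1 ndB2q1 pcB0 Cut.none Ext.none :=
  certB0 (fam := false) (s1 := false) (s2 := false) (a := 1) (b := 0) (c := 1) (cn := .npn) (n1 := ndB1q1) (n2 := ndB2q1) (pc := pcB0) (cut := Cut.none) (xt := Ext.none) (P1 := 536870912) (W1 := 536870912) (P2 := 536870912) (W2 := 536870912) (P3 := 991146299) (W3 := 28908434) (N0 := 3) (En := eng) (mo := mog) (C1 := cd1q1) (C2 := cd2q1) (C3 := pd0)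
    rfl k0_mm_101

noncomputable def f_mm_102_a : ℕ → ℕ → ℕ → ℕ → Bool := onCell 536870912 536870912 0 536870912 991146299 28908434
    (rowB 3 eng mog cd1q1 cd2q2a pd0 0 false false false .npp 1 0 2 (qsf 536870912 536870912 0 536870912 0) ndB1q1 ndB2q2a pcB0 Cut.none Ext.none)

def k0_mm_102_a : ∃ t, chk3 f_mm_102_a t 1 1 1 = true :=
  ⟨(l 5), by decide +kernel⟩

theorem c_mm_102_a : CertB 536870912 536870912 0 536870912 991146299 28908434 3 eng mog cd1q1 cd2q2a pd0 false false false .npp 1 0 2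
    ndB1q1 ndB2q2a pcB0 Cut.none Ext.none :=
  certB0 (fam := false) (s1 := false) (s2 := false) (a := 1) (b := 0) (c := 2) (cn := .npp) (n1 := ndB1q1) (n2 := ndB2q2a) (pc := pcB0) (cut := Cut.none) (xt := Ext.none) (P1 := 536870912) (W1 := 536870912) (P2 := 0) (W2 := 536870912) (P3 := 991146299) (W3 := 28908434) (N0 := 3) (En := eng) (mo := mog) (C1 := cd1q1) (C2 := cd2q2a) (C3 := pd0)
    rfl k0_mm_102_a

noncomputable def f_mm_102_b : ℕ → ℕ → ℕ → ℕ → Bool := onCell 536870912 536870912 1239849684 370763052 991146299 28908434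
    (rowB 3 eng mog cd1q1 cd2q2b pd0 0 false false false .npp 1 0 2 (qsf 536870912 536870912 1239849684 370763052 0) ndB1q1 ndB2q2b pcB0 Cut.none Ext.none)

def k0_mm_102_b : ∃ t, chk3 f_mm_102_b t 1 1 1 = true :=
  ⟨(l 5), by decide +kernel⟩

theorem c_mm_102_b : CertB 536870912 536870912 1239849684 370763052 991146299 28908434 3 eng mog cd1q1 cd2q2b pd0 false false false .npp 1 0 2
    ndB1q1 ndB2q2b pcB0 Cut.none Ext.none :=
  certB0 (fam := false) (s1 := false) (s2 := false) (a := 1) (b := 0) (c := 2) (cn := .npp) (n1 := ndB1q1) (n2 := ndB2q2b) (pc := pcB0) (cut := Cut.none) (xt := Ext.none) (P1 := 536870912) (W1 := 536870912) (P2 := 1239849684) (W2 := 370763052) (P3 := 991146299) (W3 := 28908434) (N0 := 3) (En := eng) (mo := mog) (C1 := cd1q1) (C2 := cd2q2b) (C3 := pd0)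
    rfl k0_mm_102_b

noncomputable def f_mm_112_a : ℕ → ℕ → ℕ → ℕ → Bool := onCell 536870912 536870912 0 536870912 991146299 28908434
    (rowB 3 eng mog cd1q1 cd2q2a pd1 0 false false false .dn 1 1 2 (qsf 536870912 536870912 0 536870912 1) ndB1q1 ndB2q2a pcB1 Cut.none Ext.none)

def k0_mm_112_a : ∃ t, chk3 f_mm_112_a t 1 1 1 = true :=
  ⟨(l 5), by decide +kernel⟩

theorem c_mm_112_a : CertB 536870912 536870912 0 536870912 991146299 28908434 3 eng mog cd1q1 cd2q2a pd1 false false false .dn 1 1 2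
    ndB1q1 ndB2q2a pcB1 Cut.none Ext.none :=
  certB0 (fam := false) (s1 := false) (s2 := false) (a := 1) (b := 1) (c := 2) (cn := .dn) (n1 := ndB1q1) (n2 := ndB2q2a) (pc := pcB1) (cut := Cut.none) (xt := Ext.none) (P1 := 536870912) (W1 := 536870912) (P2 := 0) (W2 := 536870912) (P3 := 991146299) (W3 := 28908434) (N0 := 3) (En := eng) (mo := mog) (C1 := cd1q1) (C2 := cd2q2a) (C3 := pd1)
    rfl k0_mm_112_a

noncomputable def f_mm_112_b : ℕ → ℕ → ℕ → ℕ → Bool := onCell 536870912 536870912 1239849684 370763052 991146299 28908434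
    (rowB 3 eng mog cd1q1 cd2q2b pd1 0 false false false .dn 1 1 2 (qsf 536870912 536870912 1239849684 370763052 1) ndB1q1 ndB2q2b pcB1 Cut.none Ext.none)

def k0_mm_112_b : ∃ t, chk3 f_mm_112_b t 1 1 1 = true :=
  ⟨(l 5), by decide +kernel⟩

theorem c_mm_112_b : CertB 536870912 536870912 1239849684 370763052 991146299 28908434 3 eng mog cd1q1 cd2q2b pd1 false false false .dn 1 1 2
    ndB1q1 ndB2q2b pcB1 Cut.none Ext.none :=
  certB0 (fam := false) (s1 := false) (s2 := false) (a := 1) (b := 1) (c := 2) (cn := .dn) (n1 := ndB1q1) (n2 := ndB2q2b) (pc := pcB1) (cut := Cut.none) (xt := Ext.none) (P1 := 536870912) (W1 := 536870912) (P2 := 1239849684) (W2 := 370763052) (P3 := 991146299) (W3 := 28908434) (N0 := 3) (En := eng) (mo := mog) (C1 := cd1q1) (C2 := cd2q2b) (C3 := pd1)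
    rfl k0_mm_112_b

noncomputable def f_mm_113 : ℕ → ℕ → ℕ → ℕ → Bool := onCell 536870912 536870912 1610612736 536870912 991146299 28908434
    (rowB 3 eng mog cd1q1 cd2q3 pd1 0 false false false .nn 1 1 3 (qsf 536870912 536870912 1610612736 536870912 1) ndB1q1 ndB2q3 pcB1 Cut.none Ext.none)

def k0_mm_113 : ∃ t, chk3 f_mm_113 t 1 1 1 = true :=
  ⟨(l 5), by decide +kernel⟩

theorem c_mm_113 : CertB 536870912 536870912 1610612736 536870912 991146299 28908434 3 eng mog cd1q1 cd2q3 pd1 false false false .nn 1 1 3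
    ndB1q1 ndB2q3 pcB1 Cut.none Ext.none :=
  certB0 (fam := false) (s1 := false) (s2 := false) (a := 1) (b := 1) (c := 3) (cn := .nn) (n1 := ndB1q1) (n2 := ndB2q3) (pc := pcB1) (cut := Cut.none) (xt := Ext.none) (P1 := 536870912) (W1 := 536870912) (P2 := 1610612736) (W2 := 536870912) (P3 := 991146299) (W3 := 28908434) (N0 := 3) (En := eng) (mo := mog) (C1 := cd1q1) (C2 := cd2q3) (C3 := pd1)
    rfl k0_mm_113

noncomputable def f_mm_123 : ℕ → ℕ → ℕ → ℕ → Bool := onCell 536870912 536870912 1610612736 536870912 991146299 28908434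
    (rowB 3 eng mog cd1q1 cd2q3 pd2 0 false false false .npn 1 2 3 (qsf 536870912 536870912 1610612736 536870912 2) ndB1q1 ndB2q3 pcB2 Cut.none Ext.none)

def k0_mm_123 : ∃ t, chk3 f_mm_123 t 1 1 1 = true :=
  ⟨(l 5), by decide +kernel⟩

theorem c_mm_123 : CertB 536870912 536870912 1610612736 536870912 991146299 28908434 3 eng mog cd1q1 cd2q3 pd2 false false false .npn 1 2 3
    ndB1q1 ndB2q3 pcB2 Cut.none Ext.none :=
  certB0 (fam := false) (s1 := false) (s2 := false) (a := 1) (b := 2) (c := 3) (cn := .npn) (n1 := ndB1q1) (n2 := ndB2q3) (pc := pcB2) (cut := Cut.none) (xt := Ext.none) (P1 := 536870912) (W1 := 536870912) (P2 := 1610612736) (W2 := 536870912) (P3 := 991146299) (W3 := 28908434) (N0 := 3) (En := eng) (mo := mog) (C1 := cd1q1) (C2 := cd2q3) (C3 := pd2)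
    rfl k0_mm_123

noncomputable def f_mm_133 : ℕ → ℕ → ℕ → ℕ → Bool := onCell 536870912 536870912 1610612736 536870912 991146299 28908434
    (rowB 3 eng mog cd1q1 cd2q3 pd3 0 false false false .dn 1 3 3 (qsf 536870912 536870912 1610612736 536870912 3) ndB1q1 ndB2q3 pcB3 Cut.none Ext.none)

def k0_mm_133 : ∃ t, chk3 f_mm_133 t 1 1 1 = true :=
  ⟨(l 5), by decide +kernel⟩

theorem c_mm_133 : CertB 536870912 536870912 1610612736 536870912 991146299 28908434 3 eng mog cd1q1 cd2q3 pd3 false false false .dn 1 3 3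
    ndB1q1 ndB2q3 pcB3 Cut.none Ext.none :=
  certB0 (fam := false) (s1 := false) (s2 := false) (a := 1) (b := 3) (c := 3) (cn := .dn) (n1 := ndB1q1) (n2 := ndB2q3) (pc := pcB3) (cut := Cut.none) (xt := Ext.none) (P1 := 536870912) (W1 := 536870912) (P2 := 1610612736) (W2 := 536870912) (P3 := 991146299) (W3 := 28908434) (N0 := 3) (En := eng) (mo := mog) (C1 := cd1q1) (C2 := cd2q3) (C3 := pd3)
    rfl k0_mm_133

noncomputable def f_mm_202_aa : ℕ → ℕ → ℕ → ℕ → Bool := onCell 0 536870912 0 536870912 991146299 28908434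
    (rowB 3 eng mog cd1q2a cd2q2a pd0 0 false false false .pp 2 0 2 (qsf 0 536870912 0 536870912 0) ndB1q2a ndB2q2a pcB0 Cut.none Ext.none)

def k0_mm_202_aa : ∃ t, chk3 f_mm_202_aa t 1 1 1 = true :=
  ⟨(l 3), by decide +kernel⟩

theorem c_mm_202_aa : CertB 0 536870912 0 536870912 991146299 28908434 3 eng mog cd1q2a cd2q2a pd0 false false false .pp 2 0 2
    ndB1q2a ndB2q2a pcB0 Cut.none Ext.none :=
  certB0 (fam := false) (s1 := false) (s2 := false) (a := 2) (b := 0) (c := 2) (cn := .pp) (n1 := ndB1q2a) (n2 := ndB2q2a) (pc := pcB0) (cut := Cut.none) (xt := Ext.none) (P1 := 0) (W1 := 536870912) (P2 := 0) (W2 := 536870912) (P3 := 991146299) (W3 := 28908434) (N0 := 3) (En := eng) (mo := mog) (C1 := cd1q2a) (C2 := cd2q2a) (C3 := pd0)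
    rfl k0_mm_202_aa

noncomputable def f_mm_202_ab : ℕ → ℕ → ℕ → ℕ → Bool := onCell 0 536870912 1239849684 370763052 991146299 28908434
    (rowB 3 eng mog cd1q2a cd2q2b pd0 0 false false false .pp 2 0 2 (qsf 0 536870912 1239849684 370763052 0) ndB1q2a ndB2q2b pcB0 Cut.none Ext.none)

def k0_mm_202_ab : ∃ t, chk3 f_mm_202_ab t 1 1 1 = true :=
  ⟨(l 3), by decide +kernel⟩

theorem c_mm_202_ab : CertB 0 536870912 1239849684 370763052 991146299 28908434 3 eng mog cd1q2a cd2q2b pd0 false false false .pp 2 0 2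
    ndB1q2a ndB2q2b pcB0 Cut.none Ext.none :=
  certB0 (fam := false) (s1 := false) (s2 := false) (a := 2) (b := 0) (c := 2) (cn := .pp) (n1 := ndB1q2a) (n2 := ndB2q2b) (pc := pcB0) (cut := Cut.none) (xt := Ext.none) (P1 := 0) (W1 := 536870912) (P2 := 1239849684) (W2 := 370763052) (P3 := 991146299) (W3 := 28908434) (N0 := 3) (En := eng) (mo := mog) (C1 := cd1q2a) (C2 := cd2q2b) (C3 := pd0)
    rfl k0_mm_202_ab

noncomputable def f_mm_202_ba : ℕ → ℕ → ℕ → ℕ → Bool := onCell 1239849684 370763052 0 536870912 991146299 28908434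
    (rowB 3 eng mog cd1q2b cd2q2a pd0 0 false false false .pp 2 0 2 (qsf 1239849684 370763052 0 536870912 0) ndB1q2b ndB2q2a pcB0 Cut.none Ext.none)

def k0_mm_202_ba : ∃ t, chk3 f_mm_202_ba t 1 1 1 = true :=
  ⟨(l 3), by decide +kernel⟩

theorem c_mm_202_ba : CertB 1239849684 370763052 0 536870912 991146299 28908434 3 eng mog cd1q2b cd2q2a pd0 false false false .pp 2 0 2
    ndB1q2b ndB2q2a pcB0 Cut.none Ext.none :=
  certB0 (fam := false) (s1 := false) (s2 := false) (a := 2) (b := 0) (c := 2) (cn := .pp) (n1 := ndB1q2b) (n2 := ndB2q2a) (pc := pcB0) (cut := Cut.none) (xt := Ext.none) (P1 := 1239849684) (W1 := 370763052) (P2 := 0) (W2 := 536870912) (P3 := 991146299) (W3 := 28908434) (N0 := 3) (En := eng) (mo := mog) (C1 := cd1q2b) (C2 := cd2q2a) (C3 := pd0)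
    rfl k0_mm_202_ba

noncomputable def f_mm_202_bb : ℕ → ℕ → ℕ → ℕ → Bool := onCell 1239849684 370763052 1239849684 370763052 991146299 28908434
    (rowB 3 eng mog cd1q2b cd2q2b pd0 0 false false false .pp 2 0 2 (qsf 1239849684 370763052 1239849684 370763052 0) ndB1q2b ndB2q2b pcB0 Cut.none Ext.none)

def k0_mm_202_bb : ∃ t, chk3 f_mm_202_bb t 1 1 1 = true :=
  ⟨(l 3), by decide +kernel⟩

theorem c_mm_202_bb : CertB 1239849684 370763052 1239849684 370763052 991146299 28908434 3 eng mog cd1q2b cd2q2b pd0 false false false .pp 2 0 2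
    ndB1q2b ndB2q2b pcB0 Cut.none Ext.none :=
  certB0 (fam := false) (s1 := false) (s2 := false) (a := 2) (b := 0) (c := 2) (cn := .pp) (n1 := ndB1q2b) (n2 := ndB2q2b) (pc := pcB0) (cut := Cut.none) (xt := Ext.none) (P1 := 1239849684) (W1 := 370763052) (P2 := 1239849684) (W2 := 370763052) (P3 := 991146299) (W3 := 28908434) (N0 := 3) (En := eng) (mo := mog) (C1 := cd1q2b) (C2 := cd2q2b) (C3 := pd0)
    rfl k0_mm_202_bb

noncomputable def f_mm_203_a : ℕ → ℕ → ℕ → ℕ → Bool := onCell 0 536870912 0 536870912 991146299 28908434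
    (rowB 3 eng mog cd1q2a cd2q3 pd0 1 false false false .up 2 0 3 (qsf 0 536870912 1610612736 536870912 0) ndB1q2a ndB2q3 pcB0 Cut.none Ext.none)

def k0_mm_203_a : ∃ t, chk3 f_mm_203_a t 1 1 1 = true :=
  ⟨(l 3), by decide +kernel⟩

theorem c_mm_203_a : CertB 0 536870912 1610612736 536870912 991146299 28908434 3 eng mog cd1q2a cd2q3 pd0 false false false .up 2 0 3
    ndB1q2a ndB2q3 pcB0 Cut.none Ext.none :=
  certB1 (fam := false) (s1 := false) (s2 := false) (a := 2) (b := 0) (c := 3) (cn := .up) (n1 := ndB1q2a) (n2 := ndB2q3) (pc := pcB0) (cut := Cut.none) (xt := Ext.none) (P1 := 0) (W1 := 536870912) (P2 := 1610612736) (W2 := 536870912) (P3 := 991146299) (W3 := 28908434) (N0 := 3) (En := eng) (mo := mog) (C1 := cd1q2a) (C2 := cd2q3) (C3 := pd0)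
    rfl (fun _ => rfl) k0_mm_203_a

noncomputable def f_mm_203_b : ℕ → ℕ → ℕ → ℕ → Bool := onCell 1239849684 370763052 1610612736 536870912 991146299 28908434
    (rowB 3 eng mog cd1q2b cd2q3 pd0 0 false false false .up 2 0 3 (qsf 1239849684 370763052 1610612736 536870912 0) ndB1q2b ndB2q3 pcB0 Cut.none Ext.none)

def k0_mm_203_b : ∃ t, chk3 f_mm_203_b t 1 1 1 = true :=
  ⟨(l 3), by decide +kernel⟩

theorem c_mm_203_b : CertB 1239849684 370763052 1610612736 536870912 991146299 28908434 3 eng mog cd1q2b cd2q3 pd0 false false false .up 2 0 3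
    ndB1q2b ndB2q3 pcB0 Cut.none Ext.none :=
  certB0 (fam := false) (s1 := false) (s2 := false) (a := 2) (b := 0) (c := 3) (cn := .up) (n1 := ndB1q2b) (n2 := ndB2q3) (pc := pcB0) (cut := Cut.none) (xt := Ext.none) (P1 := 1239849684) (W1 := 370763052) (P2 := 1610612736) (W2 := 536870912) (P3 := 991146299) (W3 := 28908434) (N0 := 3) (En := eng) (mo := mog) (C1 := cd1q2b) (C2 := cd2q3) (C3 := pd0)
    rfl k0_mm_203_b

noncomputable def f_mm_213_a : ℕ → ℕ → ℕ → ℕ → Bool := onCell 0 536870912 1610612736 536870912 991146299 28908434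
    (rowB 3 eng mog cd1q2a cd2q3 pd1 0 false false false .pnn 2 1 3 (qsf 0 536870912 1610612736 536870912 1) ndB1q2a ndB2q3 pcB1 Cut.none Ext.none)

def k0_mm_213_a : ∃ t, chk3 f_mm_213_a t 1 1 1 = true :=
  ⟨(a (l 3) (l 5)), by decide +kernel⟩

theorem c_mm_213_a : CertB 0 536870912 1610612736 536870912 991146299 28908434 3 eng mog cd1q2a cd2q3 pd1 false false false .pnn 2 1 3
    ndB1q2a ndB2q3 pcB1 Cut.none Ext.none :=
  certB0 (fam := false) (s1 := false) (s2 := false) (a := 2) (b := 1) (c := 3) (cn := .pnn) (n1 := ndB1q2a) (n2 := ndB2q3) (pc := pcB1) (cut := Cut.none) (xt := Ext.none) (P1 := 0) (W1 := 536870912) (P2 := 1610612736) (W2 := 536870912) (P3 := 991146299) (W3 := 28908434) (N0 := 3) (En := eng) (mo := mog) (C1 := cd1q2a) (C2 := cd2q3) (C3 := pd1)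
    rfl k0_mm_213_a

noncomputable def f_mm_213_b : ℕ → ℕ → ℕ → ℕ → Bool := onCell 1239849684 370763052 1610612736 536870912 991146299 28908434
    (rowB 3 eng mog cd1q2b cd2q3 pd1 0 false false false .pnn 2 1 3 (qsf 1239849684 370763052 1610612736 536870912 1) ndB1q2b ndB2q3 pcB1 Cut.none Ext.none)

def k0_mm_213_b : ∃ t, chk3 f_mm_213_b t 1 1 1 = true :=
  ⟨(l 3), by decide +kernel⟩

theorem c_mm_213_b : CertB 1239849684 370763052 1610612736 536870912 991146299 28908434 3 eng mog cd1q2b cd2q3 pd1 false false false .pnn 2 1 3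
    ndB1q2b ndB2q3 pcB1 Cut.none Ext.none :=
  certB0 (fam := false) (s1 := false) (s2 := false) (a := 2) (b := 1) (c := 3) (cn := .pnn) (n1 := ndB1q2b) (n2 := ndB2q3) (pc := pcB1) (cut := Cut.none) (xt := Ext.none) (P1 := 1239849684) (W1 := 370763052) (P2 := 1610612736) (W2 := 536870912) (P3 := 991146299) (W3 := 28908434) (N0 := 3) (En := eng) (mo := mog) (C1 := cd1q2b) (C2 := cd2q3) (C3 := pd1)
    rfl k0_mm_213_b

noncomputable def f_mm_303 : ℕ → ℕ → ℕ → ℕ → Bool := onCell 1610612736 536870912 1610612736 536870912 991146299 28908434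
    (rowB 3 eng mog cd1q3 cd2q3 pd0 0 false false false .npn 3 0 3 (qsf 1610612736 536870912 1610612736 536870912 0) ndB1q3 ndB2q3 pcB0 Cut.none Ext.none)

def k0_mm_303 : ∃ t, chk3 f_mm_303 t 1 1 1 = true :=
  ⟨(l 3), by decide +kernel⟩

theorem c_mm_303 : CertB 1610612736 536870912 1610612736 536870912 991146299 28908434 3 eng mog cd1q3 cd2q3 pd0 false false false .npn 3 0 3
    ndB1q3 ndB2q3 pcB0 Cut.none Ext.none :=
  certB0 (fam := false) (s1 := false) (s2 := false) (a := 3) (b := 0) (c := 3) (cn := .npn) (n1 := ndB1q3) (n2 := ndB2q3) (pc := pcB0) (cut := Cut.none) (xt := Ext.none) (P1 := 1610612736) (W1 := 536870912) (P2 := 1610612736) (W2 := 536870912) (P3 := 991146299) (W3 := 28908434) (N0 := 3) (En := eng) (mo := mog) (C1 := cd1q3) (C2 := cd2q3) (C3 := pd0)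
    rfl k0_mm_303

noncomputable def f_mm_313 : ℕ → ℕ → ℕ → ℕ → Bool := onCell 1610612736 536870912 1610612736 536870912 991146299 28908434
    (rowB 3 eng mog cd1q3 cd2q3 pd1 0 false false false .dn 3 1 3 (qsf 1610612736 536870912 1610612736 536870912 1) ndB1q3 ndB2q3 pcB1 Cut.none Ext.none)

def k0_mm_313 : ∃ t, chk3 f_mm_313 t 1 1 1 = true :=
  ⟨(l 3), by decide +kernel⟩

theorem c_mm_313 : CertB 1610612736 536870912 1610612736 536870912 991146299 28908434 3 eng mog cd1q3 cd2q3 pd1 false false false .dn 3 1 3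
    ndB1q3 ndB2q3 pcB1 Cut.none Ext.none :=
  certB0 (fam := false) (s1 := false) (s2 := false) (a := 3) (b := 1) (c := 3) (cn := .dn) (n1 := ndB1q3) (n2 := ndB2q3) (pc := pcB1) (cut := Cut.none) (xt := Ext.none) (P1 := 1610612736) (W1 := 536870912) (P2 := 1610612736) (W2 := 536870912) (P3 := 991146299) (W3 := 28908434) (N0 := 3) (En := eng) (mo := mog) (C1 := cd1q3) (C2 := cd2q3) (C3 := pd1)
    rfl k0_mm_313

end Pool.Agent.Strip051.G.I9231_9500.Tab.C.BB12

namespace Pool.Agent.Strip051.G.I9231_9500.Tab.C.BB13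

open Pool.Agent.Strip051.PB Pool.Agent.Strip051.PB.T
open Pool.Agent.Strip051.G.I9231_9500.Tab

noncomputable def f_pp_001 : ℕ → ℕ → ℕ → ℕ → Bool := onCell 0 536870912 0 536870912 991146299 28908434
    (rowB 3 eng mog cd1q0 cd3q1 pd0 1 false true true .up 0 0 1 (qsf 0 536870912 536870912 536870912 0) ndB1q0 ndB3q1 pcB0 Cut.none Ext.none)

def k0_pp_001 : ∃ t, chk3 f_pp_001 t 1 1 1 = true :=
  ⟨(l 3), by decide +kernel⟩

theorem c_pp_001 : CertB 0 536870912 536870912 536870912 991146299 28908434 3 eng mog cd1q0 cd3q1 pd0 false true true .up 0 0 1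
    ndB1q0 ndB3q1 pcB0 Cut.none Ext.none :=
  certB1 (fam := false) (s1 := true) (s2 := true) (a := 0) (b := 0) (c := 1) (cn := .up) (n1 := ndB1q0) (n2 := ndB3q1) (pc := pcB0) (cut := Cut.none) (xt := Ext.none) (P1 := 0) (W1 := 536870912) (P2 := 536870912) (W2 := 536870912) (P3 := 991146299) (W3 := 28908434) (N0 := 3) (En := eng) (mo := mog) (C1 := cd1q0) (C2 := cd3q1) (C3 := pd0)
    rfl (fun _ => rfl) k0_pp_001

noncomputable def cut_pp_011 : Cut := Cut.of [[⟨0, 0, 0, 53687091⟩, ⟨1, 1, 0, 53687091⟩, ⟨2, 1, 0, 53687091⟩]]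

noncomputable def f_pp_011 : ℕ → ℕ → ℕ → ℕ → Bool := onCell 0 536870912 536870912 536870912 991146299 28908434
    (rowB 3 eng mog cd1q0 cd3q1 pd1 1 false true true .pnn 0 1 1 (qsf 0 536870912 536870912 536870912 1) ndB1q0 ndB3q1 pcB1 cut_pp_011 Ext.none)

def k0_pp_011 : ∃ t, chk3 f_pp_011 t 1 1 1 = true :=
  ⟨(b (l 3) (b (l 3) (b (l 3) (a (a (a (b (l 3) (a (l 6) (l 3))) (l 3)) (l 2)) (l 2))))), by decide +kernel⟩

theorem c_pp_011 : CertB 0 536870912 536870912 536870912 991146299 28908434 3 eng mog cd1q0 cd3q1 pd1 false true true .pnn 0 1 1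
    ndB1q0 ndB3q1 pcB1 cut_pp_011 Ext.none :=
  certB1 (fam := false) (s1 := true) (s2 := true) (a := 0) (b := 1) (c := 1) (cn := .pnn) (n1 := ndB1q0) (n2 := ndB3q1) (pc := pcB1) (cut := cut_pp_011) (xt := Ext.none) (P1 := 0) (W1 := 536870912) (P2 := 536870912) (W2 := 536870912) (P3 := 991146299) (W3 := 28908434) (N0 := 3) (En := eng) (mo := mog) (C1 := cd1q0) (C2 := cd3q1) (C3 := pd1)
    rfl (fun _ => rfl) k0_pp_011

noncomputable def f_pp_012 : ℕ → ℕ → ℕ → ℕ → Bool := onCell 0 536870912 536870912 536870912 991146299 28908434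
    (rowB 3 eng mog cd1q0 cd3q2 pd1 1 false true true .pnp 0 1 2 (qsf 0 536870912 1073741824 536870912 1) ndB1q0 ndB3q2 pcB1 Cut.none Ext.none)

def k0_pp_012 : ∃ t, chk3 f_pp_012 t 1 1 1 = true :=
  ⟨(b (l 3) (b (l 3) (b (l 3) (a (l 3) (b (l 3) (b (a (l 3) (a (l 3) (a (l 234241291975) (l 142436307767)))) (a (a (l 3) (c (a (l 15609568) (l 15543224)) (l 203102440695))) (a (c (a (l 15486712) (l 15440000)) (l 104318398535)) (a (l 15400968) (l 15329656)))))))))), by decide +kernel⟩

theorem c_pp_012 : CertB 0 536870912 1073741824 536870912 991146299 28908434 3 eng mog cd1q0 cd3q2 pd1 false true true .pnp 0 1 2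
    ndB1q0 ndB3q2 pcB1 Cut.none Ext.none :=
  certB1 (fam := false) (s1 := true) (s2 := true) (a := 0) (b := 1) (c := 2) (cn := .pnp) (n1 := ndB1q0) (n2 := ndB3q2) (pc := pcB1) (cut := Cut.none) (xt := Ext.none) (P1 := 0) (W1 := 536870912) (P2 := 1073741824) (W2 := 536870912) (P3 := 991146299) (W3 := 28908434) (N0 := 3) (En := eng) (mo := mog) (C1 := cd1q0) (C2 := cd3q2) (C3 := pd1)
    rfl (fun _ => rfl) k0_pp_012

noncomputable def f_pp_022 : ℕ → ℕ → ℕ → ℕ → Bool := onCell 0 536870912 1073741824 536870912 991146299 28908434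
    (rowB 3 eng mog cd1q0 cd3q2 pd2 1 false true true .pp 0 2 2 (qsf 0 536870912 1073741824 536870912 2) ndB1q0 ndB3q2 pcB2 Cut.none Ext.none)

def k0_pp_022 : ∃ t, chk3 f_pp_022 t 2 8 1 = true :=
  ⟨(a (b (l 3) (a (b (l 3) (b (b (a (l 3) (a (l 16559040) (l 16509192))) (a (a (l 3) (l 721184832263)) (a (l 16538152) (l 16510320)))) (a (a (a (b (l 3) (c (l 16479872) (l 139753475927))) (c (l 156396628791) (b (l 16510400) (l 16495568)))) (c (l 16513400) (l 123110572775))) (a (b (l 16551512) (l 16537160)) (b (l 16511272) (l 16491936)))))) (b (a (b (l 3) (c (l 627768991031) (l 642801414439))) (b (c (l 246053841239) (l 522005188023)) (a (c (l 16358792) (l 16375792)) (c (l 16298432) (l 16310560))))) (a (b (c (a (l 16489672) (l 16426704)) (a (l 16498920) (l 16431032))) (a (l 16426408) (l 16448872))) (b (a (l 16334176) (l 16316920)) (l 16362896)))))) (b (a (b (l 3) (b (l 3) (a (c (l 265380873623) (l 277192090151)) (a (l 242832046807) (b (l 16099480) (a (l 16057712) (l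 16030792))))))) (a (b (l 3) (b (c (l 15953176) (l 15929720)) (c (c (b (l 15976144) (l 15983200)) (l 15947872)) (l 15951464)))) (b (c (l 293297638471) (l 365237993271)) (c (b (c (l 15888824) (l 15850712)) (b (l 15872792) (l 15892736))) (b (l 15803816) (l 15824952)))))) (b (b (a (c (a (b (l 16197856) (l 16203656)) (a (l 16117472) (l 16066200))) (a (a (l 16233928) (l 16171576)) (b (l 16076376) (l 16084984)))) (a (a (l 16010616) (l 15963440)) (c (l 15910824) (l 15876208)))) (a (a (c (l 16214472) (l 16215736)) (l 16109216)) (a (l 15990304) (l 15912632)))) (a (a (b (l 16234808) (l 16254624)) (c (l 16146280) (l 16132720))) (a (c (l 16044968) (l 16020944)) (l 15929536)))))), by decide +kernel⟩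

def k1_pp_022 : ∃ t, chk3 f_pp_022 t 3 8 1 = true :=
  ⟨(a (b (a (b (c (a (b (l 3) (l 15770336)) (b (l 15645424) (l 15668184))) (b (l 322824912887) (a (l 15703976) (l 15613200)))) (c (a (b (a (l 15790920) (l 15756848)) (l 15798696)) (l 15810776)) (a (b (l 15726408) (l 15755208)) (l 15655040)))) (b (c (a (b (l 15571016) (l 15597968)) (l 15522728)) (a (l 114519033015) (l 15458080))) (c (l 15602256) (l 15546568)))) (a (b (c (l 15786272) (l 15743296)) (c (l 15809256) (l 15769544))) (c (b (l 15637512) (l 15661280)) (l 15601512)))) (b (a (c (b (l 15508768) (l 15492880)) (b (l 15379816) (l 15434104))) (c (b (l 15377424) (l 15422016)) (b (l 15312856) (l 15364016)))) (a (c (a (l 15564072) (l 15518392)) (l 15550192)) (c (l 15467056) (l 15414200))))), by decide +kernel⟩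

def k2_pp_022 : ∃ t, chk3 f_pp_022 t 2 9 1 = true :=
  ⟨(a (b (a (a (b (a (b (c (c (l 16467016) (l 16428128)) (a (c (l 16457216) (l 16426344)) (l 16451456))) (a (c (b (l 16481928) (l 16466104)) (b (l 16418824) (l 16402712))) (c (b (l 16508920) (l 16490488)) (b (l 16449096) (l 16431568))))) (b (c (b (l 16535320) (l 16521088)) (c (l 16488152) (l 16460744))) (c (l 16473408) (l 16420776)))) (a (c (b (a (l 16435904) (l 16460384)) (a (l 16395992) (l 16420904))) (b (a (l 16374992) (l 16404120)) (l 16311432))) (c (b (l 16475648) (l 16457784)) (l 16324328)))) (b (b (a (b (l 16501168) (l 16505488)) (l 16498192)) (b (l 16448368) (l 16450824))) (c (l 16401224) (l 16387336)))) (b (a (a (l 16444816) (l 16428960)) (b (l 16379472) (l 16394912))) (a (a (l 16531520) (l 16463192)) (a (l 16434848) (l 16372504))))) (a (b (a (a (c (b (l 16369512) (l 16331272)) (b (l 16317712) (l 16282656))) (c (l 16337872) (l 16359136))) (a (c (l 16409944) (l 16397416)) (b (l 16503736) (l 16477976))))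 (a (b (a (c (l 16293856) (l 16248208)) (c (l 16350144) (l 16312544))) (a (c (a (l 16248648) (l 16281016)) (a (l 16203728) (l 16239952))) (l 16316352))) (a (b (l 16396840) (l 16388328)) (l 16461232)))) (a (b (a (l 16508592) (l 16487680)) (l 16467872)) (b (l 16387352) (l 16356384))))) (b (a (b (a (c (l 16276144) (l 16272552)) (l 16157584)) (a (l 16276928) (l 16155680))) (c (b (l 16004896) (l 16004424)) (b (l 15978816) (l 15977976)))) (a (b (a (l 16259928) (l 16141408)) (a (l 16232520) (l 16117448))) (b (l 16043792) (l 15961904))))), by decide +kernel⟩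

def k3_pp_022 : ∃ t, chk3 f_pp_022 t 3 9 1 = true :=
  ⟨(a (b (a (c (l 15823440) (l 15784760)) (c (l 15762552) (l 15610336))) (a (b (l 15799432) (l 15786616)) (c (l 15698752) (l 15604608)))) (b (a (c (l 15570664) (l 15518552)) (c (l 15498264) (l 15445120))) (a (a (l 15570928) (l 15528192)) (l 2)))), by decide +kernel⟩

def k4_pp_022 : ∃ t, chk3 f_pp_022 t 4 10 1 = true :=
  ⟨(b (b (a (b (a (a (a (l 16216960) (l 16255456)) (l 16311536)) (l 16333744)) (a (a (c (l 16255152) (l 16217280)) (l 16310792)) (l 16331664))) (a (l 16378848) (l 16313896))) (a (a (b (a (c (a (l 16242008) (l 16277416)) (b (l 16221744) (l 16227656))) (l 16273688)) (b (a (c (l 16206416) (a (l 16218504) (l 16256856))) (l 16303984)) (b (a (b (c (l 16277080) (l 16247016)) (a (c (l 16266552) (l 16235352)) (l 16286704))) (l 16273432)) (a (a (b (c (b (b (l 16272584) (b (l 16276304) (c (l 16266000) (a (l 16242728) (l 16280872))))) (l 16280696)) (b (b (l 16241944) (b (l 16224936) (b (b (l 16227832)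 (a (l 16220296) (l 16259832))) (l 16230288)))) (l 16229736))) (c (l 16278912) (l 16228256))) (b (b (b (l 16292696) (c (l 16290096) (c (l 16291304) (l 16277632)))) (l 16300720)) (l 16299104))) (a (c (l 16318960) (l 16275280)) (l 16320232)))))) (b (l 16313416) (b (l 16320328) (b (l 16329584) (c (l 16363144) (l 16331904)))))) (b (a (l 16397264) (l 16273704)) (a (b (l 16368336) (b (l 16347808) (l 16290720))) (b (l 16247600) (b (l 16229080) (l 16215440))))))) (a (c (a (a (b (a (a (b (l 16238920) (l 16220336)) (l 16267384)) (l 16292248)) (a (b (l 16210784) (l 16214224)) (l 16256672))) (b (l 16319648) (l 16305696))) (l 16288960)) (a (a (b (a (b (c (l 16247552) (l 16212256)) (a (l 16205272) (l 16234504))) (l 16248744)) (a (b (a (l 16179920) (l 16219752)) (l 16196016)) (l 16240528))) (b (l 16302560) (l 16294912))) (a (l 16336160) (l 16392280)))) (a (a (l 16310000) (l 16271992)) (l 16124424)))), by decide +kernel⟩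

def k5_pp_022 : ∃ t, chk3 f_pp_022 t 5 10 1 = true :=
  ⟨(b (b (a (a (l 16194536) (l 16083880)) (c (l 15952904) (l 15916224))) (a (b (l 15978624) (b (l 16082520) (b (l 16066968) (a (l 16106552) (l 16006216))))) (b (l 15909064) (b (l 15892504) (b (l 15880824) (l 15872272)))))) (a (a (l 16081728) (l 15984584)) (a (l 15896048) (l 15816224)))), by decide +kernel⟩

def k6_pp_022 : ∃ t, chk3 f_pp_022 t 2 11 1 = true :=
  ⟨(a (a (c (b (a (a (b (a (c (l 16192160) (l 16185560)) (l 16223024)) (a (a (l 16127032) (l 16165488)) (l 16191296))) (b (l 16272632) (l 16241408))) (l 16224760)) (a (a (b (b (l 16109528) (l 16095032)) (a (l 16098512) (l 16133608))) (l 16114264)) (l 16188216))) (b (a (a (b (a (b (l 16182160) (l 16168784)) (l 16213192)) (a (b (l 16155896) (l 16143496)) (l 16187736))) (b (l 16268064) (l 16243008))) (l 16231792)) (a (a (b (a (l 16125840) (l 16164160)) (a (l 16103944) (l 16142448))) (l 16145992)) (l 16198320)))) (a (c (b (l 16214072) (l 16156416)) (b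 (l 16213576) (l 16143368))) (b (l 16073928) (l 15994288)))) (a (b (a (l 16036416) (l 15944288)) (a (l 15982736) (l 15895408))) (b (a (l 15860568) (l 15785312)) (a (l 15816264) (l 15745304))))), by decide +kernel⟩

def k7_pp_022 : ∃ t, chk3 f_pp_022 t 3 5 1 = true :=
  ⟨(b (a (b (b (a (l 15767480) (l 15678744)) (b (a (l 15749536) (l 15626088)) (a (b (l 15738160) (c (l 15735264) (l 15698544))) (b (l 15619640) (b (l 15615368) (l 15612376)))))) (a (c (l 15744592) (l 15680432)) (a (l 15629296) (l 15668512)))) (b (b (a (l 15603928) (l 2)) (l 2)) (l 2))) (a (a (b (c (l 15725112) (l 15649416)) (c (l 15684376) (l 15617528))) (b (c (l 15645144) (l 15561824)) (l 2))) (l 2))), by decide +kernel⟩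

def k8_pp_022 : ∃ t, chk3 f_pp_022 t 2 6 1 = true :=
  ⟨(a (a (c (b (b (a (a (a (b (l 16072312) (l 16048032)) (l 16032520)) (l 16083680)) (l 16127952)) (a (a (b (l 15980576) (l 15980936)) (l 16038952)) (l 16070616))) (a (a (b (b (l 15941048) (l 15923744)) (b (l 15886984) (l 15872608))) (b (l 16000488) (l 15946560))) (b (l 15964176) (a (l 15978384) (l 15933976))))) (b (b (a (a (b (l 16040512) (l 16043432)) (l 16106480)) (l 16136064)) (a (a (b (l 16027192) (l 16012704)) (l 16073640)) (l 16013760))) (b (a (a (a (l 15954080) (l 16013152)) (l 16029816)) (a (l 16016080) (l 15983440))) (a (b (a (l 15958000) (l 16012216)) (a (l 15927328) (l 15956432))) (b (l 15869320) (l 15836264)))))) (b (a (c (b (l 16111768) (l 16038464)) (b (l 16086176) (l 16000248))) (b (l 15885568) (c (l 15971392) (l 15900720)))) (c (b (a (l 15957848) (l 15895424)) (a (l 15870464) (b (l 15832976) (l 15795464)))) (b (a (l 15906888) (l 15811968)) (a (l 15806608) (b (l 15739568) (l 15695272)))))))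 (b (a (b (a (l 15920744) (l 15838000)) (a (l 15850648) (b (l 15789760) (l 15753912)))) (b (a (l 15763176) (b (l 15708968) (l 15689280))) (a (c (l 15758120) (l 15659888)) (l 15730416)))) (a (c (b (a (l 15818040) (l 15762880)) (a (l 15758296) (l 15711960))) (b (a (l 15723808) (l 15659160)) (a (l 15649816) (l 15591440)))) (b (c (l 15700976) (l 15582376)) (l 2))))), by decide +kernel⟩

def k9_pp_022 : ∃ t, chk3 f_pp_022 t 4 7 1 = true :=
  ⟨(b (a (b (a (b (c (a (l 15838528) (l 15949000)) (a (l 15889880) (l 15899192))) (a (c (l 15826568) (l 15822248)) (c (l 15917872) (l 15819608)))) (c (c (a (l 15919128) (l 15878760)) (l 15753672)) (a (l 15755904) (l 15769848)))) (a (c (b (a (l 15824232) (l 15843576)) (a (a (l 15821440) (l 15820808)) (a (l 15820568) (l 15756928)))) (a (b (c (l 15830944) (l 15790568)) (a (l 15719784) (l 15757120))) (b (l 15780712) (a (l 15732048) (l 15706320))))) (c (b (a (l 15779800) (l 15785448)) (a (a (l 15780968) (l 15765368)) (l 15742280)))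 (b (a (l 15730432) (l 15686912)) (a (b (l 15687672) (l 15662048)) (l 15635432)))))) (b (a (b (c (l 15821408) (l 15726328)) (c (l 15781800) (l 15575056))) (c (l 15723104) (b (l 15653784) (l 15609216)))) (a (c (b (l 15741360) (l 15701888)) (b (l 15631008) (l 15582488))) (c (l 15672176) (l 15541704))))) (a (b (b (a (c (a (a (l 15738400) (c (l 15787560) (l 15720984))) (b (a (l 15778760) (l 15762416)) (l 15663856))) (a (a (l 15614408) (b (l 15710120) (l 15678304))) (a (b (l 15685056) (l 15657800)) (l 15651656)))) (c (a (l 15728232) (l 15700232)) (a (l 15621352) (l 15584432)))) (a (c (b (a (a (c (l 15764088) (l 15720800)) (l 15684416)) (l 15723904)) (a (c (l 15754224) (l 15728944)) (l 15700816))) (a (b (a (c (l 15695496) (l 15646416)) (l 15650464)) (c (l 15658560) (l 15606192))) (l 15647808))) (c (l 15607192) (l 15549632)))) (b (a (c (a (c (l 15719072) (l 15627696)) (l 15665560)) (a (c (l 15616784) (l 15560744)) (l 15550000))) (c (l 15624824) (l 15495064))) (a (c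 (a (a (l 15569256) (l 15638624)) (l 15617632)) (c (l 15585072) (l 15479672))) (l 2)))) (a (b (c (l 15640288) (l 15506952)) (l 2)) (l 2)))), by decide +kernel⟩

def k10_pp_022 : ∃ t, chk3 f_pp_022 t 5 7 1 = true :=
  ⟨(b (a (b (c (l 15549728) (a (l 15570176) (l 2))) (l 2)) (l 2)) (l 2)), by decide +kernel⟩

def k11_pp_022 : ∃ t, chk3 f_pp_022 t 3 3 1 = true :=
  ⟨(b (a (b (a (b (a (l 15656232) (l 2)) (l 2)) (l 2)) (l 2)) (l 2)) (l 2)), by decide +kernel⟩

theorem s12_pp_022 : ∃ t, chk3 f_pp_022 t 2 7 1 = true := ex3_a k9_pp_022 k10_pp_022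

theorem s13_pp_022 : ∃ t, chk3 f_pp_022 t 2 3 1 = true := ex3_b k8_pp_022 s12_pp_022

theorem s14_pp_022 : ∃ t, chk3 f_pp_022 t 1 3 1 = true := ex3_a s13_pp_022 k11_pp_022

theorem s15_pp_022 : ∃ t, chk3 f_pp_022 t 2 10 1 = true := ex3_a k4_pp_022 k5_pp_022

theorem s16_pp_022 : ∃ t, chk3 f_pp_022 t 2 5 1 = true := ex3_b s15_pp_022 k6_pp_022

theorem s17_pp_022 : ∃ t, chk3 f_pp_022 t 1 5 1 = true := ex3_a s16_pp_022 k7_pp_022

theorem s18_pp_022 : ∃ t, chk3 f_pp_022 t 1 9 1 = true := ex3_a k2_pp_022 k3_pp_022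

theorem s19_pp_022 : ∃ t, chk3 f_pp_022 t 1 8 1 = true := ex3_a k0_pp_022 k1_pp_022

theorem s20_pp_022 : ∃ t, chk3 f_pp_022 t 1 4 1 = true := ex3_b s19_pp_022 s18_pp_022

theorem s21_pp_022 : ∃ t, chk3 f_pp_022 t 1 2 1 = true := ex3_b s20_pp_022 s17_pp_022

theorem s22_pp_022 : ∃ t, chk3 f_pp_022 t 1 1 1 = true := ex3_b s21_pp_022 s14_pp_022

theorem c_pp_022 : CertB 0 536870912 1073741824 536870912 991146299 28908434 3 eng mog cd1q0 cd3q2 pd2 false true true .pp 0 2 2
    ndB1q0 ndB3q2 pcB2 Cut.none Ext.none :=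
  certB1 (fam := false) (s1 := true) (s2 := true) (a := 0) (b := 2) (c := 2) (cn := .pp) (n1 := ndB1q0) (n2 := ndB3q2) (pc := pcB2) (cut := Cut.none) (xt := Ext.none) (P1 := 0) (W1 := 536870912) (P2 := 1073741824) (W2 := 536870912) (P3 := 991146299) (W3 := 28908434) (N0 := 3) (En := eng) (mo := mog) (C1 := cd1q0) (C2 := cd3q2) (C3 := pd2)
    rfl (fun _ => rfl) s22_pp_022

noncomputable def f_pp_023 : ℕ → ℕ → ℕ → ℕ → Bool := onCell 1073741824 536870912 0 1230186008 991146299 28908434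
    (rowB 3 eng mog cd1q0 cd3q3 pd2 2 false true true .up 0 2 3 (qsf 0 536870912 0 1230186008 2) ndB1q0 ndB3q3 pcB2 Cut.none Ext.none)

def k0_pp_023 : ∃ t, chk3 f_pp_023 t 2 1 1 = true :=
  ⟨(b (l 2) (b (a (l 2) (b (l 2) (a (l 2) (b (l 2) (l 15648216))))) (b (a (l 2) (a (b (l 134852464295) (c (l 15597504) (l 15661472))) (b (l 15643200) (c (l 15643200) (l 15683608))))) (b (a (a (l 2) (a (b (l 2) (l 15583616)) (b (l 15586120) (l 15366328)))) (a (b (c (l 15607168) (l 15691368)) (a (a (l 15644672) (a (l 15659072) (a (l 15666488) (l 15671256)))) (l 15693224))) (c (l 15681848) (l 15753248)))) (a (b (a (a (l 2) (l 15437240)) (a (l 15640328) (l 15680120))) (a (a (c (l 15491504) (l 15615448)) (c (l 15581992) (l 15715712))) (a (l 15608576) (l 15697456)))) (a (a (a (b (l 15703088) (l 15786024)) (a (b (l 15713280) (l 15796064)) (a (b (l 15717528) (l 15799992)) (b (a (l 15719816) (l 15721904)) (l 15676704))))) (b (l 15636632) (l 15820120))) (c (b (l 15742760) (l 15725560))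 (b (l 15837160) (l 15876000))))))))), by decide +kernel⟩

def k1_pp_023 : ∃ t, chk3 f_pp_023 t 3 1 1 = true :=
  ⟨(a (b (l 2) (b (b (a (l 2) (l 15519768)) (a (c (l 15639816) (l 15572576)) (b (l 15518904) (l 15531464)))) (b (a (b (l 15619544) (a (l 15662128) (l 15650800))) (b (l 15561936) (a (l 15630736) (l 15602512)))) (b (a (c (l 15709016) (l 15757784)) (c (l 15698336) (l 15661880))) (a (c (b (l 15780928) (l 15704200)) (a (l 15813992) (l 15752736))) (c (b (l 15781432) (l 15666664)) (b (l 15838968) (l 15849664)))))))) (b (b (a (l 2) (a (l 2) (l 15421984))) (b (b (a (l 2) (a (l 15259784) (l 15286656))) (a (l 15386232) (a (l 15254344) (l 15199360)))) (b (a (l 15382744) (l 15213416)) (a (l 15381040) (l 15219224))))) (b (b (a (l 15280872) (l 15027616)) (a (b (l 15403528) (l 15429952)) (b (l 15270256) (l 15308128)))) (b (a (b (l 15475224) (c (l 15567408) (l 15527800))) (b (l 15114120) (c (l 15480680) (l 15421608)))) (b (a (c (b (l 15626256) (l 15679368)) (b (l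 15621296) (l 15698240))) (c (b (l 15547416) (l 15605808)) (b (l 15527024) (l 15570280)))) (a (c (b (l 15682048) (a (l 15835064) (l 15810816))) (b (l 15787856) (a (l 15904096) (l 15875336)))) (c (b (a (l 15695384) (l 15654096)) (a (b (l 15755832) (l 15801088)) (b (l 15715976) (b (l 15749992) (l 15669136))))) (b (a (l 15730528) (l 15686184)) (a (l 15651280) (c (l 15562128) (l 15544480))))))))))), by decide +kernel⟩

theorem s2_pp_023 : ∃ t, chk3 f_pp_023 t 1 1 1 = true := ex3_a k0_pp_023 k1_pp_023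

theorem c_pp_023 : CertB 0 536870912 0 1230186008 991146299 28908434 3 eng mog cd1q0 cd3q3 pd2 false true true .up 0 2 3
    ndB1q0 ndB3q3 pcB2 Cut.none Ext.none :=
  certB2 (fam := false) (s1 := true) (s2 := true) (a := 0) (b := 2) (c := 3) (cn := .up) (n1 := ndB1q0) (n2 := ndB3q3) (pc := pcB2) (cut := Cut.none) (xt := Ext.none) (P1 := 0) (W1 := 536870912) (P2 := 0) (W2 := 1230186008) (P3 := 991146299) (W3 := 28908434) (N0 := 3) (En := eng) (mo := mog) (C1 := cd1q0) (C2 := cd3q3) (C3 := pd2)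
    rfl (fun _ => rfl) s2_pp_023

noncomputable def f_pp_033 : ℕ → ℕ → ℕ → ℕ → Bool := onCell 1610612736 536870912 0 1230186008 991146299 28908434
    (rowB 3 eng mog cd1q0 cd3q3 pd3 2 false true true .pnn 0 3 3 (qsf 0 536870912 0 1230186008 3) ndB1q0 ndB3q3 pcB3 Cut.none Ext.none)

def k0_pp_033 : ∃ t, chk3 f_pp_033 t 1 2 1 = true :=
  ⟨(b (a (a (a (l 16242280) (l 16344976)) (a (b (l 4) (l 16291824)) (l 4))) (l 4)) (a (b (a (b (a (l 16088104) (l 16178520)) (a (l 15984392) (l 16071720))) (b (a (l 16219568) (l 4)) (a (l 16114808) (l 15870760)))) (a (b (a (l 15888112) (l 15941968)) (a (l 15823520) (l 15797376))) (a (b (l 15997752) (l 15857712)) (b (l 15809584) (l 15802392))))) (b (l 4) (a (l 4) (l 4))))), by decide +kernel⟩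

def k1_pp_033 : ∃ t, chk3 f_pp_033 t 1 6 1 = true :=
  ⟨(a (a (b (a (l 15766816) (b (l 15693240) (l 15631392))) (a (b (l 15735392) (l 15724656)) (b (l 15593424) (l 15576840)))) (a (b (b (l 15711264) (l 15562560)) (b (a (l 15493192) (l 15445568)) (l 15390328))) (b (a (l 15626328) (l 15557384)) (b (a (l 15415568) (l 15370216)) (a (l 15144128) (b (l 15290472) (l 15103672))))))) (b (a (a (a (b (l 15521568) (l 15362792)) (b (l 4) (l 15200776))) (l 4)) (a (l 4) (l 1))) (a (a (b (a (l 15214256) (l 15023360)) (a (b (l 15122672) (l 677024362199)) (l 810705230487))) (a (b (a (l 14871976) (l 1)) (l 1)) (l 1))) (l 1)))), by decide +kernel⟩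

def k2_pp_033 : ∃ t, chk3 f_pp_033 t 1 7 1 = true :=
  ⟨(a (b (a (a (b (l 15665040) (c (l 15640864) (l 15672288))) (b (c (l 15534480) (l 15615904)) (b (a (l 15623176) (l 15543272)) (a (l 15554448) (l 15279520))))) (a (b (a (l 15374208) (b (l 15383128) (l 15380408))) (b (a (l 15379392) (l 279203055767)) (a (c (l 15375920) (l 15311624)) (c (l 399998955063) (l 502541412663))))) (b (a (b (l 15307560) (l 423084323191)) (b (l 15125160) (l 1))) (l 1)))) (a (b (a (b (c (l 15598288) (l 15590640)) (a (c (l 15765112) (l 15613008)) (c (l 15554624) (l 15296016)))) (b (a (c (l 15587848) (l 15486256)) (c (l 235716817415) (l 336111769991))) (a (c (b (l 15558992) (l 242159375831)) (b (l 15347136) (l 198135481639))) (c (l 410199680263) (b (l 350606667543) (l 1)))))) (a (b (c (a (b (l 15702520) (l 15475080)) (b (l 15376840) (c (l 273298209911) (l 175050317079)))) (a (b (l 15505056) (l 15236120)) (b (l 209946767639) (a (l 15133464) (l 344701109991))))) (b (a (c (c (a (l 15662640)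 (l 309268738007)) (l 189546006631)) (c (l 194914477223) (l 200282930439))) (a (b (c (l 509521398215) (l 423621675431)) (l 1)) (l 1))) (a (a (c (c (l 208873578983) (l 222831982663)) (c (l 239474754839) (l 265781534679))) (a (c (l 307657476679) (l 417716012359)) (l 1))) (l 1)))) (a (b (b (c (l 438654107751) (l 350069764855)) (l 1)) (l 1)) (l 1)))) (b (a (b (a (c (l 398388429751) (l 358659632967)) (l 1)) (l 1)) (l 1)) (l 1)))) (l 1)), by decide +kernel⟩

theorem s3_pp_033 : ∃ t, chk3 f_pp_033 t 1 3 1 = true := ex3_b k1_pp_033 k2_pp_033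

theorem s4_pp_033 : ∃ t, chk3 f_pp_033 t 1 1 1 = true := ex3_b k0_pp_033 s3_pp_033

theorem c_pp_033 : CertB 0 536870912 0 1230186008 991146299 28908434 3 eng mog cd1q0 cd3q3 pd3 false true true .pnn 0 3 3
    ndB1q0 ndB3q3 pcB3 Cut.none Ext.none :=
  certB2 (fam := false) (s1 := true) (s2 := true) (a := 0) (b := 3) (c := 3) (cn := .pnn) (n1 := ndB1q0) (n2 := ndB3q3) (pc := pcB3) (cut := Cut.none) (xt := Ext.none) (P1 := 0) (W1 := 536870912) (P2 := 0) (W2 := 1230186008) (P3 := 991146299) (W3 := 28908434) (N0 := 3) (En := eng) (mo := mog) (C1 := cd1q0) (C2 := cd3q3) (C3 := pd3)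
    rfl (fun _ => rfl) s4_pp_033

noncomputable def f_pp_101 : ℕ → ℕ → ℕ → ℕ → Bool := onCell 536870912 536870912 536870912 536870912 991146299 28908434
    (rowB 3 eng mog cd1q1 cd3q1 pd0 0 false true true .npn 1 0 1 (qsf 536870912 536870912 536870912 536870912 0) ndB1q1 ndB3q1 pcB0 Cut.none Ext.none)

def k0_pp_101 : ∃ t, chk3 f_pp_101 t 1 1 1 = true :=
  ⟨(l 3), by decide +kernel⟩

theorem c_pp_101 : CertB 536870912 536870912 536870912 536870912 991146299 28908434 3 eng mog cd1q1 cd3q1 pd0 false true true .npn 1 0 1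
    ndB1q1 ndB3q1 pcB0 Cut.none Ext.none :=
  certB0 (fam := false) (s1 := true) (s2 := true) (a := 1) (b := 0) (c := 1) (cn := .npn) (n1 := ndB1q1) (n2 := ndB3q1) (pc := pcB0) (cut := Cut.none) (xt := Ext.none) (P1 := 536870912) (W1 := 536870912) (P2 := 536870912) (W2 := 536870912) (P3 := 991146299) (W3 := 28908434) (N0 := 3) (En := eng) (mo := mog) (C1 := cd1q1) (C2 := cd3q1) (C3 := pd0)
    rfl k0_pp_101

noncomputable def f_pp_102 : ℕ → ℕ → ℕ → ℕ → Bool := onCell 536870912 536870912 0 536870912 991146299 28908434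
    (rowB 3 eng mog cd1q1 cd3q2 pd0 1 false true true .npp 1 0 2 (qsf 536870912 536870912 1073741824 536870912 0) ndB1q1 ndB3q2 pcB0 Cut.none Ext.none)

def k0_pp_102 : ∃ t, chk3 f_pp_102 t 1 1 1 = true :=
  ⟨(l 3), by decide +kernel⟩

theorem c_pp_102 : CertB 536870912 536870912 1073741824 536870912 991146299 28908434 3 eng mog cd1q1 cd3q2 pd0 false true true .npp 1 0 2
    ndB1q1 ndB3q2 pcB0 Cut.none Ext.none :=
  certB1 (fam := false) (s1 := true) (s2 := true) (a := 1) (b := 0) (c := 2) (cn := .npp) (n1 := ndB1q1) (n2 := ndB3q2) (pc := pcB0) (cut := Cut.none) (xt := Ext.none) (P1 := 536870912) (W1 := 536870912) (P2 := 1073741824) (W2 := 536870912) (P3 := 991146299) (W3 := 28908434) (N0 := 3) (En := eng) (mo := mog) (C1 := cd1q1) (C2 := cd3q2) (C3 := pd0)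
    rfl (fun _ => rfl) k0_pp_102

noncomputable def f_pp_112 : ℕ → ℕ → ℕ → ℕ → Bool := onCell 536870912 536870912 1073741824 536870912 991146299 28908434
    (rowB 3 eng mog cd1q1 cd3q2 pd1 2 false true true .dn 1 1 2 (qsf 536870912 536870912 1073741824 536870912 1) ndB1q1 ndB3q2 pcB1 Cut.none Ext.none)

def k0_pp_112 : ∃ t, chk3 f_pp_112 t 1 1 1 = true :=
  ⟨(a (l 3) (a (l 3) (a (l 3) (b (l 1) (b (l 1) (a (l 3) (b (l 1) (a (b (l 16056336) (l 16024424)) (l 78414524551))))))))), by decide +kernel⟩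

theorem c_pp_112 : CertB 536870912 536870912 1073741824 536870912 991146299 28908434 3 eng mog cd1q1 cd3q2 pd1 false true true .dn 1 1 2
    ndB1q1 ndB3q2 pcB1 Cut.none Ext.none :=
  certB2 (fam := false) (s1 := true) (s2 := true) (a := 1) (b := 1) (c := 2) (cn := .dn) (n1 := ndB1q1) (n2 := ndB3q2) (pc := pcB1) (cut := Cut.none) (xt := Ext.none) (P1 := 536870912) (W1 := 536870912) (P2 := 1073741824) (W2 := 536870912) (P3 := 991146299) (W3 := 28908434) (N0 := 3) (En := eng) (mo := mog) (C1 := cd1q1) (C2 := cd3q2) (C3 := pd1)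
    rfl (fun _ => rfl) k0_pp_112

noncomputable def f_pp_113 : ℕ → ℕ → ℕ → ℕ → Bool := onCell 536870912 536870912 0 1230186008 991146299 28908434
    (rowB 3 eng mog cd1q1 cd3q3 pd1 2 false true true .nn 1 1 3 (qsf 536870912 536870912 0 1230186008 1) ndB1q1 ndB3q3 pcB1 Cut.none Ext.none)

def k0_pp_113 : ∃ t, chk3 f_pp_113 t 1 1 1 = true :=
  ⟨(a (b (l 2) (b (l 3) (a (l 3) (l 3)))) (a (b (l 2) (b (l 3) (l 3))) (b (b (a (l 2) (a (l 2) (b (l 16637392) (l 16650912)))) (a (a (l 3) (b (b (l 2) (b (l 2) (l 16017232))) (b (b (l 855871163703) (l 299740037911)) (l 292223888903)))) (b (b (a (l 16378968) (l 16685032)) (a (b (l 16397392) (l 16407024)) (b (l 16713472) (l 16730688)))) (b (a (b (l 16419776) (l 16249168)) (l 16544184)) (a (l 15987936) (l 15987912)))))) (b (a (a (l 3) (b (b (l 278265177703) (a (l 3) (l 15651984))) (a (l 3) (b (l 238536724167) (l 249274255751))))) (b (a (b (l 15762712) (a (l 15656104) (l 15622064))) (b (l 15668672) (l 15506920))) (a (b (a (l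 15634856) (l 15579832)) (a (l 15739440) (l 15611576))) (b (l 15602992) (a (l 15529920) (l 15443456)))))) (a (b (l 3) (l 3)) (b (a (b (a (b (l 15741728) (l 15799392)) (l 15911608)) (a (b (l 15866584) (l 15941872)) (b (l 15799080) (l 15875784)))) (b (a (l 15641824) (l 15538704)) (b (l 15888496) (a (l 15796008) (l 15716840))))) (a (a (b (l 3) (l 3)) (b (b (l 15959288) (l 16005720)) (b (l 16013024) (l 198271809559)))) (b (b (a (l 15879912) (l 15800920)) (a (l 15968672) (l 15889152))) (c (b (l 15911472) (l 15933832)) (b (l 15962832) (l 16143144))))))))))), by decide +kernel⟩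

theorem c_pp_113 : CertB 536870912 536870912 0 1230186008 991146299 28908434 3 eng mog cd1q1 cd3q3 pd1 false true true .nn 1 1 3
    ndB1q1 ndB3q3 pcB1 Cut.none Ext.none :=
  certB2 (fam := false) (s1 := true) (s2 := true) (a := 1) (b := 1) (c := 3) (cn := .nn) (n1 := ndB1q1) (n2 := ndB3q3) (pc := pcB1) (cut := Cut.none) (xt := Ext.none) (P1 := 536870912) (W1 := 536870912) (P2 := 0) (W2 := 1230186008) (P3 := 991146299) (W3 := 28908434) (N0 := 3) (En := eng) (mo := mog) (C1 := cd1q1) (C2 := cd3q3) (C3 := pd1)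
    rfl (fun _ => rfl) k0_pp_113

noncomputable def f_pp_123 : ℕ → ℕ → ℕ → ℕ → Bool := onCell 1073741824 536870912 0 1230186008 991146299 28908434
    (rowB 3 eng mog cd1q1 cd3q3 pd2 2 false true true .npn 1 2 3 (qsf 536870912 536870912 0 1230186008 2) ndB1q1 ndB3q3 pcB2 Cut.none Ext.none)

def k0_pp_123 : ∃ t, chk3 f_pp_123 t 1 2 1 = true :=
  ⟨(b (a (a (a (a (b (l 16369552) (c (l 16538264) (l 16407960))) (b (l 16578080) (l 16623184))) (b (l 16697848) (a (l 16662336) (l 16559456)))) (a (b (l 16277904) (l 16158920)) (b (l 15838984) (l 15817240)))) (a (a (b (l 15411312) (l 15406280)) (b (l 15019864) (l 15032152))) (a (b (a (l 14774696) (l 14726048)) (a (l 14786904) (l 14672712))) (b (l 14900320) (a (l 14656968) (l 14791136)))))) (a (b (a (b (a (a (l 16549904) (l 16571952)) (l 16438336)) (a (a (b (l 16601640) (l 16635936)) (l 16379160)) (a (l 16301856) (l 16228944)))) (b (a (l 16176424) (l 15778264)) (a (l 16048784) (l 15718288)))) (a (b (a (a (l 16351136) (l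 16159520)) (a (l 16119800) (l 16067104))) (a (a (l 16006080) (l 15961672)) (a (l 15958440) (l 15926472)))) (b (a (l 15922040) (l 15643624)) (a (l 15813208) (l 15581256))))) (b (a (b (a (l 15384064) (l 15029112)) (a (l 15360928) (l 15029736))) (b (a (l 14730936) (a (l 14570432) (l 14594960))) (a (l 14754656) (a (l 14595696) (l 1))))) (a (b (a (l 15334680) (l 15044168)) (a (l 15317344) (l 15066720))) (b (a (l 14801576) (l 14625696)) (a (l 14857728) (l 1))))))), by decide +kernel⟩

def k1_pp_123 : ∃ t, chk3 f_pp_123 t 1 3 1 = true :=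
  ⟨(b (a (a (a (b (a (c (l 15723328) (l 15657744)) (c (l 15759904) (l 15737320))) (b (a (c (l 15569320) (l 15565664)) (l 15654960)) (a (c (l 15554472) (l 15584312)) (l 15486312)))) (b (c (l 15783064) (l 15781736)) (b (a (l 15699488) (l 15705048)) (a (l 15697528) (l 15706176))))) (b (a (c (l 15705528) (l 15694688)) (c (l 15549024) (l 15509248))) (a (b (l 15659152) (l 15672256)) (b (l 15535904) (l 15574032))))) (a (b (a (b (l 15318576) (l 15340976)) (c (l 15193368) (l 15074376))) (a (c (l 15438456) (l 15399904)) (c (l 15328568) (l 15253984)))) (b (a (l 345238209879) (l 1)) (l 1)))) (a (b (a (a (b (a (c (b (l 15579200) (l 15617136)) (l 15552880)) (c (l 15664472) (l 15729968))) (a (c (b (l 15668232) (l 15736632)) (l 15638512)) (c (l 15553496) (l 15702872)))) (b (c (l 15542168) (l 15774568)) (a (c (l 15760640) (l 15804072)) (c (l 15765600) (l 15846664))))) (a (b (c (l 15691440) (l 15741136)) (c (l 15643888) (l 15818232))) (b (c (l 15624752) (l 15650392)) (l 1))))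 (a (a (b (a (c (l 15616320) (l 15945456)) (c (l 15787936) (l 15976248))) (c (a (b (l 15962800) (l 16041120)) (l 16023832)) (a (l 15946216) (l 16142208)))) (b (a (c (l 15655696) (l 15969376)) (c (l 156797504903) (l 15950272))) (a (c (l 15865824) (l 16131936)) (l 1)))) (a (a (a (b (l 141765557735) (l 1)) (l 1)) (l 1)) (l 1)))) (l 1))), by decide +kernel⟩

theorem s2_pp_123 : ∃ t, chk3 f_pp_123 t 1 1 1 = true := ex3_b k0_pp_123 k1_pp_123

theorem c_pp_123 : CertB 536870912 536870912 0 1230186008 991146299 28908434 3 eng mog cd1q1 cd3q3 pd2 false true true .npn 1 2 3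
    ndB1q1 ndB3q3 pcB2 Cut.none Ext.none :=
  certB2 (fam := false) (s1 := true) (s2 := true) (a := 1) (b := 2) (c := 3) (cn := .npn) (n1 := ndB1q1) (n2 := ndB3q3) (pc := pcB2) (cut := Cut.none) (xt := Ext.none) (P1 := 536870912) (W1 := 536870912) (P2 := 0) (W2 := 1230186008) (P3 := 991146299) (W3 := 28908434) (N0 := 3) (En := eng) (mo := mog) (C1 := cd1q1) (C2 := cd3q3) (C3 := pd2)
    rfl (fun _ => rfl) s2_pp_123

noncomputable def f_pp_133 : ℕ → ℕ → ℕ → ℕ → Bool := onCell 1610612736 536870912 0 1230186008 991146299 28908434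
    (rowB 3 eng mog cd1q1 cd3q3 pd3 2 false true true .dn 1 3 3 (qsf 536870912 536870912 0 1230186008 3) ndB1q1 ndB3q3 pcB3 Cut.none Ext.none)

def k0_pp_133 : ∃ t, chk3 f_pp_133 t 1 1 1 = true :=
  ⟨(b (b (a (a (a (l 15563672) (l 1)) (l 1)) (l 1)) (l 1)) (l 1)), by decide +kernel⟩

theorem c_pp_133 : CertB 536870912 536870912 0 1230186008 991146299 28908434 3 eng mog cd1q1 cd3q3 pd3 false true true .dn 1 3 3
    ndB1q1 ndB3q3 pcB3 Cut.none Ext.none :=
  certB2 (fam := false) (s1 := true) (s2 := true) (a := 1) (b := 3) (c := 3) (cn := .dn) (n1 := ndB1q1) (n2 := ndB3q3) (pc := pcB3) (cut := Cut.none) (xt := Ext.none) (P1 := 536870912) (W1 := 536870912) (P2 := 0) (W2 := 1230186008) (P3 := 991146299) (W3 := 28908434) (N0 := 3) (En := eng) (mo := mog) (C1 := cd1q1) (C2 := cd3q3) (C3 := pd3)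
    rfl (fun _ => rfl) k0_pp_133

noncomputable def f_pp_202_a : ℕ → ℕ → ℕ → ℕ → Bool := onCell 0 536870912 1073741824 536870912 991146299 28908434
    (rowB 3 eng mog cd1q2a cd3q2 pd0 0 false true true .pp 2 0 2 (qsf 0 536870912 1073741824 536870912 0) ndB1q2a ndB3q2 pcB0 Cut.none Ext.none)

def k0_pp_202_a : ∃ t, chk3 f_pp_202_a t 1 1 1 = true :=
  ⟨(l 3), by decide +kernel⟩

theorem c_pp_202_a : CertB 0 536870912 1073741824 536870912 991146299 28908434 3 eng mog cd1q2a cd3q2 pd0 false true true .pp 2 0 2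
    ndB1q2a ndB3q2 pcB0 Cut.none Ext.none :=
  certB0 (fam := false) (s1 := true) (s2 := true) (a := 2) (b := 0) (c := 2) (cn := .pp) (n1 := ndB1q2a) (n2 := ndB3q2) (pc := pcB0) (cut := Cut.none) (xt := Ext.none) (P1 := 0) (W1 := 536870912) (P2 := 1073741824) (W2 := 536870912) (P3 := 991146299) (W3 := 28908434) (N0 := 3) (En := eng) (mo := mog) (C1 := cd1q2a) (C2 := cd3q2) (C3 := pd0)
    rfl k0_pp_202_a

noncomputable def f_pp_202_b : ℕ → ℕ → ℕ → ℕ → Bool := onCell 1239849684 370763052 1073741824 536870912 991146299 28908434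
    (rowB 3 eng mog cd1q2b cd3q2 pd0 0 false true true .pp 2 0 2 (qsf 1239849684 370763052 1073741824 536870912 0) ndB1q2b ndB3q2 pcB0 Cut.none Ext.none)

def k0_pp_202_b : ∃ t, chk3 f_pp_202_b t 1 1 1 = true :=
  ⟨(l 3), by decide +kernel⟩

theorem c_pp_202_b : CertB 1239849684 370763052 1073741824 536870912 991146299 28908434 3 eng mog cd1q2b cd3q2 pd0 false true true .pp 2 0 2
    ndB1q2b ndB3q2 pcB0 Cut.none Ext.none :=
  certB0 (fam := false) (s1 := true) (s2 := true) (a := 2) (b := 0) (c := 2) (cn := .pp) (n1 := ndB1q2b) (n2 := ndB3q2) (pc := pcB0) (cut := Cut.none) (xt := Ext.none) (P1 := 1239849684) (W1 := 370763052) (P2 := 1073741824) (W2 := 536870912) (P3 := 991146299) (W3 := 28908434) (N0 := 3) (En := eng) (mo := mog) (C1 := cd1q2b) (C2 := cd3q2) (C3 := pd0)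
    rfl k0_pp_202_b

noncomputable def f_pp_203_a : ℕ → ℕ → ℕ → ℕ → Bool := onCell 0 536870912 0 1230186008 991146299 28908434
    (rowB 3 eng mog cd1q2a cd3q3 pd0 0 false true true .up 2 0 3 (qsf 0 536870912 0 1230186008 0) ndB1q2a ndB3q3 pcB0 Cut.none Ext.none)

def k0_pp_203_a : ∃ t, chk3 f_pp_203_a t 1 1 1 = true :=
  ⟨(b (l 2) (l 3)), by decide +kernel⟩

theorem c_pp_203_a : CertB 0 536870912 0 1230186008 991146299 28908434 3 eng mog cd1q2a cd3q3 pd0 false true true .up 2 0 3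
    ndB1q2a ndB3q3 pcB0 Cut.none Ext.none :=
  certB0 (fam := false) (s1 := true) (s2 := true) (a := 2) (b := 0) (c := 3) (cn := .up) (n1 := ndB1q2a) (n2 := ndB3q3) (pc := pcB0) (cut := Cut.none) (xt := Ext.none) (P1 := 0) (W1 := 536870912) (P2 := 0) (W2 := 1230186008) (P3 := 991146299) (W3 := 28908434) (N0 := 3) (En := eng) (mo := mog) (C1 := cd1q2a) (C2 := cd3q3) (C3 := pd0)
    rfl k0_pp_203_a

noncomputable def f_pp_203_b : ℕ → ℕ → ℕ → ℕ → Bool := onCell 1239849684 370763052 0 1230186008 991146299 28908434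
    (rowB 3 eng mog cd1q2b cd3q3 pd0 0 false true true .up 2 0 3 (qsf 1239849684 370763052 0 1230186008 0) ndB1q2b ndB3q3 pcB0 Cut.none Ext.none)

def k0_pp_203_b : ∃ t, chk3 f_pp_203_b t 1 1 1 = true :=
  ⟨(b (l 3) (l 3)), by decide +kernel⟩

theorem c_pp_203_b : CertB 1239849684 370763052 0 1230186008 991146299 28908434 3 eng mog cd1q2b cd3q3 pd0 false true true .up 2 0 3
    ndB1q2b ndB3q3 pcB0 Cut.none Ext.none :=
  certB0 (fam := false) (s1 := true) (s2 := true) (a := 2) (b := 0) (c := 3) (cn := .up) (n1 := ndB1q2b) (n2 := ndB3q3) (pc := pcB0) (cut := Cut.none) (xt := Ext.none) (P1 := 1239849684) (W1 := 370763052) (P2 := 0) (W2 := 1230186008) (P3 := 991146299) (W3 := 28908434) (N0 := 3) (En := eng) (mo := mog) (C1 := cd1q2b) (C2 := cd3q3) (C3 := pd0)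
    rfl k0_pp_203_b

noncomputable def cut_pp_213_a : Cut := Cut.of [[⟨0, 1, 0, 37748736⟩, ⟨1, 1, 0, 37748736⟩, ⟨2, 2, 0, 5242880⟩]]

noncomputable def f_pp_213_a : ℕ → ℕ → ℕ → ℕ → Bool := onCell 0 536870912 0 1230186008 991146299 28908434
    (rowB 3 eng mog cd1q2a cd3q3 pd1 0 false true true .pnn 2 1 3 (qsf 0 536870912 0 1230186008 1) ndB1q2a ndB3q3 pcB1 cut_pp_213_a Ext.none)

def k0_pp_213_a : ∃ t, chk3 f_pp_213_a t 1 1 1 = true :=
  ⟨(b (b (a (l 3) (a (l 3) (a (l 3) (b (a (l 3) (b (l 6) (l 3))) (l 3))))) (l 3)) (l 3)), by decide +kernel⟩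

theorem c_pp_213_a : CertB 0 536870912 0 1230186008 991146299 28908434 3 eng mog cd1q2a cd3q3 pd1 false true true .pnn 2 1 3
    ndB1q2a ndB3q3 pcB1 cut_pp_213_a Ext.none :=
  certB0 (fam := false) (s1 := true) (s2 := true) (a := 2) (b := 1) (c := 3) (cn := .pnn) (n1 := ndB1q2a) (n2 := ndB3q3) (pc := pcB1) (cut := cut_pp_213_a) (xt := Ext.none) (P1 := 0) (W1 := 536870912) (P2 := 0) (W2 := 1230186008) (P3 := 991146299) (W3 := 28908434) (N0 := 3) (En := eng) (mo := mog) (C1 := cd1q2a) (C2 := cd3q3) (C3 := pd1)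
    rfl k0_pp_213_a

noncomputable def cut_pp_213_b : Cut := Cut.of [[⟨0, 1, 0, 37748736⟩, ⟨1, 1, 0, 37748736⟩, ⟨2, 2, 0, 5242880⟩]]

noncomputable def f_pp_213_b : ℕ → ℕ → ℕ → ℕ → Bool := onCell 1239849684 370763052 0 1230186008 991146299 28908434
    (rowB 3 eng mog cd1q2b cd3q3 pd1 0 false true true .pnn 2 1 3 (qsf 1239849684 370763052 0 1230186008 1) ndB1q2b ndB3q3 pcB1 cut_pp_213_b Ext.none)

def k0_pp_213_b : ∃ t, chk3 f_pp_213_b t 1 1 1 = true :=
  ⟨(b (l 3) (l 3)), by decide +kernel⟩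

theorem c_pp_213_b : CertB 1239849684 370763052 0 1230186008 991146299 28908434 3 eng mog cd1q2b cd3q3 pd1 false true true .pnn 2 1 3
    ndB1q2b ndB3q3 pcB1 cut_pp_213_b Ext.none :=
  certB0 (fam := false) (s1 := true) (s2 := true) (a := 2) (b := 1) (c := 3) (cn := .pnn) (n1 := ndB1q2b) (n2 := ndB3q3) (pc := pcB1) (cut := cut_pp_213_b) (xt := Ext.none) (P1 := 1239849684) (W1 := 370763052) (P2 := 0) (W2 := 1230186008) (P3 := 991146299) (W3 := 28908434) (N0 := 3) (En := eng) (mo := mog) (C1 := cd1q2b) (C2 := cd3q3) (C3 := pd1)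
    rfl k0_pp_213_b

noncomputable def f_pp_303 : ℕ → ℕ → ℕ → ℕ → Bool := onCell 1610612736 536870912 0 1230186008 991146299 28908434
    (rowB 3 eng mog cd1q3 cd3q3 pd0 0 false true true .npn 3 0 3 (qsf 1610612736 536870912 0 1230186008 0) ndB1q3 ndB3q3 pcB0 Cut.none Ext.none)

def k0_pp_303 : ∃ t, chk3 f_pp_303 t 1 1 1 = true :=
  ⟨(b (l 3) (l 3)), by decide +kernel⟩

theorem c_pp_303 : CertB 1610612736 536870912 0 1230186008 991146299 28908434 3 eng mog cd1q3 cd3q3 pd0 false true true .npn 3 0 3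
    ndB1q3 ndB3q3 pcB0 Cut.none Ext.none :=
  certB0 (fam := false) (s1 := true) (s2 := true) (a := 3) (b := 0) (c := 3) (cn := .npn) (n1 := ndB1q3) (n2 := ndB3q3) (pc := pcB0) (cut := Cut.none) (xt := Ext.none) (P1 := 1610612736) (W1 := 536870912) (P2 := 0) (W2 := 1230186008) (P3 := 991146299) (W3 := 28908434) (N0 := 3) (En := eng) (mo := mog) (C1 := cd1q3) (C2 := cd3q3) (C3 := pd0)
    rfl k0_pp_303

noncomputable def f_pp_313 : ℕ → ℕ → ℕ → ℕ → Bool := onCell 1610612736 536870912 0 1230186008 991146299 28908434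
    (rowB 3 eng mog cd1q3 cd3q3 pd1 0 false true true .dn 3 1 3 (qsf 1610612736 536870912 0 1230186008 1) ndB1q3 ndB3q3 pcB1 Cut.none Ext.none)

def k0_pp_313 : ∃ t, chk3 f_pp_313 t 1 1 1 = true :=
  ⟨(b (l 3) (l 1)), by decide +kernel⟩

theorem c_pp_313 : CertB 1610612736 536870912 0 1230186008 991146299 28908434 3 eng mog cd1q3 cd3q3 pd1 false true true .dn 3 1 3
    ndB1q3 ndB3q3 pcB1 Cut.none Ext.none :=
  certB0 (fam := false) (s1 := true) (s2 := true) (a := 3) (b := 1) (c := 3) (cn := .dn) (n1 := ndB1q3) (n2 := ndB3q3) (pc := pcB1) (cut := Cut.none) (xt := Ext.none) (P1 := 1610612736) (W1 := 536870912) (P2 := 0) (W2 := 1230186008) (P3 := 991146299) (W3 := 28908434) (N0 := 3) (En := eng) (mo := mog) (C1 := cd1q3) (C2 := cd3q3) (C3 := pd1)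
    rfl k0_pp_313

noncomputable def f_pm_001 : ℕ → ℕ → ℕ → ℕ → Bool := onCell 0 536870912 536870912 536870912 991146299 28908434
    (rowB 3 eng mog cd1q0 cd3q1 pd0 0 false true false .up 0 0 1 (qsf 0 536870912 536870912 536870912 0) ndB1q0 ndB3q1 pcB0 Cut.none Ext.none)

def k0_pm_001 : ∃ t, chk3 f_pm_001 t 1 1 1 = true :=
  ⟨(l 4), by decide +kernel⟩

theorem c_pm_001 : CertB 0 536870912 536870912 536870912 991146299 28908434 3 eng mog cd1q0 cd3q1 pd0 false true false .up 0 0 1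
    ndB1q0 ndB3q1 pcB0 Cut.none Ext.none :=
  certB0 (fam := false) (s1 := true) (s2 := false) (a := 0) (b := 0) (c := 1) (cn := .up) (n1 := ndB1q0) (n2 := ndB3q1) (pc := pcB0) (cut := Cut.none) (xt := Ext.none) (P1 := 0) (W1 := 536870912) (P2 := 536870912) (W2 := 536870912) (P3 := 991146299) (W3 := 28908434) (N0 := 3) (En := eng) (mo := mog) (C1 := cd1q0) (C2 := cd3q1) (C3 := pd0)
    rfl k0_pm_001

noncomputable def f_pm_011 : ℕ → ℕ → ℕ → ℕ → Bool := onCell 0 536870912 536870912 536870912 991146299 28908434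
    (rowB 3 eng mog cd1q0 cd3q1 pd1 0 false true false .pnn 0 1 1 (qsf 0 536870912 536870912 536870912 1) ndB1q0 ndB3q1 pcB1 Cut.none Ext.none)

def k0_pm_011 : ∃ t, chk3 f_pm_011 t 1 1 1 = true :=
  ⟨(l 4), by decide +kernel⟩

theorem c_pm_011 : CertB 0 536870912 536870912 536870912 991146299 28908434 3 eng mog cd1q0 cd3q1 pd1 false true false .pnn 0 1 1
    ndB1q0 ndB3q1 pcB1 Cut.none Ext.none :=
  certB0 (fam := false) (s1 := true) (s2 := false) (a := 0) (b := 1) (c := 1) (cn := .pnn) (n1 := ndB1q0) (n2 := ndB3q1) (pc := pcB1) (cut := Cut.none) (xt := Ext.none) (P1 := 0) (W1 := 536870912) (P2 := 536870912) (W2 := 536870912) (P3 := 991146299) (W3 := 28908434) (N0 := 3) (En := eng) (mo := mog) (C1 := cd1q0) (C2 := cd3q1) (C3 := pd1)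
    rfl k0_pm_011

noncomputable def f_pm_012 : ℕ → ℕ → ℕ → ℕ → Bool := onCell 0 536870912 1073741824 536870912 991146299 28908434
    (rowB 3 eng mog cd1q0 cd3q2 pd1 0 false true false .pnp 0 1 2 (qsf 0 536870912 1073741824 536870912 1) ndB1q0 ndB3q2 pcB1 Cut.none Ext.none)

def k0_pm_012 : ∃ t, chk3 f_pm_012 t 1 1 1 = true :=
  ⟨(a (l 4) (b (b (a (l 4) (b (a (a (b (a (l 4) (l 16136104)) (l 4)) (b (l 16119584) (a (l 16043928) (l 16033280)))) (a (a (l 16076744) (l 16079216)) (l 16083584))) (a (a (l 4) (b (a (l 4) (l 15952960)) (l 4))) (a (b (l 15952952) (l 15867536)) (l 15911792))))) (a (l 4) (a (l 4) (b (a (b (l 15696928) (l 107606492503)) (b (l 15801880) (l 15707128))) (a (l 4) (b (l 15609560) (l 15508496))))))) (a (l 4) (a (l 4) (a (l 4) (b (b (c (l 15395088) (l 15163608)) (b (l 15199520) (l 4))) (l 4))))))), by decide +kernel⟩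

theorem c_pm_012 : CertB 0 536870912 1073741824 536870912 991146299 28908434 3 eng mog cd1q0 cd3q2 pd1 false true false .pnp 0 1 2
    ndB1q0 ndB3q2 pcB1 Cut.none Ext.none :=
  certB0 (fam := false) (s1 := true) (s2 := false) (a := 0) (b := 1) (c := 2) (cn := .pnp) (n1 := ndB1q0) (n2 := ndB3q2) (pc := pcB1) (cut := Cut.none) (xt := Ext.none) (P1 := 0) (W1 := 536870912) (P2 := 1073741824) (W2 := 536870912) (P3 := 991146299) (W3 := 28908434) (N0 := 3) (En := eng) (mo := mog) (C1 := cd1q0) (C2 := cd3q2) (C3 := pd1)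
    rfl k0_pm_012

noncomputable def f_pm_022 : ℕ → ℕ → ℕ → ℕ → Bool := onCell 0 536870912 1073741824 536870912 991146299 28908434
    (rowB 3 eng mog cd1q0 cd3q2 pd2 1 false true false .pp 0 2 2 (qsf 0 536870912 1073741824 536870912 2) ndB1q0 ndB3q2 pcB2 Cut.none Ext.none)

def k0_pm_022 : ∃ t, chk3 f_pm_022 t 1 1 1 = true :=
  ⟨(a (l 4) (a (b (l 4) (l 4)) (b (a (l 4) (b (l 4) (l 2))) (l 2)))), by decide +kernel⟩

theorem c_pm_022 : CertB 0 536870912 1073741824 536870912 991146299 28908434 3 eng mog cd1q0 cd3q2 pd2 false true false .pp 0 2 2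
    ndB1q0 ndB3q2 pcB2 Cut.none Ext.none :=
  certB1 (fam := false) (s1 := true) (s2 := false) (a := 0) (b := 2) (c := 2) (cn := .pp) (n1 := ndB1q0) (n2 := ndB3q2) (pc := pcB2) (cut := Cut.none) (xt := Ext.none) (P1 := 0) (W1 := 536870912) (P2 := 1073741824) (W2 := 536870912) (P3 := 991146299) (W3 := 28908434) (N0 := 3) (En := eng) (mo := mog) (C1 := cd1q0) (C2 := cd3q2) (C3 := pd2)
    rfl (fun _ => rfl) k0_pm_022

noncomputable def f_pm_023 : ℕ → ℕ → ℕ → ℕ → Bool := onCell 0 536870912 0 1230186008 991146299 28908434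
    (rowB 3 eng mog cd1q0 cd3q3 pd2 0 false true false .up 0 2 3 (qsf 0 536870912 0 1230186008 2) ndB1q0 ndB3q3 pcB2 Cut.none Ext.none)

def k0_pm_023 : ∃ t, chk3 f_pm_023 t 1 1 1 = true :=
  ⟨(a (b (l 2) (l 4)) (a (b (l 2) (b (l 4) (l 4))) (a (b (b (l 2) (b (b (l 2) (l 4)) (l 4))) (b (l 4) (l 4))) (a (b (b (l 2) (b (b (l 16291968) (l 16300992)) (b (l 16290928) (l 16261048)))) (b (b (b (l 16204800) (l 4)) (l 4)) (l 4))) (b (b (b (l 15967208) (l 16048752)) (b (b (l 16097344) (l 16119664)) (b (l 16133904) (l 16129528)))) (b (b (b (l 16093936) (l 16021736)) (b (l 15909960) (l 15503216))) (b (b (b (l 15609976) (l 4)) (l 4)) (l 4)))))))), by decide +kernel⟩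

theorem c_pm_023 : CertB 0 536870912 0 1230186008 991146299 28908434 3 eng mog cd1q0 cd3q3 pd2 false true false .up 0 2 3
    ndB1q0 ndB3q3 pcB2 Cut.none Ext.none :=
  certB0 (fam := false) (s1 := true) (s2 := false) (a := 0) (b := 2) (c := 3) (cn := .up) (n1 := ndB1q0) (n2 := ndB3q3) (pc := pcB2) (cut := Cut.none) (xt := Ext.none) (P1 := 0) (W1 := 536870912) (P2 := 0) (W2 := 1230186008) (P3 := 991146299) (W3 := 28908434) (N0 := 3) (En := eng) (mo := mog) (C1 := cd1q0) (C2 := cd3q3) (C3 := pd2)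
    rfl k0_pm_023

noncomputable def f_pm_033 : ℕ → ℕ → ℕ → ℕ → Bool := onCell 0 536870912 0 1230186008 991146299 28908434
    (rowB 3 eng mog cd1q0 cd3q3 pd3 0 false true false .pnn 0 3 3 (qsf 0 536870912 0 1230186008 3) ndB1q0 ndB3q3 pcB3 Cut.none Ext.none)

def k0_pm_033 : ∃ t, chk3 f_pm_033 t 1 1 1 = true :=
  ⟨(a (b (l 4) (l 4)) (b (a (b (l 4) (l 4)) (b (a (b (l 16425120) (l 16413496)) (l 272763595415)) (b (b (a (l 16386832) (l 16329536)) (a (l 4) (l 16308784))) (a (l 4) (b (l 16278400) (l 1)))))) (b (a (l 4) (a (l 4) (l 1))) (l 1)))), by decide +kernel⟩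

theorem c_pm_033 : CertB 0 536870912 0 1230186008 991146299 28908434 3 eng mog cd1q0 cd3q3 pd3 false true false .pnn 0 3 3
    ndB1q0 ndB3q3 pcB3 Cut.none Ext.none :=
  certB0 (fam := false) (s1 := true) (s2 := false) (a := 0) (b := 3) (c := 3) (cn := .pnn) (n1 := ndB1q0) (n2 := ndB3q3) (pc := pcB3) (cut := Cut.none) (xt := Ext.none) (P1 := 0) (W1 := 536870912) (P2 := 0) (W2 := 1230186008) (P3 := 991146299) (W3 := 28908434) (N0 := 3) (En := eng) (mo := mog) (C1 := cd1q0) (C2 := cd3q3) (C3 := pd3)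
    rfl k0_pm_033

noncomputable def f_pm_101 : ℕ → ℕ → ℕ → ℕ → Bool := onCell 536870912 536870912 536870912 536870912 991146299 28908434
    (rowB 3 eng mog cd1q1 cd3q1 pd0 0 false true false .npn 1 0 1 (qsf 536870912 536870912 536870912 536870912 0) ndB1q1 ndB3q1 pcB0 Cut.none Ext.none)

def k0_pm_101 : ∃ t, chk3 f_pm_101 t 1 1 1 = true :=
  ⟨(l 4), by decide +kernel⟩

theorem c_pm_101 : CertB 536870912 536870912 536870912 536870912 991146299 28908434 3 eng mog cd1q1 cd3q1 pd0 false true false .npn 1 0 1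
    ndB1q1 ndB3q1 pcB0 Cut.none Ext.none :=
  certB0 (fam := false) (s1 := true) (s2 := false) (a := 1) (b := 0) (c := 1) (cn := .npn) (n1 := ndB1q1) (n2 := ndB3q1) (pc := pcB0) (cut := Cut.none) (xt := Ext.none) (P1 := 536870912) (W1 := 536870912) (P2 := 536870912) (W2 := 536870912) (P3 := 991146299) (W3 := 28908434) (N0 := 3) (En := eng) (mo := mog) (C1 := cd1q1) (C2 := cd3q1) (C3 := pd0)
    rfl k0_pm_101

noncomputable def f_pm_102 : ℕ → ℕ → ℕ → ℕ → Bool := onCell 536870912 536870912 0 536870912 991146299 28908434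
    (rowB 3 eng mog cd1q1 cd3q2 pd0 1 false true false .npp 1 0 2 (qsf 536870912 536870912 1073741824 536870912 0) ndB1q1 ndB3q2 pcB0 Cut.none Ext.none)

def k0_pm_102 : ∃ t, chk3 f_pm_102 t 2 1 1 = true :=
  ⟨(b (a (l 1) (b (l 1) (b (l 1) (a (l 1) (b (l 1) (a (l 1) (l 595420632503))))))) (b (a (b (l 1) (a (l 1) (b (l 1) (c (l 555155866743) (l 557840124055))))) (b (a (a (l 1) (b (l 1) (l 658772146759))) (b (a (l 600252344935) (l 15708640)) (c (l 15731264) (l 15697896)))) (a (a (b (l 579852009607) (c (l 15530496) (l 15446936))) (b (l 522942887575) (l 15622856))) (b (a (l 15711296) (l 15864208)) (l 15750400))))) (a (b (a (b (l 1) (c (l 520796059399) (l 517037901079))) (c (b (l 532070489447) (l 15365672)) (b (l 527775384951) (l 15202560)))) (a (b (a (l 499321254871) (l 490194503383)) (c (l 484825884807) (l 468719664759))) (a (c (l 15510368) (l 15437168)) (b (l 15514624) (l 15546104))))) (a (b (a (b (c (l 15577416) (l 15492096)) (l 15587064)) (b (l 15685640) (l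 15739968))) (a (b (l 15634416) (l 15679408)) (l 15808088))) (b (b (l 15906864) (l 15946504)) (c (l 15969448) (l 15995992))))))), by decide +kernel⟩

def k1_pm_102 : ∃ t, chk3 f_pm_102 t 3 2 1 = true :=
  ⟨(a (b (a (l 1) (b (l 1) (b (l 1) (a (l 1) (l 641054821271))))) (b (a (b (l 1) (l 696352885143)) (b (a (l 637833703623) (l 15523024)) (a (l 15815800) (l 15716712)))) (a (b (a (l 795674258903) (l 15804968)) (a (l 15765064) (l 15899728))) (c (b (l 15696680) (l 15653352)) (l 15600265303))))) (b (a (b (b (l 1) (b (l 1) (a (l 1) (b (l 1) (l 15536936))))) (b (b (a (l 1) (l 515426652903)) (a (l 635149071319) (l 15539936))) (a (l 492341401543) (l 15519528)))) (b (b (a (a (l 1) (b (l 1) (l 544954905191))) (c (l 525627393911) (l 533680616695))) (b (b (a (l 462813719847) (l 15354024)) (a (b (l 15434856) (l 15429392)) (l 15328656))) (a (b (l 15431032) (l 15431864)) (b (l 15323472) (l 15322056))))) (b (b (a (l 15431768) (l 15318936)) (c (l 15333016) (l 15406984))) (a (l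 15390752) (l 15266752))))) (b (a (b (c (l 15500472) (l 15596128)) (c (l 15447928) (l 15544464))) (b (a (l 15331968) (l 15196952)) (c (l 15151400) (l 15225496)))) (a (b (l 15430160) (l 15353288)) (b (c (l 15062896) (l 15130832)) (c (l 14962464) (l 15020728))))))), by decide +kernel⟩

def k2_pm_102 : ∃ t, chk3 f_pm_102 t 3 3 1 = true :=
  ⟨(b (a (b (a (b (c (l 15894992) (l 15937696)) (l 15757704)) (c (l 15565776) (l 15681560))) (a (c (l 15820912) (l 15958256)) (c (l 15351600) (l 15388816)))) (a (b (b (l 15243776) (l 14996528)) (b (c (l 15022768) (l 15082536)) (a (l 15052112) (a (l 14865496) (l 14729008))))) (b (a (b (l 14967488) (l 14844920)) (c (b (l 14753256) (a (l 14701104) (l 14672384))) (b (l 14803552) (l 14693024)))) (a (b (c (a (l 14752240) (l 14684824)) (l 14741504)) (c (a (l 14683032) (l 14671600)) (l 14658256))) (b (c (l 14670088) (l 14623256)) (c (l 14679072) (l 14582136))))))) (a (b (a (c (l 15703008) (l 15827392)) (b (l 15127032) (a (l 15341488)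 (l 15065896)))) (a (c (l 15463848) (l 15415928)) (b (a (l 15227176) (a (l 15006864) (l 14867776))) (a (l 15100032) (c (l 14875200) (l 14872936)))))) (a (b (a (b (l 14924248) (b (l 14828832) (l 14788472))) (b (a (l 14726880) (c (l 14696816) (l 14680448))) (c (l 14722624) (l 14676072)))) (c (b (a (l 14782824) (l 14753184)) (l 14805416)) (b (l 14721560) (l 14706768)))) (b (c (a (l 14700728) (l 14793136)) (a (l 14606104) (l 14542888))) (c (a (l 14767568) (l 14775992)) (a (l 14589688) (l 14531960))))))), by decide +kernel⟩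

theorem s3_pm_102 : ∃ t, chk3 f_pm_102 t 3 1 1 = true := ex3_b k1_pm_102 k2_pm_102

theorem s4_pm_102 : ∃ t, chk3 f_pm_102 t 1 1 1 = true := ex3_a k0_pm_102 s3_pm_102

theorem c_pm_102 : CertB 536870912 536870912 1073741824 536870912 991146299 28908434 3 eng mog cd1q1 cd3q2 pd0 false true false .npp 1 0 2
    ndB1q1 ndB3q2 pcB0 Cut.none Ext.none :=
  certB1 (fam := false) (s1 := true) (s2 := false) (a := 1) (b := 0) (c := 2) (cn := .npp) (n1 := ndB1q1) (n2 := ndB3q2) (pc := pcB0) (cut := Cut.none) (xt := Ext.none) (P1 := 536870912) (W1 := 536870912) (P2 := 1073741824) (W2 := 536870912) (P3 := 991146299) (W3 := 28908434) (N0 := 3) (En := eng) (mo := mog) (C1 := cd1q1) (C2 := cd3q2) (C3 := pd0)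
    rfl (fun _ => rfl) s4_pm_102

noncomputable def f_pm_112 : ℕ → ℕ → ℕ → ℕ → Bool := onCell 536870912 536870912 536870912 536870912 991146299 28908434
    (rowB 3 eng mog cd1q1 cd3q2 pd1 1 false true false .dn 1 1 2 (qsf 536870912 536870912 1073741824 536870912 1) ndB1q1 ndB3q2 pcB1 Cut.none Ext.none)

def k0_pm_112 : ∃ t, chk3 f_pm_112 t 1 1 1 = true :=
  ⟨(b (a (b (a (a (b (a (l 15665360) (l 15667720)) (l 15613464)) (b (a (l 15688696) (l 15736032)) (a (l 15734080) (l 15778776)))) (a (b (l 15848720) (l 15867768)) (b (l 15968016) (l 15836048)))) (a (a (b (l 15706168) (a (l 15761664) (l 15743512))) (a (b (l 15756432) (l 15747568)) (l 15782352))) (b (a (l 15849784) (c (l 15648936) (l 15663784))) (a (l 15720712) (a (l 15532616) (l 15389960)))))) (b (a (b (a (a (l 15763160) (l 15600752)) (a (b (l 15463808) (l 15380408)) (l 15179968))) (a (a (l 15615752) (l 15261128)) (b (l 15158832) (l 15076576)))) (a (b (a (l 14922552) (l 14644360)) (c (l 14739952) (l 14611352)))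 (b (a (b (l 14438328) (l 14394544)) (b (a (l 14250400) (c (l 14255304) (l 14046744))) (a (l 14231912) (l 2)))) (a (b (l 14371864) (l 2)) (l 2))))) (a (b (a (b (l 15391312) (l 15294920)) (l 14897104)) (a (l 15181416) (l 14914128))) (a (b (b (l 14637392) (l 2)) (l 2)) (l 2))))) (b (a (a (b (a (a (l 15737704) (l 15712144)) (c (l 15696328) (l 15699344))) (a (c (l 15660144) (l 15659288)) (c (l 15463016) (l 15469928)))) (b (a (b (l 15552320) (l 15447240)) (l 15277712)) (a (l 15377040) (l 15147800)))) (a (b (a (l 15083488) (l 2)) (l 2)) (l 2))) (a (a (b (a (b (l 15443672) (l 15186392)) (l 15215152)) (a (b (l 15116224) (l 14990056)) (l 15008304))) (b (a (l 15122232) (l 2)) (l 2))) (l 2)))), by decide +kernel⟩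

theorem c_pm_112 : CertB 536870912 536870912 1073741824 536870912 991146299 28908434 3 eng mog cd1q1 cd3q2 pd1 false true false .dn 1 1 2
    ndB1q1 ndB3q2 pcB1 Cut.none Ext.none :=
  certB1 (fam := false) (s1 := true) (s2 := false) (a := 1) (b := 1) (c := 2) (cn := .dn) (n1 := ndB1q1) (n2 := ndB3q2) (pc := pcB1) (cut := Cut.none) (xt := Ext.none) (P1 := 536870912) (W1 := 536870912) (P2 := 1073741824) (W2 := 536870912) (P3 := 991146299) (W3 := 28908434) (N0 := 3) (En := eng) (mo := mog) (C1 := cd1q1) (C2 := cd3q2) (C3 := pd1)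
    rfl (fun _ => rfl) k0_pm_112

noncomputable def f_pm_113 : ℕ → ℕ → ℕ → ℕ → Bool := onCell 536870912 536870912 0 1230186008 991146299 28908434
    (rowB 3 eng mog cd1q1 cd3q3 pd1 0 false true false .nn 1 1 3 (qsf 536870912 536870912 0 1230186008 1) ndB1q1 ndB3q3 pcB1 Cut.none Ext.none)

def k0_pm_113 : ∃ t, chk3 f_pm_113 t 2 1 1 = true :=
  ⟨(b (l 2) (b (a (l 2) (b (l 2) (a (l 2) (b (l 2) (l 15030808))))) (b (a (l 2) (a (b (a (l 2) (l 14864288)) (l 14870376)) (b (l 15021112) (l 15023384)))) (a (a (b (l 2) (b (l 53782950295) (a (l 14660864) (l 14854128)))) (b (a (l 14567120) (l 14790160)) (b (l 14914304) (l 15026336)))) (b (a (l 14973376) (l 14880128)) (a (l 15127576) (b (l 15152728) (l 15238040)))))))), by decide +kernel⟩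

def k1_pm_113 : ∃ t, chk3 f_pm_113 t 3 1 1 = true :=
  ⟨(a (b (l 2) (b (b (a (l 2) (a (b (l 2) (l 15606152)) (l 15599600))) (a (b (l 15144160) (l 15094944)) (b (a (l 15446584) (l 15385816)) (a (l 15265504) (l 15223328))))) (b (a (b (l 15120120) (l 15039384)) (b (a (l 15111776) (l 15060112)) (a (l 15014712) (l 14944328)))) (b (a (l 14857080) (c (l 14982128) (l 14920640))) (a (c (l 15169944) (l 15146752)) (b (l 14988456) (l 15046864))))))) (b (b (a (l 2) (b (a (l 2) (l 16768872)) (l 16789248))) (b (b (a (l 2) (l 16818992)) (a (l 16746608) (a (l 16826728) (l 16779120)))) (b (a (l 16342456) (l 16478256)) (a (l 15895560) (l 15887376))))) (b (b (a (a (l 15535240) (l 15477496)) (a (l 15413496) (l 15345168))) (a (b (l 15242064) (l 15281504)) (b (a (l 15133560) (l 15066144)) (a (l 14994312) (l 14949160))))) (b (a (b (a (l 14981312) (l 14907992)) (a (b (l 14871512) (l 14820208)) (b (l 14789184) (l 14711512)))) (b (a (l 14862608) (l 14842640)) (a (l 14944352) (b (l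 14754320) (l 14685080))))) (b (a (a (l 14787728) (b (l 14658560) (l 14644976))) (a (b (l 14604088) (c (l 14555792) (l 14479128))) (b (l 14604136) (l 14508376)))) (a (b (a (l 14811208) (l 14663528)) (a (l 14862736) (l 14711896))) (b (a (b (l 14491672) (l 14505464)) (a (b (l 14412936) (l 14387176)) (l 14406792))) (a (l 14543256) (a (l 14408080) (b (l 14340640) (l 14336728))))))))))), by decide +kernel⟩

theorem s2_pm_113 : ∃ t, chk3 f_pm_113 t 1 1 1 = true := ex3_a k0_pm_113 k1_pm_113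

theorem c_pm_113 : CertB 536870912 536870912 0 1230186008 991146299 28908434 3 eng mog cd1q1 cd3q3 pd1 false true false .nn 1 1 3
    ndB1q1 ndB3q3 pcB1 Cut.none Ext.none :=
  certB0 (fam := false) (s1 := true) (s2 := false) (a := 1) (b := 1) (c := 3) (cn := .nn) (n1 := ndB1q1) (n2 := ndB3q3) (pc := pcB1) (cut := Cut.none) (xt := Ext.none) (P1 := 536870912) (W1 := 536870912) (P2 := 0) (W2 := 1230186008) (P3 := 991146299) (W3 := 28908434) (N0 := 3) (En := eng) (mo := mog) (C1 := cd1q1) (C2 := cd3q3) (C3 := pd1)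
    rfl s2_pm_113

noncomputable def f_pm_123 : ℕ → ℕ → ℕ → ℕ → Bool := onCell 1073741824 536870912 0 1230186008 991146299 28908434
    (rowB 3 eng mog cd1q1 cd3q3 pd2 2 false true false .npn 1 2 3 (qsf 536870912 536870912 0 1230186008 2) ndB1q1 ndB3q3 pcB2 Cut.none Ext.none)

def k0_pm_123 : ∃ t, chk3 f_pm_123 t 1 2 1 = true :=
  ⟨(b (a (a (a (b (a (l 16364320) (l 16561288)) (a (c (l 16497264) (l 16340848)) (l 16579064))) (b (l 16703944) (c (l 16601568) (l 16604256)))) (a (b (l 16267736) (l 16041432)) (b (l 15815568) (l 15696072)))) (a (a (b (l 15376664) (l 15247016)) (b (l 14975536) (a (l 14960536) (l 14850272)))) (a (b (a (l 14783352) (l 14822544)) (l 14673152)) (a (l 14873616) (l 15039768))))) (a (b (a (b (a (a (l 16477416) (l 16577232)) (l 16418216)) (a (a (c (l 16657688) (l 16436800)) (l 16413032)) (a (l 16304672) (l 16166744)))) (b (a (l 16038072) (l 15546424)) (a (l 15872680) (l 15396816)))) (a (a (b (a (l 16331224) (l 16229096)) (a (l 16167248) (l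 16067240))) (b (l 16047336) (l 15912624))) (a (b (l 15705464) (l 15552056)) (b (l 15219168) (l 15187712))))) (b (a (b (a (l 15104480) (l 14662864)) (a (a (l 15085184) (l 14959208)) (l 14945424))) (b (a (l 15025016) (l 15330168)) (a (l 14990112) (a (l 15357256) (l 1))))) (a (a (b (a (l 15056680) (l 15011664)) (l 15087792)) (b (l 15045608) (l 15178400))) (a (b (l 15217904) (a (l 15366936) (l 15516552))) (b (a (l 15530880) (l 1)) (l 1))))))), by decide +kernel⟩

def k1_pm_123 : ∃ t, chk3 f_pm_123 t 1 3 1 = true :=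
  ⟨(b (a (a (b (a (a (c (l 15908400) (l 16043840)) (b (l 15953696) (l 15879184))) (a (b (l 15858480) (l 15741064)) (b (l 15703456) (l 15560056)))) (a (b (a (b (l 15947336) (l 15879128)) (b (l 15803656) (l 15662960))) (a (l 15642984) (l 15476408))) (a (b (l 15539832) (l 15353336)) (b (l 15394648) (l 15277304))))) (b (a (a (l 15453504) (l 15310352)) (a (l 15222344) (l 15188496))) (a (a (l 15267416) (l 15249568)) (a (l 15276056) (l 15342088))))) (a (a (b (a (l 15204392) (l 15264760)) (a (b (l 15370448) (l 15454584)) (b (l 15439288) (l 15507464)))) (b (a (l 15353984) (b (l 15393792) (l 15507392))) (a (b (l 15504632) (l 1)) (l 1)))) (a (b (a (b (l 15510912) (l 1)) (l 1)) (l 1)) (l 1)))) (a (b (a (a (b (a (l 15373368) (l 15270304)) (a (l 15149656) (l 15106728))) (b (a (l 15213192) (l 15201800)) (a (l 15111472) (l 15160560)))) (a (b (a (l 15228824) (l 15295064)) (a (l 15252296) (l 15373280))) (b (a (l 15395640) (l 15478112)) (l 1)))) (b (a (a (a (l 14960016) (l 14975544))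 (a (b (l 15052504) (l 15052232)) (l 77003929831))) (l 4)) (a (a (a (c (l 14921728) (l 59822986743)) (b (l 14932144) (l 4))) (l 4)) (l 1)))) (l 1))), by decide +kernel⟩

theorem s2_pm_123 : ∃ t, chk3 f_pm_123 t 1 1 1 = true := ex3_b k0_pm_123 k1_pm_123

theorem c_pm_123 : CertB 536870912 536870912 0 1230186008 991146299 28908434 3 eng mog cd1q1 cd3q3 pd2 false true false .npn 1 2 3
    ndB1q1 ndB3q3 pcB2 Cut.none Ext.none :=
  certB2 (fam := false) (s1 := true) (s2 := false) (a := 1) (b := 2) (c := 3) (cn := .npn) (n1 := ndB1q1) (n2 := ndB3q3) (pc := pcB2) (cut := Cut.none) (xt := Ext.none) (P1 := 536870912) (W1 := 536870912) (P2 := 0) (W2 := 1230186008) (P3 := 991146299) (W3 := 28908434) (N0 := 3) (En := eng) (mo := mog) (C1 := cd1q1) (C2 := cd3q3) (C3 := pd2)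
    rfl (fun _ => rfl) s2_pm_123

noncomputable def f_pm_133 : ℕ → ℕ → ℕ → ℕ → Bool := onCell 536870912 536870912 0 1230186008 991146299 28908434
    (rowB 3 eng mog cd1q1 cd3q3 pd3 0 false true false .dn 1 3 3 (qsf 536870912 536870912 0 1230186008 3) ndB1q1 ndB3q3 pcB3 Cut.none Ext.none)

def k0_pm_133 : ∃ t, chk3 f_pm_133 t 1 1 1 = true :=
  ⟨(b (b (a (a (a (l 390872590951) (l 1)) (l 1)) (l 1)) (l 1)) (l 1)), by decide +kernel⟩

theorem c_pm_133 : CertB 536870912 536870912 0 1230186008 991146299 28908434 3 eng mog cd1q1 cd3q3 pd3 false true false .dn 1 3 3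
    ndB1q1 ndB3q3 pcB3 Cut.none Ext.none :=
  certB0 (fam := false) (s1 := true) (s2 := false) (a := 1) (b := 3) (c := 3) (cn := .dn) (n1 := ndB1q1) (n2 := ndB3q3) (pc := pcB3) (cut := Cut.none) (xt := Ext.none) (P1 := 536870912) (W1 := 536870912) (P2 := 0) (W2 := 1230186008) (P3 := 991146299) (W3 := 28908434) (N0 := 3) (En := eng) (mo := mog) (C1 := cd1q1) (C2 := cd3q3) (C3 := pd3)
    rfl k0_pm_133

noncomputable def f_pm_202_a : ℕ → ℕ → ℕ → ℕ → Bool := onCell 0 536870912 0 536870912 991146299 28908434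
    (rowB 3 eng mog cd1q2a cd3q2 pd0 1 false true false .pp 2 0 2 (qsf 0 536870912 1073741824 536870912 0) ndB1q2a ndB3q2 pcB0 Cut.none Ext.none)

def k0_pm_202_a : ∃ t, chk3 f_pm_202_a t 2 1 1 = true :=
  ⟨(l 3), by decide +kernel⟩

def k1_pm_202_a : ∃ t, chk3 f_pm_202_a t 6 4 1 = true :=
  ⟨(a (l 3) (a (l 3) (a (l 3) (b (b (c (b (b (a (b (b (l 66739041607) (l 16467040)) (l 16477152)) (b (l 16484080) (a (l 16464344) (l 16495488)))) (b (a (l 16489288) (l 16480256)) (l 59222910263))) (b (c (l 60833597303) (l 59759802375)) (l 16511424))) (b (b (a (b (b (l 70497078343) (l 16402168)) (l 16413816)) (b (l 16418168) (a (l 16421096) (l 16430424)))) (b (l 49022224887) (l 16407736))) (b (a (l 16446104) (a (l 16471864) (l 16438544))) (l 16460152)))) (b (c (l 64591736487) (l 54927966711)) (l 93582733031))) (b (b (l 16444376) (l 16429368)) (l 3)))))), by decide +kernel⟩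

def k2_pm_202_a : ∃ t, chk3 f_pm_202_a t 14 4 1 = true :=
  ⟨(a (b (b (b (a (c (b (l 16466664) (a (b (l 16500008) (l 16508872)) (l 16509736))) (b (l 16421712) (b (l 16387440) (a (l 16466440) (l 16490136))))) (b (c (l 16526432) (l 16523336)) (b (l 16486392) (l 16491736)))) (b (a (a (b (l 16469856) (c (l 16531440) (l 16495440))) (b (c (l 16516376) (l 16495312)) (l 16454736))) (b (l 16494400) (c (l 16526000) (l 16485184)))) (a (a (a (l 16482376) (l 16489400)) (l 16499040)) (c (b (l 16508560) (l 16537344)) (a (l 16507792) (l 16488480)))))) (b (b (a (a (l 16491280) (l 16506824)) (b (l 16502672) (l 16577704))) (a (c (l 16564928) (l 16524456)) (l 16538280))) (a (b (l 16514344) (l 16525344)) (b (b (l 16555192) (l 16517952)) (a (l 16495808) (l 16511568)))))) (b (a (b (l 16458080) (l 16399920)) (b (c (l 16472168) (l 16462488)) (c (l 16436544) (l 16461904)))) (b (c (l 16392616) (l 16409696)) (c (l 16344176) (l 16354096))))) (b (b (b (b (b (l 16475048) (l 16513816))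 (a (l 16518600) (l 16564088))) (b (b (l 16499640) (l 16487512)) (a (l 16518808) (l 16485512)))) (a (b (b (b (l 16551888) (a (l 16577144) (l 16615048))) (b (c (l 16596528) (l 16637712)) (a (l 16608560) (l 16517832)))) (b (c (l 16542440) (l 16596768)) (l 16503312))) (b (b (l 16466784) (c (l 16540072) (l 16581880))) (b (c (l 16514904) (l 16567424)) (a (l 16536240) (l 16503536)))))) (b (b (b (c (l 16494016) (l 16516760)) (c (l 16462216) (l 16482664))) (a (c (l 16423136) (l 16425472)) (c (l 16409448) (l 16421496)))) (c (a (b (l 16365712) (l 16312480)) (b (l 16349232) (l 16292784))) (a (b (l 16384064) (l 16324744)) (b (l 16358728) (l 16300832))))))), by decide +kernel⟩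

def k3_pm_202_a : ∃ t, chk3 f_pm_202_a t 15 4 1 = true :=
  ⟨(b (b (b (a (b (b (a (l 16651728) (l 16532208)) (l 16499480)) (l 16395432)) (a (b (b (l 16530992) (l 16437664)) (b (l 16443824) (l 16496680))) (b (c (l 16488768) (l 16553856)) (a (b (l 16489616) (l 16458472)) (l 16402448))))) (a (b (a (l 16481824) (l 16449200)) (a (l 16448840) (l 16429528))) (b (a (l 16392144) (b (c (l 16374880) (l 16446368)) (l 16250792))) (c (l 16232664) (l 16387584))))) (b (b (a (a (l 16444352) (l 16397016)) (c (l 16211560) (l 16363176))) (a (b (l 16310032) (a (l 16488600) (l 16414112))) (b (c (l 16270136) (l 16333856)) (c (l 16263968) (l 16325144))))) (a (b (c (l 16390520) (l 16473544)) (a (l 16420544) (l 16414064))) (b (c (l 16166624) (l 16328576)) (c (l 16278488) (l 16326664)))))) (b (b (a (b (a (l 16364216) (l 16408088)) (a (a (l 16450880) (l 16438368)) (l 16398624))) (c (b (l 16282232) (l 16283000)) (l 16208568))) (a (a (c (l 16395128) (l 16394792)) (b (a (l 16391840) (l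 16369640)) (l 16351248))) (b (c (l 16280368) (l 16289240)) (a (l 16306136) (l 16233944))))) (a (c (b (l 16323040) (l 16261872)) (b (l 16311920) (l 16247920))) (b (a (c (l 16281896) (l 16253728)) (c (l 16224064) (l 16200168))) (a (l 16209040) (c (l 16190480) (l 16141992))))))), by decide +kernel⟩

def k4_pm_202_a : ∃ t, chk3 f_pm_202_a t 3 5 1 = true :=
  ⟨(a (l 3) (b (a (a (b (a (c (l 16289304) (l 16267528)) (b (l 16290168) (l 16244512))) (a (c (l 16194168) (l 16202584)) (c (l 16188832) (l 16177200)))) (b (b (a (l 16266608) (c (l 16238728) (l 16243200))) (c (l 16203032) (l 16159504))) (c (b (l 16160360) (l 16120288)) (l 16129976)))) (b (a (b (c (l 16203736) (l 16188000)) (c (l 16086456) (a (l 16154000) (l 16109912)))) (c (b (l 16151800) (l 16091432)) (b (l 16102040) (l 16039272)))) (a (c (a (c (l 16070440) (l 16084952)) (l 16056040)) (a (b (l 16101800) (l 16029640)) (l 16029920))) (c (b (l 16034120) (l 15979824)) (b (l 15980368) (l 15925128)))))) (a (a (a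 (b (c (l 59759308519) (l 16108040)) (l 3)) (b (c (l 16102864) (l 16100824)) (c (l 16112360) (l 16015712)))) (b (c (l 16066544) (l 16044504)) (c (l 15984952) (l 15972664)))) (a (b (c (a (l 15981696) (c (l 15990472) (l 15934928))) (a (l 15980592) (c (l 15942216) (l 15928464)))) (c (c (l 15895088) (l 15898824)) (a (l 15901408) (l 15847544)))) (b (c (c (l 15896488) (l 15890456)) (b (l 15873400) (l 15825064))) (c (c (b (l 15848136) (l 15807128)) (l 15781208)) (a (c (l 15783096) (l 15781856)) (l 15725680)))))))), by decide +kernel⟩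

def k5_pm_202_a : ∃ t, chk3 f_pm_202_a t 3 3 1 = true :=
  ⟨(a (l 3) (a (a (b (a (l 3) (b (b (c (l 16069384) (l 15962528)) (c (l 15993568) (l 15940272))) (b (c (l 15967672) (l 15906152)) (l 54927216583)))) (b (l 3) (l 3))) (b (b (b (c (l 15936360) (l 15913456)) (c (l 15898768) (l 15866032))) (b (c (l 15996896) (l 15808520)) (b (l 15822216) (l 15812896)))) (b (b (b (l 15805472) (l 15799824)) (b (l 15795816) (l 15793336))) (b (c (l 15852984) (l 15771304)) (l 2))))) (b (b (a (b (c (l 15828704) (l 15805832)) (c (l 15802832) (l 15748720))) (c (b (c (a (l 15773736) (l 15725024)) (l 15704880)) (a (l 15704464) (b (l 15657392) (l 15626440)))) (a (b (c (l 15726328) (l 15681176)) (l 15649184)) (b (l 15624920) (b (l 15595648) (l 15563880)))))) (b (a (c (l 15767184) (l 15703728)) (b (a (l 15641448) (c (l 15599096) (l 15534088))) (c (l 15614944) (l 15546976)))) (a (c (l 15741728) (l 15669872)) (c (a (l 15631568) (l 15552032)) (l 15518568))))) (b (b (c (a (l 15725280) (l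 15569472)) (a (l 15646336) (l 15487928))) (c (a (l 15716440) (l 15555912)) (a (l 15632456) (l 15468120)))) (b (c (a (l 15713992) (l 15550360)) (a (l 15627296) (l 15458256))) (c (a (l 15716864) (l 15551656)) (a (l 15629800) (l 15457328)))))))), by decide +kernel⟩

theorem s6_pm_202_a : ∃ t, chk3 f_pm_202_a t 7 4 1 = true := ex3_a k2_pm_202_a k3_pm_202_a

theorem s7_pm_202_a : ∃ t, chk3 f_pm_202_a t 3 4 1 = true := ex3_a k1_pm_202_a s6_pm_202_a

theorem s8_pm_202_a : ∃ t, chk3 f_pm_202_a t 3 2 1 = true := ex3_b s7_pm_202_a k4_pm_202_a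

theorem s9_pm_202_a : ∃ t, chk3 f_pm_202_a t 3 1 1 = true := ex3_b s8_pm_202_a k5_pm_202_a

theorem s10_pm_202_a : ∃ t, chk3 f_pm_202_a t 1 1 1 = true := ex3_a k0_pm_202_a s9_pm_202_a

theorem c_pm_202_a : CertB 0 536870912 1073741824 536870912 991146299 28908434 3 eng mog cd1q2a cd3q2 pd0 false true false .pp 2 0 2
    ndB1q2a ndB3q2 pcB0 Cut.none Ext.none :=
  certB1 (fam := false) (s1 := true) (s2 := false) (a := 2) (b := 0) (c := 2) (cn := .pp) (n1 := ndB1q2a) (n2 := ndB3q2) (pc := pcB0) (cut := Cut.none) (xt := Ext.none) (P1 := 0) (W1 := 536870912) (P2 := 1073741824) (W2 := 536870912) (P3 := 991146299) (W3 := 28908434) (N0 := 3) (En := eng) (mo := mog) (C1 := cd1q2a) (C2 := cd3q2) (C3 := pd0)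
    rfl (fun _ => rfl) s10_pm_202_a

noncomputable def f_pm_202_b : ℕ → ℕ → ℕ → ℕ → Bool := onCell 1239849684 370763052 1073741824 536870912 991146299 28908434
    (rowB 3 eng mog cd1q2b cd3q2 pd0 0 false true false .pp 2 0 2 (qsf 1239849684 370763052 1073741824 536870912 0) ndB1q2b ndB3q2 pcB0 Cut.none Ext.none)

def k0_pm_202_b : ∃ t, chk3 f_pm_202_b t 1 1 1 = true :=
  ⟨(l 3), by decide +kernel⟩

theorem c_pm_202_b : CertB 1239849684 370763052 1073741824 536870912 991146299 28908434 3 eng mog cd1q2b cd3q2 pd0 false true false .pp 2 0 2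
    ndB1q2b ndB3q2 pcB0 Cut.none Ext.none :=
  certB0 (fam := false) (s1 := true) (s2 := false) (a := 2) (b := 0) (c := 2) (cn := .pp) (n1 := ndB1q2b) (n2 := ndB3q2) (pc := pcB0) (cut := Cut.none) (xt := Ext.none) (P1 := 1239849684) (W1 := 370763052) (P2 := 1073741824) (W2 := 536870912) (P3 := 991146299) (W3 := 28908434) (N0 := 3) (En := eng) (mo := mog) (C1 := cd1q2b) (C2 := cd3q2) (C3 := pd0)
    rfl k0_pm_202_b

noncomputable def f_pm_203_a : ℕ → ℕ → ℕ → ℕ → Bool := onCell 0 536870912 0 1230186008 991146299 28908434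
    (rowB 3 eng mog cd1q2a cd3q3 pd0 0 false true false .up 2 0 3 (qsf 0 536870912 0 1230186008 0) ndB1q2a ndB3q3 pcB0 Cut.none Ext.none)

def k0_pm_203_a : ∃ t, chk3 f_pm_203_a t 1 1 1 = true :=
  ⟨(b (l 2) (b (l 2) (a (l 3) (b (l 2) (a (l 3) (a (a (l 3) (b (l 2) (b (c (l 15940408) (l 16035272)) (c (a (l 15998288) (l 15939520)) (l 16072976))))) (b (l 2) (b (a (c (l 15806896) (l 15893192)) (l 2)) (a (c (l 15830400) (l 15927584)) (c (l 15666664) (l 15753680))))))))))), by decide +kernel⟩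

theorem c_pm_203_a : CertB 0 536870912 0 1230186008 991146299 28908434 3 eng mog cd1q2a cd3q3 pd0 false true false .up 2 0 3
    ndB1q2a ndB3q3 pcB0 Cut.none Ext.none :=
  certB0 (fam := false) (s1 := true) (s2 := false) (a := 2) (b := 0) (c := 3) (cn := .up) (n1 := ndB1q2a) (n2 := ndB3q3) (pc := pcB0) (cut := Cut.none) (xt := Ext.none) (P1 := 0) (W1 := 536870912) (P2 := 0) (W2 := 1230186008) (P3 := 991146299) (W3 := 28908434) (N0 := 3) (En := eng) (mo := mog) (C1 := cd1q2a) (C2 := cd3q3) (C3 := pd0)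
    rfl k0_pm_203_a

noncomputable def f_pm_203_b : ℕ → ℕ → ℕ → ℕ → Bool := onCell 1239849684 370763052 0 1230186008 991146299 28908434
    (rowB 3 eng mog cd1q2b cd3q3 pd0 0 false true false .up 2 0 3 (qsf 1239849684 370763052 0 1230186008 0) ndB1q2b ndB3q3 pcB0 Cut.none Ext.none)

def k0_pm_203_b : ∃ t, chk3 f_pm_203_b t 1 1 1 = true :=
  ⟨(b (l 3) (l 3)), by decide +kernel⟩

theorem c_pm_203_b : CertB 1239849684 370763052 0 1230186008 991146299 28908434 3 eng mog cd1q2b cd3q3 pd0 false true false .up 2 0 3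
    ndB1q2b ndB3q3 pcB0 Cut.none Ext.none :=
  certB0 (fam := false) (s1 := true) (s2 := false) (a := 2) (b := 0) (c := 3) (cn := .up) (n1 := ndB1q2b) (n2 := ndB3q3) (pc := pcB0) (cut := Cut.none) (xt := Ext.none) (P1 := 1239849684) (W1 := 370763052) (P2 := 0) (W2 := 1230186008) (P3 := 991146299) (W3 := 28908434) (N0 := 3) (En := eng) (mo := mog) (C1 := cd1q2b) (C2 := cd3q3) (C3 := pd0)
    rfl k0_pm_203_b

end Pool.Agent.Strip051.G.I9231_9500.Tab.C.BB13

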