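import Pool.Agent.Strip051.G.I9231_9500.Tab
import Pool.Agent.Strip051.PB.ExtD3

/-! # Certificates B29 (generated) -/

set_option linter.all false
set_option maxRecDepth 100000

namespace Pool.Agent.Strip051.G.I9231_9500.Tab.C.BB13

open Pool.Agent.Strip051.PB Pool.Agent.Strip051.PB.T
open Pool.Agent.Strip051.G.I9231_9500.Tab

noncomputable def cut_pm_213_a : Cut := Cut.of [[⟨0, 1, 0, 37748736⟩, ⟨1, 1, 0, 37748736⟩, ⟨2, 2, 0, 5242880⟩]]

noncomputable def xt_pm_213_a : Ext := extD3 3 ⟨4, 1, 1, 5, 22, 5, 21, 25, 41, 100, 1, 20⟩ eng cd1q2a cd3q3 pd1 false true false .pnn 2 1 3 rfl ndB1q2a ndB3q3 pcB1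

noncomputable def f_pm_213_a : ℕ → ℕ → ℕ → ℕ → Bool := onCell 0 536870912 0 1230186008 991146299 28908434
    (rowB 3 eng mog cd1q2a cd3q3 pd1 0 false true false .pnn 2 1 3 (qsf 0 536870912 0 1230186008 1) ndB1q2a ndB3q3 pcB1 cut_pm_213_a xt_pm_213_a)

def k0_pm_213_a : ∃ t, chk3 f_pm_213_a t 2 2 1 = true :=
  ⟨(l 3), by decide +kernel⟩

def k1_pm_213_a : ∃ t, chk3 f_pm_213_a t 6 2 1 = true :=
  ⟨(l 3), by decide +kernel⟩

def k2_pm_213_a : ∃ t, chk3 f_pm_213_a t 14 2 1 = true :=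
  ⟨(b (l 3) (l 3)), by decide +kernel⟩

def k3_pm_213_a : ∃ t, chk3 f_pm_213_a t 30 2 1 = true :=
  ⟨(b (l 3) (b (l 3) (b (l 3) (a (l 3) (a (l 3) (b (c (l 273971210103) (l 379734463207)) (c (l 94119250215) (l 16018592)))))))), by decide +kernel⟩

def k4_pm_213_a : ∃ t, chk3 f_pm_213_a t 62 2 1 = true :=
  ⟨(b (b (l 3) (b (l 3) (a (l 3) (a (l 3) (a (l 3) (b (l 3) (c (l 5157277546619860017354113247) (l 5109521794970019680888497887)))))))) (b (b (a (l 3) (a (b (l 3) (c (l 3871582177365226717138298463) (l 4316467177878323310738071583))) (c (b (b (l 3213925175947773205505189599) (l 600443969230372802225439)) (l 601325954003757188064351)) (b (b (l 3562096220707497998987764831) (l 3088197651059580005131296863)) (l 601605249244570388897823))))) (b (a (l 3) (b (c (b (l 2362843862876737406957981727) (l 118279298407)) (b (l 2353171424455073750425735199) (l 100562553751))) (c (l 601334601121268886020127) (l 601072021940519202299935)))) (c (a (b (l 5370648182415980846473142303)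 (l 4180465484371068669941170207)) (b (l 600970278014736130596895) (l 600495850588953533571103))) (a (b (l 4384163622657725060915913247) (l 3929603690817645840381862431)) (b (l 594240384481471140880415) (l 589262068423335814357535)))))) (b (b (c (a (b (l 3203653422122443623969783839) (l 2352569645111737114024673311)) (b (l 16654104) (l 16540672))) (a (b (l 3580838277839853459324977183) (l 138616632477827103)) (b (l 584626170130821255782943) (l 16289088)))) (b (c (l 1975977944447186715774050847) (l 1724512988765924164559774239)) (c (l 1792218082188351657315394079) (a (l 16283312) (l 16152768))))) (b (b (c (l 579423611190096950649375) (l 16098488)) (c (l 16231856) (l 16047520))) (c (b (l 16174312) (l 16121640)) (l 16042416)))))), by decide +kernel⟩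

def k5_pm_213_a : ∃ t, chk3 f_pm_213_a t 63 2 1 = true :=
  ⟨(b (b (b (l 6) (b (l 6) (b (b (l 6) (a (l 3) (a (a (c (l 276656281719) (l 269676965223)) (l 16759632)) (l 16779744)))) (a (a (l 3) (a (l 3) (l 6395217585905417932143607903))) (a (a (c (l 215989867623) (l 603124223684299918911071)) (l 16771168)) (l 16760040)))))) (b (b (a (a (l 3) (a (b (l 3) (l 6279160707222395458143338591)) (a (b (l 6143761015425582760387067999) (l 2711014436811968552749540959)) (c (l 602745777174711628949087) (l 602693031055320854259295))))) (b (a (c (l 16759016) (l 16762400)) (l 16761984)) (c (l 16763608) (l 16770512)))) (a (a (a (l 3) (b (l 3) (l 5408734117099834895835611231))) (b (c (l 2527257103487981552264062559) (l 2459557391904949559747536479)) (c (l 16765872) (l 16772840)))) (a (b (l 16769152) (l 16765704)) (l 16771528)))) (c (a (b (a (a (b (l 370608683127) (l 4954178008924706151153598687)) (l 2246785701424185008007423583)) (l 601501486600938676381279)) (a (l 600989589249758443349727)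 (l 601991189937452707374815))) (b (b (l 16767800) (l 16769144)) (l 16767656))) (a (b (a (a (l 5302348644973771167964840159) (l 2923784435380154682766632543)) (l 600650053971036649694815)) (a (l 601416458514835752543967) (l 600762752143906915231455))) (b (b (l 16772672) (l 16775920)) (l 16770336)))))) (c (b (b (b (a (b (l 16748448) (l 16746696)) (l 16763656)) (a (b (l 16765976) (l 16764440)) (l 16780528))) (b (b (a (l 16764672) (l 16779504)) (l 597627814667287249080351)) (b (l 598359487242127763611679) (l 599006564523724657893407)))) (b (b (l 597380368166775596212255) (b (l 16543384) (l 16438944))) (b (l 16299456) (l 16146216)))) (b (b (b (a (b (l 600195514684200655201503) (l 16749952)) (l 16766400)) (a (b (l 16766456) (l 16761712)) (l 16756776))) (b (b (a (l 16738848) (l 16772968)) (l 594816415578303439900703)) (b (l 596176574723363197374495) (l 597146611315555493699615)))) (b (b (b (l 592610152132140353037855) (l 16379360)) (b (l 16244496) (l 16160832)))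 (b (l 16050472) (l 15931000)))))), by decide +kernel⟩

def k6_pm_213_a : ∃ t, chk3 f_pm_213_a t 2 3 1 = true :=
  ⟨(l 3), by decide +kernel⟩

def k7_pm_213_a : ∃ t, chk3 f_pm_213_a t 6 3 1 = true :=
  ⟨(b (l 3) (l 3)), by decide +kernel⟩

def k8_pm_213_a : ∃ t, chk3 f_pm_213_a t 7 6 1 = true :=
  ⟨(b (a (l 3) (b (a (a (l 3) (b (c (a (l 3) (l 16097464)) (l 83918350855)) (c (b (l 16033824) (l 16002648)) (l 15915216)))) (b (c (a (b (l 16073536) (l 16029704)) (l 16023336)) (a (l 15904112) (l 15837568))) (c (a (l 15971128) (l 15925360)) (a (l 15843936) (l 15765800))))) (a (a (l 3) (b (c (l 46337351751) (l 15873216)) (c (l 15912832) (l 15840760)))) (b (c (a (l 15905848) (l 15848040)) (a (l 15797288) (l 15712336))) (c (a (l 15853240) (l 15788080)) (l 15803384)))))) (a (l 3) (b (a (a (b (l 3) (c (l 15898984) (l 15869824))) (b (c (l 15873768) (l 15817088)) (c (l 15842640) (l 15801616)))) (b (c (a (l 15811872) (l 15742960)) (l 15695600)) (c (a (l 15780576) (l 15710752))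 (l 15682648)))) (a (b (c (a (l 15874056) (l 15819072)) (a (l 15859520) (l 15793848))) (c (a (l 15855072) (l 15802912)) (a (l 15855088) (l 15793288)))) (b (c (a (l 15758552) (l 15690000)) (l 15679632)) (c (a (l 15745320) (l 15679784)) (l 15685784))))))), by decide +kernel⟩

def k9_pm_213_a : ∃ t, chk3 f_pm_213_a t 7 7 1 = true :=
  ⟨(b (a (a (l 3) (b (l 3) (b (c (l 315846470871) (l 15949464)) (c (l 73180883847) (l 189144655639))))) (b (a (b (c (a (l 15842248) (l 15794168)) (a (l 15856352) (l 15799648))) (c (a (l 15835952) (l 15793040)) (l 15817816))) (b (c (a (l 15740680) (l 15679560)) (l 15700424)) (c (l 15801360) (l 15723128)))) (a (b (c (l 15944560) (l 15855728)) (c (l 15830424) (l 15880248))) (b (c (l 15796120) (l 15753880)) (c (l 15758072) (l 15792776)))))) (a (a (l 3) (b (b (c (l 105929564599) (l 204176741639)) (c (a (l 3) (l 15907784)) (l 181628187047))) (b (c (b (l 15922800) (l 15959656)) (l 15879168)) (l 1)))) (b (b (a (c (l 15913656) (l 15912832))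 (c (l 15771176) (l 15840144))) (a (c (l 15859360) (l 15953968)) (c (l 15835720) (l 15896096)))) (b (a (c (l 15920016) (l 16004288)) (c (l 15889008) (l 15960664))) (a (b (l 15853568) (l 1)) (c (l 15951968) (l 16033584))))))), by decide +kernel⟩

theorem s10_pm_213_a : ∃ t, chk3 f_pm_213_a t 7 3 1 = true := ex3_b k8_pm_213_a k9_pm_213_a

theorem s11_pm_213_a : ∃ t, chk3 f_pm_213_a t 3 3 1 = true := ex3_a k7_pm_213_a s10_pm_213_a

theorem s12_pm_213_a : ∃ t, chk3 f_pm_213_a t 1 3 1 = true := ex3_a k6_pm_213_a s11_pm_213_a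

theorem s13_pm_213_a : ∃ t, chk3 f_pm_213_a t 31 2 1 = true := ex3_a k4_pm_213_a k5_pm_213_a

theorem s14_pm_213_a : ∃ t, chk3 f_pm_213_a t 15 2 1 = true := ex3_a k3_pm_213_a s13_pm_213_a

theorem s15_pm_213_a : ∃ t, chk3 f_pm_213_a t 7 2 1 = true := ex3_a k2_pm_213_a s14_pm_213_a

theorem s16_pm_213_a : ∃ t, chk3 f_pm_213_a t 3 2 1 = true := ex3_a k1_pm_213_a s15_pm_213_a

theorem s17_pm_213_a : ∃ t, chk3 f_pm_213_a t 1 2 1 = true := ex3_a k0_pm_213_a s16_pm_213_a

theorem s18_pm_213_a : ∃ t, chk3 f_pm_213_a t 1 1 1 = true := ex3_b s17_pm_213_a s12_pm_213_a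

theorem c_pm_213_a : CertB 0 536870912 0 1230186008 991146299 28908434 3 eng mog cd1q2a cd3q3 pd1 false true false .pnn 2 1 3
    ndB1q2a ndB3q3 pcB1 cut_pm_213_a xt_pm_213_a :=
  certB0 (fam := false) (s1 := true) (s2 := false) (a := 2) (b := 1) (c := 3) (cn := .pnn) (n1 := ndB1q2a) (n2 := ndB3q3) (pc := pcB1) (cut := cut_pm_213_a) (xt := xt_pm_213_a) (P1 := 0) (W1 := 536870912) (P2 := 0) (W2 := 1230186008) (P3 := 991146299) (W3 := 28908434) (N0 := 3) (En := eng) (mo := mog) (C1 := cd1q2a) (C2 := cd3q3) (C3 := pd1)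
    rfl s18_pm_213_a

noncomputable def cut_pm_213_b : Cut := Cut.of [[⟨0, 1, 0, 37748736⟩, ⟨1, 1, 0, 37748736⟩, ⟨2, 2, 0, 5242880⟩]]

noncomputable def f_pm_213_b : ℕ → ℕ → ℕ → ℕ → Bool := onCell 1239849684 370763052 0 1230186008 991146299 28908434
    (rowB 3 eng mog cd1q2b cd3q3 pd1 0 false true false .pnn 2 1 3 (qsf 1239849684 370763052 0 1230186008 1) ndB1q2b ndB3q3 pcB1 cut_pm_213_b Ext.none)

def k0_pm_213_b : ∃ t, chk3 f_pm_213_b t 1 1 1 = true :=
  ⟨(b (l 3) (l 3)), by decide +kernel⟩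

theorem c_pm_213_b : CertB 1239849684 370763052 0 1230186008 991146299 28908434 3 eng mog cd1q2b cd3q3 pd1 false true false .pnn 2 1 3
    ndB1q2b ndB3q3 pcB1 cut_pm_213_b Ext.none :=
  certB0 (fam := false) (s1 := true) (s2 := false) (a := 2) (b := 1) (c := 3) (cn := .pnn) (n1 := ndB1q2b) (n2 := ndB3q3) (pc := pcB1) (cut := cut_pm_213_b) (xt := Ext.none) (P1 := 1239849684) (W1 := 370763052) (P2 := 0) (W2 := 1230186008) (P3 := 991146299) (W3 := 28908434) (N0 := 3) (En := eng) (mo := mog) (C1 := cd1q2b) (C2 := cd3q3) (C3 := pd1)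
    rfl k0_pm_213_b

noncomputable def f_pm_303 : ℕ → ℕ → ℕ → ℕ → Bool := onCell 1610612736 536870912 0 1230186008 991146299 28908434
    (rowB 3 eng mog cd1q3 cd3q3 pd0 0 false true false .npn 3 0 3 (qsf 1610612736 536870912 0 1230186008 0) ndB1q3 ndB3q3 pcB0 Cut.none Ext.none)

def k0_pm_303 : ∃ t, chk3 f_pm_303 t 1 1 1 = true :=
  ⟨(b (l 3) (l 3)), by decide +kernel⟩

theorem c_pm_303 : CertB 1610612736 536870912 0 1230186008 991146299 28908434 3 eng mog cd1q3 cd3q3 pd0 false true false .npn 3 0 3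
    ndB1q3 ndB3q3 pcB0 Cut.none Ext.none :=
  certB0 (fam := false) (s1 := true) (s2 := false) (a := 3) (b := 0) (c := 3) (cn := .npn) (n1 := ndB1q3) (n2 := ndB3q3) (pc := pcB0) (cut := Cut.none) (xt := Ext.none) (P1 := 1610612736) (W1 := 536870912) (P2 := 0) (W2 := 1230186008) (P3 := 991146299) (W3 := 28908434) (N0 := 3) (En := eng) (mo := mog) (C1 := cd1q3) (C2 := cd3q3) (C3 := pd0)
    rfl k0_pm_303

noncomputable def f_pm_313 : ℕ → ℕ → ℕ → ℕ → Bool := onCell 1610612736 536870912 0 1230186008 991146299 28908434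
    (rowB 3 eng mog cd1q3 cd3q3 pd1 0 false true false .dn 3 1 3 (qsf 1610612736 536870912 0 1230186008 1) ndB1q3 ndB3q3 pcB1 Cut.none Ext.none)

def k0_pm_313 : ∃ t, chk3 f_pm_313 t 1 1 1 = true :=
  ⟨(b (l 3) (l 1)), by decide +kernel⟩

theorem c_pm_313 : CertB 1610612736 536870912 0 1230186008 991146299 28908434 3 eng mog cd1q3 cd3q3 pd1 false true false .dn 3 1 3
    ndB1q3 ndB3q3 pcB1 Cut.none Ext.none :=
  certB0 (fam := false) (s1 := true) (s2 := false) (a := 3) (b := 1) (c := 3) (cn := .dn) (n1 := ndB1q3) (n2 := ndB3q3) (pc := pcB1) (cut := Cut.none) (xt := Ext.none) (P1 := 1610612736) (W1 := 536870912) (P2 := 0) (W2 := 1230186008) (P3 := 991146299) (W3 := 28908434) (N0 := 3) (En := eng) (mo := mog) (C1 := cd1q3) (C2 := cd3q3) (C3 := pd1)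
    rfl k0_pm_313

noncomputable def f_mm_001 : ℕ → ℕ → ℕ → ℕ → Bool := onCell 0 536870912 0 536870912 991146299 28908434
    (rowB 3 eng mog cd1q0 cd3q1 pd0 1 false false false .up 0 0 1 (qsf 0 536870912 536870912 536870912 0) ndB1q0 ndB3q1 pcB0 Cut.none Ext.none)

def k0_mm_001 : ∃ t, chk3 f_mm_001 t 1 1 1 = true :=
  ⟨(l 3), by decide +kernel⟩

theorem c_mm_001 : CertB 0 536870912 536870912 536870912 991146299 28908434 3 eng mog cd1q0 cd3q1 pd0 false false false .up 0 0 1
    ndB1q0 ndB3q1 pcB0 Cut.none Ext.none :=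
  certB1 (fam := false) (s1 := false) (s2 := false) (a := 0) (b := 0) (c := 1) (cn := .up) (n1 := ndB1q0) (n2 := ndB3q1) (pc := pcB0) (cut := Cut.none) (xt := Ext.none) (P1 := 0) (W1 := 536870912) (P2 := 536870912) (W2 := 536870912) (P3 := 991146299) (W3 := 28908434) (N0 := 3) (En := eng) (mo := mog) (C1 := cd1q0) (C2 := cd3q1) (C3 := pd0)
    rfl (fun _ => rfl) k0_mm_001

noncomputable def f_mm_011 : ℕ → ℕ → ℕ → ℕ → Bool := onCell 0 536870912 536870912 536870912 991146299 28908434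
    (rowB 3 eng mog cd1q0 cd3q1 pd1 1 false false false .pnn 0 1 1 (qsf 0 536870912 536870912 536870912 1) ndB1q0 ndB3q1 pcB1 Cut.none Ext.none)

def k0_mm_011 : ∃ t, chk3 f_mm_011 t 1 1 1 = true :=
  ⟨(l 5), by decide +kernel⟩

theorem c_mm_011 : CertB 0 536870912 536870912 536870912 991146299 28908434 3 eng mog cd1q0 cd3q1 pd1 false false false .pnn 0 1 1
    ndB1q0 ndB3q1 pcB1 Cut.none Ext.none :=
  certB1 (fam := false) (s1 := false) (s2 := false) (a := 0) (b := 1) (c := 1) (cn := .pnn) (n1 := ndB1q0) (n2 := ndB3q1) (pc := pcB1) (cut := Cut.none) (xt := Ext.none) (P1 := 0) (W1 := 536870912) (P2 := 536870912) (W2 := 536870912) (P3 := 991146299) (W3 := 28908434) (N0 := 3) (En := eng) (mo := mog) (C1 := cd1q0) (C2 := cd3q1) (C3 := pd1)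
    rfl (fun _ => rfl) k0_mm_011

noncomputable def f_mm_012 : ℕ → ℕ → ℕ → ℕ → Bool := onCell 0 536870912 1073741824 536870912 991146299 28908434
    (rowB 3 eng mog cd1q0 cd3q2 pd1 0 false false false .pnp 0 1 2 (qsf 0 536870912 1073741824 536870912 1) ndB1q0 ndB3q2 pcB1 Cut.none Ext.none)

def k0_mm_012 : ∃ t, chk3 f_mm_012 t 1 1 1 = true :=
  ⟨(l 5), by decide +kernel⟩

theorem c_mm_012 : CertB 0 536870912 1073741824 536870912 991146299 28908434 3 eng mog cd1q0 cd3q2 pd1 false false false .pnp 0 1 2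
    ndB1q0 ndB3q2 pcB1 Cut.none Ext.none :=
  certB0 (fam := false) (s1 := false) (s2 := false) (a := 0) (b := 1) (c := 2) (cn := .pnp) (n1 := ndB1q0) (n2 := ndB3q2) (pc := pcB1) (cut := Cut.none) (xt := Ext.none) (P1 := 0) (W1 := 536870912) (P2 := 1073741824) (W2 := 536870912) (P3 := 991146299) (W3 := 28908434) (N0 := 3) (En := eng) (mo := mog) (C1 := cd1q0) (C2 := cd3q2) (C3 := pd1)
    rfl k0_mm_012

noncomputable def f_mm_022 : ℕ → ℕ → ℕ → ℕ → Bool := onCell 0 536870912 1073741824 536870912 991146299 28908434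
    (rowB 3 eng mog cd1q0 cd3q2 pd2 0 false false false .pp 0 2 2 (qsf 0 536870912 1073741824 536870912 2) ndB1q0 ndB3q2 pcB2 Cut.none Ext.none)

def k0_mm_022 : ∃ t, chk3 f_mm_022 t 1 1 1 = true :=
  ⟨(l 5), by decide +kernel⟩

theorem c_mm_022 : CertB 0 536870912 1073741824 536870912 991146299 28908434 3 eng mog cd1q0 cd3q2 pd2 false false false .pp 0 2 2
    ndB1q0 ndB3q2 pcB2 Cut.none Ext.none :=
  certB0 (fam := false) (s1 := false) (s2 := false) (a := 0) (b := 2) (c := 2) (cn := .pp) (n1 := ndB1q0) (n2 := ndB3q2) (pc := pcB2) (cut := Cut.none) (xt := Ext.none) (P1 := 0) (W1 := 536870912) (P2 := 1073741824) (W2 := 536870912) (P3 := 991146299) (W3 := 28908434) (N0 := 3) (En := eng) (mo := mog) (C1 := cd1q0) (C2 := cd3q2) (C3 := pd2)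
    rfl k0_mm_022

noncomputable def f_mm_023 : ℕ → ℕ → ℕ → ℕ → Bool := onCell 0 536870912 0 1230186008 991146299 28908434
    (rowB 3 eng mog cd1q0 cd3q3 pd2 0 false false false .up 0 2 3 (qsf 0 536870912 0 1230186008 2) ndB1q0 ndB3q3 pcB2 Cut.none Ext.none)

def k0_mm_023 : ∃ t, chk3 f_mm_023 t 1 1 1 = true :=
  ⟨(l 5), by decide +kernel⟩

theorem c_mm_023 : CertB 0 536870912 0 1230186008 991146299 28908434 3 eng mog cd1q0 cd3q3 pd2 false false false .up 0 2 3
    ndB1q0 ndB3q3 pcB2 Cut.none Ext.none :=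
  certB0 (fam := false) (s1 := false) (s2 := false) (a := 0) (b := 2) (c := 3) (cn := .up) (n1 := ndB1q0) (n2 := ndB3q3) (pc := pcB2) (cut := Cut.none) (xt := Ext.none) (P1 := 0) (W1 := 536870912) (P2 := 0) (W2 := 1230186008) (P3 := 991146299) (W3 := 28908434) (N0 := 3) (En := eng) (mo := mog) (C1 := cd1q0) (C2 := cd3q3) (C3 := pd2)
    rfl k0_mm_023

noncomputable def f_mm_033 : ℕ → ℕ → ℕ → ℕ → Bool := onCell 0 536870912 0 1230186008 991146299 28908434
    (rowB 3 eng mog cd1q0 cd3q3 pd3 0 false false false .pnn 0 3 3 (qsf 0 536870912 0 1230186008 3) ndB1q0 ndB3q3 pcB3 Cut.none Ext.none)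

def k0_mm_033 : ∃ t, chk3 f_mm_033 t 1 1 1 = true :=
  ⟨(l 5), by decide +kernel⟩

theorem c_mm_033 : CertB 0 536870912 0 1230186008 991146299 28908434 3 eng mog cd1q0 cd3q3 pd3 false false false .pnn 0 3 3
    ndB1q0 ndB3q3 pcB3 Cut.none Ext.none :=
  certB0 (fam := false) (s1 := false) (s2 := false) (a := 0) (b := 3) (c := 3) (cn := .pnn) (n1 := ndB1q0) (n2 := ndB3q3) (pc := pcB3) (cut := Cut.none) (xt := Ext.none) (P1 := 0) (W1 := 536870912) (P2 := 0) (W2 := 1230186008) (P3 := 991146299) (W3 := 28908434) (N0 := 3) (En := eng) (mo := mog) (C1 := cd1q0) (C2 := cd3q3) (C3 := pd3)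
    rfl k0_mm_033

noncomputable def f_mm_101 : ℕ → ℕ → ℕ → ℕ → Bool := onCell 536870912 536870912 536870912 536870912 991146299 28908434
    (rowB 3 eng mog cd1q1 cd3q1 pd0 0 false false false .npn 1 0 1 (qsf 536870912 536870912 536870912 536870912 0) ndB1q1 ndB3q1 pcB0 Cut.none Ext.none)

def k0_mm_101 : ∃ t, chk3 f_mm_101 t 1 1 1 = true :=
  ⟨(l 3), by decide +kernel⟩

theorem c_mm_101 : CertB 536870912 536870912 536870912 536870912 991146299 28908434 3 eng mog cd1q1 cd3q1 pd0 false false false .npn 1 0 1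
    ndB1q1 ndB3q1 pcB0 Cut.none Ext.none :=
  certB0 (fam := false) (s1 := false) (s2 := false) (a := 1) (b := 0) (c := 1) (cn := .npn) (n1 := ndB1q1) (n2 := ndB3q1) (pc := pcB0) (cut := Cut.none) (xt := Ext.none) (P1 := 536870912) (W1 := 536870912) (P2 := 536870912) (W2 := 536870912) (P3 := 991146299) (W3 := 28908434) (N0 := 3) (En := eng) (mo := mog) (C1 := cd1q1) (C2 := cd3q1) (C3 := pd0)
    rfl k0_mm_101

noncomputable def f_mm_102 : ℕ → ℕ → ℕ → ℕ → Bool := onCell 536870912 536870912 1073741824 536870912 991146299 28908434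
    (rowB 3 eng mog cd1q1 cd3q2 pd0 0 false false false .npp 1 0 2 (qsf 536870912 536870912 1073741824 536870912 0) ndB1q1 ndB3q2 pcB0 Cut.none Ext.none)

def k0_mm_102 : ∃ t, chk3 f_mm_102 t 1 1 1 = true :=
  ⟨(l 5), by decide +kernel⟩

theorem c_mm_102 : CertB 536870912 536870912 1073741824 536870912 991146299 28908434 3 eng mog cd1q1 cd3q2 pd0 false false false .npp 1 0 2
    ndB1q1 ndB3q2 pcB0 Cut.none Ext.none :=
  certB0 (fam := false) (s1 := false) (s2 := false) (a := 1) (b := 0) (c := 2) (cn := .npp) (n1 := ndB1q1) (n2 := ndB3q2) (pc := pcB0) (cut := Cut.none) (xt := Ext.none) (P1 := 536870912) (W1 := 536870912) (P2 := 1073741824) (W2 := 536870912) (P3 := 991146299) (W3 := 28908434) (N0 := 3) (En := eng) (mo := mog) (C1 := cd1q1) (C2 := cd3q2) (C3 := pd0)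
    rfl k0_mm_102

noncomputable def f_mm_112 : ℕ → ℕ → ℕ → ℕ → Bool := onCell 536870912 536870912 1073741824 536870912 991146299 28908434
    (rowB 3 eng mog cd1q1 cd3q2 pd1 0 false false false .dn 1 1 2 (qsf 536870912 536870912 1073741824 536870912 1) ndB1q1 ndB3q2 pcB1 Cut.none Ext.none)

def k0_mm_112 : ∃ t, chk3 f_mm_112 t 1 1 1 = true :=
  ⟨(l 5), by decide +kernel⟩

theorem c_mm_112 : CertB 536870912 536870912 1073741824 536870912 991146299 28908434 3 eng mog cd1q1 cd3q2 pd1 false false false .dn 1 1 2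
    ndB1q1 ndB3q2 pcB1 Cut.none Ext.none :=
  certB0 (fam := false) (s1 := false) (s2 := false) (a := 1) (b := 1) (c := 2) (cn := .dn) (n1 := ndB1q1) (n2 := ndB3q2) (pc := pcB1) (cut := Cut.none) (xt := Ext.none) (P1 := 536870912) (W1 := 536870912) (P2 := 1073741824) (W2 := 536870912) (P3 := 991146299) (W3 := 28908434) (N0 := 3) (En := eng) (mo := mog) (C1 := cd1q1) (C2 := cd3q2) (C3 := pd1)
    rfl k0_mm_112

noncomputable def f_mm_113 : ℕ → ℕ → ℕ → ℕ → Bool := onCell 536870912 536870912 0 1230186008 991146299 28908434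
    (rowB 3 eng mog cd1q1 cd3q3 pd1 0 false false false .nn 1 1 3 (qsf 536870912 536870912 0 1230186008 1) ndB1q1 ndB3q3 pcB1 Cut.none Ext.none)

def k0_mm_113 : ∃ t, chk3 f_mm_113 t 1 1 1 = true :=
  ⟨(l 5), by decide +kernel⟩

theorem c_mm_113 : CertB 536870912 536870912 0 1230186008 991146299 28908434 3 eng mog cd1q1 cd3q3 pd1 false false false .nn 1 1 3
    ndB1q1 ndB3q3 pcB1 Cut.none Ext.none :=
  certB0 (fam := false) (s1 := false) (s2 := false) (a := 1) (b := 1) (c := 3) (cn := .nn) (n1 := ndB1q1) (n2 := ndB3q3) (pc := pcB1) (cut := Cut.none) (xt := Ext.none) (P1 := 536870912) (W1 := 536870912) (P2 := 0) (W2 := 1230186008) (P3 := 991146299) (W3 := 28908434) (N0 := 3) (En := eng) (mo := mog) (C1 := cd1q1) (C2 := cd3q3) (C3 := pd1)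
    rfl k0_mm_113

noncomputable def f_mm_123 : ℕ → ℕ → ℕ → ℕ → Bool := onCell 536870912 536870912 0 1230186008 991146299 28908434
    (rowB 3 eng mog cd1q1 cd3q3 pd2 0 false false false .npn 1 2 3 (qsf 536870912 536870912 0 1230186008 2) ndB1q1 ndB3q3 pcB2 Cut.none Ext.none)

def k0_mm_123 : ∃ t, chk3 f_mm_123 t 1 1 1 = true :=
  ⟨(l 5), by decide +kernel⟩

theorem c_mm_123 : CertB 536870912 536870912 0 1230186008 991146299 28908434 3 eng mog cd1q1 cd3q3 pd2 false false false .npn 1 2 3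
    ndB1q1 ndB3q3 pcB2 Cut.none Ext.none :=
  certB0 (fam := false) (s1 := false) (s2 := false) (a := 1) (b := 2) (c := 3) (cn := .npn) (n1 := ndB1q1) (n2 := ndB3q3) (pc := pcB2) (cut := Cut.none) (xt := Ext.none) (P1 := 536870912) (W1 := 536870912) (P2 := 0) (W2 := 1230186008) (P3 := 991146299) (W3 := 28908434) (N0 := 3) (En := eng) (mo := mog) (C1 := cd1q1) (C2 := cd3q3) (C3 := pd2)
    rfl k0_mm_123

noncomputable def f_mm_133 : ℕ → ℕ → ℕ → ℕ → Bool := onCell 536870912 536870912 0 1230186008 991146299 28908434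
    (rowB 3 eng mog cd1q1 cd3q3 pd3 0 false false false .dn 1 3 3 (qsf 536870912 536870912 0 1230186008 3) ndB1q1 ndB3q3 pcB3 Cut.none Ext.none)

def k0_mm_133 : ∃ t, chk3 f_mm_133 t 1 1 1 = true :=
  ⟨(l 5), by decide +kernel⟩

theorem c_mm_133 : CertB 536870912 536870912 0 1230186008 991146299 28908434 3 eng mog cd1q1 cd3q3 pd3 false false false .dn 1 3 3
    ndB1q1 ndB3q3 pcB3 Cut.none Ext.none :=
  certB0 (fam := false) (s1 := false) (s2 := false) (a := 1) (b := 3) (c := 3) (cn := .dn) (n1 := ndB1q1) (n2 := ndB3q3) (pc := pcB3) (cut := Cut.none) (xt := Ext.none) (P1 := 536870912) (W1 := 536870912) (P2 := 0) (W2 := 1230186008) (P3 := 991146299) (W3 := 28908434) (N0 := 3) (En := eng) (mo := mog) (C1 := cd1q1) (C2 := cd3q3) (C3 := pd3)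
    rfl k0_mm_133

noncomputable def f_mm_202_a : ℕ → ℕ → ℕ → ℕ → Bool := onCell 0 536870912 1073741824 536870912 991146299 28908434
    (rowB 3 eng mog cd1q2a cd3q2 pd0 0 false false false .pp 2 0 2 (qsf 0 536870912 1073741824 536870912 0) ndB1q2a ndB3q2 pcB0 Cut.none Ext.none)

def k0_mm_202_a : ∃ t, chk3 f_mm_202_a t 1 1 1 = true :=
  ⟨(l 3), by decide +kernel⟩

theorem c_mm_202_a : CertB 0 536870912 1073741824 536870912 991146299 28908434 3 eng mog cd1q2a cd3q2 pd0 false false false .pp 2 0 2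
    ndB1q2a ndB3q2 pcB0 Cut.none Ext.none :=
  certB0 (fam := false) (s1 := false) (s2 := false) (a := 2) (b := 0) (c := 2) (cn := .pp) (n1 := ndB1q2a) (n2 := ndB3q2) (pc := pcB0) (cut := Cut.none) (xt := Ext.none) (P1 := 0) (W1 := 536870912) (P2 := 1073741824) (W2 := 536870912) (P3 := 991146299) (W3 := 28908434) (N0 := 3) (En := eng) (mo := mog) (C1 := cd1q2a) (C2 := cd3q2) (C3 := pd0)
    rfl k0_mm_202_a

noncomputable def f_mm_202_b : ℕ → ℕ → ℕ → ℕ → Bool := onCell 1239849684 370763052 1073741824 536870912 991146299 28908434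
    (rowB 3 eng mog cd1q2b cd3q2 pd0 0 false false false .pp 2 0 2 (qsf 1239849684 370763052 1073741824 536870912 0) ndB1q2b ndB3q2 pcB0 Cut.none Ext.none)

def k0_mm_202_b : ∃ t, chk3 f_mm_202_b t 1 1 1 = true :=
  ⟨(l 3), by decide +kernel⟩

theorem c_mm_202_b : CertB 1239849684 370763052 1073741824 536870912 991146299 28908434 3 eng mog cd1q2b cd3q2 pd0 false false false .pp 2 0 2
    ndB1q2b ndB3q2 pcB0 Cut.none Ext.none :=
  certB0 (fam := false) (s1 := false) (s2 := false) (a := 2) (b := 0) (c := 2) (cn := .pp) (n1 := ndB1q2b) (n2 := ndB3q2) (pc := pcB0) (cut := Cut.none) (xt := Ext.none) (P1 := 1239849684) (W1 := 370763052) (P2 := 1073741824) (W2 := 536870912) (P3 := 991146299) (W3 := 28908434) (N0 := 3) (En := eng) (mo := mog) (C1 := cd1q2b) (C2 := cd3q2) (C3 := pd0)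
    rfl k0_mm_202_b

noncomputable def f_mm_203_a : ℕ → ℕ → ℕ → ℕ → Bool := onCell 0 536870912 0 1230186008 991146299 28908434
    (rowB 3 eng mog cd1q2a cd3q3 pd0 0 false false false .up 2 0 3 (qsf 0 536870912 0 1230186008 0) ndB1q2a ndB3q3 pcB0 Cut.none Ext.none)

def k0_mm_203_a : ∃ t, chk3 f_mm_203_a t 1 1 1 = true :=
  ⟨(b (l 2) (l 3)), by decide +kernel⟩

theorem c_mm_203_a : CertB 0 536870912 0 1230186008 991146299 28908434 3 eng mog cd1q2a cd3q3 pd0 false false false .up 2 0 3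
    ndB1q2a ndB3q3 pcB0 Cut.none Ext.none :=
  certB0 (fam := false) (s1 := false) (s2 := false) (a := 2) (b := 0) (c := 3) (cn := .up) (n1 := ndB1q2a) (n2 := ndB3q3) (pc := pcB0) (cut := Cut.none) (xt := Ext.none) (P1 := 0) (W1 := 536870912) (P2 := 0) (W2 := 1230186008) (P3 := 991146299) (W3 := 28908434) (N0 := 3) (En := eng) (mo := mog) (C1 := cd1q2a) (C2 := cd3q3) (C3 := pd0)
    rfl k0_mm_203_a

noncomputable def f_mm_203_b : ℕ → ℕ → ℕ → ℕ → Bool := onCell 1239849684 370763052 0 1230186008 991146299 28908434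
    (rowB 3 eng mog cd1q2b cd3q3 pd0 0 false false false .up 2 0 3 (qsf 1239849684 370763052 0 1230186008 0) ndB1q2b ndB3q3 pcB0 Cut.none Ext.none)

def k0_mm_203_b : ∃ t, chk3 f_mm_203_b t 1 1 1 = true :=
  ⟨(b (l 3) (l 3)), by decide +kernel⟩

theorem c_mm_203_b : CertB 1239849684 370763052 0 1230186008 991146299 28908434 3 eng mog cd1q2b cd3q3 pd0 false false false .up 2 0 3
    ndB1q2b ndB3q3 pcB0 Cut.none Ext.none :=
  certB0 (fam := false) (s1 := false) (s2 := false) (a := 2) (b := 0) (c := 3) (cn := .up) (n1 := ndB1q2b) (n2 := ndB3q3) (pc := pcB0) (cut := Cut.none) (xt := Ext.none) (P1 := 1239849684) (W1 := 370763052) (P2 := 0) (W2 := 1230186008) (P3 := 991146299) (W3 := 28908434) (N0 := 3) (En := eng) (mo := mog) (C1 := cd1q2b) (C2 := cd3q3) (C3 := pd0)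
    rfl k0_mm_203_b

noncomputable def f_mm_213_a : ℕ → ℕ → ℕ → ℕ → Bool := onCell 0 536870912 0 1230186008 991146299 28908434
    (rowB 3 eng mog cd1q2a cd3q3 pd1 0 false false false .pnn 2 1 3 (qsf 0 536870912 0 1230186008 1) ndB1q2a ndB3q3 pcB1 Cut.none Ext.none)

def k0_mm_213_a : ∃ t, chk3 f_mm_213_a t 1 1 1 = true :=
  ⟨(b (b (l 5) (l 3)) (l 3)), by decide +kernel⟩

theorem c_mm_213_a : CertB 0 536870912 0 1230186008 991146299 28908434 3 eng mog cd1q2a cd3q3 pd1 false false false .pnn 2 1 3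
    ndB1q2a ndB3q3 pcB1 Cut.none Ext.none :=
  certB0 (fam := false) (s1 := false) (s2 := false) (a := 2) (b := 1) (c := 3) (cn := .pnn) (n1 := ndB1q2a) (n2 := ndB3q3) (pc := pcB1) (cut := Cut.none) (xt := Ext.none) (P1 := 0) (W1 := 536870912) (P2 := 0) (W2 := 1230186008) (P3 := 991146299) (W3 := 28908434) (N0 := 3) (En := eng) (mo := mog) (C1 := cd1q2a) (C2 := cd3q3) (C3 := pd1)
    rfl k0_mm_213_a

noncomputable def f_mm_213_b : ℕ → ℕ → ℕ → ℕ → Bool := onCell 1239849684 370763052 0 1230186008 991146299 28908434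
    (rowB 3 eng mog cd1q2b cd3q3 pd1 0 false false false .pnn 2 1 3 (qsf 1239849684 370763052 0 1230186008 1) ndB1q2b ndB3q3 pcB1 Cut.none Ext.none)

def k0_mm_213_b : ∃ t, chk3 f_mm_213_b t 1 1 1 = true :=
  ⟨(b (l 3) (l 3)), by decide +kernel⟩

theorem c_mm_213_b : CertB 1239849684 370763052 0 1230186008 991146299 28908434 3 eng mog cd1q2b cd3q3 pd1 false false false .pnn 2 1 3
    ndB1q2b ndB3q3 pcB1 Cut.none Ext.none :=
  certB0 (fam := false) (s1 := false) (s2 := false) (a := 2) (b := 1) (c := 3) (cn := .pnn) (n1 := ndB1q2b) (n2 := ndB3q3) (pc := pcB1) (cut := Cut.none) (xt := Ext.none) (P1 := 1239849684) (W1 := 370763052) (P2 := 0) (W2 := 1230186008) (P3 := 991146299) (W3 := 28908434) (N0 := 3) (En := eng) (mo := mog) (C1 := cd1q2b) (C2 := cd3q3) (C3 := pd1)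
    rfl k0_mm_213_b

noncomputable def f_mm_303 : ℕ → ℕ → ℕ → ℕ → Bool := onCell 1610612736 536870912 0 1230186008 991146299 28908434
    (rowB 3 eng mog cd1q3 cd3q3 pd0 0 false false false .npn 3 0 3 (qsf 1610612736 536870912 0 1230186008 0) ndB1q3 ndB3q3 pcB0 Cut.none Ext.none)

def k0_mm_303 : ∃ t, chk3 f_mm_303 t 1 1 1 = true :=
  ⟨(b (l 3) (l 3)), by decide +kernel⟩

theorem c_mm_303 : CertB 1610612736 536870912 0 1230186008 991146299 28908434 3 eng mog cd1q3 cd3q3 pd0 false false false .npn 3 0 3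
    ndB1q3 ndB3q3 pcB0 Cut.none Ext.none :=
  certB0 (fam := false) (s1 := false) (s2 := false) (a := 3) (b := 0) (c := 3) (cn := .npn) (n1 := ndB1q3) (n2 := ndB3q3) (pc := pcB0) (cut := Cut.none) (xt := Ext.none) (P1 := 1610612736) (W1 := 536870912) (P2 := 0) (W2 := 1230186008) (P3 := 991146299) (W3 := 28908434) (N0 := 3) (En := eng) (mo := mog) (C1 := cd1q3) (C2 := cd3q3) (C3 := pd0)
    rfl k0_mm_303

noncomputable def f_mm_313 : ℕ → ℕ → ℕ → ℕ → Bool := onCell 1610612736 536870912 0 1230186008 991146299 28908434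
    (rowB 3 eng mog cd1q3 cd3q3 pd1 0 false false false .dn 3 1 3 (qsf 1610612736 536870912 0 1230186008 1) ndB1q3 ndB3q3 pcB1 Cut.none Ext.none)

def k0_mm_313 : ∃ t, chk3 f_mm_313 t 1 1 1 = true :=
  ⟨(b (l 3) (l 1)), by decide +kernel⟩

theorem c_mm_313 : CertB 1610612736 536870912 0 1230186008 991146299 28908434 3 eng mog cd1q3 cd3q3 pd1 false false false .dn 3 1 3
    ndB1q3 ndB3q3 pcB1 Cut.none Ext.none :=
  certB0 (fam := false) (s1 := false) (s2 := false) (a := 3) (b := 1) (c := 3) (cn := .dn) (n1 := ndB1q3) (n2 := ndB3q3) (pc := pcB1) (cut := Cut.none) (xt := Ext.none) (P1 := 1610612736) (W1 := 536870912) (P2 := 0) (W2 := 1230186008) (P3 := 991146299) (W3 := 28908434) (N0 := 3) (En := eng) (mo := mog) (C1 := cd1q3) (C2 := cd3q3) (C3 := pd1)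
    rfl k0_mm_313

end Pool.Agent.Strip051.G.I9231_9500.Tab.C.BB13

namespace Pool.Agent.Strip051.G.I9231_9500.Tab.C.BB14

open Pool.Agent.Strip051.PB Pool.Agent.Strip051.PB.T
open Pool.Agent.Strip051.G.I9231_9500.Tab

noncomputable def f_pp_001 : ℕ → ℕ → ℕ → ℕ → Bool := onCell 0 536870912 0 536870912 991146299 28908434
    (rowB 3 eng mog cd1q0 cd4q1 pd0 1 false true true .up 0 0 1 (qsf 0 536870912 536870912 536870912 0) ndB1q0 ndB4q1 pcB0 Cut.none Ext.none)

def k0_pp_001 : ∃ t, chk3 f_pp_001 t 1 1 1 = true :=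
  ⟨(l 3), by decide +kernel⟩

theorem c_pp_001 : CertB 0 536870912 536870912 536870912 991146299 28908434 3 eng mog cd1q0 cd4q1 pd0 false true true .up 0 0 1
    ndB1q0 ndB4q1 pcB0 Cut.none Ext.none :=
  certB1 (fam := false) (s1 := true) (s2 := true) (a := 0) (b := 0) (c := 1) (cn := .up) (n1 := ndB1q0) (n2 := ndB4q1) (pc := pcB0) (cut := Cut.none) (xt := Ext.none) (P1 := 0) (W1 := 536870912) (P2 := 536870912) (W2 := 536870912) (P3 := 991146299) (W3 := 28908434) (N0 := 3) (En := eng) (mo := mog) (C1 := cd1q0) (C2 := cd4q1) (C3 := pd0)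
    rfl (fun _ => rfl) k0_pp_001

noncomputable def cut_pp_011 : Cut := Cut.of [[⟨0, 0, 0, 53687091⟩, ⟨1, 1, 0, 53687091⟩, ⟨2, 1, 0, 53687091⟩]]

noncomputable def f_pp_011 : ℕ → ℕ → ℕ → ℕ → Bool := onCell 0 536870912 536870912 536870912 991146299 28908434
    (rowB 3 eng mog cd1q0 cd4q1 pd1 1 false true true .pnn 0 1 1 (qsf 0 536870912 536870912 536870912 1) ndB1q0 ndB4q1 pcB1 cut_pp_011 Ext.none)

def k0_pp_011 : ∃ t, chk3 f_pp_011 t 1 1 1 = true :=
  ⟨(b (l 3) (b (l 3) (b (l 3) (a (a (a (b (l 3) (a (l 6) (l 3))) (l 3)) (l 2)) (l 2))))), by decide +kernel⟩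

theorem c_pp_011 : CertB 0 536870912 536870912 536870912 991146299 28908434 3 eng mog cd1q0 cd4q1 pd1 false true true .pnn 0 1 1
    ndB1q0 ndB4q1 pcB1 cut_pp_011 Ext.none :=
  certB1 (fam := false) (s1 := true) (s2 := true) (a := 0) (b := 1) (c := 1) (cn := .pnn) (n1 := ndB1q0) (n2 := ndB4q1) (pc := pcB1) (cut := cut_pp_011) (xt := Ext.none) (P1 := 0) (W1 := 536870912) (P2 := 536870912) (W2 := 536870912) (P3 := 991146299) (W3 := 28908434) (N0 := 3) (En := eng) (mo := mog) (C1 := cd1q0) (C2 := cd4q1) (C3 := pd1)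
    rfl (fun _ => rfl) k0_pp_011

noncomputable def f_pp_012 : ℕ → ℕ → ℕ → ℕ → Bool := onCell 0 536870912 536870912 536870912 991146299 28908434
    (rowB 3 eng mog cd1q0 cd4q2 pd1 1 false true true .pnp 0 1 2 (qsf 0 536870912 1073741824 536870912 1) ndB1q0 ndB4q2 pcB1 Cut.none Ext.none)

def k0_pp_012 : ∃ t, chk3 f_pp_012 t 1 1 1 = true :=
  ⟨(l 3), by decide +kernel⟩

theorem c_pp_012 : CertB 0 536870912 1073741824 536870912 991146299 28908434 3 eng mog cd1q0 cd4q2 pd1 false true true .pnp 0 1 2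
    ndB1q0 ndB4q2 pcB1 Cut.none Ext.none :=
  certB1 (fam := false) (s1 := true) (s2 := true) (a := 0) (b := 1) (c := 2) (cn := .pnp) (n1 := ndB1q0) (n2 := ndB4q2) (pc := pcB1) (cut := Cut.none) (xt := Ext.none) (P1 := 0) (W1 := 536870912) (P2 := 1073741824) (W2 := 536870912) (P3 := 991146299) (W3 := 28908434) (N0 := 3) (En := eng) (mo := mog) (C1 := cd1q0) (C2 := cd4q2) (C3 := pd1)
    rfl (fun _ => rfl) k0_pp_012

noncomputable def f_pp_022 : ℕ → ℕ → ℕ → ℕ → Bool := onCell 1073741824 536870912 1073741824 536870912 991146299 28908434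
    (rowB 3 eng mog cd1q0 cd4q2 pd2 2 false true true .pp 0 2 2 (qsf 0 536870912 1073741824 536870912 2) ndB1q0 ndB4q2 pcB2 Cut.none Ext.none)

def k0_pp_022 : ∃ t, chk3 f_pp_022 t 2 2 1 = true :=
  ⟨(a (a (l 3) (b (b (a (l 3) (l 1)) (l 3)) (l 3))) (b (a (b (l 1) (a (a (a (a (l 3) (l 1)) (l 1)) (l 1)) (l 1))) (l 1)) (a (a (b (b (b (b (a (a (l 3) (l 16093120)) (l 1)) (a (l 3) (a (a (l 16073760) (l 1)) (l 1)))) (a (l 3) (a (c (l 16109096) (l 16103952)) (a (a (l 16154200) (l 16143864)) (a (l 16134024) (c (l 16139304) (l 16113576))))))) (a (l 3) (b (a (c (l 16307480) (l 16290024)) (a (l 16215120) (a (l 16283440) (l 16232072)))) (a (l 16306056) (a (l 16337896) (l 16254672)))))) (a (l 3) (a (b (b (l 16345704) (l 3)) (l 3)) (a (b (c (l 16347360) (l 16189336)) (c (l 16204536) (l 16080808))) (b (l 16174584) (l 15934816)))))) (b (b (b (l 1) (c (l 16058800) (l 16033040))) (b (a (l 16187944) (l 16150264)) (b (l 16190216) (l 16280296)))) (b (b (l 16299576) (l 16234152))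 (c (l 16143232) (l 16083304))))) (b (a (b (l 1) (c (l 15926176) (l 442950691271))) (l 1)) (b (a (c (l 16081120) (l 16108624)) (c (l 16172464) (l 16204520))) (c (a (l 16177352) (l 16115344)) (a (l 16034648) (l 15931552)))))))), by decide +kernel⟩

def k1_pp_022 : ∃ t, chk3 f_pp_022 t 2 3 1 = true :=
  ⟨(a (l 3) (a (a (a (l 3) (b (a (l 3) (a (b (l 3) (l 3)) (b (b (c (l 16039784) (l 15872376)) (c (l 15892872) (l 15687312))) (c (l 15697160) (b (l 15526616) (l 15390280)))))) (a (a (l 3) (b (l 3) (b (l 3) (l 382953752727)))) (a (a (b (l 3) (c (l 15389480) (l 15095048))) (b (c (l 15522176) (l 15227744)) (c (l 15392352) (l 15098088)))) (b (c (l 15525688) (l 15231464)) (b (l 15283760) (b (l 15252872) (l 15239160)))))))) (b (b (b (c (l 16044432) (l 15877880)) (c (l 15901096) (l 15696520))) (c (b (l 15776208) (l 15669768)) (b (l 15539304) (l 15406232)))) (b (c (b (l 15581736) (l 15512008)) (b (l 15297168) (l 15211880))) (c (b (l 15460400) (l 15426840)) (b (l 15150024)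 (l 15111296)))))) (b (b (b (c (a (l 16043320) (l 16030160)) (a (l 15878272) (l 15866472))) (c (a (l 15906416) (l 15899776)) (a (l 15703616) (l 15698712)))) (c (b (l 15788952) (l 15691416)) (b (a (l 15552752) (l 15554376)) (l 15431056)))) (b (c (b (l 15611848) (l 15550104)) (b (l 15330640) (l 15253520))) (c (b (l 15505968) (l 15479512)) (b (l 15199328) (l 15167928))))))), by decide +kernel⟩

def k2_pp_022 : ∃ t, chk3 f_pp_022 t 3 1 1 = true :=
  ⟨(b (a (b (l 1) (a (b (l 1) (b (l 1) (a (c (l 16144272) (l 16024112)) (l 1)))) (l 1))) (l 1)) (a (b (b (a (b (a (c (l 15962864) (l 15842200)) (c (l 15967168) (l 15805208))) (c (a (l 15881112) (l 15850320)) (a (l 15681632) (l 15652112)))) (b (l 1) (c (l 15739032) (l 15457584)))) (a (b (c (l 15764088) (l 15533928)) (c (l 15678712) (l 15422664))) (b (c (l 15460328) (a (l 15486392) (l 15439056))) (c (l 15596928) (a (l 15384904) (l 15344248)))))) (b (a (c (b (l 15610904) (l 15560544)) (b (l 15334368) (l 15268872))) (b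 (c (l 15561832) (l 15289752)) (c (l 15522768) (l 15235984)))) (a (c (b (l 15527416) (l 15511752)) (b (l 15225880) (l 15205408))) (c (b (l 15500728) (l 15495920)) (b (l 15204360) (l 15194920)))))) (b (a (b (l 1) (b (l 1) (c (l 15509936) (l 15259504)))) (l 1)) (b (a (c (b (l 15465024) (l 15436776)) (b (l 15196184) (l 15154272))) (b (l 1) (c (l 15305024) (l 15024776)))) (a (b (c (l 15425200) (l 15133752)) (c (l 15430256) (l 15134576))) (c (b (l 15302456) (l 15316376)) (b (l 15014656) (l 15025368)))))))), by decide +kernel⟩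

theorem s3_pp_022 : ∃ t, chk3 f_pp_022 t 2 1 1 = true := ex3_b k0_pp_022 k1_pp_022

theorem s4_pp_022 : ∃ t, chk3 f_pp_022 t 1 1 1 = true := ex3_a s3_pp_022 k2_pp_022

theorem c_pp_022 : CertB 0 536870912 1073741824 536870912 991146299 28908434 3 eng mog cd1q0 cd4q2 pd2 false true true .pp 0 2 2
    ndB1q0 ndB4q2 pcB2 Cut.none Ext.none :=
  certB2 (fam := false) (s1 := true) (s2 := true) (a := 0) (b := 2) (c := 2) (cn := .pp) (n1 := ndB1q0) (n2 := ndB4q2) (pc := pcB2) (cut := Cut.none) (xt := Ext.none) (P1 := 0) (W1 := 536870912) (P2 := 1073741824) (W2 := 536870912) (P3 := 991146299) (W3 := 28908434) (N0 := 3) (En := eng) (mo := mog) (C1 := cd1q0) (C2 := cd4q2) (C3 := pd2)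
    rfl (fun _ => rfl) s4_pp_022

noncomputable def f_pp_023 : ℕ → ℕ → ℕ → ℕ → Bool := onCell 1073741824 536870912 0 1230186008 991146299 28908434
    (rowB 3 eng mog cd1q0 cd4q3 pd2 2 false true true .up 0 2 3 (qsf 0 536870912 0 1230186008 2) ndB1q0 ndB4q3 pcB2 Cut.none Ext.none)

def k0_pp_023 : ∃ t, chk3 f_pp_023 t 1 1 1 = true :=
  ⟨(b (a (l 2) (a (l 2) (b (a (l 2) (b (a (l 2) (b (l 15593728) (l 15353168))) (l 15424936))) (b (a (l 15792512) (l 15649784)) (a (l 115525745639) (b (l 15826960) (l 15920000))))))) (b (a (a (l 2) (a (l 2) (b (l 2) (b (l 2) (l 16308120))))) (a (b (a (l 2) (b (l 16183800) (l 16236112))) (a (b (l 16320920) (l 16344200)) (b (l 16286208) (l 16329912)))) (b (a (b (l 16104232) (b (l 16127984) (l 16158624))) (b (l 15982288) (c (l 16077504) (l 15984744)))) (a (b (l 16204616) (l 16261328)) (b (l 15971768) (l 16140848)))))) (a (a (a (l 3) (b (l 2) (b (l 3) (l 3)))) (b (b (a (a (l 2) (l 16201736)) (b (l 16305960) (l 16280200))) (a (a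 (a (c (l 324905716487) (l 15905488)) (a (l 16034584) (l 16065432))) (l 16114048)) (l 16210296))) (a (a (a (b (a (l 15944832) (l 15959768)) (c (l 189145163303) (l 15913976))) (a (b (l 15997840) (l 16168496)) (b (a (l 15992280) (l 16009936)) (a (l 15990472) (b (l 15995104) (l 16010480)))))) (b (l 16049768) (l 16034560))) (b (l 16133280) (l 16100296))))) (b (a (b (a (l 16264088) (l 16380312)) (a (l 16311376) (l 16335848))) (b (a (l 16322072) (l 16203000)) (a (l 16332360) (b (l 16251520) (l 16219704))))) (a (b (a (l 16210576) (l 16235360)) (a (l 16148192) (l 16142184))) (b (a (l 16197680) (l 16093360)) (a (l 16077984) (b (l 15959672) (l 15852720))))))))), by decide +kernel⟩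

theorem c_pp_023 : CertB 0 536870912 0 1230186008 991146299 28908434 3 eng mog cd1q0 cd4q3 pd2 false true true .up 0 2 3
    ndB1q0 ndB4q3 pcB2 Cut.none Ext.none :=
  certB2 (fam := false) (s1 := true) (s2 := true) (a := 0) (b := 2) (c := 3) (cn := .up) (n1 := ndB1q0) (n2 := ndB4q3) (pc := pcB2) (cut := Cut.none) (xt := Ext.none) (P1 := 0) (W1 := 536870912) (P2 := 0) (W2 := 1230186008) (P3 := 991146299) (W3 := 28908434) (N0 := 3) (En := eng) (mo := mog) (C1 := cd1q0) (C2 := cd4q3) (C3 := pd2)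
    rfl (fun _ => rfl) k0_pp_023

noncomputable def f_pp_033 : ℕ → ℕ → ℕ → ℕ → Bool := onCell 1610612736 536870912 0 1230186008 991146299 28908434
    (rowB 3 eng mog cd1q0 cd4q3 pd3 2 false true true .pnn 0 3 3 (qsf 0 536870912 0 1230186008 3) ndB1q0 ndB4q3 pcB3 Cut.none Ext.none)

def k0_pp_033 : ∃ t, chk3 f_pp_033 t 1 2 1 = true :=
  ⟨(b (a (b (a (a (l 16214856) (l 16330528)) (a (a (l 16371904) (l 16349568)) (l 4))) (a (a (l 16091128) (l 16095224)) (a (a (l 16164992) (l 16205936)) (a (l 16212384) (l 16178496))))) (a (a (a (l 35129379991) (l 4)) (l 4)) (l 4))) (a (a (a (b (l 16109928) (l 16159688)) (b (l 15987696) (l 15982720))) (a (b (b (l 15949216) (l 15863336)) (l 15806976)) (b (a (l 15897320) (l 15912072)) (b (l 15690984) (l 15613176))))) (b (a (a (a (l 15737848) (l 15773048)) (a (l 15695808) (l 4))) (l 4)) (a (a (b (a (l 15619768) (l 15586384)) (a (l 15484024) (l 15402616))) (a (b (l 15523384) (l 15321280)) (b (l 15423560) (l 15212952)))) (a (a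 (a (l 15186688) (l 15121424)) (l 4)) (l 4)))))), by decide +kernel⟩

def k1_pp_033 : ∃ t, chk3 f_pp_033 t 1 3 1 = true :=
  ⟨(b (a (a (b (a (b (l 16176048) (l 16149872)) (b (l 15980416) (l 15948112))) (a (b (b (l 15882776) (l 16021592)) (a (l 16271488) (l 16134888))) (a (b (l 15858016) (l 15992248)) (b (l 15846640) (l 15592280))))) (b (a (b (l 15774784) (l 15734624)) (b (l 15561824) (l 15507872))) (a (b (l 15565008) (b (a (l 15688384) (l 15559264)) (a (l 15687824) (l 15542016)))) (b (a (l 15496192) (l 15377224)) (a (b (l 15433456) (l 15213440)) (b (l 15311208) (b (l 15277688) (l 15244520)))))))) (b (a (a (a (l 15251032) (b (l 15281336) (l 15183784))) (a (b (l 15158304) (l 15033264)) (b (a (l 15052608) (l 14975216)) (l 381745165463)))) (b (a (a (a (l 14895688) (l 1)) (l 1)) (l 1)) (l 1))) (a (a (b (a (l 15238464) (l 15083928)) (b (a (l 15168352) (l 14995536)) (b (l 212630660055) (l 1)))) (a (b (l 273834045783) (l 1)) (l 1))) (l 1)))) (a (b (a (b (a (a (l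 16207768) (l 16044176)) (a (l 15878344) (l 15711984))) (a (b (l 15764048) (b (l 15752896) (l 15780912))) (b (a (l 15676944) (l 15491336)) (b (a (l 15539376) (l 15340616)) (l 15378816))))) (b (a (a (b (l 15605008) (l 15479456)) (b (l 15449072) (l 15290320))) (a (b (l 15298696) (l 15026816)) (b (l 15150424) (l 1)))) (a (b (a (l 15306168) (l 15007024)) (b (a (l 15145232) (l 14984312)) (l 154111495607))) (l 1)))) (a (b (a (b (l 15613456) (l 15657080)) (b (a (l 15427200) (l 15243584)) (a (l 15393112) (l 15238696)))) (a (b (l 59086557143) (a (l 15666240) (l 15494968))) (b (a (l 15397888) (l 1)) (l 1)))) (b (a (b (a (l 15087136) (l 1)) (l 1)) (l 1)) (l 1)))) (l 1))), by decide +kernel⟩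

theorem s2_pp_033 : ∃ t, chk3 f_pp_033 t 1 1 1 = true := ex3_b k0_pp_033 k1_pp_033

theorem c_pp_033 : CertB 0 536870912 0 1230186008 991146299 28908434 3 eng mog cd1q0 cd4q3 pd3 false true true .pnn 0 3 3
    ndB1q0 ndB4q3 pcB3 Cut.none Ext.none :=
  certB2 (fam := false) (s1 := true) (s2 := true) (a := 0) (b := 3) (c := 3) (cn := .pnn) (n1 := ndB1q0) (n2 := ndB4q3) (pc := pcB3) (cut := Cut.none) (xt := Ext.none) (P1 := 0) (W1 := 536870912) (P2 := 0) (W2 := 1230186008) (P3 := 991146299) (W3 := 28908434) (N0 := 3) (En := eng) (mo := mog) (C1 := cd1q0) (C2 := cd4q3) (C3 := pd3)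
    rfl (fun _ => rfl) s2_pp_033

noncomputable def f_pp_101 : ℕ → ℕ → ℕ → ℕ → Bool := onCell 536870912 536870912 0 536870912 991146299 28908434
    (rowB 3 eng mog cd1q1 cd4q1 pd0 1 false true true .npn 1 0 1 (qsf 536870912 536870912 536870912 536870912 0) ndB1q1 ndB4q1 pcB0 Cut.none Ext.none)

def k0_pp_101 : ∃ t, chk3 f_pp_101 t 1 1 1 = true :=
  ⟨(l 3), by decide +kernel⟩

theorem c_pp_101 : CertB 536870912 536870912 536870912 536870912 991146299 28908434 3 eng mog cd1q1 cd4q1 pd0 false true true .npn 1 0 1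
    ndB1q1 ndB4q1 pcB0 Cut.none Ext.none :=
  certB1 (fam := false) (s1 := true) (s2 := true) (a := 1) (b := 0) (c := 1) (cn := .npn) (n1 := ndB1q1) (n2 := ndB4q1) (pc := pcB0) (cut := Cut.none) (xt := Ext.none) (P1 := 536870912) (W1 := 536870912) (P2 := 536870912) (W2 := 536870912) (P3 := 991146299) (W3 := 28908434) (N0 := 3) (En := eng) (mo := mog) (C1 := cd1q1) (C2 := cd4q1) (C3 := pd0)
    rfl (fun _ => rfl) k0_pp_101

noncomputable def f_pp_102 : ℕ → ℕ → ℕ → ℕ → Bool := onCell 536870912 536870912 1073741824 536870912 991146299 28908434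
    (rowB 3 eng mog cd1q1 cd4q2 pd0 0 false true true .npp 1 0 2 (qsf 536870912 536870912 1073741824 536870912 0) ndB1q1 ndB4q2 pcB0 Cut.none Ext.none)

def k0_pp_102 : ∃ t, chk3 f_pp_102 t 1 1 1 = true :=
  ⟨(l 3), by decide +kernel⟩

theorem c_pp_102 : CertB 536870912 536870912 1073741824 536870912 991146299 28908434 3 eng mog cd1q1 cd4q2 pd0 false true true .npp 1 0 2
    ndB1q1 ndB4q2 pcB0 Cut.none Ext.none :=
  certB0 (fam := false) (s1 := true) (s2 := true) (a := 1) (b := 0) (c := 2) (cn := .npp) (n1 := ndB1q1) (n2 := ndB4q2) (pc := pcB0) (cut := Cut.none) (xt := Ext.none) (P1 := 536870912) (W1 := 536870912) (P2 := 1073741824) (W2 := 536870912) (P3 := 991146299) (W3 := 28908434) (N0 := 3) (En := eng) (mo := mog) (C1 := cd1q1) (C2 := cd4q2) (C3 := pd0)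
    rfl k0_pp_102

noncomputable def f_pp_112 : ℕ → ℕ → ℕ → ℕ → Bool := onCell 536870912 536870912 1073741824 536870912 991146299 28908434
    (rowB 3 eng mog cd1q1 cd4q2 pd1 0 false true true .dn 1 1 2 (qsf 536870912 536870912 1073741824 536870912 1) ndB1q1 ndB4q2 pcB1 Cut.none Ext.none)

def k0_pp_112 : ∃ t, chk3 f_pp_112 t 1 1 1 = true :=
  ⟨(l 3), by decide +kernel⟩

theorem c_pp_112 : CertB 536870912 536870912 1073741824 536870912 991146299 28908434 3 eng mog cd1q1 cd4q2 pd1 false true true .dn 1 1 2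
    ndB1q1 ndB4q2 pcB1 Cut.none Ext.none :=
  certB0 (fam := false) (s1 := true) (s2 := true) (a := 1) (b := 1) (c := 2) (cn := .dn) (n1 := ndB1q1) (n2 := ndB4q2) (pc := pcB1) (cut := Cut.none) (xt := Ext.none) (P1 := 536870912) (W1 := 536870912) (P2 := 1073741824) (W2 := 536870912) (P3 := 991146299) (W3 := 28908434) (N0 := 3) (En := eng) (mo := mog) (C1 := cd1q1) (C2 := cd4q2) (C3 := pd1)
    rfl k0_pp_112

noncomputable def f_pp_113 : ℕ → ℕ → ℕ → ℕ → Bool := onCell 536870912 536870912 0 1230186008 991146299 28908434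
    (rowB 3 eng mog cd1q1 cd4q3 pd1 2 false true true .nn 1 1 3 (qsf 536870912 536870912 0 1230186008 1) ndB1q1 ndB4q3 pcB1 Cut.none Ext.none)

def k0_pp_113 : ∃ t, chk3 f_pp_113 t 1 1 1 = true :=
  ⟨(b (a (l 2) (a (l 2) (a (b (l 2) (l 3)) (b (a (l 2) (b (l 16367552) (a (l 16438088) (l 16605192)))) (a (l 3) (b (a (l 349132843207) (l 350743753735)) (l 3))))))) (a (b (l 3) (l 3)) (b (l 3) (l 3)))), by decide +kernel⟩

theorem c_pp_113 : CertB 536870912 536870912 0 1230186008 991146299 28908434 3 eng mog cd1q1 cd4q3 pd1 false true true .nn 1 1 3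
    ndB1q1 ndB4q3 pcB1 Cut.none Ext.none :=
  certB2 (fam := false) (s1 := true) (s2 := true) (a := 1) (b := 1) (c := 3) (cn := .nn) (n1 := ndB1q1) (n2 := ndB4q3) (pc := pcB1) (cut := Cut.none) (xt := Ext.none) (P1 := 536870912) (W1 := 536870912) (P2 := 0) (W2 := 1230186008) (P3 := 991146299) (W3 := 28908434) (N0 := 3) (En := eng) (mo := mog) (C1 := cd1q1) (C2 := cd4q3) (C3 := pd1)
    rfl (fun _ => rfl) k0_pp_113

noncomputable def f_pp_123 : ℕ → ℕ → ℕ → ℕ → Bool := onCell 1073741824 536870912 0 1230186008 991146299 28908434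
    (rowB 3 eng mog cd1q1 cd4q3 pd2 2 false true true .npn 1 2 3 (qsf 536870912 536870912 0 1230186008 2) ndB1q1 ndB4q3 pcB2 Cut.none Ext.none)

def k0_pp_123 : ∃ t, chk3 f_pp_123 t 4 1 1 = true :=
  ⟨(b (a (b (b (a (c (l 16523912) (l 16411096)) (l 16617096)) (a (b (l 16585592) (a (l 16617000) (l 16678448))) (b (l 16699432) (l 16749328)))) (a (b (a (b (l 16628192) (l 16564624)) (b (l 16684792) (l 16633984))) (a (b (l 472076828519) (l 3)) (b (l 16380592) (l 429663532487)))) (b (b (l 16622608) (l 16475056)) (b (a (l 16349656) (l 16357272)) (a (l 350206860855) (l 16275424)))))) (b (b (a (l 16771112) (l 16587504)) (a (l 16686704) (l 16526824))) (b (a (b (l 16544440) (l 16434944)) (b (l 16467560) (l 16371160))) (a (b (l 16368968) (a (l 16311224) (l 16334008))) (b (l 16334160) (l 16323528)))))) (a (b (a (l 3) (b (a (b (l 401746252535) (l 3)) (b (b (l 16213712) (l 16288728)) (l 380808233927))) (l 3))) (l 3)) (a (b (b (b (a (b (l 16282536) (l 16241584)) (l 16331224))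 (a (c (l 16235816) (l 345911799223)) (b (l 16282680) (l 16249624)))) (b (a (l 356112302359) (c (l 313162862087) (l 320142094007))) (a (l 3) (l 289539738663)))) (l 3)) (b (b (b (a (l 16336768) (l 16325184)) (a (b (l 16336416) (l 16314000)) (l 16347856))) (b (a (b (l 16284648) (l 16260160)) (l 16324384)) (c (a (l 255716938071) (l 16295688)) (a (l 259475024151) (l 16264488))))) (b (b (a (l 252495704183) (b (l 16262656) (l 16258320))) (a (l 3) (l 211156682983))) (b (l 3) (l 1))))))), by decide +kernel⟩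

def k1_pp_123 : ∃ t, chk3 f_pp_123 t 5 1 1 = true :=
  ⟨(b (b (a (b (l 16227072) (l 16107320)) (b (l 15875808) (l 15922064))) (a (a (b (b (l 16319064) (a (l 16295192) (a (l 16251520) (l 16229088)))) (a (l 16264952) (a (l 16222608) (b (l 16189432) (l 16201096))))) (b (l 16149080) (b (l 16118392) (l 16139928)))) (b (a (l 15999984) (l 15858992)) (b (l 15747856) (a (l 16036088) (l 15921952)))))) (b (a (a (b (a (b (l 16294264) (l 16330472)) (a (l 16272928) (b (l 16221112) (l 16252504)))) (a (b (l 16350504) (l 16324080)) (a (b (l 16344280) (l 16348256)) (b (l 16296584) (a (l 16351216) (l 16328880)))))) (b (b (l 16172032) (l 16211432)) (b (l 16260248) (l 16318696)))) (b (b (l 16057064) (l 16132696)) (b (l 16210512) (l 16292080)))) (a (a (a (b (b (a (l 16277600) (l 16295760)) (a (l 16266456) (l 16272272))) (b (b (l 16266856) (l 1)) (l 1))) (b (a (b (l 16314752) (l 16283368)) (b (a (l 16328368) (l 16333272)) (l 16261496))) (l 1))) (b (b (l 16348128) (l 16317968))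 (l 1))) (b (b (b (l 16354144) (l 16362320)) (l 1)) (l 1))))), by decide +kernel⟩

def k2_pp_123 : ∃ t, chk3 f_pp_123 t 3 1 1 = true :=
  ⟨(b (a (b (a (b (l 15469336) (l 15571816)) (b (l 15095448) (l 15247432))) (b (a (l 15501392) (l 15356272)) (a (b (l 15714728) (a (l 15819672) (l 15725152))) (b (l 15497584) (l 15589680))))) (b (a (b (a (l 14859640) (l 14762408)) (l 14968480)) (b (a (b (l 14755000) (l 14668536)) (b (l 14908368) (l 14666208))) (l 14572040))) (b (a (l 15140872) (l 14958352)) (a (b (l 15308672) (l 15437016)) (l 751112392007))))) (b (a (b (a (b (a (l 15916880) (l 15820256)) (l 15992240)) (b (a (l 15736688) (l 15667696)) (l 15851496))) (a (b (l 16108760) (l 16222520)) (b (l 16001176) (l 1)))) (b (a (b (l 514890025559) (l 1)) (l 1)) (l 1))) (l 1))), by decide +kernel⟩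

theorem s3_pp_123 : ∃ t, chk3 f_pp_123 t 2 1 1 = true := ex3_a k0_pp_123 k1_pp_123

theorem s4_pp_123 : ∃ t, chk3 f_pp_123 t 1 1 1 = true := ex3_a s3_pp_123 k2_pp_123

theorem c_pp_123 : CertB 536870912 536870912 0 1230186008 991146299 28908434 3 eng mog cd1q1 cd4q3 pd2 false true true .npn 1 2 3
    ndB1q1 ndB4q3 pcB2 Cut.none Ext.none :=
  certB2 (fam := false) (s1 := true) (s2 := true) (a := 1) (b := 2) (c := 3) (cn := .npn) (n1 := ndB1q1) (n2 := ndB4q3) (pc := pcB2) (cut := Cut.none) (xt := Ext.none) (P1 := 536870912) (W1 := 536870912) (P2 := 0) (W2 := 1230186008) (P3 := 991146299) (W3 := 28908434) (N0 := 3) (En := eng) (mo := mog) (C1 := cd1q1) (C2 := cd4q3) (C3 := pd2)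
    rfl (fun _ => rfl) s4_pp_123

noncomputable def f_pp_133 : ℕ → ℕ → ℕ → ℕ → Bool := onCell 536870912 536870912 0 1230186008 991146299 28908434
    (rowB 3 eng mog cd1q1 cd4q3 pd3 0 false true true .dn 1 3 3 (qsf 536870912 536870912 0 1230186008 3) ndB1q1 ndB4q3 pcB3 Cut.none Ext.none)

def k0_pp_133 : ∃ t, chk3 f_pp_133 t 1 1 1 = true :=
  ⟨(b (b (a (a (b (a (l 15467816) (l 1)) (l 1)) (l 1)) (l 1)) (l 1)) (l 1)), by decide +kernel⟩

theorem c_pp_133 : CertB 536870912 536870912 0 1230186008 991146299 28908434 3 eng mog cd1q1 cd4q3 pd3 false true true .dn 1 3 3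
    ndB1q1 ndB4q3 pcB3 Cut.none Ext.none :=
  certB0 (fam := false) (s1 := true) (s2 := true) (a := 1) (b := 3) (c := 3) (cn := .dn) (n1 := ndB1q1) (n2 := ndB4q3) (pc := pcB3) (cut := Cut.none) (xt := Ext.none) (P1 := 536870912) (W1 := 536870912) (P2 := 0) (W2 := 1230186008) (P3 := 991146299) (W3 := 28908434) (N0 := 3) (En := eng) (mo := mog) (C1 := cd1q1) (C2 := cd4q3) (C3 := pd3)
    rfl k0_pp_133

noncomputable def f_pp_202_a : ℕ → ℕ → ℕ → ℕ → Bool := onCell 0 536870912 1073741824 536870912 991146299 28908434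
    (rowB 3 eng mog cd1q2a cd4q2 pd0 0 false true true .pp 2 0 2 (qsf 0 536870912 1073741824 536870912 0) ndB1q2a ndB4q2 pcB0 Cut.none Ext.none)

def k0_pp_202_a : ∃ t, chk3 f_pp_202_a t 1 1 1 = true :=
  ⟨(l 5), by decide +kernel⟩

theorem c_pp_202_a : CertB 0 536870912 1073741824 536870912 991146299 28908434 3 eng mog cd1q2a cd4q2 pd0 false true true .pp 2 0 2
    ndB1q2a ndB4q2 pcB0 Cut.none Ext.none :=
  certB0 (fam := false) (s1 := true) (s2 := true) (a := 2) (b := 0) (c := 2) (cn := .pp) (n1 := ndB1q2a) (n2 := ndB4q2) (pc := pcB0) (cut := Cut.none) (xt := Ext.none) (P1 := 0) (W1 := 536870912) (P2 := 1073741824) (W2 := 536870912) (P3 := 991146299) (W3 := 28908434) (N0 := 3) (En := eng) (mo := mog) (C1 := cd1q2a) (C2 := cd4q2) (C3 := pd0)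
    rfl k0_pp_202_a

noncomputable def f_pp_202_b : ℕ → ℕ → ℕ → ℕ → Bool := onCell 1239849684 370763052 1073741824 536870912 991146299 28908434
    (rowB 3 eng mog cd1q2b cd4q2 pd0 0 false true true .pp 2 0 2 (qsf 1239849684 370763052 1073741824 536870912 0) ndB1q2b ndB4q2 pcB0 Cut.none Ext.none)

def k0_pp_202_b : ∃ t, chk3 f_pp_202_b t 1 1 1 = true :=
  ⟨(l 5), by decide +kernel⟩

theorem c_pp_202_b : CertB 1239849684 370763052 1073741824 536870912 991146299 28908434 3 eng mog cd1q2b cd4q2 pd0 false true true .pp 2 0 2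
    ndB1q2b ndB4q2 pcB0 Cut.none Ext.none :=
  certB0 (fam := false) (s1 := true) (s2 := true) (a := 2) (b := 0) (c := 2) (cn := .pp) (n1 := ndB1q2b) (n2 := ndB4q2) (pc := pcB0) (cut := Cut.none) (xt := Ext.none) (P1 := 1239849684) (W1 := 370763052) (P2 := 1073741824) (W2 := 536870912) (P3 := 991146299) (W3 := 28908434) (N0 := 3) (En := eng) (mo := mog) (C1 := cd1q2b) (C2 := cd4q2) (C3 := pd0)
    rfl k0_pp_202_b

noncomputable def f_pp_203_a : ℕ → ℕ → ℕ → ℕ → Bool := onCell 0 536870912 0 1230186008 991146299 28908434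
    (rowB 3 eng mog cd1q2a cd4q3 pd0 0 false true true .up 2 0 3 (qsf 0 536870912 0 1230186008 0) ndB1q2a ndB4q3 pcB0 Cut.none Ext.none)

def k0_pp_203_a : ∃ t, chk3 f_pp_203_a t 1 1 1 = true :=
  ⟨(b (l 2) (l 3)), by decide +kernel⟩

theorem c_pp_203_a : CertB 0 536870912 0 1230186008 991146299 28908434 3 eng mog cd1q2a cd4q3 pd0 false true true .up 2 0 3
    ndB1q2a ndB4q3 pcB0 Cut.none Ext.none :=
  certB0 (fam := false) (s1 := true) (s2 := true) (a := 2) (b := 0) (c := 3) (cn := .up) (n1 := ndB1q2a) (n2 := ndB4q3) (pc := pcB0) (cut := Cut.none) (xt := Ext.none) (P1 := 0) (W1 := 536870912) (P2 := 0) (W2 := 1230186008) (P3 := 991146299) (W3 := 28908434) (N0 := 3) (En := eng) (mo := mog) (C1 := cd1q2a) (C2 := cd4q3) (C3 := pd0)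
    rfl k0_pp_203_a

noncomputable def f_pp_203_b : ℕ → ℕ → ℕ → ℕ → Bool := onCell 1239849684 370763052 0 1230186008 991146299 28908434
    (rowB 3 eng mog cd1q2b cd4q3 pd0 0 false true true .up 2 0 3 (qsf 1239849684 370763052 0 1230186008 0) ndB1q2b ndB4q3 pcB0 Cut.none Ext.none)

def k0_pp_203_b : ∃ t, chk3 f_pp_203_b t 1 1 1 = true :=
  ⟨(b (l 3) (l 3)), by decide +kernel⟩

theorem c_pp_203_b : CertB 1239849684 370763052 0 1230186008 991146299 28908434 3 eng mog cd1q2b cd4q3 pd0 false true true .up 2 0 3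
    ndB1q2b ndB4q3 pcB0 Cut.none Ext.none :=
  certB0 (fam := false) (s1 := true) (s2 := true) (a := 2) (b := 0) (c := 3) (cn := .up) (n1 := ndB1q2b) (n2 := ndB4q3) (pc := pcB0) (cut := Cut.none) (xt := Ext.none) (P1 := 1239849684) (W1 := 370763052) (P2 := 0) (W2 := 1230186008) (P3 := 991146299) (W3 := 28908434) (N0 := 3) (En := eng) (mo := mog) (C1 := cd1q2b) (C2 := cd4q3) (C3 := pd0)
    rfl k0_pp_203_b

noncomputable def cut_pp_213_a : Cut := Cut.of [[⟨0, 1, 0, 37748736⟩, ⟨1, 1, 0, 37748736⟩, ⟨2, 2, 0, 5242880⟩]]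

noncomputable def f_pp_213_a : ℕ → ℕ → ℕ → ℕ → Bool := onCell 0 536870912 0 1230186008 991146299 28908434
    (rowB 3 eng mog cd1q2a cd4q3 pd1 0 false true true .pnn 2 1 3 (qsf 0 536870912 0 1230186008 1) ndB1q2a ndB4q3 pcB1 cut_pp_213_a Ext.none)

def k0_pp_213_a : ∃ t, chk3 f_pp_213_a t 1 1 1 = true :=
  ⟨(b (a (l 3) (b (a (l 3) (a (l 3) (b (a (l 3) (b (l 6) (l 3))) (l 3)))) (l 3))) (l 3)), by decide +kernel⟩

theorem c_pp_213_a : CertB 0 536870912 0 1230186008 991146299 28908434 3 eng mog cd1q2a cd4q3 pd1 false true true .pnn 2 1 3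
    ndB1q2a ndB4q3 pcB1 cut_pp_213_a Ext.none :=
  certB0 (fam := false) (s1 := true) (s2 := true) (a := 2) (b := 1) (c := 3) (cn := .pnn) (n1 := ndB1q2a) (n2 := ndB4q3) (pc := pcB1) (cut := cut_pp_213_a) (xt := Ext.none) (P1 := 0) (W1 := 536870912) (P2 := 0) (W2 := 1230186008) (P3 := 991146299) (W3 := 28908434) (N0 := 3) (En := eng) (mo := mog) (C1 := cd1q2a) (C2 := cd4q3) (C3 := pd1)
    rfl k0_pp_213_a

noncomputable def cut_pp_213_b : Cut := Cut.of [[⟨0, 1, 0, 37748736⟩, ⟨1, 1, 0, 37748736⟩, ⟨2, 2, 0, 5242880⟩]]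

noncomputable def f_pp_213_b : ℕ → ℕ → ℕ → ℕ → Bool := onCell 1239849684 370763052 0 1230186008 991146299 28908434
    (rowB 3 eng mog cd1q2b cd4q3 pd1 0 false true true .pnn 2 1 3 (qsf 1239849684 370763052 0 1230186008 1) ndB1q2b ndB4q3 pcB1 cut_pp_213_b Ext.none)

def k0_pp_213_b : ∃ t, chk3 f_pp_213_b t 1 1 1 = true :=
  ⟨(b (l 3) (l 3)), by decide +kernel⟩

theorem c_pp_213_b : CertB 1239849684 370763052 0 1230186008 991146299 28908434 3 eng mog cd1q2b cd4q3 pd1 false true true .pnn 2 1 3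
    ndB1q2b ndB4q3 pcB1 cut_pp_213_b Ext.none :=
  certB0 (fam := false) (s1 := true) (s2 := true) (a := 2) (b := 1) (c := 3) (cn := .pnn) (n1 := ndB1q2b) (n2 := ndB4q3) (pc := pcB1) (cut := cut_pp_213_b) (xt := Ext.none) (P1 := 1239849684) (W1 := 370763052) (P2 := 0) (W2 := 1230186008) (P3 := 991146299) (W3 := 28908434) (N0 := 3) (En := eng) (mo := mog) (C1 := cd1q2b) (C2 := cd4q3) (C3 := pd1)
    rfl k0_pp_213_b

noncomputable def f_pp_303 : ℕ → ℕ → ℕ → ℕ → Bool := onCell 1610612736 536870912 0 1230186008 991146299 28908434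
    (rowB 3 eng mog cd1q3 cd4q3 pd0 0 false true true .npn 3 0 3 (qsf 1610612736 536870912 0 1230186008 0) ndB1q3 ndB4q3 pcB0 Cut.none Ext.none)

def k0_pp_303 : ∃ t, chk3 f_pp_303 t 1 1 1 = true :=
  ⟨(b (l 3) (l 5)), by decide +kernel⟩

theorem c_pp_303 : CertB 1610612736 536870912 0 1230186008 991146299 28908434 3 eng mog cd1q3 cd4q3 pd0 false true true .npn 3 0 3
    ndB1q3 ndB4q3 pcB0 Cut.none Ext.none :=
  certB0 (fam := false) (s1 := true) (s2 := true) (a := 3) (b := 0) (c := 3) (cn := .npn) (n1 := ndB1q3) (n2 := ndB4q3) (pc := pcB0) (cut := Cut.none) (xt := Ext.none) (P1 := 1610612736) (W1 := 536870912) (P2 := 0) (W2 := 1230186008) (P3 := 991146299) (W3 := 28908434) (N0 := 3) (En := eng) (mo := mog) (C1 := cd1q3) (C2 := cd4q3) (C3 := pd0)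
    rfl k0_pp_303

noncomputable def f_pp_313 : ℕ → ℕ → ℕ → ℕ → Bool := onCell 1610612736 536870912 0 1230186008 991146299 28908434
    (rowB 3 eng mog cd1q3 cd4q3 pd1 0 false true true .dn 3 1 3 (qsf 1610612736 536870912 0 1230186008 1) ndB1q3 ndB4q3 pcB1 Cut.none Ext.none)

def k0_pp_313 : ∃ t, chk3 f_pp_313 t 1 1 1 = true :=
  ⟨(b (l 3) (l 1)), by decide +kernel⟩

theorem c_pp_313 : CertB 1610612736 536870912 0 1230186008 991146299 28908434 3 eng mog cd1q3 cd4q3 pd1 false true true .dn 3 1 3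
    ndB1q3 ndB4q3 pcB1 Cut.none Ext.none :=
  certB0 (fam := false) (s1 := true) (s2 := true) (a := 3) (b := 1) (c := 3) (cn := .dn) (n1 := ndB1q3) (n2 := ndB4q3) (pc := pcB1) (cut := Cut.none) (xt := Ext.none) (P1 := 1610612736) (W1 := 536870912) (P2 := 0) (W2 := 1230186008) (P3 := 991146299) (W3 := 28908434) (N0 := 3) (En := eng) (mo := mog) (C1 := cd1q3) (C2 := cd4q3) (C3 := pd1)
    rfl k0_pp_313

noncomputable def f_pm_001 : ℕ → ℕ → ℕ → ℕ → Bool := onCell 0 536870912 536870912 536870912 991146299 28908434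
    (rowB 3 eng mog cd1q0 cd4q1 pd0 0 false true false .up 0 0 1 (qsf 0 536870912 536870912 536870912 0) ndB1q0 ndB4q1 pcB0 Cut.none Ext.none)

def k0_pm_001 : ∃ t, chk3 f_pm_001 t 1 1 1 = true :=
  ⟨(l 4), by decide +kernel⟩

theorem c_pm_001 : CertB 0 536870912 536870912 536870912 991146299 28908434 3 eng mog cd1q0 cd4q1 pd0 false true false .up 0 0 1
    ndB1q0 ndB4q1 pcB0 Cut.none Ext.none :=
  certB0 (fam := false) (s1 := true) (s2 := false) (a := 0) (b := 0) (c := 1) (cn := .up) (n1 := ndB1q0) (n2 := ndB4q1) (pc := pcB0) (cut := Cut.none) (xt := Ext.none) (P1 := 0) (W1 := 536870912) (P2 := 536870912) (W2 := 536870912) (P3 := 991146299) (W3 := 28908434) (N0 := 3) (En := eng) (mo := mog) (C1 := cd1q0) (C2 := cd4q1) (C3 := pd0)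
    rfl k0_pm_001

noncomputable def f_pm_011 : ℕ → ℕ → ℕ → ℕ → Bool := onCell 0 536870912 536870912 536870912 991146299 28908434
    (rowB 3 eng mog cd1q0 cd4q1 pd1 0 false true false .pnn 0 1 1 (qsf 0 536870912 536870912 536870912 1) ndB1q0 ndB4q1 pcB1 Cut.none Ext.none)

def k0_pm_011 : ∃ t, chk3 f_pm_011 t 1 1 1 = true :=
  ⟨(l 4), by decide +kernel⟩

theorem c_pm_011 : CertB 0 536870912 536870912 536870912 991146299 28908434 3 eng mog cd1q0 cd4q1 pd1 false true false .pnn 0 1 1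
    ndB1q0 ndB4q1 pcB1 Cut.none Ext.none :=
  certB0 (fam := false) (s1 := true) (s2 := false) (a := 0) (b := 1) (c := 1) (cn := .pnn) (n1 := ndB1q0) (n2 := ndB4q1) (pc := pcB1) (cut := Cut.none) (xt := Ext.none) (P1 := 0) (W1 := 536870912) (P2 := 536870912) (W2 := 536870912) (P3 := 991146299) (W3 := 28908434) (N0 := 3) (En := eng) (mo := mog) (C1 := cd1q0) (C2 := cd4q1) (C3 := pd1)
    rfl k0_pm_011

noncomputable def f_pm_012 : ℕ → ℕ → ℕ → ℕ → Bool := onCell 0 536870912 1073741824 536870912 991146299 28908434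
    (rowB 3 eng mog cd1q0 cd4q2 pd1 0 false true false .pnp 0 1 2 (qsf 0 536870912 1073741824 536870912 1) ndB1q0 ndB4q2 pcB1 Cut.none Ext.none)

def k0_pm_012 : ∃ t, chk3 f_pm_012 t 1 1 1 = true :=
  ⟨(l 4), by decide +kernel⟩

theorem c_pm_012 : CertB 0 536870912 1073741824 536870912 991146299 28908434 3 eng mog cd1q0 cd4q2 pd1 false true false .pnp 0 1 2
    ndB1q0 ndB4q2 pcB1 Cut.none Ext.none :=
  certB0 (fam := false) (s1 := true) (s2 := false) (a := 0) (b := 1) (c := 2) (cn := .pnp) (n1 := ndB1q0) (n2 := ndB4q2) (pc := pcB1) (cut := Cut.none) (xt := Ext.none) (P1 := 0) (W1 := 536870912) (P2 := 1073741824) (W2 := 536870912) (P3 := 991146299) (W3 := 28908434) (N0 := 3) (En := eng) (mo := mog) (C1 := cd1q0) (C2 := cd4q2) (C3 := pd1)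
    rfl k0_pm_012

noncomputable def f_pm_022 : ℕ → ℕ → ℕ → ℕ → Bool := onCell 0 536870912 1073741824 536870912 991146299 28908434
    (rowB 3 eng mog cd1q0 cd4q2 pd2 0 false true false .pp 0 2 2 (qsf 0 536870912 1073741824 536870912 2) ndB1q0 ndB4q2 pcB2 Cut.none Ext.none)

def k0_pm_022 : ∃ t, chk3 f_pm_022 t 1 1 1 = true :=
  ⟨(l 4), by decide +kernel⟩

theorem c_pm_022 : CertB 0 536870912 1073741824 536870912 991146299 28908434 3 eng mog cd1q0 cd4q2 pd2 false true false .pp 0 2 2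
    ndB1q0 ndB4q2 pcB2 Cut.none Ext.none :=
  certB0 (fam := false) (s1 := true) (s2 := false) (a := 0) (b := 2) (c := 2) (cn := .pp) (n1 := ndB1q0) (n2 := ndB4q2) (pc := pcB2) (cut := Cut.none) (xt := Ext.none) (P1 := 0) (W1 := 536870912) (P2 := 1073741824) (W2 := 536870912) (P3 := 991146299) (W3 := 28908434) (N0 := 3) (En := eng) (mo := mog) (C1 := cd1q0) (C2 := cd4q2) (C3 := pd2)
    rfl k0_pm_022

noncomputable def f_pm_023 : ℕ → ℕ → ℕ → ℕ → Bool := onCell 0 536870912 0 1230186008 991146299 28908434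
    (rowB 3 eng mog cd1q0 cd4q3 pd2 0 false true false .up 0 2 3 (qsf 0 536870912 0 1230186008 2) ndB1q0 ndB4q3 pcB2 Cut.none Ext.none)

def k0_pm_023 : ∃ t, chk3 f_pm_023 t 1 1 1 = true :=
  ⟨(b (b (a (l 2) (a (l 2) (a (l 2) (a (l 2) (a (b (l 2) (l 16377264)) (b (l 16136792) (l 16358064))))))) (l 4)) (l 4)), by decide +kernel⟩

theorem c_pm_023 : CertB 0 536870912 0 1230186008 991146299 28908434 3 eng mog cd1q0 cd4q3 pd2 false true false .up 0 2 3
    ndB1q0 ndB4q3 pcB2 Cut.none Ext.none :=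
  certB0 (fam := false) (s1 := true) (s2 := false) (a := 0) (b := 2) (c := 3) (cn := .up) (n1 := ndB1q0) (n2 := ndB4q3) (pc := pcB2) (cut := Cut.none) (xt := Ext.none) (P1 := 0) (W1 := 536870912) (P2 := 0) (W2 := 1230186008) (P3 := 991146299) (W3 := 28908434) (N0 := 3) (En := eng) (mo := mog) (C1 := cd1q0) (C2 := cd4q3) (C3 := pd2)
    rfl k0_pm_023

noncomputable def f_pm_033 : ℕ → ℕ → ℕ → ℕ → Bool := onCell 0 536870912 0 1230186008 991146299 28908434
    (rowB 3 eng mog cd1q0 cd4q3 pd3 0 false true false .pnn 0 3 3 (qsf 0 536870912 0 1230186008 3) ndB1q0 ndB4q3 pcB3 Cut.none Ext.none)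

def k0_pm_033 : ∃ t, chk3 f_pm_033 t 1 1 1 = true :=
  ⟨(b (b (a (l 4) (a (l 4) (a (b (l 16426672) (l 4)) (b (l 16391072) (l 16374416))))) (l 4)) (l 4)), by decide +kernel⟩

theorem c_pm_033 : CertB 0 536870912 0 1230186008 991146299 28908434 3 eng mog cd1q0 cd4q3 pd3 false true false .pnn 0 3 3
    ndB1q0 ndB4q3 pcB3 Cut.none Ext.none :=
  certB0 (fam := false) (s1 := true) (s2 := false) (a := 0) (b := 3) (c := 3) (cn := .pnn) (n1 := ndB1q0) (n2 := ndB4q3) (pc := pcB3) (cut := Cut.none) (xt := Ext.none) (P1 := 0) (W1 := 536870912) (P2 := 0) (W2 := 1230186008) (P3 := 991146299) (W3 := 28908434) (N0 := 3) (En := eng) (mo := mog) (C1 := cd1q0) (C2 := cd4q3) (C3 := pd3)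
    rfl k0_pm_033

noncomputable def f_pm_101 : ℕ → ℕ → ℕ → ℕ → Bool := onCell 536870912 536870912 536870912 536870912 991146299 28908434
    (rowB 3 eng mog cd1q1 cd4q1 pd0 0 false true false .npn 1 0 1 (qsf 536870912 536870912 536870912 536870912 0) ndB1q1 ndB4q1 pcB0 Cut.none Ext.none)

def k0_pm_101 : ∃ t, chk3 f_pm_101 t 1 1 1 = true :=
  ⟨(l 4), by decide +kernel⟩

theorem c_pm_101 : CertB 536870912 536870912 536870912 536870912 991146299 28908434 3 eng mog cd1q1 cd4q1 pd0 false true false .npn 1 0 1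
    ndB1q1 ndB4q1 pcB0 Cut.none Ext.none :=
  certB0 (fam := false) (s1 := true) (s2 := false) (a := 1) (b := 0) (c := 1) (cn := .npn) (n1 := ndB1q1) (n2 := ndB4q1) (pc := pcB0) (cut := Cut.none) (xt := Ext.none) (P1 := 536870912) (W1 := 536870912) (P2 := 536870912) (W2 := 536870912) (P3 := 991146299) (W3 := 28908434) (N0 := 3) (En := eng) (mo := mog) (C1 := cd1q1) (C2 := cd4q1) (C3 := pd0)
    rfl k0_pm_101

noncomputable def f_pm_102 : ℕ → ℕ → ℕ → ℕ → Bool := onCell 536870912 536870912 0 536870912 991146299 28908434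
    (rowB 3 eng mog cd1q1 cd4q2 pd0 1 false true false .npp 1 0 2 (qsf 536870912 536870912 1073741824 536870912 0) ndB1q1 ndB4q2 pcB0 Cut.none Ext.none)

def k0_pm_102 : ∃ t, chk3 f_pm_102 t 1 1 1 = true :=
  ⟨(b (l 4) (a (l 4) (b (l 4) (a (l 4) (a (l 4) (a (l 4) (b (l 4) (b (l 4) (c (l 13742144) (l 13458232)))))))))), by decide +kernel⟩

theorem c_pm_102 : CertB 536870912 536870912 1073741824 536870912 991146299 28908434 3 eng mog cd1q1 cd4q2 pd0 false true false .npp 1 0 2
    ndB1q1 ndB4q2 pcB0 Cut.none Ext.none :=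
  certB1 (fam := false) (s1 := true) (s2 := false) (a := 1) (b := 0) (c := 2) (cn := .npp) (n1 := ndB1q1) (n2 := ndB4q2) (pc := pcB0) (cut := Cut.none) (xt := Ext.none) (P1 := 536870912) (W1 := 536870912) (P2 := 1073741824) (W2 := 536870912) (P3 := 991146299) (W3 := 28908434) (N0 := 3) (En := eng) (mo := mog) (C1 := cd1q1) (C2 := cd4q2) (C3 := pd0)
    rfl (fun _ => rfl) k0_pm_102

noncomputable def f_pm_112 : ℕ → ℕ → ℕ → ℕ → Bool := onCell 536870912 536870912 1073741824 536870912 991146299 28908434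
    (rowB 3 eng mog cd1q1 cd4q2 pd1 0 false true false .dn 1 1 2 (qsf 536870912 536870912 1073741824 536870912 1) ndB1q1 ndB4q2 pcB1 Cut.none Ext.none)

def k0_pm_112 : ∃ t, chk3 f_pm_112 t 1 1 1 = true :=
  ⟨(b (l 4) (a (l 4) (b (l 4) (a (l 4) (a (l 4) (b (l 4) (a (l 4) (b (l 4) (l 13568976))))))))), by decide +kernel⟩

theorem c_pm_112 : CertB 536870912 536870912 1073741824 536870912 991146299 28908434 3 eng mog cd1q1 cd4q2 pd1 false true false .dn 1 1 2
    ndB1q1 ndB4q2 pcB1 Cut.none Ext.none :=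
  certB0 (fam := false) (s1 := true) (s2 := false) (a := 1) (b := 1) (c := 2) (cn := .dn) (n1 := ndB1q1) (n2 := ndB4q2) (pc := pcB1) (cut := Cut.none) (xt := Ext.none) (P1 := 536870912) (W1 := 536870912) (P2 := 1073741824) (W2 := 536870912) (P3 := 991146299) (W3 := 28908434) (N0 := 3) (En := eng) (mo := mog) (C1 := cd1q1) (C2 := cd4q2) (C3 := pd1)
    rfl k0_pm_112

noncomputable def f_pm_113 : ℕ → ℕ → ℕ → ℕ → Bool := onCell 536870912 536870912 0 1230186008 991146299 28908434
    (rowB 3 eng mog cd1q1 cd4q3 pd1 0 false true false .nn 1 1 3 (qsf 536870912 536870912 0 1230186008 1) ndB1q1 ndB4q3 pcB1 Cut.none Ext.none)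

def k0_pm_113 : ∃ t, chk3 f_pm_113 t 1 1 1 = true :=
  ⟨(a (b (l 2) (b (b (l 2) (l 4)) (l 4))) (a (b (l 2) (b (b (a (l 2) (b (l 14523896) (l 14315032))) (a (b (a (l 4) (l 13897328)) (l 4)) (b (a (l 14090248) (l 14305088)) (b (l 14334992) (l 14371872))))) (b (b (a (l 4) (a (l 4) (l 14395328))) (l 4)) (l 4)))) (b (b (a (l 2) (b (a (l 2) (l 16728496)) (l 16598496))) (b (a (a (l 2) (l 16387640)) (a (l 16556096) (l 16537800))) (a (a (l 15745880) (l 16097648)) (a (b (l 16527848) (l 15879392)) (l 16182328))))) (b (b (a (b (l 15144608) (l 14815296)) (b (a (l 15402016) (l 15419360)) (l 15064584))) (a (b (l 14585672) (a (b (l 14415000) (l 14401616)) (l 14518344))) (b (l 14779008) (a (l 14586328) (l 14575440))))) (b (b (a (a (l 14605624) (b (l 14478728) (l 14475144))) (c (l 14777976) (a (l 14420992) (l 14398904)))) (a (a (l 14694336) (b (c (l 14571840) (l 14428944)) (l 14484512))) (a (c (b (l 14539152) (l 14539448)) (b (l 14392752) (l 14401672))) (b (l 14442824)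 (a (l 14452192) (l 14418704)))))) (b (a (c (l 14367528) (b (l 14478416) (l 4))) (a (c (l 14504736) (b (l 14364080) (l 14381520))) (a (b (l 14428960) (l 14353984)) (b (l 14409688) (l 14369544))))) (a (l 4) (b (c (a (l 14521016) (l 14410824)) (l 14348632)) (a (l 4) (l 14249656)))))))))), by decide +kernel⟩

theorem c_pm_113 : CertB 536870912 536870912 0 1230186008 991146299 28908434 3 eng mog cd1q1 cd4q3 pd1 false true false .nn 1 1 3
    ndB1q1 ndB4q3 pcB1 Cut.none Ext.none :=
  certB0 (fam := false) (s1 := true) (s2 := false) (a := 1) (b := 1) (c := 3) (cn := .nn) (n1 := ndB1q1) (n2 := ndB4q3) (pc := pcB1) (cut := Cut.none) (xt := Ext.none) (P1 := 536870912) (W1 := 536870912) (P2 := 0) (W2 := 1230186008) (P3 := 991146299) (W3 := 28908434) (N0 := 3) (En := eng) (mo := mog) (C1 := cd1q1) (C2 := cd4q3) (C3 := pd1)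
    rfl k0_pm_113

noncomputable def f_pm_123 : ℕ → ℕ → ℕ → ℕ → Bool := onCell 1073741824 536870912 0 1230186008 991146299 28908434
    (rowB 3 eng mog cd1q1 cd4q3 pd2 2 false true false .npn 1 2 3 (qsf 536870912 536870912 0 1230186008 2) ndB1q1 ndB4q3 pcB2 Cut.none Ext.none)

def k0_pm_123 : ∃ t, chk3 f_pm_123 t 1 1 1 = true :=
  ⟨(b (a (a (b (a (a (b (c (l 16407096) (l 16247912)) (c (l 16369048) (l 16158344))) (b (l 16522144) (l 16420936))) (a (b (l 16707136) (l 16588760)) (l 16586032))) (a (b (a (c (l 16427472) (l 16121136)) (c (l 16521288) (l 16345696))) (b (c (a (b (l 16526896) (l 16415240)) (l 16115080)) (a (a (l 15952440) (l 16118056)) (l 15903728))) (a (l 15825816) (l 15550296)))) (b (b (l 16281064) (a (l 16200792) (l 15997656))) (a (b (l 15842336) (l 15385264)) (l 15452928))))) (b (a (b (l 16236456) (a (l 16280296) (l 16001800))) (b (l 15780032) (a (l 15740768) (l 15513432)))) (a (b (a (l 15896072) (l 15687296)) (a (l 15351000) (l 15305440)))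 (b (a (l 15528472) (l 15434880)) (a (l 15312232) (l 15352792)))))) (a (b (a (b (l 15207544) (a (l 15338824) (l 15243112))) (b (a (l 15058368) (b (l 14901056) (l 14986944))) (a (l 15234408) (l 15277328)))) (a (b (a (l 15402392) (l 15425368)) (b (a (l 15431648) (l 15489344)) (l 4))) (b (a (b (l 15445080) (l 15535432)) (b (l 15535040) (l 15591064))) (l 4)))) (a (b (b (a (b (l 14830232) (l 15038952)) (l 15015704)) (a (l 15368640) (l 15343416))) (b (b (a (l 15619224) (l 15669816)) (l 4)) (l 4))) (b (b (a (l 15146888) (l 15315256)) (a (b (l 15538120) (l 15697296)) (b (l 15679064) (l 4)))) (l 4))))) (b (a (b (b (a (a (a (l 15094744) (l 14991144)) (a (l 14949848) (l 14964360))) (a (a (l 15033416) (l 15131768)) (l 4))) (a (a (a (c (l 14506848) (l 14418976)) (a (l 14488336) (l 14534248))) (a (l 14647056) (l 14813600))) (l 4))) (a (a (b (a (b (a (l 14056744) (l 14158568)) (l 4)) (l 14492144)) (l 4)) (l 4)) (l 4))) (l 4)) (l 4))), by decide +kernel⟩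

theorem c_pm_123 : CertB 536870912 536870912 0 1230186008 991146299 28908434 3 eng mog cd1q1 cd4q3 pd2 false true false .npn 1 2 3
    ndB1q1 ndB4q3 pcB2 Cut.none Ext.none :=
  certB2 (fam := false) (s1 := true) (s2 := false) (a := 1) (b := 2) (c := 3) (cn := .npn) (n1 := ndB1q1) (n2 := ndB4q3) (pc := pcB2) (cut := Cut.none) (xt := Ext.none) (P1 := 536870912) (W1 := 536870912) (P2 := 0) (W2 := 1230186008) (P3 := 991146299) (W3 := 28908434) (N0 := 3) (En := eng) (mo := mog) (C1 := cd1q1) (C2 := cd4q3) (C3 := pd2)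
    rfl (fun _ => rfl) k0_pm_123

noncomputable def f_pm_133 : ℕ → ℕ → ℕ → ℕ → Bool := onCell 536870912 536870912 0 1230186008 991146299 28908434
    (rowB 3 eng mog cd1q1 cd4q3 pd3 0 false true false .dn 1 3 3 (qsf 536870912 536870912 0 1230186008 3) ndB1q1 ndB4q3 pcB3 Cut.none Ext.none)

def k0_pm_133 : ∃ t, chk3 f_pm_133 t 1 1 1 = true :=
  ⟨(b (b (a (a (a (b (l 15596544) (l 1)) (l 1)) (l 1)) (l 1)) (l 1)) (l 1)), by decide +kernel⟩

theorem c_pm_133 : CertB 536870912 536870912 0 1230186008 991146299 28908434 3 eng mog cd1q1 cd4q3 pd3 false true false .dn 1 3 3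
    ndB1q1 ndB4q3 pcB3 Cut.none Ext.none :=
  certB0 (fam := false) (s1 := true) (s2 := false) (a := 1) (b := 3) (c := 3) (cn := .dn) (n1 := ndB1q1) (n2 := ndB4q3) (pc := pcB3) (cut := Cut.none) (xt := Ext.none) (P1 := 536870912) (W1 := 536870912) (P2 := 0) (W2 := 1230186008) (P3 := 991146299) (W3 := 28908434) (N0 := 3) (En := eng) (mo := mog) (C1 := cd1q1) (C2 := cd4q3) (C3 := pd3)
    rfl k0_pm_133

noncomputable def f_pm_202_a : ℕ → ℕ → ℕ → ℕ → Bool := onCell 0 536870912 0 536870912 991146299 28908434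
    (rowB 3 eng mog cd1q2a cd4q2 pd0 1 false true false .pp 2 0 2 (qsf 0 536870912 1073741824 536870912 0) ndB1q2a ndB4q2 pcB0 Cut.none Ext.none)

def k0_pm_202_a : ∃ t, chk3 f_pm_202_a t 1 8 1 = true :=
  ⟨(a (b (a (b (a (l 16067192) (l 15971624)) (a (l 15963304) (l 15876832))) (a (b (l 15886864) (l 15800424)) (b (c (l 15800584) (l 15815344)) (l 15582456)))) (b (a (b (l 15842992) (a (l 15827160) (l 15752536))) (b (c (l 15714728) (l 15689736)) (c (l 15675416) (l 15642416)))) (a (c (l 15779000) (l 15717240)) (c (l 15552912) (b (l 15609264) (l 15579392)))))) (a (b (a (b (a (l 15748272) (c (l 15657808) (l 15729032))) (c (l 15627056) (l 15670936))) (a (b (c (l 15607520) (l 15700784)) (a (c (l 15588408) (l 15611304)) (l 15589184))) (c (l 15529320) (l 15616152)))) (b (a (b (l 15603952) (l 15545792)) (a (a (l 15524128) (c (l 15509000) (l 15522096))) (l 15485632))) (a (c (l 15526632) (l 15494040)) (a (l 15451040) (b (l 15425208) (l 15395640)))))) (c (a (b (a (l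 15452552) (l 15390792)) (a (l 15335472) (l 15269168))) (b (a (b (l 15308816) (l 15253368)) (b (l 15213784) (l 15156336))) (a (l 15174824) (l 15073472)))) (a (b (b (a (l 15609840) (l 15563912)) (l 15506464)) (a (l 15421472) (l 15362104))) (b (a (b (l 15516008) (l 15425680)) (b (l 15466096) (l 15369592))) (a (l 15299320) (l 15233248))))))), by decide +kernel⟩

def k1_pm_202_a : ∃ t, chk3 f_pm_202_a t 1 9 1 = true :=
  ⟨(a (b (a (b (c (l 15737848) (l 15662576)) (c (l 15694560) (l 15603496))) (b (c (l 15593048) (l 15535624)) (c (l 15549064) (l 15476016)))) (a (a (b (l 15617632) (c (l 15623152) (l 15490952))) (l 15515328)) (a (l 15451568) (l 15157296)))) (a (b (a (c (b (l 15478128) (l 15431120)) (b (l 15450608) (l 15387488))) (b (a (c (l 15414720) (l 15409176)) (c (l 15363448) (l 15417448))) (c (a (l 15365264) (l 15314568)) (l 15303624)))) (a (c (l 15354992) (l 15286760)) (c (l 15413696) (l 15207832)))) (a (b (a (b (l 15307184) (l 15261752)) (b (l 15227952)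 (l 15175360))) (a (c (b (l 15209648) (l 15161912)) (l 15172368)) (a (l 15108440) (l 15060256)))) (b (c (a (l 15080056) (l 14952312)) (a (l 15149424) (l 15070152))) (c (a (l 14997240) (l 14884728)) (a (l 15021552) (l 14928776))))))), by decide +kernel⟩

def k2_pm_202_a : ∃ t, chk3 f_pm_202_a t 1 5 1 = true :=
  ⟨(b (b (a (c (a (a (b (l 15570232) (l 15539360)) (l 15282376)) (l 15364064)) (a (a (b (l 15413672) (l 15351288)) (l 15318440)) (l 15233928))) (a (a (l 15120816) (c (l 15168680) (l 15077776))) (a (c (a (l 15095736) (b (l 15052776) (l 15011424))) (a (l 15053672) (l 14985960))) (c (l 14848520) (l 14865312))))) (a (a (a (c (l 15518616) (l 15276312)) (c (b (l 15391336) (l 15359592)) (b (l 15208912) (l 15149640)))) (a (b (l 15233984) (l 15176536)) (l 15148656))) (a (a (l 15089016) (l 15000888)) (a (c (a (l 15002104) (l 14946048)) (a (l 14929000) (l 14893320))) (c (a (l 14872672) (l 14747352)) (b (l 14801128) (l 14763904))))))) (b (a (a (b (c (l 15429320)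 (l 15159704)) (a (c (l 15501704) (l 15175408)) (l 15231648))) (a (c (a (l 15227472) (l 15174024)) (a (l 15007728) (l 14972448))) (l 15027184))) (a (c (l 15014152) (l 14869272)) (a (l 14651088) (c (a (l 14801384) (l 14703792)) (a (l 14782024) (l 14652096)))))) (a (a (a (c (a (l 15493704) (b (l 15463920) (l 15454560))) (b (l 15137528) (l 15100368))) (c (l 15348376) (l 15021696))) (a (c (l 15175232) (l 14906776)) (a (c (l 15048776) (l 14823232)) (l 14893312)))) (a (a (l 14853592) (l 14796776)) (a (l 14712200) (a (l 14682496) (c (l 14656520) (a (l 14610424) (l 14570568))))))))), by decide +kernel⟩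

def k3_pm_202_a : ∃ t, chk3 f_pm_202_a t 1 6 1 = true :=
  ⟨(b (b (a (a (a (c (l 15427728) (b (l 15073360) (l 15053240))) (c (a (b (l 15395472) (l 15382960)) (l 15326112)) (a (l 15001040) (l 14952264)))) (a (c (l 15190296) (l 14858496)) (a (l 14900376) (b (l 14819304) (l 14802768))))) (a (a (c (l 14746720) (l 14630088)) (l 14680352)) (a (l 14603432) (c (l 14613336) (a (l 14522000) (l 14499664)))))) (a (a (a (c (l 15391064) (l 15032272)) (c (a (l 15358736) (l 15323600)) (a (l 14969144) (l 14919144)))) (a (c (b (l 15211296) (l 15232296)) (a (l 14868552) (l 14798200))) (c (l 15012712) (l 14685088)))) (a (a (c (b (l 14768304) (l 14775664)) (b (l 14522144) (l 14507096))) (c (l 14665808) (l 14449896))) (a (c (l 14601336) (l 14420384)) (c (l 14532936) (l 14398160)))))) (a (a (a (b (c (b (l 15374672) (l 15391808)) (b (l 15025768) (l 15030256))) (b (a (a (l 247595161367) (l 15216064)) (l 15190864)) (l 2))) (c (b (l 15322976) (l 15319928)) (b (l 14936400) (l 14952312))))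 (a (c (b (a (l 15271704) (l 15215984)) (l 15247216)) (b (a (l 14853424) (l 14795408)) (l 81701289255))) (b (c (l 15057712) (l 14674376)) (c (a (l 15168120) (l 15060240)) (a (l 14731688) (l 14642168)))))) (a (a (c (b (l 14801976) (l 14861104)) (b (l 14488000) (l 14490216))) (a (b (b (l 14465896) (l 14460384)) (l 14474968)) (b (l 14416712) (b (l 14326008) (l 14334384))))) (a (b (c (l 14497584) (l 14287096)) (a (b (l 14307592) (l 14245288)) (l 14409232))) (c (b (l 14442424) (l 14346160)) (b (l 14277000) (l 14149176))))))), by decide +kernel⟩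

def k4_pm_202_a : ∃ t, chk3 f_pm_202_a t 1 7 1 = true :=
  ⟨(b (b (a (a (l 2) (a (l 2) (c (a (l 2) (l 15124480)) (l 816140494647)))) (a (a (c (l 14937160) (l 14517288)) (c (l 14618384) (l 14266624))) (a (c (a (l 14464864) (l 14262200)) (a (l 14068928) (l 13994368))) (c (l 14242752) (l 14012808))))) (a (l 2) (a (a (l 2) (c (l 14709832) (l 14307344))) (a (a (l 14254728) (c (l 14238752) (l 13974776))) (a (c (l 14139608) (l 13858856)) (c (l 14132776) (l 13880624))))))) (a (l 2) (a (l 2) (b (a (c (l 14428608) (l 14048184)) (c (a (l 14120688) (l 14023088)) (a (b (l 13789592) (l 13792160)) (b (l 13766928) (l 13691448))))) (a (l 2) (a (l 14032016) (c (l 48414138551) (b (l 13659712) (l 13666760))))))))), by decide +kernel⟩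

theorem s5_pm_202_a : ∃ t, chk3 f_pm_202_a t 1 3 1 = true := ex3_b k3_pm_202_a k4_pm_202_a

theorem s6_pm_202_a : ∃ t, chk3 f_pm_202_a t 1 4 1 = true := ex3_b k0_pm_202_a k1_pm_202_a

theorem s7_pm_202_a : ∃ t, chk3 f_pm_202_a t 1 2 1 = true := ex3_b s6_pm_202_a k2_pm_202_a

theorem s8_pm_202_a : ∃ t, chk3 f_pm_202_a t 1 1 1 = true := ex3_b s7_pm_202_a s5_pm_202_a

theorem c_pm_202_a : CertB 0 536870912 1073741824 536870912 991146299 28908434 3 eng mog cd1q2a cd4q2 pd0 false true false .pp 2 0 2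
    ndB1q2a ndB4q2 pcB0 Cut.none Ext.none :=
  certB1 (fam := false) (s1 := true) (s2 := false) (a := 2) (b := 0) (c := 2) (cn := .pp) (n1 := ndB1q2a) (n2 := ndB4q2) (pc := pcB0) (cut := Cut.none) (xt := Ext.none) (P1 := 0) (W1 := 536870912) (P2 := 1073741824) (W2 := 536870912) (P3 := 991146299) (W3 := 28908434) (N0 := 3) (En := eng) (mo := mog) (C1 := cd1q2a) (C2 := cd4q2) (C3 := pd0)
    rfl (fun _ => rfl) s8_pm_202_a

noncomputable def f_pm_202_b : ℕ → ℕ → ℕ → ℕ → Bool := onCell 0 536870912 1073741824 536870912 991146299 28908434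
    (rowB 3 eng mog cd1q2b cd4q2 pd0 2 false true false .pp 2 0 2 (qsf 1239849684 370763052 1073741824 536870912 0) ndB1q2b ndB4q2 pcB0 Cut.none Ext.none)

def k0_pm_202_b : ∃ t, chk3 f_pm_202_b t 2 2 1 = true :=
  ⟨(a (b (l 1) (b (a (a (b (c (l 16042952) (l 345239965271)) (c (l 16073504) (l 16044448))) (a (a (b (l 1) (l 15998328)) (l 1)) (l 1))) (l 1)) (a (a (b (c (l 15967352) (l 15889400)) (l 15768768)) (a (a (b (l 15873344) (l 15761152)) (b (l 15848016) (l 15738240))) (c (l 350607862647) (b (l 15820696) (l 15688832))))) (a (a (c (l 329669941751) (l 334501604519)) (c (l 313563759383) (l 316784864983))) (b (l 1) (l 285646271735)))))) (l 1)), by decide +kernel⟩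

def k1_pm_202_b : ∃ t, chk3 f_pm_202_b t 4 3 1 = true :=
  ⟨(b (a (b (a (c (l 15741616) (l 15564976)) (a (a (l 15615656) (c (l 15679576) (l 15512136))) (c (l 15678880) (l 15519632)))) (a (c (l 15594208) (l 15361936)) (a (a (l 15458936) (b (l 15480096) (l 15417632))) (c (l 15567976) (l 15345280))))) (a (a (b (c (l 15684488) (l 15533512)) (b (l 15501568) (l 15449496))) (b (b (c (l 15714488) (l 15588288)) (c (l 15654808) (l 15489776))) (c (l 15596312) (l 15373264)))) (b (b (c (l 15663400) (l 15557824)) (c (l 15639448) (l 15466624))) (c (l 15602648) (l 15367760))))) (a (b (a (b (a (l 15368104) (l 15371056)) (a (l 15298048) (l 15310544))) (a (a (l 15216712) (l 15138040)) (c (l 15496608) (l 15226816)))) (a (b (l 15119048) (a (l 15173536) (l 15203464))) (a (b (l 15278320) (c (l 15372576) (l 15083976))) (b (l 15301456) (l 15194376))))) (b (a (a (c (l 15518176) (l 15246192)) (c (l 15536088) (l 15259224))) (b (l 15429656) (c (l 15542048) (l 15247264)))) (a (a (c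 (l 15443856) (l 15152200)) (b (l 15340600) (l 15300872))) (b (c (l 15504896) (l 15205160)) (c (l 15472488) (l 15174696))))))), by decide +kernel⟩

def k2_pm_202_b : ∃ t, chk3 f_pm_202_b t 5 3 1 = true :=
  ⟨(b (a (b (c (a (l 199209978327) (l 292088516551)) (a (l 203504502871) (b (l 1) (l 15373432)))) (c (a (l 15600784) (b (l 15590704) (l 15587880))) (a (l 15344208) (b (l 15324520) (l 15287072))))) (b (l 1) (a (b (c (l 15565152) (l 15264176)) (c (b (l 15571296) (l 15571552)) (l 227126830711))) (b (l 1) (c (l 255581489847) (l 269002687783)))))) (b (b (a (a (c (l 15581360) (l 15282976)) (c (l 15577208) (l 15257008))) (c (a (l 15551400) (l 15509144)) (a (l 15213680) (l 15158816)))) (a (a (c (l 15553448) (l 15244592)) (c (l 15549080) (l 15229728))) (c (l 15492080) (a (l 15199920) (l 15157552))))) (a (b (c (l 15523984) (l 15214680)) (c (l 15504928) (l 15227576))) (b (c (l 15504176) (l 15182848)) (c (l 15506584) (b (l 15191304) (l 15199832))))))), by decide +kernel⟩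

def k3_pm_202_b : ∃ t, chk3 f_pm_202_b t 3 1 1 = true :=
  ⟨(b (l 1) (b (l 1) (a (b (a (a (c (b (l 15453080) (l 15449976)) (b (l 15089912) (l 15102848))) (b (l 1) (c (l 15394216) (l 15036480)))) (l 1)) (b (b (a (c (l 15432064) (l 15134840)) (l 1)) (a (c (l 15441168) (l 15110792)) (c (l 296383402583) (l 305509644903)))) (a (c (b (l 15452720) (l 15467584)) (a (l 15160832) (l 15122336))) (c (a (l 15396840) (l 279740412823)) (b (l 281887376023) (a (l 15087880) (l 15009264))))))) (l 1)))), by decide +kernel⟩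

theorem s4_pm_202_b : ∃ t, chk3 f_pm_202_b t 2 3 1 = true := ex3_a k1_pm_202_b k2_pm_202_b

theorem s5_pm_202_b : ∃ t, chk3 f_pm_202_b t 2 1 1 = true := ex3_b k0_pm_202_b s4_pm_202_b

theorem s6_pm_202_b : ∃ t, chk3 f_pm_202_b t 1 1 1 = true := ex3_a s5_pm_202_b k3_pm_202_b

theorem c_pm_202_b : CertB 1239849684 370763052 1073741824 536870912 991146299 28908434 3 eng mog cd1q2b cd4q2 pd0 false true false .pp 2 0 2
    ndB1q2b ndB4q2 pcB0 Cut.none Ext.none :=
  certB2 (fam := false) (s1 := true) (s2 := false) (a := 2) (b := 0) (c := 2) (cn := .pp) (n1 := ndB1q2b) (n2 := ndB4q2) (pc := pcB0) (cut := Cut.none) (xt := Ext.none) (P1 := 1239849684) (W1 := 370763052) (P2 := 1073741824) (W2 := 536870912) (P3 := 991146299) (W3 := 28908434) (N0 := 3) (En := eng) (mo := mog) (C1 := cd1q2b) (C2 := cd4q2) (C3 := pd0)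
    rfl (fun _ => rfl) s6_pm_202_b

noncomputable def f_pm_203_a : ℕ → ℕ → ℕ → ℕ → Bool := onCell 0 536870912 0 1230186008 991146299 28908434
    (rowB 3 eng mog cd1q2a cd4q3 pd0 0 false true false .up 2 0 3 (qsf 0 536870912 0 1230186008 0) ndB1q2a ndB4q3 pcB0 Cut.none Ext.none)

def k0_pm_203_a : ∃ t, chk3 f_pm_203_a t 1 1 1 = true :=
  ⟨(b (l 2) (b (l 2) (b (a (b (l 2) (b (a (l 2) (l 2)) (a (a (a (b (a (l 194514105719) (l 16194296)) (l 16173720)) (l 16171952)) (l 16068416)) (a (c (l 209479309815) (l 344233335127)) (l 271218780887))))) (l 2)) (a (a (b (a (b (b (l 16188536) (l 16097800)) (b (l 16071792) (l 16048144))) (a (b (l 16049952) (b (l 16007680) (l 15985184))) (b (c (l 16025064) (l 15982944)) (b (l 15967112) (l 15945344))))) (b (a (a (l 16039104) (b (l 16005896) (l 16075696))) (c (l 16206112) (l 15912784))) (a (a (b (l 16017464) (l 16202832)) (b (l 16067936) (l 15980216))) (c (l 15968208) (l 15883488))))) (b (b (a (c (l 15990080) (l 15911536)) (l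 15835472)) (a (c (l 15928480) (l 15850256)) (l 15784256))) (b (a (c (l 15905208) (l 15804576)) (l 15747312)) (a (l 15839632) (c (l 15799120) (l 15637864)))))) (a (b (a (b (l 15706464) (l 15650456)) (b (l 2) (c (l 15569392) (l 15364560)))) (a (b (c (l 15688768) (l 15506312)) (c (l 15634656) (l 15469304))) (b (c (l 15482288) (l 15297232)) (l 15229824)))) (b (a (b (l 2) (l 15383272)) (l 2)) (a (b (l 15115136) (l 15025544)) (c (b (l 14862656) (l 14732072)) (l 14659072))))))))), by decide +kernel⟩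

theorem c_pm_203_a : CertB 0 536870912 0 1230186008 991146299 28908434 3 eng mog cd1q2a cd4q3 pd0 false true false .up 2 0 3
    ndB1q2a ndB4q3 pcB0 Cut.none Ext.none :=
  certB0 (fam := false) (s1 := true) (s2 := false) (a := 2) (b := 0) (c := 3) (cn := .up) (n1 := ndB1q2a) (n2 := ndB4q3) (pc := pcB0) (cut := Cut.none) (xt := Ext.none) (P1 := 0) (W1 := 536870912) (P2 := 0) (W2 := 1230186008) (P3 := 991146299) (W3 := 28908434) (N0 := 3) (En := eng) (mo := mog) (C1 := cd1q2a) (C2 := cd4q3) (C3 := pd0)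
    rfl k0_pm_203_a

noncomputable def f_pm_203_b : ℕ → ℕ → ℕ → ℕ → Bool := onCell 0 536870912 0 1230186008 991146299 28908434
    (rowB 3 eng mog cd1q2b cd4q3 pd0 2 false true false .up 2 0 3 (qsf 1239849684 370763052 0 1230186008 0) ndB1q2b ndB4q3 pcB0 Cut.none Ext.none)

def k0_pm_203_b : ∃ t, chk3 f_pm_203_b t 1 1 1 = true :=
  ⟨(b (l 3) (b (l 3) (a (b (l 3) (b (a (l 3) (a (l 3) (b (l 3) (l 16141448)))) (a (a (a (b (l 2) (a (l 15603720) (l 15712048))) (l 15654648)) (b (l 146731642775) (a (l 15990768) (l 16044144)))) (a (b (l 16080272) (l 16102248)) (b (l 16117200) (l 16117176)))))) (a (b (l 3) (b (a (b (l 3) (a (l 16172672) (l 16181856))) (a (b (l 3) (l 16181104)) (b (l 147806366151) (l 16169384)))) (a (a (l 16143792) (l 16132648)) (a (b (l 16134968) (l 16082984)) (b (l 16107832) (l 16038968)))))) (b (b (l 3) (b (l 3) (a (l 3) (a (a (l 127405290839) (l 124183829399)) (a (b (l 16238144) (l 16199920)) (b (b (l 16234832) (l 16236504)) (l 258267384807)))))))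 (a (b (a (b (l 132773734391) (l 16145728)) (b (b (l 16250928) (l 16172880)) (l 16110776))) (b (a (l 16069160) (l 16019728)) (b (l 243234143271) (l 1)))) (b (a (b (a (l 16169160) (l 16129520)) (l 261488285063)) (b (a (l 252361566679) (l 1)) (l 1))) (l 1)))))))), by decide +kernel⟩

theorem c_pm_203_b : CertB 1239849684 370763052 0 1230186008 991146299 28908434 3 eng mog cd1q2b cd4q3 pd0 false true false .up 2 0 3
    ndB1q2b ndB4q3 pcB0 Cut.none Ext.none :=
  certB2 (fam := false) (s1 := true) (s2 := false) (a := 2) (b := 0) (c := 3) (cn := .up) (n1 := ndB1q2b) (n2 := ndB4q3) (pc := pcB0) (cut := Cut.none) (xt := Ext.none) (P1 := 1239849684) (W1 := 370763052) (P2 := 0) (W2 := 1230186008) (P3 := 991146299) (W3 := 28908434) (N0 := 3) (En := eng) (mo := mog) (C1 := cd1q2b) (C2 := cd4q3) (C3 := pd0)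
    rfl (fun _ => rfl) k0_pm_203_b

noncomputable def cut_pm_213_a : Cut := Cut.of [[⟨0, 1, 0, 37748736⟩, ⟨1, 1, 0, 37748736⟩, ⟨2, 2, 0, 5242880⟩]]

noncomputable def f_pm_213_a : ℕ → ℕ → ℕ → ℕ → Bool := onCell 0 536870912 0 1230186008 991146299 28908434
    (rowB 3 eng mog cd1q2a cd4q3 pd1 0 false true false .pnn 2 1 3 (qsf 0 536870912 0 1230186008 1) ndB1q2a ndB4q3 pcB1 cut_pm_213_a Ext.none)

def k0_pm_213_a : ∃ t, chk3 f_pm_213_a t 2 2 1 = true :=
  ⟨(b (l 3) (b (l 3) (a (l 3) (b (l 3) (a (l 3) (a (l 3) (b (l 3) (a (l 3) (l 214915879495))))))))), by decide +kernel⟩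

def k1_pm_213_a : ∃ t, chk3 f_pm_213_a t 3 4 1 = true :=
  ⟨(a (b (l 3) (l 3)) (a (b (l 3) (b (a (l 3) (a (b (l 3) (a (l 374366707223) (b (l 364166211191) (l 16734280)))) (a (b (a (l 3) (l 394230941511)) (b (l 195051840279) (l 16778624))) (b (b (l 395304690151) (l 246591454007)) (l 16759688))))) (a (b (a (l 3) (b (l 358260577079) (l 236390865431))) (a (b (l 312626568727) (l 188072482135)) (b (l 16718784) (l 16722512)))) (b (a (b (l 169282019351) (l 16762120)) (l 16750896)) (a (l 16736016) (l 16759048)))))) (b (a (b (l 3) (a (b (l 3) (a (b (l 3) (l 399599661991)) (b (a (l 439865022583) (l 418927026871)) (a (l 270213790647) (l 16758776))))) (b (l 6) (a (b (a (l 272361283447) (l 16753768)) (l 16769696)) (b (l 16763920) (l 16755528)))))) (b (l 6) (b (l 6) (a (a (l 16746288) (l 16733784)) (l 16716968))))) (a (b (a (b (b (a (l 250349555543) (l 16775296)) (l 16731544)) (l 16720088)) (b (a (l 16757840) (l 16744056)) (l 16736376))) (a (l 16721376) (l 16697840)))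 (b (a (b (l 16724304) (l 16710808)) (b (l 16701328) (l 16687592))) (a (l 16694256) (l 16671920))))))), by decide +kernel⟩

def k2_pm_213_a : ∃ t, chk3 f_pm_213_a t 3 5 1 = true :=
  ⟨(a (b (a (b (l 3) (l 3)) (b (a (l 3) (b (a (l 3) (b (l 257865686615) (l 171966355207))) (a (l 191830565239) (l 152102101335)))) (a (b (a (l 3) (l 174650686183)) (a (l 178408754023) (l 16626872))) (b (a (l 16668896) (l 16630896)) (l 16596624))))) (a (b (a (b (l 3) (a (l 3) (l 219747675815))) (b (a (l 215452744567) (l 178945594039)) (a (l 181093047687) (l 16587680)))) (a (b (c (l 196125465303) (l 204715203895)) (c (l 166597502103) (l 174650329063))) (b (a (l 16568056) (l 16545520)) (l 16513408)))) (b (a (b (a (l 16607056) (l 16585672)) (l 16553408)) (b (l 16550064) (l 16500704))) (a (b (l 16507856) (l 16460792)) (l 16464944))))) (b (a (b (a (b (a (l 148880908807) (l 16692824)) (a (l 16658552) (l 16647696))) (b (l 16699936) (l 16646080))) (a (b (l 16605096) (l 16553080)) (l 16550896)))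 (a (b (l 16711264) (l 16593408)) (b (a (l 16678280) (l 16655888)) (a (l 16672688) (l 16656152))))) (a (b (a (l 16467776) (l 16410200)) (a (l 16350648) (l 16267648))) (a (b (l 16381600) (l 16185392)) (b (l 16486192) (l 16145768)))))), by decide +kernel⟩

def k3_pm_213_a : ∃ t, chk3 f_pm_213_a t 2 6 1 = true :=
  ⟨(b (a (l 3) (b (a (l 3) (b (a (l 3) (a (b (l 234243185559) (l 202030908679)) (b (l 16556488) (l 16535296)))) (a (a (l 262697203175) (b (l 227263826711) (l 194514673639))) (b (l 160691852887) (l 16501536))))) (a (a (l 3) (c (b (l 268065882151) (a (l 244443647223) (l 187535313431))) (b (l 269676468167) (a (l 244980486887) (l 186998416615))))) (b (a (a (b (l 219210722455) (l 16500056)) (b (l 16506256) (l 16484496))) (b (l 16479808) (l 16458128))) (a (b (l 16470600) (l 16449032)) (l 16425904)))))) (a (a (l 3) (b (a (l 3) (b (l 3) (b (l 3) (l 285245528487)))) (b (a (l 3) (b (c (l 251422782215) (l 251422734935)) (a (a (l 273434414407) (l 210620523511))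 (l 16379024)))) (a (a (b (l 3) (l 291151104903)) (b (l 269676310487) (b (l 234779642087) (l 16341656)))) (b (a (l 186461309527) (l 16359816)) (l 16343312)))))) (b (a (b (a (a (l 3) (b (l 260012809559) (l 218673724167))) (b (a (l 185387747415) (l 16448512)) (l 16433104))) (a (b (a (l 243369764999) (l 16427232)) (a (l 186461403383) (l 16406352))) (b (l 16412192) (l 16391968)))) (b (a (l 16480168) (l 16384720)) (a (l 16377192) (l 16346640)))) (a (b (a (b (l 16389960) (l 16370488)) (l 16363200)) (a (b (l 16352088) (l 16334968)) (l 16329112))) (b (a (l 16340912) (l 16313168)) (l 16277304)))))), by decide +kernel⟩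

def k4_pm_213_a : ∃ t, chk3 f_pm_213_a t 3 6 1 = true :=
  ⟨(b (a (a (b (b (a (a (l 16525960) (l 16504472)) (l 16468624)) (a (l 16471584) (l 16423592))) (b (a (l 16427928) (l 16379472)) (a (l 16385528) (l 16337536)))) (b (a (b (l 16413280) (l 16366472)) (l 16321184)) (a (l 16362768) (b (l 16250696) (l 16205520))))) (a (b (a (l 16384520) (l 16302024)) (a (b (l 16159088) (l 16100376)) (l 16004008))) (b (a (l 16016472) (l 15902976)) (a (l 15860872) (l 15708648))))) (a (b (a (b (l 16301936) (a (l 16309864) (l 16264016))) (a (b (l 16240240) (l 16196768)) (b (l 16155240) (l 16091296)))) (a (b (a (l 16278552) (a (l 16244280) (l 16207936))) (a (c (l 16240000) (l 16228232)) (l 16167768))) (b (l 16077304) (l 15992768)))) (a (b (a (l 15999872) (l 15855272)) (a (l 15826560) (l 15662824))) (b (a (l 15693088) (l 15517824)) (a (l 15483600) (l 15291888)))))), by decide +kernel⟩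

def k5_pm_213_a : ∃ t, chk3 f_pm_213_a t 1 14 1 = true :=
  ⟨(a (a (b (a (b (a (l 3) (b (l 3) (c (l 284708465079) (l 286319012727)))) (a (b (l 3) (l 311015059303)) (a (b (a (l 3) (l 272897398439)) (b (l 249275037175) (l 16271240))) (b (b (l 212767838903) (l 16289208)) (l 16278752))))) (b (a (b (a (b (l 259475675303) (l 231558370983)) (l 16328256)) (a (l 185924340423) (l 16311856))) (b (l 16326304) (l 16310816))) (a (b (l 16296456) (l 16283160)) (l 16353728)))) (b (a (a (b (a (l 3) (b (l 270212970647) (l 243369410711))) (a (b (l 287392801319) (l 260549254055)) (b (l 16247032) (l 16241952)))) (b (a (l 16261592) (l 16266520)) (l 16253752))) (a (b (l 16271840) (l 16262680)) (l 16271368))) (b (a (a (a (b (l 229410714679) (l 1)) (l 16235456)) (l 16245560)) (l 16259712)) (l 1)))) (b (a (b (a (l 16312032) (l 16301200)) (a (l 16287888) (l 16281064))) (b (a (l 16286008) (b (l 16267216) (l 16250536))) (a (b (l 16271232) (l 16256880)) (l 16206528)))) (a (b (a (l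 16272336) (b (l 16270256) (l 16257920))) (a (b (l 16265632) (l 16254808)) (b (l 16233960) (l 16188728)))) (b (a (b (l 16232568) (l 16190704)) (l 16112552)) (l 15841400))))) (a (b (a (b (a (l 16192136) (l 16086712)) (l 16045272)) (b (l 15888800) (l 15761608))) (a (b (l 15922800) (l 15622888)) (b (l 15607480) (a (l 15516288) (l 15329032))))) (b (a (b (l 15562640) (l 15474768)) (b (l 15242912) (a (l 15118096) (l 14908728)))) (a (b (l 15401640) (a (l 15130104) (b (l 14982040) (l 14907512)))) (b (a (l 15061248) (l 14781400)) (a (l 14826128) (l 14712344))))))), by decide +kernel⟩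

def k6_pm_213_a : ∃ t, chk3 f_pm_213_a t 1 15 1 = true :=
  ⟨(a (b (a (l 1) (a (l 1) (b (l 15671808) (l 1)))) (l 1)) (a (b (a (b (a (l 15669456) (l 15494104)) (l 15358128)) (b (a (l 15304920) (b (l 15163888) (l 15049952))) (a (b (l 15124304) (l 15040008)) (b (l 14985752) (l 14977312))))) (l 1)) (b (a (b (a (b (l 14978160) (l 14930280)) (l 14875416)) (l 14968240)) (b (l 14803792) (l 14749600))) (a (b (l 14947600) (l 1)) (b (l 14796928) (l 14865288)))))), by decide +kernel⟩

theorem s7_pm_213_a : ∃ t, chk3 f_pm_213_a t 1 7 1 = true := ex3_b k5_pm_213_a k6_pm_213_a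

theorem s8_pm_213_a : ∃ t, chk3 f_pm_213_a t 1 6 1 = true := ex3_a k3_pm_213_a k4_pm_213_a

theorem s9_pm_213_a : ∃ t, chk3 f_pm_213_a t 1 3 1 = true := ex3_b s8_pm_213_a s7_pm_213_a

theorem s10_pm_213_a : ∃ t, chk3 f_pm_213_a t 3 2 1 = true := ex3_b k1_pm_213_a k2_pm_213_a

theorem s11_pm_213_a : ∃ t, chk3 f_pm_213_a t 1 2 1 = true := ex3_a k0_pm_213_a s10_pm_213_a

theorem s12_pm_213_a : ∃ t, chk3 f_pm_213_a t 1 1 1 = true := ex3_b s11_pm_213_a s9_pm_213_a

theorem c_pm_213_a : CertB 0 536870912 0 1230186008 991146299 28908434 3 eng mog cd1q2a cd4q3 pd1 false true false .pnn 2 1 3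
    ndB1q2a ndB4q3 pcB1 cut_pm_213_a Ext.none :=
  certB0 (fam := false) (s1 := true) (s2 := false) (a := 2) (b := 1) (c := 3) (cn := .pnn) (n1 := ndB1q2a) (n2 := ndB4q3) (pc := pcB1) (cut := cut_pm_213_a) (xt := Ext.none) (P1 := 0) (W1 := 536870912) (P2 := 0) (W2 := 1230186008) (P3 := 991146299) (W3 := 28908434) (N0 := 3) (En := eng) (mo := mog) (C1 := cd1q2a) (C2 := cd4q3) (C3 := pd1)
    rfl s12_pm_213_a

noncomputable def cut_pm_213_b : Cut := Cut.of [[⟨0, 1, 0, 37748736⟩, ⟨1, 1, 0, 37748736⟩, ⟨2, 2, 0, 5242880⟩]]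

noncomputable def f_pm_213_b : ℕ → ℕ → ℕ → ℕ → Bool := onCell 1239849684 370763052 0 1230186008 991146299 28908434
    (rowB 3 eng mog cd1q2b cd4q3 pd1 0 false true false .pnn 2 1 3 (qsf 1239849684 370763052 0 1230186008 1) ndB1q2b ndB4q3 pcB1 cut_pm_213_b Ext.none)

def k0_pm_213_b : ∃ t, chk3 f_pm_213_b t 1 1 1 = true :=
  ⟨(b (l 3) (b (l 3) (a (b (a (b (l 3) (a (b (l 3) (b (a (a (b (l 16272920) (l 1)) (l 1)) (l 1)) (l 1))) (l 1))) (l 1)) (l 1)) (l 1)))), by decide +kernel⟩

theorem c_pm_213_b : CertB 1239849684 370763052 0 1230186008 991146299 28908434 3 eng mog cd1q2b cd4q3 pd1 false true false .pnn 2 1 3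
    ndB1q2b ndB4q3 pcB1 cut_pm_213_b Ext.none :=
  certB0 (fam := false) (s1 := true) (s2 := false) (a := 2) (b := 1) (c := 3) (cn := .pnn) (n1 := ndB1q2b) (n2 := ndB4q3) (pc := pcB1) (cut := cut_pm_213_b) (xt := Ext.none) (P1 := 1239849684) (W1 := 370763052) (P2 := 0) (W2 := 1230186008) (P3 := 991146299) (W3 := 28908434) (N0 := 3) (En := eng) (mo := mog) (C1 := cd1q2b) (C2 := cd4q3) (C3 := pd1)
    rfl k0_pm_213_b

noncomputable def f_pm_303 : ℕ → ℕ → ℕ → ℕ → Bool := onCell 1610612736 536870912 0 1230186008 991146299 28908434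
    (rowB 3 eng mog cd1q3 cd4q3 pd0 0 false true false .npn 3 0 3 (qsf 1610612736 536870912 0 1230186008 0) ndB1q3 ndB4q3 pcB0 Cut.none Ext.none)

def k0_pm_303 : ∃ t, chk3 f_pm_303 t 1 1 1 = true :=
  ⟨(b (l 3) (b (l 3) (a (b (l 3) (b (l 3) (a (b (l 3) (a (a (b (b (l 15721336) (l 15706344)) (a (l 15701376) (l 15609672))) (b (a (l 15593688) (l 1)) (l 1))) (l 1))) (l 1)))) (l 1)))), by decide +kernel⟩

theorem c_pm_303 : CertB 1610612736 536870912 0 1230186008 991146299 28908434 3 eng mog cd1q3 cd4q3 pd0 false true false .npn 3 0 3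
    ndB1q3 ndB4q3 pcB0 Cut.none Ext.none :=
  certB0 (fam := false) (s1 := true) (s2 := false) (a := 3) (b := 0) (c := 3) (cn := .npn) (n1 := ndB1q3) (n2 := ndB4q3) (pc := pcB0) (cut := Cut.none) (xt := Ext.none) (P1 := 1610612736) (W1 := 536870912) (P2 := 0) (W2 := 1230186008) (P3 := 991146299) (W3 := 28908434) (N0 := 3) (En := eng) (mo := mog) (C1 := cd1q3) (C2 := cd4q3) (C3 := pd0)
    rfl k0_pm_303

noncomputable def f_pm_313 : ℕ → ℕ → ℕ → ℕ → Bool := onCell 1610612736 536870912 0 1230186008 991146299 28908434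
    (rowB 3 eng mog cd1q3 cd4q3 pd1 0 false true false .dn 3 1 3 (qsf 1610612736 536870912 0 1230186008 1) ndB1q3 ndB4q3 pcB1 Cut.none Ext.none)

def k0_pm_313 : ∃ t, chk3 f_pm_313 t 1 1 1 = true :=
  ⟨(b (l 3) (l 1)), by decide +kernel⟩

theorem c_pm_313 : CertB 1610612736 536870912 0 1230186008 991146299 28908434 3 eng mog cd1q3 cd4q3 pd1 false true false .dn 3 1 3
    ndB1q3 ndB4q3 pcB1 Cut.none Ext.none :=
  certB0 (fam := false) (s1 := true) (s2 := false) (a := 3) (b := 1) (c := 3) (cn := .dn) (n1 := ndB1q3) (n2 := ndB4q3) (pc := pcB1) (cut := Cut.none) (xt := Ext.none) (P1 := 1610612736) (W1 := 536870912) (P2 := 0) (W2 := 1230186008) (P3 := 991146299) (W3 := 28908434) (N0 := 3) (En := eng) (mo := mog) (C1 := cd1q3) (C2 := cd4q3) (C3 := pd1)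
    rfl k0_pm_313

noncomputable def f_mm_001 : ℕ → ℕ → ℕ → ℕ → Bool := onCell 0 536870912 0 536870912 991146299 28908434
    (rowB 3 eng mog cd1q0 cd4q1 pd0 1 false false false .up 0 0 1 (qsf 0 536870912 536870912 536870912 0) ndB1q0 ndB4q1 pcB0 Cut.none Ext.none)

def k0_mm_001 : ∃ t, chk3 f_mm_001 t 1 1 1 = true :=
  ⟨(l 3), by decide +kernel⟩

theorem c_mm_001 : CertB 0 536870912 536870912 536870912 991146299 28908434 3 eng mog cd1q0 cd4q1 pd0 false false false .up 0 0 1
    ndB1q0 ndB4q1 pcB0 Cut.none Ext.none :=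
  certB1 (fam := false) (s1 := false) (s2 := false) (a := 0) (b := 0) (c := 1) (cn := .up) (n1 := ndB1q0) (n2 := ndB4q1) (pc := pcB0) (cut := Cut.none) (xt := Ext.none) (P1 := 0) (W1 := 536870912) (P2 := 536870912) (W2 := 536870912) (P3 := 991146299) (W3 := 28908434) (N0 := 3) (En := eng) (mo := mog) (C1 := cd1q0) (C2 := cd4q1) (C3 := pd0)
    rfl (fun _ => rfl) k0_mm_001

noncomputable def f_mm_011 : ℕ → ℕ → ℕ → ℕ → Bool := onCell 0 536870912 536870912 536870912 991146299 28908434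
    (rowB 3 eng mog cd1q0 cd4q1 pd1 1 false false false .pnn 0 1 1 (qsf 0 536870912 536870912 536870912 1) ndB1q0 ndB4q1 pcB1 Cut.none Ext.none)

def k0_mm_011 : ∃ t, chk3 f_mm_011 t 1 1 1 = true :=
  ⟨(l 5), by decide +kernel⟩

theorem c_mm_011 : CertB 0 536870912 536870912 536870912 991146299 28908434 3 eng mog cd1q0 cd4q1 pd1 false false false .pnn 0 1 1
    ndB1q0 ndB4q1 pcB1 Cut.none Ext.none :=
  certB1 (fam := false) (s1 := false) (s2 := false) (a := 0) (b := 1) (c := 1) (cn := .pnn) (n1 := ndB1q0) (n2 := ndB4q1) (pc := pcB1) (cut := Cut.none) (xt := Ext.none) (P1 := 0) (W1 := 536870912) (P2 := 536870912) (W2 := 536870912) (P3 := 991146299) (W3 := 28908434) (N0 := 3) (En := eng) (mo := mog) (C1 := cd1q0) (C2 := cd4q1) (C3 := pd1)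
    rfl (fun _ => rfl) k0_mm_011

noncomputable def f_mm_012 : ℕ → ℕ → ℕ → ℕ → Bool := onCell 0 536870912 1073741824 536870912 991146299 28908434
    (rowB 3 eng mog cd1q0 cd4q2 pd1 0 false false false .pnp 0 1 2 (qsf 0 536870912 1073741824 536870912 1) ndB1q0 ndB4q2 pcB1 Cut.none Ext.none)

def k0_mm_012 : ∃ t, chk3 f_mm_012 t 1 1 1 = true :=
  ⟨(l 5), by decide +kernel⟩

theorem c_mm_012 : CertB 0 536870912 1073741824 536870912 991146299 28908434 3 eng mog cd1q0 cd4q2 pd1 false false false .pnp 0 1 2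
    ndB1q0 ndB4q2 pcB1 Cut.none Ext.none :=
  certB0 (fam := false) (s1 := false) (s2 := false) (a := 0) (b := 1) (c := 2) (cn := .pnp) (n1 := ndB1q0) (n2 := ndB4q2) (pc := pcB1) (cut := Cut.none) (xt := Ext.none) (P1 := 0) (W1 := 536870912) (P2 := 1073741824) (W2 := 536870912) (P3 := 991146299) (W3 := 28908434) (N0 := 3) (En := eng) (mo := mog) (C1 := cd1q0) (C2 := cd4q2) (C3 := pd1)
    rfl k0_mm_012

noncomputable def f_mm_022 : ℕ → ℕ → ℕ → ℕ → Bool := onCell 0 536870912 1073741824 536870912 991146299 28908434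
    (rowB 3 eng mog cd1q0 cd4q2 pd2 0 false false false .pp 0 2 2 (qsf 0 536870912 1073741824 536870912 2) ndB1q0 ndB4q2 pcB2 Cut.none Ext.none)

def k0_mm_022 : ∃ t, chk3 f_mm_022 t 1 1 1 = true :=
  ⟨(l 5), by decide +kernel⟩

theorem c_mm_022 : CertB 0 536870912 1073741824 536870912 991146299 28908434 3 eng mog cd1q0 cd4q2 pd2 false false false .pp 0 2 2
    ndB1q0 ndB4q2 pcB2 Cut.none Ext.none :=
  certB0 (fam := false) (s1 := false) (s2 := false) (a := 0) (b := 2) (c := 2) (cn := .pp) (n1 := ndB1q0) (n2 := ndB4q2) (pc := pcB2) (cut := Cut.none) (xt := Ext.none) (P1 := 0) (W1 := 536870912) (P2 := 1073741824) (W2 := 536870912) (P3 := 991146299) (W3 := 28908434) (N0 := 3) (En := eng) (mo := mog) (C1 := cd1q0) (C2 := cd4q2) (C3 := pd2)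
    rfl k0_mm_022

noncomputable def f_mm_023 : ℕ → ℕ → ℕ → ℕ → Bool := onCell 0 536870912 0 1230186008 991146299 28908434
    (rowB 3 eng mog cd1q0 cd4q3 pd2 0 false false false .up 0 2 3 (qsf 0 536870912 0 1230186008 2) ndB1q0 ndB4q3 pcB2 Cut.none Ext.none)

def k0_mm_023 : ∃ t, chk3 f_mm_023 t 1 1 1 = true :=
  ⟨(l 5), by decide +kernel⟩

theorem c_mm_023 : CertB 0 536870912 0 1230186008 991146299 28908434 3 eng mog cd1q0 cd4q3 pd2 false false false .up 0 2 3
    ndB1q0 ndB4q3 pcB2 Cut.none Ext.none :=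
  certB0 (fam := false) (s1 := false) (s2 := false) (a := 0) (b := 2) (c := 3) (cn := .up) (n1 := ndB1q0) (n2 := ndB4q3) (pc := pcB2) (cut := Cut.none) (xt := Ext.none) (P1 := 0) (W1 := 536870912) (P2 := 0) (W2 := 1230186008) (P3 := 991146299) (W3 := 28908434) (N0 := 3) (En := eng) (mo := mog) (C1 := cd1q0) (C2 := cd4q3) (C3 := pd2)
    rfl k0_mm_023

noncomputable def f_mm_033 : ℕ → ℕ → ℕ → ℕ → Bool := onCell 0 536870912 0 1230186008 991146299 28908434
    (rowB 3 eng mog cd1q0 cd4q3 pd3 0 false false false .pnn 0 3 3 (qsf 0 536870912 0 1230186008 3) ndB1q0 ndB4q3 pcB3 Cut.none Ext.none)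

def k0_mm_033 : ∃ t, chk3 f_mm_033 t 1 1 1 = true :=
  ⟨(l 5), by decide +kernel⟩

theorem c_mm_033 : CertB 0 536870912 0 1230186008 991146299 28908434 3 eng mog cd1q0 cd4q3 pd3 false false false .pnn 0 3 3
    ndB1q0 ndB4q3 pcB3 Cut.none Ext.none :=
  certB0 (fam := false) (s1 := false) (s2 := false) (a := 0) (b := 3) (c := 3) (cn := .pnn) (n1 := ndB1q0) (n2 := ndB4q3) (pc := pcB3) (cut := Cut.none) (xt := Ext.none) (P1 := 0) (W1 := 536870912) (P2 := 0) (W2 := 1230186008) (P3 := 991146299) (W3 := 28908434) (N0 := 3) (En := eng) (mo := mog) (C1 := cd1q0) (C2 := cd4q3) (C3 := pd3)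
    rfl k0_mm_033

noncomputable def f_mm_101 : ℕ → ℕ → ℕ → ℕ → Bool := onCell 536870912 536870912 0 536870912 991146299 28908434
    (rowB 3 eng mog cd1q1 cd4q1 pd0 1 false false false .npn 1 0 1 (qsf 536870912 536870912 536870912 536870912 0) ndB1q1 ndB4q1 pcB0 Cut.none Ext.none)

def k0_mm_101 : ∃ t, chk3 f_mm_101 t 1 1 1 = true :=
  ⟨(l 3), by decide +kernel⟩

theorem c_mm_101 : CertB 536870912 536870912 536870912 536870912 991146299 28908434 3 eng mog cd1q1 cd4q1 pd0 false false false .npn 1 0 1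
    ndB1q1 ndB4q1 pcB0 Cut.none Ext.none :=
  certB1 (fam := false) (s1 := false) (s2 := false) (a := 1) (b := 0) (c := 1) (cn := .npn) (n1 := ndB1q1) (n2 := ndB4q1) (pc := pcB0) (cut := Cut.none) (xt := Ext.none) (P1 := 536870912) (W1 := 536870912) (P2 := 536870912) (W2 := 536870912) (P3 := 991146299) (W3 := 28908434) (N0 := 3) (En := eng) (mo := mog) (C1 := cd1q1) (C2 := cd4q1) (C3 := pd0)
    rfl (fun _ => rfl) k0_mm_101

noncomputable def f_mm_102 : ℕ → ℕ → ℕ → ℕ → Bool := onCell 536870912 536870912 1073741824 536870912 991146299 28908434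
    (rowB 3 eng mog cd1q1 cd4q2 pd0 0 false false false .npp 1 0 2 (qsf 536870912 536870912 1073741824 536870912 0) ndB1q1 ndB4q2 pcB0 Cut.none Ext.none)

def k0_mm_102 : ∃ t, chk3 f_mm_102 t 1 1 1 = true :=
  ⟨(l 3), by decide +kernel⟩

theorem c_mm_102 : CertB 536870912 536870912 1073741824 536870912 991146299 28908434 3 eng mog cd1q1 cd4q2 pd0 false false false .npp 1 0 2
    ndB1q1 ndB4q2 pcB0 Cut.none Ext.none :=
  certB0 (fam := false) (s1 := false) (s2 := false) (a := 1) (b := 0) (c := 2) (cn := .npp) (n1 := ndB1q1) (n2 := ndB4q2) (pc := pcB0) (cut := Cut.none) (xt := Ext.none) (P1 := 536870912) (W1 := 536870912) (P2 := 1073741824) (W2 := 536870912) (P3 := 991146299) (W3 := 28908434) (N0 := 3) (En := eng) (mo := mog) (C1 := cd1q1) (C2 := cd4q2) (C3 := pd0)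
    rfl k0_mm_102

noncomputable def f_mm_112 : ℕ → ℕ → ℕ → ℕ → Bool := onCell 536870912 536870912 1073741824 536870912 991146299 28908434
    (rowB 3 eng mog cd1q1 cd4q2 pd1 0 false false false .dn 1 1 2 (qsf 536870912 536870912 1073741824 536870912 1) ndB1q1 ndB4q2 pcB1 Cut.none Ext.none)

def k0_mm_112 : ∃ t, chk3 f_mm_112 t 1 1 1 = true :=
  ⟨(l 3), by decide +kernel⟩

theorem c_mm_112 : CertB 536870912 536870912 1073741824 536870912 991146299 28908434 3 eng mog cd1q1 cd4q2 pd1 false false false .dn 1 1 2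
    ndB1q1 ndB4q2 pcB1 Cut.none Ext.none :=
  certB0 (fam := false) (s1 := false) (s2 := false) (a := 1) (b := 1) (c := 2) (cn := .dn) (n1 := ndB1q1) (n2 := ndB4q2) (pc := pcB1) (cut := Cut.none) (xt := Ext.none) (P1 := 536870912) (W1 := 536870912) (P2 := 1073741824) (W2 := 536870912) (P3 := 991146299) (W3 := 28908434) (N0 := 3) (En := eng) (mo := mog) (C1 := cd1q1) (C2 := cd4q2) (C3 := pd1)
    rfl k0_mm_112

noncomputable def f_mm_113 : ℕ → ℕ → ℕ → ℕ → Bool := onCell 536870912 536870912 0 1230186008 991146299 28908434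
    (rowB 3 eng mog cd1q1 cd4q3 pd1 0 false false false .nn 1 1 3 (qsf 536870912 536870912 0 1230186008 1) ndB1q1 ndB4q3 pcB1 Cut.none Ext.none)

def k0_mm_113 : ∃ t, chk3 f_mm_113 t 1 1 1 = true :=
  ⟨(b (l 5) (l 5)), by decide +kernel⟩

theorem c_mm_113 : CertB 536870912 536870912 0 1230186008 991146299 28908434 3 eng mog cd1q1 cd4q3 pd1 false false false .nn 1 1 3
    ndB1q1 ndB4q3 pcB1 Cut.none Ext.none :=
  certB0 (fam := false) (s1 := false) (s2 := false) (a := 1) (b := 1) (c := 3) (cn := .nn) (n1 := ndB1q1) (n2 := ndB4q3) (pc := pcB1) (cut := Cut.none) (xt := Ext.none) (P1 := 536870912) (W1 := 536870912) (P2 := 0) (W2 := 1230186008) (P3 := 991146299) (W3 := 28908434) (N0 := 3) (En := eng) (mo := mog) (C1 := cd1q1) (C2 := cd4q3) (C3 := pd1)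
    rfl k0_mm_113

noncomputable def f_mm_123 : ℕ → ℕ → ℕ → ℕ → Bool := onCell 536870912 536870912 0 1230186008 991146299 28908434
    (rowB 3 eng mog cd1q1 cd4q3 pd2 0 false false false .npn 1 2 3 (qsf 536870912 536870912 0 1230186008 2) ndB1q1 ndB4q3 pcB2 Cut.none Ext.none)

def k0_mm_123 : ∃ t, chk3 f_mm_123 t 1 1 1 = true :=
  ⟨(b (l 5) (l 5)), by decide +kernel⟩

theorem c_mm_123 : CertB 536870912 536870912 0 1230186008 991146299 28908434 3 eng mog cd1q1 cd4q3 pd2 false false false .npn 1 2 3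
    ndB1q1 ndB4q3 pcB2 Cut.none Ext.none :=
  certB0 (fam := false) (s1 := false) (s2 := false) (a := 1) (b := 2) (c := 3) (cn := .npn) (n1 := ndB1q1) (n2 := ndB4q3) (pc := pcB2) (cut := Cut.none) (xt := Ext.none) (P1 := 536870912) (W1 := 536870912) (P2 := 0) (W2 := 1230186008) (P3 := 991146299) (W3 := 28908434) (N0 := 3) (En := eng) (mo := mog) (C1 := cd1q1) (C2 := cd4q3) (C3 := pd2)
    rfl k0_mm_123

noncomputable def f_mm_133 : ℕ → ℕ → ℕ → ℕ → Bool := onCell 536870912 536870912 0 1230186008 991146299 28908434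
    (rowB 3 eng mog cd1q1 cd4q3 pd3 0 false false false .dn 1 3 3 (qsf 536870912 536870912 0 1230186008 3) ndB1q1 ndB4q3 pcB3 Cut.none Ext.none)

def k0_mm_133 : ∃ t, chk3 f_mm_133 t 1 1 1 = true :=
  ⟨(b (l 5) (l 1)), by decide +kernel⟩

theorem c_mm_133 : CertB 536870912 536870912 0 1230186008 991146299 28908434 3 eng mog cd1q1 cd4q3 pd3 false false false .dn 1 3 3
    ndB1q1 ndB4q3 pcB3 Cut.none Ext.none :=
  certB0 (fam := false) (s1 := false) (s2 := false) (a := 1) (b := 3) (c := 3) (cn := .dn) (n1 := ndB1q1) (n2 := ndB4q3) (pc := pcB3) (cut := Cut.none) (xt := Ext.none) (P1 := 536870912) (W1 := 536870912) (P2 := 0) (W2 := 1230186008) (P3 := 991146299) (W3 := 28908434) (N0 := 3) (En := eng) (mo := mog) (C1 := cd1q1) (C2 := cd4q3) (C3 := pd3)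
    rfl k0_mm_133

noncomputable def f_mm_202_a : ℕ → ℕ → ℕ → ℕ → Bool := onCell 0 536870912 0 536870912 991146299 28908434
    (rowB 3 eng mog cd1q2a cd4q2 pd0 1 false false false .pp 2 0 2 (qsf 0 536870912 1073741824 536870912 0) ndB1q2a ndB4q2 pcB0 Cut.none Ext.none)

def k0_mm_202_a : ∃ t, chk3 f_mm_202_a t 1 1 1 = true :=
  ⟨(a (b (a (a (b (b (b (a (b (b (c (l 197198093911) (l 199345554647)) (l 190755769415)) (c (l 175723651991) (l 193977125159))) (l 3)) (b (l 213841330039) (l 3))) (l 3)) (l 3)) (l 3)) (l 3)) (l 3)) (l 3)), by decide +kernel⟩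

theorem c_mm_202_a : CertB 0 536870912 1073741824 536870912 991146299 28908434 3 eng mog cd1q2a cd4q2 pd0 false false false .pp 2 0 2
    ndB1q2a ndB4q2 pcB0 Cut.none Ext.none :=
  certB1 (fam := false) (s1 := false) (s2 := false) (a := 2) (b := 0) (c := 2) (cn := .pp) (n1 := ndB1q2a) (n2 := ndB4q2) (pc := pcB0) (cut := Cut.none) (xt := Ext.none) (P1 := 0) (W1 := 536870912) (P2 := 1073741824) (W2 := 536870912) (P3 := 991146299) (W3 := 28908434) (N0 := 3) (En := eng) (mo := mog) (C1 := cd1q2a) (C2 := cd4q2) (C3 := pd0)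
    rfl (fun _ => rfl) k0_mm_202_a

noncomputable def f_mm_202_b : ℕ → ℕ → ℕ → ℕ → Bool := onCell 1239849684 370763052 0 536870912 991146299 28908434
    (rowB 3 eng mog cd1q2b cd4q2 pd0 1 false false false .pp 2 0 2 (qsf 1239849684 370763052 1073741824 536870912 0) ndB1q2b ndB4q2 pcB0 Cut.none Ext.none)

def k0_mm_202_b : ∃ t, chk3 f_mm_202_b t 1 1 1 = true :=
  ⟨(b (a (b (a (a (b (b (b (a (b (b (l 16239264) (a (l 16267840) (l 16263432))) (b (l 16173160) (l 16230720))) (c (l 16129440) (l 16116072))) (a (a (b (l 16243096) (l 16378376)) (l 16181712)) (l 3))) (b (a (c (l 16191888) (l 16092496)) (l 3)) (l 3))) (l 3)) (l 3)) (l 3)) (l 3)) (l 3)) (b (l 3) (l 2))), by decide +kernel⟩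

theorem c_mm_202_b : CertB 1239849684 370763052 1073741824 536870912 991146299 28908434 3 eng mog cd1q2b cd4q2 pd0 false false false .pp 2 0 2
    ndB1q2b ndB4q2 pcB0 Cut.none Ext.none :=
  certB1 (fam := false) (s1 := false) (s2 := false) (a := 2) (b := 0) (c := 2) (cn := .pp) (n1 := ndB1q2b) (n2 := ndB4q2) (pc := pcB0) (cut := Cut.none) (xt := Ext.none) (P1 := 1239849684) (W1 := 370763052) (P2 := 1073741824) (W2 := 536870912) (P3 := 991146299) (W3 := 28908434) (N0 := 3) (En := eng) (mo := mog) (C1 := cd1q2b) (C2 := cd4q2) (C3 := pd0)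
    rfl (fun _ => rfl) k0_mm_202_b

noncomputable def f_mm_203_a : ℕ → ℕ → ℕ → ℕ → Bool := onCell 0 536870912 0 1230186008 991146299 28908434
    (rowB 3 eng mog cd1q2a cd4q3 pd0 0 false false false .up 2 0 3 (qsf 0 536870912 0 1230186008 0) ndB1q2a ndB4q3 pcB0 Cut.none Ext.none)

def k0_mm_203_a : ∃ t, chk3 f_mm_203_a t 1 1 1 = true :=
  ⟨(b (l 2) (l 3)), by decide +kernel⟩

theorem c_mm_203_a : CertB 0 536870912 0 1230186008 991146299 28908434 3 eng mog cd1q2a cd4q3 pd0 false false false .up 2 0 3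
    ndB1q2a ndB4q3 pcB0 Cut.none Ext.none :=
  certB0 (fam := false) (s1 := false) (s2 := false) (a := 2) (b := 0) (c := 3) (cn := .up) (n1 := ndB1q2a) (n2 := ndB4q3) (pc := pcB0) (cut := Cut.none) (xt := Ext.none) (P1 := 0) (W1 := 536870912) (P2 := 0) (W2 := 1230186008) (P3 := 991146299) (W3 := 28908434) (N0 := 3) (En := eng) (mo := mog) (C1 := cd1q2a) (C2 := cd4q3) (C3 := pd0)
    rfl k0_mm_203_a

noncomputable def f_mm_203_b : ℕ → ℕ → ℕ → ℕ → Bool := onCell 1239849684 370763052 0 1230186008 991146299 28908434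
    (rowB 3 eng mog cd1q2b cd4q3 pd0 0 false false false .up 2 0 3 (qsf 1239849684 370763052 0 1230186008 0) ndB1q2b ndB4q3 pcB0 Cut.none Ext.none)

def k0_mm_203_b : ∃ t, chk3 f_mm_203_b t 1 1 1 = true :=
  ⟨(b (l 3) (l 3)), by decide +kernel⟩

theorem c_mm_203_b : CertB 1239849684 370763052 0 1230186008 991146299 28908434 3 eng mog cd1q2b cd4q3 pd0 false false false .up 2 0 3
    ndB1q2b ndB4q3 pcB0 Cut.none Ext.none :=
  certB0 (fam := false) (s1 := false) (s2 := false) (a := 2) (b := 0) (c := 3) (cn := .up) (n1 := ndB1q2b) (n2 := ndB4q3) (pc := pcB0) (cut := Cut.none) (xt := Ext.none) (P1 := 1239849684) (W1 := 370763052) (P2 := 0) (W2 := 1230186008) (P3 := 991146299) (W3 := 28908434) (N0 := 3) (En := eng) (mo := mog) (C1 := cd1q2b) (C2 := cd4q3) (C3 := pd0)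
    rfl k0_mm_203_b

noncomputable def f_mm_213_a : ℕ → ℕ → ℕ → ℕ → Bool := onCell 0 536870912 0 1230186008 991146299 28908434
    (rowB 3 eng mog cd1q2a cd4q3 pd1 0 false false false .pnn 2 1 3 (qsf 0 536870912 0 1230186008 1) ndB1q2a ndB4q3 pcB1 Cut.none Ext.none)

def k0_mm_213_a : ∃ t, chk3 f_mm_213_a t 1 1 1 = true :=
  ⟨(b (a (l 3) (l 5)) (l 3)), by decide +kernel⟩

theorem c_mm_213_a : CertB 0 536870912 0 1230186008 991146299 28908434 3 eng mog cd1q2a cd4q3 pd1 false false false .pnn 2 1 3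
    ndB1q2a ndB4q3 pcB1 Cut.none Ext.none :=
  certB0 (fam := false) (s1 := false) (s2 := false) (a := 2) (b := 1) (c := 3) (cn := .pnn) (n1 := ndB1q2a) (n2 := ndB4q3) (pc := pcB1) (cut := Cut.none) (xt := Ext.none) (P1 := 0) (W1 := 536870912) (P2 := 0) (W2 := 1230186008) (P3 := 991146299) (W3 := 28908434) (N0 := 3) (En := eng) (mo := mog) (C1 := cd1q2a) (C2 := cd4q3) (C3 := pd1)
    rfl k0_mm_213_a

noncomputable def f_mm_213_b : ℕ → ℕ → ℕ → ℕ → Bool := onCell 1239849684 370763052 0 1230186008 991146299 28908434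
    (rowB 3 eng mog cd1q2b cd4q3 pd1 0 false false false .pnn 2 1 3 (qsf 1239849684 370763052 0 1230186008 1) ndB1q2b ndB4q3 pcB1 Cut.none Ext.none)

def k0_mm_213_b : ∃ t, chk3 f_mm_213_b t 1 1 1 = true :=
  ⟨(b (l 3) (l 3)), by decide +kernel⟩

theorem c_mm_213_b : CertB 1239849684 370763052 0 1230186008 991146299 28908434 3 eng mog cd1q2b cd4q3 pd1 false false false .pnn 2 1 3
    ndB1q2b ndB4q3 pcB1 Cut.none Ext.none :=
  certB0 (fam := false) (s1 := false) (s2 := false) (a := 2) (b := 1) (c := 3) (cn := .pnn) (n1 := ndB1q2b) (n2 := ndB4q3) (pc := pcB1) (cut := Cut.none) (xt := Ext.none) (P1 := 1239849684) (W1 := 370763052) (P2 := 0) (W2 := 1230186008) (P3 := 991146299) (W3 := 28908434) (N0 := 3) (En := eng) (mo := mog) (C1 := cd1q2b) (C2 := cd4q3) (C3 := pd1)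
    rfl k0_mm_213_b

noncomputable def f_mm_303 : ℕ → ℕ → ℕ → ℕ → Bool := onCell 0 536870912 0 1230186008 991146299 28908434
    (rowB 3 eng mog cd1q3 cd4q3 pd0 2 false false false .npn 3 0 3 (qsf 1610612736 536870912 0 1230186008 0) ndB1q3 ndB4q3 pcB0 Cut.none Ext.none)

def k0_mm_303 : ∃ t, chk3 f_mm_303 t 1 1 1 = true :=
  ⟨(b (l 3) (l 3)), by decide +kernel⟩

theorem c_mm_303 : CertB 1610612736 536870912 0 1230186008 991146299 28908434 3 eng mog cd1q3 cd4q3 pd0 false false false .npn 3 0 3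
    ndB1q3 ndB4q3 pcB0 Cut.none Ext.none :=
  certB2 (fam := false) (s1 := false) (s2 := false) (a := 3) (b := 0) (c := 3) (cn := .npn) (n1 := ndB1q3) (n2 := ndB4q3) (pc := pcB0) (cut := Cut.none) (xt := Ext.none) (P1 := 1610612736) (W1 := 536870912) (P2 := 0) (W2 := 1230186008) (P3 := 991146299) (W3 := 28908434) (N0 := 3) (En := eng) (mo := mog) (C1 := cd1q3) (C2 := cd4q3) (C3 := pd0)
    rfl (fun _ => rfl) k0_mm_303

noncomputable def f_mm_313 : ℕ → ℕ → ℕ → ℕ → Bool := onCell 1610612736 536870912 0 1230186008 991146299 28908434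
    (rowB 3 eng mog cd1q3 cd4q3 pd1 0 false false false .dn 3 1 3 (qsf 1610612736 536870912 0 1230186008 1) ndB1q3 ndB4q3 pcB1 Cut.none Ext.none)

def k0_mm_313 : ∃ t, chk3 f_mm_313 t 1 1 1 = true :=
  ⟨(b (l 3) (l 1)), by decide +kernel⟩

theorem c_mm_313 : CertB 1610612736 536870912 0 1230186008 991146299 28908434 3 eng mog cd1q3 cd4q3 pd1 false false false .dn 3 1 3
    ndB1q3 ndB4q3 pcB1 Cut.none Ext.none :=
  certB0 (fam := false) (s1 := false) (s2 := false) (a := 3) (b := 1) (c := 3) (cn := .dn) (n1 := ndB1q3) (n2 := ndB4q3) (pc := pcB1) (cut := Cut.none) (xt := Ext.none) (P1 := 1610612736) (W1 := 536870912) (P2 := 0) (W2 := 1230186008) (P3 := 991146299) (W3 := 28908434) (N0 := 3) (En := eng) (mo := mog) (C1 := cd1q3) (C2 := cd4q3) (C3 := pd1)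
    rfl k0_mm_313

end Pool.Agent.Strip051.G.I9231_9500.Tab.C.BB14

namespace Pool.Agent.Strip051.G.I9231_9500.Tab.C.BB15

open Pool.Agent.Strip051.PB Pool.Agent.Strip051.PB.T
open Pool.Agent.Strip051.G.I9231_9500.Tab

noncomputable def f_pp_001 : ℕ → ℕ → ℕ → ℕ → Bool := onCell 0 536870912 0 536870912 991146299 28908434
    (rowB 3 eng mog cd1q0 cd5q1 pd0 1 false true true .up 0 0 1 (qsf 0 536870912 536870912 536870912 0) ndB1q0 ndB5q1 pcB0 Cut.none Ext.none)

def k0_pp_001 : ∃ t, chk3 f_pp_001 t 1 1 1 = true :=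
  ⟨(l 3), by decide +kernel⟩

theorem c_pp_001 : CertB 0 536870912 536870912 536870912 991146299 28908434 3 eng mog cd1q0 cd5q1 pd0 false true true .up 0 0 1
    ndB1q0 ndB5q1 pcB0 Cut.none Ext.none :=
  certB1 (fam := false) (s1 := true) (s2 := true) (a := 0) (b := 0) (c := 1) (cn := .up) (n1 := ndB1q0) (n2 := ndB5q1) (pc := pcB0) (cut := Cut.none) (xt := Ext.none) (P1 := 0) (W1 := 536870912) (P2 := 536870912) (W2 := 536870912) (P3 := 991146299) (W3 := 28908434) (N0 := 3) (En := eng) (mo := mog) (C1 := cd1q0) (C2 := cd5q1) (C3 := pd0)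
    rfl (fun _ => rfl) k0_pp_001

noncomputable def cut_pp_011 : Cut := Cut.of [[⟨0, 0, 0, 53687091⟩, ⟨1, 1, 0, 53687091⟩, ⟨2, 1, 0, 53687091⟩]]

noncomputable def f_pp_011 : ℕ → ℕ → ℕ → ℕ → Bool := onCell 0 536870912 536870912 536870912 991146299 28908434
    (rowB 3 eng mog cd1q0 cd5q1 pd1 1 false true true .pnn 0 1 1 (qsf 0 536870912 536870912 536870912 1) ndB1q0 ndB5q1 pcB1 cut_pp_011 Ext.none)

def k0_pp_011 : ∃ t, chk3 f_pp_011 t 1 1 1 = true :=
  ⟨(b (l 3) (b (l 3) (a (b (l 3) (a (a (b (l 3) (a (l 6) (l 3))) (l 3)) (l 2))) (l 2)))), by decide +kernel⟩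

theorem c_pp_011 : CertB 0 536870912 536870912 536870912 991146299 28908434 3 eng mog cd1q0 cd5q1 pd1 false true true .pnn 0 1 1
    ndB1q0 ndB5q1 pcB1 cut_pp_011 Ext.none :=
  certB1 (fam := false) (s1 := true) (s2 := true) (a := 0) (b := 1) (c := 1) (cn := .pnn) (n1 := ndB1q0) (n2 := ndB5q1) (pc := pcB1) (cut := cut_pp_011) (xt := Ext.none) (P1 := 0) (W1 := 536870912) (P2 := 536870912) (W2 := 536870912) (P3 := 991146299) (W3 := 28908434) (N0 := 3) (En := eng) (mo := mog) (C1 := cd1q0) (C2 := cd5q1) (C3 := pd1)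
    rfl (fun _ => rfl) k0_pp_011

noncomputable def cut_pp_012 : Cut := Cut.of [[⟨0, 0, 0, 53687091⟩, ⟨1, 1, 0, 53687091⟩, ⟨2, 1, 0, 53687091⟩]]

noncomputable def f_pp_012 : ℕ → ℕ → ℕ → ℕ → Bool := onCell 0 536870912 536870912 536870912 991146299 28908434
    (rowB 3 eng mog cd1q0 cd5q2 pd1 1 false true true .pnp 0 1 2 (qsf 0 536870912 1073741824 536870912 1) ndB1q0 ndB5q2 pcB1 cut_pp_012 Ext.none)

def k0_pp_012 : ∃ t, chk3 f_pp_012 t 1 1 1 = true :=
  ⟨(b (l 3) (b (l 3) (a (b (l 3) (a (a (a (b (l 3) (l 6)) (l 3)) (l 3)) (l 3))) (l 3)))), by decide +kernel⟩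

theorem c_pp_012 : CertB 0 536870912 1073741824 536870912 991146299 28908434 3 eng mog cd1q0 cd5q2 pd1 false true true .pnp 0 1 2
    ndB1q0 ndB5q2 pcB1 cut_pp_012 Ext.none :=
  certB1 (fam := false) (s1 := true) (s2 := true) (a := 0) (b := 1) (c := 2) (cn := .pnp) (n1 := ndB1q0) (n2 := ndB5q2) (pc := pcB1) (cut := cut_pp_012) (xt := Ext.none) (P1 := 0) (W1 := 536870912) (P2 := 1073741824) (W2 := 536870912) (P3 := 991146299) (W3 := 28908434) (N0 := 3) (En := eng) (mo := mog) (C1 := cd1q0) (C2 := cd5q2) (C3 := pd1)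
    rfl (fun _ => rfl) k0_pp_012

noncomputable def cut_pp_022 : Cut := Cut.of [[⟨0, 0, 0, 53687091⟩, ⟨1, 1, 0, 53687091⟩, ⟨2, 1, 0, 53687091⟩]]

noncomputable def f_pp_022 : ℕ → ℕ → ℕ → ℕ → Bool := onCell 0 536870912 1073741824 536870912 991146299 28908434
    (rowB 3 eng mog cd1q0 cd5q2 pd2 1 false true true .pp 0 2 2 (qsf 0 536870912 1073741824 536870912 2) ndB1q0 ndB5q2 pcB2 cut_pp_022 Ext.none)

def k0_pp_022 : ∃ t, chk3 f_pp_022 t 2 8 1 = true :=
  ⟨(a (a (b (a (b (l 6) (a (l 6) (a (b (l 6) (b (a (l 6) (c (l 16737504) (l 16712024))) (a (l 16701888) (l 16728024)))) (a (b (a (l 6) (b (l 3) (l 16728016))) (b (l 16718576) (l 16731664))) (b (a (b (l 3) (l 16729176)) (l 3)) (b (l 16722272) (l 16735472))))))) (b (l 3) (b (l 3) (a (a (a (b (l 16725048) (l 16718000)) (b (l 3) (l 16720992))) (a (b (l 3) (l 16744400)) (l 3))) (l 3))))) (a (b (a (a (b (l 6) (a (l 16675864) (l 16657496))) (b (b (l 16685904) (l 16677696)) (l 16665816))) (b (a (c (l 16716264) (l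 16689272)) (b (c (l 16729504) (l 16723856)) (l 16699592))) (a (l 16677144) (l 16688952)))) (a (a (b (a (l 16662264) (l 16663472)) (l 16650520)) (b (l 16671880) (l 16658104))) (b (a (l 16684064) (l 16696280)) (a (l 16670688) (l 16678704))))) (b (a (b (b (a (l 16733960) (l 16740136)) (a (l 16728392) (l 16735152))) (a (b (l 16723320) (l 16716960)) (b (l 16730624) (l 16723704)))) (a (b (b (l 3) (l 16740856)) (c (l 16734480) (l 16734176))) (b (l 3) (b (l 16741312) (l 16737088))))) (a (b (a (l 16680664) (c (l 16703496) (l 16709432))) (a (l 16681696) (l 16685352))) (b (b (l 16724624) (l 16691896)) (b (l 16659760) (l 16669304))))))) (a (b (l 3) (b (l 3) (b (a (a (l 16733328) (l 16735424)) (l 3)) (a (b (l 16722368) (l 16711200)) (a (l 16727296) (l 16728400)))))) (l 3))) (l 3)), by decide +kernel⟩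

def k1_pp_022 : ∃ t, chk3 f_pp_022 t 2 9 1 = true :=
  ⟨(a (a (b (a (b (a (a (b (l 16640224) (l 16618776)) (b (l 16645144) (l 16632048))) (a (l 16603816) (l 16606624))) (a (b (a (l 16592336) (l 16609296)) (l 16532992)) (b (l 16616936) (l 16597536)))) (b (a (a (l 16610224) (l 16615024)) (b (a (l 16671376) (l 16678368)) (l 16656216))) (a (b (l 16626272) (l 16607688)) (l 16587848)))) (a (b (a (a (l 16479136) (l 16543752)) (b (l 16577152) (l 16555520))) (a (l 16408456) (b (l 16532152) (l 16504352)))) (b (a (l 16580648) (l 16593592)) (a (l 16542608) (l 16557240))))) (b (a (b (a (b (l 16652464) (l 16651392)) (b (l 16716912) (l 16693880))) (a (b (l 16652184) (l 16634544)) (b (l 16671720) (l 16650616)))) (b (b (a (l 16720512) (l 3)) (a (l 16711880) (l 16712120))) (b (a (l 16694792) (l 16703440)) (a (l 16672592) (l 16694424))))) (b (a (a (l 16608104) (l 16624152)) (b (a (l 16651456) (l 16675096)) (l 16602016))) (a (a (l 16572656) (l 16589784)) (b (l 16625976)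 (l 16609504)))))) (b (a (b (l 3) (a (c (b (l 396378272039) (l 16693768)) (b (l 392620167399) (l 198272879495))) (l 3))) (l 3)) (a (b (a (b (l 16683504) (l 16674920)) (b (l 16678088) (l 16670400))) (a (b (l 16665000) (l 16651600)) (b (l 16662688) (l 16655072)))) (b (l 3) (a (b (l 16656248) (l 16649616)) (b (l 3) (l 16642032))))))), by decide +kernel⟩

def k2_pp_022 : ∃ t, chk3 f_pp_022 t 2 5 1 = true :=
  ⟨(a (b (b (a (b (a (a (l 16380544) (l 16409696)) (a (b (l 16510288) (l 16481088)) (l 16519472))) (a (b (l 16323120) (b (l 16325640) (b (l 16298056) (l 16256656)))) (b (a (l 16439536) (l 16482584)) (b (l 16425360) (b (l 16397704) (l 16377144)))))) (b (a (l 16504888) (l 16564496)) (b (a (l 16519624) (l 16560544)) (b (a (l 16502104) (l 16548496)) (b (a (l 16487048) (l 16542952)) (a (a (l 16448016) (l 16492856)) (l 16537456))))))) (a (a (b (a (l 16222992) (l 16275360)) (l 16171280)) (b (l 16330960) (l 16320184))) (a (a (l 16388904) (l 16410480)) (b (l 16514368)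 (l 16472272))))) (a (a (b (b (l 16179800) (l 16149504)) (b (l 16122168) (l 16097072))) (b (a (l 16250352) (l 16264736)) (a (l 16179752) (l 16218000)))) (b (a (a (l 16304176) (l 16372840)) (l 16407224)) (a (l 16275328) (l 16319376))))) (b (b (b (a (b (a (l 16634352) (l 16645560)) (a (l 16618592) (l 16633056))) (b (a (l 16643064) (l 16636688)) (a (l 16635392) (l 16631448)))) (a (b (a (l 16603088) (l 16614784)) (b (l 16531520) (b (l 16565040) (l 16517656)))) (b (a (l 16623744) (l 16624768)) (b (a (l 16608808) (l 16616072)) (a (l 16596216) (l 16602608)))))) (a (a (l 16539168) (l 16569680)) (a (l 16579568) (l 16588696)))) (a (b (a (l 16453216) (l 16501168)) (a (l 16367280) (l 16396872))) (b (a (l 16549984) (l 16578480)) (a (l 16470024) (l 16523192)))))), by decide +kernel⟩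

def k3_pp_022 : ∃ t, chk3 f_pp_022 t 2 3 1 = true :=
  ⟨(a (b (a (b (a (b (a (l 16030400) (l 16094304)) (a (l 15987320) (l 16022672))) (b (l 16015528) (l 16053352))) (a (b (l 15922480) (l 15830176)) (b (l 15960576) (l 15867696)))) (b (a (b (l 16185416) (l 16095128)) (b (l 16231360) (l 16143728))) (a (b (l 16004984) (l 15915640)) (b (l 16057088) (l 15972128))))) (a (b (a (l 15519544) (l 15562688)) (b (l 15359456) (l 15356312))) (b (b (l 15650264) (l 15718624)) (a (l 15631608) (l 2))))) (b (b (a (a (b (l 16281904) (l 16197712)) (b (l 16335840) (l 16255984))) (b (a (l 16392416) (l 16452072)) (l 16354016))) (a (a (l 15867888) (l 16063832)) (a (l 16178704) (l 2)))) (a (b (a (l 15934888) (l 2)) (l 2)) (l 2)))), by decide +kernel⟩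

def k4_pp_022 : ∃ t, chk3 f_pp_022 t 3 1 1 = true :=
  ⟨(b (b (b (l 3) (a (b (l 3) (l 3)) (l 3))) (a (b (b (b (a (b (a (l 16628584) (l 3)) (a (l 16624776) (l 16616680))) (l 3)) (b (a (a (l 16621096) (l 16614664)) (a (l 16607136) (l 16598584))) (b (a (a (l 16617160) (l 16613344)) (l 16561080)) (a (a (l 16608152) (l 16609280)) (a (l 16606416) (l 16601416)))))) (a (a (l 16597488) (l 16604624)) (a (l 16606168) (l 16605472)))) (a (b (a (l 16593096) (l 16602352)) (l 16570408)) (b (l 16568872) (l 2)))) (b (b (b (l 3) (l 2)) (l 2)) (l 2)))) (a (b (b (a (b (l 16540992) (l 2)) (l 2)) (l 2)) (l 2)) (l 2))), by decide +kernel⟩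

theorem s5_pp_022 : ∃ t, chk3 f_pp_022 t 2 4 1 = true := ex3_b k0_pp_022 k1_pp_022

theorem s6_pp_022 : ∃ t, chk3 f_pp_022 t 2 2 1 = true := ex3_b s5_pp_022 k2_pp_022

theorem s7_pp_022 : ∃ t, chk3 f_pp_022 t 2 1 1 = true := ex3_b s6_pp_022 k3_pp_022

theorem s8_pp_022 : ∃ t, chk3 f_pp_022 t 1 1 1 = true := ex3_a s7_pp_022 k4_pp_022

theorem c_pp_022 : CertB 0 536870912 1073741824 536870912 991146299 28908434 3 eng mog cd1q0 cd5q2 pd2 false true true .pp 0 2 2
    ndB1q0 ndB5q2 pcB2 cut_pp_022 Ext.none :=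
  certB1 (fam := false) (s1 := true) (s2 := true) (a := 0) (b := 2) (c := 2) (cn := .pp) (n1 := ndB1q0) (n2 := ndB5q2) (pc := pcB2) (cut := cut_pp_022) (xt := Ext.none) (P1 := 0) (W1 := 536870912) (P2 := 1073741824) (W2 := 536870912) (P3 := 991146299) (W3 := 28908434) (N0 := 3) (En := eng) (mo := mog) (C1 := cd1q0) (C2 := cd5q2) (C3 := pd2)
    rfl (fun _ => rfl) s8_pp_022

noncomputable def f_pp_023 : ℕ → ℕ → ℕ → ℕ → Bool := onCell 1073741824 536870912 0 1230186008 991146299 28908434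
    (rowB 3 eng mog cd1q0 cd5q3 pd2 2 false true true .up 0 2 3 (qsf 0 536870912 0 1230186008 2) ndB1q0 ndB5q3 pcB2 Cut.none Ext.none)

def k0_pp_023 : ∃ t, chk3 f_pp_023 t 1 1 1 = true :=
  ⟨(b (a (l 2) (a (l 2) (a (b (l 2) (b (l 181560972167) (b (l 16219936) (l 16360000)))) (b (a (l 2) (b (b (l 15538200) (l 15352056)) (l 15546472))) (b (l 15625920) (b (l 16091392) (l 16226048))))))) (b (b (a (l 2) (a (a (l 2) (l 16545376)) (a (l 16415264) (b (l 16349416) (l 16422280))))) (a (a (l 2) (a (l 2) (l 318464793127))) (b (a (a (l 16642096) (l 16683080)) (a (l 16601680) (l 16392760))) (a (l 16661560) (a (l 16509592) (l 16296288)))))) (a (a (l 3) (a (b (b (a (l 2) (l 16618968)) (a (a (l 3) (a (l 3) (a (l 16577608) (l 16582952)))) (l 16605976))) (a (a (l 3) (a (l 3) (b (a (l 3) (l 16585360)) (a (l 16510016) (l 16596672))))) (b (l 16603776) (l 16605776)))) (b (b (l 16681536) (l 16653664)) (b (l 16630496) (b (l 16613440) (l 16602344)))))) (b (a (b (a (l 16735808)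 (l 16586712)) (a (l 16668464) (l 16475432))) (b (l 16033192) (a (l 16237784) (l 15966568)))) (a (b (a (l 16578424) (l 16344720)) (a (l 16373192) (l 16003648))) (b (a (l 16077944) (l 15785016)) (b (l 15611680) (a (l 15859416) (l 15559528))))))))), by decide +kernel⟩

theorem c_pp_023 : CertB 0 536870912 0 1230186008 991146299 28908434 3 eng mog cd1q0 cd5q3 pd2 false true true .up 0 2 3
    ndB1q0 ndB5q3 pcB2 Cut.none Ext.none :=
  certB2 (fam := false) (s1 := true) (s2 := true) (a := 0) (b := 2) (c := 3) (cn := .up) (n1 := ndB1q0) (n2 := ndB5q3) (pc := pcB2) (cut := Cut.none) (xt := Ext.none) (P1 := 0) (W1 := 536870912) (P2 := 0) (W2 := 1230186008) (P3 := 991146299) (W3 := 28908434) (N0 := 3) (En := eng) (mo := mog) (C1 := cd1q0) (C2 := cd5q3) (C3 := pd2)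
    rfl (fun _ => rfl) k0_pp_023

noncomputable def f_pp_033 : ℕ → ℕ → ℕ → ℕ → Bool := onCell 1610612736 536870912 0 1230186008 991146299 28908434
    (rowB 3 eng mog cd1q0 cd5q3 pd3 2 false true true .pnn 0 3 3 (qsf 0 536870912 0 1230186008 3) ndB1q0 ndB5q3 pcB3 Cut.none Ext.none)

def k0_pp_033 : ∃ t, chk3 f_pp_033 t 1 2 1 = true :=
  ⟨(b (b (a (a (a (b (l 16247840) (l 16119040)) (a (l 16268608) (l 16320320))) (a (a (l 16344168) (l 16055880)) (a (l 16093280) (l 4)))) (l 4)) (a (a (a (l 16103200) (b (l 16074152) (l 16021464))) (a (b (l 16161144) (l 15997240)) (b (l 16211168) (l 16055360)))) (a (a (a (l 15990736) (l 15918520)) (l 4)) (l 4)))) (a (a (b (a (l 16179888) (l 16041712)) (a (b (l 16236776) (l 16181352)) (l 16063832))) (b (a (b (l 15927448) (l 15905536)) (b (l 15875248) (l 15779776))) (a (l 15872312) (l 15680352)))) (b (a (a (a (b (l 15890760) (l 15704320)) (b (l 15891632) (l 15680144))) (a (l 15658448) (l 15655424))) (a (a (l 15551360) (l 4))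 (l 4))) (a (a (a (l 15538552) (b (l 15516752) (l 15389120))) (a (b (l 15449608) (l 15285000)) (b (l 15389712) (l 15182248)))) (b (a (a (l 15300312) (l 15208408)) (l 4)) (a (a (a (l 15097360) (l 15042552)) (l 15006816)) (l 1))))))), by decide +kernel⟩

def k1_pp_033 : ∃ t, chk3 f_pp_033 t 1 3 1 = true :=
  ⟨(b (a (a (b (a (b (b (l 16237192) (l 16306696)) (l 16312216)) (b (a (l 16109720) (l 15990672)) (l 16043480))) (b (a (a (l 16296816) (l 16163912)) (l 15948304)) (a (b (l 16100992) (l 15997984)) (b (l 15797688) (l 15684152))))) (b (a (b (l 15750264) (a (l 15826896) (l 15682608))) (b (l 15569240) (a (l 15542680) (l 15405256)))) (b (a (a (l 15718936) (l 15562760)) (a (l 15406504) (l 15252680))) (a (b (l 15425336) (l 15341176)) (b (a (l 15213216) (l 15046512)) (a (l 15072232) (l 14897224))))))) (b (a (a (b (l 15327000) (a (l 15185112) (l 15132840))) (b (l 137468594903) (l 14909120))) (a (a (a (l 14797704) (l 1)) (l 1)) (l 1))) (a (a (b (a (l 15104152) (l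 128879442007)) (b (a (l 14889008) (l 14748120)) (a (l 14746568) (l 1)))) (b (a (b (l 14866520) (l 1)) (l 1)) (l 1))) (l 1)))) (a (b (a (b (a (l 15665376) (b (l 15585688) (l 15507040))) (a (b (l 15736992) (l 15638080)) (b (l 15430264) (l 15318328)))) (a (b (b (l 15249552) (l 15102904)) (b (l 15104320) (l 14983080))) (b (b (l 14915176) (a (l 14943760) (l 1))) (l 1)))) (a (b (a (b (l 15524528) (l 15398200)) (b (l 15192096) (a (l 15140776) (l 14977280)))) (a (b (a (l 15351216) (l 15046112)) (a (b (l 15295072) (l 15318240)) (l 15195808))) (b (a (b (l 15051648) (l 1)) (l 1)) (l 1)))) (b (a (b (a (l 14936600) (l 1)) (l 1)) (l 1)) (l 1)))) (l 1))), by decide +kernel⟩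

theorem s2_pp_033 : ∃ t, chk3 f_pp_033 t 1 1 1 = true := ex3_b k0_pp_033 k1_pp_033

theorem c_pp_033 : CertB 0 536870912 0 1230186008 991146299 28908434 3 eng mog cd1q0 cd5q3 pd3 false true true .pnn 0 3 3
    ndB1q0 ndB5q3 pcB3 Cut.none Ext.none :=
  certB2 (fam := false) (s1 := true) (s2 := true) (a := 0) (b := 3) (c := 3) (cn := .pnn) (n1 := ndB1q0) (n2 := ndB5q3) (pc := pcB3) (cut := Cut.none) (xt := Ext.none) (P1 := 0) (W1 := 536870912) (P2 := 0) (W2 := 1230186008) (P3 := 991146299) (W3 := 28908434) (N0 := 3) (En := eng) (mo := mog) (C1 := cd1q0) (C2 := cd5q3) (C3 := pd3)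
    rfl (fun _ => rfl) s2_pp_033

noncomputable def f_pp_101 : ℕ → ℕ → ℕ → ℕ → Bool := onCell 536870912 536870912 0 536870912 991146299 28908434
    (rowB 3 eng mog cd1q1 cd5q1 pd0 1 false true true .npn 1 0 1 (qsf 536870912 536870912 536870912 536870912 0) ndB1q1 ndB5q1 pcB0 Cut.none Ext.none)

def k0_pp_101 : ∃ t, chk3 f_pp_101 t 1 1 1 = true :=
  ⟨(l 3), by decide +kernel⟩

theorem c_pp_101 : CertB 536870912 536870912 536870912 536870912 991146299 28908434 3 eng mog cd1q1 cd5q1 pd0 false true true .npn 1 0 1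
    ndB1q1 ndB5q1 pcB0 Cut.none Ext.none :=
  certB1 (fam := false) (s1 := true) (s2 := true) (a := 1) (b := 0) (c := 1) (cn := .npn) (n1 := ndB1q1) (n2 := ndB5q1) (pc := pcB0) (cut := Cut.none) (xt := Ext.none) (P1 := 536870912) (W1 := 536870912) (P2 := 536870912) (W2 := 536870912) (P3 := 991146299) (W3 := 28908434) (N0 := 3) (En := eng) (mo := mog) (C1 := cd1q1) (C2 := cd5q1) (C3 := pd0)
    rfl (fun _ => rfl) k0_pp_101

noncomputable def f_pp_102 : ℕ → ℕ → ℕ → ℕ → Bool := onCell 536870912 536870912 1073741824 536870912 991146299 28908434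
    (rowB 3 eng mog cd1q1 cd5q2 pd0 0 false true true .npp 1 0 2 (qsf 536870912 536870912 1073741824 536870912 0) ndB1q1 ndB5q2 pcB0 Cut.none Ext.none)

def k0_pp_102 : ∃ t, chk3 f_pp_102 t 1 1 1 = true :=
  ⟨(l 3), by decide +kernel⟩

theorem c_pp_102 : CertB 536870912 536870912 1073741824 536870912 991146299 28908434 3 eng mog cd1q1 cd5q2 pd0 false true true .npp 1 0 2
    ndB1q1 ndB5q2 pcB0 Cut.none Ext.none :=
  certB0 (fam := false) (s1 := true) (s2 := true) (a := 1) (b := 0) (c := 2) (cn := .npp) (n1 := ndB1q1) (n2 := ndB5q2) (pc := pcB0) (cut := Cut.none) (xt := Ext.none) (P1 := 536870912) (W1 := 536870912) (P2 := 1073741824) (W2 := 536870912) (P3 := 991146299) (W3 := 28908434) (N0 := 3) (En := eng) (mo := mog) (C1 := cd1q1) (C2 := cd5q2) (C3 := pd0)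
    rfl k0_pp_102

noncomputable def f_pp_112 : ℕ → ℕ → ℕ → ℕ → Bool := onCell 536870912 536870912 1073741824 536870912 991146299 28908434
    (rowB 3 eng mog cd1q1 cd5q2 pd1 0 false true true .dn 1 1 2 (qsf 536870912 536870912 1073741824 536870912 1) ndB1q1 ndB5q2 pcB1 Cut.none Ext.none)

def k0_pp_112 : ∃ t, chk3 f_pp_112 t 1 1 1 = true :=
  ⟨(l 3), by decide +kernel⟩

theorem c_pp_112 : CertB 536870912 536870912 1073741824 536870912 991146299 28908434 3 eng mog cd1q1 cd5q2 pd1 false true true .dn 1 1 2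
    ndB1q1 ndB5q2 pcB1 Cut.none Ext.none :=
  certB0 (fam := false) (s1 := true) (s2 := true) (a := 1) (b := 1) (c := 2) (cn := .dn) (n1 := ndB1q1) (n2 := ndB5q2) (pc := pcB1) (cut := Cut.none) (xt := Ext.none) (P1 := 536870912) (W1 := 536870912) (P2 := 1073741824) (W2 := 536870912) (P3 := 991146299) (W3 := 28908434) (N0 := 3) (En := eng) (mo := mog) (C1 := cd1q1) (C2 := cd5q2) (C3 := pd1)
    rfl k0_pp_112

noncomputable def f_pp_113 : ℕ → ℕ → ℕ → ℕ → Bool := onCell 536870912 536870912 0 1230186008 991146299 28908434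
    (rowB 3 eng mog cd1q1 cd5q3 pd1 2 false true true .nn 1 1 3 (qsf 536870912 536870912 0 1230186008 1) ndB1q1 ndB5q3 pcB1 Cut.none Ext.none)

def k0_pp_113 : ∃ t, chk3 f_pp_113 t 1 1 1 = true :=
  ⟨(b (a (l 2) (a (l 2) (b (a (l 2) (a (l 2) (b (b (l 16605608) (l 16399024)) (a (l 330342178039) (l 308330756519))))) (a (l 3) (l 3))))) (b (a (l 3) (l 3)) (a (b (l 3) (l 3)) (l 3)))), by decide +kernel⟩

theorem c_pp_113 : CertB 536870912 536870912 0 1230186008 991146299 28908434 3 eng mog cd1q1 cd5q3 pd1 false true true .nn 1 1 3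
    ndB1q1 ndB5q3 pcB1 Cut.none Ext.none :=
  certB2 (fam := false) (s1 := true) (s2 := true) (a := 1) (b := 1) (c := 3) (cn := .nn) (n1 := ndB1q1) (n2 := ndB5q3) (pc := pcB1) (cut := Cut.none) (xt := Ext.none) (P1 := 536870912) (W1 := 536870912) (P2 := 0) (W2 := 1230186008) (P3 := 991146299) (W3 := 28908434) (N0 := 3) (En := eng) (mo := mog) (C1 := cd1q1) (C2 := cd5q3) (C3 := pd1)
    rfl (fun _ => rfl) k0_pp_113

noncomputable def f_pp_123 : ℕ → ℕ → ℕ → ℕ → Bool := onCell 1073741824 536870912 0 1230186008 991146299 28908434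
    (rowB 3 eng mog cd1q1 cd5q3 pd2 2 false true true .npn 1 2 3 (qsf 536870912 536870912 0 1230186008 2) ndB1q1 ndB5q3 pcB2 Cut.none Ext.none)

def k0_pp_123 : ∃ t, chk3 f_pp_123 t 4 1 1 = true :=
  ⟨(b (a (b (b (a (c (l 16547136) (l 16443704)) (l 16531120)) (a (b (a (b (l 16588496) (l 16588528)) (l 16642080)) (a (b (l 16578488) (l 16574832)) (l 16614936))) (b (l 16735624) (a (l 16679880) (l 16722048))))) (b (a (b (a (l 395304116695) (l 16526544)) (a (l 3) (l 379734967623))) (b (a (l 16620272) (l 16626704)) (a (l 16554784) (l 16552488)))) (a (l 3) (b (a (l 3) (l 16530792)) (l 3))))) (b (b (a (l 16757568) (l 16580480)) (b (l 16384784) (a (l 16678304) (l 16453896)))) (b (a (b (l 16653256) (a (l 16587456) (l 16621560))) (b (l 16574176) (l 16622960))) (a (b (a (l 16535928) (b (l 16604048) (l 16576448))) (a (l 16492104) (l 251422440311))) (b (a (l 16632280) (l 16647328)) (a (l 16592136) (l 16641912))))))) (a (l 3) (b (b (a (b (a (l 3) (l 16522688)) (l 3))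 (b (a (b (l 16572360) (l 16554896)) (b (l 16601352) (l 16581184))) (a (l 16555936) (b (l 16571464) (l 16569312))))) (a (l 3) (b (a (l 3) (l 16471800)) (l 3)))) (l 3)))), by decide +kernel⟩

def k1_pp_123 : ∃ t, chk3 f_pp_123 t 5 1 1 = true :=
  ⟨(b (b (a (b (a (l 16391960) (l 16197248)) (a (a (l 16414624) (l 16336336)) (l 16217424))) (b (l 15895448) (l 15722336))) (a (b (a (a (l 16325632) (a (l 16399992) (b (l 16266344) (l 16398504)))) (b (l 16236912) (l 16304752))) (a (a (b (l 16599344) (l 16647520)) (a (b (l 16531992) (l 16609272)) (l 16317592))) (l 16373680))) (b (a (b (l 16094472) (l 16153624)) (l 15735624)) (b (l 16182016) (l 16266520))))) (b (a (a (a (b (b (l 16616728) (a (l 16559168) (l 16545048))) (b (a (l 16499912) (l 16477792)) (c (l 16408352) (l 16448096)))) (b (b (a (l 16605536) (a (l 16587480) (l 16557368))) (a (l 16533664) (l 16517848))) (a (b (l 16458224) (l 16394368)) (b (l 16447832) (a (l 16379008) (l 16350968)))))) (b (b (l 16491144)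 (l 16471488)) (b (l 16398992) (l 16329824)))) (b (b (l 16328832) (a (l 16388704) (l 16308864))) (b (l 16288856) (l 16204832)))) (a (b (a (a (l 3) (a (b (l 16321064) (l 3)) (b (a (l 16327192) (l 16276264)) (a (l 16296752) (l 16288800))))) (b (l 16277408) (l 16255528))) (a (a (l 3) (l 1)) (l 1))) (b (b (b (l 16192984) (l 16181456)) (l 1)) (l 1))))), by decide +kernel⟩

def k2_pp_123 : ∃ t, chk3 f_pp_123 t 3 1 1 = true :=
  ⟨(b (b (a (b (a (l 15499544) (l 15134408)) (a (l 15506752) (l 15295800))) (b (a (b (a (l 14832144) (l 14738536)) (l 14896344)) (b (a (l 14729944) (l 14852776)) (a (l 14714920) (l 14664816)))) (a (l 15100952) (l 14897120)))) (a (b (a (a (l 15854624) (l 15725792)) (b (l 15499040) (l 15593328))) (a (b (l 15918888) (l 16035888)) (b (a (l 15745472) (l 15652360)) (l 15835264)))) (b (a (b (l 15282280) (l 15405432)) (b (l 15115640) (l 15262840))) (a (b (l 15496656) (l 15671536)) (b (l 15416192) (l 1)))))) (b (a (b (a (b (l 16128208) (l 15961456))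 (b (l 15957968) (l 16053264))) (a (b (l 16171840) (l 16122648)) (b (l 16043168) (l 1)))) (b (a (b (l 15827912) (l 1)) (l 1)) (l 1))) (l 1))), by decide +kernel⟩

theorem s3_pp_123 : ∃ t, chk3 f_pp_123 t 2 1 1 = true := ex3_a k0_pp_123 k1_pp_123

theorem s4_pp_123 : ∃ t, chk3 f_pp_123 t 1 1 1 = true := ex3_a s3_pp_123 k2_pp_123

theorem c_pp_123 : CertB 536870912 536870912 0 1230186008 991146299 28908434 3 eng mog cd1q1 cd5q3 pd2 false true true .npn 1 2 3
    ndB1q1 ndB5q3 pcB2 Cut.none Ext.none :=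
  certB2 (fam := false) (s1 := true) (s2 := true) (a := 1) (b := 2) (c := 3) (cn := .npn) (n1 := ndB1q1) (n2 := ndB5q3) (pc := pcB2) (cut := Cut.none) (xt := Ext.none) (P1 := 536870912) (W1 := 536870912) (P2 := 0) (W2 := 1230186008) (P3 := 991146299) (W3 := 28908434) (N0 := 3) (En := eng) (mo := mog) (C1 := cd1q1) (C2 := cd5q3) (C3 := pd2)
    rfl (fun _ => rfl) s4_pp_123

noncomputable def f_pp_133 : ℕ → ℕ → ℕ → ℕ → Bool := onCell 536870912 536870912 0 1230186008 991146299 28908434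
    (rowB 3 eng mog cd1q1 cd5q3 pd3 0 false true true .dn 1 3 3 (qsf 536870912 536870912 0 1230186008 3) ndB1q1 ndB5q3 pcB3 Cut.none Ext.none)

def k0_pp_133 : ∃ t, chk3 f_pp_133 t 1 1 1 = true :=
  ⟨(b (b (a (a (b (a (l 15479448) (l 1)) (l 1)) (l 1)) (l 1)) (l 1)) (l 1)), by decide +kernel⟩

theorem c_pp_133 : CertB 536870912 536870912 0 1230186008 991146299 28908434 3 eng mog cd1q1 cd5q3 pd3 false true true .dn 1 3 3
    ndB1q1 ndB5q3 pcB3 Cut.none Ext.none :=
  certB0 (fam := false) (s1 := true) (s2 := true) (a := 1) (b := 3) (c := 3) (cn := .dn) (n1 := ndB1q1) (n2 := ndB5q3) (pc := pcB3) (cut := Cut.none) (xt := Ext.none) (P1 := 536870912) (W1 := 536870912) (P2 := 0) (W2 := 1230186008) (P3 := 991146299) (W3 := 28908434) (N0 := 3) (En := eng) (mo := mog) (C1 := cd1q1) (C2 := cd5q3) (C3 := pd3)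
    rfl k0_pp_133

noncomputable def f_pp_202_a : ℕ → ℕ → ℕ → ℕ → Bool := onCell 0 536870912 1073741824 536870912 991146299 28908434
    (rowB 3 eng mog cd1q2a cd5q2 pd0 0 false true true .pp 2 0 2 (qsf 0 536870912 1073741824 536870912 0) ndB1q2a ndB5q2 pcB0 Cut.none Ext.none)

def k0_pp_202_a : ∃ t, chk3 f_pp_202_a t 1 1 1 = true :=
  ⟨(l 5), by decide +kernel⟩

theorem c_pp_202_a : CertB 0 536870912 1073741824 536870912 991146299 28908434 3 eng mog cd1q2a cd5q2 pd0 false true true .pp 2 0 2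
    ndB1q2a ndB5q2 pcB0 Cut.none Ext.none :=
  certB0 (fam := false) (s1 := true) (s2 := true) (a := 2) (b := 0) (c := 2) (cn := .pp) (n1 := ndB1q2a) (n2 := ndB5q2) (pc := pcB0) (cut := Cut.none) (xt := Ext.none) (P1 := 0) (W1 := 536870912) (P2 := 1073741824) (W2 := 536870912) (P3 := 991146299) (W3 := 28908434) (N0 := 3) (En := eng) (mo := mog) (C1 := cd1q2a) (C2 := cd5q2) (C3 := pd0)
    rfl k0_pp_202_a

noncomputable def f_pp_202_b : ℕ → ℕ → ℕ → ℕ → Bool := onCell 1239849684 370763052 1073741824 536870912 991146299 28908434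
    (rowB 3 eng mog cd1q2b cd5q2 pd0 0 false true true .pp 2 0 2 (qsf 1239849684 370763052 1073741824 536870912 0) ndB1q2b ndB5q2 pcB0 Cut.none Ext.none)

def k0_pp_202_b : ∃ t, chk3 f_pp_202_b t 1 1 1 = true :=
  ⟨(l 5), by decide +kernel⟩

theorem c_pp_202_b : CertB 1239849684 370763052 1073741824 536870912 991146299 28908434 3 eng mog cd1q2b cd5q2 pd0 false true true .pp 2 0 2
    ndB1q2b ndB5q2 pcB0 Cut.none Ext.none :=
  certB0 (fam := false) (s1 := true) (s2 := true) (a := 2) (b := 0) (c := 2) (cn := .pp) (n1 := ndB1q2b) (n2 := ndB5q2) (pc := pcB0) (cut := Cut.none) (xt := Ext.none) (P1 := 1239849684) (W1 := 370763052) (P2 := 1073741824) (W2 := 536870912) (P3 := 991146299) (W3 := 28908434) (N0 := 3) (En := eng) (mo := mog) (C1 := cd1q2b) (C2 := cd5q2) (C3 := pd0)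
    rfl k0_pp_202_b

noncomputable def f_pp_203_a : ℕ → ℕ → ℕ → ℕ → Bool := onCell 0 536870912 0 1230186008 991146299 28908434
    (rowB 3 eng mog cd1q2a cd5q3 pd0 0 false true true .up 2 0 3 (qsf 0 536870912 0 1230186008 0) ndB1q2a ndB5q3 pcB0 Cut.none Ext.none)

def k0_pp_203_a : ∃ t, chk3 f_pp_203_a t 1 1 1 = true :=
  ⟨(b (l 2) (a (l 5) (l 3))), by decide +kernel⟩

theorem c_pp_203_a : CertB 0 536870912 0 1230186008 991146299 28908434 3 eng mog cd1q2a cd5q3 pd0 false true true .up 2 0 3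
    ndB1q2a ndB5q3 pcB0 Cut.none Ext.none :=
  certB0 (fam := false) (s1 := true) (s2 := true) (a := 2) (b := 0) (c := 3) (cn := .up) (n1 := ndB1q2a) (n2 := ndB5q3) (pc := pcB0) (cut := Cut.none) (xt := Ext.none) (P1 := 0) (W1 := 536870912) (P2 := 0) (W2 := 1230186008) (P3 := 991146299) (W3 := 28908434) (N0 := 3) (En := eng) (mo := mog) (C1 := cd1q2a) (C2 := cd5q3) (C3 := pd0)
    rfl k0_pp_203_a

noncomputable def f_pp_203_b : ℕ → ℕ → ℕ → ℕ → Bool := onCell 1239849684 370763052 0 1230186008 991146299 28908434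
    (rowB 3 eng mog cd1q2b cd5q3 pd0 0 false true true .up 2 0 3 (qsf 1239849684 370763052 0 1230186008 0) ndB1q2b ndB5q3 pcB0 Cut.none Ext.none)

def k0_pp_203_b : ∃ t, chk3 f_pp_203_b t 1 1 1 = true :=
  ⟨(b (l 3) (l 5)), by decide +kernel⟩

theorem c_pp_203_b : CertB 1239849684 370763052 0 1230186008 991146299 28908434 3 eng mog cd1q2b cd5q3 pd0 false true true .up 2 0 3
    ndB1q2b ndB5q3 pcB0 Cut.none Ext.none :=
  certB0 (fam := false) (s1 := true) (s2 := true) (a := 2) (b := 0) (c := 3) (cn := .up) (n1 := ndB1q2b) (n2 := ndB5q3) (pc := pcB0) (cut := Cut.none) (xt := Ext.none) (P1 := 1239849684) (W1 := 370763052) (P2 := 0) (W2 := 1230186008) (P3 := 991146299) (W3 := 28908434) (N0 := 3) (En := eng) (mo := mog) (C1 := cd1q2b) (C2 := cd5q3) (C3 := pd0)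
    rfl k0_pp_203_b

noncomputable def cut_pp_213_a : Cut := Cut.of [[⟨0, 1, 0, 37748736⟩, ⟨1, 1, 0, 37748736⟩, ⟨2, 2, 0, 5242880⟩]]

noncomputable def f_pp_213_a : ℕ → ℕ → ℕ → ℕ → Bool := onCell 0 536870912 0 1230186008 991146299 28908434
    (rowB 3 eng mog cd1q2a cd5q3 pd1 0 false true true .pnn 2 1 3 (qsf 0 536870912 0 1230186008 1) ndB1q2a ndB5q3 pcB1 cut_pp_213_a Ext.none)

def k0_pp_213_a : ∃ t, chk3 f_pp_213_a t 1 1 1 = true :=
  ⟨(a (b (l 3) (l 5)) (b (b (a (l 3) (a (l 3) (b (a (l 3) (b (l 6) (l 3))) (l 3)))) (l 3)) (l 3))), by decide +kernel⟩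

theorem c_pp_213_a : CertB 0 536870912 0 1230186008 991146299 28908434 3 eng mog cd1q2a cd5q3 pd1 false true true .pnn 2 1 3
    ndB1q2a ndB5q3 pcB1 cut_pp_213_a Ext.none :=
  certB0 (fam := false) (s1 := true) (s2 := true) (a := 2) (b := 1) (c := 3) (cn := .pnn) (n1 := ndB1q2a) (n2 := ndB5q3) (pc := pcB1) (cut := cut_pp_213_a) (xt := Ext.none) (P1 := 0) (W1 := 536870912) (P2 := 0) (W2 := 1230186008) (P3 := 991146299) (W3 := 28908434) (N0 := 3) (En := eng) (mo := mog) (C1 := cd1q2a) (C2 := cd5q3) (C3 := pd1)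
    rfl k0_pp_213_a

noncomputable def cut_pp_213_b : Cut := Cut.of [[⟨0, 1, 0, 37748736⟩, ⟨1, 1, 0, 37748736⟩, ⟨2, 2, 0, 5242880⟩]]

noncomputable def f_pp_213_b : ℕ → ℕ → ℕ → ℕ → Bool := onCell 1239849684 370763052 0 1230186008 991146299 28908434
    (rowB 3 eng mog cd1q2b cd5q3 pd1 0 false true true .pnn 2 1 3 (qsf 1239849684 370763052 0 1230186008 1) ndB1q2b ndB5q3 pcB1 cut_pp_213_b Ext.none)

def k0_pp_213_b : ∃ t, chk3 f_pp_213_b t 1 1 1 = true :=
  ⟨(b (l 3) (l 5)), by decide +kernel⟩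

theorem c_pp_213_b : CertB 1239849684 370763052 0 1230186008 991146299 28908434 3 eng mog cd1q2b cd5q3 pd1 false true true .pnn 2 1 3
    ndB1q2b ndB5q3 pcB1 cut_pp_213_b Ext.none :=
  certB0 (fam := false) (s1 := true) (s2 := true) (a := 2) (b := 1) (c := 3) (cn := .pnn) (n1 := ndB1q2b) (n2 := ndB5q3) (pc := pcB1) (cut := cut_pp_213_b) (xt := Ext.none) (P1 := 1239849684) (W1 := 370763052) (P2 := 0) (W2 := 1230186008) (P3 := 991146299) (W3 := 28908434) (N0 := 3) (En := eng) (mo := mog) (C1 := cd1q2b) (C2 := cd5q3) (C3 := pd1)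
    rfl k0_pp_213_b

noncomputable def f_pp_303 : ℕ → ℕ → ℕ → ℕ → Bool := onCell 1610612736 536870912 0 1230186008 991146299 28908434
    (rowB 3 eng mog cd1q3 cd5q3 pd0 0 false true true .npn 3 0 3 (qsf 1610612736 536870912 0 1230186008 0) ndB1q3 ndB5q3 pcB0 Cut.none Ext.none)

def k0_pp_303 : ∃ t, chk3 f_pp_303 t 1 1 1 = true :=
  ⟨(b (l 3) (l 5)), by decide +kernel⟩

theorem c_pp_303 : CertB 1610612736 536870912 0 1230186008 991146299 28908434 3 eng mog cd1q3 cd5q3 pd0 false true true .npn 3 0 3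
    ndB1q3 ndB5q3 pcB0 Cut.none Ext.none :=
  certB0 (fam := false) (s1 := true) (s2 := true) (a := 3) (b := 0) (c := 3) (cn := .npn) (n1 := ndB1q3) (n2 := ndB5q3) (pc := pcB0) (cut := Cut.none) (xt := Ext.none) (P1 := 1610612736) (W1 := 536870912) (P2 := 0) (W2 := 1230186008) (P3 := 991146299) (W3 := 28908434) (N0 := 3) (En := eng) (mo := mog) (C1 := cd1q3) (C2 := cd5q3) (C3 := pd0)
    rfl k0_pp_303

noncomputable def f_pp_313 : ℕ → ℕ → ℕ → ℕ → Bool := onCell 1610612736 536870912 0 1230186008 991146299 28908434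
    (rowB 3 eng mog cd1q3 cd5q3 pd1 0 false true true .dn 3 1 3 (qsf 1610612736 536870912 0 1230186008 1) ndB1q3 ndB5q3 pcB1 Cut.none Ext.none)

def k0_pp_313 : ∃ t, chk3 f_pp_313 t 1 1 1 = true :=
  ⟨(b (l 3) (l 1)), by decide +kernel⟩

theorem c_pp_313 : CertB 1610612736 536870912 0 1230186008 991146299 28908434 3 eng mog cd1q3 cd5q3 pd1 false true true .dn 3 1 3
    ndB1q3 ndB5q3 pcB1 Cut.none Ext.none :=
  certB0 (fam := false) (s1 := true) (s2 := true) (a := 3) (b := 1) (c := 3) (cn := .dn) (n1 := ndB1q3) (n2 := ndB5q3) (pc := pcB1) (cut := Cut.none) (xt := Ext.none) (P1 := 1610612736) (W1 := 536870912) (P2 := 0) (W2 := 1230186008) (P3 := 991146299) (W3 := 28908434) (N0 := 3) (En := eng) (mo := mog) (C1 := cd1q3) (C2 := cd5q3) (C3 := pd1)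
    rfl k0_pp_313

noncomputable def f_pm_001 : ℕ → ℕ → ℕ → ℕ → Bool := onCell 0 536870912 536870912 536870912 991146299 28908434
    (rowB 3 eng mog cd1q0 cd5q1 pd0 0 false true false .up 0 0 1 (qsf 0 536870912 536870912 536870912 0) ndB1q0 ndB5q1 pcB0 Cut.none Ext.none)

def k0_pm_001 : ∃ t, chk3 f_pm_001 t 1 1 1 = true :=
  ⟨(l 4), by decide +kernel⟩

theorem c_pm_001 : CertB 0 536870912 536870912 536870912 991146299 28908434 3 eng mog cd1q0 cd5q1 pd0 false true false .up 0 0 1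
    ndB1q0 ndB5q1 pcB0 Cut.none Ext.none :=
  certB0 (fam := false) (s1 := true) (s2 := false) (a := 0) (b := 0) (c := 1) (cn := .up) (n1 := ndB1q0) (n2 := ndB5q1) (pc := pcB0) (cut := Cut.none) (xt := Ext.none) (P1 := 0) (W1 := 536870912) (P2 := 536870912) (W2 := 536870912) (P3 := 991146299) (W3 := 28908434) (N0 := 3) (En := eng) (mo := mog) (C1 := cd1q0) (C2 := cd5q1) (C3 := pd0)
    rfl k0_pm_001

noncomputable def f_pm_011 : ℕ → ℕ → ℕ → ℕ → Bool := onCell 0 536870912 536870912 536870912 991146299 28908434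
    (rowB 3 eng mog cd1q0 cd5q1 pd1 0 false true false .pnn 0 1 1 (qsf 0 536870912 536870912 536870912 1) ndB1q0 ndB5q1 pcB1 Cut.none Ext.none)

def k0_pm_011 : ∃ t, chk3 f_pm_011 t 1 1 1 = true :=
  ⟨(l 4), by decide +kernel⟩

theorem c_pm_011 : CertB 0 536870912 536870912 536870912 991146299 28908434 3 eng mog cd1q0 cd5q1 pd1 false true false .pnn 0 1 1
    ndB1q0 ndB5q1 pcB1 Cut.none Ext.none :=
  certB0 (fam := false) (s1 := true) (s2 := false) (a := 0) (b := 1) (c := 1) (cn := .pnn) (n1 := ndB1q0) (n2 := ndB5q1) (pc := pcB1) (cut := Cut.none) (xt := Ext.none) (P1 := 0) (W1 := 536870912) (P2 := 536870912) (W2 := 536870912) (P3 := 991146299) (W3 := 28908434) (N0 := 3) (En := eng) (mo := mog) (C1 := cd1q0) (C2 := cd5q1) (C3 := pd1)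
    rfl k0_pm_011

noncomputable def f_pm_012 : ℕ → ℕ → ℕ → ℕ → Bool := onCell 0 536870912 1073741824 536870912 991146299 28908434
    (rowB 3 eng mog cd1q0 cd5q2 pd1 0 false true false .pnp 0 1 2 (qsf 0 536870912 1073741824 536870912 1) ndB1q0 ndB5q2 pcB1 Cut.none Ext.none)

def k0_pm_012 : ∃ t, chk3 f_pm_012 t 1 1 1 = true :=
  ⟨(l 4), by decide +kernel⟩

theorem c_pm_012 : CertB 0 536870912 1073741824 536870912 991146299 28908434 3 eng mog cd1q0 cd5q2 pd1 false true false .pnp 0 1 2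
    ndB1q0 ndB5q2 pcB1 Cut.none Ext.none :=
  certB0 (fam := false) (s1 := true) (s2 := false) (a := 0) (b := 1) (c := 2) (cn := .pnp) (n1 := ndB1q0) (n2 := ndB5q2) (pc := pcB1) (cut := Cut.none) (xt := Ext.none) (P1 := 0) (W1 := 536870912) (P2 := 1073741824) (W2 := 536870912) (P3 := 991146299) (W3 := 28908434) (N0 := 3) (En := eng) (mo := mog) (C1 := cd1q0) (C2 := cd5q2) (C3 := pd1)
    rfl k0_pm_012

noncomputable def f_pm_022 : ℕ → ℕ → ℕ → ℕ → Bool := onCell 0 536870912 1073741824 536870912 991146299 28908434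
    (rowB 3 eng mog cd1q0 cd5q2 pd2 0 false true false .pp 0 2 2 (qsf 0 536870912 1073741824 536870912 2) ndB1q0 ndB5q2 pcB2 Cut.none Ext.none)

def k0_pm_022 : ∃ t, chk3 f_pm_022 t 1 1 1 = true :=
  ⟨(l 4), by decide +kernel⟩

theorem c_pm_022 : CertB 0 536870912 1073741824 536870912 991146299 28908434 3 eng mog cd1q0 cd5q2 pd2 false true false .pp 0 2 2
    ndB1q0 ndB5q2 pcB2 Cut.none Ext.none :=
  certB0 (fam := false) (s1 := true) (s2 := false) (a := 0) (b := 2) (c := 2) (cn := .pp) (n1 := ndB1q0) (n2 := ndB5q2) (pc := pcB2) (cut := Cut.none) (xt := Ext.none) (P1 := 0) (W1 := 536870912) (P2 := 1073741824) (W2 := 536870912) (P3 := 991146299) (W3 := 28908434) (N0 := 3) (En := eng) (mo := mog) (C1 := cd1q0) (C2 := cd5q2) (C3 := pd2)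
    rfl k0_pm_022

noncomputable def f_pm_023 : ℕ → ℕ → ℕ → ℕ → Bool := onCell 0 536870912 0 1230186008 991146299 28908434
    (rowB 3 eng mog cd1q0 cd5q3 pd2 0 false true false .up 0 2 3 (qsf 0 536870912 0 1230186008 2) ndB1q0 ndB5q3 pcB2 Cut.none Ext.none)

def k0_pm_023 : ∃ t, chk3 f_pm_023 t 1 1 1 = true :=
  ⟨(b (a (l 2) (b (b (a (l 2) (a (l 2) (a (l 2) (b (l 16116552) (l 16365552))))) (l 4)) (l 4))) (l 4)), by decide +kernel⟩

theorem c_pm_023 : CertB 0 536870912 0 1230186008 991146299 28908434 3 eng mog cd1q0 cd5q3 pd2 false true false .up 0 2 3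
    ndB1q0 ndB5q3 pcB2 Cut.none Ext.none :=
  certB0 (fam := false) (s1 := true) (s2 := false) (a := 0) (b := 2) (c := 3) (cn := .up) (n1 := ndB1q0) (n2 := ndB5q3) (pc := pcB2) (cut := Cut.none) (xt := Ext.none) (P1 := 0) (W1 := 536870912) (P2 := 0) (W2 := 1230186008) (P3 := 991146299) (W3 := 28908434) (N0 := 3) (En := eng) (mo := mog) (C1 := cd1q0) (C2 := cd5q3) (C3 := pd2)
    rfl k0_pm_023

noncomputable def f_pm_033 : ℕ → ℕ → ℕ → ℕ → Bool := onCell 0 536870912 0 1230186008 991146299 28908434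
    (rowB 3 eng mog cd1q0 cd5q3 pd3 0 false true false .pnn 0 3 3 (qsf 0 536870912 0 1230186008 3) ndB1q0 ndB5q3 pcB3 Cut.none Ext.none)

def k0_pm_033 : ∃ t, chk3 f_pm_033 t 1 1 1 = true :=
  ⟨(b (b (a (l 4) (a (l 4) (b (a (b (l 16435232) (l 4)) (l 16447688)) (l 4)))) (l 4)) (l 4)), by decide +kernel⟩

theorem c_pm_033 : CertB 0 536870912 0 1230186008 991146299 28908434 3 eng mog cd1q0 cd5q3 pd3 false true false .pnn 0 3 3
    ndB1q0 ndB5q3 pcB3 Cut.none Ext.none :=
  certB0 (fam := false) (s1 := true) (s2 := false) (a := 0) (b := 3) (c := 3) (cn := .pnn) (n1 := ndB1q0) (n2 := ndB5q3) (pc := pcB3) (cut := Cut.none) (xt := Ext.none) (P1 := 0) (W1 := 536870912) (P2 := 0) (W2 := 1230186008) (P3 := 991146299) (W3 := 28908434) (N0 := 3) (En := eng) (mo := mog) (C1 := cd1q0) (C2 := cd5q3) (C3 := pd3)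
    rfl k0_pm_033

noncomputable def f_pm_101 : ℕ → ℕ → ℕ → ℕ → Bool := onCell 536870912 536870912 536870912 536870912 991146299 28908434
    (rowB 3 eng mog cd1q1 cd5q1 pd0 0 false true false .npn 1 0 1 (qsf 536870912 536870912 536870912 536870912 0) ndB1q1 ndB5q1 pcB0 Cut.none Ext.none)

def k0_pm_101 : ∃ t, chk3 f_pm_101 t 1 1 1 = true :=
  ⟨(l 4), by decide +kernel⟩

theorem c_pm_101 : CertB 536870912 536870912 536870912 536870912 991146299 28908434 3 eng mog cd1q1 cd5q1 pd0 false true false .npn 1 0 1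
    ndB1q1 ndB5q1 pcB0 Cut.none Ext.none :=
  certB0 (fam := false) (s1 := true) (s2 := false) (a := 1) (b := 0) (c := 1) (cn := .npn) (n1 := ndB1q1) (n2 := ndB5q1) (pc := pcB0) (cut := Cut.none) (xt := Ext.none) (P1 := 536870912) (W1 := 536870912) (P2 := 536870912) (W2 := 536870912) (P3 := 991146299) (W3 := 28908434) (N0 := 3) (En := eng) (mo := mog) (C1 := cd1q1) (C2 := cd5q1) (C3 := pd0)
    rfl k0_pm_101

noncomputable def f_pm_102 : ℕ → ℕ → ℕ → ℕ → Bool := onCell 536870912 536870912 1073741824 536870912 991146299 28908434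
    (rowB 3 eng mog cd1q1 cd5q2 pd0 0 false true false .npp 1 0 2 (qsf 536870912 536870912 1073741824 536870912 0) ndB1q1 ndB5q2 pcB0 Cut.none Ext.none)

def k0_pm_102 : ∃ t, chk3 f_pm_102 t 1 1 1 = true :=
  ⟨(l 4), by decide +kernel⟩

theorem c_pm_102 : CertB 536870912 536870912 1073741824 536870912 991146299 28908434 3 eng mog cd1q1 cd5q2 pd0 false true false .npp 1 0 2
    ndB1q1 ndB5q2 pcB0 Cut.none Ext.none :=
  certB0 (fam := false) (s1 := true) (s2 := false) (a := 1) (b := 0) (c := 2) (cn := .npp) (n1 := ndB1q1) (n2 := ndB5q2) (pc := pcB0) (cut := Cut.none) (xt := Ext.none) (P1 := 536870912) (W1 := 536870912) (P2 := 1073741824) (W2 := 536870912) (P3 := 991146299) (W3 := 28908434) (N0 := 3) (En := eng) (mo := mog) (C1 := cd1q1) (C2 := cd5q2) (C3 := pd0)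
    rfl k0_pm_102

noncomputable def f_pm_112 : ℕ → ℕ → ℕ → ℕ → Bool := onCell 536870912 536870912 1073741824 536870912 991146299 28908434
    (rowB 3 eng mog cd1q1 cd5q2 pd1 0 false true false .dn 1 1 2 (qsf 536870912 536870912 1073741824 536870912 1) ndB1q1 ndB5q2 pcB1 Cut.none Ext.none)

def k0_pm_112 : ∃ t, chk3 f_pm_112 t 1 1 1 = true :=
  ⟨(l 4), by decide +kernel⟩

theorem c_pm_112 : CertB 536870912 536870912 1073741824 536870912 991146299 28908434 3 eng mog cd1q1 cd5q2 pd1 false true false .dn 1 1 2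
    ndB1q1 ndB5q2 pcB1 Cut.none Ext.none :=
  certB0 (fam := false) (s1 := true) (s2 := false) (a := 1) (b := 1) (c := 2) (cn := .dn) (n1 := ndB1q1) (n2 := ndB5q2) (pc := pcB1) (cut := Cut.none) (xt := Ext.none) (P1 := 536870912) (W1 := 536870912) (P2 := 1073741824) (W2 := 536870912) (P3 := 991146299) (W3 := 28908434) (N0 := 3) (En := eng) (mo := mog) (C1 := cd1q1) (C2 := cd5q2) (C3 := pd1)
    rfl k0_pm_112

noncomputable def f_pm_113 : ℕ → ℕ → ℕ → ℕ → Bool := onCell 536870912 536870912 0 1230186008 991146299 28908434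
    (rowB 3 eng mog cd1q1 cd5q3 pd1 0 false true false .nn 1 1 3 (qsf 536870912 536870912 0 1230186008 1) ndB1q1 ndB5q3 pcB1 Cut.none Ext.none)

def k0_pm_113 : ∃ t, chk3 f_pm_113 t 1 1 1 = true :=
  ⟨(a (b (l 2) (l 4)) (a (b (l 2) (b (a (l 4) (b (b (a (l 2) (l 14013272)) (l 13892144)) (l 4))) (l 4))) (a (b (b (l 2) (b (b (l 2) (l 16433224)) (b (l 15763448) (l 15121128)))) (b (b (b (a (l 14421336) (l 14838584)) (a (l 14279968) (l 14566688))) (b (a (l 4) (l 14500648)) (l 4))) (l 4))) (b (a (b (l 2) (b (b (l 16452168) (l 16647232)) (l 15990136))) (b (b (l 16691032) (l 16492584)) (b (b (l 16423848) (l 16489728)) (l 16077944)))) (b (b (b (l 15280328) (l 15156136)) (b (a (l 14650432) (l 14758496)) (a (l 14598880) (l 14651928)))) (b (b (c (l 14695344) (l 14544520)) (l 4)) (l 4))))))), by decide +kernel⟩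

theorem c_pm_113 : CertB 536870912 536870912 0 1230186008 991146299 28908434 3 eng mog cd1q1 cd5q3 pd1 false true false .nn 1 1 3
    ndB1q1 ndB5q3 pcB1 Cut.none Ext.none :=
  certB0 (fam := false) (s1 := true) (s2 := false) (a := 1) (b := 1) (c := 3) (cn := .nn) (n1 := ndB1q1) (n2 := ndB5q3) (pc := pcB1) (cut := Cut.none) (xt := Ext.none) (P1 := 536870912) (W1 := 536870912) (P2 := 0) (W2 := 1230186008) (P3 := 991146299) (W3 := 28908434) (N0 := 3) (En := eng) (mo := mog) (C1 := cd1q1) (C2 := cd5q3) (C3 := pd1)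
    rfl k0_pm_113

noncomputable def xt_pm_123 : Ext := extD3 3 ⟨4, 1, 1, 5, 22, 5, 21, 25, 41, 100, 1, 20⟩ eng cd1q1 cd5q3 pd2 false true false .npn 1 2 3 rfl ndB1q1 ndB5q3 pcB2

noncomputable def f_pm_123 : ℕ → ℕ → ℕ → ℕ → Bool := onCell 1073741824 536870912 0 1230186008 991146299 28908434
    (rowB 3 eng mog cd1q1 cd5q3 pd2 2 false true false .npn 1 2 3 (qsf 536870912 536870912 0 1230186008 2) ndB1q1 ndB5q3 pcB2 Cut.none xt_pm_123)

def k0_pm_123 : ∃ t, chk3 f_pm_123 t 1 1 1 = true :=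
  ⟨(b (a (a (b (a (b (a (c (l 16383888) (l 16215344)) (l 16419248)) (a (c (l 16311016) (l 16074360)) (l 16201888))) (b (a (l 16692536) (l 16616264)) (a (l 16556832) (l 16468424)))) (a (b (a (b (l 16042600) (c (b (l 16393480) (l 16620520)) (b (l 535894056242359777267727) (l 16074664)))) (b (a (l 16399296) (l 16433968)) (a (l 16233272) (l 16167696)))) (a (b (l 16053216) (l 15083992)) (b (l 15636760) (l 14927800)))) (b (a (b (l 16299312) (l 15967232)) (b (l 16142040) (l 15752976))) (a (b (l 15436872) (l 14926816)) (b (l 15325760) (l 14967280)))))) (b (a (b (l 16251840) (a (l 16173944) (l 15979544))) (b (l 15761672) (a (l 15738160) (l 15552224)))) (a (b (a (l 15748656) (l 15607624)) (a (b (l 15281112) (l 15061944)) (l 15222792))) (b (a (l 15527920) (l 15502184)) (a (l 15287144) (l 4)))))) (b (a (a (b (a (l 15420320) (l 15169104)) (a (l 15445064) (l 15411976))) (b (b (a (l 15053464) (l 14917960)) (a (l 15098400) (l 15111208))) (a (l 15434528) (b (l 15379384)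 (l 15607112))))) (a (b (a (b (l 14870216) (l 15174696)) (l 15113944)) (a (b (l 15478480) (l 15667344)) (b (l 15603080) (l 15701096)))) (b (a (l 15251280) (b (l 15234544) (l 15598712))) (b (a (l 15701840) (l 15755592)) (l 4))))) (b (a (a (a (b (l 15534632) (l 15514368)) (b (l 15568992) (l 4))) (b (a (l 15610880) (l 15637256)) (l 4))) (l 4)) (l 4)))) (a (b (b (b (a (a (a (b (l 14421504) (l 14136144)) (b (l 14488168) (l 4))) (l 4)) (l 4)) (l 4)) (l 4)) (l 4)) (l 4))), by decide +kernel⟩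

theorem c_pm_123 : CertB 536870912 536870912 0 1230186008 991146299 28908434 3 eng mog cd1q1 cd5q3 pd2 false true false .npn 1 2 3
    ndB1q1 ndB5q3 pcB2 Cut.none xt_pm_123 :=
  certB2 (fam := false) (s1 := true) (s2 := false) (a := 1) (b := 2) (c := 3) (cn := .npn) (n1 := ndB1q1) (n2 := ndB5q3) (pc := pcB2) (cut := Cut.none) (xt := xt_pm_123) (P1 := 536870912) (W1 := 536870912) (P2 := 0) (W2 := 1230186008) (P3 := 991146299) (W3 := 28908434) (N0 := 3) (En := eng) (mo := mog) (C1 := cd1q1) (C2 := cd5q3) (C3 := pd2)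
    rfl (fun _ => rfl) k0_pm_123

noncomputable def f_pm_133 : ℕ → ℕ → ℕ → ℕ → Bool := onCell 536870912 536870912 0 1230186008 991146299 28908434
    (rowB 3 eng mog cd1q1 cd5q3 pd3 0 false true false .dn 1 3 3 (qsf 536870912 536870912 0 1230186008 3) ndB1q1 ndB5q3 pcB3 Cut.none Ext.none)

def k0_pm_133 : ∃ t, chk3 f_pm_133 t 1 1 1 = true :=
  ⟨(b (b (a (a (b (a (l 15628408) (l 1)) (l 1)) (l 1)) (l 1)) (l 1)) (l 1)), by decide +kernel⟩

theorem c_pm_133 : CertB 536870912 536870912 0 1230186008 991146299 28908434 3 eng mog cd1q1 cd5q3 pd3 false true false .dn 1 3 3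
    ndB1q1 ndB5q3 pcB3 Cut.none Ext.none :=
  certB0 (fam := false) (s1 := true) (s2 := false) (a := 1) (b := 3) (c := 3) (cn := .dn) (n1 := ndB1q1) (n2 := ndB5q3) (pc := pcB3) (cut := Cut.none) (xt := Ext.none) (P1 := 536870912) (W1 := 536870912) (P2 := 0) (W2 := 1230186008) (P3 := 991146299) (W3 := 28908434) (N0 := 3) (En := eng) (mo := mog) (C1 := cd1q1) (C2 := cd5q3) (C3 := pd3)
    rfl k0_pm_133

noncomputable def f_pm_202_a : ℕ → ℕ → ℕ → ℕ → Bool := onCell 0 536870912 1073741824 536870912 991146299 28908434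
    (rowB 3 eng mog cd1q2a cd5q2 pd0 0 false true false .pp 2 0 2 (qsf 0 536870912 1073741824 536870912 0) ndB1q2a ndB5q2 pcB0 Cut.none Ext.none)

def k0_pm_202_a : ∃ t, chk3 f_pm_202_a t 2 1 1 = true :=
  ⟨(b (a (b (l 1) (a (b (b (l 15156376) (l 15372848)) (b (b (l 15509304) (l 15586768)) (b (l 15663872) (l 15737280)))) (b (b (l 15017800) (l 15229568)) (b (l 15423208) (b (l 15563040) (l 15641248)))))) (b (b (l 1) (b (l 1) (b (l 1) (b (l 1) (l 14649240))))) (b (b (a (l 14869560) (l 14706440)) (a (l 15082368) (l 14916432))) (b (a (l 15278128) (l 15113912)) (a (l 15459360) (l 15297064)))))) (b (b (a (b (a (l 15828608) (l 15739224)) (l 15893536)) (a (b (l 15633192) (l 15769080)) (b (l 15468664) (l 15630608)))) (a (b (l 15974544) (l 16030392)) (b (a (l 15876000) (l 15776792)) (a (l 15949016) (l 15876352))))) (b (a (b (l 16060672) (a (l 16073208) (l 16052784))) (b (l 15965400) (l 15988824))) (a (b (a (c (l 16061160) (l 16107456)) (l 16029240)) (a (l 16139096)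 (c (l 16005984) (l 16058072)))) (b (l 15985280) (a (l 15965208) (l 15939720))))))), by decide +kernel⟩

def k1_pm_202_a : ∃ t, chk3 f_pm_202_a t 3 1 1 = true :=
  ⟨(b (b (l 4) (a (b (a (b (l 14570200) (l 14752136)) (l 4)) (a (b (l 14930384) (l 15105680)) (b (l 4) (c (l 14940640) (l 14900520))))) (l 4))) (b (a (b (a (b (l 15278056) (l 15441512)) (b (a (l 15111160) (l 15009400)) (l 15190392))) (a (b (l 15597560) (l 15643040)) (b (l 15362920) (l 15514528)))) (a (b (a (b (l 4) (l 15036952)) (l 4)) (b (a (l 15157064) (l 15036672)) (c (l 15229608) (l 15215048)))) (l 4))) (a (b (a (b (l 15833936) (l 15914736)) (b (l 15664936) (a (l 15847736) (l 15753480)))) (b (a (l 15919880) (l 15858584)) (a (l 15898136) (l 15852456)))) (b (a (b (a (l 15443280) (l 15263704)) (a (l 15596304) (l 15413736))) (b (a (c (l 15106664) (l 15066736)) (l 4)) (a (l 15199576) (c (l 15021616) (l 14966928))))) (a (b (a (l 15752248) (l 15576008)) (a (l 15809712) (l 15518536))) (b (a (l 15354416)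 (c (l 15110968) (l 15080536))) (a (l 15535592) (l 15259512)))))))), by decide +kernel⟩

theorem s2_pm_202_a : ∃ t, chk3 f_pm_202_a t 1 1 1 = true := ex3_a k0_pm_202_a k1_pm_202_a

theorem c_pm_202_a : CertB 0 536870912 1073741824 536870912 991146299 28908434 3 eng mog cd1q2a cd5q2 pd0 false true false .pp 2 0 2
    ndB1q2a ndB5q2 pcB0 Cut.none Ext.none :=
  certB0 (fam := false) (s1 := true) (s2 := false) (a := 2) (b := 0) (c := 2) (cn := .pp) (n1 := ndB1q2a) (n2 := ndB5q2) (pc := pcB0) (cut := Cut.none) (xt := Ext.none) (P1 := 0) (W1 := 536870912) (P2 := 1073741824) (W2 := 536870912) (P3 := 991146299) (W3 := 28908434) (N0 := 3) (En := eng) (mo := mog) (C1 := cd1q2a) (C2 := cd5q2) (C3 := pd0)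
    rfl s2_pm_202_a

noncomputable def f_pm_202_b : ℕ → ℕ → ℕ → ℕ → Bool := onCell 0 536870912 1073741824 536870912 991146299 28908434
    (rowB 3 eng mog cd1q2b cd5q2 pd0 2 false true false .pp 2 0 2 (qsf 1239849684 370763052 1073741824 536870912 0) ndB1q2b ndB5q2 pcB0 Cut.none Ext.none)

def k0_pm_202_b : ∃ t, chk3 f_pm_202_b t 1 1 1 = true :=
  ⟨(a (b (a (b (l 1) (a (a (b (b (l 297457086935) (l 15413960)) (l 15518072)) (a (b (l 223368466823) (l 15681256)) (b (l 1) (l 15676792)))) (b (l 1) (a (b (l 15590896) (l 15746696)) (l 258265706007))))) (l 1)) (a (b (a (a (b (l 15963376) (l 16163816)) (b (a (l 15953184) (l 15951032)) (a (l 16158528) (l 16160352)))) (a (b (a (l 15951568) (l 15949088)) (l 16166144)) (b (l 15933904) (l 16157432)))) (a (a (l 15995112) (a (b (l 16292400) (l 16161976)) (b (l 16300320) (l 16214648)))) (a (b (l 16313600) (l 16263152)) (b (l 16317608) (l 16379664))))) (b (b (a (a (l 15901680) (l 15770560)) (l 1)) (a (l 203505734775) (a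 (l 16027608) (l 15944376)))) (b (a (l 16292520) (a (l 16223856) (l 16147848))) (a (a (l 16418360) (l 16412104)) (b (l 16193224) (a (l 16417848) (l 16382280)))))))) (b (l 1) (a (b (l 1) (b (a (b (l 244307625831) (a (l 16094456) (l 15952608))) (l 1)) (a (b (a (l 16206648) (l 16125240)) (l 16309064)) (c (l 337186597095) (l 15882672))))) (l 1)))), by decide +kernel⟩

theorem c_pm_202_b : CertB 1239849684 370763052 1073741824 536870912 991146299 28908434 3 eng mog cd1q2b cd5q2 pd0 false true false .pp 2 0 2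
    ndB1q2b ndB5q2 pcB0 Cut.none Ext.none :=
  certB2 (fam := false) (s1 := true) (s2 := false) (a := 2) (b := 0) (c := 2) (cn := .pp) (n1 := ndB1q2b) (n2 := ndB5q2) (pc := pcB0) (cut := Cut.none) (xt := Ext.none) (P1 := 1239849684) (W1 := 370763052) (P2 := 1073741824) (W2 := 536870912) (P3 := 991146299) (W3 := 28908434) (N0 := 3) (En := eng) (mo := mog) (C1 := cd1q2b) (C2 := cd5q2) (C3 := pd0)
    rfl (fun _ => rfl) k0_pm_202_b

noncomputable def f_pm_203_a : ℕ → ℕ → ℕ → ℕ → Bool := onCell 0 536870912 0 1230186008 991146299 28908434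
    (rowB 3 eng mog cd1q2a cd5q3 pd0 0 false true false .up 2 0 3 (qsf 0 536870912 0 1230186008 0) ndB1q2a ndB5q3 pcB0 Cut.none Ext.none)

def k0_pm_203_a : ∃ t, chk3 f_pm_203_a t 1 1 1 = true :=
  ⟨(b (l 2) (b (l 2) (b (a (b (l 2) (a (c (l 16409960) (l 452681657495)) (b (l 2) (a (l 16276448) (l 16162024))))) (l 2)) (a (b (a (b (a (l 16418136) (l 16276472)) (a (l 16265864) (c (l 16316848) (l 16235120)))) (b (a (l 16164528) (l 16069960)) (a (l 16136392) (l 15971864)))) (a (b (a (b (l 16333208) (l 16290192)) (l 16187488)) (c (l 16166648) (l 16152728))) (b (a (l 16041960) (b (l 15895000) (l 15860536))) (a (c (l 15941320) (l 15993736)) (l 15876520))))) (b (a (b (a (l 15883168) (l 2)) (a (l 15785928) (b (l 15602760) (l 15618536)))) (b (l 2) (a (l 15532032) (l 2)))) (b (a (a (b (l 15741424) (l 15774216)) (l 15705384)) (a (l 15661192) (a (l 15637064) (l 2)))) (b (a (l 15753864) (a (l 15737112) (a (l 15705864) (l 15405136)))) (a (l 15834624) (a (l 15778144) (a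 (l 15675112) (l 15425328))))))))))), by decide +kernel⟩

theorem c_pm_203_a : CertB 0 536870912 0 1230186008 991146299 28908434 3 eng mog cd1q2a cd5q3 pd0 false true false .up 2 0 3
    ndB1q2a ndB5q3 pcB0 Cut.none Ext.none :=
  certB0 (fam := false) (s1 := true) (s2 := false) (a := 2) (b := 0) (c := 3) (cn := .up) (n1 := ndB1q2a) (n2 := ndB5q3) (pc := pcB0) (cut := Cut.none) (xt := Ext.none) (P1 := 0) (W1 := 536870912) (P2 := 0) (W2 := 1230186008) (P3 := 991146299) (W3 := 28908434) (N0 := 3) (En := eng) (mo := mog) (C1 := cd1q2a) (C2 := cd5q3) (C3 := pd0)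
    rfl k0_pm_203_a

noncomputable def f_pm_203_b : ℕ → ℕ → ℕ → ℕ → Bool := onCell 0 536870912 0 1230186008 991146299 28908434
    (rowB 3 eng mog cd1q2b cd5q3 pd0 2 false true false .up 2 0 3 (qsf 1239849684 370763052 0 1230186008 0) ndB1q2b ndB5q3 pcB0 Cut.none Ext.none)

def k0_pm_203_b : ∃ t, chk3 f_pm_203_b t 1 1 1 = true :=
  ⟨(b (l 3) (a (b (l 3) (b (a (l 2) (a (b (l 15684464) (b (l 15586376) (l 15625992))) (b (a (l 15961088) (l 16079560)) (b (l 16074832) (l 16132648))))) (a (b (a (l 2) (a (a (l 15588360) (l 15689608)) (l 15795360))) (a (a (l 15679352) (a (l 15876880) (l 15937656))) (a (a (l 15967096) (l 15859776)) (l 16102888)))) (b (a (b (a (l 15833800) (l 15978336)) (l 16048584)) (b (l 16207280) (l 16313720))) (a (b (l 16248176) (l 16414104)) (b (l 16495416) (l 16483720))))))) (b (b (l 3) (b (a (l 3) (a (l 3) (l 178944907623))) (b (a (l 3) (a (l 16448296) (l 16577080))) (a (a (l 16170784) (l 16338336)) (a (l 16457488) (l 16657192)))))) (b (a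 (b (a (b (l 16199240) (l 16267224)) (a (l 16392600) (l 16496960))) (a (b (l 16335384) (l 16404080)) (b (l 16563848) (l 16635808)))) (b (a (a (l 16593584) (l 16681752)) (b (l 16731120) (l 16641392))) (a (b (l 16677496) (l 16624016)) (c (l 16581256) (l 16567352))))) (a (b (a (b (l 16475584) (l 16569720)) (b (l 16611736) (l 16554816))) (a (b (l 16529528) (l 16435064)) (b (a (l 16488208) (l 16443032)) (l 16222352)))) (b (a (c (l 16528480) (l 16443208)) (b (l 16369848) (l 16128216))) (a (b (c (l 16393184) (l 16292000)) (l 309806354791)) (l 1)))))))), by decide +kernel⟩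

theorem c_pm_203_b : CertB 1239849684 370763052 0 1230186008 991146299 28908434 3 eng mog cd1q2b cd5q3 pd0 false true false .up 2 0 3
    ndB1q2b ndB5q3 pcB0 Cut.none Ext.none :=
  certB2 (fam := false) (s1 := true) (s2 := false) (a := 2) (b := 0) (c := 3) (cn := .up) (n1 := ndB1q2b) (n2 := ndB5q3) (pc := pcB0) (cut := Cut.none) (xt := Ext.none) (P1 := 1239849684) (W1 := 370763052) (P2 := 0) (W2 := 1230186008) (P3 := 991146299) (W3 := 28908434) (N0 := 3) (En := eng) (mo := mog) (C1 := cd1q2b) (C2 := cd5q3) (C3 := pd0)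
    rfl (fun _ => rfl) k0_pm_203_b

noncomputable def cut_pm_213_a : Cut := Cut.of [[⟨0, 1, 0, 37748736⟩, ⟨1, 1, 0, 37748736⟩, ⟨2, 2, 0, 5242880⟩]]

noncomputable def f_pm_213_a : ℕ → ℕ → ℕ → ℕ → Bool := onCell 0 536870912 0 1230186008 991146299 28908434
    (rowB 3 eng mog cd1q2a cd5q3 pd1 0 false true false .pnn 2 1 3 (qsf 0 536870912 0 1230186008 1) ndB1q2a ndB5q3 pcB1 cut_pm_213_a Ext.none)

def k0_pm_213_a : ∃ t, chk3 f_pm_213_a t 2 2 1 = true :=
  ⟨(b (l 3) (b (a (l 3) (b (l 3) (a (l 3) (a (b (l 3) (l 299204802263)) (b (a (l 3) (l 280414342631)) (a (l 264845023511) (l 231559027399))))))) (a (b (l 3) (a (l 3) (b (l 3) (a (l 3) (b (l 283098661959) (a (l 268066273239) (l 16729464))))))) (b (a (b (a (l 3) (l 315847824231)) (a (l 3) (a (l 289541150487) (l 261086925319)))) (b (a (a (l 279877418823) (l 246591415847)) (l 16718064)) (a (b (l 16755344) (l 16751304)) (l 16736632)))) (a (b (a (b (l 275045637287) (l 279340532023)) (a (l 16707928) (l 16745984)))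 (a (b (l 270213703639) (l 16738040)) (l 16727544))) (b (a (l 16733504) (l 16705408)) (l 16687096))))))), by decide +kernel⟩

def k1_pm_213_a : ∃ t, chk3 f_pm_213_a t 3 4 1 = true :=
  ⟨(a (b (l 3) (a (l 3) (b (a (l 3) (b (l 3) (a (l 3) (b (l 3) (l 331417002791))))) (a (b (a (l 3) (l 376514206311)) (a (b (l 3) (l 294909863607)) (b (l 227264060519) (l 16748880)))) (b (a (b (l 344838853575) (l 221895354775)) (b (l 200420524135) (l 16752488))) (a (l 16731808) (l 16753400))))))) (a (b (b (l 3) (a (l 3) (b (a (l 3) (b (l 3) (a (l 3) (l 444159942487)))) (a (b (l 3) (a (l 426980108215) (b (l 398525960487) (l 253033904295)))) (b (a (b (l 3) (l 377051088919)) (b (l 282561809479) (l 16755440))) (a (l 217600429559) (l 16765360))))))) (b (a (b (a (l 3) (b (a (l 3) (l 386714773431)) (a (l 348596922887) (l 16730072)))) (a (b (a (l 365239953943) (l 249812659655)) (l 196662435943)) (b (l 16731288) (l 16758424)))) (b (a (b (a (l 251960151143) (l 16753040)) (l 16744496))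 (l 16705728)) (a (l 16742648) (l 16718816)))) (a (b (a (l 16738696) (l 16738432)) (l 16720904)) (b (l 16683176) (l 16680920))))) (b (a (a (b (l 3) (b (b (a (l 3) (a (l 441475599207) (l 6))) (a (b (l 424832603095) (l 281488075367)) (b (l 264845077447) (l 16766320)))) (b (a (l 16747080) (l 16754624)) (l 16745008)))) (b (l 6) (b (l 6) (l 16683792)))) (b (l 6) (b (l 6) (a (l 16700208) (l 16678608))))) (a (b (b (a (l 16701880) (l 16697112)) (l 16640408)) (b (l 16657368) (l 16635192))) (b (a (l 16639216) (l 16639200)) (a (l 16612512) (l 16595304))))))), by decide +kernel⟩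

def k2_pm_213_a : ∃ t, chk3 f_pm_213_a t 3 5 1 = true :=
  ⟨(a (b (a (b (a (b (l 3) (a (l 3) (l 264308155463))) (b (a (l 295983573863) (b (l 293299246967) (l 16720384))) (b (l 216526626359) (l 16730736)))) (a (b (a (l 251960116167) (l 16724528)) (l 16741920)) (b (l 16737360) (l 16729328)))) (b (a (b (a (l 203641737687) (l 16766760)) (l 16748720)) (b (l 16735320) (l 16704232))) (a (l 16701888) (l 16650936)))) (a (b (b (l 16688144) (l 16684032)) (b (l 16648832) (l 16613432))) (b (a (l 16630544) (l 16569776)) (a (l 16551912) (l 16478784))))) (b (a (b (a (l 16652416) (l 16648648)) (a (l 16595240) (l 16553736))) (b (a (l 16615216) (b (l 16593712) (l 16622624))) (a (l 16599240) (l 16680632)))) (a (b (a (l 16499304) (l 16432456)) (a (l 16391568) (l 16296912))) (b (l 16420536) (l 16280760))))), by decide +kernel⟩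

def k3_pm_213_a : ∃ t, chk3 f_pm_213_a t 2 6 1 = true :=
  ⟨(b (a (b (a (b (l 3) (a (l 3) (b (a (l 3) (l 269140015863)) (a (b (l 247665234375) (l 279340570967)) (b (l 16729824) (l 16745904)))))) (b (a (a (b (l 3) (l 268066273367)) (b (l 268066272599) (l 275582433143))) (b (a (l 16718656) (l 16740032)) (l 16732296))) (a (b (a (l 277729913895) (l 16736272)) (l 16726888)) (l 16707296)))) (a (b (a (b (a (l 3) (b (l 283635588583) (l 282024925879))) (a (b (l 278803753703) (a (l 270750663495) (l 280414315671))) (b (l 283635515703) (l 16723864)))) (b (a (b (l 280414292183) (l 16745400)) (l 16711704)) (a (l 16709888) (l 16712232)))) (a (b (a (b (a (l 283098669975) (l 16749552)) (l 16723224)) (l 16708008)) (l 16653088)) (b (l 16677656) (l 16672496)))) (b (c (l 16671376) (l 16689072)) (c (l 16593448) (l 16639120))))) (b (a (b (a (l 16717872) (l 16695392)) (l 16669504)) (b (l 16651272) (a (l 16629640) (l 16599800)))) (a (b (l 16599968) (a (l 16574112) (l 16553624)))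 (b (a (l 16590720) (l 16576440)) (l 16345896))))) (a (b (a (b (c (l 16705192) (l 16743672)) (a (l 16566072) (l 16553992))) (b (l 16496664) (a (l 16502352) (l 16411600)))) (a (b (l 16391712) (a (l 16430808) (b (l 16404544) (l 16402008)))) (b (a (b (l 16439608) (l 16424040)) (l 16439008)) (a (l 16433376) (l 16614448))))) (b (a (b (a (l 16513016) (l 16530352)) (a (l 16480064) (l 16592136))) (l 16356136)) (a (b (l 16590400) (l 16540232)) (l 16212656))))), by decide +kernel⟩

def k4_pm_213_a : ∃ t, chk3 f_pm_213_a t 3 6 1 = true :=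
  ⟨(b (a (b (a (b (a (l 16598480) (l 16554760)) (l 16506728)) (l 16252248)) (a (l 16496760) (l 16310248))) (a (b (a (l 16273216) (l 16156256)) (a (l 16132096) (l 15997424))) (b (a (l 16032344) (l 15911552)) (a (l 15851472) (l 15692888))))) (a (b (a (l 16377088) (l 16143400)) (a (l 15994088) (b (l 15962424) (l 15831792)))) (b (a (a (l 15941320) (l 15788096)) (b (l 15613592) (l 15508784))) (a (b (l 15703160) (l 15625240)) (l 15496504))))), by decide +kernel⟩

def k5_pm_213_a : ∃ t, chk3 f_pm_213_a t 1 7 1 = true :=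
  ⟨(a (a (b (b (a (b (a (b (l 16377392) (l 16375240)) (l 16426864)) (a (l 16488080) (l 16624000))) (b (l 16602600) (l 16518272))) (b (a (l 16578752) (l 16364360)) (a (l 16428584) (l 16139104)))) (l 1)) (b (b (a (b (l 16440256) (l 16286424)) (b (l 16194792) (l 16004032))) (b (a (l 16078456) (a (l 15873848) (l 15832840))) (a (a (l 15898728) (l 15849184)) (l 15863112)))) (b (b (a (l 1) (l 15932000)) (l 1)) (l 1)))) (b (a (b (a (b (l 15924984) (l 15825960)) (b (l 15752728) (l 15740928))) (a (l 15842792) (l 15773048))) (b (a (l 15589072) (b (l 15322096) (l 15308456))) (a (b (l 15599064) (l 15636352)) (b (l 15323712) (l 15364112))))) (a (b (b (a (l 15921264) (l 15855472)) (a (l 15996736) (l 15890384))) (l 1)) (a (b (b (l 15683296) (l 15701824)) (b (l 15698784) (l 1))) (b (b (l 15389512) (l 15409664)) (b (a (l 15503472) (l 15325584)) (a (l 15482296) (l 15275976)))))))), by decide +kernel⟩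

theorem s6_pm_213_a : ∃ t, chk3 f_pm_213_a t 1 6 1 = true := ex3_a k3_pm_213_a k4_pm_213_a

theorem s7_pm_213_a : ∃ t, chk3 f_pm_213_a t 1 3 1 = true := ex3_b s6_pm_213_a k5_pm_213_a

theorem s8_pm_213_a : ∃ t, chk3 f_pm_213_a t 3 2 1 = true := ex3_b k1_pm_213_a k2_pm_213_a

theorem s9_pm_213_a : ∃ t, chk3 f_pm_213_a t 1 2 1 = true := ex3_a k0_pm_213_a s8_pm_213_a

theorem s10_pm_213_a : ∃ t, chk3 f_pm_213_a t 1 1 1 = true := ex3_b s9_pm_213_a s7_pm_213_a

theorem c_pm_213_a : CertB 0 536870912 0 1230186008 991146299 28908434 3 eng mog cd1q2a cd5q3 pd1 false true false .pnn 2 1 3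
    ndB1q2a ndB5q3 pcB1 cut_pm_213_a Ext.none :=
  certB0 (fam := false) (s1 := true) (s2 := false) (a := 2) (b := 1) (c := 3) (cn := .pnn) (n1 := ndB1q2a) (n2 := ndB5q3) (pc := pcB1) (cut := cut_pm_213_a) (xt := Ext.none) (P1 := 0) (W1 := 536870912) (P2 := 0) (W2 := 1230186008) (P3 := 991146299) (W3 := 28908434) (N0 := 3) (En := eng) (mo := mog) (C1 := cd1q2a) (C2 := cd5q3) (C3 := pd1)
    rfl s10_pm_213_a

noncomputable def cut_pm_213_b : Cut := Cut.of [[⟨0, 1, 0, 37748736⟩, ⟨1, 1, 0, 37748736⟩, ⟨2, 2, 0, 5242880⟩]]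

noncomputable def f_pm_213_b : ℕ → ℕ → ℕ → ℕ → Bool := onCell 1239849684 370763052 0 1230186008 991146299 28908434
    (rowB 3 eng mog cd1q2b cd5q3 pd1 0 false true false .pnn 2 1 3 (qsf 1239849684 370763052 0 1230186008 1) ndB1q2b ndB5q3 pcB1 cut_pm_213_b Ext.none)

def k0_pm_213_b : ∃ t, chk3 f_pm_213_b t 1 1 1 = true :=
  ⟨(b (l 3) (b (a (b (a (b (l 3) (a (b (l 3) (a (b (a (b (a (l 249275814855) (l 16757080)) (l 16731672)) (l 233706503079)) (a (l 16715304) (l 16712392))) (c (l 227800881463) (l 232632727927)))) (l 3))) (l 3)) (a (b (a (b (a (c (l 16626576) (l 16636328)) (b (l 16683696) (l 16673160))) (a (l 16564952) (l 16596848))) (b (a (b (l 16696960) (l 16672936)) (l 16630928)) (a (l 16613992) (l 16614968)))) (a (b (a (l 16547168) (l 16531648)) (a (l 16452072) (l 16431584))) (b (l 16413896) (l 16368928)))) (b (b (l 3) (a (a (l 16613048) (l 16603944)) (l 16552080))) (a (b (l 16474464) (l 16398024)) (l 1))))) (b (l 3) (l 1))) (a (b (a (a (b (b (a (l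 16266416) (l 16318728)) (b (a (l 16355280) (l 16279512)) (l 16399872))) (b (l 16412880) (l 16575088))) (b (b (l 16292200) (b (l 16219288) (l 16274448))) (l 1))) (l 1)) (l 1)) (l 1)))), by decide +kernel⟩

theorem c_pm_213_b : CertB 1239849684 370763052 0 1230186008 991146299 28908434 3 eng mog cd1q2b cd5q3 pd1 false true false .pnn 2 1 3
    ndB1q2b ndB5q3 pcB1 cut_pm_213_b Ext.none :=
  certB0 (fam := false) (s1 := true) (s2 := false) (a := 2) (b := 1) (c := 3) (cn := .pnn) (n1 := ndB1q2b) (n2 := ndB5q3) (pc := pcB1) (cut := cut_pm_213_b) (xt := Ext.none) (P1 := 1239849684) (W1 := 370763052) (P2 := 0) (W2 := 1230186008) (P3 := 991146299) (W3 := 28908434) (N0 := 3) (En := eng) (mo := mog) (C1 := cd1q2b) (C2 := cd5q3) (C3 := pd1)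
    rfl k0_pm_213_b

noncomputable def f_pm_303 : ℕ → ℕ → ℕ → ℕ → Bool := onCell 0 536870912 0 1230186008 991146299 28908434
    (rowB 3 eng mog cd1q3 cd5q3 pd0 2 false true false .npn 3 0 3 (qsf 1610612736 536870912 0 1230186008 0) ndB1q3 ndB5q3 pcB0 Cut.none Ext.none)

def k0_pm_303 : ∃ t, chk3 f_pm_303 t 1 1 1 = true :=
  ⟨(b (l 3) (a (b (l 3) (b (a (b (b (l 3) (a (a (l 15101152) (l 15266872)) (l 154246660359))) (a (a (b (a (l 15082264) (l 15156000)) (l 15110472)) (a (b (a (l 15202584) (l 15243224)) (l 15385464)) (b (l 15300736) (l 15424080)))) (a (a (b (l 15375952) (l 15456480)) (b (l 15455440) (l 15512224))) (b (l 15574920) (l 15523056))))) (a (b (a (l 15715680) (l 15843136)) (b (a (l 15724360) (l 15876896)) (a (l 15782400) (l 15928896)))) (b (c (l 16029664) (l 15923192)) (l 1)))) (a (b (a (a (b (l 15207416) (l 15529944)) (a (a (l 15584056) (l 15693328)) (l 15714232))) (a (a (l 15732704) (l 15766304)) (l 15843784))) (a (a (l 15769832) (a (l 15958680)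 (l 16013456))) (a (a (l 16036888) (l 1)) (l 1)))) (b (a (b (b (l 15909016) (l 1)) (l 1)) (l 1)) (l 1))))) (b (b (l 3) (a (b (l 3) (a (a (l 3) (l 192903190999)) (l 1))) (l 1))) (l 1)))), by decide +kernel⟩

theorem c_pm_303 : CertB 1610612736 536870912 0 1230186008 991146299 28908434 3 eng mog cd1q3 cd5q3 pd0 false true false .npn 3 0 3
    ndB1q3 ndB5q3 pcB0 Cut.none Ext.none :=
  certB2 (fam := false) (s1 := true) (s2 := false) (a := 3) (b := 0) (c := 3) (cn := .npn) (n1 := ndB1q3) (n2 := ndB5q3) (pc := pcB0) (cut := Cut.none) (xt := Ext.none) (P1 := 1610612736) (W1 := 536870912) (P2 := 0) (W2 := 1230186008) (P3 := 991146299) (W3 := 28908434) (N0 := 3) (En := eng) (mo := mog) (C1 := cd1q3) (C2 := cd5q3) (C3 := pd0)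
    rfl (fun _ => rfl) k0_pm_303

noncomputable def f_pm_313 : ℕ → ℕ → ℕ → ℕ → Bool := onCell 1610612736 536870912 0 1230186008 991146299 28908434
    (rowB 3 eng mog cd1q3 cd5q3 pd1 0 false true false .dn 3 1 3 (qsf 1610612736 536870912 0 1230186008 1) ndB1q3 ndB5q3 pcB1 Cut.none Ext.none)

def k0_pm_313 : ∃ t, chk3 f_pm_313 t 1 1 1 = true :=
  ⟨(b (l 3) (l 1)), by decide +kernel⟩

theorem c_pm_313 : CertB 1610612736 536870912 0 1230186008 991146299 28908434 3 eng mog cd1q3 cd5q3 pd1 false true false .dn 3 1 3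
    ndB1q3 ndB5q3 pcB1 Cut.none Ext.none :=
  certB0 (fam := false) (s1 := true) (s2 := false) (a := 3) (b := 1) (c := 3) (cn := .dn) (n1 := ndB1q3) (n2 := ndB5q3) (pc := pcB1) (cut := Cut.none) (xt := Ext.none) (P1 := 1610612736) (W1 := 536870912) (P2 := 0) (W2 := 1230186008) (P3 := 991146299) (W3 := 28908434) (N0 := 3) (En := eng) (mo := mog) (C1 := cd1q3) (C2 := cd5q3) (C3 := pd1)
    rfl k0_pm_313

noncomputable def f_mm_001 : ℕ → ℕ → ℕ → ℕ → Bool := onCell 0 536870912 0 536870912 991146299 28908434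
    (rowB 3 eng mog cd1q0 cd5q1 pd0 1 false false false .up 0 0 1 (qsf 0 536870912 536870912 536870912 0) ndB1q0 ndB5q1 pcB0 Cut.none Ext.none)

def k0_mm_001 : ∃ t, chk3 f_mm_001 t 1 1 1 = true :=
  ⟨(l 3), by decide +kernel⟩

theorem c_mm_001 : CertB 0 536870912 536870912 536870912 991146299 28908434 3 eng mog cd1q0 cd5q1 pd0 false false false .up 0 0 1
    ndB1q0 ndB5q1 pcB0 Cut.none Ext.none :=
  certB1 (fam := false) (s1 := false) (s2 := false) (a := 0) (b := 0) (c := 1) (cn := .up) (n1 := ndB1q0) (n2 := ndB5q1) (pc := pcB0) (cut := Cut.none) (xt := Ext.none) (P1 := 0) (W1 := 536870912) (P2 := 536870912) (W2 := 536870912) (P3 := 991146299) (W3 := 28908434) (N0 := 3) (En := eng) (mo := mog) (C1 := cd1q0) (C2 := cd5q1) (C3 := pd0)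
    rfl (fun _ => rfl) k0_mm_001

noncomputable def f_mm_011 : ℕ → ℕ → ℕ → ℕ → Bool := onCell 0 536870912 536870912 536870912 991146299 28908434
    (rowB 3 eng mog cd1q0 cd5q1 pd1 1 false false false .pnn 0 1 1 (qsf 0 536870912 536870912 536870912 1) ndB1q0 ndB5q1 pcB1 Cut.none Ext.none)

def k0_mm_011 : ∃ t, chk3 f_mm_011 t 1 1 1 = true :=
  ⟨(l 5), by decide +kernel⟩

theorem c_mm_011 : CertB 0 536870912 536870912 536870912 991146299 28908434 3 eng mog cd1q0 cd5q1 pd1 false false false .pnn 0 1 1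
    ndB1q0 ndB5q1 pcB1 Cut.none Ext.none :=
  certB1 (fam := false) (s1 := false) (s2 := false) (a := 0) (b := 1) (c := 1) (cn := .pnn) (n1 := ndB1q0) (n2 := ndB5q1) (pc := pcB1) (cut := Cut.none) (xt := Ext.none) (P1 := 0) (W1 := 536870912) (P2 := 536870912) (W2 := 536870912) (P3 := 991146299) (W3 := 28908434) (N0 := 3) (En := eng) (mo := mog) (C1 := cd1q0) (C2 := cd5q1) (C3 := pd1)
    rfl (fun _ => rfl) k0_mm_011

noncomputable def f_mm_012 : ℕ → ℕ → ℕ → ℕ → Bool := onCell 0 536870912 1073741824 536870912 991146299 28908434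
    (rowB 3 eng mog cd1q0 cd5q2 pd1 0 false false false .pnp 0 1 2 (qsf 0 536870912 1073741824 536870912 1) ndB1q0 ndB5q2 pcB1 Cut.none Ext.none)

def k0_mm_012 : ∃ t, chk3 f_mm_012 t 1 1 1 = true :=
  ⟨(l 5), by decide +kernel⟩

theorem c_mm_012 : CertB 0 536870912 1073741824 536870912 991146299 28908434 3 eng mog cd1q0 cd5q2 pd1 false false false .pnp 0 1 2
    ndB1q0 ndB5q2 pcB1 Cut.none Ext.none :=
  certB0 (fam := false) (s1 := false) (s2 := false) (a := 0) (b := 1) (c := 2) (cn := .pnp) (n1 := ndB1q0) (n2 := ndB5q2) (pc := pcB1) (cut := Cut.none) (xt := Ext.none) (P1 := 0) (W1 := 536870912) (P2 := 1073741824) (W2 := 536870912) (P3 := 991146299) (W3 := 28908434) (N0 := 3) (En := eng) (mo := mog) (C1 := cd1q0) (C2 := cd5q2) (C3 := pd1)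
    rfl k0_mm_012

noncomputable def f_mm_022 : ℕ → ℕ → ℕ → ℕ → Bool := onCell 0 536870912 1073741824 536870912 991146299 28908434
    (rowB 3 eng mog cd1q0 cd5q2 pd2 0 false false false .pp 0 2 2 (qsf 0 536870912 1073741824 536870912 2) ndB1q0 ndB5q2 pcB2 Cut.none Ext.none)

def k0_mm_022 : ∃ t, chk3 f_mm_022 t 1 1 1 = true :=
  ⟨(l 5), by decide +kernel⟩

theorem c_mm_022 : CertB 0 536870912 1073741824 536870912 991146299 28908434 3 eng mog cd1q0 cd5q2 pd2 false false false .pp 0 2 2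
    ndB1q0 ndB5q2 pcB2 Cut.none Ext.none :=
  certB0 (fam := false) (s1 := false) (s2 := false) (a := 0) (b := 2) (c := 2) (cn := .pp) (n1 := ndB1q0) (n2 := ndB5q2) (pc := pcB2) (cut := Cut.none) (xt := Ext.none) (P1 := 0) (W1 := 536870912) (P2 := 1073741824) (W2 := 536870912) (P3 := 991146299) (W3 := 28908434) (N0 := 3) (En := eng) (mo := mog) (C1 := cd1q0) (C2 := cd5q2) (C3 := pd2)
    rfl k0_mm_022

noncomputable def f_mm_023 : ℕ → ℕ → ℕ → ℕ → Bool := onCell 0 536870912 0 1230186008 991146299 28908434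
    (rowB 3 eng mog cd1q0 cd5q3 pd2 0 false false false .up 0 2 3 (qsf 0 536870912 0 1230186008 2) ndB1q0 ndB5q3 pcB2 Cut.none Ext.none)

def k0_mm_023 : ∃ t, chk3 f_mm_023 t 1 1 1 = true :=
  ⟨(l 5), by decide +kernel⟩

theorem c_mm_023 : CertB 0 536870912 0 1230186008 991146299 28908434 3 eng mog cd1q0 cd5q3 pd2 false false false .up 0 2 3
    ndB1q0 ndB5q3 pcB2 Cut.none Ext.none :=
  certB0 (fam := false) (s1 := false) (s2 := false) (a := 0) (b := 2) (c := 3) (cn := .up) (n1 := ndB1q0) (n2 := ndB5q3) (pc := pcB2) (cut := Cut.none) (xt := Ext.none) (P1 := 0) (W1 := 536870912) (P2 := 0) (W2 := 1230186008) (P3 := 991146299) (W3 := 28908434) (N0 := 3) (En := eng) (mo := mog) (C1 := cd1q0) (C2 := cd5q3) (C3 := pd2)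
    rfl k0_mm_023

noncomputable def f_mm_033 : ℕ → ℕ → ℕ → ℕ → Bool := onCell 0 536870912 0 1230186008 991146299 28908434
    (rowB 3 eng mog cd1q0 cd5q3 pd3 0 false false false .pnn 0 3 3 (qsf 0 536870912 0 1230186008 3) ndB1q0 ndB5q3 pcB3 Cut.none Ext.none)

def k0_mm_033 : ∃ t, chk3 f_mm_033 t 1 1 1 = true :=
  ⟨(l 5), by decide +kernel⟩

theorem c_mm_033 : CertB 0 536870912 0 1230186008 991146299 28908434 3 eng mog cd1q0 cd5q3 pd3 false false false .pnn 0 3 3
    ndB1q0 ndB5q3 pcB3 Cut.none Ext.none :=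
  certB0 (fam := false) (s1 := false) (s2 := false) (a := 0) (b := 3) (c := 3) (cn := .pnn) (n1 := ndB1q0) (n2 := ndB5q3) (pc := pcB3) (cut := Cut.none) (xt := Ext.none) (P1 := 0) (W1 := 536870912) (P2 := 0) (W2 := 1230186008) (P3 := 991146299) (W3 := 28908434) (N0 := 3) (En := eng) (mo := mog) (C1 := cd1q0) (C2 := cd5q3) (C3 := pd3)
    rfl k0_mm_033

noncomputable def f_mm_101 : ℕ → ℕ → ℕ → ℕ → Bool := onCell 536870912 536870912 0 536870912 991146299 28908434
    (rowB 3 eng mog cd1q1 cd5q1 pd0 1 false false false .npn 1 0 1 (qsf 536870912 536870912 536870912 536870912 0) ndB1q1 ndB5q1 pcB0 Cut.none Ext.none)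

def k0_mm_101 : ∃ t, chk3 f_mm_101 t 1 1 1 = true :=
  ⟨(l 3), by decide +kernel⟩

theorem c_mm_101 : CertB 536870912 536870912 536870912 536870912 991146299 28908434 3 eng mog cd1q1 cd5q1 pd0 false false false .npn 1 0 1
    ndB1q1 ndB5q1 pcB0 Cut.none Ext.none :=
  certB1 (fam := false) (s1 := false) (s2 := false) (a := 1) (b := 0) (c := 1) (cn := .npn) (n1 := ndB1q1) (n2 := ndB5q1) (pc := pcB0) (cut := Cut.none) (xt := Ext.none) (P1 := 536870912) (W1 := 536870912) (P2 := 536870912) (W2 := 536870912) (P3 := 991146299) (W3 := 28908434) (N0 := 3) (En := eng) (mo := mog) (C1 := cd1q1) (C2 := cd5q1) (C3 := pd0)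
    rfl (fun _ => rfl) k0_mm_101

noncomputable def f_mm_102 : ℕ → ℕ → ℕ → ℕ → Bool := onCell 536870912 536870912 1073741824 536870912 991146299 28908434
    (rowB 3 eng mog cd1q1 cd5q2 pd0 0 false false false .npp 1 0 2 (qsf 536870912 536870912 1073741824 536870912 0) ndB1q1 ndB5q2 pcB0 Cut.none Ext.none)

def k0_mm_102 : ∃ t, chk3 f_mm_102 t 1 1 1 = true :=
  ⟨(l 3), by decide +kernel⟩

theorem c_mm_102 : CertB 536870912 536870912 1073741824 536870912 991146299 28908434 3 eng mog cd1q1 cd5q2 pd0 false false false .npp 1 0 2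
    ndB1q1 ndB5q2 pcB0 Cut.none Ext.none :=
  certB0 (fam := false) (s1 := false) (s2 := false) (a := 1) (b := 0) (c := 2) (cn := .npp) (n1 := ndB1q1) (n2 := ndB5q2) (pc := pcB0) (cut := Cut.none) (xt := Ext.none) (P1 := 536870912) (W1 := 536870912) (P2 := 1073741824) (W2 := 536870912) (P3 := 991146299) (W3 := 28908434) (N0 := 3) (En := eng) (mo := mog) (C1 := cd1q1) (C2 := cd5q2) (C3 := pd0)
    rfl k0_mm_102

noncomputable def f_mm_112 : ℕ → ℕ → ℕ → ℕ → Bool := onCell 536870912 536870912 1073741824 536870912 991146299 28908434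
    (rowB 3 eng mog cd1q1 cd5q2 pd1 0 false false false .dn 1 1 2 (qsf 536870912 536870912 1073741824 536870912 1) ndB1q1 ndB5q2 pcB1 Cut.none Ext.none)

def k0_mm_112 : ∃ t, chk3 f_mm_112 t 1 1 1 = true :=
  ⟨(l 3), by decide +kernel⟩

theorem c_mm_112 : CertB 536870912 536870912 1073741824 536870912 991146299 28908434 3 eng mog cd1q1 cd5q2 pd1 false false false .dn 1 1 2
    ndB1q1 ndB5q2 pcB1 Cut.none Ext.none :=
  certB0 (fam := false) (s1 := false) (s2 := false) (a := 1) (b := 1) (c := 2) (cn := .dn) (n1 := ndB1q1) (n2 := ndB5q2) (pc := pcB1) (cut := Cut.none) (xt := Ext.none) (P1 := 536870912) (W1 := 536870912) (P2 := 1073741824) (W2 := 536870912) (P3 := 991146299) (W3 := 28908434) (N0 := 3) (En := eng) (mo := mog) (C1 := cd1q1) (C2 := cd5q2) (C3 := pd1)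
    rfl k0_mm_112

noncomputable def f_mm_113 : ℕ → ℕ → ℕ → ℕ → Bool := onCell 536870912 536870912 0 1230186008 991146299 28908434
    (rowB 3 eng mog cd1q1 cd5q3 pd1 0 false false false .nn 1 1 3 (qsf 536870912 536870912 0 1230186008 1) ndB1q1 ndB5q3 pcB1 Cut.none Ext.none)

def k0_mm_113 : ∃ t, chk3 f_mm_113 t 1 1 1 = true :=
  ⟨(b (l 5) (b (l 5) (a (l 5) (l 3)))), by decide +kernel⟩

theorem c_mm_113 : CertB 536870912 536870912 0 1230186008 991146299 28908434 3 eng mog cd1q1 cd5q3 pd1 false false false .nn 1 1 3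
    ndB1q1 ndB5q3 pcB1 Cut.none Ext.none :=
  certB0 (fam := false) (s1 := false) (s2 := false) (a := 1) (b := 1) (c := 3) (cn := .nn) (n1 := ndB1q1) (n2 := ndB5q3) (pc := pcB1) (cut := Cut.none) (xt := Ext.none) (P1 := 536870912) (W1 := 536870912) (P2 := 0) (W2 := 1230186008) (P3 := 991146299) (W3 := 28908434) (N0 := 3) (En := eng) (mo := mog) (C1 := cd1q1) (C2 := cd5q3) (C3 := pd1)
    rfl k0_mm_113

noncomputable def f_mm_123 : ℕ → ℕ → ℕ → ℕ → Bool := onCell 1073741824 536870912 0 1230186008 991146299 28908434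
    (rowB 3 eng mog cd1q1 cd5q3 pd2 2 false false false .npn 1 2 3 (qsf 536870912 536870912 0 1230186008 2) ndB1q1 ndB5q3 pcB2 Cut.none Ext.none)

def k0_mm_123 : ∃ t, chk3 f_mm_123 t 1 1 1 = true :=
  ⟨(b (l 5) (l 5)), by decide +kernel⟩

theorem c_mm_123 : CertB 536870912 536870912 0 1230186008 991146299 28908434 3 eng mog cd1q1 cd5q3 pd2 false false false .npn 1 2 3
    ndB1q1 ndB5q3 pcB2 Cut.none Ext.none :=
  certB2 (fam := false) (s1 := false) (s2 := false) (a := 1) (b := 2) (c := 3) (cn := .npn) (n1 := ndB1q1) (n2 := ndB5q3) (pc := pcB2) (cut := Cut.none) (xt := Ext.none) (P1 := 536870912) (W1 := 536870912) (P2 := 0) (W2 := 1230186008) (P3 := 991146299) (W3 := 28908434) (N0 := 3) (En := eng) (mo := mog) (C1 := cd1q1) (C2 := cd5q3) (C3 := pd2)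
    rfl (fun _ => rfl) k0_mm_123

noncomputable def f_mm_133 : ℕ → ℕ → ℕ → ℕ → Bool := onCell 536870912 536870912 0 1230186008 991146299 28908434
    (rowB 3 eng mog cd1q1 cd5q3 pd3 0 false false false .dn 1 3 3 (qsf 536870912 536870912 0 1230186008 3) ndB1q1 ndB5q3 pcB3 Cut.none Ext.none)

def k0_mm_133 : ∃ t, chk3 f_mm_133 t 1 1 1 = true :=
  ⟨(b (l 5) (l 1)), by decide +kernel⟩

theorem c_mm_133 : CertB 536870912 536870912 0 1230186008 991146299 28908434 3 eng mog cd1q1 cd5q3 pd3 false false false .dn 1 3 3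
    ndB1q1 ndB5q3 pcB3 Cut.none Ext.none :=
  certB0 (fam := false) (s1 := false) (s2 := false) (a := 1) (b := 3) (c := 3) (cn := .dn) (n1 := ndB1q1) (n2 := ndB5q3) (pc := pcB3) (cut := Cut.none) (xt := Ext.none) (P1 := 536870912) (W1 := 536870912) (P2 := 0) (W2 := 1230186008) (P3 := 991146299) (W3 := 28908434) (N0 := 3) (En := eng) (mo := mog) (C1 := cd1q1) (C2 := cd5q3) (C3 := pd3)
    rfl k0_mm_133

noncomputable def cut_mm_202_a : Cut := Cut.of [[⟨0, 1, 0, 53687091⟩, ⟨1, 0, 0, 53687091⟩, ⟨2, 1, 0, 53687091⟩]]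

noncomputable def f_mm_202_a : ℕ → ℕ → ℕ → ℕ → Bool := onCell 0 536870912 0 536870912 991146299 28908434
    (rowB 3 eng mog cd1q2a cd5q2 pd0 1 false false false .pp 2 0 2 (qsf 0 536870912 1073741824 536870912 0) ndB1q2a ndB5q2 pcB0 cut_mm_202_a Ext.none)

def k0_mm_202_a : ∃ t, chk3 f_mm_202_a t 2 4 1 = true :=
  ⟨(b (a (b (b (l 16077632) (l 16104272)) (b (b (l 16114064) (l 16119240)) (b (l 16150248) (l 16185208)))) (a (b (b (l 16225464) (l 16237568)) (b (b (l 16235520) (a (l 16215488) (b (l 16249640) (l 16196384)))) (b (a (l 16245800) (l 16289080)) (c (l 16306176) (l 16315480))))) (b (b (l 16322416) (a (l 16302568) (b (l 16348544) (l 16347912)))) (b (b (a (l 16299920) (l 16345288)) (a (b (l 16292720) (l 16306632)) (l 16368496))) (b (l 16236872) (l 16433896)))))) (b (b (a (a (l 16196856) (c (l 16124016) (l 16246016))) (a (b (l 16143512) (l 16376840)) (b (l 16478144) (l 16517160)))) (a (a (b (l 16243664) (l 16264568)) (c (a (l 16301384) (l 16358200))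 (l 16219344))) (a (c (l 16454368) (l 16446072)) (a (l 16536264) (b (l 16581224) (l 16511360)))))) (a (a (b (l 16105400) (a (l 16300032) (l 16357120))) (c (l 16420624) (l 16412272))) (a (b (l 16503160) (a (l 16524872) (c (l 16580696) (l 16551064)))) (b (a (c (l 16576872) (l 16564328)) (c (l 16578056) (l 16597216))) (a (c (l 16580416) (l 16582632)) (l 16556816))))))), by decide +kernel⟩

def k1_mm_202_a : ∃ t, chk3 f_mm_202_a t 2 5 1 = true :=
  ⟨(b (b (a (a (c (l 16404232) (l 16390432)) (b (l 16487712) (a (l 16504432) (c (l 16583176) (l 16523208))))) (a (b (a (c (l 16591048) (l 16537376)) (l 16469552)) (c (l 16609088) (l 16568208))) (b (a (l 16620000) (c (l 16627640) (l 16632368))) (a (l 16630608) (c (l 16653256) (l 16647264)))))) (a (a (b (l 16462360) (a (l 16474976) (c (l 16560088) (l 16493624)))) (b (c (a (l 16572272) (l 16599576)) (l 16437488)) (c (l 16595568) (l 16539696)))) (a (b (c (l 16624592) (l 16586200)) (a (l 16605272) (c (l 16640168) (l 16620656))))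 (a (b (c (l 16651960) (l 16633936)) (c (l 16661328) (l 16647120))) (b (c (l 16673144) (l 16660736)) (l 16683920)))))) (a (b (a (c (b (a (l 16546064) (l 16576784)) (l 16571752)) (b (l 16491512) (l 16508576))) (c (l 16605624) (l 16545872))) (a (c (l 16584256) (l 16538016)) (b (a (l 16592992) (l 16618928)) (a (l 16606848) (l 16631528))))) (a (b (b (a (l 16617792) (c (l 16648608) (l 16634856))) (a (c (l 16636904) (l 16623424)) (l 16657608))) (b (a (l 16643888) (l 16674584)) (a (l 16661992) (l 16693072)))) (a (b (b (l 16670544) (l 16687496)) (b (l 16706064) (a (l 16710840) (l 253570658007)))) (b (b (l 16676632) (a (l 16703024) (l 244443834999))) (b (a (l 240685747367) (l 291688492231)) (a (l 286319792951) (l 3)))))))), by decide +kernel⟩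

def k2_mm_202_a : ∃ t, chk3 f_mm_202_a t 2 3 1 = true :=
  ⟨(a (b (b (a (b (b (l 16580584) (a (l 16580784) (l 16587840))) (c (a (l 16608192) (l 16633424)) (b (l 16563984) (l 16601784)))) (b (a (b (l 16620240) (l 16635728)) (l 16658448)) (b (l 16671392) (a (l 16675224) (l 16708192))))) (b (a (b (a (l 16626520) (l 16662144)) (l 16665312)) (a (b (l 16695776) (l 16716784)) (b (a (l 16720816) (l 244443894151)) (a (b (l 16735096) (l 250349493703)) (l 299741636919))))) (b (a (l 364635741863) (a (b (l 16711600) (l 2)) (b (l 299741660151) (l 3)))) (l 2)))) (l 2)) (b (b (b (a (b (a (l 16680480) (l 16712784)) (a (l 16700128) (a (l 16718592) (l 264844964439)))) (a (b (a (l 253570666135) (l 280414222999)) (l 3)) (l 3))) (a (a (b (a (l 16712352) (l 16722544)) (a (l 243907019671) (l 290614807479))) (b (a (l 286856699671) (l 3)) (l 3))) (l 3))) (b (a (a (b (a (l 294909786791) (l 3)) (l 3)) (l 3)) (l 3)) (l 3))) (l 3))), by decide +kernel⟩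

def k3_mm_202_a : ∃ t, chk3 f_mm_202_a t 6 4 1 = true :=
  ⟨(b (b (a (a (b (l 16398000) (b (l 16396256) (l 16398680))) (b (b (l 16451352) (l 16445048)) (l 16391104))) (b (b (a (l 16450008) (l 16534984)) (a (l 16494456) (l 16542520))) (a (b (l 16505016) (l 16525240)) (b (l 16542000) (l 16591840))))) (b (a (b (l 16363368) (a (l 16439856) (l 16513928))) (b (a (l 16553832) (a (l 16609832) (l 16648160))) (a (l 16570592) (b (a (l 16640992) (l 16640352)) (a (l 16633040) (a (l 16633064) (l 16641704))))))) (b (a (a (l 16488728) (l 16561800)) (a (a (l 16619088) (l 16583632)) (a (l 16544048) (l 16645704)))) (a (a (l 16535400) (l 16564512)) (a (c (l 16603424) (l 16633608)) (c (l 16638200) (l 16657024))))))) (b (b (b (a (a (l 16576328) (c (l 16589584) (l 16620824))) (a (l 16601408) (a (l 16648216) (a (l 16661112) (l 16670784))))) (a (a (l 16542496) (c (l 16585208) (l 16624168))) (a (l 16591224) (a (l 16636248) (l 16655152))))) (b (a (a (c (l 16470032) (l 16609008))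 (l 16613872)) (c (a (l 16634344) (l 16672664)) (a (l 16650224) (l 16681624)))) (a (a (l 16600728) (l 16624576)) (a (a (l 16644144) (l 16660384)) (a (l 16676376) (l 16693616)))))) (a (b (a (c (l 16599784) (l 16631000)) (b (l 16550072) (c (l 16637440) (l 16650216)))) (a (c (l 16626688) (l 16645576)) (b (c (l 16650088) (l 16659704)) (l 16664456)))) (a (b (b (a (l 16654576) (l 16669376)) (l 16671416)) (c (l 16701600) (l 16689448))) (b (a (c (l 16664464) (l 16694344)) (b (l 16681024) (c (l 16684528) (l 16715024)))) (a (b (l 16680936) (l 281487929975)) (b (a (l 291151626263) (l 350207446215)) (l 366850441943)))))))), by decide +kernel⟩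

def k4_mm_202_a : ∃ t, chk3 f_mm_202_a t 6 5 1 = true :=
  ⟨(b (a (b (a (b (c (l 16652448) (l 16661152)) (l 16673672)) (b (l 16635184) (b (l 16688432) (l 16652904)))) (a (b (l 16645608) (c (l 16694896) (l 235853869799))) (b (a (c (l 16694680) (l 16702904)) (b (l 264308058983) (l 313163322919))) (a (b (l 298667801607) (l 311015844359)) (l 3))))) (b (a (b (a (c (l 16689672) (l 16698848)) (b (l 16681976) (l 319068896023))) (a (b (l 16672768) (l 316384544743)) (b (l 331953814823) (l 3)))) (b (a (b (l 335711908327) (l 3)) (l 3)) (l 3))) (a (b (a (l 330880070583) (l 3)) (l 3)) (l 3)))) (a (b (a (b (c (l 266455560423) (l 278803577783)) (a (l 295446580007) (l 3))) (l 3)) (l 3)) (l 3))), by decide +kernel⟩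

def k5_mm_202_a : ∃ t, chk3 f_mm_202_a t 14 8 1 = true :=
  ⟨(b (b (a (b (a (l 16566584) (l 16589304)) (l 16530784)) (b (a (l 16593064) (b (l 16636768) (l 16646016))) (a (l 16594168) (b (l 16659112) (l 16675856))))) (a (b (a (l 16587032) (l 16639120)) (a (l 16643448) (b (l 16668272) (l 16609168)))) (a (b (b (l 16662088) (l 16682472)) (b (a (l 16683816) (l 16690120)) (l 16646560))) (b (a (b (l 16687344) (l 16699760)) (b (l 16683784) (l 16709360))) (b (l 16687800) (a (l 16707912) (l 16720096))))))) (b (a (a (b (b (l 16660248) (l 16610800)) (b (l 16652840) (l 16658456))) (b (b (l 16606368) (l 16671520)) (c (l 16673528) (l 16685568)))) (c (b (a (l 16690352) (b (l 16715488) (l 16719192))) (a (b (l 16697184) (l 16701272)) (a (l 16716608) (l 16726768)))) (b (a (l 16700552) (b (l 16717192) (l 16721984))) (a (b (l 16705624) (l 16708888)) (a (l 16723648) (l 16733512)))))) (a (a (b (l 16645632) (c (l 16650056) (l 16680616))) (b (c (l 16683200) (l 16692088)) (c (l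 16671168) (l 16699896)))) (c (a (b (l 16705312) (l 16690784)) (b (a (l 16699736) (a (l 16707784) (l 16718744))) (a (l 239612061559) (l 244980792567)))) (a (b (l 16712680) (l 16719248)) (b (a (l 16727776) (l 249812632583)) (a (l 16714320) (l 310479059799)))))))), by decide +kernel⟩

def k6_mm_202_a : ∃ t, chk3 f_mm_202_a t 14 9 1 = true :=
  ⟨(b (a (b (b (a (c (l 16681608) (l 16689760)) (l 16672704)) (a (l 16694288) (b (l 16690304) (l 16684368)))) (a (b (l 16661272) (c (l 16686096) (l 16716192))) (b (a (l 16696360) (l 296520363479)) (a (l 300278456871) (l 3))))) (b (a (b (a (l 16698024) (c (l 236390829383) (l 316921482711))) (a (c (l 295983499463) (l 313700257287)) (l 350207479607))) (b (a (b (l 310479039239) (l 3)) (l 3)) (l 3))) (a (b (a (l 385104089031) (l 3)) (l 3)) (l 3)))) (a (a (b (b (a (l 16694016) (l 301352195959)) (l 311015873543)) (l 3)) (l 3)) (l 3))), by decide +kernel⟩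

def k7_mm_202_a : ∃ t, chk3 f_mm_202_a t 15 4 1 = true :=
  ⟨(b (b (b (a (a (b (l 6) (b (l 16691344) (a (l 16701352) (l 6)))) (l 6)) (l 6)) (a (a (a (b (b (b (l 16716408) (l 16717472)) (l 16722056)) (b (l 16723072) (l 16726320))) (b (b (l 16725880) (b (l 16726864) (l 16727240))) (b (c (l 16732912) (l 16726344)) (l 16735568)))) (a (b (b (l 6) (b (c (l 16735736) (l 16730136)) (l 16713832))) (a (b (l 16736944) (l 16743584)) (b (l 16742672) (l 16733376)))) (b (l 6) (b (a (c (l 16751256) (l 16724800)) (l 6)) (a (b (l 16742776) (l 293836095655)) (b (l 306721004039) (l 319605912247))))))) (b (l 6) (b (l 6) (l 3))))) (a (b (a (b (a (a (l 16733448) (l 16717128)) (b (l 16721200) (b (l 16725928) (l 16733288)))) (a (b (l 16718584) (a (l 16717960) (l 16730000))) (b (a (l 16731664) (l 284709278135)) (c (l 266992532487) (l 290077996487))))) (b (a (b (a (l 16728904) (c (l 16745672) (l 16741256))) (c (l 276656220727) (l 305110378343))) (b (a (c (l 262160725543) (l 263234459623))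 (l 3)) (l 3))) (a (b (a (l 315847805479) (l 3)) (l 3)) (l 3)))) (a (b (a (b (c (l 291151705175) (l 295446686343)) (l 293299194343)) (l 3)) (l 3)) (l 3))) (l 3))) (l 3)), by decide +kernel⟩

def k8_mm_202_a : ∃ t, chk3 f_mm_202_a t 7 5 1 = true :=
  ⟨(l 3), by decide +kernel⟩

def k9_mm_202_a : ∃ t, chk3 f_mm_202_a t 3 3 1 = true :=
  ⟨(l 3), by decide +kernel⟩

theorem s10_mm_202_a : ∃ t, chk3 f_mm_202_a t 14 4 1 = true := ex3_b k5_mm_202_a k6_mm_202_a

theorem s11_mm_202_a : ∃ t, chk3 f_mm_202_a t 7 4 1 = true := ex3_a s10_mm_202_a k7_mm_202_a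

theorem s12_mm_202_a : ∃ t, chk3 f_mm_202_a t 7 2 1 = true := ex3_b s11_mm_202_a k8_mm_202_a

theorem s13_mm_202_a : ∃ t, chk3 f_mm_202_a t 6 2 1 = true := ex3_b k3_mm_202_a k4_mm_202_a

theorem s14_mm_202_a : ∃ t, chk3 f_mm_202_a t 3 2 1 = true := ex3_a s13_mm_202_a s12_mm_202_a

theorem s15_mm_202_a : ∃ t, chk3 f_mm_202_a t 3 1 1 = true := ex3_b s14_mm_202_a k9_mm_202_a

theorem s16_mm_202_a : ∃ t, chk3 f_mm_202_a t 2 2 1 = true := ex3_b k0_mm_202_a k1_mm_202_a

theorem s17_mm_202_a : ∃ t, chk3 f_mm_202_a t 2 1 1 = true := ex3_b s16_mm_202_a k2_mm_202_a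

theorem s18_mm_202_a : ∃ t, chk3 f_mm_202_a t 1 1 1 = true := ex3_a s17_mm_202_a s15_mm_202_a

theorem c_mm_202_a : CertB 0 536870912 1073741824 536870912 991146299 28908434 3 eng mog cd1q2a cd5q2 pd0 false false false .pp 2 0 2
    ndB1q2a ndB5q2 pcB0 cut_mm_202_a Ext.none :=
  certB1 (fam := false) (s1 := false) (s2 := false) (a := 2) (b := 0) (c := 2) (cn := .pp) (n1 := ndB1q2a) (n2 := ndB5q2) (pc := pcB0) (cut := cut_mm_202_a) (xt := Ext.none) (P1 := 0) (W1 := 536870912) (P2 := 1073741824) (W2 := 536870912) (P3 := 991146299) (W3 := 28908434) (N0 := 3) (En := eng) (mo := mog) (C1 := cd1q2a) (C2 := cd5q2) (C3 := pd0)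
    rfl (fun _ => rfl) s18_mm_202_a

noncomputable def cut_mm_202_b : Cut := Cut.of [[⟨0, 1, 0, 53687091⟩, ⟨1, 0, 0, 53687091⟩, ⟨2, 1, 0, 53687091⟩]]

noncomputable def f_mm_202_b : ℕ → ℕ → ℕ → ℕ → Bool := onCell 0 536870912 1073741824 536870912 991146299 28908434
    (rowB 3 eng mog cd1q2b cd5q2 pd0 2 false false false .pp 2 0 2 (qsf 1239849684 370763052 1073741824 536870912 0) ndB1q2b ndB5q2 pcB0 cut_mm_202_b Ext.none)

def k0_mm_202_b : ∃ t, chk3 f_mm_202_b t 2 1 1 = true :=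
  ⟨(b (a (b (l 1) (b (a (a (b (l 425233154103) (l 15998984)) (a (a (l 15923312) (l 1)) (l 1))) (l 1)) (a (a (l 15956688) (a (a (l 16104528) (l 16093736)) (a (l 16104496) (l 16119288)))) (a (a (b (l 16100088) (l 16177744)) (b (l 1) (l 16199176))) (l 310880068695))))) (l 1)) (a (b (a (b (a (l 16238192) (a (a (l 16227872) (l 16221024)) (l 16176112))) (a (l 16173976) (a (a (l 16295792) (l 16295104)) (a (l 16307872) (l 16323808))))) (a (b (a (l 16205608) (a (l 16289048) (l 16293560))) (a (b (l 16331616) (l 16356776)) (b (l 16356688) (l 16370848)))) (b (b (l 16185096) (a (l 16324704) (l 16328192))) (b (l 16382944) (l 16422672))))) (a (b (a (a (l 15802880) (l 15932296)) (a (a (l 16043488) (l 16097400)) (b (l 16188328) (l 16004760)))) (a (a (l 15552016) (l 15643904)) (a (a (l 15699776) (l 15722808)) (b (l 15825616) (l 15658152))))) (a (b (a (l 16098016) (l 16123504)) (a (b (l 15839488) (l 15719872)) (b (l 15889936) (l 15797280)))) (b (b (l 16275520) (a (l 16089184)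 (l 16115416))) (b (l 15896096) (l 15919048)))))) (b (a (b (a (b (a (l 16256864) (l 1)) (l 16342704)) (b (l 1) (l 505764790247))) (a (b (l 16410512) (l 16458864)) (b (l 16386848) (l 16487312)))) (b (l 1) (b (a (l 496638048295) (l 1)) (a (b (l 474089612839) (l 198138005543)) (b (l 1) (l 369936690631)))))) (b (a (a (b (l 16308480) (l 16243344)) (b (c (l 16450448) (l 16499736)) (l 16385080))) (a (b (c (l 16559712) (l 16507816)) (l 16530248)) (b (l 16370440) (l 16559376)))) (a (b (a (l 16147960) (l 16297728)) (a (l 16069712) (l 16194128))) (b (a (l 16439024) (l 16570192)) (a (l 16352832) (l 16482472)))))))), by decide +kernel⟩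

def k1_mm_202_b : ∃ t, chk3 f_mm_202_b t 3 1 1 = true :=
  ⟨(b (l 1) (b (l 1) (a (b (a (c (b (l 396243377911) (l 380137473751)) (b (l 406980601639) (l 376916109783))) (l 1)) (a (b (a (l 16585312) (l 16568176)) (a (l 16597696) (l 16615080))) (b (a (l 396780504919) (l 1)) (b (a (l 16610792) (l 1)) (l 16526008))))) (l 1)))), by decide +kernel⟩

theorem s2_mm_202_b : ∃ t, chk3 f_mm_202_b t 1 1 1 = true := ex3_a k0_mm_202_b k1_mm_202_b

theorem c_mm_202_b : CertB 1239849684 370763052 1073741824 536870912 991146299 28908434 3 eng mog cd1q2b cd5q2 pd0 false false false .pp 2 0 2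
    ndB1q2b ndB5q2 pcB0 cut_mm_202_b Ext.none :=
  certB2 (fam := false) (s1 := false) (s2 := false) (a := 2) (b := 0) (c := 2) (cn := .pp) (n1 := ndB1q2b) (n2 := ndB5q2) (pc := pcB0) (cut := cut_mm_202_b) (xt := Ext.none) (P1 := 1239849684) (W1 := 370763052) (P2 := 1073741824) (W2 := 536870912) (P3 := 991146299) (W3 := 28908434) (N0 := 3) (En := eng) (mo := mog) (C1 := cd1q2b) (C2 := cd5q2) (C3 := pd0)
    rfl (fun _ => rfl) s2_mm_202_b

noncomputable def f_mm_203_a : ℕ → ℕ → ℕ → ℕ → Bool := onCell 0 536870912 0 1230186008 991146299 28908434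
    (rowB 3 eng mog cd1q2a cd5q3 pd0 0 false false false .up 2 0 3 (qsf 0 536870912 0 1230186008 0) ndB1q2a ndB5q3 pcB0 Cut.none Ext.none)

def k0_mm_203_a : ∃ t, chk3 f_mm_203_a t 1 1 1 = true :=
  ⟨(b (l 2) (b (l 2) (b (l 3) (a (a (b (a (b (l 3) (a (b (a (b (l 3) (c (l 292762360727) (l 291151747639))) (l 3)) (a (b (c (l 235854027495) (l 234243418151)) (l 16730840)) (b (l 316384696135) (b (l 298131081207) (l 257865735207))))) (l 3))) (l 3)) (b (a (a (a (b (l 16714384) (l 16712096)) (b (b (a (l 16753728) (l 248202054247)) (l 16747256)) (l 16730272))) (b (a (b (l 303499785703) (a (l 245517694311) (l 301352295959))) (l 3)) (a (b (a (l 16749072) (l 242296463687)) (l 16742264)) (b (l 297594197047) (a (l 240685845559) (l 295983558167)))))) (l 3)) (a (b (a (l 16697272) (b (a (l 16730688) (l 232632768295)) (l 16727872))) (a (l 16672792) (l 16709600))) (a (b (a (b (l 292762350231) (a (l 16721568) (l 288467353287))) (l 3)) (a (b (l 16721952) (l 16731040)) (b (l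 294909797175) (l 251423236871)))) (l 3))))) (l 3)) (l 3))))), by decide +kernel⟩

theorem c_mm_203_a : CertB 0 536870912 0 1230186008 991146299 28908434 3 eng mog cd1q2a cd5q3 pd0 false false false .up 2 0 3
    ndB1q2a ndB5q3 pcB0 Cut.none Ext.none :=
  certB0 (fam := false) (s1 := false) (s2 := false) (a := 2) (b := 0) (c := 3) (cn := .up) (n1 := ndB1q2a) (n2 := ndB5q3) (pc := pcB0) (cut := Cut.none) (xt := Ext.none) (P1 := 0) (W1 := 536870912) (P2 := 0) (W2 := 1230186008) (P3 := 991146299) (W3 := 28908434) (N0 := 3) (En := eng) (mo := mog) (C1 := cd1q2a) (C2 := cd5q3) (C3 := pd0)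
    rfl k0_mm_203_a

noncomputable def f_mm_203_b : ℕ → ℕ → ℕ → ℕ → Bool := onCell 1239849684 370763052 0 1230186008 991146299 28908434
    (rowB 3 eng mog cd1q2b cd5q3 pd0 0 false false false .up 2 0 3 (qsf 1239849684 370763052 0 1230186008 0) ndB1q2b ndB5q3 pcB0 Cut.none Ext.none)

def k0_mm_203_b : ∃ t, chk3 f_mm_203_b t 1 1 1 = true :=
  ⟨(b (l 3) (b (l 3) (b (l 3) (b (a (b (l 3) (a (a (b (a (b (l 3) (a (b (a (l 16751968) (l 16739280)) (l 16747480)) (l 16700056))) (l 3)) (a (a (b (l 16750728) (l 16740704)) (l 16705728)) (b (l 16660872) (l 16684576)))) (b (l 3) (a (l 16607160) (l 16573480)))) (l 3))) (l 3)) (a (a (b (a (b (a (l 16700960) (l 16693384)) (a (l 16699744) (l 16687776))) (b (a (l 16630416) (l 16566984)) (l 16605008))) (a (b (l 16672464) (l 16649824)) (b (l 16608264) (l 16607624)))) (b (a (b (l 16452344) (l 16466952)) (b (l 16342824) (l 16321632))) (a (c (l 16467912) (l 16449040)) (l 16150544)))) (a (b (a (l 273970315223) (l 15856656)) (a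 (b (l 16139448) (l 16104904)) (b (l 15954968) (l 15737144)))) (b (b (l 3) (a (l 15815352) (l 15600584))) (a (b (b (l 15766880) (l 15736080)) (a (l 15740072) (b (l 15642496) (a (l 15642312) (b (l 15591736) (l 15573936)))))) (a (b (l 15586968) (b (a (l 15559640) (l 15496376)) (a (l 15528760) (l 15491056)))) (b (b (l 15484776) (a (l 15478000) (l 15423072))) (l 15330336))))))))))), by decide +kernel⟩

theorem c_mm_203_b : CertB 1239849684 370763052 0 1230186008 991146299 28908434 3 eng mog cd1q2b cd5q3 pd0 false false false .up 2 0 3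
    ndB1q2b ndB5q3 pcB0 Cut.none Ext.none :=
  certB0 (fam := false) (s1 := false) (s2 := false) (a := 2) (b := 0) (c := 3) (cn := .up) (n1 := ndB1q2b) (n2 := ndB5q3) (pc := pcB0) (cut := Cut.none) (xt := Ext.none) (P1 := 1239849684) (W1 := 370763052) (P2 := 0) (W2 := 1230186008) (P3 := 991146299) (W3 := 28908434) (N0 := 3) (En := eng) (mo := mog) (C1 := cd1q2b) (C2 := cd5q3) (C3 := pd0)
    rfl k0_mm_203_b

noncomputable def f_mm_213_a : ℕ → ℕ → ℕ → ℕ → Bool := onCell 0 536870912 0 1230186008 991146299 28908434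
    (rowB 3 eng mog cd1q2a cd5q3 pd1 0 false false false .pnn 2 1 3 (qsf 0 536870912 0 1230186008 1) ndB1q2a ndB5q3 pcB1 Cut.none Ext.none)

def k0_mm_213_a : ∃ t, chk3 f_mm_213_a t 1 1 1 = true :=
  ⟨(b (a (l 3) (b (l 5) (l 3))) (a (b (l 3) (a (b (l 3) (l 1)) (l 3))) (l 3))), by decide +kernel⟩

theorem c_mm_213_a : CertB 0 536870912 0 1230186008 991146299 28908434 3 eng mog cd1q2a cd5q3 pd1 false false false .pnn 2 1 3
    ndB1q2a ndB5q3 pcB1 Cut.none Ext.none :=
  certB0 (fam := false) (s1 := false) (s2 := false) (a := 2) (b := 1) (c := 3) (cn := .pnn) (n1 := ndB1q2a) (n2 := ndB5q3) (pc := pcB1) (cut := Cut.none) (xt := Ext.none) (P1 := 0) (W1 := 536870912) (P2 := 0) (W2 := 1230186008) (P3 := 991146299) (W3 := 28908434) (N0 := 3) (En := eng) (mo := mog) (C1 := cd1q2a) (C2 := cd5q3) (C3 := pd1)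
    rfl k0_mm_213_a

noncomputable def f_mm_213_b : ℕ → ℕ → ℕ → ℕ → Bool := onCell 1239849684 370763052 0 1230186008 991146299 28908434
    (rowB 3 eng mog cd1q2b cd5q3 pd1 0 false false false .pnn 2 1 3 (qsf 1239849684 370763052 0 1230186008 1) ndB1q2b ndB5q3 pcB1 Cut.none Ext.none)

def k0_mm_213_b : ∃ t, chk3 f_mm_213_b t 1 1 1 = true :=
  ⟨(b (l 3) (b (l 3) (b (l 3) (l 1)))), by decide +kernel⟩

theorem c_mm_213_b : CertB 1239849684 370763052 0 1230186008 991146299 28908434 3 eng mog cd1q2b cd5q3 pd1 false false false .pnn 2 1 3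
    ndB1q2b ndB5q3 pcB1 Cut.none Ext.none :=
  certB0 (fam := false) (s1 := false) (s2 := false) (a := 2) (b := 1) (c := 3) (cn := .pnn) (n1 := ndB1q2b) (n2 := ndB5q3) (pc := pcB1) (cut := Cut.none) (xt := Ext.none) (P1 := 1239849684) (W1 := 370763052) (P2 := 0) (W2 := 1230186008) (P3 := 991146299) (W3 := 28908434) (N0 := 3) (En := eng) (mo := mog) (C1 := cd1q2b) (C2 := cd5q3) (C3 := pd1)
    rfl k0_mm_213_b

noncomputable def f_mm_303 : ℕ → ℕ → ℕ → ℕ → Bool := onCell 0 536870912 0 1230186008 991146299 28908434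
    (rowB 3 eng mog cd1q3 cd5q3 pd0 2 false false false .npn 3 0 3 (qsf 1610612736 536870912 0 1230186008 0) ndB1q3 ndB5q3 pcB0 Cut.none Ext.none)

def k0_mm_303 : ∃ t, chk3 f_mm_303 t 1 1 1 = true :=
  ⟨(b (l 3) (b (l 3) (a (b (l 3) (b (l 3) (a (b (b (l 3) (a (a (l 15223360) (l 15420704)) (l 1))) (a (a (a (l 15264056) (l 15329136)) (b (l 15436888) (l 1))) (l 1))) (l 1)))) (l 1)))), by decide +kernel⟩

theorem c_mm_303 : CertB 1610612736 536870912 0 1230186008 991146299 28908434 3 eng mog cd1q3 cd5q3 pd0 false false false .npn 3 0 3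
    ndB1q3 ndB5q3 pcB0 Cut.none Ext.none :=
  certB2 (fam := false) (s1 := false) (s2 := false) (a := 3) (b := 0) (c := 3) (cn := .npn) (n1 := ndB1q3) (n2 := ndB5q3) (pc := pcB0) (cut := Cut.none) (xt := Ext.none) (P1 := 1610612736) (W1 := 536870912) (P2 := 0) (W2 := 1230186008) (P3 := 991146299) (W3 := 28908434) (N0 := 3) (En := eng) (mo := mog) (C1 := cd1q3) (C2 := cd5q3) (C3 := pd0)
    rfl (fun _ => rfl) k0_mm_303

noncomputable def f_mm_313 : ℕ → ℕ → ℕ → ℕ → Bool := onCell 1610612736 536870912 0 1230186008 991146299 28908434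
    (rowB 3 eng mog cd1q3 cd5q3 pd1 0 false false false .dn 3 1 3 (qsf 1610612736 536870912 0 1230186008 1) ndB1q3 ndB5q3 pcB1 Cut.none Ext.none)

def k0_mm_313 : ∃ t, chk3 f_mm_313 t 1 1 1 = true :=
  ⟨(b (l 3) (l 1)), by decide +kernel⟩

theorem c_mm_313 : CertB 1610612736 536870912 0 1230186008 991146299 28908434 3 eng mog cd1q3 cd5q3 pd1 false false false .dn 3 1 3
    ndB1q3 ndB5q3 pcB1 Cut.none Ext.none :=
  certB0 (fam := false) (s1 := false) (s2 := false) (a := 3) (b := 1) (c := 3) (cn := .dn) (n1 := ndB1q3) (n2 := ndB5q3) (pc := pcB1) (cut := Cut.none) (xt := Ext.none) (P1 := 1610612736) (W1 := 536870912) (P2 := 0) (W2 := 1230186008) (P3 := 991146299) (W3 := 28908434) (N0 := 3) (En := eng) (mo := mog) (C1 := cd1q3) (C2 := cd5q3) (C3 := pd1)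
    rfl k0_mm_313

end Pool.Agent.Strip051.G.I9231_9500.Tab.C.BB15

namespace Pool.Agent.Strip051.G.I9231_9500.Tab.C.BB20

open Pool.Agent.Strip051.PB Pool.Agent.Strip051.PB.T
open Pool.Agent.Strip051.G.I9231_9500.Tab

noncomputable def f_pp_001 : ℕ → ℕ → ℕ → ℕ → Bool := onCell 0 536870912 0 536870912 991146299 28908434
    (rowB 3 eng mog cd2q0 cd0q1 pd0 1 false true true .up 0 0 1 (qsf 0 536870912 536870912 536870912 0) ndB2q0 ndB0q1 pcB0 Cut.none Ext.none)

def k0_pp_001 : ∃ t, chk3 f_pp_001 t 1 1 1 = true :=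
  ⟨(l 3), by decide +kernel⟩

theorem c_pp_001 : CertB 0 536870912 536870912 536870912 991146299 28908434 3 eng mog cd2q0 cd0q1 pd0 false true true .up 0 0 1
    ndB2q0 ndB0q1 pcB0 Cut.none Ext.none :=
  certB1 (fam := false) (s1 := true) (s2 := true) (a := 0) (b := 0) (c := 1) (cn := .up) (n1 := ndB2q0) (n2 := ndB0q1) (pc := pcB0) (cut := Cut.none) (xt := Ext.none) (P1 := 0) (W1 := 536870912) (P2 := 536870912) (W2 := 536870912) (P3 := 991146299) (W3 := 28908434) (N0 := 3) (En := eng) (mo := mog) (C1 := cd2q0) (C2 := cd0q1) (C3 := pd0)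
    rfl (fun _ => rfl) k0_pp_001

noncomputable def cut_pp_011 : Cut := Cut.of [[⟨0, 0, 0, 53687091⟩, ⟨1, 1, 0, 53687091⟩, ⟨2, 1, 0, 53687091⟩]]

noncomputable def f_pp_011 : ℕ → ℕ → ℕ → ℕ → Bool := onCell 0 536870912 536870912 536870912 991146299 28908434
    (rowB 3 eng mog cd2q0 cd0q1 pd1 0 false true true .pnn 0 1 1 (qsf 0 536870912 536870912 536870912 1) ndB2q0 ndB0q1 pcB1 cut_pp_011 Ext.none)

def k0_pp_011 : ∃ t, chk3 f_pp_011 t 1 1 1 = true :=
  ⟨(a (b (l 3) (b (l 3) (a (b (l 3) (a (b (l 3) (a (b (l 3) (l 6)) (l 3))) (l 3))) (l 3)))) (l 3)), by decide +kernel⟩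

theorem c_pp_011 : CertB 0 536870912 536870912 536870912 991146299 28908434 3 eng mog cd2q0 cd0q1 pd1 false true true .pnn 0 1 1
    ndB2q0 ndB0q1 pcB1 cut_pp_011 Ext.none :=
  certB0 (fam := false) (s1 := true) (s2 := true) (a := 0) (b := 1) (c := 1) (cn := .pnn) (n1 := ndB2q0) (n2 := ndB0q1) (pc := pcB1) (cut := cut_pp_011) (xt := Ext.none) (P1 := 0) (W1 := 536870912) (P2 := 536870912) (W2 := 536870912) (P3 := 991146299) (W3 := 28908434) (N0 := 3) (En := eng) (mo := mog) (C1 := cd2q0) (C2 := cd0q1) (C3 := pd1)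
    rfl k0_pp_011

end Pool.Agent.Strip051.G.I9231_9500.Tab.C.BB20

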