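import Pool.Agent.Strip051.G.I9231_9500.Tab
import Pool.Agent.Strip051.PB.ExtD3

/-! # Certificates B30 (generated) -/

set_option linter.all false
set_option maxRecDepth 100000

namespace Pool.Agent.Strip051.G.I9231_9500.Tab.C.BB20

open Pool.Agent.Strip051.PB Pool.Agent.Strip051.PB.T
open Pool.Agent.Strip051.G.I9231_9500.Tab

noncomputable def cut_pp_012 : Cut := Cut.of [[⟨0, 0, 0, 44739242⟩, ⟨1, 1, 0, 44739242⟩, ⟨2, 1, 0, 44739242⟩]]

noncomputable def xt_pp_012 : Ext := extD3 3 ⟨4, 1, 1, 5, 22, 5, 21, 25, 41, 100, 1, 20⟩ eng cd2q0 cd0q2 pd1 false true true .pnp 0 1 2 rfl ndB2q0 ndB0q2 pcB1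

noncomputable def f_pp_012 : ℕ → ℕ → ℕ → ℕ → Bool := onCell 536870912 536870912 0 536870912 991146299 28908434
    (rowB 3 eng mog cd2q0 cd0q2 pd1 2 false true true .pnp 0 1 2 (qsf 0 536870912 0 536870912 1) ndB2q0 ndB0q2 pcB1 cut_pp_012 xt_pp_012)

def k0_pp_012 : ∃ t, chk3 f_pp_012 t 2 1 1 = true :=
  ⟨(b (a (b (l 2) (b (l 2) (a (l 2) (b (l 2) (a (l 2) (c (l 16188640) (l 16356568))))))) (b (a (b (a (l 15443720) (l 15492024)) (a (l 15626512) (l 15738928))) (b (a (l 15552456) (l 15624808)) (c (l 15976104) (l 15690336)))) (b (a (c (a (l 16299208) (l 16265352)) (a (l 16004064) (l 15976256))) (c (a (l 16240688) (l 16225592)) (a (l 15961040) (l 15958720)))) (b (a (a (l 16171360) (l 16136360)) (c (l 16304152) (l 16061560))) (a (c (a (l 16313568) (l 16449120)) (a (l 16291648) (l 16304856))) (a (c (c (l 16597680) (l 16526888)) (l 16335280)) (l 16180928))))))) (b (a (a (l 2) (b (a (l 2) (c (l 16401600) (l 16363600))) (c (a (b (l 16418496) (l 16265632)) (b (l 16407280) (l 16393448))) (a (b (l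 16332936) (c (l 16333608) (l 16216192))) (b (l 16344704) (l 16187480)))))) (a (b (a (c (l 16424320) (l 16376328)) (a (l 16237176) (l 16252968))) (a (c (b (l 16405424) (l 16376472)) (b (l 16357072) (l 16316928))) (c (b (l 16415040) (l 16368896)) (b (l 16369056) (l 16342824))))) (a (b (c (b (l 16525688) (l 16486392)) (l 16227016)) (c (b (l 16437784) (l 16374744)) (b (l 16379896) (l 16366800)))) (b (b (a (l 16355456) (l 16319752)) (l 16307088)) (c (b (l 16475024) (l 16396160)) (b (l 16389072) (l 16388664))))))) (b (b (a (a (l 3) (a (l 3) (c (l 16187664) (l 16104616)))) (c (a (a (l 94655670359) (a (l 16305376) (l 16298880))) (a (a (l 16294512) (l 16293000)) (a (l 16295136) (l 16301864)))) (a (a (l 190755577351) (l 69959656999)) (a (l 16265920) (l 16341784))))) (a (l 3) (b (a (l 3) (a (c (l 16188888) (l 16272504)) (c (l 59758904439) (l 16250528)))) (l 3)))) (l 3)))), by decide +kernel⟩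

def k1_pp_012 : ∃ t, chk3 f_pp_012 t 6 2 1 = true :=
  ⟨(a (b (a (b (l 15708832) (l 15894984)) (b (l 15804256) (l 15949608))) (b (a (l 15866224) (l 15943768)) (c (a (l 16368176) (l 16376936)) (a (l 16190832) (l 16175192))))) (b (a (b (l 15910752) (l 16016016)) (b (l 16028024) (l 16094256))) (b (a (l 16012520) (l 16093824)) (a (c (l 16375008) (l 16173168)) (c (l 16363536) (l 16185480)))))), by decide +kernel⟩

def k2_pp_012 : ∃ t, chk3 f_pp_012 t 6 6 1 = true :=
  ⟨(a (a (b (b (c (l 16508696) (l 16344632)) (l 16296992)) (b (c (l 16527376) (l 16396064)) (c (l 16435440) (l 16409496)))) (b (c (b (l 16486680) (l 16568304)) (b (l 16314608) (l 16364704))) (b (c (l 16580792) (l 16399864)) (a (l 16312768) (l 16319448))))) (b (a (b (c (l 16482688) (l 16287824)) (c (l 16536104) (l 16348328))) (b (l 16168368) (c (l 16495944) (l 16329544)))) (c (a (b (l 16554928) (l 16487000)) (b (l 16509776) (l 16456872))) (a (b (l 16399208) (l 16363504)) (b (l 16393656) (a (l 16456072) (l 16459160))))))), by decide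 +kernel⟩

def k3_pp_012 : ∃ t, chk3 f_pp_012 t 6 14 1 = true :=
  ⟨(c (a (a (b (a (l 16313680) (l 16331016)) (a (b (l 16214640) (l 16136880)) (b (l 16226088) (l 16145776)))) (b (b (l 16402856) (a (l 16319688) (l 16347872))) (a (b (l 16244008) (l 139753120231)) (b (l 16269000) (c (l 16186616) (l 16179560)))))) (a (b (b (l 16477608) (a (l 16383040) (l 16425520))) (a (b (l 16301584) (c (b (l 16241584) (l 16196368)) (l 16206968))) (b (l 16342264) (b (l 16337776) (a (l 16217032) (l 16238656)))))) (b (a (b (l 16549232) (l 16475424)) (l 16358864)) (a (b (a (l 16378344) (l 16405152)) (a (b (l 16310384) (l 16262784)) (l 16313360))) (b (l 16449520) (a (l 16342640) (l 16374552))))))) (a (a (b (l 16159584) (a (l 16058240) (b (l 16246464) (l 16163264)))) (b (a (l 16367656) (l 16388168)) (b (a (l 16255008) (l 16270488)) (a (l 16167576) (l 16178832))))) (a (b (a (l 16415160) (l 16406816)) (b (a (l 16293600) (l 16325080)) (a (c (l 16199776) (l 16198128)) (a (l 16218672) (l 16235368))))) (b (a (l 16383512)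 (l 16431408)) (a (b (l 16365672) (a (l 16254656) (l 16276680))) (b (l 16415888) (l 16336080))))))), by decide +kernel⟩

def k4_pp_012 : ∃ t, chk3 f_pp_012 t 6 15 1 = true :=
  ⟨(b (a (b (a (l 3) (a (l 3) (a (l 3) (c (l 169280814391) (l 155322155831))))) (l 3)) (a (b (a (b (a (c (l 155322246279) (l 16114704)) (c (c (b (l 16170568) (l 160690954039)) (l 16140984)) (l 16125048))) (l 3)) (a (c (b (c (b (l 16190864) (c (a (l 16167288) (l 16178376)) (l 16160840))) (l 16158352)) (c (b (b (a (l 176260195463) (a (a (l 162838424023) (l 129015556743)) (l 97340180583))) (l 3)) (l 3)) (l 135994794327))) (b (l 16137912) (l 126867977175))) (c (b (c (b (l 16213648) (c (l 16196232) (l 16182928))) (l 16178352)) (c (c (b (a (l 102708880695) (l 16178368)) (l 190218816071)) (l 104319430519)) (l 98950703767))) (b (l 16153464) (l 89823886855))))) (l 3)) (b (c (a (b (a (c (l 16226928) (l 16201064)) (l 16240264)) (c (a (a (b (l 16183616) (l 116667528279)) (l 105930145047)) (b (l 16218808) (l 111298884775))) (a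 (l 16147456) (l 16173016)))) (b (a (l 16270008) (l 16302736)) (a (c (l 16238232) (l 16201848)) (l 16253016)))) (a (c (b (l 16191216) (l 16133376)) (l 79623447223)) (a (l 16187320) (l 16214976)))) (b (a (a (l 3) (b (c (a (l 161764699207) (l 126331252887)) (l 16086072)) (l 3))) (c (c (a (b (l 124720677319) (l 155859142647)) (l 132236912071)) (a (l 121499324151) (l 16179960))) (c (l 114519972583) (l 16091368)))) (l 3))))) (l 3)), by decide +kernel⟩

def k5_pp_012 : ∃ t, chk3 f_pp_012 t 7 2 1 = true :=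
  ⟨(a (b (a (b (l 16155848) (l 16184472)) (c (l 16356008) (l 16226184))) (a (b (l 16146296) (c (l 16364688) (l 16212984))) (b (l 16191752) (c (l 16379896) (l 16256824))))) (b (a (b (l 16443768) (l 16319184)) (b (l 16538248) (l 16450056))) (a (b (c (l 16424368) (l 16330536)) (c (l 16410984) (l 16318616))) (b (l 16288528) (b (l 16336312) (l 16315048)))))), by decide +kernel⟩

def k6_pp_012 : ∃ t, chk3 f_pp_012 t 7 6 1 = true :=
  ⟨(a (b (a (b (l 16132208) (b (l 16161632) (l 16190248))) (b (l 16153720) (a (l 16264088) (l 16340576)))) (a (b (a (l 16311504) (l 16320824)) (c (l 16459232) (a (l 16460256) (l 16459632)))) (b (a (l 16371552) (l 16401120)) (a (l 16364624) (l 16396760))))) (a (b (b (l 16255960) (c (l 16402880) (l 16316128))) (a (b (l 16409952) (l 16407032)) (b (l 16378768) (l 16396032)))) (b (a (c (l 16412720) (l 16347584)) (b (l 16412792) (l 16388296))) (b (a (c (l 16421632) (l 16362968)) (b (l 16373936) (l 16400512))) (a (l 16363984) (c (l 16477760) (l 16442112))))))), by decide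 +kernel⟩

def k7_pp_012 : ∃ t, chk3 f_pp_012 t 14 7 1 = true :=
  ⟨(b (a (c (b (a (l 16560392) (l 16602712)) (a (b (l 16516096) (l 16427352)) (b (l 16589224) (l 16506480)))) (b (a (l 16488368) (l 16537944)) (a (b (l 16475624) (l 16419016)) (b (l 16542168) (l 16451760))))) (b (c (a (l 16635984) (l 16622536)) (a (l 16540976) (l 16540872))) (c (a (l 141194781810442303) (l 16605880)) (b (l 16497520) (l 141812844687245375))))) (b (a (a (a (b (c (b (l 16338504) (l 16290000)) (l 16246240)) (c (b (a (l 134921343687) (l 16251216)) (c (l 145658680551) (l 138142366087))) (b (l 16152752) (l 128478585831)))) (b (c (l 16353624) (l 16281328)) (c (c (l 2662054654932786069859450943) (a (l 139216233447) (l 141900637623))) (b (l 16188832) (l 133310510439))))) (b (c (b (l 16441248) (l 16397648)) (b (l 16370704) (l 16312392))) (c (b (l 141125786894303295) (b (l 140590805706506303) (l 2120455887745332144116269119))) (a (b (l 16229568) (l 139753054615)) (b (l 16275248) (l 16215248)))))) (c (b (a (l 16516632)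 (l 16621040)) (a (b (l 16464920) (l 141399084421300287)) (b (l 16587752) (l 142643663153332287)))) (a (b (l 16457216) (b (l 16353456) (l 139915911671349311))) (b (l 16587712) (b (l 16475696) (l 141160559108194367)))))) (b (a (a (l 3) (a (l 3) (a (l 3) (b (c (l 4286850956493692093989306431) (l 236926745895)) (l 3))))) (a (b (b (c (a (l 2961868258196953040188702783) (l 141401352210382911)) (l 139247752119763007)) (a (l 3) (c (b (l 2990882477868867561276522559) (l 6782073848180287822005272639)) (l 2865154192626855680231784511)))) (l 3)) (a (b (c (c (l 3822623441764620014441234495) (l 141610603085824063)) (l 2362241051668274334312087615)) (a (l 3) (b (c (l 6975501979318817056454574143) (l 6898130726862185426681757759)) (l 3)))) (b (c (l 143010144231931967) (l 140937839301476415)) (b (c (a (c (l 6462917431803415640504713279) (l 6637002749826603926976806975)) (b (l 143453797278072895) (c (a (l 362018703447) (l 351818217287)) (l 6656345562941574270444437567)))) (b (l 3145624982778656981598634047)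 (c (l 6849773694078029069493829695) (l 4470607681075134076759326783)))) (l 3)))))) (l 3)))), by decide +kernel⟩

def k8_pp_012 : ∃ t, chk3 f_pp_012 t 15 14 1 = true :=
  ⟨(a (b (a (c (l 16606544) (l 16538472)) (b (l 16541312) (l 16561400))) (a (c (l 16598120) (l 16562768)) (b (l 16560040) (l 141184267756716159)))) (b (a (b (l 16529216) (l 16548520)) (b (l 16519504) (l 16537968))) (a (b (l 16525280) (c (l 16661248) (l 16635040))) (b (a (l 16600168) (l 16595488)) (a (l 16638496) (l 16633328)))))), by decide +kernel⟩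

def k9_pp_012 : ∃ t, chk3 f_pp_012 t 30 30 1 = true :=
  ⟨(a (b (c (l 16693096) (l 16655568)) (c (b (l 16709512) (l 16727744)) (l 142853051440103487))) (b (a (l 16663232) (l 16656880)) (b (a (l 16705408) (l 16700784)) (a (l 16704872) (l 16719176))))), by decide +kernel⟩

def k10_pp_012 : ∃ t, chk3 f_pp_012 t 30 62 1 = true :=
  ⟨(a (b (c (l 143389269838299263) (l 142363631293825087)) (b (c (a (a (c (l 4760749877786123934336893055) (l 4499621900749094858279026815)) (l 143741525901885567)) (l 143761729422639359)) (a (c (l 3948351727003794055563477055) (l 141105789781950527)) (l 143018802938183743))) (a (b (c (c (b (a (a (l 391546729095) (l 6346860553120680757733163263)) (l 5370048490872064713907241215)) (a (l 3) (a (b (l 6404888992462234016703037695) (l 3)) (l 5611833654795053770767450431)))) (a (l 6704702595726409713925111935) (b (l 5389391303986127410388648063) (l 5718219126921344410321944703)))) (a (c (l 6927144946534012468177600575) (l 392619758135)) (c (a (l 6675688376055388271137636415)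 (a (l 6482260244917383366598836351) (l 5128263326948389836546146431))) (l 3958023133560196448670351423)))) (a (l 3) (b (b (a (l 3) (a (l 3) (c (c (l 381883038631) (l 6714374002283861247572738175)) (c (l 386177805943) (l 397988645447))))) (l 3)) (l 3)))) (a (c (b (c (l 143923907438428479) (l 144119895382343935)) (a (b (c (b (l 5718219126921195289086361919) (c (l 361481932999) (l 364166303495))) (l 6433903212133258757828182271)) (l 3)) (c (b (l 5621505061352046120706212159) (a (l 3) (c (l 358260713863) (l 360945072471)))) (b (l 5708547720364439127985864959) (b (l 6511274464588631858675859711) (l 3)))))) (c (b (l 143593916352495743) (c (a (l 6685359782612913815756439679) (b (l 5689204907250803454297456767) (l 6646674156385479259761410175))) (a (l 6820759474408923251405537407) (b (l 5312020051530216923136278655) (l 6811088067852466569871491199))))) (b (l 142073291494965311) (c (b (l 4644692999102020983634231359) (l 7014187605546672863035719743)) (l 6907802133419733030397526079))))) (c (b (l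 16791768) (b (l 143900542822318399) (c (a (a (b (l 5708547720364289182082236735) (c (l 360945056311) (l 363629424887))) (l 6076061169527216715540005183)) (l 5602162248238231432798601535)) (a (b (l 5776247566262879527371555135) (a (l 6588645717043996094686560575) (l 6279160707222578252034277695))) (l 5708547720364469433275662655))))) (b (l 143588418799206463) (c (b (l 144332375976312959) (c (a (b (l 5747233346592259131598012671) (c (a (l 364166285655) (l 345375813239)) (c (l 6414560399019709945602883839) (l 6433903212133428151356670207)))) (l 5727890533478421766277398783)) (a (b (l 5708547720364320518125174911) (a (l 6782073848182271341593542783) (l 6424231805576359728900620415))) (l 5718219126921512085850374399)))) (b (l 142918884821614655) (c (a (b (l 5176620359733032315501494399) (a (l 384567147495) (l 6578974310486159457030832255))) (l 5466762556441003463142375551)) (l 4809106910569647385052446783)))))))))) (c (b (l 143023957058322687) (a (a (b (l 16779200) (l 603268338874506119195967))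 (l 601594873163509557865727)) (l 143750047078842623))) (b (l 143294368191938687) (a (c (l 143946722240446719) (l 143909613694763135)) (l 143747641905807615))))), by decide +kernel⟩

def k11_pp_012 : ∃ t, chk3 f_pp_012 t 60 252 1 = true :=
  ⟨(a (l 3) (b (a (l 3) (b (a (l 3) (c (c (b (a (b (l 6008361323628759686043156799) (c (l 365776901863) (l 368461258839))) (b (l 144242971977220415) (l 5940661477730357357249495359))) (a (l 3) (a (l 3) (b (l 6443574618690051890019909951) (l 3))))) (c (l 6395217585905743868706472255) (l 6443574618690404764549824831))) (b (c (c (b (l 6027704136742864370140086527) (a (a (l 3) (l 366850637831)) (l 6114746795755121587730694463))) (c (a (b (l 6182446641653557176747507967) (l 373829949623)) (l 6008361323629036144493641983)) (a (l 6588645717043939950829388031) (l 5979347103958426743847829759)))) (c (a (c (l 6675688376055986336982433919) (l 6753059628510723507684606079)) (a (l 6346860553120603035966587007) (l 5853618818717950468617453695))) (a (l 380809049543)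 (l 5379719897428060837385961599)))) (b (a (l 3) (a (l 3) (b (c (c (l 352892004647) (l 6549960090816367887082160383)) (c (l 6598317123600605677105463423) (l 378124710791))) (l 3)))) (l 3))))) (l 3))) (l 3))), by decide +kernel⟩

def k12_pp_012 : ∃ t, chk3 f_pp_012 t 244 1008 1 = true :=
  ⟨(a (c (c (a (b (l 16795928) (c (c (l 6221132267881102165036925247) (l 346449554487)) (b (l 329269692135) (l 357723847143)))) (c (l 5689204907250687318393176383) (l 320142884567))) (c (l 5998689917071976518205800767) (l 6018032730185878617275351359))) (c (b (l 144324748143870207) (c (a (b (l 6047046949856704759129784639) (a (l 367924391287) (l 6433903212133390493084090687))) (l 5930990071173699946039902527)) (a (b (l 6047046949856671567609528575) (c (a (l 374366843175) (l 355039484775)) (c (l 6549960090816529790181802239) (l 6569302903930345783751459071)))) (l 5930990071173653079344316735)))) (c (a (b (l 16766952) (c (a (l 6540288684259482808237211903) (c (l 6279160707222812654146339071) (l 6327517740007313777207230719)))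 (b (l 5872961631831786528231915647) (a (l 386177904023) (l 6588645717043743962835157247))))) (c (l 5882633038389196074171072767) (l 5882633038388926762535223551))) (c (a (a (l 6482260244917027193657884799) (l 6308174926892638034152259711)) (l 5621505061351707127423107199)) (l 5273334425302118399351406719))))) (c (c (l 604752149163265157328191) (l 16799824)) (c (l 144292587406623039) (l 144278087568605311)))), by decide +kernel⟩

def k13_pp_012 : ∃ t, chk3 f_pp_012 t 244 1009 1 = true :=
  ⟨(b (c (a (a (l 3) (b (c (c (a (l 359334452119) (l 6134089608868891951564407103)) (l 352355138727)) (l 6356531959677957675049746751)) (l 3))) (c (c (a (l 5960609529958608492094418239) (l 16793384)) (l 5970280397813014414200483135)) (c (l 6018637707587048649916296511) (l 6057323616280364465904102719)))) (a (a (l 3) (b (a (b (c (c (l 355576362887) (l 6588645717044015542276047167)) (c (c (l 6627331343271812043842044159) (l 6656345562942315272872624383)) (a (l 391546596263) (l 6637002749827805281240776831))))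 (l 3)) (c (c (l 6269489300665803880261779775) (b (l 6008361323629165886865047871) (l 6472588838361183970989310271))) (c (c (l 6356531959678129130114613503) (l 6375874772791856544272384255)) (c (l 6443574618689801476177494143) (l 363629233751))))) (l 3))) (c (a (c (l 6182446641653544601086837055) (b (l 144447962174259519) (a (b (l 6337189146564338081719107903) (a (l 3) (l 6714374002284101009838539071))) (l 6134089608869072821225324863)))) (l 605065743807295563771199)) (c (a (a (b (l 5911647258059922916388782335) (c (b (l 6337189146564289497043026175) (l 374366822631)) (b (l 6317846333450422582327394559) (l 6772402441625524388976312575)))) (c (l 6047046949856772241639162175) (l 6056718356413657251754672383))) (l 16787320)) (a (c (b (l 144015922762301695) (a (b (l 6259817894108531360961134847) (l 382419872871)) (l 6153432421982581501280829695))) (b (l 16721016) (a (l 6724045408840078853989482623) (l 5872961631831505671697629311)))) (l 144051450739572863)))))) (a (l 3) (a (a (l 3) (a (l 3)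 (b (b (c (c (c (l 353965740727) (l 354502621607)) (l 6492536691133602010977168703)) (c (c (l 357186973847) (l 6549960090816503745497481535)) (c (c (l 364703146759) (l 365240017159)) (c (l 6637002749828496461801488639) (l 374366714679))))) (l 3)) (l 3)))) (c (c (c (b (l 6008966363719957779152051263) (c (l 6434508147308450329429187647) (l 358260709639))) (a (l 355576363319) (l 6154037670752505613965941823))) (b (l 6125023146854733429298064703) (l 6598922016117944226751962175))) (a (b (c (c (l 6299108860331376171420577087) (b (l 6125024003763822391823347007) (l 6540893771476383273737137471))) (c (c (l 6376480383723341750056889663) (l 6395823055604260853621026047)) (c (b (l 6154037539463734134860623103) (l 6608593766389771669287070975)) (b (l 5969675697400830968121983103) (l 6666620137966064425301519487))))) (l 3)) (c (c (l 6260423186833918514928266559) (b (l 5979952185122350840416939327) (b (l 6463522582287292414950071359) (a (l 3) (l 379735542247))))) (c (c (b (l 333564640375) (b (l 6482865947362296812268330047)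 (l 382956759623))) (b (l 6028309627770457227848805631) (b (l 6482865809876407387896175679) (l 383493625047)))) (c (b (l 6047652300227837633472261375) (b (l 6482865671237596458915142719) (l 6927750410037498518783958079))) (b (l 5970279385259297479553264895) (b (l 6434507073073838411958426687) (l 6966434541502435929538829375))))))))))), by decide +kernel⟩

def k14_pp_012 : ∃ t, chk3 f_pp_012 t 244 505 1 = true :=
  ⟨(l 3), by decide +kernel⟩

def k15_pp_012 : ∃ t, chk3 f_pp_012 t 245 504 1 = true :=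
  ⟨(c (a (c (c (a (c (l 5776851949332953393302154559) (l 5796194894168094718921567551)) (l 16787656)) (l 5796195120140741026667228479)) (c (l 5825209608730304708434406719) (l 5863895464965866406118403391))) (l 604218346351532332854527)) (b (l 144226410536206591) (a (c (a (c (l 5950938104666747795168308543) (c (l 5979952123441065256078224703) (l 5999294801086594356578118975))) (l 16789952)) (b (l 16768544) (a (b (l 604595351895744509553919) (c (c (l 6125023861666199601305333055) (l 6154037947598027717235207487)) (a (c (l 6250751902486703303659711743) (l 6270093767034149415401991423)) (l 16778504)))) (l 16785832)))) (l 604534823399723388923135)))), by decide +kernel⟩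

def k16_pp_012 : ∃ t, chk3 f_pp_012 t 490 505 1 = true :=
  ⟨(b (b (a (b (c (c (a (c (b (l 6521550814967614914555255871) (l 3)) (l 366313774343)) (c (l 6183051592104817397126372415) (l 347523291735))) (l 6569907712860384042560314431)) (a (b (a (l 3) (c (c (l 365776898775) (l 372756225927)) (c (c (l 375977438263) (l 377051174759)) (c (l 378124916455) (l 374903682999))))) (l 3)) (c (c (l 6318451525438711079843241023) (l 6366808534588405402380655679)) (c (c (l 6405494722865307031804222527) (l 6424837405410780701868743743)) (c (l 6453851493360249900724051007) (b (l 6250751691213790511609195775) (l 6792350580754770626842549311))))))) (l 3)) (c (c (c (c (c (l 6086337453901592272919993407) (l 6096008918392814912814029887)) (l 6105680411995305544032164927)) (l 6086337775278461682084863039)) (b (l 5873566465406176707251383615) (l 6531222048874536633093643327))) (c (c (l 6192723225066884494743776575) (b (l 5960609380943660427190824255) (a (b (l 6666622156299577511418633279) (l 3)) (l 6192723206475835635913514047))))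 (a (b (c (l 6037981163166373910260460863) (c (l 6066995188858040697380318463) (l 6086337871115256091185622271))) (b (c (a (l 6889065021599890710359776319) (l 6328123423140189075738156095)) (c (l 6705308095545434145752718399) (l 6724650779532059696575880255))) (l 3))) (c (c (l 6115352474708952681710366015) (l 6134695162154316289355722047)) (c (l 6154037848734988424948854079) (l 6173380534162738781056855295))))))) (b (b (a (l 3) (a (l 3) (a (l 3) (c (c (c (l 366850638695) (l 368998126119)) (l 389936105479)) (c (c (l 375440575751) (l 384030500775)) (c (l 388862344999) (l 7034135896575104693739625535))))))) (l 3)) (l 3))) (l 3)), by decide +kernel⟩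

def k17_pp_012 : ∃ t, chk3 f_pp_012 t 491 505 1 = true :=
  ⟨(a (b (c (b (c (l 605131748589547708148991) (l 604841788743796638838015)) (c (c (c (a (l 6395822312113759485844429887) (l 6183051510535620946193161279)) (l 6289436894751443587299793983)) (b (l 6105680542851896316908559423) (l 370608742951))) (b (l 6154037159720048696985050175) (l 6908407282176093694342175807)))) (b (c (l 605143277773120259845439) (c (l 605535271189689925676351) (l 605287393014522375728383))) (b (c (c (l 6202394542416310512151895103) (l 6250751653887788368547945535)) (c (a (l 6444179574617954445742595135) (l 6047652614975465909354687807)) (c (l 6328123246887545025123970367) (l 6347465938944595407111466239)))) (a (l 3) (b (c (c (l 365240028407) (l 376514318951)) (c (l 6889065055034614343960763455) (l 6918079040374069632803150911))) (l 3)))))) (l 3)) (b (c (c (c (l 5815538213702695217500712191) (l 5834880488402228964104318207)) (l 5883237854957475365573143807)) (c (c (l 5931595231889198239740914943) (l 5970280699301903137767091519))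 (c (l 6018637500925859397102398783) (c (l 6047651544199583939840273727) (l 6066994238562478430552976703))))) (b (b (c (c (c (a (l 380272409911) (l 6241079975529626624077388863)) (l 369534999655)) (l 6879392945195579500400925759)) (a (c (c (l 382956769319) (l 396915404263)) (c (l 402284114967) (l 406042202327))) (c (l 6415165485227333366134234175) (c (l 6473193833488036702570650687) (l 6521551400939969630975515711))))) (l 3)) (l 3)))), by decide +kernel⟩

def k18_pp_012 : ∃ t, chk3 f_pp_012 t 123 252 1 = true :=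
  ⟨(b (c (l 603120188369767239626495) (l 602977802712107460308735)) (a (b (c (c (l 604527905736692774530815) (l 604940651709696493169919)) (c (l 604800283596019033271551) (l 604371108506967828950271))) (c (a (c (c (c (b (a (l 6105680253468598660583136831) (l 16794376)) (l 6792350066551779572203953727)) (b (l 6018637721277710866761145919) (l 6811692971322873255247306303))) (b (l 5989623269149371613091720447) (a (l 401210376407) (l 375977447799)))) (b (l 6037980221229330030291627263) (l 7034135403701161474333400127))) (a (c (l 5815537505520674619199041279) (l 5873566310049952902898543871)) (l 604551828900588171013887))) (c (a (b (c (l 6086337560114635830735236351) (l 6134694719432344033689234687)) (a (l 7556391805396455441415953471) (l 7082492847214032657510603839))) (l 5912252313283016402278821119)) (c (a (b (l 6173380140151711846062550271) (a (l 424832685399) (b (l 370071861287) (l 408726557927)))) (l 5960609067060561376678702335)) (a (b (a (c (l 6231408476018655243031883071) (l 6270093994736370600760782143))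 (l 16787440)) (c (l 7217892582101560643221499135) (l 7246906936375876103221898495))) (l 5999294503056323636888005887)))))) (c (l 604080860420944989318911) (l 603535240435025715130111)))), by decide +kernel⟩

def k19_pp_012 : ∃ t, chk3 f_pp_012 t 30 253 1 = true :=
  ⟨(a (l 3) (a (l 3) (b (b (a (b (a (l 3) (c (c (a (c (l 391009825223) (l 393157320679)) (l 6115351470369928186148822591)) (l 7072820976029749267551247423)) (c (l 7198549615360941310250249471) (a (c (l 409800300919) (l 415705873767)) (l 6337794077271792246939233535))))) (l 3)) (a (c (c (c (l 6018637338652053926004371199) (l 6066994516704595222869372671)) (l 6047651820324195095313755903)) (c (l 6115351962523499424613362943) (l 6202394518061055039700659455))) (l 6))) (a (l 3) (a (a (l 3) (l 6)) (l 6)))) (l 3)))), by decide +kernel⟩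

def k20_pp_012 : ∃ t, chk3 f_pp_012 t 30 127 1 = true :=
  ⟨(l 3), by decide +kernel⟩

def k21_pp_012 : ∃ t, chk3 f_pp_012 t 31 15 1 = true :=
  ⟨(b (a (b (a (l 16648584) (l 16640536)) (b (l 142351811769499775) (a (l 16712072) (l 16705904)))) (b (a (l 142235538380292223) (b (l 16661056) (l 16678704))) (a (b (l 16701824) (l 6)) (l 6)))) (b (a (a (b (l 143323642687979647) (b (l 143652946452660351) (l 143750115814817919))) (b (l 143219670106144895) (l 6))) (l 6)) (l 6))), by decide +kernel⟩

theorem s22_pp_012 : ∃ t, chk3 f_pp_012 t 245 505 1 = true := ex3_a k16_pp_012 k17_pp_012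

theorem s23_pp_012 : ∃ t, chk3 f_pp_012 t 245 252 1 = true := ex3_b k15_pp_012 s22_pp_012

theorem s24_pp_012 : ∃ t, chk3 f_pp_012 t 244 504 1 = true := ex3_b k12_pp_012 k13_pp_012

theorem s25_pp_012 : ∃ t, chk3 f_pp_012 t 244 252 1 = true := ex3_b s24_pp_012 k14_pp_012

theorem s26_pp_012 : ∃ t, chk3 f_pp_012 t 122 252 1 = true := ex3_a s25_pp_012 s23_pp_012

theorem s27_pp_012 : ∃ t, chk3 f_pp_012 t 61 252 1 = true := ex3_a s26_pp_012 k18_pp_012

theorem s28_pp_012 : ∃ t, chk3 f_pp_012 t 30 252 1 = true := ex3_a k11_pp_012 s27_pp_012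

theorem s29_pp_012 : ∃ t, chk3 f_pp_012 t 30 126 1 = true := ex3_b s28_pp_012 k19_pp_012

theorem s30_pp_012 : ∃ t, chk3 f_pp_012 t 30 63 1 = true := ex3_b s29_pp_012 k20_pp_012

theorem s31_pp_012 : ∃ t, chk3 f_pp_012 t 30 31 1 = true := ex3_b k10_pp_012 s30_pp_012

theorem s32_pp_012 : ∃ t, chk3 f_pp_012 t 30 15 1 = true := ex3_b k9_pp_012 s31_pp_012

theorem s33_pp_012 : ∃ t, chk3 f_pp_012 t 15 15 1 = true := ex3_a s32_pp_012 k21_pp_012

theorem s34_pp_012 : ∃ t, chk3 f_pp_012 t 15 7 1 = true := ex3_b k8_pp_012 s33_pp_012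

theorem s35_pp_012 : ∃ t, chk3 f_pp_012 t 7 7 1 = true := ex3_a k7_pp_012 s34_pp_012

theorem s36_pp_012 : ∃ t, chk3 f_pp_012 t 7 3 1 = true := ex3_b k6_pp_012 s35_pp_012

theorem s37_pp_012 : ∃ t, chk3 f_pp_012 t 7 1 1 = true := ex3_b k5_pp_012 s36_pp_012

theorem s38_pp_012 : ∃ t, chk3 f_pp_012 t 6 7 1 = true := ex3_b k3_pp_012 k4_pp_012

theorem s39_pp_012 : ∃ t, chk3 f_pp_012 t 6 3 1 = true := ex3_b k2_pp_012 s38_pp_012

theorem s40_pp_012 : ∃ t, chk3 f_pp_012 t 6 1 1 = true := ex3_b k1_pp_012 s39_pp_012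

theorem s41_pp_012 : ∃ t, chk3 f_pp_012 t 3 1 1 = true := ex3_a s40_pp_012 s37_pp_012

theorem s42_pp_012 : ∃ t, chk3 f_pp_012 t 1 1 1 = true := ex3_a k0_pp_012 s41_pp_012

theorem c_pp_012 : CertB 0 536870912 0 536870912 991146299 28908434 3 eng mog cd2q0 cd0q2 pd1 false true true .pnp 0 1 2
    ndB2q0 ndB0q2 pcB1 cut_pp_012 xt_pp_012 :=
  certB2 (fam := false) (s1 := true) (s2 := true) (a := 0) (b := 1) (c := 2) (cn := .pnp) (n1 := ndB2q0) (n2 := ndB0q2) (pc := pcB1) (cut := cut_pp_012) (xt := xt_pp_012) (P1 := 0) (W1 := 536870912) (P2 := 0) (W2 := 536870912) (P3 := 991146299) (W3 := 28908434) (N0 := 3) (En := eng) (mo := mog) (C1 := cd2q0) (C2 := cd0q2) (C3 := pd1)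
    rfl (fun _ => rfl) s42_pp_012

noncomputable def cut_pp_022 : Cut := Cut.of [[⟨0, 0, 0, 44739242⟩, ⟨1, 1, 0, 44739242⟩, ⟨2, 1, 0, 44739242⟩]]

noncomputable def f_pp_022 : ℕ → ℕ → ℕ → ℕ → Bool := onCell 1073741824 536870912 0 536870912 991146299 28908434
    (rowB 3 eng mog cd2q0 cd0q2 pd2 2 false true true .pp 0 2 2 (qsf 0 536870912 0 536870912 2) ndB2q0 ndB0q2 pcB2 cut_pp_022 Ext.none)

def k0_pp_022 : ∃ t, chk3 f_pp_022 t 4 2 1 = true :=
  ⟨(a (b (c (a (b (a (l 16280456) (l 16268576)) (a (l 16318216) (l 16321592))) (b (l 16251584) (a (l 16304048) (l 16286528)))) (a (b (a (l 16163912) (l 16158616)) (a (b (l 16218688) (l 16251288)) (l 16221728))) (b (l 16151880) (a (l 16209096) (l 16196600))))) (a (c (b (a (b (l 16379792) (l 16384760)) (b (l 16357952) (l 16381024))) (a (b (c (l 16452440) (l 16410992)) (c (l 16479000) (l 16397944))) (b (l 16362376) (c (l 16448144) (l 16409424))))) (b (a (b (l 16282576) (l 16229712)) (b (l 16264256) (l 16291584))) (a (b (c (l 16367592) (l 16322256))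 (a (c (l 16406280) (l 16363440)) (c (l 16391512) (l 16349008)))) (b (c (l 16341288) (l 16297048)) (c (l 16369048) (l 16327024)))))) (c (b (a (l 16303672) (l 16321704)) (a (b (l 16376088) (l 16355600)) (b (l 16347224) (l 16365272)))) (b (a (b (l 16245768) (l 16269176)) (l 16236192)) (a (b (l 16292992) (c (l 16338256) (l 16296824))) (b (l 16265888) (l 16286264))))))) (b (a (c (b (l 16230056) (l 16260400)) (b (l 16144616) (l 16136232))) (c (b (l 16209768) (l 16225160)) (b (l 16139128) (l 16111296)))) (a (b (c (a (l 16297424) (l 16272728)) (a (l 16215040) (l 16193416))) (c (b (a (l 16317712) (l 16287496)) (a (l 16332144) (l 16298128))) (c (a (l 16265696) (l 16234264)) (a (l 16224688) (l 16193816))))) (b (c (a (l 16247584) (l 16222584)) (a (l 16171208) (l 16151360))) (c (a (b (l 16256752) (l 16263984)) (b (l 16226992) (l 16231784))) (a (b (l 16180544) (l 16189032)) (b (l 16159144) (l 16170424)))))))), by decide +kernel⟩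

def k1_pp_022 : ∃ t, chk3 f_pp_022 t 5 2 1 = true :=
  ⟨(a (b (b (a (a (l 16167304) (l 590053360727)) (l 1)) (a (a (c (l 16199648) (l 16140824)) (c (l 16164920) (l 16148232))) (l 1))) (a (b (a (c (l 367251951031) (l 342555795447)) (c (l 658772854231) (l 677563300407))) (a (c (l 497174729207) (b (l 16128168) (l 505227839623))) (l 1))) (l 1))) (l 1)), by decide +kernel⟩

def k2_pp_022 : ∃ t, chk3 f_pp_022 t 16 6 1 = true :=
  ⟨(b (c (a (b (a (b (l 16469248) (l 16464680)) (c (l 16499968) (l 16462840))) (a (b (l 16461120) (c (l 16559888) (l 16524976))) (b (l 16485200) (l 16481992)))) (b (a (l 16401784) (l 16447544)) (a (c (l 16514024) (l 16478296)) (l 16414576)))) (a (b (a (b (l 16348696) (c (l 16449824) (l 16409952))) (c (l 16424104) (l 16383776))) (a (b (c (l 16468664) (l 16429832)) (c (l 16488584) (l 16450712))) (b (l 16389456) (c (l 16469592) (l 16431568))))) (b (a (c (l 16407248) (l 16367024)) (l 16328296)) (a (c (l 16441136) (l 16402544)) (c (l 16421984) (l 16383232)))))) (c (b (a (c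 (a (l 16548000) (l 16549224)) (a (b (l 16545320) (l 16567184)) (l 16514968))) (a (c (l 16550128) (l 16515456)) (l 16449424))) (a (a (b (l 16544512) (l 16569784)) (b (l 16544232) (l 16568608))) (c (l 16519120) (a (l 16558944) (l 16536136))))) (b (a (a (c (b (l 16509720) (l 16532272)) (b (l 16472712) (l 16496008))) (c (l 16458376) (b (l 16452456) (l 16474616)))) (a (c (l 16479440) (l 16442104)) (c (l 16458176) (l 16420432)))) (a (a (b (c (l 16556464) (l 16520856)) (c (l 16582544) (l 16547544))) (b (l 16474576) (l 16499824))) (a (b (l 16493760) (l 16517848)) (b (l 16470536) (l 16493424))))))), by decide +kernel⟩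

def k3_pp_022 : ∃ t, chk3 f_pp_022 t 17 6 1 = true :=
  ⟨(b (c (b (a (c (l 16439840) (l 16402640)) (l 16364640)) (a (c (l 16466752) (l 16430408)) (l 16325376))) (b (a (c (l 16364000) (l 16323928)) (a (l 16317184) (l 16298872))) (a (a (l 16362216) (l 16363232)) (a (l 16342896) (l 16322168))))) (c (c (b (a (l 16498640) (l 16455904)) (a (l 16516088) (l 16448744))) (b (a (l 16462776) (l 16418888)) (a (l 16480304) (l 16370696)))) (b (a (a (l 16375624) (l 16395232)) (c (l 16380624) (l 16341112))) (a (c (l 16422320) (l 16363112)) (b (c (l 16405904) (l 16366464)) (a (l 16417944) (l 16397624))))))), by decide +kernel⟩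

def k4_pp_022 : ∃ t, chk3 f_pp_022 t 16 14 1 = true :=
  ⟨(b (a (c (a (a (l 16575896) (l 16585208)) (a (l 16573448) (l 16582552))) (c (a (l 16563096) (l 16559312)) (b (l 16501136) (l 16553088)))) (c (c (l 16548432) (l 16514528)) (b (a (l 16544024) (l 16518384)) (l 16454816)))) (a (b (c (c (l 16646568) (l 16653904)) (a (l 16617712) (l 16591224))) (b (a (a (l 16614368) (l 16605424)) (c (l 16669808) (l 16608424))) (c (l 16628008) (l 16587472)))) (b (a (c (l 16582216) (b (l 16596712) (l 16568320))) (c (b (l 16576144) (l 16579432)) (b (l 16526864) (a (l 16582952) (l 16563952))))) (a (c (l 16588560) (b (l 16589000) (l 16584904))) (c (a (l 16577208) (l 16555440)) (b (l 16548072) (l 16544800))))))), by decide +kernel⟩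

def k5_pp_022 : ∃ t, chk3 f_pp_022 t 17 14 1 = true :=
  ⟨(b (a (c (b (l 16448376) (a (l 16549832) (b (l 16559992) (a (l 16580224) (l 16566808))))) (b (a (l 16492200) (l 16466192)) (a (l 16456384) (b (l 16487696) (a (l 16510072) (l 16500000)))))) (c (b (a (l 16474848) (b (l 16487480) (l 16478520))) (a (b (l 16515264) (a (b (l 16552200) (l 16551840)) (b (l 16536784) (l 16530960)))) (c (b (b (l 16523320) (l 348999055367)) (l 208875702887)) (b (b (l 16493792) (l 359199554759)) (l 214244366935))))) (b (a (b (l 16436648) (l 16452408)) (a (l 16431736) (l 16423360))) (a (b (l 16469840) (a (b (l 16487480) (l 16489192)) (b (l 16475184) (l 16471576)))) (b (a (b (l 16452408) (l 16449520)) (c (l 406981061975) (l 406981007735))) (c (l 214244320887) (l 212633660615))))))) (a (b (a (b (c (b (l 16566928) (l 16546552)) (a (l 16525464) (l 16532024))) (c (l 16560088) (l 16537104))) (c (b (a (l 16561640) (l 16562208)) (a (l 16570024) (l 16527016))) (b (a (l 16517040) (l 16500016)) (a (l 16509840) (l 16490832)))))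 (a (b (c (l 16527704) (l 16468536)) (b (c (l 16519056) (l 16485328)) (l 6))) (b (c (c (l 226592530919) (l 231961197463)) (a (l 308733701175) (l 373695118023))) (a (c (c (l 16534208) (l 344167260935)) (b (l 16496224) (l 306049406647))) (l 1))))) (b (b (b (a (c (l 16491824) (l 291553747927)) (c (l 234645450535) (l 229276656311))) (a (c (l 240551095831) (l 243772228567)) (l 1))) (a (a (c (l 216391928439) (l 286185137351)) (c (l 241624823335) (l 280816396103))) (l 1))) (b (a (a (c (l 234645582359) (l 267394644023)) (l 1)) (l 1)) (l 1))))), by decide +kernel⟩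

def k6_pp_022 : ∃ t, chk3 f_pp_022 t 8 15 1 = true :=
  ⟨(a (l 6) (a (a (l 6) (b (l 1) (l 1))) (l 1))), by decide +kernel⟩

def k7_pp_022 : ∃ t, chk3 f_pp_022 t 9 3 1 = true :=
  ⟨(b (b (a (c (b (a (l 16348752) (l 16311344)) (a (c (l 16387280) (l 16349616)) (c (l 16345944) (l 16310088)))) (a (b (l 16270872) (c (l 16310688) (l 16270520))) (b (a (l 16241880) (l 16223448)) (c (l 16273096) (l 16234976))))) (a (b (c (l 16274456) (a (l 16209408) (l 16199488))) (c (a (l 16298712) (l 16279136)) (a (l 16234248) (l 16222328)))) (b (c (l 471405035079) (l 509522897975)) (l 1)))) (a (a (b (c (c (l 16411944) (l 16375448)) (c (l 16337768) (l 16298928))) (b (c (a (l 16428488) (l 16406536)) (a (l 16355152) (l 16340136))) (c (a (l 16448048) (l 485364185063)) (a (l 16381536) (l 471942300967))))) (a (b (c (l 16361664) (l 16293152)) (b (c (l 16405200) (l 16346400)) (l 1))) (b (c (l 530998046279) (b (l 16270280) (l 16288656))) (l 1)))) (b (a (a (c (l 538514201127) (l 524018587159)) (l 1)) (l 1)) (l 1)))) (b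 (a (b (a (b (a (a (c (l 491269847239) (l 483753537463)) (c (l 731251121527) (l 758631428583))) (b (c (l 669510927751) (l 691522531735)) (l 1))) (a (a (a (b (c (l 528313958439) (l 529924460791)) (l 1)) (l 1)) (l 1)) (l 1))) (l 1)) (l 1)) (l 1)) (l 1))), by decide +kernel⟩

def k8_pp_022 : ∃ t, chk3 f_pp_022 t 5 3 1 = true :=
  ⟨(b (l 1) (l 1)), by decide +kernel⟩

def k9_pp_022 : ∃ t, chk3 f_pp_022 t 3 1 1 = true :=
  ⟨(l 1), by decide +kernel⟩

theorem s10_pp_022 : ∃ t, chk3 f_pp_022 t 8 14 1 = true := ex3_a k4_pp_022 k5_pp_022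

theorem s11_pp_022 : ∃ t, chk3 f_pp_022 t 8 7 1 = true := ex3_b s10_pp_022 k6_pp_022

theorem s12_pp_022 : ∃ t, chk3 f_pp_022 t 8 6 1 = true := ex3_a k2_pp_022 k3_pp_022

theorem s13_pp_022 : ∃ t, chk3 f_pp_022 t 8 3 1 = true := ex3_b s12_pp_022 s11_pp_022

theorem s14_pp_022 : ∃ t, chk3 f_pp_022 t 4 3 1 = true := ex3_a s13_pp_022 k7_pp_022

theorem s15_pp_022 : ∃ t, chk3 f_pp_022 t 2 3 1 = true := ex3_a s14_pp_022 k8_pp_022

theorem s16_pp_022 : ∃ t, chk3 f_pp_022 t 2 2 1 = true := ex3_a k0_pp_022 k1_pp_022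

theorem s17_pp_022 : ∃ t, chk3 f_pp_022 t 2 1 1 = true := ex3_b s16_pp_022 s15_pp_022

theorem s18_pp_022 : ∃ t, chk3 f_pp_022 t 1 1 1 = true := ex3_a s17_pp_022 k9_pp_022

theorem c_pp_022 : CertB 0 536870912 0 536870912 991146299 28908434 3 eng mog cd2q0 cd0q2 pd2 false true true .pp 0 2 2
    ndB2q0 ndB0q2 pcB2 cut_pp_022 Ext.none :=
  certB2 (fam := false) (s1 := true) (s2 := true) (a := 0) (b := 2) (c := 2) (cn := .pp) (n1 := ndB2q0) (n2 := ndB0q2) (pc := pcB2) (cut := cut_pp_022) (xt := Ext.none) (P1 := 0) (W1 := 536870912) (P2 := 0) (W2 := 536870912) (P3 := 991146299) (W3 := 28908434) (N0 := 3) (En := eng) (mo := mog) (C1 := cd2q0) (C2 := cd0q2) (C3 := pd2)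
    rfl (fun _ => rfl) s18_pp_022

noncomputable def f_pp_101 : ℕ → ℕ → ℕ → ℕ → Bool := onCell 536870912 536870912 536870912 536870912 991146299 28908434
    (rowB 3 eng mog cd2q1 cd0q1 pd0 0 false true true .npn 1 0 1 (qsf 536870912 536870912 536870912 536870912 0) ndB2q1 ndB0q1 pcB0 Cut.none Ext.none)

def k0_pp_101 : ∃ t, chk3 f_pp_101 t 1 1 1 = true :=
  ⟨(l 3), by decide +kernel⟩

theorem c_pp_101 : CertB 536870912 536870912 536870912 536870912 991146299 28908434 3 eng mog cd2q1 cd0q1 pd0 false true true .npn 1 0 1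
    ndB2q1 ndB0q1 pcB0 Cut.none Ext.none :=
  certB0 (fam := false) (s1 := true) (s2 := true) (a := 1) (b := 0) (c := 1) (cn := .npn) (n1 := ndB2q1) (n2 := ndB0q1) (pc := pcB0) (cut := Cut.none) (xt := Ext.none) (P1 := 536870912) (W1 := 536870912) (P2 := 536870912) (W2 := 536870912) (P3 := 991146299) (W3 := 28908434) (N0 := 3) (En := eng) (mo := mog) (C1 := cd2q1) (C2 := cd0q1) (C3 := pd0)
    rfl k0_pp_101

noncomputable def f_pp_102 : ℕ → ℕ → ℕ → ℕ → Bool := onCell 0 536870912 0 536870912 991146299 28908434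
    (rowB 3 eng mog cd2q1 cd0q2 pd0 2 false true true .npp 1 0 2 (qsf 536870912 536870912 0 536870912 0) ndB2q1 ndB0q2 pcB0 Cut.none Ext.none)

def k0_pp_102 : ∃ t, chk3 f_pp_102 t 2 2 1 = true :=
  ⟨(b (a (l 2) (a (a (a (l 2) (b (b (l 16429792) (l 16331912)) (b (l 16326120) (b (l 16310584) (c (l 16321744) (l 16281872)))))) (b (b (l 16495680) (c (l 16454256) (l 16513616))) (c (b (l 16441864) (a (l 16397408) (l 16470872))) (b (l 16442440) (a (l 16332200) (l 16460928)))))) (b (a (b (l 16430528) (l 16397736)) (c (l 16154104) (l 16086488))) (a (c (l 16457160) (l 16374528)) (c (l 16400920) (l 16350528)))))) (b (a (l 2) (a (a (b (b (a (l 2) (l 16292976)) (a (a (l 2) (a (l 2) (c (l 105863238279) (l 16216024)))) (a (c (l 16264088) (l 16246016)) (l 16304080)))) (b (c (a (a (l 2) (a (l 2) (a (l 242832375559) (l 233705627943)))) (b (a (a (l 235853091415) (l 249274938887)) (l 16293824)) (a (l 3) (b (l 258938586535) (l 258401752423))))) (a (l 256790894375) (a (l 240684873703) (l 253032965703)))) (l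 3))) (c (b (a (l 16382160) (l 16455840)) (a (a (b (l 252496234935) (l 265381140551)) (b (l 16382688) (l 232632053927))) (b (l 16434432) (a (l 238000798103) (l 234779607175))))) (b (a (l 16349680) (l 16430544)) (a (b (l 234242471415) (l 260012404231)) (b (l 16410496) (l 232095122439)))))) (a (b (b (a (l 16523880) (l 16547584)) (l 16459872)) (a (b (l 16472272) (c (l 16444456) (l 16469832))) (l 16469448))) (b (c (a (l 16443592) (l 16387224)) (a (l 16474576) (l 16386808))) (a (l 16509128) (l 16427456)))))) (a (l 3) (a (a (l 3) (a (l 3) (a (l 3) (a (l 3) (b (l 269139411159) (l 3)))))) (b (c (a (a (a (l 227800410695) (l 229947926871)) (b (l 232632264375) (l 450601965591))) (a (b (l 16535008) (l 207399401431)) (b (l 16459512) (l 217599766903)))) (a (a (l 237463978647) (l 237464066359)) (a (l 220284231863) (l 229410868103)))) (a (l 3) (a (l 3) (c (l 207936168423) (l 213304937815))))))))), by decide +kernel⟩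

def k1_pp_102 : ∃ t, chk3 f_pp_102 t 2 3 1 = true :=
  ⟨(l 3), by decide +kernel⟩

def k2_pp_102 : ∃ t, chk3 f_pp_102 t 3 2 1 = true :=
  ⟨(a (b (a (b (c (b (l 15845456) (l 16153992)) (a (l 16048608) (l 15877048))) (c (a (l 16249944) (l 16109264)) (a (l 16170512) (l 16002768)))) (b (c (b (l 15845200) (l 15890424)) (b (l 15620240) (l 15683776))) (c (l 15688248) (a (l 15848032) (l 15707096))))) (b (c (a (a (b (l 16276608) (l 16311784)) (b (l 16135472) (l 16166000))) (b (l 15800800) (a (l 16034536) (l 15916056)))) (a (a (b (l 16174616) (l 16305664)) (b (l 16091912) (l 16143728))) (b (a (l 15938984) (l 15799600)) (a (l 15997032) (l 15862800))))) (a (a (b (a (b (l 16383016) (c (l 16410344) (l 16403088))) (b (l 16307352) (l 16332480))) (b (a (c (b (l 16449320) (l 196125023367)) (l 214378434055)) (c (l 102709356727) (l 16348944))) (a (l 3) (c (l 199346087975) (l 199882978039))))) (b (a (l 16267832) (l 16175840)) (b (a (c (l 16298576) (l 16274512)) (l 16217464)) (a (c (b (l 16329376) (l 187534840599))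 (l 185387334199)) (c (l 148880019095) (l 16228056)))))) (a (b (c (l 16091912) (l 16054840)) (a (c (l 16205016) (l 16145040)) (c (l 16122592) (l 16077192)))) (b (l 16008200) (c (b (l 16018024) (l 16050688)) (l 15980016))))))) (b (a (b (c (b (l 15638784) (l 15675424)) (b (l 15366120) (l 15430064))) (c (l 15706336) (a (l 15580696) (l 15469424)))) (b (c (l 15492528) (l 15205280)) (c (l 15545032) (l 15332296)))) (a (b (c (b (l 15737560) (a (l 15788744) (l 15714504))) (b (l 15616672) (a (l 15739496) (l 15625672)))) (b (a (l 15827576) (c (l 15732360) (l 15684248))) (a (c (l 15924184) (l 15859360)) (c (l 15823392) (l 15750168))))) (b (c (b (l 15577152) (l 15599104)) (a (l 15496936) (l 15415120))) (b (c (b (a (l 15654128) (l 15584768)) (a (l 15681664) (l 15603704))) (a (l 15588088) (l 15486320))) (a (l 15693504) (l 15612024))))))), by decide +kernel⟩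

def k3_pp_102 : ∃ t, chk3 f_pp_102 t 3 3 1 = true :=
  ⟨(b (b (a (a (a (l 3) (b (b (a (l 3) (c (l 213841397271) (l 210083260407))) (l 3)) (l 3))) (a (b (b (a (c (b (l 16221160) (l 222431225735)) (l 171428438311)) (c (l 142437359655) (l 16119496))) (a (l 3) (c (l 244979709271) (l 254643303655)))) (l 3)) (b (a (b (c (l 16111680) (l 16055856)) (c (l 154248438023) (l 158006437847))) (c (b (l 16055544) (l 126867919879)) (l 16008104))) (a (l 3) (b (l 268601845143) (l 3)))))) (a (a (b (c (a (l 16018400) (l 15966472)) (l 15963104)) (b (c (a (l 146732067015) (l 15994320)) (l 135994556439)) (l 3))) (a (b (l 15909720) (b (l 15948904) (l 226188805015))) (b (l 15828832) (c (l 94655366311) (l 15848592))))) (a (b (c (l 15801976) (l 15716504)) (c (a (l 15871656) (l 15849704)) (l 15779760))) (c (b (l 15721328) (l 15788760)) (b (l 15631592) (l 15694576)))))) (a (l 3) (a (l 3) (b (a (c (b (l 196660777655) (l 3)) (l 215451122711)) (c (b (l 15816208) (l 137605164295)) (l 94118158183))) (l 3))))) (l 3)), by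 decide +kernel⟩

theorem s4_pp_102 : ∃ t, chk3 f_pp_102 t 3 1 1 = true := ex3_b k2_pp_102 k3_pp_102

theorem s5_pp_102 : ∃ t, chk3 f_pp_102 t 2 1 1 = true := ex3_b k0_pp_102 k1_pp_102

theorem s6_pp_102 : ∃ t, chk3 f_pp_102 t 1 1 1 = true := ex3_a s5_pp_102 s4_pp_102

theorem c_pp_102 : CertB 536870912 536870912 0 536870912 991146299 28908434 3 eng mog cd2q1 cd0q2 pd0 false true true .npp 1 0 2
    ndB2q1 ndB0q2 pcB0 Cut.none Ext.none :=
  certB2 (fam := false) (s1 := true) (s2 := true) (a := 1) (b := 0) (c := 2) (cn := .npp) (n1 := ndB2q1) (n2 := ndB0q2) (pc := pcB0) (cut := Cut.none) (xt := Ext.none) (P1 := 536870912) (W1 := 536870912) (P2 := 0) (W2 := 536870912) (P3 := 991146299) (W3 := 28908434) (N0 := 3) (En := eng) (mo := mog) (C1 := cd2q1) (C2 := cd0q2) (C3 := pd0)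
    rfl (fun _ => rfl) s6_pp_102

noncomputable def f_pp_112 : ℕ → ℕ → ℕ → ℕ → Bool := onCell 536870912 536870912 0 536870912 991146299 28908434
    (rowB 3 eng mog cd2q1 cd0q2 pd1 2 false true true .dn 1 1 2 (qsf 536870912 536870912 0 536870912 1) ndB2q1 ndB0q2 pcB1 Cut.none Ext.none)

def k0_pp_112 : ∃ t, chk3 f_pp_112 t 1 1 1 = true :=
  ⟨(a (b (a (b (a (b (b (a (l 14610960) (l 14605912)) (l 14846048)) (a (l 15295280) (l 15185432))) (b (a (l 14717296) (l 14720072)) (a (l 15142968) (l 15105176)))) (b (a (a (b (l 15607280) (l 15855880)) (b (l 15533360) (l 15764848))) (a (b (l 15462704) (l 15676112)) (b (l 15395688) (l 15590200)))) (a (b (a (b (l 16040248) (c (l 16190152) (l 16068528))) (b (l 15937160) (l 15817392))) (a (l 16087488) (c (l 16107424) (l 15984032)))) (a (b (l 15888624) (c (l 16032176) (l 15924600))) (b (l 15784536) (b (c (l 15987056) (l 15852920)) (l 15928760))))))) (a (a (b (b (l 14728288) (l 15072312)) (b (l 15651376) (b (l 15682928) (b (l 15814216) (l 1))))) (b (b (l 1)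 (l 1)) (l 1))) (l 1))) (b (a (a (b (b (a (l 15840336) (l 15936632)) (a (c (l 15938800) (l 15830952)) (c (l 15919112) (l 15807104)))) (b (a (c (a (l 101634491703) (l 15811056)) (a (l 15740592) (l 15728712))) (c (l 15821064) (l 15715320))) (b (a (l 167132576999) (a (l 135457093063) (c (l 15751072) (l 15649192)))) (l 3)))) (b (a (c (b (l 15980672) (l 15893680)) (l 15818648)) (c (l 15794120) (l 15777296))) (b (a (c (l 15805008) (l 15696536)) (c (l 15762144) (l 15672592))) (a (a (b (l 15669456) (l 138141692663)) (b (l 15662272) (l 1))) (l 1))))) (l 1)) (a (a (l 3) (a (l 3) (l 1))) (l 1)))) (l 1)), by decide +kernel⟩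

theorem c_pp_112 : CertB 536870912 536870912 0 536870912 991146299 28908434 3 eng mog cd2q1 cd0q2 pd1 false true true .dn 1 1 2
    ndB2q1 ndB0q2 pcB1 Cut.none Ext.none :=
  certB2 (fam := false) (s1 := true) (s2 := true) (a := 1) (b := 1) (c := 2) (cn := .dn) (n1 := ndB2q1) (n2 := ndB0q2) (pc := pcB1) (cut := Cut.none) (xt := Ext.none) (P1 := 536870912) (W1 := 536870912) (P2 := 0) (W2 := 536870912) (P3 := 991146299) (W3 := 28908434) (N0 := 3) (En := eng) (mo := mog) (C1 := cd2q1) (C2 := cd0q2) (C3 := pd1)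
    rfl (fun _ => rfl) k0_pp_112

noncomputable def f_pp_202_a : ℕ → ℕ → ℕ → ℕ → Bool := onCell 0 536870912 0 536870912 991146299 28908434
    (rowB 3 eng mog cd2q2a cd0q2 pd0 0 false true true .pp 2 0 2 (qsf 0 536870912 0 536870912 0) ndB2q2a ndB0q2 pcB0 Cut.none Ext.none)

def k0_pp_202_a : ∃ t, chk3 f_pp_202_a t 1 1 1 = true :=
  ⟨(l 3), by decide +kernel⟩

theorem c_pp_202_a : CertB 0 536870912 0 536870912 991146299 28908434 3 eng mog cd2q2a cd0q2 pd0 false true true .pp 2 0 2
    ndB2q2a ndB0q2 pcB0 Cut.none Ext.none :=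
  certB0 (fam := false) (s1 := true) (s2 := true) (a := 2) (b := 0) (c := 2) (cn := .pp) (n1 := ndB2q2a) (n2 := ndB0q2) (pc := pcB0) (cut := Cut.none) (xt := Ext.none) (P1 := 0) (W1 := 536870912) (P2 := 0) (W2 := 536870912) (P3 := 991146299) (W3 := 28908434) (N0 := 3) (En := eng) (mo := mog) (C1 := cd2q2a) (C2 := cd0q2) (C3 := pd0)
    rfl k0_pp_202_a

noncomputable def f_pp_202_b : ℕ → ℕ → ℕ → ℕ → Bool := onCell 1239849684 370763052 0 536870912 991146299 28908434
    (rowB 3 eng mog cd2q2b cd0q2 pd0 0 false true true .pp 2 0 2 (qsf 1239849684 370763052 0 536870912 0) ndB2q2b ndB0q2 pcB0 Cut.none Ext.none)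

def k0_pp_202_b : ∃ t, chk3 f_pp_202_b t 1 1 1 = true :=
  ⟨(l 3), by decide +kernel⟩

theorem c_pp_202_b : CertB 1239849684 370763052 0 536870912 991146299 28908434 3 eng mog cd2q2b cd0q2 pd0 false true true .pp 2 0 2
    ndB2q2b ndB0q2 pcB0 Cut.none Ext.none :=
  certB0 (fam := false) (s1 := true) (s2 := true) (a := 2) (b := 0) (c := 2) (cn := .pp) (n1 := ndB2q2b) (n2 := ndB0q2) (pc := pcB0) (cut := Cut.none) (xt := Ext.none) (P1 := 1239849684) (W1 := 370763052) (P2 := 0) (W2 := 536870912) (P3 := 991146299) (W3 := 28908434) (N0 := 3) (En := eng) (mo := mog) (C1 := cd2q2b) (C2 := cd0q2) (C3 := pd0)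
    rfl k0_pp_202_b

noncomputable def f_pm_001 : ℕ → ℕ → ℕ → ℕ → Bool := onCell 0 536870912 0 536870912 991146299 28908434
    (rowB 3 eng mog cd2q0 cd0q1 pd0 1 false true false .up 0 0 1 (qsf 0 536870912 536870912 536870912 0) ndB2q0 ndB0q1 pcB0 Cut.none Ext.none)

def k0_pm_001 : ∃ t, chk3 f_pm_001 t 1 1 1 = true :=
  ⟨(a (l 4) (b (l 4) (l 4))), by decide +kernel⟩

theorem c_pm_001 : CertB 0 536870912 536870912 536870912 991146299 28908434 3 eng mog cd2q0 cd0q1 pd0 false true false .up 0 0 1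
    ndB2q0 ndB0q1 pcB0 Cut.none Ext.none :=
  certB1 (fam := false) (s1 := true) (s2 := false) (a := 0) (b := 0) (c := 1) (cn := .up) (n1 := ndB2q0) (n2 := ndB0q1) (pc := pcB0) (cut := Cut.none) (xt := Ext.none) (P1 := 0) (W1 := 536870912) (P2 := 536870912) (W2 := 536870912) (P3 := 991146299) (W3 := 28908434) (N0 := 3) (En := eng) (mo := mog) (C1 := cd2q0) (C2 := cd0q1) (C3 := pd0)
    rfl (fun _ => rfl) k0_pm_001

noncomputable def cut_pm_011 : Cut := Cut.of [[⟨0, 0, 0, 53687091⟩, ⟨1, 1, 0, 53687091⟩, ⟨2, 1, 0, 53687091⟩]]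

noncomputable def f_pm_011 : ℕ → ℕ → ℕ → ℕ → Bool := onCell 0 536870912 536870912 536870912 991146299 28908434
    (rowB 3 eng mog cd2q0 cd0q1 pd1 0 false true false .pnn 0 1 1 (qsf 0 536870912 536870912 536870912 1) ndB2q0 ndB0q1 pcB1 cut_pm_011 Ext.none)

def k0_pm_011 : ∃ t, chk3 f_pm_011 t 1 1 1 = true :=
  ⟨(b (l 4) (a (b (l 4) (a (b (l 4) (a (b (l 4) (a (b (l 4) (l 6)) (l 4))) (l 4))) (l 4))) (l 4))), by decide +kernel⟩

theorem c_pm_011 : CertB 0 536870912 536870912 536870912 991146299 28908434 3 eng mog cd2q0 cd0q1 pd1 false true false .pnn 0 1 1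
    ndB2q0 ndB0q1 pcB1 cut_pm_011 Ext.none :=
  certB0 (fam := false) (s1 := true) (s2 := false) (a := 0) (b := 1) (c := 1) (cn := .pnn) (n1 := ndB2q0) (n2 := ndB0q1) (pc := pcB1) (cut := cut_pm_011) (xt := Ext.none) (P1 := 0) (W1 := 536870912) (P2 := 536870912) (W2 := 536870912) (P3 := 991146299) (W3 := 28908434) (N0 := 3) (En := eng) (mo := mog) (C1 := cd2q0) (C2 := cd0q1) (C3 := pd1)
    rfl k0_pm_011

noncomputable def cut_pm_012 : Cut := Cut.of [[⟨0, 0, 0, 53687091⟩, ⟨1, 1, 0, 53687091⟩, ⟨2, 1, 0, 53687091⟩]]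

noncomputable def xt_pm_012 : Ext := extD3 3 ⟨4, 1, 1, 5, 22, 5, 21, 25, 41, 100, 1, 20⟩ eng cd2q0 cd0q2 pd1 false true false .pnp 0 1 2 rfl ndB2q0 ndB0q2 pcB1

noncomputable def f_pm_012 : ℕ → ℕ → ℕ → ℕ → Bool := onCell 536870912 536870912 0 536870912 991146299 28908434
    (rowB 3 eng mog cd2q0 cd0q2 pd1 2 false true false .pnp 0 1 2 (qsf 0 536870912 0 536870912 1) ndB2q0 ndB0q2 pcB1 cut_pm_012 xt_pm_012)

def k0_pm_012 : ∃ t, chk3 f_pm_012 t 1 2 1 = true :=
  ⟨(a (a (b (l 2) (b (l 2) (a (l 2) (b (l 2) (l 15597200))))) (b (a (b (a (l 15292264) (l 15338824)) (c (l 15545088) (l 15267288))) (b (a (l 15403256) (l 15485064)) (c (l 15610040) (l 15343040)))) (a (b (l 15314360) (a (l 15675608) (l 15643544))) (c (l 15673192) (b (l 15423176) (l 15526440)))))) (a (b (a (b (a (l 15583592) (l 15698024)) (c (l 15736904) (l 15495048))) (b (a (l 15827392) (l 15970608)) (a (l 15766680) (l 15886376)))) (a (c (l 15622768) (b (l 15516240) (l 15567344))) (a (b (l 15734736) (l 15735560)) (b (l 15826776)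 (l 15803464))))) (a (b (b (a (l 15979736) (c (l 16358824) (l 16226928))) (a (l 16021608) (l 16087696))) (a (b (l 15934928) (l 15888176)) (b (l 16058736) (l 15989560)))) (b (b (a (l 16242208) (c (l 16466360) (l 16541072))) (a (l 16209624) (l 16386424))) (a (b (c (l 16249760) (l 16143584)) (l 16002496)) (b (l 16183064) (b (l 16197856) (l 16178328)))))))), by decide +kernel⟩

def k1_pm_012 : ∃ t, chk3 f_pm_012 t 2 3 1 = true :=
  ⟨(b (a (a (l 2) (b (l 15822808) (b (l 15879344) (l 15724952)))) (a (b (a (l 15783408) (l 15760336)) (b (l 15852168) (l 15653536))) (b (a (l 15744720) (l 15736104)) (a (b (l 15839008) (l 15908656)) (l 15873232))))) (b (b (a (a (l 15847608) (l 15793504)) (a (a (l 15896904) (l 15916312)) (a (l 15940944) (l 15967552)))) (a (a (l 15534936) (a (l 15807976) (l 15831400))) (a (a (l 15861256) (l 15770864)) (a (l 15727032) (l 57141017447))))) (b (a (a (a (l 15637120) (l 15607680)) (a (l 15585136) (l 4))) (l 4)) (l 4)))), by decide +kernel⟩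

def k2_pm_012 : ∃ t, chk3 f_pm_012 t 6 3 1 = true :=
  ⟨(b (a (b (b (l 15714504) (a (l 15760280) (l 15768000))) (a (l 15873632) (b (l 15830792) (l 15922576)))) (a (b (l 15776728) (b (l 15843232) (l 15929928))) (b (l 15824520) (c (b (l 15946472) (l 15900064)) (b (l 15815792) (l 15886520)))))) (a (b (b (a (l 15929720) (a (l 16011384) (l 16022336))) (a (c (l 16116872) (l 15935016)) (c (l 16155672) (l 15992016)))) (l 4)) (a (b (b (b (l 16013224) (l 16065664)) (b (l 16101376) (l 118881576567))) (l 4)) (b (b (b (l 16026688) (a (l 16084424) (l 16094880))) (b (l 15976904) (c (l 16250056) (l 16127872)))) (b (b (a (l 4) (l 16270040)) (l 4)) (l 4)))))), by decide +kernel⟩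

def k3_pm_012 : ∃ t, chk3 f_pm_012 t 7 6 1 = true :=
  ⟨(a (b (a (l 15889928) (l 15931208)) (a (b (l 15927224) (c (b (l 16011248) (l 16050856)) (l 15929032))) (b (l 15999712) (l 16042008)))) (c (b (a (l 16118216) (l 16141584)) (a (l 16146728) (b (l 16229776) (l 16176440)))) (b (a (l 16028928) (l 16054992)) (a (l 15947768) (a (l 16161048) (l 16142560)))))), by decide +kernel⟩

def k4_pm_012 : ∃ t, chk3 f_pm_012 t 7 7 1 = true :=
  ⟨(a (b (a (a (b (l 16070664) (b (l 16170976) (l 16225192))) (b (b (l 16048200) (l 16112944)) (c (l 16218384) (c (l 16192080) (l 16144824))))) (b (c (a (l 16141168) (l 16165296)) (a (l 16058952) (l 16090880))) (c (a (l 16117984) (b (l 16238760) (l 16311832))) (b (l 16164944) (a (l 16184936) (l 16160904)))))) (b (a (b (a (l 16187544) (l 150557409879)) (l 4)) (c (a (l 189212349783) (b (l 16357320) (l 16443864))) (a (l 195654599319) (b (b (l 16312024) (l 16340040)) (l 16327072))))) (l 4))) (b (a (b (a (l 16165976) (l 16213360)) (a (c (b (l 16260968) (l 16324328))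 (l 16178848)) (b (l 16274296) (c (l 16349648) (l 16309160))))) (b (a (l 16266168) (a (l 16309168) (l 16339680))) (a (b (l 16326968) (l 16377296)) (a (l 16353600) (b (l 16400768) (l 16451688)))))) (a (b (c (a (b (c (l 16414432) (l 16391232)) (l 16431400)) (b (a (l 16412144) (l 16422080)) (a (l 16423360) (b (l 16485568) (l 16535768))))) (a (b (a (l 16288408) (l 16297992)) (l 230014706983)) (b (a (l 16329888) (l 16392280)) (a (a (l 16463432) (l 16371760)) (c (l 16447640) (l 582054003049265390693631)))))) (a (l 4) (a (l 4) (b (c (l 281017836599) (l 288533970935)) (l 4))))) (b (a (b (a (b (l 16405768) (l 16399808)) (l 16449912)) (b (c (a (l 16493448) (l 16509016)) (l 16443584)) (a (c (l 16538064) (l 585387387939622892285567)) (l 6)))) (b (a (l 16479712) (l 6)) (l 6))) (a (b (a (a (b (l 284239049367) (l 4)) (l 6)) (l 6)) (l 4)) (l 6)))))), by decide +kernel⟩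

theorem s5_pm_012 : ∃ t, chk3 f_pm_012 t 7 3 1 = true := ex3_b k3_pm_012 k4_pm_012

theorem s6_pm_012 : ∃ t, chk3 f_pm_012 t 3 3 1 = true := ex3_a k2_pm_012 s5_pm_012

theorem s7_pm_012 : ∃ t, chk3 f_pm_012 t 1 3 1 = true := ex3_a k1_pm_012 s6_pm_012

theorem s8_pm_012 : ∃ t, chk3 f_pm_012 t 1 1 1 = true := ex3_b k0_pm_012 s7_pm_012

theorem c_pm_012 : CertB 0 536870912 0 536870912 991146299 28908434 3 eng mog cd2q0 cd0q2 pd1 false true false .pnp 0 1 2
    ndB2q0 ndB0q2 pcB1 cut_pm_012 xt_pm_012 :=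
  certB2 (fam := false) (s1 := true) (s2 := false) (a := 0) (b := 1) (c := 2) (cn := .pnp) (n1 := ndB2q0) (n2 := ndB0q2) (pc := pcB1) (cut := cut_pm_012) (xt := xt_pm_012) (P1 := 0) (W1 := 536870912) (P2 := 0) (W2 := 536870912) (P3 := 991146299) (W3 := 28908434) (N0 := 3) (En := eng) (mo := mog) (C1 := cd2q0) (C2 := cd0q2) (C3 := pd1)
    rfl (fun _ => rfl) s8_pm_012

noncomputable def cut_pm_022 : Cut := Cut.of [[⟨0, 0, 0, 53687091⟩, ⟨1, 1, 0, 53687091⟩, ⟨2, 1, 0, 53687091⟩]]

noncomputable def f_pm_022 : ℕ → ℕ → ℕ → ℕ → Bool := onCell 0 536870912 0 536870912 991146299 28908434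
    (rowB 3 eng mog cd2q0 cd0q2 pd2 0 false true false .pp 0 2 2 (qsf 0 536870912 0 536870912 2) ndB2q0 ndB0q2 pcB2 cut_pm_022 Ext.none)

def k0_pm_022 : ∃ t, chk3 f_pm_022 t 4 2 1 = true :=
  ⟨(b (b (a (a (a (c (l 16187024) (l 16150800)) (l 16154904)) (c (l 16186400) (l 16111128))) (a (c (l 16191440) (l 16096696)) (c (l 16199152) (l 16085848)))) (a (a (a (c (l 16170208) (l 16128592)) (c (l 16158408) (l 16090640))) (c (a (l 16152904) (l 16149840)) (a (l 16072080) (l 16057360)))) (a (c (b (l 16153152) (a (l 16134648) (l 16136928))) (b (l 16046984) (a (l 16026280) (l 16018560)))) (a (b (l 16090224) (c (l 16144416) (l 15954664))) (b (l 16084464) (c (l 16157752) (l 16024208))))))) (a (b (a (a (b (c (a (l 16152520) (l 16145360)) (b (l 16100200) (l 16093512))) (c (l 16134152) (l 16096968))) (b (c (l 16140192) (l 16062184)) (c (l 16160920) (l 16080944)))) (a (b (c (l 16144160) (l 16055488)) (c (l 16176680) (l 16089368))) (c (l 16133280) (l 15996496)))) (a (a (b (c (a (l 16144880) (l 16172256))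 (a (l 16086896) (l 16102168))) (c (a (c (l 16176672) (l 16145352)) (l 16194608)) (a (c (l 16113112) (l 16079952)) (l 16119688)))) (c (b (l 16186408) (a (l 16209128) (l 16226968))) (b (l 16103736) (a (l 16125120) (l 16141024))))) (c (b (a (l 16213640) (l 16245848)) (a (l 16256728) (l 16299408))) (b (a (l 16126800) (l 16157032)) (a (l 16170696) (l 16214400)))))) (b (a (c (a (l 16132776) (l 16135592)) (a (l 15990880) (l 16010768))) (c (a (l 16140768) (l 16147608)) (a (l 16013072) (l 16017936)))) (a (c (b (l 16194616) (a (l 16344232) (l 16389920))) (b (l 16104984) (l 16138512))) (c (c (l 16204464) (l 16165624)) (b (l 16183400) (a (l 16359448) (l 16409088)))))))), by decide +kernel⟩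

def k1_pm_022 : ∃ t, chk3 f_pm_022 t 5 2 1 = true :=
  ⟨(a (a (b (b (c (l 16146736) (a (l 16080112) (l 16077552))) (b (c (a (l 16153120) (l 16157760)) (a (l 16010032) (l 15921656))) (c (a (l 16177248) (l 16197416)) (a (l 16038904) (l 16054808))))) (b (b (c (l 16231992) (l 16091432)) (c (a (l 16345896) (l 16378312)) (l 16177536))) (a (b (l 16162024) (l 16262152)) (l 1)))) (b (b (l 1) (l 1)) (l 1))) (l 1)), by decide +kernel⟩

def k2_pm_022 : ∃ t, chk3 f_pm_022 t 16 12 1 = true :=
  ⟨(c (a (b (a (b (l 16199080) (a (l 16187288) (l 16218112))) (b (l 16216400) (l 16233696))) (a (b (c (l 16226168) (l 16191176)) (a (c (l 16238944) (l 16204320)) (l 16255920))) (b (l 16253608) (c (l 16295544) (l 16256928))))) (a (b (l 16245392) (a (l 16242664) (l 16298696))) (b (l 16269336) (l 16279440)))) (a (b (a (b (l 16109712) (b (l 16118424) (l 16125152))) (b (l 16138824) (l 16154864))) (a (b (c (l 16155136) (l 16118056)) (c (c (l 16183176) (l 16164664)) (l 16136392))) (b (l 16174064) (l 16217752)))) (b (a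 (l 16159624) (l 16183248)) (a (b (l 16193352) (l 16220040)) (l 16174280))))), by decide +kernel⟩

def k3_pm_022 : ∃ t, chk3 f_pm_022 t 32 13 1 = true :=
  ⟨(b (c (a (b (c (b (l 16262600) (a (l 16287704) (l 16303664))) (b (l 16227080) (l 16254312))) (c (a (b (l 16279224) (l 16292544)) (l 16323896)) (a (b (l 16244624) (l 16258200)) (l 16288192)))) (b (c (l 16321264) (l 16283016)) (c (l 16349984) (l 16312544)))) (a (b (c (b (l 16190496) (l 16202744)) (b (l 16152856) (l 16165192))) (c (a (b (l 16209000) (l 16222848)) (l 16251408)) (a (b (l 16172352) (l 16186472)) (l 16213560)))) (b (c (l 16243584) (l 16202976)) (c (l 16273952) (l 16234200))))) (c (a (b (c (a (a (b (l 16302192) (l 16317072)) (l 16329272)) (l 16353728)) (a (b (a (l 16268496) (l 16298016)) (b (l 16284344) (l 16297616))) (l 16318984))) (a (c (b (b (l 16333656) (l 16347072)) (a (b (l 16345208) (l 16353736)) (l 16380536))) (b (a (b (l 16317000) (l 16304456)) (l 16330536)) (a (b (l 16313128) (l 16322048)) (l 16348264)))) (c (b (l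 16378312) (l 16395752)) (a (l 16348848) (l 16358456))))) (b (c (l 16381888) (l 16345720)) (c (l 16375056) (l 16319680)))) (a (b (b (a (a (c (l 16233816) (l 16198144)) (l 16244768)) (l 16256440)) (a (b (c (l 16249752) (l 16214176)) (c (l 16263320) (l 16228040))) (l 16289488))) (a (a (c (b (b (l 16288504) (l 16271056)) (b (l 16280104) (b (l 16308040) (l 16312776)))) (b (b (l 16227592) (l 16236712)) (c (l 16260152) (l 16242392)))) (c (b (l 16296504) (l 16294064)) (b (l 16261504) (l 16259888)))) (c (a (l 16314784) (l 16323976)) (a (l 16279720) (l 16288488))))) (b (c (l 16308440) (l 16270048)) (c (a (l 16337848) (l 16356432)) (b (l 16300016) (l 16321512))))))), by decide +kernel⟩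

def k4_pm_022 : ∃ t, chk3 f_pm_022 t 33 13 1 = true :=
  ⟨(c (c (b (a (l 16327216) (l 16403760)) (b (l 16375800) (l 16393560))) (b (a (l 16245392) (l 16365320)) (b (l 16339264) (l 16317424)))) (b (a (b (l 16250488) (l 16243048)) (b (l 16286952) (l 16324824))) (a (b (c (l 16343448) (l 16303536)) (c (l 16385376) (l 16347752))) (b (l 16366824) (l 16413184))))), by decide +kernel⟩

def k5_pm_022 : ∃ t, chk3 f_pm_022 t 17 6 1 = true :=
  ⟨(b (c (b (a (l 16265544) (l 16360400)) (a (c (l 16386760) (l 16348280)) (l 16388224))) (b (a (l 16181720) (l 16280584)) (a (c (l 16308480) (l 16267360)) (l 16294592)))) (c (b (a (a (l 16357632) (b (l 16437128) (l 16476576))) (l 16426296)) (a (b (l 16394544) (l 16439184)) (l 16402880))) (b (a (b (l 16324216) (l 16324968)) (a (l 16385176) (l 16467856))) (a (b (l 16350736) (a (l 16461520) (l 16509768))) (a (l 16466600) (l 16575768)))))), by decide +kernel⟩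

def k6_pm_022 : ∃ t, chk3 f_pm_022 t 9 6 1 = true :=
  ⟨(b (a (c (b (l 16231360) (a (l 16492624) (l 16554208))) (b (a (l 16339280) (l 16398720)) (a (l 16427640) (l 16497448)))) (b (c (l 16354504) (l 16298488)) (a (a (l 16352096) (l 16290224)) (l 1)))) (b (b (a (c (l 16434992) (l 16393944)) (c (l 672731847207) (l 16333816))) (a (c (l 16331624) (l 16372888)) (l 1))) (a (c (a (b (l 16507872) (l 16466928)) (l 757020711927)) (a (l 16349544) (l 608307381111))) (l 1)))), by decide +kernel⟩

def k7_pm_022 : ∃ t, chk3 f_pm_022 t 5 6 1 = true :=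
  ⟨(l 1), by decide +kernel⟩

def k8_pm_022 : ∃ t, chk3 f_pm_022 t 32 28 1 = true :=
  ⟨(c (a (b (a (c (b (a (c (l 16374560) (l 16359272)) (l 16398360)) (a (c (l 16392712) (l 16380520)) (l 16396104))) (b (a (b (l 16333840) (l 16345240)) (l 16346024)) (a (a (b (l 16347744) (l 16357624)) (l 16357896)) (l 16365768)))) (c (b (l 16414064) (l 16433256)) (b (l 16382216) (l 16402520)))) (a (c (b (a (b (l 16404904) (l 16414712)) (l 16415632)) (a (b (l 16429960) (l 16440176)) (l 16456944))) (b (a (a (b (l 16367736) (l 16380696)) (l 16388792)) (l 16386464)) (a (a (b (l 16393896) (l 16404712)) (l 16410136)) (l 16429048)))) (c (b (l 16453264) (l 16474064)) (b (l 16423760) (l 16445928))))) (b (c (a (l 16444864) (l 16466168)) (a (l 16412992) (l 16433768))) (c (a (l 16486104) (l 16508608)) (a (l 16456904) (l 16479080))))) (a (b (a (c (b (a (a (b (l 16296640) (l 16306488)) (l 16306400)) (l 16313728)) (a (b (b (l 16316568) (l 16321736)) (b (l 16326976) (l 16334896))) (l 16334544))) (b (a (a (b (l 16263648)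 (l 16276592)) (l 16283936)) (l 16280512)) (a (c (c (l 16304568) (l 16297872)) (b (l 16299880) (l 16290080))) (l 16302424)))) (c (b (l 16349416) (l 16370864)) (b (l 16315664) (l 16338296)))) (a (c (b (a (b (b (l 16340256) (l 16346992)) (c (l 16358776) (l 16343832))) (l 16356432)) (a (b (c (l 16369872) (l 16355248)) (c (l 16381240) (l 16366944))) (l 16400336))) (b (a (b (c (l 16317224) (l 16301544)) (c (l 16328672) (l 16313304))) (l 16346512)) (a (b (c (l 16340416) (l 16325376)) (c (l 16352456) (l 16337768))) (l 16370808)))) (c (b (l 16393384) (l 16416944)) (b (l 16362120) (l 16387128))))) (b (c (a (l 16380144) (l 16400368)) (a (l 16346336) (l 16365960))) (c (a (l 16426816) (l 16448640)) (b (l 16393504) (l 16419880)))))), by decide +kernel⟩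

def k9_pm_022 : ∃ t, chk3 f_pm_022 t 33 28 1 = true :=
  ⟨(c (b (a (c (l 16498152) (l 16465440)) (c (l 16540832) (l 16510896))) (a (a (l 16474344) (l 16497088)) (l 16490240))) (a (b (c (l 16431680) (l 16396888)) (c (l 16461320) (l 16450856))) (b (l 16422184) (l 16435688)))), by decide +kernel⟩

def k10_pm_022 : ∃ t, chk3 f_pm_022 t 16 29 1 = true :=
  ⟨(b (a (b (a (a (a (c (a (c (b (l 16437216) (l 16447840)) (b (l 16415784) (l 16427104))) (c (l 16458848) (l 16437704))) (c (b (c (l 16392872) (l 16378936)) (c (l 16404792) (l 16391232))) (b (c (l 16364808) (l 16350488)) (c (l 16377480) (l 16363536))))) (c (c (l 16478136) (l 16451648)) (c (l 16424384) (l 16396352)))) (c (c (l 16495720) (l 16469064)) (c (l 16441616) (l 16413376)))) (c (a (l 16463880) (l 16529120)) (c (l 16476104) (l 16447496)))) (b (c (a (a (c (c (l 16473864) (l 16471888)) (a (a (l 16443936) (l 16460360)) (l 16469264))) (c (l 16512536) (l 16487080))) (a (l 16523720) (l 16547488))) (a (a (a (b (c (l 16417792) (l 16390880))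 (c (l 16424064) (l 16398864))) (a (l 16426936) (l 16432800))) (c (l 16460872) (l 16433904))) (a (l 16471000) (l 16494528)))) (l 6))) (a (c (a (l 16501976) (l 16525928)) (c (l 16495192) (l 16467648))) (c (l 16541784) (l 16474608)))) (l 6)), by decide +kernel⟩

def k11_pm_022 : ∃ t, chk3 f_pm_022 t 16 15 1 = true :=
  ⟨(l 6), by decide +kernel⟩

def k12_pm_022 : ∃ t, chk3 f_pm_022 t 17 7 1 = true :=
  ⟨(a (b (b (b (c (l 16487280) (l 16394320)) (c (l 16475896) (a (l 16532064) (l 16628040)))) (b (c (a (l 16622968) (l 16559864)) (a (l 16594920) (l 16572520))) (l 6))) (l 6)) (b (b (c (c (l 13454600519) (l 16426552)) (a (l 16468528) (l 16381424))) (a (c (b (l 16495384) (l 16455016)) (b (l 16518136) (l 16446040))) (b (c (l 16429608) (l 16446440)) (l 1)))) (l 1))), by decide +kernel⟩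

def k13_pm_022 : ∃ t, chk3 f_pm_022 t 9 7 1 = true :=
  ⟨(b (a (b (a (c (b (l 16381416) (l 16335336)) (b (l 16424000) (l 16332784))) (l 1)) (l 1)) (l 1)) (l 1)), by decide +kernel⟩

def k14_pm_022 : ∃ t, chk3 f_pm_022 t 5 7 1 = true :=
  ⟨(l 1), by decide +kernel⟩

def k15_pm_022 : ∃ t, chk3 f_pm_022 t 3 1 1 = true :=
  ⟨(l 1), by decide +kernel⟩

theorem s16_pm_022 : ∃ t, chk3 f_pm_022 t 16 28 1 = true := ex3_a k8_pm_022 k9_pm_022

theorem s17_pm_022 : ∃ t, chk3 f_pm_022 t 16 14 1 = true := ex3_b s16_pm_022 k10_pm_022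

theorem s18_pm_022 : ∃ t, chk3 f_pm_022 t 16 7 1 = true := ex3_b s17_pm_022 k11_pm_022

theorem s19_pm_022 : ∃ t, chk3 f_pm_022 t 8 7 1 = true := ex3_a s18_pm_022 k12_pm_022

theorem s20_pm_022 : ∃ t, chk3 f_pm_022 t 4 7 1 = true := ex3_a s19_pm_022 k13_pm_022

theorem s21_pm_022 : ∃ t, chk3 f_pm_022 t 2 7 1 = true := ex3_a s20_pm_022 k14_pm_022

theorem s22_pm_022 : ∃ t, chk3 f_pm_022 t 16 13 1 = true := ex3_a k3_pm_022 k4_pm_022

theorem s23_pm_022 : ∃ t, chk3 f_pm_022 t 16 6 1 = true := ex3_b k2_pm_022 s22_pm_022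

theorem s24_pm_022 : ∃ t, chk3 f_pm_022 t 8 6 1 = true := ex3_a s23_pm_022 k5_pm_022

theorem s25_pm_022 : ∃ t, chk3 f_pm_022 t 4 6 1 = true := ex3_a s24_pm_022 k6_pm_022

theorem s26_pm_022 : ∃ t, chk3 f_pm_022 t 2 6 1 = true := ex3_a s25_pm_022 k7_pm_022

theorem s27_pm_022 : ∃ t, chk3 f_pm_022 t 2 3 1 = true := ex3_b s26_pm_022 s21_pm_022

theorem s28_pm_022 : ∃ t, chk3 f_pm_022 t 2 2 1 = true := ex3_a k0_pm_022 k1_pm_022

theorem s29_pm_022 : ∃ t, chk3 f_pm_022 t 2 1 1 = true := ex3_b s28_pm_022 s27_pm_022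

theorem s30_pm_022 : ∃ t, chk3 f_pm_022 t 1 1 1 = true := ex3_a s29_pm_022 k15_pm_022

theorem c_pm_022 : CertB 0 536870912 0 536870912 991146299 28908434 3 eng mog cd2q0 cd0q2 pd2 false true false .pp 0 2 2
    ndB2q0 ndB0q2 pcB2 cut_pm_022 Ext.none :=
  certB0 (fam := false) (s1 := true) (s2 := false) (a := 0) (b := 2) (c := 2) (cn := .pp) (n1 := ndB2q0) (n2 := ndB0q2) (pc := pcB2) (cut := cut_pm_022) (xt := Ext.none) (P1 := 0) (W1 := 536870912) (P2 := 0) (W2 := 536870912) (P3 := 991146299) (W3 := 28908434) (N0 := 3) (En := eng) (mo := mog) (C1 := cd2q0) (C2 := cd0q2) (C3 := pd2)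
    rfl s30_pm_022

noncomputable def f_pm_101 : ℕ → ℕ → ℕ → ℕ → Bool := onCell 0 536870912 536870912 536870912 991146299 28908434
    (rowB 3 eng mog cd2q1 cd0q1 pd0 2 false true false .npn 1 0 1 (qsf 536870912 536870912 536870912 536870912 0) ndB2q1 ndB0q1 pcB0 Cut.none Ext.none)

def k0_pm_101 : ∃ t, chk3 f_pm_101 t 1 1 1 = true :=
  ⟨(b (l 4) (b (l 4) (b (l 4) (a (a (a (b (b (l 4) (a (a (l 14935256) (l 14930704)) (l 14931936))) (c (a (l 15009592) (l 14964040)) (a (l 14987856) (l 14940344)))) (b (l 4) (b (a (l 14927168) (l 15028160)) (a (l 14969200) (l 14947144))))) (b (l 4) (b (a (a (l 14950264) (l 4)) (l 4)) (a (a (l 14931760) (c (l 14954960) (l 14897456))) (b (l 4) (a (l 14924408) (l 14932496))))))) (l 4))))), by decide +kernel⟩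

theorem c_pm_101 : CertB 536870912 536870912 536870912 536870912 991146299 28908434 3 eng mog cd2q1 cd0q1 pd0 false true false .npn 1 0 1
    ndB2q1 ndB0q1 pcB0 Cut.none Ext.none :=
  certB2 (fam := false) (s1 := true) (s2 := false) (a := 1) (b := 0) (c := 1) (cn := .npn) (n1 := ndB2q1) (n2 := ndB0q1) (pc := pcB0) (cut := Cut.none) (xt := Ext.none) (P1 := 536870912) (W1 := 536870912) (P2 := 536870912) (W2 := 536870912) (P3 := 991146299) (W3 := 28908434) (N0 := 3) (En := eng) (mo := mog) (C1 := cd2q1) (C2 := cd0q1) (C3 := pd0)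
    rfl (fun _ => rfl) k0_pm_101

noncomputable def f_pm_102 : ℕ → ℕ → ℕ → ℕ → Bool := onCell 0 536870912 0 536870912 991146299 28908434
    (rowB 3 eng mog cd2q1 cd0q2 pd0 2 false true false .npp 1 0 2 (qsf 536870912 536870912 0 536870912 0) ndB2q1 ndB0q2 pcB0 Cut.none Ext.none)

def k0_pm_102 : ∃ t, chk3 f_pm_102 t 2 1 1 = true :=
  ⟨(b (a (b (l 2) (a (l 2) (a (l 2) (a (l 2) (b (l 2) (l 16246392)))))) (a (a (b (a (l 2) (b (l 16549344) (b (l 16386776) (l 16332152)))) (c (l 16026168) (b (l 16347896) (l 16194144)))) (b (b (c (l 16429344) (l 16461712)) (b (c (l 16214512) (l 16313352)) (l 16144632))) (c (l 15996720) (l 16108240)))) (b (b (a (c (l 16262304) (l 16259088)) (l 15898856)) (b (a (l 16084704) (l 15914408)) (a (l 15950184) (l 15764464)))) (a (c (l 15845592) (l 15948672)) (l 15555768))))) (a (a (b (l 2) (b (a (l 2) (b (a (l 2) (l 15775664)) (l 15588584))) (b (a (l 15421440) (l 15366528)) (a (l 15181776) (l 15139520))))) (b (a (b (l 2) (a (l 15857312) (l 15861440))) (b (l 15917208)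 (l 15697552))) (b (a (b (b (l 15769152) (l 15680672)) (l 15529352)) (b (l 15670672) (l 15476280))) (b (a (l 15318112) (l 15275656)) (c (l 15075984) (l 15078976)))))) (a (b (b (a (l 15974272) (l 15870072)) (a (l 15792704) (l 15724480))) (b (b (a (l 15616576) (l 15567688)) (a (l 15429808) (l 15389704))) (b (a (l 15239192) (l 15208080)) (c (l 15051624) (l 15021968))))) (a (b (b (l 15772400) (l 15667072)) (b (l 15209840) (c (l 15106792) (l 15081712)))) (b (b (l 15681488) (l 15618840)) (b (l 15220416) (c (l 15093336) (l 14871280)))))))), by decide +kernel⟩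

def k1_pm_102 : ∃ t, chk3 f_pm_102 t 3 1 1 = true :=
  ⟨(b (a (a (b (b (c (l 15748488) (l 15804456)) (a (b (l 15755888) (l 15639184)) (l 15552872))) (a (b (l 15597368) (l 15599536)) (b (l 15438544) (l 15477752)))) (b (b (c (l 15655200) (l 15500336)) (c (l 15387968) (l 15337872))) (b (a (b (l 15276624) (l 15292792)) (b (l 15149480) (l 15148200))) (a (l 15361432) (l 15250624))))) (b (a (c (b (l 15467600) (l 15214928)) (b (l 15257560) (l 15108600))) (c (b (l 15335656) (l 15102368)) (b (l 15081544) (l 14947752)))) (a (b (b (l 15008216) (a (l 15015264) (l 14886184))) (a (l 15145304) (l 15045320))) (b (a (a (l 14823168) (l 14856712)) (c (l 14859560) (l 14793016))) (a (l 14951168) (b (l 14784376) (l 14943984))))))) (b (a (c (b (a (l 15512304) (l 15374536)) (a (l 15511416) (l 15461272))) (b (a (l 15606280) (l 15463392)) (a (l 15589864) (b (l 15555520) (l 15592744))))) (b (a (a (l 15330496) (l 15280064)) (a (l 15235464) (l 15196208))) (a (b (l 15463224) (c (l 15482776) (l 15597344))) (b (l 15451008)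 (b (l 15570232) (l 15366488)))))) (a (b (a (c (l 15350472) (b (l 15489136) (l 15303816))) (b (l 15232920) (a (l 15265744) (l 15251736)))) (a (b (c (l 15331928) (l 15117344)) (a (c (l 15020664) (l 14957096)) (c (l 15023648) (l 39423307527)))) (c (a (b (l 15126664) (l 15219552)) (b (l 15116752) (l 51234649815))) (b (l 15072976) (b (l 14961240) (l 4)))))) (b (a (c (b (l 15381560) (l 15217656)) (b (l 15442480) (l 15230072))) (b (c (l 15394896) (l 15445904)) (a (l 15217912) (l 15206680)))) (a (b (a (c (l 15109080) (l 15040696)) (c (b (l 15128576) (l 15075528)) (l 15022976))) (l 4)) (b (b (c (l 15090528) (a (l 15032744) (l 15007632))) (a (c (l 15077448) (l 14973832)) (l 4))) (l 4))))))), by decide +kernel⟩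

theorem s2_pm_102 : ∃ t, chk3 f_pm_102 t 1 1 1 = true := ex3_a k0_pm_102 k1_pm_102

theorem c_pm_102 : CertB 536870912 536870912 0 536870912 991146299 28908434 3 eng mog cd2q1 cd0q2 pd0 false true false .npp 1 0 2
    ndB2q1 ndB0q2 pcB0 Cut.none Ext.none :=
  certB2 (fam := false) (s1 := true) (s2 := false) (a := 1) (b := 0) (c := 2) (cn := .npp) (n1 := ndB2q1) (n2 := ndB0q2) (pc := pcB0) (cut := Cut.none) (xt := Ext.none) (P1 := 536870912) (W1 := 536870912) (P2 := 0) (W2 := 536870912) (P3 := 991146299) (W3 := 28908434) (N0 := 3) (En := eng) (mo := mog) (C1 := cd2q1) (C2 := cd0q2) (C3 := pd0)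
    rfl (fun _ => rfl) s2_pm_102

noncomputable def f_pm_112 : ℕ → ℕ → ℕ → ℕ → Bool := onCell 536870912 536870912 0 536870912 991146299 28908434
    (rowB 3 eng mog cd2q1 cd0q2 pd1 2 false true false .dn 1 1 2 (qsf 536870912 536870912 0 536870912 1) ndB2q1 ndB0q2 pcB1 Cut.none Ext.none)

def k0_pm_112 : ∃ t, chk3 f_pm_112 t 1 1 1 = true :=
  ⟨(a (b (a (b (a (b (c (l 14709960) (l 14541480)) (l 14821248)) (b (a (l 14588288) (l 14556272)) (l 14727888))) (b (a (l 15019352) (l 14883224)) (a (c (l 15185528) (l 15066112)) (b (l 15005096) (l 15045088))))) (a (b (b (c (b (l 14783024) (l 14683088)) (l 61769113703)) (c (l 14744136) (l 14600768))) (b (l 14757656) (c (l 223905623847) (l 14863552)))) (l 1))) (b (a (b (c (l 15194280) (l 15140640)) (a (c (l 15530688) (l 15203360)) (b (l 15150744) (l 15150016)))) (l 1)) (a (a (b (a (l 15139712) (l 15114976)) (b (b (a (l 15030008) (l 15024144)) (l 4)) (l 4))) (b (b (l 15096224) (l 1)) (l 1))) (l 1)))) (l 1)), by decide +kernel⟩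

theorem c_pm_112 : CertB 536870912 536870912 0 536870912 991146299 28908434 3 eng mog cd2q1 cd0q2 pd1 false true false .dn 1 1 2
    ndB2q1 ndB0q2 pcB1 Cut.none Ext.none :=
  certB2 (fam := false) (s1 := true) (s2 := false) (a := 1) (b := 1) (c := 2) (cn := .dn) (n1 := ndB2q1) (n2 := ndB0q2) (pc := pcB1) (cut := Cut.none) (xt := Ext.none) (P1 := 536870912) (W1 := 536870912) (P2 := 0) (W2 := 536870912) (P3 := 991146299) (W3 := 28908434) (N0 := 3) (En := eng) (mo := mog) (C1 := cd2q1) (C2 := cd0q2) (C3 := pd1)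
    rfl (fun _ => rfl) k0_pm_112

noncomputable def cut_pm_202_a : Cut := Cut.of [[⟨0, 1, 0, 53687091⟩, ⟨1, 0, 0, 53687091⟩, ⟨2, 1, 0, 53687091⟩]]

noncomputable def f_pm_202_a : ℕ → ℕ → ℕ → ℕ → Bool := onCell 0 536870912 0 536870912 991146299 28908434
    (rowB 3 eng mog cd2q2a cd0q2 pd0 0 false true false .pp 2 0 2 (qsf 0 536870912 0 536870912 0) ndB2q2a ndB0q2 pcB0 cut_pm_202_a Ext.none)

def k0_pm_202_a : ∃ t, chk3 f_pm_202_a t 1 1 1 = true :=
  ⟨(a (l 3) (b (l 3) (a (l 3) (b (l 3) (a (l 3) (b (l 3) (l 6))))))), by decide +kernel⟩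

theorem c_pm_202_a : CertB 0 536870912 0 536870912 991146299 28908434 3 eng mog cd2q2a cd0q2 pd0 false true false .pp 2 0 2
    ndB2q2a ndB0q2 pcB0 cut_pm_202_a Ext.none :=
  certB0 (fam := false) (s1 := true) (s2 := false) (a := 2) (b := 0) (c := 2) (cn := .pp) (n1 := ndB2q2a) (n2 := ndB0q2) (pc := pcB0) (cut := cut_pm_202_a) (xt := Ext.none) (P1 := 0) (W1 := 536870912) (P2 := 0) (W2 := 536870912) (P3 := 991146299) (W3 := 28908434) (N0 := 3) (En := eng) (mo := mog) (C1 := cd2q2a) (C2 := cd0q2) (C3 := pd0)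
    rfl k0_pm_202_a

noncomputable def cut_pm_202_b : Cut := Cut.of [[⟨0, 1, 0, 53687091⟩, ⟨1, 0, 0, 53687091⟩, ⟨2, 1, 0, 53687091⟩]]

noncomputable def f_pm_202_b : ℕ → ℕ → ℕ → ℕ → Bool := onCell 1239849684 370763052 0 536870912 991146299 28908434
    (rowB 3 eng mog cd2q2b cd0q2 pd0 0 false true false .pp 2 0 2 (qsf 1239849684 370763052 0 536870912 0) ndB2q2b ndB0q2 pcB0 cut_pm_202_b Ext.none)

def k0_pm_202_b : ∃ t, chk3 f_pm_202_b t 1 1 1 = true :=
  ⟨(l 3), by decide +kernel⟩

theorem c_pm_202_b : CertB 1239849684 370763052 0 536870912 991146299 28908434 3 eng mog cd2q2b cd0q2 pd0 false true false .pp 2 0 2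
    ndB2q2b ndB0q2 pcB0 cut_pm_202_b Ext.none :=
  certB0 (fam := false) (s1 := true) (s2 := false) (a := 2) (b := 0) (c := 2) (cn := .pp) (n1 := ndB2q2b) (n2 := ndB0q2) (pc := pcB0) (cut := cut_pm_202_b) (xt := Ext.none) (P1 := 1239849684) (W1 := 370763052) (P2 := 0) (W2 := 536870912) (P3 := 991146299) (W3 := 28908434) (N0 := 3) (En := eng) (mo := mog) (C1 := cd2q2b) (C2 := cd0q2) (C3 := pd0)
    rfl k0_pm_202_b

noncomputable def f_mm_001 : ℕ → ℕ → ℕ → ℕ → Bool := onCell 0 536870912 536870912 536870912 991146299 28908434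
    (rowB 3 eng mog cd2q0 cd0q1 pd0 0 false false false .up 0 0 1 (qsf 0 536870912 536870912 536870912 0) ndB2q0 ndB0q1 pcB0 Cut.none Ext.none)

def k0_mm_001 : ∃ t, chk3 f_mm_001 t 1 1 1 = true :=
  ⟨(l 5), by decide +kernel⟩

theorem c_mm_001 : CertB 0 536870912 536870912 536870912 991146299 28908434 3 eng mog cd2q0 cd0q1 pd0 false false false .up 0 0 1
    ndB2q0 ndB0q1 pcB0 Cut.none Ext.none :=
  certB0 (fam := false) (s1 := false) (s2 := false) (a := 0) (b := 0) (c := 1) (cn := .up) (n1 := ndB2q0) (n2 := ndB0q1) (pc := pcB0) (cut := Cut.none) (xt := Ext.none) (P1 := 0) (W1 := 536870912) (P2 := 536870912) (W2 := 536870912) (P3 := 991146299) (W3 := 28908434) (N0 := 3) (En := eng) (mo := mog) (C1 := cd2q0) (C2 := cd0q1) (C3 := pd0)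
    rfl k0_mm_001

noncomputable def f_mm_011 : ℕ → ℕ → ℕ → ℕ → Bool := onCell 0 536870912 536870912 536870912 991146299 28908434
    (rowB 3 eng mog cd2q0 cd0q1 pd1 0 false false false .pnn 0 1 1 (qsf 0 536870912 536870912 536870912 1) ndB2q0 ndB0q1 pcB1 Cut.none Ext.none)

def k0_mm_011 : ∃ t, chk3 f_mm_011 t 1 1 1 = true :=
  ⟨(l 5), by decide +kernel⟩

theorem c_mm_011 : CertB 0 536870912 536870912 536870912 991146299 28908434 3 eng mog cd2q0 cd0q1 pd1 false false false .pnn 0 1 1
    ndB2q0 ndB0q1 pcB1 Cut.none Ext.none :=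
  certB0 (fam := false) (s1 := false) (s2 := false) (a := 0) (b := 1) (c := 1) (cn := .pnn) (n1 := ndB2q0) (n2 := ndB0q1) (pc := pcB1) (cut := Cut.none) (xt := Ext.none) (P1 := 0) (W1 := 536870912) (P2 := 536870912) (W2 := 536870912) (P3 := 991146299) (W3 := 28908434) (N0 := 3) (En := eng) (mo := mog) (C1 := cd2q0) (C2 := cd0q1) (C3 := pd1)
    rfl k0_mm_011

noncomputable def f_mm_012 : ℕ → ℕ → ℕ → ℕ → Bool := onCell 0 536870912 0 536870912 991146299 28908434
    (rowB 3 eng mog cd2q0 cd0q2 pd1 0 false false false .pnp 0 1 2 (qsf 0 536870912 0 536870912 1) ndB2q0 ndB0q2 pcB1 Cut.none Ext.none)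

def k0_mm_012 : ∃ t, chk3 f_mm_012 t 1 1 1 = true :=
  ⟨(l 5), by decide +kernel⟩

theorem c_mm_012 : CertB 0 536870912 0 536870912 991146299 28908434 3 eng mog cd2q0 cd0q2 pd1 false false false .pnp 0 1 2
    ndB2q0 ndB0q2 pcB1 Cut.none Ext.none :=
  certB0 (fam := false) (s1 := false) (s2 := false) (a := 0) (b := 1) (c := 2) (cn := .pnp) (n1 := ndB2q0) (n2 := ndB0q2) (pc := pcB1) (cut := Cut.none) (xt := Ext.none) (P1 := 0) (W1 := 536870912) (P2 := 0) (W2 := 536870912) (P3 := 991146299) (W3 := 28908434) (N0 := 3) (En := eng) (mo := mog) (C1 := cd2q0) (C2 := cd0q2) (C3 := pd1)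
    rfl k0_mm_012

noncomputable def f_mm_022 : ℕ → ℕ → ℕ → ℕ → Bool := onCell 0 536870912 0 536870912 991146299 28908434
    (rowB 3 eng mog cd2q0 cd0q2 pd2 0 false false false .pp 0 2 2 (qsf 0 536870912 0 536870912 2) ndB2q0 ndB0q2 pcB2 Cut.none Ext.none)

def k0_mm_022 : ∃ t, chk3 f_mm_022 t 1 1 1 = true :=
  ⟨(l 5), by decide +kernel⟩

theorem c_mm_022 : CertB 0 536870912 0 536870912 991146299 28908434 3 eng mog cd2q0 cd0q2 pd2 false false false .pp 0 2 2
    ndB2q0 ndB0q2 pcB2 Cut.none Ext.none :=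
  certB0 (fam := false) (s1 := false) (s2 := false) (a := 0) (b := 2) (c := 2) (cn := .pp) (n1 := ndB2q0) (n2 := ndB0q2) (pc := pcB2) (cut := Cut.none) (xt := Ext.none) (P1 := 0) (W1 := 536870912) (P2 := 0) (W2 := 536870912) (P3 := 991146299) (W3 := 28908434) (N0 := 3) (En := eng) (mo := mog) (C1 := cd2q0) (C2 := cd0q2) (C3 := pd2)
    rfl k0_mm_022

noncomputable def f_mm_101 : ℕ → ℕ → ℕ → ℕ → Bool := onCell 536870912 536870912 536870912 536870912 991146299 28908434
    (rowB 3 eng mog cd2q1 cd0q1 pd0 0 false false false .npn 1 0 1 (qsf 536870912 536870912 536870912 536870912 0) ndB2q1 ndB0q1 pcB0 Cut.none Ext.none)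

def k0_mm_101 : ∃ t, chk3 f_mm_101 t 1 1 1 = true :=
  ⟨(l 3), by decide +kernel⟩

theorem c_mm_101 : CertB 536870912 536870912 536870912 536870912 991146299 28908434 3 eng mog cd2q1 cd0q1 pd0 false false false .npn 1 0 1
    ndB2q1 ndB0q1 pcB0 Cut.none Ext.none :=
  certB0 (fam := false) (s1 := false) (s2 := false) (a := 1) (b := 0) (c := 1) (cn := .npn) (n1 := ndB2q1) (n2 := ndB0q1) (pc := pcB0) (cut := Cut.none) (xt := Ext.none) (P1 := 536870912) (W1 := 536870912) (P2 := 536870912) (W2 := 536870912) (P3 := 991146299) (W3 := 28908434) (N0 := 3) (En := eng) (mo := mog) (C1 := cd2q1) (C2 := cd0q1) (C3 := pd0)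
    rfl k0_mm_101

noncomputable def f_mm_102 : ℕ → ℕ → ℕ → ℕ → Bool := onCell 536870912 536870912 0 536870912 991146299 28908434
    (rowB 3 eng mog cd2q1 cd0q2 pd0 0 false false false .npp 1 0 2 (qsf 536870912 536870912 0 536870912 0) ndB2q1 ndB0q2 pcB0 Cut.none Ext.none)

def k0_mm_102 : ∃ t, chk3 f_mm_102 t 1 1 1 = true :=
  ⟨(l 5), by decide +kernel⟩

theorem c_mm_102 : CertB 536870912 536870912 0 536870912 991146299 28908434 3 eng mog cd2q1 cd0q2 pd0 false false false .npp 1 0 2
    ndB2q1 ndB0q2 pcB0 Cut.none Ext.none :=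
  certB0 (fam := false) (s1 := false) (s2 := false) (a := 1) (b := 0) (c := 2) (cn := .npp) (n1 := ndB2q1) (n2 := ndB0q2) (pc := pcB0) (cut := Cut.none) (xt := Ext.none) (P1 := 536870912) (W1 := 536870912) (P2 := 0) (W2 := 536870912) (P3 := 991146299) (W3 := 28908434) (N0 := 3) (En := eng) (mo := mog) (C1 := cd2q1) (C2 := cd0q2) (C3 := pd0)
    rfl k0_mm_102

noncomputable def f_mm_112 : ℕ → ℕ → ℕ → ℕ → Bool := onCell 536870912 536870912 0 536870912 991146299 28908434
    (rowB 3 eng mog cd2q1 cd0q2 pd1 0 false false false .dn 1 1 2 (qsf 536870912 536870912 0 536870912 1) ndB2q1 ndB0q2 pcB1 Cut.none Ext.none)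

def k0_mm_112 : ∃ t, chk3 f_mm_112 t 1 1 1 = true :=
  ⟨(l 5), by decide +kernel⟩

theorem c_mm_112 : CertB 536870912 536870912 0 536870912 991146299 28908434 3 eng mog cd2q1 cd0q2 pd1 false false false .dn 1 1 2
    ndB2q1 ndB0q2 pcB1 Cut.none Ext.none :=
  certB0 (fam := false) (s1 := false) (s2 := false) (a := 1) (b := 1) (c := 2) (cn := .dn) (n1 := ndB2q1) (n2 := ndB0q2) (pc := pcB1) (cut := Cut.none) (xt := Ext.none) (P1 := 536870912) (W1 := 536870912) (P2 := 0) (W2 := 536870912) (P3 := 991146299) (W3 := 28908434) (N0 := 3) (En := eng) (mo := mog) (C1 := cd2q1) (C2 := cd0q2) (C3 := pd1)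
    rfl k0_mm_112

noncomputable def f_mm_202_a : ℕ → ℕ → ℕ → ℕ → Bool := onCell 0 536870912 0 536870912 991146299 28908434
    (rowB 3 eng mog cd2q2a cd0q2 pd0 0 false false false .pp 2 0 2 (qsf 0 536870912 0 536870912 0) ndB2q2a ndB0q2 pcB0 Cut.none Ext.none)

def k0_mm_202_a : ∃ t, chk3 f_mm_202_a t 1 1 1 = true :=
  ⟨(l 3), by decide +kernel⟩

theorem c_mm_202_a : CertB 0 536870912 0 536870912 991146299 28908434 3 eng mog cd2q2a cd0q2 pd0 false false false .pp 2 0 2
    ndB2q2a ndB0q2 pcB0 Cut.none Ext.none :=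
  certB0 (fam := false) (s1 := false) (s2 := false) (a := 2) (b := 0) (c := 2) (cn := .pp) (n1 := ndB2q2a) (n2 := ndB0q2) (pc := pcB0) (cut := Cut.none) (xt := Ext.none) (P1 := 0) (W1 := 536870912) (P2 := 0) (W2 := 536870912) (P3 := 991146299) (W3 := 28908434) (N0 := 3) (En := eng) (mo := mog) (C1 := cd2q2a) (C2 := cd0q2) (C3 := pd0)
    rfl k0_mm_202_a

noncomputable def f_mm_202_b : ℕ → ℕ → ℕ → ℕ → Bool := onCell 1239849684 370763052 0 536870912 991146299 28908434
    (rowB 3 eng mog cd2q2b cd0q2 pd0 0 false false false .pp 2 0 2 (qsf 1239849684 370763052 0 536870912 0) ndB2q2b ndB0q2 pcB0 Cut.none Ext.none)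

def k0_mm_202_b : ∃ t, chk3 f_mm_202_b t 1 1 1 = true :=
  ⟨(l 3), by decide +kernel⟩

theorem c_mm_202_b : CertB 1239849684 370763052 0 536870912 991146299 28908434 3 eng mog cd2q2b cd0q2 pd0 false false false .pp 2 0 2
    ndB2q2b ndB0q2 pcB0 Cut.none Ext.none :=
  certB0 (fam := false) (s1 := false) (s2 := false) (a := 2) (b := 0) (c := 2) (cn := .pp) (n1 := ndB2q2b) (n2 := ndB0q2) (pc := pcB0) (cut := Cut.none) (xt := Ext.none) (P1 := 1239849684) (W1 := 370763052) (P2 := 0) (W2 := 536870912) (P3 := 991146299) (W3 := 28908434) (N0 := 3) (En := eng) (mo := mog) (C1 := cd2q2b) (C2 := cd0q2) (C3 := pd0)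
    rfl k0_mm_202_b

end Pool.Agent.Strip051.G.I9231_9500.Tab.C.BB20

namespace Pool.Agent.Strip051.G.I9231_9500.Tab.C.BB21

open Pool.Agent.Strip051.PB Pool.Agent.Strip051.PB.T
open Pool.Agent.Strip051.G.I9231_9500.Tab

noncomputable def f_pp_001 : ℕ → ℕ → ℕ → ℕ → Bool := onCell 0 536870912 0 536870912 991146299 28908434
    (rowB 3 eng mog cd2q0 cd1q1 pd0 1 false true true .up 0 0 1 (qsf 0 536870912 536870912 536870912 0) ndB2q0 ndB1q1 pcB0 Cut.none Ext.none)

def k0_pp_001 : ∃ t, chk3 f_pp_001 t 1 1 1 = true :=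
  ⟨(l 3), by decide +kernel⟩

theorem c_pp_001 : CertB 0 536870912 536870912 536870912 991146299 28908434 3 eng mog cd2q0 cd1q1 pd0 false true true .up 0 0 1
    ndB2q0 ndB1q1 pcB0 Cut.none Ext.none :=
  certB1 (fam := false) (s1 := true) (s2 := true) (a := 0) (b := 0) (c := 1) (cn := .up) (n1 := ndB2q0) (n2 := ndB1q1) (pc := pcB0) (cut := Cut.none) (xt := Ext.none) (P1 := 0) (W1 := 536870912) (P2 := 536870912) (W2 := 536870912) (P3 := 991146299) (W3 := 28908434) (N0 := 3) (En := eng) (mo := mog) (C1 := cd2q0) (C2 := cd1q1) (C3 := pd0)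
    rfl (fun _ => rfl) k0_pp_001

noncomputable def f_pp_011 : ℕ → ℕ → ℕ → ℕ → Bool := onCell 0 536870912 536870912 536870912 991146299 28908434
    (rowB 3 eng mog cd2q0 cd1q1 pd1 0 false true true .pnn 0 1 1 (qsf 0 536870912 536870912 536870912 1) ndB2q0 ndB1q1 pcB1 Cut.none Ext.none)

def k0_pp_011 : ∃ t, chk3 f_pp_011 t 1 1 1 = true :=
  ⟨(a (l 3) (l 3)), by decide +kernel⟩

theorem c_pp_011 : CertB 0 536870912 536870912 536870912 991146299 28908434 3 eng mog cd2q0 cd1q1 pd1 false true true .pnn 0 1 1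
    ndB2q0 ndB1q1 pcB1 Cut.none Ext.none :=
  certB0 (fam := false) (s1 := true) (s2 := true) (a := 0) (b := 1) (c := 1) (cn := .pnn) (n1 := ndB2q0) (n2 := ndB1q1) (pc := pcB1) (cut := Cut.none) (xt := Ext.none) (P1 := 0) (W1 := 536870912) (P2 := 536870912) (W2 := 536870912) (P3 := 991146299) (W3 := 28908434) (N0 := 3) (En := eng) (mo := mog) (C1 := cd2q0) (C2 := cd1q1) (C3 := pd1)
    rfl k0_pp_011

noncomputable def cut_pp_012_a : Cut := Cut.of [[⟨0, 0, 0, 53687091⟩, ⟨1, 1, 0, 53687091⟩, ⟨2, 1, 0, 53687091⟩]]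

noncomputable def xt_pp_012_a : Ext := extD3 3 ⟨4, 1, 1, 5, 22, 5, 21, 25, 41, 100, 1, 20⟩ eng cd2q0 cd1q2a pd1 false true true .pnp 0 1 2 rfl ndB2q0 ndB1q2a pcB1

noncomputable def f_pp_012_a : ℕ → ℕ → ℕ → ℕ → Bool := onCell 536870912 536870912 0 536870912 991146299 28908434
    (rowB 3 eng mog cd2q0 cd1q2a pd1 2 false true true .pnp 0 1 2 (qsf 0 536870912 0 536870912 1) ndB2q0 ndB1q2a pcB1 cut_pp_012_a xt_pp_012_a)

def k0_pp_012_a : ∃ t, chk3 f_pp_012_a t 2 1 1 = true :=
  ⟨(b (a (b (l 2) (a (l 2) (a (l 2) (b (l 2) (l 14595005575))))) (b (a (c (b (l 16132200) (l 16203256)) (a (b (l 15913208) (l 16180456)) (l 15860160))) (c (b (l 16150432) (l 16186696)) (b (l 15871720) (l 15959200)))) (a (a (b (b (c (l 16508408) (l 16381104)) (l 16374136)) (c (l 16454984) (l 16379008))) (b (b (l 16274480) (l 16258144)) (l 16254544))) (b (a (c (l 16381048) (l 16126432)) (a (l 16153792) (l 16188312))) (a (l 16261672) (c (l 16559664) (l 16333064))))))) (a (b (a (l 2) (b (a (l 2) (c (l 16442856) (l 16287304)))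 (b (a (a (l 2) (l 16125296)) (c (l 16426160) (l 214915027575))) (l 3)))) (l 3)) (b (a (c (b (a (l 16442200) (l 16453368)) (a (b (l 16411448) (l 16363224)) (b (l 16403760) (l 16352032)))) (b (a (l 16320008) (l 16331072)) (a (b (l 16278336) (l 16119984)) (b (l 16306624) (l 16190128))))) (c (b (a (l 16477768) (l 16516016)) (a (b (l 16409760) (l 16347976)) (l 16143848))) (b (a (l 16340376) (l 16347000)) (a (l 16121584) (l 16297176))))) (a (l 3) (b (b (a (c (l 184850123319) (l 16137696)) (c (b (l 16289896) (l 16235568)) (l 16231368))) (l 3)) (l 3)))))), by decide +kernel⟩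

def k1_pp_012_a : ∃ t, chk3 f_pp_012_a t 6 2 1 = true :=
  ⟨(a (b (a (c (l 16214912) (l 15962152)) (c (l 16209432) (l 15975040))) (b (c (l 16157976) (a (l 16195528) (l 16163224))) (a (c (l 16511048) (l 16307816)) (b (l 16185016) (l 16344440))))) (b (a (c (l 16215344) (l 16002456)) (c (l 16233264) (l 16044824))) (b (a (l 16122864) (l 16171888)) (c (a (l 16405672) (l 16403216)) (a (l 16254432) (l 16232144)))))), by decide +kernel⟩

def k2_pp_012_a : ∃ t, chk3 f_pp_012_a t 6 3 1 = true :=
  ⟨(b (c (a (b (a (l 16544320) (l 16540728)) (a (b (l 16471304) (l 16385928)) (b (l 16528928) (l 16436944)))) (b (a (l 16500952) (l 16429080)) (a (b (l 16567688) (l 16511408)) (b (l 16562400) (l 16491480))))) (a (b (a (l 16350264) (l 16349480)) (a (l 16260872) (b (l 16396920) (l 16420640)))) (b (a (l 16344104) (l 16313272)) (a (b (l 16410704) (l 16450584)) (b (l 16417584) (l 16410984)))))) (a (b (a (b (c (a (l 16274128) (l 16288016)) (l 16294672)) (a (l 3) (c (l 212767599543) (l 192366233895)))) (b (c (a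 (l 16308144) (l 16335208)) (l 16129088)) (a (c (l 203640801143) (l 195050644695)) (c (b (l 16230000) (l 223504964455)) (b (l 16238720) (l 16153824)))))) (l 3)) (b (a (b (c (b (l 16423408) (a (l 16335464) (l 16376872))) (a (l 16374264) (l 16407504))) (c (b (a (l 16261104) (l 16300888)) (a (c (l 213304426807) (l 16175880)) (a (l 207935760295) (a (l 195587737463) (l 16234808))))) (b (a (l 16260264) (l 16290776)) (a (l 16192776) (c (l 16201856) (l 16197848)))))) (b (a (c (b (l 16495472) (l 16426640)) (l 16448568)) (c (l 16477152) (l 16496512))) (c (a (b (l 16349904) (a (b (l 16274824) (l 16231392)) (l 16280000))) (b (l 16408584) (a (l 16309592) (l 16341984)))) (b (a (l 16331080) (l 16381960)) (a (l 16258184) (l 16287216)))))) (b (b (a (a (l 3) (a (l 3) (a (l 3) (c (l 176797075607) (l 16109616))))) (c (a (b (a (l 173575938519) (l 16213536)) (l 3)) (a (l 152638030407) (l 156933074807))) (a (l 146195496327) (c (l 16193112) (l 16170504))))) (l 3)) (l 3))))), by decide +kernel⟩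

def k3_pp_012_a : ∃ t, chk3 f_pp_012_a t 14 1 1 = true :=
  ⟨(b (b (a (l 15933096) (c (l 16308496) (l 16176856))) (a (b (l 16194168) (c (l 16364768) (l 16218520))) (b (l 16191168) (a (l 16281256) (l 16280256))))) (b (c (b (a (l 16350160) (b (l 16384120) (l 16444304))) (a (b (l 16539632) (l 16535560)) (b (l 16507960) (l 16531944)))) (b (a (l 16195360) (b (l 16273024) (l 16340376))) (a (b (l 16417424) (l 16422400)) (b (l 16411944) (l 16465464))))) (b (a (c (b (a (l 16581680) (l 16617184)) (a (b (l 16476928) (l 16395920)) (b (l 16553792) (l 16477472)))) (b (a (l 16538328) (l 16555296)) (b (a (l 16443856) (l 16515808)) (a (l 16350152) (l 16426912))))) (a (b (l 16479040) (c (l 141331877110792255) (l 141978458576830527))) (b (l 16494840) (c (l 16617688) (l 142086210872803391))))) (b (a (a (a (b (c (l 150490706375) (l 16226752)) (c (l 176260364871) (l 161764638871))) (b (c (l 16331632) (l 16262304)) (c (l 180018571191) (l 165522808823)))) (b (c (l 141789617128718399) (l 16323552)) (c (b (l 140821703183319103)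 (l 3368067333587675906788507711)) (b (l 79086783159) (l 176260314903))))) (c (b (a (l 16499344) (l 16608320)) (b (a (l 16454584) (l 16581144)) (a (l 2516983556580209039455666239) (l 142516806994001983)))) (b (c (l 142438535556694079) (l 142149913638502463)) (a (b (l 16344176) (l 139710577865162815)) (l 142391668566655039))))) (b (a (l 3) (b (c (a (l 7768557316985664493627375679) (b (l 142478117940707391) (l 5099249107277831288116625471))) (a (l 7816914349768338228126171199) (l 3735580782751043520004407359))) (l 3))) (l 3)))))), by decide +kernel⟩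

def k4_pp_012_a : ∃ t, chk3 f_pp_012_a t 15 1 1 = true :=
  ⟨(b (b (a (c (l 16347432) (l 16268568)) (a (l 16319728) (l 16356024))) (a (b (l 16185744) (c (l 16332936) (l 16243632))) (b (l 16201408) (a (l 16310024) (l 16331840))))) (b (a (b (b (c (l 16349280) (l 16266728)) (a (l 16373936) (l 16361712))) (a (b (l 16443840) (l 16495344)) (b (l 16432080) (l 16462944)))) (b (b (a (l 16302344) (l 16309400)) (a (l 16350576) (l 16342880))) (a (b (l 16420280) (l 16429320)) (b (l 16411072) (c (l 16493664) (l 16470240)))))) (b (a (b (a (l 16464992) (c (l 16601168) (l 16557312))) (a (c (l 16627184) (l 16579056)) (c (l 16609424) (l 16554032)))) (b (a (b (l 16547000) (l 16584056)) (b (l 16535992) (l 16551384))) (a (b (l 16558344) (l 141928568442683519)) (b (a (l 16611512) (l 16606440)) (a (l 16648040) (l 16642568)))))) (a (b (a (b (c (l 16709272) (l 16652248)) (c (b (l 16708368) (l 16729728)) (l 142704411209531455))) (b (a (l 16671504) (l 16666544)) (b (l 142461488054632575) (a (l 16716624) (l 16730608)))))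 (b (c (b (a (l 143247432847343743) (l 143240904464695551)) (a (b (l 5253991612188710187355783295) (l 7961985448125600278816686207)) (b (l 600740557888172757413631) (a (l 5989622190014378482513718527) (l 602923903583663474405119))))) (a (b (l 142308380840673343) (b (l 4973520822037857902038646847) (a (l 3) (l 7865271382556088202707435583)))) (b (l 143281655115858047) (b (l 599540366796490593955455) (a (l 5689807831874773564156685951) (l 602845793104516063964927)))))) (a (l 3) (a (b (b (c (l 8339773639774748107362987263) (l 8455831147664746110699974271)) (l 3)) (l 3)) (l 6))))) (b (a (b (b (l 142504437714600063) (l 142652115907969151)) (a (l 142762341971574911) (l 142815668267303039))) (b (a (l 16642408) (l 6)) (l 6))) (b (a (a (b (l 143334843984511103) (l 6)) (l 6)) (l 6)) (l 6))))))), by decide +kernel⟩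

theorem s5_pp_012_a : ∃ t, chk3 f_pp_012_a t 7 1 1 = true := ex3_a k3_pp_012_a k4_pp_012_a

theorem s6_pp_012_a : ∃ t, chk3 f_pp_012_a t 6 1 1 = true := ex3_b k1_pp_012_a k2_pp_012_a

theorem s7_pp_012_a : ∃ t, chk3 f_pp_012_a t 3 1 1 = true := ex3_a s6_pp_012_a s5_pp_012_a

theorem s8_pp_012_a : ∃ t, chk3 f_pp_012_a t 1 1 1 = true := ex3_a k0_pp_012_a s7_pp_012_a

theorem c_pp_012_a : CertB 0 536870912 0 536870912 991146299 28908434 3 eng mog cd2q0 cd1q2a pd1 false true true .pnp 0 1 2
    ndB2q0 ndB1q2a pcB1 cut_pp_012_a xt_pp_012_a :=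
  certB2 (fam := false) (s1 := true) (s2 := true) (a := 0) (b := 1) (c := 2) (cn := .pnp) (n1 := ndB2q0) (n2 := ndB1q2a) (pc := pcB1) (cut := cut_pp_012_a) (xt := xt_pp_012_a) (P1 := 0) (W1 := 536870912) (P2 := 0) (W2 := 536870912) (P3 := 991146299) (W3 := 28908434) (N0 := 3) (En := eng) (mo := mog) (C1 := cd2q0) (C2 := cd1q2a) (C3 := pd1)
    rfl (fun _ => rfl) s8_pp_012_a

noncomputable def cut_pp_012_b : Cut := Cut.of [[⟨0, 0, 0, 53687091⟩, ⟨1, 1, 0, 53687091⟩, ⟨2, 1, 0, 53687091⟩]]

noncomputable def f_pp_012_b : ℕ → ℕ → ℕ → ℕ → Bool := onCell 0 536870912 536870912 536870912 991146299 28908434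
    (rowB 3 eng mog cd2q0 cd1q2b pd1 1 false true true .pnp 0 1 2 (qsf 0 536870912 1239849684 370763052 1) ndB2q0 ndB1q2b pcB1 cut_pp_012_b Ext.none)

def k0_pp_012_b : ∃ t, chk3 f_pp_012_b t 1 1 1 = true :=
  ⟨(b (a (l 1) (b (l 1) (a (l 1) (b (a (l 1) (c (l 325912469415) (l 325375005079))) (a (c (l 336649894295) (l 335575606103)) (c (l 15894808) (l 15582896))))))) (b (a (l 1) (a (b (a (l 1) (c (l 348998004439) (l 346850046615))) (a (a (l 350608603527) (l 285646959799)) (c (l 15845360) (l 15582296)))) (b (a (c (l 15845120) (l 15519632)) (c (l 15777288) (l 15497824))) (a (c (l 15819488) (l 15573936)) (l 15515928))))) (a (a (l 1) (a (b (l 1) (b (a (l 1) (l 16457960)) (a (l 16528784) (l 16462352)))) (b (c (b (l 16183360) (l 16246816)) (b (l 345776962759) (l 16122536))) (a (b (l 16302840) (l 16335576)) (b (l 16215072) (l 16212760)))))) (a (b (a (c (l 310343183703) (l 307121622983)) (c (l 15925608) (l 15727232))) (a (a (l 16006752) (l 15976120)) (c (l 15900432) (l 15731824)))) (b (a (l 15624968)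 (l 15461800)) (a (l 15636768) (l 15493360))))))), by decide +kernel⟩

theorem c_pp_012_b : CertB 0 536870912 1239849684 370763052 991146299 28908434 3 eng mog cd2q0 cd1q2b pd1 false true true .pnp 0 1 2
    ndB2q0 ndB1q2b pcB1 cut_pp_012_b Ext.none :=
  certB1 (fam := false) (s1 := true) (s2 := true) (a := 0) (b := 1) (c := 2) (cn := .pnp) (n1 := ndB2q0) (n2 := ndB1q2b) (pc := pcB1) (cut := cut_pp_012_b) (xt := Ext.none) (P1 := 0) (W1 := 536870912) (P2 := 1239849684) (W2 := 370763052) (P3 := 991146299) (W3 := 28908434) (N0 := 3) (En := eng) (mo := mog) (C1 := cd2q0) (C2 := cd1q2b) (C3 := pd1)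
    rfl (fun _ => rfl) k0_pp_012_b

noncomputable def cut_pp_022_a : Cut := Cut.of [[⟨0, 0, 0, 53687091⟩, ⟨1, 1, 0, 53687091⟩, ⟨2, 1, 0, 53687091⟩]]

noncomputable def f_pp_022_a : ℕ → ℕ → ℕ → ℕ → Bool := onCell 0 536870912 0 536870912 991146299 28908434
    (rowB 3 eng mog cd2q0 cd1q2a pd2 0 false true true .pp 0 2 2 (qsf 0 536870912 0 536870912 2) ndB2q0 ndB1q2a pcB2 cut_pp_022_a Ext.none)

def k0_pp_022_a : ∃ t, chk3 f_pp_022_a t 2 2 1 = true :=
  ⟨(a (a (b (b (a (a (l 16175320) (l 16189672)) (c (l 16256912) (l 16191544))) (a (a (c (l 16203120) (l 16152256)) (c (l 16231528) (l 16166704))) (c (l 16277960) (l 16189888)))) (a (b (c (a (l 16220168) (l 16254552)) (a (l 16161056) (l 16183208))) (c (a (b (l 16245288) (l 16270600)) (l 16234440)) (a (b (l 16180088) (l 16201728)) (b (l 16207664) (l 16232688))))) (c (b (a (l 16291264) (l 16327144)) (c (l 16315256) (l 16278808))) (b (a (l 16219880) (l 16256112)) (c (l 16220080) (l 16160056)))))) (b (c (a (b (l 16305448) (l 16274536)) (b (l 16310648)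 (a (l 16380336) (l 16408280)))) (a (b (l 16233928) (l 16141664)) (b (l 16190896) (a (l 16307912) (l 16334176))))) (c (a (b (a (l 16362080) (l 16396096)) (a (l 16294176) (b (l 16440416) (l 16456736)))) (a (b (l 16366320) (c (l 16449816) (l 16415792))) (b (b (l 16446792) (l 16477024)) (b (l 16449216) (c (l 16569704) (l 16536472)))))) (a (b (a (l 16291112) (l 16325008)) (a (b (l 16330392) (l 16364624)) (b (l 16368728) (l 16405704)))) (b (a (l 16273992) (b (l 16374848) (l 16405872))) (a (b (l 16405784) (l 16382432)) (b (l 16378744) (c (l 16501640) (l 16465224))))))))) (a (a (a (b (c (b (l 16387128) (l 16393752)) (b (l 16304688) (l 16317960))) (b (c (c (l 16468008) (l 16433728)) (b (l 16404648) (l 16354328))) (c (b (c (l 16562880) (l 16529600)) (l 291553897767)) (b (l 239477164647) (l 387116740791))))) (b (c (b (l 16409912) (l 207264848215)) (b (l 16324504) (b (l 16370120) (l 16400960)))) (b (c (c (l 185790380903) (l 508986438039)) (b (l 233034649303) (l 533145547927))) (l 1)))) (b (b (l 1)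 (l 1)) (l 1))) (l 1))), by decide +kernel⟩

def k1_pp_022_a : ∃ t, chk3 f_pp_022_a t 4 12 1 = true :=
  ⟨(b (a (a (c (a (l 16241344) (l 16348024)) (a (l 16148568) (l 16266592))) (c (a (l 16393672) (l 16438056)) (c (l 16358544) (l 16318448)))) (c (a (c (l 16519408) (l 16400536)) (a (c (l 16579408) (l 16524920)) (a (l 16508248) (l 370473947335)))) (a (a (l 16407144) (l 16366888)) (a (c (l 16510872) (l 16474368)) (c (l 322692344519) (l 312491725639)))))) (a (a (a (c (c (l 16365544) (l 16329848)) (c (l 16293016) (l 16255064))) (c (l 16351968) (l 16248320))) (c (c (l 16421048) (l 16404416)) (c (l 16365472) (l 16325192)))) (a (c (a (c (l 16529656) (l 16515288)) (c (l 16593360) (l 16538376))) (a (l 16375816) (c (l 16523912) (l 16487064)))) (a (a (c (l 16545176) (l 16455064)) (c (l 304438849511) (l 284037618743))) (l 1))))), by decide +kernel⟩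

def k2_pp_022_a : ∃ t, chk3 f_pp_022_a t 4 13 1 = true :=
  ⟨(b (a (a (c (a (a (b (l 16375968) (l 16406560)) (l 16331032)) (c (l 16471056) (l 16431104))) (a (c (a (l 16338264) (l 16357384)) (a (l 16301744) (l 16317520))) (c (l 16389824) (l 16347224)))) (a (c (l 16417192) (l 16338208)) (c (c (l 16567368) (l 16531104)) (l 16390320)))) (a (c (a (c (l 16613168) (l 16578608)) (b (l 16581760) (l 16554048))) (a (c (l 16521728) (l 16505440)) (c (c (l 16556768) (l 16560192)) (l 16449336)))) (a (a (a (b (l 285111437815) (l 1)) (l 1)) (l 1)) (l 1)))) (a (c (a (a (a (b (c (l 16457552) (l 16423576)) (b (a (l 16440008) (l 16475008)) (a (l 16470232) (l 16490104)))) (b (l 16465320) (b (l 16493696) (l 16470928)))) (c (l 16457416) (l 16397392))) (a (c (l 16591864) (l 16533848)) (l 16518584))) (a (a (a (b (c (l 16388520) (l 16352392)) (b (c (l 16415896) (l 16380216)) (a (l 16403000) (l 16398960)))) (b (l 16388960) (c (l 16447352) (l 16408720)))) (a (b (l 16407848) (l 16427072)) (l 16370752))) (a (c (l 16516472)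 (l 16476832)) (c (l 16527624) (l 16532032))))) (a (a (c (b (l 16609304) (l 16573440)) (c (b (l 16599528) (l 16642248)) (l 16501008))) (a (c (l 305512660663) (l 224981964823)) (l 1))) (l 1)))), by decide +kernel⟩

def k3_pp_022_a : ∃ t, chk3 f_pp_022_a t 4 7 1 = true :=
  ⟨(a (a (b (b (a (c (a (b (a (l 16476856) (l 16499040)) (b (l 16476736) (l 16464080))) (b (b (l 16463984) (l 16534656)) (l 16504800))) (a (a (b (l 16389800) (a (l 16416920) (l 16431768))) (b (l 16430144) (l 16446912))) (b (a (l 16428256) (l 16403192)) (l 16434320)))) (a (c (b (b (l 16517496) (l 16533168)) (l 16548024)) (b (b (l 16459480) (l 16434152)) (l 16493440))) (b (c (c (l 16616184) (l 16578904)) (l 16478672)) (c (l 16548056) (l 16473568))))) (b (a (a (a (c (b (l 16504072) (l 16515504)) (b (l 16443256) (l 16456992))) (c (l 16491576) (b (l 16464280) (l 16478568)))) (c (l 16484536) (c (l 16519072) (l 16484904)))) (c (b (l 16524248) (l 16538296)) (a (l 16479352) (l 16567304)))) (l 6))) (l 6)) (a (b (b (c (b (l 16595512)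 (b (l 16609608) (l 16588448))) (b (l 16479944) (c (l 16546432) (l 16510040)))) (b (c (a (l 16700456) (l 16636152)) (c (l 16587128) (l 16552784))) (l 6))) (l 6)) (b (a (c (b (l 16599424) (b (l 16560656) (l 626561487511))) (b (b (l 16605584) (l 16635896)) (b (l 16626312) (l 16627112)))) (b (c (l 16544264) (l 16554576)) (b (c (l 429529813047) (l 16603632)) (l 1)))) (l 1)))) (b (a (a (b (c (b (l 320008168807) (l 376379566999)) (b (l 275984799527) (l 373158495783))) (l 1)) (l 1)) (l 1)) (l 1))), by decide +kernel⟩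

def k4_pp_022_a : ∃ t, chk3 f_pp_022_a t 5 3 1 = true :=
  ⟨(b (l 1) (l 1)), by decide +kernel⟩

def k5_pp_022_a : ∃ t, chk3 f_pp_022_a t 3 1 1 = true :=
  ⟨(l 1), by decide +kernel⟩

theorem s6_pp_022_a : ∃ t, chk3 f_pp_022_a t 4 6 1 = true := ex3_b k1_pp_022_a k2_pp_022_a

theorem s7_pp_022_a : ∃ t, chk3 f_pp_022_a t 4 3 1 = true := ex3_b s6_pp_022_a k3_pp_022_a

theorem s8_pp_022_a : ∃ t, chk3 f_pp_022_a t 2 3 1 = true := ex3_a s7_pp_022_a k4_pp_022_a

theorem s9_pp_022_a : ∃ t, chk3 f_pp_022_a t 2 1 1 = true := ex3_b k0_pp_022_a s8_pp_022_a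

theorem s10_pp_022_a : ∃ t, chk3 f_pp_022_a t 1 1 1 = true := ex3_a s9_pp_022_a k5_pp_022_a

theorem c_pp_022_a : CertB 0 536870912 0 536870912 991146299 28908434 3 eng mog cd2q0 cd1q2a pd2 false true true .pp 0 2 2
    ndB2q0 ndB1q2a pcB2 cut_pp_022_a Ext.none :=
  certB0 (fam := false) (s1 := true) (s2 := true) (a := 0) (b := 2) (c := 2) (cn := .pp) (n1 := ndB2q0) (n2 := ndB1q2a) (pc := pcB2) (cut := cut_pp_022_a) (xt := Ext.none) (P1 := 0) (W1 := 536870912) (P2 := 0) (W2 := 536870912) (P3 := 991146299) (W3 := 28908434) (N0 := 3) (En := eng) (mo := mog) (C1 := cd2q0) (C2 := cd1q2a) (C3 := pd2)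
    rfl s10_pp_022_a

noncomputable def cut_pp_022_b : Cut := Cut.of [[⟨0, 0, 0, 53687091⟩, ⟨1, 1, 0, 53687091⟩, ⟨2, 1, 0, 53687091⟩]]

noncomputable def f_pp_022_b : ℕ → ℕ → ℕ → ℕ → Bool := onCell 0 536870912 1239849684 370763052 991146299 28908434
    (rowB 3 eng mog cd2q0 cd1q2b pd2 0 false true true .pp 0 2 2 (qsf 0 536870912 1239849684 370763052 2) ndB2q0 ndB1q2b pcB2 cut_pp_022_b Ext.none)

def k0_pp_022_b : ∃ t, chk3 f_pp_022_b t 2 2 1 = true :=
  ⟨(a (a (b (c (a (b (a (l 16199696) (l 16219656)) (a (l 16204472) (l 16225928))) (b (b (l 16251168) (l 16256760)) (l 16262480))) (a (b (a (l 16181008) (l 16184704)) (a (l 16231240) (l 16237272))) (b (b (l 16198192) (l 16228472)) (l 16269464)))) (c (b (a (l 16217112) (l 16265352)) (a (l 16080704) (l 16088448))) (a (b (l 16173544) (l 15970096)) (b (l 16221632) (l 15991120))))) (b (c (b (a (l 16194096) (b (l 16338184) (l 16347352))) (a (l 16310144) (l 16356872))) (b (a (b (l 16234784) (l 16267784)) (b (l 16249528) (l 16306184))) (a (l 16311784)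 (l 16353168)))) (c (b (l 16296360) (l 16109656)) (b (a (l 16253576) (l 16293288)) (l 16035584))))) (b (b (b (a (c (a (l 16254840) (l 454225364535)) (a (a (l 16297032) (l 16314784)) (a (l 16332584) (l 462278322855)))) (l 1)) (a (a (c (l 16391592) (l 16344352)) (c (l 16435472) (l 16319856))) (a (c (l 462815430199) (l 461204678967)) (l 1)))) (a (c (a (l 16403008) (l 16448808)) (a (l 16394368) (l 16414992))) (c (a (l 16410576) (l 16372328)) (a (l 67678361351) (l 458520456423))))) (a (c (b (l 16340936) (l 16151792)) (b (a (l 16339896) (l 16392696)) (l 16120744))) (c (b (a (l 16381664) (l 16411608)) (l 16205984)) (b (a (l 16451104) (l 16514600)) (l 16230592)))))), by decide +kernel⟩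

def k1_pp_022_b : ∃ t, chk3 f_pp_022_b t 2 3 1 = true :=
  ⟨(a (a (a (b (c (b (l 15902264) (l 15727096)) (b (l 15729848) (l 15537296))) (c (b (l 15556056) (l 15390432)) (b (l 15330680) (l 15132696)))) (b (c (l 15776624) (b (l 15766608) (l 15548448))) (c (l 15284584) (b (l 15337504) (l 15135224))))) (b (c (b (l 15927264) (l 15749120)) (a (l 15447472) (l 15520280))) (c (b (l 15575560) (l 15407320)) (b (l 15368096) (l 15161856))))) (b (a (c (b (l 15947328) (l 15790008)) (b (l 15884920) (l 15657672))) (c (b (l 16022632) (l 15845560)) (b (l 15990032) (l 15759520)))) (a (c (l 15343176) (b (l 15438928) (l 15229176))) (c (l 15485896) (b (l 15538568) (l 15327128)))))), by decide +kernel⟩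

def k2_pp_022_b : ∃ t, chk3 f_pp_022_b t 3 1 1 = true :=
  ⟨(b (a (b (l 1) (b (a (c (a (l 16443304) (l 16476456)) (a (l 16582696) (l 16613016))) (l 1)) (a (c (l 16121824) (l 16360432)) (c (l 16106432) (a (l 16363744) (l 1)))))) (l 1)) (a (b (a (c (b (l 16086216) (l 15911392)) (b (l 16073936) (l 15883104))) (c (b (l 16156200) (l 15984224)) (b (l 16132872) (l 16024160)))) (a (c (l 15640744) (l 15386208)) (c (l 15741040) (l 15527576)))) (a (b (b (l 1) (a (l 16028216) (l 15984592))) (c (l 15783936) (b (l 15957760) (l 15747960)))) (b (l 1) (c (l 15747744) (b (l 16133856) (l 15919432))))))), by decide +kernel⟩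

theorem s3_pp_022_b : ∃ t, chk3 f_pp_022_b t 2 1 1 = true := ex3_b k0_pp_022_b k1_pp_022_b

theorem s4_pp_022_b : ∃ t, chk3 f_pp_022_b t 1 1 1 = true := ex3_a s3_pp_022_b k2_pp_022_b

theorem c_pp_022_b : CertB 0 536870912 1239849684 370763052 991146299 28908434 3 eng mog cd2q0 cd1q2b pd2 false true true .pp 0 2 2
    ndB2q0 ndB1q2b pcB2 cut_pp_022_b Ext.none :=
  certB0 (fam := false) (s1 := true) (s2 := true) (a := 0) (b := 2) (c := 2) (cn := .pp) (n1 := ndB2q0) (n2 := ndB1q2b) (pc := pcB2) (cut := cut_pp_022_b) (xt := Ext.none) (P1 := 0) (W1 := 536870912) (P2 := 1239849684) (W2 := 370763052) (P3 := 991146299) (W3 := 28908434) (N0 := 3) (En := eng) (mo := mog) (C1 := cd2q0) (C2 := cd1q2b) (C3 := pd2)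
    rfl s4_pp_022_b

noncomputable def f_pp_023 : ℕ → ℕ → ℕ → ℕ → Bool := onCell 1073741824 536870912 1610612736 536870912 991146299 28908434
    (rowB 3 eng mog cd2q0 cd1q3 pd2 2 false true true .up 0 2 3 (qsf 0 536870912 1610612736 536870912 2) ndB2q0 ndB1q3 pcB2 Cut.none Ext.none)

def k0_pp_023 : ∃ t, chk3 f_pp_023 t 1 1 1 = true :=
  ⟨(a (b (a (b (a (b (l 15418888) (l 15603936)) (b (l 15505968) (l 15443704))) (a (l 2) (b (l 15426504) (l 2)))) (b (a (b (l 15372952) (l 15292824)) (b (l 15209176) (l 15171904))) (a (b (l 15270264) (l 15281984)) (b (l 15167768) (l 15214280))))) (a (l 2) (b (a (l 2) (b (l 15305576) (l 2))) (l 2)))) (b (a (b (a (b (c (l 15234416) (l 15068344)) (a (l 15121240) (l 15110368))) (b (c (l 15184296) (l 14755056)) (c (l 15205544) (l 15021392)))) (a (b (l 15158552) (l 15243272)) (b (l 15211616) (l 15341320)))) (b (b (a (b (a (l 15053688) (l 15034824)) (l 14847688)) (b (a (c (l 15136376) (l 14906064)) (b (l 15033584) (l 14996592))) (a (l 15062728) (l 15065320))))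 (a (c (l 15240976) (l 15058784)) (c (l 15179384) (l 14884344)))) (a (b (l 15302512) (l 15480816)) (b (a (l 15383056) (l 15434264)) (l 15632792))))) (a (b (a (c (l 15484576) (l 15393608)) (b (l 15505544) (l 15703512))) (a (l 2) (b (l 15932888) (l 2)))) (b (a (b (l 15689288) (l 15927664)) (b (l 15886408) (a (l 16110600) (l 16210456)))) (a (b (l 16193112) (a (l 2) (l 16525344))) (b (a (l 16374464) (l 16425520)) (a (l 16586376) (l 4)))))))), by decide +kernel⟩

theorem c_pp_023 : CertB 0 536870912 1610612736 536870912 991146299 28908434 3 eng mog cd2q0 cd1q3 pd2 false true true .up 0 2 3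
    ndB2q0 ndB1q3 pcB2 Cut.none Ext.none :=
  certB2 (fam := false) (s1 := true) (s2 := true) (a := 0) (b := 2) (c := 3) (cn := .up) (n1 := ndB2q0) (n2 := ndB1q3) (pc := pcB2) (cut := Cut.none) (xt := Ext.none) (P1 := 0) (W1 := 536870912) (P2 := 1610612736) (W2 := 536870912) (P3 := 991146299) (W3 := 28908434) (N0 := 3) (En := eng) (mo := mog) (C1 := cd2q0) (C2 := cd1q3) (C3 := pd2)
    rfl (fun _ => rfl) k0_pp_023

noncomputable def f_pp_033 : ℕ → ℕ → ℕ → ℕ → Bool := onCell 0 536870912 1610612736 536870912 991146299 28908434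
    (rowB 3 eng mog cd2q0 cd1q3 pd3 1 false true true .pnn 0 3 3 (qsf 0 536870912 1610612736 536870912 3) ndB2q0 ndB1q3 pcB3 Cut.none Ext.none)

def k0_pp_033 : ∃ t, chk3 f_pp_033 t 1 1 1 = true :=
  ⟨(a (b (b (a (b (a (a (b (l 15663448) (l 15560952)) (l 15622392)) (l 15682648)) (a (a (l 15587696) (l 15411520)) (a (l 15479728) (l 15572504)))) (b (a (l 15818320) (l 15993768)) (a (b (l 15755608) (l 15732200)) (l 15980976)))) (a (b (a (b (a (l 15199328) (l 15269320)) (a (l 15098560) (l 15210264))) (b (l 15405888) (l 4))) (a (b (a (l 15041952) (l 4)) (l 4)) (l 4))) (l 4))) (a (l 4) (b (l 4) (a (b (l 4) (l 2)) (l 2))))) (b (a (b (b (a (l 16154344) (l 16324464)) (l 4)) (l 4)) (b (l 4) (a (b (l 4) (l 2)) (l 2)))) (a (b (a (b (l 4) (l 2)) (l 2)) (l 2)) (l 2)))), by decide +kernel⟩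

theorem c_pp_033 : CertB 0 536870912 1610612736 536870912 991146299 28908434 3 eng mog cd2q0 cd1q3 pd3 false true true .pnn 0 3 3
    ndB2q0 ndB1q3 pcB3 Cut.none Ext.none :=
  certB1 (fam := false) (s1 := true) (s2 := true) (a := 0) (b := 3) (c := 3) (cn := .pnn) (n1 := ndB2q0) (n2 := ndB1q3) (pc := pcB3) (cut := Cut.none) (xt := Ext.none) (P1 := 0) (W1 := 536870912) (P2 := 1610612736) (W2 := 536870912) (P3 := 991146299) (W3 := 28908434) (N0 := 3) (En := eng) (mo := mog) (C1 := cd2q0) (C2 := cd1q3) (C3 := pd3)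
    rfl (fun _ => rfl) k0_pp_033

noncomputable def f_pp_101 : ℕ → ℕ → ℕ → ℕ → Bool := onCell 536870912 536870912 536870912 536870912 991146299 28908434
    (rowB 3 eng mog cd2q1 cd1q1 pd0 0 false true true .npn 1 0 1 (qsf 536870912 536870912 536870912 536870912 0) ndB2q1 ndB1q1 pcB0 Cut.none Ext.none)

def k0_pp_101 : ∃ t, chk3 f_pp_101 t 1 1 1 = true :=
  ⟨(l 3), by decide +kernel⟩

theorem c_pp_101 : CertB 536870912 536870912 536870912 536870912 991146299 28908434 3 eng mog cd2q1 cd1q1 pd0 false true true .npn 1 0 1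
    ndB2q1 ndB1q1 pcB0 Cut.none Ext.none :=
  certB0 (fam := false) (s1 := true) (s2 := true) (a := 1) (b := 0) (c := 1) (cn := .npn) (n1 := ndB2q1) (n2 := ndB1q1) (pc := pcB0) (cut := Cut.none) (xt := Ext.none) (P1 := 536870912) (W1 := 536870912) (P2 := 536870912) (W2 := 536870912) (P3 := 991146299) (W3 := 28908434) (N0 := 3) (En := eng) (mo := mog) (C1 := cd2q1) (C2 := cd1q1) (C3 := pd0)
    rfl k0_pp_101

noncomputable def f_pp_102_a : ℕ → ℕ → ℕ → ℕ → Bool := onCell 0 536870912 0 536870912 991146299 28908434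
    (rowB 3 eng mog cd2q1 cd1q2a pd0 2 false true true .npp 1 0 2 (qsf 536870912 536870912 0 536870912 0) ndB2q1 ndB1q2a pcB0 Cut.none Ext.none)

def k0_pp_102_a : ∃ t, chk3 f_pp_102_a t 2 1 1 = true :=
  ⟨(b (a (b (l 2) (l 3)) (a (b (a (a (l 2) (b (b (l 16271744) (c (l 220283854951) (l 228336719287))) (l 3))) (b (b (a (l 16349144) (l 16384080)) (a (c (l 216525736791) (l 227799968183)) (l 16359704))) (b (a (l 250885588167) (b (l 212230862471) (l 3))) (l 3)))) (l 3)) (b (b (a (b (c (l 16460464) (l 16424888)) (a (l 16451528) (l 16541424))) (b (c (l 16424488) (l 16431472)) (l 16415496))) (a (b (a (l 210620354327) (l 16450192)) (a (l 3) (l 230484723655))) (b (a (l 16530112) (l 16449080)) (a (l 200420010071) (a (l 16478704) (l 16462112)))))) (a (l 3) (b (b (l 251422643719) (l 3)) (l 3)))))) (l 3)), by decide +kernel⟩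

def k1_pp_102_a : ∃ t, chk3 f_pp_102_a t 3 1 1 = true :=
  ⟨(b (a (b (a (b (a (c (b (l 16273344) (l 16294392)) (b (l 16255488) (l 16290424))) (c (l 16061472) (b (l 16087328) (l 16130664)))) (a (a (b (l 16369832) (l 16405016)) (l 16269128)) (a (l 16236672) (l 16164296)))) (c (b (a (l 16014976) (l 15894152)) (a (l 16076992) (l 15991256))) (b (a (l 15855848) (l 15816336)) (a (l 16042704) (l 15901192))))) (a (b (a (b (a (l 191829848535) (l 185924110007)) (l 3)) (b (a (l 175723420343) (l 16225848)) (a (l 184850501207) (l 170354890855)))) (l 3)) (b (b (a (a (l 16158072) (l 16092320)) (l 15997904)) (a (a (l 152638043559) (l 16182440)) (c (l 16072760) (l 16014496)))) (a (a (l 3) (l 263770153735)) (b (a (l 159080291463) (l 135994753367)) (l 3)))))) (b (a (b (c (l 15739456) (a (l 15688144) (l 15574896))) (c (a (b (l 15816592) (l 15861136)) (l 15743080)) (b (a (l 15757728) (l 15646928)) (l 15745768)))) (b (c (l 15576936) (l 15432968)) (c (b (l 15601224) (a (l 15664072) (l 15589472))) (b (l 15502160)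 (c (l 15565456) (l 15523888)))))) (a (b (a (c (l 15936712) (l 15870744)) (c (l 15833808) (l 15759784))) (a (b (c (l 16010792) (l 15937088)) (a (l 3) (l 227799500407))) (b (l 15933664) (c (l 15975680) (l 15868800))))) (b (a (c (l 15740968) (l 15660688)) (l 15617168)) (a (c (l 15843480) (l 15754384)) (c (l 15759512) (l 15667440))))))) (a (l 3) (b (a (l 3) (b (a (c (l 174649120263) (l 185386367287)) (b (c (l 15829768) (l 15732976)) (l 3))) (l 3))) (l 3)))), by decide +kernel⟩

theorem s2_pp_102_a : ∃ t, chk3 f_pp_102_a t 1 1 1 = true := ex3_a k0_pp_102_a k1_pp_102_a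

theorem c_pp_102_a : CertB 536870912 536870912 0 536870912 991146299 28908434 3 eng mog cd2q1 cd1q2a pd0 false true true .npp 1 0 2
    ndB2q1 ndB1q2a pcB0 Cut.none Ext.none :=
  certB2 (fam := false) (s1 := true) (s2 := true) (a := 1) (b := 0) (c := 2) (cn := .npp) (n1 := ndB2q1) (n2 := ndB1q2a) (pc := pcB0) (cut := Cut.none) (xt := Ext.none) (P1 := 536870912) (W1 := 536870912) (P2 := 0) (W2 := 536870912) (P3 := 991146299) (W3 := 28908434) (N0 := 3) (En := eng) (mo := mog) (C1 := cd2q1) (C2 := cd1q2a) (C3 := pd0)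
    rfl (fun _ => rfl) s2_pp_102_a

noncomputable def f_pp_102_b : ℕ → ℕ → ℕ → ℕ → Bool := onCell 536870912 536870912 0 536870912 991146299 28908434
    (rowB 3 eng mog cd2q1 cd1q2b pd0 1 false true true .npp 1 0 2 (qsf 536870912 536870912 1239849684 370763052 0) ndB2q1 ndB1q2b pcB0 Cut.none Ext.none)

def k0_pp_102_b : ∃ t, chk3 f_pp_102_b t 1 1 1 = true :=
  ⟨(a (b (l 1) (b (l 1) (a (l 1) (b (a (l 1) (c (l 252897806855) (l 264171824887))) (a (c (l 15594648) (l 278666911815)) (c (l 15552320) (l 15386480))))))) (b (a (l 1) (b (l 1) (b (a (l 1) (b (a (l 1) (a (l 1) (a (l 1) (l 16276224)))) (a (b (l 1) (l 522408298327)) (b (l 120828435111) (l 16376480))))) (a (b (a (l 1) (l 316786649559)) (a (l 16312528) (l 16413720))) (b (a (c (l 16551952) (l 16539072)) (l 16354840)) (a (l 16373800) (l 16465256))))))) (b (a (b (a (l 1) (b (l 310343385159) (l 196526494183))) (a (b (l 317322156263) (l 244844982103)) (b (l 15793152) (l 15841344)))) (b (a (c (l 178273042167) (b (l 16248304) (l 16109224))) (b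 (a (l 16272520) (l 16325104)) (a (l 16159872) (l 16193072)))) (a (c (l 15955112) (l 15917120)) (b (l 15990664) (l 15940720))))) (a (b (a (c (l 15721368) (l 15593416)) (c (l 15727896) (l 15631712))) (a (c (l 15547096) (l 15403088)) (l 15502336))) (b (a (l 15555048) (c (l 15793176) (l 15786184))) (a (l 15550088) (l 15620752))))))), by decide +kernel⟩

theorem c_pp_102_b : CertB 536870912 536870912 1239849684 370763052 991146299 28908434 3 eng mog cd2q1 cd1q2b pd0 false true true .npp 1 0 2
    ndB2q1 ndB1q2b pcB0 Cut.none Ext.none :=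
  certB1 (fam := false) (s1 := true) (s2 := true) (a := 1) (b := 0) (c := 2) (cn := .npp) (n1 := ndB2q1) (n2 := ndB1q2b) (pc := pcB0) (cut := Cut.none) (xt := Ext.none) (P1 := 536870912) (W1 := 536870912) (P2 := 1239849684) (W2 := 370763052) (P3 := 991146299) (W3 := 28908434) (N0 := 3) (En := eng) (mo := mog) (C1 := cd2q1) (C2 := cd1q2b) (C3 := pd0)
    rfl (fun _ => rfl) k0_pp_102_b

noncomputable def f_pp_112_a : ℕ → ℕ → ℕ → ℕ → Bool := onCell 536870912 536870912 0 536870912 991146299 28908434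
    (rowB 3 eng mog cd2q1 cd1q2a pd1 2 false true true .dn 1 1 2 (qsf 536870912 536870912 0 536870912 1) ndB2q1 ndB1q2a pcB1 Cut.none Ext.none)

def k0_pp_112_a : ∃ t, chk3 f_pp_112_a t 1 1 1 = true :=
  ⟨(a (b (a (a (b (b (a (l 15646848) (l 15566000)) (a (b (l 15923336) (b (l 16059832) (l 16040312))) (b (l 15822592) (l 15867336)))) (a (b (l 15952936) (c (l 15959744) (l 15851968))) (b (b (l 15965352) (l 15987896)) (c (l 15938528) (l 15826752))))) (b (a (b (l 15488696) (l 15656544)) (b (l 15415352) (l 15701304))) (b (b (a (b (l 15987936) (l 15992312)) (b (l 15879800) (l 15921992))) (a (l 15947000) (l 15896344))) (a (c (l 15910544) (l 15795480)) (c (l 15874176) (l 15756504)))))) (a (a (b (b (l 15346432) (l 15602680)) (b (b (l 15691088) (l 15831840)) (c (l 15828264) (l 15708672)))) (b (b (l 1) (l 1)) (l 1))) (l 1))) (b (a (a (b (b (a (a (l 15795872) (l 15789000)) (l 15830472)) (a (a (l 15746456) (l 143510230519)) (c (l 15743128) (l 15642320)))) (l 3)) (b (a (c (a (l 15783496) (l 15775216))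 (l 15674712)) (c (l 15759760) (l 15653464))) (b (a (a (l 193976303703) (l 131698846967)) (a (l 409126872375) (l 1))) (l 3)))) (l 1)) (a (l 3) (l 1)))) (l 1)), by decide +kernel⟩

theorem c_pp_112_a : CertB 536870912 536870912 0 536870912 991146299 28908434 3 eng mog cd2q1 cd1q2a pd1 false true true .dn 1 1 2
    ndB2q1 ndB1q2a pcB1 Cut.none Ext.none :=
  certB2 (fam := false) (s1 := true) (s2 := true) (a := 1) (b := 1) (c := 2) (cn := .dn) (n1 := ndB2q1) (n2 := ndB1q2a) (pc := pcB1) (cut := Cut.none) (xt := Ext.none) (P1 := 536870912) (W1 := 536870912) (P2 := 0) (W2 := 536870912) (P3 := 991146299) (W3 := 28908434) (N0 := 3) (En := eng) (mo := mog) (C1 := cd2q1) (C2 := cd1q2a) (C3 := pd1)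
    rfl (fun _ => rfl) k0_pp_112_a

noncomputable def f_pp_112_b : ℕ → ℕ → ℕ → ℕ → Bool := onCell 536870912 536870912 1239849684 370763052 991146299 28908434
    (rowB 3 eng mog cd2q1 cd1q2b pd1 2 false true true .dn 1 1 2 (qsf 536870912 536870912 1239849684 370763052 1) ndB2q1 ndB1q2b pcB1 Cut.none Ext.none)

def k0_pp_112_b : ∃ t, chk3 f_pp_112_b t 1 1 1 = true :=
  ⟨(a (a (b (a (b (c (l 15490752) (l 15338552)) (a (l 15487000) (l 15372624))) (b (b (l 15279288) (l 15240808)) (l 15221632))) (a (b (a (l 15603160) (l 15452472)) (a (l 15807600) (l 15614944))) (b (l 15254256) (l 15364368)))) (b (a (b (b (l 15183528) (l 15104136)) (l 15050360)) (b (b (l 351143785367) (l 14999720)) (l 14921936))) (a (b (l 15031064) (l 15081736)) (b (l 14864544) (l 14869136))))) (a (b (b (l 1) (a (l 14840088) (l 354901794375))) (b (a (l 14758216) (l 14715920)) (a (l 14730064) (l 14668064)))) (b (l 1) (a (b (l 14742008) (l 14686712)) (b (l 1) (l 14790600)))))), by decide +kernel⟩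

theorem c_pp_112_b : CertB 536870912 536870912 1239849684 370763052 991146299 28908434 3 eng mog cd2q1 cd1q2b pd1 false true true .dn 1 1 2
    ndB2q1 ndB1q2b pcB1 Cut.none Ext.none :=
  certB2 (fam := false) (s1 := true) (s2 := true) (a := 1) (b := 1) (c := 2) (cn := .dn) (n1 := ndB2q1) (n2 := ndB1q2b) (pc := pcB1) (cut := Cut.none) (xt := Ext.none) (P1 := 536870912) (W1 := 536870912) (P2 := 1239849684) (W2 := 370763052) (P3 := 991146299) (W3 := 28908434) (N0 := 3) (En := eng) (mo := mog) (C1 := cd2q1) (C2 := cd1q2b) (C3 := pd1)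
    rfl (fun _ => rfl) k0_pp_112_b

noncomputable def f_pp_113 : ℕ → ℕ → ℕ → ℕ → Bool := onCell 536870912 536870912 536870912 536870912 991146299 28908434
    (rowB 3 eng mog cd2q1 cd1q3 pd1 1 false true true .nn 1 1 3 (qsf 536870912 536870912 1610612736 536870912 1) ndB2q1 ndB1q3 pcB1 Cut.none Ext.none)

def k0_pp_113 : ∃ t, chk3 f_pp_113 t 1 1 1 = true :=
  ⟨(b (a (b (l 1) (a (l 1) (b (l 1) (l 333426588535)))) (b (a (b (l 1) (a (l 1) (l 15361920))) (b (a (l 15566400) (l 15906640)) (a (l 15493768) (l 15666160)))) (a (b (a (l 15074376) (l 15159072)) (l 229810127127)) (b (a (l 15283312) (l 15445400)) (a (l 15110312) (l 15279168)))))) (a (b (a (b (l 1) (l 381208128423)) (b (l 304972594999) (l 293698155687))) (a (b (l 364565076727) (a (l 14687904) (l 14701184))) (b (l 14647840) (l 14887808)))) (b (a (b (l 15025512) (l 14771472)) (b (l 15185120) (l 15133080))) (a (b (l 14841488) (l 15075512)) (b (l 15370008) (a (l 15642160) (l 16826384))))))), by decide +kernel⟩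

theorem c_pp_113 : CertB 536870912 536870912 1610612736 536870912 991146299 28908434 3 eng mog cd2q1 cd1q3 pd1 false true true .nn 1 1 3
    ndB2q1 ndB1q3 pcB1 Cut.none Ext.none :=
  certB1 (fam := false) (s1 := true) (s2 := true) (a := 1) (b := 1) (c := 3) (cn := .nn) (n1 := ndB2q1) (n2 := ndB1q3) (pc := pcB1) (cut := Cut.none) (xt := Ext.none) (P1 := 536870912) (W1 := 536870912) (P2 := 1610612736) (W2 := 536870912) (P3 := 991146299) (W3 := 28908434) (N0 := 3) (En := eng) (mo := mog) (C1 := cd2q1) (C2 := cd1q3) (C3 := pd1)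
    rfl (fun _ => rfl) k0_pp_113

noncomputable def f_pp_123 : ℕ → ℕ → ℕ → ℕ → Bool := onCell 1073741824 536870912 1610612736 536870912 991146299 28908434
    (rowB 3 eng mog cd2q1 cd1q3 pd2 2 false true true .npn 1 2 3 (qsf 536870912 536870912 1610612736 536870912 2) ndB2q1 ndB1q3 pcB2 Cut.none Ext.none)

def k0_pp_123 : ∃ t, chk3 f_pp_123 t 1 1 1 = true :=
  ⟨(a (b (a (b (a (c (l 15030960) (l 15181536)) (c (l 15004032) (l 15056824))) (a (c (l 15186888) (l 15295368)) (b (l 15103736) (l 15207720)))) (b (a (l 439189836295) (l 1)) (a (b (l 15044168) (l 15138824)) (l 432210762279)))) (a (b (a (b (l 15463192) (l 15717072)) (b (l 15362128) (l 15589848))) (a (b (a (l 16270352) (l 16038744)) (c (l 16625072) (l 16354240))) (b (l 15931216) (l 16133592)))) (b (a (l 15232032) (l 15200360)) (a (b (l 15846976) (l 16314720)) (b (l 15893080) (l 16313384)))))) (b (a (b (l 1) (a (l 463886337863) (l 1))) (l 1)) (a (b (a (b (l 15485256) (l 15738408)) (b (l 15705832) (l 15979024))) (a (b (l 16049856) (l 16437744))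 (b (l 16293672) (l 16658104)))) (b (a (l 669509807879) (l 1)) (a (b (l 16530104) (l 16145824)) (b (l 328597577815) (a (l 16232088) (l 4)))))))), by decide +kernel⟩

theorem c_pp_123 : CertB 536870912 536870912 1610612736 536870912 991146299 28908434 3 eng mog cd2q1 cd1q3 pd2 false true true .npn 1 2 3
    ndB2q1 ndB1q3 pcB2 Cut.none Ext.none :=
  certB2 (fam := false) (s1 := true) (s2 := true) (a := 1) (b := 2) (c := 3) (cn := .npn) (n1 := ndB2q1) (n2 := ndB1q3) (pc := pcB2) (cut := Cut.none) (xt := Ext.none) (P1 := 536870912) (W1 := 536870912) (P2 := 1610612736) (W2 := 536870912) (P3 := 991146299) (W3 := 28908434) (N0 := 3) (En := eng) (mo := mog) (C1 := cd2q1) (C2 := cd1q3) (C3 := pd2)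
    rfl (fun _ => rfl) k0_pp_123

noncomputable def f_pp_133 : ℕ → ℕ → ℕ → ℕ → Bool := onCell 1610612736 536870912 1610612736 536870912 991146299 28908434
    (rowB 3 eng mog cd2q1 cd1q3 pd3 2 false true true .dn 1 3 3 (qsf 536870912 536870912 1610612736 536870912 3) ndB2q1 ndB1q3 pcB3 Cut.none Ext.none)

def k0_pp_133 : ∃ t, chk3 f_pp_133 t 1 1 1 = true :=
  ⟨(a (b (l 1) (a (b (l 1) (l 4)) (l 1))) (l 1)), by decide +kernel⟩

theorem c_pp_133 : CertB 536870912 536870912 1610612736 536870912 991146299 28908434 3 eng mog cd2q1 cd1q3 pd3 false true true .dn 1 3 3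
    ndB2q1 ndB1q3 pcB3 Cut.none Ext.none :=
  certB2 (fam := false) (s1 := true) (s2 := true) (a := 1) (b := 3) (c := 3) (cn := .dn) (n1 := ndB2q1) (n2 := ndB1q3) (pc := pcB3) (cut := Cut.none) (xt := Ext.none) (P1 := 536870912) (W1 := 536870912) (P2 := 1610612736) (W2 := 536870912) (P3 := 991146299) (W3 := 28908434) (N0 := 3) (En := eng) (mo := mog) (C1 := cd2q1) (C2 := cd1q3) (C3 := pd3)
    rfl (fun _ => rfl) k0_pp_133

noncomputable def f_pp_202_aa : ℕ → ℕ → ℕ → ℕ → Bool := onCell 0 536870912 0 536870912 991146299 28908434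
    (rowB 3 eng mog cd2q2a cd1q2a pd0 0 false true true .pp 2 0 2 (qsf 0 536870912 0 536870912 0) ndB2q2a ndB1q2a pcB0 Cut.none Ext.none)

def k0_pp_202_aa : ∃ t, chk3 f_pp_202_aa t 1 1 1 = true :=
  ⟨(l 3), by decide +kernel⟩

theorem c_pp_202_aa : CertB 0 536870912 0 536870912 991146299 28908434 3 eng mog cd2q2a cd1q2a pd0 false true true .pp 2 0 2
    ndB2q2a ndB1q2a pcB0 Cut.none Ext.none :=
  certB0 (fam := false) (s1 := true) (s2 := true) (a := 2) (b := 0) (c := 2) (cn := .pp) (n1 := ndB2q2a) (n2 := ndB1q2a) (pc := pcB0) (cut := Cut.none) (xt := Ext.none) (P1 := 0) (W1 := 536870912) (P2 := 0) (W2 := 536870912) (P3 := 991146299) (W3 := 28908434) (N0 := 3) (En := eng) (mo := mog) (C1 := cd2q2a) (C2 := cd1q2a) (C3 := pd0)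
    rfl k0_pp_202_aa

noncomputable def f_pp_202_ab : ℕ → ℕ → ℕ → ℕ → Bool := onCell 0 536870912 1239849684 370763052 991146299 28908434
    (rowB 3 eng mog cd2q2a cd1q2b pd0 0 false true true .pp 2 0 2 (qsf 0 536870912 1239849684 370763052 0) ndB2q2a ndB1q2b pcB0 Cut.none Ext.none)

def k0_pp_202_ab : ∃ t, chk3 f_pp_202_ab t 1 1 1 = true :=
  ⟨(l 3), by decide +kernel⟩

theorem c_pp_202_ab : CertB 0 536870912 1239849684 370763052 991146299 28908434 3 eng mog cd2q2a cd1q2b pd0 false true true .pp 2 0 2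
    ndB2q2a ndB1q2b pcB0 Cut.none Ext.none :=
  certB0 (fam := false) (s1 := true) (s2 := true) (a := 2) (b := 0) (c := 2) (cn := .pp) (n1 := ndB2q2a) (n2 := ndB1q2b) (pc := pcB0) (cut := Cut.none) (xt := Ext.none) (P1 := 0) (W1 := 536870912) (P2 := 1239849684) (W2 := 370763052) (P3 := 991146299) (W3 := 28908434) (N0 := 3) (En := eng) (mo := mog) (C1 := cd2q2a) (C2 := cd1q2b) (C3 := pd0)
    rfl k0_pp_202_ab

noncomputable def f_pp_202_ba : ℕ → ℕ → ℕ → ℕ → Bool := onCell 1239849684 370763052 0 536870912 991146299 28908434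
    (rowB 3 eng mog cd2q2b cd1q2a pd0 0 false true true .pp 2 0 2 (qsf 1239849684 370763052 0 536870912 0) ndB2q2b ndB1q2a pcB0 Cut.none Ext.none)

def k0_pp_202_ba : ∃ t, chk3 f_pp_202_ba t 1 1 1 = true :=
  ⟨(l 3), by decide +kernel⟩

theorem c_pp_202_ba : CertB 1239849684 370763052 0 536870912 991146299 28908434 3 eng mog cd2q2b cd1q2a pd0 false true true .pp 2 0 2
    ndB2q2b ndB1q2a pcB0 Cut.none Ext.none :=
  certB0 (fam := false) (s1 := true) (s2 := true) (a := 2) (b := 0) (c := 2) (cn := .pp) (n1 := ndB2q2b) (n2 := ndB1q2a) (pc := pcB0) (cut := Cut.none) (xt := Ext.none) (P1 := 1239849684) (W1 := 370763052) (P2 := 0) (W2 := 536870912) (P3 := 991146299) (W3 := 28908434) (N0 := 3) (En := eng) (mo := mog) (C1 := cd2q2b) (C2 := cd1q2a) (C3 := pd0)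
    rfl k0_pp_202_ba

noncomputable def f_pp_202_bb : ℕ → ℕ → ℕ → ℕ → Bool := onCell 1239849684 370763052 1239849684 370763052 991146299 28908434
    (rowB 3 eng mog cd2q2b cd1q2b pd0 0 false true true .pp 2 0 2 (qsf 1239849684 370763052 1239849684 370763052 0) ndB2q2b ndB1q2b pcB0 Cut.none Ext.none)

def k0_pp_202_bb : ∃ t, chk3 f_pp_202_bb t 1 1 1 = true :=
  ⟨(l 3), by decide +kernel⟩

theorem c_pp_202_bb : CertB 1239849684 370763052 1239849684 370763052 991146299 28908434 3 eng mog cd2q2b cd1q2b pd0 false true true .pp 2 0 2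
    ndB2q2b ndB1q2b pcB0 Cut.none Ext.none :=
  certB0 (fam := false) (s1 := true) (s2 := true) (a := 2) (b := 0) (c := 2) (cn := .pp) (n1 := ndB2q2b) (n2 := ndB1q2b) (pc := pcB0) (cut := Cut.none) (xt := Ext.none) (P1 := 1239849684) (W1 := 370763052) (P2 := 1239849684) (W2 := 370763052) (P3 := 991146299) (W3 := 28908434) (N0 := 3) (En := eng) (mo := mog) (C1 := cd2q2b) (C2 := cd1q2b) (C3 := pd0)
    rfl k0_pp_202_bb

noncomputable def f_pp_203_a : ℕ → ℕ → ℕ → ℕ → Bool := onCell 0 536870912 0 536870912 991146299 28908434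
    (rowB 3 eng mog cd2q2a cd1q3 pd0 1 false true true .up 2 0 3 (qsf 0 536870912 1610612736 536870912 0) ndB2q2a ndB1q3 pcB0 Cut.none Ext.none)

def k0_pp_203_a : ∃ t, chk3 f_pp_203_a t 1 1 1 = true :=
  ⟨(l 3), by decide +kernel⟩

theorem c_pp_203_a : CertB 0 536870912 1610612736 536870912 991146299 28908434 3 eng mog cd2q2a cd1q3 pd0 false true true .up 2 0 3
    ndB2q2a ndB1q3 pcB0 Cut.none Ext.none :=
  certB1 (fam := false) (s1 := true) (s2 := true) (a := 2) (b := 0) (c := 3) (cn := .up) (n1 := ndB2q2a) (n2 := ndB1q3) (pc := pcB0) (cut := Cut.none) (xt := Ext.none) (P1 := 0) (W1 := 536870912) (P2 := 1610612736) (W2 := 536870912) (P3 := 991146299) (W3 := 28908434) (N0 := 3) (En := eng) (mo := mog) (C1 := cd2q2a) (C2 := cd1q3) (C3 := pd0)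
    rfl (fun _ => rfl) k0_pp_203_a

noncomputable def f_pp_203_b : ℕ → ℕ → ℕ → ℕ → Bool := onCell 1239849684 370763052 1610612736 536870912 991146299 28908434
    (rowB 3 eng mog cd2q2b cd1q3 pd0 0 false true true .up 2 0 3 (qsf 1239849684 370763052 1610612736 536870912 0) ndB2q2b ndB1q3 pcB0 Cut.none Ext.none)

def k0_pp_203_b : ∃ t, chk3 f_pp_203_b t 1 1 1 = true :=
  ⟨(l 3), by decide +kernel⟩

theorem c_pp_203_b : CertB 1239849684 370763052 1610612736 536870912 991146299 28908434 3 eng mog cd2q2b cd1q3 pd0 false true true .up 2 0 3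
    ndB2q2b ndB1q3 pcB0 Cut.none Ext.none :=
  certB0 (fam := false) (s1 := true) (s2 := true) (a := 2) (b := 0) (c := 3) (cn := .up) (n1 := ndB2q2b) (n2 := ndB1q3) (pc := pcB0) (cut := Cut.none) (xt := Ext.none) (P1 := 1239849684) (W1 := 370763052) (P2 := 1610612736) (W2 := 536870912) (P3 := 991146299) (W3 := 28908434) (N0 := 3) (En := eng) (mo := mog) (C1 := cd2q2b) (C2 := cd1q3) (C3 := pd0)
    rfl k0_pp_203_b

noncomputable def cut_pp_213_a : Cut := Cut.of [[⟨0, 1, 0, 37748736⟩, ⟨1, 1, 0, 37748736⟩, ⟨2, 2, 0, 5242880⟩]]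

noncomputable def f_pp_213_a : ℕ → ℕ → ℕ → ℕ → Bool := onCell 0 536870912 1610612736 536870912 991146299 28908434
    (rowB 3 eng mog cd2q2a cd1q3 pd1 0 false true true .pnn 2 1 3 (qsf 0 536870912 1610612736 536870912 1) ndB2q2a ndB1q3 pcB1 cut_pp_213_a Ext.none)

def k0_pp_213_a : ∃ t, chk3 f_pp_213_a t 1 1 1 = true :=
  ⟨(b (l 3) (b (l 3) (a (l 3) (a (l 3) (b (l 3) (a (l 3) (b (l 3) (a (l 3) (b (l 3) (b (l 3) (b (l 3) (l 6)))))))))))), by decide +kernel⟩

theorem c_pp_213_a : CertB 0 536870912 1610612736 536870912 991146299 28908434 3 eng mog cd2q2a cd1q3 pd1 false true true .pnn 2 1 3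
    ndB2q2a ndB1q3 pcB1 cut_pp_213_a Ext.none :=
  certB0 (fam := false) (s1 := true) (s2 := true) (a := 2) (b := 1) (c := 3) (cn := .pnn) (n1 := ndB2q2a) (n2 := ndB1q3) (pc := pcB1) (cut := cut_pp_213_a) (xt := Ext.none) (P1 := 0) (W1 := 536870912) (P2 := 1610612736) (W2 := 536870912) (P3 := 991146299) (W3 := 28908434) (N0 := 3) (En := eng) (mo := mog) (C1 := cd2q2a) (C2 := cd1q3) (C3 := pd1)
    rfl k0_pp_213_a

noncomputable def cut_pp_213_b : Cut := Cut.of [[⟨0, 1, 0, 37748736⟩, ⟨1, 1, 0, 37748736⟩, ⟨2, 2, 0, 5242880⟩]]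

noncomputable def f_pp_213_b : ℕ → ℕ → ℕ → ℕ → Bool := onCell 1239849684 370763052 1610612736 536870912 991146299 28908434
    (rowB 3 eng mog cd2q2b cd1q3 pd1 0 false true true .pnn 2 1 3 (qsf 1239849684 370763052 1610612736 536870912 1) ndB2q2b ndB1q3 pcB1 cut_pp_213_b Ext.none)

def k0_pp_213_b : ∃ t, chk3 f_pp_213_b t 1 1 1 = true :=
  ⟨(l 3), by decide +kernel⟩

theorem c_pp_213_b : CertB 1239849684 370763052 1610612736 536870912 991146299 28908434 3 eng mog cd2q2b cd1q3 pd1 false true true .pnn 2 1 3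
    ndB2q2b ndB1q3 pcB1 cut_pp_213_b Ext.none :=
  certB0 (fam := false) (s1 := true) (s2 := true) (a := 2) (b := 1) (c := 3) (cn := .pnn) (n1 := ndB2q2b) (n2 := ndB1q3) (pc := pcB1) (cut := cut_pp_213_b) (xt := Ext.none) (P1 := 1239849684) (W1 := 370763052) (P2 := 1610612736) (W2 := 536870912) (P3 := 991146299) (W3 := 28908434) (N0 := 3) (En := eng) (mo := mog) (C1 := cd2q2b) (C2 := cd1q3) (C3 := pd1)
    rfl k0_pp_213_b

noncomputable def f_pp_303 : ℕ → ℕ → ℕ → ℕ → Bool := onCell 1610612736 536870912 1610612736 536870912 991146299 28908434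
    (rowB 3 eng mog cd2q3 cd1q3 pd0 0 false true true .npn 3 0 3 (qsf 1610612736 536870912 1610612736 536870912 0) ndB2q3 ndB1q3 pcB0 Cut.none Ext.none)

def k0_pp_303 : ∃ t, chk3 f_pp_303 t 1 1 1 = true :=
  ⟨(l 3), by decide +kernel⟩

theorem c_pp_303 : CertB 1610612736 536870912 1610612736 536870912 991146299 28908434 3 eng mog cd2q3 cd1q3 pd0 false true true .npn 3 0 3
    ndB2q3 ndB1q3 pcB0 Cut.none Ext.none :=
  certB0 (fam := false) (s1 := true) (s2 := true) (a := 3) (b := 0) (c := 3) (cn := .npn) (n1 := ndB2q3) (n2 := ndB1q3) (pc := pcB0) (cut := Cut.none) (xt := Ext.none) (P1 := 1610612736) (W1 := 536870912) (P2 := 1610612736) (W2 := 536870912) (P3 := 991146299) (W3 := 28908434) (N0 := 3) (En := eng) (mo := mog) (C1 := cd2q3) (C2 := cd1q3) (C3 := pd0)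
    rfl k0_pp_303

noncomputable def f_pp_313 : ℕ → ℕ → ℕ → ℕ → Bool := onCell 1610612736 536870912 1610612736 536870912 991146299 28908434
    (rowB 3 eng mog cd2q3 cd1q3 pd1 0 false true true .dn 3 1 3 (qsf 1610612736 536870912 1610612736 536870912 1) ndB2q3 ndB1q3 pcB1 Cut.none Ext.none)

def k0_pp_313 : ∃ t, chk3 f_pp_313 t 1 1 1 = true :=
  ⟨(l 3), by decide +kernel⟩

theorem c_pp_313 : CertB 1610612736 536870912 1610612736 536870912 991146299 28908434 3 eng mog cd2q3 cd1q3 pd1 false true true .dn 3 1 3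
    ndB2q3 ndB1q3 pcB1 Cut.none Ext.none :=
  certB0 (fam := false) (s1 := true) (s2 := true) (a := 3) (b := 1) (c := 3) (cn := .dn) (n1 := ndB2q3) (n2 := ndB1q3) (pc := pcB1) (cut := Cut.none) (xt := Ext.none) (P1 := 1610612736) (W1 := 536870912) (P2 := 1610612736) (W2 := 536870912) (P3 := 991146299) (W3 := 28908434) (N0 := 3) (En := eng) (mo := mog) (C1 := cd2q3) (C2 := cd1q3) (C3 := pd1)
    rfl k0_pp_313

noncomputable def f_pm_001 : ℕ → ℕ → ℕ → ℕ → Bool := onCell 0 536870912 536870912 536870912 991146299 28908434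
    (rowB 3 eng mog cd2q0 cd1q1 pd0 0 false true false .up 0 0 1 (qsf 0 536870912 536870912 536870912 0) ndB2q0 ndB1q1 pcB0 Cut.none Ext.none)

def k0_pm_001 : ∃ t, chk3 f_pm_001 t 1 1 1 = true :=
  ⟨(l 4), by decide +kernel⟩

theorem c_pm_001 : CertB 0 536870912 536870912 536870912 991146299 28908434 3 eng mog cd2q0 cd1q1 pd0 false true false .up 0 0 1
    ndB2q0 ndB1q1 pcB0 Cut.none Ext.none :=
  certB0 (fam := false) (s1 := true) (s2 := false) (a := 0) (b := 0) (c := 1) (cn := .up) (n1 := ndB2q0) (n2 := ndB1q1) (pc := pcB0) (cut := Cut.none) (xt := Ext.none) (P1 := 0) (W1 := 536870912) (P2 := 536870912) (W2 := 536870912) (P3 := 991146299) (W3 := 28908434) (N0 := 3) (En := eng) (mo := mog) (C1 := cd2q0) (C2 := cd1q1) (C3 := pd0)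
    rfl k0_pm_001

noncomputable def f_pm_011 : ℕ → ℕ → ℕ → ℕ → Bool := onCell 0 536870912 536870912 536870912 991146299 28908434
    (rowB 3 eng mog cd2q0 cd1q1 pd1 0 false true false .pnn 0 1 1 (qsf 0 536870912 536870912 536870912 1) ndB2q0 ndB1q1 pcB1 Cut.none Ext.none)

def k0_pm_011 : ∃ t, chk3 f_pm_011 t 1 1 1 = true :=
  ⟨(l 4), by decide +kernel⟩

theorem c_pm_011 : CertB 0 536870912 536870912 536870912 991146299 28908434 3 eng mog cd2q0 cd1q1 pd1 false true false .pnn 0 1 1
    ndB2q0 ndB1q1 pcB1 Cut.none Ext.none :=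
  certB0 (fam := false) (s1 := true) (s2 := false) (a := 0) (b := 1) (c := 1) (cn := .pnn) (n1 := ndB2q0) (n2 := ndB1q1) (pc := pcB1) (cut := Cut.none) (xt := Ext.none) (P1 := 0) (W1 := 536870912) (P2 := 536870912) (W2 := 536870912) (P3 := 991146299) (W3 := 28908434) (N0 := 3) (En := eng) (mo := mog) (C1 := cd2q0) (C2 := cd1q1) (C3 := pd1)
    rfl k0_pm_011

noncomputable def cut_pm_012_a : Cut := Cut.of [[⟨0, 0, 0, 53687091⟩, ⟨1, 1, 0, 53687091⟩, ⟨2, 1, 0, 53687091⟩]]

noncomputable def xt_pm_012_a : Ext := extD3 3 ⟨4, 1, 1, 5, 22, 5, 21, 25, 41, 100, 1, 20⟩ eng cd2q0 cd1q2a pd1 false true false .pnp 0 1 2 rfl ndB2q0 ndB1q2a pcB1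

noncomputable def f_pm_012_a : ℕ → ℕ → ℕ → ℕ → Bool := onCell 536870912 536870912 0 536870912 991146299 28908434
    (rowB 3 eng mog cd2q0 cd1q2a pd1 2 false true false .pnp 0 1 2 (qsf 0 536870912 0 536870912 1) ndB2q0 ndB1q2a pcB1 cut_pm_012_a xt_pm_012_a)

def k0_pm_012_a : ∃ t, chk3 f_pm_012_a t 1 2 1 = true :=
  ⟨(a (a (b (l 2) (a (l 2) (b (l 2) (l 15780008)))) (b (a (c (l 15630920) (l 15398888)) (c (l 15627056) (l 15394024))) (b (a (a (l 15668576) (l 15631824)) (a (l 15600560) (l 15583280))) (a (l 15716464) (a (l 15673760) (l 15653536)))))) (a (a (b (c (l 15680240) (l 15459392)) (b (l 15588464) (a (l 15641376) (a (l 15637816) (l 15640216))))) (b (a (l 15658304) (l 15736376)) (a (l 15474072) (b (l 15676744) (l 15684520))))) (a (b (a (l 15830296) (l 15792848)) (a (b (l 15740848) (l 15733528)) (b (l 15821376) (l 15799808)))) (b (a (c (l 16123136) (l 16002504)) (b (l 16229224) (l 16086752))) (a (b (l 15918136) (l 15883408)) (b (l 16030704) (l 15753512))))))), by decide +kernel⟩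

def k1_pm_012_a : ∃ t, chk3 f_pm_012_a t 1 6 1 = true :=
  ⟨(a (a (a (l 2) (b (l 15834840) (b (l 15856496) (l 15806800)))) (a (b (l 15791648) (b (l 15695104) (l 15818312))) (b (l 15634000) (b (a (l 15840040) (l 15840216)) (l 15681584))))) (a (a (a (b (l 15742864) (b (l 15841632) (l 15882080))) (b (l 15734336) (b (l 15844232) (l 15907984)))) (a (b (b (l 15700080) (l 15764864)) (b (l 15848784) (l 15867304))) (b (c (l 15719632) (l 15671424)) (b (l 15852120) (b (l 15925496) (l 15973328)))))) (a (a (b (a (b (l 15744896) (l 15781176)) (l 15785960)) (c (b (l 15924432) (l 15954080)) (b (l 15796416) (a (l 15880232) (l 15905568))))) (b (c (l 15891664) (l 15766600)) (c (a (l 15942000) (l 15853736)) (b (l 15839728) (l 15927656))))) (a (b (c (l 15959024) (l 15849120)) (b (l 15961672) (a (b (l 15986776) (l 15925120)) (l 16045768)))) (b (a (l 15972832) (l 16024240)) (a (b (l 16027704) (l 16091440)) (b (l 16078264) (l 16142440)))))))), by decide +kernel⟩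

def k2_pm_012_a : ∃ t, chk3 f_pm_012_a t 1 7 1 = true :=
  ⟨(b (a (a (a (c (l 15631248) (b (l 15634624) (l 15597568))) (b (l 15620688) (a (l 15754960) (l 15787752)))) (a (a (b (l 15791264) (l 15805584)) (b (l 15815728) (l 4))) (b (a (l 15845656) (l 15879872)) (l 4)))) (a (a (b (a (l 15917432) (l 15767912)) (l 4)) (c (a (l 177400441943) (a (l 15967256) (l 15976792))) (a (b (l 15911048) (l 4)) (b (l 15804352) (l 15999632))))) (a (a (a (b (b (l 16037680) (l 16082904)) (l 197801662007)) (b (b (l 16053168) (l 16101656)) (b (l 16160040) (l 4)))) (b (c (a (l 16143920) (l 16145440)) (a (l 16015712) (l 15986872))) (c (a (l 16279216) (l 16284576)) (a (l 16185056) (l 16137456))))) (a (b (a (c (l 15985440) (b (l 16041360) (l 16101800))) (c (l 16174144) (l 16102912))) (b (a (c (l 16257984) (l 16181880)) (c (l 16263160) (a (l 16193856) (l 16209336)))) (a (c (l 16329888) (l 16260752)) (c (l 16339224) (l 569326612053132473921151))))) (b (a (l 16073048) (c (l 16255752) (l 16203864))) (a (a (b (l 16251072)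 (c (l 16346280) (l 16300672))) (a (l 138175178608443519) (l 138503520288931967))) (b (l 16206872) (c (l 16391184) (l 16359536))))))))) (a (a (l 4) (l 4)) (a (l 4) (a (l 4) (a (b (a (l 4) (b (c (l 16421560) (l 357252983719)) (l 4))) (l 4)) (b (a (a (b (c (l 16429240) (l 16350080)) (b (l 441005132087) (l 4))) (b (c (l 16434512) (l 139922302797529215)) (c (l 489860472743) (l 583318469957657753857663)))) (b (a (c (l 16447544) (l 16422256)) (l 6)) (l 6))) (a (l 4) (l 6)))))))), by decide +kernel⟩

theorem s3_pm_012_a : ∃ t, chk3 f_pm_012_a t 1 3 1 = true := ex3_b k1_pm_012_a k2_pm_012_a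

theorem s4_pm_012_a : ∃ t, chk3 f_pm_012_a t 1 1 1 = true := ex3_b k0_pm_012_a s3_pm_012_a

theorem c_pm_012_a : CertB 0 536870912 0 536870912 991146299 28908434 3 eng mog cd2q0 cd1q2a pd1 false true false .pnp 0 1 2
    ndB2q0 ndB1q2a pcB1 cut_pm_012_a xt_pm_012_a :=
  certB2 (fam := false) (s1 := true) (s2 := false) (a := 0) (b := 1) (c := 2) (cn := .pnp) (n1 := ndB2q0) (n2 := ndB1q2a) (pc := pcB1) (cut := cut_pm_012_a) (xt := xt_pm_012_a) (P1 := 0) (W1 := 536870912) (P2 := 0) (W2 := 536870912) (P3 := 991146299) (W3 := 28908434) (N0 := 3) (En := eng) (mo := mog) (C1 := cd2q0) (C2 := cd1q2a) (C3 := pd1)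
    rfl (fun _ => rfl) s4_pm_012_a

noncomputable def cut_pm_012_b : Cut := Cut.of [[⟨0, 0, 0, 53687091⟩, ⟨1, 1, 0, 53687091⟩, ⟨2, 1, 0, 53687091⟩]]

noncomputable def f_pm_012_b : ℕ → ℕ → ℕ → ℕ → Bool := onCell 0 536870912 536870912 536870912 991146299 28908434
    (rowB 3 eng mog cd2q0 cd1q2b pd1 1 false true false .pnp 0 1 2 (qsf 0 536870912 1239849684 370763052 1) ndB2q0 ndB1q2b pcB1 cut_pm_012_b Ext.none)

def k0_pm_012_b : ∃ t, chk3 f_pm_012_b t 1 1 1 = true :=
  ⟨(a (b (l 1) (b (l 1) (a (l 1) (a (b (l 1) (a (b (l 1) (l 16351560)) (b (l 16406144) (l 16342472)))) (b (c (b (l 16031856) (l 16046776)) (l 476236228855)) (a (b (l 16142920) (l 16093136)) (b (l 15957592) (l 15860112)))))))) (b (a (l 1) (b (l 1) (a (b (l 1) (l 453149702023)) (b (l 442949026327) (l 296382995959))))) (a (b (a (b (l 1) (a (l 497173972055) (l 15595840))) (b (a (l 483214887399) (l 15641152)) (c (l 15691792) (l 15472760)))) (a (b (a (l 15684160) (l 15684120)) (c (l 15683240) (l 15507304))) (b (c (l 15536744) (l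 15321392)) (c (l 15343896) (l 15129304))))) (b (a (b (l 293161872711) (l 15311136)) (b (l 15242888) (l 15099656))) (a (b (l 15150048) (l 14953960)) (b (l 14937864) (l 14745520))))))), by decide +kernel⟩

theorem c_pm_012_b : CertB 0 536870912 1239849684 370763052 991146299 28908434 3 eng mog cd2q0 cd1q2b pd1 false true false .pnp 0 1 2
    ndB2q0 ndB1q2b pcB1 cut_pm_012_b Ext.none :=
  certB1 (fam := false) (s1 := true) (s2 := false) (a := 0) (b := 1) (c := 2) (cn := .pnp) (n1 := ndB2q0) (n2 := ndB1q2b) (pc := pcB1) (cut := cut_pm_012_b) (xt := Ext.none) (P1 := 0) (W1 := 536870912) (P2 := 1239849684) (W2 := 370763052) (P3 := 991146299) (W3 := 28908434) (N0 := 3) (En := eng) (mo := mog) (C1 := cd2q0) (C2 := cd1q2b) (C3 := pd1)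
    rfl (fun _ => rfl) k0_pm_012_b

noncomputable def cut_pm_022_a : Cut := Cut.of [[⟨0, 0, 0, 53687091⟩, ⟨1, 1, 0, 53687091⟩, ⟨2, 1, 0, 53687091⟩]]

noncomputable def f_pm_022_a : ℕ → ℕ → ℕ → ℕ → Bool := onCell 1073741824 536870912 0 536870912 991146299 28908434
    (rowB 3 eng mog cd2q0 cd1q2a pd2 2 false true false .pp 0 2 2 (qsf 0 536870912 0 536870912 2) ndB2q0 ndB1q2a pcB2 cut_pm_022_a Ext.none)

def k0_pm_022_a : ∃ t, chk3 f_pm_022_a t 2 2 1 = true :=
  ⟨(a (a (b (a (b (c (l 16202616) (l 16113328)) (c (l 16432760) (l 16295880))) (b (c (l 16191272) (l 16105848)) (c (l 16358976) (a (l 16343064) (l 16305416))))) (b (a (a (l 16202944) (l 16299448)) (c (l 16464360) (l 16366576))) (c (a (a (l 16312584) (l 16390896)) (l 16355656)) (a (a (l 16349944) (l 16431584)) (l 16297176))))) (b (a (c (b (l 16186744) (l 16245560)) (a (l 16023440) (l 16040976))) (a (b (l 16084312) (l 16150584)) (b (c (l 16190280) (l 16128416)) (c (l 16234568) (l 16184136))))) (a (b (a (l 16288344) (c (l 16344696) (l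 16301192))) (a (c (l 16437080) (l 16362704)) (c (l 16334224) (l 16316344)))) (b (a (c (l 16300016) (l 16254720)) (c (l 16239560) (l 16154312))) (a (c (b (l 16316920) (l 16320672)) (b (l 16274400) (l 16258024))) (c (b (l 16247744) (a (l 16280080) (l 702259653271))) (b (l 16209576) (a (l 16244144) (l 16205904))))))))) (a (b (a (a (b (c (l 16184456) (l 16133944)) (c (l 16215400) (l 16175616))) (b (c (l 621191905975) (l 635150452967)) (c (l 642666822327) (l 647498606679)))) (b (l 1) (l 1))) (a (a (c (b (b (l 16228136) (l 16210072)) (b (l 667362892055) (l 1017402823015))) (a (b (l 16201304) (l 960494410167)) (b (l 16177072) (l 1017402758471)))) (a (b (a (l 1012570923527) (l 1043709420503)) (l 1)) (l 1))) (l 1))) (l 1))), by decide +kernel⟩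

def k1_pm_022_a : ∃ t, chk3 f_pm_022_a t 8 3 1 = true :=
  ⟨(b (c (a (b (a (l 16272712) (l 16350984)) (a (b (l 16289240) (l 16329920)) (b (l 16403024) (l 16389696)))) (b (a (l 16467168) (l 16511648)) (a (b (l 16512136) (l 16528152)) (b (l 16498664) (b (l 16431888) (c (l 16475424) (l 16460904))))))) (a (b (a (l 16282200) (l 16348256)) (a (b (l 16285472) (l 16322320)) (b (l 16411792) (l 16376008)))) (b (a (l 16493392) (l 16447576)) (b (a (l 16532464) (l 16452120)) (a (l 16486272) (b (l 16402768) (a (l 16504384) (l 16475976)))))))) (b (a (b (a (c (a (l 16361576) (l 16428368)) (a (l 16349816) (l 16425432))) (a (c (l 16472872) (l 16478472)) (c (l 16557912) (l 16571736)))) (b (c (a (a (l 16425928) (l 16495688)) (a (l 16543040) (l 16630632))) (a (a (l 16416872) (l 16496256)) (a (l 16573880) (l 16627856)))) (l 6))) (a (b (c (b (l 16493856) (a (l 16636752) (l 16523872))) (a (l 16516320) (b (l 16570160) (l 16498240)))) (b (a (c (l 16542920) (b (l 16586080) (l 16581552))) (b (c (l 16537088) (l 16534392))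 (b (c (l 16532456) (l 16509928)) (l 6)))) (l 6))) (b (a (c (b (l 16505112) (a (l 16549888) (l 16504304))) (b (l 16476112) (a (l 16523760) (l 16499240)))) (b (c (a (l 16511520) (l 16487840)) (a (l 16482560) (l 16459296))) (a (c (b (l 16503832) (l 692059537239)) (b (l 16477256) (l 694206973991))) (b (c (l 698501958999) (l 699038780231)) (c (l 998612841591) (l 994317824263)))))) (a (b (c (a (b (l 16541088) (a (l 16544672) (l 968548183975))) (a (l 927209101559) (l 974453716183))) (a (a (l 631393175671) (l 853657710103)) (b (l 695280750455) (l 1036730701783)))) (a (a (l 6) (l 1)) (l 1))) (a (a (b (c (l 1019013976231) (l 1014718962215)) (l 1)) (l 1)) (l 1)))))) (a (l 6) (a (l 6) (l 1))))), by decide +kernel⟩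

def k2_pm_022_a : ∃ t, chk3 f_pm_022_a t 9 3 1 = true :=
  ⟨(a (b (b (a (c (b (l 16456440) (l 16375776)) (b (l 16425144) (l 16342288))) (c (b (l 16343616) (c (l 16329040) (l 16289448))) (b (l 16284320) (a (l 16361960) (l 16262960))))) (b (c (a (a (l 16455472) (l 16350528)) (a (c (l 598643756823) (l 16343016)) (b (l 629782194679) (a (l 911639522583) (l 984653933095))))) (a (a (l 16441960) (b (l 16398744) (l 16396400))) (a (b (l 16359816) (l 616360421831)) (b (l 635150850215) (l 933114284823))))) (a (c (a (b (l 16469536) (a (l 16473760) (l 16451040))) (b (a (l 16436880) (l 16415144)) (a (l 677027014807) (l 943315003799)))) (a (b (l 16435296) (a (l 16442520) (l 16420528))) (b (a (l 16403960) (l 16383272)) (a (l 680248189831) (l 937946236935))))) (a (b (a (c (l 891238506199) (l 885869737335)) (c (l 962105418423) (l 956736650199))) (l 1)) (l 1))))) (b (a (b (a (a (b (c (b (l 16466992) (l 839162169607)) (l 659847152231)) (c (l 1000760282663) (l 997002135447))) (b (c (l 929893300599) (l 925598278183))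 (l 1))) (a (b (c (l 1005592051975) (l 1000760159831)) (l 1)) (l 1))) (l 1)) (l 1)) (l 1))) (b (a (b (c (b (a (l 16334832) (l 16303976)) (a (b (l 16331384) (l 655551954231)) (b (l 755409970519) (l 991633137335)))) (b (a (l 16294368) (l 16268288)) (a (b (l 16295568) (l 659309999831)) (l 940630368695)))) (a (a (b (c (l 969621516599) (l 963715878087)) (l 1)) (l 1)) (l 1))) (b (b (a (c (l 910565539047) (l 920229182663)) (a (l 995391143783) (l 1))) (l 1)) (l 1))) (l 1))), by decide +kernel⟩

def k3_pm_022_a : ∃ t, chk3 f_pm_022_a t 5 3 1 = true :=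
  ⟨(b (l 1) (l 1)), by decide +kernel⟩

def k4_pm_022_a : ∃ t, chk3 f_pm_022_a t 3 1 1 = true :=
  ⟨(l 1), by decide +kernel⟩

theorem s5_pm_022_a : ∃ t, chk3 f_pm_022_a t 4 3 1 = true := ex3_a k1_pm_022_a k2_pm_022_a

theorem s6_pm_022_a : ∃ t, chk3 f_pm_022_a t 2 3 1 = true := ex3_a s5_pm_022_a k3_pm_022_a

theorem s7_pm_022_a : ∃ t, chk3 f_pm_022_a t 2 1 1 = true := ex3_b k0_pm_022_a s6_pm_022_a

theorem s8_pm_022_a : ∃ t, chk3 f_pm_022_a t 1 1 1 = true := ex3_a s7_pm_022_a k4_pm_022_a

theorem c_pm_022_a : CertB 0 536870912 0 536870912 991146299 28908434 3 eng mog cd2q0 cd1q2a pd2 false true false .pp 0 2 2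
    ndB2q0 ndB1q2a pcB2 cut_pm_022_a Ext.none :=
  certB2 (fam := false) (s1 := true) (s2 := false) (a := 0) (b := 2) (c := 2) (cn := .pp) (n1 := ndB2q0) (n2 := ndB1q2a) (pc := pcB2) (cut := cut_pm_022_a) (xt := Ext.none) (P1 := 0) (W1 := 536870912) (P2 := 0) (W2 := 536870912) (P3 := 991146299) (W3 := 28908434) (N0 := 3) (En := eng) (mo := mog) (C1 := cd2q0) (C2 := cd1q2a) (C3 := pd2)
    rfl (fun _ => rfl) s8_pm_022_a

noncomputable def cut_pm_022_b : Cut := Cut.of [[⟨0, 0, 0, 53687091⟩, ⟨1, 1, 0, 53687091⟩, ⟨2, 1, 0, 53687091⟩]]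

noncomputable def f_pm_022_b : ℕ → ℕ → ℕ → ℕ → Bool := onCell 0 536870912 1073741824 536870912 991146299 28908434
    (rowB 3 eng mog cd2q0 cd1q2b pd2 1 false true false .pp 0 2 2 (qsf 0 536870912 1239849684 370763052 2) ndB2q0 ndB1q2b pcB2 cut_pm_022_b Ext.none)

def k0_pm_022_b : ∃ t, chk3 f_pm_022_b t 2 2 1 = true :=
  ⟨(b (a (b (a (l 1) (a (b (l 1) (a (l 1) (c (l 532607633399) (l 542271018583)))) (b (b (l 1) (c (l 483215562439) (l 490731446743))) (c (l 407516966631) (l 413959218055))))) (a (a (b (l 1) (c (l 789768800615) (l 803727195319))) (b (b (l 1) (c (l 517575265719) (l 519185593415))) (a (b (l 520259579895) (l 368862191895)) (b (l 16072968) (l 16207368))))) (b (a (c (l 394631996375) (l 398926744567)) (b (l 16091728) (l 16296416))) (a (b (l 16103520) (l 16307096)) (l 16174656))))) (b (a (b (a (c (l 388726570903) (l 402148066471)) (c (l 16358248) (l 16165392))) (a (c (l 16330872) (l 16162280)) (c (l 16383864) (l 16464472)))) (c (b (l 16193008) (l 16062032)) (b (a (l 16481416) (l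 16213160)) (l 16091072)))) (a (b (c (l 16289168) (l 16199536)) (c (l 16114192) (l 16097456))) (b (a (l 15906544) (l 15799848)) (c (l 15782632) (l 15719280)))))) (a (b (a (a (b (b (a (l 815538850503) (l 16023520)) (a (l 16155216) (l 16214520))) (a (c (l 16177304) (l 16151936)) (l 16131432))) (b (b (l 16133160) (l 16293328)) (l 16130816))) (b (a (l 16185376) (l 16197768)) (c (l 16134968) (l 16074848)))) (a (b (a (a (b (l 16345040) (l 16261496)) (l 16188136)) (l 16027264)) (a (c (l 16157184) (l 15903040)) (c (l 16059528) (l 15950792)))) (b (c (l 16008456) (l 15830928)) (c (l 15914480) (l 15797880))))) (c (b (a (l 16039632) (l 15655416)) (a (l 15632616) (l 15588752))) (b (a (b (l 15871328) (l 15772328)) (l 15465112)) (a (l 15407376) (l 15458672)))))), by decide +kernel⟩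

def k1_pm_022_b : ∃ t, chk3 f_pm_022_b t 3 2 1 = true :=
  ⟨(b (b (a (a (b (c (l 15832040) (l 15833400)) (c (l 15688080) (l 15659800))) (b (l 15280264) (l 15348696))) (a (c (l 15176960) (l 15091728)) (l 14701648))) (a (a (b (l 15420496) (l 15455640)) (b (l 15267512) (l 15222216))) (a (l 14801288) (l 14938080)))) (a (b (a (b (l 15397080) (l 15371144)) (l 15210056)) (c (l 15360568) (l 15100416))) (b (c (l 15133832) (l 14991920)) (l 2)))), by decide +kernel⟩

def k2_pm_022_b : ∃ t, chk3 f_pm_022_b t 1 3 1 = true :=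
  ⟨(b (a (a (b (b (a (a (c (l 15950912) (l 15879304)) (l 15709400)) (c (l 15851392) (l 15722240))) (a (a (b (l 15724744) (l 15727320)) (l 15679680)) (c (l 15817024) (l 15685480)))) (a (c (b (l 15786264) (l 15848232)) (a (b (l 15730864) (l 15704920)) (l 15711536))) (b (c (l 15808752) (l 15684736)) (l 15771640)))) (b (a (b (l 15635264) (l 15645096)) (b (l 15548928) (l 15600232))) (a (b (l 15703880) (l 15766440)) (c (l 15756240) (l 15688384))))) (a (b (b (l 15363136) (l 2)) (l 2)) (l 2))) (a (a (b (a (b (c (l 15849336) (l 15557544)) (a (l 15576928) (l 15841192))) (b (l 15818552) (l 15883616))) (a (b (a (l 15593984) (l 15747568)) (a (l 15607536) (l 15591144))) (b (c (l 15753864) (l 15815064)) (l 2)))) (b (a (b (l 15849624) (l 2)) (l 2)) (l 2))) (l 2))), by decide +kernel⟩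

theorem s3_pm_022_b : ∃ t, chk3 f_pm_022_b t 1 2 1 = true := ex3_a k0_pm_022_b k1_pm_022_b

theorem s4_pm_022_b : ∃ t, chk3 f_pm_022_b t 1 1 1 = true := ex3_b s3_pm_022_b k2_pm_022_b

theorem c_pm_022_b : CertB 0 536870912 1239849684 370763052 991146299 28908434 3 eng mog cd2q0 cd1q2b pd2 false true false .pp 0 2 2
    ndB2q0 ndB1q2b pcB2 cut_pm_022_b Ext.none :=
  certB1 (fam := false) (s1 := true) (s2 := false) (a := 0) (b := 2) (c := 2) (cn := .pp) (n1 := ndB2q0) (n2 := ndB1q2b) (pc := pcB2) (cut := cut_pm_022_b) (xt := Ext.none) (P1 := 0) (W1 := 536870912) (P2 := 1239849684) (W2 := 370763052) (P3 := 991146299) (W3 := 28908434) (N0 := 3) (En := eng) (mo := mog) (C1 := cd2q0) (C2 := cd1q2b) (C3 := pd2)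
    rfl (fun _ => rfl) s4_pm_022_b

noncomputable def f_pm_023 : ℕ → ℕ → ℕ → ℕ → Bool := onCell 1073741824 536870912 1610612736 536870912 991146299 28908434
    (rowB 3 eng mog cd2q0 cd1q3 pd2 2 false true false .up 0 2 3 (qsf 0 536870912 1610612736 536870912 2) ndB2q0 ndB1q3 pcB2 Cut.none Ext.none)

def k0_pm_023 : ∃ t, chk3 f_pm_023 t 1 1 1 = true :=
  ⟨(a (a (b (b (a (c (l 15025560) (l 14787792)) (c (l 15103024) (l 14829728))) (a (l 2) (c (l 15045984) (l 14932640)))) (l 2)) (b (c (b (a (l 15286192) (l 15226248)) (a (l 15175824) (l 15369712))) (b (a (l 15108728) (b (l 15353776) (l 15281560))) (a (l 15049008) (l 15256280)))) (b (a (l 2) (c (l 15433352) (l 15393624))) (l 2)))) (b (a (b (a (b (c (l 15716448) (l 15563840)) (l 15591432)) (b (c (l 15882232) (l 15763336)) (c (l 15855576) (l 15773832)))) (a (c (l 15601248) (l 15522544)) (a (l 15768800) (l 15896216)))) (b (a (b (a (l 15938352) (l 15763768)) (a (l 15967720) (l 15951096))) (b (a (b (l 15651328) (l 15684952)) (c (l 15369200) (l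 15539024))) (a (c (l 15749256) (l 15859936)) (b (l 15587128) (l 4))))) (a (b (a (l 15989392) (l 16043056)) (l 15803856)) (l 4)))) (a (b (a (c (l 15654400) (l 15649624)) (a (l 15870632) (l 16010496))) (a (l 2) (b (l 16102720) (l 2)))) (a (b (l 4) (a (b (l 16288976) (l 2)) (l 4))) (l 4))))), by decide +kernel⟩

theorem c_pm_023 : CertB 0 536870912 1610612736 536870912 991146299 28908434 3 eng mog cd2q0 cd1q3 pd2 false true false .up 0 2 3
    ndB2q0 ndB1q3 pcB2 Cut.none Ext.none :=
  certB2 (fam := false) (s1 := true) (s2 := false) (a := 0) (b := 2) (c := 3) (cn := .up) (n1 := ndB2q0) (n2 := ndB1q3) (pc := pcB2) (cut := Cut.none) (xt := Ext.none) (P1 := 0) (W1 := 536870912) (P2 := 1610612736) (W2 := 536870912) (P3 := 991146299) (W3 := 28908434) (N0 := 3) (En := eng) (mo := mog) (C1 := cd2q0) (C2 := cd1q3) (C3 := pd2)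
    rfl (fun _ => rfl) k0_pm_023

noncomputable def f_pm_033 : ℕ → ℕ → ℕ → ℕ → Bool := onCell 0 536870912 1610612736 536870912 991146299 28908434
    (rowB 3 eng mog cd2q0 cd1q3 pd3 1 false true false .pnn 0 3 3 (qsf 0 536870912 1610612736 536870912 3) ndB2q0 ndB1q3 pcB3 Cut.none Ext.none)

def k0_pm_033 : ∃ t, chk3 f_pm_033 t 1 1 1 = true :=
  ⟨(a (b (b (a (b (a (b (a (l 15277264) (l 15363344)) (a (l 15197944) (l 4))) (l 4)) (l 4)) (l 4)) (l 4)) (a (l 4) (b (l 4) (a (b (l 4) (l 2)) (l 2))))) (b (a (l 4) (b (l 4) (a (b (l 4) (l 2)) (l 2)))) (a (b (a (b (l 4) (l 2)) (l 2)) (l 2)) (l 2)))), by decide +kernel⟩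

theorem c_pm_033 : CertB 0 536870912 1610612736 536870912 991146299 28908434 3 eng mog cd2q0 cd1q3 pd3 false true false .pnn 0 3 3
    ndB2q0 ndB1q3 pcB3 Cut.none Ext.none :=
  certB1 (fam := false) (s1 := true) (s2 := false) (a := 0) (b := 3) (c := 3) (cn := .pnn) (n1 := ndB2q0) (n2 := ndB1q3) (pc := pcB3) (cut := Cut.none) (xt := Ext.none) (P1 := 0) (W1 := 536870912) (P2 := 1610612736) (W2 := 536870912) (P3 := 991146299) (W3 := 28908434) (N0 := 3) (En := eng) (mo := mog) (C1 := cd2q0) (C2 := cd1q3) (C3 := pd3)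
    rfl (fun _ => rfl) k0_pm_033

noncomputable def f_pm_101 : ℕ → ℕ → ℕ → ℕ → Bool := onCell 536870912 536870912 536870912 536870912 991146299 28908434
    (rowB 3 eng mog cd2q1 cd1q1 pd0 0 false true false .npn 1 0 1 (qsf 536870912 536870912 536870912 536870912 0) ndB2q1 ndB1q1 pcB0 Cut.none Ext.none)

def k0_pm_101 : ∃ t, chk3 f_pm_101 t 1 1 1 = true :=
  ⟨(l 4), by decide +kernel⟩

theorem c_pm_101 : CertB 536870912 536870912 536870912 536870912 991146299 28908434 3 eng mog cd2q1 cd1q1 pd0 false true false .npn 1 0 1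
    ndB2q1 ndB1q1 pcB0 Cut.none Ext.none :=
  certB0 (fam := false) (s1 := true) (s2 := false) (a := 1) (b := 0) (c := 1) (cn := .npn) (n1 := ndB2q1) (n2 := ndB1q1) (pc := pcB0) (cut := Cut.none) (xt := Ext.none) (P1 := 536870912) (W1 := 536870912) (P2 := 536870912) (W2 := 536870912) (P3 := 991146299) (W3 := 28908434) (N0 := 3) (En := eng) (mo := mog) (C1 := cd2q1) (C2 := cd1q1) (C3 := pd0)
    rfl k0_pm_101

noncomputable def f_pm_102_a : ℕ → ℕ → ℕ → ℕ → Bool := onCell 0 536870912 0 536870912 991146299 28908434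
    (rowB 3 eng mog cd2q1 cd1q2a pd0 2 false true false .npp 1 0 2 (qsf 536870912 536870912 0 536870912 0) ndB2q1 ndB1q2a pcB0 Cut.none Ext.none)

def k0_pm_102_a : ∃ t, chk3 f_pm_102_a t 2 1 1 = true :=
  ⟨(b (a (b (l 2) (a (l 2) (a (l 2) (c (l 16142280) (l 16161424))))) (a (b (a (c (l 16219088) (l 16354376)) (l 15984096)) (a (b (l 16132536) (l 16010696)) (l 15864240))) (b (a (l 15938824) (l 15771520)) (a (l 15831360) (l 15721368))))) (a (b (a (l 2) (a (b (l 2) (b (l 15894136) (l 15585432))) (b (l 15960144) (b (l 15821832) (l 15711632))))) (a (a (b (l 2) (b (l 15374544) (l 15170128))) (b (b (l 15684568) (l 15505752)) (b (l 15320464) (l 15127968)))) (a (b (l 15386368) (l 15183024)) (b (l 15476968) (l 15146760))))) (b (a (b (a (l 15872480) (l 15793560)) (b (l 15619152) (a (l 15652480) (l 15596128)))) (b (l 15692048) (b (l 15630744) (l 15529752)))) (a (b (a (l 15427264) (l 15383800)) (c (l 15111016) (l 15032000))) (b (c (l 15313288) (l 15347408)) (a (c (l 15081648) (l 15053056)) (c (l 15299152)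 (l 15030144)))))))), by decide +kernel⟩

def k1_pm_102_a : ∃ t, chk3 f_pm_102_a t 3 1 1 = true :=
  ⟨(b (a (b (b (a (a (l 15608304) (l 15442416)) (a (l 15290240) (l 15136400))) (a (l 15478104) (l 15032088))) (a (c (l 15518320) (l 15623056)) (a (l 15433384) (l 15351560)))) (b (a (b (c (l 15015352) (l 14999960)) (a (l 15068232) (l 14948664))) (b (l 14870136) (a (a (l 14867512) (l 14801576)) (c (l 14864456) (l 14768016))))) (a (a (l 15213776) (b (l 15120488) (l 15297152))) (b (a (l 15039904) (l 14965144)) (a (l 15254408) (l 15217920)))))) (b (a (b (a (l 15587168) (l 15517296)) (a (b (l 15569328) (l 15462664)) (b (l 15303944) (l 15418096)))) (b (a (l 15480240) (c (l 15417144) (l 15529976))) (a (b (c (l 15468264) (l 15583816)) (l 15329240)) (b (c (l 15486776) (l 15595328)) (c (l 15359128) (l 15404216)))))) (b (c (a (a (l 15261952) (l 15226760)) (a (l 14948544) (a (l 15180664) (l 15167984)))) (a (a (l 15284640) (l 15000640)) (a (a (l 15192872) (l 15166840)) (a (l 15139656) (b (l 15202984) (l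 15020984)))))) (b (a (a (c (l 15100952) (l 15063440)) (a (a (l 15058120) (l 15048888)) (c (l 15074656) (l 15003392)))) (a (c (a (l 15070344) (l 15216128)) (c (l 41033028647) (l 41032940615))) (a (b (b (l 111901013703) (l 4)) (l 4)) (l 4)))) (a (a (c (a (l 15010624) (l 15015344)) (a (l 14944488) (l 14939872))) (a (c (l 15025104) (l 14941824)) (l 4))) (l 4)))))), by decide +kernel⟩

theorem s2_pm_102_a : ∃ t, chk3 f_pm_102_a t 1 1 1 = true := ex3_a k0_pm_102_a k1_pm_102_a

theorem c_pm_102_a : CertB 536870912 536870912 0 536870912 991146299 28908434 3 eng mog cd2q1 cd1q2a pd0 false true false .npp 1 0 2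
    ndB2q1 ndB1q2a pcB0 Cut.none Ext.none :=
  certB2 (fam := false) (s1 := true) (s2 := false) (a := 1) (b := 0) (c := 2) (cn := .npp) (n1 := ndB2q1) (n2 := ndB1q2a) (pc := pcB0) (cut := Cut.none) (xt := Ext.none) (P1 := 536870912) (W1 := 536870912) (P2 := 0) (W2 := 536870912) (P3 := 991146299) (W3 := 28908434) (N0 := 3) (En := eng) (mo := mog) (C1 := cd2q1) (C2 := cd1q2a) (C3 := pd0)
    rfl (fun _ => rfl) s2_pm_102_a

noncomputable def f_pm_102_b : ℕ → ℕ → ℕ → ℕ → Bool := onCell 536870912 536870912 0 536870912 991146299 28908434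
    (rowB 3 eng mog cd2q1 cd1q2b pd0 1 false true false .npp 1 0 2 (qsf 536870912 536870912 1239849684 370763052 0) ndB2q1 ndB1q2b pcB0 Cut.none Ext.none)

def k0_pm_102_b : ∃ t, chk3 f_pm_102_b t 1 1 1 = true :=
  ⟨(a (b (l 1) (b (l 1) (a (l 1) (b (a (l 1) (b (l 15108544) (l 15026568))) (a (b (l 14965776) (l 14919328)) (b (l 14973456) (l 14928680))))))) (b (a (l 1) (b (l 1) (b (a (l 1) (b (c (l 16224352) (l 16337216)) (l 16004864))) (a (b (l 15920768) (l 243233579879)) (b (a (l 15982792) (l 15940440)) (a (l 15852872) (l 15941496))))))) (b (a (b (a (l 1) (b (l 15336808) (l 250749097287))) (a (b (l 294235306551) (l 15200368)) (b (l 15358864) (l 15286752)))) (b (a (b (a (l 15617704) (l 15680288)) (l 15562448)) (c (l 15750824) (l 15789408))) (a (l 15323496) (l 15472552)))) (a (b (c (l 287255789159) (l 15114864)) (c (l 15078464) (l 14987840))) (b (a (l 15321376) (l 15493368)) (a (l 15222544) (l 15395576))))))), by decide +kernel⟩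

theorem c_pm_102_b : CertB 536870912 536870912 1239849684 370763052 991146299 28908434 3 eng mog cd2q1 cd1q2b pd0 false true false .npp 1 0 2
    ndB2q1 ndB1q2b pcB0 Cut.none Ext.none :=
  certB1 (fam := false) (s1 := true) (s2 := false) (a := 1) (b := 0) (c := 2) (cn := .npp) (n1 := ndB2q1) (n2 := ndB1q2b) (pc := pcB0) (cut := Cut.none) (xt := Ext.none) (P1 := 536870912) (W1 := 536870912) (P2 := 1239849684) (W2 := 370763052) (P3 := 991146299) (W3 := 28908434) (N0 := 3) (En := eng) (mo := mog) (C1 := cd2q1) (C2 := cd1q2b) (C3 := pd0)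
    rfl (fun _ => rfl) k0_pm_102_b

noncomputable def f_pm_112_a : ℕ → ℕ → ℕ → ℕ → Bool := onCell 536870912 536870912 0 536870912 991146299 28908434
    (rowB 3 eng mog cd2q1 cd1q2a pd1 2 false true false .dn 1 1 2 (qsf 536870912 536870912 0 536870912 1) ndB2q1 ndB1q2a pcB1 Cut.none Ext.none)

def k0_pm_112_a : ∃ t, chk3 f_pm_112_a t 1 1 1 = true :=
  ⟨(a (a (b (b (a (b (l 14980376) (c (l 15143736) (l 15107736))) (c (l 14944024) (l 14865944))) (a (b (l 15158688) (l 15202304)) (b (l 14981568) (l 15085704)))) (b (b (c (l 15215032) (l 15141080)) (a (c (l 15200944) (l 15133960)) (a (l 15097616) (l 15056992)))) (b (a (b (l 15127656) (a (l 15019504) (l 15090016))) (b (a (l 15020880) (l 1)) (l 1))) (l 4)))) (b (a (b (c (l 14833488) (l 14735320)) (b (c (l 14934848) (l 14873248)) (l 14955784))) (l 1)) (b (l 1) (l 1)))) (l 1)), by decide +kernel⟩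

theorem c_pm_112_a : CertB 536870912 536870912 0 536870912 991146299 28908434 3 eng mog cd2q1 cd1q2a pd1 false true false .dn 1 1 2
    ndB2q1 ndB1q2a pcB1 Cut.none Ext.none :=
  certB2 (fam := false) (s1 := true) (s2 := false) (a := 1) (b := 1) (c := 2) (cn := .dn) (n1 := ndB2q1) (n2 := ndB1q2a) (pc := pcB1) (cut := Cut.none) (xt := Ext.none) (P1 := 536870912) (W1 := 536870912) (P2 := 0) (W2 := 536870912) (P3 := 991146299) (W3 := 28908434) (N0 := 3) (En := eng) (mo := mog) (C1 := cd2q1) (C2 := cd1q2a) (C3 := pd1)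
    rfl (fun _ => rfl) k0_pm_112_a

noncomputable def f_pm_112_b : ℕ → ℕ → ℕ → ℕ → Bool := onCell 536870912 536870912 1239849684 370763052 991146299 28908434
    (rowB 3 eng mog cd2q1 cd1q2b pd1 2 false true false .dn 1 1 2 (qsf 536870912 536870912 1239849684 370763052 1) ndB2q1 ndB1q2b pcB1 Cut.none Ext.none)

def k0_pm_112_b : ∃ t, chk3 f_pm_112_b t 1 1 1 = true :=
  ⟨(a (a (b (b (a (b (l 14893472) (l 14871808)) (c (l 14811024) (l 14701728))) (c (l 14825056) (l 14732704))) (b (a (l 14842752) (l 14707120)) (a (l 14863520) (l 14735816)))) (b (b (a (c (l 14724792) (l 14600192)) (c (l 14669312) (l 14535928))) (a (l 14600824) (l 14510296))) (b (a (l 14582368) (l 14470944)) (l 14361304)))) (b (a (b (l 1) (a (l 14445640) (l 345774187047))) (l 1)) (a (b (a (l 14374424) (l 14293464)) (a (l 14370520) (l 14257512))) (b (a (l 14227432) (l 1)) (a (l 14147920) (l 14038744)))))), by decide +kernel⟩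

theorem c_pm_112_b : CertB 536870912 536870912 1239849684 370763052 991146299 28908434 3 eng mog cd2q1 cd1q2b pd1 false true false .dn 1 1 2
    ndB2q1 ndB1q2b pcB1 Cut.none Ext.none :=
  certB2 (fam := false) (s1 := true) (s2 := false) (a := 1) (b := 1) (c := 2) (cn := .dn) (n1 := ndB2q1) (n2 := ndB1q2b) (pc := pcB1) (cut := Cut.none) (xt := Ext.none) (P1 := 536870912) (W1 := 536870912) (P2 := 1239849684) (W2 := 370763052) (P3 := 991146299) (W3 := 28908434) (N0 := 3) (En := eng) (mo := mog) (C1 := cd2q1) (C2 := cd1q2b) (C3 := pd1)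
    rfl (fun _ => rfl) k0_pm_112_b

noncomputable def f_pm_113 : ℕ → ℕ → ℕ → ℕ → Bool := onCell 536870912 536870912 536870912 536870912 991146299 28908434
    (rowB 3 eng mog cd2q1 cd1q3 pd1 1 false true false .nn 1 1 3 (qsf 536870912 536870912 1610612736 536870912 1) ndB2q1 ndB1q3 pcB1 Cut.none Ext.none)

def k0_pm_113 : ∃ t, chk3 f_pm_113 t 1 1 1 = true :=
  ⟨(b (a (b (l 1) (a (l 1) (c (l 326984058615) (l 326983357607)))) (b (a (a (l 1) (l 332888934871)) (b (a (l 14790016) (l 14803872)) (a (l 14702992) (l 14761280)))) (a (b (l 283497516967) (l 14719440)) (a (b (l 14663336) (l 14669880)) (b (l 14781248) (l 14853776)))))) (a (b (a (c (l 368322339719) (l 371006441687)) (c (l 336647429815) (l 14366456))) (a (c (l 369395180823) (l 369395438807)) (b (l 14265888) (l 14210928)))) (b (a (b (l 14507312) (l 14514288)) (a (l 14769816) (l 15190024))) (a (b (l 14556344) (l 14654752)) (b (l 15292936) (a (l 15453736) (l 16776016))))))), by decide +kernel⟩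

theorem c_pm_113 : CertB 536870912 536870912 1610612736 536870912 991146299 28908434 3 eng mog cd2q1 cd1q3 pd1 false true false .nn 1 1 3
    ndB2q1 ndB1q3 pcB1 Cut.none Ext.none :=
  certB1 (fam := false) (s1 := true) (s2 := false) (a := 1) (b := 1) (c := 3) (cn := .nn) (n1 := ndB2q1) (n2 := ndB1q3) (pc := pcB1) (cut := Cut.none) (xt := Ext.none) (P1 := 536870912) (W1 := 536870912) (P2 := 1610612736) (W2 := 536870912) (P3 := 991146299) (W3 := 28908434) (N0 := 3) (En := eng) (mo := mog) (C1 := cd2q1) (C2 := cd1q3) (C3 := pd1)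
    rfl (fun _ => rfl) k0_pm_113

end Pool.Agent.Strip051.G.I9231_9500.Tab.C.BB21

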