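import Pool.Agent.Strip051.G.I9231_9500.Tab
import Pool.Agent.Strip051.PB.ExtD3

/-! # Certificates B32 (generated) -/

set_option linter.all false
set_option maxRecDepth 100000

namespace Pool.Agent.Strip051.G.I9231_9500.Tab.C.BB25

open Pool.Agent.Strip051.PB Pool.Agent.Strip051.PB.T
open Pool.Agent.Strip051.G.I9231_9500.Tab

noncomputable def cut_pp_022 : Cut := Cut.of [[⟨0, 0, 0, 53687091⟩, ⟨1, 1, 0, 53687091⟩, ⟨2, 1, 0, 53687091⟩]]

noncomputable def f_pp_022 : ℕ → ℕ → ℕ → ℕ → Bool := onCell 0 536870912 1073741824 536870912 991146299 28908434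
    (rowB 3 eng mog cd2q0 cd5q2 pd2 1 false true true .pp 0 2 2 (qsf 0 536870912 1073741824 536870912 2) ndB2q0 ndB5q2 pcB2 cut_pp_022 Ext.none)

def k0_pp_022 : ∃ t, chk3 f_pp_022 t 2 8 1 = true :=
  ⟨(a (a (b (a (b (l 6) (a (l 6) (a (b (l 6) (a (b (l 6) (l 16731576)) (c (l 16736424) (l 388325302343)))) (b (l 3) (c (b (l 3) (l 16733864)) (l 389935905543)))))) (l 3)) (a (b (b (a (a (l 6) (a (l 16708016) (l 16684952))) (a (a (b (l 16722416) (l 16712152)) (b (l 16726272) (l 16715744))) (c (l 16726776) (l 16702272)))) (a (a (a (l 16676584) (l 16683296)) (l 16654072)) (a (a (l 16697928) (l 16699688)) (b (l 16714056) (l 16702168))))) (a (a (b (a (l 16662288) (l 16667776)) (a (l 16649888) (l 16653256))) (b (l 16680968) (l 16662592))) (a (b (l 16679032) (l 16659200)) (b (c (l 16681224) (l 16688208)) (l 16661184))))) (b (a (b (l 3) (c (l 16721616) (l 393157066919))) (l 3)) (c (a (b (l 16696568) (l 16649128)) (l 333027456807)) (a (b (l 16682056) (l 16612184)) (b (l 3) (l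 16687400))))))) (l 3)) (l 3)), by decide +kernel⟩

def k1_pp_022 : ∃ t, chk3 f_pp_022 t 2 9 1 = true :=
  ⟨(a (a (b (a (a (b (a (b (l 16598584) (l 16619200)) (b (l 16642648) (l 16621992))) (a (b (l 16593944) (l 16566624)) (b (l 16601232) (l 16579584)))) (b (a (b (l 16638672) (l 16618104)) (l 16588784)) (a (l 16587776) (l 16591248)))) (b (a (b (a (l 16646144) (l 16657504)) (a (l 16625200) (l 16633944))) (b (c (l 16667992) (l 16680192)) (l 16560672))) (a (b (l 16588216) (l 16590648)) (a (l 16529920) (l 16543320))))) (a (a (b (a (l 16523104) (b (l 16536040) (l 16532920))) (b (l 16449840) (l 16459264))) (b (a (l 16527800) (l 16531984)) (a (l 16464560) (l 16515456)))) (b (a (l 16563328) (b (l 16587952) (l 16569696))) (a (l 16525912) (l 16542432))))) (b (a (b (b (l 3) (c (l 16682808) (l 351817805319))) (c (a (l 16631208) (l 16658152)) (a (l 16649288) (l 16614736)))) (l 3)) (a (b (a (b (l 16613488) (l 16590600)) (b (l 16644960) (l 16620520))) (a (l 16498272) (b (l 16597256)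 (l 16575728)))) (b (a (l 301351811543) (l 313699789447)) (b (l 16513088) (l 16464008)))))) (b (l 3) (a (b (l 3) (a (b (l 16424992) (l 16483200)) (l 3))) (l 3)))), by decide +kernel⟩

def k2_pp_022 : ∃ t, chk3 f_pp_022 t 2 5 1 = true :=
  ⟨(a (b (a (b (a (b (a (l 16363264) (b (l 16475112) (l 16402768))) (b (a (l 16342224) (l 16402488)) (b (a (l 16302280) (l 16361928)) (a (b (l 16274368) (l 16253704)) (l 16239824))))) (b (a (l 16487896) (l 16506048)) (b (a (l 16453184) (l 16478640)) (b (a (l 16426656) (l 16464416)) (a (l 16347648) (b (l 16452424) (l 16439336))))))) (a (a (b (l 16224944) (l 16187120)) (b (l 16284320) (l 16249896))) (a (l 16272640) (b (l 16414880) (l 16377048))))) (b (b (a (l 16391720) (b (l 16538712) (l 16539120))) (b (a (l 16512600) (l 16564576)) (a (b (l 16500248) (b (l 16495024) (l 16490856))) (b (l 16553288) (l 16442184))))) (a (a (l 16429624) (l 16455064)) (l 16370864)))) (a (a (b (a (l 16137264) (l 16183328)) (a (l 16080736) (l 16067536))) (b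 (a (l 16168704) (l 16270184)) (a (l 16175968) (l 16219440)))) (a (b (c (l 16326760) (l 16370504)) (l 16169216)) (b (l 16401328) (l 16306256))))) (b (b (b (a (a (b (l 16583416) (l 16577912)) (b (l 16431712) (l 16554736))) (a (b (l 3) (l 16444096)) (l 3))) (b (a (a (l 16464720) (l 16467936)) (a (l 16401400) (l 16458928))) (b (a (a (l 16558992) (l 16547832)) (a (l 16526792) (l 16502160))) (a (a (l 16546016) (l 16476448)) (a (l 16482184) (l 16502992)))))) (a (a (l 16468704) (l 16529560)) (a (l 16480184) (l 16505976)))) (a (a (b (l 16461024) (l 16367320)) (b (l 16524704) (l 16437288))) (a (b (l 16521480) (l 16512832)) (l 16284416))))), by decide +kernel⟩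

def k3_pp_022 : ∃ t, chk3 f_pp_022 t 2 3 1 = true :=
  ⟨(a (b (a (b (a (b (a (l 16034280) (l 16041936)) (a (l 15938368) (l 15999288))) (b (l 16094824) (l 16020320))) (a (b (l 15775976) (l 15808440)) (b (l 15924648) (l 15829328)))) (b (a (b (l 16136856) (l 16062888)) (b (l 16170024) (l 16119000))) (a (b (l 15968816) (l 15876368)) (b (l 16030424) (l 15947392))))) (a (b (a (b (l 15711752) (l 15615448)) (b (l 15735000) (l 15642584))) (a (b (l 15520240) (l 15427152)) (l 15434760))) (b (a (l 15582760) (l 15833488)) (a (l 15598824) (l 2))))) (b (a (b (a (b (l 16276752) (l 16191120)) (l 16125440)) (a (l 15946888) (l 16162504))) (b (a (l 16396752) (l 16478832)) (a (l 16255200) (l 2)))) (a (b (a (l 15928104) (l 2)) (l 2)) (l 2)))), by decide +kernel⟩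

def k4_pp_022 : ∃ t, chk3 f_pp_022 t 3 1 1 = true :=
  ⟨(b (b (b (l 3) (a (l 3) (l 3))) (a (b (b (b (l 3) (b (l 3) (b (a (a (l 16476544) (l 3)) (l 16390624)) (a (l 16465456) (l 16417016))))) (a (a (l 16487256) (l 16468568)) (a (l 16450424) (l 16433440)))) (a (a (l 16449112) (l 16468088)) (a (l 16510672) (l 2)))) (b (b (b (a (l 3) (l 2)) (l 2)) (l 2)) (l 2)))) (a (b (b (a (a (l 16526288) (l 2)) (l 2)) (l 2)) (l 2)) (l 2))), by decide +kernel⟩

theorem s5_pp_022 : ∃ t, chk3 f_pp_022 t 2 4 1 = true := ex3_b k0_pp_022 k1_pp_022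

theorem s6_pp_022 : ∃ t, chk3 f_pp_022 t 2 2 1 = true := ex3_b s5_pp_022 k2_pp_022

theorem s7_pp_022 : ∃ t, chk3 f_pp_022 t 2 1 1 = true := ex3_b s6_pp_022 k3_pp_022

theorem s8_pp_022 : ∃ t, chk3 f_pp_022 t 1 1 1 = true := ex3_a s7_pp_022 k4_pp_022

theorem c_pp_022 : CertB 0 536870912 1073741824 536870912 991146299 28908434 3 eng mog cd2q0 cd5q2 pd2 false true true .pp 0 2 2
    ndB2q0 ndB5q2 pcB2 cut_pp_022 Ext.none :=
  certB1 (fam := false) (s1 := true) (s2 := true) (a := 0) (b := 2) (c := 2) (cn := .pp) (n1 := ndB2q0) (n2 := ndB5q2) (pc := pcB2) (cut := cut_pp_022) (xt := Ext.none) (P1 := 0) (W1 := 536870912) (P2 := 1073741824) (W2 := 536870912) (P3 := 991146299) (W3 := 28908434) (N0 := 3) (En := eng) (mo := mog) (C1 := cd2q0) (C2 := cd5q2) (C3 := pd2)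
    rfl (fun _ => rfl) s8_pp_022

noncomputable def f_pp_023 : ℕ → ℕ → ℕ → ℕ → Bool := onCell 1073741824 536870912 0 1230186008 991146299 28908434
    (rowB 3 eng mog cd2q0 cd5q3 pd2 2 false true true .up 0 2 3 (qsf 0 536870912 0 1230186008 2) ndB2q0 ndB5q3 pcB2 Cut.none Ext.none)

def k0_pp_023 : ∃ t, chk3 f_pp_023 t 1 1 1 = true :=
  ⟨(b (a (l 2) (a (l 2) (b (a (l 2) (a (l 2) (a (b (l 2) (l 15827352)) (b (l 16559232) (l 15893768))))) (a (b (l 15722456) (l 15987712)) (b (l 15472992) (l 15917080)))))) (b (a (a (l 2) (b (l 2) (a (l 2) (l 233101313623)))) (a (b (a (l 2) (b (l 16245808) (l 16331960))) (b (l 16214288) (a (l 16575904) (l 16642712)))) (b (a (b (l 16200480) (l 16308640)) (b (l 16111120) (l 16232776))) (a (c (l 16474808) (l 16577560)) (b (l 16358168) (l 16350104)))))) (a (a (a (l 3) (b (l 2) (a (l 3) (b (c (l 16294032) (l 16144024)) (l 3))))) (b (b (a (a (l 2) (l 16426112)) (l 16427632)) (a (a (a (l 16289616) (a (l 16329400) (l 16364496))) (l 16430288))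 (l 16561344))) (a (a (a (b (l 16294136) (l 3)) (a (b (l 16330744) (l 16282928)) (b (a (l 16350008) (l 16367416)) (a (l 16381752) (b (l 16382232) (l 16403616)))))) (b (l 16420992) (l 16307032))) (b (l 16320608) (b (l 16512200) (l 16512296)))))) (b (a (b (a (l 16609200) (l 16739880)) (a (l 16694208) (l 16592576))) (b (a (l 16366368) (b (l 16251312) (l 16147192))) (a (l 16304576) (l 15858792)))) (a (b (a (l 16373488) (b (l 16460976) (l 16368552))) (a (b (l 16553032) (l 16483288)) (b (l 16270568) (l 16168144)))) (b (a (b (l 16154928) (l 16051368)) (b (l 15826216) (l 15719088))) (a (b (l 15944992) (l 15840016)) (b (l 15615800) (a (l 15598280) (l 15454008)))))))))), by decide +kernel⟩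

theorem c_pp_023 : CertB 0 536870912 0 1230186008 991146299 28908434 3 eng mog cd2q0 cd5q3 pd2 false true true .up 0 2 3
    ndB2q0 ndB5q3 pcB2 Cut.none Ext.none :=
  certB2 (fam := false) (s1 := true) (s2 := true) (a := 0) (b := 2) (c := 3) (cn := .up) (n1 := ndB2q0) (n2 := ndB5q3) (pc := pcB2) (cut := Cut.none) (xt := Ext.none) (P1 := 0) (W1 := 536870912) (P2 := 0) (W2 := 1230186008) (P3 := 991146299) (W3 := 28908434) (N0 := 3) (En := eng) (mo := mog) (C1 := cd2q0) (C2 := cd5q3) (C3 := pd2)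
    rfl (fun _ => rfl) k0_pp_023

noncomputable def f_pp_033 : ℕ → ℕ → ℕ → ℕ → Bool := onCell 0 536870912 0 1230186008 991146299 28908434
    (rowB 3 eng mog cd2q0 cd5q3 pd3 0 false true true .pnn 0 3 3 (qsf 0 536870912 0 1230186008 3) ndB2q0 ndB5q3 pcB3 Cut.none Ext.none)

def k0_pp_033 : ∃ t, chk3 f_pp_033 t 1 2 1 = true :=
  ⟨(b (b (a (l 4) (a (l 4) (a (a (l 4) (l 16614696)) (l 16358128)))) (a (a (l 4) (a (l 4) (a (l 4) (l 15893560)))) (a (a (b (l 4) (l 16198360)) (b (l 16434440) (l 16319136))) (a (b (l 16474496) (l 16314976)) (b (l 16445496) (l 16288528)))))) (a (b (b (a (l 4) (a (a (l 4) (l 15956768)) (a (l 16022328) (l 16074280)))) (a (a (l 4) (a (l 15537408) (l 15617384))) (a (a (l 15701712) (l 15806792)) (l 15864736)))) (b (a (a (a (a (l 15204568) (l 15238336)) (b (l 15346296) (l 15292136))) (a (b (l 15469264) (l 15377408)) (b (l 15543888) (l 15451880)))) (a (a (l 15565296) (l 15639816)) (l 15763552))) (a (a (a (b (a (l 15092096) (l 15133296)) (l 15045320))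 (b (l 15206016) (l 15157056))) (b (l 15358392) (l 15327176))) (a (l 15552560) (l 15768440))))) (a (b (a (b (l 16119368) (l 15948712)) (b (l 16137048) (l 16053568))) (a (l 15907208) (l 16140856))) (b (b (a (l 16167720) (l 16236984)) (l 16248192)) (a (l 16322808) (l 16489936)))))), by decide +kernel⟩

def k1_pp_033 : ∃ t, chk3 f_pp_033 t 1 3 1 = true :=
  ⟨(b (a (a (b (a (b (a (l 15000136) (l 15124472)) (a (l 14997840) (l 15127280))) (b (l 15316784) (l 15334416))) (a (b (b (a (l 14947768) (l 15143488)) (a (l 14984536) (l 15133544))) (b (a (l 14933448) (l 15100728)) (a (l 14888320) (l 15054032)))) (b (b (l 15319304) (l 15372944)) (b (l 15363616) (a (l 15237968) (l 15426968)))))) (b (b (a (l 15569560) (l 15818080)) (a (l 15611808) (l 15679344))) (b (a (b (l 15657824) (l 15694192)) (b (l 15952184) (l 16007488))) (a (b (l 15709520) (l 15704000)) (l 16048568))))) (a (b (b (a (l 16057792) (l 16283336)) (a (b (l 16122696) (l 16171560)) (c (l 16263432) (l 16530240)))) (b (a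 (l 16125200) (l 16389176)) (a (l 16357432) (l 1)))) (b (b (c (l 16429376) (l 16738168)) (l 1)) (l 1)))) (a (b (a (a (b (a (b (l 14927800) (l 15011880)) (l 14996768)) (a (b (l 15076632) (l 15111392)) (b (l 15222488) (l 15274520)))) (b (b (a (l 15237736) (l 15414712)) (l 15373408)) (b (a (l 15369864) (l 15520320)) (a (l 15438736) (l 15598824))))) (b (a (b (l 15586120) (l 15715368)) (b (l 16046880) (l 16060088))) (a (b (l 15764632) (l 15832400)) (l 1)))) (a (a (b (a (l 15158216) (l 15325952)) (a (b (l 15097632) (a (l 15303128) (l 15334064))) (b (l 15388352) (l 15425880)))) (b (c (l 15588216) (l 15587848)) (b (l 15658104) (l 1)))) (b (a (b (l 15897688) (l 1)) (l 1)) (l 1)))) (l 1))), by decide +kernel⟩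

theorem s2_pp_033 : ∃ t, chk3 f_pp_033 t 1 1 1 = true := ex3_b k0_pp_033 k1_pp_033

theorem c_pp_033 : CertB 0 536870912 0 1230186008 991146299 28908434 3 eng mog cd2q0 cd5q3 pd3 false true true .pnn 0 3 3
    ndB2q0 ndB5q3 pcB3 Cut.none Ext.none :=
  certB0 (fam := false) (s1 := true) (s2 := true) (a := 0) (b := 3) (c := 3) (cn := .pnn) (n1 := ndB2q0) (n2 := ndB5q3) (pc := pcB3) (cut := Cut.none) (xt := Ext.none) (P1 := 0) (W1 := 536870912) (P2 := 0) (W2 := 1230186008) (P3 := 991146299) (W3 := 28908434) (N0 := 3) (En := eng) (mo := mog) (C1 := cd2q0) (C2 := cd5q3) (C3 := pd3)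
    rfl s2_pp_033

noncomputable def f_pp_101 : ℕ → ℕ → ℕ → ℕ → Bool := onCell 536870912 536870912 536870912 536870912 991146299 28908434
    (rowB 3 eng mog cd2q1 cd5q1 pd0 0 false true true .npn 1 0 1 (qsf 536870912 536870912 536870912 536870912 0) ndB2q1 ndB5q1 pcB0 Cut.none Ext.none)

def k0_pp_101 : ∃ t, chk3 f_pp_101 t 1 1 1 = true :=
  ⟨(l 3), by decide +kernel⟩

theorem c_pp_101 : CertB 536870912 536870912 536870912 536870912 991146299 28908434 3 eng mog cd2q1 cd5q1 pd0 false true true .npn 1 0 1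
    ndB2q1 ndB5q1 pcB0 Cut.none Ext.none :=
  certB0 (fam := false) (s1 := true) (s2 := true) (a := 1) (b := 0) (c := 1) (cn := .npn) (n1 := ndB2q1) (n2 := ndB5q1) (pc := pcB0) (cut := Cut.none) (xt := Ext.none) (P1 := 536870912) (W1 := 536870912) (P2 := 536870912) (W2 := 536870912) (P3 := 991146299) (W3 := 28908434) (N0 := 3) (En := eng) (mo := mog) (C1 := cd2q1) (C2 := cd5q1) (C3 := pd0)
    rfl k0_pp_101

noncomputable def f_pp_102 : ℕ → ℕ → ℕ → ℕ → Bool := onCell 536870912 536870912 1073741824 536870912 991146299 28908434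
    (rowB 3 eng mog cd2q1 cd5q2 pd0 0 false true true .npp 1 0 2 (qsf 536870912 536870912 1073741824 536870912 0) ndB2q1 ndB5q2 pcB0 Cut.none Ext.none)

def k0_pp_102 : ∃ t, chk3 f_pp_102 t 1 1 1 = true :=
  ⟨(l 3), by decide +kernel⟩

theorem c_pp_102 : CertB 536870912 536870912 1073741824 536870912 991146299 28908434 3 eng mog cd2q1 cd5q2 pd0 false true true .npp 1 0 2
    ndB2q1 ndB5q2 pcB0 Cut.none Ext.none :=
  certB0 (fam := false) (s1 := true) (s2 := true) (a := 1) (b := 0) (c := 2) (cn := .npp) (n1 := ndB2q1) (n2 := ndB5q2) (pc := pcB0) (cut := Cut.none) (xt := Ext.none) (P1 := 536870912) (W1 := 536870912) (P2 := 1073741824) (W2 := 536870912) (P3 := 991146299) (W3 := 28908434) (N0 := 3) (En := eng) (mo := mog) (C1 := cd2q1) (C2 := cd5q2) (C3 := pd0)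
    rfl k0_pp_102

noncomputable def f_pp_112 : ℕ → ℕ → ℕ → ℕ → Bool := onCell 536870912 536870912 1073741824 536870912 991146299 28908434
    (rowB 3 eng mog cd2q1 cd5q2 pd1 0 false true true .dn 1 1 2 (qsf 536870912 536870912 1073741824 536870912 1) ndB2q1 ndB5q2 pcB1 Cut.none Ext.none)

def k0_pp_112 : ∃ t, chk3 f_pp_112 t 1 1 1 = true :=
  ⟨(l 3), by decide +kernel⟩

theorem c_pp_112 : CertB 536870912 536870912 1073741824 536870912 991146299 28908434 3 eng mog cd2q1 cd5q2 pd1 false true true .dn 1 1 2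
    ndB2q1 ndB5q2 pcB1 Cut.none Ext.none :=
  certB0 (fam := false) (s1 := true) (s2 := true) (a := 1) (b := 1) (c := 2) (cn := .dn) (n1 := ndB2q1) (n2 := ndB5q2) (pc := pcB1) (cut := Cut.none) (xt := Ext.none) (P1 := 536870912) (W1 := 536870912) (P2 := 1073741824) (W2 := 536870912) (P3 := 991146299) (W3 := 28908434) (N0 := 3) (En := eng) (mo := mog) (C1 := cd2q1) (C2 := cd5q2) (C3 := pd1)
    rfl k0_pp_112

noncomputable def f_pp_113 : ℕ → ℕ → ℕ → ℕ → Bool := onCell 536870912 536870912 0 1230186008 991146299 28908434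
    (rowB 3 eng mog cd2q1 cd5q3 pd1 2 false true true .nn 1 1 3 (qsf 536870912 536870912 0 1230186008 1) ndB2q1 ndB5q3 pcB1 Cut.none Ext.none)

def k0_pp_113 : ∃ t, chk3 f_pp_113 t 1 1 1 = true :=
  ⟨(b (a (l 2) (a (l 2) (b (a (l 2) (b (l 16518216) (l 16400688))) (a (b (a (l 2) (l 16558272)) (a (l 16223288) (l 16273216))) (a (b (l 16473960) (l 16235504)) (b (l 16420344) (l 16117680))))))) (b (a (l 3) (a (l 3) (b (a (b (l 293297802487) (l 3)) (a (l 256790424407) (l 153711093815))) (l 3)))) (a (l 3) (l 3)))), by decide +kernel⟩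

theorem c_pp_113 : CertB 536870912 536870912 0 1230186008 991146299 28908434 3 eng mog cd2q1 cd5q3 pd1 false true true .nn 1 1 3
    ndB2q1 ndB5q3 pcB1 Cut.none Ext.none :=
  certB2 (fam := false) (s1 := true) (s2 := true) (a := 1) (b := 1) (c := 3) (cn := .nn) (n1 := ndB2q1) (n2 := ndB5q3) (pc := pcB1) (cut := Cut.none) (xt := Ext.none) (P1 := 536870912) (W1 := 536870912) (P2 := 0) (W2 := 1230186008) (P3 := 991146299) (W3 := 28908434) (N0 := 3) (En := eng) (mo := mog) (C1 := cd2q1) (C2 := cd5q3) (C3 := pd1)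
    rfl (fun _ => rfl) k0_pp_113

noncomputable def f_pp_123 : ℕ → ℕ → ℕ → ℕ → Bool := onCell 1073741824 536870912 0 1230186008 991146299 28908434
    (rowB 3 eng mog cd2q1 cd5q3 pd2 2 false true true .npn 1 2 3 (qsf 536870912 536870912 0 1230186008 2) ndB2q1 ndB5q3 pcB2 Cut.none Ext.none)

def k0_pp_123 : ∃ t, chk3 f_pp_123 t 1 1 1 = true :=
  ⟨(b (a (b (a (b (a (l 16602256) (l 16701728)) (a (l 16705688) (l 16723264))) (b (a (l 16507424) (l 16400096)) (l 16530856))) (a (a (b (l 16532720) (a (l 16192216) (l 16133384))) (b (l 16511512) (l 16213944))) (b (a (l 16553976) (l 16557048)) (a (l 16342680) (l 16438952))))) (b (a (b (a (l 16437008) (l 16618864)) (a (l 16350848) (b (l 16266568) (l 16278632)))) (a (b (a (l 16701328) (l 16549112)) (b (l 16413416) (l 16244344))) (b (a (l 16405864) (l 16279848)) (b (l 16651936) (a (l 16282632) (l 16386320)))))) (a (b (a (l 16523048) (l 16467600)) (a (l 16499712) (l 16531400))) (a (b (l 16405184) (l 16541736)) (b (l 16369176) (l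 16538360)))))) (a (a (a (b (b (a (b (l 15777256) (l 15638048)) (b (l 15849056) (l 15770568))) (a (b (l 15550184) (l 3)) (b (l 15852512) (l 347521412791)))) (l 3)) (b (b (b (a (l 15944240) (l 16041216)) (a (l 15881176) (l 15979600))) (b (a (l 15842432) (l 15946328)) (a (l 15770032) (l 15876936)))) (b (a (b (l 15693256) (l 3)) (b (l 15793136) (a (l 15693784) (l 15739512)))) (a (l 3) (b (l 661590059671) (l 1)))))) (b (b (a (a (a (l 16074208) (b (l 16160728) (l 16090064))) (l 16179048)) (l 16068264)) (a (a (a (l 15938928) (a (l 16011224) (l 16029352))) (l 16074072)) (l 16026400))) (b (a (a (a (b (l 15832392) (l 15774472)) (a (b (l 15833968) (l 15787240)) (b (l 15846456) (l 15784976)))) (b (l 15843112) (l 15789368))) (b (l 15829200) (l 1))) (a (a (a (b (l 15717272) (l 1)) (l 1)) (l 1)) (l 1))))) (b (b (a (b (l 16426688) (a (l 16378552) (l 16402824))) (b (l 16599392) (l 1))) (a (b (l 16199536) (l 16004160)) (l 1))) (l 1)))), by decide +kernel⟩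

theorem c_pp_123 : CertB 536870912 536870912 0 1230186008 991146299 28908434 3 eng mog cd2q1 cd5q3 pd2 false true true .npn 1 2 3
    ndB2q1 ndB5q3 pcB2 Cut.none Ext.none :=
  certB2 (fam := false) (s1 := true) (s2 := true) (a := 1) (b := 2) (c := 3) (cn := .npn) (n1 := ndB2q1) (n2 := ndB5q3) (pc := pcB2) (cut := Cut.none) (xt := Ext.none) (P1 := 536870912) (W1 := 536870912) (P2 := 0) (W2 := 1230186008) (P3 := 991146299) (W3 := 28908434) (N0 := 3) (En := eng) (mo := mog) (C1 := cd2q1) (C2 := cd5q3) (C3 := pd2)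
    rfl (fun _ => rfl) k0_pp_123

noncomputable def f_pp_133 : ℕ → ℕ → ℕ → ℕ → Bool := onCell 1610612736 536870912 0 1230186008 991146299 28908434
    (rowB 3 eng mog cd2q1 cd5q3 pd3 2 false true true .dn 1 3 3 (qsf 536870912 536870912 0 1230186008 3) ndB2q1 ndB5q3 pcB3 Cut.none Ext.none)

def k0_pp_133 : ∃ t, chk3 f_pp_133 t 1 1 1 = true :=
  ⟨(b (a (b (b (b (l 4) (l 1)) (l 1)) (l 1)) (l 1)) (l 1)), by decide +kernel⟩

theorem c_pp_133 : CertB 536870912 536870912 0 1230186008 991146299 28908434 3 eng mog cd2q1 cd5q3 pd3 false true true .dn 1 3 3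
    ndB2q1 ndB5q3 pcB3 Cut.none Ext.none :=
  certB2 (fam := false) (s1 := true) (s2 := true) (a := 1) (b := 3) (c := 3) (cn := .dn) (n1 := ndB2q1) (n2 := ndB5q3) (pc := pcB3) (cut := Cut.none) (xt := Ext.none) (P1 := 536870912) (W1 := 536870912) (P2 := 0) (W2 := 1230186008) (P3 := 991146299) (W3 := 28908434) (N0 := 3) (En := eng) (mo := mog) (C1 := cd2q1) (C2 := cd5q3) (C3 := pd3)
    rfl (fun _ => rfl) k0_pp_133

noncomputable def f_pp_202_a : ℕ → ℕ → ℕ → ℕ → Bool := onCell 0 536870912 1073741824 536870912 991146299 28908434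
    (rowB 3 eng mog cd2q2a cd5q2 pd0 0 false true true .pp 2 0 2 (qsf 0 536870912 1073741824 536870912 0) ndB2q2a ndB5q2 pcB0 Cut.none Ext.none)

def k0_pp_202_a : ∃ t, chk3 f_pp_202_a t 1 1 1 = true :=
  ⟨(l 5), by decide +kernel⟩

theorem c_pp_202_a : CertB 0 536870912 1073741824 536870912 991146299 28908434 3 eng mog cd2q2a cd5q2 pd0 false true true .pp 2 0 2
    ndB2q2a ndB5q2 pcB0 Cut.none Ext.none :=
  certB0 (fam := false) (s1 := true) (s2 := true) (a := 2) (b := 0) (c := 2) (cn := .pp) (n1 := ndB2q2a) (n2 := ndB5q2) (pc := pcB0) (cut := Cut.none) (xt := Ext.none) (P1 := 0) (W1 := 536870912) (P2 := 1073741824) (W2 := 536870912) (P3 := 991146299) (W3 := 28908434) (N0 := 3) (En := eng) (mo := mog) (C1 := cd2q2a) (C2 := cd5q2) (C3 := pd0)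
    rfl k0_pp_202_a

noncomputable def f_pp_202_b : ℕ → ℕ → ℕ → ℕ → Bool := onCell 1239849684 370763052 1073741824 536870912 991146299 28908434
    (rowB 3 eng mog cd2q2b cd5q2 pd0 0 false true true .pp 2 0 2 (qsf 1239849684 370763052 1073741824 536870912 0) ndB2q2b ndB5q2 pcB0 Cut.none Ext.none)

def k0_pp_202_b : ∃ t, chk3 f_pp_202_b t 1 1 1 = true :=
  ⟨(l 5), by decide +kernel⟩

theorem c_pp_202_b : CertB 1239849684 370763052 1073741824 536870912 991146299 28908434 3 eng mog cd2q2b cd5q2 pd0 false true true .pp 2 0 2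
    ndB2q2b ndB5q2 pcB0 Cut.none Ext.none :=
  certB0 (fam := false) (s1 := true) (s2 := true) (a := 2) (b := 0) (c := 2) (cn := .pp) (n1 := ndB2q2b) (n2 := ndB5q2) (pc := pcB0) (cut := Cut.none) (xt := Ext.none) (P1 := 1239849684) (W1 := 370763052) (P2 := 1073741824) (W2 := 536870912) (P3 := 991146299) (W3 := 28908434) (N0 := 3) (En := eng) (mo := mog) (C1 := cd2q2b) (C2 := cd5q2) (C3 := pd0)
    rfl k0_pp_202_b

noncomputable def f_pp_203_a : ℕ → ℕ → ℕ → ℕ → Bool := onCell 0 536870912 0 1230186008 991146299 28908434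
    (rowB 3 eng mog cd2q2a cd5q3 pd0 0 false true true .up 2 0 3 (qsf 0 536870912 0 1230186008 0) ndB2q2a ndB5q3 pcB0 Cut.none Ext.none)

def k0_pp_203_a : ∃ t, chk3 f_pp_203_a t 1 1 1 = true :=
  ⟨(b (l 2) (l 3)), by decide +kernel⟩

theorem c_pp_203_a : CertB 0 536870912 0 1230186008 991146299 28908434 3 eng mog cd2q2a cd5q3 pd0 false true true .up 2 0 3
    ndB2q2a ndB5q3 pcB0 Cut.none Ext.none :=
  certB0 (fam := false) (s1 := true) (s2 := true) (a := 2) (b := 0) (c := 3) (cn := .up) (n1 := ndB2q2a) (n2 := ndB5q3) (pc := pcB0) (cut := Cut.none) (xt := Ext.none) (P1 := 0) (W1 := 536870912) (P2 := 0) (W2 := 1230186008) (P3 := 991146299) (W3 := 28908434) (N0 := 3) (En := eng) (mo := mog) (C1 := cd2q2a) (C2 := cd5q3) (C3 := pd0)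
    rfl k0_pp_203_a

noncomputable def f_pp_203_b : ℕ → ℕ → ℕ → ℕ → Bool := onCell 0 536870912 0 1230186008 991146299 28908434
    (rowB 3 eng mog cd2q2b cd5q3 pd0 2 false true true .up 2 0 3 (qsf 1239849684 370763052 0 1230186008 0) ndB2q2b ndB5q3 pcB0 Cut.none Ext.none)

def k0_pp_203_b : ∃ t, chk3 f_pp_203_b t 1 1 1 = true :=
  ⟨(b (l 3) (l 5)), by decide +kernel⟩

theorem c_pp_203_b : CertB 1239849684 370763052 0 1230186008 991146299 28908434 3 eng mog cd2q2b cd5q3 pd0 false true true .up 2 0 3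
    ndB2q2b ndB5q3 pcB0 Cut.none Ext.none :=
  certB2 (fam := false) (s1 := true) (s2 := true) (a := 2) (b := 0) (c := 3) (cn := .up) (n1 := ndB2q2b) (n2 := ndB5q3) (pc := pcB0) (cut := Cut.none) (xt := Ext.none) (P1 := 1239849684) (W1 := 370763052) (P2 := 0) (W2 := 1230186008) (P3 := 991146299) (W3 := 28908434) (N0 := 3) (En := eng) (mo := mog) (C1 := cd2q2b) (C2 := cd5q3) (C3 := pd0)
    rfl (fun _ => rfl) k0_pp_203_b

noncomputable def cut_pp_213_a : Cut := Cut.of [[⟨0, 1, 0, 37748736⟩, ⟨1, 1, 0, 37748736⟩, ⟨2, 2, 0, 5242880⟩]]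

noncomputable def f_pp_213_a : ℕ → ℕ → ℕ → ℕ → Bool := onCell 0 536870912 0 1230186008 991146299 28908434
    (rowB 3 eng mog cd2q2a cd5q3 pd1 0 false true true .pnn 2 1 3 (qsf 0 536870912 0 1230186008 1) ndB2q2a ndB5q3 pcB1 cut_pp_213_a Ext.none)

def k0_pp_213_a : ∃ t, chk3 f_pp_213_a t 1 1 1 = true :=
  ⟨(b (a (l 3) (b (a (l 3) (b (a (l 3) (b (a (l 3) (l 6)) (l 3))) (l 3))) (l 3))) (l 3)), by decide +kernel⟩

theorem c_pp_213_a : CertB 0 536870912 0 1230186008 991146299 28908434 3 eng mog cd2q2a cd5q3 pd1 false true true .pnn 2 1 3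
    ndB2q2a ndB5q3 pcB1 cut_pp_213_a Ext.none :=
  certB0 (fam := false) (s1 := true) (s2 := true) (a := 2) (b := 1) (c := 3) (cn := .pnn) (n1 := ndB2q2a) (n2 := ndB5q3) (pc := pcB1) (cut := cut_pp_213_a) (xt := Ext.none) (P1 := 0) (W1 := 536870912) (P2 := 0) (W2 := 1230186008) (P3 := 991146299) (W3 := 28908434) (N0 := 3) (En := eng) (mo := mog) (C1 := cd2q2a) (C2 := cd5q3) (C3 := pd1)
    rfl k0_pp_213_a

noncomputable def cut_pp_213_b : Cut := Cut.of [[⟨0, 1, 0, 37748736⟩, ⟨1, 1, 0, 37748736⟩, ⟨2, 2, 0, 5242880⟩]]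

noncomputable def f_pp_213_b : ℕ → ℕ → ℕ → ℕ → Bool := onCell 1239849684 370763052 0 1230186008 991146299 28908434
    (rowB 3 eng mog cd2q2b cd5q3 pd1 0 false true true .pnn 2 1 3 (qsf 1239849684 370763052 0 1230186008 1) ndB2q2b ndB5q3 pcB1 cut_pp_213_b Ext.none)

def k0_pp_213_b : ∃ t, chk3 f_pp_213_b t 1 1 1 = true :=
  ⟨(b (l 3) (b (l 3) (l 3))), by decide +kernel⟩

theorem c_pp_213_b : CertB 1239849684 370763052 0 1230186008 991146299 28908434 3 eng mog cd2q2b cd5q3 pd1 false true true .pnn 2 1 3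
    ndB2q2b ndB5q3 pcB1 cut_pp_213_b Ext.none :=
  certB0 (fam := false) (s1 := true) (s2 := true) (a := 2) (b := 1) (c := 3) (cn := .pnn) (n1 := ndB2q2b) (n2 := ndB5q3) (pc := pcB1) (cut := cut_pp_213_b) (xt := Ext.none) (P1 := 1239849684) (W1 := 370763052) (P2 := 0) (W2 := 1230186008) (P3 := 991146299) (W3 := 28908434) (N0 := 3) (En := eng) (mo := mog) (C1 := cd2q2b) (C2 := cd5q3) (C3 := pd1)
    rfl k0_pp_213_b

noncomputable def f_pp_303 : ℕ → ℕ → ℕ → ℕ → Bool := onCell 1610612736 536870912 0 1230186008 991146299 28908434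
    (rowB 3 eng mog cd2q3 cd5q3 pd0 0 false true true .npn 3 0 3 (qsf 1610612736 536870912 0 1230186008 0) ndB2q3 ndB5q3 pcB0 Cut.none Ext.none)

def k0_pp_303 : ∃ t, chk3 f_pp_303 t 1 1 1 = true :=
  ⟨(b (l 3) (l 5)), by decide +kernel⟩

theorem c_pp_303 : CertB 1610612736 536870912 0 1230186008 991146299 28908434 3 eng mog cd2q3 cd5q3 pd0 false true true .npn 3 0 3
    ndB2q3 ndB5q3 pcB0 Cut.none Ext.none :=
  certB0 (fam := false) (s1 := true) (s2 := true) (a := 3) (b := 0) (c := 3) (cn := .npn) (n1 := ndB2q3) (n2 := ndB5q3) (pc := pcB0) (cut := Cut.none) (xt := Ext.none) (P1 := 1610612736) (W1 := 536870912) (P2 := 0) (W2 := 1230186008) (P3 := 991146299) (W3 := 28908434) (N0 := 3) (En := eng) (mo := mog) (C1 := cd2q3) (C2 := cd5q3) (C3 := pd0)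
    rfl k0_pp_303

noncomputable def f_pp_313 : ℕ → ℕ → ℕ → ℕ → Bool := onCell 1610612736 536870912 0 1230186008 991146299 28908434
    (rowB 3 eng mog cd2q3 cd5q3 pd1 0 false true true .dn 3 1 3 (qsf 1610612736 536870912 0 1230186008 1) ndB2q3 ndB5q3 pcB1 Cut.none Ext.none)

def k0_pp_313 : ∃ t, chk3 f_pp_313 t 1 1 1 = true :=
  ⟨(b (l 3) (l 1)), by decide +kernel⟩

theorem c_pp_313 : CertB 1610612736 536870912 0 1230186008 991146299 28908434 3 eng mog cd2q3 cd5q3 pd1 false true true .dn 3 1 3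
    ndB2q3 ndB5q3 pcB1 Cut.none Ext.none :=
  certB0 (fam := false) (s1 := true) (s2 := true) (a := 3) (b := 1) (c := 3) (cn := .dn) (n1 := ndB2q3) (n2 := ndB5q3) (pc := pcB1) (cut := Cut.none) (xt := Ext.none) (P1 := 1610612736) (W1 := 536870912) (P2 := 0) (W2 := 1230186008) (P3 := 991146299) (W3 := 28908434) (N0 := 3) (En := eng) (mo := mog) (C1 := cd2q3) (C2 := cd5q3) (C3 := pd1)
    rfl k0_pp_313

noncomputable def f_pm_001 : ℕ → ℕ → ℕ → ℕ → Bool := onCell 0 536870912 536870912 536870912 991146299 28908434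
    (rowB 3 eng mog cd2q0 cd5q1 pd0 0 false true false .up 0 0 1 (qsf 0 536870912 536870912 536870912 0) ndB2q0 ndB5q1 pcB0 Cut.none Ext.none)

def k0_pm_001 : ∃ t, chk3 f_pm_001 t 1 1 1 = true :=
  ⟨(l 4), by decide +kernel⟩

theorem c_pm_001 : CertB 0 536870912 536870912 536870912 991146299 28908434 3 eng mog cd2q0 cd5q1 pd0 false true false .up 0 0 1
    ndB2q0 ndB5q1 pcB0 Cut.none Ext.none :=
  certB0 (fam := false) (s1 := true) (s2 := false) (a := 0) (b := 0) (c := 1) (cn := .up) (n1 := ndB2q0) (n2 := ndB5q1) (pc := pcB0) (cut := Cut.none) (xt := Ext.none) (P1 := 0) (W1 := 536870912) (P2 := 536870912) (W2 := 536870912) (P3 := 991146299) (W3 := 28908434) (N0 := 3) (En := eng) (mo := mog) (C1 := cd2q0) (C2 := cd5q1) (C3 := pd0)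
    rfl k0_pm_001

noncomputable def f_pm_011 : ℕ → ℕ → ℕ → ℕ → Bool := onCell 0 536870912 536870912 536870912 991146299 28908434
    (rowB 3 eng mog cd2q0 cd5q1 pd1 0 false true false .pnn 0 1 1 (qsf 0 536870912 536870912 536870912 1) ndB2q0 ndB5q1 pcB1 Cut.none Ext.none)

def k0_pm_011 : ∃ t, chk3 f_pm_011 t 1 1 1 = true :=
  ⟨(l 4), by decide +kernel⟩

theorem c_pm_011 : CertB 0 536870912 536870912 536870912 991146299 28908434 3 eng mog cd2q0 cd5q1 pd1 false true false .pnn 0 1 1
    ndB2q0 ndB5q1 pcB1 Cut.none Ext.none :=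
  certB0 (fam := false) (s1 := true) (s2 := false) (a := 0) (b := 1) (c := 1) (cn := .pnn) (n1 := ndB2q0) (n2 := ndB5q1) (pc := pcB1) (cut := Cut.none) (xt := Ext.none) (P1 := 0) (W1 := 536870912) (P2 := 536870912) (W2 := 536870912) (P3 := 991146299) (W3 := 28908434) (N0 := 3) (En := eng) (mo := mog) (C1 := cd2q0) (C2 := cd5q1) (C3 := pd1)
    rfl k0_pm_011

noncomputable def f_pm_012 : ℕ → ℕ → ℕ → ℕ → Bool := onCell 0 536870912 1073741824 536870912 991146299 28908434
    (rowB 3 eng mog cd2q0 cd5q2 pd1 0 false true false .pnp 0 1 2 (qsf 0 536870912 1073741824 536870912 1) ndB2q0 ndB5q2 pcB1 Cut.none Ext.none)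

def k0_pm_012 : ∃ t, chk3 f_pm_012 t 1 1 1 = true :=
  ⟨(l 4), by decide +kernel⟩

theorem c_pm_012 : CertB 0 536870912 1073741824 536870912 991146299 28908434 3 eng mog cd2q0 cd5q2 pd1 false true false .pnp 0 1 2
    ndB2q0 ndB5q2 pcB1 Cut.none Ext.none :=
  certB0 (fam := false) (s1 := true) (s2 := false) (a := 0) (b := 1) (c := 2) (cn := .pnp) (n1 := ndB2q0) (n2 := ndB5q2) (pc := pcB1) (cut := Cut.none) (xt := Ext.none) (P1 := 0) (W1 := 536870912) (P2 := 1073741824) (W2 := 536870912) (P3 := 991146299) (W3 := 28908434) (N0 := 3) (En := eng) (mo := mog) (C1 := cd2q0) (C2 := cd5q2) (C3 := pd1)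
    rfl k0_pm_012

noncomputable def f_pm_022 : ℕ → ℕ → ℕ → ℕ → Bool := onCell 0 536870912 1073741824 536870912 991146299 28908434
    (rowB 3 eng mog cd2q0 cd5q2 pd2 0 false true false .pp 0 2 2 (qsf 0 536870912 1073741824 536870912 2) ndB2q0 ndB5q2 pcB2 Cut.none Ext.none)

def k0_pm_022 : ∃ t, chk3 f_pm_022 t 1 1 1 = true :=
  ⟨(l 4), by decide +kernel⟩

theorem c_pm_022 : CertB 0 536870912 1073741824 536870912 991146299 28908434 3 eng mog cd2q0 cd5q2 pd2 false true false .pp 0 2 2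
    ndB2q0 ndB5q2 pcB2 Cut.none Ext.none :=
  certB0 (fam := false) (s1 := true) (s2 := false) (a := 0) (b := 2) (c := 2) (cn := .pp) (n1 := ndB2q0) (n2 := ndB5q2) (pc := pcB2) (cut := Cut.none) (xt := Ext.none) (P1 := 0) (W1 := 536870912) (P2 := 1073741824) (W2 := 536870912) (P3 := 991146299) (W3 := 28908434) (N0 := 3) (En := eng) (mo := mog) (C1 := cd2q0) (C2 := cd5q2) (C3 := pd2)
    rfl k0_pm_022

noncomputable def f_pm_023 : ℕ → ℕ → ℕ → ℕ → Bool := onCell 0 536870912 0 1230186008 991146299 28908434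
    (rowB 3 eng mog cd2q0 cd5q3 pd2 0 false true false .up 0 2 3 (qsf 0 536870912 0 1230186008 2) ndB2q0 ndB5q3 pcB2 Cut.none Ext.none)

def k0_pm_023 : ∃ t, chk3 f_pm_023 t 1 1 1 = true :=
  ⟨(b (b (l 4) (l 4)) (l 4)), by decide +kernel⟩

theorem c_pm_023 : CertB 0 536870912 0 1230186008 991146299 28908434 3 eng mog cd2q0 cd5q3 pd2 false true false .up 0 2 3
    ndB2q0 ndB5q3 pcB2 Cut.none Ext.none :=
  certB0 (fam := false) (s1 := true) (s2 := false) (a := 0) (b := 2) (c := 3) (cn := .up) (n1 := ndB2q0) (n2 := ndB5q3) (pc := pcB2) (cut := Cut.none) (xt := Ext.none) (P1 := 0) (W1 := 536870912) (P2 := 0) (W2 := 1230186008) (P3 := 991146299) (W3 := 28908434) (N0 := 3) (En := eng) (mo := mog) (C1 := cd2q0) (C2 := cd5q3) (C3 := pd2)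
    rfl k0_pm_023

noncomputable def f_pm_033 : ℕ → ℕ → ℕ → ℕ → Bool := onCell 0 536870912 0 1230186008 991146299 28908434
    (rowB 3 eng mog cd2q0 cd5q3 pd3 0 false true false .pnn 0 3 3 (qsf 0 536870912 0 1230186008 3) ndB2q0 ndB5q3 pcB3 Cut.none Ext.none)

def k0_pm_033 : ∃ t, chk3 f_pm_033 t 1 1 1 = true :=
  ⟨(b (a (l 4) (l 4)) (l 4)), by decide +kernel⟩

theorem c_pm_033 : CertB 0 536870912 0 1230186008 991146299 28908434 3 eng mog cd2q0 cd5q3 pd3 false true false .pnn 0 3 3
    ndB2q0 ndB5q3 pcB3 Cut.none Ext.none :=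
  certB0 (fam := false) (s1 := true) (s2 := false) (a := 0) (b := 3) (c := 3) (cn := .pnn) (n1 := ndB2q0) (n2 := ndB5q3) (pc := pcB3) (cut := Cut.none) (xt := Ext.none) (P1 := 0) (W1 := 536870912) (P2 := 0) (W2 := 1230186008) (P3 := 991146299) (W3 := 28908434) (N0 := 3) (En := eng) (mo := mog) (C1 := cd2q0) (C2 := cd5q3) (C3 := pd3)
    rfl k0_pm_033

noncomputable def f_pm_101 : ℕ → ℕ → ℕ → ℕ → Bool := onCell 536870912 536870912 536870912 536870912 991146299 28908434
    (rowB 3 eng mog cd2q1 cd5q1 pd0 0 false true false .npn 1 0 1 (qsf 536870912 536870912 536870912 536870912 0) ndB2q1 ndB5q1 pcB0 Cut.none Ext.none)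

def k0_pm_101 : ∃ t, chk3 f_pm_101 t 1 1 1 = true :=
  ⟨(l 4), by decide +kernel⟩

theorem c_pm_101 : CertB 536870912 536870912 536870912 536870912 991146299 28908434 3 eng mog cd2q1 cd5q1 pd0 false true false .npn 1 0 1
    ndB2q1 ndB5q1 pcB0 Cut.none Ext.none :=
  certB0 (fam := false) (s1 := true) (s2 := false) (a := 1) (b := 0) (c := 1) (cn := .npn) (n1 := ndB2q1) (n2 := ndB5q1) (pc := pcB0) (cut := Cut.none) (xt := Ext.none) (P1 := 536870912) (W1 := 536870912) (P2 := 536870912) (W2 := 536870912) (P3 := 991146299) (W3 := 28908434) (N0 := 3) (En := eng) (mo := mog) (C1 := cd2q1) (C2 := cd5q1) (C3 := pd0)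
    rfl k0_pm_101

noncomputable def f_pm_102 : ℕ → ℕ → ℕ → ℕ → Bool := onCell 536870912 536870912 1073741824 536870912 991146299 28908434
    (rowB 3 eng mog cd2q1 cd5q2 pd0 0 false true false .npp 1 0 2 (qsf 536870912 536870912 1073741824 536870912 0) ndB2q1 ndB5q2 pcB0 Cut.none Ext.none)

def k0_pm_102 : ∃ t, chk3 f_pm_102 t 1 1 1 = true :=
  ⟨(l 4), by decide +kernel⟩

theorem c_pm_102 : CertB 536870912 536870912 1073741824 536870912 991146299 28908434 3 eng mog cd2q1 cd5q2 pd0 false true false .npp 1 0 2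
    ndB2q1 ndB5q2 pcB0 Cut.none Ext.none :=
  certB0 (fam := false) (s1 := true) (s2 := false) (a := 1) (b := 0) (c := 2) (cn := .npp) (n1 := ndB2q1) (n2 := ndB5q2) (pc := pcB0) (cut := Cut.none) (xt := Ext.none) (P1 := 536870912) (W1 := 536870912) (P2 := 1073741824) (W2 := 536870912) (P3 := 991146299) (W3 := 28908434) (N0 := 3) (En := eng) (mo := mog) (C1 := cd2q1) (C2 := cd5q2) (C3 := pd0)
    rfl k0_pm_102

noncomputable def f_pm_112 : ℕ → ℕ → ℕ → ℕ → Bool := onCell 536870912 536870912 1073741824 536870912 991146299 28908434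
    (rowB 3 eng mog cd2q1 cd5q2 pd1 0 false true false .dn 1 1 2 (qsf 536870912 536870912 1073741824 536870912 1) ndB2q1 ndB5q2 pcB1 Cut.none Ext.none)

def k0_pm_112 : ∃ t, chk3 f_pm_112 t 1 1 1 = true :=
  ⟨(l 4), by decide +kernel⟩

theorem c_pm_112 : CertB 536870912 536870912 1073741824 536870912 991146299 28908434 3 eng mog cd2q1 cd5q2 pd1 false true false .dn 1 1 2
    ndB2q1 ndB5q2 pcB1 Cut.none Ext.none :=
  certB0 (fam := false) (s1 := true) (s2 := false) (a := 1) (b := 1) (c := 2) (cn := .dn) (n1 := ndB2q1) (n2 := ndB5q2) (pc := pcB1) (cut := Cut.none) (xt := Ext.none) (P1 := 536870912) (W1 := 536870912) (P2 := 1073741824) (W2 := 536870912) (P3 := 991146299) (W3 := 28908434) (N0 := 3) (En := eng) (mo := mog) (C1 := cd2q1) (C2 := cd5q2) (C3 := pd1)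
    rfl k0_pm_112

noncomputable def f_pm_113 : ℕ → ℕ → ℕ → ℕ → Bool := onCell 536870912 536870912 0 1230186008 991146299 28908434
    (rowB 3 eng mog cd2q1 cd5q3 pd1 0 false true false .nn 1 1 3 (qsf 536870912 536870912 0 1230186008 1) ndB2q1 ndB5q3 pcB1 Cut.none Ext.none)

def k0_pm_113 : ∃ t, chk3 f_pm_113 t 1 1 1 = true :=
  ⟨(b (a (l 2) (a (l 2) (b (a (l 2) (b (l 16450504) (l 15841624))) (b (a (l 674407087079) (l 15480728)) (l 4))))) (l 4)), by decide +kernel⟩

theorem c_pm_113 : CertB 536870912 536870912 0 1230186008 991146299 28908434 3 eng mog cd2q1 cd5q3 pd1 false true false .nn 1 1 3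
    ndB2q1 ndB5q3 pcB1 Cut.none Ext.none :=
  certB0 (fam := false) (s1 := true) (s2 := false) (a := 1) (b := 1) (c := 3) (cn := .nn) (n1 := ndB2q1) (n2 := ndB5q3) (pc := pcB1) (cut := Cut.none) (xt := Ext.none) (P1 := 536870912) (W1 := 536870912) (P2 := 0) (W2 := 1230186008) (P3 := 991146299) (W3 := 28908434) (N0 := 3) (En := eng) (mo := mog) (C1 := cd2q1) (C2 := cd5q3) (C3 := pd1)
    rfl k0_pm_113

noncomputable def f_pm_123 : ℕ → ℕ → ℕ → ℕ → Bool := onCell 1073741824 536870912 0 1230186008 991146299 28908434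
    (rowB 3 eng mog cd2q1 cd5q3 pd2 2 false true false .npn 1 2 3 (qsf 536870912 536870912 0 1230186008 2) ndB2q1 ndB5q3 pcB2 Cut.none Ext.none)

def k0_pm_123 : ∃ t, chk3 f_pm_123 t 1 1 1 = true :=
  ⟨(b (a (b (a (b (a (b (a (l 16493384) (l 16700344)) (l 16622536)) (l 16484664)) (a (a (l 16091896) (l 16007408)) (a (l 16057760) (l 16155416)))) (a (b (l 16420960) (a (l 16234960) (l 16268768))) (b (l 16549768) (b (l 16441792) (l 4))))) (b (a (a (b (a (l 15542216) (l 15695768)) (l 4)) (l 4)) (l 4)) (l 4))) (b (b (a (a (a (l 16646560) (l 16693696)) (a (l 16561880) (l 16438672))) (a (b (l 16305984) (l 4)) (l 4))) (l 4)) (l 4))) (l 4)), by decide +kernel⟩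

theorem c_pm_123 : CertB 536870912 536870912 0 1230186008 991146299 28908434 3 eng mog cd2q1 cd5q3 pd2 false true false .npn 1 2 3
    ndB2q1 ndB5q3 pcB2 Cut.none Ext.none :=
  certB2 (fam := false) (s1 := true) (s2 := false) (a := 1) (b := 2) (c := 3) (cn := .npn) (n1 := ndB2q1) (n2 := ndB5q3) (pc := pcB2) (cut := Cut.none) (xt := Ext.none) (P1 := 536870912) (W1 := 536870912) (P2 := 0) (W2 := 1230186008) (P3 := 991146299) (W3 := 28908434) (N0 := 3) (En := eng) (mo := mog) (C1 := cd2q1) (C2 := cd5q3) (C3 := pd2)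
    rfl (fun _ => rfl) k0_pm_123

noncomputable def f_pm_133 : ℕ → ℕ → ℕ → ℕ → Bool := onCell 1610612736 536870912 0 1230186008 991146299 28908434
    (rowB 3 eng mog cd2q1 cd5q3 pd3 2 false true false .dn 1 3 3 (qsf 536870912 536870912 0 1230186008 3) ndB2q1 ndB5q3 pcB3 Cut.none Ext.none)

def k0_pm_133 : ∃ t, chk3 f_pm_133 t 1 1 1 = true :=
  ⟨(b (a (l 4) (l 1)) (l 1)), by decide +kernel⟩

theorem c_pm_133 : CertB 536870912 536870912 0 1230186008 991146299 28908434 3 eng mog cd2q1 cd5q3 pd3 false true false .dn 1 3 3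
    ndB2q1 ndB5q3 pcB3 Cut.none Ext.none :=
  certB2 (fam := false) (s1 := true) (s2 := false) (a := 1) (b := 3) (c := 3) (cn := .dn) (n1 := ndB2q1) (n2 := ndB5q3) (pc := pcB3) (cut := Cut.none) (xt := Ext.none) (P1 := 536870912) (W1 := 536870912) (P2 := 0) (W2 := 1230186008) (P3 := 991146299) (W3 := 28908434) (N0 := 3) (En := eng) (mo := mog) (C1 := cd2q1) (C2 := cd5q3) (C3 := pd3)
    rfl (fun _ => rfl) k0_pm_133

noncomputable def f_pm_202_a : ℕ → ℕ → ℕ → ℕ → Bool := onCell 0 536870912 1073741824 536870912 991146299 28908434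
    (rowB 3 eng mog cd2q2a cd5q2 pd0 0 false true false .pp 2 0 2 (qsf 0 536870912 1073741824 536870912 0) ndB2q2a ndB5q2 pcB0 Cut.none Ext.none)

def k0_pm_202_a : ∃ t, chk3 f_pm_202_a t 1 1 1 = true :=
  ⟨(a (b (b (l 4) (b (a (b (l 14691504) (l 14898528)) (l 4)) (a (b (l 15076808) (l 15251160)) (b (l 4) (l 15116888))))) (b (b (a (l 15502192) (b (l 15263704) (l 15410736))) (a (b (l 15734392) (l 15877768)) (b (l 15559656) (l 15704960)))) (b (a (b (l 16001976) (l 16079880)) (b (l 15844944) (l 15786848))) (a (l 16123976) (b (l 16057960) (l 16086584)))))) (b (l 4) (b (a (b (a (b (l 4) (l 15246392)) (l 4)) (a (b (l 15371304) (l 15508600)) (b (l 15228632) (l 15337712)))) (b (l 4) (a (l 4) (l 4)))) (a (a (b (l 15572304) (b (l 15934784) (l 16010616))) (b (b (l 15464280) (l 15606488)) (b (l 15753752) (l 15770440)))) (b (a (b (c (l 15258328) (l 15226616)) (l 15274008)) (b (l 4) (a (l 15133432) (l 14980344)))) (a (b (l 15505680) (l 15671280)) (b (a (l 15256488) (l 14935344))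 (a (l 15427552) (l 15217824))))))))), by decide +kernel⟩

theorem c_pm_202_a : CertB 0 536870912 1073741824 536870912 991146299 28908434 3 eng mog cd2q2a cd5q2 pd0 false true false .pp 2 0 2
    ndB2q2a ndB5q2 pcB0 Cut.none Ext.none :=
  certB0 (fam := false) (s1 := true) (s2 := false) (a := 2) (b := 0) (c := 2) (cn := .pp) (n1 := ndB2q2a) (n2 := ndB5q2) (pc := pcB0) (cut := Cut.none) (xt := Ext.none) (P1 := 0) (W1 := 536870912) (P2 := 1073741824) (W2 := 536870912) (P3 := 991146299) (W3 := 28908434) (N0 := 3) (En := eng) (mo := mog) (C1 := cd2q2a) (C2 := cd5q2) (C3 := pd0)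
    rfl k0_pm_202_a

noncomputable def f_pm_202_b : ℕ → ℕ → ℕ → ℕ → Bool := onCell 0 536870912 1073741824 536870912 991146299 28908434
    (rowB 3 eng mog cd2q2b cd5q2 pd0 2 false true false .pp 2 0 2 (qsf 1239849684 370763052 1073741824 536870912 0) ndB2q2b ndB5q2 pcB0 Cut.none Ext.none)

def k0_pm_202_b : ∃ t, chk3 f_pm_202_b t 1 1 1 = true :=
  ⟨(a (b (b (l 1) (a (b (a (a (l 14807256) (l 14728896)) (l 1)) (a (l 15132120) (l 265244027079))) (l 1))) (a (b (b (a (l 15755376) (l 15642496)) (a (l 16115064) (l 16043208))) (a (a (b (l 16367424) (l 16246840)) (b (l 16359264) (l 16368592))) (b (a (l 16343168) (l 16317520)) (a (l 16451520) (l 16502312))))) (b (b (a (l 241622396679) (l 1)) (a (l 15917480) (b (l 15689544) (l 15912584)))) (b (a (l 16259520) (l 16063360)) (a (l 16474648) (l 16385600)))))) (b (l 1) (b (l 1) (a (b (a (l 15847328) (l 1)) (a (l 16149064) (b (l 15963504) (l 16071048)))) (l 1))))), by decide +kernel⟩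

theorem c_pm_202_b : CertB 1239849684 370763052 1073741824 536870912 991146299 28908434 3 eng mog cd2q2b cd5q2 pd0 false true false .pp 2 0 2
    ndB2q2b ndB5q2 pcB0 Cut.none Ext.none :=
  certB2 (fam := false) (s1 := true) (s2 := false) (a := 2) (b := 0) (c := 2) (cn := .pp) (n1 := ndB2q2b) (n2 := ndB5q2) (pc := pcB0) (cut := Cut.none) (xt := Ext.none) (P1 := 1239849684) (W1 := 370763052) (P2 := 1073741824) (W2 := 536870912) (P3 := 991146299) (W3 := 28908434) (N0 := 3) (En := eng) (mo := mog) (C1 := cd2q2b) (C2 := cd5q2) (C3 := pd0)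
    rfl (fun _ => rfl) k0_pm_202_b

noncomputable def f_pm_203_a : ℕ → ℕ → ℕ → ℕ → Bool := onCell 0 536870912 0 1230186008 991146299 28908434
    (rowB 3 eng mog cd2q2a cd5q3 pd0 0 false true false .up 2 0 3 (qsf 0 536870912 0 1230186008 0) ndB2q2a ndB5q3 pcB0 Cut.none Ext.none)

def k0_pm_203_a : ∃ t, chk3 f_pm_203_a t 1 1 1 = true :=
  ⟨(b (l 2) (b (l 2) (b (a (b (l 2) (a (l 16130528) (l 16034688))) (l 2)) (a (b (a (b (l 16076600) (l 16015664)) (b (l 15926392) (l 15869632))) (a (b (l 16036736) (l 16105048)) (b (l 16022544) (l 16071536)))) (b (a (b (a (l 15770472) (l 2)) (l 15825064)) (b (l 2) (a (l 15677088) (l 2)))) (b (a (l 15913976) (a (l 15787432) (a (l 15700632) (l 2)))) (a (a (l 16005768) (l 15930512)) (a (b (l 15835888) (l 15799096)) (a (b (l 15702624) (l 15582792)) (l 15444352)))))))))), by decide +kernel⟩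

theorem c_pm_203_a : CertB 0 536870912 0 1230186008 991146299 28908434 3 eng mog cd2q2a cd5q3 pd0 false true false .up 2 0 3
    ndB2q2a ndB5q3 pcB0 Cut.none Ext.none :=
  certB0 (fam := false) (s1 := true) (s2 := false) (a := 2) (b := 0) (c := 3) (cn := .up) (n1 := ndB2q2a) (n2 := ndB5q3) (pc := pcB0) (cut := Cut.none) (xt := Ext.none) (P1 := 0) (W1 := 536870912) (P2 := 0) (W2 := 1230186008) (P3 := 991146299) (W3 := 28908434) (N0 := 3) (En := eng) (mo := mog) (C1 := cd2q2a) (C2 := cd5q3) (C3 := pd0)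
    rfl k0_pm_203_a

noncomputable def f_pm_203_b : ℕ → ℕ → ℕ → ℕ → Bool := onCell 0 536870912 0 1230186008 991146299 28908434
    (rowB 3 eng mog cd2q2b cd5q3 pd0 2 false true false .up 2 0 3 (qsf 1239849684 370763052 0 1230186008 0) ndB2q2b ndB5q3 pcB0 Cut.none Ext.none)

def k0_pm_203_b : ∃ t, chk3 f_pm_203_b t 1 1 1 = true :=
  ⟨(b (a (l 2) (l 3)) (b (a (b (l 2) (a (l 2) (a (l 2) (b (l 2) (b (l 2) (l 16028184)))))) (a (b (a (l 2) (b (l 3) (b (l 16336544) (l 16329392)))) (a (b (b (l 805942276119) (l 16235344)) (b (l 16272016) (l 16315984))) (b (b (l 16402632) (l 16466040)) (l 16538912)))) (b (b (b (l 3) (a (l 16462472) (l 16573632))) (a (b (l 16477552) (l 16529320)) (l 16612536))) (b (a (b (l 16603160) (l 16654648)) (b (l 16641288) (l 16617536))) (a (l 16682888) (l 16593752)))))) (a (b (a (l 2) (b (a (b (l 2) (l 15874400)) (b (l 16051400) (l 16177248))) (a (b (l 16029160) (l 16147368)) (a (l 16337520) (l 16479152))))) (a (a (a (l 818289528119) (b (l 2) (l 16068648)))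 (a (b (l 15898808) (l 16156376)) (l 16150168))) (b (a (l 16279088) (l 16606440)) (a (l 16469544) (l 16581296))))) (b (a (b (a (c (l 16354704) (l 16468976)) (b (l 16617456) (l 16699472))) (a (l 16685792) (l 16639152))) (b (a (c (l 16739960) (l 16542176)) (l 16317440)) (a (l 16499048) (l 140155817895)))) (a (b (a (b (l 16686680) (l 16608248)) (b (l 16485672) (l 16398912))) (a (l 16457208) (b (l 16292368) (l 16183096)))) (b (a (b (l 16332304) (l 16145840)) (l 307121653191)) (a (b (l 15797688) (l 15883576)) (l 1)))))))), by decide +kernel⟩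

theorem c_pm_203_b : CertB 1239849684 370763052 0 1230186008 991146299 28908434 3 eng mog cd2q2b cd5q3 pd0 false true false .up 2 0 3
    ndB2q2b ndB5q3 pcB0 Cut.none Ext.none :=
  certB2 (fam := false) (s1 := true) (s2 := false) (a := 2) (b := 0) (c := 3) (cn := .up) (n1 := ndB2q2b) (n2 := ndB5q3) (pc := pcB0) (cut := Cut.none) (xt := Ext.none) (P1 := 1239849684) (W1 := 370763052) (P2 := 0) (W2 := 1230186008) (P3 := 991146299) (W3 := 28908434) (N0 := 3) (En := eng) (mo := mog) (C1 := cd2q2b) (C2 := cd5q3) (C3 := pd0)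
    rfl (fun _ => rfl) k0_pm_203_b

noncomputable def cut_pm_213_a : Cut := Cut.of [[⟨0, 1, 0, 37748736⟩, ⟨1, 1, 0, 37748736⟩, ⟨2, 2, 0, 5242880⟩]]

noncomputable def f_pm_213_a : ℕ → ℕ → ℕ → ℕ → Bool := onCell 0 536870912 0 1230186008 991146299 28908434
    (rowB 3 eng mog cd2q2a cd5q3 pd1 0 false true false .pnn 2 1 3 (qsf 0 536870912 0 1230186008 1) ndB2q2a ndB5q3 pcB1 cut_pm_213_a Ext.none)

def k0_pm_213_a : ∃ t, chk3 f_pm_213_a t 1 2 1 = true :=
  ⟨(a (b (b (l 3) (a (l 3) (b (l 3) (a (l 3) (l 257865666295))))) (b (a (b (a (l 3) (l 308868442887)) (a (l 241222643191) (l 222432240599))) (b (a (l 212768505127) (b (l 16746424) (l 16742336))) (a (l 16753504) (l 16747896)))) (a (b (a (l 16757312) (l 16755200)) (l 16620288)) (b (a (l 16761672) (l 16745664)) (a (l 16706144) (l 16681832)))))) (b (a (b (b (l 3) (l 3)) (b (a (b (l 3) (l 366850488071)) (a (b (l 381882971991) (l 16759024)) (b (l 247665145911) (l 16744512)))) (a (b (l 206326077895) (l 16742704)) (b (l 16731536)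 (l 16713864))))) (a (b (b (l 3) (a (b (l 3) (l 333027625975)) (b (a (l 404968422983) (b (l 378661702087) (l 16764568))) (a (l 16756744) (l 16742432))))) (b (a (b (l 16748128) (l 16722440)) (b (l 16721104) (l 16693776))) (a (l 16688888) (l 16650256)))) (b (b (a (b (l 3) (a (b (l 3) (l 346986335911)) (l 6))) (l 6)) (a (b (a (b (l 16763504) (l 16748328)) (l 6)) (a (l 16726040) (l 16704856))) (b (l 6) (l 16638592)))) (b (a (b (l 16683336) (l 16656912)) (a (l 16648000) (l 16635312))) (a (l 16621256) (b (l 16604144) (l 16585656))))))) (a (b (b (a (l 16728424) (l 16694800)) (a (l 16727488) (l 16647800))) (b (a (l 16678944) (l 16574880)) (a (l 16604480) (l 16480832)))) (b (a (b (a (l 16635960) (l 16615544)) (l 16551920)) (b (a (l 16576768) (l 16564144)) (a (l 16597464) (l 16685096)))) (a (b (l 16447520) (l 16320632)) (a (l 16518608) (b (l 16474912) (l 16150320)))))))), by decide +kernel⟩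

def k1_pm_213_a : ∃ t, chk3 f_pm_213_a t 1 3 1 = true :=
  ⟨(b (a (b (a (b (b (l 16651760) (l 16559192)) (b (l 16673456) (l 16659688))) (b (a (l 16674560) (l 16616968)) (l 16549944))) (b (a (l 16560920) (b (l 16415536) (l 16285160))) (a (l 16234912) (b (l 16115568) (l 15780480))))) (b (a (b (a (l 16510704) (l 16365224)) (a (l 16371976) (l 16211936))) (a (b (l 16179760) (l 16010976)) (b (b (l 16011056) (l 15911768)) (b (l 15811576) (l 15702904))))) (a (b (a (l 16157152) (l 15985848)) (a (b (l 15943288) (l 15891752)) (l 15826408))) (b (a (b (l 15847320) (l 15746832)) (b (l 15595648) (l 15495632))) (a (l 15651112) (l 15384160)))))) (b (a (b (a (b (l 15960968) (l 15913736)) (b (l 15929632) (l 15983512))) (a (l 16061440) (l 16047624))) (b (a (l 15644616) (a (l 15604432) (l 15311712))) (a (b (l 15892696) (l 15945120)) (b (a (l 15627952) (l 15328136)) (a (l 15671792) (l 15364832)))))) (a (b (a (l 1) (b (l 16158272) (l 1))) (l 1)) (a (b (b (l 15922864) (l 15964296)) (l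 1)) (a (b (l 15689216) (b (l 15687320) (l 1))) (b (l 15396584) (b (l 15403424) (l 15350544)))))))), by decide +kernel⟩

theorem s2_pm_213_a : ∃ t, chk3 f_pm_213_a t 1 1 1 = true := ex3_b k0_pm_213_a k1_pm_213_a

theorem c_pm_213_a : CertB 0 536870912 0 1230186008 991146299 28908434 3 eng mog cd2q2a cd5q3 pd1 false true false .pnn 2 1 3
    ndB2q2a ndB5q3 pcB1 cut_pm_213_a Ext.none :=
  certB0 (fam := false) (s1 := true) (s2 := false) (a := 2) (b := 1) (c := 3) (cn := .pnn) (n1 := ndB2q2a) (n2 := ndB5q3) (pc := pcB1) (cut := cut_pm_213_a) (xt := Ext.none) (P1 := 0) (W1 := 536870912) (P2 := 0) (W2 := 1230186008) (P3 := 991146299) (W3 := 28908434) (N0 := 3) (En := eng) (mo := mog) (C1 := cd2q2a) (C2 := cd5q3) (C3 := pd1)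
    rfl s2_pm_213_a

noncomputable def cut_pm_213_b : Cut := Cut.of [[⟨0, 1, 0, 37748736⟩, ⟨1, 1, 0, 37748736⟩, ⟨2, 2, 0, 5242880⟩]]

noncomputable def f_pm_213_b : ℕ → ℕ → ℕ → ℕ → Bool := onCell 1239849684 370763052 0 1230186008 991146299 28908434
    (rowB 3 eng mog cd2q2b cd5q3 pd1 0 false true false .pnn 2 1 3 (qsf 1239849684 370763052 0 1230186008 1) ndB2q2b ndB5q3 pcB1 cut_pm_213_b Ext.none)

def k0_pm_213_b : ∃ t, chk3 f_pm_213_b t 1 1 1 = true :=
  ⟨(b (b (l 3) (a (a (a (b (b (l 3) (b (l 3) (a (l 16745648) (l 3)))) (b (b (b (l 16749456) (l 16753216)) (l 16738448)) (b (l 16710280) (l 16671288)))) (b (l 3) (b (b (l 16727224) (a (l 16733400) (l 16734520))) (b (l 16698120) (l 16647144))))) (b (l 3) (a (b (l 268602831895) (b (l 16706216) (l 16655352))) (b (l 3) (b (l 3) (l 16669944)))))) (a (b (l 3) (b (l 3) (l 3))) (l 3)))) (b (a (b (a (b (a (b (l 16619880) (l 16533824)) (b (l 16583736) (l 16506720))) (a (b (a (l 16562584) (l 16491296)) (l 16617392)) (b (l 16385072)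 (a (l 16483880) (l 16393392))))) (b (a (b (l 16579392) (l 16489672)) (b (l 16600728) (l 16499048))) (b (a (l 16386040) (l 16383616)) (a (l 16169272) (l 16260680))))) (b (a (a (l 16505024) (b (l 16593976) (l 16773624))) (a (b (l 16422792) (l 16639056)) (b (l 16053944) (l 16490528)))) (a (b (l 16367520) (l 16211136)) (b (l 16439208) (l 16390344))))) (b (a (b (a (b (l 16616400) (l 16526480)) (b (l 3) (l 16539456))) (a (b (l 16400888) (l 16264512)) (l 1))) (l 1)) (l 1))) (a (b (a (b (b (l 16062872) (b (l 15852112) (l 15843784))) (b (l 15962384) (l 16147800))) (l 1)) (l 1)) (l 1)))), by decide +kernel⟩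

theorem c_pm_213_b : CertB 1239849684 370763052 0 1230186008 991146299 28908434 3 eng mog cd2q2b cd5q3 pd1 false true false .pnn 2 1 3
    ndB2q2b ndB5q3 pcB1 cut_pm_213_b Ext.none :=
  certB0 (fam := false) (s1 := true) (s2 := false) (a := 2) (b := 1) (c := 3) (cn := .pnn) (n1 := ndB2q2b) (n2 := ndB5q3) (pc := pcB1) (cut := cut_pm_213_b) (xt := Ext.none) (P1 := 1239849684) (W1 := 370763052) (P2 := 0) (W2 := 1230186008) (P3 := 991146299) (W3 := 28908434) (N0 := 3) (En := eng) (mo := mog) (C1 := cd2q2b) (C2 := cd5q3) (C3 := pd1)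
    rfl k0_pm_213_b

noncomputable def f_pm_303 : ℕ → ℕ → ℕ → ℕ → Bool := onCell 0 536870912 0 1230186008 991146299 28908434
    (rowB 3 eng mog cd2q3 cd5q3 pd0 2 false true false .npn 3 0 3 (qsf 1610612736 536870912 0 1230186008 0) ndB2q3 ndB5q3 pcB0 Cut.none Ext.none)

def k0_pm_303 : ∃ t, chk3 f_pm_303 t 1 1 1 = true :=
  ⟨(b (a (l 3) (l 3)) (b (a (b (l 3) (a (a (b (l 3) (b (l 190216084503) (a (a (l 14842832) (l 14926032)) (a (b (l 15011600) (l 15012760)) (l 15100856))))) (a (b (l 3) (b (l 15292056) (a (l 15184040) (b (l 15284312) (l 15271344))))) (b (l 15540696) (c (l 15448872) (l 15384712))))) (a (b (a (l 15682416) (l 15819208)) (b (a (l 15609136) (l 15765168)) (l 15682776))) (b (a (l 15950752) (l 16076120)) (b (a (l 15928032) (l 16079896)) (l 16020176)))))) (a (b (b (l 3) (a (a (l 3) (l 202566864071)) (b (l 16428720) (l 16431368)))) (a (b (b (a (l 16172472) (l 16291952)) (l 16270456)) (b (l 16291840) (l 16318552))) (b (b (l 16464592) (l 1)) (l 1)))) (b (b (b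 (l 3) (l 1)) (l 1)) (l 1)))) (a (b (a (b (a (a (b (l 14964576) (l 15037720)) (a (b (l 15130416) (a (l 15254880) (l 15327096))) (b (l 15194608) (l 15357512)))) (a (a (l 15320760) (l 15369584)) (b (l 15429176) (l 15565200)))) (a (a (l 15189728) (a (l 15421928) (l 15497376))) (b (a (a (l 15502968) (l 15560232)) (l 15692872)) (a (l 15609584) (l 15770712))))) (b (a (b (a (l 15612816) (l 15789072)) (l 15811960)) (b (l 16047744) (l 16131400))) (a (b (l 15944144) (l 16039216)) (l 1)))) (a (b (a (a (l 15400096) (a (l 15587872) (l 15657080))) (a (l 15730464) (l 15877808))) (a (a (l 15650688) (a (l 15795744) (l 15857832))) (a (l 15931712) (l 1)))) (a (b (l 16136464) (l 1)) (l 1)))) (l 1)))), by decide +kernel⟩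

theorem c_pm_303 : CertB 1610612736 536870912 0 1230186008 991146299 28908434 3 eng mog cd2q3 cd5q3 pd0 false true false .npn 3 0 3
    ndB2q3 ndB5q3 pcB0 Cut.none Ext.none :=
  certB2 (fam := false) (s1 := true) (s2 := false) (a := 3) (b := 0) (c := 3) (cn := .npn) (n1 := ndB2q3) (n2 := ndB5q3) (pc := pcB0) (cut := Cut.none) (xt := Ext.none) (P1 := 1610612736) (W1 := 536870912) (P2 := 0) (W2 := 1230186008) (P3 := 991146299) (W3 := 28908434) (N0 := 3) (En := eng) (mo := mog) (C1 := cd2q3) (C2 := cd5q3) (C3 := pd0)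
    rfl (fun _ => rfl) k0_pm_303

noncomputable def f_pm_313 : ℕ → ℕ → ℕ → ℕ → Bool := onCell 1610612736 536870912 0 1230186008 991146299 28908434
    (rowB 3 eng mog cd2q3 cd5q3 pd1 0 false true false .dn 3 1 3 (qsf 1610612736 536870912 0 1230186008 1) ndB2q3 ndB5q3 pcB1 Cut.none Ext.none)

def k0_pm_313 : ∃ t, chk3 f_pm_313 t 1 1 1 = true :=
  ⟨(b (l 3) (l 1)), by decide +kernel⟩

theorem c_pm_313 : CertB 1610612736 536870912 0 1230186008 991146299 28908434 3 eng mog cd2q3 cd5q3 pd1 false true false .dn 3 1 3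
    ndB2q3 ndB5q3 pcB1 Cut.none Ext.none :=
  certB0 (fam := false) (s1 := true) (s2 := false) (a := 3) (b := 1) (c := 3) (cn := .dn) (n1 := ndB2q3) (n2 := ndB5q3) (pc := pcB1) (cut := Cut.none) (xt := Ext.none) (P1 := 1610612736) (W1 := 536870912) (P2 := 0) (W2 := 1230186008) (P3 := 991146299) (W3 := 28908434) (N0 := 3) (En := eng) (mo := mog) (C1 := cd2q3) (C2 := cd5q3) (C3 := pd1)
    rfl k0_pm_313

noncomputable def f_mm_001 : ℕ → ℕ → ℕ → ℕ → Bool := onCell 0 536870912 0 536870912 991146299 28908434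
    (rowB 3 eng mog cd2q0 cd5q1 pd0 1 false false false .up 0 0 1 (qsf 0 536870912 536870912 536870912 0) ndB2q0 ndB5q1 pcB0 Cut.none Ext.none)

def k0_mm_001 : ∃ t, chk3 f_mm_001 t 1 1 1 = true :=
  ⟨(l 3), by decide +kernel⟩

theorem c_mm_001 : CertB 0 536870912 536870912 536870912 991146299 28908434 3 eng mog cd2q0 cd5q1 pd0 false false false .up 0 0 1
    ndB2q0 ndB5q1 pcB0 Cut.none Ext.none :=
  certB1 (fam := false) (s1 := false) (s2 := false) (a := 0) (b := 0) (c := 1) (cn := .up) (n1 := ndB2q0) (n2 := ndB5q1) (pc := pcB0) (cut := Cut.none) (xt := Ext.none) (P1 := 0) (W1 := 536870912) (P2 := 536870912) (W2 := 536870912) (P3 := 991146299) (W3 := 28908434) (N0 := 3) (En := eng) (mo := mog) (C1 := cd2q0) (C2 := cd5q1) (C3 := pd0)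
    rfl (fun _ => rfl) k0_mm_001

noncomputable def f_mm_011 : ℕ → ℕ → ℕ → ℕ → Bool := onCell 0 536870912 536870912 536870912 991146299 28908434
    (rowB 3 eng mog cd2q0 cd5q1 pd1 1 false false false .pnn 0 1 1 (qsf 0 536870912 536870912 536870912 1) ndB2q0 ndB5q1 pcB1 Cut.none Ext.none)

def k0_mm_011 : ∃ t, chk3 f_mm_011 t 1 1 1 = true :=
  ⟨(l 5), by decide +kernel⟩

theorem c_mm_011 : CertB 0 536870912 536870912 536870912 991146299 28908434 3 eng mog cd2q0 cd5q1 pd1 false false false .pnn 0 1 1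
    ndB2q0 ndB5q1 pcB1 Cut.none Ext.none :=
  certB1 (fam := false) (s1 := false) (s2 := false) (a := 0) (b := 1) (c := 1) (cn := .pnn) (n1 := ndB2q0) (n2 := ndB5q1) (pc := pcB1) (cut := Cut.none) (xt := Ext.none) (P1 := 0) (W1 := 536870912) (P2 := 536870912) (W2 := 536870912) (P3 := 991146299) (W3 := 28908434) (N0 := 3) (En := eng) (mo := mog) (C1 := cd2q0) (C2 := cd5q1) (C3 := pd1)
    rfl (fun _ => rfl) k0_mm_011

noncomputable def f_mm_012 : ℕ → ℕ → ℕ → ℕ → Bool := onCell 0 536870912 1073741824 536870912 991146299 28908434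
    (rowB 3 eng mog cd2q0 cd5q2 pd1 0 false false false .pnp 0 1 2 (qsf 0 536870912 1073741824 536870912 1) ndB2q0 ndB5q2 pcB1 Cut.none Ext.none)

def k0_mm_012 : ∃ t, chk3 f_mm_012 t 1 1 1 = true :=
  ⟨(l 5), by decide +kernel⟩

theorem c_mm_012 : CertB 0 536870912 1073741824 536870912 991146299 28908434 3 eng mog cd2q0 cd5q2 pd1 false false false .pnp 0 1 2
    ndB2q0 ndB5q2 pcB1 Cut.none Ext.none :=
  certB0 (fam := false) (s1 := false) (s2 := false) (a := 0) (b := 1) (c := 2) (cn := .pnp) (n1 := ndB2q0) (n2 := ndB5q2) (pc := pcB1) (cut := Cut.none) (xt := Ext.none) (P1 := 0) (W1 := 536870912) (P2 := 1073741824) (W2 := 536870912) (P3 := 991146299) (W3 := 28908434) (N0 := 3) (En := eng) (mo := mog) (C1 := cd2q0) (C2 := cd5q2) (C3 := pd1)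
    rfl k0_mm_012

noncomputable def f_mm_022 : ℕ → ℕ → ℕ → ℕ → Bool := onCell 0 536870912 1073741824 536870912 991146299 28908434
    (rowB 3 eng mog cd2q0 cd5q2 pd2 0 false false false .pp 0 2 2 (qsf 0 536870912 1073741824 536870912 2) ndB2q0 ndB5q2 pcB2 Cut.none Ext.none)

def k0_mm_022 : ∃ t, chk3 f_mm_022 t 1 1 1 = true :=
  ⟨(l 5), by decide +kernel⟩

theorem c_mm_022 : CertB 0 536870912 1073741824 536870912 991146299 28908434 3 eng mog cd2q0 cd5q2 pd2 false false false .pp 0 2 2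
    ndB2q0 ndB5q2 pcB2 Cut.none Ext.none :=
  certB0 (fam := false) (s1 := false) (s2 := false) (a := 0) (b := 2) (c := 2) (cn := .pp) (n1 := ndB2q0) (n2 := ndB5q2) (pc := pcB2) (cut := Cut.none) (xt := Ext.none) (P1 := 0) (W1 := 536870912) (P2 := 1073741824) (W2 := 536870912) (P3 := 991146299) (W3 := 28908434) (N0 := 3) (En := eng) (mo := mog) (C1 := cd2q0) (C2 := cd5q2) (C3 := pd2)
    rfl k0_mm_022

noncomputable def f_mm_023 : ℕ → ℕ → ℕ → ℕ → Bool := onCell 0 536870912 0 1230186008 991146299 28908434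
    (rowB 3 eng mog cd2q0 cd5q3 pd2 0 false false false .up 0 2 3 (qsf 0 536870912 0 1230186008 2) ndB2q0 ndB5q3 pcB2 Cut.none Ext.none)

def k0_mm_023 : ∃ t, chk3 f_mm_023 t 1 1 1 = true :=
  ⟨(l 5), by decide +kernel⟩

theorem c_mm_023 : CertB 0 536870912 0 1230186008 991146299 28908434 3 eng mog cd2q0 cd5q3 pd2 false false false .up 0 2 3
    ndB2q0 ndB5q3 pcB2 Cut.none Ext.none :=
  certB0 (fam := false) (s1 := false) (s2 := false) (a := 0) (b := 2) (c := 3) (cn := .up) (n1 := ndB2q0) (n2 := ndB5q3) (pc := pcB2) (cut := Cut.none) (xt := Ext.none) (P1 := 0) (W1 := 536870912) (P2 := 0) (W2 := 1230186008) (P3 := 991146299) (W3 := 28908434) (N0 := 3) (En := eng) (mo := mog) (C1 := cd2q0) (C2 := cd5q3) (C3 := pd2)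
    rfl k0_mm_023

noncomputable def f_mm_033 : ℕ → ℕ → ℕ → ℕ → Bool := onCell 0 536870912 0 1230186008 991146299 28908434
    (rowB 3 eng mog cd2q0 cd5q3 pd3 0 false false false .pnn 0 3 3 (qsf 0 536870912 0 1230186008 3) ndB2q0 ndB5q3 pcB3 Cut.none Ext.none)

def k0_mm_033 : ∃ t, chk3 f_mm_033 t 1 1 1 = true :=
  ⟨(l 5), by decide +kernel⟩

theorem c_mm_033 : CertB 0 536870912 0 1230186008 991146299 28908434 3 eng mog cd2q0 cd5q3 pd3 false false false .pnn 0 3 3
    ndB2q0 ndB5q3 pcB3 Cut.none Ext.none :=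
  certB0 (fam := false) (s1 := false) (s2 := false) (a := 0) (b := 3) (c := 3) (cn := .pnn) (n1 := ndB2q0) (n2 := ndB5q3) (pc := pcB3) (cut := Cut.none) (xt := Ext.none) (P1 := 0) (W1 := 536870912) (P2 := 0) (W2 := 1230186008) (P3 := 991146299) (W3 := 28908434) (N0 := 3) (En := eng) (mo := mog) (C1 := cd2q0) (C2 := cd5q3) (C3 := pd3)
    rfl k0_mm_033

noncomputable def f_mm_101 : ℕ → ℕ → ℕ → ℕ → Bool := onCell 536870912 536870912 536870912 536870912 991146299 28908434
    (rowB 3 eng mog cd2q1 cd5q1 pd0 0 false false false .npn 1 0 1 (qsf 536870912 536870912 536870912 536870912 0) ndB2q1 ndB5q1 pcB0 Cut.none Ext.none)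

def k0_mm_101 : ∃ t, chk3 f_mm_101 t 1 1 1 = true :=
  ⟨(l 3), by decide +kernel⟩

theorem c_mm_101 : CertB 536870912 536870912 536870912 536870912 991146299 28908434 3 eng mog cd2q1 cd5q1 pd0 false false false .npn 1 0 1
    ndB2q1 ndB5q1 pcB0 Cut.none Ext.none :=
  certB0 (fam := false) (s1 := false) (s2 := false) (a := 1) (b := 0) (c := 1) (cn := .npn) (n1 := ndB2q1) (n2 := ndB5q1) (pc := pcB0) (cut := Cut.none) (xt := Ext.none) (P1 := 536870912) (W1 := 536870912) (P2 := 536870912) (W2 := 536870912) (P3 := 991146299) (W3 := 28908434) (N0 := 3) (En := eng) (mo := mog) (C1 := cd2q1) (C2 := cd5q1) (C3 := pd0)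
    rfl k0_mm_101

noncomputable def f_mm_102 : ℕ → ℕ → ℕ → ℕ → Bool := onCell 536870912 536870912 1073741824 536870912 991146299 28908434
    (rowB 3 eng mog cd2q1 cd5q2 pd0 0 false false false .npp 1 0 2 (qsf 536870912 536870912 1073741824 536870912 0) ndB2q1 ndB5q2 pcB0 Cut.none Ext.none)

def k0_mm_102 : ∃ t, chk3 f_mm_102 t 1 1 1 = true :=
  ⟨(l 3), by decide +kernel⟩

theorem c_mm_102 : CertB 536870912 536870912 1073741824 536870912 991146299 28908434 3 eng mog cd2q1 cd5q2 pd0 false false false .npp 1 0 2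
    ndB2q1 ndB5q2 pcB0 Cut.none Ext.none :=
  certB0 (fam := false) (s1 := false) (s2 := false) (a := 1) (b := 0) (c := 2) (cn := .npp) (n1 := ndB2q1) (n2 := ndB5q2) (pc := pcB0) (cut := Cut.none) (xt := Ext.none) (P1 := 536870912) (W1 := 536870912) (P2 := 1073741824) (W2 := 536870912) (P3 := 991146299) (W3 := 28908434) (N0 := 3) (En := eng) (mo := mog) (C1 := cd2q1) (C2 := cd5q2) (C3 := pd0)
    rfl k0_mm_102

noncomputable def f_mm_112 : ℕ → ℕ → ℕ → ℕ → Bool := onCell 536870912 536870912 1073741824 536870912 991146299 28908434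
    (rowB 3 eng mog cd2q1 cd5q2 pd1 0 false false false .dn 1 1 2 (qsf 536870912 536870912 1073741824 536870912 1) ndB2q1 ndB5q2 pcB1 Cut.none Ext.none)

def k0_mm_112 : ∃ t, chk3 f_mm_112 t 1 1 1 = true :=
  ⟨(l 3), by decide +kernel⟩

theorem c_mm_112 : CertB 536870912 536870912 1073741824 536870912 991146299 28908434 3 eng mog cd2q1 cd5q2 pd1 false false false .dn 1 1 2
    ndB2q1 ndB5q2 pcB1 Cut.none Ext.none :=
  certB0 (fam := false) (s1 := false) (s2 := false) (a := 1) (b := 1) (c := 2) (cn := .dn) (n1 := ndB2q1) (n2 := ndB5q2) (pc := pcB1) (cut := Cut.none) (xt := Ext.none) (P1 := 536870912) (W1 := 536870912) (P2 := 1073741824) (W2 := 536870912) (P3 := 991146299) (W3 := 28908434) (N0 := 3) (En := eng) (mo := mog) (C1 := cd2q1) (C2 := cd5q2) (C3 := pd1)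
    rfl k0_mm_112

noncomputable def f_mm_113 : ℕ → ℕ → ℕ → ℕ → Bool := onCell 536870912 536870912 0 1230186008 991146299 28908434
    (rowB 3 eng mog cd2q1 cd5q3 pd1 0 false false false .nn 1 1 3 (qsf 536870912 536870912 0 1230186008 1) ndB2q1 ndB5q3 pcB1 Cut.none Ext.none)

def k0_mm_113 : ∃ t, chk3 f_mm_113 t 1 1 1 = true :=
  ⟨(l 5), by decide +kernel⟩

theorem c_mm_113 : CertB 536870912 536870912 0 1230186008 991146299 28908434 3 eng mog cd2q1 cd5q3 pd1 false false false .nn 1 1 3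
    ndB2q1 ndB5q3 pcB1 Cut.none Ext.none :=
  certB0 (fam := false) (s1 := false) (s2 := false) (a := 1) (b := 1) (c := 3) (cn := .nn) (n1 := ndB2q1) (n2 := ndB5q3) (pc := pcB1) (cut := Cut.none) (xt := Ext.none) (P1 := 536870912) (W1 := 536870912) (P2 := 0) (W2 := 1230186008) (P3 := 991146299) (W3 := 28908434) (N0 := 3) (En := eng) (mo := mog) (C1 := cd2q1) (C2 := cd5q3) (C3 := pd1)
    rfl k0_mm_113

noncomputable def f_mm_123 : ℕ → ℕ → ℕ → ℕ → Bool := onCell 536870912 536870912 0 1230186008 991146299 28908434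
    (rowB 3 eng mog cd2q1 cd5q3 pd2 0 false false false .npn 1 2 3 (qsf 536870912 536870912 0 1230186008 2) ndB2q1 ndB5q3 pcB2 Cut.none Ext.none)

def k0_mm_123 : ∃ t, chk3 f_mm_123 t 1 1 1 = true :=
  ⟨(l 5), by decide +kernel⟩

theorem c_mm_123 : CertB 536870912 536870912 0 1230186008 991146299 28908434 3 eng mog cd2q1 cd5q3 pd2 false false false .npn 1 2 3
    ndB2q1 ndB5q3 pcB2 Cut.none Ext.none :=
  certB0 (fam := false) (s1 := false) (s2 := false) (a := 1) (b := 2) (c := 3) (cn := .npn) (n1 := ndB2q1) (n2 := ndB5q3) (pc := pcB2) (cut := Cut.none) (xt := Ext.none) (P1 := 536870912) (W1 := 536870912) (P2 := 0) (W2 := 1230186008) (P3 := 991146299) (W3 := 28908434) (N0 := 3) (En := eng) (mo := mog) (C1 := cd2q1) (C2 := cd5q3) (C3 := pd2)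
    rfl k0_mm_123

noncomputable def f_mm_133 : ℕ → ℕ → ℕ → ℕ → Bool := onCell 536870912 536870912 0 1230186008 991146299 28908434
    (rowB 3 eng mog cd2q1 cd5q3 pd3 0 false false false .dn 1 3 3 (qsf 536870912 536870912 0 1230186008 3) ndB2q1 ndB5q3 pcB3 Cut.none Ext.none)

def k0_mm_133 : ∃ t, chk3 f_mm_133 t 1 1 1 = true :=
  ⟨(l 5), by decide +kernel⟩

theorem c_mm_133 : CertB 536870912 536870912 0 1230186008 991146299 28908434 3 eng mog cd2q1 cd5q3 pd3 false false false .dn 1 3 3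
    ndB2q1 ndB5q3 pcB3 Cut.none Ext.none :=
  certB0 (fam := false) (s1 := false) (s2 := false) (a := 1) (b := 3) (c := 3) (cn := .dn) (n1 := ndB2q1) (n2 := ndB5q3) (pc := pcB3) (cut := Cut.none) (xt := Ext.none) (P1 := 536870912) (W1 := 536870912) (P2 := 0) (W2 := 1230186008) (P3 := 991146299) (W3 := 28908434) (N0 := 3) (En := eng) (mo := mog) (C1 := cd2q1) (C2 := cd5q3) (C3 := pd3)
    rfl k0_mm_133

noncomputable def cut_mm_202_a : Cut := Cut.of [[⟨0, 1, 0, 53687091⟩, ⟨1, 0, 0, 53687091⟩, ⟨2, 1, 0, 53687091⟩]]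

noncomputable def f_mm_202_a : ℕ → ℕ → ℕ → ℕ → Bool := onCell 0 536870912 0 536870912 991146299 28908434
    (rowB 3 eng mog cd2q2a cd5q2 pd0 1 false false false .pp 2 0 2 (qsf 0 536870912 1073741824 536870912 0) ndB2q2a ndB5q2 pcB0 cut_mm_202_a Ext.none)

def k0_mm_202_a : ∃ t, chk3 f_mm_202_a t 1 8 1 = true :=
  ⟨(a (a (b (a (b (b (l 16398784) (l 16399304)) (l 16414280)) (b (l 16434456) (l 16465624))) (b (b (a (l 16447216) (l 16380664)) (a (l 16478704) (a (l 16468976) (b (l 16461864) (l 16463648))))) (b (a (a (l 16501384) (l 16471256)) (a (l 16462536) (l 16474728))) (a (a (l 16477144) (l 16467096)) (l 16477680))))) (a (b (b (l 16472064) (b (l 16504592) (a (l 16485848) (l 16477320)))) (b (b (a (l 16468352) (l 16481208)) (a (l 16476424) (l 16491064))) (b (l 16517400) (l 16512040)))) (b (b (c (l 16518744) (l 16511800)) (b (b (l 16505456) (l 16541640)) (a (l 16492264) (l 16510664)))) (b (a (b (l 16499520) (l 16514928)) (b (l 16526616) (l 16533728))) (a (l 16533584)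 (l 16552072)))))) (b (b (b (a (a (a (l 16538464) (l 16562016)) (a (b (l 16579192) (l 16590440)) (b (l 16603776) (a (l 16611880) (l 16624760))))) (a (a (b (a (l 16624296) (l 16639920)) (a (l 16637184) (l 16649392))) (b (a (b (l 16652592) (l 16659136)) (b (l 6) (l 16676176))) (a (l 16662912) (b (l 16656688) (l 16658632))))) (l 6))) (a (a (a (l 16534344) (a (l 16548464) (l 16561968))) (a (b (l 16584744) (l 16585880)) (c (l 16620568) (l 16625272)))) (a (a (a (b (l 16641600) (l 16649944)) (l 177871745815)) (a (b (l 16666840) (l 3)) (l 3))) (l 3)))) (a (b (a (c (a (l 16526048) (l 16556976)) (a (l 16529368) (l 16561024))) (a (b (l 16592216) (l 16592160)) (b (l 16586632) (l 16626896)))) (a (a (l 16541592) (l 16570064)) (a (l 552070622519) (l 3)))) (l 3))) (a (b (a (c (a (l 16556296) (l 16587696)) (a (l 16561712) (l 16592920))) (l 3)) (l 3)) (l 3)))), by decide +kernel⟩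

def k1_mm_202_a : ∃ t, chk3 f_mm_202_a t 1 9 1 = true :=
  ⟨(a (b (b (b (a (a (l 16437792) (l 16492056)) (a (l 16500168) (l 16561968))) (a (a (l 16487888) (l 16507432)) (a (l 16534016) (l 3)))) (a (a (b (l 16500008) (l 16516336)) (b (l 16519064) (l 16530064))) (a (l 233169221687) (l 3)))) (a (b (a (b (l 16528776) (l 16538560)) (l 16547688)) (a (l 16554232) (l 235853612647))) (l 3))) (l 3)), by decide +kernel⟩

def k2_mm_202_a : ∃ t, chk3 f_mm_202_a t 1 5 1 = true :=
  ⟨(a (b (a (b (a (b (l 16573928) (l 248201684407)) (l 3)) (l 3)) (l 3)) (l 3)) (l 3)), by decide +kernel⟩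

def k3_mm_202_a : ∃ t, chk3 f_mm_202_a t 1 3 1 = true :=
  ⟨(l 3), by decide +kernel⟩

theorem s4_mm_202_a : ∃ t, chk3 f_mm_202_a t 1 4 1 = true := ex3_b k0_mm_202_a k1_mm_202_a

theorem s5_mm_202_a : ∃ t, chk3 f_mm_202_a t 1 2 1 = true := ex3_b s4_mm_202_a k2_mm_202_a

theorem s6_mm_202_a : ∃ t, chk3 f_mm_202_a t 1 1 1 = true := ex3_b s5_mm_202_a k3_mm_202_a

theorem c_mm_202_a : CertB 0 536870912 1073741824 536870912 991146299 28908434 3 eng mog cd2q2a cd5q2 pd0 false false false .pp 2 0 2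
    ndB2q2a ndB5q2 pcB0 cut_mm_202_a Ext.none :=
  certB1 (fam := false) (s1 := false) (s2 := false) (a := 2) (b := 0) (c := 2) (cn := .pp) (n1 := ndB2q2a) (n2 := ndB5q2) (pc := pcB0) (cut := cut_mm_202_a) (xt := Ext.none) (P1 := 0) (W1 := 536870912) (P2 := 1073741824) (W2 := 536870912) (P3 := 991146299) (W3 := 28908434) (N0 := 3) (En := eng) (mo := mog) (C1 := cd2q2a) (C2 := cd5q2) (C3 := pd0)
    rfl (fun _ => rfl) s6_mm_202_a

noncomputable def cut_mm_202_b : Cut := Cut.of [[⟨0, 1, 0, 53687091⟩, ⟨1, 0, 0, 53687091⟩, ⟨2, 1, 0, 53687091⟩]]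

noncomputable def f_mm_202_b : ℕ → ℕ → ℕ → ℕ → Bool := onCell 1239849684 370763052 0 536870912 991146299 28908434
    (rowB 3 eng mog cd2q2b cd5q2 pd0 1 false false false .pp 2 0 2 (qsf 1239849684 370763052 1073741824 536870912 0) ndB2q2b ndB5q2 pcB0 cut_mm_202_b Ext.none)

def k0_mm_202_b : ∃ t, chk3 f_mm_202_b t 1 1 1 = true :=
  ⟨(b (a (b (a (b (a (b (b (b (l 16383376) (l 16384472)) (b (l 16393120) (l 16408880))) (b (b (l 16431400) (a (l 16454032) (l 16388960))) (b (a (l 16469352) (l 16369160)) (a (l 16444560) (l 16373336))))) (b (b (l 16199488) (b (l 16301608) (a (l 16336880) (l 16229984)))) (b (a (b (l 16307904) (a (l 16309656) (l 16228936))) (b (l 16202888) (l 16226784))) (c (l 16194376) (a (l 16306424) (l 16201016)))))) (b (b (a (a (b (l 16446176) (l 16459760)) (b (l 16388352) (l 16380328))) (a (l 16257512) (l 16293200))) (a (a (b (l 16472464) (l 16483792)) (b (l 16415832) (l 16428672))) (a (l 16369392) (l 16322928)))) (a (b (a (l 16461360) (l 16447096))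 (a (l 16524176) (l 16450128))) (a (b (l 16397544) (l 16426312)) (l 3))))) (b (b (b (a (b (l 16134376) (l 16086136)) (b (l 15900176) (l 15977184))) (a (a (b (l 16155040) (l 16153240)) (b (l 16080608) (l 16097624))) (a (l 16045288) (l 3)))) (a (b (c (l 16151160) (l 16115256)) (l 16149608)) (b (l 16072216) (l 3)))) (b (a (b (l 16151128) (l 3)) (l 3)) (l 3)))) (a (b (a (b (b (a (l 16543688) (l 16495288)) (a (l 16541832) (l 3))) (l 3)) (l 3)) (l 3)) (l 3))) (b (a (b (b (l 3) (l 3)) (l 3)) (l 3)) (l 3))) (a (l 3) (l 2))), by decide +kernel⟩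

theorem c_mm_202_b : CertB 1239849684 370763052 1073741824 536870912 991146299 28908434 3 eng mog cd2q2b cd5q2 pd0 false false false .pp 2 0 2
    ndB2q2b ndB5q2 pcB0 cut_mm_202_b Ext.none :=
  certB1 (fam := false) (s1 := false) (s2 := false) (a := 2) (b := 0) (c := 2) (cn := .pp) (n1 := ndB2q2b) (n2 := ndB5q2) (pc := pcB0) (cut := cut_mm_202_b) (xt := Ext.none) (P1 := 1239849684) (W1 := 370763052) (P2 := 1073741824) (W2 := 536870912) (P3 := 991146299) (W3 := 28908434) (N0 := 3) (En := eng) (mo := mog) (C1 := cd2q2b) (C2 := cd5q2) (C3 := pd0)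
    rfl (fun _ => rfl) k0_mm_202_b

noncomputable def f_mm_203_a : ℕ → ℕ → ℕ → ℕ → Bool := onCell 0 536870912 0 1230186008 991146299 28908434
    (rowB 3 eng mog cd2q2a cd5q3 pd0 0 false false false .up 2 0 3 (qsf 0 536870912 0 1230186008 0) ndB2q2a ndB5q3 pcB0 Cut.none Ext.none)

def k0_mm_203_a : ∃ t, chk3 f_mm_203_a t 1 1 1 = true :=
  ⟨(b (l 2) (l 3)), by decide +kernel⟩

theorem c_mm_203_a : CertB 0 536870912 0 1230186008 991146299 28908434 3 eng mog cd2q2a cd5q3 pd0 false false false .up 2 0 3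
    ndB2q2a ndB5q3 pcB0 Cut.none Ext.none :=
  certB0 (fam := false) (s1 := false) (s2 := false) (a := 2) (b := 0) (c := 3) (cn := .up) (n1 := ndB2q2a) (n2 := ndB5q3) (pc := pcB0) (cut := Cut.none) (xt := Ext.none) (P1 := 0) (W1 := 536870912) (P2 := 0) (W2 := 1230186008) (P3 := 991146299) (W3 := 28908434) (N0 := 3) (En := eng) (mo := mog) (C1 := cd2q2a) (C2 := cd5q3) (C3 := pd0)
    rfl k0_mm_203_a

noncomputable def f_mm_203_b : ℕ → ℕ → ℕ → ℕ → Bool := onCell 1239849684 370763052 0 1230186008 991146299 28908434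
    (rowB 3 eng mog cd2q2b cd5q3 pd0 0 false false false .up 2 0 3 (qsf 1239849684 370763052 0 1230186008 0) ndB2q2b ndB5q3 pcB0 Cut.none Ext.none)

def k0_mm_203_b : ∃ t, chk3 f_mm_203_b t 1 1 1 = true :=
  ⟨(b (l 3) (b (l 3) (l 3))), by decide +kernel⟩

theorem c_mm_203_b : CertB 1239849684 370763052 0 1230186008 991146299 28908434 3 eng mog cd2q2b cd5q3 pd0 false false false .up 2 0 3
    ndB2q2b ndB5q3 pcB0 Cut.none Ext.none :=
  certB0 (fam := false) (s1 := false) (s2 := false) (a := 2) (b := 0) (c := 3) (cn := .up) (n1 := ndB2q2b) (n2 := ndB5q3) (pc := pcB0) (cut := Cut.none) (xt := Ext.none) (P1 := 1239849684) (W1 := 370763052) (P2 := 0) (W2 := 1230186008) (P3 := 991146299) (W3 := 28908434) (N0 := 3) (En := eng) (mo := mog) (C1 := cd2q2b) (C2 := cd5q3) (C3 := pd0)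
    rfl k0_mm_203_b

noncomputable def f_mm_213_a : ℕ → ℕ → ℕ → ℕ → Bool := onCell 0 536870912 0 1230186008 991146299 28908434
    (rowB 3 eng mog cd2q2a cd5q3 pd1 0 false false false .pnn 2 1 3 (qsf 0 536870912 0 1230186008 1) ndB2q2a ndB5q3 pcB1 Cut.none Ext.none)

def k0_mm_213_a : ∃ t, chk3 f_mm_213_a t 1 1 1 = true :=
  ⟨(b (a (l 3) (l 5)) (l 3)), by decide +kernel⟩

theorem c_mm_213_a : CertB 0 536870912 0 1230186008 991146299 28908434 3 eng mog cd2q2a cd5q3 pd1 false false false .pnn 2 1 3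
    ndB2q2a ndB5q3 pcB1 Cut.none Ext.none :=
  certB0 (fam := false) (s1 := false) (s2 := false) (a := 2) (b := 1) (c := 3) (cn := .pnn) (n1 := ndB2q2a) (n2 := ndB5q3) (pc := pcB1) (cut := Cut.none) (xt := Ext.none) (P1 := 0) (W1 := 536870912) (P2 := 0) (W2 := 1230186008) (P3 := 991146299) (W3 := 28908434) (N0 := 3) (En := eng) (mo := mog) (C1 := cd2q2a) (C2 := cd5q3) (C3 := pd1)
    rfl k0_mm_213_a

noncomputable def f_mm_213_b : ℕ → ℕ → ℕ → ℕ → Bool := onCell 1239849684 370763052 0 1230186008 991146299 28908434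
    (rowB 3 eng mog cd2q2b cd5q3 pd1 0 false false false .pnn 2 1 3 (qsf 1239849684 370763052 0 1230186008 1) ndB2q2b ndB5q3 pcB1 Cut.none Ext.none)

def k0_mm_213_b : ∃ t, chk3 f_mm_213_b t 1 1 1 = true :=
  ⟨(b (l 3) (b (l 3) (l 3))), by decide +kernel⟩

theorem c_mm_213_b : CertB 1239849684 370763052 0 1230186008 991146299 28908434 3 eng mog cd2q2b cd5q3 pd1 false false false .pnn 2 1 3
    ndB2q2b ndB5q3 pcB1 Cut.none Ext.none :=
  certB0 (fam := false) (s1 := false) (s2 := false) (a := 2) (b := 1) (c := 3) (cn := .pnn) (n1 := ndB2q2b) (n2 := ndB5q3) (pc := pcB1) (cut := Cut.none) (xt := Ext.none) (P1 := 1239849684) (W1 := 370763052) (P2 := 0) (W2 := 1230186008) (P3 := 991146299) (W3 := 28908434) (N0 := 3) (En := eng) (mo := mog) (C1 := cd2q2b) (C2 := cd5q3) (C3 := pd1)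
    rfl k0_mm_213_b

noncomputable def f_mm_303 : ℕ → ℕ → ℕ → ℕ → Bool := onCell 0 536870912 0 1230186008 991146299 28908434
    (rowB 3 eng mog cd2q3 cd5q3 pd0 2 false false false .npn 3 0 3 (qsf 1610612736 536870912 0 1230186008 0) ndB2q3 ndB5q3 pcB0 Cut.none Ext.none)

def k0_mm_303 : ∃ t, chk3 f_mm_303 t 1 1 1 = true :=
  ⟨(b (l 3) (b (l 3) (l 3))), by decide +kernel⟩

theorem c_mm_303 : CertB 1610612736 536870912 0 1230186008 991146299 28908434 3 eng mog cd2q3 cd5q3 pd0 false false false .npn 3 0 3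
    ndB2q3 ndB5q3 pcB0 Cut.none Ext.none :=
  certB2 (fam := false) (s1 := false) (s2 := false) (a := 3) (b := 0) (c := 3) (cn := .npn) (n1 := ndB2q3) (n2 := ndB5q3) (pc := pcB0) (cut := Cut.none) (xt := Ext.none) (P1 := 1610612736) (W1 := 536870912) (P2 := 0) (W2 := 1230186008) (P3 := 991146299) (W3 := 28908434) (N0 := 3) (En := eng) (mo := mog) (C1 := cd2q3) (C2 := cd5q3) (C3 := pd0)
    rfl (fun _ => rfl) k0_mm_303

noncomputable def f_mm_313 : ℕ → ℕ → ℕ → ℕ → Bool := onCell 1610612736 536870912 0 1230186008 991146299 28908434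
    (rowB 3 eng mog cd2q3 cd5q3 pd1 0 false false false .dn 3 1 3 (qsf 1610612736 536870912 0 1230186008 1) ndB2q3 ndB5q3 pcB1 Cut.none Ext.none)

def k0_mm_313 : ∃ t, chk3 f_mm_313 t 1 1 1 = true :=
  ⟨(b (l 3) (l 1)), by decide +kernel⟩

theorem c_mm_313 : CertB 1610612736 536870912 0 1230186008 991146299 28908434 3 eng mog cd2q3 cd5q3 pd1 false false false .dn 3 1 3
    ndB2q3 ndB5q3 pcB1 Cut.none Ext.none :=
  certB0 (fam := false) (s1 := false) (s2 := false) (a := 3) (b := 1) (c := 3) (cn := .dn) (n1 := ndB2q3) (n2 := ndB5q3) (pc := pcB1) (cut := Cut.none) (xt := Ext.none) (P1 := 1610612736) (W1 := 536870912) (P2 := 0) (W2 := 1230186008) (P3 := 991146299) (W3 := 28908434) (N0 := 3) (En := eng) (mo := mog) (C1 := cd2q3) (C2 := cd5q3) (C3 := pd1)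
    rfl k0_mm_313

end Pool.Agent.Strip051.G.I9231_9500.Tab.C.BB25

namespace Pool.Agent.Strip051.G.I9231_9500.Tab.C.BB30

open Pool.Agent.Strip051.PB Pool.Agent.Strip051.PB.T
open Pool.Agent.Strip051.G.I9231_9500.Tab

noncomputable def f_pp_001 : ℕ → ℕ → ℕ → ℕ → Bool := onCell 0 536870912 536870912 536870912 991146299 28908434
    (rowB 3 eng mog cd3q0 cd0q1 pd0 2 false true true .up 0 0 1 (qsf 0 536870912 536870912 536870912 0) ndB3q0 ndB0q1 pcB0 Cut.none Ext.none)

def k0_pp_001 : ∃ t, chk3 f_pp_001 t 1 1 1 = true :=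
  ⟨(b (l 3) (b (l 3) (b (l 3) (a (l 2) (a (l 2) (b (l 3) (a (l 2) (b (b (l 3) (a (l 2) (b (l 3) (c (a (l 254106115831) (l 259474789831)) (a (l 256253801831) (l 262159351719)))))) (a (l 2) (b (a (c (l 15978600) (l 16052840)) (c (l 15956072) (l 16032336))) (c (l 15929712) (l 16006408)))))))))))), by decide +kernel⟩

theorem c_pp_001 : CertB 0 536870912 536870912 536870912 991146299 28908434 3 eng mog cd3q0 cd0q1 pd0 false true true .up 0 0 1
    ndB3q0 ndB0q1 pcB0 Cut.none Ext.none :=
  certB2 (fam := false) (s1 := true) (s2 := true) (a := 0) (b := 0) (c := 1) (cn := .up) (n1 := ndB3q0) (n2 := ndB0q1) (pc := pcB0) (cut := Cut.none) (xt := Ext.none) (P1 := 0) (W1 := 536870912) (P2 := 536870912) (W2 := 536870912) (P3 := 991146299) (W3 := 28908434) (N0 := 3) (En := eng) (mo := mog) (C1 := cd3q0) (C2 := cd0q1) (C3 := pd0)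
    rfl (fun _ => rfl) k0_pp_001

noncomputable def xt_pp_011 : Ext := extD3 3 ⟨4, 1, 1, 5, 22, 5, 21, 25, 41, 100, 1, 20⟩ eng cd3q0 cd0q1 pd1 false true true .pnn 0 1 1 rfl ndB3q0 ndB0q1 pcB1

noncomputable def f_pp_011 : ℕ → ℕ → ℕ → ℕ → Bool := onCell 0 536870912 536870912 536870912 991146299 28908434
    (rowB 3 eng mog cd3q0 cd0q1 pd1 0 false true true .pnn 0 1 1 (qsf 0 536870912 536870912 536870912 1) ndB3q0 ndB0q1 pcB1 Cut.none xt_pp_011)

def k0_pp_011 : ∃ t, chk3 f_pp_011 t 2 2 1 = true :=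
  ⟨(l 3), by decide +kernel⟩

def k1_pp_011 : ∃ t, chk3 f_pp_011 t 2 6 1 = true :=
  ⟨(l 3), by decide +kernel⟩

def k2_pp_011 : ∃ t, chk3 f_pp_011 t 2 14 1 = true :=
  ⟨(l 3), by decide +kernel⟩

def k3_pp_011 : ∃ t, chk3 f_pp_011 t 2 30 1 = true :=
  ⟨(a (a (l 3) (l 3)) (l 3)), by decide +kernel⟩

def k4_pp_011 : ∃ t, chk3 f_pp_011 t 2 248 1 = true :=
  ⟨(a (b (a (l 3) (l 3)) (a (a (b (a (l 3) (l 3)) (c (a (a (a (b (a (a (c (b (c (l 457581746903) (l 456508007479)) (l 16758880)) (b (c (l 455434268119) (l 453823657895)) (l 16761368))) (c (l 399062819655) (l 401210307719))) (c (l 395304738631) (l 398525968231))) (a (c (l 16745584) (l 16747896)) (l 16768744))) (a (a (l 387251709943) (l 386714857479)) (l 385641133591))) (a (a (l 16817016) (l 16809944)) (a (l 365776894199) (l 368998084295)))) (a (b (l 6598317123600967622426198271) (l 144293480622080319)) (l 6124418202311600121790955647))) (c (a (a (a (a (b (a (b (c (l 454360531367) (l 453823652599)) (c (l 16763304) (l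 16764632))) (c (l 406042151575) (l 433959456759))) (l 16750304)) (c (l 375977394759) (l 399062843559))) (a (l 393157295431) (l 432885783975))) (a (b (l 378124974311) (l 16815088)) (l 6598921802395140651170325759))) (a (l 6433903212133409803090739327) (l 6230803674437908972098076735))) (a (b (c (a (a (a (a (a (b (l 456508016679) (l 16764152)) (l 436106931623)) (l 433959438023)) (l 435033202055)) (a (l 408726556055) (l 16803048))) (a (l 438791384823) (l 338933354359))) (a (a (b (a (a (c (l 451676184167) (l 451139304167)) (l 450065575847)) (l 450065586871)) (a (c (l 16760112) (l 16760752)) (l 16764256))) (a (l 435570103607) (l 439865100455))) (a (a (l 454897516103) (l 391009896663)) (a (l 350744552695) (l 362018814935))))) (a (a (a (l 16752824) (l 16767368)) (b (l 16788440) (l 16790784))) (a (l 16816832) (l 604699114769586494743807)))) (a (a (a (l 6578974310487298207638634623) (l 6530617277702841339882963071)) (l 6453246025247493252889886783)) (l 6298503520336193515734155327))))))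 (c (a (a (l 6095403982640235425228865599) (a (l 310478618023) (l 5621505061350254946973204543))) (a (l 5399647388740580704226844735) (l 586536849293093955281471))) (a (a (l 6095403982639798437958860863) (a (l 330879660679) (l 5689204907247819378941313087))) (a (l 5457675300907256800089711167) (l 578534994139621165359679))))) (a (a (a (c (l 582924030258282694971967) (l 570234111487450728698431)) (l 3)) (l 3)) (l 3)))) (a (l 3) (l 3))), by decide +kernel⟩

def k5_pp_011 : ∃ t, chk3 f_pp_011 t 2 249 1 = true :=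
  ⟨(c (a (a (a (a (a (b (a (b (a (l 16753536) (l 16770336)) (l 16770976)) (l 16779568)) (c (l 16758904) (l 16760248))) (c (l 143662017380270335) (l 143708059434467583))) (a (b (l 143991595929207039) (l 16649864)) (l 143347556827857023))) (a (a (l 142970286839939135) (a (l 16529248) (l 142126755105030207))) (a (l 580291475307418623287359) (l 587117633845667890684479)))) (a (a (a (l 583397016305547702506047) (l 580287010546870531904063)) (a (l 577436123896353791726143) (l 16005912))) (a (a (l 15955832) (l 15917264)) (a (l 15888024) (l 15866464))))) (a (a (a (a (l 15851320) (l 15841576)) (l 268064436887)) (a (l 265380097527) (l 263232659527))) (a (a (l 260011539799) (l 254106073655)) (a (l 243368752615) (a (l 235315713719) (l 712593694631)))))) (a (a (a (a (a (b (a (b (c (l 16764976) (l 16767104)) (l 16775248)) (a (l 16793440) (l 16808928))) (l 143361232306405503)) (c (l 143749772161827071) (l 143966925713457407))) (a (c (l 143868862937727103) (l 143880132902305855))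 (l 143415039352684607))) (a (a (l 143019971036397631) (a (l 16432048) (l 139820597811773503))) (a (l 575649521994405122204223) (l 573003853640114927657535)))) (a (a (a (l 570655792527760743633471) (a (l 15923832) (l 15890672))) (a (a (l 15861064) (l 15835304)) (l 15803568))) (a (l 282023130407) (l 280412463351)))) (a (a (a (l 278801827463) (l 276654351831)) (a (l 272896085175) (a (l 271285466823) (l 269674889895)))) (b (l 3) (a (a (a (l 15778672) (l 15795120)) (c (l 15846480) (l 277191234935))) (a (c (l 260548435671) (l 264843295175)) (a (l 265380238343) (l 312088014871)))))))), by decide +kernel⟩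

def k6_pp_011 : ∃ t, chk3 f_pp_011 t 2 125 1 = true :=
  ⟨(a (a (c (a (a (a (a (l 143279181174898815) (l 143436067723346047)) (l 143183523511795839)) (a (l 142589718428664063) (l 142190252017549567))) (a (a (l 142159190712909951) (a (l 16460496) (l 141332632692260927))) (a (l 140608947887554623) (l 580666173954189760225343)))) (a (a (b (l 143060172120883327) (l 143128547940532351)) (b (l 142586076310454335) (l 142451729719541823))) (a (a (l 16457840) (a (l 16493000) (l 140991371729141823))) (a (l 139200541885595711) (l 572530003753843160326719))))) (a (a (a (c (l 582970862257391197069887) (l 570124719837003622523455)) (c (l 579712416503558653174335) (l 15956520))) (a (c (l 576634555220275940119103) (b (l 15877232) (l 15906256))) (l 16024440))) (a (c (l 15952176) (l 15787568)) (c (l 15887472) (l 15746272))))) (a (a (a (c (l 15852744) (l 15728816)) (c (l 15838984) (l 15728032))) (a (c (l 15840480) (l 15739392)) (c (l 15853392) (b (l 15758256) (l 15761768))))) (a (a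 (c (l 15875040) (b (l 15786712) (l 15787968))) (c (b (l 15905320) (l 15901856)) (b (c (l 15844448) (l 15794504)) (l 15819496)))) (c (a (b (l 15960680) (l 15934656)) (c (l 15989688) (l 15978656))) (a (b (c (l 15881288) (b (l 15834048) (l 15832472))) (l 15855160)) (b (c (l 15921496) (a (l 15864240) (l 15885720))) (l 15894040))))))), by decide +kernel⟩

def k7_pp_011 : ∃ t, chk3 f_pp_011 t 2 63 1 = true :=
  ⟨(a (a (a (a (a (b (l 142681115379581055) (c (l 16585416) (l 16580608))) (b (l 142476056345870463) (l 142263919216509055))) (b (c (b (l 141767352321278207) (l 142263781726322815)) (l 141227010969272447)) (l 139883201267957887))) (a (a (b (c (l 141514120796668159) (l 16427272)) (l 139969719112204415)) (a (b (l 140937358149091391) (l 140358327650992191)) (b (c (l 140868776038826111) (l 16385352)) (l 139148315069317183)))) (a (c (b (l 140382585746784319) (l 139488957486121087)) (l 139628114612502591)) (c (b (l 576879691001994484850751) (l 139118215920648255)) (l 138691193035243583)))))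 (a (a (a (c (b (l 580299255366965250416703) (l 16272944)) (l 564307367496950312494655)) (b (l 572616472375550524432959) (l 567825507577659542775359))) (a (c (l 572669218650797106209343) (b (l 15947824) (l 15996504))) (c (l 16059296) (l 15914120)))) (a (c (l 15977984) (l 15849456)) (c (l 15909024) (l 15796840))))) (a (b (a (a (l 15814080) (l 15802104)) (a (l 15804208) (l 15816768))) (a (l 15869544) (l 15845056))) (a (a (a (l 15835560) (l 15867432)) (b (l 15905744) (l 15868792))) (a (c (l 15927808) (l 15854544)) (c (l 15960216) (l 15804008)))))), by decide +kernel⟩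

def k8_pp_011 : ∃ t, chk3 f_pp_011 t 3 2 1 = true :=
  ⟨(l 3), by decide +kernel⟩

def k9_pp_011 : ∃ t, chk3 f_pp_011 t 3 6 1 = true :=
  ⟨(l 3), by decide +kernel⟩

def k10_pp_011 : ∃ t, chk3 f_pp_011 t 3 14 1 = true :=
  ⟨(l 3), by decide +kernel⟩

def k11_pp_011 : ∃ t, chk3 f_pp_011 t 6 30 1 = true :=
  ⟨(l 3), by decide +kernel⟩

def k12_pp_011 : ∃ t, chk3 f_pp_011 t 6 31 1 = true :=
  ⟨(b (a (b (a (l 3) (l 3)) (c (a (a (a (l 15899848) (l 304571866167)) (a (l 304571910055) (l 301887621415))) (a (b (c (l 280412892103) (l 290076553799)) (l 16040904)) (b (c (l 274507283367) (l 277728526023)) (l 16006776)))) (b (a (a (a (c (l 15953336) (l 15907736)) (c (l 15975208) (l 305645657863))) (a (c (l 15997496) (l 305108781351)) (c (l 15978168) (l 300277013543)))) (a (b (c (l 276117824951) (a (l 269675459591) (l 273433446503))) (a (l 15956632) (l 15958832))) (c (l 292760912231) (a (l 298666411495) (l 278265366983))))) (a (a (l 15935384) (l 15894648)) (a (l 15918088) (b (l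 15987392) (l 16065040))))))) (a (b (l 3) (a (a (c (c (l 293834588551) (l 292760978599)) (b (b (l 531131618935) (l 330341882151)) (l 16079640))) (c (c (l 293297690663) (l 294908427607)) (b (c (l 282023498519) (l 285244788743)) (l 16094992)))) (b (b (l 3) (c (a (l 16014192) (l 290613383911)) (c (a (l 16069216) (l 16062024)) (c (l 306719628055) (l 308867159799))))) (c (a (l 16002616) (l 15995632)) (c (l 16063688) (l 16108024)))))) (b (l 3) (b (b (l 3) (c (a (a (l 280949689687) (l 270749125335)) (a (l 260011691047) (l 249274256743))) (a (a (c (l 16054992) (l 294908457783)) (c (l 275044225799) (l 273970603287))) (c (a (l 264843657319) (l 254106220247)) (a (l 262696299911) (l 253032606279)))))) (c (a (a (l 15988920) (l 15982544)) (a (l 15976584) (l 15971096))) (a (c (l 16050728) (l 16043424)) (c (l 16043920) (a (l 16086864) (l 16081160))))))))) (a (c (a (b (l 15936304) (l 16008960)) (a (l 16021752) (l 15950432))) (a (b (a (l 15927312) (l 15967288)) (l 15939344)) (b (a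 (l 16008536) (l 16050608)) (l 16012560)))) (a (b (a (c (l 16008208) (l 16089576)) (c (l 15997112) (l 16080728))) (c (l 15995664) (l 16074512))) (b (c (a (l 15986864) (l 15978032)) (a (l 16050392) (l 15999648))) (c (l 15983600) (l 16064400)))))), by decide +kernel⟩

def k13_pp_011 : ∃ t, chk3 f_pp_011 t 7 15 1 = true :=
  ⟨(b (l 3) (a (b (b (l 3) (b (b (l 3) (a (a (c (a (l 238536821543) (l 282023350263)) (c (l 301350847687) (a (l 240684556807) (l 270212440503)))) (l 3)) (l 3))) (a (a (c (b (a (l 15943928) (l 15952088)) (l 15965104)) (a (c (l 16030648) (l 16075800)) (c (l 16004936) (l 16070880)))) (c (b (a (l 321751784487) (b (l 283097060423) (l 15953784))) (l 15936992)) (a (c (l 16011280) (l 340005650631)) (c (l 329804968679) (l 334100057943))))) (a (c (b (a (b (l 261622214391) (l 15951200)) (b (l 239073653063) (l 15928392))) (l 15932488)) (a (c (l 323899378631) (l 328194467239)) (c (l 317993790423) (l 321752007063)))) (c (b (a (l 275043978503) (a (l 264843450103)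 (l 257864127319))) (l 15936144)) (a (c (l 311551333031) (l 315309548231)) (b (l 264843663735) (l 16033984)))))))) (a (b (a (c (l 15971032) (l 15971152)) (c (l 15966208) (b (l 16046952) (l 16051416)))) (c (l 15977584) (l 16057680))) (b (b (a (c (l 15938808) (l 16042504)) (c (l 15938408) (l 16040672))) (a (l 15902528) (l 15903072))) (c (l 15980128) (l 16058192))))) (b (b (l 3) (b (l 3) (a (a (b (c (a (l 250884784407) (l 238536775575)) (a (l 251958759991) (l 238536988119))) (c (b (l 15931040) (l 15933928)) (a (l 16033952) (l 16034736)))) (a (b (l 3) (c (l 15956960) (l 16036448))) (c (l 277191488999) (l 280412928983)))) (b (l 3) (c (a (l 300276953367) (l 912712470055)) (a (a (l 16042920) (l 16047760)) (l 921839482407))))))) (a (b (b (a (c (l 15941080) (l 16041768)) (c (l 15947056) (l 16046064))) (a (l 15906480) (l 15912976))) (c (l 15993128) (l 16068448))) (b (b (a (c (l 15956568) (l 16053816)) (c (l 15969824) (l 16065272))) (a (l 15943768) (l 15978096))) (c (l 16018184)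 (l 16090376))))))), by decide +kernel⟩

theorem s14_pp_011 : ∃ t, chk3 f_pp_011 t 6 15 1 = true := ex3_b k11_pp_011 k12_pp_011

theorem s15_pp_011 : ∃ t, chk3 f_pp_011 t 3 15 1 = true := ex3_a s14_pp_011 k13_pp_011

theorem s16_pp_011 : ∃ t, chk3 f_pp_011 t 3 7 1 = true := ex3_b k10_pp_011 s15_pp_011

theorem s17_pp_011 : ∃ t, chk3 f_pp_011 t 3 3 1 = true := ex3_b k9_pp_011 s16_pp_011

theorem s18_pp_011 : ∃ t, chk3 f_pp_011 t 3 1 1 = true := ex3_b k8_pp_011 s17_pp_011

theorem s19_pp_011 : ∃ t, chk3 f_pp_011 t 2 124 1 = true := ex3_b k4_pp_011 k5_pp_011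

theorem s20_pp_011 : ∃ t, chk3 f_pp_011 t 2 62 1 = true := ex3_b s19_pp_011 k6_pp_011

theorem s21_pp_011 : ∃ t, chk3 f_pp_011 t 2 31 1 = true := ex3_b s20_pp_011 k7_pp_011

theorem s22_pp_011 : ∃ t, chk3 f_pp_011 t 2 15 1 = true := ex3_b k3_pp_011 s21_pp_011

theorem s23_pp_011 : ∃ t, chk3 f_pp_011 t 2 7 1 = true := ex3_b k2_pp_011 s22_pp_011

theorem s24_pp_011 : ∃ t, chk3 f_pp_011 t 2 3 1 = true := ex3_b k1_pp_011 s23_pp_011

theorem s25_pp_011 : ∃ t, chk3 f_pp_011 t 2 1 1 = true := ex3_b k0_pp_011 s24_pp_011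

theorem s26_pp_011 : ∃ t, chk3 f_pp_011 t 1 1 1 = true := ex3_a s25_pp_011 s18_pp_011

theorem c_pp_011 : CertB 0 536870912 536870912 536870912 991146299 28908434 3 eng mog cd3q0 cd0q1 pd1 false true true .pnn 0 1 1
    ndB3q0 ndB0q1 pcB1 Cut.none xt_pp_011 :=
  certB0 (fam := false) (s1 := true) (s2 := true) (a := 0) (b := 1) (c := 1) (cn := .pnn) (n1 := ndB3q0) (n2 := ndB0q1) (pc := pcB1) (cut := Cut.none) (xt := xt_pp_011) (P1 := 0) (W1 := 536870912) (P2 := 536870912) (W2 := 536870912) (P3 := 991146299) (W3 := 28908434) (N0 := 3) (En := eng) (mo := mog) (C1 := cd3q0) (C2 := cd0q1) (C3 := pd1)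
    rfl s26_pp_011

noncomputable def xt_pp_012 : Ext := extD3 3 ⟨4, 1, 1, 5, 22, 5, 21, 25, 41, 100, 1, 20⟩ eng cd3q0 cd0q2 pd1 false true true .pnp 0 1 2 rfl ndB3q0 ndB0q2 pcB1

noncomputable def f_pp_012 : ℕ → ℕ → ℕ → ℕ → Bool := onCell 0 536870912 0 536870912 991146299 28908434
    (rowB 3 eng mog cd3q0 cd0q2 pd1 0 false true true .pnp 0 1 2 (qsf 0 536870912 0 536870912 1) ndB3q0 ndB0q2 pcB1 Cut.none xt_pp_012)

def k0_pp_012 : ∃ t, chk3 f_pp_012 t 2 2 1 = true :=
  ⟨(a (b (l 2) (a (l 2) (a (l 2) (b (l 2) (a (l 2) (l 16172656)))))) (a (b (b (a (c (l 16140928) (l 16259416)) (l 15961520)) (a (c (l 16313472) (l 16425504)) (b (l 16143864) (l 16177224)))) (b (a (c (l 16225056) (l 16349152)) (l 16108552)) (a (l 15915584) (l 16026232)))) (b (b (a (l 15744352) (l 15549472)) (a (l 15767736) (l 15724472))) (b (a (l 15935264) (l 15764784)) (a (l 15890608) (l 15759168)))))), by decide +kernel⟩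

def k1_pp_012 : ∃ t, chk3 f_pp_012 t 4 6 1 = true :=
  ⟨(a (l 2) (b (a (l 2) (b (l 16127128) (l 16024808))) (a (a (b (l 2) (a (l 2) (l 16064472))) (a (b (l 16168800) (l 16090104)) (b (l 16150400) (l 16099592)))) (b (l 15954800) (a (l 16079704) (l 16054960)))))), by decide +kernel⟩

def k2_pp_012 : ∃ t, chk3 f_pp_012 t 4 7 1 = true :=
  ⟨(a (b (a (l 2) (b (a (l 2) (a (l 2) (b (l 2) (c (l 15973648) (l 16054344))))) (a (b (l 2) (a (l 16123984) (a (l 16081408) (l 16068680)))) (a (c (l 16036384) (l 16084640)) (c (l 16049832) (l 16105624)))))) (a (b (a (l 2) (b (a (l 2) (l 16221600)) (a (a (l 2) (l 16303344)) (b (l 16251576) (l 16272128))))) (a (a (b (l 2) (b (c (l 16505048) (l 16502000)) (c (l 16530184) (l 16525944)))) (b (b (a (l 2) (l 16389712)) (c (l 16423584) (l 16427904))) (b (c (l 16447816) (l 16450928)) (l 142494198065545343)))) (b (a (b (l 16348504) (l 16371368)) (l 16221680)) (b (a (l 16394488) (l 16323360)) (l 140624134716293247))))) (a (b (a (b (l 16165400)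 (l 16206904)) (a (l 139268092848046207) (b (l 16111560) (l 16154376)))) (a (b (l 16146416) (b (l 16259304) (l 16283040))) (a (b (l 16209840) (l 140021395910181119)) (b (l 139788574273208447) (c (l 16187752) (l 16222312)))))) (b (a (c (l 138477062911983743) (l 139714906936017023)) (c (l 138700263803240575) (l 139735660265635967))) (a (b (l 137751866443415679) (c (l 139058017503248639) (l 139494936027709503))) (b (l 138120821329641535) (c (l 138658413757415551) (l 16251512)))))))) (b (a (a (b (a (b (l 16056592) (l 15913000)) (c (l 16026080) (l 16096336))) (a (l 137529421265043583) (l 138105771553489023))) (b (a (c (l 16037320) (l 16109728)) (l 16068680)) (a (l 137777704803991679) (l 16127584)))) (b (b (l 16053536) (l 16034616)) (a (l 16121872) (l 16113648)))) (a (a (b (a (b (l 16120688) (l 138721910572204095)) (c (l 16066888) (l 16234520))) (b (c (l 137761006053556287) (l 139166869234532415)) (c (l 138354261369913407) (l 138164114513690687)))) (b (b (l 137313779754598463)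 (l 137476507547009087)) (b (c (l 138109070194032703) (l 138780871865532479)) (c (l 565822306504774247014463) (l 136865797218811967))))) (b (b (l 16180312) (l 16198120)) (b (c (l 16103280) (l 16103208)) (c (l 16010440) (l 15947424))))))), by decide +kernel⟩

def k3_pp_012 : ∃ t, chk3 f_pp_012 t 5 3 1 = true :=
  ⟨(b (a (b (a (b (l 16092720) (l 16054960)) (l 15805944)) (a (b (l 16030136) (l 16021616)) (b (l 15965736) (l 15981888)))) (b (a (l 15880176) (l 15791408)) (a (b (l 15906704) (l 15946944)) (b (l 15852280) (l 15916240))))) (b (a (b (a (c (l 16001304) (l 16070216)) (l 16020368)) (a (l 16101720) (l 16086904))) (b (a (l 16009680) (l 16002784)) (a (l 16075272) (l 16068384)))) (a (b (a (b (l 16152952) (l 16149080)) (l 15981136)) (a (b (l 16041856) (a (l 15922432) (l 15903184))) (b (l 16016472) (l 15896752)))) (b (a (l 16042088) (l 16089264)) (a (b (l 16020312) (l 15916128)) (c (l 16020408) (l 15972280))))))), by decide +kernel⟩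

def k4_pp_012 : ∃ t, chk3 f_pp_012 t 3 1 1 = true :=
  ⟨(b (a (b (a (b (l 15302936) (a (l 15526144) (l 15347104))) (b (l 15064680) (l 15129296))) (a (b (a (l 15597648) (l 15429960)) (a (l 15631624) (l 15508056))) (b (a (l 15271288) (l 15126440)) (a (l 15388688) (l 15273760))))) (b (a (b (l 14934568) (l 14935480)) (b (l 14912848) (l 14854112))) (a (b (a (l 15000056) (l 14896488)) (a (l 15163512) (l 15058216))) (b (c (l 14772496) (l 14805368)) (a (l 14962576) (b (l 14784664) (l 14952264))))))) (b (a (a (b (a (l 15707072) (l 15627080)) (a (b (l 15802176) (l 15889496)) (b (l 15756208) (l 15866528)))) (b (a (l 15551416) (l 15480080)) (b (l 15505840) (a (l 15847120) (l 15831040))))) (b (a (a (l 15413080) (l 15350440)) (b (l 15170576) (l 15362248))) (a (b (l 15436856) (a (l 15818064) (l 15807976))) (b (a (l 15583448) (l 15559512)) (a (l 15800600) (l 15795800)))))) (a (b (a (b (a (l 15999544) (l 15999672)) (a (l 16067264) (l 16072456))) (b (a (l 16002672) (l 16005368))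 (a (l 16081544) (l 16098776)))) (a (b (a (l 16079296) (l 16074664)) (a (c (l 16027392) (l 16015072)) (c (l 16018832) (l 16065280)))) (b (a (l 16075568) (l 16082488)) (a (c (l 16011504) (l 16085384)) (c (l 15966616) (l 16083592)))))) (b (a (b (a (l 16013288) (l 16023360)) (a (l 16122040) (l 16150992))) (b (a (l 16035320) (l 16048936)) (a (l 15975424) (b (l 16227896) (l 16230016))))) (a (b (a (l 16096016) (l 16116736)) (a (c (l 15970144) (l 16086064)) (c (l 15981424) (l 16095472)))) (b (a (l 16145160) (l 16181712)) (a (c (l 16001808) (l 16081928)) (b (l 16126248) (l 16002664))))))))), by decide +kernel⟩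

theorem s5_pp_012 : ∃ t, chk3 f_pp_012 t 4 3 1 = true := ex3_b k1_pp_012 k2_pp_012

theorem s6_pp_012 : ∃ t, chk3 f_pp_012 t 2 3 1 = true := ex3_a s5_pp_012 k3_pp_012

theorem s7_pp_012 : ∃ t, chk3 f_pp_012 t 2 1 1 = true := ex3_b k0_pp_012 s6_pp_012

theorem s8_pp_012 : ∃ t, chk3 f_pp_012 t 1 1 1 = true := ex3_a s7_pp_012 k4_pp_012

theorem c_pp_012 : CertB 0 536870912 0 536870912 991146299 28908434 3 eng mog cd3q0 cd0q2 pd1 false true true .pnp 0 1 2
    ndB3q0 ndB0q2 pcB1 Cut.none xt_pp_012 :=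
  certB0 (fam := false) (s1 := true) (s2 := true) (a := 0) (b := 1) (c := 2) (cn := .pnp) (n1 := ndB3q0) (n2 := ndB0q2) (pc := pcB1) (cut := Cut.none) (xt := xt_pp_012) (P1 := 0) (W1 := 536870912) (P2 := 0) (W2 := 536870912) (P3 := 991146299) (W3 := 28908434) (N0 := 3) (En := eng) (mo := mog) (C1 := cd3q0) (C2 := cd0q2) (C3 := pd1)
    rfl s8_pp_012

noncomputable def f_pp_022 : ℕ → ℕ → ℕ → ℕ → Bool := onCell 0 536870912 0 536870912 991146299 28908434
    (rowB 3 eng mog cd3q0 cd0q2 pd2 0 false true true .pp 0 2 2 (qsf 0 536870912 0 536870912 2) ndB3q0 ndB0q2 pcB2 Cut.none Ext.none)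

def k0_pp_022 : ∃ t, chk3 f_pp_022 t 4 2 1 = true :=
  ⟨(b (c (a (a (a (l 16373240) (l 16504568)) (a (a (l 16475320) (l 16336800)) (b (l 16452296) (l 16344264)))) (a (a (b (l 16489280) (l 16416472)) (b (l 16390240) (l 16442704))) (b (b (l 16265792) (l 16531336)) (l 16448416)))) (a (a (a (l 16271928) (l 16387992)) (a (a (l 16500680) (l 16414040)) (b (l 16480728) (l 16374728)))) (a (a (b (l 16401776) (l 16346536)) (b (c (l 16464224) (l 16308776)) (l 16312936))) (b (b (a (l 16376816) (l 16305056)) (l 16403256)) (l 16334664))))) (a (a (b (c (l 16196752) (a (l 16322776) (l 16433392))) (a (c (a (l 16356208) (l 16389880)) (l 16247000)) (b (l 16302496) (b (l 16335184) (l 16324312))))) (a (a (b (l 16423016) (c (l 16492984) (l 16497400))) (b (c (l 16433224) (l 16561784)) (a (b (l 16472600) (l 16417080)) (c (l 16398984) (l 16554200))))) (c (b (a (l 16454600) (l 16464488)) (c (a (l 16427432) (l 16429104)) (a (l 16504080) (l 16515976)))) (b (a (l 16550464) (l 16529776)) (a (l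 16394248) (l 16377664)))))) (a (c (a (b (c (l 16410944) (l 16531032)) (a (l 16312456) (l 16301088))) (b (a (l 16479792) (l 16500096)) (a (a (l 16372488) (l 16373400)) (l 16347208)))) (a (b (b (l 16409944) (l 16363856)) (b (l 16322016) (a (l 16502040) (l 16466704)))) (b (c (l 16532448) (l 16376584)) (a (a (l 16377096) (l 16375720)) (l 16361104))))) (c (b (l 16262672) (b (l 16312920) (a (l 16373504) (l 16336696)))) (b (l 16257808) (b (l 16344112) (b (l 16391104) (l 16389264)))))))), by decide +kernel⟩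

def k1_pp_022 : ∃ t, chk3 f_pp_022 t 5 2 1 = true :=
  ⟨(a (a (b (b (c (b (a (l 16490544) (l 16443744)) (l 16413768)) (b (a (l 16353448) (l 16481120)) (l 16217936))) (c (l 16393824) (l 16338000))) (b (c (c (l 16391992) (l 16577744)) (l 16275320)) (a (c (l 663067986055) (l 661457604519)) (l 1)))) (b (b (l 1) (l 1)) (l 1))) (l 1)), by decide +kernel⟩

def k2_pp_022 : ∃ t, chk3 f_pp_022 t 4 12 1 = true :=
  ⟨(a (a (a (c (a (l 16296328) (b (l 16464264) (l 16498168))) (b (l 16355952) (l 16322264))) (b (b (l 16315568) (l 16309200)) (a (l 16342144) (l 16350936)))) (b (a (a (l 16392408) (a (l 16378288) (b (l 16367200) (l 16366760)))) (a (c (l 16401984) (l 16540712)) (c (l 16385456) (l 16505944)))) (a (a (a (l 16425160) (l 16358432)) (a (l 16333280) (b (l 16343664) (l 16297632)))) (c (a (c (l 16417592) (l 16498376)) (c (l 16415576) (l 16506376))) (a (l 16477944) (l 16480600)))))) (a (a (c (c (a (b (l 16426168) (l 16415112)) (b (l 16428824) (l 16416312))) (a (b (l 16524824)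 (l 16515376)) (b (l 16536760) (l 16504768)))) (a (b (l 16472184) (l 16451640)) (b (l 16438568) (l 16430080)))) (c (a (c (b (l 16430760) (l 16416736)) (b (l 16547656) (l 16493032))) (b (l 16397144) (l 16339792))) (a (b (l 16407800) (b (l 16482912) (l 16487272))) (b (l 16478816) (l 16483816))))) (a (c (b (l 16319072) (b (l 16347544) (l 16294424))) (b (l 16431848) (b (l 16509712) (l 16515768)))) (b (c (l 16277896) (l 16452144)) (l 1))))), by decide +kernel⟩

def k3_pp_022 : ∃ t, chk3 f_pp_022 t 4 13 1 = true :=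
  ⟨(a (a (c (a (b (a (l 16442328) (l 16523352)) (l 16375384)) (b (l 16429160) (c (l 16429136) (l 16524392)))) (b (a (l 16301320) (c (l 16545280) (l 16493744))) (a (a (l 16428968) (c (l 16519824) (l 16496104))) (a (l 16502832) (l 16549280))))) (a (a (b (b (l 16365008) (l 16358176)) (c (l 16360592) (l 16494808))) (c (b (a (l 16419008) (l 16358632)) (a (l 16353384) (c (l 16379888) (l 16455696)))) (b (a (l 16541696) (l 16491288)) (a (l 16479232) (l 16427472))))) (c (a (b (a (l 16358584) (l 16337992)) (a (c (l 16376368) (l 16457736)) (b (l 16382064) (l 16344832)))) (b (a (l 16317664) (l 16297664)) (c (a (l 16349920) (l 16326808)) (a (l 16462464) (l 16465128))))) (c (a (b (l 16506048) (l 16461352)) (b (l 16522880) (l 16455768))) (a (b (l 16615152) (l 16530184)) (b (l 16594880) (l 16556184))))))) (b (a (a (c (a (c (l 16332888) (l 16455736)) (c (l 16311688) (l 16443600))) (a (b (l 16514592) (l 16483576)) (a (l 16506360) (l 16493160)))) (c (a (c (a (l 16396776) (l 16392456))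 (l 16409272)) (b (l 16364792) (l 16308616))) (a (c (l 16532896) (l 16516328)) (l 16478712)))) (a (b (c (l 366715227207) (l 16524584)) (l 1)) (l 1))) (a (a (c (a (c (a (l 16304112) (l 16260872)) (b (l 16477480) (l 16439352))) (c (b (l 16331256) (c (l 16306120) (l 16382480))) (b (l 16485200) (l 16383440)))) (c (a (l 16450472) (c (l 16521608) (l 16559664))) (a (l 16581800) (l 125124049255)))) (b (a (a (c (l 226055162279) (l 16530712)) (c (l 16303624) (l 16557040))) (l 1)) (l 1))) (l 1)))), by decide +kernel⟩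

def k4_pp_022 : ∃ t, chk3 f_pp_022 t 4 14 1 = true :=
  ⟨(b (a (a (c (a (l 16431952) (a (l 16460104) (l 16394504))) (a (a (l 16462192) (l 16469200)) (b (l 16526728) (l 16509600)))) (a (a (c (b (l 16399544) (l 16357928)) (l 16421288)) (a (c (b (l 16411160) (l 16368072)) (l 16423832)) (b (c (l 16264472) (l 16485936)) (c (c (l 16329296) (l 16406296)) (l 16442856))))) (c (a (c (a (b (l 16348232) (l 16324880)) (b (l 16344768) (l 16321072))) (a (l 16377624) (l 16358256))) (c (b (a (l 16341696) (l 16339032)) (a (l 16275720) (l 185789778775))) (b (l 16371904) (a (l 16410504) (l 16412312))))) (a (a (b (l 16475200) (l 16452800)) (b (l 16485136) (l 16441456))) (c (b (l 16491024) (l 118681278327)) (b (l 16571424) (l 16527464))))))) (a (a (b (a (c (c (a (l 16336792) (l 16251104)) (l 167536394407)) (a (l 16472208) (l 16461088))) (a (a (c (l 249140549719) (l 16489624)) (l 1)) (l 1))) (a (a (b (c (l 235718764951) (l 16475816)) (l 1)) (l 1)) (l 1))) (l 1)) (l 1))) (a (a (c (a (b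 (l 16528800) (l 16485184)) (a (l 16396888) (b (l 16445392) (l 16396824)))) (a (a (l 16518912) (l 16589760)) (b (l 16466536) (l 16439288)))) (b (a (a (c (l 16311880) (l 16469520)) (c (a (l 16299552) (c (l 16260032) (l 16379040))) (a (l 16490840) (l 16394752)))) (a (c (a (c (l 131565792247) (l 16379920)) (c (c (l 251288116199) (l 16293824)) (l 16360072))) (a (l 16383448) (l 134250450663))) (a (c (c (l 266857234535) (l 272763003095)) (l 285111184583)) (l 1)))) (a (a (c (c (l 16354504) (l 16420304)) (l 16439352)) (a (c (b (l 16339552) (l 16238960)) (l 16417256)) (b (c (c (l 168609871543) (l 16355504)) (l 16412920)) (l 1)))) (a (a (c (c (b (l 311954400295) (l 1)) (l 314638872167)) (l 330745125879)) (l 1)) (l 1))))) (l 1))), by decide +kernel⟩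

def k5_pp_022 : ∃ t, chk3 f_pp_022 t 4 15 1 = true :=
  ⟨(a (b (b (a (a (c (l 16436344) (l 16537672)) (c (a (l 16436480) (c (l 16398464) (l 16455688))) (a (l 16539120) (l 16461320)))) (a (a (c (c (b (l 16329312) (l 360809648311)) (l 319470713687)) (c (l 16410488) (l 16522080))) (l 1)) (l 1))) (a (a (c (c (l 16446376) (l 16504944)) (l 16479840)) (c (a (c (l 16438096) (l 16486536)) (b (l 308733271303) (l 381210802519))) (a (l 16478424) (b (l 16493584) (l 16429288))))) (l 1))) (a (b (b (a (a (c (l 16557712) (l 16604440)) (c (l 16505664) (l 16588272))) (a (c (l 341482490775) (l 16508552)) (l 1))) (a (a (c (l 16527656) (l 16593328)) (a (l 35466261207) (l 333966410855))) (l 1))) (a (a (c (b (l 16543488) (l 16475320)) (l 117070865831)) (a (b (b (l 16469880) (l 1)) (l 1)) (l 1))) (l 1))) (l 1))) (l 1)), by decide +kernel⟩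

def k6_pp_022 : ∃ t, chk3 f_pp_022 t 5 3 1 = true :=
  ⟨(b (l 1) (l 1)), by decide +kernel⟩

def k7_pp_022 : ∃ t, chk3 f_pp_022 t 3 1 1 = true :=
  ⟨(l 1), by decide +kernel⟩

theorem s8_pp_022 : ∃ t, chk3 f_pp_022 t 4 7 1 = true := ex3_b k4_pp_022 k5_pp_022

theorem s9_pp_022 : ∃ t, chk3 f_pp_022 t 4 6 1 = true := ex3_b k2_pp_022 k3_pp_022

theorem s10_pp_022 : ∃ t, chk3 f_pp_022 t 4 3 1 = true := ex3_b s9_pp_022 s8_pp_022

theorem s11_pp_022 : ∃ t, chk3 f_pp_022 t 2 3 1 = true := ex3_a s10_pp_022 k6_pp_022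

theorem s12_pp_022 : ∃ t, chk3 f_pp_022 t 2 2 1 = true := ex3_a k0_pp_022 k1_pp_022

theorem s13_pp_022 : ∃ t, chk3 f_pp_022 t 2 1 1 = true := ex3_b s12_pp_022 s11_pp_022

theorem s14_pp_022 : ∃ t, chk3 f_pp_022 t 1 1 1 = true := ex3_a s13_pp_022 k7_pp_022

theorem c_pp_022 : CertB 0 536870912 0 536870912 991146299 28908434 3 eng mog cd3q0 cd0q2 pd2 false true true .pp 0 2 2
    ndB3q0 ndB0q2 pcB2 Cut.none Ext.none :=
  certB0 (fam := false) (s1 := true) (s2 := true) (a := 0) (b := 2) (c := 2) (cn := .pp) (n1 := ndB3q0) (n2 := ndB0q2) (pc := pcB2) (cut := Cut.none) (xt := Ext.none) (P1 := 0) (W1 := 536870912) (P2 := 0) (W2 := 536870912) (P3 := 991146299) (W3 := 28908434) (N0 := 3) (En := eng) (mo := mog) (C1 := cd3q0) (C2 := cd0q2) (C3 := pd2)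
    rfl s14_pp_022

noncomputable def cut_pp_101 : Cut := Cut.of [[⟨0, 1, 0, 53687091⟩, ⟨1, 0, 0, 53687091⟩, ⟨2, 1, 0, 53687091⟩]]

noncomputable def xt_pp_101 : Ext := extD3 3 ⟨4, 1, 1, 5, 22, 5, 21, 25, 41, 100, 1, 20⟩ eng cd3q1 cd0q1 pd0 false true true .npn 1 0 1 rfl ndB3q1 ndB0q1 pcB0

noncomputable def f_pp_101 : ℕ → ℕ → ℕ → ℕ → Bool := onCell 0 536870912 536870912 536870912 991146299 28908434
    (rowB 3 eng mog cd3q1 cd0q1 pd0 2 false true true .npn 1 0 1 (qsf 536870912 536870912 536870912 536870912 0) ndB3q1 ndB0q1 pcB0 cut_pp_101 xt_pp_101)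

def k0_pp_101 : ∃ t, chk3 f_pp_101 t 1 1 1 = true :=
  ⟨(b (l 3) (b (l 3) (b (l 3) (b (a (l 3) (l 3)) (b (a (l 3) (b (l 3) (a (l 3) (b (l 3) (a (l 3) (a (c (l 248737574919) (a (l 3) (l 248737441351))) (c (l 262159287095) (a (l 257864207415) (l 847751089287))))))))) (b (a (a (l 3) (a (l 3) (a (l 3) (c (l 16436696) (l 16410360))))) (a (a (a (l 250885443335) (l 248737854119)) (a (l 249274612839) (a (l 16208936) (l 16143632)))) (a (a (a (l 294371662071) (l 301350898759)) (c (l 16106736) (b (l 301350829735) (l 16115608)))) (a (a (a (l 321751897943) (l 325509973751)) (c (l 16145952) (l 16066200))) (a (c (l 16130256) (l 16049256)) (c (l 16115680) (l 16033536))))))) (a (a (b (a (l 3) (a (l 3) (a (l 1481394249495) (l 16569696)))) (a (a (l 6) (a (b (l 3) (l 6)) (a (a (l 279877327415) (l 276656091591)) (l 280951035879)))) (a (a (b (l 4934835195809059264341901359) (l 16646720)) (b (l 256791747495) (l 16627952))) (c (l 16615192) (l 274508373991))))) (a (a (a (l 265918376471)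 (l 261086479895)) (c (l 16551344) (l 16454728))) (a (a (l 16444504) (l 16440040)) (c (l 16476840) (l 16409488))))) (a (a (a (c (l 16428440) (l 16357144)) (l 16260272)) (a (l 16233328) (l 16187408))) (a (a (l 16143968) (l 16082512)) (a (l 16045400) (l 15991096))))))))))), by decide +kernel⟩

theorem c_pp_101 : CertB 536870912 536870912 536870912 536870912 991146299 28908434 3 eng mog cd3q1 cd0q1 pd0 false true true .npn 1 0 1
    ndB3q1 ndB0q1 pcB0 cut_pp_101 xt_pp_101 :=
  certB2 (fam := false) (s1 := true) (s2 := true) (a := 1) (b := 0) (c := 1) (cn := .npn) (n1 := ndB3q1) (n2 := ndB0q1) (pc := pcB0) (cut := cut_pp_101) (xt := xt_pp_101) (P1 := 536870912) (W1 := 536870912) (P2 := 536870912) (W2 := 536870912) (P3 := 991146299) (W3 := 28908434) (N0 := 3) (En := eng) (mo := mog) (C1 := cd3q1) (C2 := cd0q1) (C3 := pd0)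
    rfl (fun _ => rfl) k0_pp_101

noncomputable def cut_pp_102 : Cut := Cut.of [[⟨0, 1, 0, 53687091⟩, ⟨1, 0, 0, 53687091⟩, ⟨2, 1, 0, 53687091⟩]]

noncomputable def xt_pp_102 : Ext := extD3 3 ⟨4, 1, 1, 5, 22, 5, 21, 25, 41, 100, 1, 20⟩ eng cd3q1 cd0q2 pd0 false true true .npp 1 0 2 rfl ndB3q1 ndB0q2 pcB0

noncomputable def f_pp_102 : ℕ → ℕ → ℕ → ℕ → Bool := onCell 0 536870912 0 536870912 991146299 28908434
    (rowB 3 eng mog cd3q1 cd0q2 pd0 2 false true true .npp 1 0 2 (qsf 536870912 536870912 0 536870912 0) ndB3q1 ndB0q2 pcB0 cut_pp_102 xt_pp_102)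

def k0_pp_102 : ∃ t, chk3 f_pp_102 t 2 2 1 = true :=
  ⟨(a (b (l 2) (a (l 2) (a (l 2) (b (l 2) (c (l 14956024) (l 14966384)))))) (b (a (a (c (l 14555752) (l 14560736)) (l 14634040)) (a (l 14779016) (l 14866648))) (a (a (b (l 14804688) (a (l 15009104) (l 15034320))) (b (l 14877112) (c (l 14905528) (l 15098808)))) (b (a (l 14930112) (l 14963856)) (a (b (l 15042448) (c (l 15129056) (l 15179616))) (b (c (l 15014240) (l 15099216)) (l 15215328))))))), by decide +kernel⟩

def k1_pp_102 : ∃ t, chk3 f_pp_102 t 4 3 1 = true :=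
  ⟨(b (a (l 2) (a (b (l 2) (b (a (l 2) (a (b (l 2) (l 15533816)) (b (l 15442160) (l 15556784)))) (a (a (l 2) (b (l 15617136) (l 15743264))) (c (l 15574272) (l 15730272))))) (b (b (l 15173568) (a (b (l 15279848) (l 15369352)) (b (l 15304888) (l 15397352)))) (b (a (b (l 15470328) (l 15585144)) (l 15564640)) (a (l 15635792) (l 15794232)))))) (a (b (a (l 2) (b (a (l 2) (a (l 2) (b (l 2) (l 15943120)))) (b (a (l 2) (a (a (l 16046944) (l 16064672)) (l 16088928))) (a (l 6) (a (b (l 16171208) (l 16249240)) (l 16238280)))))) (a (l 6) (a (l 6) (b (b (a (l 139474526615519343) (l 139179170345058415)) (a (b (l 141091083814781039) (l 16532432)) (l 140717799664304367))) (b (b (l 141797932546048111) (a (l 142375794725601391) (l 142124487587315759))) (b (l 142072398193410095) (b (l 16659456) (l 142482859763646511)))))))) (a (b (a (b (b (c (l 15855616) (l 15857272)) (a (l 15976320) (l 16005488))) (b (l 137103429302141039) (a (l 16261992) (l 16177224)))) (b (b (l 15805888) (l 137374939767341167))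 (b (l 137621711678111855) (a (l 138716688075194479) (l 139366980491542575))))) (a (b (b (a (b (l 16370648) (l 16428008)) (l 139758544276308079)) (c (l 16497184) (l 16471464))) (b (b (l 141820884828127279) (l 141490756468621359)) (b (l 16590480) (l 142132596520058927)))) (b (b (l 140197799160856623) (l 140796139830083631)) (b (b (l 141316140251709487) (l 141373864615051311)) (b (l 16599120) (l 16599848)))))) (a (b (b (l 135683272342978607) (b (l 137459808648101935) (l 138966895693152303))) (b (b (l 140394199408394287) (l 140820260347985967)) (b (l 140502913857110063) (b (l 16629696) (l 16621744))))) (b (b (b (l 15973528) (l 16057192)) (b (l 137974723699720239) (l 16293488))) (b (b (l 16378704) (b (l 16444880) (l 16427376))) (b (c (l 16517152) (l 16571328)) (l 16556064)))))))), by decide +kernel⟩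

def k2_pp_102 : ∃ t, chk3 f_pp_102 t 5 3 1 = true :=
  ⟨(b (a (b (a (b (a (l 15211576) (l 15018568)) (c (l 15383752) (l 15409688))) (b (a (l 15249176) (l 15284776)) (l 15465336))) (a (b (l 132337663813107759) (c (l 15856880) (l 15819776))) (b (c (l 15689784) (l 15656056)) (c (a (l 15908704) (l 15943936)) (l 15861424))))) (b (c (a (l 15432424) (l 15503792)) (a (l 15426616) (l 15470688))) (a (b (l 15516752) (c (b (l 15931152) (l 16013216)) (l 15880752))) (b (c (l 15826368) (l 15731920)) (c (l 15983600) (l 15890992)))))) (b (a (b (a (c (b (l 16046848) (l 16019768)) (b (l 15987056) (l 16085160))) (b (c (l 16075808) (l 16000144)) (l 16120136))) (a (c (l 16239248) (a (l 16229552) (l 16228232))) (c (l 16244592) (l 16227376)))) (a (b (c (l 16108672) (l 16052720)) (c (l 16230528) (l 16227624))) (b (c (l 16101728) (l 16058832)) (c (l 16217912) (l 16228888))))) (b (b (a (a (a (l 16371824) (l 16365368)) (c (l 16345464) (l 16367576))) (a (a (l 16347704) (l 16301280)) (c (l 16311096)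 (l 16361832)))) (a (c (a (l 16357384) (l 16397752)) (a (b (l 16446344) (l 16474352)) (l 16461592))) (a (c (l 16399496) (l 16451976)) (l 16414752)))) (b (a (a (c (l 16500192) (l 16562072)) (l 16440712)) (a (l 16467792) (l 16475096))) (a (a (b (l 16541088) (l 16505584)) (b (l 16544712) (l 16480480))) (a (l 16410600) (l 16384848))))))), by decide +kernel⟩

def k3_pp_102 : ∃ t, chk3 f_pp_102 t 3 1 1 = true :=
  ⟨(b (b (a (a (a (l 14938712) (l 14994992)) (a (l 15035160) (b (l 15116096) (l 15005056)))) (b (a (l 15070992) (a (l 15155064) (l 15003000))) (a (a (l 14934768) (b (l 15017616) (l 15062192))) (a (l 14999952) (l 15175200))))) (a (b (a (a (c (l 14931720) (l 15031464)) (b (l 14974352) (l 15034296))) (c (b (l 14978136) (l 15113000)) (l 15051456))) (a (a (b (l 15112496) (l 15278112)) (l 15259960)) (c (l 15371736) (l 15336848)))) (a (b (c (l 15200608) (l 15217512)) (c (l 15520976) (l 15438032))) (b (l 15149384) (c (b (l 15591456) (l 15745744)) (l 15550640)))))) (b (a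 (b (a (a (c (l 15572960) (l 15511480)) (b (l 15507320) (l 15475992))) (b (c (l 15642536) (l 15535120)) (c (l 15639288) (l 15674032)))) (a (b (a (c (l 15869072) (l 15755184)) (l 15748896)) (c (l 15993528) (l 15916072))) (c (l 15958928) (b (l 15809480) (l 15947464))))) (a (b (c (b (l 15765224) (l 15863632)) (b (l 15619848) (l 15733032))) (c (l 15979088) (l 15796704))) (b (c (l 15872280) (l 15557960)) (c (l 16006848) (l 15970904))))) (a (b (a (b (c (l 16094664) (l 16070776)) (c (l 16075784) (a (l 16230792) (l 16233104)))) (c (b (l 16090928) (l 16020888)) (b (l 16090288) (b (l 16199616) (l 16213088))))) (a (c (b (b (l 16185144) (l 16365624)) (a (l 16425656) (l 16430616))) (a (b (l 16373568) (l 16367968)) (b (l 16388576) (l 16342688)))) (b (a (c (l 16311264) (l 16384088)) (l 16340760)) (a (l 16145712) (l 16102832))))) (b (a (b (c (l 16093432) (l 16112656)) (c (l 16094264) (b (l 16209480) (l 16273688)))) (b (c (l 16101696) (l 16136808)) (c (l 16129992) (l 16247560))))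 (a (b (c (l 16290392) (l 16369152)) (a (l 16061496) (l 16043120))) (b (c (l 16270688) (l 16351128)) (a (l 16006152) (l 15992920)))))))), by decide +kernel⟩

theorem s4_pp_102 : ∃ t, chk3 f_pp_102 t 2 3 1 = true := ex3_a k1_pp_102 k2_pp_102

theorem s5_pp_102 : ∃ t, chk3 f_pp_102 t 2 1 1 = true := ex3_b k0_pp_102 s4_pp_102

theorem s6_pp_102 : ∃ t, chk3 f_pp_102 t 1 1 1 = true := ex3_a s5_pp_102 k3_pp_102

theorem c_pp_102 : CertB 536870912 536870912 0 536870912 991146299 28908434 3 eng mog cd3q1 cd0q2 pd0 false true true .npp 1 0 2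
    ndB3q1 ndB0q2 pcB0 cut_pp_102 xt_pp_102 :=
  certB2 (fam := false) (s1 := true) (s2 := true) (a := 1) (b := 0) (c := 2) (cn := .npp) (n1 := ndB3q1) (n2 := ndB0q2) (pc := pcB0) (cut := cut_pp_102) (xt := xt_pp_102) (P1 := 536870912) (W1 := 536870912) (P2 := 0) (W2 := 536870912) (P3 := 991146299) (W3 := 28908434) (N0 := 3) (En := eng) (mo := mog) (C1 := cd3q1) (C2 := cd0q2) (C3 := pd0)
    rfl (fun _ => rfl) s6_pp_102

noncomputable def f_pp_112 : ℕ → ℕ → ℕ → ℕ → Bool := onCell 536870912 536870912 0 536870912 991146299 28908434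
    (rowB 3 eng mog cd3q1 cd0q2 pd1 2 false true true .dn 1 1 2 (qsf 536870912 536870912 0 536870912 1) ndB3q1 ndB0q2 pcB1 Cut.none Ext.none)

def k0_pp_112 : ∃ t, chk3 f_pp_112 t 1 1 1 = true :=
  ⟨(a (b (a (b (a (b (a (l 15586880) (l 15590376)) (l 15430968)) (b (l 15511920) (l 15411656))) (a (b (l 15263480) (b (l 15123152) (a (l 15115256) (l 15203152)))) (b (l 15284160) (b (c (l 15240176) (l 15224568)) (l 15369304))))) (a (b (l 144448656487) (a (b (l 15309872) (l 15413880)) (l 1))) (l 1))) (b (a (a (b (a (l 15500952) (l 15608080)) (b (l 15913752) (l 16205224))) (b (a (l 15696112) (l 15765208)) (b (l 16097600) (l 16333296)))) (l 1)) (a (b (a (b (a (l 16284384) (l 16250880)) (b (a (l 16027408) (l 16015696)) (l 16009384))) (b (l 15986152) (l 1))) (a (b (a (l 15961392) (l 15958952)) (a (b (l 15948232) (l 15938352)) (l 1))) (l 1))) (l 1)))) (l 1)), by decide +kernel⟩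

theorem c_pp_112 : CertB 536870912 536870912 0 536870912 991146299 28908434 3 eng mog cd3q1 cd0q2 pd1 false true true .dn 1 1 2
    ndB3q1 ndB0q2 pcB1 Cut.none Ext.none :=
  certB2 (fam := false) (s1 := true) (s2 := true) (a := 1) (b := 1) (c := 2) (cn := .dn) (n1 := ndB3q1) (n2 := ndB0q2) (pc := pcB1) (cut := Cut.none) (xt := Ext.none) (P1 := 536870912) (W1 := 536870912) (P2 := 0) (W2 := 536870912) (P3 := 991146299) (W3 := 28908434) (N0 := 3) (En := eng) (mo := mog) (C1 := cd3q1) (C2 := cd0q2) (C3 := pd1)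
    rfl (fun _ => rfl) k0_pp_112

noncomputable def f_pp_202 : ℕ → ℕ → ℕ → ℕ → Bool := onCell 1073741824 536870912 0 536870912 991146299 28908434
    (rowB 3 eng mog cd3q2 cd0q2 pd0 0 false true true .pp 2 0 2 (qsf 1073741824 536870912 0 536870912 0) ndB3q2 ndB0q2 pcB0 Cut.none Ext.none)

def k0_pp_202 : ∃ t, chk3 f_pp_202 t 1 1 1 = true :=
  ⟨(l 3), by decide +kernel⟩

theorem c_pp_202 : CertB 1073741824 536870912 0 536870912 991146299 28908434 3 eng mog cd3q2 cd0q2 pd0 false true true .pp 2 0 2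
    ndB3q2 ndB0q2 pcB0 Cut.none Ext.none :=
  certB0 (fam := false) (s1 := true) (s2 := true) (a := 2) (b := 0) (c := 2) (cn := .pp) (n1 := ndB3q2) (n2 := ndB0q2) (pc := pcB0) (cut := Cut.none) (xt := Ext.none) (P1 := 1073741824) (W1 := 536870912) (P2 := 0) (W2 := 536870912) (P3 := 991146299) (W3 := 28908434) (N0 := 3) (En := eng) (mo := mog) (C1 := cd3q2) (C2 := cd0q2) (C3 := pd0)
    rfl k0_pp_202

noncomputable def f_pm_001 : ℕ → ℕ → ℕ → ℕ → Bool := onCell 0 536870912 0 536870912 991146299 28908434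
    (rowB 3 eng mog cd3q0 cd0q1 pd0 1 false true false .up 0 0 1 (qsf 0 536870912 536870912 536870912 0) ndB3q0 ndB0q1 pcB0 Cut.none Ext.none)

def k0_pm_001 : ∃ t, chk3 f_pm_001 t 1 1 1 = true :=
  ⟨(l 4), by decide +kernel⟩

theorem c_pm_001 : CertB 0 536870912 536870912 536870912 991146299 28908434 3 eng mog cd3q0 cd0q1 pd0 false true false .up 0 0 1
    ndB3q0 ndB0q1 pcB0 Cut.none Ext.none :=
  certB1 (fam := false) (s1 := true) (s2 := false) (a := 0) (b := 0) (c := 1) (cn := .up) (n1 := ndB3q0) (n2 := ndB0q1) (pc := pcB0) (cut := Cut.none) (xt := Ext.none) (P1 := 0) (W1 := 536870912) (P2 := 536870912) (W2 := 536870912) (P3 := 991146299) (W3 := 28908434) (N0 := 3) (En := eng) (mo := mog) (C1 := cd3q0) (C2 := cd0q1) (C3 := pd0)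
    rfl (fun _ => rfl) k0_pm_001

noncomputable def f_pm_011 : ℕ → ℕ → ℕ → ℕ → Bool := onCell 0 536870912 536870912 536870912 991146299 28908434
    (rowB 3 eng mog cd3q0 cd0q1 pd1 0 false true false .pnn 0 1 1 (qsf 0 536870912 536870912 536870912 1) ndB3q0 ndB0q1 pcB1 Cut.none Ext.none)

def k0_pm_011 : ∃ t, chk3 f_pm_011 t 1 1 1 = true :=
  ⟨(a (b (l 4) (l 4)) (l 4)), by decide +kernel⟩

theorem c_pm_011 : CertB 0 536870912 536870912 536870912 991146299 28908434 3 eng mog cd3q0 cd0q1 pd1 false true false .pnn 0 1 1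
    ndB3q0 ndB0q1 pcB1 Cut.none Ext.none :=
  certB0 (fam := false) (s1 := true) (s2 := false) (a := 0) (b := 1) (c := 1) (cn := .pnn) (n1 := ndB3q0) (n2 := ndB0q1) (pc := pcB1) (cut := Cut.none) (xt := Ext.none) (P1 := 0) (W1 := 536870912) (P2 := 536870912) (W2 := 536870912) (P3 := 991146299) (W3 := 28908434) (N0 := 3) (En := eng) (mo := mog) (C1 := cd3q0) (C2 := cd0q1) (C3 := pd1)
    rfl k0_pm_011

noncomputable def f_pm_012 : ℕ → ℕ → ℕ → ℕ → Bool := onCell 536870912 536870912 0 536870912 991146299 28908434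
    (rowB 3 eng mog cd3q0 cd0q2 pd1 2 false true false .pnp 0 1 2 (qsf 0 536870912 0 536870912 1) ndB3q0 ndB0q2 pcB1 Cut.none Ext.none)

def k0_pm_012 : ∃ t, chk3 f_pm_012 t 1 1 1 = true :=
  ⟨(a (b (b (a (l 2) (a (b (a (l 15058304) (l 15003344)) (l 15073592)) (c (b (l 14916912) (l 14935256)) (b (l 15005992) (l 15041744))))) (b (a (l 2) (a (b (l 15091048) (l 15062224)) (b (l 15023744) (a (l 15043320) (l 15027296))))) (a (b (l 2) (l 4)) (a (b (l 14971392) (l 4)) (c (l 14994456) (l 15058024)))))) (b (l 4) (l 4))) (b (b (a (a (b (l 14960272) (a (l 14964360) (l 14968104))) (a (l 15015608) (l 15088504))) (a (a (l 15188048) (l 15313816)) (a (l 15339256) (b (l 15736400) (l 15539776))))) (a (a (a (c (l 14972216) (l 32443132951)) (b (l 14976504) (c (l 15003160) (l 15077000)))) (b (c (l 14935728) (l 15037104)) (c (l 15016752) (l 14957064)))) (a (a (b (l 15061136) (c (l 15019920) (l 15108176))) (b (l 15141376) (a (l 15074736) (l 15125040)))) (a (b (l 15255144) (a (l 15164328)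 (l 15216744))) (b (l 15395744) (l 15312936)))))) (a (b (a (l 4) (a (l 4) (a (l 4) (l 78614596951)))) (l 4)) (b (b (a (a (l 15214344) (c (l 15209024) (l 15265152))) (a (c (l 15243288) (l 15066616)) (b (l 15297296) (a (l 15328336) (l 15356224))))) (a (l 4) (a (l 4) (l 4)))) (l 4))))), by decide +kernel⟩

theorem c_pm_012 : CertB 0 536870912 0 536870912 991146299 28908434 3 eng mog cd3q0 cd0q2 pd1 false true false .pnp 0 1 2
    ndB3q0 ndB0q2 pcB1 Cut.none Ext.none :=
  certB2 (fam := false) (s1 := true) (s2 := false) (a := 0) (b := 1) (c := 2) (cn := .pnp) (n1 := ndB3q0) (n2 := ndB0q2) (pc := pcB1) (cut := Cut.none) (xt := Ext.none) (P1 := 0) (W1 := 536870912) (P2 := 0) (W2 := 536870912) (P3 := 991146299) (W3 := 28908434) (N0 := 3) (En := eng) (mo := mog) (C1 := cd3q0) (C2 := cd0q2) (C3 := pd1)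
    rfl (fun _ => rfl) k0_pm_012

noncomputable def f_pm_022 : ℕ → ℕ → ℕ → ℕ → Bool := onCell 0 536870912 0 536870912 991146299 28908434
    (rowB 3 eng mog cd3q0 cd0q2 pd2 0 false true false .pp 0 2 2 (qsf 0 536870912 0 536870912 2) ndB3q0 ndB0q2 pcB2 Cut.none Ext.none)

def k0_pm_022 : ∃ t, chk3 f_pm_022 t 4 2 1 = true :=
  ⟨(b (a (a (a (b (l 16318832) (a (l 16342840) (l 16405296))) (b (l 16255712) (l 16316336))) (a (a (b (l 16431384) (l 16453064)) (b (c (l 16433256) (l 16495408)) (c (l 16356784) (l 16453688)))) (b (c (a (l 16433584) (l 16439592)) (b (l 16347176) (l 16542776))) (a (l 16162704) (c (l 16322640) (l 16455080)))))) (a (c (a (b (a (l 16442864) (l 16442976)) (l 16224152)) (b (l 16260160) (a (l 16248064) (l 16233328)))) (a (b (b (l 16302512) (l 16523776)) (l 16410784)) (b (b (l 16377696) (l 16529080)) (l 16347144)))) (c (b (l 16169344) (b (l 16121200) (l 16071280))) (b (b (l 16431904) (l 16546400)) (b (l 16405952) (l 16268120)))))) (a (a (b (a (c (l 16424912)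 (l 16395688)) (c (l 16458504) (l 16511640))) (a (b (l 16327376) (l 16283040)) (b (l 16321576) (l 16184720)))) (a (b (a (l 16236720) (c (l 16253488) (l 16356936))) (a (c (l 16269480) (l 16330560)) (c (l 16069856) (l 16118440)))) (b (c (a (l 16237200) (l 16205976)) (b (l 16356272) (l 16248144))) (c (a (l 16119224) (l 16070440)) (a (l 16158312) (l 16119120)))))) (a (c (a (b (l 15966408) (a (l 16019792) (l 15968088))) (b (l 15864520) (a (l 15912936) (l 15841672)))) (b (a (c (l 16250152) (l 16316472)) (b (l 16271440) (l 16162880))) (a (b (l 16144328) (l 16041904)) (b (l 16048160) (l 15924008))))) (b (c (a (l 15959896) (l 15835024)) (c (l 15914360) (l 15935504))) (c (a (l 15642928) (l 15481896)) (a (l 15715392) (l 15577960))))))), by decide +kernel⟩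

def k1_pm_022 : ∃ t, chk3 f_pm_022 t 5 2 1 = true :=
  ⟨(a (a (b (c (b (c (l 16072160) (l 16309488)) (a (l 15984720) (l 15879000))) (b (c (l 16468168) (l 16543544)) (c (l 15990912) (l 16223608)))) (a (b (c (l 15701736) (l 15858384)) (c (l 15312480) (l 15431184))) (b (c (l 15560632) (l 15747712)) (l 1)))) (b (b (l 1) (l 1)) (l 1))) (l 1)), by decide +kernel⟩

def k2_pm_022 : ∃ t, chk3 f_pm_022 t 2 3 1 = true :=
  ⟨(a (b (b (a (a (c (a (b (l 16551704) (l 16525664)) (b (l 16352968) (l 16219688))) (a (b (l 16529232) (l 16530568)) (b (l 16394816) (a (l 16392840) (l 16279408))))) (a (a (b (l 16171112) (l 16014872)) (c (b (l 16078184) (l 16000560)) (b (l 16133528) (l 16042656)))) (c (a (b (l 16008616) (l 15921728)) (b (l 15946376) (l 15850408))) (a (b (l 16072728) (l 15970784)) (l 15711600))))) (a (a (c (b (l 15828336) (a (l 15777584) (l 15703624))) (b (l 15927296) (l 15693008))) (c (b (l 15706600) (a (l 15626144) (l 15531728))) (b (l 15787384) (l 15467936)))) (b (c (a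 (l 15528456) (l 15339712)) (a (l 15606464) (l 15413936))) (a (c (l 15387960) (l 15438976)) (l 1))))) (b (a (a (a (c (l 16361952) (l 16378992)) (c (l 16095160) (l 16115848))) (a (a (c (l 16043072) (l 16065800)) (c (l 15826624) (l 15914224))) (c (a (l 15824424) (l 15666016)) (a (l 15854704) (l 15742464))))) (a (a (c (a (l 15531000) (l 15545712)) (b (l 15610688) (l 51771824167))) (c (a (l 15540024) (l 15437208)) (b (l 15395368) (l 4)))) (c (l 15251272) (l 15293344)))) (a (a (a (a (c (l 16500936) (l 16483152)) (c (l 16330496) (l 16313048))) (c (a (l 16138064) (l 71100114631)) (b (l 16195712) (l 75931961639)))) (b (a (a (c (l 15983368) (l 15992824)) (a (l 15887800) (l 15733176))) (l 4)) (l 4))) (l 4)))) (a (b (a (a (b (b (c (a (l 16469168) (l 16349736)) (a (l 16461432) (l 16344504))) (l 4)) (l 4)) (l 4)) (l 4)) (l 4)) (l 4))) (b (l 1) (l 1))), by decide +kernel⟩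

def k3_pm_022 : ∃ t, chk3 f_pm_022 t 3 1 1 = true :=
  ⟨(l 1), by decide +kernel⟩

theorem s4_pm_022 : ∃ t, chk3 f_pm_022 t 2 2 1 = true := ex3_a k0_pm_022 k1_pm_022

theorem s5_pm_022 : ∃ t, chk3 f_pm_022 t 2 1 1 = true := ex3_b s4_pm_022 k2_pm_022

theorem s6_pm_022 : ∃ t, chk3 f_pm_022 t 1 1 1 = true := ex3_a s5_pm_022 k3_pm_022

theorem c_pm_022 : CertB 0 536870912 0 536870912 991146299 28908434 3 eng mog cd3q0 cd0q2 pd2 false true false .pp 0 2 2
    ndB3q0 ndB0q2 pcB2 Cut.none Ext.none :=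
  certB0 (fam := false) (s1 := true) (s2 := false) (a := 0) (b := 2) (c := 2) (cn := .pp) (n1 := ndB3q0) (n2 := ndB0q2) (pc := pcB2) (cut := Cut.none) (xt := Ext.none) (P1 := 0) (W1 := 536870912) (P2 := 0) (W2 := 536870912) (P3 := 991146299) (W3 := 28908434) (N0 := 3) (En := eng) (mo := mog) (C1 := cd3q0) (C2 := cd0q2) (C3 := pd2)
    rfl s6_pm_022

noncomputable def f_pm_101 : ℕ → ℕ → ℕ → ℕ → Bool := onCell 536870912 536870912 536870912 536870912 991146299 28908434
    (rowB 3 eng mog cd3q1 cd0q1 pd0 0 false true false .npn 1 0 1 (qsf 536870912 536870912 536870912 536870912 0) ndB3q1 ndB0q1 pcB0 Cut.none Ext.none)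

def k0_pm_101 : ∃ t, chk3 f_pm_101 t 1 1 1 = true :=
  ⟨(l 4), by decide +kernel⟩

theorem c_pm_101 : CertB 536870912 536870912 536870912 536870912 991146299 28908434 3 eng mog cd3q1 cd0q1 pd0 false true false .npn 1 0 1
    ndB3q1 ndB0q1 pcB0 Cut.none Ext.none :=
  certB0 (fam := false) (s1 := true) (s2 := false) (a := 1) (b := 0) (c := 1) (cn := .npn) (n1 := ndB3q1) (n2 := ndB0q1) (pc := pcB0) (cut := Cut.none) (xt := Ext.none) (P1 := 536870912) (W1 := 536870912) (P2 := 536870912) (W2 := 536870912) (P3 := 991146299) (W3 := 28908434) (N0 := 3) (En := eng) (mo := mog) (C1 := cd3q1) (C2 := cd0q1) (C3 := pd0)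
    rfl k0_pm_101

noncomputable def f_pm_102 : ℕ → ℕ → ℕ → ℕ → Bool := onCell 0 536870912 0 536870912 991146299 28908434
    (rowB 3 eng mog cd3q1 cd0q2 pd0 2 false true false .npp 1 0 2 (qsf 536870912 536870912 0 536870912 0) ndB3q1 ndB0q2 pcB0 Cut.none Ext.none)

def k0_pm_102 : ∃ t, chk3 f_pm_102 t 1 1 1 = true :=
  ⟨(a (b (a (b (l 2) (a (l 2) (a (l 2) (a (l 2) (b (l 2) (l 13757032)))))) (a (b (b (a (l 14370464) (l 14538216)) (a (l 14231688) (l 14422544))) (b (c (l 14159016) (l 14131296)) (c (l 14012360) (l 13974048)))) (b (b (l 14759496) (c (l 14651048) (l 14728344))) (b (c (l 14490680) (l 14514760)) (c (l 14374256) (l 14351144)))))) (b (a (l 4) (l 4)) (l 4))) (b (b (b (a (a (l 15012376) (l 15214168)) (a (l 15360632) (l 15299976))) (a (a (b (l 15041912) (l 14977776)) (b (l 15312200) (l 15128072))) (a (a (l 15407336) (l 15476752)) (a (l 15553504) (l 15677688))))) (b (a (a (c (l 14792232) (l 14862248)) (c (l 15064976) (l 15174744))) (a (c (l 15311712) (l 15455832))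 (c (l 15538880) (l 15546464)))) (b (a (a (l 14685248) (l 14722776)) (a (c (l 15149936) (l 15203152)) (c (l 15320144) (l 15384856)))) (a (l 4) (l 4))))) (l 4))), by decide +kernel⟩

theorem c_pm_102 : CertB 536870912 536870912 0 536870912 991146299 28908434 3 eng mog cd3q1 cd0q2 pd0 false true false .npp 1 0 2
    ndB3q1 ndB0q2 pcB0 Cut.none Ext.none :=
  certB2 (fam := false) (s1 := true) (s2 := false) (a := 1) (b := 0) (c := 2) (cn := .npp) (n1 := ndB3q1) (n2 := ndB0q2) (pc := pcB0) (cut := Cut.none) (xt := Ext.none) (P1 := 536870912) (W1 := 536870912) (P2 := 0) (W2 := 536870912) (P3 := 991146299) (W3 := 28908434) (N0 := 3) (En := eng) (mo := mog) (C1 := cd3q1) (C2 := cd0q2) (C3 := pd0)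
    rfl (fun _ => rfl) k0_pm_102

noncomputable def f_pm_112 : ℕ → ℕ → ℕ → ℕ → Bool := onCell 536870912 536870912 0 536870912 991146299 28908434
    (rowB 3 eng mog cd3q1 cd0q2 pd1 0 false true false .dn 1 1 2 (qsf 536870912 536870912 0 536870912 1) ndB3q1 ndB0q2 pcB1 Cut.none Ext.none)

def k0_pm_112 : ∃ t, chk3 f_pm_112 t 1 1 1 = true :=
  ⟨(a (b (a (b (a (b (l 15589888) (l 15660560)) (b (l 15640528) (l 15675472))) (b (a (b (l 15673744) (l 15606408)) (b (l 15659464) (l 15553816))) (b (a (l 15511704) (l 15454568)) (l 4)))) (a (b (b (l 15604248) (a (l 15635728) (l 1))) (b (l 15502192) (b (l 15343296) (l 4)))) (l 1))) (l 4)) (l 1)), by decide +kernel⟩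

theorem c_pm_112 : CertB 536870912 536870912 0 536870912 991146299 28908434 3 eng mog cd3q1 cd0q2 pd1 false true false .dn 1 1 2
    ndB3q1 ndB0q2 pcB1 Cut.none Ext.none :=
  certB0 (fam := false) (s1 := true) (s2 := false) (a := 1) (b := 1) (c := 2) (cn := .dn) (n1 := ndB3q1) (n2 := ndB0q2) (pc := pcB1) (cut := Cut.none) (xt := Ext.none) (P1 := 536870912) (W1 := 536870912) (P2 := 0) (W2 := 536870912) (P3 := 991146299) (W3 := 28908434) (N0 := 3) (En := eng) (mo := mog) (C1 := cd3q1) (C2 := cd0q2) (C3 := pd1)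
    rfl k0_pm_112

noncomputable def f_pm_202 : ℕ → ℕ → ℕ → ℕ → Bool := onCell 0 536870912 0 536870912 991146299 28908434
    (rowB 3 eng mog cd3q2 cd0q2 pd0 2 false true false .pp 2 0 2 (qsf 1073741824 536870912 0 536870912 0) ndB3q2 ndB0q2 pcB0 Cut.none Ext.none)

def k0_pm_202 : ∃ t, chk3 f_pm_202 t 2 2 1 = true :=
  ⟨(l 3), by decide +kernel⟩

def k1_pm_202 : ∃ t, chk3 f_pm_202 t 4 6 1 = true :=
  ⟨(l 3), by decide +kernel⟩

def k2_pm_202 : ∃ t, chk3 f_pm_202 t 16 14 1 = true :=
  ⟨(b (b (l 3) (a (a (b (b (l 3) (a (c (a (l 16514920) (l 16522488)) (a (l 16452720) (l 16463440))) (c (l 16534896) (l 16474968)))) (a (c (l 16541728) (l 16482432)) (b (c (l 16523968) (l 16441512)) (l 16467424)))) (c (a (b (l 57612389767) (b (l 16560280) (l 16549728))) (b (a (l 16520168) (l 16568224)) (b (l 16554536) (l 16585120)))) (a (b (c (l 16504032) (l 16472728)) (b (l 16496864) (l 16506560))) (b (a (l 16479480) (l 16507056)) (b (l 16491512) (l 16519208)))))) (a (c (b (l 56538697255)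 (a (l 16533024) (l 16550400))) (a (c (l 16500088) (l 16467064)) (b (l 16513584) (b (l 16547744) (l 16553688))))) (a (b (l 111836333111) (b (l 16533888) (l 16563432))) (b (l 16510448) (l 16533536)))))) (a (a (b (c (l 16517944) (l 16477384)) (l 16489880)) (b (b (a (l 16483720) (c (l 16565832) (l 16519736))) (l 16488160)) (l 16511912))) (b (a (c (b (a (l 16555720) (l 16591008)) (l 16601872)) (b (a (l 16486664) (l 16542288)) (a (l 16589640) (l 16554936)))) (b (l 16498776) (a (a (l 16533056) (l 16538320)) (b (l 16562136) (l 16555120))))) (a (b (l 16552672) (l 16570760)) (a (l 16581320) (l 16558112)))))), by decide +kernel⟩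

def k3_pm_202 : ∃ t, chk3 f_pm_202 t 17 14 1 = true :=
  ⟨(a (b (b (l 3) (b (a (l 117205093111) (l 16545864)) (b (l 16526016) (a (l 16542336) (l 16574728))))) (a (b (b (l 16534416) (a (l 16565184) (l 16623536))) (a (b (l 16579024) (l 16579184)) (b (a (l 16605600) (l 16611376)) (l 16578600)))) (b (b (c (l 16639928) (l 16616768)) (l 16587064)) (b (b (l 16608616) (a (l 16608360) (b (l 16643304) (l 16599536)))) (a (l 16558392) (l 1)))))) (b (b (b (l 3) (c (l 86603601895) (l 88214168631))) (a (b (l 16578664) (l 16599616)) (c (l 16562976) (l 16627832)))) (b (c (b (a (l 16596576) (l 434361683639)) (a (l 16614536) (l 1))) (b (a (l 16627248) (l 16636656)) (l 362957979655))) (a (b (l 427382383191) (l 1)) (l 1))))), by decide +kernel⟩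

def k4_pm_202 : ∃ t, chk3 f_pm_202 t 8 15 1 = true :=
  ⟨(a (b (a (a (b (l 16570912) (l 16523720)) (b (l 16520992) (l 16461608))) (c (b (a (l 16544520) (l 16526912)) (a (l 16471952) (l 352756912759))) (b (b (l 16592144) (l 16556576)) (a (l 16555632) (l 16510152))))) (a (a (b (a (b (l 16562048) (l 16595264)) (b (l 16578536) (l 16488464))) (c (l 16456984) (l 16566864))) (b (b (l 16478632) (a (l 16480528) (l 16498536))) (a (c (l 482679625079) (l 16495824)) (l 1)))) (a (b (b (a (l 16488888) (l 16428208)) (l 1)) (l 1)) (l 1)))) (a (b (a (b (c (l 329134759911) (l 16577136)) (l 1)) (l 1)) (l 1)) (l 1))), by decide +kernel⟩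

def k5_pm_202 : ∃ t, chk3 f_pm_202 t 9 7 1 = true :=
  ⟨(a (a (b (b (b (b (l 3) (a (b (l 3) (a (l 293701535255) (l 1))) (l 1))) (a (a (b (l 369400315607) (l 1)) (l 1)) (l 1))) (l 1)) (l 1)) (l 1)) (l 1)), by decide +kernel⟩

def k6_pm_202 : ∃ t, chk3 f_pm_202 t 5 3 1 = true :=
  ⟨(b (l 1) (l 1)), by decide +kernel⟩

def k7_pm_202 : ∃ t, chk3 f_pm_202 t 3 1 1 = true :=
  ⟨(l 1), by decide +kernel⟩

theorem s8_pm_202 : ∃ t, chk3 f_pm_202 t 8 14 1 = true := ex3_a k2_pm_202 k3_pm_202

theorem s9_pm_202 : ∃ t, chk3 f_pm_202 t 8 7 1 = true := ex3_b s8_pm_202 k4_pm_202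

theorem s10_pm_202 : ∃ t, chk3 f_pm_202 t 4 7 1 = true := ex3_a s9_pm_202 k5_pm_202

theorem s11_pm_202 : ∃ t, chk3 f_pm_202 t 4 3 1 = true := ex3_b k1_pm_202 s10_pm_202

theorem s12_pm_202 : ∃ t, chk3 f_pm_202 t 2 3 1 = true := ex3_a s11_pm_202 k6_pm_202

theorem s13_pm_202 : ∃ t, chk3 f_pm_202 t 2 1 1 = true := ex3_b k0_pm_202 s12_pm_202

theorem s14_pm_202 : ∃ t, chk3 f_pm_202 t 1 1 1 = true := ex3_a s13_pm_202 k7_pm_202

theorem c_pm_202 : CertB 1073741824 536870912 0 536870912 991146299 28908434 3 eng mog cd3q2 cd0q2 pd0 false true false .pp 2 0 2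
    ndB3q2 ndB0q2 pcB0 Cut.none Ext.none :=
  certB2 (fam := false) (s1 := true) (s2 := false) (a := 2) (b := 0) (c := 2) (cn := .pp) (n1 := ndB3q2) (n2 := ndB0q2) (pc := pcB0) (cut := Cut.none) (xt := Ext.none) (P1 := 1073741824) (W1 := 536870912) (P2 := 0) (W2 := 536870912) (P3 := 991146299) (W3 := 28908434) (N0 := 3) (En := eng) (mo := mog) (C1 := cd3q2) (C2 := cd0q2) (C3 := pd0)
    rfl (fun _ => rfl) s14_pm_202

noncomputable def f_mm_001 : ℕ → ℕ → ℕ → ℕ → Bool := onCell 0 536870912 536870912 536870912 991146299 28908434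
    (rowB 3 eng mog cd3q0 cd0q1 pd0 0 false false false .up 0 0 1 (qsf 0 536870912 536870912 536870912 0) ndB3q0 ndB0q1 pcB0 Cut.none Ext.none)

def k0_mm_001 : ∃ t, chk3 f_mm_001 t 1 1 1 = true :=
  ⟨(l 5), by decide +kernel⟩

theorem c_mm_001 : CertB 0 536870912 536870912 536870912 991146299 28908434 3 eng mog cd3q0 cd0q1 pd0 false false false .up 0 0 1
    ndB3q0 ndB0q1 pcB0 Cut.none Ext.none :=
  certB0 (fam := false) (s1 := false) (s2 := false) (a := 0) (b := 0) (c := 1) (cn := .up) (n1 := ndB3q0) (n2 := ndB0q1) (pc := pcB0) (cut := Cut.none) (xt := Ext.none) (P1 := 0) (W1 := 536870912) (P2 := 536870912) (W2 := 536870912) (P3 := 991146299) (W3 := 28908434) (N0 := 3) (En := eng) (mo := mog) (C1 := cd3q0) (C2 := cd0q1) (C3 := pd0)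
    rfl k0_mm_001

noncomputable def f_mm_011 : ℕ → ℕ → ℕ → ℕ → Bool := onCell 0 536870912 536870912 536870912 991146299 28908434
    (rowB 3 eng mog cd3q0 cd0q1 pd1 0 false false false .pnn 0 1 1 (qsf 0 536870912 536870912 536870912 1) ndB3q0 ndB0q1 pcB1 Cut.none Ext.none)

def k0_mm_011 : ∃ t, chk3 f_mm_011 t 1 1 1 = true :=
  ⟨(l 5), by decide +kernel⟩

theorem c_mm_011 : CertB 0 536870912 536870912 536870912 991146299 28908434 3 eng mog cd3q0 cd0q1 pd1 false false false .pnn 0 1 1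
    ndB3q0 ndB0q1 pcB1 Cut.none Ext.none :=
  certB0 (fam := false) (s1 := false) (s2 := false) (a := 0) (b := 1) (c := 1) (cn := .pnn) (n1 := ndB3q0) (n2 := ndB0q1) (pc := pcB1) (cut := Cut.none) (xt := Ext.none) (P1 := 0) (W1 := 536870912) (P2 := 536870912) (W2 := 536870912) (P3 := 991146299) (W3 := 28908434) (N0 := 3) (En := eng) (mo := mog) (C1 := cd3q0) (C2 := cd0q1) (C3 := pd1)
    rfl k0_mm_011

noncomputable def f_mm_012 : ℕ → ℕ → ℕ → ℕ → Bool := onCell 0 536870912 0 536870912 991146299 28908434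
    (rowB 3 eng mog cd3q0 cd0q2 pd1 0 false false false .pnp 0 1 2 (qsf 0 536870912 0 536870912 1) ndB3q0 ndB0q2 pcB1 Cut.none Ext.none)

def k0_mm_012 : ∃ t, chk3 f_mm_012 t 1 1 1 = true :=
  ⟨(l 5), by decide +kernel⟩

theorem c_mm_012 : CertB 0 536870912 0 536870912 991146299 28908434 3 eng mog cd3q0 cd0q2 pd1 false false false .pnp 0 1 2
    ndB3q0 ndB0q2 pcB1 Cut.none Ext.none :=
  certB0 (fam := false) (s1 := false) (s2 := false) (a := 0) (b := 1) (c := 2) (cn := .pnp) (n1 := ndB3q0) (n2 := ndB0q2) (pc := pcB1) (cut := Cut.none) (xt := Ext.none) (P1 := 0) (W1 := 536870912) (P2 := 0) (W2 := 536870912) (P3 := 991146299) (W3 := 28908434) (N0 := 3) (En := eng) (mo := mog) (C1 := cd3q0) (C2 := cd0q2) (C3 := pd1)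
    rfl k0_mm_012

noncomputable def f_mm_022 : ℕ → ℕ → ℕ → ℕ → Bool := onCell 0 536870912 0 536870912 991146299 28908434
    (rowB 3 eng mog cd3q0 cd0q2 pd2 0 false false false .pp 0 2 2 (qsf 0 536870912 0 536870912 2) ndB3q0 ndB0q2 pcB2 Cut.none Ext.none)

def k0_mm_022 : ∃ t, chk3 f_mm_022 t 1 1 1 = true :=
  ⟨(l 5), by decide +kernel⟩

theorem c_mm_022 : CertB 0 536870912 0 536870912 991146299 28908434 3 eng mog cd3q0 cd0q2 pd2 false false false .pp 0 2 2
    ndB3q0 ndB0q2 pcB2 Cut.none Ext.none :=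
  certB0 (fam := false) (s1 := false) (s2 := false) (a := 0) (b := 2) (c := 2) (cn := .pp) (n1 := ndB3q0) (n2 := ndB0q2) (pc := pcB2) (cut := Cut.none) (xt := Ext.none) (P1 := 0) (W1 := 536870912) (P2 := 0) (W2 := 536870912) (P3 := 991146299) (W3 := 28908434) (N0 := 3) (En := eng) (mo := mog) (C1 := cd3q0) (C2 := cd0q2) (C3 := pd2)
    rfl k0_mm_022

noncomputable def f_mm_101 : ℕ → ℕ → ℕ → ℕ → Bool := onCell 536870912 536870912 0 536870912 991146299 28908434
    (rowB 3 eng mog cd3q1 cd0q1 pd0 1 false false false .npn 1 0 1 (qsf 536870912 536870912 536870912 536870912 0) ndB3q1 ndB0q1 pcB0 Cut.none Ext.none)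

def k0_mm_101 : ∃ t, chk3 f_mm_101 t 1 1 1 = true :=
  ⟨(a (l 5) (l 5)), by decide +kernel⟩

theorem c_mm_101 : CertB 536870912 536870912 536870912 536870912 991146299 28908434 3 eng mog cd3q1 cd0q1 pd0 false false false .npn 1 0 1
    ndB3q1 ndB0q1 pcB0 Cut.none Ext.none :=
  certB1 (fam := false) (s1 := false) (s2 := false) (a := 1) (b := 0) (c := 1) (cn := .npn) (n1 := ndB3q1) (n2 := ndB0q1) (pc := pcB0) (cut := Cut.none) (xt := Ext.none) (P1 := 536870912) (W1 := 536870912) (P2 := 536870912) (W2 := 536870912) (P3 := 991146299) (W3 := 28908434) (N0 := 3) (En := eng) (mo := mog) (C1 := cd3q1) (C2 := cd0q1) (C3 := pd0)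
    rfl (fun _ => rfl) k0_mm_101

noncomputable def f_mm_102 : ℕ → ℕ → ℕ → ℕ → Bool := onCell 536870912 536870912 0 536870912 991146299 28908434
    (rowB 3 eng mog cd3q1 cd0q2 pd0 0 false false false .npp 1 0 2 (qsf 536870912 536870912 0 536870912 0) ndB3q1 ndB0q2 pcB0 Cut.none Ext.none)

def k0_mm_102 : ∃ t, chk3 f_mm_102 t 1 1 1 = true :=
  ⟨(l 5), by decide +kernel⟩

theorem c_mm_102 : CertB 536870912 536870912 0 536870912 991146299 28908434 3 eng mog cd3q1 cd0q2 pd0 false false false .npp 1 0 2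
    ndB3q1 ndB0q2 pcB0 Cut.none Ext.none :=
  certB0 (fam := false) (s1 := false) (s2 := false) (a := 1) (b := 0) (c := 2) (cn := .npp) (n1 := ndB3q1) (n2 := ndB0q2) (pc := pcB0) (cut := Cut.none) (xt := Ext.none) (P1 := 536870912) (W1 := 536870912) (P2 := 0) (W2 := 536870912) (P3 := 991146299) (W3 := 28908434) (N0 := 3) (En := eng) (mo := mog) (C1 := cd3q1) (C2 := cd0q2) (C3 := pd0)
    rfl k0_mm_102

noncomputable def f_mm_112 : ℕ → ℕ → ℕ → ℕ → Bool := onCell 536870912 536870912 0 536870912 991146299 28908434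
    (rowB 3 eng mog cd3q1 cd0q2 pd1 0 false false false .dn 1 1 2 (qsf 536870912 536870912 0 536870912 1) ndB3q1 ndB0q2 pcB1 Cut.none Ext.none)

def k0_mm_112 : ∃ t, chk3 f_mm_112 t 1 1 1 = true :=
  ⟨(l 5), by decide +kernel⟩

theorem c_mm_112 : CertB 536870912 536870912 0 536870912 991146299 28908434 3 eng mog cd3q1 cd0q2 pd1 false false false .dn 1 1 2
    ndB3q1 ndB0q2 pcB1 Cut.none Ext.none :=
  certB0 (fam := false) (s1 := false) (s2 := false) (a := 1) (b := 1) (c := 2) (cn := .dn) (n1 := ndB3q1) (n2 := ndB0q2) (pc := pcB1) (cut := Cut.none) (xt := Ext.none) (P1 := 536870912) (W1 := 536870912) (P2 := 0) (W2 := 536870912) (P3 := 991146299) (W3 := 28908434) (N0 := 3) (En := eng) (mo := mog) (C1 := cd3q1) (C2 := cd0q2) (C3 := pd1)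
    rfl k0_mm_112

noncomputable def f_mm_202 : ℕ → ℕ → ℕ → ℕ → Bool := onCell 1073741824 536870912 0 536870912 991146299 28908434
    (rowB 3 eng mog cd3q2 cd0q2 pd0 0 false false false .pp 2 0 2 (qsf 1073741824 536870912 0 536870912 0) ndB3q2 ndB0q2 pcB0 Cut.none Ext.none)

def k0_mm_202 : ∃ t, chk3 f_mm_202 t 1 1 1 = true :=
  ⟨(l 3), by decide +kernel⟩

theorem c_mm_202 : CertB 1073741824 536870912 0 536870912 991146299 28908434 3 eng mog cd3q2 cd0q2 pd0 false false false .pp 2 0 2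
    ndB3q2 ndB0q2 pcB0 Cut.none Ext.none :=
  certB0 (fam := false) (s1 := false) (s2 := false) (a := 2) (b := 0) (c := 2) (cn := .pp) (n1 := ndB3q2) (n2 := ndB0q2) (pc := pcB0) (cut := Cut.none) (xt := Ext.none) (P1 := 1073741824) (W1 := 536870912) (P2 := 0) (W2 := 536870912) (P3 := 991146299) (W3 := 28908434) (N0 := 3) (En := eng) (mo := mog) (C1 := cd3q2) (C2 := cd0q2) (C3 := pd0)
    rfl k0_mm_202

end Pool.Agent.Strip051.G.I9231_9500.Tab.C.BB30

namespace Pool.Agent.Strip051.G.I9231_9500.Tab.C.BB31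

open Pool.Agent.Strip051.PB Pool.Agent.Strip051.PB.T
open Pool.Agent.Strip051.G.I9231_9500.Tab

noncomputable def f_pp_001 : ℕ → ℕ → ℕ → ℕ → Bool := onCell 0 536870912 0 536870912 991146299 28908434
    (rowB 3 eng mog cd3q0 cd1q1 pd0 1 false true true .up 0 0 1 (qsf 0 536870912 536870912 536870912 0) ndB3q0 ndB1q1 pcB0 Cut.none Ext.none)

def k0_pp_001 : ∃ t, chk3 f_pp_001 t 1 1 1 = true :=
  ⟨(l 3), by decide +kernel⟩

theorem c_pp_001 : CertB 0 536870912 536870912 536870912 991146299 28908434 3 eng mog cd3q0 cd1q1 pd0 false true true .up 0 0 1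
    ndB3q0 ndB1q1 pcB0 Cut.none Ext.none :=
  certB1 (fam := false) (s1 := true) (s2 := true) (a := 0) (b := 0) (c := 1) (cn := .up) (n1 := ndB3q0) (n2 := ndB1q1) (pc := pcB0) (cut := Cut.none) (xt := Ext.none) (P1 := 0) (W1 := 536870912) (P2 := 536870912) (W2 := 536870912) (P3 := 991146299) (W3 := 28908434) (N0 := 3) (En := eng) (mo := mog) (C1 := cd3q0) (C2 := cd1q1) (C3 := pd0)
    rfl (fun _ => rfl) k0_pp_001

noncomputable def f_pp_011 : ℕ → ℕ → ℕ → ℕ → Bool := onCell 0 536870912 536870912 536870912 991146299 28908434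
    (rowB 3 eng mog cd3q0 cd1q1 pd1 0 false true true .pnn 0 1 1 (qsf 0 536870912 536870912 536870912 1) ndB3q0 ndB1q1 pcB1 Cut.none Ext.none)

def k0_pp_011 : ∃ t, chk3 f_pp_011 t 1 1 1 = true :=
  ⟨(a (b (l 3) (l 3)) (l 3)), by decide +kernel⟩

theorem c_pp_011 : CertB 0 536870912 536870912 536870912 991146299 28908434 3 eng mog cd3q0 cd1q1 pd1 false true true .pnn 0 1 1
    ndB3q0 ndB1q1 pcB1 Cut.none Ext.none :=
  certB0 (fam := false) (s1 := true) (s2 := true) (a := 0) (b := 1) (c := 1) (cn := .pnn) (n1 := ndB3q0) (n2 := ndB1q1) (pc := pcB1) (cut := Cut.none) (xt := Ext.none) (P1 := 0) (W1 := 536870912) (P2 := 536870912) (W2 := 536870912) (P3 := 991146299) (W3 := 28908434) (N0 := 3) (En := eng) (mo := mog) (C1 := cd3q0) (C2 := cd1q1) (C3 := pd1)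
    rfl k0_pp_011

noncomputable def xt_pp_012_a : Ext := extD3 3 ⟨4, 1, 1, 5, 22, 5, 21, 25, 41, 100, 1, 20⟩ eng cd3q0 cd1q2a pd1 false true true .pnp 0 1 2 rfl ndB3q0 ndB1q2a pcB1

noncomputable def f_pp_012_a : ℕ → ℕ → ℕ → ℕ → Bool := onCell 0 536870912 0 536870912 991146299 28908434
    (rowB 3 eng mog cd3q0 cd1q2a pd1 0 false true true .pnp 0 1 2 (qsf 0 536870912 0 536870912 1) ndB3q0 ndB1q2a pcB1 Cut.none xt_pp_012_a)

def k0_pp_012_a : ∃ t, chk3 f_pp_012_a t 2 2 1 = true :=
  ⟨(a (b (l 2) (a (l 2) (a (l 2) (b (l 2) (a (l 2) (l 16142376)))))) (a (b (a (b (l 16241432) (l 16147936)) (l 15912552)) (a (b (l 16075512) (l 15908200)) (b (l 15999848) (l 15947616)))) (b (a (l 15930920) (l 15764928)) (b (a (l 15869616) (l 15745824)) (a (l 15848856) (l 15757008)))))), by decide +kernel⟩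

def k1_pp_012_a : ∃ t, chk3 f_pp_012_a t 4 6 1 = true :=
  ⟨(a (l 2) (b (a (l 2) (b (l 16056440) (l 15973616))) (a (a (b (l 2) (a (l 2) (l 16010712))) (a (b (l 16077680) (l 16040264)) (b (l 16063912) (l 16032832)))) (b (l 15943560) (l 15885536))))), by decide +kernel⟩

def k2_pp_012_a : ∃ t, chk3 f_pp_012_a t 4 7 1 = true :=
  ⟨(a (b (a (l 2) (b (a (l 2) (a (l 2) (c (l 15974688) (l 16046496)))) (a (b (l 2) (a (l 16132896) (a (l 16090472) (l 16077864)))) (a (c (a (l 16039608) (l 16046104)) (l 16098984)) (c (l 16055984) (l 16120280)))))) (a (b (a (l 2) (b (a (l 2) (l 16229944)) (a (a (l 2) (l 16312976)) (c (l 16259344) (l 16284144))))) (a (a (b (l 2) (b (c (l 16510000) (l 16508912)) (c (l 16532112) (l 16528560)))) (b (b (a (l 2) (l 16399400)) (c (l 16430432) (l 16437816))) (b (c (l 16452744) (l 16457792)) (l 142505742942339199)))) (b (a (b (l 16358176) (l 16379688)) (l 141157810087526527)) (b (a (l 16400312) (l 16329376)) (l 140815862104129663))))) (a (b (a (b (l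 16173888) (l 16216640)) (a (l 139554584366481535) (c (l 16122200) (l 16163432)))) (a (b (l 140746936224923775) (b (l 16265440) (l 16285432))) (a (b (l 16218912) (l 140040980970225919)) (b (l 139981538582282367) (c (l 16191576) (l 16227520)))))) (b (a (c (l 138742251387158655) (l 140035002285146239)) (c (l 138987167633457279) (l 16142416))) (a (b (l 137942769167270015) (c (l 139071692687016191) (l 139523592060239935))) (b (l 138121096219885631) (c (l 138672913574936703) (l 16256784)))))))) (c (b (a (a (b (a (l 15987512) (l 16001992)) (l 138018497747402879)) (b (l 137911707549597823) (l 137822441128198271))) (b (l 16004016) (l 136717912960008255))) (a (b (a (a (l 138443184286875775) (l 16179072)) (l 136664380688072767)) (a (b (l 137865253508923455) (l 138372197161287743)) (b (l 138131404038783039) (l 566375708828772245053503)))) (b (l 16167120) (b (l 16104520) (l 16011440))))) (b (a (a (b (a (l 16064240) (l 16082224)) (l 138811726815576191)) (b (l 16054696) (l 139006271711068223)))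 (b (l 16084608) (l 16085112))) (a (b (a (a (l 16226696) (l 16247744)) (l 138304439868014655)) (a (b (l 139222050998517823) (l 138177377380466751)) (b (l 138766646945579071) (l 136862773567062079)))) (b (l 16237984) (b (l 16104760) (l 15948904))))))), by decide +kernel⟩

def k3_pp_012_a : ∃ t, chk3 f_pp_012_a t 5 3 1 = true :=
  ⟨(b (a (b (a (c (l 15947784) (l 16045688)) (l 15882472)) (a (b (l 15977320) (l 15983784)) (b (l 15936136) (l 15963680)))) (b (a (l 15861112) (l 15804424)) (a (b (l 15901832) (l 15949416)) (l 15716736)))) (b (a (a (b (l 16009160) (l 16111192)) (b (l 16020184) (l 16092304))) (a (b (l 16013944) (l 16075576)) (b (l 16012056) (l 16063040)))) (a (b (a (c (l 16129472) (l 16193680)) (l 16085504)) (a (b (l 16039960) (a (l 15922952) (l 15903440))) (b (l 16013328) (l 15896832)))) (b (a (l 16102536) (l 16084632)) (a (b (l 16017088) (l 15916272)) (c (l 16018896) (l 15972920))))))), by decide +kernel⟩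

def k4_pp_012_a : ∃ t, chk3 f_pp_012_a t 3 1 1 = true :=
  ⟨(b (a (b (a (a (l 15601176) (l 15440664)) (b (l 15183704) (l 15258544))) (a (b (l 15570896) (a (l 15671288) (l 15591360))) (b (l 15356400) (a (l 15517088) (l 15448360))))) (b (a (b (l 14933704) (a (l 15064176) (l 14942896))) (b (l 14769336) (a (l 14839488) (l 14739776)))) (a (b (l 15164416) (a (l 15385128) (l 15327320))) (b (l 14995912) (a (l 15274920) (l 15227928)))))) (a (b (a (b (a (l 15753640) (l 15708384)) (a (l 15744672) (l 15735248))) (b (a (l 15668392) (l 15633432)) (a (l 15730096) (l 15707936)))) (b (a (a (b (l 16015152) (l 16055904)) (b (l 16023648) (l 16054752))) (b (a (l 16037712) (l 16057280)) (a (l 16059904) (l 16071592)))) (a (b (a (l 16071784) (l 16063600)) (a (c (l 16025664) (l 16016696)) (c (l 16015600) (l 16068160)))) (b (a (l 16060464) (l 16063056)) (a (c (l 16006560) (l 16082872)) (c (l 15980888) (l 16079104))))))) (b (a (b (a (l 15603296) (l 15577784)) (a (l 15689440) (l 15674320)))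 (b (a (l 15556728) (l 15540008)) (b (l 15804640) (l 15784128)))) (b (a (b (a (l 16082088) (l 16111720)) (a (l 16090080) (l 16115600))) (b (a (l 16103664) (l 16015208)) (a (l 16148368) (l 16188544)))) (a (b (a (l 16072160) (l 16088552)) (a (c (l 16003656) (l 16079592)) (c (l 16013280) (l 16087112)))) (b (a (l 16112936) (l 16145928)) (a (c (l 16032152) (l 16061352)) (c (l 16061424) (l 16087584))))))))), by decide +kernel⟩

theorem s5_pp_012_a : ∃ t, chk3 f_pp_012_a t 4 3 1 = true := ex3_b k1_pp_012_a k2_pp_012_a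

theorem s6_pp_012_a : ∃ t, chk3 f_pp_012_a t 2 3 1 = true := ex3_a s5_pp_012_a k3_pp_012_a

theorem s7_pp_012_a : ∃ t, chk3 f_pp_012_a t 2 1 1 = true := ex3_b k0_pp_012_a s6_pp_012_a

theorem s8_pp_012_a : ∃ t, chk3 f_pp_012_a t 1 1 1 = true := ex3_a s7_pp_012_a k4_pp_012_a

theorem c_pp_012_a : CertB 0 536870912 0 536870912 991146299 28908434 3 eng mog cd3q0 cd1q2a pd1 false true true .pnp 0 1 2
    ndB3q0 ndB1q2a pcB1 Cut.none xt_pp_012_a :=
  certB0 (fam := false) (s1 := true) (s2 := true) (a := 0) (b := 1) (c := 2) (cn := .pnp) (n1 := ndB3q0) (n2 := ndB1q2a) (pc := pcB1) (cut := Cut.none) (xt := xt_pp_012_a) (P1 := 0) (W1 := 536870912) (P2 := 0) (W2 := 536870912) (P3 := 991146299) (W3 := 28908434) (N0 := 3) (En := eng) (mo := mog) (C1 := cd3q0) (C2 := cd1q2a) (C3 := pd1)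
    rfl s8_pp_012_a

noncomputable def f_pp_012_b : ℕ → ℕ → ℕ → ℕ → Bool := onCell 0 536870912 536870912 536870912 991146299 28908434
    (rowB 3 eng mog cd3q0 cd1q2b pd1 1 false true true .pnp 0 1 2 (qsf 0 536870912 1239849684 370763052 1) ndB3q0 ndB1q2b pcB1 Cut.none Ext.none)

def k0_pp_012_b : ∃ t, chk3 f_pp_012_b t 1 1 1 = true :=
  ⟨(a (b (l 1) (a (l 1) (b (l 1) (a (b (l 1) (b (l 490195065591) (c (l 16187968) (l 16246168)))) (b (a (l 15939344) (l 15751560)) (a (l 348460630919) (l 15570856))))))) (b (a (l 1) (b (l 1) (a (b (l 1) (l 387650807895)) (b (l 14851240) (l 14777592))))) (b (a (a (b (l 1) (a (l 15569240) (l 15395648))) (b (l 463349412727) (l 14935936))) (a (b (l 14907248) (l 14859720)) (b (l 14710232) (l 14632472)))) (a (b (a (a (l 15582624) (l 15385496)) (l 15105608)) (a (a (l 15549880) (l 15323816)) (l 15014552))) (b (a (l 14783880) (l 14526104)) (a (l 14658520) (l 14371696))))))), by decide +kernel⟩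

theorem c_pp_012_b : CertB 0 536870912 1239849684 370763052 991146299 28908434 3 eng mog cd3q0 cd1q2b pd1 false true true .pnp 0 1 2
    ndB3q0 ndB1q2b pcB1 Cut.none Ext.none :=
  certB1 (fam := false) (s1 := true) (s2 := true) (a := 0) (b := 1) (c := 2) (cn := .pnp) (n1 := ndB3q0) (n2 := ndB1q2b) (pc := pcB1) (cut := Cut.none) (xt := Ext.none) (P1 := 0) (W1 := 536870912) (P2 := 1239849684) (W2 := 370763052) (P3 := 991146299) (W3 := 28908434) (N0 := 3) (En := eng) (mo := mog) (C1 := cd3q0) (C2 := cd1q2b) (C3 := pd1)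
    rfl (fun _ => rfl) k0_pp_012_b

noncomputable def f_pp_022_a : ℕ → ℕ → ℕ → ℕ → Bool := onCell 0 536870912 0 536870912 991146299 28908434
    (rowB 3 eng mog cd3q0 cd1q2a pd2 0 false true true .pp 0 2 2 (qsf 0 536870912 0 536870912 2) ndB3q0 ndB1q2a pcB2 Cut.none Ext.none)

def k0_pp_022_a : ∃ t, chk3 f_pp_022_a t 2 2 1 = true :=
  ⟨(a (b (a (a (c (a (l 16382632) (l 16510672)) (a (l 16298688) (l 16455288))) (a (a (l 16366448) (a (l 16359792) (l 16268632))) (c (a (l 16404368) (l 16412576)) (a (l 16538464) (l 16560064))))) (a (a (c (c (l 16340480) (l 16471528)) (c (l 16563776) (l 16487816))) (c (c (l 16326384) (l 16496280)) (b (l 16497744) (l 16445976)))) (c (b (l 16441816) (l 16334120)) (b (l 16510472) (l 16488864))))) (b (a (a (c (l 16285744) (l 16215680)) (a (a (l 16425680) (c (l 16370112) (l 16534288))) (a (c (l 16407040) (l 16549808)) (c (l 16411432) (l 16573824))))) (a (a (c (c (l 16373952) (l 16466008)) (l 16408920)) (c (c (l 16373128) (l 16481880)) (l 16354408)))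 (c (c (l 16336456) (l 16469256)) (l 16426568)))) (a (a (c (a (l 16425392) (l 16548144)) (a (l 16337336) (l 16469656))) (a (a (l 16294832) (a (l 16301112) (c (l 16410592) (l 16547944)))) (a (c (l 16368744) (l 16542904)) (c (l 16349880) (l 16543376))))) (a (a (c (c (l 16327552) (l 16403296)) (c (l 16545296) (l 16526776))) (c (c (l 16279936) (a (l 16479976) (l 16474144))) (b (l 16450520) (l 16415584)))) (c (c (l 16234160) (l 16391152)) (c (l 16552752) (l 16523184))))))) (a (a (b (c (c (l 16269736) (l 16483072)) (b (l 16528576) (l 16497104))) (b (c (c (l 16284456) (l 16452784)) (l 16444744)) (a (c (l 16160880) (l 16494480)) (l 1)))) (b (b (l 1) (l 1)) (l 1))) (l 1))), by decide +kernel⟩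

def k1_pp_022_a : ∃ t, chk3 f_pp_022_a t 2 6 1 = true :=
  ⟨(a (b (a (a (c (a (l 16355512) (l 16408808)) (a (l 16277968) (l 16394632))) (a (a (b (l 16383624) (l 16318504)) (c (a (l 16401728) (l 16341464)) (b (l 16514480) (l 16428312)))) (c (a (b (l 16406048) (l 16355504)) (b (l 16406528) (l 16354952))) (a (l 16399120) (l 16397424))))) (a (a (c (c (a (l 16355728) (l 16354176)) (a (l 16453136) (l 16460080))) (a (l 16395808) (b (l 16585592) (l 16516096)))) (c (a (b (l 16350728) (l 16295976)) (b (l 16401736) (l 16366408))) (a (b (l 16583720) (l 16513016)) (l 16478808)))) (b (c (a (l 16317256) (l 16246424)) (l 16422272)) (a (c (l 16216568) (l 16492392)) (l 1))))) (b (a (a (a (b (l 16305432) (l 16310320)) (b (l 16373416) (l 16348232))) (a (a (a (l 16365640) (l 16337344)) (a (l 16287688) (c (l 16385096) (l 16497800)))) (c (a (l 16277536) (l 16255016)) (a (l 16448304) (l 16445216))))) (a (a (c (a (l 16212744) (c (l 16327520) (l 16436744))) (a (l 16442104) (l 16439776)))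 (c (a (c (l 16323592) (l 16440904)) (l 16240944)) (a (l 16435592) (l 16477336)))) (a (a (c (l 16181384) (l 16453728)) (l 1)) (l 1)))) (a (a (c (c (l 16320984) (l 16411160)) (a (l 16432976) (l 16542488))) (a (a (b (l 16339256) (l 16307064)) (c (a (l 16383696) (l 16320688)) (a (l 16490128) (l 16457600)))) (c (a (c (l 16317456) (l 16401656)) (c (l 16310264) (l 16403960))) (c (a (l 16488760) (l 16500872)) (a (l 16578776) (l 16580024)))))) (a (a (c (a (c (l 16283648) (l 16407168)) (c (l 129418244679) (l 16390712))) (a (l 16378808) (b (l 16465848) (l 16431200)))) (a (c (c (l 297995669783) (l 286184763655)) (a (l 16431768) (l 16455992))) (l 1))) (l 1))))) (l 1)), by decide +kernel⟩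

def k2_pp_022_a : ∃ t, chk3 f_pp_022_a t 8 7 1 = true :=
  ⟨(b (b (a (a (c (l 16535624) (l 16470104)) (c (l 16299840) (l 16456752))) (a (a (c (l 16301056) (l 16459952)) (a (c (l 16310432) (l 16460416)) (c (c (l 16291920) (l 16369064)) (l 16405904)))) (c (c (a (a (l 16286776) (l 16282232)) (b (l 16285312) (l 194379592471))) (a (l 16306080) (l 171294320743))) (a (c (l 16436128) (l 16506208)) (c (l 16405608) (l 16506888)))))) (a (a (c (l 16401888) (l 16500064)) (c (c (l 16299848) (l 16396880)) (c (l 16453864) (l 16512728)))) (a (a (c (b (l 16355600) (l 16248008)) (l 16334776)) (c (a (b (l 16321112) (l 16212224)) (b (l 16172192) (c (l 314101776663) (l 16311192)))) (a (l 16311888) (b (l 16436704) (l 16326584))))) (b (c (a (a (l 207801339879) (l 264172770503)) (c (l 333429106343) (l 320544404871))) (a (a (l 16445264) (l 16411536)) (l 303901551735))) (a (a (a (c (l 357051414087) (l 16417000)) (l 1)) (l 1)) (l 1)))))) (b (a (a (c (b (l 16455184) (a (l 16528728) (l 16520152)))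 (a (l 16509056) (l 16495872))) (c (b (a (l 16474776) (l 16317288)) (a (l 16342104) (b (l 16316480) (l 386042619303)))) (b (l 148745954039) (a (l 16506328) (l 346851282007))))) (b (a (a (c (c (l 325912980791) (l 16358480)) (l 16334968)) (l 1)) (l 1)) (l 1))) (a (b (b (a (a (c (l 16557592) (l 16626688)) (c (l 16497824) (l 16581424))) (a (a (l 16363032) (l 397317028055)) (l 1))) (a (a (l 16501040) (c (a (l 16504880) (l 16462976)) (l 16440120))) (l 1))) (a (a (c (b (l 16547600) (l 16476816)) (l 16519480)) (a (b (l 536366836007) (l 1)) (l 1))) (l 1))) (l 1)))), by decide +kernel⟩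

def k3_pp_022_a : ∃ t, chk3 f_pp_022_a t 9 7 1 = true :=
  ⟨(b (b (a (a (a (c (c (a (l 253435384439) (l 286184496423)) (l 252898696311)) (a (l 224444726039) (l 257730718087))) (a (b (c (l 318396764903) (l 16473264)) (l 1)) (l 1))) (l 1)) (l 1)) (l 1)) (l 1)), by decide +kernel⟩

def k4_pp_022_a : ∃ t, chk3 f_pp_022_a t 5 7 1 = true :=
  ⟨(l 1), by decide +kernel⟩

def k5_pp_022_a : ∃ t, chk3 f_pp_022_a t 3 1 1 = true :=
  ⟨(l 1), by decide +kernel⟩

theorem s6_pp_022_a : ∃ t, chk3 f_pp_022_a t 4 7 1 = true := ex3_a k2_pp_022_a k3_pp_022_a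

theorem s7_pp_022_a : ∃ t, chk3 f_pp_022_a t 2 7 1 = true := ex3_a s6_pp_022_a k4_pp_022_a

theorem s8_pp_022_a : ∃ t, chk3 f_pp_022_a t 2 3 1 = true := ex3_b k1_pp_022_a s7_pp_022_a

theorem s9_pp_022_a : ∃ t, chk3 f_pp_022_a t 2 1 1 = true := ex3_b k0_pp_022_a s8_pp_022_a

theorem s10_pp_022_a : ∃ t, chk3 f_pp_022_a t 1 1 1 = true := ex3_a s9_pp_022_a k5_pp_022_a

theorem c_pp_022_a : CertB 0 536870912 0 536870912 991146299 28908434 3 eng mog cd3q0 cd1q2a pd2 false true true .pp 0 2 2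
    ndB3q0 ndB1q2a pcB2 Cut.none Ext.none :=
  certB0 (fam := false) (s1 := true) (s2 := true) (a := 0) (b := 2) (c := 2) (cn := .pp) (n1 := ndB3q0) (n2 := ndB1q2a) (pc := pcB2) (cut := Cut.none) (xt := Ext.none) (P1 := 0) (W1 := 536870912) (P2 := 0) (W2 := 536870912) (P3 := 991146299) (W3 := 28908434) (N0 := 3) (En := eng) (mo := mog) (C1 := cd3q0) (C2 := cd1q2a) (C3 := pd2)
    rfl s10_pp_022_a

noncomputable def f_pp_022_b : ℕ → ℕ → ℕ → ℕ → Bool := onCell 0 536870912 1239849684 370763052 991146299 28908434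
    (rowB 3 eng mog cd3q0 cd1q2b pd2 0 false true true .pp 0 2 2 (qsf 0 536870912 1239849684 370763052 2) ndB3q0 ndB1q2b pcB2 Cut.none Ext.none)

def k0_pp_022_b : ∃ t, chk3 f_pp_022_b t 2 2 1 = true :=
  ⟨(a (b (b (a (a (c (l 16255072) (l 16193072)) (a (a (l 16209896) (c (l 16230312) (l 16388344))) (c (a (l 16294016) (l 16282408)) (a (l 16409872) (l 16439296))))) (a (a (c (c (l 16305840) (l 16375256)) (l 16253608)) (c (c (l 16315904) (l 16402952)) (l 16284816))) (c (l 16251640) (l 16316840)))) (a (a (c (l 16250976) (l 16212040)) (a (a (l 16162072) (l 15948208)) (c (l 16135120) (l 16104504)))) (a (a (c (l 16151472) (l 16217104)) (c (l 16165248) (l 16262480))) (c (l 16159968) (l 16303904))))) (a (a (b (c (l 16063720) (l 15927544)) (c (l 15881816) (l 15735688))) (a (a (b (l 15954560) (l 15754728)) (b (l 15931752) (l 15734496))) (c (l 15642920) (b (l 15922544) (l 15688136))))) (a (a (c (l 15819208) (l 15628608)) (b (l 15841616) (l 15773736))) (b (l 15896288) (l 15782312)))))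 (b (a (c (b (c (a (l 16278808) (l 16257576)) (a (l 16430080) (l 16451264))) (a (l 16154312) (l 16151640))) (b (a (l 16354312) (l 16371432)) (a (l 16368256) (l 16444056)))) (a (c (c (l 485899968087) (l 256119797223)) (b (l 16347704) (l 16530680))) (b (l 1) (c (l 16091544) (l 16585656))))) (a (b (c (l 15962520) (l 15907480)) (a (l 15800056) (l 15738448))) (b (c (a (l 15959488) (l 15953400)) (a (l 16228152) (l 16305712))) (a (c (l 15767560) (l 15929320)) (c (l 15744424) (l 15977120))))))), by decide +kernel⟩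

def k1_pp_022_b : ∃ t, chk3 f_pp_022_b t 2 3 1 = true :=
  ⟨(a (b (a (a (b (c (l 15705400) (l 15510872)) (c (l 15536064) (l 15297152))) (a (b (a (l 15562664) (l 15545216)) (a (l 15383896) (l 15374224))) (b (l 15546384) (c (l 15488776) (l 15275456))))) (a (b (a (l 15557344) (l 15567064)) (a (b (l 15421896) (l 15384936)) (l 15282448))) (b (l 15580072) (l 15455792)))) (a (a (b (b (c (l 15441016) (l 15180296)) (l 15321664)) (c (l 15508464) (l 15288256))) (a (b (c (l 15461560) (l 15222208)) (c (l 15547432) (l 15337560))) (b (l 15370888) (l 15422184)))) (a (b (a (l 15399104) (l 15422016)) (c (l 15578112) (l 15395080))) (b (l 15440528) (l 15502216))))) (b (a (b (a (l 15600608) (l 15623016)) (a (l 15479176) (l 15484880))) (b (a (l 15619272) (l 15604960)) (a (l 15473776) (l 15447048)))) (a (b (a (l 15448768) (l 15439760)) (c (l 15553672) (l 15421824))) (b (l 15249424) (l 15224040))))), by decide +kernel⟩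

def k2_pp_022_b : ∃ t, chk3 f_pp_022_b t 3 1 1 = true :=
  ⟨(b (a (b (l 1) (b (a (c (a (l 15814736) (l 15651776)) (a (l 16296624) (b (l 1) (l 16308088)))) (l 1)) (a (c (l 15467336) (a (l 15987776) (l 15993600))) (c (l 467645072743) (b (l 1) (l 15890112)))))) (l 1)) (a (b (a (b (c (l 15453384) (l 15621928)) (c (l 15325904) (l 15434160))) (b (c (l 15288232) (l 15625688)) (c (l 15142840) (l 15358656)))) (a (b (a (l 15319824) (l 15253264)) (l 15277624)) (b (c (l 15071568) (l 15188392)) (l 15075184)))) (a (b (b (l 1) (c (l 14933952) (l 15266232))) (b (c (l 14838608) (l 15052280)) (c (l 14817448) (l 14934736)))) (b (l 1) (b (c (l 14604552) (l 14926080)) (c (l 14551528) (l 14756352))))))), by decide +kernel⟩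

theorem s3_pp_022_b : ∃ t, chk3 f_pp_022_b t 2 1 1 = true := ex3_b k0_pp_022_b k1_pp_022_b

theorem s4_pp_022_b : ∃ t, chk3 f_pp_022_b t 1 1 1 = true := ex3_a s3_pp_022_b k2_pp_022_b

theorem c_pp_022_b : CertB 0 536870912 1239849684 370763052 991146299 28908434 3 eng mog cd3q0 cd1q2b pd2 false true true .pp 0 2 2
    ndB3q0 ndB1q2b pcB2 Cut.none Ext.none :=
  certB0 (fam := false) (s1 := true) (s2 := true) (a := 0) (b := 2) (c := 2) (cn := .pp) (n1 := ndB3q0) (n2 := ndB1q2b) (pc := pcB2) (cut := Cut.none) (xt := Ext.none) (P1 := 0) (W1 := 536870912) (P2 := 1239849684) (W2 := 370763052) (P3 := 991146299) (W3 := 28908434) (N0 := 3) (En := eng) (mo := mog) (C1 := cd3q0) (C2 := cd1q2b) (C3 := pd2)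
    rfl s4_pp_022_b

noncomputable def f_pp_023 : ℕ → ℕ → ℕ → ℕ → Bool := onCell 1073741824 536870912 1610612736 536870912 991146299 28908434
    (rowB 3 eng mog cd3q0 cd1q3 pd2 2 false true true .up 0 2 3 (qsf 0 536870912 1610612736 536870912 2) ndB3q0 ndB1q3 pcB2 Cut.none Ext.none)

def k0_pp_023 : ∃ t, chk3 f_pp_023 t 1 1 1 = true :=
  ⟨(a (a (b (b (a (b (l 14409408) (l 14233552)) (b (l 14672016) (l 14536888))) (a (l 2) (b (l 14480304) (l 2)))) (l 2)) (b (b (a (b (l 14932136) (l 14852440)) (b (l 15161776) (l 15148856))) (a (b (l 14841592) (l 14900440)) (b (l 15193776) (l 15297104)))) (b (a (l 2) (b (l 15451864) (l 2))) (l 2)))) (b (a (b (a (b (l 15347912) (l 15411712)) (b (a (l 15454328) (l 15504520)) (l 15626856))) (a (b (l 15521808) (l 15655880)) (b (l 15699560) (l 15940968)))) (b (a (b (a (l 15537360) (b (a (l 15496720) (b (l 15463352) (l 15526904))) (l 15617632))) (l 15777952)) (b (a (a (b (b (l 15454544) (l 15523376)) (l 15626528)) (b (b (b (l 15422296) (l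 15461528)) (l 15517664)) (l 15396128))) (b (a (b (b (l 15396216) (a (l 15448808) (l 15434776))) (b (l 15486384) (l 15528296))) (b (l 15383760) (b (l 15458384) (a (l 15516136) (l 15500616))))) (b (a (l 15587344) (b (l 15556712) (l 15601048))) (a (l 15663392) (l 15662560))))) (a (l 15844600) (b (b (l 15741992) (l 15823344)) (l 15948056))))) (b (a (a (l 15973392) (l 16053064)) (b (l 16087264) (l 4))) (l 4)))) (a (b (l 4) (l 4)) (l 4)))), by decide +kernel⟩

theorem c_pp_023 : CertB 0 536870912 1610612736 536870912 991146299 28908434 3 eng mog cd3q0 cd1q3 pd2 false true true .up 0 2 3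
    ndB3q0 ndB1q3 pcB2 Cut.none Ext.none :=
  certB2 (fam := false) (s1 := true) (s2 := true) (a := 0) (b := 2) (c := 3) (cn := .up) (n1 := ndB3q0) (n2 := ndB1q3) (pc := pcB2) (cut := Cut.none) (xt := Ext.none) (P1 := 0) (W1 := 536870912) (P2 := 1610612736) (W2 := 536870912) (P3 := 991146299) (W3 := 28908434) (N0 := 3) (En := eng) (mo := mog) (C1 := cd3q0) (C2 := cd1q3) (C3 := pd2)
    rfl (fun _ => rfl) k0_pp_023

noncomputable def f_pp_033 : ℕ → ℕ → ℕ → ℕ → Bool := onCell 0 536870912 1610612736 536870912 991146299 28908434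
    (rowB 3 eng mog cd3q0 cd1q3 pd3 0 false true true .pnn 0 3 3 (qsf 0 536870912 1610612736 536870912 3) ndB3q0 ndB1q3 pcB3 Cut.none Ext.none)

def k0_pp_033 : ∃ t, chk3 f_pp_033 t 1 1 1 = true :=
  ⟨(a (b (b (a (a (b (a (l 15730696) (a (l 15936472) (l 15946568))) (a (b (l 15553936) (l 15433280)) (a (l 15775616) (l 15860776)))) (a (b (l 484288953847) (l 15744312)) (b (l 1) (l 16025552)))) (b (l 1) (a (l 521333164695) (l 1)))) (b (b (a (a (a (l 15312592) (a (l 15631448) (l 15725328))) (a (l 15809224) (l 15977656))) (a (l 16118352) (l 1))) (a (l 4) (a (l 4) (l 16144408)))) (l 4))) (l 4)) (b (a (b (l 1) (b (l 1) (a (l 4) (l 1)))) (l 1)) (b (a (l 4) (l 4)) (l 4)))), by decide +kernel⟩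

theorem c_pp_033 : CertB 0 536870912 1610612736 536870912 991146299 28908434 3 eng mog cd3q0 cd1q3 pd3 false true true .pnn 0 3 3
    ndB3q0 ndB1q3 pcB3 Cut.none Ext.none :=
  certB0 (fam := false) (s1 := true) (s2 := true) (a := 0) (b := 3) (c := 3) (cn := .pnn) (n1 := ndB3q0) (n2 := ndB1q3) (pc := pcB3) (cut := Cut.none) (xt := Ext.none) (P1 := 0) (W1 := 536870912) (P2 := 1610612736) (W2 := 536870912) (P3 := 991146299) (W3 := 28908434) (N0 := 3) (En := eng) (mo := mog) (C1 := cd3q0) (C2 := cd1q3) (C3 := pd3)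
    rfl k0_pp_033

noncomputable def f_pp_101 : ℕ → ℕ → ℕ → ℕ → Bool := onCell 536870912 536870912 536870912 536870912 991146299 28908434
    (rowB 3 eng mog cd3q1 cd1q1 pd0 0 false true true .npn 1 0 1 (qsf 536870912 536870912 536870912 536870912 0) ndB3q1 ndB1q1 pcB0 Cut.none Ext.none)

def k0_pp_101 : ∃ t, chk3 f_pp_101 t 1 1 1 = true :=
  ⟨(l 3), by decide +kernel⟩

theorem c_pp_101 : CertB 536870912 536870912 536870912 536870912 991146299 28908434 3 eng mog cd3q1 cd1q1 pd0 false true true .npn 1 0 1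
    ndB3q1 ndB1q1 pcB0 Cut.none Ext.none :=
  certB0 (fam := false) (s1 := true) (s2 := true) (a := 1) (b := 0) (c := 1) (cn := .npn) (n1 := ndB3q1) (n2 := ndB1q1) (pc := pcB0) (cut := Cut.none) (xt := Ext.none) (P1 := 536870912) (W1 := 536870912) (P2 := 536870912) (W2 := 536870912) (P3 := 991146299) (W3 := 28908434) (N0 := 3) (En := eng) (mo := mog) (C1 := cd3q1) (C2 := cd1q1) (C3 := pd0)
    rfl k0_pp_101

noncomputable def cut_pp_102_a : Cut := Cut.of [[⟨0, 1, 0, 53687091⟩, ⟨1, 0, 0, 53687091⟩, ⟨2, 1, 0, 53687091⟩]]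

noncomputable def xt_pp_102_a : Ext := extD3 3 ⟨4, 1, 1, 5, 22, 5, 21, 25, 41, 100, 1, 20⟩ eng cd3q1 cd1q2a pd0 false true true .npp 1 0 2 rfl ndB3q1 ndB1q2a pcB0

noncomputable def f_pp_102_a : ℕ → ℕ → ℕ → ℕ → Bool := onCell 0 536870912 0 536870912 991146299 28908434
    (rowB 3 eng mog cd3q1 cd1q2a pd0 2 false true true .npp 1 0 2 (qsf 536870912 536870912 0 536870912 0) ndB3q1 ndB1q2a pcB0 cut_pp_102_a xt_pp_102_a)

def k0_pp_102_a : ∃ t, chk3 f_pp_102_a t 2 2 1 = true :=
  ⟨(b (a (l 2) (a (a (c (l 14741656) (l 14749680)) (l 14751328)) (a (a (l 14853184) (l 14877608)) (b (l 14870912) (c (l 14886648) (l 14959776)))))) (a (a (l 2) (a (l 2) (b (l 2) (b (l 2) (a (l 2) (a (l 2) (l 15206008))))))) (a (b (a (a (l 14943344) (l 14971376)) (b (l 14932144) (a (l 15030464) (l 15054400)))) (a (b (c (l 15081728) (l 15116864)) (l 15256432)) (c (l 15259296) (l 15246976)))) (b (a (b (b (l 14944840) (l 15012096)) (l 15109744)) (l 15116288)) (c (a (l 15337616) (l 15413056)) (l 15180576)))))),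 by decide +kernel⟩

def k1_pp_102_a : ∃ t, chk3 f_pp_102_a t 4 3 1 = true :=
  ⟨(b (a (l 2) (b (a (l 2) (a (b (l 15324640) (l 15506616)) (b (l 15365608) (l 15543688)))) (a (a (b (l 2) (a (l 2) (l 15852808))) (b (a (l 15650312) (l 15671224)) (b (l 15814872) (l 15921496)))) (b (a (l 15698752) (l 15732968)) (a (l 135403515139276911) (b (l 15881704) (l 15986208))))))) (a (b (a (l 2) (b (a (l 2) (a (l 2) (b (l 2) (l 16067032)))) (b (a (l 2) (a (b (l 16133584) (l 16199640)) (l 16193680))) (a (l 6) (a (b (l 16266480) (l 16333376)) (l 138985656156651631)))))) (a (l 6) (a (l 6) (b (b (a (l 139613477499650159) (l 16396928)) (b (l 141169905062576239) (l 141499346323030127))) (b (b (l 141678772968390767) (l 141737115809480751)) (b (l 142423967076466735) (b (l 16637192) (l 142486708055425071)))))))) (b (a (a (b (b (c (l 16005328) (l 15969424)) (a (l 16093584) (l 16116376))) (a (b (l 16153720) (l 139311936247349359)) (b (l 138571964729507951) (l 139849459994083439)))) (b (a (l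 136219971604168815) (b (l 16039120) (l 16150848))) (b (c (l 138680197958844527) (l 138454385661722735)) (l 139924158054301743)))) (b (a (b (l 136839134058709103) (l 137803131063844911)) (b (l 15951824) (l 16156888))) (c (l 138297774130724911) (l 137788356589404207)))) (b (b (a (a (l 140221163816812655) (l 140444295941750831)) (a (l 140668527580250159) (l 16369000))) (a (a (l 140833110931914799) (l 140345752386945071)) (c (a (l 16472328) (l 16460464)) (a (l 16467472) (l 16483416))))) (a (b (b (a (l 141374964140392495) (l 141452136091779119)) (l 141332289338703919)) (a (b (l 16588040) (l 142140224379781167)) (b (l 16575880) (l 16599064)))) (b (b (l 16496160) (l 16517168)) (b (l 16528208) (b (l 16591808) (l 16557016))))))))), by decide +kernel⟩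

def k2_pp_102_a : ∃ t, chk3 f_pp_102_a t 5 3 1 = true :=
  ⟨(b (a (b (a (b (l 15231432) (l 131931737824575535)) (c (l 15604352) (l 15539088))) (c (a (b (l 15815080) (a (l 15999536) (l 16012664))) (b (b (l 15839384) (l 15924840)) (l 16016544))) (a (b (l 15743440) (a (l 15919992) (l 15926984))) (b (l 15784920) (l 15934648))))) (b (b (a (l 15547296) (l 15604040)) (a (c (l 15768120) (l 15661304)) (c (l 15812352) (l 15688448)))) (a (b (c (l 15907184) (l 15801400)) (c (l 16018856) (l 15950040))) (c (l 15969816) (l 15894000))))) (a (b (a (b (c (l 16144976) (l 16089472)) (c (l 16250920) (b (l 16214496) (l 16301392)))) (c (b (l 16135496) (l 16257144)) (b (l 16094760) (l 16259728)))) (b (a (a (b (l 16384056) (l 16358816)) (b (l 16316328) (l 16415096))) (b (c (l 16354464) (l 16387448)) (l 16405880))) (a (b (l 16436848) (b (l 16540384) (l 16506168))) (b (l 16463992) (l 16435880))))) (b (b (a (c (l 16127608) (l 16101832)) (l 16052744)) (a (c (l 16244800) (l 16221904)) (c (l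 16233704) (l 16246280)))) (a (b (c (l 16269816) (l 16368064)) (b (l 16471776) (l 16410200))) (b (c (l 16363328) (l 16418272)) (b (l 16480560) (l 16383920))))))), by decide +kernel⟩

def k3_pp_102_a : ∃ t, chk3 f_pp_102_a t 3 1 1 = true :=
  ⟨(b (a (b (a (b (a (l 14895920) (l 14916640)) (a (b (l 14924320) (l 15008848)) (l 15027984))) (b (c (l 14753144) (l 15013936)) (c (l 15135952) (l 15133792)))) (a (b (c (l 15231688) (l 15201544)) (c (l 15312048) (l 15421584))) (b (c (l 15385192) (l 15307504)) (c (b (l 15592464) (l 15712416)) (a (l 15493504) (l 15532576)))))) (b (a (c (l 15197040) (l 15189472)) (c (l 15370064) (l 15322048))) (a (b (c (l 15535960) (l 15414016)) (c (l 15673288) (l 15588512))) (b (c (l 15679776) (l 15529432)) (c (l 15812056) (l 15679448)))))) (a (b (a (b (a (c (b (l 15724368) (l 15834736)) (l 15649320)) (b (l 15691440) (l 15795168))) (c (a (l 15972280) (l 15976496)) (a (l 15910184) (l 15927752)))) (b (c (l 15830680) (l 15489280)) (c (l 15986160) (l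 15788664)))) (b (a (c (b (l 16114368) (a (l 16223592) (l 16214904))) (b (l 16123840) (a (l 16269056) (l 16270040)))) (b (c (l 16109888) (l 16143648)) (c (l 16080376) (a (l 16270840) (l 16271992))))) (a (b (a (l 16340624) (l 16375504)) (a (b (l 16489776) (l 16357584)) (l 16205872))) (b (a (l 16368640) (l 16361552)) (a (l 16161272) (l 16117912)))))) (b (a (b (c (l 15872128) (l 15785992)) (c (l 16004584) (l 15997608))) (b (c (l 15916808) (l 15854816)) (c (l 16029096) (l 16041448)))) (b (a (b (c (l 16112584) (l 16166792)) (c (l 16157504) (l 16274248))) (b (c (l 16119344) (l 16187712)) (l 16238304))) (a (b (a (l 16353808) (l 16345000)) (a (l 16097240) (l 16057728))) (b (l 16119448) (a (a (l 16176640) (l 16158856)) (l 16007672)))))))), by decide +kernel⟩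

theorem s4_pp_102_a : ∃ t, chk3 f_pp_102_a t 2 3 1 = true := ex3_a k1_pp_102_a k2_pp_102_a

theorem s5_pp_102_a : ∃ t, chk3 f_pp_102_a t 2 1 1 = true := ex3_b k0_pp_102_a s4_pp_102_a

theorem s6_pp_102_a : ∃ t, chk3 f_pp_102_a t 1 1 1 = true := ex3_a s5_pp_102_a k3_pp_102_a

theorem c_pp_102_a : CertB 536870912 536870912 0 536870912 991146299 28908434 3 eng mog cd3q1 cd1q2a pd0 false true true .npp 1 0 2
    ndB3q1 ndB1q2a pcB0 cut_pp_102_a xt_pp_102_a :=
  certB2 (fam := false) (s1 := true) (s2 := true) (a := 1) (b := 0) (c := 2) (cn := .npp) (n1 := ndB3q1) (n2 := ndB1q2a) (pc := pcB0) (cut := cut_pp_102_a) (xt := xt_pp_102_a) (P1 := 536870912) (W1 := 536870912) (P2 := 0) (W2 := 536870912) (P3 := 991146299) (W3 := 28908434) (N0 := 3) (En := eng) (mo := mog) (C1 := cd3q1) (C2 := cd1q2a) (C3 := pd0)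
    rfl (fun _ => rfl) s6_pp_102_a

noncomputable def cut_pp_102_b : Cut := Cut.of [[⟨0, 1, 0, 53687091⟩, ⟨1, 0, 0, 53687091⟩, ⟨2, 1, 0, 53687091⟩]]

noncomputable def f_pp_102_b : ℕ → ℕ → ℕ → ℕ → Bool := onCell 0 536870912 1239849684 370763052 991146299 28908434
    (rowB 3 eng mog cd3q1 cd1q2b pd0 2 false true true .npp 1 0 2 (qsf 536870912 536870912 1239849684 370763052 0) ndB3q1 ndB1q2b pcB0 cut_pp_102_b Ext.none)

def k0_pp_102_b : ∃ t, chk3 f_pp_102_b t 1 1 1 = true :=
  ⟨(a (b (a (l 2) (a (b (b (a (l 14475248) (l 14572064)) (l 2)) (l 2)) (b (a (c (l 14485368) (l 14511152)) (l 14566664)) (a (l 2) (l 13934752))))) (l 2)) (a (a (b (b (a (l 14619640) (l 14656208)) (a (l 14014328) (l 14080552))) (l 2)) (b (b (a (l 14676232) (l 14687328)) (a (l 14133152) (l 14171968))) (b (a (l 13527912) (l 13599384)) (l 2)))) (b (a (b (a (l 14744928) (l 14834808)) (a (l 14227952) (l 14331104))) (b (c (l 14965312) (l 14990224)) (l 14504664))) (a (b (a (l 13669408) (l 13784464))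 (a (l 2) (l 13202928))) (b (l 13987496) (l 13434320)))))), by decide +kernel⟩

theorem c_pp_102_b : CertB 536870912 536870912 1239849684 370763052 991146299 28908434 3 eng mog cd3q1 cd1q2b pd0 false true true .npp 1 0 2
    ndB3q1 ndB1q2b pcB0 cut_pp_102_b Ext.none :=
  certB2 (fam := false) (s1 := true) (s2 := true) (a := 1) (b := 0) (c := 2) (cn := .npp) (n1 := ndB3q1) (n2 := ndB1q2b) (pc := pcB0) (cut := cut_pp_102_b) (xt := Ext.none) (P1 := 536870912) (W1 := 536870912) (P2 := 1239849684) (W2 := 370763052) (P3 := 991146299) (W3 := 28908434) (N0 := 3) (En := eng) (mo := mog) (C1 := cd3q1) (C2 := cd1q2b) (C3 := pd0)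
    rfl (fun _ => rfl) k0_pp_102_b

noncomputable def f_pp_112_a : ℕ → ℕ → ℕ → ℕ → Bool := onCell 536870912 536870912 0 536870912 991146299 28908434
    (rowB 3 eng mog cd3q1 cd1q2a pd1 2 false true true .dn 1 1 2 (qsf 536870912 536870912 0 536870912 1) ndB3q1 ndB1q2a pcB1 Cut.none Ext.none)

def k0_pp_112_a : ∃ t, chk3 f_pp_112_a t 1 1 1 = true :=
  ⟨(a (b (a (b (a (c (l 15184632) (l 15198776)) (a (l 15221936) (l 15253240))) (a (b (a (b (l 15027312) (l 15109328)) (l 15169152)) (a (l 15451440) (l 15560552))) (b (a (l 15270624) (l 15377512)) (l 15689800)))) (a (a (b (l 15291080) (l 15625696)) (b (l 15271384) (l 1))) (l 1))) (a (b (a (b (a (l 15924592) (l 15996616)) (b (l 16305344) (l 16314120))) (b (l 23117081847) (b (l 16345880) (l 16289912)))) (b (a (b (a (l 15843232) (l 15938160)) (l 15977232)) (b (b (l 16075704) (l 16053088)) (l 1))) (a (a (b (l 15984968) (b (l 15964240) (l 15944832))) (c (l 742524181799) (l 770978180743))) (l 1)))) (b (l 1) (l 1)))) (l 1)), by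 decide +kernel⟩

theorem c_pp_112_a : CertB 536870912 536870912 0 536870912 991146299 28908434 3 eng mog cd3q1 cd1q2a pd1 false true true .dn 1 1 2
    ndB3q1 ndB1q2a pcB1 Cut.none Ext.none :=
  certB2 (fam := false) (s1 := true) (s2 := true) (a := 1) (b := 1) (c := 2) (cn := .dn) (n1 := ndB3q1) (n2 := ndB1q2a) (pc := pcB1) (cut := Cut.none) (xt := Ext.none) (P1 := 536870912) (W1 := 536870912) (P2 := 0) (W2 := 536870912) (P3 := 991146299) (W3 := 28908434) (N0 := 3) (En := eng) (mo := mog) (C1 := cd3q1) (C2 := cd1q2a) (C3 := pd1)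
    rfl (fun _ => rfl) k0_pp_112_a

noncomputable def f_pp_112_b : ℕ → ℕ → ℕ → ℕ → Bool := onCell 536870912 536870912 1239849684 370763052 991146299 28908434
    (rowB 3 eng mog cd3q1 cd1q2b pd1 2 false true true .dn 1 1 2 (qsf 536870912 536870912 1239849684 370763052 1) ndB3q1 ndB1q2b pcB1 Cut.none Ext.none)

def k0_pp_112_b : ∃ t, chk3 f_pp_112_b t 1 1 1 = true :=
  ⟨(a (a (b (b (a (l 15191680) (l 15220600)) (a (l 14865392) (l 14944360))) (a (b (l 14462000) (l 13988736)) (b (l 14594736) (l 14178992)))) (b (b (a (l 15253720) (l 15298760)) (a (l 15015896) (l 15086144))) (b (a (l 14709232) (l 14809584)) (l 14372816)))) (a (b (b (l 1) (a (l 15159960) (l 15240576))) (b (a (l 14899496) (l 14981656)) (l 14639496))) (b (l 1) (b (a (l 15056832) (l 1)) (l 146057933927))))), by decide +kernel⟩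

theorem c_pp_112_b : CertB 536870912 536870912 1239849684 370763052 991146299 28908434 3 eng mog cd3q1 cd1q2b pd1 false true true .dn 1 1 2
    ndB3q1 ndB1q2b pcB1 Cut.none Ext.none :=
  certB2 (fam := false) (s1 := true) (s2 := true) (a := 1) (b := 1) (c := 2) (cn := .dn) (n1 := ndB3q1) (n2 := ndB1q2b) (pc := pcB1) (cut := Cut.none) (xt := Ext.none) (P1 := 536870912) (W1 := 536870912) (P2 := 1239849684) (W2 := 370763052) (P3 := 991146299) (W3 := 28908434) (N0 := 3) (En := eng) (mo := mog) (C1 := cd3q1) (C2 := cd1q2b) (C3 := pd1)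
    rfl (fun _ => rfl) k0_pp_112_b

noncomputable def f_pp_113 : ℕ → ℕ → ℕ → ℕ → Bool := onCell 536870912 536870912 1610612736 536870912 991146299 28908434
    (rowB 3 eng mog cd3q1 cd1q3 pd1 2 false true true .nn 1 1 3 (qsf 536870912 536870912 1610612736 536870912 1) ndB3q1 ndB1q3 pcB1 Cut.none Ext.none)

def k0_pp_113 : ∃ t, chk3 f_pp_113 t 1 1 1 = true :=
  ⟨(a (b (a (b (a (l 13421040) (l 13665224)) (b (l 12940856) (l 2))) (b (a (l 13872992) (l 14041456)) (a (l 13196552) (l 13466104)))) (b (a (l 2) (a (l 2) (l 12889232))) (l 2))) (b (a (b (b (l 14333328) (l 14098208)) (a (l 13681968) (l 13824824))) (b (b (l 14409504) (l 14176256)) (a (l 13881752) (l 13854192)))) (a (b (l 13473144) (b (l 13597592) (l 2))) (b (l 13845408) (a (l 15999432) (l 16879080)))))), by decide +kernel⟩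

theorem c_pp_113 : CertB 536870912 536870912 1610612736 536870912 991146299 28908434 3 eng mog cd3q1 cd1q3 pd1 false true true .nn 1 1 3
    ndB3q1 ndB1q3 pcB1 Cut.none Ext.none :=
  certB2 (fam := false) (s1 := true) (s2 := true) (a := 1) (b := 1) (c := 3) (cn := .nn) (n1 := ndB3q1) (n2 := ndB1q3) (pc := pcB1) (cut := Cut.none) (xt := Ext.none) (P1 := 536870912) (W1 := 536870912) (P2 := 1610612736) (W2 := 536870912) (P3 := 991146299) (W3 := 28908434) (N0 := 3) (En := eng) (mo := mog) (C1 := cd3q1) (C2 := cd1q3) (C3 := pd1)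
    rfl (fun _ => rfl) k0_pp_113

noncomputable def f_pp_123 : ℕ → ℕ → ℕ → ℕ → Bool := onCell 1073741824 536870912 1610612736 536870912 991146299 28908434
    (rowB 3 eng mog cd3q1 cd1q3 pd2 2 false true true .npn 1 2 3 (qsf 536870912 536870912 1610612736 536870912 2) ndB3q1 ndB1q3 pcB2 Cut.none Ext.none)

def k0_pp_123 : ∃ t, chk3 f_pp_123 t 1 1 1 = true :=
  ⟨(a (a (b (a (b (b (l 14816480) (l 14563032)) (b (l 14337176) (l 14164536))) (b (b (l 14974720) (l 14819384)) (b (l 14689720) (l 14606872)))) (b (a (a (l 14005808) (l 14267120)) (a (l 14536752) (l 14793576))) (a (b (l 15446800) (l 16744680)) (b (l 15248088) (l 4))))) (b (a (b (l 632463587239) (l 597566801959)) (b (l 1) (l 618505387911))) (b (a (a (l 15025504) (l 15234352)) (b (l 15428736) (l 4))) (l 4)))) (b (a (b (l 1) (a (b (l 1) (l 15635440)) (l 1))) (l 1)) (a (b (l 4) (l 4)) (l 4)))), by decide +kernel⟩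

theorem c_pp_123 : CertB 536870912 536870912 1610612736 536870912 991146299 28908434 3 eng mog cd3q1 cd1q3 pd2 false true true .npn 1 2 3
    ndB3q1 ndB1q3 pcB2 Cut.none Ext.none :=
  certB2 (fam := false) (s1 := true) (s2 := true) (a := 1) (b := 2) (c := 3) (cn := .npn) (n1 := ndB3q1) (n2 := ndB1q3) (pc := pcB2) (cut := Cut.none) (xt := Ext.none) (P1 := 536870912) (W1 := 536870912) (P2 := 1610612736) (W2 := 536870912) (P3 := 991146299) (W3 := 28908434) (N0 := 3) (En := eng) (mo := mog) (C1 := cd3q1) (C2 := cd1q3) (C3 := pd2)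
    rfl (fun _ => rfl) k0_pp_123

noncomputable def f_pp_133 : ℕ → ℕ → ℕ → ℕ → Bool := onCell 1610612736 536870912 1610612736 536870912 991146299 28908434
    (rowB 3 eng mog cd3q1 cd1q3 pd3 2 false true true .dn 1 3 3 (qsf 536870912 536870912 1610612736 536870912 3) ndB3q1 ndB1q3 pcB3 Cut.none Ext.none)

def k0_pp_133 : ∃ t, chk3 f_pp_133 t 1 1 1 = true :=
  ⟨(a (b (l 1) (l 4)) (l 1)), by decide +kernel⟩

theorem c_pp_133 : CertB 536870912 536870912 1610612736 536870912 991146299 28908434 3 eng mog cd3q1 cd1q3 pd3 false true true .dn 1 3 3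
    ndB3q1 ndB1q3 pcB3 Cut.none Ext.none :=
  certB2 (fam := false) (s1 := true) (s2 := true) (a := 1) (b := 3) (c := 3) (cn := .dn) (n1 := ndB3q1) (n2 := ndB1q3) (pc := pcB3) (cut := Cut.none) (xt := Ext.none) (P1 := 536870912) (W1 := 536870912) (P2 := 1610612736) (W2 := 536870912) (P3 := 991146299) (W3 := 28908434) (N0 := 3) (En := eng) (mo := mog) (C1 := cd3q1) (C2 := cd1q3) (C3 := pd3)
    rfl (fun _ => rfl) k0_pp_133

noncomputable def f_pp_202_a : ℕ → ℕ → ℕ → ℕ → Bool := onCell 1073741824 536870912 0 536870912 991146299 28908434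
    (rowB 3 eng mog cd3q2 cd1q2a pd0 0 false true true .pp 2 0 2 (qsf 1073741824 536870912 0 536870912 0) ndB3q2 ndB1q2a pcB0 Cut.none Ext.none)

def k0_pp_202_a : ∃ t, chk3 f_pp_202_a t 1 1 1 = true :=
  ⟨(l 3), by decide +kernel⟩

theorem c_pp_202_a : CertB 1073741824 536870912 0 536870912 991146299 28908434 3 eng mog cd3q2 cd1q2a pd0 false true true .pp 2 0 2
    ndB3q2 ndB1q2a pcB0 Cut.none Ext.none :=
  certB0 (fam := false) (s1 := true) (s2 := true) (a := 2) (b := 0) (c := 2) (cn := .pp) (n1 := ndB3q2) (n2 := ndB1q2a) (pc := pcB0) (cut := Cut.none) (xt := Ext.none) (P1 := 1073741824) (W1 := 536870912) (P2 := 0) (W2 := 536870912) (P3 := 991146299) (W3 := 28908434) (N0 := 3) (En := eng) (mo := mog) (C1 := cd3q2) (C2 := cd1q2a) (C3 := pd0)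
    rfl k0_pp_202_a

noncomputable def f_pp_202_b : ℕ → ℕ → ℕ → ℕ → Bool := onCell 1073741824 536870912 1239849684 370763052 991146299 28908434
    (rowB 3 eng mog cd3q2 cd1q2b pd0 0 false true true .pp 2 0 2 (qsf 1073741824 536870912 1239849684 370763052 0) ndB3q2 ndB1q2b pcB0 Cut.none Ext.none)

def k0_pp_202_b : ∃ t, chk3 f_pp_202_b t 1 1 1 = true :=
  ⟨(l 3), by decide +kernel⟩

theorem c_pp_202_b : CertB 1073741824 536870912 1239849684 370763052 991146299 28908434 3 eng mog cd3q2 cd1q2b pd0 false true true .pp 2 0 2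
    ndB3q2 ndB1q2b pcB0 Cut.none Ext.none :=
  certB0 (fam := false) (s1 := true) (s2 := true) (a := 2) (b := 0) (c := 2) (cn := .pp) (n1 := ndB3q2) (n2 := ndB1q2b) (pc := pcB0) (cut := Cut.none) (xt := Ext.none) (P1 := 1073741824) (W1 := 536870912) (P2 := 1239849684) (W2 := 370763052) (P3 := 991146299) (W3 := 28908434) (N0 := 3) (En := eng) (mo := mog) (C1 := cd3q2) (C2 := cd1q2b) (C3 := pd0)
    rfl k0_pp_202_b

noncomputable def f_pp_203 : ℕ → ℕ → ℕ → ℕ → Bool := onCell 1073741824 536870912 0 536870912 991146299 28908434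
    (rowB 3 eng mog cd3q2 cd1q3 pd0 1 false true true .up 2 0 3 (qsf 1073741824 536870912 1610612736 536870912 0) ndB3q2 ndB1q3 pcB0 Cut.none Ext.none)

def k0_pp_203 : ∃ t, chk3 f_pp_203 t 1 1 1 = true :=
  ⟨(l 3), by decide +kernel⟩

theorem c_pp_203 : CertB 1073741824 536870912 1610612736 536870912 991146299 28908434 3 eng mog cd3q2 cd1q3 pd0 false true true .up 2 0 3
    ndB3q2 ndB1q3 pcB0 Cut.none Ext.none :=
  certB1 (fam := false) (s1 := true) (s2 := true) (a := 2) (b := 0) (c := 3) (cn := .up) (n1 := ndB3q2) (n2 := ndB1q3) (pc := pcB0) (cut := Cut.none) (xt := Ext.none) (P1 := 1073741824) (W1 := 536870912) (P2 := 1610612736) (W2 := 536870912) (P3 := 991146299) (W3 := 28908434) (N0 := 3) (En := eng) (mo := mog) (C1 := cd3q2) (C2 := cd1q3) (C3 := pd0)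
    rfl (fun _ => rfl) k0_pp_203

noncomputable def f_pp_213 : ℕ → ℕ → ℕ → ℕ → Bool := onCell 1073741824 536870912 1610612736 536870912 991146299 28908434
    (rowB 3 eng mog cd3q2 cd1q3 pd1 0 false true true .pnn 2 1 3 (qsf 1073741824 536870912 1610612736 536870912 1) ndB3q2 ndB1q3 pcB1 Cut.none Ext.none)

def k0_pp_213 : ∃ t, chk3 f_pp_213 t 1 1 1 = true :=
  ⟨(a (b (l 3) (b (l 3) (a (b (a (b (l 3) (a (b (l 3) (a (l 344301188823) (l 3))) (l 3))) (l 3)) (a (b (a (a (b (l 16507920) (l 16516824)) (b (l 16391176) (l 16554592))) (b (l 3) (l 298667019991))) (a (b (a (l 16530072) (l 16541336)) (a (l 16701080) (l 16552216))) (b (a (l 16540120) (l 16466184)) (a (l 16526304) (l 16530976))))) (b (l 3) (a (b (l 3) (l 16307448)) (l 3))))) (l 3)))) (l 3)), by decide +kernel⟩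

theorem c_pp_213 : CertB 1073741824 536870912 1610612736 536870912 991146299 28908434 3 eng mog cd3q2 cd1q3 pd1 false true true .pnn 2 1 3
    ndB3q2 ndB1q3 pcB1 Cut.none Ext.none :=
  certB0 (fam := false) (s1 := true) (s2 := true) (a := 2) (b := 1) (c := 3) (cn := .pnn) (n1 := ndB3q2) (n2 := ndB1q3) (pc := pcB1) (cut := Cut.none) (xt := Ext.none) (P1 := 1073741824) (W1 := 536870912) (P2 := 1610612736) (W2 := 536870912) (P3 := 991146299) (W3 := 28908434) (N0 := 3) (En := eng) (mo := mog) (C1 := cd3q2) (C2 := cd1q3) (C3 := pd1)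
    rfl k0_pp_213

noncomputable def f_pp_303 : ℕ → ℕ → ℕ → ℕ → Bool := onCell 0 1230186008 1610612736 536870912 991146299 28908434
    (rowB 3 eng mog cd3q3 cd1q3 pd0 0 false true true .npn 3 0 3 (qsf 0 1230186008 1610612736 536870912 0) ndB3q3 ndB1q3 pcB0 Cut.none Ext.none)

def k0_pp_303 : ∃ t, chk3 f_pp_303 t 1 1 1 = true :=
  ⟨(a (l 3) (l 3)), by decide +kernel⟩

theorem c_pp_303 : CertB 0 1230186008 1610612736 536870912 991146299 28908434 3 eng mog cd3q3 cd1q3 pd0 false true true .npn 3 0 3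
    ndB3q3 ndB1q3 pcB0 Cut.none Ext.none :=
  certB0 (fam := false) (s1 := true) (s2 := true) (a := 3) (b := 0) (c := 3) (cn := .npn) (n1 := ndB3q3) (n2 := ndB1q3) (pc := pcB0) (cut := Cut.none) (xt := Ext.none) (P1 := 0) (W1 := 1230186008) (P2 := 1610612736) (W2 := 536870912) (P3 := 991146299) (W3 := 28908434) (N0 := 3) (En := eng) (mo := mog) (C1 := cd3q3) (C2 := cd1q3) (C3 := pd0)
    rfl k0_pp_303

noncomputable def f_pp_313 : ℕ → ℕ → ℕ → ℕ → Bool := onCell 0 1230186008 1610612736 536870912 991146299 28908434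
    (rowB 3 eng mog cd3q3 cd1q3 pd1 0 false true true .dn 3 1 3 (qsf 0 1230186008 1610612736 536870912 1) ndB3q3 ndB1q3 pcB1 Cut.none Ext.none)

def k0_pp_313 : ∃ t, chk3 f_pp_313 t 1 1 1 = true :=
  ⟨(a (l 1) (l 3)), by decide +kernel⟩

theorem c_pp_313 : CertB 0 1230186008 1610612736 536870912 991146299 28908434 3 eng mog cd3q3 cd1q3 pd1 false true true .dn 3 1 3
    ndB3q3 ndB1q3 pcB1 Cut.none Ext.none :=
  certB0 (fam := false) (s1 := true) (s2 := true) (a := 3) (b := 1) (c := 3) (cn := .dn) (n1 := ndB3q3) (n2 := ndB1q3) (pc := pcB1) (cut := Cut.none) (xt := Ext.none) (P1 := 0) (W1 := 1230186008) (P2 := 1610612736) (W2 := 536870912) (P3 := 991146299) (W3 := 28908434) (N0 := 3) (En := eng) (mo := mog) (C1 := cd3q3) (C2 := cd1q3) (C3 := pd1)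
    rfl k0_pp_313

noncomputable def f_pm_001 : ℕ → ℕ → ℕ → ℕ → Bool := onCell 0 536870912 536870912 536870912 991146299 28908434
    (rowB 3 eng mog cd3q0 cd1q1 pd0 0 false true false .up 0 0 1 (qsf 0 536870912 536870912 536870912 0) ndB3q0 ndB1q1 pcB0 Cut.none Ext.none)

def k0_pm_001 : ∃ t, chk3 f_pm_001 t 1 1 1 = true :=
  ⟨(l 4), by decide +kernel⟩

theorem c_pm_001 : CertB 0 536870912 536870912 536870912 991146299 28908434 3 eng mog cd3q0 cd1q1 pd0 false true false .up 0 0 1
    ndB3q0 ndB1q1 pcB0 Cut.none Ext.none :=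
  certB0 (fam := false) (s1 := true) (s2 := false) (a := 0) (b := 0) (c := 1) (cn := .up) (n1 := ndB3q0) (n2 := ndB1q1) (pc := pcB0) (cut := Cut.none) (xt := Ext.none) (P1 := 0) (W1 := 536870912) (P2 := 536870912) (W2 := 536870912) (P3 := 991146299) (W3 := 28908434) (N0 := 3) (En := eng) (mo := mog) (C1 := cd3q0) (C2 := cd1q1) (C3 := pd0)
    rfl k0_pm_001

noncomputable def f_pm_011 : ℕ → ℕ → ℕ → ℕ → Bool := onCell 0 536870912 536870912 536870912 991146299 28908434
    (rowB 3 eng mog cd3q0 cd1q1 pd1 0 false true false .pnn 0 1 1 (qsf 0 536870912 536870912 536870912 1) ndB3q0 ndB1q1 pcB1 Cut.none Ext.none)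

def k0_pm_011 : ∃ t, chk3 f_pm_011 t 1 1 1 = true :=
  ⟨(l 4), by decide +kernel⟩

theorem c_pm_011 : CertB 0 536870912 536870912 536870912 991146299 28908434 3 eng mog cd3q0 cd1q1 pd1 false true false .pnn 0 1 1
    ndB3q0 ndB1q1 pcB1 Cut.none Ext.none :=
  certB0 (fam := false) (s1 := true) (s2 := false) (a := 0) (b := 1) (c := 1) (cn := .pnn) (n1 := ndB3q0) (n2 := ndB1q1) (pc := pcB1) (cut := Cut.none) (xt := Ext.none) (P1 := 0) (W1 := 536870912) (P2 := 536870912) (W2 := 536870912) (P3 := 991146299) (W3 := 28908434) (N0 := 3) (En := eng) (mo := mog) (C1 := cd3q0) (C2 := cd1q1) (C3 := pd1)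
    rfl k0_pm_011

noncomputable def f_pm_012_a : ℕ → ℕ → ℕ → ℕ → Bool := onCell 536870912 536870912 0 536870912 991146299 28908434
    (rowB 3 eng mog cd3q0 cd1q2a pd1 2 false true false .pnp 0 1 2 (qsf 0 536870912 0 536870912 1) ndB3q0 ndB1q2a pcB1 Cut.none Ext.none)

def k0_pm_012_a : ∃ t, chk3 f_pm_012_a t 1 1 1 = true :=
  ⟨(a (b (b (a (l 2) (a (c (a (l 15011832) (l 14955336)) (a (l 14875928) (l 14974144))) (c (a (l 14924784) (l 14880968)) (a (l 15003632) (l 14977344))))) (a (l 4) (a (l 4) (c (l 14983280) (l 24926971047))))) (l 4)) (b (a (a (b (c (b (l 15014776) (l 14885408)) (a (l 14958064) (l 14954496))) (c (l 14981040) (l 15035496))) (a (b (b (l 14909752) (l 14906728)) (l 15013312)) (b (b (l 14927944) (l 14781648)) (l 15020112)))) (a (b (b (l 15008168) (a (l 14922184) (l 14963288))) (a (c (l 15009968) (l 15059280)) (c (l 15025648) (l 15075088)))) (b (a (l 15102056) (l 15225704)) (a (b (a (l 14995736) (l 14995224)) (l 15108488)) (b (b (l 15087424) (l 15066216))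 (a (l 15127232) (l 15141096))))))) (a (l 4) (b (l 4) (l 4))))), by decide +kernel⟩

theorem c_pm_012_a : CertB 0 536870912 0 536870912 991146299 28908434 3 eng mog cd3q0 cd1q2a pd1 false true false .pnp 0 1 2
    ndB3q0 ndB1q2a pcB1 Cut.none Ext.none :=
  certB2 (fam := false) (s1 := true) (s2 := false) (a := 0) (b := 1) (c := 2) (cn := .pnp) (n1 := ndB3q0) (n2 := ndB1q2a) (pc := pcB1) (cut := Cut.none) (xt := Ext.none) (P1 := 0) (W1 := 536870912) (P2 := 0) (W2 := 536870912) (P3 := 991146299) (W3 := 28908434) (N0 := 3) (En := eng) (mo := mog) (C1 := cd3q0) (C2 := cd1q2a) (C3 := pd1)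
    rfl (fun _ => rfl) k0_pm_012_a

noncomputable def f_pm_012_b : ℕ → ℕ → ℕ → ℕ → Bool := onCell 0 536870912 536870912 536870912 991146299 28908434
    (rowB 3 eng mog cd3q0 cd1q2b pd1 1 false true false .pnp 0 1 2 (qsf 0 536870912 1239849684 370763052 1) ndB3q0 ndB1q2b pcB1 Cut.none Ext.none)

def k0_pm_012_b : ∃ t, chk3 f_pm_012_b t 1 1 1 = true :=
  ⟨(a (b (l 1) (a (l 1) (b (l 1) (a (b (l 1) (a (l 619043168631) (l 334500945591))) (b (a (l 605083894791) (l 15175896)) (a (l 15133048) (l 14849200))))))) (b (a (l 1) (b (l 1) (a (b (l 1) (l 15088280)) (b (l 15147520) (l 14872496))))) (b (a (a (b (l 1) (l 570723533639)) (b (l 584682045911) (a (l 14827392) (l 14649632)))) (b (a (l 14778680) (l 14565192)) (a (l 14438016) (l 14084104)))) (a (a (b (l 294771251863) (l 14377648)) (b (l 14389544) (l 14014592))) (b (a (l 14069752) (l 13851664)) (a (l 13677992) (l 13479944))))))), by decide +kernel⟩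

theorem c_pm_012_b : CertB 0 536870912 1239849684 370763052 991146299 28908434 3 eng mog cd3q0 cd1q2b pd1 false true false .pnp 0 1 2
    ndB3q0 ndB1q2b pcB1 Cut.none Ext.none :=
  certB1 (fam := false) (s1 := true) (s2 := false) (a := 0) (b := 1) (c := 2) (cn := .pnp) (n1 := ndB3q0) (n2 := ndB1q2b) (pc := pcB1) (cut := Cut.none) (xt := Ext.none) (P1 := 0) (W1 := 536870912) (P2 := 1239849684) (W2 := 370763052) (P3 := 991146299) (W3 := 28908434) (N0 := 3) (En := eng) (mo := mog) (C1 := cd3q0) (C2 := cd1q2b) (C3 := pd1)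
    rfl (fun _ => rfl) k0_pm_012_b

noncomputable def f_pm_022_a : ℕ → ℕ → ℕ → ℕ → Bool := onCell 0 536870912 0 536870912 991146299 28908434
    (rowB 3 eng mog cd3q0 cd1q2a pd2 0 false true false .pp 0 2 2 (qsf 0 536870912 0 536870912 2) ndB3q0 ndB1q2a pcB2 Cut.none Ext.none)

def k0_pm_022_a : ∃ t, chk3 f_pm_022_a t 2 2 1 = true :=
  ⟨(a (a (b (a (a (b (l 16427328) (l 16417792)) (b (l 16425848) (l 16299048))) (a (a (b (l 16333744) (l 16269800)) (b (l 16166336) (l 16025144))) (c (a (l 16062552) (l 16028776)) (b (l 16236416) (l 16126848))))) (a (b (a (c (l 16501760) (l 16501912)) (c (l 16333456) (l 16350848))) (b (c (l 16187200) (l 16192648)) (a (l 16349824) (c (l 16267888) (l 16271656))))) (a (a (b (l 16163264) (c (l 16117280) (l 16129832))) (b (c (l 16095680) (l 16129368)) (c (l 15962056) (l 15978608)))) (b (c (l 15756000) (l 15887896)) (c (a (l 15929944) (l 15862520)) (a (l 15953464) (l 15891064))))))) (a (b (a (c (b (l 16133552) (l 16018416)) (b (l 16222888)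 (l 16102800))) (c (b (l 16059048) (l 15918048)) (b (l 16144840) (l 16013824)))) (c (a (b (l 15834672) (a (l 15793080) (l 15723240))) (b (l 15728864) (b (l 15647920) (l 15420688)))) (b (a (l 15894576) (l 15794184)) (a (a (l 15824664) (l 15756576)) (b (l 15688808) (l 15508872)))))) (b (b (c (l 15894320) (l 15914880)) (c (l 15630064) (l 15693184))) (b (c (a (l 15610472) (l 15439520)) (a (l 15675976) (l 15504232))) (b (c (l 15206464) (l 15261672)) (b (a (l 15409408) (l 15232592)) (l 4))))))) (a (a (b (c (b (l 15642112) (l 15346280)) (b (l 15747720) (l 15439600))) (a (b (c (l 15260112) (l 15323032)) (b (c (l 15087712) (l 15114688)) (l 4))) (b (c (l 15072888) (l 15133120)) (l 1)))) (b (b (l 1) (l 1)) (l 1))) (l 1))), by decide +kernel⟩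

def k1_pm_022_a : ∃ t, chk3 f_pm_022_a t 2 3 1 = true :=
  ⟨(a (b (a (b (a (a (b (c (l 16458680) (l 16450672)) (a (l 16419552) (l 16239304))) (b (c (l 16229640) (l 16225480)) (c (l 15983400) (a (l 16238072) (l 16118056))))) (a (a (b (l 16041088) (c (l 16007632) (l 15998632))) (b (c (l 15917688) (l 15917904)) (a (l 15912960) (l 4)))) (b (c (a (l 15838008) (l 15769864)) (a (l 15844240) (l 15780960))) (l 4)))) (a (a (b (c (a (l 16471232) (l 16358176)) (a (l 16449376) (l 16338584))) (l 4)) (l 4)) (l 4))) (a (a (b (b (b (a (l 15713000) (l 15650840)) (l 4)) (l 4)) (l 4)) (l 4)) (l 4))) (l 4)) (l 4)), by decide +kernel⟩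

def k2_pm_022_a : ∃ t, chk3 f_pm_022_a t 3 1 1 = true :=
  ⟨(l 1), by decide +kernel⟩

theorem s3_pm_022_a : ∃ t, chk3 f_pm_022_a t 2 1 1 = true := ex3_b k0_pm_022_a k1_pm_022_a

theorem s4_pm_022_a : ∃ t, chk3 f_pm_022_a t 1 1 1 = true := ex3_a s3_pm_022_a k2_pm_022_a

theorem c_pm_022_a : CertB 0 536870912 0 536870912 991146299 28908434 3 eng mog cd3q0 cd1q2a pd2 false true false .pp 0 2 2
    ndB3q0 ndB1q2a pcB2 Cut.none Ext.none :=
  certB0 (fam := false) (s1 := true) (s2 := false) (a := 0) (b := 2) (c := 2) (cn := .pp) (n1 := ndB3q0) (n2 := ndB1q2a) (pc := pcB2) (cut := Cut.none) (xt := Ext.none) (P1 := 0) (W1 := 536870912) (P2 := 0) (W2 := 536870912) (P3 := 991146299) (W3 := 28908434) (N0 := 3) (En := eng) (mo := mog) (C1 := cd3q0) (C2 := cd1q2a) (C3 := pd2)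
    rfl s4_pm_022_a

end Pool.Agent.Strip051.G.I9231_9500.Tab.C.BB31

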