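import Pool.Agent.Strip051.G.I9231_9500.Tab
import Pool.Agent.Strip051.PB.ExtD3

/-! # Certificates B34 (generated) -/

set_option linter.all false
set_option maxRecDepth 100000

namespace Pool.Agent.Strip051.G.I9231_9500.Tab.C.BB35

open Pool.Agent.Strip051.PB Pool.Agent.Strip051.PB.T
open Pool.Agent.Strip051.G.I9231_9500.Tab

noncomputable def f_pp_033 : ℕ → ℕ → ℕ → ℕ → Bool := onCell 0 536870912 0 1230186008 991146299 28908434
    (rowB 3 eng mog cd3q0 cd5q3 pd3 0 false true true .pnn 0 3 3 (qsf 0 536870912 0 1230186008 3) ndB3q0 ndB5q3 pcB3 Cut.none Ext.none)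

def k0_pp_033 : ∃ t, chk3 f_pp_033 t 1 2 1 = true :=
  ⟨(b (a (l 4) (a (l 4) (b (l 4) (a (l 4) (l 16556392))))) (a (b (a (l 4) (b (l 4) (a (l 491470222311) (l 16387960)))) (a (b (a (a (l 4) (a (l 4) (l 15699360))) (a (a (l 15718000) (l 15749960)) (l 15845320))) (a (a (l 15269848) (a (l 15533328) (l 15604840))) (a (a (l 15636800) (l 15671728)) (l 15762840)))) (a (b (a (l 16020776) (l 16139936)) (l 15945888)) (b (l 16295056) (l 16163240))))) (a (b (a (b (l 4) (l 16569896)) (b (l 16559280) (l 16699088))) (b (a (l 16460888) (l 16580864)) (a (l 16351640) (l 16504128)))) (b (a (b (l 16481704) (l 16679584)) (l 16676280)) (b (l 16864680) (l 16644240)))))), by decide +kernel⟩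

def k1_pp_033 : ∃ t, chk3 f_pp_033 t 1 3 1 = true :=
  ⟨(b (a (b (a (b (a (a (b (l 15201224) (l 15181688)) (a (l 15459392) (l 15532472))) (a (l 15583648) (l 15708232))) (a (a (l 15183080) (a (l 15456480) (l 15533048))) (a (l 15590960) (l 15728304)))) (a (l 15932064) (l 16182680))) (a (b (a (a (a (l 15119616) (l 15303448)) (a (l 15486600) (l 15565216))) (a (l 15628128) (l 15774496))) (a (a (b (l 15215512) (l 15164112)) (a (b (l 15502472) (l 15469024)) (l 15580024))) (a (b (l 15657680) (l 15652296)) (l 15821800)))) (b (a (l 16019288) (l 16317424)) (a (b (l 16070432) (l 16102960)) (b (l 16387376) (l 16443720)))))) (b (a (a (l 16407480) (l 16543752)) (b (l 16648696) (l 1))) (a (b (l 16553768) (a (l 16585200) (l 1))) (l 1)))) (a (b (a (b (a (a (b (l 15088728) (l 15060648)) (a (b (l 15413920) (l 15351752)) (b (l 15521312) (l 15458056)))) (a (a (l 15560120) (l 15639160)) (l 15802136))) (a (a (b (l 15129976) (l 15248632)) (a (a (l 15393976) (l 15474728)) (l 15350936)))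 (a (a (l 15452696) (l 15511920)) (b (l 15745704) (l 15780600))))) (b (a (l 16116808) (l 16502544)) (a (b (l 16084032) (l 16062176)) (l 1)))) (a (b (a (a (b (l 15300208) (l 15399032)) (a (b (l 15616744) (l 15698936)) (b (l 15678176) (l 15788176)))) (a (b (l 15726792) (l 15849176)) (l 15926008))) (a (a (l 15344144) (a (l 15777288) (l 15877104))) (a (a (l 15934320) (l 1)) (l 1)))) (b (a (b (l 16144736) (l 1)) (l 1)) (l 1)))) (l 1))), by decide +kernel⟩

theorem s2_pp_033 : ∃ t, chk3 f_pp_033 t 1 1 1 = true := ex3_b k0_pp_033 k1_pp_033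

theorem c_pp_033 : CertB 0 536870912 0 1230186008 991146299 28908434 3 eng mog cd3q0 cd5q3 pd3 false true true .pnn 0 3 3
    ndB3q0 ndB5q3 pcB3 Cut.none Ext.none :=
  certB0 (fam := false) (s1 := true) (s2 := true) (a := 0) (b := 3) (c := 3) (cn := .pnn) (n1 := ndB3q0) (n2 := ndB5q3) (pc := pcB3) (cut := Cut.none) (xt := Ext.none) (P1 := 0) (W1 := 536870912) (P2 := 0) (W2 := 1230186008) (P3 := 991146299) (W3 := 28908434) (N0 := 3) (En := eng) (mo := mog) (C1 := cd3q0) (C2 := cd5q3) (C3 := pd3)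
    rfl s2_pp_033

noncomputable def f_pp_101 : ℕ → ℕ → ℕ → ℕ → Bool := onCell 536870912 536870912 536870912 536870912 991146299 28908434
    (rowB 3 eng mog cd3q1 cd5q1 pd0 0 false true true .npn 1 0 1 (qsf 536870912 536870912 536870912 536870912 0) ndB3q1 ndB5q1 pcB0 Cut.none Ext.none)

def k0_pp_101 : ∃ t, chk3 f_pp_101 t 1 1 1 = true :=
  ⟨(l 3), by decide +kernel⟩

theorem c_pp_101 : CertB 536870912 536870912 536870912 536870912 991146299 28908434 3 eng mog cd3q1 cd5q1 pd0 false true true .npn 1 0 1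
    ndB3q1 ndB5q1 pcB0 Cut.none Ext.none :=
  certB0 (fam := false) (s1 := true) (s2 := true) (a := 1) (b := 0) (c := 1) (cn := .npn) (n1 := ndB3q1) (n2 := ndB5q1) (pc := pcB0) (cut := Cut.none) (xt := Ext.none) (P1 := 536870912) (W1 := 536870912) (P2 := 536870912) (W2 := 536870912) (P3 := 991146299) (W3 := 28908434) (N0 := 3) (En := eng) (mo := mog) (C1 := cd3q1) (C2 := cd5q1) (C3 := pd0)
    rfl k0_pp_101

noncomputable def f_pp_102 : ℕ → ℕ → ℕ → ℕ → Bool := onCell 536870912 536870912 1073741824 536870912 991146299 28908434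
    (rowB 3 eng mog cd3q1 cd5q2 pd0 0 false true true .npp 1 0 2 (qsf 536870912 536870912 1073741824 536870912 0) ndB3q1 ndB5q2 pcB0 Cut.none Ext.none)

def k0_pp_102 : ∃ t, chk3 f_pp_102 t 1 1 1 = true :=
  ⟨(l 3), by decide +kernel⟩

theorem c_pp_102 : CertB 536870912 536870912 1073741824 536870912 991146299 28908434 3 eng mog cd3q1 cd5q2 pd0 false true true .npp 1 0 2
    ndB3q1 ndB5q2 pcB0 Cut.none Ext.none :=
  certB0 (fam := false) (s1 := true) (s2 := true) (a := 1) (b := 0) (c := 2) (cn := .npp) (n1 := ndB3q1) (n2 := ndB5q2) (pc := pcB0) (cut := Cut.none) (xt := Ext.none) (P1 := 536870912) (W1 := 536870912) (P2 := 1073741824) (W2 := 536870912) (P3 := 991146299) (W3 := 28908434) (N0 := 3) (En := eng) (mo := mog) (C1 := cd3q1) (C2 := cd5q2) (C3 := pd0)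
    rfl k0_pp_102

noncomputable def f_pp_112 : ℕ → ℕ → ℕ → ℕ → Bool := onCell 536870912 536870912 1073741824 536870912 991146299 28908434
    (rowB 3 eng mog cd3q1 cd5q2 pd1 0 false true true .dn 1 1 2 (qsf 536870912 536870912 1073741824 536870912 1) ndB3q1 ndB5q2 pcB1 Cut.none Ext.none)

def k0_pp_112 : ∃ t, chk3 f_pp_112 t 1 1 1 = true :=
  ⟨(l 3), by decide +kernel⟩

theorem c_pp_112 : CertB 536870912 536870912 1073741824 536870912 991146299 28908434 3 eng mog cd3q1 cd5q2 pd1 false true true .dn 1 1 2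
    ndB3q1 ndB5q2 pcB1 Cut.none Ext.none :=
  certB0 (fam := false) (s1 := true) (s2 := true) (a := 1) (b := 1) (c := 2) (cn := .dn) (n1 := ndB3q1) (n2 := ndB5q2) (pc := pcB1) (cut := Cut.none) (xt := Ext.none) (P1 := 536870912) (W1 := 536870912) (P2 := 1073741824) (W2 := 536870912) (P3 := 991146299) (W3 := 28908434) (N0 := 3) (En := eng) (mo := mog) (C1 := cd3q1) (C2 := cd5q2) (C3 := pd1)
    rfl k0_pp_112

noncomputable def f_pp_113 : ℕ → ℕ → ℕ → ℕ → Bool := onCell 536870912 536870912 0 1230186008 991146299 28908434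
    (rowB 3 eng mog cd3q1 cd5q3 pd1 2 false true true .nn 1 1 3 (qsf 536870912 536870912 0 1230186008 1) ndB3q1 ndB5q3 pcB1 Cut.none Ext.none)

def k0_pp_113 : ∃ t, chk3 f_pp_113 t 1 1 1 = true :=
  ⟨(b (a (l 2) (a (l 2) (b (b (a (l 2) (l 16282088)) (l 523547021735)) (b (a (l 15090920) (l 15501312)) (a (l 14617656) (l 15730992)))))) (a (b (b (l 2) (b (l 2) (l 3))) (l 3)) (a (b (b (a (l 2) (b (l 13754992) (l 13912672))) (a (b (a (l 13612000) (l 13816152)) (l 403352258007)) (b (l 14127424) (l 14441888)))) (l 3)) (b (a (b (b (l 14421184) (l 14427760)) (b (l 14526096) (l 14695176))) (b (a (l 14859464) (l 15126168)) (a (l 14781240) (l 14830592)))) (b (a (b (l 14903760) (l 3)) (a (b (l 15002888) (l 15198856)) (b (l 14991656) (l 15171944)))) (l 3)))))), by decide +kernel⟩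

theorem c_pp_113 : CertB 536870912 536870912 0 1230186008 991146299 28908434 3 eng mog cd3q1 cd5q3 pd1 false true true .nn 1 1 3
    ndB3q1 ndB5q3 pcB1 Cut.none Ext.none :=
  certB2 (fam := false) (s1 := true) (s2 := true) (a := 1) (b := 1) (c := 3) (cn := .nn) (n1 := ndB3q1) (n2 := ndB5q3) (pc := pcB1) (cut := Cut.none) (xt := Ext.none) (P1 := 536870912) (W1 := 536870912) (P2 := 0) (W2 := 1230186008) (P3 := 991146299) (W3 := 28908434) (N0 := 3) (En := eng) (mo := mog) (C1 := cd3q1) (C2 := cd5q3) (C3 := pd1)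
    rfl (fun _ => rfl) k0_pp_113

noncomputable def f_pp_123 : ℕ → ℕ → ℕ → ℕ → Bool := onCell 1073741824 536870912 0 1230186008 991146299 28908434
    (rowB 3 eng mog cd3q1 cd5q3 pd2 2 false true true .npn 1 2 3 (qsf 536870912 536870912 0 1230186008 2) ndB3q1 ndB5q3 pcB2 Cut.none Ext.none)

def k0_pp_123 : ∃ t, chk3 f_pp_123 t 1 1 1 = true :=
  ⟨(b (a (b (a (b (a (a (l 16428200) (l 16586808)) (l 16708024)) (a (a (l 15649992) (l 16008064)) (l 16401248))) (a (b (l 16763280) (l 16716128)) (b (l 16731816) (l 16582008)))) (a (b (a (a (b (l 15240528) (l 15337552)) (l 15631240)) (b (l 16170568) (l 16170592))) (a (c (l 15795368) (l 15602592)) (l 16057520))) (b (a (l 16485184) (l 16312824)) (a (l 16193664) (l 16089336))))) (b (b (a (a (l 16715424) (l 4)) (l 4)) (a (a (l 16494392) (b (l 16593176) (l 16387088))) (a (b (l 16600200) (l 16444488)) (b (l 4) (l 16506144))))) (a (b (a (b (l 16176240) (l 15958848)) (b (l 16086224) (l 15762256))) (a (l 15896104) (l 15710488)))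 (b (a (b (l 16120560) (l 15718776)) (b (l 16232648) (l 15802928))) (b (a (l 15523552) (l 15456336)) (l 15566408)))))) (a (a (b (b (a (a (l 15581696) (l 15617848)) (l 15663240)) (a (b (l 15137736) (l 15129616)) (b (l 15662832) (l 15598520)))) (a (b (b (a (l 15169032) (l 15383152)) (a (l 15296912) (l 15539520))) (b (a (l 15458696) (l 15686224)) (l 3))) (b (b (a (l 15562696) (l 15707944)) (a (l 15753544) (l 15910584))) (b (a (l 15878632) (l 16031496)) (a (l 15939032) (l 1)))))) (b (b (a (l 15951320) (l 15961480)) (a (l 15716736) (l 15929880))) (b (a (a (a (l 15847216) (b (l 15841736) (l 16010824))) (l 15944944)) (l 49424975943)) (a (a (b (a (l 16147768) (l 1)) (l 1)) (l 1)) (l 1))))) (b (a (b (a (l 15908744) (l 15843144)) (a (l 15992168) (l 15995672))) (b (a (l 15794304) (l 1)) (l 1))) (l 1)))), by decide +kernel⟩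

theorem c_pp_123 : CertB 536870912 536870912 0 1230186008 991146299 28908434 3 eng mog cd3q1 cd5q3 pd2 false true true .npn 1 2 3
    ndB3q1 ndB5q3 pcB2 Cut.none Ext.none :=
  certB2 (fam := false) (s1 := true) (s2 := true) (a := 1) (b := 2) (c := 3) (cn := .npn) (n1 := ndB3q1) (n2 := ndB5q3) (pc := pcB2) (cut := Cut.none) (xt := Ext.none) (P1 := 536870912) (W1 := 536870912) (P2 := 0) (W2 := 1230186008) (P3 := 991146299) (W3 := 28908434) (N0 := 3) (En := eng) (mo := mog) (C1 := cd3q1) (C2 := cd5q3) (C3 := pd2)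
    rfl (fun _ => rfl) k0_pp_123

noncomputable def f_pp_133 : ℕ → ℕ → ℕ → ℕ → Bool := onCell 1610612736 536870912 0 1230186008 991146299 28908434
    (rowB 3 eng mog cd3q1 cd5q3 pd3 2 false true true .dn 1 3 3 (qsf 536870912 536870912 0 1230186008 3) ndB3q1 ndB5q3 pcB3 Cut.none Ext.none)

def k0_pp_133 : ∃ t, chk3 f_pp_133 t 1 1 1 = true :=
  ⟨(b (b (b (l 4) (l 1)) (l 1)) (l 1)), by decide +kernel⟩

theorem c_pp_133 : CertB 536870912 536870912 0 1230186008 991146299 28908434 3 eng mog cd3q1 cd5q3 pd3 false true true .dn 1 3 3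
    ndB3q1 ndB5q3 pcB3 Cut.none Ext.none :=
  certB2 (fam := false) (s1 := true) (s2 := true) (a := 1) (b := 3) (c := 3) (cn := .dn) (n1 := ndB3q1) (n2 := ndB5q3) (pc := pcB3) (cut := Cut.none) (xt := Ext.none) (P1 := 536870912) (W1 := 536870912) (P2 := 0) (W2 := 1230186008) (P3 := 991146299) (W3 := 28908434) (N0 := 3) (En := eng) (mo := mog) (C1 := cd3q1) (C2 := cd5q3) (C3 := pd3)
    rfl (fun _ => rfl) k0_pp_133

noncomputable def f_pp_202 : ℕ → ℕ → ℕ → ℕ → Bool := onCell 1073741824 536870912 1073741824 536870912 991146299 28908434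
    (rowB 3 eng mog cd3q2 cd5q2 pd0 0 false true true .pp 2 0 2 (qsf 1073741824 536870912 1073741824 536870912 0) ndB3q2 ndB5q2 pcB0 Cut.none Ext.none)

def k0_pp_202 : ∃ t, chk3 f_pp_202 t 1 1 1 = true :=
  ⟨(l 5), by decide +kernel⟩

theorem c_pp_202 : CertB 1073741824 536870912 1073741824 536870912 991146299 28908434 3 eng mog cd3q2 cd5q2 pd0 false true true .pp 2 0 2
    ndB3q2 ndB5q2 pcB0 Cut.none Ext.none :=
  certB0 (fam := false) (s1 := true) (s2 := true) (a := 2) (b := 0) (c := 2) (cn := .pp) (n1 := ndB3q2) (n2 := ndB5q2) (pc := pcB0) (cut := Cut.none) (xt := Ext.none) (P1 := 1073741824) (W1 := 536870912) (P2 := 1073741824) (W2 := 536870912) (P3 := 991146299) (W3 := 28908434) (N0 := 3) (En := eng) (mo := mog) (C1 := cd3q2) (C2 := cd5q2) (C3 := pd0)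
    rfl k0_pp_202

noncomputable def f_pp_203 : ℕ → ℕ → ℕ → ℕ → Bool := onCell 0 536870912 0 1230186008 991146299 28908434
    (rowB 3 eng mog cd3q2 cd5q3 pd0 2 false true true .up 2 0 3 (qsf 1073741824 536870912 0 1230186008 0) ndB3q2 ndB5q3 pcB0 Cut.none Ext.none)

def k0_pp_203 : ∃ t, chk3 f_pp_203 t 1 1 1 = true :=
  ⟨(b (l 3) (l 3)), by decide +kernel⟩

theorem c_pp_203 : CertB 1073741824 536870912 0 1230186008 991146299 28908434 3 eng mog cd3q2 cd5q3 pd0 false true true .up 2 0 3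
    ndB3q2 ndB5q3 pcB0 Cut.none Ext.none :=
  certB2 (fam := false) (s1 := true) (s2 := true) (a := 2) (b := 0) (c := 3) (cn := .up) (n1 := ndB3q2) (n2 := ndB5q3) (pc := pcB0) (cut := Cut.none) (xt := Ext.none) (P1 := 1073741824) (W1 := 536870912) (P2 := 0) (W2 := 1230186008) (P3 := 991146299) (W3 := 28908434) (N0 := 3) (En := eng) (mo := mog) (C1 := cd3q2) (C2 := cd5q3) (C3 := pd0)
    rfl (fun _ => rfl) k0_pp_203

noncomputable def f_pp_213 : ℕ → ℕ → ℕ → ℕ → Bool := onCell 1073741824 536870912 0 1230186008 991146299 28908434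
    (rowB 3 eng mog cd3q2 cd5q3 pd1 0 false true true .pnn 2 1 3 (qsf 1073741824 536870912 0 1230186008 1) ndB3q2 ndB5q3 pcB1 Cut.none Ext.none)

def k0_pp_213 : ∃ t, chk3 f_pp_213 t 1 1 1 = true :=
  ⟨(b (a (a (b (b (a (a (b (a (l 16649320) (l 16528056)) (b (a (l 16546960) (l 435569716759)) (l 3))) (b (a (l 16485080) (l 16451896)) (l 3))) (b (a (l 329268572935) (l 3)) (l 3))) (l 3)) (l 3)) (l 3)) (l 3)) (l 3)), by decide +kernel⟩

theorem c_pp_213 : CertB 1073741824 536870912 0 1230186008 991146299 28908434 3 eng mog cd3q2 cd5q3 pd1 false true true .pnn 2 1 3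
    ndB3q2 ndB5q3 pcB1 Cut.none Ext.none :=
  certB0 (fam := false) (s1 := true) (s2 := true) (a := 2) (b := 1) (c := 3) (cn := .pnn) (n1 := ndB3q2) (n2 := ndB5q3) (pc := pcB1) (cut := Cut.none) (xt := Ext.none) (P1 := 1073741824) (W1 := 536870912) (P2 := 0) (W2 := 1230186008) (P3 := 991146299) (W3 := 28908434) (N0 := 3) (En := eng) (mo := mog) (C1 := cd3q2) (C2 := cd5q3) (C3 := pd1)
    rfl k0_pp_213

noncomputable def f_pp_303 : ℕ → ℕ → ℕ → ℕ → Bool := onCell 0 1230186008 0 1230186008 991146299 28908434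
    (rowB 3 eng mog cd3q3 cd5q3 pd0 0 false true true .npn 3 0 3 (qsf 0 1230186008 0 1230186008 0) ndB3q3 ndB5q3 pcB0 Cut.none Ext.none)

def k0_pp_303 : ∃ t, chk3 f_pp_303 t 1 1 1 = true :=
  ⟨(a (b (l 3) (l 5)) (b (l 3) (a (l 5) (l 3)))), by decide +kernel⟩

theorem c_pp_303 : CertB 0 1230186008 0 1230186008 991146299 28908434 3 eng mog cd3q3 cd5q3 pd0 false true true .npn 3 0 3
    ndB3q3 ndB5q3 pcB0 Cut.none Ext.none :=
  certB0 (fam := false) (s1 := true) (s2 := true) (a := 3) (b := 0) (c := 3) (cn := .npn) (n1 := ndB3q3) (n2 := ndB5q3) (pc := pcB0) (cut := Cut.none) (xt := Ext.none) (P1 := 0) (W1 := 1230186008) (P2 := 0) (W2 := 1230186008) (P3 := 991146299) (W3 := 28908434) (N0 := 3) (En := eng) (mo := mog) (C1 := cd3q3) (C2 := cd5q3) (C3 := pd0)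
    rfl k0_pp_303

noncomputable def f_pp_313 : ℕ → ℕ → ℕ → ℕ → Bool := onCell 0 1230186008 0 1230186008 991146299 28908434
    (rowB 3 eng mog cd3q3 cd5q3 pd1 0 false true true .dn 3 1 3 (qsf 0 1230186008 0 1230186008 1) ndB3q3 ndB5q3 pcB1 Cut.none Ext.none)

def k0_pp_313 : ∃ t, chk3 f_pp_313 t 1 1 1 = true :=
  ⟨(a (l 1) (b (l 3) (l 1))), by decide +kernel⟩

theorem c_pp_313 : CertB 0 1230186008 0 1230186008 991146299 28908434 3 eng mog cd3q3 cd5q3 pd1 false true true .dn 3 1 3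
    ndB3q3 ndB5q3 pcB1 Cut.none Ext.none :=
  certB0 (fam := false) (s1 := true) (s2 := true) (a := 3) (b := 1) (c := 3) (cn := .dn) (n1 := ndB3q3) (n2 := ndB5q3) (pc := pcB1) (cut := Cut.none) (xt := Ext.none) (P1 := 0) (W1 := 1230186008) (P2 := 0) (W2 := 1230186008) (P3 := 991146299) (W3 := 28908434) (N0 := 3) (En := eng) (mo := mog) (C1 := cd3q3) (C2 := cd5q3) (C3 := pd1)
    rfl k0_pp_313

noncomputable def f_pm_001 : ℕ → ℕ → ℕ → ℕ → Bool := onCell 0 536870912 536870912 536870912 991146299 28908434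
    (rowB 3 eng mog cd3q0 cd5q1 pd0 0 false true false .up 0 0 1 (qsf 0 536870912 536870912 536870912 0) ndB3q0 ndB5q1 pcB0 Cut.none Ext.none)

def k0_pm_001 : ∃ t, chk3 f_pm_001 t 1 1 1 = true :=
  ⟨(l 4), by decide +kernel⟩

theorem c_pm_001 : CertB 0 536870912 536870912 536870912 991146299 28908434 3 eng mog cd3q0 cd5q1 pd0 false true false .up 0 0 1
    ndB3q0 ndB5q1 pcB0 Cut.none Ext.none :=
  certB0 (fam := false) (s1 := true) (s2 := false) (a := 0) (b := 0) (c := 1) (cn := .up) (n1 := ndB3q0) (n2 := ndB5q1) (pc := pcB0) (cut := Cut.none) (xt := Ext.none) (P1 := 0) (W1 := 536870912) (P2 := 536870912) (W2 := 536870912) (P3 := 991146299) (W3 := 28908434) (N0 := 3) (En := eng) (mo := mog) (C1 := cd3q0) (C2 := cd5q1) (C3 := pd0)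
    rfl k0_pm_001

noncomputable def f_pm_011 : ℕ → ℕ → ℕ → ℕ → Bool := onCell 0 536870912 536870912 536870912 991146299 28908434
    (rowB 3 eng mog cd3q0 cd5q1 pd1 0 false true false .pnn 0 1 1 (qsf 0 536870912 536870912 536870912 1) ndB3q0 ndB5q1 pcB1 Cut.none Ext.none)

def k0_pm_011 : ∃ t, chk3 f_pm_011 t 1 1 1 = true :=
  ⟨(l 4), by decide +kernel⟩

theorem c_pm_011 : CertB 0 536870912 536870912 536870912 991146299 28908434 3 eng mog cd3q0 cd5q1 pd1 false true false .pnn 0 1 1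
    ndB3q0 ndB5q1 pcB1 Cut.none Ext.none :=
  certB0 (fam := false) (s1 := true) (s2 := false) (a := 0) (b := 1) (c := 1) (cn := .pnn) (n1 := ndB3q0) (n2 := ndB5q1) (pc := pcB1) (cut := Cut.none) (xt := Ext.none) (P1 := 0) (W1 := 536870912) (P2 := 536870912) (W2 := 536870912) (P3 := 991146299) (W3 := 28908434) (N0 := 3) (En := eng) (mo := mog) (C1 := cd3q0) (C2 := cd5q1) (C3 := pd1)
    rfl k0_pm_011

noncomputable def f_pm_012 : ℕ → ℕ → ℕ → ℕ → Bool := onCell 0 536870912 1073741824 536870912 991146299 28908434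
    (rowB 3 eng mog cd3q0 cd5q2 pd1 0 false true false .pnp 0 1 2 (qsf 0 536870912 1073741824 536870912 1) ndB3q0 ndB5q2 pcB1 Cut.none Ext.none)

def k0_pm_012 : ∃ t, chk3 f_pm_012 t 1 1 1 = true :=
  ⟨(l 4), by decide +kernel⟩

theorem c_pm_012 : CertB 0 536870912 1073741824 536870912 991146299 28908434 3 eng mog cd3q0 cd5q2 pd1 false true false .pnp 0 1 2
    ndB3q0 ndB5q2 pcB1 Cut.none Ext.none :=
  certB0 (fam := false) (s1 := true) (s2 := false) (a := 0) (b := 1) (c := 2) (cn := .pnp) (n1 := ndB3q0) (n2 := ndB5q2) (pc := pcB1) (cut := Cut.none) (xt := Ext.none) (P1 := 0) (W1 := 536870912) (P2 := 1073741824) (W2 := 536870912) (P3 := 991146299) (W3 := 28908434) (N0 := 3) (En := eng) (mo := mog) (C1 := cd3q0) (C2 := cd5q2) (C3 := pd1)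
    rfl k0_pm_012

noncomputable def f_pm_022 : ℕ → ℕ → ℕ → ℕ → Bool := onCell 0 536870912 1073741824 536870912 991146299 28908434
    (rowB 3 eng mog cd3q0 cd5q2 pd2 0 false true false .pp 0 2 2 (qsf 0 536870912 1073741824 536870912 2) ndB3q0 ndB5q2 pcB2 Cut.none Ext.none)

def k0_pm_022 : ∃ t, chk3 f_pm_022 t 1 1 1 = true :=
  ⟨(l 4), by decide +kernel⟩

theorem c_pm_022 : CertB 0 536870912 1073741824 536870912 991146299 28908434 3 eng mog cd3q0 cd5q2 pd2 false true false .pp 0 2 2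
    ndB3q0 ndB5q2 pcB2 Cut.none Ext.none :=
  certB0 (fam := false) (s1 := true) (s2 := false) (a := 0) (b := 2) (c := 2) (cn := .pp) (n1 := ndB3q0) (n2 := ndB5q2) (pc := pcB2) (cut := Cut.none) (xt := Ext.none) (P1 := 0) (W1 := 536870912) (P2 := 1073741824) (W2 := 536870912) (P3 := 991146299) (W3 := 28908434) (N0 := 3) (En := eng) (mo := mog) (C1 := cd3q0) (C2 := cd5q2) (C3 := pd2)
    rfl k0_pm_022

noncomputable def f_pm_023 : ℕ → ℕ → ℕ → ℕ → Bool := onCell 0 536870912 0 1230186008 991146299 28908434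
    (rowB 3 eng mog cd3q0 cd5q3 pd2 0 false true false .up 0 2 3 (qsf 0 536870912 0 1230186008 2) ndB3q0 ndB5q3 pcB2 Cut.none Ext.none)

def k0_pm_023 : ∃ t, chk3 f_pm_023 t 1 1 1 = true :=
  ⟨(b (l 4) (l 4)), by decide +kernel⟩

theorem c_pm_023 : CertB 0 536870912 0 1230186008 991146299 28908434 3 eng mog cd3q0 cd5q3 pd2 false true false .up 0 2 3
    ndB3q0 ndB5q3 pcB2 Cut.none Ext.none :=
  certB0 (fam := false) (s1 := true) (s2 := false) (a := 0) (b := 2) (c := 3) (cn := .up) (n1 := ndB3q0) (n2 := ndB5q3) (pc := pcB2) (cut := Cut.none) (xt := Ext.none) (P1 := 0) (W1 := 536870912) (P2 := 0) (W2 := 1230186008) (P3 := 991146299) (W3 := 28908434) (N0 := 3) (En := eng) (mo := mog) (C1 := cd3q0) (C2 := cd5q3) (C3 := pd2)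
    rfl k0_pm_023

noncomputable def f_pm_033 : ℕ → ℕ → ℕ → ℕ → Bool := onCell 0 536870912 0 1230186008 991146299 28908434
    (rowB 3 eng mog cd3q0 cd5q3 pd3 0 false true false .pnn 0 3 3 (qsf 0 536870912 0 1230186008 3) ndB3q0 ndB5q3 pcB3 Cut.none Ext.none)

def k0_pm_033 : ∃ t, chk3 f_pm_033 t 1 1 1 = true :=
  ⟨(b (l 4) (l 4)), by decide +kernel⟩

theorem c_pm_033 : CertB 0 536870912 0 1230186008 991146299 28908434 3 eng mog cd3q0 cd5q3 pd3 false true false .pnn 0 3 3
    ndB3q0 ndB5q3 pcB3 Cut.none Ext.none :=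
  certB0 (fam := false) (s1 := true) (s2 := false) (a := 0) (b := 3) (c := 3) (cn := .pnn) (n1 := ndB3q0) (n2 := ndB5q3) (pc := pcB3) (cut := Cut.none) (xt := Ext.none) (P1 := 0) (W1 := 536870912) (P2 := 0) (W2 := 1230186008) (P3 := 991146299) (W3 := 28908434) (N0 := 3) (En := eng) (mo := mog) (C1 := cd3q0) (C2 := cd5q3) (C3 := pd3)
    rfl k0_pm_033

noncomputable def f_pm_101 : ℕ → ℕ → ℕ → ℕ → Bool := onCell 536870912 536870912 536870912 536870912 991146299 28908434
    (rowB 3 eng mog cd3q1 cd5q1 pd0 0 false true false .npn 1 0 1 (qsf 536870912 536870912 536870912 536870912 0) ndB3q1 ndB5q1 pcB0 Cut.none Ext.none)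

def k0_pm_101 : ∃ t, chk3 f_pm_101 t 1 1 1 = true :=
  ⟨(l 4), by decide +kernel⟩

theorem c_pm_101 : CertB 536870912 536870912 536870912 536870912 991146299 28908434 3 eng mog cd3q1 cd5q1 pd0 false true false .npn 1 0 1
    ndB3q1 ndB5q1 pcB0 Cut.none Ext.none :=
  certB0 (fam := false) (s1 := true) (s2 := false) (a := 1) (b := 0) (c := 1) (cn := .npn) (n1 := ndB3q1) (n2 := ndB5q1) (pc := pcB0) (cut := Cut.none) (xt := Ext.none) (P1 := 536870912) (W1 := 536870912) (P2 := 536870912) (W2 := 536870912) (P3 := 991146299) (W3 := 28908434) (N0 := 3) (En := eng) (mo := mog) (C1 := cd3q1) (C2 := cd5q1) (C3 := pd0)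
    rfl k0_pm_101

noncomputable def f_pm_102 : ℕ → ℕ → ℕ → ℕ → Bool := onCell 536870912 536870912 1073741824 536870912 991146299 28908434
    (rowB 3 eng mog cd3q1 cd5q2 pd0 0 false true false .npp 1 0 2 (qsf 536870912 536870912 1073741824 536870912 0) ndB3q1 ndB5q2 pcB0 Cut.none Ext.none)

def k0_pm_102 : ∃ t, chk3 f_pm_102 t 1 1 1 = true :=
  ⟨(l 4), by decide +kernel⟩

theorem c_pm_102 : CertB 536870912 536870912 1073741824 536870912 991146299 28908434 3 eng mog cd3q1 cd5q2 pd0 false true false .npp 1 0 2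
    ndB3q1 ndB5q2 pcB0 Cut.none Ext.none :=
  certB0 (fam := false) (s1 := true) (s2 := false) (a := 1) (b := 0) (c := 2) (cn := .npp) (n1 := ndB3q1) (n2 := ndB5q2) (pc := pcB0) (cut := Cut.none) (xt := Ext.none) (P1 := 536870912) (W1 := 536870912) (P2 := 1073741824) (W2 := 536870912) (P3 := 991146299) (W3 := 28908434) (N0 := 3) (En := eng) (mo := mog) (C1 := cd3q1) (C2 := cd5q2) (C3 := pd0)
    rfl k0_pm_102

noncomputable def f_pm_112 : ℕ → ℕ → ℕ → ℕ → Bool := onCell 536870912 536870912 1073741824 536870912 991146299 28908434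
    (rowB 3 eng mog cd3q1 cd5q2 pd1 0 false true false .dn 1 1 2 (qsf 536870912 536870912 1073741824 536870912 1) ndB3q1 ndB5q2 pcB1 Cut.none Ext.none)

def k0_pm_112 : ∃ t, chk3 f_pm_112 t 1 1 1 = true :=
  ⟨(l 4), by decide +kernel⟩

theorem c_pm_112 : CertB 536870912 536870912 1073741824 536870912 991146299 28908434 3 eng mog cd3q1 cd5q2 pd1 false true false .dn 1 1 2
    ndB3q1 ndB5q2 pcB1 Cut.none Ext.none :=
  certB0 (fam := false) (s1 := true) (s2 := false) (a := 1) (b := 1) (c := 2) (cn := .dn) (n1 := ndB3q1) (n2 := ndB5q2) (pc := pcB1) (cut := Cut.none) (xt := Ext.none) (P1 := 536870912) (W1 := 536870912) (P2 := 1073741824) (W2 := 536870912) (P3 := 991146299) (W3 := 28908434) (N0 := 3) (En := eng) (mo := mog) (C1 := cd3q1) (C2 := cd5q2) (C3 := pd1)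
    rfl k0_pm_112

noncomputable def f_pm_113 : ℕ → ℕ → ℕ → ℕ → Bool := onCell 536870912 536870912 0 1230186008 991146299 28908434
    (rowB 3 eng mog cd3q1 cd5q3 pd1 0 false true false .nn 1 1 3 (qsf 536870912 536870912 0 1230186008 1) ndB3q1 ndB5q3 pcB1 Cut.none Ext.none)

def k0_pm_113 : ∃ t, chk3 f_pm_113 t 1 1 1 = true :=
  ⟨(b (a (l 2) (b (a (l 2) (a (l 2) (l 16723936))) (l 4))) (l 4)), by decide +kernel⟩

theorem c_pm_113 : CertB 536870912 536870912 0 1230186008 991146299 28908434 3 eng mog cd3q1 cd5q3 pd1 false true false .nn 1 1 3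
    ndB3q1 ndB5q3 pcB1 Cut.none Ext.none :=
  certB0 (fam := false) (s1 := true) (s2 := false) (a := 1) (b := 1) (c := 3) (cn := .nn) (n1 := ndB3q1) (n2 := ndB5q3) (pc := pcB1) (cut := Cut.none) (xt := Ext.none) (P1 := 536870912) (W1 := 536870912) (P2 := 0) (W2 := 1230186008) (P3 := 991146299) (W3 := 28908434) (N0 := 3) (En := eng) (mo := mog) (C1 := cd3q1) (C2 := cd5q3) (C3 := pd1)
    rfl k0_pm_113

noncomputable def f_pm_123 : ℕ → ℕ → ℕ → ℕ → Bool := onCell 1073741824 536870912 0 1230186008 991146299 28908434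
    (rowB 3 eng mog cd3q1 cd5q3 pd2 2 false true false .npn 1 2 3 (qsf 536870912 536870912 0 1230186008 2) ndB3q1 ndB5q3 pcB2 Cut.none Ext.none)

def k0_pm_123 : ∃ t, chk3 f_pm_123 t 1 1 1 = true :=
  ⟨(b (a (b (a (b (a (l 16742032) (l 4)) (l 4)) (l 4)) (l 4)) (l 4)) (l 4)), by decide +kernel⟩

theorem c_pm_123 : CertB 536870912 536870912 0 1230186008 991146299 28908434 3 eng mog cd3q1 cd5q3 pd2 false true false .npn 1 2 3
    ndB3q1 ndB5q3 pcB2 Cut.none Ext.none :=
  certB2 (fam := false) (s1 := true) (s2 := false) (a := 1) (b := 2) (c := 3) (cn := .npn) (n1 := ndB3q1) (n2 := ndB5q3) (pc := pcB2) (cut := Cut.none) (xt := Ext.none) (P1 := 536870912) (W1 := 536870912) (P2 := 0) (W2 := 1230186008) (P3 := 991146299) (W3 := 28908434) (N0 := 3) (En := eng) (mo := mog) (C1 := cd3q1) (C2 := cd5q3) (C3 := pd2)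
    rfl (fun _ => rfl) k0_pm_123

noncomputable def f_pm_133 : ℕ → ℕ → ℕ → ℕ → Bool := onCell 1610612736 536870912 0 1230186008 991146299 28908434
    (rowB 3 eng mog cd3q1 cd5q3 pd3 2 false true false .dn 1 3 3 (qsf 536870912 536870912 0 1230186008 3) ndB3q1 ndB5q3 pcB3 Cut.none Ext.none)

def k0_pm_133 : ∃ t, chk3 f_pm_133 t 1 1 1 = true :=
  ⟨(b (l 4) (l 1)), by decide +kernel⟩

theorem c_pm_133 : CertB 536870912 536870912 0 1230186008 991146299 28908434 3 eng mog cd3q1 cd5q3 pd3 false true false .dn 1 3 3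
    ndB3q1 ndB5q3 pcB3 Cut.none Ext.none :=
  certB2 (fam := false) (s1 := true) (s2 := false) (a := 1) (b := 3) (c := 3) (cn := .dn) (n1 := ndB3q1) (n2 := ndB5q3) (pc := pcB3) (cut := Cut.none) (xt := Ext.none) (P1 := 536870912) (W1 := 536870912) (P2 := 0) (W2 := 1230186008) (P3 := 991146299) (W3 := 28908434) (N0 := 3) (En := eng) (mo := mog) (C1 := cd3q1) (C2 := cd5q3) (C3 := pd3)
    rfl (fun _ => rfl) k0_pm_133

noncomputable def f_pm_202 : ℕ → ℕ → ℕ → ℕ → Bool := onCell 0 536870912 1073741824 536870912 991146299 28908434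
    (rowB 3 eng mog cd3q2 cd5q2 pd0 2 false true false .pp 2 0 2 (qsf 1073741824 536870912 1073741824 536870912 0) ndB3q2 ndB5q2 pcB0 Cut.none Ext.none)

def k0_pm_202 : ∃ t, chk3 f_pm_202 t 1 1 1 = true :=
  ⟨(b (l 4) (b (l 4) (b (a (a (a (l 15445656) (l 4)) (l 4)) (l 4)) (a (a (a (l 15718992) (l 15637008)) (a (l 15546984) (l 15447136))) (a (a (a (l 15363064) (l 4)) (l 4)) (l 4)))))), by decide +kernel⟩

theorem c_pm_202 : CertB 1073741824 536870912 1073741824 536870912 991146299 28908434 3 eng mog cd3q2 cd5q2 pd0 false true false .pp 2 0 2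
    ndB3q2 ndB5q2 pcB0 Cut.none Ext.none :=
  certB2 (fam := false) (s1 := true) (s2 := false) (a := 2) (b := 0) (c := 2) (cn := .pp) (n1 := ndB3q2) (n2 := ndB5q2) (pc := pcB0) (cut := Cut.none) (xt := Ext.none) (P1 := 1073741824) (W1 := 536870912) (P2 := 1073741824) (W2 := 536870912) (P3 := 991146299) (W3 := 28908434) (N0 := 3) (En := eng) (mo := mog) (C1 := cd3q2) (C2 := cd5q2) (C3 := pd0)
    rfl (fun _ => rfl) k0_pm_202

noncomputable def f_pm_203 : ℕ → ℕ → ℕ → ℕ → Bool := onCell 0 536870912 0 1230186008 991146299 28908434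
    (rowB 3 eng mog cd3q2 cd5q3 pd0 2 false true false .up 2 0 3 (qsf 1073741824 536870912 0 1230186008 0) ndB3q2 ndB5q3 pcB0 Cut.none Ext.none)

def k0_pm_203 : ∃ t, chk3 f_pm_203 t 1 1 1 = true :=
  ⟨(b (a (l 2) (b (l 3) (a (l 2) (a (b (l 3) (b (b (l 203103249575) (l 16049888)) (b (l 16119272) (l 16167728)))) (b (b (l 3) (a (l 16035000) (l 16055912))) (b (a (l 16105696) (l 16163104)) (b (l 16245024) (l 16296128)))))))) (b (a (b (l 2) (a (l 2) (b (l 2) (a (l 2) (b (l 2) (l 16200360)))))) (a (a (b (l 2) (b (l 16212080) (l 16270832))) (b (b (b (l 15993320) (l 16151512)) (l 126263692327)) (b (l 16297656) (l 16280296)))) (b (b (a (l 16222936) (l 16342680)) (a (l 16230288) (l 16292856))) (b (a (l 16318600) (l 16283584)) (a (l 16232464) (l 16134816)))))) (a (b (a (l 2) (b (l 15998704) (l 16055880))) (a (b (a (l 2) (l 16006448)) (l 15905808)) (b (l 15891112) (a (l 15812040) (l 15733552))))) (a (a (b (l 16059072) (b (l 15872632) (l 15489816))) (b (l 16030200) (b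 (l 15805376) (b (l 15597328) (l 15418544))))) (b (a (b (l 16042528) (l 15878032)) (b (l 15926696) (b (l 15818224) (l 15775848)))) (a (b (b (l 15783608) (l 15642680)) (b (l 15211400) (a (l 15298536) (l 4)))) (b (b (l 15693640) (l 15474384)) (b (a (l 15286936) (l 15170072)) (l 4))))))))), by decide +kernel⟩

theorem c_pm_203 : CertB 1073741824 536870912 0 1230186008 991146299 28908434 3 eng mog cd3q2 cd5q3 pd0 false true false .up 2 0 3
    ndB3q2 ndB5q3 pcB0 Cut.none Ext.none :=
  certB2 (fam := false) (s1 := true) (s2 := false) (a := 2) (b := 0) (c := 3) (cn := .up) (n1 := ndB3q2) (n2 := ndB5q3) (pc := pcB0) (cut := Cut.none) (xt := Ext.none) (P1 := 1073741824) (W1 := 536870912) (P2 := 0) (W2 := 1230186008) (P3 := 991146299) (W3 := 28908434) (N0 := 3) (En := eng) (mo := mog) (C1 := cd3q2) (C2 := cd5q3) (C3 := pd0)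
    rfl (fun _ => rfl) k0_pm_203

noncomputable def f_pm_213 : ℕ → ℕ → ℕ → ℕ → Bool := onCell 536870912 536870912 0 1230186008 991146299 28908434
    (rowB 3 eng mog cd3q2 cd5q3 pd1 2 false true false .pnn 2 1 3 (qsf 1073741824 536870912 0 1230186008 1) ndB3q2 ndB5q3 pcB1 Cut.none Ext.none)

def k0_pm_213 : ∃ t, chk3 f_pm_213 t 1 2 1 = true :=
  ⟨(a (b (a (l 3) (b (l 3) (a (b (l 3) (a (l 16095528) (l 16084672))) (b (l 122572643815) (a (l 16082544) (l 16098560)))))) (a (b (b (a (a (l 3) (l 16081408)) (a (l 16055968) (l 16025816))) (a (a (l 15984632) (l 15932512)) (l 15864704))) (b (a (b (l 15766752) (a (l 15678520) (l 15712112))) (b (a (l 15734624) (l 15788664)) (a (l 15820008) (l 15978344)))) (a (a (l 15848800) (l 16095120)) (a (l 16214016) (l 16308296))))) (b (a (b (a (l 15999824) (l 15989432)) (a (l 15865944) (l 15921752))) (b (a (l 16008024) (l 16058496)) (a (l 16014312) (l 16135256)))) (a (b (a (l 16013592) (l 16155344)) (l 16382744)) (b (a (l 16261640)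 (l 16349616)) (l 16366024)))))) (a (b (b (a (a (l 3) (l 198271759591)) (a (l 187534365527) (b (l 16298496) (l 16325136)))) (a (a (l 16148536) (l 16208576)) (a (l 16297696) (l 16332920)))) (b (a (a (b (l 16148432) (l 16257320)) (b (l 16261072) (l 16381128))) (a (a (l 16361992) (l 16455936)) (l 16490136))) (a (b (l 16380632) (l 16244928)) (b (l 16293360) (l 16063056))))) (b (a (b (a (b (l 16382000) (l 16434496)) (b (l 16497520) (l 16571024))) (a (b (l 16510712) (l 16580544)) (b (l 16657328) (l 16720240)))) (b (a (a (l 16476952) (l 16536344)) (a (l 16576296) (l 16433392))) (a (b (l 16753456) (l 16767120)) (b (l 16509952) (l 16716968))))) (b (a (a (l 16499008) (l 16594392)) (a (l 16809872) (l 16618456))) (a (b (l 16503568) (l 224445181847)) (b (l 229814048599) (l 1))))))), by decide +kernel⟩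

def k1_pm_213 : ∃ t, chk3 f_pm_213 t 1 3 1 = true :=
  ⟨(a (b (a (b (b (a (l 16470088) (l 16448984)) (a (l 16621248) (l 16296320))) (b (a (l 16217696) (l 16071800)) (a (l 16009448) (l 15857504)))) (b (a (b (l 16353856) (l 16127040)) (b (l 16193752) (l 15918320))) (b (a (l 15881160) (l 15626736)) (a (l 15631936) (l 15107488))))) (b (b (a (a (l 15827216) (l 15646032)) (a (l 15135976) (a (l 15121248) (l 15053320)))) (a (b (l 15587984) (a (l 15571824) (l 15321448))) (a (a (b (l 15236928) (l 15078176)) (b (l 15078280) (l 14978312))) (l 1)))) (b (a (a (b (l 15402424) (l 15174472)) (b (l 15098280) (a (l 14948528) (l 14862256)))) (a (a (b (l 14904256) (l 1)) (l 1)) (l 1))) (a (a (b (l 4) (l 4)) (l 4)) (l 1))))) (b (a (b (a (b (l 15985584) (l 15476656)) (a (b (l 15818328) (l 15524480)) (b (l 15586008) (l 15718056)))) (a (b (a (l 15389808) (l 15307256)) (a (l 15145472) (l 15273672))) (a (a (l 15723896) (l 1)) (l 1)))) (b (a (b (a (l 16023776) (l 1)) (l 1)) (l 1)) (l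 1))) (l 1))), by decide +kernel⟩

theorem s2_pm_213 : ∃ t, chk3 f_pm_213 t 1 1 1 = true := ex3_b k0_pm_213 k1_pm_213

theorem c_pm_213 : CertB 1073741824 536870912 0 1230186008 991146299 28908434 3 eng mog cd3q2 cd5q3 pd1 false true false .pnn 2 1 3
    ndB3q2 ndB5q3 pcB1 Cut.none Ext.none :=
  certB2 (fam := false) (s1 := true) (s2 := false) (a := 2) (b := 1) (c := 3) (cn := .pnn) (n1 := ndB3q2) (n2 := ndB5q3) (pc := pcB1) (cut := Cut.none) (xt := Ext.none) (P1 := 1073741824) (W1 := 536870912) (P2 := 0) (W2 := 1230186008) (P3 := 991146299) (W3 := 28908434) (N0 := 3) (En := eng) (mo := mog) (C1 := cd3q2) (C2 := cd5q3) (C3 := pd1)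
    rfl (fun _ => rfl) s2_pm_213

noncomputable def f_pm_303 : ℕ → ℕ → ℕ → ℕ → Bool := onCell 0 1230186008 0 1230186008 991146299 28908434
    (rowB 3 eng mog cd3q3 cd5q3 pd0 0 false true false .npn 3 0 3 (qsf 0 1230186008 0 1230186008 0) ndB3q3 ndB5q3 pcB0 Cut.none Ext.none)

def k0_pm_303 : ∃ t, chk3 f_pm_303 t 2 1 1 = true :=
  ⟨(b (l 3) (b (b (l 3) (l 1)) (l 1))), by decide +kernel⟩

def k1_pm_303 : ∃ t, chk3 f_pm_303 t 3 2 1 = true :=
  ⟨(a (l 3) (b (l 3) (a (b (l 3) (a (l 3) (b (l 3) (a (l 3) (b (l 3) (l 15879616)))))) (b (l 3) (a (b (l 3) (a (b (l 15977872) (l 15952368)) (b (l 16043944) (l 16049264)))) (b (a (b (l 3) (l 16123976)) (l 154784952999)) (a (b (l 16135608) (l 16164736)) (l 16064752)))))))), by decide +kernel⟩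

def k2_pm_303 : ∃ t, chk3 f_pm_303 t 6 3 1 = true :=
  ⟨(b (a (b (l 3) (b (b (b (l 3) (l 1)) (l 1)) (l 1))) (b (b (l 3) (a (b (l 3) (a (l 3) (l 15157200))) (b (l 194512502807) (a (l 15089968) (l 15317128))))) (b (b (b (b (a (l 14984936) (l 15034088)) (a (l 161761780615) (a (l 15135112) (l 15233384)))) (a (a (l 14945104) (l 15052320)) (a (a (l 15133088) (l 15189688)) (a (b (l 15223768) (l 15258880)) (l 15288032))))) (a (b (a (l 14880384) (l 15044968)) (a (l 1) (l 14988648))) (a (l 15200040) (b (a (l 15309048) (l 15356128)) (a (b (l 15345144) (l 15347432)) (l 15430072)))))) (b (a (l 296381936903) (b (a (l 15151016) (a (l 15322104) (a (l 15413544) (l 15470032)))) (l 15239072))) (a (l 1) (l 15211864)))))) (a (l 1) (b (a (l 1) (b (b (l 15226312) (l 1)) (l 1))) (l 1)))), by decide +kernel⟩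

def k3_pm_303 : ∃ t, chk3 f_pm_303 t 7 6 1 = true :=
  ⟨(a (b (b (a (a (l 233166950807) (l 206860987671)) (a (l 205787246759) (a (l 15844072) (l 164448314679)))) (a (a (c (l 15459008) (b (l 15508928) (l 15332400))) (b (l 15582424) (l 15504040))) (b (a (l 15672960) (l 15774560)) (a (l 15631176) (l 15752848))))) (a (b (b (a (b (l 15352320) (l 15366792)) (l 15462968)) (a (b (a (l 15394560) (l 15438024)) (l 15487784)) (l 15544288))) (a (b (b (a (l 15539968) (l 15580416)) (a (a (l 15493856) (l 15559648)) (l 15615872))) (a (l 15465712) (b (a (l 15567136) (l 15628256)) (l 15558152)))) (b (b (a (l 15602984) (l 15638712)) (l 15662616)) (a (b (l 15678472) (l 15677936)) (b (l 15710552) (l 15741432)))))) (b (b (a (l 15598936) (l 15733256)) (l 15738688)) (b (a (b (l 15725240) (l 15745312)) (l 15871368)) (a (b (l 15758920) (l 15783928)) (b (l 15872840) (l 15872464))))))) (b (b (a (a (b (l 15948408) (l 15941712)) (b (l 16067712) (l 16056808))) (b (a (l 16183776) (l 16300136))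 (a (l 16183216) (l 16306936)))) (a (b (l 15896736) (l 15724624)) (b (l 16154208) (l 16001816)))) (b (a (b (l 15950872) (l 16025128)) (c (l 16234424) (l 16360000))) (a (b (l 16094856) (l 16077592)) (b (l 16401488) (l 16385208)))))), by decide +kernel⟩

def k4_pm_303 : ∃ t, chk3 f_pm_303 t 7 7 1 = true :=
  ⟨(a (b (a (b (b (a (l 15481296) (a (l 15625408) (b (l 15746544) (l 15713600)))) (l 15577472)) (b (l 15638232) (l 1))) (b (a (b (a (b (l 15804864) (l 15815424)) (b (l 15831600) (l 15868864))) (a (l 15787984) (b (l 15884640) (l 15871048)))) (b (b (l 15884280) (l 15909456)) (b (a (l 15933544) (l 15956864)) (a (l 15954272) (l 15998976))))) (b (a (l 15841672) (a (l 15953432) (b (l 16027400) (l 16030448)))) (l 15969624)))) (a (l 1) (b (b (l 16058336) (l 1)) (l 1)))) (b (a (b (a (b (l 15998840) (l 15945336)) (l 16118480)) (a (b (a (b (l 16065256) (l 16098176)) (l 16108472)) (a (b (l 16105344) (l 16110168)) (b (l 16147464) (l 16150408)))) (b (l 16159168) (b (l 16176856)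 (l 16180792))))) (b (l 16306248) (b (l 16258920) (a (l 16217752) (l 16261864))))) (a (b (b (a (l 16125280) (a (b (l 16168808) (l 16157984)) (b (l 16186024) (l 16181600)))) (l 16150376)) (l 16066352)) (b (a (b (b (l 16210720) (l 16205528)) (b (l 16197256) (a (l 16178696) (l 16191448)))) (b (l 16241232) (b (l 16223920) (l 16210736)))) (l 16159736))))), by decide +kernel⟩

theorem s5_pm_303 : ∃ t, chk3 f_pm_303 t 7 3 1 = true := ex3_b k3_pm_303 k4_pm_303

theorem s6_pm_303 : ∃ t, chk3 f_pm_303 t 3 3 1 = true := ex3_a k2_pm_303 s5_pm_303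

theorem s7_pm_303 : ∃ t, chk3 f_pm_303 t 3 1 1 = true := ex3_b k1_pm_303 s6_pm_303

theorem s8_pm_303 : ∃ t, chk3 f_pm_303 t 1 1 1 = true := ex3_a k0_pm_303 s7_pm_303

theorem c_pm_303 : CertB 0 1230186008 0 1230186008 991146299 28908434 3 eng mog cd3q3 cd5q3 pd0 false true false .npn 3 0 3
    ndB3q3 ndB5q3 pcB0 Cut.none Ext.none :=
  certB0 (fam := false) (s1 := true) (s2 := false) (a := 3) (b := 0) (c := 3) (cn := .npn) (n1 := ndB3q3) (n2 := ndB5q3) (pc := pcB0) (cut := Cut.none) (xt := Ext.none) (P1 := 0) (W1 := 1230186008) (P2 := 0) (W2 := 1230186008) (P3 := 991146299) (W3 := 28908434) (N0 := 3) (En := eng) (mo := mog) (C1 := cd3q3) (C2 := cd5q3) (C3 := pd0)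
    rfl s8_pm_303

noncomputable def f_pm_313 : ℕ → ℕ → ℕ → ℕ → Bool := onCell 0 1230186008 0 1230186008 991146299 28908434
    (rowB 3 eng mog cd3q3 cd5q3 pd1 0 false true false .dn 3 1 3 (qsf 0 1230186008 0 1230186008 1) ndB3q3 ndB5q3 pcB1 Cut.none Ext.none)

def k0_pm_313 : ∃ t, chk3 f_pm_313 t 1 1 1 = true :=
  ⟨(a (l 1) (b (b (l 3) (l 1)) (l 1))), by decide +kernel⟩

theorem c_pm_313 : CertB 0 1230186008 0 1230186008 991146299 28908434 3 eng mog cd3q3 cd5q3 pd1 false true false .dn 3 1 3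
    ndB3q3 ndB5q3 pcB1 Cut.none Ext.none :=
  certB0 (fam := false) (s1 := true) (s2 := false) (a := 3) (b := 1) (c := 3) (cn := .dn) (n1 := ndB3q3) (n2 := ndB5q3) (pc := pcB1) (cut := Cut.none) (xt := Ext.none) (P1 := 0) (W1 := 1230186008) (P2 := 0) (W2 := 1230186008) (P3 := 991146299) (W3 := 28908434) (N0 := 3) (En := eng) (mo := mog) (C1 := cd3q3) (C2 := cd5q3) (C3 := pd1)
    rfl k0_pm_313

noncomputable def f_mm_001 : ℕ → ℕ → ℕ → ℕ → Bool := onCell 0 536870912 0 536870912 991146299 28908434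
    (rowB 3 eng mog cd3q0 cd5q1 pd0 1 false false false .up 0 0 1 (qsf 0 536870912 536870912 536870912 0) ndB3q0 ndB5q1 pcB0 Cut.none Ext.none)

def k0_mm_001 : ∃ t, chk3 f_mm_001 t 1 1 1 = true :=
  ⟨(l 3), by decide +kernel⟩

theorem c_mm_001 : CertB 0 536870912 536870912 536870912 991146299 28908434 3 eng mog cd3q0 cd5q1 pd0 false false false .up 0 0 1
    ndB3q0 ndB5q1 pcB0 Cut.none Ext.none :=
  certB1 (fam := false) (s1 := false) (s2 := false) (a := 0) (b := 0) (c := 1) (cn := .up) (n1 := ndB3q0) (n2 := ndB5q1) (pc := pcB0) (cut := Cut.none) (xt := Ext.none) (P1 := 0) (W1 := 536870912) (P2 := 536870912) (W2 := 536870912) (P3 := 991146299) (W3 := 28908434) (N0 := 3) (En := eng) (mo := mog) (C1 := cd3q0) (C2 := cd5q1) (C3 := pd0)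
    rfl (fun _ => rfl) k0_mm_001

noncomputable def f_mm_011 : ℕ → ℕ → ℕ → ℕ → Bool := onCell 0 536870912 536870912 536870912 991146299 28908434
    (rowB 3 eng mog cd3q0 cd5q1 pd1 1 false false false .pnn 0 1 1 (qsf 0 536870912 536870912 536870912 1) ndB3q0 ndB5q1 pcB1 Cut.none Ext.none)

def k0_mm_011 : ∃ t, chk3 f_mm_011 t 1 1 1 = true :=
  ⟨(l 5), by decide +kernel⟩

theorem c_mm_011 : CertB 0 536870912 536870912 536870912 991146299 28908434 3 eng mog cd3q0 cd5q1 pd1 false false false .pnn 0 1 1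
    ndB3q0 ndB5q1 pcB1 Cut.none Ext.none :=
  certB1 (fam := false) (s1 := false) (s2 := false) (a := 0) (b := 1) (c := 1) (cn := .pnn) (n1 := ndB3q0) (n2 := ndB5q1) (pc := pcB1) (cut := Cut.none) (xt := Ext.none) (P1 := 0) (W1 := 536870912) (P2 := 536870912) (W2 := 536870912) (P3 := 991146299) (W3 := 28908434) (N0 := 3) (En := eng) (mo := mog) (C1 := cd3q0) (C2 := cd5q1) (C3 := pd1)
    rfl (fun _ => rfl) k0_mm_011

noncomputable def f_mm_012 : ℕ → ℕ → ℕ → ℕ → Bool := onCell 0 536870912 1073741824 536870912 991146299 28908434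
    (rowB 3 eng mog cd3q0 cd5q2 pd1 0 false false false .pnp 0 1 2 (qsf 0 536870912 1073741824 536870912 1) ndB3q0 ndB5q2 pcB1 Cut.none Ext.none)

def k0_mm_012 : ∃ t, chk3 f_mm_012 t 1 1 1 = true :=
  ⟨(l 5), by decide +kernel⟩

theorem c_mm_012 : CertB 0 536870912 1073741824 536870912 991146299 28908434 3 eng mog cd3q0 cd5q2 pd1 false false false .pnp 0 1 2
    ndB3q0 ndB5q2 pcB1 Cut.none Ext.none :=
  certB0 (fam := false) (s1 := false) (s2 := false) (a := 0) (b := 1) (c := 2) (cn := .pnp) (n1 := ndB3q0) (n2 := ndB5q2) (pc := pcB1) (cut := Cut.none) (xt := Ext.none) (P1 := 0) (W1 := 536870912) (P2 := 1073741824) (W2 := 536870912) (P3 := 991146299) (W3 := 28908434) (N0 := 3) (En := eng) (mo := mog) (C1 := cd3q0) (C2 := cd5q2) (C3 := pd1)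
    rfl k0_mm_012

noncomputable def f_mm_022 : ℕ → ℕ → ℕ → ℕ → Bool := onCell 0 536870912 1073741824 536870912 991146299 28908434
    (rowB 3 eng mog cd3q0 cd5q2 pd2 0 false false false .pp 0 2 2 (qsf 0 536870912 1073741824 536870912 2) ndB3q0 ndB5q2 pcB2 Cut.none Ext.none)

def k0_mm_022 : ∃ t, chk3 f_mm_022 t 1 1 1 = true :=
  ⟨(l 5), by decide +kernel⟩

theorem c_mm_022 : CertB 0 536870912 1073741824 536870912 991146299 28908434 3 eng mog cd3q0 cd5q2 pd2 false false false .pp 0 2 2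
    ndB3q0 ndB5q2 pcB2 Cut.none Ext.none :=
  certB0 (fam := false) (s1 := false) (s2 := false) (a := 0) (b := 2) (c := 2) (cn := .pp) (n1 := ndB3q0) (n2 := ndB5q2) (pc := pcB2) (cut := Cut.none) (xt := Ext.none) (P1 := 0) (W1 := 536870912) (P2 := 1073741824) (W2 := 536870912) (P3 := 991146299) (W3 := 28908434) (N0 := 3) (En := eng) (mo := mog) (C1 := cd3q0) (C2 := cd5q2) (C3 := pd2)
    rfl k0_mm_022

noncomputable def f_mm_023 : ℕ → ℕ → ℕ → ℕ → Bool := onCell 0 536870912 0 1230186008 991146299 28908434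
    (rowB 3 eng mog cd3q0 cd5q3 pd2 0 false false false .up 0 2 3 (qsf 0 536870912 0 1230186008 2) ndB3q0 ndB5q3 pcB2 Cut.none Ext.none)

def k0_mm_023 : ∃ t, chk3 f_mm_023 t 1 1 1 = true :=
  ⟨(l 5), by decide +kernel⟩

theorem c_mm_023 : CertB 0 536870912 0 1230186008 991146299 28908434 3 eng mog cd3q0 cd5q3 pd2 false false false .up 0 2 3
    ndB3q0 ndB5q3 pcB2 Cut.none Ext.none :=
  certB0 (fam := false) (s1 := false) (s2 := false) (a := 0) (b := 2) (c := 3) (cn := .up) (n1 := ndB3q0) (n2 := ndB5q3) (pc := pcB2) (cut := Cut.none) (xt := Ext.none) (P1 := 0) (W1 := 536870912) (P2 := 0) (W2 := 1230186008) (P3 := 991146299) (W3 := 28908434) (N0 := 3) (En := eng) (mo := mog) (C1 := cd3q0) (C2 := cd5q3) (C3 := pd2)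
    rfl k0_mm_023

noncomputable def f_mm_033 : ℕ → ℕ → ℕ → ℕ → Bool := onCell 0 536870912 0 1230186008 991146299 28908434
    (rowB 3 eng mog cd3q0 cd5q3 pd3 0 false false false .pnn 0 3 3 (qsf 0 536870912 0 1230186008 3) ndB3q0 ndB5q3 pcB3 Cut.none Ext.none)

def k0_mm_033 : ∃ t, chk3 f_mm_033 t 1 1 1 = true :=
  ⟨(l 5), by decide +kernel⟩

theorem c_mm_033 : CertB 0 536870912 0 1230186008 991146299 28908434 3 eng mog cd3q0 cd5q3 pd3 false false false .pnn 0 3 3
    ndB3q0 ndB5q3 pcB3 Cut.none Ext.none :=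
  certB0 (fam := false) (s1 := false) (s2 := false) (a := 0) (b := 3) (c := 3) (cn := .pnn) (n1 := ndB3q0) (n2 := ndB5q3) (pc := pcB3) (cut := Cut.none) (xt := Ext.none) (P1 := 0) (W1 := 536870912) (P2 := 0) (W2 := 1230186008) (P3 := 991146299) (W3 := 28908434) (N0 := 3) (En := eng) (mo := mog) (C1 := cd3q0) (C2 := cd5q3) (C3 := pd3)
    rfl k0_mm_033

noncomputable def f_mm_101 : ℕ → ℕ → ℕ → ℕ → Bool := onCell 536870912 536870912 536870912 536870912 991146299 28908434
    (rowB 3 eng mog cd3q1 cd5q1 pd0 0 false false false .npn 1 0 1 (qsf 536870912 536870912 536870912 536870912 0) ndB3q1 ndB5q1 pcB0 Cut.none Ext.none)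

def k0_mm_101 : ∃ t, chk3 f_mm_101 t 1 1 1 = true :=
  ⟨(l 3), by decide +kernel⟩

theorem c_mm_101 : CertB 536870912 536870912 536870912 536870912 991146299 28908434 3 eng mog cd3q1 cd5q1 pd0 false false false .npn 1 0 1
    ndB3q1 ndB5q1 pcB0 Cut.none Ext.none :=
  certB0 (fam := false) (s1 := false) (s2 := false) (a := 1) (b := 0) (c := 1) (cn := .npn) (n1 := ndB3q1) (n2 := ndB5q1) (pc := pcB0) (cut := Cut.none) (xt := Ext.none) (P1 := 536870912) (W1 := 536870912) (P2 := 536870912) (W2 := 536870912) (P3 := 991146299) (W3 := 28908434) (N0 := 3) (En := eng) (mo := mog) (C1 := cd3q1) (C2 := cd5q1) (C3 := pd0)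
    rfl k0_mm_101

noncomputable def f_mm_102 : ℕ → ℕ → ℕ → ℕ → Bool := onCell 536870912 536870912 1073741824 536870912 991146299 28908434
    (rowB 3 eng mog cd3q1 cd5q2 pd0 0 false false false .npp 1 0 2 (qsf 536870912 536870912 1073741824 536870912 0) ndB3q1 ndB5q2 pcB0 Cut.none Ext.none)

def k0_mm_102 : ∃ t, chk3 f_mm_102 t 1 1 1 = true :=
  ⟨(l 3), by decide +kernel⟩

theorem c_mm_102 : CertB 536870912 536870912 1073741824 536870912 991146299 28908434 3 eng mog cd3q1 cd5q2 pd0 false false false .npp 1 0 2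
    ndB3q1 ndB5q2 pcB0 Cut.none Ext.none :=
  certB0 (fam := false) (s1 := false) (s2 := false) (a := 1) (b := 0) (c := 2) (cn := .npp) (n1 := ndB3q1) (n2 := ndB5q2) (pc := pcB0) (cut := Cut.none) (xt := Ext.none) (P1 := 536870912) (W1 := 536870912) (P2 := 1073741824) (W2 := 536870912) (P3 := 991146299) (W3 := 28908434) (N0 := 3) (En := eng) (mo := mog) (C1 := cd3q1) (C2 := cd5q2) (C3 := pd0)
    rfl k0_mm_102

noncomputable def f_mm_112 : ℕ → ℕ → ℕ → ℕ → Bool := onCell 536870912 536870912 1073741824 536870912 991146299 28908434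
    (rowB 3 eng mog cd3q1 cd5q2 pd1 0 false false false .dn 1 1 2 (qsf 536870912 536870912 1073741824 536870912 1) ndB3q1 ndB5q2 pcB1 Cut.none Ext.none)

def k0_mm_112 : ∃ t, chk3 f_mm_112 t 1 1 1 = true :=
  ⟨(l 3), by decide +kernel⟩

theorem c_mm_112 : CertB 536870912 536870912 1073741824 536870912 991146299 28908434 3 eng mog cd3q1 cd5q2 pd1 false false false .dn 1 1 2
    ndB3q1 ndB5q2 pcB1 Cut.none Ext.none :=
  certB0 (fam := false) (s1 := false) (s2 := false) (a := 1) (b := 1) (c := 2) (cn := .dn) (n1 := ndB3q1) (n2 := ndB5q2) (pc := pcB1) (cut := Cut.none) (xt := Ext.none) (P1 := 536870912) (W1 := 536870912) (P2 := 1073741824) (W2 := 536870912) (P3 := 991146299) (W3 := 28908434) (N0 := 3) (En := eng) (mo := mog) (C1 := cd3q1) (C2 := cd5q2) (C3 := pd1)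
    rfl k0_mm_112

noncomputable def f_mm_113 : ℕ → ℕ → ℕ → ℕ → Bool := onCell 536870912 536870912 0 1230186008 991146299 28908434
    (rowB 3 eng mog cd3q1 cd5q3 pd1 0 false false false .nn 1 1 3 (qsf 536870912 536870912 0 1230186008 1) ndB3q1 ndB5q3 pcB1 Cut.none Ext.none)

def k0_mm_113 : ∃ t, chk3 f_mm_113 t 1 1 1 = true :=
  ⟨(l 5), by decide +kernel⟩

theorem c_mm_113 : CertB 536870912 536870912 0 1230186008 991146299 28908434 3 eng mog cd3q1 cd5q3 pd1 false false false .nn 1 1 3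
    ndB3q1 ndB5q3 pcB1 Cut.none Ext.none :=
  certB0 (fam := false) (s1 := false) (s2 := false) (a := 1) (b := 1) (c := 3) (cn := .nn) (n1 := ndB3q1) (n2 := ndB5q3) (pc := pcB1) (cut := Cut.none) (xt := Ext.none) (P1 := 536870912) (W1 := 536870912) (P2 := 0) (W2 := 1230186008) (P3 := 991146299) (W3 := 28908434) (N0 := 3) (En := eng) (mo := mog) (C1 := cd3q1) (C2 := cd5q3) (C3 := pd1)
    rfl k0_mm_113

noncomputable def f_mm_123 : ℕ → ℕ → ℕ → ℕ → Bool := onCell 536870912 536870912 0 1230186008 991146299 28908434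
    (rowB 3 eng mog cd3q1 cd5q3 pd2 0 false false false .npn 1 2 3 (qsf 536870912 536870912 0 1230186008 2) ndB3q1 ndB5q3 pcB2 Cut.none Ext.none)

def k0_mm_123 : ∃ t, chk3 f_mm_123 t 1 1 1 = true :=
  ⟨(l 5), by decide +kernel⟩

theorem c_mm_123 : CertB 536870912 536870912 0 1230186008 991146299 28908434 3 eng mog cd3q1 cd5q3 pd2 false false false .npn 1 2 3
    ndB3q1 ndB5q3 pcB2 Cut.none Ext.none :=
  certB0 (fam := false) (s1 := false) (s2 := false) (a := 1) (b := 2) (c := 3) (cn := .npn) (n1 := ndB3q1) (n2 := ndB5q3) (pc := pcB2) (cut := Cut.none) (xt := Ext.none) (P1 := 536870912) (W1 := 536870912) (P2 := 0) (W2 := 1230186008) (P3 := 991146299) (W3 := 28908434) (N0 := 3) (En := eng) (mo := mog) (C1 := cd3q1) (C2 := cd5q3) (C3 := pd2)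
    rfl k0_mm_123

noncomputable def f_mm_133 : ℕ → ℕ → ℕ → ℕ → Bool := onCell 536870912 536870912 0 1230186008 991146299 28908434
    (rowB 3 eng mog cd3q1 cd5q3 pd3 0 false false false .dn 1 3 3 (qsf 536870912 536870912 0 1230186008 3) ndB3q1 ndB5q3 pcB3 Cut.none Ext.none)

def k0_mm_133 : ∃ t, chk3 f_mm_133 t 1 1 1 = true :=
  ⟨(l 5), by decide +kernel⟩

theorem c_mm_133 : CertB 536870912 536870912 0 1230186008 991146299 28908434 3 eng mog cd3q1 cd5q3 pd3 false false false .dn 1 3 3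
    ndB3q1 ndB5q3 pcB3 Cut.none Ext.none :=
  certB0 (fam := false) (s1 := false) (s2 := false) (a := 1) (b := 3) (c := 3) (cn := .dn) (n1 := ndB3q1) (n2 := ndB5q3) (pc := pcB3) (cut := Cut.none) (xt := Ext.none) (P1 := 536870912) (W1 := 536870912) (P2 := 0) (W2 := 1230186008) (P3 := 991146299) (W3 := 28908434) (N0 := 3) (En := eng) (mo := mog) (C1 := cd3q1) (C2 := cd5q3) (C3 := pd3)
    rfl k0_mm_133

noncomputable def f_mm_202 : ℕ → ℕ → ℕ → ℕ → Bool := onCell 1073741824 536870912 0 536870912 991146299 28908434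
    (rowB 3 eng mog cd3q2 cd5q2 pd0 1 false false false .pp 2 0 2 (qsf 1073741824 536870912 1073741824 536870912 0) ndB3q2 ndB5q2 pcB0 Cut.none Ext.none)

def k0_mm_202 : ∃ t, chk3 f_mm_202 t 1 1 1 = true :=
  ⟨(a (l 3) (b (l 3) (a (l 3) (l 2)))), by decide +kernel⟩

theorem c_mm_202 : CertB 1073741824 536870912 1073741824 536870912 991146299 28908434 3 eng mog cd3q2 cd5q2 pd0 false false false .pp 2 0 2
    ndB3q2 ndB5q2 pcB0 Cut.none Ext.none :=
  certB1 (fam := false) (s1 := false) (s2 := false) (a := 2) (b := 0) (c := 2) (cn := .pp) (n1 := ndB3q2) (n2 := ndB5q2) (pc := pcB0) (cut := Cut.none) (xt := Ext.none) (P1 := 1073741824) (W1 := 536870912) (P2 := 1073741824) (W2 := 536870912) (P3 := 991146299) (W3 := 28908434) (N0 := 3) (En := eng) (mo := mog) (C1 := cd3q2) (C2 := cd5q2) (C3 := pd0)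
    rfl (fun _ => rfl) k0_mm_202

noncomputable def f_mm_203 : ℕ → ℕ → ℕ → ℕ → Bool := onCell 1073741824 536870912 0 1230186008 991146299 28908434
    (rowB 3 eng mog cd3q2 cd5q3 pd0 0 false false false .up 2 0 3 (qsf 1073741824 536870912 0 1230186008 0) ndB3q2 ndB5q3 pcB0 Cut.none Ext.none)

def k0_mm_203 : ∃ t, chk3 f_mm_203 t 1 1 1 = true :=
  ⟨(b (l 5) (l 3)), by decide +kernel⟩

theorem c_mm_203 : CertB 1073741824 536870912 0 1230186008 991146299 28908434 3 eng mog cd3q2 cd5q3 pd0 false false false .up 2 0 3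
    ndB3q2 ndB5q3 pcB0 Cut.none Ext.none :=
  certB0 (fam := false) (s1 := false) (s2 := false) (a := 2) (b := 0) (c := 3) (cn := .up) (n1 := ndB3q2) (n2 := ndB5q3) (pc := pcB0) (cut := Cut.none) (xt := Ext.none) (P1 := 1073741824) (W1 := 536870912) (P2 := 0) (W2 := 1230186008) (P3 := 991146299) (W3 := 28908434) (N0 := 3) (En := eng) (mo := mog) (C1 := cd3q2) (C2 := cd5q3) (C3 := pd0)
    rfl k0_mm_203

noncomputable def f_mm_213 : ℕ → ℕ → ℕ → ℕ → Bool := onCell 1073741824 536870912 0 1230186008 991146299 28908434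
    (rowB 3 eng mog cd3q2 cd5q3 pd1 0 false false false .pnn 2 1 3 (qsf 1073741824 536870912 0 1230186008 1) ndB3q2 ndB5q3 pcB1 Cut.none Ext.none)

def k0_mm_213 : ∃ t, chk3 f_mm_213 t 1 1 1 = true :=
  ⟨(b (l 5) (l 3)), by decide +kernel⟩

theorem c_mm_213 : CertB 1073741824 536870912 0 1230186008 991146299 28908434 3 eng mog cd3q2 cd5q3 pd1 false false false .pnn 2 1 3
    ndB3q2 ndB5q3 pcB1 Cut.none Ext.none :=
  certB0 (fam := false) (s1 := false) (s2 := false) (a := 2) (b := 1) (c := 3) (cn := .pnn) (n1 := ndB3q2) (n2 := ndB5q3) (pc := pcB1) (cut := Cut.none) (xt := Ext.none) (P1 := 1073741824) (W1 := 536870912) (P2 := 0) (W2 := 1230186008) (P3 := 991146299) (W3 := 28908434) (N0 := 3) (En := eng) (mo := mog) (C1 := cd3q2) (C2 := cd5q3) (C3 := pd1)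
    rfl k0_mm_213

noncomputable def f_mm_303 : ℕ → ℕ → ℕ → ℕ → Bool := onCell 0 1230186008 0 1230186008 991146299 28908434
    (rowB 3 eng mog cd3q3 cd5q3 pd0 0 false false false .npn 3 0 3 (qsf 0 1230186008 0 1230186008 0) ndB3q3 ndB5q3 pcB0 Cut.none Ext.none)

def k0_mm_303 : ∃ t, chk3 f_mm_303 t 1 1 1 = true :=
  ⟨(a (b (l 3) (b (l 3) (l 1))) (b (l 3) (a (b (l 3) (a (l 1) (l 3))) (l 3)))), by decide +kernel⟩

theorem c_mm_303 : CertB 0 1230186008 0 1230186008 991146299 28908434 3 eng mog cd3q3 cd5q3 pd0 false false false .npn 3 0 3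
    ndB3q3 ndB5q3 pcB0 Cut.none Ext.none :=
  certB0 (fam := false) (s1 := false) (s2 := false) (a := 3) (b := 0) (c := 3) (cn := .npn) (n1 := ndB3q3) (n2 := ndB5q3) (pc := pcB0) (cut := Cut.none) (xt := Ext.none) (P1 := 0) (W1 := 1230186008) (P2 := 0) (W2 := 1230186008) (P3 := 991146299) (W3 := 28908434) (N0 := 3) (En := eng) (mo := mog) (C1 := cd3q3) (C2 := cd5q3) (C3 := pd0)
    rfl k0_mm_303

noncomputable def f_mm_313 : ℕ → ℕ → ℕ → ℕ → Bool := onCell 0 1230186008 0 1230186008 991146299 28908434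
    (rowB 3 eng mog cd3q3 cd5q3 pd1 0 false false false .dn 3 1 3 (qsf 0 1230186008 0 1230186008 1) ndB3q3 ndB5q3 pcB1 Cut.none Ext.none)

def k0_mm_313 : ∃ t, chk3 f_mm_313 t 1 1 1 = true :=
  ⟨(a (l 1) (b (l 3) (l 1))), by decide +kernel⟩

theorem c_mm_313 : CertB 0 1230186008 0 1230186008 991146299 28908434 3 eng mog cd3q3 cd5q3 pd1 false false false .dn 3 1 3
    ndB3q3 ndB5q3 pcB1 Cut.none Ext.none :=
  certB0 (fam := false) (s1 := false) (s2 := false) (a := 3) (b := 1) (c := 3) (cn := .dn) (n1 := ndB3q3) (n2 := ndB5q3) (pc := pcB1) (cut := Cut.none) (xt := Ext.none) (P1 := 0) (W1 := 1230186008) (P2 := 0) (W2 := 1230186008) (P3 := 991146299) (W3 := 28908434) (N0 := 3) (En := eng) (mo := mog) (C1 := cd3q3) (C2 := cd5q3) (C3 := pd1)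
    rfl k0_mm_313

end Pool.Agent.Strip051.G.I9231_9500.Tab.C.BB35

namespace Pool.Agent.Strip051.G.I9231_9500.Tab.C.BB40

open Pool.Agent.Strip051.PB Pool.Agent.Strip051.PB.T
open Pool.Agent.Strip051.G.I9231_9500.Tab

noncomputable def f_pp_001 : ℕ → ℕ → ℕ → ℕ → Bool := onCell 0 536870912 536870912 536870912 991146299 28908434
    (rowB 3 eng mog cd4q0 cd0q1 pd0 2 false true true .up 0 0 1 (qsf 0 536870912 536870912 536870912 0) ndB4q0 ndB0q1 pcB0 Cut.none Ext.none)

def k0_pp_001 : ∃ t, chk3 f_pp_001 t 1 2 1 = true :=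
  ⟨(l 3), by decide +kernel⟩

def k1_pp_001 : ∃ t, chk3 f_pp_001 t 2 6 1 = true :=
  ⟨(l 3), by decide +kernel⟩

def k2_pp_001 : ∃ t, chk3 f_pp_001 t 3 12 1 = true :=
  ⟨(l 3), by decide +kernel⟩

def k3_pp_001 : ∃ t, chk3 f_pp_001 t 6 13 1 = true :=
  ⟨(l 3), by decide +kernel⟩

def k4_pp_001 : ∃ t, chk3 f_pp_001 t 14 13 1 = true :=
  ⟨(b (l 3) (a (b (l 3) (b (l 3) (b (a (l 3) (a (l 3) (c (c (l 283097489927) (a (l 269138667527) (l 241221384551))) (c (a (l 266990997175) (l 240684326983)) (b (l 257864016295) (l 294371231399)))))) (a (a (l 3) (a (l 3) (b (l 3) (c (c (l 275581276791) (l 273433600279)) (c (l 271285929639) (l 269138264359)))))) (c (c (a (b (l 279339359703) (l 266991350807)) (l 16193760)) (a (a (b (l 260548711591) (l 16048784)) (l 259474971767)) (l 16081672))) (c (a (a (a (l 233168103047) (l 244979265751)) (l 260011655943)) (l 15964272)) (a (a (l 238536632263) (l 260011474855)) (l 15862968)))))))) (a (b (l 3) (a (b (b (l 3) (c (c (l 272896970439)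 (l 271286176471)) (c (l 269138506615) (l 268064584199)))) (c (b (c (l 16154224) (l 266454325095)) (l 16145616)) (b (c (a (l 262696039783) (l 15981192)) (l 268064571815)) (l 15901984)))) (b (b (a (l 3) (c (l 262159510231) (l 256253517255))) (c (c (l 249811530183) (l 250348218887)) (c (l 251421775559) (l 251958466551)))) (c (b (l 16131928) (l 16152248)) (c (l 15983752) (l 15863008)))))) (a (b (l 3) (b (c (b (c (l 233168554775) (l 233705239479)) (c (l 16223264) (l 16114520))) (a (c (l 249274304711) (l 250347867847)) (c (l 262696082327) (l 264306517015)))) (c (l 16161144) (l 15931672)))) (b (b (l 3) (b (l 3) (b (l 3) (c (l 294371782007) (l 292223894999))))) (b (c (c (l 16230448) (l 275581177511)) (c (l 278265346775) (l 280412653415))) (c (l 16166512) (l 15938888)))))))), by decide +kernel⟩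

def k5_pp_001 : ∃ t, chk3 f_pp_001 t 15 13 1 = true :=
  ⟨(b (b (l 3) (b (l 3) (a (l 3) (a (c (l 304035516823) (l 304035158935)) (c (l 239611003383) (l 244979363239)))))) (a (a (b (b (l 3) (c (a (b (l 273970707239) (l 250885246903)) (b (l 232631649383) (l 16193016))) (a (c (l 231557603415) (l 232631169655)) (b (l 236926231207) (l 15971912))))) (c (b (a (l 16181736) (l 16185528)) (l 16173472)) (b (a (l 15952168) (l 15963264)) (l 15948800)))) (b (b (c (a (l 293298081207) (l 228336700535)) (a (l 292223966343) (l 232631298711))) (c (a (l 275581325463) (l 16200568)) (c (l 283097231095) (l 286855156647)))) (c (l 16185384) (l 15965712)))) (c (b (a (b (a (l 251959021623) (l 16211800)) (l 16202856)) (l 16186816)) (a (l 16189840) (l 16191872))) (b (a (b (a (l 258937977799) (l 16002320)) (l 15990272)) (b (l 16006392) (l 15996624))) (a (l 15974960) (l 15982344)))))), by decide +kernel⟩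

def k6_pp_001 : ∃ t, chk3 f_pp_001 t 2 7 1 = true :=
  ⟨(l 2), by decide +kernel⟩

def k7_pp_001 : ∃ t, chk3 f_pp_001 t 3 7 1 = true :=
  ⟨(a (b (b (b (b (b (b (l 3) (l 2)) (l 2)) (l 2)) (l 2)) (l 2)) (l 2)) (b (a (b (a (a (b (c (c (b (b (a (b (l 261085793511) (a (l 269675663511) (l 259475122007))) (a (l 257864519767) (l 16173824))) (a (l 198204716007) (l 16164848))) (l 209479011879)) (b (b (a (a (c (l 262159376311) (l 258938033351)) (b (l 254643100151) (l 258401187895))) (a (b (l 245516299655) (l 16053688)) (l 16060080))) (a (l 197667653063) (l 16050760))) (l 207868189351))) (c (b (b (a (a (c (l 254642946167) (l 250884727543)) (b (l 251421687431) (l 257864129879))) (a (b (l 244442370615) (l 15934408)) (l 15941184))) (a (l 196593724311) (l 15931464))) (l 207868003079)) (b (c (b (a (b (l 240684065415) (l 277191342871)) (l 260548361959)) (l 199814820935)) (b (a (b (l 236388971591) (l 273433126071)) (l 261621996071)) (l 198204088423))) (l 207867822439)))) (c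 (l 222900659095) (l 232563916919))) (c (b (b (a (b (c (l 16179872) (l 16066744)) (l 16117320)) (b (l 16132016) (l 16125592))) (l 16111656)) (l 16091872)) (b (b (a (b (c (l 15948360) (l 15825120)) (l 15880160)) (c (l 15954120) (l 15831296))) (l 15874536)) (l 15853648)))) (b (c (a (c (l 16188648) (l 16077576)) (l 16147200)) (a (c (l 15960688) (l 15838472)) (l 15916960))) (c (l 16117672) (l 15883936)))) (a (c (b (l 16054576) (l 2)) (l 272829215527)) (c (b (l 16094992) (l 16072696)) (l 15889832)))) (c (b (a (b (a (l 16158128) (l 16166632)) (l 16143432)) (l 16082792)) (a (l 16116056) (l 16137320))) (b (a (b (l 15959328) (l 15917208)) (l 15950888)) (a (l 15887296) (l 15917776))))) (b (b (a (a (l 2) (l 254038416871)) (a (l 15852504) (a (l 16004264) (l 15955136)))) (a (l 2) (c (a (l 16067952) (l 16096280)) (a (l 15839504) (l 15880784))))) (a (l 2) (c (a (l 16014104) (l 16050312)) (a (l 15817224) (l 15865560))))))), by decide +kernel⟩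

theorem s8_pp_001 : ∃ t, chk3 f_pp_001 t 1 7 1 = true := ex3_a k6_pp_001 k7_pp_001

theorem s9_pp_001 : ∃ t, chk3 f_pp_001 t 7 13 1 = true := ex3_a k4_pp_001 k5_pp_001

theorem s10_pp_001 : ∃ t, chk3 f_pp_001 t 3 13 1 = true := ex3_a k3_pp_001 s9_pp_001

theorem s11_pp_001 : ∃ t, chk3 f_pp_001 t 3 6 1 = true := ex3_b k2_pp_001 s10_pp_001

theorem s12_pp_001 : ∃ t, chk3 f_pp_001 t 1 6 1 = true := ex3_a k1_pp_001 s11_pp_001

theorem s13_pp_001 : ∃ t, chk3 f_pp_001 t 1 3 1 = true := ex3_b s12_pp_001 s8_pp_001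

theorem s14_pp_001 : ∃ t, chk3 f_pp_001 t 1 1 1 = true := ex3_b k0_pp_001 s13_pp_001

theorem c_pp_001 : CertB 0 536870912 536870912 536870912 991146299 28908434 3 eng mog cd4q0 cd0q1 pd0 false true true .up 0 0 1
    ndB4q0 ndB0q1 pcB0 Cut.none Ext.none :=
  certB2 (fam := false) (s1 := true) (s2 := true) (a := 0) (b := 0) (c := 1) (cn := .up) (n1 := ndB4q0) (n2 := ndB0q1) (pc := pcB0) (cut := Cut.none) (xt := Ext.none) (P1 := 0) (W1 := 536870912) (P2 := 536870912) (W2 := 536870912) (P3 := 991146299) (W3 := 28908434) (N0 := 3) (En := eng) (mo := mog) (C1 := cd4q0) (C2 := cd0q1) (C3 := pd0)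
    rfl (fun _ => rfl) s14_pp_001

noncomputable def f_pp_011 : ℕ → ℕ → ℕ → ℕ → Bool := onCell 536870912 536870912 536870912 536870912 991146299 28908434
    (rowB 3 eng mog cd4q0 cd0q1 pd1 2 false true true .pnn 0 1 1 (qsf 0 536870912 536870912 536870912 1) ndB4q0 ndB0q1 pcB1 Cut.none Ext.none)

def k0_pp_011 : ∃ t, chk3 f_pp_011 t 2 2 1 = true :=
  ⟨(a (l 3) (b (a (b (l 1) (l 3)) (l 1)) (a (l 3) (l 3)))), by decide +kernel⟩

def k1_pp_011 : ∃ t, chk3 f_pp_011 t 2 6 1 = true :=
  ⟨(a (b (a (l 3) (b (l 3) (b (a (l 3) (a (l 3) (l 381344853655))) (a (b (l 3) (a (l 366849289447) (l 231557812551))) (a (c (l 16169824) (l 16030008)) (l 16065832)))))) (a (b (b (a (a (l 3) (c (l 328194717319) (l 333026251751))) (c (a (l 212767453015) (l 234779142567)) (a (l 214914646551) (l 240684419959)))) (a (c (a (b (l 337858383847) (l 16208176)) (b (l 16193448) (l 16197480))) (a (b (l 342153021287) (l 15988736)) (b (l 16009376) (l 16004368)))) (c (a (l 16194776) (l 16183064))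 (a (l 16009328) (l 16003736))))) (a (c (b (a (l 16175808) (l 16167144)) (l 16120944)) (b (a (l 15972344) (l 15968800)) (l 15914320))) (c (b (l 16154096) (l 16109640)) (b (l 15964144) (l 15913400))))) (b (a (a (b (c (l 16192568) (l 16028576)) (l 16087296)) (c (l 16169312) (l 16007608))) (c (l 16127376) (l 15976424))) (c (a (l 16118848) (l 16104608)) (a (l 15937808) (l 15937104)))))) (b (a (b (a (l 3) (c (b (l 3) (l 16050872)) (l 173575847911))) (a (c (b (l 220820612007) (l 16121432)) (b (l 217062409559) (l 16000784))) (c (b (l 16066168) (l 16078176)) (l 16056936)))) (a (b (c (b (l 212767231383) (a (l 16004136) (l 15971360))) (b (l 191292304967) (l 15984872))) (c (b (l 16011032) (l 16028896)) (l 16060048))) (b (c (b (a (l 190218454775) (b (l 201492597959) (l 15874168))) (a (l 15936960) (l 15900720))) (b (a (l 15864056) (l 157469189703)) (a (l 15879056) (l 15846424)))) (c (b (l 15948552) (l 15972496)) (a (l 15897688) (l 15869152)))))) (a (a (b (b (l 16036448)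 (l 16045584)) (c (l 16088960) (l 15936008))) (b (c (l 16084416) (l 15963096)) (c (l 16069816) (l 15931848)))) (a (b (c (l 16044600) (l 15936544)) (c (l 16044512) (l 15920840))) (b (c (l 15997528) (l 15898688)) (c (l 16010512) (l 15898312))))))), by decide +kernel⟩

def k2_pp_011 : ∃ t, chk3 f_pp_011 t 2 7 1 = true :=
  ⟨(a (b (a (b (c (a (l 16025312) (l 16023856)) (a (l 15812728) (l 15820736))) (c (a (l 15859344) (l 15872264)) (a (l 15643128) (l 15664344)))) (b (c (a (l 16024440) (l 16026408)) (a (l 15832528) (l 15847360))) (a (b (l 15831984) (a (l 15746536) (l 15764424))) (b (l 15854120) (b (l 15804928) (l 15785552)))))) (b (a (b (a (b (l 15626568) (a (l 15579528) (l 15608856))) (b (a (l 15650448) (l 15674584)) (l 15664136))) (a (a (l 15604816) (l 15640592)) (l 15693336))) (a (b (a (l 15710840) (l 15746032)) (l 15760464)) (b (l 15794952) (l 15821744)))) (a (a (b (l 15680240) (l 15765728)) (b (l 15745000) (l 15824672))) (a (b (l 15806712) (l 15880992)) (b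 (l 15863240) (l 15932856)))))) (b (a (b (a (c (l 16028152) (l 15863472)) (c (l 16027072) (l 15877912))) (a (b (l 15878480) (b (l 15845152) (l 15842992))) (b (l 15778304) (l 15888376)))) (b (a (c (l 16019496) (l 15886384)) (c (l 16000816) (l 15883168))) (a (b (c (l 15987952) (l 15853408)) (l 15917288)) (b (l 15927464) (l 15923392))))) (a (b (a (b (l 15851696) (l 15874504)) (b (l 15895648) (l 15915728))) (a (b (l 15912240) (l 15978232)) (b (l 15951064) (l 16014912)))) (b (a (b (l 15922952) (l 15941904)) (l 15727888)) (a (l 15816160) (l 15809432)))))), by decide +kernel⟩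

def k3_pp_011 : ∃ t, chk3 f_pp_011 t 3 2 1 = true :=
  ⟨(a (b (l 1) (a (b (l 1) (a (a (l 3) (l 1)) (l 1))) (l 1))) (l 1)), by decide +kernel⟩

def k4_pp_011 : ∃ t, chk3 f_pp_011 t 6 3 1 = true :=
  ⟨(b (a (b (a (b (c (b (a (b (a (l 198808185799) (l 402148031655)) (l 166998645111)) (b (l 1) (l 372620190151))) (a (l 15862784) (b (l 301753254247) (l 15837288)))) (b (a (b (l 322154269687) (l 15796720)) (l 345239774535)) (a (l 15810176) (l 257192939111)))) (a (c (l 15912576) (l 15837256)) (b (c (l 15862728) (l 15792912)) (l 15853176)))) (a (b (b (l 1) (c (l 387115807127) (l 345239802183))) (c (b (l 314101400903) (l 15867040)) (b (l 15767512) (l 15777648)))) (b (l 1) (c (l 339334596055) (l 301753499943))))) (a (b (c (l 15944904) (l 15847288)) (c (l 15967656) (l 15860216))) (b (c (b (l 15886480) (l 15908696)) (b (l 15780608) (l 15794992))) (c (l 15924920) (l 15808560))))) (b (a (b (l 1) (b (l 1) (c (l 428455374839) (l 388726710503)))) (l 1)) (a (b (c (b (l 360809624407)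 (l 15926448)) (b (l 328060232631) (l 15777464))) (c (l 15921928) (l 15769608))) (b (c (l 463888798247) (l 428992026071)) (c (l 375304794551) (l 353292966391)))))) (b (a (b (a (b (l 15917608) (l 15913800)) (b (l 15870768) (l 15865248))) (a (l 15902440) (l 15849920))) (b (a (b (l 15829320) (l 15806848)) (b (l 15898144) (l 15822872))) (a (c (l 15802760) (l 15739160)) (b (l 15747576) (l 15687152))))) (a (a (b (l 15813624) (l 15754536)) (b (l 15742000) (l 15700512))) (b (a (l 15591112) (b (l 15655864) (l 15674504))) (a (l 15567432) (b (l 15636848) (l 15581360))))))), by decide +kernel⟩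

def k5_pp_011 : ∃ t, chk3 f_pp_011 t 7 3 1 = true :=
  ⟨(b (a (a (a (b (l 1) (b (l 1) (l 499858524647))) (l 1)) (l 1)) (l 1)) (b (a (a (b (a (l 290478645511) (l 311953401783)) (c (l 15736800) (l 15689000))) (a (b (l 457445350695) (l 15668912)) (b (l 1) (l 259876805895)))) (b (l 1) (b (l 1) (a (a (l 15602464) (l 1)) (l 1))))) (a (b (a (b (l 15584424) (l 15550736)) (b (l 15550728) (l 15473280))) (a (b (l 15554960) (l 15512776)) (c (l 15473712) (l 15464544)))) (a (b (b (a (l 15534744) (a (l 15533344) (l 1))) (a (l 15468328) (b (l 15486224) (l 15453536)))) (b (a (l 15394696) (l 15404816)) (c (l 15420752) (l 15397368)))) (b (a (a (a (b (l 1) (l 15474880)) (l 1)) (l 1)) (l 1)) (b (c (a (l 15460880) (l 548712988967)) (a (l 349533719671) (l 558913383415))) (c (l 162166025815) (a (l 15334304) (l 15362136))))))))), by decide +kernel⟩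

theorem s6_pp_011 : ∃ t, chk3 f_pp_011 t 3 3 1 = true := ex3_a k4_pp_011 k5_pp_011

theorem s7_pp_011 : ∃ t, chk3 f_pp_011 t 3 1 1 = true := ex3_b k3_pp_011 s6_pp_011

theorem s8_pp_011 : ∃ t, chk3 f_pp_011 t 2 3 1 = true := ex3_b k1_pp_011 k2_pp_011

theorem s9_pp_011 : ∃ t, chk3 f_pp_011 t 2 1 1 = true := ex3_b k0_pp_011 s8_pp_011

theorem s10_pp_011 : ∃ t, chk3 f_pp_011 t 1 1 1 = true := ex3_a s9_pp_011 s7_pp_011

theorem c_pp_011 : CertB 0 536870912 536870912 536870912 991146299 28908434 3 eng mog cd4q0 cd0q1 pd1 false true true .pnn 0 1 1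
    ndB4q0 ndB0q1 pcB1 Cut.none Ext.none :=
  certB2 (fam := false) (s1 := true) (s2 := true) (a := 0) (b := 1) (c := 1) (cn := .pnn) (n1 := ndB4q0) (n2 := ndB0q1) (pc := pcB1) (cut := Cut.none) (xt := Ext.none) (P1 := 0) (W1 := 536870912) (P2 := 536870912) (W2 := 536870912) (P3 := 991146299) (W3 := 28908434) (N0 := 3) (En := eng) (mo := mog) (C1 := cd4q0) (C2 := cd0q1) (C3 := pd1)
    rfl (fun _ => rfl) s10_pp_011

noncomputable def xt_pp_012 : Ext := extD3 3 ⟨4, 1, 1, 5, 22, 5, 21, 25, 41, 100, 1, 20⟩ eng cd4q0 cd0q2 pd1 false true true .pnp 0 1 2 rfl ndB4q0 ndB0q2 pcB1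

noncomputable def f_pp_012 : ℕ → ℕ → ℕ → ℕ → Bool := onCell 536870912 536870912 0 536870912 991146299 28908434
    (rowB 3 eng mog cd4q0 cd0q2 pd1 2 false true true .pnp 0 1 2 (qsf 0 536870912 0 536870912 1) ndB4q0 ndB0q2 pcB1 Cut.none xt_pp_012)

def k0_pp_012 : ∃ t, chk3 f_pp_012 t 2 1 1 = true :=
  ⟨(b (a (b (l 2) (b (l 2) (a (l 2) (l 15846032)))) (b (a (b (b (l 15955400) (l 15969104)) (l 15891848)) (b (c (l 15588816) (l 15651488)) (l 15698744))) (a (b (l 15697384) (l 15813896)) (c (l 15575608) (l 15795216))))) (b (a (a (l 2) (b (l 15680120) (b (l 15714968) (c (l 15602640) (l 15735216))))) (a (b (l 15697808) (b (l 15642584) (l 15485136))) (b (l 15629232) (b (l 15594944) (l 15581272))))) (a (b (a (b (l 15769008) (c (l 16065856) (l 16210120))) (c (l 15690344) (l 15891480))) (a (b (c (l 16264960) (l 16291152)) (a (c (l 16065744) (l 15912240)) (l 15873192))) (b (c (l 16092696) (l 16233912)) (a (l 16066704) (l 16130064))))) (b (a (c (l 15731096) (l 15841576))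 (c (l 15648072) (l 15768144))) (a (b (c (l 15929496) (l 16061176)) (c (l 16040360) (l 16131776))) (c (b (l 15784280) (l 15860040)) (b (l 15899888) (l 15966872)))))))), by decide +kernel⟩

def k1_pp_012 : ∃ t, chk3 f_pp_012 t 3 1 1 = true :=
  ⟨(b (a (b (a (c (b (l 15347496) (l 15369040)) (b (l 15534264) (l 15580632))) (c (b (l 15097584) (l 15126232)) (b (l 15247352) (l 15295192)))) (a (b (l 15496064) (l 15528776)) (b (l 15296808) (l 15397840)))) (b (a (b (c (l 14831112) (l 14934168)) (c (l 14879808) (l 14996840))) (b (a (l 14652696) (l 14499328)) (a (l 14731040) (l 14596064)))) (a (b (l 15100048) (l 15166032)) (b (a (l 14952928) (l 14854744)) (a (l 15175560) (l 15110792)))))) (b (a (a (b (l 15555104) (c (l 15515912) (l 15637520))) (b (l 15345520) (c (l 15525600) (l 15630904)))) (a (b (c (l 15387288) (l 15486376)) (a (l 15585872) (l 15592952))) (b (a (l 15392960) (l 15362368)) (a (l 15600112) (c (l 15582184) (l 15628352)))))) (a (b (a (c (l 15594392) (l 15698752))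 (a (l 15620688) (l 15615800))) (a (b (l 15459960) (a (l 15781880) (l 15702544))) (b (a (l 15635192) (l 15596016)) (a (l 15631160) (l 15569096))))) (b (a (a (l 15620136) (b (l 15657520) (l 15611216))) (a (b (l 15689840) (l 15627016)) (b (b (l 15738592) (l 15721432)) (l 15653768)))) (a (b (a (l 15567328) (l 15550008)) (a (l 15517648) (l 15457168))) (b (a (l 15523736) (c (b (l 15578392) (l 15570384)) (l 15528712))) (a (a (l 15456864) (l 15447136)) (c (l 15453000) (a (l 572835678862595012105791) (l 15421448)))))))))), by decide +kernel⟩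

theorem s2_pp_012 : ∃ t, chk3 f_pp_012 t 1 1 1 = true := ex3_a k0_pp_012 k1_pp_012

theorem c_pp_012 : CertB 0 536870912 0 536870912 991146299 28908434 3 eng mog cd4q0 cd0q2 pd1 false true true .pnp 0 1 2
    ndB4q0 ndB0q2 pcB1 Cut.none xt_pp_012 :=
  certB2 (fam := false) (s1 := true) (s2 := true) (a := 0) (b := 1) (c := 2) (cn := .pnp) (n1 := ndB4q0) (n2 := ndB0q2) (pc := pcB1) (cut := Cut.none) (xt := xt_pp_012) (P1 := 0) (W1 := 536870912) (P2 := 0) (W2 := 536870912) (P3 := 991146299) (W3 := 28908434) (N0 := 3) (En := eng) (mo := mog) (C1 := cd4q0) (C2 := cd0q2) (C3 := pd1)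
    rfl (fun _ => rfl) s2_pp_012

noncomputable def f_pp_022 : ℕ → ℕ → ℕ → ℕ → Bool := onCell 1073741824 536870912 0 536870912 991146299 28908434
    (rowB 3 eng mog cd4q0 cd0q2 pd2 2 false true true .pp 0 2 2 (qsf 0 536870912 0 536870912 2) ndB4q0 ndB0q2 pcB2 Cut.none Ext.none)

def k0_pp_022 : ∃ t, chk3 f_pp_022 t 2 2 1 = true :=
  ⟨(a (a (b (b (a (a (l 14476184) (l 4)) (l 4)) (a (c (l 14648616) (l 14688688)) (c (l 14813248) (b (l 14746160) (l 14888784))))) (c (b (a (l 14983104) (l 15072672)) (a (b (l 15239760) (l 15412144)) (b (l 15277008) (l 15414224)))) (b (a (l 15096136) (l 15132584)) (a (b (l 15403584) (l 15608384)) (b (l 15374232) (l 15534800)))))) (b (b (l 4) (a (c (l 14996384) (b (l 14928736) (l 15016904))) (a (c (l 15137856) (l 15099384)) (l 15080784)))) (a (b (c (l 15181032) (l 15195520)) (c (c (l 15373688) (l 15395352)) (b (l 15371432) (l 15487680)))) (b (c (l 15300112) (l 15275912)) (c (a (l 15421400) (l 15447720)) (c (l 15406192) (l 15422800)))))))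 (a (b (b (l 4) (a (a (l 15271312) (l 15355744)) (l 1))) (a (b (c (l 15398080) (l 15361664)) (a (c (l 15474520) (l 693668460967)) (l 1))) (l 1))) (l 1))), by decide +kernel⟩

def k1_pp_022 : ∃ t, chk3 f_pp_022 t 4 6 1 = true :=
  ⟨(a (b (a (c (b (l 15584272) (c (l 15693560) (l 15818864))) (b (a (l 15845992) (l 15780008)) (a (l 15913056) (l 15950552)))) (c (b (l 15550944) (a (l 15701888) (l 15671888))) (b (a (l 15720984) (l 15668672)) (a (l 15890072) (l 15815272))))) (c (b (a (c (l 15856008) (l 15744848)) (a (l 15844912) (l 15796816))) (a (c (l 15914848) (l 15972544)) (c (l 15823456) (l 15850864)))) (b (a (a (c (l 16190736) (l 16229064)) (c (l 16093656) (l 16209096))) (a (c (l 16002800) (l 16112624)) (c (l 15917928) (l 16002328)))) (a (a (c (l 16255216) (l 16336848)) (c (l 16152776) (l 16269136))) (a (c (l 16054992) (l 16165112)) (c (l 15961640) (l 16045544))))))) (b (a (c (b (l 15514496) (a (l 15646160) (l 15624264))) (b (a (l 15622856) (l 15582928)) (a (l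 15746872) (l 15684376)))) (a (c (l 41370162695) (b (l 15547688) (l 15605864))) (c (b (l 15533456) (l 1)) (l 510595322007)))) (a (a (b (c (l 15752824) (c (l 15838792) (l 15898888))) (c (l 15788992) (c (l 15872992) (l 15931704)))) (b (c (l 15691576) (c (l 15764960) (l 15801832))) (a (c (l 15752056) (l 15829848)) (l 1)))) (a (a (a (b (l 322690869879) (l 1)) (l 1)) (l 1)) (l 1))))), by decide +kernel⟩

def k2_pp_022 : ∃ t, chk3 f_pp_022 t 4 14 1 = true :=
  ⟨(b (a (a (c (c (l 15863544) (a (l 16026144) (l 15956832))) (a (c (l 16171312) (l 16258360)) (c (l 16075648) (l 16177496)))) (c (a (l 15887472) (l 15795088)) (a (c (l 15984336) (l 16080952)) (c (l 15897392) (l 15947800))))) (a (a (c (l 15726448) (c (l 15814712) (l 15861888))) (l 1)) (l 1))) (a (a (c (a (c (l 15800376) (l 15945760)) (b (l 15849592) (l 15813440))) (a (c (l 15990608) (b (l 16237520) (l 16177224))) (c (l 15943512) (b (l 16120432) (l 16064016))))) (a (c (b (l 15800072) (l 15766512)) (c (b (l 15923000)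 (l 15878192)) (b (l 16008648) (l 15956088)))) (c (b (l 15732368) (a (l 15733056) (l 1))) (b (a (l 15894384) (l 15848400)) (l 15878416))))) (l 1))), by decide +kernel⟩

def k3_pp_022 : ∃ t, chk3 f_pp_022 t 4 15 1 = true :=
  ⟨(a (a (a (a (b (c (b (l 15833840) (l 15787064)) (b (l 15846792) (c (l 15954080) (l 16070256)))) (a (c (b (l 15744928) (b (a (l 15712504) (l 15707128)) (l 15658008))) (a (b (l 15982768) (b (l 15911288) (l 15898872))) (b (l 15971032) (b (l 15899944) (l 15866776))))) (c (b (l 15733784) (b (b (l 15704976) (a (l 15696200) (l 15691056))) (a (l 15637112) (l 1)))) (b (b (l 15949392) (l 15916136)) (c (l 15799656) (l 15928984)))))) (b (c (b (l 15809328) (l 15763912)) (b (l 15839216) (c (l 15912680) (l 16016248)))) (b (c (b (l 15708112) (a (l 15711568) (l 15701088))) (b (l 15973848) (a (l 15893552) (l 15871232)))) (b (a (b (c (l 15694600) (l 15869152)) (l 1)) (l 1)) (l 1))))) (b (c (b (a (l 15785688) (l 15762848)) (a (l 15741656) (l 15699080))) (b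 (c (l 15909336) (a (l 16030344) (l 15977048))) (a (c (l 15872472) (l 15963624)) (c (l 15812288) (l 15912248))))) (b (a (b (c (a (l 15713112) (l 15702608)) (l 15890840)) (l 1)) (l 1)) (l 1)))) (a (b (a (b (c (l 15719680) (l 15886784)) (l 1)) (l 1)) (l 1)) (l 1))) (l 1)), by decide +kernel⟩

def k4_pp_022 : ∃ t, chk3 f_pp_022 t 5 3 1 = true :=
  ⟨(b (l 1) (l 1)), by decide +kernel⟩

def k5_pp_022 : ∃ t, chk3 f_pp_022 t 3 1 1 = true :=
  ⟨(l 1), by decide +kernel⟩

theorem s6_pp_022 : ∃ t, chk3 f_pp_022 t 4 7 1 = true := ex3_b k2_pp_022 k3_pp_022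

theorem s7_pp_022 : ∃ t, chk3 f_pp_022 t 4 3 1 = true := ex3_b k1_pp_022 s6_pp_022

theorem s8_pp_022 : ∃ t, chk3 f_pp_022 t 2 3 1 = true := ex3_a s7_pp_022 k4_pp_022

theorem s9_pp_022 : ∃ t, chk3 f_pp_022 t 2 1 1 = true := ex3_b k0_pp_022 s8_pp_022

theorem s10_pp_022 : ∃ t, chk3 f_pp_022 t 1 1 1 = true := ex3_a s9_pp_022 k5_pp_022

theorem c_pp_022 : CertB 0 536870912 0 536870912 991146299 28908434 3 eng mog cd4q0 cd0q2 pd2 false true true .pp 0 2 2
    ndB4q0 ndB0q2 pcB2 Cut.none Ext.none :=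
  certB2 (fam := false) (s1 := true) (s2 := true) (a := 0) (b := 2) (c := 2) (cn := .pp) (n1 := ndB4q0) (n2 := ndB0q2) (pc := pcB2) (cut := Cut.none) (xt := Ext.none) (P1 := 0) (W1 := 536870912) (P2 := 0) (W2 := 536870912) (P3 := 991146299) (W3 := 28908434) (N0 := 3) (En := eng) (mo := mog) (C1 := cd4q0) (C2 := cd0q2) (C3 := pd2)
    rfl (fun _ => rfl) s10_pp_022

noncomputable def cut_pp_101 : Cut := Cut.of [[⟨0, 1, 0, 53687091⟩, ⟨1, 0, 0, 53687091⟩, ⟨2, 1, 0, 53687091⟩]]

noncomputable def f_pp_101 : ℕ → ℕ → ℕ → ℕ → Bool := onCell 0 536870912 536870912 536870912 991146299 28908434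
    (rowB 3 eng mog cd4q1 cd0q1 pd0 2 false true true .npn 1 0 1 (qsf 536870912 536870912 536870912 536870912 0) ndB4q1 ndB0q1 pcB0 cut_pp_101 Ext.none)

def k0_pp_101 : ∃ t, chk3 f_pp_101 t 1 2 1 = true :=
  ⟨(l 3), by decide +kernel⟩

def k1_pp_101 : ∃ t, chk3 f_pp_101 t 1 6 1 = true :=
  ⟨(a (l 3) (a (l 3) (a (a (b (l 1) (a (a (l 3) (l 1)) (l 1))) (l 1)) (l 1)))), by decide +kernel⟩

def k2_pp_101 : ∃ t, chk3 f_pp_101 t 1 14 1 = true :=
  ⟨(a (a (l 3) (a (l 3) (b (l 3) (a (b (l 3) (a (c (l 338932911511) (l 269139654423)) (b (l 3) (c (l 271287152039) (l 16531584))))) (b (a (l 3) (b (l 3) (l 270750184503))) (c (a (b (l 293835682023) (l 16526944)) (l 271823921703)) (a (l 196125123239) (l 16471832)))))))) (a (a (b (a (l 3) (b (l 3) (a (b (l 3) (l 252496408359)) (c (l 259475687303) (l 254106915399))))) (a (b (a (c (l 265918294951) (l 263233882855)) (b (l 260012652599) (l 268602580599))) (a (b (l 16465776) (l 16466392)) (l 16444832))) (b (a (b (l 261086334103)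 (l 16422176)) (b (l 16400536) (l 16402192))) (a (l 16424536) (l 16405160))))) (b (a (b (b (l 3) (a (l 3) (l 239611353271))) (a (b (l 251422560279) (l 258401876439)) (b (c (l 216526067479) (l 16341768)) (l 16361344)))) (b (b (a (l 3) (c (l 237463967239) (l 238537633031))) (a (c (l 253033257255) (l 252496310215)) (c (l 16344824) (l 16306208)))) (a (b (l 16321776) (l 16343856)) (l 16305696)))) (a (b (a (l 16382160) (l 16363928)) (l 16377656)) (b (l 16338200) (l 16343864))))) (a (b (a (a (b (b (c (l 226189642295) (l 16312296)) (l 16310224)) (l 16311016)) (l 586295627847)) (l 598643441607)) (a (b (l 16306824) (l 16312888)) (l 16238904))) (b (l 1) (a (l 16254360) (l 1)))))), by decide +kernel⟩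

def k3_pp_101 : ∃ t, chk3 f_pp_101 t 8 15 1 = true :=
  ⟨(b (l 3) (a (b (l 3) (l 6)) (b (a (l 3) (b (l 3) (b (l 3) (a (a (l 3) (b (l 3) (c (a (l 336248867783) (l 295983544903)) (l 342154428103)))) (a (b (c (l 347523153831) (l 367924229847)) (c (b (l 253033887191) (l 16723536)) (l 16715016))) (c (b (b (l 339470082599) (l 245517689335)) (l 16720328)) (l 281487979063))))))) (b (a (b (a (a (l 3) (a (l 3) (b (l 3) (c (l 351818143191) (l 372219224119))))) (b (a (l 3) (c (a (l 353428748343) (l 310479070263)) (l 358260568455))) (c (a (c (a (l 306720984663) (l 289541110727)) (l 297594175207)) (b (l 266455658743) (l 16730240))) (a (l 297594164279) (l 16725672))))) (a (a (l 6) (a (l 6) (a (l 6) (b (l 232095923479) (l 6))))) (a (b (c (l 16732808) (l 16725640)) (l 16727672)) (b (l 16725040) (l 16723296))))) (a (b (a (b (c (a (l 292762325495) (l 267529393879)) (l 273434963303)) (c (l 16726920) (l 16718648))) (b (c (l 16725408) (l 16716632)) (l 16718808))) (a (l 16719872)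 (l 16715632))) (b (c (a (l 16720464) (l 16716488)) (l 16708896)) (l 16709128)))) (a (a (l 6) (b (l 16702256) (b (l 16721312) (l 6)))) (b (a (l 16714136) (l 16705008)) (a (l 16679816) (l 16701632)))))))), by decide +kernel⟩

def k4_pp_101 : ∃ t, chk3 f_pp_101 t 9 15 1 = true :=
  ⟨(b (a (l 3) (b (l 3) (b (l 3) (b (a (l 3) (c (a (l 368997901127) (l 265918683783)) (l 404431273831))) (a (a (c (l 378661613383) (l 401747032695)) (c (b (l 370071656935) (l 243907027255)) (l 271287399175))) (a (c (l 254644405863) (l 16659496)) (l 16656240))))))) (b (a (a (b (a (l 3) (a (l 3) (b (l 3) (c (l 370608582599) (l 392620266311))))) (c (a (b (b (a (l 3) (l 367924236327)) (a (l 345375659447) (l 260013186183))) (a (b (l 16729536) (l 16716272)) (l 16713376))) (b (b (a (l 293299169079) (l 16722064)) (l 16726632)) (l 16706560))) (a (b (b (l 386714702423) (l 369534798903)) (a (l 16707360) (l 16702536))) (b (b (l 287393534263) (l 16699344)) (l 16694848))))) (b (a (b (l 3) (b (a (l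 3) (c (l 307257808999) (l 16695056))) (c (a (l 260550042743) (l 16704264)) (l 275582356407)))) (b (c (b (l 3) (l 353965555015)) (l 382419690295)) (c (a (l 226727177015) (l 16695064)) (l 16684008)))) (a (b (c (a (l 16704968) (l 16699744)) (l 16689640)) (l 16690336)) (b (l 16684984) (l 16679496))))) (a (b (a (b (c (b (l 291688534119) (l 16691520)) (l 284709122647)) (l 16658648)) (b (c (l 16682008) (l 16665952)) (l 16668296))) (a (l 16671240) (l 16660368))) (b (a (c (l 16668280) (l 16650912)) (l 16648344)) (l 16623192)))) (a (b (a (a (b (l 16683944) (l 16700008)) (l 16671800)) (a (l 16661616) (l 16672184))) (a (b (l 16669816) (c (l 16692688) (l 16660368))) (c (l 16676320) (l 16620936)))) (b (a (l 16635760) (l 16636448)) (a (b (l 16651368) (l 16648584)) (l 16597272)))))), by decide +kernel⟩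

def k5_pp_101 : ∃ t, chk3 f_pp_101 t 5 15 1 = true :=
  ⟨(a (a (b (b (a (l 3) (b (l 3) (a (l 3) (b (l 3) (l 215452738519))))) (c (a (a (b (l 368997848247) (l 16656344)) (b (l 283635367623) (l 16644960))) (b (a (l 264308014071) (l 16628936)) (l 16627920))) (a (b (b (l 373829659447) (l 291151468999)) (l 16609616)) (b (l 261623509783) (l 16605552))))) (b (a (b (l 16610336) (l 16622816)) (b (l 16608824) (l 16601808))) (b (l 16606776) (c (l 16613024) (l 16594096))))) (a (b (b (b (l 3) (c (b (l 297593974311) (l 263771095511)) (l 259475988519))) (b (c (l 16611328) (l 16586776)) (l 16593592))) (b (l 16562968) (a (l 16561688) (l 16552624)))) (b (a (b (b (l 349133495303) (l 16595648)) (l 16558000)) (b (b (l 256254840727) (l 16572920)) (l 16567624))) (b (l 16563504) (b (l 16560832) (l 16561072)))))) (b (a (b (a (b (c (l 269139713959) (l 16543352)) (l 16555016)) (c (l 16547528) (l 16517280))) (a (l 16530000) (l 16529536))) (b (a (l 16489112) (l 16488400)) (l 16414984)))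 (b (a (c (l 16527704) (l 16519240)) (l 16497744)) (a (c (l 16545432) (b (l 16499424) (l 16527792))) (c (l 16512176) (l 16489920)))))), by decide +kernel⟩

def k6_pp_101 : ∃ t, chk3 f_pp_101 t 3 15 1 = true :=
  ⟨(a (a (a (b (b (a (l 16467608) (l 16447680)) (l 16439848)) (b (b (l 16462776) (l 16466312)) (c (l 16480416) (l 16461496)))) (b (b (l 16419288) (l 16425680)) (b (b (l 16430376) (l 16433592)) (l 16441320)))) (b (a (b (l 16384184) (l 16393112)) (b (l 16351808) (l 16362704))) (b (a (c (l 16417200) (l 16382992)) (l 16306488)) (a (l 16411656) (l 16382472))))) (a (b (b (a (l 16321728) (l 16293488)) (a (l 16335136) (l 16305464))) (c (b (l 16336840) (l 16337504)) (a (l 16338576) (l 16312976)))) (b (c (b (l 16274264) (l 16276224)) (a (l 16253368) (l 16225184))) (c (l 16272928) (l 16273272))))), by decide +kernel⟩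

theorem s7_pp_101 : ∃ t, chk3 f_pp_101 t 4 15 1 = true := ex3_a k3_pp_101 k4_pp_101

theorem s8_pp_101 : ∃ t, chk3 f_pp_101 t 2 15 1 = true := ex3_a s7_pp_101 k5_pp_101

theorem s9_pp_101 : ∃ t, chk3 f_pp_101 t 1 15 1 = true := ex3_a s8_pp_101 k6_pp_101

theorem s10_pp_101 : ∃ t, chk3 f_pp_101 t 1 7 1 = true := ex3_b k2_pp_101 s9_pp_101

theorem s11_pp_101 : ∃ t, chk3 f_pp_101 t 1 3 1 = true := ex3_b k1_pp_101 s10_pp_101

theorem s12_pp_101 : ∃ t, chk3 f_pp_101 t 1 1 1 = true := ex3_b k0_pp_101 s11_pp_101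

theorem c_pp_101 : CertB 536870912 536870912 536870912 536870912 991146299 28908434 3 eng mog cd4q1 cd0q1 pd0 false true true .npn 1 0 1
    ndB4q1 ndB0q1 pcB0 cut_pp_101 Ext.none :=
  certB2 (fam := false) (s1 := true) (s2 := true) (a := 1) (b := 0) (c := 1) (cn := .npn) (n1 := ndB4q1) (n2 := ndB0q1) (pc := pcB0) (cut := cut_pp_101) (xt := Ext.none) (P1 := 536870912) (W1 := 536870912) (P2 := 536870912) (W2 := 536870912) (P3 := 991146299) (W3 := 28908434) (N0 := 3) (En := eng) (mo := mog) (C1 := cd4q1) (C2 := cd0q1) (C3 := pd0)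
    rfl (fun _ => rfl) s12_pp_101

noncomputable def cut_pp_102 : Cut := Cut.of [[⟨0, 1, 0, 53687091⟩, ⟨1, 0, 0, 53687091⟩, ⟨2, 1, 0, 53687091⟩]]

noncomputable def xt_pp_102 : Ext := extD3 3 ⟨4, 1, 1, 5, 22, 5, 21, 25, 41, 100, 1, 20⟩ eng cd4q1 cd0q2 pd0 false true true .npp 1 0 2 rfl ndB4q1 ndB0q2 pcB0

noncomputable def f_pp_102 : ℕ → ℕ → ℕ → ℕ → Bool := onCell 0 536870912 0 536870912 991146299 28908434
    (rowB 3 eng mog cd4q1 cd0q2 pd0 2 false true true .npp 1 0 2 (qsf 536870912 536870912 0 536870912 0) ndB4q1 ndB0q2 pcB0 cut_pp_102 xt_pp_102)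

def k0_pp_102 : ∃ t, chk3 f_pp_102 t 2 2 1 = true :=
  ⟨(a (b (l 2) (a (l 2) (a (l 2) (b (l 2) (a (l 2) (l 14983768)))))) (a (b (b (l 153103920087) (a (l 14631088) (l 14721872))) (a (b (l 14804464) (l 15015368)) (b (l 14865696) (l 15045840)))) (b (a (l 14768088) (l 14863328)) (b (a (l 14917512) (l 14961080)) (a (l 15071776) (c (l 15063136) (l 15112544))))))), by decide +kernel⟩

def k1_pp_102 : ∃ t, chk3 f_pp_102 t 4 3 1 = true :=
  ⟨(b (a (l 2) (b (a (l 2) (b (l 15175888) (a (l 99418529943) (b (l 15296056) (l 15378600))))) (a (a (b (l 2) (c (a (l 2) (l 15677536)) (l 15676976))) (b (b (a (l 2) (l 15445040)) (l 62911723223)) (b (l 15574888) (l 15772840)))) (b (a (l 15516400) (l 15536168)) (a (l 15735672) (l 15752024)))))) (a (b (a (l 2) (b (a (l 2) (a (l 2) (b (l 2) (l 15943728)))) (b (a (l 2) (a (l 16056280) (l 16079104))) (a (l 6) (a (l 16199096) (l 16217664)))))) (a (l 6) (a (l 6) (b (b (c (l 139253043728957551) (l 139600695525310575)) (a (l 140192301804109935)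 (l 140213604848894191))) (c (b (l 16562968) (b (l 16647144) (l 16709952))) (b (l 592974765291421382962735) (b (l 16646256) (l 16694624)))))))) (b (a (a (b (b (c (l 15851280) (l 15852976)) (a (l 15967288) (l 15988000))) (b (l 137635455444189295) (l 138274753007911023))) (b (l 134170481665392751) (b (l 16133104) (l 16175544)))) (b (b (l 15913504) (l 137003373539508271)) (b (l 137387927977361455) (a (l 16208320) (l 16191000))))) (b (a (a (b (l 138200055214637167) (a (l 587185656558449645841967) (l 588020372012558506272815))) (b (l 138304577550876719) (l 16419072))) (a (b (l 16250712) (l 16449056)) (b (l 16369616) (l 16458184)))) (c (a (b (a (l 16592536) (l 16580160)) (a (l 16675696) (l 16661912))) (b (l 16519448) (l 16640752))) (a (b (a (l 16559056) (l 16566568)) (a (l 16657696) (l 16665400))) (b (l 16483520) (l 16581656)))))))), by decide +kernel⟩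

def k2_pp_102 : ∃ t, chk3 f_pp_102 t 5 3 1 = true :=
  ⟨(a (b (b (a (b (a (l 15194024) (l 15206920)) (b (l 15289560) (l 15408768))) (b (c (l 15177992) (l 15239256)) (l 15393144))) (a (b (l 15561160) (l 15625736)) (b (l 15589192) (l 15794608)))) (c (b (b (a (l 16022040) (l 16050520)) (a (b (l 16206544) (l 16302544)) (l 16145040))) (b (a (l 16337320) (l 16379760)) (a (l 16532576) (l 16546528)))) (b (b (a (l 15965392) (l 15966888)) (a (b (l 16130024) (l 16226760)) (l 16117768))) (b (a (l 16205832) (l 16307056)) (a (b (l 16498008) (l 16615080)) (l 16537800)))))) (b (b (a (b (l 15237784) (l 15422024)) (l 15360088)) (a (b (l 15612768) (l 15812104)) (b (l 15633376) (l 15826424)))) (b (b (a (b (l 15966568) (l 15989128)) (b (l 15975608) (l 16068520))) (a (c (l 16243184) (l 16143280)) (l 16138952))) (b (c (l 16348984) (a (l 16324152) (l 16299064))) (a (b (l 16472240) (l 16550872)) (c (l 16488936) (l 16473808))))))), by decide +kernel⟩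

def k3_pp_102 : ∃ t, chk3 f_pp_102 t 3 1 1 = true :=
  ⟨(b (a (b (a (a (l 14954880) (l 15043448)) (a (l 15129632) (l 15213960))) (a (b (l 15013384) (c (a (l 15075256) (l 15092976)) (l 15137888))) (b (a (l 15051560) (l 15072160)) (b (l 15007360) (l 15222048))))) (b (a (b (l 15426600) (l 15246704)) (b (l 15637128) (l 15361712))) (a (b (b (l 15127424) (l 15084568)) (l 15230624)) (b (b (l 15169080) (l 15156464)) (l 15322168))))) (b (a (a (b (c (l 15413496) (l 15387368)) (c (b (l 15704552) (l 15907616)) (l 15698064))) (b (c (l 15481784) (l 15425840)) (c (b (l 15755912) (l 15948008)) (l 15524168)))) (b (a (c (l 15551280) (l 15470864)) (l 15324320)) (a (b (l 15732176) (c (l 15979112) (l 15790136))) (b (l 15773016) (c (l 16005720) (l 15803272)))))) (a (b (a (b (a (l 15811136) (l 15994448)) (c (l 16214192) (l 16099976))) (b (c (l 16089328) (l 15921632)) (c (l 16191392) (l 16067120)))) (a (b (c (l 16329224) (l 16156392)) (c (l 16444880) (l 16339392))) (b (c (l 16289528)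 (l 16190624)) (c (l 16385664) (l 16354240))))) (b (a (c (l 16111736) (l 15893680)) (c (l 16125136) (l 15964664))) (a (b (c (l 16251584) (l 16164184)) (c (l 16326688) (l 16284992))) (b (l 16043624) (c (l 16268608) (l 16217304)))))))), by decide +kernel⟩

theorem s4_pp_102 : ∃ t, chk3 f_pp_102 t 2 3 1 = true := ex3_a k1_pp_102 k2_pp_102

theorem s5_pp_102 : ∃ t, chk3 f_pp_102 t 2 1 1 = true := ex3_b k0_pp_102 s4_pp_102

theorem s6_pp_102 : ∃ t, chk3 f_pp_102 t 1 1 1 = true := ex3_a s5_pp_102 k3_pp_102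

theorem c_pp_102 : CertB 536870912 536870912 0 536870912 991146299 28908434 3 eng mog cd4q1 cd0q2 pd0 false true true .npp 1 0 2
    ndB4q1 ndB0q2 pcB0 cut_pp_102 xt_pp_102 :=
  certB2 (fam := false) (s1 := true) (s2 := true) (a := 1) (b := 0) (c := 2) (cn := .npp) (n1 := ndB4q1) (n2 := ndB0q2) (pc := pcB0) (cut := cut_pp_102) (xt := xt_pp_102) (P1 := 536870912) (W1 := 536870912) (P2 := 0) (W2 := 536870912) (P3 := 991146299) (W3 := 28908434) (N0 := 3) (En := eng) (mo := mog) (C1 := cd4q1) (C2 := cd0q2) (C3 := pd0)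
    rfl (fun _ => rfl) s6_pp_102

noncomputable def f_pp_112 : ℕ → ℕ → ℕ → ℕ → Bool := onCell 536870912 536870912 0 536870912 991146299 28908434
    (rowB 3 eng mog cd4q1 cd0q2 pd1 2 false true true .dn 1 1 2 (qsf 536870912 536870912 0 536870912 1) ndB4q1 ndB0q2 pcB1 Cut.none Ext.none)

def k0_pp_112 : ∃ t, chk3 f_pp_112 t 1 1 1 = true :=
  ⟨(a (b (a (b (a (l 15676328) (b (b (l 15679200) (l 15686240)) (l 15689960))) (b (a (l 15641680) (l 15657688)) (a (l 15532728) (l 15547312)))) (a (b (b (b (l 15616392) (l 15632104)) (l 15625744)) (b (l 15596096) (l 15529024))) (l 1))) (b (a (a (b (l 15406552) (b (l 15317096) (b (l 15273504) (l 15298416)))) (b (l 15448248) (b (l 15375136) (l 15355784)))) (l 1)) (a (b (a (a (l 15622504) (l 15635192)) (l 433285598983)) (a (b (l 15934504) (l 16083864)) (l 1))) (l 1)))) (l 1)), by decide +kernel⟩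

theorem c_pp_112 : CertB 536870912 536870912 0 536870912 991146299 28908434 3 eng mog cd4q1 cd0q2 pd1 false true true .dn 1 1 2
    ndB4q1 ndB0q2 pcB1 Cut.none Ext.none :=
  certB2 (fam := false) (s1 := true) (s2 := true) (a := 1) (b := 1) (c := 2) (cn := .dn) (n1 := ndB4q1) (n2 := ndB0q2) (pc := pcB1) (cut := Cut.none) (xt := Ext.none) (P1 := 536870912) (W1 := 536870912) (P2 := 0) (W2 := 536870912) (P3 := 991146299) (W3 := 28908434) (N0 := 3) (En := eng) (mo := mog) (C1 := cd4q1) (C2 := cd0q2) (C3 := pd1)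
    rfl (fun _ => rfl) k0_pp_112

noncomputable def f_pp_202 : ℕ → ℕ → ℕ → ℕ → Bool := onCell 1073741824 536870912 0 536870912 991146299 28908434
    (rowB 3 eng mog cd4q2 cd0q2 pd0 0 false true true .pp 2 0 2 (qsf 1073741824 536870912 0 536870912 0) ndB4q2 ndB0q2 pcB0 Cut.none Ext.none)

def k0_pp_202 : ∃ t, chk3 f_pp_202 t 4 4 1 = true :=
  ⟨(a (b (c (a (b (l 16366776) (l 16186952)) (b (l 16431688) (l 16212936))) (a (b (l 16211736) (l 16069728)) (b (l 16213032) (l 16154064)))) (a (b (a (b (l 15947760) (c (l 16153704) (l 15991688))) (c (l 16155600) (l 16034096))) (c (a (l 16120456) (l 16122416)) (a (l 15938312) (l 15955536)))) (b (c (l 16097528) (l 16007280)) (a (c (l 16126088) (l 15931936)) (b (a (l 16066888) (l 16074360)) (l 15878552)))))) (a (b (a (b (c (l 16397792) (a (l 16311016) (l 16334272))) (a (l 16171024) (l 16125944))) (b (c (l 16305984) (a (l 16372472) (l 16392928))) (a (l 16132312) (l 16141832)))) (a (b (c (l 16212704) (l 16113824)) (a (b (l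 16085248) (l 16054488)) (b (l 16100000) (l 16060912)))) (b (a (l 16090048) (l 16093456)) (b (c (l 16182424) (l 16069544)) (c (l 16107936) (l 16018872)))))) (b (a (b (a (c (l 16486616) (l 16436376)) (c (l 16455208) (l 16504016))) (a (l 16175624) (c (l 16504312) (l 16362360)))) (a (b (b (l 16475304) (l 16283256)) (b (l 16437576) (l 16360912))) (b (l 16505576) (l 16345392)))) (a (b (c (a (l 16303848) (l 16286064)) (a (l 16208448) (l 16222584))) (b (a (l 16160576) (l 16184448)) (a (l 16030312) (c (l 16155192) (l 16062472))))) (b (c (l 16352384) (l 16264352)) (a (a (l 16032080) (l 16166528)) (l 16071272))))))), by decide +kernel⟩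

def k1_pp_202 : ∃ t, chk3 f_pp_202 t 4 5 1 = true :=
  ⟨(a (b (c (a (b (c (l 16147864) (l 16043656)) (b (c (l 16132160) (l 16015360)) (a (l 16049472) (l 16055624)))) (b (b (l 16107440) (a (l 16095360) (l 16100192))) (a (b (l 16081992) (l 16063056)) (b (l 16087688) (l 16072896))))) (a (b (c (l 15935072) (l 15801296)) (b (a (l 15797032) (l 15844024)) (a (l 15791040) (l 15820304)))) (b (b (l 15810664) (a (l 15895184) (l 15920312))) (a (b (l 15872000) (l 15851584)) (b (l 15901200) (l 15885816)))))) (b (b (a (c (a (l 16025512) (l 16036232)) (a (l 15765072) (l 15799056))) (a (c (l 16049296) (l 15835840)) (l 3))) (a (a (c (l 149953161335) (l 149415817751)) (l 3)) (l 3))) (l 3))) (b (a (b (c (b (l 16116224) (a (l 16106392) (l 16110584))) (b (a (l 15971376) (l 15996896)) (a (l 15948720) (l 15976952)))) (a (c (l 147268999767) (b (l 15932792) (l 149416199271))) (c (l 150490313047) (l 149953218407)))) (a (b (c (b (l 16125336) (l 16119856)) (b (l 16023576) (l 16010928)))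 (c (l 222431050631) (l 225652083127))) (b (c (b (a (l 16134064) (l 16140512)) (l 213304276023)) (b (a (l 16047272) (l 16062272)) (b (l 16047016) (l 16044736)))) (c (l 335710830039) (l 285244828199))))) (l 3))), by decide +kernel⟩

def k2_pp_202 : ∃ t, chk3 f_pp_202 t 5 2 1 = true :=
  ⟨(a (b (a (b (b (a (l 16512048) (l 16466608)) (a (b (l 16355728) (l 16365464)) (b (l 16385832) (l 16252264)))) (a (b (c (l 16308256) (l 16269584)) (a (l 16124776) (l 16198480))) (b (l 16190784) (c (l 16196336) (l 16194984))))) (b (l 1) (l 1))) (b (a (b (a (b (a (c (l 16149264) (l 16083416)) (c (l 16160744) (l 16110832))) (c (l 214378021751) (l 215988559847))) (a (b (l 16156248) (a (l 219209830903) (l 1))) (l 1))) (l 3)) (l 1)) (l 3))) (l 1)), by decide +kernel⟩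

def k3_pp_202 : ∃ t, chk3 f_pp_202 t 2 3 1 = true :=
  ⟨(l 3), by decide +kernel⟩

def k4_pp_202 : ∃ t, chk3 f_pp_202 t 3 1 1 = true :=
  ⟨(l 1), by decide +kernel⟩

theorem s5_pp_202 : ∃ t, chk3 f_pp_202 t 4 2 1 = true := ex3_b k0_pp_202 k1_pp_202

theorem s6_pp_202 : ∃ t, chk3 f_pp_202 t 2 2 1 = true := ex3_a s5_pp_202 k2_pp_202

theorem s7_pp_202 : ∃ t, chk3 f_pp_202 t 2 1 1 = true := ex3_b s6_pp_202 k3_pp_202

theorem s8_pp_202 : ∃ t, chk3 f_pp_202 t 1 1 1 = true := ex3_a s7_pp_202 k4_pp_202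

theorem c_pp_202 : CertB 1073741824 536870912 0 536870912 991146299 28908434 3 eng mog cd4q2 cd0q2 pd0 false true true .pp 2 0 2
    ndB4q2 ndB0q2 pcB0 Cut.none Ext.none :=
  certB0 (fam := false) (s1 := true) (s2 := true) (a := 2) (b := 0) (c := 2) (cn := .pp) (n1 := ndB4q2) (n2 := ndB0q2) (pc := pcB0) (cut := Cut.none) (xt := Ext.none) (P1 := 1073741824) (W1 := 536870912) (P2 := 0) (W2 := 536870912) (P3 := 991146299) (W3 := 28908434) (N0 := 3) (En := eng) (mo := mog) (C1 := cd4q2) (C2 := cd0q2) (C3 := pd0)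
    rfl s8_pp_202

noncomputable def f_pm_001 : ℕ → ℕ → ℕ → ℕ → Bool := onCell 0 536870912 536870912 536870912 991146299 28908434
    (rowB 3 eng mog cd4q0 cd0q1 pd0 0 false true false .up 0 0 1 (qsf 0 536870912 536870912 536870912 0) ndB4q0 ndB0q1 pcB0 Cut.none Ext.none)

def k0_pm_001 : ∃ t, chk3 f_pm_001 t 1 1 1 = true :=
  ⟨(l 4), by decide +kernel⟩

theorem c_pm_001 : CertB 0 536870912 536870912 536870912 991146299 28908434 3 eng mog cd4q0 cd0q1 pd0 false true false .up 0 0 1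
    ndB4q0 ndB0q1 pcB0 Cut.none Ext.none :=
  certB0 (fam := false) (s1 := true) (s2 := false) (a := 0) (b := 0) (c := 1) (cn := .up) (n1 := ndB4q0) (n2 := ndB0q1) (pc := pcB0) (cut := Cut.none) (xt := Ext.none) (P1 := 0) (W1 := 536870912) (P2 := 536870912) (W2 := 536870912) (P3 := 991146299) (W3 := 28908434) (N0 := 3) (En := eng) (mo := mog) (C1 := cd4q0) (C2 := cd0q1) (C3 := pd0)
    rfl k0_pm_001

noncomputable def f_pm_011 : ℕ → ℕ → ℕ → ℕ → Bool := onCell 0 536870912 536870912 536870912 991146299 28908434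
    (rowB 3 eng mog cd4q0 cd0q1 pd1 0 false true false .pnn 0 1 1 (qsf 0 536870912 536870912 536870912 1) ndB4q0 ndB0q1 pcB1 Cut.none Ext.none)

def k0_pm_011 : ∃ t, chk3 f_pm_011 t 1 1 1 = true :=
  ⟨(l 4), by decide +kernel⟩

theorem c_pm_011 : CertB 0 536870912 536870912 536870912 991146299 28908434 3 eng mog cd4q0 cd0q1 pd1 false true false .pnn 0 1 1
    ndB4q0 ndB0q1 pcB1 Cut.none Ext.none :=
  certB0 (fam := false) (s1 := true) (s2 := false) (a := 0) (b := 1) (c := 1) (cn := .pnn) (n1 := ndB4q0) (n2 := ndB0q1) (pc := pcB1) (cut := Cut.none) (xt := Ext.none) (P1 := 0) (W1 := 536870912) (P2 := 536870912) (W2 := 536870912) (P3 := 991146299) (W3 := 28908434) (N0 := 3) (En := eng) (mo := mog) (C1 := cd4q0) (C2 := cd0q1) (C3 := pd1)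
    rfl k0_pm_011

noncomputable def f_pm_012 : ℕ → ℕ → ℕ → ℕ → Bool := onCell 0 536870912 0 536870912 991146299 28908434
    (rowB 3 eng mog cd4q0 cd0q2 pd1 0 false true false .pnp 0 1 2 (qsf 0 536870912 0 536870912 1) ndB4q0 ndB0q2 pcB1 Cut.none Ext.none)

def k0_pm_012 : ∃ t, chk3 f_pm_012 t 1 1 1 = true :=
  ⟨(b (b (a (l 4) (b (a (a (l 4) (l 15303264)) (a (l 15309296) (c (l 15675856) (l 15878560)))) (l 4))) (l 4)) (l 4)), by decide +kernel⟩

theorem c_pm_012 : CertB 0 536870912 0 536870912 991146299 28908434 3 eng mog cd4q0 cd0q2 pd1 false true false .pnp 0 1 2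
    ndB4q0 ndB0q2 pcB1 Cut.none Ext.none :=
  certB0 (fam := false) (s1 := true) (s2 := false) (a := 0) (b := 1) (c := 2) (cn := .pnp) (n1 := ndB4q0) (n2 := ndB0q2) (pc := pcB1) (cut := Cut.none) (xt := Ext.none) (P1 := 0) (W1 := 536870912) (P2 := 0) (W2 := 536870912) (P3 := 991146299) (W3 := 28908434) (N0 := 3) (En := eng) (mo := mog) (C1 := cd4q0) (C2 := cd0q2) (C3 := pd1)
    rfl k0_pm_012

noncomputable def f_pm_022 : ℕ → ℕ → ℕ → ℕ → Bool := onCell 0 536870912 0 536870912 991146299 28908434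
    (rowB 3 eng mog cd4q0 cd0q2 pd2 0 false true false .pp 0 2 2 (qsf 0 536870912 0 536870912 2) ndB4q0 ndB0q2 pcB2 Cut.none Ext.none)

def k0_pm_022 : ∃ t, chk3 f_pm_022 t 1 1 1 = true :=
  ⟨(a (b (l 4) (l 4)) (l 1)), by decide +kernel⟩

theorem c_pm_022 : CertB 0 536870912 0 536870912 991146299 28908434 3 eng mog cd4q0 cd0q2 pd2 false true false .pp 0 2 2
    ndB4q0 ndB0q2 pcB2 Cut.none Ext.none :=
  certB0 (fam := false) (s1 := true) (s2 := false) (a := 0) (b := 2) (c := 2) (cn := .pp) (n1 := ndB4q0) (n2 := ndB0q2) (pc := pcB2) (cut := Cut.none) (xt := Ext.none) (P1 := 0) (W1 := 536870912) (P2 := 0) (W2 := 536870912) (P3 := 991146299) (W3 := 28908434) (N0 := 3) (En := eng) (mo := mog) (C1 := cd4q0) (C2 := cd0q2) (C3 := pd2)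
    rfl k0_pm_022

noncomputable def f_pm_101 : ℕ → ℕ → ℕ → ℕ → Bool := onCell 536870912 536870912 536870912 536870912 991146299 28908434
    (rowB 3 eng mog cd4q1 cd0q1 pd0 0 false true false .npn 1 0 1 (qsf 536870912 536870912 536870912 536870912 0) ndB4q1 ndB0q1 pcB0 Cut.none Ext.none)

def k0_pm_101 : ∃ t, chk3 f_pm_101 t 1 1 1 = true :=
  ⟨(l 4), by decide +kernel⟩

theorem c_pm_101 : CertB 536870912 536870912 536870912 536870912 991146299 28908434 3 eng mog cd4q1 cd0q1 pd0 false true false .npn 1 0 1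
    ndB4q1 ndB0q1 pcB0 Cut.none Ext.none :=
  certB0 (fam := false) (s1 := true) (s2 := false) (a := 1) (b := 0) (c := 1) (cn := .npn) (n1 := ndB4q1) (n2 := ndB0q1) (pc := pcB0) (cut := Cut.none) (xt := Ext.none) (P1 := 536870912) (W1 := 536870912) (P2 := 536870912) (W2 := 536870912) (P3 := 991146299) (W3 := 28908434) (N0 := 3) (En := eng) (mo := mog) (C1 := cd4q1) (C2 := cd0q1) (C3 := pd0)
    rfl k0_pm_101

noncomputable def f_pm_102 : ℕ → ℕ → ℕ → ℕ → Bool := onCell 536870912 536870912 0 536870912 991146299 28908434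
    (rowB 3 eng mog cd4q1 cd0q2 pd0 0 false true false .npp 1 0 2 (qsf 536870912 536870912 0 536870912 0) ndB4q1 ndB0q2 pcB0 Cut.none Ext.none)

def k0_pm_102 : ∃ t, chk3 f_pm_102 t 1 1 1 = true :=
  ⟨(a (b (a (b (l 2) (l 4)) (b (a (b (b (c (l 15795432) (l 15958240)) (l 15676896)) (a (b (l 15451624) (l 15339032)) (b (l 15447760) (l 15292296)))) (b (b (l 15660144) (l 15586040)) (a (b (l 15419640) (l 15244696)) (l 15279296)))) (b (a (l 4) (a (l 4) (b (l 15105288) (l 4)))) (l 4)))) (l 4)) (b (a (b (b (a (b (l 15425856) (l 15335624)) (b (l 15157040) (l 15151976))) (a (c (l 15136104) (l 15205968)) (c (l 14934176) (l 15005584)))) (b (b (a (a (l 15014736) (l 14921824)) (l 14774024)) (a (l 4) (a (l 14743048) (l 14615120)))) (l 4))) (b (b (a (l 14681872) (a (l 14659528) (l 14515200))) (a (c (l 14693080) (l 14747008)) (a (l 14509096) (l 14362736)))) (a (b (a (l 14544672) (l 14413520)) (b (c (l 14348936) (l 14321432)) (l 4))) (c (b (l 14214040) (c (l 14027288) (l 14014200)))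 (b (l 14185408) (b (l 13995736) (l 13916776))))))) (l 4))), by decide +kernel⟩

theorem c_pm_102 : CertB 536870912 536870912 0 536870912 991146299 28908434 3 eng mog cd4q1 cd0q2 pd0 false true false .npp 1 0 2
    ndB4q1 ndB0q2 pcB0 Cut.none Ext.none :=
  certB0 (fam := false) (s1 := true) (s2 := false) (a := 1) (b := 0) (c := 2) (cn := .npp) (n1 := ndB4q1) (n2 := ndB0q2) (pc := pcB0) (cut := Cut.none) (xt := Ext.none) (P1 := 536870912) (W1 := 536870912) (P2 := 0) (W2 := 536870912) (P3 := 991146299) (W3 := 28908434) (N0 := 3) (En := eng) (mo := mog) (C1 := cd4q1) (C2 := cd0q2) (C3 := pd0)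
    rfl k0_pm_102

noncomputable def f_pm_112 : ℕ → ℕ → ℕ → ℕ → Bool := onCell 536870912 536870912 0 536870912 991146299 28908434
    (rowB 3 eng mog cd4q1 cd0q2 pd1 2 false true false .dn 1 1 2 (qsf 536870912 536870912 0 536870912 1) ndB4q1 ndB0q2 pcB1 Cut.none Ext.none)

def k0_pm_112 : ∃ t, chk3 f_pm_112 t 1 1 1 = true :=
  ⟨(a (b (b (a (b (a (b (l 15634016) (l 15513600)) (b (l 15617728) (l 15492712))) (a (b (l 15409920) (l 15378840)) (l 15552624))) (a (l 15374408) (l 1))) (l 4)) (l 4)) (l 1)), by decide +kernel⟩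

theorem c_pm_112 : CertB 536870912 536870912 0 536870912 991146299 28908434 3 eng mog cd4q1 cd0q2 pd1 false true false .dn 1 1 2
    ndB4q1 ndB0q2 pcB1 Cut.none Ext.none :=
  certB2 (fam := false) (s1 := true) (s2 := false) (a := 1) (b := 1) (c := 2) (cn := .dn) (n1 := ndB4q1) (n2 := ndB0q2) (pc := pcB1) (cut := Cut.none) (xt := Ext.none) (P1 := 536870912) (W1 := 536870912) (P2 := 0) (W2 := 536870912) (P3 := 991146299) (W3 := 28908434) (N0 := 3) (En := eng) (mo := mog) (C1 := cd4q1) (C2 := cd0q2) (C3 := pd1)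
    rfl (fun _ => rfl) k0_pm_112

noncomputable def f_pm_202 : ℕ → ℕ → ℕ → ℕ → Bool := onCell 0 536870912 0 536870912 991146299 28908434
    (rowB 3 eng mog cd4q2 cd0q2 pd0 2 false true false .pp 2 0 2 (qsf 1073741824 536870912 0 536870912 0) ndB4q2 ndB0q2 pcB0 Cut.none Ext.none)

def k0_pm_202 : ∃ t, chk3 f_pm_202 t 2 2 1 = true :=
  ⟨(a (b (a (a (a (b (l 16407504) (l 16259160)) (b (l 16409752) (l 16209144))) (a (a (b (l 16405096) (l 16297936)) (c (b (l 16347024) (l 16244320)) (l 16184696))) (c (b (l 16295024) (l 16193200)) (b (l 16427160) (l 16307864))))) (a (b (a (a (l 16305512) (a (l 16440856) (l 16440392))) (a (b (c (l 16383592) (l 16246128)) (l 16419328)) (b (l 16299048) (l 16520544)))) (a (c (c (l 16284184) (l 16383104)) (l 16454016)) (c (l 16301216) (l 16450032)))) (b (b (c (a (l 16551160) (l 16537376)) (c (l 16431152) (l 16300832))) (c (l 16501200) (l 16434920))) (c (l 16307976) (l 16393944))))) (a (a (b (a (l 16020304) (l 15982544)) (c (a (l 16038624)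 (l 16056672)) (a (l 16084304) (l 16146256)))) (a (a (b (l 16207928) (c (l 16067968) (l 16191840))) (b (c (l 16155864) (l 16285928)) (c (l 16076376) (l 16224040)))) (c (b (l 16148312) (l 15903504)) (b (a (l 16333112) (l 16385024)) (c (l 16251504) (l 16326688)))))) (a (c (a (b (l 16183448) (l 16023480)) (b (l 16194872) (l 16037472))) (a (b (l 16316544) (c (l 16346112) (l 16415792))) (b (l 16396760) (c (l 16397504) (l 16545456))))) (c (b (c (l 16277560) (l 16440280)) (c (l 16209584) (l 16322288))) (b (l 16371928) (a (l 16442528) (l 16500840))))))) (a (a (b (b (c (b (c (l 16542904) (l 16543672)) (l 16388248)) (b (l 16162984) (l 16246776))) (c (l 16343664) (l 16340376))) (c (c (b (l 16327512) (l 16278368)) (b (l 16539008) (l 16401224))) (b (l 16291360) (c (l 16615512) (l 16349088))))) (b (b (l 1) (l 1)) (l 1))) (l 1))), by decide +kernel⟩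

def k1_pm_202 : ∃ t, chk3 f_pm_202 t 4 6 1 = true :=
  ⟨(b (a (a (b (c (l 15965720) (a (l 16012224) (l 16087696))) (c (a (l 15889536) (l 15928360)) (a (l 15965680) (l 16051376)))) (a (c (a (l 15980896) (l 15998632)) (a (l 16090032) (b (l 16184472) (l 16162384)))) (c (b (l 16056664) (l 16019056)) (b (l 16220576) (l 16158952))))) (a (c (a (b (l 16115064) (l 16078744)) (b (l 16173688) (l 16139616))) (a (b (l 16267936) (l 16229720)) (c (l 16333312) (l 16393936)))) (a (c (l 22580419351) (b (l 16465064) (l 16396152))) (c (l 334502618679) (l 371547531879))))) (b (a (a (c (a (l 15824656) (l 15873304)) (a (l 15793240) (l 15953128))) (a (c (l 15776696) (a (l 16091112) (l 16142656))) (c (l 15980200) (l 16058120)))) (a (c (a (l 16041488) (l 16020688)) (a (l 16152744) (c (l 16369304) (a (l 16519936) (l 16587208))))) (a (a (c (l 16152864) (l 300143667975)) (l 1)) (l 1)))) (a (a (c (a (l 15746144) (l 15801672)) (a (b (l 15881672) (l 15849136)) (b (l 15985560) (l 15953584))))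 (c (a (l 15859248) (l 15919192)) (a (c (l 16023240) (l 16137288)) (c (l 16122480) (l 16263704))))) (a (c (a (l 15750920) (l 108479513927)) (a (c (l 16225496) (l 16373832)) (a (l 16231640) (l 1)))) (l 1))))), by decide +kernel⟩

def k2_pm_202 : ∃ t, chk3 f_pm_202 t 4 7 1 = true :=
  ⟨(a (a (a (b (b (c (l 15645576) (l 15801368)) (c (l 15537024) (l 15732976))) (b (c (l 15415664) (b (l 15677504) (l 15637600))) (c (l 15288976) (l 15581464)))) (b (b (c (l 15702528) (l 15906960)) (c (l 15596192) (l 15840400))) (a (b (c (l 15462896) (l 15739776)) (c (l 15338952) (l 15666656))) (b (c (l 15495016) (l 15796008)) (l 1))))) (a (b (b (c (l 15761920) (l 15974736)) (c (l 15658216) (l 15910080))) (b (a (b (l 15481680) (l 1)) (l 1)) (l 1))) (b (c (b (l 15823968) (l 15723472)) (b (l 15962840) (l 15816616))) (l 1)))) (a (a (b (b (c (l 15888848) (l 151429591623)) (l 1)) (l 1)) (l 1)) (l 1))), by decide +kernel⟩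

def k3_pm_202 : ∃ t, chk3 f_pm_202 t 5 3 1 = true :=
  ⟨(b (l 1) (l 1)), by decide +kernel⟩

def k4_pm_202 : ∃ t, chk3 f_pm_202 t 3 1 1 = true :=
  ⟨(l 1), by decide +kernel⟩

theorem s5_pm_202 : ∃ t, chk3 f_pm_202 t 4 3 1 = true := ex3_b k1_pm_202 k2_pm_202

theorem s6_pm_202 : ∃ t, chk3 f_pm_202 t 2 3 1 = true := ex3_a s5_pm_202 k3_pm_202

theorem s7_pm_202 : ∃ t, chk3 f_pm_202 t 2 1 1 = true := ex3_b k0_pm_202 s6_pm_202

theorem s8_pm_202 : ∃ t, chk3 f_pm_202 t 1 1 1 = true := ex3_a s7_pm_202 k4_pm_202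

theorem c_pm_202 : CertB 1073741824 536870912 0 536870912 991146299 28908434 3 eng mog cd4q2 cd0q2 pd0 false true false .pp 2 0 2
    ndB4q2 ndB0q2 pcB0 Cut.none Ext.none :=
  certB2 (fam := false) (s1 := true) (s2 := false) (a := 2) (b := 0) (c := 2) (cn := .pp) (n1 := ndB4q2) (n2 := ndB0q2) (pc := pcB0) (cut := Cut.none) (xt := Ext.none) (P1 := 1073741824) (W1 := 536870912) (P2 := 0) (W2 := 536870912) (P3 := 991146299) (W3 := 28908434) (N0 := 3) (En := eng) (mo := mog) (C1 := cd4q2) (C2 := cd0q2) (C3 := pd0)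
    rfl (fun _ => rfl) s8_pm_202

noncomputable def f_mm_001 : ℕ → ℕ → ℕ → ℕ → Bool := onCell 0 536870912 536870912 536870912 991146299 28908434
    (rowB 3 eng mog cd4q0 cd0q1 pd0 0 false false false .up 0 0 1 (qsf 0 536870912 536870912 536870912 0) ndB4q0 ndB0q1 pcB0 Cut.none Ext.none)

def k0_mm_001 : ∃ t, chk3 f_mm_001 t 1 1 1 = true :=
  ⟨(l 5), by decide +kernel⟩

theorem c_mm_001 : CertB 0 536870912 536870912 536870912 991146299 28908434 3 eng mog cd4q0 cd0q1 pd0 false false false .up 0 0 1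
    ndB4q0 ndB0q1 pcB0 Cut.none Ext.none :=
  certB0 (fam := false) (s1 := false) (s2 := false) (a := 0) (b := 0) (c := 1) (cn := .up) (n1 := ndB4q0) (n2 := ndB0q1) (pc := pcB0) (cut := Cut.none) (xt := Ext.none) (P1 := 0) (W1 := 536870912) (P2 := 536870912) (W2 := 536870912) (P3 := 991146299) (W3 := 28908434) (N0 := 3) (En := eng) (mo := mog) (C1 := cd4q0) (C2 := cd0q1) (C3 := pd0)
    rfl k0_mm_001

noncomputable def f_mm_011 : ℕ → ℕ → ℕ → ℕ → Bool := onCell 0 536870912 536870912 536870912 991146299 28908434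
    (rowB 3 eng mog cd4q0 cd0q1 pd1 0 false false false .pnn 0 1 1 (qsf 0 536870912 536870912 536870912 1) ndB4q0 ndB0q1 pcB1 Cut.none Ext.none)

def k0_mm_011 : ∃ t, chk3 f_mm_011 t 1 1 1 = true :=
  ⟨(l 5), by decide +kernel⟩

theorem c_mm_011 : CertB 0 536870912 536870912 536870912 991146299 28908434 3 eng mog cd4q0 cd0q1 pd1 false false false .pnn 0 1 1
    ndB4q0 ndB0q1 pcB1 Cut.none Ext.none :=
  certB0 (fam := false) (s1 := false) (s2 := false) (a := 0) (b := 1) (c := 1) (cn := .pnn) (n1 := ndB4q0) (n2 := ndB0q1) (pc := pcB1) (cut := Cut.none) (xt := Ext.none) (P1 := 0) (W1 := 536870912) (P2 := 536870912) (W2 := 536870912) (P3 := 991146299) (W3 := 28908434) (N0 := 3) (En := eng) (mo := mog) (C1 := cd4q0) (C2 := cd0q1) (C3 := pd1)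
    rfl k0_mm_011

noncomputable def f_mm_012 : ℕ → ℕ → ℕ → ℕ → Bool := onCell 0 536870912 0 536870912 991146299 28908434
    (rowB 3 eng mog cd4q0 cd0q2 pd1 0 false false false .pnp 0 1 2 (qsf 0 536870912 0 536870912 1) ndB4q0 ndB0q2 pcB1 Cut.none Ext.none)

def k0_mm_012 : ∃ t, chk3 f_mm_012 t 1 1 1 = true :=
  ⟨(l 5), by decide +kernel⟩

theorem c_mm_012 : CertB 0 536870912 0 536870912 991146299 28908434 3 eng mog cd4q0 cd0q2 pd1 false false false .pnp 0 1 2
    ndB4q0 ndB0q2 pcB1 Cut.none Ext.none :=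
  certB0 (fam := false) (s1 := false) (s2 := false) (a := 0) (b := 1) (c := 2) (cn := .pnp) (n1 := ndB4q0) (n2 := ndB0q2) (pc := pcB1) (cut := Cut.none) (xt := Ext.none) (P1 := 0) (W1 := 536870912) (P2 := 0) (W2 := 536870912) (P3 := 991146299) (W3 := 28908434) (N0 := 3) (En := eng) (mo := mog) (C1 := cd4q0) (C2 := cd0q2) (C3 := pd1)
    rfl k0_mm_012

noncomputable def f_mm_022 : ℕ → ℕ → ℕ → ℕ → Bool := onCell 0 536870912 0 536870912 991146299 28908434
    (rowB 3 eng mog cd4q0 cd0q2 pd2 0 false false false .pp 0 2 2 (qsf 0 536870912 0 536870912 2) ndB4q0 ndB0q2 pcB2 Cut.none Ext.none)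

def k0_mm_022 : ∃ t, chk3 f_mm_022 t 1 1 1 = true :=
  ⟨(l 5), by decide +kernel⟩

theorem c_mm_022 : CertB 0 536870912 0 536870912 991146299 28908434 3 eng mog cd4q0 cd0q2 pd2 false false false .pp 0 2 2
    ndB4q0 ndB0q2 pcB2 Cut.none Ext.none :=
  certB0 (fam := false) (s1 := false) (s2 := false) (a := 0) (b := 2) (c := 2) (cn := .pp) (n1 := ndB4q0) (n2 := ndB0q2) (pc := pcB2) (cut := Cut.none) (xt := Ext.none) (P1 := 0) (W1 := 536870912) (P2 := 0) (W2 := 536870912) (P3 := 991146299) (W3 := 28908434) (N0 := 3) (En := eng) (mo := mog) (C1 := cd4q0) (C2 := cd0q2) (C3 := pd2)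
    rfl k0_mm_022

noncomputable def f_mm_101 : ℕ → ℕ → ℕ → ℕ → Bool := onCell 0 536870912 536870912 536870912 991146299 28908434
    (rowB 3 eng mog cd4q1 cd0q1 pd0 2 false false false .npn 1 0 1 (qsf 536870912 536870912 536870912 536870912 0) ndB4q1 ndB0q1 pcB0 Cut.none Ext.none)

def k0_mm_101 : ∃ t, chk3 f_mm_101 t 1 1 1 = true :=
  ⟨(l 5), by decide +kernel⟩

theorem c_mm_101 : CertB 536870912 536870912 536870912 536870912 991146299 28908434 3 eng mog cd4q1 cd0q1 pd0 false false false .npn 1 0 1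
    ndB4q1 ndB0q1 pcB0 Cut.none Ext.none :=
  certB2 (fam := false) (s1 := false) (s2 := false) (a := 1) (b := 0) (c := 1) (cn := .npn) (n1 := ndB4q1) (n2 := ndB0q1) (pc := pcB0) (cut := Cut.none) (xt := Ext.none) (P1 := 536870912) (W1 := 536870912) (P2 := 536870912) (W2 := 536870912) (P3 := 991146299) (W3 := 28908434) (N0 := 3) (En := eng) (mo := mog) (C1 := cd4q1) (C2 := cd0q1) (C3 := pd0)
    rfl (fun _ => rfl) k0_mm_101

noncomputable def f_mm_102 : ℕ → ℕ → ℕ → ℕ → Bool := onCell 536870912 536870912 0 536870912 991146299 28908434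
    (rowB 3 eng mog cd4q1 cd0q2 pd0 0 false false false .npp 1 0 2 (qsf 536870912 536870912 0 536870912 0) ndB4q1 ndB0q2 pcB0 Cut.none Ext.none)

def k0_mm_102 : ∃ t, chk3 f_mm_102 t 1 1 1 = true :=
  ⟨(l 5), by decide +kernel⟩

theorem c_mm_102 : CertB 536870912 536870912 0 536870912 991146299 28908434 3 eng mog cd4q1 cd0q2 pd0 false false false .npp 1 0 2
    ndB4q1 ndB0q2 pcB0 Cut.none Ext.none :=
  certB0 (fam := false) (s1 := false) (s2 := false) (a := 1) (b := 0) (c := 2) (cn := .npp) (n1 := ndB4q1) (n2 := ndB0q2) (pc := pcB0) (cut := Cut.none) (xt := Ext.none) (P1 := 536870912) (W1 := 536870912) (P2 := 0) (W2 := 536870912) (P3 := 991146299) (W3 := 28908434) (N0 := 3) (En := eng) (mo := mog) (C1 := cd4q1) (C2 := cd0q2) (C3 := pd0)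
    rfl k0_mm_102

noncomputable def f_mm_112 : ℕ → ℕ → ℕ → ℕ → Bool := onCell 536870912 536870912 0 536870912 991146299 28908434
    (rowB 3 eng mog cd4q1 cd0q2 pd1 0 false false false .dn 1 1 2 (qsf 536870912 536870912 0 536870912 1) ndB4q1 ndB0q2 pcB1 Cut.none Ext.none)

def k0_mm_112 : ∃ t, chk3 f_mm_112 t 1 1 1 = true :=
  ⟨(l 5), by decide +kernel⟩

theorem c_mm_112 : CertB 536870912 536870912 0 536870912 991146299 28908434 3 eng mog cd4q1 cd0q2 pd1 false false false .dn 1 1 2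
    ndB4q1 ndB0q2 pcB1 Cut.none Ext.none :=
  certB0 (fam := false) (s1 := false) (s2 := false) (a := 1) (b := 1) (c := 2) (cn := .dn) (n1 := ndB4q1) (n2 := ndB0q2) (pc := pcB1) (cut := Cut.none) (xt := Ext.none) (P1 := 536870912) (W1 := 536870912) (P2 := 0) (W2 := 536870912) (P3 := 991146299) (W3 := 28908434) (N0 := 3) (En := eng) (mo := mog) (C1 := cd4q1) (C2 := cd0q2) (C3 := pd1)
    rfl k0_mm_112

noncomputable def f_mm_202 : ℕ → ℕ → ℕ → ℕ → Bool := onCell 1073741824 536870912 0 536870912 991146299 28908434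
    (rowB 3 eng mog cd4q2 cd0q2 pd0 0 false false false .pp 2 0 2 (qsf 1073741824 536870912 0 536870912 0) ndB4q2 ndB0q2 pcB0 Cut.none Ext.none)

def k0_mm_202 : ∃ t, chk3 f_mm_202 t 1 1 1 = true :=
  ⟨(l 5), by decide +kernel⟩

theorem c_mm_202 : CertB 1073741824 536870912 0 536870912 991146299 28908434 3 eng mog cd4q2 cd0q2 pd0 false false false .pp 2 0 2
    ndB4q2 ndB0q2 pcB0 Cut.none Ext.none :=
  certB0 (fam := false) (s1 := false) (s2 := false) (a := 2) (b := 0) (c := 2) (cn := .pp) (n1 := ndB4q2) (n2 := ndB0q2) (pc := pcB0) (cut := Cut.none) (xt := Ext.none) (P1 := 1073741824) (W1 := 536870912) (P2 := 0) (W2 := 536870912) (P3 := 991146299) (W3 := 28908434) (N0 := 3) (En := eng) (mo := mog) (C1 := cd4q2) (C2 := cd0q2) (C3 := pd0)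
    rfl k0_mm_202

end Pool.Agent.Strip051.G.I9231_9500.Tab.C.BB40

namespace Pool.Agent.Strip051.G.I9231_9500.Tab.C.BB41

open Pool.Agent.Strip051.PB Pool.Agent.Strip051.PB.T
open Pool.Agent.Strip051.G.I9231_9500.Tab

noncomputable def f_pp_001 : ℕ → ℕ → ℕ → ℕ → Bool := onCell 0 536870912 536870912 536870912 991146299 28908434
    (rowB 3 eng mog cd4q0 cd1q1 pd0 2 false true true .up 0 0 1 (qsf 0 536870912 536870912 536870912 0) ndB4q0 ndB1q1 pcB0 Cut.none Ext.none)

def k0_pp_001 : ∃ t, chk3 f_pp_001 t 1 1 1 = true :=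
  ⟨(l 3), by decide +kernel⟩

theorem c_pp_001 : CertB 0 536870912 536870912 536870912 991146299 28908434 3 eng mog cd4q0 cd1q1 pd0 false true true .up 0 0 1
    ndB4q0 ndB1q1 pcB0 Cut.none Ext.none :=
  certB2 (fam := false) (s1 := true) (s2 := true) (a := 0) (b := 0) (c := 1) (cn := .up) (n1 := ndB4q0) (n2 := ndB1q1) (pc := pcB0) (cut := Cut.none) (xt := Ext.none) (P1 := 0) (W1 := 536870912) (P2 := 536870912) (W2 := 536870912) (P3 := 991146299) (W3 := 28908434) (N0 := 3) (En := eng) (mo := mog) (C1 := cd4q0) (C2 := cd1q1) (C3 := pd0)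
    rfl (fun _ => rfl) k0_pp_001

noncomputable def f_pp_011 : ℕ → ℕ → ℕ → ℕ → Bool := onCell 0 536870912 536870912 536870912 991146299 28908434
    (rowB 3 eng mog cd4q0 cd1q1 pd1 0 false true true .pnn 0 1 1 (qsf 0 536870912 536870912 536870912 1) ndB4q0 ndB1q1 pcB1 Cut.none Ext.none)

def k0_pp_011 : ∃ t, chk3 f_pp_011 t 1 1 1 = true :=
  ⟨(b (l 3) (a (b (a (b (l 3) (a (l 3) (l 3))) (l 3)) (a (b (a (b (a (b (l 131162240903) (l 15808576)) (b (l 15685400) (l 15662608))) (a (b (l 15653584) (l 15490480)) (b (l 15629216) (l 15574896)))) (b (a (l 132236082263) (l 3)) (a (b (l 15540552) (l 15483056)) (b (l 15533912) (l 15485512))))) (a (b (a (a (b (l 15293896) (l 15120232)) (l 15262008)) (b (l 15424288) (l 15252744))) (a (b (b (l 15015312) (l 14928624)) (c (l 14821000) (l 14763984))) (b (l 15072272) (l 15008072)))) (b (a (l 15371280) (l 15412944)) (a (l 15198560) (l 15334152))))) (b (a (b (l 3) (a (b (l 15544616) (l 15499472)) (b (l 3) (l 15512896)))) (l 3)) (a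 (b (a (l 15441880) (l 15414120)) (a (l 15403696) (l 15421784))) (b (a (b (l 15481944) (l 15445976)) (b (l 15489656) (l 15448128))) (a (l 15416312) (l 15402776))))))) (b (l 3) (b (l 3) (a (b (a (a (b (l 3) (l 15450816)) (l 3)) (l 3)) (a (a (b (l 15408504) (l 15374816)) (b (l 206323584455) (l 15360672))) (c (b (l 351278270663) (a (l 15434704) (l 15439920))) (a (l 209544508119) (l 197196447895))))) (a (b (l 3) (a (c (l 342688791719) (l 351815205671)) (l 3))) (l 3))))))), by decide +kernel⟩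

theorem c_pp_011 : CertB 0 536870912 536870912 536870912 991146299 28908434 3 eng mog cd4q0 cd1q1 pd1 false true true .pnn 0 1 1
    ndB4q0 ndB1q1 pcB1 Cut.none Ext.none :=
  certB0 (fam := false) (s1 := true) (s2 := true) (a := 0) (b := 1) (c := 1) (cn := .pnn) (n1 := ndB4q0) (n2 := ndB1q1) (pc := pcB1) (cut := Cut.none) (xt := Ext.none) (P1 := 0) (W1 := 536870912) (P2 := 536870912) (W2 := 536870912) (P3 := 991146299) (W3 := 28908434) (N0 := 3) (En := eng) (mo := mog) (C1 := cd4q0) (C2 := cd1q1) (C3 := pd1)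
    rfl k0_pp_011

noncomputable def f_pp_012_a : ℕ → ℕ → ℕ → ℕ → Bool := onCell 536870912 536870912 0 536870912 991146299 28908434
    (rowB 3 eng mog cd4q0 cd1q2a pd1 2 false true true .pnp 0 1 2 (qsf 0 536870912 0 536870912 1) ndB4q0 ndB1q2a pcB1 Cut.none Ext.none)

def k0_pp_012_a : ∃ t, chk3 f_pp_012_a t 1 1 1 = true :=
  ⟨(a (a (a (b (l 2) (b (l 2) (b (c (l 16124472) (l 16209168)) (b (c (l 16315600) (l 16204040)) (a (c (l 16039296) (l 15886096)) (l 15912312)))))) (b (b (l 2) (c (l 15764312) (l 15962128))) (b (b (l 15696976) (b (l 15693840) (l 15837536))) (b (c (l 15972680) (l 16119080)) (b (c (l 16155152) (l 16293064)) (c (l 16149480) (l 16023960))))))) (b (a (b (a (l 15931400) (l 15831048)) (c (l 15646464) (l 15842080))) (b (l 15686504) (l 15449656))) (b (a (b (l 15633168) (c (l 15618984) (l 15756352))) (b (l 15593392) (b (l 15595536) (l 15671864)))) (a (b (c (l 15835552) (l 15975488)) (c (l 15874848) (b (l 16114856) (l 16117368)))) (b (c (l 15720632)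 (l 15849248)) (c (l 15807088) (l 15838288))))))) (b (a (a (b (l 15496704) (l 15399304)) (b (l 15309560) (c (l 15387112) (l 15539600)))) (a (b (l 15081672) (c (l 15319768) (l 15444304))) (b (a (l 14983392) (l 14888992)) (a (l 15317760) (b (l 15175168) (l 15367872)))))) (a (b (a (b (l 15572864) (a (l 15610824) (l 15606408))) (b (l 15565760) (c (l 15559368) (l 15671872)))) (a (b (c (l 15635152) (l 15747968)) (c (l 15699808) (l 15708840))) (b (c (l 15585896) (l 15678792)) (a (l 15518640) (l 15400400))))) (b (a (b (l 15459936) (c (l 15601744) (l 15697256))) (b (a (l 15562416) (l 15557192)) (a (b (l 15678712) (l 15703704)) (b (l 15693992) (l 15742680))))) (a (b (a (l 15613096) (l 15614800)) (a (b (l 15565920) (l 15520352)) (b (l 15542048) (l 15457928)))) (a (b (l 15628040) (b (l 15509648) (a (l 15456248) (l 15445656)))) (a (b (l 15645520) (c (b (l 15527512) (l 15512912)) (l 15482328))) (b (l 15660696) (c (l 15492592) (l 15476648)))))))))), by decide +kernel⟩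

theorem c_pp_012_a : CertB 0 536870912 0 536870912 991146299 28908434 3 eng mog cd4q0 cd1q2a pd1 false true true .pnp 0 1 2
    ndB4q0 ndB1q2a pcB1 Cut.none Ext.none :=
  certB2 (fam := false) (s1 := true) (s2 := true) (a := 0) (b := 1) (c := 2) (cn := .pnp) (n1 := ndB4q0) (n2 := ndB1q2a) (pc := pcB1) (cut := Cut.none) (xt := Ext.none) (P1 := 0) (W1 := 536870912) (P2 := 0) (W2 := 536870912) (P3 := 991146299) (W3 := 28908434) (N0 := 3) (En := eng) (mo := mog) (C1 := cd4q0) (C2 := cd1q2a) (C3 := pd1)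
    rfl (fun _ => rfl) k0_pp_012_a

noncomputable def f_pp_012_b : ℕ → ℕ → ℕ → ℕ → Bool := onCell 536870912 536870912 1239849684 370763052 991146299 28908434
    (rowB 3 eng mog cd4q0 cd1q2b pd1 2 false true true .pnp 0 1 2 (qsf 0 536870912 1239849684 370763052 1) ndB4q0 ndB1q2b pcB1 Cut.none Ext.none)

def k0_pp_012_b : ∃ t, chk3 f_pp_012_b t 1 1 1 = true :=
  ⟨(a (a (l 2) (b (a (c (l 15654032) (l 16004424)) (b (l 15582960) (l 15648488))) (l 2))) (a (b (b (a (l 15381432) (l 15029528)) (a (l 15396048) (l 15131728))) (c (b (l 15117872) (l 2)) (l 15122576))) (b (b (a (c (l 14874752) (l 15022232)) (b (l 14725024) (l 14655912))) (a (l 14854984) (l 14565304))) (a (b (l 14780816) (l 14724128)) (b (l 14460776) (l 14377224)))))), by decide +kernel⟩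

theorem c_pp_012_b : CertB 0 536870912 1239849684 370763052 991146299 28908434 3 eng mog cd4q0 cd1q2b pd1 false true true .pnp 0 1 2
    ndB4q0 ndB1q2b pcB1 Cut.none Ext.none :=
  certB2 (fam := false) (s1 := true) (s2 := true) (a := 0) (b := 1) (c := 2) (cn := .pnp) (n1 := ndB4q0) (n2 := ndB1q2b) (pc := pcB1) (cut := Cut.none) (xt := Ext.none) (P1 := 0) (W1 := 536870912) (P2 := 1239849684) (W2 := 370763052) (P3 := 991146299) (W3 := 28908434) (N0 := 3) (En := eng) (mo := mog) (C1 := cd4q0) (C2 := cd1q2b) (C3 := pd1)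
    rfl (fun _ => rfl) k0_pp_012_b

noncomputable def f_pp_022_a : ℕ → ℕ → ℕ → ℕ → Bool := onCell 1073741824 536870912 0 536870912 991146299 28908434
    (rowB 3 eng mog cd4q0 cd1q2a pd2 2 false true true .pp 0 2 2 (qsf 0 536870912 0 536870912 2) ndB4q0 ndB1q2a pcB2 Cut.none Ext.none)

def k0_pp_022_a : ∃ t, chk3 f_pp_022_a t 2 2 1 = true :=
  ⟨(a (a (b (a (c (b (l 14897944) (l 15145488)) (b (l 15006064) (l 15311472))) (c (l 15099128) (b (l 15058472) (l 15298840)))) (c (b (a (l 15400648) (l 15398568)) (a (b (l 15594568) (l 15725208)) (l 15605184))) (a (b (l 15622128) (b (l 15855856) (l 15949016))) (b (l 15543504) (b (l 15727112) (l 15849384)))))) (a (b (c (l 15194928) (b (l 15138208) (l 15313968))) (b (c (l 15415840) (l 15492744)) (c (l 15568616) (a (l 15697616) (l 15644992))))) (b (c (l 15302624) (b (l 15235888) (l 15349072))) (b (a (l 15453408) (l 15435912)) (c (l 15525856) (b (l 15547872) (l 15602688))))))) (a (b (a (c (l 15411896) (l 15366992)) (c (l 15501248)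 (l 15426200))) (a (a (c (b (l 15474520) (l 15536344)) (l 551934272295)) (b (c (l 15494680) (l 15445624)) (l 1))) (l 1))) (l 1))), by decide +kernel⟩

def k1_pp_022_a : ∃ t, chk3 f_pp_022_a t 4 6 1 = true :=
  ⟨(a (b (c (b (a (l 15856168) (l 15760224)) (a (b (l 15954088) (l 15994632)) (b (l 15837648) (l 15874200)))) (a (b (c (l 16087616) (l 16227504)) (b (l 16094240) (c (l 16242904) (l 16310424)))) (b (l 15865856) (b (l 16060528) (l 15891344))))) (c (a (a (l 15768912) (l 15899328)) (b (l 15855960) (l 15777592))) (a (c (b (l 16206992) (l 16143880)) (b (l 16308160) (l 16210960))) (b (l 15880184) (a (l 16060480) (l 15960816)))))) (b (a (b (c (l 15682544) (l 15801288)) (c (b (l 15739112) (l 15766896)) (b (l 15865040) (l 15810848)))) (a (b (l 15661416) (b (l 15704032) (l 15723280))) (b (l 15592712) (l 1)))) (b (a (c (l 15752872) (l 15679840)) (a (l 184715080871) (l 1))) (a (c (l 15724008) (a (l 15865944) (l 15775800))) (l 1))))), by decide +kernel⟩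

def k2_pp_022_a : ∃ t, chk3 f_pp_022_a t 4 7 1 = true :=
  ⟨(b (b (a (a (c (a (l 15903416) (l 15850904)) (a (l 16025552) (l 16005808))) (c (a (l 15801376) (l 15754728)) (a (l 15969800) (l 15896568)))) (a (a (c (l 172904185447) (l 15807000)) (l 1)) (l 1))) (a (a (c (a (b (l 15860328) (l 15829176)) (b (l 15810832) (l 15781744))) (a (c (l 16036776) (l 16170152)) (c (l 15951400) (l 16059240)))) (a (c (b (l 15764368) (l 15737328)) (c (l 15870320) (l 15953528))) (c (l 15687144) (b (l 15842464) (l 15802928))))) (l 1))) (a (b (a (c (a (b (l 15795936) (a (l 15771792) (l 15749352))) (b (l 15750632) (a (l 15706856) (b (l 15715472) (l 15698392))))) (a (a (c (l 15964752) (l 15981440)) (c (l 15923592) (l 15927712))) (b (c (l 15887128) (l 15982208)) (a (l 36539166615) (l 15861184))))) (b (a (a (c (l 15718608) (l 15867080)) (l 1)) (l 1)) (l 1))) (a (a (b (c (a (a (l 15738784) (l 15706888)) (a (a (l 15698904) (l 15693664)) (l 15685536))) (a (b (l 15954200) (a (l 15935592)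 (l 15912872))) (b (l 15908704) (a (l 15890536) (l 15868472))))) (a (c (a (b (l 15687040) (l 15655056)) (a (l 139617776071) (b (b (l 15700160) (l 15689816)) (l 1)))) (c (a (l 15823616) (l 15799144)) (a (b (l 15955744) (l 15899792)) (l 15923488)))) (b (a (b (c (l 15692472) (l 15867864)) (l 1)) (l 1)) (l 1)))) (b (b (a (c (a (l 15706040) (l 15695792)) (l 15864416)) (l 1)) (l 1)) (l 1))) (l 1))) (l 1))), by decide +kernel⟩

def k3_pp_022_a : ∃ t, chk3 f_pp_022_a t 5 3 1 = true :=
  ⟨(b (l 1) (l 1)), by decide +kernel⟩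

def k4_pp_022_a : ∃ t, chk3 f_pp_022_a t 3 1 1 = true :=
  ⟨(l 1), by decide +kernel⟩

theorem s5_pp_022_a : ∃ t, chk3 f_pp_022_a t 4 3 1 = true := ex3_b k1_pp_022_a k2_pp_022_a

theorem s6_pp_022_a : ∃ t, chk3 f_pp_022_a t 2 3 1 = true := ex3_a s5_pp_022_a k3_pp_022_a

theorem s7_pp_022_a : ∃ t, chk3 f_pp_022_a t 2 1 1 = true := ex3_b k0_pp_022_a s6_pp_022_a

theorem s8_pp_022_a : ∃ t, chk3 f_pp_022_a t 1 1 1 = true := ex3_a s7_pp_022_a k4_pp_022_a

theorem c_pp_022_a : CertB 0 536870912 0 536870912 991146299 28908434 3 eng mog cd4q0 cd1q2a pd2 false true true .pp 0 2 2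
    ndB4q0 ndB1q2a pcB2 Cut.none Ext.none :=
  certB2 (fam := false) (s1 := true) (s2 := true) (a := 0) (b := 2) (c := 2) (cn := .pp) (n1 := ndB4q0) (n2 := ndB1q2a) (pc := pcB2) (cut := Cut.none) (xt := Ext.none) (P1 := 0) (W1 := 536870912) (P2 := 0) (W2 := 536870912) (P3 := 991146299) (W3 := 28908434) (N0 := 3) (En := eng) (mo := mog) (C1 := cd4q0) (C2 := cd1q2a) (C3 := pd2)
    rfl (fun _ => rfl) s8_pp_022_a

noncomputable def f_pp_022_b : ℕ → ℕ → ℕ → ℕ → Bool := onCell 1073741824 536870912 1239849684 370763052 991146299 28908434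
    (rowB 3 eng mog cd4q0 cd1q2b pd2 2 false true true .pp 0 2 2 (qsf 0 536870912 1239849684 370763052 2) ndB4q0 ndB1q2b pcB2 Cut.none Ext.none)

def k0_pp_022_b : ∃ t, chk3 f_pp_022_b t 1 1 1 = true :=
  ⟨(a (a (a (b (b (c (a (l 14669544) (l 14802792)) (a (l 14764504) (l 14856392))) (c (l 14545832) (l 14643616))) (b (a (l 14384680) (l 14537904)) (a (l 14279080) (l 14468264)))) (a (c (b (b (l 14957952) (l 14798160)) (l 14673600)) (b (b (l 14978200) (l 14850752)) (l 14757888))) (b (b (c (l 15125968) (l 15119800)) (l 14825904)) (l 4)))) (b (a (b (a (b (b (l 15323744) (l 15293056)) (l 15254104)) (b (c (l 15490560) (l 15433304)) (l 15425136))) (a (l 15203224) (l 4))) (b (a (b (l 617432271863) (l 4)) (b (l 1) (l 4))) (l 4))) (l 4))) (b (a (b (l 1) (a (l 4) (l 4))) (l 1)) (a (l 4) (a (l 4) (b (l 1) (l 4)))))), by decide +kernel⟩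

theorem c_pp_022_b : CertB 0 536870912 1239849684 370763052 991146299 28908434 3 eng mog cd4q0 cd1q2b pd2 false true true .pp 0 2 2
    ndB4q0 ndB1q2b pcB2 Cut.none Ext.none :=
  certB2 (fam := false) (s1 := true) (s2 := true) (a := 0) (b := 2) (c := 2) (cn := .pp) (n1 := ndB4q0) (n2 := ndB1q2b) (pc := pcB2) (cut := Cut.none) (xt := Ext.none) (P1 := 0) (W1 := 536870912) (P2 := 1239849684) (W2 := 370763052) (P3 := 991146299) (W3 := 28908434) (N0 := 3) (En := eng) (mo := mog) (C1 := cd4q0) (C2 := cd1q2b) (C3 := pd2)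
    rfl (fun _ => rfl) k0_pp_022_b

noncomputable def f_pp_023 : ℕ → ℕ → ℕ → ℕ → Bool := onCell 1073741824 536870912 1610612736 536870912 991146299 28908434
    (rowB 3 eng mog cd4q0 cd1q3 pd2 2 false true true .up 0 2 3 (qsf 0 536870912 1610612736 536870912 2) ndB4q0 ndB1q3 pcB2 Cut.none Ext.none)

def k0_pp_023 : ∃ t, chk3 f_pp_023 t 1 1 1 = true :=
  ⟨(a (a (b (a (b (a (l 14110944) (l 4)) (l 2)) (l 4)) (l 2)) (l 4)) (l 4)), by decide +kernel⟩

theorem c_pp_023 : CertB 0 536870912 1610612736 536870912 991146299 28908434 3 eng mog cd4q0 cd1q3 pd2 false true true .up 0 2 3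
    ndB4q0 ndB1q3 pcB2 Cut.none Ext.none :=
  certB2 (fam := false) (s1 := true) (s2 := true) (a := 0) (b := 2) (c := 3) (cn := .up) (n1 := ndB4q0) (n2 := ndB1q3) (pc := pcB2) (cut := Cut.none) (xt := Ext.none) (P1 := 0) (W1 := 536870912) (P2 := 1610612736) (W2 := 536870912) (P3 := 991146299) (W3 := 28908434) (N0 := 3) (En := eng) (mo := mog) (C1 := cd4q0) (C2 := cd1q3) (C3 := pd2)
    rfl (fun _ => rfl) k0_pp_023

noncomputable def f_pp_033 : ℕ → ℕ → ℕ → ℕ → Bool := onCell 0 536870912 1610612736 536870912 991146299 28908434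
    (rowB 3 eng mog cd4q0 cd1q3 pd3 0 false true true .pnn 0 3 3 (qsf 0 536870912 1610612736 536870912 3) ndB4q0 ndB1q3 pcB3 Cut.none Ext.none)

def k0_pp_033 : ∃ t, chk3 f_pp_033 t 1 1 1 = true :=
  ⟨(a (l 4) (b (a (l 4) (l 1)) (l 4))), by decide +kernel⟩

theorem c_pp_033 : CertB 0 536870912 1610612736 536870912 991146299 28908434 3 eng mog cd4q0 cd1q3 pd3 false true true .pnn 0 3 3
    ndB4q0 ndB1q3 pcB3 Cut.none Ext.none :=
  certB0 (fam := false) (s1 := true) (s2 := true) (a := 0) (b := 3) (c := 3) (cn := .pnn) (n1 := ndB4q0) (n2 := ndB1q3) (pc := pcB3) (cut := Cut.none) (xt := Ext.none) (P1 := 0) (W1 := 536870912) (P2 := 1610612736) (W2 := 536870912) (P3 := 991146299) (W3 := 28908434) (N0 := 3) (En := eng) (mo := mog) (C1 := cd4q0) (C2 := cd1q3) (C3 := pd3)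
    rfl k0_pp_033

noncomputable def f_pp_101 : ℕ → ℕ → ℕ → ℕ → Bool := onCell 0 536870912 536870912 536870912 991146299 28908434
    (rowB 3 eng mog cd4q1 cd1q1 pd0 2 false true true .npn 1 0 1 (qsf 536870912 536870912 536870912 536870912 0) ndB4q1 ndB1q1 pcB0 Cut.none Ext.none)

def k0_pp_101 : ∃ t, chk3 f_pp_101 t 1 1 1 = true :=
  ⟨(l 3), by decide +kernel⟩

theorem c_pp_101 : CertB 536870912 536870912 536870912 536870912 991146299 28908434 3 eng mog cd4q1 cd1q1 pd0 false true true .npn 1 0 1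
    ndB4q1 ndB1q1 pcB0 Cut.none Ext.none :=
  certB2 (fam := false) (s1 := true) (s2 := true) (a := 1) (b := 0) (c := 1) (cn := .npn) (n1 := ndB4q1) (n2 := ndB1q1) (pc := pcB0) (cut := Cut.none) (xt := Ext.none) (P1 := 536870912) (W1 := 536870912) (P2 := 536870912) (W2 := 536870912) (P3 := 991146299) (W3 := 28908434) (N0 := 3) (En := eng) (mo := mog) (C1 := cd4q1) (C2 := cd1q1) (C3 := pd0)
    rfl (fun _ => rfl) k0_pp_101

noncomputable def cut_pp_102_a : Cut := Cut.of [[⟨0, 1, 0, 53687091⟩, ⟨1, 0, 0, 53687091⟩, ⟨2, 1, 0, 53687091⟩]]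

noncomputable def xt_pp_102_a : Ext := extD3 3 ⟨4, 1, 1, 5, 22, 5, 21, 25, 41, 100, 1, 20⟩ eng cd4q1 cd1q2a pd0 false true true .npp 1 0 2 rfl ndB4q1 ndB1q2a pcB0

noncomputable def f_pp_102_a : ℕ → ℕ → ℕ → ℕ → Bool := onCell 0 536870912 0 536870912 991146299 28908434
    (rowB 3 eng mog cd4q1 cd1q2a pd0 2 false true true .npp 1 0 2 (qsf 536870912 536870912 0 536870912 0) ndB4q1 ndB1q2a pcB0 cut_pp_102_a xt_pp_102_a)

def k0_pp_102_a : ∃ t, chk3 f_pp_102_a t 2 2 1 = true :=
  ⟨(a (b (l 2) (a (l 2) (a (l 2) (b (l 2) (b (l 2) (a (l 2) (l 15201528))))))) (b (a (a (c (l 14745768) (l 14756704)) (l 14806600)) (a (l 14852856) (l 14890536))) (a (b (a (l 14955032) (a (l 14978704) (l 14990024))) (a (b (a (l 15071696) (l 15103704)) (l 15236792)) (b (l 15131896) (l 15274832)))) (b (a (c (l 14993144) (l 15019448)) (c (l 15014472) (l 15038704))) (a (l 15240264) (l 15273232)))))), by decide +kernel⟩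

def k1_pp_102_a : ∃ t, chk3 f_pp_102_a t 4 3 1 = true :=
  ⟨(b (a (l 2) (b (a (l 2) (b (l 97808399687) (c (l 15530536) (l 15505240)))) (a (a (b (l 2) (a (l 2) (l 15835640))) (b (a (l 15659976) (l 15672144)) (b (l 15809320) (l 15908376)))) (b (a (l 15686904) (l 15704520)) (c (l 15912232) (l 15855104)))))) (a (a (b (l 2) (l 6)) (a (b (b (l 2) (b (l 2) (l 6))) (l 6)) (b (b (a (l 2) (b (l 2) (l 16067640))) (a (b (l 16167040) (l 16289176)) (b (l 16183856) (l 16302824)))) (b (b (c (l 139614920625455215) (l 139648386947809391)) (l 587330636683600988794479)) (b (l 591110778721040203361839) (b (l 596093706560232991731247) (a (l 16693728) (l 16708304)))))))) (a (b (a (b (a (a (l 16025120) (l 16033640)) (l 16045320)) (b (l 137925383114358895) (l 138038564319887471))) (b (c (l 16087272) (l 16037280)) (b (l 137835704233672815) (l 137853090450898991)))) (a (b (b (l 138765616578248815) (l 589760995546883674205743)) (b (l 592055021589650039007279) (b (l 16641736) (l 16635568))))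 (b (b (l 16400184) (l 16442952)) (b (l 16488416) (c (l 16660120) (l 16664520)))))) (a (b (b (l 15908736) (b (l 16183760) (l 16309520))) (b (l 580827293307498613598255) (b (l 16518256) (l 16606752)))) (b (b (b (l 16037424) (l 16138456)) (c (l 16293632) (l 16226776))) (b (c (l 16439736) (l 16404392)) (b (l 16526880) (l 16634704)))))))), by decide +kernel⟩

def k2_pp_102_a : ∃ t, chk3 f_pp_102_a t 5 3 1 = true :=
  ⟨(b (a (b (a (b (l 15390680) (l 15554072)) (b (l 15424936) (l 15584000))) (a (c (b (l 15759040) (l 15950624)) (l 15634960)) (b (l 15752040) (c (l 15984896) (l 15876304))))) (b (a (c (l 15569344) (l 15495704)) (l 15557872)) (b (a (l 15772584) (l 15790032)) (a (c (l 16006552) (l 15876288)) (l 15818432))))) (a (c (b (a (b (b (l 16100320) (l 16180752)) (l 16285680)) (b (l 16141152) (l 16272448))) (b (a (l 16404200) (l 16405464)) (a (l 16573016) (l 16545560)))) (b (a (b (l 15941808) (l 16215256)) (b (l 16034736) (l 16197784))) (b (a (l 16345936) (l 16365304))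 (a (b (l 16522680) (l 16615456)) (l 16540416))))) (b (a (c (l 16158784) (l 15978560)) (c (l 16190864) (l 16089792))) (b (a (l 16217328) (l 16258304)) (a (c (l 16517456) (l 16509816)) (l 16420568)))))), by decide +kernel⟩

def k3_pp_102_a : ∃ t, chk3 f_pp_102_a t 3 1 1 = true :=
  ⟨(b (a (b (a (a (l 14925984) (b (l 14949600) (l 14947672))) (b (l 14998032) (c (l 14963456) (l 15012784)))) (a (b (a (l 15056664) (l 15095624)) (c (l 15348856) (l 15291296))) (b (l 15154048) (l 15383160)))) (b (a (b (l 15050048) (c (l 15038448) (l 15078920))) (b (b (l 15140304) (l 15073536)) (l 15156480))) (a (b (l 15238008) (l 15450056)) (b (l 15331672) (l 15524120))))) (b (a (b (a (c (l 15651008) (l 15531552)) (c (l 15709664) (l 15560272))) (a (c (b (l 15894616) (l 16019928)) (a (l 15798952) (l 15796600))) (c (l 15784208) (l 15732528)))) (b (a (c (l 15765864) (l 15594736)) (l 15522088)) (a (c (l 15990936) (l 15801824)) (c (l 16012176) (l 15818168))))) (a (a (b (c (l 16051176) (b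 (l 15997968) (l 16137432))) (b (c (l 16335344) (l 16239552)) (a (l 16452584) (l 16421192)))) (b (c (l 16139520) (l 15938528)) (c (b (l 16295664) (l 16386632)) (b (l 16232536) (l 16359936))))) (a (b (c (l 16146904) (l 16022040)) (a (c (l 16306256) (l 16254224)) (l 16044968))) (b (c (l 16136760) (l 16006256)) (c (l 16247192) (l 16183976))))))), by decide +kernel⟩

theorem s4_pp_102_a : ∃ t, chk3 f_pp_102_a t 2 3 1 = true := ex3_a k1_pp_102_a k2_pp_102_a

theorem s5_pp_102_a : ∃ t, chk3 f_pp_102_a t 2 1 1 = true := ex3_b k0_pp_102_a s4_pp_102_a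

theorem s6_pp_102_a : ∃ t, chk3 f_pp_102_a t 1 1 1 = true := ex3_a s5_pp_102_a k3_pp_102_a

theorem c_pp_102_a : CertB 536870912 536870912 0 536870912 991146299 28908434 3 eng mog cd4q1 cd1q2a pd0 false true true .npp 1 0 2
    ndB4q1 ndB1q2a pcB0 cut_pp_102_a xt_pp_102_a :=
  certB2 (fam := false) (s1 := true) (s2 := true) (a := 1) (b := 0) (c := 2) (cn := .npp) (n1 := ndB4q1) (n2 := ndB1q2a) (pc := pcB0) (cut := cut_pp_102_a) (xt := xt_pp_102_a) (P1 := 536870912) (W1 := 536870912) (P2 := 0) (W2 := 536870912) (P3 := 991146299) (W3 := 28908434) (N0 := 3) (En := eng) (mo := mog) (C1 := cd4q1) (C2 := cd1q2a) (C3 := pd0)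
    rfl (fun _ => rfl) s6_pp_102_a

noncomputable def cut_pp_102_b : Cut := Cut.of [[⟨0, 1, 0, 53687091⟩, ⟨1, 0, 0, 53687091⟩, ⟨2, 1, 0, 53687091⟩]]

noncomputable def f_pp_102_b : ℕ → ℕ → ℕ → ℕ → Bool := onCell 0 536870912 1239849684 370763052 991146299 28908434
    (rowB 3 eng mog cd4q1 cd1q2b pd0 2 false true true .npp 1 0 2 (qsf 536870912 536870912 1239849684 370763052 0) ndB4q1 ndB1q2b pcB0 cut_pp_102_b Ext.none)

def k0_pp_102_b : ∃ t, chk3 f_pp_102_b t 1 1 1 = true :=
  ⟨(a (b (a (l 2) (a (b (b (a (l 14494696) (l 14573776)) (l 2)) (l 2)) (b (a (l 14495920) (l 14563432)) (a (l 2) (l 13943912))))) (l 2)) (a (b (a (b (a (l 14626008) (l 14684512)) (a (l 14014368) (l 14082888))) (b (a (l 14739736) (l 14792392)) (a (l 14150104) (l 14216752)))) (a (l 2) (b (a (l 13517360) (l 13595912)) (l 2)))) (b (a (b (l 14762952) (a (l 14283560) (l 14351192))) (b (l 14964696) (l 14455232))) (b (a (a (l 13678456) (l 13766696)) (a (l 13862080) (l 13965472))) (a (l 13181120)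 (l 13422736)))))), by decide +kernel⟩

theorem c_pp_102_b : CertB 536870912 536870912 1239849684 370763052 991146299 28908434 3 eng mog cd4q1 cd1q2b pd0 false true true .npp 1 0 2
    ndB4q1 ndB1q2b pcB0 cut_pp_102_b Ext.none :=
  certB2 (fam := false) (s1 := true) (s2 := true) (a := 1) (b := 0) (c := 2) (cn := .npp) (n1 := ndB4q1) (n2 := ndB1q2b) (pc := pcB0) (cut := cut_pp_102_b) (xt := Ext.none) (P1 := 536870912) (W1 := 536870912) (P2 := 1239849684) (W2 := 370763052) (P3 := 991146299) (W3 := 28908434) (N0 := 3) (En := eng) (mo := mog) (C1 := cd4q1) (C2 := cd1q2b) (C3 := pd0)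
    rfl (fun _ => rfl) k0_pp_102_b

noncomputable def f_pp_112_a : ℕ → ℕ → ℕ → ℕ → Bool := onCell 536870912 536870912 0 536870912 991146299 28908434
    (rowB 3 eng mog cd4q1 cd1q2a pd1 2 false true true .dn 1 1 2 (qsf 536870912 536870912 0 536870912 1) ndB4q1 ndB1q2a pcB1 Cut.none Ext.none)

def k0_pp_112_a : ∃ t, chk3 f_pp_112_a t 1 1 1 = true :=
  ⟨(a (a (b (b (b (a (l 15628440) (l 15633584)) (l 15408792)) (a (l 15367216) (l 15419784))) (b (b (a (l 15218296) (l 15318280)) (a (b (l 15280168) (l 15488840)) (b (l 15354048) (l 15526136)))) (a (b (a (l 15802816) (l 15800256)) (b (l 16101304) (l 16190272))) (b (l 15716784) (l 1))))) (b (a (b (b (l 15577472) (l 15515760)) (l 15445128)) (l 1)) (b (l 1) (l 1)))) (l 1)), by decide +kernel⟩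

theorem c_pp_112_a : CertB 536870912 536870912 0 536870912 991146299 28908434 3 eng mog cd4q1 cd1q2a pd1 false true true .dn 1 1 2
    ndB4q1 ndB1q2a pcB1 Cut.none Ext.none :=
  certB2 (fam := false) (s1 := true) (s2 := true) (a := 1) (b := 1) (c := 2) (cn := .dn) (n1 := ndB4q1) (n2 := ndB1q2a) (pc := pcB1) (cut := Cut.none) (xt := Ext.none) (P1 := 536870912) (W1 := 536870912) (P2 := 0) (W2 := 536870912) (P3 := 991146299) (W3 := 28908434) (N0 := 3) (En := eng) (mo := mog) (C1 := cd4q1) (C2 := cd1q2a) (C3 := pd1)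
    rfl (fun _ => rfl) k0_pp_112_a

noncomputable def f_pp_112_b : ℕ → ℕ → ℕ → ℕ → Bool := onCell 536870912 536870912 1239849684 370763052 991146299 28908434
    (rowB 3 eng mog cd4q1 cd1q2b pd1 2 false true true .dn 1 1 2 (qsf 536870912 536870912 1239849684 370763052 1) ndB4q1 ndB1q2b pcB1 Cut.none Ext.none)

def k0_pp_112_b : ∃ t, chk3 f_pp_112_b t 1 1 1 = true :=
  ⟨(a (a (b (b (a (l 15476576) (l 15514728)) (a (l 15068896) (l 15162264))) (b (a (l 14593312) (l 14736088)) (l 14152800))) (b (b (a (l 15486464) (l 15390424)) (l 15175864)) (b (l 14844120) (l 14460056)))) (a (b (b (l 1) (l 14991032)) (b (l 14762968) (l 14487408))) (b (l 1) (b (l 14420152) (l 14211752))))), by decide +kernel⟩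

theorem c_pp_112_b : CertB 536870912 536870912 1239849684 370763052 991146299 28908434 3 eng mog cd4q1 cd1q2b pd1 false true true .dn 1 1 2
    ndB4q1 ndB1q2b pcB1 Cut.none Ext.none :=
  certB2 (fam := false) (s1 := true) (s2 := true) (a := 1) (b := 1) (c := 2) (cn := .dn) (n1 := ndB4q1) (n2 := ndB1q2b) (pc := pcB1) (cut := Cut.none) (xt := Ext.none) (P1 := 536870912) (W1 := 536870912) (P2 := 1239849684) (W2 := 370763052) (P3 := 991146299) (W3 := 28908434) (N0 := 3) (En := eng) (mo := mog) (C1 := cd4q1) (C2 := cd1q2b) (C3 := pd1)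
    rfl (fun _ => rfl) k0_pp_112_b

noncomputable def f_pp_113 : ℕ → ℕ → ℕ → ℕ → Bool := onCell 536870912 536870912 536870912 536870912 991146299 28908434
    (rowB 3 eng mog cd4q1 cd1q3 pd1 1 false true true .nn 1 1 3 (qsf 536870912 536870912 1610612736 536870912 1) ndB4q1 ndB1q3 pcB1 Cut.none Ext.none)

def k0_pp_113 : ∃ t, chk3 f_pp_113 t 1 1 1 = true :=
  ⟨(b (a (b (l 1) (a (l 1) (l 439726456599))) (b (a (b (l 1) (l 14578080)) (b (l 14038176) (l 13869240))) (a (b (l 14373536) (l 14177224)) (b (l 13722672) (l 13606440))))) (b (a (a (l 538510443975) (l 427914235543)) (a (b (l 13986040) (l 13801120)) (b (l 13543352) (l 13594832)))) (a (b (a (l 14206344) (l 13865656)) (a (l 13808536) (l 13520520))) (a (b (l 13628632) (l 13482256)) (b (l 13934352) (l 15146136)))))), by decide +kernel⟩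

theorem c_pp_113 : CertB 536870912 536870912 1610612736 536870912 991146299 28908434 3 eng mog cd4q1 cd1q3 pd1 false true true .nn 1 1 3
    ndB4q1 ndB1q3 pcB1 Cut.none Ext.none :=
  certB1 (fam := false) (s1 := true) (s2 := true) (a := 1) (b := 1) (c := 3) (cn := .nn) (n1 := ndB4q1) (n2 := ndB1q3) (pc := pcB1) (cut := Cut.none) (xt := Ext.none) (P1 := 536870912) (W1 := 536870912) (P2 := 1610612736) (W2 := 536870912) (P3 := 991146299) (W3 := 28908434) (N0 := 3) (En := eng) (mo := mog) (C1 := cd4q1) (C2 := cd1q3) (C3 := pd1)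
    rfl (fun _ => rfl) k0_pp_113

noncomputable def f_pp_123 : ℕ → ℕ → ℕ → ℕ → Bool := onCell 1073741824 536870912 1610612736 536870912 991146299 28908434
    (rowB 3 eng mog cd4q1 cd1q3 pd2 2 false true true .npn 1 2 3 (qsf 536870912 536870912 1610612736 536870912 2) ndB4q1 ndB1q3 pcB2 Cut.none Ext.none)

def k0_pp_123 : ∃ t, chk3 f_pp_123 t 1 1 1 = true :=
  ⟨(a (a (a (a (b (b (l 13760920) (l 13551992)) (b (l 13687408) (l 16222600))) (b (l 4) (l 4))) (l 4)) (l 4)) (l 4)), by decide +kernel⟩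

theorem c_pp_123 : CertB 536870912 536870912 1610612736 536870912 991146299 28908434 3 eng mog cd4q1 cd1q3 pd2 false true true .npn 1 2 3
    ndB4q1 ndB1q3 pcB2 Cut.none Ext.none :=
  certB2 (fam := false) (s1 := true) (s2 := true) (a := 1) (b := 2) (c := 3) (cn := .npn) (n1 := ndB4q1) (n2 := ndB1q3) (pc := pcB2) (cut := Cut.none) (xt := Ext.none) (P1 := 536870912) (W1 := 536870912) (P2 := 1610612736) (W2 := 536870912) (P3 := 991146299) (W3 := 28908434) (N0 := 3) (En := eng) (mo := mog) (C1 := cd4q1) (C2 := cd1q3) (C3 := pd2)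
    rfl (fun _ => rfl) k0_pp_123

noncomputable def f_pp_133 : ℕ → ℕ → ℕ → ℕ → Bool := onCell 1610612736 536870912 1610612736 536870912 991146299 28908434
    (rowB 3 eng mog cd4q1 cd1q3 pd3 2 false true true .dn 1 3 3 (qsf 536870912 536870912 1610612736 536870912 3) ndB4q1 ndB1q3 pcB3 Cut.none Ext.none)

def k0_pp_133 : ∃ t, chk3 f_pp_133 t 1 1 1 = true :=
  ⟨(a (b (l 1) (l 4)) (l 1)), by decide +kernel⟩

theorem c_pp_133 : CertB 536870912 536870912 1610612736 536870912 991146299 28908434 3 eng mog cd4q1 cd1q3 pd3 false true true .dn 1 3 3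
    ndB4q1 ndB1q3 pcB3 Cut.none Ext.none :=
  certB2 (fam := false) (s1 := true) (s2 := true) (a := 1) (b := 3) (c := 3) (cn := .dn) (n1 := ndB4q1) (n2 := ndB1q3) (pc := pcB3) (cut := Cut.none) (xt := Ext.none) (P1 := 536870912) (W1 := 536870912) (P2 := 1610612736) (W2 := 536870912) (P3 := 991146299) (W3 := 28908434) (N0 := 3) (En := eng) (mo := mog) (C1 := cd4q1) (C2 := cd1q3) (C3 := pd3)
    rfl (fun _ => rfl) k0_pp_133

noncomputable def f_pp_202_a : ℕ → ℕ → ℕ → ℕ → Bool := onCell 1073741824 536870912 0 536870912 991146299 28908434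
    (rowB 3 eng mog cd4q2 cd1q2a pd0 0 false true true .pp 2 0 2 (qsf 1073741824 536870912 0 536870912 0) ndB4q2 ndB1q2a pcB0 Cut.none Ext.none)

def k0_pp_202_a : ∃ t, chk3 f_pp_202_a t 1 1 1 = true :=
  ⟨(a (b (a (b (b (c (a (a (b (l 16140944) (c (l 16183376) (l 16075208))) (b (l 16144104) (a (l 16135392) (l 16140120)))) (a (b (a (l 16149264) (l 16149336)) (a (l 16147360) (l 16155968))) (a (b (l 16155136) (l 16159904)) (a (l 16166768) (l 134920971495))))) (a (b (a (l 15919344) (l 15893568)) (a (a (l 15871840) (l 15915176)) (a (l 15939904) (l 15966800)))) (a (b (a (l 16010672) (l 16031200)) (a (l 15997040) (l 16029400))) (a (b (l 16057840) (l 16057832)) (a (l 131162662311) (b (l 16095752) (l 16104072))))))) (b (a (a (c (a (l 16104272) (l 16109328)) (a (l 15863712) (l 15890808))) (a (c (l 16116280) (l 15920448)) (c (l 16134104) (l 15960312)))) (a (a (c (l 16145712) (l 15995504)) (c (l 16156976) (l 16031000))) (l 3))) (a (a (a (c (l 16077136) (l 15836992))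 (c (l 16090064) (l 15871976))) (a (a (l 149416322199) (l 3)) (l 3))) (l 3)))) (l 3)) (b (a (b (a (a (b (a (c (l 16172016) (l 16113032)) (c (l 16158392) (l 16132384))) (l 362017339127)) (b (a (b (l 16174312) (l 16170408)) (b (l 16194656) (l 16165272))) (l 3))) (l 1)) (l 3)) (l 1)) (l 3))) (l 3)) (l 1)), by decide +kernel⟩

theorem c_pp_202_a : CertB 1073741824 536870912 0 536870912 991146299 28908434 3 eng mog cd4q2 cd1q2a pd0 false true true .pp 2 0 2
    ndB4q2 ndB1q2a pcB0 Cut.none Ext.none :=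
  certB0 (fam := false) (s1 := true) (s2 := true) (a := 2) (b := 0) (c := 2) (cn := .pp) (n1 := ndB4q2) (n2 := ndB1q2a) (pc := pcB0) (cut := Cut.none) (xt := Ext.none) (P1 := 1073741824) (W1 := 536870912) (P2 := 0) (W2 := 536870912) (P3 := 991146299) (W3 := 28908434) (N0 := 3) (En := eng) (mo := mog) (C1 := cd4q2) (C2 := cd1q2a) (C3 := pd0)
    rfl k0_pp_202_a

noncomputable def f_pp_202_b : ℕ → ℕ → ℕ → ℕ → Bool := onCell 1073741824 536870912 0 536870912 991146299 28908434
    (rowB 3 eng mog cd4q2 cd1q2b pd0 1 false true true .pp 2 0 2 (qsf 1073741824 536870912 1239849684 370763052 0) ndB4q2 ndB1q2b pcB0 Cut.none Ext.none)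

def k0_pp_202_b : ∃ t, chk3 f_pp_202_b t 4 2 1 = true :=
  ⟨(b (a (b (l 1) (b (b (l 1) (a (l 1) (c (l 412348482567) (l 419864340439)))) (a (a (l 1) (c (l 427380860407) (l 432749181367))) (c (l 314638152375) (b (l 393557804903) (l 16010008)))))) (b (b (a (l 1) (a (l 1) (b (l 1) (b (l 1) (l 343629265063))))) (b (a (l 1) (b (a (l 1) (l 267393583543)) (a (c (l 16126504) (l 16029120)) (l 16145864)))) (a (a (l 1) (b (l 1) (l 16060152))) (c (l 16189336) (l 16093152))))) (b (a (c (l 293700196167) (b (l 15818320) (l 16068968))) (c (l 16114272) (l 15984304))) (a (c (l 16131496) (l 16008104)) (c (l 16345416) (l 16201608)))))) (b (a (c (a (b (l 313027538311) (l 16116384)) (b (l 16132296) (l 16354720))) (a (b (a (l 330206950823) (l 15944744)) (l 15893240)) (b (l 15978032) (l 16135872)))) (c (a (b (l 16348184) (l 16427688)) (l 16266264)) (a (b (l 16196088) (l 16352864)) (l 16119096)))) (a (c (a (b (l 16323704) (l 16456848)) (l 16332536)) (a (b (l 16167896) (l 16349312))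 (l 16208096))) (c (a (l 16230728) (l 15980488)) (a (l 16350752) (l 16120328)))))), by decide +kernel⟩

def k1_pp_202_b : ∃ t, chk3 f_pp_202_b t 5 2 1 = true :=
  ⟨(a (b (b (b (a (b (a (l 361882954455) (c (l 16206200) (l 16181496))) (c (a (l 16144944) (l 16233080)) (a (l 16048080) (l 16208504)))) (c (b (b (l 16176824) (l 16232200)) (l 16299776)) (b (a (l 16231040) (l 16321952)) (l 16236144)))) (c (a (b (l 16179112) (l 16285792)) (l 16209776)) (a (b (l 16064768) (l 16260336)) (a (l 16344800) (l 16271624))))) (a (b (c (l 16348288) (l 16264320)) (l 16087992)) (b (l 16207312) (l 16035440)))) (b (a (b (l 16167328) (l 16046600)) (l 15755808)) (a (l 15883368) (l 15703544)))) (a (b (b (a (b (l 16130144) (l 16180688)) (l 3)) (b (l 15805104) (l 15875928))) (b (b (l 15768752) (l 15671312)) (l 15541704))) (b (l 3) (b (l 731382895063) (l 15397248))))), by decide +kernel⟩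

def k2_pp_202_b : ∃ t, chk3 f_pp_202_b t 2 3 1 = true :=
  ⟨(b (a (a (c (b (a (l 16388328) (l 16187624)) (l 16066872)) (b (a (l 16446384) (l 16383920)) (l 16031440))) (b (c (a (l 16004264) (l 15839688)) (a (l 16135864) (l 15908104))) (c (l 15746456) (l 15645568)))) (b (a (a (l 15697648) (l 15539808)) (a (l 15398752) (l 15273984))) (a (a (l 15547416) (l 15411328)) (l 15236176)))) (a (a (c (b (l 15890992) (l 15758728)) (b (l 15880040) (l 15938312))) (b (c (l 15612448) (l 15684704)) (l 15402992))) (b (a (l 15147704) (l 2)) (l 2)))), by decide +kernel⟩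

def k3_pp_202_b : ∃ t, chk3 f_pp_202_b t 3 1 1 = true :=
  ⟨(b (b (l 3) (a (b (l 3) (a (c (l 15314072) (l 15101944)) (l 3))) (l 3))) (b (a (b (a (c (l 15222440) (l 15006224)) (l 2)) (l 2)) (l 2)) (l 2))), by decide +kernel⟩

theorem s4_pp_202_b : ∃ t, chk3 f_pp_202_b t 2 2 1 = true := ex3_a k0_pp_202_b k1_pp_202_b

theorem s5_pp_202_b : ∃ t, chk3 f_pp_202_b t 2 1 1 = true := ex3_b s4_pp_202_b k2_pp_202_b

theorem s6_pp_202_b : ∃ t, chk3 f_pp_202_b t 1 1 1 = true := ex3_a s5_pp_202_b k3_pp_202_b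

theorem c_pp_202_b : CertB 1073741824 536870912 1239849684 370763052 991146299 28908434 3 eng mog cd4q2 cd1q2b pd0 false true true .pp 2 0 2
    ndB4q2 ndB1q2b pcB0 Cut.none Ext.none :=
  certB1 (fam := false) (s1 := true) (s2 := true) (a := 2) (b := 0) (c := 2) (cn := .pp) (n1 := ndB4q2) (n2 := ndB1q2b) (pc := pcB0) (cut := Cut.none) (xt := Ext.none) (P1 := 1073741824) (W1 := 536870912) (P2 := 1239849684) (W2 := 370763052) (P3 := 991146299) (W3 := 28908434) (N0 := 3) (En := eng) (mo := mog) (C1 := cd4q2) (C2 := cd1q2b) (C3 := pd0)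
    rfl (fun _ => rfl) s6_pp_202_b

noncomputable def f_pp_203 : ℕ → ℕ → ℕ → ℕ → Bool := onCell 1073741824 536870912 0 536870912 991146299 28908434
    (rowB 3 eng mog cd4q2 cd1q3 pd0 1 false true true .up 2 0 3 (qsf 1073741824 536870912 1610612736 536870912 0) ndB4q2 ndB1q3 pcB0 Cut.none Ext.none)

def k0_pp_203 : ∃ t, chk3 f_pp_203 t 1 1 1 = true :=
  ⟨(a (b (a (l 1) (b (l 1) (b (l 1) (a (l 1) (c (l 15499848) (l 15313640)))))) (b (a (a (l 1) (b (l 1) (c (l 15775648) (l 15680864)))) (b (a (l 409126517847) (c (l 15532944) (l 15351200))) (a (a (l 15656064) (l 15518216)) (c (l 15421624) (l 15247584))))) (a (c (a (b (l 15875648) (l 15883544)) (b (l 15741016) (l 15634328))) (a (b (l 16165920) (l 16019176)) (b (l 15767232) (l 15658176)))) (a (b (c (l 15514360) (l 15438408)) (l 15256144)) (b (l 15090360) (l 15133944)))))) (b (b (l 3) (a (a (b (l 3) (a (l 291551160183) (l 3))) (l 3)) (l 3))) (b (a (b (a (c (l 15340376) (l 15088896)) (c (l 15190304) (l 14893976)))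 (a (c (l 15256136) (l 15015512)) (c (l 15128160) (l 14845672)))) (b (l 3) (a (l 393689890615) (l 3)))) (a (b (a (l 15091232) (l 14865256)) (a (l 15086352) (l 15001480))) (b (a (c (l 15042272) (l 14748968)) (l 14888248)) (a (l 14960112) (b (l 14933040) (l 14999568)))))))), by decide +kernel⟩

theorem c_pp_203 : CertB 1073741824 536870912 1610612736 536870912 991146299 28908434 3 eng mog cd4q2 cd1q3 pd0 false true true .up 2 0 3
    ndB4q2 ndB1q3 pcB0 Cut.none Ext.none :=
  certB1 (fam := false) (s1 := true) (s2 := true) (a := 2) (b := 0) (c := 3) (cn := .up) (n1 := ndB4q2) (n2 := ndB1q3) (pc := pcB0) (cut := Cut.none) (xt := Ext.none) (P1 := 1073741824) (W1 := 536870912) (P2 := 1610612736) (W2 := 536870912) (P3 := 991146299) (W3 := 28908434) (N0 := 3) (En := eng) (mo := mog) (C1 := cd4q2) (C2 := cd1q3) (C3 := pd0)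
    rfl (fun _ => rfl) k0_pp_203

noncomputable def f_pp_213 : ℕ → ℕ → ℕ → ℕ → Bool := onCell 1073741824 536870912 536870912 536870912 991146299 28908434
    (rowB 3 eng mog cd4q2 cd1q3 pd1 1 false true true .pnn 2 1 3 (qsf 1073741824 536870912 1610612736 536870912 1) ndB4q2 ndB1q3 pcB1 Cut.none Ext.none)

def k0_pp_213 : ∃ t, chk3 f_pp_213 t 1 1 1 = true :=
  ⟨(a (b (b (a (b (a (c (l 15847768) (l 15962424)) (l 15699584)) (a (c (l 15721640) (l 15880472)) (l 15419696))) (b (a (l 15434456) (l 15158136)) (a (l 15387624) (l 15191104)))) (a (b (a (c (l 15593944) (l 15748488)) (l 15538600)) (a (l 15613696) (l 15589224))) (b (a (l 15436872) (l 15354608)) (a (l 15623824) (l 15701352))))) (a (b (a (b (l 15672576) (l 15699576)) (b (l 15782680) (l 16175032))) (b (a (c (l 16548784) (l 16287480)) (l 16376360)) (a (c (l 16508296) (l 16242432)) (b (l 16618384) (l 2))))) (b (b (a (l 15876840) (b (l 16030200) (l 16090648))) (a (l 15982880) (b (l 16065224) (l 2)))) (a (b (l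 16224208) (l 2)) (l 2))))) (b (a (b (b (a (b (l 14901376) (l 14891816)) (b (l 14750112) (l 14713968))) (a (l 14990344) (b (l 14734296) (l 14867760)))) (b (a (b (l 15191320) (l 15393472)) (b (l 15076528) (l 15267536))) (a (b (l 15579744) (l 15708352)) (b (l 15431544) (l 2))))) (b (b (a (b (l 14726176) (l 14684848)) (c (l 14988312) (l 14677632))) (a (b (l 14706016) (l 14802152)) (b (l 14844776) (l 2)))) (a (b (b (l 15000304) (l 2)) (l 2)) (l 2)))) (a (b (a (b (b (l 15804088) (l 2)) (l 2)) (l 2)) (l 2)) (l 2)))), by decide +kernel⟩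

theorem c_pp_213 : CertB 1073741824 536870912 1610612736 536870912 991146299 28908434 3 eng mog cd4q2 cd1q3 pd1 false true true .pnn 2 1 3
    ndB4q2 ndB1q3 pcB1 Cut.none Ext.none :=
  certB1 (fam := false) (s1 := true) (s2 := true) (a := 2) (b := 1) (c := 3) (cn := .pnn) (n1 := ndB4q2) (n2 := ndB1q3) (pc := pcB1) (cut := Cut.none) (xt := Ext.none) (P1 := 1073741824) (W1 := 536870912) (P2 := 1610612736) (W2 := 536870912) (P3 := 991146299) (W3 := 28908434) (N0 := 3) (En := eng) (mo := mog) (C1 := cd4q2) (C2 := cd1q3) (C3 := pd1)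
    rfl (fun _ => rfl) k0_pp_213

noncomputable def f_pp_303 : ℕ → ℕ → ℕ → ℕ → Bool := onCell 0 1230186008 1610612736 536870912 991146299 28908434
    (rowB 3 eng mog cd4q3 cd1q3 pd0 0 false true true .npn 3 0 3 (qsf 0 1230186008 1610612736 536870912 0) ndB4q3 ndB1q3 pcB0 Cut.none Ext.none)

def k0_pp_303 : ∃ t, chk3 f_pp_303 t 1 1 1 = true :=
  ⟨(a (l 3) (a (l 3) (b (l 3) (a (l 3) (b (l 3) (a (l 3) (b (l 3) (a (l 3) (l 15776600))))))))), by decide +kernel⟩

theorem c_pp_303 : CertB 0 1230186008 1610612736 536870912 991146299 28908434 3 eng mog cd4q3 cd1q3 pd0 false true true .npn 3 0 3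
    ndB4q3 ndB1q3 pcB0 Cut.none Ext.none :=
  certB0 (fam := false) (s1 := true) (s2 := true) (a := 3) (b := 0) (c := 3) (cn := .npn) (n1 := ndB4q3) (n2 := ndB1q3) (pc := pcB0) (cut := Cut.none) (xt := Ext.none) (P1 := 0) (W1 := 1230186008) (P2 := 1610612736) (W2 := 536870912) (P3 := 991146299) (W3 := 28908434) (N0 := 3) (En := eng) (mo := mog) (C1 := cd4q3) (C2 := cd1q3) (C3 := pd0)
    rfl k0_pp_303

noncomputable def f_pp_313 : ℕ → ℕ → ℕ → ℕ → Bool := onCell 0 1230186008 536870912 536870912 991146299 28908434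
    (rowB 3 eng mog cd4q3 cd1q3 pd1 1 false true true .dn 3 1 3 (qsf 0 1230186008 1610612736 536870912 1) ndB4q3 ndB1q3 pcB1 Cut.none Ext.none)

def k0_pp_313 : ∃ t, chk3 f_pp_313 t 1 1 1 = true :=
  ⟨(a (l 2) (a (l 2) (b (a (l 2) (b (a (l 2) (b (l 15542032) (l 2))) (l 2))) (l 2)))), by decide +kernel⟩

theorem c_pp_313 : CertB 0 1230186008 1610612736 536870912 991146299 28908434 3 eng mog cd4q3 cd1q3 pd1 false true true .dn 3 1 3
    ndB4q3 ndB1q3 pcB1 Cut.none Ext.none :=
  certB1 (fam := false) (s1 := true) (s2 := true) (a := 3) (b := 1) (c := 3) (cn := .dn) (n1 := ndB4q3) (n2 := ndB1q3) (pc := pcB1) (cut := Cut.none) (xt := Ext.none) (P1 := 0) (W1 := 1230186008) (P2 := 1610612736) (W2 := 536870912) (P3 := 991146299) (W3 := 28908434) (N0 := 3) (En := eng) (mo := mog) (C1 := cd4q3) (C2 := cd1q3) (C3 := pd1)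
    rfl (fun _ => rfl) k0_pp_313

noncomputable def f_pm_001 : ℕ → ℕ → ℕ → ℕ → Bool := onCell 0 536870912 536870912 536870912 991146299 28908434
    (rowB 3 eng mog cd4q0 cd1q1 pd0 0 false true false .up 0 0 1 (qsf 0 536870912 536870912 536870912 0) ndB4q0 ndB1q1 pcB0 Cut.none Ext.none)

def k0_pm_001 : ∃ t, chk3 f_pm_001 t 1 1 1 = true :=
  ⟨(l 4), by decide +kernel⟩

theorem c_pm_001 : CertB 0 536870912 536870912 536870912 991146299 28908434 3 eng mog cd4q0 cd1q1 pd0 false true false .up 0 0 1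
    ndB4q0 ndB1q1 pcB0 Cut.none Ext.none :=
  certB0 (fam := false) (s1 := true) (s2 := false) (a := 0) (b := 0) (c := 1) (cn := .up) (n1 := ndB4q0) (n2 := ndB1q1) (pc := pcB0) (cut := Cut.none) (xt := Ext.none) (P1 := 0) (W1 := 536870912) (P2 := 536870912) (W2 := 536870912) (P3 := 991146299) (W3 := 28908434) (N0 := 3) (En := eng) (mo := mog) (C1 := cd4q0) (C2 := cd1q1) (C3 := pd0)
    rfl k0_pm_001

noncomputable def f_pm_011 : ℕ → ℕ → ℕ → ℕ → Bool := onCell 0 536870912 536870912 536870912 991146299 28908434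
    (rowB 3 eng mog cd4q0 cd1q1 pd1 0 false true false .pnn 0 1 1 (qsf 0 536870912 536870912 536870912 1) ndB4q0 ndB1q1 pcB1 Cut.none Ext.none)

def k0_pm_011 : ∃ t, chk3 f_pm_011 t 1 1 1 = true :=
  ⟨(l 4), by decide +kernel⟩

theorem c_pm_011 : CertB 0 536870912 536870912 536870912 991146299 28908434 3 eng mog cd4q0 cd1q1 pd1 false true false .pnn 0 1 1
    ndB4q0 ndB1q1 pcB1 Cut.none Ext.none :=
  certB0 (fam := false) (s1 := true) (s2 := false) (a := 0) (b := 1) (c := 1) (cn := .pnn) (n1 := ndB4q0) (n2 := ndB1q1) (pc := pcB1) (cut := Cut.none) (xt := Ext.none) (P1 := 0) (W1 := 536870912) (P2 := 536870912) (W2 := 536870912) (P3 := 991146299) (W3 := 28908434) (N0 := 3) (En := eng) (mo := mog) (C1 := cd4q0) (C2 := cd1q1) (C3 := pd1)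
    rfl k0_pm_011

noncomputable def f_pm_012_a : ℕ → ℕ → ℕ → ℕ → Bool := onCell 0 536870912 0 536870912 991146299 28908434
    (rowB 3 eng mog cd4q0 cd1q2a pd1 0 false true false .pnp 0 1 2 (qsf 0 536870912 0 536870912 1) ndB4q0 ndB1q2a pcB1 Cut.none Ext.none)

def k0_pm_012_a : ∃ t, chk3 f_pm_012_a t 1 1 1 = true :=
  ⟨(l 4), by decide +kernel⟩

theorem c_pm_012_a : CertB 0 536870912 0 536870912 991146299 28908434 3 eng mog cd4q0 cd1q2a pd1 false true false .pnp 0 1 2
    ndB4q0 ndB1q2a pcB1 Cut.none Ext.none :=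
  certB0 (fam := false) (s1 := true) (s2 := false) (a := 0) (b := 1) (c := 2) (cn := .pnp) (n1 := ndB4q0) (n2 := ndB1q2a) (pc := pcB1) (cut := Cut.none) (xt := Ext.none) (P1 := 0) (W1 := 536870912) (P2 := 0) (W2 := 536870912) (P3 := 991146299) (W3 := 28908434) (N0 := 3) (En := eng) (mo := mog) (C1 := cd4q0) (C2 := cd1q2a) (C3 := pd1)
    rfl k0_pm_012_a

noncomputable def f_pm_012_b : ℕ → ℕ → ℕ → ℕ → Bool := onCell 0 536870912 1239849684 370763052 991146299 28908434
    (rowB 3 eng mog cd4q0 cd1q2b pd1 0 false true false .pnp 0 1 2 (qsf 0 536870912 1239849684 370763052 1) ndB4q0 ndB1q2b pcB1 Cut.none Ext.none)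

def k0_pm_012_b : ∃ t, chk3 f_pm_012_b t 1 1 1 = true :=
  ⟨(l 4), by decide +kernel⟩

theorem c_pm_012_b : CertB 0 536870912 1239849684 370763052 991146299 28908434 3 eng mog cd4q0 cd1q2b pd1 false true false .pnp 0 1 2
    ndB4q0 ndB1q2b pcB1 Cut.none Ext.none :=
  certB0 (fam := false) (s1 := true) (s2 := false) (a := 0) (b := 1) (c := 2) (cn := .pnp) (n1 := ndB4q0) (n2 := ndB1q2b) (pc := pcB1) (cut := Cut.none) (xt := Ext.none) (P1 := 0) (W1 := 536870912) (P2 := 1239849684) (W2 := 370763052) (P3 := 991146299) (W3 := 28908434) (N0 := 3) (En := eng) (mo := mog) (C1 := cd4q0) (C2 := cd1q2b) (C3 := pd1)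
    rfl k0_pm_012_b

noncomputable def f_pm_022_a : ℕ → ℕ → ℕ → ℕ → Bool := onCell 0 536870912 0 536870912 991146299 28908434
    (rowB 3 eng mog cd4q0 cd1q2a pd2 0 false true false .pp 0 2 2 (qsf 0 536870912 0 536870912 2) ndB4q0 ndB1q2a pcB2 Cut.none Ext.none)

def k0_pm_022_a : ∃ t, chk3 f_pm_022_a t 1 1 1 = true :=
  ⟨(l 4), by decide +kernel⟩

theorem c_pm_022_a : CertB 0 536870912 0 536870912 991146299 28908434 3 eng mog cd4q0 cd1q2a pd2 false true false .pp 0 2 2
    ndB4q0 ndB1q2a pcB2 Cut.none Ext.none :=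
  certB0 (fam := false) (s1 := true) (s2 := false) (a := 0) (b := 2) (c := 2) (cn := .pp) (n1 := ndB4q0) (n2 := ndB1q2a) (pc := pcB2) (cut := Cut.none) (xt := Ext.none) (P1 := 0) (W1 := 536870912) (P2 := 0) (W2 := 536870912) (P3 := 991146299) (W3 := 28908434) (N0 := 3) (En := eng) (mo := mog) (C1 := cd4q0) (C2 := cd1q2a) (C3 := pd2)
    rfl k0_pm_022_a

noncomputable def f_pm_022_b : ℕ → ℕ → ℕ → ℕ → Bool := onCell 0 536870912 1239849684 370763052 991146299 28908434
    (rowB 3 eng mog cd4q0 cd1q2b pd2 0 false true false .pp 0 2 2 (qsf 0 536870912 1239849684 370763052 2) ndB4q0 ndB1q2b pcB2 Cut.none Ext.none)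

def k0_pm_022_b : ∃ t, chk3 f_pm_022_b t 1 1 1 = true :=
  ⟨(l 4), by decide +kernel⟩

theorem c_pm_022_b : CertB 0 536870912 1239849684 370763052 991146299 28908434 3 eng mog cd4q0 cd1q2b pd2 false true false .pp 0 2 2
    ndB4q0 ndB1q2b pcB2 Cut.none Ext.none :=
  certB0 (fam := false) (s1 := true) (s2 := false) (a := 0) (b := 2) (c := 2) (cn := .pp) (n1 := ndB4q0) (n2 := ndB1q2b) (pc := pcB2) (cut := Cut.none) (xt := Ext.none) (P1 := 0) (W1 := 536870912) (P2 := 1239849684) (W2 := 370763052) (P3 := 991146299) (W3 := 28908434) (N0 := 3) (En := eng) (mo := mog) (C1 := cd4q0) (C2 := cd1q2b) (C3 := pd2)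
    rfl k0_pm_022_b

noncomputable def f_pm_023 : ℕ → ℕ → ℕ → ℕ → Bool := onCell 0 536870912 1610612736 536870912 991146299 28908434
    (rowB 3 eng mog cd4q0 cd1q3 pd2 0 false true false .up 0 2 3 (qsf 0 536870912 1610612736 536870912 2) ndB4q0 ndB1q3 pcB2 Cut.none Ext.none)

def k0_pm_023 : ∃ t, chk3 f_pm_023 t 1 1 1 = true :=
  ⟨(l 4), by decide +kernel⟩

theorem c_pm_023 : CertB 0 536870912 1610612736 536870912 991146299 28908434 3 eng mog cd4q0 cd1q3 pd2 false true false .up 0 2 3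
    ndB4q0 ndB1q3 pcB2 Cut.none Ext.none :=
  certB0 (fam := false) (s1 := true) (s2 := false) (a := 0) (b := 2) (c := 3) (cn := .up) (n1 := ndB4q0) (n2 := ndB1q3) (pc := pcB2) (cut := Cut.none) (xt := Ext.none) (P1 := 0) (W1 := 536870912) (P2 := 1610612736) (W2 := 536870912) (P3 := 991146299) (W3 := 28908434) (N0 := 3) (En := eng) (mo := mog) (C1 := cd4q0) (C2 := cd1q3) (C3 := pd2)
    rfl k0_pm_023

noncomputable def f_pm_033 : ℕ → ℕ → ℕ → ℕ → Bool := onCell 0 536870912 1610612736 536870912 991146299 28908434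
    (rowB 3 eng mog cd4q0 cd1q3 pd3 0 false true false .pnn 0 3 3 (qsf 0 536870912 1610612736 536870912 3) ndB4q0 ndB1q3 pcB3 Cut.none Ext.none)

def k0_pm_033 : ∃ t, chk3 f_pm_033 t 1 1 1 = true :=
  ⟨(l 4), by decide +kernel⟩

theorem c_pm_033 : CertB 0 536870912 1610612736 536870912 991146299 28908434 3 eng mog cd4q0 cd1q3 pd3 false true false .pnn 0 3 3
    ndB4q0 ndB1q3 pcB3 Cut.none Ext.none :=
  certB0 (fam := false) (s1 := true) (s2 := false) (a := 0) (b := 3) (c := 3) (cn := .pnn) (n1 := ndB4q0) (n2 := ndB1q3) (pc := pcB3) (cut := Cut.none) (xt := Ext.none) (P1 := 0) (W1 := 536870912) (P2 := 1610612736) (W2 := 536870912) (P3 := 991146299) (W3 := 28908434) (N0 := 3) (En := eng) (mo := mog) (C1 := cd4q0) (C2 := cd1q3) (C3 := pd3)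
    rfl k0_pm_033

noncomputable def f_pm_101 : ℕ → ℕ → ℕ → ℕ → Bool := onCell 536870912 536870912 536870912 536870912 991146299 28908434
    (rowB 3 eng mog cd4q1 cd1q1 pd0 0 false true false .npn 1 0 1 (qsf 536870912 536870912 536870912 536870912 0) ndB4q1 ndB1q1 pcB0 Cut.none Ext.none)

def k0_pm_101 : ∃ t, chk3 f_pm_101 t 1 1 1 = true :=
  ⟨(l 4), by decide +kernel⟩

theorem c_pm_101 : CertB 536870912 536870912 536870912 536870912 991146299 28908434 3 eng mog cd4q1 cd1q1 pd0 false true false .npn 1 0 1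
    ndB4q1 ndB1q1 pcB0 Cut.none Ext.none :=
  certB0 (fam := false) (s1 := true) (s2 := false) (a := 1) (b := 0) (c := 1) (cn := .npn) (n1 := ndB4q1) (n2 := ndB1q1) (pc := pcB0) (cut := Cut.none) (xt := Ext.none) (P1 := 536870912) (W1 := 536870912) (P2 := 536870912) (W2 := 536870912) (P3 := 991146299) (W3 := 28908434) (N0 := 3) (En := eng) (mo := mog) (C1 := cd4q1) (C2 := cd1q1) (C3 := pd0)
    rfl k0_pm_101

noncomputable def f_pm_102_a : ℕ → ℕ → ℕ → ℕ → Bool := onCell 536870912 536870912 0 536870912 991146299 28908434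
    (rowB 3 eng mog cd4q1 cd1q2a pd0 0 false true false .npp 1 0 2 (qsf 536870912 536870912 0 536870912 0) ndB4q1 ndB1q2a pcB0 Cut.none Ext.none)

def k0_pm_102_a : ∃ t, chk3 f_pm_102_a t 1 1 1 = true :=
  ⟨(b (b (b (a (a (l 2) (a (l 4) (a (l 4) (l 14919552)))) (a (a (a (l 14849112) (l 14899344)) (a (l 14796824) (l 14688376))) (a (l 14510296) (l 14194000)))) (a (l 4) (a (a (l 4) (a (l 4) (l 14577632))) (a (a (l 14434408) (l 14287784)) (c (l 14068008) (l 14040840)))))) (a (l 4) (a (l 4) (a (l 4) (b (c (l 13990896) (l 13843200)) (l 4)))))) (l 4)), by decide +kernel⟩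

theorem c_pm_102_a : CertB 536870912 536870912 0 536870912 991146299 28908434 3 eng mog cd4q1 cd1q2a pd0 false true false .npp 1 0 2
    ndB4q1 ndB1q2a pcB0 Cut.none Ext.none :=
  certB0 (fam := false) (s1 := true) (s2 := false) (a := 1) (b := 0) (c := 2) (cn := .npp) (n1 := ndB4q1) (n2 := ndB1q2a) (pc := pcB0) (cut := Cut.none) (xt := Ext.none) (P1 := 536870912) (W1 := 536870912) (P2 := 0) (W2 := 536870912) (P3 := 991146299) (W3 := 28908434) (N0 := 3) (En := eng) (mo := mog) (C1 := cd4q1) (C2 := cd1q2a) (C3 := pd0)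
    rfl k0_pm_102_a

noncomputable def f_pm_102_b : ℕ → ℕ → ℕ → ℕ → Bool := onCell 536870912 536870912 0 536870912 991146299 28908434
    (rowB 3 eng mog cd4q1 cd1q2b pd0 1 false true false .npp 1 0 2 (qsf 536870912 536870912 1239849684 370763052 0) ndB4q1 ndB1q2b pcB0 Cut.none Ext.none)

def k0_pm_102_b : ∃ t, chk3 f_pm_102_b t 1 1 1 = true :=
  ⟨(a (a (l 1) (b (l 1) (b (l 1) (b (a (l 1) (l 479455622183)) (b (a (l 4) (l 15106576)) (l 4)))))) (b (b (l 1) (a (l 1) (b (a (l 1) (l 453147699767)) (a (l 14616072) (l 14317440))))) (b (a (b (a (l 1) (l 14865376)) (a (l 15062120) (l 14805376))) (b (a (l 14584856) (l 14295416)) (a (l 14539704) (l 14265872)))) (a (b (a (l 14956520) (l 14721768)) (a (l 14588320) (l 14606808))) (b (a (l 14480064) (l 14231320)) (a (l 14402888) (l 14193160))))))), by decide +kernel⟩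

theorem c_pm_102_b : CertB 536870912 536870912 1239849684 370763052 991146299 28908434 3 eng mog cd4q1 cd1q2b pd0 false true false .npp 1 0 2
    ndB4q1 ndB1q2b pcB0 Cut.none Ext.none :=
  certB1 (fam := false) (s1 := true) (s2 := false) (a := 1) (b := 0) (c := 2) (cn := .npp) (n1 := ndB4q1) (n2 := ndB1q2b) (pc := pcB0) (cut := Cut.none) (xt := Ext.none) (P1 := 536870912) (W1 := 536870912) (P2 := 1239849684) (W2 := 370763052) (P3 := 991146299) (W3 := 28908434) (N0 := 3) (En := eng) (mo := mog) (C1 := cd4q1) (C2 := cd1q2b) (C3 := pd0)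
    rfl (fun _ => rfl) k0_pm_102_b

noncomputable def f_pm_112_a : ℕ → ℕ → ℕ → ℕ → Bool := onCell 536870912 536870912 0 536870912 991146299 28908434
    (rowB 3 eng mog cd4q1 cd1q2a pd1 2 false true false .dn 1 1 2 (qsf 536870912 536870912 0 536870912 1) ndB4q1 ndB1q2a pcB1 Cut.none Ext.none)

def k0_pm_112_a : ∃ t, chk3 f_pm_112_a t 1 1 1 = true :=
  ⟨(a (b (l 4) (l 4)) (l 1)), by decide +kernel⟩

theorem c_pm_112_a : CertB 536870912 536870912 0 536870912 991146299 28908434 3 eng mog cd4q1 cd1q2a pd1 false true false .dn 1 1 2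
    ndB4q1 ndB1q2a pcB1 Cut.none Ext.none :=
  certB2 (fam := false) (s1 := true) (s2 := false) (a := 1) (b := 1) (c := 2) (cn := .dn) (n1 := ndB4q1) (n2 := ndB1q2a) (pc := pcB1) (cut := Cut.none) (xt := Ext.none) (P1 := 536870912) (W1 := 536870912) (P2 := 0) (W2 := 536870912) (P3 := 991146299) (W3 := 28908434) (N0 := 3) (En := eng) (mo := mog) (C1 := cd4q1) (C2 := cd1q2a) (C3 := pd1)
    rfl (fun _ => rfl) k0_pm_112_a

noncomputable def f_pm_112_b : ℕ → ℕ → ℕ → ℕ → Bool := onCell 536870912 536870912 1239849684 370763052 991146299 28908434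
    (rowB 3 eng mog cd4q1 cd1q2b pd1 2 false true false .dn 1 1 2 (qsf 536870912 536870912 1239849684 370763052 1) ndB4q1 ndB1q2b pcB1 Cut.none Ext.none)

def k0_pm_112_b : ∃ t, chk3 f_pm_112_b t 1 1 1 = true :=
  ⟨(a (a (b (a (b (l 4) (l 14795856)) (l 4)) (a (b (l 14419216) (l 14058720)) (b (l 14467960) (l 14144576)))) (b (l 4) (a (b (l 4) (l 14354256)) (l 4)))) (l 4)), by decide +kernel⟩

theorem c_pm_112_b : CertB 536870912 536870912 1239849684 370763052 991146299 28908434 3 eng mog cd4q1 cd1q2b pd1 false true false .dn 1 1 2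
    ndB4q1 ndB1q2b pcB1 Cut.none Ext.none :=
  certB2 (fam := false) (s1 := true) (s2 := false) (a := 1) (b := 1) (c := 2) (cn := .dn) (n1 := ndB4q1) (n2 := ndB1q2b) (pc := pcB1) (cut := Cut.none) (xt := Ext.none) (P1 := 536870912) (W1 := 536870912) (P2 := 1239849684) (W2 := 370763052) (P3 := 991146299) (W3 := 28908434) (N0 := 3) (En := eng) (mo := mog) (C1 := cd4q1) (C2 := cd1q2b) (C3 := pd1)
    rfl (fun _ => rfl) k0_pm_112_b

noncomputable def f_pm_113 : ℕ → ℕ → ℕ → ℕ → Bool := onCell 536870912 536870912 536870912 536870912 991146299 28908434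
    (rowB 3 eng mog cd4q1 cd1q3 pd1 1 false true false .nn 1 1 3 (qsf 536870912 536870912 1610612736 536870912 1) ndB4q1 ndB1q3 pcB1 Cut.none Ext.none)

def k0_pm_113 : ∃ t, chk3 f_pm_113 t 1 1 1 = true :=
  ⟨(a (b (b (l 1) (l 4)) (l 4)) (a (b (b (b (l 1) (l 547099623559)) (b (a (l 4) (l 14014336)) (l 4))) (l 4)) (b (b (b (l 13932384) (l 13786520)) (b (a (l 13746168) (l 13514744)) (a (l 13657248) (l 13407136)))) (b (b (l 13469176) (l 13519816)) (b (l 13868920) (l 15128880)))))), by decide +kernel⟩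

theorem c_pm_113 : CertB 536870912 536870912 1610612736 536870912 991146299 28908434 3 eng mog cd4q1 cd1q3 pd1 false true false .nn 1 1 3
    ndB4q1 ndB1q3 pcB1 Cut.none Ext.none :=
  certB1 (fam := false) (s1 := true) (s2 := false) (a := 1) (b := 1) (c := 3) (cn := .nn) (n1 := ndB4q1) (n2 := ndB1q3) (pc := pcB1) (cut := Cut.none) (xt := Ext.none) (P1 := 536870912) (W1 := 536870912) (P2 := 1610612736) (W2 := 536870912) (P3 := 991146299) (W3 := 28908434) (N0 := 3) (En := eng) (mo := mog) (C1 := cd4q1) (C2 := cd1q3) (C3 := pd1)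
    rfl (fun _ => rfl) k0_pm_113

noncomputable def f_pm_123 : ℕ → ℕ → ℕ → ℕ → Bool := onCell 1073741824 536870912 1610612736 536870912 991146299 28908434
    (rowB 3 eng mog cd4q1 cd1q3 pd2 2 false true false .npn 1 2 3 (qsf 536870912 536870912 1610612736 536870912 2) ndB4q1 ndB1q3 pcB2 Cut.none Ext.none)

def k0_pm_123 : ∃ t, chk3 f_pm_123 t 1 1 1 = true :=
  ⟨(a (a (b (l 4) (a (b (l 4) (b (l 4) (l 16753864))) (l 4))) (l 4)) (l 4)), by decide +kernel⟩

theorem c_pm_123 : CertB 536870912 536870912 1610612736 536870912 991146299 28908434 3 eng mog cd4q1 cd1q3 pd2 false true false .npn 1 2 3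
    ndB4q1 ndB1q3 pcB2 Cut.none Ext.none :=
  certB2 (fam := false) (s1 := true) (s2 := false) (a := 1) (b := 2) (c := 3) (cn := .npn) (n1 := ndB4q1) (n2 := ndB1q3) (pc := pcB2) (cut := Cut.none) (xt := Ext.none) (P1 := 536870912) (W1 := 536870912) (P2 := 1610612736) (W2 := 536870912) (P3 := 991146299) (W3 := 28908434) (N0 := 3) (En := eng) (mo := mog) (C1 := cd4q1) (C2 := cd1q3) (C3 := pd2)
    rfl (fun _ => rfl) k0_pm_123

noncomputable def f_pm_133 : ℕ → ℕ → ℕ → ℕ → Bool := onCell 536870912 536870912 1610612736 536870912 991146299 28908434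
    (rowB 3 eng mog cd4q1 cd1q3 pd3 0 false true false .dn 1 3 3 (qsf 536870912 536870912 1610612736 536870912 3) ndB4q1 ndB1q3 pcB3 Cut.none Ext.none)

def k0_pm_133 : ∃ t, chk3 f_pm_133 t 1 1 1 = true :=
  ⟨(a (l 4) (l 1)), by decide +kernel⟩

theorem c_pm_133 : CertB 536870912 536870912 1610612736 536870912 991146299 28908434 3 eng mog cd4q1 cd1q3 pd3 false true false .dn 1 3 3
    ndB4q1 ndB1q3 pcB3 Cut.none Ext.none :=
  certB0 (fam := false) (s1 := true) (s2 := false) (a := 1) (b := 3) (c := 3) (cn := .dn) (n1 := ndB4q1) (n2 := ndB1q3) (pc := pcB3) (cut := Cut.none) (xt := Ext.none) (P1 := 536870912) (W1 := 536870912) (P2 := 1610612736) (W2 := 536870912) (P3 := 991146299) (W3 := 28908434) (N0 := 3) (En := eng) (mo := mog) (C1 := cd4q1) (C2 := cd1q3) (C3 := pd3)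
    rfl k0_pm_133

noncomputable def f_pm_202_a : ℕ → ℕ → ℕ → ℕ → Bool := onCell 0 536870912 0 536870912 991146299 28908434
    (rowB 3 eng mog cd4q2 cd1q2a pd0 2 false true false .pp 2 0 2 (qsf 1073741824 536870912 0 536870912 0) ndB4q2 ndB1q2a pcB0 Cut.none Ext.none)

def k0_pm_202_a : ∃ t, chk3 f_pm_202_a t 2 2 1 = true :=
  ⟨(a (b (a (a (c (l 15911840) (b (l 16154872) (l 16065056))) (a (a (l 16060672) (c (l 16082896) (l 16190200))) (c (l 15989920) (b (l 16293024) (l 16221784))))) (a (a (c (l 16064368) (b (l 16393936) (l 16301600))) (c (l 16073552) (l 16227592))) (c (b (l 16268176) (l 16241176)) (c (l 16464296) (l 16539896))))) (b (a (a (c (l 15945952) (l 15992224)) (a (a (l 16017248) (l 16037792)) (c (l 16012160) (l 16172104)))) (a (a (a (l 16065008) (l 16041520)) (a (l 16018112) (l 16074264))) (c (l 16187832) (l 16330320)))) (a (a (c (l 15864496) (a (l 15894592) (l 15969200))) (a (a (l 15963256) (l 15781208)) (c (l 15956080) (l 16140264)))) (a (c (a (l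 16011136) (l 16066960)) (a (l 16245328) (l 16268112))) (c (l 16020712) (c (l 16375048) (l 16541752))))))) (a (a (c (b (c (l 16253336) (l 16449816)) (b (l 16156224) (l 312490884567))) (b (c (l 16652832) (l 16526848)) (c (l 16360664) (l 322692142743)))) (b (b (l 1) (l 1)) (l 1))) (l 1))), by decide +kernel⟩

def k1_pm_202_a : ∃ t, chk3 f_pm_202_a t 2 3 1 = true :=
  ⟨(a (b (b (a (a (c (b (l 15802240) (a (l 15711232) (l 15780928))) (b (l 15890632) (a (l 15815384) (l 15910736)))) (a (c (b (l 15865192) (l 15831848)) (b (l 16024136) (l 16010296))) (c (l 15687952) (b (l 16125096) (l 16115808))))) (a (c (a (l 15766136) (b (l 16031664) (l 16005712))) (a (b (l 16233328) (l 16226504)) (b (l 16344872) (l 16236808)))) (c (a (l 15823536) (l 150355608487)) (c (l 55866764151) (b (l 16577392) (l 16421976)))))) (b (a (a (c (l 15699608) (l 15830344)) (c (l 15808024) (l 15952624))) (c (a (l 15926328) (l 15803400)) (a (l 16008000) (c (l 16364776) (l 16489440))))) (a (a (c (l 15631536)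 (l 15791448)) (c (l 15743520) (l 15896024))) (a (c (l 15760920) (l 109016619575)) (l 1))))) (b (b (a (a (c (l 15558896) (l 15751792)) (c (l 15675400) (a (l 15910648) (l 16021520)))) (a (a (c (l 15770376) (l 16136728)) (l 1)) (l 1))) (a (a (c (l 15481008) (a (l 15659168) (l 15764544))) (c (a (l 15572008) (l 15636736)) (a (l 15874072) (l 15988352)))) (l 1))) (a (a (c (b (a (l 15366632) (l 15429424)) (c (l 320005316167) (l 296383415015))) (b (a (l 15615272) (l 15724864)) (a (l 15571344) (l 364566215655)))) (a (b (c (l 252360231447) (l 312490043111)) (l 1)) (l 1))) (l 1)))) (b (l 1) (l 1))), by decide +kernel⟩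

def k2_pm_202_a : ∃ t, chk3 f_pm_202_a t 3 1 1 = true :=
  ⟨(l 1), by decide +kernel⟩

theorem s3_pm_202_a : ∃ t, chk3 f_pm_202_a t 2 1 1 = true := ex3_b k0_pm_202_a k1_pm_202_a

theorem s4_pm_202_a : ∃ t, chk3 f_pm_202_a t 1 1 1 = true := ex3_a s3_pm_202_a k2_pm_202_a

theorem c_pm_202_a : CertB 1073741824 536870912 0 536870912 991146299 28908434 3 eng mog cd4q2 cd1q2a pd0 false true false .pp 2 0 2
    ndB4q2 ndB1q2a pcB0 Cut.none Ext.none :=
  certB2 (fam := false) (s1 := true) (s2 := false) (a := 2) (b := 0) (c := 2) (cn := .pp) (n1 := ndB4q2) (n2 := ndB1q2a) (pc := pcB0) (cut := Cut.none) (xt := Ext.none) (P1 := 1073741824) (W1 := 536870912) (P2 := 0) (W2 := 536870912) (P3 := 991146299) (W3 := 28908434) (N0 := 3) (En := eng) (mo := mog) (C1 := cd4q2) (C2 := cd1q2a) (C3 := pd0)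
    rfl (fun _ => rfl) s4_pm_202_a

noncomputable def f_pm_202_b : ℕ → ℕ → ℕ → ℕ → Bool := onCell 0 536870912 1239849684 370763052 991146299 28908434
    (rowB 3 eng mog cd4q2 cd1q2b pd0 2 false true false .pp 2 0 2 (qsf 1073741824 536870912 1239849684 370763052 0) ndB4q2 ndB1q2b pcB0 Cut.none Ext.none)

def k0_pm_202_b : ∃ t, chk3 f_pm_202_b t 2 2 1 = true :=
  ⟨(a (b (a (a (b (c (l 16092784) (l 16000976)) (c (l 15939992) (l 15862968))) (a (a (b (l 16078896) (l 15904464)) (b (c (l 16074968) (l 16136048)) (l 15905944))) (c (b (l 16083200) (l 15938552)) (b (l 16011352) (l 15951072))))) (a (c (a (b (l 16133112) (l 15980232)) (b (l 16116760) (l 16018904))) (a (b (l 16231568) (l 16031752)) (b (l 16300072) (l 16108016)))) (c (b (l 16078248) (l 16054184)) (b (c (l 16429424) (l 16556864)) (l 16198688))))) (b (a (a (l 15549024) (a (a (l 15733592) (l 15732312)) (l 15742456))) (a (a (l 15813752) (l 15860920)) (l 15868744))) (a (a (l 15468112) (a (a (l 15585376) (l 15582168))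 (l 15606352))) (a (a (l 15646632) (l 15684416)) (l 15722712))))) (b (b (a (c (c (l 15981744) (a (l 16382464) (l 16453480))) (a (c (l 16550520) (l 16545864)) (l 435434963623))) (a (c (l 273299567111) (l 547640948951)) (l 1))) (a (c (a (l 16095664) (l 16131008)) (a (l 16318968) (l 16438552))) (c (c (l 16063728) (l 16131072)) (c (l 16499544) (l 16475656))))) (a (a (c (l 15833712) (l 15720008)) (b (c (l 15938968) (l 16134584)) (l 15695904))) (c (b (a (l 15956168) (l 15970248)) (a (l 15791024) (l 15812360))) (b (a (l 16230848) (l 16326784)) (a (l 15950416) (l 16039216))))))), by decide +kernel⟩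

def k1_pm_202_b : ∃ t, chk3 f_pm_202_b t 2 3 1 = true :=
  ⟨(a (b (a (b (a (l 15447208) (a (a (l 15457784) (l 15453624)) (l 15471416))) (a (a (l 15359696) (l 15355704)) (a (a (l 15350048) (l 15346384)) (l 15358696)))) (a (a (b (l 15502176) (l 15381336)) (b (a (l 15526176) (l 15536656)) (l 15403072))) (b (l 15562960) (l 15429904)))) (a (a (b (c (l 15393944) (l 15120312)) (c (l 15311800) (l 15027016))) (a (b (a (l 15259344) (l 15259624)) (a (l 15176376) (l 15178368))) (b (l 15268160) (l 15182656)))) (a (a (b (l 15282432) (l 15190176)) (b (l 15297344) (l 15199424))) (c (l 15385024) (l 15144576))))) (b (b (a (a (l 15601168) (l 15646984)) (c (l 15690464) (l 15763272))) (a (c (l 15544136) (l 15430032)) (l 15367096))) (a (c (l 15162240) (b (l 15274024) (l 15139032))) (c (l 15417256) (l 15161136))))), by decide +kernel⟩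

def k2_pm_202_b : ∃ t, chk3 f_pm_202_b t 3 1 1 = true :=
  ⟨(b (a (b (l 1) (b (a (c (a (l 15981648) (l 15962192)) (a (l 16423032) (l 16529696))) (l 1)) (a (c (l 15858504) (l 15958240)) (c (l 15778176) (c (l 16285344) (l 16554040)))))) (l 1)) (a (a (b (c (b (l 15745520) (l 15644496)) (b (l 15937736) (l 15715640))) (c (l 15510528) (l 15434432))) (b (c (b (l 15804712) (l 15700192)) (b (l 16050296) (l 15892160))) (c (l 15565720) (l 15542464)))) (b (a (b (l 1) (a (l 15870048) (l 15776632))) (l 1)) (a (c (l 15624320) (l 15506608)) (c (l 15545240) (b (l 15992728) (l 15853544))))))), by decide +kernel⟩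

theorem s3_pm_202_b : ∃ t, chk3 f_pm_202_b t 2 1 1 = true := ex3_b k0_pm_202_b k1_pm_202_b

theorem s4_pm_202_b : ∃ t, chk3 f_pm_202_b t 1 1 1 = true := ex3_a s3_pm_202_b k2_pm_202_b

theorem c_pm_202_b : CertB 1073741824 536870912 1239849684 370763052 991146299 28908434 3 eng mog cd4q2 cd1q2b pd0 false true false .pp 2 0 2
    ndB4q2 ndB1q2b pcB0 Cut.none Ext.none :=
  certB2 (fam := false) (s1 := true) (s2 := false) (a := 2) (b := 0) (c := 2) (cn := .pp) (n1 := ndB4q2) (n2 := ndB1q2b) (pc := pcB0) (cut := Cut.none) (xt := Ext.none) (P1 := 1073741824) (W1 := 536870912) (P2 := 1239849684) (W2 := 370763052) (P3 := 991146299) (W3 := 28908434) (N0 := 3) (En := eng) (mo := mog) (C1 := cd4q2) (C2 := cd1q2b) (C3 := pd0)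
    rfl (fun _ => rfl) s4_pm_202_b

noncomputable def f_pm_203 : ℕ → ℕ → ℕ → ℕ → Bool := onCell 1073741824 536870912 0 536870912 991146299 28908434
    (rowB 3 eng mog cd4q2 cd1q3 pd0 1 false true false .up 2 0 3 (qsf 1073741824 536870912 1610612736 536870912 0) ndB4q2 ndB1q3 pcB0 Cut.none Ext.none)

def k0_pm_203 : ∃ t, chk3 f_pm_203 t 1 1 1 = true :=
  ⟨(a (b (a (l 1) (b (l 1) (b (l 1) (a (l 1) (c (l 15355856) (l 15296408)))))) (b (b (a (l 1) (a (l 310878572087) (c (l 15290192) (l 15191112)))) (a (a (l 1) (c (l 15464632) (l 15589720))) (a (l 245917045975) (c (l 15242264) (l 15117584))))) (a (c (a (b (l 15527288) (l 15478896)) (l 253433354327)) (a (b (l 15773168) (l 15670040)) (l 247527879319))) (a (b (c (l 15316360) (l 15259232)) (l 15207488)) (b (l 15131960) (l 15165616)))))) (b (a (b (a (l 1) (b (l 1) (b (l 1) (l 15119288)))) (b (a (c (l 15309392) (l 15185320)) (c (b (l 15209696) (l 15169912)) (b (l 15020576) (l 14967576)))) (a (b (l 15177968) (l 136394987479))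 (c (l 15121048) (l 14907160))))) (b (a (b (b (l 1) (b (l 1) (c (l 15208784) (l 14994824)))) (b (b (l 15059224) (a (l 15089392) (l 15023464))) (c (l 15133296) (l 14905448)))) (b (b (a (l 14908680) (b (l 15030088) (l 15003816))) (b (a (l 15036528) (b (l 14985104) (l 14973568))) (a (l 15010672) (l 14957384)))) (b (a (b (l 14986608) (l 14965872)) (c (l 15056728) (l 14801272))) (a (l 14939016) (l 14903608))))) (b (b (a (a (l 15010056) (l 14953560)) (a (l 14910000) (l 14884144))) (a (l 14949128) (a (l 14892496) (l 14871288)))) (a (a (l 14938592) (l 14902784)) (a (l 14880280) (l 14865064)))))) (b (a (a (b (c (l 15175096) (l 14999456)) (l 15055064)) (b (l 14829584) (l 14974728))) (a (b (a (l 14923328) (l 14901272)) (c (l 15083432) (l 14782472))) (b (c (l 15040112) (l 14721384)) (l 14915352)))) (a (c (a (l 15172600) (l 15165912)) (a (l 14977152) (l 14907904))) (a (b (l 14989856) (l 15070656)) (b (l 14968544) (a (l 15050872) (l 15025040)))))))), by decide +kernel⟩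

theorem c_pm_203 : CertB 1073741824 536870912 1610612736 536870912 991146299 28908434 3 eng mog cd4q2 cd1q3 pd0 false true false .up 2 0 3
    ndB4q2 ndB1q3 pcB0 Cut.none Ext.none :=
  certB1 (fam := false) (s1 := true) (s2 := false) (a := 2) (b := 0) (c := 3) (cn := .up) (n1 := ndB4q2) (n2 := ndB1q3) (pc := pcB0) (cut := Cut.none) (xt := Ext.none) (P1 := 1073741824) (W1 := 536870912) (P2 := 1610612736) (W2 := 536870912) (P3 := 991146299) (W3 := 28908434) (N0 := 3) (En := eng) (mo := mog) (C1 := cd4q2) (C2 := cd1q3) (C3 := pd0)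
    rfl (fun _ => rfl) k0_pm_203

noncomputable def f_pm_213 : ℕ → ℕ → ℕ → ℕ → Bool := onCell 1073741824 536870912 536870912 536870912 991146299 28908434
    (rowB 3 eng mog cd4q2 cd1q3 pd1 1 false true false .pnn 2 1 3 (qsf 1073741824 536870912 1610612736 536870912 1) ndB4q2 ndB1q3 pcB1 Cut.none Ext.none)

def k0_pm_213 : ∃ t, chk3 f_pm_213 t 1 1 1 = true :=
  ⟨(a (b (b (a (a (b (c (l 15141952) (l 15350840)) (l 15226416)) (b (l 14916680) (l 15053912))) (a (b (l 15124136) (l 15287240)) (b (l 15226128) (l 15354824)))) (a (a (b (l 15270040) (l 15380632)) (b (l 15314184) (l 15509408))) (a (b (l 15463032) (l 15704040)) (b (l 15536704) (l 15817032))))) (a (b (a (c (l 15728728) (l 15706272)) (b (l 15786200) (l 16196384))) (a (b (c (l 16512104) (l 16096176)) (a (l 16262728) (l 16533856))) (b (l 16368168) (l 16602896)))) (b (a (b (l 16001088) (l 15981736)) (b (l 15797368) (b (l 16073344) (l 2)))) (a (b (l 16282600) (l 2)) (l 2))))) (b (a (b (a (b (l 15184592) (l 15286552))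 (b (l 14963912) (a (l 15113336) (l 14920360)))) (b (a (l 15402288) (a (l 15254968) (l 15081040))) (a (l 95123957639) (a (l 15390736) (l 2))))) (b (a (b (a (l 14651736) (l 14597280)) (a (l 14744128) (l 14787328))) (b (a (l 14755728) (l 14931672)) (a (l 14920416) (l 2)))) (a (b (a (l 14951400) (l 2)) (l 2)) (l 2)))) (a (b (a (b (a (l 15801760) (l 2)) (l 2)) (l 2)) (l 2)) (l 2)))), by decide +kernel⟩

theorem c_pm_213 : CertB 1073741824 536870912 1610612736 536870912 991146299 28908434 3 eng mog cd4q2 cd1q3 pd1 false true false .pnn 2 1 3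
    ndB4q2 ndB1q3 pcB1 Cut.none Ext.none :=
  certB1 (fam := false) (s1 := true) (s2 := false) (a := 2) (b := 1) (c := 3) (cn := .pnn) (n1 := ndB4q2) (n2 := ndB1q3) (pc := pcB1) (cut := Cut.none) (xt := Ext.none) (P1 := 1073741824) (W1 := 536870912) (P2 := 1610612736) (W2 := 536870912) (P3 := 991146299) (W3 := 28908434) (N0 := 3) (En := eng) (mo := mog) (C1 := cd4q2) (C2 := cd1q3) (C3 := pd1)
    rfl (fun _ => rfl) k0_pm_213

noncomputable def f_pm_303 : ℕ → ℕ → ℕ → ℕ → Bool := onCell 0 1230186008 1610612736 536870912 991146299 28908434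
    (rowB 3 eng mog cd4q3 cd1q3 pd0 0 false true false .npn 3 0 3 (qsf 0 1230186008 1610612736 536870912 0) ndB4q3 ndB1q3 pcB0 Cut.none Ext.none)

def k0_pm_303 : ∃ t, chk3 f_pm_303 t 1 1 1 = true :=
  ⟨(a (l 3) (a (l 3) (a (l 3) (a (b (l 3) (l 3)) (a (b (b (l 3) (l 3)) (l 3)) (b (b (b (b (b (l 709774608727) (a (l 15639504) (l 15703320))) (a (l 15669680) (l 15684736))) (b (l 15654464) (l 15641128))) (b (l 15632440) (l 15627592))) (b (b (l 15645168) (l 15676464)) (b (l 15718056) (l 15780536))))))))), by decide +kernel⟩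

theorem c_pm_303 : CertB 0 1230186008 1610612736 536870912 991146299 28908434 3 eng mog cd4q3 cd1q3 pd0 false true false .npn 3 0 3
    ndB4q3 ndB1q3 pcB0 Cut.none Ext.none :=
  certB0 (fam := false) (s1 := true) (s2 := false) (a := 3) (b := 0) (c := 3) (cn := .npn) (n1 := ndB4q3) (n2 := ndB1q3) (pc := pcB0) (cut := Cut.none) (xt := Ext.none) (P1 := 0) (W1 := 1230186008) (P2 := 1610612736) (W2 := 536870912) (P3 := 991146299) (W3 := 28908434) (N0 := 3) (En := eng) (mo := mog) (C1 := cd4q3) (C2 := cd1q3) (C3 := pd0)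
    rfl k0_pm_303

noncomputable def f_pm_313 : ℕ → ℕ → ℕ → ℕ → Bool := onCell 0 1230186008 1610612736 536870912 991146299 28908434
    (rowB 3 eng mog cd4q3 cd1q3 pd1 0 false true false .dn 3 1 3 (qsf 0 1230186008 1610612736 536870912 1) ndB4q3 ndB1q3 pcB1 Cut.none Ext.none)

def k0_pm_313 : ∃ t, chk3 f_pm_313 t 1 1 1 = true :=
  ⟨(a (l 1) (a (l 1) (b (l 1) (a (l 1) (b (l 1) (a (l 1) (a (l 1) (b (l 1) (l 15624288))))))))), by decide +kernel⟩

theorem c_pm_313 : CertB 0 1230186008 1610612736 536870912 991146299 28908434 3 eng mog cd4q3 cd1q3 pd1 false true false .dn 3 1 3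
    ndB4q3 ndB1q3 pcB1 Cut.none Ext.none :=
  certB0 (fam := false) (s1 := true) (s2 := false) (a := 3) (b := 1) (c := 3) (cn := .dn) (n1 := ndB4q3) (n2 := ndB1q3) (pc := pcB1) (cut := Cut.none) (xt := Ext.none) (P1 := 0) (W1 := 1230186008) (P2 := 1610612736) (W2 := 536870912) (P3 := 991146299) (W3 := 28908434) (N0 := 3) (En := eng) (mo := mog) (C1 := cd4q3) (C2 := cd1q3) (C3 := pd1)
    rfl k0_pm_313

noncomputable def f_mm_001 : ℕ → ℕ → ℕ → ℕ → Bool := onCell 0 536870912 536870912 536870912 991146299 28908434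
    (rowB 3 eng mog cd4q0 cd1q1 pd0 0 false false false .up 0 0 1 (qsf 0 536870912 536870912 536870912 0) ndB4q0 ndB1q1 pcB0 Cut.none Ext.none)

def k0_mm_001 : ∃ t, chk3 f_mm_001 t 1 1 1 = true :=
  ⟨(l 5), by decide +kernel⟩

theorem c_mm_001 : CertB 0 536870912 536870912 536870912 991146299 28908434 3 eng mog cd4q0 cd1q1 pd0 false false false .up 0 0 1
    ndB4q0 ndB1q1 pcB0 Cut.none Ext.none :=
  certB0 (fam := false) (s1 := false) (s2 := false) (a := 0) (b := 0) (c := 1) (cn := .up) (n1 := ndB4q0) (n2 := ndB1q1) (pc := pcB0) (cut := Cut.none) (xt := Ext.none) (P1 := 0) (W1 := 536870912) (P2 := 536870912) (W2 := 536870912) (P3 := 991146299) (W3 := 28908434) (N0 := 3) (En := eng) (mo := mog) (C1 := cd4q0) (C2 := cd1q1) (C3 := pd0)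
    rfl k0_mm_001

noncomputable def f_mm_011 : ℕ → ℕ → ℕ → ℕ → Bool := onCell 0 536870912 536870912 536870912 991146299 28908434
    (rowB 3 eng mog cd4q0 cd1q1 pd1 0 false false false .pnn 0 1 1 (qsf 0 536870912 536870912 536870912 1) ndB4q0 ndB1q1 pcB1 Cut.none Ext.none)

def k0_mm_011 : ∃ t, chk3 f_mm_011 t 1 1 1 = true :=
  ⟨(l 5), by decide +kernel⟩

theorem c_mm_011 : CertB 0 536870912 536870912 536870912 991146299 28908434 3 eng mog cd4q0 cd1q1 pd1 false false false .pnn 0 1 1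
    ndB4q0 ndB1q1 pcB1 Cut.none Ext.none :=
  certB0 (fam := false) (s1 := false) (s2 := false) (a := 0) (b := 1) (c := 1) (cn := .pnn) (n1 := ndB4q0) (n2 := ndB1q1) (pc := pcB1) (cut := Cut.none) (xt := Ext.none) (P1 := 0) (W1 := 536870912) (P2 := 536870912) (W2 := 536870912) (P3 := 991146299) (W3 := 28908434) (N0 := 3) (En := eng) (mo := mog) (C1 := cd4q0) (C2 := cd1q1) (C3 := pd1)
    rfl k0_mm_011

noncomputable def f_mm_012_a : ℕ → ℕ → ℕ → ℕ → Bool := onCell 0 536870912 0 536870912 991146299 28908434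
    (rowB 3 eng mog cd4q0 cd1q2a pd1 0 false false false .pnp 0 1 2 (qsf 0 536870912 0 536870912 1) ndB4q0 ndB1q2a pcB1 Cut.none Ext.none)

def k0_mm_012_a : ∃ t, chk3 f_mm_012_a t 1 1 1 = true :=
  ⟨(l 5), by decide +kernel⟩

theorem c_mm_012_a : CertB 0 536870912 0 536870912 991146299 28908434 3 eng mog cd4q0 cd1q2a pd1 false false false .pnp 0 1 2
    ndB4q0 ndB1q2a pcB1 Cut.none Ext.none :=
  certB0 (fam := false) (s1 := false) (s2 := false) (a := 0) (b := 1) (c := 2) (cn := .pnp) (n1 := ndB4q0) (n2 := ndB1q2a) (pc := pcB1) (cut := Cut.none) (xt := Ext.none) (P1 := 0) (W1 := 536870912) (P2 := 0) (W2 := 536870912) (P3 := 991146299) (W3 := 28908434) (N0 := 3) (En := eng) (mo := mog) (C1 := cd4q0) (C2 := cd1q2a) (C3 := pd1)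
    rfl k0_mm_012_a

noncomputable def f_mm_012_b : ℕ → ℕ → ℕ → ℕ → Bool := onCell 0 536870912 1239849684 370763052 991146299 28908434
    (rowB 3 eng mog cd4q0 cd1q2b pd1 0 false false false .pnp 0 1 2 (qsf 0 536870912 1239849684 370763052 1) ndB4q0 ndB1q2b pcB1 Cut.none Ext.none)

def k0_mm_012_b : ∃ t, chk3 f_mm_012_b t 1 1 1 = true :=
  ⟨(l 5), by decide +kernel⟩

theorem c_mm_012_b : CertB 0 536870912 1239849684 370763052 991146299 28908434 3 eng mog cd4q0 cd1q2b pd1 false false false .pnp 0 1 2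
    ndB4q0 ndB1q2b pcB1 Cut.none Ext.none :=
  certB0 (fam := false) (s1 := false) (s2 := false) (a := 0) (b := 1) (c := 2) (cn := .pnp) (n1 := ndB4q0) (n2 := ndB1q2b) (pc := pcB1) (cut := Cut.none) (xt := Ext.none) (P1 := 0) (W1 := 536870912) (P2 := 1239849684) (W2 := 370763052) (P3 := 991146299) (W3 := 28908434) (N0 := 3) (En := eng) (mo := mog) (C1 := cd4q0) (C2 := cd1q2b) (C3 := pd1)
    rfl k0_mm_012_b

noncomputable def f_mm_022_a : ℕ → ℕ → ℕ → ℕ → Bool := onCell 0 536870912 0 536870912 991146299 28908434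
    (rowB 3 eng mog cd4q0 cd1q2a pd2 0 false false false .pp 0 2 2 (qsf 0 536870912 0 536870912 2) ndB4q0 ndB1q2a pcB2 Cut.none Ext.none)

def k0_mm_022_a : ∃ t, chk3 f_mm_022_a t 1 1 1 = true :=
  ⟨(l 5), by decide +kernel⟩

theorem c_mm_022_a : CertB 0 536870912 0 536870912 991146299 28908434 3 eng mog cd4q0 cd1q2a pd2 false false false .pp 0 2 2
    ndB4q0 ndB1q2a pcB2 Cut.none Ext.none :=
  certB0 (fam := false) (s1 := false) (s2 := false) (a := 0) (b := 2) (c := 2) (cn := .pp) (n1 := ndB4q0) (n2 := ndB1q2a) (pc := pcB2) (cut := Cut.none) (xt := Ext.none) (P1 := 0) (W1 := 536870912) (P2 := 0) (W2 := 536870912) (P3 := 991146299) (W3 := 28908434) (N0 := 3) (En := eng) (mo := mog) (C1 := cd4q0) (C2 := cd1q2a) (C3 := pd2)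
    rfl k0_mm_022_a

noncomputable def f_mm_022_b : ℕ → ℕ → ℕ → ℕ → Bool := onCell 0 536870912 1239849684 370763052 991146299 28908434
    (rowB 3 eng mog cd4q0 cd1q2b pd2 0 false false false .pp 0 2 2 (qsf 0 536870912 1239849684 370763052 2) ndB4q0 ndB1q2b pcB2 Cut.none Ext.none)

def k0_mm_022_b : ∃ t, chk3 f_mm_022_b t 1 1 1 = true :=
  ⟨(l 5), by decide +kernel⟩

theorem c_mm_022_b : CertB 0 536870912 1239849684 370763052 991146299 28908434 3 eng mog cd4q0 cd1q2b pd2 false false false .pp 0 2 2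
    ndB4q0 ndB1q2b pcB2 Cut.none Ext.none :=
  certB0 (fam := false) (s1 := false) (s2 := false) (a := 0) (b := 2) (c := 2) (cn := .pp) (n1 := ndB4q0) (n2 := ndB1q2b) (pc := pcB2) (cut := Cut.none) (xt := Ext.none) (P1 := 0) (W1 := 536870912) (P2 := 1239849684) (W2 := 370763052) (P3 := 991146299) (W3 := 28908434) (N0 := 3) (En := eng) (mo := mog) (C1 := cd4q0) (C2 := cd1q2b) (C3 := pd2)
    rfl k0_mm_022_b

noncomputable def f_mm_023 : ℕ → ℕ → ℕ → ℕ → Bool := onCell 0 536870912 1610612736 536870912 991146299 28908434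
    (rowB 3 eng mog cd4q0 cd1q3 pd2 0 false false false .up 0 2 3 (qsf 0 536870912 1610612736 536870912 2) ndB4q0 ndB1q3 pcB2 Cut.none Ext.none)

def k0_mm_023 : ∃ t, chk3 f_mm_023 t 1 1 1 = true :=
  ⟨(l 5), by decide +kernel⟩

theorem c_mm_023 : CertB 0 536870912 1610612736 536870912 991146299 28908434 3 eng mog cd4q0 cd1q3 pd2 false false false .up 0 2 3
    ndB4q0 ndB1q3 pcB2 Cut.none Ext.none :=
  certB0 (fam := false) (s1 := false) (s2 := false) (a := 0) (b := 2) (c := 3) (cn := .up) (n1 := ndB4q0) (n2 := ndB1q3) (pc := pcB2) (cut := Cut.none) (xt := Ext.none) (P1 := 0) (W1 := 536870912) (P2 := 1610612736) (W2 := 536870912) (P3 := 991146299) (W3 := 28908434) (N0 := 3) (En := eng) (mo := mog) (C1 := cd4q0) (C2 := cd1q3) (C3 := pd2)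
    rfl k0_mm_023

noncomputable def f_mm_033 : ℕ → ℕ → ℕ → ℕ → Bool := onCell 0 536870912 1610612736 536870912 991146299 28908434
    (rowB 3 eng mog cd4q0 cd1q3 pd3 0 false false false .pnn 0 3 3 (qsf 0 536870912 1610612736 536870912 3) ndB4q0 ndB1q3 pcB3 Cut.none Ext.none)

def k0_mm_033 : ∃ t, chk3 f_mm_033 t 1 1 1 = true :=
  ⟨(l 5), by decide +kernel⟩

theorem c_mm_033 : CertB 0 536870912 1610612736 536870912 991146299 28908434 3 eng mog cd4q0 cd1q3 pd3 false false false .pnn 0 3 3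
    ndB4q0 ndB1q3 pcB3 Cut.none Ext.none :=
  certB0 (fam := false) (s1 := false) (s2 := false) (a := 0) (b := 3) (c := 3) (cn := .pnn) (n1 := ndB4q0) (n2 := ndB1q3) (pc := pcB3) (cut := Cut.none) (xt := Ext.none) (P1 := 0) (W1 := 536870912) (P2 := 1610612736) (W2 := 536870912) (P3 := 991146299) (W3 := 28908434) (N0 := 3) (En := eng) (mo := mog) (C1 := cd4q0) (C2 := cd1q3) (C3 := pd3)
    rfl k0_mm_033

noncomputable def f_mm_101 : ℕ → ℕ → ℕ → ℕ → Bool := onCell 0 536870912 536870912 536870912 991146299 28908434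
    (rowB 3 eng mog cd4q1 cd1q1 pd0 2 false false false .npn 1 0 1 (qsf 536870912 536870912 536870912 536870912 0) ndB4q1 ndB1q1 pcB0 Cut.none Ext.none)

def k0_mm_101 : ∃ t, chk3 f_mm_101 t 1 1 1 = true :=
  ⟨(l 3), by decide +kernel⟩

theorem c_mm_101 : CertB 536870912 536870912 536870912 536870912 991146299 28908434 3 eng mog cd4q1 cd1q1 pd0 false false false .npn 1 0 1
    ndB4q1 ndB1q1 pcB0 Cut.none Ext.none :=
  certB2 (fam := false) (s1 := false) (s2 := false) (a := 1) (b := 0) (c := 1) (cn := .npn) (n1 := ndB4q1) (n2 := ndB1q1) (pc := pcB0) (cut := Cut.none) (xt := Ext.none) (P1 := 536870912) (W1 := 536870912) (P2 := 536870912) (W2 := 536870912) (P3 := 991146299) (W3 := 28908434) (N0 := 3) (En := eng) (mo := mog) (C1 := cd4q1) (C2 := cd1q1) (C3 := pd0)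
    rfl (fun _ => rfl) k0_mm_101

noncomputable def f_mm_102_a : ℕ → ℕ → ℕ → ℕ → Bool := onCell 536870912 536870912 0 536870912 991146299 28908434
    (rowB 3 eng mog cd4q1 cd1q2a pd0 0 false false false .npp 1 0 2 (qsf 536870912 536870912 0 536870912 0) ndB4q1 ndB1q2a pcB0 Cut.none Ext.none)

def k0_mm_102_a : ∃ t, chk3 f_mm_102_a t 1 1 1 = true :=
  ⟨(l 5), by decide +kernel⟩

theorem c_mm_102_a : CertB 536870912 536870912 0 536870912 991146299 28908434 3 eng mog cd4q1 cd1q2a pd0 false false false .npp 1 0 2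
    ndB4q1 ndB1q2a pcB0 Cut.none Ext.none :=
  certB0 (fam := false) (s1 := false) (s2 := false) (a := 1) (b := 0) (c := 2) (cn := .npp) (n1 := ndB4q1) (n2 := ndB1q2a) (pc := pcB0) (cut := Cut.none) (xt := Ext.none) (P1 := 536870912) (W1 := 536870912) (P2 := 0) (W2 := 536870912) (P3 := 991146299) (W3 := 28908434) (N0 := 3) (En := eng) (mo := mog) (C1 := cd4q1) (C2 := cd1q2a) (C3 := pd0)
    rfl k0_mm_102_a

noncomputable def f_mm_102_b : ℕ → ℕ → ℕ → ℕ → Bool := onCell 536870912 536870912 1239849684 370763052 991146299 28908434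
    (rowB 3 eng mog cd4q1 cd1q2b pd0 0 false false false .npp 1 0 2 (qsf 536870912 536870912 1239849684 370763052 0) ndB4q1 ndB1q2b pcB0 Cut.none Ext.none)

def k0_mm_102_b : ∃ t, chk3 f_mm_102_b t 1 1 1 = true :=
  ⟨(l 5), by decide +kernel⟩

theorem c_mm_102_b : CertB 536870912 536870912 1239849684 370763052 991146299 28908434 3 eng mog cd4q1 cd1q2b pd0 false false false .npp 1 0 2
    ndB4q1 ndB1q2b pcB0 Cut.none Ext.none :=
  certB0 (fam := false) (s1 := false) (s2 := false) (a := 1) (b := 0) (c := 2) (cn := .npp) (n1 := ndB4q1) (n2 := ndB1q2b) (pc := pcB0) (cut := Cut.none) (xt := Ext.none) (P1 := 536870912) (W1 := 536870912) (P2 := 1239849684) (W2 := 370763052) (P3 := 991146299) (W3 := 28908434) (N0 := 3) (En := eng) (mo := mog) (C1 := cd4q1) (C2 := cd1q2b) (C3 := pd0)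
    rfl k0_mm_102_b

noncomputable def f_mm_112_a : ℕ → ℕ → ℕ → ℕ → Bool := onCell 536870912 536870912 0 536870912 991146299 28908434
    (rowB 3 eng mog cd4q1 cd1q2a pd1 0 false false false .dn 1 1 2 (qsf 536870912 536870912 0 536870912 1) ndB4q1 ndB1q2a pcB1 Cut.none Ext.none)

def k0_mm_112_a : ∃ t, chk3 f_mm_112_a t 1 1 1 = true :=
  ⟨(l 5), by decide +kernel⟩

theorem c_mm_112_a : CertB 536870912 536870912 0 536870912 991146299 28908434 3 eng mog cd4q1 cd1q2a pd1 false false false .dn 1 1 2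
    ndB4q1 ndB1q2a pcB1 Cut.none Ext.none :=
  certB0 (fam := false) (s1 := false) (s2 := false) (a := 1) (b := 1) (c := 2) (cn := .dn) (n1 := ndB4q1) (n2 := ndB1q2a) (pc := pcB1) (cut := Cut.none) (xt := Ext.none) (P1 := 536870912) (W1 := 536870912) (P2 := 0) (W2 := 536870912) (P3 := 991146299) (W3 := 28908434) (N0 := 3) (En := eng) (mo := mog) (C1 := cd4q1) (C2 := cd1q2a) (C3 := pd1)
    rfl k0_mm_112_a

noncomputable def f_mm_112_b : ℕ → ℕ → ℕ → ℕ → Bool := onCell 536870912 536870912 1239849684 370763052 991146299 28908434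
    (rowB 3 eng mog cd4q1 cd1q2b pd1 0 false false false .dn 1 1 2 (qsf 536870912 536870912 1239849684 370763052 1) ndB4q1 ndB1q2b pcB1 Cut.none Ext.none)

def k0_mm_112_b : ∃ t, chk3 f_mm_112_b t 1 1 1 = true :=
  ⟨(l 5), by decide +kernel⟩

theorem c_mm_112_b : CertB 536870912 536870912 1239849684 370763052 991146299 28908434 3 eng mog cd4q1 cd1q2b pd1 false false false .dn 1 1 2
    ndB4q1 ndB1q2b pcB1 Cut.none Ext.none :=
  certB0 (fam := false) (s1 := false) (s2 := false) (a := 1) (b := 1) (c := 2) (cn := .dn) (n1 := ndB4q1) (n2 := ndB1q2b) (pc := pcB1) (cut := Cut.none) (xt := Ext.none) (P1 := 536870912) (W1 := 536870912) (P2 := 1239849684) (W2 := 370763052) (P3 := 991146299) (W3 := 28908434) (N0 := 3) (En := eng) (mo := mog) (C1 := cd4q1) (C2 := cd1q2b) (C3 := pd1)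
    rfl k0_mm_112_b

noncomputable def f_mm_113 : ℕ → ℕ → ℕ → ℕ → Bool := onCell 536870912 536870912 1610612736 536870912 991146299 28908434
    (rowB 3 eng mog cd4q1 cd1q3 pd1 0 false false false .nn 1 1 3 (qsf 536870912 536870912 1610612736 536870912 1) ndB4q1 ndB1q3 pcB1 Cut.none Ext.none)

def k0_mm_113 : ∃ t, chk3 f_mm_113 t 1 1 1 = true :=
  ⟨(l 5), by decide +kernel⟩

theorem c_mm_113 : CertB 536870912 536870912 1610612736 536870912 991146299 28908434 3 eng mog cd4q1 cd1q3 pd1 false false false .nn 1 1 3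
    ndB4q1 ndB1q3 pcB1 Cut.none Ext.none :=
  certB0 (fam := false) (s1 := false) (s2 := false) (a := 1) (b := 1) (c := 3) (cn := .nn) (n1 := ndB4q1) (n2 := ndB1q3) (pc := pcB1) (cut := Cut.none) (xt := Ext.none) (P1 := 536870912) (W1 := 536870912) (P2 := 1610612736) (W2 := 536870912) (P3 := 991146299) (W3 := 28908434) (N0 := 3) (En := eng) (mo := mog) (C1 := cd4q1) (C2 := cd1q3) (C3 := pd1)
    rfl k0_mm_113

noncomputable def f_mm_123 : ℕ → ℕ → ℕ → ℕ → Bool := onCell 536870912 536870912 1610612736 536870912 991146299 28908434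
    (rowB 3 eng mog cd4q1 cd1q3 pd2 0 false false false .npn 1 2 3 (qsf 536870912 536870912 1610612736 536870912 2) ndB4q1 ndB1q3 pcB2 Cut.none Ext.none)

def k0_mm_123 : ∃ t, chk3 f_mm_123 t 1 1 1 = true :=
  ⟨(l 5), by decide +kernel⟩

theorem c_mm_123 : CertB 536870912 536870912 1610612736 536870912 991146299 28908434 3 eng mog cd4q1 cd1q3 pd2 false false false .npn 1 2 3
    ndB4q1 ndB1q3 pcB2 Cut.none Ext.none :=
  certB0 (fam := false) (s1 := false) (s2 := false) (a := 1) (b := 2) (c := 3) (cn := .npn) (n1 := ndB4q1) (n2 := ndB1q3) (pc := pcB2) (cut := Cut.none) (xt := Ext.none) (P1 := 536870912) (W1 := 536870912) (P2 := 1610612736) (W2 := 536870912) (P3 := 991146299) (W3 := 28908434) (N0 := 3) (En := eng) (mo := mog) (C1 := cd4q1) (C2 := cd1q3) (C3 := pd2)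
    rfl k0_mm_123

noncomputable def f_mm_133 : ℕ → ℕ → ℕ → ℕ → Bool := onCell 536870912 536870912 1610612736 536870912 991146299 28908434
    (rowB 3 eng mog cd4q1 cd1q3 pd3 0 false false false .dn 1 3 3 (qsf 536870912 536870912 1610612736 536870912 3) ndB4q1 ndB1q3 pcB3 Cut.none Ext.none)

def k0_mm_133 : ∃ t, chk3 f_mm_133 t 1 1 1 = true :=
  ⟨(l 5), by decide +kernel⟩

theorem c_mm_133 : CertB 536870912 536870912 1610612736 536870912 991146299 28908434 3 eng mog cd4q1 cd1q3 pd3 false false false .dn 1 3 3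
    ndB4q1 ndB1q3 pcB3 Cut.none Ext.none :=
  certB0 (fam := false) (s1 := false) (s2 := false) (a := 1) (b := 3) (c := 3) (cn := .dn) (n1 := ndB4q1) (n2 := ndB1q3) (pc := pcB3) (cut := Cut.none) (xt := Ext.none) (P1 := 536870912) (W1 := 536870912) (P2 := 1610612736) (W2 := 536870912) (P3 := 991146299) (W3 := 28908434) (N0 := 3) (En := eng) (mo := mog) (C1 := cd4q1) (C2 := cd1q3) (C3 := pd3)
    rfl k0_mm_133

noncomputable def f_mm_202_a : ℕ → ℕ → ℕ → ℕ → Bool := onCell 1073741824 536870912 0 536870912 991146299 28908434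
    (rowB 3 eng mog cd4q2 cd1q2a pd0 0 false false false .pp 2 0 2 (qsf 1073741824 536870912 0 536870912 0) ndB4q2 ndB1q2a pcB0 Cut.none Ext.none)

def k0_mm_202_a : ∃ t, chk3 f_mm_202_a t 1 1 1 = true :=
  ⟨(l 5), by decide +kernel⟩

theorem c_mm_202_a : CertB 1073741824 536870912 0 536870912 991146299 28908434 3 eng mog cd4q2 cd1q2a pd0 false false false .pp 2 0 2
    ndB4q2 ndB1q2a pcB0 Cut.none Ext.none :=
  certB0 (fam := false) (s1 := false) (s2 := false) (a := 2) (b := 0) (c := 2) (cn := .pp) (n1 := ndB4q2) (n2 := ndB1q2a) (pc := pcB0) (cut := Cut.none) (xt := Ext.none) (P1 := 1073741824) (W1 := 536870912) (P2 := 0) (W2 := 536870912) (P3 := 991146299) (W3 := 28908434) (N0 := 3) (En := eng) (mo := mog) (C1 := cd4q2) (C2 := cd1q2a) (C3 := pd0)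
    rfl k0_mm_202_a

noncomputable def f_mm_202_b : ℕ → ℕ → ℕ → ℕ → Bool := onCell 1073741824 536870912 1239849684 370763052 991146299 28908434
    (rowB 3 eng mog cd4q2 cd1q2b pd0 0 false false false .pp 2 0 2 (qsf 1073741824 536870912 1239849684 370763052 0) ndB4q2 ndB1q2b pcB0 Cut.none Ext.none)

def k0_mm_202_b : ∃ t, chk3 f_mm_202_b t 1 1 1 = true :=
  ⟨(l 5), by decide +kernel⟩

theorem c_mm_202_b : CertB 1073741824 536870912 1239849684 370763052 991146299 28908434 3 eng mog cd4q2 cd1q2b pd0 false false false .pp 2 0 2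
    ndB4q2 ndB1q2b pcB0 Cut.none Ext.none :=
  certB0 (fam := false) (s1 := false) (s2 := false) (a := 2) (b := 0) (c := 2) (cn := .pp) (n1 := ndB4q2) (n2 := ndB1q2b) (pc := pcB0) (cut := Cut.none) (xt := Ext.none) (P1 := 1073741824) (W1 := 536870912) (P2 := 1239849684) (W2 := 370763052) (P3 := 991146299) (W3 := 28908434) (N0 := 3) (En := eng) (mo := mog) (C1 := cd4q2) (C2 := cd1q2b) (C3 := pd0)
    rfl k0_mm_202_b

noncomputable def f_mm_203 : ℕ → ℕ → ℕ → ℕ → Bool := onCell 1073741824 536870912 1610612736 536870912 991146299 28908434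
    (rowB 3 eng mog cd4q2 cd1q3 pd0 0 false false false .up 2 0 3 (qsf 1073741824 536870912 1610612736 536870912 0) ndB4q2 ndB1q3 pcB0 Cut.none Ext.none)

def k0_mm_203 : ∃ t, chk3 f_mm_203 t 1 1 1 = true :=
  ⟨(l 5), by decide +kernel⟩

theorem c_mm_203 : CertB 1073741824 536870912 1610612736 536870912 991146299 28908434 3 eng mog cd4q2 cd1q3 pd0 false false false .up 2 0 3
    ndB4q2 ndB1q3 pcB0 Cut.none Ext.none :=
  certB0 (fam := false) (s1 := false) (s2 := false) (a := 2) (b := 0) (c := 3) (cn := .up) (n1 := ndB4q2) (n2 := ndB1q3) (pc := pcB0) (cut := Cut.none) (xt := Ext.none) (P1 := 1073741824) (W1 := 536870912) (P2 := 1610612736) (W2 := 536870912) (P3 := 991146299) (W3 := 28908434) (N0 := 3) (En := eng) (mo := mog) (C1 := cd4q2) (C2 := cd1q3) (C3 := pd0)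
    rfl k0_mm_203

noncomputable def f_mm_213 : ℕ → ℕ → ℕ → ℕ → Bool := onCell 1073741824 536870912 1610612736 536870912 991146299 28908434
    (rowB 3 eng mog cd4q2 cd1q3 pd1 0 false false false .pnn 2 1 3 (qsf 1073741824 536870912 1610612736 536870912 1) ndB4q2 ndB1q3 pcB1 Cut.none Ext.none)

def k0_mm_213 : ∃ t, chk3 f_mm_213 t 1 1 1 = true :=
  ⟨(l 5), by decide +kernel⟩

theorem c_mm_213 : CertB 1073741824 536870912 1610612736 536870912 991146299 28908434 3 eng mog cd4q2 cd1q3 pd1 false false false .pnn 2 1 3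
    ndB4q2 ndB1q3 pcB1 Cut.none Ext.none :=
  certB0 (fam := false) (s1 := false) (s2 := false) (a := 2) (b := 1) (c := 3) (cn := .pnn) (n1 := ndB4q2) (n2 := ndB1q3) (pc := pcB1) (cut := Cut.none) (xt := Ext.none) (P1 := 1073741824) (W1 := 536870912) (P2 := 1610612736) (W2 := 536870912) (P3 := 991146299) (W3 := 28908434) (N0 := 3) (En := eng) (mo := mog) (C1 := cd4q2) (C2 := cd1q3) (C3 := pd1)
    rfl k0_mm_213

noncomputable def f_mm_303 : ℕ → ℕ → ℕ → ℕ → Bool := onCell 0 1230186008 1610612736 536870912 991146299 28908434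
    (rowB 3 eng mog cd4q3 cd1q3 pd0 0 false false false .npn 3 0 3 (qsf 0 1230186008 1610612736 536870912 0) ndB4q3 ndB1q3 pcB0 Cut.none Ext.none)

def k0_mm_303 : ∃ t, chk3 f_mm_303 t 1 1 1 = true :=
  ⟨(a (l 3) (l 5)), by decide +kernel⟩

theorem c_mm_303 : CertB 0 1230186008 1610612736 536870912 991146299 28908434 3 eng mog cd4q3 cd1q3 pd0 false false false .npn 3 0 3
    ndB4q3 ndB1q3 pcB0 Cut.none Ext.none :=
  certB0 (fam := false) (s1 := false) (s2 := false) (a := 3) (b := 0) (c := 3) (cn := .npn) (n1 := ndB4q3) (n2 := ndB1q3) (pc := pcB0) (cut := Cut.none) (xt := Ext.none) (P1 := 0) (W1 := 1230186008) (P2 := 1610612736) (W2 := 536870912) (P3 := 991146299) (W3 := 28908434) (N0 := 3) (En := eng) (mo := mog) (C1 := cd4q3) (C2 := cd1q3) (C3 := pd0)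
    rfl k0_mm_303

noncomputable def f_mm_313 : ℕ → ℕ → ℕ → ℕ → Bool := onCell 0 1230186008 1610612736 536870912 991146299 28908434
    (rowB 3 eng mog cd4q3 cd1q3 pd1 0 false false false .dn 3 1 3 (qsf 0 1230186008 1610612736 536870912 1) ndB4q3 ndB1q3 pcB1 Cut.none Ext.none)

def k0_mm_313 : ∃ t, chk3 f_mm_313 t 1 1 1 = true :=
  ⟨(a (l 1) (l 5)), by decide +kernel⟩

theorem c_mm_313 : CertB 0 1230186008 1610612736 536870912 991146299 28908434 3 eng mog cd4q3 cd1q3 pd1 false false false .dn 3 1 3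
    ndB4q3 ndB1q3 pcB1 Cut.none Ext.none :=
  certB0 (fam := false) (s1 := false) (s2 := false) (a := 3) (b := 1) (c := 3) (cn := .dn) (n1 := ndB4q3) (n2 := ndB1q3) (pc := pcB1) (cut := Cut.none) (xt := Ext.none) (P1 := 0) (W1 := 1230186008) (P2 := 1610612736) (W2 := 536870912) (P3 := 991146299) (W3 := 28908434) (N0 := 3) (En := eng) (mo := mog) (C1 := cd4q3) (C2 := cd1q3) (C3 := pd1)
    rfl k0_mm_313

end Pool.Agent.Strip051.G.I9231_9500.Tab.C.BB41

namespace Pool.Agent.Strip051.G.I9231_9500.Tab.C.BB42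

open Pool.Agent.Strip051.PB Pool.Agent.Strip051.PB.T
open Pool.Agent.Strip051.G.I9231_9500.Tab

noncomputable def f_pp_001 : ℕ → ℕ → ℕ → ℕ → Bool := onCell 0 536870912 536870912 536870912 991146299 28908434
    (rowB 3 eng mog cd4q0 cd2q1 pd0 0 false true true .up 0 0 1 (qsf 0 536870912 536870912 536870912 0) ndB4q0 ndB2q1 pcB0 Cut.none Ext.none)

def k0_pp_001 : ∃ t, chk3 f_pp_001 t 1 1 1 = true :=
  ⟨(l 3), by decide +kernel⟩

theorem c_pp_001 : CertB 0 536870912 536870912 536870912 991146299 28908434 3 eng mog cd4q0 cd2q1 pd0 false true true .up 0 0 1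
    ndB4q0 ndB2q1 pcB0 Cut.none Ext.none :=
  certB0 (fam := false) (s1 := true) (s2 := true) (a := 0) (b := 0) (c := 1) (cn := .up) (n1 := ndB4q0) (n2 := ndB2q1) (pc := pcB0) (cut := Cut.none) (xt := Ext.none) (P1 := 0) (W1 := 536870912) (P2 := 536870912) (W2 := 536870912) (P3 := 991146299) (W3 := 28908434) (N0 := 3) (En := eng) (mo := mog) (C1 := cd4q0) (C2 := cd2q1) (C3 := pd0)
    rfl k0_pp_001

noncomputable def f_pp_011 : ℕ → ℕ → ℕ → ℕ → Bool := onCell 0 536870912 536870912 536870912 991146299 28908434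
    (rowB 3 eng mog cd4q0 cd2q1 pd1 0 false true true .pnn 0 1 1 (qsf 0 536870912 536870912 536870912 1) ndB4q0 ndB2q1 pcB1 Cut.none Ext.none)

def k0_pp_011 : ∃ t, chk3 f_pp_011 t 1 1 1 = true :=
  ⟨(l 3), by decide +kernel⟩

theorem c_pp_011 : CertB 0 536870912 536870912 536870912 991146299 28908434 3 eng mog cd4q0 cd2q1 pd1 false true true .pnn 0 1 1
    ndB4q0 ndB2q1 pcB1 Cut.none Ext.none :=
  certB0 (fam := false) (s1 := true) (s2 := true) (a := 0) (b := 1) (c := 1) (cn := .pnn) (n1 := ndB4q0) (n2 := ndB2q1) (pc := pcB1) (cut := Cut.none) (xt := Ext.none) (P1 := 0) (W1 := 536870912) (P2 := 536870912) (W2 := 536870912) (P3 := 991146299) (W3 := 28908434) (N0 := 3) (En := eng) (mo := mog) (C1 := cd4q0) (C2 := cd2q1) (C3 := pd1)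
    rfl k0_pp_011

noncomputable def f_pp_012_a : ℕ → ℕ → ℕ → ℕ → Bool := onCell 536870912 536870912 0 536870912 991146299 28908434
    (rowB 3 eng mog cd4q0 cd2q2a pd1 2 false true true .pnp 0 1 2 (qsf 0 536870912 0 536870912 1) ndB4q0 ndB2q2a pcB1 Cut.none Ext.none)

def k0_pp_012_a : ∃ t, chk3 f_pp_012_a t 1 1 1 = true :=
  ⟨(a (b (a (b (l 2) (a (l 2) (l 15688720))) (a (b (l 15639312) (b (l 15674696) (l 15786792))) (b (l 15615928) (l 15466216)))) (a (b (a (l 2) (b (l 16022656) (l 16006552))) (a (b (c (l 16376704) (l 16329736)) (b (l 134853342167) (a (l 15856408) (l 15975280)))) (b (c (l 16191464) (l 16341872)) (c (l 16116160) (l 15831320))))) (b (a (b (l 15895744) (l 15892664)) (c (l 15761376) (l 15902320))) (a (b (c (l 16013528) (l 16158064)) (c (l 16074832) (l 16119984))) (b (c (l 15854544) (l 15985720)) (c (l 15890776) (l 16004920))))))) (a (b (a (b (l 15610096) (l 15615936)) (b (l 15614544) (l 15674424))) (b (a (b (l 15725368) (l 15759944)) (b (l 15695712)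 (l 15694040))) (a (b (l 15611632) (c (l 15727896) (l 15819904))) (b (l 15486408) (c (l 15598136) (l 15619728)))))) (b (a (b (l 15619936) (c (l 15657552) (l 15781008))) (b (l 15616040) (b (l 15743352) (l 15613288)))) (b (a (b (l 15710904) (l 15672712)) (a (l 15722200) (b (l 15798888) (l 15716432)))) (a (b (a (l 15624880) (l 15606624)) (a (l 15442416) (b (l 15536928) (l 15455856)))) (b (a (l 15601328) (l 15609320)) (a (a (l 15486888) (b (l 15513040) (l 15439744))) (c (a (b (l 15509456) (l 15443696)) (l 15477560)) (l 15419264))))))))), by decide +kernel⟩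

theorem c_pp_012_a : CertB 0 536870912 0 536870912 991146299 28908434 3 eng mog cd4q0 cd2q2a pd1 false true true .pnp 0 1 2
    ndB4q0 ndB2q2a pcB1 Cut.none Ext.none :=
  certB2 (fam := false) (s1 := true) (s2 := true) (a := 0) (b := 1) (c := 2) (cn := .pnp) (n1 := ndB4q0) (n2 := ndB2q2a) (pc := pcB1) (cut := Cut.none) (xt := Ext.none) (P1 := 0) (W1 := 536870912) (P2 := 0) (W2 := 536870912) (P3 := 991146299) (W3 := 28908434) (N0 := 3) (En := eng) (mo := mog) (C1 := cd4q0) (C2 := cd2q2a) (C3 := pd1)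
    rfl (fun _ => rfl) k0_pp_012_a

noncomputable def f_pp_012_b : ℕ → ℕ → ℕ → ℕ → Bool := onCell 536870912 536870912 1239849684 370763052 991146299 28908434
    (rowB 3 eng mog cd4q0 cd2q2b pd1 2 false true true .pnp 0 1 2 (qsf 0 536870912 1239849684 370763052 1) ndB4q0 ndB2q2b pcB1 Cut.none Ext.none)

def k0_pp_012_b : ∃ t, chk3 f_pp_012_b t 1 1 1 = true :=
  ⟨(a (b (a (l 2) (b (c (l 15561472) (l 15725896)) (c (l 15546328) (l 15699480)))) (l 2)) (b (a (b (c (l 15503256) (l 15673752)) (c (l 15475016) (l 15659432))) (b (a (l 15399544) (b (l 15518520) (l 15488136))) (a (l 15501888) (l 15435416)))) (c (a (l 15415240) (b (l 15300312) (l 15205704))) (a (l 15583648) (b (l 15496160) (l 15397448)))))), by decide +kernel⟩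

theorem c_pp_012_b : CertB 0 536870912 1239849684 370763052 991146299 28908434 3 eng mog cd4q0 cd2q2b pd1 false true true .pnp 0 1 2
    ndB4q0 ndB2q2b pcB1 Cut.none Ext.none :=
  certB2 (fam := false) (s1 := true) (s2 := true) (a := 0) (b := 1) (c := 2) (cn := .pnp) (n1 := ndB4q0) (n2 := ndB2q2b) (pc := pcB1) (cut := Cut.none) (xt := Ext.none) (P1 := 0) (W1 := 536870912) (P2 := 1239849684) (W2 := 370763052) (P3 := 991146299) (W3 := 28908434) (N0 := 3) (En := eng) (mo := mog) (C1 := cd4q0) (C2 := cd2q2b) (C3 := pd1)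
    rfl (fun _ => rfl) k0_pp_012_b

noncomputable def f_pp_022_a : ℕ → ℕ → ℕ → ℕ → Bool := onCell 1073741824 536870912 0 536870912 991146299 28908434
    (rowB 3 eng mog cd4q0 cd2q2a pd2 2 false true true .pp 0 2 2 (qsf 0 536870912 0 536870912 2) ndB4q0 ndB2q2a pcB2 Cut.none Ext.none)

def k0_pp_022_a : ∃ t, chk3 f_pp_022_a t 2 2 1 = true :=
  ⟨(a (a (b (c (a (l 15747440) (l 15844256)) (a (b (l 16203672) (l 16268288)) (l 16021040))) (c (a (l 16034224) (l 15919816)) (a (c (l 16291096) (l 16364632)) (l 15951016)))) (b (a (c (l 15754640) (l 15899608)) (l 15523536)) (a (c (l 15817552) (l 15835736)) (c (l 15727496) (l 15782304))))) (a (b (a (l 15617928) (l 15539744)) (a (b (l 15643296) (l 15610464)) (l 1))) (l 1))), by decide +kernel⟩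

def k1_pp_022_a : ∃ t, chk3 f_pp_022_a t 2 3 1 = true :=
  ⟨(a (b (b (a (c (a (l 15970120) (l 15869064)) (a (l 16150232) (l 16075392))) (a (c (l 15778528) (l 15892328)) (a (l 15741696) (l 15663480)))) (a (a (c (l 15696920) (c (l 16107536) (l 16226176))) (c (l 15813672) (a (l 16033152) (l 15942848)))) (a (c (l 15731352) (a (l 15857056) (l 15775720))) (a (l 263635059287) (l 1))))) (b (b (a (a (c (l 15846176) (a (l 16132440) (l 16037664))) (c (l 15759672) (a (l 15947416) (l 15861680)))) (a (c (l 15662664) (l 15741232)) (l 1))) (a (a (c (a (l 15820008) (l 15776144)) (a (l 15994928) (l 15966144))) (a (c (l 15735192) (l 15879048)) (c (b (l 15708400) (l 15685064)) (l 15796336)))) (l 1))) (a (a (b (c (a (a (l 15773744) (l 15752152)) (a (a (l 15736576) (l 15705440)) (l 15705600))) (b (a (l 15995488) (l 15906224)) (a (a (l 15972928) (l 15927888)) (a (l 15884120) (l 15841432))))) (a (b (c (a (b (l 15733488) (l 15695296)) (b (l 15712760) (a (l 15700928) (l 15690928))))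 (a (b (l 15936728) (l 15911544)) (b (l 15892368) (l 15909352)))) (b (a (c (a (l 15661728) (l 15651328)) (a (l 15928120) (l 15874488))) (a (b (c (l 15687840) (l 15859368)) (l 1)) (l 1))) (a (c (a (l 15643104) (a (b (l 255581874295) (l 1)) (l 1))) (a (a (l 15875160) (l 15864096)) (l 279204632743))) (l 1)))) (b (a (b (c (l 15692816) (l 15849200)) (l 1)) (l 1)) (l 1)))) (a (b (a (c (l 15670112) (l 288868314615)) (l 1)) (l 1)) (l 1))) (l 1)))) (b (l 1) (l 1))), by decide +kernel⟩

def k2_pp_022_a : ∃ t, chk3 f_pp_022_a t 3 1 1 = true :=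
  ⟨(l 1), by decide +kernel⟩

theorem s3_pp_022_a : ∃ t, chk3 f_pp_022_a t 2 1 1 = true := ex3_b k0_pp_022_a k1_pp_022_a

theorem s4_pp_022_a : ∃ t, chk3 f_pp_022_a t 1 1 1 = true := ex3_a s3_pp_022_a k2_pp_022_a

theorem c_pp_022_a : CertB 0 536870912 0 536870912 991146299 28908434 3 eng mog cd4q0 cd2q2a pd2 false true true .pp 0 2 2
    ndB4q0 ndB2q2a pcB2 Cut.none Ext.none :=
  certB2 (fam := false) (s1 := true) (s2 := true) (a := 0) (b := 2) (c := 2) (cn := .pp) (n1 := ndB4q0) (n2 := ndB2q2a) (pc := pcB2) (cut := Cut.none) (xt := Ext.none) (P1 := 0) (W1 := 536870912) (P2 := 0) (W2 := 536870912) (P3 := 991146299) (W3 := 28908434) (N0 := 3) (En := eng) (mo := mog) (C1 := cd4q0) (C2 := cd2q2a) (C3 := pd2)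
    rfl (fun _ => rfl) s4_pp_022_a

noncomputable def f_pp_022_b : ℕ → ℕ → ℕ → ℕ → Bool := onCell 1073741824 536870912 1239849684 370763052 991146299 28908434
    (rowB 3 eng mog cd4q0 cd2q2b pd2 2 false true true .pp 0 2 2 (qsf 0 536870912 1239849684 370763052 2) ndB4q0 ndB2q2b pcB2 Cut.none Ext.none)

def k0_pp_022_b : ∃ t, chk3 f_pp_022_b t 1 1 1 = true :=
  ⟨(a (a (b (a (b (c (b (l 15654776) (l 15695272)) (a (l 15851800) (l 15846720))) (c (l 15598808) (l 15883544))) (b (a (b (l 15604792) (l 15691080)) (b (l 15651464) (l 15626664))) (c (l 15530248) (l 15675808)))) (a (b (c (l 15459168) (l 15769264)) (l 15452832)) (b (c (l 15429216) (l 15590504)) (l 15245504)))) (b (a (b (b (a (l 15590728) (l 15525336)) (a (l 15582480) (l 15557056))) (c (l 15546664) (l 15571888))) (b (b (a (l 604010301607) (l 1)) (a (l 15547368) (l 15549592))) (a (l 15579408) (l 15613448)))) (a (b (l 15522560) (l 15461032)) (c (l 15481808) (l 15399248))))) (b (a (b (l 1) (a (c (l 15634616)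 (l 636759645687)) (b (l 1) (l 645349957415)))) (l 1)) (a (a (b (a (l 15751736) (l 15851768)) (l 15868304)) (b (a (l 15961016) (l 16075064)) (a (l 16076696) (l 16201600)))) (b (a (b (l 1) (a (l 16254024) (l 16365856))) (l 1)) (a (a (l 16307896) (l 16392608)) (l 4)))))), by decide +kernel⟩

theorem c_pp_022_b : CertB 0 536870912 1239849684 370763052 991146299 28908434 3 eng mog cd4q0 cd2q2b pd2 false true true .pp 0 2 2
    ndB4q0 ndB2q2b pcB2 Cut.none Ext.none :=
  certB2 (fam := false) (s1 := true) (s2 := true) (a := 0) (b := 2) (c := 2) (cn := .pp) (n1 := ndB4q0) (n2 := ndB2q2b) (pc := pcB2) (cut := Cut.none) (xt := Ext.none) (P1 := 0) (W1 := 536870912) (P2 := 1239849684) (W2 := 370763052) (P3 := 991146299) (W3 := 28908434) (N0 := 3) (En := eng) (mo := mog) (C1 := cd4q0) (C2 := cd2q2b) (C3 := pd2)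
    rfl (fun _ => rfl) k0_pp_022_b

noncomputable def f_pp_023 : ℕ → ℕ → ℕ → ℕ → Bool := onCell 1073741824 536870912 1610612736 536870912 991146299 28908434
    (rowB 3 eng mog cd4q0 cd2q3 pd2 2 false true true .up 0 2 3 (qsf 0 536870912 1610612736 536870912 2) ndB4q0 ndB2q3 pcB2 Cut.none Ext.none)

def k0_pp_023 : ∃ t, chk3 f_pp_023 t 1 1 1 = true :=
  ⟨(a (a (b (a (b (c (l 15353448) (l 15574480)) (l 2)) (b (l 15456880) (l 15105008))) (l 2)) (a (b (b (l 15594592) (l 15326408)) (l 2)) (b (b (l 15812600) (l 15399256)) (l 4)))) (b (a (b (a (a (l 16048464) (l 16182048)) (a (l 16186304) (l 4))) (l 4)) (l 4)) (l 4))), by decide +kernel⟩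

theorem c_pp_023 : CertB 0 536870912 1610612736 536870912 991146299 28908434 3 eng mog cd4q0 cd2q3 pd2 false true true .up 0 2 3
    ndB4q0 ndB2q3 pcB2 Cut.none Ext.none :=
  certB2 (fam := false) (s1 := true) (s2 := true) (a := 0) (b := 2) (c := 3) (cn := .up) (n1 := ndB4q0) (n2 := ndB2q3) (pc := pcB2) (cut := Cut.none) (xt := Ext.none) (P1 := 0) (W1 := 536870912) (P2 := 1610612736) (W2 := 536870912) (P3 := 991146299) (W3 := 28908434) (N0 := 3) (En := eng) (mo := mog) (C1 := cd4q0) (C2 := cd2q3) (C3 := pd2)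
    rfl (fun _ => rfl) k0_pp_023

noncomputable def f_pp_033 : ℕ → ℕ → ℕ → ℕ → Bool := onCell 0 536870912 1610612736 536870912 991146299 28908434
    (rowB 3 eng mog cd4q0 cd2q3 pd3 0 false true true .pnn 0 3 3 (qsf 0 536870912 1610612736 536870912 3) ndB4q0 ndB2q3 pcB3 Cut.none Ext.none)

def k0_pp_033 : ∃ t, chk3 f_pp_033 t 1 1 1 = true :=
  ⟨(a (b (a (l 4) (b (b (l 1) (l 4)) (l 4))) (l 4)) (b (a (b (l 1) (l 4)) (l 1)) (l 4))), by decide +kernel⟩

theorem c_pp_033 : CertB 0 536870912 1610612736 536870912 991146299 28908434 3 eng mog cd4q0 cd2q3 pd3 false true true .pnn 0 3 3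
    ndB4q0 ndB2q3 pcB3 Cut.none Ext.none :=
  certB0 (fam := false) (s1 := true) (s2 := true) (a := 0) (b := 3) (c := 3) (cn := .pnn) (n1 := ndB4q0) (n2 := ndB2q3) (pc := pcB3) (cut := Cut.none) (xt := Ext.none) (P1 := 0) (W1 := 536870912) (P2 := 1610612736) (W2 := 536870912) (P3 := 991146299) (W3 := 28908434) (N0 := 3) (En := eng) (mo := mog) (C1 := cd4q0) (C2 := cd2q3) (C3 := pd3)
    rfl k0_pp_033

noncomputable def f_pp_101 : ℕ → ℕ → ℕ → ℕ → Bool := onCell 536870912 536870912 536870912 536870912 991146299 28908434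
    (rowB 3 eng mog cd4q1 cd2q1 pd0 0 false true true .npn 1 0 1 (qsf 536870912 536870912 536870912 536870912 0) ndB4q1 ndB2q1 pcB0 Cut.none Ext.none)

def k0_pp_101 : ∃ t, chk3 f_pp_101 t 1 1 1 = true :=
  ⟨(l 3), by decide +kernel⟩

theorem c_pp_101 : CertB 536870912 536870912 536870912 536870912 991146299 28908434 3 eng mog cd4q1 cd2q1 pd0 false true true .npn 1 0 1
    ndB4q1 ndB2q1 pcB0 Cut.none Ext.none :=
  certB0 (fam := false) (s1 := true) (s2 := true) (a := 1) (b := 0) (c := 1) (cn := .npn) (n1 := ndB4q1) (n2 := ndB2q1) (pc := pcB0) (cut := Cut.none) (xt := Ext.none) (P1 := 536870912) (W1 := 536870912) (P2 := 536870912) (W2 := 536870912) (P3 := 991146299) (W3 := 28908434) (N0 := 3) (En := eng) (mo := mog) (C1 := cd4q1) (C2 := cd2q1) (C3 := pd0)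
    rfl k0_pp_101

noncomputable def cut_pp_102_a : Cut := Cut.of [[⟨0, 1, 0, 53687091⟩, ⟨1, 0, 0, 53687091⟩, ⟨2, 1, 0, 53687091⟩]]

noncomputable def xt_pp_102_a : Ext := extD3 3 ⟨4, 1, 1, 5, 22, 5, 21, 25, 41, 100, 1, 20⟩ eng cd4q1 cd2q2a pd0 false true true .npp 1 0 2 rfl ndB4q1 ndB2q2a pcB0

noncomputable def f_pp_102_a : ℕ → ℕ → ℕ → ℕ → Bool := onCell 0 536870912 0 536870912 991146299 28908434
    (rowB 3 eng mog cd4q1 cd2q2a pd0 2 false true true .npp 1 0 2 (qsf 536870912 536870912 0 536870912 0) ndB4q1 ndB2q2a pcB0 cut_pp_102_a xt_pp_102_a)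

def k0_pp_102_a : ∃ t, chk3 f_pp_102_a t 2 2 1 = true :=
  ⟨(a (b (l 2) (a (l 2) (a (l 2) (b (l 2) (a (l 2) (b (l 2) (l 15546968))))))) (b (a (a (c (l 15168944) (l 15097968)) (c (l 15226656) (l 15135104))) (a (c (l 15280320) (l 15168592)) (c (l 15330928) (l 15200064)))) (a (a (b (c (l 15389408) (l 15285544)) (c (b (l 15532336) (l 15619832)) (b (l 15416432) (l 15506072)))) (b (c (l 15446080) (l 15318544)) (c (l 15604904) (l 15477080)))) (b (a (c (l 15493744) (l 15345360)) (l 15450608)) (a (l 15565608) (l 15585184)))))), by decide +kernel⟩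

def k1_pp_102_a : ∃ t, chk3 f_pp_102_a t 2 3 1 = true :=
  ⟨(a (b (a (l 2) (b (a (l 2) (b (a (l 15635808) (l 15645832)) (a (l 15744288) (l 15749520)))) (a (a (b (l 2) (c (l 16008680) (l 15960680))) (b (l 15856680) (c (l 16010768) (l 15960640)))) (b (a (l 15859976) (l 15863408)) (a (l 15987192) (l 15988408)))))) (a (a (b (l 2) (l 6)) (a (b (b (l 2) (b (l 2) (l 6))) (l 6)) (b (c (b (l 16167632) (b (l 16259104) (l 16338320))) (b (l 16165400) (b (l 16234120) (l 16319288)))) (b (b (l 583406090962658650779247) (l 587030012142133596712559)) (b (l 591578288357417053908527) (a (b (l 16645288) (l 16693184)) (l 16621440))))))) (b (a (b (a (b (l 16090736) (l 16165504)) (l 137445789728456815)) (a (b (l 16243264) (l 16323992)) (b (l 16239880) (l 16319048)))) (b (a (l 16125768) (l 16124344)) (a (l 16233496) (l 16270896)))) (a (b (a (b (l 586949595778951267118703) (l 590491947928413847727663)) (b (l 16400984) (l 16485608))) (b (a (l 591929641550021800552495) (l 16530888))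 (a (b (l 593933565936150508525615) (l 16656408)) (l 16599576)))) (b (c (l 16331448) (l 16322176)) (a (b (l 16540936) (l 16628336)) (b (l 16550568) (l 16635640)))))))) (b (a (b (a (b (l 15657232) (l 15757584)) (c (l 15769808) (l 15670488))) (a (b (l 15868592) (l 16063528)) (c (l 15968320) (l 15900232)))) (b (a (l 15733768) (l 15747088)) (a (c (l 15974856) (l 15902128)) (l 15943240)))) (a (b (a (b (c (l 16142256) (l 16101136)) (b (l 16226712) (l 16299936))) (b (l 16118192) (l 16253192))) (a (a (b (l 16419024) (l 16517680)) (b (l 16410184) (l 16567296))) (b (l 16312520) (c (l 16544592) (l 16548864))))) (b (a (b (l 16113936) (l 16241992)) (l 16024120)) (a (b (l 16356192) (l 16497128)) (b (l 16357128) (l 16488480))))))), by decide +kernel⟩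

def k2_pp_102_a : ∃ t, chk3 f_pp_102_a t 3 1 1 = true :=
  ⟨(b (a (b (a (c (l 15402264) (l 15245864)) (b (l 15352656) (l 15242464))) (a (b (a (l 15478056) (l 15505840)) (c (l 15691496) (l 15538736))) (c (l 15693608) (l 15514224)))) (b (a (c (l 15585200) (l 15384432)) (c (l 15673760) (l 15464456))) (a (c (l 15757776) (l 15568832)) (l 15560568)))) (a (b (a (b (a (l 15760928) (l 15775448)) (a (l 15947624) (l 15952312))) (b (l 15798888) (l 15729680))) (a (b (a (l 16099568) (l 16153952)) (b (a (l 16336504) (l 16315480)) (a (l 16458048) (l 16427000)))) (b (c (l 16172000) (l 16109896)) (c (l 16346400) (l 16298872))))) (b (a (b (l 15833816) (l 15952576)) (b (l 15874032) (l 15990664))) (a (b (c (l 16161744) (l 16088912)) (c (l 16298864) (l 16261488))) (b (c (l 16153440) (l 16070968)) (a (l 16241584) (l 16216192))))))), by decide +kernel⟩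

theorem s3_pp_102_a : ∃ t, chk3 f_pp_102_a t 2 1 1 = true := ex3_b k0_pp_102_a k1_pp_102_a

theorem s4_pp_102_a : ∃ t, chk3 f_pp_102_a t 1 1 1 = true := ex3_a s3_pp_102_a k2_pp_102_a

theorem c_pp_102_a : CertB 536870912 536870912 0 536870912 991146299 28908434 3 eng mog cd4q1 cd2q2a pd0 false true true .npp 1 0 2
    ndB4q1 ndB2q2a pcB0 cut_pp_102_a xt_pp_102_a :=
  certB2 (fam := false) (s1 := true) (s2 := true) (a := 1) (b := 0) (c := 2) (cn := .npp) (n1 := ndB4q1) (n2 := ndB2q2a) (pc := pcB0) (cut := cut_pp_102_a) (xt := xt_pp_102_a) (P1 := 536870912) (W1 := 536870912) (P2 := 0) (W2 := 536870912) (P3 := 991146299) (W3 := 28908434) (N0 := 3) (En := eng) (mo := mog) (C1 := cd4q1) (C2 := cd2q2a) (C3 := pd0)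
    rfl (fun _ => rfl) s4_pp_102_a

noncomputable def cut_pp_102_b : Cut := Cut.of [[⟨0, 1, 0, 53687091⟩, ⟨1, 0, 0, 53687091⟩, ⟨2, 1, 0, 53687091⟩]]

noncomputable def f_pp_102_b : ℕ → ℕ → ℕ → ℕ → Bool := onCell 536870912 536870912 0 536870912 991146299 28908434
    (rowB 3 eng mog cd4q1 cd2q2b pd0 1 false true true .npp 1 0 2 (qsf 536870912 536870912 1239849684 370763052 0) ndB4q1 ndB2q2b pcB0 cut_pp_102_b Ext.none)

def k0_pp_102_b : ∃ t, chk3 f_pp_102_b t 1 1 1 = true :=
  ⟨(a (b (l 1) (b (l 1) (a (l 1) (b (a (l 1) (l 472476988903)) (a (l 15616680) (l 15334720)))))) (b (a (l 1) (b (l 1) (b (a (l 1) (b (a (l 1) (l 270613696215)) (a (l 15296264) (l 15067288)))) (a (b (l 441875136551) (c (l 15307912) (l 15217920))) (b (c (l 15046792) (l 14952064)) (c (l 14889568) (l 14755560))))))) (b (a (b (a (l 1) (b (l 15497056) (l 15337544))) (a (l 463350008823) (b (l 15187240) (l 15047040)))) (b (a (b (l 15094584) (l 14934504)) (b (l 14654936) (l 14495784))) (a (c (l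 14812192) (l 14607984)) (c (l 14394440) (l 14152392))))) (a (b (a (l 15221064) (l 14856216)) (a (l 15009392) (l 14645824))) (b (a (l 14455480) (l 14024496)) (a (l 14249400) (l 13826064))))))), by decide +kernel⟩

theorem c_pp_102_b : CertB 536870912 536870912 1239849684 370763052 991146299 28908434 3 eng mog cd4q1 cd2q2b pd0 false true true .npp 1 0 2
    ndB4q1 ndB2q2b pcB0 cut_pp_102_b Ext.none :=
  certB1 (fam := false) (s1 := true) (s2 := true) (a := 1) (b := 0) (c := 2) (cn := .npp) (n1 := ndB4q1) (n2 := ndB2q2b) (pc := pcB0) (cut := cut_pp_102_b) (xt := Ext.none) (P1 := 536870912) (W1 := 536870912) (P2 := 1239849684) (W2 := 370763052) (P3 := 991146299) (W3 := 28908434) (N0 := 3) (En := eng) (mo := mog) (C1 := cd4q1) (C2 := cd2q2b) (C3 := pd0)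
    rfl (fun _ => rfl) k0_pp_102_b

noncomputable def f_pp_112_a : ℕ → ℕ → ℕ → ℕ → Bool := onCell 536870912 536870912 0 536870912 991146299 28908434
    (rowB 3 eng mog cd4q1 cd2q2a pd1 2 false true true .dn 1 1 2 (qsf 536870912 536870912 0 536870912 1) ndB4q1 ndB2q2a pcB1 Cut.none Ext.none)

def k0_pp_112_a : ∃ t, chk3 f_pp_112_a t 1 1 1 = true :=
  ⟨(a (b (a (b (a (l 15064168) (l 15193744)) (a (l 15289240) (l 15372624))) (a (b (l 15305240) (l 15431928)) (l 1))) (a (b (a (b (l 15618680) (l 15849344)) (b (l 15644112) (l 15830416))) (a (b (l 16076552) (b (l 16230688) (l 16188520))) (b (l 16008584) (l 1)))) (b (l 1) (l 1)))) (l 1)), by decide +kernel⟩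

theorem c_pp_112_a : CertB 536870912 536870912 0 536870912 991146299 28908434 3 eng mog cd4q1 cd2q2a pd1 false true true .dn 1 1 2
    ndB4q1 ndB2q2a pcB1 Cut.none Ext.none :=
  certB2 (fam := false) (s1 := true) (s2 := true) (a := 1) (b := 1) (c := 2) (cn := .dn) (n1 := ndB4q1) (n2 := ndB2q2a) (pc := pcB1) (cut := Cut.none) (xt := Ext.none) (P1 := 536870912) (W1 := 536870912) (P2 := 0) (W2 := 536870912) (P3 := 991146299) (W3 := 28908434) (N0 := 3) (En := eng) (mo := mog) (C1 := cd4q1) (C2 := cd2q2a) (C3 := pd1)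
    rfl (fun _ => rfl) k0_pp_112_a

noncomputable def f_pp_112_b : ℕ → ℕ → ℕ → ℕ → Bool := onCell 536870912 536870912 1239849684 370763052 991146299 28908434
    (rowB 3 eng mog cd4q1 cd2q2b pd1 2 false true true .dn 1 1 2 (qsf 536870912 536870912 1239849684 370763052 1) ndB4q1 ndB2q2b pcB1 Cut.none Ext.none)

def k0_pp_112_b : ∃ t, chk3 f_pp_112_b t 1 1 1 = true :=
  ⟨(a (b (a (b (a (l 14921376) (l 15081736)) (a (l 14493656) (l 14729176))) (b (a (l 15218856) (l 15326888)) (l 15029736))) (a (b (a (l 13998824) (l 14303184)) (a (l 13458528) (l 13823824))) (b (l 14700232) (l 14140208)))) (b (a (b (l 1) (l 15290296)) (l 1)) (a (b (l 15067096) (l 14769728)) (b (l 15190584) (l 14955272))))), by decide +kernel⟩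

theorem c_pp_112_b : CertB 536870912 536870912 1239849684 370763052 991146299 28908434 3 eng mog cd4q1 cd2q2b pd1 false true true .dn 1 1 2
    ndB4q1 ndB2q2b pcB1 Cut.none Ext.none :=
  certB2 (fam := false) (s1 := true) (s2 := true) (a := 1) (b := 1) (c := 2) (cn := .dn) (n1 := ndB4q1) (n2 := ndB2q2b) (pc := pcB1) (cut := Cut.none) (xt := Ext.none) (P1 := 536870912) (W1 := 536870912) (P2 := 1239849684) (W2 := 370763052) (P3 := 991146299) (W3 := 28908434) (N0 := 3) (En := eng) (mo := mog) (C1 := cd4q1) (C2 := cd2q2b) (C3 := pd1)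
    rfl (fun _ => rfl) k0_pp_112_b

noncomputable def f_pp_113 : ℕ → ℕ → ℕ → ℕ → Bool := onCell 536870912 536870912 536870912 536870912 991146299 28908434
    (rowB 3 eng mog cd4q1 cd2q3 pd1 1 false true true .nn 1 1 3 (qsf 536870912 536870912 1610612736 536870912 1) ndB4q1 ndB2q3 pcB1 Cut.none Ext.none)

def k0_pp_113 : ∃ t, chk3 f_pp_113 t 1 1 1 = true :=
  ⟨(b (a (b (l 1) (a (l 1) (b (l 1) (l 14670216)))) (b (a (b (l 1) (l 13967000)) (b (a (l 13349592) (l 12929480)) (a (l 13391496) (l 13007848)))) (a (b (l 13997024) (l 14037824)) (b (a (l 13465096) (l 13118240)) (a (l 13551648) (l 13247824)))))) (a (b (a (l 469255052551) (b (l 14667832) (l 14627184))) (a (b (l 15083056) (l 14905520)) (b (l 14518936) (l 14310808)))) (b (a (b (l 14066512) (l 14063592)) (b (a (l 13640176) (l 13403920)) (a (l 13743424) (l 13657624)))) (a (b (l 14018040) (l 13926608)) (b (l 14065120) (a (l 14467288) (l 16778848))))))), by decide +kernel⟩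

theorem c_pp_113 : CertB 536870912 536870912 1610612736 536870912 991146299 28908434 3 eng mog cd4q1 cd2q3 pd1 false true true .nn 1 1 3
    ndB4q1 ndB2q3 pcB1 Cut.none Ext.none :=
  certB1 (fam := false) (s1 := true) (s2 := true) (a := 1) (b := 1) (c := 3) (cn := .nn) (n1 := ndB4q1) (n2 := ndB2q3) (pc := pcB1) (cut := Cut.none) (xt := Ext.none) (P1 := 536870912) (W1 := 536870912) (P2 := 1610612736) (W2 := 536870912) (P3 := 991146299) (W3 := 28908434) (N0 := 3) (En := eng) (mo := mog) (C1 := cd4q1) (C2 := cd2q3) (C3 := pd1)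
    rfl (fun _ => rfl) k0_pp_113

noncomputable def f_pp_123 : ℕ → ℕ → ℕ → ℕ → Bool := onCell 1073741824 536870912 1610612736 536870912 991146299 28908434
    (rowB 3 eng mog cd4q1 cd2q3 pd2 2 false true true .npn 1 2 3 (qsf 536870912 536870912 1610612736 536870912 2) ndB4q1 ndB2q3 pcB2 Cut.none Ext.none)

def k0_pp_123 : ∃ t, chk3 f_pp_123 t 1 1 1 = true :=
  ⟨(a (b (a (a (b (l 15169128) (b (l 14731144) (l 14474232))) (b (l 517573689863) (a (l 14829728) (l 14998168)))) (a (b (l 15384648) (l 15265936)) (b (l 1) (l 15630528)))) (a (b (a (a (l 14203696) (l 14406528)) (a (l 14638288) (l 14885024))) (a (b (l 15589176) (l 17006512)) (b (l 15259992) (l 4)))) (b (a (a (l 15122848) (l 4)) (l 4)) (l 4)))) (b (a (b (l 1) (l 4)) (l 1)) (l 4))), by decide +kernel⟩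

theorem c_pp_123 : CertB 536870912 536870912 1610612736 536870912 991146299 28908434 3 eng mog cd4q1 cd2q3 pd2 false true true .npn 1 2 3
    ndB4q1 ndB2q3 pcB2 Cut.none Ext.none :=
  certB2 (fam := false) (s1 := true) (s2 := true) (a := 1) (b := 2) (c := 3) (cn := .npn) (n1 := ndB4q1) (n2 := ndB2q3) (pc := pcB2) (cut := Cut.none) (xt := Ext.none) (P1 := 536870912) (W1 := 536870912) (P2 := 1610612736) (W2 := 536870912) (P3 := 991146299) (W3 := 28908434) (N0 := 3) (En := eng) (mo := mog) (C1 := cd4q1) (C2 := cd2q3) (C3 := pd2)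
    rfl (fun _ => rfl) k0_pp_123

noncomputable def f_pp_133 : ℕ → ℕ → ℕ → ℕ → Bool := onCell 1610612736 536870912 1610612736 536870912 991146299 28908434
    (rowB 3 eng mog cd4q1 cd2q3 pd3 2 false true true .dn 1 3 3 (qsf 536870912 536870912 1610612736 536870912 3) ndB4q1 ndB2q3 pcB3 Cut.none Ext.none)

def k0_pp_133 : ∃ t, chk3 f_pp_133 t 1 1 1 = true :=
  ⟨(a (b (l 1) (l 4)) (l 1)), by decide +kernel⟩

theorem c_pp_133 : CertB 536870912 536870912 1610612736 536870912 991146299 28908434 3 eng mog cd4q1 cd2q3 pd3 false true true .dn 1 3 3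
    ndB4q1 ndB2q3 pcB3 Cut.none Ext.none :=
  certB2 (fam := false) (s1 := true) (s2 := true) (a := 1) (b := 3) (c := 3) (cn := .dn) (n1 := ndB4q1) (n2 := ndB2q3) (pc := pcB3) (cut := Cut.none) (xt := Ext.none) (P1 := 536870912) (W1 := 536870912) (P2 := 1610612736) (W2 := 536870912) (P3 := 991146299) (W3 := 28908434) (N0 := 3) (En := eng) (mo := mog) (C1 := cd4q1) (C2 := cd2q3) (C3 := pd3)
    rfl (fun _ => rfl) k0_pp_133

noncomputable def f_pp_202_a : ℕ → ℕ → ℕ → ℕ → Bool := onCell 1073741824 536870912 0 536870912 991146299 28908434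
    (rowB 3 eng mog cd4q2 cd2q2a pd0 0 false true true .pp 2 0 2 (qsf 1073741824 536870912 0 536870912 0) ndB4q2 ndB2q2a pcB0 Cut.none Ext.none)

def k0_pp_202_a : ∃ t, chk3 f_pp_202_a t 1 1 1 = true :=
  ⟨(l 3), by decide +kernel⟩

theorem c_pp_202_a : CertB 1073741824 536870912 0 536870912 991146299 28908434 3 eng mog cd4q2 cd2q2a pd0 false true true .pp 2 0 2
    ndB4q2 ndB2q2a pcB0 Cut.none Ext.none :=
  certB0 (fam := false) (s1 := true) (s2 := true) (a := 2) (b := 0) (c := 2) (cn := .pp) (n1 := ndB4q2) (n2 := ndB2q2a) (pc := pcB0) (cut := Cut.none) (xt := Ext.none) (P1 := 1073741824) (W1 := 536870912) (P2 := 0) (W2 := 536870912) (P3 := 991146299) (W3 := 28908434) (N0 := 3) (En := eng) (mo := mog) (C1 := cd4q2) (C2 := cd2q2a) (C3 := pd0)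
    rfl k0_pp_202_a

noncomputable def f_pp_202_b : ℕ → ℕ → ℕ → ℕ → Bool := onCell 1073741824 536870912 1239849684 370763052 991146299 28908434
    (rowB 3 eng mog cd4q2 cd2q2b pd0 0 false true true .pp 2 0 2 (qsf 1073741824 536870912 1239849684 370763052 0) ndB4q2 ndB2q2b pcB0 Cut.none Ext.none)

def k0_pp_202_b : ∃ t, chk3 f_pp_202_b t 1 1 1 = true :=
  ⟨(a (b (l 3) (a (b (l 3) (a (b (a (a (b (l 3) (l 195050056999)) (l 3)) (l 3)) (a (c (b (l 15845768) (l 15853088)) (b (l 16066344) (l 16115312))) (b (l 162300465671) (c (l 15757160) (l 15938640))))) (l 3))) (l 3))) (l 3)), by decide +kernel⟩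

theorem c_pp_202_b : CertB 1073741824 536870912 1239849684 370763052 991146299 28908434 3 eng mog cd4q2 cd2q2b pd0 false true true .pp 2 0 2
    ndB4q2 ndB2q2b pcB0 Cut.none Ext.none :=
  certB0 (fam := false) (s1 := true) (s2 := true) (a := 2) (b := 0) (c := 2) (cn := .pp) (n1 := ndB4q2) (n2 := ndB2q2b) (pc := pcB0) (cut := Cut.none) (xt := Ext.none) (P1 := 1073741824) (W1 := 536870912) (P2 := 1239849684) (W2 := 370763052) (P3 := 991146299) (W3 := 28908434) (N0 := 3) (En := eng) (mo := mog) (C1 := cd4q2) (C2 := cd2q2b) (C3 := pd0)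
    rfl k0_pp_202_b

end Pool.Agent.Strip051.G.I9231_9500.Tab.C.BB42

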