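import Pool.Agent.Strip051.PB.DgE
import Pool.Agent.Strip051.PB.DgJ
import Pool.Agent.Strip051.G.I9231_9500.Fact

/-! # The corner (1, 1, 2): parameters of the degenerate charts (generated) -/

set_option linter.all false

namespace Pool.Agent.Strip051.G.I9231_9500.Tab.DG

open Pool.Agent.Strip051.PB Pool.Agent.Strip051.PB.Dg Pool.Agent.StripNear Pool.Agent.Strip051.LC

noncomputable def pFma : Fn1 := ⟨_, _, fun h1 => (enc_norm (enc_sub (enc_rat _ 20517 100000) (enc_scaleT 541 400 (enc_subr 487 520 h1))))⟩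
noncomputable def pFmb : Fn1 := ⟨_, _, fun h1 => (enc_norm (enc_subr 4892759 6000000 (enc_neg (enc_scaleT 639961 300000 (enc_subr 487 520 h1)))))⟩
noncomputable def pFmu : Fn1 := ⟨_, _, fun h1 => (mug3.enc h1)⟩
noncomputable def pFnx : Fn1 := ⟨_, _, fun h1 => (enc_norm (enc_add h1 (enc_pnc _ 3)))⟩
noncomputable def pFc0 : Fn1 := ⟨_, _, fun h1 => (enc_pnc _ 1)⟩
noncomputable def pFkc : Fn1 := ⟨_, _, fun h1 => (enc_norm (enc_sub (enc_rat _ 1018516967 1000000000) (enc_scaleT 2327259 5000000 (enc_subr 487 520 h1))))⟩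
noncomputable def pFjc : Fn1 := ⟨_, _, fun h1 => (enc_norm (enc_add (enc_scaleT 43188279 2500000 (enc_subr 487 520 h1)) (enc_rat _ 135817977 25000000)))⟩
noncomputable def pFca : Fn1 := ⟨_, _, fun h1 => (enc_norm (enc_sub (enc_rat _ 3509 2000) (enc_scaleT 1173 50 (enc_subr 487 520 h1))))⟩
noncomputable def pFcb : Fn1 := ⟨_, _, fun h1 => (enc_norm (enc_subr 529 2000 (enc_scaleT 249 20 (enc_subr 487 520 h1))))⟩
noncomputable def pFcc : Fn1 := ⟨_, _, fun h1 => (enc_norm (enc_subr 3 250 (enc_neg (enc_half (enc_subr 487 520 h1)))))⟩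
noncomputable def pFsv : Fn1 := ⟨_, _, fun h1 => (enc_norm (enc_subr 9 256 h1))⟩
noncomputable def pFx11 : Fn1 := ⟨_, _, fun h1 => (cv1m.enc h1)⟩
noncomputable def pFx01 : Fn1 := ⟨_, _, fun h1 => (c1g.enc h1)⟩
noncomputable def pFK11 : Fn2 := ⟨_, _, fun h1 h2 => (kf1q1.enc h1 h2)⟩
noncomputable def pFK01 : Fn2 := ⟨_, _, fun h1 h2 => (kf0q1.enc h1 h2)⟩
noncomputable def pFL11 : Fn2 := ⟨_, _, fun h1 h2 => (l1q1.enc h1 h2)⟩
noncomputable def pFL01 : Fn2 := ⟨_, _, fun h1 h2 => (l0q1.enc h1 h2)⟩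
noncomputable def kFc0 : Fn1 := ⟨_, _, fun h1 => (enc_norm (enc_subr 1 75000000 (enc_neg (enc_scaleT 1 3750000 (enc_subr 487 520 h1)))))⟩
noncomputable def kFc0g : Fn1 := ⟨_, _, fun h1 => (enc_norm (enc_subr 9 500 (enc_neg (enc_scaleT 14 5 (enc_subr 487 520 h1)))))⟩
noncomputable def kFc1 : Fn1 := ⟨_, _, fun h1 => (enc_norm (enc_add (enc_scaleT 100873 242683800000 (enc_subr 487 520 h1)) (enc_rat _ 442277 24268380000000)))⟩
noncomputable def kFc1g : Fn1 := ⟨_, _, fun h1 => (enc_norm (enc_subr 38977 250 (enc_neg (enc_scaleT 13356 25 (enc_subr 487 520 h1)))))⟩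
noncomputable def kFa0 : Fn1 := ⟨_, _, fun h1 => (enc_pnc _ 0)⟩
noncomputable def kFa0g : Fn1 := ⟨_, _, fun h1 => (enc_norm (enc_subr 649 2000 (enc_scaleT 1767 100 (enc_subr 487 520 h1))))⟩
noncomputable def kFa1 : Fn1 := ⟨_, _, fun h1 => (enc_pnc _ 0)⟩
noncomputable def kFa1g : Fn1 := ⟨_, _, fun h1 => (enc_norm (enc_subr 9003 2000 (enc_scaleT 237 40 (enc_subr 487 520 h1))))⟩
noncomputable def kFa2 : Fn1 := ⟨_, _, fun h1 => (enc_pnc _ 0)⟩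
noncomputable def kFa2g : Fn1 := ⟨_, _, fun h1 => (enc_norm (enc_add (enc_scaleT 69 40 (enc_subr 487 520 h1)) (enc_rat _ 749 250)))⟩
noncomputable def kFb0 : Fn1 := ⟨_, _, fun h1 => (enc_norm (enc_subr 1 2000000 (enc_scaleT 1 120000 (enc_subr 487 520 h1))))⟩
noncomputable def kFb0g : Fn1 := ⟨_, _, fun h1 => (enc_norm (enc_sub (enc_rat _ 253 2000) (enc_scaleT 161 40 (enc_subr 487 520 h1))))⟩
noncomputable def kFb1 : Fn1 := ⟨_, _, fun h1 => (enc_norm (enc_sub (enc_rat _ 1 3000000) (enc_scaleT 1 200000 (enc_subr 487 520 h1))))⟩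
noncomputable def kFb1g : Fn1 := ⟨_, _, fun h1 => (enc_norm (enc_subr 97 500 (enc_scaleT 249 25 (enc_subr 487 520 h1))))⟩
noncomputable def kFb2 : Fn1 := ⟨_, _, fun h1 => (enc_pnc _ 0)⟩
noncomputable def kFb2g : Fn1 := ⟨_, _, fun h1 => (enc_norm (enc_sub (enc_rat _ 3961 2000) (enc_scaleT 279 8 (enc_subr 487 520 h1))))⟩
noncomputable def kFb3_2 : Fn1 := ⟨_, _, fun h1 => (enc_subr 487 520 h1)⟩
noncomputable def kFb3 : Fn1 := ⟨_, _, fun h1 => (enc_norm (enc_add (enc_mul (enc_norm (enc_sub (enc_rat _ 25431313 7275856250000) (enc_scaleT 5091111 111936250000 (kFb3_2.enc h1)))) (enc_norm (kFb3_2.enc h1))) (enc_rat _ 878492457 1164137000000000)))⟩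
noncomputable def kFb3g_2 : Fn1 := ⟨_, _, fun h1 => (enc_subr 487 520 h1)⟩
noncomputable def kFb3g : Fn1 := ⟨_, _, fun h1 => (enc_norm (enc_add (enc_mul (enc_norm (enc_sub (enc_rat _ 10823 500) (enc_scaleT 16867 100 (kFb3g_2.enc h1)))) (enc_norm (kFb3g_2.enc h1))) (enc_rat _ 5921 10000)))⟩
noncomputable def kFd0 : Fn1 := ⟨_, _, fun h1 => (enc_norm (enc_subr 1 1000000 (enc_scaleT 1 60000 (enc_subr 487 520 h1))))⟩
noncomputable def kFd0g : Fn1 := ⟨_, _, fun h1 => (enc_norm (enc_sub (enc_rat _ 253 1000) (enc_scaleT 161 20 (enc_subr 487 520 h1))))⟩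
noncomputable def kFd1 : Fn1 := ⟨_, _, fun h1 => (enc_pnc _ 0)⟩
noncomputable def kFd1g : Fn1 := ⟨_, _, fun h1 => (enc_norm (enc_subr 649 2000 (enc_scaleT 1767 100 (enc_subr 487 520 h1))))⟩
noncomputable def kFd2 : Fn1 := ⟨_, _, fun h1 => (enc_norm (enc_sub (enc_rat _ 1 1500000) (enc_scaleT 1 100000 (enc_subr 487 520 h1))))⟩
noncomputable def kFd2g : Fn1 := ⟨_, _, fun h1 => (enc_norm (enc_subr 97 250 (enc_scaleT 498 25 (enc_subr 487 520 h1))))⟩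
noncomputable def kFd3 : Fn1 := ⟨_, _, fun h1 => (enc_pnc _ 0)⟩
noncomputable def kFd3g : Fn1 := ⟨_, _, fun h1 => (enc_norm (enc_subr 1081 2000 (enc_neg (enc_scaleT 2553 40 (enc_subr 487 520 h1)))))⟩
noncomputable def kFd4_2 : Fn1 := ⟨_, _, fun h1 => (enc_subr 487 520 h1)⟩
noncomputable def kFd4 : Fn1 := ⟨_, _, fun h1 => (enc_norm (enc_add (enc_mul (enc_norm (enc_sub (enc_rat _ 25431313 3637928125000) (enc_scaleT 5091111 55968125000 (kFd4_2.enc h1)))) (enc_norm (kFd4_2.enc h1))) (enc_rat _ 878492457 582068500000000)))⟩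
noncomputable def kFd4g_2 : Fn1 := ⟨_, _, fun h1 => (enc_subr 487 520 h1)⟩
noncomputable def kFd4g : Fn1 := ⟨_, _, fun h1 => (enc_norm (enc_add (enc_mul (enc_norm (enc_sub (enc_rat _ 10823 250) (enc_scaleT 16867 50 (kFd4g_2.enc h1)))) (enc_norm (kFd4g_2.enc h1))) (enc_rat _ 5921 5000)))⟩
noncomputable def kFd5 : Fn1 := ⟨_, _, fun h1 => (enc_pnc _ 0)⟩
noncomputable def kFd5g : Fn1 := ⟨_, _, fun h1 => (enc_norm (enc_add (enc_scaleT 69 40 (enc_subr 487 520 h1)) (enc_rat _ 749 250)))⟩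
noncomputable def kFe0 : Fn1 := ⟨_, _, fun h1 => (enc_norm (enc_subr 1 2000000 (enc_scaleT 1 120000 (enc_subr 487 520 h1))))⟩
noncomputable def kFe0g : Fn1 := ⟨_, _, fun h1 => (enc_norm (enc_sub (enc_rat _ 253 2000) (enc_scaleT 161 40 (enc_subr 487 520 h1))))⟩
noncomputable def kFe1 : Fn1 := ⟨_, _, fun h1 => (enc_pnc _ 0)⟩
noncomputable def kFe1g : Fn1 := ⟨_, _, fun h1 => (enc_norm (enc_subr 649 2000 (enc_scaleT 1767 100 (enc_subr 487 520 h1))))⟩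
noncomputable def kFe2 : Fn1 := ⟨_, _, fun h1 => (enc_norm (enc_sub (enc_rat _ 1 3000000) (enc_scaleT 1 200000 (enc_subr 487 520 h1))))⟩
noncomputable def kFe2g : Fn1 := ⟨_, _, fun h1 => (enc_norm (enc_subr 97 500 (enc_scaleT 249 25 (enc_subr 487 520 h1))))⟩
noncomputable def kFe3 : Fn1 := ⟨_, _, fun h1 => (enc_pnc _ 0)⟩
noncomputable def kFe3g : Fn1 := ⟨_, _, fun h1 => (enc_norm (enc_subr 2521 1000 (enc_neg (enc_scaleT 579 20 (enc_subr 487 520 h1)))))⟩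
noncomputable def kFe4_2 : Fn1 := ⟨_, _, fun h1 => (enc_subr 487 520 h1)⟩
noncomputable def kFe4 : Fn1 := ⟨_, _, fun h1 => (enc_norm (enc_add (enc_mul (enc_norm (enc_sub (enc_rat _ 25431313 7275856250000) (enc_scaleT 5091111 111936250000 (kFe4_2.enc h1)))) (enc_norm (kFe4_2.enc h1))) (enc_rat _ 878492457 1164137000000000)))⟩
noncomputable def kFe4g_2 : Fn1 := ⟨_, _, fun h1 => (enc_subr 487 520 h1)⟩
noncomputable def kFe4g : Fn1 := ⟨_, _, fun h1 => (enc_norm (enc_add (enc_mul (enc_norm (enc_sub (enc_rat _ 10823 500) (enc_scaleT 16867 100 (kFe4g_2.enc h1)))) (enc_norm (kFe4g_2.enc h1))) (enc_rat _ 5921 10000)))⟩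
noncomputable def kFe5 : Fn1 := ⟨_, _, fun h1 => (enc_pnc _ 0)⟩
noncomputable def kFe5g : Fn1 := ⟨_, _, fun h1 => (enc_norm (enc_add (enc_scaleT 69 40 (enc_subr 487 520 h1)) (enc_rat _ 749 250)))⟩
noncomputable def cFxs1 : Fn1 := ⟨_, _, fun h1 => (enc_norm (enc_add (enc_scaleT 3 4 (dgxi.enc h1)) (enc_scaleT 1 4 (dgws.enc h1))))⟩
noncomputable def cFsB1 : Fn2 := ⟨_, _, fun h1 h2 => (enc_norm (enc_subr 1906 625 (enc_neg (enc_scaleT 10617 500 (enc_subr 487 520 h2)))))⟩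
noncomputable def cFBs1 : Fn2 := ⟨_, _, fun h1 h2 => (cFsB1.enc h1 h2)⟩
noncomputable def cFsX1 : Fn2 := ⟨_, _, fun h1 h2 => (enc_norm (enc_subr 7191 5000 (enc_neg (enc_scaleT 1961 250 (enc_subr 487 520 h2)))))⟩
noncomputable def cFsD1 : Fn2 := ⟨_, _, fun h1 h2 => (enc_norm (enc_subr 12373 433 (enc_scaleT 137110 433 (enc_subr 487 520 h2))))⟩
noncomputable def cFsDD1 : Fn2 := ⟨_, _, fun h1 h2 => (cFsD1.enc h1 h2)⟩
noncomputable def cFxs2 : Fn1 := ⟨_, _, fun h1 => (enc_norm (enc_add (enc_scaleT 7 20 (dgxi.enc h1)) (enc_scaleT 13 20 (dgws.enc h1))))⟩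
noncomputable def cFsB2 : Fn2 := ⟨_, _, fun h1 h2 => (enc_norm (enc_subr 4799 1250 (enc_neg (enc_scaleT 4213 500 (enc_subr 487 520 h2)))))⟩
noncomputable def cFBs2 : Fn2 := ⟨_, _, fun h1 h2 => (cFsB2.enc h1 h2)⟩
noncomputable def cFsX2 : Fn2 := ⟨_, _, fun h1 h2 => (enc_norm (enc_subr 181 250 (enc_neg (enc_scaleT 161 50 (enc_subr 487 520 h2)))))⟩
noncomputable def cFsD2 : Fn2 := ⟨_, _, fun h1 h2 => (enc_norm (enc_sub (enc_rat _ 6425 433) (enc_scaleT 20670 433 (enc_subr 487 520 h2))))⟩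
noncomputable def cFsDD2 : Fn2 := ⟨_, _, fun h1 h2 => (cFsD2.enc h1 h2)⟩
noncomputable def nFsc2 : Fn1 := ⟨_, _, fun h1 => (enc_scaleT 13 20 h1)⟩
noncomputable def nFB2_3 : Fn2 := ⟨_, _, fun h1 h2 => (enc_subr 487 520 h2)⟩
noncomputable def nFB2 : Fn2 := ⟨_, _, fun h1 h2 => (enc_norm (enc_add (enc_subr 6603 12500 (enc_neg (enc_scaleT 809 10000 (nFB2_3.enc h1 h2)))) (enc_mul h1 (enc_norm (enc_sub (enc_rat _ 178525000 122167917) (enc_scaleT 331700000 40722639 (nFB2_3.enc h1 h2)))))))⟩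
noncomputable def nFX2_3 : Fn2 := ⟨_, _, fun h1 h2 => (enc_subr 487 520 h2)⟩
noncomputable def nFX2 : Fn2 := ⟨_, _, fun h1 h2 => (enc_norm (enc_add (enc_add (enc_scaleT 7339 2500 (nFX2_3.enc h1 h2)) (enc_rat _ 85547 100000)) (enc_mul h1 (enc_norm (enc_sub (enc_rat _ 6935000 40722639) (enc_scaleT 700250000 122167917 (nFX2_3.enc h1 h2)))))))⟩
noncomputable def nFD2_3 : Fn2 := ⟨_, _, fun h1 h2 => (enc_subr 487 520 h2)⟩
noncomputable def nFD2 : Fn2 := ⟨_, _, fun h1 h2 => (enc_norm (enc_add (enc_sub (enc_rat _ 839 625) (enc_scaleT 5249 50 (nFD2_3.enc h1 h2))) (enc_mul h1 (enc_norm (enc_add (enc_scaleT 4942000000 29871697 (nFD2_3.enc h1 h2)) (enc_rat _ 3213275000 89615091))))))⟩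
noncomputable def nFsc3 : Fn1 := ⟨_, _, fun h1 => (enc_norm (enc_add (enc_scaleT 8907 10000 h1) (enc_rat _ 1093 10000)))⟩
noncomputable def nFB3 : Fn2 := ⟨_, _, fun h1 h2 => (enc_norm (enc_subr 272905000 122167917 (enc_neg (enc_scaleT 378900000 13574213 (enc_subr 487 520 h2)))))⟩
noncomputable def nFX3 : Fn2 := ⟨_, _, fun h1 h2 => (enc_norm (enc_sub (enc_rat _ 145987750 366503751) (enc_scaleT 1099280000 366503751 (enc_subr 487 520 h2))))⟩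
noncomputable def nFD3 : Fn2 := ⟨_, _, fun h1 h2 => (enc_norm (enc_add (enc_scaleT 8203480732931 59862880788 (enc_subr 487 520 h2)) (enc_rat _ 8133043644523 598628807880)))⟩
noncomputable def nFsc4 : Fn1 := ⟨_, _, fun h1 => (enc_norm (enc_add (enc_scaleT 3 10 h1) (enc_rat _ 7 10)))⟩
noncomputable def nFB4 : Fn2 := ⟨_, _, fun h1 h2 => (enc_norm (enc_subr 91810000 122167917 (enc_neg (enc_scaleT 166550000 122167917 (enc_subr 487 520 h2)))))⟩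
noncomputable def nFX4 : Fn2 := ⟨_, _, fun h1 h2 => (enc_norm (enc_subr 24802250 366503751 (enc_neg (enc_scaleT 139130000 366503751 (enc_subr 487 520 h2)))))⟩
noncomputable def nFD4 : Fn2 := ⟨_, _, fun h1 h2 => (enc_norm (enc_sub (enc_rat _ 146273050000 14965720197) (enc_scaleT 5444164000000 4988573399 (enc_subr 487 520 h2))))⟩
noncomputable def l12F : List Knk := [⟨1, 40, kFc0, kFc0g⟩, ⟨1, 25, kFc1, kFc1g⟩]
noncomputable def laF : List Knk := [⟨1, 50, kFa0, kFa0g⟩, ⟨1, 25, kFa1, kFa1g⟩, ⟨3, 50, kFa2, kFa2g⟩]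
noncomputable def lbF : List Knk := [⟨3, 200, kFb0, kFb0g⟩, ⟨3, 100, kFb1, kFb1g⟩, ⟨1, 25, kFb2, kFb2g⟩, ⟨1, 20, kFb3, kFb3g⟩]
noncomputable def l1F : List Knk := [⟨3, 200, kFe0, kFe0g⟩, ⟨1, 50, kFe1, kFe1g⟩, ⟨3, 100, kFe2, kFe2g⟩, ⟨1, 25, kFe3, kFe3g⟩, ⟨1, 20, kFe4, kFe4g⟩, ⟨3, 50, kFe5, kFe5g⟩]
noncomputable def l2F : List Knk := [⟨3, 200, kFd0, kFd0g⟩, ⟨1, 50, kFd1, kFd1g⟩, ⟨3, 100, kFd2, kFd2g⟩, ⟨1, 25, kFd3, kFd3g⟩, ⟨1, 20, kFd4, kFd4g⟩, ⟨3, 50, kFd5, kFd5g⟩]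
noncomputable def cvF1 : CvP := ⟨cFxs1, cFBs1, cFsX1⟩
noncomputable def cvF2 : CvP := ⟨cFxs2, cFBs2, cFsX2⟩
noncomputable def ndF2 : NdU := ⟨nFsc2, nFB2, nFX2, nFD2⟩
noncomputable def ndF3 : NdU := ⟨nFsc3, nFB3, nFX3, nFD3⟩
noncomputable def ndF4 : NdU := ⟨nFsc4, nFB4, nFX4, nFD4⟩
noncomputable def pF : Pm := ⟨pFma, pFmb, pFmu, pFnx, pFc0, pFkc, pFjc, pFkc, pFjc, pFkc, pFjc, pFca, pFcb, pFcc, pFcc, pFcc, pFsv, l12F, l12F, l12F, laF, lbF, l1F, l2F, cvF1, pFx11, pFx01, pFK11, pFK01, pFL11, pFL01⟩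
noncomputable def pNc0 : Fn1 := ⟨_, _, fun h1 => (eng.enc h1)⟩
noncomputable def pNkc : Fn1 := ⟨_, _, fun h1 => (enc_norm (enc_mul (pNc0.enc h1) (enc_norm (enc_sub (enc_rat _ 1018516967 1000000000) (enc_scaleT 2327259 5000000 (enc_subr 487 520 h1))))))⟩
noncomputable def pNjc : Fn1 := ⟨_, _, fun h1 => (enc_norm (enc_mul (pNc0.enc h1) (enc_norm (enc_add (enc_scaleT 43188279 2500000 (enc_subr 487 520 h1)) (enc_rat _ 135817977 25000000)))))⟩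
noncomputable def pNcc : Fn1 := ⟨_, _, fun h1 => (enc_norm (enc_mul (pNc0.enc h1) (enc_norm (enc_subr 3 250 (enc_neg (enc_half (enc_subr 487 520 h1)))))))⟩
noncomputable def pNK11 : Fn2 := ⟨_, _, fun h1 h2 => (enc_norm (enc_mul (pNc0.enc h2) (kf1q1.enc h1 h2)))⟩
noncomputable def pNK01 : Fn2 := ⟨_, _, fun h1 h2 => (enc_norm (enc_mul (pNc0.enc h2) (kf0q1.enc h1 h2)))⟩
noncomputable def kNc0 : Fn1 := ⟨_, _, fun h1 => (enc_norm (enc_mul (pNc0.enc h1) (enc_norm (enc_subr 1 75000000 (enc_neg (enc_scaleT 1 3750000 (enc_subr 487 520 h1)))))))⟩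
noncomputable def kNc0g : Fn1 := ⟨_, _, fun h1 => (enc_norm (enc_mul (pNc0.enc h1) (enc_norm (enc_subr 9 500 (enc_neg (enc_scaleT 14 5 (enc_subr 487 520 h1)))))))⟩
noncomputable def kNc1 : Fn1 := ⟨_, _, fun h1 => (enc_norm (enc_mul (pNc0.enc h1) (enc_norm (enc_add (enc_scaleT 100873 242683800000 (enc_subr 487 520 h1)) (enc_rat _ 442277 24268380000000)))))⟩
noncomputable def kNc1g : Fn1 := ⟨_, _, fun h1 => (enc_norm (enc_mul (pNc0.enc h1) (enc_norm (enc_subr 38977 250 (enc_neg (enc_scaleT 13356 25 (enc_subr 487 520 h1)))))))⟩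
noncomputable def cNBs1 : Fn2 := ⟨_, _, fun h1 h2 => (enc_norm (enc_mul (pNc0.enc h2) (cFsB1.enc h1 h2)))⟩
noncomputable def cNBs2 : Fn2 := ⟨_, _, fun h1 h2 => (enc_norm (enc_mul (pNc0.enc h2) (cFsB2.enc h1 h2)))⟩
noncomputable def nNB2_4 : Fn2 := ⟨_, _, fun h1 h2 => (enc_subr 487 520 h2)⟩
noncomputable def nNB2 : Fn2 := ⟨_, _, fun h1 h2 => (enc_norm (enc_mul (pNc0.enc h2) (enc_norm (enc_add (enc_subr 6603 12500 (enc_neg (enc_scaleT 809 10000 (nNB2_4.enc h1 h2)))) (enc_mul h1 (enc_norm (enc_sub (enc_rat _ 178525000 122167917) (enc_scaleT 331700000 40722639 (nNB2_4.enc h1 h2)))))))))⟩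
noncomputable def nNB3 : Fn2 := ⟨_, _, fun h1 h2 => (enc_norm (enc_mul (pNc0.enc h2) (enc_norm (enc_subr 272905000 122167917 (enc_neg (enc_scaleT 378900000 13574213 (enc_subr 487 520 h2)))))))⟩
noncomputable def nNB4 : Fn2 := ⟨_, _, fun h1 h2 => (enc_norm (enc_mul (pNc0.enc h2) (enc_norm (enc_subr 91810000 122167917 (enc_neg (enc_scaleT 166550000 122167917 (enc_subr 487 520 h2)))))))⟩
noncomputable def umo : Fn1 := ⟨_, _, fun h1 => (mog.enc h1)⟩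
noncomputable def us1 : Fn1 := ⟨_, _, fun h1 => (enc_norm (enc_sub (enc_rat _ 4542780917089 375000000000) (enc_scaleT 1016572183259 75000000000 (enc_subr 487 520 h1))))⟩
noncomputable def us2 : Fn1 := ⟨_, _, fun h1 => (enc_norm (enc_sub (enc_rat _ 13287 2000) (enc_scaleT 589 8 (enc_subr 487 520 h1))))⟩
noncomputable def us3 : Fn1 := ⟨_, _, fun h1 => (enc_norm (enc_sub (enc_rat _ 17111 1670) (enc_scaleT 11091 167 (enc_subr 487 520 h1))))⟩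
noncomputable def uC11 : Fn2 := ⟨_, _, fun h1 h2 => (kc1q1.enc h1 h2)⟩
noncomputable def uC01 : Fn2 := ⟨_, _, fun h1 h2 => (kc0q1.enc h1 h2)⟩
noncomputable def l12N : List Knk := [⟨1, 40, kNc0, kNc0g⟩, ⟨1, 25, kNc1, kNc1g⟩]
noncomputable def cvN1 : CvP := ⟨cFxs1, cNBs1, cFsX1⟩
noncomputable def cvN2 : CvP := ⟨cFxs2, cNBs2, cFsX2⟩
noncomputable def ndN2 : NdU := ⟨nFsc2, nNB2, nFX2, nFD2⟩
noncomputable def ndN3 : NdU := ⟨nFsc3, nNB3, nFX3, nFD3⟩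
noncomputable def ndN4 : NdU := ⟨nFsc4, nNB4, nFX4, nFD4⟩
noncomputable def pN : Pm := ⟨pFma, pFmb, pFmu, pFnx, pNc0, pNkc, pNjc, pNkc, pNjc, pNkc, pNjc, pFca, pFcb, pNcc, pNcc, pNcc, pFsv, l12N, l12N, l12N, laF, lbF, l1F, l2F, cvN1, pFx11, pFx01, pNK11, pNK01, pFL11, pFL01⟩
noncomputable def ul1 : List Knk := []
noncomputable def ul2 : List Knk := []
noncomputable def ul3 : List Knk := []
noncomputable def qN : Pu := ⟨umo, us1, us2, us3, ul1, ul2, ul3, cFsDD1, uC11, uC01⟩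

end Pool.Agent.Strip051.G.I9231_9500.Tab.DG
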