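import Pool.Agent.Strip051.G.I9231_9500.Fs

/-! # Certificates at the floor (generated) -/

set_option linter.all false

namespace Pool.Agent.Strip051.G.I9231_9500.Tab

open Pool.Agent.Strip051.PB

theorem cA_m00 : CertNd 0 536870912 991146299 28908434 (ftMono true 0 mZ) [] ndB0q0 cZ :=
  certNd (T := (ftMono true 0 mZ)) (L := []) (P1 := 0) (W1 := 536870912) (P3 := 991146299) (W3 := 28908434) (n := ndB0q0) (c := cZ)
    ⟨T.a (T.a (T.l 0) (T.l 0)) (T.l 0),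
      by decide +kernel⟩
theorem cA_m01 : CertNd 536870912 536870912 991146299 28908434 (ftMono true 1 mZ) [] ndB0q1 cZ :=
  certNd (T := (ftMono true 1 mZ)) (L := []) (P1 := 536870912) (W1 := 536870912) (P3 := 991146299) (W3 := 28908434) (n := ndB0q1) (c := cZ)
    ⟨T.a (T.l 0) (T.a (T.l 0) (T.a (T.l 0) (T.l 0))),
      by decide +kernel⟩
theorem cA_g00 : CertGe 0 27917287 991146299 28908434 true [] (((2 : ℕ) : ℝ) / ((1 : ℕ) : ℝ)) 0 ((0 : ℕ) : ℝ)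
    (((2 : ℕ) : ℝ) / 2) mZ ndB0q0 cZ :=
  certGe (z := true) (L := []) (P1 := 0) (W1 := 27917287) (P3 := 991146299) (W3 := 28908434) (oa := 2) (ob := 1)
    (q := 0) (bb := 0) (hB := 2) (M := mZ) (n := ndB0q0) (c := cZ) (sX := c1g_sf) (sK := kf0q0_sf)
    (sL := l0q0_sf) ⟨T.l 0,
      by decide +kernel⟩
theorem cA_w00a : CertNd 27917287 508953625 991146299 28908434 (ftWall true 0 mZ 1 1) [] ndB0q0 cZ :=
  certNd (T := (ftWall true 0 mZ 1 1)) (L := []) (P1 := 27917287) (W1 := 508953625) (P3 := 991146299) (W3 := 28908434) (n := ndB0q0) (c := cZ)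
    ⟨T.a (T.a (T.a (T.a (T.l 0) (T.l 0)) (T.l 0)) (T.l 0)) (T.a (T.l 0) (T.l 0)),
      by decide +kernel⟩
theorem cA_w01a : CertNd 536870912 450971566 991146299 28908434 (ftWall true 1 mZ 1 1) [] ndB0q1 cZ :=
  certNd (T := (ftWall true 1 mZ 1 1)) (L := []) (P1 := 536870912) (W1 := 450971566) (P3 := 991146299) (W3 := 28908434) (n := ndB0q1) (c := cZ)
    ⟨T.a (T.a (T.l 0) (T.l 0)) (T.a (T.l 0) (T.a (T.c (T.l 0) (T.l 0)) (T.a (T.c (T.l 0) (T.l 0)) (T.a (T.c (T.c (T.l 0) (T.l 0)) (T.l 0)) (T.c (T.a (T.c (T.l 0) (T.l 0)) (T.c (T.c (T.a (T.l 0) (T.c (T.a (T.l 0) (T.l 0)) (T.l 0))) (T.a (T.l 0) (T.l 0))) (T.l 0))) (T.c (T.l 0) (T.l 0))))))),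
      by decide +kernel⟩
theorem cA_w01b : CertNd 1025423441 38654707 991146299 28908434 (ftWall true 1 mZ 1 1) [] ndB0q1 cZ :=
  certNd (T := (ftWall true 1 mZ 1 1)) (L := []) (P1 := 1025423441) (W1 := 38654707) (P3 := 991146299) (W3 := 28908434) (n := ndB0q1) (c := cZ)
    ⟨T.a (T.c (T.a (T.c (T.a (T.c (T.l 0) (T.c (T.l 0) (T.l 0))) (T.c (T.l 0) (T.l 0))) (T.a (T.c (T.a (T.l 0) (T.l 0)) (T.a (T.c (T.l 0) (T.l 0)) (T.c (T.l 0) (T.l 0)))) (T.c (T.c (T.l 0) (T.l 0)) (T.c (T.l 0) (T.l 0))))) (T.c (T.a (T.c (T.l 0) (T.l 0)) (T.l 0)) (T.a (T.c (T.l 0) (T.l 0)) (T.l 0)))) (T.a (T.c (T.a (T.c (T.c (T.a (T.l 0) (T.l 0)) (T.a (T.l 0) (T.l 0))) (T.c (T.a (T.c (T.l 0) (T.l 0)) (T.l 0)) (T.a (T.c (T.l 0) (T.l 0)) (T.c (T.l 0) (T.l 0))))) (T.c (T.a (T.c (T.l 0) (T.l 0)) (T.l 0)) (T.a (T.c (T.l 0) (T.l 0)) (T.l 0)))) (T.a (T.c (T.c (T.a (T.c (T.a (T.l 0) (T.l 0)) (T.a (T.l 0) (T.l 0))) (T.c (T.l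 0) (T.l 0))) (T.a (T.c (T.a (T.l 0) (T.l 0)) (T.a (T.l 0) (T.l 0))) (T.c (T.l 0) (T.a (T.l 0) (T.l 0))))) (T.c (T.a (T.c (T.a (T.l 0) (T.l 0)) (T.a (T.c (T.l 0) (T.l 0)) (T.l 0))) (T.c (T.a (T.l 0) (T.l 0)) (T.a (T.l 0) (T.l 0)))) (T.a (T.c (T.a (T.c (T.l 0) (T.l 0)) (T.c (T.l 0) (T.l 0))) (T.a (T.c (T.a (T.l 0) (T.l 0)) (T.a (T.l 0) (T.l 0))) (T.c (T.l 0) (T.l 0)))) (T.c (T.a (T.l 0) (T.l 0)) (T.a (T.c (T.l 0) (T.l 0)) (T.l 0)))))) (T.c (T.a (T.c (T.l 0) (T.l 0)) (T.c (T.l 0) (T.l 0))) (T.a (T.c (T.c (T.l 0) (T.l 0)) (T.c (T.l 0) (T.l 0))) (T.c (T.l 0) (T.l 0)))))) (T.c (T.a (T.c (T.l 0) (T.c (T.l 0) (T.l 0))) (T.c (T.l 0) (T.l 0))) (T.a (T.c (T.c (T.l 0) (T.l 0)) (T.c (T.l 0) (T.l 0))) (T.c (T.l 0) (T.l 0)))))) (T.c (T.c (T.a (T.l 0) (T.l 0)) (T.a (T.l 0) (T.l 0))) (T.c (T.a (T.c (T.l 0) (T.l 0)) (T.l 0)) (T.a (T.c (T.l 0) (T.l 0)) (T.c (T.l 0) (T.l 0))))),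
      by decide +kernel⟩
theorem cA_g01 : CertGe 1064078148 9663676 991146299 28908434 true [] (((2 : ℕ) : ℝ) / ((1 : ℕ) : ℝ)) 1 ((1 : ℕ) : ℝ)
    (((1 : ℕ) : ℝ) / 2) mZ ndB0q1 cZ :=
  certGe (z := true) (L := []) (P1 := 1064078148) (W1 := 9663676) (P3 := 991146299) (W3 := 28908434) (oa := 2) (ob := 1)
    (q := 1) (bb := 1) (hB := 1) (M := mZ) (n := ndB0q1) (c := cZ) (sX := c1g_sf) (sK := kf0q1_sf)
    (sL := l0q1_sf) ⟨T.c (T.l 0) (T.l 0),
      by decide +kernel⟩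
theorem cA_tl : CertTg 987842478 37580963 991146299 28908434 (ftTf true dlg) [⟨6, 0⟩] :=
  certTg (T := (ftTf true dlg)) (L := [⟨6, 0⟩]) (P1 := 987842478) (W1 := 37580963) (P3 := 991146299) (W3 := 28908434)
    ⟨T.l 0,
      by decide +kernel⟩
theorem cA_th : CertTg 987842478 37580963 991146299 28908434 (ftTf false dlg) [⟨5, 0⟩] :=
  certTg (T := (ftTf false dlg)) (L := [⟨5, 0⟩]) (P1 := 987842478) (W1 := 37580963) (P3 := 991146299) (W3 := 28908434)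
    ⟨T.l 0,
      by decide +kernel⟩
theorem cA_m10 : CertNd 0 20401094 991146299 28908434 (ftMono true 0 mZ) [] ndB1q0 cZ :=
  certNd (T := (ftMono true 0 mZ)) (L := []) (P1 := 0) (W1 := 20401094) (P3 := 991146299) (W3 := 28908434) (n := ndB1q0) (c := cZ)
    ⟨T.l 0,
      by decide +kernel⟩
theorem cA_g10 : CertGe 0 20401094 991146299 28908434 true [] (((2 : ℕ) : ℝ) / ((1 : ℕ) : ℝ)) 0 ((0 : ℕ) : ℝ)
    (((2 : ℕ) : ℝ) / 2) mZ ndB1q0 cZ :=
  certGe (z := true) (L := []) (P1 := 0) (W1 := 20401094) (P3 := 991146299) (W3 := 28908434) (oa := 2) (ob := 1)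
    (q := 0) (bb := 0) (hB := 2) (M := mZ) (n := ndB1q0) (c := cZ) (sX := cv1m_sf) (sK := kf1q0_sf)
    (sL := l1q0_sf) ⟨T.l 0,
      by decide +kernel⟩
theorem cA_w10 : CertNd 20401094 516469818 991146299 28908434 (ftWall true 0 mZ 1 1) [] ndB1q0 cZ :=
  certNd (T := (ftWall true 0 mZ 1 1)) (L := []) (P1 := 20401094) (W1 := 516469818) (P3 := 991146299) (W3 := 28908434) (n := ndB1q0) (c := cZ)
    ⟨T.a (T.a (T.a (T.l 0) (T.l 0)) (T.l 0)) (T.l 0),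
      by decide +kernel⟩
theorem cA_w11 : CertNd 536870912 536870912 991146299 28908434 (ftWall true 1 mZ 1 1) [] ndB1q1 cZ :=
  certNd (T := (ftWall true 1 mZ 1 1)) (L := []) (P1 := 536870912) (W1 := 536870912) (P3 := 991146299) (W3 := 28908434) (n := ndB1q1) (c := cZ)
    ⟨T.a (T.l 0) (T.a (T.l 0) (T.a (T.l 0) (T.a (T.l 0) (T.l 0)))),
      by decide +kernel⟩
theorem cA_m20 : CertNd 0 20401094 991146299 28908434 (ftMono true 0 mZ) [] ndB2q0 cZ :=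
  certNd (T := (ftMono true 0 mZ)) (L := []) (P1 := 0) (W1 := 20401094) (P3 := 991146299) (W3 := 28908434) (n := ndB2q0) (c := cZ)
    ⟨T.l 0,
      by decide +kernel⟩
theorem cA_g20 : CertGe 0 20401094 991146299 28908434 true [] (((2 : ℕ) : ℝ) / ((1 : ℕ) : ℝ)) 0 ((0 : ℕ) : ℝ)
    (((2 : ℕ) : ℝ) / 2) mZ ndB2q0 cZ :=
  certGe (z := true) (L := []) (P1 := 0) (W1 := 20401094) (P3 := 991146299) (W3 := 28908434) (oa := 2) (ob := 1)
    (q := 0) (bb := 0) (hB := 2) (M := mZ) (n := ndB2q0) (c := cZ) (sX := cv2m_sf) (sK := kf2q0_sf)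
    (sL := l2q0_sf) ⟨T.l 0,
      by decide +kernel⟩
theorem cA_w20 : CertNd 20401094 516469818 991146299 28908434 (ftWall true 0 mZ 1 1) [] ndB2q0 cZ :=
  certNd (T := (ftWall true 0 mZ 1 1)) (L := []) (P1 := 20401094) (W1 := 516469818) (P3 := 991146299) (W3 := 28908434) (n := ndB2q0) (c := cZ)
    ⟨T.a (T.a (T.a (T.l 0) (T.l 0)) (T.l 0)) (T.l 0),
      by decide +kernel⟩
theorem cA_w21 : CertNd 536870912 536870912 991146299 28908434 (ftWall true 1 mZ 1 1) [] ndB2q1 cZ :=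
  certNd (T := (ftWall true 1 mZ 1 1)) (L := []) (P1 := 536870912) (W1 := 536870912) (P3 := 991146299) (W3 := 28908434) (n := ndB2q1) (c := cZ)
    ⟨T.a (T.l 0) (T.a (T.l 0) (T.a (T.l 0) (T.a (T.l 0) (T.l 0)))),
      by decide +kernel⟩
theorem cA_f30 : CertNd 0 12398503 991146299 28908434 (ftFlatG true 0 mZ 1 1 15) [] ndB3q0 cZ :=
  certNd (T := (ftFlatG true 0 mZ 1 1 15)) (L := []) (P1 := 0) (W1 := 12398503) (P3 := 991146299) (W3 := 28908434) (n := ndB3q0) (c := cZ)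
    ⟨T.l 0,
      by decide +kernel⟩
theorem cA_l30 : CertNd 0 12398503 991146299 28908434 (ftWall true 0 mZ 1 1) [⟨3, 1159641170⟩] ndB3q0 cZ :=
  certNd (T := (ftWall true 0 mZ 1 1)) (L := [⟨3, 1159641170⟩]) (P1 := 0) (W1 := 12398503) (P3 := 991146299) (W3 := 28908434) (n := ndB3q0) (c := cZ)
    ⟨T.l 1,
      by decide +kernel⟩
theorem cA_w30 : CertNd 12398502 524472410 991146299 28908434 (ftWall true 0 mZ 1 1) [] ndB3q0 cZ :=
  certNd (T := (ftWall true 0 mZ 1 1)) (L := []) (P1 := 12398502) (W1 := 524472410) (P3 := 991146299) (W3 := 28908434) (n := ndB3q0) (c := cZ)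
    ⟨T.a (T.a (T.a (T.a (T.c (T.a (T.l 0) (T.l 0)) (T.l 0)) (T.a (T.a (T.l 0) (T.l 0)) (T.l 0))) (T.a (T.l 0) (T.l 0))) (T.l 0)) (T.l 0),
      by decide +kernel⟩
theorem cA_w31 : CertNd 536870912 536870912 991146299 28908434 (ftWall true 1 mZ 1 1) [] ndB3q1 cZ :=
  certNd (T := (ftWall true 1 mZ 1 1)) (L := []) (P1 := 536870912) (W1 := 536870912) (P3 := 991146299) (W3 := 28908434) (n := ndB3q1) (c := cZ)
    ⟨T.a (T.l 0) (T.a (T.l 0) (T.a (T.l 0) (T.a (T.l 0) (T.l 0)))),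
      by decide +kernel⟩
theorem cA_w32 : CertNd 1073741824 166215235 991146299 28908434 (ftWall true 2 mZ 1 1) [⟨4, 0⟩] ndB3q2 cZ :=
  certNd (T := (ftWall true 2 mZ 1 1)) (L := [⟨4, 0⟩]) (P1 := 1073741824) (W1 := 166215235) (P3 := 991146299) (W3 := 28908434) (n := ndB3q2) (c := cZ)
    ⟨T.l 0,
      by decide +kernel⟩
theorem cA_f40 : CertNd 0 12398503 991146299 28908434 (ftFlatG true 0 mZ 1 1 15) [] ndB4q0 cZ :=
  certNd (T := (ftFlatG true 0 mZ 1 1 15)) (L := []) (P1 := 0) (W1 := 12398503) (P3 := 991146299) (W3 := 28908434) (n := ndB4q0) (c := cZ)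
    ⟨T.l 0,
      by decide +kernel⟩
theorem cA_l40 : CertNd 0 12398503 991146299 28908434 (ftWall true 0 mZ 1 1) [⟨3, 1159641170⟩] ndB4q0 cZ :=
  certNd (T := (ftWall true 0 mZ 1 1)) (L := [⟨3, 1159641170⟩]) (P1 := 0) (W1 := 12398503) (P3 := 991146299) (W3 := 28908434) (n := ndB4q0) (c := cZ)
    ⟨T.l 1,
      by decide +kernel⟩
theorem cA_w40 : CertNd 12398502 524472410 991146299 28908434 (ftWall true 0 mZ 1 1) [] ndB4q0 cZ :=
  certNd (T := (ftWall true 0 mZ 1 1)) (L := []) (P1 := 12398502) (W1 := 524472410) (P3 := 991146299) (W3 := 28908434) (n := ndB4q0) (c := cZ)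
    ⟨T.a (T.a (T.a (T.l 0) (T.l 0)) (T.l 0)) (T.l 0),
      by decide +kernel⟩
theorem cA_w41 : CertNd 536870912 536870912 991146299 28908434 (ftWall true 1 mZ 1 1) [] ndB4q1 cZ :=
  certNd (T := (ftWall true 1 mZ 1 1)) (L := []) (P1 := 536870912) (W1 := 536870912) (P3 := 991146299) (W3 := 28908434) (n := ndB4q1) (c := cZ)
    ⟨T.a (T.l 0) (T.a (T.l 0) (T.a (T.l 0) (T.a (T.l 0) (T.l 0)))),
      by decide +kernel⟩
theorem cA_w42 : CertNd 1073741824 166215235 991146299 28908434 (ftWall true 2 mZ 1 1) [⟨4, 0⟩] ndB4q2 cZ :=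
  certNd (T := (ftWall true 2 mZ 1 1)) (L := [⟨4, 0⟩]) (P1 := 1073741824) (W1 := 166215235) (P3 := 991146299) (W3 := 28908434) (n := ndB4q2) (c := cZ)
    ⟨T.l 0,
      by decide +kernel⟩
theorem cA_f50 : CertNd 0 12398503 991146299 28908434 (ftFlatG true 0 mZ 1 1 15) [] ndB5q0 cZ :=
  certNd (T := (ftFlatG true 0 mZ 1 1 15)) (L := []) (P1 := 0) (W1 := 12398503) (P3 := 991146299) (W3 := 28908434) (n := ndB5q0) (c := cZ)
    ⟨T.l 0,
      by decide +kernel⟩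
theorem cA_l50 : CertNd 0 12398503 991146299 28908434 (ftWall true 0 mZ 1 1) [⟨3, 1159641170⟩] ndB5q0 cZ :=
  certNd (T := (ftWall true 0 mZ 1 1)) (L := [⟨3, 1159641170⟩]) (P1 := 0) (W1 := 12398503) (P3 := 991146299) (W3 := 28908434) (n := ndB5q0) (c := cZ)
    ⟨T.l 0,
      by decide +kernel⟩
theorem cA_w50 : CertNd 12398502 524472410 991146299 28908434 (ftWall true 0 mZ 1 1) [] ndB5q0 cZ :=
  certNd (T := (ftWall true 0 mZ 1 1)) (L := []) (P1 := 12398502) (W1 := 524472410) (P3 := 991146299) (W3 := 28908434) (n := ndB5q0) (c := cZ)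
    ⟨T.a (T.l 0) (T.l 0),
      by decide +kernel⟩
theorem cA_w51 : CertNd 536870912 536870912 991146299 28908434 (ftWall true 1 mZ 1 1) [] ndB5q1 cZ :=
  certNd (T := (ftWall true 1 mZ 1 1)) (L := []) (P1 := 536870912) (W1 := 536870912) (P3 := 991146299) (W3 := 28908434) (n := ndB5q1) (c := cZ)
    ⟨T.a (T.l 0) (T.a (T.l 0) (T.a (T.l 0) (T.a (T.l 0) (T.l 0)))),
      by decide +kernel⟩
theorem cA_w52 : CertNd 1073741824 166215235 991146299 28908434 (ftWall true 2 mZ 1 1) [⟨4, 0⟩] ndB5q2 cZ :=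
  certNd (T := (ftWall true 2 mZ 1 1)) (L := [⟨4, 0⟩]) (P1 := 1073741824) (W1 := 166215235) (P3 := 991146299) (W3 := 28908434) (n := ndB5q2) (c := cZ)
    ⟨T.l 0,
      by decide +kernel⟩
theorem cA_ll : CertSd 0 12398503 991146299 28908434 (ftWall true 0 mZ 1 1) [] idF (cnF 1080 1000) pcB0 dZ :=
  certSd (T := (ftWall true 0 mZ 1 1)) (L := []) (P1 := 0) (W1 := 12398503) (P3 := 991146299) (W3 := 28908434) (Y := idF) (X := (cnF 1080 1000))
    (pc := pcB0) (c := dZ) ⟨T.a (T.c (T.a (T.c (T.l 0) (T.l 0)) (T.l 0)) (T.a (T.c (T.l 0) (T.l 0)) (T.l 0))) (T.l 0),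
      by decide +kernel⟩
theorem cA_st : CertSt 1073741824 46170898 991146299 28908434 true [] (((2 : ℕ) : ℝ) / ((1 : ℕ) : ℝ)) mZ ndB2q2 cZ ndB3q2 cZ :=
  certSt (z := true) (L := []) (P1 := 1073741824) (W1 := 46170898) (P3 := 991146299) (W3 := 28908434) (oa := 2) (ob := 1)
    (M := mZ) (n := ndB2q2) (c := cZ) (n' := ndB3q2) (c' := cZ) (sX := cv2p_sf) (sK := kf2q2_sf) (sL := l2q2_sf)
    ⟨T.l 0,
      by decide +kernel⟩
theorem cA_sm : CertSd 460725649 76145263 991146299 28908434 (ftMono true 2 mZ) [] ygF xsF pcB2 dZ :=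
  certSd (T := (ftMono true 2 mZ)) (L := []) (P1 := 460725649) (W1 := 76145263) (P3 := 991146299) (W3 := 28908434) (Y := ygF) (X := xsF)
    (pc := pcB2) (c := dZ) ⟨T.l 0,
      by decide +kernel⟩
theorem cA_sw : CertSd 0 460725653 991146299 28908434 (ftWall true 2 mZ 1 1) [] ygF xsF pcB2 dZ :=
  certSd (T := (ftWall true 2 mZ 1 1)) (L := []) (P1 := 0) (W1 := 460725653) (P3 := 991146299) (W3 := 28908434) (Y := ygF) (X := xsF)
    (pc := pcB2) (c := dZ) ⟨T.a (T.l 0) (T.a (T.l 0) (T.a (T.l 0) (T.l 0))),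
      by decide +kernel⟩
theorem cA_h0_11 : CertNd 991880209 80590268 991146299 28908434 (ftHighG true 1 mZ 1 1 27 0 1080) [] ndB1q1 cZ :=
  certNd (T := (ftHighG true 1 mZ 1 1 27 0 1080)) (L := []) (P1 := 991880209) (W1 := 80590268) (P3 := 991146299) (W3 := 28908434) (n := ndB1q1) (c := cZ)
    ⟨T.a (T.l 0) (T.l 0),
      by decide +kernel⟩
theorem cA_h0_21 : CertNd 991880209 80590268 991146299 28908434 (ftHighG true 1 mZ 1 1 27 0 1080) [] ndB2q1 cZ :=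
  certNd (T := (ftHighG true 1 mZ 1 1 27 0 1080)) (L := []) (P1 := 991880209) (W1 := 80590268) (P3 := 991146299) (W3 := 28908434) (n := ndB2q1) (c := cZ)
    ⟨T.a (T.l 0) (T.l 0),
      by decide +kernel⟩
theorem cA_h0_31 : CertNd 991880209 80590268 991146299 28908434 (ftHighG true 1 mZ 1 1 27 0 1080) [] ndB3q1 cZ :=
  certNd (T := (ftHighG true 1 mZ 1 1 27 0 1080)) (L := []) (P1 := 991880209) (W1 := 80590268) (P3 := 991146299) (W3 := 28908434) (n := ndB3q1) (c := cZ)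
    ⟨T.a (T.l 0) (T.l 0),
      by decide +kernel⟩
theorem cA_h0_41 : CertNd 991880209 80590268 991146299 28908434 (ftHighG true 1 mZ 1 1 27 0 1080) [] ndB4q1 cZ :=
  certNd (T := (ftHighG true 1 mZ 1 1 27 0 1080)) (L := []) (P1 := 991880209) (W1 := 80590268) (P3 := 991146299) (W3 := 28908434) (n := ndB4q1) (c := cZ)
    ⟨T.a (T.l 0) (T.l 0),
      by decide +kernel⟩
theorem cA_h0_51 : CertNd 991880209 80590268 991146299 28908434 (ftHighG true 1 mZ 1 1 27 0 1080) [] ndB5q1 cZ :=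
  certNd (T := (ftHighG true 1 mZ 1 1 27 0 1080)) (L := []) (P1 := 991880209) (W1 := 80590268) (P3 := 991146299) (W3 := 28908434) (n := ndB5q1) (c := cZ)
    ⟨T.a (T.l 0) (T.l 0),
      by decide +kernel⟩
theorem cA_h1_01 : CertNd 1060071974 13669850 991146299 28908434 (ftHighG true 1 mZ 1 1 27 730 1080) [] ndB0q1 cZ :=
  certNd (T := (ftHighG true 1 mZ 1 1 27 730 1080)) (L := []) (P1 := 1060071974) (W1 := 13669850) (P3 := 991146299) (W3 := 28908434) (n := ndB0q1) (c := cZ)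
    ⟨T.l 0,
      by decide +kernel⟩
theorem cA_h1_11 : CertNd 1060071974 13669850 991146299 28908434 (ftHighG true 1 mZ 1 1 27 730 1080) [] ndB1q1 cZ :=
  certNd (T := (ftHighG true 1 mZ 1 1 27 730 1080)) (L := []) (P1 := 1060071974) (W1 := 13669850) (P3 := 991146299) (W3 := 28908434) (n := ndB1q1) (c := cZ)
    ⟨T.l 0,
      by decide +kernel⟩
theorem cA_h1_21 : CertNd 1060071974 13669850 991146299 28908434 (ftHighG true 1 mZ 1 1 27 730 1080) [] ndB2q1 cZ :=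
  certNd (T := (ftHighG true 1 mZ 1 1 27 730 1080)) (L := []) (P1 := 1060071974) (W1 := 13669850) (P3 := 991146299) (W3 := 28908434) (n := ndB2q1) (c := cZ)
    ⟨T.l 0,
      by decide +kernel⟩
theorem cA_h1_31 : CertNd 1060071974 13669850 991146299 28908434 (ftHighG true 1 mZ 1 1 27 730 1080) [] ndB3q1 cZ :=
  certNd (T := (ftHighG true 1 mZ 1 1 27 730 1080)) (L := []) (P1 := 1060071974) (W1 := 13669850) (P3 := 991146299) (W3 := 28908434) (n := ndB3q1) (c := cZ)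
    ⟨T.l 0,
      by decide +kernel⟩
theorem cA_h1_41 : CertNd 1060071974 13669850 991146299 28908434 (ftHighG true 1 mZ 1 1 27 730 1080) [] ndB4q1 cZ :=
  certNd (T := (ftHighG true 1 mZ 1 1 27 730 1080)) (L := []) (P1 := 1060071974) (W1 := 13669850) (P3 := 991146299) (W3 := 28908434) (n := ndB4q1) (c := cZ)
    ⟨T.l 0,
      by decide +kernel⟩
theorem cA_h1_51 : CertNd 1060071974 13669850 991146299 28908434 (ftHighG true 1 mZ 1 1 27 730 1080) [] ndB5q1 cZ :=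
  certNd (T := (ftHighG true 1 mZ 1 1 27 730 1080)) (L := []) (P1 := 1060071974) (W1 := 13669850) (P3 := 991146299) (W3 := 28908434) (n := ndB5q1) (c := cZ)
    ⟨T.l 0,
      by decide +kernel⟩
theorem cA_h1_02 : CertNd 0 536870912 991146299 28908434 (ftHighG true 2 mZ 1 1 27 730 1080) [⟨0, 1060071974⟩, ⟨1, 1190256252⟩] ndB0q2 cZ :=
  certNd (T := (ftHighG true 2 mZ 1 1 27 730 1080)) (L := [⟨0, 1060071974⟩, ⟨1, 1190256252⟩]) (P1 := 0) (W1 := 536870912) (P3 := 991146299) (W3 := 28908434) (n := ndB0q2) (c := cZ)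
    ⟨T.a (T.l 3) (T.a (T.a (T.a (T.l 0) (T.l 0)) (T.l 0)) (T.a (T.l 0) (T.l 0))),
      by decide +kernel⟩
theorem cA_h1_12 : CertNd 1073741824 116514428 991146299 28908434 (ftHighG true 2 mZ 1 1 27 730 1080) [] ndB1q2 cZ :=
  certNd (T := (ftHighG true 2 mZ 1 1 27 730 1080)) (L := []) (P1 := 1073741824) (W1 := 116514428) (P3 := 991146299) (W3 := 28908434) (n := ndB1q2) (c := cZ)
    ⟨T.a (T.l 0) (T.l 0),
      by decide +kernel⟩
theorem cA_h1_22 : CertNd 1073741824 116514428 991146299 28908434 (ftHighG true 2 mZ 1 1 27 730 1080) [] ndB2q2 cZ :=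
  certNd (T := (ftHighG true 2 mZ 1 1 27 730 1080)) (L := []) (P1 := 1073741824) (W1 := 116514428) (P3 := 991146299) (W3 := 28908434) (n := ndB2q2) (c := cZ)
    ⟨T.l 0,
      by decide +kernel⟩
theorem cA_h1_32 : CertNd 1073741824 116514428 991146299 28908434 (ftHighG true 2 mZ 1 1 27 730 1080) [] ndB3q2 cZ :=
  certNd (T := (ftHighG true 2 mZ 1 1 27 730 1080)) (L := []) (P1 := 1073741824) (W1 := 116514428) (P3 := 991146299) (W3 := 28908434) (n := ndB3q2) (c := cZ)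
    ⟨T.l 0,
      by decide +kernel⟩
theorem cA_h1_42 : CertNd 1073741824 116514428 991146299 28908434 (ftHighG true 2 mZ 1 1 27 730 1080) [] ndB4q2 cZ :=
  certNd (T := (ftHighG true 2 mZ 1 1 27 730 1080)) (L := []) (P1 := 1073741824) (W1 := 116514428) (P3 := 991146299) (W3 := 28908434) (n := ndB4q2) (c := cZ)
    ⟨T.l 0,
      by decide +kernel⟩
theorem cA_h1_52 : CertNd 1073741824 116514428 991146299 28908434 (ftHighG true 2 mZ 1 1 27 730 1080) [] ndB5q2 cZ :=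
  certNd (T := (ftHighG true 2 mZ 1 1 27 730 1080)) (L := []) (P1 := 1073741824) (W1 := 116514428) (P3 := 991146299) (W3 := 28908434) (n := ndB5q2) (c := cZ)
    ⟨T.l 0,
      by decide +kernel⟩
theorem cA_h2_02 : CertNd 0 536870912 991146299 28908434 (ftHighG true 2 mZ 1 1 27 1090 1080) [⟨0, 1177857749⟩, ⟨1, 2120143949⟩] ndB0q2 cZ :=
  certNd (T := (ftHighG true 2 mZ 1 1 27 1090 1080)) (L := [⟨0, 1177857749⟩, ⟨1, 2120143949⟩]) (P1 := 0) (W1 := 536870912) (P3 := 991146299) (W3 := 28908434) (n := ndB0q2) (c := cZ)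
    ⟨T.a (T.l 0) (T.a (T.l 0) (T.l 1)),
      by decide +kernel⟩
theorem cA_h2_12 : CertNd 1177857749 432754987 991146299 28908434 (ftHighG true 2 mZ 1 1 27 1090 1080) [] ndB1q2 cZ :=
  certNd (T := (ftHighG true 2 mZ 1 1 27 1090 1080)) (L := []) (P1 := 1177857749) (W1 := 432754987) (P3 := 991146299) (W3 := 28908434) (n := ndB1q2) (c := cZ)
    ⟨T.a (T.a (T.a (T.l 0) (T.a (T.c (T.a (T.l 0) (T.l 0)) (T.l 0)) (T.l 0))) (T.l 0)) (T.l 0),
      by decide +kernel⟩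
theorem cA_h2_22 : CertNd 1177857749 432754987 991146299 28908434 (ftHighG true 2 mZ 1 1 27 1090 1080) [] ndB2q2 cZ :=
  certNd (T := (ftHighG true 2 mZ 1 1 27 1090 1080)) (L := []) (P1 := 1177857749) (W1 := 432754987) (P3 := 991146299) (W3 := 28908434) (n := ndB2q2) (c := cZ)
    ⟨T.a (T.a (T.a (T.l 0) (T.l 0)) (T.l 0)) (T.l 0),
      by decide +kernel⟩
theorem cA_h2_32 : CertNd 1177857749 432754987 991146299 28908434 (ftHighG true 2 mZ 1 1 27 1090 1080) [] ndB3q2 cZ :=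
  certNd (T := (ftHighG true 2 mZ 1 1 27 1090 1080)) (L := []) (P1 := 1177857749) (W1 := 432754987) (P3 := 991146299) (W3 := 28908434) (n := ndB3q2) (c := cZ)
    ⟨T.a (T.l 0) (T.l 0),
      by decide +kernel⟩
theorem cA_h2_42 : CertNd 1177857749 432754987 991146299 28908434 (ftHighG true 2 mZ 1 1 27 1090 1080) [] ndB4q2 cZ :=
  certNd (T := (ftHighG true 2 mZ 1 1 27 1090 1080)) (L := []) (P1 := 1177857749) (W1 := 432754987) (P3 := 991146299) (W3 := 28908434) (n := ndB4q2) (c := cZ)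
    ⟨T.a (T.a (T.l 0) (T.l 0)) (T.l 0),
      by decide +kernel⟩
theorem cA_h2_52 : CertNd 1177857749 432754987 991146299 28908434 (ftHighG true 2 mZ 1 1 27 1090 1080) [] ndB5q2 cZ :=
  certNd (T := (ftHighG true 2 mZ 1 1 27 1090 1080)) (L := []) (P1 := 1177857749) (W1 := 432754987) (P3 := 991146299) (W3 := 28908434) (n := ndB5q2) (c := cZ)
    ⟨T.a (T.a (T.a (T.l 0) (T.l 0)) (T.l 0)) (T.l 0),
      by decide +kernel⟩
theorem cA_h2_13 : CertNd 1610612736 509531213 991146299 28908434 (ftHighG true 3 mZ 1 1 27 1090 1080) [] ndB1q3 cZ :=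
  certNd (T := (ftHighG true 3 mZ 1 1 27 1090 1080)) (L := []) (P1 := 1610612736) (W1 := 509531213) (P3 := 991146299) (W3 := 28908434) (n := ndB1q3) (c := cZ)
    ⟨T.a (T.l 0) (T.a (T.l 0) (T.l 0)),
      by decide +kernel⟩
theorem cA_h2_23 : CertNd 1610612736 509531213 991146299 28908434 (ftHighG true 3 mZ 1 1 27 1090 1080) [] ndB2q3 cZ :=
  certNd (T := (ftHighG true 3 mZ 1 1 27 1090 1080)) (L := []) (P1 := 1610612736) (W1 := 509531213) (P3 := 991146299) (W3 := 28908434) (n := ndB2q3) (c := cZ)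
    ⟨T.a (T.l 0) (T.a (T.l 0) (T.a (T.l 0) (T.l 0))),
      by decide +kernel⟩
theorem cA_h2_33 : CertNd 0 1230186008 991146299 28908434 (ftHighG true 3 mZ 1 1 27 1090 1080) [⟨0, 1177857749⟩, ⟨1, 2120143949⟩] ndB3q3 cZ :=
  certNd (T := (ftHighG true 3 mZ 1 1 27 1090 1080)) (L := [⟨0, 1177857749⟩, ⟨1, 2120143949⟩]) (P1 := 0) (W1 := 1230186008) (P3 := 991146299) (W3 := 28908434) (n := ndB3q3) (c := cZ)
    ⟨T.a (T.a (T.l 0) (T.a (T.a (T.l 0) (T.l 0)) (T.a (T.l 0) (T.l 0)))) (T.a (T.a (T.l 0) (T.l 0)) (T.a (T.l 0) (T.l 0))),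
      by decide +kernel⟩
theorem cA_h2_43 : CertNd 0 1230186008 991146299 28908434 (ftHighG true 3 mZ 1 1 27 1090 1080) [⟨0, 1177857749⟩, ⟨1, 2120143949⟩] ndB4q3 cZ :=
  certNd (T := (ftHighG true 3 mZ 1 1 27 1090 1080)) (L := [⟨0, 1177857749⟩, ⟨1, 2120143949⟩]) (P1 := 0) (W1 := 1230186008) (P3 := 991146299) (W3 := 28908434) (n := ndB4q3) (c := cZ)
    ⟨T.a (T.a (T.l 0) (T.l 0)) (T.a (T.l 0) (T.l 0)),
      by decide +kernel⟩
theorem cA_h2_53 : CertNd 0 1230186008 991146299 28908434 (ftHighG true 3 mZ 1 1 27 1090 1080) [⟨0, 1177857749⟩, ⟨1, 2120143949⟩] ndB5q3 cZ :=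
  certNd (T := (ftHighG true 3 mZ 1 1 27 1090 1080)) (L := [⟨0, 1177857749⟩, ⟨1, 2120143949⟩]) (P1 := 0) (W1 := 1230186008) (P3 := 991146299) (W3 := 28908434) (n := ndB5q3) (c := cZ)
    ⟨T.a (T.a (T.a (T.l 0) (T.l 0)) (T.a (T.l 0) (T.l 0))) (T.a (T.l 0) (T.l 0)),
      by decide +kernel⟩
theorem cA_r0_02 : CertNd 0 536870912 991146299 28908434 (ftFarG true 2 mZ 1 1 27 1252 1080) [⟨0, 1123304337⟩, ⟨1, 1234890862⟩, ⟨2, 1159641169⟩] ndB0q2 cZ :=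
  certNd (T := (ftFarG true 2 mZ 1 1 27 1252 1080)) (L := [⟨0, 1123304337⟩, ⟨1, 1234890862⟩, ⟨2, 1159641169⟩]) (P1 := 0) (W1 := 536870912) (P3 := 991146299) (W3 := 28908434) (n := ndB0q2) (c := cZ)
    ⟨T.l 5,
      by decide +kernel⟩
theorem cA_r0_12 : CertNd 1123304337 111586525 991146299 28908434 (ftFarG true 2 mZ 1 1 27 1252 1080) [⟨2, 1159641169⟩] ndB1q2 cZ :=
  certNd (T := (ftFarG true 2 mZ 1 1 27 1252 1080)) (L := [⟨2, 1159641169⟩]) (P1 := 1123304337) (W1 := 111586525) (P3 := 991146299) (W3 := 28908434) (n := ndB1q2) (c := cZ)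
    ⟨T.l 0,
      by decide +kernel⟩
theorem cA_r0_22 : CertNd 1123304337 111586525 991146299 28908434 (ftFarG true 2 mZ 1 1 27 1252 1080) [⟨2, 1159641169⟩] ndB2q2 cZ :=
  certNd (T := (ftFarG true 2 mZ 1 1 27 1252 1080)) (L := [⟨2, 1159641169⟩]) (P1 := 1123304337) (W1 := 111586525) (P3 := 991146299) (W3 := 28908434) (n := ndB2q2) (c := cZ)
    ⟨T.l 0,
      by decide +kernel⟩
theorem cA_r0_32 : CertNd 1123304337 111586525 991146299 28908434 (ftFarG true 2 mZ 1 1 27 1252 1080) [⟨2, 1159641169⟩] ndB3q2 cZ :=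
  certNd (T := (ftFarG true 2 mZ 1 1 27 1252 1080)) (L := [⟨2, 1159641169⟩]) (P1 := 1123304337) (W1 := 111586525) (P3 := 991146299) (W3 := 28908434) (n := ndB3q2) (c := cZ)
    ⟨T.l 0,
      by decide +kernel⟩
theorem cA_r0_42 : CertNd 1123304337 111586525 991146299 28908434 (ftFarG true 2 mZ 1 1 27 1252 1080) [⟨2, 1159641169⟩] ndB4q2 cZ :=
  certNd (T := (ftFarG true 2 mZ 1 1 27 1252 1080)) (L := [⟨2, 1159641169⟩]) (P1 := 1123304337) (W1 := 111586525) (P3 := 991146299) (W3 := 28908434) (n := ndB4q2) (c := cZ)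
    ⟨T.l 0,
      by decide +kernel⟩
theorem cA_r0_52 : CertNd 1123304337 111586525 991146299 28908434 (ftFarG true 2 mZ 1 1 27 1252 1080) [⟨2, 1159641169⟩] ndB5q2 cZ :=
  certNd (T := (ftFarG true 2 mZ 1 1 27 1252 1080)) (L := [⟨2, 1159641169⟩]) (P1 := 1123304337) (W1 := 111586525) (P3 := 991146299) (W3 := 28908434) (n := ndB5q2) (c := cZ)
    ⟨T.a (T.l 0) (T.l 0),
      by decide +kernel⟩
theorem cA_n0_02z : CertNd 0 107374182 991146299 28908434 (ftNearE true 2 mZ 1 1 27 1252) [⟨0, 1123304337⟩, ⟨1, 1234890862⟩] ⟨ndB0q2.Y, onF, kq02, lq02⟩ cZ :=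
  certNd (T := (ftNearE true 2 mZ 1 1 27 1252)) (L := [⟨0, 1123304337⟩, ⟨1, 1234890862⟩]) (P1 := 0) (W1 := 107374182) (P3 := 991146299) (W3 := 28908434) (n := ⟨ndB0q2.Y, onF, kq02, lq02⟩) (c := cZ)
    ⟨T.l 0,
      by decide +kernel⟩
theorem cA_n0_02 : CertNd 0 536870912 991146299 28908434 (ftNearE true 2 mZ 1 1 27 1252) [⟨0, 1123304337⟩, ⟨1, 1234890862⟩, ⟨2, 107374182⟩, ⟨3, 429496730⟩] ndB0q2 cZ :=
  certNd (T := (ftNearE true 2 mZ 1 1 27 1252)) (L := [⟨0, 1123304337⟩, ⟨1, 1234890862⟩, ⟨2, 107374182⟩, ⟨3, 429496730⟩]) (P1 := 0) (W1 := 536870912) (P3 := 991146299) (W3 := 28908434) (n := ndB0q2) (c := cZ)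
    ⟨T.a (T.a (T.a (T.l 3) (T.a (T.l 0) (T.l 0))) (T.a (T.a (T.l 0) (T.l 0)) (T.l 0))) (T.a (T.a (T.l 0) (T.l 0)) (T.a (T.l 0) (T.l 0))),
      by decide +kernel⟩
theorem cA_n0_12 : CertNd 1123304337 111586525 991146299 28908434 (ftNearE true 2 mZ 1 1 27 1252) [⟨3, 429496730⟩] ndB1q2 cZ :=
  certNd (T := (ftNearE true 2 mZ 1 1 27 1252)) (L := [⟨3, 429496730⟩]) (P1 := 1123304337) (W1 := 111586525) (P3 := 991146299) (W3 := 28908434) (n := ndB1q2) (c := cZ)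
    ⟨T.a (T.l 0) (T.a (T.l 0) (T.a (T.l 0) (T.a (T.l 0) (T.l 0)))),
      by decide +kernel⟩
theorem cA_n0_22 : CertNd 1123304337 111586525 991146299 28908434 (ftNearE true 2 mZ 1 1 27 1252) [⟨3, 429496730⟩] ndB2q2 cZ :=
  certNd (T := (ftNearE true 2 mZ 1 1 27 1252)) (L := [⟨3, 429496730⟩]) (P1 := 1123304337) (W1 := 111586525) (P3 := 991146299) (W3 := 28908434) (n := ndB2q2) (c := cZ)
    ⟨T.a (T.l 0) (T.l 0),
      by decide +kernel⟩
theorem cA_n0_32 : CertNd 1123304337 111586525 991146299 28908434 (ftNearE true 2 mZ 1 1 27 1252) [⟨3, 429496730⟩] ndB3q2 cZ :=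
  certNd (T := (ftNearE true 2 mZ 1 1 27 1252)) (L := [⟨3, 429496730⟩]) (P1 := 1123304337) (W1 := 111586525) (P3 := 991146299) (W3 := 28908434) (n := ndB3q2) (c := cZ)
    ⟨T.l 0,
      by decide +kernel⟩
theorem cA_n0_42 : CertNd 1123304337 111586525 991146299 28908434 (ftNearE true 2 mZ 1 1 27 1252) [⟨3, 429496730⟩] ndB4q2 cZ :=
  certNd (T := (ftNearE true 2 mZ 1 1 27 1252)) (L := [⟨3, 429496730⟩]) (P1 := 1123304337) (W1 := 111586525) (P3 := 991146299) (W3 := 28908434) (n := ndB4q2) (c := cZ)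
    ⟨T.l 0,
      by decide +kernel⟩
theorem cA_n0_52 : CertNd 1123304337 111586525 991146299 28908434 (ftNearE true 2 mZ 1 1 27 1252) [⟨3, 429496730⟩] ndB5q2 cZ :=
  certNd (T := (ftNearE true 2 mZ 1 1 27 1252)) (L := [⟨3, 429496730⟩]) (P1 := 1123304337) (W1 := 111586525) (P3 := 991146299) (W3 := 28908434) (n := ndB5q2) (c := cZ)
    ⟨T.l 0,
      by decide +kernel⟩
theorem cA_R0_2 : CertSd 1123304337 111586525 991146299 28908434 (ftFarG true 2 mZ 1 1 27 1252 1080) [] idF (cnF 1080 1000) pcB2 dZ :=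
  certSd (T := (ftFarG true 2 mZ 1 1 27 1252 1080)) (L := []) (P1 := 1123304337) (W1 := 111586525) (P3 := 991146299) (W3 := 28908434) (Y := idF) (X := (cnF 1080 1000))
    (pc := pcB2) (c := dZ) ⟨T.l 0,
      by decide +kernel⟩
theorem cA_N0_2 : CertSd 1136341535 98549327 991146299 28908434 (ftNearE true 2 mZ 1 1 27 1252) [] idF (cnF 400 1000) pcB2 dZ :=
  certSd (T := (ftNearE true 2 mZ 1 1 27 1252)) (L := []) (P1 := 1136341535) (W1 := 98549327) (P3 := 991146299) (W3 := 28908434) (Y := idF) (X := (cnF 400 1000))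
    (pc := pcB2) (c := dZ) ⟨T.a (T.a (T.l 0) (T.l 0)) (T.l 0),
      by decide +kernel⟩
theorem cA_r1_02 : CertNd 0 536870912 991146299 28908434 (ftFarG true 2 mZ 1 1 27 1445 1080) [⟨0, 1222492358⟩, ⟨1, 1692395608⟩, ⟨2, 1159641169⟩] ndB0q2 cZ :=
  certNd (T := (ftFarG true 2 mZ 1 1 27 1445 1080)) (L := [⟨0, 1222492358⟩, ⟨1, 1692395608⟩, ⟨2, 1159641169⟩]) (P1 := 0) (W1 := 536870912) (P3 := 991146299) (W3 := 28908434) (n := ndB0q2) (c := cZ)
    ⟨T.l 5,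
      by decide +kernel⟩
theorem cA_r1_12 : CertNd 1222492358 388120378 991146299 28908434 (ftFarG true 2 mZ 1 1 27 1445 1080) [⟨2, 1159641169⟩] ndB1q2 cZ :=
  certNd (T := (ftFarG true 2 mZ 1 1 27 1445 1080)) (L := [⟨2, 1159641169⟩]) (P1 := 1222492358) (W1 := 388120378) (P3 := 991146299) (W3 := 28908434) (n := ndB1q2) (c := cZ)
    ⟨T.l 0,
      by decide +kernel⟩
theorem cA_r1_22 : CertNd 1222492358 388120378 991146299 28908434 (ftFarG true 2 mZ 1 1 27 1445 1080) [⟨2, 1159641169⟩] ndB2q2 cZ :=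
  certNd (T := (ftFarG true 2 mZ 1 1 27 1445 1080)) (L := [⟨2, 1159641169⟩]) (P1 := 1222492358) (W1 := 388120378) (P3 := 991146299) (W3 := 28908434) (n := ndB2q2) (c := cZ)
    ⟨T.l 0,
      by decide +kernel⟩
theorem cA_r1_32 : CertNd 1222492358 388120378 991146299 28908434 (ftFarG true 2 mZ 1 1 27 1445 1080) [⟨2, 1159641169⟩] ndB3q2 cZ :=
  certNd (T := (ftFarG true 2 mZ 1 1 27 1445 1080)) (L := [⟨2, 1159641169⟩]) (P1 := 1222492358) (W1 := 388120378) (P3 := 991146299) (W3 := 28908434) (n := ndB3q2) (c := cZ)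
    ⟨T.l 0,
      by decide +kernel⟩
theorem cA_r1_42 : CertNd 1222492358 388120378 991146299 28908434 (ftFarG true 2 mZ 1 1 27 1445 1080) [⟨2, 1159641169⟩] ndB4q2 cZ :=
  certNd (T := (ftFarG true 2 mZ 1 1 27 1445 1080)) (L := [⟨2, 1159641169⟩]) (P1 := 1222492358) (W1 := 388120378) (P3 := 991146299) (W3 := 28908434) (n := ndB4q2) (c := cZ)
    ⟨T.l 0,
      by decide +kernel⟩
theorem cA_r1_52 : CertNd 1222492358 388120378 991146299 28908434 (ftFarG true 2 mZ 1 1 27 1445 1080) [⟨2, 1159641169⟩] ndB5q2 cZ :=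
  certNd (T := (ftFarG true 2 mZ 1 1 27 1445 1080)) (L := [⟨2, 1159641169⟩]) (P1 := 1222492358) (W1 := 388120378) (P3 := 991146299) (W3 := 28908434) (n := ndB5q2) (c := cZ)
    ⟨T.a (T.a (T.a (T.l 0) (T.l 0)) (T.l 0)) (T.l 0),
      by decide +kernel⟩
theorem cA_r1_13 : CertNd 1610612736 81782872 991146299 28908434 (ftFarG true 3 mZ 1 1 27 1445 1080) [⟨2, 1159641169⟩] ndB1q3 cZ :=
  certNd (T := (ftFarG true 3 mZ 1 1 27 1445 1080)) (L := [⟨2, 1159641169⟩]) (P1 := 1610612736) (W1 := 81782872) (P3 := 991146299) (W3 := 28908434) (n := ndB1q3) (c := cZ)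
    ⟨T.l 0,
      by decide +kernel⟩
theorem cA_r1_23 : CertNd 1610612736 81782872 991146299 28908434 (ftFarG true 3 mZ 1 1 27 1445 1080) [⟨2, 1159641169⟩] ndB2q3 cZ :=
  certNd (T := (ftFarG true 3 mZ 1 1 27 1445 1080)) (L := [⟨2, 1159641169⟩]) (P1 := 1610612736) (W1 := 81782872) (P3 := 991146299) (W3 := 28908434) (n := ndB2q3) (c := cZ)
    ⟨T.l 0,
      by decide +kernel⟩
theorem cA_r1_33 : CertNd 0 1230186008 991146299 28908434 (ftFarG true 3 mZ 1 1 27 1445 1080) [⟨0, 1222492358⟩, ⟨1, 1692395608⟩, ⟨2, 1159641169⟩] ndB3q3 cZ :=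
  certNd (T := (ftFarG true 3 mZ 1 1 27 1445 1080)) (L := [⟨0, 1222492358⟩, ⟨1, 1692395608⟩, ⟨2, 1159641169⟩]) (P1 := 0) (W1 := 1230186008) (P3 := 991146299) (W3 := 28908434) (n := ndB3q3) (c := cZ)
    ⟨T.l 5,
      by decide +kernel⟩
theorem cA_r1_43 : CertNd 0 1230186008 991146299 28908434 (ftFarG true 3 mZ 1 1 27 1445 1080) [⟨0, 1222492358⟩, ⟨1, 1692395608⟩, ⟨2, 1159641169⟩] ndB4q3 cZ :=
  certNd (T := (ftFarG true 3 mZ 1 1 27 1445 1080)) (L := [⟨0, 1222492358⟩, ⟨1, 1692395608⟩, ⟨2, 1159641169⟩]) (P1 := 0) (W1 := 1230186008) (P3 := 991146299) (W3 := 28908434) (n := ndB4q3) (c := cZ)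
    ⟨T.l 5,
      by decide +kernel⟩
theorem cA_r1_53 : CertNd 0 1230186008 991146299 28908434 (ftFarG true 3 mZ 1 1 27 1445 1080) [⟨0, 1222492358⟩, ⟨1, 1692395608⟩, ⟨2, 1159641169⟩] ndB5q3 cZ :=
  certNd (T := (ftFarG true 3 mZ 1 1 27 1445 1080)) (L := [⟨0, 1222492358⟩, ⟨1, 1692395608⟩, ⟨2, 1159641169⟩]) (P1 := 0) (W1 := 1230186008) (P3 := 991146299) (W3 := 28908434) (n := ndB5q3) (c := cZ)
    ⟨T.a (T.l 3) (T.a (T.l 0) (T.l 0)),
      by decide +kernel⟩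
theorem cA_n1_02z : CertNd 0 107374182 991146299 28908434 (ftNearE true 2 mZ 1 1 27 1445) [⟨0, 1222492358⟩, ⟨1, 1692395608⟩] ⟨ndB0q2.Y, onF, kq02, lq02⟩ cZ :=
  certNd (T := (ftNearE true 2 mZ 1 1 27 1445)) (L := [⟨0, 1222492358⟩, ⟨1, 1692395608⟩]) (P1 := 0) (W1 := 107374182) (P3 := 991146299) (W3 := 28908434) (n := ⟨ndB0q2.Y, onF, kq02, lq02⟩) (c := cZ)
    ⟨T.l 0,
      by decide +kernel⟩
theorem cA_n1_02 : CertNd 0 536870912 991146299 28908434 (ftNearE true 2 mZ 1 1 27 1445) [⟨0, 1222492358⟩, ⟨1, 1692395608⟩, ⟨2, 107374182⟩, ⟨3, 429496730⟩] ndB0q2 cZ :=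
  certNd (T := (ftNearE true 2 mZ 1 1 27 1445)) (L := [⟨0, 1222492358⟩, ⟨1, 1692395608⟩, ⟨2, 107374182⟩, ⟨3, 429496730⟩]) (P1 := 0) (W1 := 536870912) (P3 := 991146299) (W3 := 28908434) (n := ndB0q2) (c := cZ)
    ⟨T.a (T.a (T.a (T.l 5) (T.l 0)) (T.l 0)) (T.l 1),
      by decide +kernel⟩
theorem cA_n1_12 : CertNd 1222492358 388120378 991146299 28908434 (ftNearE true 2 mZ 1 1 27 1445) [⟨3, 429496730⟩] ndB1q2 cZ :=
  certNd (T := (ftNearE true 2 mZ 1 1 27 1445)) (L := [⟨3, 429496730⟩]) (P1 := 1222492358) (W1 := 388120378) (P3 := 991146299) (W3 := 28908434) (n := ndB1q2) (c := cZ)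
    ⟨T.a (T.a (T.a (T.a (T.a (T.l 0) (T.a (T.a (T.l 0) (T.a (T.l 0) (T.a (T.a (T.l 0) (T.l 0)) (T.l 0)))) (T.l 0))) (T.l 0)) (T.l 0)) (T.l 0)) (T.l 0),
      by decide +kernel⟩
theorem cA_n1_22 : CertNd 1222492358 388120378 991146299 28908434 (ftNearE true 2 mZ 1 1 27 1445) [⟨3, 429496730⟩] ndB2q2 cZ :=
  certNd (T := (ftNearE true 2 mZ 1 1 27 1445)) (L := [⟨3, 429496730⟩]) (P1 := 1222492358) (W1 := 388120378) (P3 := 991146299) (W3 := 28908434) (n := ndB2q2) (c := cZ)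
    ⟨T.a (T.l 0) (T.l 0),
      by decide +kernel⟩
theorem cA_n1_32 : CertNd 1222492358 388120378 991146299 28908434 (ftNearE true 2 mZ 1 1 27 1445) [⟨3, 429496730⟩] ndB3q2 cZ :=
  certNd (T := (ftNearE true 2 mZ 1 1 27 1445)) (L := [⟨3, 429496730⟩]) (P1 := 1222492358) (W1 := 388120378) (P3 := 991146299) (W3 := 28908434) (n := ndB3q2) (c := cZ)
    ⟨T.l 0,
      by decide +kernel⟩
theorem cA_n1_42 : CertNd 1222492358 388120378 991146299 28908434 (ftNearE true 2 mZ 1 1 27 1445) [⟨3, 429496730⟩] ndB4q2 cZ :=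
  certNd (T := (ftNearE true 2 mZ 1 1 27 1445)) (L := [⟨3, 429496730⟩]) (P1 := 1222492358) (W1 := 388120378) (P3 := 991146299) (W3 := 28908434) (n := ndB4q2) (c := cZ)
    ⟨T.l 0,
      by decide +kernel⟩
theorem cA_n1_52 : CertNd 1222492358 388120378 991146299 28908434 (ftNearE true 2 mZ 1 1 27 1445) [⟨3, 429496730⟩] ndB5q2 cZ :=
  certNd (T := (ftNearE true 2 mZ 1 1 27 1445)) (L := [⟨3, 429496730⟩]) (P1 := 1222492358) (W1 := 388120378) (P3 := 991146299) (W3 := 28908434) (n := ndB5q2) (c := cZ)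
    ⟨T.l 0,
      by decide +kernel⟩
theorem cA_n1_13 : CertNd 1610612736 81782872 991146299 28908434 (ftNearG true 3 mZ 1 1 27 1445) [⟨3, 429496730⟩] ndB1q3 cZ :=
  certNd (T := (ftNearG true 3 mZ 1 1 27 1445)) (L := [⟨3, 429496730⟩]) (P1 := 1610612736) (W1 := 81782872) (P3 := 991146299) (W3 := 28908434) (n := ndB1q3) (c := cZ)
    ⟨T.l 0,
      by decide +kernel⟩
theorem cA_n1_23 : CertNd 1610612736 81782872 991146299 28908434 (ftNearG true 3 mZ 1 1 27 1445) [⟨3, 429496730⟩] ndB2q3 cZ :=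
  certNd (T := (ftNearG true 3 mZ 1 1 27 1445)) (L := [⟨3, 429496730⟩]) (P1 := 1610612736) (W1 := 81782872) (P3 := 991146299) (W3 := 28908434) (n := ndB2q3) (c := cZ)
    ⟨T.l 0,
      by decide +kernel⟩
theorem cA_n1_33 : CertNd 0 1230186008 991146299 28908434 (ftNearG true 3 mZ 1 1 27 1445) [⟨0, 1222492358⟩, ⟨1, 1692395608⟩, ⟨3, 429496730⟩] ndB3q3 cZ :=
  certNd (T := (ftNearG true 3 mZ 1 1 27 1445)) (L := [⟨0, 1222492358⟩, ⟨1, 1692395608⟩, ⟨3, 429496730⟩]) (P1 := 0) (W1 := 1230186008) (P3 := 991146299) (W3 := 28908434) (n := ndB3q3) (c := cZ)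
    ⟨T.a (T.l 3) (T.a (T.l 0) (T.l 0)),
      by decide +kernel⟩
theorem cA_n1_43 : CertNd 0 1230186008 991146299 28908434 (ftNearG true 3 mZ 1 1 27 1445) [⟨0, 1222492358⟩, ⟨1, 1692395608⟩, ⟨3, 429496730⟩] ndB4q3 cZ :=
  certNd (T := (ftNearG true 3 mZ 1 1 27 1445)) (L := [⟨0, 1222492358⟩, ⟨1, 1692395608⟩, ⟨3, 429496730⟩]) (P1 := 0) (W1 := 1230186008) (P3 := 991146299) (W3 := 28908434) (n := ndB4q3) (c := cZ)
    ⟨T.a (T.l 3) (T.l 5),
      by decide +kernel⟩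
theorem cA_n1_53 : CertNd 0 1230186008 991146299 28908434 (ftNearG true 3 mZ 1 1 27 1445) [⟨0, 1222492358⟩, ⟨1, 1692395608⟩, ⟨3, 429496730⟩] ndB5q3 cZ :=
  certNd (T := (ftNearG true 3 mZ 1 1 27 1445)) (L := [⟨0, 1222492358⟩, ⟨1, 1692395608⟩, ⟨3, 429496730⟩]) (P1 := 0) (W1 := 1230186008) (P3 := 991146299) (W3 := 28908434) (n := ndB5q3) (c := cZ)
    ⟨T.a (T.l 3) (T.l 5),
      by decide +kernel⟩
theorem cA_R1_2 : CertSd 1222492358 388120378 991146299 28908434 (ftFarG true 2 mZ 1 1 27 1445 1080) [] idF (cnF 1080 1000) pcB2 dZ :=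
  certSd (T := (ftFarG true 2 mZ 1 1 27 1445 1080)) (L := []) (P1 := 1222492358) (W1 := 388120378) (P3 := 991146299) (W3 := 28908434) (Y := idF) (X := (cnF 1080 1000))
    (pc := pcB2) (c := dZ) ⟨T.a (T.l 0) (T.l 0),
      by decide +kernel⟩
theorem cA_N1_2 : CertSd 1222492358 388120378 991146299 28908434 (ftNearE true 2 mZ 1 1 27 1445) [] idF (cnF 400 1000) pcB2 dZ :=
  certSd (T := (ftNearE true 2 mZ 1 1 27 1445)) (L := []) (P1 := 1222492358) (W1 := 388120378) (P3 := 991146299) (W3 := 28908434) (Y := idF) (X := (cnF 400 1000))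
    (pc := pcB2) (c := dZ) ⟨T.a (T.l 0) (T.l 0),
      by decide +kernel⟩
theorem cA_R1_3 : CertSd 1610612736 68274543 991146299 28908434 (ftFarG true 3 mZ 1 1 27 1445 1080) [] idF (cnF 1080 1000) pcB3 dZ :=
  certSd (T := (ftFarG true 3 mZ 1 1 27 1445 1080)) (L := []) (P1 := 1610612736) (W1 := 68274543) (P3 := 991146299) (W3 := 28908434) (Y := idF) (X := (cnF 1080 1000))
    (pc := pcB3) (c := dZ) ⟨T.l 0,
      by decide +kernel⟩
theorem cA_N1_3 : CertSd 1610612736 81782872 991146299 28908434 (ftNearG true 3 mZ 1 1 27 1445) [] idF (cnF 400 1000) pcB3 dZ :=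
  certSd (T := (ftNearG true 3 mZ 1 1 27 1445)) (L := []) (P1 := 1610612736) (W1 := 81782872) (P3 := 991146299) (W3 := 28908434) (Y := idF) (X := (cnF 400 1000))
    (pc := pcB3) (c := dZ) ⟨T.l 0,
      by decide +kernel⟩

end Pool.Agent.Strip051.G.I9231_9500.Tab
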