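import Pool.Agent.Strip051.G.I9231_9500.Fs

/-! # Certificates at the floor (generated) -/

set_option linter.all false

namespace Pool.Agent.Strip051.G.I9231_9500.Tab

open Pool.Agent.Strip051.PB

theorem cB_m00 : CertNd 0 536870912 991146299 28908434 (ftMono false 0 mT) [] (Node.sc eng ndB0q0) (Fn2.sc esg cd0q0) :=
  certNd (T := (ftMono false 0 mT)) (L := []) (P1 := 0) (W1 := 536870912) (P3 := 991146299) (W3 := 28908434) (n := (Node.sc eng ndB0q0)) (c := (Fn2.sc esg cd0q0))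
    ⟨T.a (T.a (T.l 0) (T.l 0)) (T.l 0),
      by decide +kernel⟩
theorem cB_m01 : CertNd 536870912 536870912 991146299 28908434 (ftMono false 1 mT) [] (Node.sc eng ndB0q1) (Fn2.sc esg cd0q1) :=
  certNd (T := (ftMono false 1 mT)) (L := []) (P1 := 536870912) (W1 := 536870912) (P3 := 991146299) (W3 := 28908434) (n := (Node.sc eng ndB0q1)) (c := (Fn2.sc esg cd0q1))
    ⟨T.a (T.l 0) (T.a (T.l 0) (T.a (T.l 0) (T.l 0))),
      by decide +kernel⟩
theorem cB_g00 : CertGe 0 27917287 991146299 28908434 false [] (((1 : ℕ) : ℝ) / ((5 : ℕ) : ℝ)) 0 ((0 : ℕ) : ℝ)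
    (((2 : ℕ) : ℝ) / 2) mT (Node.sc eng ndB0q0) (Fn2.sc esg cd0q0) :=
  certGe (z := false) (L := []) (P1 := 0) (W1 := 27917287) (P3 := 991146299) (W3 := 28908434) (oa := 1) (ob := 5)
    (q := 0) (bb := 0) (hB := 2) (M := mT) (n := (Node.sc eng ndB0q0)) (c := (Fn2.sc esg cd0q0)) (sX := c1g_sf) (sK := (Sl2.sc eng kf0q0_sf))
    (sL := l0q0_sf) ⟨T.l 0,
      by decide +kernel⟩
theorem cB_w00a : CertNd 27917287 508953625 991146299 28908434 (ftWall false 0 mT 1 5) [] (Node.sc eng ndB0q0) (Fn2.sc esg cd0q0) :=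
  certNd (T := (ftWall false 0 mT 1 5)) (L := []) (P1 := 27917287) (W1 := 508953625) (P3 := 991146299) (W3 := 28908434) (n := (Node.sc eng ndB0q0)) (c := (Fn2.sc esg cd0q0))
    ⟨T.a (T.a (T.a (T.a (T.l 0) (T.l 0)) (T.l 0)) (T.l 0)) (T.a (T.l 0) (T.l 0)),
      by decide +kernel⟩
theorem cB_w01a : CertNd 536870912 450971566 991146299 28908434 (ftWall false 1 mT 1 5) [] (Node.sc eng ndB0q1) (Fn2.sc esg cd0q1) :=
  certNd (T := (ftWall false 1 mT 1 5)) (L := []) (P1 := 536870912) (W1 := 450971566) (P3 := 991146299) (W3 := 28908434) (n := (Node.sc eng ndB0q1)) (c := (Fn2.sc esg cd0q1))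
    ⟨T.a (T.a (T.l 0) (T.l 0)) (T.a (T.l 0) (T.a (T.c (T.l 0) (T.l 0)) (T.a (T.c (T.l 0) (T.l 0)) (T.c (T.a (T.c (T.l 0) (T.l 0)) (T.c (T.a (T.l 0) (T.c (T.a (T.l 0) (T.c (T.a (T.l 0) (T.l 0)) (T.l 0))) (T.c (T.l 0) (T.l 0)))) (T.a (T.l 0) (T.l 0)))) (T.a (T.l 0) (T.c (T.l 0) (T.l 0))))))),
      by decide +kernel⟩
theorem cB_w01b : CertNd 1025423441 43057049 991146299 28908434 (ftWall false 1 mT 1 5) [] (Node.sc eng ndB0q1) (Fn2.sc esg cd0q1) :=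
  certNd (T := (ftWall false 1 mT 1 5)) (L := []) (P1 := 1025423441) (W1 := 43057049) (P3 := 991146299) (W3 := 28908434) (n := (Node.sc eng ndB0q1)) (c := (Fn2.sc esg cd0q1))
    ⟨T.a (T.c (T.a (T.c (T.a (T.c (T.l 0) (T.l 0)) (T.c (T.l 0) (T.l 0))) (T.a (T.c (T.l 0) (T.c (T.l 0) (T.l 0))) (T.c (T.l 0) (T.l 0)))) (T.c (T.a (T.l 0) (T.l 0)) (T.a (T.c (T.l 0) (T.l 0)) (T.l 0)))) (T.a (T.c (T.a (T.c (T.c (T.l 0) (T.l 0)) (T.a (T.c (T.l 0) (T.l 0)) (T.l 0))) (T.c (T.c (T.l 0) (T.l 0)) (T.c (T.l 0) (T.l 0)))) (T.c (T.a (T.c (T.a (T.l 0) (T.l 0)) (T.a (T.l 0) (T.l 0))) (T.c (T.l 0) (T.a (T.l 0) (T.l 0)))) (T.a (T.c (T.a (T.c (T.l 0) (T.l 0)) (T.l 0)) (T.a (T.a (T.c (T.l 0) (T.l 0)) (T.l 0)) (T.c (T.l 0) (T.l 0)))) (T.a (T.c (T.l 0) (T.l 0)) (T.l 0))))) (T.c (T.a (T.c (T.l 0) (T.l 0)) (T.c (T.l 0) (T.l 0))) (T.a (T.c (T.l 0) (T.c (T.l 0) (T.l 0))) (T.c (T.l 0) (T.l 0)))))) (T.c (T.c (T.a (T.l 0)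 (T.c (T.l 0) (T.l 0))) (T.a (T.l 0) (T.c (T.l 0) (T.l 0)))) (T.c (T.a (T.c (T.l 0) (T.l 0)) (T.c (T.l 0) (T.l 0))) (T.a (T.c (T.l 0) (T.l 0)) (T.a (T.l 0) (T.c (T.l 0) (T.l 0)))))),
      by decide +kernel⟩
theorem cB_g01 : CertGe 1068480490 5261334 991146299 28908434 false [] (((1 : ℕ) : ℝ) / ((5 : ℕ) : ℝ)) 1 ((1 : ℕ) : ℝ)
    (((1 : ℕ) : ℝ) / 2) mT (Node.sc eng ndB0q1) (Fn2.sc esg cd0q1) :=
  certGe (z := false) (L := []) (P1 := 1068480490) (W1 := 5261334) (P3 := 991146299) (W3 := 28908434) (oa := 1) (ob := 5)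
    (q := 1) (bb := 1) (hB := 1) (M := mT) (n := (Node.sc eng ndB0q1)) (c := (Fn2.sc esg cd0q1)) (sX := c1g_sf) (sK := (Sl2.sc eng kf0q1_sf))
    (sL := l0q1_sf) ⟨T.c (T.l 0) (T.l 0),
      by decide +kernel⟩
theorem cB_tl : CertTg 987842478 37580963 991146299 28908434 (ftTk true mT mZ dlg 5 1) [⟨6, 0⟩] :=
  certTg (T := (ftTk true mT mZ dlg 5 1)) (L := [⟨6, 0⟩]) (P1 := 987842478) (W1 := 37580963) (P3 := 991146299) (W3 := 28908434)
    ⟨T.l 0,
      by decide +kernel⟩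
theorem cB_th : CertTg 987842478 37580963 991146299 28908434 (ftTk false mT mZ dlg 1203 1000) [⟨5, 0⟩] :=
  certTg (T := (ftTk false mT mZ dlg 1203 1000)) (L := [⟨5, 0⟩]) (P1 := 987842478) (W1 := 37580963) (P3 := 991146299) (W3 := 28908434)
    ⟨T.l 0,
      by decide +kernel⟩
theorem cB_m10 : CertNd 0 20401094 991146299 28908434 (ftMono false 0 mT) [] (Node.sc eng ndB1q0) (Fn2.sc esg cd1q0) :=
  certNd (T := (ftMono false 0 mT)) (L := []) (P1 := 0) (W1 := 20401094) (P3 := 991146299) (W3 := 28908434) (n := (Node.sc eng ndB1q0)) (c := (Fn2.sc esg cd1q0))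
    ⟨T.l 0,
      by decide +kernel⟩
theorem cB_g10 : CertGe 0 20401094 991146299 28908434 false [] (((1 : ℕ) : ℝ) / ((5 : ℕ) : ℝ)) 0 ((0 : ℕ) : ℝ)
    (((2 : ℕ) : ℝ) / 2) mT (Node.sc eng ndB1q0) (Fn2.sc esg cd1q0) :=
  certGe (z := false) (L := []) (P1 := 0) (W1 := 20401094) (P3 := 991146299) (W3 := 28908434) (oa := 1) (ob := 5)
    (q := 0) (bb := 0) (hB := 2) (M := mT) (n := (Node.sc eng ndB1q0)) (c := (Fn2.sc esg cd1q0)) (sX := cv1m_sf) (sK := (Sl2.sc eng kf1q0_sf))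
    (sL := l1q0_sf) ⟨T.l 0,
      by decide +kernel⟩
theorem cB_w10 : CertNd 20401094 516469818 991146299 28908434 (ftWall false 0 mT 1 5) [] (Node.sc eng ndB1q0) (Fn2.sc esg cd1q0) :=
  certNd (T := (ftWall false 0 mT 1 5)) (L := []) (P1 := 20401094) (W1 := 516469818) (P3 := 991146299) (W3 := 28908434) (n := (Node.sc eng ndB1q0)) (c := (Fn2.sc esg cd1q0))
    ⟨T.a (T.a (T.a (T.a (T.l 0) (T.l 0)) (T.l 0)) (T.l 0)) (T.l 0),
      by decide +kernel⟩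
theorem cB_w11 : CertNd 536870912 536870912 991146299 28908434 (ftWall false 1 mT 1 5) [] (Node.sc eng ndB1q1) (Fn2.sc esg cd1q1) :=
  certNd (T := (ftWall false 1 mT 1 5)) (L := []) (P1 := 536870912) (W1 := 536870912) (P3 := 991146299) (W3 := 28908434) (n := (Node.sc eng ndB1q1)) (c := (Fn2.sc esg cd1q1))
    ⟨T.a (T.l 0) (T.a (T.l 0) (T.a (T.l 0) (T.a (T.l 0) (T.l 0)))),
      by decide +kernel⟩
theorem cB_m20 : CertNd 0 20401094 991146299 28908434 (ftMono false 0 mT) [] (Node.sc eng ndB2q0) (Fn2.sc esg cd2q0) :=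
  certNd (T := (ftMono false 0 mT)) (L := []) (P1 := 0) (W1 := 20401094) (P3 := 991146299) (W3 := 28908434) (n := (Node.sc eng ndB2q0)) (c := (Fn2.sc esg cd2q0))
    ⟨T.l 0,
      by decide +kernel⟩
theorem cB_g20 : CertGe 0 20401094 991146299 28908434 false [] (((1 : ℕ) : ℝ) / ((5 : ℕ) : ℝ)) 0 ((0 : ℕ) : ℝ)
    (((2 : ℕ) : ℝ) / 2) mT (Node.sc eng ndB2q0) (Fn2.sc esg cd2q0) :=
  certGe (z := false) (L := []) (P1 := 0) (W1 := 20401094) (P3 := 991146299) (W3 := 28908434) (oa := 1) (ob := 5)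
    (q := 0) (bb := 0) (hB := 2) (M := mT) (n := (Node.sc eng ndB2q0)) (c := (Fn2.sc esg cd2q0)) (sX := cv2m_sf) (sK := (Sl2.sc eng kf2q0_sf))
    (sL := l2q0_sf) ⟨T.l 0,
      by decide +kernel⟩
theorem cB_w20 : CertNd 20401094 516469818 991146299 28908434 (ftWall false 0 mT 1 5) [] (Node.sc eng ndB2q0) (Fn2.sc esg cd2q0) :=
  certNd (T := (ftWall false 0 mT 1 5)) (L := []) (P1 := 20401094) (W1 := 516469818) (P3 := 991146299) (W3 := 28908434) (n := (Node.sc eng ndB2q0)) (c := (Fn2.sc esg cd2q0))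
    ⟨T.a (T.a (T.a (T.a (T.l 0) (T.l 0)) (T.l 0)) (T.l 0)) (T.l 0),
      by decide +kernel⟩
theorem cB_w21 : CertNd 536870912 536870912 991146299 28908434 (ftWall false 1 mT 1 5) [] (Node.sc eng ndB2q1) (Fn2.sc esg cd2q1) :=
  certNd (T := (ftWall false 1 mT 1 5)) (L := []) (P1 := 536870912) (W1 := 536870912) (P3 := 991146299) (W3 := 28908434) (n := (Node.sc eng ndB2q1)) (c := (Fn2.sc esg cd2q1))
    ⟨T.a (T.l 0) (T.a (T.l 0) (T.a (T.l 0) (T.a (T.l 0) (T.l 0)))),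
      by decide +kernel⟩
theorem cB_f30 : CertNd 0 12398503 991146299 28908434 (ftFlatG false 0 mT 1 5 15) [] (Node.sc eng ndB3q0) (Fn2.sc esg cd3q0) :=
  certNd (T := (ftFlatG false 0 mT 1 5 15)) (L := []) (P1 := 0) (W1 := 12398503) (P3 := 991146299) (W3 := 28908434) (n := (Node.sc eng ndB3q0)) (c := (Fn2.sc esg cd3q0))
    ⟨T.l 0,
      by decide +kernel⟩
theorem cB_l30 : CertNd 0 12398503 991146299 28908434 (ftWall false 0 mT 1 5) [⟨3, 1159641170⟩] (Node.sc eng ndB3q0) (Fn2.sc esg cd3q0) :=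
  certNd (T := (ftWall false 0 mT 1 5)) (L := [⟨3, 1159641170⟩]) (P1 := 0) (W1 := 12398503) (P3 := 991146299) (W3 := 28908434) (n := (Node.sc eng ndB3q0)) (c := (Fn2.sc esg cd3q0))
    ⟨T.l 1,
      by decide +kernel⟩
theorem cB_w30 : CertNd 12398502 524472410 991146299 28908434 (ftWall false 0 mT 1 5) [] (Node.sc eng ndB3q0) (Fn2.sc esg cd3q0) :=
  certNd (T := (ftWall false 0 mT 1 5)) (L := []) (P1 := 12398502) (W1 := 524472410) (P3 := 991146299) (W3 := 28908434) (n := (Node.sc eng ndB3q0)) (c := (Fn2.sc esg cd3q0))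
    ⟨T.a (T.a (T.a (T.a (T.c (T.a (T.c (T.l 0) (T.l 0)) (T.c (T.l 0) (T.l 0))) (T.a (T.l 0) (T.l 0))) (T.a (T.a (T.a (T.c (T.l 0) (T.l 0)) (T.l 0)) (T.l 0)) (T.l 0))) (T.a (T.c (T.l 0) (T.l 0)) (T.l 0))) (T.l 0)) (T.l 0),
      by decide +kernel⟩
theorem cB_w31 : CertNd 536870912 536870912 991146299 28908434 (ftWall false 1 mT 1 5) [] (Node.sc eng ndB3q1) (Fn2.sc esg cd3q1) :=
  certNd (T := (ftWall false 1 mT 1 5)) (L := []) (P1 := 536870912) (W1 := 536870912) (P3 := 991146299) (W3 := 28908434) (n := (Node.sc eng ndB3q1)) (c := (Fn2.sc esg cd3q1))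
    ⟨T.a (T.l 0) (T.a (T.l 0) (T.a (T.l 0) (T.a (T.l 0) (T.l 0)))),
      by decide +kernel⟩
theorem cB_w32 : CertNd 1073741824 166215235 991146299 28908434 (ftWall false 2 mT 1 5) [⟨4, 0⟩] (Node.sc eng ndB3q2) (Fn2.sc esg cd3q2) :=
  certNd (T := (ftWall false 2 mT 1 5)) (L := [⟨4, 0⟩]) (P1 := 1073741824) (W1 := 166215235) (P3 := 991146299) (W3 := 28908434) (n := (Node.sc eng ndB3q2)) (c := (Fn2.sc esg cd3q2))
    ⟨T.l 0,
      by decide +kernel⟩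
theorem cB_f40 : CertNd 0 12398503 991146299 28908434 (ftFlatG false 0 mT 1 5 15) [] (Node.sc eng ndB4q0) (Fn2.sc esg cd4q0) :=
  certNd (T := (ftFlatG false 0 mT 1 5 15)) (L := []) (P1 := 0) (W1 := 12398503) (P3 := 991146299) (W3 := 28908434) (n := (Node.sc eng ndB4q0)) (c := (Fn2.sc esg cd4q0))
    ⟨T.l 0,
      by decide +kernel⟩
theorem cB_l40 : CertNd 0 12398503 991146299 28908434 (ftWall false 0 mT 1 5) [⟨3, 1159641170⟩] (Node.sc eng ndB4q0) (Fn2.sc esg cd4q0) :=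
  certNd (T := (ftWall false 0 mT 1 5)) (L := [⟨3, 1159641170⟩]) (P1 := 0) (W1 := 12398503) (P3 := 991146299) (W3 := 28908434) (n := (Node.sc eng ndB4q0)) (c := (Fn2.sc esg cd4q0))
    ⟨T.l 1,
      by decide +kernel⟩
theorem cB_w40 : CertNd 12398502 524472410 991146299 28908434 (ftWall false 0 mT 1 5) [] (Node.sc eng ndB4q0) (Fn2.sc esg cd4q0) :=
  certNd (T := (ftWall false 0 mT 1 5)) (L := []) (P1 := 12398502) (W1 := 524472410) (P3 := 991146299) (W3 := 28908434) (n := (Node.sc eng ndB4q0)) (c := (Fn2.sc esg cd4q0))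
    ⟨T.a (T.a (T.a (T.a (T.a (T.a (T.c (T.l 0) (T.l 0)) (T.l 0)) (T.l 0)) (T.l 0)) (T.l 0)) (T.l 0)) (T.l 0),
      by decide +kernel⟩
theorem cB_w41 : CertNd 536870912 536870912 991146299 28908434 (ftWall false 1 mT 1 5) [] (Node.sc eng ndB4q1) (Fn2.sc esg cd4q1) :=
  certNd (T := (ftWall false 1 mT 1 5)) (L := []) (P1 := 536870912) (W1 := 536870912) (P3 := 991146299) (W3 := 28908434) (n := (Node.sc eng ndB4q1)) (c := (Fn2.sc esg cd4q1))
    ⟨T.a (T.l 0) (T.a (T.l 0) (T.a (T.l 0) (T.a (T.l 0) (T.l 0)))),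
      by decide +kernel⟩
theorem cB_w42 : CertNd 1073741824 166215235 991146299 28908434 (ftWall false 2 mT 1 5) [⟨4, 0⟩] (Node.sc eng ndB4q2) (Fn2.sc esg cd4q2) :=
  certNd (T := (ftWall false 2 mT 1 5)) (L := [⟨4, 0⟩]) (P1 := 1073741824) (W1 := 166215235) (P3 := 991146299) (W3 := 28908434) (n := (Node.sc eng ndB4q2)) (c := (Fn2.sc esg cd4q2))
    ⟨T.l 0,
      by decide +kernel⟩
theorem cB_f50 : CertNd 0 12398503 991146299 28908434 (ftFlatG false 0 mT 1 5 15) [] (Node.sc eng ndB5q0) (Fn2.sc esg cd5q0) :=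
  certNd (T := (ftFlatG false 0 mT 1 5 15)) (L := []) (P1 := 0) (W1 := 12398503) (P3 := 991146299) (W3 := 28908434) (n := (Node.sc eng ndB5q0)) (c := (Fn2.sc esg cd5q0))
    ⟨T.l 0,
      by decide +kernel⟩
theorem cB_l50 : CertNd 0 12398503 991146299 28908434 (ftWall false 0 mT 1 5) [⟨3, 1159641170⟩] (Node.sc eng ndB5q0) (Fn2.sc esg cd5q0) :=
  certNd (T := (ftWall false 0 mT 1 5)) (L := [⟨3, 1159641170⟩]) (P1 := 0) (W1 := 12398503) (P3 := 991146299) (W3 := 28908434) (n := (Node.sc eng ndB5q0)) (c := (Fn2.sc esg cd5q0))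
    ⟨T.l 0,
      by decide +kernel⟩
theorem cB_w50 : CertNd 12398502 524472410 991146299 28908434 (ftWall false 0 mT 1 5) [] (Node.sc eng ndB5q0) (Fn2.sc esg cd5q0) :=
  certNd (T := (ftWall false 0 mT 1 5)) (L := []) (P1 := 12398502) (W1 := 524472410) (P3 := 991146299) (W3 := 28908434) (n := (Node.sc eng ndB5q0)) (c := (Fn2.sc esg cd5q0))
    ⟨T.a (T.a (T.l 0) (T.l 0)) (T.l 0),
      by decide +kernel⟩
theorem cB_w51 : CertNd 536870912 536870912 991146299 28908434 (ftWall false 1 mT 1 5) [] (Node.sc eng ndB5q1) (Fn2.sc esg cd5q1) :=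
  certNd (T := (ftWall false 1 mT 1 5)) (L := []) (P1 := 536870912) (W1 := 536870912) (P3 := 991146299) (W3 := 28908434) (n := (Node.sc eng ndB5q1)) (c := (Fn2.sc esg cd5q1))
    ⟨T.a (T.l 0) (T.a (T.l 0) (T.a (T.l 0) (T.a (T.l 0) (T.l 0)))),
      by decide +kernel⟩
theorem cB_w52 : CertNd 1073741824 166215235 991146299 28908434 (ftWall false 2 mT 1 5) [⟨4, 0⟩] (Node.sc eng ndB5q2) (Fn2.sc esg cd5q2) :=
  certNd (T := (ftWall false 2 mT 1 5)) (L := [⟨4, 0⟩]) (P1 := 1073741824) (W1 := 166215235) (P3 := 991146299) (W3 := 28908434) (n := (Node.sc eng ndB5q2)) (c := (Fn2.sc esg cd5q2))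
    ⟨T.l 0,
      by decide +kernel⟩
theorem cB_ll : CertSd 0 12398503 991146299 28908434 (ftWall false 0 mT 1 5) [] idF (cnF 1080 1000) pcE0 (Fn3.sc esg pd0) :=
  certSd (T := (ftWall false 0 mT 1 5)) (L := []) (P1 := 0) (W1 := 12398503) (P3 := 991146299) (W3 := 28908434) (Y := idF) (X := (cnF 1080 1000))
    (pc := pcE0) (c := (Fn3.sc esg pd0)) ⟨T.c (T.a (T.a (T.c (T.l 0) (T.l 0)) (T.l 0)) (T.l 0)) (T.a (T.a (T.a (T.c (T.l 0) (T.c (T.l 0) (T.l 0))) (T.l 0)) (T.l 0)) (T.l 0)),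
      by decide +kernel⟩
theorem cB_st : CertSt 1073741824 46170898 991146299 28908434 false [] (((1 : ℕ) : ℝ) / ((5 : ℕ) : ℝ)) mT (Node.sc eng ndB2q2) (Fn2.sc esg cd2q2) (Node.sc eng ndB3q2) (Fn2.sc esg cd3q2) :=
  certSt (z := false) (L := []) (P1 := 1073741824) (W1 := 46170898) (P3 := 991146299) (W3 := 28908434) (oa := 1) (ob := 5)
    (M := mT) (n := (Node.sc eng ndB2q2)) (c := (Fn2.sc esg cd2q2)) (n' := (Node.sc eng ndB3q2)) (c' := (Fn2.sc esg cd3q2)) (sX := cv2p_sf) (sK := (Sl2.sc eng kf2q2_sf)) (sL := l2q2_sf)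
    ⟨T.l 0,
      by decide +kernel⟩
theorem cB_sm : CertSd 460725649 76145263 991146299 28908434 (ftMono false 2 mT) [] ygF xsF pcE2 (Fn3.sc esg pd2) :=
  certSd (T := (ftMono false 2 mT)) (L := []) (P1 := 460725649) (W1 := 76145263) (P3 := 991146299) (W3 := 28908434) (Y := ygF) (X := xsF)
    (pc := pcE2) (c := (Fn3.sc esg pd2)) ⟨T.l 0,
      by decide +kernel⟩
theorem cB_sw : CertSd 0 460725653 991146299 28908434 (ftWall false 2 mT 1 5) [] ygF xsF pcE2 (Fn3.sc esg pd2) :=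
  certSd (T := (ftWall false 2 mT 1 5)) (L := []) (P1 := 0) (W1 := 460725653) (P3 := 991146299) (W3 := 28908434) (Y := ygF) (X := xsF)
    (pc := pcE2) (c := (Fn3.sc esg pd2)) ⟨T.a (T.l 0) (T.a (T.l 0) (T.l 0)),
      by decide +kernel⟩
theorem cB_h0_11 : CertNd 991880209 80590268 991146299 28908434 (ftHighG false 1 mT 1 5 27 0 1080) [] (Node.sc eng ndB1q1) (Fn2.sc esg cd1q1) :=
  certNd (T := (ftHighG false 1 mT 1 5 27 0 1080)) (L := []) (P1 := 991880209) (W1 := 80590268) (P3 := 991146299) (W3 := 28908434) (n := (Node.sc eng ndB1q1)) (c := (Fn2.sc esg cd1q1))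
    ⟨T.a (T.l 0) (T.l 0),
      by decide +kernel⟩
theorem cB_h0_21 : CertNd 991880209 80590268 991146299 28908434 (ftHighG false 1 mT 1 5 27 0 1080) [] (Node.sc eng ndB2q1) (Fn2.sc esg cd2q1) :=
  certNd (T := (ftHighG false 1 mT 1 5 27 0 1080)) (L := []) (P1 := 991880209) (W1 := 80590268) (P3 := 991146299) (W3 := 28908434) (n := (Node.sc eng ndB2q1)) (c := (Fn2.sc esg cd2q1))
    ⟨T.a (T.l 0) (T.l 0),
      by decide +kernel⟩
theorem cB_h0_31 : CertNd 991880209 80590268 991146299 28908434 (ftHighG false 1 mT 1 5 27 0 1080) [] (Node.sc eng ndB3q1) (Fn2.sc esg cd3q1) :=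
  certNd (T := (ftHighG false 1 mT 1 5 27 0 1080)) (L := []) (P1 := 991880209) (W1 := 80590268) (P3 := 991146299) (W3 := 28908434) (n := (Node.sc eng ndB3q1)) (c := (Fn2.sc esg cd3q1))
    ⟨T.a (T.l 0) (T.l 0),
      by decide +kernel⟩
theorem cB_h0_41 : CertNd 991880209 80590268 991146299 28908434 (ftHighG false 1 mT 1 5 27 0 1080) [] (Node.sc eng ndB4q1) (Fn2.sc esg cd4q1) :=
  certNd (T := (ftHighG false 1 mT 1 5 27 0 1080)) (L := []) (P1 := 991880209) (W1 := 80590268) (P3 := 991146299) (W3 := 28908434) (n := (Node.sc eng ndB4q1)) (c := (Fn2.sc esg cd4q1))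
    ⟨T.a (T.l 0) (T.l 0),
      by decide +kernel⟩
theorem cB_h0_51 : CertNd 991880209 80590268 991146299 28908434 (ftHighG false 1 mT 1 5 27 0 1080) [] (Node.sc eng ndB5q1) (Fn2.sc esg cd5q1) :=
  certNd (T := (ftHighG false 1 mT 1 5 27 0 1080)) (L := []) (P1 := 991880209) (W1 := 80590268) (P3 := 991146299) (W3 := 28908434) (n := (Node.sc eng ndB5q1)) (c := (Fn2.sc esg cd5q1))
    ⟨T.a (T.l 0) (T.l 0),
      by decide +kernel⟩
theorem cB_h1_01 : CertNd 1060071974 13669850 991146299 28908434 (ftHighG false 1 mT 1 5 27 820 1080) [] (Node.sc eng ndB0q1) (Fn2.sc esg cd0q1) :=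
  certNd (T := (ftHighG false 1 mT 1 5 27 820 1080)) (L := []) (P1 := 1060071974) (W1 := 13669850) (P3 := 991146299) (W3 := 28908434) (n := (Node.sc eng ndB0q1)) (c := (Fn2.sc esg cd0q1))
    ⟨T.l 0,
      by decide +kernel⟩
theorem cB_h1_11 : CertNd 1060071974 13669850 991146299 28908434 (ftHighG false 1 mT 1 5 27 820 1080) [] (Node.sc eng ndB1q1) (Fn2.sc esg cd1q1) :=
  certNd (T := (ftHighG false 1 mT 1 5 27 820 1080)) (L := []) (P1 := 1060071974) (W1 := 13669850) (P3 := 991146299) (W3 := 28908434) (n := (Node.sc eng ndB1q1)) (c := (Fn2.sc esg cd1q1))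
    ⟨T.c (T.l 0) (T.l 0),
      by decide +kernel⟩
theorem cB_h1_21 : CertNd 1060071974 13669850 991146299 28908434 (ftHighG false 1 mT 1 5 27 820 1080) [] (Node.sc eng ndB2q1) (Fn2.sc esg cd2q1) :=
  certNd (T := (ftHighG false 1 mT 1 5 27 820 1080)) (L := []) (P1 := 1060071974) (W1 := 13669850) (P3 := 991146299) (W3 := 28908434) (n := (Node.sc eng ndB2q1)) (c := (Fn2.sc esg cd2q1))
    ⟨T.l 0,
      by decide +kernel⟩
theorem cB_h1_31 : CertNd 1060071974 13669850 991146299 28908434 (ftHighG false 1 mT 1 5 27 820 1080) [] (Node.sc eng ndB3q1) (Fn2.sc esg cd3q1) :=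
  certNd (T := (ftHighG false 1 mT 1 5 27 820 1080)) (L := []) (P1 := 1060071974) (W1 := 13669850) (P3 := 991146299) (W3 := 28908434) (n := (Node.sc eng ndB3q1)) (c := (Fn2.sc esg cd3q1))
    ⟨T.l 0,
      by decide +kernel⟩
theorem cB_h1_41 : CertNd 1060071974 13669850 991146299 28908434 (ftHighG false 1 mT 1 5 27 820 1080) [] (Node.sc eng ndB4q1) (Fn2.sc esg cd4q1) :=
  certNd (T := (ftHighG false 1 mT 1 5 27 820 1080)) (L := []) (P1 := 1060071974) (W1 := 13669850) (P3 := 991146299) (W3 := 28908434) (n := (Node.sc eng ndB4q1)) (c := (Fn2.sc esg cd4q1))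
    ⟨T.l 0,
      by decide +kernel⟩
theorem cB_h1_51 : CertNd 1060071974 13669850 991146299 28908434 (ftHighG false 1 mT 1 5 27 820 1080) [] (Node.sc eng ndB5q1) (Fn2.sc esg cd5q1) :=
  certNd (T := (ftHighG false 1 mT 1 5 27 820 1080)) (L := []) (P1 := 1060071974) (W1 := 13669850) (P3 := 991146299) (W3 := 28908434) (n := (Node.sc eng ndB5q1)) (c := (Fn2.sc esg cd5q1))
    ⟨T.l 0,
      by decide +kernel⟩
theorem cB_h1_02 : CertNd 0 536870912 991146299 28908434 (ftHighG false 2 mT 1 5 27 820 1080) [⟨0, 1060071974⟩, ⟨1, 1196455504⟩] (Node.sc eng ndB0q2) (Fn2.sc esg cd0q2) :=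
  certNd (T := (ftHighG false 2 mT 1 5 27 820 1080)) (L := [⟨0, 1060071974⟩, ⟨1, 1196455504⟩]) (P1 := 0) (W1 := 536870912) (P3 := 991146299) (W3 := 28908434) (n := (Node.sc eng ndB0q2)) (c := (Fn2.sc esg cd0q2))
    ⟨T.a (T.l 3) (T.a (T.l 0) (T.a (T.l 0) (T.l 0))),
      by decide +kernel⟩
theorem cB_h1_12 : CertNd 1073741824 122713680 991146299 28908434 (ftHighG false 2 mT 1 5 27 820 1080) [] (Node.sc eng ndB1q2) (Fn2.sc esg cd1q2) :=
  certNd (T := (ftHighG false 2 mT 1 5 27 820 1080)) (L := []) (P1 := 1073741824) (W1 := 122713680) (P3 := 991146299) (W3 := 28908434) (n := (Node.sc eng ndB1q2)) (c := (Fn2.sc esg cd1q2))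
    ⟨T.a (T.l 0) (T.l 0),
      by decide +kernel⟩
theorem cB_h1_22 : CertNd 1073741824 122713680 991146299 28908434 (ftHighG false 2 mT 1 5 27 820 1080) [] (Node.sc eng ndB2q2) (Fn2.sc esg cd2q2) :=
  certNd (T := (ftHighG false 2 mT 1 5 27 820 1080)) (L := []) (P1 := 1073741824) (W1 := 122713680) (P3 := 991146299) (W3 := 28908434) (n := (Node.sc eng ndB2q2)) (c := (Fn2.sc esg cd2q2))
    ⟨T.l 0,
      by decide +kernel⟩
theorem cB_h1_32 : CertNd 1073741824 122713680 991146299 28908434 (ftHighG false 2 mT 1 5 27 820 1080) [] (Node.sc eng ndB3q2) (Fn2.sc esg cd3q2) :=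
  certNd (T := (ftHighG false 2 mT 1 5 27 820 1080)) (L := []) (P1 := 1073741824) (W1 := 122713680) (P3 := 991146299) (W3 := 28908434) (n := (Node.sc eng ndB3q2)) (c := (Fn2.sc esg cd3q2))
    ⟨T.l 0,
      by decide +kernel⟩
theorem cB_h1_42 : CertNd 1073741824 122713680 991146299 28908434 (ftHighG false 2 mT 1 5 27 820 1080) [] (Node.sc eng ndB4q2) (Fn2.sc esg cd4q2) :=
  certNd (T := (ftHighG false 2 mT 1 5 27 820 1080)) (L := []) (P1 := 1073741824) (W1 := 122713680) (P3 := 991146299) (W3 := 28908434) (n := (Node.sc eng ndB4q2)) (c := (Fn2.sc esg cd4q2))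
    ⟨T.l 0,
      by decide +kernel⟩
theorem cB_h1_52 : CertNd 1073741824 122713680 991146299 28908434 (ftHighG false 2 mT 1 5 27 820 1080) [] (Node.sc eng ndB5q2) (Fn2.sc esg cd5q2) :=
  certNd (T := (ftHighG false 2 mT 1 5 27 820 1080)) (L := []) (P1 := 1073741824) (W1 := 122713680) (P3 := 991146299) (W3 := 28908434) (n := (Node.sc eng ndB5q2)) (c := (Fn2.sc esg cd5q2))
    ⟨T.l 0,
      by decide +kernel⟩
theorem cB_h2_02 : CertNd 0 536870912 991146299 28908434 (ftHighG false 2 mT 1 5 27 1080 1080) [⟨0, 1184057000⟩, ⟨1, 2120143949⟩] (Node.sc eng ndB0q2) (Fn2.sc esg cd0q2) :=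
  certNd (T := (ftHighG false 2 mT 1 5 27 1080 1080)) (L := [⟨0, 1184057000⟩, ⟨1, 2120143949⟩]) (P1 := 0) (W1 := 536870912) (P3 := 991146299) (W3 := 28908434) (n := (Node.sc eng ndB0q2)) (c := (Fn2.sc esg cd0q2))
    ⟨T.a (T.l 0) (T.a (T.l 0) (T.l 0)),
      by decide +kernel⟩
theorem cB_h2_12 : CertNd 1184057000 426555736 991146299 28908434 (ftHighG false 2 mT 1 5 27 1080 1080) [] (Node.sc eng ndB1q2) (Fn2.sc esg cd1q2) :=
  certNd (T := (ftHighG false 2 mT 1 5 27 1080 1080)) (L := []) (P1 := 1184057000) (W1 := 426555736) (P3 := 991146299) (W3 := 28908434) (n := (Node.sc eng ndB1q2)) (c := (Fn2.sc esg cd1q2))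
    ⟨T.a (T.a (T.a (T.l 0) (T.l 0)) (T.l 0)) (T.l 0),
      by decide +kernel⟩
theorem cB_h2_22 : CertNd 1184057000 426555736 991146299 28908434 (ftHighG false 2 mT 1 5 27 1080 1080) [] (Node.sc eng ndB2q2) (Fn2.sc esg cd2q2) :=
  certNd (T := (ftHighG false 2 mT 1 5 27 1080 1080)) (L := []) (P1 := 1184057000) (W1 := 426555736) (P3 := 991146299) (W3 := 28908434) (n := (Node.sc eng ndB2q2)) (c := (Fn2.sc esg cd2q2))
    ⟨T.a (T.a (T.a (T.l 0) (T.l 0)) (T.l 0)) (T.l 0),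
      by decide +kernel⟩
theorem cB_h2_32 : CertNd 1184057000 426555736 991146299 28908434 (ftHighG false 2 mT 1 5 27 1080 1080) [] (Node.sc eng ndB3q2) (Fn2.sc esg cd3q2) :=
  certNd (T := (ftHighG false 2 mT 1 5 27 1080 1080)) (L := []) (P1 := 1184057000) (W1 := 426555736) (P3 := 991146299) (W3 := 28908434) (n := (Node.sc eng ndB3q2)) (c := (Fn2.sc esg cd3q2))
    ⟨T.a (T.l 0) (T.l 0),
      by decide +kernel⟩
theorem cB_h2_42 : CertNd 1184057000 426555736 991146299 28908434 (ftHighG false 2 mT 1 5 27 1080 1080) [] (Node.sc eng ndB4q2) (Fn2.sc esg cd4q2) :=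
  certNd (T := (ftHighG false 2 mT 1 5 27 1080 1080)) (L := []) (P1 := 1184057000) (W1 := 426555736) (P3 := 991146299) (W3 := 28908434) (n := (Node.sc eng ndB4q2)) (c := (Fn2.sc esg cd4q2))
    ⟨T.a (T.a (T.l 0) (T.l 0)) (T.l 0),
      by decide +kernel⟩
theorem cB_h2_52 : CertNd 1184057000 426555736 991146299 28908434 (ftHighG false 2 mT 1 5 27 1080 1080) [] (Node.sc eng ndB5q2) (Fn2.sc esg cd5q2) :=
  certNd (T := (ftHighG false 2 mT 1 5 27 1080 1080)) (L := []) (P1 := 1184057000) (W1 := 426555736) (P3 := 991146299) (W3 := 28908434) (n := (Node.sc eng ndB5q2)) (c := (Fn2.sc esg cd5q2))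
    ⟨T.a (T.a (T.a (T.l 0) (T.l 0)) (T.l 0)) (T.l 0),
      by decide +kernel⟩
theorem cB_h2_13 : CertNd 1610612736 509531213 991146299 28908434 (ftHighG false 3 mT 1 5 27 1080 1080) [] (Node.sc eng ndB1q3) (Fn2.sc esg cd1q3) :=
  certNd (T := (ftHighG false 3 mT 1 5 27 1080 1080)) (L := []) (P1 := 1610612736) (W1 := 509531213) (P3 := 991146299) (W3 := 28908434) (n := (Node.sc eng ndB1q3)) (c := (Fn2.sc esg cd1q3))
    ⟨T.a (T.l 0) (T.a (T.l 0) (T.a (T.l 0) (T.l 0))),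
      by decide +kernel⟩
theorem cB_h2_23 : CertNd 1610612736 509531213 991146299 28908434 (ftHighG false 3 mT 1 5 27 1080 1080) [] (Node.sc eng ndB2q3) (Fn2.sc esg cd2q3) :=
  certNd (T := (ftHighG false 3 mT 1 5 27 1080 1080)) (L := []) (P1 := 1610612736) (W1 := 509531213) (P3 := 991146299) (W3 := 28908434) (n := (Node.sc eng ndB2q3)) (c := (Fn2.sc esg cd2q3))
    ⟨T.a (T.l 0) (T.a (T.l 0) (T.a (T.l 0) (T.l 0))),
      by decide +kernel⟩
theorem cB_h2_33 : CertNd 0 1230186008 991146299 28908434 (ftHighG false 3 mT 1 5 27 1080 1080) [⟨0, 1184057000⟩, ⟨1, 2120143949⟩] (Node.sc eng ndB3q3) (Fn2.sc esg cd3q3) :=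
  certNd (T := (ftHighG false 3 mT 1 5 27 1080 1080)) (L := [⟨0, 1184057000⟩, ⟨1, 2120143949⟩]) (P1 := 0) (W1 := 1230186008) (P3 := 991146299) (W3 := 28908434) (n := (Node.sc eng ndB3q3)) (c := (Fn2.sc esg cd3q3))
    ⟨T.a (T.a (T.l 0) (T.a (T.a (T.l 0) (T.l 0)) (T.a (T.l 0) (T.l 0)))) (T.a (T.l 0) (T.a (T.l 0) (T.l 0))),
      by decide +kernel⟩
theorem cB_h2_43 : CertNd 0 1230186008 991146299 28908434 (ftHighG false 3 mT 1 5 27 1080 1080) [⟨0, 1184057000⟩, ⟨1, 2120143949⟩] (Node.sc eng ndB4q3) (Fn2.sc esg cd4q3) :=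
  certNd (T := (ftHighG false 3 mT 1 5 27 1080 1080)) (L := [⟨0, 1184057000⟩, ⟨1, 2120143949⟩]) (P1 := 0) (W1 := 1230186008) (P3 := 991146299) (W3 := 28908434) (n := (Node.sc eng ndB4q3)) (c := (Fn2.sc esg cd4q3))
    ⟨T.a (T.a (T.l 0) (T.a (T.l 0) (T.l 0))) (T.a (T.l 0) (T.l 0)),
      by decide +kernel⟩
theorem cB_h2_53 : CertNd 0 1230186008 991146299 28908434 (ftHighG false 3 mT 1 5 27 1080 1080) [⟨0, 1184057000⟩, ⟨1, 2120143949⟩] (Node.sc eng ndB5q3) (Fn2.sc esg cd5q3) :=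
  certNd (T := (ftHighG false 3 mT 1 5 27 1080 1080)) (L := [⟨0, 1184057000⟩, ⟨1, 2120143949⟩]) (P1 := 0) (W1 := 1230186008) (P3 := 991146299) (W3 := 28908434) (n := (Node.sc eng ndB5q3)) (c := (Fn2.sc esg cd5q3))
    ⟨T.a (T.a (T.a (T.l 0) (T.l 0)) (T.a (T.l 0) (T.l 0))) (T.a (T.l 0) (T.l 0)),
      by decide +kernel⟩
theorem cB_r0_02 : CertNd 0 536870912 991146299 28908434 (ftFarG false 2 mT 1 5 27 1245 1080) [⟨0, 1123304337⟩, ⟨1, 1290684124⟩, ⟨2, 1159641169⟩] (Node.sc eng ndB0q2) (Fn2.sc esg cd0q2) :=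
  certNd (T := (ftFarG false 2 mT 1 5 27 1245 1080)) (L := [⟨0, 1123304337⟩, ⟨1, 1290684124⟩, ⟨2, 1159641169⟩]) (P1 := 0) (W1 := 536870912) (P3 := 991146299) (W3 := 28908434) (n := (Node.sc eng ndB0q2)) (c := (Fn2.sc esg cd0q2))
    ⟨T.l 5,
      by decide +kernel⟩
theorem cB_r0_12 : CertNd 1123304337 167379787 991146299 28908434 (ftFarG false 2 mT 1 5 27 1245 1080) [⟨2, 1159641169⟩] (Node.sc eng ndB1q2) (Fn2.sc esg cd1q2) :=
  certNd (T := (ftFarG false 2 mT 1 5 27 1245 1080)) (L := [⟨2, 1159641169⟩]) (P1 := 1123304337) (W1 := 167379787) (P3 := 991146299) (W3 := 28908434) (n := (Node.sc eng ndB1q2)) (c := (Fn2.sc esg cd1q2))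
    ⟨T.l 1,
      by decide +kernel⟩
theorem cB_r0_22 : CertNd 1123304337 167379787 991146299 28908434 (ftFarG false 2 mT 1 5 27 1245 1080) [⟨2, 1159641169⟩] (Node.sc eng ndB2q2) (Fn2.sc esg cd2q2) :=
  certNd (T := (ftFarG false 2 mT 1 5 27 1245 1080)) (L := [⟨2, 1159641169⟩]) (P1 := 1123304337) (W1 := 167379787) (P3 := 991146299) (W3 := 28908434) (n := (Node.sc eng ndB2q2)) (c := (Fn2.sc esg cd2q2))
    ⟨T.l 0,
      by decide +kernel⟩
theorem cB_r0_32 : CertNd 1123304337 167379787 991146299 28908434 (ftFarG false 2 mT 1 5 27 1245 1080) [⟨2, 1159641169⟩] (Node.sc eng ndB3q2) (Fn2.sc esg cd3q2) :=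
  certNd (T := (ftFarG false 2 mT 1 5 27 1245 1080)) (L := [⟨2, 1159641169⟩]) (P1 := 1123304337) (W1 := 167379787) (P3 := 991146299) (W3 := 28908434) (n := (Node.sc eng ndB3q2)) (c := (Fn2.sc esg cd3q2))
    ⟨T.l 0,
      by decide +kernel⟩
theorem cB_r0_42 : CertNd 1123304337 167379787 991146299 28908434 (ftFarG false 2 mT 1 5 27 1245 1080) [⟨2, 1159641169⟩] (Node.sc eng ndB4q2) (Fn2.sc esg cd4q2) :=
  certNd (T := (ftFarG false 2 mT 1 5 27 1245 1080)) (L := [⟨2, 1159641169⟩]) (P1 := 1123304337) (W1 := 167379787) (P3 := 991146299) (W3 := 28908434) (n := (Node.sc eng ndB4q2)) (c := (Fn2.sc esg cd4q2))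
    ⟨T.l 0,
      by decide +kernel⟩
theorem cB_r0_52 : CertNd 1123304337 167379787 991146299 28908434 (ftFarG false 2 mT 1 5 27 1245 1080) [⟨2, 1159641169⟩] (Node.sc eng ndB5q2) (Fn2.sc esg cd5q2) :=
  certNd (T := (ftFarG false 2 mT 1 5 27 1245 1080)) (L := [⟨2, 1159641169⟩]) (P1 := 1123304337) (W1 := 167379787) (P3 := 991146299) (W3 := 28908434) (n := (Node.sc eng ndB5q2)) (c := (Fn2.sc esg cd5q2))
    ⟨T.a (T.a (T.l 0) (T.l 0)) (T.l 0),
      by decide +kernel⟩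
theorem cB_n0_02z : CertNd 0 107374182 991146299 28908434 (ftNearE false 2 mT 1 5 27 1245) [⟨0, 1123304337⟩, ⟨1, 1290684124⟩] ⟨ndB0q2.Y, onF, Fn2.sc eng kq02, lq02⟩ (Fn2.sc esg cq02) :=
  certNd (T := (ftNearE false 2 mT 1 5 27 1245)) (L := [⟨0, 1123304337⟩, ⟨1, 1290684124⟩]) (P1 := 0) (W1 := 107374182) (P3 := 991146299) (W3 := 28908434) (n := ⟨ndB0q2.Y, onF, Fn2.sc eng kq02, lq02⟩) (c := (Fn2.sc esg cq02))
    ⟨T.l 0,
      by decide +kernel⟩
theorem cB_n0_02 : CertNd 0 536870912 991146299 28908434 (ftNearE false 2 mT 1 5 27 1245) [⟨0, 1123304337⟩, ⟨1, 1290684124⟩, ⟨2, 107374182⟩, ⟨3, 429496730⟩] (Node.sc eng ndB0q2) (Fn2.sc esg cd0q2) :=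
  certNd (T := (ftNearE false 2 mT 1 5 27 1245)) (L := [⟨0, 1123304337⟩, ⟨1, 1290684124⟩, ⟨2, 107374182⟩, ⟨3, 429496730⟩]) (P1 := 0) (W1 := 536870912) (P3 := 991146299) (W3 := 28908434) (n := (Node.sc eng ndB0q2)) (c := (Fn2.sc esg cd0q2))
    ⟨T.a (T.a (T.a (T.l 5) (T.l 0)) (T.a (T.l 0) (T.l 0))) (T.a (T.l 0) (T.l 0)),
      by decide +kernel⟩
theorem cB_n0_12 : CertNd 1123304337 167379787 991146299 28908434 (ftNearE false 2 mT 1 5 27 1245) [⟨3, 429496730⟩] (Node.sc eng ndB1q2) (Fn2.sc esg cd1q2) :=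
  certNd (T := (ftNearE false 2 mT 1 5 27 1245)) (L := [⟨3, 429496730⟩]) (P1 := 1123304337) (W1 := 167379787) (P3 := 991146299) (W3 := 28908434) (n := (Node.sc eng ndB1q2)) (c := (Fn2.sc esg cd1q2))
    ⟨T.a (T.a (T.l 0) (T.l 0)) (T.a (T.a (T.l 0) (T.a (T.a (T.l 0) (T.l 0)) (T.a (T.a (T.a (T.l 0) (T.a (T.a (T.a (T.l 0) (T.l 0)) (T.l 0)) (T.l 0))) (T.l 0)) (T.l 0)))) (T.l 0)),
      by decide +kernel⟩
theorem cB_n0_22 : CertNd 1123304337 167379787 991146299 28908434 (ftNearE false 2 mT 1 5 27 1245) [⟨3, 429496730⟩] (Node.sc eng ndB2q2) (Fn2.sc esg cd2q2) :=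
  certNd (T := (ftNearE false 2 mT 1 5 27 1245)) (L := [⟨3, 429496730⟩]) (P1 := 1123304337) (W1 := 167379787) (P3 := 991146299) (W3 := 28908434) (n := (Node.sc eng ndB2q2)) (c := (Fn2.sc esg cd2q2))
    ⟨T.a (T.l 0) (T.a (T.a (T.l 0) (T.a (T.l 0) (T.l 0))) (T.l 0)),
      by decide +kernel⟩
theorem cB_n0_32 : CertNd 1123304337 167379787 991146299 28908434 (ftNearE false 2 mT 1 5 27 1245) [⟨3, 429496730⟩] (Node.sc eng ndB3q2) (Fn2.sc esg cd3q2) :=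
  certNd (T := (ftNearE false 2 mT 1 5 27 1245)) (L := [⟨3, 429496730⟩]) (P1 := 1123304337) (W1 := 167379787) (P3 := 991146299) (W3 := 28908434) (n := (Node.sc eng ndB3q2)) (c := (Fn2.sc esg cd3q2))
    ⟨T.l 0,
      by decide +kernel⟩
theorem cB_n0_42 : CertNd 1123304337 167379787 991146299 28908434 (ftNearE false 2 mT 1 5 27 1245) [⟨3, 429496730⟩] (Node.sc eng ndB4q2) (Fn2.sc esg cd4q2) :=
  certNd (T := (ftNearE false 2 mT 1 5 27 1245)) (L := [⟨3, 429496730⟩]) (P1 := 1123304337) (W1 := 167379787) (P3 := 991146299) (W3 := 28908434) (n := (Node.sc eng ndB4q2)) (c := (Fn2.sc esg cd4q2))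
    ⟨T.l 0,
      by decide +kernel⟩
theorem cB_n0_52 : CertNd 1123304337 167379787 991146299 28908434 (ftNearE false 2 mT 1 5 27 1245) [⟨3, 429496730⟩] (Node.sc eng ndB5q2) (Fn2.sc esg cd5q2) :=
  certNd (T := (ftNearE false 2 mT 1 5 27 1245)) (L := [⟨3, 429496730⟩]) (P1 := 1123304337) (W1 := 167379787) (P3 := 991146299) (W3 := 28908434) (n := (Node.sc eng ndB5q2)) (c := (Fn2.sc esg cd5q2))
    ⟨T.l 0,
      by decide +kernel⟩
theorem cB_R0_2 : CertSd 1123304337 167379787 991146299 28908434 (ftFarG false 2 mT 1 5 27 1245 1080) [] idF (cnF 1080 1000) pcE2 (Fn3.sc esg pd2) :=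
  certSd (T := (ftFarG false 2 mT 1 5 27 1245 1080)) (L := []) (P1 := 1123304337) (W1 := 167379787) (P3 := 991146299) (W3 := 28908434) (Y := idF) (X := (cnF 1080 1000))
    (pc := pcE2) (c := (Fn3.sc esg pd2)) ⟨T.l 0,
      by decide +kernel⟩
theorem cB_N0_2 : CertSd 1136341535 154342589 991146299 28908434 (ftNearE false 2 mT 1 5 27 1245) [] idF (cnF 400 1000) pcE2 (Fn3.sc esg pd2) :=
  certSd (T := (ftNearE false 2 mT 1 5 27 1245)) (L := []) (P1 := 1136341535) (W1 := 154342589) (P3 := 991146299) (W3 := 28908434) (Y := idF) (X := (cnF 400 1000))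
    (pc := pcE2) (c := (Fn3.sc esg pd2)) ⟨T.a (T.a (T.l 0) (T.l 0)) (T.l 0),
      by decide +kernel⟩
theorem cB_r1_02 : CertNd 0 536870912 991146299 28908434 (ftFarG false 2 mT 1 5 27 1525 1080) [⟨0, 1278285620⟩, ⟨1, 1692395608⟩, ⟨2, 1159641169⟩] (Node.sc eng ndB0q2) (Fn2.sc esg cd0q2) :=
  certNd (T := (ftFarG false 2 mT 1 5 27 1525 1080)) (L := [⟨0, 1278285620⟩, ⟨1, 1692395608⟩, ⟨2, 1159641169⟩]) (P1 := 0) (W1 := 536870912) (P3 := 991146299) (W3 := 28908434) (n := (Node.sc eng ndB0q2)) (c := (Fn2.sc esg cd0q2))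
    ⟨T.l 5,
      by decide +kernel⟩
theorem cB_r1_12 : CertNd 1278285620 332327116 991146299 28908434 (ftFarG false 2 mT 1 5 27 1525 1080) [⟨2, 1159641169⟩] (Node.sc eng ndB1q2) (Fn2.sc esg cd1q2) :=
  certNd (T := (ftFarG false 2 mT 1 5 27 1525 1080)) (L := [⟨2, 1159641169⟩]) (P1 := 1278285620) (W1 := 332327116) (P3 := 991146299) (W3 := 28908434) (n := (Node.sc eng ndB1q2)) (c := (Fn2.sc esg cd1q2))
    ⟨T.l 0,
      by decide +kernel⟩
theorem cB_r1_22 : CertNd 1278285620 332327116 991146299 28908434 (ftFarG false 2 mT 1 5 27 1525 1080) [⟨2, 1159641169⟩] (Node.sc eng ndB2q2) (Fn2.sc esg cd2q2) :=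
  certNd (T := (ftFarG false 2 mT 1 5 27 1525 1080)) (L := [⟨2, 1159641169⟩]) (P1 := 1278285620) (W1 := 332327116) (P3 := 991146299) (W3 := 28908434) (n := (Node.sc eng ndB2q2)) (c := (Fn2.sc esg cd2q2))
    ⟨T.l 0,
      by decide +kernel⟩
theorem cB_r1_32 : CertNd 1278285620 332327116 991146299 28908434 (ftFarG false 2 mT 1 5 27 1525 1080) [⟨2, 1159641169⟩] (Node.sc eng ndB3q2) (Fn2.sc esg cd3q2) :=
  certNd (T := (ftFarG false 2 mT 1 5 27 1525 1080)) (L := [⟨2, 1159641169⟩]) (P1 := 1278285620) (W1 := 332327116) (P3 := 991146299) (W3 := 28908434) (n := (Node.sc eng ndB3q2)) (c := (Fn2.sc esg cd3q2))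
    ⟨T.l 0,
      by decide +kernel⟩
theorem cB_r1_42 : CertNd 1278285620 332327116 991146299 28908434 (ftFarG false 2 mT 1 5 27 1525 1080) [⟨2, 1159641169⟩] (Node.sc eng ndB4q2) (Fn2.sc esg cd4q2) :=
  certNd (T := (ftFarG false 2 mT 1 5 27 1525 1080)) (L := [⟨2, 1159641169⟩]) (P1 := 1278285620) (W1 := 332327116) (P3 := 991146299) (W3 := 28908434) (n := (Node.sc eng ndB4q2)) (c := (Fn2.sc esg cd4q2))
    ⟨T.l 0,
      by decide +kernel⟩
theorem cB_r1_52 : CertNd 1278285620 332327116 991146299 28908434 (ftFarG false 2 mT 1 5 27 1525 1080) [⟨2, 1159641169⟩] (Node.sc eng ndB5q2) (Fn2.sc esg cd5q2) :=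
  certNd (T := (ftFarG false 2 mT 1 5 27 1525 1080)) (L := [⟨2, 1159641169⟩]) (P1 := 1278285620) (W1 := 332327116) (P3 := 991146299) (W3 := 28908434) (n := (Node.sc eng ndB5q2)) (c := (Fn2.sc esg cd5q2))
    ⟨T.a (T.a (T.a (T.l 0) (T.l 0)) (T.l 0)) (T.l 0),
      by decide +kernel⟩
theorem cB_r1_13 : CertNd 1610612736 81782872 991146299 28908434 (ftFarG false 3 mT 1 5 27 1525 1080) [⟨2, 1159641169⟩] (Node.sc eng ndB1q3) (Fn2.sc esg cd1q3) :=
  certNd (T := (ftFarG false 3 mT 1 5 27 1525 1080)) (L := [⟨2, 1159641169⟩]) (P1 := 1610612736) (W1 := 81782872) (P3 := 991146299) (W3 := 28908434) (n := (Node.sc eng ndB1q3)) (c := (Fn2.sc esg cd1q3))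
    ⟨T.l 0,
      by decide +kernel⟩
theorem cB_r1_23 : CertNd 1610612736 81782872 991146299 28908434 (ftFarG false 3 mT 1 5 27 1525 1080) [⟨2, 1159641169⟩] (Node.sc eng ndB2q3) (Fn2.sc esg cd2q3) :=
  certNd (T := (ftFarG false 3 mT 1 5 27 1525 1080)) (L := [⟨2, 1159641169⟩]) (P1 := 1610612736) (W1 := 81782872) (P3 := 991146299) (W3 := 28908434) (n := (Node.sc eng ndB2q3)) (c := (Fn2.sc esg cd2q3))
    ⟨T.l 0,
      by decide +kernel⟩
theorem cB_r1_33 : CertNd 0 1230186008 991146299 28908434 (ftFarG false 3 mT 1 5 27 1525 1080) [⟨0, 1278285620⟩, ⟨1, 1692395608⟩, ⟨2, 1159641169⟩] (Node.sc eng ndB3q3) (Fn2.sc esg cd3q3) :=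
  certNd (T := (ftFarG false 3 mT 1 5 27 1525 1080)) (L := [⟨0, 1278285620⟩, ⟨1, 1692395608⟩, ⟨2, 1159641169⟩]) (P1 := 0) (W1 := 1230186008) (P3 := 991146299) (W3 := 28908434) (n := (Node.sc eng ndB3q3)) (c := (Fn2.sc esg cd3q3))
    ⟨T.l 5,
      by decide +kernel⟩
theorem cB_r1_43 : CertNd 0 1230186008 991146299 28908434 (ftFarG false 3 mT 1 5 27 1525 1080) [⟨0, 1278285620⟩, ⟨1, 1692395608⟩, ⟨2, 1159641169⟩] (Node.sc eng ndB4q3) (Fn2.sc esg cd4q3) :=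
  certNd (T := (ftFarG false 3 mT 1 5 27 1525 1080)) (L := [⟨0, 1278285620⟩, ⟨1, 1692395608⟩, ⟨2, 1159641169⟩]) (P1 := 0) (W1 := 1230186008) (P3 := 991146299) (W3 := 28908434) (n := (Node.sc eng ndB4q3)) (c := (Fn2.sc esg cd4q3))
    ⟨T.l 5,
      by decide +kernel⟩
theorem cB_r1_53 : CertNd 0 1230186008 991146299 28908434 (ftFarG false 3 mT 1 5 27 1525 1080) [⟨0, 1278285620⟩, ⟨1, 1692395608⟩, ⟨2, 1159641169⟩] (Node.sc eng ndB5q3) (Fn2.sc esg cd5q3) :=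
  certNd (T := (ftFarG false 3 mT 1 5 27 1525 1080)) (L := [⟨0, 1278285620⟩, ⟨1, 1692395608⟩, ⟨2, 1159641169⟩]) (P1 := 0) (W1 := 1230186008) (P3 := 991146299) (W3 := 28908434) (n := (Node.sc eng ndB5q3)) (c := (Fn2.sc esg cd5q3))
    ⟨T.a (T.l 3) (T.a (T.l 0) (T.l 0)),
      by decide +kernel⟩
theorem cB_n1_02z : CertNd 0 107374182 991146299 28908434 (ftNearE false 2 mT 1 5 27 1525) [⟨0, 1278285620⟩, ⟨1, 1692395608⟩] ⟨ndB0q2.Y, onF, Fn2.sc eng kq02, lq02⟩ (Fn2.sc esg cq02) :=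
  certNd (T := (ftNearE false 2 mT 1 5 27 1525)) (L := [⟨0, 1278285620⟩, ⟨1, 1692395608⟩]) (P1 := 0) (W1 := 107374182) (P3 := 991146299) (W3 := 28908434) (n := ⟨ndB0q2.Y, onF, Fn2.sc eng kq02, lq02⟩) (c := (Fn2.sc esg cq02))
    ⟨T.l 0,
      by decide +kernel⟩
theorem cB_n1_02 : CertNd 0 536870912 991146299 28908434 (ftNearE false 2 mT 1 5 27 1525) [⟨0, 1278285620⟩, ⟨1, 1692395608⟩, ⟨2, 107374182⟩, ⟨3, 429496730⟩] (Node.sc eng ndB0q2) (Fn2.sc esg cd0q2) :=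
  certNd (T := (ftNearE false 2 mT 1 5 27 1525)) (L := [⟨0, 1278285620⟩, ⟨1, 1692395608⟩, ⟨2, 107374182⟩, ⟨3, 429496730⟩]) (P1 := 0) (W1 := 536870912) (P3 := 991146299) (W3 := 28908434) (n := (Node.sc eng ndB0q2)) (c := (Fn2.sc esg cd0q2))
    ⟨T.a (T.l 1) (T.l 1),
      by decide +kernel⟩
theorem cB_n1_12 : CertNd 1278285620 332327116 991146299 28908434 (ftNearE false 2 mT 1 5 27 1525) [⟨3, 429496730⟩] (Node.sc eng ndB1q2) (Fn2.sc esg cd1q2) :=
  certNd (T := (ftNearE false 2 mT 1 5 27 1525)) (L := [⟨3, 429496730⟩]) (P1 := 1278285620) (W1 := 332327116) (P3 := 991146299) (W3 := 28908434) (n := (Node.sc eng ndB1q2)) (c := (Fn2.sc esg cd1q2))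
    ⟨T.l 0,
      by decide +kernel⟩
theorem cB_n1_22 : CertNd 1278285620 332327116 991146299 28908434 (ftNearE false 2 mT 1 5 27 1525) [⟨3, 429496730⟩] (Node.sc eng ndB2q2) (Fn2.sc esg cd2q2) :=
  certNd (T := (ftNearE false 2 mT 1 5 27 1525)) (L := [⟨3, 429496730⟩]) (P1 := 1278285620) (W1 := 332327116) (P3 := 991146299) (W3 := 28908434) (n := (Node.sc eng ndB2q2)) (c := (Fn2.sc esg cd2q2))
    ⟨T.l 0,
      by decide +kernel⟩
theorem cB_n1_32 : CertNd 1278285620 332327116 991146299 28908434 (ftNearE false 2 mT 1 5 27 1525) [⟨3, 429496730⟩] (Node.sc eng ndB3q2) (Fn2.sc esg cd3q2) :=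
  certNd (T := (ftNearE false 2 mT 1 5 27 1525)) (L := [⟨3, 429496730⟩]) (P1 := 1278285620) (W1 := 332327116) (P3 := 991146299) (W3 := 28908434) (n := (Node.sc eng ndB3q2)) (c := (Fn2.sc esg cd3q2))
    ⟨T.l 0,
      by decide +kernel⟩
theorem cB_n1_42 : CertNd 1278285620 332327116 991146299 28908434 (ftNearE false 2 mT 1 5 27 1525) [⟨3, 429496730⟩] (Node.sc eng ndB4q2) (Fn2.sc esg cd4q2) :=
  certNd (T := (ftNearE false 2 mT 1 5 27 1525)) (L := [⟨3, 429496730⟩]) (P1 := 1278285620) (W1 := 332327116) (P3 := 991146299) (W3 := 28908434) (n := (Node.sc eng ndB4q2)) (c := (Fn2.sc esg cd4q2))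
    ⟨T.l 0,
      by decide +kernel⟩
theorem cB_n1_52 : CertNd 1278285620 332327116 991146299 28908434 (ftNearE false 2 mT 1 5 27 1525) [⟨3, 429496730⟩] (Node.sc eng ndB5q2) (Fn2.sc esg cd5q2) :=
  certNd (T := (ftNearE false 2 mT 1 5 27 1525)) (L := [⟨3, 429496730⟩]) (P1 := 1278285620) (W1 := 332327116) (P3 := 991146299) (W3 := 28908434) (n := (Node.sc eng ndB5q2)) (c := (Fn2.sc esg cd5q2))
    ⟨T.l 0,
      by decide +kernel⟩
theorem cB_n1_13 : CertNd 1610612736 81782872 991146299 28908434 (ftNearG false 3 mT 1 5 27 1525) [⟨3, 429496730⟩] (Node.sc eng ndB1q3) (Fn2.sc esg cd1q3) :=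
  certNd (T := (ftNearG false 3 mT 1 5 27 1525)) (L := [⟨3, 429496730⟩]) (P1 := 1610612736) (W1 := 81782872) (P3 := 991146299) (W3 := 28908434) (n := (Node.sc eng ndB1q3)) (c := (Fn2.sc esg cd1q3))
    ⟨T.l 0,
      by decide +kernel⟩
theorem cB_n1_23 : CertNd 1610612736 81782872 991146299 28908434 (ftNearG false 3 mT 1 5 27 1525) [⟨3, 429496730⟩] (Node.sc eng ndB2q3) (Fn2.sc esg cd2q3) :=
  certNd (T := (ftNearG false 3 mT 1 5 27 1525)) (L := [⟨3, 429496730⟩]) (P1 := 1610612736) (W1 := 81782872) (P3 := 991146299) (W3 := 28908434) (n := (Node.sc eng ndB2q3)) (c := (Fn2.sc esg cd2q3))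
    ⟨T.l 0,
      by decide +kernel⟩
theorem cB_n1_33 : CertNd 0 1230186008 991146299 28908434 (ftNearG false 3 mT 1 5 27 1525) [⟨0, 1278285620⟩, ⟨1, 1692395608⟩, ⟨3, 429496730⟩] (Node.sc eng ndB3q3) (Fn2.sc esg cd3q3) :=
  certNd (T := (ftNearG false 3 mT 1 5 27 1525)) (L := [⟨0, 1278285620⟩, ⟨1, 1692395608⟩, ⟨3, 429496730⟩]) (P1 := 0) (W1 := 1230186008) (P3 := 991146299) (W3 := 28908434) (n := (Node.sc eng ndB3q3)) (c := (Fn2.sc esg cd3q3))
    ⟨T.a (T.l 3) (T.a (T.l 3) (T.l 0)),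
      by decide +kernel⟩
theorem cB_n1_43 : CertNd 0 1230186008 991146299 28908434 (ftNearG false 3 mT 1 5 27 1525) [⟨0, 1278285620⟩, ⟨1, 1692395608⟩, ⟨3, 429496730⟩] (Node.sc eng ndB4q3) (Fn2.sc esg cd4q3) :=
  certNd (T := (ftNearG false 3 mT 1 5 27 1525)) (L := [⟨0, 1278285620⟩, ⟨1, 1692395608⟩, ⟨3, 429496730⟩]) (P1 := 0) (W1 := 1230186008) (P3 := 991146299) (W3 := 28908434) (n := (Node.sc eng ndB4q3)) (c := (Fn2.sc esg cd4q3))
    ⟨T.a (T.l 3) (T.l 5),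
      by decide +kernel⟩
theorem cB_n1_53 : CertNd 0 1230186008 991146299 28908434 (ftNearG false 3 mT 1 5 27 1525) [⟨0, 1278285620⟩, ⟨1, 1692395608⟩, ⟨3, 429496730⟩] (Node.sc eng ndB5q3) (Fn2.sc esg cd5q3) :=
  certNd (T := (ftNearG false 3 mT 1 5 27 1525)) (L := [⟨0, 1278285620⟩, ⟨1, 1692395608⟩, ⟨3, 429496730⟩]) (P1 := 0) (W1 := 1230186008) (P3 := 991146299) (W3 := 28908434) (n := (Node.sc eng ndB5q3)) (c := (Fn2.sc esg cd5q3))
    ⟨T.a (T.l 3) (T.l 5),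
      by decide +kernel⟩
theorem cB_R1_2 : CertSd 1278285620 332327116 991146299 28908434 (ftFarG false 2 mT 1 5 27 1525 1080) [] idF (cnF 1080 1000) pcE2 (Fn3.sc esg pd2) :=
  certSd (T := (ftFarG false 2 mT 1 5 27 1525 1080)) (L := []) (P1 := 1278285620) (W1 := 332327116) (P3 := 991146299) (W3 := 28908434) (Y := idF) (X := (cnF 1080 1000))
    (pc := pcE2) (c := (Fn3.sc esg pd2)) ⟨T.a (T.l 0) (T.l 0),
      by decide +kernel⟩
theorem cB_N1_2 : CertSd 1278285620 332327116 991146299 28908434 (ftNearE false 2 mT 1 5 27 1525) [] idF (cnF 400 1000) pcE2 (Fn3.sc esg pd2) :=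
  certSd (T := (ftNearE false 2 mT 1 5 27 1525)) (L := []) (P1 := 1278285620) (W1 := 332327116) (P3 := 991146299) (W3 := 28908434) (Y := idF) (X := (cnF 400 1000))
    (pc := pcE2) (c := (Fn3.sc esg pd2)) ⟨T.l 0,
      by decide +kernel⟩
theorem cB_R1_3 : CertSd 1610612736 68274543 991146299 28908434 (ftFarG false 3 mT 1 5 27 1525 1080) [] idF (cnF 1080 1000) pcE3 (Fn3.sc esg pd3) :=
  certSd (T := (ftFarG false 3 mT 1 5 27 1525 1080)) (L := []) (P1 := 1610612736) (W1 := 68274543) (P3 := 991146299) (W3 := 28908434) (Y := idF) (X := (cnF 1080 1000))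
    (pc := pcE3) (c := (Fn3.sc esg pd3)) ⟨T.l 0,
      by decide +kernel⟩
theorem cB_N1_3 : CertSd 1610612736 81782872 991146299 28908434 (ftNearG false 3 mT 1 5 27 1525) [] idF (cnF 400 1000) pcE3 (Fn3.sc esg pd3) :=
  certSd (T := (ftNearG false 3 mT 1 5 27 1525)) (L := []) (P1 := 1610612736) (W1 := 81782872) (P3 := 991146299) (W3 := 28908434) (Y := idF) (X := (cnF 400 1000))
    (pc := pcE3) (c := (Fn3.sc esg pd3)) ⟨T.l 0,
      by decide +kernel⟩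

end Pool.Agent.Strip051.G.I9231_9500.Tab
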