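import Pool.Agent.Strip051.PB.FlAsmH
import Pool.Agent.Strip051.PB.PairU
import Pool.Agent.Strip051.G.I9231_9500.Tab

/-! # Slopes (generated) -/

set_option linter.all false

namespace Pool.Agent.Strip051.G.I9231_9500.Tab

open Pool.Agent.Strip051.PB

attribute [local irreducible] padd psub pneg pmul psq pinv psqrt psqrtg pabs pps pmax pmin pphi
  plam pcase phf pnat prat pscale pnorm pdc pnc pone ppos pnn pscaleT pwT
  pwB0 pwB3 pmA pwL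

noncomputable def c1g_sf : Sl1 c1g := ⟨_, fun h1 => (pr_sqrtg (pr_csub (enc_pnc _ 1) (pr_scaleT 3 4 (pr_sq h1))))⟩
noncomputable def kcg_6_sf : Sl2 kcg_6 := ⟨_, fun h1 h2 => (pr_addc h1 (enc_rat _ 47 122))⟩
noncomputable def kcg_9_sf : Sl2 kcg_9 := ⟨_, fun h1 h2 => (pr_addc h1 (enc_rat _ 23 50))⟩
noncomputable def kcg_12_sf : Sl2 kcg_12 := ⟨_, fun h1 h2 => (pr_addc h1 (enc_rat _ 19 40))⟩
noncomputable def kcg_13_sf : Sl2 kcg_13 := ⟨_, fun h1 h2 => (pr_scaleT 135810477 25000000 h1)⟩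
noncomputable def kcg_18_sf : Sl2 kcg_18 := ⟨_, fun h1 h2 => (pr_scaleT 43157029 2500000 h1)⟩
noncomputable def kcg_32_sf : Sl2 kcg_32 := ⟨_, fun h1 h2 => (pr_addc h1 (enc_rat _ 1 2))⟩
noncomputable def kcg_33_sf : Sl2 kcg_33 := ⟨_, fun h1 h2 => (pr_csub (enc_neg (enc_rat _ 19 40)) h1)⟩
noncomputable def kcg_38_sf : Sl2 kcg_38 := ⟨_, fun h1 h2 => (pr_scaleT 20368759 3750000 h1)⟩
noncomputable def kcg_43_sf : Sl2 kcg_43 := ⟨_, fun h1 h2 => (pr_scaleT 25801217 1500000 h1)⟩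
noncomputable def kcg_57_sf : Sl2 kcg_57 := ⟨_, fun h1 h2 => (pr_csub (enc_neg (enc_rat _ 23 50)) h1)⟩
noncomputable def kcg_65_sf : Sl2 kcg_65 := ⟨_, fun h1 h2 => (pr_addc h1 (enc_rat _ 263 601))⟩
noncomputable def kcg_66_sf : Sl2 kcg_66 := ⟨_, fun h1 h2 => (pr_scaleT 26096659863 13460000000 h1)⟩
noncomputable def kcg_71_sf : Sl2 kcg_71 := ⟨_, fun h1 h2 => (pr_scaleT 3440754449 673000000 h1)⟩
noncomputable def kcg_85_sf : Sl2 kcg_85 := ⟨_, fun h1 h2 => (pr_csub (enc_neg (enc_rat _ 263 601)) h1)⟩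
noncomputable def kcg_90_sf : Sl2 kcg_90 := ⟨_, fun h1 h2 => (pr_scaleT 4336611689449 1919500000000 h1)⟩
noncomputable def kcg_94_sf : Sl2 kcg_94 := ⟨_, fun h1 h2 => (pr_scaleT 1328275652639 191950000000 h1)⟩
noncomputable def kcg_104_sf : Sl2 kcg_104 := ⟨_, fun h1 h2 => (pr_csub (enc_neg (enc_rat _ 47 122)) h1)⟩
noncomputable def kcg_113_sf : Sl2 kcg_113 := ⟨_, fun h1 h2 => (pr_addc h1 (enc_rat _ 3 10))⟩
noncomputable def kcg_116_sf : Sl2 kcg_116 := ⟨_, fun h1 h2 => (pr_addc h1 (enc_rat _ 7 20))⟩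
noncomputable def kcg_117_sf : Sl2 kcg_117 := ⟨_, fun h1 h2 => (pr_scaleT 797542853 268750000 h1)⟩
noncomputable def kcg_121_sf : Sl2 kcg_121 := ⟨_, fun h1 h2 => (pr_scaleT 73799203 43000000 h1)⟩
noncomputable def kcg_131_sf : Sl2 kcg_131 := ⟨_, fun h1 h2 => (pr_csub (enc_neg (enc_rat _ 7 20)) h1)⟩
noncomputable def kcg_136_sf : Sl2 kcg_136 := ⟨_, fun h1 h2 => (pr_scaleT 594801 200000 h1)⟩
noncomputable def kcg_140_sf : Sl2 kcg_140 := ⟨_, fun h1 h2 => (pr_scaleT 216917 20000 h1)⟩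
noncomputable def kcg_152_sf : Sl2 kcg_152 := ⟨_, fun h1 h2 => (pr_csub (enc_neg (enc_rat _ 3 10)) h1)⟩
noncomputable def kcg_160_sf : Sl2 kcg_160 := ⟨_, fun h1 h2 => (pr_addc h1 (enc_rat _ 1 5))⟩
noncomputable def kcg_161_sf : Sl2 kcg_161 := ⟨_, fun h1 h2 => (pr_scaleT 74887 25000 h1)⟩
noncomputable def kcg_165_sf : Sl2 kcg_165 := ⟨_, fun h1 h2 => (pr_scaleT 90943 5000 h1)⟩
noncomputable def kcg_179_sf : Sl2 kcg_179 := ⟨_, fun h1 h2 => (pr_csub (enc_neg (enc_rat _ 1 5)) h1)⟩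
noncomputable def kcg_187_sf : Sl2 kcg_187 := ⟨_, fun h1 h2 => (pr_scaleT 151569 50000 h1)⟩
noncomputable def kcg_191_sf : Sl2 kcg_191 := ⟨_, fun h1 h2 => (pr_scaleT 959 625 h1)⟩
noncomputable def kcg_204_sf : Sl2 kcg_204 := ⟨_, fun h1 h2 => (pr_csub (enc_neg (enc_rat _ 1 10)) h1)⟩
noncomputable def kcg_209_sf : Sl2 kcg_209 := ⟨_, fun h1 h2 => (pr_scaleT 304953 100000 h1)⟩
noncomputable def kcg_212_sf : Sl2 kcg_212 := ⟨_, fun h1 h2 => (pr_cmul (enc_norm (kcg_3.enc h1.l h2)) (pr_nd (pr_scaleT 106177 5000 h1)))⟩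
noncomputable def kcg_219_sf : Sl2 kcg_219 := ⟨_, fun h1 h2 => (pr_csub (enc_rat _ 47 122) h1)⟩
noncomputable def kcg_220_sf : Sl2 kcg_220 := ⟨_, fun h1 h2 => (pr_csub (enc_rat _ 23 50) h1)⟩
noncomputable def kcg_221_sf : Sl2 kcg_221 := ⟨_, fun h1 h2 => (pr_csub (enc_rat _ 19 40) h1)⟩
noncomputable def kcg_226_sf : Sl2 kcg_226 := ⟨_, fun h1 h2 => (pr_csub (enc_rat _ 1 2) h1)⟩
noncomputable def kcg_227_sf : Sl2 kcg_227 := ⟨_, fun h1 h2 => (pr_subr 19 40 h1)⟩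
noncomputable def kcg_236_sf : Sl2 kcg_236 := ⟨_, fun h1 h2 => (pr_subr 23 50 h1)⟩
noncomputable def kcg_242_sf : Sl2 kcg_242 := ⟨_, fun h1 h2 => (pr_csub (enc_rat _ 263 601) h1)⟩
noncomputable def kcg_247_sf : Sl2 kcg_247 := ⟨_, fun h1 h2 => (pr_subr 263 601 h1)⟩
noncomputable def kcg_258_sf : Sl2 kcg_258 := ⟨_, fun h1 h2 => (pr_subr 47 122 h1)⟩
noncomputable def kcg_265_sf : Sl2 kcg_265 := ⟨_, fun h1 h2 => (pr_csub (enc_rat _ 3 10) h1)⟩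
noncomputable def kcg_266_sf : Sl2 kcg_266 := ⟨_, fun h1 h2 => (pr_csub (enc_rat _ 7 20) h1)⟩
noncomputable def kcg_273_sf : Sl2 kcg_273 := ⟨_, fun h1 h2 => (pr_subr 7 20 h1)⟩
noncomputable def kcg_283_sf : Sl2 kcg_283 := ⟨_, fun h1 h2 => (pr_subr 3 10 h1)⟩
noncomputable def kcg_289_sf : Sl2 kcg_289 := ⟨_, fun h1 h2 => (pr_csub (enc_rat _ 1 5) h1)⟩
noncomputable def kcg_295_sf : Sl2 kcg_295 := ⟨_, fun h1 h2 => (pr_subr 1 5 h1)⟩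
noncomputable def kcg_307_sf : Sl2 kcg_307 := ⟨_, fun h1 h2 => (pr_subr 1 10 h1)⟩
noncomputable def kcg_sf : Sl2 kcg := ⟨_, fun h1 h2 => (pr_norm (pr_case h1 (pr_case (kcg_6_sf.snd h1 h2) (pr_case (kcg_9_sf.snd h1 h2) (pr_case (kcg_12_sf.snd h1 h2) (pr_add (pr_add (pr_subr 3734726507 1000000000 (pr_neg (kcg_13_sf.snd h1 h2))) (pr_cmul (enc_norm (kcg_3.enc h1.l h2)) (pr_norm (pr_subr 4082977 500000 (pr_neg (kcg_18_sf.snd h1 h2)))))) (pr_mA (pr_cmul (enc_norm (kcg_31.enc h1.l h2)) (pr_norm (pr_mul (pr_norm (kcg_32_sf.snd h1 h2)) (pr_norm (kcg_33_sf.snd h1 h2))))) (pr_const (kcg_31.enc h1.l h2)) (kcg_32_sf.snd h1 h2) (kcg_33_sf.snd h1 h2) rfl rfl)) (pr_add (pr_add (pr_subr 350097211 93750000 (pr_neg (kcg_38_sf.snd h1 h2))) (pr_cmul (enc_norm (kcg_3.enc h1.l h2)) (pr_norm (pr_subr 1220475581 150000000 (pr_neg (kcg_43_sf.snd h1 h2)))))) (pr_mA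 (pr_cmul (enc_norm (kcg_56.enc h1.l h2)) (pr_norm (pr_mul (pr_norm (kcg_12_sf.snd h1 h2)) (pr_norm (kcg_57_sf.snd h1 h2))))) (pr_const (kcg_56.enc h1.l h2)) (kcg_12_sf.snd h1 h2) (kcg_57_sf.snd h1 h2) rfl rfl))) (pr_case (kcg_65_sf.snd h1 h2) (pr_add (pr_add (pr_subr 1431918245889 673000000000 (pr_neg (kcg_66_sf.snd h1 h2))) (pr_cmul (enc_norm (kcg_3.enc h1.l h2)) (pr_norm (pr_subr 21669837259 8412500000 (pr_neg (kcg_71_sf.snd h1 h2)))))) (pr_mA (pr_cmul (enc_norm (kcg_84.enc h1.l h2)) (pr_norm (pr_mul (pr_norm (kcg_9_sf.snd h1 h2)) (pr_norm (kcg_85_sf.snd h1 h2))))) (pr_const (kcg_84.enc h1.l h2)) (kcg_9_sf.snd h1 h2) (kcg_85_sf.snd h1 h2) rfl rfl)) (pr_add (pr_add (pr_subr 1115505834803 3839000000000 (kcg_90_sf.snd h1 h2)) (pr_cmul (enc_norm (kcg_3.enc h1.l h2)) (pr_norm (pr_addc (kcg_94_sf.snd h1 h2) (enc_rat _ 516258386559 191950000000)))))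 (pr_mA (pr_cmul (enc_norm (kcg_103.enc h1.l h2)) (pr_norm (pr_mul (pr_norm (kcg_65_sf.snd h1 h2)) (pr_norm (kcg_104_sf.snd h1 h2))))) (pr_const (kcg_103.enc h1.l h2)) (kcg_65_sf.snd h1 h2) (kcg_104_sf.snd h1 h2) rfl rfl)))) (pr_case (kcg_113_sf.snd h1 h2) (pr_case (kcg_116_sf.snd h1 h2) (pr_add (pr_add (pr_subr 380093991 21500000000 (kcg_117_sf.snd h1 h2)) (pr_cmul (enc_norm (kcg_3.enc h1.l h2)) (pr_norm (pr_addc (kcg_121_sf.snd h1 h2) (enc_rat _ 588982771 860000000))))) (pr_mA (pr_cmul (enc_norm (kcg_130.enc h1.l h2)) (pr_norm (pr_mul (pr_norm (kcg_6_sf.snd h1 h2)) (pr_norm (kcg_131_sf.snd h1 h2))))) (pr_const (kcg_130.enc h1.l h2)) (kcg_6_sf.snd h1 h2) (kcg_131_sf.snd h1 h2) rfl rfl)) (pr_add (pr_add (pr_subr 247 16000 (kcg_136_sf.snd h1 h2)) (pr_cmul (enc_norm (kcg_3.enc h1.l h2)) (pr_norm (pr_subr 5939 1600 (pr_neg (kcg_140_sf.snd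 h1 h2)))))) (pr_mA (pr_cmul (enc_norm (kcg_151.enc h1.l h2)) (pr_norm (pr_mul (pr_norm (kcg_116_sf.snd h1 h2)) (pr_norm (kcg_152_sf.snd h1 h2))))) (pr_const (kcg_151.enc h1.l h2)) (kcg_116_sf.snd h1 h2) (kcg_152_sf.snd h1 h2) rfl rfl))) (pr_case (kcg_160_sf.snd h1 h2) (pr_add (pr_add (pr_subr 1799 200000 (kcg_161_sf.snd h1 h2)) (pr_cmul (enc_norm (kcg_3.enc h1.l h2)) (pr_norm (pr_subr 59147 10000 (pr_neg (kcg_165_sf.snd h1 h2)))))) (pr_mA (pr_cmul (enc_norm (kcg_178.enc h1.l h2)) (pr_norm (pr_mul (pr_norm (kcg_113_sf.snd h1 h2)) (pr_norm (kcg_179_sf.snd h1 h2))))) (pr_const (kcg_178.enc h1.l h2)) (kcg_113_sf.snd h1 h2) (kcg_179_sf.snd h1 h2) rfl rfl)) (pr_case (pr_addc h1 (enc_rat _ 1 10)) (pr_add (pr_add (pr_subr 363 200000 (kcg_187_sf.snd h1 h2)) (pr_cmul (enc_norm (kcg_3.enc h1.l h2)) (pr_norm (pr_subr 19701 10000 (kcg_191_sf.snd h1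 h2))))) (pr_mA (pr_cmul (enc_norm (kcg_203.enc h1.l h2)) (pr_norm (pr_mul (pr_norm (kcg_160_sf.snd h1 h2)) (pr_norm (kcg_204_sf.snd h1 h2))))) (pr_const (kcg_203.enc h1.l h2)) (kcg_160_sf.snd h1 h2) (kcg_204_sf.snd h1 h2) rfl rfl)) (pr_add (kcg_209_sf.snd h1 h2) (kcg_212_sf.snd h1 h2)))))) (pr_neg (pr_case (kcg_219_sf.snd h1 h2) (pr_case (kcg_220_sf.snd h1 h2) (pr_case (kcg_221_sf.snd h1 h2) (pr_add (pr_add (pr_subr 3734726507 1000000000 (kcg_13_sf.snd h1 h2)) (pr_cmul (enc_norm (kcg_3.enc h1.l h2)) (pr_norm (pr_subr 4082977 500000 (kcg_18_sf.snd h1 h2))))) (pr_mA (pr_cmul (enc_norm (kcg_31.enc h1.l h2)) (pr_norm (pr_mul (pr_norm (kcg_226_sf.snd h1 h2)) (pr_norm (kcg_227_sf.snd h1 h2))))) (pr_const (kcg_31.enc h1.l h2)) (kcg_226_sf.snd h1 h2) (kcg_227_sf.snd h1 h2) rfl rfl)) (pr_add (pr_add (pr_subr 350097211 93750000 (kcg_38_sf.snd h1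 h2)) (pr_cmul (enc_norm (kcg_3.enc h1.l h2)) (pr_norm (pr_subr 1220475581 150000000 (kcg_43_sf.snd h1 h2))))) (pr_mA (pr_cmul (enc_norm (kcg_56.enc h1.l h2)) (pr_norm (pr_mul (pr_norm (kcg_221_sf.snd h1 h2)) (pr_norm (kcg_236_sf.snd h1 h2))))) (pr_const (kcg_56.enc h1.l h2)) (kcg_221_sf.snd h1 h2) (kcg_236_sf.snd h1 h2) rfl rfl))) (pr_case (kcg_242_sf.snd h1 h2) (pr_add (pr_add (pr_subr 1431918245889 673000000000 (kcg_66_sf.snd h1 h2)) (pr_cmul (enc_norm (kcg_3.enc h1.l h2)) (pr_norm (pr_subr 21669837259 8412500000 (kcg_71_sf.snd h1 h2))))) (pr_mA (pr_cmul (enc_norm (kcg_84.enc h1.l h2)) (pr_norm (pr_mul (pr_norm (kcg_220_sf.snd h1 h2)) (pr_norm (kcg_247_sf.snd h1 h2))))) (pr_const (kcg_84.enc h1.l h2)) (kcg_220_sf.snd h1 h2) (kcg_247_sf.snd h1 h2) rfl rfl)) (pr_add (pr_add (pr_subr 1115505834803 3839000000000 (pr_neg (kcg_90_sf.snd h1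 h2))) (pr_cmul (enc_norm (kcg_3.enc h1.l h2)) (pr_norm (pr_csub (enc_rat _ 516258386559 191950000000) (kcg_94_sf.snd h1 h2))))) (pr_mA (pr_cmul (enc_norm (kcg_103.enc h1.l h2)) (pr_norm (pr_mul (pr_norm (kcg_242_sf.snd h1 h2)) (pr_norm (kcg_258_sf.snd h1 h2))))) (pr_const (kcg_103.enc h1.l h2)) (kcg_242_sf.snd h1 h2) (kcg_258_sf.snd h1 h2) rfl rfl)))) (pr_case (kcg_265_sf.snd h1 h2) (pr_case (kcg_266_sf.snd h1 h2) (pr_add (pr_add (pr_subr 380093991 21500000000 (pr_neg (kcg_117_sf.snd h1 h2))) (pr_cmul (enc_norm (kcg_3.enc h1.l h2)) (pr_norm (pr_csub (enc_rat _ 588982771 860000000) (kcg_121_sf.snd h1 h2))))) (pr_mA (pr_cmul (enc_norm (kcg_130.enc h1.l h2)) (pr_norm (pr_mul (pr_norm (kcg_219_sf.snd h1 h2)) (pr_norm (kcg_273_sf.snd h1 h2))))) (pr_const (kcg_130.enc h1.l h2)) (kcg_219_sf.snd h1 h2) (kcg_273_sf.snd h1 h2) rfl rfl)) (pr_add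 (pr_add (pr_subr 247 16000 (pr_neg (kcg_136_sf.snd h1 h2))) (pr_cmul (enc_norm (kcg_3.enc h1.l h2)) (pr_norm (pr_subr 5939 1600 (kcg_140_sf.snd h1 h2))))) (pr_mA (pr_cmul (enc_norm (kcg_151.enc h1.l h2)) (pr_norm (pr_mul (pr_norm (kcg_266_sf.snd h1 h2)) (pr_norm (kcg_283_sf.snd h1 h2))))) (pr_const (kcg_151.enc h1.l h2)) (kcg_266_sf.snd h1 h2) (kcg_283_sf.snd h1 h2) rfl rfl))) (pr_case (kcg_289_sf.snd h1 h2) (pr_add (pr_add (pr_subr 1799 200000 (pr_neg (kcg_161_sf.snd h1 h2))) (pr_cmul (enc_norm (kcg_3.enc h1.l h2)) (pr_norm (pr_subr 59147 10000 (kcg_165_sf.snd h1 h2))))) (pr_mA (pr_cmul (enc_norm (kcg_178.enc h1.l h2)) (pr_norm (pr_mul (pr_norm (kcg_265_sf.snd h1 h2)) (pr_norm (kcg_295_sf.snd h1 h2))))) (pr_const (kcg_178.enc h1.l h2)) (kcg_265_sf.snd h1 h2) (kcg_295_sf.snd h1 h2) rfl rfl)) (pr_case (pr_csub (enc_rat _ 1 10) h1) (pr_add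 (pr_add (pr_subr 363 200000 (pr_neg (kcg_187_sf.snd h1 h2))) (pr_cmul (enc_norm (kcg_3.enc h1.l h2)) (pr_norm (pr_subr 19701 10000 (pr_neg (kcg_191_sf.snd h1 h2)))))) (pr_mA (pr_cmul (enc_norm (kcg_203.enc h1.l h2)) (pr_norm (pr_mul (pr_norm (kcg_289_sf.snd h1 h2)) (pr_norm (kcg_307_sf.snd h1 h2))))) (pr_const (kcg_203.enc h1.l h2)) (kcg_289_sf.snd h1 h2) (kcg_307_sf.snd h1 h2) rfl rfl)) (pr_sub (pr_neg (kcg_209_sf.snd h1 h2)) (kcg_212_sf.snd h1 h2)))))))))⟩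
noncomputable def kf0q0_9_sf : Sl2 kf0q0_9 := ⟨_, fun h1 h2 => (pr_scaleT 3 2 h1)⟩
noncomputable def kf0q0_12_sf : Sl2 kf0q0_12 := ⟨_, fun h1 h2 => (pr_cadd (enc_pnc _ 1) (c1g_sf.snd h1))⟩
noncomputable def kf0q0_sf : Sl2 kf0q0 := ⟨_, fun h1 h2 => (pr_norm (pr_add (pr_mul (pr_norm (pr_mul (pr_norm (pr_sub (c1g_sf.snd h1) (kf0q0_9_sf.snd h1 h2))) (pr_norm (kf0q0_12_sf.snd h1 h2)))) (pr_nd (pr_inv (pr_sub (kf0q0_12_sf.snd h1 h2) (kf0q0_9_sf.snd h1 h2))))) (pr_mul h1 (kcg_sf.snd (pr_norm (pr_sub (pr_scaleT 3 4 h1) (pr_half (c1g_sf.snd h1)))) h2))))⟩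
noncomputable def txg_6_sf : Sl3 txg_6 := ⟨_, fun h1 h2 h3 => (pr_add h1 (pr_half h2))⟩
noncomputable def txg_26_sf : Sl3 txg_26 := ⟨_, fun h1 h2 h3 => (pr_addc h1 (enc_rat _ 1 10))⟩
noncomputable def txg_29_sf : Sl3 txg_29 := ⟨_, fun h1 h2 h3 => (pr_addc h1 (enc_rat _ 11 25))⟩
noncomputable def txg_32_sf : Sl3 txg_32 := ⟨_, fun h1 h2 h3 => (pr_addc h1 (enc_rat _ 12 25))⟩
noncomputable def txg_50_sf : Sl3 txg_50 := ⟨_, fun h1 h2 h3 => (pr_addc h1 (enc_rat _ 1 2))⟩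
noncomputable def txg_51_sf : Sl3 txg_51 := ⟨_, fun h1 h2 h3 => (pr_csub (enc_neg (enc_rat _ 12 25)) h1)⟩
noncomputable def txg_58_sf : Sl3 txg_58 := ⟨_, fun h1 h2 h3 => (pr_addc h1 (enc_rat _ 23 50))⟩
noncomputable def txg_74_sf : Sl3 txg_74 := ⟨_, fun h1 h2 h3 => (pr_csub (enc_neg (enc_rat _ 23 50)) h1)⟩
noncomputable def txg_95_sf : Sl3 txg_95 := ⟨_, fun h1 h2 h3 => (pr_csub (enc_neg (enc_rat _ 11 25)) h1)⟩
noncomputable def txg_104_sf : Sl3 txg_104 := ⟨_, fun h1 h2 h3 => (pr_addc h1 (enc_rat _ 3 10))⟩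
noncomputable def txg_107_sf : Sl3 txg_107 := ⟨_, fun h1 h2 h3 => (pr_addc h1 (enc_rat _ 2 5))⟩
noncomputable def txg_124_sf : Sl3 txg_124 := ⟨_, fun h1 h2 h3 => (pr_csub (enc_neg (enc_rat _ 2 5)) h1)⟩
noncomputable def txg_144_sf : Sl3 txg_144 := ⟨_, fun h1 h2 h3 => (pr_csub (enc_neg (enc_rat _ 3 10)) h1)⟩
noncomputable def txg_152_sf : Sl3 txg_152 := ⟨_, fun h1 h2 h3 => (pr_addc h1 (enc_rat _ 1 5))⟩
noncomputable def txg_168_sf : Sl3 txg_168 := ⟨_, fun h1 h2 h3 => (pr_csub (enc_neg (enc_rat _ 1 5)) h1)⟩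
noncomputable def txg_185_sf : Sl3 txg_185 := ⟨_, fun h1 h2 h3 => (pr_csub (enc_neg (enc_rat _ 1 10)) h1)⟩
noncomputable def txg_193_sf : Sl3 txg_193 := ⟨_, fun h1 h2 h3 => (pr_subr 1 5 h1)⟩
noncomputable def txg_194_sf : Sl3 txg_194 := ⟨_, fun h1 h2 h3 => (pr_subr 1 10 h1)⟩
noncomputable def txg_207_sf : Sl3 txg_207 := ⟨_, fun h1 h2 h3 => (pr_csub (enc_rat _ 1 10) h1)⟩
noncomputable def txg_213_sf : Sl3 txg_213 := ⟨_, fun h1 h2 h3 => (pr_subr 3 20 h1)⟩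
noncomputable def txg_228_sf : Sl3 txg_228 := ⟨_, fun h1 h2 h3 => (pr_csub (enc_rat _ 3 20) h1)⟩
noncomputable def txg_247_sf : Sl3 txg_247 := ⟨_, fun h1 h2 h3 => (pr_csub (enc_rat _ 1 5) h1)⟩
noncomputable def txg_254_sf : Sl3 txg_254 := ⟨_, fun h1 h2 h3 => (pr_subr 3 10 h1)⟩
noncomputable def txg_256_sf : Sl3 txg_256 := ⟨_, fun h1 h2 h3 => (pr_subr 1 4 h1)⟩
noncomputable def txg_271_sf : Sl3 txg_271 := ⟨_, fun h1 h2 h3 => (pr_csub (enc_rat _ 1 4) h1)⟩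
noncomputable def txg_290_sf : Sl3 txg_290 := ⟨_, fun h1 h2 h3 => (pr_csub (enc_rat _ 3 10) h1)⟩
noncomputable def txg_297_sf : Sl3 txg_297 := ⟨_, fun h1 h2 h3 => (pr_subr 7 20 h1)⟩
noncomputable def txg_314_sf : Sl3 txg_314 := ⟨_, fun h1 h2 h3 => (pr_csub (enc_rat _ 7 20) h1)⟩
noncomputable def txg_343_sf : Sl3 txg_343 := ⟨_, fun h1 h2 h3 => (pr_csub (enc_rat _ 47 122) h1)⟩
noncomputable def txg_353_sf : Sl3 txg_353 := ⟨_, fun h1 h2 h3 => (pr_subr 263 601 h1)⟩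
noncomputable def txg_354_sf : Sl3 txg_354 := ⟨_, fun h1 h2 h3 => (pr_subr 23 50 h1)⟩
noncomputable def txg_356_sf : Sl3 txg_356 := ⟨_, fun h1 h2 h3 => (pr_subr 9 20 h1)⟩
noncomputable def txg_382_sf : Sl3 txg_382 := ⟨_, fun h1 h2 h3 => (pr_csub (enc_rat _ 9 20) h1)⟩
noncomputable def txg_403_sf : Sl3 txg_403 := ⟨_, fun h1 h2 h3 => (pr_csub (enc_rat _ 23 50) h1)⟩
noncomputable def txg_410_sf : Sl3 txg_410 := ⟨_, fun h1 h2 h3 => (pr_subr 47 100 h1)⟩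
noncomputable def txg_426_sf : Sl3 txg_426 := ⟨_, fun h1 h2 h3 => (pr_csub (enc_rat _ 47 100) h1)⟩
noncomputable def txg_432_sf : Sl3 txg_432 := ⟨_, fun h1 h2 h3 => (pr_subr 97 200 h1)⟩
noncomputable def txg_448_sf : Sl3 txg_448 := ⟨_, fun h1 h2 h3 => (pr_csub (enc_rat _ 97 200) h1)⟩
noncomputable def txg_468_sf : Sl3 txg_468 := ⟨_, fun h1 h2 h3 => (pr_csub (enc_rat _ 1 2) h1)⟩
noncomputable def txg_sf : Sl3 txg := ⟨_, fun h1 h2 h3 => (pr_case (pr_subr 47 122 h1) (pr_case (txg_26_sf.snd h1 h2 h3) (pr_case (txg_29_sf.snd h1 h2 h3) (pr_case (txg_32_sf.snd h1 h2 h3) (pr_add (pr_add (pr_addc (pr_scaleT 12013 50000 h1) (enc_rat _ 12013 100000)) (pr_cmul (enc_norm (txg_4.enc h1.l h2.l h3)) (pr_norm (pr_subr 18217 20000 (pr_neg (pr_scaleT 18217 10000 h1)))))) (pr_mA (pr_cmul (enc_norm (txg_47.enc h1.l h2.l h3)) (pr_norm (pr_mul (pr_norm (txg_50_sf.snd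 h1 h2 h3)) (pr_norm (txg_51_sf.snd h1 h2 h3))))) (pr_const (txg_47.enc h1.l h2.l h3)) (txg_50_sf.snd h1 h2 h3) (txg_51_sf.snd h1 h2 h3) rfl rfl)) (pr_case (txg_58_sf.snd h1 h2 h3) (pr_add (pr_add (pr_addc (pr_scaleT 6079 20000 h1) (enc_rat _ 376753 2500000)) (pr_cmul (enc_norm (txg_4.enc h1.l h2.l h3)) (pr_norm (pr_subr 23833 20000 (pr_neg (pr_scaleT 24067 10000 h1)))))) (pr_mA (pr_cmul (enc_norm (txg_73.enc h1.l h2.l h3)) (pr_norm (pr_mul (pr_norm (txg_32_sf.snd h1 h2 h3)) (pr_norm (txg_74_sf.snd h1 h2 h3))))) (pr_const (txg_73.enc h1.l h2.l h3)) (txg_32_sf.snd h1 h2 h3) (txg_74_sf.snd h1 h2 h3) rfl rfl)) (pr_add (pr_add (pr_addc (pr_scaleT 3389 12500 h1) (enc_rat _ 677997 5000000)) (pr_cmul (enc_norm (txg_4.enc h1.l h2.l h3)) (pr_norm (pr_subr 310919 250000 (pr_neg (pr_scaleT 12599 5000 h1)))))) (pr_mA (pr_cmul (enc_norm (txg_94.enc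 h1.l h2.l h3)) (pr_norm (pr_mul (pr_norm (txg_58_sf.snd h1 h2 h3)) (pr_norm (txg_95_sf.snd h1 h2 h3))))) (pr_const (txg_94.enc h1.l h2.l h3)) (txg_58_sf.snd h1 h2 h3) (txg_95_sf.snd h1 h2 h3) rfl rfl)))) (pr_case (txg_104_sf.snd h1 h2 h3) (pr_case (txg_107_sf.snd h1 h2 h3) (pr_add (pr_add (pr_addc (pr_scaleT 20667 100000 h1) (enc_rat _ 536207 5000000)) (pr_cmul (enc_norm (txg_4.enc h1.l h2.l h3)) (pr_norm (pr_subr 151219 125000 (pr_neg (pr_scaleT 24427 10000 h1)))))) (pr_mA (pr_cmul (enc_norm (txg_123.enc h1.l h2.l h3)) (pr_norm (pr_mul (pr_norm (txg_29_sf.snd h1 h2 h3)) (pr_norm (txg_124_sf.snd h1 h2 h3))))) (pr_const (txg_123.enc h1.l h2.l h3)) (txg_29_sf.snd h1 h2 h3) (txg_124_sf.snd h1 h2 h3) rfl rfl)) (pr_add (pr_add (pr_addc (pr_scaleT 6487 20000 h1) (enc_rat _ 771567 5000000)) (pr_cmul (enc_norm (txg_4.enc h1.l h2.l h3)) (pr_norm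 (pr_addc (pr_scaleT 2543 2500 h1) (enc_rat _ 2722 15625))))) (pr_mA (pr_cmul (enc_norm (txg_143.enc h1.l h2.l h3)) (pr_norm (pr_mul (pr_norm (txg_107_sf.snd h1 h2 h3)) (pr_norm (txg_144_sf.snd h1 h2 h3))))) (pr_const (txg_143.enc h1.l h2.l h3)) (txg_107_sf.snd h1 h2 h3) (txg_144_sf.snd h1 h2 h3) rfl rfl))) (pr_case (txg_152_sf.snd h1 h2 h3) (pr_add (pr_add (pr_addc (pr_scaleT 11187 20000 h1) (enc_rat _ 1124067 5000000)) (pr_cmul (enc_norm (txg_4.enc h1.l h2.l h3)) (pr_norm (pr_addc (pr_scaleT 45637 10000 h1) (enc_rat _ 619079 500000))))) (pr_mA (pr_cmul (enc_norm (txg_167.enc h1.l h2.l h3)) (pr_norm (pr_mul (pr_norm (txg_104_sf.snd h1 h2 h3)) (pr_norm (txg_168_sf.snd h1 h2 h3))))) (pr_const (txg_167.enc h1.l h2.l h3)) (txg_104_sf.snd h1 h2 h3) (txg_168_sf.snd h1 h2 h3) rfl rfl)) (pr_add (pr_add (pr_addc (pr_scaleT 10793 20000 h1) (enc_rat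 _ 1104367 5000000)) (pr_cmul (enc_norm (txg_4.enc h1.l h2.l h3)) (pr_norm (pr_addc (pr_scaleT 4619 1250 h1) (enc_rat _ 532229 500000))))) (pr_mA (pr_cmul (enc_norm (txg_184.enc h1.l h2.l h3)) (pr_norm (pr_mul (pr_norm (txg_152_sf.snd h1 h2 h3)) (pr_norm (txg_185_sf.snd h1 h2 h3))))) (pr_const (txg_184.enc h1.l h2.l h3)) (txg_152_sf.snd h1 h2 h3) (txg_185_sf.snd h1 h2 h3) rfl rfl))))) (pr_case (txg_193_sf.snd h1 h2 h3) (pr_case (txg_194_sf.snd h1 h2 h3) (pr_add (pr_add (pr_addc (pr_scaleT 551 4000 h1) (enc_rat _ 903417 5000000)) (pr_cmul (enc_norm (txg_4.enc h1.l h2.l h3)) (pr_norm (pr_addc (pr_scaleT 6047 10000 h1) (enc_rat _ 47213 62500))))) (pr_mA (pr_cmul (enc_norm (txg_206.enc h1.l h2.l h3)) (pr_norm (pr_mul (pr_norm (txg_26_sf.snd h1 h2 h3)) (pr_norm (txg_207_sf.snd h1 h2 h3))))) (pr_const (txg_206.enc h1.l h2.l h3)) (txg_26_sf.snd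 h1 h2 h3) (txg_207_sf.snd h1 h2 h3) rfl rfl)) (pr_case (txg_213_sf.snd h1 h2 h3) (pr_add (pr_add (pr_csub (enc_rat _ 2132309 10000000) (pr_scaleT 7509 40000 h1)) (pr_cmul (enc_norm (txg_4.enc h1.l h2.l h3)) (pr_norm (pr_csub (enc_rat _ 506979 500000) (pr_scaleT 1238 625 h1))))) (pr_mA (pr_cmul (enc_norm (txg_227.enc h1.l h2.l h3)) (pr_norm (pr_mul (pr_norm (txg_194_sf.snd h1 h2 h3)) (pr_norm (txg_228_sf.snd h1 h2 h3))))) (pr_const (txg_227.enc h1.l h2.l h3)) (txg_194_sf.snd h1 h2 h3) (txg_228_sf.snd h1 h2 h3) rfl rfl)) (pr_add (pr_add (pr_csub (enc_rat _ 4603693 20000000) (pr_scaleT 1203 4000 h1)) (pr_cmul (enc_norm (txg_4.enc h1.l h2.l h3)) (pr_norm (pr_csub (enc_rat _ 1120233 1000000) (pr_scaleT 26893 10000 h1))))) (pr_mA (pr_cmul (enc_norm (txg_246.enc h1.l h2.l h3)) (pr_norm (pr_mul (pr_norm (txg_213_sf.snd h1 h2 h3)) (pr_norm (txg_247_sf.snd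 h1 h2 h3))))) (pr_const (txg_246.enc h1.l h2.l h3)) (txg_213_sf.snd h1 h2 h3) (txg_247_sf.snd h1 h2 h3) rfl rfl)))) (pr_case (txg_254_sf.snd h1 h2 h3) (pr_case (txg_256_sf.snd h1 h2 h3) (pr_add (pr_add (pr_csub (enc_rat _ 4873693 20000000) (pr_scaleT 1473 4000 h1)) (pr_cmul (enc_norm (txg_4.enc h1.l h2.l h3)) (pr_norm (pr_csub (enc_rat _ 1193333 1000000) (pr_scaleT 7637 2500 h1))))) (pr_mA (pr_cmul (enc_norm (txg_270.enc h1.l h2.l h3)) (pr_norm (pr_mul (pr_norm (txg_193_sf.snd h1 h2 h3)) (pr_norm (txg_271_sf.snd h1 h2 h3))))) (pr_const (txg_270.enc h1.l h2.l h3)) (txg_193_sf.snd h1 h2 h3) (txg_271_sf.snd h1 h2 h3) rfl rfl)) (pr_add (pr_add (pr_csub (enc_rat _ 5062943 20000000) (pr_scaleT 4061 10000 h1)) (pr_cmul (enc_norm (txg_4.enc h1.l h2.l h3)) (pr_norm (pr_csub (enc_rat _ 163151 125000) (pr_scaleT 35023 10000 h1))))) (pr_mA (pr_cmul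 (enc_norm (txg_289.enc h1.l h2.l h3)) (pr_norm (pr_mul (pr_norm (txg_256_sf.snd h1 h2 h3)) (pr_norm (txg_290_sf.snd h1 h2 h3))))) (pr_const (txg_289.enc h1.l h2.l h3)) (txg_256_sf.snd h1 h2 h3) (txg_290_sf.snd h1 h2 h3) rfl rfl))) (pr_case (txg_297_sf.snd h1 h2 h3) (pr_add (pr_add (pr_csub (enc_rat _ 5528843 20000000) (pr_scaleT 387 800 h1)) (pr_cmul (enc_norm (txg_4.enc h1.l h2.l h3)) (pr_norm (pr_csub (enc_rat _ 806533 1000000) (pr_scaleT 36801 20000 h1))))) (pr_mA (pr_cmul (enc_norm (txg_313.enc h1.l h2.l h3)) (pr_norm (pr_mul (pr_norm (txg_254_sf.snd h1 h2 h3)) (pr_norm (txg_314_sf.snd h1 h2 h3))))) (pr_const (txg_313.enc h1.l h2.l h3)) (txg_254_sf.snd h1 h2 h3) (txg_314_sf.snd h1 h2 h3) rfl rfl)) (pr_add (pr_add (pr_add (pr_csub (enc_rat _ 26455588601397 85247500000000) (pr_scaleT 1237360983073 2131187500000 h1)) (pr_cmul (enc_norm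 (txg_4.enc h1.l h2.l h3)) (pr_norm (pr_csub (enc_rat _ 4517905174279 17049500000000) (pr_scaleT 249585308147 852475000000 h1))))) (pr_cmul (txg_333.enc h1.l h2.l h3) (pr_norm (pr_csub (enc_rat _ 3315389 107500000) (pr_scaleT 473627 5375000 h1))))) (pr_mA (pr_cmul (enc_norm (txg_342.enc h1.l h2.l h3)) (pr_norm (pr_mul (pr_norm (txg_297_sf.snd h1 h2 h3)) (pr_norm (txg_343_sf.snd h1 h2 h3))))) (pr_const (txg_342.enc h1.l h2.l h3)) (txg_297_sf.snd h1 h2 h3) (txg_343_sf.snd h1 h2 h3) rfl rfl)))))) (pr_case (txg_353_sf.snd h1 h2 h3) (pr_sub (pr_mul (pr_norm (pr_csub (enc_pnc _ 1) h2)) (pr_norm (pr_subn 1 (pr_nat 2 h2)))) (pr_mul (pr_norm (pr_nat 2 (pr_subc (pr_scaleT 4 3 (txg_6_sf.snd h1 h2 h3)) h3))) (pr_norm (pr_mul (pr_norm (pr_subn 1 (pr_add (pr_scaleT 2 3 (txg_6_sf.snd h1 h2 h3)) h2))) (kcg_sf.snd h1 h3))))) (pr_case (txg_354_sf.snd h1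 h2 h3) (pr_case (txg_356_sf.snd h1 h2 h3) (pr_add (pr_add (pr_add (pr_csub (enc_rat _ 9061694300244487 23282740000000000) (pr_scaleT 900378192202543 1164137000000000 h1)) (pr_cmul (enc_norm (txg_4.enc h1.l h2.l h3)) (pr_norm (pr_csub (enc_rat _ 103648764989333 145517125000000) (pr_scaleT 20447086992999 14551712500000 h1))))) (pr_cmul (txg_333.enc h1.l h2.l h3) (pr_norm (pr_csub (enc_rat _ 1752418737 1862500000) (pr_scaleT 194713193 93125000 h1))))) (pr_mA (pr_cmul (enc_norm (txg_381.enc h1.l h2.l h3)) (pr_norm (pr_mul (pr_norm (txg_353_sf.snd h1 h2 h3)) (pr_norm (txg_382_sf.snd h1 h2 h3))))) (pr_const (txg_381.enc h1.l h2.l h3)) (txg_353_sf.snd h1 h2 h3) (txg_382_sf.snd h1 h2 h3) rfl rfl)) (pr_add (pr_add (pr_csub (enc_rat _ 20455967 50000000) (pr_scaleT 81769 100000 h1)) (pr_cmul (enc_norm (txg_4.enc h1.l h2.l h3)) (pr_norm (pr_csub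 (enc_rat _ 3334183 5000000) (pr_scaleT 26083 20000 h1))))) (pr_mA (pr_cmul (enc_norm (txg_402.enc h1.l h2.l h3)) (pr_norm (pr_mul (pr_norm (txg_356_sf.snd h1 h2 h3)) (pr_norm (txg_403_sf.snd h1 h2 h3))))) (pr_const (txg_402.enc h1.l h2.l h3)) (txg_356_sf.snd h1 h2 h3) (txg_403_sf.snd h1 h2 h3) rfl rfl))) (pr_case (txg_410_sf.snd h1 h2 h3) (pr_add (pr_add (pr_csub (enc_rat _ 10379381 25000000) (pr_scaleT 166171 200000 h1)) (pr_cmul (enc_norm (txg_4.enc h1.l h2.l h3)) (pr_norm (pr_csub (enc_rat _ 422221 625000) (pr_scaleT 13231 10000 h1))))) (pr_mA (pr_cmul (enc_norm (txg_425.enc h1.l h2.l h3)) (pr_norm (pr_mul (pr_norm (txg_354_sf.snd h1 h2 h3)) (pr_norm (txg_426_sf.snd h1 h2 h3))))) (pr_const (txg_425.enc h1.l h2.l h3)) (txg_354_sf.snd h1 h2 h3) (txg_426_sf.snd h1 h2 h3) rfl rfl)) (pr_case (txg_432_sf.snd h1 h2 h3) (pr_add (pr_add (pr_csub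 (enc_rat _ 123792629 300000000) (pr_scaleT 619099 750000 h1)) (pr_cmul (enc_norm (txg_4.enc h1.l h2.l h3)) (pr_norm (pr_csub (enc_rat _ 821357 1000000) (pr_scaleT 40833 25000 h1))))) (pr_mA (pr_cmul (enc_norm (txg_447.enc h1.l h2.l h3)) (pr_norm (pr_mul (pr_norm (txg_410_sf.snd h1 h2 h3)) (pr_norm (txg_448_sf.snd h1 h2 h3))))) (pr_const (txg_447.enc h1.l h2.l h3)) (txg_410_sf.snd h1 h2 h3) (txg_448_sf.snd h1 h2 h3) rfl rfl)) (pr_add (pr_add (pr_csub (enc_rat _ 1229141 3000000) (pr_scaleT 1229141 1500000 h1)) (pr_cmul (enc_norm (txg_4.enc h1.l h2.l h3)) (pr_norm (pr_csub (enc_rat _ 9124 9375) (pr_scaleT 18248 9375 h1))))) (pr_mA (pr_cmul (enc_norm (txg_467.enc h1.l h2.l h3)) (pr_norm (pr_mul (pr_norm (txg_432_sf.snd h1 h2 h3)) (pr_norm (txg_468_sf.snd h1 h2 h3))))) (pr_const (txg_467.enc h1.l h2.l h3)) (txg_432_sf.snd h1 h2 h3) (txg_468_sf.snd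 h1 h2 h3) rfl rfl)))))))⟩
noncomputable def l0q0_sf : Sl2 l0q0 := ⟨_, fun h1 h2 => (pr_norm (txg_sf.snd (pr_norm (pr_sub (pr_scaleT 3 4 h1) (pr_half (c1g_sf.snd h1)))) (pr_nd (c1g_sf.snd h1)) h2))⟩
noncomputable def swg_sf : Sl1 swg := ⟨_, fun h1 => (pr_sqrt (pr_csub (enc_pnc _ 1) (pr_scaleT 3 4 (pr_sq (pr_norm (pr_subn 1 h1))))))⟩
noncomputable def cv1m_sf : Sl1 cv1m := ⟨_, fun h1 => (pr_norm (pr_add (pr_scaleT 3 4 (c1g_sf.snd h1)) (pr_scaleT 1 4 (pr_addc (swg_sf.snd h1) (enc_rat _ 1 2)))))⟩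
noncomputable def bf1q0_8_sf : Sl2 bf1q0_8 := ⟨_, fun h1 h2 => (pr_scaleT 278 125 h1)⟩
noncomputable def bf1q0_11_sf : Sl2 bf1q0_11 := ⟨_, fun h1 h2 => (pr_csub (enc_pnc _ 1) (bf1q0_8_sf.snd h1 h2))⟩
noncomputable def bf1q0_12_sf : Sl2 bf1q0_12 := ⟨_, fun h1 h2 => (pr_scaleT 181 100 h1)⟩
noncomputable def bf1q0_sf : Sl2 bf1q0 := ⟨_, fun h1 h2 => (pr_norm (pr_case (pr_subr 1 25 h1) (pr_case (pr_subr 1 50 h1) (pr_add (bf1q0_11_sf.snd h1 h2) (pr_cmul (enc_norm (bf1q0_3.enc h1.l h2)) (pr_nd (bf1q0_12_sf.snd h1 h2)))) (pr_add (bf1q0_11_sf.snd h1 h2) (pr_cmul (enc_norm (bf1q0_3.enc h1.l h2)) (pr_norm (pr_addc (pr_scaleT 361 200 h1) (enc_rat _ 1 10000)))))) (pr_case (pr_subr 2 25 h1) (pr_add (pr_csub (enc_rat _ 99999 100000) (pr_scaleT 1779 800 h1)) (pr_cmul (enc_norm (bf1q0_3.enc h1.l h2)) (pr_norm (pr_subr 1 10000 (bf1q0_12_sf.snd h1 h2)))))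 (pr_case (pr_subr 1 5 h1) (pr_add (pr_csub (enc_rat _ 100001 100000) (bf1q0_8_sf.snd h1 h2)) (pr_cmul (enc_norm (bf1q0_3.enc h1.l h2)) (pr_norm (pr_addc (pr_scaleT 217 120 h1) (enc_rat _ 1 30000))))) (pr_add (pr_csub (enc_rat _ 299999 300000) (pr_scaleT 33359 15000 h1)) (pr_cmul (enc_norm (bf1q0_3.enc h1.l h2)) (pr_norm (pr_subr 1 10000 (pr_scaleT 1809 1000 h1)))))))))⟩
noncomputable def kf1q0_sf : Sl2 kf1q0 := ⟨_, fun h1 h2 => (pr_norm (pr_mul (cv1m_sf.snd h1) (bf1q0_sf.snd h1 h2)))⟩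
noncomputable def bx1q0_sf : Sl2 bx1q0 := ⟨_, fun h1 h2 => (pr_norm (pr_case (pr_subr 1 25 h1) (pr_case (pr_subr 1 50 h1) (pr_add (pr_scaleT 843 2000 h1) (pr_cmul (enc_norm (bx1q0_3.enc h1.l h2)) (pr_nd (pr_scaleT 1 40 h1)))) (pr_add (pr_subr 1 100000 (pr_scaleT 211 500 h1)) (pr_cmul (enc_norm (bx1q0_3.enc h1.l h2)) (pr_norm (pr_subr 1 5000 (pr_scaleT 7 200 h1)))))) (pr_case (pr_subr 2 25 h1) (pr_add (pr_addc (pr_scaleT 1683 4000 h1) (enc_rat _ 1 25000)) (pr_cmul (enc_norm (bx1q0_3.enc h1.l h2)) (pr_norm (pr_subr 1 500 (pr_scaleT 2 25 h1))))) (pr_case (pr_subr 1 5 h1) (pr_add (pr_addc (pr_scaleT 2003 12000 h1) (enc_rat _ 763 37500)) (pr_cmul (enc_norm (bx1q0_3.enc h1.l h2)) (pr_norm (pr_subr 283 7500 (pr_scaleT 79 150 h1))))) (pr_add (pr_addc (pr_scaleT 4919 30000 h1) (enc_rat _ 6281 300000)) (pr_cmul (enc_norm (bx1q0_3.enc h1.l h2))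 (pr_norm (pr_subr 331 7500 (pr_scaleT 419 750 h1)))))))))⟩
noncomputable def l1q0_sf : Sl2 l1q0 := ⟨_, fun h1 h2 => (pr_norm (pr_mul (cv1m_sf.snd h1) (bx1q0_sf.snd h1 h2)))⟩
noncomputable def cv2m_sf : Sl1 cv2m := ⟨_, fun h1 => (pr_norm (pr_add (pr_scaleT 7 20 (c1g_sf.snd h1)) (pr_scaleT 13 20 (pr_addc (swg_sf.snd h1) (enc_rat _ 1 2)))))⟩
noncomputable def bf2q0_24_sf : Sl2 bf2q0_24 := ⟨_, fun h1 h2 => (pr_cmul (enc_norm (bf2q0_3.enc h1.l h2)) (pr_norm (pr_csub (enc_rat _ 9121 10000) (pr_scaleT 65 2 h1))))⟩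
noncomputable def bf2q0_sf : Sl2 bf2q0 := ⟨_, fun h1 h2 => (pr_norm (pr_case (pr_subr 1 25 h1) (pr_case (pr_subr 1 50 h1) (pr_add (pr_csub (enc_pnc _ 1) (pr_scaleT 851 400 h1)) (pr_cmul (enc_norm (bf2q0_3.enc h1.l h2)) (pr_nd (pr_scaleT 2621 200 h1)))) (pr_add (pr_csub (enc_rat _ 25239 25000) (pr_scaleT 5211 2000 h1)) (bf2q0_24_sf.snd h1 h2))) (pr_case (pr_subr 1 5 h1) (pr_add (pr_csub (enc_rat _ 20191 20000) (pr_scaleT 10421 4000 h1)) (bf2q0_24_sf.snd h1 h2)) (pr_add (pr_csub (enc_rat _ 18929 18750) (pr_scaleT 78157 30000 h1)) (bf2q0_24_sf.snd h1 h2)))))⟩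
noncomputable def kf2q0_sf : Sl2 kf2q0 := ⟨_, fun h1 h2 => (pr_norm (pr_mul (cv2m_sf.snd h1) (bf2q0_sf.snd h1 h2)))⟩
noncomputable def bx2q0_sf : Sl2 bx2q0 := ⟨_, fun h1 h2 => (pr_norm (pr_case (pr_subr 1 25 h1) (pr_case (pr_subr 1 50 h1) (pr_add (pr_scaleT 399 500 h1) (pr_cmul (enc_norm (bx2q0_3.enc h1.l h2)) (pr_nd (pr_scaleT 641 200 h1)))) (pr_add (pr_addc (pr_scaleT 1489 2000 h1) (enc_rat _ 107 100000)) (pr_cmul (enc_norm (bx2q0_3.enc h1.l h2)) (pr_norm (pr_addc (pr_scaleT 47 40 h1) (enc_rat _ 203 5000)))))) (pr_case (pr_subr 2 25 h1) (pr_add (pr_addc (pr_scaleT 1293 2000 h1) (enc_rat _ 499 100000)) (pr_cmul (enc_norm (bx2q0_3.enc h1.l h2)) (pr_norm (pr_addc (pr_scaleT 341 400 h1) (enc_rat _ 107 2000))))) (pr_case (pr_subr 1 5 h1) (pr_add (pr_addc (pr_scaleT 6851 12000 h1) (enc_rat _ 3311 300000)) (pr_cmul (enc_norm (bx2q0_3.enc h1.l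 h2)) (pr_norm (pr_csub (enc_rat _ 1187 6000) (pr_scaleT 571 600 h1))))) (pr_add (pr_csub (enc_rat _ 10283 75000) (pr_scaleT 1783 30000 h1)) (pr_cmul (enc_norm (bx2q0_3.enc h1.l h2)) (pr_norm (pr_csub (enc_rat _ 1193 6000) (pr_scaleT 287 300 h1)))))))))⟩
noncomputable def l2q0_sf : Sl2 l2q0 := ⟨_, fun h1 h2 => (pr_norm (pr_mul (cv2m_sf.snd h1) (bx2q0_sf.snd h1 h2)))⟩
noncomputable def kf0q1_10_sf : Sl2 kf0q1_10 := ⟨_, fun h1 h2 => (pr_scaleT 3 2 h1)⟩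
noncomputable def kf0q1_sf : Sl2 kf0q1 := ⟨_, fun h1 h2 => (pr_norm (pr_add (pr_mul (pr_norm (pr_mul (pr_norm (pr_cadd (enc_pnc _ 1) (pr_nat 2 (c1g_sf.snd h1)))) (pr_norm (pr_sub (kf0q1_10_sf.snd h1 h2) (c1g_sf.snd h1))))) (pr_nd (pr_inv (pr_nat 2 (pr_sub (pr_cadd (enc_pnc _ 1) (kf0q1_10_sf.snd h1 h2)) (c1g_sf.snd h1)))))) (pr_mul (pr_norm (pr_subn 1 h1)) (kcg_sf.snd (pr_norm (pr_sub (pr_scaleT 3 4 h1) (pr_half (c1g_sf.snd h1)))) h2))))⟩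
noncomputable def l0q1_sf : Sl2 l0q1 := ⟨_, fun h1 h2 => (pr_norm (txg_sf.snd (pr_norm (pr_sub (pr_scaleT 3 4 h1) (pr_half (c1g_sf.snd h1)))) (pr_nd (c1g_sf.snd h1)) h2))⟩
noncomputable def cv2p_sf : Sl1 cv2p := ⟨_, fun h1 => (pr_norm (pr_add (pr_scaleT 7 20 (c1g_sf.snd h1)) (pr_scaleT 13 20 (pr_subr 1 2 (swg_sf.snd h1)))))⟩
noncomputable def bf2q2_11_sf : Sl2 bf2q2_11 := ⟨_, fun h1 h2 => (pr_csub (enc_rat _ 6049 1250) (pr_scaleT 4799 1250 h1))⟩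
noncomputable def bf2q2_sf : Sl2 bf2q2 := ⟨_, fun h1 h2 => (pr_norm (pr_case (pr_subr 577 500 h1) (pr_case (pr_subr 21 20 h1) (pr_add (bf2q2_11_sf.snd h1 h2) (pr_cmul (enc_norm (bf2q2_3.enc h1.l h2)) (pr_norm (pr_csub (enc_rat _ 4213 500) (pr_scaleT 4213 500 h1))))) (pr_add (pr_csub (enc_rat _ 3145501 650000) (pr_scaleT 4991 1300 h1)) (pr_cmul (enc_norm (bf2q2_3.enc h1.l h2)) (pr_norm (pr_csub (enc_rat _ 547753 65000) (pr_scaleT 2191 260 h1)))))) (pr_case (pr_subr 231 200 h1) (pr_add (pr_csub (enc_rat _ 121003 25000) (pr_scaleT 96 25 h1)) (pr_cmul (enc_norm (bf2q2_3.enc h1.l h2)) (pr_norm (pr_csub (enc_rat _ 83959 10000) (pr_scaleT 42 5 h1))))) (pr_case (pr_subr 13 10 h1) (pr_add (pr_csub (enc_rat _ 1754197 362500) (pr_scaleT 13917 3625 h1)) (pr_cmul (enc_norm (bf2q2_3.enc h1.l h2)) (pr_norm (pr_csub (enc_rat _ 2443589 290000) (pr_scaleT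 6109 725 h1))))) (pr_add (bf2q2_11_sf.snd h1 h2) (pr_cmul (enc_norm (bf2q2_3.enc h1.l h2)) (pr_norm (pr_csub (enc_rat _ 168531 20000) (pr_scaleT 16853 2000 h1)))))))))⟩
noncomputable def kf2q2_sf : Sl2 kf2q2 := ⟨_, fun h1 h2 => (pr_norm (pr_mul (cv2p_sf.snd h1) (bf2q2_sf.snd h1 h2)))⟩
noncomputable def bx2q2_sf : Sl2 bx2q2 := ⟨_, fun h1 h2 => (pr_norm (pr_case (pr_subr 577 500 h1) (pr_case (pr_subr 21 20 h1) (pr_add (pr_csub (enc_rat _ 181 250) (pr_scaleT 181 250 h1)) (pr_cmul (enc_norm (bx2q2_3.enc h1.l h2)) (pr_norm (pr_csub (enc_rat _ 161 50) (pr_scaleT 161 50 h1))))) (pr_add (pr_csub (enc_rat _ 376501 520000) (pr_scaleT 753 1040 h1)) (pr_cmul (enc_norm (bx2q2_3.enc h1.l h2)) (pr_norm (pr_csub (enc_rat _ 334481 104000) (pr_scaleT 669 208 h1)))))) (pr_case (pr_subr 231 200 h1) (pr_add (pr_csub (enc_rat _ 35969 50000) (pr_scaleT 18 25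 h1)) (pr_cmul (enc_norm (bx2q2_3.enc h1.l h2)) (pr_norm (pr_csub (enc_rat _ 26203 10000) (pr_scaleT 27 10 h1))))) (pr_case (pr_subr 13 10 h1) (pr_add (pr_subr 574463 362500 (pr_scaleT 9243 7250 h1)) (pr_cmul (enc_norm (bx2q2_3.enc h1.l h2)) (pr_norm (pr_subr 30484 18125 (pr_scaleT 743 725 h1))))) (pr_add (pr_subr 63397 40000 (pr_scaleT 25501 20000 h1)) (pr_cmul (enc_norm (bx2q2_3.enc h1.l h2)) (pr_norm (pr_subr 7251 4000 (pr_scaleT 2251 2000 h1)))))))))⟩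
noncomputable def l2q2_sf : Sl2 l2q2 := ⟨_, fun h1 h2 => (pr_norm (pr_mul (cv2p_sf.snd h1) (bx2q2_sf.snd h1 h2)))⟩
noncomputable def dlg : Fn2 := ⟨_, _, fun h1 h2 => (kcg.enc (enc_norm (enc_sub (enc_scaleT 3 4 h1) (enc_half (c1g.enc h1)))) h2)⟩
noncomputable def kq02_6 : Fn2 := ⟨_, _, fun h1 h2 => (enc_scaleT 106177 5000 h2)⟩
noncomputable def kq02 : Fn2 := ⟨_, _, fun h1 h2 => (enc_norm (enc_add (enc_subr 41179421 2600000 (kq02_6.enc h1 h2)) (enc_mul (enc_norm (enc_sub (enc_rat _ 43779421 2600000) (kq02_6.enc h1 h2))) (yag.enc h1))))⟩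
noncomputable def lq02 : Fn2 := ⟨_, _, fun h1 h2 => (enc_norm (enc_sub (enc_rat _ 2228589 2600000) (enc_scaleT 6047 5000 h2)))⟩
noncomputable def cq02 : Fn2 := ⟨_, _, fun h1 h2 => (enc_norm (enc_subr 327563 6500 (enc_scaleT 1227 25 h2)))⟩
noncomputable def pcE0 : Piece := ⟨Fn3.sc eng rsbq0, rlq0⟩
noncomputable def pcE1 : Piece := ⟨Fn3.sc eng rsbq1, rlq1⟩
noncomputable def pcE2 : Piece := ⟨Fn3.sc eng rsbq2, rlq2⟩
noncomputable def pcE3 : Piece := ⟨Fn3.sc eng rsbq3, rlq3⟩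

end Pool.Agent.Strip051.G.I9231_9500.Tab
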