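import Pool.Agent.Strip051.G.I9231_9500.Tab
import Pool.Agent.Strip051.PB.C12G
import Pool.Agent.Strip051.PB.PairU
import Pool.Agent.Strip051.PB.PairB

/-! # Slopes of the tables near the lattice heights (generated) -/

set_option linter.all false

namespace Pool.Agent.Strip051.G.I9231_9500.Tab

open Pool.Agent.Strip051.PB

attribute [local irreducible] padd psub pneg pmul psq pinv psqrt psqrtg pabs pps pmax pmin pphi plam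
  pcase phf pnat prat pscale pnorm pdc pnc pone ppos pnn Enc pbad pzero

noncomputable def idf_s : Sl1 idf := ⟨fun _ _ D => D, fun h => h⟩

theorem cv1r_two {b : ℝ} (h : b = 2) : cv1r.v b = 0 := by
  have e : swg.v = swn := by funext y; simp [swg, swn]
  subst h
  simp only [cv1r, e, swn_two]
  push_cast
  ring
theorem cv2r_two {b : ℝ} (h : b = 2) : cv2r.v b = 0 := by
  have e : swg.v = swn := by funext y; simp [swg, swn]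
  subst h
  simp only [cv2r, e, swn_two]
  push_cast
  ring
noncomputable def c1g_s : Sl1 c1g := ⟨_, fun h1 => (pr_sqrtgz (pr_csub (enc_pnc _ 1) (pr_scaleT 3 4 (pr_sq h1))))⟩
noncomputable def kcg_6_s : Sl2 kcg_6 := ⟨_, fun h1 h2 => (pr_addc h1 (enc_rat _ 47 122))⟩
noncomputable def kcg_9_s : Sl2 kcg_9 := ⟨_, fun h1 h2 => (pr_addc h1 (enc_rat _ 23 50))⟩
noncomputable def kcg_12_s : Sl2 kcg_12 := ⟨_, fun h1 h2 => (pr_addc h1 (enc_rat _ 19 40))⟩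
noncomputable def kcg_13_s : Sl2 kcg_13 := ⟨_, fun h1 h2 => (pr_scaleT 135810477 25000000 h1)⟩
noncomputable def kcg_18_s : Sl2 kcg_18 := ⟨_, fun h1 h2 => (pr_scaleT 43157029 2500000 h1)⟩
noncomputable def kcg_32_s : Sl2 kcg_32 := ⟨_, fun h1 h2 => (pr_addc h1 (enc_rat _ 1 2))⟩
noncomputable def kcg_33_s : Sl2 kcg_33 := ⟨_, fun h1 h2 => (pr_csub (enc_neg (enc_rat _ 19 40)) h1)⟩
noncomputable def kcg_38_s : Sl2 kcg_38 := ⟨_, fun h1 h2 => (pr_scaleT 20368759 3750000 h1)⟩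
noncomputable def kcg_43_s : Sl2 kcg_43 := ⟨_, fun h1 h2 => (pr_scaleT 25801217 1500000 h1)⟩
noncomputable def kcg_57_s : Sl2 kcg_57 := ⟨_, fun h1 h2 => (pr_csub (enc_neg (enc_rat _ 23 50)) h1)⟩
noncomputable def kcg_65_s : Sl2 kcg_65 := ⟨_, fun h1 h2 => (pr_addc h1 (enc_rat _ 263 601))⟩
noncomputable def kcg_66_s : Sl2 kcg_66 := ⟨_, fun h1 h2 => (pr_scaleT 26096659863 13460000000 h1)⟩
noncomputable def kcg_71_s : Sl2 kcg_71 := ⟨_, fun h1 h2 => (pr_scaleT 3440754449 673000000 h1)⟩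
noncomputable def kcg_85_s : Sl2 kcg_85 := ⟨_, fun h1 h2 => (pr_csub (enc_neg (enc_rat _ 263 601)) h1)⟩
noncomputable def kcg_90_s : Sl2 kcg_90 := ⟨_, fun h1 h2 => (pr_scaleT 4336611689449 1919500000000 h1)⟩
noncomputable def kcg_94_s : Sl2 kcg_94 := ⟨_, fun h1 h2 => (pr_scaleT 1328275652639 191950000000 h1)⟩
noncomputable def kcg_104_s : Sl2 kcg_104 := ⟨_, fun h1 h2 => (pr_csub (enc_neg (enc_rat _ 47 122)) h1)⟩
noncomputable def kcg_113_s : Sl2 kcg_113 := ⟨_, fun h1 h2 => (pr_addc h1 (enc_rat _ 3 10))⟩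
noncomputable def kcg_116_s : Sl2 kcg_116 := ⟨_, fun h1 h2 => (pr_addc h1 (enc_rat _ 7 20))⟩
noncomputable def kcg_117_s : Sl2 kcg_117 := ⟨_, fun h1 h2 => (pr_scaleT 797542853 268750000 h1)⟩
noncomputable def kcg_121_s : Sl2 kcg_121 := ⟨_, fun h1 h2 => (pr_scaleT 73799203 43000000 h1)⟩
noncomputable def kcg_131_s : Sl2 kcg_131 := ⟨_, fun h1 h2 => (pr_csub (enc_neg (enc_rat _ 7 20)) h1)⟩
noncomputable def kcg_136_s : Sl2 kcg_136 := ⟨_, fun h1 h2 => (pr_scaleT 594801 200000 h1)⟩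
noncomputable def kcg_140_s : Sl2 kcg_140 := ⟨_, fun h1 h2 => (pr_scaleT 216917 20000 h1)⟩
noncomputable def kcg_152_s : Sl2 kcg_152 := ⟨_, fun h1 h2 => (pr_csub (enc_neg (enc_rat _ 3 10)) h1)⟩
noncomputable def kcg_160_s : Sl2 kcg_160 := ⟨_, fun h1 h2 => (pr_addc h1 (enc_rat _ 1 5))⟩
noncomputable def kcg_161_s : Sl2 kcg_161 := ⟨_, fun h1 h2 => (pr_scaleT 74887 25000 h1)⟩
noncomputable def kcg_165_s : Sl2 kcg_165 := ⟨_, fun h1 h2 => (pr_scaleT 90943 5000 h1)⟩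
noncomputable def kcg_179_s : Sl2 kcg_179 := ⟨_, fun h1 h2 => (pr_csub (enc_neg (enc_rat _ 1 5)) h1)⟩
noncomputable def kcg_187_s : Sl2 kcg_187 := ⟨_, fun h1 h2 => (pr_scaleT 151569 50000 h1)⟩
noncomputable def kcg_191_s : Sl2 kcg_191 := ⟨_, fun h1 h2 => (pr_scaleT 959 625 h1)⟩
noncomputable def kcg_204_s : Sl2 kcg_204 := ⟨_, fun h1 h2 => (pr_csub (enc_neg (enc_rat _ 1 10)) h1)⟩
noncomputable def kcg_209_s : Sl2 kcg_209 := ⟨_, fun h1 h2 => (pr_scaleT 304953 100000 h1)⟩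
noncomputable def kcg_212_s : Sl2 kcg_212 := ⟨_, fun h1 h2 => (pr_cmul (enc_norm (kcg_3.enc h1.l h2)) (pr_nd (pr_scaleT 106177 5000 h1)))⟩
noncomputable def kcg_219_s : Sl2 kcg_219 := ⟨_, fun h1 h2 => (pr_csub (enc_rat _ 47 122) h1)⟩
noncomputable def kcg_220_s : Sl2 kcg_220 := ⟨_, fun h1 h2 => (pr_csub (enc_rat _ 23 50) h1)⟩
noncomputable def kcg_221_s : Sl2 kcg_221 := ⟨_, fun h1 h2 => (pr_csub (enc_rat _ 19 40) h1)⟩
noncomputable def kcg_226_s : Sl2 kcg_226 := ⟨_, fun h1 h2 => (pr_csub (enc_rat _ 1 2) h1)⟩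
noncomputable def kcg_227_s : Sl2 kcg_227 := ⟨_, fun h1 h2 => (pr_subr 19 40 h1)⟩
noncomputable def kcg_236_s : Sl2 kcg_236 := ⟨_, fun h1 h2 => (pr_subr 23 50 h1)⟩
noncomputable def kcg_242_s : Sl2 kcg_242 := ⟨_, fun h1 h2 => (pr_csub (enc_rat _ 263 601) h1)⟩
noncomputable def kcg_247_s : Sl2 kcg_247 := ⟨_, fun h1 h2 => (pr_subr 263 601 h1)⟩
noncomputable def kcg_258_s : Sl2 kcg_258 := ⟨_, fun h1 h2 => (pr_subr 47 122 h1)⟩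
noncomputable def kcg_265_s : Sl2 kcg_265 := ⟨_, fun h1 h2 => (pr_csub (enc_rat _ 3 10) h1)⟩
noncomputable def kcg_266_s : Sl2 kcg_266 := ⟨_, fun h1 h2 => (pr_csub (enc_rat _ 7 20) h1)⟩
noncomputable def kcg_273_s : Sl2 kcg_273 := ⟨_, fun h1 h2 => (pr_subr 7 20 h1)⟩
noncomputable def kcg_283_s : Sl2 kcg_283 := ⟨_, fun h1 h2 => (pr_subr 3 10 h1)⟩
noncomputable def kcg_289_s : Sl2 kcg_289 := ⟨_, fun h1 h2 => (pr_csub (enc_rat _ 1 5) h1)⟩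
noncomputable def kcg_295_s : Sl2 kcg_295 := ⟨_, fun h1 h2 => (pr_subr 1 5 h1)⟩
noncomputable def kcg_307_s : Sl2 kcg_307 := ⟨_, fun h1 h2 => (pr_subr 1 10 h1)⟩
noncomputable def kcg_s : Sl2 kcg := ⟨_, fun h1 h2 => (pr_norm (pr_case h1 (pr_case (kcg_6_s.snd h1 h2) (pr_case (kcg_9_s.snd h1 h2) (pr_case (kcg_12_s.snd h1 h2) (pr_add (pr_add (pr_subr 3734726507 1000000000 (pr_neg (kcg_13_s.snd h1 h2))) (pr_cmul (enc_norm (kcg_3.enc h1.l h2)) (pr_norm (pr_subr 4082977 500000 (pr_neg (kcg_18_s.snd h1 h2)))))) (pr_mA (pr_cmul (enc_norm (kcg_31.enc h1.l h2)) (pr_norm (pr_mul (pr_norm (kcg_32_s.snd h1 h2)) (pr_norm (kcg_33_s.snd h1 h2))))) (pr_const (kcg_31.enc h1.l h2)) (kcg_32_s.snd h1 h2) (kcg_33_s.snd h1 h2) rfl rfl)) (pr_add (pr_add (pr_subr 350097211 93750000 (pr_neg (kcg_38_s.snd h1 h2))) (pr_cmul (enc_norm (kcg_3.enc h1.l h2)) (pr_norm (pr_subr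 1220475581 150000000 (pr_neg (kcg_43_s.snd h1 h2)))))) (pr_mA (pr_cmul (enc_norm (kcg_56.enc h1.l h2)) (pr_norm (pr_mul (pr_norm (kcg_12_s.snd h1 h2)) (pr_norm (kcg_57_s.snd h1 h2))))) (pr_const (kcg_56.enc h1.l h2)) (kcg_12_s.snd h1 h2) (kcg_57_s.snd h1 h2) rfl rfl))) (pr_case (kcg_65_s.snd h1 h2) (pr_add (pr_add (pr_subr 1431918245889 673000000000 (pr_neg (kcg_66_s.snd h1 h2))) (pr_cmul (enc_norm (kcg_3.enc h1.l h2)) (pr_norm (pr_subr 21669837259 8412500000 (pr_neg (kcg_71_s.snd h1 h2)))))) (pr_mA (pr_cmul (enc_norm (kcg_84.enc h1.l h2)) (pr_norm (pr_mul (pr_norm (kcg_9_s.snd h1 h2)) (pr_norm (kcg_85_s.snd h1 h2))))) (pr_const (kcg_84.enc h1.l h2)) (kcg_9_s.snd h1 h2) (kcg_85_s.snd h1 h2) rfl rfl)) (pr_add (pr_add (pr_subr 1115505834803 3839000000000 (kcg_90_s.snd h1 h2)) (pr_cmul (enc_norm (kcg_3.enc h1.l h2)) (pr_norm (pr_addc (kcg_94_s.snd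 h1 h2) (enc_rat _ 516258386559 191950000000))))) (pr_mA (pr_cmul (enc_norm (kcg_103.enc h1.l h2)) (pr_norm (pr_mul (pr_norm (kcg_65_s.snd h1 h2)) (pr_norm (kcg_104_s.snd h1 h2))))) (pr_const (kcg_103.enc h1.l h2)) (kcg_65_s.snd h1 h2) (kcg_104_s.snd h1 h2) rfl rfl)))) (pr_case (kcg_113_s.snd h1 h2) (pr_case (kcg_116_s.snd h1 h2) (pr_add (pr_add (pr_subr 380093991 21500000000 (kcg_117_s.snd h1 h2)) (pr_cmul (enc_norm (kcg_3.enc h1.l h2)) (pr_norm (pr_addc (kcg_121_s.snd h1 h2) (enc_rat _ 588982771 860000000))))) (pr_mA (pr_cmul (enc_norm (kcg_130.enc h1.l h2)) (pr_norm (pr_mul (pr_norm (kcg_6_s.snd h1 h2)) (pr_norm (kcg_131_s.snd h1 h2))))) (pr_const (kcg_130.enc h1.l h2)) (kcg_6_s.snd h1 h2) (kcg_131_s.snd h1 h2) rfl rfl)) (pr_add (pr_add (pr_subr 247 16000 (kcg_136_s.snd h1 h2)) (pr_cmul (enc_norm (kcg_3.enc h1.l h2)) (pr_norm (pr_subr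 5939 1600 (pr_neg (kcg_140_s.snd h1 h2)))))) (pr_mA (pr_cmul (enc_norm (kcg_151.enc h1.l h2)) (pr_norm (pr_mul (pr_norm (kcg_116_s.snd h1 h2)) (pr_norm (kcg_152_s.snd h1 h2))))) (pr_const (kcg_151.enc h1.l h2)) (kcg_116_s.snd h1 h2) (kcg_152_s.snd h1 h2) rfl rfl))) (pr_case (kcg_160_s.snd h1 h2) (pr_add (pr_add (pr_subr 1799 200000 (kcg_161_s.snd h1 h2)) (pr_cmul (enc_norm (kcg_3.enc h1.l h2)) (pr_norm (pr_subr 59147 10000 (pr_neg (kcg_165_s.snd h1 h2)))))) (pr_mA (pr_cmul (enc_norm (kcg_178.enc h1.l h2)) (pr_norm (pr_mul (pr_norm (kcg_113_s.snd h1 h2)) (pr_norm (kcg_179_s.snd h1 h2))))) (pr_const (kcg_178.enc h1.l h2)) (kcg_113_s.snd h1 h2) (kcg_179_s.snd h1 h2) rfl rfl)) (pr_case (pr_addc h1 (enc_rat _ 1 10)) (pr_add (pr_add (pr_subr 363 200000 (kcg_187_s.snd h1 h2)) (pr_cmul (enc_norm (kcg_3.enc h1.l h2)) (pr_norm (pr_subr 19701 10000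 (kcg_191_s.snd h1 h2))))) (pr_mA (pr_cmul (enc_norm (kcg_203.enc h1.l h2)) (pr_norm (pr_mul (pr_norm (kcg_160_s.snd h1 h2)) (pr_norm (kcg_204_s.snd h1 h2))))) (pr_const (kcg_203.enc h1.l h2)) (kcg_160_s.snd h1 h2) (kcg_204_s.snd h1 h2) rfl rfl)) (pr_add (kcg_209_s.snd h1 h2) (kcg_212_s.snd h1 h2)))))) (pr_neg (pr_case (kcg_219_s.snd h1 h2) (pr_case (kcg_220_s.snd h1 h2) (pr_case (kcg_221_s.snd h1 h2) (pr_add (pr_add (pr_subr 3734726507 1000000000 (kcg_13_s.snd h1 h2)) (pr_cmul (enc_norm (kcg_3.enc h1.l h2)) (pr_norm (pr_subr 4082977 500000 (kcg_18_s.snd h1 h2))))) (pr_mA (pr_cmul (enc_norm (kcg_31.enc h1.l h2)) (pr_norm (pr_mul (pr_norm (kcg_226_s.snd h1 h2)) (pr_norm (kcg_227_s.snd h1 h2))))) (pr_const (kcg_31.enc h1.l h2)) (kcg_226_s.snd h1 h2) (kcg_227_s.snd h1 h2) rfl rfl)) (pr_add (pr_add (pr_subr 350097211 93750000 (kcg_38_s.snd h1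 h2)) (pr_cmul (enc_norm (kcg_3.enc h1.l h2)) (pr_norm (pr_subr 1220475581 150000000 (kcg_43_s.snd h1 h2))))) (pr_mA (pr_cmul (enc_norm (kcg_56.enc h1.l h2)) (pr_norm (pr_mul (pr_norm (kcg_221_s.snd h1 h2)) (pr_norm (kcg_236_s.snd h1 h2))))) (pr_const (kcg_56.enc h1.l h2)) (kcg_221_s.snd h1 h2) (kcg_236_s.snd h1 h2) rfl rfl))) (pr_case (kcg_242_s.snd h1 h2) (pr_add (pr_add (pr_subr 1431918245889 673000000000 (kcg_66_s.snd h1 h2)) (pr_cmul (enc_norm (kcg_3.enc h1.l h2)) (pr_norm (pr_subr 21669837259 8412500000 (kcg_71_s.snd h1 h2))))) (pr_mA (pr_cmul (enc_norm (kcg_84.enc h1.l h2)) (pr_norm (pr_mul (pr_norm (kcg_220_s.snd h1 h2)) (pr_norm (kcg_247_s.snd h1 h2))))) (pr_const (kcg_84.enc h1.l h2)) (kcg_220_s.snd h1 h2) (kcg_247_s.snd h1 h2) rfl rfl)) (pr_add (pr_add (pr_subr 1115505834803 3839000000000 (pr_neg (kcg_90_s.snd h1 h2))) (pr_cmul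 (enc_norm (kcg_3.enc h1.l h2)) (pr_norm (pr_csub (enc_rat _ 516258386559 191950000000) (kcg_94_s.snd h1 h2))))) (pr_mA (pr_cmul (enc_norm (kcg_103.enc h1.l h2)) (pr_norm (pr_mul (pr_norm (kcg_242_s.snd h1 h2)) (pr_norm (kcg_258_s.snd h1 h2))))) (pr_const (kcg_103.enc h1.l h2)) (kcg_242_s.snd h1 h2) (kcg_258_s.snd h1 h2) rfl rfl)))) (pr_case (kcg_265_s.snd h1 h2) (pr_case (kcg_266_s.snd h1 h2) (pr_add (pr_add (pr_subr 380093991 21500000000 (pr_neg (kcg_117_s.snd h1 h2))) (pr_cmul (enc_norm (kcg_3.enc h1.l h2)) (pr_norm (pr_csub (enc_rat _ 588982771 860000000) (kcg_121_s.snd h1 h2))))) (pr_mA (pr_cmul (enc_norm (kcg_130.enc h1.l h2)) (pr_norm (pr_mul (pr_norm (kcg_219_s.snd h1 h2)) (pr_norm (kcg_273_s.snd h1 h2))))) (pr_const (kcg_130.enc h1.l h2)) (kcg_219_s.snd h1 h2) (kcg_273_s.snd h1 h2) rfl rfl)) (pr_add (pr_add (pr_subr 247 16000 (pr_neg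 (kcg_136_s.snd h1 h2))) (pr_cmul (enc_norm (kcg_3.enc h1.l h2)) (pr_norm (pr_subr 5939 1600 (kcg_140_s.snd h1 h2))))) (pr_mA (pr_cmul (enc_norm (kcg_151.enc h1.l h2)) (pr_norm (pr_mul (pr_norm (kcg_266_s.snd h1 h2)) (pr_norm (kcg_283_s.snd h1 h2))))) (pr_const (kcg_151.enc h1.l h2)) (kcg_266_s.snd h1 h2) (kcg_283_s.snd h1 h2) rfl rfl))) (pr_case (kcg_289_s.snd h1 h2) (pr_add (pr_add (pr_subr 1799 200000 (pr_neg (kcg_161_s.snd h1 h2))) (pr_cmul (enc_norm (kcg_3.enc h1.l h2)) (pr_norm (pr_subr 59147 10000 (kcg_165_s.snd h1 h2))))) (pr_mA (pr_cmul (enc_norm (kcg_178.enc h1.l h2)) (pr_norm (pr_mul (pr_norm (kcg_265_s.snd h1 h2)) (pr_norm (kcg_295_s.snd h1 h2))))) (pr_const (kcg_178.enc h1.l h2)) (kcg_265_s.snd h1 h2) (kcg_295_s.snd h1 h2) rfl rfl)) (pr_case (pr_csub (enc_rat _ 1 10) h1) (pr_add (pr_add (pr_subr 363 200000 (pr_neg (kcg_187_s.snd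 h1 h2))) (pr_cmul (enc_norm (kcg_3.enc h1.l h2)) (pr_norm (pr_subr 19701 10000 (pr_neg (kcg_191_s.snd h1 h2)))))) (pr_mA (pr_cmul (enc_norm (kcg_203.enc h1.l h2)) (pr_norm (pr_mul (pr_norm (kcg_289_s.snd h1 h2)) (pr_norm (kcg_307_s.snd h1 h2))))) (pr_const (kcg_203.enc h1.l h2)) (kcg_289_s.snd h1 h2) (kcg_307_s.snd h1 h2) rfl rfl)) (pr_sub (pr_neg (kcg_209_s.snd h1 h2)) (kcg_212_s.snd h1 h2)))))))))⟩
noncomputable def kf0q0_9_s : Sl2 kf0q0_9 := ⟨_, fun h1 h2 => (pr_scaleT 3 2 h1)⟩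
noncomputable def kf0q0_12_s : Sl2 kf0q0_12 := ⟨_, fun h1 h2 => (pr_cadd (enc_pnc _ 1) (c1g_s.snd h1))⟩
noncomputable def kf0q0_s : Sl2 kf0q0 := ⟨_, fun h1 h2 => (pr_norm (pr_add (pr_mul (pr_norm (pr_mul (pr_norm (pr_sub (c1g_s.snd h1) (kf0q0_9_s.snd h1 h2))) (pr_norm (kf0q0_12_s.snd h1 h2)))) (pr_nd (pr_inv (pr_sub (kf0q0_12_s.snd h1 h2) (kf0q0_9_s.snd h1 h2))))) (pr_mul h1 (kcg_s.snd (pr_norm (pr_sub (pr_scaleT 3 4 h1) (pr_half (c1g_s.snd h1)))) h2))))⟩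
noncomputable def txg_6_s : Sl3 txg_6 := ⟨_, fun h1 h2 h3 => (pr_add h1 (pr_half h2))⟩
noncomputable def txg_26_s : Sl3 txg_26 := ⟨_, fun h1 h2 h3 => (pr_addc h1 (enc_rat _ 1 10))⟩
noncomputable def txg_29_s : Sl3 txg_29 := ⟨_, fun h1 h2 h3 => (pr_addc h1 (enc_rat _ 11 25))⟩
noncomputable def txg_32_s : Sl3 txg_32 := ⟨_, fun h1 h2 h3 => (pr_addc h1 (enc_rat _ 12 25))⟩
noncomputable def txg_50_s : Sl3 txg_50 := ⟨_, fun h1 h2 h3 => (pr_addc h1 (enc_rat _ 1 2))⟩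
noncomputable def txg_51_s : Sl3 txg_51 := ⟨_, fun h1 h2 h3 => (pr_csub (enc_neg (enc_rat _ 12 25)) h1)⟩
noncomputable def txg_58_s : Sl3 txg_58 := ⟨_, fun h1 h2 h3 => (pr_addc h1 (enc_rat _ 23 50))⟩
noncomputable def txg_74_s : Sl3 txg_74 := ⟨_, fun h1 h2 h3 => (pr_csub (enc_neg (enc_rat _ 23 50)) h1)⟩
noncomputable def txg_95_s : Sl3 txg_95 := ⟨_, fun h1 h2 h3 => (pr_csub (enc_neg (enc_rat _ 11 25)) h1)⟩
noncomputable def txg_104_s : Sl3 txg_104 := ⟨_, fun h1 h2 h3 => (pr_addc h1 (enc_rat _ 3 10))⟩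
noncomputable def txg_107_s : Sl3 txg_107 := ⟨_, fun h1 h2 h3 => (pr_addc h1 (enc_rat _ 2 5))⟩
noncomputable def txg_124_s : Sl3 txg_124 := ⟨_, fun h1 h2 h3 => (pr_csub (enc_neg (enc_rat _ 2 5)) h1)⟩
noncomputable def txg_144_s : Sl3 txg_144 := ⟨_, fun h1 h2 h3 => (pr_csub (enc_neg (enc_rat _ 3 10)) h1)⟩
noncomputable def txg_152_s : Sl3 txg_152 := ⟨_, fun h1 h2 h3 => (pr_addc h1 (enc_rat _ 1 5))⟩
noncomputable def txg_168_s : Sl3 txg_168 := ⟨_, fun h1 h2 h3 => (pr_csub (enc_neg (enc_rat _ 1 5)) h1)⟩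
noncomputable def txg_185_s : Sl3 txg_185 := ⟨_, fun h1 h2 h3 => (pr_csub (enc_neg (enc_rat _ 1 10)) h1)⟩
noncomputable def txg_193_s : Sl3 txg_193 := ⟨_, fun h1 h2 h3 => (pr_subr 1 5 h1)⟩
noncomputable def txg_194_s : Sl3 txg_194 := ⟨_, fun h1 h2 h3 => (pr_subr 1 10 h1)⟩
noncomputable def txg_207_s : Sl3 txg_207 := ⟨_, fun h1 h2 h3 => (pr_csub (enc_rat _ 1 10) h1)⟩
noncomputable def txg_213_s : Sl3 txg_213 := ⟨_, fun h1 h2 h3 => (pr_subr 3 20 h1)⟩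
noncomputable def txg_228_s : Sl3 txg_228 := ⟨_, fun h1 h2 h3 => (pr_csub (enc_rat _ 3 20) h1)⟩
noncomputable def txg_247_s : Sl3 txg_247 := ⟨_, fun h1 h2 h3 => (pr_csub (enc_rat _ 1 5) h1)⟩
noncomputable def txg_254_s : Sl3 txg_254 := ⟨_, fun h1 h2 h3 => (pr_subr 3 10 h1)⟩
noncomputable def txg_256_s : Sl3 txg_256 := ⟨_, fun h1 h2 h3 => (pr_subr 1 4 h1)⟩
noncomputable def txg_271_s : Sl3 txg_271 := ⟨_, fun h1 h2 h3 => (pr_csub (enc_rat _ 1 4) h1)⟩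
noncomputable def txg_290_s : Sl3 txg_290 := ⟨_, fun h1 h2 h3 => (pr_csub (enc_rat _ 3 10) h1)⟩
noncomputable def txg_297_s : Sl3 txg_297 := ⟨_, fun h1 h2 h3 => (pr_subr 7 20 h1)⟩
noncomputable def txg_314_s : Sl3 txg_314 := ⟨_, fun h1 h2 h3 => (pr_csub (enc_rat _ 7 20) h1)⟩
noncomputable def txg_343_s : Sl3 txg_343 := ⟨_, fun h1 h2 h3 => (pr_csub (enc_rat _ 47 122) h1)⟩
noncomputable def txg_353_s : Sl3 txg_353 := ⟨_, fun h1 h2 h3 => (pr_subr 263 601 h1)⟩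
noncomputable def txg_354_s : Sl3 txg_354 := ⟨_, fun h1 h2 h3 => (pr_subr 23 50 h1)⟩
noncomputable def txg_356_s : Sl3 txg_356 := ⟨_, fun h1 h2 h3 => (pr_subr 9 20 h1)⟩
noncomputable def txg_382_s : Sl3 txg_382 := ⟨_, fun h1 h2 h3 => (pr_csub (enc_rat _ 9 20) h1)⟩
noncomputable def txg_403_s : Sl3 txg_403 := ⟨_, fun h1 h2 h3 => (pr_csub (enc_rat _ 23 50) h1)⟩
noncomputable def txg_410_s : Sl3 txg_410 := ⟨_, fun h1 h2 h3 => (pr_subr 47 100 h1)⟩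
noncomputable def txg_426_s : Sl3 txg_426 := ⟨_, fun h1 h2 h3 => (pr_csub (enc_rat _ 47 100) h1)⟩
noncomputable def txg_432_s : Sl3 txg_432 := ⟨_, fun h1 h2 h3 => (pr_subr 97 200 h1)⟩
noncomputable def txg_448_s : Sl3 txg_448 := ⟨_, fun h1 h2 h3 => (pr_csub (enc_rat _ 97 200) h1)⟩
noncomputable def txg_468_s : Sl3 txg_468 := ⟨_, fun h1 h2 h3 => (pr_csub (enc_rat _ 1 2) h1)⟩
noncomputable def txg_s : Sl3 txg := ⟨_, fun h1 h2 h3 => (pr_case (pr_subr 47 122 h1) (pr_case (txg_26_s.snd h1 h2 h3) (pr_case (txg_29_s.snd h1 h2 h3) (pr_case (txg_32_s.snd h1 h2 h3) (pr_add (pr_add (pr_addc (pr_scaleT 12013 50000 h1) (enc_rat _ 12013 100000)) (pr_cmul (enc_norm (txg_4.enc h1.l h2.l h3)) (pr_norm (pr_subr 18217 20000 (pr_neg (pr_scaleT 18217 10000 h1)))))) (pr_mA (pr_cmul (enc_norm (txg_47.enc h1.l h2.l h3)) (pr_norm (pr_mul (pr_norm (txg_50_s.snd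 h1 h2 h3)) (pr_norm (txg_51_s.snd h1 h2 h3))))) (pr_const (txg_47.enc h1.l h2.l h3)) (txg_50_s.snd h1 h2 h3) (txg_51_s.snd h1 h2 h3) rfl rfl)) (pr_case (txg_58_s.snd h1 h2 h3) (pr_add (pr_add (pr_addc (pr_scaleT 6079 20000 h1) (enc_rat _ 376753 2500000)) (pr_cmul (enc_norm (txg_4.enc h1.l h2.l h3)) (pr_norm (pr_subr 23833 20000 (pr_neg (pr_scaleT 24067 10000 h1)))))) (pr_mA (pr_cmul (enc_norm (txg_73.enc h1.l h2.l h3)) (pr_norm (pr_mul (pr_norm (txg_32_s.snd h1 h2 h3)) (pr_norm (txg_74_s.snd h1 h2 h3))))) (pr_const (txg_73.enc h1.l h2.l h3)) (txg_32_s.snd h1 h2 h3) (txg_74_s.snd h1 h2 h3) rfl rfl)) (pr_add (pr_add (pr_addc (pr_scaleT 3389 12500 h1) (enc_rat _ 677997 5000000)) (pr_cmul (enc_norm (txg_4.enc h1.l h2.l h3)) (pr_norm (pr_subr 310919 250000 (pr_neg (pr_scaleT 12599 5000 h1)))))) (pr_mA (pr_cmul (enc_norm (txg_94.enc h1.l h2.l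 h3)) (pr_norm (pr_mul (pr_norm (txg_58_s.snd h1 h2 h3)) (pr_norm (txg_95_s.snd h1 h2 h3))))) (pr_const (txg_94.enc h1.l h2.l h3)) (txg_58_s.snd h1 h2 h3) (txg_95_s.snd h1 h2 h3) rfl rfl)))) (pr_case (txg_104_s.snd h1 h2 h3) (pr_case (txg_107_s.snd h1 h2 h3) (pr_add (pr_add (pr_addc (pr_scaleT 20667 100000 h1) (enc_rat _ 536207 5000000)) (pr_cmul (enc_norm (txg_4.enc h1.l h2.l h3)) (pr_norm (pr_subr 151219 125000 (pr_neg (pr_scaleT 24427 10000 h1)))))) (pr_mA (pr_cmul (enc_norm (txg_123.enc h1.l h2.l h3)) (pr_norm (pr_mul (pr_norm (txg_29_s.snd h1 h2 h3)) (pr_norm (txg_124_s.snd h1 h2 h3))))) (pr_const (txg_123.enc h1.l h2.l h3)) (txg_29_s.snd h1 h2 h3) (txg_124_s.snd h1 h2 h3) rfl rfl)) (pr_add (pr_add (pr_addc (pr_scaleT 6487 20000 h1) (enc_rat _ 771567 5000000)) (pr_cmul (enc_norm (txg_4.enc h1.l h2.l h3)) (pr_norm (pr_addc (pr_scaleT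 2543 2500 h1) (enc_rat _ 2722 15625))))) (pr_mA (pr_cmul (enc_norm (txg_143.enc h1.l h2.l h3)) (pr_norm (pr_mul (pr_norm (txg_107_s.snd h1 h2 h3)) (pr_norm (txg_144_s.snd h1 h2 h3))))) (pr_const (txg_143.enc h1.l h2.l h3)) (txg_107_s.snd h1 h2 h3) (txg_144_s.snd h1 h2 h3) rfl rfl))) (pr_case (txg_152_s.snd h1 h2 h3) (pr_add (pr_add (pr_addc (pr_scaleT 11187 20000 h1) (enc_rat _ 1124067 5000000)) (pr_cmul (enc_norm (txg_4.enc h1.l h2.l h3)) (pr_norm (pr_addc (pr_scaleT 45637 10000 h1) (enc_rat _ 619079 500000))))) (pr_mA (pr_cmul (enc_norm (txg_167.enc h1.l h2.l h3)) (pr_norm (pr_mul (pr_norm (txg_104_s.snd h1 h2 h3)) (pr_norm (txg_168_s.snd h1 h2 h3))))) (pr_const (txg_167.enc h1.l h2.l h3)) (txg_104_s.snd h1 h2 h3) (txg_168_s.snd h1 h2 h3) rfl rfl)) (pr_add (pr_add (pr_addc (pr_scaleT 10793 20000 h1) (enc_rat _ 1104367 5000000)) (pr_cmul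 (enc_norm (txg_4.enc h1.l h2.l h3)) (pr_norm (pr_addc (pr_scaleT 4619 1250 h1) (enc_rat _ 532229 500000))))) (pr_mA (pr_cmul (enc_norm (txg_184.enc h1.l h2.l h3)) (pr_norm (pr_mul (pr_norm (txg_152_s.snd h1 h2 h3)) (pr_norm (txg_185_s.snd h1 h2 h3))))) (pr_const (txg_184.enc h1.l h2.l h3)) (txg_152_s.snd h1 h2 h3) (txg_185_s.snd h1 h2 h3) rfl rfl))))) (pr_case (txg_193_s.snd h1 h2 h3) (pr_case (txg_194_s.snd h1 h2 h3) (pr_add (pr_add (pr_addc (pr_scaleT 551 4000 h1) (enc_rat _ 903417 5000000)) (pr_cmul (enc_norm (txg_4.enc h1.l h2.l h3)) (pr_norm (pr_addc (pr_scaleT 6047 10000 h1) (enc_rat _ 47213 62500))))) (pr_mA (pr_cmul (enc_norm (txg_206.enc h1.l h2.l h3)) (pr_norm (pr_mul (pr_norm (txg_26_s.snd h1 h2 h3)) (pr_norm (txg_207_s.snd h1 h2 h3))))) (pr_const (txg_206.enc h1.l h2.l h3)) (txg_26_s.snd h1 h2 h3) (txg_207_s.snd h1 h2 h3) rfl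 rfl)) (pr_case (txg_213_s.snd h1 h2 h3) (pr_add (pr_add (pr_csub (enc_rat _ 2132309 10000000) (pr_scaleT 7509 40000 h1)) (pr_cmul (enc_norm (txg_4.enc h1.l h2.l h3)) (pr_norm (pr_csub (enc_rat _ 506979 500000) (pr_scaleT 1238 625 h1))))) (pr_mA (pr_cmul (enc_norm (txg_227.enc h1.l h2.l h3)) (pr_norm (pr_mul (pr_norm (txg_194_s.snd h1 h2 h3)) (pr_norm (txg_228_s.snd h1 h2 h3))))) (pr_const (txg_227.enc h1.l h2.l h3)) (txg_194_s.snd h1 h2 h3) (txg_228_s.snd h1 h2 h3) rfl rfl)) (pr_add (pr_add (pr_csub (enc_rat _ 4603693 20000000) (pr_scaleT 1203 4000 h1)) (pr_cmul (enc_norm (txg_4.enc h1.l h2.l h3)) (pr_norm (pr_csub (enc_rat _ 1120233 1000000) (pr_scaleT 26893 10000 h1))))) (pr_mA (pr_cmul (enc_norm (txg_246.enc h1.l h2.l h3)) (pr_norm (pr_mul (pr_norm (txg_213_s.snd h1 h2 h3)) (pr_norm (txg_247_s.snd h1 h2 h3))))) (pr_const (txg_246.enc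 h1.l h2.l h3)) (txg_213_s.snd h1 h2 h3) (txg_247_s.snd h1 h2 h3) rfl rfl)))) (pr_case (txg_254_s.snd h1 h2 h3) (pr_case (txg_256_s.snd h1 h2 h3) (pr_add (pr_add (pr_csub (enc_rat _ 4873693 20000000) (pr_scaleT 1473 4000 h1)) (pr_cmul (enc_norm (txg_4.enc h1.l h2.l h3)) (pr_norm (pr_csub (enc_rat _ 1193333 1000000) (pr_scaleT 7637 2500 h1))))) (pr_mA (pr_cmul (enc_norm (txg_270.enc h1.l h2.l h3)) (pr_norm (pr_mul (pr_norm (txg_193_s.snd h1 h2 h3)) (pr_norm (txg_271_s.snd h1 h2 h3))))) (pr_const (txg_270.enc h1.l h2.l h3)) (txg_193_s.snd h1 h2 h3) (txg_271_s.snd h1 h2 h3) rfl rfl)) (pr_add (pr_add (pr_csub (enc_rat _ 5062943 20000000) (pr_scaleT 4061 10000 h1)) (pr_cmul (enc_norm (txg_4.enc h1.l h2.l h3)) (pr_norm (pr_csub (enc_rat _ 163151 125000) (pr_scaleT 35023 10000 h1))))) (pr_mA (pr_cmul (enc_norm (txg_289.enc h1.l h2.l h3)) (pr_norm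 (pr_mul (pr_norm (txg_256_s.snd h1 h2 h3)) (pr_norm (txg_290_s.snd h1 h2 h3))))) (pr_const (txg_289.enc h1.l h2.l h3)) (txg_256_s.snd h1 h2 h3) (txg_290_s.snd h1 h2 h3) rfl rfl))) (pr_case (txg_297_s.snd h1 h2 h3) (pr_add (pr_add (pr_csub (enc_rat _ 5528843 20000000) (pr_scaleT 387 800 h1)) (pr_cmul (enc_norm (txg_4.enc h1.l h2.l h3)) (pr_norm (pr_csub (enc_rat _ 806533 1000000) (pr_scaleT 36801 20000 h1))))) (pr_mA (pr_cmul (enc_norm (txg_313.enc h1.l h2.l h3)) (pr_norm (pr_mul (pr_norm (txg_254_s.snd h1 h2 h3)) (pr_norm (txg_314_s.snd h1 h2 h3))))) (pr_const (txg_313.enc h1.l h2.l h3)) (txg_254_s.snd h1 h2 h3) (txg_314_s.snd h1 h2 h3) rfl rfl)) (pr_add (pr_add (pr_add (pr_csub (enc_rat _ 26455588601397 85247500000000) (pr_scaleT 1237360983073 2131187500000 h1)) (pr_cmul (enc_norm (txg_4.enc h1.l h2.l h3)) (pr_norm (pr_csub (enc_rat _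 4517905174279 17049500000000) (pr_scaleT 249585308147 852475000000 h1))))) (pr_cmul (txg_333.enc h1.l h2.l h3) (pr_norm (pr_csub (enc_rat _ 3315389 107500000) (pr_scaleT 473627 5375000 h1))))) (pr_mA (pr_cmul (enc_norm (txg_342.enc h1.l h2.l h3)) (pr_norm (pr_mul (pr_norm (txg_297_s.snd h1 h2 h3)) (pr_norm (txg_343_s.snd h1 h2 h3))))) (pr_const (txg_342.enc h1.l h2.l h3)) (txg_297_s.snd h1 h2 h3) (txg_343_s.snd h1 h2 h3) rfl rfl)))))) (pr_case (txg_353_s.snd h1 h2 h3) (pr_sub (pr_mul (pr_norm (pr_csub (enc_pnc _ 1) h2)) (pr_norm (pr_subn 1 (pr_nat 2 h2)))) (pr_mul (pr_norm (pr_nat 2 (pr_subc (pr_scaleT 4 3 (txg_6_s.snd h1 h2 h3)) h3))) (pr_norm (pr_mul (pr_norm (pr_subn 1 (pr_add (pr_scaleT 2 3 (txg_6_s.snd h1 h2 h3)) h2))) (kcg_s.snd h1 h3))))) (pr_case (txg_354_s.snd h1 h2 h3) (pr_case (txg_356_s.snd h1 h2 h3) (pr_add (pr_add (pr_add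 (pr_csub (enc_rat _ 9061694300244487 23282740000000000) (pr_scaleT 900378192202543 1164137000000000 h1)) (pr_cmul (enc_norm (txg_4.enc h1.l h2.l h3)) (pr_norm (pr_csub (enc_rat _ 103648764989333 145517125000000) (pr_scaleT 20447086992999 14551712500000 h1))))) (pr_cmul (txg_333.enc h1.l h2.l h3) (pr_norm (pr_csub (enc_rat _ 1752418737 1862500000) (pr_scaleT 194713193 93125000 h1))))) (pr_mA (pr_cmul (enc_norm (txg_381.enc h1.l h2.l h3)) (pr_norm (pr_mul (pr_norm (txg_353_s.snd h1 h2 h3)) (pr_norm (txg_382_s.snd h1 h2 h3))))) (pr_const (txg_381.enc h1.l h2.l h3)) (txg_353_s.snd h1 h2 h3) (txg_382_s.snd h1 h2 h3) rfl rfl)) (pr_add (pr_add (pr_csub (enc_rat _ 20455967 50000000) (pr_scaleT 81769 100000 h1)) (pr_cmul (enc_norm (txg_4.enc h1.l h2.l h3)) (pr_norm (pr_csub (enc_rat _ 3334183 5000000) (pr_scaleT 26083 20000 h1))))) (pr_mA (pr_cmul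 (enc_norm (txg_402.enc h1.l h2.l h3)) (pr_norm (pr_mul (pr_norm (txg_356_s.snd h1 h2 h3)) (pr_norm (txg_403_s.snd h1 h2 h3))))) (pr_const (txg_402.enc h1.l h2.l h3)) (txg_356_s.snd h1 h2 h3) (txg_403_s.snd h1 h2 h3) rfl rfl))) (pr_case (txg_410_s.snd h1 h2 h3) (pr_add (pr_add (pr_csub (enc_rat _ 10379381 25000000) (pr_scaleT 166171 200000 h1)) (pr_cmul (enc_norm (txg_4.enc h1.l h2.l h3)) (pr_norm (pr_csub (enc_rat _ 422221 625000) (pr_scaleT 13231 10000 h1))))) (pr_mA (pr_cmul (enc_norm (txg_425.enc h1.l h2.l h3)) (pr_norm (pr_mul (pr_norm (txg_354_s.snd h1 h2 h3)) (pr_norm (txg_426_s.snd h1 h2 h3))))) (pr_const (txg_425.enc h1.l h2.l h3)) (txg_354_s.snd h1 h2 h3) (txg_426_s.snd h1 h2 h3) rfl rfl)) (pr_case (txg_432_s.snd h1 h2 h3) (pr_add (pr_add (pr_csub (enc_rat _ 123792629 300000000) (pr_scaleT 619099 750000 h1)) (pr_cmul (enc_norm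 (txg_4.enc h1.l h2.l h3)) (pr_norm (pr_csub (enc_rat _ 821357 1000000) (pr_scaleT 40833 25000 h1))))) (pr_mA (pr_cmul (enc_norm (txg_447.enc h1.l h2.l h3)) (pr_norm (pr_mul (pr_norm (txg_410_s.snd h1 h2 h3)) (pr_norm (txg_448_s.snd h1 h2 h3))))) (pr_const (txg_447.enc h1.l h2.l h3)) (txg_410_s.snd h1 h2 h3) (txg_448_s.snd h1 h2 h3) rfl rfl)) (pr_add (pr_add (pr_csub (enc_rat _ 1229141 3000000) (pr_scaleT 1229141 1500000 h1)) (pr_cmul (enc_norm (txg_4.enc h1.l h2.l h3)) (pr_norm (pr_csub (enc_rat _ 9124 9375) (pr_scaleT 18248 9375 h1))))) (pr_mA (pr_cmul (enc_norm (txg_467.enc h1.l h2.l h3)) (pr_norm (pr_mul (pr_norm (txg_432_s.snd h1 h2 h3)) (pr_norm (txg_468_s.snd h1 h2 h3))))) (pr_const (txg_467.enc h1.l h2.l h3)) (txg_432_s.snd h1 h2 h3) (txg_468_s.snd h1 h2 h3) rfl rfl)))))))⟩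
noncomputable def l0q0_s : Sl2 l0q0 := ⟨_, fun h1 h2 => (pr_norm (txg_s.snd (pr_norm (pr_sub (pr_scaleT 3 4 h1) (pr_half (c1g_s.snd h1)))) (pr_nd (c1g_s.snd h1)) h2))⟩
noncomputable def kc0q0_8_s : Sl2 kc0q0_8 := ⟨_, fun h1 h2 => (pr_sub (pr_scaleT 3 4 h1) (pr_half (c1g_s.snd h1)))⟩
noncomputable def kc0q0_s : Sl2 kc0q0 := ⟨_, fun h1 h2 => (pr_norm (pr_case (pr_addc (kc0q0_8_s.snd h1 h2) (enc_rat _ 167 1000)) (pr_case (pr_addc (kc0q0_8_s.snd h1 h2) (enc_rat _ 333 1000)) (pr_add (pr_subr 16679 3340 (pr_neg (pr_scaleT 16679 1670 (kc0q0_8_s.snd h1 h2)))) (pr_cmul (enc_norm (kc0q0_3.enc h1.l h2)) (pr_norm (pr_addc (pr_scaleT 3830 167 (kc0q0_8_s.snd h1 h2)) (enc_rat _ 1915 167))))) (pr_add (pr_subr 957527 1660000 (pr_scaleT 5439 1660 (kc0q0_8_s.snd h1 h2))) (pr_cmul (enc_norm (kc0q0_3.enc h1.l h2)) (pr_norm (pr_csub (enc_rat _ 173701 83000)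 (pr_scaleT 433 83 (kc0q0_8_s.snd h1 h2))))))) (pr_case (kc0q0_8_s.snd h1 h2) (pr_add (pr_subr 721 1250 (pr_scaleT 2736 835 (kc0q0_8_s.snd h1 h2))) (pr_cmul (enc_norm (kc0q0_3.enc h1.l h2)) (pr_norm (pr_csub (enc_rat _ 261 125) (pr_scaleT 876 167 (kc0q0_8_s.snd h1 h2)))))) (pr_case (pr_subr 167 1000 (kc0q0_8_s.snd h1 h2)) (pr_add (pr_subr 721 1250 (pr_scaleT 5473 1670 (kc0q0_8_s.snd h1 h2))) (pr_cmul (enc_norm (kc0q0_3.enc h1.l h2)) (pr_norm (pr_csub (enc_rat _ 261 125) (pr_scaleT 879 167 (kc0q0_8_s.snd h1 h2)))))) (pr_add (pr_subr 38392976835119 66565000000000 (pr_scaleT 218139576857 66565000000 (kc0q0_8_s.snd h1 h2))) (pr_cmul (enc_norm (kc0q0_3.enc h1.l h2)) (pr_norm (pr_csub (enc_rat _ 17381482882083 8320625000000) (pr_scaleT 43843396749 8320625000 (kc0q0_8_s.snd h1 h2))))))))))⟩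
noncomputable def kf0q1_10_s : Sl2 kf0q1_10 := ⟨_, fun h1 h2 => (pr_scaleT 3 2 h1)⟩
noncomputable def kf0q1_s : Sl2 kf0q1 := ⟨_, fun h1 h2 => (pr_norm (pr_add (pr_mul (pr_norm (pr_mul (pr_norm (pr_cadd (enc_pnc _ 1) (pr_nat 2 (c1g_s.snd h1)))) (pr_norm (pr_sub (kf0q1_10_s.snd h1 h2) (c1g_s.snd h1))))) (pr_nd (pr_inv (pr_nat 2 (pr_sub (pr_cadd (enc_pnc _ 1) (kf0q1_10_s.snd h1 h2)) (c1g_s.snd h1)))))) (pr_mul (pr_norm (pr_subn 1 h1)) (kcg_s.snd (pr_norm (pr_sub (pr_scaleT 3 4 h1) (pr_half (c1g_s.snd h1)))) h2))))⟩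
noncomputable def l0q1_s : Sl2 l0q1 := ⟨_, fun h1 h2 => (pr_norm (txg_s.snd (pr_norm (pr_sub (pr_scaleT 3 4 h1) (pr_half (c1g_s.snd h1)))) (pr_nd (c1g_s.snd h1)) h2))⟩
noncomputable def gsg_s : Sl1 gsg := ⟨_, fun h1 => (pr_sqrt (pr_csub (enc_pnc _ 1) (pr_scaleT 3 4 (pr_sq h1))))⟩
noncomputable def gug_s : Sl1 gug := ⟨_, fun h1 => (pr_norm (pr_add (pr_scaleT 3 4 h1) (pr_scaleT 3 2 (pr_csub (enc_pnc _ 1) (gsg_s.snd h1)))))⟩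
noncomputable def kc0q1_9_s : Sl2 kc0q1_9 := ⟨_, fun h1 h2 => (pr_sub (pr_scaleT 3 4 h1) (pr_half (c1g_s.snd h1)))⟩
noncomputable def kc0q1_s : Sl2 kc0q1 := ⟨_, fun h1 h2 => (pr_norm (pr_case (pr_subr 47 122 (kc0q1_9_s.snd h1 h2)) (pr_case (pr_addc (kc0q1_9_s.snd h1 h2) (enc_rat _ 167 1000)) (pr_case (pr_addc (kc0q1_9_s.snd h1 h2) (enc_rat _ 333 1000)) (pr_add (pr_subr 16679 3340 (pr_neg (pr_scaleT 16679 1670 (kc0q1_9_s.snd h1 h2)))) (pr_cmul (enc_norm (kc0q1_3.enc h1.l h2)) (pr_norm (pr_addc (pr_scaleT 3830 167 (kc0q1_9_s.snd h1 h2)) (enc_rat _ 1915 167))))) (pr_add (pr_subr 957527 1660000 (pr_scaleT 5439 1660 (kc0q1_9_s.snd h1 h2))) (pr_cmul (enc_norm (kc0q1_3.enc h1.l h2)) (pr_norm (pr_csub (enc_rat _ 173701 83000) (pr_scaleT 433 83 (kc0q1_9_s.snd h1 h2))))))) (pr_case (kc0q1_9_s.snd h1 h2) (pr_add (pr_subr 721 1250 (pr_scaleT 2736 835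 (kc0q1_9_s.snd h1 h2))) (pr_cmul (enc_norm (kc0q1_3.enc h1.l h2)) (pr_norm (pr_csub (enc_rat _ 261 125) (pr_scaleT 876 167 (kc0q1_9_s.snd h1 h2)))))) (pr_case (pr_subr 167 1000 (kc0q1_9_s.snd h1 h2)) (pr_add (pr_subr 721 1250 (pr_scaleT 5473 1670 (kc0q1_9_s.snd h1 h2))) (pr_cmul (enc_norm (kc0q1_3.enc h1.l h2)) (pr_norm (pr_csub (enc_rat _ 261 125) (pr_scaleT 879 167 (kc0q1_9_s.snd h1 h2)))))) (pr_add (pr_subr 38392976835119 66565000000000 (pr_scaleT 218139576857 66565000000 (kc0q1_9_s.snd h1 h2))) (pr_cmul (enc_norm (kc0q1_3.enc h1.l h2)) (pr_norm (pr_csub (enc_rat _ 17381482882083 8320625000000) (pr_scaleT 43843396749 8320625000 (kc0q1_9_s.snd h1 h2))))))))) (pr_case (pr_subr 263 601 (kc0q1_9_s.snd h1 h2)) (pr_sub (pr_add (pr_cadd (enc_rat _ 3 4) (pr_scaleT 3 2 h1)) (pr_scaleT 3 4 (pr_mul (pr_norm (pr_mul h1 (pr_nd (pr_inv (c1g_s.snd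 h1))))) (gug_s.snd h1)))) (pr_mul (kcg_s.snd (pr_norm (kc0q1_9_s.snd h1 h2)) h2) (pr_norm (pr_add (gug_s.snd h1) (pr_nat 2 (c1g_s.snd h1)))))) (pr_add (pr_csub (enc_rat _ 4542780917089 750000000000) (pr_scaleT 4542780917089 375000000000 (kc0q1_9_s.snd h1 h2))) (pr_cmul (enc_norm (kc0q1_3.enc h1.l h2)) (pr_norm (pr_subr 1016572183259 150000000000 (pr_scaleT 1016572183259 75000000000 (kc0q1_9_s.snd h1 h2)))))))))⟩
noncomputable def yag_s : Sl1 yag := ⟨_, fun h1 => (pr_sqrt (pr_scaleT 4 3 (pr_csub (enc_pnc _ 1) (pr_sq h1))))⟩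
noncomputable def kfc02_s : Sl2 kfc02 := ⟨_, fun h1 h2 => (pr_norm (pr_add h1 (pr_mul (pr_norm (pr_subn 1 (yag_s.snd h1))) (kcg_s.snd (pr_nd (pr_neg h1)) h2))))⟩
noncomputable def lc02_7_s : Sl2 lc02_7 := ⟨_, fun h1 h2 => (pr_scaleT 3 4 (yag_s.snd h1))⟩
noncomputable def lc02_8_s : Sl2 lc02_8 := ⟨_, fun h1 h2 => (pr_half h1)⟩
noncomputable def lc02_s : Sl2 lc02 := ⟨_, fun h1 h2 => (pr_norm (pr_sub (txg_s.snd (pr_nd (pr_neg h1)) (pr_norm (pr_add (lc02_7_s.snd h1 h2) (lc02_8_s.snd h1 h2))) h2) (txg_s.snd h1 (pr_norm (pr_sub (lc02_7_s.snd h1 h2) (lc02_8_s.snd h1 h2))) h2)))⟩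
noncomputable def kcc02_12_s : Sl2 kcc02_12 := ⟨_, fun h1 h2 => (pr_scaleT 4429 1000 h1)⟩
noncomputable def kcc02_s : Sl2 kcc02 := ⟨_, fun h1 h2 => (pr_norm (pr_case (pr_subr 1 10 h1) (pr_sub (pr_cmul (enc_norm (kcc02_4.enc h1.l h2)) (pr_nd (pr_scaleT 1227 25 h1))) (kcc02_12_s.snd h1 h2)) (pr_case (pr_subr 3 10 h1) (pr_sub (pr_cmul (enc_norm (kcc02_4.enc h1.l h2)) (pr_norm (pr_subr 1 2000 (pr_scaleT 9817 200 h1)))) (kcc02_12_s.snd h1 h2)) (pr_add (pr_subr 13287 4000 (pr_scaleT 13287 2000 h1)) (pr_cmul (enc_norm (kcc02_4.enc h1.l h2)) (pr_norm (pr_csub (enc_rat _ 589 16) (pr_scaleT 589 8 h1))))))))⟩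
noncomputable def swg_s : Sl1 swg := ⟨_, fun h1 => (pr_sqrt (pr_csub (enc_pnc _ 1) (pr_scaleT 3 4 (pr_sq (pr_norm (pr_subn 1 h1))))))⟩
noncomputable def cv1m_s : Sl1 cv1m := ⟨_, fun h1 => (pr_norm (pr_add (pr_scaleT 3 4 (c1g_s.snd h1)) (pr_scaleT 1 4 (pr_addc (swg_s.snd h1) (enc_rat _ 1 2)))))⟩
noncomputable def bf1q0_8_s : Sl2 bf1q0_8 := ⟨_, fun h1 h2 => (pr_scaleT 278 125 h1)⟩
noncomputable def bf1q0_11_s : Sl2 bf1q0_11 := ⟨_, fun h1 h2 => (pr_csub (enc_pnc _ 1) (bf1q0_8_s.snd h1 h2))⟩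
noncomputable def bf1q0_12_s : Sl2 bf1q0_12 := ⟨_, fun h1 h2 => (pr_scaleT 181 100 h1)⟩
noncomputable def bf1q0_s : Sl2 bf1q0 := ⟨_, fun h1 h2 => (pr_norm (pr_case (pr_subr 1 25 h1) (pr_case (pr_subr 1 50 h1) (pr_add (bf1q0_11_s.snd h1 h2) (pr_cmul (enc_norm (bf1q0_3.enc h1.l h2)) (pr_nd (bf1q0_12_s.snd h1 h2)))) (pr_add (bf1q0_11_s.snd h1 h2) (pr_cmul (enc_norm (bf1q0_3.enc h1.l h2)) (pr_norm (pr_addc (pr_scaleT 361 200 h1) (enc_rat _ 1 10000)))))) (pr_case (pr_subr 2 25 h1) (pr_add (pr_csub (enc_rat _ 99999 100000) (pr_scaleT 1779 800 h1)) (pr_cmul (enc_norm (bf1q0_3.enc h1.l h2)) (pr_norm (pr_subr 1 10000 (bf1q0_12_s.snd h1 h2))))) (pr_case (pr_subr 1 5 h1) (pr_add (pr_csub (enc_rat _ 100001 100000) (bf1q0_8_s.snd h1 h2)) (pr_cmul (enc_norm (bf1q0_3.enc h1.l h2)) (pr_norm (pr_addc (pr_scaleT 217 120 h1) (enc_rat _ 1 30000))))) (pr_add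 (pr_csub (enc_rat _ 299999 300000) (pr_scaleT 33359 15000 h1)) (pr_cmul (enc_norm (bf1q0_3.enc h1.l h2)) (pr_norm (pr_subr 1 10000 (pr_scaleT 1809 1000 h1)))))))))⟩
noncomputable def kf1q0_s : Sl2 kf1q0 := ⟨_, fun h1 h2 => (pr_norm (pr_mul (cv1m_s.snd h1) (bf1q0_s.snd h1 h2)))⟩
noncomputable def bx1q0_s : Sl2 bx1q0 := ⟨_, fun h1 h2 => (pr_norm (pr_case (pr_subr 1 25 h1) (pr_case (pr_subr 1 50 h1) (pr_add (pr_scaleT 843 2000 h1) (pr_cmul (enc_norm (bx1q0_3.enc h1.l h2)) (pr_nd (pr_scaleT 1 40 h1)))) (pr_add (pr_subr 1 100000 (pr_scaleT 211 500 h1)) (pr_cmul (enc_norm (bx1q0_3.enc h1.l h2)) (pr_norm (pr_subr 1 5000 (pr_scaleT 7 200 h1)))))) (pr_case (pr_subr 2 25 h1) (pr_add (pr_addc (pr_scaleT 1683 4000 h1) (enc_rat _ 1 25000)) (pr_cmul (enc_norm (bx1q0_3.enc h1.l h2)) (pr_norm (pr_subr 1 500 (pr_scaleT 2 25 h1))))) (pr_case (pr_subr 1 5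 h1) (pr_add (pr_addc (pr_scaleT 2003 12000 h1) (enc_rat _ 763 37500)) (pr_cmul (enc_norm (bx1q0_3.enc h1.l h2)) (pr_norm (pr_subr 283 7500 (pr_scaleT 79 150 h1))))) (pr_add (pr_addc (pr_scaleT 4919 30000 h1) (enc_rat _ 6281 300000)) (pr_cmul (enc_norm (bx1q0_3.enc h1.l h2)) (pr_norm (pr_subr 331 7500 (pr_scaleT 419 750 h1)))))))))⟩
noncomputable def l1q0_s : Sl2 l1q0 := ⟨_, fun h1 h2 => (pr_norm (pr_mul (cv1m_s.snd h1) (bx1q0_s.snd h1 h2)))⟩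
noncomputable def bd1q0_s : Sl2 bd1q0 := ⟨_, fun h1 h2 => (pr_norm (pr_case (pr_subr 433 10000 h1) (pr_sub (pr_cmul (enc_norm (bd1q0_3.enc h1.l h2)) (pr_nd (pr_scaleT 7300 433 h1))) (pr_scaleT 2666 433 h1)) (pr_case (pr_subr 7 50 h1) (pr_add (pr_subr 745999 9670000 (pr_neg (pr_scaleT 4231 967 h1))) (pr_cmul (enc_norm (bd1q0_3.enc h1.l h2)) (pr_norm (pr_csub (enc_rat _ 667701 120875) (pr_scaleT 107060 967 h1))))) (pr_add (pr_subr 2323 30000 (pr_neg (pr_scaleT 328 75 h1))) (pr_cmul (enc_norm (bd1q0_3.enc h1.l h2)) (pr_norm (pr_csub (enc_rat _ 100019 18000) (pr_scaleT 39941 360 h1))))))))⟩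
noncomputable def kc1q0_s : Sl2 kc1q0 := ⟨_, fun h1 h2 => (pr_norm (pr_mul (cv1m_s.snd h1) (bd1q0_s.snd h1 h2)))⟩
noncomputable def bf1q1_s : Sl2 bf1q1 := ⟨_, fun h1 h2 => (pr_norm (pr_case (pr_subr 17 20 h1) (pr_add (pr_subr 196711 87500 (pr_scaleT 22761 7000 h1)) (pr_cmul (enc_norm (bf1q1_3.enc h1.l h2)) (pr_norm (pr_csub (enc_rat _ 661019 70000) (pr_scaleT 9267 875 h1))))) (pr_case (pr_subr 24 25 h1) (pr_add (pr_subr 1236457 550000 (pr_scaleT 35767 11000 h1)) (pr_cmul (enc_norm (bf1q1_3.enc h1.l h2)) (pr_norm (pr_csub (enc_rat _ 1038749 110000) (pr_scaleT 233 22 h1))))) (pr_add (pr_subr 22483 10000 (pr_scaleT 13007 4000 h1)) (pr_cmul (enc_norm (bf1q1_3.enc h1.l h2)) (pr_norm (pr_csub (enc_rat _ 94423 10000) (pr_scaleT 1059 100 h1))))))))⟩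
noncomputable def kf1q1_s : Sl2 kf1q1 := ⟨_, fun h1 h2 => (pr_norm (pr_mul (cv1m_s.snd h1) (bf1q1_s.snd h1 h2)))⟩
noncomputable def bx1q1_s : Sl2 bx1q1 := ⟨_, fun h1 h2 => (pr_norm (pr_case (pr_subr 17 20 h1) (pr_add (pr_addc (pr_scaleT 2861 17500 h1) (enc_rat _ 1853 87500)) (pr_cmul (enc_norm (bx1q1_3.enc h1.l h2)) (pr_norm (pr_subr 1643 35000 (pr_scaleT 79 140 h1))))) (pr_case (pr_subr 24 25 h1) (pr_add (pr_addc (pr_scaleT 1799 11000 h1) (enc_rat _ 23239 1100000)) (pr_cmul (enc_norm (bx1q1_3.enc h1.l h2)) (pr_norm (pr_subr 5273 110000 (pr_scaleT 311 550 h1))))) (pr_add (pr_addc (pr_scaleT 327 2000 h1) (enc_rat _ 2117 100000)) (pr_cmul (enc_norm (bx1q1_3.enc h1.l h2)) (pr_norm (pr_subr 499 10000 (pr_scaleT 227 400 h1))))))))⟩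
noncomputable def l1q1_s : Sl2 l1q1 := ⟨_, fun h1 h2 => (pr_norm (pr_mul (cv1m_s.snd h1) (bx1q1_s.snd h1 h2)))⟩
noncomputable def bd1q1_s : Sl2 bd1q1 := ⟨_, fun h1 h2 => (pr_norm (pr_case (pr_subr 9 10 h1) (pr_add (pr_subr 97 1250 (pr_neg (pr_scaleT 4373 1000 h1))) (pr_cmul (enc_norm (bd1q1_3.enc h1.l h2)) (pr_norm (pr_csub (enc_rat _ 11151 2000) (pr_scaleT 22197 200 h1))))) (pr_case (pr_subr 9567 10000 h1) (pr_add (pr_subr 48379 630000 (pr_neg (pr_scaleT 2480 567 h1))) (pr_cmul (enc_norm (bd1q1_3.enc h1.l h2)) (pr_norm (pr_csub (enc_rat _ 50201 9000) (pr_scaleT 8990 81 h1))))) (pr_add (pr_subr 170549 2165000 (pr_neg (pr_scaleT 1893 433 h1))) (pr_cmul (enc_norm (bd1q1_3.enc h1.l h2)) (pr_norm (pr_csub (enc_rat _ 241747 43300) (pr_scaleT 48060 433 h1))))))))⟩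
noncomputable def kc1q1_s : Sl2 kc1q1 := ⟨_, fun h1 h2 => (pr_norm (pr_mul (cv1m_s.snd h1) (bd1q1_s.snd h1 h2)))⟩
noncomputable def cv1p_s : Sl1 cv1p := ⟨_, fun h1 => (pr_norm (pr_add (pr_scaleT 3 4 (c1g_s.snd h1)) (pr_scaleT 1 4 (pr_subr 1 2 (swg_s.snd h1)))))⟩
noncomputable def bf1q2_s : Sl2 bf1q2 := ⟨_, fun h1 h2 => (pr_norm (pr_case (pr_subr 577 500 h1) (pr_case (pr_subr 21 20 h1) (pr_add (pr_csub (enc_rat _ 2531 625) (pr_scaleT 1906 625 h1)) (pr_cmul (enc_norm (bf1q2_3.enc h1.l h2)) (pr_norm (pr_csub (enc_rat _ 10617 500) (pr_scaleT 10617 500 h1))))) (pr_add (pr_csub (enc_rat _ 421147081 104000000) (pr_scaleT 15857381 5200000 h1)) (pr_cmul (enc_norm (bf1q2_3.enc h1.l h2)) (pr_norm (pr_csub (enc_rat _ 110428119 5200000) (pr_scaleT 5521379 260000 h1)))))) (pr_case (pr_subr 231 200 h1) (pr_add (pr_csub (enc_rat _ 404953 100000) (pr_scaleT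 304953 100000 h1)) (pr_cmul (enc_norm (bf1q2_3.enc h1.l h2)) (pr_norm (pr_csub (enc_rat _ 106177 5000) (pr_scaleT 106177 5000 h1))))) (pr_case (pr_subr 13 10 h1) (pr_add (pr_csub (enc_rat _ 117436601 29000000) (pr_scaleT 8843657 2900000 h1)) (pr_cmul (enc_norm (bf1q2_3.enc h1.l h2)) (pr_norm (pr_csub (enc_rat _ 30791099 1450000) (pr_scaleT 3079113 145000 h1))))) (pr_add (pr_csub (enc_rat _ 404949 100000) (pr_scaleT 6099 2000 h1)) (pr_cmul (enc_norm (bf1q2_3.enc h1.l h2)) (pr_norm (pr_csub (enc_rat _ 424711 20000) (pr_scaleT 42471 2000 h1)))))))))⟩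
noncomputable def kf1q2_s : Sl2 kf1q2 := ⟨_, fun h1 h2 => (pr_norm (pr_mul (cv1p_s.snd h1) (bf1q2_s.snd h1 h2)))⟩
noncomputable def bx1q2_s : Sl2 bx1q2 := ⟨_, fun h1 h2 => (pr_norm (pr_case (pr_subr 577 500 h1) (pr_case (pr_subr 21 20 h1) (pr_add (pr_csub (enc_rat _ 7191 5000) (pr_scaleT 7191 5000 h1)) (pr_cmul (enc_norm (bx1q2_3.enc h1.l h2)) (pr_norm (pr_csub (enc_rat _ 1961 250) (pr_scaleT 1961 250 h1))))) (pr_add (pr_csub (enc_rat _ 10314543 5200000) (pr_scaleT 20359 10400 h1)) (pr_cmul (enc_norm (bx1q2_3.enc h1.l h2)) (pr_norm (pr_csub (enc_rat _ 1021589 130000) (pr_scaleT 2043 260 h1)))))) (pr_casec1 (pr_subr 231 200 h1) (enc_sub (enc_neg (enc_rat _ 551 2000)) (enc_scaleT 6047 5000 (bx1q2_3.enc h1.l h2))) (pr_case (pr_subr 13 10 h1) (pr_add (pr_subr 28772 18125 (pr_scaleT 1647 1450 h1)) (pr_cmul (enc_norm (bx1q2_3.enc h1.l h2)) (pr_norm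 (pr_subr 2427647 290000 (pr_scaleT 8991 1450 h1))))) (pr_add (pr_subr 31739 20000 (pr_scaleT 2271 2000 h1)) (pr_cmul (enc_norm (bx1q2_3.enc h1.l h2)) (pr_norm (pr_subr 167497 20000 (pr_scaleT 12407 2000 h1)))))))))⟩
noncomputable def l1q2_s : Sl2 l1q2 := ⟨_, fun h1 h2 => (pr_norm (pr_mul (cv1p_s.snd h1) (bx1q2_s.snd h1 h2)))⟩
noncomputable def bd1q2_s : Sl2 bd1q2 := ⟨_, fun h1 h2 => (pr_norm (pr_case (pr_subr 10433 10000 h1) (pr_add (pr_csub (enc_rat _ 12373 433) (pr_scaleT 12373 433 h1)) (pr_cmul (enc_norm (bd1q2_3.enc h1.l h2)) (pr_norm (pr_subr 137110 433 (pr_scaleT 137110 433 h1))))) (pr_case (pr_subr 231 200 h1) (pr_add (pr_csub (enc_rat _ 15958471 558500) (pr_scaleT 31917 1117 h1)) (pr_cmul (enc_norm (bd1q2_3.enc h1.l h2)) (pr_norm (pr_subr 35368959 111700 (pr_scaleT 353690 1117 h1))))) (pr_add (pr_csub (enc_rat _ 1643113 57500) (pr_scaleT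 16431 575 h1)) (pr_cmul (enc_norm (bd1q2_3.enc h1.l h2)) (pr_norm (pr_subr 7282871 23000 (pr_scaleT 109243 345 h1))))))))⟩
noncomputable def kc1q2_s : Sl2 kc1q2 := ⟨_, fun h1 h2 => (pr_norm (pr_mul (cv1p_s.snd h1) (bd1q2_s.snd h1 h2)))⟩
noncomputable def cv1r_s : Sl1 cv1r := ⟨_, fun h1 => (pr_norm (pr_scaleT 1 4 (pr_subr 1 2 (swg_s.snd h1))))⟩
noncomputable def c3g_s : Sl1 c3g := ⟨_, fun h1 => (pr_sqrtg (pr_csub (enc_pnc _ 3) (pr_scaleT 3 4 (pr_sq h1))))⟩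
noncomputable def kf1q3_13_s : Sl2 kf1q3_13 := ⟨_, fun h1 h2 => (pr_subr 15269 3125 (pr_scaleT 5491 2000 h1))⟩
noncomputable def kf1q3_s : Sl2 kf1q3 := ⟨_, fun h1 h2 => (pr_norm (pr_mulz (fun ht => cv1r_two (enc_two h1.r ht)) (cv1r_s.snd h1) (pr_norm (pr_case (pr_subr 48 25 h1) (pr_case (pr_subr 9 5 h1) (pr_add (kf1q3_13_s.snd h1 h2) (pr_cmul (enc_norm (kf1q3_4.enc h1.l h2)) (pr_norm (pr_csub (enc_rat _ 3850249 10000) (pr_scaleT 27242 125 h1))))) (pr_add (kf1q3_13_s.snd h1 h2) (pr_cmul (enc_norm (kf1q3_4.enc h1.l h2)) (pr_norm (pr_csub (enc_rat _ 1925123 5000) (pr_scaleT 261523 1200 h1)))))) (pr_case (pr_subr 49 25 h1) (pr_add (kf1q3_13_s.snd h1 h2) (pr_cmul (enc_norm (kf1q3_4.enc h1.l h2)) (pr_norm (pr_csub (enc_rat _ 385023 1000) (pr_scaleT 43587 200 h1))))) (pr_case (pr_csub (enc_rat _ 122167917 500000000) (c3g_s.snd h1)) (pr_add (pr_csub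 (enc_rat _ 159891632707 209037343750) (pr_scaleT 1047200 1337839 (c3g_s.snd h1))) (pr_cmul (enc_norm (kf1q3_4.enc h1.l h2)) (pr_norm (pr_subr 2656679470079 41807468750 (pr_scaleT 249376000 4013517 (c3g_s.snd h1)))))) (pr_add (pr_csub (enc_rat _ 76489 100000) (pr_scaleT 10625000 13574213 (c3g_s.snd h1))) (pr_cmul (enc_norm (kf1q3_4.enc h1.l h2)) (pr_norm (pr_subr 39716 625 (pr_scaleT 7590800000 122167917 (c3g_s.snd h1))))))))))))⟩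
noncomputable def l1q3_28_s : Sl2 l1q3_28 := ⟨_, fun h1 h2 => (pr_cmul (enc_norm (l1q3_4.enc h1.l h2)) (pr_norm (pr_subr 1677 200 (pr_scaleT 621 100 h1))))⟩
noncomputable def l1q3_s : Sl2 l1q3 := ⟨_, fun h1 h2 => (pr_norm (pr_mulz (fun ht => cv1r_two (enc_two h1.r ht)) (cv1r_s.snd h1) (pr_norm (pr_case (pr_subr 48 25 h1) (pr_case (pr_subr 9 5 h1) (pr_add (pr_subr 1587 1000 (pr_scaleT 17033 15000 h1)) (pr_cmul (enc_norm (l1q3_4.enc h1.l h2)) (pr_norm (pr_subr 41913 5000 (pr_scaleT 9313 1500 h1))))) (pr_add (pr_subr 158709 100000 (pr_scaleT 13627 12000 h1)) (l1q3_28_s.snd h1 h2))) (pr_case (pr_subr 49 25 h1) (pr_add (pr_subr 158693 100000 (pr_scaleT 2271 2000 h1)) (l1q3_28_s.snd h1 h2)) (pr_case (pr_csub (enc_rat _ 122167917 500000000) (c3g_s.snd h1)) (pr_add (pr_csub (enc_rat _ 2509193983119 3344597500000) (pr_scaleT 1299200 4013517 (c3g_s.snd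 h1))) (pr_cmul (enc_norm (l1q3_4.enc h1.l h2)) (pr_norm (pr_csub (enc_rat _ 1470627045931 334459750000) (pr_scaleT 7108000 4013517 (c3g_s.snd h1)))))) (pr_add (pr_csub (enc_rat _ 4689 6250) (pr_scaleT 4395000 13574213 (c3g_s.snd h1))) (pr_cmul (enc_norm (l1q3_4.enc h1.l h2)) (pr_norm (pr_csub (enc_rat _ 2748 625) (pr_scaleT 216250000 122167917 (c3g_s.snd h1))))))))))))⟩
noncomputable def kc1q3_s : Sl2 kc1q3 := ⟨_, fun h1 h2 => (pr_norm (pr_mulz (fun ht => cv1r_two (enc_two h1.r ht)) (cv1r_s.snd h1) (pr_norm (pr_case (pr_subr 47 25 h1) (pr_add (pr_csub (enc_rat _ 2714653 95000) (pr_scaleT 54293 1900 h1)) (pr_cmul (enc_norm (kc1q3_4.enc h1.l h2)) (pr_norm (pr_subr 6016163 19000 (pr_scaleT 30081 95 h1))))) (pr_case (pr_subr 19567 10000 h1) (pr_add (pr_csub (enc_rat _ 109584123 3835000) (pr_scaleT 21917 767 h1)) (pr_cmul (enc_norm (kc1q3_4.enc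 h1.l h2)) (pr_norm (pr_subr 242873351 767000 (pr_scaleT 242870 767 h1))))) (pr_add (pr_csub (enc_rat _ 306403 10000) (pr_scaleT 14494550000 89615091 (c3g_s.snd h1))) (pr_cmul (enc_norm (kc1q3_4.enc h1.l h2)) (pr_norm (pr_addc (pr_scaleT 61951000000 89615091 (c3g_s.snd h1)) (enc_rat _ 5513 100))))))))))⟩
noncomputable def cv2m_s : Sl1 cv2m := ⟨_, fun h1 => (pr_norm (pr_add (pr_scaleT 7 20 (c1g_s.snd h1)) (pr_scaleT 13 20 (pr_addc (swg_s.snd h1) (enc_rat _ 1 2)))))⟩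
noncomputable def bf2q0_24_s : Sl2 bf2q0_24 := ⟨_, fun h1 h2 => (pr_cmul (enc_norm (bf2q0_3.enc h1.l h2)) (pr_norm (pr_csub (enc_rat _ 9121 10000) (pr_scaleT 65 2 h1))))⟩
noncomputable def bf2q0_s : Sl2 bf2q0 := ⟨_, fun h1 h2 => (pr_norm (pr_case (pr_subr 1 25 h1) (pr_case (pr_subr 1 50 h1) (pr_add (pr_csub (enc_pnc _ 1) (pr_scaleT 851 400 h1)) (pr_cmul (enc_norm (bf2q0_3.enc h1.l h2)) (pr_nd (pr_scaleT 2621 200 h1)))) (pr_add (pr_csub (enc_rat _ 25239 25000) (pr_scaleT 5211 2000 h1)) (bf2q0_24_s.snd h1 h2))) (pr_case (pr_subr 1 5 h1) (pr_add (pr_csub (enc_rat _ 20191 20000) (pr_scaleT 10421 4000 h1)) (bf2q0_24_s.snd h1 h2)) (pr_add (pr_csub (enc_rat _ 18929 18750) (pr_scaleT 78157 30000 h1)) (bf2q0_24_s.snd h1 h2)))))⟩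
noncomputable def kf2q0_s : Sl2 kf2q0 := ⟨_, fun h1 h2 => (pr_norm (pr_mul (cv2m_s.snd h1) (bf2q0_s.snd h1 h2)))⟩
noncomputable def bx2q0_s : Sl2 bx2q0 := ⟨_, fun h1 h2 => (pr_norm (pr_case (pr_subr 1 25 h1) (pr_case (pr_subr 1 50 h1) (pr_add (pr_scaleT 399 500 h1) (pr_cmul (enc_norm (bx2q0_3.enc h1.l h2)) (pr_nd (pr_scaleT 641 200 h1)))) (pr_add (pr_addc (pr_scaleT 1489 2000 h1) (enc_rat _ 107 100000)) (pr_cmul (enc_norm (bx2q0_3.enc h1.l h2)) (pr_norm (pr_addc (pr_scaleT 47 40 h1) (enc_rat _ 203 5000)))))) (pr_case (pr_subr 2 25 h1) (pr_add (pr_addc (pr_scaleT 1293 2000 h1) (enc_rat _ 499 100000)) (pr_cmul (enc_norm (bx2q0_3.enc h1.l h2)) (pr_norm (pr_addc (pr_scaleT 341 400 h1) (enc_rat _ 107 2000))))) (pr_case (pr_subr 1 5 h1) (pr_add (pr_addc (pr_scaleT 6851 12000 h1) (enc_rat _ 3311 300000)) (pr_cmul (enc_norm (bx2q0_3.enc h1.l h2))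 (pr_norm (pr_csub (enc_rat _ 1187 6000) (pr_scaleT 571 600 h1))))) (pr_add (pr_csub (enc_rat _ 10283 75000) (pr_scaleT 1783 30000 h1)) (pr_cmul (enc_norm (bx2q0_3.enc h1.l h2)) (pr_norm (pr_csub (enc_rat _ 1193 6000) (pr_scaleT 287 300 h1)))))))))⟩
noncomputable def l2q0_s : Sl2 l2q0 := ⟨_, fun h1 h2 => (pr_norm (pr_mul (cv2m_s.snd h1) (bx2q0_s.snd h1 h2)))⟩
noncomputable def bd2q0_s : Sl2 bd2q0 := ⟨_, fun h1 h2 => (pr_norm (pr_case (pr_subr 433 10000 h1) (pr_sub (pr_cmul (enc_norm (bd2q0_3.enc h1.l h2)) (pr_nd (pr_scaleT 930 433 h1))) (pr_scaleT 5851 433 h1)) (pr_case (pr_subr 7 50 h1) (pr_add (pr_subr 339 9670000 (pr_neg (pr_scaleT 13066 967 h1))) (pr_cmul (enc_norm (bd2q0_3.enc h1.l h2)) (pr_norm (pr_subr 56423 967000 (pr_scaleT 3380 967 h1))))) (pr_add (pr_csub (enc_rat _ 1 20000) (pr_scaleT 1081 80 h1)) (pr_cmul (enc_norm (bd2q0_3.enc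 h1.l h2)) (pr_norm (pr_subr 517 9000 (pr_scaleT 157 45 h1))))))))⟩
noncomputable def kc2q0_s : Sl2 kc2q0 := ⟨_, fun h1 h2 => (pr_norm (pr_mul (cv2m_s.snd h1) (bd2q0_s.snd h1 h2)))⟩
noncomputable def bf2q1_s : Sl2 bf2q1 := ⟨_, fun h1 h2 => (pr_norm (pr_case (pr_subr 17 20 h1) (pr_add (pr_csub (enc_rat _ 983491 700000) (pr_scaleT 8037 8750 h1)) (pr_cmul (enc_norm (bf2q1_3.enc h1.l h2)) (pr_norm (pr_csub (enc_rat _ 776561 70000) (pr_scaleT 44999 3500 h1))))) (pr_case (pr_subr 24 25 h1) (pr_add (pr_csub (enc_rat _ 154543 110000) (pr_scaleT 10103 11000 h1)) (pr_cmul (enc_norm (bf2q1_3.enc h1.l h2)) (pr_norm (pr_csub (enc_rat _ 152533 13750) (pr_scaleT 7071 550 h1))))) (pr_add (pr_csub (enc_rat _ 70249 50000) (pr_scaleT 1837 2000 h1)) (pr_cmul (enc_norm (bf2q1_3.enc h1.l h2)) (pr_norm (pr_csub (enc_rat _ 6934 625) (pr_scaleT 5143 400 h1))))))))⟩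
noncomputable def kf2q1_s : Sl2 kf2q1 := ⟨_, fun h1 h2 => (pr_norm (pr_mul (cv2m_s.snd h1) (bf2q1_s.snd h1 h2)))⟩
noncomputable def bx2q1_26_s : Sl2 bx2q1_26 := ⟨_, fun h1 h2 => (pr_cmul (enc_norm (bx2q1_3.enc h1.l h2)) (pr_norm (pr_csub (enc_rat _ 251 1250) (pr_scaleT 24 25 h1))))⟩
noncomputable def bx2q1_s : Sl2 bx2q1 := ⟨_, fun h1 h2 => (pr_norm (pr_case (pr_subr 17 20 h1) (pr_add (pr_csub (enc_rat _ 95993 700000) (pr_scaleT 1041 17500 h1)) (pr_cmul (enc_norm (bx2q1_3.enc h1.l h2)) (pr_norm (pr_csub (enc_rat _ 2801 14000) (pr_scaleT 3357 3500 h1))))) (pr_case (pr_subr 24 25 h1) (pr_add (pr_csub (enc_rat _ 150817 1100000) (pr_scaleT 327 5500 h1)) (bx2q1_26_s.snd h1 h2)) (pr_add (pr_csub (enc_rat _ 2743 20000) (pr_scaleT 119 2000 h1)) (bx2q1_26_s.snd h1 h2)))))⟩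
noncomputable def l2q1_s : Sl2 l2q1 := ⟨_, fun h1 h2 => (pr_norm (pr_mul (cv2m_s.snd h1) (bx2q1_s.snd h1 h2)))⟩
noncomputable def bd2q1_s : Sl2 bd2q1 := ⟨_, fun h1 h2 => (pr_norm (pr_case (pr_subr 9 10 h1) (pr_add (pr_subr 3 40000 (pr_neg (pr_scaleT 54049 4000 h1))) (pr_cmul (enc_norm (bd2q1_3.enc h1.l h2)) (pr_norm (pr_subr 227 4000 (pr_scaleT 279 80 h1))))) (pr_case (pr_subr 9567 10000 h1) (pr_add (pr_csub (enc_rat _ 169 210000) (pr_scaleT 2554 189 h1)) (pr_cmul (enc_norm (bd2q1_3.enc h1.l h2)) (pr_norm (pr_subr 213 3500 (pr_scaleT 220 63 h1))))) (pr_add (pr_csub (enc_rat _ 327 1082500) (pr_scaleT 5851 433 h1)) (pr_cmul (enc_norm (bd2q1_3.enc h1.l h2)) (pr_norm (pr_subr 24377 433000 (pr_scaleT 1510 433 h1))))))))⟩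
noncomputable def kc2q1_s : Sl2 kc2q1 := ⟨_, fun h1 h2 => (pr_norm (pr_mul (cv2m_s.snd h1) (bd2q1_s.snd h1 h2)))⟩
noncomputable def cv2p_s : Sl1 cv2p := ⟨_, fun h1 => (pr_norm (pr_add (pr_scaleT 7 20 (c1g_s.snd h1)) (pr_scaleT 13 20 (pr_subr 1 2 (swg_s.snd h1)))))⟩
noncomputable def bf2q2_11_s : Sl2 bf2q2_11 := ⟨_, fun h1 h2 => (pr_csub (enc_rat _ 6049 1250) (pr_scaleT 4799 1250 h1))⟩
noncomputable def bf2q2_s : Sl2 bf2q2 := ⟨_, fun h1 h2 => (pr_norm (pr_case (pr_subr 577 500 h1) (pr_case (pr_subr 21 20 h1) (pr_add (bf2q2_11_s.snd h1 h2) (pr_cmul (enc_norm (bf2q2_3.enc h1.l h2)) (pr_norm (pr_csub (enc_rat _ 4213 500) (pr_scaleT 4213 500 h1))))) (pr_add (pr_csub (enc_rat _ 3145501 650000) (pr_scaleT 4991 1300 h1)) (pr_cmul (enc_norm (bf2q2_3.enc h1.l h2)) (pr_norm (pr_csub (enc_rat _ 547753 65000) (pr_scaleT 2191 260 h1)))))) (pr_case (pr_subr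 231 200 h1) (pr_add (pr_csub (enc_rat _ 121003 25000) (pr_scaleT 96 25 h1)) (pr_cmul (enc_norm (bf2q2_3.enc h1.l h2)) (pr_norm (pr_csub (enc_rat _ 83959 10000) (pr_scaleT 42 5 h1))))) (pr_case (pr_subr 13 10 h1) (pr_add (pr_csub (enc_rat _ 1754197 362500) (pr_scaleT 13917 3625 h1)) (pr_cmul (enc_norm (bf2q2_3.enc h1.l h2)) (pr_norm (pr_csub (enc_rat _ 2443589 290000) (pr_scaleT 6109 725 h1))))) (pr_add (bf2q2_11_s.snd h1 h2) (pr_cmul (enc_norm (bf2q2_3.enc h1.l h2)) (pr_norm (pr_csub (enc_rat _ 168531 20000) (pr_scaleT 16853 2000 h1)))))))))⟩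
noncomputable def kf2q2_s : Sl2 kf2q2 := ⟨_, fun h1 h2 => (pr_norm (pr_mul (cv2p_s.snd h1) (bf2q2_s.snd h1 h2)))⟩
noncomputable def bx2q2_s : Sl2 bx2q2 := ⟨_, fun h1 h2 => (pr_norm (pr_case (pr_subr 577 500 h1) (pr_case (pr_subr 21 20 h1) (pr_add (pr_csub (enc_rat _ 181 250) (pr_scaleT 181 250 h1)) (pr_cmul (enc_norm (bx2q2_3.enc h1.l h2)) (pr_norm (pr_csub (enc_rat _ 161 50) (pr_scaleT 161 50 h1))))) (pr_add (pr_csub (enc_rat _ 376501 520000) (pr_scaleT 753 1040 h1)) (pr_cmul (enc_norm (bx2q2_3.enc h1.l h2)) (pr_norm (pr_csub (enc_rat _ 334481 104000) (pr_scaleT 669 208 h1)))))) (pr_case (pr_subr 231 200 h1) (pr_add (pr_csub (enc_rat _ 35969 50000) (pr_scaleT 18 25 h1)) (pr_cmul (enc_norm (bx2q2_3.enc h1.l h2)) (pr_norm (pr_csub (enc_rat _ 26203 10000) (pr_scaleT 27 10 h1))))) (pr_case (pr_subr 13 10 h1) (pr_add (pr_subr 574463 362500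 (pr_scaleT 9243 7250 h1)) (pr_cmul (enc_norm (bx2q2_3.enc h1.l h2)) (pr_norm (pr_subr 30484 18125 (pr_scaleT 743 725 h1))))) (pr_add (pr_subr 63397 40000 (pr_scaleT 25501 20000 h1)) (pr_cmul (enc_norm (bx2q2_3.enc h1.l h2)) (pr_norm (pr_subr 7251 4000 (pr_scaleT 2251 2000 h1)))))))))⟩
noncomputable def l2q2_s : Sl2 l2q2 := ⟨_, fun h1 h2 => (pr_norm (pr_mul (cv2p_s.snd h1) (bx2q2_s.snd h1 h2)))⟩
noncomputable def bd2q2_s : Sl2 bd2q2 := ⟨_, fun h1 h2 => (pr_norm (pr_case (pr_subr 10433 10000 h1) (pr_add (pr_subr 6425 433 (pr_scaleT 6425 433 h1)) (pr_cmul (enc_norm (bd2q2_3.enc h1.l h2)) (pr_norm (pr_csub (enc_rat _ 20670 433) (pr_scaleT 20670 433 h1))))) (pr_case (pr_subr 231 200 h1) (pr_add (pr_subr 165739817 11170000 (pr_scaleT 16574 1117 h1)) (pr_cmul (enc_norm (bd2q2_3.enc h1.l h2)) (pr_norm (pr_csub (enc_rat _ 1066607 22340) (pr_scaleT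 53330 1117 h1))))) (pr_add (pr_subr 341273 23000 (pr_scaleT 51191 3450 h1)) (pr_cmul (enc_norm (bd2q2_3.enc h1.l h2)) (pr_norm (pr_csub (enc_rat _ 137268 2875) (pr_scaleT 16472 345 h1))))))))⟩
noncomputable def kc2q2_s : Sl2 kc2q2 := ⟨_, fun h1 h2 => (pr_norm (pr_mul (cv2p_s.snd h1) (bd2q2_s.snd h1 h2)))⟩
noncomputable def cv2r_s : Sl1 cv2r := ⟨_, fun h1 => (pr_norm (pr_scaleT 13 20 (pr_subr 1 2 (swg_s.snd h1))))⟩
noncomputable def kf2q3_13_s : Sl2 kf2q3_13 := ⟨_, fun h1 h2 => (pr_csub (enc_rat _ 40087 4000) (pr_scaleT 15377 3000 h1))⟩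
noncomputable def kf2q3_s : Sl2 kf2q3 := ⟨_, fun h1 h2 => (pr_norm (pr_mulz (fun ht => cv2r_two (enc_two h1.r ht)) (cv2r_s.snd h1) (pr_norm (pr_case (pr_subr 48 25 h1) (pr_case (pr_subr 9 5 h1) (pr_add (kf2q3_13_s.snd h1 h2) (pr_cmul (enc_norm (kf2q3_4.enc h1.l h2)) (pr_norm (pr_subr 29429 500 (pr_scaleT 7139 250 h1))))) (pr_add (kf2q3_13_s.snd h1 h2) (pr_cmul (enc_norm (kf2q3_4.enc h1.l h2)) (pr_norm (pr_subr 36787 625 (pr_scaleT 8567 300 h1)))))) (pr_case (pr_subr 49 25 h1) (pr_add (pr_csub (enc_rat _ 1002191 100000) (pr_scaleT 20503 4000 h1)) (pr_cmul (enc_norm (kf2q3_4.enc h1.l h2)) (pr_norm (pr_subr 7357 125 (pr_scaleT 5711 200 h1))))) (pr_case (pr_csub (enc_rat _ 122167917 500000000) (c3g_s.snd h1)) (pr_add (pr_subr 1766793757339 3344597500000 (pr_scaleT 5865200 4013517 (c3g_s.snd h1))) (pr_cmul (enc_norm (kf2q3_4.enc h1.l h2)) (pr_norm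 (pr_subr 27210221687 334459750000 (pr_neg (pr_scaleT 32684000 4013517 (c3g_s.snd h1))))))) (pr_add (pr_subr 6603 12500 (pr_scaleT 178525000 122167917 (c3g_s.snd h1))) (pr_cmul (enc_norm (kf2q3_4.enc h1.l h2)) (pr_norm (pr_subr 809 10000 (pr_neg (pr_scaleT 331700000 40722639 (c3g_s.snd h1)))))))))))))⟩
noncomputable def l2q3_s : Sl2 l2q3 := ⟨_, fun h1 h2 => (pr_norm (pr_mulz (fun ht => cv2r_two (enc_two h1.r ht)) (cv2r_s.snd h1) (pr_norm (pr_case (pr_subr 48 25 h1) (pr_case (pr_subr 9 5 h1) (pr_add (pr_subr 15849 10000 (pr_scaleT 38251 30000 h1)) (pr_cmul (enc_norm (l2q3_4.enc h1.l h2)) (pr_norm (pr_subr 1959 1000 (pr_scaleT 1223 1000 h1))))) (pr_add (pr_subr 158499 100000 (pr_scaleT 15301 12000 h1)) (pr_cmul (enc_norm (l2q3_4.enc h1.l h2)) (pr_norm (pr_subr 12873 5000 (pr_scaleT 313 200 h1)))))) (pr_case (pr_subr 49 25 h1) (pr_add (pr_subr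 158483 100000 (pr_scaleT 51 40 h1)) (pr_cmul (enc_norm (l2q3_4.enc h1.l h2)) (pr_norm (pr_subr 124929 5000 (pr_scaleT 1059 80 h1))))) (pr_case (pr_csub (enc_rat _ 122167917 500000000) (c3g_s.snd h1)) (pr_add (pr_addc (pr_scaleT 683600 4013517 (c3g_s.snd h1)) (enc_rat _ 1430590772599 1672298750000)) (pr_cmul (enc_norm (l2q3_4.enc h1.l h2)) (pr_norm (pr_csub (enc_rat _ 982065291837 334459750000) (pr_scaleT 7672000 1337839 (c3g_s.snd h1)))))) (pr_add (pr_addc (pr_scaleT 6935000 40722639 (c3g_s.snd h1)) (enc_rat _ 85547 100000)) (pr_cmul (enc_norm (l2q3_4.enc h1.l h2)) (pr_norm (pr_csub (enc_rat _ 7339 2500) (pr_scaleT 700250000 122167917 (c3g_s.snd h1))))))))))))⟩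
noncomputable def kc2q3_s : Sl2 kc2q3 := ⟨_, fun h1 h2 => (pr_norm (pr_mulz (fun ht => cv2r_two (enc_two h1.r ht)) (cv2r_s.snd h1) (pr_norm (pr_case (pr_subr 47 25 h1) (pr_add (pr_subr 281919 19000 (pr_scaleT 7048 475 h1)) (pr_cmul (enc_norm (kc2q3_4.enc h1.l h2)) (pr_norm (pr_csub (enc_rat _ 453541 9500) (pr_scaleT 9071 190 h1))))) (pr_case (pr_subr 19567 10000 h1) (pr_add (pr_subr 56906271 3835000 (pr_scaleT 11381 767 h1)) (pr_cmul (enc_norm (kc2q3_4.enc h1.l h2)) (pr_norm (pr_csub (enc_rat _ 18310431 383500) (pr_scaleT 36620 767 h1))))) (pr_add (pr_addc (pr_scaleT 3213275000 89615091 (c3g_s.snd h1)) (enc_rat _ 839 625)) (pr_cmul (enc_norm (kc2q3_4.enc h1.l h2)) (pr_norm (pr_subr 5249 50 (pr_scaleT 4942000000 29871697 (c3g_s.snd h1)))))))))))⟩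
noncomputable def cv3m_s : Sl1 cv3m := ⟨_, fun h1 => (pr_norm (pr_add (pr_scaleT 8907 10000 (pr_addc (swg_s.snd h1) (enc_rat _ 1 2))) (pr_scaleT 1093 10000 (c3g_s.snd h1))))⟩
noncomputable def esg_s : Sl1 esg := ⟨_, fun h1 => (pr_norm (pr_subn 1 (pr_add (pr_half h1) (gsg_s.snd h1))))⟩
noncomputable def kf3q0_53_s : Sl2 kf3q0_53 := ⟨_, fun h1 h2 => (pr_csub (enc_pnc _ 1) h1)⟩
noncomputable def kf3q0_54_s : Sl2 kf3q0_54 := ⟨_, fun h1 h2 => (gsg_s.snd (pr_norm (kf3q0_53_s.snd h1 h2)))⟩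
noncomputable def kf3q0_57_s : Sl2 kf3q0_57 := ⟨_, fun h1 h2 => (pr_sub (pr_scaleT 3 4 (kf3q0_53_s.snd h1 h2)) (pr_half (kf3q0_54_s.snd h1 h2)))⟩
noncomputable def kf3q0_58_s : Sl2 kf3q0_58 := ⟨_, fun h1 h2 => (esg_s.snd (pr_norm (kf3q0_53_s.snd h1 h2)))⟩
noncomputable def kf3q0_59_s : Sl2 kf3q0_59 := ⟨_, fun h1 h2 => (kcg_s.snd (pr_norm (kf3q0_57_s.snd h1 h2)) h2)⟩
noncomputable def kf3q0_67_s : Sl2 kf3q0_67 := ⟨_, fun h1 h2 => (pr_sub (kf3q0_57_s.snd h1 h2) (pr_csub (enc_rat _ 1 4) (pr_scaleT 3 8 (pr_mul (pr_norm (kf3q0_53_s.snd h1 h2)) (pr_nd (pr_inv (kf3q0_54_s.snd h1 h2)))))))⟩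
noncomputable def kf3q0_76_s : Sl2 kf3q0_76 := ⟨_, fun h1 h2 => (pr_mul (cv2m_s.snd h1) (bf2q0_s.snd h1 h2))⟩
noncomputable def kf3q0_s : Sl2 kf3q0 := ⟨_, fun h1 h2 => (pr_norm (pr_case (pr_subr 433 10000 h1) (pr_mul (cv3m_s.snd h1) (pr_norm (pr_case (pr_subr 1 50 h1) (pr_add (pr_csub (enc_rat _ 44741 50000) (pr_scaleT 627 100 h1)) (pr_cmul (enc_norm (kf3q0_4.enc h1.l h2)) (pr_norm (pr_subr 31 100 (pr_scaleT 4207 100 h1))))) (pr_add (pr_csub (enc_rat _ 10424593421 11650000000) (pr_scaleT 1460850421 233000000 h1)) (pr_cmul (enc_norm (kf3q0_4.enc h1.l h2)) (pr_norm (pr_subr 180656263 582500000 (pr_scaleT 490196763 11650000 h1)))))))) (pr_case (pr_subr 819 10000 h1) (pr_add (kf3q0_76_s.snd h1 h2) (pr_mul (pr_norm (pr_mul (pr_norm (pr_sub (pr_wB0 (pr_mul h1 (pr_norm (pr_sub (pr_mul (pr_norm (kf3q0_67_s.snd h1 h2)) (pr_nd (pr_inv (kf3q0_58_s.snd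 h1 h2)))) (kf3q0_59_s.snd h1 h2)))) (kf3q0_53_s.snd h1 h2) (kf3q0_54_s.snd h1 h2) (kf3q0_58_s.snd h1 h2) h1 (kf3q0_67_s.snd h1 h2) (kf3q0_59_s.snd h1 h2) rfl rfl rfl rfl rfl rfl rfl rfl) (kf3q0_76_s.snd h1 h2))) (pr_norm (pr_sub (cv3m_s.snd h1) (cv2m_s.snd h1))))) (pr_nd (pr_inv (pr_sub (pr_addc (swg_s.snd h1) (enc_rat _ 1 2)) (cv2m_s.snd h1)))))) (pr_mul (cv3m_s.snd h1) (pr_norm (pr_case (pr_subr 1 5 h1) (pr_add (pr_csub (enc_rat _ 238351571 295250000) (pr_scaleT 174754721 59050000 h1)) (pr_cmul (enc_norm (kf3q0_4.enc h1.l h2)) (pr_norm (pr_addc (pr_scaleT 110829983 14762500 h1) (enc_rat _ 82481521 36906250))))) (pr_add (pr_csub (enc_rat _ 121093 150000) (pr_scaleT 88783 30000 h1)) (pr_cmul (enc_norm (kf3q0_4.enc h1.l h2)) (pr_norm (pr_addc (pr_scaleT 7507 1000 h1) (enc_rat _ 447 200)))))))))))⟩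
noncomputable def qsg_s : Sl1 qsg := ⟨_, fun h1 => (pr_norm (pr_mul (pr_norm (pr_csub (enc_pnc _ 1) (gsg_s.snd h1))) (pr_norm (pr_subn 1 (pr_nat 2 (gsg_s.snd h1))))))⟩
noncomputable def l3q0_65_s : Sl2 l3q0_65 := ⟨_, fun h1 h2 => (pr_csub (enc_pnc _ 1) h1)⟩
noncomputable def l3q0_80_s : Sl2 l3q0_80 := ⟨_, fun h1 h2 => (pr_mul (cv2m_s.snd h1) (bx2q0_s.snd h1 h2))⟩
noncomputable def l3q0_s : Sl2 l3q0 := ⟨_, fun h1 h2 => (pr_norm (pr_case (pr_subr 433 10000 h1) (pr_mul (cv3m_s.snd h1) (pr_norm (pr_case (pr_subr 1 50 h1) (pr_add (pr_addc (pr_scaleT 151 200 h1) (enc_rat _ 3127 50000)) (pr_cmul (enc_norm (l3q0_4.enc h1.l h2)) (pr_norm (pr_csub (enc_rat _ 1189 10000) (pr_scaleT 281 100 h1))))) (pr_add (pr_add (pr_addc (pr_scaleT 175972417 233000000 h1) (enc_rat _ 728533583 11650000000)) (pr_cmul (enc_norm (l3q0_4.enc h1.l h2)) (pr_norm (pr_addc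 (pr_scaleT 1705453 1165000 h1) (enc_rat _ 973411 29125000))))) (pr_cmul (l3q0_28.enc h1.l h2) (pr_norm (pr_subr 4077 46600 (pr_scaleT 4077 932 h1)))))))) (pr_case (pr_subr 819 10000 h1) (pr_add (l3q0_80_s.snd h1 h2) (pr_mul (pr_norm (pr_mul (pr_norm (pr_sub (pr_sub (qsg_s.snd (pr_norm (l3q0_65_s.snd h1 h2))) (pr_mul (pr_norm (pr_nat 2 (pr_subc (l3q0_65_s.snd h1 h2) h2))) (pr_norm (pr_mul (esg_s.snd (pr_norm (l3q0_65_s.snd h1 h2))) (kcg_s.snd (pr_norm (pr_sub (pr_scaleT 3 4 (l3q0_65_s.snd h1 h2)) (pr_half (gsg_s.snd (pr_norm (l3q0_65_s.snd h1 h2)))))) h2))))) (l3q0_80_s.snd h1 h2))) (pr_norm (pr_sub (cv3m_s.snd h1) (cv2m_s.snd h1))))) (pr_nd (pr_inv (pr_sub (pr_addc (swg_s.snd h1) (enc_rat _ 1 2)) (cv2m_s.snd h1)))))) (pr_mul (cv3m_s.snd h1) (pr_norm (pr_case (pr_subr 1 5 h1) (pr_add (pr_add (pr_csub (enc_rat _ 351195493 2952500000) (pr_scaleT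 53111093 590500000 h1)) (pr_cmul (enc_norm (l3q0_4.enc h1.l h2)) (pr_norm (pr_csub (enc_rat _ 4717071 11810000) (pr_scaleT 3364157 1181000 h1))))) (pr_cmul (l3q0_28.enc h1.l h2) (pr_norm (pr_subr 1794 147625 (pr_scaleT 1794 29525 h1))))) (pr_add (pr_csub (enc_rat _ 8923 75000) (pr_scaleT 1351 15000 h1)) (pr_cmul (enc_norm (l3q0_4.enc h1.l h2)) (pr_norm (pr_subr 6377 30000 (pr_scaleT 317 1500 h1)))))))))))⟩
noncomputable def kc3q0_30_s : Sl2 kc3q0_30 := ⟨_, fun h1 h2 => (pr_csub (enc_pnc _ 1) h1)⟩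
noncomputable def kc3q0_31_s : Sl2 kc3q0_31 := ⟨_, fun h1 h2 => (gsg_s.snd (pr_norm (kc3q0_30_s.snd h1 h2)))⟩
noncomputable def kc3q0_35_s : Sl2 kc3q0_35 := ⟨_, fun h1 h2 => (esg_s.snd (pr_norm (kc3q0_30_s.snd h1 h2)))⟩
noncomputable def kc3q0_39_s : Sl2 kc3q0_39 := ⟨_, fun h1 h2 => (gug_s.snd (pr_norm (kc3q0_30_s.snd h1 h2)))⟩
noncomputable def kc3q0_41_s : Sl2 kc3q0_41 := ⟨_, fun h1 h2 => (pr_mul (pr_norm (kc3q0_30_s.snd h1 h2)) (pr_nd (pr_inv (kc3q0_31_s.snd h1 h2))))⟩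
noncomputable def kc3q0_42_s : Sl2 kc3q0_42 := ⟨_, fun h1 h2 => (pr_scaleT 3 4 (kc3q0_41_s.snd h1 h2))⟩
noncomputable def kc3q0_72_s : Sl2 kc3q0_72 := ⟨_, fun h1 h2 => (pr_mul (cv2m_s.snd h1) (bd2q0_s.snd h1 h2))⟩
noncomputable def kc3q0_s : Sl2 kc3q0 := ⟨_, fun h1 h2 => (pr_norm (pr_case (pr_subr 433 10000 h1) (pr_mul (cv3m_s.snd h1) (pr_norm (pr_add (pr_subr 579 1250 (pr_neg (pr_scaleT 1098466347 54125000 h1))) (pr_cmul (enc_norm (kc3q0_4.enc h1.l h2)) (pr_norm (pr_csub (enc_rat _ 71 10) (pr_scaleT 2740930891 43300000 h1))))))) (pr_case (pr_subr 819 10000 h1) (pr_add (kc3q0_72_s.snd h1 h2) (pr_mul (pr_norm (pr_mul (pr_norm (pr_sub (pr_add (pr_sub (pr_neg (pr_add (pr_cadd (enc_rat _ 3 4) (pr_scaleT 3 2 (kc3q0_30_s.snd h1 h2))) (pr_scaleT 3 4 (pr_mul (pr_norm (kc3q0_41_s.snd h1 h2)) (kc3q0_39_s.snd h1 h2))))) (pr_wT (pr_mul (pr_norm (pr_sub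 (pr_mul (pr_norm (pr_mul (pr_norm (kc3q0_42_s.snd h1 h2)) (pr_norm (pr_subn 3 (pr_nat 4 (kc3q0_31_s.snd h1 h2)))))) (kc3q0_35_s.snd h1 h2)) (pr_mul (qsg_s.snd (pr_norm (kc3q0_30_s.snd h1 h2))) (pr_norm (pr_csub (enc_rat _ 1 2) (kc3q0_42_s.snd h1 h2)))))) (pr_nd (pr_inv (pr_mul (pr_nd (pr_nat 2 (kc3q0_35_s.snd h1 h2))) (kc3q0_35_s.snd h1 h2))))) (kc3q0_30_s.snd h1 h2) (kc3q0_31_s.snd h1 h2) (kc3q0_35_s.snd h1 h2) rfl rfl rfl rfl rfl rfl rfl rfl)) (pr_mul (kcg_s.snd (pr_norm (pr_sub (pr_scaleT 3 4 (kc3q0_30_s.snd h1 h2)) (pr_half (kc3q0_31_s.snd h1 h2)))) h2) (pr_norm (pr_cadd (enc_pnc _ 1) (pr_add (kc3q0_39_s.snd h1 h2) (pr_nat 2 (kc3q0_31_s.snd h1 h2))))))) (kc3q0_72_s.snd h1 h2))) (pr_norm (pr_sub (cv3m_s.snd h1) (cv2m_s.snd h1))))) (pr_nd (pr_inv (pr_sub (pr_addc (swg_s.snd h1) (enc_rat _ 1 2)) (cv2m_s.snd h1)))))) (pr_mul (cv3m_s.snd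 h1) (pr_norm (pr_add (pr_csub (enc_rat _ 157655019 8362000000) (pr_scaleT 79052219 4181000000 h1)) (pr_cmul (enc_norm (kc3q0_4.enc h1.l h2)) (pr_norm (pr_subr 15990951 26131250 (pr_scaleT 15989577 26131250 h1))))))))))⟩
noncomputable def bf3q1_s : Sl2 bf3q1 := ⟨_, fun h1 h2 => (pr_norm (pr_case (pr_subr 17 20 h1) (pr_add (pr_subr 343379 700000 (pr_scaleT 52169 35000 h1)) (pr_cmul (enc_norm (bf3q1_3.enc h1.l h2)) (pr_norm (pr_subr 348221 35000 (pr_scaleT 17411 1750 h1))))) (pr_case (pr_subr 24 25 h1) (pr_add (pr_subr 269799 550000 (pr_scaleT 4099 2750 h1)) (pr_cmul (enc_norm (bf3q1_3.enc h1.l h2)) (pr_norm (pr_subr 273601 27500 (pr_scaleT 2736 275 h1))))) (pr_add (pr_subr 981 2000 (pr_scaleT 2981 2000 h1)) (pr_cmul (enc_norm (bf3q1_3.enc h1.l h2)) (pr_norm (pr_subr 199 20 (pr_scaleT 199 20 h1))))))))⟩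
noncomputable def kf3q1_s : Sl2 kf3q1 := ⟨_, fun h1 h2 => (pr_norm (pr_mul (cv3m_s.snd h1) (bf3q1_s.snd h1 h2)))⟩
noncomputable def bx3q1_s : Sl2 bx3q1 := ⟨_, fun h1 h2 => (pr_norm (pr_case (pr_subr 17 20 h1) (pr_add (pr_csub (enc_rat _ 51759 350000) (pr_scaleT 647 4375 h1)) (pr_cmul (enc_norm (bx3q1_3.enc h1.l h2)) (pr_norm (pr_subr 2129 10000 (pr_scaleT 53 250 h1))))) (pr_case (pr_subr 24 25 h1) (pr_add (pr_csub (enc_rat _ 162693 1100000) (pr_scaleT 1627 11000 h1)) (pr_cmul (enc_norm (bx3q1_3.enc h1.l h2)) (pr_norm (pr_subr 23997 110000 (pr_scaleT 12 55 h1))))) (pr_add (pr_csub (enc_rat _ 591 4000) (pr_scaleT 591 4000 h1)) (pr_cmul (enc_norm (bx3q1_3.enc h1.l h2)) (pr_norm (pr_subr 87 400 (pr_scaleT 87 400 h1))))))))⟩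
noncomputable def l3q1_s : Sl2 l3q1 := ⟨_, fun h1 h2 => (pr_norm (pr_mul (cv3m_s.snd h1) (bx3q1_s.snd h1 h2)))⟩
noncomputable def bd3q1_s : Sl2 bd3q1 := ⟨_, fun h1 h2 => (pr_norm (pr_case (pr_subr 9 10 h1) (pr_add (pr_csub (enc_rat _ 751 40000) (pr_scaleT 3 160 h1)) (pr_cmul (enc_norm (bd3q1_3.enc h1.l h2)) (pr_norm (pr_subr 2449 4000 (pr_scaleT 49 80 h1))))) (pr_case (pr_subr 9567 10000 h1) (pr_add (pr_csub (enc_rat _ 12197 630000) (pr_scaleT 11 567 h1)) (pr_cmul (enc_norm (bd3q1_3.enc h1.l h2)) (pr_norm (pr_subr 5549 9000 (pr_scaleT 50 81 h1))))) (pr_add (pr_csub (enc_rat _ 8 433) (pr_scaleT 8 433 h1)) (pr_cmul (enc_norm (bd3q1_3.enc h1.l h2)) (pr_norm (pr_subr 260 433 (pr_scaleT 260 433 h1))))))))⟩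
noncomputable def kc3q1_s : Sl2 kc3q1 := ⟨_, fun h1 h2 => (pr_norm (pr_mul (cv3m_s.snd h1) (bd3q1_s.snd h1 h2)))⟩
noncomputable def cv3p_s : Sl1 cv3p := ⟨_, fun h1 => (pr_norm (pr_add (pr_scaleT 8907 10000 (pr_subr 1 2 (swg_s.snd h1))) (pr_scaleT 1093 10000 (c3g_s.snd h1))))⟩
noncomputable def bf3q2_15_s : Sl2 bf3q2_15 := ⟨_, fun h1 h2 => (pr_cmul (enc_norm (bf3q2_3.enc h1.l h2)) (pr_norm (pr_subr 328267 10000 (pr_scaleT 6853 250 h1))))⟩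
noncomputable def bf3q2_s : Sl2 bf3q2 := ⟨_, fun h1 h2 => (pr_norm (pr_case (pr_subr 577 500 h1) (pr_case (pr_subr 21 20 h1) (pr_add (pr_addc (pr_scaleT 248 625 h1) (enc_rat _ 26609 50000)) (bf3q2_15_s.snd h1 h2)) (pr_add (pr_addc (pr_scaleT 2063 5200 h1) (enc_rat _ 1383857 2600000)) (pr_cmul (enc_norm (bf3q2_3.enc h1.l h2)) (pr_norm (pr_subr 1313089 40000 (pr_scaleT 2193 80 h1)))))) (pr_case (pr_subr 231 200 h1) (pr_add (pr_addc (pr_scaleT 39 100 h1) (enc_rat _ 27001 50000)) (pr_cmul (enc_norm (bf3q2_3.enc h1.l h2)) (pr_norm (pr_subr 20508 625 (pr_scaleT 137 5 h1))))) (pr_case (pr_subr 13 10 h1) (pr_add (pr_addc (pr_scaleT 5753 14500 h1) (enc_rat _ 77171 145000)) (pr_cmul (enc_norm (bf3q2_3.enc h1.l h2)) (pr_norm (pr_subr 9519639 290000 (pr_scaleT 39747 1450 h1))))) (pr_add (pr_addc (pr_scaleT 1587 4000 h1) (enc_rat _ 21289 40000)) (bf3q2_15_s.snd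 h1 h2))))))⟩
noncomputable def kf3q2_s : Sl2 kf3q2 := ⟨_, fun h1 h2 => (pr_norm (pr_mul (cv3p_s.snd h1) (bf3q2_s.snd h1 h2)))⟩
noncomputable def bx3q2_s : Sl2 bx3q2 := ⟨_, fun h1 h2 => (pr_norm (pr_case (pr_subr 577 500 h1) (pr_case (pr_subr 21 20 h1) (pr_add (pr_subr 42567 100000 (pr_scaleT 2641 5000 h1)) (pr_cmul (enc_norm (bx3q2_3.enc h1.l h2)) (pr_norm (pr_csub (enc_rat _ 19719 10000) (pr_scaleT 57 50 h1))))) (pr_add (pr_subr 2214387 5200000 (pr_scaleT 1099 2080 h1)) (pr_cmul (enc_norm (bx3q2_3.enc h1.l h2)) (pr_norm (pr_csub (enc_rat _ 1025073 520000) (pr_scaleT 237 208 h1)))))) (pr_case (pr_subr 231 200 h1) (pr_add (pr_subr 41619 100000 (pr_scaleT 13 25 h1)) (pr_cmul (enc_norm (bx3q2_3.enc h1.l h2)) (pr_norm (pr_csub (enc_rat _ 5103 2500) (pr_scaleT 6 5 h1))))) (pr_case (pr_subr 13 10 h1) (pr_add (pr_subr 38634 90625 (pr_scaleT 7667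 14500 h1)) (pr_cmul (enc_norm (bx3q2_3.enc h1.l h2)) (pr_norm (pr_csub (enc_rat _ 571389 290000) (pr_scaleT 1651 1450 h1))))) (pr_add (pr_subr 72497 100000 (pr_scaleT 1517 2000 h1)) (pr_cmul (enc_norm (bx3q2_3.enc h1.l h2)) (pr_norm (pr_csub (enc_rat _ 39507 20000) (pr_scaleT 457 400 h1)))))))))⟩
noncomputable def l3q2_s : Sl2 l3q2 := ⟨_, fun h1 h2 => (pr_norm (pr_mul (cv3p_s.snd h1) (bx3q2_s.snd h1 h2)))⟩
noncomputable def bd3q2_s : Sl2 bd3q2 := ⟨_, fun h1 h2 => (pr_norm (pr_case (pr_subr 10433 10000 h1) (pr_add (pr_subr 208301 4330000 (pr_scaleT 402 433 h1)) (pr_cmul (enc_norm (bd3q2_3.enc h1.l h2)) (pr_norm (pr_csub (enc_rat _ 108424063 433000) (pr_scaleT 51220 433 h1))))) (pr_case (pr_subr 231 200 h1) (pr_add (pr_subr 505737 11170000 (pr_scaleT 1034 1117 h1)) (pr_cmul (enc_norm (bd3q2_3.enc h1.l h2)) (pr_norm (pr_csub (enc_rat _ 139848971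 558500) (pr_scaleT 132130 1117 h1))))) (pr_add (pr_subr 2119 46000 (pr_scaleT 1598 1725 h1)) (pr_cmul (enc_norm (bd3q2_3.enc h1.l h2)) (pr_norm (pr_csub (enc_rat _ 719883 2875) (pr_scaleT 40808 345 h1))))))))⟩
noncomputable def kc3q2_s : Sl2 kc3q2 := ⟨_, fun h1 h2 => (pr_norm (pr_mul (cv3p_s.snd h1) (bd3q2_s.snd h1 h2)))⟩
noncomputable def ycg_s : Sl1 ycg := ⟨_, fun h1 => (pr_sqrtg (pr_scaleT 4 3 (pr_csub (enc_pnc _ 3) (pr_sq h1))))⟩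
noncomputable def xc33_s : Sl1 xc33 := ⟨_, fun h1 => (pr_norm (pr_add (pr_scaleT 8907 10000 (pr_subr 1 2 (swg_s.snd (pr_nd (ycg_s.snd h1))))) (pr_scaleT 1093 10000 h1)))⟩
noncomputable def kfc33_6_s : Sl2 kfc33_6 := ⟨_, fun h1 h2 => (pr_subr 1 2 (swg_s.snd (pr_nd (ycg_s.snd h1))))⟩
noncomputable def kfc33_9_s : Sl2 kfc33_9 := ⟨_, fun h1 h2 => (pr_add (pr_scaleT 8907 10000 (kfc33_6_s.snd h1 h2)) (pr_scaleT 1093 10000 h1))⟩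
noncomputable def kfc33_13_s : Sl2 kfc33_13 := ⟨_, fun h1 h2 => (pr_subr 9 5 (ycg_s.snd h1))⟩
noncomputable def kfc33_37_s : Sl2 kfc33_37 := ⟨_, fun h1 h2 => (pr_csub (enc_rat _ 122167917 500000000) h1)⟩
noncomputable def kfc33_61_s : Sl2 kfc33_61 := ⟨_, fun h1 h2 => (pr_subn 1 (ycg_s.snd h1))⟩
noncomputable def kfc33_62_s : Sl2 kfc33_62 := ⟨_, fun h1 h2 => (gsg_s.snd (pr_norm (kfc33_61_s.snd h1 h2)))⟩
noncomputable def kfc33_63_s : Sl2 kfc33_63 := ⟨_, fun h1 h2 => (pr_scaleT 3 4 (kfc33_61_s.snd h1 h2))⟩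
noncomputable def kfc33_64_s : Sl2 kfc33_64 := ⟨_, fun h1 h2 => (pr_half (kfc33_62_s.snd h1 h2))⟩
noncomputable def kfc33_66_s : Sl2 kfc33_66 := ⟨_, fun h1 h2 => (esg_s.snd (pr_norm (kfc33_61_s.snd h1 h2)))⟩
noncomputable def kfc33_67_s : Sl2 kfc33_67 := ⟨_, fun h1 h2 => (kcg_s.snd (pr_norm (pr_sub (kfc33_63_s.snd h1 h2) (kfc33_64_s.snd h1 h2))) h2)⟩
noncomputable def kfc33_69_s : Sl2 kfc33_69 := ⟨_, fun h1 h2 => (pr_subn 2 (ycg_s.snd h1))⟩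
noncomputable def kfc33_76_s : Sl2 kfc33_76 := ⟨_, fun h1 h2 => (pr_sub (pr_sub (kfc33_64_s.snd h1 h2) (kfc33_63_s.snd h1 h2)) (pr_csub (enc_rat _ 1 4) (pr_scaleT 3 8 (pr_mul (pr_norm (kfc33_61_s.snd h1 h2)) (pr_nd (pr_inv (kfc33_62_s.snd h1 h2)))))))⟩
noncomputable def kfc33_82_s : Sl2 kfc33_82 := ⟨_, fun h1 h2 => (cv2r_s.snd (pr_nd (ycg_s.snd h1)))⟩
noncomputable def kfc33_88_s : Sl2 kfc33_88 := ⟨_, fun h1 h2 => (pr_csub (enc_rat _ 40087 4000) (pr_scaleT 15377 3000 (ycg_s.snd h1)))⟩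
noncomputable def kfc33_139_s : Sl2 kfc33_139 := ⟨_, fun h1 h2 => (pr_mul (kfc33_82_s.snd h1 h2) (pr_norm (pr_case (pr_subr 48 25 (ycg_s.snd h1)) (pr_case (kfc33_13_s.snd h1 h2) (pr_add (kfc33_88_s.snd h1 h2) (pr_cmul (enc_norm (kfc33_11.enc h1.l h2)) (pr_norm (pr_subr 29429 500 (pr_scaleT 7139 250 (ycg_s.snd h1)))))) (pr_add (kfc33_88_s.snd h1 h2) (pr_cmul (enc_norm (kfc33_11.enc h1.l h2)) (pr_norm (pr_subr 36787 625 (pr_scaleT 8567 300 (ycg_s.snd h1))))))) (pr_case (pr_subr 49 25 (ycg_s.snd h1)) (pr_add (pr_csub (enc_rat _ 1002191 100000) (pr_scaleT 20503 4000 (ycg_s.snd h1))) (pr_cmul (enc_norm (kfc33_11.enc h1.l h2)) (pr_norm (pr_subr 7357 125 (pr_scaleT 5711 200 (ycg_s.snd h1)))))) (pr_case (kfc33_37_s.snd h1 h2) (pr_add (pr_subr 1766793757339 3344597500000 (pr_scaleT 5865200 4013517 h1)) (pr_cmul (enc_norm (kfc33_11.enc h1.l h2))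 (pr_norm (pr_subr 27210221687 334459750000 (pr_neg (pr_scaleT 32684000 4013517 h1)))))) (pr_add (pr_subr 6603 12500 (pr_scaleT 178525000 122167917 h1)) (pr_cmul (enc_norm (kfc33_11.enc h1.l h2)) (pr_norm (pr_subr 809 10000 (pr_neg (pr_scaleT 331700000 40722639 h1)))))))))))⟩
noncomputable def kfc33_s : Sl2 kfc33 := ⟨_, fun h1 h2 => (pr_norm (pr_case (pr_subr 19181 10000 (ycg_s.snd h1)) (pr_mul (pr_norm (kfc33_9_s.snd h1 h2)) (pr_norm (pr_case (kfc33_13_s.snd h1 h2) (pr_add (pr_subr 6539 4000 (pr_scaleT 21643 30000 (ycg_s.snd h1))) (pr_cmul (enc_norm (kfc33_11.enc h1.l h2)) (pr_norm (pr_csub (enc_rat _ 540183 5000) (pr_scaleT 165577 3000 (ycg_s.snd h1)))))) (pr_add (pr_subr 1930338373 1181000000 (pr_scaleT 170369067 236200000 (ycg_s.snd h1))) (pr_cmul (enc_norm (kfc33_11.enc h1.l h2)) (pr_norm (pr_csub (enc_rat _ 15948971109 147625000) (pr_scaleT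 1629561201 29525000 (ycg_s.snd h1))))))))) (pr_case (pr_subr 19567 10000 (ycg_s.snd h1)) (pr_add (kfc33_139_s.snd h1 h2) (pr_mul (pr_norm (pr_mul (pr_norm (pr_sub (pr_wB3 (pr_mul (pr_norm (kfc33_69_s.snd h1 h2)) (pr_norm (pr_add (pr_mul (pr_norm (kfc33_76_s.snd h1 h2)) (pr_nd (pr_inv (kfc33_66_s.snd h1 h2)))) (kfc33_67_s.snd h1 h2)))) (kfc33_61_s.snd h1 h2) (kfc33_62_s.snd h1 h2) (kfc33_66_s.snd h1 h2) (kfc33_69_s.snd h1 h2) (kfc33_76_s.snd h1 h2) (kfc33_67_s.snd h1 h2) (ycg_s.snd h1) rfl rfl rfl rfl rfl rfl rfl rfl rfl rfl) (kfc33_139_s.snd h1 h2))) (pr_norm (pr_sub (kfc33_9_s.snd h1 h2) (kfc33_82_s.snd h1 h2))))) (pr_nd (pr_inv (pr_sub (kfc33_6_s.snd h1 h2) (kfc33_82_s.snd h1 h2)))))) (pr_mul (pr_norm (kfc33_9_s.snd h1 h2)) (pr_norm (pr_case (kfc33_37_s.snd h1 h2) (pr_add (pr_subr 134065796251563 11887971875000000 (pr_neg (pr_scaleT 13441244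 95103775 h1))) (pr_cmul (enc_norm (kfc33_11.enc h1.l h2)) (pr_norm (pr_subr 235246893866342037 9510377500000000 (pr_scaleT 1394672361 19020755 h1))))) (pr_sub (pr_csub (enc_rat _ 1 2) (pr_scaleT 272905000 122167917 h1)) (pr_cmul (enc_norm (kfc33_11.enc h1.l h2)) (pr_nd (pr_scaleT 378900000 13574213 h1))))))))))⟩
noncomputable def lc33_6_s : Sl2 lc33_6 := ⟨_, fun h1 h2 => (pr_subr 1 2 (swg_s.snd (pr_nd (ycg_s.snd h1))))⟩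
noncomputable def lc33_9_s : Sl2 lc33_9 := ⟨_, fun h1 h2 => (pr_add (pr_scaleT 8907 10000 (lc33_6_s.snd h1 h2)) (pr_scaleT 1093 10000 h1))⟩
noncomputable def lc33_13_s : Sl2 lc33_13 := ⟨_, fun h1 h2 => (pr_subr 9 5 (ycg_s.snd h1))⟩
noncomputable def lc33_44_s : Sl2 lc33_44 := ⟨_, fun h1 h2 => (pr_csub (enc_rat _ 122167917 500000000) h1)⟩
noncomputable def lc33_72_s : Sl2 lc33_72 := ⟨_, fun h1 h2 => (pr_subn 1 (ycg_s.snd h1))⟩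
noncomputable def lc33_85_s : Sl2 lc33_85 := ⟨_, fun h1 h2 => (cv2r_s.snd (pr_nd (ycg_s.snd h1)))⟩
noncomputable def lc33_142_s : Sl2 lc33_142 := ⟨_, fun h1 h2 => (pr_mul (lc33_85_s.snd h1 h2) (pr_norm (pr_case (pr_subr 48 25 (ycg_s.snd h1)) (pr_case (lc33_13_s.snd h1 h2) (pr_add (pr_subr 15849 10000 (pr_scaleT 38251 30000 (ycg_s.snd h1))) (pr_cmul (enc_norm (lc33_11.enc h1.l h2)) (pr_norm (pr_subr 1959 1000 (pr_scaleT 1223 1000 (ycg_s.snd h1)))))) (pr_add (pr_subr 158499 100000 (pr_scaleT 15301 12000 (ycg_s.snd h1))) (pr_cmul (enc_norm (lc33_11.enc h1.l h2)) (pr_norm (pr_subr 12873 5000 (pr_scaleT 313 200 (ycg_s.snd h1))))))) (pr_case (pr_subr 49 25 (ycg_s.snd h1)) (pr_add (pr_subr 158483 100000 (pr_scaleT 51 40 (ycg_s.snd h1))) (pr_cmul (enc_norm (lc33_11.enc h1.l h2)) (pr_norm (pr_subr 124929 5000 (pr_scaleT 1059 80 (ycg_s.snd h1))))))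 (pr_case (lc33_44_s.snd h1 h2) (pr_add (pr_addc (pr_scaleT 683600 4013517 h1) (enc_rat _ 1430590772599 1672298750000)) (pr_cmul (enc_norm (lc33_11.enc h1.l h2)) (pr_norm (pr_csub (enc_rat _ 982065291837 334459750000) (pr_scaleT 7672000 1337839 h1))))) (pr_add (pr_addc (pr_scaleT 6935000 40722639 h1) (enc_rat _ 85547 100000)) (pr_cmul (enc_norm (lc33_11.enc h1.l h2)) (pr_norm (pr_csub (enc_rat _ 7339 2500) (pr_scaleT 700250000 122167917 h1))))))))))⟩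
noncomputable def lc33_s : Sl2 lc33 := ⟨_, fun h1 h2 => (pr_norm (pr_case (pr_subr 19181 10000 (ycg_s.snd h1)) (pr_mul (pr_norm (lc33_9_s.snd h1 h2)) (pr_norm (pr_case (lc33_13_s.snd h1 h2) (pr_add (pr_subr 93527 100000 (pr_scaleT 8987 10000 (ycg_s.snd h1))) (pr_cmul (enc_norm (lc33_11.enc h1.l h2)) (pr_norm (pr_csub (enc_rat _ 20071 10000) (pr_scaleT 3491 3000 (ycg_s.snd h1)))))) (pr_add (pr_add (pr_subr 5522339861 5905000000 (pr_scaleT 1061316979 1181000000 (ycg_s.snd h1))) (pr_cmul (enc_norm (lc33_11.enc h1.l h2)) (pr_norm (pr_subr 18431348519 590500000 (pr_scaleT 2042186641 118100000 (ycg_s.snd h1)))))) (pr_cmul (lc33_38.enc h1.l h2) (pr_norm (pr_csub (enc_rat _ 194877 295250) (pr_scaleT 21653 59050 (ycg_s.snd h1))))))))) (pr_case (pr_subr 19567 10000 (ycg_s.snd h1)) (pr_add (lc33_142_s.snd h1 h2) (pr_mul (pr_norm (pr_mul (pr_norm (pr_sub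 (pr_sub (qsg_s.snd (pr_norm (lc33_72_s.snd h1 h2))) (pr_mul (pr_norm (pr_nat 2 (pr_subc (lc33_72_s.snd h1 h2) h2))) (pr_norm (pr_mul (esg_s.snd (pr_norm (lc33_72_s.snd h1 h2))) (kcg_s.snd (pr_norm (pr_sub (pr_scaleT 3 4 (lc33_72_s.snd h1 h2)) (pr_half (gsg_s.snd (pr_norm (lc33_72_s.snd h1 h2)))))) h2))))) (lc33_142_s.snd h1 h2))) (pr_norm (pr_sub (lc33_9_s.snd h1 h2) (lc33_85_s.snd h1 h2))))) (pr_nd (pr_inv (pr_sub (lc33_6_s.snd h1 h2) (lc33_85_s.snd h1 h2)))))) (pr_mul (pr_norm (lc33_9_s.snd h1 h2)) (pr_norm (pr_case (lc33_44_s.snd h1 h2) (pr_add (pr_add (pr_csub (enc_rat _ 1217203950910943 1485996484375000) (pr_scaleT 3470528 95103775 h1)) (pr_cmul (enc_norm (lc33_11.enc h1.l h2)) (pr_norm (pr_addc (pr_scaleT 6785717 57062265 h1) (enc_rat _ 19472917612752837 9510377500000000))))) (pr_cmul (lc33_38.enc h1.l h2) (pr_norm (pr_subr 29120229754593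 19020755000000 (pr_scaleT 71508700 11412453 h1))))) (pr_add (pr_addc (pr_scaleT 145987750 366503751 h1) (enc_rat _ 4277249 6000000)) (pr_cmul (enc_norm (lc33_11.enc h1.l h2)) (pr_norm (pr_csub (enc_rat _ 210709 75000) (pr_scaleT 1099280000 366503751 h1)))))))))))⟩
noncomputable def kcc33_6_s : Sl2 kcc33_6 := ⟨_, fun h1 h2 => (pr_subr 1 2 (swg_s.snd (pr_nd (ycg_s.snd h1))))⟩
noncomputable def kcc33_9_s : Sl2 kcc33_9 := ⟨_, fun h1 h2 => (pr_add (pr_scaleT 8907 10000 (kcc33_6_s.snd h1 h2)) (pr_scaleT 1093 10000 h1))⟩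
noncomputable def kcc33_34_s : Sl2 kcc33_34 := ⟨_, fun h1 h2 => (pr_subn 1 (ycg_s.snd h1))⟩
noncomputable def kcc33_35_s : Sl2 kcc33_35 := ⟨_, fun h1 h2 => (gsg_s.snd (pr_norm (kcc33_34_s.snd h1 h2)))⟩
noncomputable def kcc33_39_s : Sl2 kcc33_39 := ⟨_, fun h1 h2 => (esg_s.snd (pr_norm (kcc33_34_s.snd h1 h2)))⟩
noncomputable def kcc33_44_s : Sl2 kcc33_44 := ⟨_, fun h1 h2 => (gug_s.snd (pr_norm (kcc33_34_s.snd h1 h2)))⟩
noncomputable def kcc33_46_s : Sl2 kcc33_46 := ⟨_, fun h1 h2 => (pr_mul (pr_norm (kcc33_34_s.snd h1 h2)) (pr_nd (pr_inv (kcc33_35_s.snd h1 h2))))⟩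
noncomputable def kcc33_47_s : Sl2 kcc33_47 := ⟨_, fun h1 h2 => (pr_scaleT 3 4 (kcc33_46_s.snd h1 h2))⟩
noncomputable def kcc33_73_s : Sl2 kcc33_73 := ⟨_, fun h1 h2 => (cv2r_s.snd (pr_nd (ycg_s.snd h1)))⟩
noncomputable def kcc33_87_s : Sl2 kcc33_87 := ⟨_, fun h1 h2 => (pr_subr 19567 10000 (ycg_s.snd h1))⟩
noncomputable def kcc33_109_s : Sl2 kcc33_109 := ⟨_, fun h1 h2 => (pr_mul (kcc33_73_s.snd h1 h2) (pr_norm (pr_case (pr_subr 47 25 (ycg_s.snd h1)) (pr_add (pr_subr 281919 19000 (pr_scaleT 7048 475 (ycg_s.snd h1))) (pr_cmul (enc_norm (kcc33_11.enc h1.l h2)) (pr_norm (pr_csub (enc_rat _ 453541 9500) (pr_scaleT 9071 190 (ycg_s.snd h1)))))) (pr_case (kcc33_87_s.snd h1 h2) (pr_add (pr_subr 56906271 3835000 (pr_scaleT 11381 767 (ycg_s.snd h1))) (pr_cmul (enc_norm (kcc33_11.enc h1.l h2)) (pr_norm (pr_csub (enc_rat _ 18310431 383500) (pr_scaleT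 36620 767 (ycg_s.snd h1)))))) (pr_add (pr_addc (pr_scaleT 3213275000 89615091 h1) (enc_rat _ 839 625)) (pr_cmul (enc_norm (kcc33_11.enc h1.l h2)) (pr_norm (pr_subr 5249 50 (pr_scaleT 4942000000 29871697 h1)))))))))⟩
noncomputable def kcc33_s : Sl2 kcc33 := ⟨_, fun h1 h2 => (pr_norm (pr_case (pr_subr 19181 10000 (ycg_s.snd h1)) (pr_mul (pr_norm (kcc33_9_s.snd h1 h2)) (pr_norm (pr_add (pr_subr 378379541 8362000000 (pr_scaleT 3870908847 4181000000 (ycg_s.snd h1))) (pr_cmul (enc_norm (kcc33_11.enc h1.l h2)) (pr_norm (pr_csub (enc_rat _ 335012963 1337920) (pr_scaleT 1978230137 16724000 (ycg_s.snd h1)))))))) (pr_case (kcc33_87_s.snd h1 h2) (pr_add (kcc33_109_s.snd h1 h2) (pr_mul (pr_norm (pr_mul (pr_norm (pr_sub (pr_add (pr_sub (pr_add (pr_cadd (enc_rat _ 3 4) (pr_scaleT 3 2 (kcc33_34_s.snd h1 h2))) (pr_scaleT 3 4 (pr_mul (pr_norm (kcc33_46_s.snd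 h1 h2)) (kcc33_44_s.snd h1 h2)))) (pr_wT (pr_mul (pr_norm (pr_sub (pr_mul (pr_norm (pr_mul (pr_norm (kcc33_47_s.snd h1 h2)) (pr_norm (pr_subn 3 (pr_nat 4 (kcc33_35_s.snd h1 h2)))))) (kcc33_39_s.snd h1 h2)) (pr_mul (qsg_s.snd (pr_norm (kcc33_34_s.snd h1 h2))) (pr_norm (pr_csub (enc_rat _ 1 2) (kcc33_47_s.snd h1 h2)))))) (pr_nd (pr_inv (pr_mul (pr_nd (pr_nat 2 (kcc33_39_s.snd h1 h2))) (kcc33_39_s.snd h1 h2))))) (kcc33_34_s.snd h1 h2) (kcc33_35_s.snd h1 h2) (kcc33_39_s.snd h1 h2) rfl rfl rfl rfl rfl rfl rfl rfl)) (pr_mul (kcg_s.snd (pr_norm (pr_sub (pr_scaleT 3 4 (kcc33_34_s.snd h1 h2)) (pr_half (kcc33_35_s.snd h1 h2)))) h2) (pr_norm (pr_csub (enc_pnc _ 1) (pr_add (kcc33_44_s.snd h1 h2) (pr_nat 2 (kcc33_35_s.snd h1 h2))))))) (kcc33_109_s.snd h1 h2))) (pr_norm (pr_sub (kcc33_9_s.snd h1 h2) (kcc33_73_s.snd h1 h2))))) (pr_nd (pr_inv (pr_sub (kcc33_6_s.snd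 h1 h2) (kcc33_73_s.snd h1 h2)))))) (pr_mul (pr_norm (kcc33_9_s.snd h1 h2)) (pr_norm (pr_add (pr_addc (pr_scaleT 8133043644523 598628807880 h1) (enc_rat _ 17111 3340)) (pr_cmul (enc_norm (kcc33_11.enc h1.l h2)) (pr_norm (pr_subr 11091 334 (pr_scaleT 8203480732931 59862880788 h1))))))))))⟩
noncomputable def cv4m_s : Sl1 cv4m := ⟨_, fun h1 => (pr_norm (pr_add (pr_scaleT 3 10 (pr_addc (swg_s.snd h1) (enc_rat _ 1 2))) (pr_scaleT 7 10 (c3g_s.snd h1))))⟩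
noncomputable def bf4q0_12_s : Sl2 bf4q0_12 := ⟨_, fun h1 h2 => (pr_scaleT 2551 100 h1)⟩
noncomputable def bf4q0_33_s : Sl2 bf4q0_33 := ⟨_, fun h1 h2 => (pr_csub (enc_rat _ 4773 20000) (pr_scaleT 1609 4000 h1))⟩
noncomputable def bf4q0_45_s : Sl2 bf4q0_45 := ⟨_, fun h1 h2 => (pr_cmul (enc_norm (bf4q0_3.enc h1.l h2)) (pr_norm (pr_subr 37591 30000 (pr_scaleT 15307 600 h1))))⟩
noncomputable def bf4q0_s : Sl2 bf4q0 := ⟨_, fun h1 h2 => (pr_norm (pr_case (pr_subr 1 25 h1) (pr_case (pr_subr 1 50 h1) (pr_add (pr_csub (enc_rat _ 4773 20000) (pr_scaleT 201 500 h1)) (pr_cmul (enc_norm (bf4q0_3.enc h1.l h2)) (pr_norm (pr_subr 1253 1000 (bf4q0_12_s.snd h1 h2))))) (pr_add (pr_csub (enc_rat _ 11933 50000) (pr_scaleT 161 400 h1)) (pr_cmul (enc_norm (bf4q0_3.enc h1.l h2)) (pr_norm (pr_subr 12531 10000 (pr_scaleT 5103 200 h1)))))) (pr_case (pr_subr 2 25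 h1) (pr_add (bf4q0_33_s.snd h1 h2) (pr_cmul (enc_norm (bf4q0_3.enc h1.l h2)) (pr_norm (pr_subr 12529 10000 (bf4q0_12_s.snd h1 h2))))) (pr_case (pr_subr 1 5 h1) (pr_add (bf4q0_33_s.snd h1 h2) (bf4q0_45_s.snd h1 h2)) (pr_add (pr_csub (enc_rat _ 35797 150000) (pr_scaleT 12067 30000 h1)) (bf4q0_45_s.snd h1 h2))))))⟩
noncomputable def kf4q0_s : Sl2 kf4q0 := ⟨_, fun h1 h2 => (pr_norm (pr_mul (cv4m_s.snd h1) (bf4q0_s.snd h1 h2)))⟩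
noncomputable def bx4q0_16_s : Sl2 bx4q0_16 := ⟨_, fun h1 h2 => (pr_cmul (enc_norm (bx4q0_3.enc h1.l h2)) (pr_norm (pr_csub (enc_rat _ 652 625) (pr_scaleT 209 200 h1))))⟩
noncomputable def bx4q0_s : Sl2 bx4q0 := ⟨_, fun h1 h2 => (pr_norm (pr_case (pr_subr 1 25 h1) (pr_case (pr_subr 1 50 h1) (pr_add (pr_csub (enc_rat _ 826 3125) (pr_scaleT 529 2000 h1)) (bx4q0_16_s.snd h1 h2)) (pr_add (pr_csub (enc_rat _ 26431 100000) (pr_scaleT 33 125 h1)) (bx4q0_16_s.snd h1 h2))) (pr_case (pr_subr 2 25 h1) (pr_add (pr_csub (enc_rat _ 826 3125) (pr_scaleT 1057 4000 h1)) (bx4q0_16_s.snd h1 h2)) (pr_case (pr_subr 1 5 h1) (pr_add (pr_csub (enc_rat _ 39647 150000) (pr_scaleT 317 1200 h1)) (pr_cmul (enc_norm (bx4q0_3.enc h1.l h2)) (pr_norm (pr_csub (enc_rat _ 15649 15000) (pr_scaleT 251 240 h1))))) (pr_add (pr_csub (enc_rat _ 826 3125) (pr_scaleT 1321 5000 h1))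 (pr_cmul (enc_norm (bx4q0_3.enc h1.l h2)) (pr_norm (pr_csub (enc_rat _ 31291 30000) (pr_scaleT 1567 1500 h1)))))))))⟩
noncomputable def l4q0_s : Sl2 l4q0 := ⟨_, fun h1 h2 => (pr_norm (pr_mul (cv4m_s.snd h1) (bx4q0_s.snd h1 h2)))⟩
noncomputable def bd4q0_s : Sl2 bd4q0 := ⟨_, fun h1 h2 => (pr_norm (pr_case (pr_subr 433 10000 h1) (pr_add (pr_csub (enc_rat _ 8847 1000) (pr_scaleT 3830 433 h1)) (pr_cmul (enc_norm (bd4q0_3.enc h1.l h2)) (pr_norm (pr_csub (enc_rat _ 106837 1000) (pr_scaleT 46260 433 h1))))) (pr_case (pr_subr 7 50 h1) (pr_add (pr_csub (enc_rat _ 17110239 1934000) (pr_scaleT 8555 967 h1)) (pr_cmul (enc_norm (bd4q0_3.enc h1.l h2)) (pr_norm (pr_csub (enc_rat _ 2582784 24175) (pr_scaleT 103310 967 h1))))) (pr_add (pr_csub (enc_rat _ 9953 1125) (pr_scaleT 637 72 h1)) (pr_cmul (enc_norm (bd4q0_3.enc h1.l h2)) (pr_norm (pr_csub (enc_rat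 _ 1923067 18000) (pr_scaleT 38461 360 h1))))))))⟩
noncomputable def kc4q0_s : Sl2 kc4q0 := ⟨_, fun h1 h2 => (pr_norm (pr_mul (cv4m_s.snd h1) (bd4q0_s.snd h1 h2)))⟩
noncomputable def bf4q1_s : Sl2 bf4q1 := ⟨_, fun h1 h2 => (pr_norm (pr_case (pr_subr 17 20 h1) (pr_add (pr_subr 16803 28000 (pr_scaleT 14001 8750 h1)) (pr_cmul (enc_norm (bf4q1_3.enc h1.l h2)) (pr_norm (pr_subr 116463 35000 (pr_scaleT 5823 1750 h1))))) (pr_case (pr_subr 24 25 h1) (pr_add (pr_subr 20628 34375 (pr_scaleT 17601 11000 h1)) (pr_cmul (enc_norm (bf4q1_3.enc h1.l h2)) (pr_norm (pr_subr 366097 110000 (pr_scaleT 3661 1100 h1))))) (pr_add (pr_subr 3 5 (pr_scaleT 8 5 h1)) (pr_cmul (enc_norm (bf4q1_3.enc h1.l h2)) (pr_norm (pr_subr 1331 400 (pr_scaleT 1331 400 h1))))))))⟩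
noncomputable def kf4q1_s : Sl2 kf4q1 := ⟨_, fun h1 h2 => (pr_norm (pr_mul (cv4m_s.snd h1) (bf4q1_s.snd h1 h2)))⟩
noncomputable def bx4q1_s : Sl2 bx4q1 := ⟨_, fun h1 h2 => (pr_norm (pr_case (pr_subr 17 20 h1) (pr_add (pr_csub (enc_rat _ 13221 50000) (pr_scaleT 661 2500 h1)) (pr_cmul (enc_norm (bx4q1_3.enc h1.l h2)) (pr_norm (pr_csub (enc_rat _ 72969 70000) (pr_scaleT 913 875 h1))))) (pr_case (pr_subr 24 25 h1) (pr_add (pr_csub (enc_rat _ 145499 550000) (pr_scaleT 291 1100 h1)) (pr_cmul (enc_norm (bx4q1_3.enc h1.l h2)) (pr_norm (pr_csub (enc_rat _ 11409 11000) (pr_scaleT 1141 1100 h1))))) (pr_add (pr_csub (enc_rat _ 529 2000) (pr_scaleT 529 2000 h1)) (pr_cmul (enc_norm (bx4q1_3.enc h1.l h2)) (pr_norm (pr_csub (enc_rat _ 207 200) (pr_scaleT 207 200 h1))))))))⟩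
noncomputable def l4q1_s : Sl2 l4q1 := ⟨_, fun h1 h2 => (pr_norm (pr_mul (cv4m_s.snd h1) (bx4q1_s.snd h1 h2)))⟩
noncomputable def bd4q1_s : Sl2 bd4q1 := ⟨_, fun h1 h2 => (pr_norm (pr_case (pr_subr 9 10 h1) (pr_add (pr_csub (enc_rat _ 8847 1000) (pr_scaleT 8847 1000 h1)) (pr_cmul (enc_norm (bd4q1_3.enc h1.l h2)) (pr_norm (pr_csub (enc_rat _ 427351 4000) (pr_scaleT 8547 80 h1))))) (pr_case (pr_subr 9567 10000 h1) (pr_add (pr_csub (enc_rat _ 1857787 210000) (pr_scaleT 1672 189 h1)) (pr_cmul (enc_norm (bd4q1_3.enc h1.l h2)) (pr_norm (pr_csub (enc_rat _ 1682773 15750) (pr_scaleT 60580 567 h1))))) (pr_add (pr_csub (enc_rat _ 3831 433) (pr_scaleT 3831 433 h1)) (pr_cmul (enc_norm (bd4q1_3.enc h1.l h2)) (pr_norm (pr_csub (enc_rat _ 46260 433) (pr_scaleT 46260 433 h1))))))))⟩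
noncomputable def kc4q1_s : Sl2 kc4q1 := ⟨_, fun h1 h2 => (pr_norm (pr_mul (cv4m_s.snd h1) (bd4q1_s.snd h1 h2)))⟩
noncomputable def cv4p_s : Sl1 cv4p := ⟨_, fun h1 => (pr_norm (pr_add (pr_scaleT 3 10 (pr_subr 1 2 (swg_s.snd h1))) (pr_scaleT 7 10 (c3g_s.snd h1))))⟩
noncomputable def bf4q2_s : Sl2 bf4q2 := ⟨_, fun h1 h2 => (pr_norm (pr_case (pr_subr 577 500 h1) (pr_case (pr_subr 21 20 h1) (pr_add (pr_subr 149777 50000 (pr_scaleT 16383 5000 h1)) (pr_cmul (enc_norm (bf4q2_3.enc h1.l h2)) (pr_norm (pr_subr 422817 5000 (pr_scaleT 7277 100 h1))))) (pr_add (pr_subr 15575947 5200000 (pr_scaleT 1363 416 h1)) (pr_cmul (enc_norm (bf4q2_3.enc h1.l h2)) (pr_norm (pr_subr 43972023 520000 (pr_scaleT 75679 1040 h1)))))) (pr_case (pr_subr 231 200 h1) (pr_add (pr_subr 74987 25000 (pr_scaleT 82 25 h1)) (pr_cmul (enc_norm (bf4q2_3.enc h1.l h2)) (pr_norm (pr_subr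 422991 5000 (pr_scaleT 364 5 h1))))) (pr_case (pr_subr 13 10 h1) (pr_add (pr_subr 108581 36250 (pr_scaleT 11877 3625 h1)) (pr_cmul (enc_norm (bf4q2_3.enc h1.l h2)) (pr_norm (pr_subr 24522621 290000 (pr_scaleT 105513 1450 h1))))) (pr_add (pr_subr 59909 20000 (pr_scaleT 6553 2000 h1)) (pr_cmul (enc_norm (bf4q2_3.enc h1.l h2)) (pr_norm (pr_subr 845613 10000 (pr_scaleT 9096 125 h1)))))))))⟩
noncomputable def kf4q2_s : Sl2 kf4q2 := ⟨_, fun h1 h2 => (pr_norm (pr_mul (cv4p_s.snd h1) (bf4q2_s.snd h1 h2)))⟩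
noncomputable def bx4q2_s : Sl2 bx4q2 := ⟨_, fun h1 h2 => (pr_norm (pr_case (pr_subr 577 500 h1) (pr_case (pr_subr 21 20 h1) (pr_add (pr_subr 19387 50000 (pr_scaleT 203 625 h1)) (pr_cmul (enc_norm (bx4q2_3.enc h1.l h2)) (pr_norm (pr_csub (enc_rat _ 49 500) (pr_scaleT 223 500 h1))))) (pr_add (pr_subr 201629 520000 (pr_scaleT 1689 5200 h1)) (pr_cmul (enc_norm (bx4q2_3.enc h1.l h2)) (pr_norm (pr_csub (enc_rat _ 23947 260000) (pr_scaleT 229 520 h1)))))) (pr_case (pr_subr 231 200 h1) (pr_add (pr_subr 1911 5000 (pr_scaleT 8 25 h1)) (pr_cmul (enc_norm (bx4q2_3.enc h1.l h2)) (pr_norm (pr_csub (enc_rat _ 91 2000) (pr_scaleT 2 5 h1))))) (pr_case (pr_subr 13 10 h1) (pr_add (pr_subr 225141 580000 (pr_scaleT 943 2900 h1)) (pr_cmul (enc_norm (bx4q2_3.enc h1.l h2)) (pr_norm (pr_csub (enc_rat _ 5341 290000) (pr_scaleT 273 725 h1))))) (pr_add (pr_subr 64847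 100000 (pr_scaleT 2627 5000 h1)) (pr_cmul (enc_norm (bx4q2_3.enc h1.l h2)) (pr_norm (pr_subr 131999 20000 (pr_scaleT 9429 2000 h1)))))))))⟩
noncomputable def l4q2_s : Sl2 l4q2 := ⟨_, fun h1 h2 => (pr_norm (pr_mul (cv4p_s.snd h1) (bx4q2_s.snd h1 h2)))⟩
noncomputable def bd4q2_s : Sl2 bd4q2 := ⟨_, fun h1 h2 => (pr_norm (pr_case (pr_subr 10433 10000 h1) (pr_add (pr_subr 6105089 541250 (pr_scaleT 4405 433 h1)) (pr_cmul (enc_norm (bd4q2_3.enc h1.l h2)) (pr_norm (pr_csub (enc_rat _ 36478274 54125) (pr_scaleT 243060 433 h1))))) (pr_case (pr_subr 231 200 h1) (pr_add (pr_subr 25199743 2234000 (pr_scaleT 11364 1117 h1)) (pr_cmul (enc_norm (bd4q2_3.enc h1.l h2)) (pr_norm (pr_csub (enc_rat _ 752810739 1117000) (pr_scaleT 627010 1117 h1))))) (pr_add (pr_subr 324301 28750 (pr_scaleT 35099 3450 h1)) (pr_cmul (enc_norm (bd4q2_3.enc h1.l h2)) (pr_norm (pr_csub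 (enc_rat _ 673957 1000) (pr_scaleT 1684 3 h1))))))))⟩
noncomputable def kc4q2_s : Sl2 kc4q2 := ⟨_, fun h1 h2 => (pr_norm (pr_mul (cv4p_s.snd h1) (bd4q2_s.snd h1 h2)))⟩
noncomputable def xc43_s : Sl1 xc43 := ⟨_, fun h1 => (pr_norm (pr_add (pr_scaleT 3 10 (pr_subr 1 2 (swg_s.snd (pr_nd (ycg_s.snd h1))))) (pr_scaleT 7 10 h1)))⟩
noncomputable def kfc43_29_s : Sl2 kfc43_29 := ⟨_, fun h1 h2 => (pr_subr 492509 100000 (pr_scaleT 10543 4000 (ycg_s.snd h1)))⟩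
noncomputable def kfc43_s : Sl2 kfc43 := ⟨_, fun h1 h2 => (pr_norm (pr_mul (pr_norm (pr_add (pr_scaleT 3 10 (pr_subr 1 2 (swg_s.snd (pr_nd (ycg_s.snd h1))))) (pr_scaleT 7 10 h1))) (pr_norm (pr_case (pr_subr 48 25 (ycg_s.snd h1)) (pr_case (pr_subr 9 5 (ycg_s.snd h1)) (pr_add (pr_subr 246259 50000 (pr_scaleT 13179 5000 (ycg_s.snd h1))) (pr_cmul (enc_norm (kfc43_11.enc h1.l h2)) (pr_norm (pr_subr 2459 250 (pr_scaleT 1792 375 (ycg_s.snd h1)))))) (pr_add (kfc43_29_s.snd h1 h2) (pr_cmul (enc_norm (kfc43_11.enc h1.l h2)) (pr_norm (pr_subr 49177 5000 (pr_scaleT 2867 600 (ycg_s.snd h1))))))) (pr_case (pr_subr 49 25 (ycg_s.snd h1)) (pr_add (kfc43_29_s.snd h1 h2) (pr_cmul (enc_norm (kfc43_11.enc h1.l h2)) (pr_norm (pr_subr 49193 5000 (pr_scaleT 239 50 (ycg_s.snd h1)))))) (pr_case (pr_csub (enc_rat _ 122167917 500000000) h1) (pr_add (pr_csub (enc_rat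 _ 167226115317 334459750000) (pr_scaleT 3016000 4013517 h1)) (pr_cmul (enc_norm (kfc43_11.enc h1.l h2)) (pr_norm (pr_subr 72847699 334459750000 (pr_neg (pr_scaleT 5468000 4013517 h1)))))) (pr_sub (pr_csub (enc_rat _ 1 2) (pr_scaleT 91810000 122167917 h1)) (pr_cmul (enc_norm (kfc43_11.enc h1.l h2)) (pr_nd (pr_scaleT 166550000 122167917 h1))))))))))⟩
noncomputable def lc43_s : Sl2 lc43 := ⟨_, fun h1 h2 => (pr_norm (pr_mul (pr_norm (pr_add (pr_scaleT 3 10 (pr_subr 1 2 (swg_s.snd (pr_nd (ycg_s.snd h1))))) (pr_scaleT 7 10 h1))) (pr_norm (pr_case (pr_subr 48 25 (ycg_s.snd h1)) (pr_case (pr_subr 9 5 (ycg_s.snd h1)) (pr_add (pr_subr 158857 100000 (pr_scaleT 8641 7500 (ycg_s.snd h1))) (pr_cmul (enc_norm (lc43_11.enc h1.l h2)) (pr_norm (pr_subr 33561 5000 (pr_scaleT 1796 375 (ycg_s.snd h1)))))) (pr_add (pr_subr 158863 100000 (pr_scaleT 6913 6000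 (ycg_s.snd h1))) (pr_cmul (enc_norm (lc43_11.enc h1.l h2)) (pr_norm (pr_subr 16791 2500 (pr_scaleT 115 24 (ycg_s.snd h1))))))) (pr_case (pr_subr 49 25 (ycg_s.snd h1)) (pr_add (pr_subr 158831 100000 (pr_scaleT 144 125 (ycg_s.snd h1))) (pr_cmul (enc_norm (lc43_11.enc h1.l h2)) (pr_norm (pr_subr 3359 500 (pr_scaleT 1917 400 (ycg_s.snd h1)))))) (pr_case (pr_csub (enc_rat _ 122167917 500000000) h1) (pr_add (pr_csub (enc_rat _ 636670062811 836149375000) (pr_scaleT 356400 1337839 h1)) (pr_cmul (enc_norm (lc43_11.enc h1.l h2)) (pr_norm (pr_csub (enc_rat _ 942345147917 334459750000) (pr_scaleT 552000 1337839 h1))))) (pr_add (pr_csub (enc_rat _ 4277249 6000000) (pr_scaleT 24802250 366503751 h1)) (pr_cmul (enc_norm (lc43_11.enc h1.l h2)) (pr_norm (pr_csub (enc_rat _ 210709 75000) (pr_scaleT 139130000 366503751 h1)))))))))))⟩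
noncomputable def kcc43_s : Sl2 kcc43 := ⟨_, fun h1 h2 => (pr_norm (pr_mul (pr_norm (pr_add (pr_scaleT 3 10 (pr_subr 1 2 (swg_s.snd (pr_nd (ycg_s.snd h1))))) (pr_scaleT 7 10 h1))) (pr_norm (pr_case (pr_subr 47 25 (ycg_s.snd h1)) (pr_add (pr_subr 2143149 190000 (pr_scaleT 38659 3800 (ycg_s.snd h1))) (pr_cmul (enc_norm (kcc43_11.enc h1.l h2)) (pr_norm (pr_csub (enc_rat _ 1600651 2375) (pr_scaleT 213307 380 (ycg_s.snd h1)))))) (pr_case (pr_subr 19567 10000 (ycg_s.snd h1)) (pr_add (pr_subr 86515279 7670000 (pr_scaleT 7803 767 (ycg_s.snd h1))) (pr_cmul (enc_norm (kcc43_11.enc h1.l h2)) (pr_norm (pr_csub (enc_rat _ 2067679 3068) (pr_scaleT 430540 767 (ycg_s.snd h1)))))) (pr_add (pr_addc (pr_scaleT 146273050000 14965720197 h1) (enc_rat _ 17111 3340)) (pr_cmul (enc_norm (kcc43_11.enc h1.l h2)) (pr_norm (pr_subr 11091 334 (pr_neg (pr_scaleT 5444164000000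 4988573399 h1)))))))))))⟩
noncomputable def kf5q0_s : Sl2 kf5q0 := ⟨_, fun h1 h2 => (pr_norm (pr_sub (pr_mul h1 (kcg_s.snd (pr_nd (pr_half h1)) h2)) (pr_mul (pr_norm (pr_mul (pr_nd (pr_sq h1)) (pr_norm (pr_addc (c3g_s.snd h1) (enc_rat _ 3 2))))) (pr_nd (pr_inv (pr_mul (pr_norm (pr_csub (enc_pnc _ 1) h1)) (pr_norm (pr_cadd (enc_pnc _ 1) h1))))))))⟩
noncomputable def l5q0_6_s : Sl2 l5q0_6 := ⟨_, fun h1 h2 => (pr_half h1)⟩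
noncomputable def l5q0_7_s : Sl2 l5q0_7 := ⟨_, fun h1 h2 => (pr_half (c3g_s.snd h1))⟩
noncomputable def l5q0_8_s : Sl2 l5q0_8 := ⟨_, fun h1 h2 => (pr_scaleT 1 4 h1)⟩
noncomputable def l5q0_s : Sl2 l5q0 := ⟨_, fun h1 h2 => (pr_norm (pr_add (txg_s.snd (pr_nd (l5q0_6_s.snd h1 h2)) (pr_norm (pr_sub (l5q0_7_s.snd h1 h2) (l5q0_8_s.snd h1 h2))) h2) (txg_s.snd (pr_nd (pr_neg (l5q0_6_s.snd h1 h2))) (pr_norm (pr_add (l5q0_7_s.snd h1 h2) (l5q0_8_s.snd h1 h2))) h2)))⟩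
noncomputable def kc5q0_6_s : Sl2 kc5q0_6 := ⟨_, fun h1 h2 => (pr_half h1)⟩
noncomputable def kc5q0_s : Sl2 kc5q0 := ⟨_, fun h1 h2 => (pr_norm (pr_case (pr_subr 167 1000 (kc5q0_6_s.snd h1 h2)) (pr_add (pr_subr 23187 2000 (pr_scaleT 18022 835 h1)) (pr_cmul (enc_norm (kc5q0_3.enc h1.l h2)) (pr_norm (pr_subr 251301 1000 (pr_neg (pr_scaleT 20773 167 h1)))))) (pr_case (pr_subr 333 1000 (kc5q0_6_s.snd h1 h2)) (pr_add (pr_subr 9622577 830000 (pr_scaleT 8957 415 h1)) (pr_cmul (enc_norm (kc5q0_3.enc h1.l h2)) (pr_norm (pr_subr 10428959 41500 (pr_neg (pr_scaleT 20649 166 h1)))))) (pr_add (pr_csub (enc_rat _ 27809 3340) (pr_scaleT 27809 3340 h1)) (pr_cmul (enc_norm (kc5q0_3.enc h1.l h2)) (pr_norm (pr_subr 334145 334 (pr_scaleT 334145 334 h1))))))))⟩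
noncomputable def kf5q1_s : Sl2 kf5q1 := ⟨_, fun h1 h2 => (pr_norm (pr_add (pr_mul (pr_norm (pr_mul h1 (pr_norm (pr_addc (c3g_s.snd h1) (enc_rat _ 3 2))))) (pr_nd (pr_inv (pr_cadd (enc_pnc _ 1) h1)))) (pr_mul (pr_norm (pr_subn 1 h1)) (kcg_s.snd (pr_nd (pr_half h1)) h2))))⟩
noncomputable def l5q1_7_s : Sl2 l5q1_7 := ⟨_, fun h1 h2 => (pr_half h1)⟩
noncomputable def l5q1_8_s : Sl2 l5q1_8 := ⟨_, fun h1 h2 => (pr_half (c3g_s.snd h1))⟩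
noncomputable def l5q1_9_s : Sl2 l5q1_9 := ⟨_, fun h1 h2 => (pr_scaleT 1 4 h1)⟩
noncomputable def l5q1_s : Sl2 l5q1 := ⟨_, fun h1 h2 => (pr_norm (pr_add (txg_s.snd (pr_nd (l5q1_7_s.snd h1 h2)) (pr_norm (pr_sub (l5q1_8_s.snd h1 h2) (l5q1_9_s.snd h1 h2))) h2) (txg_s.snd (pr_nd (pr_neg (l5q1_7_s.snd h1 h2))) (pr_norm (pr_add (l5q1_8_s.snd h1 h2) (l5q1_9_s.snd h1 h2))) h2)))⟩
noncomputable def kc5q1_7_s : Sl2 kc5q1_7 := ⟨_, fun h1 h2 => (pr_half h1)⟩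
noncomputable def kc5q1_s : Sl2 kc5q1 := ⟨_, fun h1 h2 => (pr_norm (pr_case (pr_subr 167 1000 (kc5q1_7_s.snd h1 h2)) (pr_add (pr_subr 23187 2000 (pr_scaleT 18022 835 h1)) (pr_cmul (enc_norm (kc5q1_3.enc h1.l h2)) (pr_norm (pr_subr 251301 1000 (pr_neg (pr_scaleT 20773 167 h1)))))) (pr_case (pr_subr 333 1000 (kc5q1_7_s.snd h1 h2)) (pr_add (pr_subr 9622577 830000 (pr_scaleT 8957 415 h1)) (pr_cmul (enc_norm (kc5q1_3.enc h1.l h2)) (pr_norm (pr_subr 10428959 41500 (pr_neg (pr_scaleT 20649 166 h1)))))) (pr_add (pr_csub (enc_rat _ 27809 3340) (pr_scaleT 27809 3340 h1)) (pr_cmul (enc_norm (kc5q1_3.enc h1.l h2)) (pr_norm (pr_subr 334145 334 (pr_scaleT 334145 334 h1))))))))⟩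
noncomputable def kf5q2_s : Sl2 kf5q2 := ⟨_, fun h1 h2 => (pr_norm (pr_add (pr_mul (pr_norm (pr_mul (pr_norm (pr_sub (pr_nat 2 (c3g_s.snd h1)) h1)) (pr_norm (pr_sub (pr_addc (c3g_s.snd h1) (enc_pnc _ 3)) (pr_scaleT 3 2 h1))))) (pr_nd (pr_inv (pr_nat 4 (pr_csub (enc_pnc _ 2) h1))))) (pr_mul (pr_norm (pr_subn 1 h1)) (kcg_s.snd (pr_norm (pr_sub (pr_scaleT 1 4 h1) (pr_half (c3g_s.snd h1)))) h2))))⟩
noncomputable def l5q2_7_s : Sl2 l5q2_7 := ⟨_, fun h1 h2 => (pr_half (c3g_s.snd h1))⟩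
noncomputable def l5q2_8_s : Sl2 l5q2_8 := ⟨_, fun h1 h2 => (pr_scaleT 1 4 h1)⟩
noncomputable def l5q2_9_s : Sl2 l5q2_9 := ⟨_, fun h1 h2 => (pr_sub (l5q2_7_s.snd h1 h2) (l5q2_8_s.snd h1 h2))⟩
noncomputable def l5q2_12_s : Sl2 l5q2_12 := ⟨_, fun h1 h2 => (pr_add (pr_scaleT 1 4 (c3g_s.snd h1)) (pr_scaleT 3 8 h1))⟩
noncomputable def l5q2_14_s : Sl2 l5q2_14 := ⟨_, fun h1 h2 => (pr_half (l5q2_9_s.snd h1 h2))⟩
noncomputable def l5q2_s : Sl2 l5q2 := ⟨_, fun h1 h2 => (pr_norm (pr_sub (pr_nat 2 (txg_s.snd (pr_norm (pr_sub (l5q2_8_s.snd h1 h2) (l5q2_7_s.snd h1 h2))) (pr_norm (pr_add (l5q2_12_s.snd h1 h2) (l5q2_14_s.snd h1 h2))) h2)) (txg_s.snd (pr_norm (l5q2_9_s.snd h1 h2)) (pr_norm (pr_sub (l5q2_12_s.snd h1 h2) (l5q2_14_s.snd h1 h2))) h2)))⟩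
noncomputable def kc5q2_9_s : Sl2 kc5q2_9 := ⟨_, fun h1 h2 => (pr_sub (pr_half (c3g_s.snd h1)) (pr_scaleT 1 4 h1))⟩
noncomputable def kc5q2_48_s : Sl2 kc5q2_48 := ⟨_, fun h1 h2 => (pr_add (pr_csub (enc_rat _ 2499 10000) (pr_scaleT 3664 835 (kc5q2_9_s.snd h1 h2))) (pr_cmul (enc_norm (kc5q2_3.enc h1.l h2)) (pr_norm (pr_subr 17981 250 (pr_neg (pr_scaleT 30508 167 (kc5q2_9_s.snd h1 h2)))))))⟩
noncomputable def kc5q2_s : Sl2 kc5q2 := ⟨_, fun h1 h2 => (pr_norm (pr_case (kc5q2_9_s.snd h1 h2) (pr_case (pr_addc (kc5q2_9_s.snd h1 h2) (enc_rat _ 333 1000)) (pr_add (pr_addc (pr_scaleT 17111 1670 (kc5q2_9_s.snd h1 h2)) (enc_rat _ 17111 3340)) (pr_cmul (enc_norm (kc5q2_3.enc h1.l h2)) (pr_norm (pr_subr 11091 334 (pr_neg (pr_scaleT 11091 167 (kc5q2_9_s.snd h1 h2))))))) (pr_case (pr_addc (kc5q2_9_s.snd h1 h2) (enc_rat _ 167 1000)) (pr_add (pr_csub (enc_rat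 _ 207427 830000) (pr_scaleT 1821 415 (kc5q2_9_s.snd h1 h2))) (pr_cmul (enc_norm (kc5q2_3.enc h1.l h2)) (pr_norm (pr_subr 11939331 166000 (pr_neg (pr_scaleT 30325 166 (kc5q2_9_s.snd h1 h2))))))) (kc5q2_48_s.snd h1 h2))) (pr_case (pr_subr 167 1000 (kc5q2_9_s.snd h1 h2)) (kc5q2_48_s.snd h1 h2) (pr_case (pr_subr 333 1000 (kc5q2_9_s.snd h1 h2)) (pr_add (pr_csub (enc_rat _ 414981 1660000) (pr_scaleT 1457 332 (kc5q2_9_s.snd h1 h2))) (pr_cmul (enc_norm (kc5q2_3.enc h1.l h2)) (pr_norm (pr_subr 1193927 16600 (pr_neg (pr_scaleT 15163 83 (kc5q2_9_s.snd h1 h2))))))) (pr_add (pr_subr 6057 1670 (pr_scaleT 6057 835 (kc5q2_9_s.snd h1 h2))) (pr_cmul (enc_norm (kc5q2_3.enc h1.l h2)) (pr_norm (pr_subr 66379 167 (pr_scaleT 132758 167 (kc5q2_9_s.snd h1 h2))))))))))⟩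
noncomputable def kfc53_s : Sl2 kfc53 := ⟨_, fun h1 h2 => (pr_norm (pr_sub (pr_mul (pr_norm (pr_subn 2 (ycg_s.snd h1))) (kcg_s.snd (pr_norm (pr_sub (pr_scaleT 1 4 (ycg_s.snd h1)) (pr_half h1))) h2)) (pr_mul (pr_norm (pr_mul (pr_norm (pr_sub (pr_nat 2 h1) (ycg_s.snd h1))) (pr_norm (pr_sub (pr_addc h1 (enc_pnc _ 3)) (pr_scaleT 3 2 (ycg_s.snd h1)))))) (pr_nd (pr_inv (pr_nat 4 (pr_subn 1 (ycg_s.snd h1))))))))⟩
noncomputable def lc53_7_s : Sl2 lc53_7 := ⟨_, fun h1 h2 => (pr_half h1)⟩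
noncomputable def lc53_8_s : Sl2 lc53_8 := ⟨_, fun h1 h2 => (pr_scaleT 1 4 (ycg_s.snd h1))⟩
noncomputable def lc53_9_s : Sl2 lc53_9 := ⟨_, fun h1 h2 => (pr_sub (lc53_7_s.snd h1 h2) (lc53_8_s.snd h1 h2))⟩
noncomputable def lc53_12_s : Sl2 lc53_12 := ⟨_, fun h1 h2 => (pr_add (pr_scaleT 1 4 h1) (pr_scaleT 3 8 (ycg_s.snd h1)))⟩
noncomputable def lc53_14_s : Sl2 lc53_14 := ⟨_, fun h1 h2 => (pr_half (lc53_9_s.snd h1 h2))⟩
noncomputable def lc53_s : Sl2 lc53 := ⟨_, fun h1 h2 => (pr_norm (pr_sub (pr_nat 2 (txg_s.snd (pr_norm (pr_sub (lc53_8_s.snd h1 h2) (lc53_7_s.snd h1 h2))) (pr_norm (pr_add (lc53_12_s.snd h1 h2) (lc53_14_s.snd h1 h2))) h2)) (txg_s.snd (pr_norm (lc53_9_s.snd h1 h2)) (pr_norm (pr_sub (lc53_12_s.snd h1 h2) (lc53_14_s.snd h1 h2))) h2)))⟩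
noncomputable def kcc53_9_s : Sl2 kcc53_9 := ⟨_, fun h1 h2 => (pr_sub (pr_half h1) (pr_scaleT 1 4 (ycg_s.snd h1)))⟩
noncomputable def kcc53_48_s : Sl2 kcc53_48 := ⟨_, fun h1 h2 => (pr_add (pr_csub (enc_rat _ 2499 10000) (pr_scaleT 3664 835 (kcc53_9_s.snd h1 h2))) (pr_cmul (enc_norm (kcc53_4.enc h1.l h2)) (pr_norm (pr_subr 17981 250 (pr_neg (pr_scaleT 30508 167 (kcc53_9_s.snd h1 h2)))))))⟩
noncomputable def kcc53_s : Sl2 kcc53 := ⟨_, fun h1 h2 => (pr_norm (pr_case (kcc53_9_s.snd h1 h2) (pr_case (pr_addc (kcc53_9_s.snd h1 h2) (enc_rat _ 333 1000)) (pr_add (pr_addc (pr_scaleT 17111 1670 (kcc53_9_s.snd h1 h2)) (enc_rat _ 17111 3340)) (pr_cmul (enc_norm (kcc53_4.enc h1.l h2)) (pr_norm (pr_subr 11091 334 (pr_neg (pr_scaleT 11091 167 (kcc53_9_s.snd h1 h2))))))) (pr_case (pr_addc (kcc53_9_s.snd h1 h2) (enc_rat _ 167 1000)) (pr_add (pr_csub (enc_rat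 _ 207427 830000) (pr_scaleT 1821 415 (kcc53_9_s.snd h1 h2))) (pr_cmul (enc_norm (kcc53_4.enc h1.l h2)) (pr_norm (pr_subr 11939331 166000 (pr_neg (pr_scaleT 30325 166 (kcc53_9_s.snd h1 h2))))))) (kcc53_48_s.snd h1 h2))) (pr_case (pr_subr 167 1000 (kcc53_9_s.snd h1 h2)) (kcc53_48_s.snd h1 h2) (pr_case (pr_subr 333 1000 (kcc53_9_s.snd h1 h2)) (pr_add (pr_csub (enc_rat _ 414981 1660000) (pr_scaleT 1457 332 (kcc53_9_s.snd h1 h2))) (pr_cmul (enc_norm (kcc53_4.enc h1.l h2)) (pr_norm (pr_subr 1193927 16600 (pr_neg (pr_scaleT 15163 83 (kcc53_9_s.snd h1 h2))))))) (pr_add (pr_subr 6057 1670 (pr_scaleT 6057 835 (kcc53_9_s.snd h1 h2))) (pr_cmul (enc_norm (kcc53_4.enc h1.l h2)) (pr_norm (pr_subr 66379 167 (pr_scaleT 132758 167 (kcc53_9_s.snd h1 h2))))))))))⟩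
noncomputable def gB0q0 : Gn := ⟨ndB0q0, c1g_s, kf0q0_s, l0q0_s, false⟩
noncomputable def dB0q0 : CnW := ⟨cd0q0, kc0q0_s⟩
noncomputable def gB0q1 : Gn := ⟨ndB0q1, c1g_s, kf0q1_s, l0q1_s, false⟩
noncomputable def dB0q1 : CnW := ⟨cd0q1, kc0q1_s⟩
noncomputable def gB0q2 : Gn := ⟨ndB0q2, idf_s, kfc02_s, lc02_s, true⟩
noncomputable def dB0q2 : CnW := ⟨cd0q2, kcc02_s⟩
noncomputable def gB1q0 : Gn := ⟨ndB1q0, cv1m_s, kf1q0_s, l1q0_s, false⟩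
noncomputable def dB1q0 : CnW := ⟨cd1q0, kc1q0_s⟩
noncomputable def gB1q1 : Gn := ⟨ndB1q1, cv1m_s, kf1q1_s, l1q1_s, false⟩
noncomputable def dB1q1 : CnW := ⟨cd1q1, kc1q1_s⟩
noncomputable def gB1q2 : Gn := ⟨ndB1q2, cv1p_s, kf1q2_s, l1q2_s, false⟩
noncomputable def dB1q2 : CnW := ⟨cd1q2, kc1q2_s⟩
noncomputable def gB1q3 : Gn := ⟨ndB1q3, cv1r_s, kf1q3_s, l1q3_s, false⟩
noncomputable def dB1q3 : CnW := ⟨cd1q3, kc1q3_s⟩
noncomputable def gB2q0 : Gn := ⟨ndB2q0, cv2m_s, kf2q0_s, l2q0_s, false⟩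
noncomputable def dB2q0 : CnW := ⟨cd2q0, kc2q0_s⟩
noncomputable def gB2q1 : Gn := ⟨ndB2q1, cv2m_s, kf2q1_s, l2q1_s, false⟩
noncomputable def dB2q1 : CnW := ⟨cd2q1, kc2q1_s⟩
noncomputable def gB2q2 : Gn := ⟨ndB2q2, cv2p_s, kf2q2_s, l2q2_s, false⟩
noncomputable def dB2q2 : CnW := ⟨cd2q2, kc2q2_s⟩
noncomputable def gB2q3 : Gn := ⟨ndB2q3, cv2r_s, kf2q3_s, l2q3_s, false⟩
noncomputable def dB2q3 : CnW := ⟨cd2q3, kc2q3_s⟩
noncomputable def gB3q0 : Gn := ⟨ndB3q0, cv3m_s, kf3q0_s, l3q0_s, false⟩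
noncomputable def dB3q0 : CnW := ⟨cd3q0, kc3q0_s⟩
noncomputable def gB3q1 : Gn := ⟨ndB3q1, cv3m_s, kf3q1_s, l3q1_s, false⟩
noncomputable def dB3q1 : CnW := ⟨cd3q1, kc3q1_s⟩
noncomputable def gB3q2 : Gn := ⟨ndB3q2, cv3p_s, kf3q2_s, l3q2_s, false⟩
noncomputable def dB3q2 : CnW := ⟨cd3q2, kc3q2_s⟩
noncomputable def gB3q3 : Gn := ⟨ndB3q3, xc33_s, kfc33_s, lc33_s, false⟩
noncomputable def dB3q3 : CnW := ⟨cd3q3, kcc33_s⟩
noncomputable def gB4q0 : Gn := ⟨ndB4q0, cv4m_s, kf4q0_s, l4q0_s, false⟩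
noncomputable def dB4q0 : CnW := ⟨cd4q0, kc4q0_s⟩
noncomputable def gB4q1 : Gn := ⟨ndB4q1, cv4m_s, kf4q1_s, l4q1_s, false⟩
noncomputable def dB4q1 : CnW := ⟨cd4q1, kc4q1_s⟩
noncomputable def gB4q2 : Gn := ⟨ndB4q2, cv4p_s, kf4q2_s, l4q2_s, false⟩
noncomputable def dB4q2 : CnW := ⟨cd4q2, kc4q2_s⟩
noncomputable def gB4q3 : Gn := ⟨ndB4q3, xc43_s, kfc43_s, lc43_s, false⟩
noncomputable def dB4q3 : CnW := ⟨cd4q3, kcc43_s⟩
noncomputable def gB5q0 : Gn := ⟨ndB5q0, c3g_s, kf5q0_s, l5q0_s, false⟩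
noncomputable def dB5q0 : CnW := ⟨cd5q0, kc5q0_s⟩
noncomputable def gB5q1 : Gn := ⟨ndB5q1, c3g_s, kf5q1_s, l5q1_s, false⟩
noncomputable def dB5q1 : CnW := ⟨cd5q1, kc5q1_s⟩
noncomputable def gB5q2 : Gn := ⟨ndB5q2, c3g_s, kf5q2_s, l5q2_s, false⟩
noncomputable def dB5q2 : CnW := ⟨cd5q2, kc5q2_s⟩
noncomputable def gB5q3 : Gn := ⟨ndB5q3, idf_s, kfc53_s, lc53_s, false⟩
noncomputable def dB5q3 : CnW := ⟨cd5q3, kcc53_s⟩
noncomputable def gB0q3 : Gn := gz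
noncomputable def dB0q3 : CnW := ⟨fz2, fz2_s⟩
noncomputable def gB (j : Fin 6) (q : ℕ) : Gn :=
  match j, q with
  | 0, 0 => gB0q0
  | 0, 1 => gB0q1
  | 0, 2 => gB0q2
  | 0, 3 => gB0q3
  | 1, 0 => gB1q0
  | 1, 1 => gB1q1
  | 1, 2 => gB1q2
  | 1, 3 => gB1q3
  | 2, 0 => gB2q0
  | 2, 1 => gB2q1
  | 2, 2 => gB2q2
  | 2, 3 => gB2q3
  | 3, 0 => gB3q0
  | 3, 1 => gB3q1
  | 3, 2 => gB3q2
  | 3, 3 => gB3q3
  | 4, 0 => gB4q0
  | 4, 1 => gB4q1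
  | 4, 2 => gB4q2
  | 4, 3 => gB4q3
  | 5, 0 => gB5q0
  | 5, 1 => gB5q1
  | 5, 2 => gB5q2
  | 5, 3 => gB5q3
  | _, _ => gB0q0

noncomputable def dB (j : Fin 6) (q : ℕ) : CnW :=
  match j, q with
  | 0, 0 => dB0q0
  | 0, 1 => dB0q1
  | 0, 2 => dB0q2
  | 0, 3 => dB0q3
  | 1, 0 => dB1q0
  | 1, 1 => dB1q1
  | 1, 2 => dB1q2
  | 1, 3 => dB1q3
  | 2, 0 => dB2q0
  | 2, 1 => dB2q1
  | 2, 2 => dB2q2
  | 2, 3 => dB2q3
  | 3, 0 => dB3q0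
  | 3, 1 => dB3q1
  | 3, 2 => dB3q2
  | 3, 3 => dB3q3
  | 4, 0 => dB4q0
  | 4, 1 => dB4q1
  | 4, 2 => dB4q2
  | 4, 3 => dB4q3
  | 5, 0 => dB5q0
  | 5, 1 => dB5q1
  | 5, 2 => dB5q2
  | 5, 3 => dB5q3
  | _, _ => dB0q0

noncomputable def c0B : Fn1 := ⟨fun _ => pone, fun _ => 1, fun _ => enc_one _⟩

end Pool.Agent.Strip051.G.I9231_9500.Tab
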