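import Pool.Agent.Strip051.G.I9231_9500.MolD

/-! # The tight charts of a table: certificates (generated) -/

set_option linter.all false
set_option maxRecDepth 100000

namespace Pool.Agent.Strip051.G.I9231_9500.Tab.Mo

open Pool.Agent.Strip051.PB Pool.Agent.Strip051.PB.Mol Pool.Agent.Strip051.PB.T
open Pool.Agent.Strip051.G.I9231_9500.Tab

noncomputable def f0Ap : ℕ → ℕ → ℕ → ℕ → Bool :=
  onCell 0 92274688 0 2097152 991146299 28908434 (c0_Ap.row false 46137344)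

def h0_0Ap : ∃ t, chk3 f0Ap t 2 1 1 = true :=
  ⟨(a (c (l 7) (a (l 7) (c (l 16) (a (l 16) (l 16))))) (c (a (a (c (l 7) (l 16)) (c (l 16) (l 16))) (c (a (a (l 16) (c (l 8) (l 8))) (c (a (l 8) (l 10)) (a (l 8) (l 10)))) (a (a (l 16) (c (l 16) (l 16))) (c (a (l 8) (l 10)) (a (c (l 8) (l 8)) (l 10)))))) (a (a (c (l 16) (l 16)) (c (c (l 16) (l 16)) (c (l 16) (l 16)))) (c (a (a (l 16) (c (l 16) (l 16))) (c (a (c (l 8) (l 8)) (c (l 10) (l 10))) (a (a (l 16) (l 8)) (c (l 10) (l 10))))) (a (a (l 16) (c (l 16) (l 16))) (c (a (a (l 16) (c (l 8) (l 8))) (c (l 10) (l 10))) (a (a (l 16) (c (l 8) (l 8))) (c (a (l 8) (l 10)) (a (l 8) (l 10)))))))))), by decide +kernel⟩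

def h1_0Ap : ∃ t, chk3 f0Ap t 6 1 1 = true :=
  ⟨(c (a (a (c (c (l 10) (a (l 10) (l 2))) (c (a (l 10) (l 2)) (a (l 10) (l 2)))) (c (c (l 2) (l 2)) (c (a (l 2) (l 2)) (a (l 2) (l 2))))) (c (a (c (l 2) (a (l 2) (l 2))) (c (a (l 2) (l 2)) (a (l 2) (l 2)))) (a (c (a (l 2) (l 2)) (a (l 2) (l 2))) (c (a (l 2) (l 2)) (a (c (l 2) (l 2)) (c (l 2) (l 2))))))) (a (c (a (c (a (l 10) (l 2)) (a (c (l 10) (l 10)) (l 2))) (c (a (l 2) (l 2)) (a (l 2) (c (l 2) (l 2))))) (a (c (a (c (l 10) (l 10)) (c (l 2) (l 2))) (a (c (l 10) (l 10)) (c (l 2) (l 2)))) (c (a (c (l 2) (l 2)) (c (l 2) (l 2))) (a (c (l 2) (l 2)) (c (a (l 2) (l 2)) (a (l 2) (l 5))))))) (c (a (c (a (l 2) (c (l 2) (l 2))) (a (c (l 2) (l 2)) (c (l 2) (a (l 2) (l 2))))) (c (a (c (l 2) (l 2)) (c (a (l 2) (l 2)) (l 5))) (a (c (a (l 2) (l 5)) (l 5)) (l 5))))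 (a (c (a (c (l 2) (a (l 2) (l 5))) (c (a (l 2) (l 5)) (l 5))) (l 5)) (l 5))))), by decide +kernel⟩

def h2_0Ap : ∃ t, chk3 f0Ap t 7 1 1 = true :=
  ⟨(c (a (c (a (c (a (l 2) (l 2)) (a (l 2) (c (l 2) (l 2)))) (c (a (l 2) (c (l 2) (l 2))) (a (c (l 2) (l 2)) (c (a (l 2) (l 5)) (l 5))))) (a (c (a (c (l 2) (l 2)) (c (l 2) (a (l 2) (l 5)))) (a (c (l 2) (a (l 2) (l 5))) (l 5))) (c (a (c (a (l 2) (l 5)) (l 5)) (l 5)) (l 5)))) (c (a (c (a (c (l 2) (l 5)) (l 5)) (l 5)) (l 5)) (l 5))) (l 5)), by decide +kernel⟩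

theorem h3_0Ap : ∃ t, chk3 f0Ap t 3 1 1 = true := ex3_a h1_0Ap h2_0Ap

theorem h4_0Ap : ∃ t, chk3 f0Ap t 1 1 1 = true := ex3_a h0_0Ap h3_0Ap

theorem ct_0Ap : ∃ t, chk3 f0Ap t 1 1 1 = true := h4_0Ap

noncomputable def f0Apk1 : ℕ → ℕ → ℕ → ℕ → Bool :=
  onCell 0 92274688 0 2097152 991146299 28908434 (c0_Apk1.row false 46137344)

def h0_0Apk1 : ∃ t, chk3 f0Apk1 t 1 1 1 = true :=
  ⟨(a (a (c (l 7) (a (l 7) (c (l 16) (l 16)))) (c (a (c (l 8) (a (l 8) (l 8))) (c (a (l 8) (l 10)) (a (l 8) (l 10)))) (a (c (a (l 8) (l 8)) (a (l 8) (l 8))) (c (a (l 8) (l 10)) (a (l 8) (c (l 10) (l 10))))))) (a (c (a (a (c (l 10) (l 10)) (c (l 2) (l 2))) (c (a (l 2) (l 2)) (a (l 2) (c (l 2) (l 2))))) (a (c (a (l 10) (l 2)) (a (c (l 10) (l 10)) (c (l 2) (l 2)))) (c (a (c (l 2) (l 2)) (c (l 2) (a (l 2) (l 5)))) (a (c (a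 (l 2) (l 2)) (l 5)) (l 5))))) (c (a (c (a (c (l 2) (l 2)) (c (l 2) (a (l 2) (l 2)))) (a (c (l 2) (a (l 2) (l 5))) (c (a (l 2) (l 5)) (l 5)))) (c (a (c (a (l 2) (l 5)) (l 5)) (l 5)) (l 5))) (l 5)))), by decide +kernel⟩

theorem ct_0Apk1 : ∃ t, chk3 f0Apk1 t 1 1 1 = true := h0_0Apk1

noncomputable def f0Apk2 : ℕ → ℕ → ℕ → ℕ → Bool :=
  onCell 0 92274688 0 2097152 991146299 28908434 (c0_Apk2.row false 46137344)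

def h0_0Apk2 : ∃ t, chk3 f0Apk2 t 1 1 1 = true :=
  ⟨(a (a (c (l 7) (a (l 7) (c (l 8) (l 8)))) (c (a (c (l 8) (l 8)) (c (l 10) (l 10))) (a (c (l 8) (l 8)) (c (l 10) (a (l 8) (l 10)))))) (a (c (a (a (l 10) (l 2)) (c (l 2) (a (l 2) (l 2)))) (a (c (a (l 10) (l 2)) (a (l 10) (l 2))) (c (a (l 2) (c (l 2) (l 2))) (a (c (l 2) (l 5)) (l 5))))) (c (a (c (a (l 2) (l 2)) (a (l 2) (c (l 2) (l 5)))) (c (a (c (l 2) (l 5)) (l 5)) (l 5))) (l 5)))), by decide +kernel⟩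

theorem ct_0Apk2 : ∃ t, chk3 f0Apk2 t 1 1 1 = true := h0_0Apk2

noncomputable def f0Am : ℕ → ℕ → ℕ → ℕ → Bool :=
  onCell 0 92274688 0 2097152 991146299 28908434 (c0_Am.row true 46137344)

def h0_0Am : ∃ t, chk3 f0Am t 2 1 1 = true :=
  ⟨(a (c (l 7) (a (l 7) (c (l 16) (a (l 8) (l 8))))) (c (a (c (l 8) (l 8)) (c (a (l 8) (l 10)) (a (l 8) (c (l 10) (l 10))))) (a (c (a (l 8) (l 8)) (a (l 8) (l 8))) (c (a (l 8) (c (l 10) (l 10))) (a (c (l 8) (l 8)) (a (l 8) (c (l 10) (l 10)))))))), by decide +kernel⟩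

def h1_0Am : ∃ t, chk3 f0Am t 3 1 1 = true :=
  ⟨(a (c (a (c (a (a (l 10) (l 2)) (c (l 2) (l 2))) (a (a (c (l 10) (l 10)) (l 2)) (c (l 2) (l 2)))) (c (a (c (l 2) (a (l 2) (l 2))) (c (a (l 2) (l 2)) (a (l 2) (l 2)))) (a (c (a (l 2) (l 2)) (a (l 2) (l 2))) (c (a (l 2) (l 2)) (a (l 2) (c (l 2) (l 2))))))) (a (c (a (c (a (l 10) (l 2)) (a (l 10) (l 2))) (c (a (l 2) (l 2)) (a (l 2) (l 2)))) (a (c (a (c (l 10) (l 10)) (l 2)) (a (c (l 10) (a (l 10) (l 10))) (l 2))) (c (a (l 2) (c (l 2) (l 2))) (a (c (l 2) (l 2)) (c (l 2) (l 2)))))) (c (a (c (a (l 2) (l 2)) (a (l 2) (c (l 2) (l 2)))) (c (a (c (l 2) (l 2)) (c (l 2) (l 5))) (a (c (l 2) (l 5)) (l 5)))) (a (c (a (c (l 2) (l 2)) (c (l 2) (l 5))) (l 5)) (l 5))))) (c (a (c (a (c (a (l 2) (l 2)) (a (l 2) (c (l 2) (l 2)))) (c (a (c (l 2) (l 2)) (c (l 2) (l 2)))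 (a (c (l 2) (l 2)) (c (l 2) (l 5))))) (a (c (a (c (l 2) (l 2)) (c (l 2) (l 2))) (a (c (l 2) (l 2)) (l 5))) (c (a (c (l 2) (l 5)) (l 5)) (l 5)))) (c (a (c (a (c (l 2) (l 5)) (l 5)) (l 5)) (l 5)) (l 5))) (l 5))), by decide +kernel⟩

theorem h2_0Am : ∃ t, chk3 f0Am t 1 1 1 = true := ex3_a h0_0Am h1_0Am

theorem ct_0Am : ∃ t, chk3 f0Am t 1 1 1 = true := h2_0Am

noncomputable def f0Bp : ℕ → ℕ → ℕ → ℕ → Bool :=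
  onCell 0 92274688 0 2097152 991146299 28908434 (c0_Bp.row false 46137344)

def h0_0Bp : ∃ t, chk3 f0Bp t 2 1 1 = true :=
  ⟨(a (c (l 7) (a (l 7) (c (a (l 7) (l 16)) (a (l 16) (l 16))))) (c (a (c (a (l 7) (c (l 7) (l 8))) (a (l 16) (c (l 8) (a (l 8) (l 8))))) (c (a (c (a (l 8) (l 8)) (a (l 8) (l 8))) (c (a (l 8) (l 10)) (a (l 8) (l 10)))) (a (c (a (l 8) (l 8)) (a (l 8) (l 8))) (c (a (l 8) (c (l 10) (l 10))) (a (l 8) (c (l 10) (l 10))))))) (a (c (a (l 16) (a (l 16) (c (l 8) (l 8)))) (a (c (l 16) (l 16)) (a (l 16) (c (l 8) (l 8))))) (c (a (c (a (l 8) (l 8)) (a (l 8) (l 8))) (c (a (c (l 8) (l 8)) (c (l 10) (a (l 8) (l 10)))) (a (c (l 8) (l 8)) (c (a (l 8) (l 10)) (a (l 8) (l 10)))))) (a (c (a (l 8) (c (l 8) (l 8))) (a (l 16) (c (l 8) (l 8)))) (c (a (c (l 8) (l 8)) (c (a (l 8) (l 10)) (a (l 8) (b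 (l 10) (l 8))))) (a (c (a (l 8) (l 8)) (a (l 8) (l 8))) (c (a (l 8) (b (l 10) (l 8))) (a (l 8) (b (l 10) (l 8))))))))))), by decide +kernel⟩

def h1_0Bp : ∃ t, chk3 f0Bp t 12 1 2 = true :=
  ⟨(c (a (c (a (c (l 10) (l 10)) (l 2)) (a (c (l 10) (l 10)) (c (l 2) (l 2)))) (c (a (l 2) (c (l 2) (l 2))) (a (c (l 2) (l 2)) (c (l 2) (l 2))))) (a (c (a (a (l 10) (c (l 10) (l 10))) (c (l 2) (l 2))) (a (c (a (l 10) (l 10)) (a (l 10) (b (l 2) (l 10)))) (c (l 2) (a (l 2) (l 2))))) (c (a (c (l 2) (a (l 2) (l 2))) (c (a (l 2) (l 2)) (a (l 2) (l 2)))) (a (c (a (l 2) (l 2)) (a (l 2) (l 2))) (c (a (l 2) (l 2)) (a (l 2) (b (l 2) (l 2)))))))), by decide +kernel⟩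

def h2_0Bp : ∃ t, chk3 f0Bp t 13 1 2 = true :=
  ⟨(c (a (c (a (c (l 2) (l 2)) (c (l 2) (l 2))) (a (c (l 2) (a (l 2) (l 2))) (c (a (l 2) (l 2)) (a (l 2) (l 2))))) (c (a (c (a (l 2) (l 2)) (a (l 2) (l 2))) (c (a (l 2) (l 2)) (a (l 2) (l 2)))) (a (c (a (l 2) (l 2)) (a (l 2) (l 2))) (c (a (l 2) (l 2)) (b (a (l 2) (l 2)) (a (l 2) (l 2))))))) (a (c (a (c (a (l 2) (l 2)) (a (l 2) (l 2))) (c (a (l 2) (l 2)) (a (l 2) (b (l 2) (l 2))))) (a (c (a (l 2) (b (l 2) (l 2))) (b (a (l 2) (l 2)) (a (l 2) (l 2)))) (c (b (a (l 2) (l 2)) (a (l 2) (l 2))) (b (a (l 2) (l 2)) (a (l 2) (l 2)))))) (c (a (c (b (a (l 2) (l 2)) (a (l 2) (l 2))) (b (a (l 2) (l 2)) (a (l 2) (l 2)))) (c (b (a (l 2) (l 2)) (a (l 2) (l 2))) (b (a (l 2) (l 2)) (a (l 2) (l 2))))) (a (c (b (a (l 2) (l 2)) (a (l 2) (l 2))) (b (a (l 2) (l 2)) (a (l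 2) (l 2)))) (c (b (a (l 2) (l 2)) (a (l 2) (l 2))) (b (a (l 2) (l 2)) (a (c (l 2) (l 2)) (c (l 2) (l 2))))))))), by decide +kernel⟩

def h3_0Bp : ∃ t, chk3 f0Bp t 12 1 6 = true :=
  ⟨(a (c (a (c (a (l 10) (b (l 2) (l 10))) (a (l 10) (b (l 2) (c (l 10) (l 10))))) (c (a (l 2) (l 2)) (a (l 2) (l 2)))) (a (c (a (b (l 10) (l 10)) (b (l 2) (c (l 10) (l 10)))) (a (b (l 10) (l 10)) (b (l 2) (a (l 10) (l 2))))) (c (a (l 2) (b (l 2) (l 2))) (a (b (l 2) (l 2)) (b (l 2) (l 2)))))) (c (a (c (a (l 2) (l 2)) (a (b (l 2) (l 2)) (b (l 2) (l 2)))) (c (a (b (l 2) (l 2)) (b (l 2) (l 2))) (a (b (l 2) (l 2)) (b (l 2) (l 2))))) (a (c (a (b (l 2) (l 2)) (b (l 2) (l 2))) (a (b (l 2) (l 2)) (b (l 2) (l 2)))) (c (a (b (l 2) (l 2)) (b (l 2) (l 2))) (a (b (l 2) (l 2)) (b (l 2) (l 2))))))), by decide +kernel⟩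

def h4_0Bp : ∃ t, chk3 f0Bp t 12 1 7 = true :=
  ⟨(a (c (a (c (a (b (l 10) (l 10)) (b (l 2) (a (l 10) (l 2)))) (a (b (c (l 10) (l 10)) (c (l 10) (l 10))) (b (l 2) (a (c (l 10) (l 10)) (l 2))))) (c (a (b (l 2) (l 2)) (b (l 2) (l 2))) (a (b (l 2) (l 2)) (b (l 2) (l 2))))) (a (c (a (b (c (l 10) (l 10)) (c (l 10) (l 10))) (b (l 2) (a (c (l 10) (l 10)) (l 2)))) (a (b (c (l 10) (l 10)) (c (l 10) (l 10))) (b (l 2) (a (c (l 10) (l 10)) (l 2))))) (c (a (b (l 2) (l 2)) (b (l 2) (l 2))) (a (b (l 2) (l 2)) (b (l 2) (c (l 2) (l 2))))))) (c (a (c (a (b (l 2) (l 2)) (b (l 2) (l 2))) (a (b (l 2) (l 2)) (b (l 2) (c (l 2) (l 2))))) (c (a (b (l 2) (c (l 2) (l 2))) (b (l 2) (c (l 2) (l 2)))) (b (a (l 2) (c (l 2) (l 2))) (a (c (l 2) (l 2)) (c (l 2) (l 2)))))) (a (c (a (b (l 2) (c (l 2) (l 2))) (b (l 2) (c (l 2)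 (l 2)))) (a (b (l 2) (c (l 2) (l 2))) (b (c (l 2) (l 2)) (c (l 2) (l 2))))) (c (b (a (c (l 2) (l 2)) (c (l 2) (l 5))) (a (c (l 2) (l 2)) (c (l 2) (l 5)))) (a (c (b (l 2) (l 2)) (l 5)) (l 5)))))), by decide +kernel⟩

def h5_0Bp : ∃ t, chk3 f0Bp t 13 1 3 = true :=
  ⟨(c (a (c (a (c (b (a (l 2) (l 2)) (a (l 2) (l 2))) (b (a (l 2) (l 2)) (a (l 2) (l 2)))) (c (b (a (l 2) (l 2)) (a (l 2) (l 2))) (b (a (l 2) (l 2)) (a (l 2) (c (l 2) (l 2)))))) (a (c (b (a (l 2) (l 2)) (a (l 2) (c (l 2) (l 2)))) (b (a (l 2) (l 2)) (a (c (l 2) (l 2)) (c (l 2) (l 2))))) (c (b (a (l 2) (l 2)) (a (c (l 2) (l 2)) (c (l 2) (l 2)))) (b (a (c (l 2) (l 2)) (c (l 2) (l 5))) (a (c (l 2) (l 2)) (c (l 2) (l 5))))))) (c (a (c (b (a (l 2) (l 2)) (a (c (l 2) (l 2)) (c (l 2) (l 2)))) (b (a (l 2) (c (l 2) (l 2))) (a (c (l 2) (l 2)) (c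 (l 2) (l 2))))) (c (b (a (l 2) (c (l 2) (l 5))) (a (c (l 2) (l 2)) (c (l 2) (l 5)))) (l 5))) (a (c (a (c (b (l 2) (l 2)) (l 5)) (l 5)) (l 5)) (l 5)))) (a (c (a (c (b (a (l 2) (c (l 2) (l 2))) (a (c (l 2) (l 2)) (c (l 2) (l 2)))) (a (b (c (l 2) (l 2)) (c (l 2) (l 2))) (l 5))) (c (a (c (b (l 2) (l 2)) (l 5)) (l 5)) (l 5))) (l 5)) (l 5))), by decide +kernel⟩

def h6_0Bp : ∃ t, chk3 f0Bp t 14 1 2 = true :=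
  ⟨(c (a (c (a (c (a (l 2) (l 2)) (a (l 2) (l 2))) (c (a (l 2) (b (l 2) (l 2))) (b (a (l 2) (l 2)) (a (l 2) (l 2))))) (a (c (b (a (l 2) (l 2)) (a (l 2) (l 2))) (b (a (l 2) (l 2)) (a (l 2) (l 2)))) (c (b (a (l 2) (l 2)) (a (l 2) (l 2))) (b (a (l 2) (l 2)) (a (l 2) (l 2)))))) (c (a (b (c (a (l 2) (l 2)) (a (l 2) (l 2))) (c (a (l 2) (l 2)) (a (l 2) (l 2)))) (b (c (a (l 2) (l 2)) (a (l 2) (l 2))) (c (a (l 2) (l 2)) (a (l 2) (l 2))))) (a (b (c (a (l 2) (l 2)) (a (l 2) (l 2))) (c (a (l 2) (l 2)) (a (l 2) (c (l 2) (l 5))))) (c (a (b (l 2) (l 2)) (l 5)) (l 5))))) (a (c (a (c (b (a (l 2) (l 2)) (a (l 2) (l 2))) (b (a (l 2) (l 2)) (a (l 2) (l 2)))) (b (c (a (l 2) (l 2)) (a (l 2) (l 5))) (c (a (l 2) (l 2)) (a (c (l 2) (l 2)) (l 5))))) (a (b (c (a (l 2) (l 2)) (a (l 2) (l 5))) (c (a (c (l 2) (l 2)) (c (l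 2) (l 5))) (a (c (l 2) (l 5)) (l 5)))) (l 5))) (c (a (c (a (b (l 2) (c (l 2) (l 5))) (l 5)) (l 5)) (l 5)) (l 5)))), by decide +kernel⟩

def h7_0Bp : ∃ t, chk3 f0Bp t 15 1 2 = true :=
  ⟨(c (a (c (a (c (b (a (l 2) (l 2)) (a (l 2) (l 2))) (l 5)) (l 5)) (l 5)) (l 5)) (l 5)), by decide +kernel⟩

def h8_0Bp : ∃ t, chk3 f0Bp t 7 1 3 = true :=
  ⟨(l 5), by decide +kernel⟩

theorem h9_0Bp : ∃ t, chk3 f0Bp t 7 1 2 = true := ex3_a h6_0Bp h7_0Bp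

theorem h10_0Bp : ∃ t, chk3 f0Bp t 7 1 1 = true := ex3_c h9_0Bp h8_0Bp

theorem h11_0Bp : ∃ t, chk3 f0Bp t 12 1 3 = true := ex3_c h3_0Bp h4_0Bp

theorem h12_0Bp : ∃ t, chk3 f0Bp t 6 1 3 = true := ex3_a h11_0Bp h5_0Bp

theorem h13_0Bp : ∃ t, chk3 f0Bp t 6 1 2 = true := ex3_a h1_0Bp h2_0Bp

theorem h14_0Bp : ∃ t, chk3 f0Bp t 6 1 1 = true := ex3_c h13_0Bp h12_0Bp

theorem h15_0Bp : ∃ t, chk3 f0Bp t 3 1 1 = true := ex3_a h14_0Bp h10_0Bp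

theorem h16_0Bp : ∃ t, chk3 f0Bp t 1 1 1 = true := ex3_a h0_0Bp h15_0Bp

theorem ct_0Bp : ∃ t, chk3 f0Bp t 1 1 1 = true := h16_0Bp

noncomputable def f0Bpk1 : ℕ → ℕ → ℕ → ℕ → Bool :=
  onCell 0 92274688 0 2097152 991146299 28908434 (c0_Bpk1.row false 46137344)

def h0_0Bpk1 : ∃ t, chk3 f0Bpk1 t 2 1 1 = true :=
  ⟨(a (c (l 7) (a (l 7) (a (l 16) (c (l 8) (l 8))))) (c (a (c (a (l 7) (l 8)) (a (l 8) (l 8))) (c (a (l 8) (c (l 10) (l 10))) (a (c (l 8) (l 8)) (c (l 10) (l 10))))) (a (c (a (l 8) (c (l 8) (l 8))) (a (l 16) (c (l 8) (l 8)))) (c (a (c (l 8) (l 8)) (c (l 10) (a (l 8) (l 10)))) (a (c (l 8) (l 8)) (c (a (l 8) (l 10)) (a (l 8) (l 10)))))))), by decide +kernel⟩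

def h1_0Bpk1 : ∃ t, chk3 f0Bpk1 t 3 1 1 = true :=
  ⟨(a (c (a (c (a (c (l 10) (l 10)) (c (l 2) (l 2))) (a (a (c (l 10) (l 10)) (l 2)) (c (l 2) (l 2)))) (c (a (c (l 2) (l 2)) (c (a (l 2) (l 2)) (a (l 2) (l 2)))) (a (c (a (l 2) (l 2)) (a (l 2) (l 2))) (c (a (l 2) (l 2)) (a (l 2) (l 2)))))) (a (c (a (c (a (l 10) (l 2)) (a (l 10) (l 2))) (c (a (l 2) (l 2)) (a (l 2) (l 2)))) (a (c (a (l 10) (l 2)) (a (l 10) (l 2))) (c (a (l 2) (l 2)) (a (l 2) (c (l 2) (l 2)))))) (c (a (c (a (l 2) (l 2)) (a (l 2) (c (l 2) (l 2)))) (c (a (c (l 2) (l 2)) (c (l 2) (l 5))) (a (c (l 2) (l 5)) (l 5)))) (a (c (a (c (l 2) (l 2)) (c (l 2) (l 5))) (l 5)) (l 5))))) (c (a (c (a (c (a (l 2) (l 2)) (a (l 2) (l 2))) (c (a (l 2) (c (l 2) (l 2))) (a (c (l 2) (l 2)) (c (l 2) (l 5))))) (a (c (a (l 2) (c (l 2) (l 2))) (a (c (l 2) (l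 2)) (l 5))) (c (a (c (l 2) (l 5)) (l 5)) (l 5)))) (c (a (c (a (c (l 2) (l 5)) (l 5)) (l 5)) (l 5)) (l 5))) (l 5))), by decide +kernel⟩

theorem h2_0Bpk1 : ∃ t, chk3 f0Bpk1 t 1 1 1 = true := ex3_a h0_0Bpk1 h1_0Bpk1

theorem ct_0Bpk1 : ∃ t, chk3 f0Bpk1 t 1 1 1 = true := h2_0Bpk1

noncomputable def f0Bpk2 : ℕ → ℕ → ℕ → ℕ → Bool :=
  onCell 0 92274688 0 2097152 991146299 28908434 (c0_Bpk2.row false 46137344)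

def h0_0Bpk2 : ∃ t, chk3 f0Bpk2 t 1 1 1 = true :=
  ⟨(a (a (c (l 7) (a (l 7) (c (l 8) (l 8)))) (c (a (c (l 8) (l 8)) (c (l 10) (a (l 8) (l 10)))) (a (c (l 8) (a (l 8) (l 8))) (c (a (l 8) (l 10)) (a (l 8) (c (l 10) (l 10))))))) (a (c (a (c (a (l 10) (l 2)) (a (l 10) (l 2))) (c (a (l 2) (c (l 2) (l 2))) (a (c (l 2) (l 2)) (c (l 2) (a (l 2) (l 2)))))) (a (c (a (c (l 10) (l 10)) (c (l 2) (l 2))) (a (c (l 10) (l 10)) (c (l 2) (a (l 2) (l 2))))) (c (a (c (l 2) (a (l 2) (l 2))) (c (a (l 2) (l 2)) (a (l 2) (l 5)))) (a (c (a (l 2) (l 2)) (l 5)) (l 5))))) (c (a (c (a (c (l 2) (l 2)) (c (a (l 2) (l 2)) (a (l 2) (l 2)))) (a (c (a (l 2) (l 2)) (a (l 2) (l 5))) (c (a (l 2) (l 5)) (l 5)))) (c (a (c (a (l 2) (l 5)) (l 5)) (l 5)) (l 5))) (l 5)))), by decide +kernel⟩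

theorem ct_0Bpk2 : ∃ t, chk3 f0Bpk2 t 1 1 1 = true := h0_0Bpk2

noncomputable def f0Bm : ℕ → ℕ → ℕ → ℕ → Bool :=
  onCell 0 92274688 0 2097152 991146299 28908434 (c0_Bm.row true 46137344)

def h0_0Bm : ∃ t, chk3 f0Bm t 2 1 1 = true :=
  ⟨(a (c (l 7) (a (l 7) (a (l 16) (c (l 16) (l 16))))) (c (a (c (a (l 7) (c (l 7) (l 16))) (a (l 16) (c (l 16) (l 16)))) (c (a (c (a (l 8) (l 8)) (a (l 8) (l 8))) (c (a (l 8) (l 10)) (a (l 8) (l 10)))) (a (c (a (l 8) (l 8)) (a (l 8) (l 8))) (c (a (l 8) (l 10)) (a (l 8) (l 10)))))) (a (c (a (l 16) (c (l 16) (l 16))) (a (l 16) (c (l 16) (l 16)))) (c (a (c (a (l 8) (l 8)) (a (l 8) (l 8))) (c (a (l 8) (l 10)) (a (c (l 8) (l 8)) (c (l 10) (l 10))))) (a (c (a (l 16) (c (l 8) (l 8))) (a (l 16) (c (l 8) (l 8)))) (c (a (c (l 8) (l 8)) (c (l 10) (l 10))) (a (c (l 8) (l 8))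 (c (l 10) (l 10))))))))), by decide +kernel⟩

def h1_0Bm : ∃ t, chk3 f0Bm t 6 1 2 = true :=
  ⟨(a (c (a (c (a (l 10) (l 2)) (a (l 10) (l 2))) (c (a (l 2) (l 2)) (a (l 2) (l 2)))) (a (c (a (l 10) (l 2)) (a (l 10) (l 2))) (c (a (l 2) (l 2)) (a (l 2) (l 2))))) (c (a (c (a (l 2) (l 2)) (a (l 2) (c (l 2) (l 2)))) (c (a (c (l 2) (l 2)) (c (l 2) (l 2))) (a (c (l 2) (l 2)) (c (l 2) (l 2))))) (a (c (a (l 2) (c (l 2) (l 2))) (a (c (l 2) (l 2)) (c (l 2) (l 2)))) (c (a (c (l 2) (l 2)) (c (a (l 2) (l 2)) (a (l 2) (l 2)))) (a (c (a (l 2) (l 2)) (a (l 2) (l 2))) (c (a (l 2) (l 2)) (a (l 2) (b (l 2) (l 2))))))))), by decide +kernel⟩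

def h2_0Bm : ∃ t, chk3 f0Bm t 6 1 3 = true :=
  ⟨(a (c (a (c (a (l 10) (l 2)) (a (c (l 10) (l 10)) (l 2))) (c (a (l 2) (c (l 2) (l 2))) (a (c (l 2) (l 2)) (c (l 2) (l 2))))) (a (c (a (c (l 10) (l 10)) (c (l 2) (l 2))) (a (c (l 10) (a (l 10) (l 2))) (c (l 2) (a (l 2) (l 2))))) (c (a (c (l 2) (l 2)) (c (a (l 2) (l 2)) (a (l 2) (l 2)))) (a (c (a (l 2) (l 2)) (a (l 2) (l 2))) (c (a (l 2) (b (l 2) (l 9))) (a (b (l 2) (l 9)) (l 5))))))) (c (a (c (a (c (l 2) (l 2)) (c (a (l 2) (l 2)) (a (l 2) (l 2)))) (a (c (a (l 2) (l 2)) (a (l 2) (l 2))) (c (a (l 2) (b (l 2) (l 2))) (a (b (l 2) (l 2)) (b (l 2) (l 9)))))) (c (a (c (a (l 2) (l 2)) (a (b (l 2) (l 2)) (b (l 2) (l 2)))) (c (b (a (l 2) (c (l 2) (l 5))) (a (l 2) (l 9))) (l 5))) (a (c (a (b (l 2) (l 9)) (l 5)) (l 5)) (l 5)))) (a (c (a (c (a (l 2) (b (l 2)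 (l 2))) (a (b (l 2) (l 2)) (l 5))) (c (a (b (l 2) (l 9)) (l 5)) (l 5))) (l 5)) (l 5)))), by decide +kernel⟩

def h3_0Bm : ∃ t, chk3 f0Bm t 7 1 1 = true :=
  ⟨(c (a (c (a (c (a (c (l 2) (a (l 2) (l 2))) (c (a (l 2) (l 2)) (a (l 2) (l 2)))) (a (c (a (l 2) (l 2)) (a (l 2) (l 2))) (c (a (l 2) (l 2)) (a (l 2) (b (l 2) (l 2)))))) (c (a (c (a (l 2) (b (l 2) (l 2))) (a (l 2) (b (l 2) (l 2)))) (c (b (a (l 2) (l 2)) (a (l 2) (l 2))) (b (a (l 2) (c (l 2) (l 2))) (a (l 2) (c (l 2) (l 9)))))) (a (c (b (a (l 2) (l 2)) (a (l 2) (l 2))) (b (a (l 2) (c (l 2) (l 5))) (a (l 2) (l 9)))) (c (a (b (c (l 2) (l 5)) (l 9)) (l 5)) (l 5))))) (a (c (a (c (a (l 2) (l 2)) (a (l 2) (b (l 2) (l 2)))) (c (b (a (l 2) (l 2)) (a (l 2) (c (l 2) (l 9)))) (a (b (l 2) (c (l 2) (l 9))) (l 5)))) (a (c (b (a (l 2) (l 2)) (a (l 2) (l 9)))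 (a (b (l 2) (l 9)) (l 5))) (l 5))) (c (a (c (a (b (c (l 2) (l 5)) (l 9)) (l 5)) (l 5)) (l 5)) (l 5)))) (c (a (c (a (c (b (a (c (l 2) (l 2)) (c (l 2) (l 5))) (a (c (l 2) (l 9)) (l 9))) (l 5)) (l 5)) (l 5)) (l 5)) (l 5))) (l 5)), by decide +kernel⟩

theorem h4_0Bm : ∃ t, chk3 f0Bm t 6 1 1 = true := ex3_c h1_0Bm h2_0Bm

theorem h5_0Bm : ∃ t, chk3 f0Bm t 3 1 1 = true := ex3_a h4_0Bm h3_0Bm

theorem h6_0Bm : ∃ t, chk3 f0Bm t 1 1 1 = true := ex3_a h0_0Bm h5_0Bm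

theorem ct_0Bm : ∃ t, chk3 f0Bm t 1 1 1 = true := h6_0Bm

end Pool.Agent.Strip051.G.I9231_9500.Tab.Mo
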