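import Pool.Agent.Strip051.G.I9231_9500.MolD

/-! # The tight charts of a table: certificates (generated) -/

set_option linter.all false
set_option maxRecDepth 100000

namespace Pool.Agent.Strip051.G.I9231_9500.Tab.Mo

open Pool.Agent.Strip051.PB Pool.Agent.Strip051.PB.Mol Pool.Agent.Strip051.PB.T
open Pool.Agent.Strip051.G.I9231_9500.Tab

noncomputable def f3Ap : ℕ → ℕ → ℕ → ℕ → Bool :=
  onCell 0 92274688 0 2097152 991146299 28908434 (c3_Ap.row false 46137344)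

def h0_3Ap : ∃ t, chk3 f3Ap t 2 1 1 = true :=
  ⟨(a (l 13) (c (a (l 13) (c (a (l 13) (c (l 10) (l 10))) (a (l 13) (a (l 13) (c (l 10) (l 10)))))) (a (l 13) (a (l 13) (c (a (l 13) (c (l 10) (l 10))) (a (l 13) (c (l 10) (c (l 10) (l 10))))))))), by decide +kernel⟩

def h1_3Ap : ∃ t, chk3 f3Ap t 6 1 2 = true :=
  ⟨(a (c (a (c (l 10) (a (l 10) (l 2))) (c (l 2) (a (l 2) (l 2)))) (a (c (a (l 10) (l 2)) (a (l 10) (l 2))) (c (a (l 2) (l 2)) (a (l 2) (l 2))))) (c (a (c (a (l 2) (l 2)) (a (l 2) (l 2))) (c (a (l 2) (l 2)) (a (l 2) (l 2)))) (a (c (a (l 2) (l 2)) (a (l 2) (l 2))) (c (a (l 2) (c (l 2) (l 2))) (a (c (l 2) (a (l 2) (l 2))) (b (c (l 2) (l 2)) (c (a (l 2) (c (l 2) (a (l 2) (b (l 2) (c (l 2) (l 9)))))) (a (c (l 2) (a (l 2) (b (l 2) (b (l 2) (l 9))))) (c (b (l 2) (b (l 2) (l 9))) (l 9)))))))))),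 by decide +kernel⟩

def h2_3Ap : ∃ t, chk3 f3Ap t 6 1 6 = true :=
  ⟨(a (a (c (a (l 10) (l 2)) (a (l 10) (l 2))) (c (a (l 2) (l 2)) (a (l 2) (c (l 2) (l 2))))) (a (c (a (l 2) (c (l 2) (b (l 2) (a (l 2) (c (l 2) (a (l 2) (b (l 2) (c (l 2) (a (l 2) (l 9)))))))))) (a (b (c (l 2) (l 2)) (c (a (l 2) (l 2)) (b (l 2) (a (c (l 2) (l 2)) (b (l 2) (c (a (l 2) (c (l 2) (a (l 2) (l 9)))) (a (b (l 2) (c (a (l 2) (c (l 2) (l 9))) (l 9))) (l 9)))))))) (b (c (l 2) (l 2)) (c (a (c (l 2) (b (l 2) (b (l 2) (a (c (l 2) (l 2)) (c (a (l 2) (l 9)) (l 9)))))) (b (l 2) (c (a (c (l 2) (b (l 2) (l 9))) (l 9)) (l 9)))) (a (c (b (l 2) (b (a (l 2) (l 9)) (l 9))) (l 9)) (l 9)))))) (c (b (a (c (l 2) (l 2)) (c (l 2) (l 5))) (a (c (a (c (l 2) (l 2)) (b (l 2) (c (a (l 2) (c (l 2) (a (l 2) (l 9)))) (a (c (l 2) (l 9)) (l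 9))))) (b (a (l 2) (c (l 2) (l 9))) (a (c (a (l 2) (b (l 2) (l 9))) (b (a (l 2) (l 9)) (l 9))) (l 9)))) (b (c (a (l 2) (l 9)) (l 5)) (l 9)))) (b (a (c (l 2) (l 5)) (l 5)) (l 9))))), by decide +kernel⟩

def h3_3Ap : ∃ t, chk3 f3Ap t 24 1 7 = true :=
  ⟨(c (a (l 10) (l 2)) (a (c (l 10) (l 10)) (c (l 2) (a (l 2) (b (l 2) (c (l 2) (a (l 2) (b (l 2) (b (l 2) (b (l 2) (c (a (l 2) (c (l 2) (a (l 2) (c (l 2) (a (l 2) (b (l 2) (c (l 2) (l 9)))))))) (a (c (l 2) (a (l 2) (b (l 2) (b (l 2) (c (a (l 2) (c (l 2) (l 9))) (a (c (l 2) (l 9)) (l 9))))))) (b (c (l 2) (a (l 2) (l 9))) (c (a (c (l 2) (a (l 2) (b (l 2) (l 9)))) (b (c (l 2) (l 9)) (l 9))) (l 9))))))))))))))), by decide +kernel⟩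

def h4_3Ap : ∃ t, chk3 f3Ap t 25 1 14 = true :=
  ⟨(a (c (l 2) (a (l 2) (l 2))) (b (c (l 2) (l 2)) (c (a (l 2) (c (l 2) (a (l 2) (b (l 2) (c (l 2) (a (l 2) (b (l 2) (b (l 2) (l 9))))))))) (a (b (l 2) (b (l 2) (c (a (l 2) (l 2)) (a (c (l 2) (a (l 2) (c (l 2) (a (l 2) (b (l 2) (l 9)))))) (b (c (l 2) (a (l 2) (l 9))) (c (a (c (l 2) (a (l 2) (l 9))) (b (c (l 2) (l 9)) (l 9))) (l 9))))))) (b (c (l 2) (l 2)) (c (b (l 2) (a (b (l 2) (c (a (l 2) (c (l 2) (l 9))) (a (c (l 2) (l 9)) (l 9)))) (l 9))) (b (a (c (l 2) (l 9)) (l 9)) (l 9)))))))), by decide +kernel⟩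

def h5_3Ap : ∃ t, chk3 f3Ap t 25 2 15 = true :=
  ⟨(a (c (l 2) (l 2)) (c (l 2) (l 2))), by decide +kernel⟩

def h6_3Ap : ∃ t, chk3 f3Ap t 50 3 30 = true :=
  ⟨(b (l 2) (a (c (l 2) (a (l 2) (c (l 2) (a (l 2) (b (l 2) (l 2)))))) (b (c (l 2) (a (l 2) (l 2))) (c (a (l 2) (c (l 2) (b (l 2) (a (c (l 2) (a (l 2) (c (l 2) (l 9)))) (c (a (l 2) (l 9)) (l 9)))))) (a (b (c (l 2) (l 2)) (c (a (l 2) (c (l 2) (a (c (l 2) (a (l 2) (l 9))) (l 9)))) (a (b (l 2) (c (a (l 2) (c (l 2) (l 9))) (l 9))) (l 9)))) (c (a (c (a (c (l 2) (b (l 2) (l 9))) (l 9)) (l 9)) (l 9)) (l 9))))))), by decide +kernel⟩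

def h7_3Ap : ∃ t, chk3 f3Ap t 50 3 31 = true :=
  ⟨(a (b (l 2) (b (c (l 2) (a (l 2) (c (l 2) (l 9)))) (c (a (c (l 2) (a (l 2) (c (l 2) (b (l 2) (b (l 2) (a (c (l 2) (a (l 2) (l 9))) (l 9))))))) (b (c (l 2) (a (l 2) (l 9))) (c (a (c (l 2) (a (l 2) (c (l 2) (b (l 2) (l 9))))) (c (b (l 2) (a (c (l 2) (a (l 2) (l 9))) (l 9))) (l 9))) (a (c (a (c (a (l 2) (b (l 2) (l 9))) (l 9)) (l 9)) (l 9)) (l 9))))) (a (b (c (a (l 2) (c (l 2) (l 9))) (b (a (l 2) (l 9)) (l 9))) (c (a (b (c (l 2) (a (l 2) (l 9))) (c (a (l 2) (c (l 2) (b (l 2) (l 9)))) (a (c (a (l 2) (l 9)) (l 9)) (l 9)))) (b (c (a (l 2) (l 9)) (l 9)) (l 9))) (l 9))) (l 9))))) (c (b (l 2) (b (a (c (l 2) (l 9)) (l 9)) (l 9))) (l 9))), by decide +kernel⟩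

def h8_3Ap : ∃ t, chk3 f3Ap t 51 3 15 = true :=
  ⟨(c (a (b (c (l 2) (l 2)) (c (a (b (l 2) (c (a (b (l 2) (c (a (l 2) (c (l 2) (l 9))) (l 9))) (l 9)) (l 9))) (l 9)) (l 9))) (l 9)) (l 9)), by decide +kernel⟩

def h9_3Ap : ∃ t, chk3 f3Ap t 13 1 7 = true :=
  ⟨(a (c (b (a (c (l 2) (l 2)) (c (l 2) (l 5))) (a (c (b (a (l 2) (c (l 2) (l 9))) (a (c (b (l 2) (a (c (l 2) (a (l 2) (c (l 2) (a (l 2) (l 9))))) (c (a (l 2) (l 9)) (l 9)))) (a (c (b (l 2) (a (c (l 2) (l 9)) (l 9))) (l 9)) (l 9))) (l 9))) (b (b (a (l 2) (l 5)) (l 9)) (l 9))) (l 9))) (l 5)) (l 5)), by decide +kernel⟩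

def h10_3Ap : ∃ t, chk3 f3Ap t 7 1 1 = true :=
  ⟨(c (a (c (a (c (a (l 2) (l 2)) (a (c (l 2) (l 2)) (c (l 2) (b (l 2) (a (l 2) (c (l 2) (a (l 2) (l 2)))))))) (c (a (c (l 2) (a (l 2) (l 2))) (b (c (l 2) (l 2)) (c (a (l 2) (c (l 2) (a (l 2) (l 2)))) (b (l 2) (a (c (l 2) (a (l 2) (l 9))) (l 9)))))) (b (a (c (l 2) (l 2)) (c (l 2) (l 5))) (a (c (a (l 2) (b (l 2) (c (a (l 2) (l 9)) (l 9)))) (a (c (a (l 2) (b (l 2) (l 9))) (l 9)) (l 9))) (l 9))))) (a (c (a (c (a (l 2) (l 2)) (a (b (l 2) (l 2)) (b (l 2) (c (a (l 2) (b (l 2) (l 2))) (a (b (l 2) (c (l 2) (l 9))) (l 9)))))) (b (c (l 2) (l 2)) (c (b (a (l 2) (l 2)) (a (c (l 2) (a (l 2) (l 9))) (l 9))) (b (a (l 2) (l 5)) (l 9))))) (a (b (c (l 2) (l 2)) (c (a (b (l 2) (c (a (l 2) (l 9)) (l 9))) (l 9)) (l 9))) (l 5))) (b (c (a (c (l 2) (l 5)) (l 5))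 (l 5)) (l 9)))) (c (a (c (a (c (b (l 2) (b (a (l 2) (l 9)) (l 9))) (l 5)) (l 5)) (l 5)) (l 5)) (l 5))) (l 5)), by decide +kernel⟩

theorem h11_3Ap : ∃ t, chk3 f3Ap t 50 3 15 = true := ex3_c h6_3Ap h7_3Ap

theorem h12_3Ap : ∃ t, chk3 f3Ap t 25 3 15 = true := ex3_a h11_3Ap h8_3Ap

theorem h13_3Ap : ∃ t, chk3 f3Ap t 25 1 15 = true := ex3_b h5_3Ap h12_3Ap

theorem h14_3Ap : ∃ t, chk3 f3Ap t 25 1 7 = true := ex3_c h4_3Ap h13_3Ap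

theorem h15_3Ap : ∃ t, chk3 f3Ap t 12 1 7 = true := ex3_a h3_3Ap h14_3Ap

theorem h16_3Ap : ∃ t, chk3 f3Ap t 6 1 7 = true := ex3_a h15_3Ap h9_3Ap

theorem h17_3Ap : ∃ t, chk3 f3Ap t 6 1 3 = true := ex3_c h2_3Ap h16_3Ap

theorem h18_3Ap : ∃ t, chk3 f3Ap t 6 1 1 = true := ex3_c h1_3Ap h17_3Ap

theorem h19_3Ap : ∃ t, chk3 f3Ap t 3 1 1 = true := ex3_a h18_3Ap h10_3Ap

theorem h20_3Ap : ∃ t, chk3 f3Ap t 1 1 1 = true := ex3_a h0_3Ap h19_3Ap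

theorem ct_3Ap : ∃ t, chk3 f3Ap t 1 1 1 = true := h20_3Ap

noncomputable def f3Apk1 : ℕ → ℕ → ℕ → ℕ → Bool :=
  onCell 0 92274688 0 2097152 991146299 28908434 (c3_Apk1.row false 46137344)

def h0_3Apk1 : ∃ t, chk3 f3Apk1 t 2 1 1 = true :=
  ⟨(a (l 13) (c (a (l 13) (c (a (l 13) (l 10)) (a (l 13) (c (l 10) (l 10))))) (a (l 13) (a (l 13) (c (c (l 10) (l 10)) (c (l 10) (l 10))))))), by decide +kernel⟩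

def h1_3Apk1 : ∃ t, chk3 f3Apk1 t 6 1 2 = true :=
  ⟨(a (c (a (c (l 10) (l 10)) (c (l 2) (l 2))) (a (c (l 10) (l 10)) (c (l 2) (l 2)))) (c (a (c (l 2) (l 2)) (c (l 2) (l 2))) (a (c (l 2) (l 2)) (c (l 2) (a (c (l 2) (l 2)) (c (a (l 2) (l 2)) (a (b (l 2) (l 2)) (b (l 2) (c (a (l 2) (b (l 2) (l 9))) (l 9)))))))))), by decide +kernel⟩

def h2_3Apk1 : ∃ t, chk3 f3Apk1 t 6 1 6 = true :=
  ⟨(a (a (c (l 10) (l 10)) (c (l 2) (a (l 2) (l 2)))) (a (c (a (l 2) (c (l 2) (a (l 2) (l 2)))) (a (c (l 2) (a (l 2) (b (l 2) (c (l 2) (a (l 2) (b (l 2) (c (l 2) (l 9)))))))) (b (l 2) (c (a (c (l 2) (l 2)) (b (l 2) (c (a (l 2) (l 9)) (l 9)))) (a (c (a (l 2) (b (l 2) (l 9))) (l 9)) (l 9)))))) (c (b (a (l 2) (c (l 2) (l 5))) (a (c (a (l 2) (c (l 2) (a (l 2) (b (l 2) (l 9))))) (b (a (l 2) (l 2)) (a (c (l 2) (a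 (l 2) (l 9))) (l 9)))) (b (c (a (l 2) (l 9)) (l 5)) (l 9)))) (b (a (c (l 2) (l 5)) (l 5)) (l 9))))), by decide +kernel⟩

def h3_3Apk1 : ∃ t, chk3 f3Apk1 t 6 1 7 = true :=
  ⟨(a (a (c (l 10) (a (l 10) (c (l 2) (a (l 2) (b (l 2) (l 2)))))) (c (a (l 2) (c (a (l 2) (b (l 2) (l 2))) (b (l 2) (a (c (l 2) (a (l 2) (l 2))) (b (l 2) (c (a (l 2) (c (l 2) (l 9))) (b (l 2) (l 9)))))))) (b (a (l 2) (c (l 2) (l 2))) (a (c (a (l 2) (c (l 2) (a (l 2) (b (l 2) (c (l 2) (l 9)))))) (a (b (l 2) (b (l 2) (c (l 2) (a (c (l 2) (a (l 2) (l 9))) (l 9))))) (c (b (l 2) (b (a (l 2) (l 9)) (l 9))) (l 9)))) (c (a (b (l 2) (c (a (c (l 2) (a (l 2) (l 9))) (l 9)) (l 9))) (l 9)) (l 9)))))) (a (c (b (a (l 2) (c (l 2) (l 5))) (a (c (b (a (l 2) (l 2)) (a (c (l 2) (a (l 2) (l 9))) (l 9))) (b (a (l 2) (l 5)) (l 9))) (l 9)))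 (l 5)) (l 5))), by decide +kernel⟩

def h4_3Apk1 : ∃ t, chk3 f3Apk1 t 7 1 1 = true :=
  ⟨(c (a (c (a (c (l 2) (a (l 2) (c (l 2) (a (l 2) (l 2))))) (c (a (c (l 2) (l 2)) (b (l 2) (c (a (l 2) (l 2)) (a (c (l 2) (l 2)) (c (l 2) (l 9)))))) (b (a (l 2) (l 2)) (a (c (a (l 2) (c (l 2) (a (l 2) (l 9)))) (a (c (l 2) (l 9)) (l 9))) (l 9))))) (a (c (a (c (l 2) (a (l 2) (c (l 2) (a (l 2) (b (l 2) (l 9)))))) (b (l 2) (c (a (c (l 2) (l 2)) (b (l 2) (l 9))) (b (a (l 2) (l 5)) (l 9))))) (a (b (l 2) (c (a (c (l 2) (a (l 2) (l 9))) (l 9)) (l 9))) (l 5))) (b (c (a (c (l 2) (l 5)) (l 5)) (l 5)) (l 9)))) (c (a (c (a (c (b (l 2) (b (l 2) (l 9))) (l 5)) (l 5)) (l 5)) (l 5)) (l 5))) (l 5)), by decide +kernel⟩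

theorem h5_3Apk1 : ∃ t, chk3 f3Apk1 t 6 1 3 = true := ex3_c h2_3Apk1 h3_3Apk1

theorem h6_3Apk1 : ∃ t, chk3 f3Apk1 t 6 1 1 = true := ex3_c h1_3Apk1 h5_3Apk1

theorem h7_3Apk1 : ∃ t, chk3 f3Apk1 t 3 1 1 = true := ex3_a h6_3Apk1 h4_3Apk1

theorem h8_3Apk1 : ∃ t, chk3 f3Apk1 t 1 1 1 = true := ex3_a h0_3Apk1 h7_3Apk1

theorem ct_3Apk1 : ∃ t, chk3 f3Apk1 t 1 1 1 = true := h8_3Apk1

noncomputable def f3Apk2 : ℕ → ℕ → ℕ → ℕ → Bool :=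
  onCell 0 92274688 0 2097152 991146299 28908434 (c3_Apk2.row false 46137344)

def h0_3Apk2 : ∃ t, chk3 f3Apk2 t 2 1 1 = true :=
  ⟨(a (l 13) (c (a (l 13) (c (l 10) (a (l 13) (l 10)))) (a (l 13) (c (a (l 13) (l 10)) (a (l 13) (l 10)))))), by decide +kernel⟩

def h1_3Apk2 : ∃ t, chk3 f3Apk2 t 6 1 1 = true :=
  ⟨(c (a (c (a (l 10) (l 2)) (a (l 10) (l 2))) (c (a (l 2) (l 2)) (a (l 2) (c (l 2) (a (l 2) (c (l 2) (a (l 2) (l 2)))))))) (c (a (a (l 10) (c (l 2) (l 2))) (a (c (a (l 2) (l 2)) (a (c (l 2) (l 2)) (b (l 2) (c (a (l 2) (l 2)) (a (c (l 2) (l 9)) (l 9)))))) (c (a (c (a (l 2) (l 2)) (a (l 2) (c (l 2) (b (l 2) (l 9))))) (c (a (b (l 2) (l 2)) (b (l 2) (l 9))) (l 5))) (b (a (l 2) (l 5)) (l 9))))) (a (a (c (l 10) (a (l 10) (l 2))) (c (a (l 2) (c (l 2) (a (l 2) (b (l 2) (l 2))))) (a (c (l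 2) (a (l 2) (c (l 2) (b (l 2) (l 9))))) (b (l 2) (c (a (c (l 2) (l 2)) (l 9)) (l 9)))))) (a (c (a (b (l 2) (c (a (l 2) (c (l 2) (l 9))) (b (l 2) (l 9)))) (b (c (l 2) (l 5)) (l 9))) (l 5)) (l 5))))), by decide +kernel⟩

def h2_3Apk2 : ∃ t, chk3 f3Apk2 t 7 1 1 = true :=
  ⟨(c (a (c (a (c (l 2) (a (l 2) (l 2))) (c (a (l 2) (c (l 2) (a (l 2) (l 2)))) (a (c (l 2) (a (l 2) (b (l 2) (l 9)))) (b (l 2) (l 9))))) (a (c (a (c (l 2) (a (l 2) (l 2))) (c (a (l 2) (l 2)) (a (l 2) (l 5)))) (a (b (l 2) (c (a (l 2) (l 9)) (l 9))) (l 5))) (c (b (a (l 2) (l 5)) (l 9)) (l 5)))) (c (a (c (a (c (a (l 2) (l 2)) (l 5)) (l 5)) (l 5)) (l 5)) (l 5))) (l 5)), by decide +kernel⟩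

theorem h3_3Apk2 : ∃ t, chk3 f3Apk2 t 3 1 1 = true := ex3_a h1_3Apk2 h2_3Apk2

theorem h4_3Apk2 : ∃ t, chk3 f3Apk2 t 1 1 1 = true := ex3_a h0_3Apk2 h3_3Apk2

theorem ct_3Apk2 : ∃ t, chk3 f3Apk2 t 1 1 1 = true := h4_3Apk2

noncomputable def f3Am : ℕ → ℕ → ℕ → ℕ → Bool :=
  onCell 0 92274688 0 2097152 991146299 28908434 (c3_Am.row true 46137344)

def h0_3Am : ∃ t, chk3 f3Am t 2 1 1 = true :=
  ⟨(a (l 13) (c (a (l 13) (a (l 13) (c (c (a (l 13) (l 10)) (l 10)) (c (l 10) (a (l 13) (l 10)))))) (a (l 13) (a (l 13) (c (a (l 13) (c (l 10) (l 10))) (a (l 13) (c (l 10) (c (l 10) (l 10))))))))), by decide +kernel⟩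

def h1_3Am : ∃ t, chk3 f3Am t 6 1 1 = true :=
  ⟨(c (a (c (a (c (a (l 10) (l 2)) (a (l 10) (l 2))) (c (a (l 2) (l 2)) (a (l 2) (l 2)))) (a (c (a (l 10) (l 2)) (a (l 10) (l 2))) (c (a (l 2) (l 2)) (a (l 2) (l 2))))) (c (a (c (a (l 2) (l 2)) (a (l 2) (l 2))) (c (a (l 2) (l 2)) (a (l 2) (c (l 2) (l 2))))) (a (c (a (l 2) (l 2)) (a (l 2) (c (l 2) (l 2)))) (c (a (c (l 2) (l 2)) (c (l 2) (l 2))) (a (c (l 2) (l 2)) (c (l 2) (a (l 2) (l 2)))))))) (c (a (a (c (a (l 10) (l 2)) (a (c (l 10) (l 10)) (l 2))) (c (a (l 2) (l 2)) (a (l 2) (c (l 2) (l 2))))) (a (c (a (c (l 2) (l 2)) (c (l 2) (l 2))) (a (c (l 2) (l 2)) (b (c (l 2) (l 2)) (c (l 2) (l 2))))) (c (a (c (l 2) (a (l 2) (l 2))) (c (a (l 2) (l 2)) (l 5))) (a (c (a (l 2) (l 5)) (l 5)) (l 5))))) (a (a (c (a (c (l 10) (l 10)) (c (l 2) (l 2))) (a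 (c (l 10) (a (l 10) (l 10))) (c (l 2) (l 2)))) (c (a (c (l 2) (l 2)) (c (l 2) (l 2))) (a (c (l 2) (a (l 2) (l 2))) (b (c (l 2) (l 2)) (c (l 2) (l 2)))))) (a (c (a (b (c (l 2) (l 2)) (c (l 2) (l 2))) (c (a (l 2) (l 5)) (l 5))) (l 5)) (l 5))))), by decide +kernel⟩

def h2_3Am : ∃ t, chk3 f3Am t 7 1 1 = true :=
  ⟨(c (a (c (a (c (a (l 2) (c (l 2) (l 2))) (a (c (l 2) (l 2)) (c (l 2) (l 2)))) (c (a (c (l 2) (l 2)) (b (c (l 2) (l 2)) (c (l 2) (l 2)))) (a (b (c (l 2) (l 2)) (c (l 2) (l 2))) (c (a (l 2) (l 5)) (l 5))))) (a (c (a (c (l 2) (a (l 2) (l 2))) (b (c (l 2) (l 2)) (c (l 2) (l 2)))) (a (b (c (l 2) (l 2)) (c (l 2) (l 2))) (l 5))) (c (a (c (a (l 2) (l 5)) (l 5)) (l 5)) (l 5)))) (c (a (c (a (c (a (l 2) (l 2)) (l 5)) (l 5)) (l 5)) (l 5)) (l 5))) (l 5)), by decide +kernel⟩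

theorem h3_3Am : ∃ t, chk3 f3Am t 3 1 1 = true := ex3_a h1_3Am h2_3Am

theorem h4_3Am : ∃ t, chk3 f3Am t 1 1 1 = true := ex3_a h0_3Am h3_3Am

theorem ct_3Am : ∃ t, chk3 f3Am t 1 1 1 = true := h4_3Am

noncomputable def f3Bp : ℕ → ℕ → ℕ → ℕ → Bool :=
  onCell 0 92274688 0 2097152 991146299 28908434 (c3_Bp.row false 46137344)

def h0_3Bp : ∃ t, chk3 f3Bp t 2 1 1 = true :=
  ⟨(a (l 13) (c (a (l 13) (c (a (l 13) (a (l 13) (c (l 10) (c (l 10) (l 10))))) (a (l 13) (a (l 13) (a (l 13) (c (l 10) (l 10))))))) (a (l 13) (a (l 13) (c (a (l 13) (a (l 13) (a (l 13) (c (l 10) (c (l 10) (l 10)))))) (a (l 13) (a (l 13) (a (l 13) (a (l 13) (a (l 13) (a (l 13) (a (l 13) (a (l 13) (c (l 10) (c (l 10) (l 10)))))))))))))))), by decide +kernel⟩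

def h1_3Bp : ∃ t, chk3 f3Bp t 12 1 2 = true :=
  ⟨(c (a (c (a (c (l 10) (l 10)) (l 2)) (a (c (l 10) (l 10)) (c (l 2) (l 2)))) (c (a (c (l 2) (l 2)) (c (l 2) (l 2))) (a (c (l 2) (l 2)) (c (l 2) (l 2))))) (a (c (a (c (l 10) (a (l 10) (l 10))) (c (l 2) (l 2))) (a (b (c (l 10) (l 10)) (c (l 10) (l 10))) (c (l 2) (l 2)))) (c (a (c (l 2) (l 2)) (c (l 2) (a (l 2) (l 2)))) (a (b (c (l 2) (l 2)) (c (l 2) (l 2))) (b (c (l 2) (l 2)) (c (l 2) (l 2))))))), by decide +kernel⟩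

def h2_3Bp : ∃ t, chk3 f3Bp t 13 1 2 = true :=
  ⟨(c (a (c (a (c (l 2) (l 2)) (c (l 2) (l 2))) (a (c (l 2) (l 2)) (b (c (l 2) (l 2)) (c (l 2) (l 2))))) (c (a (c (l 2) (a (l 2) (l 2))) (b (c (l 2) (l 2)) (c (l 2) (l 2)))) (a (b (c (l 2) (l 2)) (c (l 2) (l 2))) (b (c (l 2) (l 2)) (c (l 2) (l 2)))))) (a (c (a (b (c (l 2) (l 2)) (c (l 2) (l 2))) (b (c (l 2) (l 2)) (c (l 2) (l 2)))) (a (b (c (l 2) (l 2)) (c (l 2) (l 2))) (b (c (l 2) (a (l 2) (l 2))) (c (l 2) (a (l 2) (l 2)))))) (c (b (a (c (l 2) (l 2)) (c (l 2) (a (l 2) (l 2)))) (a (c (l 2) (l 2)) (c (a (l 2) (l 2)) (a (l 2) (l 2))))) (a (b (c (a (l 2) (l 2)) (a (l 2) (l 2))) (c (a (l 2) (l 2)) (a (l 2) (l 2)))) (c (b (a (l 2) (l 2)) (a (l 2) (l 2))) (b (a (l 2) (l 2)) (a (l 2) (b (l 2) (c (a (l 2) (c (l 2) (l 2))) (b (l 2) (a (c (l 2) (l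 2)) (c (a (l 2) (l 5)) (l 5))))))))))))), by decide +kernel⟩

def h3_3Bp : ∃ t, chk3 f3Bp t 12 1 6 = true :=
  ⟨(a (c (a (b (a (l 10) (l 2)) (c (l 10) (a (l 10) (l 10)))) (b (c (l 2) (l 2)) (c (l 2) (l 2)))) (a (b (a (c (l 10) (l 10)) (l 2)) (c (a (l 10) (l 10)) (a (l 10) (l 10)))) (b (c (l 2) (l 2)) (c (l 2) (l 2))))) (c (a (b (c (l 2) (l 2)) (c (l 2) (l 2))) (b (c (l 2) (l 2)) (c (l 2) (a (l 2) (l 2))))) (a (b (c (l 2) (l 2)) (c (l 2) (a (l 2) (l 2)))) (b (c (a (l 2) (l 2)) (a (l 2) (l 2))) (c (a (l 2) (l 2)) (a (l 2) (l 2))))))), by decide +kernel⟩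

def h4_3Bp : ∃ t, chk3 f3Bp t 26 1 6 = true :=
  ⟨(c (b (a (c (l 2) (a (l 2) (l 2))) (c (a (l 2) (l 2)) (a (l 2) (l 2)))) (a (c (a (l 2) (l 2)) (a (l 2) (l 2))) (c (a (l 2) (l 2)) (a (l 2) (l 2))))) (a (b (c (a (l 2) (l 2)) (a (l 2) (l 2))) (c (a (l 2) (l 2)) (a (l 2) (l 2)))) (b (c (a (l 2) (l 2)) (a (l 2) (l 2))) (c (a (l 2) (b (l 2) (c (a (l 2) (l 2)) (a (l 2) (c (l 2) (a (l 2) (l 5))))))) (a (b (l 2) (c (a (l 2) (c (l 2) (l 2))) (b (l 2) (a (c (l 2) (a (l 2) (l 2))) (c (a (l 2) (l 5)) (l 5)))))) (c (a (c (b (l 2) (a (l 2) (c (l 2) (l 5)))) (l 5)) (l 5)) (l 5))))))), by decide +kernel⟩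

def h5_3Bp : ∃ t, chk3 f3Bp t 27 1 6 = true :=
  ⟨(c (a (b (c (a (l 2) (l 2)) (a (l 2) (l 2))) (c (a (l 2) (c (l 2) (a (l 2) (b (l 2) (l 2))))) (a (c (l 2) (a (l 2) (b (l 2) (c (l 2) (a (l 2) (l 2)))))) (b (c (l 2) (l 2)) (c (b (l 2) (a (l 2) (c (a (l 2) (l 2)) (l 5)))) (a (c (a (l 2) (l 5)) (l 5)) (l 5))))))) (c (b (a (l 2) (l 2)) (a (b (l 2) (c (a (l 2) (c (l 2) (a (l 2) (l 5)))) (a (c (l 2) (a (l 2) (l 5))) (l 5)))) (c (a (c (a (c (b (l 2) (l 2)) (l 5)) (l 5)) (l 5)) (l 5)) (l 5)))) (l 5))) (a (c (a (c (b (l 2) (b (l 2) (b (a (l 2) (l 2)) (a (c (l 2) (a (l 2) (l 5))) (c (a (l 2) (l 5)) (l 5)))))) (l 5)) (l 5)) (l 5)) (l 5))), by decide +kernel⟩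

def h6_3Bp : ∃ t, chk3 f3Bp t 12 1 7 = true :=
  ⟨(a (c (a (b (c (a (l 10) (l 2)) (a (l 10) (l 2))) (c (a (l 10) (l 10)) (a (l 10) (c (l 10) (l 10))))) (b (c (l 2) (a (l 2) (l 2))) (c (a (l 2) (l 2)) (a (l 2) (l 2))))) (b (a (c (a (l 10) (l 2)) (a (l 10) (l 2))) (c (a (l 2) (l 2)) (a (l 2) (l 2)))) (a (c (a (l 10) (c (l 10) (l 10))) (a (l 10) (c (l 10) (l 10)))) (c (a (l 2) (l 2)) (a (l 2) (l 2)))))) (c (a (b (c (a (l 2) (l 2)) (a (l 2) (l 2))) (c (a (l 2) (l 2)) (a (l 2) (l 2)))) (c (b (a (l 2) (l 2)) (a (l 2) (l 2))) (b (a (l 2) (l 2)) (a (l 2) (c (l 2) (a (l 2) (b (l 2) (c (l 2) (a (l 2) (b (l 2) (l 2))))))))))) (a (c (b (a (l 2) (l 2)) (a (l 2) (l 2))) (b (a (l 2) (l 2)) (a (l 2) (b (l 2) (c (a (l 2) (c (l 2) (l 2))) (a (c (l 2) (a (l 2) (b (l 2) (l 2)))) (c (a (l 2) (l 5)) (l 5))))))))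 (b (c (a (l 2) (l 2)) (a (l 2) (l 5))) (c (a (b (l 2) (c (a (l 2) (l 2)) (a (l 2) (b (l 2) (c (l 2) (a (l 2) (l 5))))))) (c (a (b (l 2) (c (l 2) (a (l 2) (l 5)))) (l 5)) (l 5))) (a (c (a (c (a (b (l 2) (l 2)) (l 5)) (l 5)) (l 5)) (l 5)) (l 5))))))), by decide +kernel⟩

def h7_3Bp : ∃ t, chk3 f3Bp t 13 1 7 = true :=
  ⟨(a (c (a (b (c (a (l 2) (l 2)) (a (l 2) (l 5))) (c (a (c (l 2) (a (l 2) (b (l 2) (l 2)))) (b (l 2) (c (a (l 2) (c (l 2) (a (l 2) (l 5)))) (a (c (l 2) (a (b (l 2) (l 2)) (l 5))) (l 5))))) (a (b (c (l 2) (l 2)) (c (b (l 2) (a (c (l 2) (l 2)) (c (a (l 2) (l 5)) (l 5)))) (a (c (a (l 2) (l 5)) (l 5)) (l 5)))) (l 5)))) (c (a (c (b (l 2) (a (c (a (c (b (l 2) (l 2)) (l 5)) (l 5)) (l 5)) (l 5))) (l 5)) (l 5)) (l 5))) (l 5)) (l 5)), by decide +kernel⟩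

def h8_3Bp : ∃ t, chk3 f3Bp t 14 1 4 = true :=
  ⟨(a (c (a (b (c (l 2) (l 2)) (c (l 2) (l 2))) (b (c (l 2) (l 2)) (c (l 2) (l 2)))) (b (a (c (l 2) (l 2)) (c (a (l 2) (l 2)) (a (l 2) (l 2)))) (a (c (l 2) (a (l 2) (l 2))) (c (a (l 2) (l 2)) (a (l 2) (l 2)))))) (c (a (b (c (l 2) (a (l 2) (l 2))) (c (l 2) (a (l 2) (l 2)))) (b (c (a (l 2) (l 2)) (a (l 2) (l 2))) (c (a (l 2) (c (l 2) (a (l 2) (b (l 2) (l 2))))) (a (c (l 2) (a (l 2) (b (l 2) (c (l 2) (l 2))))) (b (l 2) (c (a (l 2) (c (a (l 2) (l 2)) (l 5))) (a (c (a (l 2) (l 5)) (l 5)) (l 5)))))))) (b (a (c (a (l 2) (l 2)) (a (l 2) (l 2))) (c (a (l 2) (l 5)) (l 5))) (a (c (a (l 2) (b (l 2) (c (a (l 2) (l 2)) (a (l 2) (c (l 2) (a (l 2) (l 5))))))) (a (b (l 2) (c (a (l 2) (l 2)) (b (l 2) (a (c (l 2) (l 2)) (c (a (l 2) (l 5)) (l 5)))))) (c (a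 (c (b (l 2) (a (l 2) (l 2))) (l 5)) (l 5)) (l 5)))) (c (a (c (b (l 2) (b (l 2) (a (c (l 2) (a (l 2) (l 5))) (c (a (l 2) (l 5)) (l 5))))) (l 5)) (l 5)) (l 5)))))), by decide +kernel⟩

def h9_3Bp : ∃ t, chk3 f3Bp t 14 1 5 = true :=
  ⟨(a (c (a (c (a (l 2) (b (l 2) (l 2))) (b (a (l 2) (l 2)) (a (l 2) (c (l 2) (a (l 2) (b (l 2) (c (l 2) (a (l 2) (l 2))))))))) (b (c (a (l 2) (l 2)) (a (l 2) (l 5))) (c (a (c (l 2) (a (l 2) (b (l 2) (l 2)))) (b (l 2) (c (a (l 2) (c (l 2) (a (l 2) (l 5)))) (a (c (l 2) (a (l 2) (l 5))) (l 5))))) (a (b (l 2) (c (b (l 2) (a (l 2) (c (a (l 2) (l 2)) (l 5)))) (a (c (a (l 2) (l 5)) (l 5)) (l 5)))) (l 5))))) (a (b (c (a (l 2) (l 2)) (a (l 2) (l 5))) (c (a (b (l 2) (c (a (l 2) (l 2)) (a (l 2) (c (l 2) (a (l 2) (l 5)))))) (c (b (l 2) (b (a (l 2) (l 2)) (a (c (l 2) (a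 (l 2) (l 5))) (c (a (l 2) (l 5)) (l 5))))) (l 5))) (a (c (a (c (b (l 2) (a (l 2) (b (l 2) (l 2)))) (l 5)) (l 5)) (l 5)) (l 5)))) (l 5))) (c (a (c (a (c (b (l 2) (a (c (a (c (b (l 2) (l 2)) (l 5)) (l 5)) (l 5)) (l 5))) (l 5)) (l 5)) (l 5)) (l 5)) (l 5))), by decide +kernel⟩

def h10_3Bp : ∃ t, chk3 f3Bp t 15 1 2 = true :=
  ⟨(c (a (c (a (c (b (a (l 2) (l 2)) (a (b (l 2) (c (a (l 2) (c (l 2) (a (l 2) (l 5)))) (a (c (l 2) (a (l 2) (l 5))) (l 5)))) (c (a (c (a (b (l 2) (l 2)) (l 5)) (l 5)) (l 5)) (l 5)))) (l 5)) (l 5)) (l 5)) (l 5)) (l 5)), by decide +kernel⟩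

def h11_3Bp : ∃ t, chk3 f3Bp t 7 1 3 = true :=
  ⟨(l 5), by decide +kernel⟩

theorem h12_3Bp : ∃ t, chk3 f3Bp t 14 1 2 = true := ex3_c h8_3Bp h9_3Bp

theorem h13_3Bp : ∃ t, chk3 f3Bp t 7 1 2 = true := ex3_a h12_3Bp h10_3Bp

theorem h14_3Bp : ∃ t, chk3 f3Bp t 7 1 1 = true := ex3_c h13_3Bp h11_3Bp

theorem h15_3Bp : ∃ t, chk3 f3Bp t 6 1 7 = true := ex3_a h6_3Bp h7_3Bp

theorem h16_3Bp : ∃ t, chk3 f3Bp t 13 1 6 = true := ex3_a h4_3Bp h5_3Bp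

theorem h17_3Bp : ∃ t, chk3 f3Bp t 6 1 6 = true := ex3_a h3_3Bp h16_3Bp

theorem h18_3Bp : ∃ t, chk3 f3Bp t 6 1 3 = true := ex3_c h17_3Bp h15_3Bp

theorem h19_3Bp : ∃ t, chk3 f3Bp t 6 1 2 = true := ex3_a h1_3Bp h2_3Bp

theorem h20_3Bp : ∃ t, chk3 f3Bp t 6 1 1 = true := ex3_c h19_3Bp h18_3Bp

theorem h21_3Bp : ∃ t, chk3 f3Bp t 3 1 1 = true := ex3_a h20_3Bp h14_3Bp

theorem h22_3Bp : ∃ t, chk3 f3Bp t 1 1 1 = true := ex3_a h0_3Bp h21_3Bp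

theorem ct_3Bp : ∃ t, chk3 f3Bp t 1 1 1 = true := h22_3Bp

noncomputable def f3Bpk1 : ℕ → ℕ → ℕ → ℕ → Bool :=
  onCell 0 92274688 0 2097152 991146299 28908434 (c3_Bpk1.row false 46137344)

def h0_3Bpk1 : ∃ t, chk3 f3Bpk1 t 2 1 1 = true :=
  ⟨(a (l 13) (c (a (l 13) (c (a (l 13) (c (l 10) (l 10))) (a (l 13) (c (l 10) (l 10))))) (a (l 13) (a (l 13) (c (a (l 13) (c (l 10) (l 10))) (a (l 13) (c (l 10) (l 10)))))))), by decide +kernel⟩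

def h1_3Bpk1 : ∃ t, chk3 f3Bpk1 t 6 1 2 = true :=
  ⟨(a (c (a (a (c (l 10) (l 10)) (l 2)) (c (l 2) (l 2))) (a (c (a (l 10) (l 2)) (a (l 10) (l 2))) (c (a (l 2) (l 2)) (a (l 2) (l 2))))) (c (a (c (a (l 2) (l 2)) (a (l 2) (l 2))) (c (a (l 2) (l 2)) (a (l 2) (l 2)))) (a (c (a (l 2) (l 2)) (a (l 2) (l 2))) (c (a (l 2) (c (l 2) (l 2))) (a (c (l 2) (l 2)) (c (l 2) (a (l 2) (b (l 2) (c (l 2) (b (l 2) (l 2))))))))))), by decide +kernel⟩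

def h2_3Bpk1 : ∃ t, chk3 f3Bpk1 t 6 1 6 = true :=
  ⟨(a (a (c (a (l 10) (l 2)) (a (l 10) (l 2))) (c (a (l 2) (l 2)) (a (l 2) (l 2)))) (a (c (a (l 2) (c (l 2) (l 2))) (a (b (l 2) (l 2)) (b (c (l 2) (l 2)) (c (a (l 2) (c (l 2) (l 2))) (a (c (l 2) (b (l 2) (a (l 2) (l 2)))) (c (a (l 2) (l 5)) (l 5))))))) (c (a (b (c (l 2) (l 2)) (c (a (l 2) (c (l 2) (l 2))) (a (c (l 2) (l 2)) (b (l 2) (c (l 2) (a (l 2) (l 5))))))) (c (b (l 2) (a (c (l 2) (a (l 2) (l 5))) (c (a (b (l 2) (l 2)) (l 5)) (l 5)))) (l 5))) (a (c (a (c (b (l 2) (b (l 2) (a (l 2) (l 2)))) (l 5)) (l 5)) (l 5)) (l 5))))), by decide +kernel⟩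

def h3_3Bpk1 : ∃ t, chk3 f3Bpk1 t 6 1 7 = true :=
  ⟨(a (a (c (a (l 10) (l 2)) (a (c (l 10) (l 10)) (c (l 2) (l 2)))) (c (a (l 2) (c (l 2) (b (l 2) (a (l 2) (c (l 2) (l 2)))))) (a (c (a (l 2) (l 2)) (a (l 2) (b (l 2) (c (l 2) (b (l 2) (a (l 2) (l 2))))))) (b (c (l 2) (l 2)) (c (a (c (l 2) (a (l 2) (l 2))) (c (a (l 2) (l 5)) (l 5))) (a (c (a (b (l 2) (l 2)) (l 5)) (l 5)) (l 5))))))) (a (c (a (b (c (l 2) (l 2)) (c (a (c (l 2) (l 2)) (c (l 2) (a (l 2) (l 5)))) (a (b (l 2) (c (l 2) (a (l 2) (l 5)))) (l 5)))) (c (a (c (b (l 2) (a (b (l 2) (l 2)) (l 5))) (l 5)) (l 5)) (l 5))) (l 5)) (l 5))), by decide +kernel⟩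

def h4_3Bpk1 : ∃ t, chk3 f3Bpk1 t 7 1 1 = true :=
  ⟨(c (a (c (a (c (a (l 2) (c (l 2) (l 2))) (a (c (l 2) (l 2)) (b (l 2) (l 2)))) (c (a (c (l 2) (l 2)) (b (c (l 2) (l 2)) (c (a (l 2) (l 2)) (a (c (l 2) (l 2)) (b (l 2) (c (l 2) (a (l 2) (l 5)))))))) (a (b (c (l 2) (l 2)) (c (a (l 2) (c (l 2) (l 2))) (a (c (l 2) (a (l 2) (l 2))) (c (a (l 2) (l 5)) (l 5))))) (c (a (c (b (l 2) (b (l 2) (l 2))) (l 5)) (l 5)) (l 5))))) (a (c (a (c (l 2) (b (l 2) (a (l 2) (c (l 2) (l 2))))) (b (c (l 2) (l 2)) (c (a (c (l 2) (l 2)) (c (l 2) (a (l 2) (l 5)))) (a (b (l 2) (c (l 2) (a (l 2) (l 5)))) (l 5))))) (a (b (c (l 2) (l 2)) (c (a (c (l 2) (l 2)) (c (b (l 2) (a (l 2) (l 2))) (l 5))) (a (c (a (l 2) (l 5)) (l 5)) (l 5)))) (l 5))) (c (a (c (a (c (b (l 2) (a (b (l 2) (l 2)) (l 5))) (l 5)) (l 5)) (l 5)) (l 5))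 (l 5)))) (c (a (c (a (c (b (l 2) (a (c (l 2) (a (l 2) (l 5))) (c (a (l 2) (l 5)) (l 5)))) (l 5)) (l 5)) (l 5)) (l 5)) (l 5))) (l 5)), by decide +kernel⟩

theorem h5_3Bpk1 : ∃ t, chk3 f3Bpk1 t 6 1 3 = true := ex3_c h2_3Bpk1 h3_3Bpk1

theorem h6_3Bpk1 : ∃ t, chk3 f3Bpk1 t 6 1 1 = true := ex3_c h1_3Bpk1 h5_3Bpk1

theorem h7_3Bpk1 : ∃ t, chk3 f3Bpk1 t 3 1 1 = true := ex3_a h6_3Bpk1 h4_3Bpk1

theorem h8_3Bpk1 : ∃ t, chk3 f3Bpk1 t 1 1 1 = true := ex3_a h0_3Bpk1 h7_3Bpk1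

theorem ct_3Bpk1 : ∃ t, chk3 f3Bpk1 t 1 1 1 = true := h8_3Bpk1

noncomputable def f3Bpk2 : ℕ → ℕ → ℕ → ℕ → Bool :=
  onCell 0 92274688 0 2097152 991146299 28908434 (c3_Bpk2.row false 46137344)

def h0_3Bpk2 : ∃ t, chk3 f3Bpk2 t 2 1 1 = true :=
  ⟨(a (l 13) (c (a (l 13) (c (a (l 13) (l 10)) (a (l 13) (l 10)))) (a (l 13) (a (l 13) (c (c (l 10) (l 10)) (c (l 10) (l 10))))))), by decide +kernel⟩

def h1_3Bpk2 : ∃ t, chk3 f3Bpk2 t 6 1 1 = true :=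
  ⟨(c (a (c (a (l 10) (l 2)) (a (c (l 10) (l 10)) (c (l 2) (l 2)))) (c (a (c (l 2) (l 2)) (c (l 2) (l 2))) (a (c (l 2) (l 2)) (c (l 2) (a (l 2) (c (l 2) (a (l 2) (l 2)))))))) (c (a (a (c (l 10) (l 10)) (c (l 2) (l 2))) (a (c (a (l 2) (l 2)) (a (l 2) (b (l 2) (c (a (l 2) (l 2)) (a (l 2) (l 2)))))) (c (a (b (l 2) (c (l 2) (a (l 2) (l 2)))) (c (b (l 2) (a (l 2) (c (l 2) (l 5)))) (l 5))) (a (c (a (b (l 2) (l 2)) (l 5)) (l 5)) (l 5))))) (a (a (c (a (l 10) (l 2)) (a (l 10) (l 2))) (c (a (l 2) (c (l 2) (a (l 2) (l 2)))) (a (c (l 2) (a (l 2) (b (l 2) (l 2)))) (b (c (l 2) (l 2)) (c (a (l 2) (l 2)) (a (c (l 2) (l 5)) (l 5))))))) (a (c (a (b (l 2) (c (a (l 2) (l 2)) (a (l 2) (l 5)))) (c (a (c (l 2) (l 5)) (l 5)) (l 5))) (l 5)) (l 5))))), by decide +kernel⟩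

def h2_3Bpk2 : ∃ t, chk3 f3Bpk2 t 7 1 1 = true :=
  ⟨(c (a (c (a (c (l 2) (a (l 2) (l 2))) (c (a (l 2) (c (a (l 2) (l 2)) (a (l 2) (b (l 2) (l 2))))) (a (b (l 2) (c (l 2) (a (l 2) (l 2)))) (c (a (b (l 2) (l 2)) (l 5)) (l 5))))) (a (c (a (c (l 2) (a (l 2) (l 2))) (b (l 2) (c (a (l 2) (l 2)) (a (l 2) (l 5))))) (a (b (l 2) (c (a (l 2) (l 2)) (a (l 2) (l 5)))) (l 5))) (c (a (c (a (b (l 2) (l 2)) (l 5)) (l 5)) (l 5)) (l 5)))) (c (a (c (a (c (a (l 2) (b (l 2) (l 2))) (l 5)) (l 5)) (l 5)) (l 5)) (l 5))) (l 5)), by decide +kernel⟩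

theorem h3_3Bpk2 : ∃ t, chk3 f3Bpk2 t 3 1 1 = true := ex3_a h1_3Bpk2 h2_3Bpk2

theorem h4_3Bpk2 : ∃ t, chk3 f3Bpk2 t 1 1 1 = true := ex3_a h0_3Bpk2 h3_3Bpk2

theorem ct_3Bpk2 : ∃ t, chk3 f3Bpk2 t 1 1 1 = true := h4_3Bpk2

noncomputable def f3Bm : ℕ → ℕ → ℕ → ℕ → Bool :=
  onCell 0 92274688 0 2097152 991146299 28908434 (c3_Bm.row true 46137344)

def h0_3Bm : ∃ t, chk3 f3Bm t 2 1 1 = true :=
  ⟨(a (l 13) (c (a (l 13) (a (l 13) (a (l 13) (c (c (a (l 13) (l 10)) (c (l 10) (l 10))) (c (l 10) (l 10)))))) (a (l 13) (a (l 13) (c (a (l 13) (c (l 10) (c (l 10) (l 10)))) (a (l 13) (a (l 13) (c (l 10) (c (l 10) (l 10)))))))))), by decide +kernel⟩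

def h1_3Bm : ∃ t, chk3 f3Bm t 6 1 2 = true :=
  ⟨(a (c (a (c (a (c (l 10) (l 10)) (l 2)) (a (l 10) (l 2))) (c (a (l 2) (l 2)) (a (l 2) (l 2)))) (a (c (a (l 10) (l 2)) (a (l 10) (l 2))) (c (a (l 2) (l 2)) (a (l 2) (c (l 2) (l 2)))))) (c (a (c (a (l 2) (c (l 2) (l 2))) (a (c (l 2) (l 2)) (c (l 2) (l 2)))) (c (a (c (l 2) (l 2)) (c (l 2) (l 2))) (a (c (l 2) (l 2)) (b (c (l 2) (l 2)) (c (l 2) (l 2)))))) (a (c (a (c (l 2) (l 2)) (c (l 2) (l 2))) (a (c (l 2) (l 2)) (c (l 2) (a (l 2) (l 2))))) (c (a (b (c (l 2) (l 2)) (c (l 2) (l 2))) (b (c (l 2) (a (l 2) (l 2))) (c (l 2) (a (l 2) (l 2))))) (a (b (c (l 2) (l 2)) (c (l 2) (a (l 2) (l 2)))) (b (c (a (l 2) (l 2)) (a (l 2) (l 2))) (c (a (l 2) (l 2)) (a (l 2) (c (l 2) (l 9)))))))))), by decide +kernel⟩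

def h2_3Bm : ∃ t, chk3 f3Bm t 6 1 6 = true :=
  ⟨(a (a (c (a (c (l 10) (l 10)) (l 2)) (a (c (l 10) (l 10)) (c (l 2) (l 2)))) (c (a (c (l 2) (l 2)) (c (l 2) (l 2))) (a (c (l 2) (l 2)) (c (l 2) (a (l 2) (l 2)))))) (a (c (a (c (l 2) (a (l 2) (l 2))) (c (a (l 2) (l 2)) (a (l 2) (b (l 2) (l 2))))) (a (b (c (l 2) (a (l 2) (l 2))) (c (a (l 2) (l 2)) (a (l 2) (l 2)))) (b (c (a (l 2) (l 2)) (a (l 2) (c (l 2) (l 5)))) (c (a (l 2) (l 2)) (a (l 2) (l 9)))))) (c (b (a (c (a (l 2) (l 2)) (a (l 2) (c (l 2) (l 2)))) (c (a (l 2) (c (l 2) (l 5))) (l 5))) (a (c (a (l 2) (l 2)) (a (l 2) (c (l 2) (l 9)))) (c (a (c (l 2) (l 9)) (l 9)) (l 5)))) (a (b (c (a (c (l 2) (l 5)) (l 5)) (l 5)) (l 9)) (l 5))))), by decide +kernel⟩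

def h3_3Bm : ∃ t, chk3 f3Bm t 6 1 7 = true :=
  ⟨(a (a (c (a (c (l 10) (l 10)) (c (l 2) (l 2))) (b (a (c (l 10) (l 10)) (c (l 2) (l 2))) (a (l 2) (c (l 2) (l 2))))) (c (a (c (l 2) (l 2)) (c (a (l 2) (l 2)) (a (l 2) (b (l 2) (l 2))))) (b (a (c (l 2) (a (l 2) (l 2))) (c (a (l 2) (l 2)) (a (l 2) (l 5)))) (a (c (a (l 2) (l 2)) (a (l 2) (l 2))) (c (a (l 2) (l 9)) (l 9)))))) (a (c (a (b (c (a (l 2) (l 2)) (a (l 2) (l 5))) (c (a (l 2) (l 2)) (a (l 2) (l 5)))) (b (c (a (c (l 2) (l 5)) (l 5)) (l 5)) (l 9))) (l 5)) (l 5))), by decide +kernel⟩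

def h4_3Bm : ∃ t, chk3 f3Bm t 14 1 4 = true :=
  ⟨(a (c (a (b (c (l 2) (l 2)) (c (l 2) (l 2))) (b (c (a (l 2) (l 2)) (a (l 2) (l 2))) (c (a (l 2) (l 2)) (a (l 2) (l 2))))) (a (b (c (l 2) (a (l 2) (l 2))) (c (a (l 2) (l 2)) (a (l 2) (l 2)))) (b (c (a (l 2) (l 2)) (a (l 2) (c (l 2) (l 2)))) (c (a (l 2) (c (l 2) (l 2))) (a (l 2) (c (l 2) (l 2))))))) (c (a (c (b (a (l 2) (l 2)) (a (l 2) (l 2))) (b (a (l 2) (c (l 2) (l 2))) (a (l 2) (c (l 2) (l 2))))) (b (c (a (l 2) (c (l 2) (l 2))) (a (c (l 2) (l 2)) (c (l 2) (a (l 2) (l 5))))) (c (a (c (l 2) (l 2)) (c (l 2) (l 2))) (a (c (l 2) (l 2)) (c (a (l 2) (l 9)) (l 9)))))) (b (a (c (a (c (l 2) (l 2)) (c (l 2) (l 2))) (a (c (l 2) (l 2)) (c (l 2) (l 5)))) (c (a (c (l 2) (l 5)) (l 5)) (l 5))) (a (c (a (c (l 2) (l 2)) (c (l 2) (l 2))) (a (c (l 2) (l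 9)) (l 9))) (l 9))))), by decide +kernel⟩

def h5_3Bm : ∃ t, chk3 f3Bm t 14 1 5 = true :=
  ⟨(a (c (a (b (c (a (l 2) (l 2)) (a (l 2) (c (l 2) (l 2)))) (c (a (l 2) (l 2)) (a (l 2) (c (l 2) (l 2))))) (b (c (a (c (l 2) (l 2)) (c (l 2) (l 2))) (a (c (l 2) (l 2)) (l 5))) (c (a (c (l 2) (l 2)) (c (l 2) (l 9))) (a (c (l 2) (l 9)) (l 5))))) (a (b (c (a (l 2) (c (l 2) (l 5))) (a (c (l 2) (l 5)) (l 5))) (c (a (c (l 2) (l 2)) (l 9)) (l 9))) (l 5))) (c (a (b (c (a (c (l 2) (l 5)) (l 5)) (l 5)) (l 9)) (l 5)) (l 5))), by decide +kernel⟩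

def h6_3Bm : ∃ t, chk3 f3Bm t 15 1 2 = true :=
  ⟨(c (a (c (a (c (b (a (c (a (l 2) (l 2)) (a (l 2) (l 5))) (c (a (l 2) (l 5)) (l 5))) (a (c (a (l 2) (l 9)) (l 9)) (l 9))) (l 5)) (l 5)) (l 5)) (l 5)) (l 5)), by decide +kernel⟩

def h7_3Bm : ∃ t, chk3 f3Bm t 7 1 3 = true :=
  ⟨(l 5), by decide +kernel⟩

theorem h8_3Bm : ∃ t, chk3 f3Bm t 14 1 2 = true := ex3_c h4_3Bm h5_3Bm

theorem h9_3Bm : ∃ t, chk3 f3Bm t 7 1 2 = true := ex3_a h8_3Bm h6_3Bm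

theorem h10_3Bm : ∃ t, chk3 f3Bm t 7 1 1 = true := ex3_c h9_3Bm h7_3Bm

theorem h11_3Bm : ∃ t, chk3 f3Bm t 6 1 3 = true := ex3_c h2_3Bm h3_3Bm

theorem h12_3Bm : ∃ t, chk3 f3Bm t 6 1 1 = true := ex3_c h1_3Bm h11_3Bm

theorem h13_3Bm : ∃ t, chk3 f3Bm t 3 1 1 = true := ex3_a h12_3Bm h10_3Bm

theorem h14_3Bm : ∃ t, chk3 f3Bm t 1 1 1 = true := ex3_a h0_3Bm h13_3Bm

theorem ct_3Bm : ∃ t, chk3 f3Bm t 1 1 1 = true := h14_3Bm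

end Pool.Agent.Strip051.G.I9231_9500.Tab.Mo
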