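import Pool.Agent.Strip051.G.I9231_9500.StH
import Pool.Agent.Strip051.G.I9231_9500.StF

/-! # Unit strips 6 (generated) -/

set_option linter.all false
set_option maxRecDepth 100000

namespace Pool.Agent.Strip051.G.I9231_9500.Tab.St.C

open Pool.Agent.Strip051.PB Pool.Agent.Strip051.PB.T Pool.Agent.StripNear Pool.Agent.Strip051.LC
open Pool.Agent.Strip051.G.I9231_9500.Tab Pool.Agent.Strip051.G.I9231_9500.Tab.St

noncomputable def cut_A00pm_102_s3 : Cut := Cut.of [[⟨3, 0, 0, 2845415833⟩], [⟨0, 1, 0, 16777216⟩, ⟨1, 0, 0, 16777216⟩, ⟨2, 1, 0, 16777216⟩]]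

noncomputable def f_A00pm_102_s3 : ℕ → ℕ → ℕ → ℕ → Bool := onCell 536870912 536870912 0 536870912 991146299 28908434
    (rowF 0 true true false .npp 1 0 2 (qsf 536870912 536870912 0 536870912 2) ndB0q1 ndB0q0 pcB2 cut_A00pm_102_s3 Ext.none)

def k0_A00pm_102_s3 : ∃ t, chk3 f_A00pm_102_s3 t 1 1 1 = true :=
  ⟨(l 6), by decide +kernel⟩

theorem c_A00pm_102_s3 : CertF 536870912 536870912 0 536870912 991146299 28908434 true true false .npp 1 0 2
    ndB0q1 ndB0q0 pcB2 cut_A00pm_102_s3 Ext.none :=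
  certF0 (fam := true) (s1 := true) (s2 := false) (a := 1) (b := 0) (c := 2) (cn := .npp) (n1 := ndB0q1) (n2 := ndB0q0) (pc := pcB2) (cut := cut_A00pm_102_s3) (xt := Ext.none) (P1 := 536870912) (W1 := 536870912) (P2 := 0) (W2 := 536870912) (P3 := 991146299) (W3 := 28908434)
    rfl k0_A00pm_102_s3

theorem s_A00pm_102_s3 {κ x : ℝ} (hκ : κ * h0 = ken x) (hx : ((991146299 : ℕ) : ℝ) / S ≤ x)
    (hx' : x ≤ (((991146299 : ℕ) : ℝ) + (28908434 : ℕ)) / S)
    (H : CutA (VFD κ) PP tK tL pcB (Cut.of [[⟨0, 1, 0, 16777216⟩, ⟨1, 0, 0, 16777216⟩, ⟨2, 1, 0, 16777216⟩]]) 1 0 2 0 0 (sgb true) (sgb false) x) :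
    AltA (VFD κ) PP tK tL pcB [⟨4, 0, 0, 2845415833⟩] 1 0 2 0 0 (sgb true) (sgb false) x :=
  strip_altAD (m := 2845415833) false rfl hκ (SH.κ0 hκ (SH.hx1 hx).le (SH.hx2 hx').le) (SH.hx1 hx).le (SH.hx2 hx') (covB01).cov (covB00).cov hx hx' c_A00pm_102_s3 H (noExt_A)

noncomputable def cut_A00pm_112_s1 : Cut := Cut.of [[⟨4, 0, 0, 1449551462⟩]]

noncomputable def xt_A00pm_112_s1 : Ext := strExt dd true true false .u0 .u0m .u2 .dn 1 1 2 rfl rfl gf2 vv ndB0q1 ndB0q1

noncomputable def f_A00pm_112_s1 : ℕ → ℕ → ℕ → ℕ → Bool := onCell 536870912 536870912 1073741824 536870912 991146299 28908434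
    (rowF 1 true true false .dn 1 1 2 (qsf 536870912 536870912 536870912 536870912 2) ndB0q1 ndB0q1 pcB2 cut_A00pm_112_s1 xt_A00pm_112_s1)

def k0_A00pm_112_s1 : ∃ t, chk3 f_A00pm_112_s1 t 2 4 1 = true :=
  ⟨(b (l 3) (l 3)), by decide +kernel⟩

def k1_A00pm_112_s1 : ∃ t, chk3 f_A00pm_112_s1 t 4 40 1 = true :=
  ⟨(l 3), by decide +kernel⟩

def k2_A00pm_112_s1 : ∃ t, chk3 f_A00pm_112_s1 t 4 82 1 = true :=
  ⟨(l 3), by decide +kernel⟩

def k3_A00pm_112_s1 : ∃ t, chk3 f_A00pm_112_s1 t 4 166 1 = true :=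
  ⟨(a (a (l 531248191) (l 3)) (l 3)), by decide +kernel⟩

def k4_A00pm_112_s1 : ∃ t, chk3 f_A00pm_112_s1 t 8 167 1 = true :=
  ⟨(b (b (l 531544895) (b (l 531547199) (l 531548479))) (b (b (l 531549743) (b (b (l 531550767) (b (l 531551023) (b (l 531551279) (a (a (a (a (c (l 16771432) (l 16771720)) (c (l 16771984) (l 16772240))) (a (c (l 16772496) (l 16772728)) (c (l 16772976) (l 16773184)))) (a (a (a (l 16773416) (l 16773624)) (a (l 16773832) (a (l 16773984) (l 16774080)))) (a (c (a (l 16774152) (l 16774336)) (a (l 16774304) (l 16774480))) (c (a (l 16774520) (l 16774696)) (a (l 16774656) (l 16774816)))))) (a (a (a (c (a (l 16774856) (l 16775016)) (a (l 16774976) (l 16775128))) (c (a (l 16775168) (l 16775312)) (a (l 16775272) (l 16775408)))) (a (c (a (l 16775448) (l 16775584)) (a (l 16775544) (l 16775664))) (c (a (l 16775704) (l 16775824)) (a (l 16775784) (l 16775888))))) (b (c (a (a (a (l 16775944) (l 16776048)) (a (l 16776136) (a (l 16776208)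 (l 16776248)))) (a (a (a (l 16776288) (l 16776328)) (a (l 16776360) (l 16776400))) (a (a (l 16776432) (l 16776464)) (a (l 16776496) (l 16776520))))) (a (a (a (l 16776008) (l 16776104)) (a (l 16776192) (a (l 16776256) (l 16776296)))) (a (a (a (l 16776336) (l 16776368)) (a (l 16776408) (l 16776440))) (a (a (l 16776472) (l 16776504)) (a (l 16776528) (l 16776560)))))) (l 531594847))))))) (l 531551583))) (l 531552863))), by decide +kernel⟩

def k5_A00pm_112_s1 : ∃ t, chk3 f_A00pm_112_s1 t 9 334 1 = true :=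
  ⟨(a (l 3) (b (l 3) (l 531576399))), by decide +kernel⟩

def k6_A00pm_112_s1 : ∃ t, chk3 f_A00pm_112_s1 t 9 1340 1 = true :=
  ⟨(l 531581743), by decide +kernel⟩

def k7_A00pm_112_s1 : ∃ t, chk3 f_A00pm_112_s1 t 9 5364 1 = true :=
  ⟨(l 531583279), by decide +kernel⟩

def k8_A00pm_112_s1 : ∃ t, chk3 f_A00pm_112_s1 t 9 10730 1 = true :=
  ⟨(l 531583535), by decide +kernel⟩

def k9_A00pm_112_s1 : ∃ t, chk3 f_A00pm_112_s1 t 9 21462 1 = true :=
  ⟨(l 531583791), by decide +kernel⟩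

def k10_A00pm_112_s1 : ∃ t, chk3 f_A00pm_112_s1 t 18 21463 1 = true :=
  ⟨(a (c (c (a (a (a (l 16776544) (l 16776584)) (a (l 16776624) (l 16776664))) (a (a (l 16776688) (l 16776704)) (a (l 16776720) (l 16776720)))) (a (a (a (l 16776560) (l 16776600)) (a (l 16776640) (l 16776672))) (a (a (l 16776696) (l 16776720)) (a (l 16776728) (l 16776736))))) (a (a (c (a (l 16776576) (l 16776616)) (a (l 16776592) (l 16776632))) (a (a (l 16776656) (l 16776672)) (a (l 16776688) (l 16776704)))) (a (a (a (l 16776712) (l 16776720)) (a (l 16776736) (l 16776736))) (a (a (l 16776744) (l 16776752)) (a (l 16776752) (l 16776752)))))) (c (c (a (a (a (l 16776720) (l 16776712)) (a (l 16776696) (l 16776672))) (a (a (l 16776640) (l 16776600)) (a (l 16776560) (l 16776512)))) (a (a (a (l 16776728) (l 16776720)) (a (l 16776704) (l 16776680))) (a (a (l 16776656) (l 16776616)) (a (l 16776576) (l 16776528))))) (c (a (a (a (l 16776744) (l 16776736)) (a (l 16776720) (l 16776696)))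 (a (a (l 16776672) (l 16776632)) (a (l 16776592) (l 16776544)))) (a (a (a (l 16776760) (l 16776744)) (a (l 16776736) (l 16776712))) (a (a (l 16776680) (l 16776648)) (a (l 16776608) (l 16776560))))))), by decide +kernel⟩

def k11_A00pm_112_s1 : ∃ t, chk3 f_A00pm_112_s1 t 19 21463 1 = true :=
  ⟨(a (c (a (a (a (a (l 16776472) (l 16776440)) (a (l 16776408) (l 16776376))) (a (a (l 16776344) (l 16776304)) (a (l 16776264) (l 16776224)))) (a (a (a (l 16776184) (l 16776136)) (l 16776064)) (a (l 16775968) (l 16775864)))) (a (a (a (a (l 16776512) (l 16776480)) (a (l 16776456) (l 16776424))) (a (a (l 16776384) (l 16776352)) (a (l 16776312) (l 16776272)))) (a (a (a (l 16776232) (l 16776192)) (l 16776128)) (a (l 16776032) (l 16775928))))) (a (a (c (a (l 16775752) (l 16775632)) (a (l 16775824) (l 16775712))) (c (a (l 16775504) (l 16775368)) (a (l 16775584) (l 16775456)))) (a (c (a (l 16775224) (l 16775072)) (a (l 16775320) (l 16775184))) (c (a (l 16774920)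 (l 16774752)) (a (l 16775032) (l 16774880)))))), by decide +kernel⟩

def k12_A00pm_112_s1 : ∃ t, chk3 f_A00pm_112_s1 t 9 2683 1 = true :=
  ⟨(l 531584351), by decide +kernel⟩

def k13_A00pm_112_s1 : ∃ t, chk3 f_A00pm_112_s1 t 9 671 1 = true :=
  ⟨(l 531586399), by decide +kernel⟩

def k14_A00pm_112_s1 : ∃ t, chk3 f_A00pm_112_s1 t 4 21 1 = true :=
  ⟨(a (a (b (l 531546207) (b (l 531037279) (l 531053679))) (l 531620703)) (a (l 531647071) (l 531635295))), by decide +kernel⟩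

def k15_A00pm_112_s1 : ∃ t, chk3 f_A00pm_112_s1 t 4 11 1 = true :=
  ⟨(a (b (a (a (a (b (a (l 16663048) (l 16705888)) (l 16679128)) (b (l 531604831) (l 16681168))) (b (l 531635807) (b (l 16690304) (l 16677472)))) (b (l 531683679) (l 531717743))) (a (b (a (b (l 16660392) (l 16647192)) (b (l 16664544) (l 16651528))) (a (b (l 16634032) (l 16621000)) (l 16589848))) (b (l 531479663) (a (l 16636016) (l 16639504))))) (a (b (l 531738719) (l 531814255)) (l 531776351))), by decide +kernel⟩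

def k16_A00pm_112_s1 : ∃ t, chk3 f_A00pm_112_s1 t 5 5 1 = true :=
  ⟨(a (a (b (b (b (l 3) (b (l 3) (b (l 531499855) (b (l 531246159) (b (b (l 531521071) (b (b (l 531522607) (b (l 531523119) (b (l 531523375) (a (a (a (c (a (l 16774584) (l 16774408)) (a (l 16774712) (l 16774544))) (c (a (l 16774216) (l 16774024)) (a (l 16774368) (l 16774184)))) (c (a (l 16773720) (l 16773288)) (a (l 16773896) (l 16773488)))) (a (a (c (l 16772824) (l 16773048)) (c (l 16772336) (l 16772576))) (a (c (l 16771808) (l 16772072)) (c (l 16771256) (l 16771544)))))))) (l 531524191))) (l 531526751)))))) (l 531586143)) (b (l 531716703) (l 531827551))) (b (b (a (b (l 1) (b (l 1) (b (l 1) (b (l 1) (b (l 1) (l 531466335)))))) (l 1)) (a (l 531536991) (a (b (a (l 531478111) (l 1)) (l 531550815)) (b (l 1) (a (l 110628826567) (l 109018212183)))))) (a (l 531726687) (b (a (l 531656031) (l 531366239)) (l 531775071))))) (b (a (a (a (b (l 1) (b (l 1) (l 178811428151))) (l 1)) (l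 1)) (l 1)) (a (a (b (a (b (a (l 16705968) (l 16705072)) (l 16683120)) (b (l 105260064119) (l 16681272))) (b (l 16618072) (l 16637968))) (b (a (b (l 175590128551) (l 16679240)) (b (l 1) (l 16635152))) (b (b (l 16661528) (l 16650528)) (l 16634112)))) (b (a (b (l 1) (a (l 16633184) (l 1))) (l 1)) (a (b (a (l 16652720) (l 16650824)) (l 16587736)) (b (l 188474902503) (l 16625744))))))), by decide +kernel⟩

def k17_A00pm_112_s1 : ∃ t, chk3 f_A00pm_112_s1 t 2 3 1 = true :=
  ⟨(a (b (a (b (b (a (a (b (l 16601520) (l 16575608)) (b (l 16563576) (l 16579472))) (a (b (l 16610040) (l 16583824)) (b (l 16614168) (l 16588432)))) (a (b (a (l 16549736) (l 16553712)) (a (l 16523952) (l 16527944))) (a (b (l 16557656) (l 16531888)) (b (l 16562312) (l 16536088))))) (b (a (b (l 16416232) (l 16474680)) (b (a (l 16506200) (l 16510112)) (l 16419384))) (l 6))) (b (a (b (b (l 530926175) (l 531892335)) (a (l 16469864) (l 16557824))) (b (l 531914335) (a (l 16560976)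 (l 16563256)))) (b (a (a (b (l 16514688) (l 16488496)) (l 16506312)) (a (l 16510792) (l 16514312))) (l 6)))) (l 6)) (b (b (a (a (a (l 531954543) (l 531953263)) (a (l 531943535) (l 531926127))) (a (b (b (a (l 16616016) (l 16612312)) (l 531603567)) (b (l 16486600) (l 16548640))) (b (a (b (l 16607856) (l 16586256)) (b (l 16603528) (l 16581600))) (a (l 16470104) (b (l 16559968) (l 16538544)))))) (b (a (a (l 532060271) (l 532066671)) (a (a (l 16516928) (l 16514432)) (a (l 16510952) (l 16506520)))) (l 6))) (l 6))), by decide +kernel⟩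

def k18_A00pm_112_s1 : ∃ t, chk3 f_A00pm_112_s1 t 3 1 1 = true :=
  ⟨(b (a (b (l 1) (b (l 1) (b (l 1) (a (a (a (b (l 1) (l 16621944)) (l 1)) (l 1)) (l 1))))) (l 1)) (b (a (b (a (a (b (a (b (l 16599760) (l 16577712)) (b (l 16595784) (l 16573776))) (a (b (l 16555776) (l 16533920)) (l 16457088))) (b (a (l 170221114935) (l 1)) (a (l 16453144) (l 16449168)))) (a (b (l 1) (a (l 16445248) (l 1))) (l 1))) (b (a (a (a (l 16417720) (l 16497352)) (a (l 16493456) (l 16489592))) (b (a (l 16410832) (l 1)) (l 6))) (l 6))) (a (b (l 1) (l 6)) (l 1))) (l 6))), by decide +kernel⟩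

theorem t19_A00pm_112_s1 : ∃ t, chk3 f_A00pm_112_s1 t 9 21463 1 = true := ex3_a k10_A00pm_112_s1 k11_A00pm_112_s1

theorem t20_A00pm_112_s1 : ∃ t, chk3 f_A00pm_112_s1 t 9 10731 1 = true := ex3_b k9_A00pm_112_s1 t19_A00pm_112_s1

theorem t21_A00pm_112_s1 : ∃ t, chk3 f_A00pm_112_s1 t 9 5365 1 = true := ex3_b k8_A00pm_112_s1 t20_A00pm_112_s1

theorem t22_A00pm_112_s1 : ∃ t, chk3 f_A00pm_112_s1 t 9 2682 1 = true := ex3_b k7_A00pm_112_s1 t21_A00pm_112_s1

theorem t23_A00pm_112_s1 : ∃ t, chk3 f_A00pm_112_s1 t 9 1341 1 = true := ex3_b t22_A00pm_112_s1 k12_A00pm_112_s1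

theorem t24_A00pm_112_s1 : ∃ t, chk3 f_A00pm_112_s1 t 9 670 1 = true := ex3_b k6_A00pm_112_s1 t23_A00pm_112_s1

theorem t25_A00pm_112_s1 : ∃ t, chk3 f_A00pm_112_s1 t 9 335 1 = true := ex3_b t24_A00pm_112_s1 k13_A00pm_112_s1

theorem t26_A00pm_112_s1 : ∃ t, chk3 f_A00pm_112_s1 t 9 167 1 = true := ex3_b k5_A00pm_112_s1 t25_A00pm_112_s1

theorem t27_A00pm_112_s1 : ∃ t, chk3 f_A00pm_112_s1 t 4 167 1 = true := ex3_a k4_A00pm_112_s1 t26_A00pm_112_s1

theorem t28_A00pm_112_s1 : ∃ t, chk3 f_A00pm_112_s1 t 4 83 1 = true := ex3_b k3_A00pm_112_s1 t27_A00pm_112_s1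

theorem t29_A00pm_112_s1 : ∃ t, chk3 f_A00pm_112_s1 t 4 41 1 = true := ex3_b k2_A00pm_112_s1 t28_A00pm_112_s1

theorem t30_A00pm_112_s1 : ∃ t, chk3 f_A00pm_112_s1 t 4 20 1 = true := ex3_b k1_A00pm_112_s1 t29_A00pm_112_s1

theorem t31_A00pm_112_s1 : ∃ t, chk3 f_A00pm_112_s1 t 4 10 1 = true := ex3_b t30_A00pm_112_s1 k14_A00pm_112_s1

theorem t32_A00pm_112_s1 : ∃ t, chk3 f_A00pm_112_s1 t 4 5 1 = true := ex3_b t31_A00pm_112_s1 k15_A00pm_112_s1

theorem t33_A00pm_112_s1 : ∃ t, chk3 f_A00pm_112_s1 t 2 5 1 = true := ex3_a t32_A00pm_112_s1 k16_A00pm_112_s1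

theorem t34_A00pm_112_s1 : ∃ t, chk3 f_A00pm_112_s1 t 2 2 1 = true := ex3_b k0_A00pm_112_s1 t33_A00pm_112_s1

theorem t35_A00pm_112_s1 : ∃ t, chk3 f_A00pm_112_s1 t 2 1 1 = true := ex3_b t34_A00pm_112_s1 k17_A00pm_112_s1

theorem t36_A00pm_112_s1 : ∃ t, chk3 f_A00pm_112_s1 t 1 1 1 = true := ex3_a t35_A00pm_112_s1 k18_A00pm_112_s1

theorem c_A00pm_112_s1 : CertF 536870912 536870912 536870912 536870912 991146299 28908434 true true false .dn 1 1 2
    ndB0q1 ndB0q1 pcB2 cut_A00pm_112_s1 xt_A00pm_112_s1 :=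
  certF1 (fam := true) (s1 := true) (s2 := false) (a := 1) (b := 1) (c := 2) (cn := .dn) (n1 := ndB0q1) (n2 := ndB0q1) (pc := pcB2) (cut := cut_A00pm_112_s1) (xt := xt_A00pm_112_s1) (P1 := 536870912) (W1 := 536870912) (P2 := 536870912) (W2 := 536870912) (P3 := 991146299) (W3 := 28908434)
    rfl (fun _ => rfl) t36_A00pm_112_s1

theorem s_A00pm_112_s1 {κ x : ℝ} (hκ : κ * h0 = ken x) (hx : ((991146299 : ℕ) : ℝ) / S ≤ x)
    (hx' : x ≤ (((991146299 : ℕ) : ℝ) + (28908434 : ℕ)) / S) :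
    AltA (VFD κ) PP tK tL pcB [⟨3, 0, 0, 1449551462⟩] 1 1 2 0 0 (sgb true) (sgb false) x :=
  strip_altAD (m := 1449551462) true rfl hκ (SH.κ0 hκ (SH.hx1 hx).le (SH.hx2 hx').le) (SH.hx1 hx).le (SH.hx2 hx') (covB01).cov (covB01).cov hx hx' c_A00pm_112_s1 cutA_nil ((okx hx hx').extA (T := tt) (sideB hx hx') hκ rfl rfl (.O 1 true) (.O 1 false) rfl)

noncomputable def cut_A00pm_112_s3 : Cut := Cut.of [[⟨3, 0, 0, 2845415833⟩]]

noncomputable def f_A00pm_112_s3 : ℕ → ℕ → ℕ → ℕ → Bool := onCell 536870912 536870912 1073741824 536870912 991146299 28908434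
    (rowF 1 true true false .dn 1 1 2 (qsf 536870912 536870912 536870912 536870912 2) ndB0q1 ndB0q1 pcB2 cut_A00pm_112_s3 Ext.none)

def k0_A00pm_112_s3 : ∃ t, chk3 f_A00pm_112_s3 t 1 1 1 = true :=
  ⟨(l 6), by decide +kernel⟩

theorem c_A00pm_112_s3 : CertF 536870912 536870912 536870912 536870912 991146299 28908434 true true false .dn 1 1 2
    ndB0q1 ndB0q1 pcB2 cut_A00pm_112_s3 Ext.none :=
  certF1 (fam := true) (s1 := true) (s2 := false) (a := 1) (b := 1) (c := 2) (cn := .dn) (n1 := ndB0q1) (n2 := ndB0q1) (pc := pcB2) (cut := cut_A00pm_112_s3) (xt := Ext.none) (P1 := 536870912) (W1 := 536870912) (P2 := 536870912) (W2 := 536870912) (P3 := 991146299) (W3 := 28908434)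
    rfl (fun _ => rfl) k0_A00pm_112_s3

theorem s_A00pm_112_s3 {κ x : ℝ} (hκ : κ * h0 = ken x) (hx : ((991146299 : ℕ) : ℝ) / S ≤ x)
    (hx' : x ≤ (((991146299 : ℕ) : ℝ) + (28908434 : ℕ)) / S) :
    AltA (VFD κ) PP tK tL pcB [⟨4, 0, 0, 2845415833⟩] 1 1 2 0 0 (sgb true) (sgb false) x :=
  strip_altAD (m := 2845415833) false rfl hκ (SH.κ0 hκ (SH.hx1 hx).le (SH.hx2 hx').le) (SH.hx1 hx).le (SH.hx2 hx') (covB01).cov (covB01).cov hx hx' c_A00pm_112_s3 cutA_nil (noExt_A)

noncomputable def cut_A00pm_113_s1 : Cut := Cut.of [[⟨4, 0, 0, 1449551462⟩], [⟨0, 1, 0, 37748736⟩, ⟨1, 1, 0, 37748736⟩, ⟨2, 2, 0, 5242880⟩], [⟨0, 0, 1, 46137344⟩, ⟨1, 1, 0, 2097152⟩, ⟨2, 1, 1, 46137344⟩, ⟨0, 0, 0, 1027248803⟩, ⟨0, 1, 0, 87939455⟩, ⟨2, 1, 0, 1027248803⟩, ⟨2, 2, 0, 87939455⟩], [⟨0, 1, 0, 2097152⟩, ⟨1, 0, 1, 46137344⟩, ⟨2, 1, 1, 46137344⟩, ⟨1, 0, 0, 1027248803⟩, ⟨1, 1, 0, 87939455⟩, ⟨2, 1, 0, 1027248803⟩, ⟨2, 2, 0, 87939455⟩]]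

noncomputable def f_A00pm_113_s1 : ℕ → ℕ → ℕ → ℕ → Bool := onCell 1610612736 536870912 536870912 536870912 991146299 28908434
    (rowF 2 true true false .nn 1 1 3 (qsf 536870912 536870912 536870912 536870912 3) ndB0q1 ndB0q1 pcB3 cut_A00pm_113_s1 Ext.none)

def k0_A00pm_113_s1 : ∃ t, chk3 f_A00pm_113_s1 t 1 1 1 = true :=
  ⟨(a (b (a (l 6) (l 6)) (l 6)) (l 6)), by decide +kernel⟩

theorem c_A00pm_113_s1 : CertF 536870912 536870912 536870912 536870912 991146299 28908434 true true false .nn 1 1 3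
    ndB0q1 ndB0q1 pcB3 cut_A00pm_113_s1 Ext.none :=
  certF2 (fam := true) (s1 := true) (s2 := false) (a := 1) (b := 1) (c := 3) (cn := .nn) (n1 := ndB0q1) (n2 := ndB0q1) (pc := pcB3) (cut := cut_A00pm_113_s1) (xt := Ext.none) (P1 := 536870912) (W1 := 536870912) (P2 := 536870912) (W2 := 536870912) (P3 := 991146299) (W3 := 28908434)
    rfl (fun _ => rfl) k0_A00pm_113_s1

theorem s_A00pm_113_s1 {κ x : ℝ} (hκ : κ * h0 = ken x) (hx : ((991146299 : ℕ) : ℝ) / S ≤ x)
    (hx' : x ≤ (((991146299 : ℕ) : ℝ) + (28908434 : ℕ)) / S)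
    (H : CutA (VFD κ) PP tK tL pcB (Cut.of [[⟨0, 1, 0, 37748736⟩, ⟨1, 1, 0, 37748736⟩, ⟨2, 2, 0, 5242880⟩], [⟨0, 0, 1, 46137344⟩, ⟨1, 1, 0, 2097152⟩, ⟨2, 1, 1, 46137344⟩, ⟨0, 0, 0, 1027248803⟩, ⟨0, 1, 0, 87939455⟩, ⟨2, 1, 0, 1027248803⟩, ⟨2, 2, 0, 87939455⟩], [⟨0, 1, 0, 2097152⟩, ⟨1, 0, 1, 46137344⟩, ⟨2, 1, 1, 46137344⟩, ⟨1, 0, 0, 1027248803⟩, ⟨1, 1, 0, 87939455⟩, ⟨2, 1, 0, 1027248803⟩, ⟨2, 2, 0, 87939455⟩]]) 1 1 3 0 0 (sgb true) (sgb false) x) :
    AltA (VFD κ) PP tK tL pcB [⟨3, 0, 0, 1449551462⟩] 1 1 3 0 0 (sgb true) (sgb false) x :=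
  strip_altAD (m := 1449551462) true rfl hκ (SH.κ0 hκ (SH.hx1 hx).le (SH.hx2 hx').le) (SH.hx1 hx).le (SH.hx2 hx') (covB01).cov (covB01).cov hx hx' c_A00pm_113_s1 H (noExt_A)

noncomputable def cut_A00pm_113_s3 : Cut := Cut.of [[⟨3, 0, 0, 3194381926⟩], [⟨0, 1, 0, 37748736⟩, ⟨1, 1, 0, 37748736⟩, ⟨2, 2, 0, 5242880⟩], [⟨0, 0, 1, 46137344⟩, ⟨1, 1, 0, 2097152⟩, ⟨2, 1, 1, 46137344⟩, ⟨0, 0, 0, 1027248803⟩, ⟨0, 1, 0, 87939455⟩, ⟨2, 1, 0, 1027248803⟩, ⟨2, 2, 0, 87939455⟩], [⟨0, 1, 0, 2097152⟩, ⟨1, 0, 1, 46137344⟩, ⟨2, 1, 1, 46137344⟩, ⟨1, 0, 0, 1027248803⟩, ⟨1, 1, 0, 87939455⟩, ⟨2, 1, 0, 1027248803⟩, ⟨2, 2, 0, 87939455⟩]]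

noncomputable def f_A00pm_113_s3 : ℕ → ℕ → ℕ → ℕ → Bool := onCell 536870912 536870912 536870912 536870912 991146299 28908434
    (rowF 0 true true false .nn 1 1 3 (qsf 536870912 536870912 536870912 536870912 3) ndB0q1 ndB0q1 pcB3 cut_A00pm_113_s3 Ext.none)

def k0_A00pm_113_s3 : ∃ t, chk3 f_A00pm_113_s3 t 2 1 1 = true :=
  ⟨(l 6), by decide +kernel⟩

def k1_A00pm_113_s3 : ∃ t, chk3 f_A00pm_113_s3 t 3 2 1 = true :=
  ⟨(l 6), by decide +kernel⟩

def k2_A00pm_113_s3 : ∃ t, chk3 f_A00pm_113_s3 t 6 3 1 = true :=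
  ⟨(l 6), by decide +kernel⟩

def k3_A00pm_113_s3 : ∃ t, chk3 f_A00pm_113_s3 t 7 6 1 = true :=
  ⟨(l 6), by decide +kernel⟩

def k4_A00pm_113_s3 : ∃ t, chk3 f_A00pm_113_s3 t 14 7 1 = true :=
  ⟨(l 6), by decide +kernel⟩

def k5_A00pm_113_s3 : ∃ t, chk3 f_A00pm_113_s3 t 15 14 1 = true :=
  ⟨(l 6), by decide +kernel⟩

def k6_A00pm_113_s3 : ∃ t, chk3 f_A00pm_113_s3 t 30 15 1 = true :=
  ⟨(l 6), by decide +kernel⟩

def k7_A00pm_113_s3 : ∃ t, chk3 f_A00pm_113_s3 t 31 30 1 = true :=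
  ⟨(l 6), by decide +kernel⟩

def k8_A00pm_113_s3 : ∃ t, chk3 f_A00pm_113_s3 t 62 31 1 = true :=
  ⟨(l 6), by decide +kernel⟩

def k9_A00pm_113_s3 : ∃ t, chk3 f_A00pm_113_s3 t 63 62 1 = true :=
  ⟨(l 6), by decide +kernel⟩

def k10_A00pm_113_s3 : ∃ t, chk3 f_A00pm_113_s3 t 126 63 1 = true :=
  ⟨(b (l 6) (b (l 6) (b (l 6) (b (l 6) (a (l 6) (a (l 6) (a (l 6) (a (b (l 6) (c (c (l 16771320) (l 16771528)) (c (l 16771752) (c (l 16771928) (l 16772048))))) (c (c (b (l 16774240) (l 16771848)) (b (l 16774384) (l 16772032))) (b (c (l 16774544) (c (l 16774672) (l 16774760))) (c (l 16772232) (c (l 16772384) (l 16772496))))))))))))), by decide +kernel⟩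

def k11_A00pm_113_s3 : ∃ t, chk3 f_A00pm_113_s3 t 127 126 1 = true :=
  ⟨(a (l 6) (a (l 6) (a (l 6) (b (l 6) (b (l 6) (b (l 6) (b (a (l 6) (c (c (l 16771320) (l 16771528)) (c (l 16771752) (c (l 16771928) (l 16772048))))) (c (c (a (l 16774240) (l 16771848)) (a (l 16774384) (l 16772032))) (a (c (l 16774544) (c (l 16774672) (l 16774760))) (c (l 16772232) (c (l 16772384) (l 16772496)))))))))))), by decide +kernel⟩

def k12_A00pm_113_s3 : ∃ t, chk3 f_A00pm_113_s3 t 254 254 1 = true :=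
  ⟨(b (l 6) (a (l 6) (a (l 6) (b (l 6) (c (c (l 16775856) (l 16775856)) (c (c (l 16775856) (l 16775856)) (c (l 16775864) (l 16775864)))))))), by decide +kernel⟩

def k13_A00pm_113_s3 : ∃ t, chk3 f_A00pm_113_s3 t 254 1020 2 = true :=
  ⟨(a (l 6) (a (b (a (l 6) (c (l 16773552) (l 16774864))) (a (b (l 6) (c (l 16775504) (l 16777232))) (a (a (b (l 6) (b (b (l 6) (l 16773544)) (l 16773656))) (b (c (l 16776264) (l 16777968)) (b (c (b (l 16775368) (a (l 16775200) (l 16772592))) (l 16774528)) (l 16773592)))) (b (c (l 16777016) (l 16778560)) (b (c (a (l 16773032) (l 16776128)) (l 16777608)) (c (a (b (b (l 16772648) (l 16772616)) (l 16775312)) (b (l 16775568) (a (l 16772648) (l 16772744)))) (a (l 16777072) (l 16774608)))))))) (c (b (c (l 16771160) (l 16771480)) (a (a (c (l 16771664) (l 16777616)) (l 16773024)) (l 16774536))) (b (c (l 16771816) (l 16772152)) (a (a (l 16773456) (l 16774240)) (l 16775424)))))), by decide +kernel⟩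

def k14_A00pm_113_s3 : ∃ t, chk3 f_A00pm_113_s3 t 508 1021 2 = true :=
  ⟨(a (l 6) (b (a (l 6) (c (l 16776416) (l 16777720))) (b (c (l 16777200) (l 16778128)) (c (l 16777672) (l 16778376))))), by decide +kernel⟩

def k15_A00pm_113_s3 : ∃ t, chk3 f_A00pm_113_s3 t 509 1021 2 = true :=
  ⟨(a (c (b (a (b (l 16775928) (l 16776376)) (b (b (a (l 16775600) (l 16772808)) (l 16773112)) (l 16776080))) (a (l 16777072) (b (l 16776544) (l 16777032)))) (b (a (l 16777552) (b (a (l 16777288) (l 16777176)) (l 16777472))) (a (l 16778032) (l 16777848)))) (b (a (b (a (b (c (a (b (a (l 16772704) (l 16775456)) (l 16772736)) (b (l 16775800) (a (l 16772768) (l 16775560)))) (b (l 16774688) (a (l 16777064) (l 16777176)))) (a (l 16773712) (c (b (a (l 16775408) (l 16772760)) (l 16775496)) (l 16777088)))) (b (c (l 16776360) (l 16777864)) (c (a (b (a (l 16772856) (l 16775664)) (a (l 16775432) (l 16772816))) (l 16773256)) (a (b (l 16777224) (l 16777072)) (l 16777432)))))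 (a (c (l 16775832) (l 16777296)) (b (a (l 16773728) (b (c (a (l 16772832) (a (l 16772840) (l 16772896))) (l 16777096)) (l 16773696))) (c (l 16775768) (l 16777232))))) (b (c (c (l 16771944) (l 16777792)) (b (l 16779048) (l 16773160))) (a (b (b (c (l 16773424) (l 16777528)) (a (c (a (l 16772872) (l 16775584)) (l 16777120)) (l 16774024))) (a (c (l 16773008) (l 16777128)) (b (c (a (b (l 16772928) (l 16775528)) (l 16775680)) (l 16777160)) (c (l 16772968) (l 16777088))))) (b (c (l 16776848) (l 16778144)) (c (a (b (l 16776024) (a (a (l 16772952) (l 16773008)) (l 16775784))) (l 16776336)) (a (l 16774728) (l 16777696))))))) (a (b (c (l 16776216) (l 16777488)) (c (l 16776712) (l 16777760))) (b (a (c (l 16775944) (l 16777288)) (b (a (b (a (l 16773744) (c (b (l 16772968) (l 16775616)) (l 16777080))) (l 16773816)) (c (b (a (a (l 16773024) (l 16773104)) (l 16775888)) (a (l 16775664) (b (l 16773040) (l 16775640)))) (b (l 16777248) (l 16777104)))) (c (l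 16775872) (l 16777216)))) (c (a (l 16776440) (l 16776248)) (l 16777496)))))), by decide +kernel⟩

def k16_A00pm_113_s3 : ∃ t, chk3 f_A00pm_113_s3 t 254 510 3 = true :=
  ⟨(b (a (l 6) (a (a (b (l 6) (b (l 6) (c (l 16779016) (l 16780864)))) (b (c (l 16776216) (l 16777616)) (c (b (c (l 16779480) (l 16780336)) (a (b (l 16779016) (l 16778936)) (b (l 16779368) (l 16776376)))) (b (c (l 16781208) (l 16782096)) (c (l 16777904) (l 16781464)))))) (c (b (c (l 16772496) (l 16772840)) (a (a (l 16774944) (l 16775504)) (l 16776344))) (b (c (l 16773192) (l 16773552)) (a (a (l 16776472) (l 16776808)) (l 16777296)))))) (a (a (l 6) (b (c (l 16779088) (l 16780424)) (c (b (l 16779088) (l 16779112)) (b (l 16780080) (l 16779864))))) (a (b (a (c (l 16779000) (l 16780496)) (c (b (a (l 16778928) (l 16778872)) (l 16778912)) (c (l 16780104) (l 16780920)))) (c (a (l 16779032) (l 16778944)) (b (l 16780176) (l 16779968)))) (c (b (a (b (a (b (l 16776360) (l 16778800)) (b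 (l 16779424) (l 16776352))) (a (l 16778816) (b (l 16778744) (l 16778744)))) (b (l 16774752) (a (b (l 16776360) (a (l 16778680) (l 16778696))) (a (l 16776488) (l 16779360))))) (a (b (l 16778800) (l 16778840)) (b (a (l 16778688) (b (a (l 16778608) (l 16778672)) (l 16778600))) (l 16778688)))) (b (a (b (a (l 16778048) (b (l 16781024) (l 16780664))) (a (l 16780384) (l 16777736))) (b (l 16776072) (c (a (l 16780056) (l 16780312)) (l 16780976)))) (a (l 16780056) (b (a (l 16780120) (b (l 16780176) (l 16780040))) (l 16779912)))))))), by decide +kernel⟩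

def k17_A00pm_113_s3 : ∃ t, chk3 f_A00pm_113_s3 t 508 511 2 = true :=
  ⟨(b (b (b (a (l 6) (c (l 16778152) (l 16778640))) (a (a (l 6) (a (l 6) (a (l 6) (c (l 16778864) (l 16779016))))) (a (c (l 16778752) (l 16778968)) (a (l 16778752) (l 16778664))))) (b (a (a (l 6) (c (l 16778296) (l 16778360))) (a (b (a (b (a (l 16776448) (l 16776488)) (l 16778904)) (b (l 16779072) (c (l 16779056) (l 16779120)))) (l 16778600)) (b (c (l 16778952) (l 16776472)) (c (a (l 16776304) (a (l 16776432) (l 16776464))) (a (l 16776352) (a (l 16776488) (l 16776536))))))) (a (c (l 16776848) (l 16776936)) (c (l 16777936) (l 16778000))))) (a (a (b (c (l 16774784) (l 16774912)) (c (l 16772360) (l 16772520))) (b (c (l 16775312) (l 16775424)) (c (l 16772864) (l 16773008)))) (a (b (c (l 16775840) (l 16775936)) (c (l 16773360) (l 16773480))) (b (c (l 16776352) (l 16776432)) (c (l 16773840) (l 16773952)))))), by decide +kernel⟩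

def k18_A00pm_113_s3 : ∃ t, chk3 f_A00pm_113_s3 t 509 511 2 = true :=
  ⟨(b (b (c (a (b (l 16777680) (b (l 16778064) (l 16778328))) (a (b (l 16777224) (l 16777752)) (b (l 16776872) (l 16777408)))) (a (b (l 16778352) (a (l 16778728) (l 16778560))) (a (b (l 16778048) (l 16778352)) (b (l 16777792) (l 16778104))))) (a (b (a (a (b (l 16778888) (c (l 16776432) (l 16776528))) (a (l 16778920) (l 16778872))) (c (l 16778600) (l 16778872))) (b (a (b (a (c (l 16779024) (l 16779072)) (c (l 16779120) (l 16779176))) (l 16778888)) (a (b (l 16779064) (c (l 16776488) (l 16776536))) (c (l 16778952) (l 16779072)))) (a (l 16778440) (a (l 16778808) (c (l 16778960) (l 16779008)))))) (b (a (c (l 16778304) (l 16778672)) (c (l 16777968) (l 16778432))) (a (a (b (l 16776272) (b (l 16779064) (c (l 16776424) (l 16776472)))) (c (l 16778808) (l 16778968))) (c (l 16778552) (l 16778784)))))) (b (b (a (c (l 16777736) (l 16777792)) (a (a (l 16778368) (b (c (l 16778856) (l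 16778896)) (l 16778288))) (b (b (a (c (l 16779008) (l 16779072)) (l 16778896)) (a (c (l 16776320) (l 16776352)) (c (l 16776352) (c (l 16779016) (l 16779040))))) (a (l 16778520) (c (l 16778712) (l 16778744)))))) (a (a (l 16776264) (l 16776744)) (a (c (l 16777184) (l 16777232)) (c (l 16777648) (l 16777680))))) (b (a (c (l 16775192) (a (l 16775040) (l 16775496))) (c (a (l 16775888) (l 16776336)) (a (l 16775944) (l 16776376)))) (a (c (l 16773904) (a (l 16773768) (l 16774208))) (a (c (l 16774576) (l 16774640)) (l 14)))))), by decide +kernel⟩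

def k19_A00pm_113_s3 : ∃ t, chk3 f_A00pm_113_s3 t 508 511 3 = true :=
  ⟨(a (b (b (a (l 6) (a (l 6) (a (l 6) (b (l 6) (b (l 6) (c (l 16779192) (l 16779304))))))) (b (a (l 6) (c (l 16778432) (l 16778512))) (c (l 16777032) (c (l 16777112) (l 16777168))))) (b (c (a (l 16775048) (l 16775544)) (a (c (l 16775160) (l 16775232)) (c (l 16775640) (l 16775704)))) (b (c (l 16773528) (c (l 16773656) (l 16773736))) (c (l 16772328) (c (l 16772464) (l 16772560)))))) (b (b (c (b (b (l 16779136) (l 16776536)) (a (l 16776568) (l 16776568))) (a (c (l 16776808) (l 16779616)) (c (l 16776872) (l 16779728)))) (b (c (a (b (b (c (l 16776560) (l 16776600)) (a (l 16778984) (l 16776560))) (l 16778688)) (b (l 16776616) (c (l 16779072) (l 16779104)))) (a (b (c (b (l 16776648) (l 16776496)) (b (l 16776696) (l 16776528))) (l 16778752)) (c (b (l 16779352) (b (l 16776632) (l 16779072))) (b (l 16779432) (c (l 16779176) (l 16779192)))))) (c (a (l 16777808) (l 16778320)) (a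 (l 16777888) (l 16778384))))) (b (b (c (a (l 16776632) (l 16777120)) (a (l 16776728) (l 16777208))) (c (a (l 16775440) (l 16775912)) (a (l 16775552) (l 16776008)))) (c (a (c (l 16773584) (l 16773656)) (c (l 16774032) (l 16774096))) (a (c (l 16773720) (l 16773800)) (b (l 16774800) (l 16773576))))))), by decide +kernel⟩

def k20_A00pm_113_s3 : ∃ t, chk3 f_A00pm_113_s3 t 509 1022 3 = true :=
  ⟨(b (a (c (b (l 16779056) (a (l 16779144) (l 16779072))) (b (l 16779776) (c (l 16776856) (l 16779728)))) (c (b (a (l 16778896) (l 16778744)) (a (l 16778968) (l 16778824))) (b (l 16779760) (a (l 16779608) (l 16779568))))) (a (b (c (a (b (l 16779200) (c (l 16776592) (l 16776656))) (b (l 16779136) (l 16779176))) (a (b (l 16779456) (a (c (l 16779328) (l 16779384)) (l 16779384))) (l 16779448))) (c (a (b (a (l 16776352) (b (l 16776624) (l 16779080))) (l 16778520)) (b (a (c (l 16776584) (l 16776624)) (l 16779208)) (a (l 16778880) (c (l 16779048) (l 16779072)))))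 (a (b (a (l 16779032) (b (a (l 16779304) (l 16779336)) (l 16779128))) (l 16778576)) (b (a (c (l 16776664) (b (l 16779376) (l 16779296))) (l 16779344)) (b (c (l 16779128) (l 16779160)) (l 16778896)))))) (b (c (a (l 16779056) (l 16778912)) (a (l 16779448) (l 16779416))) (c (a (b (l 16779128) (b (l 16779168) (a (c (l 16779128) (l 16779152)) (l 16779176)))) (c (l 16776344) (l 16776464))) (a (b (c (l 16779288) (l 16779392)) (b (l 16779288) (a (c (l 16779176) (l 16779200)) (l 16779256)))) (c (l 16776592) (b (l 16779392) (l 16779296)))))))), by decide +kernel⟩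

def k21_A00pm_113_s3 : ∃ t, chk3 f_A00pm_113_s3 t 509 1023 3 = true :=
  ⟨(b (a (c (c (b (l 16777832) (l 16776592)) (b (l 16777856) (l 16776624))) (a (b (l 16777672) (l 16776464)) (b (l 16778136) (l 16776904)))) (b (a (c (b (a (l 16778744) (l 16778936)) (l 16778232)) (b (c (l 16778864) (l 16778888)) (l 16778280))) (a (b (c (c (l 16779040) (l 16779072)) (c (l 16779096) (l 16779128))) (c (l 16778576) (l 16778608))) (b (b (c (l 16779064) (l 16779192)) (c (c (l 16779072) (l 16779104)) (c (l 16779128) (l 16779160)))) (c (l 16778776) (l 16778816))))) (c (a (l 16777280) (l 16777720)) (a (l 16777336) (c (l 16777752) (l 16777776)))))) (a (c (a (b (l 16775136) (l 16773872)) (b (l 16775576) (l 16774296))) (b (a (l 16775232) (l 16775656)) (a (l 16773984) (l 16774384)))) (a (c (b (l 16776000) (l 16774712)) (b (l 16776072) (c (l 16774768) (l 16774800)))) (b (c (l 16776424) (c (l 16776464) (l 16776488))) (l 14))))), by decide +kernel⟩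

def k22_A00pm_113_s3 : ∃ t, chk3 f_A00pm_113_s3 t 1020 254 2 = true :=
  ⟨(b (l 6) (b (a (b (l 6) (c (l 16773552) (l 16774864))) (a (b (l 6) (b (b (l 6) (c (l 16776264) (l 16777968))) (c (l 16777016) (l 16778560)))) (b (c (l 16775504) (l 16777232)) (b (a (b (a (l 6) (l 16773544)) (c (a (l 16775368) (b (l 16775200) (l 16772592))) (l 16774528))) (c (l 16775376) (l 16777128))) (a (c (b (l 16773032) (l 16776128)) (l 16777608)) (c (b (a (a (l 16772648) (l 16772616)) (l 16775312)) (a (l 16775568) (b (l 16772648) (l 16772744)))) (b (l 16777072) (l 16774608)))))))) (c (a (c (l 16771160) (l 16771480)) (b (b (c (l 16771664) (l 16777616)) (l 16773024)) (l 16774536))) (a (c (l 16771816) (l 16772152)) (b (b (l 16773456) (l 16774240)) (l 16775424)))))), by decide +kernel⟩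

def k23_A00pm_113_s3 : ∃ t, chk3 f_A00pm_113_s3 t 1021 508 2 = true :=
  ⟨(b (l 6) (a (b (l 6) (c (l 16776416) (l 16777720))) (a (c (l 16777200) (l 16778128)) (c (l 16777672) (l 16778376))))), by decide +kernel⟩

def k24_A00pm_113_s3 : ∃ t, chk3 f_A00pm_113_s3 t 1021 509 2 = true :=
  ⟨(b (c (a (b (a (l 16775928) (l 16776376)) (a (a (b (l 16775600) (l 16772808)) (l 16773112)) (l 16776080))) (b (l 16777072) (a (l 16776544) (l 16777032)))) (a (b (l 16777552) (a (b (l 16777288) (l 16777176)) (l 16777472))) (b (l 16778032) (l 16777848)))) (a (b (a (b (a (c (b (a (b (l 16772704) (l 16775456)) (l 16772736)) (a (l 16775800) (b (l 16772768) (l 16775560)))) (a (l 16774688) (b (l 16777064) (l 16777176)))) (b (l 16773712) (c (a (b (l 16775408) (l 16772760)) (l 16775496)) (l 16777088)))) (a (c (l 16776360) (l 16777864)) (c (b (a (b (l 16772856) (l 16775664)) (b (l 16775432) (l 16772816))) (l 16773256)) (b (a (l 16777224) (l 16777072)) (l 16777432)))))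 (b (c (l 16775832) (l 16777296)) (a (b (l 16773728) (a (c (b (l 16772832) (b (l 16772840) (l 16772896))) (l 16777096)) (l 16773696))) (c (l 16775768) (l 16777232))))) (a (c (c (l 16771944) (l 16777792)) (a (l 16779048) (l 16773160))) (b (a (a (c (l 16773424) (l 16777528)) (b (c (b (l 16772872) (l 16775584)) (l 16777120)) (l 16774024))) (b (c (l 16773008) (l 16777128)) (a (c (b (a (l 16772928) (l 16775528)) (l 16775680)) (l 16777160)) (c (l 16772968) (l 16777088))))) (a (c (l 16776848) (l 16778144)) (c (b (a (l 16776024) (b (b (l 16772952) (l 16773008)) (l 16775784))) (l 16776336)) (b (l 16774728) (l 16777696))))))) (b (a (c (l 16776216) (l 16777488)) (c (l 16776712) (l 16777760))) (a (b (c (l 16775944) (l 16777288)) (a (b (a (b (l 16773744) (c (a (l 16772968) (l 16775616)) (l 16777080))) (l 16773816)) (c (a (a (l 16775864) (a (l 16775744) (l 16775688))) (b (l 16775664) (a (l 16773040) (l 16775640)))) (a (l 16777248) (l 16777104)))) (c (l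 16775872) (l 16777216)))) (c (b (l 16776440) (l 16776248)) (l 16777496)))))), by decide +kernel⟩

def k25_A00pm_113_s3 : ∃ t, chk3 f_A00pm_113_s3 t 510 254 3 = true :=
  ⟨(a (b (l 6) (b (b (a (l 6) (a (l 6) (c (l 16779016) (l 16780864)))) (a (c (l 16776216) (l 16777616)) (c (a (c (l 16779480) (l 16780336)) (b (a (l 16779016) (l 16778936)) (a (l 16779368) (l 16776376)))) (a (c (l 16781208) (l 16782096)) (c (l 16777904) (l 16781464)))))) (c (a (c (l 16772496) (l 16772840)) (b (b (l 16774944) (l 16775504)) (l 16776344))) (a (c (l 16773192) (l 16773552)) (b (b (l 16776472) (l 16776808)) (l 16777296)))))) (b (b (l 6) (a (c (l 16779088) (l 16780424)) (c (a (l 16779088) (l 16779112)) (a (l 16780080) (l 16779864))))) (b (a (b (c (l 16779000) (l 16780496)) (c (a (b (l 16778928) (l 16778872)) (l 16778912)) (c (l 16780104) (l 16780920)))) (c (b (l 16779032) (l 16778944)) (a (l 16780176) (l 16779968)))) (c (a (b (a (b (a (l 16776360) (l 16778800)) (a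 (l 16779424) (l 16776352))) (b (l 16778816) (a (l 16778744) (l 16778744)))) (a (l 16774752) (b (a (l 16776360) (b (l 16778680) (l 16778696))) (b (l 16776488) (l 16779360))))) (b (a (l 16778800) (l 16778840)) (a (b (l 16778688) (a (b (l 16778608) (l 16778672)) (l 16778600))) (l 16778688)))) (a (b (a (b (l 16778048) (a (l 16781024) (l 16780664))) (b (l 16780384) (l 16777736))) (a (l 16776072) (c (b (l 16780056) (l 16780312)) (l 16780976)))) (b (l 16780056) (a (b (l 16780120) (a (l 16780176) (l 16780040))) (l 16779912)))))))), by decide +kernel⟩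

def k26_A00pm_113_s3 : ∃ t, chk3 f_A00pm_113_s3 t 511 508 2 = true :=
  ⟨(a (a (a (b (l 6) (c (l 16778152) (l 16778640))) (b (b (l 6) (b (l 6) (a (l 6) (c (l 16776360) (l 16776456))))) (b (c (l 16778752) (l 16778968)) (b (l 16778752) (l 16778664))))) (a (b (b (l 6) (c (l 16778296) (l 16778360))) (b (a (a (b (a (l 16776488) (l 16776456)) (l 16779072)) (c (c (l 16776312) (l 16776336)) (l 16776384))) (l 16778600)) (a (c (l 16778952) (l 16776472)) (c (a (a (l 16776472) (l 16776448)) (l 16776304)) (a (a (l 16776544) (l 16776504)) (l 16776352)))))) (b (c (l 16776848) (l 16776936)) (c (l 16777936) (l 16778000))))) (b (b (a (c (l 16774784) (l 16774912)) (c (l 16772360) (l 16772520))) (a (c (l 16775312) (l 16775424)) (c (l 16772864) (l 16773008)))) (b (a (c (l 16775840) (l 16775936)) (c (l 16773360) (l 16773480))) (a (c (l 16776352) (l 16776432)) (c (l 16773840) (l 16773952)))))), by decide +kernel⟩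

def k27_A00pm_113_s3 : ∃ t, chk3 f_A00pm_113_s3 t 511 509 2 = true :=
  ⟨(a (a (c (b (a (l 16777680) (a (l 16778064) (l 16778328))) (b (a (l 16777224) (l 16777752)) (a (l 16776872) (l 16777408)))) (b (a (l 16778352) (a (l 16778576) (l 16778728))) (b (a (l 16778048) (l 16778352)) (a (l 16777792) (l 16778104))))) (b (a (b (a (c (l 16778720) (l 16778960)) (a (l 16776376) (c (l 16776440) (l 16776528)))) (c (l 16778600) (l 16778872))) (b (b (c (l 16778568) (l 16778616)) (a (a (c (l 16779120) (l 16779176)) (a (l 16779088) (l 16778960))) (l 16778568))) (a (a (a (l 16778984) (l 16779040)) (b (c (l 16776488) (l 16776536)) (l 16779072))) (b (l 16778808) (c (l 16778960) (l 16779008)))))) (a (b (c (l 16778304) (l 16778672)) (c (l 16777968) (l 16778432))) (b (b (a (l 16776272) (a (l 16779064) (c (l 16776424) (l 16776472)))) (c (l 16778808) (l 16778968))) (c (l 16778552) (l 16778784)))))) (a (a (b (c (l 16777736) (l 16777792)) (b (a (a (c (l 16778896)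 (l 16778936)) (l 16778648)) (l 16778168)) (a (a (b (c (l 16779008) (l 16779072)) (l 16778896)) (b (c (l 16776320) (l 16776352)) (c (l 16776352) (c (l 16779016) (l 16779040))))) (b (l 16778520) (c (l 16778712) (l 16778744)))))) (b (b (l 16776264) (l 16776744)) (b (c (l 16777184) (l 16777232)) (c (l 16777648) (l 16777680))))) (a (b (c (l 16775192) (b (l 16775040) (l 16775496))) (c (b (l 16775888) (l 16776336)) (b (l 16775944) (l 16776376)))) (b (c (l 16773904) (b (l 16773768) (l 16774208))) (b (c (l 16774576) (l 16774640)) (l 14)))))), by decide +kernel⟩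

def k28_A00pm_113_s3 : ∃ t, chk3 f_A00pm_113_s3 t 2044 254 3 = true :=
  ⟨(b (b (b (l 6) (b (l 6) (b (l 6) (a (l 6) (a (l 6) (c (l 16779192) (l 16779304))))))) (c (a (a (l 16779136) (l 16776536)) (b (l 16776568) (l 16776568))) (b (c (l 16776808) (l 16779616)) (c (l 16776872) (l 16779728))))) (b (c (a (l 16779056) (b (l 16779144) (l 16779072))) (a (l 16779776) (c (l 16776856) (l 16779728)))) (c (a (b (l 16778896) (l 16778744)) (b (l 16778968) (l 16778824))) (a (l 16779760) (b (l 16779608) (l 16779568)))))), by decide +kernel⟩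

def k29_A00pm_113_s3 : ∃ t, chk3 f_A00pm_113_s3 t 2045 254 3 = true :=
  ⟨(a (b (b (b (l 6) (c (l 16778432) (l 16778512))) (c (b (a (a (c (l 16776560) (l 16776600)) (b (l 16778984) (l 16776560))) (l 16778688)) (a (l 16776616) (c (l 16779072) (l 16779104)))) (b (a (c (a (l 16776648) (l 16776496)) (a (l 16776696) (l 16776528))) (l 16778752)) (c (a (l 16779352) (a (l 16776632) (l 16779072))) (a (l 16779432) (c (l 16779176) (l 16779192))))))) (b (c (b (a (l 16779200) (c (l 16776592) (l 16776656))) (a (l 16779136) (l 16779176))) (b (a (l 16779456) (a (l 16779392) (c (l 16779320) (l 16779376)))) (l 16779448))) (c (b (l 16779056) (l 16778912)) (b (l 16779448) (l 16779416))))) (b (b (c (l 16777032) (c (l 16777112) (l 16777168))) (c (b (l 16777808) (l 16778320)) (b (l 16777888) (l 16778384)))) (b (c (b (a (b (l 16776352) (a (l 16776624) (l 16779080))) (l 16778520)) (a (b (c (l 16776584) (l 16776624)) (l 16779208)) (b (l 16778880) (c (l 16779048)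 (l 16779072))))) (b (a (a (b (l 16779176) (a (l 16779336) (l 16779296))) (l 16779016)) (l 16778576)) (a (a (l 16779352) (b (c (l 16779264) (l 16779296)) (l 16779320))) (a (c (l 16779128) (l 16779160)) (l 16778896))))) (c (b (a (l 16779128) (a (l 16779168) (b (c (l 16779128) (l 16779152)) (l 16779176)))) (c (l 16776344) (l 16776464))) (b (a (c (l 16779288) (l 16779392)) (a (l 16779288) (b (c (l 16779176) (l 16779200)) (l 16779256)))) (c (l 16776592) (a (l 16779392) (l 16779296)))))))), by decide +kernel⟩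

def k30_A00pm_113_s3 : ∃ t, chk3 f_A00pm_113_s3 t 1023 254 3 = true :=
  ⟨(a (b (a (c (b (l 16775880) (a (l 16777176) (l 16776576))) (b (c (l 16775976) (l 16776040)) (b (l 16776728) (l 16777208)))) (b (c (l 16774712) (c (l 16774824) (l 16774896))) (c (b (l 16775440) (l 16775912)) (b (l 16775552) (l 16776008))))) (b (c (c (a (l 16777832) (l 16776592)) (a (l 16777856) (l 16776624))) (b (a (l 16777672) (l 16776464)) (a (l 16778136) (l 16776904)))) (a (b (c (a (b (l 16778744) (l 16778936)) (l 16778232)) (a (c (l 16778864) (l 16778888)) (l 16778280))) (b (a (c (c (l 16779040) (l 16779072)) (c (l 16779096) (l 16779128))) (c (l 16778576) (l 16778608))) (a (a (c (l 16779064) (l 16779192)) (c (c (l 16779072) (l 16779104)) (c (l 16779128) (l 16779160)))) (c (l 16778776) (l 16778816))))) (c (b (l 16777280) (l 16777720)) (b (l 16777336) (c (l 16777752) (l 16777776))))))) (b (a (b (c (l 16773528) (c (l 16773656) (l 16773736))) (c (b (l 16774224) (l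 16774688)) (b (l 16774360) (l 16774800)))) (b (c (l 16772328) (c (l 16772464) (l 16772560))) (c (c (l 16773192) (l 16773256)) (b (l 16773152) (l 16773576))))) (b (c (b (a (l 16775136) (l 16773872)) (a (l 16775576) (l 16774296))) (a (b (l 16775232) (l 16775656)) (b (l 16773984) (l 16774384)))) (b (c (a (l 16776000) (l 16774712)) (a (l 16776072) (c (l 16774768) (l 16774800)))) (a (c (l 16776424) (c (l 16776464) (l 16776488))) (l 14)))))), by decide +kernel⟩

def k31_A00pm_113_s3 : ∃ t, chk3 f_A00pm_113_s3 t 510 1020 2 = true :=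
  ⟨(a (c (c (l 16773848) (l 16773848)) (c (l 16773848) (l 16773848))) (b (a (c (c (l 16773280) (l 16773728)) (c (l 16774176) (l 16774640))) (a (b (a (c (b (c (l 16775776) (l 16776440)) (l 16776584)) (l 16775032)) (b (a (c (b (l 16773064) (a (l 16773128) (l 16773056))) (l 16777120)) (l 16773832)) (c (a (l 16776024) (a (a (l 16775808) (l 16775760)) (b (l 16775736) (l 16773120)))) (a (l 16777352) (l 16777144))))) (c (a (l 16777344) (l 16773960)) (a (l 16778424) (l 16775160)))) (a (c (b (c (l 16772976) (l 16776232)) (b (a (b (a (l 16773152) (l 16775752)) (l 16775912)) (b (l 16775856) (a (l 16773152) (l 16775832)))) (a (l 16776256) (b (a (l 16773248) (c (l 16775472) (l 16776112))) (l 16776008))))) (b (l 16777200) (a (b (l 16777176) (l 16777480)) (b (l 16777120) (l 16777216))))) (a (b (l 16774088) (b (l 16773944) (b (l 16773872) (c (a (b (l 16775800) (l 16773200)) (l 16775856)) (l 16777104))))) (c (l 16776144) (l 16777304)))))) (a (a (c (l 16776296)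 (l 16776640)) (c (l 16774768) (l 16775336))) (c (a (c (l 16773040) (l 16773432)) (b (a (l 16774200) (b (a (a (l 16776096) (a (l 16775976) (a (l 16775920) (l 16775896)))) (b (l 16775896) (a (b (l 16773224) (l 16775912)) (l 16775872)))) (a (l 16776504) (a (l 16776216) (a (l 16776080) (l 16776008)))))) (a (l 16777840) (l 16774448)))) (b (a (l 16778888) (a (l 16777912) (b (a (l 16777264) (l 16777128)) (l 16774856)))) (c (l 16773576) (l 16773992))))))), by decide +kernel⟩

def k32_A00pm_113_s3 : ∃ t, chk3 f_A00pm_113_s3 t 510 1021 2 = true :=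
  ⟨(a (a (b (c (c (l 16773280) (l 16773728)) (c (l 16774176) (l 16774640))) (b (a (b (c (a (c (l 16775776) (l 16776440)) (l 16776584)) (l 16775032)) (a (b (c (a (l 16773064) (b (l 16773128) (l 16773056))) (l 16777120)) (l 16773832)) (c (b (l 16776024) (a (b (l 16773088) (l 16775736)) (b (l 16775856) (l 16773120)))) (b (l 16777352) (l 16777144))))) (c (b (l 16777344) (l 16773960)) (b (l 16778424) (l 16775160)))) (b (c (a (c (l 16772976) (l 16776232)) (a (b (a (b (l 16773152) (l 16775752)) (l 16775912)) (a (l 16775856) (b (l 16773152) (l 16775832)))) (b (l 16776256) (a (b (l 16773248) (c (l 16775472) (l 16776112))) (l 16776008))))) (a (l 16777200) (b (a (l 16777176) (l 16777480)) (a (l 16777120) (l 16777216))))) (b (a (l 16774088) (a (l 16773944) (a (l 16773872) (c (b (a (l 16775800) (l 16773200)) (l 16775856)) (l 16777104))))) (c (l 16776144) (l 16777304)))))) (b (a (c (l 16775024) (l 16775592)) (c (l 16776040) (l 16776384))) (c (b (c (l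 16773040) (l 16773432)) (a (b (l 16774200) (a (b (a (a (b (l 16775904) (l 16775816)) (l 16775952)) (l 16776120)) (a (l 16775896) (b (a (l 16773224) (l 16775912)) (l 16775872)))) (a (a (b (l 16776312) (l 16775960)) (l 16776248)) (l 16776432)))) (b (l 16777840) (l 16774448)))) (a (b (l 16778888) (b (l 16777912) (a (b (l 16777264) (l 16777128)) (l 16774856)))) (c (l 16773576) (l 16773992)))))) (a (b (c (c (l 16772328) (l 16772328)) (c (l 16772328) (l 16772328))) (b (c (l 16775280) (l 16775624)) (c (c (l 16773600) (l 16773888)) (c (l 16774176) (l 16774464))))) (a (b (c (l 16775280) (l 16775624)) (c (l 16776048) (l 16776160))) (b (c (c (l 16773600) (l 16773888)) (c (l 16774176) (l 16774464))) (l 14))))), by decide +kernel⟩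

def k33_A00pm_113_s3 : ∃ t, chk3 f_A00pm_113_s3 t 510 510 3 = true :=
  ⟨(b (a (c (c (l 16773848) (l 16773848)) (c (l 16773848) (a (l 16773584) (l 16773088)))) (a (b (c (c (l 16775104) (l 16775584)) (c (l 16776064) (l 16776552))) (c (l 16776456) (l 16776944))) (c (a (b (b (a (l 16779000) (b (l 16778552) (l 16778656))) (c (l 16778984) (l 16779576))) (a (l 16780376) (l 16774600))) (b (a (b (l 16778528) (b (a (l 16778536) (l 16778456)) (l 16778656))) (c (l 16778184) (l 16778808))) (b (a (l 16779032) (b (a (l 16778528) (l 16778392)) (l 16778656))) (l 16776704)))) (a (b (c (a (l 16780224) (l 16777240)) (l 16778096)) (c (l 16780744) (l 16781184))) (b (b (l 16777232) (a (l 16779952) (l 16779752))) (b (a (l 16780192) (l 16777216)) (l 16780304))))))) (a (b (a (c (c (l 16775104) (l 16775584)) (c (l 16776064) (l 16776552))) (c (l 16776456) (l 16776944))) (c (b (a (a (b (l 16779000) (a (l 16778552) (l 16778656))) (c (l 16778984) (l 16779576))) (b (l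 16780376) (l 16774600))) (a (b (a (l 16778528) (a (b (l 16778536) (l 16778456)) (l 16778656))) (c (l 16778184) (l 16778808))) (a (b (l 16779032) (a (b (l 16778528) (l 16778392)) (l 16778656))) (l 16776704)))) (a (b (c (a (l 16779888) (l 16780184)) (l 16778096)) (a (l 16777232) (b (l 16779952) (l 16779752)))) (a (b (l 16780808) (b (l 16780192) (l 16777216))) (b (l 16781120) (l 16780304)))))) (c (a (b (c (l 16772328) (l 16772328)) (c (l 16775328) (l 16775568))) (a (b (l 16775976) (l 16776280)) (c (l 16775384) (l 16775568)))) (a (b (l 16777576) (c (l 16775816) (l 16776064))) (c (l 16776192) (l 16776312)))))), by decide +kernel⟩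

def k34_A00pm_113_s3 : ∃ t, chk3 f_A00pm_113_s3 t 1020 511 1 = true :=
  ⟨(b (b (c (a (c (b (a (l 16776576) (b (l 16776232) (l 16776504))) (a (l 16777120) (l 16776920))) (b (a (l 16777576) (l 16777416)) (l 16777816))) (b (a (b (b (a (l 16773960) (a (c (b (a (l 16775896) (l 16775880)) (l 16775952)) (l 16777112)) (c (b (l 16773360) (a (l 16775904) (c (l 16775616) (l 16776200)))) (l 16777144)))) (c (l 16776080) (l 16777208))) (c (l 16776288) (l 16777328))) (b (c (a (b (l 16776256) (a (b (a (l 16775920) (c (l 16775656) (l 16776232))) (l 16775968)) (a (b (l 16776024) (l 16775936)) (l 16776072)))) (l 16773936)) (a (b (l 16777376) (a (l 16777112) (l 16777184))) (l 16777600))) (a (c (a (l 16776144) (l 16776080)) (l 16777200)) (b (b (b (c (l 16776144) (l 16777240)) (l 14)) (l 14)) (l 14))))) (a (c (l 16776704) (l 16777576)) (b (c (l 16776336) (l 16777320)) (l 14))))) (a (c (b (l 16778560) (l 16778640)) (b (l 16779648) (l 16779488))) (b (c (a (b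 (c (l 16778080) (l 16778680)) (l 16778408)) (b (a (b (l 16778528) (l 16778352)) (l 16778672)) (a (l 16778320) (b (l 16778336) (l 14))))) (a (c (l 16779264) (l 16779864)) (b (l 16777112) (c (l 16779184) (l 16779768))))) (c (a (l 16778480) (l 16778352)) (l 16779376))))) (a (c (b (c (l 16777592) (l 16778152)) (c (b (l 16778032) (l 16778336)) (b (l 16778424) (l 16778608)))) (b (c (l 16778736) (l 16779344)) (c (b (l 16778824) (l 16778888)) (c (l 16776504) (l 16779304))))) (a (b (b (c (l 16777480) (l 16778920)) (l 14)) (l 14)) (l 14)))) (a (a (b (b (b (c (l 16778800) (c (l 16779000) (l 16779144))) (l 14)) (l 14)) (l 14)) (l 14)) (l 14))), by decide +kernel⟩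

def k35_A00pm_113_s3 : ∃ t, chk3 f_A00pm_113_s3 t 1021 511 1 = true :=
  ⟨(a (a (b (b (b (b (c (c (l 16774696) (l 16778192)) (c (l 16779088) (l 16780016))) (l 14)) (l 14)) (l 14)) (l 14)) (l 14)) (l 14)), by decide +kernel⟩

def k36_A00pm_113_s3 : ∃ t, chk3 f_A00pm_113_s3 t 511 1020 1 = true :=
  ⟨(a (a (c (b (c (a (b (l 16776576) (a (l 16776232) (l 16776504))) (b (l 16777120) (l 16776920))) (a (b (l 16777576) (l 16777416)) (l 16777816))) (a (b (a (a (b (l 16773960) (b (c (a (b (l 16775896) (l 16775880)) (l 16775952)) (l 16777112)) (c (a (l 16773360) (b (l 16775904) (c (l 16775616) (l 16776200)))) (l 16777144)))) (c (l 16776080) (l 16777208))) (c (l 16776288) (l 16777328))) (a (c (b (a (l 16776256) (b (a (b (l 16775920) (c (l 16775656) (l 16776232))) (l 16775968)) (a (l 16776088) (b (l 16775936) (l 16773360))))) (l 16773936)) (a (l 16774952) (b (a (l 16777176) (l 16777120)) (l 16777432)))) (b (c (b (l 16776144) (l 16776080)) (l 16777200))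 (a (a (a (c (l 16776144) (l 16777240)) (l 14)) (l 14)) (l 14))))) (a (c (b (l 16776560) (l 16776336)) (l 16777408)) (b (l 16774624) (l 14))))) (b (c (a (l 16778560) (l 16778640)) (a (l 16779648) (l 16779488))) (a (c (b (a (c (l 16778080) (l 16778680)) (l 16778408)) (a (b (a (l 16778528) (l 16778352)) (l 16778672)) (b (l 16778320) (a (l 16778336) (l 14))))) (b (c (l 16779264) (l 16779864)) (a (l 16777112) (c (l 16779184) (l 16779768))))) (c (b (l 16778480) (l 16778352)) (l 16779376))))) (b (c (a (c (l 16777592) (l 16778152)) (c (a (l 16778032) (l 16778336)) (a (l 16778424) (l 16778608)))) (a (c (l 16778736) (l 16779344)) (c (a (l 16778824) (l 16778888)) (c (l 16776504) (l 16779304))))) (a (a (b (c (l 16777480) (l 16778920)) (l 14)) (l 14)) (l 14)))) (b (b (a (a (a (c (l 16778800) (c (l 16779000) (l 16779144))) (l 14)) (l 14)) (l 14)) (l 14)) (l 14))), by decide +kernel⟩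

def k37_A00pm_113_s3 : ∃ t, chk3 f_A00pm_113_s3 t 511 1021 1 = true :=
  ⟨(b (b (a (a (a (a (c (c (l 16774696) (l 16778192)) (c (l 16779088) (l 16780016))) (l 14)) (l 14)) (l 14)) (l 14)) (l 14)) (l 14)), by decide +kernel⟩

def k38_A00pm_113_s3 : ∃ t, chk3 f_A00pm_113_s3 t 511 511 1 = true :=
  ⟨(l 14), by decide +kernel⟩

theorem t39_A00pm_113_s3 : ∃ t, chk3 f_A00pm_113_s3 t 511 510 1 = true := ex3_b k36_A00pm_113_s3 k37_A00pm_113_s3

theorem t40_A00pm_113_s3 : ∃ t, chk3 f_A00pm_113_s3 t 511 255 1 = true := ex3_b t39_A00pm_113_s3 k38_A00pm_113_s3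

theorem t41_A00pm_113_s3 : ∃ t, chk3 f_A00pm_113_s3 t 510 511 1 = true := ex3_a k34_A00pm_113_s3 k35_A00pm_113_s3

theorem t42_A00pm_113_s3 : ∃ t, chk3 f_A00pm_113_s3 t 510 510 2 = true := ex3_b k31_A00pm_113_s3 k32_A00pm_113_s3

theorem t43_A00pm_113_s3 : ∃ t, chk3 f_A00pm_113_s3 t 510 510 1 = true := ex3_c t42_A00pm_113_s3 k33_A00pm_113_s3

theorem t44_A00pm_113_s3 : ∃ t, chk3 f_A00pm_113_s3 t 510 255 1 = true := ex3_b t43_A00pm_113_s3 t41_A00pm_113_s3

theorem t45_A00pm_113_s3 : ∃ t, chk3 f_A00pm_113_s3 t 255 255 1 = true := ex3_a t44_A00pm_113_s3 t40_A00pm_113_s3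

theorem t46_A00pm_113_s3 : ∃ t, chk3 f_A00pm_113_s3 t 1022 254 3 = true := ex3_a k28_A00pm_113_s3 k29_A00pm_113_s3

theorem t47_A00pm_113_s3 : ∃ t, chk3 f_A00pm_113_s3 t 511 254 3 = true := ex3_a t46_A00pm_113_s3 k30_A00pm_113_s3

theorem t48_A00pm_113_s3 : ∃ t, chk3 f_A00pm_113_s3 t 511 254 2 = true := ex3_b k26_A00pm_113_s3 k27_A00pm_113_s3

theorem t49_A00pm_113_s3 : ∃ t, chk3 f_A00pm_113_s3 t 511 254 1 = true := ex3_c t48_A00pm_113_s3 t47_A00pm_113_s3

theorem t50_A00pm_113_s3 : ∃ t, chk3 f_A00pm_113_s3 t 1021 254 2 = true := ex3_b k23_A00pm_113_s3 k24_A00pm_113_s3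

theorem t51_A00pm_113_s3 : ∃ t, chk3 f_A00pm_113_s3 t 510 254 2 = true := ex3_a k22_A00pm_113_s3 t50_A00pm_113_s3

theorem t52_A00pm_113_s3 : ∃ t, chk3 f_A00pm_113_s3 t 510 254 1 = true := ex3_c t51_A00pm_113_s3 k25_A00pm_113_s3

theorem t53_A00pm_113_s3 : ∃ t, chk3 f_A00pm_113_s3 t 255 254 1 = true := ex3_a t52_A00pm_113_s3 t49_A00pm_113_s3

theorem t54_A00pm_113_s3 : ∃ t, chk3 f_A00pm_113_s3 t 255 127 1 = true := ex3_b t53_A00pm_113_s3 t45_A00pm_113_s3

theorem t55_A00pm_113_s3 : ∃ t, chk3 f_A00pm_113_s3 t 509 511 3 = true := ex3_b k20_A00pm_113_s3 k21_A00pm_113_s3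

theorem t56_A00pm_113_s3 : ∃ t, chk3 f_A00pm_113_s3 t 254 511 3 = true := ex3_a k19_A00pm_113_s3 t55_A00pm_113_s3

theorem t57_A00pm_113_s3 : ∃ t, chk3 f_A00pm_113_s3 t 254 511 2 = true := ex3_a k17_A00pm_113_s3 k18_A00pm_113_s3

theorem t58_A00pm_113_s3 : ∃ t, chk3 f_A00pm_113_s3 t 254 511 1 = true := ex3_c t57_A00pm_113_s3 t56_A00pm_113_s3

theorem t59_A00pm_113_s3 : ∃ t, chk3 f_A00pm_113_s3 t 254 1021 2 = true := ex3_a k14_A00pm_113_s3 k15_A00pm_113_s3

theorem t60_A00pm_113_s3 : ∃ t, chk3 f_A00pm_113_s3 t 254 510 2 = true := ex3_b k13_A00pm_113_s3 t59_A00pm_113_s3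

theorem t61_A00pm_113_s3 : ∃ t, chk3 f_A00pm_113_s3 t 254 510 1 = true := ex3_c t60_A00pm_113_s3 k16_A00pm_113_s3

theorem t62_A00pm_113_s3 : ∃ t, chk3 f_A00pm_113_s3 t 254 255 1 = true := ex3_b t61_A00pm_113_s3 t58_A00pm_113_s3

theorem t63_A00pm_113_s3 : ∃ t, chk3 f_A00pm_113_s3 t 254 127 1 = true := ex3_b k12_A00pm_113_s3 t62_A00pm_113_s3

theorem t64_A00pm_113_s3 : ∃ t, chk3 f_A00pm_113_s3 t 127 127 1 = true := ex3_a t63_A00pm_113_s3 t54_A00pm_113_s3

theorem t65_A00pm_113_s3 : ∃ t, chk3 f_A00pm_113_s3 t 127 63 1 = true := ex3_b k11_A00pm_113_s3 t64_A00pm_113_s3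

theorem t66_A00pm_113_s3 : ∃ t, chk3 f_A00pm_113_s3 t 63 63 1 = true := ex3_a k10_A00pm_113_s3 t65_A00pm_113_s3

theorem t67_A00pm_113_s3 : ∃ t, chk3 f_A00pm_113_s3 t 63 31 1 = true := ex3_b k9_A00pm_113_s3 t66_A00pm_113_s3

theorem t68_A00pm_113_s3 : ∃ t, chk3 f_A00pm_113_s3 t 31 31 1 = true := ex3_a k8_A00pm_113_s3 t67_A00pm_113_s3

theorem t69_A00pm_113_s3 : ∃ t, chk3 f_A00pm_113_s3 t 31 15 1 = true := ex3_b k7_A00pm_113_s3 t68_A00pm_113_s3

theorem t70_A00pm_113_s3 : ∃ t, chk3 f_A00pm_113_s3 t 15 15 1 = true := ex3_a k6_A00pm_113_s3 t69_A00pm_113_s3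

theorem t71_A00pm_113_s3 : ∃ t, chk3 f_A00pm_113_s3 t 15 7 1 = true := ex3_b k5_A00pm_113_s3 t70_A00pm_113_s3

theorem t72_A00pm_113_s3 : ∃ t, chk3 f_A00pm_113_s3 t 7 7 1 = true := ex3_a k4_A00pm_113_s3 t71_A00pm_113_s3

theorem t73_A00pm_113_s3 : ∃ t, chk3 f_A00pm_113_s3 t 7 3 1 = true := ex3_b k3_A00pm_113_s3 t72_A00pm_113_s3

theorem t74_A00pm_113_s3 : ∃ t, chk3 f_A00pm_113_s3 t 3 3 1 = true := ex3_a k2_A00pm_113_s3 t73_A00pm_113_s3

theorem t75_A00pm_113_s3 : ∃ t, chk3 f_A00pm_113_s3 t 3 1 1 = true := ex3_b k1_A00pm_113_s3 t74_A00pm_113_s3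

theorem t76_A00pm_113_s3 : ∃ t, chk3 f_A00pm_113_s3 t 1 1 1 = true := ex3_a k0_A00pm_113_s3 t75_A00pm_113_s3

theorem c_A00pm_113_s3 : CertF 536870912 536870912 536870912 536870912 991146299 28908434 true true false .nn 1 1 3
    ndB0q1 ndB0q1 pcB3 cut_A00pm_113_s3 Ext.none :=
  certF0 (fam := true) (s1 := true) (s2 := false) (a := 1) (b := 1) (c := 3) (cn := .nn) (n1 := ndB0q1) (n2 := ndB0q1) (pc := pcB3) (cut := cut_A00pm_113_s3) (xt := Ext.none) (P1 := 536870912) (W1 := 536870912) (P2 := 536870912) (W2 := 536870912) (P3 := 991146299) (W3 := 28908434)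
    rfl t76_A00pm_113_s3

theorem s_A00pm_113_s3 {κ x : ℝ} (hκ : κ * h0 = ken x) (hx : ((991146299 : ℕ) : ℝ) / S ≤ x)
    (hx' : x ≤ (((991146299 : ℕ) : ℝ) + (28908434 : ℕ)) / S)
    (H : CutA (VFD κ) PP tK tL pcB (Cut.of [[⟨0, 1, 0, 37748736⟩, ⟨1, 1, 0, 37748736⟩, ⟨2, 2, 0, 5242880⟩], [⟨0, 0, 1, 46137344⟩, ⟨1, 1, 0, 2097152⟩, ⟨2, 1, 1, 46137344⟩, ⟨0, 0, 0, 1027248803⟩, ⟨0, 1, 0, 87939455⟩, ⟨2, 1, 0, 1027248803⟩, ⟨2, 2, 0, 87939455⟩], [⟨0, 1, 0, 2097152⟩, ⟨1, 0, 1, 46137344⟩, ⟨2, 1, 1, 46137344⟩, ⟨1, 0, 0, 1027248803⟩, ⟨1, 1, 0, 87939455⟩, ⟨2, 1, 0, 1027248803⟩, ⟨2, 2, 0, 87939455⟩]]) 1 1 3 0 0 (sgb true) (sgb false) x) :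
    AltA (VFD κ) PP tK tL pcB [⟨4, 0, 0, 3194381926⟩] 1 1 3 0 0 (sgb true) (sgb false) x :=
  strip_altAD (m := 3194381926) false rfl hκ (SH.κ0 hκ (SH.hx1 hx).le (SH.hx2 hx').le) (SH.hx1 hx).le (SH.hx2 hx') (covB01).cov (covB01).cov hx hx' c_A00pm_113_s3 H (noExt_A)

noncomputable def cut_A00pm_123_s1 : Cut := Cut.of [[⟨4, 0, 0, 1449551462⟩], [⟨0, 1, 0, 37748736⟩, ⟨1, 1, 0, 37748736⟩, ⟨2, 2, 0, 5242880⟩], [⟨0, 0, 1, 46137344⟩, ⟨1, 1, 0, 2097152⟩, ⟨2, 1, 1, 46137344⟩, ⟨0, 0, 0, 1027248803⟩, ⟨0, 1, 0, 87939455⟩, ⟨2, 1, 0, 1027248803⟩, ⟨2, 2, 0, 87939455⟩]]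

noncomputable def f_A00pm_123_s1 : ℕ → ℕ → ℕ → ℕ → Bool := onCell 536870912 536870912 0 536870912 991146299 28908434
    (rowF 0 true true false .npn 1 2 3 (qsf 536870912 536870912 0 536870912 3) ndB0q1 ndB0q2 pcB3 cut_A00pm_123_s1 Ext.none)

def k0_A00pm_123_s1 : ∃ t, chk3 f_A00pm_123_s1 t 1 1 1 = true :=
  ⟨(l 6), by decide +kernel⟩

theorem c_A00pm_123_s1 : CertF 536870912 536870912 0 536870912 991146299 28908434 true true false .npn 1 2 3
    ndB0q1 ndB0q2 pcB3 cut_A00pm_123_s1 Ext.none :=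
  certF0 (fam := true) (s1 := true) (s2 := false) (a := 1) (b := 2) (c := 3) (cn := .npn) (n1 := ndB0q1) (n2 := ndB0q2) (pc := pcB3) (cut := cut_A00pm_123_s1) (xt := Ext.none) (P1 := 536870912) (W1 := 536870912) (P2 := 0) (W2 := 536870912) (P3 := 991146299) (W3 := 28908434)
    rfl k0_A00pm_123_s1

theorem s_A00pm_123_s1 {κ x : ℝ} (hκ : κ * h0 = ken x) (hx : ((991146299 : ℕ) : ℝ) / S ≤ x)
    (hx' : x ≤ (((991146299 : ℕ) : ℝ) + (28908434 : ℕ)) / S)
    (H : CutA (VFD κ) PP tK tL pcB (Cut.of [[⟨0, 1, 0, 37748736⟩, ⟨1, 1, 0, 37748736⟩, ⟨2, 2, 0, 5242880⟩], [⟨0, 0, 1, 46137344⟩, ⟨1, 1, 0, 2097152⟩, ⟨2, 1, 1, 46137344⟩, ⟨0, 0, 0, 1027248803⟩, ⟨0, 1, 0, 87939455⟩, ⟨2, 1, 0, 1027248803⟩, ⟨2, 2, 0, 87939455⟩]]) 1 2 3 0 0 (sgb true) (sgb false) x) :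
    AltA (VFD κ) PP tK tL pcB [⟨3, 0, 0, 1449551462⟩] 1 2 3 0 0 (sgb true) (sgb false) x :=
  strip_altAD (m := 1449551462) true rfl hκ (SH.κ0 hκ (SH.hx1 hx).le (SH.hx2 hx').le) (SH.hx1 hx).le (SH.hx2 hx') (covB01).cov (covB02).cov hx hx' c_A00pm_123_s1 H (noExt_A)

end Pool.Agent.Strip051.G.I9231_9500.Tab.St.C
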