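import Pool.Agent.Strip051.G.I9231_9500.Tab
import Pool.Agent.Strip051.PB.ExtD3

/-! # Certificates B24 (generated) -/

set_option linter.all false
set_option maxRecDepth 100000

namespace Pool.Agent.Strip051.G.I9231_9500.Tab.C.BB03

open Pool.Agent.Strip051.PB Pool.Agent.Strip051.PB.T
open Pool.Agent.Strip051.G.I9231_9500.Tab

noncomputable def cut_pm_213 : Cut := Cut.of [[⟨0, 1, 0, 37748736⟩, ⟨1, 1, 0, 37748736⟩, ⟨2, 2, 0, 5242880⟩]]

noncomputable def xt_pm_213 : Ext := extD3 3 ⟨4, 1, 1, 5, 22, 5, 21, 25, 41, 100, 1, 20⟩ eng cd0q2 cd3q3 pd1 false true false .pnn 2 1 3 rfl ndB0q2 ndB3q3 pcB1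

noncomputable def f_pm_213 : ℕ → ℕ → ℕ → ℕ → Bool := onCell 0 536870912 0 1230186008 991146299 28908434
    (rowB 3 eng mog cd0q2 cd3q3 pd1 0 false true false .pnn 2 1 3 (qsf 0 536870912 0 1230186008 1) ndB0q2 ndB3q3 pcB1 cut_pm_213 xt_pm_213)

def k0_pm_213 : ∃ t, chk3 f_pm_213 t 2 4 1 = true :=
  ⟨(l 3), by decide +kernel⟩

def k1_pm_213 : ∃ t, chk3 f_pm_213 t 6 4 1 = true :=
  ⟨(l 3), by decide +kernel⟩

def k2_pm_213 : ∃ t, chk3 f_pm_213 t 14 4 1 = true :=
  ⟨(l 3), by decide +kernel⟩

def k3_pm_213 : ∃ t, chk3 f_pm_213 t 30 4 1 = true :=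
  ⟨(l 3), by decide +kernel⟩

def k4_pm_213 : ∃ t, chk3 f_pm_213 t 31 8 1 = true :=
  ⟨(a (l 3) (b (l 6) (b (l 6) (a (l 3) (b (b (l 6) (a (b (l 6) (a (a (l 3) (c (a (a (l 3) (c (l 4693050031888101486748811359) (l 4693050031888100318519787615))) (c (l 226190419719) (l 215989872343))) (a (a (l 3) (c (l 4625350185989687338210689119) (l 4547978933534358149134925919))) (c (l 212768648119) (l 210084295015))))) (c (l 16766800) (l 16768168)))) (l 16770448))) (a (a (a (a (a (l 3) (b (l 3) (b (l 3) (a (l 3) (c (l 3126282169667525583653486687) (c (l 170892717303) (l 170892720263))))))) (b (a (l 3) (b (l 3) (c (b (l 4286850956497578593624784991) (l 3145624982781359650449768543)) (c (l 4480279087635933761390887007) (l 4412579241737522567785676895))))) (b (c (c (l 3532481245058044147451314271) (l 3484124212273465096499167327)) (c (a (l 240149065031) (l 207936811255)) (a (l 4335207989282187949871677535) (l 195051909239)))) (c (c (l 212231773431) (l 211158034423)) (c (l 199883745063) (l 197199392487)))))) (b (c (a (a (b (b (l 4383565022066747553212203103)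 (l 3252010454907446949105074271)) (l 3832294848322489225210413151)) (b (l 3929008913891659353029099615) (l 16774592))) (l 603521405275059441968735)) (a (b (c (a (l 4557650340091269066499604575) (l 217600488183)) (a (l 4480279087635940495899246687) (l 204178714983))) (c (l 206326196535) (l 203641843735))) (l 603647938334048866592351))) (c (l 603587409937670965503583) (l 603756889415134691976799)))) (a (c (l 603582221688370789672543) (l 603328867201064974100063)) (l 16774560))) (l 16771720))))))), by decide +kernel⟩

def k5_pm_213 : ∃ t, chk3 f_pm_213 t 62 9 1 = true :=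
  ⟨(b (l 3) (l 3)), by decide +kernel⟩

def k6_pm_213 : ∃ t, chk3 f_pm_213 t 126 18 1 = true :=
  ⟨(a (l 3) (b (a (l 3) (b (a (l 3) (b (a (l 3) (b (l 3) (c (c (l 6298503520336329855389433951) (l 6317846333450174436267081823)) (c (l 6337189146564019085864288351) (l 6356531959677864079058976863))))) (c (c (a (l 6298503520336329030754353247) (l 3455109992602693655336190047)) (a (l 6317846333450174642424414303) (b (l 3232667641793624427182014559) (l 197199388967)))) (c (a (l 6337189146564020528972496991) (c (l 3232667641793630611934429279) (l 3174639202452135214777958495))) (a (l 6356531959677866690398568543) (b (a (l 241222808679) (l 176261426727)) (l 183240747991))))))) (b (a (l 3) (c (c (l 3358395927033510195935445087) (l 3406752959818107457554153567)) (c (l 3310038894248951417231638623) (c (l 3233271084656142566771336799) (l 3484727674447429089772037727))))) (a (a (l 3) (c (c (l 3193982015565931554572370015) (l 3184310609009028127637504095)) (c (b (l 2923182631972294408025456735) (l 173040197447)) (c (l 2865154192630804645863342175)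 (l 2826468566403144208856039519))))) (c (c (l 603240668880029015090783) (l 603355672814201044248159)) (c (l 603475576666073311962719) (l 603600380435645839681119))))))) (a (b (a (l 3) (a (l 3) (b (l 3) (c (c (l 2942525445086085318976045151) (l 2874825599187683265067810911)) (c (l 2700740281163197623351115871) (b (l 3987037353233190827912151135) (l 2797454346732417297917624415))))))) (a (a (l 3) (b (l 3) (a (l 3) (c (c (l 2816797159846184225769029727) (l 2807125753289291519073714271)) (c (l 2633040435264810550282895455) (b (l 2149470107418984993807302751) (l 2778111533618594569836920927))))))) (b (c (c (a (l 2807125753289246026773594207) (l 3474452805716541603460005983)) (a (l 2778111533618512381334569055) (l 3416424366375060706118369375))) (b (c (l 2826468566403115690265608287) (l 2768440127061636923226112095)) (c (l 3058582323769155003257372767) (l 3010225290984549770187227231)))) (c (a (c (l 3339053113919700936867938399) (l 3271353268021305686188998751)) (l 144100241578147935)) (a (c (l 3077925136882990581881733215) (b (l 2884497005744677401725386847)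 (l 144172328322039903))) (l 603547922514058174703199)))))) (b (a (b (c (c (l 3222996235236667261599924319) (l 3145624982781347761973821535)) (c (l 3087596543439863359936135263) (b (l 2942525445086135484205400159) (l 3193982015565961791151456351)))) (c (c (l 3609852497513378421759066207) (l 3523413064902637230466852447)) (c (l 3417027738621140261949957727) (l 3300971011835565671050323551)))) (c (l 603238074622269275481695) (l 603232310051236291880543))) (b (c (l 602905744994855499572831) (l 603354231504265487951455)) (c (l 16763928) (l 603645056131579821450847))))))), by decide +kernel⟩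

def k7_pm_213 : ∃ t, chk3 f_pm_213 t 127 18 1 = true :=
  ⟨(b (b (a (a (a (b (c (a (c (l 3571166871285700186413105247) (b (l 3358395927033544418243215455) (l 204178711623))) (l 603375848936202337298015)) (c (c (l 3649141655378512028459017823) (l 3600784633834916754068956767)) (c (l 3562099013660092566979487327) (l 3533084803500950133266654815)))) (c (l 603442430059566166894175) (b (l 603570980831312935364191) (l 16771960)))) (c (l 603138346910540260779615) (l 603228274807553327146591))) (c (l 16758232) (l 16760488))) (l 16763184)) (a (a (c (l 603279579788257508517471) (b (l 603266609449917967853151) (l 16758904))) (l 16771424)) (l 16765456))) (a (b (a (c (l 16766896) (l 16770920)) (l 16762656)) (c (l 16759864) (l 16764840))) (b (l 16768056) (l 16770968)))), by decide +kernel⟩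

def k8_pm_213 : ∃ t, chk3 f_pm_213 t 252 38 1 = true :=
  ⟨(a (l 3) (b (a (l 3) (a (l 3) (a (l 3) (b (l 3) (b (l 3) (c (c (b (l 2400926677898744848999645279) (l 2778111533618507983277097183)) (l 2662054654935534918595674335)) (c (l 2652383248378650595677847775) (c (l 145659788599) (l 2429940897569602533124800735))))))))) (a (a (l 3) (a (l 3) (b (l 3) (b (l 3) (b (l 3) (c (c (l 3290696081135095703782621407) (l 3010225290984535476523909343)) (c (l 2710411687720143587651354847) (c (l 143512302295) (l 2352569645114261936619389151))))))))) (b (a (a (l 3) (b (l 3) (b (l 3) (c (c (c (l 2613697622150905771129913567) (l 141364798055)) (l 2555669182809446314270163167)) (c (c (l 139217328455) (l 138680462311)) (c (l 138143596071) (l 2497640743468029944531288287))))))) (c (c (c (b (l 2961868258199921378627895519) (l 3164967795895174819370909919)) (l 2913511225415349749381316831)) (c (l 2865154192630781143791714527) (l 2826468566403130052636180703))) (c (c (b (l 2923182631972319009594753247) (l 3000553884427654177265483999)) (b (l 2923182631972336739224371423)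 (l 2981211071313838870892036319))) (c (c (l 2526654963138751976375927007) (l 2478297930354176430116110559)) (c (b (l 2700740281163277406674600159) (l 2642711841821776992996229343)) (b (l 2681397468049452960607928543) (l 2604026215594119029890203871))))))) (c (c (b (a (c (b (l 2710411687720074455837802719) (l 2932854038529163681363165407)) (l 2816797159846177559976853727)) (l 144078526212243679)) (c (l 3339053113919669669497340127) (l 3339053113919685887298945247))) (c (b (l 3106939356553703748917379295) (l 3348724520476619825692885215)) (b (l 3116610763110638992981475551) (l 3348724520476637417883828447)))) (c (c (a (b (l 2807125753289315364736696543) (l 3193982015565986461440245983)) (l 144135700831977695)) (a (b (l 2797454346732417847675322591) (l 3193982015566005428020625631)) (l 144155011009102047))) (a (c (b (b (l 2652383248378683374874984671) (l 2884497005744690733309886687)) (l 3184310609009108048398008543)) (c (b (a (l 2304212612329685290846027999) (l 2836139972960121509242765535)) (l 3126282169667620966299336927)) (b (a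 (b (l 3) (l 2429940897569616964220371167)) (b (l 2826468566403215951999795423) (a (l 3106939356553809095898185951) (l 16779784)))) (a (l 2923182631972374947261317343) (l 144199128920424671))))) (b (c (l 144181399292870879) (l 144202427457077471)) (l 604397625690647383189215))))))))), by decide +kernel⟩

def k9_pm_213 : ∃ t, chk3 f_pm_213 t 253 38 1 = true :=
  ⟨(a (c (b (c (a (c (b (l 3116610763110589721108283487) (a (l 3097267949996762045220126815) (l 16762592))) (b (l 3077925136882940210498895967) (l 3164967795895192686443003999))) (l 603233751331622476916319)) (a (c (b (l 3029568104098350851625648223) (l 3077925136882954160552542303)) (b (l 2826468566403104901303812191) (l 3000553884427633217817018463))) (l 603477017796101282408031))) (b (c (l 603269780121013566891615) (l 603559739910964436166367)) (l 602883839650713672525535))) (b (c (c (b (l 3068856734213665380934706783) (l 2991485968291243227945887327)) (a (b (l 2768440127061630326153134175) (l 2855482786073910083732160735)) (l 603795512399407205475935))) (a (c (b (l 2739425907390894344248033375)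 (l 2788386324239017271112443615)) (b (a (l 2342898238557318858533781727) (l 2749097313947853090373435487)) (b (l 3048910917212285111430824159) (l 2856086368439953782818121439)))) (l 603238651337489813169759))) (b (c (l 603106065333811143763679) (b (l 603326561609843959031519) (l 603514776045814614845151))) (c (l 603404095533268737599199) (l 603768418769543835838175))))) (b (c (l 602719260102701258761823) (l 602567362572354766628447)) (c (l 603036601729320828724831) (l 602128820221272355804703)))), by decide +kernel⟩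

def k10_pm_213 : ∃ t, chk3 f_pm_213 t 127 38 1 = true :=
  ⟨(c (b (l 16765808) (l 16767136)) (b (l 16774456) (a (l 16769744) (l 16795328)))), by decide +kernel⟩

def k11_pm_213 : ∃ t, chk3 f_pm_213 t 63 39 1 = true :=
  ⟨(b (a (a (a (l 3) (a (b (a (l 3) (c (c (c (l 2942525445086063947205148895) (l 2923182631972244861260513503)) (b (l 2720083094277016709292769503) (l 3097267949996769741806256351))) (c (c (l 2913511225415376412547317983) (l 2903839818858476833901478111)) (c (b (l 2671726061492493802165895391) (l 3019896697541492298511433951)) (b (b (l 2565340589366429387101552863) (l 2710411687720177603800809695)) (a (l 2797454346732420046700757215) (l 144166074847822047))))))) (c (c (l 3097267949996725898769547487) (a (l 3271353268021261774431748319) (l 144070623474483423))) (c (c (l 3058582323769106074985693407) (l 2826468566403112529160601823)) (c (a (l 2807125753289297016635867359) (l 3387410146704314691170025695)) (b (a (l 2555669182809479093470986463) (l 3339053113919755500147966175)) (l 2904443078982920825257157855)))))) (c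 (b (c (c (l 144049114272907487) (l 144063614086119647)) (c (l 144078869813641439) (l 603888322532149529618143))) (l 603115000385174443222751)) (c (b (c (l 604028402511795537127135) (l 603415912979996614747871)) (l 16771272)) (b (b (c (l 604257833935330207016159) (c (l 604366496801776659309791) (l 603684543741834749617375))) (l 603697802307183172232415)) (l 603883134412660441048287)))))) (c (l 602254344281530688693983) (a (l 603187346083763140699871) (l 16761112)))) (c (l 16766448) (l 16773080))) (a (a (b (a (a (l 3) (a (l 3) (c (c (l 3397081553261140808671723743) (l 3106939356553651659544330463)) (c (l 2836139972959999051112104159) (c (l 2720083094277014510273020127) (l 3019896697541456633087918303)))))) (c (a (c (l 144025543486259423) (l 3436370764737134962392540895)) (l 16765304)) (c (c (l 603368643126908180407519) (l 3155899908005348017190577375)) (b (c (l 3146228594258635056954811615) (l 3126885934483376496036127967)) (l 603812229700613402748127))))) (a (a (l 3) (c (c (l 2981211071313690642945327327) (l 2942525445086038795877826783))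 (c (a (l 2691068874606217299301155039) (l 3203653422122816014929559775)) (c (l 2671726061492396632799609055) (l 2643314805933508334447699167))))) (c (l 602448035251740962006751) (c (l 603673014377186362090719) (l 603246145212851829204191))))) (c (l 602627890978628279264991) (l 601616778680893174867679))) (c (l 16764816) (l 16769912)))), by decide +kernel⟩

def k12_pm_213 : ∃ t, chk3 f_pm_213 t 2 5 1 = true :=
  ⟨(l 3), by decide +kernel⟩

def k13_pm_213 : ∃ t, chk3 f_pm_213 t 6 10 1 = true :=
  ⟨(l 3), by decide +kernel⟩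

def k14_pm_213 : ∃ t, chk3 f_pm_213 t 14 10 1 = true :=
  ⟨(l 3), by decide +kernel⟩

def k15_pm_213 : ∃ t, chk3 f_pm_213 t 30 10 1 = true :=
  ⟨(l 3), by decide +kernel⟩

def k16_pm_213 : ∃ t, chk3 f_pm_213 t 124 10 1 = true :=
  ⟨(b (l 3) (l 3)), by decide +kernel⟩

def k17_pm_213 : ∃ t, chk3 f_pm_213 t 125 20 1 = true :=
  ⟨(a (l 3) (b (a (l 3) (a (l 3) (b (l 3) (b (b (l 3) (c (l 2487969336910830680187748639) (c (l 2313884018886365379438919967) (c (l 124184907687) (l 2188155733646444357588156511))))) (c (c (l 2691671200864129446830155039) (l 2633642930425619837329532191)) (c (l 2536929041541664655509234975) (c (l 2449886520303528818987361503) (l 2420872395172340409360867423)))))))) (a (a (l 3) (c (b (l 3) (b (l 3) (c (l 2430545901631858402952418335) (l 2353174809144380899965096991)))) (b (l 3) (b (l 3) (c (c (l 2324160635302259607896199199) (l 2275803764214915462015422495)) (c (b (l 2140404224027254850247446559) (l 2266132504079029513682898975)) (c (b (l 2111388670426322919930581023) (l 2208102514634564369353052703)) (a (l 3)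 (l 2304815224368045285650551327))))))))) (b (c (c (a (l 2614300401506744516455900447) (l 2904442581208773688916239647)) (a (l 2469229449574006562820318495) (l 2827071515814937731578307871))) (b (c (a (l 3223599562230296561474086111) (l 2740029371293929982343062751)) (c (l 2478901171166790632025088095) (b (l 2391858653099228034554503263) (l 2459558827724681334273626143)))) (c (a (l 2382187769536618593337316383) (l 604321100462282246738975)) (c (a (l 2353173697728050458975916063) (l 604477609556532624576543)) (a (c (l 2324159538873908726793326623) (l 2304816766688788073540554783)) (l 604584543026084908552223)))))) (c (c (l 2740029820501229737449804831) (b (l 2769044162958121078270284831) (l 604645359635452906804255))) (c (c (a (l 2488573718107517739482894367) (l 604629218734388421547039)) (b (l 2701344552832149536582668319) (l 2469230906146605177291034655))) (a (b (c (l 2546602633317370966344683551) (c (l 2527259882461298148317990943) (b (l 2469231263264041229266358303) (l 2585288389536938744340008991)))) (a (c (l 2440217782327744205903056927)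 (c (l 2382189087037667982795411487) (l 2643314929728492481040273951))) (l 605130739588892387741727))) (l 604326288609052966522911)))))))), by decide +kernel⟩

def k18_pm_213 : ∃ t, chk3 f_pm_213 t 125 84 1 = true :=
  ⟨(a (l 3) (b (a (a (l 3) (c (c (l 2604631144716467204661662751) (b (l 2488574910516583879112561695) (l 2594959837887260319752392735))) (c (c (b (l 2440217777716058187477389343) (l 2546602896759934769005416479)) (b (l 2401532212304999421894610975) (a (l 2353174713163665641437827103) (l 605288978065399676047391)))) (c (b (c (l 2382189445596255915523706911) (a (l 2082374804702473734001643551) (l 2295146205511564293076979743))) (a (c (l 2324160471299175577561157663) (l 2275801435025245779954668063)) (l 604528914563487598366751))) (c (b (a (l 2043687148756496740025635359) (l 2507915096410539322979308063)) (l 2411199351322967152957002271)) (b (l 2266127677949611229295432223) (l 2353168897539366028170269215))))))) (c (c (l 604849138511392183931935) (l 604628642273636117812255)) (c (l 604400363815723933863967) (b (l 604557161140350429696031)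 (l 603798827020695259566111))))) (c (a (c (l 2546601833189846769194882079) (c (l 2498244940196994035784110111) (b (l 2469231200429819228195590175) (l 2488573583503932076631167007)))) (l 604360876254191140245535)) (a (c (c (b (l 2420874199350575437892161567) (a (l 2237117634448780191384195103) (l 605233349602802400038943))) (c (b (l 2391860045396350100286869535) (a (l 2208103448789213477090562079) (l 605285519300885857177631))) (b (a (l 2072703746616081468059439135) (l 2179089195971969119447879711)) (b (l 2411202287525809010538041375) (l 2420872946989591058670653983))))) (c (c (b (b (l 2314487392141385735752946207) (l 2333829829691039676839776799)) (b (l 2343500497225272257220694559) (l 2353171169947651608332702239))) (b (b (l 2256458041127203767415247391) (l 2266128025843675244391436831)) (b (l 2285470112905191784997687839) (l 2295140799174398815240786463)))) (c (b (a (l 2681996529377805775055589919) (l 2498240565148114428799668767)) (l 2227439377808743536128430623)) (b (l 2140397359532616420770796063) (l 2198423219788712815637271071)))))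 (c (l 604703582171435557883935) (l 601553800620849489645599)))))), by decide +kernel⟩

def k19_pm_213 : ∃ t, chk3 f_pm_213 t 125 85 1 = true :=
  ⟨(a (a (l 3) (a (l 3) (a (l 3) (b (l 3) (b (l 3) (c (c (l 2324158597369134750889746527) (c (l 2275801610701370117033664671) (l 2237116016467247897756360735))) (c (b (c (l 2092043570492684465360228895) (l 2130725603352253115533726239)) (c (l 2188756901505932692052271647) (l 2101710673193624801345294879))) (c (l 2904434191543368683261596191) (l 199346377575))))))))) (c (c (b (b (l 2701343689293942586056594463) (l 2720686950606011568764245023)) (b (l 2730358062158860159566520415) (l 603278426822428793823327))) (a (b (c (l 2575615703525381973512245279) (b (l 2536930285976506173758738463) (l 2585287005742902839988408351))) (c (a (l 2140402334820952891513577567) (l 16747352)) (b (l 2623973091698020935560351775) (l 2063031232245394287437160479)))) (l 603601677443407574536223))) (c (a (a (c (c (b (b (l 2343502738504677213020459039) (l 2440216471455993467922518047)) (b (l 2536930228906891695719813151)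 (l 2208101608150031372230168607))) (b (b (l 2324159948161042862208913439) (l 2430545076428291480590471199)) (a (b (l 2382186337031649119262347807) (l 2517584579317925919825859103)) (l 602193095595154087924255)))) (c (b (b (a (l 3) (l 2469230515017984739403337759)) (l 2362843363661725912088269343)) (b (l 2449884568263501151115072031) (l 2527254395996088100372910623))) (b (b (l 2246786074538665871276167711) (l 2343498683391515134494822943)) (b (l 2411197101108420536501441055) (l 2469224142532598401033425439))))) (b (b (l 604977401028779636264991) (l 604190532101885507178527)) (l 601971446435893400866847))) (l 603437386129001048346655)) (a (b (c (c (b (b (l 2362841848434638482479206943) (l 2391855345800066946487030303)) (l 2411197089579205490405282335)) (b (l 2333825358661444811352642079) (l 2353166766363964762349212191))) (b (l 2266122645735473996409885215) (l 2295135500923624394349056543))) (c (b (b (l 2420866505040684067726184991) (l 2430537221862310970051285535)) (l 2430536200085627512208822815)) (l 2314476317465642858188116511)))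 (l 597197774946068675121695))))), by decide +kernel⟩

def k20_pm_213 : ∃ t, chk3 f_pm_213 t 125 43 1 = true :=
  ⟨(a (a (b (l 3) (l 3)) (c (c (c (b (b (l 2381583864784732523846631519) (l 2439612304126284202258432095)) (b (a (l 2362241051670995007913312287) (l 144010081583759519)) (b (l 2516983556581701146103103519) (l 2536326369695556928254378015)))) (b (b (l 2342898238557035253194047583) (b (l 2381583864784738021402673311) (l 2410598084455511524146348063))) (a (b (b (l 2284869799215611942770262047) (l 2333226832000218825078259743)) (b (l 2362241051670742807350214687) (l 2391255271341227894398746655))) (b (l 143973522796494879) (l 143738502171017247))))) (b (a (b (l 3) (b (l 3) (b (l 3) (c (l 2159141513975439957356593183) (l 2371912458226810193045389343))))) (c (b (b (l 2313884018886246632158756895) (l 2400926677898521441934622751)) (b (l 2478297930353878462398709791) (b (l 2516983556581561645510049823) (l 2304212612329321627232813087)))) (c (b (b (l 2295144081685748104065245215) (l 2371912458227748282775601183)) (b (l 2410598084455138446030389279)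 (l 2458955117239445711403171871))) (b (b (l 2266129550726075105129472031) (l 2313884018885827374542209055)) (b (l 2371912458227051879491993631) (l 2439612304125198640543809567)))))) (a (c (b (b (b (l 2188155733646055405276676127) (l 2207498546759755125469429791)) (a (l 3) (l 2352569645113339171281731615))) (b (l 2304212612328464901450170399) (l 2352569645112793676064473119))) (b (b (c (l 2130127294303888275113181215) (l 2081770261518904466368593951)) (a (l 3) (l 2313884018884880145208279071))) (b (l 2226841359872351897945014303) (l 2265526986099773259846582303)))) (b (b (c (l 143628344835407903) (l 142813469176315935)) (l 142950976828932127)) (l 142555427489300511))))) (b (b (a (l 3) (c (c (c (b (l 2208099354043539598633050655) (l 2284869799214652068993925151)) (b (a (l 3) (l 2295140409918039765224235551)) (l 2236512766429642421746368543))) (b (c (l 2101710366947154486972228127) (l 2043680170264618224561889823)) (l 2179079370628617662225555999))) (c (b (l 2014663314438200259234357791) (l 2082361839376553938951463455)) (l 1975973539997974006114935327))))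 (b (a (l 3) (c (c (b (l 2323555425441905755394506783) (l 2352569645112523402337959967)) (l 2236512766428747006840799263)) (l 2130715875429251059148726815))) (c (c (c (l 2178484327087976462759804959) (l 2130127294302982346092118047)) (l 2062427448403949241113034783)) (l 1994727602504300547110633503)))) (c (c (b (b (b (l 2168812920530663536383885343) (l 2197827140201288398942060575)) (l 2207498546758018034302812191)) (l 2217169953314568174369292319)) (b (l 2120455887745085785201295391) (l 2130127294301532364970835999))) (b (l 2023741822174709561707266079) (l 139380449615085599)))))) (c (c (b (b (l 602874039640559511281759) (l 602362142538281261785183)) (l 601649060654408500699167)) (b (b (b (c (l 603158522964440497234015) (l 603262862331539031367711)) (l 602955320554338738118687)) (l 602587538623506214101023)) (b (l 600811462542289151238175) (l 597964898776905643384863)))) (c (b (b (b (c (l 602092070108478975647775) (l 598430102264334085202463)) (l 598827860349381054571039)) (l 596720607642587903287839)) (b (l 593999712344090046702111)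 (l 591377680087564622455327))) (b (b (c (l 594091945819267465536031) (l 590463124472984186151455)) (l 589691819920225334125087)) (l 585980276623524622295583))))), by decide +kernel⟩

def k21_pm_213 : ∃ t, chk3 f_pm_213 t 63 10 1 = true :=
  ⟨(b (b (a (c (a (a (c (b (a (l 3077925136882769717451227359) (l 3291298567360893072527959775)) (l 2488571086419717404650136799)) (b (b (l 2701342445435581886200734943) (l 2856085340898455269096776927)) (a (l 2952798775242882409531188511) (l 603246721553276302812383)))) (b (l 602759324020051678013151) (l 602479164044060834145503))) (l 601675577556338273167071)) (b (a (a (c (b (a (l 2604026215593892461737492703) (l 3001156740452988414507705567)) (l 2798056754559377599736833247)) (c (b (l 2672328646004753300081337567) (l 2769043092326270802701116703)) (b (b (l 2720685824633942541102310623) (l 2682000207629624797728810207)) (l 2740028239989849615779882207)))) (a (l 603081565607321151743199) (l 603819579607778304398367))) (l 601391238688700144915487)) (a (a (b (c (l 2952799853512912626098480415) (c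 (l 2914114417517294608066077983) (l 2894771734395362453436605663))) (c (l 602670549011901416531231) (l 602943214944785988378719))) (l 603244703915079604315231)) (l 16767936)))) (b (c (l 16762744) (l 16765896)) (a (l 16755968) (l 16786912)))) (a (b (a (c (a (l 602714648180356507411743) (l 16758328)) (c (l 602919579949419232601311) (l 602898250892787868459103))) (c (l 16765104) (l 16763432))) (c (a (l 602312711201257131168799) (l 16763496)) (a (c (l 602462302766479862353951) (l 602041198186922206597151)) (l 16758616)))) (c (l 16757480) (b (l 16777584) (l 16772352))))) (c (b (b (a (b (a (l 16743744) (l 16763080)) (l 601121455056622116951583)) (l 16756440)) (a (l 601604384716925583974495) (l 16779704))) (a (b (l 601652807512203175305247) (l 601522815696808837013535)) (l 597863154383005522452511))) (b (a (a (b (c (l 601678027912971051946015) (l 601215418159247535722527)) (l 602697786983795729190943)) (b (l 598390472242584642015263) (l 16758224))) (b (l 16749192) (l 16771888))) (a (b (l 600055433110056315756575) (l 594074363315934698086431))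 (l 595306983678513470754847))))), by decide +kernel⟩

def k22_pm_213 : ∃ t, chk3 f_pm_213 t 6 11 1 = true :=
  ⟨(l 3), by decide +kernel⟩

def k23_pm_213 : ∃ t, chk3 f_pm_213 t 14 11 1 = true :=
  ⟨(l 3), by decide +kernel⟩

def k24_pm_213 : ∃ t, chk3 f_pm_213 t 15 22 1 = true :=
  ⟨(a (l 3) (b (a (a (l 3) (c (b (a (c (a (a (l 3) (c (b (b (l 2246184172987850419393921055) (l 2275198392658344439974871071)) (b (l 2265526986101175137283801119) (l 2304212612328595537154261023))) (b (b (l 2284869799214778718963793951) (l 2178484327088443274230939679)) (b (l 2236512766429702001545150495) (l 2255855579543296924514156575))))) (b (b (c (l 144045472075382815) (l 2429940897568685883803598879)) (l 143398890383622175)) (l 143011518683840543))) (b (b (c (a (b (l 2874825599185993590244179999) (l 2023741822177175697813930015)) (l 2391255271340252558817837087)) (l 2101113074631903797519859743)) (c (c (l 2188155733644849515667816479) (l 2149470107416811052750585887)) (l 2081770261517835947020189727))) (c (b (l 2149470107416757932582780959) (l 2130127294302689669766103071))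 (l 2091441668074409795373695007)))) (b (l 598411079666026264109087) (l 142522029773422623))) (a (b (c (c (a (b (l 2207498546759134657179287583) (l 2188155733645060072169930783)) (l 142871399640580127)) (b (l 2188155733644673937365270559) (l 2188155733644436099268558879))) (b (l 2120455887745183779191586847) (l 2091441668074207485230579743))) (c (c (b (l 2236512766429482786341388319) (l 2207498546758492748482986015)) (l 2149470107416416809111011359)) (l 2062427448403123851450777631))) (l 141741926126829599))) (c (b (a (b (c (l 2014070415618785799609614367) (l 1975384789390370272951894047)) (l 2004399009061063511393697823)) (l 587620596387240049975839)) (b (l 1994727602503767077690720287) (l 139201435334148127))) (b (a (l 1898013536933709781338030111) (l 581381560056199425483295)) (l 576332051270732956508703))))) (c (b (l 598852649205304263663647) (l 598221135483860302192671)) (a (b (l 588620755230429818839583) (l 583672703333134395941407)) (l 592737409875120425834015)))) (a (a (a (l 3) (a (l 3) (c (b (a (l 3) (c (b (l 3145624982778624340009205791)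 (l 2014070415618912037435932703)) (l 4122437045025756730118275103))) (b (c (l 1956041976276984532120616991) (l 102709352487)) (l 1888342130377561650308120607))) (b (c (l 5089577700716179825803313183) (l 330879206103)) (c (l 137892122888454175) (l 93582145095)))))) (c (c (b (a (b (b (l 2168812920530249501549903903) (l 141377506656993311)) (l 141043461218467871)) (l 141486633216606239)) (l 140454466610216991)) (b (b (l 140197112003739679) (l 139762186355638303)) (l 139127905470906399))) (b (c (l 138583372247613471) (l 572941596600970581025311)) (c (l 575089489976275056763423) (l 16136992))))) (c (b (l 593849832327008253239327) (l 588854798736975394726431)) (b (l 581795169754754115478047) (l 577883306130161578811935)))))), by decide +kernel⟩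

def k25_pm_213 : ∃ t, chk3 f_pm_213 t 15 23 1 = true :=
  ⟨(a (l 3) (a (b (a (a (l 3) (c (c (l 1820642284478745217882947615) (b (l 97877379047) (l 16186520))) (b (l 92508486295) (l 16051904)))) (b (c (l 579676965774297203106335) (l 16091072)) (c (c (l 16285120) (l 16184968)) (l 16037296)))) (b (c (a (c (l 95729841751) (l 91971582855)) (l 16174064)) (a (l 86602719207) (l 15988704))) (c (a (c (l 91434770199) (l 16090240)) (l 16118664)) (a (l 15974496) (l 15944944))))) (c (b (l 583344408763242471629343) (a (l 16143304) (l 16149568))) (b (a (l 16051464) (l 16047792)) (b (l 15956960) (l 15904280)))))), by decide +kernel⟩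

def k26_pm_213 : ∃ t, chk3 f_pm_213 t 2 3 1 = true :=
  ⟨(l 3), by decide +kernel⟩

def k27_pm_213 : ∃ t, chk3 f_pm_213 t 6 3 1 = true :=
  ⟨(b (l 3) (l 3)), by decide +kernel⟩

def k28_pm_213 : ∃ t, chk3 f_pm_213 t 14 3 1 = true :=
  ⟨(b (l 3) (b (l 3) (b (l 3) (b (a (l 3) (b (l 3) (l 160153279127))) (l 1))))), by decide +kernel⟩

def k29_pm_213 : ∃ t, chk3 f_pm_213 t 15 6 1 = true :=
  ⟨(b (a (a (l 3) (b (b (l 3) (c (b (l 455432839559) (l 99487604535)) (l 563343962807))) (b (c (b (l 95729451623) (l 90897566871)) (l 196124186311)) (c (b (l 86602547015) (l 81233789575)) (l 102708582999))))) (b (b (a (c (a (b (l 83918490311) (l 16043320)) (b (l 16068288) (l 16022568))) (b (l 15922152) (l 15888672))) (c (b (l 16051368) (l 15996696)) (l 15836512))) (a (c (b (a (l 16005656) (l 15981168)) (l 15957400)) (b (l 15858840) (l 15832424))) (c (l 15988320) (l 15764984)))) (b (a (c (b (l 15925016) (l 15895832)) (l 15798648)) (c (l 15848320) (l 15711648))) (c (a (b (l 15869640) (l 15846256)) (l 15788472)) (a (l 15764080) (l 15673880)))))) (b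 (a (a (l 3) (b (c (b (l 15894552) (l 15876912)) (l 15824152)) (c (b (l 15861080) (l 15847000)) (l 15808064)))) (b (c (a (l 15836976) (l 15743352)) (a (l 15740120) (l 15649624))) (c (a (l 15784312) (l 15711024)) (a (l 15725840) (l 15637320))))) (a (a (l 3) (b (c (l 46337104615) (l 15799128)) (c (l 15811184) (l 15796824)))) (b (c (a (l 15761600) (l 15690048)) (l 15741440)) (c (a (l 15747352) (l 15679496)) (l 15683984)))))), by decide +kernel⟩

def k30_pm_213 : ∃ t, chk3 f_pm_213 t 15 7 1 = true :=
  ⟨(b (b (a (b (a (c (l 15859968) (l 15867664)) (c (l 15800176) (l 15800912))) (a (c (l 15850944) (l 15872192)) (c (l 15796408) (l 15811400)))) (b (c (a (l 15741424) (l 15678832)) (l 15697736)) (c (a (l 15743800) (l 15687768)) (l 15719360)))) (a (b (a (c (l 15847856) (l 15882080)) (c (l 15800184) (l 15828672))) (a (c (l 15851288) (l 15898144)) (c (l 15811712) (l 15853224)))) (b (c (a (l 15754528) (l 15706184)) (l 15748864)) (c (a (l 15773824) (l 15733992)) (l 15786352))))) (b (a (b (a (c (l 15862320) (l 15921272)) (c (l 15831632) (l 15885584)))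 (c (a (l 15945256) (l 15860720)) (a (l 15952696) (l 15926368)))) (b (c (b (l 15777424) (l 15796024)) (l 15832208)) (c (l 15723704) (l 15886576)))) (a (b (c (a (l 15891976) (l 15899824)) (a (l 15993808) (l 15976224))) (b (a (l 15985608) (l 15975928)) (l 1))) (b (c (l 15712504) (l 15949560)) (b (l 15752056) (l 15787504)))))), by decide +kernel⟩

theorem s31_pm_213 : ∃ t, chk3 f_pm_213 t 15 3 1 = true := ex3_b k29_pm_213 k30_pm_213

theorem s32_pm_213 : ∃ t, chk3 f_pm_213 t 7 3 1 = true := ex3_a k28_pm_213 s31_pm_213

theorem s33_pm_213 : ∃ t, chk3 f_pm_213 t 3 3 1 = true := ex3_a k27_pm_213 s32_pm_213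

theorem s34_pm_213 : ∃ t, chk3 f_pm_213 t 1 3 1 = true := ex3_a k26_pm_213 s33_pm_213

theorem s35_pm_213 : ∃ t, chk3 f_pm_213 t 15 11 1 = true := ex3_b k24_pm_213 k25_pm_213

theorem s36_pm_213 : ∃ t, chk3 f_pm_213 t 7 11 1 = true := ex3_a k23_pm_213 s35_pm_213

theorem s37_pm_213 : ∃ t, chk3 f_pm_213 t 3 11 1 = true := ex3_a k22_pm_213 s36_pm_213

theorem s38_pm_213 : ∃ t, chk3 f_pm_213 t 125 42 1 = true := ex3_b k18_pm_213 k19_pm_213

theorem s39_pm_213 : ∃ t, chk3 f_pm_213 t 125 21 1 = true := ex3_b s38_pm_213 k20_pm_213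

theorem s40_pm_213 : ∃ t, chk3 f_pm_213 t 125 10 1 = true := ex3_b k17_pm_213 s39_pm_213

theorem s41_pm_213 : ∃ t, chk3 f_pm_213 t 62 10 1 = true := ex3_a k16_pm_213 s40_pm_213

theorem s42_pm_213 : ∃ t, chk3 f_pm_213 t 31 10 1 = true := ex3_a s41_pm_213 k21_pm_213

theorem s43_pm_213 : ∃ t, chk3 f_pm_213 t 15 10 1 = true := ex3_a k15_pm_213 s42_pm_213

theorem s44_pm_213 : ∃ t, chk3 f_pm_213 t 7 10 1 = true := ex3_a k14_pm_213 s43_pm_213

theorem s45_pm_213 : ∃ t, chk3 f_pm_213 t 3 10 1 = true := ex3_a k13_pm_213 s44_pm_213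

theorem s46_pm_213 : ∃ t, chk3 f_pm_213 t 3 5 1 = true := ex3_b s45_pm_213 s37_pm_213

theorem s47_pm_213 : ∃ t, chk3 f_pm_213 t 1 5 1 = true := ex3_a k12_pm_213 s46_pm_213

theorem s48_pm_213 : ∃ t, chk3 f_pm_213 t 126 38 1 = true := ex3_a k8_pm_213 k9_pm_213

theorem s49_pm_213 : ∃ t, chk3 f_pm_213 t 63 38 1 = true := ex3_a s48_pm_213 k10_pm_213

theorem s50_pm_213 : ∃ t, chk3 f_pm_213 t 63 19 1 = true := ex3_b s49_pm_213 k11_pm_213

theorem s51_pm_213 : ∃ t, chk3 f_pm_213 t 63 18 1 = true := ex3_a k6_pm_213 k7_pm_213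

theorem s52_pm_213 : ∃ t, chk3 f_pm_213 t 63 9 1 = true := ex3_b s51_pm_213 s50_pm_213

theorem s53_pm_213 : ∃ t, chk3 f_pm_213 t 31 9 1 = true := ex3_a k5_pm_213 s52_pm_213

theorem s54_pm_213 : ∃ t, chk3 f_pm_213 t 31 4 1 = true := ex3_b k4_pm_213 s53_pm_213

theorem s55_pm_213 : ∃ t, chk3 f_pm_213 t 15 4 1 = true := ex3_a k3_pm_213 s54_pm_213

theorem s56_pm_213 : ∃ t, chk3 f_pm_213 t 7 4 1 = true := ex3_a k2_pm_213 s55_pm_213

theorem s57_pm_213 : ∃ t, chk3 f_pm_213 t 3 4 1 = true := ex3_a k1_pm_213 s56_pm_213

theorem s58_pm_213 : ∃ t, chk3 f_pm_213 t 1 4 1 = true := ex3_a k0_pm_213 s57_pm_213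

theorem s59_pm_213 : ∃ t, chk3 f_pm_213 t 1 2 1 = true := ex3_b s58_pm_213 s47_pm_213

theorem s60_pm_213 : ∃ t, chk3 f_pm_213 t 1 1 1 = true := ex3_b s59_pm_213 s34_pm_213

theorem c_pm_213 : CertB 0 536870912 0 1230186008 991146299 28908434 3 eng mog cd0q2 cd3q3 pd1 false true false .pnn 2 1 3
    ndB0q2 ndB3q3 pcB1 cut_pm_213 xt_pm_213 :=
  certB0 (fam := false) (s1 := true) (s2 := false) (a := 2) (b := 1) (c := 3) (cn := .pnn) (n1 := ndB0q2) (n2 := ndB3q3) (pc := pcB1) (cut := cut_pm_213) (xt := xt_pm_213) (P1 := 0) (W1 := 536870912) (P2 := 0) (W2 := 1230186008) (P3 := 991146299) (W3 := 28908434) (N0 := 3) (En := eng) (mo := mog) (C1 := cd0q2) (C2 := cd3q3) (C3 := pd1)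
    rfl s60_pm_213

noncomputable def f_mm_001 : ℕ → ℕ → ℕ → ℕ → Bool := onCell 0 536870912 0 536870912 991146299 28908434
    (rowB 3 eng mog cd0q0 cd3q1 pd0 1 false false false .up 0 0 1 (qsf 0 536870912 536870912 536870912 0) ndB0q0 ndB3q1 pcB0 Cut.none Ext.none)

def k0_mm_001 : ∃ t, chk3 f_mm_001 t 1 1 1 = true :=
  ⟨(l 3), by decide +kernel⟩

theorem c_mm_001 : CertB 0 536870912 536870912 536870912 991146299 28908434 3 eng mog cd0q0 cd3q1 pd0 false false false .up 0 0 1
    ndB0q0 ndB3q1 pcB0 Cut.none Ext.none :=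
  certB1 (fam := false) (s1 := false) (s2 := false) (a := 0) (b := 0) (c := 1) (cn := .up) (n1 := ndB0q0) (n2 := ndB3q1) (pc := pcB0) (cut := Cut.none) (xt := Ext.none) (P1 := 0) (W1 := 536870912) (P2 := 536870912) (W2 := 536870912) (P3 := 991146299) (W3 := 28908434) (N0 := 3) (En := eng) (mo := mog) (C1 := cd0q0) (C2 := cd3q1) (C3 := pd0)
    rfl (fun _ => rfl) k0_mm_001

noncomputable def f_mm_011 : ℕ → ℕ → ℕ → ℕ → Bool := onCell 0 536870912 536870912 536870912 991146299 28908434
    (rowB 3 eng mog cd0q0 cd3q1 pd1 1 false false false .pnn 0 1 1 (qsf 0 536870912 536870912 536870912 1) ndB0q0 ndB3q1 pcB1 Cut.none Ext.none)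

def k0_mm_011 : ∃ t, chk3 f_mm_011 t 1 1 1 = true :=
  ⟨(l 5), by decide +kernel⟩

theorem c_mm_011 : CertB 0 536870912 536870912 536870912 991146299 28908434 3 eng mog cd0q0 cd3q1 pd1 false false false .pnn 0 1 1
    ndB0q0 ndB3q1 pcB1 Cut.none Ext.none :=
  certB1 (fam := false) (s1 := false) (s2 := false) (a := 0) (b := 1) (c := 1) (cn := .pnn) (n1 := ndB0q0) (n2 := ndB3q1) (pc := pcB1) (cut := Cut.none) (xt := Ext.none) (P1 := 0) (W1 := 536870912) (P2 := 536870912) (W2 := 536870912) (P3 := 991146299) (W3 := 28908434) (N0 := 3) (En := eng) (mo := mog) (C1 := cd0q0) (C2 := cd3q1) (C3 := pd1)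
    rfl (fun _ => rfl) k0_mm_011

noncomputable def f_mm_012 : ℕ → ℕ → ℕ → ℕ → Bool := onCell 0 536870912 1073741824 536870912 991146299 28908434
    (rowB 3 eng mog cd0q0 cd3q2 pd1 0 false false false .pnp 0 1 2 (qsf 0 536870912 1073741824 536870912 1) ndB0q0 ndB3q2 pcB1 Cut.none Ext.none)

def k0_mm_012 : ∃ t, chk3 f_mm_012 t 1 1 1 = true :=
  ⟨(l 5), by decide +kernel⟩

theorem c_mm_012 : CertB 0 536870912 1073741824 536870912 991146299 28908434 3 eng mog cd0q0 cd3q2 pd1 false false false .pnp 0 1 2
    ndB0q0 ndB3q2 pcB1 Cut.none Ext.none :=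
  certB0 (fam := false) (s1 := false) (s2 := false) (a := 0) (b := 1) (c := 2) (cn := .pnp) (n1 := ndB0q0) (n2 := ndB3q2) (pc := pcB1) (cut := Cut.none) (xt := Ext.none) (P1 := 0) (W1 := 536870912) (P2 := 1073741824) (W2 := 536870912) (P3 := 991146299) (W3 := 28908434) (N0 := 3) (En := eng) (mo := mog) (C1 := cd0q0) (C2 := cd3q2) (C3 := pd1)
    rfl k0_mm_012

noncomputable def f_mm_022 : ℕ → ℕ → ℕ → ℕ → Bool := onCell 0 536870912 1073741824 536870912 991146299 28908434
    (rowB 3 eng mog cd0q0 cd3q2 pd2 0 false false false .pp 0 2 2 (qsf 0 536870912 1073741824 536870912 2) ndB0q0 ndB3q2 pcB2 Cut.none Ext.none)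

def k0_mm_022 : ∃ t, chk3 f_mm_022 t 1 1 1 = true :=
  ⟨(l 5), by decide +kernel⟩

theorem c_mm_022 : CertB 0 536870912 1073741824 536870912 991146299 28908434 3 eng mog cd0q0 cd3q2 pd2 false false false .pp 0 2 2
    ndB0q0 ndB3q2 pcB2 Cut.none Ext.none :=
  certB0 (fam := false) (s1 := false) (s2 := false) (a := 0) (b := 2) (c := 2) (cn := .pp) (n1 := ndB0q0) (n2 := ndB3q2) (pc := pcB2) (cut := Cut.none) (xt := Ext.none) (P1 := 0) (W1 := 536870912) (P2 := 1073741824) (W2 := 536870912) (P3 := 991146299) (W3 := 28908434) (N0 := 3) (En := eng) (mo := mog) (C1 := cd0q0) (C2 := cd3q2) (C3 := pd2)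
    rfl k0_mm_022

noncomputable def f_mm_023 : ℕ → ℕ → ℕ → ℕ → Bool := onCell 0 536870912 0 1230186008 991146299 28908434
    (rowB 3 eng mog cd0q0 cd3q3 pd2 0 false false false .up 0 2 3 (qsf 0 536870912 0 1230186008 2) ndB0q0 ndB3q3 pcB2 Cut.none Ext.none)

def k0_mm_023 : ∃ t, chk3 f_mm_023 t 1 1 1 = true :=
  ⟨(l 5), by decide +kernel⟩

theorem c_mm_023 : CertB 0 536870912 0 1230186008 991146299 28908434 3 eng mog cd0q0 cd3q3 pd2 false false false .up 0 2 3
    ndB0q0 ndB3q3 pcB2 Cut.none Ext.none :=
  certB0 (fam := false) (s1 := false) (s2 := false) (a := 0) (b := 2) (c := 3) (cn := .up) (n1 := ndB0q0) (n2 := ndB3q3) (pc := pcB2) (cut := Cut.none) (xt := Ext.none) (P1 := 0) (W1 := 536870912) (P2 := 0) (W2 := 1230186008) (P3 := 991146299) (W3 := 28908434) (N0 := 3) (En := eng) (mo := mog) (C1 := cd0q0) (C2 := cd3q3) (C3 := pd2)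
    rfl k0_mm_023

noncomputable def f_mm_033 : ℕ → ℕ → ℕ → ℕ → Bool := onCell 0 536870912 0 1230186008 991146299 28908434
    (rowB 3 eng mog cd0q0 cd3q3 pd3 0 false false false .pnn 0 3 3 (qsf 0 536870912 0 1230186008 3) ndB0q0 ndB3q3 pcB3 Cut.none Ext.none)

def k0_mm_033 : ∃ t, chk3 f_mm_033 t 1 1 1 = true :=
  ⟨(l 5), by decide +kernel⟩

theorem c_mm_033 : CertB 0 536870912 0 1230186008 991146299 28908434 3 eng mog cd0q0 cd3q3 pd3 false false false .pnn 0 3 3
    ndB0q0 ndB3q3 pcB3 Cut.none Ext.none :=
  certB0 (fam := false) (s1 := false) (s2 := false) (a := 0) (b := 3) (c := 3) (cn := .pnn) (n1 := ndB0q0) (n2 := ndB3q3) (pc := pcB3) (cut := Cut.none) (xt := Ext.none) (P1 := 0) (W1 := 536870912) (P2 := 0) (W2 := 1230186008) (P3 := 991146299) (W3 := 28908434) (N0 := 3) (En := eng) (mo := mog) (C1 := cd0q0) (C2 := cd3q3) (C3 := pd3)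
    rfl k0_mm_033

noncomputable def cut_mm_101 : Cut := Cut.of [[⟨0, 1, 0, 53687091⟩, ⟨1, 0, 0, 53687091⟩, ⟨2, 1, 0, 53687091⟩]]

noncomputable def f_mm_101 : ℕ → ℕ → ℕ → ℕ → Bool := onCell 536870912 536870912 0 536870912 991146299 28908434
    (rowB 3 eng mog cd0q1 cd3q1 pd0 1 false false false .npn 1 0 1 (qsf 536870912 536870912 536870912 536870912 0) ndB0q1 ndB3q1 pcB0 cut_mm_101 Ext.none)

def k0_mm_101 : ∃ t, chk3 f_mm_101 t 1 1 1 = true :=
  ⟨(a (l 3) (a (l 3) (b (b (a (l 3) (b (b (a (l 3) (l 6)) (l 3)) (l 3))) (l 3)) (l 2)))), by decide +kernel⟩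

theorem c_mm_101 : CertB 536870912 536870912 536870912 536870912 991146299 28908434 3 eng mog cd0q1 cd3q1 pd0 false false false .npn 1 0 1
    ndB0q1 ndB3q1 pcB0 cut_mm_101 Ext.none :=
  certB1 (fam := false) (s1 := false) (s2 := false) (a := 1) (b := 0) (c := 1) (cn := .npn) (n1 := ndB0q1) (n2 := ndB3q1) (pc := pcB0) (cut := cut_mm_101) (xt := Ext.none) (P1 := 536870912) (W1 := 536870912) (P2 := 536870912) (W2 := 536870912) (P3 := 991146299) (W3 := 28908434) (N0 := 3) (En := eng) (mo := mog) (C1 := cd0q1) (C2 := cd3q1) (C3 := pd0)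
    rfl (fun _ => rfl) k0_mm_101

noncomputable def f_mm_102 : ℕ → ℕ → ℕ → ℕ → Bool := onCell 536870912 536870912 0 536870912 991146299 28908434
    (rowB 3 eng mog cd0q1 cd3q2 pd0 1 false false false .npp 1 0 2 (qsf 536870912 536870912 1073741824 536870912 0) ndB0q1 ndB3q2 pcB0 Cut.none Ext.none)

def k0_mm_102 : ∃ t, chk3 f_mm_102 t 1 1 1 = true :=
  ⟨(l 3), by decide +kernel⟩

theorem c_mm_102 : CertB 536870912 536870912 1073741824 536870912 991146299 28908434 3 eng mog cd0q1 cd3q2 pd0 false false false .npp 1 0 2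
    ndB0q1 ndB3q2 pcB0 Cut.none Ext.none :=
  certB1 (fam := false) (s1 := false) (s2 := false) (a := 1) (b := 0) (c := 2) (cn := .npp) (n1 := ndB0q1) (n2 := ndB3q2) (pc := pcB0) (cut := Cut.none) (xt := Ext.none) (P1 := 536870912) (W1 := 536870912) (P2 := 1073741824) (W2 := 536870912) (P3 := 991146299) (W3 := 28908434) (N0 := 3) (En := eng) (mo := mog) (C1 := cd0q1) (C2 := cd3q2) (C3 := pd0)
    rfl (fun _ => rfl) k0_mm_102

noncomputable def f_mm_112 : ℕ → ℕ → ℕ → ℕ → Bool := onCell 536870912 536870912 1073741824 536870912 991146299 28908434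
    (rowB 3 eng mog cd0q1 cd3q2 pd1 2 false false false .dn 1 1 2 (qsf 536870912 536870912 1073741824 536870912 1) ndB0q1 ndB3q2 pcB1 Cut.none Ext.none)

def k0_mm_112 : ∃ t, chk3 f_mm_112 t 1 1 1 = true :=
  ⟨(l 5), by decide +kernel⟩

theorem c_mm_112 : CertB 536870912 536870912 1073741824 536870912 991146299 28908434 3 eng mog cd0q1 cd3q2 pd1 false false false .dn 1 1 2
    ndB0q1 ndB3q2 pcB1 Cut.none Ext.none :=
  certB2 (fam := false) (s1 := false) (s2 := false) (a := 1) (b := 1) (c := 2) (cn := .dn) (n1 := ndB0q1) (n2 := ndB3q2) (pc := pcB1) (cut := Cut.none) (xt := Ext.none) (P1 := 536870912) (W1 := 536870912) (P2 := 1073741824) (W2 := 536870912) (P3 := 991146299) (W3 := 28908434) (N0 := 3) (En := eng) (mo := mog) (C1 := cd0q1) (C2 := cd3q2) (C3 := pd1)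
    rfl (fun _ => rfl) k0_mm_112

noncomputable def f_mm_113 : ℕ → ℕ → ℕ → ℕ → Bool := onCell 536870912 536870912 0 1230186008 991146299 28908434
    (rowB 3 eng mog cd0q1 cd3q3 pd1 0 false false false .nn 1 1 3 (qsf 536870912 536870912 0 1230186008 1) ndB0q1 ndB3q3 pcB1 Cut.none Ext.none)

def k0_mm_113 : ∃ t, chk3 f_mm_113 t 1 1 1 = true :=
  ⟨(b (l 5) (l 5)), by decide +kernel⟩

theorem c_mm_113 : CertB 536870912 536870912 0 1230186008 991146299 28908434 3 eng mog cd0q1 cd3q3 pd1 false false false .nn 1 1 3
    ndB0q1 ndB3q3 pcB1 Cut.none Ext.none :=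
  certB0 (fam := false) (s1 := false) (s2 := false) (a := 1) (b := 1) (c := 3) (cn := .nn) (n1 := ndB0q1) (n2 := ndB3q3) (pc := pcB1) (cut := Cut.none) (xt := Ext.none) (P1 := 536870912) (W1 := 536870912) (P2 := 0) (W2 := 1230186008) (P3 := 991146299) (W3 := 28908434) (N0 := 3) (En := eng) (mo := mog) (C1 := cd0q1) (C2 := cd3q3) (C3 := pd1)
    rfl k0_mm_113

noncomputable def f_mm_123 : ℕ → ℕ → ℕ → ℕ → Bool := onCell 536870912 536870912 0 1230186008 991146299 28908434
    (rowB 3 eng mog cd0q1 cd3q3 pd2 0 false false false .npn 1 2 3 (qsf 536870912 536870912 0 1230186008 2) ndB0q1 ndB3q3 pcB2 Cut.none Ext.none)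

def k0_mm_123 : ∃ t, chk3 f_mm_123 t 1 1 1 = true :=
  ⟨(b (l 5) (l 5)), by decide +kernel⟩

theorem c_mm_123 : CertB 536870912 536870912 0 1230186008 991146299 28908434 3 eng mog cd0q1 cd3q3 pd2 false false false .npn 1 2 3
    ndB0q1 ndB3q3 pcB2 Cut.none Ext.none :=
  certB0 (fam := false) (s1 := false) (s2 := false) (a := 1) (b := 2) (c := 3) (cn := .npn) (n1 := ndB0q1) (n2 := ndB3q3) (pc := pcB2) (cut := Cut.none) (xt := Ext.none) (P1 := 536870912) (W1 := 536870912) (P2 := 0) (W2 := 1230186008) (P3 := 991146299) (W3 := 28908434) (N0 := 3) (En := eng) (mo := mog) (C1 := cd0q1) (C2 := cd3q3) (C3 := pd2)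
    rfl k0_mm_123

noncomputable def f_mm_133 : ℕ → ℕ → ℕ → ℕ → Bool := onCell 1610612736 536870912 0 1230186008 991146299 28908434
    (rowB 3 eng mog cd0q1 cd3q3 pd3 2 false false false .dn 1 3 3 (qsf 536870912 536870912 0 1230186008 3) ndB0q1 ndB3q3 pcB3 Cut.none Ext.none)

def k0_mm_133 : ∃ t, chk3 f_mm_133 t 1 1 1 = true :=
  ⟨(l 5), by decide +kernel⟩

theorem c_mm_133 : CertB 536870912 536870912 0 1230186008 991146299 28908434 3 eng mog cd0q1 cd3q3 pd3 false false false .dn 1 3 3
    ndB0q1 ndB3q3 pcB3 Cut.none Ext.none :=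
  certB2 (fam := false) (s1 := false) (s2 := false) (a := 1) (b := 3) (c := 3) (cn := .dn) (n1 := ndB0q1) (n2 := ndB3q3) (pc := pcB3) (cut := Cut.none) (xt := Ext.none) (P1 := 536870912) (W1 := 536870912) (P2 := 0) (W2 := 1230186008) (P3 := 991146299) (W3 := 28908434) (N0 := 3) (En := eng) (mo := mog) (C1 := cd0q1) (C2 := cd3q3) (C3 := pd3)
    rfl (fun _ => rfl) k0_mm_133

noncomputable def f_mm_202 : ℕ → ℕ → ℕ → ℕ → Bool := onCell 0 536870912 1073741824 536870912 991146299 28908434
    (rowB 3 eng mog cd0q2 cd3q2 pd0 0 false false false .pp 2 0 2 (qsf 0 536870912 1073741824 536870912 0) ndB0q2 ndB3q2 pcB0 Cut.none Ext.none)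

def k0_mm_202 : ∃ t, chk3 f_mm_202 t 1 1 1 = true :=
  ⟨(l 3), by decide +kernel⟩

theorem c_mm_202 : CertB 0 536870912 1073741824 536870912 991146299 28908434 3 eng mog cd0q2 cd3q2 pd0 false false false .pp 2 0 2
    ndB0q2 ndB3q2 pcB0 Cut.none Ext.none :=
  certB0 (fam := false) (s1 := false) (s2 := false) (a := 2) (b := 0) (c := 2) (cn := .pp) (n1 := ndB0q2) (n2 := ndB3q2) (pc := pcB0) (cut := Cut.none) (xt := Ext.none) (P1 := 0) (W1 := 536870912) (P2 := 1073741824) (W2 := 536870912) (P3 := 991146299) (W3 := 28908434) (N0 := 3) (En := eng) (mo := mog) (C1 := cd0q2) (C2 := cd3q2) (C3 := pd0)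
    rfl k0_mm_202

noncomputable def f_mm_203 : ℕ → ℕ → ℕ → ℕ → Bool := onCell 0 536870912 0 1230186008 991146299 28908434
    (rowB 3 eng mog cd0q2 cd3q3 pd0 0 false false false .up 2 0 3 (qsf 0 536870912 0 1230186008 0) ndB0q2 ndB3q3 pcB0 Cut.none Ext.none)

def k0_mm_203 : ∃ t, chk3 f_mm_203 t 1 1 1 = true :=
  ⟨(b (l 2) (l 3)), by decide +kernel⟩

theorem c_mm_203 : CertB 0 536870912 0 1230186008 991146299 28908434 3 eng mog cd0q2 cd3q3 pd0 false false false .up 2 0 3
    ndB0q2 ndB3q3 pcB0 Cut.none Ext.none :=
  certB0 (fam := false) (s1 := false) (s2 := false) (a := 2) (b := 0) (c := 3) (cn := .up) (n1 := ndB0q2) (n2 := ndB3q3) (pc := pcB0) (cut := Cut.none) (xt := Ext.none) (P1 := 0) (W1 := 536870912) (P2 := 0) (W2 := 1230186008) (P3 := 991146299) (W3 := 28908434) (N0 := 3) (En := eng) (mo := mog) (C1 := cd0q2) (C2 := cd3q3) (C3 := pd0)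
    rfl k0_mm_203

noncomputable def f_mm_213 : ℕ → ℕ → ℕ → ℕ → Bool := onCell 0 536870912 0 1230186008 991146299 28908434
    (rowB 3 eng mog cd0q2 cd3q3 pd1 0 false false false .pnn 2 1 3 (qsf 0 536870912 0 1230186008 1) ndB0q2 ndB3q3 pcB1 Cut.none Ext.none)

def k0_mm_213 : ∃ t, chk3 f_mm_213 t 1 1 1 = true :=
  ⟨(b (a (l 3) (l 5)) (l 3)), by decide +kernel⟩

theorem c_mm_213 : CertB 0 536870912 0 1230186008 991146299 28908434 3 eng mog cd0q2 cd3q3 pd1 false false false .pnn 2 1 3
    ndB0q2 ndB3q3 pcB1 Cut.none Ext.none :=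
  certB0 (fam := false) (s1 := false) (s2 := false) (a := 2) (b := 1) (c := 3) (cn := .pnn) (n1 := ndB0q2) (n2 := ndB3q3) (pc := pcB1) (cut := Cut.none) (xt := Ext.none) (P1 := 0) (W1 := 536870912) (P2 := 0) (W2 := 1230186008) (P3 := 991146299) (W3 := 28908434) (N0 := 3) (En := eng) (mo := mog) (C1 := cd0q2) (C2 := cd3q3) (C3 := pd1)
    rfl k0_mm_213

end Pool.Agent.Strip051.G.I9231_9500.Tab.C.BB03

namespace Pool.Agent.Strip051.G.I9231_9500.Tab.C.BB04

open Pool.Agent.Strip051.PB Pool.Agent.Strip051.PB.T
open Pool.Agent.Strip051.G.I9231_9500.Tab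

noncomputable def f_pp_001 : ℕ → ℕ → ℕ → ℕ → Bool := onCell 0 536870912 0 536870912 991146299 28908434
    (rowB 3 eng mog cd0q0 cd4q1 pd0 1 false true true .up 0 0 1 (qsf 0 536870912 536870912 536870912 0) ndB0q0 ndB4q1 pcB0 Cut.none Ext.none)

def k0_pp_001 : ∃ t, chk3 f_pp_001 t 1 1 1 = true :=
  ⟨(l 3), by decide +kernel⟩

theorem c_pp_001 : CertB 0 536870912 536870912 536870912 991146299 28908434 3 eng mog cd0q0 cd4q1 pd0 false true true .up 0 0 1
    ndB0q0 ndB4q1 pcB0 Cut.none Ext.none :=
  certB1 (fam := false) (s1 := true) (s2 := true) (a := 0) (b := 0) (c := 1) (cn := .up) (n1 := ndB0q0) (n2 := ndB4q1) (pc := pcB0) (cut := Cut.none) (xt := Ext.none) (P1 := 0) (W1 := 536870912) (P2 := 536870912) (W2 := 536870912) (P3 := 991146299) (W3 := 28908434) (N0 := 3) (En := eng) (mo := mog) (C1 := cd0q0) (C2 := cd4q1) (C3 := pd0)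
    rfl (fun _ => rfl) k0_pp_001

noncomputable def cut_pp_011 : Cut := Cut.of [[⟨0, 0, 0, 53687091⟩, ⟨1, 1, 0, 53687091⟩, ⟨2, 1, 0, 53687091⟩]]

noncomputable def f_pp_011 : ℕ → ℕ → ℕ → ℕ → Bool := onCell 0 536870912 536870912 536870912 991146299 28908434
    (rowB 3 eng mog cd0q0 cd4q1 pd1 1 false true true .pnn 0 1 1 (qsf 0 536870912 536870912 536870912 1) ndB0q0 ndB4q1 pcB1 cut_pp_011 Ext.none)

def k0_pp_011 : ∃ t, chk3 f_pp_011 t 1 1 1 = true :=
  ⟨(b (l 3) (a (b (l 3) (a (b (l 3) (a (b (l 3) (a (l 6) (l 3))) (l 3))) (l 3))) (l 3))), by decide +kernel⟩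

theorem c_pp_011 : CertB 0 536870912 536870912 536870912 991146299 28908434 3 eng mog cd0q0 cd4q1 pd1 false true true .pnn 0 1 1
    ndB0q0 ndB4q1 pcB1 cut_pp_011 Ext.none :=
  certB1 (fam := false) (s1 := true) (s2 := true) (a := 0) (b := 1) (c := 1) (cn := .pnn) (n1 := ndB0q0) (n2 := ndB4q1) (pc := pcB1) (cut := cut_pp_011) (xt := Ext.none) (P1 := 0) (W1 := 536870912) (P2 := 536870912) (W2 := 536870912) (P3 := 991146299) (W3 := 28908434) (N0 := 3) (En := eng) (mo := mog) (C1 := cd0q0) (C2 := cd4q1) (C3 := pd1)
    rfl (fun _ => rfl) k0_pp_011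

noncomputable def f_pp_012 : ℕ → ℕ → ℕ → ℕ → Bool := onCell 0 536870912 536870912 536870912 991146299 28908434
    (rowB 3 eng mog cd0q0 cd4q2 pd1 1 false true true .pnp 0 1 2 (qsf 0 536870912 1073741824 536870912 1) ndB0q0 ndB4q2 pcB1 Cut.none Ext.none)

def k0_pp_012 : ∃ t, chk3 f_pp_012 t 1 1 1 = true :=
  ⟨(l 3), by decide +kernel⟩

theorem c_pp_012 : CertB 0 536870912 1073741824 536870912 991146299 28908434 3 eng mog cd0q0 cd4q2 pd1 false true true .pnp 0 1 2
    ndB0q0 ndB4q2 pcB1 Cut.none Ext.none :=
  certB1 (fam := false) (s1 := true) (s2 := true) (a := 0) (b := 1) (c := 2) (cn := .pnp) (n1 := ndB0q0) (n2 := ndB4q2) (pc := pcB1) (cut := Cut.none) (xt := Ext.none) (P1 := 0) (W1 := 536870912) (P2 := 1073741824) (W2 := 536870912) (P3 := 991146299) (W3 := 28908434) (N0 := 3) (En := eng) (mo := mog) (C1 := cd0q0) (C2 := cd4q2) (C3 := pd1)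
    rfl (fun _ => rfl) k0_pp_012

noncomputable def f_pp_022 : ℕ → ℕ → ℕ → ℕ → Bool := onCell 1073741824 536870912 1073741824 536870912 991146299 28908434
    (rowB 3 eng mog cd0q0 cd4q2 pd2 2 false true true .pp 0 2 2 (qsf 0 536870912 1073741824 536870912 2) ndB0q0 ndB4q2 pcB2 Cut.none Ext.none)

def k0_pp_022 : ∃ t, chk3 f_pp_022 t 4 1 1 = true :=
  ⟨(b (l 3) (l 3)), by decide +kernel⟩

def k1_pp_022 : ∃ t, chk3 f_pp_022 t 5 2 1 = true :=
  ⟨(b (a (a (a (a (a (l 3) (l 1)) (l 1)) (l 1)) (l 1)) (l 1)) (a (a (a (l 3) (b (b (b (a (c (l 16132136) (l 16064088)) (l 1)) (a (c (l 272896768903) (l 278265392023)) (a (c (l 16162464) (l 16137032)) (a (l 16136032) (c (l 16141864) (l 16116000)))))) (a (c (a (l 16249528) (l 16228936)) (a (l 16226296) (l 16227416))) (a (c (l 16187816) (l 16186376)) (c (b (l 16189424) (l 16294536)) (a (l 16213280) (l 16183184)))))) (a (a (l 3) (b (c (l 16253320) (l 16155584)) (c (l 451137801783) (b (l 16145616) (l 3))))) (a (b (c (l 16211088) (l 16092480)) (c (b (l 16261032) (l 16177376)) (b (l 16145272) (l 16037656))))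 (b (c (l 16294392) (l 16197144)) (c (l 16133856) (l 15964312))))))) (b (b (b (l 1) (a (l 16091040) (l 1))) (b (a (l 16124784) (l 16155720)) (b (l 16146568) (c (l 16340440) (l 16380584))))) (b (b (l 16200944) (a (l 16159736) (l 16217936))) (c (b (l 16174536) (a (l 16174736) (l 16172032))) (b (l 16081736) (a (l 16036064) (l 16034800))))))) (b (b (l 1) (b (l 1) (a (l 16051736) (l 1)))) (b (a (b (c (l 16274192) (l 16334232)) (a (l 16250728) (l 16237568))) (b (l 1) (l 16189936))) (a (b (l 16023024) (c (l 16143256) (l 16029280))) (b (l 15995208) (c (l 16141480) (l 16009152)))))))), by decide +kernel⟩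

def k2_pp_022 : ∃ t, chk3 f_pp_022 t 40 3 1 = true :=
  ⟨(l 3), by decide +kernel⟩

def k3_pp_022 : ∃ t, chk3 f_pp_022 t 41 6 1 = true :=
  ⟨(a (l 3) (b (a (b (b (c (l 16099552) (l 15937440)) (c (l 178407414503) (a (l 3) (l 15844296)))) (a (l 3) (c (b (l 15960576) (l 15899696)) (b (l 15758432) (l 15679784))))) (b (c (l 15915360) (b (l 15937072) (l 15844008))) (c (b (l 15960096) (l 15899216)) (b (l 15758120) (l 15679464))))) (a (b (l 3) (l 3)) (b (c (b (l 15843736) (l 15772392)) (b (l 15607672) (b (l 15558064) (l 15527016)))) (c (b (b (l 15758864) (l 15716472)) (b (l 15675304) (l 15656336))) (b (b (l 15497560) (l 159615852343)) (c (b (l 15513376) (l 15490064)) (b (l 15372296) (l 15346008))))))))), by decide +kernel⟩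

def k4_pp_022 : ∃ t, chk3 f_pp_022 t 41 7 1 = true :=
  ⟨(a (l 3) (a (l 3) (b (b (c (b (b (l 159079276967) (c (l 15733800) (l 15592984))) (b (c (l 15719600) (l 15576408)) (c (l 15706512) (l 15540096)))) (b (c (b (l 15468200) (l 15447760)) (b (l 15321320) (l 15298224))) (c (b (l 15428736) (l 148341402167)) (b (l 15297672) (l 144583030775))))) (a (l 3) (c (b (b (c (l 15694424) (l 15546952)) (c (l 15683480) (l 15534072))) (b (c (l 15673576) (l 15522400)) (c (l 15664704) (l 15511904)))) (b (c (b (l 15394904) (l 15380048)) (b (l 15238384) (l 15232000))) (c (b (l 145656912791) (c (l 15394216) (l 15314320))) (b (b (l 15209848) (l 15202560)) (c (l 15233280) (l 15151112)))))))) (b (a (l 3) (c (b (b (c (l 15656840) (l 15502584)) (c (l 15649976) (l 15494416))) (b (c (l 15644104) (l 15487384)) (c (l 15639200) (l 15481480)))) (b (c (b (c (l 15383776) (l 15303128)) (c (l 15374616) (l 15293288))) (b (c (l 15221320) (l 15138384)) (c (l 15210808) (l 15127184)))) (c (b (c (l 15366704) (l 15284784)) (l 137066868439)) (b (c (l 15201704) (l 15117480))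 (c (l 15194008) (l 15109256))))))) (c (b (b (c (l 15635240) (l 141362125111)) (c (l 15632232) (l 140288374871))) (b (c (l 15630152) (l 15470248)) (c (l 15628984) (l 15468672)))) (b (a (l 3) (c (b (l 15313304) (l 15308888)) (b (l 15155720) (l 15140096)))) (c (b (l 135993103655) (l 15303536)) (b (l 132771636327) (l 15133696))))))))), by decide +kernel⟩

def k5_pp_022 : ∃ t, chk3 f_pp_022 t 21 6 1 = true :=
  ⟨(b (b (b (c (a (l 16096376) (l 16093112)) (a (l 15935184) (l 15933200))) (a (c (l 16024912) (l 15842896)) (c (l 16020632) (l 15839688)))) (c (b (a (l 15958376) (l 15954896)) (a (l 15897488) (l 15894024))) (b (a (l 15756992) (l 15754592)) (a (l 15678296) (l 15675832))))) (b (c (b (a (l 15842040) (l 15838704)) (a (a (l 15792528) (l 15791192)) (l 15788736))) (b (a (a (l 15607048) (l 15605984)) (l 15604160)) (a (a (l 15549760) (l 15541040)) (l 15539312)))) (c (b (a (b (l 15715616) (l 15694296)) (l 15744000)) (a (b (l 15674200) (a (l 15655760) (l 15696744))) (l 15683200))) (b (a (b (l 15475928) (c (l 15537456) (l 15399832))) (l 15481136))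 (b (a (c (l 15512816) (l 15372072)) (l 15441552)) (a (c (l 15489640) (l 15345936)) (l 15417144))))))), by decide +kernel⟩

def k6_pp_022 : ∃ t, chk3 f_pp_022 t 21 14 1 = true :=
  ⟨(b (c (c (b (a (b (l 15747976) (l 15732752)) (l 15737832)) (a (b (l 15718648) (l 15684664)) (l 15709928))) (b (a (b (l 15610136) (l 15571440)) (l 15599416)) (a (a (b (l 15576152) (l 15560888)) (l 15567928)) (l 15566872)))) (b (a (b (c (l 15467912) (l 15321424)) (a (c (l 15447704) (l 15298416)) (l 15383968))) (a (l 15362728) (l 15362096))) (a (a (c (b (l 15428760) (l 15411224)) (b (l 15277000) (l 15257136))) (c (l 15419760) (l 15288144))) (c (l 15419232) (l 15267144))))) (c (b (a (b (a (c (l 15694048) (l 15546856)) (l 15557576)) (a (c (l 15683152) (l 15534040)) (l 15545816))) (b (l 15577400) (l 15544800))) (a (b (a (c (l 15673312) (l 15522424)) (l 15535184)) (a (c (l 15664488) (l 15511992)) (l 15525664))) (b (l 15534312) (l 15524944)))) (a (b (c (a (b (l 15395072) (l 15369800)) (b (l 15395152) (l 15380488))) (b (a (l 15238808) (l 15239288)) (a (a (l 15221816)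 (l 15222176)) (l 15222632)))) (c (a (b (a (l 15366744) (l 15366952)) (a (l 15354648) (l 15354904))) (b (l 15367184) (l 15355224))) (a (b (a (l 15206520) (l 15206944)) (a (l 15192736) (l 15193224))) (b (l 15207496) (l 15193872))))) (b (c (l 15377048) (b (l 15239576) (l 15223152))) (c (b (l 15367296) (l 15355528)) (b (l 15208232) (l 15194824))))))), by decide +kernel⟩

def k7_pp_022 : ∃ t, chk3 f_pp_022 t 21 15 1 = true :=
  ⟨(b (c (a (b (b (a (c (l 15656680) (l 15502736)) (l 15517232)) (a (c (l 15649880) (l 15494632)) (l 15509880))) (b (a (c (l 15644056) (l 15487672)) (l 15503592)) (a (c (l 15639216) (l 15481832)) (l 15498360)))) (b (a (l 15534144) (l 15533648)) (b (l 15503352) (l 15498272)))) (c (b (a (b (a (a (l 15343872) (l 15344192)) (l 15344600)) (a (a (l 15334416) (l 15334792)) (l 15335288))) (a (l 15340240) (l 15340456))) (a (a (b (a (l 15326256) (l 15326696)) (a (l 15319376) (l 15319872))) (b (l 15327280) (l 15320552))) (l 15324760))) (b (a (b (a (a (l 15190928) (l 15181000)) (l 15181744)) (a (a (l 15180120) (l 15170256))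 (l 15171096))) (a (l 15177152) (l 15177832))) (a (b (a (a (l 15160280) (l 15160968)) (l 15161912)) (a (a (l 15152368) (l 15153128)) (l 15154176))) (l 15180568))))) (c (b (a (c (b (l 15593416) (l 15632464)) (a (b (l 15477104) (l 15473464)) (l 15475752))) (c (l 15633560) (l 15476320))) (a (b (c (l 15630496) (l 15450344)) (c (l 15629448) (l 15469880))) (c (l 15630032) (l 15471776)))) (c (b (a (a (b (l 15293080) (l 15309712)) (l 15312872)) (l 15314216)) (a (a (b (l 15306608) (l 15304712)) (l 15306904)) (l 15308648))) (b (a (a (b (a (l 15145888) (l 15146704)) (l 15141264)) (l 15145280)) (l 15147392)) (a (a (b (l 15137600) (l 15135304)) (l 15138232)) (l 15140784)))))), by decide +kernel⟩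

def k8_pp_022 : ∃ t, chk3 f_pp_022 t 11 3 1 = true :=
  ⟨(b (b (b (a (b (c (l 16087024) (l 15929440)) (c (l 16015336) (l 15836656))) (b (l 15826072) (c (l 16000456) (l 15824960)))) (b (a (c (l 15947384) (l 15748928)) (c (l 15935176) (l 15740000))) (a (a (c (l 15889744) (l 15672712)) (c (l 15883808) (l 15668016))) (c (l 15875256) (l 15661928))))) (b (a (c (b (l 15832168) (l 15782528)) (b (l 15599304) (l 15534736))) (c (b (l 15819144) (l 15769128)) (b (l 15589000) (l 15523784)))) (c (a (b (l 15738040) (l 15667200)) (b (l 15726488) (l 15687840))) (a (b (l 15489880) (a (l 15426960) (l 15423632))) (b (l 15467720) (l 15417008)))))) (b (b (c (a (b (b (l 15651552) (l 15614592)) (a (l 15615424) (l 15632848))) (b (l 15654160) (l 15604416))) (a (b (a (l 15360720) (l 15378904)) (a (l 15321528) (l 15340232))) (b (l 15372680) (l 15313688)))) (c (a (b (a (l 15569304) (l 15608136)) (a (l 15548712) (l 15587984))) (a (l 15593712) (l 15588648))) (a (b (a (l 15288272) (l 15307536)) (a (c (l 15360768) (l 15201664)) (l 15280664))) (b (l 15281984) (l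 15256000))))) (c (b (a (b (a (l 15532584) (l 15572296)) (a (l 15499800) (l 15560960))) (a (l 15542320) (l 15538320))) (a (b (a (l 15513160) (l 15553832)) (a (l 15551544) (l 15550792))) (a (l 15508096) (l 15547128)))) (b (a (a (b (c (l 15340408) (l 15178424)) (c (l 15325296) (l 15161072))) (b (l 15259472) (l 15243832))) (a (l 15228872) (l 15226432))) (a (b (a (c (l 15315288) (l 15149432)) (l 15233632)) (c (l 15310848) (l 15144520))) (b (a (l 15233304) (l 15231872)) (l 15228864))))))), by decide +kernel⟩

def k9_pp_022 : ∃ t, chk3 f_pp_022 t 3 2 1 = true :=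
  ⟨(b (l 1) (a (b (l 1) (a (b (l 1) (c (l 15904336) (l 15743608))) (l 1))) (l 1))), by decide +kernel⟩

def k10_pp_022 : ∃ t, chk3 f_pp_022 t 3 3 1 = true :=
  ⟨(b (a (b (a (b (c (a (l 15858376) (l 15962176)) (a (l 15695840) (l 15801448))) (a (b (l 15714368) (c (l 15855832) (l 15645952))) (b (l 15616744) (l 15471800)))) (b (l 1) (c (l 15777328) (l 15540056)))) (c (a (b (a (b (l 15802320) (l 15754008)) (l 15752096)) (a (b (l 15709592) (l 15670968)) (l 15669200))) (b (a (l 15714464) (l 15664680)) (a (l 15638240) (l 15595896)))) (a (b (a (b (l 15575696) (l 15512152)) (l 15521288)) (a (b (l 15453824) (l 15402864)) (b (l 15435784) (l 15386544)))) (b (a (l 15486776) (l 15439264)) (a (l 15383624) (l 15344592)))))) (b (l 1) (a (b (l 1) (c (l 15511952) (l 15264048))) (l 1)))) (a (b (a (b (a (c (l 15624864) (l 15341384)) (c (l 15603800) (b (l 15342576) (l 15305632)))) (c (a (l 15578624) (l 15560456)) (a (l 15279344) (l 15264192)))) (b (a (c (l 15577952) (l 15301456)) (c (l 15541600) (l 15268992))) (a (c (l 15535064) (l 15242072)) (c (l 15503480)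 (l 15214528))))) (a (b (c (a (l 15530112) (l 15535032)) (a (l 15241432) (l 15228328))) (c (a (l 15519720) (l 15527344)) (a (l 15204704) (l 15194512)))) (b (a (c (l 15512768) (l 15209272)) (c (l 15482640) (l 15182592))) (c (l 15495304) (a (l 15198928) (l 15175512)))))) (b (a (b (a (c (l 15494200) (l 15225048)) (l 15180072)) (a (c (l 15461344) (l 15176400)) (c (l 15408488) (l 15127112)))) (b (l 1) (c (l 15311784) (l 15034248)))) (a (b (a (c (l 15444912) (l 15148992)) (c (l 15396568) (l 15104728))) (a (c (l 15445592) (l 15143792)) (c (l 15401264) (l 15103648)))) (b (c (l 15304816) (l 15018072)) (a (c (l 15346232) (l 15052736)) (c (l 15281112) (l 14991336)))))))), by decide +kernel⟩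

theorem s11_pp_022 : ∃ t, chk3 f_pp_022 t 3 1 1 = true := ex3_b k9_pp_022 k10_pp_022

theorem s12_pp_022 : ∃ t, chk3 f_pp_022 t 21 7 1 = true := ex3_b k6_pp_022 k7_pp_022

theorem s13_pp_022 : ∃ t, chk3 f_pp_022 t 21 3 1 = true := ex3_b k5_pp_022 s12_pp_022

theorem s14_pp_022 : ∃ t, chk3 f_pp_022 t 41 3 1 = true := ex3_b k3_pp_022 k4_pp_022

theorem s15_pp_022 : ∃ t, chk3 f_pp_022 t 20 3 1 = true := ex3_a k2_pp_022 s14_pp_022

theorem s16_pp_022 : ∃ t, chk3 f_pp_022 t 10 3 1 = true := ex3_a s15_pp_022 s13_pp_022

theorem s17_pp_022 : ∃ t, chk3 f_pp_022 t 5 3 1 = true := ex3_a s16_pp_022 k8_pp_022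

theorem s18_pp_022 : ∃ t, chk3 f_pp_022 t 5 1 1 = true := ex3_b k1_pp_022 s17_pp_022

theorem s19_pp_022 : ∃ t, chk3 f_pp_022 t 2 1 1 = true := ex3_a k0_pp_022 s18_pp_022

theorem s20_pp_022 : ∃ t, chk3 f_pp_022 t 1 1 1 = true := ex3_a s19_pp_022 s11_pp_022

theorem c_pp_022 : CertB 0 536870912 1073741824 536870912 991146299 28908434 3 eng mog cd0q0 cd4q2 pd2 false true true .pp 0 2 2
    ndB0q0 ndB4q2 pcB2 Cut.none Ext.none :=
  certB2 (fam := false) (s1 := true) (s2 := true) (a := 0) (b := 2) (c := 2) (cn := .pp) (n1 := ndB0q0) (n2 := ndB4q2) (pc := pcB2) (cut := Cut.none) (xt := Ext.none) (P1 := 0) (W1 := 536870912) (P2 := 1073741824) (W2 := 536870912) (P3 := 991146299) (W3 := 28908434) (N0 := 3) (En := eng) (mo := mog) (C1 := cd0q0) (C2 := cd4q2) (C3 := pd2)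
    rfl (fun _ => rfl) s20_pp_022

noncomputable def f_pp_023 : ℕ → ℕ → ℕ → ℕ → Bool := onCell 1073741824 536870912 0 1230186008 991146299 28908434
    (rowB 3 eng mog cd0q0 cd4q3 pd2 2 false true true .up 0 2 3 (qsf 0 536870912 0 1230186008 2) ndB0q0 ndB4q3 pcB2 Cut.none Ext.none)

def k0_pp_023 : ∃ t, chk3 f_pp_023 t 2 1 1 = true :=
  ⟨(b (l 2) (a (b (l 2) (l 3)) (b (a (l 2) (b (l 2) (b (l 2) (a (l 2) (l 16465816))))) (a (b (b (a (l 2) (b (l 2) (l 290546843303))) (b (a (l 2) (a (b (l 2) (l 16247200)) (l 16331224))) (a (a (l 3) (a (a (l 3) (b (c (l 16240480) (l 16195440)) (c (l 16227128) (l 16179712)))) (b (a (a (l 16219648) (l 16220648)) (a (l 16221648) (l 16285768))) (a (a (l 16205016) (l 16205928)) (l 16207296))))) (a (b (l 16228168) (l 16211848)) (b (l 16237680) (l 16219240)))))) (a (a (l 3) (a (b (b (a (l 3) (b (c (l 16215256) (l 16165480)) (l 3))) (l 3)) (l 3)) (b (a (b (a (b (l 16191864) (l 16180488)) (b (l 16192696) (l 16181240))) (a (b (l 16171224) (l 3)) (b (l 16171888) (l 16164992)))) (b (b (l 16193936) (l 16182360))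 (b (l 16172896) (l 16165872)))) (a (b (b (a (l 3) (l 16160936)) (l 3)) (l 3)) (b (b (l 16161696) (l 16160768)) (l 16250528)))))) (b (a (b (b (l 16198016) (l 16186024)) (b (l 16176144) (l 16168712))) (b (l 16239472) (l 16239440))) (b (b (a (l 16164120) (l 16167448)) (l 16248160)) (b (l 16208248) (l 16172544)))))) (b (b (a (b (l 16358896) (l 16310400)) (b (l 16408032) (l 16355576))) (a (b (l 16263704) (a (l 16236888) (l 16245472))) (b (l 16304800) (l 16257256)))) (b (b (a (a (l 16202936) (l 16208048)) (l 16215408)) (a (b (l 16186808) (l 16177608)) (l 16186184))) (b (a (b (l 16171216) (l 16168064)) (l 16170360)) (a (b (l 16168616) (l 16173360)) (l 16168408))))))))), by decide +kernel⟩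

def k1_pp_023 : ∃ t, chk3 f_pp_023 t 3 1 1 = true :=
  ⟨(b (a (l 2) (b (a (l 2) (b (l 15301560) (a (l 2) (l 15488168)))) (b (a (a (l 2) (l 15855736)) (a (l 15776696) (l 15694312))) (a (b (a (l 2) (l 16014512)) (a (l 16211424) (l 16122712))) (b (a (l 15935584) (l 15856720)) (a (l 16048024) (l 15972208))))))) (b (a (b (a (l 2) (b (l 16346376) (a (l 16561680) (l 16500904)))) (a (b (a (l 334570843767) (b (l 16641936) (l 16625936))) (a (l 16518040) (l 16545520))) (b (a (l 16613576) (l 16563152)) (a (l 16521496) (b (l 16588856) (l 16547736)))))) (b (a (b (l 16171464) (a (l 16430328) (l 16351472))) (b (a (l 16167744) (l 16072408)) (a (l 16265424) (l 16173104)))) (a (b (a (l 16499112) (l 16423944)) (a (b (l 16540232) (l 16535968)) (l 16458896))) (b (a (l 16339168) (l 16245944)) (a (l 16394872) (l 16299512)))))) (b (a (b (a (a (l 16383736) (l 16423928)) (b (l 16475544) (l 16408064))) (a (b (l 16307912) (l 16274752)) (b (l 16341832) (l 16278440)))) (b (a (b (l 16469128) (l 16395608)) (b (a (l 16410736) (l 16322512)) (l 16305392))) (a (b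 (l 16320680) (l 16248256)) (b (l 16250152) (l 16171104))))) (a (b (a (b (a (l 16223128) (l 16226688)) (a (l 16186992) (l 16183560))) (b (l 16219832) (l 16168352))) (a (b (a (l 16166888) (l 16157832)) (l 16135000)) (b (l 16132408) (l 16116104)))) (b (a (b (l 16180376) (l 16119624)) (a (l 16086480) (b (l 16065240) (l 15994656)))) (a (b (l 16069888) (a (l 16064520) (l 16017672))) (b (a (l 15996696) (l 15896016)) (a (l 15957192) (l 15772824))))))))), by decide +kernel⟩

theorem s2_pp_023 : ∃ t, chk3 f_pp_023 t 1 1 1 = true := ex3_a k0_pp_023 k1_pp_023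

theorem c_pp_023 : CertB 0 536870912 0 1230186008 991146299 28908434 3 eng mog cd0q0 cd4q3 pd2 false true true .up 0 2 3
    ndB0q0 ndB4q3 pcB2 Cut.none Ext.none :=
  certB2 (fam := false) (s1 := true) (s2 := true) (a := 0) (b := 2) (c := 3) (cn := .up) (n1 := ndB0q0) (n2 := ndB4q3) (pc := pcB2) (cut := Cut.none) (xt := Ext.none) (P1 := 0) (W1 := 536870912) (P2 := 0) (W2 := 1230186008) (P3 := 991146299) (W3 := 28908434) (N0 := 3) (En := eng) (mo := mog) (C1 := cd0q0) (C2 := cd4q3) (C3 := pd2)
    rfl (fun _ => rfl) s2_pp_023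

noncomputable def f_pp_033 : ℕ → ℕ → ℕ → ℕ → Bool := onCell 1610612736 536870912 0 1230186008 991146299 28908434
    (rowB 3 eng mog cd0q0 cd4q3 pd3 2 false true true .pnn 0 3 3 (qsf 0 536870912 0 1230186008 3) ndB0q0 ndB4q3 pcB3 Cut.none Ext.none)

def k0_pp_033 : ∃ t, chk3 f_pp_033 t 1 2 1 = true :=
  ⟨(b (b (a (a (a (l 15901512) (l 15701584)) (a (a (l 16054640) (l 16127128)) (a (l 16153704) (l 16132776)))) (l 4)) (a (a (a (l 15972888) (l 15887552)) (a (a (l 15866880) (l 15906232)) (a (l 15983824) (l 16036696)))) (a (a (a (l 15835800) (l 15867888)) (l 4)) (l 4)))) (a (a (b (a (l 15974168) (l 15910216)) (a (b (l 16087856) (l 15971840)) (b (l 15935048) (l 15948832)))) (b (a (b (l 15825056) (l 15799040)) (a (l 15768840) (b (l 15845504) (l 15703608)))) (a (b (l 15790328) (l 15781072)) (b (l 15656304) (l 15617336))))) (b (a (a (a (l 15799872) (b (l 15902336) (l 15733928))) (a (b (l 15839568) (l 15706568)) (b (l 4) (l 15565824)))) (l 4)) (a (a (a (b (l 15579576) (l 15490056)) (b (l 15547952) (l 15412520))) (a (b (l 15518152) (a (l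 15341768) (l 15296136))) (b (l 15429400) (a (l 15242496) (l 15180208))))) (a (a (b (l 4) (a (l 15108168) (l 15036344))) (l 4)) (l 4)))))), by decide +kernel⟩

def k1_pp_033 : ∃ t, chk3 f_pp_033 t 1 6 1 = true :=
  ⟨(a (a (b (a (b (a (b (l 16188752) (l 16150864)) (b (l 16093568) (l 16107880))) (a (l 16156064) (b (l 16044000) (l 16166384)))) (b (a (l 16005296) (l 15911640)) (a (b (l 16016568) (l 15862256)) (b (l 15911200) (l 15908496))))) (a (b (a (l 16181984) (l 15985536)) (a (b (l 16317920) (l 16282496)) (b (l 16180752) (l 16140672)))) (b (a (c (l 16039376) (l 16075328)) (b (l 15723504) (l 15919152))) (a (b (l 16039704) (l 15974160)) (b (l 15897096) (l 15845776)))))) (b (a (b (a (l 15817104) (l 15721432)) (a (l 15804112) (l 15697424))) (b (a (l 15624632) (l 15523256)) (a (l 15584656) (b (l 15481344) (l 15451240))))) (a (b (a (b (a (l 15808544) (l 15747864)) (a (l 15815296) (l 15737696))) (b (l 15659880) (a (l 15664512) (l 15597856)))) (a (b (l 15753232) (l 15700224)) (b (a (l 15646160) (l 15576336)) (l 15540592)))) (b (a (b (l 15543128)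 (l 15501896)) (b (l 15409024) (l 15366408))) (a (b (a (l 15497984) (l 15422768)) (l 15393648)) (b (l 15317744) (a (l 15292368) (l 15224800)))))))) (b (a (a (b (a (l 15420752) (l 15293392)) (a (l 15331240) (l 15188328))) (a (b (b (l 15198064) (l 15128176)) (l 15031128)) (b (a (l 15050864) (l 14973952)) (l 144985107079)))) (b (a (a (a (l 14897352) (l 1)) (l 1)) (l 1)) (l 1))) (a (a (b (a (b (l 15264544) (l 15216536)) (l 15081776)) (a (b (l 15166768) (l 15107944)) (l 14972784))) (b (a (l 14913552) (l 1)) (l 1))) (l 1)))), by decide +kernel⟩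

def k2_pp_033 : ∃ t, chk3 f_pp_033 t 1 7 1 = true :=
  ⟨(a (b (a (a (b (b (a (l 16221072) (l 16072480)) (a (b (l 16156240) (l 16107824)) (l 15783864))) (b (a (l 16040576) (l 15691456)) (a (l 15956472) (l 15726032)))) (b (a (b (l 15919120) (l 15807760)) (b (l 15761408) (l 15514712))) (b (a (b (l 15703576) (l 15633504)) (b (l 15517216) (l 15426320))) (a (l 15550560) (b (l 15350592) (l 15298760)))))) (a (b (a (b (l 15601904) (l 15274288)) (b (l 15437768) (l 15107832))) (b (a (a (l 15332032) (l 15242928)) (l 15068400)) (a (b (l 15141880) (l 15088704)) (b (l 15005512) (l 1))))) (b (a (b (l 15286512) (l 15071472)) (b (l 15158160) (l 1))) (l 1)))) (a (b (a (b (a (l 15882152) (l 15634176)) (a (l 15804368) (l 15558872))) (a (b (l 15459944) (l 15397184)) (b (l 15247056) (l 15215960)))) (a (b (a (l 15743096) (l 15550832)) (a (l 15672824) (l 15505656))) (b (a (l 15371912) (l 1)) (l 1)))) (b (a (b (a (l 15066952) (l 1)) (l 1)) (l 1)) (l 1)))) (l 1)), by decide +kernel⟩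

theorem s3_pp_033 : ∃ t, chk3 f_pp_033 t 1 3 1 = true := ex3_b k1_pp_033 k2_pp_033

theorem s4_pp_033 : ∃ t, chk3 f_pp_033 t 1 1 1 = true := ex3_b k0_pp_033 s3_pp_033

theorem c_pp_033 : CertB 0 536870912 0 1230186008 991146299 28908434 3 eng mog cd0q0 cd4q3 pd3 false true true .pnn 0 3 3
    ndB0q0 ndB4q3 pcB3 Cut.none Ext.none :=
  certB2 (fam := false) (s1 := true) (s2 := true) (a := 0) (b := 3) (c := 3) (cn := .pnn) (n1 := ndB0q0) (n2 := ndB4q3) (pc := pcB3) (cut := Cut.none) (xt := Ext.none) (P1 := 0) (W1 := 536870912) (P2 := 0) (W2 := 1230186008) (P3 := 991146299) (W3 := 28908434) (N0 := 3) (En := eng) (mo := mog) (C1 := cd0q0) (C2 := cd4q3) (C3 := pd3)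
    rfl (fun _ => rfl) s4_pp_033

noncomputable def f_pp_101 : ℕ → ℕ → ℕ → ℕ → Bool := onCell 536870912 536870912 536870912 536870912 991146299 28908434
    (rowB 3 eng mog cd0q1 cd4q1 pd0 0 false true true .npn 1 0 1 (qsf 536870912 536870912 536870912 536870912 0) ndB0q1 ndB4q1 pcB0 Cut.none Ext.none)

def k0_pp_101 : ∃ t, chk3 f_pp_101 t 1 1 1 = true :=
  ⟨(a (l 3) (l 5)), by decide +kernel⟩

theorem c_pp_101 : CertB 536870912 536870912 536870912 536870912 991146299 28908434 3 eng mog cd0q1 cd4q1 pd0 false true true .npn 1 0 1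
    ndB0q1 ndB4q1 pcB0 Cut.none Ext.none :=
  certB0 (fam := false) (s1 := true) (s2 := true) (a := 1) (b := 0) (c := 1) (cn := .npn) (n1 := ndB0q1) (n2 := ndB4q1) (pc := pcB0) (cut := Cut.none) (xt := Ext.none) (P1 := 536870912) (W1 := 536870912) (P2 := 536870912) (W2 := 536870912) (P3 := 991146299) (W3 := 28908434) (N0 := 3) (En := eng) (mo := mog) (C1 := cd0q1) (C2 := cd4q1) (C3 := pd0)
    rfl k0_pp_101

noncomputable def f_pp_102 : ℕ → ℕ → ℕ → ℕ → Bool := onCell 536870912 536870912 1073741824 536870912 991146299 28908434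
    (rowB 3 eng mog cd0q1 cd4q2 pd0 0 false true true .npp 1 0 2 (qsf 536870912 536870912 1073741824 536870912 0) ndB0q1 ndB4q2 pcB0 Cut.none Ext.none)

def k0_pp_102 : ∃ t, chk3 f_pp_102 t 1 1 1 = true :=
  ⟨(l 3), by decide +kernel⟩

theorem c_pp_102 : CertB 536870912 536870912 1073741824 536870912 991146299 28908434 3 eng mog cd0q1 cd4q2 pd0 false true true .npp 1 0 2
    ndB0q1 ndB4q2 pcB0 Cut.none Ext.none :=
  certB0 (fam := false) (s1 := true) (s2 := true) (a := 1) (b := 0) (c := 2) (cn := .npp) (n1 := ndB0q1) (n2 := ndB4q2) (pc := pcB0) (cut := Cut.none) (xt := Ext.none) (P1 := 536870912) (W1 := 536870912) (P2 := 1073741824) (W2 := 536870912) (P3 := 991146299) (W3 := 28908434) (N0 := 3) (En := eng) (mo := mog) (C1 := cd0q1) (C2 := cd4q2) (C3 := pd0)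
    rfl k0_pp_102

noncomputable def f_pp_112 : ℕ → ℕ → ℕ → ℕ → Bool := onCell 536870912 536870912 1073741824 536870912 991146299 28908434
    (rowB 3 eng mog cd0q1 cd4q2 pd1 0 false true true .dn 1 1 2 (qsf 536870912 536870912 1073741824 536870912 1) ndB0q1 ndB4q2 pcB1 Cut.none Ext.none)

def k0_pp_112 : ∃ t, chk3 f_pp_112 t 1 1 1 = true :=
  ⟨(l 3), by decide +kernel⟩

theorem c_pp_112 : CertB 536870912 536870912 1073741824 536870912 991146299 28908434 3 eng mog cd0q1 cd4q2 pd1 false true true .dn 1 1 2
    ndB0q1 ndB4q2 pcB1 Cut.none Ext.none :=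
  certB0 (fam := false) (s1 := true) (s2 := true) (a := 1) (b := 1) (c := 2) (cn := .dn) (n1 := ndB0q1) (n2 := ndB4q2) (pc := pcB1) (cut := Cut.none) (xt := Ext.none) (P1 := 536870912) (W1 := 536870912) (P2 := 1073741824) (W2 := 536870912) (P3 := 991146299) (W3 := 28908434) (N0 := 3) (En := eng) (mo := mog) (C1 := cd0q1) (C2 := cd4q2) (C3 := pd1)
    rfl k0_pp_112

noncomputable def cut_pp_113 : Cut := Cut.of [[⟨0, 1, 0, 37748736⟩, ⟨1, 1, 0, 37748736⟩, ⟨2, 2, 0, 5242880⟩]]

noncomputable def f_pp_113 : ℕ → ℕ → ℕ → ℕ → Bool := onCell 536870912 536870912 0 1230186008 991146299 28908434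
    (rowB 3 eng mog cd0q1 cd4q3 pd1 2 false true true .nn 1 1 3 (qsf 536870912 536870912 0 1230186008 1) ndB0q1 ndB4q3 pcB1 cut_pp_113 Ext.none)

def k0_pp_113 : ∃ t, chk3 f_pp_113 t 1 1 1 = true :=
  ⟨(b (a (l 2) (a (l 2) (b (a (l 2) (a (l 2) (b (b (l 6) (l 3)) (l 3)))) (l 3)))) (b (a (a (l 2) (b (l 2) (a (l 2) (l 3)))) (l 3)) (a (b (a (l 2) (l 3)) (l 3)) (l 3)))), by decide +kernel⟩

theorem c_pp_113 : CertB 536870912 536870912 0 1230186008 991146299 28908434 3 eng mog cd0q1 cd4q3 pd1 false true true .nn 1 1 3
    ndB0q1 ndB4q3 pcB1 cut_pp_113 Ext.none :=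
  certB2 (fam := false) (s1 := true) (s2 := true) (a := 1) (b := 1) (c := 3) (cn := .nn) (n1 := ndB0q1) (n2 := ndB4q3) (pc := pcB1) (cut := cut_pp_113) (xt := Ext.none) (P1 := 536870912) (W1 := 536870912) (P2 := 0) (W2 := 1230186008) (P3 := 991146299) (W3 := 28908434) (N0 := 3) (En := eng) (mo := mog) (C1 := cd0q1) (C2 := cd4q3) (C3 := pd1)
    rfl (fun _ => rfl) k0_pp_113

end Pool.Agent.Strip051.G.I9231_9500.Tab.C.BB04

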